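import Pool.Agent.Lib.MP_6947cd_al.TC.E01

/-!
Problem MP_6947cd_al (Chollet).  CASE C, tables and certificates.  Table of the row i (part), proof.
-/

set_option autoImplicit false
set_option linter.all false
set_option maxRecDepth 100000
set_option maxHeartbeats 4000000
namespace Pool.Agent.Lib.MP_6947cd_al
namespace TC
open C1
theorem e9_ok : EnvOK 400 0 e9 := envC_sound _ (by decide +kernel)
theorem e10_ok : EnvOK 400 0 e10 := envC_sound _ (by decide +kernel)
theorem e11_ok : EnvOK 400 0 e11 := envC_sound _ (by decide +kernel)
theorem e12_ok : EnvOK 400 0 e12 := envC_sound _ (by decide +kernel)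
theorem e13_ok : EnvOK 400 0 e13 := envC_sound _ (by decide +kernel)
theorem e14_ok : EnvOK 400 0 e14 := envC_sound _ (by decide +kernel)
theorem e15_ok : EnvOK 400 0 e15 := envC_sound _ (by decide +kernel)
theorem e16_ok : EnvOK 400 0 e16 := envC_sound _ (by decide +kernel)
theorem e17_ok : EnvOK 400 0 e17 := envC_sound _ (by decide +kernel)
end TC
end Pool.Agent.Lib.MP_6947cd_al
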