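import Pool.Agent.Lib.MP_6947cd_al.TC.E02

/-!
Problem MP_6947cd_al (Chollet).  CASE C, tables and certificates.  Table of the row i (part), proof.
-/

set_option autoImplicit false
set_option linter.all false
set_option maxRecDepth 100000
set_option maxHeartbeats 4000000
namespace Pool.Agent.Lib.MP_6947cd_al
namespace TC
open C1
theorem e18_ok : EnvOK 400 0 e18 := envC_sound _ (by decide +kernel)
theorem e19_ok : EnvOK 400 0 e19 := envC_sound _ (by decide +kernel)
theorem e20_ok : EnvOK 400 0 e20 := envC_sound _ (by decide +kernel)
theorem e21_ok : EnvOK 400 0 e21 := envC_sound _ (by decide +kernel)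
theorem e22_ok : EnvOK 400 0 e22 := envC_sound _ (by decide +kernel)
theorem e23_ok : EnvOK 400 0 e23 := envC_sound _ (by decide +kernel)
theorem e24_ok : EnvOK 400 0 e24 := envC_sound _ (by decide +kernel)
theorem e25_ok : EnvOK 400 0 e25 := envC_sound _ (by decide +kernel)
theorem e26_ok : EnvOK 400 0 e26 := envC_sound _ (by decide +kernel)
end TC
end Pool.Agent.Lib.MP_6947cd_al
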