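import Pool.Agent.Lib.MP_6947cd_al.TC.E03

/-!
Problem MP_6947cd_al (Chollet).  CASE C, tables and certificates.  Table of the row i (part), proof.
-/

set_option autoImplicit false
set_option linter.all false
set_option maxRecDepth 100000
set_option maxHeartbeats 4000000
namespace Pool.Agent.Lib.MP_6947cd_al
namespace TC
open C1
theorem e27_ok : EnvOK 400 0 e27 := envC_sound _ (by decide +kernel)
theorem e28_ok : EnvOK 400 0 e28 := envC_sound _ (by decide +kernel)
theorem e29_ok : EnvOK 400 0 e29 := envC_sound _ (by decide +kernel)
theorem e30_ok : EnvOK 400 0 e30 := envC_sound _ (by decide +kernel)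
theorem e31_ok : EnvOK 400 0 e31 := envC_sound _ (by decide +kernel)
theorem e32_ok : EnvOK 400 0 e32 := envC_sound _ (by decide +kernel)
theorem e33_ok : EnvOK 400 0 e33 := envC_sound _ (by decide +kernel)
end TC
end Pool.Agent.Lib.MP_6947cd_al
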