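import Pool.Agent.Lib.MP_6947cd_al.TC.E
import Pool.Agent.Lib.MP_6947cd_al.TC.Q00
import Pool.Agent.Lib.MP_6947cd_al.TC.Q01
import Pool.Agent.Lib.MP_6947cd_al.TC.Q02
import Pool.Agent.Lib.MP_6947cd_al.TC.Q03

/-!
Problem MP_6947cd_al (Chollet).  CASE C, tables and certificates.  Table of the row i, proof.
-/

set_option autoImplicit false
set_option linter.all false
set_option maxRecDepth 100000
set_option maxHeartbeats 4000000
namespace Pool.Agent.Lib.MP_6947cd_al
namespace TC
open C1
theorem Ei_ok : EnvOK 400 0 Ei := (.node (.node (.node (.node (.node (.node e0_ok (by decide +kernel) e1_ok) (by decide +kernel) e2_ok) (by decide +kernel) (.node e3_ok (by decide +kernel) e4_ok)) (by decide +kernel) (.node (.node e5_ok (by decide +kernel) e6_ok) (by decide +kernel) (.node e7_ok (by decide +kernel) e8_ok))) (by decide +kernel) (.node (.node (.node e9_ok (by decide +kernel) e10_ok) (by decide +kernel) (.node e11_ok (by decide +kernel) e12_ok)) (by decide +kernel) (.node (.node e13_ok (by decide +kernel) e14_ok) (by decide +kernel) (.node e15_ok (by decide +kernel) e16_ok)))) (by decide +kernel) (.node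 (.node (.node (.node (.node e17_ok (by decide +kernel) e18_ok) (by decide +kernel) e19_ok) (by decide +kernel) (.node e20_ok (by decide +kernel) e21_ok)) (by decide +kernel) (.node (.node e22_ok (by decide +kernel) e23_ok) (by decide +kernel) (.node e24_ok (by decide +kernel) e25_ok))) (by decide +kernel) (.node (.node (.node e26_ok (by decide +kernel) e27_ok) (by decide +kernel) (.node e28_ok (by decide +kernel) e29_ok)) (by decide +kernel) (.node (.node e30_ok (by decide +kernel) e31_ok) (by decide +kernel) (.node e32_ok (by decide +kernel) e33_ok)))))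
end TC
end Pool.Agent.Lib.MP_6947cd_al
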