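import Pool.Agent.Lib.MP_6947cd_al.TC.F
import Pool.Agent.Lib.MP_6947cd_al.TC.P003
import Pool.Agent.Lib.MP_6947cd_al.TC.P004
import Pool.Agent.Lib.MP_6947cd_al.TC.P005
import Pool.Agent.Lib.MP_6947cd_al.TC.P006
import Pool.Agent.Lib.MP_6947cd_al.TC.P007

/-!
Problem MP_6947cd_al (Chollet).  CASE C, tables and certificates.  The families of tables are correct.
-/

set_option autoImplicit false
set_option linter.all false
set_option maxRecDepth 100000
set_option maxHeartbeats 4000000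
namespace Pool.Agent.Lib.MP_6947cd_al
namespace TC
open PkA PkA.TF
theorem T10_ok (h : RcOK RE.rowE) : TOK rd10 ks10 T10 := (ndB (a := (nat_lit 80)) (y := (nat_lit 320)) (z := (nat_lit 320)) (N := (nat_lit 912))
 (ndB (a := (nat_lit 0)) (y := (nat_lit 320)) (z := (nat_lit 320)) (N := (nat_lit 912))
 (ndB (a := (nat_lit 0)) (y := (nat_lit 160)) (z := (nat_lit 240)) (N := (nat_lit 912))
 (ndB (a := (nat_lit 0)) (y := (nat_lit 80)) (z := (nat_lit 240)) (N := (nat_lit 912))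
 (ndB (a := (nat_lit 0)) (y := (nat_lit 0)) (z := (nat_lit 320)) (N := (nat_lit 912))
 (ndB (a := (nat_lit 0)) (y := (nat_lit 0)) (z := (nat_lit 240)) (N := (nat_lit 912))
 .nil
 .nil (p003 h).2.2.1.2.2.1.2 (by decide +kernel))
 .nil (p003 h).2.2.1.2.2.2.1 (by decide +kernel))
 (ndB (a := (nat_lit 0)) (y := (nat_lit 80)) (z := (nat_lit 320)) (N := (nat_lit 912))
 .nil
 .nil (p003 h).2.2.2.1.1.1.1 (by decide +kernel)) (p003 h).2.2.1.2.2.2.2 (by decide +kernel))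
 (ndB (a := (nat_lit 0)) (y := (nat_lit 240)) (z := (nat_lit 320)) (N := (nat_lit 912))
 (ndB (a := (nat_lit 0)) (y := (nat_lit 240)) (z := (nat_lit 240)) (N := (nat_lit 912))
 (ndB (a := (nat_lit 0)) (y := (nat_lit 160)) (z := (nat_lit 320)) (N := (nat_lit 912))
 .nil
 .nil (p003 h).2.2.2.1.1.2.1 (by decide +kernel))
 .nil (p003 h).2.2.2.1.1.2.2 (by decide +kernel))
 (ndB (a := (nat_lit 0)) (y := (nat_lit 240)) (z := (nat_lit 400)) (N := (nat_lit 912))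
 .nil
 .nil (p003 h).2.2.2.1.2.1.2 (by decide +kernel)) (p003 h).2.2.2.1.2.1.1 (by decide +kernel)) (p003 h).2.2.2.1.1.1.2 (by decide +kernel))
 (ndB (a := (nat_lit 80)) (y := (nat_lit 160)) (z := (nat_lit 320)) (N := (nat_lit 912))
 (ndB (a := (nat_lit 80)) (y := (nat_lit 80)) (z := (nat_lit 320)) (N := (nat_lit 912))
 (ndB (a := (nat_lit 80)) (y := (nat_lit 80)) (z := (nat_lit 240)) (N := (nat_lit 912))
 (ndB (a := (nat_lit 0)) (y := (nat_lit 320)) (z := (nat_lit 400)) (N := (nat_lit 912))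
 .nil
 .nil (p003 h).2.2.2.1.2.2.2 (by decide +kernel))
 .nil (p003 h).2.2.2.2.1.1.1 (by decide +kernel))
 (ndB (a := (nat_lit 80)) (y := (nat_lit 160)) (z := (nat_lit 240)) (N := (nat_lit 912))
 .nil
 .nil (p003 h).2.2.2.2.1.2.1 (by decide +kernel)) (p003 h).2.2.2.2.1.1.2 (by decide +kernel))
 (ndB (a := (nat_lit 80)) (y := (nat_lit 240)) (z := (nat_lit 320)) (N := (nat_lit 912))
 (ndB (a := (nat_lit 80)) (y := (nat_lit 240)) (z := (nat_lit 240)) (N := (nat_lit 912))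
 .nil
 .nil (p003 h).2.2.2.2.2.1.1 (by decide +kernel))
 (ndB (a := (nat_lit 80)) (y := (nat_lit 240)) (z := (nat_lit 400)) (N := (nat_lit 912))
 .nil
 .nil (p003 h).2.2.2.2.2.2.1 (by decide +kernel)) (p003 h).2.2.2.2.2.1.2 (by decide +kernel)) (p003 h).2.2.2.2.1.2.2 (by decide +kernel)) (p003 h).2.2.2.1.2.2.1 (by decide +kernel))
 (ndB (a := (nat_lit 240)) (y := (nat_lit 240)) (z := (nat_lit 240)) (N := (nat_lit 912))
 (ndB (a := (nat_lit 160)) (y := (nat_lit 240)) (z := (nat_lit 320)) (N := (nat_lit 912))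
 (ndB (a := (nat_lit 160)) (y := (nat_lit 160)) (z := (nat_lit 320)) (N := (nat_lit 912))
 (ndB (a := (nat_lit 160)) (y := (nat_lit 160)) (z := (nat_lit 240)) (N := (nat_lit 912))
 (ndB (a := (nat_lit 80)) (y := (nat_lit 320)) (z := (nat_lit 400)) (N := (nat_lit 912))
 .nil
 .nil (p004 h).1.1.1.1.1 (by decide +kernel))
 .nil (p004 h).1.1.1.1.2.1 (by decide +kernel))
 (ndB (a := (nat_lit 160)) (y := (nat_lit 240)) (z := (nat_lit 240)) (N := (nat_lit 912))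
 .nil
 .nil (p004 h).1.1.1.2.1 (by decide +kernel)) (p004 h).1.1.1.1.2.2 (by decide +kernel))
 (ndB (a := (nat_lit 160)) (y := (nat_lit 320)) (z := (nat_lit 320)) (N := (nat_lit 912))
 (ndB (a := (nat_lit 160)) (y := (nat_lit 240)) (z := (nat_lit 400)) (N := (nat_lit 912))
 .nil
 .nil (p004 h).1.1.1.2.2.2 (by decide +kernel))
 (ndB (a := (nat_lit 160)) (y := (nat_lit 320)) (z := (nat_lit 400)) (N := (nat_lit 912))
 .nil
 .nil (p004 h).1.1.2.1.2.1 (by decide +kernel)) (p004 h).1.1.2.1.1 (by decide +kernel)) (p004 h).1.1.1.2.2.1 (by decide +kernel))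
 (ndB (a := (nat_lit 240)) (y := (nat_lit 400)) (z := (nat_lit 400)) (N := (nat_lit 912))
 (ndB (a := (nat_lit 240)) (y := (nat_lit 320)) (z := (nat_lit 320)) (N := (nat_lit 912))
 (ndB (a := (nat_lit 240)) (y := (nat_lit 240)) (z := (nat_lit 400)) (N := (nat_lit 912))
 (ndB (a := (nat_lit 240)) (y := (nat_lit 240)) (z := (nat_lit 320)) (N := (nat_lit 912))
 .nil
 .nil (p004 h).1.1.2.2.1.1 (by decide +kernel))
 .nil (p004 h).1.1.2.2.1.2 (by decide +kernel))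
 (ndB (a := (nat_lit 240)) (y := (nat_lit 320)) (z := (nat_lit 400)) (N := (nat_lit 912))
 .nil
 .nil (p004 h).1.1.2.2.2.2 (by decide +kernel)) (p004 h).1.1.2.2.2.1 (by decide +kernel))
 (ndB (a := (nat_lit 320)) (y := (nat_lit 320)) (z := (nat_lit 400)) (N := (nat_lit 912))
 (ndB (a := (nat_lit 320)) (y := (nat_lit 320)) (z := (nat_lit 320)) (N := (nat_lit 912))
 .nil
 .nil (p004 h).1.2.1.1.2.1 (by decide +kernel))
 (ndB (a := (nat_lit 320)) (y := (nat_lit 400)) (z := (nat_lit 400)) (N := (nat_lit 912))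
 .nil
 .nil (p004 h).1.2.1.2.1 (by decide +kernel)) (p004 h).1.2.1.1.2.2 (by decide +kernel)) (p004 h).1.2.1.1.1 (by decide +kernel)) (p004 h).1.1.2.1.2.2 (by decide +kernel)) (p003 h).2.2.2.2.2.2.2 (by decide +kernel))
theorem F10_ok (h : RcOK RE.rowE) : F10.OK := .of (by decide +kernel) (T10_ok h)
theorem T11_ok (h : RcOK RE.rowE) : TOK rd11 ks11 T11 := (ndB (a := (nat_lit 80)) (y := (nat_lit 320)) (z := (nat_lit 320)) (N := (nat_lit 1140))
 (ndB (a := (nat_lit 0)) (y := (nat_lit 320)) (z := (nat_lit 320)) (N := (nat_lit 1140))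
 (ndB (a := (nat_lit 0)) (y := (nat_lit 160)) (z := (nat_lit 240)) (N := (nat_lit 1140))
 (ndB (a := (nat_lit 0)) (y := (nat_lit 80)) (z := (nat_lit 240)) (N := (nat_lit 1140))
 (ndB (a := (nat_lit 0)) (y := (nat_lit 0)) (z := (nat_lit 320)) (N := (nat_lit 1140))
 (ndB (a := (nat_lit 0)) (y := (nat_lit 0)) (z := (nat_lit 240)) (N := (nat_lit 1140))
 .nil
 .nil (p004 h).1.2.1.2.2.1 (by decide +kernel))
 .nil (p004 h).1.2.1.2.2.2 (by decide +kernel))
 (ndB (a := (nat_lit 0)) (y := (nat_lit 80)) (z := (nat_lit 320)) (N := (nat_lit 1140))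
 .nil
 .nil (p004 h).1.2.2.1.2.1 (by decide +kernel)) (p004 h).1.2.2.1.1 (by decide +kernel))
 (ndB (a := (nat_lit 0)) (y := (nat_lit 240)) (z := (nat_lit 320)) (N := (nat_lit 1140))
 (ndB (a := (nat_lit 0)) (y := (nat_lit 240)) (z := (nat_lit 240)) (N := (nat_lit 1140))
 (ndB (a := (nat_lit 0)) (y := (nat_lit 160)) (z := (nat_lit 320)) (N := (nat_lit 1140))
 .nil
 .nil (p004 h).1.2.2.2.1.1 (by decide +kernel))
 .nil (p004 h).1.2.2.2.1.2 (by decide +kernel))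
 (ndB (a := (nat_lit 0)) (y := (nat_lit 240)) (z := (nat_lit 400)) (N := (nat_lit 1140))
 .nil
 .nil (p004 h).1.2.2.2.2.2 (by decide +kernel)) (p004 h).1.2.2.2.2.1 (by decide +kernel)) (p004 h).1.2.2.1.2.2 (by decide +kernel))
 (ndB (a := (nat_lit 80)) (y := (nat_lit 160)) (z := (nat_lit 320)) (N := (nat_lit 1140))
 (ndB (a := (nat_lit 80)) (y := (nat_lit 80)) (z := (nat_lit 320)) (N := (nat_lit 1140))
 (ndB (a := (nat_lit 80)) (y := (nat_lit 80)) (z := (nat_lit 240)) (N := (nat_lit 1140))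
 (ndB (a := (nat_lit 0)) (y := (nat_lit 320)) (z := (nat_lit 400)) (N := (nat_lit 1140))
 .nil
 .nil (p004 h).2.1.1.1.2.1 (by decide +kernel))
 .nil (p004 h).2.1.1.1.2.2 (by decide +kernel))
 (ndB (a := (nat_lit 80)) (y := (nat_lit 160)) (z := (nat_lit 240)) (N := (nat_lit 1140))
 .nil
 .nil (p004 h).2.1.1.2.2.1 (by decide +kernel)) (p004 h).2.1.1.2.1 (by decide +kernel))
 (ndB (a := (nat_lit 80)) (y := (nat_lit 240)) (z := (nat_lit 320)) (N := (nat_lit 1140))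
 (ndB (a := (nat_lit 80)) (y := (nat_lit 240)) (z := (nat_lit 240)) (N := (nat_lit 1140))
 .nil
 .nil (p004 h).2.1.2.1.1 (by decide +kernel))
 (ndB (a := (nat_lit 80)) (y := (nat_lit 240)) (z := (nat_lit 400)) (N := (nat_lit 1140))
 .nil
 .nil (p004 h).2.1.2.1.2.2 (by decide +kernel)) (p004 h).2.1.2.1.2.1 (by decide +kernel)) (p004 h).2.1.1.2.2.2 (by decide +kernel)) (p004 h).2.1.1.1.1 (by decide +kernel))
 (ndB (a := (nat_lit 240)) (y := (nat_lit 240)) (z := (nat_lit 240)) (N := (nat_lit 1140))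
 (ndB (a := (nat_lit 160)) (y := (nat_lit 240)) (z := (nat_lit 320)) (N := (nat_lit 1140))
 (ndB (a := (nat_lit 160)) (y := (nat_lit 160)) (z := (nat_lit 320)) (N := (nat_lit 1140))
 (ndB (a := (nat_lit 160)) (y := (nat_lit 160)) (z := (nat_lit 240)) (N := (nat_lit 1140))
 (ndB (a := (nat_lit 80)) (y := (nat_lit 320)) (z := (nat_lit 400)) (N := (nat_lit 1140))
 .nil
 .nil (p004 h).2.1.2.2.1.2 (by decide +kernel))
 .nil (p004 h).2.1.2.2.2.1 (by decide +kernel))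
 (ndB (a := (nat_lit 160)) (y := (nat_lit 240)) (z := (nat_lit 240)) (N := (nat_lit 1140))
 .nil
 .nil (p004 h).2.2.1.1.1 (by decide +kernel)) (p004 h).2.1.2.2.2.2 (by decide +kernel))
 (ndB (a := (nat_lit 160)) (y := (nat_lit 320)) (z := (nat_lit 320)) (N := (nat_lit 1140))
 (ndB (a := (nat_lit 160)) (y := (nat_lit 240)) (z := (nat_lit 400)) (N := (nat_lit 1140))
 .nil
 .nil (p004 h).2.2.1.1.2.2 (by decide +kernel))
 (ndB (a := (nat_lit 160)) (y := (nat_lit 320)) (z := (nat_lit 400)) (N := (nat_lit 1140))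
 .nil
 .nil (p004 h).2.2.1.2.2.1 (by decide +kernel)) (p004 h).2.2.1.2.1 (by decide +kernel)) (p004 h).2.2.1.1.2.1 (by decide +kernel))
 (ndB (a := (nat_lit 240)) (y := (nat_lit 400)) (z := (nat_lit 400)) (N := (nat_lit 1140))
 (ndB (a := (nat_lit 240)) (y := (nat_lit 320)) (z := (nat_lit 320)) (N := (nat_lit 1140))
 (ndB (a := (nat_lit 240)) (y := (nat_lit 240)) (z := (nat_lit 400)) (N := (nat_lit 1140))
 (ndB (a := (nat_lit 240)) (y := (nat_lit 240)) (z := (nat_lit 320)) (N := (nat_lit 1140))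
 .nil
 .nil (p004 h).2.2.2.1.1 (by decide +kernel))
 .nil (p004 h).2.2.2.1.2.1 (by decide +kernel))
 (ndB (a := (nat_lit 240)) (y := (nat_lit 320)) (z := (nat_lit 400)) (N := (nat_lit 1140))
 .nil
 .nil (p004 h).2.2.2.2.1.1 (by decide +kernel)) (p004 h).2.2.2.1.2.2 (by decide +kernel))
 (ndB (a := (nat_lit 320)) (y := (nat_lit 320)) (z := (nat_lit 400)) (N := (nat_lit 1140))
 (ndB (a := (nat_lit 320)) (y := (nat_lit 320)) (z := (nat_lit 320)) (N := (nat_lit 1140))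
 .nil
 .nil (p004 h).2.2.2.2.2.1 (by decide +kernel))
 (ndB (a := (nat_lit 320)) (y := (nat_lit 400)) (z := (nat_lit 400)) (N := (nat_lit 1140))
 .nil
 .nil (p005 h).1.1.1.1.1.1.1 (by decide +kernel)) (p004 h).2.2.2.2.2.2 (by decide +kernel)) (p004 h).2.2.2.2.1.2 (by decide +kernel)) (p004 h).2.2.1.2.2.2 (by decide +kernel)) (p004 h).2.1.2.2.1.1 (by decide +kernel))
theorem F11_ok (h : RcOK RE.rowE) : F11.OK := .of (by decide +kernel) (T11_ok h)
theorem T12_ok (h : RcOK RE.rowE) : TOK rd12 ks12 T12 := (ndB (a := (nat_lit 80)) (y := (nat_lit 320)) (z := (nat_lit 400)) (N := (nat_lit 680))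
 (ndB (a := (nat_lit 0)) (y := (nat_lit 320)) (z := (nat_lit 400)) (N := (nat_lit 680))
 (ndB (a := (nat_lit 0)) (y := (nat_lit 240)) (z := (nat_lit 240)) (N := (nat_lit 680))
 (ndB (a := (nat_lit 0)) (y := (nat_lit 160)) (z := (nat_lit 240)) (N := (nat_lit 680))
 (ndB (a := (nat_lit 0)) (y := (nat_lit 80)) (z := (nat_lit 320)) (N := (nat_lit 680))
 (ndB (a := (nat_lit 0)) (y := (nat_lit 80)) (z := (nat_lit 240)) (N := (nat_lit 680))
 .nil
 .nil (p005 h).1.1.1.1.1.1.2 (by decide +kernel))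
 .nil (p005 h).1.1.1.1.1.2.1 (by decide +kernel))
 (ndB (a := (nat_lit 0)) (y := (nat_lit 160)) (z := (nat_lit 320)) (N := (nat_lit 680))
 .nil
 .nil (p005 h).1.1.1.1.2.1.1 (by decide +kernel)) (p005 h).1.1.1.1.1.2.2 (by decide +kernel))
 (ndB (a := (nat_lit 0)) (y := (nat_lit 240)) (z := (nat_lit 400)) (N := (nat_lit 680))
 (ndB (a := (nat_lit 0)) (y := (nat_lit 240)) (z := (nat_lit 320)) (N := (nat_lit 680))
 .nil
 .nil (p005 h).1.1.1.1.2.2.1 (by decide +kernel))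
 (ndB (a := (nat_lit 0)) (y := (nat_lit 320)) (z := (nat_lit 320)) (N := (nat_lit 680))
 .nil
 .nil (p005 h).1.1.1.1.2.2.2.2 (by decide +kernel)) (p005 h).1.1.1.1.2.2.2.1 (by decide +kernel)) (p005 h).1.1.1.1.2.1.2 (by decide +kernel))
 (ndB (a := (nat_lit 80)) (y := (nat_lit 240)) (z := (nat_lit 240)) (N := (nat_lit 680))
 (ndB (a := (nat_lit 80)) (y := (nat_lit 160)) (z := (nat_lit 240)) (N := (nat_lit 680))
 (ndB (a := (nat_lit 80)) (y := (nat_lit 80)) (z := (nat_lit 320)) (N := (nat_lit 680))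
 (ndB (a := (nat_lit 80)) (y := (nat_lit 80)) (z := (nat_lit 240)) (N := (nat_lit 680))
 .nil
 .nil (p005 h).1.1.1.2.1.1.2 (by decide +kernel))
 .nil (p005 h).1.1.1.2.1.2.1 (by decide +kernel))
 (ndB (a := (nat_lit 80)) (y := (nat_lit 160)) (z := (nat_lit 320)) (N := (nat_lit 680))
 .nil
 .nil (p005 h).1.1.1.2.2.1.1 (by decide +kernel)) (p005 h).1.1.1.2.1.2.2 (by decide +kernel))
 (ndB (a := (nat_lit 80)) (y := (nat_lit 240)) (z := (nat_lit 400)) (N := (nat_lit 680))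
 (ndB (a := (nat_lit 80)) (y := (nat_lit 240)) (z := (nat_lit 320)) (N := (nat_lit 680))
 .nil
 .nil (p005 h).1.1.1.2.2.2.1 (by decide +kernel))
 (ndB (a := (nat_lit 80)) (y := (nat_lit 320)) (z := (nat_lit 320)) (N := (nat_lit 680))
 .nil
 .nil (p005 h).1.1.1.2.2.2.2.2 (by decide +kernel)) (p005 h).1.1.1.2.2.2.2.1 (by decide +kernel)) (p005 h).1.1.1.2.2.1.2 (by decide +kernel)) (p005 h).1.1.1.2.1.1.1 (by decide +kernel))
 (ndB (a := (nat_lit 240)) (y := (nat_lit 240)) (z := (nat_lit 320)) (N := (nat_lit 680))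
 (ndB (a := (nat_lit 160)) (y := (nat_lit 240)) (z := (nat_lit 400)) (N := (nat_lit 680))
 (ndB (a := (nat_lit 160)) (y := (nat_lit 240)) (z := (nat_lit 240)) (N := (nat_lit 680))
 (ndB (a := (nat_lit 160)) (y := (nat_lit 160)) (z := (nat_lit 320)) (N := (nat_lit 680))
 (ndB (a := (nat_lit 160)) (y := (nat_lit 160)) (z := (nat_lit 240)) (N := (nat_lit 680))
 .nil
 .nil (p005 h).1.1.2.1.1.1.2 (by decide +kernel))
 .nil (p005 h).1.1.2.1.1.2.1 (by decide +kernel))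
 (ndB (a := (nat_lit 160)) (y := (nat_lit 240)) (z := (nat_lit 320)) (N := (nat_lit 680))
 .nil
 .nil (p005 h).1.1.2.1.2.1.1 (by decide +kernel)) (p005 h).1.1.2.1.1.2.2 (by decide +kernel))
 (ndB (a := (nat_lit 160)) (y := (nat_lit 320)) (z := (nat_lit 400)) (N := (nat_lit 680))
 (ndB (a := (nat_lit 160)) (y := (nat_lit 320)) (z := (nat_lit 320)) (N := (nat_lit 680))
 .nil
 .nil (p005 h).1.1.2.1.2.2.1 (by decide +kernel))
 (ndB (a := (nat_lit 240)) (y := (nat_lit 240)) (z := (nat_lit 240)) (N := (nat_lit 680))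
 .nil
 .nil (p005 h).1.1.2.1.2.2.2.2 (by decide +kernel)) (p005 h).1.1.2.1.2.2.2.1 (by decide +kernel)) (p005 h).1.1.2.1.2.1.2 (by decide +kernel))
 (ndB (a := (nat_lit 240)) (y := (nat_lit 400)) (z := (nat_lit 400)) (N := (nat_lit 680))
 (ndB (a := (nat_lit 240)) (y := (nat_lit 320)) (z := (nat_lit 320)) (N := (nat_lit 680))
 (ndB (a := (nat_lit 240)) (y := (nat_lit 240)) (z := (nat_lit 400)) (N := (nat_lit 680))
 .nil
 .nil (p005 h).1.1.2.2.1.1.2 (by decide +kernel))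
 (ndB (a := (nat_lit 240)) (y := (nat_lit 320)) (z := (nat_lit 400)) (N := (nat_lit 680))
 .nil
 .nil (p005 h).1.1.2.2.1.2.2 (by decide +kernel)) (p005 h).1.1.2.2.1.2.1 (by decide +kernel))
 (ndB (a := (nat_lit 320)) (y := (nat_lit 320)) (z := (nat_lit 400)) (N := (nat_lit 680))
 (ndB (a := (nat_lit 320)) (y := (nat_lit 320)) (z := (nat_lit 320)) (N := (nat_lit 680))
 .nil
 .nil (p005 h).1.1.2.2.2.1.2 (by decide +kernel))
 (ndB (a := (nat_lit 320)) (y := (nat_lit 400)) (z := (nat_lit 400)) (N := (nat_lit 680))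
 .nil
 .nil (p005 h).1.1.2.2.2.2.2.1 (by decide +kernel)) (p005 h).1.1.2.2.2.2.1 (by decide +kernel)) (p005 h).1.1.2.2.2.1.1 (by decide +kernel)) (p005 h).1.1.2.2.1.1.1 (by decide +kernel)) (p005 h).1.1.2.1.1.1.1 (by decide +kernel))
theorem F12_ok (h : RcOK RE.rowE) : F12.OK := .of (by decide +kernel) (T12_ok h)
theorem T13_ok (h : RcOK RE.rowE) : TOK rd13 ks13 T13 := (ndB (a := (nat_lit 80)) (y := (nat_lit 400)) (z := (nat_lit 400)) (N := (nat_lit 520))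
 (ndB (a := (nat_lit 80)) (y := (nat_lit 80)) (z := (nat_lit 320)) (N := (nat_lit 520))
 (ndB (a := (nat_lit 0)) (y := (nat_lit 240)) (z := (nat_lit 320)) (N := (nat_lit 520))
 (ndB (a := (nat_lit 0)) (y := (nat_lit 160)) (z := (nat_lit 240)) (N := (nat_lit 520))
 (ndB (a := (nat_lit 0)) (y := (nat_lit 80)) (z := (nat_lit 320)) (N := (nat_lit 520))
 (ndB (a := (nat_lit 0)) (y := (nat_lit 80)) (z := (nat_lit 240)) (N := (nat_lit 520))
 .nil
 .nil (p005 h).1.1.2.2.2.2.2.2 (by decide +kernel))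
 .nil (p005 h).1.2.1.1.1.1.1 (by decide +kernel))
 (ndB (a := (nat_lit 0)) (y := (nat_lit 240)) (z := (nat_lit 240)) (N := (nat_lit 520))
 (ndB (a := (nat_lit 0)) (y := (nat_lit 160)) (z := (nat_lit 320)) (N := (nat_lit 520))
 .nil
 .nil (p005 h).1.2.1.1.1.2.1 (by decide +kernel))
 .nil (p005 h).1.2.1.1.1.2.2 (by decide +kernel)) (p005 h).1.2.1.1.1.1.2 (by decide +kernel))
 (ndB (a := (nat_lit 0)) (y := (nat_lit 320)) (z := (nat_lit 400)) (N := (nat_lit 520))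
 (ndB (a := (nat_lit 0)) (y := (nat_lit 320)) (z := (nat_lit 320)) (N := (nat_lit 520))
 (ndB (a := (nat_lit 0)) (y := (nat_lit 240)) (z := (nat_lit 400)) (N := (nat_lit 520))
 .nil
 .nil (p005 h).1.2.1.1.2.1.2 (by decide +kernel))
 .nil (p005 h).1.2.1.1.2.2.1 (by decide +kernel))
 (ndB (a := (nat_lit 80)) (y := (nat_lit 80)) (z := (nat_lit 240)) (N := (nat_lit 520))
 .nil
 .nil (p005 h).1.2.1.1.2.2.2.2 (by decide +kernel)) (p005 h).1.2.1.1.2.2.2.1 (by decide +kernel)) (p005 h).1.2.1.1.2.1.1 (by decide +kernel))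
 (ndB (a := (nat_lit 80)) (y := (nat_lit 240)) (z := (nat_lit 240)) (N := (nat_lit 520))
 (ndB (a := (nat_lit 80)) (y := (nat_lit 160)) (z := (nat_lit 320)) (N := (nat_lit 520))
 (ndB (a := (nat_lit 80)) (y := (nat_lit 160)) (z := (nat_lit 240)) (N := (nat_lit 520))
 (ndB (a := (nat_lit 80)) (y := (nat_lit 80)) (z := (nat_lit 400)) (N := (nat_lit 520))
 .nil
 .nil (p005 h).1.2.1.2.1.1.2 (by decide +kernel))
 .nil (p005 h).1.2.1.2.1.2.1 (by decide +kernel))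
 (ndB (a := (nat_lit 80)) (y := (nat_lit 160)) (z := (nat_lit 400)) (N := (nat_lit 520))
 .nil
 .nil (p005 h).1.2.1.2.2.1.1 (by decide +kernel)) (p005 h).1.2.1.2.1.2.2 (by decide +kernel))
 (ndB (a := (nat_lit 80)) (y := (nat_lit 320)) (z := (nat_lit 320)) (N := (nat_lit 520))
 (ndB (a := (nat_lit 80)) (y := (nat_lit 240)) (z := (nat_lit 400)) (N := (nat_lit 520))
 (ndB (a := (nat_lit 80)) (y := (nat_lit 240)) (z := (nat_lit 320)) (N := (nat_lit 520))
 .nil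
 .nil (p005 h).1.2.1.2.2.2.1 (by decide +kernel))
 .nil (p005 h).1.2.1.2.2.2.2.1 (by decide +kernel))
 (ndB (a := (nat_lit 80)) (y := (nat_lit 320)) (z := (nat_lit 400)) (N := (nat_lit 520))
 .nil
 .nil (p005 h).1.2.2.1.1.1.1 (by decide +kernel)) (p005 h).1.2.1.2.2.2.2.2 (by decide +kernel)) (p005 h).1.2.1.2.2.1.2 (by decide +kernel)) (p005 h).1.2.1.2.1.1.1 (by decide +kernel))
 (ndB (a := (nat_lit 240)) (y := (nat_lit 240)) (z := (nat_lit 240)) (N := (nat_lit 520))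
 (ndB (a := (nat_lit 160)) (y := (nat_lit 240)) (z := (nat_lit 320)) (N := (nat_lit 520))
 (ndB (a := (nat_lit 160)) (y := (nat_lit 160)) (z := (nat_lit 400)) (N := (nat_lit 520))
 (ndB (a := (nat_lit 160)) (y := (nat_lit 160)) (z := (nat_lit 320)) (N := (nat_lit 520))
 (ndB (a := (nat_lit 160)) (y := (nat_lit 160)) (z := (nat_lit 240)) (N := (nat_lit 520))
 .nil
 .nil (p005 h).1.2.2.1.1.2.1 (by decide +kernel))
 .nil (p005 h).1.2.2.1.1.2.2 (by decide +kernel))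
 (ndB (a := (nat_lit 160)) (y := (nat_lit 240)) (z := (nat_lit 240)) (N := (nat_lit 520))
 .nil
 .nil (p005 h).1.2.2.1.2.1.2 (by decide +kernel)) (p005 h).1.2.2.1.2.1.1 (by decide +kernel))
 (ndB (a := (nat_lit 160)) (y := (nat_lit 320)) (z := (nat_lit 400)) (N := (nat_lit 520))
 (ndB (a := (nat_lit 160)) (y := (nat_lit 320)) (z := (nat_lit 320)) (N := (nat_lit 520))
 (ndB (a := (nat_lit 160)) (y := (nat_lit 240)) (z := (nat_lit 400)) (N := (nat_lit 520))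
 .nil
 .nil (p005 h).1.2.2.1.2.2.2.1 (by decide +kernel))
 .nil (p005 h).1.2.2.1.2.2.2.2 (by decide +kernel))
 (ndB (a := (nat_lit 160)) (y := (nat_lit 400)) (z := (nat_lit 400)) (N := (nat_lit 520))
 .nil
 .nil (p005 h).1.2.2.2.1.1.2 (by decide +kernel)) (p005 h).1.2.2.2.1.1.1 (by decide +kernel)) (p005 h).1.2.2.1.2.2.1 (by decide +kernel))
 (ndB (a := (nat_lit 240)) (y := (nat_lit 400)) (z := (nat_lit 400)) (N := (nat_lit 520))
 (ndB (a := (nat_lit 240)) (y := (nat_lit 320)) (z := (nat_lit 320)) (N := (nat_lit 520))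
 (ndB (a := (nat_lit 240)) (y := (nat_lit 240)) (z := (nat_lit 400)) (N := (nat_lit 520))
 (ndB (a := (nat_lit 240)) (y := (nat_lit 240)) (z := (nat_lit 320)) (N := (nat_lit 520))
 .nil
 .nil (p005 h).1.2.2.2.1.2.2 (by decide +kernel))
 .nil (p005 h).1.2.2.2.2.1.1 (by decide +kernel))
 (ndB (a := (nat_lit 240)) (y := (nat_lit 320)) (z := (nat_lit 400)) (N := (nat_lit 520))
 .nil
 .nil (p005 h).1.2.2.2.2.2.1 (by decide +kernel)) (p005 h).1.2.2.2.2.1.2 (by decide +kernel))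
 (ndB (a := (nat_lit 320)) (y := (nat_lit 400)) (z := (nat_lit 400)) (N := (nat_lit 520))
 (ndB (a := (nat_lit 320)) (y := (nat_lit 320)) (z := (nat_lit 400)) (N := (nat_lit 520))
 (ndB (a := (nat_lit 320)) (y := (nat_lit 320)) (z := (nat_lit 320)) (N := (nat_lit 520))
 .nil
 .nil (p005 h).1.2.2.2.2.2.2.2 (by decide +kernel))
 .nil (p005 h).2.1.1.1.1.1.1 (by decide +kernel))
 (ndB (a := (nat_lit 400)) (y := (nat_lit 400)) (z := (nat_lit 400)) (N := (nat_lit 520))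
 .nil
 .nil (p005 h).2.1.1.1.1.2.1 (by decide +kernel)) (p005 h).2.1.1.1.1.1.2 (by decide +kernel)) (p005 h).1.2.2.2.2.2.2.1 (by decide +kernel)) (p005 h).1.2.2.2.1.2.1 (by decide +kernel)) (p005 h).1.2.2.1.1.1.2 (by decide +kernel))
theorem F13_ok (h : RcOK RE.rowE) : F13.OK := .of (by decide +kernel) (T13_ok h)
theorem T14_ok (h : RcOK RE.rowE) : TOK rd14 ks14 T14 := (ndB (a := (nat_lit 160)) (y := (nat_lit 240)) (z := (nat_lit 400)) (N := (nat_lit 264))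
 (ndB (a := (nat_lit 0)) (y := (nat_lit 320)) (z := (nat_lit 320)) (N := (nat_lit 264))
 (ndB (a := (nat_lit 0)) (y := (nat_lit 240)) (z := (nat_lit 240)) (N := (nat_lit 264))
 (ndB (a := (nat_lit 0)) (y := (nat_lit 160)) (z := (nat_lit 320)) (N := (nat_lit 264))
 (ndB (a := (nat_lit 0)) (y := (nat_lit 160)) (z := (nat_lit 240)) (N := (nat_lit 264))
 .nil
 .nil (p005 h).2.1.1.1.1.2.2 (by decide +kernel))
 .nil (p005 h).2.1.1.1.2.1.1 (by decide +kernel))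
 (ndB (a := (nat_lit 0)) (y := (nat_lit 240)) (z := (nat_lit 400)) (N := (nat_lit 264))
 (ndB (a := (nat_lit 0)) (y := (nat_lit 240)) (z := (nat_lit 320)) (N := (nat_lit 264))
 .nil
 .nil (p005 h).2.1.1.1.2.2.1 (by decide +kernel))
 .nil (p005 h).2.1.1.1.2.2.2.1 (by decide +kernel)) (p005 h).2.1.1.1.2.1.2 (by decide +kernel))
 (ndB (a := (nat_lit 160)) (y := (nat_lit 160)) (z := (nat_lit 320)) (N := (nat_lit 264))
 (ndB (a := (nat_lit 160)) (y := (nat_lit 160)) (z := (nat_lit 240)) (N := (nat_lit 264))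
 (ndB (a := (nat_lit 0)) (y := (nat_lit 320)) (z := (nat_lit 400)) (N := (nat_lit 264))
 .nil
 .nil (p005 h).2.1.1.2.1.1.1 (by decide +kernel))
 .nil (p005 h).2.1.1.2.1.1.2 (by decide +kernel))
 (ndB (a := (nat_lit 160)) (y := (nat_lit 240)) (z := (nat_lit 320)) (N := (nat_lit 264))
 (ndB (a := (nat_lit 160)) (y := (nat_lit 240)) (z := (nat_lit 240)) (N := (nat_lit 264))
 .nil
 .nil (p005 h).2.1.1.2.1.2.2 (by decide +kernel))
 .nil (p005 h).2.1.1.2.2.1.1 (by decide +kernel)) (p005 h).2.1.1.2.1.2.1 (by decide +kernel)) (p005 h).2.1.1.1.2.2.2.2 (by decide +kernel))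
 (ndB (a := (nat_lit 240)) (y := (nat_lit 320)) (z := (nat_lit 320)) (N := (nat_lit 264))
 (ndB (a := (nat_lit 240)) (y := (nat_lit 240)) (z := (nat_lit 240)) (N := (nat_lit 264))
 (ndB (a := (nat_lit 160)) (y := (nat_lit 320)) (z := (nat_lit 400)) (N := (nat_lit 264))
 (ndB (a := (nat_lit 160)) (y := (nat_lit 320)) (z := (nat_lit 320)) (N := (nat_lit 264))
 .nil
 .nil (p005 h).2.1.1.2.2.2.1 (by decide +kernel))
 .nil (p005 h).2.1.1.2.2.2.2.1 (by decide +kernel))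
 (ndB (a := (nat_lit 240)) (y := (nat_lit 240)) (z := (nat_lit 400)) (N := (nat_lit 264))
 (ndB (a := (nat_lit 240)) (y := (nat_lit 240)) (z := (nat_lit 320)) (N := (nat_lit 264))
 .nil
 .nil (p005 h).2.1.2.1.1.1.1 (by decide +kernel))
 .nil (p005 h).2.1.2.1.1.1.2 (by decide +kernel)) (p005 h).2.1.1.2.2.2.2.2 (by decide +kernel))
 (ndB (a := (nat_lit 320)) (y := (nat_lit 320)) (z := (nat_lit 320)) (N := (nat_lit 264))
 (ndB (a := (nat_lit 240)) (y := (nat_lit 400)) (z := (nat_lit 400)) (N := (nat_lit 264))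
 (ndB (a := (nat_lit 240)) (y := (nat_lit 320)) (z := (nat_lit 400)) (N := (nat_lit 264))
 .nil
 .nil (p005 h).2.1.2.1.1.2.2 (by decide +kernel))
 .nil (p005 h).2.1.2.1.2.1.1 (by decide +kernel))
 (ndB (a := (nat_lit 320)) (y := (nat_lit 400)) (z := (nat_lit 400)) (N := (nat_lit 264))
 (ndB (a := (nat_lit 320)) (y := (nat_lit 320)) (z := (nat_lit 400)) (N := (nat_lit 264))
 .nil
 .nil (p005 h).2.1.2.1.2.2.1 (by decide +kernel))
 .nil (p005 h).2.1.2.1.2.2.2.1 (by decide +kernel)) (p005 h).2.1.2.1.2.1.2 (by decide +kernel)) (p005 h).2.1.2.1.1.2.1 (by decide +kernel)) (p005 h).2.1.1.2.2.1.2 (by decide +kernel))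
theorem F14_ok (h : RcOK RE.rowE) : F14.OK := .of (by decide +kernel) (T14_ok h)
theorem T15_ok (h : RcOK RE.rowE) : TOK rd15 ks15 T15 := (ndB (a := (nat_lit 80)) (y := (nat_lit 240)) (z := (nat_lit 400)) (N := (nat_lit 35))
 (ndB (a := (nat_lit 0)) (y := (nat_lit 240)) (z := (nat_lit 400)) (N := (nat_lit 35))
 (ndB (a := (nat_lit 0)) (y := (nat_lit 160)) (z := (nat_lit 240)) (N := (nat_lit 35))
 (ndB (a := (nat_lit 0)) (y := (nat_lit 80)) (z := (nat_lit 240)) (N := (nat_lit 35))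
 (ndB (a := (nat_lit 0)) (y := (nat_lit 0)) (z := (nat_lit 320)) (N := (nat_lit 35))
 (ndB (a := (nat_lit 0)) (y := (nat_lit 0)) (z := (nat_lit 240)) (N := (nat_lit 35))
 .nil
 .nil (p005 h).2.1.2.1.2.2.2.2 (by decide +kernel))
 .nil (p005 h).2.1.2.2.1.1.1 (by decide +kernel))
 (ndB (a := (nat_lit 0)) (y := (nat_lit 80)) (z := (nat_lit 320)) (N := (nat_lit 35))
 .nil
 .nil (p005 h).2.1.2.2.1.2.1 (by decide +kernel)) (p005 h).2.1.2.2.1.1.2 (by decide +kernel))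
 (ndB (a := (nat_lit 0)) (y := (nat_lit 240)) (z := (nat_lit 240)) (N := (nat_lit 35))
 (ndB (a := (nat_lit 0)) (y := (nat_lit 160)) (z := (nat_lit 320)) (N := (nat_lit 35))
 .nil
 .nil (p005 h).2.1.2.2.2.1.1 (by decide +kernel))
 (ndB (a := (nat_lit 0)) (y := (nat_lit 240)) (z := (nat_lit 320)) (N := (nat_lit 35))
 .nil
 .nil (p005 h).2.1.2.2.2.2.1 (by decide +kernel)) (p005 h).2.1.2.2.2.1.2 (by decide +kernel)) (p005 h).2.1.2.2.1.2.2 (by decide +kernel))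
 (ndB (a := (nat_lit 80)) (y := (nat_lit 160)) (z := (nat_lit 240)) (N := (nat_lit 35))
 (ndB (a := (nat_lit 80)) (y := (nat_lit 80)) (z := (nat_lit 240)) (N := (nat_lit 35))
 (ndB (a := (nat_lit 0)) (y := (nat_lit 320)) (z := (nat_lit 400)) (N := (nat_lit 35))
 (ndB (a := (nat_lit 0)) (y := (nat_lit 320)) (z := (nat_lit 320)) (N := (nat_lit 35))
 .nil
 .nil (p005 h).2.1.2.2.2.2.2.2 (by decide +kernel))
 .nil (p005 h).2.2.1.1.1.1.1 (by decide +kernel))
 (ndB (a := (nat_lit 80)) (y := (nat_lit 80)) (z := (nat_lit 320)) (N := (nat_lit 35))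
 .nil
 .nil (p005 h).2.2.1.1.1.2.1 (by decide +kernel)) (p005 h).2.2.1.1.1.1.2 (by decide +kernel))
 (ndB (a := (nat_lit 80)) (y := (nat_lit 240)) (z := (nat_lit 240)) (N := (nat_lit 35))
 (ndB (a := (nat_lit 80)) (y := (nat_lit 160)) (z := (nat_lit 320)) (N := (nat_lit 35))
 .nil
 .nil (p005 h).2.2.1.1.2.1.1 (by decide +kernel))
 (ndB (a := (nat_lit 80)) (y := (nat_lit 240)) (z := (nat_lit 320)) (N := (nat_lit 35))
 .nil
 .nil (p005 h).2.2.1.1.2.2.1 (by decide +kernel)) (p005 h).2.2.1.1.2.1.2 (by decide +kernel)) (p005 h).2.2.1.1.1.2.2 (by decide +kernel)) (p005 h).2.1.2.2.2.2.2.1 (by decide +kernel))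
 (ndB (a := (nat_lit 160)) (y := (nat_lit 320)) (z := (nat_lit 400)) (N := (nat_lit 35))
 (ndB (a := (nat_lit 160)) (y := (nat_lit 240)) (z := (nat_lit 240)) (N := (nat_lit 35))
 (ndB (a := (nat_lit 160)) (y := (nat_lit 160)) (z := (nat_lit 240)) (N := (nat_lit 35))
 (ndB (a := (nat_lit 80)) (y := (nat_lit 320)) (z := (nat_lit 400)) (N := (nat_lit 35))
 (ndB (a := (nat_lit 80)) (y := (nat_lit 320)) (z := (nat_lit 320)) (N := (nat_lit 35))
 .nil
 .nil (p005 h).2.2.1.1.2.2.2.2 (by decide +kernel))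
 .nil (p005 h).2.2.1.2.1.1.1 (by decide +kernel))
 (ndB (a := (nat_lit 160)) (y := (nat_lit 160)) (z := (nat_lit 320)) (N := (nat_lit 35))
 .nil
 .nil (p005 h).2.2.1.2.1.2.1 (by decide +kernel)) (p005 h).2.2.1.2.1.1.2 (by decide +kernel))
 (ndB (a := (nat_lit 160)) (y := (nat_lit 240)) (z := (nat_lit 400)) (N := (nat_lit 35))
 (ndB (a := (nat_lit 160)) (y := (nat_lit 240)) (z := (nat_lit 320)) (N := (nat_lit 35))
 .nil
 .nil (p005 h).2.2.1.2.2.1.1 (by decide +kernel))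
 (ndB (a := (nat_lit 160)) (y := (nat_lit 320)) (z := (nat_lit 320)) (N := (nat_lit 35))
 .nil
 .nil (p005 h).2.2.1.2.2.2.1 (by decide +kernel)) (p005 h).2.2.1.2.2.1.2 (by decide +kernel)) (p005 h).2.2.1.2.1.2.2 (by decide +kernel))
 (ndB (a := (nat_lit 240)) (y := (nat_lit 320)) (z := (nat_lit 400)) (N := (nat_lit 35))
 (ndB (a := (nat_lit 240)) (y := (nat_lit 240)) (z := (nat_lit 400)) (N := (nat_lit 35))
 (ndB (a := (nat_lit 240)) (y := (nat_lit 240)) (z := (nat_lit 320)) (N := (nat_lit 35))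
 (ndB (a := (nat_lit 240)) (y := (nat_lit 240)) (z := (nat_lit 240)) (N := (nat_lit 35))
 .nil
 .nil (p005 h).2.2.1.2.2.2.2.2 (by decide +kernel))
 .nil (p005 h).2.2.2.1.1.1.1 (by decide +kernel))
 (ndB (a := (nat_lit 240)) (y := (nat_lit 320)) (z := (nat_lit 320)) (N := (nat_lit 35))
 .nil
 .nil (p005 h).2.2.2.1.1.2.1 (by decide +kernel)) (p005 h).2.2.2.1.1.1.2 (by decide +kernel))
 (ndB (a := (nat_lit 320)) (y := (nat_lit 320)) (z := (nat_lit 400)) (N := (nat_lit 35))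
 (ndB (a := (nat_lit 240)) (y := (nat_lit 400)) (z := (nat_lit 400)) (N := (nat_lit 35))
 .nil
 .nil (p005 h).2.2.2.1.2.1.1 (by decide +kernel))
 (ndB (a := (nat_lit 320)) (y := (nat_lit 400)) (z := (nat_lit 400)) (N := (nat_lit 35))
 .nil
 .nil (p005 h).2.2.2.1.2.2.1 (by decide +kernel)) (p005 h).2.2.2.1.2.1.2 (by decide +kernel)) (p005 h).2.2.2.1.1.2.2 (by decide +kernel)) (p005 h).2.2.1.2.2.2.2.1 (by decide +kernel)) (p005 h).2.2.1.1.2.2.2.1 (by decide +kernel))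
theorem F15_ok (h : RcOK RE.rowE) : F15.OK := .of (by decide +kernel) (T15_ok h)
theorem T16_ok (h : RcOK RE.rowE) : TOK rd16 ks16 T16 := (ndB (a := (nat_lit 80)) (y := (nat_lit 320)) (z := (nat_lit 320)) (N := (nat_lit 540))
 (ndB (a := (nat_lit 0)) (y := (nat_lit 320)) (z := (nat_lit 320)) (N := (nat_lit 540))
 (ndB (a := (nat_lit 0)) (y := (nat_lit 160)) (z := (nat_lit 240)) (N := (nat_lit 540))
 (ndB (a := (nat_lit 0)) (y := (nat_lit 80)) (z := (nat_lit 240)) (N := (nat_lit 540))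
 (ndB (a := (nat_lit 0)) (y := (nat_lit 0)) (z := (nat_lit 320)) (N := (nat_lit 540))
 (ndB (a := (nat_lit 0)) (y := (nat_lit 0)) (z := (nat_lit 240)) (N := (nat_lit 540))
 .nil
 .nil (p005 h).2.2.2.1.2.2.2.1 (by decide +kernel))
 .nil (p005 h).2.2.2.1.2.2.2.2 (by decide +kernel))
 (ndB (a := (nat_lit 0)) (y := (nat_lit 80)) (z := (nat_lit 320)) (N := (nat_lit 540))
 .nil
 .nil (p005 h).2.2.2.2.1.1.2 (by decide +kernel)) (p005 h).2.2.2.2.1.1.1 (by decide +kernel))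
 (ndB (a := (nat_lit 0)) (y := (nat_lit 240)) (z := (nat_lit 320)) (N := (nat_lit 540))
 (ndB (a := (nat_lit 0)) (y := (nat_lit 240)) (z := (nat_lit 240)) (N := (nat_lit 540))
 (ndB (a := (nat_lit 0)) (y := (nat_lit 160)) (z := (nat_lit 320)) (N := (nat_lit 540))
 .nil
 .nil (p005 h).2.2.2.2.1.2.2.1 (by decide +kernel))
 .nil (p005 h).2.2.2.2.1.2.2.2 (by decide +kernel))
 (ndB (a := (nat_lit 0)) (y := (nat_lit 240)) (z := (nat_lit 400)) (N := (nat_lit 540))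
 .nil
 .nil (p005 h).2.2.2.2.2.1.2 (by decide +kernel)) (p005 h).2.2.2.2.2.1.1 (by decide +kernel)) (p005 h).2.2.2.2.1.2.1 (by decide +kernel))
 (ndB (a := (nat_lit 80)) (y := (nat_lit 160)) (z := (nat_lit 320)) (N := (nat_lit 540))
 (ndB (a := (nat_lit 80)) (y := (nat_lit 80)) (z := (nat_lit 320)) (N := (nat_lit 540))
 (ndB (a := (nat_lit 80)) (y := (nat_lit 80)) (z := (nat_lit 240)) (N := (nat_lit 540))
 (ndB (a := (nat_lit 0)) (y := (nat_lit 320)) (z := (nat_lit 400)) (N := (nat_lit 540))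
 .nil
 .nil (p005 h).2.2.2.2.2.2.2.1 (by decide +kernel))
 .nil (p005 h).2.2.2.2.2.2.2.2 (by decide +kernel))
 (ndB (a := (nat_lit 80)) (y := (nat_lit 160)) (z := (nat_lit 240)) (N := (nat_lit 540))
 .nil
 .nil (p006 h).1.1.1.1.1.2 (by decide +kernel)) (p006 h).1.1.1.1.1.1 (by decide +kernel))
 (ndB (a := (nat_lit 80)) (y := (nat_lit 240)) (z := (nat_lit 320)) (N := (nat_lit 540))
 (ndB (a := (nat_lit 80)) (y := (nat_lit 240)) (z := (nat_lit 240)) (N := (nat_lit 540))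
 .nil
 .nil (p006 h).1.1.1.1.2.2 (by decide +kernel))
 (ndB (a := (nat_lit 80)) (y := (nat_lit 240)) (z := (nat_lit 400)) (N := (nat_lit 540))
 .nil
 .nil (p006 h).1.1.1.2.1.2 (by decide +kernel)) (p006 h).1.1.1.2.1.1 (by decide +kernel)) (p006 h).1.1.1.1.2.1 (by decide +kernel)) (p005 h).2.2.2.2.2.2.1 (by decide +kernel))
 (ndB (a := (nat_lit 240)) (y := (nat_lit 240)) (z := (nat_lit 240)) (N := (nat_lit 540))
 (ndB (a := (nat_lit 160)) (y := (nat_lit 240)) (z := (nat_lit 320)) (N := (nat_lit 540))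
 (ndB (a := (nat_lit 160)) (y := (nat_lit 160)) (z := (nat_lit 320)) (N := (nat_lit 540))
 (ndB (a := (nat_lit 160)) (y := (nat_lit 160)) (z := (nat_lit 240)) (N := (nat_lit 540))
 (ndB (a := (nat_lit 80)) (y := (nat_lit 320)) (z := (nat_lit 400)) (N := (nat_lit 540))
 .nil
 .nil (p006 h).1.1.1.2.2.2.1 (by decide +kernel))
 .nil (p006 h).1.1.1.2.2.2.2 (by decide +kernel))
 (ndB (a := (nat_lit 160)) (y := (nat_lit 240)) (z := (nat_lit 240)) (N := (nat_lit 540))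
 .nil
 .nil (p006 h).1.1.2.1.1.2 (by decide +kernel)) (p006 h).1.1.2.1.1.1 (by decide +kernel))
 (ndB (a := (nat_lit 160)) (y := (nat_lit 320)) (z := (nat_lit 320)) (N := (nat_lit 540))
 (ndB (a := (nat_lit 160)) (y := (nat_lit 240)) (z := (nat_lit 400)) (N := (nat_lit 540))
 .nil
 .nil (p006 h).1.1.2.1.2.2 (by decide +kernel))
 (ndB (a := (nat_lit 160)) (y := (nat_lit 320)) (z := (nat_lit 400)) (N := (nat_lit 540))
 .nil
 .nil (p006 h).1.1.2.2.1.2 (by decide +kernel)) (p006 h).1.1.2.2.1.1 (by decide +kernel)) (p006 h).1.1.2.1.2.1 (by decide +kernel))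
 (ndB (a := (nat_lit 240)) (y := (nat_lit 400)) (z := (nat_lit 400)) (N := (nat_lit 540))
 (ndB (a := (nat_lit 240)) (y := (nat_lit 320)) (z := (nat_lit 320)) (N := (nat_lit 540))
 (ndB (a := (nat_lit 240)) (y := (nat_lit 240)) (z := (nat_lit 400)) (N := (nat_lit 540))
 (ndB (a := (nat_lit 240)) (y := (nat_lit 240)) (z := (nat_lit 320)) (N := (nat_lit 540))
 .nil
 .nil (p006 h).1.1.2.2.2.2.1 (by decide +kernel))
 .nil (p006 h).1.1.2.2.2.2.2 (by decide +kernel))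
 (ndB (a := (nat_lit 240)) (y := (nat_lit 320)) (z := (nat_lit 400)) (N := (nat_lit 540))
 .nil
 .nil (p006 h).1.2.1.1.1.2 (by decide +kernel)) (p006 h).1.2.1.1.1.1 (by decide +kernel))
 (ndB (a := (nat_lit 320)) (y := (nat_lit 320)) (z := (nat_lit 400)) (N := (nat_lit 540))
 (ndB (a := (nat_lit 320)) (y := (nat_lit 320)) (z := (nat_lit 320)) (N := (nat_lit 540))
 .nil
 .nil (p006 h).1.2.1.1.2.2 (by decide +kernel))
 (ndB (a := (nat_lit 320)) (y := (nat_lit 400)) (z := (nat_lit 400)) (N := (nat_lit 540))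
 .nil
 .nil (p006 h).1.2.1.2.1.2 (by decide +kernel)) (p006 h).1.2.1.2.1.1 (by decide +kernel)) (p006 h).1.2.1.1.2.1 (by decide +kernel)) (p006 h).1.1.2.2.2.1 (by decide +kernel)) (p006 h).1.1.1.2.2.1 (by decide +kernel))
theorem F16_ok (h : RcOK RE.rowE) : F16.OK := .of (by decide +kernel) (T16_ok h)
theorem T17_ok (h : RcOK RE.rowE) : TOK rd17 ks17 T17 := (ndB (a := (nat_lit 80)) (y := (nat_lit 320)) (z := (nat_lit 320)) (N := (nat_lit 936))
 (ndB (a := (nat_lit 0)) (y := (nat_lit 320)) (z := (nat_lit 320)) (N := (nat_lit 936))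
 (ndB (a := (nat_lit 0)) (y := (nat_lit 160)) (z := (nat_lit 240)) (N := (nat_lit 936))
 (ndB (a := (nat_lit 0)) (y := (nat_lit 80)) (z := (nat_lit 240)) (N := (nat_lit 936))
 (ndB (a := (nat_lit 0)) (y := (nat_lit 0)) (z := (nat_lit 320)) (N := (nat_lit 936))
 (ndB (a := (nat_lit 0)) (y := (nat_lit 0)) (z := (nat_lit 240)) (N := (nat_lit 936))
 .nil
 .nil (p006 h).1.2.1.2.2.1 (by decide +kernel))
 .nil (p006 h).1.2.1.2.2.2.1 (by decide +kernel))
 (ndB (a := (nat_lit 0)) (y := (nat_lit 80)) (z := (nat_lit 320)) (N := (nat_lit 936))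
 .nil
 .nil (p006 h).1.2.2.1.1.1 (by decide +kernel)) (p006 h).1.2.1.2.2.2.2 (by decide +kernel))
 (ndB (a := (nat_lit 0)) (y := (nat_lit 240)) (z := (nat_lit 320)) (N := (nat_lit 936))
 (ndB (a := (nat_lit 0)) (y := (nat_lit 240)) (z := (nat_lit 240)) (N := (nat_lit 936))
 (ndB (a := (nat_lit 0)) (y := (nat_lit 160)) (z := (nat_lit 320)) (N := (nat_lit 936))
 .nil
 .nil (p006 h).1.2.2.1.2.1 (by decide +kernel))
 .nil (p006 h).1.2.2.1.2.2 (by decide +kernel))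
 (ndB (a := (nat_lit 0)) (y := (nat_lit 240)) (z := (nat_lit 400)) (N := (nat_lit 936))
 .nil
 .nil (p006 h).1.2.2.2.1.2 (by decide +kernel)) (p006 h).1.2.2.2.1.1 (by decide +kernel)) (p006 h).1.2.2.1.1.2 (by decide +kernel))
 (ndB (a := (nat_lit 80)) (y := (nat_lit 160)) (z := (nat_lit 320)) (N := (nat_lit 936))
 (ndB (a := (nat_lit 80)) (y := (nat_lit 80)) (z := (nat_lit 320)) (N := (nat_lit 936))
 (ndB (a := (nat_lit 80)) (y := (nat_lit 80)) (z := (nat_lit 240)) (N := (nat_lit 936))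
 (ndB (a := (nat_lit 0)) (y := (nat_lit 320)) (z := (nat_lit 400)) (N := (nat_lit 936))
 .nil
 .nil (p006 h).1.2.2.2.2.2.1 (by decide +kernel))
 .nil (p006 h).1.2.2.2.2.2.2 (by decide +kernel))
 (ndB (a := (nat_lit 80)) (y := (nat_lit 160)) (z := (nat_lit 240)) (N := (nat_lit 936))
 .nil
 .nil (p006 h).2.1.1.1.1.2 (by decide +kernel)) (p006 h).2.1.1.1.1.1 (by decide +kernel))
 (ndB (a := (nat_lit 80)) (y := (nat_lit 240)) (z := (nat_lit 320)) (N := (nat_lit 936))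
 (ndB (a := (nat_lit 80)) (y := (nat_lit 240)) (z := (nat_lit 240)) (N := (nat_lit 936))
 .nil
 .nil (p006 h).2.1.1.1.2.2 (by decide +kernel))
 (ndB (a := (nat_lit 80)) (y := (nat_lit 240)) (z := (nat_lit 400)) (N := (nat_lit 936))
 .nil
 .nil (p006 h).2.1.1.2.1.2 (by decide +kernel)) (p006 h).2.1.1.2.1.1 (by decide +kernel)) (p006 h).2.1.1.1.2.1 (by decide +kernel)) (p006 h).1.2.2.2.2.1 (by decide +kernel))
 (ndB (a := (nat_lit 240)) (y := (nat_lit 240)) (z := (nat_lit 240)) (N := (nat_lit 936))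
 (ndB (a := (nat_lit 160)) (y := (nat_lit 240)) (z := (nat_lit 320)) (N := (nat_lit 936))
 (ndB (a := (nat_lit 160)) (y := (nat_lit 160)) (z := (nat_lit 320)) (N := (nat_lit 936))
 (ndB (a := (nat_lit 160)) (y := (nat_lit 160)) (z := (nat_lit 240)) (N := (nat_lit 936))
 (ndB (a := (nat_lit 80)) (y := (nat_lit 320)) (z := (nat_lit 400)) (N := (nat_lit 936))
 .nil
 .nil (p006 h).2.1.1.2.2.2.1 (by decide +kernel))
 .nil (p006 h).2.1.1.2.2.2.2 (by decide +kernel))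
 (ndB (a := (nat_lit 160)) (y := (nat_lit 240)) (z := (nat_lit 240)) (N := (nat_lit 936))
 .nil
 .nil (p006 h).2.1.2.1.1.2 (by decide +kernel)) (p006 h).2.1.2.1.1.1 (by decide +kernel))
 (ndB (a := (nat_lit 160)) (y := (nat_lit 320)) (z := (nat_lit 320)) (N := (nat_lit 936))
 (ndB (a := (nat_lit 160)) (y := (nat_lit 240)) (z := (nat_lit 400)) (N := (nat_lit 936))
 .nil
 .nil (p006 h).2.1.2.1.2.2 (by decide +kernel))
 (ndB (a := (nat_lit 160)) (y := (nat_lit 320)) (z := (nat_lit 400)) (N := (nat_lit 936))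
 .nil
 .nil (p006 h).2.1.2.2.1.2 (by decide +kernel)) (p006 h).2.1.2.2.1.1 (by decide +kernel)) (p006 h).2.1.2.1.2.1 (by decide +kernel))
 (ndB (a := (nat_lit 240)) (y := (nat_lit 400)) (z := (nat_lit 400)) (N := (nat_lit 936))
 (ndB (a := (nat_lit 240)) (y := (nat_lit 320)) (z := (nat_lit 320)) (N := (nat_lit 936))
 (ndB (a := (nat_lit 240)) (y := (nat_lit 240)) (z := (nat_lit 400)) (N := (nat_lit 936))
 (ndB (a := (nat_lit 240)) (y := (nat_lit 240)) (z := (nat_lit 320)) (N := (nat_lit 936))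
 .nil
 .nil (p006 h).2.1.2.2.2.2.1 (by decide +kernel))
 .nil (p006 h).2.1.2.2.2.2.2 (by decide +kernel))
 (ndB (a := (nat_lit 240)) (y := (nat_lit 320)) (z := (nat_lit 400)) (N := (nat_lit 936))
 .nil
 .nil (p006 h).2.2.1.1.1.2 (by decide +kernel)) (p006 h).2.2.1.1.1.1 (by decide +kernel))
 (ndB (a := (nat_lit 320)) (y := (nat_lit 320)) (z := (nat_lit 400)) (N := (nat_lit 936))
 (ndB (a := (nat_lit 320)) (y := (nat_lit 320)) (z := (nat_lit 320)) (N := (nat_lit 936))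
 .nil
 .nil (p006 h).2.2.1.1.2.2 (by decide +kernel))
 (ndB (a := (nat_lit 320)) (y := (nat_lit 400)) (z := (nat_lit 400)) (N := (nat_lit 936))
 .nil
 .nil (p006 h).2.2.1.2.1.2 (by decide +kernel)) (p006 h).2.2.1.2.1.1 (by decide +kernel)) (p006 h).2.2.1.1.2.1 (by decide +kernel)) (p006 h).2.1.2.2.2.1 (by decide +kernel)) (p006 h).2.1.1.2.2.1 (by decide +kernel))
theorem F17_ok (h : RcOK RE.rowE) : F17.OK := .of (by decide +kernel) (T17_ok h)
theorem T18_ok (h : RcOK RE.rowE) : TOK rd18 ks18 T18 := (ndB (a := (nat_lit 80)) (y := (nat_lit 240)) (z := (nat_lit 320)) (N := (nat_lit 988))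
 (ndB (a := (nat_lit 0)) (y := (nat_lit 240)) (z := (nat_lit 400)) (N := (nat_lit 988))
 (ndB (a := (nat_lit 0)) (y := (nat_lit 80)) (z := (nat_lit 400)) (N := (nat_lit 988))
 (ndB (a := (nat_lit 0)) (y := (nat_lit 0)) (z := (nat_lit 400)) (N := (nat_lit 988))
 (ndB (a := (nat_lit 0)) (y := (nat_lit 0)) (z := (nat_lit 320)) (N := (nat_lit 988))
 (ndB (a := (nat_lit 0)) (y := (nat_lit 0)) (z := (nat_lit 240)) (N := (nat_lit 988))
 .nil
 .nil (p006 h).2.2.1.2.2.1 (by decide +kernel))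
 .nil (p006 h).2.2.1.2.2.2.1 (by decide +kernel))
 (ndB (a := (nat_lit 0)) (y := (nat_lit 80)) (z := (nat_lit 320)) (N := (nat_lit 988))
 (ndB (a := (nat_lit 0)) (y := (nat_lit 80)) (z := (nat_lit 240)) (N := (nat_lit 988))
 .nil
 .nil (p006 h).2.2.2.1.1.1 (by decide +kernel))
 .nil (p006 h).2.2.2.1.1.2 (by decide +kernel)) (p006 h).2.2.1.2.2.2.2 (by decide +kernel))
 (ndB (a := (nat_lit 0)) (y := (nat_lit 160)) (z := (nat_lit 400)) (N := (nat_lit 988))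
 (ndB (a := (nat_lit 0)) (y := (nat_lit 160)) (z := (nat_lit 320)) (N := (nat_lit 988))
 (ndB (a := (nat_lit 0)) (y := (nat_lit 160)) (z := (nat_lit 240)) (N := (nat_lit 988))
 .nil
 .nil (p006 h).2.2.2.1.2.2 (by decide +kernel))
 .nil (p006 h).2.2.2.2.1.1 (by decide +kernel))
 (ndB (a := (nat_lit 0)) (y := (nat_lit 240)) (z := (nat_lit 320)) (N := (nat_lit 988))
 (ndB (a := (nat_lit 0)) (y := (nat_lit 240)) (z := (nat_lit 240)) (N := (nat_lit 988))
 .nil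
 .nil (p006 h).2.2.2.2.2.1 (by decide +kernel))
 .nil (p006 h).2.2.2.2.2.2.1 (by decide +kernel)) (p006 h).2.2.2.2.1.2 (by decide +kernel)) (p006 h).2.2.2.1.2.1 (by decide +kernel))
 (ndB (a := (nat_lit 80)) (y := (nat_lit 80)) (z := (nat_lit 400)) (N := (nat_lit 988))
 (ndB (a := (nat_lit 0)) (y := (nat_lit 400)) (z := (nat_lit 400)) (N := (nat_lit 988))
 (ndB (a := (nat_lit 0)) (y := (nat_lit 320)) (z := (nat_lit 400)) (N := (nat_lit 988))
 (ndB (a := (nat_lit 0)) (y := (nat_lit 320)) (z := (nat_lit 320)) (N := (nat_lit 988))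
 .nil
 .nil (p007 h).1.1.1.1.1.1 (by decide +kernel))
 .nil (p007 h).1.1.1.1.1.2.1 (by decide +kernel))
 (ndB (a := (nat_lit 80)) (y := (nat_lit 80)) (z := (nat_lit 320)) (N := (nat_lit 988))
 (ndB (a := (nat_lit 80)) (y := (nat_lit 80)) (z := (nat_lit 240)) (N := (nat_lit 988))
 .nil
 .nil (p007 h).1.1.1.1.2.1 (by decide +kernel))
 .nil (p007 h).1.1.1.1.2.2.1 (by decide +kernel)) (p007 h).1.1.1.1.1.2.2 (by decide +kernel))
 (ndB (a := (nat_lit 80)) (y := (nat_lit 160)) (z := (nat_lit 400)) (N := (nat_lit 988))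
 (ndB (a := (nat_lit 80)) (y := (nat_lit 160)) (z := (nat_lit 320)) (N := (nat_lit 988))
 (ndB (a := (nat_lit 80)) (y := (nat_lit 160)) (z := (nat_lit 240)) (N := (nat_lit 988))
 .nil
 .nil (p007 h).1.1.1.2.1.1 (by decide +kernel))
 .nil (p007 h).1.1.1.2.1.2.1 (by decide +kernel))
 (ndB (a := (nat_lit 80)) (y := (nat_lit 240)) (z := (nat_lit 240)) (N := (nat_lit 988))
 .nil
 .nil (p007 h).1.1.1.2.2.1 (by decide +kernel)) (p007 h).1.1.1.2.1.2.2 (by decide +kernel)) (p007 h).1.1.1.1.2.2.2 (by decide +kernel)) (p006 h).2.2.2.2.2.2.2 (by decide +kernel))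
 (ndB (a := (nat_lit 160)) (y := (nat_lit 400)) (z := (nat_lit 400)) (N := (nat_lit 988))
 (ndB (a := (nat_lit 160)) (y := (nat_lit 160)) (z := (nat_lit 320)) (N := (nat_lit 988))
 (ndB (a := (nat_lit 80)) (y := (nat_lit 320)) (z := (nat_lit 400)) (N := (nat_lit 988))
 (ndB (a := (nat_lit 80)) (y := (nat_lit 320)) (z := (nat_lit 320)) (N := (nat_lit 988))
 (ndB (a := (nat_lit 80)) (y := (nat_lit 240)) (z := (nat_lit 400)) (N := (nat_lit 988))
 .nil
 .nil (p007 h).1.1.1.2.2.2.2 (by decide +kernel))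
 .nil (p007 h).1.1.2.1.1.1 (by decide +kernel))
 (ndB (a := (nat_lit 160)) (y := (nat_lit 160)) (z := (nat_lit 240)) (N := (nat_lit 988))
 (ndB (a := (nat_lit 80)) (y := (nat_lit 400)) (z := (nat_lit 400)) (N := (nat_lit 988))
 .nil
 .nil (p007 h).1.1.2.1.1.2.2 (by decide +kernel))
 .nil (p007 h).1.1.2.1.2.1 (by decide +kernel)) (p007 h).1.1.2.1.1.2.1 (by decide +kernel))
 (ndB (a := (nat_lit 160)) (y := (nat_lit 240)) (z := (nat_lit 400)) (N := (nat_lit 988))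
 (ndB (a := (nat_lit 160)) (y := (nat_lit 240)) (z := (nat_lit 320)) (N := (nat_lit 988))
 (ndB (a := (nat_lit 160)) (y := (nat_lit 240)) (z := (nat_lit 240)) (N := (nat_lit 988))
 .nil
 .nil (p007 h).1.1.2.1.2.2.2 (by decide +kernel))
 .nil (p007 h).1.1.2.2.1.1 (by decide +kernel))
 (ndB (a := (nat_lit 160)) (y := (nat_lit 320)) (z := (nat_lit 400)) (N := (nat_lit 988))
 (ndB (a := (nat_lit 160)) (y := (nat_lit 320)) (z := (nat_lit 320)) (N := (nat_lit 988))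
 .nil
 .nil (p007 h).1.1.2.2.1.2.2 (by decide +kernel))
 .nil (p007 h).1.1.2.2.2.1 (by decide +kernel)) (p007 h).1.1.2.2.1.2.1 (by decide +kernel)) (p007 h).1.1.2.1.2.2.1 (by decide +kernel))
 (ndB (a := (nat_lit 240)) (y := (nat_lit 400)) (z := (nat_lit 400)) (N := (nat_lit 988))
 (ndB (a := (nat_lit 240)) (y := (nat_lit 240)) (z := (nat_lit 400)) (N := (nat_lit 988))
 (ndB (a := (nat_lit 240)) (y := (nat_lit 240)) (z := (nat_lit 320)) (N := (nat_lit 988))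
 (ndB (a := (nat_lit 240)) (y := (nat_lit 240)) (z := (nat_lit 240)) (N := (nat_lit 988))
 .nil
 .nil (p007 h).1.1.2.2.2.2.2 (by decide +kernel))
 .nil (p007 h).1.2.1.1.1.1 (by decide +kernel))
 (ndB (a := (nat_lit 240)) (y := (nat_lit 320)) (z := (nat_lit 400)) (N := (nat_lit 988))
 (ndB (a := (nat_lit 240)) (y := (nat_lit 320)) (z := (nat_lit 320)) (N := (nat_lit 988))
 .nil
 .nil (p007 h).1.2.1.1.1.2.2 (by decide +kernel))
 .nil (p007 h).1.2.1.1.2.1 (by decide +kernel)) (p007 h).1.2.1.1.1.2.1 (by decide +kernel))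
 (ndB (a := (nat_lit 320)) (y := (nat_lit 400)) (z := (nat_lit 400)) (N := (nat_lit 988))
 (ndB (a := (nat_lit 320)) (y := (nat_lit 320)) (z := (nat_lit 400)) (N := (nat_lit 988))
 (ndB (a := (nat_lit 320)) (y := (nat_lit 320)) (z := (nat_lit 320)) (N := (nat_lit 988))
 .nil
 .nil (p007 h).1.2.1.1.2.2.2 (by decide +kernel))
 .nil (p007 h).1.2.1.2.1.1 (by decide +kernel))
 (ndB (a := (nat_lit 400)) (y := (nat_lit 400)) (z := (nat_lit 400)) (N := (nat_lit 988))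
 .nil
 .nil (p007 h).1.2.1.2.1.2.2 (by decide +kernel)) (p007 h).1.2.1.2.1.2.1 (by decide +kernel)) (p007 h).1.2.1.1.2.2.1 (by decide +kernel)) (p007 h).1.1.2.2.2.2.1 (by decide +kernel)) (p007 h).1.1.1.2.2.2.1 (by decide +kernel))
theorem F18_ok (h : RcOK RE.rowE) : F18.OK := .of (by decide +kernel) (T18_ok h)
end TC
end Pool.Agent.Lib.MP_6947cd_al
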