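import Pool.Agent.Lib.MP_6947cd_al.TC.F
import Pool.Agent.Lib.MP_6947cd_al.TC.P007
import Pool.Agent.Lib.MP_6947cd_al.TC.P008
import Pool.Agent.Lib.MP_6947cd_al.TC.P009

/-!
Problem MP_6947cd_al (Chollet).  CASE C, tables and certificates.  The families of tables are correct.
-/

set_option autoImplicit false
set_option linter.all false
set_option maxRecDepth 100000
set_option maxHeartbeats 4000000
namespace Pool.Agent.Lib.MP_6947cd_al
namespace TC
open PkA PkA.TF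
theorem T19_ok (h : RcOK RE.rowE) : TOK rd19 ks19 T19 := (ndB (a := (nat_lit 80)) (y := (nat_lit 240)) (z := (nat_lit 400)) (N := (nat_lit 504))
 (ndB (a := (nat_lit 0)) (y := (nat_lit 240)) (z := (nat_lit 400)) (N := (nat_lit 504))
 (ndB (a := (nat_lit 0)) (y := (nat_lit 80)) (z := (nat_lit 400)) (N := (nat_lit 504))
 (ndB (a := (nat_lit 0)) (y := (nat_lit 0)) (z := (nat_lit 400)) (N := (nat_lit 504))
 (ndB (a := (nat_lit 0)) (y := (nat_lit 0)) (z := (nat_lit 320)) (N := (nat_lit 504))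
 (ndB (a := (nat_lit 0)) (y := (nat_lit 0)) (z := (nat_lit 240)) (N := (nat_lit 504))
 .nil
 .nil (p007 h).1.2.1.2.2.1 (by decide +kernel))
 .nil (p007 h).1.2.1.2.2.2.1 (by decide +kernel))
 (ndB (a := (nat_lit 0)) (y := (nat_lit 80)) (z := (nat_lit 320)) (N := (nat_lit 504))
 (ndB (a := (nat_lit 0)) (y := (nat_lit 80)) (z := (nat_lit 240)) (N := (nat_lit 504))
 .nil
 .nil (p007 h).1.2.2.1.1.1 (by decide +kernel))
 .nil (p007 h).1.2.2.1.1.2.1 (by decide +kernel)) (p007 h).1.2.1.2.2.2.2 (by decide +kernel))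
 (ndB (a := (nat_lit 0)) (y := (nat_lit 160)) (z := (nat_lit 400)) (N := (nat_lit 504))
 (ndB (a := (nat_lit 0)) (y := (nat_lit 160)) (z := (nat_lit 320)) (N := (nat_lit 504))
 (ndB (a := (nat_lit 0)) (y := (nat_lit 160)) (z := (nat_lit 240)) (N := (nat_lit 504))
 .nil
 .nil (p007 h).1.2.2.1.2.1 (by decide +kernel))
 .nil (p007 h).1.2.2.1.2.2.1 (by decide +kernel))
 (ndB (a := (nat_lit 0)) (y := (nat_lit 240)) (z := (nat_lit 320)) (N := (nat_lit 504))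
 (ndB (a := (nat_lit 0)) (y := (nat_lit 240)) (z := (nat_lit 240)) (N := (nat_lit 504))
 .nil
 .nil (p007 h).1.2.2.2.1.1 (by decide +kernel))
 .nil (p007 h).1.2.2.2.1.2.1 (by decide +kernel)) (p007 h).1.2.2.1.2.2.2 (by decide +kernel)) (p007 h).1.2.2.1.1.2.2 (by decide +kernel))
 (ndB (a := (nat_lit 80)) (y := (nat_lit 80)) (z := (nat_lit 400)) (N := (nat_lit 504))
 (ndB (a := (nat_lit 0)) (y := (nat_lit 400)) (z := (nat_lit 400)) (N := (nat_lit 504))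
 (ndB (a := (nat_lit 0)) (y := (nat_lit 320)) (z := (nat_lit 400)) (N := (nat_lit 504))
 (ndB (a := (nat_lit 0)) (y := (nat_lit 320)) (z := (nat_lit 320)) (N := (nat_lit 504))
 .nil
 .nil (p007 h).1.2.2.2.2.1.1 (by decide +kernel))
 .nil (p007 h).1.2.2.2.2.1.2 (by decide +kernel))
 (ndB (a := (nat_lit 80)) (y := (nat_lit 80)) (z := (nat_lit 320)) (N := (nat_lit 504))
 (ndB (a := (nat_lit 80)) (y := (nat_lit 80)) (z := (nat_lit 240)) (N := (nat_lit 504))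
 .nil
 .nil (p007 h).1.2.2.2.2.2.2 (by decide +kernel))
 .nil (p007 h).2.1.1.1.1.1 (by decide +kernel)) (p007 h).1.2.2.2.2.2.1 (by decide +kernel))
 (ndB (a := (nat_lit 80)) (y := (nat_lit 160)) (z := (nat_lit 400)) (N := (nat_lit 504))
 (ndB (a := (nat_lit 80)) (y := (nat_lit 160)) (z := (nat_lit 320)) (N := (nat_lit 504))
 (ndB (a := (nat_lit 80)) (y := (nat_lit 160)) (z := (nat_lit 240)) (N := (nat_lit 504))
 .nil
 .nil (p007 h).2.1.1.1.1.2.2 (by decide +kernel))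
 .nil (p007 h).2.1.1.1.2.1 (by decide +kernel))
 (ndB (a := (nat_lit 80)) (y := (nat_lit 240)) (z := (nat_lit 320)) (N := (nat_lit 504))
 (ndB (a := (nat_lit 80)) (y := (nat_lit 240)) (z := (nat_lit 240)) (N := (nat_lit 504))
 .nil
 .nil (p007 h).2.1.1.1.2.2.2 (by decide +kernel))
 .nil (p007 h).2.1.1.2.1.1 (by decide +kernel)) (p007 h).2.1.1.1.2.2.1 (by decide +kernel)) (p007 h).2.1.1.1.1.2.1 (by decide +kernel)) (p007 h).1.2.2.2.1.2.2 (by decide +kernel))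
 (ndB (a := (nat_lit 160)) (y := (nat_lit 400)) (z := (nat_lit 400)) (N := (nat_lit 504))
 (ndB (a := (nat_lit 160)) (y := (nat_lit 160)) (z := (nat_lit 400)) (N := (nat_lit 504))
 (ndB (a := (nat_lit 80)) (y := (nat_lit 400)) (z := (nat_lit 400)) (N := (nat_lit 504))
 (ndB (a := (nat_lit 80)) (y := (nat_lit 320)) (z := (nat_lit 400)) (N := (nat_lit 504))
 (ndB (a := (nat_lit 80)) (y := (nat_lit 320)) (z := (nat_lit 320)) (N := (nat_lit 504))
 .nil
 .nil (p007 h).2.1.1.2.1.2.2 (by decide +kernel))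
 .nil (p007 h).2.1.1.2.2.1 (by decide +kernel))
 (ndB (a := (nat_lit 160)) (y := (nat_lit 160)) (z := (nat_lit 320)) (N := (nat_lit 504))
 (ndB (a := (nat_lit 160)) (y := (nat_lit 160)) (z := (nat_lit 240)) (N := (nat_lit 504))
 .nil
 .nil (p007 h).2.1.1.2.2.2.2 (by decide +kernel))
 .nil (p007 h).2.1.2.1.1.1 (by decide +kernel)) (p007 h).2.1.1.2.2.2.1 (by decide +kernel))
 (ndB (a := (nat_lit 160)) (y := (nat_lit 240)) (z := (nat_lit 400)) (N := (nat_lit 504))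
 (ndB (a := (nat_lit 160)) (y := (nat_lit 240)) (z := (nat_lit 320)) (N := (nat_lit 504))
 (ndB (a := (nat_lit 160)) (y := (nat_lit 240)) (z := (nat_lit 240)) (N := (nat_lit 504))
 .nil
 .nil (p007 h).2.1.2.1.1.2.2 (by decide +kernel))
 .nil (p007 h).2.1.2.1.2.1 (by decide +kernel))
 (ndB (a := (nat_lit 160)) (y := (nat_lit 320)) (z := (nat_lit 400)) (N := (nat_lit 504))
 (ndB (a := (nat_lit 160)) (y := (nat_lit 320)) (z := (nat_lit 320)) (N := (nat_lit 504))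
 .nil
 .nil (p007 h).2.1.2.1.2.2.2 (by decide +kernel))
 .nil (p007 h).2.1.2.2.1.1 (by decide +kernel)) (p007 h).2.1.2.1.2.2.1 (by decide +kernel)) (p007 h).2.1.2.1.1.2.1 (by decide +kernel))
 (ndB (a := (nat_lit 240)) (y := (nat_lit 400)) (z := (nat_lit 400)) (N := (nat_lit 504))
 (ndB (a := (nat_lit 240)) (y := (nat_lit 240)) (z := (nat_lit 400)) (N := (nat_lit 504))
 (ndB (a := (nat_lit 240)) (y := (nat_lit 240)) (z := (nat_lit 320)) (N := (nat_lit 504))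
 (ndB (a := (nat_lit 240)) (y := (nat_lit 240)) (z := (nat_lit 240)) (N := (nat_lit 504))
 .nil
 .nil (p007 h).2.1.2.2.1.2.2 (by decide +kernel))
 .nil (p007 h).2.1.2.2.2.1 (by decide +kernel))
 (ndB (a := (nat_lit 240)) (y := (nat_lit 320)) (z := (nat_lit 400)) (N := (nat_lit 504))
 (ndB (a := (nat_lit 240)) (y := (nat_lit 320)) (z := (nat_lit 320)) (N := (nat_lit 504))
 .nil
 .nil (p007 h).2.1.2.2.2.2.2 (by decide +kernel))
 .nil (p007 h).2.2.1.1.1.1 (by decide +kernel)) (p007 h).2.1.2.2.2.2.1 (by decide +kernel))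
 (ndB (a := (nat_lit 320)) (y := (nat_lit 400)) (z := (nat_lit 400)) (N := (nat_lit 504))
 (ndB (a := (nat_lit 320)) (y := (nat_lit 320)) (z := (nat_lit 400)) (N := (nat_lit 504))
 (ndB (a := (nat_lit 320)) (y := (nat_lit 320)) (z := (nat_lit 320)) (N := (nat_lit 504))
 .nil
 .nil (p007 h).2.2.1.1.1.2.2 (by decide +kernel))
 .nil (p007 h).2.2.1.1.2.1 (by decide +kernel))
 (ndB (a := (nat_lit 400)) (y := (nat_lit 400)) (z := (nat_lit 400)) (N := (nat_lit 504))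
 .nil
 .nil (p007 h).2.2.1.1.2.2.2 (by decide +kernel)) (p007 h).2.2.1.1.2.2.1 (by decide +kernel)) (p007 h).2.2.1.1.1.2.1 (by decide +kernel)) (p007 h).2.1.2.2.1.2.1 (by decide +kernel)) (p007 h).2.1.1.2.1.2.1 (by decide +kernel))
theorem F19_ok (h : RcOK RE.rowE) : F19.OK := .of (by decide +kernel) (T19_ok h)
theorem T20_ok (h : RcOK RE.rowE) : TOK rd20 ks20 T20 := (ndB (a := (nat_lit 80)) (y := (nat_lit 320)) (z := (nat_lit 400)) (N := (nat_lit 384))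
 (ndB (a := (nat_lit 80)) (y := (nat_lit 80)) (z := (nat_lit 240)) (N := (nat_lit 384))
 (ndB (a := (nat_lit 0)) (y := (nat_lit 240)) (z := (nat_lit 240)) (N := (nat_lit 384))
 (ndB (a := (nat_lit 0)) (y := (nat_lit 160)) (z := (nat_lit 240)) (N := (nat_lit 384))
 (ndB (a := (nat_lit 0)) (y := (nat_lit 80)) (z := (nat_lit 320)) (N := (nat_lit 384))
 (ndB (a := (nat_lit 0)) (y := (nat_lit 80)) (z := (nat_lit 240)) (N := (nat_lit 384))
 .nil
 .nil (p007 h).2.2.1.2.1.1 (by decide +kernel))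
 .nil (p007 h).2.2.1.2.1.2.1 (by decide +kernel))
 (ndB (a := (nat_lit 0)) (y := (nat_lit 160)) (z := (nat_lit 320)) (N := (nat_lit 384))
 .nil
 .nil (p007 h).2.2.1.2.2.1 (by decide +kernel)) (p007 h).2.2.1.2.1.2.2 (by decide +kernel))
 (ndB (a := (nat_lit 0)) (y := (nat_lit 320)) (z := (nat_lit 320)) (N := (nat_lit 384))
 (ndB (a := (nat_lit 0)) (y := (nat_lit 240)) (z := (nat_lit 400)) (N := (nat_lit 384))
 (ndB (a := (nat_lit 0)) (y := (nat_lit 240)) (z := (nat_lit 320)) (N := (nat_lit 384))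
 .nil
 .nil (p007 h).2.2.1.2.2.2.2 (by decide +kernel))
 .nil (p007 h).2.2.2.1.1.1 (by decide +kernel))
 (ndB (a := (nat_lit 0)) (y := (nat_lit 320)) (z := (nat_lit 400)) (N := (nat_lit 384))
 .nil
 .nil (p007 h).2.2.2.1.1.2.2 (by decide +kernel)) (p007 h).2.2.2.1.1.2.1 (by decide +kernel)) (p007 h).2.2.1.2.2.2.1 (by decide +kernel))
 (ndB (a := (nat_lit 80)) (y := (nat_lit 160)) (z := (nat_lit 400)) (N := (nat_lit 384))
 (ndB (a := (nat_lit 80)) (y := (nat_lit 160)) (z := (nat_lit 240)) (N := (nat_lit 384))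
 (ndB (a := (nat_lit 80)) (y := (nat_lit 80)) (z := (nat_lit 400)) (N := (nat_lit 384))
 (ndB (a := (nat_lit 80)) (y := (nat_lit 80)) (z := (nat_lit 320)) (N := (nat_lit 384))
 .nil
 .nil (p007 h).2.2.2.1.2.2.1 (by decide +kernel))
 .nil (p007 h).2.2.2.1.2.2.2 (by decide +kernel))
 (ndB (a := (nat_lit 80)) (y := (nat_lit 160)) (z := (nat_lit 320)) (N := (nat_lit 384))
 .nil
 .nil (p007 h).2.2.2.2.1.2.1 (by decide +kernel)) (p007 h).2.2.2.2.1.1 (by decide +kernel))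
 (ndB (a := (nat_lit 80)) (y := (nat_lit 240)) (z := (nat_lit 400)) (N := (nat_lit 384))
 (ndB (a := (nat_lit 80)) (y := (nat_lit 240)) (z := (nat_lit 320)) (N := (nat_lit 384))
 (ndB (a := (nat_lit 80)) (y := (nat_lit 240)) (z := (nat_lit 240)) (N := (nat_lit 384))
 .nil
 .nil (p007 h).2.2.2.2.2.1.1 (by decide +kernel))
 .nil (p007 h).2.2.2.2.2.1.2 (by decide +kernel))
 (ndB (a := (nat_lit 80)) (y := (nat_lit 320)) (z := (nat_lit 320)) (N := (nat_lit 384))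
 .nil
 .nil (p007 h).2.2.2.2.2.2.2 (by decide +kernel)) (p007 h).2.2.2.2.2.2.1 (by decide +kernel)) (p007 h).2.2.2.2.1.2.2 (by decide +kernel)) (p007 h).2.2.2.1.2.1 (by decide +kernel))
 (ndB (a := (nat_lit 240)) (y := (nat_lit 240)) (z := (nat_lit 240)) (N := (nat_lit 384))
 (ndB (a := (nat_lit 160)) (y := (nat_lit 240)) (z := (nat_lit 320)) (N := (nat_lit 384))
 (ndB (a := (nat_lit 160)) (y := (nat_lit 160)) (z := (nat_lit 320)) (N := (nat_lit 384))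
 (ndB (a := (nat_lit 160)) (y := (nat_lit 160)) (z := (nat_lit 240)) (N := (nat_lit 384))
 (ndB (a := (nat_lit 80)) (y := (nat_lit 400)) (z := (nat_lit 400)) (N := (nat_lit 384))
 .nil
 .nil (p008 h).1.1.1.1.1.1.2 (by decide +kernel))
 .nil (p008 h).1.1.1.1.1.2.1 (by decide +kernel))
 (ndB (a := (nat_lit 160)) (y := (nat_lit 240)) (z := (nat_lit 240)) (N := (nat_lit 384))
 .nil
 .nil (p008 h).1.1.1.1.1.2.2.2 (by decide +kernel)) (p008 h).1.1.1.1.1.2.2.1 (by decide +kernel))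
 (ndB (a := (nat_lit 160)) (y := (nat_lit 320)) (z := (nat_lit 400)) (N := (nat_lit 384))
 (ndB (a := (nat_lit 160)) (y := (nat_lit 320)) (z := (nat_lit 320)) (N := (nat_lit 384))
 (ndB (a := (nat_lit 160)) (y := (nat_lit 240)) (z := (nat_lit 400)) (N := (nat_lit 384))
 .nil
 .nil (p008 h).1.1.1.1.2.1.2.1 (by decide +kernel))
 .nil (p008 h).1.1.1.1.2.1.2.2 (by decide +kernel))
 (ndB (a := (nat_lit 160)) (y := (nat_lit 400)) (z := (nat_lit 400)) (N := (nat_lit 384))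
 .nil
 .nil (p008 h).1.1.1.1.2.2.2.1 (by decide +kernel)) (p008 h).1.1.1.1.2.2.1 (by decide +kernel)) (p008 h).1.1.1.1.2.1.1 (by decide +kernel))
 (ndB (a := (nat_lit 240)) (y := (nat_lit 400)) (z := (nat_lit 400)) (N := (nat_lit 384))
 (ndB (a := (nat_lit 240)) (y := (nat_lit 320)) (z := (nat_lit 320)) (N := (nat_lit 384))
 (ndB (a := (nat_lit 240)) (y := (nat_lit 240)) (z := (nat_lit 400)) (N := (nat_lit 384))
 (ndB (a := (nat_lit 240)) (y := (nat_lit 240)) (z := (nat_lit 320)) (N := (nat_lit 384))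
 .nil
 .nil (p008 h).1.1.1.2.1.1.1 (by decide +kernel))
 .nil (p008 h).1.1.1.2.1.1.2.1 (by decide +kernel))
 (ndB (a := (nat_lit 240)) (y := (nat_lit 320)) (z := (nat_lit 400)) (N := (nat_lit 384))
 .nil
 .nil (p008 h).1.1.1.2.1.2.1 (by decide +kernel)) (p008 h).1.1.1.2.1.1.2.2 (by decide +kernel))
 (ndB (a := (nat_lit 320)) (y := (nat_lit 400)) (z := (nat_lit 400)) (N := (nat_lit 384))
 (ndB (a := (nat_lit 320)) (y := (nat_lit 320)) (z := (nat_lit 400)) (N := (nat_lit 384))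
 (ndB (a := (nat_lit 320)) (y := (nat_lit 320)) (z := (nat_lit 320)) (N := (nat_lit 384))
 .nil
 .nil (p008 h).1.1.1.2.1.2.2.2 (by decide +kernel))
 .nil (p008 h).1.1.1.2.2.1.1 (by decide +kernel))
 (ndB (a := (nat_lit 400)) (y := (nat_lit 400)) (z := (nat_lit 400)) (N := (nat_lit 384))
 .nil
 .nil (p008 h).1.1.1.2.2.1.2.2 (by decide +kernel)) (p008 h).1.1.1.2.2.1.2.1 (by decide +kernel)) (p008 h).1.1.1.2.1.2.2.1 (by decide +kernel)) (p008 h).1.1.1.1.2.2.2.2 (by decide +kernel)) (p008 h).1.1.1.1.1.1.1 (by decide +kernel))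
theorem F20_ok (h : RcOK RE.rowE) : F20.OK := .of (by decide +kernel) (T20_ok h)
theorem T21_ok (h : RcOK RE.rowE) : TOK rd21 ks21 T21 := (ndB (a := (nat_lit 80)) (y := (nat_lit 160)) (z := (nat_lit 240)) (N := (nat_lit 30))
 (ndB (a := (nat_lit 0)) (y := (nat_lit 160)) (z := (nat_lit 400)) (N := (nat_lit 30))
 (ndB (a := (nat_lit 0)) (y := (nat_lit 80)) (z := (nat_lit 240)) (N := (nat_lit 30))
 (ndB (a := (nat_lit 0)) (y := (nat_lit 0)) (z := (nat_lit 320)) (N := (nat_lit 30))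
 (ndB (a := (nat_lit 0)) (y := (nat_lit 0)) (z := (nat_lit 240)) (N := (nat_lit 30))
 (ndB (a := (nat_lit 0)) (y := (nat_lit 0)) (z := (nat_lit 160)) (N := (nat_lit 30))
 .nil
 .nil (p008 h).1.1.1.2.2.2.1 (by decide +kernel))
 .nil (p008 h).1.1.1.2.2.2.2.1 (by decide +kernel))
 (ndB (a := (nat_lit 0)) (y := (nat_lit 80)) (z := (nat_lit 160)) (N := (nat_lit 30))
 .nil
 .nil (p008 h).1.1.2.1.1.1.1 (by decide +kernel)) (p008 h).1.1.1.2.2.2.2.2 (by decide +kernel))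
 (ndB (a := (nat_lit 0)) (y := (nat_lit 160)) (z := (nat_lit 240)) (N := (nat_lit 30))
 (ndB (a := (nat_lit 0)) (y := (nat_lit 160)) (z := (nat_lit 160)) (N := (nat_lit 30))
 (ndB (a := (nat_lit 0)) (y := (nat_lit 80)) (z := (nat_lit 320)) (N := (nat_lit 30))
 .nil
 .nil (p008 h).1.1.2.1.1.2.1 (by decide +kernel))
 .nil (p008 h).1.1.2.1.1.2.2.1 (by decide +kernel))
 (ndB (a := (nat_lit 0)) (y := (nat_lit 160)) (z := (nat_lit 320)) (N := (nat_lit 30))
 .nil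
 .nil (p008 h).1.1.2.1.2.1.1 (by decide +kernel)) (p008 h).1.1.2.1.1.2.2.2 (by decide +kernel)) (p008 h).1.1.2.1.1.1.2 (by decide +kernel))
 (ndB (a := (nat_lit 80)) (y := (nat_lit 80)) (z := (nat_lit 160)) (N := (nat_lit 30))
 (ndB (a := (nat_lit 0)) (y := (nat_lit 240)) (z := (nat_lit 400)) (N := (nat_lit 30))
 (ndB (a := (nat_lit 0)) (y := (nat_lit 240)) (z := (nat_lit 320)) (N := (nat_lit 30))
 (ndB (a := (nat_lit 0)) (y := (nat_lit 240)) (z := (nat_lit 240)) (N := (nat_lit 30))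
 .nil
 .nil (p008 h).1.1.2.1.2.1.2.2 (by decide +kernel))
 .nil (p008 h).1.1.2.1.2.2.1 (by decide +kernel))
 (ndB (a := (nat_lit 0)) (y := (nat_lit 320)) (z := (nat_lit 400)) (N := (nat_lit 30))
 .nil
 .nil (p008 h).1.1.2.1.2.2.2.2 (by decide +kernel)) (p008 h).1.1.2.1.2.2.2.1 (by decide +kernel))
 (ndB (a := (nat_lit 80)) (y := (nat_lit 80)) (z := (nat_lit 320)) (N := (nat_lit 30))
 (ndB (a := (nat_lit 80)) (y := (nat_lit 80)) (z := (nat_lit 240)) (N := (nat_lit 30))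
 .nil
 .nil (p008 h).1.1.2.2.1.1.2.1 (by decide +kernel))
 (ndB (a := (nat_lit 80)) (y := (nat_lit 160)) (z := (nat_lit 160)) (N := (nat_lit 30))
 .nil
 .nil (p008 h).1.1.2.2.1.2.1 (by decide +kernel)) (p008 h).1.1.2.2.1.1.2.2 (by decide +kernel)) (p008 h).1.1.2.2.1.1.1 (by decide +kernel)) (p008 h).1.1.2.1.2.1.2.1 (by decide +kernel))
 (ndB (a := (nat_lit 160)) (y := (nat_lit 160)) (z := (nat_lit 320)) (N := (nat_lit 30))
 (ndB (a := (nat_lit 80)) (y := (nat_lit 240)) (z := (nat_lit 400)) (N := (nat_lit 30))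
 (ndB (a := (nat_lit 80)) (y := (nat_lit 240)) (z := (nat_lit 240)) (N := (nat_lit 30))
 (ndB (a := (nat_lit 80)) (y := (nat_lit 160)) (z := (nat_lit 400)) (N := (nat_lit 30))
 (ndB (a := (nat_lit 80)) (y := (nat_lit 160)) (z := (nat_lit 320)) (N := (nat_lit 30))
 .nil
 .nil (p008 h).1.1.2.2.1.2.2.2 (by decide +kernel))
 .nil (p008 h).1.1.2.2.2.1.1 (by decide +kernel))
 (ndB (a := (nat_lit 80)) (y := (nat_lit 240)) (z := (nat_lit 320)) (N := (nat_lit 30))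
 .nil
 .nil (p008 h).1.1.2.2.2.1.2.2 (by decide +kernel)) (p008 h).1.1.2.2.2.1.2.1 (by decide +kernel))
 (ndB (a := (nat_lit 160)) (y := (nat_lit 160)) (z := (nat_lit 160)) (N := (nat_lit 30))
 (ndB (a := (nat_lit 80)) (y := (nat_lit 320)) (z := (nat_lit 400)) (N := (nat_lit 30))
 .nil
 .nil (p008 h).1.1.2.2.2.2.2.1 (by decide +kernel))
 (ndB (a := (nat_lit 160)) (y := (nat_lit 160)) (z := (nat_lit 240)) (N := (nat_lit 30))
 .nil
 .nil (p008 h).1.2.1.1.1.1.1 (by decide +kernel)) (p008 h).1.1.2.2.2.2.2.2 (by decide +kernel)) (p008 h).1.1.2.2.2.2.1 (by decide +kernel))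
 (ndB (a := (nat_lit 160)) (y := (nat_lit 400)) (z := (nat_lit 400)) (N := (nat_lit 30))
 (ndB (a := (nat_lit 160)) (y := (nat_lit 240)) (z := (nat_lit 400)) (N := (nat_lit 30))
 (ndB (a := (nat_lit 160)) (y := (nat_lit 240)) (z := (nat_lit 320)) (N := (nat_lit 30))
 (ndB (a := (nat_lit 160)) (y := (nat_lit 160)) (z := (nat_lit 400)) (N := (nat_lit 30))
 .nil
 .nil (p008 h).1.2.1.1.1.2.1 (by decide +kernel))
 .nil (p008 h).1.2.1.1.1.2.2.1 (by decide +kernel))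
 (ndB (a := (nat_lit 160)) (y := (nat_lit 320)) (z := (nat_lit 400)) (N := (nat_lit 30))
 .nil
 .nil (p008 h).1.2.1.1.2.1.1 (by decide +kernel)) (p008 h).1.2.1.1.1.2.2.2 (by decide +kernel))
 (ndB (a := (nat_lit 240)) (y := (nat_lit 400)) (z := (nat_lit 400)) (N := (nat_lit 30))
 (ndB (a := (nat_lit 240)) (y := (nat_lit 240)) (z := (nat_lit 400)) (N := (nat_lit 30))
 .nil
 .nil (p008 h).1.2.1.1.2.1.2.2 (by decide +kernel))
 (ndB (a := (nat_lit 320)) (y := (nat_lit 400)) (z := (nat_lit 400)) (N := (nat_lit 30))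
 .nil
 .nil (p008 h).1.2.1.1.2.2.2.1 (by decide +kernel)) (p008 h).1.2.1.1.2.2.1 (by decide +kernel)) (p008 h).1.2.1.1.2.1.2.1 (by decide +kernel)) (p008 h).1.2.1.1.1.1.2 (by decide +kernel)) (p008 h).1.1.2.2.1.2.2.1 (by decide +kernel))
theorem F21_ok (h : RcOK RE.rowE) : F21.OK := .of (by decide +kernel) (T21_ok h)
theorem T22_ok (h : RcOK RE.rowE) : TOK rd22 ks22 T22 := (ndB (a := (nat_lit 80)) (y := (nat_lit 240)) (z := (nat_lit 320)) (N := (nat_lit 252))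
 (ndB (a := (nat_lit 0)) (y := (nat_lit 240)) (z := (nat_lit 320)) (N := (nat_lit 252))
 (ndB (a := (nat_lit 0)) (y := (nat_lit 80)) (z := (nat_lit 320)) (N := (nat_lit 252))
 (ndB (a := (nat_lit 0)) (y := (nat_lit 0)) (z := (nat_lit 320)) (N := (nat_lit 252))
 (ndB (a := (nat_lit 0)) (y := (nat_lit 0)) (z := (nat_lit 240)) (N := (nat_lit 252))
 (ndB (a := (nat_lit 0)) (y := (nat_lit 0)) (z := (nat_lit 160)) (N := (nat_lit 252))
 .nil
 .nil (p008 h).1.2.1.1.2.2.2.2 (by decide +kernel))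
 .nil (p008 h).1.2.1.2.1.1.1 (by decide +kernel))
 (ndB (a := (nat_lit 0)) (y := (nat_lit 80)) (z := (nat_lit 240)) (N := (nat_lit 252))
 (ndB (a := (nat_lit 0)) (y := (nat_lit 80)) (z := (nat_lit 160)) (N := (nat_lit 252))
 .nil
 .nil (p008 h).1.2.1.2.1.1.2.2 (by decide +kernel))
 .nil (p008 h).1.2.1.2.1.2.1 (by decide +kernel)) (p008 h).1.2.1.2.1.1.2.1 (by decide +kernel))
 (ndB (a := (nat_lit 0)) (y := (nat_lit 160)) (z := (nat_lit 320)) (N := (nat_lit 252))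
 (ndB (a := (nat_lit 0)) (y := (nat_lit 160)) (z := (nat_lit 240)) (N := (nat_lit 252))
 (ndB (a := (nat_lit 0)) (y := (nat_lit 160)) (z := (nat_lit 160)) (N := (nat_lit 252))
 .nil
 .nil (p008 h).1.2.1.2.1.2.2.2 (by decide +kernel))
 .nil (p008 h).1.2.1.2.2.1.1 (by decide +kernel))
 (ndB (a := (nat_lit 0)) (y := (nat_lit 240)) (z := (nat_lit 240)) (N := (nat_lit 252))
 (ndB (a := (nat_lit 0)) (y := (nat_lit 160)) (z := (nat_lit 400)) (N := (nat_lit 252))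
 .nil
 .nil (p008 h).1.2.1.2.2.1.2.2 (by decide +kernel))
 .nil (p008 h).1.2.1.2.2.2.1 (by decide +kernel)) (p008 h).1.2.1.2.2.1.2.1 (by decide +kernel)) (p008 h).1.2.1.2.1.2.2.1 (by decide +kernel))
 (ndB (a := (nat_lit 80)) (y := (nat_lit 80)) (z := (nat_lit 320)) (N := (nat_lit 252))
 (ndB (a := (nat_lit 0)) (y := (nat_lit 320)) (z := (nat_lit 400)) (N := (nat_lit 252))
 (ndB (a := (nat_lit 0)) (y := (nat_lit 320)) (z := (nat_lit 320)) (N := (nat_lit 252))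
 (ndB (a := (nat_lit 0)) (y := (nat_lit 240)) (z := (nat_lit 400)) (N := (nat_lit 252))
 .nil
 .nil (p008 h).1.2.1.2.2.2.2.2 (by decide +kernel))
 .nil (p008 h).1.2.2.1.1.1.1 (by decide +kernel))
 (ndB (a := (nat_lit 80)) (y := (nat_lit 80)) (z := (nat_lit 240)) (N := (nat_lit 252))
 (ndB (a := (nat_lit 80)) (y := (nat_lit 80)) (z := (nat_lit 160)) (N := (nat_lit 252))
 .nil
 .nil (p008 h).1.2.2.1.1.2.1 (by decide +kernel))
 .nil (p008 h).1.2.2.1.1.2.2.1 (by decide +kernel)) (p008 h).1.2.2.1.1.1.2 (by decide +kernel))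
 (ndB (a := (nat_lit 80)) (y := (nat_lit 160)) (z := (nat_lit 320)) (N := (nat_lit 252))
 (ndB (a := (nat_lit 80)) (y := (nat_lit 160)) (z := (nat_lit 240)) (N := (nat_lit 252))
 (ndB (a := (nat_lit 80)) (y := (nat_lit 160)) (z := (nat_lit 160)) (N := (nat_lit 252))
 .nil
 .nil (p008 h).1.2.2.1.2.1.1 (by decide +kernel))
 .nil (p008 h).1.2.2.1.2.1.2.1 (by decide +kernel))
 (ndB (a := (nat_lit 80)) (y := (nat_lit 240)) (z := (nat_lit 240)) (N := (nat_lit 252))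
 (ndB (a := (nat_lit 80)) (y := (nat_lit 160)) (z := (nat_lit 400)) (N := (nat_lit 252))
 .nil
 .nil (p008 h).1.2.2.1.2.2.1 (by decide +kernel))
 .nil (p008 h).1.2.2.1.2.2.2.1 (by decide +kernel)) (p008 h).1.2.2.1.2.1.2.2 (by decide +kernel)) (p008 h).1.2.2.1.1.2.2.2 (by decide +kernel)) (p008 h).1.2.1.2.2.2.2.1 (by decide +kernel))
 (ndB (a := (nat_lit 160)) (y := (nat_lit 320)) (z := (nat_lit 400)) (N := (nat_lit 252))
 (ndB (a := (nat_lit 160)) (y := (nat_lit 160)) (z := (nat_lit 320)) (N := (nat_lit 252))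
 (ndB (a := (nat_lit 80)) (y := (nat_lit 320)) (z := (nat_lit 400)) (N := (nat_lit 252))
 (ndB (a := (nat_lit 80)) (y := (nat_lit 320)) (z := (nat_lit 320)) (N := (nat_lit 252))
 (ndB (a := (nat_lit 80)) (y := (nat_lit 240)) (z := (nat_lit 400)) (N := (nat_lit 252))
 .nil
 .nil (p008 h).1.2.2.2.1.1.1 (by decide +kernel))
 .nil (p008 h).1.2.2.2.1.1.2.1 (by decide +kernel))
 (ndB (a := (nat_lit 160)) (y := (nat_lit 160)) (z := (nat_lit 240)) (N := (nat_lit 252))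
 (ndB (a := (nat_lit 160)) (y := (nat_lit 160)) (z := (nat_lit 160)) (N := (nat_lit 252))
 .nil
 .nil (p008 h).1.2.2.2.1.2.1 (by decide +kernel))
 .nil (p008 h).1.2.2.2.1.2.2.1 (by decide +kernel)) (p008 h).1.2.2.2.1.1.2.2 (by decide +kernel))
 (ndB (a := (nat_lit 160)) (y := (nat_lit 240)) (z := (nat_lit 320)) (N := (nat_lit 252))
 (ndB (a := (nat_lit 160)) (y := (nat_lit 240)) (z := (nat_lit 240)) (N := (nat_lit 252))
 (ndB (a := (nat_lit 160)) (y := (nat_lit 160)) (z := (nat_lit 400)) (N := (nat_lit 252))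
 .nil
 .nil (p008 h).1.2.2.2.2.1.1 (by decide +kernel))
 .nil (p008 h).1.2.2.2.2.1.2.1 (by decide +kernel))
 (ndB (a := (nat_lit 160)) (y := (nat_lit 320)) (z := (nat_lit 320)) (N := (nat_lit 252))
 (ndB (a := (nat_lit 160)) (y := (nat_lit 240)) (z := (nat_lit 400)) (N := (nat_lit 252))
 .nil
 .nil (p008 h).1.2.2.2.2.2.1 (by decide +kernel))
 .nil (p008 h).1.2.2.2.2.2.2.1 (by decide +kernel)) (p008 h).1.2.2.2.2.1.2.2 (by decide +kernel)) (p008 h).1.2.2.2.1.2.2.2 (by decide +kernel))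
 (ndB (a := (nat_lit 240)) (y := (nat_lit 320)) (z := (nat_lit 400)) (N := (nat_lit 252))
 (ndB (a := (nat_lit 240)) (y := (nat_lit 240)) (z := (nat_lit 320)) (N := (nat_lit 252))
 (ndB (a := (nat_lit 240)) (y := (nat_lit 240)) (z := (nat_lit 240)) (N := (nat_lit 252))
 (ndB (a := (nat_lit 160)) (y := (nat_lit 400)) (z := (nat_lit 400)) (N := (nat_lit 252))
 .nil
 .nil (p008 h).2.1.1.1.1.1.1 (by decide +kernel))
 .nil (p008 h).2.1.1.1.1.1.2 (by decide +kernel))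
 (ndB (a := (nat_lit 240)) (y := (nat_lit 320)) (z := (nat_lit 320)) (N := (nat_lit 252))
 (ndB (a := (nat_lit 240)) (y := (nat_lit 240)) (z := (nat_lit 400)) (N := (nat_lit 252))
 .nil
 .nil (p008 h).2.1.1.1.1.2.2.1 (by decide +kernel))
 .nil (p008 h).2.1.1.1.1.2.2.2 (by decide +kernel)) (p008 h).2.1.1.1.1.2.1 (by decide +kernel))
 (ndB (a := (nat_lit 320)) (y := (nat_lit 320)) (z := (nat_lit 400)) (N := (nat_lit 252))
 (ndB (a := (nat_lit 320)) (y := (nat_lit 320)) (z := (nat_lit 320)) (N := (nat_lit 252))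
 (ndB (a := (nat_lit 240)) (y := (nat_lit 400)) (z := (nat_lit 400)) (N := (nat_lit 252))
 .nil
 .nil (p008 h).2.1.1.1.2.1.2.1 (by decide +kernel))
 .nil (p008 h).2.1.1.1.2.1.2.2 (by decide +kernel))
 (ndB (a := (nat_lit 320)) (y := (nat_lit 400)) (z := (nat_lit 400)) (N := (nat_lit 252))
 .nil
 .nil (p008 h).2.1.1.1.2.2.2.1 (by decide +kernel)) (p008 h).2.1.1.1.2.2.1 (by decide +kernel)) (p008 h).2.1.1.1.2.1.1 (by decide +kernel)) (p008 h).1.2.2.2.2.2.2.2 (by decide +kernel)) (p008 h).1.2.2.1.2.2.2.2 (by decide +kernel))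
theorem F22_ok (h : RcOK RE.rowE) : F22.OK := .of (by decide +kernel) (T22_ok h)
theorem T23_ok (h : RcOK RE.rowE) : TOK rd23 ks23 T23 := (ndB (a := (nat_lit 80)) (y := (nat_lit 240)) (z := (nat_lit 320)) (N := (nat_lit 765))
 (ndB (a := (nat_lit 0)) (y := (nat_lit 240)) (z := (nat_lit 320)) (N := (nat_lit 765))
 (ndB (a := (nat_lit 0)) (y := (nat_lit 80)) (z := (nat_lit 320)) (N := (nat_lit 765))
 (ndB (a := (nat_lit 0)) (y := (nat_lit 0)) (z := (nat_lit 320)) (N := (nat_lit 765))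
 (ndB (a := (nat_lit 0)) (y := (nat_lit 0)) (z := (nat_lit 240)) (N := (nat_lit 765))
 (ndB (a := (nat_lit 0)) (y := (nat_lit 0)) (z := (nat_lit 160)) (N := (nat_lit 765))
 .nil
 .nil (p008 h).2.1.1.1.2.2.2.2 (by decide +kernel))
 .nil (p008 h).2.1.1.2.1.1.1 (by decide +kernel))
 (ndB (a := (nat_lit 0)) (y := (nat_lit 80)) (z := (nat_lit 240)) (N := (nat_lit 765))
 (ndB (a := (nat_lit 0)) (y := (nat_lit 80)) (z := (nat_lit 160)) (N := (nat_lit 765))
 .nil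
 .nil (p008 h).2.1.1.2.1.1.2.2 (by decide +kernel))
 .nil (p008 h).2.1.1.2.1.2.1 (by decide +kernel)) (p008 h).2.1.1.2.1.1.2.1 (by decide +kernel))
 (ndB (a := (nat_lit 0)) (y := (nat_lit 160)) (z := (nat_lit 320)) (N := (nat_lit 765))
 (ndB (a := (nat_lit 0)) (y := (nat_lit 160)) (z := (nat_lit 240)) (N := (nat_lit 765))
 (ndB (a := (nat_lit 0)) (y := (nat_lit 160)) (z := (nat_lit 160)) (N := (nat_lit 765))
 .nil
 .nil (p008 h).2.1.1.2.1.2.2.2 (by decide +kernel))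
 .nil (p008 h).2.1.1.2.2.1.1 (by decide +kernel))
 (ndB (a := (nat_lit 0)) (y := (nat_lit 240)) (z := (nat_lit 240)) (N := (nat_lit 765))
 (ndB (a := (nat_lit 0)) (y := (nat_lit 160)) (z := (nat_lit 400)) (N := (nat_lit 765))
 .nil
 .nil (p008 h).2.1.1.2.2.1.2.2 (by decide +kernel))
 .nil (p008 h).2.1.1.2.2.2.1 (by decide +kernel)) (p008 h).2.1.1.2.2.1.2.1 (by decide +kernel)) (p008 h).2.1.1.2.1.2.2.1 (by decide +kernel))
 (ndB (a := (nat_lit 80)) (y := (nat_lit 80)) (z := (nat_lit 320)) (N := (nat_lit 765))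
 (ndB (a := (nat_lit 0)) (y := (nat_lit 320)) (z := (nat_lit 400)) (N := (nat_lit 765))
 (ndB (a := (nat_lit 0)) (y := (nat_lit 320)) (z := (nat_lit 320)) (N := (nat_lit 765))
 (ndB (a := (nat_lit 0)) (y := (nat_lit 240)) (z := (nat_lit 400)) (N := (nat_lit 765))
 .nil
 .nil (p008 h).2.1.1.2.2.2.2.2 (by decide +kernel))
 .nil (p008 h).2.1.2.1.1.1.1 (by decide +kernel))
 (ndB (a := (nat_lit 80)) (y := (nat_lit 80)) (z := (nat_lit 240)) (N := (nat_lit 765))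
 (ndB (a := (nat_lit 80)) (y := (nat_lit 80)) (z := (nat_lit 160)) (N := (nat_lit 765))
 .nil
 .nil (p008 h).2.1.2.1.1.2.1 (by decide +kernel))
 .nil (p008 h).2.1.2.1.1.2.2.1 (by decide +kernel)) (p008 h).2.1.2.1.1.1.2 (by decide +kernel))
 (ndB (a := (nat_lit 80)) (y := (nat_lit 160)) (z := (nat_lit 320)) (N := (nat_lit 765))
 (ndB (a := (nat_lit 80)) (y := (nat_lit 160)) (z := (nat_lit 240)) (N := (nat_lit 765))
 (ndB (a := (nat_lit 80)) (y := (nat_lit 160)) (z := (nat_lit 160)) (N := (nat_lit 765))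
 .nil
 .nil (p008 h).2.1.2.1.2.1.1 (by decide +kernel))
 .nil (p008 h).2.1.2.1.2.1.2.1 (by decide +kernel))
 (ndB (a := (nat_lit 80)) (y := (nat_lit 240)) (z := (nat_lit 240)) (N := (nat_lit 765))
 (ndB (a := (nat_lit 80)) (y := (nat_lit 160)) (z := (nat_lit 400)) (N := (nat_lit 765))
 .nil
 .nil (p008 h).2.1.2.1.2.2.1 (by decide +kernel))
 .nil (p008 h).2.1.2.1.2.2.2.1 (by decide +kernel)) (p008 h).2.1.2.1.2.1.2.2 (by decide +kernel)) (p008 h).2.1.2.1.1.2.2.2 (by decide +kernel)) (p008 h).2.1.1.2.2.2.2.1 (by decide +kernel))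
 (ndB (a := (nat_lit 160)) (y := (nat_lit 320)) (z := (nat_lit 400)) (N := (nat_lit 765))
 (ndB (a := (nat_lit 160)) (y := (nat_lit 160)) (z := (nat_lit 320)) (N := (nat_lit 765))
 (ndB (a := (nat_lit 80)) (y := (nat_lit 320)) (z := (nat_lit 400)) (N := (nat_lit 765))
 (ndB (a := (nat_lit 80)) (y := (nat_lit 320)) (z := (nat_lit 320)) (N := (nat_lit 765))
 (ndB (a := (nat_lit 80)) (y := (nat_lit 240)) (z := (nat_lit 400)) (N := (nat_lit 765))
 .nil
 .nil (p008 h).2.1.2.2.1.1.1 (by decide +kernel))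
 .nil (p008 h).2.1.2.2.1.1.2.1 (by decide +kernel))
 (ndB (a := (nat_lit 160)) (y := (nat_lit 160)) (z := (nat_lit 240)) (N := (nat_lit 765))
 (ndB (a := (nat_lit 160)) (y := (nat_lit 160)) (z := (nat_lit 160)) (N := (nat_lit 765))
 .nil
 .nil (p008 h).2.1.2.2.1.2.1 (by decide +kernel))
 .nil (p008 h).2.1.2.2.1.2.2.1 (by decide +kernel)) (p008 h).2.1.2.2.1.1.2.2 (by decide +kernel))
 (ndB (a := (nat_lit 160)) (y := (nat_lit 240)) (z := (nat_lit 320)) (N := (nat_lit 765))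
 (ndB (a := (nat_lit 160)) (y := (nat_lit 240)) (z := (nat_lit 240)) (N := (nat_lit 765))
 (ndB (a := (nat_lit 160)) (y := (nat_lit 160)) (z := (nat_lit 400)) (N := (nat_lit 765))
 .nil
 .nil (p008 h).2.1.2.2.2.1.1 (by decide +kernel))
 .nil (p008 h).2.1.2.2.2.1.2.1 (by decide +kernel))
 (ndB (a := (nat_lit 160)) (y := (nat_lit 320)) (z := (nat_lit 320)) (N := (nat_lit 765))
 (ndB (a := (nat_lit 160)) (y := (nat_lit 240)) (z := (nat_lit 400)) (N := (nat_lit 765))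
 .nil
 .nil (p008 h).2.1.2.2.2.2.1 (by decide +kernel))
 .nil (p008 h).2.1.2.2.2.2.2.1 (by decide +kernel)) (p008 h).2.1.2.2.2.1.2.2 (by decide +kernel)) (p008 h).2.1.2.2.1.2.2.2 (by decide +kernel))
 (ndB (a := (nat_lit 240)) (y := (nat_lit 320)) (z := (nat_lit 400)) (N := (nat_lit 765))
 (ndB (a := (nat_lit 240)) (y := (nat_lit 240)) (z := (nat_lit 320)) (N := (nat_lit 765))
 (ndB (a := (nat_lit 240)) (y := (nat_lit 240)) (z := (nat_lit 240)) (N := (nat_lit 765))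
 (ndB (a := (nat_lit 160)) (y := (nat_lit 400)) (z := (nat_lit 400)) (N := (nat_lit 765))
 .nil
 .nil (p008 h).2.2.1.1.1.1.1 (by decide +kernel))
 .nil (p008 h).2.2.1.1.1.1.2 (by decide +kernel))
 (ndB (a := (nat_lit 240)) (y := (nat_lit 320)) (z := (nat_lit 320)) (N := (nat_lit 765))
 (ndB (a := (nat_lit 240)) (y := (nat_lit 240)) (z := (nat_lit 400)) (N := (nat_lit 765))
 .nil
 .nil (p008 h).2.2.1.1.1.2.2.1 (by decide +kernel))
 .nil (p008 h).2.2.1.1.1.2.2.2 (by decide +kernel)) (p008 h).2.2.1.1.1.2.1 (by decide +kernel))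
 (ndB (a := (nat_lit 320)) (y := (nat_lit 320)) (z := (nat_lit 400)) (N := (nat_lit 765))
 (ndB (a := (nat_lit 320)) (y := (nat_lit 320)) (z := (nat_lit 320)) (N := (nat_lit 765))
 (ndB (a := (nat_lit 240)) (y := (nat_lit 400)) (z := (nat_lit 400)) (N := (nat_lit 765))
 .nil
 .nil (p008 h).2.2.1.1.2.1.2.1 (by decide +kernel))
 .nil (p008 h).2.2.1.1.2.1.2.2 (by decide +kernel))
 (ndB (a := (nat_lit 320)) (y := (nat_lit 400)) (z := (nat_lit 400)) (N := (nat_lit 765))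
 .nil
 .nil (p008 h).2.2.1.1.2.2.2.1 (by decide +kernel)) (p008 h).2.2.1.1.2.2.1 (by decide +kernel)) (p008 h).2.2.1.1.2.1.1 (by decide +kernel)) (p008 h).2.1.2.2.2.2.2.2 (by decide +kernel)) (p008 h).2.1.2.1.2.2.2.2 (by decide +kernel))
theorem F23_ok (h : RcOK RE.rowE) : F23.OK := .of (by decide +kernel) (T23_ok h)
theorem T24_ok (h : RcOK RE.rowE) : TOK rd24 ks24 T24 := (ndB (a := (nat_lit 80)) (y := (nat_lit 240)) (z := (nat_lit 320)) (N := (nat_lit 650))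
 (ndB (a := (nat_lit 0)) (y := (nat_lit 240)) (z := (nat_lit 320)) (N := (nat_lit 650))
 (ndB (a := (nat_lit 0)) (y := (nat_lit 80)) (z := (nat_lit 320)) (N := (nat_lit 650))
 (ndB (a := (nat_lit 0)) (y := (nat_lit 0)) (z := (nat_lit 320)) (N := (nat_lit 650))
 (ndB (a := (nat_lit 0)) (y := (nat_lit 0)) (z := (nat_lit 240)) (N := (nat_lit 650))
 (ndB (a := (nat_lit 0)) (y := (nat_lit 0)) (z := (nat_lit 160)) (N := (nat_lit 650))
 .nil
 .nil (p008 h).2.2.1.1.2.2.2.2 (by decide +kernel))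
 .nil (p008 h).2.2.1.2.1.1.1 (by decide +kernel))
 (ndB (a := (nat_lit 0)) (y := (nat_lit 80)) (z := (nat_lit 240)) (N := (nat_lit 650))
 (ndB (a := (nat_lit 0)) (y := (nat_lit 80)) (z := (nat_lit 160)) (N := (nat_lit 650))
 .nil
 .nil (p008 h).2.2.1.2.1.1.2.2 (by decide +kernel))
 .nil (p008 h).2.2.1.2.1.2.1 (by decide +kernel)) (p008 h).2.2.1.2.1.1.2.1 (by decide +kernel))
 (ndB (a := (nat_lit 0)) (y := (nat_lit 160)) (z := (nat_lit 320)) (N := (nat_lit 650))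
 (ndB (a := (nat_lit 0)) (y := (nat_lit 160)) (z := (nat_lit 240)) (N := (nat_lit 650))
 (ndB (a := (nat_lit 0)) (y := (nat_lit 160)) (z := (nat_lit 160)) (N := (nat_lit 650))
 .nil
 .nil (p008 h).2.2.1.2.1.2.2.2 (by decide +kernel))
 .nil (p008 h).2.2.1.2.2.1.1 (by decide +kernel))
 (ndB (a := (nat_lit 0)) (y := (nat_lit 240)) (z := (nat_lit 240)) (N := (nat_lit 650))
 (ndB (a := (nat_lit 0)) (y := (nat_lit 160)) (z := (nat_lit 400)) (N := (nat_lit 650))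
 .nil
 .nil (p008 h).2.2.1.2.2.1.2.2 (by decide +kernel))
 .nil (p008 h).2.2.1.2.2.2.1 (by decide +kernel)) (p008 h).2.2.1.2.2.1.2.1 (by decide +kernel)) (p008 h).2.2.1.2.1.2.2.1 (by decide +kernel))
 (ndB (a := (nat_lit 80)) (y := (nat_lit 80)) (z := (nat_lit 320)) (N := (nat_lit 650))
 (ndB (a := (nat_lit 0)) (y := (nat_lit 320)) (z := (nat_lit 400)) (N := (nat_lit 650))
 (ndB (a := (nat_lit 0)) (y := (nat_lit 320)) (z := (nat_lit 320)) (N := (nat_lit 650))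
 (ndB (a := (nat_lit 0)) (y := (nat_lit 240)) (z := (nat_lit 400)) (N := (nat_lit 650))
 .nil
 .nil (p008 h).2.2.1.2.2.2.2.2 (by decide +kernel))
 .nil (p008 h).2.2.2.1.1.1.1 (by decide +kernel))
 (ndB (a := (nat_lit 80)) (y := (nat_lit 80)) (z := (nat_lit 240)) (N := (nat_lit 650))
 (ndB (a := (nat_lit 80)) (y := (nat_lit 80)) (z := (nat_lit 160)) (N := (nat_lit 650))
 .nil
 .nil (p008 h).2.2.2.1.1.1.2.2 (by decide +kernel))
 .nil (p008 h).2.2.2.1.1.2.1 (by decide +kernel)) (p008 h).2.2.2.1.1.1.2.1 (by decide +kernel))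
 (ndB (a := (nat_lit 80)) (y := (nat_lit 160)) (z := (nat_lit 320)) (N := (nat_lit 650))
 (ndB (a := (nat_lit 80)) (y := (nat_lit 160)) (z := (nat_lit 240)) (N := (nat_lit 650))
 (ndB (a := (nat_lit 80)) (y := (nat_lit 160)) (z := (nat_lit 160)) (N := (nat_lit 650))
 .nil
 .nil (p008 h).2.2.2.1.1.2.2.2 (by decide +kernel))
 .nil (p008 h).2.2.2.1.2.1.1 (by decide +kernel))
 (ndB (a := (nat_lit 80)) (y := (nat_lit 240)) (z := (nat_lit 240)) (N := (nat_lit 650))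
 (ndB (a := (nat_lit 80)) (y := (nat_lit 160)) (z := (nat_lit 400)) (N := (nat_lit 650))
 .nil
 .nil (p008 h).2.2.2.1.2.1.2.2 (by decide +kernel))
 .nil (p008 h).2.2.2.1.2.2.1 (by decide +kernel)) (p008 h).2.2.2.1.2.1.2.1 (by decide +kernel)) (p008 h).2.2.2.1.1.2.2.1 (by decide +kernel)) (p008 h).2.2.1.2.2.2.2.1 (by decide +kernel))
 (ndB (a := (nat_lit 160)) (y := (nat_lit 320)) (z := (nat_lit 400)) (N := (nat_lit 650))
 (ndB (a := (nat_lit 160)) (y := (nat_lit 160)) (z := (nat_lit 320)) (N := (nat_lit 650))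
 (ndB (a := (nat_lit 80)) (y := (nat_lit 320)) (z := (nat_lit 400)) (N := (nat_lit 650))
 (ndB (a := (nat_lit 80)) (y := (nat_lit 320)) (z := (nat_lit 320)) (N := (nat_lit 650))
 (ndB (a := (nat_lit 80)) (y := (nat_lit 240)) (z := (nat_lit 400)) (N := (nat_lit 650))
 .nil
 .nil (p008 h).2.2.2.1.2.2.2.2 (by decide +kernel))
 .nil (p008 h).2.2.2.2.1.1.1 (by decide +kernel))
 (ndB (a := (nat_lit 160)) (y := (nat_lit 160)) (z := (nat_lit 240)) (N := (nat_lit 650))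
 (ndB (a := (nat_lit 160)) (y := (nat_lit 160)) (z := (nat_lit 160)) (N := (nat_lit 650))
 .nil
 .nil (p008 h).2.2.2.2.1.1.2.2 (by decide +kernel))
 .nil (p008 h).2.2.2.2.1.2.1 (by decide +kernel)) (p008 h).2.2.2.2.1.1.2.1 (by decide +kernel))
 (ndB (a := (nat_lit 160)) (y := (nat_lit 240)) (z := (nat_lit 320)) (N := (nat_lit 650))
 (ndB (a := (nat_lit 160)) (y := (nat_lit 240)) (z := (nat_lit 240)) (N := (nat_lit 650))
 (ndB (a := (nat_lit 160)) (y := (nat_lit 160)) (z := (nat_lit 400)) (N := (nat_lit 650))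
 .nil
 .nil (p008 h).2.2.2.2.1.2.2.2 (by decide +kernel))
 .nil (p008 h).2.2.2.2.2.1.1 (by decide +kernel))
 (ndB (a := (nat_lit 160)) (y := (nat_lit 320)) (z := (nat_lit 320)) (N := (nat_lit 650))
 (ndB (a := (nat_lit 160)) (y := (nat_lit 240)) (z := (nat_lit 400)) (N := (nat_lit 650))
 .nil
 .nil (p008 h).2.2.2.2.2.1.2.2 (by decide +kernel))
 .nil (p008 h).2.2.2.2.2.2.1 (by decide +kernel)) (p008 h).2.2.2.2.2.1.2.1 (by decide +kernel)) (p008 h).2.2.2.2.1.2.2.1 (by decide +kernel))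
 (ndB (a := (nat_lit 240)) (y := (nat_lit 320)) (z := (nat_lit 400)) (N := (nat_lit 650))
 (ndB (a := (nat_lit 240)) (y := (nat_lit 240)) (z := (nat_lit 320)) (N := (nat_lit 650))
 (ndB (a := (nat_lit 240)) (y := (nat_lit 240)) (z := (nat_lit 240)) (N := (nat_lit 650))
 (ndB (a := (nat_lit 160)) (y := (nat_lit 400)) (z := (nat_lit 400)) (N := (nat_lit 650))
 .nil
 .nil (p008 h).2.2.2.2.2.2.2.2 (by decide +kernel))
 .nil (p009 h).1.1.1.1.1.1.1 (by decide +kernel))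
 (ndB (a := (nat_lit 240)) (y := (nat_lit 320)) (z := (nat_lit 320)) (N := (nat_lit 650))
 (ndB (a := (nat_lit 240)) (y := (nat_lit 240)) (z := (nat_lit 400)) (N := (nat_lit 650))
 .nil
 .nil (p009 h).1.1.1.1.1.2.1 (by decide +kernel))
 .nil (p009 h).1.1.1.1.1.2.2 (by decide +kernel)) (p009 h).1.1.1.1.1.1.2 (by decide +kernel))
 (ndB (a := (nat_lit 320)) (y := (nat_lit 320)) (z := (nat_lit 400)) (N := (nat_lit 650))
 (ndB (a := (nat_lit 320)) (y := (nat_lit 320)) (z := (nat_lit 320)) (N := (nat_lit 650))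
 (ndB (a := (nat_lit 240)) (y := (nat_lit 400)) (z := (nat_lit 400)) (N := (nat_lit 650))
 .nil
 .nil (p009 h).1.1.1.1.2.1.2 (by decide +kernel))
 .nil (p009 h).1.1.1.1.2.2.1 (by decide +kernel))
 (ndB (a := (nat_lit 320)) (y := (nat_lit 400)) (z := (nat_lit 400)) (N := (nat_lit 650))
 .nil
 .nil (p009 h).1.1.1.1.2.2.2.2 (by decide +kernel)) (p009 h).1.1.1.1.2.2.2.1 (by decide +kernel)) (p009 h).1.1.1.1.2.1.1 (by decide +kernel)) (p008 h).2.2.2.2.2.2.2.1 (by decide +kernel)) (p008 h).2.2.2.1.2.2.2.1 (by decide +kernel))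
theorem F24_ok (h : RcOK RE.rowE) : F24.OK := .of (by decide +kernel) (T24_ok h)
theorem T25_ok (h : RcOK RE.rowE) : TOK rd25 ks25 T25 := (ndB (a := (nat_lit 80)) (y := (nat_lit 240)) (z := (nat_lit 320)) (N := (nat_lit 280))
 (ndB (a := (nat_lit 0)) (y := (nat_lit 240)) (z := (nat_lit 320)) (N := (nat_lit 280))
 (ndB (a := (nat_lit 0)) (y := (nat_lit 80)) (z := (nat_lit 320)) (N := (nat_lit 280))
 (ndB (a := (nat_lit 0)) (y := (nat_lit 0)) (z := (nat_lit 320)) (N := (nat_lit 280))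
 (ndB (a := (nat_lit 0)) (y := (nat_lit 0)) (z := (nat_lit 240)) (N := (nat_lit 280))
 (ndB (a := (nat_lit 0)) (y := (nat_lit 0)) (z := (nat_lit 160)) (N := (nat_lit 280))
 .nil
 .nil (p009 h).1.1.1.2.1.1.1 (by decide +kernel))
 .nil (p009 h).1.1.1.2.1.1.2 (by decide +kernel))
 (ndB (a := (nat_lit 0)) (y := (nat_lit 80)) (z := (nat_lit 240)) (N := (nat_lit 280))
 (ndB (a := (nat_lit 0)) (y := (nat_lit 80)) (z := (nat_lit 160)) (N := (nat_lit 280))
 .nil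
 .nil (p009 h).1.1.1.2.1.2.2 (by decide +kernel))
 .nil (p009 h).1.1.1.2.2.1.1 (by decide +kernel)) (p009 h).1.1.1.2.1.2.1 (by decide +kernel))
 (ndB (a := (nat_lit 0)) (y := (nat_lit 160)) (z := (nat_lit 320)) (N := (nat_lit 280))
 (ndB (a := (nat_lit 0)) (y := (nat_lit 160)) (z := (nat_lit 240)) (N := (nat_lit 280))
 (ndB (a := (nat_lit 0)) (y := (nat_lit 160)) (z := (nat_lit 160)) (N := (nat_lit 280))
 .nil
 .nil (p009 h).1.1.1.2.2.2.1 (by decide +kernel))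
 .nil (p009 h).1.1.1.2.2.2.2.1 (by decide +kernel))
 (ndB (a := (nat_lit 0)) (y := (nat_lit 240)) (z := (nat_lit 240)) (N := (nat_lit 280))
 (ndB (a := (nat_lit 0)) (y := (nat_lit 160)) (z := (nat_lit 400)) (N := (nat_lit 280))
 .nil
 .nil (p009 h).1.1.2.1.1.1.1 (by decide +kernel))
 .nil (p009 h).1.1.2.1.1.1.2 (by decide +kernel)) (p009 h).1.1.1.2.2.2.2.2 (by decide +kernel)) (p009 h).1.1.1.2.2.1.2 (by decide +kernel))
 (ndB (a := (nat_lit 80)) (y := (nat_lit 80)) (z := (nat_lit 320)) (N := (nat_lit 280))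
 (ndB (a := (nat_lit 0)) (y := (nat_lit 320)) (z := (nat_lit 400)) (N := (nat_lit 280))
 (ndB (a := (nat_lit 0)) (y := (nat_lit 320)) (z := (nat_lit 320)) (N := (nat_lit 280))
 (ndB (a := (nat_lit 0)) (y := (nat_lit 240)) (z := (nat_lit 400)) (N := (nat_lit 280))
 .nil
 .nil (p009 h).1.1.2.1.1.2.2 (by decide +kernel))
 .nil (p009 h).1.1.2.1.2.1.1 (by decide +kernel))
 (ndB (a := (nat_lit 80)) (y := (nat_lit 80)) (z := (nat_lit 240)) (N := (nat_lit 280))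
 (ndB (a := (nat_lit 80)) (y := (nat_lit 80)) (z := (nat_lit 160)) (N := (nat_lit 280))
 .nil
 .nil (p009 h).1.1.2.1.2.2.1 (by decide +kernel))
 .nil (p009 h).1.1.2.1.2.2.2.1 (by decide +kernel)) (p009 h).1.1.2.1.2.1.2 (by decide +kernel))
 (ndB (a := (nat_lit 80)) (y := (nat_lit 160)) (z := (nat_lit 320)) (N := (nat_lit 280))
 (ndB (a := (nat_lit 80)) (y := (nat_lit 160)) (z := (nat_lit 240)) (N := (nat_lit 280))
 (ndB (a := (nat_lit 80)) (y := (nat_lit 160)) (z := (nat_lit 160)) (N := (nat_lit 280))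
 .nil
 .nil (p009 h).1.1.2.2.1.1.1 (by decide +kernel))
 .nil (p009 h).1.1.2.2.1.1.2 (by decide +kernel))
 (ndB (a := (nat_lit 80)) (y := (nat_lit 240)) (z := (nat_lit 240)) (N := (nat_lit 280))
 (ndB (a := (nat_lit 80)) (y := (nat_lit 160)) (z := (nat_lit 400)) (N := (nat_lit 280))
 .nil
 .nil (p009 h).1.1.2.2.1.2.2 (by decide +kernel))
 .nil (p009 h).1.1.2.2.2.1.1 (by decide +kernel)) (p009 h).1.1.2.2.1.2.1 (by decide +kernel)) (p009 h).1.1.2.1.2.2.2.2 (by decide +kernel)) (p009 h).1.1.2.1.1.2.1 (by decide +kernel))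
 (ndB (a := (nat_lit 160)) (y := (nat_lit 320)) (z := (nat_lit 400)) (N := (nat_lit 280))
 (ndB (a := (nat_lit 160)) (y := (nat_lit 160)) (z := (nat_lit 320)) (N := (nat_lit 280))
 (ndB (a := (nat_lit 80)) (y := (nat_lit 320)) (z := (nat_lit 400)) (N := (nat_lit 280))
 (ndB (a := (nat_lit 80)) (y := (nat_lit 320)) (z := (nat_lit 320)) (N := (nat_lit 280))
 (ndB (a := (nat_lit 80)) (y := (nat_lit 240)) (z := (nat_lit 400)) (N := (nat_lit 280))
 .nil
 .nil (p009 h).1.1.2.2.2.2.1 (by decide +kernel))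
 .nil (p009 h).1.1.2.2.2.2.2.1 (by decide +kernel))
 (ndB (a := (nat_lit 160)) (y := (nat_lit 160)) (z := (nat_lit 240)) (N := (nat_lit 280))
 (ndB (a := (nat_lit 160)) (y := (nat_lit 160)) (z := (nat_lit 160)) (N := (nat_lit 280))
 .nil
 .nil (p009 h).1.2.1.1.1.1.1 (by decide +kernel))
 .nil (p009 h).1.2.1.1.1.1.2 (by decide +kernel)) (p009 h).1.1.2.2.2.2.2.2 (by decide +kernel))
 (ndB (a := (nat_lit 160)) (y := (nat_lit 240)) (z := (nat_lit 320)) (N := (nat_lit 280))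
 (ndB (a := (nat_lit 160)) (y := (nat_lit 240)) (z := (nat_lit 240)) (N := (nat_lit 280))
 (ndB (a := (nat_lit 160)) (y := (nat_lit 160)) (z := (nat_lit 400)) (N := (nat_lit 280))
 .nil
 .nil (p009 h).1.2.1.1.1.2.2 (by decide +kernel))
 .nil (p009 h).1.2.1.1.2.1.1 (by decide +kernel))
 (ndB (a := (nat_lit 160)) (y := (nat_lit 320)) (z := (nat_lit 320)) (N := (nat_lit 280))
 (ndB (a := (nat_lit 160)) (y := (nat_lit 240)) (z := (nat_lit 400)) (N := (nat_lit 280))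
 .nil
 .nil (p009 h).1.2.1.1.2.2.1 (by decide +kernel))
 .nil (p009 h).1.2.1.1.2.2.2.1 (by decide +kernel)) (p009 h).1.2.1.1.2.1.2 (by decide +kernel)) (p009 h).1.2.1.1.1.2.1 (by decide +kernel))
 (ndB (a := (nat_lit 240)) (y := (nat_lit 320)) (z := (nat_lit 400)) (N := (nat_lit 280))
 (ndB (a := (nat_lit 240)) (y := (nat_lit 240)) (z := (nat_lit 320)) (N := (nat_lit 280))
 (ndB (a := (nat_lit 240)) (y := (nat_lit 240)) (z := (nat_lit 240)) (N := (nat_lit 280))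
 (ndB (a := (nat_lit 160)) (y := (nat_lit 400)) (z := (nat_lit 400)) (N := (nat_lit 280))
 .nil
 .nil (p009 h).1.2.1.2.1.1.1 (by decide +kernel))
 .nil (p009 h).1.2.1.2.1.1.2 (by decide +kernel))
 (ndB (a := (nat_lit 240)) (y := (nat_lit 320)) (z := (nat_lit 320)) (N := (nat_lit 280))
 (ndB (a := (nat_lit 240)) (y := (nat_lit 240)) (z := (nat_lit 400)) (N := (nat_lit 280))
 .nil
 .nil (p009 h).1.2.1.2.1.2.2 (by decide +kernel))
 .nil (p009 h).1.2.1.2.2.1.1 (by decide +kernel)) (p009 h).1.2.1.2.1.2.1 (by decide +kernel))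
 (ndB (a := (nat_lit 320)) (y := (nat_lit 320)) (z := (nat_lit 400)) (N := (nat_lit 280))
 (ndB (a := (nat_lit 320)) (y := (nat_lit 320)) (z := (nat_lit 320)) (N := (nat_lit 280))
 (ndB (a := (nat_lit 240)) (y := (nat_lit 400)) (z := (nat_lit 400)) (N := (nat_lit 280))
 .nil
 .nil (p009 h).1.2.1.2.2.2.1 (by decide +kernel))
 .nil (p009 h).1.2.1.2.2.2.2.1 (by decide +kernel))
 (ndB (a := (nat_lit 320)) (y := (nat_lit 400)) (z := (nat_lit 400)) (N := (nat_lit 280))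
 .nil
 .nil (p009 h).1.2.2.1.1.1.1 (by decide +kernel)) (p009 h).1.2.1.2.2.2.2.2 (by decide +kernel)) (p009 h).1.2.1.2.2.1.2 (by decide +kernel)) (p009 h).1.2.1.1.2.2.2.2 (by decide +kernel)) (p009 h).1.1.2.2.2.1.2 (by decide +kernel))
theorem F25_ok (h : RcOK RE.rowE) : F25.OK := .of (by decide +kernel) (T25_ok h)
theorem T26_ok (h : RcOK RE.rowE) : TOK rd26 ks26 T26 := (ndB (a := (nat_lit 80)) (y := (nat_lit 240)) (z := (nat_lit 320)) (N := (nat_lit 35))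
 (ndB (a := (nat_lit 0)) (y := (nat_lit 240)) (z := (nat_lit 320)) (N := (nat_lit 35))
 (ndB (a := (nat_lit 0)) (y := (nat_lit 160)) (z := (nat_lit 160)) (N := (nat_lit 35))
 (ndB (a := (nat_lit 0)) (y := (nat_lit 80)) (z := (nat_lit 160)) (N := (nat_lit 35))
 (ndB (a := (nat_lit 0)) (y := (nat_lit 0)) (z := (nat_lit 240)) (N := (nat_lit 35))
 (ndB (a := (nat_lit 0)) (y := (nat_lit 0)) (z := (nat_lit 160)) (N := (nat_lit 35))
 .nil
 .nil (p009 h).1.2.2.1.1.1.2 (by decide +kernel))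
 .nil (p009 h).1.2.2.1.1.2.1 (by decide +kernel))
 (ndB (a := (nat_lit 0)) (y := (nat_lit 80)) (z := (nat_lit 240)) (N := (nat_lit 35))
 .nil
 .nil (p009 h).1.2.2.1.2.1.1 (by decide +kernel)) (p009 h).1.2.2.1.1.2.2 (by decide +kernel))
 (ndB (a := (nat_lit 0)) (y := (nat_lit 160)) (z := (nat_lit 400)) (N := (nat_lit 35))
 (ndB (a := (nat_lit 0)) (y := (nat_lit 160)) (z := (nat_lit 320)) (N := (nat_lit 35))
 (ndB (a := (nat_lit 0)) (y := (nat_lit 160)) (z := (nat_lit 240)) (N := (nat_lit 35))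
 .nil
 .nil (p009 h).1.2.2.1.2.2.1 (by decide +kernel))
 .nil (p009 h).1.2.2.1.2.2.2.1 (by decide +kernel))
 (ndB (a := (nat_lit 0)) (y := (nat_lit 240)) (z := (nat_lit 240)) (N := (nat_lit 35))
 .nil
 .nil (p009 h).1.2.2.2.1.1.1 (by decide +kernel)) (p009 h).1.2.2.1.2.2.2.2 (by decide +kernel)) (p009 h).1.2.2.1.2.1.2 (by decide +kernel))
 (ndB (a := (nat_lit 80)) (y := (nat_lit 160)) (z := (nat_lit 240)) (N := (nat_lit 35))
 (ndB (a := (nat_lit 80)) (y := (nat_lit 80)) (z := (nat_lit 240)) (N := (nat_lit 35))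
 (ndB (a := (nat_lit 80)) (y := (nat_lit 80)) (z := (nat_lit 160)) (N := (nat_lit 35))
 (ndB (a := (nat_lit 0)) (y := (nat_lit 240)) (z := (nat_lit 400)) (N := (nat_lit 35))
 .nil
 .nil (p009 h).1.2.2.2.1.2.1 (by decide +kernel))
 .nil (p009 h).1.2.2.2.1.2.2 (by decide +kernel))
 (ndB (a := (nat_lit 80)) (y := (nat_lit 160)) (z := (nat_lit 160)) (N := (nat_lit 35))
 .nil
 .nil (p009 h).1.2.2.2.2.1.2 (by decide +kernel)) (p009 h).1.2.2.2.2.1.1 (by decide +kernel))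
 (ndB (a := (nat_lit 80)) (y := (nat_lit 160)) (z := (nat_lit 400)) (N := (nat_lit 35))
 (ndB (a := (nat_lit 80)) (y := (nat_lit 160)) (z := (nat_lit 320)) (N := (nat_lit 35))
 .nil
 .nil (p009 h).1.2.2.2.2.2.2.1 (by decide +kernel))
 (ndB (a := (nat_lit 80)) (y := (nat_lit 240)) (z := (nat_lit 240)) (N := (nat_lit 35))
 .nil
 .nil (p009 h).2.1.1.1.1.1.1 (by decide +kernel)) (p009 h).1.2.2.2.2.2.2.2 (by decide +kernel)) (p009 h).1.2.2.2.2.2.1 (by decide +kernel)) (p009 h).1.2.2.2.1.1.2 (by decide +kernel))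
 (ndB (a := (nat_lit 160)) (y := (nat_lit 320)) (z := (nat_lit 320)) (N := (nat_lit 35))
 (ndB (a := (nat_lit 160)) (y := (nat_lit 160)) (z := (nat_lit 400)) (N := (nat_lit 35))
 (ndB (a := (nat_lit 160)) (y := (nat_lit 160)) (z := (nat_lit 240)) (N := (nat_lit 35))
 (ndB (a := (nat_lit 160)) (y := (nat_lit 160)) (z := (nat_lit 160)) (N := (nat_lit 35))
 (ndB (a := (nat_lit 80)) (y := (nat_lit 240)) (z := (nat_lit 400)) (N := (nat_lit 35))
 .nil
 .nil (p009 h).2.1.1.1.1.2.1 (by decide +kernel))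
 .nil (p009 h).2.1.1.1.1.2.2 (by decide +kernel))
 (ndB (a := (nat_lit 160)) (y := (nat_lit 160)) (z := (nat_lit 320)) (N := (nat_lit 35))
 .nil
 .nil (p009 h).2.1.1.1.2.1.2 (by decide +kernel)) (p009 h).2.1.1.1.2.1.1 (by decide +kernel))
 (ndB (a := (nat_lit 160)) (y := (nat_lit 240)) (z := (nat_lit 320)) (N := (nat_lit 35))
 (ndB (a := (nat_lit 160)) (y := (nat_lit 240)) (z := (nat_lit 240)) (N := (nat_lit 35))
 .nil
 .nil (p009 h).2.1.1.1.2.2.2.1 (by decide +kernel))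
 (ndB (a := (nat_lit 160)) (y := (nat_lit 240)) (z := (nat_lit 400)) (N := (nat_lit 35))
 .nil
 .nil (p009 h).2.1.1.2.1.1.1 (by decide +kernel)) (p009 h).2.1.1.1.2.2.2.2 (by decide +kernel)) (p009 h).2.1.1.1.2.2.1 (by decide +kernel))
 (ndB (a := (nat_lit 240)) (y := (nat_lit 240)) (z := (nat_lit 400)) (N := (nat_lit 35))
 (ndB (a := (nat_lit 240)) (y := (nat_lit 240)) (z := (nat_lit 240)) (N := (nat_lit 35))
 (ndB (a := (nat_lit 160)) (y := (nat_lit 400)) (z := (nat_lit 400)) (N := (nat_lit 35))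
 (ndB (a := (nat_lit 160)) (y := (nat_lit 320)) (z := (nat_lit 400)) (N := (nat_lit 35))
 .nil
 .nil (p009 h).2.1.1.2.1.2.1 (by decide +kernel))
 .nil (p009 h).2.1.1.2.1.2.2 (by decide +kernel))
 (ndB (a := (nat_lit 240)) (y := (nat_lit 240)) (z := (nat_lit 320)) (N := (nat_lit 35))
 .nil
 .nil (p009 h).2.1.1.2.2.1.2 (by decide +kernel)) (p009 h).2.1.1.2.2.1.1 (by decide +kernel))
 (ndB (a := (nat_lit 240)) (y := (nat_lit 320)) (z := (nat_lit 400)) (N := (nat_lit 35))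
 (ndB (a := (nat_lit 240)) (y := (nat_lit 320)) (z := (nat_lit 320)) (N := (nat_lit 35))
 .nil
 .nil (p009 h).2.1.1.2.2.2.2.1 (by decide +kernel))
 (ndB (a := (nat_lit 240)) (y := (nat_lit 400)) (z := (nat_lit 400)) (N := (nat_lit 35))
 .nil
 .nil (p009 h).2.1.2.1.1.1.1 (by decide +kernel)) (p009 h).2.1.1.2.2.2.2.2 (by decide +kernel)) (p009 h).2.1.1.2.2.2.1 (by decide +kernel)) (p009 h).2.1.1.2.1.1.2 (by decide +kernel)) (p009 h).2.1.1.1.1.1.2 (by decide +kernel))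
theorem F26_ok (h : RcOK RE.rowE) : F26.OK := .of (by decide +kernel) (T26_ok h)
end TC
end Pool.Agent.Lib.MP_6947cd_al
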