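import Pool.Agent.Lib.MP_6947cd_al.TC.F
import Pool.Agent.Lib.MP_6947cd_al.TC.P009
import Pool.Agent.Lib.MP_6947cd_al.TC.P010
import Pool.Agent.Lib.MP_6947cd_al.TC.P011
import Pool.Agent.Lib.MP_6947cd_al.TC.P012
import Pool.Agent.Lib.MP_6947cd_al.TC.P013

/-!
Problem MP_6947cd_al (Chollet).  CASE C, tables and certificates.  The families of tables are correct.
-/

set_option autoImplicit false
set_option linter.all false
set_option maxRecDepth 100000
set_option maxHeartbeats 4000000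
namespace Pool.Agent.Lib.MP_6947cd_al
namespace TC
open PkA PkA.TF
theorem T27_ok (h : RcOK RE.rowE) : TOK rd27 ks27 T27 := (ndB (a := (nat_lit 80)) (y := (nat_lit 240)) (z := (nat_lit 320)) (N := (nat_lit 512))
 (ndB (a := (nat_lit 0)) (y := (nat_lit 240)) (z := (nat_lit 320)) (N := (nat_lit 512))
 (ndB (a := (nat_lit 0)) (y := (nat_lit 160)) (z := (nat_lit 160)) (N := (nat_lit 512))
 (ndB (a := (nat_lit 0)) (y := (nat_lit 80)) (z := (nat_lit 160)) (N := (nat_lit 512))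
 (ndB (a := (nat_lit 0)) (y := (nat_lit 0)) (z := (nat_lit 240)) (N := (nat_lit 512))
 (ndB (a := (nat_lit 0)) (y := (nat_lit 0)) (z := (nat_lit 160)) (N := (nat_lit 512))
 .nil
 .nil (p009 h).2.1.2.1.1.1.2 (by decide +kernel))
 .nil (p009 h).2.1.2.1.1.2.1 (by decide +kernel))
 (ndB (a := (nat_lit 0)) (y := (nat_lit 80)) (z := (nat_lit 240)) (N := (nat_lit 512))
 .nil
 .nil (p009 h).2.1.2.1.2.1.1 (by decide +kernel)) (p009 h).2.1.2.1.1.2.2 (by decide +kernel))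
 (ndB (a := (nat_lit 0)) (y := (nat_lit 160)) (z := (nat_lit 400)) (N := (nat_lit 512))
 (ndB (a := (nat_lit 0)) (y := (nat_lit 160)) (z := (nat_lit 320)) (N := (nat_lit 512))
 (ndB (a := (nat_lit 0)) (y := (nat_lit 160)) (z := (nat_lit 240)) (N := (nat_lit 512))
 .nil
 .nil (p009 h).2.1.2.1.2.2.1 (by decide +kernel))
 .nil (p009 h).2.1.2.1.2.2.2.1 (by decide +kernel))
 (ndB (a := (nat_lit 0)) (y := (nat_lit 240)) (z := (nat_lit 240)) (N := (nat_lit 512))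
 .nil
 .nil (p009 h).2.1.2.2.1.1.1 (by decide +kernel)) (p009 h).2.1.2.1.2.2.2.2 (by decide +kernel)) (p009 h).2.1.2.1.2.1.2 (by decide +kernel))
 (ndB (a := (nat_lit 80)) (y := (nat_lit 160)) (z := (nat_lit 240)) (N := (nat_lit 512))
 (ndB (a := (nat_lit 80)) (y := (nat_lit 80)) (z := (nat_lit 240)) (N := (nat_lit 512))
 (ndB (a := (nat_lit 80)) (y := (nat_lit 80)) (z := (nat_lit 160)) (N := (nat_lit 512))
 (ndB (a := (nat_lit 0)) (y := (nat_lit 240)) (z := (nat_lit 400)) (N := (nat_lit 512))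
 .nil
 .nil (p009 h).2.1.2.2.1.2.1 (by decide +kernel))
 .nil (p009 h).2.1.2.2.1.2.2 (by decide +kernel))
 (ndB (a := (nat_lit 80)) (y := (nat_lit 160)) (z := (nat_lit 160)) (N := (nat_lit 512))
 .nil
 .nil (p009 h).2.1.2.2.2.1.2 (by decide +kernel)) (p009 h).2.1.2.2.2.1.1 (by decide +kernel))
 (ndB (a := (nat_lit 80)) (y := (nat_lit 160)) (z := (nat_lit 400)) (N := (nat_lit 512))
 (ndB (a := (nat_lit 80)) (y := (nat_lit 160)) (z := (nat_lit 320)) (N := (nat_lit 512))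
 .nil
 .nil (p009 h).2.1.2.2.2.2.2.1 (by decide +kernel))
 (ndB (a := (nat_lit 80)) (y := (nat_lit 240)) (z := (nat_lit 240)) (N := (nat_lit 512))
 .nil
 .nil (p009 h).2.2.1.1.1.1.1 (by decide +kernel)) (p009 h).2.1.2.2.2.2.2.2 (by decide +kernel)) (p009 h).2.1.2.2.2.2.1 (by decide +kernel)) (p009 h).2.1.2.2.1.1.2 (by decide +kernel))
 (ndB (a := (nat_lit 160)) (y := (nat_lit 320)) (z := (nat_lit 320)) (N := (nat_lit 512))
 (ndB (a := (nat_lit 160)) (y := (nat_lit 160)) (z := (nat_lit 400)) (N := (nat_lit 512))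
 (ndB (a := (nat_lit 160)) (y := (nat_lit 160)) (z := (nat_lit 240)) (N := (nat_lit 512))
 (ndB (a := (nat_lit 160)) (y := (nat_lit 160)) (z := (nat_lit 160)) (N := (nat_lit 512))
 (ndB (a := (nat_lit 80)) (y := (nat_lit 240)) (z := (nat_lit 400)) (N := (nat_lit 512))
 .nil
 .nil (p009 h).2.2.1.1.1.2.1 (by decide +kernel))
 .nil (p009 h).2.2.1.1.1.2.2 (by decide +kernel))
 (ndB (a := (nat_lit 160)) (y := (nat_lit 160)) (z := (nat_lit 320)) (N := (nat_lit 512))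
 .nil
 .nil (p009 h).2.2.1.1.2.1.2 (by decide +kernel)) (p009 h).2.2.1.1.2.1.1 (by decide +kernel))
 (ndB (a := (nat_lit 160)) (y := (nat_lit 240)) (z := (nat_lit 320)) (N := (nat_lit 512))
 (ndB (a := (nat_lit 160)) (y := (nat_lit 240)) (z := (nat_lit 240)) (N := (nat_lit 512))
 .nil
 .nil (p009 h).2.2.1.1.2.2.2.1 (by decide +kernel))
 (ndB (a := (nat_lit 160)) (y := (nat_lit 240)) (z := (nat_lit 400)) (N := (nat_lit 512))
 .nil
 .nil (p009 h).2.2.1.2.1.1.1 (by decide +kernel)) (p009 h).2.2.1.1.2.2.2.2 (by decide +kernel)) (p009 h).2.2.1.1.2.2.1 (by decide +kernel))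
 (ndB (a := (nat_lit 240)) (y := (nat_lit 240)) (z := (nat_lit 400)) (N := (nat_lit 512))
 (ndB (a := (nat_lit 240)) (y := (nat_lit 240)) (z := (nat_lit 240)) (N := (nat_lit 512))
 (ndB (a := (nat_lit 160)) (y := (nat_lit 400)) (z := (nat_lit 400)) (N := (nat_lit 512))
 (ndB (a := (nat_lit 160)) (y := (nat_lit 320)) (z := (nat_lit 400)) (N := (nat_lit 512))
 .nil
 .nil (p009 h).2.2.1.2.1.2.1 (by decide +kernel))
 .nil (p009 h).2.2.1.2.1.2.2 (by decide +kernel))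
 (ndB (a := (nat_lit 240)) (y := (nat_lit 240)) (z := (nat_lit 320)) (N := (nat_lit 512))
 .nil
 .nil (p009 h).2.2.1.2.2.1.2 (by decide +kernel)) (p009 h).2.2.1.2.2.1.1 (by decide +kernel))
 (ndB (a := (nat_lit 240)) (y := (nat_lit 320)) (z := (nat_lit 400)) (N := (nat_lit 512))
 (ndB (a := (nat_lit 240)) (y := (nat_lit 320)) (z := (nat_lit 320)) (N := (nat_lit 512))
 .nil
 .nil (p009 h).2.2.1.2.2.2.2.1 (by decide +kernel))
 (ndB (a := (nat_lit 240)) (y := (nat_lit 400)) (z := (nat_lit 400)) (N := (nat_lit 512))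
 .nil
 .nil (p009 h).2.2.2.1.1.1.1 (by decide +kernel)) (p009 h).2.2.1.2.2.2.2.2 (by decide +kernel)) (p009 h).2.2.1.2.2.2.1 (by decide +kernel)) (p009 h).2.2.1.2.1.1.2 (by decide +kernel)) (p009 h).2.2.1.1.1.1.2 (by decide +kernel))
theorem F27_ok (h : RcOK RE.rowE) : F27.OK := .of (by decide +kernel) (T27_ok h)
theorem T28_ok (h : RcOK RE.rowE) : TOK rd28 ks28 T28 := (ndB (a := (nat_lit 80)) (y := (nat_lit 240)) (z := (nat_lit 320)) (N := (nat_lit 1496))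
 (ndB (a := (nat_lit 0)) (y := (nat_lit 240)) (z := (nat_lit 320)) (N := (nat_lit 1496))
 (ndB (a := (nat_lit 0)) (y := (nat_lit 160)) (z := (nat_lit 160)) (N := (nat_lit 1496))
 (ndB (a := (nat_lit 0)) (y := (nat_lit 80)) (z := (nat_lit 160)) (N := (nat_lit 1496))
 (ndB (a := (nat_lit 0)) (y := (nat_lit 0)) (z := (nat_lit 240)) (N := (nat_lit 1496))
 (ndB (a := (nat_lit 0)) (y := (nat_lit 0)) (z := (nat_lit 160)) (N := (nat_lit 1496))
 .nil
 .nil (p009 h).2.2.2.1.1.1.2 (by decide +kernel))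
 .nil (p009 h).2.2.2.1.1.2.1 (by decide +kernel))
 (ndB (a := (nat_lit 0)) (y := (nat_lit 80)) (z := (nat_lit 240)) (N := (nat_lit 1496))
 .nil
 .nil (p009 h).2.2.2.1.2.1.1 (by decide +kernel)) (p009 h).2.2.2.1.1.2.2 (by decide +kernel))
 (ndB (a := (nat_lit 0)) (y := (nat_lit 160)) (z := (nat_lit 400)) (N := (nat_lit 1496))
 (ndB (a := (nat_lit 0)) (y := (nat_lit 160)) (z := (nat_lit 320)) (N := (nat_lit 1496))
 (ndB (a := (nat_lit 0)) (y := (nat_lit 160)) (z := (nat_lit 240)) (N := (nat_lit 1496))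
 .nil
 .nil (p009 h).2.2.2.1.2.2.1 (by decide +kernel))
 .nil (p009 h).2.2.2.1.2.2.2.1 (by decide +kernel))
 (ndB (a := (nat_lit 0)) (y := (nat_lit 240)) (z := (nat_lit 240)) (N := (nat_lit 1496))
 .nil
 .nil (p009 h).2.2.2.2.1.1.1 (by decide +kernel)) (p009 h).2.2.2.1.2.2.2.2 (by decide +kernel)) (p009 h).2.2.2.1.2.1.2 (by decide +kernel))
 (ndB (a := (nat_lit 80)) (y := (nat_lit 160)) (z := (nat_lit 240)) (N := (nat_lit 1496))
 (ndB (a := (nat_lit 80)) (y := (nat_lit 80)) (z := (nat_lit 240)) (N := (nat_lit 1496))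
 (ndB (a := (nat_lit 80)) (y := (nat_lit 80)) (z := (nat_lit 160)) (N := (nat_lit 1496))
 (ndB (a := (nat_lit 0)) (y := (nat_lit 240)) (z := (nat_lit 400)) (N := (nat_lit 1496))
 .nil
 .nil (p009 h).2.2.2.2.1.2.1 (by decide +kernel))
 .nil (p009 h).2.2.2.2.1.2.2.1 (by decide +kernel))
 (ndB (a := (nat_lit 80)) (y := (nat_lit 160)) (z := (nat_lit 160)) (N := (nat_lit 1496))
 .nil
 .nil (p009 h).2.2.2.2.2.1.1 (by decide +kernel)) (p009 h).2.2.2.2.1.2.2.2 (by decide +kernel))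
 (ndB (a := (nat_lit 80)) (y := (nat_lit 160)) (z := (nat_lit 400)) (N := (nat_lit 1496))
 (ndB (a := (nat_lit 80)) (y := (nat_lit 160)) (z := (nat_lit 320)) (N := (nat_lit 1496))
 .nil
 .nil (p009 h).2.2.2.2.2.2.1 (by decide +kernel))
 (ndB (a := (nat_lit 80)) (y := (nat_lit 240)) (z := (nat_lit 240)) (N := (nat_lit 1496))
 .nil
 .nil (p009 h).2.2.2.2.2.2.2.2 (by decide +kernel)) (p009 h).2.2.2.2.2.2.2.1 (by decide +kernel)) (p009 h).2.2.2.2.2.1.2 (by decide +kernel)) (p009 h).2.2.2.2.1.1.2 (by decide +kernel))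
 (ndB (a := (nat_lit 160)) (y := (nat_lit 320)) (z := (nat_lit 320)) (N := (nat_lit 1496))
 (ndB (a := (nat_lit 160)) (y := (nat_lit 160)) (z := (nat_lit 400)) (N := (nat_lit 1496))
 (ndB (a := (nat_lit 160)) (y := (nat_lit 160)) (z := (nat_lit 240)) (N := (nat_lit 1496))
 (ndB (a := (nat_lit 160)) (y := (nat_lit 160)) (z := (nat_lit 160)) (N := (nat_lit 1496))
 (ndB (a := (nat_lit 80)) (y := (nat_lit 240)) (z := (nat_lit 400)) (N := (nat_lit 1496))
 .nil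
 .nil (p010 h).1.1.1.1.2.1 (by decide +kernel))
 .nil (p010 h).1.1.1.1.2.2 (by decide +kernel))
 (ndB (a := (nat_lit 160)) (y := (nat_lit 160)) (z := (nat_lit 320)) (N := (nat_lit 1496))
 .nil
 .nil (p010 h).1.1.1.2.2.1 (by decide +kernel)) (p010 h).1.1.1.2.1 (by decide +kernel))
 (ndB (a := (nat_lit 160)) (y := (nat_lit 240)) (z := (nat_lit 320)) (N := (nat_lit 1496))
 (ndB (a := (nat_lit 160)) (y := (nat_lit 240)) (z := (nat_lit 240)) (N := (nat_lit 1496))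
 .nil
 .nil (p010 h).1.1.2.1.1 (by decide +kernel))
 (ndB (a := (nat_lit 160)) (y := (nat_lit 240)) (z := (nat_lit 400)) (N := (nat_lit 1496))
 .nil
 .nil (p010 h).1.1.2.1.2.2 (by decide +kernel)) (p010 h).1.1.2.1.2.1 (by decide +kernel)) (p010 h).1.1.1.2.2.2 (by decide +kernel))
 (ndB (a := (nat_lit 240)) (y := (nat_lit 240)) (z := (nat_lit 400)) (N := (nat_lit 1496))
 (ndB (a := (nat_lit 240)) (y := (nat_lit 240)) (z := (nat_lit 240)) (N := (nat_lit 1496))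
 (ndB (a := (nat_lit 160)) (y := (nat_lit 400)) (z := (nat_lit 400)) (N := (nat_lit 1496))
 (ndB (a := (nat_lit 160)) (y := (nat_lit 320)) (z := (nat_lit 400)) (N := (nat_lit 1496))
 .nil
 .nil (p010 h).1.1.2.2.1.2 (by decide +kernel))
 .nil (p010 h).1.1.2.2.2.1 (by decide +kernel))
 (ndB (a := (nat_lit 240)) (y := (nat_lit 240)) (z := (nat_lit 320)) (N := (nat_lit 1496))
 .nil
 .nil (p010 h).1.2.1.1.1 (by decide +kernel)) (p010 h).1.1.2.2.2.2 (by decide +kernel))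
 (ndB (a := (nat_lit 240)) (y := (nat_lit 320)) (z := (nat_lit 400)) (N := (nat_lit 1496))
 (ndB (a := (nat_lit 240)) (y := (nat_lit 320)) (z := (nat_lit 320)) (N := (nat_lit 1496))
 .nil
 .nil (p010 h).1.2.1.1.2.2 (by decide +kernel))
 (ndB (a := (nat_lit 240)) (y := (nat_lit 400)) (z := (nat_lit 400)) (N := (nat_lit 1496))
 .nil
 .nil (p010 h).1.2.1.2.2.1 (by decide +kernel)) (p010 h).1.2.1.2.1 (by decide +kernel)) (p010 h).1.2.1.1.2.1 (by decide +kernel)) (p010 h).1.1.2.2.1.1 (by decide +kernel)) (p010 h).1.1.1.1.1 (by decide +kernel))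
theorem F28_ok (h : RcOK RE.rowE) : F28.OK := .of (by decide +kernel) (T28_ok h)
theorem T29_ok (h : RcOK RE.rowE) : TOK rd29 ks29 T29 := (ndB (a := (nat_lit 80)) (y := (nat_lit 240)) (z := (nat_lit 320)) (N := (nat_lit 1330))
 (ndB (a := (nat_lit 0)) (y := (nat_lit 240)) (z := (nat_lit 320)) (N := (nat_lit 1330))
 (ndB (a := (nat_lit 0)) (y := (nat_lit 160)) (z := (nat_lit 160)) (N := (nat_lit 1330))
 (ndB (a := (nat_lit 0)) (y := (nat_lit 80)) (z := (nat_lit 160)) (N := (nat_lit 1330))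
 (ndB (a := (nat_lit 0)) (y := (nat_lit 0)) (z := (nat_lit 240)) (N := (nat_lit 1330))
 (ndB (a := (nat_lit 0)) (y := (nat_lit 0)) (z := (nat_lit 160)) (N := (nat_lit 1330))
 .nil
 .nil (p010 h).1.2.1.2.2.2 (by decide +kernel))
 .nil (p010 h).1.2.2.1.1 (by decide +kernel))
 (ndB (a := (nat_lit 0)) (y := (nat_lit 80)) (z := (nat_lit 240)) (N := (nat_lit 1330))
 .nil
 .nil (p010 h).1.2.2.1.2.2 (by decide +kernel)) (p010 h).1.2.2.1.2.1 (by decide +kernel))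
 (ndB (a := (nat_lit 0)) (y := (nat_lit 160)) (z := (nat_lit 400)) (N := (nat_lit 1330))
 (ndB (a := (nat_lit 0)) (y := (nat_lit 160)) (z := (nat_lit 320)) (N := (nat_lit 1330))
 (ndB (a := (nat_lit 0)) (y := (nat_lit 160)) (z := (nat_lit 240)) (N := (nat_lit 1330))
 .nil
 .nil (p010 h).1.2.2.2.1.2 (by decide +kernel))
 .nil (p010 h).1.2.2.2.2.1 (by decide +kernel))
 (ndB (a := (nat_lit 0)) (y := (nat_lit 240)) (z := (nat_lit 240)) (N := (nat_lit 1330))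
 .nil
 .nil (p010 h).2.1.1.1.1 (by decide +kernel)) (p010 h).1.2.2.2.2.2 (by decide +kernel)) (p010 h).1.2.2.2.1.1 (by decide +kernel))
 (ndB (a := (nat_lit 80)) (y := (nat_lit 160)) (z := (nat_lit 240)) (N := (nat_lit 1330))
 (ndB (a := (nat_lit 80)) (y := (nat_lit 80)) (z := (nat_lit 240)) (N := (nat_lit 1330))
 (ndB (a := (nat_lit 80)) (y := (nat_lit 80)) (z := (nat_lit 160)) (N := (nat_lit 1330))
 (ndB (a := (nat_lit 0)) (y := (nat_lit 240)) (z := (nat_lit 400)) (N := (nat_lit 1330))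
 .nil
 .nil (p010 h).2.1.1.1.2.2 (by decide +kernel))
 .nil (p010 h).2.1.1.2.1 (by decide +kernel))
 (ndB (a := (nat_lit 80)) (y := (nat_lit 160)) (z := (nat_lit 160)) (N := (nat_lit 1330))
 .nil
 .nil (p010 h).2.1.1.2.2.2 (by decide +kernel)) (p010 h).2.1.1.2.2.1 (by decide +kernel))
 (ndB (a := (nat_lit 80)) (y := (nat_lit 160)) (z := (nat_lit 400)) (N := (nat_lit 1330))
 (ndB (a := (nat_lit 80)) (y := (nat_lit 160)) (z := (nat_lit 320)) (N := (nat_lit 1330))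
 .nil
 .nil (p010 h).2.1.2.1.2.1 (by decide +kernel))
 (ndB (a := (nat_lit 80)) (y := (nat_lit 240)) (z := (nat_lit 240)) (N := (nat_lit 1330))
 .nil
 .nil (p010 h).2.1.2.2.1.1 (by decide +kernel)) (p010 h).2.1.2.1.2.2 (by decide +kernel)) (p010 h).2.1.2.1.1 (by decide +kernel)) (p010 h).2.1.1.1.2.1 (by decide +kernel))
 (ndB (a := (nat_lit 160)) (y := (nat_lit 320)) (z := (nat_lit 320)) (N := (nat_lit 1330))
 (ndB (a := (nat_lit 160)) (y := (nat_lit 160)) (z := (nat_lit 400)) (N := (nat_lit 1330))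
 (ndB (a := (nat_lit 160)) (y := (nat_lit 160)) (z := (nat_lit 240)) (N := (nat_lit 1330))
 (ndB (a := (nat_lit 160)) (y := (nat_lit 160)) (z := (nat_lit 160)) (N := (nat_lit 1330))
 (ndB (a := (nat_lit 80)) (y := (nat_lit 240)) (z := (nat_lit 400)) (N := (nat_lit 1330))
 .nil
 .nil (p010 h).2.1.2.2.2.1 (by decide +kernel))
 .nil (p010 h).2.1.2.2.2.2 (by decide +kernel))
 (ndB (a := (nat_lit 160)) (y := (nat_lit 160)) (z := (nat_lit 320)) (N := (nat_lit 1330))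
 .nil
 .nil (p010 h).2.2.1.1.2.1 (by decide +kernel)) (p010 h).2.2.1.1.1 (by decide +kernel))
 (ndB (a := (nat_lit 160)) (y := (nat_lit 240)) (z := (nat_lit 320)) (N := (nat_lit 1330))
 (ndB (a := (nat_lit 160)) (y := (nat_lit 240)) (z := (nat_lit 240)) (N := (nat_lit 1330))
 .nil
 .nil (p010 h).2.2.1.2.1 (by decide +kernel))
 (ndB (a := (nat_lit 160)) (y := (nat_lit 240)) (z := (nat_lit 400)) (N := (nat_lit 1330))
 .nil
 .nil (p010 h).2.2.1.2.2.2 (by decide +kernel)) (p010 h).2.2.1.2.2.1 (by decide +kernel)) (p010 h).2.2.1.1.2.2 (by decide +kernel))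
 (ndB (a := (nat_lit 240)) (y := (nat_lit 240)) (z := (nat_lit 400)) (N := (nat_lit 1330))
 (ndB (a := (nat_lit 240)) (y := (nat_lit 240)) (z := (nat_lit 240)) (N := (nat_lit 1330))
 (ndB (a := (nat_lit 160)) (y := (nat_lit 400)) (z := (nat_lit 400)) (N := (nat_lit 1330))
 (ndB (a := (nat_lit 160)) (y := (nat_lit 320)) (z := (nat_lit 400)) (N := (nat_lit 1330))
 .nil
 .nil (p010 h).2.2.2.1.2.1 (by decide +kernel))
 .nil (p010 h).2.2.2.1.2.2 (by decide +kernel))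
 (ndB (a := (nat_lit 240)) (y := (nat_lit 240)) (z := (nat_lit 320)) (N := (nat_lit 1330))
 .nil
 .nil (p010 h).2.2.2.2.1.2 (by decide +kernel)) (p010 h).2.2.2.2.1.1 (by decide +kernel))
 (ndB (a := (nat_lit 240)) (y := (nat_lit 320)) (z := (nat_lit 400)) (N := (nat_lit 1330))
 (ndB (a := (nat_lit 240)) (y := (nat_lit 320)) (z := (nat_lit 320)) (N := (nat_lit 1330))
 .nil
 .nil (p010 h).2.2.2.2.2.2 (by decide +kernel))
 (ndB (a := (nat_lit 240)) (y := (nat_lit 400)) (z := (nat_lit 400)) (N := (nat_lit 1330))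
 .nil
 .nil (p011 h).1.1.1.1.1.2.1 (by decide +kernel)) (p011 h).1.1.1.1.1.1 (by decide +kernel)) (p010 h).2.2.2.2.2.1 (by decide +kernel)) (p010 h).2.2.2.1.1 (by decide +kernel)) (p010 h).2.1.2.2.1.2 (by decide +kernel))
theorem F29_ok (h : RcOK RE.rowE) : F29.OK := .of (by decide +kernel) (T29_ok h)
theorem T30_ok (h : RcOK RE.rowE) : TOK rd30 ks30 T30 := (ndB (a := (nat_lit 120)) (y := (nat_lit 160)) (z := (nat_lit 160)) (N := (nat_lit 30))
 (ndB (a := (nat_lit 0)) (y := (nat_lit 240)) (z := (nat_lit 320)) (N := (nat_lit 30))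
 (ndB (a := (nat_lit 0)) (y := (nat_lit 120)) (z := (nat_lit 400)) (N := (nat_lit 30))
 (ndB (a := (nat_lit 0)) (y := (nat_lit 120)) (z := (nat_lit 160)) (N := (nat_lit 30))
 (ndB (a := (nat_lit 0)) (y := (nat_lit 80)) (z := (nat_lit 160)) (N := (nat_lit 30))
 (ndB (a := (nat_lit 0)) (y := (nat_lit 80)) (z := (nat_lit 120)) (N := (nat_lit 30))
 .nil
 .nil (p011 h).1.1.1.1.1.2.2 (by decide +kernel))
 (ndB (a := (nat_lit 0)) (y := (nat_lit 80)) (z := (nat_lit 240)) (N := (nat_lit 30))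
 .nil
 .nil (p011 h).1.1.1.1.2.1.2 (by decide +kernel)) (p011 h).1.1.1.1.2.1.1 (by decide +kernel))
 (ndB (a := (nat_lit 0)) (y := (nat_lit 120)) (z := (nat_lit 320)) (N := (nat_lit 30))
 (ndB (a := (nat_lit 0)) (y := (nat_lit 120)) (z := (nat_lit 240)) (N := (nat_lit 30))
 .nil
 .nil (p011 h).1.1.1.1.2.2.2 (by decide +kernel))
 .nil (p011 h).1.1.1.2.1.1.1 (by decide +kernel)) (p011 h).1.1.1.1.2.2.1 (by decide +kernel))
 (ndB (a := (nat_lit 0)) (y := (nat_lit 160)) (z := (nat_lit 320)) (N := (nat_lit 30))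
 (ndB (a := (nat_lit 0)) (y := (nat_lit 160)) (z := (nat_lit 240)) (N := (nat_lit 30))
 (ndB (a := (nat_lit 0)) (y := (nat_lit 160)) (z := (nat_lit 160)) (N := (nat_lit 30))
 .nil
 .nil (p011 h).1.1.1.2.1.2.1 (by decide +kernel))
 .nil (p011 h).1.1.1.2.1.2.2 (by decide +kernel))
 (ndB (a := (nat_lit 0)) (y := (nat_lit 240)) (z := (nat_lit 240)) (N := (nat_lit 30))
 (ndB (a := (nat_lit 0)) (y := (nat_lit 160)) (z := (nat_lit 400)) (N := (nat_lit 30))
 .nil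
 .nil (p011 h).1.1.1.2.2.1.2 (by decide +kernel))
 .nil (p011 h).1.1.1.2.2.2.1 (by decide +kernel)) (p011 h).1.1.1.2.2.1.1 (by decide +kernel)) (p011 h).1.1.1.2.1.1.2 (by decide +kernel))
 (ndB (a := (nat_lit 80)) (y := (nat_lit 160)) (z := (nat_lit 240)) (N := (nat_lit 30))
 (ndB (a := (nat_lit 80)) (y := (nat_lit 120)) (z := (nat_lit 320)) (N := (nat_lit 30))
 (ndB (a := (nat_lit 80)) (y := (nat_lit 120)) (z := (nat_lit 160)) (N := (nat_lit 30))
 (ndB (a := (nat_lit 0)) (y := (nat_lit 240)) (z := (nat_lit 400)) (N := (nat_lit 30))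
 .nil
 .nil (p011 h).1.1.2.1.1.1.1 (by decide +kernel))
 (ndB (a := (nat_lit 80)) (y := (nat_lit 120)) (z := (nat_lit 240)) (N := (nat_lit 30))
 .nil
 .nil (p011 h).1.1.2.1.1.2.1 (by decide +kernel)) (p011 h).1.1.2.1.1.1.2 (by decide +kernel))
 (ndB (a := (nat_lit 80)) (y := (nat_lit 160)) (z := (nat_lit 160)) (N := (nat_lit 30))
 (ndB (a := (nat_lit 80)) (y := (nat_lit 120)) (z := (nat_lit 400)) (N := (nat_lit 30))
 .nil
 .nil (p011 h).1.1.2.1.2.1.1 (by decide +kernel))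
 .nil (p011 h).1.1.2.1.2.1.2 (by decide +kernel)) (p011 h).1.1.2.1.1.2.2 (by decide +kernel))
 (ndB (a := (nat_lit 80)) (y := (nat_lit 240)) (z := (nat_lit 240)) (N := (nat_lit 30))
 (ndB (a := (nat_lit 80)) (y := (nat_lit 160)) (z := (nat_lit 400)) (N := (nat_lit 30))
 (ndB (a := (nat_lit 80)) (y := (nat_lit 160)) (z := (nat_lit 320)) (N := (nat_lit 30))
 .nil
 .nil (p011 h).1.1.2.1.2.2.2 (by decide +kernel))
 .nil (p011 h).1.1.2.2.1.1.1 (by decide +kernel))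
 (ndB (a := (nat_lit 80)) (y := (nat_lit 240)) (z := (nat_lit 400)) (N := (nat_lit 30))
 (ndB (a := (nat_lit 80)) (y := (nat_lit 240)) (z := (nat_lit 320)) (N := (nat_lit 30))
 .nil
 .nil (p011 h).1.1.2.2.1.2.1 (by decide +kernel))
 .nil (p011 h).1.1.2.2.1.2.2 (by decide +kernel)) (p011 h).1.1.2.2.1.1.2 (by decide +kernel)) (p011 h).1.1.2.1.2.2.1 (by decide +kernel)) (p011 h).1.1.1.2.2.2.2 (by decide +kernel))
 (ndB (a := (nat_lit 160)) (y := (nat_lit 160)) (z := (nat_lit 400)) (N := (nat_lit 30))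
 (ndB (a := (nat_lit 120)) (y := (nat_lit 320)) (z := (nat_lit 320)) (N := (nat_lit 30))
 (ndB (a := (nat_lit 120)) (y := (nat_lit 240)) (z := (nat_lit 240)) (N := (nat_lit 30))
 (ndB (a := (nat_lit 120)) (y := (nat_lit 160)) (z := (nat_lit 320)) (N := (nat_lit 30))
 (ndB (a := (nat_lit 120)) (y := (nat_lit 160)) (z := (nat_lit 240)) (N := (nat_lit 30))
 .nil
 .nil (p011 h).1.1.2.2.2.1.2 (by decide +kernel))
 (ndB (a := (nat_lit 120)) (y := (nat_lit 160)) (z := (nat_lit 400)) (N := (nat_lit 30))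
 .nil
 .nil (p011 h).1.1.2.2.2.2.2 (by decide +kernel)) (p011 h).1.1.2.2.2.2.1 (by decide +kernel))
 (ndB (a := (nat_lit 120)) (y := (nat_lit 240)) (z := (nat_lit 400)) (N := (nat_lit 30))
 (ndB (a := (nat_lit 120)) (y := (nat_lit 240)) (z := (nat_lit 320)) (N := (nat_lit 30))
 .nil
 .nil (p011 h).1.2.1.1.1.1.2 (by decide +kernel))
 .nil (p011 h).1.2.1.1.1.2.1 (by decide +kernel)) (p011 h).1.2.1.1.1.1.1 (by decide +kernel))
 (ndB (a := (nat_lit 160)) (y := (nat_lit 160)) (z := (nat_lit 160)) (N := (nat_lit 30))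
 (ndB (a := (nat_lit 120)) (y := (nat_lit 400)) (z := (nat_lit 400)) (N := (nat_lit 30))
 (ndB (a := (nat_lit 120)) (y := (nat_lit 320)) (z := (nat_lit 400)) (N := (nat_lit 30))
 .nil
 .nil (p011 h).1.2.1.1.2.1.1 (by decide +kernel))
 .nil (p011 h).1.2.1.1.2.1.2 (by decide +kernel))
 (ndB (a := (nat_lit 160)) (y := (nat_lit 160)) (z := (nat_lit 320)) (N := (nat_lit 30))
 (ndB (a := (nat_lit 160)) (y := (nat_lit 160)) (z := (nat_lit 240)) (N := (nat_lit 30))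
 .nil
 .nil (p011 h).1.2.1.1.2.2.2 (by decide +kernel))
 .nil (p011 h).1.2.1.2.1.1.1 (by decide +kernel)) (p011 h).1.2.1.1.2.2.1 (by decide +kernel)) (p011 h).1.2.1.1.1.2.2 (by decide +kernel))
 (ndB (a := (nat_lit 240)) (y := (nat_lit 240)) (z := (nat_lit 240)) (N := (nat_lit 30))
 (ndB (a := (nat_lit 160)) (y := (nat_lit 320)) (z := (nat_lit 320)) (N := (nat_lit 30))
 (ndB (a := (nat_lit 160)) (y := (nat_lit 240)) (z := (nat_lit 320)) (N := (nat_lit 30))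
 (ndB (a := (nat_lit 160)) (y := (nat_lit 240)) (z := (nat_lit 240)) (N := (nat_lit 30))
 .nil
 .nil (p011 h).1.2.1.2.1.2.1 (by decide +kernel))
 (ndB (a := (nat_lit 160)) (y := (nat_lit 240)) (z := (nat_lit 400)) (N := (nat_lit 30))
 .nil
 .nil (p011 h).1.2.1.2.2.1.1 (by decide +kernel)) (p011 h).1.2.1.2.1.2.2 (by decide +kernel))
 (ndB (a := (nat_lit 160)) (y := (nat_lit 400)) (z := (nat_lit 400)) (N := (nat_lit 30))
 (ndB (a := (nat_lit 160)) (y := (nat_lit 320)) (z := (nat_lit 400)) (N := (nat_lit 30))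
 .nil
 .nil (p011 h).1.2.1.2.2.2.1 (by decide +kernel))
 .nil (p011 h).1.2.1.2.2.2.2 (by decide +kernel)) (p011 h).1.2.1.2.2.1.2 (by decide +kernel))
 (ndB (a := (nat_lit 240)) (y := (nat_lit 320)) (z := (nat_lit 320)) (N := (nat_lit 30))
 (ndB (a := (nat_lit 240)) (y := (nat_lit 240)) (z := (nat_lit 400)) (N := (nat_lit 30))
 (ndB (a := (nat_lit 240)) (y := (nat_lit 240)) (z := (nat_lit 320)) (N := (nat_lit 30))
 .nil
 .nil (p011 h).1.2.2.1.1.1.2 (by decide +kernel))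
 .nil (p011 h).1.2.2.1.1.2.1 (by decide +kernel))
 (ndB (a := (nat_lit 240)) (y := (nat_lit 400)) (z := (nat_lit 400)) (N := (nat_lit 30))
 (ndB (a := (nat_lit 240)) (y := (nat_lit 320)) (z := (nat_lit 400)) (N := (nat_lit 30))
 .nil
 .nil (p011 h).1.2.2.1.2.1.1 (by decide +kernel))
 .nil (p011 h).1.2.2.1.2.1.2 (by decide +kernel)) (p011 h).1.2.2.1.1.2.2 (by decide +kernel)) (p011 h).1.2.2.1.1.1.1 (by decide +kernel)) (p011 h).1.2.1.2.1.1.2 (by decide +kernel)) (p011 h).1.1.2.2.2.1.1 (by decide +kernel))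
theorem F30_ok (h : RcOK RE.rowE) : F30.OK := .of (by decide +kernel) (T30_ok h)
theorem T31_ok (h : RcOK RE.rowE) : TOK rd31 ks31 T31 := (ndB (a := (nat_lit 80)) (y := (nat_lit 160)) (z := (nat_lit 400)) (N := (nat_lit 912))
 (ndB (a := (nat_lit 0)) (y := (nat_lit 240)) (z := (nat_lit 240)) (N := (nat_lit 912))
 (ndB (a := (nat_lit 0)) (y := (nat_lit 120)) (z := (nat_lit 160)) (N := (nat_lit 912))
 (ndB (a := (nat_lit 0)) (y := (nat_lit 80)) (z := (nat_lit 120)) (N := (nat_lit 912))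
 (ndB (a := (nat_lit 0)) (y := (nat_lit 0)) (z := (nat_lit 240)) (N := (nat_lit 912))
 (ndB (a := (nat_lit 0)) (y := (nat_lit 0)) (z := (nat_lit 160)) (N := (nat_lit 912))
 (ndB (a := (nat_lit 0)) (y := (nat_lit 0)) (z := (nat_lit 120)) (N := (nat_lit 912))
 .nil
 .nil (p011 h).1.2.2.1.2.2.1 (by decide +kernel))
 .nil (p011 h).1.2.2.1.2.2.2 (by decide +kernel))
 (ndB (a := (nat_lit 0)) (y := (nat_lit 0)) (z := (nat_lit 320)) (N := (nat_lit 912))
 .nil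
 .nil (p011 h).1.2.2.2.1.1.2 (by decide +kernel)) (p011 h).1.2.2.2.1.1.1 (by decide +kernel))
 (ndB (a := (nat_lit 0)) (y := (nat_lit 80)) (z := (nat_lit 240)) (N := (nat_lit 912))
 (ndB (a := (nat_lit 0)) (y := (nat_lit 80)) (z := (nat_lit 160)) (N := (nat_lit 912))
 .nil
 .nil (p011 h).1.2.2.2.1.2.2 (by decide +kernel))
 (ndB (a := (nat_lit 0)) (y := (nat_lit 80)) (z := (nat_lit 320)) (N := (nat_lit 912))
 .nil
 .nil (p011 h).1.2.2.2.2.1.2 (by decide +kernel)) (p011 h).1.2.2.2.2.1.1 (by decide +kernel)) (p011 h).1.2.2.2.1.2.1 (by decide +kernel))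
 (ndB (a := (nat_lit 0)) (y := (nat_lit 160)) (z := (nat_lit 160)) (N := (nat_lit 912))
 (ndB (a := (nat_lit 0)) (y := (nat_lit 120)) (z := (nat_lit 320)) (N := (nat_lit 912))
 (ndB (a := (nat_lit 0)) (y := (nat_lit 120)) (z := (nat_lit 240)) (N := (nat_lit 912))
 .nil
 .nil (p011 h).1.2.2.2.2.2.2 (by decide +kernel))
 (ndB (a := (nat_lit 0)) (y := (nat_lit 120)) (z := (nat_lit 400)) (N := (nat_lit 912))
 .nil
 .nil (p011 h).2.1.1.1.1.1.2 (by decide +kernel)) (p011 h).2.1.1.1.1.1.1 (by decide +kernel))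
 (ndB (a := (nat_lit 0)) (y := (nat_lit 160)) (z := (nat_lit 320)) (N := (nat_lit 912))
 (ndB (a := (nat_lit 0)) (y := (nat_lit 160)) (z := (nat_lit 240)) (N := (nat_lit 912))
 .nil
 .nil (p011 h).2.1.1.1.1.2.2 (by decide +kernel))
 (ndB (a := (nat_lit 0)) (y := (nat_lit 160)) (z := (nat_lit 400)) (N := (nat_lit 912))
 .nil
 .nil (p011 h).2.1.1.1.2.1.2 (by decide +kernel)) (p011 h).2.1.1.1.2.1.1 (by decide +kernel)) (p011 h).2.1.1.1.1.2.1 (by decide +kernel)) (p011 h).1.2.2.2.2.2.1 (by decide +kernel))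
 (ndB (a := (nat_lit 80)) (y := (nat_lit 80)) (z := (nat_lit 320)) (N := (nat_lit 912))
 (ndB (a := (nat_lit 0)) (y := (nat_lit 320)) (z := (nat_lit 400)) (N := (nat_lit 912))
 (ndB (a := (nat_lit 0)) (y := (nat_lit 240)) (z := (nat_lit 400)) (N := (nat_lit 912))
 (ndB (a := (nat_lit 0)) (y := (nat_lit 240)) (z := (nat_lit 320)) (N := (nat_lit 912))
 .nil
 .nil (p011 h).2.1.1.1.2.2.2 (by decide +kernel))
 (ndB (a := (nat_lit 0)) (y := (nat_lit 320)) (z := (nat_lit 320)) (N := (nat_lit 912))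
 .nil
 .nil (p011 h).2.1.1.2.1.1.2 (by decide +kernel)) (p011 h).2.1.1.2.1.1.1 (by decide +kernel))
 (ndB (a := (nat_lit 80)) (y := (nat_lit 80)) (z := (nat_lit 160)) (N := (nat_lit 912))
 (ndB (a := (nat_lit 80)) (y := (nat_lit 80)) (z := (nat_lit 120)) (N := (nat_lit 912))
 .nil
 .nil (p011 h).2.1.1.2.1.2.2 (by decide +kernel))
 (ndB (a := (nat_lit 80)) (y := (nat_lit 80)) (z := (nat_lit 240)) (N := (nat_lit 912))
 .nil
 .nil (p011 h).2.1.1.2.2.1.2 (by decide +kernel)) (p011 h).2.1.1.2.2.1.1 (by decide +kernel)) (p011 h).2.1.1.2.1.2.1 (by decide +kernel))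
 (ndB (a := (nat_lit 80)) (y := (nat_lit 120)) (z := (nat_lit 400)) (N := (nat_lit 912))
 (ndB (a := (nat_lit 80)) (y := (nat_lit 120)) (z := (nat_lit 240)) (N := (nat_lit 912))
 (ndB (a := (nat_lit 80)) (y := (nat_lit 120)) (z := (nat_lit 160)) (N := (nat_lit 912))
 .nil
 .nil (p011 h).2.1.1.2.2.2.2 (by decide +kernel))
 (ndB (a := (nat_lit 80)) (y := (nat_lit 120)) (z := (nat_lit 320)) (N := (nat_lit 912))
 .nil
 .nil (p011 h).2.1.2.1.1.1.2 (by decide +kernel)) (p011 h).2.1.2.1.1.1.1 (by decide +kernel))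
 (ndB (a := (nat_lit 80)) (y := (nat_lit 160)) (z := (nat_lit 240)) (N := (nat_lit 912))
 (ndB (a := (nat_lit 80)) (y := (nat_lit 160)) (z := (nat_lit 160)) (N := (nat_lit 912))
 .nil
 .nil (p011 h).2.1.2.1.1.2.2 (by decide +kernel))
 (ndB (a := (nat_lit 80)) (y := (nat_lit 160)) (z := (nat_lit 320)) (N := (nat_lit 912))
 .nil
 .nil (p011 h).2.1.2.1.2.1.2 (by decide +kernel)) (p011 h).2.1.2.1.2.1.1 (by decide +kernel)) (p011 h).2.1.2.1.1.2.1 (by decide +kernel)) (p011 h).2.1.1.2.2.2.1 (by decide +kernel)) (p011 h).2.1.1.1.2.2.1 (by decide +kernel))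
 (ndB (a := (nat_lit 160)) (y := (nat_lit 160)) (z := (nat_lit 160)) (N := (nat_lit 912))
 (ndB (a := (nat_lit 120)) (y := (nat_lit 160)) (z := (nat_lit 320)) (N := (nat_lit 912))
 (ndB (a := (nat_lit 80)) (y := (nat_lit 320)) (z := (nat_lit 320)) (N := (nat_lit 912))
 (ndB (a := (nat_lit 80)) (y := (nat_lit 240)) (z := (nat_lit 320)) (N := (nat_lit 912))
 (ndB (a := (nat_lit 80)) (y := (nat_lit 240)) (z := (nat_lit 240)) (N := (nat_lit 912))
 .nil
 .nil (p011 h).2.1.2.1.2.2.2 (by decide +kernel))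
 (ndB (a := (nat_lit 80)) (y := (nat_lit 240)) (z := (nat_lit 400)) (N := (nat_lit 912))
 .nil
 .nil (p011 h).2.1.2.2.1.1.2 (by decide +kernel)) (p011 h).2.1.2.2.1.1.1 (by decide +kernel))
 (ndB (a := (nat_lit 120)) (y := (nat_lit 160)) (z := (nat_lit 160)) (N := (nat_lit 912))
 (ndB (a := (nat_lit 80)) (y := (nat_lit 320)) (z := (nat_lit 400)) (N := (nat_lit 912))
 .nil
 .nil (p011 h).2.1.2.2.1.2.2 (by decide +kernel))
 (ndB (a := (nat_lit 120)) (y := (nat_lit 160)) (z := (nat_lit 240)) (N := (nat_lit 912))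
 .nil
 .nil (p011 h).2.1.2.2.2.1.2 (by decide +kernel)) (p011 h).2.1.2.2.2.1.1 (by decide +kernel)) (p011 h).2.1.2.2.1.2.1 (by decide +kernel))
 (ndB (a := (nat_lit 120)) (y := (nat_lit 240)) (z := (nat_lit 400)) (N := (nat_lit 912))
 (ndB (a := (nat_lit 120)) (y := (nat_lit 240)) (z := (nat_lit 240)) (N := (nat_lit 912))
 (ndB (a := (nat_lit 120)) (y := (nat_lit 160)) (z := (nat_lit 400)) (N := (nat_lit 912))
 .nil
 .nil (p011 h).2.1.2.2.2.2.2 (by decide +kernel))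
 (ndB (a := (nat_lit 120)) (y := (nat_lit 240)) (z := (nat_lit 320)) (N := (nat_lit 912))
 .nil
 .nil (p011 h).2.2.1.1.1.1.2 (by decide +kernel)) (p011 h).2.2.1.1.1.1.1 (by decide +kernel))
 (ndB (a := (nat_lit 120)) (y := (nat_lit 320)) (z := (nat_lit 400)) (N := (nat_lit 912))
 (ndB (a := (nat_lit 120)) (y := (nat_lit 320)) (z := (nat_lit 320)) (N := (nat_lit 912))
 .nil
 .nil (p011 h).2.2.1.1.1.2.2 (by decide +kernel))
 (ndB (a := (nat_lit 120)) (y := (nat_lit 400)) (z := (nat_lit 400)) (N := (nat_lit 912))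
 .nil
 .nil (p011 h).2.2.1.1.2.1.2 (by decide +kernel)) (p011 h).2.2.1.1.2.1.1 (by decide +kernel)) (p011 h).2.2.1.1.1.2.1 (by decide +kernel)) (p011 h).2.1.2.2.2.2.1 (by decide +kernel))
 (ndB (a := (nat_lit 160)) (y := (nat_lit 320)) (z := (nat_lit 400)) (N := (nat_lit 912))
 (ndB (a := (nat_lit 160)) (y := (nat_lit 240)) (z := (nat_lit 240)) (N := (nat_lit 912))
 (ndB (a := (nat_lit 160)) (y := (nat_lit 160)) (z := (nat_lit 320)) (N := (nat_lit 912))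
 (ndB (a := (nat_lit 160)) (y := (nat_lit 160)) (z := (nat_lit 240)) (N := (nat_lit 912))
 .nil
 .nil (p011 h).2.2.1.1.2.2.2 (by decide +kernel))
 (ndB (a := (nat_lit 160)) (y := (nat_lit 160)) (z := (nat_lit 400)) (N := (nat_lit 912))
 .nil
 .nil (p011 h).2.2.1.2.1.1.2 (by decide +kernel)) (p011 h).2.2.1.2.1.1.1 (by decide +kernel))
 (ndB (a := (nat_lit 160)) (y := (nat_lit 240)) (z := (nat_lit 400)) (N := (nat_lit 912))
 (ndB (a := (nat_lit 160)) (y := (nat_lit 240)) (z := (nat_lit 320)) (N := (nat_lit 912))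
 .nil
 .nil (p011 h).2.2.1.2.1.2.2 (by decide +kernel))
 (ndB (a := (nat_lit 160)) (y := (nat_lit 320)) (z := (nat_lit 320)) (N := (nat_lit 912))
 .nil
 .nil (p011 h).2.2.1.2.2.1.2 (by decide +kernel)) (p011 h).2.2.1.2.2.1.1 (by decide +kernel)) (p011 h).2.2.1.2.1.2.1 (by decide +kernel))
 (ndB (a := (nat_lit 240)) (y := (nat_lit 240)) (z := (nat_lit 400)) (N := (nat_lit 912))
 (ndB (a := (nat_lit 240)) (y := (nat_lit 240)) (z := (nat_lit 240)) (N := (nat_lit 912))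
 (ndB (a := (nat_lit 160)) (y := (nat_lit 400)) (z := (nat_lit 400)) (N := (nat_lit 912))
 .nil
 .nil (p011 h).2.2.1.2.2.2.2 (by decide +kernel))
 (ndB (a := (nat_lit 240)) (y := (nat_lit 240)) (z := (nat_lit 320)) (N := (nat_lit 912))
 .nil
 .nil (p011 h).2.2.2.1.1.1.2 (by decide +kernel)) (p011 h).2.2.2.1.1.1.1 (by decide +kernel))
 (ndB (a := (nat_lit 240)) (y := (nat_lit 320)) (z := (nat_lit 400)) (N := (nat_lit 912))
 (ndB (a := (nat_lit 240)) (y := (nat_lit 320)) (z := (nat_lit 320)) (N := (nat_lit 912))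
 .nil
 .nil (p011 h).2.2.2.1.1.2.2 (by decide +kernel))
 (ndB (a := (nat_lit 240)) (y := (nat_lit 400)) (z := (nat_lit 400)) (N := (nat_lit 912))
 .nil
 .nil (p011 h).2.2.2.1.2.1.2 (by decide +kernel)) (p011 h).2.2.2.1.2.1.1 (by decide +kernel)) (p011 h).2.2.2.1.1.2.1 (by decide +kernel)) (p011 h).2.2.1.2.2.2.1 (by decide +kernel)) (p011 h).2.2.1.1.2.2.1 (by decide +kernel)) (p011 h).2.1.2.1.2.2.1 (by decide +kernel))
theorem F31_ok (h : RcOK RE.rowE) : F31.OK := .of (by decide +kernel) (T31_ok h)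
theorem T32_ok (h : RcOK RE.rowE) : TOK rd32 ks32 T32 := (ndB (a := (nat_lit 80)) (y := (nat_lit 240)) (z := (nat_lit 240)) (N := (nat_lit 1260))
 (ndB (a := (nat_lit 0)) (y := (nat_lit 240)) (z := (nat_lit 240)) (N := (nat_lit 1260))
 (ndB (a := (nat_lit 0)) (y := (nat_lit 120)) (z := (nat_lit 160)) (N := (nat_lit 1260))
 (ndB (a := (nat_lit 0)) (y := (nat_lit 80)) (z := (nat_lit 120)) (N := (nat_lit 1260))
 (ndB (a := (nat_lit 0)) (y := (nat_lit 0)) (z := (nat_lit 240)) (N := (nat_lit 1260))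
 (ndB (a := (nat_lit 0)) (y := (nat_lit 0)) (z := (nat_lit 160)) (N := (nat_lit 1260))
 (ndB (a := (nat_lit 0)) (y := (nat_lit 0)) (z := (nat_lit 120)) (N := (nat_lit 1260))
 .nil
 .nil (p011 h).2.2.2.1.2.2.1 (by decide +kernel))
 .nil (p011 h).2.2.2.1.2.2.2 (by decide +kernel))
 (ndB (a := (nat_lit 0)) (y := (nat_lit 0)) (z := (nat_lit 320)) (N := (nat_lit 1260))
 .nil
 .nil (p011 h).2.2.2.2.1.1.2 (by decide +kernel)) (p011 h).2.2.2.2.1.1.1 (by decide +kernel))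
 (ndB (a := (nat_lit 0)) (y := (nat_lit 80)) (z := (nat_lit 240)) (N := (nat_lit 1260))
 (ndB (a := (nat_lit 0)) (y := (nat_lit 80)) (z := (nat_lit 160)) (N := (nat_lit 1260))
 .nil
 .nil (p011 h).2.2.2.2.1.2.2 (by decide +kernel))
 (ndB (a := (nat_lit 0)) (y := (nat_lit 80)) (z := (nat_lit 320)) (N := (nat_lit 1260))
 .nil
 .nil (p011 h).2.2.2.2.2.1.2 (by decide +kernel)) (p011 h).2.2.2.2.2.1.1 (by decide +kernel)) (p011 h).2.2.2.2.1.2.1 (by decide +kernel))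
 (ndB (a := (nat_lit 0)) (y := (nat_lit 160)) (z := (nat_lit 160)) (N := (nat_lit 1260))
 (ndB (a := (nat_lit 0)) (y := (nat_lit 120)) (z := (nat_lit 320)) (N := (nat_lit 1260))
 (ndB (a := (nat_lit 0)) (y := (nat_lit 120)) (z := (nat_lit 240)) (N := (nat_lit 1260))
 .nil
 .nil (p011 h).2.2.2.2.2.2.2 (by decide +kernel))
 (ndB (a := (nat_lit 0)) (y := (nat_lit 120)) (z := (nat_lit 400)) (N := (nat_lit 1260))
 .nil
 .nil (p012 h).1.1.1.1.2.1 (by decide +kernel)) (p012 h).1.1.1.1.1 (by decide +kernel))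
 (ndB (a := (nat_lit 0)) (y := (nat_lit 160)) (z := (nat_lit 320)) (N := (nat_lit 1260))
 (ndB (a := (nat_lit 0)) (y := (nat_lit 160)) (z := (nat_lit 240)) (N := (nat_lit 1260))
 .nil
 .nil (p012 h).1.1.1.2.1 (by decide +kernel))
 (ndB (a := (nat_lit 0)) (y := (nat_lit 160)) (z := (nat_lit 400)) (N := (nat_lit 1260))
 .nil
 .nil (p012 h).1.1.1.2.2.2 (by decide +kernel)) (p012 h).1.1.1.2.2.1 (by decide +kernel)) (p012 h).1.1.1.1.2.2 (by decide +kernel)) (p011 h).2.2.2.2.2.2.1 (by decide +kernel))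
 (ndB (a := (nat_lit 80)) (y := (nat_lit 120)) (z := (nat_lit 160)) (N := (nat_lit 1260))
 (ndB (a := (nat_lit 80)) (y := (nat_lit 80)) (z := (nat_lit 120)) (N := (nat_lit 1260))
 (ndB (a := (nat_lit 0)) (y := (nat_lit 320)) (z := (nat_lit 320)) (N := (nat_lit 1260))
 (ndB (a := (nat_lit 0)) (y := (nat_lit 240)) (z := (nat_lit 400)) (N := (nat_lit 1260))
 (ndB (a := (nat_lit 0)) (y := (nat_lit 240)) (z := (nat_lit 320)) (N := (nat_lit 1260))
 .nil
 .nil (p012 h).1.1.2.1.2.1 (by decide +kernel))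
 .nil (p012 h).1.1.2.1.2.2 (by decide +kernel))
 (ndB (a := (nat_lit 0)) (y := (nat_lit 320)) (z := (nat_lit 400)) (N := (nat_lit 1260))
 .nil
 .nil (p012 h).1.1.2.2.1.2 (by decide +kernel)) (p012 h).1.1.2.2.1.1 (by decide +kernel))
 (ndB (a := (nat_lit 80)) (y := (nat_lit 80)) (z := (nat_lit 240)) (N := (nat_lit 1260))
 (ndB (a := (nat_lit 80)) (y := (nat_lit 80)) (z := (nat_lit 160)) (N := (nat_lit 1260))
 .nil
 .nil (p012 h).1.1.2.2.2.2 (by decide +kernel))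
 (ndB (a := (nat_lit 80)) (y := (nat_lit 80)) (z := (nat_lit 320)) (N := (nat_lit 1260))
 .nil
 .nil (p012 h).1.2.1.1.2.1 (by decide +kernel)) (p012 h).1.2.1.1.1 (by decide +kernel)) (p012 h).1.1.2.2.2.1 (by decide +kernel))
 (ndB (a := (nat_lit 80)) (y := (nat_lit 160)) (z := (nat_lit 160)) (N := (nat_lit 1260))
 (ndB (a := (nat_lit 80)) (y := (nat_lit 120)) (z := (nat_lit 320)) (N := (nat_lit 1260))
 (ndB (a := (nat_lit 80)) (y := (nat_lit 120)) (z := (nat_lit 240)) (N := (nat_lit 1260))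
 .nil
 .nil (p012 h).1.2.1.2.1 (by decide +kernel))
 (ndB (a := (nat_lit 80)) (y := (nat_lit 120)) (z := (nat_lit 400)) (N := (nat_lit 1260))
 .nil
 .nil (p012 h).1.2.1.2.2.2 (by decide +kernel)) (p012 h).1.2.1.2.2.1 (by decide +kernel))
 (ndB (a := (nat_lit 80)) (y := (nat_lit 160)) (z := (nat_lit 320)) (N := (nat_lit 1260))
 (ndB (a := (nat_lit 80)) (y := (nat_lit 160)) (z := (nat_lit 240)) (N := (nat_lit 1260))
 .nil
 .nil (p012 h).1.2.2.1.2.1 (by decide +kernel))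
 (ndB (a := (nat_lit 80)) (y := (nat_lit 160)) (z := (nat_lit 400)) (N := (nat_lit 1260))
 .nil
 .nil (p012 h).1.2.2.2.1.1 (by decide +kernel)) (p012 h).1.2.2.1.2.2 (by decide +kernel)) (p012 h).1.2.2.1.1 (by decide +kernel)) (p012 h).1.2.1.1.2.2 (by decide +kernel)) (p012 h).1.1.2.1.1 (by decide +kernel))
 (ndB (a := (nat_lit 160)) (y := (nat_lit 160)) (z := (nat_lit 320)) (N := (nat_lit 1260))
 (ndB (a := (nat_lit 120)) (y := (nat_lit 240)) (z := (nat_lit 240)) (N := (nat_lit 1260))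
 (ndB (a := (nat_lit 120)) (y := (nat_lit 160)) (z := (nat_lit 160)) (N := (nat_lit 1260))
 (ndB (a := (nat_lit 80)) (y := (nat_lit 320)) (z := (nat_lit 320)) (N := (nat_lit 1260))
 (ndB (a := (nat_lit 80)) (y := (nat_lit 240)) (z := (nat_lit 400)) (N := (nat_lit 1260))
 (ndB (a := (nat_lit 80)) (y := (nat_lit 240)) (z := (nat_lit 320)) (N := (nat_lit 1260))
 .nil
 .nil (p012 h).1.2.2.2.2.1 (by decide +kernel))
 .nil (p012 h).1.2.2.2.2.2 (by decide +kernel))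
 (ndB (a := (nat_lit 80)) (y := (nat_lit 320)) (z := (nat_lit 400)) (N := (nat_lit 1260))
 .nil
 .nil (p012 h).2.1.1.1.2.1 (by decide +kernel)) (p012 h).2.1.1.1.1 (by decide +kernel))
 (ndB (a := (nat_lit 120)) (y := (nat_lit 160)) (z := (nat_lit 320)) (N := (nat_lit 1260))
 (ndB (a := (nat_lit 120)) (y := (nat_lit 160)) (z := (nat_lit 240)) (N := (nat_lit 1260))
 .nil
 .nil (p012 h).2.1.1.2.1 (by decide +kernel))
 (ndB (a := (nat_lit 120)) (y := (nat_lit 160)) (z := (nat_lit 400)) (N := (nat_lit 1260))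
 .nil
 .nil (p012 h).2.1.1.2.2.2 (by decide +kernel)) (p012 h).2.1.1.2.2.1 (by decide +kernel)) (p012 h).2.1.1.1.2.2 (by decide +kernel))
 (ndB (a := (nat_lit 120)) (y := (nat_lit 320)) (z := (nat_lit 400)) (N := (nat_lit 1260))
 (ndB (a := (nat_lit 120)) (y := (nat_lit 240)) (z := (nat_lit 400)) (N := (nat_lit 1260))
 (ndB (a := (nat_lit 120)) (y := (nat_lit 240)) (z := (nat_lit 320)) (N := (nat_lit 1260))
 .nil
 .nil (p012 h).2.1.2.1.2.1 (by decide +kernel))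
 (ndB (a := (nat_lit 120)) (y := (nat_lit 320)) (z := (nat_lit 320)) (N := (nat_lit 1260))
 .nil
 .nil (p012 h).2.1.2.2.1.1 (by decide +kernel)) (p012 h).2.1.2.1.2.2 (by decide +kernel))
 (ndB (a := (nat_lit 160)) (y := (nat_lit 160)) (z := (nat_lit 160)) (N := (nat_lit 1260))
 (ndB (a := (nat_lit 120)) (y := (nat_lit 400)) (z := (nat_lit 400)) (N := (nat_lit 1260))
 .nil
 .nil (p012 h).2.1.2.2.2.1 (by decide +kernel))
 (ndB (a := (nat_lit 160)) (y := (nat_lit 160)) (z := (nat_lit 240)) (N := (nat_lit 1260))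
 .nil
 .nil (p012 h).2.2.1.1.1 (by decide +kernel)) (p012 h).2.1.2.2.2.2 (by decide +kernel)) (p012 h).2.1.2.2.1.2 (by decide +kernel)) (p012 h).2.1.2.1.1 (by decide +kernel))
 (ndB (a := (nat_lit 240)) (y := (nat_lit 240)) (z := (nat_lit 320)) (N := (nat_lit 1260))
 (ndB (a := (nat_lit 160)) (y := (nat_lit 320)) (z := (nat_lit 320)) (N := (nat_lit 1260))
 (ndB (a := (nat_lit 160)) (y := (nat_lit 240)) (z := (nat_lit 320)) (N := (nat_lit 1260))
 (ndB (a := (nat_lit 160)) (y := (nat_lit 240)) (z := (nat_lit 240)) (N := (nat_lit 1260))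
 (ndB (a := (nat_lit 160)) (y := (nat_lit 160)) (z := (nat_lit 400)) (N := (nat_lit 1260))
 .nil
 .nil (p012 h).2.2.1.1.2.2 (by decide +kernel))
 .nil (p012 h).2.2.1.2.1.1 (by decide +kernel))
 (ndB (a := (nat_lit 160)) (y := (nat_lit 240)) (z := (nat_lit 400)) (N := (nat_lit 1260))
 .nil
 .nil (p012 h).2.2.1.2.2.1 (by decide +kernel)) (p012 h).2.2.1.2.1.2 (by decide +kernel))
 (ndB (a := (nat_lit 160)) (y := (nat_lit 400)) (z := (nat_lit 400)) (N := (nat_lit 1260))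
 (ndB (a := (nat_lit 160)) (y := (nat_lit 320)) (z := (nat_lit 400)) (N := (nat_lit 1260))
 .nil
 .nil (p012 h).2.2.2.1.1 (by decide +kernel))
 (ndB (a := (nat_lit 240)) (y := (nat_lit 240)) (z := (nat_lit 240)) (N := (nat_lit 1260))
 .nil
 .nil (p012 h).2.2.2.1.2.2 (by decide +kernel)) (p012 h).2.2.2.1.2.1 (by decide +kernel)) (p012 h).2.2.1.2.2.2 (by decide +kernel))
 (ndB (a := (nat_lit 240)) (y := (nat_lit 400)) (z := (nat_lit 400)) (N := (nat_lit 1260))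
 (ndB (a := (nat_lit 240)) (y := (nat_lit 320)) (z := (nat_lit 320)) (N := (nat_lit 1260))
 (ndB (a := (nat_lit 240)) (y := (nat_lit 240)) (z := (nat_lit 400)) (N := (nat_lit 1260))
 .nil
 .nil (p012 h).2.2.2.2.1.2 (by decide +kernel))
 (ndB (a := (nat_lit 240)) (y := (nat_lit 320)) (z := (nat_lit 400)) (N := (nat_lit 1260))
 .nil
 .nil (p012 h).2.2.2.2.2.2 (by decide +kernel)) (p012 h).2.2.2.2.2.1 (by decide +kernel))
 (ndB (a := (nat_lit 320)) (y := (nat_lit 320)) (z := (nat_lit 400)) (N := (nat_lit 1260))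
 (ndB (a := (nat_lit 320)) (y := (nat_lit 320)) (z := (nat_lit 320)) (N := (nat_lit 1260))
 .nil
 .nil (p013 h).1.1.1.1.1.1.1.2.1 (by decide +kernel))
 (ndB (a := (nat_lit 320)) (y := (nat_lit 400)) (z := (nat_lit 400)) (N := (nat_lit 1260))
 .nil
 .nil (p013 h).1.1.1.1.1.1.2.1.1 (by decide +kernel)) (p013 h).1.1.1.1.1.1.1.2.2 (by decide +kernel)) (p013 h).1.1.1.1.1.1.1.1 (by decide +kernel)) (p012 h).2.2.2.2.1.1 (by decide +kernel)) (p012 h).2.2.1.1.2.1 (by decide +kernel)) (p012 h).1.2.2.2.1.2 (by decide +kernel))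
theorem F32_ok (h : RcOK RE.rowE) : F32.OK := .of (by decide +kernel) (T32_ok h)
theorem T33_ok (h : RcOK RE.rowE) : TOK rd33 ks33 T33 := (ndB (a := (nat_lit 80)) (y := (nat_lit 400)) (z := (nat_lit 400)) (N := (nat_lit 28))
 (ndB (a := (nat_lit 80)) (y := (nat_lit 240)) (z := (nat_lit 320)) (N := (nat_lit 28))
 (ndB (a := (nat_lit 80)) (y := (nat_lit 160)) (z := (nat_lit 320)) (N := (nat_lit 28))
 (ndB (a := (nat_lit 80)) (y := (nat_lit 80)) (z := (nat_lit 400)) (N := (nat_lit 28))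
 (ndB (a := (nat_lit 80)) (y := (nat_lit 80)) (z := (nat_lit 320)) (N := (nat_lit 28))
 .nil
 .nil (p013 h).1.1.1.1.1.1.2.1.2 (by decide +kernel))
 .nil (p013 h).1.1.1.1.1.1.2.2.1 (by decide +kernel))
 (ndB (a := (nat_lit 80)) (y := (nat_lit 160)) (z := (nat_lit 400)) (N := (nat_lit 28))
 .nil
 .nil (p013 h).1.1.1.1.1.2.1.1.1 (by decide +kernel)) (p013 h).1.1.1.1.1.1.2.2.2 (by decide +kernel))
 (ndB (a := (nat_lit 80)) (y := (nat_lit 320)) (z := (nat_lit 320)) (N := (nat_lit 28))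
 (ndB (a := (nat_lit 80)) (y := (nat_lit 240)) (z := (nat_lit 400)) (N := (nat_lit 28))
 .nil
 .nil (p013 h).1.1.1.1.1.2.1.2.1 (by decide +kernel))
 (ndB (a := (nat_lit 80)) (y := (nat_lit 320)) (z := (nat_lit 400)) (N := (nat_lit 28))
 .nil
 .nil (p013 h).1.1.1.1.1.2.2.1.1 (by decide +kernel)) (p013 h).1.1.1.1.1.2.1.2.2 (by decide +kernel)) (p013 h).1.1.1.1.1.2.1.1.2 (by decide +kernel))
 (ndB (a := (nat_lit 160)) (y := (nat_lit 240)) (z := (nat_lit 400)) (N := (nat_lit 28))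
 (ndB (a := (nat_lit 160)) (y := (nat_lit 160)) (z := (nat_lit 400)) (N := (nat_lit 28))
 (ndB (a := (nat_lit 160)) (y := (nat_lit 160)) (z := (nat_lit 320)) (N := (nat_lit 28))
 .nil
 .nil (p013 h).1.1.1.1.1.2.2.2.1 (by decide +kernel))
 (ndB (a := (nat_lit 160)) (y := (nat_lit 240)) (z := (nat_lit 320)) (N := (nat_lit 28))
 .nil
 .nil (p013 h).1.1.1.1.2.1.1.1 (by decide +kernel)) (p013 h).1.1.1.1.1.2.2.2.2 (by decide +kernel))
 (ndB (a := (nat_lit 160)) (y := (nat_lit 320)) (z := (nat_lit 400)) (N := (nat_lit 28))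
 (ndB (a := (nat_lit 160)) (y := (nat_lit 320)) (z := (nat_lit 320)) (N := (nat_lit 28))
 .nil
 .nil (p013 h).1.1.1.1.2.1.1.2.2 (by decide +kernel))
 (ndB (a := (nat_lit 160)) (y := (nat_lit 400)) (z := (nat_lit 400)) (N := (nat_lit 28))
 .nil
 .nil (p013 h).1.1.1.1.2.1.2.1.2 (by decide +kernel)) (p013 h).1.1.1.1.2.1.2.1.1 (by decide +kernel)) (p013 h).1.1.1.1.2.1.1.2.1 (by decide +kernel)) (p013 h).1.1.1.1.1.2.2.1.2 (by decide +kernel))
theorem F33_ok (h : RcOK RE.rowE) : F33.OK := .of (by decide +kernel) (T33_ok h)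
theorem T34_ok (h : RcOK RE.rowE) : TOK rd34 ks34 T34 := (ndB (a := (nat_lit 120)) (y := (nat_lit 240)) (z := (nat_lit 240)) (N := (nat_lit 36))
 (ndB (a := (nat_lit 80)) (y := (nat_lit 160)) (z := (nat_lit 320)) (N := (nat_lit 36))
 (ndB (a := (nat_lit 80)) (y := (nat_lit 120)) (z := (nat_lit 160)) (N := (nat_lit 36))
 (ndB (a := (nat_lit 80)) (y := (nat_lit 80)) (z := (nat_lit 320)) (N := (nat_lit 36))
 (ndB (a := (nat_lit 80)) (y := (nat_lit 80)) (z := (nat_lit 240)) (N := (nat_lit 36))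
 (ndB (a := (nat_lit 80)) (y := (nat_lit 80)) (z := (nat_lit 120)) (N := (nat_lit 36))
 .nil
 .nil (p013 h).1.1.1.1.2.1.2.2.1 (by decide +kernel))
 .nil (p013 h).1.1.1.1.2.1.2.2.2 (by decide +kernel))
 (ndB (a := (nat_lit 80)) (y := (nat_lit 80)) (z := (nat_lit 400)) (N := (nat_lit 36))
 .nil
 .nil (p013 h).1.1.1.1.2.2.1.1.2 (by decide +kernel)) (p013 h).1.1.1.1.2.2.1.1.1 (by decide +kernel))
 (ndB (a := (nat_lit 80)) (y := (nat_lit 120)) (z := (nat_lit 320)) (N := (nat_lit 36))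
 (ndB (a := (nat_lit 80)) (y := (nat_lit 120)) (z := (nat_lit 240)) (N := (nat_lit 36))
 .nil
 .nil (p013 h).1.1.1.1.2.2.1.2.2 (by decide +kernel))
 (ndB (a := (nat_lit 80)) (y := (nat_lit 160)) (z := (nat_lit 240)) (N := (nat_lit 36))
 .nil
 .nil (p013 h).1.1.1.1.2.2.2.1.2 (by decide +kernel)) (p013 h).1.1.1.1.2.2.2.1.1 (by decide +kernel)) (p013 h).1.1.1.1.2.2.1.2.1 (by decide +kernel))
 (ndB (a := (nat_lit 80)) (y := (nat_lit 320)) (z := (nat_lit 320)) (N := (nat_lit 36))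
 (ndB (a := (nat_lit 80)) (y := (nat_lit 240)) (z := (nat_lit 320)) (N := (nat_lit 36))
 (ndB (a := (nat_lit 80)) (y := (nat_lit 240)) (z := (nat_lit 240)) (N := (nat_lit 36))
 (ndB (a := (nat_lit 80)) (y := (nat_lit 160)) (z := (nat_lit 400)) (N := (nat_lit 36))
 .nil
 .nil (p013 h).1.1.1.1.2.2.2.2.2 (by decide +kernel))
 .nil (p013 h).1.1.1.2.1.1.1.1 (by decide +kernel))
 (ndB (a := (nat_lit 80)) (y := (nat_lit 240)) (z := (nat_lit 400)) (N := (nat_lit 36))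
 .nil
 .nil (p013 h).1.1.1.2.1.1.1.2.2 (by decide +kernel)) (p013 h).1.1.1.2.1.1.1.2.1 (by decide +kernel))
 (ndB (a := (nat_lit 120)) (y := (nat_lit 160)) (z := (nat_lit 240)) (N := (nat_lit 36))
 (ndB (a := (nat_lit 120)) (y := (nat_lit 160)) (z := (nat_lit 160)) (N := (nat_lit 36))
 .nil
 .nil (p013 h).1.1.1.2.1.1.2.1.2 (by decide +kernel))
 (ndB (a := (nat_lit 120)) (y := (nat_lit 160)) (z := (nat_lit 320)) (N := (nat_lit 36))
 .nil
 .nil (p013 h).1.1.1.2.1.1.2.2.2 (by decide +kernel)) (p013 h).1.1.1.2.1.1.2.2.1 (by decide +kernel)) (p013 h).1.1.1.2.1.1.2.1.1 (by decide +kernel)) (p013 h).1.1.1.1.2.2.2.2.1 (by decide +kernel))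
 (ndB (a := (nat_lit 160)) (y := (nat_lit 320)) (z := (nat_lit 400)) (N := (nat_lit 36))
 (ndB (a := (nat_lit 160)) (y := (nat_lit 240)) (z := (nat_lit 240)) (N := (nat_lit 36))
 (ndB (a := (nat_lit 160)) (y := (nat_lit 160)) (z := (nat_lit 320)) (N := (nat_lit 36))
 (ndB (a := (nat_lit 160)) (y := (nat_lit 160)) (z := (nat_lit 240)) (N := (nat_lit 36))
 (ndB (a := (nat_lit 120)) (y := (nat_lit 240)) (z := (nat_lit 320)) (N := (nat_lit 36))
 .nil
 .nil (p013 h).1.1.1.2.1.2.1.1.2 (by decide +kernel))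
 .nil (p013 h).1.1.1.2.1.2.1.2.1 (by decide +kernel))
 (ndB (a := (nat_lit 160)) (y := (nat_lit 160)) (z := (nat_lit 400)) (N := (nat_lit 36))
 .nil
 .nil (p013 h).1.1.1.2.1.2.2.1.1 (by decide +kernel)) (p013 h).1.1.1.2.1.2.1.2.2 (by decide +kernel))
 (ndB (a := (nat_lit 160)) (y := (nat_lit 240)) (z := (nat_lit 400)) (N := (nat_lit 36))
 (ndB (a := (nat_lit 160)) (y := (nat_lit 240)) (z := (nat_lit 320)) (N := (nat_lit 36))
 .nil
 .nil (p013 h).1.1.1.2.1.2.2.2.1 (by decide +kernel))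
 (ndB (a := (nat_lit 160)) (y := (nat_lit 320)) (z := (nat_lit 320)) (N := (nat_lit 36))
 .nil
 .nil (p013 h).1.1.1.2.2.1.1.1 (by decide +kernel)) (p013 h).1.1.1.2.1.2.2.2.2 (by decide +kernel)) (p013 h).1.1.1.2.1.2.2.1.2 (by decide +kernel))
 (ndB (a := (nat_lit 240)) (y := (nat_lit 240)) (z := (nat_lit 400)) (N := (nat_lit 36))
 (ndB (a := (nat_lit 240)) (y := (nat_lit 240)) (z := (nat_lit 240)) (N := (nat_lit 36))
 (ndB (a := (nat_lit 160)) (y := (nat_lit 400)) (z := (nat_lit 400)) (N := (nat_lit 36))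
 .nil
 .nil (p013 h).1.1.1.2.2.1.1.2.2 (by decide +kernel))
 (ndB (a := (nat_lit 240)) (y := (nat_lit 240)) (z := (nat_lit 320)) (N := (nat_lit 36))
 .nil
 .nil (p013 h).1.1.1.2.2.1.2.1.2 (by decide +kernel)) (p013 h).1.1.1.2.2.1.2.1.1 (by decide +kernel))
 (ndB (a := (nat_lit 240)) (y := (nat_lit 320)) (z := (nat_lit 400)) (N := (nat_lit 36))
 (ndB (a := (nat_lit 240)) (y := (nat_lit 320)) (z := (nat_lit 320)) (N := (nat_lit 36))
 .nil
 .nil (p013 h).1.1.1.2.2.1.2.2.2 (by decide +kernel))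
 (ndB (a := (nat_lit 240)) (y := (nat_lit 400)) (z := (nat_lit 400)) (N := (nat_lit 36))
 .nil
 .nil (p013 h).1.1.1.2.2.2.1.1.2 (by decide +kernel)) (p013 h).1.1.1.2.2.2.1.1.1 (by decide +kernel)) (p013 h).1.1.1.2.2.1.2.2.1 (by decide +kernel)) (p013 h).1.1.1.2.2.1.1.2.1 (by decide +kernel)) (p013 h).1.1.1.2.1.2.1.1.1 (by decide +kernel))
theorem F34_ok (h : RcOK RE.rowE) : F34.OK := .of (by decide +kernel) (T34_ok h)
theorem T35_ok (h : RcOK RE.rowE) : TOK rd35 ks35 T35 := (ndB (a := (nat_lit 160)) (y := (nat_lit 240)) (z := (nat_lit 320)) (N := (nat_lit 22))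
 (ndB (a := (nat_lit 160)) (y := (nat_lit 160)) (z := (nat_lit 400)) (N := (nat_lit 22))
 (ndB (a := (nat_lit 160)) (y := (nat_lit 160)) (z := (nat_lit 320)) (N := (nat_lit 22))
 (ndB (a := (nat_lit 160)) (y := (nat_lit 160)) (z := (nat_lit 240)) (N := (nat_lit 22))
 .nil
 .nil (p013 h).1.1.1.2.2.2.1.2.1 (by decide +kernel))
 .nil (p013 h).1.1.1.2.2.2.1.2.2 (by decide +kernel))
 (ndB (a := (nat_lit 160)) (y := (nat_lit 240)) (z := (nat_lit 240)) (N := (nat_lit 22))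
 .nil
 .nil (p013 h).1.1.1.2.2.2.2.1.2 (by decide +kernel)) (p013 h).1.1.1.2.2.2.2.1.1 (by decide +kernel))
 (ndB (a := (nat_lit 240)) (y := (nat_lit 240)) (z := (nat_lit 320)) (N := (nat_lit 22))
 (ndB (a := (nat_lit 240)) (y := (nat_lit 240)) (z := (nat_lit 240)) (N := (nat_lit 22))
 (ndB (a := (nat_lit 160)) (y := (nat_lit 240)) (z := (nat_lit 400)) (N := (nat_lit 22))
 .nil
 .nil (p013 h).1.1.1.2.2.2.2.2.2 (by decide +kernel))
 .nil (p013 h).1.1.2.1.1.1.1.1 (by decide +kernel))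
 (ndB (a := (nat_lit 240)) (y := (nat_lit 240)) (z := (nat_lit 400)) (N := (nat_lit 22))
 .nil
 .nil (p013 h).1.1.2.1.1.1.1.2.2 (by decide +kernel)) (p013 h).1.1.2.1.1.1.1.2.1 (by decide +kernel)) (p013 h).1.1.1.2.2.2.2.2.1 (by decide +kernel))
theorem F35_ok (h : RcOK RE.rowE) : F35.OK := .of (by decide +kernel) (T35_ok h)
end TC
end Pool.Agent.Lib.MP_6947cd_al
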