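import Pool.Agent.Lib.MP_6947cd_al.TC.F
import Pool.Agent.Lib.MP_6947cd_al.TC.P013

/-!
Problem MP_6947cd_al (Chollet).  CASE C, tables and certificates.  The families of tables are correct.
-/

set_option autoImplicit false
set_option linter.all false
set_option maxRecDepth 100000
set_option maxHeartbeats 4000000
namespace Pool.Agent.Lib.MP_6947cd_al
namespace TC
open PkA PkA.TF
theorem T36_ok (h : RcOK RE.rowE) : TOK rd36 ks36 T36 := (ndB (a := (nat_lit 160)) (y := (nat_lit 320)) (z := (nat_lit 320)) (N := (nat_lit 26))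
 (ndB (a := (nat_lit 160)) (y := (nat_lit 160)) (z := (nat_lit 320)) (N := (nat_lit 26))
 (ndB (a := (nat_lit 160)) (y := (nat_lit 160)) (z := (nat_lit 240)) (N := (nat_lit 26))
 (ndB (a := (nat_lit 160)) (y := (nat_lit 160)) (z := (nat_lit 160)) (N := (nat_lit 26))
 .nil
 .nil (p013 h).1.1.2.1.1.1.2.1.1 (by decide +kernel))
 .nil (p013 h).1.1.2.1.1.1.2.1.2 (by decide +kernel))
 (ndB (a := (nat_lit 160)) (y := (nat_lit 240)) (z := (nat_lit 320)) (N := (nat_lit 26))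
 (ndB (a := (nat_lit 160)) (y := (nat_lit 240)) (z := (nat_lit 240)) (N := (nat_lit 26))
 .nil
 .nil (p013 h).1.1.2.1.1.1.2.2.2 (by decide +kernel))
 .nil (p013 h).1.1.2.1.1.2.1.1.1 (by decide +kernel)) (p013 h).1.1.2.1.1.1.2.2.1 (by decide +kernel))
 (ndB (a := (nat_lit 240)) (y := (nat_lit 320)) (z := (nat_lit 320)) (N := (nat_lit 26))
 (ndB (a := (nat_lit 240)) (y := (nat_lit 240)) (z := (nat_lit 320)) (N := (nat_lit 26))
 (ndB (a := (nat_lit 240)) (y := (nat_lit 240)) (z := (nat_lit 240)) (N := (nat_lit 26))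
 .nil
 .nil (p013 h).1.1.2.1.1.2.1.2.1 (by decide +kernel))
 .nil (p013 h).1.1.2.1.1.2.1.2.2 (by decide +kernel))
 (ndB (a := (nat_lit 320)) (y := (nat_lit 320)) (z := (nat_lit 320)) (N := (nat_lit 26))
 .nil
 .nil (p013 h).1.1.2.1.1.2.2.1.2 (by decide +kernel)) (p013 h).1.1.2.1.1.2.2.1.1 (by decide +kernel)) (p013 h).1.1.2.1.1.2.1.1.2 (by decide +kernel))
theorem F36_ok (h : RcOK RE.rowE) : F36.OK := .of (by decide +kernel) (T36_ok h)
theorem T37_ok (h : RcOK RE.rowE) : TOK rd37 ks37 T37 := (ndB (a := (nat_lit 160)) (y := (nat_lit 160)) (z := (nat_lit 400)) (N := (nat_lit 25))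
 (ndB (a := (nat_lit 80)) (y := (nat_lit 160)) (z := (nat_lit 320)) (N := (nat_lit 25))
 (ndB (a := (nat_lit 0)) (y := (nat_lit 320)) (z := (nat_lit 400)) (N := (nat_lit 25))
 (ndB (a := (nat_lit 0)) (y := (nat_lit 240)) (z := (nat_lit 400)) (N := (nat_lit 25))
 (ndB (a := (nat_lit 0)) (y := (nat_lit 240)) (z := (nat_lit 320)) (N := (nat_lit 25))
 .nil
 .nil (p013 h).1.1.2.1.1.2.2.2.1 (by decide +kernel))
 (ndB (a := (nat_lit 0)) (y := (nat_lit 320)) (z := (nat_lit 320)) (N := (nat_lit 25))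
 .nil
 .nil (p013 h).1.1.2.1.2.1.1.1 (by decide +kernel)) (p013 h).1.1.2.1.1.2.2.2.2 (by decide +kernel))
 (ndB (a := (nat_lit 80)) (y := (nat_lit 80)) (z := (nat_lit 320)) (N := (nat_lit 25))
 (ndB (a := (nat_lit 0)) (y := (nat_lit 400)) (z := (nat_lit 400)) (N := (nat_lit 25))
 .nil
 .nil (p013 h).1.1.2.1.2.1.1.2.2 (by decide +kernel))
 (ndB (a := (nat_lit 80)) (y := (nat_lit 80)) (z := (nat_lit 400)) (N := (nat_lit 25))
 .nil
 .nil (p013 h).1.1.2.1.2.1.2.1.2 (by decide +kernel)) (p013 h).1.1.2.1.2.1.2.1.1 (by decide +kernel)) (p013 h).1.1.2.1.2.1.1.2.1 (by decide +kernel))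
 (ndB (a := (nat_lit 80)) (y := (nat_lit 320)) (z := (nat_lit 320)) (N := (nat_lit 25))
 (ndB (a := (nat_lit 80)) (y := (nat_lit 240)) (z := (nat_lit 320)) (N := (nat_lit 25))
 (ndB (a := (nat_lit 80)) (y := (nat_lit 160)) (z := (nat_lit 400)) (N := (nat_lit 25))
 .nil
 .nil (p013 h).1.1.2.1.2.1.2.2.2 (by decide +kernel))
 (ndB (a := (nat_lit 80)) (y := (nat_lit 240)) (z := (nat_lit 400)) (N := (nat_lit 25))
 .nil
 .nil (p013 h).1.1.2.1.2.2.1.1.2 (by decide +kernel)) (p013 h).1.1.2.1.2.2.1.1.1 (by decide +kernel))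
 (ndB (a := (nat_lit 80)) (y := (nat_lit 400)) (z := (nat_lit 400)) (N := (nat_lit 25))
 (ndB (a := (nat_lit 80)) (y := (nat_lit 320)) (z := (nat_lit 400)) (N := (nat_lit 25))
 .nil
 .nil (p013 h).1.1.2.1.2.2.1.2.2 (by decide +kernel))
 (ndB (a := (nat_lit 160)) (y := (nat_lit 160)) (z := (nat_lit 320)) (N := (nat_lit 25))
 .nil
 .nil (p013 h).1.1.2.1.2.2.2.1.2 (by decide +kernel)) (p013 h).1.1.2.1.2.2.2.1.1 (by decide +kernel)) (p013 h).1.1.2.1.2.2.1.2.1 (by decide +kernel)) (p013 h).1.1.2.1.2.1.2.2.1 (by decide +kernel))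
 (ndB (a := (nat_lit 240)) (y := (nat_lit 320)) (z := (nat_lit 320)) (N := (nat_lit 25))
 (ndB (a := (nat_lit 160)) (y := (nat_lit 320)) (z := (nat_lit 400)) (N := (nat_lit 25))
 (ndB (a := (nat_lit 160)) (y := (nat_lit 240)) (z := (nat_lit 400)) (N := (nat_lit 25))
 (ndB (a := (nat_lit 160)) (y := (nat_lit 240)) (z := (nat_lit 320)) (N := (nat_lit 25))
 .nil
 .nil (p013 h).1.1.2.1.2.2.2.2.2 (by decide +kernel))
 (ndB (a := (nat_lit 160)) (y := (nat_lit 320)) (z := (nat_lit 320)) (N := (nat_lit 25))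
 .nil
 .nil (p013 h).1.1.2.2.1.1.1.2.1 (by decide +kernel)) (p013 h).1.1.2.2.1.1.1.1 (by decide +kernel))
 (ndB (a := (nat_lit 240)) (y := (nat_lit 240)) (z := (nat_lit 320)) (N := (nat_lit 25))
 (ndB (a := (nat_lit 160)) (y := (nat_lit 400)) (z := (nat_lit 400)) (N := (nat_lit 25))
 .nil
 .nil (p013 h).1.1.2.2.1.1.2.1.1 (by decide +kernel))
 (ndB (a := (nat_lit 240)) (y := (nat_lit 240)) (z := (nat_lit 400)) (N := (nat_lit 25))
 .nil
 .nil (p013 h).1.1.2.2.1.1.2.2.1 (by decide +kernel)) (p013 h).1.1.2.2.1.1.2.1.2 (by decide +kernel)) (p013 h).1.1.2.2.1.1.1.2.2 (by decide +kernel))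
 (ndB (a := (nat_lit 320)) (y := (nat_lit 320)) (z := (nat_lit 400)) (N := (nat_lit 25))
 (ndB (a := (nat_lit 240)) (y := (nat_lit 400)) (z := (nat_lit 400)) (N := (nat_lit 25))
 (ndB (a := (nat_lit 240)) (y := (nat_lit 320)) (z := (nat_lit 400)) (N := (nat_lit 25))
 .nil
 .nil (p013 h).1.1.2.2.1.2.1.1.1 (by decide +kernel))
 (ndB (a := (nat_lit 320)) (y := (nat_lit 320)) (z := (nat_lit 320)) (N := (nat_lit 25))
 .nil
 .nil (p013 h).1.1.2.2.1.2.1.2.1 (by decide +kernel)) (p013 h).1.1.2.2.1.2.1.1.2 (by decide +kernel))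
 (ndB (a := (nat_lit 400)) (y := (nat_lit 400)) (z := (nat_lit 400)) (N := (nat_lit 25))
 (ndB (a := (nat_lit 320)) (y := (nat_lit 400)) (z := (nat_lit 400)) (N := (nat_lit 25))
 .nil
 .nil (p013 h).1.1.2.2.1.2.2.1.1 (by decide +kernel))
 .nil (p013 h).1.1.2.2.1.2.2.1.2 (by decide +kernel)) (p013 h).1.1.2.2.1.2.1.2.2 (by decide +kernel)) (p013 h).1.1.2.2.1.1.2.2.2 (by decide +kernel)) (p013 h).1.1.2.1.2.2.2.2.1 (by decide +kernel))
theorem F37_ok (h : RcOK RE.rowE) : F37.OK := .of (by decide +kernel) (T37_ok h)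
theorem T38_ok (h : RcOK RE.rowE) : TOK rd38 ks38 T38 := (ndB (a := (nat_lit 80)) (y := (nat_lit 320)) (z := (nat_lit 400)) (N := (nat_lit 40))
 (ndB (a := (nat_lit 0)) (y := (nat_lit 320)) (z := (nat_lit 400)) (N := (nat_lit 40))
 (ndB (a := (nat_lit 0)) (y := (nat_lit 160)) (z := (nat_lit 320)) (N := (nat_lit 40))
 (ndB (a := (nat_lit 0)) (y := (nat_lit 80)) (z := (nat_lit 320)) (N := (nat_lit 40))
 (ndB (a := (nat_lit 0)) (y := (nat_lit 0)) (z := (nat_lit 400)) (N := (nat_lit 40))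
 (ndB (a := (nat_lit 0)) (y := (nat_lit 0)) (z := (nat_lit 320)) (N := (nat_lit 40))
 .nil
 .nil (p013 h).1.1.2.2.1.2.2.2.1 (by decide +kernel))
 .nil (p013 h).1.1.2.2.1.2.2.2.2 (by decide +kernel))
 (ndB (a := (nat_lit 0)) (y := (nat_lit 80)) (z := (nat_lit 400)) (N := (nat_lit 40))
 .nil
 .nil (p013 h).1.1.2.2.2.1.1.2.1 (by decide +kernel)) (p013 h).1.1.2.2.2.1.1.1 (by decide +kernel))
 (ndB (a := (nat_lit 0)) (y := (nat_lit 240)) (z := (nat_lit 400)) (N := (nat_lit 40))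
 (ndB (a := (nat_lit 0)) (y := (nat_lit 240)) (z := (nat_lit 320)) (N := (nat_lit 40))
 (ndB (a := (nat_lit 0)) (y := (nat_lit 160)) (z := (nat_lit 400)) (N := (nat_lit 40))
 .nil
 .nil (p013 h).1.1.2.2.2.1.2.1.1 (by decide +kernel))
 .nil (p013 h).1.1.2.2.2.1.2.1.2 (by decide +kernel))
 (ndB (a := (nat_lit 0)) (y := (nat_lit 320)) (z := (nat_lit 320)) (N := (nat_lit 40))
 .nil
 .nil (p013 h).1.1.2.2.2.1.2.2.2 (by decide +kernel)) (p013 h).1.1.2.2.2.1.2.2.1 (by decide +kernel)) (p013 h).1.1.2.2.2.1.1.2.2 (by decide +kernel))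
 (ndB (a := (nat_lit 80)) (y := (nat_lit 160)) (z := (nat_lit 400)) (N := (nat_lit 40))
 (ndB (a := (nat_lit 80)) (y := (nat_lit 80)) (z := (nat_lit 400)) (N := (nat_lit 40))
 (ndB (a := (nat_lit 80)) (y := (nat_lit 80)) (z := (nat_lit 320)) (N := (nat_lit 40))
 (ndB (a := (nat_lit 0)) (y := (nat_lit 400)) (z := (nat_lit 400)) (N := (nat_lit 40))
 .nil
 .nil (p013 h).1.1.2.2.2.2.1.1.2 (by decide +kernel))
 .nil (p013 h).1.1.2.2.2.2.1.2.1 (by decide +kernel))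
 (ndB (a := (nat_lit 80)) (y := (nat_lit 160)) (z := (nat_lit 320)) (N := (nat_lit 40))
 .nil
 .nil (p013 h).1.1.2.2.2.2.2.1.1 (by decide +kernel)) (p013 h).1.1.2.2.2.2.1.2.2 (by decide +kernel))
 (ndB (a := (nat_lit 80)) (y := (nat_lit 240)) (z := (nat_lit 400)) (N := (nat_lit 40))
 (ndB (a := (nat_lit 80)) (y := (nat_lit 240)) (z := (nat_lit 320)) (N := (nat_lit 40))
 .nil
 .nil (p013 h).1.1.2.2.2.2.2.2.1 (by decide +kernel))
 (ndB (a := (nat_lit 80)) (y := (nat_lit 320)) (z := (nat_lit 320)) (N := (nat_lit 40))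
 .nil
 .nil (p013 h).1.2.1.1.1.1.1.1 (by decide +kernel)) (p013 h).1.1.2.2.2.2.2.2.2 (by decide +kernel)) (p013 h).1.1.2.2.2.2.2.1.2 (by decide +kernel)) (p013 h).1.1.2.2.2.2.1.1.1 (by decide +kernel))
 (ndB (a := (nat_lit 240)) (y := (nat_lit 240)) (z := (nat_lit 320)) (N := (nat_lit 40))
 (ndB (a := (nat_lit 160)) (y := (nat_lit 240)) (z := (nat_lit 400)) (N := (nat_lit 40))
 (ndB (a := (nat_lit 160)) (y := (nat_lit 160)) (z := (nat_lit 400)) (N := (nat_lit 40))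
 (ndB (a := (nat_lit 160)) (y := (nat_lit 160)) (z := (nat_lit 320)) (N := (nat_lit 40))
 (ndB (a := (nat_lit 80)) (y := (nat_lit 400)) (z := (nat_lit 400)) (N := (nat_lit 40))
 .nil
 .nil (p013 h).1.2.1.1.1.1.1.2.2 (by decide +kernel))
 .nil (p013 h).1.2.1.1.1.1.2.1.1 (by decide +kernel))
 (ndB (a := (nat_lit 160)) (y := (nat_lit 240)) (z := (nat_lit 320)) (N := (nat_lit 40))
 .nil
 .nil (p013 h).1.2.1.1.1.1.2.2.1 (by decide +kernel)) (p013 h).1.2.1.1.1.1.2.1.2 (by decide +kernel))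
 (ndB (a := (nat_lit 160)) (y := (nat_lit 320)) (z := (nat_lit 400)) (N := (nat_lit 40))
 (ndB (a := (nat_lit 160)) (y := (nat_lit 320)) (z := (nat_lit 320)) (N := (nat_lit 40))
 .nil
 .nil (p013 h).1.2.1.1.1.2.1.1.1 (by decide +kernel))
 (ndB (a := (nat_lit 160)) (y := (nat_lit 400)) (z := (nat_lit 400)) (N := (nat_lit 40))
 .nil
 .nil (p013 h).1.2.1.1.1.2.1.2.1 (by decide +kernel)) (p013 h).1.2.1.1.1.2.1.1.2 (by decide +kernel)) (p013 h).1.2.1.1.1.1.2.2.2 (by decide +kernel))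
 (ndB (a := (nat_lit 320)) (y := (nat_lit 320)) (z := (nat_lit 320)) (N := (nat_lit 40))
 (ndB (a := (nat_lit 240)) (y := (nat_lit 320)) (z := (nat_lit 400)) (N := (nat_lit 40))
 (ndB (a := (nat_lit 240)) (y := (nat_lit 320)) (z := (nat_lit 320)) (N := (nat_lit 40))
 (ndB (a := (nat_lit 240)) (y := (nat_lit 240)) (z := (nat_lit 400)) (N := (nat_lit 40))
 .nil
 .nil (p013 h).1.2.1.1.1.2.2.1.1 (by decide +kernel))
 .nil (p013 h).1.2.1.1.1.2.2.1.2 (by decide +kernel))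
 (ndB (a := (nat_lit 240)) (y := (nat_lit 400)) (z := (nat_lit 400)) (N := (nat_lit 40))
 .nil
 .nil (p013 h).1.2.1.1.1.2.2.2.2 (by decide +kernel)) (p013 h).1.2.1.1.1.2.2.2.1 (by decide +kernel))
 (ndB (a := (nat_lit 320)) (y := (nat_lit 400)) (z := (nat_lit 400)) (N := (nat_lit 40))
 (ndB (a := (nat_lit 320)) (y := (nat_lit 320)) (z := (nat_lit 400)) (N := (nat_lit 40))
 .nil
 .nil (p013 h).1.2.1.1.2.1.1.2.1 (by decide +kernel))
 (ndB (a := (nat_lit 400)) (y := (nat_lit 400)) (z := (nat_lit 400)) (N := (nat_lit 40))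
 .nil
 .nil (p013 h).1.2.1.1.2.1.2.1.1 (by decide +kernel)) (p013 h).1.2.1.1.2.1.1.2.2 (by decide +kernel)) (p013 h).1.2.1.1.2.1.1.1 (by decide +kernel)) (p013 h).1.2.1.1.1.2.1.2.2 (by decide +kernel)) (p013 h).1.2.1.1.1.1.1.2.1 (by decide +kernel))
theorem F38_ok (h : RcOK RE.rowE) : F38.OK := .of (by decide +kernel) (T38_ok h)
theorem T39_ok (h : RcOK RE.rowE) : TOK rd39 ks39 T39 := (ndB (a := (nat_lit 160)) (y := (nat_lit 240)) (z := (nat_lit 320)) (N := (nat_lit 22))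
 (ndB (a := (nat_lit 80)) (y := (nat_lit 320)) (z := (nat_lit 320)) (N := (nat_lit 22))
 (ndB (a := (nat_lit 80)) (y := (nat_lit 240)) (z := (nat_lit 400)) (N := (nat_lit 22))
 (ndB (a := (nat_lit 80)) (y := (nat_lit 240)) (z := (nat_lit 320)) (N := (nat_lit 22))
 .nil
 .nil (p013 h).1.2.1.1.2.1.2.1.2 (by decide +kernel))
 .nil (p013 h).1.2.1.1.2.1.2.2.1 (by decide +kernel))
 (ndB (a := (nat_lit 80)) (y := (nat_lit 400)) (z := (nat_lit 400)) (N := (nat_lit 22))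
 (ndB (a := (nat_lit 80)) (y := (nat_lit 320)) (z := (nat_lit 400)) (N := (nat_lit 22))
 .nil
 .nil (p013 h).1.2.1.1.2.2.1.1.1 (by decide +kernel))
 .nil (p013 h).1.2.1.1.2.2.1.1.2 (by decide +kernel)) (p013 h).1.2.1.1.2.1.2.2.2 (by decide +kernel))
 (ndB (a := (nat_lit 160)) (y := (nat_lit 320)) (z := (nat_lit 400)) (N := (nat_lit 22))
 (ndB (a := (nat_lit 160)) (y := (nat_lit 320)) (z := (nat_lit 320)) (N := (nat_lit 22))
 (ndB (a := (nat_lit 160)) (y := (nat_lit 240)) (z := (nat_lit 400)) (N := (nat_lit 22))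
 .nil
 .nil (p013 h).1.2.1.1.2.2.1.2.2 (by decide +kernel))
 .nil (p013 h).1.2.1.1.2.2.2.1.1 (by decide +kernel))
 (ndB (a := (nat_lit 160)) (y := (nat_lit 400)) (z := (nat_lit 400)) (N := (nat_lit 22))
 .nil
 .nil (p013 h).1.2.1.1.2.2.2.2.1 (by decide +kernel)) (p013 h).1.2.1.1.2.2.2.1.2 (by decide +kernel)) (p013 h).1.2.1.1.2.2.1.2.1 (by decide +kernel))
theorem F39_ok (h : RcOK RE.rowE) : F39.OK := .of (by decide +kernel) (T39_ok h)
theorem T40_ok (h : RcOK RE.rowE) : TOK rd40 ks40 T40 := (ndB (a := (nat_lit 160)) (y := (nat_lit 160)) (z := (nat_lit 400)) (N := (nat_lit 26))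
 (ndB (a := (nat_lit 80)) (y := (nat_lit 240)) (z := (nat_lit 240)) (N := (nat_lit 26))
 (ndB (a := (nat_lit 80)) (y := (nat_lit 160)) (z := (nat_lit 320)) (N := (nat_lit 26))
 (ndB (a := (nat_lit 80)) (y := (nat_lit 80)) (z := (nat_lit 400)) (N := (nat_lit 26))
 (ndB (a := (nat_lit 80)) (y := (nat_lit 80)) (z := (nat_lit 320)) (N := (nat_lit 26))
 .nil
 .nil (p013 h).1.2.1.1.2.2.2.2.2 (by decide +kernel))
 .nil (p013 h).1.2.1.2.1.1.1.1 (by decide +kernel))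
 (ndB (a := (nat_lit 80)) (y := (nat_lit 160)) (z := (nat_lit 400)) (N := (nat_lit 26))
 .nil
 .nil (p013 h).1.2.1.2.1.1.1.2.2 (by decide +kernel)) (p013 h).1.2.1.2.1.1.1.2.1 (by decide +kernel))
 (ndB (a := (nat_lit 80)) (y := (nat_lit 320)) (z := (nat_lit 320)) (N := (nat_lit 26))
 (ndB (a := (nat_lit 80)) (y := (nat_lit 240)) (z := (nat_lit 400)) (N := (nat_lit 26))
 (ndB (a := (nat_lit 80)) (y := (nat_lit 240)) (z := (nat_lit 320)) (N := (nat_lit 26))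
 .nil
 .nil (p013 h).1.2.1.2.1.1.2.1.2 (by decide +kernel))
 .nil (p013 h).1.2.1.2.1.1.2.2.1 (by decide +kernel))
 (ndB (a := (nat_lit 160)) (y := (nat_lit 160)) (z := (nat_lit 320)) (N := (nat_lit 26))
 .nil
 .nil (p013 h).1.2.1.2.1.2.1.1.1 (by decide +kernel)) (p013 h).1.2.1.2.1.1.2.2.2 (by decide +kernel)) (p013 h).1.2.1.2.1.1.2.1.1 (by decide +kernel))
 (ndB (a := (nat_lit 240)) (y := (nat_lit 240)) (z := (nat_lit 240)) (N := (nat_lit 26))
 (ndB (a := (nat_lit 160)) (y := (nat_lit 240)) (z := (nat_lit 400)) (N := (nat_lit 26))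
 (ndB (a := (nat_lit 160)) (y := (nat_lit 240)) (z := (nat_lit 320)) (N := (nat_lit 26))
 (ndB (a := (nat_lit 160)) (y := (nat_lit 240)) (z := (nat_lit 240)) (N := (nat_lit 26))
 .nil
 .nil (p013 h).1.2.1.2.1.2.1.2.1 (by decide +kernel))
 .nil (p013 h).1.2.1.2.1.2.1.2.2 (by decide +kernel))
 (ndB (a := (nat_lit 160)) (y := (nat_lit 320)) (z := (nat_lit 320)) (N := (nat_lit 26))
 .nil
 .nil (p013 h).1.2.1.2.1.2.2.1.2 (by decide +kernel)) (p013 h).1.2.1.2.1.2.2.1.1 (by decide +kernel))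
 (ndB (a := (nat_lit 240)) (y := (nat_lit 240)) (z := (nat_lit 400)) (N := (nat_lit 26))
 (ndB (a := (nat_lit 240)) (y := (nat_lit 240)) (z := (nat_lit 320)) (N := (nat_lit 26))
 .nil
 .nil (p013 h).1.2.1.2.1.2.2.2.2 (by decide +kernel))
 (ndB (a := (nat_lit 240)) (y := (nat_lit 320)) (z := (nat_lit 320)) (N := (nat_lit 26))
 .nil
 .nil (p013 h).1.2.1.2.2.1.1.2.1 (by decide +kernel)) (p013 h).1.2.1.2.2.1.1.1 (by decide +kernel)) (p013 h).1.2.1.2.1.2.2.2.1 (by decide +kernel)) (p013 h).1.2.1.2.1.2.1.1.2 (by decide +kernel))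
theorem F40_ok (h : RcOK RE.rowE) : F40.OK := .of (by decide +kernel) (T40_ok h)
theorem T41_ok (h : RcOK RE.rowE) : TOK rd41 ks41 T41 := (ndB (a := (nat_lit 160)) (y := (nat_lit 240)) (z := (nat_lit 400)) (N := (nat_lit 22))
 (ndB (a := (nat_lit 160)) (y := (nat_lit 160)) (z := (nat_lit 400)) (N := (nat_lit 22))
 (ndB (a := (nat_lit 160)) (y := (nat_lit 160)) (z := (nat_lit 320)) (N := (nat_lit 22))
 .nil
 .nil (p013 h).1.2.1.2.2.1.1.2.2 (by decide +kernel))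
 (ndB (a := (nat_lit 160)) (y := (nat_lit 240)) (z := (nat_lit 320)) (N := (nat_lit 22))
 .nil
 .nil (p013 h).1.2.1.2.2.1.2.1.2 (by decide +kernel)) (p013 h).1.2.1.2.2.1.2.1.1 (by decide +kernel))
 (ndB (a := (nat_lit 240)) (y := (nat_lit 240)) (z := (nat_lit 400)) (N := (nat_lit 22))
 (ndB (a := (nat_lit 240)) (y := (nat_lit 240)) (z := (nat_lit 320)) (N := (nat_lit 22))
 .nil
 .nil (p013 h).1.2.1.2.2.1.2.2.2 (by decide +kernel))
 .nil (p013 h).1.2.1.2.2.2.1.1.1 (by decide +kernel)) (p013 h).1.2.1.2.2.1.2.2.1 (by decide +kernel))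
theorem F41_ok (h : RcOK RE.rowE) : F41.OK := .of (by decide +kernel) (T41_ok h)
theorem T42_ok (h : RcOK RE.rowE) : TOK rd42 ks42 T42 := (ndB (a := (nat_lit 240)) (y := (nat_lit 240)) (z := (nat_lit 240)) (N := (nat_lit 22))
 (ndB (a := (nat_lit 160)) (y := (nat_lit 240)) (z := (nat_lit 320)) (N := (nat_lit 22))
 (ndB (a := (nat_lit 160)) (y := (nat_lit 240)) (z := (nat_lit 240)) (N := (nat_lit 22))
 .nil
 .nil (p013 h).1.2.1.2.2.2.1.1.2 (by decide +kernel))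
 (ndB (a := (nat_lit 160)) (y := (nat_lit 320)) (z := (nat_lit 320)) (N := (nat_lit 22))
 .nil
 .nil (p013 h).1.2.1.2.2.2.1.2.2 (by decide +kernel)) (p013 h).1.2.1.2.2.2.1.2.1 (by decide +kernel))
 (ndB (a := (nat_lit 240)) (y := (nat_lit 320)) (z := (nat_lit 320)) (N := (nat_lit 22))
 (ndB (a := (nat_lit 240)) (y := (nat_lit 240)) (z := (nat_lit 320)) (N := (nat_lit 22))
 .nil
 .nil (p013 h).1.2.1.2.2.2.2.1.2 (by decide +kernel))
 (ndB (a := (nat_lit 320)) (y := (nat_lit 320)) (z := (nat_lit 320)) (N := (nat_lit 22))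
 .nil
 .nil (p013 h).1.2.1.2.2.2.2.2.2 (by decide +kernel)) (p013 h).1.2.1.2.2.2.2.2.1 (by decide +kernel)) (p013 h).1.2.1.2.2.2.2.1.1 (by decide +kernel))
theorem F42_ok (h : RcOK RE.rowE) : F42.OK := .of (by decide +kernel) (T42_ok h)
theorem T43_ok (h : RcOK RE.rowE) : TOK rd43 ks43 T43 := (ndB (a := (nat_lit 240)) (y := (nat_lit 320)) (z := (nat_lit 320)) (N := (nat_lit 24))
 (ndB (a := (nat_lit 240)) (y := (nat_lit 240)) (z := (nat_lit 320)) (N := (nat_lit 24))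
 (ndB (a := (nat_lit 240)) (y := (nat_lit 240)) (z := (nat_lit 240)) (N := (nat_lit 24))
 .nil
 .nil (p013 h).1.2.2.1.1.1.1.1 (by decide +kernel))
 .nil (p013 h).1.2.2.1.1.1.1.2.1 (by decide +kernel))
 (ndB (a := (nat_lit 320)) (y := (nat_lit 320)) (z := (nat_lit 320)) (N := (nat_lit 24))
 .nil
 .nil (p013 h).1.2.2.1.1.1.2.1.1 (by decide +kernel)) (p013 h).1.2.2.1.1.1.1.2.2 (by decide +kernel))
theorem F43_ok (h : RcOK RE.rowE) : F43.OK := .of (by decide +kernel) (T43_ok h)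
theorem T44_ok (h : RcOK RE.rowE) : TOK rd44 ks44 T44 := (ndB (a := (nat_lit 80)) (y := (nat_lit 240)) (z := (nat_lit 400)) (N := (nat_lit 42))
 (ndB (a := (nat_lit 0)) (y := (nat_lit 240)) (z := (nat_lit 400)) (N := (nat_lit 42))
 (ndB (a := (nat_lit 0)) (y := (nat_lit 80)) (z := (nat_lit 400)) (N := (nat_lit 42))
 (ndB (a := (nat_lit 0)) (y := (nat_lit 0)) (z := (nat_lit 400)) (N := (nat_lit 42))
 (ndB (a := (nat_lit 0)) (y := (nat_lit 0)) (z := (nat_lit 320)) (N := (nat_lit 42))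
 (ndB (a := (nat_lit 0)) (y := (nat_lit 0)) (z := (nat_lit 240)) (N := (nat_lit 42))
 .nil
 .nil (p013 h).1.2.2.1.1.1.2.1.2 (by decide +kernel))
 .nil (p013 h).1.2.2.1.1.1.2.2.1 (by decide +kernel))
 (ndB (a := (nat_lit 0)) (y := (nat_lit 80)) (z := (nat_lit 320)) (N := (nat_lit 42))
 (ndB (a := (nat_lit 0)) (y := (nat_lit 80)) (z := (nat_lit 240)) (N := (nat_lit 42))
 .nil
 .nil (p013 h).1.2.2.1.1.2.1.1.1 (by decide +kernel))
 .nil (p013 h).1.2.2.1.1.2.1.1.2 (by decide +kernel)) (p013 h).1.2.2.1.1.1.2.2.2 (by decide +kernel))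
 (ndB (a := (nat_lit 0)) (y := (nat_lit 160)) (z := (nat_lit 400)) (N := (nat_lit 42))
 (ndB (a := (nat_lit 0)) (y := (nat_lit 160)) (z := (nat_lit 320)) (N := (nat_lit 42))
 (ndB (a := (nat_lit 0)) (y := (nat_lit 160)) (z := (nat_lit 240)) (N := (nat_lit 42))
 .nil
 .nil (p013 h).1.2.2.1.1.2.1.2.2 (by decide +kernel))
 .nil (p013 h).1.2.2.1.1.2.2.1.1 (by decide +kernel))
 (ndB (a := (nat_lit 0)) (y := (nat_lit 240)) (z := (nat_lit 320)) (N := (nat_lit 42))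
 (ndB (a := (nat_lit 0)) (y := (nat_lit 240)) (z := (nat_lit 240)) (N := (nat_lit 42))
 .nil
 .nil (p013 h).1.2.2.1.1.2.2.2.1 (by decide +kernel))
 .nil (p013 h).1.2.2.1.1.2.2.2.2 (by decide +kernel)) (p013 h).1.2.2.1.1.2.2.1.2 (by decide +kernel)) (p013 h).1.2.2.1.1.2.1.2.1 (by decide +kernel))
 (ndB (a := (nat_lit 80)) (y := (nat_lit 80)) (z := (nat_lit 400)) (N := (nat_lit 42))
 (ndB (a := (nat_lit 0)) (y := (nat_lit 400)) (z := (nat_lit 400)) (N := (nat_lit 42))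
 (ndB (a := (nat_lit 0)) (y := (nat_lit 320)) (z := (nat_lit 400)) (N := (nat_lit 42))
 (ndB (a := (nat_lit 0)) (y := (nat_lit 320)) (z := (nat_lit 320)) (N := (nat_lit 42))
 .nil
 .nil (p013 h).1.2.2.1.2.1.1.2.1 (by decide +kernel))
 .nil (p013 h).1.2.2.1.2.1.1.2.2 (by decide +kernel))
 (ndB (a := (nat_lit 80)) (y := (nat_lit 80)) (z := (nat_lit 320)) (N := (nat_lit 42))
 (ndB (a := (nat_lit 80)) (y := (nat_lit 80)) (z := (nat_lit 240)) (N := (nat_lit 42))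
 .nil
 .nil (p013 h).1.2.2.1.2.1.2.1.2 (by decide +kernel))
 .nil (p013 h).1.2.2.1.2.1.2.2.1 (by decide +kernel)) (p013 h).1.2.2.1.2.1.2.1.1 (by decide +kernel))
 (ndB (a := (nat_lit 80)) (y := (nat_lit 160)) (z := (nat_lit 400)) (N := (nat_lit 42))
 (ndB (a := (nat_lit 80)) (y := (nat_lit 160)) (z := (nat_lit 320)) (N := (nat_lit 42))
 (ndB (a := (nat_lit 80)) (y := (nat_lit 160)) (z := (nat_lit 240)) (N := (nat_lit 42))
 .nil
 .nil (p013 h).1.2.2.1.2.2.1.1.1 (by decide +kernel))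
 .nil (p013 h).1.2.2.1.2.2.1.1.2 (by decide +kernel))
 (ndB (a := (nat_lit 80)) (y := (nat_lit 240)) (z := (nat_lit 320)) (N := (nat_lit 42))
 (ndB (a := (nat_lit 80)) (y := (nat_lit 240)) (z := (nat_lit 240)) (N := (nat_lit 42))
 .nil
 .nil (p013 h).1.2.2.1.2.2.1.2.2 (by decide +kernel))
 .nil (p013 h).1.2.2.1.2.2.2.1.1 (by decide +kernel)) (p013 h).1.2.2.1.2.2.1.2.1 (by decide +kernel)) (p013 h).1.2.2.1.2.1.2.2.2 (by decide +kernel)) (p013 h).1.2.2.1.2.1.1.1 (by decide +kernel))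
 (ndB (a := (nat_lit 160)) (y := (nat_lit 400)) (z := (nat_lit 400)) (N := (nat_lit 42))
 (ndB (a := (nat_lit 160)) (y := (nat_lit 160)) (z := (nat_lit 400)) (N := (nat_lit 42))
 (ndB (a := (nat_lit 80)) (y := (nat_lit 400)) (z := (nat_lit 400)) (N := (nat_lit 42))
 (ndB (a := (nat_lit 80)) (y := (nat_lit 320)) (z := (nat_lit 400)) (N := (nat_lit 42))
 (ndB (a := (nat_lit 80)) (y := (nat_lit 320)) (z := (nat_lit 320)) (N := (nat_lit 42))
 .nil
 .nil (p013 h).1.2.2.1.2.2.2.2.1 (by decide +kernel))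
 .nil (p013 h).1.2.2.1.2.2.2.2.2 (by decide +kernel))
 (ndB (a := (nat_lit 160)) (y := (nat_lit 160)) (z := (nat_lit 320)) (N := (nat_lit 42))
 (ndB (a := (nat_lit 160)) (y := (nat_lit 160)) (z := (nat_lit 240)) (N := (nat_lit 42))
 .nil
 .nil (p013 h).1.2.2.2.1.1.1.2.1 (by decide +kernel))
 .nil (p013 h).1.2.2.2.1.1.1.2.2 (by decide +kernel)) (p013 h).1.2.2.2.1.1.1.1 (by decide +kernel))
 (ndB (a := (nat_lit 160)) (y := (nat_lit 240)) (z := (nat_lit 400)) (N := (nat_lit 42))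
 (ndB (a := (nat_lit 160)) (y := (nat_lit 240)) (z := (nat_lit 320)) (N := (nat_lit 42))
 (ndB (a := (nat_lit 160)) (y := (nat_lit 240)) (z := (nat_lit 240)) (N := (nat_lit 42))
 .nil
 .nil (p013 h).1.2.2.2.1.1.2.1.2 (by decide +kernel))
 .nil (p013 h).1.2.2.2.1.1.2.2.1 (by decide +kernel))
 (ndB (a := (nat_lit 160)) (y := (nat_lit 320)) (z := (nat_lit 400)) (N := (nat_lit 42))
 (ndB (a := (nat_lit 160)) (y := (nat_lit 320)) (z := (nat_lit 320)) (N := (nat_lit 42))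
 .nil
 .nil (p013 h).1.2.2.2.1.2.1.1.1 (by decide +kernel))
 .nil (p013 h).1.2.2.2.1.2.1.1.2 (by decide +kernel)) (p013 h).1.2.2.2.1.1.2.2.2 (by decide +kernel)) (p013 h).1.2.2.2.1.1.2.1.1 (by decide +kernel))
 (ndB (a := (nat_lit 240)) (y := (nat_lit 400)) (z := (nat_lit 400)) (N := (nat_lit 42))
 (ndB (a := (nat_lit 240)) (y := (nat_lit 240)) (z := (nat_lit 400)) (N := (nat_lit 42))
 (ndB (a := (nat_lit 240)) (y := (nat_lit 240)) (z := (nat_lit 320)) (N := (nat_lit 42))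
 (ndB (a := (nat_lit 240)) (y := (nat_lit 240)) (z := (nat_lit 240)) (N := (nat_lit 42))
 .nil
 .nil (p013 h).1.2.2.2.1.2.1.2.2 (by decide +kernel))
 .nil (p013 h).1.2.2.2.1.2.2.1.1 (by decide +kernel))
 (ndB (a := (nat_lit 240)) (y := (nat_lit 320)) (z := (nat_lit 400)) (N := (nat_lit 42))
 (ndB (a := (nat_lit 240)) (y := (nat_lit 320)) (z := (nat_lit 320)) (N := (nat_lit 42))
 .nil
 .nil (p013 h).1.2.2.2.1.2.2.2.1 (by decide +kernel))
 .nil (p013 h).1.2.2.2.1.2.2.2.2 (by decide +kernel)) (p013 h).1.2.2.2.1.2.2.1.2 (by decide +kernel))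
 (ndB (a := (nat_lit 320)) (y := (nat_lit 400)) (z := (nat_lit 400)) (N := (nat_lit 42))
 (ndB (a := (nat_lit 320)) (y := (nat_lit 320)) (z := (nat_lit 400)) (N := (nat_lit 42))
 (ndB (a := (nat_lit 320)) (y := (nat_lit 320)) (z := (nat_lit 320)) (N := (nat_lit 42))
 .nil
 .nil (p013 h).1.2.2.2.2.1.1.1.2 (by decide +kernel))
 .nil (p013 h).1.2.2.2.2.1.1.2.1 (by decide +kernel))
 (ndB (a := (nat_lit 400)) (y := (nat_lit 400)) (z := (nat_lit 400)) (N := (nat_lit 42))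
 .nil
 .nil (p013 h).1.2.2.2.2.1.2.1.1 (by decide +kernel)) (p013 h).1.2.2.2.2.1.1.2.2 (by decide +kernel)) (p013 h).1.2.2.2.2.1.1.1.1 (by decide +kernel)) (p013 h).1.2.2.2.1.2.1.2.1 (by decide +kernel)) (p013 h).1.2.2.1.2.2.2.1.2 (by decide +kernel))
theorem F44_ok (h : RcOK RE.rowE) : F44.OK := .of (by decide +kernel) (T44_ok h)
theorem T45_ok (h : RcOK RE.rowE) : TOK rd45 ks45 T45 := (ndB (a := (nat_lit 160)) (y := (nat_lit 160)) (z := (nat_lit 400)) (N := (nat_lit 26))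
 (ndB (a := (nat_lit 80)) (y := (nat_lit 240)) (z := (nat_lit 400)) (N := (nat_lit 26))
 (ndB (a := (nat_lit 80)) (y := (nat_lit 160)) (z := (nat_lit 320)) (N := (nat_lit 26))
 (ndB (a := (nat_lit 80)) (y := (nat_lit 80)) (z := (nat_lit 400)) (N := (nat_lit 26))
 (ndB (a := (nat_lit 80)) (y := (nat_lit 80)) (z := (nat_lit 320)) (N := (nat_lit 26))
 .nil
 .nil (p013 h).1.2.2.2.2.1.2.1.2 (by decide +kernel))
 .nil (p013 h).1.2.2.2.2.1.2.2.1 (by decide +kernel))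
 (ndB (a := (nat_lit 80)) (y := (nat_lit 240)) (z := (nat_lit 320)) (N := (nat_lit 26))
 (ndB (a := (nat_lit 80)) (y := (nat_lit 160)) (z := (nat_lit 400)) (N := (nat_lit 26))
 .nil
 .nil (p013 h).1.2.2.2.2.2.1.1.1 (by decide +kernel))
 .nil (p013 h).1.2.2.2.2.2.1.1.2 (by decide +kernel)) (p013 h).1.2.2.2.2.1.2.2.2 (by decide +kernel))
 (ndB (a := (nat_lit 80)) (y := (nat_lit 400)) (z := (nat_lit 400)) (N := (nat_lit 26))
 (ndB (a := (nat_lit 80)) (y := (nat_lit 320)) (z := (nat_lit 400)) (N := (nat_lit 26))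
 (ndB (a := (nat_lit 80)) (y := (nat_lit 320)) (z := (nat_lit 320)) (N := (nat_lit 26))
 .nil
 .nil (p013 h).1.2.2.2.2.2.1.2.2 (by decide +kernel))
 .nil (p013 h).1.2.2.2.2.2.2.1.1 (by decide +kernel))
 (ndB (a := (nat_lit 160)) (y := (nat_lit 160)) (z := (nat_lit 320)) (N := (nat_lit 26))
 .nil
 .nil (p013 h).1.2.2.2.2.2.2.2.1 (by decide +kernel)) (p013 h).1.2.2.2.2.2.2.1.2 (by decide +kernel)) (p013 h).1.2.2.2.2.2.1.2.1 (by decide +kernel))
 (ndB (a := (nat_lit 240)) (y := (nat_lit 240)) (z := (nat_lit 320)) (N := (nat_lit 26))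
 (ndB (a := (nat_lit 160)) (y := (nat_lit 320)) (z := (nat_lit 320)) (N := (nat_lit 26))
 (ndB (a := (nat_lit 160)) (y := (nat_lit 240)) (z := (nat_lit 400)) (N := (nat_lit 26))
 (ndB (a := (nat_lit 160)) (y := (nat_lit 240)) (z := (nat_lit 320)) (N := (nat_lit 26))
 .nil
 .nil (p013 h).2.1.1.1.1.1.1.1 (by decide +kernel))
 .nil (p013 h).2.1.1.1.1.1.1.2.1 (by decide +kernel))
 (ndB (a := (nat_lit 160)) (y := (nat_lit 400)) (z := (nat_lit 400)) (N := (nat_lit 26))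
 (ndB (a := (nat_lit 160)) (y := (nat_lit 320)) (z := (nat_lit 400)) (N := (nat_lit 26))
 .nil
 .nil (p013 h).2.1.1.1.1.1.2.1.1 (by decide +kernel))
 .nil (p013 h).2.1.1.1.1.1.2.1.2 (by decide +kernel)) (p013 h).2.1.1.1.1.1.1.2.2 (by decide +kernel))
 (ndB (a := (nat_lit 240)) (y := (nat_lit 320)) (z := (nat_lit 400)) (N := (nat_lit 26))
 (ndB (a := (nat_lit 240)) (y := (nat_lit 320)) (z := (nat_lit 320)) (N := (nat_lit 26))
 (ndB (a := (nat_lit 240)) (y := (nat_lit 240)) (z := (nat_lit 400)) (N := (nat_lit 26))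
 .nil
 .nil (p013 h).2.1.1.1.1.1.2.2.2 (by decide +kernel))
 .nil (p013 h).2.1.1.1.1.2.1.1.1 (by decide +kernel))
 (ndB (a := (nat_lit 240)) (y := (nat_lit 400)) (z := (nat_lit 400)) (N := (nat_lit 26))
 .nil
 .nil (p013 h).2.1.1.1.1.2.1.2.1 (by decide +kernel)) (p013 h).2.1.1.1.1.2.1.1.2 (by decide +kernel)) (p013 h).2.1.1.1.1.1.2.2.1 (by decide +kernel)) (p013 h).1.2.2.2.2.2.2.2.2 (by decide +kernel))
theorem F45_ok (h : RcOK RE.rowE) : F45.OK := .of (by decide +kernel) (T45_ok h)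
theorem T46_ok (h : RcOK RE.rowE) : TOK rd46 ks46 T46 := (ndB (a := (nat_lit 160)) (y := (nat_lit 320)) (z := (nat_lit 400)) (N := (nat_lit 22))
 (ndB (a := (nat_lit 160)) (y := (nat_lit 240)) (z := (nat_lit 320)) (N := (nat_lit 22))
 (ndB (a := (nat_lit 160)) (y := (nat_lit 160)) (z := (nat_lit 400)) (N := (nat_lit 22))
 (ndB (a := (nat_lit 160)) (y := (nat_lit 160)) (z := (nat_lit 320)) (N := (nat_lit 22))
 .nil
 .nil (p013 h).2.1.1.1.1.2.1.2.2 (by decide +kernel))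
 .nil (p013 h).2.1.1.1.1.2.2.1.1 (by decide +kernel))
 (ndB (a := (nat_lit 160)) (y := (nat_lit 320)) (z := (nat_lit 320)) (N := (nat_lit 22))
 (ndB (a := (nat_lit 160)) (y := (nat_lit 240)) (z := (nat_lit 400)) (N := (nat_lit 22))
 .nil
 .nil (p013 h).2.1.1.1.1.2.2.2.1 (by decide +kernel))
 .nil (p013 h).2.1.1.1.1.2.2.2.2 (by decide +kernel)) (p013 h).2.1.1.1.1.2.2.1.2 (by decide +kernel))
 (ndB (a := (nat_lit 240)) (y := (nat_lit 320)) (z := (nat_lit 320)) (N := (nat_lit 22))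
 (ndB (a := (nat_lit 240)) (y := (nat_lit 240)) (z := (nat_lit 400)) (N := (nat_lit 22))
 (ndB (a := (nat_lit 240)) (y := (nat_lit 240)) (z := (nat_lit 320)) (N := (nat_lit 22))
 .nil
 .nil (p013 h).2.1.1.1.2.1.1.2.1 (by decide +kernel))
 .nil (p013 h).2.1.1.1.2.1.1.2.2 (by decide +kernel))
 (ndB (a := (nat_lit 240)) (y := (nat_lit 320)) (z := (nat_lit 400)) (N := (nat_lit 22))
 .nil
 .nil (p013 h).2.1.1.1.2.1.2.1.2 (by decide +kernel)) (p013 h).2.1.1.1.2.1.2.1.1 (by decide +kernel)) (p013 h).2.1.1.1.2.1.1.1 (by decide +kernel))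
theorem F46_ok (h : RcOK RE.rowE) : F46.OK := .of (by decide +kernel) (T46_ok h)
theorem T47_ok (h : RcOK RE.rowE) : TOK rd47 ks47 T47 := (ndB (a := (nat_lit 240)) (y := (nat_lit 320)) (z := (nat_lit 400)) (N := (nat_lit 16))
 (ndB (a := (nat_lit 160)) (y := (nat_lit 400)) (z := (nat_lit 400)) (N := (nat_lit 16))
 (ndB (a := (nat_lit 160)) (y := (nat_lit 320)) (z := (nat_lit 400)) (N := (nat_lit 16))
 (ndB (a := (nat_lit 160)) (y := (nat_lit 320)) (z := (nat_lit 320)) (N := (nat_lit 16))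
 .nil
 .nil (p013 h).2.1.1.1.2.1.2.2.1 (by decide +kernel))
 .nil (p013 h).2.1.1.1.2.1.2.2.2 (by decide +kernel))
 (ndB (a := (nat_lit 240)) (y := (nat_lit 320)) (z := (nat_lit 320)) (N := (nat_lit 16))
 .nil
 .nil (p013 h).2.1.1.1.2.2.1.1.2 (by decide +kernel)) (p013 h).2.1.1.1.2.2.1.1.1 (by decide +kernel))
 (ndB (a := (nat_lit 320)) (y := (nat_lit 320)) (z := (nat_lit 400)) (N := (nat_lit 16))
 (ndB (a := (nat_lit 320)) (y := (nat_lit 320)) (z := (nat_lit 320)) (N := (nat_lit 16))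
 (ndB (a := (nat_lit 240)) (y := (nat_lit 400)) (z := (nat_lit 400)) (N := (nat_lit 16))
 .nil
 .nil (p013 h).2.1.1.1.2.2.1.2.2 (by decide +kernel))
 .nil (p013 h).2.1.1.1.2.2.2.1.1 (by decide +kernel))
 (ndB (a := (nat_lit 320)) (y := (nat_lit 400)) (z := (nat_lit 400)) (N := (nat_lit 16))
 .nil
 .nil (p013 h).2.1.1.1.2.2.2.2.1 (by decide +kernel)) (p013 h).2.1.1.1.2.2.2.1.2 (by decide +kernel)) (p013 h).2.1.1.1.2.2.1.2.1 (by decide +kernel))
theorem F47_ok (h : RcOK RE.rowE) : F47.OK := .of (by decide +kernel) (T47_ok h)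
theorem T48_ok (h : RcOK RE.rowE) : TOK rd48 ks48 T48 := (ndB (a := (nat_lit 240)) (y := (nat_lit 320)) (z := (nat_lit 400)) (N := (nat_lit 20))
 (ndB (a := (nat_lit 240)) (y := (nat_lit 240)) (z := (nat_lit 400)) (N := (nat_lit 20))
 (ndB (a := (nat_lit 240)) (y := (nat_lit 240)) (z := (nat_lit 320)) (N := (nat_lit 20))
 .nil
 .nil (p013 h).2.1.1.1.2.2.2.2.2 (by decide +kernel))
 (ndB (a := (nat_lit 240)) (y := (nat_lit 320)) (z := (nat_lit 320)) (N := (nat_lit 20))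
 .nil
 .nil (p013 h).2.1.1.2.1.1.1.2.1 (by decide +kernel)) (p013 h).2.1.1.2.1.1.1.1 (by decide +kernel))
 (ndB (a := (nat_lit 320)) (y := (nat_lit 320)) (z := (nat_lit 400)) (N := (nat_lit 20))
 (ndB (a := (nat_lit 320)) (y := (nat_lit 320)) (z := (nat_lit 320)) (N := (nat_lit 20))
 .nil
 .nil (p013 h).2.1.1.2.1.1.2.1.1 (by decide +kernel))
 .nil (p013 h).2.1.1.2.1.1.2.1.2 (by decide +kernel)) (p013 h).2.1.1.2.1.1.1.2.2 (by decide +kernel))
theorem F48_ok (h : RcOK RE.rowE) : F48.OK := .of (by decide +kernel) (T48_ok h)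
theorem T49_ok (h : RcOK RE.rowE) : TOK rd49 ks49 T49 := (ndB (a := (nat_lit 320)) (y := (nat_lit 320)) (z := (nat_lit 320)) (N := (nat_lit 24))
 (ndB (a := (nat_lit 240)) (y := (nat_lit 320)) (z := (nat_lit 400)) (N := (nat_lit 24))
 (ndB (a := (nat_lit 240)) (y := (nat_lit 320)) (z := (nat_lit 320)) (N := (nat_lit 24))
 .nil
 .nil (p013 h).2.1.1.2.1.1.2.2.1 (by decide +kernel))
 (ndB (a := (nat_lit 240)) (y := (nat_lit 400)) (z := (nat_lit 400)) (N := (nat_lit 24))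
 .nil
 .nil (p013 h).2.1.1.2.1.2.1.1.1 (by decide +kernel)) (p013 h).2.1.1.2.1.1.2.2.2 (by decide +kernel))
 (ndB (a := (nat_lit 320)) (y := (nat_lit 400)) (z := (nat_lit 400)) (N := (nat_lit 24))
 (ndB (a := (nat_lit 320)) (y := (nat_lit 320)) (z := (nat_lit 400)) (N := (nat_lit 24))
 .nil
 .nil (p013 h).2.1.1.2.1.2.1.2.1 (by decide +kernel))
 (ndB (a := (nat_lit 400)) (y := (nat_lit 400)) (z := (nat_lit 400)) (N := (nat_lit 24))
 .nil
 .nil (p013 h).2.1.1.2.1.2.2.1.1 (by decide +kernel)) (p013 h).2.1.1.2.1.2.1.2.2 (by decide +kernel)) (p013 h).2.1.1.2.1.2.1.1.2 (by decide +kernel))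
theorem F49_ok (h : RcOK RE.rowE) : F49.OK := .of (by decide +kernel) (T49_ok h)
theorem T50_ok (h : RcOK RE.rowE) : TOK rd50 ks50 T50 := (ndB (a := (nat_lit 80)) (y := (nat_lit 240)) (z := (nat_lit 400)) (N := (nat_lit 36))
 (ndB (a := (nat_lit 0)) (y := (nat_lit 240)) (z := (nat_lit 400)) (N := (nat_lit 36))
 (ndB (a := (nat_lit 0)) (y := (nat_lit 80)) (z := (nat_lit 400)) (N := (nat_lit 36))
 (ndB (a := (nat_lit 0)) (y := (nat_lit 0)) (z := (nat_lit 400)) (N := (nat_lit 36))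
 (ndB (a := (nat_lit 0)) (y := (nat_lit 0)) (z := (nat_lit 320)) (N := (nat_lit 36))
 (ndB (a := (nat_lit 0)) (y := (nat_lit 0)) (z := (nat_lit 240)) (N := (nat_lit 36))
 .nil
 .nil (p013 h).2.1.1.2.1.2.2.1.2 (by decide +kernel))
 .nil (p013 h).2.1.1.2.1.2.2.2.1 (by decide +kernel))
 (ndB (a := (nat_lit 0)) (y := (nat_lit 80)) (z := (nat_lit 320)) (N := (nat_lit 36))
 (ndB (a := (nat_lit 0)) (y := (nat_lit 80)) (z := (nat_lit 240)) (N := (nat_lit 36))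
 .nil
 .nil (p013 h).2.1.1.2.2.1.1.1 (by decide +kernel))
 .nil (p013 h).2.1.1.2.2.1.1.2.1 (by decide +kernel)) (p013 h).2.1.1.2.1.2.2.2.2 (by decide +kernel))
 (ndB (a := (nat_lit 0)) (y := (nat_lit 160)) (z := (nat_lit 400)) (N := (nat_lit 36))
 (ndB (a := (nat_lit 0)) (y := (nat_lit 160)) (z := (nat_lit 320)) (N := (nat_lit 36))
 (ndB (a := (nat_lit 0)) (y := (nat_lit 160)) (z := (nat_lit 240)) (N := (nat_lit 36))
 .nil
 .nil (p013 h).2.1.1.2.2.1.2.1.1 (by decide +kernel))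
 .nil (p013 h).2.1.1.2.2.1.2.1.2 (by decide +kernel))
 (ndB (a := (nat_lit 0)) (y := (nat_lit 240)) (z := (nat_lit 320)) (N := (nat_lit 36))
 (ndB (a := (nat_lit 0)) (y := (nat_lit 240)) (z := (nat_lit 240)) (N := (nat_lit 36))
 .nil
 .nil (p013 h).2.1.1.2.2.1.2.2.2 (by decide +kernel))
 .nil (p013 h).2.1.1.2.2.2.1.1.1 (by decide +kernel)) (p013 h).2.1.1.2.2.1.2.2.1 (by decide +kernel)) (p013 h).2.1.1.2.2.1.1.2.2 (by decide +kernel))
 (ndB (a := (nat_lit 80)) (y := (nat_lit 80)) (z := (nat_lit 400)) (N := (nat_lit 36))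
 (ndB (a := (nat_lit 0)) (y := (nat_lit 400)) (z := (nat_lit 400)) (N := (nat_lit 36))
 (ndB (a := (nat_lit 0)) (y := (nat_lit 320)) (z := (nat_lit 400)) (N := (nat_lit 36))
 (ndB (a := (nat_lit 0)) (y := (nat_lit 320)) (z := (nat_lit 320)) (N := (nat_lit 36))
 .nil
 .nil (p013 h).2.1.1.2.2.2.1.2.1 (by decide +kernel))
 .nil (p013 h).2.1.1.2.2.2.1.2.2 (by decide +kernel))
 (ndB (a := (nat_lit 80)) (y := (nat_lit 80)) (z := (nat_lit 320)) (N := (nat_lit 36))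
 (ndB (a := (nat_lit 80)) (y := (nat_lit 80)) (z := (nat_lit 240)) (N := (nat_lit 36))
 .nil
 .nil (p013 h).2.1.1.2.2.2.2.1.2 (by decide +kernel))
 .nil (p013 h).2.1.1.2.2.2.2.2.1 (by decide +kernel)) (p013 h).2.1.1.2.2.2.2.1.1 (by decide +kernel))
 (ndB (a := (nat_lit 80)) (y := (nat_lit 160)) (z := (nat_lit 400)) (N := (nat_lit 36))
 (ndB (a := (nat_lit 80)) (y := (nat_lit 160)) (z := (nat_lit 320)) (N := (nat_lit 36))
 (ndB (a := (nat_lit 80)) (y := (nat_lit 160)) (z := (nat_lit 240)) (N := (nat_lit 36))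
 .nil
 .nil (p013 h).2.1.2.1.1.1.1.1 (by decide +kernel))
 .nil (p013 h).2.1.2.1.1.1.1.2.1 (by decide +kernel))
 (ndB (a := (nat_lit 80)) (y := (nat_lit 240)) (z := (nat_lit 320)) (N := (nat_lit 36))
 (ndB (a := (nat_lit 80)) (y := (nat_lit 240)) (z := (nat_lit 240)) (N := (nat_lit 36))
 .nil
 .nil (p013 h).2.1.2.1.1.1.2.1.1 (by decide +kernel))
 .nil (p013 h).2.1.2.1.1.1.2.1.2 (by decide +kernel)) (p013 h).2.1.2.1.1.1.1.2.2 (by decide +kernel)) (p013 h).2.1.1.2.2.2.2.2.2 (by decide +kernel)) (p013 h).2.1.1.2.2.2.1.1.2 (by decide +kernel))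
 (ndB (a := (nat_lit 160)) (y := (nat_lit 400)) (z := (nat_lit 400)) (N := (nat_lit 36))
 (ndB (a := (nat_lit 160)) (y := (nat_lit 160)) (z := (nat_lit 400)) (N := (nat_lit 36))
 (ndB (a := (nat_lit 80)) (y := (nat_lit 400)) (z := (nat_lit 400)) (N := (nat_lit 36))
 (ndB (a := (nat_lit 80)) (y := (nat_lit 320)) (z := (nat_lit 400)) (N := (nat_lit 36))
 (ndB (a := (nat_lit 80)) (y := (nat_lit 320)) (z := (nat_lit 320)) (N := (nat_lit 36))
 .nil
 .nil (p013 h).2.1.2.1.1.1.2.2.2 (by decide +kernel))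
 .nil (p013 h).2.1.2.1.1.2.1.1.1 (by decide +kernel))
 (ndB (a := (nat_lit 160)) (y := (nat_lit 160)) (z := (nat_lit 320)) (N := (nat_lit 36))
 (ndB (a := (nat_lit 160)) (y := (nat_lit 160)) (z := (nat_lit 240)) (N := (nat_lit 36))
 .nil
 .nil (p013 h).2.1.2.1.1.2.1.2.1 (by decide +kernel))
 .nil (p013 h).2.1.2.1.1.2.1.2.2 (by decide +kernel)) (p013 h).2.1.2.1.1.2.1.1.2 (by decide +kernel))
 (ndB (a := (nat_lit 160)) (y := (nat_lit 240)) (z := (nat_lit 400)) (N := (nat_lit 36))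
 (ndB (a := (nat_lit 160)) (y := (nat_lit 240)) (z := (nat_lit 320)) (N := (nat_lit 36))
 (ndB (a := (nat_lit 160)) (y := (nat_lit 240)) (z := (nat_lit 240)) (N := (nat_lit 36))
 .nil
 .nil (p013 h).2.1.2.1.1.2.2.1.2 (by decide +kernel))
 .nil (p013 h).2.1.2.1.1.2.2.2.1 (by decide +kernel))
 (ndB (a := (nat_lit 160)) (y := (nat_lit 320)) (z := (nat_lit 400)) (N := (nat_lit 36))
 (ndB (a := (nat_lit 160)) (y := (nat_lit 320)) (z := (nat_lit 320)) (N := (nat_lit 36))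
 .nil
 .nil (p013 h).2.1.2.1.2.1.1.1 (by decide +kernel))
 .nil (p013 h).2.1.2.1.2.1.1.2.1 (by decide +kernel)) (p013 h).2.1.2.1.1.2.2.2.2 (by decide +kernel)) (p013 h).2.1.2.1.1.2.2.1.1 (by decide +kernel))
 (ndB (a := (nat_lit 240)) (y := (nat_lit 400)) (z := (nat_lit 400)) (N := (nat_lit 36))
 (ndB (a := (nat_lit 240)) (y := (nat_lit 240)) (z := (nat_lit 400)) (N := (nat_lit 36))
 (ndB (a := (nat_lit 240)) (y := (nat_lit 240)) (z := (nat_lit 320)) (N := (nat_lit 36))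
 (ndB (a := (nat_lit 240)) (y := (nat_lit 240)) (z := (nat_lit 240)) (N := (nat_lit 36))
 .nil
 .nil (p013 h).2.1.2.1.2.1.2.1.1 (by decide +kernel))
 .nil (p013 h).2.1.2.1.2.1.2.1.2 (by decide +kernel))
 (ndB (a := (nat_lit 240)) (y := (nat_lit 320)) (z := (nat_lit 400)) (N := (nat_lit 36))
 (ndB (a := (nat_lit 240)) (y := (nat_lit 320)) (z := (nat_lit 320)) (N := (nat_lit 36))
 .nil
 .nil (p013 h).2.1.2.1.2.1.2.2.2 (by decide +kernel))
 .nil (p013 h).2.1.2.1.2.2.1.1.1 (by decide +kernel)) (p013 h).2.1.2.1.2.1.2.2.1 (by decide +kernel))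
 (ndB (a := (nat_lit 320)) (y := (nat_lit 400)) (z := (nat_lit 400)) (N := (nat_lit 36))
 (ndB (a := (nat_lit 320)) (y := (nat_lit 320)) (z := (nat_lit 400)) (N := (nat_lit 36))
 (ndB (a := (nat_lit 320)) (y := (nat_lit 320)) (z := (nat_lit 320)) (N := (nat_lit 36))
 .nil
 .nil (p013 h).2.1.2.1.2.2.1.2.1 (by decide +kernel))
 .nil (p013 h).2.1.2.1.2.2.1.2.2 (by decide +kernel))
 (ndB (a := (nat_lit 400)) (y := (nat_lit 400)) (z := (nat_lit 400)) (N := (nat_lit 36))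
 .nil
 .nil (p013 h).2.1.2.1.2.2.2.1.2 (by decide +kernel)) (p013 h).2.1.2.1.2.2.2.1.1 (by decide +kernel)) (p013 h).2.1.2.1.2.2.1.1.2 (by decide +kernel)) (p013 h).2.1.2.1.2.1.1.2.2 (by decide +kernel)) (p013 h).2.1.2.1.1.1.2.2.1 (by decide +kernel))
theorem F50_ok (h : RcOK RE.rowE) : F50.OK := .of (by decide +kernel) (T50_ok h)
theorem T51_ok (h : RcOK RE.rowE) : TOK rd51 ks51 T51 := (ndB (a := (nat_lit 80)) (y := (nat_lit 320)) (z := (nat_lit 400)) (N := (nat_lit 30))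
 (ndB (a := (nat_lit 0)) (y := (nat_lit 320)) (z := (nat_lit 400)) (N := (nat_lit 30))
 (ndB (a := (nat_lit 0)) (y := (nat_lit 160)) (z := (nat_lit 320)) (N := (nat_lit 30))
 (ndB (a := (nat_lit 0)) (y := (nat_lit 80)) (z := (nat_lit 320)) (N := (nat_lit 30))
 (ndB (a := (nat_lit 0)) (y := (nat_lit 0)) (z := (nat_lit 400)) (N := (nat_lit 30))
 (ndB (a := (nat_lit 0)) (y := (nat_lit 0)) (z := (nat_lit 320)) (N := (nat_lit 30))
 .nil
 .nil (p013 h).2.1.2.1.2.2.2.2.1 (by decide +kernel))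
 .nil (p013 h).2.1.2.1.2.2.2.2.2 (by decide +kernel))
 (ndB (a := (nat_lit 0)) (y := (nat_lit 80)) (z := (nat_lit 400)) (N := (nat_lit 30))
 .nil
 .nil (p013 h).2.1.2.2.1.1.1.2.1 (by decide +kernel)) (p013 h).2.1.2.2.1.1.1.1 (by decide +kernel))
 (ndB (a := (nat_lit 0)) (y := (nat_lit 240)) (z := (nat_lit 400)) (N := (nat_lit 30))
 (ndB (a := (nat_lit 0)) (y := (nat_lit 240)) (z := (nat_lit 320)) (N := (nat_lit 30))
 (ndB (a := (nat_lit 0)) (y := (nat_lit 160)) (z := (nat_lit 400)) (N := (nat_lit 30))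
 .nil
 .nil (p013 h).2.1.2.2.1.1.2.1.1 (by decide +kernel))
 .nil (p013 h).2.1.2.2.1.1.2.1.2 (by decide +kernel))
 (ndB (a := (nat_lit 0)) (y := (nat_lit 320)) (z := (nat_lit 320)) (N := (nat_lit 30))
 .nil
 .nil (p013 h).2.1.2.2.1.1.2.2.2 (by decide +kernel)) (p013 h).2.1.2.2.1.1.2.2.1 (by decide +kernel)) (p013 h).2.1.2.2.1.1.1.2.2 (by decide +kernel))
 (ndB (a := (nat_lit 80)) (y := (nat_lit 160)) (z := (nat_lit 400)) (N := (nat_lit 30))
 (ndB (a := (nat_lit 80)) (y := (nat_lit 80)) (z := (nat_lit 400)) (N := (nat_lit 30))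
 (ndB (a := (nat_lit 80)) (y := (nat_lit 80)) (z := (nat_lit 320)) (N := (nat_lit 30))
 (ndB (a := (nat_lit 0)) (y := (nat_lit 400)) (z := (nat_lit 400)) (N := (nat_lit 30))
 .nil
 .nil (p013 h).2.1.2.2.1.2.1.1.2 (by decide +kernel))
 .nil (p013 h).2.1.2.2.1.2.1.2.1 (by decide +kernel))
 (ndB (a := (nat_lit 80)) (y := (nat_lit 160)) (z := (nat_lit 320)) (N := (nat_lit 30))
 .nil
 .nil (p013 h).2.1.2.2.1.2.2.1.1 (by decide +kernel)) (p013 h).2.1.2.2.1.2.1.2.2 (by decide +kernel))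
 (ndB (a := (nat_lit 80)) (y := (nat_lit 240)) (z := (nat_lit 400)) (N := (nat_lit 30))
 (ndB (a := (nat_lit 80)) (y := (nat_lit 240)) (z := (nat_lit 320)) (N := (nat_lit 30))
 .nil
 .nil (p013 h).2.1.2.2.1.2.2.2.1 (by decide +kernel))
 (ndB (a := (nat_lit 80)) (y := (nat_lit 320)) (z := (nat_lit 320)) (N := (nat_lit 30))
 .nil
 .nil (p013 h).2.1.2.2.2.1.1.1 (by decide +kernel)) (p013 h).2.1.2.2.1.2.2.2.2 (by decide +kernel)) (p013 h).2.1.2.2.1.2.2.1.2 (by decide +kernel)) (p013 h).2.1.2.2.1.2.1.1.1 (by decide +kernel))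
 (ndB (a := (nat_lit 240)) (y := (nat_lit 240)) (z := (nat_lit 320)) (N := (nat_lit 30))
 (ndB (a := (nat_lit 160)) (y := (nat_lit 240)) (z := (nat_lit 400)) (N := (nat_lit 30))
 (ndB (a := (nat_lit 160)) (y := (nat_lit 160)) (z := (nat_lit 400)) (N := (nat_lit 30))
 (ndB (a := (nat_lit 160)) (y := (nat_lit 160)) (z := (nat_lit 320)) (N := (nat_lit 30))
 (ndB (a := (nat_lit 80)) (y := (nat_lit 400)) (z := (nat_lit 400)) (N := (nat_lit 30))
 .nil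
 .nil (p013 h).2.1.2.2.2.1.1.2.2 (by decide +kernel))
 .nil (p013 h).2.1.2.2.2.1.2.1.1 (by decide +kernel))
 (ndB (a := (nat_lit 160)) (y := (nat_lit 240)) (z := (nat_lit 320)) (N := (nat_lit 30))
 .nil
 .nil (p013 h).2.1.2.2.2.1.2.2.1 (by decide +kernel)) (p013 h).2.1.2.2.2.1.2.1.2 (by decide +kernel))
 (ndB (a := (nat_lit 160)) (y := (nat_lit 320)) (z := (nat_lit 400)) (N := (nat_lit 30))
 (ndB (a := (nat_lit 160)) (y := (nat_lit 320)) (z := (nat_lit 320)) (N := (nat_lit 30))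
 .nil
 .nil (p013 h).2.1.2.2.2.2.1.1.1 (by decide +kernel))
 (ndB (a := (nat_lit 160)) (y := (nat_lit 400)) (z := (nat_lit 400)) (N := (nat_lit 30))
 .nil
 .nil (p013 h).2.1.2.2.2.2.1.2.1 (by decide +kernel)) (p013 h).2.1.2.2.2.2.1.1.2 (by decide +kernel)) (p013 h).2.1.2.2.2.1.2.2.2 (by decide +kernel))
 (ndB (a := (nat_lit 320)) (y := (nat_lit 320)) (z := (nat_lit 320)) (N := (nat_lit 30))
 (ndB (a := (nat_lit 240)) (y := (nat_lit 320)) (z := (nat_lit 400)) (N := (nat_lit 30))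
 (ndB (a := (nat_lit 240)) (y := (nat_lit 320)) (z := (nat_lit 320)) (N := (nat_lit 30))
 (ndB (a := (nat_lit 240)) (y := (nat_lit 240)) (z := (nat_lit 400)) (N := (nat_lit 30))
 .nil
 .nil (p013 h).2.1.2.2.2.2.2.1.1 (by decide +kernel))
 .nil (p013 h).2.1.2.2.2.2.2.1.2 (by decide +kernel))
 (ndB (a := (nat_lit 240)) (y := (nat_lit 400)) (z := (nat_lit 400)) (N := (nat_lit 30))
 .nil
 .nil (p013 h).2.1.2.2.2.2.2.2.2 (by decide +kernel)) (p013 h).2.1.2.2.2.2.2.2.1 (by decide +kernel))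
 (ndB (a := (nat_lit 320)) (y := (nat_lit 400)) (z := (nat_lit 400)) (N := (nat_lit 30))
 (ndB (a := (nat_lit 320)) (y := (nat_lit 320)) (z := (nat_lit 400)) (N := (nat_lit 30))
 .nil
 .nil (p013 h).2.2.1.1.1.1.1.2.1 (by decide +kernel))
 (ndB (a := (nat_lit 400)) (y := (nat_lit 400)) (z := (nat_lit 400)) (N := (nat_lit 30))
 .nil
 .nil (p013 h).2.2.1.1.1.1.2.1.1 (by decide +kernel)) (p013 h).2.2.1.1.1.1.1.2.2 (by decide +kernel)) (p013 h).2.2.1.1.1.1.1.1 (by decide +kernel)) (p013 h).2.1.2.2.2.2.1.2.2 (by decide +kernel)) (p013 h).2.1.2.2.2.1.1.2.1 (by decide +kernel))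
theorem F51_ok (h : RcOK RE.rowE) : F51.OK := .of (by decide +kernel) (T51_ok h)
theorem T52_ok (h : RcOK RE.rowE) : TOK rd52 ks52 T52 := (ndB (a := (nat_lit 240)) (y := (nat_lit 400)) (z := (nat_lit 400)) (N := (nat_lit 20))
 (ndB (a := (nat_lit 240)) (y := (nat_lit 320)) (z := (nat_lit 320)) (N := (nat_lit 20))
 (ndB (a := (nat_lit 240)) (y := (nat_lit 240)) (z := (nat_lit 400)) (N := (nat_lit 20))
 (ndB (a := (nat_lit 240)) (y := (nat_lit 240)) (z := (nat_lit 320)) (N := (nat_lit 20))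
 .nil
 .nil (p013 h).2.2.1.1.1.1.2.1.2 (by decide +kernel))
 .nil (p013 h).2.2.1.1.1.1.2.2.1 (by decide +kernel))
 (ndB (a := (nat_lit 240)) (y := (nat_lit 320)) (z := (nat_lit 400)) (N := (nat_lit 20))
 .nil
 .nil (p013 h).2.2.1.1.1.2.1.1.1 (by decide +kernel)) (p013 h).2.2.1.1.1.1.2.2.2 (by decide +kernel))
 (ndB (a := (nat_lit 320)) (y := (nat_lit 320)) (z := (nat_lit 400)) (N := (nat_lit 20))
 (ndB (a := (nat_lit 320)) (y := (nat_lit 320)) (z := (nat_lit 320)) (N := (nat_lit 20))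
 .nil
 .nil (p013 h).2.2.1.1.1.2.1.2.1 (by decide +kernel))
 (ndB (a := (nat_lit 320)) (y := (nat_lit 400)) (z := (nat_lit 400)) (N := (nat_lit 20))
 .nil
 .nil (p013 h).2.2.1.1.1.2.2.1.1 (by decide +kernel)) (p013 h).2.2.1.1.1.2.1.2.2 (by decide +kernel)) (p013 h).2.2.1.1.1.2.1.1.2 (by decide +kernel))
theorem F52_ok (h : RcOK RE.rowE) : F52.OK := .of (by decide +kernel) (T52_ok h)
theorem T53_ok (h : RcOK RE.rowE) : TOK rd53 ks53 T53 := (ndB (a := (nat_lit 320)) (y := (nat_lit 400)) (z := (nat_lit 400)) (N := (nat_lit 24))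
 (ndB (a := (nat_lit 320)) (y := (nat_lit 320)) (z := (nat_lit 400)) (N := (nat_lit 24))
 (ndB (a := (nat_lit 320)) (y := (nat_lit 320)) (z := (nat_lit 320)) (N := (nat_lit 24))
 .nil
 .nil (p013 h).2.2.1.1.1.2.2.1.2 (by decide +kernel))
 .nil (p013 h).2.2.1.1.1.2.2.2.1 (by decide +kernel))
 (ndB (a := (nat_lit 400)) (y := (nat_lit 400)) (z := (nat_lit 400)) (N := (nat_lit 24))
 .nil
 .nil (p013 h).2.2.1.1.2.1.1.1 (by decide +kernel)) (p013 h).2.2.1.1.1.2.2.2.2 (by decide +kernel))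
theorem F53_ok (h : RcOK RE.rowE) : F53.OK := .of (by decide +kernel) (T53_ok h)
end TC
end Pool.Agent.Lib.MP_6947cd_al
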