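import Pool.Agent.Lib.MP_6947cd_al.TC.F
import Pool.Agent.Lib.MP_6947cd_al.TC.P013
import Pool.Agent.Lib.MP_6947cd_al.TC.P014

/-!
Problem MP_6947cd_al (Chollet).  CASE C, tables and certificates.  The families of tables are correct.
-/

set_option autoImplicit false
set_option linter.all false
set_option maxRecDepth 100000
set_option maxHeartbeats 4000000
namespace Pool.Agent.Lib.MP_6947cd_al
namespace TC
open PkA PkA.TF
theorem T54_ok (h : RcOK RE.rowE) : TOK rd54 ks54 T54 := (ndB (a := (nat_lit 80)) (y := (nat_lit 240)) (z := (nat_lit 320)) (N := (nat_lit 40))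
 (ndB (a := (nat_lit 0)) (y := (nat_lit 240)) (z := (nat_lit 320)) (N := (nat_lit 40))
 (ndB (a := (nat_lit 0)) (y := (nat_lit 80)) (z := (nat_lit 320)) (N := (nat_lit 40))
 (ndB (a := (nat_lit 0)) (y := (nat_lit 0)) (z := (nat_lit 320)) (N := (nat_lit 40))
 (ndB (a := (nat_lit 0)) (y := (nat_lit 0)) (z := (nat_lit 240)) (N := (nat_lit 40))
 (ndB (a := (nat_lit 0)) (y := (nat_lit 0)) (z := (nat_lit 160)) (N := (nat_lit 40))
 .nil
 .nil (p013 h).2.2.1.1.2.1.1.2.1 (by decide +kernel))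
 .nil (p013 h).2.2.1.1.2.1.1.2.2 (by decide +kernel))
 (ndB (a := (nat_lit 0)) (y := (nat_lit 80)) (z := (nat_lit 240)) (N := (nat_lit 40))
 (ndB (a := (nat_lit 0)) (y := (nat_lit 80)) (z := (nat_lit 160)) (N := (nat_lit 40))
 .nil
 .nil (p013 h).2.2.1.1.2.1.2.1.2 (by decide +kernel))
 .nil (p013 h).2.2.1.1.2.1.2.2.1 (by decide +kernel)) (p013 h).2.2.1.1.2.1.2.1.1 (by decide +kernel))
 (ndB (a := (nat_lit 0)) (y := (nat_lit 160)) (z := (nat_lit 320)) (N := (nat_lit 40))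
 (ndB (a := (nat_lit 0)) (y := (nat_lit 160)) (z := (nat_lit 240)) (N := (nat_lit 40))
 (ndB (a := (nat_lit 0)) (y := (nat_lit 160)) (z := (nat_lit 160)) (N := (nat_lit 40))
 .nil
 .nil (p013 h).2.2.1.1.2.2.1.1.1 (by decide +kernel))
 .nil (p013 h).2.2.1.1.2.2.1.1.2 (by decide +kernel))
 (ndB (a := (nat_lit 0)) (y := (nat_lit 240)) (z := (nat_lit 240)) (N := (nat_lit 40))
 (ndB (a := (nat_lit 0)) (y := (nat_lit 160)) (z := (nat_lit 400)) (N := (nat_lit 40))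
 .nil
 .nil (p013 h).2.2.1.1.2.2.1.2.2 (by decide +kernel))
 .nil (p013 h).2.2.1.1.2.2.2.1.1 (by decide +kernel)) (p013 h).2.2.1.1.2.2.1.2.1 (by decide +kernel)) (p013 h).2.2.1.1.2.1.2.2.2 (by decide +kernel))
 (ndB (a := (nat_lit 80)) (y := (nat_lit 80)) (z := (nat_lit 320)) (N := (nat_lit 40))
 (ndB (a := (nat_lit 0)) (y := (nat_lit 320)) (z := (nat_lit 400)) (N := (nat_lit 40))
 (ndB (a := (nat_lit 0)) (y := (nat_lit 320)) (z := (nat_lit 320)) (N := (nat_lit 40))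
 (ndB (a := (nat_lit 0)) (y := (nat_lit 240)) (z := (nat_lit 400)) (N := (nat_lit 40))
 .nil
 .nil (p013 h).2.2.1.1.2.2.2.2.1 (by decide +kernel))
 .nil (p013 h).2.2.1.1.2.2.2.2.2 (by decide +kernel))
 (ndB (a := (nat_lit 80)) (y := (nat_lit 80)) (z := (nat_lit 240)) (N := (nat_lit 40))
 (ndB (a := (nat_lit 80)) (y := (nat_lit 80)) (z := (nat_lit 160)) (N := (nat_lit 40))
 .nil
 .nil (p013 h).2.2.1.2.1.1.1.2.1 (by decide +kernel))
 .nil (p013 h).2.2.1.2.1.1.1.2.2 (by decide +kernel)) (p013 h).2.2.1.2.1.1.1.1 (by decide +kernel))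
 (ndB (a := (nat_lit 80)) (y := (nat_lit 160)) (z := (nat_lit 320)) (N := (nat_lit 40))
 (ndB (a := (nat_lit 80)) (y := (nat_lit 160)) (z := (nat_lit 240)) (N := (nat_lit 40))
 (ndB (a := (nat_lit 80)) (y := (nat_lit 160)) (z := (nat_lit 160)) (N := (nat_lit 40))
 .nil
 .nil (p013 h).2.2.1.2.1.1.2.1.2 (by decide +kernel))
 .nil (p013 h).2.2.1.2.1.1.2.2.1 (by decide +kernel))
 (ndB (a := (nat_lit 80)) (y := (nat_lit 240)) (z := (nat_lit 240)) (N := (nat_lit 40))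
 (ndB (a := (nat_lit 80)) (y := (nat_lit 160)) (z := (nat_lit 400)) (N := (nat_lit 40))
 .nil
 .nil (p013 h).2.2.1.2.1.2.1.1.1 (by decide +kernel))
 .nil (p013 h).2.2.1.2.1.2.1.1.2 (by decide +kernel)) (p013 h).2.2.1.2.1.1.2.2.2 (by decide +kernel)) (p013 h).2.2.1.2.1.1.2.1.1 (by decide +kernel)) (p013 h).2.2.1.1.2.2.2.1.2 (by decide +kernel))
 (ndB (a := (nat_lit 160)) (y := (nat_lit 320)) (z := (nat_lit 400)) (N := (nat_lit 40))
 (ndB (a := (nat_lit 160)) (y := (nat_lit 160)) (z := (nat_lit 320)) (N := (nat_lit 40))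
 (ndB (a := (nat_lit 80)) (y := (nat_lit 320)) (z := (nat_lit 400)) (N := (nat_lit 40))
 (ndB (a := (nat_lit 80)) (y := (nat_lit 320)) (z := (nat_lit 320)) (N := (nat_lit 40))
 (ndB (a := (nat_lit 80)) (y := (nat_lit 240)) (z := (nat_lit 400)) (N := (nat_lit 40))
 .nil
 .nil (p013 h).2.2.1.2.1.2.1.2.2 (by decide +kernel))
 .nil (p013 h).2.2.1.2.1.2.2.1.1 (by decide +kernel))
 (ndB (a := (nat_lit 160)) (y := (nat_lit 160)) (z := (nat_lit 240)) (N := (nat_lit 40))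
 (ndB (a := (nat_lit 160)) (y := (nat_lit 160)) (z := (nat_lit 160)) (N := (nat_lit 40))
 .nil
 .nil (p013 h).2.2.1.2.1.2.2.2.1 (by decide +kernel))
 .nil (p013 h).2.2.1.2.1.2.2.2.2 (by decide +kernel)) (p013 h).2.2.1.2.1.2.2.1.2 (by decide +kernel))
 (ndB (a := (nat_lit 160)) (y := (nat_lit 240)) (z := (nat_lit 320)) (N := (nat_lit 40))
 (ndB (a := (nat_lit 160)) (y := (nat_lit 240)) (z := (nat_lit 240)) (N := (nat_lit 40))
 (ndB (a := (nat_lit 160)) (y := (nat_lit 160)) (z := (nat_lit 400)) (N := (nat_lit 40))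
 .nil
 .nil (p013 h).2.2.1.2.2.1.1.2.1 (by decide +kernel))
 .nil (p013 h).2.2.1.2.2.1.1.2.2 (by decide +kernel))
 (ndB (a := (nat_lit 160)) (y := (nat_lit 320)) (z := (nat_lit 320)) (N := (nat_lit 40))
 (ndB (a := (nat_lit 160)) (y := (nat_lit 240)) (z := (nat_lit 400)) (N := (nat_lit 40))
 .nil
 .nil (p013 h).2.2.1.2.2.1.2.1.2 (by decide +kernel))
 .nil (p013 h).2.2.1.2.2.1.2.2.1 (by decide +kernel)) (p013 h).2.2.1.2.2.1.2.1.1 (by decide +kernel)) (p013 h).2.2.1.2.2.1.1.1 (by decide +kernel))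
 (ndB (a := (nat_lit 240)) (y := (nat_lit 320)) (z := (nat_lit 400)) (N := (nat_lit 40))
 (ndB (a := (nat_lit 240)) (y := (nat_lit 240)) (z := (nat_lit 320)) (N := (nat_lit 40))
 (ndB (a := (nat_lit 240)) (y := (nat_lit 240)) (z := (nat_lit 240)) (N := (nat_lit 40))
 (ndB (a := (nat_lit 160)) (y := (nat_lit 400)) (z := (nat_lit 400)) (N := (nat_lit 40))
 .nil
 .nil (p013 h).2.2.1.2.2.2.1.1.1 (by decide +kernel))
 .nil (p013 h).2.2.1.2.2.2.1.1.2 (by decide +kernel))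
 (ndB (a := (nat_lit 240)) (y := (nat_lit 320)) (z := (nat_lit 320)) (N := (nat_lit 40))
 (ndB (a := (nat_lit 240)) (y := (nat_lit 240)) (z := (nat_lit 400)) (N := (nat_lit 40))
 .nil
 .nil (p013 h).2.2.1.2.2.2.1.2.2 (by decide +kernel))
 .nil (p013 h).2.2.1.2.2.2.2.1.1 (by decide +kernel)) (p013 h).2.2.1.2.2.2.1.2.1 (by decide +kernel))
 (ndB (a := (nat_lit 320)) (y := (nat_lit 320)) (z := (nat_lit 400)) (N := (nat_lit 40))
 (ndB (a := (nat_lit 320)) (y := (nat_lit 320)) (z := (nat_lit 320)) (N := (nat_lit 40))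
 (ndB (a := (nat_lit 240)) (y := (nat_lit 400)) (z := (nat_lit 400)) (N := (nat_lit 40))
 .nil
 .nil (p013 h).2.2.1.2.2.2.2.2.1 (by decide +kernel))
 .nil (p013 h).2.2.1.2.2.2.2.2.2 (by decide +kernel))
 (ndB (a := (nat_lit 320)) (y := (nat_lit 400)) (z := (nat_lit 400)) (N := (nat_lit 40))
 .nil
 .nil (p013 h).2.2.2.1.1.1.1.2.1 (by decide +kernel)) (p013 h).2.2.2.1.1.1.1.1 (by decide +kernel)) (p013 h).2.2.1.2.2.2.2.1.2 (by decide +kernel)) (p013 h).2.2.1.2.2.1.2.2.2 (by decide +kernel)) (p013 h).2.2.1.2.1.2.1.2.1 (by decide +kernel))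
theorem F54_ok (h : RcOK RE.rowE) : F54.OK := .of (by decide +kernel) (T54_ok h)
theorem T55_ok (h : RcOK RE.rowE) : TOK rd55 ks55 T55 := (ndB (a := (nat_lit 80)) (y := (nat_lit 240)) (z := (nat_lit 400)) (N := (nat_lit 26))
 (ndB (a := (nat_lit 0)) (y := (nat_lit 320)) (z := (nat_lit 320)) (N := (nat_lit 26))
 (ndB (a := (nat_lit 0)) (y := (nat_lit 160)) (z := (nat_lit 240)) (N := (nat_lit 26))
 (ndB (a := (nat_lit 0)) (y := (nat_lit 80)) (z := (nat_lit 240)) (N := (nat_lit 26))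
 (ndB (a := (nat_lit 0)) (y := (nat_lit 0)) (z := (nat_lit 320)) (N := (nat_lit 26))
 (ndB (a := (nat_lit 0)) (y := (nat_lit 0)) (z := (nat_lit 240)) (N := (nat_lit 26))
 .nil
 .nil (p013 h).2.2.2.1.1.1.1.2.2 (by decide +kernel))
 .nil (p013 h).2.2.2.1.1.1.2.1.1 (by decide +kernel))
 (ndB (a := (nat_lit 0)) (y := (nat_lit 80)) (z := (nat_lit 400)) (N := (nat_lit 26))
 (ndB (a := (nat_lit 0)) (y := (nat_lit 80)) (z := (nat_lit 320)) (N := (nat_lit 26))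
 .nil
 .nil (p013 h).2.2.2.1.1.1.2.2.1 (by decide +kernel))
 .nil (p013 h).2.2.2.1.1.1.2.2.2 (by decide +kernel)) (p013 h).2.2.2.1.1.1.2.1.2 (by decide +kernel))
 (ndB (a := (nat_lit 0)) (y := (nat_lit 240)) (z := (nat_lit 240)) (N := (nat_lit 26))
 (ndB (a := (nat_lit 0)) (y := (nat_lit 160)) (z := (nat_lit 400)) (N := (nat_lit 26))
 (ndB (a := (nat_lit 0)) (y := (nat_lit 160)) (z := (nat_lit 320)) (N := (nat_lit 26))
 .nil
 .nil (p013 h).2.2.2.1.1.2.1.1.2 (by decide +kernel))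
 .nil (p013 h).2.2.2.1.1.2.1.2.1 (by decide +kernel))
 (ndB (a := (nat_lit 0)) (y := (nat_lit 240)) (z := (nat_lit 400)) (N := (nat_lit 26))
 (ndB (a := (nat_lit 0)) (y := (nat_lit 240)) (z := (nat_lit 320)) (N := (nat_lit 26))
 .nil
 .nil (p013 h).2.2.2.1.1.2.2.1.1 (by decide +kernel))
 .nil (p013 h).2.2.2.1.1.2.2.1.2 (by decide +kernel)) (p013 h).2.2.2.1.1.2.1.2.2 (by decide +kernel)) (p013 h).2.2.2.1.1.2.1.1.1 (by decide +kernel))
 (ndB (a := (nat_lit 80)) (y := (nat_lit 160)) (z := (nat_lit 240)) (N := (nat_lit 26))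
 (ndB (a := (nat_lit 80)) (y := (nat_lit 80)) (z := (nat_lit 240)) (N := (nat_lit 26))
 (ndB (a := (nat_lit 0)) (y := (nat_lit 400)) (z := (nat_lit 400)) (N := (nat_lit 26))
 (ndB (a := (nat_lit 0)) (y := (nat_lit 320)) (z := (nat_lit 400)) (N := (nat_lit 26))
 .nil
 .nil (p013 h).2.2.2.1.1.2.2.2.2 (by decide +kernel))
 .nil (p013 h).2.2.2.1.2.1.1.1 (by decide +kernel))
 (ndB (a := (nat_lit 80)) (y := (nat_lit 80)) (z := (nat_lit 400)) (N := (nat_lit 26))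
 (ndB (a := (nat_lit 80)) (y := (nat_lit 80)) (z := (nat_lit 320)) (N := (nat_lit 26))
 .nil
 .nil (p013 h).2.2.2.1.2.1.1.2.2 (by decide +kernel))
 .nil (p013 h).2.2.2.1.2.1.2.1.1 (by decide +kernel)) (p013 h).2.2.2.1.2.1.1.2.1 (by decide +kernel))
 (ndB (a := (nat_lit 80)) (y := (nat_lit 240)) (z := (nat_lit 240)) (N := (nat_lit 26))
 (ndB (a := (nat_lit 80)) (y := (nat_lit 160)) (z := (nat_lit 400)) (N := (nat_lit 26))
 (ndB (a := (nat_lit 80)) (y := (nat_lit 160)) (z := (nat_lit 320)) (N := (nat_lit 26))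
 .nil
 .nil (p013 h).2.2.2.1.2.1.2.2.1 (by decide +kernel))
 .nil (p013 h).2.2.2.1.2.1.2.2.2 (by decide +kernel))
 (ndB (a := (nat_lit 80)) (y := (nat_lit 240)) (z := (nat_lit 320)) (N := (nat_lit 26))
 .nil
 .nil (p013 h).2.2.2.1.2.2.1.1.2 (by decide +kernel)) (p013 h).2.2.2.1.2.2.1.1.1 (by decide +kernel)) (p013 h).2.2.2.1.2.1.2.1.2 (by decide +kernel)) (p013 h).2.2.2.1.1.2.2.2.1 (by decide +kernel))
 (ndB (a := (nat_lit 160)) (y := (nat_lit 400)) (z := (nat_lit 400)) (N := (nat_lit 26))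
 (ndB (a := (nat_lit 160)) (y := (nat_lit 160)) (z := (nat_lit 400)) (N := (nat_lit 26))
 (ndB (a := (nat_lit 80)) (y := (nat_lit 400)) (z := (nat_lit 400)) (N := (nat_lit 26))
 (ndB (a := (nat_lit 80)) (y := (nat_lit 320)) (z := (nat_lit 400)) (N := (nat_lit 26))
 (ndB (a := (nat_lit 80)) (y := (nat_lit 320)) (z := (nat_lit 320)) (N := (nat_lit 26))
 .nil
 .nil (p013 h).2.2.2.1.2.2.1.2.2 (by decide +kernel))
 .nil (p013 h).2.2.2.1.2.2.2.1.1 (by decide +kernel))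
 (ndB (a := (nat_lit 160)) (y := (nat_lit 160)) (z := (nat_lit 320)) (N := (nat_lit 26))
 (ndB (a := (nat_lit 160)) (y := (nat_lit 160)) (z := (nat_lit 240)) (N := (nat_lit 26))
 .nil
 .nil (p013 h).2.2.2.1.2.2.2.2.1 (by decide +kernel))
 .nil (p013 h).2.2.2.1.2.2.2.2.2 (by decide +kernel)) (p013 h).2.2.2.1.2.2.2.1.2 (by decide +kernel))
 (ndB (a := (nat_lit 160)) (y := (nat_lit 240)) (z := (nat_lit 400)) (N := (nat_lit 26))
 (ndB (a := (nat_lit 160)) (y := (nat_lit 240)) (z := (nat_lit 320)) (N := (nat_lit 26))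
 (ndB (a := (nat_lit 160)) (y := (nat_lit 240)) (z := (nat_lit 240)) (N := (nat_lit 26))
 .nil
 .nil (p013 h).2.2.2.2.1.1.1.2.1 (by decide +kernel))
 .nil (p013 h).2.2.2.2.1.1.1.2.2 (by decide +kernel))
 (ndB (a := (nat_lit 160)) (y := (nat_lit 320)) (z := (nat_lit 400)) (N := (nat_lit 26))
 (ndB (a := (nat_lit 160)) (y := (nat_lit 320)) (z := (nat_lit 320)) (N := (nat_lit 26))
 .nil
 .nil (p013 h).2.2.2.2.1.1.2.1.2 (by decide +kernel))
 .nil (p013 h).2.2.2.2.1.1.2.2.1 (by decide +kernel)) (p013 h).2.2.2.2.1.1.2.1.1 (by decide +kernel)) (p013 h).2.2.2.2.1.1.1.1 (by decide +kernel))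
 (ndB (a := (nat_lit 240)) (y := (nat_lit 400)) (z := (nat_lit 400)) (N := (nat_lit 26))
 (ndB (a := (nat_lit 240)) (y := (nat_lit 240)) (z := (nat_lit 400)) (N := (nat_lit 26))
 (ndB (a := (nat_lit 240)) (y := (nat_lit 240)) (z := (nat_lit 320)) (N := (nat_lit 26))
 (ndB (a := (nat_lit 240)) (y := (nat_lit 240)) (z := (nat_lit 240)) (N := (nat_lit 26))
 .nil
 .nil (p013 h).2.2.2.2.1.2.1.1.1 (by decide +kernel))
 .nil (p013 h).2.2.2.2.1.2.1.1.2 (by decide +kernel))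
 (ndB (a := (nat_lit 240)) (y := (nat_lit 320)) (z := (nat_lit 400)) (N := (nat_lit 26))
 (ndB (a := (nat_lit 240)) (y := (nat_lit 320)) (z := (nat_lit 320)) (N := (nat_lit 26))
 .nil
 .nil (p013 h).2.2.2.2.1.2.1.2.2 (by decide +kernel))
 .nil (p013 h).2.2.2.2.1.2.2.1.1 (by decide +kernel)) (p013 h).2.2.2.2.1.2.1.2.1 (by decide +kernel))
 (ndB (a := (nat_lit 320)) (y := (nat_lit 400)) (z := (nat_lit 400)) (N := (nat_lit 26))
 (ndB (a := (nat_lit 320)) (y := (nat_lit 320)) (z := (nat_lit 400)) (N := (nat_lit 26))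
 (ndB (a := (nat_lit 320)) (y := (nat_lit 320)) (z := (nat_lit 320)) (N := (nat_lit 26))
 .nil
 .nil (p013 h).2.2.2.2.1.2.2.2.1 (by decide +kernel))
 .nil (p013 h).2.2.2.2.1.2.2.2.2 (by decide +kernel))
 (ndB (a := (nat_lit 400)) (y := (nat_lit 400)) (z := (nat_lit 400)) (N := (nat_lit 26))
 .nil
 .nil (p013 h).2.2.2.2.2.1.1.1.2 (by decide +kernel)) (p013 h).2.2.2.2.2.1.1.1.1 (by decide +kernel)) (p013 h).2.2.2.2.1.2.2.1.2 (by decide +kernel)) (p013 h).2.2.2.2.1.1.2.2.2 (by decide +kernel)) (p013 h).2.2.2.1.2.2.1.2.1 (by decide +kernel))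
theorem F55_ok (h : RcOK RE.rowE) : F55.OK := .of (by decide +kernel) (T55_ok h)
theorem T56_ok (h : RcOK RE.rowE) : TOK rd56 ks56 T56 := (ndB (a := (nat_lit 80)) (y := (nat_lit 400)) (z := (nat_lit 400)) (N := (nat_lit 24))
 (ndB (a := (nat_lit 0)) (y := (nat_lit 400)) (z := (nat_lit 400)) (N := (nat_lit 24))
 (ndB (a := (nat_lit 0)) (y := (nat_lit 240)) (z := (nat_lit 320)) (N := (nat_lit 24))
 (ndB (a := (nat_lit 0)) (y := (nat_lit 160)) (z := (nat_lit 320)) (N := (nat_lit 24))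
 (ndB (a := (nat_lit 0)) (y := (nat_lit 80)) (z := (nat_lit 400)) (N := (nat_lit 24))
 (ndB (a := (nat_lit 0)) (y := (nat_lit 80)) (z := (nat_lit 320)) (N := (nat_lit 24))
 .nil
 .nil (p013 h).2.2.2.2.2.1.1.2.1 (by decide +kernel))
 .nil (p013 h).2.2.2.2.2.1.1.2.2 (by decide +kernel))
 (ndB (a := (nat_lit 0)) (y := (nat_lit 160)) (z := (nat_lit 400)) (N := (nat_lit 24))
 .nil
 .nil (p013 h).2.2.2.2.2.1.2.1.2 (by decide +kernel)) (p013 h).2.2.2.2.2.1.2.1.1 (by decide +kernel))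
 (ndB (a := (nat_lit 0)) (y := (nat_lit 320)) (z := (nat_lit 320)) (N := (nat_lit 24))
 (ndB (a := (nat_lit 0)) (y := (nat_lit 240)) (z := (nat_lit 400)) (N := (nat_lit 24))
 .nil
 .nil (p013 h).2.2.2.2.2.1.2.2.2 (by decide +kernel))
 (ndB (a := (nat_lit 0)) (y := (nat_lit 320)) (z := (nat_lit 400)) (N := (nat_lit 24))
 .nil
 .nil (p013 h).2.2.2.2.2.2.1.1.2 (by decide +kernel)) (p013 h).2.2.2.2.2.2.1.1.1 (by decide +kernel)) (p013 h).2.2.2.2.2.1.2.2.1 (by decide +kernel))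
 (ndB (a := (nat_lit 80)) (y := (nat_lit 240)) (z := (nat_lit 320)) (N := (nat_lit 24))
 (ndB (a := (nat_lit 80)) (y := (nat_lit 160)) (z := (nat_lit 320)) (N := (nat_lit 24))
 (ndB (a := (nat_lit 80)) (y := (nat_lit 80)) (z := (nat_lit 400)) (N := (nat_lit 24))
 (ndB (a := (nat_lit 80)) (y := (nat_lit 80)) (z := (nat_lit 320)) (N := (nat_lit 24))
 .nil
 .nil (p013 h).2.2.2.2.2.2.1.2.2 (by decide +kernel))
 .nil (p013 h).2.2.2.2.2.2.2.1.1 (by decide +kernel))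
 (ndB (a := (nat_lit 80)) (y := (nat_lit 160)) (z := (nat_lit 400)) (N := (nat_lit 24))
 .nil
 .nil (p013 h).2.2.2.2.2.2.2.2.1 (by decide +kernel)) (p013 h).2.2.2.2.2.2.2.1.2 (by decide +kernel))
 (ndB (a := (nat_lit 80)) (y := (nat_lit 320)) (z := (nat_lit 320)) (N := (nat_lit 24))
 (ndB (a := (nat_lit 80)) (y := (nat_lit 240)) (z := (nat_lit 400)) (N := (nat_lit 24))
 .nil
 .nil (p014 h).1.1.1.1.1.1.1.1 (by decide +kernel))
 (ndB (a := (nat_lit 80)) (y := (nat_lit 320)) (z := (nat_lit 400)) (N := (nat_lit 24))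
 .nil
 .nil (p014 h).1.1.1.1.1.1.1.2.2 (by decide +kernel)) (p014 h).1.1.1.1.1.1.1.2.1 (by decide +kernel)) (p013 h).2.2.2.2.2.2.2.2.2 (by decide +kernel)) (p013 h).2.2.2.2.2.2.1.2.1 (by decide +kernel))
 (ndB (a := (nat_lit 240)) (y := (nat_lit 240)) (z := (nat_lit 400)) (N := (nat_lit 24))
 (ndB (a := (nat_lit 160)) (y := (nat_lit 320)) (z := (nat_lit 320)) (N := (nat_lit 24))
 (ndB (a := (nat_lit 160)) (y := (nat_lit 240)) (z := (nat_lit 320)) (N := (nat_lit 24))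
 (ndB (a := (nat_lit 160)) (y := (nat_lit 160)) (z := (nat_lit 400)) (N := (nat_lit 24))
 (ndB (a := (nat_lit 160)) (y := (nat_lit 160)) (z := (nat_lit 320)) (N := (nat_lit 24))
 .nil
 .nil (p014 h).1.1.1.1.1.1.2.2.1 (by decide +kernel))
 .nil (p014 h).1.1.1.1.1.1.2.2.2 (by decide +kernel))
 (ndB (a := (nat_lit 160)) (y := (nat_lit 240)) (z := (nat_lit 400)) (N := (nat_lit 24))
 .nil
 .nil (p014 h).1.1.1.1.1.2.1.2.1 (by decide +kernel)) (p014 h).1.1.1.1.1.2.1.1 (by decide +kernel))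
 (ndB (a := (nat_lit 160)) (y := (nat_lit 400)) (z := (nat_lit 400)) (N := (nat_lit 24))
 (ndB (a := (nat_lit 160)) (y := (nat_lit 320)) (z := (nat_lit 400)) (N := (nat_lit 24))
 .nil
 .nil (p014 h).1.1.1.1.1.2.2.1.1 (by decide +kernel))
 (ndB (a := (nat_lit 240)) (y := (nat_lit 240)) (z := (nat_lit 320)) (N := (nat_lit 24))
 .nil
 .nil (p014 h).1.1.1.1.1.2.2.2.1 (by decide +kernel)) (p014 h).1.1.1.1.1.2.2.1.2 (by decide +kernel)) (p014 h).1.1.1.1.1.2.1.2.2 (by decide +kernel))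
 (ndB (a := (nat_lit 320)) (y := (nat_lit 320)) (z := (nat_lit 320)) (N := (nat_lit 24))
 (ndB (a := (nat_lit 240)) (y := (nat_lit 320)) (z := (nat_lit 400)) (N := (nat_lit 24))
 (ndB (a := (nat_lit 240)) (y := (nat_lit 320)) (z := (nat_lit 320)) (N := (nat_lit 24))
 .nil
 .nil (p014 h).1.1.1.1.2.1.1.1 (by decide +kernel))
 (ndB (a := (nat_lit 240)) (y := (nat_lit 400)) (z := (nat_lit 400)) (N := (nat_lit 24))
 .nil
 .nil (p014 h).1.1.1.1.2.1.1.2.2 (by decide +kernel)) (p014 h).1.1.1.1.2.1.1.2.1 (by decide +kernel))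
 (ndB (a := (nat_lit 320)) (y := (nat_lit 400)) (z := (nat_lit 400)) (N := (nat_lit 24))
 (ndB (a := (nat_lit 320)) (y := (nat_lit 320)) (z := (nat_lit 400)) (N := (nat_lit 24))
 .nil
 .nil (p014 h).1.1.1.1.2.1.2.2.1 (by decide +kernel))
 (ndB (a := (nat_lit 400)) (y := (nat_lit 400)) (z := (nat_lit 400)) (N := (nat_lit 24))
 .nil
 .nil (p014 h).1.1.1.1.2.2.1.1 (by decide +kernel)) (p014 h).1.1.1.1.2.1.2.2.2 (by decide +kernel)) (p014 h).1.1.1.1.2.1.2.1 (by decide +kernel)) (p014 h).1.1.1.1.1.2.2.2.2 (by decide +kernel)) (p014 h).1.1.1.1.1.1.2.1 (by decide +kernel))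
theorem F56_ok (h : RcOK RE.rowE) : F56.OK := .of (by decide +kernel) (T56_ok h)
theorem T57_ok (h : RcOK RE.rowE) : TOK rd57 ks57 T57 := (ndB (a := (nat_lit 320)) (y := (nat_lit 400)) (z := (nat_lit 400)) (N := (nat_lit 22))
 (ndB (a := (nat_lit 320)) (y := (nat_lit 320)) (z := (nat_lit 400)) (N := (nat_lit 22))
 (ndB (a := (nat_lit 320)) (y := (nat_lit 320)) (z := (nat_lit 320)) (N := (nat_lit 22))
 .nil
 .nil (p014 h).1.1.1.1.2.2.1.2.1 (by decide +kernel))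
 .nil (p014 h).1.1.1.1.2.2.1.2.2 (by decide +kernel))
 (ndB (a := (nat_lit 400)) (y := (nat_lit 400)) (z := (nat_lit 400)) (N := (nat_lit 22))
 .nil
 .nil (p014 h).1.1.1.1.2.2.2.1.2 (by decide +kernel)) (p014 h).1.1.1.1.2.2.2.1.1 (by decide +kernel))
theorem F57_ok (h : RcOK RE.rowE) : F57.OK := .of (by decide +kernel) (T57_ok h)
theorem T58_ok (h : RcOK RE.rowE) : TOK rd58 ks58 T58 := (ndB (a := (nat_lit 80)) (y := (nat_lit 240)) (z := (nat_lit 320)) (N := (nat_lit 34))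
 (ndB (a := (nat_lit 0)) (y := (nat_lit 240)) (z := (nat_lit 320)) (N := (nat_lit 34))
 (ndB (a := (nat_lit 0)) (y := (nat_lit 80)) (z := (nat_lit 320)) (N := (nat_lit 34))
 (ndB (a := (nat_lit 0)) (y := (nat_lit 0)) (z := (nat_lit 320)) (N := (nat_lit 34))
 (ndB (a := (nat_lit 0)) (y := (nat_lit 0)) (z := (nat_lit 240)) (N := (nat_lit 34))
 (ndB (a := (nat_lit 0)) (y := (nat_lit 0)) (z := (nat_lit 160)) (N := (nat_lit 34))
 .nil
 .nil (p014 h).1.1.1.1.2.2.2.2.1 (by decide +kernel))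
 .nil (p014 h).1.1.1.1.2.2.2.2.2 (by decide +kernel))
 (ndB (a := (nat_lit 0)) (y := (nat_lit 80)) (z := (nat_lit 240)) (N := (nat_lit 34))
 (ndB (a := (nat_lit 0)) (y := (nat_lit 80)) (z := (nat_lit 160)) (N := (nat_lit 34))
 .nil
 .nil (p014 h).1.1.1.2.1.1.1.2.1 (by decide +kernel))
 .nil (p014 h).1.1.1.2.1.1.1.2.2 (by decide +kernel)) (p014 h).1.1.1.2.1.1.1.1 (by decide +kernel))
 (ndB (a := (nat_lit 0)) (y := (nat_lit 160)) (z := (nat_lit 320)) (N := (nat_lit 34))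
 (ndB (a := (nat_lit 0)) (y := (nat_lit 160)) (z := (nat_lit 240)) (N := (nat_lit 34))
 (ndB (a := (nat_lit 0)) (y := (nat_lit 160)) (z := (nat_lit 160)) (N := (nat_lit 34))
 .nil
 .nil (p014 h).1.1.1.2.1.1.2.2.1 (by decide +kernel))
 .nil (p014 h).1.1.1.2.1.1.2.2.2 (by decide +kernel))
 (ndB (a := (nat_lit 0)) (y := (nat_lit 240)) (z := (nat_lit 240)) (N := (nat_lit 34))
 (ndB (a := (nat_lit 0)) (y := (nat_lit 160)) (z := (nat_lit 400)) (N := (nat_lit 34))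
 .nil
 .nil (p014 h).1.1.1.2.1.2.1.2.1 (by decide +kernel))
 .nil (p014 h).1.1.1.2.1.2.1.2.2 (by decide +kernel)) (p014 h).1.1.1.2.1.2.1.1 (by decide +kernel)) (p014 h).1.1.1.2.1.1.2.1 (by decide +kernel))
 (ndB (a := (nat_lit 80)) (y := (nat_lit 80)) (z := (nat_lit 320)) (N := (nat_lit 34))
 (ndB (a := (nat_lit 0)) (y := (nat_lit 320)) (z := (nat_lit 400)) (N := (nat_lit 34))
 (ndB (a := (nat_lit 0)) (y := (nat_lit 320)) (z := (nat_lit 320)) (N := (nat_lit 34))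
 (ndB (a := (nat_lit 0)) (y := (nat_lit 240)) (z := (nat_lit 400)) (N := (nat_lit 34))
 .nil
 .nil (p014 h).1.1.1.2.1.2.2.1.2 (by decide +kernel))
 .nil (p014 h).1.1.1.2.1.2.2.2.1 (by decide +kernel))
 (ndB (a := (nat_lit 80)) (y := (nat_lit 80)) (z := (nat_lit 240)) (N := (nat_lit 34))
 (ndB (a := (nat_lit 80)) (y := (nat_lit 80)) (z := (nat_lit 160)) (N := (nat_lit 34))
 .nil
 .nil (p014 h).1.1.1.2.2.1.1.1 (by decide +kernel))
 .nil (p014 h).1.1.1.2.2.1.1.2.1 (by decide +kernel)) (p014 h).1.1.1.2.1.2.2.2.2 (by decide +kernel))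
 (ndB (a := (nat_lit 80)) (y := (nat_lit 160)) (z := (nat_lit 320)) (N := (nat_lit 34))
 (ndB (a := (nat_lit 80)) (y := (nat_lit 160)) (z := (nat_lit 240)) (N := (nat_lit 34))
 (ndB (a := (nat_lit 80)) (y := (nat_lit 160)) (z := (nat_lit 160)) (N := (nat_lit 34))
 .nil
 .nil (p014 h).1.1.1.2.2.1.2.1 (by decide +kernel))
 .nil (p014 h).1.1.1.2.2.1.2.2.1 (by decide +kernel))
 (ndB (a := (nat_lit 80)) (y := (nat_lit 240)) (z := (nat_lit 240)) (N := (nat_lit 34))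
 (ndB (a := (nat_lit 80)) (y := (nat_lit 160)) (z := (nat_lit 400)) (N := (nat_lit 34))
 .nil
 .nil (p014 h).1.1.1.2.2.2.1.1 (by decide +kernel))
 .nil (p014 h).1.1.1.2.2.2.1.2.1 (by decide +kernel)) (p014 h).1.1.1.2.2.1.2.2.2 (by decide +kernel)) (p014 h).1.1.1.2.2.1.1.2.2 (by decide +kernel)) (p014 h).1.1.1.2.1.2.2.1.1 (by decide +kernel))
 (ndB (a := (nat_lit 160)) (y := (nat_lit 320)) (z := (nat_lit 400)) (N := (nat_lit 34))
 (ndB (a := (nat_lit 160)) (y := (nat_lit 160)) (z := (nat_lit 320)) (N := (nat_lit 34))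
 (ndB (a := (nat_lit 80)) (y := (nat_lit 320)) (z := (nat_lit 400)) (N := (nat_lit 34))
 (ndB (a := (nat_lit 80)) (y := (nat_lit 320)) (z := (nat_lit 320)) (N := (nat_lit 34))
 (ndB (a := (nat_lit 80)) (y := (nat_lit 240)) (z := (nat_lit 400)) (N := (nat_lit 34))
 .nil
 .nil (p014 h).1.1.1.2.2.2.2.1.1 (by decide +kernel))
 .nil (p014 h).1.1.1.2.2.2.2.1.2 (by decide +kernel))
 (ndB (a := (nat_lit 160)) (y := (nat_lit 160)) (z := (nat_lit 240)) (N := (nat_lit 34))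
 (ndB (a := (nat_lit 160)) (y := (nat_lit 160)) (z := (nat_lit 160)) (N := (nat_lit 34))
 .nil
 .nil (p014 h).1.1.1.2.2.2.2.2.2 (by decide +kernel))
 .nil (p014 h).1.1.2.1.1.1.1.1 (by decide +kernel)) (p014 h).1.1.1.2.2.2.2.2.1 (by decide +kernel))
 (ndB (a := (nat_lit 160)) (y := (nat_lit 240)) (z := (nat_lit 320)) (N := (nat_lit 34))
 (ndB (a := (nat_lit 160)) (y := (nat_lit 240)) (z := (nat_lit 240)) (N := (nat_lit 34))
 (ndB (a := (nat_lit 160)) (y := (nat_lit 160)) (z := (nat_lit 400)) (N := (nat_lit 34))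
 .nil
 .nil (p014 h).1.1.2.1.1.1.1.2.2 (by decide +kernel))
 .nil (p014 h).1.1.2.1.1.1.2.1 (by decide +kernel))
 (ndB (a := (nat_lit 160)) (y := (nat_lit 320)) (z := (nat_lit 320)) (N := (nat_lit 34))
 (ndB (a := (nat_lit 160)) (y := (nat_lit 240)) (z := (nat_lit 400)) (N := (nat_lit 34))
 .nil
 .nil (p014 h).1.1.2.1.1.1.2.2.2 (by decide +kernel))
 .nil (p014 h).1.1.2.1.1.2.1.1 (by decide +kernel)) (p014 h).1.1.2.1.1.1.2.2.1 (by decide +kernel)) (p014 h).1.1.2.1.1.1.1.2.1 (by decide +kernel))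
 (ndB (a := (nat_lit 240)) (y := (nat_lit 320)) (z := (nat_lit 400)) (N := (nat_lit 34))
 (ndB (a := (nat_lit 240)) (y := (nat_lit 240)) (z := (nat_lit 320)) (N := (nat_lit 34))
 (ndB (a := (nat_lit 240)) (y := (nat_lit 240)) (z := (nat_lit 240)) (N := (nat_lit 34))
 (ndB (a := (nat_lit 160)) (y := (nat_lit 400)) (z := (nat_lit 400)) (N := (nat_lit 34))
 .nil
 .nil (p014 h).1.1.2.1.1.2.1.2.2 (by decide +kernel))
 .nil (p014 h).1.1.2.1.1.2.2.1.1 (by decide +kernel))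
 (ndB (a := (nat_lit 240)) (y := (nat_lit 320)) (z := (nat_lit 320)) (N := (nat_lit 34))
 (ndB (a := (nat_lit 240)) (y := (nat_lit 240)) (z := (nat_lit 400)) (N := (nat_lit 34))
 .nil
 .nil (p014 h).1.1.2.1.1.2.2.2.1 (by decide +kernel))
 .nil (p014 h).1.1.2.1.1.2.2.2.2 (by decide +kernel)) (p014 h).1.1.2.1.1.2.2.1.2 (by decide +kernel))
 (ndB (a := (nat_lit 320)) (y := (nat_lit 320)) (z := (nat_lit 400)) (N := (nat_lit 34))
 (ndB (a := (nat_lit 320)) (y := (nat_lit 320)) (z := (nat_lit 320)) (N := (nat_lit 34))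
 (ndB (a := (nat_lit 240)) (y := (nat_lit 400)) (z := (nat_lit 400)) (N := (nat_lit 34))
 .nil
 .nil (p014 h).1.1.2.1.2.1.1.2.1 (by decide +kernel))
 .nil (p014 h).1.1.2.1.2.1.1.2.2 (by decide +kernel))
 (ndB (a := (nat_lit 320)) (y := (nat_lit 400)) (z := (nat_lit 400)) (N := (nat_lit 34))
 .nil
 .nil (p014 h).1.1.2.1.2.1.2.2.1 (by decide +kernel)) (p014 h).1.1.2.1.2.1.2.1 (by decide +kernel)) (p014 h).1.1.2.1.2.1.1.1 (by decide +kernel)) (p014 h).1.1.2.1.1.2.1.2.1 (by decide +kernel)) (p014 h).1.1.1.2.2.2.1.2.2 (by decide +kernel))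
theorem F58_ok (h : RcOK RE.rowE) : F58.OK := .of (by decide +kernel) (T58_ok h)
theorem T59_ok (h : RcOK RE.rowE) : TOK rd59 ks59 T59 := (ndB (a := (nat_lit 80)) (y := (nat_lit 240)) (z := (nat_lit 320)) (N := (nat_lit 30))
 (ndB (a := (nat_lit 0)) (y := (nat_lit 240)) (z := (nat_lit 400)) (N := (nat_lit 30))
 (ndB (a := (nat_lit 0)) (y := (nat_lit 80)) (z := (nat_lit 400)) (N := (nat_lit 30))
 (ndB (a := (nat_lit 0)) (y := (nat_lit 0)) (z := (nat_lit 400)) (N := (nat_lit 30))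
 (ndB (a := (nat_lit 0)) (y := (nat_lit 0)) (z := (nat_lit 320)) (N := (nat_lit 30))
 (ndB (a := (nat_lit 0)) (y := (nat_lit 0)) (z := (nat_lit 240)) (N := (nat_lit 30))
 .nil
 .nil (p014 h).1.1.2.1.2.1.2.2.2 (by decide +kernel))
 .nil (p014 h).1.1.2.1.2.2.1.1 (by decide +kernel))
 (ndB (a := (nat_lit 0)) (y := (nat_lit 80)) (z := (nat_lit 320)) (N := (nat_lit 30))
 (ndB (a := (nat_lit 0)) (y := (nat_lit 80)) (z := (nat_lit 240)) (N := (nat_lit 30))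
 .nil
 .nil (p014 h).1.1.2.1.2.2.1.2.2 (by decide +kernel))
 .nil (p014 h).1.1.2.1.2.2.2.1.1 (by decide +kernel)) (p014 h).1.1.2.1.2.2.1.2.1 (by decide +kernel))
 (ndB (a := (nat_lit 0)) (y := (nat_lit 160)) (z := (nat_lit 400)) (N := (nat_lit 30))
 (ndB (a := (nat_lit 0)) (y := (nat_lit 160)) (z := (nat_lit 320)) (N := (nat_lit 30))
 (ndB (a := (nat_lit 0)) (y := (nat_lit 160)) (z := (nat_lit 240)) (N := (nat_lit 30))
 .nil
 .nil (p014 h).1.1.2.1.2.2.2.2.1 (by decide +kernel))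
 .nil (p014 h).1.1.2.1.2.2.2.2.2 (by decide +kernel))
 (ndB (a := (nat_lit 0)) (y := (nat_lit 240)) (z := (nat_lit 320)) (N := (nat_lit 30))
 (ndB (a := (nat_lit 0)) (y := (nat_lit 240)) (z := (nat_lit 240)) (N := (nat_lit 30))
 .nil
 .nil (p014 h).1.1.2.2.1.1.1.2.1 (by decide +kernel))
 .nil (p014 h).1.1.2.2.1.1.1.2.2 (by decide +kernel)) (p014 h).1.1.2.2.1.1.1.1 (by decide +kernel)) (p014 h).1.1.2.1.2.2.2.1.2 (by decide +kernel))
 (ndB (a := (nat_lit 80)) (y := (nat_lit 80)) (z := (nat_lit 400)) (N := (nat_lit 30))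
 (ndB (a := (nat_lit 0)) (y := (nat_lit 400)) (z := (nat_lit 400)) (N := (nat_lit 30))
 (ndB (a := (nat_lit 0)) (y := (nat_lit 320)) (z := (nat_lit 400)) (N := (nat_lit 30))
 (ndB (a := (nat_lit 0)) (y := (nat_lit 320)) (z := (nat_lit 320)) (N := (nat_lit 30))
 .nil
 .nil (p014 h).1.1.2.2.1.1.2.2.1 (by decide +kernel))
 .nil (p014 h).1.1.2.2.1.1.2.2.2 (by decide +kernel))
 (ndB (a := (nat_lit 80)) (y := (nat_lit 80)) (z := (nat_lit 320)) (N := (nat_lit 30))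
 (ndB (a := (nat_lit 80)) (y := (nat_lit 80)) (z := (nat_lit 240)) (N := (nat_lit 30))
 .nil
 .nil (p014 h).1.1.2.2.1.2.1.2.1 (by decide +kernel))
 .nil (p014 h).1.1.2.2.1.2.1.2.2 (by decide +kernel)) (p014 h).1.1.2.2.1.2.1.1 (by decide +kernel))
 (ndB (a := (nat_lit 80)) (y := (nat_lit 160)) (z := (nat_lit 400)) (N := (nat_lit 30))
 (ndB (a := (nat_lit 80)) (y := (nat_lit 160)) (z := (nat_lit 320)) (N := (nat_lit 30))
 (ndB (a := (nat_lit 80)) (y := (nat_lit 160)) (z := (nat_lit 240)) (N := (nat_lit 30))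
 .nil
 .nil (p014 h).1.1.2.2.1.2.2.1.2 (by decide +kernel))
 .nil (p014 h).1.1.2.2.1.2.2.2.1 (by decide +kernel))
 (ndB (a := (nat_lit 80)) (y := (nat_lit 240)) (z := (nat_lit 240)) (N := (nat_lit 30))
 .nil
 .nil (p014 h).1.1.2.2.2.1.1.1 (by decide +kernel)) (p014 h).1.1.2.2.1.2.2.2.2 (by decide +kernel)) (p014 h).1.1.2.2.1.2.2.1.1 (by decide +kernel)) (p014 h).1.1.2.2.1.1.2.1 (by decide +kernel))
 (ndB (a := (nat_lit 160)) (y := (nat_lit 400)) (z := (nat_lit 400)) (N := (nat_lit 30))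
 (ndB (a := (nat_lit 160)) (y := (nat_lit 160)) (z := (nat_lit 320)) (N := (nat_lit 30))
 (ndB (a := (nat_lit 80)) (y := (nat_lit 320)) (z := (nat_lit 400)) (N := (nat_lit 30))
 (ndB (a := (nat_lit 80)) (y := (nat_lit 320)) (z := (nat_lit 320)) (N := (nat_lit 30))
 (ndB (a := (nat_lit 80)) (y := (nat_lit 240)) (z := (nat_lit 400)) (N := (nat_lit 30))
 .nil
 .nil (p014 h).1.1.2.2.2.1.1.2.2 (by decide +kernel))
 .nil (p014 h).1.1.2.2.2.1.2.1 (by decide +kernel))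
 (ndB (a := (nat_lit 160)) (y := (nat_lit 160)) (z := (nat_lit 240)) (N := (nat_lit 30))
 (ndB (a := (nat_lit 80)) (y := (nat_lit 400)) (z := (nat_lit 400)) (N := (nat_lit 30))
 .nil
 .nil (p014 h).1.1.2.2.2.1.2.2.2 (by decide +kernel))
 .nil (p014 h).1.1.2.2.2.2.1.1 (by decide +kernel)) (p014 h).1.1.2.2.2.1.2.2.1 (by decide +kernel))
 (ndB (a := (nat_lit 160)) (y := (nat_lit 240)) (z := (nat_lit 400)) (N := (nat_lit 30))
 (ndB (a := (nat_lit 160)) (y := (nat_lit 240)) (z := (nat_lit 320)) (N := (nat_lit 30))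
 (ndB (a := (nat_lit 160)) (y := (nat_lit 240)) (z := (nat_lit 240)) (N := (nat_lit 30))
 .nil
 .nil (p014 h).1.1.2.2.2.2.1.2.2 (by decide +kernel))
 .nil (p014 h).1.1.2.2.2.2.2.1.1 (by decide +kernel))
 (ndB (a := (nat_lit 160)) (y := (nat_lit 320)) (z := (nat_lit 400)) (N := (nat_lit 30))
 (ndB (a := (nat_lit 160)) (y := (nat_lit 320)) (z := (nat_lit 320)) (N := (nat_lit 30))
 .nil
 .nil (p014 h).1.1.2.2.2.2.2.2.1 (by decide +kernel))
 .nil (p014 h).1.1.2.2.2.2.2.2.2 (by decide +kernel)) (p014 h).1.1.2.2.2.2.2.1.2 (by decide +kernel)) (p014 h).1.1.2.2.2.2.1.2.1 (by decide +kernel))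
 (ndB (a := (nat_lit 240)) (y := (nat_lit 400)) (z := (nat_lit 400)) (N := (nat_lit 30))
 (ndB (a := (nat_lit 240)) (y := (nat_lit 240)) (z := (nat_lit 400)) (N := (nat_lit 30))
 (ndB (a := (nat_lit 240)) (y := (nat_lit 240)) (z := (nat_lit 320)) (N := (nat_lit 30))
 (ndB (a := (nat_lit 240)) (y := (nat_lit 240)) (z := (nat_lit 240)) (N := (nat_lit 30))
 .nil
 .nil (p014 h).1.2.1.1.1.1.1.2.1 (by decide +kernel))
 .nil (p014 h).1.2.1.1.1.1.1.2.2 (by decide +kernel))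
 (ndB (a := (nat_lit 240)) (y := (nat_lit 320)) (z := (nat_lit 400)) (N := (nat_lit 30))
 (ndB (a := (nat_lit 240)) (y := (nat_lit 320)) (z := (nat_lit 320)) (N := (nat_lit 30))
 .nil
 .nil (p014 h).1.2.1.1.1.1.2.2.1 (by decide +kernel))
 .nil (p014 h).1.2.1.1.1.1.2.2.2 (by decide +kernel)) (p014 h).1.2.1.1.1.1.2.1 (by decide +kernel))
 (ndB (a := (nat_lit 320)) (y := (nat_lit 400)) (z := (nat_lit 400)) (N := (nat_lit 30))
 (ndB (a := (nat_lit 320)) (y := (nat_lit 320)) (z := (nat_lit 400)) (N := (nat_lit 30))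
 (ndB (a := (nat_lit 320)) (y := (nat_lit 320)) (z := (nat_lit 320)) (N := (nat_lit 30))
 .nil
 .nil (p014 h).1.2.1.1.1.2.1.2.1 (by decide +kernel))
 .nil (p014 h).1.2.1.1.1.2.1.2.2 (by decide +kernel))
 (ndB (a := (nat_lit 400)) (y := (nat_lit 400)) (z := (nat_lit 400)) (N := (nat_lit 30))
 .nil
 .nil (p014 h).1.2.1.1.1.2.2.1.2 (by decide +kernel)) (p014 h).1.2.1.1.1.2.2.1.1 (by decide +kernel)) (p014 h).1.2.1.1.1.2.1.1 (by decide +kernel)) (p014 h).1.2.1.1.1.1.1.1 (by decide +kernel)) (p014 h).1.1.2.2.2.1.1.2.1 (by decide +kernel))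
theorem F59_ok (h : RcOK RE.rowE) : F59.OK := .of (by decide +kernel) (T59_ok h)
theorem T60_ok (h : RcOK RE.rowE) : TOK rd60 ks60 T60 := (ndB (a := (nat_lit 80)) (y := (nat_lit 320)) (z := (nat_lit 400)) (N := (nat_lit 26))
 (ndB (a := (nat_lit 0)) (y := (nat_lit 400)) (z := (nat_lit 400)) (N := (nat_lit 26))
 (ndB (a := (nat_lit 0)) (y := (nat_lit 240)) (z := (nat_lit 240)) (N := (nat_lit 26))
 (ndB (a := (nat_lit 0)) (y := (nat_lit 160)) (z := (nat_lit 240)) (N := (nat_lit 26))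
 (ndB (a := (nat_lit 0)) (y := (nat_lit 80)) (z := (nat_lit 320)) (N := (nat_lit 26))
 (ndB (a := (nat_lit 0)) (y := (nat_lit 80)) (z := (nat_lit 240)) (N := (nat_lit 26))
 .nil
 .nil (p014 h).1.2.1.1.1.2.2.2.1 (by decide +kernel))
 .nil (p014 h).1.2.1.1.1.2.2.2.2 (by decide +kernel))
 (ndB (a := (nat_lit 0)) (y := (nat_lit 160)) (z := (nat_lit 400)) (N := (nat_lit 26))
 (ndB (a := (nat_lit 0)) (y := (nat_lit 160)) (z := (nat_lit 320)) (N := (nat_lit 26))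
 .nil
 .nil (p014 h).1.2.1.1.2.1.1.2.1 (by decide +kernel))
 .nil (p014 h).1.2.1.1.2.1.1.2.2 (by decide +kernel)) (p014 h).1.2.1.1.2.1.1.1 (by decide +kernel))
 (ndB (a := (nat_lit 0)) (y := (nat_lit 320)) (z := (nat_lit 320)) (N := (nat_lit 26))
 (ndB (a := (nat_lit 0)) (y := (nat_lit 240)) (z := (nat_lit 400)) (N := (nat_lit 26))
 (ndB (a := (nat_lit 0)) (y := (nat_lit 240)) (z := (nat_lit 320)) (N := (nat_lit 26))
 .nil
 .nil (p014 h).1.2.1.1.2.1.2.2.1 (by decide +kernel))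
 .nil (p014 h).1.2.1.1.2.1.2.2.2 (by decide +kernel))
 (ndB (a := (nat_lit 0)) (y := (nat_lit 320)) (z := (nat_lit 400)) (N := (nat_lit 26))
 .nil
 .nil (p014 h).1.2.1.1.2.2.1.2.1 (by decide +kernel)) (p014 h).1.2.1.1.2.2.1.1 (by decide +kernel)) (p014 h).1.2.1.1.2.1.2.1 (by decide +kernel))
 (ndB (a := (nat_lit 80)) (y := (nat_lit 160)) (z := (nat_lit 400)) (N := (nat_lit 26))
 (ndB (a := (nat_lit 80)) (y := (nat_lit 80)) (z := (nat_lit 400)) (N := (nat_lit 26))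
 (ndB (a := (nat_lit 80)) (y := (nat_lit 80)) (z := (nat_lit 320)) (N := (nat_lit 26))
 (ndB (a := (nat_lit 80)) (y := (nat_lit 80)) (z := (nat_lit 240)) (N := (nat_lit 26))
 .nil
 .nil (p014 h).1.2.1.1.2.2.2.1.1 (by decide +kernel))
 .nil (p014 h).1.2.1.1.2.2.2.1.2 (by decide +kernel))
 (ndB (a := (nat_lit 80)) (y := (nat_lit 160)) (z := (nat_lit 320)) (N := (nat_lit 26))
 (ndB (a := (nat_lit 80)) (y := (nat_lit 160)) (z := (nat_lit 240)) (N := (nat_lit 26))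
 .nil
 .nil (p014 h).1.2.1.1.2.2.2.2.2 (by decide +kernel))
 .nil (p014 h).1.2.1.2.1.1.1.1 (by decide +kernel)) (p014 h).1.2.1.1.2.2.2.2.1 (by decide +kernel))
 (ndB (a := (nat_lit 80)) (y := (nat_lit 240)) (z := (nat_lit 400)) (N := (nat_lit 26))
 (ndB (a := (nat_lit 80)) (y := (nat_lit 240)) (z := (nat_lit 320)) (N := (nat_lit 26))
 (ndB (a := (nat_lit 80)) (y := (nat_lit 240)) (z := (nat_lit 240)) (N := (nat_lit 26))
 .nil
 .nil (p014 h).1.2.1.2.1.1.1.2.2 (by decide +kernel))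
 .nil (p014 h).1.2.1.2.1.1.2.1 (by decide +kernel))
 (ndB (a := (nat_lit 80)) (y := (nat_lit 320)) (z := (nat_lit 320)) (N := (nat_lit 26))
 .nil
 .nil (p014 h).1.2.1.2.1.1.2.2.2 (by decide +kernel)) (p014 h).1.2.1.2.1.1.2.2.1 (by decide +kernel)) (p014 h).1.2.1.2.1.1.1.2.1 (by decide +kernel)) (p014 h).1.2.1.1.2.2.1.2.2 (by decide +kernel))
 (ndB (a := (nat_lit 240)) (y := (nat_lit 240)) (z := (nat_lit 240)) (N := (nat_lit 26))
 (ndB (a := (nat_lit 160)) (y := (nat_lit 240)) (z := (nat_lit 320)) (N := (nat_lit 26))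
 (ndB (a := (nat_lit 160)) (y := (nat_lit 160)) (z := (nat_lit 320)) (N := (nat_lit 26))
 (ndB (a := (nat_lit 160)) (y := (nat_lit 160)) (z := (nat_lit 240)) (N := (nat_lit 26))
 (ndB (a := (nat_lit 80)) (y := (nat_lit 400)) (z := (nat_lit 400)) (N := (nat_lit 26))
 .nil
 .nil (p014 h).1.2.1.2.1.2.1.2.1 (by decide +kernel))
 .nil (p014 h).1.2.1.2.1.2.1.2.2 (by decide +kernel))
 (ndB (a := (nat_lit 160)) (y := (nat_lit 240)) (z := (nat_lit 240)) (N := (nat_lit 26))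
 (ndB (a := (nat_lit 160)) (y := (nat_lit 160)) (z := (nat_lit 400)) (N := (nat_lit 26))
 .nil
 .nil (p014 h).1.2.1.2.1.2.2.1.2 (by decide +kernel))
 .nil (p014 h).1.2.1.2.1.2.2.2.1 (by decide +kernel)) (p014 h).1.2.1.2.1.2.2.1.1 (by decide +kernel))
 (ndB (a := (nat_lit 160)) (y := (nat_lit 320)) (z := (nat_lit 400)) (N := (nat_lit 26))
 (ndB (a := (nat_lit 160)) (y := (nat_lit 320)) (z := (nat_lit 320)) (N := (nat_lit 26))
 (ndB (a := (nat_lit 160)) (y := (nat_lit 240)) (z := (nat_lit 400)) (N := (nat_lit 26))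
 .nil
 .nil (p014 h).1.2.1.2.2.1.1.1 (by decide +kernel))
 .nil (p014 h).1.2.1.2.2.1.1.2.1 (by decide +kernel))
 (ndB (a := (nat_lit 160)) (y := (nat_lit 400)) (z := (nat_lit 400)) (N := (nat_lit 26))
 .nil
 .nil (p014 h).1.2.1.2.2.1.2.1 (by decide +kernel)) (p014 h).1.2.1.2.2.1.1.2.2 (by decide +kernel)) (p014 h).1.2.1.2.1.2.2.2.2 (by decide +kernel))
 (ndB (a := (nat_lit 240)) (y := (nat_lit 400)) (z := (nat_lit 400)) (N := (nat_lit 26))
 (ndB (a := (nat_lit 240)) (y := (nat_lit 320)) (z := (nat_lit 320)) (N := (nat_lit 26))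
 (ndB (a := (nat_lit 240)) (y := (nat_lit 240)) (z := (nat_lit 400)) (N := (nat_lit 26))
 (ndB (a := (nat_lit 240)) (y := (nat_lit 240)) (z := (nat_lit 320)) (N := (nat_lit 26))
 .nil
 .nil (p014 h).1.2.1.2.2.1.2.2.2 (by decide +kernel))
 .nil (p014 h).1.2.1.2.2.2.1.1 (by decide +kernel))
 (ndB (a := (nat_lit 240)) (y := (nat_lit 320)) (z := (nat_lit 400)) (N := (nat_lit 26))
 .nil
 .nil (p014 h).1.2.1.2.2.2.1.2.2 (by decide +kernel)) (p014 h).1.2.1.2.2.2.1.2.1 (by decide +kernel))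
 (ndB (a := (nat_lit 320)) (y := (nat_lit 400)) (z := (nat_lit 400)) (N := (nat_lit 26))
 (ndB (a := (nat_lit 320)) (y := (nat_lit 320)) (z := (nat_lit 400)) (N := (nat_lit 26))
 (ndB (a := (nat_lit 320)) (y := (nat_lit 320)) (z := (nat_lit 320)) (N := (nat_lit 26))
 .nil
 .nil (p014 h).1.2.1.2.2.2.2.1.2 (by decide +kernel))
 .nil (p014 h).1.2.1.2.2.2.2.2.1 (by decide +kernel))
 (ndB (a := (nat_lit 400)) (y := (nat_lit 400)) (z := (nat_lit 400)) (N := (nat_lit 26))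
 .nil
 .nil (p014 h).1.2.2.1.1.1.1.1 (by decide +kernel)) (p014 h).1.2.1.2.2.2.2.2.2 (by decide +kernel)) (p014 h).1.2.1.2.2.2.2.1.1 (by decide +kernel)) (p014 h).1.2.1.2.2.1.2.2.1 (by decide +kernel)) (p014 h).1.2.1.2.1.2.1.1 (by decide +kernel))
theorem F60_ok (h : RcOK RE.rowE) : F60.OK := .of (by decide +kernel) (T60_ok h)
theorem T61_ok (h : RcOK RE.rowE) : TOK rd61 ks61 T61 := (ndB (a := (nat_lit 320)) (y := (nat_lit 400)) (z := (nat_lit 400)) (N := (nat_lit 22))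
 (ndB (a := (nat_lit 320)) (y := (nat_lit 320)) (z := (nat_lit 400)) (N := (nat_lit 22))
 (ndB (a := (nat_lit 320)) (y := (nat_lit 320)) (z := (nat_lit 320)) (N := (nat_lit 22))
 .nil
 .nil (p014 h).1.2.2.1.1.1.1.2.1 (by decide +kernel))
 .nil (p014 h).1.2.2.1.1.1.1.2.2 (by decide +kernel))
 (ndB (a := (nat_lit 400)) (y := (nat_lit 400)) (z := (nat_lit 400)) (N := (nat_lit 22))
 .nil
 .nil (p014 h).1.2.2.1.1.1.2.2.1 (by decide +kernel)) (p014 h).1.2.2.1.1.1.2.1 (by decide +kernel))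
theorem F61_ok (h : RcOK RE.rowE) : F61.OK := .of (by decide +kernel) (T61_ok h)
theorem T62_ok (h : RcOK RE.rowE) : TOK rd62 ks62 T62 := (ndB (a := (nat_lit 80)) (y := (nat_lit 240)) (z := (nat_lit 320)) (N := (nat_lit 34))
 (ndB (a := (nat_lit 0)) (y := (nat_lit 240)) (z := (nat_lit 320)) (N := (nat_lit 34))
 (ndB (a := (nat_lit 0)) (y := (nat_lit 120)) (z := (nat_lit 240)) (N := (nat_lit 34))
 (ndB (a := (nat_lit 0)) (y := (nat_lit 80)) (z := (nat_lit 160)) (N := (nat_lit 34))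
 (ndB (a := (nat_lit 0)) (y := (nat_lit 0)) (z := (nat_lit 320)) (N := (nat_lit 34))
 (ndB (a := (nat_lit 0)) (y := (nat_lit 0)) (z := (nat_lit 240)) (N := (nat_lit 34))
 (ndB (a := (nat_lit 0)) (y := (nat_lit 0)) (z := (nat_lit 160)) (N := (nat_lit 34))
 .nil
 .nil (p014 h).1.2.2.1.1.1.2.2.2 (by decide +kernel))
 .nil (p014 h).1.2.2.1.1.2.1.1 (by decide +kernel))
 (ndB (a := (nat_lit 0)) (y := (nat_lit 80)) (z := (nat_lit 120)) (N := (nat_lit 34))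
 .nil
 .nil (p014 h).1.2.2.1.1.2.1.2.2 (by decide +kernel)) (p014 h).1.2.2.1.1.2.1.2.1 (by decide +kernel))
 (ndB (a := (nat_lit 0)) (y := (nat_lit 80)) (z := (nat_lit 320)) (N := (nat_lit 34))
 (ndB (a := (nat_lit 0)) (y := (nat_lit 80)) (z := (nat_lit 240)) (N := (nat_lit 34))
 .nil
 .nil (p014 h).1.2.2.1.1.2.2.1.2 (by decide +kernel))
 (ndB (a := (nat_lit 0)) (y := (nat_lit 120)) (z := (nat_lit 160)) (N := (nat_lit 34))
 .nil
 .nil (p014 h).1.2.2.1.1.2.2.2.2 (by decide +kernel)) (p014 h).1.2.2.1.1.2.2.2.1 (by decide +kernel)) (p014 h).1.2.2.1.1.2.2.1.1 (by decide +kernel))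
 (ndB (a := (nat_lit 0)) (y := (nat_lit 160)) (z := (nat_lit 240)) (N := (nat_lit 34))
 (ndB (a := (nat_lit 0)) (y := (nat_lit 120)) (z := (nat_lit 400)) (N := (nat_lit 34))
 (ndB (a := (nat_lit 0)) (y := (nat_lit 120)) (z := (nat_lit 320)) (N := (nat_lit 34))
 .nil
 .nil (p014 h).1.2.2.1.2.1.1.2.1 (by decide +kernel))
 (ndB (a := (nat_lit 0)) (y := (nat_lit 160)) (z := (nat_lit 160)) (N := (nat_lit 34))
 .nil
 .nil (p014 h).1.2.2.1.2.1.2.1 (by decide +kernel)) (p014 h).1.2.2.1.2.1.1.2.2 (by decide +kernel))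
 (ndB (a := (nat_lit 0)) (y := (nat_lit 160)) (z := (nat_lit 400)) (N := (nat_lit 34))
 (ndB (a := (nat_lit 0)) (y := (nat_lit 160)) (z := (nat_lit 320)) (N := (nat_lit 34))
 .nil
 .nil (p014 h).1.2.2.1.2.1.2.2.2 (by decide +kernel))
 (ndB (a := (nat_lit 0)) (y := (nat_lit 240)) (z := (nat_lit 240)) (N := (nat_lit 34))
 .nil
 .nil (p014 h).1.2.2.1.2.2.1.2.1 (by decide +kernel)) (p014 h).1.2.2.1.2.2.1.1 (by decide +kernel)) (p014 h).1.2.2.1.2.1.2.2.1 (by decide +kernel)) (p014 h).1.2.2.1.2.1.1.1 (by decide +kernel))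
 (ndB (a := (nat_lit 80)) (y := (nat_lit 120)) (z := (nat_lit 240)) (N := (nat_lit 34))
 (ndB (a := (nat_lit 80)) (y := (nat_lit 80)) (z := (nat_lit 160)) (N := (nat_lit 34))
 (ndB (a := (nat_lit 0)) (y := (nat_lit 320)) (z := (nat_lit 320)) (N := (nat_lit 34))
 (ndB (a := (nat_lit 0)) (y := (nat_lit 240)) (z := (nat_lit 400)) (N := (nat_lit 34))
 .nil
 .nil (p014 h).1.2.2.1.2.2.2.1.1 (by decide +kernel))
 (ndB (a := (nat_lit 0)) (y := (nat_lit 320)) (z := (nat_lit 400)) (N := (nat_lit 34))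
 .nil
 .nil (p014 h).1.2.2.1.2.2.2.2.1 (by decide +kernel)) (p014 h).1.2.2.1.2.2.2.1.2 (by decide +kernel))
 (ndB (a := (nat_lit 80)) (y := (nat_lit 80)) (z := (nat_lit 320)) (N := (nat_lit 34))
 (ndB (a := (nat_lit 80)) (y := (nat_lit 80)) (z := (nat_lit 240)) (N := (nat_lit 34))
 .nil
 .nil (p014 h).1.2.2.2.1.1.1.1 (by decide +kernel))
 (ndB (a := (nat_lit 80)) (y := (nat_lit 120)) (z := (nat_lit 160)) (N := (nat_lit 34))
 .nil
 .nil (p014 h).1.2.2.2.1.1.1.2.2 (by decide +kernel)) (p014 h).1.2.2.2.1.1.1.2.1 (by decide +kernel)) (p014 h).1.2.2.1.2.2.2.2.2 (by decide +kernel))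
 (ndB (a := (nat_lit 80)) (y := (nat_lit 160)) (z := (nat_lit 240)) (N := (nat_lit 34))
 (ndB (a := (nat_lit 80)) (y := (nat_lit 120)) (z := (nat_lit 400)) (N := (nat_lit 34))
 (ndB (a := (nat_lit 80)) (y := (nat_lit 120)) (z := (nat_lit 320)) (N := (nat_lit 34))
 .nil
 .nil (p014 h).1.2.2.2.1.1.2.2.1 (by decide +kernel))
 (ndB (a := (nat_lit 80)) (y := (nat_lit 160)) (z := (nat_lit 160)) (N := (nat_lit 34))
 .nil
 .nil (p014 h).1.2.2.2.1.2.1.1 (by decide +kernel)) (p014 h).1.2.2.2.1.1.2.2.2 (by decide +kernel))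
 (ndB (a := (nat_lit 80)) (y := (nat_lit 160)) (z := (nat_lit 400)) (N := (nat_lit 34))
 (ndB (a := (nat_lit 80)) (y := (nat_lit 160)) (z := (nat_lit 320)) (N := (nat_lit 34))
 .nil
 .nil (p014 h).1.2.2.2.1.2.1.2.2 (by decide +kernel))
 (ndB (a := (nat_lit 80)) (y := (nat_lit 240)) (z := (nat_lit 240)) (N := (nat_lit 34))
 .nil
 .nil (p014 h).1.2.2.2.1.2.2.1.2 (by decide +kernel)) (p014 h).1.2.2.2.1.2.2.1.1 (by decide +kernel)) (p014 h).1.2.2.2.1.2.1.2.1 (by decide +kernel)) (p014 h).1.2.2.2.1.1.2.1 (by decide +kernel)) (p014 h).1.2.2.1.2.2.1.2.2 (by decide +kernel))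
 (ndB (a := (nat_lit 160)) (y := (nat_lit 160)) (z := (nat_lit 400)) (N := (nat_lit 34))
 (ndB (a := (nat_lit 120)) (y := (nat_lit 240)) (z := (nat_lit 320)) (N := (nat_lit 34))
 (ndB (a := (nat_lit 120)) (y := (nat_lit 160)) (z := (nat_lit 240)) (N := (nat_lit 34))
 (ndB (a := (nat_lit 80)) (y := (nat_lit 320)) (z := (nat_lit 400)) (N := (nat_lit 34))
 (ndB (a := (nat_lit 80)) (y := (nat_lit 320)) (z := (nat_lit 320)) (N := (nat_lit 34))
 (ndB (a := (nat_lit 80)) (y := (nat_lit 240)) (z := (nat_lit 400)) (N := (nat_lit 34))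
 .nil
 .nil (p014 h).1.2.2.2.1.2.2.2.2 (by decide +kernel))
 .nil (p014 h).1.2.2.2.2.1.1.1 (by decide +kernel))
 (ndB (a := (nat_lit 120)) (y := (nat_lit 160)) (z := (nat_lit 160)) (N := (nat_lit 34))
 .nil
 .nil (p014 h).1.2.2.2.2.1.1.2.2 (by decide +kernel)) (p014 h).1.2.2.2.2.1.1.2.1 (by decide +kernel))
 (ndB (a := (nat_lit 120)) (y := (nat_lit 160)) (z := (nat_lit 400)) (N := (nat_lit 34))
 (ndB (a := (nat_lit 120)) (y := (nat_lit 160)) (z := (nat_lit 320)) (N := (nat_lit 34))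
 .nil
 .nil (p014 h).1.2.2.2.2.1.2.1.2 (by decide +kernel))
 (ndB (a := (nat_lit 120)) (y := (nat_lit 240)) (z := (nat_lit 240)) (N := (nat_lit 34))
 .nil
 .nil (p014 h).1.2.2.2.2.1.2.2.2 (by decide +kernel)) (p014 h).1.2.2.2.2.1.2.2.1 (by decide +kernel)) (p014 h).1.2.2.2.2.1.2.1.1 (by decide +kernel))
 (ndB (a := (nat_lit 120)) (y := (nat_lit 400)) (z := (nat_lit 400)) (N := (nat_lit 34))
 (ndB (a := (nat_lit 120)) (y := (nat_lit 320)) (z := (nat_lit 320)) (N := (nat_lit 34))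
 (ndB (a := (nat_lit 120)) (y := (nat_lit 240)) (z := (nat_lit 400)) (N := (nat_lit 34))
 .nil
 .nil (p014 h).1.2.2.2.2.2.1.2.1 (by decide +kernel))
 (ndB (a := (nat_lit 120)) (y := (nat_lit 320)) (z := (nat_lit 400)) (N := (nat_lit 34))
 .nil
 .nil (p014 h).1.2.2.2.2.2.2.1.1 (by decide +kernel)) (p014 h).1.2.2.2.2.2.1.2.2 (by decide +kernel))
 (ndB (a := (nat_lit 160)) (y := (nat_lit 160)) (z := (nat_lit 240)) (N := (nat_lit 34))
 (ndB (a := (nat_lit 160)) (y := (nat_lit 160)) (z := (nat_lit 160)) (N := (nat_lit 34))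
 .nil
 .nil (p014 h).1.2.2.2.2.2.2.2.1 (by decide +kernel))
 (ndB (a := (nat_lit 160)) (y := (nat_lit 160)) (z := (nat_lit 320)) (N := (nat_lit 34))
 .nil
 .nil (p014 h).2.1.1.1.1.1.1.1 (by decide +kernel)) (p014 h).1.2.2.2.2.2.2.2.2 (by decide +kernel)) (p014 h).1.2.2.2.2.2.2.1.2 (by decide +kernel)) (p014 h).1.2.2.2.2.2.1.1 (by decide +kernel))
 (ndB (a := (nat_lit 240)) (y := (nat_lit 240)) (z := (nat_lit 320)) (N := (nat_lit 34))
 (ndB (a := (nat_lit 160)) (y := (nat_lit 320)) (z := (nat_lit 320)) (N := (nat_lit 34))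
 (ndB (a := (nat_lit 160)) (y := (nat_lit 240)) (z := (nat_lit 320)) (N := (nat_lit 34))
 (ndB (a := (nat_lit 160)) (y := (nat_lit 240)) (z := (nat_lit 240)) (N := (nat_lit 34))
 .nil
 .nil (p014 h).2.1.1.1.1.1.1.2.2 (by decide +kernel))
 (ndB (a := (nat_lit 160)) (y := (nat_lit 240)) (z := (nat_lit 400)) (N := (nat_lit 34))
 .nil
 .nil (p014 h).2.1.1.1.1.1.2.2.1 (by decide +kernel)) (p014 h).2.1.1.1.1.1.2.1 (by decide +kernel))
 (ndB (a := (nat_lit 160)) (y := (nat_lit 400)) (z := (nat_lit 400)) (N := (nat_lit 34))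
 (ndB (a := (nat_lit 160)) (y := (nat_lit 320)) (z := (nat_lit 400)) (N := (nat_lit 34))
 .nil
 .nil (p014 h).2.1.1.1.1.2.1.1 (by decide +kernel))
 (ndB (a := (nat_lit 240)) (y := (nat_lit 240)) (z := (nat_lit 240)) (N := (nat_lit 34))
 .nil
 .nil (p014 h).2.1.1.1.1.2.1.2.2 (by decide +kernel)) (p014 h).2.1.1.1.1.2.1.2.1 (by decide +kernel)) (p014 h).2.1.1.1.1.1.2.2.2 (by decide +kernel))
 (ndB (a := (nat_lit 240)) (y := (nat_lit 400)) (z := (nat_lit 400)) (N := (nat_lit 34))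
 (ndB (a := (nat_lit 240)) (y := (nat_lit 320)) (z := (nat_lit 320)) (N := (nat_lit 34))
 (ndB (a := (nat_lit 240)) (y := (nat_lit 240)) (z := (nat_lit 400)) (N := (nat_lit 34))
 .nil
 .nil (p014 h).2.1.1.1.1.2.2.1.2 (by decide +kernel))
 (ndB (a := (nat_lit 240)) (y := (nat_lit 320)) (z := (nat_lit 400)) (N := (nat_lit 34))
 .nil
 .nil (p014 h).2.1.1.1.1.2.2.2.2 (by decide +kernel)) (p014 h).2.1.1.1.1.2.2.2.1 (by decide +kernel))
 (ndB (a := (nat_lit 320)) (y := (nat_lit 320)) (z := (nat_lit 400)) (N := (nat_lit 34))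
 (ndB (a := (nat_lit 320)) (y := (nat_lit 320)) (z := (nat_lit 320)) (N := (nat_lit 34))
 .nil
 .nil (p014 h).2.1.1.1.2.1.1.2.1 (by decide +kernel))
 (ndB (a := (nat_lit 320)) (y := (nat_lit 400)) (z := (nat_lit 400)) (N := (nat_lit 34))
 .nil
 .nil (p014 h).2.1.1.1.2.1.2.1 (by decide +kernel)) (p014 h).2.1.1.1.2.1.1.2.2 (by decide +kernel)) (p014 h).2.1.1.1.2.1.1.1 (by decide +kernel)) (p014 h).2.1.1.1.1.2.2.1.1 (by decide +kernel)) (p014 h).2.1.1.1.1.1.1.2.1 (by decide +kernel)) (p014 h).1.2.2.2.1.2.2.2.1 (by decide +kernel))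
theorem F62_ok (h : RcOK RE.rowE) : F62.OK := .of (by decide +kernel) (T62_ok h)
end TC
end Pool.Agent.Lib.MP_6947cd_al
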