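import Pool.Agent.Lib.MP_6947cd_al.TC.F
import Pool.Agent.Lib.MP_6947cd_al.TC.P014
import Pool.Agent.Lib.MP_6947cd_al.TC.P015

/-!
Problem MP_6947cd_al (Chollet).  CASE C, tables and certificates.  The families of tables are correct.
-/

set_option autoImplicit false
set_option linter.all false
set_option maxRecDepth 100000
set_option maxHeartbeats 4000000
namespace Pool.Agent.Lib.MP_6947cd_al
namespace TC
open PkA PkA.TF
theorem T63_ok (h : RcOK RE.rowE) : TOK rd63 ks63 T63 := (ndB (a := (nat_lit 80)) (y := (nat_lit 240)) (z := (nat_lit 240)) (N := (nat_lit 30))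
 (ndB (a := (nat_lit 0)) (y := (nat_lit 240)) (z := (nat_lit 320)) (N := (nat_lit 30))
 (ndB (a := (nat_lit 0)) (y := (nat_lit 80)) (z := (nat_lit 320)) (N := (nat_lit 30))
 (ndB (a := (nat_lit 0)) (y := (nat_lit 0)) (z := (nat_lit 400)) (N := (nat_lit 30))
 (ndB (a := (nat_lit 0)) (y := (nat_lit 0)) (z := (nat_lit 240)) (N := (nat_lit 30))
 (ndB (a := (nat_lit 0)) (y := (nat_lit 0)) (z := (nat_lit 160)) (N := (nat_lit 30))
 .nil
 .nil (p014 h).2.1.1.1.2.1.2.2.1 (by decide +kernel))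
 (ndB (a := (nat_lit 0)) (y := (nat_lit 0)) (z := (nat_lit 320)) (N := (nat_lit 30))
 .nil
 .nil (p014 h).2.1.1.1.2.2.1.1 (by decide +kernel)) (p014 h).2.1.1.1.2.1.2.2.2 (by decide +kernel))
 (ndB (a := (nat_lit 0)) (y := (nat_lit 80)) (z := (nat_lit 240)) (N := (nat_lit 30))
 (ndB (a := (nat_lit 0)) (y := (nat_lit 80)) (z := (nat_lit 160)) (N := (nat_lit 30))
 .nil
 .nil (p014 h).2.1.1.1.2.2.1.2.2 (by decide +kernel))
 .nil (p014 h).2.1.1.1.2.2.2.1.1 (by decide +kernel)) (p014 h).2.1.1.1.2.2.1.2.1 (by decide +kernel))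
 (ndB (a := (nat_lit 0)) (y := (nat_lit 160)) (z := (nat_lit 320)) (N := (nat_lit 30))
 (ndB (a := (nat_lit 0)) (y := (nat_lit 160)) (z := (nat_lit 160)) (N := (nat_lit 30))
 (ndB (a := (nat_lit 0)) (y := (nat_lit 80)) (z := (nat_lit 400)) (N := (nat_lit 30))
 .nil
 .nil (p014 h).2.1.1.1.2.2.2.2.1 (by decide +kernel))
 (ndB (a := (nat_lit 0)) (y := (nat_lit 160)) (z := (nat_lit 240)) (N := (nat_lit 30))
 .nil
 .nil (p014 h).2.1.1.2.1.1.1.1 (by decide +kernel)) (p014 h).2.1.1.1.2.2.2.2.2 (by decide +kernel))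
 (ndB (a := (nat_lit 0)) (y := (nat_lit 240)) (z := (nat_lit 240)) (N := (nat_lit 30))
 (ndB (a := (nat_lit 0)) (y := (nat_lit 160)) (z := (nat_lit 400)) (N := (nat_lit 30))
 .nil
 .nil (p014 h).2.1.1.2.1.1.1.2.2 (by decide +kernel))
 .nil (p014 h).2.1.1.2.1.1.2.1 (by decide +kernel)) (p014 h).2.1.1.2.1.1.1.2.1 (by decide +kernel)) (p014 h).2.1.1.1.2.2.2.1.2 (by decide +kernel))
 (ndB (a := (nat_lit 80)) (y := (nat_lit 80)) (z := (nat_lit 320)) (N := (nat_lit 30))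
 (ndB (a := (nat_lit 0)) (y := (nat_lit 400)) (z := (nat_lit 400)) (N := (nat_lit 30))
 (ndB (a := (nat_lit 0)) (y := (nat_lit 320)) (z := (nat_lit 320)) (N := (nat_lit 30))
 (ndB (a := (nat_lit 0)) (y := (nat_lit 240)) (z := (nat_lit 400)) (N := (nat_lit 30))
 .nil
 .nil (p014 h).2.1.1.2.1.1.2.2.2 (by decide +kernel))
 (ndB (a := (nat_lit 0)) (y := (nat_lit 320)) (z := (nat_lit 400)) (N := (nat_lit 30))
 .nil
 .nil (p014 h).2.1.1.2.1.2.1.2.1 (by decide +kernel)) (p014 h).2.1.1.2.1.2.1.1 (by decide +kernel))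
 (ndB (a := (nat_lit 80)) (y := (nat_lit 80)) (z := (nat_lit 240)) (N := (nat_lit 30))
 (ndB (a := (nat_lit 80)) (y := (nat_lit 80)) (z := (nat_lit 160)) (N := (nat_lit 30))
 .nil
 .nil (p014 h).2.1.1.2.1.2.2.1.1 (by decide +kernel))
 .nil (p014 h).2.1.1.2.1.2.2.1.2 (by decide +kernel)) (p014 h).2.1.1.2.1.2.1.2.2 (by decide +kernel))
 (ndB (a := (nat_lit 80)) (y := (nat_lit 160)) (z := (nat_lit 240)) (N := (nat_lit 30))
 (ndB (a := (nat_lit 80)) (y := (nat_lit 160)) (z := (nat_lit 160)) (N := (nat_lit 30))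
 (ndB (a := (nat_lit 80)) (y := (nat_lit 80)) (z := (nat_lit 400)) (N := (nat_lit 30))
 .nil
 .nil (p014 h).2.1.1.2.1.2.2.2.2 (by decide +kernel))
 .nil (p014 h).2.1.1.2.2.1.1.1 (by decide +kernel))
 (ndB (a := (nat_lit 80)) (y := (nat_lit 160)) (z := (nat_lit 400)) (N := (nat_lit 30))
 (ndB (a := (nat_lit 80)) (y := (nat_lit 160)) (z := (nat_lit 320)) (N := (nat_lit 30))
 .nil
 .nil (p014 h).2.1.1.2.2.1.1.2.2 (by decide +kernel))
 .nil (p014 h).2.1.1.2.2.1.2.1 (by decide +kernel)) (p014 h).2.1.1.2.2.1.1.2.1 (by decide +kernel)) (p014 h).2.1.1.2.1.2.2.2.1 (by decide +kernel)) (p014 h).2.1.1.2.1.1.2.2.1 (by decide +kernel))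
 (ndB (a := (nat_lit 160)) (y := (nat_lit 320)) (z := (nat_lit 320)) (N := (nat_lit 30))
 (ndB (a := (nat_lit 160)) (y := (nat_lit 160)) (z := (nat_lit 240)) (N := (nat_lit 30))
 (ndB (a := (nat_lit 80)) (y := (nat_lit 320)) (z := (nat_lit 400)) (N := (nat_lit 30))
 (ndB (a := (nat_lit 80)) (y := (nat_lit 240)) (z := (nat_lit 400)) (N := (nat_lit 30))
 (ndB (a := (nat_lit 80)) (y := (nat_lit 240)) (z := (nat_lit 320)) (N := (nat_lit 30))
 .nil
 .nil (p014 h).2.1.1.2.2.1.2.2.2 (by decide +kernel))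
 (ndB (a := (nat_lit 80)) (y := (nat_lit 320)) (z := (nat_lit 320)) (N := (nat_lit 30))
 .nil
 .nil (p014 h).2.1.1.2.2.2.1.2.1 (by decide +kernel)) (p014 h).2.1.1.2.2.2.1.1 (by decide +kernel))
 (ndB (a := (nat_lit 160)) (y := (nat_lit 160)) (z := (nat_lit 160)) (N := (nat_lit 30))
 (ndB (a := (nat_lit 80)) (y := (nat_lit 400)) (z := (nat_lit 400)) (N := (nat_lit 30))
 .nil
 .nil (p014 h).2.1.1.2.2.2.2.1.1 (by decide +kernel))
 .nil (p014 h).2.1.1.2.2.2.2.1.2 (by decide +kernel)) (p014 h).2.1.1.2.2.2.1.2.2 (by decide +kernel))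
 (ndB (a := (nat_lit 160)) (y := (nat_lit 240)) (z := (nat_lit 240)) (N := (nat_lit 30))
 (ndB (a := (nat_lit 160)) (y := (nat_lit 160)) (z := (nat_lit 400)) (N := (nat_lit 30))
 (ndB (a := (nat_lit 160)) (y := (nat_lit 160)) (z := (nat_lit 320)) (N := (nat_lit 30))
 .nil
 .nil (p014 h).2.1.1.2.2.2.2.2.2 (by decide +kernel))
 .nil (p014 h).2.1.2.1.1.1.1.1 (by decide +kernel))
 (ndB (a := (nat_lit 160)) (y := (nat_lit 240)) (z := (nat_lit 400)) (N := (nat_lit 30))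
 (ndB (a := (nat_lit 160)) (y := (nat_lit 240)) (z := (nat_lit 320)) (N := (nat_lit 30))
 .nil
 .nil (p014 h).2.1.2.1.1.1.1.2.2 (by decide +kernel))
 .nil (p014 h).2.1.2.1.1.1.2.1 (by decide +kernel)) (p014 h).2.1.2.1.1.1.1.2.1 (by decide +kernel)) (p014 h).2.1.1.2.2.2.2.2.1 (by decide +kernel))
 (ndB (a := (nat_lit 240)) (y := (nat_lit 320)) (z := (nat_lit 400)) (N := (nat_lit 30))
 (ndB (a := (nat_lit 240)) (y := (nat_lit 240)) (z := (nat_lit 320)) (N := (nat_lit 30))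
 (ndB (a := (nat_lit 160)) (y := (nat_lit 400)) (z := (nat_lit 400)) (N := (nat_lit 30))
 (ndB (a := (nat_lit 160)) (y := (nat_lit 320)) (z := (nat_lit 400)) (N := (nat_lit 30))
 .nil
 .nil (p014 h).2.1.2.1.1.1.2.2.2 (by decide +kernel))
 (ndB (a := (nat_lit 240)) (y := (nat_lit 240)) (z := (nat_lit 240)) (N := (nat_lit 30))
 .nil
 .nil (p014 h).2.1.2.1.1.2.1.2.1 (by decide +kernel)) (p014 h).2.1.2.1.1.2.1.1 (by decide +kernel))
 (ndB (a := (nat_lit 240)) (y := (nat_lit 320)) (z := (nat_lit 320)) (N := (nat_lit 30))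
 (ndB (a := (nat_lit 240)) (y := (nat_lit 240)) (z := (nat_lit 400)) (N := (nat_lit 30))
 .nil
 .nil (p014 h).2.1.2.1.1.2.2.1.1 (by decide +kernel))
 .nil (p014 h).2.1.2.1.1.2.2.1.2 (by decide +kernel)) (p014 h).2.1.2.1.1.2.1.2.2 (by decide +kernel))
 (ndB (a := (nat_lit 320)) (y := (nat_lit 320)) (z := (nat_lit 400)) (N := (nat_lit 30))
 (ndB (a := (nat_lit 320)) (y := (nat_lit 320)) (z := (nat_lit 320)) (N := (nat_lit 30))
 (ndB (a := (nat_lit 240)) (y := (nat_lit 400)) (z := (nat_lit 400)) (N := (nat_lit 30))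
 .nil
 .nil (p014 h).2.1.2.1.1.2.2.2.2 (by decide +kernel))
 .nil (p014 h).2.1.2.1.2.1.1.1 (by decide +kernel))
 (ndB (a := (nat_lit 400)) (y := (nat_lit 400)) (z := (nat_lit 400)) (N := (nat_lit 30))
 (ndB (a := (nat_lit 320)) (y := (nat_lit 400)) (z := (nat_lit 400)) (N := (nat_lit 30))
 .nil
 .nil (p014 h).2.1.2.1.2.1.1.2.2 (by decide +kernel))
 .nil (p014 h).2.1.2.1.2.1.2.1 (by decide +kernel)) (p014 h).2.1.2.1.2.1.1.2.1 (by decide +kernel)) (p014 h).2.1.2.1.1.2.2.2.1 (by decide +kernel)) (p014 h).2.1.2.1.1.1.2.2.1 (by decide +kernel)) (p014 h).2.1.1.2.2.1.2.2.1 (by decide +kernel))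
theorem F63_ok (h : RcOK RE.rowE) : F63.OK := .of (by decide +kernel) (T63_ok h)
theorem T64_ok (h : RcOK RE.rowE) : TOK rd64 ks64 T64 := (ndB (a := (nat_lit 80)) (y := (nat_lit 320)) (z := (nat_lit 400)) (N := (nat_lit 24))
 (ndB (a := (nat_lit 80)) (y := (nat_lit 80)) (z := (nat_lit 240)) (N := (nat_lit 24))
 (ndB (a := (nat_lit 0)) (y := (nat_lit 240)) (z := (nat_lit 240)) (N := (nat_lit 24))
 (ndB (a := (nat_lit 0)) (y := (nat_lit 160)) (z := (nat_lit 240)) (N := (nat_lit 24))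
 (ndB (a := (nat_lit 0)) (y := (nat_lit 80)) (z := (nat_lit 320)) (N := (nat_lit 24))
 (ndB (a := (nat_lit 0)) (y := (nat_lit 80)) (z := (nat_lit 240)) (N := (nat_lit 24))
 .nil
 .nil (p014 h).2.1.2.1.2.1.2.2.1 (by decide +kernel))
 .nil (p014 h).2.1.2.1.2.1.2.2.2 (by decide +kernel))
 (ndB (a := (nat_lit 0)) (y := (nat_lit 160)) (z := (nat_lit 320)) (N := (nat_lit 24))
 .nil
 .nil (p014 h).2.1.2.1.2.2.1.2.1 (by decide +kernel)) (p014 h).2.1.2.1.2.2.1.1 (by decide +kernel))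
 (ndB (a := (nat_lit 0)) (y := (nat_lit 320)) (z := (nat_lit 320)) (N := (nat_lit 24))
 (ndB (a := (nat_lit 0)) (y := (nat_lit 240)) (z := (nat_lit 400)) (N := (nat_lit 24))
 (ndB (a := (nat_lit 0)) (y := (nat_lit 240)) (z := (nat_lit 320)) (N := (nat_lit 24))
 .nil
 .nil (p014 h).2.1.2.1.2.2.2.1.1 (by decide +kernel))
 .nil (p014 h).2.1.2.1.2.2.2.1.2 (by decide +kernel))
 (ndB (a := (nat_lit 0)) (y := (nat_lit 320)) (z := (nat_lit 400)) (N := (nat_lit 24))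
 .nil
 .nil (p014 h).2.1.2.1.2.2.2.2.2 (by decide +kernel)) (p014 h).2.1.2.1.2.2.2.2.1 (by decide +kernel)) (p014 h).2.1.2.1.2.2.1.2.2 (by decide +kernel))
 (ndB (a := (nat_lit 80)) (y := (nat_lit 160)) (z := (nat_lit 400)) (N := (nat_lit 24))
 (ndB (a := (nat_lit 80)) (y := (nat_lit 160)) (z := (nat_lit 240)) (N := (nat_lit 24))
 (ndB (a := (nat_lit 80)) (y := (nat_lit 80)) (z := (nat_lit 400)) (N := (nat_lit 24))
 (ndB (a := (nat_lit 80)) (y := (nat_lit 80)) (z := (nat_lit 320)) (N := (nat_lit 24))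
 .nil
 .nil (p014 h).2.1.2.2.1.1.1.2.1 (by decide +kernel))
 .nil (p014 h).2.1.2.2.1.1.1.2.2 (by decide +kernel))
 (ndB (a := (nat_lit 80)) (y := (nat_lit 160)) (z := (nat_lit 320)) (N := (nat_lit 24))
 .nil
 .nil (p014 h).2.1.2.2.1.1.2.2.1 (by decide +kernel)) (p014 h).2.1.2.2.1.1.2.1 (by decide +kernel))
 (ndB (a := (nat_lit 80)) (y := (nat_lit 240)) (z := (nat_lit 400)) (N := (nat_lit 24))
 (ndB (a := (nat_lit 80)) (y := (nat_lit 240)) (z := (nat_lit 320)) (N := (nat_lit 24))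
 (ndB (a := (nat_lit 80)) (y := (nat_lit 240)) (z := (nat_lit 240)) (N := (nat_lit 24))
 .nil
 .nil (p014 h).2.1.2.2.1.2.1.1 (by decide +kernel))
 .nil (p014 h).2.1.2.2.1.2.1.2.1 (by decide +kernel))
 (ndB (a := (nat_lit 80)) (y := (nat_lit 320)) (z := (nat_lit 320)) (N := (nat_lit 24))
 .nil
 .nil (p014 h).2.1.2.2.1.2.2.1.1 (by decide +kernel)) (p014 h).2.1.2.2.1.2.1.2.2 (by decide +kernel)) (p014 h).2.1.2.2.1.1.2.2.2 (by decide +kernel)) (p014 h).2.1.2.2.1.1.1.1 (by decide +kernel))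
 (ndB (a := (nat_lit 240)) (y := (nat_lit 240)) (z := (nat_lit 240)) (N := (nat_lit 24))
 (ndB (a := (nat_lit 160)) (y := (nat_lit 240)) (z := (nat_lit 320)) (N := (nat_lit 24))
 (ndB (a := (nat_lit 160)) (y := (nat_lit 160)) (z := (nat_lit 320)) (N := (nat_lit 24))
 (ndB (a := (nat_lit 160)) (y := (nat_lit 160)) (z := (nat_lit 240)) (N := (nat_lit 24))
 (ndB (a := (nat_lit 80)) (y := (nat_lit 400)) (z := (nat_lit 400)) (N := (nat_lit 24))
 .nil
 .nil (p014 h).2.1.2.2.1.2.2.2.1 (by decide +kernel))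
 .nil (p014 h).2.1.2.2.1.2.2.2.2 (by decide +kernel))
 (ndB (a := (nat_lit 160)) (y := (nat_lit 240)) (z := (nat_lit 240)) (N := (nat_lit 24))
 .nil
 .nil (p014 h).2.1.2.2.2.1.1.2.1 (by decide +kernel)) (p014 h).2.1.2.2.2.1.1.1 (by decide +kernel))
 (ndB (a := (nat_lit 160)) (y := (nat_lit 320)) (z := (nat_lit 400)) (N := (nat_lit 24))
 (ndB (a := (nat_lit 160)) (y := (nat_lit 320)) (z := (nat_lit 320)) (N := (nat_lit 24))
 (ndB (a := (nat_lit 160)) (y := (nat_lit 240)) (z := (nat_lit 400)) (N := (nat_lit 24))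
 .nil
 .nil (p014 h).2.1.2.2.2.1.2.1.1 (by decide +kernel))
 .nil (p014 h).2.1.2.2.2.1.2.1.2 (by decide +kernel))
 (ndB (a := (nat_lit 160)) (y := (nat_lit 400)) (z := (nat_lit 400)) (N := (nat_lit 24))
 .nil
 .nil (p014 h).2.1.2.2.2.1.2.2.2 (by decide +kernel)) (p014 h).2.1.2.2.2.1.2.2.1 (by decide +kernel)) (p014 h).2.1.2.2.2.1.1.2.2 (by decide +kernel))
 (ndB (a := (nat_lit 240)) (y := (nat_lit 400)) (z := (nat_lit 400)) (N := (nat_lit 24))
 (ndB (a := (nat_lit 240)) (y := (nat_lit 320)) (z := (nat_lit 320)) (N := (nat_lit 24))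
 (ndB (a := (nat_lit 240)) (y := (nat_lit 240)) (z := (nat_lit 400)) (N := (nat_lit 24))
 (ndB (a := (nat_lit 240)) (y := (nat_lit 240)) (z := (nat_lit 320)) (N := (nat_lit 24))
 .nil
 .nil (p014 h).2.1.2.2.2.2.1.2.1 (by decide +kernel))
 .nil (p014 h).2.1.2.2.2.2.1.2.2 (by decide +kernel))
 (ndB (a := (nat_lit 240)) (y := (nat_lit 320)) (z := (nat_lit 400)) (N := (nat_lit 24))
 .nil
 .nil (p014 h).2.1.2.2.2.2.2.1.2 (by decide +kernel)) (p014 h).2.1.2.2.2.2.2.1.1 (by decide +kernel))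
 (ndB (a := (nat_lit 320)) (y := (nat_lit 400)) (z := (nat_lit 400)) (N := (nat_lit 24))
 (ndB (a := (nat_lit 320)) (y := (nat_lit 320)) (z := (nat_lit 400)) (N := (nat_lit 24))
 (ndB (a := (nat_lit 320)) (y := (nat_lit 320)) (z := (nat_lit 320)) (N := (nat_lit 24))
 .nil
 .nil (p014 h).2.1.2.2.2.2.2.2.2 (by decide +kernel))
 .nil (p014 h).2.2.1.1.1.1.1.1 (by decide +kernel))
 (ndB (a := (nat_lit 400)) (y := (nat_lit 400)) (z := (nat_lit 400)) (N := (nat_lit 24))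
 .nil
 .nil (p014 h).2.2.1.1.1.1.1.2.2 (by decide +kernel)) (p014 h).2.2.1.1.1.1.1.2.1 (by decide +kernel)) (p014 h).2.1.2.2.2.2.2.2.1 (by decide +kernel)) (p014 h).2.1.2.2.2.2.1.1 (by decide +kernel)) (p014 h).2.1.2.2.1.2.2.1.2 (by decide +kernel))
theorem F64_ok (h : RcOK RE.rowE) : F64.OK := .of (by decide +kernel) (T64_ok h)
theorem T65_ok (h : RcOK RE.rowE) : TOK rd65 ks65 T65 := (ndB (a := (nat_lit 80)) (y := (nat_lit 160)) (z := (nat_lit 400)) (N := (nat_lit 32))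
 (ndB (a := (nat_lit 0)) (y := (nat_lit 240)) (z := (nat_lit 240)) (N := (nat_lit 32))
 (ndB (a := (nat_lit 0)) (y := (nat_lit 120)) (z := (nat_lit 160)) (N := (nat_lit 32))
 (ndB (a := (nat_lit 0)) (y := (nat_lit 80)) (z := (nat_lit 120)) (N := (nat_lit 32))
 (ndB (a := (nat_lit 0)) (y := (nat_lit 0)) (z := (nat_lit 240)) (N := (nat_lit 32))
 (ndB (a := (nat_lit 0)) (y := (nat_lit 0)) (z := (nat_lit 160)) (N := (nat_lit 32))
 (ndB (a := (nat_lit 0)) (y := (nat_lit 0)) (z := (nat_lit 120)) (N := (nat_lit 32))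
 .nil
 .nil (p014 h).2.2.1.1.1.1.2.1 (by decide +kernel))
 .nil (p014 h).2.2.1.1.1.1.2.2.1 (by decide +kernel))
 (ndB (a := (nat_lit 0)) (y := (nat_lit 0)) (z := (nat_lit 320)) (N := (nat_lit 32))
 .nil
 .nil (p014 h).2.2.1.1.1.2.1.1 (by decide +kernel)) (p014 h).2.2.1.1.1.1.2.2.2 (by decide +kernel))
 (ndB (a := (nat_lit 0)) (y := (nat_lit 80)) (z := (nat_lit 240)) (N := (nat_lit 32))
 (ndB (a := (nat_lit 0)) (y := (nat_lit 80)) (z := (nat_lit 160)) (N := (nat_lit 32))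
 .nil
 .nil (p014 h).2.2.1.1.1.2.1.2.2 (by decide +kernel))
 (ndB (a := (nat_lit 0)) (y := (nat_lit 80)) (z := (nat_lit 320)) (N := (nat_lit 32))
 .nil
 .nil (p014 h).2.2.1.1.1.2.2.1.2 (by decide +kernel)) (p014 h).2.2.1.1.1.2.2.1.1 (by decide +kernel)) (p014 h).2.2.1.1.1.2.1.2.1 (by decide +kernel))
 (ndB (a := (nat_lit 0)) (y := (nat_lit 160)) (z := (nat_lit 160)) (N := (nat_lit 32))
 (ndB (a := (nat_lit 0)) (y := (nat_lit 120)) (z := (nat_lit 320)) (N := (nat_lit 32))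
 (ndB (a := (nat_lit 0)) (y := (nat_lit 120)) (z := (nat_lit 240)) (N := (nat_lit 32))
 .nil
 .nil (p014 h).2.2.1.1.1.2.2.2.2 (by decide +kernel))
 (ndB (a := (nat_lit 0)) (y := (nat_lit 120)) (z := (nat_lit 400)) (N := (nat_lit 32))
 .nil
 .nil (p014 h).2.2.1.1.2.1.1.2.1 (by decide +kernel)) (p014 h).2.2.1.1.2.1.1.1 (by decide +kernel))
 (ndB (a := (nat_lit 0)) (y := (nat_lit 160)) (z := (nat_lit 320)) (N := (nat_lit 32))
 (ndB (a := (nat_lit 0)) (y := (nat_lit 160)) (z := (nat_lit 240)) (N := (nat_lit 32))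
 .nil
 .nil (p014 h).2.2.1.1.2.1.2.1 (by decide +kernel))
 (ndB (a := (nat_lit 0)) (y := (nat_lit 160)) (z := (nat_lit 400)) (N := (nat_lit 32))
 .nil
 .nil (p014 h).2.2.1.1.2.1.2.2.2 (by decide +kernel)) (p014 h).2.2.1.1.2.1.2.2.1 (by decide +kernel)) (p014 h).2.2.1.1.2.1.1.2.2 (by decide +kernel)) (p014 h).2.2.1.1.1.2.2.2.1 (by decide +kernel))
 (ndB (a := (nat_lit 80)) (y := (nat_lit 80)) (z := (nat_lit 320)) (N := (nat_lit 32))
 (ndB (a := (nat_lit 0)) (y := (nat_lit 320)) (z := (nat_lit 400)) (N := (nat_lit 32))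
 (ndB (a := (nat_lit 0)) (y := (nat_lit 240)) (z := (nat_lit 400)) (N := (nat_lit 32))
 (ndB (a := (nat_lit 0)) (y := (nat_lit 240)) (z := (nat_lit 320)) (N := (nat_lit 32))
 .nil
 .nil (p014 h).2.2.1.1.2.2.1.2.1 (by decide +kernel))
 (ndB (a := (nat_lit 0)) (y := (nat_lit 320)) (z := (nat_lit 320)) (N := (nat_lit 32))
 .nil
 .nil (p014 h).2.2.1.1.2.2.2.1.1 (by decide +kernel)) (p014 h).2.2.1.1.2.2.1.2.2 (by decide +kernel))
 (ndB (a := (nat_lit 80)) (y := (nat_lit 80)) (z := (nat_lit 160)) (N := (nat_lit 32))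
 (ndB (a := (nat_lit 80)) (y := (nat_lit 80)) (z := (nat_lit 120)) (N := (nat_lit 32))
 .nil
 .nil (p014 h).2.2.1.1.2.2.2.2.1 (by decide +kernel))
 (ndB (a := (nat_lit 80)) (y := (nat_lit 80)) (z := (nat_lit 240)) (N := (nat_lit 32))
 .nil
 .nil (p014 h).2.2.1.2.1.1.1.1 (by decide +kernel)) (p014 h).2.2.1.1.2.2.2.2.2 (by decide +kernel)) (p014 h).2.2.1.1.2.2.2.1.2 (by decide +kernel))
 (ndB (a := (nat_lit 80)) (y := (nat_lit 120)) (z := (nat_lit 400)) (N := (nat_lit 32))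
 (ndB (a := (nat_lit 80)) (y := (nat_lit 120)) (z := (nat_lit 240)) (N := (nat_lit 32))
 (ndB (a := (nat_lit 80)) (y := (nat_lit 120)) (z := (nat_lit 160)) (N := (nat_lit 32))
 .nil
 .nil (p014 h).2.2.1.2.1.1.1.2.2 (by decide +kernel))
 (ndB (a := (nat_lit 80)) (y := (nat_lit 120)) (z := (nat_lit 320)) (N := (nat_lit 32))
 .nil
 .nil (p014 h).2.2.1.2.1.1.2.2.1 (by decide +kernel)) (p014 h).2.2.1.2.1.1.2.1 (by decide +kernel))
 (ndB (a := (nat_lit 80)) (y := (nat_lit 160)) (z := (nat_lit 240)) (N := (nat_lit 32))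
 (ndB (a := (nat_lit 80)) (y := (nat_lit 160)) (z := (nat_lit 160)) (N := (nat_lit 32))
 .nil
 .nil (p014 h).2.2.1.2.1.2.1.1 (by decide +kernel))
 (ndB (a := (nat_lit 80)) (y := (nat_lit 160)) (z := (nat_lit 320)) (N := (nat_lit 32))
 .nil
 .nil (p014 h).2.2.1.2.1.2.1.2.2 (by decide +kernel)) (p014 h).2.2.1.2.1.2.1.2.1 (by decide +kernel)) (p014 h).2.2.1.2.1.1.2.2.2 (by decide +kernel)) (p014 h).2.2.1.2.1.1.1.2.1 (by decide +kernel)) (p014 h).2.2.1.1.2.2.1.1 (by decide +kernel))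
 (ndB (a := (nat_lit 160)) (y := (nat_lit 160)) (z := (nat_lit 160)) (N := (nat_lit 32))
 (ndB (a := (nat_lit 120)) (y := (nat_lit 160)) (z := (nat_lit 320)) (N := (nat_lit 32))
 (ndB (a := (nat_lit 80)) (y := (nat_lit 320)) (z := (nat_lit 320)) (N := (nat_lit 32))
 (ndB (a := (nat_lit 80)) (y := (nat_lit 240)) (z := (nat_lit 320)) (N := (nat_lit 32))
 (ndB (a := (nat_lit 80)) (y := (nat_lit 240)) (z := (nat_lit 240)) (N := (nat_lit 32))
 .nil
 .nil (p014 h).2.2.1.2.1.2.2.1.2 (by decide +kernel))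
 (ndB (a := (nat_lit 80)) (y := (nat_lit 240)) (z := (nat_lit 400)) (N := (nat_lit 32))
 .nil
 .nil (p014 h).2.2.1.2.1.2.2.2.2 (by decide +kernel)) (p014 h).2.2.1.2.1.2.2.2.1 (by decide +kernel))
 (ndB (a := (nat_lit 120)) (y := (nat_lit 160)) (z := (nat_lit 160)) (N := (nat_lit 32))
 (ndB (a := (nat_lit 80)) (y := (nat_lit 320)) (z := (nat_lit 400)) (N := (nat_lit 32))
 .nil
 .nil (p014 h).2.2.1.2.2.1.1.2.1 (by decide +kernel))
 (ndB (a := (nat_lit 120)) (y := (nat_lit 160)) (z := (nat_lit 240)) (N := (nat_lit 32))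
 .nil
 .nil (p014 h).2.2.1.2.2.1.2.1 (by decide +kernel)) (p014 h).2.2.1.2.2.1.1.2.2 (by decide +kernel)) (p014 h).2.2.1.2.2.1.1.1 (by decide +kernel))
 (ndB (a := (nat_lit 120)) (y := (nat_lit 240)) (z := (nat_lit 400)) (N := (nat_lit 32))
 (ndB (a := (nat_lit 120)) (y := (nat_lit 240)) (z := (nat_lit 240)) (N := (nat_lit 32))
 (ndB (a := (nat_lit 120)) (y := (nat_lit 160)) (z := (nat_lit 400)) (N := (nat_lit 32))
 .nil
 .nil (p014 h).2.2.1.2.2.1.2.2.2 (by decide +kernel))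
 (ndB (a := (nat_lit 120)) (y := (nat_lit 240)) (z := (nat_lit 320)) (N := (nat_lit 32))
 .nil
 .nil (p014 h).2.2.1.2.2.2.1.2.1 (by decide +kernel)) (p014 h).2.2.1.2.2.2.1.1 (by decide +kernel))
 (ndB (a := (nat_lit 120)) (y := (nat_lit 320)) (z := (nat_lit 400)) (N := (nat_lit 32))
 (ndB (a := (nat_lit 120)) (y := (nat_lit 320)) (z := (nat_lit 320)) (N := (nat_lit 32))
 .nil
 .nil (p014 h).2.2.1.2.2.2.2.1.1 (by decide +kernel))
 (ndB (a := (nat_lit 120)) (y := (nat_lit 400)) (z := (nat_lit 400)) (N := (nat_lit 32))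
 .nil
 .nil (p014 h).2.2.1.2.2.2.2.2.1 (by decide +kernel)) (p014 h).2.2.1.2.2.2.2.1.2 (by decide +kernel)) (p014 h).2.2.1.2.2.2.1.2.2 (by decide +kernel)) (p014 h).2.2.1.2.2.1.2.2.1 (by decide +kernel))
 (ndB (a := (nat_lit 160)) (y := (nat_lit 320)) (z := (nat_lit 400)) (N := (nat_lit 32))
 (ndB (a := (nat_lit 160)) (y := (nat_lit 240)) (z := (nat_lit 240)) (N := (nat_lit 32))
 (ndB (a := (nat_lit 160)) (y := (nat_lit 160)) (z := (nat_lit 320)) (N := (nat_lit 32))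
 (ndB (a := (nat_lit 160)) (y := (nat_lit 160)) (z := (nat_lit 240)) (N := (nat_lit 32))
 .nil
 .nil (p014 h).2.2.2.1.1.1.1.1 (by decide +kernel))
 (ndB (a := (nat_lit 160)) (y := (nat_lit 160)) (z := (nat_lit 400)) (N := (nat_lit 32))
 .nil
 .nil (p014 h).2.2.2.1.1.1.1.2.2 (by decide +kernel)) (p014 h).2.2.2.1.1.1.1.2.1 (by decide +kernel))
 (ndB (a := (nat_lit 160)) (y := (nat_lit 240)) (z := (nat_lit 400)) (N := (nat_lit 32))
 (ndB (a := (nat_lit 160)) (y := (nat_lit 240)) (z := (nat_lit 320)) (N := (nat_lit 32))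
 .nil
 .nil (p014 h).2.2.2.1.1.1.2.2.1 (by decide +kernel))
 (ndB (a := (nat_lit 160)) (y := (nat_lit 320)) (z := (nat_lit 320)) (N := (nat_lit 32))
 .nil
 .nil (p014 h).2.2.2.1.1.2.1.1 (by decide +kernel)) (p014 h).2.2.2.1.1.1.2.2.2 (by decide +kernel)) (p014 h).2.2.2.1.1.1.2.1 (by decide +kernel))
 (ndB (a := (nat_lit 240)) (y := (nat_lit 240)) (z := (nat_lit 400)) (N := (nat_lit 32))
 (ndB (a := (nat_lit 240)) (y := (nat_lit 240)) (z := (nat_lit 240)) (N := (nat_lit 32))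
 (ndB (a := (nat_lit 160)) (y := (nat_lit 400)) (z := (nat_lit 400)) (N := (nat_lit 32))
 .nil
 .nil (p014 h).2.2.2.1.1.2.1.2.2 (by decide +kernel))
 (ndB (a := (nat_lit 240)) (y := (nat_lit 240)) (z := (nat_lit 320)) (N := (nat_lit 32))
 .nil
 .nil (p014 h).2.2.2.1.1.2.2.1.2 (by decide +kernel)) (p014 h).2.2.2.1.1.2.2.1.1 (by decide +kernel))
 (ndB (a := (nat_lit 240)) (y := (nat_lit 320)) (z := (nat_lit 400)) (N := (nat_lit 32))
 (ndB (a := (nat_lit 240)) (y := (nat_lit 320)) (z := (nat_lit 320)) (N := (nat_lit 32))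
 .nil
 .nil (p014 h).2.2.2.1.1.2.2.2.2 (by decide +kernel))
 (ndB (a := (nat_lit 240)) (y := (nat_lit 400)) (z := (nat_lit 400)) (N := (nat_lit 32))
 .nil
 .nil (p014 h).2.2.2.1.2.1.1.2.1 (by decide +kernel)) (p014 h).2.2.2.1.2.1.1.1 (by decide +kernel)) (p014 h).2.2.2.1.1.2.2.2.1 (by decide +kernel)) (p014 h).2.2.2.1.1.2.1.2.1 (by decide +kernel)) (p014 h).2.2.1.2.2.2.2.2.2 (by decide +kernel)) (p014 h).2.2.1.2.1.2.2.1.1 (by decide +kernel))
theorem F65_ok (h : RcOK RE.rowE) : F65.OK := .of (by decide +kernel) (T65_ok h)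
theorem T66_ok (h : RcOK RE.rowE) : TOK rd66 ks66 T66 := (ndB (a := (nat_lit 80)) (y := (nat_lit 240)) (z := (nat_lit 320)) (N := (nat_lit 28))
 (ndB (a := (nat_lit 0)) (y := (nat_lit 240)) (z := (nat_lit 320)) (N := (nat_lit 28))
 (ndB (a := (nat_lit 0)) (y := (nat_lit 80)) (z := (nat_lit 320)) (N := (nat_lit 28))
 (ndB (a := (nat_lit 0)) (y := (nat_lit 0)) (z := (nat_lit 320)) (N := (nat_lit 28))
 (ndB (a := (nat_lit 0)) (y := (nat_lit 0)) (z := (nat_lit 240)) (N := (nat_lit 28))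
 (ndB (a := (nat_lit 0)) (y := (nat_lit 0)) (z := (nat_lit 160)) (N := (nat_lit 28))
 .nil
 .nil (p014 h).2.2.2.1.2.1.1.2.2 (by decide +kernel))
 .nil (p014 h).2.2.2.1.2.1.2.1 (by decide +kernel))
 (ndB (a := (nat_lit 0)) (y := (nat_lit 80)) (z := (nat_lit 240)) (N := (nat_lit 28))
 (ndB (a := (nat_lit 0)) (y := (nat_lit 80)) (z := (nat_lit 160)) (N := (nat_lit 28))
 .nil
 .nil (p014 h).2.2.2.1.2.1.2.2.2 (by decide +kernel))
 .nil (p014 h).2.2.2.1.2.2.1.1 (by decide +kernel)) (p014 h).2.2.2.1.2.1.2.2.1 (by decide +kernel))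
 (ndB (a := (nat_lit 0)) (y := (nat_lit 160)) (z := (nat_lit 320)) (N := (nat_lit 28))
 (ndB (a := (nat_lit 0)) (y := (nat_lit 160)) (z := (nat_lit 240)) (N := (nat_lit 28))
 (ndB (a := (nat_lit 0)) (y := (nat_lit 160)) (z := (nat_lit 160)) (N := (nat_lit 28))
 .nil
 .nil (p014 h).2.2.2.1.2.2.1.2.2 (by decide +kernel))
 .nil (p014 h).2.2.2.1.2.2.2.1.1 (by decide +kernel))
 (ndB (a := (nat_lit 0)) (y := (nat_lit 240)) (z := (nat_lit 240)) (N := (nat_lit 28))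
 (ndB (a := (nat_lit 0)) (y := (nat_lit 160)) (z := (nat_lit 400)) (N := (nat_lit 28))
 .nil
 .nil (p014 h).2.2.2.1.2.2.2.2.1 (by decide +kernel))
 .nil (p014 h).2.2.2.1.2.2.2.2.2 (by decide +kernel)) (p014 h).2.2.2.1.2.2.2.1.2 (by decide +kernel)) (p014 h).2.2.2.1.2.2.1.2.1 (by decide +kernel))
 (ndB (a := (nat_lit 80)) (y := (nat_lit 80)) (z := (nat_lit 320)) (N := (nat_lit 28))
 (ndB (a := (nat_lit 0)) (y := (nat_lit 320)) (z := (nat_lit 400)) (N := (nat_lit 28))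
 (ndB (a := (nat_lit 0)) (y := (nat_lit 320)) (z := (nat_lit 320)) (N := (nat_lit 28))
 (ndB (a := (nat_lit 0)) (y := (nat_lit 240)) (z := (nat_lit 400)) (N := (nat_lit 28))
 .nil
 .nil (p014 h).2.2.2.2.1.1.1.2.1 (by decide +kernel))
 .nil (p014 h).2.2.2.2.1.1.1.2.2 (by decide +kernel))
 (ndB (a := (nat_lit 80)) (y := (nat_lit 80)) (z := (nat_lit 240)) (N := (nat_lit 28))
 (ndB (a := (nat_lit 80)) (y := (nat_lit 80)) (z := (nat_lit 160)) (N := (nat_lit 28))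
 .nil
 .nil (p014 h).2.2.2.2.1.1.2.2.1 (by decide +kernel))
 .nil (p014 h).2.2.2.2.1.1.2.2.2 (by decide +kernel)) (p014 h).2.2.2.2.1.1.2.1 (by decide +kernel))
 (ndB (a := (nat_lit 80)) (y := (nat_lit 160)) (z := (nat_lit 320)) (N := (nat_lit 28))
 (ndB (a := (nat_lit 80)) (y := (nat_lit 160)) (z := (nat_lit 240)) (N := (nat_lit 28))
 (ndB (a := (nat_lit 80)) (y := (nat_lit 160)) (z := (nat_lit 160)) (N := (nat_lit 28))
 .nil
 .nil (p014 h).2.2.2.2.1.2.1.2.1 (by decide +kernel))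
 .nil (p014 h).2.2.2.2.1.2.1.2.2 (by decide +kernel))
 (ndB (a := (nat_lit 80)) (y := (nat_lit 240)) (z := (nat_lit 240)) (N := (nat_lit 28))
 (ndB (a := (nat_lit 80)) (y := (nat_lit 160)) (z := (nat_lit 400)) (N := (nat_lit 28))
 .nil
 .nil (p014 h).2.2.2.2.1.2.2.1.2 (by decide +kernel))
 .nil (p014 h).2.2.2.2.1.2.2.2.1 (by decide +kernel)) (p014 h).2.2.2.2.1.2.2.1.1 (by decide +kernel)) (p014 h).2.2.2.2.1.2.1.1 (by decide +kernel)) (p014 h).2.2.2.2.1.1.1.1 (by decide +kernel))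
 (ndB (a := (nat_lit 160)) (y := (nat_lit 320)) (z := (nat_lit 400)) (N := (nat_lit 28))
 (ndB (a := (nat_lit 160)) (y := (nat_lit 160)) (z := (nat_lit 320)) (N := (nat_lit 28))
 (ndB (a := (nat_lit 80)) (y := (nat_lit 320)) (z := (nat_lit 400)) (N := (nat_lit 28))
 (ndB (a := (nat_lit 80)) (y := (nat_lit 320)) (z := (nat_lit 320)) (N := (nat_lit 28))
 (ndB (a := (nat_lit 80)) (y := (nat_lit 240)) (z := (nat_lit 400)) (N := (nat_lit 28))
 .nil
 .nil (p014 h).2.2.2.2.2.1.1.1 (by decide +kernel))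
 .nil (p014 h).2.2.2.2.2.1.1.2.1 (by decide +kernel))
 (ndB (a := (nat_lit 160)) (y := (nat_lit 160)) (z := (nat_lit 240)) (N := (nat_lit 28))
 (ndB (a := (nat_lit 160)) (y := (nat_lit 160)) (z := (nat_lit 160)) (N := (nat_lit 28))
 .nil
 .nil (p014 h).2.2.2.2.2.1.2.1.1 (by decide +kernel))
 .nil (p014 h).2.2.2.2.2.1.2.1.2 (by decide +kernel)) (p014 h).2.2.2.2.2.1.1.2.2 (by decide +kernel))
 (ndB (a := (nat_lit 160)) (y := (nat_lit 240)) (z := (nat_lit 320)) (N := (nat_lit 28))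
 (ndB (a := (nat_lit 160)) (y := (nat_lit 240)) (z := (nat_lit 240)) (N := (nat_lit 28))
 (ndB (a := (nat_lit 160)) (y := (nat_lit 160)) (z := (nat_lit 400)) (N := (nat_lit 28))
 .nil
 .nil (p014 h).2.2.2.2.2.1.2.2.2 (by decide +kernel))
 .nil (p014 h).2.2.2.2.2.2.1.1 (by decide +kernel))
 (ndB (a := (nat_lit 160)) (y := (nat_lit 320)) (z := (nat_lit 320)) (N := (nat_lit 28))
 (ndB (a := (nat_lit 160)) (y := (nat_lit 240)) (z := (nat_lit 400)) (N := (nat_lit 28))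
 .nil
 .nil (p014 h).2.2.2.2.2.2.1.2.2 (by decide +kernel))
 .nil (p014 h).2.2.2.2.2.2.2.1.1 (by decide +kernel)) (p014 h).2.2.2.2.2.2.1.2.1 (by decide +kernel)) (p014 h).2.2.2.2.2.1.2.2.1 (by decide +kernel))
 (ndB (a := (nat_lit 240)) (y := (nat_lit 320)) (z := (nat_lit 400)) (N := (nat_lit 28))
 (ndB (a := (nat_lit 240)) (y := (nat_lit 240)) (z := (nat_lit 320)) (N := (nat_lit 28))
 (ndB (a := (nat_lit 240)) (y := (nat_lit 240)) (z := (nat_lit 240)) (N := (nat_lit 28))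
 (ndB (a := (nat_lit 160)) (y := (nat_lit 400)) (z := (nat_lit 400)) (N := (nat_lit 28))
 .nil
 .nil (p014 h).2.2.2.2.2.2.2.2.1 (by decide +kernel))
 .nil (p014 h).2.2.2.2.2.2.2.2.2 (by decide +kernel))
 (ndB (a := (nat_lit 240)) (y := (nat_lit 320)) (z := (nat_lit 320)) (N := (nat_lit 28))
 (ndB (a := (nat_lit 240)) (y := (nat_lit 240)) (z := (nat_lit 400)) (N := (nat_lit 28))
 .nil
 .nil (p015 h).1.1.1.1.1.2 (by decide +kernel))
 .nil (p015 h).1.1.1.1.2.1 (by decide +kernel)) (p015 h).1.1.1.1.1.1 (by decide +kernel))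
 (ndB (a := (nat_lit 320)) (y := (nat_lit 320)) (z := (nat_lit 400)) (N := (nat_lit 28))
 (ndB (a := (nat_lit 320)) (y := (nat_lit 320)) (z := (nat_lit 320)) (N := (nat_lit 28))
 (ndB (a := (nat_lit 240)) (y := (nat_lit 400)) (z := (nat_lit 400)) (N := (nat_lit 28))
 .nil
 .nil (p015 h).1.1.1.2.1.1 (by decide +kernel))
 .nil (p015 h).1.1.1.2.1.2 (by decide +kernel))
 (ndB (a := (nat_lit 320)) (y := (nat_lit 400)) (z := (nat_lit 400)) (N := (nat_lit 28))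
 .nil
 .nil (p015 h).1.1.1.2.2.2.1 (by decide +kernel)) (p015 h).1.1.1.2.2.1 (by decide +kernel)) (p015 h).1.1.1.1.2.2 (by decide +kernel)) (p014 h).2.2.2.2.2.2.2.1.2 (by decide +kernel)) (p014 h).2.2.2.2.1.2.2.2.2 (by decide +kernel))
theorem F66_ok (h : RcOK RE.rowE) : F66.OK := .of (by decide +kernel) (T66_ok h)
theorem T67_ok (h : RcOK RE.rowE) : TOK rd67 ks67 T67 := (ndB (a := (nat_lit 80)) (y := (nat_lit 240)) (z := (nat_lit 240)) (N := (nat_lit 30))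
 (ndB (a := (nat_lit 0)) (y := (nat_lit 240)) (z := (nat_lit 240)) (N := (nat_lit 30))
 (ndB (a := (nat_lit 0)) (y := (nat_lit 120)) (z := (nat_lit 160)) (N := (nat_lit 30))
 (ndB (a := (nat_lit 0)) (y := (nat_lit 80)) (z := (nat_lit 120)) (N := (nat_lit 30))
 (ndB (a := (nat_lit 0)) (y := (nat_lit 0)) (z := (nat_lit 240)) (N := (nat_lit 30))
 (ndB (a := (nat_lit 0)) (y := (nat_lit 0)) (z := (nat_lit 160)) (N := (nat_lit 30))
 (ndB (a := (nat_lit 0)) (y := (nat_lit 0)) (z := (nat_lit 120)) (N := (nat_lit 30))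
 .nil
 .nil (p015 h).1.1.1.2.2.2.2 (by decide +kernel))
 .nil (p015 h).1.1.2.1.1.1 (by decide +kernel))
 (ndB (a := (nat_lit 0)) (y := (nat_lit 0)) (z := (nat_lit 320)) (N := (nat_lit 30))
 .nil
 .nil (p015 h).1.1.2.1.2.1 (by decide +kernel)) (p015 h).1.1.2.1.1.2 (by decide +kernel))
 (ndB (a := (nat_lit 0)) (y := (nat_lit 80)) (z := (nat_lit 240)) (N := (nat_lit 30))
 (ndB (a := (nat_lit 0)) (y := (nat_lit 80)) (z := (nat_lit 160)) (N := (nat_lit 30))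
 .nil
 .nil (p015 h).1.1.2.2.1.1 (by decide +kernel))
 (ndB (a := (nat_lit 0)) (y := (nat_lit 80)) (z := (nat_lit 320)) (N := (nat_lit 30))
 .nil
 .nil (p015 h).1.1.2.2.2.1 (by decide +kernel)) (p015 h).1.1.2.2.1.2 (by decide +kernel)) (p015 h).1.1.2.1.2.2 (by decide +kernel))
 (ndB (a := (nat_lit 0)) (y := (nat_lit 160)) (z := (nat_lit 160)) (N := (nat_lit 30))
 (ndB (a := (nat_lit 0)) (y := (nat_lit 120)) (z := (nat_lit 320)) (N := (nat_lit 30))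
 (ndB (a := (nat_lit 0)) (y := (nat_lit 120)) (z := (nat_lit 240)) (N := (nat_lit 30))
 .nil
 .nil (p015 h).1.1.2.2.2.2.2 (by decide +kernel))
 (ndB (a := (nat_lit 0)) (y := (nat_lit 120)) (z := (nat_lit 400)) (N := (nat_lit 30))
 .nil
 .nil (p015 h).1.2.1.1.1.2 (by decide +kernel)) (p015 h).1.2.1.1.1.1 (by decide +kernel))
 (ndB (a := (nat_lit 0)) (y := (nat_lit 160)) (z := (nat_lit 320)) (N := (nat_lit 30))
 (ndB (a := (nat_lit 0)) (y := (nat_lit 160)) (z := (nat_lit 240)) (N := (nat_lit 30))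
 .nil
 .nil (p015 h).1.2.1.1.2.2 (by decide +kernel))
 (ndB (a := (nat_lit 0)) (y := (nat_lit 160)) (z := (nat_lit 400)) (N := (nat_lit 30))
 .nil
 .nil (p015 h).1.2.1.2.1.2 (by decide +kernel)) (p015 h).1.2.1.2.1.1 (by decide +kernel)) (p015 h).1.2.1.1.2.1 (by decide +kernel)) (p015 h).1.1.2.2.2.2.1 (by decide +kernel))
 (ndB (a := (nat_lit 80)) (y := (nat_lit 120)) (z := (nat_lit 160)) (N := (nat_lit 30))
 (ndB (a := (nat_lit 80)) (y := (nat_lit 80)) (z := (nat_lit 120)) (N := (nat_lit 30))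
 (ndB (a := (nat_lit 0)) (y := (nat_lit 320)) (z := (nat_lit 320)) (N := (nat_lit 30))
 (ndB (a := (nat_lit 0)) (y := (nat_lit 240)) (z := (nat_lit 400)) (N := (nat_lit 30))
 (ndB (a := (nat_lit 0)) (y := (nat_lit 240)) (z := (nat_lit 320)) (N := (nat_lit 30))
 .nil
 .nil (p015 h).1.2.1.2.2.2.1 (by decide +kernel))
 .nil (p015 h).1.2.1.2.2.2.2 (by decide +kernel))
 (ndB (a := (nat_lit 0)) (y := (nat_lit 320)) (z := (nat_lit 400)) (N := (nat_lit 30))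
 .nil
 .nil (p015 h).1.2.2.1.1.2 (by decide +kernel)) (p015 h).1.2.2.1.1.1 (by decide +kernel))
 (ndB (a := (nat_lit 80)) (y := (nat_lit 80)) (z := (nat_lit 240)) (N := (nat_lit 30))
 (ndB (a := (nat_lit 80)) (y := (nat_lit 80)) (z := (nat_lit 160)) (N := (nat_lit 30))
 .nil
 .nil (p015 h).1.2.2.1.2.2.1 (by decide +kernel))
 (ndB (a := (nat_lit 80)) (y := (nat_lit 80)) (z := (nat_lit 320)) (N := (nat_lit 30))
 .nil
 .nil (p015 h).1.2.2.2.1.1 (by decide +kernel)) (p015 h).1.2.2.1.2.2.2 (by decide +kernel)) (p015 h).1.2.2.1.2.1 (by decide +kernel))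
 (ndB (a := (nat_lit 80)) (y := (nat_lit 160)) (z := (nat_lit 160)) (N := (nat_lit 30))
 (ndB (a := (nat_lit 80)) (y := (nat_lit 120)) (z := (nat_lit 320)) (N := (nat_lit 30))
 (ndB (a := (nat_lit 80)) (y := (nat_lit 120)) (z := (nat_lit 240)) (N := (nat_lit 30))
 .nil
 .nil (p015 h).1.2.2.2.2.1 (by decide +kernel))
 (ndB (a := (nat_lit 80)) (y := (nat_lit 120)) (z := (nat_lit 400)) (N := (nat_lit 30))
 .nil
 .nil (p015 h).1.2.2.2.2.2.2 (by decide +kernel)) (p015 h).1.2.2.2.2.2.1 (by decide +kernel))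
 (ndB (a := (nat_lit 80)) (y := (nat_lit 160)) (z := (nat_lit 320)) (N := (nat_lit 30))
 (ndB (a := (nat_lit 80)) (y := (nat_lit 160)) (z := (nat_lit 240)) (N := (nat_lit 30))
 .nil
 .nil (p015 h).2.1.1.1.1.2 (by decide +kernel))
 (ndB (a := (nat_lit 80)) (y := (nat_lit 160)) (z := (nat_lit 400)) (N := (nat_lit 30))
 .nil
 .nil (p015 h).2.1.1.1.2.2 (by decide +kernel)) (p015 h).2.1.1.1.2.1 (by decide +kernel)) (p015 h).2.1.1.1.1.1 (by decide +kernel)) (p015 h).1.2.2.2.1.2 (by decide +kernel)) (p015 h).1.2.1.2.2.1 (by decide +kernel))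
 (ndB (a := (nat_lit 160)) (y := (nat_lit 160)) (z := (nat_lit 320)) (N := (nat_lit 30))
 (ndB (a := (nat_lit 120)) (y := (nat_lit 240)) (z := (nat_lit 240)) (N := (nat_lit 30))
 (ndB (a := (nat_lit 120)) (y := (nat_lit 160)) (z := (nat_lit 160)) (N := (nat_lit 30))
 (ndB (a := (nat_lit 80)) (y := (nat_lit 320)) (z := (nat_lit 320)) (N := (nat_lit 30))
 (ndB (a := (nat_lit 80)) (y := (nat_lit 240)) (z := (nat_lit 400)) (N := (nat_lit 30))
 (ndB (a := (nat_lit 80)) (y := (nat_lit 240)) (z := (nat_lit 320)) (N := (nat_lit 30))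
 .nil
 .nil (p015 h).2.1.1.2.1.2 (by decide +kernel))
 .nil (p015 h).2.1.1.2.2.1 (by decide +kernel))
 (ndB (a := (nat_lit 80)) (y := (nat_lit 320)) (z := (nat_lit 400)) (N := (nat_lit 30))
 .nil
 .nil (p015 h).2.1.1.2.2.2.2 (by decide +kernel)) (p015 h).2.1.1.2.2.2.1 (by decide +kernel))
 (ndB (a := (nat_lit 120)) (y := (nat_lit 160)) (z := (nat_lit 320)) (N := (nat_lit 30))
 (ndB (a := (nat_lit 120)) (y := (nat_lit 160)) (z := (nat_lit 240)) (N := (nat_lit 30))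
 .nil
 .nil (p015 h).2.1.2.1.1.2 (by decide +kernel))
 (ndB (a := (nat_lit 120)) (y := (nat_lit 160)) (z := (nat_lit 400)) (N := (nat_lit 30))
 .nil
 .nil (p015 h).2.1.2.1.2.2.1 (by decide +kernel)) (p015 h).2.1.2.1.2.1 (by decide +kernel)) (p015 h).2.1.2.1.1.1 (by decide +kernel))
 (ndB (a := (nat_lit 120)) (y := (nat_lit 320)) (z := (nat_lit 400)) (N := (nat_lit 30))
 (ndB (a := (nat_lit 120)) (y := (nat_lit 240)) (z := (nat_lit 400)) (N := (nat_lit 30))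
 (ndB (a := (nat_lit 120)) (y := (nat_lit 240)) (z := (nat_lit 320)) (N := (nat_lit 30))
 .nil
 .nil (p015 h).2.1.2.2.1.1 (by decide +kernel))
 (ndB (a := (nat_lit 120)) (y := (nat_lit 320)) (z := (nat_lit 320)) (N := (nat_lit 30))
 .nil
 .nil (p015 h).2.1.2.2.2.1 (by decide +kernel)) (p015 h).2.1.2.2.1.2 (by decide +kernel))
 (ndB (a := (nat_lit 160)) (y := (nat_lit 160)) (z := (nat_lit 160)) (N := (nat_lit 30))
 (ndB (a := (nat_lit 120)) (y := (nat_lit 400)) (z := (nat_lit 400)) (N := (nat_lit 30))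
 .nil
 .nil (p015 h).2.1.2.2.2.2.2 (by decide +kernel))
 (ndB (a := (nat_lit 160)) (y := (nat_lit 160)) (z := (nat_lit 240)) (N := (nat_lit 30))
 .nil
 .nil (p015 h).2.2.1.1.1.2 (by decide +kernel)) (p015 h).2.2.1.1.1.1 (by decide +kernel)) (p015 h).2.1.2.2.2.2.1 (by decide +kernel)) (p015 h).2.1.2.1.2.2.2 (by decide +kernel))
 (ndB (a := (nat_lit 240)) (y := (nat_lit 240)) (z := (nat_lit 320)) (N := (nat_lit 30))
 (ndB (a := (nat_lit 160)) (y := (nat_lit 320)) (z := (nat_lit 320)) (N := (nat_lit 30))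
 (ndB (a := (nat_lit 160)) (y := (nat_lit 240)) (z := (nat_lit 320)) (N := (nat_lit 30))
 (ndB (a := (nat_lit 160)) (y := (nat_lit 240)) (z := (nat_lit 240)) (N := (nat_lit 30))
 (ndB (a := (nat_lit 160)) (y := (nat_lit 160)) (z := (nat_lit 400)) (N := (nat_lit 30))
 .nil
 .nil (p015 h).2.2.1.1.2.2 (by decide +kernel))
 .nil (p015 h).2.2.1.2.1.1 (by decide +kernel))
 (ndB (a := (nat_lit 160)) (y := (nat_lit 240)) (z := (nat_lit 400)) (N := (nat_lit 30))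
 .nil
 .nil (p015 h).2.2.1.2.2.1 (by decide +kernel)) (p015 h).2.2.1.2.1.2 (by decide +kernel))
 (ndB (a := (nat_lit 160)) (y := (nat_lit 400)) (z := (nat_lit 400)) (N := (nat_lit 30))
 (ndB (a := (nat_lit 160)) (y := (nat_lit 320)) (z := (nat_lit 400)) (N := (nat_lit 30))
 .nil
 .nil (p015 h).2.2.1.2.2.2.2 (by decide +kernel))
 (ndB (a := (nat_lit 240)) (y := (nat_lit 240)) (z := (nat_lit 240)) (N := (nat_lit 30))
 .nil
 .nil (p015 h).2.2.2.1.1.2 (by decide +kernel)) (p015 h).2.2.2.1.1.1 (by decide +kernel)) (p015 h).2.2.1.2.2.2.1 (by decide +kernel))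
 (ndB (a := (nat_lit 240)) (y := (nat_lit 400)) (z := (nat_lit 400)) (N := (nat_lit 30))
 (ndB (a := (nat_lit 240)) (y := (nat_lit 320)) (z := (nat_lit 320)) (N := (nat_lit 30))
 (ndB (a := (nat_lit 240)) (y := (nat_lit 240)) (z := (nat_lit 400)) (N := (nat_lit 30))
 .nil
 .nil (p015 h).2.2.2.1.2.2.1 (by decide +kernel))
 (ndB (a := (nat_lit 240)) (y := (nat_lit 320)) (z := (nat_lit 400)) (N := (nat_lit 30))
 .nil
 .nil (p015 h).2.2.2.2.1.1 (by decide +kernel)) (p015 h).2.2.2.1.2.2.2 (by decide +kernel))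
 (ndB (a := (nat_lit 320)) (y := (nat_lit 320)) (z := (nat_lit 400)) (N := (nat_lit 30))
 (ndB (a := (nat_lit 320)) (y := (nat_lit 320)) (z := (nat_lit 320)) (N := (nat_lit 30))
 .nil
 .nil (p015 h).2.2.2.2.2.1 (by decide +kernel))
 (ndB (a := (nat_lit 320)) (y := (nat_lit 400)) (z := (nat_lit 400)) (N := (nat_lit 30))
 .nil
 .nil (p015 h).2.2.2.2.2.2.2 (by decide +kernel)) (p015 h).2.2.2.2.2.2.1 (by decide +kernel)) (p015 h).2.2.2.2.1.2 (by decide +kernel)) (p015 h).2.2.2.1.2.1 (by decide +kernel)) (p015 h).2.2.1.1.2.1 (by decide +kernel)) (p015 h).2.1.1.2.1.1 (by decide +kernel))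
theorem F67_ok (h : RcOK RE.rowE) : F67.OK := .of (by decide +kernel) (T67_ok h)
end TC
end Pool.Agent.Lib.MP_6947cd_al
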