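import Pool.Agent.Lib.MP_6947cd_al.TC.O00
import Pool.Agent.Lib.MP_6947cd_al.TC.O01
import Pool.Agent.Lib.MP_6947cd_al.TC.O02
import Pool.Agent.Lib.MP_6947cd_al.TC.O03
import Pool.Agent.Lib.MP_6947cd_al.TC.O04
import Pool.Agent.Lib.MP_6947cd_al.TC.O05
import Pool.Agent.Lib.MP_6947cd_al.TC.O06

/-!
Problem MP_6947cd_al (Chollet).  CASE C, tables and certificates.  All the tables are correct.
-/

set_option autoImplicit false
set_option linter.all false
set_option maxRecDepth 100000
set_option maxHeartbeats 4000000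
namespace Pool.Agent.Lib.MP_6947cd_al
namespace TC
open PkA PkA.TF
/-- all the tables are correct -/
theorem env_ok (h : RcOK RE.rowE) : EnvF env := by
  unfold env
  exact .cons (F0_ok h) <|
    .cons (F1_ok h) <|
    .cons (F2_ok h) <|
    .cons (F3_ok h) <|
    .cons (F4_ok h) <|
    .cons (F5_ok h) <|
    .cons (F6_ok h) <|
    .cons (F7_ok h) <|
    .cons (F8_ok h) <|
    .cons (F9_ok h) <|
    .cons (F10_ok h) <|
    .cons (F11_ok h) <|
    .cons (F12_ok h) <|
    .cons (F13_ok h) <|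
    .cons (F14_ok h) <|
    .cons (F15_ok h) <|
    .cons (F16_ok h) <|
    .cons (F17_ok h) <|
    .cons (F18_ok h) <|
    .cons (F19_ok h) <|
    .cons (F20_ok h) <|
    .cons (F21_ok h) <|
    .cons (F22_ok h) <|
    .cons (F23_ok h) <|
    .cons (F24_ok h) <|
    .cons (F25_ok h) <|
    .cons (F26_ok h) <|
    .cons (F27_ok h) <|
    .cons (F28_ok h) <|
    .cons (F29_ok h) <|
    .cons (F30_ok h) <|
    .cons (F31_ok h) <|
    .cons (F32_ok h) <|
    .cons (F33_ok h) <|
    .cons (F34_ok h) <|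
    .cons (F35_ok h) <|
    .cons (F36_ok h) <|
    .cons (F37_ok h) <|
    .cons (F38_ok h) <|
    .cons (F39_ok h) <|
    .cons (F40_ok h) <|
    .cons (F41_ok h) <|
    .cons (F42_ok h) <|
    .cons (F43_ok h) <|
    .cons (F44_ok h) <|
    .cons (F45_ok h) <|
    .cons (F46_ok h) <|
    .cons (F47_ok h) <|
    .cons (F48_ok h) <|
    .cons (F49_ok h) <|
    .cons (F50_ok h) <|
    .cons (F51_ok h) <|
    .cons (F52_ok h) <|
    .cons (F53_ok h) <|
    .cons (F54_ok h) <|
    .cons (F55_ok h) <|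
    .cons (F56_ok h) <|
    .cons (F57_ok h) <|
    .cons (F58_ok h) <|
    .cons (F59_ok h) <|
    .cons (F60_ok h) <|
    .cons (F61_ok h) <|
    .cons (F62_ok h) <|
    .cons (F63_ok h) <|
    .cons (F64_ok h) <|
    .cons (F65_ok h) <|
    .cons (F66_ok h) <|
    .cons (F67_ok h) <| .nil
end TC
end Pool.Agent.Lib.MP_6947cd_al
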