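import Pool.Agent.Lib.MP_6947cd_al.TC.Fin
import Pool.Agent.Lib.MP_6947cd_al.TC.OK
import Pool.Agent.Lib.MP_6947cd_al.TC.EOK
import Pool.Agent.Lib.MP_6947cd_al.C.LibAll
import Pool.Agent.Lib.MP_6947cd_al.L.ReE

/-!
Problem MP_6947cd_al (Chollet).  CASE C, tables and certificates.  The statement of case C.
-/

set_option autoImplicit false
set_option linter.all false
set_option maxRecDepth 100000
set_option maxHeartbeats 4000000
namespace Pool.Agent.Lib.MP_6947cd_al
namespace TC
open Ent Ent.Pk Fr Fr.WT CC B1 B2 PkA C1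
/-- **CASE C.** -/
theorem specC : LL.SpecC What := specC_env ⟨CB.libIIC, env_ok RE.rcOK_rowE, Ei_ok⟩
end TC
end Pool.Agent.Lib.MP_6947cd_al
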