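
/-!
Problem MP_6947cd_al (Chollet).  CASE C, tables and certificates.  Radices and knots of the families of tables.
-/

set_option autoImplicit false
set_option linter.all false
namespace Pool.Agent.Lib.MP_6947cd_al
namespace TC
def rd0 : List Nat := [(nat_lit 11)]
def ks0 : List Nat := [(nat_lit 40)]
def rd1 : List Nat := [(nat_lit 11), (nat_lit 5)]
def ks1 : List Nat := [(nat_lit 40), (nat_lit 60)]
def rd2 : List Nat := [(nat_lit 14), (nat_lit 10), (nat_lit 4)]
def ks2 : List Nat := [(nat_lit 40), (nat_lit 60), (nat_lit 80)]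
def rd3 : List Nat := [(nat_lit 19), (nat_lit 9), (nat_lit 4)]
def ks3 : List Nat := [(nat_lit 40), (nat_lit 80), (nat_lit 100)]
def rd4 : List Nat := [(nat_lit 22), (nat_lit 12), (nat_lit 5)]
def ks4 : List Nat := [(nat_lit 40), (nat_lit 80), (nat_lit 120)]
def rd5 : List Nat := [(nat_lit 30), (nat_lit 14), (nat_lit 5)]
def ks5 : List Nat := [(nat_lit 40), (nat_lit 100), (nat_lit 140)]
def rd6 : List Nat := [(nat_lit 25), (nat_lit 12), (nat_lit 5)]
def ks6 : List Nat := [(nat_lit 40), (nat_lit 100), (nat_lit 160)]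
def rd7 : List Nat := [(nat_lit 17), (nat_lit 8), (nat_lit 5)]
def ks7 : List Nat := [(nat_lit 40), (nat_lit 120), (nat_lit 180)]
def rd8 : List Nat := [(nat_lit 7), (nat_lit 5)]
def ks8 : List Nat := [(nat_lit 60), (nat_lit 80)]
def rd9 : List Nat := [(nat_lit 14), (nat_lit 10), (nat_lit 4)]
def ks9 : List Nat := [(nat_lit 60), (nat_lit 80), (nat_lit 100)]
def rd10 : List Nat := [(nat_lit 19), (nat_lit 12), (nat_lit 4)]
def ks10 : List Nat := [(nat_lit 60), (nat_lit 100), (nat_lit 120)]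
def rd11 : List Nat := [(nat_lit 19), (nat_lit 12), (nat_lit 5)]
def ks11 : List Nat := [(nat_lit 60), (nat_lit 100), (nat_lit 140)]
def rd12 : List Nat := [(nat_lit 17), (nat_lit 10), (nat_lit 4)]
def ks12 : List Nat := [(nat_lit 60), (nat_lit 120), (nat_lit 160)]
def rd13 : List Nat := [(nat_lit 13), (nat_lit 8), (nat_lit 5)]
def ks13 : List Nat := [(nat_lit 60), (nat_lit 120), (nat_lit 180)]
def rd14 : List Nat := [(nat_lit 11), (nat_lit 6), (nat_lit 4)]
def ks14 : List Nat := [(nat_lit 60), (nat_lit 140), (nat_lit 200)]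
def rd15 : List Nat := [(nat_lit 7), (nat_lit 5)]
def ks15 : List Nat := [(nat_lit 80), (nat_lit 100)]
def rd16 : List Nat := [(nat_lit 12), (nat_lit 9), (nat_lit 5)]
def ks16 : List Nat := [(nat_lit 80), (nat_lit 100), (nat_lit 120)]
def rd17 : List Nat := [(nat_lit 18), (nat_lit 13), (nat_lit 4)]
def ks17 : List Nat := [(nat_lit 80), (nat_lit 120), (nat_lit 140)]
def rd18 : List Nat := [(nat_lit 19), (nat_lit 13), (nat_lit 4)]
def ks18 : List Nat := [(nat_lit 80), (nat_lit 120), (nat_lit 160)]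
def rd19 : List Nat := [(nat_lit 14), (nat_lit 9), (nat_lit 4)]
def ks19 : List Nat := [(nat_lit 80), (nat_lit 140), (nat_lit 180)]
def rd20 : List Nat := [(nat_lit 12), (nat_lit 8), (nat_lit 4)]
def ks20 : List Nat := [(nat_lit 80), (nat_lit 140), (nat_lit 200)]
def rd21 : List Nat := [(nat_lit 6), (nat_lit 5)]
def ks21 : List Nat := [(nat_lit 100), (nat_lit 120)]
def rd22 : List Nat := [(nat_lit 9), (nat_lit 7), (nat_lit 4)]
def ks22 : List Nat := [(nat_lit 100), (nat_lit 120), (nat_lit 140)]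
def rd23 : List Nat := [(nat_lit 17), (nat_lit 9), (nat_lit 5)]
def ks23 : List Nat := [(nat_lit 100), (nat_lit 140), (nat_lit 160)]
def rd24 : List Nat := [(nat_lit 13), (nat_lit 10), (nat_lit 5)]
def ks24 : List Nat := [(nat_lit 100), (nat_lit 140), (nat_lit 180)]
def rd25 : List Nat := [(nat_lit 10), (nat_lit 7), (nat_lit 4)]
def ks25 : List Nat := [(nat_lit 100), (nat_lit 160), (nat_lit 200)]
def rd26 : List Nat := [(nat_lit 7), (nat_lit 5)]
def ks26 : List Nat := [(nat_lit 120), (nat_lit 140)]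
def rd27 : List Nat := [(nat_lit 16), (nat_lit 8), (nat_lit 4)]
def ks27 : List Nat := [(nat_lit 120), (nat_lit 140), (nat_lit 160)]
def rd28 : List Nat := [(nat_lit 22), (nat_lit 17), (nat_lit 4)]
def ks28 : List Nat := [(nat_lit 120), (nat_lit 160), (nat_lit 180)]
def rd29 : List Nat := [(nat_lit 19), (nat_lit 14), (nat_lit 5)]
def ks29 : List Nat := [(nat_lit 120), (nat_lit 160), (nat_lit 200)]
def rd30 : List Nat := [(nat_lit 6), (nat_lit 5)]
def ks30 : List Nat := [(nat_lit 140), (nat_lit 160)]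
def rd31 : List Nat := [(nat_lit 19), (nat_lit 12), (nat_lit 4)]
def ks31 : List Nat := [(nat_lit 140), (nat_lit 160), (nat_lit 180)]
def rd32 : List Nat := [(nat_lit 18), (nat_lit 14), (nat_lit 5)]
def ks32 : List Nat := [(nat_lit 140), (nat_lit 180), (nat_lit 200)]
def rd33 : List Nat := [(nat_lit 2), (nat_lit 14)]
def ks33 : List Nat := [(nat_lit 20), (nat_lit 80)]
def rd34 : List Nat := [(nat_lit 2), (nat_lit 18)]
def ks34 : List Nat := [(nat_lit 20), (nat_lit 100)]
def rd35 : List Nat := [(nat_lit 2), (nat_lit 11)]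
def ks35 : List Nat := [(nat_lit 20), (nat_lit 120)]
def rd36 : List Nat := [(nat_lit 2), (nat_lit 13)]
def ks36 : List Nat := [(nat_lit 20), (nat_lit 140)]
def rd37 : List Nat := [(nat_lit 25)]
def ks37 : List Nat := [(nat_lit 40)]
def rd38 : List Nat := [(nat_lit 2), (nat_lit 20)]
def ks38 : List Nat := [(nat_lit 40), (nat_lit 60)]
def rd39 : List Nat := [(nat_lit 2), (nat_lit 11)]
def ks39 : List Nat := [(nat_lit 40), (nat_lit 80)]
def rd40 : List Nat := [(nat_lit 2), (nat_lit 13)]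
def ks40 : List Nat := [(nat_lit 40), (nat_lit 100)]
def rd41 : List Nat := [(nat_lit 2), (nat_lit 11)]
def ks41 : List Nat := [(nat_lit 40), (nat_lit 120)]
def rd42 : List Nat := [(nat_lit 2), (nat_lit 11)]
def ks42 : List Nat := [(nat_lit 40), (nat_lit 140)]
def rd43 : List Nat := [(nat_lit 2), (nat_lit 12)]
def ks43 : List Nat := [(nat_lit 40), (nat_lit 160)]
def rd44 : List Nat := [(nat_lit 2), (nat_lit 21)]
def ks44 : List Nat := [(nat_lit 60), (nat_lit 80)]
def rd45 : List Nat := [(nat_lit 2), (nat_lit 13)]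
def ks45 : List Nat := [(nat_lit 60), (nat_lit 100)]
def rd46 : List Nat := [(nat_lit 2), (nat_lit 11)]
def ks46 : List Nat := [(nat_lit 60), (nat_lit 120)]
def rd47 : List Nat := [(nat_lit 2), (nat_lit 8)]
def ks47 : List Nat := [(nat_lit 60), (nat_lit 140)]
def rd48 : List Nat := [(nat_lit 2), (nat_lit 10)]
def ks48 : List Nat := [(nat_lit 60), (nat_lit 160)]
def rd49 : List Nat := [(nat_lit 2), (nat_lit 12)]
def ks49 : List Nat := [(nat_lit 60), (nat_lit 180)]
def rd50 : List Nat := [(nat_lit 2), (nat_lit 18)]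
def ks50 : List Nat := [(nat_lit 80), (nat_lit 100)]
def rd51 : List Nat := [(nat_lit 2), (nat_lit 15)]
def ks51 : List Nat := [(nat_lit 80), (nat_lit 120)]
def rd52 : List Nat := [(nat_lit 2), (nat_lit 10)]
def ks52 : List Nat := [(nat_lit 80), (nat_lit 160)]
def rd53 : List Nat := [(nat_lit 2), (nat_lit 12)]
def ks53 : List Nat := [(nat_lit 80), (nat_lit 180)]
def rd54 : List Nat := [(nat_lit 2), (nat_lit 20)]
def ks54 : List Nat := [(nat_lit 100), (nat_lit 120)]
def rd55 : List Nat := [(nat_lit 2), (nat_lit 13)]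
def ks55 : List Nat := [(nat_lit 100), (nat_lit 140)]
def rd56 : List Nat := [(nat_lit 2), (nat_lit 12)]
def ks56 : List Nat := [(nat_lit 100), (nat_lit 160)]
def rd57 : List Nat := [(nat_lit 2), (nat_lit 11)]
def ks57 : List Nat := [(nat_lit 100), (nat_lit 200)]
def rd58 : List Nat := [(nat_lit 2), (nat_lit 17)]
def ks58 : List Nat := [(nat_lit 120), (nat_lit 140)]
def rd59 : List Nat := [(nat_lit 2), (nat_lit 15)]
def ks59 : List Nat := [(nat_lit 120), (nat_lit 160)]
def rd60 : List Nat := [(nat_lit 2), (nat_lit 13)]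
def ks60 : List Nat := [(nat_lit 120), (nat_lit 180)]
def rd61 : List Nat := [(nat_lit 2), (nat_lit 11)]
def ks61 : List Nat := [(nat_lit 120), (nat_lit 200)]
def rd62 : List Nat := [(nat_lit 2), (nat_lit 17)]
def ks62 : List Nat := [(nat_lit 140), (nat_lit 160)]
def rd63 : List Nat := [(nat_lit 2), (nat_lit 15)]
def ks63 : List Nat := [(nat_lit 140), (nat_lit 180)]
def rd64 : List Nat := [(nat_lit 2), (nat_lit 12)]
def ks64 : List Nat := [(nat_lit 140), (nat_lit 200)]
def rd65 : List Nat := [(nat_lit 2), (nat_lit 16)]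
def ks65 : List Nat := [(nat_lit 160), (nat_lit 180)]
def rd66 : List Nat := [(nat_lit 2), (nat_lit 14)]
def ks66 : List Nat := [(nat_lit 160), (nat_lit 200)]
def rd67 : List Nat := [(nat_lit 2), (nat_lit 15)]
def ks67 : List Nat := [(nat_lit 180), (nat_lit 200)]
end TC
end Pool.Agent.Lib.MP_6947cd_al
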