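import Pool.Agent.Lib.MP_6947cd_al.C.TabF
import Pool.Agent.Lib.MP_6947cd_al.TC.K
import Pool.Agent.Lib.MP_6947cd_al.TC.D001
import Pool.Agent.Lib.MP_6947cd_al.TC.D002
import Pool.Agent.Lib.MP_6947cd_al.TC.D003

/-!
Problem MP_6947cd_al (Chollet).  CASE C, tables and certificates.  Families of tables.
-/

set_option autoImplicit false
set_option linter.all false
namespace Pool.Agent.Lib.MP_6947cd_al
namespace TC
open PkA.TF
/-- R 80 140 180 -/
noncomputable def T19 : TT := (.node (.node (.node (.node (.node (.node .nil (nat_lit 240) x665 .nil) (nat_lit 320) x666 .nil) (nat_lit 400) x667 (.node (.node .nil (nat_lit 82160) x668 .nil) (nat_lit 82240) x669 .nil)) (nat_lit 82320) x670 (.node (.node (.node .nil (nat_lit 164080) x671 .nil) (nat_lit 164160) x672 .nil) (nat_lit 164240) x673 (.node (.node .nil (nat_lit 246000) x674 .nil) (nat_lit 246080) x675 .nil))) (nat_lit 246160) x676 (.node (.node (.node (.node .nil (nat_lit 328000) x677 .nil) (nat_lit 328080) x678 .nil) (nat_lit 410000) x679 (.node (.node .nil (nat_lit 83968240) x680 .nil) (nat_lit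 83968320) x681 .nil)) (nat_lit 83968400) x682 (.node (.node (.node .nil (nat_lit 84050160) x683 .nil) (nat_lit 84050240) x684 .nil) (nat_lit 84050320) x685 (.node (.node .nil (nat_lit 84132080) x686 .nil) (nat_lit 84132160) x687 .nil)))) (nat_lit 84132240) x688 (.node (.node (.node (.node (.node .nil (nat_lit 84214080) x689 .nil) (nat_lit 84214160) x690 .nil) (nat_lit 84296080) x691 (.node (.node .nil (nat_lit 167936240) x692 .nil) (nat_lit 167936320) x693 .nil)) (nat_lit 167936400) x694 (.node (.node (.node .nil (nat_lit 168018160) x695 .nil) (nat_lit 168018240) x696 .nil) (nat_lit 168018320) x697 (.node (.node .nil (nat_lit 168100160) x698 .nil) (nat_lit 168100240) x699 .nil))) (nat_lit 168182160) x700 (.node (.node (.node (.node .nil (nat_lit 251904240) x701 .nil) (nat_lit 251904320) x702 .nil) (nat_lit 251904400) x703 (.node (.node .nil (nat_lit 251986240) x704 .nil) (nat_lit 251986320) x705 .nil)) (nat_lit 252068240) x706 (.node (.node (.node .nil (nat_lit 335872320) x707 .nil) (nat_lit 335872400) x708 .nil) (nat_lit 335954320) x709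 (.node .nil (nat_lit 419840400) x710 .nil)))))
/-- R 80 140 180 -/
noncomputable def F19 : Fam := ⟨rd19, ks19, T19⟩
/-- R 80 140 200 -/
noncomputable def T20 : TT := (.node (.node (.node (.node (.node (.node .nil (nat_lit 82160) x711 .nil) (nat_lit 82240) x712 .nil) (nat_lit 164080) x713 (.node .nil (nat_lit 164160) x714 .nil)) (nat_lit 246000) x715 (.node (.node (.node .nil (nat_lit 246080) x716 .nil) (nat_lit 246160) x717 .nil) (nat_lit 328000) x718 (.node .nil (nat_lit 328080) x719 .nil))) (nat_lit 83968240) x720 (.node (.node (.node (.node .nil (nat_lit 83968320) x721 .nil) (nat_lit 83968400) x722 .nil) (nat_lit 84050160) x723 (.node .nil (nat_lit 84050240) x724 .nil)) (nat_lit 84050320) x725 (.node (.node (.node .nil (nat_lit 84132080) x726 .nil) (nat_lit 84132160) x727 .nil) (nat_lit 84132240) x728 (.node .nil (nat_lit 84214080) x729 .nil)))) (nat_lit 84214160) x730 (.node (.node (.node (.node (.node .nil (nat_lit 84296080) x731 .nil) (nat_lit 167936240) x732 .nil) (nat_lit 167936320) x733 (.node .nil (nat_lit 168018160) x734 .nil))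 (nat_lit 168018240) x735 (.node (.node (.node .nil (nat_lit 168018320) x736 .nil) (nat_lit 168100160) x737 .nil) (nat_lit 168100240) x738 (.node .nil (nat_lit 168182160) x739 .nil))) (nat_lit 251904240) x740 (.node (.node (.node (.node .nil (nat_lit 251904320) x741 .nil) (nat_lit 251904400) x742 .nil) (nat_lit 251986240) x743 (.node .nil (nat_lit 251986320) x744 .nil)) (nat_lit 252068240) x745 (.node (.node (.node .nil (nat_lit 335872320) x746 .nil) (nat_lit 335872400) x747 .nil) (nat_lit 335954320) x748 (.node .nil (nat_lit 419840400) x749 .nil)))))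
/-- R 80 140 200 -/
noncomputable def F20 : Fam := ⟨rd20, ks20, T20⟩
/-- R 100 120 -/
noncomputable def T21 : TT := (.node (.node (.node (.node (.node (.node .nil (nat_lit 160) x750 .nil) (nat_lit 240) x751 .nil) (nat_lit 320) x752 (.node .nil (nat_lit 82080) x753 .nil)) (nat_lit 82160) x754 (.node (.node (.node .nil (nat_lit 82240) x755 .nil) (nat_lit 164000) x756 .nil) (nat_lit 164080) x757 (.node .nil (nat_lit 164160) x758 .nil))) (nat_lit 164240) x759 (.node (.node (.node (.node .nil (nat_lit 246000) x760 .nil) (nat_lit 246080) x761 .nil) (nat_lit 246160) x762 (.node .nil (nat_lit 328080) x763 .nil)) (nat_lit 83968160) x764 (.node (.node .nil (nat_lit 83968240) x765 .nil) (nat_lit 83968320) x766 (.node .nil (nat_lit 84050080) x767 .nil)))) (nat_lit 84050160) x768 (.node (.node (.node (.node (.node .nil (nat_lit 84050240) x769 .nil) (nat_lit 84050320) x770 .nil) (nat_lit 84132080) x771 (.node .nil (nat_lit 84132160) x772 .nil)) (nat_lit 84132240) x773 (.node (.node .nil (nat_lit 84214160) x774 .nil) (nat_lit 167936160) x775 (.node .nil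 (nat_lit 167936240) x776 .nil))) (nat_lit 167936320) x777 (.node (.node (.node (.node .nil (nat_lit 167936400) x778 .nil) (nat_lit 168018240) x779 .nil) (nat_lit 168018320) x780 (.node .nil (nat_lit 168100240) x781 .nil)) (nat_lit 168182160) x782 (.node (.node .nil (nat_lit 251904400) x783 .nil) (nat_lit 252068240) x784 (.node .nil (nat_lit 335954320) x785 .nil)))))
/-- R 100 120 -/
noncomputable def F21 : Fam := ⟨rd21, ks21, T21⟩
/-- R 100 120 140 -/
noncomputable def T22 : TT := (.node (.node (.node (.node (.node (.node .nil (nat_lit 160) x786 .nil) (nat_lit 240) x787 .nil) (nat_lit 320) x788 (.node (.node .nil (nat_lit 82080) x789 .nil) (nat_lit 82160) x790 .nil)) (nat_lit 82240) x791 (.node (.node (.node .nil (nat_lit 164000) x792 .nil) (nat_lit 164080) x793 .nil) (nat_lit 164160) x794 (.node (.node .nil (nat_lit 164240) x795 .nil) (nat_lit 246000) x796 .nil))) (nat_lit 246080) x797 (.node (.node (.node (.node .nil (nat_lit 246160) x798 .nil) (nat_lit 328000) x799 .nil) (nat_lit 328080) x800 (.node (.node .nil (nat_lit 83968160) x801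 .nil) (nat_lit 83968240) x802 .nil)) (nat_lit 83968320) x803 (.node (.node (.node .nil (nat_lit 84050080) x804 .nil) (nat_lit 84050160) x805 .nil) (nat_lit 84050240) x806 (.node (.node .nil (nat_lit 84050320) x807 .nil) (nat_lit 84132080) x808 .nil)))) (nat_lit 84132160) x809 (.node (.node (.node (.node (.node .nil (nat_lit 84132240) x810 .nil) (nat_lit 84214080) x811 .nil) (nat_lit 84214160) x812 (.node (.node .nil (nat_lit 167936160) x813 .nil) (nat_lit 167936240) x814 .nil)) (nat_lit 167936320) x815 (.node (.node (.node .nil (nat_lit 167936400) x816 .nil) (nat_lit 168018160) x817 .nil) (nat_lit 168018240) x818 (.node (.node .nil (nat_lit 168018320) x819 .nil) (nat_lit 168100160) x820 .nil))) (nat_lit 168100240) x821 (.node (.node (.node (.node .nil (nat_lit 168182160) x822 .nil) (nat_lit 251904240) x823 .nil) (nat_lit 251904320) x824 (.node (.node .nil (nat_lit 251904400) x825 .nil) (nat_lit 251986240) x826 .nil)) (nat_lit 251986320) x827 (.node (.node (.node .nil (nat_lit 252068240) x828 .nil) (nat_lit 335872320) x829 .nil) (nat_lit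 335872400) x830 (.node .nil (nat_lit 335954320) x831 .nil)))))
/-- R 100 120 140 -/
noncomputable def F22 : Fam := ⟨rd22, ks22, T22⟩
/-- R 100 140 160 -/
noncomputable def T23 : TT := (.node (.node (.node (.node (.node (.node .nil (nat_lit 160) x832 .nil) (nat_lit 240) x833 .nil) (nat_lit 320) x834 (.node (.node .nil (nat_lit 82080) x835 .nil) (nat_lit 82160) x836 .nil)) (nat_lit 82240) x837 (.node (.node (.node .nil (nat_lit 164000) x838 .nil) (nat_lit 164080) x839 .nil) (nat_lit 164160) x840 (.node (.node .nil (nat_lit 164240) x841 .nil) (nat_lit 246000) x842 .nil))) (nat_lit 246080) x843 (.node (.node (.node (.node .nil (nat_lit 246160) x844 .nil) (nat_lit 328000) x845 .nil) (nat_lit 328080) x846 (.node (.node .nil (nat_lit 83968160) x847 .nil) (nat_lit 83968240) x848 .nil)) (nat_lit 83968320) x849 (.node (.node (.node .nil (nat_lit 84050080) x850 .nil) (nat_lit 84050160) x851 .nil) (nat_lit 84050240) x852 (.node (.node .nil (nat_lit 84050320) x853 .nil) (nat_lit 84132080) x854 .nil)))) (nat_lit 84132160) x855 (.node (.node (.node (.node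 (.node .nil (nat_lit 84132240) x856 .nil) (nat_lit 84214080) x857 .nil) (nat_lit 84214160) x858 (.node (.node .nil (nat_lit 167936160) x859 .nil) (nat_lit 167936240) x860 .nil)) (nat_lit 167936320) x861 (.node (.node (.node .nil (nat_lit 167936400) x862 .nil) (nat_lit 168018160) x863 .nil) (nat_lit 168018240) x864 (.node (.node .nil (nat_lit 168018320) x865 .nil) (nat_lit 168100160) x866 .nil))) (nat_lit 168100240) x867 (.node (.node (.node (.node .nil (nat_lit 168182160) x868 .nil) (nat_lit 251904240) x869 .nil) (nat_lit 251904320) x870 (.node (.node .nil (nat_lit 251904400) x871 .nil) (nat_lit 251986240) x872 .nil)) (nat_lit 251986320) x873 (.node (.node (.node .nil (nat_lit 252068240) x874 .nil) (nat_lit 335872320) x875 .nil) (nat_lit 335872400) x876 (.node .nil (nat_lit 335954320) x877 .nil)))))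
/-- R 100 140 160 -/
noncomputable def F23 : Fam := ⟨rd23, ks23, T23⟩
/-- R 100 140 180 -/
noncomputable def T24 : TT := (.node (.node (.node (.node (.node (.node .nil (nat_lit 160) x878 .nil) (nat_lit 240) x879 .nil) (nat_lit 320) x880 (.node (.node .nil (nat_lit 82080) x881 .nil) (nat_lit 82160) x882 .nil)) (nat_lit 82240) x883 (.node (.node (.node .nil (nat_lit 164000) x884 .nil) (nat_lit 164080) x885 .nil) (nat_lit 164160) x886 (.node (.node .nil (nat_lit 164240) x887 .nil) (nat_lit 246000) x888 .nil))) (nat_lit 246080) x889 (.node (.node (.node (.node .nil (nat_lit 246160) x890 .nil) (nat_lit 328000) x891 .nil) (nat_lit 328080) x892 (.node (.node .nil (nat_lit 83968160) x893 .nil) (nat_lit 83968240) x894 .nil)) (nat_lit 83968320) x895 (.node (.node (.node .nil (nat_lit 84050080) x896 .nil) (nat_lit 84050160) x897 .nil) (nat_lit 84050240) x898 (.node (.node .nil (nat_lit 84050320) x899 .nil) (nat_lit 84132080) x900 .nil)))) (nat_lit 84132160) x901 (.node (.node (.node (.node (.node .nil (nat_lit 84132240) x902 .nil) (nat_lit 84214080)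 x903 .nil) (nat_lit 84214160) x904 (.node (.node .nil (nat_lit 167936160) x905 .nil) (nat_lit 167936240) x906 .nil)) (nat_lit 167936320) x907 (.node (.node (.node .nil (nat_lit 167936400) x908 .nil) (nat_lit 168018160) x909 .nil) (nat_lit 168018240) x910 (.node (.node .nil (nat_lit 168018320) x911 .nil) (nat_lit 168100160) x912 .nil))) (nat_lit 168100240) x913 (.node (.node (.node (.node .nil (nat_lit 168182160) x914 .nil) (nat_lit 251904240) x915 .nil) (nat_lit 251904320) x916 (.node (.node .nil (nat_lit 251904400) x917 .nil) (nat_lit 251986240) x918 .nil)) (nat_lit 251986320) x919 (.node (.node (.node .nil (nat_lit 252068240) x920 .nil) (nat_lit 335872320) x921 .nil) (nat_lit 335872400) x922 (.node .nil (nat_lit 335954320) x923 .nil)))))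
/-- R 100 140 180 -/
noncomputable def F24 : Fam := ⟨rd24, ks24, T24⟩
/-- R 100 160 200 -/
noncomputable def T25 : TT := (.node (.node (.node (.node (.node (.node .nil (nat_lit 160) x924 .nil) (nat_lit 240) x925 .nil) (nat_lit 320) x926 (.node (.node .nil (nat_lit 82080) x927 .nil) (nat_lit 82160) x928 .nil)) (nat_lit 82240) x929 (.node (.node (.node .nil (nat_lit 164000) x930 .nil) (nat_lit 164080) x931 .nil) (nat_lit 164160) x932 (.node (.node .nil (nat_lit 164240) x933 .nil) (nat_lit 246000) x934 .nil))) (nat_lit 246080) x935 (.node (.node (.node (.node .nil (nat_lit 246160) x936 .nil) (nat_lit 328000) x937 .nil) (nat_lit 328080) x938 (.node (.node .nil (nat_lit 83968160) x939 .nil) (nat_lit 83968240) x940 .nil)) (nat_lit 83968320) x941 (.node (.node (.node .nil (nat_lit 84050080) x942 .nil) (nat_lit 84050160) x943 .nil) (nat_lit 84050240) x944 (.node (.node .nil (nat_lit 84050320) x945 .nil) (nat_lit 84132080) x946 .nil)))) (nat_lit 84132160) x947 (.node (.node (.node (.node (.node .nil (nat_lit 84132240) x948 .nil) (nat_lit 84214080)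 x949 .nil) (nat_lit 84214160) x950 (.node (.node .nil (nat_lit 167936160) x951 .nil) (nat_lit 167936240) x952 .nil)) (nat_lit 167936320) x953 (.node (.node (.node .nil (nat_lit 167936400) x954 .nil) (nat_lit 168018160) x955 .nil) (nat_lit 168018240) x956 (.node (.node .nil (nat_lit 168018320) x957 .nil) (nat_lit 168100160) x958 .nil))) (nat_lit 168100240) x959 (.node (.node (.node (.node .nil (nat_lit 168182160) x960 .nil) (nat_lit 251904240) x961 .nil) (nat_lit 251904320) x962 (.node (.node .nil (nat_lit 251904400) x963 .nil) (nat_lit 251986240) x964 .nil)) (nat_lit 251986320) x965 (.node (.node (.node .nil (nat_lit 252068240) x966 .nil) (nat_lit 335872320) x967 .nil) (nat_lit 335872400) x968 (.node .nil (nat_lit 335954320) x969 .nil)))))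
/-- R 100 160 200 -/
noncomputable def F25 : Fam := ⟨rd25, ks25, T25⟩
/-- R 120 140 -/
noncomputable def T26 : TT := (.node (.node (.node (.node (.node (.node .nil (nat_lit 160) x970 .nil) (nat_lit 240) x971 .nil) (nat_lit 82080) x972 (.node .nil (nat_lit 82160) x973 .nil)) (nat_lit 164000) x974 (.node (.node (.node .nil (nat_lit 164080) x975 .nil) (nat_lit 164160) x976 .nil) (nat_lit 164240) x977 (.node .nil (nat_lit 246000) x978 .nil))) (nat_lit 246080) x979 (.node (.node (.node (.node .nil (nat_lit 246160) x980 .nil) (nat_lit 83968160) x981 .nil) (nat_lit 83968240) x982 (.node .nil (nat_lit 84050080) x983 .nil)) (nat_lit 84050160) x984 (.node (.node .nil (nat_lit 84050240) x985 .nil) (nat_lit 84050320) x986 (.node .nil (nat_lit 84132080) x987 .nil)))) (nat_lit 84132160) x988 (.node (.node (.node (.node (.node .nil (nat_lit 84132240) x989 .nil) (nat_lit 167936160) x990 .nil) (nat_lit 167936240) x991 (.node .nil (nat_lit 167936320) x992 .nil)) (nat_lit 167936400) x993 (.node (.node .nil (nat_lit 168018160) x994 .nil) (nat_lit 168018240)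 x995 (.node .nil (nat_lit 168018320) x996 .nil))) (nat_lit 168100160) x997 (.node (.node (.node (.node .nil (nat_lit 168100240) x998 .nil) (nat_lit 168182160) x999 .nil) (nat_lit 251904240) x1000 (.node .nil (nat_lit 251904320) x1001 .nil)) (nat_lit 251904400) x1002 (.node (.node .nil (nat_lit 251986240) x1003 .nil) (nat_lit 251986320) x1004 (.node .nil (nat_lit 252068240) x1005 .nil)))))
/-- R 120 140 -/
noncomputable def F26 : Fam := ⟨rd26, ks26, T26⟩
/-- R 120 140 160 -/
noncomputable def T27 : TT := (.node (.node (.node (.node (.node (.node .nil (nat_lit 160) x1006 .nil) (nat_lit 240) x1007 .nil) (nat_lit 82080) x1008 (.node .nil (nat_lit 82160) x1009 .nil)) (nat_lit 164000) x1010 (.node (.node (.node .nil (nat_lit 164080) x1011 .nil) (nat_lit 164160) x1012 .nil) (nat_lit 164240) x1013 (.node .nil (nat_lit 246000) x1014 .nil))) (nat_lit 246080) x1015 (.node (.node (.node (.node .nil (nat_lit 246160) x1016 .nil) (nat_lit 83968160) x1017 .nil) (nat_lit 83968240) x1018 (.node .nil (nat_lit 84050080) x1019 .nil)) (nat_lit 84050160) x1020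 (.node (.node .nil (nat_lit 84050240) x1021 .nil) (nat_lit 84050320) x1022 (.node .nil (nat_lit 84132080) x1023 .nil)))) (nat_lit 84132160) x1024 (.node (.node (.node (.node (.node .nil (nat_lit 84132240) x1025 .nil) (nat_lit 167936160) x1026 .nil) (nat_lit 167936240) x1027 (.node .nil (nat_lit 167936320) x1028 .nil)) (nat_lit 167936400) x1029 (.node (.node .nil (nat_lit 168018160) x1030 .nil) (nat_lit 168018240) x1031 (.node .nil (nat_lit 168018320) x1032 .nil))) (nat_lit 168100160) x1033 (.node (.node (.node (.node .nil (nat_lit 168100240) x1034 .nil) (nat_lit 168182160) x1035 .nil) (nat_lit 251904240) x1036 (.node .nil (nat_lit 251904320) x1037 .nil)) (nat_lit 251904400) x1038 (.node (.node .nil (nat_lit 251986240) x1039 .nil) (nat_lit 251986320) x1040 (.node .nil (nat_lit 252068240) x1041 .nil)))))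
/-- R 120 140 160 -/
noncomputable def F27 : Fam := ⟨rd27, ks27, T27⟩
/-- R 120 160 180 -/
noncomputable def T28 : TT := (.node (.node (.node (.node (.node (.node .nil (nat_lit 160) x1042 .nil) (nat_lit 240) x1043 .nil) (nat_lit 82080) x1044 (.node .nil (nat_lit 82160) x1045 .nil)) (nat_lit 164000) x1046 (.node (.node (.node .nil (nat_lit 164080) x1047 .nil) (nat_lit 164160) x1048 .nil) (nat_lit 164240) x1049 (.node .nil (nat_lit 246000) x1050 .nil))) (nat_lit 246080) x1051 (.node (.node (.node (.node .nil (nat_lit 246160) x1052 .nil) (nat_lit 83968160) x1053 .nil) (nat_lit 83968240) x1054 (.node .nil (nat_lit 84050080) x1055 .nil)) (nat_lit 84050160) x1056 (.node (.node .nil (nat_lit 84050240) x1057 .nil) (nat_lit 84050320) x1058 (.node .nil (nat_lit 84132080) x1059 .nil)))) (nat_lit 84132160) x1060 (.node (.node (.node (.node (.node .nil (nat_lit 84132240) x1061 .nil) (nat_lit 167936160) x1062 .nil) (nat_lit 167936240) x1063 (.node .nil (nat_lit 167936320) x1064 .nil)) (nat_lit 167936400) x1065 (.node (.node .nil (nat_lit 168018160) x1066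 .nil) (nat_lit 168018240) x1067 (.node .nil (nat_lit 168018320) x1068 .nil))) (nat_lit 168100160) x1069 (.node (.node (.node (.node .nil (nat_lit 168100240) x1070 .nil) (nat_lit 168182160) x1071 .nil) (nat_lit 251904240) x1072 (.node .nil (nat_lit 251904320) x1073 .nil)) (nat_lit 251904400) x1074 (.node (.node .nil (nat_lit 251986240) x1075 .nil) (nat_lit 251986320) x1076 (.node .nil (nat_lit 252068240) x1077 .nil)))))
/-- R 120 160 180 -/
noncomputable def F28 : Fam := ⟨rd28, ks28, T28⟩
/-- R 120 160 200 -/
noncomputable def T29 : TT := (.node (.node (.node (.node (.node (.node .nil (nat_lit 160) x1078 .nil) (nat_lit 240) x1079 .nil) (nat_lit 82080) x1080 (.node .nil (nat_lit 82160) x1081 .nil)) (nat_lit 164000) x1082 (.node (.node (.node .nil (nat_lit 164080) x1083 .nil) (nat_lit 164160) x1084 .nil) (nat_lit 164240) x1085 (.node .nil (nat_lit 246000) x1086 .nil))) (nat_lit 246080) x1087 (.node (.node (.node (.node .nil (nat_lit 246160) x1088 .nil) (nat_lit 83968160) x1089 .nil) (nat_lit 83968240) x1090 (.node .nil (nat_lit 84050080) x1091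 .nil)) (nat_lit 84050160) x1092 (.node (.node .nil (nat_lit 84050240) x1093 .nil) (nat_lit 84050320) x1094 (.node .nil (nat_lit 84132080) x1095 .nil)))) (nat_lit 84132160) x1096 (.node (.node (.node (.node (.node .nil (nat_lit 84132240) x1097 .nil) (nat_lit 167936160) x1098 .nil) (nat_lit 167936240) x1099 (.node .nil (nat_lit 167936320) x1100 .nil)) (nat_lit 167936400) x1101 (.node (.node .nil (nat_lit 168018160) x1102 .nil) (nat_lit 168018240) x1103 (.node .nil (nat_lit 168018320) x1104 .nil))) (nat_lit 168100160) x1105 (.node (.node (.node (.node .nil (nat_lit 168100240) x1106 .nil) (nat_lit 168182160) x1107 .nil) (nat_lit 251904240) x1108 (.node .nil (nat_lit 251904320) x1109 .nil)) (nat_lit 251904400) x1110 (.node (.node .nil (nat_lit 251986240) x1111 .nil) (nat_lit 251986320) x1112 (.node .nil (nat_lit 252068240) x1113 .nil)))))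
/-- R 120 160 200 -/
noncomputable def F29 : Fam := ⟨rd29, ks29, T29⟩
/-- R 140 160 -/
noncomputable def T30 : TT := (.node (.node (.node (.node (.node (.node .nil (nat_lit 82040) x1114 .nil) (nat_lit 82080) x1115 (.node .nil (nat_lit 82160) x1116 .nil)) (nat_lit 123040) x1117 (.node (.node .nil (nat_lit 123120) x1118 .nil) (nat_lit 123200) x1119 .nil)) (nat_lit 123280) x1120 (.node (.node (.node .nil (nat_lit 164000) x1121 .nil) (nat_lit 164080) x1122 .nil) (nat_lit 164160) x1123 (.node (.node .nil (nat_lit 164240) x1124 .nil) (nat_lit 246000) x1125 .nil))) (nat_lit 246080) x1126 (.node (.node (.node (.node .nil (nat_lit 246160) x1127 .nil) (nat_lit 84009120) x1128 (.node .nil (nat_lit 84009200) x1129 .nil)) (nat_lit 84009280) x1130 (.node (.node .nil (nat_lit 84009360) x1131 .nil) (nat_lit 84050080) x1132 .nil)) (nat_lit 84050160) x1133 (.node (.node (.node .nil (nat_lit 84050240) x1134 .nil) (nat_lit 84050320) x1135 .nil) (nat_lit 84132080) x1136 (.node (.node .nil (nat_lit 84132160) x1137 .nil) (nat_lit 84132240) x1138 .nil)))) (nat_lit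 125993120) x1139 (.node (.node (.node (.node (.node .nil (nat_lit 125993200) x1140 .nil) (nat_lit 125993280) x1141 (.node .nil (nat_lit 125993360) x1142 .nil)) (nat_lit 126075120) x1143 (.node (.node .nil (nat_lit 126075200) x1144 .nil) (nat_lit 126075280) x1145 .nil)) (nat_lit 126157120) x1146 (.node (.node (.node .nil (nat_lit 126157200) x1147 .nil) (nat_lit 126239120) x1148 .nil) (nat_lit 167936160) x1149 (.node (.node .nil (nat_lit 167936240) x1150 .nil) (nat_lit 167936320) x1151 .nil))) (nat_lit 167936400) x1152 (.node (.node (.node (.node .nil (nat_lit 168018160) x1153 .nil) (nat_lit 168018240) x1154 (.node .nil (nat_lit 168018320) x1155 .nil)) (nat_lit 168100160) x1156 (.node (.node .nil (nat_lit 168100240) x1157 .nil) (nat_lit 168182160) x1158 .nil)) (nat_lit 251904240) x1159 (.node (.node (.node .nil (nat_lit 251904320) x1160 .nil) (nat_lit 251904400) x1161 .nil) (nat_lit 251986240) x1162 (.node (.node .nil (nat_lit 251986320) x1163 .nil) (nat_lit 252068240) x1164 .nil)))))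
/-- R 140 160 -/
noncomputable def F30 : Fam := ⟨rd30, ks30, T30⟩
/-- R 140 160 180 -/
noncomputable def T31 : TT := (.node (.node (.node (.node (.node (.node (.node .nil (nat_lit 120) x1165 .nil) (nat_lit 160) x1166 .nil) (nat_lit 240) x1167 (.node .nil (nat_lit 320) x1168 .nil)) (nat_lit 82040) x1169 (.node (.node .nil (nat_lit 82080) x1170 .nil) (nat_lit 82160) x1171 (.node .nil (nat_lit 82240) x1172 .nil))) (nat_lit 123040) x1173 (.node (.node (.node .nil (nat_lit 123120) x1174 .nil) (nat_lit 123200) x1175 (.node .nil (nat_lit 123280) x1176 .nil)) (nat_lit 164000) x1177 (.node (.node .nil (nat_lit 164080) x1178 .nil) (nat_lit 164160) x1179 (.node .nil (nat_lit 164240) x1180 .nil)))) (nat_lit 246000) x1181 (.node (.node (.node (.node .nil (nat_lit 246080) x1182 .nil) (nat_lit 246160) x1183 (.node .nil (nat_lit 328000) x1184 .nil)) (nat_lit 328080) x1185 (.node (.node .nil (nat_lit 83968120) x1186 .nil) (nat_lit 83968160) x1187 (.node .nil (nat_lit 83968240) x1188 .nil))) (nat_lit 83968320) x1189 (.node (.node (.node .nil (nat_lit 84009120)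 x1190 .nil) (nat_lit 84009200) x1191 (.node .nil (nat_lit 84009280) x1192 .nil)) (nat_lit 84009360) x1193 (.node (.node .nil (nat_lit 84050080) x1194 .nil) (nat_lit 84050160) x1195 (.node .nil (nat_lit 84050240) x1196 .nil))))) (nat_lit 84050320) x1197 (.node (.node (.node (.node (.node .nil (nat_lit 84132080) x1198 .nil) (nat_lit 84132160) x1199 (.node .nil (nat_lit 84132240) x1200 .nil)) (nat_lit 84214080) x1201 (.node (.node .nil (nat_lit 84214160) x1202 .nil) (nat_lit 125993120) x1203 (.node .nil (nat_lit 125993200) x1204 .nil))) (nat_lit 125993280) x1205 (.node (.node (.node .nil (nat_lit 125993360) x1206 .nil) (nat_lit 126075120) x1207 (.node .nil (nat_lit 126075200) x1208 .nil)) (nat_lit 126075280) x1209 (.node (.node .nil (nat_lit 126157120) x1210 .nil) (nat_lit 126157200) x1211 (.node .nil (nat_lit 126239120) x1212 .nil)))) (nat_lit 167936160) x1213 (.node (.node (.node (.node .nil (nat_lit 167936240) x1214 .nil) (nat_lit 167936320) x1215 (.node .nil (nat_lit 167936400) x1216 .nil)) (nat_lit 168018160) x1217 (.node (.node .nil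 (nat_lit 168018240) x1218 .nil) (nat_lit 168018320) x1219 (.node .nil (nat_lit 168100160) x1220 .nil))) (nat_lit 168100240) x1221 (.node (.node (.node .nil (nat_lit 168182160) x1222 .nil) (nat_lit 251904240) x1223 (.node .nil (nat_lit 251904320) x1224 .nil)) (nat_lit 251904400) x1225 (.node (.node .nil (nat_lit 251986240) x1226 .nil) (nat_lit 251986320) x1227 (.node .nil (nat_lit 252068240) x1228 .nil))))))
/-- R 140 160 180 -/
noncomputable def F31 : Fam := ⟨rd31, ks31, T31⟩
/-- R 140 180 200 -/
noncomputable def T32 : TT := (.node (.node (.node (.node (.node (.node (.node .nil (nat_lit 120) x1229 .nil) (nat_lit 160) x1230 .nil) (nat_lit 240) x1231 (.node .nil (nat_lit 320) x1232 .nil)) (nat_lit 82040) x1233 (.node (.node .nil (nat_lit 82080) x1234 .nil) (nat_lit 82160) x1235 (.node .nil (nat_lit 82240) x1236 .nil))) (nat_lit 123040) x1237 (.node (.node (.node .nil (nat_lit 123120) x1238 .nil) (nat_lit 123200) x1239 (.node .nil (nat_lit 123280) x1240 .nil)) (nat_lit 164000) x1241 (.node (.node .nil (nat_lit 164080) x1242 .nil) (nat_lit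 164160) x1243 (.node .nil (nat_lit 164240) x1244 .nil)))) (nat_lit 246000) x1245 (.node (.node (.node (.node (.node .nil (nat_lit 246080) x1246 .nil) (nat_lit 246160) x1247 .nil) (nat_lit 328000) x1248 (.node .nil (nat_lit 328080) x1249 .nil)) (nat_lit 83968120) x1250 (.node (.node .nil (nat_lit 83968160) x1251 .nil) (nat_lit 83968240) x1252 (.node .nil (nat_lit 83968320) x1253 .nil))) (nat_lit 84009120) x1254 (.node (.node (.node .nil (nat_lit 84009200) x1255 .nil) (nat_lit 84009280) x1256 (.node .nil (nat_lit 84009360) x1257 .nil)) (nat_lit 84050080) x1258 (.node (.node .nil (nat_lit 84050160) x1259 .nil) (nat_lit 84050240) x1260 (.node .nil (nat_lit 84050320) x1261 .nil))))) (nat_lit 84132080) x1262 (.node (.node (.node (.node (.node (.node .nil (nat_lit 84132160) x1263 .nil) (nat_lit 84132240) x1264 .nil) (nat_lit 84214080) x1265 (.node .nil (nat_lit 84214160) x1266 .nil)) (nat_lit 125993120) x1267 (.node (.node .nil (nat_lit 125993200) x1268 .nil) (nat_lit 125993280) x1269 (.node .nil (nat_lit 125993360) x1270 .nil))) (nat_lit 126075120)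 x1271 (.node (.node (.node .nil (nat_lit 126075200) x1272 .nil) (nat_lit 126075280) x1273 (.node .nil (nat_lit 126157120) x1274 .nil)) (nat_lit 126157200) x1275 (.node (.node .nil (nat_lit 126239120) x1276 .nil) (nat_lit 167936160) x1277 (.node .nil (nat_lit 167936240) x1278 .nil)))) (nat_lit 167936320) x1279 (.node (.node (.node (.node (.node .nil (nat_lit 167936400) x1280 .nil) (nat_lit 168018160) x1281 .nil) (nat_lit 168018240) x1282 (.node .nil (nat_lit 168018320) x1283 .nil)) (nat_lit 168100160) x1284 (.node (.node .nil (nat_lit 168100240) x1285 .nil) (nat_lit 168182160) x1286 (.node .nil (nat_lit 251904240) x1287 .nil))) (nat_lit 251904320) x1288 (.node (.node (.node .nil (nat_lit 251904400) x1289 .nil) (nat_lit 251986240) x1290 (.node .nil (nat_lit 251986320) x1291 .nil)) (nat_lit 252068240) x1292 (.node (.node .nil (nat_lit 335872320) x1293 .nil) (nat_lit 335872400) x1294 (.node .nil (nat_lit 335954320) x1295 .nil))))))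
/-- R 140 180 200 -/
noncomputable def F32 : Fam := ⟨rd32, ks32, T32⟩
/-- T 20 80 -/
noncomputable def T33 : TT := (.node (.node (.node (.node (.node .nil (nat_lit 83968320) x1296 .nil) (nat_lit 83968400) x1297 .nil) (nat_lit 84050240) x1298 (.node .nil (nat_lit 84050320) x1299 .nil)) (nat_lit 84132160) x1300 (.node (.node .nil (nat_lit 84132240) x1301 .nil) (nat_lit 84214080) x1302 (.node .nil (nat_lit 84214160) x1303 .nil))) (nat_lit 84296080) x1304 (.node (.node (.node .nil (nat_lit 167936320) x1305 .nil) (nat_lit 167936400) x1306 (.node .nil (nat_lit 168018240) x1307 .nil)) (nat_lit 168018320) x1308 (.node (.node .nil (nat_lit 168100160) x1309 .nil) (nat_lit 168100240) x1310 (.node .nil (nat_lit 168182160) x1311 .nil))))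
/-- T 20 80 -/
noncomputable def F33 : Fam := ⟨rd33, ks33, T33⟩
/-- T 20 100 -/
noncomputable def T34 : TT := (.node (.node (.node (.node (.node (.node .nil (nat_lit 83968120) x1312 .nil) (nat_lit 83968240) x1313 .nil) (nat_lit 83968320) x1314 (.node .nil (nat_lit 83968400) x1315 .nil)) (nat_lit 84009120) x1316 (.node (.node .nil (nat_lit 84009200) x1317 .nil) (nat_lit 84009280) x1318 (.node .nil (nat_lit 84050160) x1319 .nil))) (nat_lit 84050240) x1320 (.node (.node (.node (.node .nil (nat_lit 84050320) x1321 .nil) (nat_lit 84132080) x1322 .nil) (nat_lit 84132160) x1323 (.node .nil (nat_lit 84132240) x1324 .nil)) (nat_lit 84214080) x1325 (.node (.node .nil (nat_lit 125993120) x1326 .nil) (nat_lit 125993200) x1327 (.node .nil (nat_lit 125993280) x1328 .nil)))) (nat_lit 126075120) x1329 (.node (.node (.node (.node (.node .nil (nat_lit 126075200) x1330 .nil) (nat_lit 167936240) x1331 .nil) (nat_lit 167936320) x1332 (.node .nil (nat_lit 167936400) x1333 .nil)) (nat_lit 168018160) x1334 (.node (.node .nil (nat_lit 168018240) x1335 .nil) (nat_lit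 168018320) x1336 (.node .nil (nat_lit 168100160) x1337 .nil))) (nat_lit 168100240) x1338 (.node (.node (.node .nil (nat_lit 168182160) x1339 .nil) (nat_lit 251904240) x1340 (.node .nil (nat_lit 251904320) x1341 .nil)) (nat_lit 251904400) x1342 (.node (.node .nil (nat_lit 251986240) x1343 .nil) (nat_lit 251986320) x1344 (.node .nil (nat_lit 252068240) x1345 .nil)))))
/-- T 20 100 -/
noncomputable def F34 : Fam := ⟨rd34, ks34, T34⟩
/-- T 20 120 -/
noncomputable def T35 : TT := (.node (.node (.node (.node .nil (nat_lit 167936240) x1346 .nil) (nat_lit 167936320) x1347 .nil) (nat_lit 167936400) x1348 (.node .nil (nat_lit 168018160) x1349 .nil)) (nat_lit 168018240) x1350 (.node (.node (.node .nil (nat_lit 168018320) x1351 .nil) (nat_lit 251904240) x1352 .nil) (nat_lit 251904320) x1353 (.node .nil (nat_lit 251904400) x1354 .nil)))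
/-- T 20 120 -/
noncomputable def F35 : Fam := ⟨rd35, ks35, T35⟩
/-- T 20 140 -/
noncomputable def T36 : TT := (.node (.node (.node (.node .nil (nat_lit 167936160) x1355 .nil) (nat_lit 167936240) x1356 .nil) (nat_lit 167936320) x1357 (.node (.node .nil (nat_lit 168018160) x1358 .nil) (nat_lit 168018240) x1359 .nil)) (nat_lit 168100160) x1360 (.node (.node (.node .nil (nat_lit 251904240) x1361 .nil) (nat_lit 251904320) x1362 .nil) (nat_lit 251986240) x1363 (.node .nil (nat_lit 335872320) x1364 .nil)))
/-- T 20 140 -/
noncomputable def F36 : Fam := ⟨rd36, ks36, T36⟩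
end TC
end Pool.Agent.Lib.MP_6947cd_al
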