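import Pool.Agent.Lib.MP_6947cd_al.C.TabF
import Pool.Agent.Lib.MP_6947cd_al.TC.K
import Pool.Agent.Lib.MP_6947cd_al.TC.D003

/-!
Problem MP_6947cd_al (Chollet).  CASE C, tables and certificates.  Families of tables.
-/

set_option autoImplicit false
set_option linter.all false
namespace Pool.Agent.Lib.MP_6947cd_al
namespace TC
open PkA.TF
/-- T 40 -/
noncomputable def T37 : TT := (.node (.node (.node (.node (.node .nil (nat_lit 246080) x1365 .nil) (nat_lit 246160) x1366 (.node .nil (nat_lit 328000) x1367 .nil)) (nat_lit 328080) x1368 (.node (.node .nil (nat_lit 410000) x1369 .nil) (nat_lit 83968320) x1370 (.node .nil (nat_lit 83968400) x1371 .nil))) (nat_lit 84050240) x1372 (.node (.node (.node .nil (nat_lit 84050320) x1373 .nil) (nat_lit 84132160) x1374 (.node .nil (nat_lit 84132240) x1375 .nil)) (nat_lit 84214080) x1376 (.node (.node .nil (nat_lit 84214160) x1377 .nil) (nat_lit 84296080) x1378 (.node .nil (nat_lit 167936320) x1379 .nil)))) (nat_lit 167936400) x1380 (.node (.node (.node (.node .nil (nat_lit 168018240) x1381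 .nil) (nat_lit 168018320) x1382 (.node .nil (nat_lit 168100160) x1383 .nil)) (nat_lit 168100240) x1384 (.node (.node .nil (nat_lit 168182160) x1385 .nil) (nat_lit 251904320) x1386 (.node .nil (nat_lit 251904400) x1387 .nil))) (nat_lit 251986240) x1388 (.node (.node (.node .nil (nat_lit 251986320) x1389 .nil) (nat_lit 252068240) x1390 (.node .nil (nat_lit 335872320) x1391 .nil)) (nat_lit 335872400) x1392 (.node (.node .nil (nat_lit 335954320) x1393 .nil) (nat_lit 419840400) x1394 .nil))))
/-- T 40 -/
noncomputable def F37 : Fam := ⟨rd37, ks37, T37⟩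
/-- T 40 60 -/
noncomputable def T38 : TT := (.node (.node (.node (.node (.node (.node .nil (nat_lit 320) x1395 .nil) (nat_lit 400) x1396 .nil) (nat_lit 82240) x1397 (.node .nil (nat_lit 82320) x1398 .nil)) (nat_lit 164160) x1399 (.node (.node (.node .nil (nat_lit 164240) x1400 .nil) (nat_lit 246080) x1401 .nil) (nat_lit 246160) x1402 (.node .nil (nat_lit 328000) x1403 .nil))) (nat_lit 328080) x1404 (.node (.node (.node (.node .nil (nat_lit 410000) x1405 .nil) (nat_lit 83968320) x1406 .nil) (nat_lit 83968400) x1407 (.node .nil (nat_lit 84050240) x1408 .nil)) (nat_lit 84050320) x1409 (.node (.node .nil (nat_lit 84132160) x1410 .nil) (nat_lit 84132240) x1411 (.node .nil (nat_lit 84214080) x1412 .nil)))) (nat_lit 84214160) x1413 (.node (.node (.node (.node (.node .nil (nat_lit 84296080) x1414 .nil) (nat_lit 167936320) x1415 .nil) (nat_lit 167936400) x1416 (.node .nil (nat_lit 168018240) x1417 .nil)) (nat_lit 168018320) x1418 (.node (.node .nil (nat_lit 168100160) x1419 .nil) (nat_lit 168100240) x1420 (.node .nil (nat_lit 168182160)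 x1421 .nil))) (nat_lit 251904320) x1422 (.node (.node (.node (.node .nil (nat_lit 251904400) x1423 .nil) (nat_lit 251986240) x1424 .nil) (nat_lit 251986320) x1425 (.node .nil (nat_lit 252068240) x1426 .nil)) (nat_lit 335872320) x1427 (.node (.node .nil (nat_lit 335872400) x1428 .nil) (nat_lit 335954320) x1429 (.node .nil (nat_lit 419840400) x1430 .nil)))))
/-- T 40 60 -/
noncomputable def F38 : Fam := ⟨rd38, ks38, T38⟩
/-- T 40 80 -/
noncomputable def T39 : TT := (.node (.node (.node (.node .nil (nat_lit 84132160) x1431 .nil) (nat_lit 84132240) x1432 .nil) (nat_lit 84214080) x1433 (.node (.node .nil (nat_lit 84214160) x1434 .nil) (nat_lit 84296080) x1435 .nil)) (nat_lit 168018240) x1436 (.node (.node (.node .nil (nat_lit 168018320) x1437 .nil) (nat_lit 168100160) x1438 .nil) (nat_lit 168100240) x1439 (.node .nil (nat_lit 168182160) x1440 .nil)))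
/-- T 40 80 -/
noncomputable def F39 : Fam := ⟨rd39, ks39, T39⟩
/-- T 40 100 -/
noncomputable def T40 : TT := (.node (.node (.node (.node (.node .nil (nat_lit 83968320) x1441 .nil) (nat_lit 83968400) x1442 .nil) (nat_lit 84050240) x1443 (.node .nil (nat_lit 84050320) x1444 .nil)) (nat_lit 84132080) x1445 (.node (.node (.node .nil (nat_lit 84132160) x1446 .nil) (nat_lit 84132240) x1447 .nil) (nat_lit 84214080) x1448 (.node .nil (nat_lit 167936320) x1449 .nil))) (nat_lit 167936400) x1450 (.node (.node (.node (.node .nil (nat_lit 168018160) x1451 .nil) (nat_lit 168018240) x1452 .nil) (nat_lit 168018320) x1453 (.node .nil (nat_lit 168100160) x1454 .nil)) (nat_lit 251904240) x1455 (.node (.node .nil (nat_lit 251904320) x1456 .nil) (nat_lit 251904400) x1457 (.node .nil (nat_lit 251986240) x1458 .nil))))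
/-- T 40 100 -/
noncomputable def F40 : Fam := ⟨rd40, ks40, T40⟩
/-- T 40 120 -/
noncomputable def T41 : TT := (.node (.node (.node .nil (nat_lit 167936320) x1459 .nil) (nat_lit 167936400) x1460 (.node .nil (nat_lit 168018240) x1461 .nil)) (nat_lit 168018320) x1462 (.node (.node .nil (nat_lit 251904320) x1463 .nil) (nat_lit 251904400) x1464 .nil))
/-- T 40 120 -/
noncomputable def F41 : Fam := ⟨rd41, ks41, T41⟩
/-- T 40 140 -/
noncomputable def T42 : TT := (.node (.node (.node .nil (nat_lit 168018160) x1465 .nil) (nat_lit 168018240) x1466 (.node .nil (nat_lit 168100160) x1467 .nil)) (nat_lit 251904240) x1468 (.node (.node .nil (nat_lit 251904320) x1469 .nil) (nat_lit 251986240) x1470 (.node .nil (nat_lit 335872320) x1471 .nil)))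
/-- T 40 140 -/
noncomputable def F42 : Fam := ⟨rd42, ks42, T42⟩
/-- T 40 160 -/
noncomputable def T43 : TT := (.node (.node (.node .nil (nat_lit 251904240) x1472 .nil) (nat_lit 251904320) x1473 .nil) (nat_lit 251986240) x1474 (.node .nil (nat_lit 335872320) x1475 .nil))
/-- T 40 160 -/
noncomputable def F43 : Fam := ⟨rd43, ks43, T43⟩
/-- T 60 80 -/
noncomputable def T44 : TT := (.node (.node (.node (.node (.node (.node .nil (nat_lit 240) x1476 .nil) (nat_lit 320) x1477 .nil) (nat_lit 400) x1478 (.node (.node .nil (nat_lit 82160) x1479 .nil) (nat_lit 82240) x1480 .nil)) (nat_lit 82320) x1481 (.node (.node (.node .nil (nat_lit 164080) x1482 .nil) (nat_lit 164160) x1483 .nil) (nat_lit 164240) x1484 (.node (.node .nil (nat_lit 246000) x1485 .nil) (nat_lit 246080) x1486 .nil))) (nat_lit 246160) x1487 (.node (.node (.node (.node .nil (nat_lit 328000) x1488 .nil) (nat_lit 328080) x1489 .nil) (nat_lit 410000) x1490 (.node (.node .nil (nat_lit 83968240) x1491 .nil) (nat_lit 83968320) x1492 .nil)) (nat_lit 83968400) x1493 (.node (.node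 (.node .nil (nat_lit 84050160) x1494 .nil) (nat_lit 84050240) x1495 .nil) (nat_lit 84050320) x1496 (.node (.node .nil (nat_lit 84132080) x1497 .nil) (nat_lit 84132160) x1498 .nil)))) (nat_lit 84132240) x1499 (.node (.node (.node (.node (.node .nil (nat_lit 84214080) x1500 .nil) (nat_lit 84214160) x1501 .nil) (nat_lit 84296080) x1502 (.node (.node .nil (nat_lit 167936240) x1503 .nil) (nat_lit 167936320) x1504 .nil)) (nat_lit 167936400) x1505 (.node (.node (.node .nil (nat_lit 168018160) x1506 .nil) (nat_lit 168018240) x1507 .nil) (nat_lit 168018320) x1508 (.node (.node .nil (nat_lit 168100160) x1509 .nil) (nat_lit 168100240) x1510 .nil))) (nat_lit 168182160) x1511 (.node (.node (.node (.node .nil (nat_lit 251904240) x1512 .nil) (nat_lit 251904320) x1513 .nil) (nat_lit 251904400) x1514 (.node (.node .nil (nat_lit 251986240) x1515 .nil) (nat_lit 251986320) x1516 .nil)) (nat_lit 252068240) x1517 (.node (.node (.node .nil (nat_lit 335872320) x1518 .nil) (nat_lit 335872400) x1519 .nil) (nat_lit 335954320) x1520 (.node .nil (nat_lit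 419840400) x1521 .nil)))))
/-- T 60 80 -/
noncomputable def F44 : Fam := ⟨rd44, ks44, T44⟩
/-- T 60 100 -/
noncomputable def T45 : TT := (.node (.node (.node (.node (.node .nil (nat_lit 83968320) x1522 .nil) (nat_lit 83968400) x1523 .nil) (nat_lit 84050240) x1524 (.node (.node .nil (nat_lit 84050320) x1525 .nil) (nat_lit 84132160) x1526 .nil)) (nat_lit 84132240) x1527 (.node (.node (.node .nil (nat_lit 84214080) x1528 .nil) (nat_lit 84214160) x1529 .nil) (nat_lit 84296080) x1530 (.node .nil (nat_lit 167936320) x1531 .nil))) (nat_lit 167936400) x1532 (.node (.node (.node (.node .nil (nat_lit 168018240) x1533 .nil) (nat_lit 168018320) x1534 .nil) (nat_lit 168100160) x1535 (.node (.node .nil (nat_lit 168100240) x1536 .nil) (nat_lit 168182160) x1537 .nil)) (nat_lit 251904320) x1538 (.node (.node (.node .nil (nat_lit 251904400) x1539 .nil) (nat_lit 251986240) x1540 .nil) (nat_lit 251986320) x1541 (.node .nil (nat_lit 252068240) x1542 .nil))))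
/-- T 60 100 -/
noncomputable def F45 : Fam := ⟨rd45, ks45, T45⟩
/-- T 60 120 -/
noncomputable def T46 : TT := (.node (.node (.node (.node .nil (nat_lit 167936320) x1543 .nil) (nat_lit 167936400) x1544 .nil) (nat_lit 168018240) x1545 (.node (.node .nil (nat_lit 168018320) x1546 .nil) (nat_lit 168100160) x1547 .nil)) (nat_lit 168100240) x1548 (.node (.node (.node .nil (nat_lit 251904320) x1549 .nil) (nat_lit 251904400) x1550 .nil) (nat_lit 251986240) x1551 (.node .nil (nat_lit 251986320) x1552 .nil)))
/-- T 60 120 -/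
noncomputable def F46 : Fam := ⟨rd46, ks46, T46⟩
/-- T 60 140 -/
noncomputable def T47 : TT := (.node (.node (.node (.node .nil (nat_lit 168100160) x1553 .nil) (nat_lit 168100240) x1554 .nil) (nat_lit 168182160) x1555 (.node .nil (nat_lit 251986240) x1556 .nil)) (nat_lit 251986320) x1557 (.node (.node (.node .nil (nat_lit 252068240) x1558 .nil) (nat_lit 335872320) x1559 .nil) (nat_lit 335872400) x1560 (.node .nil (nat_lit 335954320) x1561 .nil)))
/-- T 60 140 -/
noncomputable def F47 : Fam := ⟨rd47, ks47, T47⟩
/-- T 60 160 -/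
noncomputable def T48 : TT := (.node (.node (.node .nil (nat_lit 251904320) x1562 .nil) (nat_lit 251904400) x1563 (.node .nil (nat_lit 251986240) x1564 .nil)) (nat_lit 251986320) x1565 (.node (.node .nil (nat_lit 335872320) x1566 .nil) (nat_lit 335872400) x1567 .nil))
/-- T 60 160 -/
noncomputable def F48 : Fam := ⟨rd48, ks48, T48⟩
/-- T 60 180 -/
noncomputable def T49 : TT := (.node (.node (.node .nil (nat_lit 251986240) x1568 .nil) (nat_lit 251986320) x1569 (.node .nil (nat_lit 252068240) x1570 .nil)) (nat_lit 335872320) x1571 (.node (.node .nil (nat_lit 335872400) x1572 .nil) (nat_lit 335954320) x1573 (.node .nil (nat_lit 419840400) x1574 .nil)))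
/-- T 60 180 -/
noncomputable def F49 : Fam := ⟨rd49, ks49, T49⟩
/-- T 80 100 -/
noncomputable def T50 : TT := (.node (.node (.node (.node (.node (.node .nil (nat_lit 240) x1575 .nil) (nat_lit 320) x1576 .nil) (nat_lit 400) x1577 (.node (.node .nil (nat_lit 82160) x1578 .nil) (nat_lit 82240) x1579 .nil)) (nat_lit 82320) x1580 (.node (.node (.node .nil (nat_lit 164080) x1581 .nil) (nat_lit 164160) x1582 .nil) (nat_lit 164240) x1583 (.node (.node .nil (nat_lit 246000) x1584 .nil) (nat_lit 246080) x1585 .nil))) (nat_lit 246160) x1586 (.node (.node (.node (.node .nil (nat_lit 328000) x1587 .nil) (nat_lit 328080) x1588 .nil) (nat_lit 410000) x1589 (.node (.node .nil (nat_lit 83968240) x1590 .nil) (nat_lit 83968320) x1591 .nil)) (nat_lit 83968400) x1592 (.node (.node (.node .nil (nat_lit 84050160) x1593 .nil) (nat_lit 84050240) x1594 .nil) (nat_lit 84050320) x1595 (.node (.node .nil (nat_lit 84132080) x1596 .nil) (nat_lit 84132160) x1597 .nil)))) (nat_lit 84132240) x1598 (.node (.node (.node (.node (.node .nil (nat_lit 84214080) x1599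 .nil) (nat_lit 84214160) x1600 .nil) (nat_lit 84296080) x1601 (.node (.node .nil (nat_lit 167936240) x1602 .nil) (nat_lit 167936320) x1603 .nil)) (nat_lit 167936400) x1604 (.node (.node (.node .nil (nat_lit 168018160) x1605 .nil) (nat_lit 168018240) x1606 .nil) (nat_lit 168018320) x1607 (.node (.node .nil (nat_lit 168100160) x1608 .nil) (nat_lit 168100240) x1609 .nil))) (nat_lit 168182160) x1610 (.node (.node (.node (.node .nil (nat_lit 251904240) x1611 .nil) (nat_lit 251904320) x1612 .nil) (nat_lit 251904400) x1613 (.node (.node .nil (nat_lit 251986240) x1614 .nil) (nat_lit 251986320) x1615 .nil)) (nat_lit 252068240) x1616 (.node (.node (.node .nil (nat_lit 335872320) x1617 .nil) (nat_lit 335872400) x1618 .nil) (nat_lit 335954320) x1619 (.node .nil (nat_lit 419840400) x1620 .nil)))))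
/-- T 80 100 -/
noncomputable def F50 : Fam := ⟨rd50, ks50, T50⟩
/-- T 80 120 -/
noncomputable def T51 : TT := (.node (.node (.node (.node (.node (.node .nil (nat_lit 320) x1621 .nil) (nat_lit 400) x1622 .nil) (nat_lit 82240) x1623 (.node .nil (nat_lit 82320) x1624 .nil)) (nat_lit 164160) x1625 (.node (.node (.node .nil (nat_lit 164240) x1626 .nil) (nat_lit 246080) x1627 .nil) (nat_lit 246160) x1628 (.node .nil (nat_lit 328000) x1629 .nil))) (nat_lit 328080) x1630 (.node (.node (.node (.node .nil (nat_lit 410000) x1631 .nil) (nat_lit 83968320) x1632 .nil) (nat_lit 83968400) x1633 (.node .nil (nat_lit 84050240) x1634 .nil)) (nat_lit 84050320) x1635 (.node (.node .nil (nat_lit 84132160) x1636 .nil) (nat_lit 84132240) x1637 (.node .nil (nat_lit 84214080) x1638 .nil)))) (nat_lit 84214160) x1639 (.node (.node (.node (.node (.node .nil (nat_lit 84296080) x1640 .nil) (nat_lit 167936320) x1641 .nil) (nat_lit 167936400) x1642 (.node .nil (nat_lit 168018240) x1643 .nil)) (nat_lit 168018320) x1644 (.node (.node .nil (nat_lit 168100160)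 x1645 .nil) (nat_lit 168100240) x1646 (.node .nil (nat_lit 168182160) x1647 .nil))) (nat_lit 251904320) x1648 (.node (.node (.node (.node .nil (nat_lit 251904400) x1649 .nil) (nat_lit 251986240) x1650 .nil) (nat_lit 251986320) x1651 (.node .nil (nat_lit 252068240) x1652 .nil)) (nat_lit 335872320) x1653 (.node (.node .nil (nat_lit 335872400) x1654 .nil) (nat_lit 335954320) x1655 (.node .nil (nat_lit 419840400) x1656 .nil)))))
/-- T 80 120 -/
noncomputable def F51 : Fam := ⟨rd51, ks51, T51⟩
/-- T 80 160 -/
noncomputable def T52 : TT := (.node (.node (.node (.node .nil (nat_lit 251904320) x1657 .nil) (nat_lit 251904400) x1658 .nil) (nat_lit 251986240) x1659 (.node .nil (nat_lit 251986320) x1660 .nil)) (nat_lit 252068240) x1661 (.node (.node .nil (nat_lit 335872320) x1662 .nil) (nat_lit 335872400) x1663 (.node .nil (nat_lit 335954320) x1664 .nil)))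
/-- T 80 160 -/
noncomputable def F52 : Fam := ⟨rd52, ks52, T52⟩
/-- T 80 180 -/
noncomputable def T53 : TT := (.node (.node (.node .nil (nat_lit 335872320) x1665 .nil) (nat_lit 335872400) x1666 .nil) (nat_lit 335954320) x1667 (.node .nil (nat_lit 419840400) x1668 .nil))
/-- T 80 180 -/
noncomputable def F53 : Fam := ⟨rd53, ks53, T53⟩
/-- T 100 120 -/
noncomputable def T54 : TT := (.node (.node (.node (.node (.node (.node .nil (nat_lit 160) x1669 .nil) (nat_lit 240) x1670 .nil) (nat_lit 320) x1671 (.node (.node .nil (nat_lit 82080) x1672 .nil) (nat_lit 82160) x1673 .nil)) (nat_lit 82240) x1674 (.node (.node (.node .nil (nat_lit 164000) x1675 .nil) (nat_lit 164080) x1676 .nil) (nat_lit 164160) x1677 (.node (.node .nil (nat_lit 164240) x1678 .nil) (nat_lit 246000) x1679 .nil))) (nat_lit 246080) x1680 (.node (.node (.node (.node .nil (nat_lit 246160) x1681 .nil) (nat_lit 328000) x1682 .nil) (nat_lit 328080) x1683 (.node (.node .nil (nat_lit 83968160) x1684 .nil) (nat_lit 83968240) x1685 .nil)) (nat_lit 83968320) x1686 (.node (.node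 (.node .nil (nat_lit 84050080) x1687 .nil) (nat_lit 84050160) x1688 .nil) (nat_lit 84050240) x1689 (.node (.node .nil (nat_lit 84050320) x1690 .nil) (nat_lit 84132080) x1691 .nil)))) (nat_lit 84132160) x1692 (.node (.node (.node (.node (.node .nil (nat_lit 84132240) x1693 .nil) (nat_lit 84214080) x1694 .nil) (nat_lit 84214160) x1695 (.node (.node .nil (nat_lit 167936160) x1696 .nil) (nat_lit 167936240) x1697 .nil)) (nat_lit 167936320) x1698 (.node (.node (.node .nil (nat_lit 167936400) x1699 .nil) (nat_lit 168018160) x1700 .nil) (nat_lit 168018240) x1701 (.node (.node .nil (nat_lit 168018320) x1702 .nil) (nat_lit 168100160) x1703 .nil))) (nat_lit 168100240) x1704 (.node (.node (.node (.node .nil (nat_lit 168182160) x1705 .nil) (nat_lit 251904240) x1706 .nil) (nat_lit 251904320) x1707 (.node (.node .nil (nat_lit 251904400) x1708 .nil) (nat_lit 251986240) x1709 .nil)) (nat_lit 251986320) x1710 (.node (.node (.node .nil (nat_lit 252068240) x1711 .nil) (nat_lit 335872320) x1712 .nil) (nat_lit 335872400) x1713 (.node .nil (nat_lit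 335954320) x1714 .nil)))))
/-- T 100 120 -/
noncomputable def F54 : Fam := ⟨rd54, ks54, T54⟩
/-- T 100 140 -/
noncomputable def T55 : TT := (.node (.node (.node (.node (.node (.node .nil (nat_lit 240) x1715 .nil) (nat_lit 320) x1716 .nil) (nat_lit 82160) x1717 (.node (.node .nil (nat_lit 82240) x1718 .nil) (nat_lit 82320) x1719 .nil)) (nat_lit 164080) x1720 (.node (.node (.node .nil (nat_lit 164160) x1721 .nil) (nat_lit 164240) x1722 .nil) (nat_lit 246000) x1723 (.node (.node .nil (nat_lit 246080) x1724 .nil) (nat_lit 246160) x1725 .nil))) (nat_lit 328000) x1726 (.node (.node (.node (.node .nil (nat_lit 328080) x1727 .nil) (nat_lit 410000) x1728 .nil) (nat_lit 83968240) x1729 (.node (.node .nil (nat_lit 83968320) x1730 .nil) (nat_lit 83968400) x1731 .nil)) (nat_lit 84050160) x1732 (.node (.node (.node .nil (nat_lit 84050240) x1733 .nil) (nat_lit 84050320) x1734 .nil) (nat_lit 84132080) x1735 (.node .nil (nat_lit 84132160) x1736 .nil)))) (nat_lit 84132240) x1737 (.node (.node (.node (.node (.node .nil (nat_lit 84214080) x1738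 .nil) (nat_lit 84214160) x1739 .nil) (nat_lit 84296080) x1740 (.node (.node .nil (nat_lit 167936240) x1741 .nil) (nat_lit 167936320) x1742 .nil)) (nat_lit 167936400) x1743 (.node (.node (.node .nil (nat_lit 168018160) x1744 .nil) (nat_lit 168018240) x1745 .nil) (nat_lit 168018320) x1746 (.node (.node .nil (nat_lit 168100160) x1747 .nil) (nat_lit 168100240) x1748 .nil))) (nat_lit 168182160) x1749 (.node (.node (.node (.node .nil (nat_lit 251904240) x1750 .nil) (nat_lit 251904320) x1751 .nil) (nat_lit 251904400) x1752 (.node (.node .nil (nat_lit 251986240) x1753 .nil) (nat_lit 251986320) x1754 .nil)) (nat_lit 252068240) x1755 (.node (.node (.node .nil (nat_lit 335872320) x1756 .nil) (nat_lit 335872400) x1757 .nil) (nat_lit 335954320) x1758 (.node .nil (nat_lit 419840400) x1759 .nil)))))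
/-- T 100 140 -/
noncomputable def F55 : Fam := ⟨rd55, ks55, T55⟩
/-- T 100 160 -/
noncomputable def T56 : TT := (.node (.node (.node (.node (.node (.node .nil (nat_lit 82240) x1760 .nil) (nat_lit 82320) x1761 .nil) (nat_lit 164160) x1762 (.node .nil (nat_lit 164240) x1763 .nil)) (nat_lit 246080) x1764 (.node (.node .nil (nat_lit 246160) x1765 .nil) (nat_lit 328000) x1766 (.node .nil (nat_lit 328080) x1767 .nil))) (nat_lit 410000) x1768 (.node (.node (.node (.node .nil (nat_lit 83968320) x1769 .nil) (nat_lit 83968400) x1770 .nil) (nat_lit 84050240) x1771 (.node .nil (nat_lit 84050320) x1772 .nil)) (nat_lit 84132160) x1773 (.node (.node .nil (nat_lit 84132240) x1774 .nil) (nat_lit 84214080) x1775 (.node .nil (nat_lit 84214160) x1776 .nil)))) (nat_lit 84296080) x1777 (.node (.node (.node (.node (.node .nil (nat_lit 167936320) x1778 .nil) (nat_lit 167936400) x1779 .nil) (nat_lit 168018240) x1780 (.node .nil (nat_lit 168018320) x1781 .nil)) (nat_lit 168100160) x1782 (.node (.node .nil (nat_lit 168100240) x1783 .nil) (nat_lit 168182160)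 x1784 (.node .nil (nat_lit 251904320) x1785 .nil))) (nat_lit 251904400) x1786 (.node (.node (.node .nil (nat_lit 251986240) x1787 .nil) (nat_lit 251986320) x1788 (.node .nil (nat_lit 252068240) x1789 .nil)) (nat_lit 335872320) x1790 (.node (.node .nil (nat_lit 335872400) x1791 .nil) (nat_lit 335954320) x1792 (.node .nil (nat_lit 419840400) x1793 .nil)))))
/-- T 100 160 -/
noncomputable def F56 : Fam := ⟨rd56, ks56, T56⟩
/-- T 100 200 -/
noncomputable def T57 : TT := (.node (.node (.node .nil (nat_lit 335872320) x1794 .nil) (nat_lit 335872400) x1795 .nil) (nat_lit 335954320) x1796 (.node .nil (nat_lit 419840400) x1797 .nil))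
/-- T 100 200 -/
noncomputable def F57 : Fam := ⟨rd57, ks57, T57⟩
/-- T 120 140 -/
noncomputable def T58 : TT := (.node (.node (.node (.node (.node (.node .nil (nat_lit 160) x1798 .nil) (nat_lit 240) x1799 .nil) (nat_lit 320) x1800 (.node (.node .nil (nat_lit 82080) x1801 .nil) (nat_lit 82160) x1802 .nil)) (nat_lit 82240) x1803 (.node (.node (.node .nil (nat_lit 164000) x1804 .nil) (nat_lit 164080) x1805 .nil) (nat_lit 164160) x1806 (.node (.node .nil (nat_lit 164240) x1807 .nil) (nat_lit 246000) x1808 .nil))) (nat_lit 246080) x1809 (.node (.node (.node (.node .nil (nat_lit 246160) x1810 .nil) (nat_lit 328000) x1811 .nil) (nat_lit 328080) x1812 (.node (.node .nil (nat_lit 83968160) x1813 .nil) (nat_lit 83968240) x1814 .nil)) (nat_lit 83968320) x1815 (.node (.node (.node .nil (nat_lit 84050080) x1816 .nil) (nat_lit 84050160) x1817 .nil) (nat_lit 84050240) x1818 (.node (.node .nil (nat_lit 84050320) x1819 .nil) (nat_lit 84132080) x1820 .nil)))) (nat_lit 84132160) x1821 (.node (.node (.node (.node (.node .nil (nat_lit 84132240)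 x1822 .nil) (nat_lit 84214080) x1823 .nil) (nat_lit 84214160) x1824 (.node (.node .nil (nat_lit 167936160) x1825 .nil) (nat_lit 167936240) x1826 .nil)) (nat_lit 167936320) x1827 (.node (.node (.node .nil (nat_lit 167936400) x1828 .nil) (nat_lit 168018160) x1829 .nil) (nat_lit 168018240) x1830 (.node (.node .nil (nat_lit 168018320) x1831 .nil) (nat_lit 168100160) x1832 .nil))) (nat_lit 168100240) x1833 (.node (.node (.node (.node .nil (nat_lit 168182160) x1834 .nil) (nat_lit 251904240) x1835 .nil) (nat_lit 251904320) x1836 (.node (.node .nil (nat_lit 251904400) x1837 .nil) (nat_lit 251986240) x1838 .nil)) (nat_lit 251986320) x1839 (.node (.node (.node .nil (nat_lit 252068240) x1840 .nil) (nat_lit 335872320) x1841 .nil) (nat_lit 335872400) x1842 (.node .nil (nat_lit 335954320) x1843 .nil)))))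
/-- T 120 140 -/
noncomputable def F58 : Fam := ⟨rd58, ks58, T58⟩
/-- T 120 160 -/
noncomputable def T59 : TT := (.node (.node (.node (.node (.node (.node .nil (nat_lit 240) x1844 .nil) (nat_lit 320) x1845 .nil) (nat_lit 400) x1846 (.node (.node .nil (nat_lit 82160) x1847 .nil) (nat_lit 82240) x1848 .nil)) (nat_lit 82320) x1849 (.node (.node (.node .nil (nat_lit 164080) x1850 .nil) (nat_lit 164160) x1851 .nil) (nat_lit 164240) x1852 (.node (.node .nil (nat_lit 246000) x1853 .nil) (nat_lit 246080) x1854 .nil))) (nat_lit 246160) x1855 (.node (.node (.node (.node .nil (nat_lit 328000) x1856 .nil) (nat_lit 328080) x1857 .nil) (nat_lit 410000) x1858 (.node (.node .nil (nat_lit 83968240) x1859 .nil) (nat_lit 83968320) x1860 .nil)) (nat_lit 83968400) x1861 (.node (.node (.node .nil (nat_lit 84050160) x1862 .nil) (nat_lit 84050240) x1863 .nil) (nat_lit 84050320) x1864 (.node .nil (nat_lit 84132080) x1865 .nil)))) (nat_lit 84132160) x1866 (.node (.node (.node (.node (.node .nil (nat_lit 84132240) x1867 .nil) (nat_lit 84214080) x1868 .nil)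 (nat_lit 84214160) x1869 (.node (.node .nil (nat_lit 84296080) x1870 .nil) (nat_lit 167936240) x1871 .nil)) (nat_lit 167936320) x1872 (.node (.node (.node .nil (nat_lit 168018160) x1873 .nil) (nat_lit 168018240) x1874 .nil) (nat_lit 168018320) x1875 (.node (.node .nil (nat_lit 168100160) x1876 .nil) (nat_lit 168100240) x1877 .nil))) (nat_lit 168182160) x1878 (.node (.node (.node (.node .nil (nat_lit 251904240) x1879 .nil) (nat_lit 251904320) x1880 .nil) (nat_lit 251904400) x1881 (.node (.node .nil (nat_lit 251986240) x1882 .nil) (nat_lit 251986320) x1883 .nil)) (nat_lit 252068240) x1884 (.node (.node (.node .nil (nat_lit 335872320) x1885 .nil) (nat_lit 335872400) x1886 .nil) (nat_lit 335954320) x1887 (.node .nil (nat_lit 419840400) x1888 .nil)))))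
/-- T 120 160 -/
noncomputable def F59 : Fam := ⟨rd59, ks59, T59⟩
/-- T 120 180 -/
noncomputable def T60 : TT := (.node (.node (.node (.node (.node (.node .nil (nat_lit 82160) x1889 .nil) (nat_lit 82240) x1890 .nil) (nat_lit 164080) x1891 (.node (.node .nil (nat_lit 164160) x1892 .nil) (nat_lit 164240) x1893 .nil)) (nat_lit 246000) x1894 (.node (.node (.node .nil (nat_lit 246080) x1895 .nil) (nat_lit 246160) x1896 .nil) (nat_lit 328000) x1897 (.node .nil (nat_lit 328080) x1898 .nil))) (nat_lit 410000) x1899 (.node (.node (.node (.node .nil (nat_lit 83968240) x1900 .nil) (nat_lit 83968320) x1901 .nil) (nat_lit 83968400) x1902 (.node (.node .nil (nat_lit 84050160) x1903 .nil) (nat_lit 84050240) x1904 .nil)) (nat_lit 84050320) x1905 (.node (.node (.node .nil (nat_lit 84132080) x1906 .nil) (nat_lit 84132160) x1907 .nil) (nat_lit 84132240) x1908 (.node .nil (nat_lit 84214080) x1909 .nil)))) (nat_lit 84214160) x1910 (.node (.node (.node (.node (.node .nil (nat_lit 84296080) x1911 .nil) (nat_lit 167936240) x1912 .nil) (nat_lit 167936320)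 x1913 (.node (.node .nil (nat_lit 167936400) x1914 .nil) (nat_lit 168018160) x1915 .nil)) (nat_lit 168018240) x1916 (.node (.node (.node .nil (nat_lit 168018320) x1917 .nil) (nat_lit 168100160) x1918 .nil) (nat_lit 168100240) x1919 (.node .nil (nat_lit 168182160) x1920 .nil))) (nat_lit 251904240) x1921 (.node (.node (.node (.node .nil (nat_lit 251904320) x1922 .nil) (nat_lit 251904400) x1923 .nil) (nat_lit 251986240) x1924 (.node .nil (nat_lit 251986320) x1925 .nil)) (nat_lit 252068240) x1926 (.node (.node (.node .nil (nat_lit 335872320) x1927 .nil) (nat_lit 335872400) x1928 .nil) (nat_lit 335954320) x1929 (.node .nil (nat_lit 419840400) x1930 .nil)))))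
/-- T 120 180 -/
noncomputable def F60 : Fam := ⟨rd60, ks60, T60⟩
/-- T 120 200 -/
noncomputable def T61 : TT := (.node (.node (.node .nil (nat_lit 335872320) x1931 .nil) (nat_lit 335872400) x1932 .nil) (nat_lit 335954320) x1933 (.node .nil (nat_lit 419840400) x1934 .nil))
/-- T 120 200 -/
noncomputable def F61 : Fam := ⟨rd61, ks61, T61⟩
/-- T 140 160 -/
noncomputable def T62 : TT := (.node (.node (.node (.node (.node (.node (.node .nil (nat_lit 160) x1935 .nil) (nat_lit 240) x1936 .nil) (nat_lit 320) x1937 (.node .nil (nat_lit 82040) x1938 .nil)) (nat_lit 82080) x1939 (.node (.node .nil (nat_lit 82160) x1940 .nil) (nat_lit 82240) x1941 (.node .nil (nat_lit 123040) x1942 .nil))) (nat_lit 123120) x1943 (.node (.node (.node .nil (nat_lit 123200) x1944 .nil) (nat_lit 123280) x1945 (.node .nil (nat_lit 164000) x1946 .nil)) (nat_lit 164080) x1947 (.node (.node .nil (nat_lit 164160) x1948 .nil) (nat_lit 164240) x1949 (.node .nil (nat_lit 246000) x1950 .nil)))) (nat_lit 246080) x1951 (.node (.node (.node (.node .nil (nat_lit 246160)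 x1952 .nil) (nat_lit 328000) x1953 (.node .nil (nat_lit 328080) x1954 .nil)) (nat_lit 83968160) x1955 (.node (.node .nil (nat_lit 83968240) x1956 .nil) (nat_lit 83968320) x1957 (.node .nil (nat_lit 84009120) x1958 .nil))) (nat_lit 84009200) x1959 (.node (.node (.node .nil (nat_lit 84009280) x1960 .nil) (nat_lit 84009360) x1961 (.node .nil (nat_lit 84050080) x1962 .nil)) (nat_lit 84050160) x1963 (.node (.node .nil (nat_lit 84050240) x1964 .nil) (nat_lit 84050320) x1965 (.node .nil (nat_lit 84132080) x1966 .nil))))) (nat_lit 84132160) x1967 (.node (.node (.node (.node (.node (.node .nil (nat_lit 84132240) x1968 .nil) (nat_lit 84214080) x1969 .nil) (nat_lit 84214160) x1970 (.node .nil (nat_lit 125993120) x1971 .nil)) (nat_lit 125993200) x1972 (.node (.node .nil (nat_lit 125993280) x1973 .nil) (nat_lit 125993360) x1974 (.node .nil (nat_lit 126075120) x1975 .nil))) (nat_lit 126075200) x1976 (.node (.node (.node .nil (nat_lit 126075280) x1977 .nil) (nat_lit 126157120) x1978 (.node .nil (nat_lit 126157200) x1979 .nil)) (nat_lit 126239120)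 x1980 (.node (.node .nil (nat_lit 167936160) x1981 .nil) (nat_lit 167936240) x1982 (.node .nil (nat_lit 167936320) x1983 .nil)))) (nat_lit 167936400) x1984 (.node (.node (.node (.node .nil (nat_lit 168018160) x1985 .nil) (nat_lit 168018240) x1986 (.node .nil (nat_lit 168018320) x1987 .nil)) (nat_lit 168100160) x1988 (.node (.node .nil (nat_lit 168100240) x1989 .nil) (nat_lit 168182160) x1990 (.node .nil (nat_lit 251904240) x1991 .nil))) (nat_lit 251904320) x1992 (.node (.node (.node .nil (nat_lit 251904400) x1993 .nil) (nat_lit 251986240) x1994 (.node .nil (nat_lit 251986320) x1995 .nil)) (nat_lit 252068240) x1996 (.node (.node .nil (nat_lit 335872320) x1997 .nil) (nat_lit 335872400) x1998 (.node .nil (nat_lit 335954320) x1999 .nil))))))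
/-- T 140 160 -/
noncomputable def F62 : Fam := ⟨rd62, ks62, T62⟩
/-- T 140 180 -/
noncomputable def T63 : TT := (.node (.node (.node (.node (.node (.node .nil (nat_lit 160) x2000 .nil) (nat_lit 240) x2001 (.node .nil (nat_lit 320) x2002 .nil)) (nat_lit 400) x2003 (.node (.node .nil (nat_lit 82080) x2004 .nil) (nat_lit 82160) x2005 .nil)) (nat_lit 82240) x2006 (.node (.node (.node .nil (nat_lit 82320) x2007 .nil) (nat_lit 164000) x2008 (.node .nil (nat_lit 164080) x2009 .nil)) (nat_lit 164160) x2010 (.node (.node .nil (nat_lit 164240) x2011 .nil) (nat_lit 246000) x2012 .nil))) (nat_lit 246080) x2013 (.node (.node (.node (.node .nil (nat_lit 246160) x2014 .nil) (nat_lit 328000) x2015 (.node .nil (nat_lit 328080) x2016 .nil)) (nat_lit 410000) x2017 (.node (.node .nil (nat_lit 83968160) x2018 .nil) (nat_lit 83968240) x2019 .nil)) (nat_lit 83968320) x2020 (.node (.node (.node .nil (nat_lit 83968400) x2021 .nil) (nat_lit 84050080) x2022 .nil) (nat_lit 84050160) x2023 (.node (.node .nil (nat_lit 84050240) x2024 .nil) (nat_lit 84050320)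 x2025 .nil)))) (nat_lit 84132080) x2026 (.node (.node (.node (.node (.node .nil (nat_lit 84132160) x2027 .nil) (nat_lit 84132240) x2028 (.node .nil (nat_lit 84214080) x2029 .nil)) (nat_lit 84214160) x2030 (.node (.node .nil (nat_lit 84296080) x2031 .nil) (nat_lit 167936160) x2032 .nil)) (nat_lit 167936240) x2033 (.node (.node (.node .nil (nat_lit 167936320) x2034 .nil) (nat_lit 167936400) x2035 .nil) (nat_lit 168018160) x2036 (.node (.node .nil (nat_lit 168018240) x2037 .nil) (nat_lit 168018320) x2038 .nil))) (nat_lit 168100160) x2039 (.node (.node (.node (.node .nil (nat_lit 168100240) x2040 .nil) (nat_lit 168182160) x2041 (.node .nil (nat_lit 251904240) x2042 .nil)) (nat_lit 251904320) x2043 (.node (.node .nil (nat_lit 251904400) x2044 .nil) (nat_lit 251986240) x2045 .nil)) (nat_lit 251986320) x2046 (.node (.node (.node .nil (nat_lit 252068240) x2047 .nil) (nat_lit 335872320) x2048 .nil) (nat_lit 335872400) x2049 (.node (.node .nil (nat_lit 335954320) x2050 .nil) (nat_lit 419840400) x2051 .nil)))))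
/-- T 140 180 -/
noncomputable def F63 : Fam := ⟨rd63, ks63, T63⟩
end TC
end Pool.Agent.Lib.MP_6947cd_al
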