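import Pool.Agent.Lib.MP_6947cd_al.C.TabF
import Pool.Agent.Lib.MP_6947cd_al.TC.K
import Pool.Agent.Lib.MP_6947cd_al.TC.D003

/-!
Problem MP_6947cd_al (Chollet).  CASE C, tables and certificates.  Families of tables.
-/

set_option autoImplicit false
set_option linter.all false
namespace Pool.Agent.Lib.MP_6947cd_al
namespace TC
open PkA.TF
/-- T 140 200 -/
noncomputable def T64 : TT := (.node (.node (.node (.node (.node (.node .nil (nat_lit 82160) x2052 .nil) (nat_lit 82240) x2053 .nil) (nat_lit 164080) x2054 (.node .nil (nat_lit 164160) x2055 .nil)) (nat_lit 246000) x2056 (.node (.node (.node .nil (nat_lit 246080) x2057 .nil) (nat_lit 246160) x2058 .nil) (nat_lit 328000) x2059 (.node .nil (nat_lit 328080) x2060 .nil))) (nat_lit 83968240) x2061 (.node (.node (.node (.node .nil (nat_lit 83968320) x2062 .nil) (nat_lit 83968400) x2063 .nil) (nat_lit 84050160) x2064 (.node .nil (nat_lit 84050240) x2065 .nil)) (nat_lit 84050320) x2066 (.node (.node (.node .nil (nat_lit 84132080) x2067 .nil) (nat_lit 84132160) x2068 .nil) (nat_lit 84132240)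 x2069 (.node .nil (nat_lit 84214080) x2070 .nil)))) (nat_lit 84214160) x2071 (.node (.node (.node (.node (.node .nil (nat_lit 84296080) x2072 .nil) (nat_lit 167936240) x2073 .nil) (nat_lit 167936320) x2074 (.node .nil (nat_lit 168018160) x2075 .nil)) (nat_lit 168018240) x2076 (.node (.node (.node .nil (nat_lit 168018320) x2077 .nil) (nat_lit 168100160) x2078 .nil) (nat_lit 168100240) x2079 (.node .nil (nat_lit 168182160) x2080 .nil))) (nat_lit 251904240) x2081 (.node (.node (.node (.node .nil (nat_lit 251904320) x2082 .nil) (nat_lit 251904400) x2083 .nil) (nat_lit 251986240) x2084 (.node .nil (nat_lit 251986320) x2085 .nil)) (nat_lit 252068240) x2086 (.node (.node (.node .nil (nat_lit 335872320) x2087 .nil) (nat_lit 335872400) x2088 .nil) (nat_lit 335954320) x2089 (.node .nil (nat_lit 419840400) x2090 .nil)))))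
/-- T 140 200 -/
noncomputable def F64 : Fam := ⟨rd64, ks64, T64⟩
/-- T 160 180 -/
noncomputable def T65 : TT := (.node (.node (.node (.node (.node (.node (.node .nil (nat_lit 120) x2091 .nil) (nat_lit 160) x2092 .nil) (nat_lit 240) x2093 (.node .nil (nat_lit 320) x2094 .nil)) (nat_lit 82040) x2095 (.node (.node .nil (nat_lit 82080) x2096 .nil) (nat_lit 82160) x2097 (.node .nil (nat_lit 82240) x2098 .nil))) (nat_lit 123040) x2099 (.node (.node (.node .nil (nat_lit 123120) x2100 .nil) (nat_lit 123200) x2101 (.node .nil (nat_lit 123280) x2102 .nil)) (nat_lit 164000) x2103 (.node (.node .nil (nat_lit 164080) x2104 .nil) (nat_lit 164160) x2105 (.node .nil (nat_lit 164240) x2106 .nil)))) (nat_lit 246000) x2107 (.node (.node (.node (.node .nil (nat_lit 246080) x2108 .nil) (nat_lit 246160) x2109 (.node .nil (nat_lit 328000) x2110 .nil)) (nat_lit 328080) x2111 (.node (.node .nil (nat_lit 83968120) x2112 .nil) (nat_lit 83968160) x2113 (.node .nil (nat_lit 83968240) x2114 .nil))) (nat_lit 83968320) x2115 (.node (.node (.node .nil (nat_lit 84009120)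 x2116 .nil) (nat_lit 84009200) x2117 (.node .nil (nat_lit 84009280) x2118 .nil)) (nat_lit 84009360) x2119 (.node (.node .nil (nat_lit 84050080) x2120 .nil) (nat_lit 84050160) x2121 (.node .nil (nat_lit 84050240) x2122 .nil))))) (nat_lit 84050320) x2123 (.node (.node (.node (.node (.node .nil (nat_lit 84132080) x2124 .nil) (nat_lit 84132160) x2125 (.node .nil (nat_lit 84132240) x2126 .nil)) (nat_lit 84214080) x2127 (.node (.node .nil (nat_lit 84214160) x2128 .nil) (nat_lit 125993120) x2129 (.node .nil (nat_lit 125993200) x2130 .nil))) (nat_lit 125993280) x2131 (.node (.node (.node .nil (nat_lit 125993360) x2132 .nil) (nat_lit 126075120) x2133 (.node .nil (nat_lit 126075200) x2134 .nil)) (nat_lit 126075280) x2135 (.node (.node .nil (nat_lit 126157120) x2136 .nil) (nat_lit 126157200) x2137 (.node .nil (nat_lit 126239120) x2138 .nil)))) (nat_lit 167936160) x2139 (.node (.node (.node (.node .nil (nat_lit 167936240) x2140 .nil) (nat_lit 167936320) x2141 (.node .nil (nat_lit 167936400) x2142 .nil)) (nat_lit 168018160) x2143 (.node (.node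 .nil (nat_lit 168018240) x2144 .nil) (nat_lit 168018320) x2145 (.node .nil (nat_lit 168100160) x2146 .nil))) (nat_lit 168100240) x2147 (.node (.node (.node .nil (nat_lit 168182160) x2148 .nil) (nat_lit 251904240) x2149 (.node .nil (nat_lit 251904320) x2150 .nil)) (nat_lit 251904400) x2151 (.node (.node .nil (nat_lit 251986240) x2152 .nil) (nat_lit 251986320) x2153 (.node .nil (nat_lit 252068240) x2154 .nil))))))
/-- T 160 180 -/
noncomputable def F65 : Fam := ⟨rd65, ks65, T65⟩
/-- T 160 200 -/
noncomputable def T66 : TT := (.node (.node (.node (.node (.node (.node .nil (nat_lit 160) x2155 .nil) (nat_lit 240) x2156 .nil) (nat_lit 320) x2157 (.node (.node .nil (nat_lit 82080) x2158 .nil) (nat_lit 82160) x2159 .nil)) (nat_lit 82240) x2160 (.node (.node (.node .nil (nat_lit 164000) x2161 .nil) (nat_lit 164080) x2162 .nil) (nat_lit 164160) x2163 (.node (.node .nil (nat_lit 164240) x2164 .nil) (nat_lit 246000) x2165 .nil))) (nat_lit 246080) x2166 (.node (.node (.node (.node .nil (nat_lit 246160) x2167 .nil) (nat_lit 328000) x2168 .nil)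 (nat_lit 328080) x2169 (.node (.node .nil (nat_lit 83968160) x2170 .nil) (nat_lit 83968240) x2171 .nil)) (nat_lit 83968320) x2172 (.node (.node (.node .nil (nat_lit 84050080) x2173 .nil) (nat_lit 84050160) x2174 .nil) (nat_lit 84050240) x2175 (.node (.node .nil (nat_lit 84050320) x2176 .nil) (nat_lit 84132080) x2177 .nil)))) (nat_lit 84132160) x2178 (.node (.node (.node (.node (.node .nil (nat_lit 84132240) x2179 .nil) (nat_lit 84214080) x2180 .nil) (nat_lit 84214160) x2181 (.node (.node .nil (nat_lit 167936160) x2182 .nil) (nat_lit 167936240) x2183 .nil)) (nat_lit 167936320) x2184 (.node (.node (.node .nil (nat_lit 167936400) x2185 .nil) (nat_lit 168018160) x2186 .nil) (nat_lit 168018240) x2187 (.node (.node .nil (nat_lit 168018320) x2188 .nil) (nat_lit 168100160) x2189 .nil))) (nat_lit 168100240) x2190 (.node (.node (.node (.node .nil (nat_lit 168182160) x2191 .nil) (nat_lit 251904240) x2192 .nil) (nat_lit 251904320) x2193 (.node (.node .nil (nat_lit 251904400) x2194 .nil) (nat_lit 251986240) x2195 .nil)) (nat_lit 251986320) x2196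 (.node (.node (.node .nil (nat_lit 252068240) x2197 .nil) (nat_lit 335872320) x2198 .nil) (nat_lit 335872400) x2199 (.node .nil (nat_lit 335954320) x2200 .nil)))))
/-- T 160 200 -/
noncomputable def F66 : Fam := ⟨rd66, ks66, T66⟩
/-- T 180 200 -/
noncomputable def T67 : TT := (.node (.node (.node (.node (.node (.node (.node .nil (nat_lit 120) x2201 .nil) (nat_lit 160) x2202 .nil) (nat_lit 240) x2203 (.node .nil (nat_lit 320) x2204 .nil)) (nat_lit 82040) x2205 (.node (.node .nil (nat_lit 82080) x2206 .nil) (nat_lit 82160) x2207 (.node .nil (nat_lit 82240) x2208 .nil))) (nat_lit 123040) x2209 (.node (.node (.node .nil (nat_lit 123120) x2210 .nil) (nat_lit 123200) x2211 (.node .nil (nat_lit 123280) x2212 .nil)) (nat_lit 164000) x2213 (.node (.node .nil (nat_lit 164080) x2214 .nil) (nat_lit 164160) x2215 (.node .nil (nat_lit 164240) x2216 .nil)))) (nat_lit 246000) x2217 (.node (.node (.node (.node (.node .nil (nat_lit 246080) x2218 .nil) (nat_lit 246160) x2219 .nil) (nat_lit 328000) x2220 (.node .nil (nat_lit 328080) x2221 .nil)) (nat_lit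 83968120) x2222 (.node (.node .nil (nat_lit 83968160) x2223 .nil) (nat_lit 83968240) x2224 (.node .nil (nat_lit 83968320) x2225 .nil))) (nat_lit 84009120) x2226 (.node (.node (.node .nil (nat_lit 84009200) x2227 .nil) (nat_lit 84009280) x2228 (.node .nil (nat_lit 84009360) x2229 .nil)) (nat_lit 84050080) x2230 (.node (.node .nil (nat_lit 84050160) x2231 .nil) (nat_lit 84050240) x2232 (.node .nil (nat_lit 84050320) x2233 .nil))))) (nat_lit 84132080) x2234 (.node (.node (.node (.node (.node (.node .nil (nat_lit 84132160) x2235 .nil) (nat_lit 84132240) x2236 .nil) (nat_lit 84214080) x2237 (.node .nil (nat_lit 84214160) x2238 .nil)) (nat_lit 125993120) x2239 (.node (.node .nil (nat_lit 125993200) x2240 .nil) (nat_lit 125993280) x2241 (.node .nil (nat_lit 125993360) x2242 .nil))) (nat_lit 126075120) x2243 (.node (.node (.node .nil (nat_lit 126075200) x2244 .nil) (nat_lit 126075280) x2245 (.node .nil (nat_lit 126157120) x2246 .nil)) (nat_lit 126157200) x2247 (.node (.node .nil (nat_lit 126239120) x2248 .nil) (nat_lit 167936160) x2249 (.node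 .nil (nat_lit 167936240) x2250 .nil)))) (nat_lit 167936320) x2251 (.node (.node (.node (.node (.node .nil (nat_lit 167936400) x2252 .nil) (nat_lit 168018160) x2253 .nil) (nat_lit 168018240) x2254 (.node .nil (nat_lit 168018320) x2255 .nil)) (nat_lit 168100160) x2256 (.node (.node .nil (nat_lit 168100240) x2257 .nil) (nat_lit 168182160) x2258 (.node .nil (nat_lit 251904240) x2259 .nil))) (nat_lit 251904320) x2260 (.node (.node (.node .nil (nat_lit 251904400) x2261 .nil) (nat_lit 251986240) x2262 (.node .nil (nat_lit 251986320) x2263 .nil)) (nat_lit 252068240) x2264 (.node (.node .nil (nat_lit 335872320) x2265 .nil) (nat_lit 335872400) x2266 (.node .nil (nat_lit 335954320) x2267 .nil))))))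
/-- T 180 200 -/
noncomputable def F67 : Fam := ⟨rd67, ks67, T67⟩
end TC
end Pool.Agent.Lib.MP_6947cd_al
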