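import Pool.Agent.Lib.MP_6947cd_al.TC.F00
import Pool.Agent.Lib.MP_6947cd_al.TC.F01
import Pool.Agent.Lib.MP_6947cd_al.TC.F02
import Pool.Agent.Lib.MP_6947cd_al.TC.F03

/-!
Problem MP_6947cd_al (Chollet).  CASE C, tables and certificates.  The list of the families of tables.
-/

set_option autoImplicit false
set_option linter.all false
namespace Pool.Agent.Lib.MP_6947cd_al
namespace TC
open PkA.TF
/-- the families -/
noncomputable def env : List Fam := [F0, F1, F2, F3, F4, F5, F6, F7, F8, F9, F10, F11, F12, F13, F14, F15, F16, F17, F18, F19, F20, F21, F22, F23, F24, F25, F26, F27, F28, F29, F30, F31, F32, F33, F34, F35, F36, F37, F38, F39, F40, F41, F42, F43, F44, F45, F46, F47, F48, F49, F50, F51, F52, F53, F54, F55, F56, F57, F58, F59, F60, F61, F62, F63, F64, F65, F66, F67]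
end TC
end Pool.Agent.Lib.MP_6947cd_al
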