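import Pool.Agent.Lib.MP_6947cd_al.C.TabF
import Pool.Agent.Lib.MP_6947cd_al.TC.K
import Pool.Agent.Lib.MP_6947cd_al.TC.D000
import Pool.Agent.Lib.MP_6947cd_al.TC.D001

/-!
Problem MP_6947cd_al (Chollet).  CASE C, tables and certificates.  Families of tables.
-/

set_option autoImplicit false
set_option linter.all false
namespace Pool.Agent.Lib.MP_6947cd_al
namespace TC
open PkA.TF
/-- R 40 -/
noncomputable def T0 : TT := (.node (.node (.node (.node (.node .nil (nat_lit 246080) x0 .nil) (nat_lit 246160) x1 (.node .nil (nat_lit 328000) x2 .nil)) (nat_lit 328080) x3 (.node (.node .nil (nat_lit 410000) x4 .nil) (nat_lit 83968320) x5 (.node .nil (nat_lit 83968400) x6 .nil))) (nat_lit 84050240) x7 (.node (.node (.node .nil (nat_lit 84050320) x8 .nil) (nat_lit 84132160) x9 (.node .nil (nat_lit 84132240) x10 .nil)) (nat_lit 84214080) x11 (.node (.node .nil (nat_lit 84214160) x12 .nil) (nat_lit 84296080) x13 (.node .nil (nat_lit 167936320) x14 .nil)))) (nat_lit 167936400) x15 (.node (.node (.node (.node .nil (nat_lit 168018240) x16 .nil) (nat_lit 168018320)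 x17 (.node .nil (nat_lit 168100160) x18 .nil)) (nat_lit 168100240) x19 (.node (.node .nil (nat_lit 168182160) x20 .nil) (nat_lit 251904320) x21 (.node .nil (nat_lit 251904400) x22 .nil))) (nat_lit 251986240) x23 (.node (.node (.node .nil (nat_lit 251986320) x24 .nil) (nat_lit 252068240) x25 (.node .nil (nat_lit 335872320) x26 .nil)) (nat_lit 335872400) x27 (.node (.node .nil (nat_lit 335954320) x28 .nil) (nat_lit 419840400) x29 .nil))))
/-- R 40 -/
noncomputable def F0 : Fam := ⟨rd0, ks0, T0⟩
/-- R 40 60 -/
noncomputable def T1 : TT := (.node (.node (.node (.node (.node (.node .nil (nat_lit 320) x30 .nil) (nat_lit 400) x31 .nil) (nat_lit 82240) x32 (.node .nil (nat_lit 82320) x33 .nil)) (nat_lit 164160) x34 (.node (.node (.node .nil (nat_lit 164240) x35 .nil) (nat_lit 246080) x36 .nil) (nat_lit 246160) x37 (.node .nil (nat_lit 328000) x38 .nil))) (nat_lit 328080) x39 (.node (.node (.node (.node .nil (nat_lit 410000) x40 .nil) (nat_lit 83968320) x41 .nil) (nat_lit 83968400) x42 (.node .nil (nat_lit 84050240) x43 .nil)) (nat_lit 84050320) x44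 (.node (.node .nil (nat_lit 84132160) x45 .nil) (nat_lit 84132240) x46 (.node .nil (nat_lit 84214080) x47 .nil)))) (nat_lit 84214160) x48 (.node (.node (.node (.node (.node .nil (nat_lit 84296080) x49 .nil) (nat_lit 167936320) x50 .nil) (nat_lit 167936400) x51 (.node .nil (nat_lit 168018240) x52 .nil)) (nat_lit 168018320) x53 (.node (.node .nil (nat_lit 168100160) x54 .nil) (nat_lit 168100240) x55 (.node .nil (nat_lit 168182160) x56 .nil))) (nat_lit 251904320) x57 (.node (.node (.node (.node .nil (nat_lit 251904400) x58 .nil) (nat_lit 251986240) x59 .nil) (nat_lit 251986320) x60 (.node .nil (nat_lit 252068240) x61 .nil)) (nat_lit 335872320) x62 (.node (.node .nil (nat_lit 335872400) x63 .nil) (nat_lit 335954320) x64 (.node .nil (nat_lit 419840400) x65 .nil)))))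
/-- R 40 60 -/
noncomputable def F1 : Fam := ⟨rd1, ks1, T1⟩
/-- R 40 60 80 -/
noncomputable def T2 : TT := (.node (.node (.node (.node (.node (.node .nil (nat_lit 320) x66 .nil) (nat_lit 400) x67 .nil) (nat_lit 82240) x68 (.node .nil (nat_lit 82320) x69 .nil)) (nat_lit 164160) x70 (.node (.node (.node .nil (nat_lit 164240) x71 .nil) (nat_lit 246080) x72 .nil) (nat_lit 246160) x73 (.node .nil (nat_lit 328000) x74 .nil))) (nat_lit 328080) x75 (.node (.node (.node (.node .nil (nat_lit 410000) x76 .nil) (nat_lit 83968320) x77 .nil) (nat_lit 83968400) x78 (.node .nil (nat_lit 84050240) x79 .nil)) (nat_lit 84050320) x80 (.node (.node .nil (nat_lit 84132160) x81 .nil) (nat_lit 84132240) x82 (.node .nil (nat_lit 84214080) x83 .nil)))) (nat_lit 84214160) x84 (.node (.node (.node (.node (.node .nil (nat_lit 84296080) x85 .nil) (nat_lit 167936320) x86 .nil) (nat_lit 167936400) x87 (.node .nil (nat_lit 168018240) x88 .nil)) (nat_lit 168018320) x89 (.node (.node .nil (nat_lit 168100160) x90 .nil) (nat_lit 168100240) x91 (.node .nil (nat_lit 168182160) x92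 .nil))) (nat_lit 251904320) x93 (.node (.node (.node (.node .nil (nat_lit 251904400) x94 .nil) (nat_lit 251986240) x95 .nil) (nat_lit 251986320) x96 (.node .nil (nat_lit 252068240) x97 .nil)) (nat_lit 335872320) x98 (.node (.node .nil (nat_lit 335872400) x99 .nil) (nat_lit 335954320) x100 (.node .nil (nat_lit 419840400) x101 .nil)))))
/-- R 40 60 80 -/
noncomputable def F2 : Fam := ⟨rd2, ks2, T2⟩
/-- R 40 80 100 -/
noncomputable def T3 : TT := (.node (.node (.node (.node (.node (.node .nil (nat_lit 320) x102 .nil) (nat_lit 400) x103 .nil) (nat_lit 82240) x104 (.node .nil (nat_lit 82320) x105 .nil)) (nat_lit 164160) x106 (.node (.node (.node .nil (nat_lit 164240) x107 .nil) (nat_lit 246080) x108 .nil) (nat_lit 246160) x109 (.node .nil (nat_lit 328000) x110 .nil))) (nat_lit 328080) x111 (.node (.node (.node (.node .nil (nat_lit 410000) x112 .nil) (nat_lit 83968320) x113 .nil) (nat_lit 83968400) x114 (.node .nil (nat_lit 84050240) x115 .nil)) (nat_lit 84050320) x116 (.node (.node .nil (nat_lit 84132160) x117 .nil) (nat_lit 84132240) x118 (.node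 .nil (nat_lit 84214080) x119 .nil)))) (nat_lit 84214160) x120 (.node (.node (.node (.node (.node .nil (nat_lit 84296080) x121 .nil) (nat_lit 167936320) x122 .nil) (nat_lit 167936400) x123 (.node .nil (nat_lit 168018240) x124 .nil)) (nat_lit 168018320) x125 (.node (.node .nil (nat_lit 168100160) x126 .nil) (nat_lit 168100240) x127 (.node .nil (nat_lit 168182160) x128 .nil))) (nat_lit 251904320) x129 (.node (.node (.node (.node .nil (nat_lit 251904400) x130 .nil) (nat_lit 251986240) x131 .nil) (nat_lit 251986320) x132 (.node .nil (nat_lit 252068240) x133 .nil)) (nat_lit 335872320) x134 (.node (.node .nil (nat_lit 335872400) x135 .nil) (nat_lit 335954320) x136 (.node .nil (nat_lit 419840400) x137 .nil)))))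
/-- R 40 80 100 -/
noncomputable def F3 : Fam := ⟨rd3, ks3, T3⟩
/-- R 40 80 120 -/
noncomputable def T4 : TT := (.node (.node (.node (.node (.node (.node .nil (nat_lit 320) x138 .nil) (nat_lit 400) x139 .nil) (nat_lit 82240) x140 (.node .nil (nat_lit 82320) x141 .nil)) (nat_lit 164160) x142 (.node (.node (.node .nil (nat_lit 164240) x143 .nil) (nat_lit 246080) x144 .nil) (nat_lit 246160) x145 (.node .nil (nat_lit 328000) x146 .nil))) (nat_lit 328080) x147 (.node (.node (.node (.node .nil (nat_lit 410000) x148 .nil) (nat_lit 83968320) x149 .nil) (nat_lit 83968400) x150 (.node .nil (nat_lit 84050240) x151 .nil)) (nat_lit 84050320) x152 (.node (.node .nil (nat_lit 84132160) x153 .nil) (nat_lit 84132240) x154 (.node .nil (nat_lit 84214080) x155 .nil)))) (nat_lit 84214160) x156 (.node (.node (.node (.node (.node .nil (nat_lit 84296080) x157 .nil) (nat_lit 167936320) x158 .nil) (nat_lit 167936400) x159 (.node .nil (nat_lit 168018240) x160 .nil)) (nat_lit 168018320) x161 (.node (.node .nil (nat_lit 168100160) x162 .nil) (nat_lit 168100240) x163 (.node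 .nil (nat_lit 168182160) x164 .nil))) (nat_lit 251904320) x165 (.node (.node (.node (.node .nil (nat_lit 251904400) x166 .nil) (nat_lit 251986240) x167 .nil) (nat_lit 251986320) x168 (.node .nil (nat_lit 252068240) x169 .nil)) (nat_lit 335872320) x170 (.node (.node .nil (nat_lit 335872400) x171 .nil) (nat_lit 335954320) x172 (.node .nil (nat_lit 419840400) x173 .nil)))))
/-- R 40 80 120 -/
noncomputable def F4 : Fam := ⟨rd4, ks4, T4⟩
/-- R 40 100 140 -/
noncomputable def T5 : TT := (.node (.node (.node (.node (.node (.node .nil (nat_lit 82240) x174 .nil) (nat_lit 82320) x175 .nil) (nat_lit 164160) x176 (.node .nil (nat_lit 164240) x177 .nil)) (nat_lit 246080) x178 (.node (.node .nil (nat_lit 246160) x179 .nil) (nat_lit 328000) x180 (.node .nil (nat_lit 328080) x181 .nil))) (nat_lit 410000) x182 (.node (.node (.node (.node .nil (nat_lit 83968320) x183 .nil) (nat_lit 83968400) x184 .nil) (nat_lit 84050240) x185 (.node .nil (nat_lit 84050320) x186 .nil)) (nat_lit 84132160) x187 (.node (.node .nil (nat_lit 84132240) x188 .nil) (nat_lit 84214080)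 x189 (.node .nil (nat_lit 84214160) x190 .nil)))) (nat_lit 84296080) x191 (.node (.node (.node (.node (.node .nil (nat_lit 167936320) x192 .nil) (nat_lit 167936400) x193 .nil) (nat_lit 168018240) x194 (.node .nil (nat_lit 168018320) x195 .nil)) (nat_lit 168100160) x196 (.node (.node .nil (nat_lit 168100240) x197 .nil) (nat_lit 168182160) x198 (.node .nil (nat_lit 251904320) x199 .nil))) (nat_lit 251904400) x200 (.node (.node (.node .nil (nat_lit 251986240) x201 .nil) (nat_lit 251986320) x202 (.node .nil (nat_lit 252068240) x203 .nil)) (nat_lit 335872320) x204 (.node (.node .nil (nat_lit 335872400) x205 .nil) (nat_lit 335954320) x206 (.node .nil (nat_lit 419840400) x207 .nil)))))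
/-- R 40 100 140 -/
noncomputable def F5 : Fam := ⟨rd5, ks5, T5⟩
/-- R 40 100 160 -/
noncomputable def T6 : TT := (.node (.node (.node (.node (.node (.node .nil (nat_lit 82240) x208 .nil) (nat_lit 82320) x209 .nil) (nat_lit 164160) x210 (.node .nil (nat_lit 164240) x211 .nil)) (nat_lit 246080) x212 (.node (.node .nil (nat_lit 246160) x213 .nil) (nat_lit 328000) x214 (.node .nil (nat_lit 328080) x215 .nil))) (nat_lit 410000) x216 (.node (.node (.node (.node .nil (nat_lit 83968320) x217 .nil) (nat_lit 83968400) x218 .nil) (nat_lit 84050240) x219 (.node .nil (nat_lit 84050320) x220 .nil)) (nat_lit 84132160) x221 (.node (.node .nil (nat_lit 84132240) x222 .nil) (nat_lit 84214080) x223 (.node .nil (nat_lit 84214160) x224 .nil)))) (nat_lit 84296080) x225 (.node (.node (.node (.node (.node .nil (nat_lit 167936320) x226 .nil) (nat_lit 167936400) x227 .nil) (nat_lit 168018240) x228 (.node .nil (nat_lit 168018320) x229 .nil)) (nat_lit 168100160) x230 (.node (.node .nil (nat_lit 168100240) x231 .nil) (nat_lit 168182160) x232 (.node .nil (nat_lit 251904320)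 x233 .nil))) (nat_lit 251904400) x234 (.node (.node (.node .nil (nat_lit 251986240) x235 .nil) (nat_lit 251986320) x236 (.node .nil (nat_lit 252068240) x237 .nil)) (nat_lit 335872320) x238 (.node (.node .nil (nat_lit 335872400) x239 .nil) (nat_lit 335954320) x240 (.node .nil (nat_lit 419840400) x241 .nil)))))
/-- R 40 100 160 -/
noncomputable def F6 : Fam := ⟨rd6, ks6, T6⟩
/-- R 40 120 180 -/
noncomputable def T7 : TT := (.node (.node (.node (.node (.node .nil (nat_lit 164160) x242 .nil) (nat_lit 164240) x243 (.node .nil (nat_lit 246080) x244 .nil)) (nat_lit 246160) x245 (.node (.node .nil (nat_lit 328000) x246 .nil) (nat_lit 328080) x247 (.node .nil (nat_lit 410000) x248 .nil))) (nat_lit 84050240) x249 (.node (.node (.node .nil (nat_lit 84050320) x250 .nil) (nat_lit 84132160) x251 (.node .nil (nat_lit 84132240) x252 .nil)) (nat_lit 84214080) x253 (.node (.node .nil (nat_lit 84214160) x254 .nil) (nat_lit 84296080) x255 (.node .nil (nat_lit 167936320) x256 .nil)))) (nat_lit 167936400) x257 (.node (.node (.node (.node .nil (nat_lit 168018240)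 x258 .nil) (nat_lit 168018320) x259 (.node .nil (nat_lit 168100160) x260 .nil)) (nat_lit 168100240) x261 (.node (.node .nil (nat_lit 168182160) x262 .nil) (nat_lit 251904320) x263 (.node .nil (nat_lit 251904400) x264 .nil))) (nat_lit 251986240) x265 (.node (.node (.node .nil (nat_lit 251986320) x266 .nil) (nat_lit 252068240) x267 (.node .nil (nat_lit 335872320) x268 .nil)) (nat_lit 335872400) x269 (.node (.node .nil (nat_lit 335954320) x270 .nil) (nat_lit 419840400) x271 .nil))))
/-- R 40 120 180 -/
noncomputable def F7 : Fam := ⟨rd7, ks7, T7⟩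
/-- R 60 80 -/
noncomputable def T8 : TT := (.node (.node (.node (.node (.node (.node .nil (nat_lit 240) x272 .nil) (nat_lit 320) x273 .nil) (nat_lit 82160) x274 (.node .nil (nat_lit 82240) x275 .nil)) (nat_lit 164080) x276 (.node (.node (.node .nil (nat_lit 164160) x277 .nil) (nat_lit 246000) x278 .nil) (nat_lit 246080) x279 (.node .nil (nat_lit 246160) x280 .nil))) (nat_lit 328000) x281 (.node (.node (.node (.node .nil (nat_lit 328080) x282 .nil) (nat_lit 83968240) x283 .nil) (nat_lit 83968320) x284 (.node .nil (nat_lit 84050160) x285 .nil)) (nat_lit 84050240) x286 (.node (.node .nil (nat_lit 84132080) x287 .nil) (nat_lit 84132160) x288 (.node .nil (nat_lit 84132240) x289 .nil)))) (nat_lit 84214080) x290 (.node (.node (.node (.node (.node .nil (nat_lit 84214160) x291 .nil) (nat_lit 167936240) x292 .nil) (nat_lit 167936320) x293 (.node .nil (nat_lit 168018160) x294 .nil)) (nat_lit 168018240) x295 (.node (.node .nil (nat_lit 168018320) x296 .nil) (nat_lit 168100160) x297 (.node .nil (nat_lit 168100240) x298 .nil))) (nat_lit 251904240) x299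 (.node (.node (.node (.node .nil (nat_lit 251904320) x300 .nil) (nat_lit 251904400) x301 .nil) (nat_lit 251986240) x302 (.node .nil (nat_lit 251986320) x303 .nil)) (nat_lit 252068240) x304 (.node (.node .nil (nat_lit 335872320) x305 .nil) (nat_lit 335872400) x306 (.node .nil (nat_lit 335954320) x307 .nil)))))
/-- R 60 80 -/
noncomputable def F8 : Fam := ⟨rd8, ks8, T8⟩
/-- R 60 80 100 -/
noncomputable def T9 : TT := (.node (.node (.node (.node (.node (.node .nil (nat_lit 240) x308 .nil) (nat_lit 320) x309 .nil) (nat_lit 82160) x310 (.node .nil (nat_lit 82240) x311 .nil)) (nat_lit 164080) x312 (.node (.node (.node .nil (nat_lit 164160) x313 .nil) (nat_lit 246000) x314 .nil) (nat_lit 246080) x315 (.node .nil (nat_lit 246160) x316 .nil))) (nat_lit 328000) x317 (.node (.node (.node (.node .nil (nat_lit 328080) x318 .nil) (nat_lit 83968240) x319 .nil) (nat_lit 83968320) x320 (.node .nil (nat_lit 84050160) x321 .nil)) (nat_lit 84050240) x322 (.node (.node .nil (nat_lit 84132080) x323 .nil) (nat_lit 84132160) x324 (.node .nil (nat_lit 84132240) x325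 .nil)))) (nat_lit 84214080) x326 (.node (.node (.node (.node (.node .nil (nat_lit 84214160) x327 .nil) (nat_lit 167936240) x328 .nil) (nat_lit 167936320) x329 (.node .nil (nat_lit 168018160) x330 .nil)) (nat_lit 168018240) x331 (.node (.node .nil (nat_lit 168018320) x332 .nil) (nat_lit 168100160) x333 (.node .nil (nat_lit 168100240) x334 .nil))) (nat_lit 251904240) x335 (.node (.node (.node (.node .nil (nat_lit 251904320) x336 .nil) (nat_lit 251904400) x337 .nil) (nat_lit 251986240) x338 (.node .nil (nat_lit 251986320) x339 .nil)) (nat_lit 252068240) x340 (.node (.node .nil (nat_lit 335872320) x341 .nil) (nat_lit 335872400) x342 (.node .nil (nat_lit 335954320) x343 .nil)))))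
/-- R 60 80 100 -/
noncomputable def F9 : Fam := ⟨rd9, ks9, T9⟩
/-- R 60 100 120 -/
noncomputable def T10 : TT := (.node (.node (.node (.node (.node (.node .nil (nat_lit 240) x344 .nil) (nat_lit 320) x345 .nil) (nat_lit 82160) x346 (.node .nil (nat_lit 82240) x347 .nil)) (nat_lit 164080) x348 (.node (.node (.node .nil (nat_lit 164160) x349 .nil) (nat_lit 246000) x350 .nil) (nat_lit 246080) x351 (.node .nil (nat_lit 246160) x352 .nil))) (nat_lit 328000) x353 (.node (.node (.node (.node .nil (nat_lit 328080) x354 .nil) (nat_lit 83968240) x355 .nil) (nat_lit 83968320) x356 (.node .nil (nat_lit 84050160) x357 .nil)) (nat_lit 84050240) x358 (.node (.node .nil (nat_lit 84132080) x359 .nil) (nat_lit 84132160) x360 (.node .nil (nat_lit 84132240) x361 .nil)))) (nat_lit 84214080) x362 (.node (.node (.node (.node (.node .nil (nat_lit 84214160) x363 .nil) (nat_lit 167936240) x364 .nil) (nat_lit 167936320) x365 (.node .nil (nat_lit 168018160) x366 .nil)) (nat_lit 168018240) x367 (.node (.node .nil (nat_lit 168018320) x368 .nil) (nat_lit 168100160) x369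 (.node .nil (nat_lit 168100240) x370 .nil))) (nat_lit 251904240) x371 (.node (.node (.node (.node .nil (nat_lit 251904320) x372 .nil) (nat_lit 251904400) x373 .nil) (nat_lit 251986240) x374 (.node .nil (nat_lit 251986320) x375 .nil)) (nat_lit 252068240) x376 (.node (.node .nil (nat_lit 335872320) x377 .nil) (nat_lit 335872400) x378 (.node .nil (nat_lit 335954320) x379 .nil)))))
/-- R 60 100 120 -/
noncomputable def F10 : Fam := ⟨rd10, ks10, T10⟩
/-- R 60 100 140 -/
noncomputable def T11 : TT := (.node (.node (.node (.node (.node (.node .nil (nat_lit 240) x380 .nil) (nat_lit 320) x381 .nil) (nat_lit 82160) x382 (.node .nil (nat_lit 82240) x383 .nil)) (nat_lit 164080) x384 (.node (.node (.node .nil (nat_lit 164160) x385 .nil) (nat_lit 246000) x386 .nil) (nat_lit 246080) x387 (.node .nil (nat_lit 246160) x388 .nil))) (nat_lit 328000) x389 (.node (.node (.node (.node .nil (nat_lit 328080) x390 .nil) (nat_lit 83968240) x391 .nil) (nat_lit 83968320) x392 (.node .nil (nat_lit 84050160) x393 .nil)) (nat_lit 84050240) x394 (.node (.node .nil (nat_lit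 84132080) x395 .nil) (nat_lit 84132160) x396 (.node .nil (nat_lit 84132240) x397 .nil)))) (nat_lit 84214080) x398 (.node (.node (.node (.node (.node .nil (nat_lit 84214160) x399 .nil) (nat_lit 167936240) x400 .nil) (nat_lit 167936320) x401 (.node .nil (nat_lit 168018160) x402 .nil)) (nat_lit 168018240) x403 (.node (.node .nil (nat_lit 168018320) x404 .nil) (nat_lit 168100160) x405 (.node .nil (nat_lit 168100240) x406 .nil))) (nat_lit 251904240) x407 (.node (.node (.node (.node .nil (nat_lit 251904320) x408 .nil) (nat_lit 251904400) x409 .nil) (nat_lit 251986240) x410 (.node .nil (nat_lit 251986320) x411 .nil)) (nat_lit 252068240) x412 (.node (.node .nil (nat_lit 335872320) x413 .nil) (nat_lit 335872400) x414 (.node .nil (nat_lit 335954320) x415 .nil)))))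
/-- R 60 100 140 -/
noncomputable def F11 : Fam := ⟨rd11, ks11, T11⟩
/-- R 60 120 160 -/
noncomputable def T12 : TT := (.node (.node (.node (.node (.node (.node .nil (nat_lit 82160) x416 .nil) (nat_lit 82240) x417 .nil) (nat_lit 164080) x418 (.node .nil (nat_lit 164160) x419 .nil)) (nat_lit 246000) x420 (.node (.node .nil (nat_lit 246080) x421 .nil) (nat_lit 246160) x422 (.node .nil (nat_lit 328000) x423 .nil))) (nat_lit 328080) x424 (.node (.node (.node (.node .nil (nat_lit 83968240) x425 .nil) (nat_lit 83968320) x426 .nil) (nat_lit 84050160) x427 (.node .nil (nat_lit 84050240) x428 .nil)) (nat_lit 84132080) x429 (.node (.node .nil (nat_lit 84132160) x430 .nil) (nat_lit 84132240) x431 (.node .nil (nat_lit 84214080) x432 .nil)))) (nat_lit 84214160) x433 (.node (.node (.node (.node (.node .nil (nat_lit 167936240) x434 .nil) (nat_lit 167936320) x435 .nil) (nat_lit 168018160) x436 (.node .nil (nat_lit 168018240) x437 .nil)) (nat_lit 168018320) x438 (.node (.node .nil (nat_lit 168100160) x439 .nil) (nat_lit 168100240) x440 (.node .nil (nat_lit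 251904240) x441 .nil))) (nat_lit 251904320) x442 (.node (.node (.node .nil (nat_lit 251904400) x443 .nil) (nat_lit 251986240) x444 (.node .nil (nat_lit 251986320) x445 .nil)) (nat_lit 252068240) x446 (.node (.node .nil (nat_lit 335872320) x447 .nil) (nat_lit 335872400) x448 (.node .nil (nat_lit 335954320) x449 .nil)))))
/-- R 60 120 160 -/
noncomputable def F12 : Fam := ⟨rd12, ks12, T12⟩
/-- R 60 120 180 -/
noncomputable def T13 : TT := (.node (.node (.node (.node (.node (.node .nil (nat_lit 82160) x450 .nil) (nat_lit 82240) x451 .nil) (nat_lit 164080) x452 (.node (.node .nil (nat_lit 164160) x453 .nil) (nat_lit 246000) x454 .nil)) (nat_lit 246080) x455 (.node (.node (.node .nil (nat_lit 246160) x456 .nil) (nat_lit 328000) x457 .nil) (nat_lit 328080) x458 (.node .nil (nat_lit 83968240) x459 .nil))) (nat_lit 83968320) x460 (.node (.node (.node (.node .nil (nat_lit 83968400) x461 .nil) (nat_lit 84050160) x462 .nil) (nat_lit 84050240) x463 (.node .nil (nat_lit 84050320) x464 .nil)) (nat_lit 84132080) x465 (.node (.node (.node .nil (nat_lit 84132160)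 x466 .nil) (nat_lit 84132240) x467 .nil) (nat_lit 84214080) x468 (.node .nil (nat_lit 84214160) x469 .nil)))) (nat_lit 84296080) x470 (.node (.node (.node (.node (.node .nil (nat_lit 167936240) x471 .nil) (nat_lit 167936320) x472 .nil) (nat_lit 167936400) x473 (.node .nil (nat_lit 168018160) x474 .nil)) (nat_lit 168018240) x475 (.node (.node (.node .nil (nat_lit 168018320) x476 .nil) (nat_lit 168100160) x477 .nil) (nat_lit 168100240) x478 (.node .nil (nat_lit 168182160) x479 .nil))) (nat_lit 251904240) x480 (.node (.node (.node (.node .nil (nat_lit 251904320) x481 .nil) (nat_lit 251904400) x482 .nil) (nat_lit 251986240) x483 (.node .nil (nat_lit 251986320) x484 .nil)) (nat_lit 252068240) x485 (.node (.node (.node .nil (nat_lit 335872320) x486 .nil) (nat_lit 335872400) x487 .nil) (nat_lit 335954320) x488 (.node .nil (nat_lit 419840400) x489 .nil)))))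
/-- R 60 120 180 -/
noncomputable def F13 : Fam := ⟨rd13, ks13, T13⟩
/-- R 60 140 200 -/
noncomputable def T14 : TT := (.node (.node (.node (.node (.node .nil (nat_lit 164080) x490 .nil) (nat_lit 164160) x491 .nil) (nat_lit 246000) x492 (.node (.node .nil (nat_lit 246080) x493 .nil) (nat_lit 246160) x494 .nil)) (nat_lit 328000) x495 (.node (.node (.node .nil (nat_lit 328080) x496 .nil) (nat_lit 167936240) x497 .nil) (nat_lit 167936320) x498 (.node (.node .nil (nat_lit 168018160) x499 .nil) (nat_lit 168018240) x500 .nil))) (nat_lit 168018320) x501 (.node (.node (.node (.node .nil (nat_lit 168100160) x502 .nil) (nat_lit 168100240) x503 .nil) (nat_lit 251904240) x504 (.node (.node .nil (nat_lit 251904320) x505 .nil) (nat_lit 251904400) x506 .nil)) (nat_lit 251986240) x507 (.node (.node (.node .nil (nat_lit 251986320) x508 .nil) (nat_lit 252068240) x509 .nil) (nat_lit 335872320) x510 (.node (.node .nil (nat_lit 335872400) x511 .nil) (nat_lit 335954320) x512 .nil))))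
/-- R 60 140 200 -/
noncomputable def F14 : Fam := ⟨rd14, ks14, T14⟩
/-- R 80 100 -/
noncomputable def T15 : TT := (.node (.node (.node (.node (.node (.node .nil (nat_lit 240) x513 .nil) (nat_lit 320) x514 .nil) (nat_lit 82160) x515 (.node .nil (nat_lit 82240) x516 .nil)) (nat_lit 164080) x517 (.node (.node .nil (nat_lit 164160) x518 .nil) (nat_lit 246000) x519 (.node .nil (nat_lit 246080) x520 .nil))) (nat_lit 246160) x521 (.node (.node (.node (.node .nil (nat_lit 328000) x522 .nil) (nat_lit 328080) x523 .nil) (nat_lit 83968240) x524 (.node .nil (nat_lit 83968320) x525 .nil)) (nat_lit 84050160) x526 (.node (.node .nil (nat_lit 84050240) x527 .nil) (nat_lit 84132080) x528 (.node .nil (nat_lit 84132160) x529 .nil)))) (nat_lit 84132240) x530 (.node (.node (.node (.node (.node .nil (nat_lit 84214080) x531 .nil) (nat_lit 84214160) x532 .nil) (nat_lit 167936240) x533 (.node .nil (nat_lit 167936320) x534 .nil)) (nat_lit 168018160) x535 (.node (.node .nil (nat_lit 168018240) x536 .nil) (nat_lit 168018320) x537 (.node .nil (nat_lit 168100160) x538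 .nil))) (nat_lit 168100240) x539 (.node (.node (.node (.node .nil (nat_lit 251904240) x540 .nil) (nat_lit 251904320) x541 .nil) (nat_lit 251904400) x542 (.node .nil (nat_lit 251986240) x543 .nil)) (nat_lit 251986320) x544 (.node (.node .nil (nat_lit 252068240) x545 .nil) (nat_lit 335872400) x546 (.node .nil (nat_lit 335954320) x547 .nil)))))
/-- R 80 100 -/
noncomputable def F15 : Fam := ⟨rd15, ks15, T15⟩
/-- R 80 100 120 -/
noncomputable def T16 : TT := (.node (.node (.node (.node (.node (.node .nil (nat_lit 240) x548 .nil) (nat_lit 320) x549 .nil) (nat_lit 82160) x550 (.node .nil (nat_lit 82240) x551 .nil)) (nat_lit 164080) x552 (.node (.node (.node .nil (nat_lit 164160) x553 .nil) (nat_lit 246000) x554 .nil) (nat_lit 246080) x555 (.node .nil (nat_lit 246160) x556 .nil))) (nat_lit 328000) x557 (.node (.node (.node (.node .nil (nat_lit 328080) x558 .nil) (nat_lit 83968240) x559 .nil) (nat_lit 83968320) x560 (.node .nil (nat_lit 84050160) x561 .nil)) (nat_lit 84050240) x562 (.node (.node .nil (nat_lit 84132080) x563 .nil) (nat_lit 84132160)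 x564 (.node .nil (nat_lit 84132240) x565 .nil)))) (nat_lit 84214080) x566 (.node (.node (.node (.node (.node .nil (nat_lit 84214160) x567 .nil) (nat_lit 167936240) x568 .nil) (nat_lit 167936320) x569 (.node .nil (nat_lit 168018160) x570 .nil)) (nat_lit 168018240) x571 (.node (.node .nil (nat_lit 168018320) x572 .nil) (nat_lit 168100160) x573 (.node .nil (nat_lit 168100240) x574 .nil))) (nat_lit 251904240) x575 (.node (.node (.node (.node .nil (nat_lit 251904320) x576 .nil) (nat_lit 251904400) x577 .nil) (nat_lit 251986240) x578 (.node .nil (nat_lit 251986320) x579 .nil)) (nat_lit 252068240) x580 (.node (.node .nil (nat_lit 335872320) x581 .nil) (nat_lit 335872400) x582 (.node .nil (nat_lit 335954320) x583 .nil)))))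
/-- R 80 100 120 -/
noncomputable def F16 : Fam := ⟨rd16, ks16, T16⟩
/-- R 80 120 140 -/
noncomputable def T17 : TT := (.node (.node (.node (.node (.node (.node .nil (nat_lit 240) x584 .nil) (nat_lit 320) x585 .nil) (nat_lit 82160) x586 (.node .nil (nat_lit 82240) x587 .nil)) (nat_lit 164080) x588 (.node (.node (.node .nil (nat_lit 164160) x589 .nil) (nat_lit 246000) x590 .nil) (nat_lit 246080) x591 (.node .nil (nat_lit 246160) x592 .nil))) (nat_lit 328000) x593 (.node (.node (.node (.node .nil (nat_lit 328080) x594 .nil) (nat_lit 83968240) x595 .nil) (nat_lit 83968320) x596 (.node .nil (nat_lit 84050160) x597 .nil)) (nat_lit 84050240) x598 (.node (.node .nil (nat_lit 84132080) x599 .nil) (nat_lit 84132160) x600 (.node .nil (nat_lit 84132240) x601 .nil)))) (nat_lit 84214080) x602 (.node (.node (.node (.node (.node .nil (nat_lit 84214160) x603 .nil) (nat_lit 167936240) x604 .nil) (nat_lit 167936320) x605 (.node .nil (nat_lit 168018160) x606 .nil)) (nat_lit 168018240) x607 (.node (.node .nil (nat_lit 168018320) x608 .nil) (nat_lit 168100160)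 x609 (.node .nil (nat_lit 168100240) x610 .nil))) (nat_lit 251904240) x611 (.node (.node (.node (.node .nil (nat_lit 251904320) x612 .nil) (nat_lit 251904400) x613 .nil) (nat_lit 251986240) x614 (.node .nil (nat_lit 251986320) x615 .nil)) (nat_lit 252068240) x616 (.node (.node .nil (nat_lit 335872320) x617 .nil) (nat_lit 335872400) x618 (.node .nil (nat_lit 335954320) x619 .nil)))))
/-- R 80 120 140 -/
noncomputable def F17 : Fam := ⟨rd17, ks17, T17⟩
/-- R 80 120 160 -/
noncomputable def T18 : TT := (.node (.node (.node (.node (.node (.node .nil (nat_lit 240) x620 .nil) (nat_lit 320) x621 .nil) (nat_lit 400) x622 (.node (.node .nil (nat_lit 82160) x623 .nil) (nat_lit 82240) x624 .nil)) (nat_lit 82320) x625 (.node (.node (.node .nil (nat_lit 164080) x626 .nil) (nat_lit 164160) x627 .nil) (nat_lit 164240) x628 (.node (.node .nil (nat_lit 246000) x629 .nil) (nat_lit 246080) x630 .nil))) (nat_lit 246160) x631 (.node (.node (.node (.node .nil (nat_lit 328000) x632 .nil) (nat_lit 328080) x633 .nil) (nat_lit 410000) x634 (.node (.node .nil (nat_lit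 83968240) x635 .nil) (nat_lit 83968320) x636 .nil)) (nat_lit 83968400) x637 (.node (.node (.node .nil (nat_lit 84050160) x638 .nil) (nat_lit 84050240) x639 .nil) (nat_lit 84050320) x640 (.node .nil (nat_lit 84132080) x641 .nil)))) (nat_lit 84132160) x642 (.node (.node (.node (.node (.node .nil (nat_lit 84132240) x643 .nil) (nat_lit 84214080) x644 .nil) (nat_lit 84214160) x645 (.node (.node .nil (nat_lit 84296080) x646 .nil) (nat_lit 167936240) x647 .nil)) (nat_lit 167936320) x648 (.node (.node (.node .nil (nat_lit 168018160) x649 .nil) (nat_lit 168018240) x650 .nil) (nat_lit 168018320) x651 (.node (.node .nil (nat_lit 168100160) x652 .nil) (nat_lit 168100240) x653 .nil))) (nat_lit 168182160) x654 (.node (.node (.node (.node .nil (nat_lit 251904240) x655 .nil) (nat_lit 251904320) x656 .nil) (nat_lit 251904400) x657 (.node (.node .nil (nat_lit 251986240) x658 .nil) (nat_lit 251986320) x659 .nil)) (nat_lit 252068240) x660 (.node (.node (.node .nil (nat_lit 335872320) x661 .nil) (nat_lit 335872400) x662 .nil) (nat_lit 335954320) x663 (.node .nil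 (nat_lit 419840400) x664 .nil)))))
/-- R 80 120 160 -/
noncomputable def F18 : Fam := ⟨rd18, ks18, T18⟩
end TC
end Pool.Agent.Lib.MP_6947cd_al
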