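import Pool.Agent.Lib.MP_6947cd_al.C.LeafF
import Pool.Agent.Lib.MP_6947cd_al.TC.E
import Pool.Agent.Lib.MP_6947cd_al.TC.F

/-!
Problem MP_6947cd_al (Chollet).  CASE C, tables and certificates.  The tails of the roots.
-/

set_option autoImplicit false
set_option linter.all false
set_option maxRecDepth 100000
set_option maxHeartbeats 4000000
namespace Pool.Agent.Lib.MP_6947cd_al
namespace TC
open C1 SStar
theorem tl0 (h : EC env Ei) : TailOf ((nat_lit 120), (nat_lit 260), (nat_lit 120), (nat_lit 260), (nat_lit 120), (nat_lit 260)) (nat_lit 40) :=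
  tailT_sound h (bs := [⟨(nat_lit 120), (nat_lit 260), (nat_lit 120), (nat_lit 260), (nat_lit 120), (nat_lit 200), (nat_lit 100), (nat_lit 20), (nat_lit 428), (nat_lit 200), (nat_lit 17), (nat_lit 34)⟩, ⟨(nat_lit 200), (nat_lit 260), (nat_lit 200), (nat_lit 260), (nat_lit 200), (nat_lit 260), (nat_lit 140), (nat_lit 20), (nat_lit 428), (nat_lit 200), (nat_lit 12), (nat_lit 36)⟩]) (by decide +kernel)
theorem tl1 (h : EC env Ei) : TailOf ((nat_lit 260), (nat_lit 280), (nat_lit 120), (nat_lit 240), (nat_lit 120), (nat_lit 240)) (nat_lit 40) :=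
  tailT_sound h (bs := [⟨(nat_lit 260), (nat_lit 280), (nat_lit 120), (nat_lit 240), (nat_lit 120), (nat_lit 200), (nat_lit 100), (nat_lit 20), (nat_lit 345), (nat_lit 125), (nat_lit 13), (nat_lit 34)⟩, ⟨(nat_lit 260), (nat_lit 280), (nat_lit 200), (nat_lit 240), (nat_lit 200), (nat_lit 240), (nat_lit 120), (nat_lit 20), (nat_lit 345), (nat_lit 125), (nat_lit 10), (nat_lit 35)⟩]) (by decide +kernel)
theorem tl2 (h : EC env Ei) : TailOf ((nat_lit 260), (nat_lit 280), (nat_lit 240), (nat_lit 320), (nat_lit 120), (nat_lit 320)) (nat_lit 40) :=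
  tailT_sound h (bs := [⟨(nat_lit 260), (nat_lit 280), (nat_lit 240), (nat_lit 280), (nat_lit 120), (nat_lit 200), (nat_lit 100), (nat_lit 20), (nat_lit 260), (nat_lit 50), (nat_lit 9), (nat_lit 34)⟩, ⟨(nat_lit 260), (nat_lit 280), (nat_lit 240), (nat_lit 280), (nat_lit 200), (nat_lit 280), (nat_lit 140), (nat_lit 20), (nat_lit 456), (nat_lit 225), (nat_lit 12), (nat_lit 36)⟩]) (by decide +kernel)
theorem tl3 (h : EC env Ei) : TailOf ((nat_lit 300), (nat_lit 320), (nat_lit 120), (nat_lit 240), (nat_lit 120), (nat_lit 240)) (nat_lit 40) :=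
  tailT_sound h (bs := [⟨(nat_lit 300), (nat_lit 320), (nat_lit 120), (nat_lit 240), (nat_lit 120), (nat_lit 200), (nat_lit 100), (nat_lit 20), (nat_lit 345), (nat_lit 125), (nat_lit 13), (nat_lit 34)⟩, ⟨(nat_lit 300), (nat_lit 320), (nat_lit 200), (nat_lit 240), (nat_lit 200), (nat_lit 240), (nat_lit 120), (nat_lit 20), (nat_lit 345), (nat_lit 125), (nat_lit 10), (nat_lit 35)⟩]) (by decide +kernel)
theorem tl4 (h : EC env Ei) : TailOf ((nat_lit 300), (nat_lit 320), (nat_lit 240), (nat_lit 320), (nat_lit 120), (nat_lit 320)) (nat_lit 76) :=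
  tailT_sound h (bs := [⟨(nat_lit 300), (nat_lit 320), (nat_lit 240), (nat_lit 320), (nat_lit 120), (nat_lit 200), (nat_lit 100), (nat_lit 38), (nat_lit 260), (nat_lit 50), (nat_lit 9), (nat_lit 40)⟩, ⟨(nat_lit 300), (nat_lit 320), (nat_lit 240), (nat_lit 320), (nat_lit 200), (nat_lit 280), (nat_lit 140), (nat_lit 38), (nat_lit 373), (nat_lit 150), (nat_lit 10), (nat_lit 42)⟩, ⟨(nat_lit 300), (nat_lit 320), (nat_lit 280), (nat_lit 320), (nat_lit 280), (nat_lit 320), (nat_lit 160), (nat_lit 38), (nat_lit 483), (nat_lit 250), (nat_lit 11), (nat_lit 43)⟩]) (by decide +kernel)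
theorem tl5 (h : EC env Ei) : TailOf ((nat_lit 280), (nat_lit 300), (nat_lit 120), (nat_lit 240), (nat_lit 120), (nat_lit 240)) (nat_lit 40) :=
  tailT_sound h (bs := [⟨(nat_lit 280), (nat_lit 300), (nat_lit 120), (nat_lit 240), (nat_lit 120), (nat_lit 200), (nat_lit 100), (nat_lit 20), (nat_lit 345), (nat_lit 125), (nat_lit 13), (nat_lit 34)⟩, ⟨(nat_lit 280), (nat_lit 300), (nat_lit 200), (nat_lit 240), (nat_lit 200), (nat_lit 240), (nat_lit 120), (nat_lit 20), (nat_lit 345), (nat_lit 125), (nat_lit 10), (nat_lit 35)⟩]) (by decide +kernel)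
theorem tl6 (h : EC env Ei) : TailOf ((nat_lit 280), (nat_lit 300), (nat_lit 240), (nat_lit 320), (nat_lit 120), (nat_lit 320)) (nat_lit 60) :=
  tailT_sound h (bs := [⟨(nat_lit 280), (nat_lit 300), (nat_lit 240), (nat_lit 300), (nat_lit 120), (nat_lit 200), (nat_lit 100), (nat_lit 30), (nat_lit 260), (nat_lit 50), (nat_lit 9), (nat_lit 40)⟩, ⟨(nat_lit 280), (nat_lit 300), (nat_lit 240), (nat_lit 300), (nat_lit 200), (nat_lit 280), (nat_lit 140), (nat_lit 30), (nat_lit 373), (nat_lit 150), (nat_lit 10), (nat_lit 42)⟩, ⟨(nat_lit 280), (nat_lit 300), (nat_lit 280), (nat_lit 300), (nat_lit 280), (nat_lit 300), (nat_lit 160), (nat_lit 30), (nat_lit 456), (nat_lit 225), (nat_lit 10), (nat_lit 43)⟩]) (by decide +kernel)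
theorem tl7 (h : EC env Ei) : TailOf ((nat_lit 340), (nat_lit 360), (nat_lit 120), (nat_lit 240), (nat_lit 120), (nat_lit 240)) (nat_lit 76) :=
  tailT_sound h (bs := [⟨(nat_lit 340), (nat_lit 360), (nat_lit 120), (nat_lit 240), (nat_lit 120), (nat_lit 200), (nat_lit 100), (nat_lit 38), (nat_lit 345), (nat_lit 125), (nat_lit 12), (nat_lit 40)⟩, ⟨(nat_lit 340), (nat_lit 360), (nat_lit 200), (nat_lit 240), (nat_lit 200), (nat_lit 240), (nat_lit 120), (nat_lit 38), (nat_lit 345), (nat_lit 125), (nat_lit 10), (nat_lit 41)⟩]) (by decide +kernel)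
theorem tl8 (h : EC env Ei) : TailOf ((nat_lit 340), (nat_lit 360), (nat_lit 240), (nat_lit 320), (nat_lit 120), (nat_lit 320)) (nat_lit 128) :=
  tailT_sound h (bs := [⟨(nat_lit 340), (nat_lit 360), (nat_lit 240), (nat_lit 320), (nat_lit 120), (nat_lit 160), (nat_lit 80), (nat_lit 64), (nat_lit 249), (nat_lit 40), (nat_lit 10), (nat_lit 44)⟩, ⟨(nat_lit 340), (nat_lit 360), (nat_lit 240), (nat_lit 320), (nat_lit 160), (nat_lit 240), (nat_lit 120), (nat_lit 64), (nat_lit 272), (nat_lit 60), (nat_lit 7), (nat_lit 46)⟩, ⟨(nat_lit 340), (nat_lit 360), (nat_lit 240), (nat_lit 320), (nat_lit 240), (nat_lit 320), (nat_lit 160), (nat_lit 64), (nat_lit 401), (nat_lit 175), (nat_lit 9), (nat_lit 48)⟩]) (by decide +kernel)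
theorem tl9 (h : EC env Ei) : TailOf ((nat_lit 340), (nat_lit 360), (nat_lit 320), (nat_lit 400), (nat_lit 120), (nat_lit 400)) (nat_lit 172) :=
  tailT_sound h (bs := [⟨(nat_lit 340), (nat_lit 360), (nat_lit 320), (nat_lit 360), (nat_lit 120), (nat_lit 160), (nat_lit 80), (nat_lit 86), (nat_lit 249), (nat_lit 40), (nat_lit 9), (nat_lit 33)⟩, ⟨(nat_lit 340), (nat_lit 360), (nat_lit 320), (nat_lit 360), (nat_lit 160), (nat_lit 240), (nat_lit 120), (nat_lit 86), (nat_lit 272), (nat_lit 60), (nat_lit 7), (nat_lit 51)⟩, ⟨(nat_lit 340), (nat_lit 360), (nat_lit 320), (nat_lit 360), (nat_lit 240), (nat_lit 320), (nat_lit 160), (nat_lit 86), (nat_lit 317), (nat_lit 100), (nat_lit 7), (nat_lit 52)⟩, ⟨(nat_lit 340), (nat_lit 360), (nat_lit 320), (nat_lit 360), (nat_lit 320), (nat_lit 360), (nat_lit 180), (nat_lit 86), (nat_lit 538), (nat_lit 300), (nat_lit 11), (nat_lit 53)⟩]) (by decide +kernel)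
theorem tl10 (h : EC env Ei) : TailOf ((nat_lit 320), (nat_lit 340), (nat_lit 120), (nat_lit 240), (nat_lit 120), (nat_lit 240)) (nat_lit 44) :=
  tailT_sound h (bs := [⟨(nat_lit 320), (nat_lit 340), (nat_lit 120), (nat_lit 240), (nat_lit 120), (nat_lit 200), (nat_lit 100), (nat_lit 22), (nat_lit 345), (nat_lit 125), (nat_lit 12), (nat_lit 34)⟩, ⟨(nat_lit 320), (nat_lit 340), (nat_lit 200), (nat_lit 240), (nat_lit 200), (nat_lit 240), (nat_lit 120), (nat_lit 22), (nat_lit 345), (nat_lit 125), (nat_lit 10), (nat_lit 35)⟩]) (by decide +kernel)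
theorem tl11 (h : EC env Ei) : TailOf ((nat_lit 320), (nat_lit 340), (nat_lit 240), (nat_lit 320), (nat_lit 120), (nat_lit 320)) (nat_lit 104) :=
  tailT_sound h (bs := [⟨(nat_lit 320), (nat_lit 340), (nat_lit 240), (nat_lit 320), (nat_lit 120), (nat_lit 160), (nat_lit 80), (nat_lit 52), (nat_lit 249), (nat_lit 40), (nat_lit 10), (nat_lit 39)⟩, ⟨(nat_lit 320), (nat_lit 340), (nat_lit 240), (nat_lit 320), (nat_lit 160), (nat_lit 240), (nat_lit 120), (nat_lit 52), (nat_lit 272), (nat_lit 60), (nat_lit 8), (nat_lit 46)⟩, ⟨(nat_lit 320), (nat_lit 340), (nat_lit 240), (nat_lit 320), (nat_lit 240), (nat_lit 320), (nat_lit 160), (nat_lit 52), (nat_lit 401), (nat_lit 175), (nat_lit 9), (nat_lit 48)⟩]) (by decide +kernel)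
theorem tl12 (h : EC env Ei) : TailOf ((nat_lit 320), (nat_lit 340), (nat_lit 320), (nat_lit 400), (nat_lit 120), (nat_lit 400)) (nat_lit 128) :=
  tailT_sound h (bs := [⟨(nat_lit 320), (nat_lit 340), (nat_lit 320), (nat_lit 340), (nat_lit 120), (nat_lit 200), (nat_lit 100), (nat_lit 64), (nat_lit 260), (nat_lit 50), (nat_lit 8), (nat_lit 45)⟩, ⟨(nat_lit 320), (nat_lit 340), (nat_lit 320), (nat_lit 340), (nat_lit 200), (nat_lit 280), (nat_lit 140), (nat_lit 64), (nat_lit 289), (nat_lit 75), (nat_lit 7), (nat_lit 47)⟩, ⟨(nat_lit 320), (nat_lit 340), (nat_lit 320), (nat_lit 340), (nat_lit 280), (nat_lit 340), (nat_lit 180), (nat_lit 64), (nat_lit 538), (nat_lit 300), (nat_lit 11), (nat_lit 49)⟩]) (by decide +kernel)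
theorem tl13 (h : EC env Ei) : TailOf ((nat_lit 380), (nat_lit 400), (nat_lit 120), (nat_lit 240), (nat_lit 120), (nat_lit 240)) (nat_lit 172) :=
  tailT_sound h (bs := [⟨(nat_lit 380), (nat_lit 400), (nat_lit 120), (nat_lit 240), (nat_lit 120), (nat_lit 160), (nat_lit 80), (nat_lit 86), (nat_lit 317), (nat_lit 100), (nat_lit 13), (nat_lit 33)⟩, ⟨(nat_lit 380), (nat_lit 400), (nat_lit 160), (nat_lit 240), (nat_lit 160), (nat_lit 240), (nat_lit 120), (nat_lit 86), (nat_lit 345), (nat_lit 125), (nat_lit 10), (nat_lit 51)⟩]) (by decide +kernel)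
theorem tl14 (h : EC env Ei) : TailOf ((nat_lit 380), (nat_lit 400), (nat_lit 240), (nat_lit 320), (nat_lit 120), (nat_lit 320)) (nat_lit 176) :=
  tailT_sound h (bs := [⟨(nat_lit 380), (nat_lit 400), (nat_lit 240), (nat_lit 320), (nat_lit 120), (nat_lit 160), (nat_lit 80), (nat_lit 88), (nat_lit 249), (nat_lit 40), (nat_lit 9), (nat_lit 33)⟩, ⟨(nat_lit 380), (nat_lit 400), (nat_lit 240), (nat_lit 320), (nat_lit 160), (nat_lit 240), (nat_lit 120), (nat_lit 88), (nat_lit 272), (nat_lit 60), (nat_lit 7), (nat_lit 51)⟩, ⟨(nat_lit 380), (nat_lit 400), (nat_lit 240), (nat_lit 320), (nat_lit 240), (nat_lit 320), (nat_lit 160), (nat_lit 88), (nat_lit 401), (nat_lit 175), (nat_lit 9), (nat_lit 52)⟩]) (by decide +kernel)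
theorem tl15 (h : EC env Ei) : TailOf ((nat_lit 380), (nat_lit 400), (nat_lit 320), (nat_lit 400), (nat_lit 120), (nat_lit 400)) (nat_lit 228) :=
  tailT_sound h (bs := [⟨(nat_lit 380), (nat_lit 400), (nat_lit 320), (nat_lit 400), (nat_lit 120), (nat_lit 160), (nat_lit 80), (nat_lit 114), (nat_lit 249), (nat_lit 40), (nat_lit 9), (nat_lit 39)⟩, ⟨(nat_lit 380), (nat_lit 400), (nat_lit 320), (nat_lit 400), (nat_lit 160), (nat_lit 200), (nat_lit 100), (nat_lit 114), (nat_lit 260), (nat_lit 50), (nat_lit 8), (nat_lit 34)⟩, ⟨(nat_lit 380), (nat_lit 400), (nat_lit 320), (nat_lit 400), (nat_lit 200), (nat_lit 240), (nat_lit 120), (nat_lit 114), (nat_lit 272), (nat_lit 60), (nat_lit 7), (nat_lit 54)⟩, ⟨(nat_lit 380), (nat_lit 400), (nat_lit 320), (nat_lit 400), (nat_lit 240), (nat_lit 320), (nat_lit 160), (nat_lit 114), (nat_lit 317), (nat_lit 100), (nat_lit 6), (nat_lit 56)⟩, ⟨(nat_lit 380), (nat_lit 400), (nat_lit 320), (nat_lit 400), (nat_lit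 320), (nat_lit 400), (nat_lit 200), (nat_lit 114), (nat_lit 538), (nat_lit 300), (nat_lit 10), (nat_lit 61)⟩]) (by decide +kernel)
theorem tl16 (h : EC env Ei) : TailOf ((nat_lit 360), (nat_lit 380), (nat_lit 120), (nat_lit 240), (nat_lit 120), (nat_lit 240)) (nat_lit 128) :=
  tailT_sound h (bs := [⟨(nat_lit 360), (nat_lit 380), (nat_lit 120), (nat_lit 240), (nat_lit 120), (nat_lit 200), (nat_lit 100), (nat_lit 64), (nat_lit 345), (nat_lit 125), (nat_lit 12), (nat_lit 45)⟩, ⟨(nat_lit 360), (nat_lit 380), (nat_lit 200), (nat_lit 240), (nat_lit 200), (nat_lit 240), (nat_lit 120), (nat_lit 64), (nat_lit 345), (nat_lit 125), (nat_lit 10), (nat_lit 46)⟩]) (by decide +kernel)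
theorem tl17 (h : EC env Ei) : TailOf ((nat_lit 360), (nat_lit 380), (nat_lit 240), (nat_lit 320), (nat_lit 120), (nat_lit 320)) (nat_lit 164) :=
  tailT_sound h (bs := [⟨(nat_lit 360), (nat_lit 380), (nat_lit 240), (nat_lit 320), (nat_lit 120), (nat_lit 160), (nat_lit 80), (nat_lit 82), (nat_lit 249), (nat_lit 40), (nat_lit 9), (nat_lit 33)⟩, ⟨(nat_lit 360), (nat_lit 380), (nat_lit 240), (nat_lit 320), (nat_lit 160), (nat_lit 240), (nat_lit 120), (nat_lit 82), (nat_lit 272), (nat_lit 60), (nat_lit 7), (nat_lit 51)⟩, ⟨(nat_lit 360), (nat_lit 380), (nat_lit 240), (nat_lit 320), (nat_lit 240), (nat_lit 320), (nat_lit 160), (nat_lit 82), (nat_lit 401), (nat_lit 175), (nat_lit 9), (nat_lit 52)⟩]) (by decide +kernel)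
theorem tl18 (h : EC env Ei) : TailOf ((nat_lit 360), (nat_lit 380), (nat_lit 320), (nat_lit 400), (nat_lit 120), (nat_lit 400)) (nat_lit 204) :=
  tailT_sound h (bs := [⟨(nat_lit 360), (nat_lit 380), (nat_lit 320), (nat_lit 380), (nat_lit 120), (nat_lit 160), (nat_lit 80), (nat_lit 102), (nat_lit 249), (nat_lit 40), (nat_lit 9), (nat_lit 33)⟩, ⟨(nat_lit 360), (nat_lit 380), (nat_lit 320), (nat_lit 380), (nat_lit 160), (nat_lit 240), (nat_lit 120), (nat_lit 102), (nat_lit 272), (nat_lit 60), (nat_lit 7), (nat_lit 54)⟩, ⟨(nat_lit 360), (nat_lit 380), (nat_lit 320), (nat_lit 380), (nat_lit 240), (nat_lit 320), (nat_lit 160), (nat_lit 102), (nat_lit 317), (nat_lit 100), (nat_lit 7), (nat_lit 56)⟩, ⟨(nat_lit 360), (nat_lit 380), (nat_lit 320), (nat_lit 380), (nat_lit 320), (nat_lit 380), (nat_lit 200), (nat_lit 102), (nat_lit 538), (nat_lit 300), (nat_lit 10), (nat_lit 57)⟩]) (by decide +kernel)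
end TC
end Pool.Agent.Lib.MP_6947cd_al
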