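import Pool.Agent.Lib.MP_6947cd_al.TC.Top
import Pool.Agent.Lib.MP_6947cd_al.TC.Tl

/-!
Problem MP_6947cd_al (Chollet).  CASE C, tables and certificates.  The statement of case C from the tables.
-/

set_option autoImplicit false
set_option linter.all false
set_option maxRecDepth 100000
set_option maxHeartbeats 4000000
namespace Pool.Agent.Lib.MP_6947cd_al
namespace TC
open Ent Ent.Pk Fr Fr.WT CC B1 B2 PkA C1
noncomputable def bs : List ((ℕ × ℕ × ℕ × ℕ × ℕ × ℕ) × ℕ) := [(((nat_lit 120), (nat_lit 260), (nat_lit 120), (nat_lit 260), (nat_lit 120), (nat_lit 260)), (nat_lit 40)),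
  (((nat_lit 260), (nat_lit 280), (nat_lit 120), (nat_lit 240), (nat_lit 120), (nat_lit 240)), (nat_lit 40)),
  (((nat_lit 260), (nat_lit 280), (nat_lit 240), (nat_lit 320), (nat_lit 120), (nat_lit 320)), (nat_lit 40)),
  (((nat_lit 300), (nat_lit 320), (nat_lit 120), (nat_lit 240), (nat_lit 120), (nat_lit 240)), (nat_lit 40)),
  (((nat_lit 300), (nat_lit 320), (nat_lit 240), (nat_lit 320), (nat_lit 120), (nat_lit 320)), (nat_lit 76)),
  (((nat_lit 280), (nat_lit 300), (nat_lit 120), (nat_lit 240), (nat_lit 120), (nat_lit 240)), (nat_lit 40)),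
  (((nat_lit 280), (nat_lit 300), (nat_lit 240), (nat_lit 320), (nat_lit 120), (nat_lit 320)), (nat_lit 60)),
  (((nat_lit 340), (nat_lit 360), (nat_lit 120), (nat_lit 240), (nat_lit 120), (nat_lit 240)), (nat_lit 76)),
  (((nat_lit 340), (nat_lit 360), (nat_lit 240), (nat_lit 320), (nat_lit 120), (nat_lit 320)), (nat_lit 128)),
  (((nat_lit 340), (nat_lit 360), (nat_lit 320), (nat_lit 400), (nat_lit 120), (nat_lit 400)), (nat_lit 172)),
  (((nat_lit 320), (nat_lit 340), (nat_lit 120), (nat_lit 240), (nat_lit 120), (nat_lit 240)), (nat_lit 44)),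
  (((nat_lit 320), (nat_lit 340), (nat_lit 240), (nat_lit 320), (nat_lit 120), (nat_lit 320)), (nat_lit 104)),
  (((nat_lit 320), (nat_lit 340), (nat_lit 320), (nat_lit 400), (nat_lit 120), (nat_lit 400)), (nat_lit 128)),
  (((nat_lit 380), (nat_lit 400), (nat_lit 120), (nat_lit 240), (nat_lit 120), (nat_lit 240)), (nat_lit 172)),
  (((nat_lit 380), (nat_lit 400), (nat_lit 240), (nat_lit 320), (nat_lit 120), (nat_lit 320)), (nat_lit 176)),
  (((nat_lit 380), (nat_lit 400), (nat_lit 320), (nat_lit 400), (nat_lit 120), (nat_lit 400)), (nat_lit 228)),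
  (((nat_lit 360), (nat_lit 380), (nat_lit 120), (nat_lit 240), (nat_lit 120), (nat_lit 240)), (nat_lit 128)),
  (((nat_lit 360), (nat_lit 380), (nat_lit 240), (nat_lit 320), (nat_lit 120), (nat_lit 320)), (nat_lit 164)),
  (((nat_lit 360), (nat_lit 380), (nat_lit 320), (nat_lit 400), (nat_lit 120), (nat_lit 400)), (nat_lit 204))]
/-- CASE C for the environment. -/
theorem specC_env (h : EC env Ei) : LL.SpecC What := by
  refine specC_of2 (bs := bs) (by decide +kernel) ?_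
  unfold bs
  exact List.forall_mem_cons.mpr ⟨⟨r0 h, tl0 h⟩, List.forall_mem_cons.mpr ⟨⟨r1 h, tl1 h⟩, List.forall_mem_cons.mpr ⟨⟨r2 h, tl2 h⟩, List.forall_mem_cons.mpr ⟨⟨r3 h, tl3 h⟩, List.forall_mem_cons.mpr ⟨⟨r4 h, tl4 h⟩, List.forall_mem_cons.mpr ⟨⟨r5 h, tl5 h⟩, List.forall_mem_cons.mpr ⟨⟨r6 h, tl6 h⟩, List.forall_mem_cons.mpr ⟨⟨r7 h, tl7 h⟩, List.forall_mem_cons.mpr ⟨⟨r8 h, tl8 h⟩, List.forall_mem_cons.mpr ⟨⟨r9 h, tl9 h⟩, List.forall_mem_cons.mpr ⟨⟨r10 h, tl10 h⟩, List.forall_mem_cons.mpr ⟨⟨r11 h, tl11 h⟩, List.forall_mem_cons.mpr ⟨⟨r12 h, tl12 h⟩, List.forall_mem_cons.mpr ⟨⟨r13 h, tl13 h⟩, List.forall_mem_cons.mpr ⟨⟨r14 h, tl14 h⟩, List.forall_mem_cons.mpr ⟨⟨r15 h, tl15 h⟩, List.forall_mem_cons.mpr ⟨⟨r16 h, tl16 h⟩, List.forall_mem_cons.mpr ⟨⟨r17 h, tl17 h⟩, List.forall_mem_cons.mpr ⟨⟨r18 h, tl18 h⟩, List.forall_mem_nil _⟩⟩⟩⟩⟩⟩⟩⟩⟩⟩⟩⟩⟩⟩⟩⟩⟩⟩⟩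
end TC
end Pool.Agent.Lib.MP_6947cd_al
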