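import Pool.Agent.Lib.MP_6947cd_al.C.LeafF
import Pool.Agent.Lib.MP_6947cd_al.TC.E
import Pool.Agent.Lib.MP_6947cd_al.TC.F

/-!
Problem MP_6947cd_al (Chollet).  CASE C, tables and certificates.  Trees of leaves (part 0 of root 0).
-/

set_option autoImplicit false
set_option linter.all false
set_option maxRecDepth 100000
set_option maxHeartbeats 4000000
namespace Pool.Agent.Lib.MP_6947cd_al
namespace TC
open C1
noncomputable def c0_0 : Tr Lf :=
 (.spl (nat_lit 6) (nat_lit 4) (.spl (nat_lit 2) (nat_lit 200) (.dle (nat_lit 0)) (.ord (.spl (nat_lit 1) (nat_lit 240) (.ord (.dle (nat_lit 0))) (.ord (.trZ (nat_lit 0) (nat_lit 1) (nat_lit 3) (nat_lit 100) (nat_lit 100) (nat_lit 40) (nat_lit 10) (.spl (nat_lit 3) (nat_lit 200) (.spl (nat_lit 4) (nat_lit 120) (.spl (nat_lit 5) (nat_lit 120) (.spl (nat_lit 0) (nat_lit 250) (.ord (.dle (nat_lit 0))) (.trZ (nat_lit 0) (nat_lit 1) (nat_lit 3) (nat_lit 100) (nat_lit 99) (nat_lit 45) (nat_lit 20) (.leaf ⟨(nat_lit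 0), (nat_lit 524), (nat_lit 476), (nat_lit 0), (nat_lit 55236), (nat_lit 6359), (nat_lit 6364), (nat_lit 4476), (nat_lit 54399), (nat_lit 5827202813300), (nat_lit 0), [], Pd.none, Pd.none, (nat_lit 0), (nat_lit 1), (nat_lit 0), (nat_lit 0), (nat_lit 5), (nat_lit 6), [⟨(nat_lit 0), (nat_lit 100), (nat_lit 100), (nat_lit 60), (nat_lit 289217591)⟩], [⟨(nat_lit 0), (nat_lit 100), (nat_lit 100), (nat_lit 60), (nat_lit 502586359)⟩], [⟨(nat_lit 0), (nat_lit 100), (nat_lit 100), (nat_lit 60), (nat_lit 290809861)⟩], [],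
 ⟨⟨[(nat_lit 80), (nat_lit 100)], [(nat_lit 0), (nat_lit 132)], [((nat_lit 0), (nat_lit 0), (nat_lit 0)), ((nat_lit 1000), (nat_lit 979), (nat_lit 103))], ((nat_lit 97), (nat_lit 100), (nat_lit 20))⟩, (nat_lit 30365663), (nat_lit 258), (nat_lit 258), (nat_lit 0), (nat_lit 40528), [(nat_lit 4688000001), (nat_lit 6250000000)], [], [(nat_lit 17560825977), (nat_lit 18590086327), (nat_lit 18189473880), (nat_lit 18988103095), (nat_lit 14889757859), (nat_lit 15801177424), (nat_lit 18119912208), (nat_lit 16568354362)], (nat_lit 1271251), (nat_lit 1271251), (nat_lit 111251), (nat_lit 1416250), (nat_lit 0), (nat_lit 780000), [(nat_lit 1100000), (nat_lit 1442501)], [(nat_lit 15), (nat_lit 50), (nat_lit 317), (nat_lit 100), (nat_lit 13)]⟩,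
 ⟨⟨[(nat_lit 80), (nat_lit 100)], [(nat_lit 0), (nat_lit 0)], [((nat_lit 0), (nat_lit 0), (nat_lit 0)), ((nat_lit 0), (nat_lit 0), (nat_lit 0))], ((nat_lit 98), (nat_lit 100), (nat_lit 20))⟩, (nat_lit 0), (nat_lit 263), (nat_lit 263), (nat_lit 0), (nat_lit 43334), [(nat_lit 2456512000), (nat_lit 3275000000)], [], [(nat_lit 18346675688), (nat_lit 15080863399), (nat_lit 8792466208), (nat_lit 10665656826), (nat_lit 5455956238), (nat_lit 7625224131), (nat_lit 7936732676), (nat_lit 5102441592)], (nat_lit 1271251), (nat_lit 1271251), (nat_lit 111251), (nat_lit 1416250), (nat_lit 0), (nat_lit 780000), [(nat_lit 1100000), (nat_lit 1442501)], [(nat_lit 15), (nat_lit 50), (nat_lit 317), (nat_lit 100), (nat_lit 13)]⟩,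
 ⟨⟨[(nat_lit 100), (nat_lit 120)], [(nat_lit 0), (nat_lit 0)], [((nat_lit 0), (nat_lit 0), (nat_lit 0)), ((nat_lit 0), (nat_lit 0), (nat_lit 0))], ((nat_lit 100), (nat_lit 98), (nat_lit 20))⟩, (nat_lit 0), (nat_lit 291), (nat_lit 291), (nat_lit 0), (nat_lit 23867), [(nat_lit 2975000000), (nat_lit 3792768000)], [], [(nat_lit 11788332128), (nat_lit 14006236264), (nat_lit 10405394692), (nat_lit 11048814246), (nat_lit 10405394692), (nat_lit 11048814246), (nat_lit 11894726608), (nat_lit 8543228268)], (nat_lit 1271251), (nat_lit 1271251), (nat_lit 0), (nat_lit 780000), (nat_lit 0), (nat_lit 780000), [(nat_lit 1412501), (nat_lit 1271251)], [(nat_lit 21), (nat_lit 54), (nat_lit 345), (nat_lit 125), (nat_lit 12)]⟩⟩))) (.spl (nat_lit 0) (nat_lit 250) (.ord (.dle (nat_lit 0))) (.trZ (nat_lit 0) (nat_lit 1) (nat_lit 3) (nat_lit 100) (nat_lit 99) (nat_lit 45) (nat_lit 20) (.leaf ⟨(nat_lit 0), (nat_lit 0), (nat_lit 0), (nat_lit 1000), (nat_lit 222551), (nat_lit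 6359), (nat_lit 2612), (nat_lit 11509), (nat_lit 11856963332564), (nat_lit 392205), (nat_lit 0), [], Pd.none, Pd.none, (nat_lit 0), (nat_lit 1), (nat_lit 0), (nat_lit 0), (nat_lit 0), (nat_lit 0), [⟨(nat_lit 0), (nat_lit 100), (nat_lit 100), (nat_lit 60), (nat_lit 477432301)⟩], [⟨(nat_lit 0), (nat_lit 100), (nat_lit 100), (nat_lit 60), (nat_lit 1916516722)⟩], [], [],
 ⟨⟨[(nat_lit 80), (nat_lit 100)], [(nat_lit 0), (nat_lit 132)], [((nat_lit 0), (nat_lit 0), (nat_lit 0)), ((nat_lit 1000), (nat_lit 979), (nat_lit 103))], ((nat_lit 97), (nat_lit 100), (nat_lit 20))⟩, (nat_lit 46731103), (nat_lit 258), (nat_lit 258), (nat_lit 0), (nat_lit 40528), [(nat_lit 4688000022), (nat_lit 6250000000)], [], [(nat_lit 17560826019), (nat_lit 18590086327), (nat_lit 18189473922), (nat_lit 18988103137), (nat_lit 14889757901), (nat_lit 15801177466), (nat_lit 16802036114), (nat_lit 16485349667)], (nat_lit 1271251), (nat_lit 1271251), (nat_lit 111251), (nat_lit 1416250),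 (nat_lit 0), (nat_lit 780000), [(nat_lit 1100000), (nat_lit 1442501)], [(nat_lit 15), (nat_lit 50), (nat_lit 317), (nat_lit 100), (nat_lit 13)]⟩,
 ⟨⟨[(nat_lit 80), (nat_lit 100)], [(nat_lit 0), (nat_lit 0)], [((nat_lit 0), (nat_lit 0), (nat_lit 0)), ((nat_lit 0), (nat_lit 0), (nat_lit 0))], ((nat_lit 98), (nat_lit 100), (nat_lit 20))⟩, (nat_lit 3469734), (nat_lit 205), (nat_lit 205), (nat_lit 0), (nat_lit 67408), [(nat_lit 4688000000), (nat_lit 6250000000)], [], [(nat_lit 34791406874), (nat_lit 33409711767), (nat_lit 35681274820), (nat_lit 35467241941), (nat_lit 43834077016), (nat_lit 42651139437), (nat_lit 52213590008), (nat_lit 51095839460)], (nat_lit 1271251), (nat_lit 1271251), (nat_lit 111251), (nat_lit 1416250), (nat_lit 780000), (nat_lit 3072501), [(nat_lit 1100000), (nat_lit 1442501)], [(nat_lit 15), (nat_lit 50), (nat_lit 373), (nat_lit 150), (nat_lit 15)]⟩,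
 ⟨⟨[(nat_lit 100), (nat_lit 120)], [(nat_lit 0), (nat_lit 0)], [((nat_lit 0), (nat_lit 0), (nat_lit 0)), ((nat_lit 0), (nat_lit 0), (nat_lit 0))], ((nat_lit 100), (nat_lit 98), (nat_lit 20))⟩, (nat_lit 3469734), (nat_lit 234), (nat_lit 234), (nat_lit 0), (nat_lit 58534), [(nat_lit 6250000000), (nat_lit 7968000000)], [], [(nat_lit 50227387227), (nat_lit 32009129360), (nat_lit 23149132304), (nat_lit 17696819390), (nat_lit 53083971166), (nat_lit 49091631867), (nat_lit 59633676184), (nat_lit 43822318505)], (nat_lit 1271251), (nat_lit 1271251), (nat_lit 0), (nat_lit 780000), (nat_lit 780000), (nat_lit 3072501), [(nat_lit 1412501), (nat_lit 1271251)], [(nat_lit 21), (nat_lit 54), (nat_lit 428), (nat_lit 200), (nat_lit 14)]⟩⟩)))) (.spl (nat_lit 5) (nat_lit 120) (.spl (nat_lit 0) (nat_lit 250) (.ord (.dle (nat_lit 0))) (.trZ (nat_lit 0) (nat_lit 1) (nat_lit 3) (nat_lit 100) (nat_lit 99) (nat_lit 45) (nat_lit 20) (.leaf ⟨(nat_lit 0), (nat_lit 0), (nat_lit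 0), (nat_lit 1000), (nat_lit 246003), (nat_lit 1230), (nat_lit 12145), (nat_lit 12145), (nat_lit 2888105464462), (nat_lit 218768), (nat_lit 0), [], Pd.none, Pd.none, (nat_lit 0), (nat_lit 1), (nat_lit 0), (nat_lit 0), (nat_lit 0), (nat_lit 0), [⟨(nat_lit 0), (nat_lit 100), (nat_lit 100), (nat_lit 60), (nat_lit 787070030)⟩], [], [⟨(nat_lit 0), (nat_lit 100), (nat_lit 100), (nat_lit 60), (nat_lit 2441387408)⟩], [],
 ⟨⟨[(nat_lit 80), (nat_lit 100)], [(nat_lit 0), (nat_lit 132)], [((nat_lit 0), (nat_lit 0), (nat_lit 0)), ((nat_lit 1000), (nat_lit 979), (nat_lit 103))], ((nat_lit 97), (nat_lit 100), (nat_lit 20))⟩, (nat_lit 53622481), (nat_lit 199), (nat_lit 199), (nat_lit 0), (nat_lit 62715), [(nat_lit 4688000005), (nat_lit 6250000000)], [], [(nat_lit 31600832799), (nat_lit 31276697842), (nat_lit 34140704157), (nat_lit 34479940088), (nat_lit 39809481183), (nat_lit 40073291610), (nat_lit 41818498213), (nat_lit 42050410310)], (nat_lit 1271251), (nat_lit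 1271251), (nat_lit 111251), (nat_lit 1416250), (nat_lit 780000), (nat_lit 3072501), [(nat_lit 1100000), (nat_lit 1442501)], [(nat_lit 15), (nat_lit 50), (nat_lit 373), (nat_lit 150), (nat_lit 14)]⟩,
 ⟨⟨[(nat_lit 80), (nat_lit 100)], [(nat_lit 0), (nat_lit 0)], [((nat_lit 0), (nat_lit 0), (nat_lit 0)), ((nat_lit 0), (nat_lit 0), (nat_lit 0))], ((nat_lit 98), (nat_lit 100), (nat_lit 20))⟩, (nat_lit 3182794), (nat_lit 263), (nat_lit 263), (nat_lit 0), (nat_lit 43334), [(nat_lit 4688000000), (nat_lit 6250000000)], [], [(nat_lit 35012741790), (nat_lit 28780295177), (nat_lit 16779497650), (nat_lit 20354280230), (nat_lit 10412125413), (nat_lit 14551939364), (nat_lit 15146492695), (nat_lit 9737498124)], (nat_lit 1271251), (nat_lit 1271251), (nat_lit 111251), (nat_lit 1416250), (nat_lit 0), (nat_lit 780000), [(nat_lit 1100000), (nat_lit 1442501)], [(nat_lit 15), (nat_lit 50), (nat_lit 317), (nat_lit 100), (nat_lit 13)]⟩,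
 ⟨⟨[(nat_lit 100), (nat_lit 120)], [(nat_lit 0), (nat_lit 0)], [((nat_lit 0), (nat_lit 0), (nat_lit 0)), ((nat_lit 0), (nat_lit 0), (nat_lit 0))], ((nat_lit 100), (nat_lit 98), (nat_lit 20))⟩, (nat_lit 3182794), (nat_lit 234), (nat_lit 234), (nat_lit 0), (nat_lit 58534), [(nat_lit 6250000000), (nat_lit 7968000000)], [], [(nat_lit 51207019935), (nat_lit 31982001098), (nat_lit 53848172230), (nat_lit 50730771135), (nat_lit 22593431120), (nat_lit 16511803910), (nat_lit 60587406520), (nat_lit 43902295823)], (nat_lit 1271251), (nat_lit 1271251), (nat_lit 780000), (nat_lit 3072501), (nat_lit 0), (nat_lit 780000), [(nat_lit 1412501), (nat_lit 1271251)], [(nat_lit 21), (nat_lit 54), (nat_lit 428), (nat_lit 200), (nat_lit 14)]⟩⟩))) (.leaf ⟨(nat_lit 0), (nat_lit 0), (nat_lit 0), (nat_lit 1000), (nat_lit 69213), (nat_lit 2449), (nat_lit 2449), (nat_lit 3013), (nat_lit 1610668079497), (nat_lit 3221336015488), (nat_lit 0), [], Pd.none, Pd.none, (nat_lit 0),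 (nat_lit 1), (nat_lit 0), (nat_lit 0), (nat_lit 0), (nat_lit 0), [⟨(nat_lit 0), (nat_lit 100), (nat_lit 100), (nat_lit 60), (nat_lit 730438504)⟩], [], [], [],
 ⟨⟨[(nat_lit 80), (nat_lit 100)], [(nat_lit 0), (nat_lit 0)], [((nat_lit 0), (nat_lit 0), (nat_lit 0)), ((nat_lit 0), (nat_lit 0), (nat_lit 0))], ((nat_lit 98), (nat_lit 100), (nat_lit 20))⟩, (nat_lit 1115874), (nat_lit 210), (nat_lit 210), (nat_lit 0), (nat_lit 67408), [(nat_lit 4688000001), (nat_lit 6250000000)], [], [(nat_lit 35106076120), (nat_lit 33805783759), (nat_lit 35875881064), (nat_lit 35943434340), (nat_lit 43570036292), (nat_lit 42709394031), (nat_lit 51948756465), (nat_lit 50900758344)], (nat_lit 1271251), (nat_lit 1271251), (nat_lit 54688), (nat_lit 1414376), (nat_lit 780000), (nat_lit 3072501), [(nat_lit 1100000), (nat_lit 1442501)], [(nat_lit 15), (nat_lit 50), (nat_lit 373), (nat_lit 150), (nat_lit 15)]⟩,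
 ⟨⟨[(nat_lit 80), (nat_lit 100)], [(nat_lit 0), (nat_lit 0)], [((nat_lit 0), (nat_lit 0), (nat_lit 0)), ((nat_lit 0), (nat_lit 0), (nat_lit 0))], ((nat_lit 98), (nat_lit 100), (nat_lit 20))⟩, (nat_lit 1115874), (nat_lit 210), (nat_lit 210), (nat_lit 0), (nat_lit 67408), [(nat_lit 4688000000), (nat_lit 6250000000)], [], [(nat_lit 35106076118), (nat_lit 33805783758), (nat_lit 35875881061), (nat_lit 35943434339), (nat_lit 43570036289), (nat_lit 42709394030), (nat_lit 51948756462), (nat_lit 50900758341)], (nat_lit 1271251), (nat_lit 1271251), (nat_lit 54688), (nat_lit 1414376), (nat_lit 780000), (nat_lit 3072501), [(nat_lit 1100000), (nat_lit 1442501)], [(nat_lit 15), (nat_lit 50), (nat_lit 373), (nat_lit 150), (nat_lit 15)]⟩,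
 ⟨⟨[(nat_lit 100), (nat_lit 120)], [(nat_lit 0), (nat_lit 0)], [((nat_lit 0), (nat_lit 0), (nat_lit 0)), ((nat_lit 0), (nat_lit 0), (nat_lit 0))], ((nat_lit 100), (nat_lit 98), (nat_lit 20))⟩, (nat_lit 1115874), (nat_lit 177), (nat_lit 177), (nat_lit 0), (nat_lit 93200), [(nat_lit 6250000000), (nat_lit 7968000000)], [], [(nat_lit 38458022380), (nat_lit 33896257523), (nat_lit 38338497675), (nat_lit 39566759905), (nat_lit 54778839540), (nat_lit 50639503309), (nat_lit 44031806058), (nat_lit 44695279753)], (nat_lit 1271251), (nat_lit 1271251), (nat_lit 1271251), (nat_lit 1271251), (nat_lit 780000), (nat_lit 3072501), [(nat_lit 1412501), (nat_lit 1271251)], [(nat_lit 21), (nat_lit 54), (nat_lit 538), (nat_lit 300), (nat_lit 18)]⟩⟩))) (.leaf ⟨(nat_lit 0), (nat_lit 628), (nat_lit 0), (nat_lit 372), (nat_lit 48506), (nat_lit 5495), (nat_lit 5495), (nat_lit 1088), (nat_lit 10424300298309), (nat_lit 20848598795467), (nat_lit 0), [], Pd.none, Pd.none, (nat_lit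 0), (nat_lit 1), (nat_lit 0), (nat_lit 0), (nat_lit 5), (nat_lit 0), [], [], [], [],
 ⟨⟨[(nat_lit 80), (nat_lit 100)], [(nat_lit 0), (nat_lit 0)], [((nat_lit 0), (nat_lit 0), (nat_lit 0)), ((nat_lit 0), (nat_lit 0), (nat_lit 0))], ((nat_lit 98), (nat_lit 100), (nat_lit 20))⟩, (nat_lit 731325), (nat_lit 181), (nat_lit 181), (nat_lit 0), (nat_lit 67408), [(nat_lit 4688000004), (nat_lit 6250000000)], [], [(nat_lit 31982758108), (nat_lit 29141653531), (nat_lit 37725225024), (nat_lit 38310365504), (nat_lit 37992761204), (nat_lit 35551612949), (nat_lit 39505062864), (nat_lit 39740021999)], (nat_lit 1271251), (nat_lit 1271251), (nat_lit 1271251), (nat_lit 1271251), (nat_lit 0), (nat_lit 2825001), [(nat_lit 1100000), (nat_lit 1442501)], [(nat_lit 15), (nat_lit 50), (nat_lit 317), (nat_lit 100), (nat_lit 12)]⟩,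
 ⟨⟨[(nat_lit 80), (nat_lit 100)], [(nat_lit 0), (nat_lit 0)], [((nat_lit 0), (nat_lit 0), (nat_lit 0)), ((nat_lit 0), (nat_lit 0), (nat_lit 0))], ((nat_lit 98), (nat_lit 100), (nat_lit 20))⟩, (nat_lit 731325), (nat_lit 181), (nat_lit 181), (nat_lit 0), (nat_lit 67408), [(nat_lit 4688000000), (nat_lit 6250000000)], [], [(nat_lit 31982758100), (nat_lit 29141653523), (nat_lit 37725225020), (nat_lit 38310365500), (nat_lit 37992761200), (nat_lit 35551612945), (nat_lit 39505062860), (nat_lit 39740021995)], (nat_lit 1271251), (nat_lit 1271251), (nat_lit 1271251), (nat_lit 1271251), (nat_lit 0), (nat_lit 2825001), [(nat_lit 1100000), (nat_lit 1442501)], [(nat_lit 15), (nat_lit 50), (nat_lit 317), (nat_lit 100), (nat_lit 12)]⟩,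
 ⟨⟨[(nat_lit 100), (nat_lit 120)], [(nat_lit 0), (nat_lit 0)], [((nat_lit 0), (nat_lit 0), (nat_lit 0)), ((nat_lit 0), (nat_lit 0), (nat_lit 0))], ((nat_lit 100), (nat_lit 98), (nat_lit 20))⟩, (nat_lit 731325), (nat_lit 297), (nat_lit 297), (nat_lit 0), (nat_lit 93200), [(nat_lit 2325000000), (nat_lit 2964096000)], [], [(nat_lit 17318662176), (nat_lit 15514376288), (nat_lit 17825658344), (nat_lit 18211151764), (nat_lit 17825658344), (nat_lit 18211151764), (nat_lit 21157582160), (nat_lit 19788712784)], (nat_lit 1271251), (nat_lit 1271251), (nat_lit 0), (nat_lit 2825001), (nat_lit 0), (nat_lit 2825001), [(nat_lit 1412501), (nat_lit 1271251)], [(nat_lit 21), (nat_lit 54), (nat_lit 538), (nat_lit 300), (nat_lit 19)]⟩⟩))))))) (.dle (nat_lit 0)))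
def l000 : List St := [⟨⟨(nat_lit 120), (nat_lit 260), (nat_lit 120), (nat_lit 260), (nat_lit 120), (nat_lit 260), (nat_lit 0), (nat_lit 400), (nat_lit 0), (nat_lit 400), (nat_lit 0), (nat_lit 400), (nat_lit 0), (nat_lit 40)⟩, (nat_lit 3), (nat_lit 3), (nat_lit 3), false, false, false⟩]
theorem t000 (h : EC env Ei) : ∀ τ ∈ l000, Dead τ :=
  List.forall_mem_cons.mpr ⟨chkT_sound0 h (T := c0_0) (by decide +kernel),
  List.forall_mem_nil _⟩
end TC
end Pool.Agent.Lib.MP_6947cd_al
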