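import Pool.Agent.Lib.MP_6947cd_al.C.LeafF
import Pool.Agent.Lib.MP_6947cd_al.TC.E
import Pool.Agent.Lib.MP_6947cd_al.TC.F

/-!
Problem MP_6947cd_al (Chollet).  CASE C, tables and certificates.  Trees of leaves (part 1 of root 2).
-/

set_option autoImplicit false
set_option linter.all false
set_option maxRecDepth 100000
set_option maxHeartbeats 4000000
namespace Pool.Agent.Lib.MP_6947cd_al
namespace TC
open C1
noncomputable def c2_0 : Tr Lf :=
 (.ord (.spl (nat_lit 6) (nat_lit 12) (.spl (nat_lit 5) (nat_lit 200) (.spl (nat_lit 5) (nat_lit 120) (.leaf ⟨(nat_lit 0), (nat_lit 1000), (nat_lit 0), (nat_lit 0), (nat_lit 28547), (nat_lit 6763), (nat_lit 7524), (nat_lit 0), (nat_lit 200169), (nat_lit 16145495519670), (nat_lit 0), [], Pd.none, Pd.none, (nat_lit 0), (nat_lit 1), (nat_lit 0), (nat_lit 0), (nat_lit 3), (nat_lit 0), [⟨(nat_lit 0), (nat_lit 100), (nat_lit 98), (nat_lit 60), (nat_lit 908550162)⟩], [⟨(nat_lit 0), (nat_lit 100), (nat_lit 100), (nat_lit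 70), (nat_lit 113789346)⟩], [⟨(nat_lit 0), (nat_lit 100), (nat_lit 100), (nat_lit 70), (nat_lit 47822055)⟩], [],
 ⟨⟨[(nat_lit 80), (nat_lit 100), (nat_lit 120)], [(nat_lit 0), (nat_lit 265), (nat_lit 768)], [((nat_lit 0), (nat_lit 0), (nat_lit 0)), ((nat_lit 1000), (nat_lit 959), (nat_lit 206)), ((nat_lit 1000), (nat_lit 958), (nat_lit 392))], ((nat_lit 95), (nat_lit 100), (nat_lit 34))⟩, (nat_lit 8342746), (nat_lit 255), (nat_lit 255), (nat_lit 0), (nat_lit 71747), [(nat_lit 4688000006), (nat_lit 6250000009), (nat_lit 7968000000)], [], [(nat_lit 19643022488), (nat_lit 20765987803), (nat_lit 17044681586), (nat_lit 17930423501), (nat_lit 15790646823), (nat_lit 16716291289), (nat_lit 13852202697), (nat_lit 14681259002)], (nat_lit 1271251), (nat_lit 1271251), (nat_lit 111251), (nat_lit 780000), (nat_lit 0), (nat_lit 490000), [(nat_lit 1100000), (nat_lit 1442501), (nat_lit 1271251)], [(nat_lit 16), (nat_lit 54), (nat_lit 260), (nat_lit 50), (nat_lit 9)]⟩,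
 ⟨⟨[(nat_lit 80), (nat_lit 100), (nat_lit 120)], [(nat_lit 0), (nat_lit 0), (nat_lit 511)], [((nat_lit 0), (nat_lit 0), (nat_lit 0)), ((nat_lit 0), (nat_lit 0), (nat_lit 0)), ((nat_lit 1000), (nat_lit 997), (nat_lit 383))], ((nat_lit 99), (nat_lit 100), (nat_lit 34))⟩, (nat_lit 9329219), (nat_lit 265), (nat_lit 265), (nat_lit 0), (nat_lit 73693), [(nat_lit 4688000000), (nat_lit 6250000000), (nat_lit 7968000000)], [], [(nat_lit 19255190867), (nat_lit 22642215340), (nat_lit 16315330336), (nat_lit 19155861574), (nat_lit 15418639546), (nat_lit 18213057142), (nat_lit 15380395476), (nat_lit 15708528829)], (nat_lit 1271251), (nat_lit 1271251), (nat_lit 111251), (nat_lit 780000), (nat_lit 0), (nat_lit 780000), [(nat_lit 1100000), (nat_lit 1442501), (nat_lit 1271251)], [(nat_lit 16), (nat_lit 54), (nat_lit 272), (nat_lit 60), (nat_lit 9)]⟩,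
 Rw.none⟩) (.spl (nat_lit 1) (nat_lit 260) (.ord (.leaf ⟨(nat_lit 0), (nat_lit 777), (nat_lit 0), (nat_lit 223), (nat_lit 27190), (nat_lit 6271), (nat_lit 7253), (nat_lit 1824), (nat_lit 0), (nat_lit 20306), (nat_lit 0), [], Pd.none, Pd.none, (nat_lit 0), (nat_lit 1), (nat_lit 0), (nat_lit 0), (nat_lit 3), (nat_lit 0), [⟨(nat_lit 0), (nat_lit 100), (nat_lit 98), (nat_lit 64), (nat_lit 941146560)⟩], [⟨(nat_lit 0), (nat_lit 100), (nat_lit 98), (nat_lit 64), (nat_lit 313107862)⟩], [], [],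
 ⟨⟨[(nat_lit 80), (nat_lit 100), (nat_lit 120)], [(nat_lit 0), (nat_lit 265), (nat_lit 768)], [((nat_lit 0), (nat_lit 0), (nat_lit 0)), ((nat_lit 1000), (nat_lit 959), (nat_lit 206)), ((nat_lit 1000), (nat_lit 958), (nat_lit 392))], ((nat_lit 95), (nat_lit 100), (nat_lit 34))⟩, (nat_lit 12641318), (nat_lit 252), (nat_lit 252), (nat_lit 0), (nat_lit 34161), [(nat_lit 4688000002), (nat_lit 6250000004), (nat_lit 7968000000)], [], [(nat_lit 18736980379), (nat_lit 19826829974), (nat_lit 16643354991), (nat_lit 17561773596), (nat_lit 15374060444), (nat_lit 16299582149), (nat_lit 13850098379), (nat_lit 14709576503)], (nat_lit 1271251), (nat_lit 1271251), (nat_lit 111251), (nat_lit 780000), (nat_lit 0), (nat_lit 490000), [(nat_lit 1100000), (nat_lit 1442501), (nat_lit 1271251)], [(nat_lit 16), (nat_lit 54), (nat_lit 260), (nat_lit 50), (nat_lit 9)]⟩,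
 ⟨⟨[(nat_lit 80), (nat_lit 100), (nat_lit 120)], [(nat_lit 0), (nat_lit 0), (nat_lit 511)], [((nat_lit 0), (nat_lit 0), (nat_lit 0)), ((nat_lit 0), (nat_lit 0), (nat_lit 0)), ((nat_lit 1000), (nat_lit 997), (nat_lit 383))], ((nat_lit 99), (nat_lit 100), (nat_lit 34))⟩, (nat_lit 0), (nat_lit 206), (nat_lit 206), (nat_lit 0), (nat_lit 79068), [(nat_lit 4688000000), (nat_lit 6250000000), (nat_lit 7968000000)], [], [(nat_lit 10265966660), (nat_lit 12652794065), (nat_lit 7787968394), (nat_lit 9935591631), (nat_lit 13453060562), (nat_lit 15502879272), (nat_lit 10801067434), (nat_lit 12645076400)], (nat_lit 1271251), (nat_lit 1271251), (nat_lit 111251), (nat_lit 780000), (nat_lit 780000), (nat_lit 1435001), [(nat_lit 1100000), (nat_lit 1442501), (nat_lit 1271251)], [(nat_lit 16), (nat_lit 54), (nat_lit 317), (nat_lit 100), (nat_lit 10)]⟩,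
 ⟨⟨[(nat_lit 140), (nat_lit 160), (nat_lit 180)], [(nat_lit 0), (nat_lit 0), (nat_lit 799)], [((nat_lit 0), (nat_lit 0), (nat_lit 0)), ((nat_lit 0), (nat_lit 0), (nat_lit 0)), ((nat_lit 728), (nat_lit 1000), (nat_lit 454))], ((nat_lit 100), (nat_lit 79), (nat_lit 37))⟩, (nat_lit 195927), (nat_lit 300), (nat_lit 479), (nat_lit 16546602), (nat_lit 170167), [(nat_lit 2194766000), (nat_lit 2647456000), (nat_lit 3134934000)], [], [(nat_lit 13237871261), (nat_lit 13171930061), (nat_lit 12129174860), (nat_lit 12080076776), (nat_lit 13023124631), (nat_lit 12889752240), (nat_lit 11937758876), (nat_lit 13462651840)], (nat_lit 780000), (nat_lit 1926251), (nat_lit 0), (nat_lit 490000), (nat_lit 780000), (nat_lit 1435001), [(nat_lit 1977501), (nat_lit 1271251), (nat_lit 1271251)], [(nat_lit 31), (nat_lit 65), (nat_lit 373), (nat_lit 150), (nat_lit 9)]⟩⟩)) (.trZ (nat_lit 0) (nat_lit 1) (nat_lit 3) (nat_lit 100) (nat_lit 100) (nat_lit 60) (nat_lit 30) (.leaf ⟨(nat_lit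 0), (nat_lit 802), (nat_lit 0), (nat_lit 198), (nat_lit 19594), (nat_lit 6838), (nat_lit 8478), (nat_lit 1820), (nat_lit 5503751585395), (nat_lit 255569), (nat_lit 0), [], Pd.none, Pd.none, (nat_lit 0), (nat_lit 1), (nat_lit 0), (nat_lit 0), (nat_lit 3), (nat_lit 0), [⟨(nat_lit 0), (nat_lit 100), (nat_lit 100), (nat_lit 65), (nat_lit 806857740)⟩], [⟨(nat_lit 0), (nat_lit 100), (nat_lit 100), (nat_lit 70), (nat_lit 288638869)⟩], [], [],
 ⟨⟨[(nat_lit 80), (nat_lit 100), (nat_lit 120)], [(nat_lit 0), (nat_lit 265), (nat_lit 768)], [((nat_lit 0), (nat_lit 0), (nat_lit 0)), ((nat_lit 1000), (nat_lit 959), (nat_lit 206)), ((nat_lit 1000), (nat_lit 958), (nat_lit 392))], ((nat_lit 95), (nat_lit 100), (nat_lit 34))⟩, (nat_lit 8573358), (nat_lit 250), (nat_lit 250), (nat_lit 0), (nat_lit 71758), [(nat_lit 4688000060), (nat_lit 6250000064), (nat_lit 7968000000)], [], [(nat_lit 18918170515), (nat_lit 19938890229), (nat_lit 16880433040), (nat_lit 17772196817),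 (nat_lit 15208120926), (nat_lit 16132608907), (nat_lit 13636976426), (nat_lit 14471581606)], (nat_lit 1271251), (nat_lit 1271251), (nat_lit 169688), (nat_lit 780000), (nat_lit 0), (nat_lit 490000), [(nat_lit 1100000), (nat_lit 1442501), (nat_lit 1271251)], [(nat_lit 16), (nat_lit 54), (nat_lit 260), (nat_lit 50), (nat_lit 9)]⟩,
 ⟨⟨[(nat_lit 80), (nat_lit 100), (nat_lit 120)], [(nat_lit 0), (nat_lit 265), (nat_lit 768)], [((nat_lit 0), (nat_lit 0), (nat_lit 0)), ((nat_lit 1000), (nat_lit 959), (nat_lit 206)), ((nat_lit 1000), (nat_lit 958), (nat_lit 392))], ((nat_lit 95), (nat_lit 100), (nat_lit 34))⟩, (nat_lit 8569013), (nat_lit 197), (nat_lit 197), (nat_lit 0), (nat_lit 157301), [(nat_lit 4688000000), (nat_lit 6250000000), (nat_lit 7968000000)], [], [(nat_lit 13104511256), (nat_lit 14192774659), (nat_lit 10574109113), (nat_lit 11471432739), (nat_lit 15195771912), (nat_lit 16542403083), (nat_lit 14857554501), (nat_lit 13325668674)], (nat_lit 1271251),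 (nat_lit 1271251), (nat_lit 169688), (nat_lit 780000), (nat_lit 780000), (nat_lit 1435001), [(nat_lit 1100000), (nat_lit 1442501), (nat_lit 1271251)], [(nat_lit 16), (nat_lit 54), (nat_lit 317), (nat_lit 100), (nat_lit 10)]⟩,
 ⟨⟨[(nat_lit 140), (nat_lit 160), (nat_lit 180)], [(nat_lit 0), (nat_lit 0), (nat_lit 799)], [((nat_lit 0), (nat_lit 0), (nat_lit 0)), ((nat_lit 0), (nat_lit 0), (nat_lit 0)), ((nat_lit 728), (nat_lit 1000), (nat_lit 454))], ((nat_lit 100), (nat_lit 79), (nat_lit 37))⟩, (nat_lit 173963), (nat_lit 300), (nat_lit 549), (nat_lit 14691600), (nat_lit 249239), [(nat_lit 1948716000), (nat_lit 2350656000), (nat_lit 2783484000)], [], [(nat_lit 12616099826), (nat_lit 12323550233), (nat_lit 11506865227), (nat_lit 11234134896), (nat_lit 12284112053), (nat_lit 11938045205), (nat_lit 11197935947), (nat_lit 12472905428)], (nat_lit 780000), (nat_lit 2008126), (nat_lit 0), (nat_lit 490000), (nat_lit 780000), (nat_lit 1435001), [(nat_lit 1977501),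 (nat_lit 1271251), (nat_lit 1271251)], [(nat_lit 31), (nat_lit 65), (nat_lit 373), (nat_lit 150), (nat_lit 9)]⟩⟩)))) (.spl (nat_lit 1) (nat_lit 260) (.ord (.leaf ⟨(nat_lit 0), (nat_lit 267), (nat_lit 0), (nat_lit 733), (nat_lit 146194), (nat_lit 6215), (nat_lit 8395), (nat_lit 7420), (nat_lit 0), (nat_lit 2584), (nat_lit 0), [], Pd.none, Pd.none, (nat_lit 0), (nat_lit 1), (nat_lit 0), (nat_lit 0), (nat_lit 5), (nat_lit 0), [⟨(nat_lit 0), (nat_lit 100), (nat_lit 98), (nat_lit 64), (nat_lit 1125716479)⟩], [⟨(nat_lit 0), (nat_lit 100), (nat_lit 95), (nat_lit 28), (nat_lit 762568551)⟩], [], [],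
 ⟨⟨[(nat_lit 80), (nat_lit 100), (nat_lit 120)], [(nat_lit 0), (nat_lit 265), (nat_lit 768)], [((nat_lit 0), (nat_lit 0), (nat_lit 0)), ((nat_lit 1000), (nat_lit 959), (nat_lit 206)), ((nat_lit 1000), (nat_lit 958), (nat_lit 392))], ((nat_lit 95), (nat_lit 100), (nat_lit 34))⟩, (nat_lit 35910825), (nat_lit 252), (nat_lit 252), (nat_lit 0), (nat_lit 34161), [(nat_lit 4688000002), (nat_lit 7749757943), (nat_lit 7968000000)], [], [(nat_lit 18706657542), (nat_lit 19720836493), (nat_lit 16725452027), (nat_lit 17638849518), (nat_lit 15428322798), (nat_lit 16382258680), (nat_lit 13970005047), (nat_lit 14824854673)], (nat_lit 1271251), (nat_lit 1271251), (nat_lit 111251), (nat_lit 780000), (nat_lit 0), (nat_lit 490000), [(nat_lit 1100000), (nat_lit 1442501), (nat_lit 1271251)], [(nat_lit 16), (nat_lit 54), (nat_lit 260), (nat_lit 50), (nat_lit 9)]⟩,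
 ⟨⟨[(nat_lit 80), (nat_lit 100), (nat_lit 120)], [(nat_lit 0), (nat_lit 0), (nat_lit 511)], [((nat_lit 0), (nat_lit 0), (nat_lit 0)), ((nat_lit 0), (nat_lit 0), (nat_lit 0)), ((nat_lit 1000), (nat_lit 997), (nat_lit 383))], ((nat_lit 99), (nat_lit 100), (nat_lit 34))⟩, (nat_lit 17665378), (nat_lit 202), (nat_lit 202), (nat_lit 0), (nat_lit 79068), [(nat_lit 4688000000), (nat_lit 6250000000), (nat_lit 7968000000)], [], [(nat_lit 16431207798), (nat_lit 18142072030), (nat_lit 15227964025), (nat_lit 15005758139), (nat_lit 37883535005), (nat_lit 39110327483), (nat_lit 31069578350), (nat_lit 32219323823)], (nat_lit 1271251), (nat_lit 1271251), (nat_lit 111251), (nat_lit 780000), (nat_lit 1271251), (nat_lit 1271251), [(nat_lit 1100000), (nat_lit 1442501), (nat_lit 1271251)], [(nat_lit 16), (nat_lit 54), (nat_lit 373), (nat_lit 150), (nat_lit 12)]⟩,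
 ⟨⟨[(nat_lit 140), (nat_lit 160), (nat_lit 180)], [(nat_lit 0), (nat_lit 0), (nat_lit 799)], [((nat_lit 0), (nat_lit 0), (nat_lit 0)), ((nat_lit 0), (nat_lit 0), (nat_lit 0)), ((nat_lit 728), (nat_lit 1000), (nat_lit 454))], ((nat_lit 100), (nat_lit 79), (nat_lit 37))⟩, (nat_lit 9912902), (nat_lit 300), (nat_lit 448), (nat_lit 54388600), (nat_lit 170167), [(nat_lit 7214186000), (nat_lit 8702176000), (nat_lit 10304514000)], [], [(nat_lit 40736778215), (nat_lit 39950375307), (nat_lit 36041221358), (nat_lit 40893678208), (nat_lit 44331468648), (nat_lit 42146716804), (nat_lit 39453497610), (nat_lit 37403984299)], (nat_lit 780000), (nat_lit 1926251), (nat_lit 0), (nat_lit 490000), (nat_lit 1271251), (nat_lit 1271251), [(nat_lit 1977501), (nat_lit 1271251), (nat_lit 1271251)], [(nat_lit 31), (nat_lit 65), (nat_lit 428), (nat_lit 200), (nat_lit 10)]⟩⟩)) (.trZ (nat_lit 0) (nat_lit 1) (nat_lit 3) (nat_lit 100) (nat_lit 100) (nat_lit 60) (nat_lit 30) (.leaf ⟨(nat_lit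 0), (nat_lit 577), (nat_lit 0), (nat_lit 423), (nat_lit 38181), (nat_lit 6384), (nat_lit 6025), (nat_lit 4374), (nat_lit 64911), (nat_lit 5108), (nat_lit 0), [], Pd.none, Pd.none, (nat_lit 0), (nat_lit 1), (nat_lit 0), (nat_lit 0), (nat_lit 5), (nat_lit 0), [⟨(nat_lit 0), (nat_lit 100), (nat_lit 100), (nat_lit 65), (nat_lit 512779736)⟩, ⟨(nat_lit 0), (nat_lit 100), (nat_lit 100), (nat_lit 70), (nat_lit 352021729)⟩], [⟨(nat_lit 0), (nat_lit 100), (nat_lit 95), (nat_lit 30), (nat_lit 559339530)⟩], [], [],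
 ⟨⟨[(nat_lit 80), (nat_lit 100), (nat_lit 120)], [(nat_lit 0), (nat_lit 265), (nat_lit 768)], [((nat_lit 0), (nat_lit 0), (nat_lit 0)), ((nat_lit 1000), (nat_lit 959), (nat_lit 206)), ((nat_lit 1000), (nat_lit 958), (nat_lit 392))], ((nat_lit 95), (nat_lit 100), (nat_lit 34))⟩, (nat_lit 12647719), (nat_lit 250), (nat_lit 250), (nat_lit 0), (nat_lit 71758), [(nat_lit 4688000002), (nat_lit 6250000005), (nat_lit 7968000000)], [], [(nat_lit 18204491053), (nat_lit 19146835637), (nat_lit 16477694900), (nat_lit 17406245396), (nat_lit 14834283334), (nat_lit 15760763434), (nat_lit 13608143852), (nat_lit 14476961624)], (nat_lit 1271251), (nat_lit 1271251), (nat_lit 169688), (nat_lit 780000), (nat_lit 0), (nat_lit 490000), [(nat_lit 1100000), (nat_lit 1442501), (nat_lit 1271251)], [(nat_lit 16), (nat_lit 54), (nat_lit 260), (nat_lit 50), (nat_lit 9)]⟩,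
 ⟨⟨[(nat_lit 80), (nat_lit 100), (nat_lit 120)], [(nat_lit 0), (nat_lit 265), (nat_lit 768)], [((nat_lit 0), (nat_lit 0), (nat_lit 0)), ((nat_lit 1000), (nat_lit 959), (nat_lit 206)), ((nat_lit 1000), (nat_lit 958), (nat_lit 392))], ((nat_lit 95), (nat_lit 100), (nat_lit 34))⟩, (nat_lit 6051980), (nat_lit 219), (nat_lit 219), (nat_lit 0), (nat_lit 157301), [(nat_lit 4688000000), (nat_lit 6250000000), (nat_lit 7968000000)], [], [(nat_lit 24480242488), (nat_lit 24185365141), (nat_lit 24169581969), (nat_lit 22773213560), (nat_lit 33201002885), (nat_lit 33493430496), (nat_lit 30995407325), (nat_lit 31262006638)], (nat_lit 1271251), (nat_lit 1271251), (nat_lit 169688), (nat_lit 780000), (nat_lit 1271251), (nat_lit 1271251), [(nat_lit 1100000), (nat_lit 1442501), (nat_lit 1271251)], [(nat_lit 16), (nat_lit 54), (nat_lit 373), (nat_lit 150), (nat_lit 12)]⟩,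
 ⟨⟨[(nat_lit 140), (nat_lit 160), (nat_lit 180)], [(nat_lit 0), (nat_lit 0), (nat_lit 799)], [((nat_lit 0), (nat_lit 0), (nat_lit 0)), ((nat_lit 0), (nat_lit 0), (nat_lit 0)), ((nat_lit 728), (nat_lit 1000), (nat_lit 454))], ((nat_lit 100), (nat_lit 79), (nat_lit 37))⟩, (nat_lit 371647), (nat_lit 300), (nat_lit 481), (nat_lit 31386601), (nat_lit 249239), [(nat_lit 4163166000), (nat_lit 5021856000), (nat_lit 5946534000)], [], [(nat_lit 23829264166), (nat_lit 23262745331), (nat_lit 21116679698), (nat_lit 24227542026), (nat_lit 25547249664), (nat_lit 24317945685), (nat_lit 22739403575), (nat_lit 21436096138)], (nat_lit 780000), (nat_lit 2008126), (nat_lit 0), (nat_lit 490000), (nat_lit 1271251), (nat_lit 1271251), [(nat_lit 1977501), (nat_lit 1271251), (nat_lit 1271251)], [(nat_lit 31), (nat_lit 65), (nat_lit 428), (nat_lit 200), (nat_lit 10)]⟩⟩)))) (.dle (nat_lit 0))))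
noncomputable def c2_1 : Tr Lf :=
 (.trZ (nat_lit 0) (nat_lit 1) (nat_lit 3) (nat_lit 100) (nat_lit 96) (nat_lit 54) (nat_lit 30) (.spl (nat_lit 2) (nat_lit 200) (.spl (nat_lit 6) (nat_lit 12) (.spl (nat_lit 5) (nat_lit 200) (.leaf ⟨(nat_lit 0), (nat_lit 1000), (nat_lit 0), (nat_lit 0), (nat_lit 84903), (nat_lit 6238), (nat_lit 10419), (nat_lit 0), (nat_lit 106501), (nat_lit 0), (nat_lit 0), [], Pd.none, Pd.none, (nat_lit 0), (nat_lit 1), (nat_lit 0), (nat_lit 0), (nat_lit 3), (nat_lit 0), [⟨(nat_lit 0), (nat_lit 100), (nat_lit 97), (nat_lit 67), (nat_lit 1365106093)⟩], [⟨(nat_lit 0), (nat_lit 100), (nat_lit 95), (nat_lit 19), (nat_lit 56337889)⟩], [], [],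
 ⟨⟨[(nat_lit 80), (nat_lit 100)], [(nat_lit 0), (nat_lit 399)], [((nat_lit 0), (nat_lit 0), (nat_lit 0)), ((nat_lit 1000), (nat_lit 938), (nat_lit 310))], ((nat_lit 94), (nat_lit 100), (nat_lit 34))⟩, (nat_lit 17729763), (nat_lit 244), (nat_lit 244), (nat_lit 0), (nat_lit 59252), [(nat_lit 4688000011), (nat_lit 6250000000)], [], [(nat_lit 19264921897), (nat_lit 20274178524), (nat_lit 17607193354), (nat_lit 18522653088), (nat_lit 15988957392), (nat_lit 16937334549), (nat_lit 14777508300), (nat_lit 15634258916)], (nat_lit 1271251), (nat_lit 1271251), (nat_lit 169688), (nat_lit 780000), (nat_lit 0), (nat_lit 490000), [(nat_lit 1100000), (nat_lit 1442501)], [(nat_lit 15), (nat_lit 50), (nat_lit 260), (nat_lit 50), (nat_lit 10)]⟩,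
 ⟨⟨[(nat_lit 80), (nat_lit 100), (nat_lit 120)], [(nat_lit 0), (nat_lit 0), (nat_lit 511)], [((nat_lit 0), (nat_lit 0), (nat_lit 0)), ((nat_lit 0), (nat_lit 0), (nat_lit 0)), ((nat_lit 1000), (nat_lit 997), (nat_lit 383))], ((nat_lit 99), (nat_lit 100), (nat_lit 34))⟩, (nat_lit 14096275), (nat_lit 262), (nat_lit 262), (nat_lit 0), (nat_lit 98568), [(nat_lit 4688000000), (nat_lit 6250000000), (nat_lit 7968000000)], [], [(nat_lit 41740332021), (nat_lit 30926131537), (nat_lit 17458675398), (nat_lit 19907571612), (nat_lit 14662319542), (nat_lit 18969057119), (nat_lit 17520773705), (nat_lit 13949875034)], (nat_lit 1271251), (nat_lit 1271251), (nat_lit 169688), (nat_lit 780000), (nat_lit 0), (nat_lit 1412501), [(nat_lit 1100000), (nat_lit 1442501), (nat_lit 1271251)], [(nat_lit 16), (nat_lit 54), (nat_lit 317), (nat_lit 100), (nat_lit 11)]⟩,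
 Rw.none⟩) (.spl (nat_lit 1) (nat_lit 260) (.spl (nat_lit 6) (nat_lit 4) (.leaf ⟨(nat_lit 0), (nat_lit 399), (nat_lit 0), (nat_lit 601), (nat_lit 33407), (nat_lit 6238), (nat_lit 7221), (nat_lit 7800), (nat_lit 0), (nat_lit 0), (nat_lit 0), [], Pd.none, Pd.none, (nat_lit 0), (nat_lit 1), (nat_lit 0), (nat_lit 0), (nat_lit 5), (nat_lit 0), [⟨(nat_lit 0), (nat_lit 100), (nat_lit 96), (nat_lit 69), (nat_lit 1074678461)⟩], [], [], [],
 ⟨⟨[(nat_lit 80), (nat_lit 100)], [(nat_lit 0), (nat_lit 399)], [((nat_lit 0), (nat_lit 0), (nat_lit 0)), ((nat_lit 1000), (nat_lit 938), (nat_lit 310))], ((nat_lit 95), (nat_lit 100), (nat_lit 20))⟩, (nat_lit 11592511), (nat_lit 241), (nat_lit 241), (nat_lit 0), (nat_lit 16713), [(nat_lit 4688000002), (nat_lit 6250000000)], [], [(nat_lit 19264921879), (nat_lit 20274178524), (nat_lit 17607193336), (nat_lit 18522653070), (nat_lit 15988957374), (nat_lit 16937334531), (nat_lit 14777508282), (nat_lit 15634258898)], (nat_lit 1271251),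 (nat_lit 1271251), (nat_lit 169688), (nat_lit 780000), (nat_lit 0), (nat_lit 490000), [(nat_lit 1100000), (nat_lit 1442501)], [(nat_lit 15), (nat_lit 50), (nat_lit 260), (nat_lit 50), (nat_lit 10)]⟩,
 ⟨⟨[(nat_lit 80), (nat_lit 100)], [(nat_lit 0), (nat_lit 0)], [((nat_lit 0), (nat_lit 0), (nat_lit 0)), ((nat_lit 0), (nat_lit 0), (nat_lit 0))], ((nat_lit 98), (nat_lit 100), (nat_lit 20))⟩, (nat_lit 445289), (nat_lit 157), (nat_lit 157), (nat_lit 0), (nat_lit 37778), [(nat_lit 4688000000), (nat_lit 6250000000)], [], [(nat_lit 17948505543), (nat_lit 19496110703), (nat_lit 17640305095), (nat_lit 17506845098), (nat_lit 34435773743), (nat_lit 35574012269), (nat_lit 29843974384), (nat_lit 30698589356)], (nat_lit 1271251), (nat_lit 1271251), (nat_lit 169688), (nat_lit 780000), (nat_lit 1271251), (nat_lit 1271251), [(nat_lit 1100000), (nat_lit 1442501)], [(nat_lit 15), (nat_lit 50), (nat_lit 238), (nat_lit 30), (nat_lit 9)]⟩,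
 ⟨⟨[(nat_lit 140), (nat_lit 160)], [(nat_lit 0), (nat_lit 0)], [((nat_lit 0), (nat_lit 0), (nat_lit 0)), ((nat_lit 0), (nat_lit 0), (nat_lit 0))], ((nat_lit 100), (nat_lit 89), (nat_lit 22))⟩, (nat_lit 445289), (nat_lit 300), (nat_lit 378), (nat_lit 44594200), (nat_lit 138889), [(nat_lit 5915042000), (nat_lit 7135072000)], [], [(nat_lit 25765217848), (nat_lit 27839180456), (nat_lit 22240924252), (nat_lit 29291279256), (nat_lit 32289902568), (nat_lit 31282744648), (nat_lit 26764891780), (nat_lit 25422265850)], (nat_lit 780000), (nat_lit 1435001), (nat_lit 0), (nat_lit 490000), (nat_lit 1271251), (nat_lit 1271251), [(nat_lit 1977501), (nat_lit 1271251)], [(nat_lit 30), (nat_lit 62), (nat_lit 401), (nat_lit 175), (nat_lit 11)]⟩⟩) (.dle (nat_lit 0))) (.trZ (nat_lit 0) (nat_lit 1) (nat_lit 3) (nat_lit 100) (nat_lit 98) (nat_lit 64) (nat_lit 40) (.leaf ⟨(nat_lit 0), (nat_lit 747), (nat_lit 0), (nat_lit 253), (nat_lit 17920), (nat_lit 6407), (nat_lit 5678),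 (nat_lit 2934), (nat_lit 769749), (nat_lit 0), (nat_lit 0), [], Pd.none, Pd.none, (nat_lit 0), (nat_lit 1), (nat_lit 0), (nat_lit 0), (nat_lit 5), (nat_lit 0), [⟨(nat_lit 0), (nat_lit 100), (nat_lit 99), (nat_lit 72), (nat_lit 860760406)⟩], [⟨(nat_lit 0), (nat_lit 100), (nat_lit 95), (nat_lit 19), (nat_lit 384787578)⟩], [⟨(nat_lit 1), (nat_lit 54), (nat_lit 96), (nat_lit 100), (nat_lit 238452046)⟩], [],
 ⟨⟨[(nat_lit 80), (nat_lit 100)], [(nat_lit 0), (nat_lit 399)], [((nat_lit 0), (nat_lit 0), (nat_lit 0)), ((nat_lit 1000), (nat_lit 938), (nat_lit 310))], ((nat_lit 94), (nat_lit 100), (nat_lit 34))⟩, (nat_lit 8396362), (nat_lit 239), (nat_lit 239), (nat_lit 0), (nat_lit 59252), [(nat_lit 4688000015), (nat_lit 6250000000)], [], [(nat_lit 18671938177), (nat_lit 19690459000), (nat_lit 17374589240), (nat_lit 18305201979), (nat_lit 15350833886), (nat_lit 16307208171), (nat_lit 14429615259), (nat_lit 15300334021)], (nat_lit 1271251), (nat_lit 1271251), (nat_lit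 230000), (nat_lit 780000), (nat_lit 0), (nat_lit 490000), [(nat_lit 1100000), (nat_lit 1442501)], [(nat_lit 15), (nat_lit 50), (nat_lit 260), (nat_lit 50), (nat_lit 10)]⟩,
 ⟨⟨[(nat_lit 80), (nat_lit 100), (nat_lit 120)], [(nat_lit 0), (nat_lit 265), (nat_lit 768)], [((nat_lit 0), (nat_lit 0), (nat_lit 0)), ((nat_lit 1000), (nat_lit 959), (nat_lit 206)), ((nat_lit 1000), (nat_lit 958), (nat_lit 392))], ((nat_lit 95), (nat_lit 100), (nat_lit 34))⟩, (nat_lit 7510883), (nat_lit 194), (nat_lit 194), (nat_lit 0), (nat_lit 94806), [(nat_lit 4688000000), (nat_lit 6250000000), (nat_lit 7968000000)], [], [(nat_lit 19685616508), (nat_lit 21026704800), (nat_lit 18803664831), (nat_lit 20029386516), (nat_lit 31593997012), (nat_lit 32616709676), (nat_lit 29740045610), (nat_lit 30465367964)], (nat_lit 1271251), (nat_lit 1271251), (nat_lit 230000), (nat_lit 780000), (nat_lit 1271251), (nat_lit 1271251), [(nat_lit 1100000), (nat_lit 1442501), (nat_lit 1271251)], [(nat_lit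 16), (nat_lit 54), (nat_lit 373), (nat_lit 150), (nat_lit 12)]⟩,
 ⟨⟨[(nat_lit 140), (nat_lit 160), (nat_lit 180)], [(nat_lit 0), (nat_lit 0), (nat_lit 799)], [((nat_lit 0), (nat_lit 0), (nat_lit 0)), ((nat_lit 0), (nat_lit 0), (nat_lit 0)), ((nat_lit 728), (nat_lit 1000), (nat_lit 454))], ((nat_lit 100), (nat_lit 79), (nat_lit 37))⟩, (nat_lit 222285), (nat_lit 300), (nat_lit 640), (nat_lit 18772602), (nat_lit 540289), [(nat_lit 2490026000), (nat_lit 3003616000), (nat_lit 3556674000)], [], [(nat_lit 14883606066), (nat_lit 14318811595), (nat_lit 13157641887), (nat_lit 12559417301), (nat_lit 15391477680), (nat_lit 14625386494), (nat_lit 13529829740), (nat_lit 12800041390)], (nat_lit 780000), (nat_lit 1435001), (nat_lit 0), (nat_lit 490000), (nat_lit 1271251), (nat_lit 1271251), [(nat_lit 1977501), (nat_lit 1271251), (nat_lit 1271251)], [(nat_lit 31), (nat_lit 65), (nat_lit 401), (nat_lit 175), (nat_lit 10)]⟩⟩)))) (.dle (nat_lit 0))) (.trZ (nat_lit 0) (nat_lit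 2) (nat_lit 4) (nat_lit 100) (nat_lit 94) (nat_lit 35) (nat_lit 10) (.spl (nat_lit 5) (nat_lit 120) (.spl (nat_lit 1) (nat_lit 260) (.ord (.spl (nat_lit 6) (nat_lit 8) (.leaf ⟨(nat_lit 0), (nat_lit 1000), (nat_lit 0), (nat_lit 0), (nat_lit 25340), (nat_lit 6502), (nat_lit 8344), (nat_lit 0), (nat_lit 0), (nat_lit 24717003790480), (nat_lit 0), [], Pd.none, Pd.none, (nat_lit 0), (nat_lit 1), (nat_lit 0), (nat_lit 0), (nat_lit 5), (nat_lit 0), [⟨(nat_lit 0), (nat_lit 100), (nat_lit 96), (nat_lit 61), (nat_lit 100447702)⟩, ⟨(nat_lit 0), (nat_lit 100), (nat_lit 96), (nat_lit 69), (nat_lit 776469199)⟩], [⟨(nat_lit 0), (nat_lit 100), (nat_lit 96), (nat_lit 69), (nat_lit 103750837)⟩], [⟨(nat_lit 0), (nat_lit 100), (nat_lit 100), (nat_lit 60), (nat_lit 98152898)⟩], [],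
 ⟨⟨[(nat_lit 80), (nat_lit 100)], [(nat_lit 0), (nat_lit 399)], [((nat_lit 0), (nat_lit 0), (nat_lit 0)), ((nat_lit 1000), (nat_lit 938), (nat_lit 310))], ((nat_lit 94), (nat_lit 100), (nat_lit 28))⟩, (nat_lit 7957537), (nat_lit 239), (nat_lit 239), (nat_lit 0), (nat_lit 53321), [(nat_lit 4688000001), (nat_lit 6250000000)], [], [(nat_lit 18799572117), (nat_lit 19932485681), (nat_lit 16920388263), (nat_lit 17799173443), (nat_lit 15723557929), (nat_lit 16619707795), (nat_lit 14234054050), (nat_lit 15112624728)], (nat_lit 1271251), (nat_lit 1271251), (nat_lit 169688), (nat_lit 780000), (nat_lit 54688), (nat_lit 490000), [(nat_lit 1100000), (nat_lit 1442501)], [(nat_lit 15), (nat_lit 50), (nat_lit 260), (nat_lit 50), (nat_lit 10)]⟩,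
 ⟨⟨[(nat_lit 80), (nat_lit 100), (nat_lit 120)], [(nat_lit 0), (nat_lit 0), (nat_lit 511)], [((nat_lit 0), (nat_lit 0), (nat_lit 0)), ((nat_lit 0), (nat_lit 0), (nat_lit 0)), ((nat_lit 1000), (nat_lit 997), (nat_lit 383))], ((nat_lit 98), (nat_lit 100), (nat_lit 28))⟩, (nat_lit 9935417), (nat_lit 259), (nat_lit 259), (nat_lit 0), (nat_lit 58955), [(nat_lit 4688000000), (nat_lit 6250000000), (nat_lit 7968000000)], [], [(nat_lit 18467532349), (nat_lit 20873992176), (nat_lit 15056026816), (nat_lit 17081392368), (nat_lit 13505860456), (nat_lit 15481233869), (nat_lit 13731169656), (nat_lit 13130224260)], (nat_lit 1271251), (nat_lit 1271251), (nat_lit 169688), (nat_lit 780000), (nat_lit 0), (nat_lit 780000), [(nat_lit 1100000), (nat_lit 1442501), (nat_lit 1271251)], [(nat_lit 16), (nat_lit 54), (nat_lit 272), (nat_lit 60), (nat_lit 9)]⟩,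
 Rw.none⟩) (.dle (nat_lit 0)))) (.trZ (nat_lit 0) (nat_lit 1) (nat_lit 3) (nat_lit 100) (nat_lit 98) (nat_lit 64) (nat_lit 40) (.leaf ⟨(nat_lit 0), (nat_lit 1000), (nat_lit 0), (nat_lit 0), (nat_lit 24877), (nat_lit 8271), (nat_lit 8271), (nat_lit 0), (nat_lit 1352095601840), (nat_lit 12850807791080), (nat_lit 0), [], Pd.none, Pd.none, (nat_lit 0), (nat_lit 1), (nat_lit 0), (nat_lit 0), (nat_lit 5), (nat_lit 0), [⟨(nat_lit 0), (nat_lit 100), (nat_lit 99), (nat_lit 72), (nat_lit 922635475)⟩], [⟨(nat_lit 0), (nat_lit 100), (nat_lit 100), (nat_lit 80), (nat_lit 419904913)⟩], [⟨(nat_lit 0), (nat_lit 100), (nat_lit 100), (nat_lit 80), (nat_lit 131242874)⟩], [],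
 ⟨⟨[(nat_lit 80), (nat_lit 100), (nat_lit 120)], [(nat_lit 0), (nat_lit 399), (nat_lit 897)], [((nat_lit 0), (nat_lit 0), (nat_lit 0)), ((nat_lit 1000), (nat_lit 938), (nat_lit 310)), ((nat_lit 1000), (nat_lit 938), (nat_lit 389))], ((nat_lit 95), (nat_lit 100), (nat_lit 48))⟩, (nat_lit 8230411), (nat_lit 239), (nat_lit 239), (nat_lit 0), (nat_lit 124076), [(nat_lit 4688000007), (nat_lit 6250000061), (nat_lit 7968000000)], [], [(nat_lit 20160956424), (nat_lit 21830268953), (nat_lit 15463708842), (nat_lit 17020868336), (nat_lit 12705872868), (nat_lit 14270228473), (nat_lit 10620999288), (nat_lit 11617280637)], (nat_lit 1271251), (nat_lit 1271251), (nat_lit 230000), (nat_lit 780000), (nat_lit 54688), (nat_lit 490000), [(nat_lit 1100000), (nat_lit 1442501), (nat_lit 1271251)], [(nat_lit 16), (nat_lit 54), (nat_lit 260), (nat_lit 50), (nat_lit 9)]⟩,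
 ⟨⟨[(nat_lit 80), (nat_lit 100), (nat_lit 120)], [(nat_lit 0), (nat_lit 265), (nat_lit 768)], [((nat_lit 0), (nat_lit 0), (nat_lit 0)), ((nat_lit 1000), (nat_lit 959), (nat_lit 206)), ((nat_lit 1000), (nat_lit 958), (nat_lit 392))], ((nat_lit 97), (nat_lit 100), (nat_lit 48))⟩, (nat_lit 5912261), (nat_lit 250), (nat_lit 250), (nat_lit 0), (nat_lit 124997), [(nat_lit 4688000000), (nat_lit 6250000000), (nat_lit 7968000000)], [], [(nat_lit 20532868826), (nat_lit 22910686156), (nat_lit 17260909433), (nat_lit 19447815258), (nat_lit 14793006211), (nat_lit 16706164296), (nat_lit 12770584606), (nat_lit 14368696760)], (nat_lit 1271251), (nat_lit 1271251), (nat_lit 230000), (nat_lit 780000), (nat_lit 0), (nat_lit 780000), [(nat_lit 1100000), (nat_lit 1442501), (nat_lit 1271251)], [(nat_lit 16), (nat_lit 54), (nat_lit 272), (nat_lit 60), (nat_lit 9)]⟩,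
 Rw.none⟩))) (.spl (nat_lit 2) (nat_lit 240) (.spl (nat_lit 6) (nat_lit 12) (.leaf ⟨(nat_lit 0), (nat_lit 206), (nat_lit 0), (nat_lit 794), (nat_lit 78168), (nat_lit 6389), (nat_lit 4666), (nat_lit 3607), (nat_lit 23709), (nat_lit 0), (nat_lit 0), [], Pd.none, Pd.none, (nat_lit 0), (nat_lit 1), (nat_lit 0), (nat_lit 0), (nat_lit 5), (nat_lit 0), [⟨(nat_lit 0), (nat_lit 100), (nat_lit 97), (nat_lit 67), (nat_lit 1106834037)⟩], [⟨(nat_lit 0), (nat_lit 100), (nat_lit 93), (nat_lit 47), (nat_lit 1197568203)⟩], [], [],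
 ⟨⟨[(nat_lit 80), (nat_lit 100)], [(nat_lit 0), (nat_lit 399)], [((nat_lit 0), (nat_lit 0), (nat_lit 0)), ((nat_lit 1000), (nat_lit 938), (nat_lit 310))], ((nat_lit 94), (nat_lit 100), (nat_lit 34))⟩, (nat_lit 18255869), (nat_lit 239), (nat_lit 239), (nat_lit 0), (nat_lit 62872), [(nat_lit 4688000003), (nat_lit 6250000000)], [], [(nat_lit 18719061213), (nat_lit 19736002016), (nat_lit 17032776784), (nat_lit 17954304621), (nat_lit 15752948576), (nat_lit 16715530142), (nat_lit 14466668933), (nat_lit 15335899963)], (nat_lit 1271251), (nat_lit 1271251), (nat_lit 169688), (nat_lit 780000), (nat_lit 54688), (nat_lit 490000), [(nat_lit 1100000), (nat_lit 1442501)], [(nat_lit 15), (nat_lit 50), (nat_lit 260), (nat_lit 50), (nat_lit 10)]⟩,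
 ⟨⟨[(nat_lit 80), (nat_lit 100), (nat_lit 120)], [(nat_lit 0), (nat_lit 0), (nat_lit 511)], [((nat_lit 0), (nat_lit 0), (nat_lit 0)), ((nat_lit 0), (nat_lit 0), (nat_lit 0)), ((nat_lit 1000), (nat_lit 997), (nat_lit 383))], ((nat_lit 99), (nat_lit 100), (nat_lit 34))⟩, (nat_lit 10953696), (nat_lit 213), (nat_lit 213), (nat_lit 0), (nat_lit 134080), [(nat_lit 4688000000), (nat_lit 6250000000), (nat_lit 7968000000)], [], [(nat_lit 34413178814), (nat_lit 29569107340), (nat_lit 32267211174), (nat_lit 28954438550), (nat_lit 49706401560), (nat_lit 45547476777), (nat_lit 54197423360), (nat_lit 50154539664)], (nat_lit 1271251), (nat_lit 1271251), (nat_lit 169688), (nat_lit 780000), (nat_lit 780000), (nat_lit 3072501), [(nat_lit 1100000), (nat_lit 1442501), (nat_lit 1271251)], [(nat_lit 16), (nat_lit 54), (nat_lit 373), (nat_lit 150), (nat_lit 12)]⟩,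
 ⟨⟨[(nat_lit 100), (nat_lit 120), (nat_lit 140)], [(nat_lit 0), (nat_lit 0), (nat_lit 533)], [((nat_lit 0), (nat_lit 0), (nat_lit 0)), ((nat_lit 0), (nat_lit 0), (nat_lit 0)), ((nat_lit 924), (nat_lit 1000), (nat_lit 383))], ((nat_lit 100), (nat_lit 94), (nat_lit 34))⟩, (nat_lit 3693513), (nat_lit 300), (nat_lit 309), (nat_lit 52721600), (nat_lit 186708), [(nat_lit 4962500000), (nat_lit 6326592000), (nat_lit 7814548000)], [], [(nat_lit 30414070788), (nat_lit 31306160524), (nat_lit 29059560854), (nat_lit 29922984496), (nat_lit 37419948821), (nat_lit 37740644980), (nat_lit 37281910404), (nat_lit 36114984614)], (nat_lit 1271251), (nat_lit 1271251), (nat_lit 54688), (nat_lit 490000), (nat_lit 780000), (nat_lit 3072501), [(nat_lit 1412501), (nat_lit 1271251), (nat_lit 1271251)], [(nat_lit 22), (nat_lit 58), (nat_lit 428), (nat_lit 200), (nat_lit 13)]⟩⟩) (.dle (nat_lit 0))) (.trZ (nat_lit 0) (nat_lit 2) (nat_lit 4) (nat_lit 100) (nat_lit 96) (nat_lit 54)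 (nat_lit 30) (.leaf ⟨(nat_lit 0), (nat_lit 0), (nat_lit 0), (nat_lit 1000), (nat_lit 28756), (nat_lit 6894), (nat_lit 4118), (nat_lit 12139), (nat_lit 224985), (nat_lit 326635), (nat_lit 0), [], Pd.none, Pd.none, (nat_lit 0), (nat_lit 1), (nat_lit 0), (nat_lit 0), (nat_lit 0), (nat_lit 0), [⟨(nat_lit 0), (nat_lit 100), (nat_lit 97), (nat_lit 67), (nat_lit 794784915)⟩], [⟨(nat_lit 0), (nat_lit 100), (nat_lit 97), (nat_lit 67), (nat_lit 1024213446)⟩], [], [],
 ⟨⟨[(nat_lit 80), (nat_lit 100), (nat_lit 120)], [(nat_lit 0), (nat_lit 399), (nat_lit 897)], [((nat_lit 0), (nat_lit 0), (nat_lit 0)), ((nat_lit 1000), (nat_lit 938), (nat_lit 310)), ((nat_lit 1000), (nat_lit 938), (nat_lit 389))], ((nat_lit 95), (nat_lit 100), (nat_lit 48))⟩, (nat_lit 8407446), (nat_lit 234), (nat_lit 234), (nat_lit 0), (nat_lit 124098), [(nat_lit 4688000031), (nat_lit 6250000360), (nat_lit 7968000000)], [], [(nat_lit 17349935930), (nat_lit 18811284888), (nat_lit 15475355109),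 (nat_lit 16425892982), (nat_lit 14967633667), (nat_lit 15973734057), (nat_lit 13427106920), (nat_lit 14338077084)], (nat_lit 1271251), (nat_lit 1271251), (nat_lit 169688), (nat_lit 780000), (nat_lit 169688), (nat_lit 490000), [(nat_lit 1100000), (nat_lit 1442501), (nat_lit 1271251)], [(nat_lit 16), (nat_lit 54), (nat_lit 260), (nat_lit 50), (nat_lit 9)]⟩,
 ⟨⟨[(nat_lit 80), (nat_lit 120), (nat_lit 140)], [(nat_lit 0), (nat_lit 0), (nat_lit 1164)], [((nat_lit 0), (nat_lit 0), (nat_lit 0)), ((nat_lit 0), (nat_lit 0), (nat_lit 0)), ((nat_lit 941), (nat_lit 1000), (nat_lit 576))], ((nat_lit 100), (nat_lit 98), (nat_lit 48))⟩, (nat_lit 2904133), (nat_lit 319), (nat_lit 319), (nat_lit 0), (nat_lit 281716), [(nat_lit 4688000000), (nat_lit 7968000000), (nat_lit 9842000000)], [], [(nat_lit 36816375483), (nat_lit 36921067714), (nat_lit 34754937930), (nat_lit 36353105452), (nat_lit 44478243778), (nat_lit 44906950719), (nat_lit 48621984164), (nat_lit 45009130988)],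 (nat_lit 1271251), (nat_lit 1271251), (nat_lit 169688), (nat_lit 780000), (nat_lit 780000), (nat_lit 3072501), [(nat_lit 1100000), (nat_lit 1785001), (nat_lit 1271251)], [(nat_lit 17), (nat_lit 58), (nat_lit 428), (nat_lit 200), (nat_lit 12)]⟩,
 ⟨⟨[(nat_lit 80), (nat_lit 120), (nat_lit 140)], [(nat_lit 0), (nat_lit 0), (nat_lit 1164)], [((nat_lit 0), (nat_lit 0), (nat_lit 0)), ((nat_lit 0), (nat_lit 0), (nat_lit 0)), ((nat_lit 941), (nat_lit 1000), (nat_lit 576))], ((nat_lit 100), (nat_lit 98), (nat_lit 48))⟩, (nat_lit 469072), (nat_lit 300), (nat_lit 319), (nat_lit 66400002), (nat_lit 281716), [(nat_lit 4688000000), (nat_lit 7968000000), (nat_lit 9842000000)], [], [(nat_lit 29000116127), (nat_lit 31620680892), (nat_lit 24917627674), (nat_lit 26903842843), (nat_lit 63943823030), (nat_lit 53260465145), (nat_lit 67298600384), (nat_lit 56782366182)], (nat_lit 1271251), (nat_lit 1271251), (nat_lit 169688), (nat_lit 490000), (nat_lit 780000), (nat_lit 3072501),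 [(nat_lit 1100000), (nat_lit 1785001), (nat_lit 1271251)], [(nat_lit 17), (nat_lit 58), (nat_lit 428), (nat_lit 200), (nat_lit 12)]⟩⟩)))))))
noncomputable def c2_2 : Tr Lf :=
 (.spl (nat_lit 3) (nat_lit 80) (.spl (nat_lit 2) (nat_lit 200) (.spl (nat_lit 6) (nat_lit 12) (.leaf ⟨(nat_lit 1000), (nat_lit 0), (nat_lit 0), (nat_lit 0), (nat_lit 11552), (nat_lit 6830), (nat_lit 0), (nat_lit 0), (nat_lit 7006590142137), (nat_lit 0), (nat_lit 597900), [((nat_lit 280), [((nat_lit 9), (nat_lit 0), (nat_lit 6)), ((nat_lit 31), (nat_lit 2), (nat_lit 994))])], ⟨(nat_lit 6), false, false, false, (nat_lit 111), (nat_lit 5477), (nat_lit 5917), [(nat_lit 1189276), (nat_lit 1205514), (nat_lit 1231955), (nat_lit 1248228), (nat_lit 1307076), (nat_lit 1317913), (nat_lit 1349755), (nat_lit 1360628)]⟩, ⟨(nat_lit 3), false, false, false, (nat_lit 106), (nat_lit 5477), (nat_lit 5917), [(nat_lit 1179041), (nat_lit 1189771), (nat_lit 1264398), (nat_lit 1275199), (nat_lit 1257574),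 (nat_lit 1264704), (nat_lit 1342931), (nat_lit 1350132)]⟩, (nat_lit 2826666), (nat_lit 56793620), (nat_lit 5259322), (nat_lit 4947058), (nat_lit 0), (nat_lit 0), [⟨(nat_lit 0), (nat_lit 100), (nat_lit 100), (nat_lit 80), (nat_lit 469835348)⟩], [], [], [],
 ⟨⟨[(nat_lit 80), (nat_lit 100), (nat_lit 120)], [(nat_lit 0), (nat_lit 265), (nat_lit 768)], [((nat_lit 0), (nat_lit 0), (nat_lit 0)), ((nat_lit 1000), (nat_lit 959), (nat_lit 206)), ((nat_lit 1000), (nat_lit 958), (nat_lit 392))], ((nat_lit 95), (nat_lit 100), (nat_lit 34))⟩, (nat_lit 4577743), (nat_lit 214), (nat_lit 214), (nat_lit 0), (nat_lit 60025), [(nat_lit 2661052841), (nat_lit 2768304481), (nat_lit 2492801119)], [(nat_lit 0), (nat_lit 0), (nat_lit 0)], [(nat_lit 12155618298), (nat_lit 15016192625), (nat_lit 8717846317), (nat_lit 10490093407), (nat_lit 12451259359), (nat_lit 15160574943), (nat_lit 9203610447), (nat_lit 10871637047)], (nat_lit 1271251), (nat_lit 1271251), (nat_lit 111251),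 (nat_lit 490000), (nat_lit 490000), (nat_lit 780000), [(nat_lit 1100000), (nat_lit 1442501), (nat_lit 1271251)], [(nat_lit 16), (nat_lit 54), (nat_lit 260), (nat_lit 50), (nat_lit 9)]⟩,
 Rw.none,
 Rw.none⟩) (.dle (nat_lit 0))) (.spl (nat_lit 5) (nat_lit 120) (.spl (nat_lit 1) (nat_lit 260) (.ord (.spl (nat_lit 6) (nat_lit 8) (.leaf ⟨(nat_lit 0), (nat_lit 645), (nat_lit 132), (nat_lit 223), (nat_lit 31638), (nat_lit 6689), (nat_lit 7140), (nat_lit 5756), (nat_lit 0), (nat_lit 65850), (nat_lit 0), [], Pd.none, Pd.none, (nat_lit 0), (nat_lit 1), (nat_lit 0), (nat_lit 0), (nat_lit 5), (nat_lit 6), [⟨(nat_lit 0), (nat_lit 100), (nat_lit 97), (nat_lit 59), (nat_lit 1386344648)⟩], [], [⟨(nat_lit 0), (nat_lit 100), (nat_lit 98), (nat_lit 40), (nat_lit 244507746)⟩], [],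
 ⟨⟨[(nat_lit 80), (nat_lit 100)], [(nat_lit 0), (nat_lit 265)], [((nat_lit 0), (nat_lit 0), (nat_lit 0)), ((nat_lit 1000), (nat_lit 959), (nat_lit 206))], ((nat_lit 95), (nat_lit 100), (nat_lit 28))⟩, (nat_lit 124441), (nat_lit 214), (nat_lit 214), (nat_lit 0), (nat_lit 54019), [(nat_lit 4688000043), (nat_lit 6250000000)], [], [(nat_lit 12504140191), (nat_lit 14903436688), (nat_lit 9448876123), (nat_lit 11746136559), (nat_lit 13068931779), (nat_lit 15331144934), (nat_lit 10112427983), (nat_lit 12276347262)], (nat_lit 1271251), (nat_lit 1271251), (nat_lit 111251), (nat_lit 490000), (nat_lit 490000), (nat_lit 780000), [(nat_lit 1100000), (nat_lit 1442501)], [(nat_lit 15), (nat_lit 50), (nat_lit 260), (nat_lit 50), (nat_lit 10)]⟩,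
 ⟨⟨[(nat_lit 80), (nat_lit 100), (nat_lit 120)], [(nat_lit 0), (nat_lit 0), (nat_lit 511)], [((nat_lit 0), (nat_lit 0), (nat_lit 0)), ((nat_lit 0), (nat_lit 0), (nat_lit 0)), ((nat_lit 1000), (nat_lit 997), (nat_lit 383))], ((nat_lit 98), (nat_lit 100), (nat_lit 28))⟩, (nat_lit 9388487), (nat_lit 264), (nat_lit 264), (nat_lit 0), (nat_lit 58955), [(nat_lit 4069184000), (nat_lit 5425000000), (nat_lit 6916224000)], [], [(nat_lit 16491398980), (nat_lit 18989687262), (nat_lit 12828841872), (nat_lit 14682278800), (nat_lit 12346265428), (nat_lit 14059202910), (nat_lit 10110252544), (nat_lit 11333626822)], (nat_lit 1271251), (nat_lit 1271251), (nat_lit 111251), (nat_lit 490000), (nat_lit 0), (nat_lit 780000), [(nat_lit 1100000), (nat_lit 1442501), (nat_lit 1271251)], [(nat_lit 16), (nat_lit 54), (nat_lit 260), (nat_lit 50), (nat_lit 9)]⟩,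
 ⟨⟨[(nat_lit 100), (nat_lit 120), (nat_lit 140)], [(nat_lit 0), (nat_lit 0), (nat_lit 533)], [((nat_lit 0), (nat_lit 0), (nat_lit 0)), ((nat_lit 0), (nat_lit 0), (nat_lit 0)), ((nat_lit 924), (nat_lit 1000), (nat_lit 383))], ((nat_lit 100), (nat_lit 96), (nat_lit 28))⟩, (nat_lit 5978835), (nat_lit 254), (nat_lit 254), (nat_lit 0), (nat_lit 62158), [(nat_lit 2218750000), (nat_lit 2828640000), (nat_lit 3493910000)], [], [(nat_lit 11441719864), (nat_lit 7438025935), (nat_lit 12833680324), (nat_lit 7158412956), (nat_lit 13575804612), (nat_lit 5342543088), (nat_lit 15200621174), (nat_lit 7077369761)], (nat_lit 1271251), (nat_lit 1271251), (nat_lit 490000), (nat_lit 780000), (nat_lit 0), (nat_lit 780000), [(nat_lit 1412501), (nat_lit 1271251), (nat_lit 1271251)], [(nat_lit 22), (nat_lit 58), (nat_lit 345), (nat_lit 125), (nat_lit 10)]⟩⟩) (.dle (nat_lit 0)))) (.trZ (nat_lit 0) (nat_lit 1) (nat_lit 3) (nat_lit 100) (nat_lit 100) (nat_lit 60) (nat_lit 30) (.leaf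 ⟨(nat_lit 0), (nat_lit 685), (nat_lit 0), (nat_lit 315), (nat_lit 32444), (nat_lit 9103), (nat_lit 8135), (nat_lit 6563), (nat_lit 900744), (nat_lit 7769530443801), (nat_lit 0), [], Pd.none, Pd.none, (nat_lit 0), (nat_lit 1), (nat_lit 0), (nat_lit 0), (nat_lit 5), (nat_lit 0), [⟨(nat_lit 0), (nat_lit 100), (nat_lit 100), (nat_lit 70), (nat_lit 1459285668)⟩], [], [⟨(nat_lit 0), (nat_lit 100), (nat_lit 100), (nat_lit 80), (nat_lit 340790495)⟩], [],
 ⟨⟨[(nat_lit 80), (nat_lit 100), (nat_lit 120)], [(nat_lit 0), (nat_lit 265), (nat_lit 768)], [((nat_lit 0), (nat_lit 0), (nat_lit 0)), ((nat_lit 1000), (nat_lit 959), (nat_lit 206)), ((nat_lit 1000), (nat_lit 958), (nat_lit 392))], ((nat_lit 97), (nat_lit 100), (nat_lit 48))⟩, (nat_lit 8736293), (nat_lit 214), (nat_lit 214), (nat_lit 0), (nat_lit 125046), [(nat_lit 4688000264), (nat_lit 6250000474), (nat_lit 7968000000)], [], [(nat_lit 12598553414), (nat_lit 15772312001), (nat_lit 8721256413), (nat_lit 11063856440),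 (nat_lit 12656541231), (nat_lit 15659973950), (nat_lit 8939550425), (nat_lit 11084664502)], (nat_lit 1271251), (nat_lit 1271251), (nat_lit 169688), (nat_lit 490000), (nat_lit 490000), (nat_lit 780000), [(nat_lit 1100000), (nat_lit 1442501), (nat_lit 1271251)], [(nat_lit 16), (nat_lit 54), (nat_lit 260), (nat_lit 50), (nat_lit 9)]⟩,
 ⟨⟨[(nat_lit 80), (nat_lit 100), (nat_lit 120)], [(nat_lit 0), (nat_lit 265), (nat_lit 768)], [((nat_lit 0), (nat_lit 0), (nat_lit 0)), ((nat_lit 1000), (nat_lit 959), (nat_lit 206)), ((nat_lit 1000), (nat_lit 958), (nat_lit 392))], ((nat_lit 97), (nat_lit 100), (nat_lit 48))⟩, (nat_lit 7062976), (nat_lit 260), (nat_lit 260), (nat_lit 0), (nat_lit 125046), [(nat_lit 4688000000), (nat_lit 6250000000), (nat_lit 7968000000)], [], [(nat_lit 20540335122), (nat_lit 23863782939), (nat_lit 17897012250), (nat_lit 19319633262), (nat_lit 20787481455), (nat_lit 17906138466), (nat_lit 22637125973), (nat_lit 18776755275)], (nat_lit 1271251),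 (nat_lit 1271251), (nat_lit 169688), (nat_lit 490000), (nat_lit 0), (nat_lit 780000), [(nat_lit 1100000), (nat_lit 1442501), (nat_lit 1271251)], [(nat_lit 16), (nat_lit 54), (nat_lit 260), (nat_lit 50), (nat_lit 9)]⟩,
 ⟨⟨[(nat_lit 100), (nat_lit 140), (nat_lit 160)], [(nat_lit 0), (nat_lit 0), (nat_lit 1280)], [((nat_lit 0), (nat_lit 0), (nat_lit 0)), ((nat_lit 0), (nat_lit 0), (nat_lit 0)), ((nat_lit 800), (nat_lit 1000), (nat_lit 600))], ((nat_lit 100), (nat_lit 88), (nat_lit 47))⟩, (nat_lit 153563), (nat_lit 300), (nat_lit 367), (nat_lit 22144500), (nat_lit 139793), [(nat_lit 1968750000), (nat_lit 3100230000), (nat_lit 3739680000)], [], [(nat_lit 12864996332), (nat_lit 14103637170), (nat_lit 11989281307), (nat_lit 13266449429), (nat_lit 11534137701), (nat_lit 8476633390), (nat_lit 13282621040), (nat_lit 7558032033)], (nat_lit 1271251), (nat_lit 1271251), (nat_lit 490000), (nat_lit 780000), (nat_lit 0), (nat_lit 780000), [(nat_lit 1412501), (nat_lit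 1271251), (nat_lit 1271251)], [(nat_lit 23), (nat_lit 62), (nat_lit 373), (nat_lit 150), (nat_lit 10)]⟩⟩))) (.leaf ⟨(nat_lit 0), (nat_lit 0), (nat_lit 0), (nat_lit 1000), (nat_lit 31842), (nat_lit 9137), (nat_lit 6505), (nat_lit 11323), (nat_lit 14039), (nat_lit 7936286325679), (nat_lit 0), [], Pd.none, Pd.none, (nat_lit 0), (nat_lit 1), (nat_lit 0), (nat_lit 0), (nat_lit 0), (nat_lit 0), [⟨(nat_lit 0), (nat_lit 100), (nat_lit 98), (nat_lit 64), (nat_lit 1557574791)⟩], [], [], [],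
 ⟨⟨[(nat_lit 80), (nat_lit 100), (nat_lit 120)], [(nat_lit 0), (nat_lit 265), (nat_lit 768)], [((nat_lit 0), (nat_lit 0), (nat_lit 0)), ((nat_lit 1000), (nat_lit 959), (nat_lit 206)), ((nat_lit 1000), (nat_lit 958), (nat_lit 392))], ((nat_lit 97), (nat_lit 100), (nat_lit 48))⟩, (nat_lit 9571688), (nat_lit 219), (nat_lit 219), (nat_lit 0), (nat_lit 125139), [(nat_lit 4688000020), (nat_lit 6250000007), (nat_lit 7968000000)], [], [(nat_lit 13338009436), (nat_lit 16861071688), (nat_lit 8321813778), (nat_lit 10464086918), (nat_lit 13363069100), (nat_lit 16693299026), (nat_lit 8648304935), (nat_lit 10657698325)], (nat_lit 1271251), (nat_lit 1271251), (nat_lit 111251), (nat_lit 490000), (nat_lit 490000), (nat_lit 780000), [(nat_lit 1100000), (nat_lit 1442501), (nat_lit 1271251)], [(nat_lit 16), (nat_lit 54), (nat_lit 260), (nat_lit 50), (nat_lit 9)]⟩,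
 ⟨⟨[(nat_lit 80), (nat_lit 120), (nat_lit 140)], [(nat_lit 0), (nat_lit 0), (nat_lit 1164)], [((nat_lit 0), (nat_lit 0), (nat_lit 0)), ((nat_lit 0), (nat_lit 0), (nat_lit 0)), ((nat_lit 941), (nat_lit 1000), (nat_lit 576))], ((nat_lit 100), (nat_lit 98), (nat_lit 48))⟩, (nat_lit 3145670), (nat_lit 327), (nat_lit 327), (nat_lit 0), (nat_lit 282303), [(nat_lit 4688000000), (nat_lit 7968000000), (nat_lit 9842000000)], [], [(nat_lit 32378572478), (nat_lit 32194619019), (nat_lit 32627384830), (nat_lit 30029541800), (nat_lit 56892344395), (nat_lit 51149476700), (nat_lit 59594353280), (nat_lit 53958954690)], (nat_lit 1271251), (nat_lit 1271251), (nat_lit 111251), (nat_lit 490000), (nat_lit 780000), (nat_lit 3072501), [(nat_lit 1100000), (nat_lit 1785001), (nat_lit 1271251)], [(nat_lit 17), (nat_lit 58), (nat_lit 428), (nat_lit 200), (nat_lit 12)]⟩,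
 ⟨⟨[(nat_lit 100), (nat_lit 140), (nat_lit 160)], [(nat_lit 0), (nat_lit 0), (nat_lit 1280)], [((nat_lit 0), (nat_lit 0), (nat_lit 0)), ((nat_lit 0), (nat_lit 0), (nat_lit 0)), ((nat_lit 800), (nat_lit 1000), (nat_lit 600))], ((nat_lit 100), (nat_lit 88), (nat_lit 47))⟩, (nat_lit 487500), (nat_lit 300), (nat_lit 344), (nat_lit 70300000), (nat_lit 313293), [(nat_lit 6250000000), (nat_lit 9842000000), (nat_lit 11872000000)], [], [(nat_lit 35217635995), (nat_lit 37659332871), (nat_lit 34157118993), (nat_lit 36386369898), (nat_lit 55520760660), (nat_lit 42840050036), (nat_lit 59354755048), (nat_lit 41015916207)], (nat_lit 1271251), (nat_lit 1271251), (nat_lit 490000), (nat_lit 780000), (nat_lit 780000), (nat_lit 3072501), [(nat_lit 1412501), (nat_lit 1271251), (nat_lit 1271251)], [(nat_lit 23), (nat_lit 62), (nat_lit 428), (nat_lit 200), (nat_lit 11)]⟩⟩))) (.spl (nat_lit 2) (nat_lit 200) (.spl (nat_lit 6) (nat_lit 12) (.leaf ⟨(nat_lit 987), (nat_lit 9),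 (nat_lit 0), (nat_lit 4), (nat_lit 576), (nat_lit 6526), (nat_lit 151), (nat_lit 52), (nat_lit 4634645043014), (nat_lit 0), (nat_lit 246750), [((nat_lit 280), [((nat_lit 9), (nat_lit 0), (nat_lit 987))])], ⟨(nat_lit 6), false, false, false, (nat_lit 149), (nat_lit 5477), (nat_lit 5917), [(nat_lit 1307076), (nat_lit 1317913), (nat_lit 1349755), (nat_lit 1360628), (nat_lit 1385610), (nat_lit 1392847), (nat_lit 1428288), (nat_lit 1435561)]⟩, ⟨(nat_lit 3), false, false, false, (nat_lit 106), (nat_lit 5477), (nat_lit 5917), [(nat_lit 1179041), (nat_lit 1189771), (nat_lit 1264398), (nat_lit 1275199), (nat_lit 1257574), (nat_lit 1264704), (nat_lit 1342931), (nat_lit 1350132)]⟩, (nat_lit 3367773), (nat_lit 53583808), (nat_lit 8417448), (nat_lit 4998744), (nat_lit 3), (nat_lit 0), [], [], [], [],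
 ⟨⟨[(nat_lit 80), (nat_lit 100), (nat_lit 120)], [(nat_lit 0), (nat_lit 265), (nat_lit 768)], [((nat_lit 0), (nat_lit 0), (nat_lit 0)), ((nat_lit 1000), (nat_lit 959), (nat_lit 206)), ((nat_lit 1000), (nat_lit 958), (nat_lit 392))], ((nat_lit 95), (nat_lit 100), (nat_lit 34))⟩, (nat_lit 0), (nat_lit 184), (nat_lit 184), (nat_lit 0), (nat_lit 60025), [(nat_lit 3125057742), (nat_lit 90034067639), (nat_lit 3414376800)], [(nat_lit 0), (nat_lit 0), (nat_lit 0)], [(nat_lit 8095271462), (nat_lit 10492771364), (nat_lit 8768255235), (nat_lit 10897958288), (nat_lit 8768255235), (nat_lit 10897958288), (nat_lit 9393416623), (nat_lit 11399550756)], (nat_lit 1271251), (nat_lit 1271251), (nat_lit 490000), (nat_lit 780000), (nat_lit 490000), (nat_lit 780000), [(nat_lit 1100000), (nat_lit 1442501), (nat_lit 1271251)], [(nat_lit 16), (nat_lit 54), (nat_lit 272), (nat_lit 60), (nat_lit 9)]⟩,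
 ⟨⟨[(nat_lit 80), (nat_lit 100), (nat_lit 120)], [(nat_lit 0), (nat_lit 0), (nat_lit 511)], [((nat_lit 0), (nat_lit 0), (nat_lit 0)), ((nat_lit 0), (nat_lit 0), (nat_lit 0)), ((nat_lit 1000), (nat_lit 997), (nat_lit 383))], ((nat_lit 99), (nat_lit 100), (nat_lit 34))⟩, (nat_lit 0), (nat_lit 237), (nat_lit 237), (nat_lit 0), (nat_lit 98568), [(nat_lit 60944000), (nat_lit 81250000), (nat_lit 103584000)], [], [(nat_lit 652608816), (nat_lit 494131900), (nat_lit 494131900), (nat_lit 337987481), (nat_lit 701186188), (nat_lit 570372170), (nat_lit 760612170), (nat_lit 631377612)], (nat_lit 1271251), (nat_lit 1271251), (nat_lit 490000), (nat_lit 780000), (nat_lit 0), (nat_lit 2825001), [(nat_lit 1100000), (nat_lit 1442501), (nat_lit 1271251)], [(nat_lit 16), (nat_lit 54), (nat_lit 373), (nat_lit 150), (nat_lit 13)]⟩,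
 ⟨⟨[(nat_lit 140), (nat_lit 160), (nat_lit 180)], [(nat_lit 0), (nat_lit 0), (nat_lit 799)], [((nat_lit 0), (nat_lit 0), (nat_lit 0)), ((nat_lit 0), (nat_lit 0), (nat_lit 0)), ((nat_lit 728), (nat_lit 1000), (nat_lit 454))], ((nat_lit 100), (nat_lit 79), (nat_lit 37))⟩, (nat_lit 3514), (nat_lit 300), (nat_lit 721), (nat_lit 296802), (nat_lit 540290), [(nat_lit 39368000), (nat_lit 47488000), (nat_lit 56232000)], [], [(nat_lit 262062100), (nat_lit 238496488), (nat_lit 242700834), (nat_lit 229812556), (nat_lit 250543936), (nat_lit 303978136), (nat_lit 268713920), (nat_lit 323316872)], (nat_lit 780000), (nat_lit 1435001), (nat_lit 490000), (nat_lit 780000), (nat_lit 0), (nat_lit 2825001), [(nat_lit 1977501), (nat_lit 1271251), (nat_lit 1271251)], [(nat_lit 31), (nat_lit 65), (nat_lit 428), (nat_lit 200), (nat_lit 10)]⟩⟩) (.dle (nat_lit 0))) (.leaf ⟨(nat_lit 630), (nat_lit 227), (nat_lit 0), (nat_lit 143), (nat_lit 1690), (nat_lit 6749), (nat_lit 1938),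 (nat_lit 1747), (nat_lit 1082058), (nat_lit 4737294659349), (nat_lit 157500), [((nat_lit 280), [((nat_lit 9), (nat_lit 0), (nat_lit 630))])], ⟨(nat_lit 6), false, false, false, (nat_lit 149), (nat_lit 5477), (nat_lit 5917), [(nat_lit 1307076), (nat_lit 1317913), (nat_lit 1349755), (nat_lit 1360628), (nat_lit 1385610), (nat_lit 1392847), (nat_lit 1428288), (nat_lit 1435561)]⟩, ⟨(nat_lit 5), false, false, false, (nat_lit 140), (nat_lit 5477), (nat_lit 5917), [(nat_lit 1264398), (nat_lit 1275199), (nat_lit 1349755), (nat_lit 1360628), (nat_lit 1342931), (nat_lit 1350132), (nat_lit 1428288), (nat_lit 1435561)]⟩, (nat_lit 3824408), (nat_lit 50992906), (nat_lit 8370281), (nat_lit 7636813), (nat_lit 5), (nat_lit 0), [], [], [], [],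
 ⟨⟨[(nat_lit 80), (nat_lit 100), (nat_lit 120)], [(nat_lit 0), (nat_lit 265), (nat_lit 768)], [((nat_lit 0), (nat_lit 0), (nat_lit 0)), ((nat_lit 1000), (nat_lit 959), (nat_lit 206)), ((nat_lit 1000), (nat_lit 958), (nat_lit 392))], ((nat_lit 97), (nat_lit 100), (nat_lit 48))⟩, (nat_lit 0), (nat_lit 189), (nat_lit 189), (nat_lit 0), (nat_lit 125139), [(nat_lit 3351825043), (nat_lit 90418858259), (nat_lit 5061432000)], [(nat_lit 0), (nat_lit 0), (nat_lit 0)], [(nat_lit 8035644323), (nat_lit 10490321486), (nat_lit 8695724313), (nat_lit 10872589375), (nat_lit 8695724313), (nat_lit 10872589375), (nat_lit 9307073750), (nat_lit 11356608254)], (nat_lit 1271251), (nat_lit 1271251), (nat_lit 490000), (nat_lit 780000), (nat_lit 490000), (nat_lit 780000), [(nat_lit 1100000), (nat_lit 1442501), (nat_lit 1271251)], [(nat_lit 16), (nat_lit 54), (nat_lit 272), (nat_lit 60), (nat_lit 9)]⟩,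
 ⟨⟨[(nat_lit 80), (nat_lit 120), (nat_lit 140)], [(nat_lit 0), (nat_lit 0), (nat_lit 1164)], [((nat_lit 0), (nat_lit 0), (nat_lit 0)), ((nat_lit 0), (nat_lit 0), (nat_lit 0)), ((nat_lit 941), (nat_lit 1000), (nat_lit 576))], ((nat_lit 100), (nat_lit 98), (nat_lit 48))⟩, (nat_lit 1156595), (nat_lit 351), (nat_lit 351), (nat_lit 0), (nat_lit 282303), [(nat_lit 1734560000), (nat_lit 2948160000), (nat_lit 3641540000)], [], [(nat_lit 15036045248), (nat_lit 13004192376), (nat_lit 13002083240), (nat_lit 13066751154), (nat_lit 19123858968), (nat_lit 17444934684), (nat_lit 20122214684), (nat_lit 18463561880)], (nat_lit 1271251), (nat_lit 1271251), (nat_lit 490000), (nat_lit 780000), (nat_lit 0), (nat_lit 2825001), [(nat_lit 1100000), (nat_lit 1785001), (nat_lit 1271251)], [(nat_lit 17), (nat_lit 58), (nat_lit 428), (nat_lit 200), (nat_lit 13)]⟩,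
 ⟨⟨[(nat_lit 100), (nat_lit 140), (nat_lit 160)], [(nat_lit 0), (nat_lit 0), (nat_lit 1280)], [((nat_lit 0), (nat_lit 0), (nat_lit 0)), ((nat_lit 0), (nat_lit 0), (nat_lit 0)), ((nat_lit 800), (nat_lit 1000), (nat_lit 600))], ((nat_lit 100), (nat_lit 88), (nat_lit 47))⟩, (nat_lit 69715), (nat_lit 300), (nat_lit 448), (nat_lit 10052900), (nat_lit 313293), [(nat_lit 893750000), (nat_lit 1407406000), (nat_lit 1697696000)], [], [(nat_lit 6369261215), (nat_lit 6587767385), (nat_lit 6160803032), (nat_lit 6366059367), (nat_lit 9887398676), (nat_lit 6860001412), (nat_lit 10566100044), (nat_lit 7575265743)], (nat_lit 1271251), (nat_lit 1271251), (nat_lit 490000), (nat_lit 780000), (nat_lit 0), (nat_lit 2825001), [(nat_lit 1412501), (nat_lit 1271251), (nat_lit 1271251)], [(nat_lit 23), (nat_lit 62), (nat_lit 428), (nat_lit 200), (nat_lit 11)]⟩⟩)))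
noncomputable def c2_3 : Tr Lf :=
 (.spl (nat_lit 3) (nat_lit 200) (.stt (nat_lit 2) (.spl (nat_lit 5) (nat_lit 200) (.leaf ⟨(nat_lit 0), (nat_lit 1000), (nat_lit 0), (nat_lit 0), (nat_lit 24585), (nat_lit 9670), (nat_lit 13637), (nat_lit 0), (nat_lit 39806412383110), (nat_lit 16906343291565), (nat_lit 0), [], Pd.none, Pd.none, (nat_lit 0), (nat_lit 1), (nat_lit 0), (nat_lit 0), (nat_lit 3), (nat_lit 0), [], [], [⟨(nat_lit 0), (nat_lit 100), (nat_lit 100), (nat_lit 80), (nat_lit 84925121)⟩], [],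
 ⟨⟨[(nat_lit 80), (nat_lit 100), (nat_lit 120)], [(nat_lit 0), (nat_lit 265), (nat_lit 768)], [((nat_lit 0), (nat_lit 0), (nat_lit 0)), ((nat_lit 1000), (nat_lit 959), (nat_lit 206)), ((nat_lit 1000), (nat_lit 958), (nat_lit 392))], ((nat_lit 97), (nat_lit 100), (nat_lit 48))⟩, (nat_lit 15662627), (nat_lit 257), (nat_lit 257), (nat_lit 0), (nat_lit 273828), [(nat_lit 4688000096), (nat_lit 6250000021), (nat_lit 7968000000)], [], [(nat_lit 23786378717), (nat_lit 19215834160), (nat_lit 22292597113), (nat_lit 21635782260), (nat_lit 18510980621), (nat_lit 13983194103), (nat_lit 28474010326), (nat_lit 24064956903)], (nat_lit 1271251), (nat_lit 1271251), (nat_lit 780000), (nat_lit 1435001), (nat_lit 0), (nat_lit 780000), [(nat_lit 1100000), (nat_lit 1442501), (nat_lit 1271251)], [(nat_lit 16), (nat_lit 54), (nat_lit 317), (nat_lit 100), (nat_lit 10)]⟩,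
 ⟨⟨[(nat_lit 80), (nat_lit 120), (nat_lit 140)], [(nat_lit 0), (nat_lit 0), (nat_lit 1164)], [((nat_lit 0), (nat_lit 0), (nat_lit 0)), ((nat_lit 0), (nat_lit 0), (nat_lit 0)), ((nat_lit 941), (nat_lit 1000), (nat_lit 576))], ((nat_lit 100), (nat_lit 98), (nat_lit 48))⟩, (nat_lit 5298392), (nat_lit 169), (nat_lit 169), (nat_lit 0), (nat_lit 0), [(nat_lit 4688000000), (nat_lit 7968000000), (nat_lit 9842000000)], [], [(nat_lit 19076741280), (nat_lit 24545699529), (nat_lit 20600227200), (nat_lit 25311841394), (nat_lit 10225258275), (nat_lit 14885191203), (nat_lit 11743325028), (nat_lit 15665059084)], (nat_lit 0), (nat_lit 0), (nat_lit 0), (nat_lit 0), (nat_lit 0), (nat_lit 0), [], [(nat_lit 17), (nat_lit 58), (nat_lit 401), (nat_lit 175), (nat_lit 12)]⟩,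
 Rw.none⟩) (.leaf ⟨(nat_lit 0), (nat_lit 535), (nat_lit 0), (nat_lit 465), (nat_lit 28806), (nat_lit 7358), (nat_lit 8830), (nat_lit 5084), (nat_lit 18295689226246), (nat_lit 47898), (nat_lit 0), [], Pd.none, Pd.none, (nat_lit 0), (nat_lit 1), (nat_lit 0), (nat_lit 0), (nat_lit 5), (nat_lit 0), [], [⟨(nat_lit 0), (nat_lit 100), (nat_lit 94), (nat_lit 35), (nat_lit 194536123)⟩], [], [⟨(nat_lit 1), (nat_lit 88), (nat_lit 100), (nat_lit 32), (nat_lit 227297489)⟩],
 ⟨⟨[(nat_lit 80), (nat_lit 100), (nat_lit 120)], [(nat_lit 0), (nat_lit 265), (nat_lit 768)], [((nat_lit 0), (nat_lit 0), (nat_lit 0)), ((nat_lit 1000), (nat_lit 959), (nat_lit 206)), ((nat_lit 1000), (nat_lit 958), (nat_lit 392))], ((nat_lit 97), (nat_lit 100), (nat_lit 48))⟩, (nat_lit 21321904), (nat_lit 257), (nat_lit 257), (nat_lit 0), (nat_lit 273828), [(nat_lit 4688000112), (nat_lit 6250000015), (nat_lit 7968000000)], [], [(nat_lit 20885579099), (nat_lit 17081557130), (nat_lit 22028194231),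 (nat_lit 19493533924), (nat_lit 19270268337), (nat_lit 15825030157), (nat_lit 27477654254), (nat_lit 24122761277)], (nat_lit 1271251), (nat_lit 1271251), (nat_lit 780000), (nat_lit 1435001), (nat_lit 0), (nat_lit 780000), [(nat_lit 1100000), (nat_lit 1442501), (nat_lit 1271251)], [(nat_lit 16), (nat_lit 54), (nat_lit 317), (nat_lit 100), (nat_lit 10)]⟩,
 ⟨⟨[(nat_lit 80), (nat_lit 120), (nat_lit 140)], [(nat_lit 0), (nat_lit 0), (nat_lit 1164)], [((nat_lit 0), (nat_lit 0), (nat_lit 0)), ((nat_lit 0), (nat_lit 0), (nat_lit 0)), ((nat_lit 941), (nat_lit 1000), (nat_lit 576))], ((nat_lit 100), (nat_lit 98), (nat_lit 48))⟩, (nat_lit 0), (nat_lit 116), (nat_lit 116), (nat_lit 0), (nat_lit 0), [(nat_lit 4688000000), (nat_lit 7968000000), (nat_lit 9842000000)], [], [(nat_lit 16360368440), (nat_lit 19700271770), (nat_lit 17924915520), (nat_lit 20883800265), (nat_lit 32299848920), (nat_lit 33962662560), (nat_lit 31705272200), (nat_lit 33230000830)], (nat_lit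 0), (nat_lit 0), (nat_lit 0), (nat_lit 0), (nat_lit 0), (nat_lit 0), [], [(nat_lit 17), (nat_lit 58), (nat_lit 456), (nat_lit 225), (nat_lit 13)]⟩,
 ⟨⟨[(nat_lit 140), (nat_lit 160), (nat_lit 180)], [(nat_lit 0), (nat_lit 0), (nat_lit 799)], [((nat_lit 0), (nat_lit 0), (nat_lit 0)), ((nat_lit 0), (nat_lit 0), (nat_lit 0)), ((nat_lit 728), (nat_lit 1000), (nat_lit 454))], ((nat_lit 100), (nat_lit 67), (nat_lit 52))⟩, (nat_lit 408548), (nat_lit 300), (nat_lit 723), (nat_lit 34503001), (nat_lit 688197), [(nat_lit 4576530000), (nat_lit 5520480000), (nat_lit 6536970000)], [], [(nat_lit 29129695328), (nat_lit 27339151479), (nat_lit 25461433245), (nat_lit 29306598030), (nat_lit 28727968436), (nat_lit 26779339194), (nat_lit 24959425040), (nat_lit 22772729810)], (nat_lit 780000), (nat_lit 2090001), (nat_lit 0), (nat_lit 780000), (nat_lit 1271251), (nat_lit 1271251), [(nat_lit 1977501), (nat_lit 1271251), (nat_lit 1271251)], [(nat_lit 31), (nat_lit 65), (nat_lit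 428), (nat_lit 200), (nat_lit 10)]⟩⟩)) (.spl (nat_lit 5) (nat_lit 200) (.spl (nat_lit 1) (nat_lit 260) (.ord (.spl (nat_lit 6) (nat_lit 8) (.leaf ⟨(nat_lit 0), (nat_lit 965), (nat_lit 0), (nat_lit 35), (nat_lit 0), (nat_lit 6600), (nat_lit 5771), (nat_lit 349), (nat_lit 0), (nat_lit 12163680150093), (nat_lit 0), [], Pd.none, Pd.none, (nat_lit 0), (nat_lit 1), (nat_lit 0), (nat_lit 0), (nat_lit 3), (nat_lit 0), [], [⟨(nat_lit 0), (nat_lit 100), (nat_lit 96), (nat_lit 69), (nat_lit 32857007)⟩], [], [],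
 ⟨⟨[(nat_lit 80), (nat_lit 100)], [(nat_lit 0), (nat_lit 265)], [((nat_lit 0), (nat_lit 0), (nat_lit 0)), ((nat_lit 1000), (nat_lit 959), (nat_lit 206))], ((nat_lit 95), (nat_lit 100), (nat_lit 28))⟩, (nat_lit 0), (nat_lit 204), (nat_lit 204), (nat_lit 0), (nat_lit 54019), [(nat_lit 4688000001), (nat_lit 6250000000)], [], [(nat_lit 14102172201), (nat_lit 16380541800), (nat_lit 16889190001), (nat_lit 18848044401), (nat_lit 10852456851), (nat_lit 12872992901), (nat_lit 13517615001), (nat_lit 15257260201)], (nat_lit 1271251), (nat_lit 1271251), (nat_lit 780000), (nat_lit 1435001), (nat_lit 0), (nat_lit 780000), [(nat_lit 1100000), (nat_lit 1442501)], [(nat_lit 15), (nat_lit 50), (nat_lit 317), (nat_lit 100), (nat_lit 12)]⟩,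
 ⟨⟨[(nat_lit 80), (nat_lit 100), (nat_lit 120)], [(nat_lit 0), (nat_lit 0), (nat_lit 511)], [((nat_lit 0), (nat_lit 0), (nat_lit 0)), ((nat_lit 0), (nat_lit 0), (nat_lit 0)), ((nat_lit 1000), (nat_lit 997), (nat_lit 383))], ((nat_lit 98), (nat_lit 100), (nat_lit 28))⟩, (nat_lit 0), (nat_lit 225), (nat_lit 225), (nat_lit 0), (nat_lit 205452), [(nat_lit 4688000000), (nat_lit 6250000000), (nat_lit 7968000000)], [], [(nat_lit 39779766016), (nat_lit 36750695078), (nat_lit 32698012080), (nat_lit 31418446277), (nat_lit 36704707662), (nat_lit 34038469594), (nat_lit 43779802471), (nat_lit 41182507654)], (nat_lit 1271251), (nat_lit 1271251), (nat_lit 780000), (nat_lit 1435001), (nat_lit 0), (nat_lit 1412501), [(nat_lit 1100000), (nat_lit 1442501), (nat_lit 1271251)], [(nat_lit 16), (nat_lit 54), (nat_lit 317), (nat_lit 100), (nat_lit 11)]⟩,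
 ⟨⟨[(nat_lit 140), (nat_lit 160), (nat_lit 180)], [(nat_lit 0), (nat_lit 0), (nat_lit 799)], [((nat_lit 0), (nat_lit 0), (nat_lit 0)), ((nat_lit 0), (nat_lit 0), (nat_lit 0)), ((nat_lit 728), (nat_lit 1000), (nat_lit 454))], ((nat_lit 100), (nat_lit 84), (nat_lit 31))⟩, (nat_lit 30751), (nat_lit 300), (nat_lit 580), (nat_lit 2597000), (nat_lit 74862), [(nat_lit 344470000), (nat_lit 415520000), (nat_lit 492030000)], [], [(nat_lit 2524912847), (nat_lit 2430509589), (nat_lit 2220662723), (nat_lit 2147610049), (nat_lit 2150771728), (nat_lit 2071102350), (nat_lit 1893635264), (nat_lit 2290791824)], (nat_lit 780000), (nat_lit 1926251), (nat_lit 0), (nat_lit 780000), (nat_lit 0), (nat_lit 1412501), [(nat_lit 1977501), (nat_lit 1271251), (nat_lit 1271251)], [(nat_lit 31), (nat_lit 65), (nat_lit 373), (nat_lit 150), (nat_lit 9)]⟩⟩) (.dle (nat_lit 0)))) (.leaf ⟨(nat_lit 0), (nat_lit 949), (nat_lit 0), (nat_lit 51), (nat_lit 0), (nat_lit 9974), (nat_lit 5448),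 (nat_lit 484), (nat_lit 203084), (nat_lit 5977185070426), (nat_lit 0), [], Pd.none, Pd.none, (nat_lit 0), (nat_lit 1), (nat_lit 0), (nat_lit 0), (nat_lit 3), (nat_lit 0), [], [⟨(nat_lit 0), (nat_lit 100), (nat_lit 100), (nat_lit 80), (nat_lit 191977902)⟩], [], [],
 ⟨⟨[(nat_lit 80), (nat_lit 100), (nat_lit 120)], [(nat_lit 0), (nat_lit 265), (nat_lit 768)], [((nat_lit 0), (nat_lit 0), (nat_lit 0)), ((nat_lit 1000), (nat_lit 959), (nat_lit 206)), ((nat_lit 1000), (nat_lit 958), (nat_lit 392))], ((nat_lit 97), (nat_lit 100), (nat_lit 48))⟩, (nat_lit 5985019), (nat_lit 209), (nat_lit 209), (nat_lit 0), (nat_lit 125230), [(nat_lit 4688000120), (nat_lit 6250000130), (nat_lit 7968000000)], [], [(nat_lit 16854061722), (nat_lit 19496592752), (nat_lit 18874102360), (nat_lit 21917461972), (nat_lit 10141654400), (nat_lit 12342790981), (nat_lit 12718174833), (nat_lit 13957854114)], (nat_lit 1271251), (nat_lit 1271251), (nat_lit 780000), (nat_lit 1435001), (nat_lit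 0), (nat_lit 780000), [(nat_lit 1100000), (nat_lit 1442501), (nat_lit 1271251)], [(nat_lit 16), (nat_lit 54), (nat_lit 317), (nat_lit 100), (nat_lit 10)]⟩,
 ⟨⟨[(nat_lit 80), (nat_lit 100), (nat_lit 120)], [(nat_lit 0), (nat_lit 265), (nat_lit 768)], [((nat_lit 0), (nat_lit 0), (nat_lit 0)), ((nat_lit 1000), (nat_lit 959), (nat_lit 206)), ((nat_lit 1000), (nat_lit 958), (nat_lit 392))], ((nat_lit 97), (nat_lit 100), (nat_lit 48))⟩, (nat_lit 623571), (nat_lit 318), (nat_lit 318), (nat_lit 0), (nat_lit 422425), [(nat_lit 4688000000), (nat_lit 6250000000), (nat_lit 7968000000)], [], [(nat_lit 36260117349), (nat_lit 33400582005), (nat_lit 31464315389), (nat_lit 32423701493), (nat_lit 34326161091), (nat_lit 31809151041), (nat_lit 41216991215), (nat_lit 38765065697)], (nat_lit 1271251), (nat_lit 1271251), (nat_lit 780000), (nat_lit 1435001), (nat_lit 0), (nat_lit 1412501), [(nat_lit 1100000), (nat_lit 1442501), (nat_lit 1271251)], [(nat_lit 16), (nat_lit 54),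 (nat_lit 317), (nat_lit 100), (nat_lit 10)]⟩,
 ⟨⟨[(nat_lit 140), (nat_lit 160), (nat_lit 180)], [(nat_lit 0), (nat_lit 0), (nat_lit 799)], [((nat_lit 0), (nat_lit 0), (nat_lit 0)), ((nat_lit 0), (nat_lit 0), (nat_lit 0)), ((nat_lit 728), (nat_lit 1000), (nat_lit 454))], ((nat_lit 100), (nat_lit 67), (nat_lit 52))⟩, (nat_lit 44809), (nat_lit 300), (nat_lit 635), (nat_lit 3784200), (nat_lit 205269), [(nat_lit 501942000), (nat_lit 605472000), (nat_lit 716958000)], [], [(nat_lit 3707077879), (nat_lit 3596816520), (nat_lit 3325973627), (nat_lit 3218972739), (nat_lit 3226890868), (nat_lit 3108525404), (nat_lit 2882243711), (nat_lit 3429870346)], (nat_lit 780000), (nat_lit 2090001), (nat_lit 0), (nat_lit 780000), (nat_lit 0), (nat_lit 1412501), [(nat_lit 1977501), (nat_lit 1271251), (nat_lit 1271251)], [(nat_lit 31), (nat_lit 65), (nat_lit 373), (nat_lit 150), (nat_lit 9)]⟩⟩)) (.leaf ⟨(nat_lit 0), (nat_lit 208), (nat_lit 0), (nat_lit 792), (nat_lit 20840),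 (nat_lit 7817), (nat_lit 11974), (nat_lit 10664), (nat_lit 3356947), (nat_lit 918057), (nat_lit 0), [], Pd.none, Pd.none, (nat_lit 0), (nat_lit 1), (nat_lit 0), (nat_lit 0), (nat_lit 5), (nat_lit 0), [], [⟨(nat_lit 0), (nat_lit 100), (nat_lit 94), (nat_lit 35), (nat_lit 478614776)⟩], [], [],
 ⟨⟨[(nat_lit 80), (nat_lit 100), (nat_lit 120)], [(nat_lit 0), (nat_lit 265), (nat_lit 768)], [((nat_lit 0), (nat_lit 0), (nat_lit 0)), ((nat_lit 1000), (nat_lit 959), (nat_lit 206)), ((nat_lit 1000), (nat_lit 958), (nat_lit 392))], ((nat_lit 97), (nat_lit 100), (nat_lit 48))⟩, (nat_lit 8459774), (nat_lit 209), (nat_lit 209), (nat_lit 0), (nat_lit 125230), [(nat_lit 4688001278), (nat_lit 6250000921), (nat_lit 7968000000)], [], [(nat_lit 15564923661), (nat_lit 17504998399), (nat_lit 17771114356), (nat_lit 19918833226), (nat_lit 12010529426), (nat_lit 13715036603), (nat_lit 16134336208), (nat_lit 15457311956)], (nat_lit 1271251), (nat_lit 1271251), (nat_lit 780000),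 (nat_lit 1435001), (nat_lit 0), (nat_lit 780000), [(nat_lit 1100000), (nat_lit 1442501), (nat_lit 1271251)], [(nat_lit 16), (nat_lit 54), (nat_lit 317), (nat_lit 100), (nat_lit 10)]⟩,
 ⟨⟨[(nat_lit 80), (nat_lit 120), (nat_lit 140)], [(nat_lit 0), (nat_lit 0), (nat_lit 1164)], [((nat_lit 0), (nat_lit 0), (nat_lit 0)), ((nat_lit 0), (nat_lit 0), (nat_lit 0)), ((nat_lit 941), (nat_lit 1000), (nat_lit 576))], ((nat_lit 100), (nat_lit 98), (nat_lit 48))⟩, (nat_lit 3497831), (nat_lit 315), (nat_lit 315), (nat_lit 0), (nat_lit 436049), [(nat_lit 4688000000), (nat_lit 7968000000), (nat_lit 9842000000)], [], [(nat_lit 21266323914), (nat_lit 18895715222), (nat_lit 26541305078), (nat_lit 18830933182), (nat_lit 35467203020), (nat_lit 38248753054), (nat_lit 34273054668), (nat_lit 36630554374)], (nat_lit 1271251), (nat_lit 1271251), (nat_lit 780000), (nat_lit 1435001), (nat_lit 1271251), (nat_lit 1271251), [(nat_lit 1100000), (nat_lit 1785001), (nat_lit 1271251)],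 [(nat_lit 17), (nat_lit 58), (nat_lit 456), (nat_lit 225), (nat_lit 13)]⟩,
 ⟨⟨[(nat_lit 140), (nat_lit 160), (nat_lit 180)], [(nat_lit 0), (nat_lit 0), (nat_lit 799)], [((nat_lit 0), (nat_lit 0), (nat_lit 0)), ((nat_lit 0), (nat_lit 0), (nat_lit 0)), ((nat_lit 728), (nat_lit 1000), (nat_lit 454))], ((nat_lit 100), (nat_lit 67), (nat_lit 52))⟩, (nat_lit 695851), (nat_lit 300), (nat_lit 462), (nat_lit 58766400), (nat_lit 205269), [(nat_lit 7794864000), (nat_lit 9402624000), (nat_lit 11133936000)], [], [(nat_lit 42108206534), (nat_lit 46231400360), (nat_lit 33628629549), (nat_lit 52276751892), (nat_lit 48157201856), (nat_lit 46238170203), (nat_lit 38502094880), (nat_lit 35659420691)], (nat_lit 780000), (nat_lit 2090001), (nat_lit 0), (nat_lit 780000), (nat_lit 1271251), (nat_lit 1271251), [(nat_lit 1977501), (nat_lit 1271251), (nat_lit 1271251)], [(nat_lit 31), (nat_lit 65), (nat_lit 428), (nat_lit 200), (nat_lit 10)]⟩⟩))) (.trX (nat_lit 5) (nat_lit 3)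 (nat_lit 4) (nat_lit 100) (nat_lit 40) (nat_lit 92) (nat_lit 390) (.spl (nat_lit 1) (nat_lit 260) (.ord (.spl (nat_lit 6) (nat_lit 8) (.leaf ⟨(nat_lit 0), (nat_lit 763), (nat_lit 0), (nat_lit 237), (nat_lit 16444), (nat_lit 7344), (nat_lit 6810), (nat_lit 1680), (nat_lit 0), (nat_lit 55609), (nat_lit 0), [], Pd.none, Pd.none, (nat_lit 0), (nat_lit 1), (nat_lit 0), (nat_lit 0), (nat_lit 3), (nat_lit 0), [], [⟨(nat_lit 0), (nat_lit 100), (nat_lit 96), (nat_lit 69), (nat_lit 102847822)⟩], [], [],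
 ⟨⟨[(nat_lit 80), (nat_lit 100)], [(nat_lit 0), (nat_lit 265)], [((nat_lit 0), (nat_lit 0), (nat_lit 0)), ((nat_lit 1000), (nat_lit 959), (nat_lit 206))], ((nat_lit 95), (nat_lit 100), (nat_lit 28))⟩, (nat_lit 10479337), (nat_lit 168), (nat_lit 168), (nat_lit 0), (nat_lit 115036), [(nat_lit 4688000006), (nat_lit 6250000000)], [], [(nat_lit 17879787629), (nat_lit 19481509653), (nat_lit 23877084644), (nat_lit 25853320920), (nat_lit 14467781875), (nat_lit 15877562440), (nat_lit 18755735230), (nat_lit 20000435160)], (nat_lit 1271251), (nat_lit 1271251), (nat_lit 1271251), (nat_lit 1271251), (nat_lit 0), (nat_lit 780000), [(nat_lit 1100000), (nat_lit 1442501)], [(nat_lit 15), (nat_lit 50), (nat_lit 238), (nat_lit 30), (nat_lit 9)]⟩,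
 ⟨⟨[(nat_lit 80), (nat_lit 100), (nat_lit 120)], [(nat_lit 0), (nat_lit 0), (nat_lit 511)], [((nat_lit 0), (nat_lit 0), (nat_lit 0)), ((nat_lit 0), (nat_lit 0), (nat_lit 0)), ((nat_lit 1000), (nat_lit 997), (nat_lit 383))], ((nat_lit 98), (nat_lit 100), (nat_lit 28))⟩, (nat_lit 333188), (nat_lit 204), (nat_lit 204), (nat_lit 0), (nat_lit 205452), [(nat_lit 4688000000), (nat_lit 6250000000), (nat_lit 7968000000)], [], [(nat_lit 32606567800), (nat_lit 29085562855), (nat_lit 31140219252), (nat_lit 32008344507), (nat_lit 36700847653), (nat_lit 33666186864), (nat_lit 34339036290), (nat_lit 34759410794)], (nat_lit 1271251), (nat_lit 1271251), (nat_lit 1271251), (nat_lit 1271251), (nat_lit 0), (nat_lit 2754376), [(nat_lit 1100000), (nat_lit 1442501), (nat_lit 1271251)], [(nat_lit 16), (nat_lit 54), (nat_lit 401), (nat_lit 175), (nat_lit 13)]⟩,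
 ⟨⟨[(nat_lit 140), (nat_lit 160), (nat_lit 180)], [(nat_lit 0), (nat_lit 0), (nat_lit 799)], [((nat_lit 0), (nat_lit 0), (nat_lit 0)), ((nat_lit 0), (nat_lit 0), (nat_lit 0)), ((nat_lit 728), (nat_lit 1000), (nat_lit 454))], ((nat_lit 100), (nat_lit 84), (nat_lit 31))⟩, (nat_lit 208228), (nat_lit 300), (nat_lit 633), (nat_lit 17585400), (nat_lit 202214), [(nat_lit 2332554000), (nat_lit 2813664000), (nat_lit 3331746000)], [], [(nat_lit 17680776706), (nat_lit 17429169302), (nat_lit 16449377478), (nat_lit 16208782005), (nat_lit 16551818840), (nat_lit 16083661257), (nat_lit 15386220243), (nat_lit 17636316282)], (nat_lit 780000), (nat_lit 1926251), (nat_lit 0), (nat_lit 780000), (nat_lit 0), (nat_lit 2754376), [(nat_lit 1977501), (nat_lit 1271251), (nat_lit 1271251)], [(nat_lit 31), (nat_lit 65), (nat_lit 428), (nat_lit 200), (nat_lit 11)]⟩⟩) (.dle (nat_lit 0)))) (.leaf ⟨(nat_lit 0), (nat_lit 762), (nat_lit 0), (nat_lit 238), (nat_lit 2340), (nat_lit 10400),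 (nat_lit 6795), (nat_lit 1838), (nat_lit 1839689), (nat_lit 923881), (nat_lit 0), [], Pd.none, Pd.none, (nat_lit 0), (nat_lit 1), (nat_lit 0), (nat_lit 0), (nat_lit 3), (nat_lit 0), [], [⟨(nat_lit 0), (nat_lit 100), (nat_lit 100), (nat_lit 80), (nat_lit 62504726)⟩], [], [⟨(nat_lit 1), (nat_lit 85), (nat_lit 100), (nat_lit 73), (nat_lit 323854)⟩],
 ⟨⟨[(nat_lit 80), (nat_lit 100), (nat_lit 120)], [(nat_lit 0), (nat_lit 265), (nat_lit 768)], [((nat_lit 0), (nat_lit 0), (nat_lit 0)), ((nat_lit 1000), (nat_lit 959), (nat_lit 206)), ((nat_lit 1000), (nat_lit 958), (nat_lit 392))], ((nat_lit 97), (nat_lit 100), (nat_lit 48))⟩, (nat_lit 4227302), (nat_lit 257), (nat_lit 257), (nat_lit 0), (nat_lit 273828), [(nat_lit 4688000081), (nat_lit 6250000160), (nat_lit 7968000000)], [], [(nat_lit 20129924764), (nat_lit 22312184200), (nat_lit 27681081900), (nat_lit 30173145000), (nat_lit 19986061092), (nat_lit 15181196092), (nat_lit 18202681100), (nat_lit 20447765800)],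 (nat_lit 1271251), (nat_lit 1271251), (nat_lit 1271251), (nat_lit 1271251), (nat_lit 0), (nat_lit 780000), [(nat_lit 1100000), (nat_lit 1442501), (nat_lit 1271251)], [(nat_lit 16), (nat_lit 54), (nat_lit 317), (nat_lit 100), (nat_lit 10)]⟩,
 ⟨⟨[(nat_lit 80), (nat_lit 100), (nat_lit 120)], [(nat_lit 0), (nat_lit 265), (nat_lit 768)], [((nat_lit 0), (nat_lit 0), (nat_lit 0)), ((nat_lit 1000), (nat_lit 959), (nat_lit 206)), ((nat_lit 1000), (nat_lit 958), (nat_lit 392))], ((nat_lit 97), (nat_lit 100), (nat_lit 48))⟩, (nat_lit 2865290), (nat_lit 312), (nat_lit 312), (nat_lit 0), (nat_lit 422425), [(nat_lit 4688000000), (nat_lit 6250000000), (nat_lit 7968000000)], [], [(nat_lit 29086202673), (nat_lit 27333060495), (nat_lit 29248653143), (nat_lit 30115986615), (nat_lit 32921096908), (nat_lit 31354044612), (nat_lit 31995198131), (nat_lit 32415657596)], (nat_lit 1271251), (nat_lit 1271251), (nat_lit 1271251), (nat_lit 1271251), (nat_lit 0), (nat_lit 2754376),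 [(nat_lit 1100000), (nat_lit 1442501), (nat_lit 1271251)], [(nat_lit 16), (nat_lit 54), (nat_lit 401), (nat_lit 175), (nat_lit 13)]⟩,
 ⟨⟨[(nat_lit 140), (nat_lit 160), (nat_lit 180)], [(nat_lit 0), (nat_lit 0), (nat_lit 799)], [((nat_lit 0), (nat_lit 0), (nat_lit 0)), ((nat_lit 0), (nat_lit 0), (nat_lit 0)), ((nat_lit 728), (nat_lit 1000), (nat_lit 454))], ((nat_lit 100), (nat_lit 67), (nat_lit 52))⟩, (nat_lit 209106), (nat_lit 300), (nat_lit 852), (nat_lit 17659602), (nat_lit 688197), [(nat_lit 2342396000), (nat_lit 2825536000), (nat_lit 3345804000)], [], [(nat_lit 19542432715), (nat_lit 18984821216), (nat_lit 18280258129), (nat_lit 17735098140), (nat_lit 17730140467), (nat_lit 17022724458), (nat_lit 16534963430), (nat_lit 18685757723)], (nat_lit 780000), (nat_lit 2090001), (nat_lit 0), (nat_lit 780000), (nat_lit 0), (nat_lit 2754376), [(nat_lit 1977501), (nat_lit 1271251), (nat_lit 1271251)], [(nat_lit 31), (nat_lit 65), (nat_lit 428), (nat_lit 200),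 (nat_lit 11)]⟩⟩))))
noncomputable def c2_4 : Tr Lf :=
 (.trX (nat_lit 5) (nat_lit 3) (nat_lit 4) (nat_lit 100) (nat_lit 80) (nat_lit 100) (nat_lit 340) (.spl (nat_lit 1) (nat_lit 260) (.ord (.spl (nat_lit 6) (nat_lit 8) (.leaf ⟨(nat_lit 0), (nat_lit 814), (nat_lit 0), (nat_lit 186), (nat_lit 3090), (nat_lit 5626), (nat_lit 6725), (nat_lit 1427), (nat_lit 0), (nat_lit 5427641774151), (nat_lit 0), [], Pd.none, Pd.none, (nat_lit 0), (nat_lit 1), (nat_lit 0), (nat_lit 0), (nat_lit 3), (nat_lit 0), [], [⟨(nat_lit 0), (nat_lit 100), (nat_lit 96), (nat_lit 69), (nat_lit 14372014)⟩], [], [⟨(nat_lit 1), (nat_lit 100), (nat_lit 72), (nat_lit 59), (nat_lit 10524872)⟩],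
 ⟨⟨[(nat_lit 80), (nat_lit 100)], [(nat_lit 0), (nat_lit 265)], [((nat_lit 0), (nat_lit 0), (nat_lit 0)), ((nat_lit 1000), (nat_lit 959), (nat_lit 206))], ((nat_lit 95), (nat_lit 100), (nat_lit 28))⟩, (nat_lit 8853528), (nat_lit 211), (nat_lit 211), (nat_lit 0), (nat_lit 115036), [(nat_lit 4688000002), (nat_lit 6250000000)], [], [(nat_lit 26992860939), (nat_lit 27942219502), (nat_lit 34273034382), (nat_lit 34957710004), (nat_lit 24800441974), (nat_lit 25707816478), (nat_lit 31357039723), (nat_lit 31970754704)], (nat_lit 1271251), (nat_lit 1271251), (nat_lit 1271251), (nat_lit 1271251), (nat_lit 0), (nat_lit 780000), [(nat_lit 1100000), (nat_lit 1442501)], [(nat_lit 15), (nat_lit 50), (nat_lit 238), (nat_lit 30), (nat_lit 8)]⟩,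
 ⟨⟨[(nat_lit 80), (nat_lit 100), (nat_lit 120)], [(nat_lit 0), (nat_lit 0), (nat_lit 511)], [((nat_lit 0), (nat_lit 0), (nat_lit 0)), ((nat_lit 0), (nat_lit 0), (nat_lit 0)), ((nat_lit 1000), (nat_lit 997), (nat_lit 383))], ((nat_lit 98), (nat_lit 100), (nat_lit 28))⟩, (nat_lit 4767541), (nat_lit 273), (nat_lit 273), (nat_lit 0), (nat_lit 205452), [(nat_lit 4688000000), (nat_lit 6250000000), (nat_lit 7968000000)], [], [(nat_lit 29048151749), (nat_lit 29911790237), (nat_lit 36107084549), (nat_lit 36762533224), (nat_lit 30460618663), (nat_lit 30939620819), (nat_lit 34776821150), (nat_lit 35129691213)], (nat_lit 1271251), (nat_lit 1271251), (nat_lit 1271251), (nat_lit 1271251), (nat_lit 0), (nat_lit 2401251), [(nat_lit 1100000), (nat_lit 1442501), (nat_lit 1271251)], [(nat_lit 16), (nat_lit 54), (nat_lit 317), (nat_lit 100), (nat_lit 10)]⟩,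
 ⟨⟨[(nat_lit 140), (nat_lit 160), (nat_lit 180)], [(nat_lit 0), (nat_lit 0), (nat_lit 799)], [((nat_lit 0), (nat_lit 0), (nat_lit 0)), ((nat_lit 0), (nat_lit 0), (nat_lit 0)), ((nat_lit 728), (nat_lit 1000), (nat_lit 454))], ((nat_lit 100), (nat_lit 84), (nat_lit 31))⟩, (nat_lit 163419), (nat_lit 300), (nat_lit 633), (nat_lit 13801202), (nat_lit 202214), [(nat_lit 1830612000), (nat_lit 2208192000), (nat_lit 2614788000)], [], [(nat_lit 13788052552), (nat_lit 13537259170), (nat_lit 12718352674), (nat_lit 12478163672), (nat_lit 12574936745), (nat_lit 12197053345), (nat_lit 11583509657), (nat_lit 13408852239)], (nat_lit 780000), (nat_lit 1926251), (nat_lit 0), (nat_lit 780000), (nat_lit 0), (nat_lit 2401251), [(nat_lit 1977501), (nat_lit 1271251), (nat_lit 1271251)], [(nat_lit 31), (nat_lit 65), (nat_lit 428), (nat_lit 200), (nat_lit 11)]⟩⟩) (.dle (nat_lit 0)))) (.leaf ⟨(nat_lit 0), (nat_lit 774), (nat_lit 0), (nat_lit 226), (nat_lit 1801), (nat_lit 6324),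 (nat_lit 6223), (nat_lit 2245), (nat_lit 129254751836), (nat_lit 69048464226), (nat_lit 0), [], Pd.none, Pd.none, (nat_lit 0), (nat_lit 1), (nat_lit 0), (nat_lit 0), (nat_lit 3), (nat_lit 0), [], [⟨(nat_lit 0), (nat_lit 100), (nat_lit 100), (nat_lit 80), (nat_lit 52278902)⟩], [], [⟨(nat_lit 1), (nat_lit 100), (nat_lit 72), (nat_lit 59), (nat_lit 1222802)⟩],
 ⟨⟨[(nat_lit 80), (nat_lit 100), (nat_lit 120)], [(nat_lit 0), (nat_lit 265), (nat_lit 768)], [((nat_lit 0), (nat_lit 0), (nat_lit 0)), ((nat_lit 1000), (nat_lit 959), (nat_lit 206)), ((nat_lit 1000), (nat_lit 958), (nat_lit 392))], ((nat_lit 97), (nat_lit 100), (nat_lit 48))⟩, (nat_lit 5420023), (nat_lit 296), (nat_lit 296), (nat_lit 0), (nat_lit 273828), [(nat_lit 4688000009), (nat_lit 6250000006), (nat_lit 7968000000)], [], [(nat_lit 27548289886), (nat_lit 28390761388), (nat_lit 35728523212), (nat_lit 36807936296), (nat_lit 24594944330), (nat_lit 25411156997), (nat_lit 30637988827), (nat_lit 31175667967)],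 (nat_lit 1271251), (nat_lit 1271251), (nat_lit 1271251), (nat_lit 1271251), (nat_lit 0), (nat_lit 780000), [(nat_lit 1100000), (nat_lit 1442501), (nat_lit 1271251)], [(nat_lit 16), (nat_lit 54), (nat_lit 238), (nat_lit 30), (nat_lit 7)]⟩,
 ⟨⟨[(nat_lit 80), (nat_lit 100), (nat_lit 120)], [(nat_lit 0), (nat_lit 265), (nat_lit 768)], [((nat_lit 0), (nat_lit 0), (nat_lit 0)), ((nat_lit 1000), (nat_lit 959), (nat_lit 206)), ((nat_lit 1000), (nat_lit 958), (nat_lit 392))], ((nat_lit 97), (nat_lit 100), (nat_lit 48))⟩, (nat_lit 5093947), (nat_lit 350), (nat_lit 350), (nat_lit 0), (nat_lit 422425), [(nat_lit 4688000000), (nat_lit 6250000000), (nat_lit 7968000000)], [], [(nat_lit 30459844099), (nat_lit 31163995994), (nat_lit 35737074673), (nat_lit 36540210142), (nat_lit 31162216059), (nat_lit 31518778934), (nat_lit 34296032337), (nat_lit 34870214856)], (nat_lit 1271251), (nat_lit 1271251), (nat_lit 1271251), (nat_lit 1271251), (nat_lit 0), (nat_lit 2401251),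 [(nat_lit 1100000), (nat_lit 1442501), (nat_lit 1271251)], [(nat_lit 16), (nat_lit 54), (nat_lit 317), (nat_lit 100), (nat_lit 10)]⟩,
 ⟨⟨[(nat_lit 140), (nat_lit 160), (nat_lit 180)], [(nat_lit 0), (nat_lit 0), (nat_lit 799)], [((nat_lit 0), (nat_lit 0), (nat_lit 0)), ((nat_lit 0), (nat_lit 0), (nat_lit 0)), ((nat_lit 728), (nat_lit 1000), (nat_lit 454))], ((nat_lit 100), (nat_lit 67), (nat_lit 52))⟩, (nat_lit 198563), (nat_lit 300), (nat_lit 852), (nat_lit 16769201), (nat_lit 688197), [(nat_lit 2224292000), (nat_lit 2683072000), (nat_lit 3177108000)], [], [(nat_lit 17178019934), (nat_lit 16346010792), (nat_lit 15548872188), (nat_lit 14736730934), (nat_lit 14612147026), (nat_lit 16399946529), (nat_lit 13208454790), (nat_lit 18136477899)], (nat_lit 780000), (nat_lit 2090001), (nat_lit 0), (nat_lit 780000), (nat_lit 0), (nat_lit 2401251), [(nat_lit 1977501), (nat_lit 1271251), (nat_lit 1271251)], [(nat_lit 31), (nat_lit 65), (nat_lit 428), (nat_lit 200),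 (nat_lit 11)]⟩⟩)))
noncomputable def c2_5 : Tr Lf :=
 (.spl (nat_lit 3) (nat_lit 120) (.spl (nat_lit 5) (nat_lit 200) (.spl (nat_lit 1) (nat_lit 260) (.spl (nat_lit 6) (nat_lit 4) (.leaf ⟨(nat_lit 0), (nat_lit 905), (nat_lit 0), (nat_lit 95), (nat_lit 105240), (nat_lit 6831), (nat_lit 8344), (nat_lit 921), (nat_lit 0), (nat_lit 0), (nat_lit 0), [], Pd.none, Pd.none, (nat_lit 0), (nat_lit 1), (nat_lit 0), (nat_lit 0), (nat_lit 3), (nat_lit 0), [⟨(nat_lit 0), (nat_lit 100), (nat_lit 96), (nat_lit 69), (nat_lit 883282805)⟩], [], [], [],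
 ⟨⟨[(nat_lit 80), (nat_lit 100)], [(nat_lit 0), (nat_lit 399)], [((nat_lit 0), (nat_lit 0), (nat_lit 0)), ((nat_lit 1000), (nat_lit 938), (nat_lit 310))], ((nat_lit 95), (nat_lit 100), (nat_lit 20))⟩, (nat_lit 1801230), (nat_lit 182), (nat_lit 182), (nat_lit 0), (nat_lit 31345), [(nat_lit 4688000399), (nat_lit 6250000000)], [], [(nat_lit 13595579341), (nat_lit 14734051474), (nat_lit 11560861116), (nat_lit 12593607808), (nat_lit 18428208216), (nat_lit 19317761716), (nat_lit 16091455710), (nat_lit 16899390046)], (nat_lit 1271251), (nat_lit 1271251), (nat_lit 169688), (nat_lit 780000), (nat_lit 780000), (nat_lit 1762501), [(nat_lit 1100000), (nat_lit 1442501)], [(nat_lit 15), (nat_lit 50), (nat_lit 317), (nat_lit 100), (nat_lit 12)]⟩,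
 ⟨⟨[(nat_lit 80), (nat_lit 100)], [(nat_lit 0), (nat_lit 0)], [((nat_lit 0), (nat_lit 0), (nat_lit 0)), ((nat_lit 0), (nat_lit 0), (nat_lit 0))], ((nat_lit 98), (nat_lit 100), (nat_lit 20))⟩, (nat_lit 1801230), (nat_lit 257), (nat_lit 257), (nat_lit 0), (nat_lit 37778), [(nat_lit 4688000000), (nat_lit 6250000000)], [], [(nat_lit 18195829364), (nat_lit 20873992176), (nat_lit 15056026816), (nat_lit 17081392368), (nat_lit 16685812218), (nat_lit 17682394322), (nat_lit 20612119080), (nat_lit 16540347208)], (nat_lit 1271251), (nat_lit 1271251), (nat_lit 169688), (nat_lit 780000), (nat_lit 0), (nat_lit 1412501), [(nat_lit 1100000), (nat_lit 1442501)], [(nat_lit 15), (nat_lit 50), (nat_lit 317), (nat_lit 100), (nat_lit 13)]⟩,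
 ⟨⟨[(nat_lit 140), (nat_lit 160)], [(nat_lit 0), (nat_lit 0)], [((nat_lit 0), (nat_lit 0), (nat_lit 0)), ((nat_lit 0), (nat_lit 0), (nat_lit 0))], ((nat_lit 100), (nat_lit 89), (nat_lit 22))⟩, (nat_lit 1801230), (nat_lit 300), (nat_lit 413), (nat_lit 7049000), (nat_lit 242593), [(nat_lit 934990000), (nat_lit 1127840000)], [], [(nat_lit 4626400068), (nat_lit 4590841398), (nat_lit 4582092324), (nat_lit 5452319974), (nat_lit 4544061743), (nat_lit 5463259937), (nat_lit 5926090402), (nat_lit 6913937633)], (nat_lit 780000), (nat_lit 1435001), (nat_lit 780000), (nat_lit 1762501), (nat_lit 0), (nat_lit 1412501), [(nat_lit 1977501), (nat_lit 1271251)], [(nat_lit 30), (nat_lit 62), (nat_lit 401), (nat_lit 175), (nat_lit 11)]⟩⟩) (.dle (nat_lit 0))) (.trZ (nat_lit 0) (nat_lit 1) (nat_lit 3) (nat_lit 100) (nat_lit 98) (nat_lit 64) (nat_lit 40) (.leaf ⟨(nat_lit 0), (nat_lit 916), (nat_lit 0), (nat_lit 84), (nat_lit 22521), (nat_lit 6967), (nat_lit 7443), (nat_lit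 881), (nat_lit 46444), (nat_lit 0), (nat_lit 0), [], Pd.none, Pd.none, (nat_lit 0), (nat_lit 1), (nat_lit 0), (nat_lit 0), (nat_lit 3), (nat_lit 0), [⟨(nat_lit 0), (nat_lit 100), (nat_lit 100), (nat_lit 80), (nat_lit 787598273)⟩], [], [], [],
 ⟨⟨[(nat_lit 80), (nat_lit 100)], [(nat_lit 0), (nat_lit 399)], [((nat_lit 0), (nat_lit 0), (nat_lit 0)), ((nat_lit 1000), (nat_lit 938), (nat_lit 310))], ((nat_lit 94), (nat_lit 100), (nat_lit 34))⟩, (nat_lit 0), (nat_lit 182), (nat_lit 182), (nat_lit 0), (nat_lit 92818), [(nat_lit 4688000014), (nat_lit 6250000000)], [], [(nat_lit 12967238219), (nat_lit 14112163014), (nat_lit 11383139841), (nat_lit 12429120727), (nat_lit 17827087068), (nat_lit 18720841596), (nat_lit 15936929099), (nat_lit 16754405093)], (nat_lit 1271251), (nat_lit 1271251), (nat_lit 230000), (nat_lit 780000), (nat_lit 780000), (nat_lit 1762501), [(nat_lit 1100000), (nat_lit 1442501)], [(nat_lit 15), (nat_lit 50), (nat_lit 317), (nat_lit 100),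 (nat_lit 12)]⟩,
 ⟨⟨[(nat_lit 80), (nat_lit 100), (nat_lit 120)], [(nat_lit 0), (nat_lit 265), (nat_lit 768)], [((nat_lit 0), (nat_lit 0), (nat_lit 0)), ((nat_lit 1000), (nat_lit 959), (nat_lit 206)), ((nat_lit 1000), (nat_lit 958), (nat_lit 392))], ((nat_lit 95), (nat_lit 100), (nat_lit 34))⟩, (nat_lit 10955927), (nat_lit 247), (nat_lit 247), (nat_lit 0), (nat_lit 94806), [(nat_lit 4688000000), (nat_lit 6250000000), (nat_lit 7968000000)], [], [(nat_lit 18370397391), (nat_lit 21479668755), (nat_lit 15417084566), (nat_lit 17297764835), (nat_lit 15772751267), (nat_lit 17335574303), (nat_lit 15419018046), (nat_lit 15674837604)], (nat_lit 1271251), (nat_lit 1271251), (nat_lit 230000), (nat_lit 780000), (nat_lit 0), (nat_lit 1412501), [(nat_lit 1100000), (nat_lit 1442501), (nat_lit 1271251)], [(nat_lit 16), (nat_lit 54), (nat_lit 317), (nat_lit 100), (nat_lit 11)]⟩,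
 ⟨⟨[(nat_lit 140), (nat_lit 160), (nat_lit 180)], [(nat_lit 0), (nat_lit 0), (nat_lit 799)], [((nat_lit 0), (nat_lit 0), (nat_lit 0)), ((nat_lit 0), (nat_lit 0), (nat_lit 0)), ((nat_lit 728), (nat_lit 1000), (nat_lit 454))], ((nat_lit 100), (nat_lit 79), (nat_lit 37))⟩, (nat_lit 73802), (nat_lit 300), (nat_lit 861), (nat_lit 6232802), (nat_lit 925041), [(nat_lit 826728000), (nat_lit 997248000), (nat_lit 1180872000)], [], [(nat_lit 5612646099), (nat_lit 5402967318), (nat_lit 5302780586), (nat_lit 5087421420), (nat_lit 4790093506), (nat_lit 4895383861), (nat_lit 5329108106), (nat_lit 6256042053)], (nat_lit 780000), (nat_lit 1435001), (nat_lit 780000), (nat_lit 1762501), (nat_lit 0), (nat_lit 1412501), [(nat_lit 1977501), (nat_lit 1271251), (nat_lit 1271251)], [(nat_lit 31), (nat_lit 65), (nat_lit 401), (nat_lit 175), (nat_lit 10)]⟩⟩))) (.leaf ⟨(nat_lit 0), (nat_lit 554), (nat_lit 0), (nat_lit 446), (nat_lit 0), (nat_lit 8188), (nat_lit 6427), (nat_lit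 5059), (nat_lit 6331158372), (nat_lit 0), (nat_lit 0), [], Pd.none, Pd.none, (nat_lit 0), (nat_lit 1), (nat_lit 0), (nat_lit 0), (nat_lit 5), (nat_lit 0), [⟨(nat_lit 0), (nat_lit 100), (nat_lit 100), (nat_lit 80), (nat_lit 1006521993)⟩], [], [⟨(nat_lit 1), (nat_lit 49), (nat_lit 97), (nat_lit 100), (nat_lit 88803708)⟩], [],
 ⟨⟨[(nat_lit 80), (nat_lit 100)], [(nat_lit 0), (nat_lit 399)], [((nat_lit 0), (nat_lit 0), (nat_lit 0)), ((nat_lit 1000), (nat_lit 938), (nat_lit 310))], ((nat_lit 94), (nat_lit 100), (nat_lit 34))⟩, (nat_lit 2263), (nat_lit 187), (nat_lit 187), (nat_lit 0), (nat_lit 92818), [(nat_lit 4688000013), (nat_lit 6250000000)], [], [(nat_lit 13641747740), (nat_lit 15170635953), (nat_lit 9787572143), (nat_lit 10952368845), (nat_lit 19090574094), (nat_lit 20278295168), (nat_lit 14936756318), (nat_lit 16022881368)], (nat_lit 1271251), (nat_lit 1271251), (nat_lit 169688), (nat_lit 780000), (nat_lit 780000), (nat_lit 1762501), [(nat_lit 1100000),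 (nat_lit 1442501)], [(nat_lit 15), (nat_lit 50), (nat_lit 317), (nat_lit 100), (nat_lit 12)]⟩,
 ⟨⟨[(nat_lit 80), (nat_lit 100), (nat_lit 120)], [(nat_lit 0), (nat_lit 0), (nat_lit 511)], [((nat_lit 0), (nat_lit 0), (nat_lit 0)), ((nat_lit 0), (nat_lit 0), (nat_lit 0)), ((nat_lit 1000), (nat_lit 997), (nat_lit 383))], ((nat_lit 99), (nat_lit 100), (nat_lit 34))⟩, (nat_lit 6864224), (nat_lit 202), (nat_lit 202), (nat_lit 0), (nat_lit 98568), [(nat_lit 4688000000), (nat_lit 6250000000), (nat_lit 7968000000)], [], [(nat_lit 19592263183), (nat_lit 22225279074), (nat_lit 19271820265), (nat_lit 20506846312), (nat_lit 33158289641), (nat_lit 34924347449), (nat_lit 30122121178), (nat_lit 31576732136)], (nat_lit 1271251), (nat_lit 1271251), (nat_lit 169688), (nat_lit 780000), (nat_lit 1271251), (nat_lit 1271251), [(nat_lit 1100000), (nat_lit 1442501), (nat_lit 1271251)], [(nat_lit 16), (nat_lit 54), (nat_lit 373), (nat_lit 150), (nat_lit 12)]⟩,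
 ⟨⟨[(nat_lit 140), (nat_lit 160), (nat_lit 180)], [(nat_lit 0), (nat_lit 0), (nat_lit 799)], [((nat_lit 0), (nat_lit 0), (nat_lit 0)), ((nat_lit 0), (nat_lit 0), (nat_lit 0)), ((nat_lit 728), (nat_lit 1000), (nat_lit 454))], ((nat_lit 100), (nat_lit 79), (nat_lit 37))⟩, (nat_lit 395425), (nat_lit 300), (nat_lit 734), (nat_lit 33093200), (nat_lit 925041), [(nat_lit 4389532000), (nat_lit 5294912000), (nat_lit 6269868000)], [], [(nat_lit 23766064931), (nat_lit 22611431813), (nat_lit 22062245168), (nat_lit 20860035200), (nat_lit 23213833168), (nat_lit 21967114165), (nat_lit 21375483028), (nat_lit 20088923476)], (nat_lit 780000), (nat_lit 1435001), (nat_lit 780000), (nat_lit 1762501), (nat_lit 1271251), (nat_lit 1271251), [(nat_lit 1977501), (nat_lit 1271251), (nat_lit 1271251)], [(nat_lit 31), (nat_lit 65), (nat_lit 456), (nat_lit 225), (nat_lit 10)]⟩⟩)) (.leaf ⟨(nat_lit 765), (nat_lit 119), (nat_lit 0), (nat_lit 116), (nat_lit 12), (nat_lit 6557), (nat_lit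 936), (nat_lit 923), (nat_lit 34554), (nat_lit 0), (nat_lit 224700), [((nat_lit 280), [((nat_lit 9), (nat_lit 0), (nat_lit 542)), ((nat_lit 9), (nat_lit 1), (nat_lit 223))])], ⟨(nat_lit 6), false, false, false, (nat_lit 195), (nat_lit 5477), (nat_lit 5701), [(nat_lit 1389244), (nat_lit 1392847), (nat_lit 1431928), (nat_lit 1435561), (nat_lit 1542679), (nat_lit 1542709), (nat_lit 1585359), (nat_lit 1585419)]⟩, ⟨(nat_lit 3), false, false, true, (nat_lit 168), (nat_lit 5477), (nat_lit 5701), [(nat_lit 1261193), (nat_lit 1264704), (nat_lit 1346560), (nat_lit 1350132), (nat_lit 1491350), (nat_lit 1489503), (nat_lit 1576714), (nat_lit 1574928)]⟩, (nat_lit 4598261), (nat_lit 45130236), (nat_lit 12238578), (nat_lit 9631186), (nat_lit 3), (nat_lit 0), [], [], [], [],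
 ⟨⟨[(nat_lit 80), (nat_lit 100)], [(nat_lit 0), (nat_lit 399)], [((nat_lit 0), (nat_lit 0), (nat_lit 0)), ((nat_lit 1000), (nat_lit 938), (nat_lit 310))], ((nat_lit 94), (nat_lit 100), (nat_lit 34))⟩, (nat_lit 0), (nat_lit 147), (nat_lit 147), (nat_lit 0), (nat_lit 164152), [(nat_lit 3100906401), (nat_lit 3731420000)], [(nat_lit 0), (nat_lit 0)], [(nat_lit 10331822440), (nat_lit 11337906124), (nat_lit 12854364428), (nat_lit 13886791628), (nat_lit 15128890565), (nat_lit 16071018702), (nat_lit 17070512760), (nat_lit 17883606434)], (nat_lit 1271251), (nat_lit 1271251), (nat_lit 780000), (nat_lit 1435001), (nat_lit 780000), (nat_lit 1762501), [(nat_lit 1100000), (nat_lit 1442501)], [(nat_lit 15), (nat_lit 50), (nat_lit 345), (nat_lit 125), (nat_lit 13)]⟩,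
 ⟨⟨[(nat_lit 80), (nat_lit 100), (nat_lit 120)], [(nat_lit 0), (nat_lit 0), (nat_lit 511)], [((nat_lit 0), (nat_lit 0), (nat_lit 0)), ((nat_lit 0), (nat_lit 0), (nat_lit 0)), ((nat_lit 1000), (nat_lit 997), (nat_lit 383))], ((nat_lit 99), (nat_lit 100), (nat_lit 34))⟩, (nat_lit 840179), (nat_lit 223), (nat_lit 223), (nat_lit 0), (nat_lit 173897), [(nat_lit 1101680000), (nat_lit 1468750000), (nat_lit 1872480000)], [], [(nat_lit 8704481256), (nat_lit 7721909640), (nat_lit 8150236500), (nat_lit 8050862178), (nat_lit 11390437780), (nat_lit 10579434964), (nat_lit 12836456832), (nat_lit 12045043560)], (nat_lit 1271251), (nat_lit 1271251), (nat_lit 780000), (nat_lit 1435001), (nat_lit 0), (nat_lit 2825001), [(nat_lit 1100000), (nat_lit 1442501), (nat_lit 1271251)], [(nat_lit 16), (nat_lit 54), (nat_lit 373), (nat_lit 150), (nat_lit 12)]⟩,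
 ⟨⟨[(nat_lit 140), (nat_lit 160), (nat_lit 180)], [(nat_lit 0), (nat_lit 0), (nat_lit 799)], [((nat_lit 0), (nat_lit 0), (nat_lit 0)), ((nat_lit 0), (nat_lit 0), (nat_lit 0)), ((nat_lit 728), (nat_lit 1000), (nat_lit 454))], ((nat_lit 100), (nat_lit 79), (nat_lit 37))⟩, (nat_lit 101917), (nat_lit 300), (nat_lit 861), (nat_lit 8607202), (nat_lit 925041), [(nat_lit 1141672000), (nat_lit 1377152000), (nat_lit 1630728000)], [], [(nat_lit 8839237838), (nat_lit 8650041208), (nat_lit 8560403305), (nat_lit 8363262059), (nat_lit 7941805082), (nat_lit 8157356998), (nat_lit 8703716744), (nat_lit 9850939850)], (nat_lit 780000), (nat_lit 1435001), (nat_lit 780000), (nat_lit 1762501), (nat_lit 0), (nat_lit 2825001), [(nat_lit 1977501), (nat_lit 1271251), (nat_lit 1271251)], [(nat_lit 31), (nat_lit 65), (nat_lit 456), (nat_lit 225), (nat_lit 11)]⟩⟩))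
noncomputable def c2_6 : Tr Lf :=
 (.spl (nat_lit 3) (nat_lit 120) (.trX (nat_lit 5) (nat_lit 4) (nat_lit 3) (nat_lit 100) (nat_lit 59) (nat_lit 94) (nat_lit 370) (.spl (nat_lit 5) (nat_lit 120) (.spl (nat_lit 1) (nat_lit 260) (.spl (nat_lit 6) (nat_lit 4) (.leaf ⟨(nat_lit 0), (nat_lit 171), (nat_lit 0), (nat_lit 829), (nat_lit 36966), (nat_lit 7382), (nat_lit 8344), (nat_lit 11155), (nat_lit 0), (nat_lit 0), (nat_lit 0), [], Pd.none, Pd.none, (nat_lit 0), (nat_lit 1), (nat_lit 0), (nat_lit 0), (nat_lit 6), (nat_lit 0), [⟨(nat_lit 0), (nat_lit 100), (nat_lit 96), (nat_lit 69), (nat_lit 1225091023)⟩], [], [], [],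
 ⟨⟨[(nat_lit 80), (nat_lit 100)], [(nat_lit 0), (nat_lit 399)], [((nat_lit 0), (nat_lit 0), (nat_lit 0)), ((nat_lit 1000), (nat_lit 938), (nat_lit 310))], ((nat_lit 95), (nat_lit 100), (nat_lit 20))⟩, (nat_lit 9815166), (nat_lit 151), (nat_lit 151), (nat_lit 0), (nat_lit 31345), [(nat_lit 4688000556), (nat_lit 6250000000)], [], [(nat_lit 18932050161), (nat_lit 19707779352), (nat_lit 16737029107), (nat_lit 17436153676), (nat_lit 35271391254), (nat_lit 35879951285), (nat_lit 30321743989), (nat_lit 30892298028)], (nat_lit 1271251), (nat_lit 1271251), (nat_lit 169688), (nat_lit 780000), (nat_lit 1271251), (nat_lit 1271251), [(nat_lit 1100000), (nat_lit 1442501)], [(nat_lit 15), (nat_lit 50), (nat_lit 238), (nat_lit 30), (nat_lit 8)]⟩,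
 ⟨⟨[(nat_lit 80), (nat_lit 100)], [(nat_lit 0), (nat_lit 0)], [((nat_lit 0), (nat_lit 0), (nat_lit 0)), ((nat_lit 0), (nat_lit 0), (nat_lit 0))], ((nat_lit 98), (nat_lit 100), (nat_lit 20))⟩, (nat_lit 784151), (nat_lit 256), (nat_lit 256), (nat_lit 0), (nat_lit 19260), [(nat_lit 4688000000), (nat_lit 6250000000)], [], [(nat_lit 18195829364), (nat_lit 20873992176), (nat_lit 15056026816), (nat_lit 17081392368), (nat_lit 13505860456), (nat_lit 15481233869), (nat_lit 13731169656), (nat_lit 13130224260)], (nat_lit 1271251), (nat_lit 1271251), (nat_lit 169688), (nat_lit 780000), (nat_lit 0), (nat_lit 780000), [(nat_lit 1100000), (nat_lit 1442501)], [(nat_lit 15), (nat_lit 50), (nat_lit 272), (nat_lit 60), (nat_lit 11)]⟩,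
 ⟨⟨[(nat_lit 140), (nat_lit 160)], [(nat_lit 0), (nat_lit 0)], [((nat_lit 0), (nat_lit 0), (nat_lit 0)), ((nat_lit 0), (nat_lit 0), (nat_lit 0))], ((nat_lit 100), (nat_lit 89), (nat_lit 22))⟩, (nat_lit 784151), (nat_lit 300), (nat_lit 378), (nat_lit 61511800), (nat_lit 146297), [(nat_lit 8159018000), (nat_lit 9841888000)], [], [(nat_lit 35306188898), (nat_lit 34618985764), (nat_lit 43865786364), (nat_lit 42547000805), (nat_lit 26964736930), (nat_lit 33484707704), (nat_lit 34240531358), (nat_lit 32336912295)], (nat_lit 780000), (nat_lit 1435001), (nat_lit 1271251), (nat_lit 1271251), (nat_lit 0), (nat_lit 780000), [(nat_lit 1977501), (nat_lit 1271251)], [(nat_lit 30), (nat_lit 62), (nat_lit 428), (nat_lit 200), (nat_lit 11)]⟩⟩) (.dle (nat_lit 0))) (.trZ (nat_lit 0) (nat_lit 1) (nat_lit 3) (nat_lit 100) (nat_lit 98) (nat_lit 64) (nat_lit 40) (.leaf ⟨(nat_lit 0), (nat_lit 745), (nat_lit 0), (nat_lit 255), (nat_lit 19211), (nat_lit 5735), (nat_lit 6453),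 (nat_lit 3002), (nat_lit 359001), (nat_lit 0), (nat_lit 0), [], Pd.none, Pd.none, (nat_lit 0), (nat_lit 1), (nat_lit 0), (nat_lit 0), (nat_lit 6), (nat_lit 0), [⟨(nat_lit 0), (nat_lit 100), (nat_lit 99), (nat_lit 72), (nat_lit 862740602)⟩], [⟨(nat_lit 1), (nat_lit 56), (nat_lit 95), (nat_lit 100), (nat_lit 287287156)⟩], [⟨(nat_lit 0), (nat_lit 100), (nat_lit 96), (nat_lit 16), (nat_lit 284018724)⟩], [],
 ⟨⟨[(nat_lit 80), (nat_lit 100)], [(nat_lit 0), (nat_lit 399)], [((nat_lit 0), (nat_lit 0), (nat_lit 0)), ((nat_lit 1000), (nat_lit 938), (nat_lit 310))], ((nat_lit 94), (nat_lit 100), (nat_lit 34))⟩, (nat_lit 5085526), (nat_lit 160), (nat_lit 160), (nat_lit 0), (nat_lit 92818), [(nat_lit 4688000010), (nat_lit 6250000000)], [], [(nat_lit 21780204518), (nat_lit 22397090111), (nat_lit 20684806226), (nat_lit 21249238156), (nat_lit 31189888133), (nat_lit 31730218351), (nat_lit 29357447605), (nat_lit 29736733415)], (nat_lit 1271251), (nat_lit 1271251), (nat_lit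 230000), (nat_lit 780000), (nat_lit 1271251), (nat_lit 1271251), [(nat_lit 1100000), (nat_lit 1442501)], [(nat_lit 15), (nat_lit 50), (nat_lit 238), (nat_lit 30), (nat_lit 8)]⟩,
 ⟨⟨[(nat_lit 80), (nat_lit 100), (nat_lit 120)], [(nat_lit 0), (nat_lit 265), (nat_lit 768)], [((nat_lit 0), (nat_lit 0), (nat_lit 0)), ((nat_lit 1000), (nat_lit 959), (nat_lit 206)), ((nat_lit 1000), (nat_lit 958), (nat_lit 392))], ((nat_lit 95), (nat_lit 100), (nat_lit 34))⟩, (nat_lit 11915032), (nat_lit 244), (nat_lit 244), (nat_lit 0), (nat_lit 60025), [(nat_lit 4688000000), (nat_lit 6250000000), (nat_lit 7968000000)], [], [(nat_lit 17885500664), (nat_lit 19769161605), (nat_lit 16524323211), (nat_lit 18246026310), (nat_lit 15033437732), (nat_lit 16727728630), (nat_lit 14026642612), (nat_lit 15673388390)], (nat_lit 1271251), (nat_lit 1271251), (nat_lit 230000), (nat_lit 780000), (nat_lit 0), (nat_lit 780000), [(nat_lit 1100000), (nat_lit 1442501), (nat_lit 1271251)], [(nat_lit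 16), (nat_lit 54), (nat_lit 272), (nat_lit 60), (nat_lit 9)]⟩,
 ⟨⟨[(nat_lit 140), (nat_lit 160), (nat_lit 180)], [(nat_lit 0), (nat_lit 0), (nat_lit 799)], [((nat_lit 0), (nat_lit 0), (nat_lit 0)), ((nat_lit 0), (nat_lit 0), (nat_lit 0)), ((nat_lit 728), (nat_lit 1000), (nat_lit 454))], ((nat_lit 100), (nat_lit 79), (nat_lit 37))⟩, (nat_lit 224043), (nat_lit 300), (nat_lit 626), (nat_lit 18921000), (nat_lit 540289), [(nat_lit 2509710000), (nat_lit 3027360000), (nat_lit 3584790000)], [], [(nat_lit 14784514964), (nat_lit 14175515766), (nat_lit 15385118338), (nat_lit 14609267415), (nat_lit 12464699536), (nat_lit 11878350461), (nat_lit 12959139657), (nat_lit 12219692890)], (nat_lit 780000), (nat_lit 1435001), (nat_lit 1271251), (nat_lit 1271251), (nat_lit 0), (nat_lit 780000), [(nat_lit 1977501), (nat_lit 1271251), (nat_lit 1271251)], [(nat_lit 31), (nat_lit 65), (nat_lit 428), (nat_lit 200), (nat_lit 10)]⟩⟩))) (.spl (nat_lit 1) (nat_lit 260) (.spl (nat_lit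 6) (nat_lit 4) (.leaf ⟨(nat_lit 0), (nat_lit 0), (nat_lit 0), (nat_lit 1000), (nat_lit 73426), (nat_lit 7182), (nat_lit 6477), (nat_lit 8906), (nat_lit 0), (nat_lit 0), (nat_lit 0), [], Pd.none, Pd.none, (nat_lit 0), (nat_lit 1), (nat_lit 0), (nat_lit 0), (nat_lit 0), (nat_lit 0), [⟨(nat_lit 0), (nat_lit 100), (nat_lit 96), (nat_lit 69), (nat_lit 1210386426)⟩], [], [], [],
 ⟨⟨[(nat_lit 80), (nat_lit 100)], [(nat_lit 0), (nat_lit 399)], [((nat_lit 0), (nat_lit 0), (nat_lit 0)), ((nat_lit 1000), (nat_lit 938), (nat_lit 310))], ((nat_lit 95), (nat_lit 100), (nat_lit 20))⟩, (nat_lit 21228074), (nat_lit 151), (nat_lit 151), (nat_lit 0), (nat_lit 31345), [(nat_lit 4688000007), (nat_lit 6250000000)], [], [(nat_lit 19231234738), (nat_lit 19993602029), (nat_lit 17142008509), (nat_lit 17830272178), (nat_lit 34851002947), (nat_lit 35451450629), (nat_lit 30076360389), (nat_lit 30639492778)], (nat_lit 1271251), (nat_lit 1271251), (nat_lit 169688), (nat_lit 780000),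 (nat_lit 1271251), (nat_lit 1271251), [(nat_lit 1100000), (nat_lit 1442501)], [(nat_lit 15), (nat_lit 50), (nat_lit 238), (nat_lit 30), (nat_lit 8)]⟩,
 ⟨⟨[(nat_lit 80), (nat_lit 100)], [(nat_lit 0), (nat_lit 0)], [((nat_lit 0), (nat_lit 0), (nat_lit 0)), ((nat_lit 0), (nat_lit 0), (nat_lit 0))], ((nat_lit 98), (nat_lit 100), (nat_lit 20))⟩, (nat_lit 2240730), (nat_lit 197), (nat_lit 197), (nat_lit 0), (nat_lit 37778), [(nat_lit 4688000000), (nat_lit 6250000000)], [], [(nat_lit 35761973583), (nat_lit 32399880684), (nat_lit 29420752003), (nat_lit 26346571874), (nat_lit 48114299046), (nat_lit 45199325095), (nat_lit 53273492580), (nat_lit 50440706193)], (nat_lit 1271251), (nat_lit 1271251), (nat_lit 169688), (nat_lit 780000), (nat_lit 780000), (nat_lit 2826876), [(nat_lit 1100000), (nat_lit 1442501)], [(nat_lit 15), (nat_lit 50), (nat_lit 345), (nat_lit 125), (nat_lit 13)]⟩,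
 ⟨⟨[(nat_lit 140), (nat_lit 160)], [(nat_lit 0), (nat_lit 0)], [((nat_lit 0), (nat_lit 0), (nat_lit 0)), ((nat_lit 0), (nat_lit 0), (nat_lit 0))], ((nat_lit 100), (nat_lit 89), (nat_lit 22))⟩, (nat_lit 2240730), (nat_lit 294), (nat_lit 294), (nat_lit 0), (nat_lit 242593), [(nat_lit 9842000000), (nat_lit 11872000000)], [], [(nat_lit 34067485348), (nat_lit 34455459224), (nat_lit 42377966742), (nat_lit 41571720899), (nat_lit 40220187094), (nat_lit 41911294430), (nat_lit 44335953222), (nat_lit 42701730310)], (nat_lit 780000), (nat_lit 1435001), (nat_lit 1271251), (nat_lit 1271251), (nat_lit 780000), (nat_lit 2826876), [(nat_lit 1977501), (nat_lit 1271251)], [(nat_lit 30), (nat_lit 62), (nat_lit 483), (nat_lit 250), (nat_lit 12)]⟩⟩) (.dle (nat_lit 0))) (.trZ (nat_lit 0) (nat_lit 1) (nat_lit 3) (nat_lit 100) (nat_lit 98) (nat_lit 64) (nat_lit 40) (.leaf ⟨(nat_lit 0), (nat_lit 74), (nat_lit 0), (nat_lit 926), (nat_lit 0), (nat_lit 7510), (nat_lit 11781), (nat_lit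 11184), (nat_lit 264175), (nat_lit 0), (nat_lit 0), [], Pd.none, Pd.none, (nat_lit 0), (nat_lit 1), (nat_lit 0), (nat_lit 0), (nat_lit 6), (nat_lit 0), [⟨(nat_lit 0), (nat_lit 100), (nat_lit 99), (nat_lit 72), (nat_lit 1166910714)⟩], [], [], [],
 ⟨⟨[(nat_lit 80), (nat_lit 100)], [(nat_lit 0), (nat_lit 399)], [((nat_lit 0), (nat_lit 0), (nat_lit 0)), ((nat_lit 1000), (nat_lit 938), (nat_lit 310))], ((nat_lit 94), (nat_lit 100), (nat_lit 34))⟩, (nat_lit 6983177), (nat_lit 160), (nat_lit 160), (nat_lit 0), (nat_lit 92818), [(nat_lit 4688000014), (nat_lit 6250000000)], [], [(nat_lit 18262086198), (nat_lit 19038526868), (nat_lit 16477840503), (nat_lit 17183916048), (nat_lit 34686756558), (nat_lit 35298980767), (nat_lit 30478789493), (nat_lit 31054093388)], (nat_lit 1271251), (nat_lit 1271251), (nat_lit 230000), (nat_lit 780000), (nat_lit 1271251), (nat_lit 1271251), [(nat_lit 1100000), (nat_lit 1442501)], [(nat_lit 15), (nat_lit 50), (nat_lit 238), (nat_lit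 30), (nat_lit 8)]⟩,
 ⟨⟨[(nat_lit 80), (nat_lit 100), (nat_lit 120)], [(nat_lit 0), (nat_lit 265), (nat_lit 768)], [((nat_lit 0), (nat_lit 0), (nat_lit 0)), ((nat_lit 1000), (nat_lit 959), (nat_lit 206)), ((nat_lit 1000), (nat_lit 958), (nat_lit 392))], ((nat_lit 95), (nat_lit 100), (nat_lit 34))⟩, (nat_lit 32833202), (nat_lit 187), (nat_lit 187), (nat_lit 0), (nat_lit 94806), [(nat_lit 4688000000), (nat_lit 6250000000), (nat_lit 7968000000)], [], [(nat_lit 21827147806), (nat_lit 15734606601), (nat_lit 7759948516), (nat_lit 10188608612), (nat_lit 38778246120), (nat_lit 40548949110), (nat_lit 43977225205), (nat_lit 38759310595)], (nat_lit 1271251), (nat_lit 1271251), (nat_lit 230000), (nat_lit 780000), (nat_lit 780000), (nat_lit 2826876), [(nat_lit 1100000), (nat_lit 1442501), (nat_lit 1271251)], [(nat_lit 16), (nat_lit 54), (nat_lit 345), (nat_lit 125), (nat_lit 11)]⟩,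
 ⟨⟨[(nat_lit 140), (nat_lit 160), (nat_lit 180)], [(nat_lit 0), (nat_lit 0), (nat_lit 799)], [((nat_lit 0), (nat_lit 0), (nat_lit 0)), ((nat_lit 0), (nat_lit 0), (nat_lit 0)), ((nat_lit 728), (nat_lit 1000), (nat_lit 454))], ((nat_lit 100), (nat_lit 79), (nat_lit 37))⟩, (nat_lit 1248752), (nat_lit 300), (nat_lit 709), (nat_lit 68709200), (nat_lit 925041), [(nat_lit 9113692000), (nat_lit 10993472000), (nat_lit 13017708000)], [], [(nat_lit 44990877499), (nat_lit 42405726210), (nat_lit 46393960118), (nat_lit 43610816580), (nat_lit 42013990701), (nat_lit 40111424376), (nat_lit 43444835340), (nat_lit 40870445991)], (nat_lit 780000), (nat_lit 1435001), (nat_lit 1271251), (nat_lit 1271251), (nat_lit 780000), (nat_lit 2826876), [(nat_lit 1977501), (nat_lit 1271251), (nat_lit 1271251)], [(nat_lit 31), (nat_lit 65), (nat_lit 483), (nat_lit 250), (nat_lit 11)]⟩⟩))))) (.spl (nat_lit 5) (nat_lit 120) (.leaf ⟨(nat_lit 0), (nat_lit 709), (nat_lit 0), (nat_lit 291),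 (nat_lit 37693), (nat_lit 6118), (nat_lit 11337), (nat_lit 3508), (nat_lit 8906), (nat_lit 0), (nat_lit 0), [], Pd.none, Pd.none, (nat_lit 0), (nat_lit 1), (nat_lit 0), (nat_lit 0), (nat_lit 6), (nat_lit 0), [], [⟨(nat_lit 1), (nat_lit 56), (nat_lit 95), (nat_lit 100), (nat_lit 1482819)⟩], [], [⟨(nat_lit 0), (nat_lit 84), (nat_lit 100), (nat_lit 41), (nat_lit 630848074)⟩],
 ⟨⟨[(nat_lit 80), (nat_lit 100)], [(nat_lit 0), (nat_lit 399)], [((nat_lit 0), (nat_lit 0), (nat_lit 0)), ((nat_lit 1000), (nat_lit 938), (nat_lit 310))], ((nat_lit 94), (nat_lit 100), (nat_lit 34))⟩, (nat_lit 12204056), (nat_lit 140), (nat_lit 140), (nat_lit 0), (nat_lit 164152), [(nat_lit 4688000003), (nat_lit 6250000000)], [], [(nat_lit 19296504761), (nat_lit 19926988442), (nat_lit 20762584182), (nat_lit 21308895638), (nat_lit 28906595586), (nat_lit 29294568848), (nat_lit 29165019801), (nat_lit 29501821655)], (nat_lit 1271251), (nat_lit 1271251), (nat_lit 780000), (nat_lit 1435001),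 (nat_lit 1271251), (nat_lit 1271251), [(nat_lit 1100000), (nat_lit 1442501)], [(nat_lit 15), (nat_lit 50), (nat_lit 260), (nat_lit 50), (nat_lit 9)]⟩,
 ⟨⟨[(nat_lit 80), (nat_lit 100), (nat_lit 120)], [(nat_lit 0), (nat_lit 0), (nat_lit 511)], [((nat_lit 0), (nat_lit 0), (nat_lit 0)), ((nat_lit 0), (nat_lit 0), (nat_lit 0)), ((nat_lit 1000), (nat_lit 997), (nat_lit 383))], ((nat_lit 99), (nat_lit 100), (nat_lit 34))⟩, (nat_lit 938236), (nat_lit 220), (nat_lit 220), (nat_lit 0), (nat_lit 136735), [(nat_lit 4688000000), (nat_lit 6250000000), (nat_lit 7968000000)], [], [(nat_lit 37878086060), (nat_lit 26154845807), (nat_lit 34001630438), (nat_lit 25007750198), (nat_lit 29410395141), (nat_lit 18793742453), (nat_lit 40500079112), (nat_lit 30161829133)], (nat_lit 1271251), (nat_lit 1271251), (nat_lit 780000), (nat_lit 1435001), (nat_lit 0), (nat_lit 780000), [(nat_lit 1100000), (nat_lit 1442501), (nat_lit 1271251)], [(nat_lit 16), (nat_lit 54), (nat_lit 317),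 (nat_lit 100), (nat_lit 11)]⟩,
 ⟨⟨[(nat_lit 140), (nat_lit 160), (nat_lit 180)], [(nat_lit 0), (nat_lit 0), (nat_lit 799)], [((nat_lit 0), (nat_lit 0), (nat_lit 0)), ((nat_lit 0), (nat_lit 0), (nat_lit 0)), ((nat_lit 728), (nat_lit 1000), (nat_lit 454))], ((nat_lit 100), (nat_lit 79), (nat_lit 37))⟩, (nat_lit 2450709), (nat_lit 300), (nat_lit 626), (nat_lit 21592200), (nat_lit 540289), [(nat_lit 2864022000), (nat_lit 3454752000), (nat_lit 4090878000)], [], [(nat_lit 16759128916), (nat_lit 16038192234), (nat_lit 17439972633), (nat_lit 16658526640), (nat_lit 14035713350), (nat_lit 13343297557), (nat_lit 14595130947), (nat_lit 13722810810)], (nat_lit 780000), (nat_lit 1435001), (nat_lit 1271251), (nat_lit 1271251), (nat_lit 0), (nat_lit 780000), [(nat_lit 1977501), (nat_lit 1271251), (nat_lit 1271251)], [(nat_lit 31), (nat_lit 65), (nat_lit 428), (nat_lit 200), (nat_lit 10)]⟩⟩) (.leaf ⟨(nat_lit 0), (nat_lit 103), (nat_lit 0), (nat_lit 897), (nat_lit 0),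 (nat_lit 8098), (nat_lit 12917), (nat_lit 8940), (nat_lit 317072064716), (nat_lit 0), (nat_lit 0), [], Pd.none, Pd.none, (nat_lit 0), (nat_lit 1), (nat_lit 0), (nat_lit 0), (nat_lit 6), (nat_lit 0), [], [], [], [],
 ⟨⟨[(nat_lit 80), (nat_lit 100)], [(nat_lit 0), (nat_lit 399)], [((nat_lit 0), (nat_lit 0), (nat_lit 0)), ((nat_lit 1000), (nat_lit 938), (nat_lit 310))], ((nat_lit 94), (nat_lit 100), (nat_lit 34))⟩, (nat_lit 7143984), (nat_lit 140), (nat_lit 140), (nat_lit 0), (nat_lit 164152), [(nat_lit 4688000009), (nat_lit 6250000000)], [], [(nat_lit 15287197823), (nat_lit 16025537628), (nat_lit 16841566390), (nat_lit 17766123676), (nat_lit 31200217277), (nat_lit 31797340823), (nat_lit 30904883042), (nat_lit 31420672378)], (nat_lit 1271251), (nat_lit 1271251), (nat_lit 780000), (nat_lit 1435001), (nat_lit 1271251), (nat_lit 1271251), [(nat_lit 1100000), (nat_lit 1442501)], [(nat_lit 15), (nat_lit 50), (nat_lit 260), (nat_lit 50), (nat_lit 9)]⟩,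
 ⟨⟨[(nat_lit 80), (nat_lit 100), (nat_lit 120)], [(nat_lit 0), (nat_lit 0), (nat_lit 511)], [((nat_lit 0), (nat_lit 0), (nat_lit 0)), ((nat_lit 0), (nat_lit 0), (nat_lit 0)), ((nat_lit 1000), (nat_lit 997), (nat_lit 383))], ((nat_lit 99), (nat_lit 100), (nat_lit 34))⟩, (nat_lit 8453178), (nat_lit 172), (nat_lit 172), (nat_lit 0), (nat_lit 173897), [(nat_lit 4688000000), (nat_lit 6250000000), (nat_lit 7968000000)], [], [(nat_lit 22146537187), (nat_lit 9947267684), (nat_lit 15051770815), (nat_lit 12801505328), (nat_lit 44377580646), (nat_lit 39534459057), (nat_lit 57286259320), (nat_lit 45809530654)], (nat_lit 1271251), (nat_lit 1271251), (nat_lit 780000), (nat_lit 1435001), (nat_lit 780000), (nat_lit 3072501), [(nat_lit 1100000), (nat_lit 1442501), (nat_lit 1271251)], [(nat_lit 16), (nat_lit 54), (nat_lit 373), (nat_lit 150), (nat_lit 12)]⟩,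
 ⟨⟨[(nat_lit 140), (nat_lit 160), (nat_lit 180)], [(nat_lit 0), (nat_lit 0), (nat_lit 799)], [((nat_lit 0), (nat_lit 0), (nat_lit 0)), ((nat_lit 0), (nat_lit 0), (nat_lit 0)), ((nat_lit 728), (nat_lit 1000), (nat_lit 454))], ((nat_lit 100), (nat_lit 79), (nat_lit 37))⟩, (nat_lit 960701), (nat_lit 300), (nat_lit 709), (nat_lit 66557400), (nat_lit 925041), [(nat_lit 8828274000), (nat_lit 10649184000), (nat_lit 12610026000)], [], [(nat_lit 50589948739), (nat_lit 48686517600), (nat_lit 50770375622), (nat_lit 48560961592), (nat_lit 47533386741), (nat_lit 45256634229), (nat_lit 46372934663), (nat_lit 43941568516)], (nat_lit 780000), (nat_lit 1435001), (nat_lit 1271251), (nat_lit 1271251), (nat_lit 780000), (nat_lit 3072501), [(nat_lit 1977501), (nat_lit 1271251), (nat_lit 1271251)], [(nat_lit 31), (nat_lit 65), (nat_lit 483), (nat_lit 250), (nat_lit 11)]⟩⟩)))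
noncomputable def c2_7 : Tr Lf :=
 (.stt (nat_lit 3) (.spl (nat_lit 2) (nat_lit 240) (.spl (nat_lit 6) (nat_lit 12) (.leaf ⟨(nat_lit 0), (nat_lit 0), (nat_lit 147), (nat_lit 853), (nat_lit 123545), (nat_lit 8821), (nat_lit 7344), (nat_lit 17814), (nat_lit 50290), (nat_lit 0), (nat_lit 0), [], Pd.none, Pd.none, (nat_lit 0), (nat_lit 1), (nat_lit 0), (nat_lit 0), (nat_lit 0), (nat_lit 6), [⟨(nat_lit 0), (nat_lit 100), (nat_lit 98), (nat_lit 64), (nat_lit 1604282424)⟩, ⟨(nat_lit 0), (nat_lit 100), (nat_lit 100), (nat_lit 80), (nat_lit 11497333)⟩], [], [], [],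
 ⟨⟨[(nat_lit 80), (nat_lit 100), (nat_lit 120)], [(nat_lit 0), (nat_lit 265), (nat_lit 768)], [((nat_lit 0), (nat_lit 0), (nat_lit 0)), ((nat_lit 1000), (nat_lit 959), (nat_lit 206)), ((nat_lit 1000), (nat_lit 958), (nat_lit 392))], ((nat_lit 95), (nat_lit 100), (nat_lit 34))⟩, (nat_lit 53386332), (nat_lit 199), (nat_lit 199), (nat_lit 0), (nat_lit 129693), [(nat_lit 4688000006), (nat_lit 6250000006), (nat_lit 7968000000)], [], [(nat_lit 21079468619), (nat_lit 16483605228), (nat_lit 8810046368), (nat_lit 10818112242), (nat_lit 23849832537), (nat_lit 26052075166), (nat_lit 18585096332), (nat_lit 20022423465)], (nat_lit 1271251), (nat_lit 1271251), (nat_lit 111251), (nat_lit 780000), (nat_lit 780000), (nat_lit 2090001), [(nat_lit 1100000), (nat_lit 1442501), (nat_lit 1271251)], [(nat_lit 16), (nat_lit 54), (nat_lit 317), (nat_lit 100), (nat_lit 10)]⟩,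
 ⟨⟨[(nat_lit 80), (nat_lit 100), (nat_lit 120)], [(nat_lit 0), (nat_lit 0), (nat_lit 511)], [((nat_lit 0), (nat_lit 0), (nat_lit 0)), ((nat_lit 0), (nat_lit 0), (nat_lit 0)), ((nat_lit 1000), (nat_lit 997), (nat_lit 383))], ((nat_lit 99), (nat_lit 100), (nat_lit 34))⟩, (nat_lit 0), (nat_lit 272), (nat_lit 272), (nat_lit 0), (nat_lit 134080), [(nat_lit 3998864000), (nat_lit 5331250000), (nat_lit 6796704000)], [], [(nat_lit 36394295592), (nat_lit 28743371472), (nat_lit 23507556012), (nat_lit 22085065321), (nat_lit 42408420332), (nat_lit 35924850716), (nat_lit 48187103616), (nat_lit 41901682464)], (nat_lit 1271251), (nat_lit 1271251), (nat_lit 111251), (nat_lit 780000), (nat_lit 0), (nat_lit 2825001), [(nat_lit 1100000), (nat_lit 1442501), (nat_lit 1271251)], [(nat_lit 16), (nat_lit 54), (nat_lit 373), (nat_lit 150), (nat_lit 13)]⟩,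
 ⟨⟨[(nat_lit 100), (nat_lit 120), (nat_lit 140)], [(nat_lit 0), (nat_lit 0), (nat_lit 533)], [((nat_lit 0), (nat_lit 0), (nat_lit 0)), ((nat_lit 0), (nat_lit 0), (nat_lit 0)), ((nat_lit 924), (nat_lit 1000), (nat_lit 383))], ((nat_lit 100), (nat_lit 94), (nat_lit 34))⟩, (nat_lit 16930728), (nat_lit 160), (nat_lit 160), (nat_lit 0), (nat_lit 0), [(nat_lit 6250000000), (nat_lit 7968000000), (nat_lit 9842000000)], [], [(nat_lit 12161027082), (nat_lit 15962955672), (nat_lit 29181833492), (nat_lit 33166275208), (nat_lit 41738054618), (nat_lit 42642986220), (nat_lit 42947104214), (nat_lit 42895496860)], (nat_lit 0), (nat_lit 0), (nat_lit 0), (nat_lit 0), (nat_lit 0), (nat_lit 0), [], [(nat_lit 22), (nat_lit 58), (nat_lit 483), (nat_lit 250), (nat_lit 14)]⟩⟩) (.dle (nat_lit 0))) (.trZ (nat_lit 1) (nat_lit 2) (nat_lit 5) (nat_lit 100) (nat_lit 100) (nat_lit 40) (nat_lit 10) (.leaf ⟨(nat_lit 0), (nat_lit 0), (nat_lit 547), (nat_lit 453), (nat_lit 23947), (nat_lit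 3214), (nat_lit 1115), (nat_lit 8830), (nat_lit 20579030607169), (nat_lit 16811942690101), (nat_lit 0), [], Pd.none, Pd.none, (nat_lit 0), (nat_lit 1), (nat_lit 0), (nat_lit 0), (nat_lit 0), (nat_lit 6), [⟨(nat_lit 0), (nat_lit 100), (nat_lit 98), (nat_lit 64), (nat_lit 406787624)⟩], [], [], [],
 ⟨⟨[(nat_lit 80), (nat_lit 100), (nat_lit 120)], [(nat_lit 0), (nat_lit 265), (nat_lit 768)], [((nat_lit 0), (nat_lit 0), (nat_lit 0)), ((nat_lit 1000), (nat_lit 959), (nat_lit 206)), ((nat_lit 1000), (nat_lit 958), (nat_lit 392))], ((nat_lit 97), (nat_lit 100), (nat_lit 48))⟩, (nat_lit 6054788), (nat_lit 241), (nat_lit 241), (nat_lit 0), (nat_lit 273575), [(nat_lit 4688000002), (nat_lit 6250000002), (nat_lit 7968000000)], [], [(nat_lit 30896181242), (nat_lit 29750062761), (nat_lit 31419427709), (nat_lit 29893966085), (nat_lit 37661846701), (nat_lit 36167098463), (nat_lit 41538375308), (nat_lit 40091883271)], (nat_lit 1271251), (nat_lit 1271251), (nat_lit 111251),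 (nat_lit 780000), (nat_lit 780000), (nat_lit 2090001), [(nat_lit 1100000), (nat_lit 1442501), (nat_lit 1271251)], [(nat_lit 16), (nat_lit 54), (nat_lit 317), (nat_lit 100), (nat_lit 10)]⟩,
 ⟨⟨[(nat_lit 80), (nat_lit 120), (nat_lit 140)], [(nat_lit 0), (nat_lit 0), (nat_lit 1164)], [((nat_lit 0), (nat_lit 0), (nat_lit 0)), ((nat_lit 0), (nat_lit 0), (nat_lit 0)), ((nat_lit 941), (nat_lit 1000), (nat_lit 576))], ((nat_lit 100), (nat_lit 98), (nat_lit 48))⟩, (nat_lit 1292426), (nat_lit 426), (nat_lit 426), (nat_lit 0), (nat_lit 282303), [(nat_lit 2123664000), (nat_lit 3609504000), (nat_lit 4458426000)], [], [(nat_lit 18003114324), (nat_lit 18281759036), (nat_lit 17767279673), (nat_lit 18437600376), (nat_lit 22178668953), (nat_lit 21778519663), (nat_lit 23921359426), (nat_lit 22967077756)], (nat_lit 1271251), (nat_lit 1271251), (nat_lit 111251), (nat_lit 780000), (nat_lit 54688), (nat_lit 2845626), [(nat_lit 1100000), (nat_lit 1785001), (nat_lit 1271251)],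 [(nat_lit 17), (nat_lit 58), (nat_lit 428), (nat_lit 200), (nat_lit 13)]⟩,
 ⟨⟨[(nat_lit 80), (nat_lit 120), (nat_lit 140)], [(nat_lit 0), (nat_lit 0), (nat_lit 1164)], [((nat_lit 0), (nat_lit 0), (nat_lit 0)), ((nat_lit 0), (nat_lit 0), (nat_lit 0)), ((nat_lit 941), (nat_lit 1000), (nat_lit 576))], ((nat_lit 100), (nat_lit 98), (nat_lit 48))⟩, (nat_lit 4861756), (nat_lit 167), (nat_lit 167), (nat_lit 0), (nat_lit 0), [(nat_lit 4688000000), (nat_lit 7968000000), (nat_lit 9842000000)], [], [(nat_lit 19141285176), (nat_lit 23228870690), (nat_lit 26767948500), (nat_lit 29861208003), (nat_lit 32299848920), (nat_lit 33962662560), (nat_lit 33682494700), (nat_lit 35272715510)], (nat_lit 0), (nat_lit 0), (nat_lit 0), (nat_lit 0), (nat_lit 0), (nat_lit 0), [], [(nat_lit 17), (nat_lit 58), (nat_lit 483), (nat_lit 250), (nat_lit 14)]⟩⟩))) (.spl (nat_lit 4) (nat_lit 200) (.spl (nat_lit 6) (nat_lit 12) (.spl (nat_lit 5) (nat_lit 120) (.leaf ⟨(nat_lit 0), (nat_lit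 378), (nat_lit 622), (nat_lit 0), (nat_lit 11069), (nat_lit 8588), (nat_lit 3700), (nat_lit 3904), (nat_lit 2983259), (nat_lit 56631971), (nat_lit 0), [], Pd.none, Pd.none, (nat_lit 0), (nat_lit 1), (nat_lit 0), (nat_lit 0), (nat_lit 5), (nat_lit 6), [⟨(nat_lit 0), (nat_lit 100), (nat_lit 98), (nat_lit 64), (nat_lit 409132373)⟩], [], [⟨(nat_lit 0), (nat_lit 100), (nat_lit 97), (nat_lit 49), (nat_lit 10604724)⟩], [],
 ⟨⟨[(nat_lit 80), (nat_lit 100), (nat_lit 120)], [(nat_lit 0), (nat_lit 265), (nat_lit 768)], [((nat_lit 0), (nat_lit 0), (nat_lit 0)), ((nat_lit 1000), (nat_lit 959), (nat_lit 206)), ((nat_lit 1000), (nat_lit 958), (nat_lit 392))], ((nat_lit 95), (nat_lit 100), (nat_lit 34))⟩, (nat_lit 8091208), (nat_lit 199), (nat_lit 199), (nat_lit 0), (nat_lit 123038), [(nat_lit 4688001529), (nat_lit 6250001919), (nat_lit 7968000000)], [], [(nat_lit 14117538424), (nat_lit 16328817806), (nat_lit 10466723783), (nat_lit 12276155342), (nat_lit 16182512600),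 (nat_lit 18844569030), (nat_lit 14776519044), (nat_lit 13997620634)], (nat_lit 1271251), (nat_lit 1271251), (nat_lit 111251), (nat_lit 780000), (nat_lit 780000), (nat_lit 1435001), [(nat_lit 1100000), (nat_lit 1442501), (nat_lit 1271251)], [(nat_lit 16), (nat_lit 54), (nat_lit 317), (nat_lit 100), (nat_lit 10)]⟩,
 ⟨⟨[(nat_lit 80), (nat_lit 100), (nat_lit 120)], [(nat_lit 0), (nat_lit 0), (nat_lit 511)], [((nat_lit 0), (nat_lit 0), (nat_lit 0)), ((nat_lit 0), (nat_lit 0), (nat_lit 0)), ((nat_lit 1000), (nat_lit 997), (nat_lit 383))], ((nat_lit 99), (nat_lit 100), (nat_lit 34))⟩, (nat_lit 0), (nat_lit 269), (nat_lit 269), (nat_lit 0), (nat_lit 125878), [(nat_lit 1772064000), (nat_lit 2362500000), (nat_lit 3011904000)], [], [(nat_lit 13279800520), (nat_lit 11498392828), (nat_lit 9803692456), (nat_lit 9307434936), (nat_lit 9813231318), (nat_lit 8779416776), (nat_lit 11794717756), (nat_lit 8329813906)], (nat_lit 1271251), (nat_lit 1271251), (nat_lit 111251),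 (nat_lit 780000), (nat_lit 0), (nat_lit 780000), [(nat_lit 1100000), (nat_lit 1442501), (nat_lit 1271251)], [(nat_lit 16), (nat_lit 54), (nat_lit 272), (nat_lit 60), (nat_lit 9)]⟩,
 ⟨⟨[(nat_lit 100), (nat_lit 120), (nat_lit 140)], [(nat_lit 0), (nat_lit 0), (nat_lit 533)], [((nat_lit 0), (nat_lit 0), (nat_lit 0)), ((nat_lit 0), (nat_lit 0), (nat_lit 0)), ((nat_lit 924), (nat_lit 1000), (nat_lit 383))], ((nat_lit 100), (nat_lit 94), (nat_lit 34))⟩, (nat_lit 637172), (nat_lit 300), (nat_lit 345), (nat_lit 41300800), (nat_lit 308725), [(nat_lit 3887500000), (nat_lit 4956096000), (nat_lit 6121724000)], [], [(nat_lit 26228367792), (nat_lit 25801545446), (nat_lit 24564433499), (nat_lit 26037720044), (nat_lit 22138043389), (nat_lit 23680763473), (nat_lit 22580540491), (nat_lit 23888131961)], (nat_lit 1271251), (nat_lit 1271251), (nat_lit 780000), (nat_lit 1435001), (nat_lit 0), (nat_lit 780000), [(nat_lit 1412501), (nat_lit 1271251), (nat_lit 1271251)], [(nat_lit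 22), (nat_lit 58), (nat_lit 373), (nat_lit 150), (nat_lit 11)]⟩⟩) (.leaf ⟨(nat_lit 0), (nat_lit 0), (nat_lit 0), (nat_lit 1000), (nat_lit 26718), (nat_lit 8232), (nat_lit 3196), (nat_lit 7490), (nat_lit 1138), (nat_lit 5622742936954), (nat_lit 0), [], Pd.none, Pd.none, (nat_lit 0), (nat_lit 1), (nat_lit 0), (nat_lit 0), (nat_lit 0), (nat_lit 0), [⟨(nat_lit 0), (nat_lit 100), (nat_lit 98), (nat_lit 64), (nat_lit 1002805782)⟩], [], [], [],
 ⟨⟨[(nat_lit 80), (nat_lit 100), (nat_lit 120)], [(nat_lit 0), (nat_lit 265), (nat_lit 768)], [((nat_lit 0), (nat_lit 0), (nat_lit 0)), ((nat_lit 1000), (nat_lit 959), (nat_lit 206)), ((nat_lit 1000), (nat_lit 958), (nat_lit 392))], ((nat_lit 95), (nat_lit 100), (nat_lit 34))⟩, (nat_lit 8508320), (nat_lit 199), (nat_lit 199), (nat_lit 0), (nat_lit 123038), [(nat_lit 4688000002), (nat_lit 6250000001), (nat_lit 7968000000)], [], [(nat_lit 13943382228), (nat_lit 16092411690), (nat_lit 11114001483), (nat_lit 12875101899),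 (nat_lit 16136830725), (nat_lit 18602556670), (nat_lit 15338035227), (nat_lit 14606175987)], (nat_lit 1271251), (nat_lit 1271251), (nat_lit 111251), (nat_lit 780000), (nat_lit 780000), (nat_lit 1435001), [(nat_lit 1100000), (nat_lit 1442501), (nat_lit 1271251)], [(nat_lit 16), (nat_lit 54), (nat_lit 317), (nat_lit 100), (nat_lit 10)]⟩,
 ⟨⟨[(nat_lit 80), (nat_lit 100), (nat_lit 120)], [(nat_lit 0), (nat_lit 0), (nat_lit 511)], [((nat_lit 0), (nat_lit 0), (nat_lit 0)), ((nat_lit 0), (nat_lit 0), (nat_lit 0)), ((nat_lit 1000), (nat_lit 997), (nat_lit 383))], ((nat_lit 99), (nat_lit 100), (nat_lit 34))⟩, (nat_lit 5956965), (nat_lit 217), (nat_lit 217), (nat_lit 0), (nat_lit 125878), [(nat_lit 4688000000), (nat_lit 6250000000), (nat_lit 7968000000)], [], [(nat_lit 34157108728), (nat_lit 32998767709), (nat_lit 34577699844), (nat_lit 33020568800), (nat_lit 48380761344), (nat_lit 45523048356), (nat_lit 52487872160), (nat_lit 49718678784)], (nat_lit 1271251),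 (nat_lit 1271251), (nat_lit 111251), (nat_lit 780000), (nat_lit 780000), (nat_lit 3072501), [(nat_lit 1100000), (nat_lit 1442501), (nat_lit 1271251)], [(nat_lit 16), (nat_lit 54), (nat_lit 373), (nat_lit 150), (nat_lit 12)]⟩,
 ⟨⟨[(nat_lit 100), (nat_lit 120), (nat_lit 140)], [(nat_lit 0), (nat_lit 0), (nat_lit 533)], [((nat_lit 0), (nat_lit 0), (nat_lit 0)), ((nat_lit 0), (nat_lit 0), (nat_lit 0)), ((nat_lit 924), (nat_lit 1000), (nat_lit 383))], ((nat_lit 100), (nat_lit 94), (nat_lit 34))⟩, (nat_lit 1024390), (nat_lit 300), (nat_lit 341), (nat_lit 66400001), (nat_lit 482224), [(nat_lit 6250000000), (nat_lit 7968000000), (nat_lit 9842000000)], [], [(nat_lit 32752846861), (nat_lit 35379755800), (nat_lit 33857223280), (nat_lit 35487984986), (nat_lit 53606880240), (nat_lit 41550892418), (nat_lit 62190399770), (nat_lit 48878460220)], (nat_lit 1271251), (nat_lit 1271251), (nat_lit 780000), (nat_lit 1435001), (nat_lit 780000), (nat_lit 3072501), [(nat_lit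 1412501), (nat_lit 1271251), (nat_lit 1271251)], [(nat_lit 22), (nat_lit 58), (nat_lit 456), (nat_lit 225), (nat_lit 13)]⟩⟩)) (.spl (nat_lit 1) (nat_lit 260) (.ord (.dle (nat_lit 0))) (.trZ (nat_lit 0) (nat_lit 1) (nat_lit 3) (nat_lit 100) (nat_lit 100) (nat_lit 60) (nat_lit 30) (.leaf ⟨(nat_lit 0), (nat_lit 453), (nat_lit 0), (nat_lit 547), (nat_lit 65321), (nat_lit 7081), (nat_lit 8375), (nat_lit 4479), (nat_lit 17305), (nat_lit 31495697336845), (nat_lit 0), [], Pd.none, Pd.none, (nat_lit 0), (nat_lit 1), (nat_lit 0), (nat_lit 0), (nat_lit 5), (nat_lit 0), [⟨(nat_lit 0), (nat_lit 100), (nat_lit 100), (nat_lit 70), (nat_lit 1344616900)⟩], [], [], [],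
 ⟨⟨[(nat_lit 80), (nat_lit 100), (nat_lit 120)], [(nat_lit 0), (nat_lit 265), (nat_lit 768)], [((nat_lit 0), (nat_lit 0), (nat_lit 0)), ((nat_lit 1000), (nat_lit 959), (nat_lit 206)), ((nat_lit 1000), (nat_lit 958), (nat_lit 392))], ((nat_lit 97), (nat_lit 100), (nat_lit 48))⟩, (nat_lit 0), (nat_lit 188), (nat_lit 188), (nat_lit 0), (nat_lit 48146), [(nat_lit 4688000006), (nat_lit 90825184993), (nat_lit 7968000000)], [], [(nat_lit 12247468970), (nat_lit 14579190394), (nat_lit 10177093655), (nat_lit 12291242165), (nat_lit 15092995102), (nat_lit 17111707131), (nat_lit 12874902806), (nat_lit 14691422388)], (nat_lit 1271251), (nat_lit 1271251), (nat_lit 169688), (nat_lit 780000), (nat_lit 780000), (nat_lit 1435001), [(nat_lit 1100000), (nat_lit 1442501), (nat_lit 1271251)], [(nat_lit 16), (nat_lit 54), (nat_lit 317), (nat_lit 100), (nat_lit 10)]⟩,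
 ⟨⟨[(nat_lit 80), (nat_lit 100), (nat_lit 120)], [(nat_lit 0), (nat_lit 265), (nat_lit 768)], [((nat_lit 0), (nat_lit 0), (nat_lit 0)), ((nat_lit 1000), (nat_lit 959), (nat_lit 206)), ((nat_lit 1000), (nat_lit 958), (nat_lit 392))], ((nat_lit 97), (nat_lit 100), (nat_lit 48))⟩, (nat_lit 0), (nat_lit 248), (nat_lit 248), (nat_lit 0), (nat_lit 48146), [(nat_lit 4688000000), (nat_lit 6250000000), (nat_lit 7968000000)], [], [(nat_lit 35888061610), (nat_lit 31541726594), (nat_lit 24686903000), (nat_lit 26087702125), (nat_lit 46317097657), (nat_lit 42631739625), (nat_lit 52749964875), (nat_lit 49166059500)], (nat_lit 1271251), (nat_lit 1271251), (nat_lit 169688), (nat_lit 780000), (nat_lit 0), (nat_lit 2825001), [(nat_lit 1100000), (nat_lit 1442501), (nat_lit 1271251)], [(nat_lit 16), (nat_lit 54), (nat_lit 373), (nat_lit 150), (nat_lit 13)]⟩,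
 ⟨⟨[(nat_lit 100), (nat_lit 140), (nat_lit 160)], [(nat_lit 0), (nat_lit 0), (nat_lit 1280)], [((nat_lit 0), (nat_lit 0), (nat_lit 0)), ((nat_lit 0), (nat_lit 0), (nat_lit 0)), ((nat_lit 800), (nat_lit 1000), (nat_lit 600))], ((nat_lit 100), (nat_lit 88), (nat_lit 47))⟩, (nat_lit 266663), (nat_lit 300), (nat_lit 362), (nat_lit 38454100), (nat_lit 176803), [(nat_lit 3418750000), (nat_lit 5383574000), (nat_lit 6493984000)], [], [(nat_lit 24676539017), (nat_lit 25897203494), (nat_lit 24595366964), (nat_lit 25592104391), (nat_lit 25022179678), (nat_lit 25167176590), (nat_lit 29919325087), (nat_lit 24333691182)], (nat_lit 1271251), (nat_lit 1271251), (nat_lit 780000), (nat_lit 1435001), (nat_lit 0), (nat_lit 2825001), [(nat_lit 1412501), (nat_lit 1271251), (nat_lit 1271251)], [(nat_lit 23), (nat_lit 62), (nat_lit 456), (nat_lit 225), (nat_lit 12)]⟩⟩)))) (.trX (nat_lit 5) (nat_lit 4) (nat_lit 3) (nat_lit 100) (nat_lit 40) (nat_lit 92) (nat_lit 390) (.spl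 (nat_lit 2) (nat_lit 240) (.spl (nat_lit 6) (nat_lit 12) (.leaf ⟨(nat_lit 0), (nat_lit 0), (nat_lit 0), (nat_lit 1000), (nat_lit 58012), (nat_lit 7540), (nat_lit 9090), (nat_lit 18048), (nat_lit 1456687), (nat_lit 0), (nat_lit 0), [], Pd.none, Pd.none, (nat_lit 0), (nat_lit 1), (nat_lit 0), (nat_lit 0), (nat_lit 0), (nat_lit 0), [⟨(nat_lit 0), (nat_lit 100), (nat_lit 98), (nat_lit 64), (nat_lit 1715163627)⟩], [], [⟨(nat_lit 0), (nat_lit 100), (nat_lit 96), (nat_lit 40), (nat_lit 39012571)⟩], [],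
 ⟨⟨[(nat_lit 80), (nat_lit 100), (nat_lit 120)], [(nat_lit 0), (nat_lit 265), (nat_lit 768)], [((nat_lit 0), (nat_lit 0), (nat_lit 0)), ((nat_lit 1000), (nat_lit 959), (nat_lit 206)), ((nat_lit 1000), (nat_lit 958), (nat_lit 392))], ((nat_lit 95), (nat_lit 100), (nat_lit 34))⟩, (nat_lit 15689931), (nat_lit 154), (nat_lit 154), (nat_lit 0), (nat_lit 63671), [(nat_lit 4688000865), (nat_lit 6571956847), (nat_lit 7968000000)], [], [(nat_lit 16390154538), (nat_lit 18132128150), (nat_lit 13920263345), (nat_lit 15476209960), (nat_lit 22572131913), (nat_lit 24560605905), (nat_lit 18387433985), (nat_lit 19677354730)], (nat_lit 1271251), (nat_lit 1271251), (nat_lit 111251), (nat_lit 780000), (nat_lit 1271251), (nat_lit 1271251), [(nat_lit 1100000), (nat_lit 1442501), (nat_lit 1271251)], [(nat_lit 16), (nat_lit 54), (nat_lit 317), (nat_lit 100), (nat_lit 10)]⟩,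
 ⟨⟨[(nat_lit 80), (nat_lit 100), (nat_lit 120)], [(nat_lit 0), (nat_lit 0), (nat_lit 511)], [((nat_lit 0), (nat_lit 0), (nat_lit 0)), ((nat_lit 0), (nat_lit 0), (nat_lit 0)), ((nat_lit 1000), (nat_lit 997), (nat_lit 383))], ((nat_lit 99), (nat_lit 100), (nat_lit 34))⟩, (nat_lit 8286838), (nat_lit 264), (nat_lit 264), (nat_lit 0), (nat_lit 65349), [(nat_lit 4688000000), (nat_lit 6250000000), (nat_lit 7968000000)], [], [(nat_lit 43146204420), (nat_lit 33676310595), (nat_lit 26897249160), (nat_lit 21337142130), (nat_lit 49018396204), (nat_lit 40967332641), (nat_lit 55957048750), (nat_lit 48152899698)], (nat_lit 1271251), (nat_lit 1271251), (nat_lit 111251), (nat_lit 780000), (nat_lit 0), (nat_lit 2754376), [(nat_lit 1100000), (nat_lit 1442501), (nat_lit 1271251)], [(nat_lit 16), (nat_lit 54), (nat_lit 373), (nat_lit 150), (nat_lit 13)]⟩,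
 ⟨⟨[(nat_lit 100), (nat_lit 120), (nat_lit 140)], [(nat_lit 0), (nat_lit 0), (nat_lit 533)], [((nat_lit 0), (nat_lit 0), (nat_lit 0)), ((nat_lit 0), (nat_lit 0), (nat_lit 0)), ((nat_lit 924), (nat_lit 1000), (nat_lit 383))], ((nat_lit 100), (nat_lit 94), (nat_lit 34))⟩, (nat_lit 3487868), (nat_lit 300), (nat_lit 317), (nat_lit 66400000), (nat_lit 295090), [(nat_lit 6250000000), (nat_lit 7968000000), (nat_lit 9842000000)], [], [(nat_lit 23816275991), (nat_lit 24886800424), (nat_lit 30145538300), (nat_lit 33418052656), (nat_lit 53828659696), (nat_lit 38131007134), (nat_lit 41348335871), (nat_lit 41452159482)], (nat_lit 1271251), (nat_lit 1271251), (nat_lit 1271251), (nat_lit 1271251), (nat_lit 0), (nat_lit 2754376), [(nat_lit 1412501), (nat_lit 1271251), (nat_lit 1271251)], [(nat_lit 22), (nat_lit 58), (nat_lit 483), (nat_lit 250), (nat_lit 14)]⟩⟩) (.dle (nat_lit 0))) (.trZ (nat_lit 1) (nat_lit 2) (nat_lit 5) (nat_lit 100) (nat_lit 100) (nat_lit 40) (nat_lit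 10) (.leaf ⟨(nat_lit 0), (nat_lit 0), (nat_lit 0), (nat_lit 1000), (nat_lit 20419), (nat_lit 8886), (nat_lit 2610), (nat_lit 11381), (nat_lit 521796), (nat_lit 6944892633100), (nat_lit 0), [], Pd.none, Pd.none, (nat_lit 0), (nat_lit 1), (nat_lit 0), (nat_lit 0), (nat_lit 0), (nat_lit 0), [⟨(nat_lit 0), (nat_lit 100), (nat_lit 98), (nat_lit 64), (nat_lit 1166298551)⟩], [], [⟨(nat_lit 0), (nat_lit 100), (nat_lit 100), (nat_lit 60), (nat_lit 379027441)⟩], [],
 ⟨⟨[(nat_lit 80), (nat_lit 100), (nat_lit 120)], [(nat_lit 0), (nat_lit 265), (nat_lit 768)], [((nat_lit 0), (nat_lit 0), (nat_lit 0)), ((nat_lit 1000), (nat_lit 959), (nat_lit 206)), ((nat_lit 1000), (nat_lit 958), (nat_lit 392))], ((nat_lit 97), (nat_lit 100), (nat_lit 48))⟩, (nat_lit 7844612), (nat_lit 166), (nat_lit 166), (nat_lit 0), (nat_lit 125139), [(nat_lit 4688000080), (nat_lit 6250001208), (nat_lit 7968000000)], [], [(nat_lit 16246731027), (nat_lit 19047152410), (nat_lit 11880911952), (nat_lit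 13619515618), (nat_lit 23914665122), (nat_lit 26127754715), (nat_lit 18021106702), (nat_lit 20039932807)], (nat_lit 1271251), (nat_lit 1271251), (nat_lit 111251), (nat_lit 780000), (nat_lit 1271251), (nat_lit 1271251), [(nat_lit 1100000), (nat_lit 1442501), (nat_lit 1271251)], [(nat_lit 16), (nat_lit 54), (nat_lit 317), (nat_lit 100), (nat_lit 10)]⟩,
 ⟨⟨[(nat_lit 80), (nat_lit 120), (nat_lit 140)], [(nat_lit 0), (nat_lit 0), (nat_lit 1164)], [((nat_lit 0), (nat_lit 0), (nat_lit 0)), ((nat_lit 0), (nat_lit 0), (nat_lit 0)), ((nat_lit 941), (nat_lit 1000), (nat_lit 576))], ((nat_lit 100), (nat_lit 98), (nat_lit 48))⟩, (nat_lit 2870497), (nat_lit 337), (nat_lit 337), (nat_lit 0), (nat_lit 128557), [(nat_lit 4688000000), (nat_lit 7968000000), (nat_lit 9842000000)], [], [(nat_lit 40169862969), (nat_lit 40159602325), (nat_lit 38770788140), (nat_lit 40274523030), (nat_lit 48558422374), (nat_lit 47362820763), (nat_lit 52457636590), (nat_lit 50216841318)], (nat_lit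 1271251), (nat_lit 1271251), (nat_lit 111251), (nat_lit 780000), (nat_lit 54688), (nat_lit 2774063), [(nat_lit 1100000), (nat_lit 1785001), (nat_lit 1271251)], [(nat_lit 17), (nat_lit 58), (nat_lit 428), (nat_lit 200), (nat_lit 13)]⟩,
 ⟨⟨[(nat_lit 80), (nat_lit 120), (nat_lit 140)], [(nat_lit 0), (nat_lit 0), (nat_lit 1164)], [((nat_lit 0), (nat_lit 0), (nat_lit 0)), ((nat_lit 0), (nat_lit 0), (nat_lit 0)), ((nat_lit 941), (nat_lit 1000), (nat_lit 576))], ((nat_lit 100), (nat_lit 98), (nat_lit 48))⟩, (nat_lit 469072), (nat_lit 300), (nat_lit 369), (nat_lit 66400002), (nat_lit 436049), [(nat_lit 4688000000), (nat_lit 7968000000), (nat_lit 9842000000)], [], [(nat_lit 31833038174), (nat_lit 33797023844), (nat_lit 34384928561), (nat_lit 36100276337), (nat_lit 43679385300), (nat_lit 34696302453), (nat_lit 35116532717), (nat_lit 36987268431)], (nat_lit 1271251), (nat_lit 1271251), (nat_lit 1271251), (nat_lit 1271251), (nat_lit 54688), (nat_lit 2774063), [(nat_lit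 1100000), (nat_lit 1785001), (nat_lit 1271251)], [(nat_lit 17), (nat_lit 58), (nat_lit 483), (nat_lit 250), (nat_lit 14)]⟩⟩))))))
noncomputable def c2_8 : Tr Lf :=
 (.trX (nat_lit 5) (nat_lit 4) (nat_lit 3) (nat_lit 100) (nat_lit 80) (nat_lit 100) (nat_lit 340) (.spl (nat_lit 0) (nat_lit 270) (.ord (.spl (nat_lit 6) (nat_lit 12) (.leaf ⟨(nat_lit 0), (nat_lit 0), (nat_lit 0), (nat_lit 1000), (nat_lit 38641), (nat_lit 7151), (nat_lit 4207), (nat_lit 9580), (nat_lit 3885), (nat_lit 154349), (nat_lit 0), [], Pd.none, Pd.none, (nat_lit 0), (nat_lit 1), (nat_lit 0), (nat_lit 0), (nat_lit 0), (nat_lit 0), [⟨(nat_lit 0), (nat_lit 100), (nat_lit 98), (nat_lit 60), (nat_lit 968403471)⟩], [], [⟨(nat_lit 0), (nat_lit 100), (nat_lit 98), (nat_lit 45), (nat_lit 390908612)⟩], [],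
 ⟨⟨[(nat_lit 80), (nat_lit 100), (nat_lit 120)], [(nat_lit 0), (nat_lit 265), (nat_lit 768)], [((nat_lit 0), (nat_lit 0), (nat_lit 0)), ((nat_lit 1000), (nat_lit 959), (nat_lit 206)), ((nat_lit 1000), (nat_lit 958), (nat_lit 392))], ((nat_lit 95), (nat_lit 100), (nat_lit 34))⟩, (nat_lit 9947208), (nat_lit 243), (nat_lit 243), (nat_lit 0), (nat_lit 157269), [(nat_lit 4688000001), (nat_lit 6310580115), (nat_lit 7968000000)], [], [(nat_lit 23051283984), (nat_lit 23617198144), (nat_lit 20635808796), (nat_lit 21141444411), (nat_lit 36234282209), (nat_lit 36802014629), (nat_lit 30607005901), (nat_lit 31139989736)], (nat_lit 1271251), (nat_lit 1271251), (nat_lit 111251), (nat_lit 780000), (nat_lit 1271251), (nat_lit 1271251), [(nat_lit 1100000), (nat_lit 1442501), (nat_lit 1271251)], [(nat_lit 16), (nat_lit 54), (nat_lit 238), (nat_lit 30), (nat_lit 7)]⟩,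
 ⟨⟨[(nat_lit 80), (nat_lit 100), (nat_lit 120)], [(nat_lit 0), (nat_lit 0), (nat_lit 511)], [((nat_lit 0), (nat_lit 0), (nat_lit 0)), ((nat_lit 0), (nat_lit 0), (nat_lit 0)), ((nat_lit 1000), (nat_lit 997), (nat_lit 383))], ((nat_lit 99), (nat_lit 100), (nat_lit 34))⟩, (nat_lit 7207629), (nat_lit 278), (nat_lit 278), (nat_lit 0), (nat_lit 162744), [(nat_lit 4688000000), (nat_lit 6250000000), (nat_lit 7968000000)], [], [(nat_lit 38267413566), (nat_lit 35414133069), (nat_lit 33620534668), (nat_lit 34881563534), (nat_lit 45748359532), (nat_lit 42908513450), (nat_lit 50247088980), (nat_lit 47495826147)], (nat_lit 1271251), (nat_lit 1271251), (nat_lit 111251), (nat_lit 780000), (nat_lit 0), (nat_lit 2401251), [(nat_lit 1100000), (nat_lit 1442501), (nat_lit 1271251)], [(nat_lit 16), (nat_lit 54), (nat_lit 345), (nat_lit 125), (nat_lit 12)]⟩,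
 ⟨⟨[(nat_lit 100), (nat_lit 120), (nat_lit 140)], [(nat_lit 0), (nat_lit 0), (nat_lit 533)], [((nat_lit 0), (nat_lit 0), (nat_lit 0)), ((nat_lit 0), (nat_lit 0), (nat_lit 0)), ((nat_lit 924), (nat_lit 1000), (nat_lit 383))], ((nat_lit 100), (nat_lit 94), (nat_lit 34))⟩, (nat_lit 1293926), (nat_lit 300), (nat_lit 349), (nat_lit 66400000), (nat_lit 275437), [(nat_lit 6250000000), (nat_lit 7968000000), (nat_lit 9842000000)], [], [(nat_lit 37139439314), (nat_lit 38634452998), (nat_lit 44155214921), (nat_lit 44779983551), (nat_lit 33257067194), (nat_lit 33627017219), (nat_lit 37666924190), (nat_lit 38670266900)], (nat_lit 1271251), (nat_lit 1271251), (nat_lit 1271251), (nat_lit 1271251), (nat_lit 0), (nat_lit 2401251), [(nat_lit 1412501), (nat_lit 1271251), (nat_lit 1271251)], [(nat_lit 22), (nat_lit 58), (nat_lit 401), (nat_lit 175), (nat_lit 11)]⟩⟩) (.dle (nat_lit 0)))) (.trZ (nat_lit 0) (nat_lit 1) (nat_lit 3) (nat_lit 100) (nat_lit 96) (nat_lit 54) (nat_lit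 30) (.leaf ⟨(nat_lit 0), (nat_lit 0), (nat_lit 0), (nat_lit 1000), (nat_lit 22162), (nat_lit 7412), (nat_lit 2285), (nat_lit 11195), (nat_lit 28697), (nat_lit 23735), (nat_lit 0), [], Pd.none, Pd.none, (nat_lit 0), (nat_lit 1), (nat_lit 0), (nat_lit 0), (nat_lit 0), (nat_lit 0), [⟨(nat_lit 0), (nat_lit 100), (nat_lit 97), (nat_lit 67), (nat_lit 901797485)⟩], [], [⟨(nat_lit 0), (nat_lit 100), (nat_lit 97), (nat_lit 49), (nat_lit 530531171)⟩], [],
 ⟨⟨[(nat_lit 80), (nat_lit 100), (nat_lit 120)], [(nat_lit 0), (nat_lit 399), (nat_lit 897)], [((nat_lit 0), (nat_lit 0), (nat_lit 0)), ((nat_lit 1000), (nat_lit 938), (nat_lit 310)), ((nat_lit 1000), (nat_lit 938), (nat_lit 389))], ((nat_lit 95), (nat_lit 100), (nat_lit 48))⟩, (nat_lit 5692340), (nat_lit 273), (nat_lit 273), (nat_lit 0), (nat_lit 271099), [(nat_lit 4688000005), (nat_lit 6262778133), (nat_lit 7968000000)], [], [(nat_lit 22855960691), (nat_lit 23642641784), (nat_lit 20449942810), (nat_lit 20952094979),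 (nat_lit 36566379295), (nat_lit 37142505990), (nat_lit 31487054029), (nat_lit 32028826452)], (nat_lit 1271251), (nat_lit 1271251), (nat_lit 169688), (nat_lit 780000), (nat_lit 1271251), (nat_lit 1271251), [(nat_lit 1100000), (nat_lit 1442501), (nat_lit 1271251)], [(nat_lit 16), (nat_lit 54), (nat_lit 238), (nat_lit 30), (nat_lit 7)]⟩,
 ⟨⟨[(nat_lit 80), (nat_lit 120), (nat_lit 140)], [(nat_lit 0), (nat_lit 0), (nat_lit 1164)], [((nat_lit 0), (nat_lit 0), (nat_lit 0)), ((nat_lit 0), (nat_lit 0), (nat_lit 0)), ((nat_lit 941), (nat_lit 1000), (nat_lit 576))], ((nat_lit 100), (nat_lit 98), (nat_lit 48))⟩, (nat_lit 2717656), (nat_lit 426), (nat_lit 426), (nat_lit 0), (nat_lit 281716), [(nat_lit 4688000000), (nat_lit 7968000000), (nat_lit 9842000000)], [], [(nat_lit 39229547423), (nat_lit 40720314724), (nat_lit 39751534420), (nat_lit 41212646740), (nat_lit 46426480042), (nat_lit 46510209348), (nat_lit 49841582760), (nat_lit 47849146163)], (nat_lit 1271251),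 (nat_lit 1271251), (nat_lit 169688), (nat_lit 780000), (nat_lit 0), (nat_lit 2401251), [(nat_lit 1100000), (nat_lit 1785001), (nat_lit 1271251)], [(nat_lit 17), (nat_lit 58), (nat_lit 428), (nat_lit 200), (nat_lit 13)]⟩,
 ⟨⟨[(nat_lit 100), (nat_lit 140), (nat_lit 160)], [(nat_lit 0), (nat_lit 0), (nat_lit 1280)], [((nat_lit 0), (nat_lit 0), (nat_lit 0)), ((nat_lit 0), (nat_lit 0), (nat_lit 0)), ((nat_lit 800), (nat_lit 1000), (nat_lit 600))], ((nat_lit 100), (nat_lit 88), (nat_lit 47))⟩, (nat_lit 487500), (nat_lit 300), (nat_lit 499), (nat_lit 70300000), (nat_lit 486792), [(nat_lit 6250000000), (nat_lit 9842000000), (nat_lit 11872000000)], [], [(nat_lit 46787648040), (nat_lit 46812584135), (nat_lit 50500963870), (nat_lit 50831878280), (nat_lit 36907533352), (nat_lit 36191125245), (nat_lit 40194393135), (nat_lit 40956798040)], (nat_lit 1271251), (nat_lit 1271251), (nat_lit 1271251), (nat_lit 1271251), (nat_lit 0), (nat_lit 2401251), [(nat_lit 1412501),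 (nat_lit 1271251), (nat_lit 1271251)], [(nat_lit 23), (nat_lit 62), (nat_lit 538), (nat_lit 300), (nat_lit 13)]⟩⟩))))
noncomputable def c2_9 : Tr Lf :=
 (.spl (nat_lit 2) (nat_lit 240) (.spl (nat_lit 6) (nat_lit 12) (.leaf ⟨(nat_lit 0), (nat_lit 109), (nat_lit 0), (nat_lit 891), (nat_lit 35141), (nat_lit 9090), (nat_lit 3466), (nat_lit 4742), (nat_lit 1390919), (nat_lit 0), (nat_lit 0), [], Pd.none, Pd.none, (nat_lit 0), (nat_lit 1), (nat_lit 0), (nat_lit 0), (nat_lit 5), (nat_lit 0), [], [], [⟨(nat_lit 0), (nat_lit 100), (nat_lit 96), (nat_lit 40), (nat_lit 256371117)⟩], [],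
 ⟨⟨[(nat_lit 80), (nat_lit 100), (nat_lit 120)], [(nat_lit 0), (nat_lit 265), (nat_lit 768)], [((nat_lit 0), (nat_lit 0), (nat_lit 0)), ((nat_lit 1000), (nat_lit 959), (nat_lit 206)), ((nat_lit 1000), (nat_lit 958), (nat_lit 392))], ((nat_lit 95), (nat_lit 100), (nat_lit 34))⟩, (nat_lit 10035808), (nat_lit 183), (nat_lit 183), (nat_lit 0), (nat_lit 206717), [(nat_lit 4688001155), (nat_lit 6250001067), (nat_lit 7968000000)], [], [(nat_lit 8882276765), (nat_lit 10760381997), (nat_lit 13313526732), (nat_lit 13454554175), (nat_lit 36183353677), (nat_lit 34316646890), (nat_lit 46149382092), (nat_lit 42111158682)], (nat_lit 1271251), (nat_lit 1271251), (nat_lit 780000), (nat_lit 1435001), (nat_lit 780000), (nat_lit 3072501), [(nat_lit 1100000), (nat_lit 1442501), (nat_lit 1271251)], [(nat_lit 16), (nat_lit 54), (nat_lit 373), (nat_lit 150), (nat_lit 12)]⟩,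
 ⟨⟨[(nat_lit 80), (nat_lit 100), (nat_lit 120)], [(nat_lit 0), (nat_lit 0), (nat_lit 511)], [((nat_lit 0), (nat_lit 0), (nat_lit 0)), ((nat_lit 0), (nat_lit 0), (nat_lit 0)), ((nat_lit 1000), (nat_lit 997), (nat_lit 383))], ((nat_lit 99), (nat_lit 100), (nat_lit 34))⟩, (nat_lit 6036575), (nat_lit 226), (nat_lit 226), (nat_lit 0), (nat_lit 214266), [(nat_lit 4688000000), (nat_lit 6250000000), (nat_lit 7968000000)], [], [(nat_lit 36248284736), (nat_lit 32610923056), (nat_lit 35255455680), (nat_lit 34228618974), (nat_lit 48380531360), (nat_lit 45377394864), (nat_lit 54075196232), (nat_lit 51144599650)], (nat_lit 1271251), (nat_lit 1271251), (nat_lit 780000), (nat_lit 1435001), (nat_lit 0), (nat_lit 2825001), [(nat_lit 1100000), (nat_lit 1442501), (nat_lit 1271251)], [(nat_lit 16), (nat_lit 54), (nat_lit 373), (nat_lit 150), (nat_lit 12)]⟩,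
 ⟨⟨[(nat_lit 100), (nat_lit 120), (nat_lit 140)], [(nat_lit 0), (nat_lit 0), (nat_lit 533)], [((nat_lit 0), (nat_lit 0), (nat_lit 0)), ((nat_lit 0), (nat_lit 0), (nat_lit 0)), ((nat_lit 924), (nat_lit 1000), (nat_lit 383))], ((nat_lit 100), (nat_lit 94), (nat_lit 34))⟩, (nat_lit 912737), (nat_lit 300), (nat_lit 356), (nat_lit 59162400), (nat_lit 295090), [(nat_lit 5568750000), (nat_lit 7099488000), (nat_lit 8769222000)], [], [(nat_lit 36262734097), (nat_lit 37149948197), (nat_lit 43460338099), (nat_lit 43704610819), (nat_lit 50359361820), (nat_lit 45978493572), (nat_lit 43292919008), (nat_lit 43204060549)], (nat_lit 1271251), (nat_lit 1271251), (nat_lit 1271251), (nat_lit 1271251), (nat_lit 0), (nat_lit 2825001), [(nat_lit 1412501), (nat_lit 1271251), (nat_lit 1271251)], [(nat_lit 22), (nat_lit 58), (nat_lit 538), (nat_lit 300), (nat_lit 16)]⟩⟩) (.dle (nat_lit 0))) (.trZ (nat_lit 1) (nat_lit 2) (nat_lit 5) (nat_lit 100) (nat_lit 100) (nat_lit 40) (nat_lit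 10) (.leaf ⟨(nat_lit 0), (nat_lit 0), (nat_lit 0), (nat_lit 1000), (nat_lit 10600), (nat_lit 11634), (nat_lit 3799), (nat_lit 6258), (nat_lit 41734), (nat_lit 495208139828), (nat_lit 0), [], Pd.none, Pd.none, (nat_lit 0), (nat_lit 1), (nat_lit 0), (nat_lit 0), (nat_lit 0), (nat_lit 0), [], [], [⟨(nat_lit 0), (nat_lit 100), (nat_lit 100), (nat_lit 60), (nat_lit 466184527)⟩], [],
 ⟨⟨[(nat_lit 80), (nat_lit 100), (nat_lit 120)], [(nat_lit 0), (nat_lit 265), (nat_lit 768)], [((nat_lit 0), (nat_lit 0), (nat_lit 0)), ((nat_lit 1000), (nat_lit 959), (nat_lit 206)), ((nat_lit 1000), (nat_lit 958), (nat_lit 392))], ((nat_lit 97), (nat_lit 100), (nat_lit 48))⟩, (nat_lit 234036), (nat_lit 269), (nat_lit 269), (nat_lit 0), (nat_lit 422011), [(nat_lit 4688000001), (nat_lit 6250000038), (nat_lit 7968000000)], [], [(nat_lit 16936705437), (nat_lit 15165430495), (nat_lit 14630969250), (nat_lit 16711818598), (nat_lit 38545672794), (nat_lit 37785189914), (nat_lit 50567618273),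 (nat_lit 45399225407)], (nat_lit 1271251), (nat_lit 1271251), (nat_lit 780000), (nat_lit 1435001), (nat_lit 780000), (nat_lit 3072501), [(nat_lit 1100000), (nat_lit 1442501), (nat_lit 1271251)], [(nat_lit 16), (nat_lit 54), (nat_lit 373), (nat_lit 150), (nat_lit 12)]⟩,
 ⟨⟨[(nat_lit 80), (nat_lit 120), (nat_lit 140)], [(nat_lit 0), (nat_lit 0), (nat_lit 1164)], [((nat_lit 0), (nat_lit 0), (nat_lit 0)), ((nat_lit 0), (nat_lit 0), (nat_lit 0)), ((nat_lit 941), (nat_lit 1000), (nat_lit 576))], ((nat_lit 100), (nat_lit 98), (nat_lit 48))⟩, (nat_lit 2890815), (nat_lit 392), (nat_lit 392), (nat_lit 0), (nat_lit 436049), [(nat_lit 4688000000), (nat_lit 7968000000), (nat_lit 9842000000)], [], [(nat_lit 38264732205), (nat_lit 37893585447), (nat_lit 37620286979), (nat_lit 39154446656), (nat_lit 44051312102), (nat_lit 44469887634), (nat_lit 49958742762), (nat_lit 46707338220)], (nat_lit 1271251), (nat_lit 1271251), (nat_lit 780000), (nat_lit 1435001), (nat_lit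 54688), (nat_lit 2845626), [(nat_lit 1100000), (nat_lit 1785001), (nat_lit 1271251)], [(nat_lit 17), (nat_lit 58), (nat_lit 456), (nat_lit 225), (nat_lit 13)]⟩,
 ⟨⟨[(nat_lit 80), (nat_lit 120), (nat_lit 140)], [(nat_lit 0), (nat_lit 0), (nat_lit 1164)], [((nat_lit 0), (nat_lit 0), (nat_lit 0)), ((nat_lit 0), (nat_lit 0), (nat_lit 0)), ((nat_lit 941), (nat_lit 1000), (nat_lit 576))], ((nat_lit 100), (nat_lit 98), (nat_lit 48))⟩, (nat_lit 469072), (nat_lit 300), (nat_lit 392), (nat_lit 66400002), (nat_lit 436049), [(nat_lit 4688000000), (nat_lit 7968000000), (nat_lit 9842000000)], [], [(nat_lit 44018165775), (nat_lit 43351914932), (nat_lit 48450041169), (nat_lit 49098328968), (nat_lit 57743555916), (nat_lit 52253212260), (nat_lit 46755646647), (nat_lit 46897983599)], (nat_lit 1271251), (nat_lit 1271251), (nat_lit 1271251), (nat_lit 1271251), (nat_lit 54688), (nat_lit 2845626), [(nat_lit 1100000), (nat_lit 1785001), (nat_lit 1271251)], [(nat_lit 17), (nat_lit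 58), (nat_lit 538), (nat_lit 300), (nat_lit 16)]⟩⟩)))
noncomputable def c2_10 : Tr Lf :=
 (.spl (nat_lit 2) (nat_lit 200) (.spl (nat_lit 6) (nat_lit 12) (.spl (nat_lit 2) (nat_lit 160) (.trX (nat_lit 4) (nat_lit 0) (nat_lit 2) (nat_lit 97) (nat_lit 49) (nat_lit 100) (nat_lit 380) (.trX (nat_lit 5) (nat_lit 1) (nat_lit 2) (nat_lit 100) (nat_lit 40) (nat_lit 100) (nat_lit 390) (.spl (nat_lit 0) (nat_lit 270) (.ord (.dle (nat_lit 0))) (.trX (nat_lit 4) (nat_lit 0) (nat_lit 2) (nat_lit 96) (nat_lit 54) (nat_lit 100) (nat_lit 370) (.leaf ⟨(nat_lit 0), (nat_lit 665), (nat_lit 0), (nat_lit 335), (nat_lit 25387), (nat_lit 7581), (nat_lit 6715), (nat_lit 1813), (nat_lit 16123), (nat_lit 0), (nat_lit 0), [], Pd.none, Pd.none, (nat_lit 0), (nat_lit 1), (nat_lit 0), (nat_lit 0), (nat_lit 3), (nat_lit 0), [], [⟨(nat_lit 1), (nat_lit 67), (nat_lit 97), (nat_lit 100), (nat_lit 56558390)⟩], [], [],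
 ⟨⟨[(nat_lit 80), (nat_lit 100)], [(nat_lit 0), (nat_lit 399)], [((nat_lit 0), (nat_lit 0), (nat_lit 0)), ((nat_lit 1000), (nat_lit 938), (nat_lit 310))], ((nat_lit 94), (nat_lit 100), (nat_lit 34))⟩, (nat_lit 16218630), (nat_lit 144), (nat_lit 144), (nat_lit 0), (nat_lit 162815), [(nat_lit 4688000001), (nat_lit 6250000000)], [], [(nat_lit 14611731316), (nat_lit 15392251487), (nat_lit 31711781484), (nat_lit 32259244601), (nat_lit 30678841843), (nat_lit 28956336571), (nat_lit 37939794922), (nat_lit 38192665844)], (nat_lit 1271251), (nat_lit 1271251), (nat_lit 1271251), (nat_lit 1271251), (nat_lit 780000), (nat_lit 2826876), [(nat_lit 1100000), (nat_lit 1442501)], [(nat_lit 15), (nat_lit 50), (nat_lit 317), (nat_lit 100), (nat_lit 11)]⟩,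
 ⟨⟨[(nat_lit 80), (nat_lit 100), (nat_lit 120)], [(nat_lit 0), (nat_lit 0), (nat_lit 511)], [((nat_lit 0), (nat_lit 0), (nat_lit 0)), ((nat_lit 0), (nat_lit 0), (nat_lit 0)), ((nat_lit 1000), (nat_lit 997), (nat_lit 383))], ((nat_lit 99), (nat_lit 100), (nat_lit 34))⟩, (nat_lit 4902664), (nat_lit 263), (nat_lit 263), (nat_lit 0), (nat_lit 171659), [(nat_lit 4688000000), (nat_lit 6250000000), (nat_lit 7968000000)], [], [(nat_lit 32561501700), (nat_lit 27952451201), (nat_lit 36042413880), (nat_lit 37844381110), (nat_lit 36752110104), (nat_lit 32412150816), (nat_lit 37179293348), (nat_lit 38079725280)], (nat_lit 1271251), (nat_lit 1271251), (nat_lit 1271251), (nat_lit 1271251), (nat_lit 0), (nat_lit 2754376), [(nat_lit 1100000), (nat_lit 1442501), (nat_lit 1271251)], [(nat_lit 16), (nat_lit 54), (nat_lit 428), (nat_lit 200), (nat_lit 14)]⟩,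
 ⟨⟨[(nat_lit 140), (nat_lit 160), (nat_lit 180)], [(nat_lit 0), (nat_lit 0), (nat_lit 799)], [((nat_lit 0), (nat_lit 0), (nat_lit 0)), ((nat_lit 0), (nat_lit 0), (nat_lit 0)), ((nat_lit 728), (nat_lit 1000), (nat_lit 454))], ((nat_lit 100), (nat_lit 79), (nat_lit 37))⟩, (nat_lit 294330), (nat_lit 300), (nat_lit 861), (nat_lit 24857002), (nat_lit 925041), [(nat_lit 3297070000), (nat_lit 3977120000), (nat_lit 4709430000)], [], [(nat_lit 28687534708), (nat_lit 28514266901), (nat_lit 28472515397), (nat_lit 28271085639), (nat_lit 27467543619), (nat_lit 27270717057), (nat_lit 26934180596), (nat_lit 28163301199)], (nat_lit 780000), (nat_lit 1100000), (nat_lit 780000), (nat_lit 2826876), (nat_lit 0), (nat_lit 2754376), [(nat_lit 1977501), (nat_lit 1271251), (nat_lit 1271251)], [(nat_lit 31), (nat_lit 65), (nat_lit 483), (nat_lit 250), (nat_lit 12)]⟩⟩))))) (.spl (nat_lit 6) (nat_lit 4) (.leaf ⟨(nat_lit 0), (nat_lit 93), (nat_lit 0), (nat_lit 907), (nat_lit 33482),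 (nat_lit 8281), (nat_lit 6596), (nat_lit 6933), (nat_lit 228371), (nat_lit 0), (nat_lit 0), [], Pd.none, Pd.none, (nat_lit 0), (nat_lit 1), (nat_lit 0), (nat_lit 0), (nat_lit 4), (nat_lit 0), [], [], [], [],
 ⟨⟨[(nat_lit 80), (nat_lit 100)], [(nat_lit 0), (nat_lit 265)], [((nat_lit 0), (nat_lit 0), (nat_lit 0)), ((nat_lit 1000), (nat_lit 959), (nat_lit 206))], ((nat_lit 96), (nat_lit 100), (nat_lit 20))⟩, (nat_lit 20216431), (nat_lit 123), (nat_lit 123), (nat_lit 0), (nat_lit 88204), [(nat_lit 4688000014), (nat_lit 6250000000)], [], [(nat_lit 12310837246), (nat_lit 13958843663), (nat_lit 32071571216), (nat_lit 33213639301), (nat_lit 36793449590), (nat_lit 33114623621), (nat_lit 40449125032), (nat_lit 40864314456)], (nat_lit 1271251), (nat_lit 1271251), (nat_lit 1271251), (nat_lit 1271251), (nat_lit 780000), (nat_lit 3072501), [(nat_lit 1100000), (nat_lit 1442501)], [(nat_lit 15), (nat_lit 50), (nat_lit 317), (nat_lit 100), (nat_lit 11)]⟩,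
 ⟨⟨[(nat_lit 80), (nat_lit 100)], [(nat_lit 0), (nat_lit 0)], [((nat_lit 0), (nat_lit 0), (nat_lit 0)), ((nat_lit 0), (nat_lit 0), (nat_lit 0))], ((nat_lit 98), (nat_lit 100), (nat_lit 20))⟩, (nat_lit 0), (nat_lit 203), (nat_lit 203), (nat_lit 0), (nat_lit 89872), [(nat_lit 4688000000), (nat_lit 6250000000)], [], [(nat_lit 32505050480), (nat_lit 27597210044), (nat_lit 36088272672), (nat_lit 37528941384), (nat_lit 37458732160), (nat_lit 33185184556), (nat_lit 37579618528), (nat_lit 38429192896)], (nat_lit 1271251), (nat_lit 1271251), (nat_lit 1271251), (nat_lit 1271251), (nat_lit 0), (nat_lit 2825001), [(nat_lit 1100000), (nat_lit 1442501)], [(nat_lit 15), (nat_lit 50), (nat_lit 317), (nat_lit 100), (nat_lit 12)]⟩,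
 ⟨⟨[(nat_lit 120), (nat_lit 140)], [(nat_lit 0), (nat_lit 0)], [((nat_lit 0), (nat_lit 0), (nat_lit 0)), ((nat_lit 0), (nat_lit 0), (nat_lit 0))], ((nat_lit 100), (nat_lit 94), (nat_lit 20))⟩, (nat_lit 0), (nat_lit 300), (nat_lit 342), (nat_lit 63762100), (nat_lit 234205), [(nat_lit 7226976000), (nat_lit 8926694000)], [], [(nat_lit 35884057692), (nat_lit 36632647400), (nat_lit 52729404056), (nat_lit 56980198652), (nat_lit 50128546388), (nat_lit 54629934269), (nat_lit 79648933916), (nat_lit 84666518312)], (nat_lit 1100000), (nat_lit 1442501), (nat_lit 780000), (nat_lit 3072501), (nat_lit 0), (nat_lit 2825001), [(nat_lit 1695001), (nat_lit 1271251)], [(nat_lit 26), (nat_lit 58), (nat_lit 483), (nat_lit 250), (nat_lit 14)]⟩⟩) (.dle (nat_lit 0)))) (.dle (nat_lit 0))) (.leaf ⟨(nat_lit 0), (nat_lit 116), (nat_lit 0), (nat_lit 884), (nat_lit 21236), (nat_lit 8330), (nat_lit 9592), (nat_lit 9591), (nat_lit 9501), (nat_lit 3174), (nat_lit 0), [], Pd.none, Pd.none,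 (nat_lit 0), (nat_lit 1), (nat_lit 0), (nat_lit 0), (nat_lit 5), (nat_lit 0), [], [], [⟨(nat_lit 0), (nat_lit 100), (nat_lit 97), (nat_lit 49), (nat_lit 264819567)⟩], [],
 ⟨⟨[(nat_lit 80), (nat_lit 100), (nat_lit 120)], [(nat_lit 0), (nat_lit 265), (nat_lit 768)], [((nat_lit 0), (nat_lit 0), (nat_lit 0)), ((nat_lit 1000), (nat_lit 959), (nat_lit 206)), ((nat_lit 1000), (nat_lit 958), (nat_lit 392))], ((nat_lit 97), (nat_lit 100), (nat_lit 48))⟩, (nat_lit 5140546), (nat_lit 269), (nat_lit 269), (nat_lit 0), (nat_lit 422011), [(nat_lit 5397299779), (nat_lit 6250000001), (nat_lit 7968000000)], [], [(nat_lit 24597830094), (nat_lit 20289972676), (nat_lit 32135078915), (nat_lit 33280446930), (nat_lit 41500833720), (nat_lit 37800239550), (nat_lit 40520217760), (nat_lit 40935128080)], (nat_lit 1271251), (nat_lit 1271251), (nat_lit 1271251), (nat_lit 1271251), (nat_lit 780000), (nat_lit 3072501), [(nat_lit 1100000), (nat_lit 1442501), (nat_lit 1271251)], [(nat_lit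 16), (nat_lit 54), (nat_lit 428), (nat_lit 200), (nat_lit 13)]⟩,
 ⟨⟨[(nat_lit 80), (nat_lit 120), (nat_lit 140)], [(nat_lit 0), (nat_lit 0), (nat_lit 1164)], [((nat_lit 0), (nat_lit 0), (nat_lit 0)), ((nat_lit 0), (nat_lit 0), (nat_lit 0)), ((nat_lit 941), (nat_lit 1000), (nat_lit 576))], ((nat_lit 100), (nat_lit 98), (nat_lit 48))⟩, (nat_lit 2861651), (nat_lit 398), (nat_lit 398), (nat_lit 0), (nat_lit 436049), [(nat_lit 4688000000), (nat_lit 7968000000), (nat_lit 9842000000)], [], [(nat_lit 33926292960), (nat_lit 32406404044), (nat_lit 42831437024), (nat_lit 45470600368), (nat_lit 43657867152), (nat_lit 35242498608), (nat_lit 41943496256), (nat_lit 42758940192)], (nat_lit 1271251), (nat_lit 1271251), (nat_lit 1271251), (nat_lit 1271251), (nat_lit 0), (nat_lit 2825001), [(nat_lit 1100000), (nat_lit 1785001), (nat_lit 1271251)], [(nat_lit 17), (nat_lit 58), (nat_lit 538), (nat_lit 300), (nat_lit 15)]⟩,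
 ⟨⟨[(nat_lit 100), (nat_lit 140), (nat_lit 160)], [(nat_lit 0), (nat_lit 0), (nat_lit 1280)], [((nat_lit 0), (nat_lit 0), (nat_lit 0)), ((nat_lit 0), (nat_lit 0), (nat_lit 0)), ((nat_lit 800), (nat_lit 1000), (nat_lit 600))], ((nat_lit 100), (nat_lit 88), (nat_lit 47))⟩, (nat_lit 430950), (nat_lit 300), (nat_lit 535), (nat_lit 62145200), (nat_lit 486792), [(nat_lit 5525000000), (nat_lit 8700328000), (nat_lit 10494848000)], [], [(nat_lit 43503081433), (nat_lit 43565229623), (nat_lit 44944867794), (nat_lit 44842314176), (nat_lit 62055149820), (nat_lit 44563016883), (nat_lit 39091195038), (nat_lit 39405464824)], (nat_lit 1271251), (nat_lit 1271251), (nat_lit 1271251), (nat_lit 1271251), (nat_lit 0), (nat_lit 2825001), [(nat_lit 1412501), (nat_lit 1271251), (nat_lit 1271251)], [(nat_lit 23), (nat_lit 62), (nat_lit 538), (nat_lit 300), (nat_lit 14)]⟩⟩))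
def l001 : List St := [⟨⟨(nat_lit 260), (nat_lit 270), (nat_lit 240), (nat_lit 280), (nat_lit 120), (nat_lit 280), (nat_lit 20), (nat_lit 120), (nat_lit 0), (nat_lit 80), (nat_lit 0), (nat_lit 400), (nat_lit 0), (nat_lit 24)⟩, (nat_lit 3), (nat_lit 3), (nat_lit 3), true, true, false⟩,
  ⟨⟨(nat_lit 270), (nat_lit 280), (nat_lit 240), (nat_lit 280), (nat_lit 120), (nat_lit 280), (nat_lit 20), (nat_lit 120), (nat_lit 0), (nat_lit 80), (nat_lit 0), (nat_lit 400), (nat_lit 0), (nat_lit 24)⟩, (nat_lit 3), (nat_lit 3), (nat_lit 3), true, true, false⟩,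
  ⟨⟨(nat_lit 260), (nat_lit 280), (nat_lit 240), (nat_lit 280), (nat_lit 120), (nat_lit 280), (nat_lit 20), (nat_lit 120), (nat_lit 80), (nat_lit 120), (nat_lit 0), (nat_lit 400), (nat_lit 0), (nat_lit 24)⟩, (nat_lit 3), (nat_lit 3), (nat_lit 3), true, true, false⟩,
  ⟨⟨(nat_lit 260), (nat_lit 280), (nat_lit 240), (nat_lit 280), (nat_lit 120), (nat_lit 280), (nat_lit 120), (nat_lit 280), (nat_lit 0), (nat_lit 120), (nat_lit 0), (nat_lit 400), (nat_lit 0), (nat_lit 24)⟩, (nat_lit 3), (nat_lit 3), (nat_lit 3), false, true, false⟩,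
  ⟨⟨(nat_lit 260), (nat_lit 280), (nat_lit 240), (nat_lit 280), (nat_lit 120), (nat_lit 280), (nat_lit 280), (nat_lit 400), (nat_lit 0), (nat_lit 120), (nat_lit 0), (nat_lit 400), (nat_lit 0), (nat_lit 24)⟩, (nat_lit 3), (nat_lit 3), (nat_lit 3), false, true, false⟩,
  ⟨⟨(nat_lit 270), (nat_lit 280), (nat_lit 240), (nat_lit 280), (nat_lit 120), (nat_lit 200), (nat_lit 30), (nat_lit 200), (nat_lit 120), (nat_lit 240), (nat_lit 0), (nat_lit 400), (nat_lit 0), (nat_lit 12)⟩, (nat_lit 3), (nat_lit 3), (nat_lit 3), false, false, false⟩,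
  ⟨⟨(nat_lit 270), (nat_lit 280), (nat_lit 240), (nat_lit 280), (nat_lit 120), (nat_lit 200), (nat_lit 30), (nat_lit 200), (nat_lit 240), (nat_lit 390), (nat_lit 0), (nat_lit 400), (nat_lit 0), (nat_lit 12)⟩, (nat_lit 3), (nat_lit 3), (nat_lit 3), false, false, false⟩,
  ⟨⟨(nat_lit 260), (nat_lit 280), (nat_lit 240), (nat_lit 280), (nat_lit 200), (nat_lit 280), (nat_lit 20), (nat_lit 120), (nat_lit 120), (nat_lit 280), (nat_lit 0), (nat_lit 400), (nat_lit 0), (nat_lit 24)⟩, (nat_lit 3), (nat_lit 3), (nat_lit 3), true, false, false⟩,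
  ⟨⟨(nat_lit 260), (nat_lit 280), (nat_lit 240), (nat_lit 280), (nat_lit 200), (nat_lit 280), (nat_lit 20), (nat_lit 120), (nat_lit 280), (nat_lit 400), (nat_lit 0), (nat_lit 400), (nat_lit 0), (nat_lit 24)⟩, (nat_lit 3), (nat_lit 3), (nat_lit 3), true, false, false⟩,
  ⟨⟨(nat_lit 260), (nat_lit 280), (nat_lit 240), (nat_lit 280), (nat_lit 200), (nat_lit 280), (nat_lit 120), (nat_lit 200), (nat_lit 120), (nat_lit 400), (nat_lit 0), (nat_lit 400), (nat_lit 0), (nat_lit 24)⟩, (nat_lit 3), (nat_lit 3), (nat_lit 3), false, false, false⟩,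
  ⟨⟨(nat_lit 260), (nat_lit 280), (nat_lit 240), (nat_lit 280), (nat_lit 120), (nat_lit 280), (nat_lit 200), (nat_lit 400), (nat_lit 120), (nat_lit 400), (nat_lit 0), (nat_lit 400), (nat_lit 0), (nat_lit 24)⟩, (nat_lit 3), (nat_lit 3), (nat_lit 3), false, false, false⟩]
theorem t001 (h : EC env Ei) : ∀ τ ∈ l001, Dead τ :=
  List.forall_mem_cons.mpr ⟨chkT_sound0 h (T := c2_0) (by decide +kernel),
  List.forall_mem_cons.mpr ⟨chkT_sound0 h (T := c2_1) (by decide +kernel),
  List.forall_mem_cons.mpr ⟨chkT_sound0 h (T := c2_2) (by decide +kernel),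
  List.forall_mem_cons.mpr ⟨chkT_sound0 h (T := c2_3) (by decide +kernel),
  List.forall_mem_cons.mpr ⟨chkT_sound0 h (T := c2_4) (by decide +kernel),
  List.forall_mem_cons.mpr ⟨chkT_sound0 h (T := c2_5) (by decide +kernel),
  List.forall_mem_cons.mpr ⟨chkT_sound0 h (T := c2_6) (by decide +kernel),
  List.forall_mem_cons.mpr ⟨chkT_sound0 h (T := c2_7) (by decide +kernel),
  List.forall_mem_cons.mpr ⟨chkT_sound0 h (T := c2_8) (by decide +kernel),
  List.forall_mem_cons.mpr ⟨chkT_sound0 h (T := c2_9) (by decide +kernel),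
  List.forall_mem_cons.mpr ⟨chkT_sound0 h (T := c2_10) (by decide +kernel),
  List.forall_mem_nil _⟩⟩⟩⟩⟩⟩⟩⟩⟩⟩⟩
end TC
end Pool.Agent.Lib.MP_6947cd_al
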