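import Pool.Agent.Lib.MP_6947cd_al.C.LeafF
import Pool.Agent.Lib.MP_6947cd_al.TC.E
import Pool.Agent.Lib.MP_6947cd_al.TC.F

/-!
Problem MP_6947cd_al (Chollet).  CASE C, tables and certificates.  Trees of leaves (part 2 of root 3).
-/

set_option autoImplicit false
set_option linter.all false
set_option maxRecDepth 100000
set_option maxHeartbeats 4000000
namespace Pool.Agent.Lib.MP_6947cd_al
namespace TC
open C1
noncomputable def c3_0 : Tr Lf :=
 (.spl (nat_lit 4) (nat_lit 80) (.spl (nat_lit 2) (nat_lit 160) (.spl (nat_lit 0) (nat_lit 310) (.spl (nat_lit 6) (nat_lit 12) (.leaf ⟨(nat_lit 1000), (nat_lit 0), (nat_lit 0), (nat_lit 0), (nat_lit 8860), (nat_lit 4014), (nat_lit 0), (nat_lit 0), (nat_lit 0), (nat_lit 3176), (nat_lit 972400), [((nat_lit 310), [((nat_lit 35), (nat_lit 2), (nat_lit 69)), ((nat_lit 15), (nat_lit 2), (nat_lit 931))])], ⟨(nat_lit 3), false, false, false, (nat_lit 79), (nat_lit 4743), (nat_lit 5000), [(nat_lit 1057141), (nat_lit 1065547),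 (nat_lit 1185713), (nat_lit 1194476), (nat_lit 1199998), (nat_lit 1204947), (nat_lit 1328569), (nat_lit 1333875)]⟩, ⟨(nat_lit 3), false, false, false, (nat_lit 61), (nat_lit 4743), (nat_lit 5000), [(nat_lit 1057141), (nat_lit 1065547), (nat_lit 1099999), (nat_lit 1108523), (nat_lit 1199998), (nat_lit 1204947), (nat_lit 1242856), (nat_lit 1247923)]⟩, (nat_lit 1602468), (nat_lit 62229322), (nat_lit 2825691), (nat_lit 1944987), (nat_lit 0), (nat_lit 0), [⟨(nat_lit 0), (nat_lit 100), (nat_lit 85), (nat_lit 72), (nat_lit 344122723)⟩], [⟨(nat_lit 0), (nat_lit 100), (nat_lit 89), (nat_lit 26), (nat_lit 117866302)⟩], [], [],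
 ⟨⟨[(nat_lit 60), (nat_lit 80), (nat_lit 100)], [(nat_lit 0), (nat_lit 304), (nat_lit 825)], [((nat_lit 0), (nat_lit 0), (nat_lit 0)), ((nat_lit 1000), (nat_lit 905), (nat_lit 238)), ((nat_lit 1000), (nat_lit 871), (nat_lit 407))], ((nat_lit 88), (nat_lit 100), (nat_lit 35))⟩, (nat_lit 1782373), (nat_lit 244), (nat_lit 244), (nat_lit 0), (nat_lit 57424), [(nat_lit 1980711363), (nat_lit 1608317204), (nat_lit 929993196)], [(nat_lit 0), (nat_lit 0), (nat_lit 0)], [(nat_lit 19728390982), (nat_lit 20793612867), (nat_lit 15900871442), (nat_lit 16621024476), (nat_lit 15900871442), (nat_lit 16621024476), (nat_lit 14788936230), (nat_lit 15470087797)], (nat_lit 1271251), (nat_lit 1271251), (nat_lit 0), (nat_lit 490000), (nat_lit 0), (nat_lit 490000), [(nat_lit 780000), (nat_lit 1100000), (nat_lit 1442501)], [(nat_lit 9), (nat_lit 50), (nat_lit 249), (nat_lit 40), (nat_lit 10)]⟩,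
 Rw.none,
 Rw.none⟩) (.dle (nat_lit 0))) (.leaf ⟨(nat_lit 1000), (nat_lit 0), (nat_lit 0), (nat_lit 0), (nat_lit 7205), (nat_lit 3944), (nat_lit 0), (nat_lit 0), (nat_lit 0), (nat_lit 77824), (nat_lit 565600), [((nat_lit 320), [((nat_lit 15), (nat_lit 1), (nat_lit 172)), ((nat_lit 35), (nat_lit 2), (nat_lit 828))])], ⟨(nat_lit 3), false, false, false, (nat_lit 81), (nat_lit 4472), (nat_lit 4744), [(nat_lit 1065547), (nat_lit 1073842), (nat_lit 1194473), (nat_lit 1203238), (nat_lit 1204947), (nat_lit 1209798), (nat_lit 1333872), (nat_lit 1339193)]⟩, ⟨(nat_lit 3), false, false, false, (nat_lit 64), (nat_lit 4472), (nat_lit 4744), [(nat_lit 1065547), (nat_lit 1073842), (nat_lit 1108523), (nat_lit 1116975), (nat_lit 1204947), (nat_lit 1209798), (nat_lit 1247923), (nat_lit 1252931)]⟩, (nat_lit 1689954), (nat_lit 61888720), (nat_lit 3011813), (nat_lit 2099467), (nat_lit 0), (nat_lit 0), [⟨(nat_lit 0), (nat_lit 100), (nat_lit 82), (nat_lit 76), (nat_lit 350310054)⟩],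 [⟨(nat_lit 0), (nat_lit 100), (nat_lit 86), (nat_lit 32), (nat_lit 120908926)⟩], [], [],
 ⟨⟨[(nat_lit 60), (nat_lit 80), (nat_lit 100)], [(nat_lit 0), (nat_lit 456), (nat_lit 976)], [((nat_lit 0), (nat_lit 0), (nat_lit 0)), ((nat_lit 1000), (nat_lit 859), (nat_lit 351)), ((nat_lit 1000), (nat_lit 848), (nat_lit 406))], ((nat_lit 84), (nat_lit 100), (nat_lit 44))⟩, (nat_lit 2167404), (nat_lit 241), (nat_lit 241), (nat_lit 0), (nat_lit 90275), [(nat_lit 1995360044), (nat_lit 2076559132), (nat_lit 1886903268)], [(nat_lit 0), (nat_lit 0), (nat_lit 0)], [(nat_lit 20595373532), (nat_lit 21650180992), (nat_lit 16792403964), (nat_lit 17541757152), (nat_lit 16792403964), (nat_lit 17541757152), (nat_lit 15678980632), (nat_lit 16388341988)], (nat_lit 1271251), (nat_lit 1271251), (nat_lit 0), (nat_lit 490000), (nat_lit 0), (nat_lit 490000), [(nat_lit 780000), (nat_lit 1100000), (nat_lit 1442501)], [(nat_lit 9), (nat_lit 50), (nat_lit 249), (nat_lit 40), (nat_lit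 10)]⟩,
 Rw.none,
 Rw.none⟩)) (.ord (.trZ (nat_lit 0) (nat_lit 1) (nat_lit 3) (nat_lit 100) (nat_lit 88) (nat_lit 32) (nat_lit 10) (.trZ (nat_lit 0) (nat_lit 2) (nat_lit 4) (nat_lit 100) (nat_lit 88) (nat_lit 32) (nat_lit 10) (.spl (nat_lit 6) (nat_lit 12) (.leaf ⟨(nat_lit 1000), (nat_lit 0), (nat_lit 0), (nat_lit 0), (nat_lit 8711), (nat_lit 4044), (nat_lit 0), (nat_lit 0), (nat_lit 0), (nat_lit 3651), (nat_lit 973600), [((nat_lit 320), [((nat_lit 35), (nat_lit 2), (nat_lit 66)), ((nat_lit 15), (nat_lit 2), (nat_lit 934))])], ⟨(nat_lit 4), false, false, false, (nat_lit 92), (nat_lit 4472), (nat_lit 5000), [(nat_lit 1117856), (nat_lit 1133969), (nat_lit 1203563), (nat_lit 1220228), (nat_lit 1242856), (nat_lit 1252931), (nat_lit 1328559), (nat_lit 1339186)]⟩, ⟨(nat_lit 4), false, false, false, (nat_lit 79), (nat_lit 4472), (nat_lit 5000), [(nat_lit 1117856), (nat_lit 1133969), (nat_lit 1139284), (nat_lit 1155536), (nat_lit 1242856), (nat_lit 1252931), (nat_lit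 1264284), (nat_lit 1274498)]⟩, (nat_lit 2107394), (nat_lit 60175785), (nat_lit 3802329), (nat_lit 3021886), (nat_lit 0), (nat_lit 0), [⟨(nat_lit 0), (nat_lit 100), (nat_lit 82), (nat_lit 76), (nat_lit 373301056)⟩], [⟨(nat_lit 0), (nat_lit 100), (nat_lit 84), (nat_lit 42), (nat_lit 158507287)⟩], [], [],
 ⟨⟨[(nat_lit 60), (nat_lit 80), (nat_lit 100)], [(nat_lit 0), (nat_lit 304), (nat_lit 825)], [((nat_lit 0), (nat_lit 0), (nat_lit 0)), ((nat_lit 1000), (nat_lit 905), (nat_lit 238)), ((nat_lit 1000), (nat_lit 871), (nat_lit 407))], ((nat_lit 88), (nat_lit 100), (nat_lit 35))⟩, (nat_lit 1717733), (nat_lit 234), (nat_lit 234), (nat_lit 0), (nat_lit 59076), [(nat_lit 1980743047), (nat_lit 1607120802), (nat_lit 926984798)], [(nat_lit 0), (nat_lit 0), (nat_lit 0)], [(nat_lit 18779873775), (nat_lit 20904324064), (nat_lit 15723124555), (nat_lit 17308065328), (nat_lit 15723124555), (nat_lit 17308065328), (nat_lit 14733608096), (nat_lit 16117973397)], (nat_lit 1271251),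 (nat_lit 1271251), (nat_lit 54688), (nat_lit 490000), (nat_lit 54688), (nat_lit 490000), [(nat_lit 780000), (nat_lit 1100000), (nat_lit 1442501)], [(nat_lit 9), (nat_lit 50), (nat_lit 249), (nat_lit 40), (nat_lit 10)]⟩,
 Rw.none,
 Rw.none⟩) (.dle (nat_lit 0))))))) (.leaf ⟨(nat_lit 1000), (nat_lit 0), (nat_lit 0), (nat_lit 0), (nat_lit 7593), (nat_lit 4400), (nat_lit 0), (nat_lit 0), (nat_lit 0), (nat_lit 12321), (nat_lit 972400), [((nat_lit 320), [((nat_lit 35), (nat_lit 2), (nat_lit 69)), ((nat_lit 15), (nat_lit 2), (nat_lit 931))])], ⟨(nat_lit 3), false, false, false, (nat_lit 80), (nat_lit 4472), (nat_lit 5000), [(nat_lit 1057141), (nat_lit 1073842), (nat_lit 1185707), (nat_lit 1203234), (nat_lit 1199998), (nat_lit 1209798), (nat_lit 1328559), (nat_lit 1339186)]⟩, ⟨(nat_lit 3), false, false, false, (nat_lit 109), (nat_lit 4472), (nat_lit 5000), [(nat_lit 1199998), (nat_lit 1209798), (nat_lit 1264284), (nat_lit 1274498), (nat_lit 1271427), (nat_lit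 1277776), (nat_lit 1335713), (nat_lit 1342476)]⟩, (nat_lit 2388701), (nat_lit 58832109), (nat_lit 3139393), (nat_lit 5028498), (nat_lit 0), (nat_lit 0), [⟨(nat_lit 0), (nat_lit 100), (nat_lit 82), (nat_lit 76), (nat_lit 303941607)⟩], [], [], [],
 ⟨⟨[(nat_lit 60), (nat_lit 80), (nat_lit 100)], [(nat_lit 0), (nat_lit 304), (nat_lit 825)], [((nat_lit 0), (nat_lit 0), (nat_lit 0)), ((nat_lit 1000), (nat_lit 905), (nat_lit 238)), ((nat_lit 1000), (nat_lit 871), (nat_lit 407))], ((nat_lit 87), (nat_lit 100), (nat_lit 44))⟩, (nat_lit 1331525), (nat_lit 206), (nat_lit 206), (nat_lit 0), (nat_lit 91570), [(nat_lit 1980711468), (nat_lit 1615285170), (nat_lit 923025230)], [(nat_lit 0), (nat_lit 0), (nat_lit 0)], [(nat_lit 16109785000), (nat_lit 18294343200), (nat_lit 13062475573), (nat_lit 14710900000), (nat_lit 16426126100), (nat_lit 18503516000), (nat_lit 13615470338), (nat_lit 15117265038)], (nat_lit 1271251), (nat_lit 1271251), (nat_lit 0), (nat_lit 490000),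 (nat_lit 490000), (nat_lit 780000), [(nat_lit 780000), (nat_lit 1100000), (nat_lit 1442501)], [(nat_lit 9), (nat_lit 50), (nat_lit 260), (nat_lit 50), (nat_lit 10)]⟩,
 Rw.none,
 Rw.none⟩))
noncomputable def c3_1 : Tr Lf :=
 (.spl (nat_lit 2) (nat_lit 220) (.spl (nat_lit 0) (nat_lit 310) (.spl (nat_lit 6) (nat_lit 8) (.leaf ⟨(nat_lit 1000), (nat_lit 0), (nat_lit 0), (nat_lit 0), (nat_lit 9716), (nat_lit 3408), (nat_lit 0), (nat_lit 0), (nat_lit 0), (nat_lit 2741139), (nat_lit 972400), [((nat_lit 310), [((nat_lit 35), (nat_lit 2), (nat_lit 69)), ((nat_lit 15), (nat_lit 2), (nat_lit 931))])], ⟨(nat_lit 4), false, false, false, (nat_lit 81), (nat_lit 4743), (nat_lit 5000), [(nat_lit 1139284), (nat_lit 1147436), (nat_lit 1203570), (nat_lit 1211901), (nat_lit 1192856), (nat_lit 1199711), (nat_lit 1257141), (nat_lit 1264176)]⟩, ⟨(nat_lit 4), false, false, false, (nat_lit 105), (nat_lit 4743), (nat_lit 5000), [(nat_lit 1139284), (nat_lit 1147436), (nat_lit 1182141),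 (nat_lit 1190413), (nat_lit 1335713), (nat_lit 1339111), (nat_lit 1378570), (nat_lit 1382087)]⟩, (nat_lit 2339709), (nat_lit 59090097), (nat_lit 3183327), (nat_lit 4726576), (nat_lit 0), (nat_lit 0), [⟨(nat_lit 0), (nat_lit 100), (nat_lit 85), (nat_lit 57), (nat_lit 748807410)⟩], [⟨(nat_lit 0), (nat_lit 100), (nat_lit 84), (nat_lit 63), (nat_lit 109622153)⟩], [], [],
 ⟨⟨[(nat_lit 60), (nat_lit 80)], [(nat_lit 0), (nat_lit 304)], [((nat_lit 0), (nat_lit 0), (nat_lit 0)), ((nat_lit 1000), (nat_lit 905), (nat_lit 238))], ((nat_lit 89), (nat_lit 100), (nat_lit 29))⟩, (nat_lit 1989400), (nat_lit 233), (nat_lit 233), (nat_lit 0), (nat_lit 43984), [(nat_lit 1980711584), (nat_lit 1608317200)], [(nat_lit 0), (nat_lit 0)], [(nat_lit 17281431898), (nat_lit 18249640442), (nat_lit 16072770609), (nat_lit 17029508489), (nat_lit 16087475787), (nat_lit 16828270660), (nat_lit 15703860826), (nat_lit 16428133213)], (nat_lit 1271251), (nat_lit 1271251), (nat_lit 54688), (nat_lit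 230000), (nat_lit 54688), (nat_lit 780000), [(nat_lit 780000), (nat_lit 1100000)], [(nat_lit 8), (nat_lit 44), (nat_lit 249), (nat_lit 40), (nat_lit 12)]⟩,
 Rw.none,
 Rw.none⟩) (.dle (nat_lit 0))) (.trZ (nat_lit 0) (nat_lit 1) (nat_lit 3) (nat_lit 100) (nat_lit 84) (nat_lit 47) (nat_lit 20) (.trZ (nat_lit 0) (nat_lit 2) (nat_lit 4) (nat_lit 100) (nat_lit 84) (nat_lit 47) (nat_lit 20) (.leaf ⟨(nat_lit 1000), (nat_lit 0), (nat_lit 0), (nat_lit 0), (nat_lit 9266), (nat_lit 3435), (nat_lit 0), (nat_lit 0), (nat_lit 0), (nat_lit 8951988394780), (nat_lit 600000), [((nat_lit 320), [((nat_lit 35), (nat_lit 2), (nat_lit 1000))])], ⟨(nat_lit 4), false, false, false, (nat_lit 87), (nat_lit 4472), (nat_lit 4744), [(nat_lit 1164861), (nat_lit 1172530), (nat_lit 1229323), (nat_lit 1237227), (nat_lit 1199711), (nat_lit 1206519), (nat_lit 1264172), (nat_lit 1271215)]⟩, ⟨(nat_lit 4), false, false, false, (nat_lit 111), (nat_lit 4472), (nat_lit 4744), [(nat_lit 1164861),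 (nat_lit 1172530), (nat_lit 1207837), (nat_lit 1215663), (nat_lit 1339111), (nat_lit 1342476), (nat_lit 1382085), (nat_lit 1385607)]⟩, (nat_lit 2532993), (nat_lit 58186252), (nat_lit 3621525), (nat_lit 5192223), (nat_lit 0), (nat_lit 0), [⟨(nat_lit 0), (nat_lit 100), (nat_lit 82), (nat_lit 62), (nat_lit 1164230069)⟩], [⟨(nat_lit 0), (nat_lit 100), (nat_lit 82), (nat_lit 58), (nat_lit 107822537)⟩], [], [],
 ⟨⟨[(nat_lit 60), (nat_lit 80), (nat_lit 100)], [(nat_lit 0), (nat_lit 456), (nat_lit 976)], [((nat_lit 0), (nat_lit 0), (nat_lit 0)), ((nat_lit 1000), (nat_lit 859), (nat_lit 351)), ((nat_lit 1000), (nat_lit 848), (nat_lit 406))], ((nat_lit 84), (nat_lit 100), (nat_lit 44))⟩, (nat_lit 2166875), (nat_lit 220), (nat_lit 220), (nat_lit 0), (nat_lit 69865), [(nat_lit 1990200015), (nat_lit 2045627498), (nat_lit 1797572502)], [(nat_lit 0), (nat_lit 0), (nat_lit 0)], [(nat_lit 17509520805), (nat_lit 18474503563), (nat_lit 16716257574), (nat_lit 17673854695),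 (nat_lit 16683729302), (nat_lit 17421849368), (nat_lit 16412059587), (nat_lit 17139110145)], (nat_lit 1271251), (nat_lit 1271251), (nat_lit 111251), (nat_lit 230000), (nat_lit 111251), (nat_lit 780000), [(nat_lit 780000), (nat_lit 1100000), (nat_lit 1442501)], [(nat_lit 9), (nat_lit 50), (nat_lit 249), (nat_lit 40), (nat_lit 10)]⟩,
 Rw.none,
 Rw.none⟩)))) (.ord (.trZ (nat_lit 0) (nat_lit 1) (nat_lit 3) (nat_lit 100) (nat_lit 87) (nat_lit 59) (nat_lit 30) (.trZ (nat_lit 0) (nat_lit 2) (nat_lit 4) (nat_lit 100) (nat_lit 87) (nat_lit 59) (nat_lit 30) (.leaf ⟨(nat_lit 1000), (nat_lit 0), (nat_lit 0), (nat_lit 0), (nat_lit 11399), (nat_lit 3577), (nat_lit 0), (nat_lit 0), (nat_lit 0), (nat_lit 14730653710978), (nat_lit 972400), [((nat_lit 320), [((nat_lit 35), (nat_lit 2), (nat_lit 69)), ((nat_lit 15), (nat_lit 2), (nat_lit 931))])], ⟨(nat_lit 5), false, false, false, (nat_lit 98), (nat_lit 4472), (nat_lit 5000), [(nat_lit 1217856), (nat_lit 1232658), (nat_lit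 1239276), (nat_lit 1254216), (nat_lit 1235713), (nat_lit 1249652), (nat_lit 1257133), (nat_lit 1271210)]⟩, ⟨(nat_lit 5), false, false, false, (nat_lit 126), (nat_lit 4472), (nat_lit 5000), [(nat_lit 1217856), (nat_lit 1232658), (nat_lit 1239276), (nat_lit 1254216), (nat_lit 1378566), (nat_lit 1385605), (nat_lit 1399984), (nat_lit 1407160)]⟩, (nat_lit 2926865), (nat_lit 56175442), (nat_lit 4384987), (nat_lit 6439571), (nat_lit 0), (nat_lit 0), [⟨(nat_lit 0), (nat_lit 100), (nat_lit 87), (nat_lit 59), (nat_lit 1624318175)⟩], [⟨(nat_lit 0), (nat_lit 100), (nat_lit 87), (nat_lit 59), (nat_lit 118485895)⟩], [], [],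
 ⟨⟨[(nat_lit 60), (nat_lit 80), (nat_lit 100)], [(nat_lit 0), (nat_lit 304), (nat_lit 825)], [((nat_lit 0), (nat_lit 0), (nat_lit 0)), ((nat_lit 1000), (nat_lit 905), (nat_lit 238)), ((nat_lit 1000), (nat_lit 871), (nat_lit 407))], ((nat_lit 87), (nat_lit 100), (nat_lit 44))⟩, (nat_lit 1995565), (nat_lit 216), (nat_lit 216), (nat_lit 0), (nat_lit 87324), [(nat_lit 1980711365), (nat_lit 1608317446), (nat_lit 929992954)], [(nat_lit 0), (nat_lit 0), (nat_lit 0)], [(nat_lit 16017990126), (nat_lit 17974221422), (nat_lit 15617726232), (nat_lit 17566071566), (nat_lit 15610152952), (nat_lit 17104832543), (nat_lit 15467080995), (nat_lit 16950404363)], (nat_lit 1271251), (nat_lit 1271251), (nat_lit 169688), (nat_lit 230000), (nat_lit 169688), (nat_lit 780000), [(nat_lit 780000), (nat_lit 1100000), (nat_lit 1442501)], [(nat_lit 9), (nat_lit 50), (nat_lit 249), (nat_lit 40), (nat_lit 10)]⟩,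
 Rw.none,
 Rw.none⟩)))))
noncomputable def c3_2 : Tr Lf :=
 (.spl (nat_lit 4) (nat_lit 80) (.spl (nat_lit 4) (nat_lit 40) (.spl (nat_lit 2) (nat_lit 220) (.spl (nat_lit 0) (nat_lit 310) (.spl (nat_lit 6) (nat_lit 8) (.leaf ⟨(nat_lit 1000), (nat_lit 0), (nat_lit 0), (nat_lit 0), (nat_lit 9703), (nat_lit 3667), (nat_lit 0), (nat_lit 0), (nat_lit 0), (nat_lit 140941), (nat_lit 1000000), [((nat_lit 310), [((nat_lit 15), (nat_lit 2), (nat_lit 1000))])], ⟨(nat_lit 4), false, false, false, (nat_lit 106), (nat_lit 4743), (nat_lit 5000), [(nat_lit 1192856), (nat_lit 1199711), (nat_lit 1257141), (nat_lit 1264176), (nat_lit 1264284), (nat_lit 1269411), (nat_lit 1328569), (nat_lit 1333875)]⟩, ⟨(nat_lit 4), false, false, false, (nat_lit 77), (nat_lit 4743), (nat_lit 5000), [(nat_lit 1139284), (nat_lit 1147436), (nat_lit 1182141), (nat_lit 1190413), (nat_lit 1192856), (nat_lit 1199711), (nat_lit 1235713), (nat_lit 1242688)]⟩, (nat_lit 2282970), (nat_lit 59317419),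 (nat_lit 4762576), (nat_lit 2920005), (nat_lit 0), (nat_lit 0), [⟨(nat_lit 0), (nat_lit 100), (nat_lit 85), (nat_lit 72), (nat_lit 188964916)⟩], [⟨(nat_lit 0), (nat_lit 100), (nat_lit 84), (nat_lit 63), (nat_lit 590654146)⟩], [], [],
 ⟨⟨[(nat_lit 60), (nat_lit 80)], [(nat_lit 0), (nat_lit 304)], [((nat_lit 0), (nat_lit 0), (nat_lit 0)), ((nat_lit 1000), (nat_lit 905), (nat_lit 238))], ((nat_lit 89), (nat_lit 100), (nat_lit 29))⟩, (nat_lit 1906634), (nat_lit 218), (nat_lit 218), (nat_lit 0), (nat_lit 43984), [(nat_lit 1981440020), (nat_lit 1580800000)], [(nat_lit 0), (nat_lit 0)], [(nat_lit 16556335661), (nat_lit 17551912929), (nat_lit 15103339060), (nat_lit 15904859292), (nat_lit 15360265483), (nat_lit 16343247079), (nat_lit 14641843309), (nat_lit 15419821312)], (nat_lit 1271251), (nat_lit 1271251), (nat_lit 230000), (nat_lit 490000), (nat_lit 54688), (nat_lit 230000), [(nat_lit 780000), (nat_lit 1100000)], [(nat_lit 8), (nat_lit 44), (nat_lit 238), (nat_lit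 30), (nat_lit 11)]⟩,
 Rw.none,
 Rw.none⟩) (.dle (nat_lit 0))) (.trZ (nat_lit 0) (nat_lit 2) (nat_lit 4) (nat_lit 100) (nat_lit 84) (nat_lit 47) (nat_lit 20) (.leaf ⟨(nat_lit 1000), (nat_lit 0), (nat_lit 0), (nat_lit 0), (nat_lit 7924), (nat_lit 3608), (nat_lit 0), (nat_lit 0), (nat_lit 0), (nat_lit 1986065), (nat_lit 569400), [((nat_lit 320), [((nat_lit 15), (nat_lit 1), (nat_lit 153)), ((nat_lit 35), (nat_lit 2), (nat_lit 847))])], ⟨(nat_lit 4), false, false, false, (nat_lit 108), (nat_lit 4472), (nat_lit 4744), [(nat_lit 1199711), (nat_lit 1206519), (nat_lit 1264172), (nat_lit 1271215), (nat_lit 1269411), (nat_lit 1274498), (nat_lit 1333872), (nat_lit 1339193)]⟩, ⟨(nat_lit 4), false, false, false, (nat_lit 83), (nat_lit 4472), (nat_lit 4744), [(nat_lit 1164861), (nat_lit 1172530), (nat_lit 1207837), (nat_lit 1215663), (nat_lit 1199711), (nat_lit 1206519), (nat_lit 1242687), (nat_lit 1249651)]⟩, (nat_lit 2424536), (nat_lit 58690579), (nat_lit 4976717),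 (nat_lit 3332704), (nat_lit 0), (nat_lit 0), [⟨(nat_lit 0), (nat_lit 100), (nat_lit 82), (nat_lit 76), (nat_lit 195441525)⟩], [⟨(nat_lit 0), (nat_lit 100), (nat_lit 82), (nat_lit 58), (nat_lit 599188895)⟩], [], [],
 ⟨⟨[(nat_lit 60), (nat_lit 80), (nat_lit 100)], [(nat_lit 0), (nat_lit 456), (nat_lit 976)], [((nat_lit 0), (nat_lit 0), (nat_lit 0)), ((nat_lit 1000), (nat_lit 859), (nat_lit 351)), ((nat_lit 1000), (nat_lit 848), (nat_lit 406))], ((nat_lit 84), (nat_lit 100), (nat_lit 44))⟩, (nat_lit 2254208), (nat_lit 210), (nat_lit 210), (nat_lit 0), (nat_lit 69865), [(nat_lit 1994790354), (nat_lit 2073369008), (nat_lit 1876812400)], [(nat_lit 0), (nat_lit 0), (nat_lit 0)], [(nat_lit 17038967254), (nat_lit 18021774476), (nat_lit 15834590601), (nat_lit 16628665292), (nat_lit 16251426990), (nat_lit 17225617448), (nat_lit 15518099934), (nat_lit 16304291220)], (nat_lit 1271251), (nat_lit 1271251), (nat_lit 230000), (nat_lit 490000), (nat_lit 111251), (nat_lit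 230000), [(nat_lit 780000), (nat_lit 1100000), (nat_lit 1442501)], [(nat_lit 9), (nat_lit 50), (nat_lit 238), (nat_lit 30), (nat_lit 9)]⟩,
 Rw.none,
 Rw.none⟩))) (.ord (.trZ (nat_lit 0) (nat_lit 2) (nat_lit 4) (nat_lit 100) (nat_lit 87) (nat_lit 59) (nat_lit 30) (.spl (nat_lit 0) (nat_lit 310) (.spl (nat_lit 6) (nat_lit 12) (.leaf ⟨(nat_lit 1000), (nat_lit 0), (nat_lit 0), (nat_lit 0), (nat_lit 10276), (nat_lit 3666), (nat_lit 0), (nat_lit 0), (nat_lit 0), (nat_lit 351824), (nat_lit 972800), [((nat_lit 310), [((nat_lit 35), (nat_lit 2), (nat_lit 68)), ((nat_lit 15), (nat_lit 2), (nat_lit 932))])], ⟨(nat_lit 5), false, false, false, (nat_lit 114), (nat_lit 4743), (nat_lit 5000), [(nat_lit 1235713), (nat_lit 1242688), (nat_lit 1257141), (nat_lit 1264176), (nat_lit 1307141), (nat_lit 1312387), (nat_lit 1328569), (nat_lit 1333875)]⟩, ⟨(nat_lit 5), false, false, false, (nat_lit 96), (nat_lit 4743), (nat_lit 5000), [(nat_lit 1217856), (nat_lit 1225263), (nat_lit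 1239284), (nat_lit 1246751), (nat_lit 1235713), (nat_lit 1242688), (nat_lit 1257141), (nat_lit 1264176)]⟩, (nat_lit 2731188), (nat_lit 57241237), (nat_lit 5502931), (nat_lit 4255832), (nat_lit 0), (nat_lit 0), [⟨(nat_lit 0), (nat_lit 100), (nat_lit 86), (nat_lit 65), (nat_lit 205719803)⟩], [⟨(nat_lit 0), (nat_lit 100), (nat_lit 87), (nat_lit 59), (nat_lit 918986630)⟩], [], [],
 ⟨⟨[(nat_lit 60), (nat_lit 80), (nat_lit 100)], [(nat_lit 0), (nat_lit 304), (nat_lit 825)], [((nat_lit 0), (nat_lit 0), (nat_lit 0)), ((nat_lit 1000), (nat_lit 905), (nat_lit 238)), ((nat_lit 1000), (nat_lit 871), (nat_lit 407))], ((nat_lit 88), (nat_lit 100), (nat_lit 35))⟩, (nat_lit 1998255), (nat_lit 209), (nat_lit 209), (nat_lit 0), (nat_lit 62914), [(nat_lit 1980721993), (nat_lit 1607918496), (nat_lit 928990304)], [(nat_lit 0), (nat_lit 0), (nat_lit 0)], [(nat_lit 15757334558), (nat_lit 16744421954), (nat_lit 14795475336), (nat_lit 15581184915), (nat_lit 15359768322), (nat_lit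 16341684968), (nat_lit 14641733919), (nat_lit 15419598443)], (nat_lit 1271251), (nat_lit 1271251), (nat_lit 230000), (nat_lit 490000), (nat_lit 169688), (nat_lit 230000), [(nat_lit 780000), (nat_lit 1100000), (nat_lit 1442501)], [(nat_lit 9), (nat_lit 50), (nat_lit 238), (nat_lit 30), (nat_lit 9)]⟩,
 Rw.none,
 Rw.none⟩) (.dle (nat_lit 0))) (.emL (nat_lit 0) (nat_lit 2) (nat_lit 4) (nat_lit 100) (nat_lit 84) (nat_lit 63)))))) (.spl (nat_lit 5) (nat_lit 120) (.spl (nat_lit 1) (nat_lit 220) (.ord (.spl (nat_lit 6) (nat_lit 12) (.leaf ⟨(nat_lit 1000), (nat_lit 0), (nat_lit 0), (nat_lit 0), (nat_lit 8638), (nat_lit 3529), (nat_lit 0), (nat_lit 0), (nat_lit 0), (nat_lit 1257281357012), (nat_lit 1000000), [((nat_lit 320), [((nat_lit 15), (nat_lit 2), (nat_lit 1000))])], ⟨(nat_lit 4), false, false, false, (nat_lit 102), (nat_lit 4472), (nat_lit 5000), [(nat_lit 1192856), (nat_lit 1206519), (nat_lit 1235713), (nat_lit 1249652), (nat_lit 1264284), (nat_lit 1274498),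 (nat_lit 1307140), (nat_lit 1317629)]⟩, ⟨(nat_lit 4), false, false, false, (nat_lit 102), (nat_lit 4472), (nat_lit 5000), [(nat_lit 1192856), (nat_lit 1206519), (nat_lit 1235713), (nat_lit 1249652), (nat_lit 1264284), (nat_lit 1274498), (nat_lit 1307140), (nat_lit 1317629)]⟩, (nat_lit 2644716), (nat_lit 57709904), (nat_lit 4645048), (nat_lit 4645048), (nat_lit 0), (nat_lit 0), [⟨(nat_lit 0), (nat_lit 100), (nat_lit 80), (nat_lit 68), (nat_lit 179497532)⟩], [⟨(nat_lit 0), (nat_lit 100), (nat_lit 80), (nat_lit 68), (nat_lit 181328408)⟩], [], [],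
 ⟨⟨[(nat_lit 60), (nat_lit 80), (nat_lit 100)], [(nat_lit 0), (nat_lit 304), (nat_lit 825)], [((nat_lit 0), (nat_lit 0), (nat_lit 0)), ((nat_lit 1000), (nat_lit 905), (nat_lit 238)), ((nat_lit 1000), (nat_lit 871), (nat_lit 407))], ((nat_lit 88), (nat_lit 100), (nat_lit 35))⟩, (nat_lit 1690991), (nat_lit 203), (nat_lit 203), (nat_lit 0), (nat_lit 51281), [(nat_lit 1981440013), (nat_lit 1580800020), (nat_lit 860799980)], [(nat_lit 0), (nat_lit 0), (nat_lit 0)], [(nat_lit 15557632289), (nat_lit 17090795574), (nat_lit 14892722444), (nat_lit 16364667182), (nat_lit 14892722444), (nat_lit 16364667182), (nat_lit 14327350915), (nat_lit 15745596810)], (nat_lit 1271251), (nat_lit 1271251), (nat_lit 230000), (nat_lit 490000), (nat_lit 230000), (nat_lit 490000), [(nat_lit 780000), (nat_lit 1100000), (nat_lit 1442501)], [(nat_lit 9), (nat_lit 50), (nat_lit 249), (nat_lit 40), (nat_lit 10)]⟩,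
 Rw.none,
 Rw.none⟩) (.dle (nat_lit 0)))) (.leaf ⟨(nat_lit 0), (nat_lit 1000), (nat_lit 0), (nat_lit 0), (nat_lit 27456), (nat_lit 4837), (nat_lit 12294), (nat_lit 0), (nat_lit 0), (nat_lit 23283005757584), (nat_lit 0), [], Pd.none, Pd.none, (nat_lit 0), (nat_lit 1), (nat_lit 0), (nat_lit 0), (nat_lit 4), (nat_lit 0), [⟨(nat_lit 0), (nat_lit 100), (nat_lit 84), (nat_lit 68), (nat_lit 1415445984)⟩], [⟨(nat_lit 0), (nat_lit 100), (nat_lit 82), (nat_lit 76), (nat_lit 10503798)⟩], [], [],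
 ⟨⟨[(nat_lit 60), (nat_lit 80), (nat_lit 100)], [(nat_lit 0), (nat_lit 304), (nat_lit 825)], [((nat_lit 0), (nat_lit 0), (nat_lit 0)), ((nat_lit 1000), (nat_lit 905), (nat_lit 238)), ((nat_lit 1000), (nat_lit 871), (nat_lit 407))], ((nat_lit 87), (nat_lit 100), (nat_lit 44))⟩, (nat_lit 5630806), (nat_lit 206), (nat_lit 206), (nat_lit 0), (nat_lit 87324), [(nat_lit 3282000022), (nat_lit 4688000081), (nat_lit 6250000000)], [], [(nat_lit 17674615138), (nat_lit 19323036222), (nat_lit 16490003466), (nat_lit 18089186408), (nat_lit 16490003466), (nat_lit 18089186408), (nat_lit 15432236567), (nat_lit 16981300512)], (nat_lit 1271251), (nat_lit 1271251), (nat_lit 230000), (nat_lit 490000), (nat_lit 230000), (nat_lit 490000), [(nat_lit 780000), (nat_lit 1100000), (nat_lit 1442501)], [(nat_lit 9), (nat_lit 50), (nat_lit 249), (nat_lit 40), (nat_lit 10)]⟩,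
 ⟨⟨[(nat_lit 100), (nat_lit 120), (nat_lit 140)], [(nat_lit 0), (nat_lit 254), (nat_lit 778)], [((nat_lit 0), (nat_lit 0), (nat_lit 0)), ((nat_lit 1000), (nat_lit 1000), (nat_lit 198)), ((nat_lit 960), (nat_lit 1000), (nat_lit 392))], ((nat_lit 100), (nat_lit 94), (nat_lit 44))⟩, (nat_lit 13398017), (nat_lit 308), (nat_lit 308), (nat_lit 0), (nat_lit 123665), [(nat_lit 6250000000), (nat_lit 7968000000), (nat_lit 9842000000)], [], [(nat_lit 19189437959), (nat_lit 20791178708), (nat_lit 14589103196), (nat_lit 15842531924), (nat_lit 12199178374), (nat_lit 11767633356), (nat_lit 13214190819), (nat_lit 8154931448)], (nat_lit 1271251), (nat_lit 1271251), (nat_lit 230000), (nat_lit 490000), (nat_lit 0), (nat_lit 780000), [(nat_lit 1412501), (nat_lit 1271251), (nat_lit 1271251)], [(nat_lit 22), (nat_lit 58), (nat_lit 345), (nat_lit 125), (nat_lit 10)]⟩,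
 Rw.none⟩)) (.leaf ⟨(nat_lit 901), (nat_lit 0), (nat_lit 0), (nat_lit 99), (nat_lit 9918), (nat_lit 3805), (nat_lit 1274), (nat_lit 1131), (nat_lit 0), (nat_lit 440455680867), (nat_lit 652600), [((nat_lit 320), [((nat_lit 35), (nat_lit 2), (nat_lit 621)), ((nat_lit 15), (nat_lit 2), (nat_lit 280))])], ⟨(nat_lit 4), false, false, false, (nat_lit 107), (nat_lit 4472), (nat_lit 5000), [(nat_lit 1192856), (nat_lit 1206519), (nat_lit 1257133), (nat_lit 1271210), (nat_lit 1264284), (nat_lit 1274498), (nat_lit 1328559), (nat_lit 1339186)]⟩, ⟨(nat_lit 4), false, false, false, (nat_lit 107), (nat_lit 4472), (nat_lit 5000), [(nat_lit 1192856), (nat_lit 1206519), (nat_lit 1257133), (nat_lit 1271210), (nat_lit 1264284), (nat_lit 1274498), (nat_lit 1328559), (nat_lit 1339186)]⟩, (nat_lit 2776905), (nat_lit 57049796), (nat_lit 4975102), (nat_lit 4975102), (nat_lit 0), (nat_lit 0), [⟨(nat_lit 0), (nat_lit 100), (nat_lit 84), (nat_lit 59), (nat_lit 235157200)⟩, ⟨(nat_lit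 0), (nat_lit 100), (nat_lit 82), (nat_lit 76), (nat_lit 3143390)⟩], [⟨(nat_lit 0), (nat_lit 100), (nat_lit 84), (nat_lit 59), (nat_lit 251500142)⟩, ⟨(nat_lit 0), (nat_lit 100), (nat_lit 82), (nat_lit 76), (nat_lit 2911501)⟩], [], [],
 ⟨⟨[(nat_lit 60), (nat_lit 80), (nat_lit 100)], [(nat_lit 0), (nat_lit 304), (nat_lit 825)], [((nat_lit 0), (nat_lit 0), (nat_lit 0)), ((nat_lit 1000), (nat_lit 905), (nat_lit 238)), ((nat_lit 1000), (nat_lit 871), (nat_lit 407))], ((nat_lit 87), (nat_lit 100), (nat_lit 44))⟩, (nat_lit 2519113), (nat_lit 206), (nat_lit 206), (nat_lit 0), (nat_lit 87244), [(nat_lit 2092066241), (nat_lit 2143041999), (nat_lit 2006234201)], [(nat_lit 0), (nat_lit 0), (nat_lit 0)], [(nat_lit 15715128766), (nat_lit 17561818830), (nat_lit 14943194263), (nat_lit 16462088538), (nat_lit 14943194263), (nat_lit 16462088538), (nat_lit 14277910458), (nat_lit 15750097128)], (nat_lit 1271251), (nat_lit 1271251), (nat_lit 230000), (nat_lit 490000), (nat_lit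 230000), (nat_lit 490000), [(nat_lit 780000), (nat_lit 1100000), (nat_lit 1442501)], [(nat_lit 9), (nat_lit 50), (nat_lit 249), (nat_lit 40), (nat_lit 10)]⟩,
 ⟨⟨[(nat_lit 120), (nat_lit 140), (nat_lit 160)], [(nat_lit 0), (nat_lit 266), (nat_lit 862)], [((nat_lit 0), (nat_lit 0), (nat_lit 0)), ((nat_lit 960), (nat_lit 1000), (nat_lit 200)), ((nat_lit 874), (nat_lit 1000), (nat_lit 406))], ((nat_lit 100), (nat_lit 86), (nat_lit 44))⟩, (nat_lit 954050), (nat_lit 378), (nat_lit 378), (nat_lit 0), (nat_lit 292245), [(nat_lit 788832000), (nat_lit 974358000), (nat_lit 1175328000)], [], [(nat_lit 3245839971), (nat_lit 2274364809), (nat_lit 3365912339), (nat_lit 1917415786), (nat_lit 7116622996), (nat_lit 5351157112), (nat_lit 7359753572), (nat_lit 5617724192)], (nat_lit 1271251), (nat_lit 1271251), (nat_lit 230000), (nat_lit 490000), (nat_lit 780000), (nat_lit 3072501), [(nat_lit 1695001), (nat_lit 1271251), (nat_lit 1271251)], [(nat_lit 27), (nat_lit 62), (nat_lit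 428), (nat_lit 200), (nat_lit 11)]⟩,
 ⟨⟨[(nat_lit 120), (nat_lit 140), (nat_lit 160)], [(nat_lit 0), (nat_lit 266), (nat_lit 862)], [((nat_lit 0), (nat_lit 0), (nat_lit 0)), ((nat_lit 960), (nat_lit 1000), (nat_lit 200)), ((nat_lit 874), (nat_lit 1000), (nat_lit 406))], ((nat_lit 100), (nat_lit 86), (nat_lit 44))⟩, (nat_lit 203210), (nat_lit 300), (nat_lit 378), (nat_lit 6573601), (nat_lit 292245), [(nat_lit 788832000), (nat_lit 974358000), (nat_lit 1175328000)], [], [(nat_lit 3732516883), (nat_lit 3806384062), (nat_lit 3407493665), (nat_lit 3454314946), (nat_lit 6827548782), (nat_lit 5260247436), (nat_lit 7054945926), (nat_lit 5508450456)], (nat_lit 1271251), (nat_lit 1271251), (nat_lit 230000), (nat_lit 490000), (nat_lit 780000), (nat_lit 3072501), [(nat_lit 1695001), (nat_lit 1271251), (nat_lit 1271251)], [(nat_lit 27), (nat_lit 62), (nat_lit 428), (nat_lit 200), (nat_lit 11)]⟩⟩))) (.spl (nat_lit 0) (nat_lit 310) (.spl (nat_lit 6) (nat_lit 12) (.leaf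 ⟨(nat_lit 1000), (nat_lit 0), (nat_lit 0), (nat_lit 0), (nat_lit 4624), (nat_lit 4275), (nat_lit 0), (nat_lit 0), (nat_lit 0), (nat_lit 2154384644635), (nat_lit 972400), [((nat_lit 310), [((nat_lit 35), (nat_lit 2), (nat_lit 69)), ((nat_lit 15), (nat_lit 2), (nat_lit 931))])], ⟨(nat_lit 4), false, false, false, (nat_lit 106), (nat_lit 4743), (nat_lit 5000), [(nat_lit 1192856), (nat_lit 1199711), (nat_lit 1257141), (nat_lit 1264176), (nat_lit 1264284), (nat_lit 1269411), (nat_lit 1328569), (nat_lit 1333875)]⟩, ⟨(nat_lit 4), false, false, false, (nat_lit 134), (nat_lit 4743), (nat_lit 5000), [(nat_lit 1264284), (nat_lit 1269411), (nat_lit 1328569), (nat_lit 1333875), (nat_lit 1335713), (nat_lit 1339111), (nat_lit 1399997), (nat_lit 1403574)]⟩, (nat_lit 3153903), (nat_lit 54944794), (nat_lit 4941000), (nat_lit 7114206), (nat_lit 0), (nat_lit 0), [⟨(nat_lit 0), (nat_lit 100), (nat_lit 85), (nat_lit 72), (nat_lit 212755352)⟩], [], [], [],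
 ⟨⟨[(nat_lit 60), (nat_lit 80), (nat_lit 100)], [(nat_lit 0), (nat_lit 304), (nat_lit 825)], [((nat_lit 0), (nat_lit 0), (nat_lit 0)), ((nat_lit 1000), (nat_lit 905), (nat_lit 238)), ((nat_lit 1000), (nat_lit 871), (nat_lit 407))], ((nat_lit 88), (nat_lit 100), (nat_lit 35))⟩, (nat_lit 1023825), (nat_lit 184), (nat_lit 184), (nat_lit 0), (nat_lit 62895), [(nat_lit 1980711512), (nat_lit 1729197991), (nat_lit 809112409)], [(nat_lit 0), (nat_lit 0), (nat_lit 0)], [(nat_lit 14260043846), (nat_lit 15312687532), (nat_lit 13405964053), (nat_lit 14187998478), (nat_lit 14862362916), (nat_lit 15692810054), (nat_lit 14045570316), (nat_lit 14785160760)], (nat_lit 1271251), (nat_lit 1271251), (nat_lit 230000), (nat_lit 490000), (nat_lit 490000), (nat_lit 780000), [(nat_lit 780000), (nat_lit 1100000), (nat_lit 1442501)], [(nat_lit 9), (nat_lit 50), (nat_lit 260), (nat_lit 50), (nat_lit 10)]⟩,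
 Rw.none,
 Rw.none⟩) (.dle (nat_lit 0))) (.leaf ⟨(nat_lit 1000), (nat_lit 0), (nat_lit 0), (nat_lit 0), (nat_lit 5549), (nat_lit 4402), (nat_lit 0), (nat_lit 0), (nat_lit 0), (nat_lit 4395156341884), (nat_lit 392650), [((nat_lit 320), [((nat_lit 15), (nat_lit 0), (nat_lit 49)), ((nat_lit 15), (nat_lit 1), (nat_lit 951))])], ⟨(nat_lit 4), false, false, false, (nat_lit 108), (nat_lit 4472), (nat_lit 4744), [(nat_lit 1199711), (nat_lit 1206519), (nat_lit 1264172), (nat_lit 1271215), (nat_lit 1269411), (nat_lit 1274498), (nat_lit 1333872), (nat_lit 1339193)]⟩, ⟨(nat_lit 4), false, false, false, (nat_lit 135), (nat_lit 4472), (nat_lit 4744), [(nat_lit 1269411), (nat_lit 1274498), (nat_lit 1333872), (nat_lit 1339193), (nat_lit 1339111), (nat_lit 1342476), (nat_lit 1403571), (nat_lit 1407171)]⟩, (nat_lit 3213411), (nat_lit 54616878), (nat_lit 5119969), (nat_lit 7263153), (nat_lit 0), (nat_lit 0), [⟨(nat_lit 0), (nat_lit 100), (nat_lit 82), (nat_lit 76), (nat_lit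 351757661)⟩], [], [], [],
 ⟨⟨[(nat_lit 60), (nat_lit 80), (nat_lit 100)], [(nat_lit 0), (nat_lit 456), (nat_lit 976)], [((nat_lit 0), (nat_lit 0), (nat_lit 0)), ((nat_lit 1000), (nat_lit 859), (nat_lit 351)), ((nat_lit 1000), (nat_lit 848), (nat_lit 406))], ((nat_lit 84), (nat_lit 100), (nat_lit 44))⟩, (nat_lit 2727495), (nat_lit 181), (nat_lit 181), (nat_lit 0), (nat_lit 86333), [(nat_lit 2021550539), (nat_lit 2279896727), (nat_lit 2345921600)], [(nat_lit 0), (nat_lit 0), (nat_lit 0)], [(nat_lit 15434046668), (nat_lit 16504816848), (nat_lit 13695791274), (nat_lit 14711989680), (nat_lit 15794941342), (nat_lit 16811808948), (nat_lit 14324291378), (nat_lit 15124797642)], (nat_lit 1271251), (nat_lit 1271251), (nat_lit 230000), (nat_lit 490000), (nat_lit 490000), (nat_lit 780000), [(nat_lit 780000), (nat_lit 1100000), (nat_lit 1442501)], [(nat_lit 9), (nat_lit 50), (nat_lit 260), (nat_lit 50), (nat_lit 10)]⟩,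
 Rw.none,
 Rw.none⟩)))
noncomputable def c3_3 : Tr Lf :=
 (.spl (nat_lit 4) (nat_lit 80) (.spl (nat_lit 2) (nat_lit 180) (.leaf ⟨(nat_lit 1000), (nat_lit 0), (nat_lit 0), (nat_lit 0), (nat_lit 6807), (nat_lit 3840), (nat_lit 0), (nat_lit 0), (nat_lit 0), (nat_lit 35516), (nat_lit 972400), [((nat_lit 320), [((nat_lit 35), (nat_lit 2), (nat_lit 69)), ((nat_lit 15), (nat_lit 2), (nat_lit 931))])], ⟨(nat_lit 3), false, false, false, (nat_lit 122), (nat_lit 4472), (nat_lit 5000), [(nat_lit 1199998), (nat_lit 1209798), (nat_lit 1328559), (nat_lit 1339186), (nat_lit 1271427), (nat_lit 1277776), (nat_lit 1399984), (nat_lit 1407160)]⟩, ⟨(nat_lit 3), false, false, false, (nat_lit 67), (nat_lit 4472), (nat_lit 5000), [(nat_lit 1057141), (nat_lit 1073842), (nat_lit 1121427), (nat_lit 1138541), (nat_lit 1199998), (nat_lit 1209798), (nat_lit 1264284), (nat_lit 1274498)]⟩, (nat_lit 2383041), (nat_lit 58598629), (nat_lit 5990195), (nat_lit 2411176), (nat_lit 0), (nat_lit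 0), [], [⟨(nat_lit 0), (nat_lit 100), (nat_lit 80), (nat_lit 52), (nat_lit 150141924)⟩], [], [],
 ⟨⟨[(nat_lit 60), (nat_lit 80), (nat_lit 100)], [(nat_lit 0), (nat_lit 304), (nat_lit 825)], [((nat_lit 0), (nat_lit 0), (nat_lit 0)), ((nat_lit 1000), (nat_lit 905), (nat_lit 238)), ((nat_lit 1000), (nat_lit 871), (nat_lit 407))], ((nat_lit 87), (nat_lit 100), (nat_lit 44))⟩, (nat_lit 816901), (nat_lit 206), (nat_lit 206), (nat_lit 0), (nat_lit 91570), [(nat_lit 1980711525), (nat_lit 1681885283), (nat_lit 856425117)], [(nat_lit 0), (nat_lit 0), (nat_lit 0)], [(nat_lit 15725179077), (nat_lit 17370114720), (nat_lit 16297741817), (nat_lit 17681449477), (nat_lit 14332324717), (nat_lit 15706430117), (nat_lit 14934381297), (nat_lit 16236456504)], (nat_lit 1271251), (nat_lit 1271251), (nat_lit 490000), (nat_lit 780000), (nat_lit 0), (nat_lit 490000), [(nat_lit 780000), (nat_lit 1100000), (nat_lit 1442501)], [(nat_lit 9), (nat_lit 50), (nat_lit 260), (nat_lit 50),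 (nat_lit 10)]⟩,
 Rw.none,
 Rw.none⟩) (.ord (.trZ (nat_lit 0) (nat_lit 2) (nat_lit 4) (nat_lit 100) (nat_lit 87) (nat_lit 41) (nat_lit 10) (.spl (nat_lit 0) (nat_lit 310) (.spl (nat_lit 6) (nat_lit 12) (.leaf ⟨(nat_lit 939), (nat_lit 40), (nat_lit 0), (nat_lit 21), (nat_lit 7403), (nat_lit 4588), (nat_lit 951), (nat_lit 227), (nat_lit 0), (nat_lit 20730), (nat_lit 773800), [((nat_lit 310), [((nat_lit 35), (nat_lit 2), (nat_lit 413)), ((nat_lit 15), (nat_lit 2), (nat_lit 526))])], ⟨(nat_lit 4), false, false, false, (nat_lit 134), (nat_lit 4743), (nat_lit 5000), [(nat_lit 1264284), (nat_lit 1269411), (nat_lit 1328569), (nat_lit 1333875), (nat_lit 1335713), (nat_lit 1339111), (nat_lit 1399997), (nat_lit 1403574)]⟩, ⟨(nat_lit 4), false, false, false, (nat_lit 95), (nat_lit 4743), (nat_lit 5000), [(nat_lit 1139284), (nat_lit 1147436), (nat_lit 1203570), (nat_lit 1211901), (nat_lit 1264284), (nat_lit 1269411), (nat_lit 1328569), (nat_lit 1333875)]⟩, (nat_lit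 2996290), (nat_lit 55711623), (nat_lit 7095383), (nat_lit 4192994), (nat_lit 4), (nat_lit 0), [], [⟨(nat_lit 0), (nat_lit 100), (nat_lit 85), (nat_lit 72), (nat_lit 386604999)⟩], [], [],
 ⟨⟨[(nat_lit 60), (nat_lit 80), (nat_lit 100)], [(nat_lit 0), (nat_lit 304), (nat_lit 825)], [((nat_lit 0), (nat_lit 0), (nat_lit 0)), ((nat_lit 1000), (nat_lit 905), (nat_lit 238)), ((nat_lit 1000), (nat_lit 871), (nat_lit 407))], ((nat_lit 88), (nat_lit 100), (nat_lit 35))⟩, (nat_lit 2130896), (nat_lit 199), (nat_lit 199), (nat_lit 0), (nat_lit 62895), [(nat_lit 2049360606), (nat_lit 1935043606), (nat_lit 1601318594)], [(nat_lit 0), (nat_lit 0), (nat_lit 0)], [(nat_lit 15902770205), (nat_lit 17016739431), (nat_lit 16213938886), (nat_lit 17272558637), (nat_lit 12843804380), (nat_lit 13738512998), (nat_lit 13426009074), (nat_lit 14193912011)], (nat_lit 1271251), (nat_lit 1271251), (nat_lit 490000), (nat_lit 780000), (nat_lit 54688), (nat_lit 490000), [(nat_lit 780000),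 (nat_lit 1100000), (nat_lit 1442501)], [(nat_lit 9), (nat_lit 50), (nat_lit 260), (nat_lit 50), (nat_lit 10)]⟩,
 ⟨⟨[(nat_lit 120), (nat_lit 140), (nat_lit 160)], [(nat_lit 0), (nat_lit 266), (nat_lit 862)], [((nat_lit 0), (nat_lit 0), (nat_lit 0)), ((nat_lit 960), (nat_lit 1000), (nat_lit 200)), ((nat_lit 874), (nat_lit 1000), (nat_lit 406))], ((nat_lit 100), (nat_lit 91), (nat_lit 34))⟩, (nat_lit 642695), (nat_lit 394), (nat_lit 394), (nat_lit 0), (nat_lit 202317), [(nat_lit 486048000), (nat_lit 600362000), (nat_lit 724192000)], [], [(nat_lit 3142278678), (nat_lit 1645593930), (nat_lit 2151534011), (nat_lit 1558731196), (nat_lit 3886771838), (nat_lit 2587117904), (nat_lit 4199303142), (nat_lit 2915505922)], (nat_lit 1271251), (nat_lit 1271251), (nat_lit 490000), (nat_lit 780000), (nat_lit 0), (nat_lit 2825001), [(nat_lit 1695001), (nat_lit 1271251), (nat_lit 1271251)], [(nat_lit 27), (nat_lit 62), (nat_lit 428), (nat_lit 200), (nat_lit 11)]⟩,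
 ⟨⟨[(nat_lit 120), (nat_lit 140), (nat_lit 160)], [(nat_lit 0), (nat_lit 266), (nat_lit 862)], [((nat_lit 0), (nat_lit 0), (nat_lit 0)), ((nat_lit 960), (nat_lit 1000), (nat_lit 200)), ((nat_lit 874), (nat_lit 1000), (nat_lit 406))], ((nat_lit 100), (nat_lit 91), (nat_lit 34))⟩, (nat_lit 43105), (nat_lit 300), (nat_lit 505), (nat_lit 1394401), (nat_lit 202317), [(nat_lit 167328000), (nat_lit 206682000), (nat_lit 249312000)], [], [(nat_lit 1408157919), (nat_lit 1136318205), (nat_lit 1008938887), (nat_lit 1007751452), (nat_lit 1161071132), (nat_lit 1008511858), (nat_lit 1223467670), (nat_lit 913074680)], (nat_lit 1271251), (nat_lit 1271251), (nat_lit 54688), (nat_lit 490000), (nat_lit 0), (nat_lit 2825001), [(nat_lit 1695001), (nat_lit 1271251), (nat_lit 1271251)], [(nat_lit 27), (nat_lit 62), (nat_lit 428), (nat_lit 200), (nat_lit 12)]⟩⟩) (.dle (nat_lit 0))) (.trZ (nat_lit 0) (nat_lit 2) (nat_lit 4) (nat_lit 100) (nat_lit 84) (nat_lit 47) (nat_lit 20)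 (.leaf ⟨(nat_lit 974), (nat_lit 17), (nat_lit 0), (nat_lit 9), (nat_lit 6080), (nat_lit 4433), (nat_lit 399), (nat_lit 138), (nat_lit 0), (nat_lit 3149869), (nat_lit 377900), [((nat_lit 320), [((nat_lit 15), (nat_lit 0), (nat_lit 78)), ((nat_lit 15), (nat_lit 1), (nat_lit 896))])], ⟨(nat_lit 4), false, false, false, (nat_lit 135), (nat_lit 4472), (nat_lit 4744), [(nat_lit 1269411), (nat_lit 1274498), (nat_lit 1333872), (nat_lit 1339193), (nat_lit 1339111), (nat_lit 1342476), (nat_lit 1403571), (nat_lit 1407171)]⟩, ⟨(nat_lit 4), false, false, false, (nat_lit 101), (nat_lit 4472), (nat_lit 4744), [(nat_lit 1164861), (nat_lit 1172530), (nat_lit 1229323), (nat_lit 1237227), (nat_lit 1269411), (nat_lit 1274498), (nat_lit 1333872), (nat_lit 1339193)]⟩, (nat_lit 3112415), (nat_lit 55122703), (nat_lit 7254113), (nat_lit 4623184), (nat_lit 4), (nat_lit 0), [], [⟨(nat_lit 0), (nat_lit 100), (nat_lit 82), (nat_lit 76), (nat_lit 370131967)⟩], [], [],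
 ⟨⟨[(nat_lit 60), (nat_lit 80), (nat_lit 100)], [(nat_lit 0), (nat_lit 456), (nat_lit 976)], [((nat_lit 0), (nat_lit 0), (nat_lit 0)), ((nat_lit 1000), (nat_lit 859), (nat_lit 351)), ((nat_lit 1000), (nat_lit 848), (nat_lit 406))], ((nat_lit 84), (nat_lit 100), (nat_lit 44))⟩, (nat_lit 2784799), (nat_lit 191), (nat_lit 191), (nat_lit 0), (nat_lit 86333), [(nat_lit 2049119607), (nat_lit 2336395420), (nat_lit 2459488800)], [(nat_lit 0), (nat_lit 0), (nat_lit 0)], [(nat_lit 16357704118), (nat_lit 17443824928), (nat_lit 16664324154), (nat_lit 17696413311), (nat_lit 13733239541), (nat_lit 14728879720), (nat_lit 14327908289), (nat_lit 15131479120)], (nat_lit 1271251), (nat_lit 1271251), (nat_lit 490000), (nat_lit 780000), (nat_lit 111251), (nat_lit 490000), [(nat_lit 780000), (nat_lit 1100000), (nat_lit 1442501)], [(nat_lit 9), (nat_lit 50), (nat_lit 260), (nat_lit 50), (nat_lit 10)]⟩,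
 ⟨⟨[(nat_lit 120), (nat_lit 140), (nat_lit 160)], [(nat_lit 0), (nat_lit 266), (nat_lit 862)], [((nat_lit 0), (nat_lit 0), (nat_lit 0)), ((nat_lit 960), (nat_lit 1000), (nat_lit 200)), ((nat_lit 874), (nat_lit 1000), (nat_lit 406))], ((nat_lit 100), (nat_lit 86), (nat_lit 44))⟩, (nat_lit 222807), (nat_lit 441), (nat_lit 441), (nat_lit 0), (nat_lit 292245), [(nat_lit 207168000), (nat_lit 255892000), (nat_lit 308672000)], [], [(nat_lit 1332993102), (nat_lit 742461850), (nat_lit 917317895), (nat_lit 706396830), (nat_lit 1649414734), (nat_lit 1103834104), (nat_lit 1781011906), (nat_lit 1242384050)], (nat_lit 1271251), (nat_lit 1271251), (nat_lit 490000), (nat_lit 780000), (nat_lit 0), (nat_lit 2825001), [(nat_lit 1695001), (nat_lit 1271251), (nat_lit 1271251)], [(nat_lit 27), (nat_lit 62), (nat_lit 428), (nat_lit 200), (nat_lit 11)]⟩,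
 ⟨⟨[(nat_lit 120), (nat_lit 140), (nat_lit 160)], [(nat_lit 0), (nat_lit 266), (nat_lit 862)], [((nat_lit 0), (nat_lit 0), (nat_lit 0)), ((nat_lit 960), (nat_lit 1000), (nat_lit 200)), ((nat_lit 874), (nat_lit 1000), (nat_lit 406))], ((nat_lit 100), (nat_lit 86), (nat_lit 44))⟩, (nat_lit 9599), (nat_lit 300), (nat_lit 534), (nat_lit 616086), (nat_lit 292245), [(nat_lit 71712000), (nat_lit 88578000), (nat_lit 106848000)], [], [(nat_lit 683649590), (nat_lit 461413968), (nat_lit 461305404), (nat_lit 385774104), (nat_lit 540620160), (nat_lit 480736134), (nat_lit 570819540), (nat_lit 382122480)], (nat_lit 1271251), (nat_lit 1271251), (nat_lit 111251), (nat_lit 490000), (nat_lit 0), (nat_lit 2825001), [(nat_lit 1695001), (nat_lit 1271251), (nat_lit 1271251)], [(nat_lit 27), (nat_lit 62), (nat_lit 428), (nat_lit 200), (nat_lit 12)]⟩⟩)))))) (.leaf ⟨(nat_lit 1000), (nat_lit 0), (nat_lit 0), (nat_lit 0), (nat_lit 0), (nat_lit 4179), (nat_lit 0), (nat_lit 0), (nat_lit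 0), (nat_lit 1402997707945), (nat_lit 336100), [((nat_lit 320), [((nat_lit 15), (nat_lit 0), (nat_lit 426)), ((nat_lit 15), (nat_lit 1), (nat_lit 574))])], ⟨(nat_lit 3), false, false, false, (nat_lit 122), (nat_lit 4472), (nat_lit 5000), [(nat_lit 1199998), (nat_lit 1209798), (nat_lit 1328559), (nat_lit 1339186), (nat_lit 1271427), (nat_lit 1277776), (nat_lit 1399984), (nat_lit 1407160)]⟩, ⟨(nat_lit 3), false, false, false, (nat_lit 122), (nat_lit 4472), (nat_lit 5000), [(nat_lit 1199998), (nat_lit 1209798), (nat_lit 1328559), (nat_lit 1339186), (nat_lit 1271427), (nat_lit 1277776), (nat_lit 1399984), (nat_lit 1407160)]⟩, (nat_lit 3218545), (nat_lit 54689878), (nat_lit 6155061), (nat_lit 6155061), (nat_lit 0), (nat_lit 0), [], [], [], [],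
 ⟨⟨[(nat_lit 60), (nat_lit 80), (nat_lit 100)], [(nat_lit 0), (nat_lit 304), (nat_lit 825)], [((nat_lit 0), (nat_lit 0), (nat_lit 0)), ((nat_lit 1000), (nat_lit 905), (nat_lit 238)), ((nat_lit 1000), (nat_lit 871), (nat_lit 407))], ((nat_lit 87), (nat_lit 100), (nat_lit 44))⟩, (nat_lit 0), (nat_lit 166), (nat_lit 166), (nat_lit 0), (nat_lit 91570), [(nat_lit 2070409604), (nat_lit 90252750357), (nat_lit 2496118400)], [(nat_lit 0), (nat_lit 0), (nat_lit 0)], [(nat_lit 12554522933), (nat_lit 14590490360), (nat_lit 13179840510), (nat_lit 15026585652), (nat_lit 13179840510), (nat_lit 15026585652), (nat_lit 13816746864), (nat_lit 15466528916)], (nat_lit 1271251), (nat_lit 1271251), (nat_lit 490000), (nat_lit 780000), (nat_lit 490000), (nat_lit 780000), [(nat_lit 780000), (nat_lit 1100000), (nat_lit 1442501)], [(nat_lit 9), (nat_lit 50), (nat_lit 272), (nat_lit 60), (nat_lit 10)]⟩,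
 Rw.none,
 Rw.none⟩))
noncomputable def c3_4 : Tr Lf :=
 (.spl (nat_lit 2) (nat_lit 180) (.leaf ⟨(nat_lit 1000), (nat_lit 0), (nat_lit 0), (nat_lit 0), (nat_lit 5264), (nat_lit 4000), (nat_lit 0), (nat_lit 0), (nat_lit 0), (nat_lit 40186), (nat_lit 972400), [((nat_lit 320), [((nat_lit 35), (nat_lit 2), (nat_lit 69)), ((nat_lit 15), (nat_lit 2), (nat_lit 931))])], ⟨(nat_lit 3), false, false, false, (nat_lit 94), (nat_lit 4472), (nat_lit 5000), [(nat_lit 1057141), (nat_lit 1073842), (nat_lit 1185707), (nat_lit 1203234), (nat_lit 1271427), (nat_lit 1277776), (nat_lit 1399984), (nat_lit 1407160)]⟩, ⟨(nat_lit 3), false, false, true, (nat_lit 151), (nat_lit 4472), (nat_lit 5000), [(nat_lit 1271427), (nat_lit 1277776), (nat_lit 1335713), (nat_lit 1342476), (nat_lit 1414284), (nat_lit 1413733), (nat_lit 1478570), (nat_lit 1478432)]⟩, (nat_lit 3210940), (nat_lit 54298278), (nat_lit 4134829), (nat_lit 8566893), (nat_lit 0), (nat_lit 0), [⟨(nat_lit 0), (nat_lit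 100), (nat_lit 82), (nat_lit 76), (nat_lit 126382154)⟩], [], [], [],
 ⟨⟨[(nat_lit 60), (nat_lit 80), (nat_lit 100)], [(nat_lit 0), (nat_lit 304), (nat_lit 825)], [((nat_lit 0), (nat_lit 0), (nat_lit 0)), ((nat_lit 1000), (nat_lit 905), (nat_lit 238)), ((nat_lit 1000), (nat_lit 871), (nat_lit 407))], ((nat_lit 87), (nat_lit 100), (nat_lit 44))⟩, (nat_lit 840504), (nat_lit 190), (nat_lit 190), (nat_lit 0), (nat_lit 136866), [(nat_lit 1980711507), (nat_lit 1608317270), (nat_lit 929993130)], [(nat_lit 0), (nat_lit 0), (nat_lit 0)], [(nat_lit 16191237337), (nat_lit 17916252000), (nat_lit 15267167087), (nat_lit 16525291837), (nat_lit 18141029837), (nat_lit 19828868000), (nat_lit 17090392087), (nat_lit 18275832561)], (nat_lit 1271251), (nat_lit 1271251), (nat_lit 0), (nat_lit 780000), (nat_lit 780000), (nat_lit 1435001), [(nat_lit 780000), (nat_lit 1100000), (nat_lit 1442501)], [(nat_lit 9), (nat_lit 50), (nat_lit 317), (nat_lit 100), (nat_lit 12)]⟩,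
 Rw.none,
 Rw.none⟩) (.ord (.trZ (nat_lit 0) (nat_lit 1) (nat_lit 3) (nat_lit 100) (nat_lit 87) (nat_lit 41) (nat_lit 10) (.spl (nat_lit 2) (nat_lit 220) (.spl (nat_lit 1) (nat_lit 220) (.spl (nat_lit 6) (nat_lit 12) (.leaf ⟨(nat_lit 972), (nat_lit 0), (nat_lit 0), (nat_lit 28), (nat_lit 5197), (nat_lit 3967), (nat_lit 101), (nat_lit 651), (nat_lit 0), (nat_lit 1023394457292), (nat_lit 880400), [((nat_lit 320), [((nat_lit 35), (nat_lit 2), (nat_lit 229)), ((nat_lit 15), (nat_lit 2), (nat_lit 743))])], ⟨(nat_lit 4), false, false, false, (nat_lit 106), (nat_lit 4472), (nat_lit 5000), [(nat_lit 1139284), (nat_lit 1155536), (nat_lit 1182141), (nat_lit 1198669), (nat_lit 1335713), (nat_lit 1342476), (nat_lit 1378566), (nat_lit 1385605)]⟩, ⟨(nat_lit 4), false, false, false, (nat_lit 172), (nat_lit 4472), (nat_lit 5000), [(nat_lit 1335713), (nat_lit 1342476), (nat_lit 1378566), (nat_lit 1385605), (nat_lit 1478570), (nat_lit 1478432), (nat_lit 1521416), (nat_lit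 1521554)]⟩, (nat_lit 3647010), (nat_lit 51518010), (nat_lit 4960198), (nat_lit 10521792), (nat_lit 0), (nat_lit 0), [⟨(nat_lit 0), (nat_lit 100), (nat_lit 80), (nat_lit 68), (nat_lit 178949155)⟩], [], [], [],
 ⟨⟨[(nat_lit 60), (nat_lit 80), (nat_lit 100)], [(nat_lit 0), (nat_lit 304), (nat_lit 825)], [((nat_lit 0), (nat_lit 0), (nat_lit 0)), ((nat_lit 1000), (nat_lit 905), (nat_lit 238)), ((nat_lit 1000), (nat_lit 871), (nat_lit 407))], ((nat_lit 88), (nat_lit 100), (nat_lit 35))⟩, (nat_lit 1674308), (nat_lit 182), (nat_lit 182), (nat_lit 0), (nat_lit 95308), [(nat_lit 2012239817), (nat_lit 1759126836), (nat_lit 1240246764)], [(nat_lit 0), (nat_lit 0), (nat_lit 0)], [(nat_lit 15696527253), (nat_lit 17501886605), (nat_lit 15083865090), (nat_lit 16431587887), (nat_lit 17826643445), (nat_lit 19440085376), (nat_lit 17080866098), (nat_lit 18334068678)], (nat_lit 1271251), (nat_lit 1271251), (nat_lit 54688), (nat_lit 780000), (nat_lit 780000), (nat_lit 1435001),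 [(nat_lit 780000), (nat_lit 1100000), (nat_lit 1442501)], [(nat_lit 9), (nat_lit 50), (nat_lit 317), (nat_lit 100), (nat_lit 12)]⟩,
 ⟨⟨[(nat_lit 120), (nat_lit 140), (nat_lit 160)], [(nat_lit 0), (nat_lit 266), (nat_lit 862)], [((nat_lit 0), (nat_lit 0), (nat_lit 0)), ((nat_lit 960), (nat_lit 1000), (nat_lit 200)), ((nat_lit 874), (nat_lit 1000), (nat_lit 406))], ((nat_lit 100), (nat_lit 91), (nat_lit 34))⟩, (nat_lit 351128), (nat_lit 494), (nat_lit 494), (nat_lit 0), (nat_lit 176817), [(nat_lit 223104000), (nat_lit 275576000), (nat_lit 332416000)], [], [(nat_lit 1296973917), (nat_lit 1188486371), (nat_lit 1137226990), (nat_lit 1164502498), (nat_lit 1365547502), (nat_lit 1379352910), (nat_lit 1459240369), (nat_lit 1368344106)], (nat_lit 1271251), (nat_lit 1271251), (nat_lit 54688), (nat_lit 780000), (nat_lit 0), (nat_lit 2825001), [(nat_lit 1695001), (nat_lit 1271251), (nat_lit 1271251)], [(nat_lit 27), (nat_lit 62), (nat_lit 428), (nat_lit 200), (nat_lit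 12)]⟩,
 ⟨⟨[(nat_lit 120), (nat_lit 140), (nat_lit 160)], [(nat_lit 0), (nat_lit 266), (nat_lit 862)], [((nat_lit 0), (nat_lit 0), (nat_lit 0)), ((nat_lit 960), (nat_lit 1000), (nat_lit 200)), ((nat_lit 874), (nat_lit 1000), (nat_lit 406))], ((nat_lit 100), (nat_lit 91), (nat_lit 34))⟩, (nat_lit 80861), (nat_lit 300), (nat_lit 430), (nat_lit 1859200), (nat_lit 315005), [(nat_lit 223104000), (nat_lit 275576000), (nat_lit 332416000)], [], [(nat_lit 994697438), (nat_lit 1011019394), (nat_lit 1315595369), (nat_lit 918641042), (nat_lit 2226903144), (nat_lit 1641027231), (nat_lit 2841500424), (nat_lit 2270357292)], (nat_lit 1271251), (nat_lit 1271251), (nat_lit 780000), (nat_lit 1435001), (nat_lit 0), (nat_lit 2825001), [(nat_lit 1695001), (nat_lit 1271251), (nat_lit 1271251)], [(nat_lit 27), (nat_lit 62), (nat_lit 456), (nat_lit 225), (nat_lit 12)]⟩⟩) (.dle (nat_lit 0))) (.trZ (nat_lit 0) (nat_lit 1) (nat_lit 3) (nat_lit 100) (nat_lit 87) (nat_lit 59) (nat_lit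 30) (.leaf ⟨(nat_lit 933), (nat_lit 0), (nat_lit 0), (nat_lit 67), (nat_lit 5974), (nat_lit 4367), (nat_lit 761), (nat_lit 1050), (nat_lit 0), (nat_lit 0), (nat_lit 757000), [((nat_lit 320), [((nat_lit 35), (nat_lit 2), (nat_lit 440)), ((nat_lit 15), (nat_lit 2), (nat_lit 493))])], ⟨(nat_lit 5), false, false, false, (nat_lit 126), (nat_lit 4472), (nat_lit 5000), [(nat_lit 1217856), (nat_lit 1232658), (nat_lit 1239276), (nat_lit 1254216), (nat_lit 1378566), (nat_lit 1385605), (nat_lit 1399984), (nat_lit 1407160)]⟩, ⟨(nat_lit 4), false, false, false, (nat_lit 172), (nat_lit 4472), (nat_lit 5000), [(nat_lit 1335713), (nat_lit 1342476), (nat_lit 1378566), (nat_lit 1385605), (nat_lit 1478570), (nat_lit 1478432), (nat_lit 1521416), (nat_lit 1521554)]⟩, (nat_lit 3908914), (nat_lit 50122944), (nat_lit 6419978), (nat_lit 10457078), (nat_lit 0), (nat_lit 0), [⟨(nat_lit 0), (nat_lit 100), (nat_lit 84), (nat_lit 68), (nat_lit 198139304)⟩], [], [], [],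
 ⟨⟨[(nat_lit 60), (nat_lit 80), (nat_lit 100)], [(nat_lit 0), (nat_lit 304), (nat_lit 825)], [((nat_lit 0), (nat_lit 0), (nat_lit 0)), ((nat_lit 1000), (nat_lit 905), (nat_lit 238)), ((nat_lit 1000), (nat_lit 871), (nat_lit 407))], ((nat_lit 87), (nat_lit 100), (nat_lit 44))⟩, (nat_lit 1595603), (nat_lit 175), (nat_lit 175), (nat_lit 0), (nat_lit 131143), [(nat_lit 2056092128), (nat_lit 1964454433), (nat_lit 1660495367)], [(nat_lit 0), (nat_lit 0), (nat_lit 0)], [(nat_lit 15353763136), (nat_lit 17198022574), (nat_lit 14786670949), (nat_lit 16099742296), (nat_lit 17378105086), (nat_lit 19154643204), (nat_lit 16607104726), (nat_lit 17842703813)], (nat_lit 1271251), (nat_lit 1271251), (nat_lit 169688), (nat_lit 780000), (nat_lit 780000), (nat_lit 1435001), [(nat_lit 780000), (nat_lit 1100000), (nat_lit 1442501)], [(nat_lit 9), (nat_lit 50), (nat_lit 317), (nat_lit 100), (nat_lit 12)]⟩,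
 ⟨⟨[(nat_lit 100), (nat_lit 120), (nat_lit 140)], [(nat_lit 0), (nat_lit 254), (nat_lit 778)], [((nat_lit 0), (nat_lit 0), (nat_lit 0)), ((nat_lit 1000), (nat_lit 1000), (nat_lit 198)), ((nat_lit 960), (nat_lit 1000), (nat_lit 392))], ((nat_lit 100), (nat_lit 94), (nat_lit 44))⟩, (nat_lit 870674), (nat_lit 356), (nat_lit 356), (nat_lit 0), (nat_lit 206241), [(nat_lit 418750000), (nat_lit 533856000), (nat_lit 659414000)], [], [(nat_lit 1851088396), (nat_lit 1461992425), (nat_lit 2162603634), (nat_lit 1786017076), (nat_lit 3997588694), (nat_lit 3658439341), (nat_lit 4523848144), (nat_lit 4194161636)], (nat_lit 1271251), (nat_lit 1271251), (nat_lit 169688), (nat_lit 780000), (nat_lit 0), (nat_lit 2825001), [(nat_lit 1412501), (nat_lit 1271251), (nat_lit 1271251)], [(nat_lit 22), (nat_lit 58), (nat_lit 428), (nat_lit 200), (nat_lit 13)]⟩,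
 ⟨⟨[(nat_lit 120), (nat_lit 140), (nat_lit 160)], [(nat_lit 0), (nat_lit 266), (nat_lit 862)], [((nat_lit 0), (nat_lit 0), (nat_lit 0)), ((nat_lit 960), (nat_lit 1000), (nat_lit 200)), ((nat_lit 874), (nat_lit 1000), (nat_lit 406))], ((nat_lit 100), (nat_lit 86), (nat_lit 44))⟩, (nat_lit 137526), (nat_lit 300), (nat_lit 545), (nat_lit 4448801), (nat_lit 498136), [(nat_lit 533856000), (nat_lit 659414000), (nat_lit 795424000)], [], [(nat_lit 2658705772), (nat_lit 2632914933), (nat_lit 2960557527), (nat_lit 2520969767), (nat_lit 4619968777), (nat_lit 3675007627), (nat_lit 5668472220), (nat_lit 4747273620)], (nat_lit 1271251), (nat_lit 1271251), (nat_lit 780000), (nat_lit 1435001), (nat_lit 0), (nat_lit 2825001), [(nat_lit 1695001), (nat_lit 1271251), (nat_lit 1271251)], [(nat_lit 27), (nat_lit 62), (nat_lit 456), (nat_lit 225), (nat_lit 12)]⟩⟩))) (.ord (.trZ (nat_lit 0) (nat_lit 1) (nat_lit 3) (nat_lit 100) (nat_lit 87) (nat_lit 59) (nat_lit 30) (.spl (nat_lit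 0) (nat_lit 310) (.spl (nat_lit 6) (nat_lit 12) (.leaf ⟨(nat_lit 656), (nat_lit 0), (nat_lit 164), (nat_lit 180), (nat_lit 7774), (nat_lit 4699), (nat_lit 2471), (nat_lit 1949), (nat_lit 0), (nat_lit 3573899963030), (nat_lit 248600), [((nat_lit 310), [((nat_lit 15), (nat_lit 0), (nat_lit 104)), ((nat_lit 15), (nat_lit 1), (nat_lit 543)), ((nat_lit 35), (nat_lit 2), (nat_lit 9))])], ⟨(nat_lit 5), false, false, false, (nat_lit 125), (nat_lit 4743), (nat_lit 5000), [(nat_lit 1217856), (nat_lit 1225263), (nat_lit 1239284), (nat_lit 1246751), (nat_lit 1378570), (nat_lit 1382087), (nat_lit 1399997), (nat_lit 1403574)]⟩, ⟨(nat_lit 5), false, false, false, (nat_lit 185), (nat_lit 4743), (nat_lit 5000), [(nat_lit 1378570), (nat_lit 1382087), (nat_lit 1399997), (nat_lit 1403574), (nat_lit 1521425), (nat_lit 1521484), (nat_lit 1542851), (nat_lit 1542970)]⟩, (nat_lit 4026336), (nat_lit 49094201), (nat_lit 6295372), (nat_lit 11610427), (nat_lit 0), (nat_lit 5), [⟨(nat_lit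 0), (nat_lit 100), (nat_lit 86), (nat_lit 65), (nat_lit 316336694)⟩], [], [], [],
 ⟨⟨[(nat_lit 60), (nat_lit 80), (nat_lit 100)], [(nat_lit 0), (nat_lit 304), (nat_lit 825)], [((nat_lit 0), (nat_lit 0), (nat_lit 0)), ((nat_lit 1000), (nat_lit 905), (nat_lit 238)), ((nat_lit 1000), (nat_lit 871), (nat_lit 407))], ((nat_lit 88), (nat_lit 100), (nat_lit 35))⟩, (nat_lit 3821289), (nat_lit 174), (nat_lit 174), (nat_lit 0), (nat_lit 122883), [(nat_lit 2376399846), (nat_lit 3057015348), (nat_lit 3720258252)], [(nat_lit 0), (nat_lit 0), (nat_lit 0)], [(nat_lit 15475719178), (nat_lit 16491110639), (nat_lit 14730397439), (nat_lit 15465442262), (nat_lit 17636872194), (nat_lit 18562158091), (nat_lit 16723464707), (nat_lit 17363949977)], (nat_lit 1271251), (nat_lit 1271251), (nat_lit 169688), (nat_lit 780000), (nat_lit 780000), (nat_lit 1435001), [(nat_lit 780000), (nat_lit 1100000), (nat_lit 1442501)], [(nat_lit 9), (nat_lit 50), (nat_lit 317), (nat_lit 100), (nat_lit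 12)]⟩,
 ⟨⟨[(nat_lit 100), (nat_lit 120), (nat_lit 140)], [(nat_lit 0), (nat_lit 254), (nat_lit 778)], [((nat_lit 0), (nat_lit 0), (nat_lit 0)), ((nat_lit 1000), (nat_lit 1000), (nat_lit 198)), ((nat_lit 960), (nat_lit 1000), (nat_lit 392))], ((nat_lit 100), (nat_lit 97), (nat_lit 34))⟩, (nat_lit 2086058), (nat_lit 348), (nat_lit 348), (nat_lit 0), (nat_lit 187343), [(nat_lit 1125000000), (nat_lit 1434240000), (nat_lit 1771560000)], [], [(nat_lit 4525618953), (nat_lit 4410486862), (nat_lit 5445448927), (nat_lit 4222656044), (nat_lit 11071061823), (nat_lit 9969829167), (nat_lit 12688175564), (nat_lit 11617669176)], (nat_lit 1271251), (nat_lit 1271251), (nat_lit 169688), (nat_lit 780000), (nat_lit 0), (nat_lit 2825001), [(nat_lit 1412501), (nat_lit 1271251), (nat_lit 1271251)], [(nat_lit 22), (nat_lit 58), (nat_lit 428), (nat_lit 200), (nat_lit 13)]⟩,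
 ⟨⟨[(nat_lit 100), (nat_lit 120), (nat_lit 140)], [(nat_lit 0), (nat_lit 254), (nat_lit 778)], [((nat_lit 0), (nat_lit 0), (nat_lit 0)), ((nat_lit 1000), (nat_lit 1000), (nat_lit 198)), ((nat_lit 960), (nat_lit 1000), (nat_lit 392))], ((nat_lit 100), (nat_lit 97), (nat_lit 34))⟩, (nat_lit 633827), (nat_lit 300), (nat_lit 336), (nat_lit 21500000), (nat_lit 317703), [(nat_lit 2150000000), (nat_lit 2740992000), (nat_lit 3385648000)], [], [(nat_lit 13143322344), (nat_lit 13325999404), (nat_lit 13431621054), (nat_lit 13585222790), (nat_lit 14774134574), (nat_lit 14815801518), (nat_lit 16805678274), (nat_lit 15928664330)], (nat_lit 1271251), (nat_lit 1271251), (nat_lit 780000), (nat_lit 1435001), (nat_lit 0), (nat_lit 2825001), [(nat_lit 1412501), (nat_lit 1271251), (nat_lit 1271251)], [(nat_lit 22), (nat_lit 58), (nat_lit 456), (nat_lit 225), (nat_lit 13)]⟩⟩) (.dle (nat_lit 0))) (.trZ (nat_lit 0) (nat_lit 1) (nat_lit 3) (nat_lit 100) (nat_lit 84) (nat_lit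 63) (nat_lit 40) (.leaf ⟨(nat_lit 821), (nat_lit 0), (nat_lit 80), (nat_lit 99), (nat_lit 5350), (nat_lit 4370), (nat_lit 1392), (nat_lit 1589), (nat_lit 0), (nat_lit 316271846181), (nat_lit 291500), [((nat_lit 320), [((nat_lit 15), (nat_lit 0), (nat_lit 246)), ((nat_lit 15), (nat_lit 1), (nat_lit 575))])], ⟨(nat_lit 5), false, false, false, (nat_lit 130), (nat_lit 4472), (nat_lit 4744), [(nat_lit 1242687), (nat_lit 1249651), (nat_lit 1264172), (nat_lit 1271215), (nat_lit 1382085), (nat_lit 1385607), (nat_lit 1403571), (nat_lit 1407171)]⟩, ⟨(nat_lit 5), false, false, false, (nat_lit 185), (nat_lit 4472), (nat_lit 4744), [(nat_lit 1382085), (nat_lit 1385607), (nat_lit 1403571), (nat_lit 1407171), (nat_lit 1521484), (nat_lit 1521562), (nat_lit 1542969), (nat_lit 1543125)]⟩, (nat_lit 4102589), (nat_lit 48635955), (nat_lit 6718462), (nat_lit 11645583), (nat_lit 0), (nat_lit 5), [⟨(nat_lit 0), (nat_lit 100), (nat_lit 83), (nat_lit 70), (nat_lit 225270699)⟩],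 [], [], [],
 ⟨⟨[(nat_lit 60), (nat_lit 80), (nat_lit 100)], [(nat_lit 0), (nat_lit 456), (nat_lit 976)], [((nat_lit 0), (nat_lit 0), (nat_lit 0)), ((nat_lit 1000), (nat_lit 859), (nat_lit 351)), ((nat_lit 1000), (nat_lit 848), (nat_lit 406))], ((nat_lit 84), (nat_lit 100), (nat_lit 44))⟩, (nat_lit 3090230), (nat_lit 167), (nat_lit 167), (nat_lit 0), (nat_lit 165983), [(nat_lit 2211009801), (nat_lit 2727152622), (nat_lit 3126730800)], [(nat_lit 0), (nat_lit 0), (nat_lit 0)], [(nat_lit 15770029601), (nat_lit 16781819380), (nat_lit 15359469230), (nat_lit 16111716852), (nat_lit 17880009245), (nat_lit 18763564980), (nat_lit 17401531430), (nat_lit 18059135442)], (nat_lit 1271251), (nat_lit 1271251), (nat_lit 230000), (nat_lit 780000), (nat_lit 780000), (nat_lit 1435001), [(nat_lit 780000), (nat_lit 1100000), (nat_lit 1442501)], [(nat_lit 9), (nat_lit 50), (nat_lit 317), (nat_lit 100), (nat_lit 12)]⟩,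
 ⟨⟨[(nat_lit 100), (nat_lit 120), (nat_lit 140)], [(nat_lit 0), (nat_lit 254), (nat_lit 778)], [((nat_lit 0), (nat_lit 0), (nat_lit 0)), ((nat_lit 1000), (nat_lit 1000), (nat_lit 198)), ((nat_lit 960), (nat_lit 1000), (nat_lit 392))], ((nat_lit 100), (nat_lit 94), (nat_lit 44))⟩, (nat_lit 1193688), (nat_lit 372), (nat_lit 372), (nat_lit 0), (nat_lit 266014), [(nat_lit 618750000), (nat_lit 788832000), (nat_lit 974358000)], [], [(nat_lit 2462275560), (nat_lit 2257702704), (nat_lit 2966835912), (nat_lit 2277994272), (nat_lit 6167147004), (nat_lit 5548752396), (nat_lit 7019792268), (nat_lit 6416738892)], (nat_lit 1271251), (nat_lit 1271251), (nat_lit 230000), (nat_lit 780000), (nat_lit 0), (nat_lit 2825001), [(nat_lit 1412501), (nat_lit 1271251), (nat_lit 1271251)], [(nat_lit 22), (nat_lit 58), (nat_lit 428), (nat_lit 200), (nat_lit 13)]⟩,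
 ⟨⟨[(nat_lit 100), (nat_lit 120), (nat_lit 140)], [(nat_lit 0), (nat_lit 254), (nat_lit 778)], [((nat_lit 0), (nat_lit 0), (nat_lit 0)), ((nat_lit 1000), (nat_lit 1000), (nat_lit 198)), ((nat_lit 960), (nat_lit 1000), (nat_lit 392))], ((nat_lit 100), (nat_lit 94), (nat_lit 44))⟩, (nat_lit 329811), (nat_lit 300), (nat_lit 429), (nat_lit 11187501), (nat_lit 455947), [(nat_lit 1118750000), (nat_lit 1426272000), (nat_lit 1761718000)], [], [(nat_lit 7418172804), (nat_lit 7016898051), (nat_lit 6909262313), (nat_lit 6947450205), (nat_lit 7483647230), (nat_lit 6862908694), (nat_lit 9236758434), (nat_lit 8521737830)], (nat_lit 1271251), (nat_lit 1271251), (nat_lit 780000), (nat_lit 1435001), (nat_lit 0), (nat_lit 2825001), [(nat_lit 1412501), (nat_lit 1271251), (nat_lit 1271251)], [(nat_lit 22), (nat_lit 58), (nat_lit 456), (nat_lit 225), (nat_lit 13)]⟩⟩)))))))))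
noncomputable def c3_5 : Tr Lf :=
 (.spl (nat_lit 2) (nat_lit 180) (.spl (nat_lit 3) (nat_lit 200) (.spl (nat_lit 0) (nat_lit 310) (.spl (nat_lit 6) (nat_lit 12) (.leaf ⟨(nat_lit 1000), (nat_lit 0), (nat_lit 0), (nat_lit 0), (nat_lit 5798), (nat_lit 3871), (nat_lit 0), (nat_lit 0), (nat_lit 0), (nat_lit 5669), (nat_lit 1000000), [((nat_lit 310), [((nat_lit 15), (nat_lit 2), (nat_lit 1000))])], ⟨(nat_lit 3), false, false, false, (nat_lit 163), (nat_lit 4743), (nat_lit 5000), [(nat_lit 1271427), (nat_lit 1274646), (nat_lit 1399997), (nat_lit 1403574), (nat_lit 1414284), (nat_lit 1414046), (nat_lit 1542851), (nat_lit 1542970)]⟩, ⟨(nat_lit 3), false, false, false, (nat_lit 80), (nat_lit 4743), (nat_lit 5000), [(nat_lit 1057141), (nat_lit 1065547), (nat_lit 1121427), (nat_lit 1130012), (nat_lit 1271427), (nat_lit 1274646), (nat_lit 1335713), (nat_lit 1339111)]⟩, (nat_lit 3164500), (nat_lit 54058204), (nat_lit 9711649), (nat_lit 3230147), (nat_lit 0), (nat_lit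 0), [], [⟨(nat_lit 0), (nat_lit 100), (nat_lit 88), (nat_lit 31), (nat_lit 91714398)⟩], [], [],
 ⟨⟨[(nat_lit 60), (nat_lit 80), (nat_lit 100)], [(nat_lit 0), (nat_lit 304), (nat_lit 825)], [((nat_lit 0), (nat_lit 0), (nat_lit 0)), ((nat_lit 1000), (nat_lit 905), (nat_lit 238)), ((nat_lit 1000), (nat_lit 871), (nat_lit 407))], ((nat_lit 88), (nat_lit 100), (nat_lit 35))⟩, (nat_lit 853052), (nat_lit 188), (nat_lit 188), (nat_lit 0), (nat_lit 112230), [(nat_lit 1981440007), (nat_lit 1580800003), (nat_lit 860799997)], [(nat_lit 0), (nat_lit 0), (nat_lit 0)], [(nat_lit 16241904354), (nat_lit 16936482681), (nat_lit 18195161085), (nat_lit 18804000437), (nat_lit 15421542397), (nat_lit 16040947945), (nat_lit 17300649503), (nat_lit 17884557119)], (nat_lit 1271251), (nat_lit 1271251), (nat_lit 780000), (nat_lit 1435001), (nat_lit 0), (nat_lit 780000), [(nat_lit 780000), (nat_lit 1100000), (nat_lit 1442501)], [(nat_lit 9), (nat_lit 50), (nat_lit 317), (nat_lit 100),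 (nat_lit 12)]⟩,
 Rw.none,
 Rw.none⟩) (.dle (nat_lit 0))) (.leaf ⟨(nat_lit 1000), (nat_lit 0), (nat_lit 0), (nat_lit 0), (nat_lit 4194), (nat_lit 3768), (nat_lit 0), (nat_lit 0), (nat_lit 0), (nat_lit 165923), (nat_lit 564200), [((nat_lit 320), [((nat_lit 15), (nat_lit 1), (nat_lit 179)), ((nat_lit 35), (nat_lit 2), (nat_lit 821))])], ⟨(nat_lit 3), false, false, false, (nat_lit 164), (nat_lit 4472), (nat_lit 4744), [(nat_lit 1274646), (nat_lit 1277776), (nat_lit 1403571), (nat_lit 1407171), (nat_lit 1414046), (nat_lit 1413733), (nat_lit 1542969), (nat_lit 1543125)]⟩, ⟨(nat_lit 3), false, false, false, (nat_lit 82), (nat_lit 4472), (nat_lit 4744), [(nat_lit 1065547), (nat_lit 1073842), (nat_lit 1130012), (nat_lit 1138541), (nat_lit 1274646), (nat_lit 1277776), (nat_lit 1339111), (nat_lit 1342476)]⟩, (nat_lit 3207745), (nat_lit 53849090), (nat_lit 9774792), (nat_lit 3376118), (nat_lit 0), (nat_lit 0), [], [⟨(nat_lit 0), (nat_lit 100), (nat_lit 84), (nat_lit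 36), (nat_lit 91796917)⟩], [], [],
 ⟨⟨[(nat_lit 60), (nat_lit 80), (nat_lit 100)], [(nat_lit 0), (nat_lit 456), (nat_lit 976)], [((nat_lit 0), (nat_lit 0), (nat_lit 0)), ((nat_lit 1000), (nat_lit 859), (nat_lit 351)), ((nat_lit 1000), (nat_lit 848), (nat_lit 406))], ((nat_lit 84), (nat_lit 100), (nat_lit 44))⟩, (nat_lit 1873954), (nat_lit 188), (nat_lit 188), (nat_lit 0), (nat_lit 173604), [(nat_lit 1995570139), (nat_lit 2077744671), (nat_lit 1890613200)], [(nat_lit 0), (nat_lit 0), (nat_lit 0)], [(nat_lit 16949548701), (nat_lit 17635074667), (nat_lit 18821472136), (nat_lit 19508432848), (nat_lit 16138161681), (nat_lit 16749856739), (nat_lit 18020350024), (nat_lit 18632794254)], (nat_lit 1271251), (nat_lit 1271251), (nat_lit 780000), (nat_lit 1435001), (nat_lit 0), (nat_lit 780000), [(nat_lit 780000), (nat_lit 1100000), (nat_lit 1442501)], [(nat_lit 9), (nat_lit 50), (nat_lit 317), (nat_lit 100), (nat_lit 12)]⟩,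
 Rw.none,
 Rw.none⟩)) (.trX (nat_lit 5) (nat_lit 3) (nat_lit 4) (nat_lit 100) (nat_lit 40) (nat_lit 92) (nat_lit 390) (.spl (nat_lit 0) (nat_lit 310) (.spl (nat_lit 6) (nat_lit 12) (.leaf ⟨(nat_lit 1000), (nat_lit 0), (nat_lit 0), (nat_lit 0), (nat_lit 5712), (nat_lit 3785), (nat_lit 0), (nat_lit 0), (nat_lit 0), (nat_lit 942), (nat_lit 1000000), [((nat_lit 310), [((nat_lit 15), (nat_lit 2), (nat_lit 1000))])], ⟨(nat_lit 5), false, false, true, (nat_lit 206), (nat_lit 4743), (nat_lit 5000), [(nat_lit 1414284), (nat_lit 1414046), (nat_lit 1542851), (nat_lit 1542970), (nat_lit 1485713), (nat_lit 1483746), (nat_lit 1614278), (nat_lit 1612668)]⟩, ⟨(nat_lit 3), false, false, false, (nat_lit 80), (nat_lit 4743), (nat_lit 5000), [(nat_lit 1057141), (nat_lit 1065547), (nat_lit 1121427), (nat_lit 1130012), (nat_lit 1271427), (nat_lit 1274646), (nat_lit 1335713), (nat_lit 1339111)]⟩, (nat_lit 3635134), (nat_lit 49956987), (nat_lit 13845672), (nat_lit 3197341),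 (nat_lit 0), (nat_lit 0), [], [⟨(nat_lit 0), (nat_lit 100), (nat_lit 88), (nat_lit 31), (nat_lit 93333414)⟩], [], [],
 ⟨⟨[(nat_lit 60), (nat_lit 80), (nat_lit 100)], [(nat_lit 0), (nat_lit 304), (nat_lit 825)], [((nat_lit 0), (nat_lit 0), (nat_lit 0)), ((nat_lit 1000), (nat_lit 905), (nat_lit 238)), ((nat_lit 1000), (nat_lit 871), (nat_lit 407))], ((nat_lit 88), (nat_lit 100), (nat_lit 35))⟩, (nat_lit 692204), (nat_lit 148), (nat_lit 148), (nat_lit 0), (nat_lit 112230), [(nat_lit 1981440001), (nat_lit 1580800001), (nat_lit 860799999)], [(nat_lit 0), (nat_lit 0), (nat_lit 0)], [(nat_lit 18416492668), (nat_lit 19019138744), (nat_lit 19793983000), (nat_lit 20374345830), (nat_lit 17540289524), (nat_lit 18088155014), (nat_lit 18867436106), (nat_lit 19401476786)], (nat_lit 1271251), (nat_lit 1271251), (nat_lit 1271251), (nat_lit 1271251), (nat_lit 0), (nat_lit 780000), [(nat_lit 780000), (nat_lit 1100000), (nat_lit 1442501)], [(nat_lit 9), (nat_lit 50), (nat_lit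 238), (nat_lit 30), (nat_lit 9)]⟩,
 Rw.none,
 Rw.none⟩) (.dle (nat_lit 0))) (.leaf ⟨(nat_lit 1000), (nat_lit 0), (nat_lit 0), (nat_lit 0), (nat_lit 4075), (nat_lit 3706), (nat_lit 0), (nat_lit 0), (nat_lit 0), (nat_lit 152737), (nat_lit 552000), [((nat_lit 320), [((nat_lit 15), (nat_lit 1), (nat_lit 240)), ((nat_lit 35), (nat_lit 2), (nat_lit 760))])], ⟨(nat_lit 5), false, false, true, (nat_lit 205), (nat_lit 4472), (nat_lit 4744), [(nat_lit 1414046), (nat_lit 1413733), (nat_lit 1542969), (nat_lit 1543125), (nat_lit 1483746), (nat_lit 1481711), (nat_lit 1612668), (nat_lit 1611103)]⟩, ⟨(nat_lit 3), false, false, false, (nat_lit 82), (nat_lit 4472), (nat_lit 4744), [(nat_lit 1065547), (nat_lit 1073842), (nat_lit 1130012), (nat_lit 1138541), (nat_lit 1274646), (nat_lit 1277776), (nat_lit 1339111), (nat_lit 1342476)]⟩, (nat_lit 3664314), (nat_lit 49862498), (nat_lit 13797868), (nat_lit 3339634), (nat_lit 0), (nat_lit 0), [], [⟨(nat_lit 0), (nat_lit 100),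 (nat_lit 84), (nat_lit 36), (nat_lit 96509956)⟩], [], [],
 ⟨⟨[(nat_lit 60), (nat_lit 80), (nat_lit 100)], [(nat_lit 0), (nat_lit 456), (nat_lit 976)], [((nat_lit 0), (nat_lit 0), (nat_lit 0)), ((nat_lit 1000), (nat_lit 859), (nat_lit 351)), ((nat_lit 1000), (nat_lit 848), (nat_lit 406))], ((nat_lit 84), (nat_lit 100), (nat_lit 44))⟩, (nat_lit 1713119), (nat_lit 164), (nat_lit 164), (nat_lit 0), (nat_lit 173604), [(nat_lit 1997400059), (nat_lit 2088038562), (nat_lit 1922992000)], [(nat_lit 0), (nat_lit 0), (nat_lit 0)], [(nat_lit 19072091173), (nat_lit 19669055707), (nat_lit 20397897025), (nat_lit 21025332760), (nat_lit 18197169605), (nat_lit 18755342709), (nat_lit 19520510361), (nat_lit 20081697894)], (nat_lit 1271251), (nat_lit 1271251), (nat_lit 1271251), (nat_lit 1271251), (nat_lit 0), (nat_lit 780000), [(nat_lit 780000), (nat_lit 1100000), (nat_lit 1442501)], [(nat_lit 9), (nat_lit 50), (nat_lit 238), (nat_lit 30), (nat_lit 8)]⟩,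
 Rw.none,
 Rw.none⟩)))) (.ord (.trZ (nat_lit 0) (nat_lit 2) (nat_lit 4) (nat_lit 100) (nat_lit 87) (nat_lit 41) (nat_lit 10) (.spl (nat_lit 5) (nat_lit 120) (.spl (nat_lit 0) (nat_lit 310) (.spl (nat_lit 6) (nat_lit 12) (.leaf ⟨(nat_lit 0), (nat_lit 992), (nat_lit 0), (nat_lit 8), (nat_lit 35711), (nat_lit 5487), (nat_lit 9515), (nat_lit 287), (nat_lit 0), (nat_lit 39732062399667), (nat_lit 0), [], Pd.none, Pd.none, (nat_lit 0), (nat_lit 1), (nat_lit 0), (nat_lit 0), (nat_lit 4), (nat_lit 0), [], [], [], [],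
 ⟨⟨[(nat_lit 60), (nat_lit 80), (nat_lit 100)], [(nat_lit 0), (nat_lit 304), (nat_lit 825)], [((nat_lit 0), (nat_lit 0), (nat_lit 0)), ((nat_lit 1000), (nat_lit 905), (nat_lit 238)), ((nat_lit 1000), (nat_lit 871), (nat_lit 407))], ((nat_lit 88), (nat_lit 100), (nat_lit 35))⟩, (nat_lit 5512023), (nat_lit 184), (nat_lit 184), (nat_lit 0), (nat_lit 122834), [(nat_lit 3282000014), (nat_lit 4688000014), (nat_lit 6250000000)], [], [(nat_lit 17171094016), (nat_lit 18351404571), (nat_lit 21256282244), (nat_lit 22189095556), (nat_lit 15346423888), (nat_lit 16086813594), (nat_lit 18760211820), (nat_lit 19396198896)], (nat_lit 1271251), (nat_lit 1271251), (nat_lit 780000), (nat_lit 1762501), (nat_lit 54688), (nat_lit 780000), [(nat_lit 780000), (nat_lit 1100000), (nat_lit 1442501)], [(nat_lit 9), (nat_lit 50), (nat_lit 317), (nat_lit 100), (nat_lit 12)]⟩,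
 ⟨⟨[(nat_lit 120), (nat_lit 140), (nat_lit 160)], [(nat_lit 0), (nat_lit 266), (nat_lit 862)], [((nat_lit 0), (nat_lit 0), (nat_lit 0)), ((nat_lit 960), (nat_lit 1000), (nat_lit 200)), ((nat_lit 874), (nat_lit 1000), (nat_lit 406))], ((nat_lit 100), (nat_lit 91), (nat_lit 34))⟩, (nat_lit 13637193), (nat_lit 389), (nat_lit 389), (nat_lit 0), (nat_lit 234610), [(nat_lit 7968000000), (nat_lit 9842000000), (nat_lit 11872000000)], [], [(nat_lit 35530182433), (nat_lit 30552590192), (nat_lit 46065953230), (nat_lit 31943200300), (nat_lit 37685306178), (nat_lit 25111781145), (nat_lit 51080898783), (nat_lit 37535197300)], (nat_lit 1271251), (nat_lit 1271251), (nat_lit 780000), (nat_lit 1762501), (nat_lit 0), (nat_lit 780000), [(nat_lit 1695001), (nat_lit 1271251), (nat_lit 1271251)], [(nat_lit 27), (nat_lit 62), (nat_lit 373), (nat_lit 150), (nat_lit 10)]⟩,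
 ⟨⟨[(nat_lit 120), (nat_lit 140), (nat_lit 160)], [(nat_lit 0), (nat_lit 266), (nat_lit 862)], [((nat_lit 0), (nat_lit 0), (nat_lit 0)), ((nat_lit 960), (nat_lit 1000), (nat_lit 200)), ((nat_lit 874), (nat_lit 1000), (nat_lit 406))], ((nat_lit 100), (nat_lit 91), (nat_lit 34))⟩, (nat_lit 94738), (nat_lit 300), (nat_lit 424), (nat_lit 531200), (nat_lit 91595), [(nat_lit 63744000), (nat_lit 78736000), (nat_lit 94976000)], [], [(nat_lit 1113720961), (nat_lit 649543699), (nat_lit 275246479), (nat_lit 247934976), (nat_lit 220400605), (nat_lit 222064983), (nat_lit 274537996), (nat_lit 52950)], (nat_lit 1271251), (nat_lit 1271251), (nat_lit 54688), (nat_lit 780000), (nat_lit 0), (nat_lit 780000), [(nat_lit 1695001), (nat_lit 1271251), (nat_lit 1271251)], [(nat_lit 27), (nat_lit 62), (nat_lit 345), (nat_lit 125), (nat_lit 10)]⟩⟩) (.dle (nat_lit 0))) (.trZ (nat_lit 0) (nat_lit 2) (nat_lit 4) (nat_lit 100) (nat_lit 84) (nat_lit 47) (nat_lit 20) (.leaf ⟨(nat_lit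 721), (nat_lit 279), (nat_lit 0), (nat_lit 0), (nat_lit 6274), (nat_lit 4202), (nat_lit 2295), (nat_lit 0), (nat_lit 0), (nat_lit 10915694573567), (nat_lit 235300), [((nat_lit 320), [((nat_lit 15), (nat_lit 0), (nat_lit 354)), ((nat_lit 15), (nat_lit 1), (nat_lit 367))])], ⟨(nat_lit 4), false, false, false, (nat_lit 191), (nat_lit 4472), (nat_lit 4744), [(nat_lit 1339111), (nat_lit 1342476), (nat_lit 1403571), (nat_lit 1407171), (nat_lit 1548210), (nat_lit 1546410), (nat_lit 1612668), (nat_lit 1611103)]⟩, ⟨(nat_lit 4), false, false, false, (nat_lit 115), (nat_lit 4472), (nat_lit 4744), [(nat_lit 1164861), (nat_lit 1172530), (nat_lit 1229323), (nat_lit 1237227), (nat_lit 1339111), (nat_lit 1342476), (nat_lit 1403571), (nat_lit 1407171)]⟩, (nat_lit 3960734), (nat_lit 49233828), (nat_lit 12214367), (nat_lit 5551805), (nat_lit 4), (nat_lit 0), [], [⟨(nat_lit 0), (nat_lit 100), (nat_lit 82), (nat_lit 62), (nat_lit 79427827)⟩], [], [],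
 ⟨⟨[(nat_lit 60), (nat_lit 80), (nat_lit 100)], [(nat_lit 0), (nat_lit 456), (nat_lit 976)], [((nat_lit 0), (nat_lit 0), (nat_lit 0)), ((nat_lit 1000), (nat_lit 859), (nat_lit 351)), ((nat_lit 1000), (nat_lit 848), (nat_lit 406))], ((nat_lit 84), (nat_lit 100), (nat_lit 44))⟩, (nat_lit 3331379), (nat_lit 177), (nat_lit 177), (nat_lit 0), (nat_lit 166021), [(nat_lit 2316586697), (nat_lit 2974651355), (nat_lit 3562118000)], [(nat_lit 0), (nat_lit 0), (nat_lit 0)], [(nat_lit 16706018759), (nat_lit 17418869014), (nat_lit 20212925757), (nat_lit 21013471444), (nat_lit 15956187531), (nat_lit 16600371449), (nat_lit 19334128017), (nat_lit 19928006786)], (nat_lit 1271251), (nat_lit 1271251), (nat_lit 780000), (nat_lit 1762501), (nat_lit 111251), (nat_lit 780000), [(nat_lit 780000), (nat_lit 1100000), (nat_lit 1442501)], [(nat_lit 9), (nat_lit 50), (nat_lit 317), (nat_lit 100), (nat_lit 12)]⟩,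
 ⟨⟨[(nat_lit 120), (nat_lit 140), (nat_lit 160)], [(nat_lit 0), (nat_lit 266), (nat_lit 862)], [((nat_lit 0), (nat_lit 0), (nat_lit 0)), ((nat_lit 960), (nat_lit 1000), (nat_lit 200)), ((nat_lit 874), (nat_lit 1000), (nat_lit 406))], ((nat_lit 100), (nat_lit 86), (nat_lit 44))⟩, (nat_lit 1885923), (nat_lit 448), (nat_lit 448), (nat_lit 0), (nat_lit 350259), [(nat_lit 2223072000), (nat_lit 2745918000), (nat_lit 3312288000)], [], [(nat_lit 9938952626), (nat_lit 10199847924), (nat_lit 12612173814), (nat_lit 10347739992), (nat_lit 10560157916), (nat_lit 8898645366), (nat_lit 13939711097), (nat_lit 10672513524)], (nat_lit 1271251), (nat_lit 1271251), (nat_lit 780000), (nat_lit 1762501), (nat_lit 0), (nat_lit 780000), [(nat_lit 1695001), (nat_lit 1271251), (nat_lit 1271251)], [(nat_lit 27), (nat_lit 62), (nat_lit 373), (nat_lit 150), (nat_lit 10)]⟩,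
 Rw.none⟩))) (.leaf ⟨(nat_lit 822), (nat_lit 0), (nat_lit 0), (nat_lit 178), (nat_lit 10867), (nat_lit 4057), (nat_lit 974), (nat_lit 1752), (nat_lit 0), (nat_lit 225510), (nat_lit 466800), [((nat_lit 320), [((nat_lit 15), (nat_lit 0), (nat_lit 12)), ((nat_lit 15), (nat_lit 1), (nat_lit 111)), ((nat_lit 35), (nat_lit 2), (nat_lit 699))])], ⟨(nat_lit 4), false, false, false, (nat_lit 190), (nat_lit 4472), (nat_lit 5000), [(nat_lit 1335713), (nat_lit 1342476), (nat_lit 1399984), (nat_lit 1407160), (nat_lit 1549999), (nat_lit 1546410), (nat_lit 1614256), (nat_lit 1611081)]⟩, ⟨(nat_lit 4), false, false, false, (nat_lit 110), (nat_lit 4472), (nat_lit 5000), [(nat_lit 1139284), (nat_lit 1155536), (nat_lit 1203563), (nat_lit 1220228), (nat_lit 1335713), (nat_lit 1342476), (nat_lit 1399984), (nat_lit 1407160)]⟩, (nat_lit 3899320), (nat_lit 49555470), (nat_lit 12220970), (nat_lit 5223560), (nat_lit 0), (nat_lit 0), [], [⟨(nat_lit 0), (nat_lit 100), (nat_lit 84),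 (nat_lit 59), (nat_lit 348981695)⟩], [], [],
 ⟨⟨[(nat_lit 60), (nat_lit 80), (nat_lit 100)], [(nat_lit 0), (nat_lit 304), (nat_lit 825)], [((nat_lit 0), (nat_lit 0), (nat_lit 0)), ((nat_lit 1000), (nat_lit 905), (nat_lit 238)), ((nat_lit 1000), (nat_lit 871), (nat_lit 407))], ((nat_lit 87), (nat_lit 100), (nat_lit 44))⟩, (nat_lit 2955080), (nat_lit 187), (nat_lit 187), (nat_lit 0), (nat_lit 168052), [(nat_lit 2182502469), (nat_lit 2488217809), (nat_lit 2703204191)], [(nat_lit 0), (nat_lit 0), (nat_lit 0)], [(nat_lit 16174759805), (nat_lit 17622172403), (nat_lit 19737940676), (nat_lit 21189634237), (nat_lit 15426300204), (nat_lit 16789072644), (nat_lit 18800613982), (nat_lit 19901279854)], (nat_lit 1271251), (nat_lit 1271251), (nat_lit 780000), (nat_lit 1762501), (nat_lit 54688), (nat_lit 780000), [(nat_lit 780000), (nat_lit 1100000), (nat_lit 1442501)], [(nat_lit 9), (nat_lit 50), (nat_lit 317), (nat_lit 100), (nat_lit 12)]⟩,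
 ⟨⟨[(nat_lit 120), (nat_lit 140), (nat_lit 160)], [(nat_lit 0), (nat_lit 266), (nat_lit 862)], [((nat_lit 0), (nat_lit 0), (nat_lit 0)), ((nat_lit 960), (nat_lit 1000), (nat_lit 200)), ((nat_lit 874), (nat_lit 1000), (nat_lit 406))], ((nat_lit 100), (nat_lit 86), (nat_lit 44))⟩, (nat_lit 2104951), (nat_lit 427), (nat_lit 427), (nat_lit 0), (nat_lit 524301), [(nat_lit 1418304000), (nat_lit 1751876000), (nat_lit 2113216000)], [], [(nat_lit 8060596213), (nat_lit 6480048416), (nat_lit 6538248746), (nat_lit 6736965140), (nat_lit 7824745516), (nat_lit 7734670960), (nat_lit 9782895846), (nat_lit 8532683082)], (nat_lit 1271251), (nat_lit 1271251), (nat_lit 780000), (nat_lit 1762501), (nat_lit 780000), (nat_lit 3072501), [(nat_lit 1695001), (nat_lit 1271251), (nat_lit 1271251)], [(nat_lit 27), (nat_lit 62), (nat_lit 456), (nat_lit 225), (nat_lit 12)]⟩,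
 ⟨⟨[(nat_lit 120), (nat_lit 140), (nat_lit 160)], [(nat_lit 0), (nat_lit 266), (nat_lit 862)], [((nat_lit 0), (nat_lit 0), (nat_lit 0)), ((nat_lit 960), (nat_lit 1000), (nat_lit 200)), ((nat_lit 874), (nat_lit 1000), (nat_lit 406))], ((nat_lit 100), (nat_lit 86), (nat_lit 44))⟩, (nat_lit 365368), (nat_lit 300), (nat_lit 407), (nat_lit 11819201), (nat_lit 292245), [(nat_lit 1418304000), (nat_lit 1751876000), (nat_lit 2113216000)], [], [(nat_lit 7601856935), (nat_lit 7718397080), (nat_lit 6700531588), (nat_lit 6635412208), (nat_lit 11575292288), (nat_lit 9123257912), (nat_lit 12736482844), (nat_lit 10371380080)], (nat_lit 1271251), (nat_lit 1271251), (nat_lit 54688), (nat_lit 780000), (nat_lit 780000), (nat_lit 3072501), [(nat_lit 1695001), (nat_lit 1271251), (nat_lit 1271251)], [(nat_lit 27), (nat_lit 62), (nat_lit 428), (nat_lit 200), (nat_lit 11)]⟩⟩)))))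
noncomputable def c3_6 : Tr Lf :=
 (.spl (nat_lit 2) (nat_lit 180) (.leaf ⟨(nat_lit 1000), (nat_lit 0), (nat_lit 0), (nat_lit 0), (nat_lit 852), (nat_lit 4543), (nat_lit 0), (nat_lit 0), (nat_lit 0), (nat_lit 647744), (nat_lit 947600), [((nat_lit 320), [((nat_lit 35), (nat_lit 2), (nat_lit 131)), ((nat_lit 15), (nat_lit 2), (nat_lit 869))])], ⟨(nat_lit 3), false, false, false, (nat_lit 177), (nat_lit 4472), (nat_lit 5000), [(nat_lit 1271427), (nat_lit 1277776), (nat_lit 1399984), (nat_lit 1407160), (nat_lit 1485713), (nat_lit 1481711), (nat_lit 1614256), (nat_lit 1611081)]⟩, ⟨(nat_lit 3), false, false, true, (nat_lit 151), (nat_lit 4472), (nat_lit 5000), [(nat_lit 1271427), (nat_lit 1277776), (nat_lit 1335713), (nat_lit 1342476), (nat_lit 1414284), (nat_lit 1413733), (nat_lit 1478570), (nat_lit 1478432)]⟩, (nat_lit 4259055), (nat_lit 47840497), (nat_lit 10802031), (nat_lit 8357472), (nat_lit 0), (nat_lit 0), [], [], [], [],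
 ⟨⟨[(nat_lit 60), (nat_lit 80), (nat_lit 100)], [(nat_lit 0), (nat_lit 304), (nat_lit 825)], [((nat_lit 0), (nat_lit 0), (nat_lit 0)), ((nat_lit 1000), (nat_lit 905), (nat_lit 238)), ((nat_lit 1000), (nat_lit 871), (nat_lit 407))], ((nat_lit 87), (nat_lit 100), (nat_lit 44))⟩, (nat_lit 754), (nat_lit 137), (nat_lit 137), (nat_lit 0), (nat_lit 221834), [(nat_lit 1981336713), (nat_lit 1750395720), (nat_lit 874813880)], [(nat_lit 0), (nat_lit 0), (nat_lit 0)], [(nat_lit 14923830988), (nat_lit 16263252747), (nat_lit 18029616371), (nat_lit 19187728348), (nat_lit 16728464754), (nat_lit 17898741415), (nat_lit 19371983818), (nat_lit 20706817870)], (nat_lit 1271251), (nat_lit 1271251), (nat_lit 780000), (nat_lit 1762501), (nat_lit 780000), (nat_lit 1435001), [(nat_lit 780000), (nat_lit 1100000), (nat_lit 1442501)], [(nat_lit 9), (nat_lit 50), (nat_lit 345), (nat_lit 125), (nat_lit 13)]⟩,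
 Rw.none,
 Rw.none⟩) (.ord (.leaf ⟨(nat_lit 874), (nat_lit 0), (nat_lit 0), (nat_lit 126), (nat_lit 2001), (nat_lit 4796), (nat_lit 1424), (nat_lit 1368), (nat_lit 0), (nat_lit 3255183752287), (nat_lit 874000), [((nat_lit 320), [((nat_lit 15), (nat_lit 2), (nat_lit 874))])], ⟨(nat_lit 4), false, false, false, (nat_lit 190), (nat_lit 4472), (nat_lit 5000), [(nat_lit 1335713), (nat_lit 1342476), (nat_lit 1399984), (nat_lit 1407160), (nat_lit 1549999), (nat_lit 1546410), (nat_lit 1614256), (nat_lit 1611081)]⟩, ⟨(nat_lit 4), false, false, false, (nat_lit 176), (nat_lit 4472), (nat_lit 5000), [(nat_lit 1335713), (nat_lit 1342476), (nat_lit 1399984), (nat_lit 1407160), (nat_lit 1478570), (nat_lit 1478432), (nat_lit 1542832), (nat_lit 1543108)]⟩, (nat_lit 4637691), (nat_lit 44887125), (nat_lit 11719040), (nat_lit 10393835), (nat_lit 0), (nat_lit 0), [], [], [], [],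
 ⟨⟨[(nat_lit 60), (nat_lit 80), (nat_lit 100)], [(nat_lit 0), (nat_lit 304), (nat_lit 825)], [((nat_lit 0), (nat_lit 0), (nat_lit 0)), ((nat_lit 1000), (nat_lit 905), (nat_lit 238)), ((nat_lit 1000), (nat_lit 871), (nat_lit 407))], ((nat_lit 87), (nat_lit 100), (nat_lit 44))⟩, (nat_lit 1109722), (nat_lit 139), (nat_lit 139), (nat_lit 0), (nat_lit 248859), [(nat_lit 2130568586), (nat_lit 2076468492), (nat_lit 1430764000)], [(nat_lit 0), (nat_lit 0), (nat_lit 0)], [(nat_lit 14256768747), (nat_lit 15634162068), (nat_lit 17696300556), (nat_lit 19269608256), (nat_lit 16140287566), (nat_lit 17630364372), (nat_lit 19389295596), (nat_lit 20760729640)], (nat_lit 1271251), (nat_lit 1271251), (nat_lit 780000), (nat_lit 1762501), (nat_lit 780000), (nat_lit 1435001), [(nat_lit 780000), (nat_lit 1100000), (nat_lit 1442501)], [(nat_lit 9), (nat_lit 50), (nat_lit 345), (nat_lit 125), (nat_lit 13)]⟩,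
 ⟨⟨[(nat_lit 120), (nat_lit 140), (nat_lit 160)], [(nat_lit 0), (nat_lit 266), (nat_lit 862)], [((nat_lit 0), (nat_lit 0), (nat_lit 0)), ((nat_lit 960), (nat_lit 1000), (nat_lit 200)), ((nat_lit 874), (nat_lit 1000), (nat_lit 406))], ((nat_lit 100), (nat_lit 86), (nat_lit 44))⟩, (nat_lit 1431993), (nat_lit 557), (nat_lit 557), (nat_lit 0), (nat_lit 524301), [(nat_lit 1003968000), (nat_lit 1240092000), (nat_lit 1495872000)], [], [(nat_lit 4467201032), (nat_lit 3652832766), (nat_lit 5954657024), (nat_lit 3841067936), (nat_lit 7919761768), (nat_lit 5997440800), (nat_lit 10207123880), (nat_lit 8356668632)], (nat_lit 1271251), (nat_lit 1271251), (nat_lit 780000), (nat_lit 1762501), (nat_lit 0), (nat_lit 2825001), [(nat_lit 1695001), (nat_lit 1271251), (nat_lit 1271251)], [(nat_lit 27), (nat_lit 62), (nat_lit 456), (nat_lit 225), (nat_lit 12)]⟩,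
 ⟨⟨[(nat_lit 120), (nat_lit 140), (nat_lit 160)], [(nat_lit 0), (nat_lit 266), (nat_lit 862)], [((nat_lit 0), (nat_lit 0), (nat_lit 0)), ((nat_lit 960), (nat_lit 1000), (nat_lit 200)), ((nat_lit 874), (nat_lit 1000), (nat_lit 406))], ((nat_lit 100), (nat_lit 86), (nat_lit 44))⟩, (nat_lit 258632), (nat_lit 300), (nat_lit 557), (nat_lit 8366400), (nat_lit 524301), [(nat_lit 1003968000), (nat_lit 1240092000), (nat_lit 1495872000)], [], [(nat_lit 5901442985), (nat_lit 5858694144), (nat_lit 5689060680), (nat_lit 5649333336), (nat_lit 7841599740), (nat_lit 5994875664), (nat_lit 9309066552), (nat_lit 7508781288)], (nat_lit 1271251), (nat_lit 1271251), (nat_lit 780000), (nat_lit 1435001), (nat_lit 0), (nat_lit 2825001), [(nat_lit 1695001), (nat_lit 1271251), (nat_lit 1271251)], [(nat_lit 27), (nat_lit 62), (nat_lit 456), (nat_lit 225), (nat_lit 12)]⟩⟩)))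
noncomputable def c3_7 : Tr Lf :=
 (.spl (nat_lit 2) (nat_lit 180) (.spl (nat_lit 1) (nat_lit 180) (.trX (nat_lit 3) (nat_lit 0) (nat_lit 1) (nat_lit 87) (nat_lit 59) (nat_lit 100) (nat_lit 370) (.spl (nat_lit 6) (nat_lit 8) (.spl (nat_lit 4) (nat_lit 120) (.trX (nat_lit 5) (nat_lit 3) (nat_lit 4) (nat_lit 100) (nat_lit 59) (nat_lit 94) (nat_lit 370) (.spl (nat_lit 1) (nat_lit 160) (.ord (.trX (nat_lit 3) (nat_lit 0) (nat_lit 1) (nat_lit 88) (nat_lit 68) (nat_lit 100) (nat_lit 350) (.leaf ⟨(nat_lit 954), (nat_lit 46), (nat_lit 0), (nat_lit 0), (nat_lit 8266), (nat_lit 3503), (nat_lit 592), (nat_lit 0), (nat_lit 0), (nat_lit 101606432764), (nat_lit 824000), [((nat_lit 320), [((nat_lit 35), (nat_lit 2), (nat_lit 325)), ((nat_lit 15), (nat_lit 2), (nat_lit 629))])], ⟨(nat_lit 6), false, false, true, (nat_lit 240), (nat_lit 4472), (nat_lit 5000), [(nat_lit 1485713), (nat_lit 1481711), (nat_lit 1528570), (nat_lit 1524844), (nat_lit 1682141), (nat_lit 1668651),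 (nat_lit 1724998), (nat_lit 1711784)]⟩, ⟨(nat_lit 3), false, false, false, (nat_lit 77), (nat_lit 4472), (nat_lit 5000), [(nat_lit 1057141), (nat_lit 1073842), (nat_lit 1099999), (nat_lit 1116975), (nat_lit 1271427), (nat_lit 1277776), (nat_lit 1314284), (nat_lit 1320909)]⟩, (nat_lit 3881943), (nat_lit 46663899), (nat_lit 17399816), (nat_lit 2936285), (nat_lit 3), (nat_lit 0), [⟨(nat_lit 1), (nat_lit 81), (nat_lit 88), (nat_lit 100), (nat_lit 130326744)⟩], [⟨(nat_lit 0), (nat_lit 100), (nat_lit 82), (nat_lit 44), (nat_lit 50118680)⟩], [], [⟨(nat_lit 1), (nat_lit 100), (nat_lit 88), (nat_lit 41), (nat_lit 10620067)⟩],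
 ⟨⟨[(nat_lit 60), (nat_lit 80)], [(nat_lit 0), (nat_lit 304)], [((nat_lit 0), (nat_lit 0), (nat_lit 0)), ((nat_lit 1000), (nat_lit 905), (nat_lit 238))], ((nat_lit 89), (nat_lit 100), (nat_lit 29))⟩, (nat_lit 1414736), (nat_lit 147), (nat_lit 147), (nat_lit 0), (nat_lit 67934), [(nat_lit 2032451763), (nat_lit 1853341200)], [(nat_lit 0), (nat_lit 0)], [(nat_lit 21331608989), (nat_lit 22369420286), (nat_lit 26716807259), (nat_lit 27548964358), (nat_lit 20893741274), (nat_lit 21821914421), (nat_lit 25777403521), (nat_lit 26530633237)], (nat_lit 1271251), (nat_lit 1271251), (nat_lit 1271251), (nat_lit 1271251), (nat_lit 0), (nat_lit 780000), [(nat_lit 780000), (nat_lit 1100000)], [(nat_lit 8), (nat_lit 44), (nat_lit 238), (nat_lit 30), (nat_lit 10)]⟩,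
 ⟨⟨[(nat_lit 140), (nat_lit 160), (nat_lit 180)], [(nat_lit 0), (nat_lit 0), (nat_lit 799)], [((nat_lit 0), (nat_lit 0), (nat_lit 0)), ((nat_lit 0), (nat_lit 0), (nat_lit 0)), ((nat_lit 728), (nat_lit 1000), (nat_lit 454))], ((nat_lit 100), (nat_lit 84), (nat_lit 31))⟩, (nat_lit 270773), (nat_lit 691), (nat_lit 691), (nat_lit 0), (nat_lit 688871), [(nat_lit 452732000), (nat_lit 546112000), (nat_lit 646668000)], [], [(nat_lit 2150267448), (nat_lit 2086466752), (nat_lit 2294964319), (nat_lit 2216585232), (nat_lit 2613959888), (nat_lit 2916090024), (nat_lit 1906399840), (nat_lit 1826827002)], (nat_lit 780000), (nat_lit 1100000), (nat_lit 1271251), (nat_lit 1271251), (nat_lit 0), (nat_lit 2613125), [(nat_lit 1977501), (nat_lit 1271251), (nat_lit 1271251)], [(nat_lit 31), (nat_lit 65), (nat_lit 456), (nat_lit 225), (nat_lit 11)]⟩,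
 Rw.none⟩))) (.leaf ⟨(nat_lit 838), (nat_lit 162), (nat_lit 0), (nat_lit 0), (nat_lit 10520), (nat_lit 3520), (nat_lit 1535), (nat_lit 0), (nat_lit 0), (nat_lit 168467840789), (nat_lit 487000), [((nat_lit 320), [((nat_lit 15), (nat_lit 1), (nat_lit 79)), ((nat_lit 35), (nat_lit 2), (nat_lit 759))])], ⟨(nat_lit 6), false, false, true, (nat_lit 260), (nat_lit 4472), (nat_lit 5000), [(nat_lit 1528570), (nat_lit 1524844), (nat_lit 1549999), (nat_lit 1546410), (nat_lit 1760711), (nat_lit 1745771), (nat_lit 1782131), (nat_lit 1767329)]⟩, ⟨(nat_lit 3), false, false, false, (nat_lit 81), (nat_lit 4472), (nat_lit 5000), [(nat_lit 1057141), (nat_lit 1073842), (nat_lit 1121427), (nat_lit 1138541), (nat_lit 1271427), (nat_lit 1277776), (nat_lit 1335713), (nat_lit 1342476)]⟩, (nat_lit 4064176), (nat_lit 44512450), (nat_lit 19367971), (nat_lit 3119579), (nat_lit 3), (nat_lit 0), [], [], [], [⟨(nat_lit 1), (nat_lit 100), (nat_lit 88), (nat_lit 74), (nat_lit 34265754)⟩],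
 ⟨⟨[(nat_lit 60), (nat_lit 80)], [(nat_lit 0), (nat_lit 304)], [((nat_lit 0), (nat_lit 0), (nat_lit 0)), ((nat_lit 1000), (nat_lit 905), (nat_lit 238))], ((nat_lit 89), (nat_lit 100), (nat_lit 29))⟩, (nat_lit 2888784), (nat_lit 155), (nat_lit 155), (nat_lit 0), (nat_lit 49246), [(nat_lit 2163933601), (nat_lit 2434224000)], [(nat_lit 0), (nat_lit 0)], [(nat_lit 21696186746), (nat_lit 22736048226), (nat_lit 28210053843), (nat_lit 29001758820), (nat_lit 21245791646), (nat_lit 22175674946), (nat_lit 27144721813), (nat_lit 27856885523)], (nat_lit 1271251), (nat_lit 1271251), (nat_lit 1271251), (nat_lit 1271251), (nat_lit 0), (nat_lit 780000), [(nat_lit 780000), (nat_lit 1100000)], [(nat_lit 8), (nat_lit 44), (nat_lit 238), (nat_lit 30), (nat_lit 10)]⟩,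
 ⟨⟨[(nat_lit 120), (nat_lit 140), (nat_lit 160)], [(nat_lit 0), (nat_lit 0), (nat_lit 609)], [((nat_lit 0), (nat_lit 0), (nat_lit 0)), ((nat_lit 0), (nat_lit 0), (nat_lit 0)), ((nat_lit 840), (nat_lit 1000), (nat_lit 400))], ((nat_lit 100), (nat_lit 90), (nat_lit 29))⟩, (nat_lit 1011586), (nat_lit 385), (nat_lit 385), (nat_lit 0), (nat_lit 226693), [(nat_lit 1290816000), (nat_lit 1594404000), (nat_lit 1923264000)], [], [(nat_lit 6063680190), (nat_lit 6086554588), (nat_lit 6994923620), (nat_lit 6989992084), (nat_lit 8090486217), (nat_lit 8581699006), (nat_lit 6306877253), (nat_lit 6270891635)], (nat_lit 1100000), (nat_lit 1271251), (nat_lit 1271251), (nat_lit 1271251), (nat_lit 0), (nat_lit 2613125), [(nat_lit 1695001), (nat_lit 1271251), (nat_lit 1271251)], [(nat_lit 27), (nat_lit 62), (nat_lit 483), (nat_lit 250), (nat_lit 12)]⟩,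
 Rw.none⟩))) (.leaf ⟨(nat_lit 918), (nat_lit 59), (nat_lit 0), (nat_lit 23), (nat_lit 8461), (nat_lit 3698), (nat_lit 1002), (nat_lit 301), (nat_lit 0), (nat_lit 2593861153672), (nat_lit 709200), [((nat_lit 320), [((nat_lit 35), (nat_lit 2), (nat_lit 522)), ((nat_lit 15), (nat_lit 2), (nat_lit 396))])], ⟨(nat_lit 6), false, false, true, (nat_lit 252), (nat_lit 4472), (nat_lit 5000), [(nat_lit 1485713), (nat_lit 1481711), (nat_lit 1549999), (nat_lit 1546410), (nat_lit 1717856), (nat_lit 1702640), (nat_lit 1782131), (nat_lit 1767329)]⟩, ⟨(nat_lit 3), false, false, true, (nat_lit 151), (nat_lit 4472), (nat_lit 5000), [(nat_lit 1271427), (nat_lit 1277776), (nat_lit 1335713), (nat_lit 1342476), (nat_lit 1414284), (nat_lit 1413733), (nat_lit 1478570), (nat_lit 1478432)]⟩, (nat_lit 4809932), (nat_lit 41629132), (nat_lit 17588629), (nat_lit 7782239), (nat_lit 3), (nat_lit 0), [⟨(nat_lit 1), (nat_lit 77), (nat_lit 86), (nat_lit 100), (nat_lit 74695542)⟩], [],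 [], [],
 ⟨⟨[(nat_lit 60), (nat_lit 80)], [(nat_lit 0), (nat_lit 304)], [((nat_lit 0), (nat_lit 0), (nat_lit 0)), ((nat_lit 1000), (nat_lit 905), (nat_lit 238))], ((nat_lit 89), (nat_lit 100), (nat_lit 29))⟩, (nat_lit 1654600), (nat_lit 100), (nat_lit 100), (nat_lit 0), (nat_lit 90887), [(nat_lit 2072979602), (nat_lit 2043764000)], [(nat_lit 0), (nat_lit 0)], [(nat_lit 19285263838), (nat_lit 20342922946), (nat_lit 25856885369), (nat_lit 26649944983), (nat_lit 20836939492), (nat_lit 21770949890), (nat_lit 26770497912), (nat_lit 27477393019)], (nat_lit 1271251), (nat_lit 1271251), (nat_lit 1271251), (nat_lit 1271251), (nat_lit 780000), (nat_lit 1435001), [(nat_lit 780000), (nat_lit 1100000)], [(nat_lit 8), (nat_lit 44), (nat_lit 260), (nat_lit 50), (nat_lit 10)]⟩,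
 ⟨⟨[(nat_lit 140), (nat_lit 160), (nat_lit 180)], [(nat_lit 0), (nat_lit 0), (nat_lit 799)], [((nat_lit 0), (nat_lit 0), (nat_lit 0)), ((nat_lit 0), (nat_lit 0), (nat_lit 0)), ((nat_lit 728), (nat_lit 1000), (nat_lit 454))], ((nat_lit 100), (nat_lit 84), (nat_lit 31))⟩, (nat_lit 444589), (nat_lit 691), (nat_lit 691), (nat_lit 0), (nat_lit 689926), [(nat_lit 807044000), (nat_lit 973504000), (nat_lit 1152756000)], [], [(nat_lit 3916600784), (nat_lit 3795771370), (nat_lit 4241101865), (nat_lit 4072668348), (nat_lit 4900170144), (nat_lit 5744016178), (nat_lit 3762817997), (nat_lit 3600338740)], (nat_lit 780000), (nat_lit 1271251), (nat_lit 1271251), (nat_lit 1271251), (nat_lit 0), (nat_lit 2825001), [(nat_lit 1977501), (nat_lit 1271251), (nat_lit 1271251)], [(nat_lit 31), (nat_lit 65), (nat_lit 483), (nat_lit 250), (nat_lit 11)]⟩,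
 ⟨⟨[(nat_lit 140), (nat_lit 160), (nat_lit 180)], [(nat_lit 0), (nat_lit 0), (nat_lit 799)], [((nat_lit 0), (nat_lit 0), (nat_lit 0)), ((nat_lit 0), (nat_lit 0), (nat_lit 0)), ((nat_lit 728), (nat_lit 1000), (nat_lit 454))], ((nat_lit 100), (nat_lit 84), (nat_lit 31))⟩, (nat_lit 20208), (nat_lit 300), (nat_lit 761), (nat_lit 1706600), (nat_lit 689926), [(nat_lit 226366000), (nat_lit 273056000), (nat_lit 323334000)], [], [(nat_lit 1397942780), (nat_lit 1328081467), (nat_lit 1310053282), (nat_lit 1258350229), (nat_lit 1547574952), (nat_lit 1783057428), (nat_lit 1861580452), (nat_lit 2107016697)], (nat_lit 780000), (nat_lit 1271251), (nat_lit 780000), (nat_lit 1435001), (nat_lit 0), (nat_lit 2825001), [(nat_lit 1977501), (nat_lit 1271251), (nat_lit 1271251)], [(nat_lit 31), (nat_lit 65), (nat_lit 428), (nat_lit 200), (nat_lit 10)]⟩⟩)) (.dle (nat_lit 0)))) (.spl (nat_lit 5) (nat_lit 200) (.leaf ⟨(nat_lit 0), (nat_lit 1000), (nat_lit 0), (nat_lit 0), (nat_lit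 17553), (nat_lit 6301), (nat_lit 8886), (nat_lit 0), (nat_lit 0), (nat_lit 0), (nat_lit 0), [], Pd.none, Pd.none, (nat_lit 0), (nat_lit 1), (nat_lit 0), (nat_lit 0), (nat_lit 3), (nat_lit 0), [], [], [], [],
 ⟨⟨[(nat_lit 60), (nat_lit 80), (nat_lit 100)], [(nat_lit 0), (nat_lit 304), (nat_lit 825)], [((nat_lit 0), (nat_lit 0), (nat_lit 0)), ((nat_lit 1000), (nat_lit 905), (nat_lit 238)), ((nat_lit 1000), (nat_lit 871), (nat_lit 407))], ((nat_lit 87), (nat_lit 100), (nat_lit 44))⟩, (nat_lit 3918098), (nat_lit 241), (nat_lit 241), (nat_lit 0), (nat_lit 221834), [(nat_lit 3282000001), (nat_lit 4688000002), (nat_lit 6250000000)], [], [(nat_lit 22817678016), (nat_lit 24856746460), (nat_lit 36789187974), (nat_lit 37927358546), (nat_lit 20175980513), (nat_lit 21083071057), (nat_lit 30555061673), (nat_lit 31482416928)], (nat_lit 1271251), (nat_lit 1271251), (nat_lit 1271251), (nat_lit 1271251), (nat_lit 0), (nat_lit 1412501), [(nat_lit 780000), (nat_lit 1100000),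 (nat_lit 1442501)], [(nat_lit 9), (nat_lit 50), (nat_lit 260), (nat_lit 50), (nat_lit 9)]⟩,
 ⟨⟨[(nat_lit 120), (nat_lit 140), (nat_lit 160)], [(nat_lit 0), (nat_lit 266), (nat_lit 862)], [((nat_lit 0), (nat_lit 0), (nat_lit 0)), ((nat_lit 960), (nat_lit 1000), (nat_lit 200)), ((nat_lit 874), (nat_lit 1000), (nat_lit 406))], ((nat_lit 100), (nat_lit 86), (nat_lit 44))⟩, (nat_lit 4904681), (nat_lit 493), (nat_lit 493), (nat_lit 0), (nat_lit 456333), [(nat_lit 7968000000), (nat_lit 9842000000), (nat_lit 11872000000)], [], [(nat_lit 40255833454), (nat_lit 40152909742), (nat_lit 43991050550), (nat_lit 43468111716), (nat_lit 39366276772), (nat_lit 33852178694), (nat_lit 36832794525), (nat_lit 36179744733)], (nat_lit 1271251), (nat_lit 1271251), (nat_lit 1271251), (nat_lit 1271251), (nat_lit 0), (nat_lit 1412501), [(nat_lit 1695001), (nat_lit 1271251), (nat_lit 1271251)], [(nat_lit 27), (nat_lit 62), (nat_lit 456), (nat_lit 225), (nat_lit 12)]⟩,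
 Rw.none⟩) (.leaf ⟨(nat_lit 0), (nat_lit 761), (nat_lit 0), (nat_lit 239), (nat_lit 1998), (nat_lit 6301), (nat_lit 10243), (nat_lit 2515), (nat_lit 0), (nat_lit 0), (nat_lit 0), [], Pd.none, Pd.none, (nat_lit 0), (nat_lit 1), (nat_lit 0), (nat_lit 0), (nat_lit 5), (nat_lit 0), [], [], [], [⟨(nat_lit 1), (nat_lit 95), (nat_lit 90), (nat_lit 100), (nat_lit 237320195)⟩],
 ⟨⟨[(nat_lit 60), (nat_lit 80), (nat_lit 100)], [(nat_lit 0), (nat_lit 304), (nat_lit 825)], [((nat_lit 0), (nat_lit 0), (nat_lit 0)), ((nat_lit 1000), (nat_lit 905), (nat_lit 238)), ((nat_lit 1000), (nat_lit 871), (nat_lit 407))], ((nat_lit 87), (nat_lit 100), (nat_lit 44))⟩, (nat_lit 3918098), (nat_lit 241), (nat_lit 241), (nat_lit 0), (nat_lit 221834), [(nat_lit 3282000008), (nat_lit 4688000014), (nat_lit 6250000000)], [], [(nat_lit 22817678016), (nat_lit 24856746460), (nat_lit 36789187974), (nat_lit 37927358546), (nat_lit 20175980532), (nat_lit 21083071090), (nat_lit 30555061673), (nat_lit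 31482416928)], (nat_lit 1271251), (nat_lit 1271251), (nat_lit 1271251), (nat_lit 1271251), (nat_lit 0), (nat_lit 1412501), [(nat_lit 780000), (nat_lit 1100000), (nat_lit 1442501)], [(nat_lit 9), (nat_lit 50), (nat_lit 260), (nat_lit 50), (nat_lit 9)]⟩,
 ⟨⟨[(nat_lit 120), (nat_lit 140), (nat_lit 160)], [(nat_lit 0), (nat_lit 266), (nat_lit 862)], [((nat_lit 0), (nat_lit 0), (nat_lit 0)), ((nat_lit 960), (nat_lit 1000), (nat_lit 200)), ((nat_lit 874), (nat_lit 1000), (nat_lit 406))], ((nat_lit 100), (nat_lit 86), (nat_lit 44))⟩, (nat_lit 5841133), (nat_lit 351), (nat_lit 351), (nat_lit 0), (nat_lit 456333), [(nat_lit 7968000000), (nat_lit 9842000000), (nat_lit 11872000000)], [], [(nat_lit 25873139381), (nat_lit 26104515690), (nat_lit 32104567151), (nat_lit 32239278858), (nat_lit 33034144986), (nat_lit 33179310952), (nat_lit 42628170539), (nat_lit 42165720920)], (nat_lit 1271251), (nat_lit 1271251), (nat_lit 1271251), (nat_lit 1271251), (nat_lit 1271251),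 (nat_lit 1271251), [(nat_lit 1695001), (nat_lit 1271251), (nat_lit 1271251)], [(nat_lit 27), (nat_lit 62), (nat_lit 538), (nat_lit 300), (nat_lit 13)]⟩,
 ⟨⟨[(nat_lit 140), (nat_lit 160), (nat_lit 180)], [(nat_lit 0), (nat_lit 0), (nat_lit 799)], [((nat_lit 0), (nat_lit 0), (nat_lit 0)), ((nat_lit 0), (nat_lit 0), (nat_lit 0)), ((nat_lit 728), (nat_lit 1000), (nat_lit 454))], ((nat_lit 100), (nat_lit 71), (nat_lit 48))⟩, (nat_lit 209985), (nat_lit 300), (nat_lit 1157), (nat_lit 17733800), (nat_lit 1656728), [(nat_lit 2352238000), (nat_lit 2837408000), (nat_lit 3359862000)], [], [(nat_lit 15858221554), (nat_lit 15337483483), (nat_lit 13566055142), (nat_lit 14042470389), (nat_lit 15071190380), (nat_lit 14531424774), (nat_lit 12673174696), (nat_lit 12140157346)], (nat_lit 780000), (nat_lit 1271251), (nat_lit 0), (nat_lit 1412501), (nat_lit 1271251), (nat_lit 1271251), [(nat_lit 1977501), (nat_lit 1271251), (nat_lit 1271251)], [(nat_lit 31), (nat_lit 65),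 (nat_lit 428), (nat_lit 200), (nat_lit 10)]⟩⟩))) (.ord (.trZ (nat_lit 0) (nat_lit 2) (nat_lit 4) (nat_lit 100) (nat_lit 87) (nat_lit 41) (nat_lit 10) (.spl (nat_lit 5) (nat_lit 120) (.leaf ⟨(nat_lit 0), (nat_lit 967), (nat_lit 0), (nat_lit 33), (nat_lit 2399), (nat_lit 5694), (nat_lit 8987), (nat_lit 351), (nat_lit 0), (nat_lit 14632123096861), (nat_lit 0), [], Pd.none, Pd.none, (nat_lit 0), (nat_lit 1), (nat_lit 0), (nat_lit 0), (nat_lit 4), (nat_lit 0), [], [], [], [],
 ⟨⟨[(nat_lit 60), (nat_lit 80), (nat_lit 100)], [(nat_lit 0), (nat_lit 304), (nat_lit 825)], [((nat_lit 0), (nat_lit 0), (nat_lit 0)), ((nat_lit 1000), (nat_lit 905), (nat_lit 238)), ((nat_lit 1000), (nat_lit 871), (nat_lit 407))], ((nat_lit 87), (nat_lit 100), (nat_lit 44))⟩, (nat_lit 3471562), (nat_lit 243), (nat_lit 243), (nat_lit 0), (nat_lit 248859), [(nat_lit 3282000005), (nat_lit 4688000010), (nat_lit 6250000000)], [], [(nat_lit 23307344187), (nat_lit 24427757644), (nat_lit 34580519893),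 (nat_lit 35666392478), (nat_lit 22365332858), (nat_lit 23234274113), (nat_lit 29914219185), (nat_lit 30806369312)], (nat_lit 1271251), (nat_lit 1271251), (nat_lit 1271251), (nat_lit 1271251), (nat_lit 54688), (nat_lit 1414376), [(nat_lit 780000), (nat_lit 1100000), (nat_lit 1442501)], [(nat_lit 9), (nat_lit 50), (nat_lit 260), (nat_lit 50), (nat_lit 9)]⟩,
 ⟨⟨[(nat_lit 120), (nat_lit 140), (nat_lit 160)], [(nat_lit 0), (nat_lit 266), (nat_lit 862)], [((nat_lit 0), (nat_lit 0), (nat_lit 0)), ((nat_lit 960), (nat_lit 1000), (nat_lit 200)), ((nat_lit 874), (nat_lit 1000), (nat_lit 406))], ((nat_lit 100), (nat_lit 86), (nat_lit 44))⟩, (nat_lit 9694578), (nat_lit 433), (nat_lit 433), (nat_lit 0), (nat_lit 350259), [(nat_lit 7968000000), (nat_lit 9842000000), (nat_lit 11872000000)], [], [(nat_lit 33244312012), (nat_lit 33963349576), (nat_lit 39872335011), (nat_lit 39853579130), (nat_lit 30998649039), (nat_lit 28524758754), (nat_lit 33846420514), (nat_lit 33894280421)],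 (nat_lit 1271251), (nat_lit 1271251), (nat_lit 1271251), (nat_lit 1271251), (nat_lit 0), (nat_lit 780000), [(nat_lit 1695001), (nat_lit 1271251), (nat_lit 1271251)], [(nat_lit 27), (nat_lit 62), (nat_lit 428), (nat_lit 200), (nat_lit 11)]⟩,
 ⟨⟨[(nat_lit 120), (nat_lit 140), (nat_lit 160)], [(nat_lit 0), (nat_lit 266), (nat_lit 862)], [((nat_lit 0), (nat_lit 0), (nat_lit 0)), ((nat_lit 960), (nat_lit 1000), (nat_lit 200)), ((nat_lit 874), (nat_lit 1000), (nat_lit 406))], ((nat_lit 100), (nat_lit 86), (nat_lit 44))⟩, (nat_lit 67737), (nat_lit 300), (nat_lit 569), (nat_lit 2191200), (nat_lit 350259), [(nat_lit 262944000), (nat_lit 324786000), (nat_lit 391776000)], [], [(nat_lit 2196368961), (nat_lit 1789607279), (nat_lit 1508501511), (nat_lit 1492860606), (nat_lit 1539013279), (nat_lit 1527164344), (nat_lit 1523189111), (nat_lit 1254124679)], (nat_lit 1271251), (nat_lit 1271251), (nat_lit 54688), (nat_lit 1414376), (nat_lit 0), (nat_lit 780000), [(nat_lit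 1695001), (nat_lit 1271251), (nat_lit 1271251)], [(nat_lit 27), (nat_lit 62), (nat_lit 373), (nat_lit 150), (nat_lit 10)]⟩⟩) (.leaf ⟨(nat_lit 0), (nat_lit 235), (nat_lit 0), (nat_lit 765), (nat_lit 5889), (nat_lit 5772), (nat_lit 9247), (nat_lit 8413), (nat_lit 0), (nat_lit 28510638), (nat_lit 0), [], Pd.none, Pd.none, (nat_lit 0), (nat_lit 1), (nat_lit 0), (nat_lit 0), (nat_lit 4), (nat_lit 0), [], [⟨(nat_lit 0), (nat_lit 100), (nat_lit 84), (nat_lit 59), (nat_lit 50709402)⟩], [], [],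
 ⟨⟨[(nat_lit 60), (nat_lit 80), (nat_lit 100)], [(nat_lit 0), (nat_lit 304), (nat_lit 825)], [((nat_lit 0), (nat_lit 0), (nat_lit 0)), ((nat_lit 1000), (nat_lit 905), (nat_lit 238)), ((nat_lit 1000), (nat_lit 871), (nat_lit 407))], ((nat_lit 87), (nat_lit 100), (nat_lit 44))⟩, (nat_lit 4157103), (nat_lit 243), (nat_lit 243), (nat_lit 0), (nat_lit 248859), [(nat_lit 3282000021), (nat_lit 4688000049), (nat_lit 6250000000)], [], [(nat_lit 22378820140), (nat_lit 23507012552), (nat_lit 34774562437), (nat_lit 35866780777), (nat_lit 21878227240), (nat_lit 22766881968), (nat_lit 29996567972), (nat_lit 30893241987)], (nat_lit 1271251), (nat_lit 1271251), (nat_lit 1271251), (nat_lit 1271251), (nat_lit 54688), (nat_lit 1414376), [(nat_lit 780000), (nat_lit 1100000), (nat_lit 1442501)], [(nat_lit 9), (nat_lit 50), (nat_lit 260), (nat_lit 50), (nat_lit 9)]⟩,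
 ⟨⟨[(nat_lit 120), (nat_lit 140), (nat_lit 160)], [(nat_lit 0), (nat_lit 266), (nat_lit 862)], [((nat_lit 0), (nat_lit 0), (nat_lit 0)), ((nat_lit 960), (nat_lit 1000), (nat_lit 200)), ((nat_lit 874), (nat_lit 1000), (nat_lit 406))], ((nat_lit 100), (nat_lit 86), (nat_lit 44))⟩, (nat_lit 9040647), (nat_lit 412), (nat_lit 412), (nat_lit 0), (nat_lit 524301), [(nat_lit 7968000000), (nat_lit 9842000000), (nat_lit 11872000000)], [], [(nat_lit 27573613839), (nat_lit 28129765046), (nat_lit 33450100614), (nat_lit 33271593494), (nat_lit 38399431078), (nat_lit 32405863522), (nat_lit 41051174481), (nat_lit 40757987966)], (nat_lit 1271251), (nat_lit 1271251), (nat_lit 1271251), (nat_lit 1271251), (nat_lit 780000), (nat_lit 3072501), [(nat_lit 1695001), (nat_lit 1271251), (nat_lit 1271251)], [(nat_lit 27), (nat_lit 62), (nat_lit 538), (nat_lit 300), (nat_lit 13)]⟩,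
 ⟨⟨[(nat_lit 120), (nat_lit 140), (nat_lit 160)], [(nat_lit 0), (nat_lit 266), (nat_lit 862)], [((nat_lit 0), (nat_lit 0), (nat_lit 0)), ((nat_lit 960), (nat_lit 1000), (nat_lit 200)), ((nat_lit 874), (nat_lit 1000), (nat_lit 406))], ((nat_lit 100), (nat_lit 86), (nat_lit 44))⟩, (nat_lit 1570263), (nat_lit 300), (nat_lit 547), (nat_lit 50796001), (nat_lit 524301), [(nat_lit 6095520000), (nat_lit 7529130000), (nat_lit 9082080000)], [], [(nat_lit 34990854218), (nat_lit 34787096785), (nat_lit 35432817628), (nat_lit 28160869750), (nat_lit 51530082436), (nat_lit 39755558917), (nat_lit 65087308372), (nat_lit 54015817198)], (nat_lit 1271251), (nat_lit 1271251), (nat_lit 54688), (nat_lit 1414376), (nat_lit 780000), (nat_lit 3072501), [(nat_lit 1695001), (nat_lit 1271251), (nat_lit 1271251)], [(nat_lit 27), (nat_lit 62), (nat_lit 456), (nat_lit 225), (nat_lit 12)]⟩⟩)))))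
noncomputable def c3_8 : Tr Lf :=
 (.spl (nat_lit 3) (nat_lit 80) (.trX (nat_lit 5) (nat_lit 4) (nat_lit 3) (nat_lit 100) (nat_lit 60) (nat_lit 80) (nat_lit 360) (.spl (nat_lit 1) (nat_lit 180) (.spl (nat_lit 6) (nat_lit 8) (.leaf ⟨(nat_lit 1000), (nat_lit 0), (nat_lit 0), (nat_lit 0), (nat_lit 7222), (nat_lit 3528), (nat_lit 0), (nat_lit 0), (nat_lit 0), (nat_lit 642377612259), (nat_lit 972400), [((nat_lit 320), [((nat_lit 35), (nat_lit 2), (nat_lit 69)), ((nat_lit 15), (nat_lit 2), (nat_lit 931))])], ⟨(nat_lit 3), false, false, false, (nat_lit 67), (nat_lit 4472), (nat_lit 5000), [(nat_lit 1057141), (nat_lit 1073842), (nat_lit 1121427), (nat_lit 1138541), (nat_lit 1199998), (nat_lit 1209798), (nat_lit 1264284), (nat_lit 1274498)]⟩, ⟨(nat_lit 5), false, false, true, (nat_lit 206), (nat_lit 4472), (nat_lit 5000), [(nat_lit 1414284), (nat_lit 1413733), (nat_lit 1478570), (nat_lit 1478432), (nat_lit 1557141), (nat_lit 1549689), (nat_lit 1621427), (nat_lit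 1614388)]⟩, (nat_lit 3462310), (nat_lit 50556254), (nat_lit 2461006), (nat_lit 13982740), (nat_lit 0), (nat_lit 0), [⟨(nat_lit 0), (nat_lit 100), (nat_lit 80), (nat_lit 52), (nat_lit 145164293)⟩], [], [], [],
 ⟨⟨[(nat_lit 60), (nat_lit 80)], [(nat_lit 0), (nat_lit 304)], [((nat_lit 0), (nat_lit 0), (nat_lit 0)), ((nat_lit 1000), (nat_lit 905), (nat_lit 238))], ((nat_lit 89), (nat_lit 100), (nat_lit 29))⟩, (nat_lit 668044), (nat_lit 145), (nat_lit 145), (nat_lit 0), (nat_lit 68187), [(nat_lit 1980711385), (nat_lit 1608317200)], [(nat_lit 0), (nat_lit 0)], [(nat_lit 18598480969), (nat_lit 19852136041), (nat_lit 17467305205), (nat_lit 18648154393), (nat_lit 22059525829), (nat_lit 23124436418), (nat_lit 20768607517), (nat_lit 21763804489)], (nat_lit 1271251), (nat_lit 1271251), (nat_lit 0), (nat_lit 490000), (nat_lit 1271251), (nat_lit 1271251), [(nat_lit 780000), (nat_lit 1100000)], [(nat_lit 8), (nat_lit 44), (nat_lit 226), (nat_lit 20), (nat_lit 10)]⟩,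
 Rw.none,
 Rw.none⟩) (.dle (nat_lit 0))) (.trZ (nat_lit 0) (nat_lit 1) (nat_lit 3) (nat_lit 100) (nat_lit 87) (nat_lit 41) (nat_lit 10) (.spl (nat_lit 1) (nat_lit 220) (.spl (nat_lit 6) (nat_lit 12) (.leaf ⟨(nat_lit 982), (nat_lit 0), (nat_lit 12), (nat_lit 6), (nat_lit 5851), (nat_lit 3663), (nat_lit 32), (nat_lit 355), (nat_lit 0), (nat_lit 0), (nat_lit 915600), [((nat_lit 320), [((nat_lit 35), (nat_lit 2), (nat_lit 166)), ((nat_lit 15), (nat_lit 2), (nat_lit 816))])], ⟨(nat_lit 4), false, false, false, (nat_lit 92), (nat_lit 4472), (nat_lit 5000), [(nat_lit 1139284), (nat_lit 1155536), (nat_lit 1182141), (nat_lit 1198669), (nat_lit 1264284), (nat_lit 1274498), (nat_lit 1307140), (nat_lit 1317629)]⟩, ⟨(nat_lit 5), false, false, true, (nat_lit 206), (nat_lit 4472), (nat_lit 5000), [(nat_lit 1414284), (nat_lit 1413733), (nat_lit 1478570), (nat_lit 1478432), (nat_lit 1557141), (nat_lit 1549689), (nat_lit 1621427), (nat_lit 1614388)]⟩, (nat_lit 3811093),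 (nat_lit 49176751), (nat_lit 3952680), (nat_lit 13870569), (nat_lit 0), (nat_lit 4), [⟨(nat_lit 0), (nat_lit 100), (nat_lit 80), (nat_lit 68), (nat_lit 207046315)⟩], [], [], [],
 ⟨⟨[(nat_lit 60), (nat_lit 80), (nat_lit 100)], [(nat_lit 0), (nat_lit 304), (nat_lit 825)], [((nat_lit 0), (nat_lit 0), (nat_lit 0)), ((nat_lit 1000), (nat_lit 905), (nat_lit 238)), ((nat_lit 1000), (nat_lit 871), (nat_lit 407))], ((nat_lit 88), (nat_lit 100), (nat_lit 35))⟩, (nat_lit 872650), (nat_lit 146), (nat_lit 146), (nat_lit 0), (nat_lit 94807), [(nat_lit 2000991154), (nat_lit 1702930465), (nat_lit 1123568335)], [(nat_lit 0), (nat_lit 0), (nat_lit 0)], [(nat_lit 18517919738), (nat_lit 19697149933), (nat_lit 17413612212), (nat_lit 18533245073), (nat_lit 21836582316), (nat_lit 23044727483), (nat_lit 20621333062), (nat_lit 21631447399)], (nat_lit 1271251), (nat_lit 1271251), (nat_lit 54688), (nat_lit 490000), (nat_lit 1271251), (nat_lit 1271251), [(nat_lit 780000), (nat_lit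 1100000), (nat_lit 1442501)], [(nat_lit 9), (nat_lit 50), (nat_lit 226), (nat_lit 20), (nat_lit 8)]⟩,
 ⟨⟨[(nat_lit 120), (nat_lit 140), (nat_lit 160)], [(nat_lit 0), (nat_lit 266), (nat_lit 862)], [((nat_lit 0), (nat_lit 0), (nat_lit 0)), ((nat_lit 960), (nat_lit 1000), (nat_lit 200)), ((nat_lit 874), (nat_lit 1000), (nat_lit 406))], ((nat_lit 100), (nat_lit 91), (nat_lit 34))⟩, (nat_lit 81866), (nat_lit 493), (nat_lit 493), (nat_lit 0), (nat_lit 173781), [(nat_lit 47808000), (nat_lit 59052000), (nat_lit 71232000)], [], [(nat_lit 307739740), (nat_lit 273236436), (nat_lit 247588656), (nat_lit 227682856), (nat_lit 285501898), (nat_lit 266513977), (nat_lit 298874272), (nat_lit 269311264)], (nat_lit 1271251), (nat_lit 1271251), (nat_lit 54688), (nat_lit 490000), (nat_lit 0), (nat_lit 2542501), [(nat_lit 1695001), (nat_lit 1271251), (nat_lit 1271251)], [(nat_lit 27), (nat_lit 62), (nat_lit 401), (nat_lit 175), (nat_lit 11)]⟩,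
 ⟨⟨[(nat_lit 140), (nat_lit 160), (nat_lit 180)], [(nat_lit 0), (nat_lit 0), (nat_lit 799)], [((nat_lit 0), (nat_lit 0), (nat_lit 0)), ((nat_lit 0), (nat_lit 0), (nat_lit 0)), ((nat_lit 728), (nat_lit 1000), (nat_lit 454))], ((nat_lit 100), (nat_lit 79), (nat_lit 37))⟩, (nat_lit 15815), (nat_lit 300), (nat_lit 915), (nat_lit 1335600), (nat_lit 1111695), [(nat_lit 177156000), (nat_lit 213696000), (nat_lit 253044000)], [], [(nat_lit 1006008969), (nat_lit 898377926), (nat_lit 973068622), (nat_lit 912469065), (nat_lit 1354682018), (nat_lit 1620347158), (nat_lit 738550849), (nat_lit 1008781469)], (nat_lit 780000), (nat_lit 1271251), (nat_lit 1271251), (nat_lit 1271251), (nat_lit 0), (nat_lit 2542501), [(nat_lit 1977501), (nat_lit 1271251), (nat_lit 1271251)], [(nat_lit 31), (nat_lit 65), (nat_lit 456), (nat_lit 225), (nat_lit 11)]⟩⟩) (.dle (nat_lit 0))) (.trZ (nat_lit 0) (nat_lit 1) (nat_lit 3) (nat_lit 100) (nat_lit 87) (nat_lit 59) (nat_lit 30) (.spl (nat_lit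 0) (nat_lit 310) (.spl (nat_lit 6) (nat_lit 12) (.leaf ⟨(nat_lit 969), (nat_lit 8), (nat_lit 0), (nat_lit 23), (nat_lit 7081), (nat_lit 3837), (nat_lit 358), (nat_lit 322), (nat_lit 0), (nat_lit 0), (nat_lit 969000), [((nat_lit 310), [((nat_lit 15), (nat_lit 2), (nat_lit 969))])], ⟨(nat_lit 5), false, false, false, (nat_lit 111), (nat_lit 4743), (nat_lit 5000), [(nat_lit 1217856), (nat_lit 1225263), (nat_lit 1239284), (nat_lit 1246751), (nat_lit 1307141), (nat_lit 1312387), (nat_lit 1328569), (nat_lit 1333875)]⟩, ⟨(nat_lit 5), false, false, true, (nat_lit 207), (nat_lit 4743), (nat_lit 5000), [(nat_lit 1414284), (nat_lit 1414046), (nat_lit 1478570), (nat_lit 1478510), (nat_lit 1557141), (nat_lit 1553445), (nat_lit 1621427), (nat_lit 1617909)]⟩, (nat_lit 4057868), (nat_lit 48014411), (nat_lit 5194040), (nat_lit 13791549), (nat_lit 5), (nat_lit 0), [⟨(nat_lit 0), (nat_lit 100), (nat_lit 85), (nat_lit 72), (nat_lit 234151141)⟩], [], [], [],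
 ⟨⟨[(nat_lit 60), (nat_lit 80), (nat_lit 100)], [(nat_lit 0), (nat_lit 304), (nat_lit 825)], [((nat_lit 0), (nat_lit 0), (nat_lit 0)), ((nat_lit 1000), (nat_lit 905), (nat_lit 238)), ((nat_lit 1000), (nat_lit 871), (nat_lit 407))], ((nat_lit 88), (nat_lit 100), (nat_lit 35))⟩, (nat_lit 581346), (nat_lit 131), (nat_lit 131), (nat_lit 0), (nat_lit 86957), [(nat_lit 2018130365), (nat_lit 1677123205), (nat_lit 1026656195)], [(nat_lit 0), (nat_lit 0), (nat_lit 0)], [(nat_lit 18137660767), (nat_lit 18730904152), (nat_lit 17272252637), (nat_lit 17843591957), (nat_lit 21390415506), (nat_lit 21971289456), (nat_lit 20443485843), (nat_lit 20958156425)], (nat_lit 1271251), (nat_lit 1271251), (nat_lit 169688), (nat_lit 490000), (nat_lit 1271251), (nat_lit 1271251), [(nat_lit 780000), (nat_lit 1100000), (nat_lit 1442501)], [(nat_lit 9), (nat_lit 50), (nat_lit 226), (nat_lit 20), (nat_lit 8)]⟩,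
 ⟨⟨[(nat_lit 100), (nat_lit 120), (nat_lit 140)], [(nat_lit 0), (nat_lit 254), (nat_lit 778)], [((nat_lit 0), (nat_lit 0), (nat_lit 0)), ((nat_lit 1000), (nat_lit 1000), (nat_lit 198)), ((nat_lit 960), (nat_lit 1000), (nat_lit 392))], ((nat_lit 100), (nat_lit 97), (nat_lit 34))⟩, (nat_lit 414054), (nat_lit 322), (nat_lit 322), (nat_lit 0), (nat_lit 129874), [(nat_lit 193750000), (nat_lit 247008000), (nat_lit 305102000)], [], [(nat_lit 850288885), (nat_lit 671575571), (nat_lit 896116798), (nat_lit 716427648), (nat_lit 1735828240), (nat_lit 1574186787), (nat_lit 1834030546), (nat_lit 1674989404)], (nat_lit 1271251), (nat_lit 1271251), (nat_lit 169688), (nat_lit 490000), (nat_lit 0), (nat_lit 2542501), [(nat_lit 1412501), (nat_lit 1271251), (nat_lit 1271251)], [(nat_lit 22), (nat_lit 58), (nat_lit 401), (nat_lit 175), (nat_lit 12)]⟩,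
 ⟨⟨[(nat_lit 140), (nat_lit 160), (nat_lit 180)], [(nat_lit 0), (nat_lit 0), (nat_lit 799)], [((nat_lit 0), (nat_lit 0), (nat_lit 0)), ((nat_lit 0), (nat_lit 0), (nat_lit 0)), ((nat_lit 728), (nat_lit 1000), (nat_lit 454))], ((nat_lit 100), (nat_lit 79), (nat_lit 37))⟩, (nat_lit 20208), (nat_lit 300), (nat_lit 855), (nat_lit 1706600), (nat_lit 1000515), [(nat_lit 226366000), (nat_lit 273056000), (nat_lit 323334000)], [], [(nat_lit 1283704750), (nat_lit 1226782315), (nat_lit 1267956788), (nat_lit 1206226916), (nat_lit 1575489052), (nat_lit 1829571501), (nat_lit 1010393864), (nat_lit 1274855581)], (nat_lit 780000), (nat_lit 1271251), (nat_lit 1271251), (nat_lit 1271251), (nat_lit 0), (nat_lit 2542501), [(nat_lit 1977501), (nat_lit 1271251), (nat_lit 1271251)], [(nat_lit 31), (nat_lit 65), (nat_lit 456), (nat_lit 225), (nat_lit 11)]⟩⟩) (.dle (nat_lit 0))) (.trZ (nat_lit 0) (nat_lit 1) (nat_lit 3) (nat_lit 100) (nat_lit 84) (nat_lit 63) (nat_lit 40) (.leaf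 ⟨(nat_lit 973), (nat_lit 4), (nat_lit 0), (nat_lit 23), (nat_lit 5332), (nat_lit 4102), (nat_lit 402), (nat_lit 332), (nat_lit 0), (nat_lit 0), (nat_lit 389200), [((nat_lit 320), [((nat_lit 15), (nat_lit 1), (nat_lit 973))])], ⟨(nat_lit 5), false, false, false, (nat_lit 117), (nat_lit 4472), (nat_lit 4744), [(nat_lit 1242687), (nat_lit 1249651), (nat_lit 1264172), (nat_lit 1271215), (nat_lit 1312386), (nat_lit 1317629), (nat_lit 1333872), (nat_lit 1339193)]⟩, ⟨(nat_lit 5), false, false, true, (nat_lit 206), (nat_lit 4472), (nat_lit 4744), [(nat_lit 1414046), (nat_lit 1413733), (nat_lit 1478510), (nat_lit 1478432), (nat_lit 1553445), (nat_lit 1549689), (nat_lit 1617910), (nat_lit 1614388)]⟩, (nat_lit 4125978), (nat_lit 47707206), (nat_lit 5617533), (nat_lit 13675261), (nat_lit 5), (nat_lit 0), [⟨(nat_lit 0), (nat_lit 100), (nat_lit 82), (nat_lit 76), (nat_lit 365379178)⟩], [], [], [],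
 ⟨⟨[(nat_lit 60), (nat_lit 80), (nat_lit 100)], [(nat_lit 0), (nat_lit 456), (nat_lit 976)], [((nat_lit 0), (nat_lit 0), (nat_lit 0)), ((nat_lit 1000), (nat_lit 859), (nat_lit 351)), ((nat_lit 1000), (nat_lit 848), (nat_lit 406))], ((nat_lit 84), (nat_lit 100), (nat_lit 44))⟩, (nat_lit 1887412), (nat_lit 137), (nat_lit 137), (nat_lit 0), (nat_lit 134249), [(nat_lit 2047950670), (nat_lit 2308745124), (nat_lit 2432337200)], [(nat_lit 0), (nat_lit 0), (nat_lit 0)], [(nat_lit 18278283454), (nat_lit 18885449808), (nat_lit 17474329647), (nat_lit 18063218194), (nat_lit 21945641940), (nat_lit 22645887838), (nat_lit 20601563006), (nat_lit 21163171600)], (nat_lit 1271251), (nat_lit 1271251), (nat_lit 230000), (nat_lit 490000), (nat_lit 1271251), (nat_lit 1271251), [(nat_lit 780000), (nat_lit 1100000), (nat_lit 1442501)], [(nat_lit 9), (nat_lit 50), (nat_lit 226), (nat_lit 20), (nat_lit 8)]⟩,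
 ⟨⟨[(nat_lit 100), (nat_lit 120), (nat_lit 140)], [(nat_lit 0), (nat_lit 254), (nat_lit 778)], [((nat_lit 0), (nat_lit 0), (nat_lit 0)), ((nat_lit 1000), (nat_lit 1000), (nat_lit 198)), ((nat_lit 960), (nat_lit 1000), (nat_lit 392))], ((nat_lit 100), (nat_lit 94), (nat_lit 44))⟩, (nat_lit 308636), (nat_lit 347), (nat_lit 347), (nat_lit 0), (nat_lit 209103), [(nat_lit 168750000), (nat_lit 215136000), (nat_lit 265734000)], [], [(nat_lit 647809383), (nat_lit 641231244), (nat_lit 687408090), (nat_lit 485634240), (nat_lit 1574519972), (nat_lit 1393595952), (nat_lit 1661167854), (nat_lit 1482579756)], (nat_lit 1271251), (nat_lit 1271251), (nat_lit 230000), (nat_lit 490000), (nat_lit 0), (nat_lit 2542501), [(nat_lit 1412501), (nat_lit 1271251), (nat_lit 1271251)], [(nat_lit 22), (nat_lit 58), (nat_lit 401), (nat_lit 175), (nat_lit 12)]⟩,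
 ⟨⟨[(nat_lit 140), (nat_lit 160), (nat_lit 180)], [(nat_lit 0), (nat_lit 0), (nat_lit 799)], [((nat_lit 0), (nat_lit 0), (nat_lit 0)), ((nat_lit 0), (nat_lit 0), (nat_lit 0)), ((nat_lit 728), (nat_lit 1000), (nat_lit 454))], ((nat_lit 100), (nat_lit 71), (nat_lit 48))⟩, (nat_lit 20208), (nat_lit 300), (nat_lit 1157), (nat_lit 1706600), (nat_lit 1656728), [(nat_lit 226366000), (nat_lit 273056000), (nat_lit 323334000)], [], [(nat_lit 1271157830), (nat_lit 1211749975), (nat_lit 1253839468), (nat_lit 1199786369), (nat_lit 1587303672), (nat_lit 1847873306), (nat_lit 1004658944), (nat_lit 1275930183)], (nat_lit 780000), (nat_lit 1271251), (nat_lit 1271251), (nat_lit 1271251), (nat_lit 0), (nat_lit 2542501), [(nat_lit 1977501), (nat_lit 1271251), (nat_lit 1271251)], [(nat_lit 31), (nat_lit 65), (nat_lit 456), (nat_lit 225), (nat_lit 11)]⟩⟩)))))))) (.leaf ⟨(nat_lit 990), (nat_lit 0), (nat_lit 0), (nat_lit 10), (nat_lit 3733), (nat_lit 4143), (nat_lit 146), (nat_lit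 207), (nat_lit 0), (nat_lit 3956), (nat_lit 937600), [((nat_lit 320), [((nat_lit 35), (nat_lit 2), (nat_lit 131)), ((nat_lit 15), (nat_lit 2), (nat_lit 859))])], ⟨(nat_lit 3), false, false, false, (nat_lit 122), (nat_lit 4472), (nat_lit 5000), [(nat_lit 1199998), (nat_lit 1209798), (nat_lit 1328559), (nat_lit 1339186), (nat_lit 1271427), (nat_lit 1277776), (nat_lit 1399984), (nat_lit 1407160)]⟩, ⟨(nat_lit 5), false, false, true, (nat_lit 206), (nat_lit 4472), (nat_lit 5000), [(nat_lit 1414284), (nat_lit 1413733), (nat_lit 1478570), (nat_lit 1478432), (nat_lit 1557141), (nat_lit 1549689), (nat_lit 1621427), (nat_lit 1614388)]⟩, (nat_lit 4192119), (nat_lit 47343076), (nat_lit 5985395), (nat_lit 13671529), (nat_lit 0), (nat_lit 0), [], [], [⟨(nat_lit 0), (nat_lit 100), (nat_lit 98), (nat_lit 10), (nat_lit 318797)⟩], [],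
 ⟨⟨[(nat_lit 60), (nat_lit 80), (nat_lit 100)], [(nat_lit 0), (nat_lit 304), (nat_lit 825)], [((nat_lit 0), (nat_lit 0), (nat_lit 0)), ((nat_lit 1000), (nat_lit 905), (nat_lit 238)), ((nat_lit 1000), (nat_lit 871), (nat_lit 407))], ((nat_lit 87), (nat_lit 100), (nat_lit 44))⟩, (nat_lit 213492), (nat_lit 110), (nat_lit 110), (nat_lit 0), (nat_lit 136866), [(nat_lit 1992016204), (nat_lit 1731883570), (nat_lit 977900030)], [(nat_lit 0), (nat_lit 0), (nat_lit 0)], [(nat_lit 16969912387), (nat_lit 18153119808), (nat_lit 17403492845), (nat_lit 18525036606), (nat_lit 20202408432), (nat_lit 21193858348), (nat_lit 20471231780), (nat_lit 21459086311)], (nat_lit 1271251), (nat_lit 1271251), (nat_lit 490000), (nat_lit 780000), (nat_lit 1271251), (nat_lit 1271251), [(nat_lit 780000), (nat_lit 1100000), (nat_lit 1442501)], [(nat_lit 9), (nat_lit 50), (nat_lit 238), (nat_lit 30), (nat_lit 8)]⟩,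
 ⟨⟨[(nat_lit 140), (nat_lit 160), (nat_lit 180)], [(nat_lit 0), (nat_lit 0), (nat_lit 799)], [((nat_lit 0), (nat_lit 0), (nat_lit 0)), ((nat_lit 0), (nat_lit 0), (nat_lit 0)), ((nat_lit 728), (nat_lit 1000), (nat_lit 454))], ((nat_lit 100), (nat_lit 71), (nat_lit 48))⟩, (nat_lit 51799), (nat_lit 628), (nat_lit 628), (nat_lit 0), (nat_lit 374191), [(nat_lit 98420000), (nat_lit 118720000), (nat_lit 140580000)], [], [(nat_lit 497054327), (nat_lit 470094359), (nat_lit 475367403), (nat_lit 505886624), (nat_lit 631600165), (nat_lit 851774349), (nat_lit 680752643), (nat_lit 905849910)], (nat_lit 780000), (nat_lit 1762501), (nat_lit 490000), (nat_lit 780000), (nat_lit 0), (nat_lit 2754376), [(nat_lit 1977501), (nat_lit 1271251), (nat_lit 1271251)], [(nat_lit 31), (nat_lit 65), (nat_lit 428), (nat_lit 200), (nat_lit 10)]⟩,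
 ⟨⟨[(nat_lit 140), (nat_lit 160), (nat_lit 180)], [(nat_lit 0), (nat_lit 0), (nat_lit 799)], [((nat_lit 0), (nat_lit 0), (nat_lit 0)), ((nat_lit 0), (nat_lit 0), (nat_lit 0)), ((nat_lit 728), (nat_lit 1000), (nat_lit 454))], ((nat_lit 100), (nat_lit 71), (nat_lit 48))⟩, (nat_lit 8786), (nat_lit 300), (nat_lit 1157), (nat_lit 742000), (nat_lit 1656728), [(nat_lit 98420000), (nat_lit 118720000), (nat_lit 140580000)], [], [(nat_lit 563667021), (nat_lit 496873758), (nat_lit 540105670), (nat_lit 504691219), (nat_lit 810121380), (nat_lit 966623131), (nat_lit 466070228), (nat_lit 613312387)], (nat_lit 780000), (nat_lit 1271251), (nat_lit 1271251), (nat_lit 1271251), (nat_lit 0), (nat_lit 2754376), [(nat_lit 1977501), (nat_lit 1271251), (nat_lit 1271251)], [(nat_lit 31), (nat_lit 65), (nat_lit 456), (nat_lit 225), (nat_lit 11)]⟩⟩))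
noncomputable def c3_9 : Tr Lf :=
 (.spl (nat_lit 6) (nat_lit 8) (.spl (nat_lit 2) (nat_lit 160) (.trX (nat_lit 4) (nat_lit 0) (nat_lit 2) (nat_lit 88) (nat_lit 68) (nat_lit 100) (nat_lit 350) (.leaf ⟨(nat_lit 951), (nat_lit 0), (nat_lit 49), (nat_lit 0), (nat_lit 7567), (nat_lit 3506), (nat_lit 0), (nat_lit 630), (nat_lit 0), (nat_lit 83408), (nat_lit 813800), [((nat_lit 320), [((nat_lit 35), (nat_lit 2), (nat_lit 343)), ((nat_lit 15), (nat_lit 2), (nat_lit 608))])], ⟨(nat_lit 3), false, false, false, (nat_lit 67), (nat_lit 4472), (nat_lit 5000), [(nat_lit 1057141), (nat_lit 1073842), (nat_lit 1121427), (nat_lit 1138541), (nat_lit 1199998), (nat_lit 1209798), (nat_lit 1264284), (nat_lit 1274498)]⟩, ⟨(nat_lit 7), false, false, true, (nat_lit 254), (nat_lit 4472), (nat_lit 5000), [(nat_lit 1557141), (nat_lit 1549689), (nat_lit 1599999), (nat_lit 1592822), (nat_lit 1682141), (nat_lit 1668651), (nat_lit 1724998), (nat_lit 1711784)]⟩, (nat_lit 3845751), (nat_lit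 45718381), (nat_lit 2372912), (nat_lit 18908707), (nat_lit 0), (nat_lit 3), [⟨(nat_lit 0), (nat_lit 100), (nat_lit 80), (nat_lit 52), (nat_lit 124144001)⟩], [⟨(nat_lit 1), (nat_lit 81), (nat_lit 88), (nat_lit 100), (nat_lit 188816336)⟩], [], [],
 ⟨⟨[(nat_lit 60), (nat_lit 80)], [(nat_lit 0), (nat_lit 304)], [((nat_lit 0), (nat_lit 0), (nat_lit 0)), ((nat_lit 1000), (nat_lit 905), (nat_lit 238))], ((nat_lit 89), (nat_lit 100), (nat_lit 29))⟩, (nat_lit 1275418), (nat_lit 147), (nat_lit 147), (nat_lit 0), (nat_lit 67934), [(nat_lit 2035830609), (nat_lit 1869841200)], [(nat_lit 0), (nat_lit 0)], [(nat_lit 23197448379), (nat_lit 24145415250), (nat_lit 22186444140), (nat_lit 23080535087), (nat_lit 26723499703), (nat_lit 27555910216), (nat_lit 25516021397), (nat_lit 26305714649)], (nat_lit 1271251), (nat_lit 1271251), (nat_lit 0), (nat_lit 490000), (nat_lit 1271251), (nat_lit 1271251), [(nat_lit 780000), (nat_lit 1100000)], [(nat_lit 8), (nat_lit 44), (nat_lit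 226), (nat_lit 20), (nat_lit 9)]⟩,
 Rw.none,
 ⟨⟨[(nat_lit 140), (nat_lit 160), (nat_lit 180)], [(nat_lit 0), (nat_lit 0), (nat_lit 799)], [((nat_lit 0), (nat_lit 0), (nat_lit 0)), ((nat_lit 0), (nat_lit 0), (nat_lit 0)), ((nat_lit 728), (nat_lit 1000), (nat_lit 454))], ((nat_lit 100), (nat_lit 84), (nat_lit 31))⟩, (nat_lit 43052), (nat_lit 300), (nat_lit 683), (nat_lit 3635800), (nat_lit 689926), [(nat_lit 482258000), (nat_lit 581728000), (nat_lit 688842000)], [], [(nat_lit 2780356236), (nat_lit 2688601104), (nat_lit 2830303417), (nat_lit 2734634147), (nat_lit 2068206637), (nat_lit 2175885068), (nat_lit 2124135234), (nat_lit 2031732908)], (nat_lit 780000), (nat_lit 1100000), (nat_lit 1271251), (nat_lit 1271251), (nat_lit 0), (nat_lit 2118750), [(nat_lit 1977501), (nat_lit 1271251), (nat_lit 1271251)], [(nat_lit 31), (nat_lit 65), (nat_lit 456), (nat_lit 225), (nat_lit 11)]⟩⟩)) (.ord (.trZ (nat_lit 0) (nat_lit 1) (nat_lit 3) (nat_lit 100) (nat_lit 88)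 (nat_lit 32) (nat_lit 10) (.leaf ⟨(nat_lit 0), (nat_lit 0), (nat_lit 1000), (nat_lit 0), (nat_lit 15237), (nat_lit 4551), (nat_lit 0), (nat_lit 12184), (nat_lit 0), (nat_lit 113345), (nat_lit 0), [], Pd.none, Pd.none, (nat_lit 0), (nat_lit 1), (nat_lit 0), (nat_lit 0), (nat_lit 0), (nat_lit 4), [], [⟨(nat_lit 1), (nat_lit 68), (nat_lit 84), (nat_lit 100), (nat_lit 13488371)⟩], [], [],
 ⟨⟨[(nat_lit 60), (nat_lit 80)], [(nat_lit 0), (nat_lit 304)], [((nat_lit 0), (nat_lit 0), (nat_lit 0)), ((nat_lit 1000), (nat_lit 905), (nat_lit 238))], ((nat_lit 89), (nat_lit 100), (nat_lit 29))⟩, (nat_lit 6149909), (nat_lit 136), (nat_lit 136), (nat_lit 0), (nat_lit 25586), [(nat_lit 3282000004), (nat_lit 4688000000)], [], [(nat_lit 25093764340), (nat_lit 26143597634), (nat_lit 23616088921), (nat_lit 24607520222), (nat_lit 30276489131), (nat_lit 31126406480), (nat_lit 28524752222), (nat_lit 29334281649)], (nat_lit 1271251), (nat_lit 1271251), (nat_lit 54688), (nat_lit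 490000), (nat_lit 1271251), (nat_lit 1271251), [(nat_lit 780000), (nat_lit 1100000)], [(nat_lit 8), (nat_lit 44), (nat_lit 226), (nat_lit 20), (nat_lit 9)]⟩,
 Rw.none,
 ⟨⟨[(nat_lit 120), (nat_lit 140), (nat_lit 160)], [(nat_lit 0), (nat_lit 0), (nat_lit 609)], [((nat_lit 0), (nat_lit 0), (nat_lit 0)), ((nat_lit 0), (nat_lit 0), (nat_lit 0)), ((nat_lit 840), (nat_lit 1000), (nat_lit 400))], ((nat_lit 100), (nat_lit 90), (nat_lit 29))⟩, (nat_lit 1024632), (nat_lit 300), (nat_lit 349), (nat_lit 70300000), (nat_lit 135834), [(nat_lit 7968000000), (nat_lit 9842000000), (nat_lit 11872000000)], [], [(nat_lit 42986694944), (nat_lit 43047974960), (nat_lit 48623282936), (nat_lit 48429085719), (nat_lit 33725090312), (nat_lit 36404317343), (nat_lit 36745724665), (nat_lit 36470863306)], (nat_lit 1100000), (nat_lit 1271251), (nat_lit 1271251), (nat_lit 1271251), (nat_lit 0), (nat_lit 2118750), [(nat_lit 1695001), (nat_lit 1271251), (nat_lit 1271251)], [(nat_lit 27),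 (nat_lit 62), (nat_lit 456), (nat_lit 225), (nat_lit 12)]⟩⟩)))) (.dle (nat_lit 0)))
noncomputable def c3_10 : Tr Lf :=
 (.trX (nat_lit 5) (nat_lit 4) (nat_lit 3) (nat_lit 94) (nat_lit 100) (nat_lit 62) (nat_lit 250) (.spl (nat_lit 0) (nat_lit 310) (.spl (nat_lit 6) (nat_lit 4) (.leaf ⟨(nat_lit 963), (nat_lit 0), (nat_lit 37), (nat_lit 0), (nat_lit 17361), (nat_lit 3506), (nat_lit 0), (nat_lit 482), (nat_lit 0), (nat_lit 0), (nat_lit 853400), [((nat_lit 310), [((nat_lit 35), (nat_lit 2), (nat_lit 274)), ((nat_lit 15), (nat_lit 2), (nat_lit 689))])], ⟨(nat_lit 4), false, false, false, (nat_lit 77), (nat_lit 4743), (nat_lit 5000), [(nat_lit 1139284), (nat_lit 1147436), (nat_lit 1182141), (nat_lit 1190413), (nat_lit 1192856), (nat_lit 1199711), (nat_lit 1235713), (nat_lit 1242688)]⟩, ⟨(nat_lit 7), false, false, true, (nat_lit 255), (nat_lit 4743), (nat_lit 5000), [(nat_lit 1557141), (nat_lit 1553445), (nat_lit 1599999), (nat_lit 1596422), (nat_lit 1682141),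 (nat_lit 1675420), (nat_lit 1724998), (nat_lit 1718396)]⟩, (nat_lit 3978544), (nat_lit 45191065), (nat_lit 2887222), (nat_lit 18921713), (nat_lit 0), (nat_lit 4), [⟨(nat_lit 0), (nat_lit 100), (nat_lit 84), (nat_lit 63), (nat_lit 872363061)⟩], [⟨(nat_lit 1), (nat_lit 79), (nat_lit 89), (nat_lit 100), (nat_lit 219700979)⟩], [], [],
 ⟨⟨[(nat_lit 60), (nat_lit 80)], [(nat_lit 0), (nat_lit 304)], [((nat_lit 0), (nat_lit 0), (nat_lit 0)), ((nat_lit 1000), (nat_lit 905), (nat_lit 238))], ((nat_lit 91), (nat_lit 100), (nat_lit 21))⟩, (nat_lit 3406356), (nat_lit 129), (nat_lit 129), (nat_lit 0), (nat_lit 39295), [(nat_lit 2022338284), (nat_lit 1805037600)], [(nat_lit 0), (nat_lit 0)], [(nat_lit 21948835165), (nat_lit 22500149243), (nat_lit 21467087002), (nat_lit 22007219295), (nat_lit 26179989728), (nat_lit 26709470379), (nat_lit 25320433081), (nat_lit 25765552385)], (nat_lit 1271251), (nat_lit 1271251), (nat_lit 54688), (nat_lit 230000), (nat_lit 1271251), (nat_lit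 1271251), [(nat_lit 780000), (nat_lit 1100000)], [(nat_lit 8), (nat_lit 44), (nat_lit 215), (nat_lit 10), (nat_lit 9)]⟩,
 Rw.none,
 ⟨⟨[(nat_lit 140), (nat_lit 160)], [(nat_lit 0), (nat_lit 0)], [((nat_lit 0), (nat_lit 0), (nat_lit 0)), ((nat_lit 0), (nat_lit 0), (nat_lit 0))], ((nat_lit 100), (nat_lit 89), (nat_lit 22))⟩, (nat_lit 313404), (nat_lit 300), (nat_lit 508), (nat_lit 2745400), (nat_lit 445119), [(nat_lit 364154000), (nat_lit 439264000)], [], [(nat_lit 1754489222), (nat_lit 1698160040), (nat_lit 1837160717), (nat_lit 1780687598), (nat_lit 1286942711), (nat_lit 1435030482), (nat_lit 1350558131), (nat_lit 1292895375)], (nat_lit 780000), (nat_lit 1100000), (nat_lit 1271251), (nat_lit 1271251), (nat_lit 0), (nat_lit 1765625), [(nat_lit 1977501), (nat_lit 1271251)], [(nat_lit 30), (nat_lit 62), (nat_lit 428), (nat_lit 200), (nat_lit 11)]⟩⟩) (.dle (nat_lit 0))) (.trZ (nat_lit 0) (nat_lit 1) (nat_lit 3) (nat_lit 100) (nat_lit 84) (nat_lit 47) (nat_lit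 20) (.spl (nat_lit 1) (nat_lit 200) (.leaf ⟨(nat_lit 965), (nat_lit 0), (nat_lit 35), (nat_lit 0), (nat_lit 7591), (nat_lit 3461), (nat_lit 0), (nat_lit 502), (nat_lit 0), (nat_lit 0), (nat_lit 859400), [((nat_lit 320), [((nat_lit 35), (nat_lit 2), (nat_lit 264)), ((nat_lit 15), (nat_lit 2), (nat_lit 701))])], ⟨(nat_lit 4), false, false, false, (nat_lit 79), (nat_lit 4472), (nat_lit 4744), [(nat_lit 1164861), (nat_lit 1172530), (nat_lit 1186350), (nat_lit 1194097), (nat_lit 1199711), (nat_lit 1206519), (nat_lit 1221199), (nat_lit 1228086)]⟩, ⟨(nat_lit 7), false, false, true, (nat_lit 253), (nat_lit 4472), (nat_lit 4744), [(nat_lit 1553445), (nat_lit 1549689), (nat_lit 1596422), (nat_lit 1592822), (nat_lit 1675420), (nat_lit 1668651), (nat_lit 1718396), (nat_lit 1711784)]⟩, (nat_lit 3994183), (nat_lit 45294485), (nat_lit 3014897), (nat_lit 18690618), (nat_lit 0), (nat_lit 4), [⟨(nat_lit 0), (nat_lit 100), (nat_lit 80), (nat_lit 60), (nat_lit 246710635)⟩],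 [⟨(nat_lit 1), (nat_lit 72), (nat_lit 85), (nat_lit 100), (nat_lit 247463852)⟩], [], [],
 ⟨⟨[(nat_lit 60), (nat_lit 80)], [(nat_lit 0), (nat_lit 456)], [((nat_lit 0), (nat_lit 0), (nat_lit 0)), ((nat_lit 1000), (nat_lit 859), (nat_lit 351))], ((nat_lit 86), (nat_lit 100), (nat_lit 35))⟩, (nat_lit 857663), (nat_lit 131), (nat_lit 131), (nat_lit 0), (nat_lit 62221), [(nat_lit 2020076766), (nat_lit 1794835200)], [(nat_lit 0), (nat_lit 0)], [(nat_lit 22366749238), (nat_lit 22911430480), (nat_lit 22046443465), (nat_lit 22583725902), (nat_lit 26304558508), (nat_lit 26829477715), (nat_lit 25784643071), (nat_lit 26227797443)], (nat_lit 1271251), (nat_lit 1271251), (nat_lit 111251), (nat_lit 230000), (nat_lit 1271251), (nat_lit 1271251), [(nat_lit 780000), (nat_lit 1100000)], [(nat_lit 8), (nat_lit 44), (nat_lit 215), (nat_lit 10), (nat_lit 8)]⟩,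
 Rw.none,
 ⟨⟨[(nat_lit 140), (nat_lit 160), (nat_lit 180)], [(nat_lit 0), (nat_lit 0), (nat_lit 799)], [((nat_lit 0), (nat_lit 0), (nat_lit 0)), ((nat_lit 0), (nat_lit 0), (nat_lit 0)), ((nat_lit 728), (nat_lit 1000), (nat_lit 454))], ((nat_lit 100), (nat_lit 79), (nat_lit 37))⟩, (nat_lit 46046), (nat_lit 300), (nat_lit 696), (nat_lit 2597000), (nat_lit 721133), [(nat_lit 344470000), (nat_lit 415520000), (nat_lit 492030000)], [], [(nat_lit 1912558676), (nat_lit 1836912368), (nat_lit 2021234006), (nat_lit 1946629379), (nat_lit 1361360667), (nat_lit 1317346758), (nat_lit 1432413459), (nat_lit 1359872572)], (nat_lit 780000), (nat_lit 1100000), (nat_lit 1271251), (nat_lit 1271251), (nat_lit 0), (nat_lit 1765625), [(nat_lit 1977501), (nat_lit 1271251), (nat_lit 1271251)], [(nat_lit 31), (nat_lit 65), (nat_lit 428), (nat_lit 200), (nat_lit 10)]⟩⟩) (.trZ (nat_lit 0) (nat_lit 1) (nat_lit 3) (nat_lit 100) (nat_lit 84) (nat_lit 55) (nat_lit 30) (.spl (nat_lit 0)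 (nat_lit 315) (.leaf ⟨(nat_lit 967), (nat_lit 0), (nat_lit 0), (nat_lit 33), (nat_lit 8620), (nat_lit 3502), (nat_lit 548), (nat_lit 423), (nat_lit 0), (nat_lit 0), (nat_lit 865400), [((nat_lit 315), [((nat_lit 35), (nat_lit 2), (nat_lit 254)), ((nat_lit 15), (nat_lit 2), (nat_lit 713))])], ⟨(nat_lit 5), false, false, false, (nat_lit 90), (nat_lit 4609), (nat_lit 4744), [(nat_lit 1203774), (nat_lit 1207435), (nat_lit 1225263), (nat_lit 1228960), (nat_lit 1221199), (nat_lit 1224644), (nat_lit 1242688), (nat_lit 1246169)]⟩, ⟨(nat_lit 7), false, false, true, (nat_lit 254), (nat_lit 4609), (nat_lit 4744), [(nat_lit 1553445), (nat_lit 1551576), (nat_lit 1596422), (nat_lit 1594626), (nat_lit 1675420), (nat_lit 1672044), (nat_lit 1718396), (nat_lit 1715093)]⟩, (nat_lit 4142993), (nat_lit 44702963), (nat_lit 3675588), (nat_lit 18621449), (nat_lit 0), (nat_lit 0), [⟨(nat_lit 0), (nat_lit 100), (nat_lit 83), (nat_lit 60), (nat_lit 538433020)⟩], [⟨(nat_lit 1), (nat_lit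 72), (nat_lit 85), (nat_lit 100), (nat_lit 225571314)⟩], [], [],
 ⟨⟨[(nat_lit 60), (nat_lit 80)], [(nat_lit 0), (nat_lit 456)], [((nat_lit 0), (nat_lit 0), (nat_lit 0)), ((nat_lit 1000), (nat_lit 859), (nat_lit 351))], ((nat_lit 86), (nat_lit 100), (nat_lit 35))⟩, (nat_lit 821375), (nat_lit 125), (nat_lit 125), (nat_lit 0), (nat_lit 66279), [(nat_lit 2017834849), (nat_lit 1784632800)], [(nat_lit 0), (nat_lit 0)], [(nat_lit 22166041529), (nat_lit 22437843408), (nat_lit 22002101066), (nat_lit 22272040552), (nat_lit 26072130160), (nat_lit 26334729085), (nat_lit 25758644512), (nat_lit 26019302947)], (nat_lit 1271251), (nat_lit 1271251), (nat_lit 169688), (nat_lit 230000), (nat_lit 1271251), (nat_lit 1271251), [(nat_lit 780000), (nat_lit 1100000)], [(nat_lit 8), (nat_lit 44), (nat_lit 215), (nat_lit 10), (nat_lit 8)]⟩,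
 ⟨⟨[(nat_lit 100), (nat_lit 120), (nat_lit 140)], [(nat_lit 0), (nat_lit 0), (nat_lit 533)], [((nat_lit 0), (nat_lit 0), (nat_lit 0)), ((nat_lit 0), (nat_lit 0), (nat_lit 0)), ((nat_lit 924), (nat_lit 1000), (nat_lit 383))], ((nat_lit 100), (nat_lit 94), (nat_lit 34))⟩, (nat_lit 569541), (nat_lit 314), (nat_lit 314), (nat_lit 0), (nat_lit 116098), [(nat_lit 206250000), (nat_lit 262944000), (nat_lit 324786000)], [], [(nat_lit 1010242087), (nat_lit 828601488), (nat_lit 1010825684), (nat_lit 744106733), (nat_lit 1764485005), (nat_lit 1507925799), (nat_lit 1776799484), (nat_lit 1521098266)], (nat_lit 1271251), (nat_lit 1271251), (nat_lit 169688), (nat_lit 230000), (nat_lit 0), (nat_lit 1765625), [(nat_lit 1412501), (nat_lit 1271251), (nat_lit 1271251)], [(nat_lit 22), (nat_lit 58), (nat_lit 373), (nat_lit 150), (nat_lit 11)]⟩,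
 ⟨⟨[(nat_lit 140), (nat_lit 160), (nat_lit 180)], [(nat_lit 0), (nat_lit 0), (nat_lit 799)], [((nat_lit 0), (nat_lit 0), (nat_lit 0)), ((nat_lit 0), (nat_lit 0), (nat_lit 0)), ((nat_lit 728), (nat_lit 1000), (nat_lit 454))], ((nat_lit 100), (nat_lit 79), (nat_lit 37))⟩, (nat_lit 38193), (nat_lit 300), (nat_lit 735), (nat_lit 2448600), (nat_lit 773597), [(nat_lit 324786000), (nat_lit 391776000), (nat_lit 463914000)], [], [(nat_lit 1874299896), (nat_lit 1812755520), (nat_lit 1907975937), (nat_lit 1841857568), (nat_lit 1404101871), (nat_lit 1343514618), (nat_lit 1420050715), (nat_lit 1361175304)], (nat_lit 780000), (nat_lit 1100000), (nat_lit 1271251), (nat_lit 1271251), (nat_lit 0), (nat_lit 1765625), [(nat_lit 1977501), (nat_lit 1271251), (nat_lit 1271251)], [(nat_lit 31), (nat_lit 65), (nat_lit 428), (nat_lit 200), (nat_lit 10)]⟩⟩) (.trX (nat_lit 4) (nat_lit 0) (nat_lit 2) (nat_lit 84) (nat_lit 74) (nat_lit 100) (nat_lit 340) (.leaf ⟨(nat_lit 969), (nat_lit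 0), (nat_lit 0), (nat_lit 31), (nat_lit 7088), (nat_lit 3543), (nat_lit 764), (nat_lit 404), (nat_lit 0), (nat_lit 0), (nat_lit 581400), [((nat_lit 320), [((nat_lit 35), (nat_lit 2), (nat_lit 969))])], ⟨(nat_lit 5), false, false, false, (nat_lit 91), (nat_lit 4472), (nat_lit 4610), [(nat_lit 1207435), (nat_lit 1211091), (nat_lit 1228959), (nat_lit 1232657), (nat_lit 1224644), (nat_lit 1228086), (nat_lit 1246169), (nat_lit 1249652)]⟩, ⟨(nat_lit 7), false, false, true, (nat_lit 249), (nat_lit 4472), (nat_lit 4610), [(nat_lit 1551576), (nat_lit 1549689), (nat_lit 1594626), (nat_lit 1592822), (nat_lit 1654834), (nat_lit 1651656), (nat_lit 1697884), (nat_lit 1694789)]⟩, (nat_lit 4134204), (nat_lit 45059137), (nat_lit 3779709), (nat_lit 18161154), (nat_lit 0), (nat_lit 0), [⟨(nat_lit 0), (nat_lit 100), (nat_lit 82), (nat_lit 58), (nat_lit 785268267)⟩], [⟨(nat_lit 1), (nat_lit 74), (nat_lit 84), (nat_lit 100), (nat_lit 225858932)⟩], [], [],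
 ⟨⟨[(nat_lit 60), (nat_lit 80)], [(nat_lit 0), (nat_lit 533)], [((nat_lit 0), (nat_lit 0), (nat_lit 0)), ((nat_lit 1000), (nat_lit 837), (nat_lit 397))], ((nat_lit 85), (nat_lit 100), (nat_lit 35))⟩, (nat_lit 1140710), (nat_lit 128), (nat_lit 128), (nat_lit 0), (nat_lit 91874), [(nat_lit 2022991949), (nat_lit 2063560400)], [(nat_lit 0), (nat_lit 0)], [(nat_lit 22426747062), (nat_lit 22686510415), (nat_lit 22258725747), (nat_lit 22515032208), (nat_lit 25705732318), (nat_lit 25978811977), (nat_lit 25388900991), (nat_lit 25660869560)], (nat_lit 1271251), (nat_lit 1271251), (nat_lit 169688), (nat_lit 230000), (nat_lit 1271251), (nat_lit 1271251), [(nat_lit 780000), (nat_lit 1100000)], [(nat_lit 8), (nat_lit 44), (nat_lit 215), (nat_lit 10), (nat_lit 8)]⟩,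
 ⟨⟨[(nat_lit 100), (nat_lit 120), (nat_lit 140)], [(nat_lit 0), (nat_lit 0), (nat_lit 533)], [((nat_lit 0), (nat_lit 0), (nat_lit 0)), ((nat_lit 0), (nat_lit 0), (nat_lit 0)), ((nat_lit 924), (nat_lit 1000), (nat_lit 383))], ((nat_lit 100), (nat_lit 94), (nat_lit 34))⟩, (nat_lit 388685), (nat_lit 336), (nat_lit 336), (nat_lit 0), (nat_lit 163593), [(nat_lit 193750000), (nat_lit 247008000), (nat_lit 305102000)], [], [(nat_lit 935117548), (nat_lit 1067765216), (nat_lit 812750214), (nat_lit 946879951), (nat_lit 1760540633), (nat_lit 1402855900), (nat_lit 1774088513), (nat_lit 1417599953)], (nat_lit 1271251), (nat_lit 1271251), (nat_lit 169688), (nat_lit 230000), (nat_lit 0), (nat_lit 1765625), [(nat_lit 1412501), (nat_lit 1271251), (nat_lit 1271251)], [(nat_lit 22), (nat_lit 58), (nat_lit 373), (nat_lit 150), (nat_lit 11)]⟩,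
 ⟨⟨[(nat_lit 140), (nat_lit 160), (nat_lit 180)], [(nat_lit 0), (nat_lit 0), (nat_lit 799)], [((nat_lit 0), (nat_lit 0), (nat_lit 0)), ((nat_lit 0), (nat_lit 0), (nat_lit 0)), ((nat_lit 728), (nat_lit 1000), (nat_lit 454))], ((nat_lit 100), (nat_lit 79), (nat_lit 37))⟩, (nat_lit 27241), (nat_lit 300), (nat_lit 875), (nat_lit 2300200), (nat_lit 1111695), [(nat_lit 305102000), (nat_lit 368032000), (nat_lit 435798000)], [], [(nat_lit 1751337196), (nat_lit 1692232912), (nat_lit 1774799455), (nat_lit 1711919232), (nat_lit 1300402388), (nat_lit 1242237863), (nat_lit 1312341499), (nat_lit 1256753152)], (nat_lit 780000), (nat_lit 1100000), (nat_lit 1271251), (nat_lit 1271251), (nat_lit 0), (nat_lit 1765625), [(nat_lit 1977501), (nat_lit 1271251), (nat_lit 1271251)], [(nat_lit 31), (nat_lit 65), (nat_lit 428), (nat_lit 200), (nat_lit 10)]⟩⟩))))))))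
noncomputable def c3_11 : Tr Lf :=
 (.spl (nat_lit 1) (nat_lit 200) (.leaf ⟨(nat_lit 963), (nat_lit 0), (nat_lit 37), (nat_lit 0), (nat_lit 7077), (nat_lit 3472), (nat_lit 0), (nat_lit 550), (nat_lit 0), (nat_lit 0), (nat_lit 852200), [((nat_lit 320), [((nat_lit 35), (nat_lit 2), (nat_lit 277)), ((nat_lit 15), (nat_lit 2), (nat_lit 686))])], ⟨(nat_lit 4), false, false, false, (nat_lit 98), (nat_lit 4472), (nat_lit 5000), [(nat_lit 1192856), (nat_lit 1206519), (nat_lit 1214284), (nat_lit 1228086), (nat_lit 1264284), (nat_lit 1274498), (nat_lit 1285713), (nat_lit 1296064)]⟩, ⟨(nat_lit 7), false, false, true, (nat_lit 254), (nat_lit 4472), (nat_lit 5000), [(nat_lit 1557141), (nat_lit 1549689), (nat_lit 1599999), (nat_lit 1592822), (nat_lit 1682141), (nat_lit 1668651), (nat_lit 1724998), (nat_lit 1711784)]⟩, (nat_lit 4246873), (nat_lit 44252125), (nat_lit 4170058), (nat_lit 18577817), (nat_lit 0), (nat_lit 4), [⟨(nat_lit 0), (nat_lit 100), (nat_lit 80), (nat_lit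 60), (nat_lit 2048252)⟩], [⟨(nat_lit 1), (nat_lit 81), (nat_lit 88), (nat_lit 100), (nat_lit 226154882)⟩], [], [],
 ⟨⟨[(nat_lit 60), (nat_lit 80), (nat_lit 100)], [(nat_lit 0), (nat_lit 304), (nat_lit 825)], [((nat_lit 0), (nat_lit 0), (nat_lit 0)), ((nat_lit 1000), (nat_lit 905), (nat_lit 238)), ((nat_lit 1000), (nat_lit 871), (nat_lit 407))], ((nat_lit 88), (nat_lit 100), (nat_lit 35))⟩, (nat_lit 802796), (nat_lit 142), (nat_lit 142), (nat_lit 0), (nat_lit 62949), [(nat_lit 2022341420), (nat_lit 1806235269), (nat_lit 1336531731)], [(nat_lit 0), (nat_lit 0), (nat_lit 0)], [(nat_lit 21740812525), (nat_lit 22692214681), (nat_lit 21104183743), (nat_lit 22039149425), (nat_lit 25339765446), (nat_lit 26227034824), (nat_lit 24604904281), (nat_lit 25470959880)], (nat_lit 1271251), (nat_lit 1271251), (nat_lit 230000), (nat_lit 490000), (nat_lit 1271251), (nat_lit 1271251), [(nat_lit 780000), (nat_lit 1100000), (nat_lit 1442501)], [(nat_lit 9), (nat_lit 50), (nat_lit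 226), (nat_lit 20), (nat_lit 7)]⟩,
 Rw.none,
 ⟨⟨[(nat_lit 140), (nat_lit 160), (nat_lit 180)], [(nat_lit 0), (nat_lit 0), (nat_lit 799)], [((nat_lit 0), (nat_lit 0), (nat_lit 0)), ((nat_lit 0), (nat_lit 0), (nat_lit 0)), ((nat_lit 728), (nat_lit 1000), (nat_lit 454))], ((nat_lit 100), (nat_lit 79), (nat_lit 37))⟩, (nat_lit 32514), (nat_lit 300), (nat_lit 696), (nat_lit 2745400), (nat_lit 721133), [(nat_lit 364154000), (nat_lit 439264000), (nat_lit 520146000)], [], [(nat_lit 2009166548), (nat_lit 1937268108), (nat_lit 2138064194), (nat_lit 2055383931), (nat_lit 1439828236), (nat_lit 1601772124), (nat_lit 1521358670), (nat_lit 1448530904)], (nat_lit 780000), (nat_lit 1100000), (nat_lit 1271251), (nat_lit 1271251), (nat_lit 0), (nat_lit 2118750), [(nat_lit 1977501), (nat_lit 1271251), (nat_lit 1271251)], [(nat_lit 31), (nat_lit 65), (nat_lit 456), (nat_lit 225), (nat_lit 11)]⟩⟩) (.spl (nat_lit 2) (nat_lit 140) (.trX (nat_lit 4) (nat_lit 0) (nat_lit 2) (nat_lit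 91) (nat_lit 77) (nat_lit 100) (nat_lit 340) (.spl (nat_lit 0) (nat_lit 310) (.spl (nat_lit 6) (nat_lit 4) (.leaf ⟨(nat_lit 925), (nat_lit 31), (nat_lit 0), (nat_lit 44), (nat_lit 7228), (nat_lit 3614), (nat_lit 1232), (nat_lit 582), (nat_lit 0), (nat_lit 0), (nat_lit 730200), [((nat_lit 310), [((nat_lit 35), (nat_lit 2), (nat_lit 487)), ((nat_lit 15), (nat_lit 2), (nat_lit 438))])], ⟨(nat_lit 5), false, false, false, (nat_lit 106), (nat_lit 4743), (nat_lit 5000), [(nat_lit 1214284), (nat_lit 1221199), (nat_lit 1235713), (nat_lit 1242688), (nat_lit 1285713), (nat_lit 1290899), (nat_lit 1307141), (nat_lit 1312387)]⟩, ⟨(nat_lit 7), false, false, true, (nat_lit 248), (nat_lit 4743), (nat_lit 5000), [(nat_lit 1557141), (nat_lit 1553445), (nat_lit 1578570), (nat_lit 1574934), (nat_lit 1664284), (nat_lit 1657995), (nat_lit 1685713), (nat_lit 1679483)]⟩, (nat_lit 4296949), (nat_lit 44504980), (nat_lit 4672578), (nat_lit 17822442), (nat_lit 7), (nat_lit 0), [⟨(nat_lit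 0), (nat_lit 100), (nat_lit 84), (nat_lit 63), (nat_lit 203179854)⟩], [⟨(nat_lit 1), (nat_lit 84), (nat_lit 91), (nat_lit 100), (nat_lit 208134267)⟩], [], [],
 ⟨⟨[(nat_lit 60), (nat_lit 80)], [(nat_lit 0), (nat_lit 304)], [((nat_lit 0), (nat_lit 0), (nat_lit 0)), ((nat_lit 1000), (nat_lit 905), (nat_lit 238))], ((nat_lit 91), (nat_lit 100), (nat_lit 21))⟩, (nat_lit 1777882), (nat_lit 107), (nat_lit 107), (nat_lit 0), (nat_lit 39020), [(nat_lit 2065067408), (nat_lit 2008055600)], [(nat_lit 0), (nat_lit 0)], [(nat_lit 21464578850), (nat_lit 21987684250), (nat_lit 20787924634), (nat_lit 21290536200), (nat_lit 24735647750), (nat_lit 25233567178), (nat_lit 23963397356), (nat_lit 24415714427)], (nat_lit 1271251), (nat_lit 1271251), (nat_lit 230000), (nat_lit 490000), (nat_lit 1271251), (nat_lit 1271251), [(nat_lit 780000), (nat_lit 1100000)], [(nat_lit 8), (nat_lit 44), (nat_lit 226), (nat_lit 20), (nat_lit 9)]⟩,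
 ⟨⟨[(nat_lit 100), (nat_lit 120)], [(nat_lit 0), (nat_lit 0)], [((nat_lit 0), (nat_lit 0), (nat_lit 0)), ((nat_lit 0), (nat_lit 0), (nat_lit 0))], ((nat_lit 100), (nat_lit 98), (nat_lit 20))⟩, (nat_lit 0), (nat_lit 274), (nat_lit 274), (nat_lit 0), (nat_lit 65905), [(nat_lit 468750000), (nat_lit 597600000)], [], [(nat_lit 2304747824), (nat_lit 1677140536), (nat_lit 2408813248), (nat_lit 1790441648), (nat_lit 4455671532), (nat_lit 3890259454), (nat_lit 4684127376), (nat_lit 4126170284)], (nat_lit 1271251), (nat_lit 1271251), (nat_lit 230000), (nat_lit 490000), (nat_lit 0), (nat_lit 2118750), [(nat_lit 1412501), (nat_lit 1271251)], [(nat_lit 21), (nat_lit 54), (nat_lit 373), (nat_lit 150), (nat_lit 13)]⟩,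
 ⟨⟨[(nat_lit 140), (nat_lit 160)], [(nat_lit 0), (nat_lit 0)], [((nat_lit 0), (nat_lit 0), (nat_lit 0)), ((nat_lit 0), (nat_lit 0), (nat_lit 0))], ((nat_lit 100), (nat_lit 89), (nat_lit 22))⟩, (nat_lit 0), (nat_lit 300), (nat_lit 507), (nat_lit 3264800), (nat_lit 445119), [(nat_lit 433048000), (nat_lit 522368000)], [], [(nat_lit 2072655772), (nat_lit 2038417456), (nat_lit 2152024672), (nat_lit 2113845382), (nat_lit 1654183926), (nat_lit 1790109071), (nat_lit 1612202110), (nat_lit 1575170581)], (nat_lit 780000), (nat_lit 936250), (nat_lit 1271251), (nat_lit 1271251), (nat_lit 0), (nat_lit 2118750), [(nat_lit 1977501), (nat_lit 1271251)], [(nat_lit 30), (nat_lit 62), (nat_lit 428), (nat_lit 200), (nat_lit 11)]⟩⟩) (.dle (nat_lit 0))) (.trX (nat_lit 4) (nat_lit 0) (nat_lit 2) (nat_lit 88) (nat_lit 81) (nat_lit 100) (nat_lit 330) (.leaf ⟨(nat_lit 957), (nat_lit 17), (nat_lit 0), (nat_lit 26), (nat_lit 5691), (nat_lit 3614), (nat_lit 714), (nat_lit 347), (nat_lit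 0), (nat_lit 0), (nat_lit 382800), [((nat_lit 320), [((nat_lit 15), (nat_lit 1), (nat_lit 957))])], ⟨(nat_lit 5), false, false, false, (nat_lit 108), (nat_lit 4472), (nat_lit 4744), [(nat_lit 1221199), (nat_lit 1228086), (nat_lit 1242687), (nat_lit 1249651), (nat_lit 1290899), (nat_lit 1296064), (nat_lit 1312386), (nat_lit 1317629)]⟩, ⟨(nat_lit 7), false, false, true, (nat_lit 242), (nat_lit 4472), (nat_lit 4744), [(nat_lit 1553445), (nat_lit 1549689), (nat_lit 1574934), (nat_lit 1571255), (nat_lit 1640570), (nat_lit 1634662), (nat_lit 1662058), (nat_lit 1656228)]⟩, (nat_lit 4292604), (nat_lit 44879333), (nat_lit 4858750), (nat_lit 17261917), (nat_lit 7), (nat_lit 0), [⟨(nat_lit 0), (nat_lit 100), (nat_lit 80), (nat_lit 68), (nat_lit 227054183)⟩], [⟨(nat_lit 1), (nat_lit 88), (nat_lit 87), (nat_lit 100), (nat_lit 209827082)⟩], [], [],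
 ⟨⟨[(nat_lit 60), (nat_lit 80)], [(nat_lit 0), (nat_lit 456)], [((nat_lit 0), (nat_lit 0), (nat_lit 0)), ((nat_lit 1000), (nat_lit 859), (nat_lit 351))], ((nat_lit 86), (nat_lit 100), (nat_lit 35))⟩, (nat_lit 1480404), (nat_lit 118), (nat_lit 118), (nat_lit 0), (nat_lit 91670), [(nat_lit 2064395635), (nat_lit 2288226800)], [(nat_lit 0), (nat_lit 0)], [(nat_lit 22126127352), (nat_lit 22642764523), (nat_lit 21435185908), (nat_lit 21937535851), (nat_lit 24603155080), (nat_lit 25081392368), (nat_lit 23846188358), (nat_lit 24301722279)], (nat_lit 1271251), (nat_lit 1271251), (nat_lit 230000), (nat_lit 490000), (nat_lit 1271251), (nat_lit 1271251), [(nat_lit 780000), (nat_lit 1100000)], [(nat_lit 8), (nat_lit 44), (nat_lit 226), (nat_lit 20), (nat_lit 9)]⟩,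
 ⟨⟨[(nat_lit 100), (nat_lit 120), (nat_lit 140)], [(nat_lit 0), (nat_lit 0), (nat_lit 533)], [((nat_lit 0), (nat_lit 0), (nat_lit 0)), ((nat_lit 0), (nat_lit 0), (nat_lit 0)), ((nat_lit 924), (nat_lit 1000), (nat_lit 383))], ((nat_lit 100), (nat_lit 94), (nat_lit 34))⟩, (nat_lit 735150), (nat_lit 324), (nat_lit 324), (nat_lit 0), (nat_lit 161424), [(nat_lit 268750000), (nat_lit 342624000), (nat_lit 423206000)], [], [(nat_lit 1317169906), (nat_lit 969636238), (nat_lit 1376996004), (nat_lit 1018621554), (nat_lit 2559779385), (nat_lit 2232097385), (nat_lit 2691695385), (nat_lit 2368333889)], (nat_lit 1271251), (nat_lit 1271251), (nat_lit 230000), (nat_lit 490000), (nat_lit 0), (nat_lit 2118750), [(nat_lit 1412501), (nat_lit 1271251), (nat_lit 1271251)], [(nat_lit 22), (nat_lit 58), (nat_lit 373), (nat_lit 150), (nat_lit 11)]⟩,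
 ⟨⟨[(nat_lit 140), (nat_lit 160), (nat_lit 180)], [(nat_lit 0), (nat_lit 0), (nat_lit 799)], [((nat_lit 0), (nat_lit 0), (nat_lit 0)), ((nat_lit 0), (nat_lit 0), (nat_lit 0)), ((nat_lit 728), (nat_lit 1000), (nat_lit 454))], ((nat_lit 100), (nat_lit 79), (nat_lit 37))⟩, (nat_lit 22845), (nat_lit 300), (nat_lit 875), (nat_lit 1929200), (nat_lit 1111695), [(nat_lit 255892000), (nat_lit 308672000), (nat_lit 365508000)], [], [(nat_lit 1457341900), (nat_lit 1431763102), (nat_lit 1470023586), (nat_lit 1443433730), (nat_lit 1068471478), (nat_lit 1055407108), (nat_lit 1091197652), (nat_lit 1066188577)], (nat_lit 780000), (nat_lit 936250), (nat_lit 1271251), (nat_lit 1271251), (nat_lit 0), (nat_lit 2118750), [(nat_lit 1977501), (nat_lit 1271251), (nat_lit 1271251)], [(nat_lit 31), (nat_lit 65), (nat_lit 428), (nat_lit 200), (nat_lit 10)]⟩⟩)))) (.spl (nat_lit 5) (nat_lit 120) (.leaf ⟨(nat_lit 673), (nat_lit 251), (nat_lit 0), (nat_lit 76), (nat_lit 15947), (nat_lit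 3771), (nat_lit 3732), (nat_lit 939), (nat_lit 0), (nat_lit 0), (nat_lit 488800), [((nat_lit 320), [((nat_lit 15), (nat_lit 1), (nat_lit 307)), ((nat_lit 15), (nat_lit 2), (nat_lit 366))])], ⟨(nat_lit 5), false, false, false, (nat_lit 107), (nat_lit 4472), (nat_lit 5000), [(nat_lit 1214284), (nat_lit 1228086), (nat_lit 1235713), (nat_lit 1249652), (nat_lit 1285713), (nat_lit 1296064), (nat_lit 1307140), (nat_lit 1317629)]⟩, ⟨(nat_lit 7), false, false, true, (nat_lit 259), (nat_lit 4472), (nat_lit 5000), [(nat_lit 1578570), (nat_lit 1571255), (nat_lit 1599999), (nat_lit 1592822), (nat_lit 1703570), (nat_lit 1690217), (nat_lit 1724998), (nat_lit 1711784)]⟩, (nat_lit 4373916), (nat_lit 43416375), (nat_lit 4692602), (nat_lit 18891023), (nat_lit 7), (nat_lit 0), [⟨(nat_lit 0), (nat_lit 100), (nat_lit 80), (nat_lit 68), (nat_lit 591358985)⟩], [⟨(nat_lit 1), (nat_lit 77), (nat_lit 86), (nat_lit 100), (nat_lit 254617028)⟩], [], [],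
 ⟨⟨[(nat_lit 60), (nat_lit 80), (nat_lit 100)], [(nat_lit 0), (nat_lit 304), (nat_lit 825)], [((nat_lit 0), (nat_lit 0), (nat_lit 0)), ((nat_lit 1000), (nat_lit 905), (nat_lit 238)), ((nat_lit 1000), (nat_lit 871), (nat_lit 407))], ((nat_lit 88), (nat_lit 100), (nat_lit 35))⟩, (nat_lit 2514042), (nat_lit 144), (nat_lit 144), (nat_lit 0), (nat_lit 68155), [(nat_lit 2363011802), (nat_lit 2780986803), (nat_lit 3071128597)], [(nat_lit 0), (nat_lit 0), (nat_lit 0)], [(nat_lit 22136056404), (nat_lit 23187403605), (nat_lit 21402453068), (nat_lit 22424501297), (nat_lit 25899443437), (nat_lit 26764554350), (nat_lit 25061886966), (nat_lit 25905941214)], (nat_lit 1271251), (nat_lit 1271251), (nat_lit 230000), (nat_lit 490000), (nat_lit 1271251), (nat_lit 1271251), [(nat_lit 780000), (nat_lit 1100000), (nat_lit 1442501)], [(nat_lit 9), (nat_lit 50), (nat_lit 226), (nat_lit 20), (nat_lit 7)]⟩,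
 ⟨⟨[(nat_lit 100), (nat_lit 120), (nat_lit 140)], [(nat_lit 0), (nat_lit 0), (nat_lit 533)], [((nat_lit 0), (nat_lit 0), (nat_lit 0)), ((nat_lit 0), (nat_lit 0), (nat_lit 0)), ((nat_lit 924), (nat_lit 1000), (nat_lit 383))], ((nat_lit 100), (nat_lit 94), (nat_lit 34))⟩, (nat_lit 4752598), (nat_lit 281), (nat_lit 281), (nat_lit 0), (nat_lit 69016), [(nat_lit 2043750000), (nat_lit 2605536000), (nat_lit 3218334000)], [], [(nat_lit 6512691031), (nat_lit 7014223077), (nat_lit 5843072220), (nat_lit 5747373678), (nat_lit 6389182512), (nat_lit 4683929732), (nat_lit 6691957440), (nat_lit 4762384686)], (nat_lit 1271251), (nat_lit 1271251), (nat_lit 230000), (nat_lit 490000), (nat_lit 0), (nat_lit 780000), [(nat_lit 1412501), (nat_lit 1271251), (nat_lit 1271251)], [(nat_lit 22), (nat_lit 58), (nat_lit 345), (nat_lit 125), (nat_lit 10)]⟩,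
 ⟨⟨[(nat_lit 140), (nat_lit 160), (nat_lit 180)], [(nat_lit 0), (nat_lit 304), (nat_lit 1085)], [((nat_lit 0), (nat_lit 0), (nat_lit 0)), ((nat_lit 913), (nat_lit 1000), (nat_lit 217)), ((nat_lit 759), (nat_lit 1000), (nat_lit 463))], ((nat_lit 100), (nat_lit 83), (nat_lit 36))⟩, (nat_lit 156000), (nat_lit 300), (nat_lit 547), (nat_lit 5342800), (nat_lit 393183), [(nat_lit 747992000), (nat_lit 902272000), (nat_lit 1068408000)], [], [(nat_lit 4138730514), (nat_lit 4071280272), (nat_lit 4212025637), (nat_lit 4139669794), (nat_lit 3403955037), (nat_lit 3340125695), (nat_lit 3462855270), (nat_lit 3394076679)], (nat_lit 936250), (nat_lit 1100000), (nat_lit 1271251), (nat_lit 1271251), (nat_lit 0), (nat_lit 780000), [(nat_lit 1977501), (nat_lit 1271251), (nat_lit 1271251)], [(nat_lit 31), (nat_lit 65), (nat_lit 401), (nat_lit 175), (nat_lit 9)]⟩⟩) (.leaf ⟨(nat_lit 0), (nat_lit 0), (nat_lit 0), (nat_lit 1000), (nat_lit 9355), (nat_lit 4974), (nat_lit 11233),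 (nat_lit 12633), (nat_lit 0), (nat_lit 0), (nat_lit 0), [], Pd.none, Pd.none, (nat_lit 0), (nat_lit 1), (nat_lit 0), (nat_lit 0), (nat_lit 0), (nat_lit 0), [⟨(nat_lit 0), (nat_lit 100), (nat_lit 84), (nat_lit 59), (nat_lit 2751753964)⟩], [], [], [],
 ⟨⟨[(nat_lit 60), (nat_lit 80), (nat_lit 100)], [(nat_lit 0), (nat_lit 304), (nat_lit 825)], [((nat_lit 0), (nat_lit 0), (nat_lit 0)), ((nat_lit 1000), (nat_lit 905), (nat_lit 238)), ((nat_lit 1000), (nat_lit 871), (nat_lit 407))], ((nat_lit 88), (nat_lit 100), (nat_lit 35))⟩, (nat_lit 6090314), (nat_lit 144), (nat_lit 144), (nat_lit 0), (nat_lit 68155), [(nat_lit 3282000004), (nat_lit 4688000008), (nat_lit 6250000000)], [], [(nat_lit 22529308706), (nat_lit 23732512588), (nat_lit 21359337270), (nat_lit 22514315796), (nat_lit 27714527959), (nat_lit 28925266472), (nat_lit 25703791057), (nat_lit 26895782880)], (nat_lit 1271251), (nat_lit 1271251), (nat_lit 230000), (nat_lit 490000), (nat_lit 1271251), (nat_lit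 1271251), [(nat_lit 780000), (nat_lit 1100000), (nat_lit 1442501)], [(nat_lit 9), (nat_lit 50), (nat_lit 226), (nat_lit 20), (nat_lit 7)]⟩,
 ⟨⟨[(nat_lit 100), (nat_lit 120), (nat_lit 140)], [(nat_lit 0), (nat_lit 0), (nat_lit 533)], [((nat_lit 0), (nat_lit 0), (nat_lit 0)), ((nat_lit 0), (nat_lit 0), (nat_lit 0)), ((nat_lit 924), (nat_lit 1000), (nat_lit 383))], ((nat_lit 100), (nat_lit 94), (nat_lit 34))⟩, (nat_lit 0), (nat_lit 219), (nat_lit 219), (nat_lit 0), (nat_lit 120368), [(nat_lit 6250000000), (nat_lit 7968000000), (nat_lit 9842000000)], [], [(nat_lit 38007658531), (nat_lit 32110355997), (nat_lit 26213053463), (nat_lit 20405204925), (nat_lit 40464416080), (nat_lit 34944244671), (nat_lit 42146393263), (nat_lit 36704501823)], (nat_lit 1271251), (nat_lit 1271251), (nat_lit 230000), (nat_lit 490000), (nat_lit 780000), (nat_lit 2253751), [(nat_lit 1412501), (nat_lit 1271251), (nat_lit 1271251)], [(nat_lit 22), (nat_lit 58), (nat_lit 373), (nat_lit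 150), (nat_lit 11)]⟩,
 ⟨⟨[(nat_lit 140), (nat_lit 160), (nat_lit 180)], [(nat_lit 0), (nat_lit 304), (nat_lit 1085)], [((nat_lit 0), (nat_lit 0), (nat_lit 0)), ((nat_lit 913), (nat_lit 1000), (nat_lit 217)), ((nat_lit 759), (nat_lit 1000), (nat_lit 463))], ((nat_lit 100), (nat_lit 83), (nat_lit 36))⟩, (nat_lit 2052632), (nat_lit 300), (nat_lit 510), (nat_lit 70300000), (nat_lit 585484), [(nat_lit 9842000000), (nat_lit 11872000000), (nat_lit 14058000000)], [], [(nat_lit 41678008378), (nat_lit 40970025432), (nat_lit 44399313619), (nat_lit 43574062825), (nat_lit 39878605081), (nat_lit 39042106132), (nat_lit 41344984630), (nat_lit 40423974536)], (nat_lit 936250), (nat_lit 1100000), (nat_lit 1271251), (nat_lit 1271251), (nat_lit 780000), (nat_lit 2253751), [(nat_lit 1977501), (nat_lit 1271251), (nat_lit 1271251)], [(nat_lit 31), (nat_lit 65), (nat_lit 456), (nat_lit 225), (nat_lit 10)]⟩⟩))))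
noncomputable def c3_12 : Tr Lf :=
 (.trZ (nat_lit 0) (nat_lit 1) (nat_lit 3) (nat_lit 100) (nat_lit 87) (nat_lit 59) (nat_lit 30) (.spl (nat_lit 5) (nat_lit 120) (.leaf ⟨(nat_lit 0), (nat_lit 904), (nat_lit 0), (nat_lit 96), (nat_lit 36256), (nat_lit 5195), (nat_lit 11639), (nat_lit 1377), (nat_lit 0), (nat_lit 0), (nat_lit 0), [], Pd.none, Pd.none, (nat_lit 0), (nat_lit 1), (nat_lit 0), (nat_lit 0), (nat_lit 7), (nat_lit 0), [⟨(nat_lit 0), (nat_lit 100), (nat_lit 84), (nat_lit 68), (nat_lit 1690419176)⟩], [⟨(nat_lit 1), (nat_lit 81), (nat_lit 88), (nat_lit 100), (nat_lit 508669337)⟩], [], [],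
 ⟨⟨[(nat_lit 60), (nat_lit 80), (nat_lit 100)], [(nat_lit 0), (nat_lit 304), (nat_lit 825)], [((nat_lit 0), (nat_lit 0), (nat_lit 0)), ((nat_lit 1000), (nat_lit 905), (nat_lit 238)), ((nat_lit 1000), (nat_lit 871), (nat_lit 407))], ((nat_lit 87), (nat_lit 100), (nat_lit 44))⟩, (nat_lit 5815014), (nat_lit 169), (nat_lit 169), (nat_lit 0), (nat_lit 135785), [(nat_lit 3282000028), (nat_lit 4688000018), (nat_lit 6250000000)], [], [(nat_lit 23618882491), (nat_lit 24650520203), (nat_lit 22303140135), (nat_lit 23290814378), (nat_lit 28618116975), (nat_lit 29858319007), (nat_lit 26153738679), (nat_lit 27178136900)], (nat_lit 1271251), (nat_lit 1271251), (nat_lit 169688), (nat_lit 490000), (nat_lit 1271251), (nat_lit 1271251), [(nat_lit 780000), (nat_lit 1100000), (nat_lit 1442501)], [(nat_lit 9), (nat_lit 50), (nat_lit 226), (nat_lit 20), (nat_lit 7)]⟩,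
 ⟨⟨[(nat_lit 100), (nat_lit 120), (nat_lit 140)], [(nat_lit 0), (nat_lit 254), (nat_lit 778)], [((nat_lit 0), (nat_lit 0), (nat_lit 0)), ((nat_lit 1000), (nat_lit 1000), (nat_lit 198)), ((nat_lit 960), (nat_lit 1000), (nat_lit 392))], ((nat_lit 100), (nat_lit 94), (nat_lit 44))⟩, (nat_lit 14106419), (nat_lit 322), (nat_lit 322), (nat_lit 0), (nat_lit 129433), [(nat_lit 6250000000), (nat_lit 7968000000), (nat_lit 9842000000)], [], [(nat_lit 19857093360), (nat_lit 21780864917), (nat_lit 15192005024), (nat_lit 16165671508), (nat_lit 13184038714), (nat_lit 13267609365), (nat_lit 14217461852), (nat_lit 9611812526)], (nat_lit 1271251), (nat_lit 1271251), (nat_lit 169688), (nat_lit 490000), (nat_lit 0), (nat_lit 780000), [(nat_lit 1412501), (nat_lit 1271251), (nat_lit 1271251)], [(nat_lit 22), (nat_lit 58), (nat_lit 345), (nat_lit 125), (nat_lit 10)]⟩,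
 ⟨⟨[(nat_lit 140), (nat_lit 160), (nat_lit 180)], [(nat_lit 0), (nat_lit 0), (nat_lit 799)], [((nat_lit 0), (nat_lit 0), (nat_lit 0)), ((nat_lit 0), (nat_lit 0), (nat_lit 0)), ((nat_lit 728), (nat_lit 1000), (nat_lit 454))], ((nat_lit 100), (nat_lit 71), (nat_lit 48))⟩, (nat_lit 84345), (nat_lit 300), (nat_lit 857), (nat_lit 7123202), (nat_lit 1067883), [(nat_lit 944832000), (nat_lit 1139712000), (nat_lit 1349568000)], [], [(nat_lit 5245755300), (nat_lit 5038251624), (nat_lit 5543962758), (nat_lit 5339316005), (nat_lit 4139443077), (nat_lit 3942843933), (nat_lit 4323165278), (nat_lit 4134427325)], (nat_lit 780000), (nat_lit 1100000), (nat_lit 1271251), (nat_lit 1271251), (nat_lit 0), (nat_lit 780000), [(nat_lit 1977501), (nat_lit 1271251), (nat_lit 1271251)], [(nat_lit 31), (nat_lit 65), (nat_lit 401), (nat_lit 175), (nat_lit 9)]⟩⟩) (.stt (nat_lit 2) (.leaf ⟨(nat_lit 0), (nat_lit 811), (nat_lit 0), (nat_lit 189), (nat_lit 0), (nat_lit 5658), (nat_lit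 11864), (nat_lit 2103), (nat_lit 0), (nat_lit 0), (nat_lit 0), [], Pd.none, Pd.none, (nat_lit 0), (nat_lit 1), (nat_lit 0), (nat_lit 0), (nat_lit 7), (nat_lit 0), [⟨(nat_lit 0), (nat_lit 100), (nat_lit 84), (nat_lit 68), (nat_lit 1168195784)⟩], [], [], [⟨(nat_lit 2), (nat_lit 100), (nat_lit 83), (nat_lit 70), (nat_lit 699525482)⟩],
 ⟨⟨[(nat_lit 60), (nat_lit 80), (nat_lit 100)], [(nat_lit 0), (nat_lit 304), (nat_lit 825)], [((nat_lit 0), (nat_lit 0), (nat_lit 0)), ((nat_lit 1000), (nat_lit 905), (nat_lit 238)), ((nat_lit 1000), (nat_lit 871), (nat_lit 407))], ((nat_lit 87), (nat_lit 100), (nat_lit 44))⟩, (nat_lit 5675136), (nat_lit 169), (nat_lit 169), (nat_lit 0), (nat_lit 135785), [(nat_lit 3282000003), (nat_lit 4688000001), (nat_lit 6250000000)], [], [(nat_lit 23484846324), (nat_lit 25150638403), (nat_lit 21287090180), (nat_lit 22313562073), (nat_lit 29458021583), (nat_lit 30750131665), (nat_lit 26502461519), (nat_lit 27769674960)], (nat_lit 1271251),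 (nat_lit 1271251), (nat_lit 169688), (nat_lit 490000), (nat_lit 1271251), (nat_lit 1271251), [(nat_lit 780000), (nat_lit 1100000), (nat_lit 1442501)], [(nat_lit 9), (nat_lit 50), (nat_lit 226), (nat_lit 20), (nat_lit 7)]⟩,
 ⟨⟨[(nat_lit 100), (nat_lit 120), (nat_lit 140)], [(nat_lit 0), (nat_lit 254), (nat_lit 778)], [((nat_lit 0), (nat_lit 0), (nat_lit 0)), ((nat_lit 1000), (nat_lit 1000), (nat_lit 198)), ((nat_lit 960), (nat_lit 1000), (nat_lit 392))], ((nat_lit 100), (nat_lit 94), (nat_lit 44))⟩, (nat_lit 0), (nat_lit 101), (nat_lit 101), (nat_lit 0), (nat_lit 0), [(nat_lit 6250000000), (nat_lit 7968000000), (nat_lit 9842000000)], [], [(nat_lit 7298462455), (nat_lit 9333032838), (nat_lit 2378574492), (nat_lit 4371720608), (nat_lit 24599712564), (nat_lit 25978015798), (nat_lit 18018506692), (nat_lit 19412596088)], (nat_lit 0), (nat_lit 0), (nat_lit 0), (nat_lit 0), (nat_lit 0), (nat_lit 0), [], [(nat_lit 22), (nat_lit 58), (nat_lit 401), (nat_lit 175),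 (nat_lit 12)]⟩,
 ⟨⟨[(nat_lit 140), (nat_lit 160), (nat_lit 180)], [(nat_lit 0), (nat_lit 0), (nat_lit 799)], [((nat_lit 0), (nat_lit 0), (nat_lit 0)), ((nat_lit 0), (nat_lit 0), (nat_lit 0)), ((nat_lit 728), (nat_lit 1000), (nat_lit 454))], ((nat_lit 100), (nat_lit 71), (nat_lit 48))⟩, (nat_lit 166055), (nat_lit 300), (nat_lit 1037), (nat_lit 14023801), (nat_lit 1656728), [(nat_lit 1860138000), (nat_lit 2243808000), (nat_lit 2656962000)], [], [(nat_lit 10116359622), (nat_lit 9805266708), (nat_lit 9964436013), (nat_lit 9644968455), (nat_lit 9101810949), (nat_lit 8789027675), (nat_lit 8993156946), (nat_lit 8670094030)], (nat_lit 780000), (nat_lit 1100000), (nat_lit 1271251), (nat_lit 1271251), (nat_lit 780000), (nat_lit 2253751), [(nat_lit 1977501), (nat_lit 1271251), (nat_lit 1271251)], [(nat_lit 31), (nat_lit 65), (nat_lit 456), (nat_lit 225), (nat_lit 10)]⟩⟩) (.leaf ⟨(nat_lit 610), (nat_lit 0), (nat_lit 0), (nat_lit 390), (nat_lit 0), (nat_lit 4394),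 (nat_lit 9727), (nat_lit 4928), (nat_lit 0), (nat_lit 0), (nat_lit 193000), [((nat_lit 320), [((nat_lit 15), (nat_lit 0), (nat_lit 340)), ((nat_lit 15), (nat_lit 1), (nat_lit 270))])], ⟨(nat_lit 5), false, false, false, (nat_lit 112), (nat_lit 4472), (nat_lit 5000), [(nat_lit 1217856), (nat_lit 1232658), (nat_lit 1239276), (nat_lit 1254216), (nat_lit 1307140), (nat_lit 1317629), (nat_lit 1328559), (nat_lit 1339186)]⟩, ⟨(nat_lit 7), false, false, true, (nat_lit 254), (nat_lit 4472), (nat_lit 5000), [(nat_lit 1557141), (nat_lit 1549689), (nat_lit 1599999), (nat_lit 1592822), (nat_lit 1682141), (nat_lit 1668651), (nat_lit 1724998), (nat_lit 1711784)]⟩, (nat_lit 4410742), (nat_lit 43545730), (nat_lit 5049093), (nat_lit 18405177), (nat_lit 0), (nat_lit 0), [⟨(nat_lit 0), (nat_lit 100), (nat_lit 84), (nat_lit 68), (nat_lit 2016001747)⟩], [⟨(nat_lit 1), (nat_lit 81), (nat_lit 88), (nat_lit 100), (nat_lit 65023422)⟩], [], [],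
 ⟨⟨[(nat_lit 60), (nat_lit 80), (nat_lit 100)], [(nat_lit 0), (nat_lit 304), (nat_lit 825)], [((nat_lit 0), (nat_lit 0), (nat_lit 0)), ((nat_lit 1000), (nat_lit 905), (nat_lit 238)), ((nat_lit 1000), (nat_lit 871), (nat_lit 407))], ((nat_lit 87), (nat_lit 100), (nat_lit 44))⟩, (nat_lit 4152380), (nat_lit 169), (nat_lit 169), (nat_lit 0), (nat_lit 135785), [(nat_lit 2430236408), (nat_lit 3210116258), (nat_lit 3992060000)], [(nat_lit 0), (nat_lit 0), (nat_lit 0)], [(nat_lit 22404656583), (nat_lit 23417048183), (nat_lit 21411409843), (nat_lit 22384486964), (nat_lit 27165063864), (nat_lit 28315463845), (nat_lit 25068982793), (nat_lit 26154763280)], (nat_lit 1271251), (nat_lit 1271251), (nat_lit 169688), (nat_lit 490000), (nat_lit 1271251), (nat_lit 1271251), [(nat_lit 780000), (nat_lit 1100000), (nat_lit 1442501)], [(nat_lit 9), (nat_lit 50), (nat_lit 226), (nat_lit 20), (nat_lit 7)]⟩,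
 ⟨⟨[(nat_lit 100), (nat_lit 120), (nat_lit 140)], [(nat_lit 0), (nat_lit 254), (nat_lit 778)], [((nat_lit 0), (nat_lit 0), (nat_lit 0)), ((nat_lit 1000), (nat_lit 1000), (nat_lit 198)), ((nat_lit 960), (nat_lit 1000), (nat_lit 392))], ((nat_lit 100), (nat_lit 94), (nat_lit 44))⟩, (nat_lit 1714673), (nat_lit 227), (nat_lit 227), (nat_lit 0), (nat_lit 207016), [(nat_lit 2437500000), (nat_lit 3107520000), (nat_lit 3838380000)], [], [(nat_lit 14871538775), (nat_lit 9745517988), (nat_lit 2201726116), (nat_lit 767157622), (nat_lit 13887454750), (nat_lit 14743491784), (nat_lit 13726717498), (nat_lit 9021833054)], (nat_lit 1271251), (nat_lit 1271251), (nat_lit 169688), (nat_lit 490000), (nat_lit 780000), (nat_lit 2253751), [(nat_lit 1412501), (nat_lit 1271251), (nat_lit 1271251)], [(nat_lit 22), (nat_lit 58), (nat_lit 401), (nat_lit 175), (nat_lit 12)]⟩,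
 ⟨⟨[(nat_lit 140), (nat_lit 160), (nat_lit 180)], [(nat_lit 0), (nat_lit 0), (nat_lit 799)], [((nat_lit 0), (nat_lit 0), (nat_lit 0)), ((nat_lit 0), (nat_lit 0), (nat_lit 0)), ((nat_lit 728), (nat_lit 1000), (nat_lit 454))], ((nat_lit 100), (nat_lit 71), (nat_lit 48))⟩, (nat_lit 343156), (nat_lit 300), (nat_lit 771), (nat_lit 28938000), (nat_lit 1067883), [(nat_lit 3838380000), (nat_lit 4630080000), (nat_lit 5482620000)], [], [(nat_lit 18363213066), (nat_lit 17687150868), (nat_lit 18685710758), (nat_lit 17958618040), (nat_lit 16710482060), (nat_lit 15982494532), (nat_lit 17029683193), (nat_lit 16311074800)], (nat_lit 780000), (nat_lit 1100000), (nat_lit 1271251), (nat_lit 1271251), (nat_lit 780000), (nat_lit 2253751), [(nat_lit 1977501), (nat_lit 1271251), (nat_lit 1271251)], [(nat_lit 31), (nat_lit 65), (nat_lit 456), (nat_lit 225), (nat_lit 10)]⟩⟩))))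
noncomputable def c3_13 : Tr Lf :=
 (.spl (nat_lit 6) (nat_lit 12) (.spl (nat_lit 1) (nat_lit 220) (.spl (nat_lit 1) (nat_lit 200) (.spl (nat_lit 6) (nat_lit 4) (.leaf ⟨(nat_lit 0), (nat_lit 0), (nat_lit 825), (nat_lit 175), (nat_lit 4620), (nat_lit 4551), (nat_lit 504), (nat_lit 11273), (nat_lit 0), (nat_lit 0), (nat_lit 0), [], Pd.none, Pd.none, (nat_lit 0), (nat_lit 1), (nat_lit 0), (nat_lit 0), (nat_lit 0), (nat_lit 4), [⟨(nat_lit 0), (nat_lit 100), (nat_lit 80), (nat_lit 60), (nat_lit 218736177)⟩], [⟨(nat_lit 1), (nat_lit 68), (nat_lit 84), (nat_lit 100), (nat_lit 87106771)⟩], [], [],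
 ⟨⟨[(nat_lit 60), (nat_lit 80)], [(nat_lit 0), (nat_lit 304)], [((nat_lit 0), (nat_lit 0), (nat_lit 0)), ((nat_lit 1000), (nat_lit 905), (nat_lit 238))], ((nat_lit 91), (nat_lit 100), (nat_lit 21))⟩, (nat_lit 6354922), (nat_lit 136), (nat_lit 136), (nat_lit 0), (nat_lit 26960), [(nat_lit 3282000001), (nat_lit 4688000000)], [], [(nat_lit 25031479715), (nat_lit 26143597625), (nat_lit 23554501612), (nat_lit 24607520213), (nat_lit 30276489122), (nat_lit 31126406480), (nat_lit 28524752213), (nat_lit 29334281640)], (nat_lit 1271251), (nat_lit 1271251), (nat_lit 54688), (nat_lit 490000), (nat_lit 1271251), (nat_lit 1271251), [(nat_lit 780000), (nat_lit 1100000)], [(nat_lit 8), (nat_lit 44), (nat_lit 226), (nat_lit 20), (nat_lit 9)]⟩,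
 ⟨⟨[(nat_lit 120), (nat_lit 140)], [(nat_lit 0), (nat_lit 266)], [((nat_lit 0), (nat_lit 0), (nat_lit 0)), ((nat_lit 960), (nat_lit 1000), (nat_lit 200))], ((nat_lit 100), (nat_lit 96), (nat_lit 20))⟩, (nat_lit 2256264), (nat_lit 308), (nat_lit 308), (nat_lit 0), (nat_lit 57011), [(nat_lit 1394400000), (nat_lit 1722350000)], [], [(nat_lit 7739752125), (nat_lit 7468038606), (nat_lit 7259617932), (nat_lit 7356628020), (nat_lit 8105444913), (nat_lit 8171427821), (nat_lit 7996660251), (nat_lit 8060488853)], (nat_lit 1271251), (nat_lit 1271251), (nat_lit 54688), (nat_lit 490000), (nat_lit 0), (nat_lit 2118750), [(nat_lit 1695001), (nat_lit 1271251)], [(nat_lit 26), (nat_lit 58), (nat_lit 373), (nat_lit 150), (nat_lit 11)]⟩,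
 ⟨⟨[(nat_lit 120), (nat_lit 140)], [(nat_lit 0), (nat_lit 0)], [((nat_lit 0), (nat_lit 0), (nat_lit 0)), ((nat_lit 0), (nat_lit 0), (nat_lit 0))], ((nat_lit 100), (nat_lit 94), (nat_lit 20))⟩, (nat_lit 0), (nat_lit 300), (nat_lit 303), (nat_lit 70300000), (nat_lit 162310), [(nat_lit 7968000000), (nat_lit 9842000000)], [], [(nat_lit 35365560127), (nat_lit 35656724233), (nat_lit 42308185753), (nat_lit 42344410668), (nat_lit 33708234396), (nat_lit 37138316762), (nat_lit 33603851714), (nat_lit 33588896442)], (nat_lit 1100000), (nat_lit 1271251), (nat_lit 1271251), (nat_lit 1271251), (nat_lit 0), (nat_lit 2118750), [(nat_lit 1695001), (nat_lit 1271251)], [(nat_lit 26), (nat_lit 58), (nat_lit 345), (nat_lit 125), (nat_lit 10)]⟩⟩) (.dle (nat_lit 0))) (.trZ (nat_lit 0) (nat_lit 1) (nat_lit 3) (nat_lit 100) (nat_lit 87) (nat_lit 50) (nat_lit 20) (.leaf ⟨(nat_lit 469), (nat_lit 0), (nat_lit 0), (nat_lit 531), (nat_lit 25315), (nat_lit 4503), (nat_lit 8182), (nat_lit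 6405), (nat_lit 0), (nat_lit 0), (nat_lit 329800), [((nat_lit 320), [((nat_lit 15), (nat_lit 1), (nat_lit 232)), ((nat_lit 15), (nat_lit 2), (nat_lit 237))])], ⟨(nat_lit 5), false, false, false, (nat_lit 100), (nat_lit 4472), (nat_lit 5000), [(nat_lit 1178570), (nat_lit 1194097), (nat_lit 1199999), (nat_lit 1215663), (nat_lit 1285713), (nat_lit 1296064), (nat_lit 1307140), (nat_lit 1317629)]⟩, ⟨(nat_lit 7), false, false, true, (nat_lit 274), (nat_lit 4472), (nat_lit 5000), [(nat_lit 1599999), (nat_lit 1592822), (nat_lit 1621427), (nat_lit 1614388), (nat_lit 1760711), (nat_lit 1745771), (nat_lit 1782131), (nat_lit 1767329)]⟩, (nat_lit 4366622), (nat_lit 42322261), (nat_lit 4172011), (nat_lit 20505728), (nat_lit 0), (nat_lit 0), [⟨(nat_lit 0), (nat_lit 100), (nat_lit 80), (nat_lit 68), (nat_lit 767990075)⟩], [], [], [],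
 ⟨⟨[(nat_lit 60), (nat_lit 80), (nat_lit 100)], [(nat_lit 0), (nat_lit 304), (nat_lit 825)], [((nat_lit 0), (nat_lit 0), (nat_lit 0)), ((nat_lit 1000), (nat_lit 905), (nat_lit 238)), ((nat_lit 1000), (nat_lit 871), (nat_lit 407))], ((nat_lit 88), (nat_lit 100), (nat_lit 35))⟩, (nat_lit 4067036), (nat_lit 162), (nat_lit 162), (nat_lit 0), (nat_lit 55438), [(nat_lit 2605848402), (nat_lit 3392900600), (nat_lit 4032906800)], [(nat_lit 0), (nat_lit 0), (nat_lit 0)], [(nat_lit 22955303353), (nat_lit 23989355730), (nat_lit 21712073357), (nat_lit 22698990684), (nat_lit 29480516524), (nat_lit 30557205053), (nat_lit 26771552605), (nat_lit 27826667316)], (nat_lit 1271251), (nat_lit 1271251), (nat_lit 111251), (nat_lit 490000), (nat_lit 1271251), (nat_lit 1271251), [(nat_lit 780000), (nat_lit 1100000), (nat_lit 1442501)], [(nat_lit 9), (nat_lit 50), (nat_lit 226), (nat_lit 20), (nat_lit 8)]⟩,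
 ⟨⟨[(nat_lit 100), (nat_lit 120), (nat_lit 140)], [(nat_lit 0), (nat_lit 0), (nat_lit 533)], [((nat_lit 0), (nat_lit 0), (nat_lit 0)), ((nat_lit 0), (nat_lit 0), (nat_lit 0)), ((nat_lit 924), (nat_lit 1000), (nat_lit 383))], ((nat_lit 100), (nat_lit 94), (nat_lit 34))⟩, (nat_lit 8404377), (nat_lit 318), (nat_lit 318), (nat_lit 0), (nat_lit 100210), [(nat_lit 3318750000), (nat_lit 4231008000), (nat_lit 5226102000)], [], [(nat_lit 16645041075), (nat_lit 13857954127), (nat_lit 17340941084), (nat_lit 13234190734), (nat_lit 30795666092), (nat_lit 27015877156), (nat_lit 32730724887), (nat_lit 29025201408)], (nat_lit 1271251), (nat_lit 1271251), (nat_lit 111251), (nat_lit 490000), (nat_lit 0), (nat_lit 2118750), [(nat_lit 1412501), (nat_lit 1271251), (nat_lit 1271251)], [(nat_lit 22), (nat_lit 58), (nat_lit 373), (nat_lit 150), (nat_lit 11)]⟩,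
 ⟨⟨[(nat_lit 120), (nat_lit 140), (nat_lit 160)], [(nat_lit 0), (nat_lit 0), (nat_lit 609)], [((nat_lit 0), (nat_lit 0), (nat_lit 0)), ((nat_lit 0), (nat_lit 0), (nat_lit 0)), ((nat_lit 840), (nat_lit 1000), (nat_lit 400))], ((nat_lit 100), (nat_lit 87), (nat_lit 35))⟩, (nat_lit 544079), (nat_lit 300), (nat_lit 438), (nat_lit 37329300), (nat_lit 357417), [(nat_lit 4231008000), (nat_lit 5226102000), (nat_lit 6304032000)], [], [(nat_lit 22860097692), (nat_lit 22894603638), (nat_lit 25835649333), (nat_lit 25735684964), (nat_lit 18020453079), (nat_lit 19382825000), (nat_lit 19618854791), (nat_lit 19419048861)], (nat_lit 1100000), (nat_lit 1271251), (nat_lit 1271251), (nat_lit 1271251), (nat_lit 0), (nat_lit 2118750), [(nat_lit 1695001), (nat_lit 1271251), (nat_lit 1271251)], [(nat_lit 27), (nat_lit 62), (nat_lit 456), (nat_lit 225), (nat_lit 12)]⟩⟩))) (.trZ (nat_lit 0) (nat_lit 1) (nat_lit 3) (nat_lit 100) (nat_lit 87) (nat_lit 59) (nat_lit 30) (.spl (nat_lit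 0) (nat_lit 310) (.leaf ⟨(nat_lit 0), (nat_lit 0), (nat_lit 0), (nat_lit 1000), (nat_lit 40769), (nat_lit 4957), (nat_lit 12313), (nat_lit 12061), (nat_lit 0), (nat_lit 0), (nat_lit 0), [], Pd.none, Pd.none, (nat_lit 0), (nat_lit 1), (nat_lit 0), (nat_lit 0), (nat_lit 0), (nat_lit 0), [⟨(nat_lit 0), (nat_lit 100), (nat_lit 86), (nat_lit 65), (nat_lit 1089276638)⟩], [], [], [],
 ⟨⟨[(nat_lit 60), (nat_lit 80), (nat_lit 100)], [(nat_lit 0), (nat_lit 304), (nat_lit 825)], [((nat_lit 0), (nat_lit 0), (nat_lit 0)), ((nat_lit 1000), (nat_lit 905), (nat_lit 238)), ((nat_lit 1000), (nat_lit 871), (nat_lit 407))], ((nat_lit 88), (nat_lit 100), (nat_lit 35))⟩, (nat_lit 6217122), (nat_lit 151), (nat_lit 151), (nat_lit 0), (nat_lit 45228), [(nat_lit 3282000009), (nat_lit 4688000012), (nat_lit 6250000000)], [], [(nat_lit 22800724923), (nat_lit 23414467521), (nat_lit 21345968710), (nat_lit 21922525498), (nat_lit 29945574897), (nat_lit 30504053619), (nat_lit 27391496018),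 (nat_lit 27940676911)], (nat_lit 1271251), (nat_lit 1271251), (nat_lit 169688), (nat_lit 490000), (nat_lit 1271251), (nat_lit 1271251), [(nat_lit 780000), (nat_lit 1100000), (nat_lit 1442501)], [(nat_lit 9), (nat_lit 50), (nat_lit 226), (nat_lit 20), (nat_lit 7)]⟩,
 ⟨⟨[(nat_lit 100), (nat_lit 120), (nat_lit 140)], [(nat_lit 0), (nat_lit 254), (nat_lit 778)], [((nat_lit 0), (nat_lit 0), (nat_lit 0)), ((nat_lit 1000), (nat_lit 1000), (nat_lit 198)), ((nat_lit 960), (nat_lit 1000), (nat_lit 392))], ((nat_lit 100), (nat_lit 97), (nat_lit 34))⟩, (nat_lit 12738002), (nat_lit 294), (nat_lit 294), (nat_lit 0), (nat_lit 67922), [(nat_lit 6250000000), (nat_lit 7968000000), (nat_lit 9842000000)], [], [(nat_lit 26626536752), (nat_lit 22658833156), (nat_lit 28117904557), (nat_lit 21937702032), (nat_lit 50561162765), (nat_lit 44891627678), (nat_lit 53584281238), (nat_lit 48007880528)], (nat_lit 1271251), (nat_lit 1271251), (nat_lit 169688), (nat_lit 490000), (nat_lit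 0), (nat_lit 2118750), [(nat_lit 1412501), (nat_lit 1271251), (nat_lit 1271251)], [(nat_lit 22), (nat_lit 58), (nat_lit 401), (nat_lit 175), (nat_lit 12)]⟩,
 ⟨⟨[(nat_lit 120), (nat_lit 140), (nat_lit 160)], [(nat_lit 0), (nat_lit 0), (nat_lit 609)], [((nat_lit 0), (nat_lit 0), (nat_lit 0)), ((nat_lit 0), (nat_lit 0), (nat_lit 0)), ((nat_lit 840), (nat_lit 1000), (nat_lit 400))], ((nat_lit 100), (nat_lit 87), (nat_lit 35))⟩, (nat_lit 1024631), (nat_lit 300), (nat_lit 409), (nat_lit 70300000), (nat_lit 284706), [(nat_lit 7968000000), (nat_lit 9842000000), (nat_lit 11872000000)], [], [(nat_lit 43051889649), (nat_lit 43116654778), (nat_lit 48655002607), (nat_lit 48466801701), (nat_lit 33938815973), (nat_lit 36503419351), (nat_lit 36948890223), (nat_lit 36572676840)], (nat_lit 1100000), (nat_lit 1271251), (nat_lit 1271251), (nat_lit 1271251), (nat_lit 0), (nat_lit 2118750), [(nat_lit 1695001), (nat_lit 1271251), (nat_lit 1271251)], [(nat_lit 27), (nat_lit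 62), (nat_lit 456), (nat_lit 225), (nat_lit 12)]⟩⟩) (.trZ (nat_lit 0) (nat_lit 1) (nat_lit 3) (nat_lit 100) (nat_lit 84) (nat_lit 63) (nat_lit 40) (.trX (nat_lit 4) (nat_lit 0) (nat_lit 2) (nat_lit 84) (nat_lit 63) (nat_lit 100) (nat_lit 360) (.leaf ⟨(nat_lit 0), (nat_lit 365), (nat_lit 0), (nat_lit 635), (nat_lit 1), (nat_lit 4973), (nat_lit 14442), (nat_lit 7725), (nat_lit 0), (nat_lit 0), (nat_lit 0), [], Pd.none, Pd.none, (nat_lit 0), (nat_lit 1), (nat_lit 0), (nat_lit 0), (nat_lit 7), (nat_lit 0), [⟨(nat_lit 0), (nat_lit 100), (nat_lit 83), (nat_lit 70), (nat_lit 968020955)⟩], [], [], [],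
 ⟨⟨[(nat_lit 60), (nat_lit 80)], [(nat_lit 0), (nat_lit 456)], [((nat_lit 0), (nat_lit 0), (nat_lit 0)), ((nat_lit 1000), (nat_lit 859), (nat_lit 351))], ((nat_lit 86), (nat_lit 100), (nat_lit 35))⟩, (nat_lit 4141711), (nat_lit 131), (nat_lit 131), (nat_lit 0), (nat_lit 94748), [(nat_lit 3282000032), (nat_lit 4688000000)], [], [(nat_lit 23100383888), (nat_lit 23733421474), (nat_lit 21901087783), (nat_lit 22515554366), (nat_lit 29170258209), (nat_lit 29751609878), (nat_lit 27130925768), (nat_lit 27703867708)], (nat_lit 1271251), (nat_lit 1271251), (nat_lit 230000), (nat_lit 490000), (nat_lit 1271251), (nat_lit 1271251), [(nat_lit 780000), (nat_lit 1100000)], [(nat_lit 8), (nat_lit 44), (nat_lit 226), (nat_lit 20), (nat_lit 9)]⟩,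
 ⟨⟨[(nat_lit 100), (nat_lit 120), (nat_lit 140)], [(nat_lit 0), (nat_lit 254), (nat_lit 778)], [((nat_lit 0), (nat_lit 0), (nat_lit 0)), ((nat_lit 1000), (nat_lit 1000), (nat_lit 198)), ((nat_lit 960), (nat_lit 1000), (nat_lit 392))], ((nat_lit 100), (nat_lit 97), (nat_lit 34))⟩, (nat_lit 11767247), (nat_lit 320), (nat_lit 320), (nat_lit 0), (nat_lit 149008), [(nat_lit 6250000000), (nat_lit 7968000000), (nat_lit 9842000000)], [], [(nat_lit 24466939291), (nat_lit 23240110646), (nat_lit 25920753138), (nat_lit 18671952288), (nat_lit 51433958093), (nat_lit 44805970081), (nat_lit 54325052417), (nat_lit 47784454752)], (nat_lit 1271251), (nat_lit 1271251), (nat_lit 230000), (nat_lit 490000), (nat_lit 0), (nat_lit 2118750), [(nat_lit 1412501), (nat_lit 1271251), (nat_lit 1271251)], [(nat_lit 22), (nat_lit 58), (nat_lit 401), (nat_lit 175), (nat_lit 12)]⟩,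
 ⟨⟨[(nat_lit 120), (nat_lit 140), (nat_lit 160)], [(nat_lit 0), (nat_lit 0), (nat_lit 609)], [((nat_lit 0), (nat_lit 0), (nat_lit 0)), ((nat_lit 0), (nat_lit 0), (nat_lit 0)), ((nat_lit 840), (nat_lit 1000), (nat_lit 400))], ((nat_lit 100), (nat_lit 87), (nat_lit 35))⟩, (nat_lit 650641), (nat_lit 300), (nat_lit 567), (nat_lit 44640500), (nat_lit 634512), [(nat_lit 5059680000), (nat_lit 6249670000), (nat_lit 7538720000)], [], [(nat_lit 28902696250), (nat_lit 28741600938), (nat_lit 30415312040), (nat_lit 30311039433), (nat_lit 21714708900), (nat_lit 23126281089), (nat_lit 23086117913), (nat_lit 22855511650)], (nat_lit 1100000), (nat_lit 1271251), (nat_lit 1271251), (nat_lit 1271251), (nat_lit 0), (nat_lit 2118750), [(nat_lit 1695001), (nat_lit 1271251), (nat_lit 1271251)], [(nat_lit 27), (nat_lit 62), (nat_lit 456), (nat_lit 225), (nat_lit 12)]⟩⟩)))))) (.dle (nat_lit 0)))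
noncomputable def c3_14 : Tr Lf :=
 (.spl (nat_lit 1) (nat_lit 180) (.spl (nat_lit 6) (nat_lit 8) (.leaf ⟨(nat_lit 931), (nat_lit 0), (nat_lit 41), (nat_lit 28), (nat_lit 8176), (nat_lit 3624), (nat_lit 522), (nat_lit 846), (nat_lit 0), (nat_lit 134238183694), (nat_lit 750200), [((nat_lit 320), [((nat_lit 35), (nat_lit 2), (nat_lit 452)), ((nat_lit 15), (nat_lit 2), (nat_lit 479))])], ⟨(nat_lit 3), false, false, false, (nat_lit 109), (nat_lit 4472), (nat_lit 5000), [(nat_lit 1199998), (nat_lit 1209798), (nat_lit 1264284), (nat_lit 1274498), (nat_lit 1271427), (nat_lit 1277776), (nat_lit 1335713), (nat_lit 1342476)]⟩, ⟨(nat_lit 7), false, false, true, (nat_lit 266), (nat_lit 4472), (nat_lit 5000), [(nat_lit 1557141), (nat_lit 1549689), (nat_lit 1621427), (nat_lit 1614388), (nat_lit 1717856), (nat_lit 1702640), (nat_lit 1782131), (nat_lit 1767329)]⟩, (nat_lit 4433294), (nat_lit 42673315), (nat_lit 4786863), (nat_lit 19539822), (nat_lit 0), (nat_lit 3),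 [], [⟨(nat_lit 1), (nat_lit 77), (nat_lit 86), (nat_lit 100), (nat_lit 216738536)⟩], [], [],
 ⟨⟨[(nat_lit 60), (nat_lit 80)], [(nat_lit 0), (nat_lit 304)], [((nat_lit 0), (nat_lit 0), (nat_lit 0)), ((nat_lit 1000), (nat_lit 905), (nat_lit 238))], ((nat_lit 89), (nat_lit 100), (nat_lit 29))⟩, (nat_lit 1495481), (nat_lit 105), (nat_lit 105), (nat_lit 0), (nat_lit 68187), [(nat_lit 2058332523), (nat_lit 1975454400)], [(nat_lit 0), (nat_lit 0)], [(nat_lit 20819626063), (nat_lit 21825430939), (nat_lit 21204371095), (nat_lit 22161023342), (nat_lit 25716681157), (nat_lit 26542648728), (nat_lit 25899249883), (nat_lit 26687371204)], (nat_lit 1271251), (nat_lit 1271251), (nat_lit 490000), (nat_lit 780000), (nat_lit 1271251), (nat_lit 1271251), [(nat_lit 780000), (nat_lit 1100000)], [(nat_lit 8), (nat_lit 44), (nat_lit 238), (nat_lit 30), (nat_lit 9)]⟩,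
 ⟨⟨[(nat_lit 140), (nat_lit 160), (nat_lit 180)], [(nat_lit 0), (nat_lit 0), (nat_lit 799)], [((nat_lit 0), (nat_lit 0), (nat_lit 0)), ((nat_lit 0), (nat_lit 0), (nat_lit 0)), ((nat_lit 728), (nat_lit 1000), (nat_lit 454))], ((nat_lit 100), (nat_lit 84), (nat_lit 31))⟩, (nat_lit 295171), (nat_lit 592), (nat_lit 592), (nat_lit 0), (nat_lit 294145), [(nat_lit 275576000), (nat_lit 332416000), (nat_lit 393624000)], [], [(nat_lit 1354624360), (nat_lit 1182250317), (nat_lit 1165104688), (nat_lit 1174907079), (nat_lit 1698807006), (nat_lit 2060951691), (nat_lit 1857763691), (nat_lit 2229131659)], (nat_lit 780000), (nat_lit 1271251), (nat_lit 490000), (nat_lit 780000), (nat_lit 0), (nat_lit 2401251), [(nat_lit 1977501), (nat_lit 1271251), (nat_lit 1271251)], [(nat_lit 31), (nat_lit 65), (nat_lit 401), (nat_lit 175), (nat_lit 10)]⟩,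
 ⟨⟨[(nat_lit 140), (nat_lit 160), (nat_lit 180)], [(nat_lit 0), (nat_lit 0), (nat_lit 799)], [((nat_lit 0), (nat_lit 0), (nat_lit 0)), ((nat_lit 0), (nat_lit 0), (nat_lit 0)), ((nat_lit 728), (nat_lit 1000), (nat_lit 454))], ((nat_lit 100), (nat_lit 84), (nat_lit 31))⟩, (nat_lit 60624), (nat_lit 300), (nat_lit 683), (nat_lit 5119800), (nat_lit 689926), [(nat_lit 679098000), (nat_lit 819168000), (nat_lit 970002000)], [], [(nat_lit 3973278204), (nat_lit 3819352787), (nat_lit 4079916194), (nat_lit 3905303441), (nat_lit 3042614856), (nat_lit 3654566617), (nat_lit 3136398773), (nat_lit 2966289468)], (nat_lit 780000), (nat_lit 1271251), (nat_lit 1271251), (nat_lit 1271251), (nat_lit 0), (nat_lit 2401251), [(nat_lit 1977501), (nat_lit 1271251), (nat_lit 1271251)], [(nat_lit 31), (nat_lit 65), (nat_lit 456), (nat_lit 225), (nat_lit 11)]⟩⟩) (.dle (nat_lit 0))) (.spl (nat_lit 2) (nat_lit 160) (.trX (nat_lit 4) (nat_lit 0) (nat_lit 2) (nat_lit 88) (nat_lit 68) (nat_lit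 100) (nat_lit 350) (.spl (nat_lit 6) (nat_lit 12) (.spl (nat_lit 2) (nat_lit 140) (.trX (nat_lit 4) (nat_lit 0) (nat_lit 2) (nat_lit 91) (nat_lit 77) (nat_lit 100) (nat_lit 340) (.leaf ⟨(nat_lit 934), (nat_lit 37), (nat_lit 0), (nat_lit 29), (nat_lit 4530), (nat_lit 3850), (nat_lit 1769), (nat_lit 380), (nat_lit 0), (nat_lit 0), (nat_lit 759200), [((nat_lit 320), [((nat_lit 35), (nat_lit 2), (nat_lit 437)), ((nat_lit 15), (nat_lit 2), (nat_lit 497))])], ⟨(nat_lit 4), false, false, false, (nat_lit 135), (nat_lit 4472), (nat_lit 5000), [(nat_lit 1264284), (nat_lit 1274498), (nat_lit 1328559), (nat_lit 1339186), (nat_lit 1335713), (nat_lit 1342476), (nat_lit 1399984), (nat_lit 1407160)]⟩, ⟨(nat_lit 7), false, false, true, (nat_lit 247), (nat_lit 4472), (nat_lit 5000), [(nat_lit 1557141), (nat_lit 1549689), (nat_lit 1578570), (nat_lit 1571255), (nat_lit 1664284), (nat_lit 1651656), (nat_lit 1685713), (nat_lit 1673223)]⟩, (nat_lit 4620888), (nat_lit 42985857),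 (nat_lit 6664110), (nat_lit 17350033), (nat_lit 7), (nat_lit 0), [], [⟨(nat_lit 1), (nat_lit 86), (nat_lit 89), (nat_lit 100), (nat_lit 221207969)⟩], [], [⟨(nat_lit 0), (nat_lit 96), (nat_lit 100), (nat_lit 7), (nat_lit 3332354)⟩],
 ⟨⟨[(nat_lit 60), (nat_lit 80), (nat_lit 100)], [(nat_lit 0), (nat_lit 304), (nat_lit 825)], [((nat_lit 0), (nat_lit 0), (nat_lit 0)), ((nat_lit 1000), (nat_lit 905), (nat_lit 238)), ((nat_lit 1000), (nat_lit 871), (nat_lit 407))], ((nat_lit 88), (nat_lit 100), (nat_lit 35))⟩, (nat_lit 1151904), (nat_lit 129), (nat_lit 129), (nat_lit 0), (nat_lit 133844), [(nat_lit 2054945473), (nat_lit 1975643209), (nat_lit 1636644391)], [(nat_lit 0), (nat_lit 0), (nat_lit 0)], [(nat_lit 20586115216), (nat_lit 21616892866), (nat_lit 20942299329), (nat_lit 21921833616), (nat_lit 23700305946), (nat_lit 24753215400), (nat_lit 23930836353), (nat_lit 24816042675)], (nat_lit 1271251), (nat_lit 1271251), (nat_lit 490000), (nat_lit 780000), (nat_lit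 1271251), (nat_lit 1271251), [(nat_lit 780000), (nat_lit 1100000), (nat_lit 1442501)], [(nat_lit 9), (nat_lit 50), (nat_lit 238), (nat_lit 30), (nat_lit 8)]⟩,
 ⟨⟨[(nat_lit 120), (nat_lit 140), (nat_lit 160)], [(nat_lit 0), (nat_lit 266), (nat_lit 862)], [((nat_lit 0), (nat_lit 0), (nat_lit 0)), ((nat_lit 960), (nat_lit 1000), (nat_lit 200)), ((nat_lit 874), (nat_lit 1000), (nat_lit 406))], ((nat_lit 100), (nat_lit 91), (nat_lit 34))⟩, (nat_lit 1597268), (nat_lit 405), (nat_lit 405), (nat_lit 0), (nat_lit 223094), [(nat_lit 525888000), (nat_lit 649572000), (nat_lit 783552000)], [], [(nat_lit 4139253762), (nat_lit 1354363056), (nat_lit 2296322830), (nat_lit 1233095892), (nat_lit 4407508430), (nat_lit 2427457869), (nat_lit 4901685327), (nat_lit 2466107331)], (nat_lit 1271251), (nat_lit 1271251), (nat_lit 490000), (nat_lit 780000), (nat_lit 0), (nat_lit 2401251), [(nat_lit 1695001), (nat_lit 1271251), (nat_lit 1271251)], [(nat_lit 27), (nat_lit 62), (nat_lit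 401), (nat_lit 175), (nat_lit 11)]⟩,
 ⟨⟨[(nat_lit 140), (nat_lit 160), (nat_lit 180)], [(nat_lit 0), (nat_lit 0), (nat_lit 799)], [((nat_lit 0), (nat_lit 0), (nat_lit 0)), ((nat_lit 0), (nat_lit 0), (nat_lit 0)), ((nat_lit 728), (nat_lit 1000), (nat_lit 454))], ((nat_lit 100), (nat_lit 79), (nat_lit 37))⟩, (nat_lit 25480), (nat_lit 300), (nat_lit 1125), (nat_lit 2151800), (nat_lit 1651998), [(nat_lit 285418000), (nat_lit 344288000), (nat_lit 407682000)], [], [(nat_lit 1635433156), (nat_lit 1607586970), (nat_lit 1657312285), (nat_lit 1627730324), (nat_lit 1232186846), (nat_lit 1313412934), (nat_lit 1258559423), (nat_lit 1229613382)], (nat_lit 780000), (nat_lit 936250), (nat_lit 1271251), (nat_lit 1271251), (nat_lit 0), (nat_lit 2401251), [(nat_lit 1977501), (nat_lit 1271251), (nat_lit 1271251)], [(nat_lit 31), (nat_lit 65), (nat_lit 456), (nat_lit 225), (nat_lit 11)]⟩⟩)) (.spl (nat_lit 5) (nat_lit 120) (.leaf ⟨(nat_lit 936), (nat_lit 0), (nat_lit 0), (nat_lit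 64), (nat_lit 5068), (nat_lit 3730), (nat_lit 1710), (nat_lit 794), (nat_lit 0), (nat_lit 0), (nat_lit 764800), [((nat_lit 320), [((nat_lit 35), (nat_lit 2), (nat_lit 428)), ((nat_lit 15), (nat_lit 2), (nat_lit 508))])], ⟨(nat_lit 4), false, false, false, (nat_lit 135), (nat_lit 4472), (nat_lit 5000), [(nat_lit 1264284), (nat_lit 1274498), (nat_lit 1328559), (nat_lit 1339186), (nat_lit 1335713), (nat_lit 1342476), (nat_lit 1399984), (nat_lit 1407160)]⟩, ⟨(nat_lit 7), false, false, true, (nat_lit 259), (nat_lit 4472), (nat_lit 5000), [(nat_lit 1578570), (nat_lit 1571255), (nat_lit 1599999), (nat_lit 1592822), (nat_lit 1703570), (nat_lit 1690217), (nat_lit 1724998), (nat_lit 1711784)]⟩, (nat_lit 4683640), (nat_lit 41941211), (nat_lit 6569163), (nat_lit 18489626), (nat_lit 0), (nat_lit 0), [], [⟨(nat_lit 1), (nat_lit 77), (nat_lit 86), (nat_lit 100), (nat_lit 165538797)⟩], [], [⟨(nat_lit 0), (nat_lit 94), (nat_lit 100), (nat_lit 10), (nat_lit 137250991)⟩],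
 ⟨⟨[(nat_lit 60), (nat_lit 80), (nat_lit 100)], [(nat_lit 0), (nat_lit 304), (nat_lit 825)], [((nat_lit 0), (nat_lit 0), (nat_lit 0)), ((nat_lit 1000), (nat_lit 905), (nat_lit 238)), ((nat_lit 1000), (nat_lit 871), (nat_lit 407))], ((nat_lit 88), (nat_lit 100), (nat_lit 35))⟩, (nat_lit 1075050), (nat_lit 127), (nat_lit 127), (nat_lit 0), (nat_lit 109536), [(nat_lit 2052717623), (nat_lit 1967821350), (nat_lit 1614937050)], [(nat_lit 0), (nat_lit 0), (nat_lit 0)], [(nat_lit 20804241703), (nat_lit 21794695573), (nat_lit 21148527006), (nat_lit 22115899323), (nat_lit 24419767307), (nat_lit 25307479971), (nat_lit 24640437211), (nat_lit 25486757584)], (nat_lit 1271251), (nat_lit 1271251), (nat_lit 490000), (nat_lit 780000), (nat_lit 1271251), (nat_lit 1271251), [(nat_lit 780000), (nat_lit 1100000), (nat_lit 1442501)], [(nat_lit 9), (nat_lit 50), (nat_lit 238), (nat_lit 30), (nat_lit 8)]⟩,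
 ⟨⟨[(nat_lit 120), (nat_lit 140), (nat_lit 160)], [(nat_lit 0), (nat_lit 266), (nat_lit 862)], [((nat_lit 0), (nat_lit 0), (nat_lit 0)), ((nat_lit 960), (nat_lit 1000), (nat_lit 200)), ((nat_lit 874), (nat_lit 1000), (nat_lit 406))], ((nat_lit 100), (nat_lit 91), (nat_lit 34))⟩, (nat_lit 1542736), (nat_lit 346), (nat_lit 346), (nat_lit 0), (nat_lit 107808), [(nat_lit 509952000), (nat_lit 629888000), (nat_lit 759808000)], [], [(nat_lit 4008432540), (nat_lit 1316424000), (nat_lit 2226967365), (nat_lit 1193685392), (nat_lit 1918196093), (nat_lit 0), (nat_lit 2271178063), (nat_lit 0)], (nat_lit 1271251), (nat_lit 1271251), (nat_lit 490000), (nat_lit 780000), (nat_lit 0), (nat_lit 780000), [(nat_lit 1695001), (nat_lit 1271251), (nat_lit 1271251)], [(nat_lit 27), (nat_lit 62), (nat_lit 345), (nat_lit 125), (nat_lit 9)]⟩,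
 ⟨⟨[(nat_lit 140), (nat_lit 160), (nat_lit 180)], [(nat_lit 0), (nat_lit 304), (nat_lit 1085)], [((nat_lit 0), (nat_lit 0), (nat_lit 0)), ((nat_lit 913), (nat_lit 1000), (nat_lit 217)), ((nat_lit 759), (nat_lit 1000), (nat_lit 463))], ((nat_lit 100), (nat_lit 83), (nat_lit 36))⟩, (nat_lit 131369), (nat_lit 300), (nat_lit 648), (nat_lit 4499200), (nat_lit 630265), [(nat_lit 629888000), (nat_lit 759808000), (nat_lit 899712000)], [], [(nat_lit 3480322924), (nat_lit 3423205600), (nat_lit 3541933273), (nat_lit 3485618485), (nat_lit 2858612106), (nat_lit 2804558978), (nat_lit 2908065744), (nat_lit 2849830786)], (nat_lit 936250), (nat_lit 1100000), (nat_lit 1271251), (nat_lit 1271251), (nat_lit 0), (nat_lit 780000), [(nat_lit 1977501), (nat_lit 1271251), (nat_lit 1271251)], [(nat_lit 31), (nat_lit 65), (nat_lit 401), (nat_lit 175), (nat_lit 9)]⟩⟩) (.leaf ⟨(nat_lit 0), (nat_lit 0), (nat_lit 0), (nat_lit 1000), (nat_lit 0), (nat_lit 5401), (nat_lit 13163), (nat_lit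 10637), (nat_lit 0), (nat_lit 0), (nat_lit 0), [], Pd.none, Pd.none, (nat_lit 0), (nat_lit 1), (nat_lit 0), (nat_lit 0), (nat_lit 0), (nat_lit 0), [], [], [], [],
 ⟨⟨[(nat_lit 60), (nat_lit 80), (nat_lit 100)], [(nat_lit 0), (nat_lit 304), (nat_lit 825)], [((nat_lit 0), (nat_lit 0), (nat_lit 0)), ((nat_lit 1000), (nat_lit 905), (nat_lit 238)), ((nat_lit 1000), (nat_lit 871), (nat_lit 407))], ((nat_lit 88), (nat_lit 100), (nat_lit 35))⟩, (nat_lit 5847335), (nat_lit 127), (nat_lit 127), (nat_lit 0), (nat_lit 109536), [(nat_lit 3282000018), (nat_lit 4688000068), (nat_lit 6250000000)], [], [(nat_lit 20800713907), (nat_lit 22122872800), (nat_lit 20960889232), (nat_lit 22097616981), (nat_lit 26202376272), (nat_lit 27441326620), (nat_lit 25971336623), (nat_lit 27149310399)], (nat_lit 1271251), (nat_lit 1271251), (nat_lit 490000), (nat_lit 780000), (nat_lit 1271251), (nat_lit 1271251), [(nat_lit 780000), (nat_lit 1100000), (nat_lit 1442501)], [(nat_lit 9), (nat_lit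 50), (nat_lit 238), (nat_lit 30), (nat_lit 8)]⟩,
 ⟨⟨[(nat_lit 120), (nat_lit 140), (nat_lit 160)], [(nat_lit 0), (nat_lit 266), (nat_lit 862)], [((nat_lit 0), (nat_lit 0), (nat_lit 0)), ((nat_lit 960), (nat_lit 1000), (nat_lit 200)), ((nat_lit 874), (nat_lit 1000), (nat_lit 406))], ((nat_lit 100), (nat_lit 91), (nat_lit 34))⟩, (nat_lit 10320989), (nat_lit 240), (nat_lit 240), (nat_lit 0), (nat_lit 187132), [(nat_lit 7968000000), (nat_lit 9842000000), (nat_lit 11872000000)], [], [(nat_lit 33913534605), (nat_lit 15971713230), (nat_lit 37219195746), (nat_lit 17673700561), (nat_lit 65499896218), (nat_lit 47137985086), (nat_lit 69767353089), (nat_lit 51644394832)], (nat_lit 1271251), (nat_lit 1271251), (nat_lit 490000), (nat_lit 780000), (nat_lit 780000), (nat_lit 2581251), [(nat_lit 1695001), (nat_lit 1271251), (nat_lit 1271251)], [(nat_lit 27), (nat_lit 62), (nat_lit 401), (nat_lit 175), (nat_lit 10)]⟩,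
 ⟨⟨[(nat_lit 140), (nat_lit 160), (nat_lit 180)], [(nat_lit 0), (nat_lit 304), (nat_lit 1085)], [((nat_lit 0), (nat_lit 0), (nat_lit 0)), ((nat_lit 913), (nat_lit 1000), (nat_lit 217)), ((nat_lit 759), (nat_lit 1000), (nat_lit 463))], ((nat_lit 100), (nat_lit 83), (nat_lit 36))⟩, (nat_lit 2052632), (nat_lit 300), (nat_lit 704), (nat_lit 70300000), (nat_lit 966281), [(nat_lit 9842000000), (nat_lit 11872000000), (nat_lit 14058000000)], [], [(nat_lit 49784660487), (nat_lit 49057638223), (nat_lit 49788461916), (nat_lit 49049950945), (nat_lit 45985463420), (nat_lit 45218106214), (nat_lit 46028568260), (nat_lit 45222212637)], (nat_lit 936250), (nat_lit 1100000), (nat_lit 1271251), (nat_lit 1271251), (nat_lit 780000), (nat_lit 2581251), [(nat_lit 1977501), (nat_lit 1271251), (nat_lit 1271251)], [(nat_lit 31), (nat_lit 65), (nat_lit 456), (nat_lit 225), (nat_lit 10)]⟩⟩))) (.spl (nat_lit 0) (nat_lit 310) (.dle (nat_lit 0)) (.leaf ⟨(nat_lit 911), (nat_lit 44),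 (nat_lit 0), (nat_lit 45), (nat_lit 13991), (nat_lit 3789), (nat_lit 2355), (nat_lit 577), (nat_lit 0), (nat_lit 0), (nat_lit 342800), [((nat_lit 320), [((nat_lit 15), (nat_lit 0), (nat_lit 144)), ((nat_lit 15), (nat_lit 1), (nat_lit 767))])], ⟨(nat_lit 4), false, false, false, (nat_lit 135), (nat_lit 4472), (nat_lit 4744), [(nat_lit 1269411), (nat_lit 1274498), (nat_lit 1333872), (nat_lit 1339193), (nat_lit 1339111), (nat_lit 1342476), (nat_lit 1403571), (nat_lit 1407171)]⟩, ⟨(nat_lit 7), false, false, true, (nat_lit 253), (nat_lit 4472), (nat_lit 4744), [(nat_lit 1553445), (nat_lit 1549689), (nat_lit 1596422), (nat_lit 1592822), (nat_lit 1675420), (nat_lit 1668651), (nat_lit 1718396), (nat_lit 1711784)]⟩, (nat_lit 4666217), (nat_lit 42352093), (nat_lit 6673351), (nat_lit 17974556), (nat_lit 7), (nat_lit 0), [], [⟨(nat_lit 1), (nat_lit 83), (nat_lit 86), (nat_lit 100), (nat_lit 235979517)⟩], [], [],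
 ⟨⟨[(nat_lit 60), (nat_lit 80), (nat_lit 100)], [(nat_lit 0), (nat_lit 456), (nat_lit 976)], [((nat_lit 0), (nat_lit 0), (nat_lit 0)), ((nat_lit 1000), (nat_lit 859), (nat_lit 351)), ((nat_lit 1000), (nat_lit 848), (nat_lit 406))], ((nat_lit 84), (nat_lit 100), (nat_lit 44))⟩, (nat_lit 2092011), (nat_lit 104), (nat_lit 104), (nat_lit 0), (nat_lit 30933), [(nat_lit 2115562220), (nat_lit 2483488927), (nat_lit 2732970000)], [(nat_lit 0), (nat_lit 0), (nat_lit 0)], [(nat_lit 21220787272), (nat_lit 21699181806), (nat_lit 21526912802), (nat_lit 22042350771), (nat_lit 24935520983), (nat_lit 25381891233), (nat_lit 25126099382), (nat_lit 25551526254)], (nat_lit 1271251), (nat_lit 1271251), (nat_lit 490000), (nat_lit 780000), (nat_lit 1271251), (nat_lit 1271251), [(nat_lit 780000), (nat_lit 1100000), (nat_lit 1442501)], [(nat_lit 9), (nat_lit 50), (nat_lit 238), (nat_lit 30), (nat_lit 8)]⟩,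
 ⟨⟨[(nat_lit 120), (nat_lit 140), (nat_lit 160)], [(nat_lit 0), (nat_lit 266), (nat_lit 862)], [((nat_lit 0), (nat_lit 0), (nat_lit 0)), ((nat_lit 960), (nat_lit 1000), (nat_lit 200)), ((nat_lit 874), (nat_lit 1000), (nat_lit 406))], ((nat_lit 100), (nat_lit 86), (nat_lit 44))⟩, (nat_lit 2117260), (nat_lit 321), (nat_lit 321), (nat_lit 0), (nat_lit 59508), [(nat_lit 709152000), (nat_lit 875938000), (nat_lit 1056608000)], [], [(nat_lit 5551277550), (nat_lit 1843862280), (nat_lit 3097856213), (nat_lit 1651265062), (nat_lit 5917818514), (nat_lit 3251551885), (nat_lit 6577015434), (nat_lit 3334626412)], (nat_lit 1271251), (nat_lit 1271251), (nat_lit 490000), (nat_lit 780000), (nat_lit 0), (nat_lit 2401251), [(nat_lit 1695001), (nat_lit 1271251), (nat_lit 1271251)], [(nat_lit 27), (nat_lit 62), (nat_lit 401), (nat_lit 175), (nat_lit 11)]⟩,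
 ⟨⟨[(nat_lit 140), (nat_lit 160), (nat_lit 180)], [(nat_lit 0), (nat_lit 0), (nat_lit 799)], [((nat_lit 0), (nat_lit 0), (nat_lit 0)), ((nat_lit 0), (nat_lit 0), (nat_lit 0)), ((nat_lit 728), (nat_lit 1000), (nat_lit 454))], ((nat_lit 100), (nat_lit 71), (nat_lit 48))⟩, (nat_lit 39537), (nat_lit 300), (nat_lit 553), (nat_lit 3339000), (nat_lit 381528), [(nat_lit 442890000), (nat_lit 534240000), (nat_lit 632610000)], [], [(nat_lit 2555606816), (nat_lit 2471647328), (nat_lit 2601523296), (nat_lit 2511600597), (nat_lit 1929997673), (nat_lit 2201971421), (nat_lit 1983954411), (nat_lit 1895512615)], (nat_lit 780000), (nat_lit 1100000), (nat_lit 1271251), (nat_lit 1271251), (nat_lit 0), (nat_lit 2401251), [(nat_lit 1977501), (nat_lit 1271251), (nat_lit 1271251)], [(nat_lit 31), (nat_lit 65), (nat_lit 456), (nat_lit 225), (nat_lit 11)]⟩⟩)))) (.spl (nat_lit 6) (nat_lit 12) (.spl (nat_lit 0) (nat_lit 310) (.leaf ⟨(nat_lit 0), (nat_lit 0), (nat_lit 357), (nat_lit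 643), (nat_lit 43834), (nat_lit 5398), (nat_lit 6240), (nat_lit 12061), (nat_lit 0), (nat_lit 0), (nat_lit 0), [], Pd.none, Pd.none, (nat_lit 0), (nat_lit 1), (nat_lit 0), (nat_lit 0), (nat_lit 0), (nat_lit 4), [], [], [], [],
 ⟨⟨[(nat_lit 60), (nat_lit 80), (nat_lit 100)], [(nat_lit 0), (nat_lit 304), (nat_lit 825)], [((nat_lit 0), (nat_lit 0), (nat_lit 0)), ((nat_lit 1000), (nat_lit 905), (nat_lit 238)), ((nat_lit 1000), (nat_lit 871), (nat_lit 407))], ((nat_lit 88), (nat_lit 100), (nat_lit 35))⟩, (nat_lit 9583063), (nat_lit 116), (nat_lit 116), (nat_lit 0), (nat_lit 45228), [(nat_lit 3282000005), (nat_lit 5149515430), (nat_lit 6250000000)], [], [(nat_lit 20690486177), (nat_lit 21330844720), (nat_lit 20890904563), (nat_lit 21496370508), (nat_lit 27993687747), (nat_lit 28563873002), (nat_lit 27673382335), (nat_lit 28216265139)], (nat_lit 1271251), (nat_lit 1271251), (nat_lit 490000), (nat_lit 780000), (nat_lit 1271251), (nat_lit 1271251), [(nat_lit 780000),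 (nat_lit 1100000), (nat_lit 1442501)], [(nat_lit 9), (nat_lit 50), (nat_lit 238), (nat_lit 30), (nat_lit 8)]⟩,
 ⟨⟨[(nat_lit 120), (nat_lit 140), (nat_lit 160)], [(nat_lit 0), (nat_lit 266), (nat_lit 862)], [((nat_lit 0), (nat_lit 0), (nat_lit 0)), ((nat_lit 960), (nat_lit 1000), (nat_lit 200)), ((nat_lit 874), (nat_lit 1000), (nat_lit 406))], ((nat_lit 100), (nat_lit 91), (nat_lit 34))⟩, (nat_lit 10160182), (nat_lit 327), (nat_lit 327), (nat_lit 0), (nat_lit 71936), [(nat_lit 5123424000), (nat_lit 6328406000), (nat_lit 7633696000)], [], [(nat_lit 29341494840), (nat_lit 19518025080), (nat_lit 22840709640), (nat_lit 19236897124), (nat_lit 33688226648), (nat_lit 24983651288), (nat_lit 35907215428), (nat_lit 27315917128)], (nat_lit 1271251), (nat_lit 1271251), (nat_lit 490000), (nat_lit 780000), (nat_lit 0), (nat_lit 2401251), [(nat_lit 1695001), (nat_lit 1271251), (nat_lit 1271251)], [(nat_lit 27), (nat_lit 62), (nat_lit 401), (nat_lit 175), (nat_lit 11)]⟩,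
 ⟨⟨[(nat_lit 120), (nat_lit 140), (nat_lit 160)], [(nat_lit 0), (nat_lit 0), (nat_lit 609)], [((nat_lit 0), (nat_lit 0), (nat_lit 0)), ((nat_lit 0), (nat_lit 0), (nat_lit 0)), ((nat_lit 840), (nat_lit 1000), (nat_lit 400))], ((nat_lit 100), (nat_lit 87), (nat_lit 35))⟩, (nat_lit 1654740), (nat_lit 300), (nat_lit 409), (nat_lit 70300000), (nat_lit 284706), [(nat_lit 7968000000), (nat_lit 9842000000), (nat_lit 11872000000)], [], [(nat_lit 43051889649), (nat_lit 43116654778), (nat_lit 48655002607), (nat_lit 48466801701), (nat_lit 36922456540), (nat_lit 40610917898), (nat_lit 38236676869), (nat_lit 37997452884)], (nat_lit 1100000), (nat_lit 1271251), (nat_lit 1271251), (nat_lit 1271251), (nat_lit 0), (nat_lit 2401251), [(nat_lit 1695001), (nat_lit 1271251), (nat_lit 1271251)], [(nat_lit 27), (nat_lit 62), (nat_lit 456), (nat_lit 225), (nat_lit 12)]⟩⟩) (.trX (nat_lit 4) (nat_lit 0) (nat_lit 2) (nat_lit 84) (nat_lit 63) (nat_lit 100) (nat_lit 360) (.leaf ⟨(nat_lit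 917), (nat_lit 0), (nat_lit 0), (nat_lit 83), (nat_lit 1749), (nat_lit 3723), (nat_lit 1224), (nat_lit 989), (nat_lit 0), (nat_lit 0), (nat_lit 366800), [((nat_lit 320), [((nat_lit 15), (nat_lit 1), (nat_lit 917))])], ⟨(nat_lit 4), false, false, false, (nat_lit 135), (nat_lit 4472), (nat_lit 4744), [(nat_lit 1269411), (nat_lit 1274498), (nat_lit 1333872), (nat_lit 1339193), (nat_lit 1339111), (nat_lit 1342476), (nat_lit 1403571), (nat_lit 1407171)]⟩, ⟨(nat_lit 7), false, false, true, (nat_lit 270), (nat_lit 4472), (nat_lit 4744), [(nat_lit 1596422), (nat_lit 1592822), (nat_lit 1617910), (nat_lit 1614388), (nat_lit 1735821), (nat_lit 1728778), (nat_lit 1757309), (nat_lit 1750345)]⟩, (nat_lit 4741932), (nat_lit 40950788), (nat_lit 6538723), (nat_lit 19510489), (nat_lit 0), (nat_lit 0), [], [⟨(nat_lit 1), (nat_lit 70), (nat_lit 83), (nat_lit 100), (nat_lit 169321970)⟩], [], [⟨(nat_lit 0), (nat_lit 92), (nat_lit 100), (nat_lit 14), (nat_lit 56769203)⟩],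
 ⟨⟨[(nat_lit 60), (nat_lit 80)], [(nat_lit 0), (nat_lit 456)], [((nat_lit 0), (nat_lit 0), (nat_lit 0)), ((nat_lit 1000), (nat_lit 859), (nat_lit 351))], ((nat_lit 86), (nat_lit 100), (nat_lit 35))⟩, (nat_lit 1408341), (nat_lit 107), (nat_lit 107), (nat_lit 0), (nat_lit 94748), [(nat_lit 2105507522), (nat_lit 2388530800)], [(nat_lit 0), (nat_lit 0)], [(nat_lit 21454029668), (nat_lit 21962401806), (nat_lit 21801222797), (nat_lit 22284554231), (nat_lit 25561788509), (nat_lit 25992372708), (nat_lit 25735885080), (nat_lit 26146012697)], (nat_lit 1271251), (nat_lit 1271251), (nat_lit 490000), (nat_lit 780000), (nat_lit 1271251), (nat_lit 1271251), [(nat_lit 780000), (nat_lit 1100000)], [(nat_lit 8), (nat_lit 44), (nat_lit 238), (nat_lit 30), (nat_lit 9)]⟩,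
 ⟨⟨[(nat_lit 120), (nat_lit 140), (nat_lit 160)], [(nat_lit 0), (nat_lit 266), (nat_lit 862)], [((nat_lit 0), (nat_lit 0), (nat_lit 0)), ((nat_lit 960), (nat_lit 1000), (nat_lit 200)), ((nat_lit 874), (nat_lit 1000), (nat_lit 406))], ((nat_lit 100), (nat_lit 91), (nat_lit 34))⟩, (nat_lit 810293), (nat_lit 375), (nat_lit 375), (nat_lit 0), (nat_lit 164753), [(nat_lit 661344000), (nat_lit 816886000), (nat_lit 985376000)], [], [(nat_lit 4205636232), (nat_lit 2278777084), (nat_lit 2930482212), (nat_lit 2153582248), (nat_lit 4700741512), (nat_lit 2993305576), (nat_lit 5085977465), (nat_lit 3400761260)], (nat_lit 1271251), (nat_lit 1271251), (nat_lit 490000), (nat_lit 780000), (nat_lit 0), (nat_lit 2401251), [(nat_lit 1695001), (nat_lit 1271251), (nat_lit 1271251)], [(nat_lit 27), (nat_lit 62), (nat_lit 401), (nat_lit 175), (nat_lit 11)]⟩,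
 ⟨⟨[(nat_lit 120), (nat_lit 140), (nat_lit 160)], [(nat_lit 0), (nat_lit 0), (nat_lit 609)], [((nat_lit 0), (nat_lit 0), (nat_lit 0)), ((nat_lit 0), (nat_lit 0), (nat_lit 0)), ((nat_lit 840), (nat_lit 1000), (nat_lit 400))], ((nat_lit 100), (nat_lit 87), (nat_lit 35))⟩, (nat_lit 85045), (nat_lit 300), (nat_lit 567), (nat_lit 5834900), (nat_lit 634512), [(nat_lit 661344000), (nat_lit 816886000), (nat_lit 985376000)], [], [(nat_lit 3813713530), (nat_lit 3793713902), (nat_lit 4010306024), (nat_lit 3979043396), (nat_lit 3074309108), (nat_lit 3377447446), (nat_lit 3151983696), (nat_lit 3135056236)], (nat_lit 1100000), (nat_lit 1271251), (nat_lit 1271251), (nat_lit 1271251), (nat_lit 0), (nat_lit 2401251), [(nat_lit 1695001), (nat_lit 1271251), (nat_lit 1271251)], [(nat_lit 27), (nat_lit 62), (nat_lit 456), (nat_lit 225), (nat_lit 12)]⟩⟩))) (.dle (nat_lit 0)))))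
noncomputable def c3_15 : Tr Lf :=
 (.spl (nat_lit 1) (nat_lit 180) (.spl (nat_lit 6) (nat_lit 8) (.leaf ⟨(nat_lit 942), (nat_lit 0), (nat_lit 0), (nat_lit 58), (nat_lit 6960), (nat_lit 3673), (nat_lit 969), (nat_lit 711), (nat_lit 0), (nat_lit 991346534253), (nat_lit 785200), [((nat_lit 320), [((nat_lit 35), (nat_lit 2), (nat_lit 392)), ((nat_lit 15), (nat_lit 2), (nat_lit 550))])], ⟨(nat_lit 3), false, false, true, (nat_lit 151), (nat_lit 4472), (nat_lit 5000), [(nat_lit 1271427), (nat_lit 1277776), (nat_lit 1335713), (nat_lit 1342476), (nat_lit 1414284), (nat_lit 1413733), (nat_lit 1478570), (nat_lit 1478432)]⟩, ⟨(nat_lit 5), false, false, true, (nat_lit 238), (nat_lit 4472), (nat_lit 5000), [(nat_lit 1414284), (nat_lit 1413733), (nat_lit 1478570), (nat_lit 1478432), (nat_lit 1717856), (nat_lit 1702640), (nat_lit 1782131), (nat_lit 1767329)]⟩, (nat_lit 4734054), (nat_lit 42790028), (nat_lit 7910424), (nat_lit 16299548), (nat_lit 0), (nat_lit 0), [],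 [⟨(nat_lit 1), (nat_lit 77), (nat_lit 86), (nat_lit 100), (nat_lit 102911113)⟩], [], [],
 ⟨⟨[(nat_lit 60), (nat_lit 80)], [(nat_lit 0), (nat_lit 304)], [((nat_lit 0), (nat_lit 0), (nat_lit 0)), ((nat_lit 1000), (nat_lit 905), (nat_lit 238))], ((nat_lit 89), (nat_lit 100), (nat_lit 29))⟩, (nat_lit 556277), (nat_lit 100), (nat_lit 100), (nat_lit 0), (nat_lit 90887), [(nat_lit 2045946988), (nat_lit 1917347200)], [(nat_lit 0), (nat_lit 0)], [(nat_lit 18161622743), (nat_lit 19302379096), (nat_lit 19884287477), (nat_lit 20889668868), (nat_lit 25867714996), (nat_lit 26618436945), (nat_lit 26745781604), (nat_lit 27451398285)], (nat_lit 1271251), (nat_lit 1271251), (nat_lit 780000), (nat_lit 1435001), (nat_lit 1271251), (nat_lit 1271251), [(nat_lit 780000), (nat_lit 1100000)], [(nat_lit 8), (nat_lit 44), (nat_lit 260), (nat_lit 50), (nat_lit 11)]⟩,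
 ⟨⟨[(nat_lit 140), (nat_lit 160), (nat_lit 180)], [(nat_lit 0), (nat_lit 0), (nat_lit 799)], [((nat_lit 0), (nat_lit 0), (nat_lit 0)), ((nat_lit 0), (nat_lit 0), (nat_lit 0)), ((nat_lit 728), (nat_lit 1000), (nat_lit 454))], ((nat_lit 100), (nat_lit 84), (nat_lit 31))⟩, (nat_lit 455991), (nat_lit 761), (nat_lit 761), (nat_lit 0), (nat_lit 689926), [(nat_lit 570836000), (nat_lit 688576000), (nat_lit 815364000)], [], [(nat_lit 2551825528), (nat_lit 2433259648), (nat_lit 2611862806), (nat_lit 3191272324), (nat_lit 4161867380), (nat_lit 4888423908), (nat_lit 5130702364), (nat_lit 5889302753)], (nat_lit 780000), (nat_lit 1271251), (nat_lit 780000), (nat_lit 1435001), (nat_lit 0), (nat_lit 2825001), [(nat_lit 1977501), (nat_lit 1271251), (nat_lit 1271251)], [(nat_lit 31), (nat_lit 65), (nat_lit 428), (nat_lit 200), (nat_lit 10)]⟩,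
 ⟨⟨[(nat_lit 140), (nat_lit 160), (nat_lit 180)], [(nat_lit 0), (nat_lit 0), (nat_lit 799)], [((nat_lit 0), (nat_lit 0), (nat_lit 0)), ((nat_lit 0), (nat_lit 0), (nat_lit 0)), ((nat_lit 728), (nat_lit 1000), (nat_lit 454))], ((nat_lit 100), (nat_lit 84), (nat_lit 31))⟩, (nat_lit 50959), (nat_lit 300), (nat_lit 724), (nat_lit 4303600), (nat_lit 689926), [(nat_lit 570836000), (nat_lit 688576000), (nat_lit 815364000)], [], [(nat_lit 3423585380), (nat_lit 3284173113), (nat_lit 3429681746), (nat_lit 3282942434), (nat_lit 4090892652), (nat_lit 4677857767), (nat_lit 2778070378), (nat_lit 2636327249)], (nat_lit 780000), (nat_lit 1271251), (nat_lit 1271251), (nat_lit 1271251), (nat_lit 0), (nat_lit 2825001), [(nat_lit 1977501), (nat_lit 1271251), (nat_lit 1271251)], [(nat_lit 31), (nat_lit 65), (nat_lit 483), (nat_lit 250), (nat_lit 11)]⟩⟩) (.dle (nat_lit 0))) (.spl (nat_lit 2) (nat_lit 160) (.trX (nat_lit 4) (nat_lit 0) (nat_lit 2) (nat_lit 88) (nat_lit 68) (nat_lit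 100) (nat_lit 350) (.stt (nat_lit 1) (.leaf ⟨(nat_lit 970), (nat_lit 0), (nat_lit 0), (nat_lit 30), (nat_lit 3433), (nat_lit 3603), (nat_lit 478), (nat_lit 343), (nat_lit 0), (nat_lit 0), (nat_lit 317950), [((nat_lit 320), [((nat_lit 15), (nat_lit 0), (nat_lit 467)), ((nat_lit 15), (nat_lit 1), (nat_lit 503))])], ⟨(nat_lit 4), false, false, false, (nat_lit 176), (nat_lit 4472), (nat_lit 5000), [(nat_lit 1335713), (nat_lit 1342476), (nat_lit 1399984), (nat_lit 1407160), (nat_lit 1478570), (nat_lit 1478432), (nat_lit 1542832), (nat_lit 1543108)]⟩, ⟨(nat_lit 5), false, false, true, (nat_lit 226), (nat_lit 4472), (nat_lit 5000), [(nat_lit 1414284), (nat_lit 1413733), (nat_lit 1457141), (nat_lit 1456866), (nat_lit 1682141), (nat_lit 1668651), (nat_lit 1724998), (nat_lit 1711784)]⟩, (nat_lit 4902922), (nat_lit 42070467), (nat_lit 10021598), (nat_lit 14907935), (nat_lit 0), (nat_lit 0), [], [⟨(nat_lit 1), (nat_lit 81), (nat_lit 88), (nat_lit 100), (nat_lit 173076483)⟩],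 [], [⟨(nat_lit 0), (nat_lit 95), (nat_lit 100), (nat_lit 19), (nat_lit 1185038)⟩],
 ⟨⟨[(nat_lit 60), (nat_lit 80), (nat_lit 100)], [(nat_lit 0), (nat_lit 304), (nat_lit 825)], [((nat_lit 0), (nat_lit 0), (nat_lit 0)), ((nat_lit 1000), (nat_lit 905), (nat_lit 238)), ((nat_lit 1000), (nat_lit 871), (nat_lit 407))], ((nat_lit 87), (nat_lit 100), (nat_lit 44))⟩, (nat_lit 0), (nat_lit 69), (nat_lit 69), (nat_lit 0), (nat_lit 0), [(nat_lit 2103818443), (nat_lit 90626419569), (nat_lit 2630160800)], [(nat_lit 0), (nat_lit 0), (nat_lit 0)], [(nat_lit 16650198479), (nat_lit 17988471809), (nat_lit 18593133442), (nat_lit 19769148556), (nat_lit 24309264000), (nat_lit 25225723245), (nat_lit 25376574156), (nat_lit 26192036142)], (nat_lit 0), (nat_lit 0), (nat_lit 0), (nat_lit 0), (nat_lit 0), (nat_lit 0), [], [(nat_lit 9), (nat_lit 50), (nat_lit 260), (nat_lit 50), (nat_lit 9)]⟩,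
 ⟨⟨[(nat_lit 120), (nat_lit 140), (nat_lit 160)], [(nat_lit 0), (nat_lit 266), (nat_lit 862)], [((nat_lit 0), (nat_lit 0), (nat_lit 0)), ((nat_lit 960), (nat_lit 1000), (nat_lit 200)), ((nat_lit 874), (nat_lit 1000), (nat_lit 406))], ((nat_lit 100), (nat_lit 86), (nat_lit 44))⟩, (nat_lit 703801), (nat_lit 524), (nat_lit 524), (nat_lit 0), (nat_lit 452214), [(nat_lit 239040000), (nat_lit 295260000), (nat_lit 356160000)], [], [(nat_lit 1057692349), (nat_lit 565871806), (nat_lit 1328521469), (nat_lit 608606864), (nat_lit 2079600419), (nat_lit 1434326948), (nat_lit 2555606632), (nat_lit 1926559588)], (nat_lit 1271251), (nat_lit 1271251), (nat_lit 780000), (nat_lit 1435001), (nat_lit 0), (nat_lit 2825001), [(nat_lit 1695001), (nat_lit 1271251), (nat_lit 1271251)], [(nat_lit 27), (nat_lit 62), (nat_lit 456), (nat_lit 225), (nat_lit 12)]⟩,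
 ⟨⟨[(nat_lit 140), (nat_lit 160), (nat_lit 180)], [(nat_lit 0), (nat_lit 0), (nat_lit 799)], [((nat_lit 0), (nat_lit 0), (nat_lit 0)), ((nat_lit 0), (nat_lit 0), (nat_lit 0)), ((nat_lit 728), (nat_lit 1000), (nat_lit 454))], ((nat_lit 100), (nat_lit 71), (nat_lit 48))⟩, (nat_lit 26358), (nat_lit 300), (nat_lit 1157), (nat_lit 2226000), (nat_lit 1656728), [(nat_lit 295260000), (nat_lit 356160000), (nat_lit 421740000)], [], [(nat_lit 1847874994), (nat_lit 1795908032), (nat_lit 1796916900), (nat_lit 1743000495), (nat_lit 2080748332), (nat_lit 2259153386), (nat_lit 1429858600), (nat_lit 1375269010)], (nat_lit 780000), (nat_lit 1100000), (nat_lit 1271251), (nat_lit 1271251), (nat_lit 0), (nat_lit 2825001), [(nat_lit 1977501), (nat_lit 1271251), (nat_lit 1271251)], [(nat_lit 31), (nat_lit 65), (nat_lit 483), (nat_lit 250), (nat_lit 11)]⟩⟩) (.spl (nat_lit 2) (nat_lit 140) (.trX (nat_lit 4) (nat_lit 0) (nat_lit 2) (nat_lit 91) (nat_lit 77) (nat_lit 100) (nat_lit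 340) (.leaf ⟨(nat_lit 888), (nat_lit 18), (nat_lit 0), (nat_lit 94), (nat_lit 3099), (nat_lit 3971), (nat_lit 1669), (nat_lit 1090), (nat_lit 0), (nat_lit 0), (nat_lit 609600), [((nat_lit 320), [((nat_lit 35), (nat_lit 2), (nat_lit 696)), ((nat_lit 15), (nat_lit 2), (nat_lit 192))])], ⟨(nat_lit 4), false, false, false, (nat_lit 176), (nat_lit 4472), (nat_lit 5000), [(nat_lit 1335713), (nat_lit 1342476), (nat_lit 1399984), (nat_lit 1407160), (nat_lit 1478570), (nat_lit 1478432), (nat_lit 1542832), (nat_lit 1543108)]⟩, ⟨(nat_lit 5), false, false, true, (nat_lit 219), (nat_lit 4472), (nat_lit 5000), [(nat_lit 1414284), (nat_lit 1413733), (nat_lit 1435713), (nat_lit 1435299), (nat_lit 1664284), (nat_lit 1651656), (nat_lit 1685713), (nat_lit 1673223)]⟩, (nat_lit 4852788), (nat_lit 42677576), (nat_lit 10107564), (nat_lit 14214860), (nat_lit 5), (nat_lit 0), [], [⟨(nat_lit 1), (nat_lit 86), (nat_lit 89), (nat_lit 100), (nat_lit 78254886)⟩], [], [],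
 ⟨⟨[(nat_lit 60), (nat_lit 80), (nat_lit 100)], [(nat_lit 0), (nat_lit 304), (nat_lit 825)], [((nat_lit 0), (nat_lit 0), (nat_lit 0)), ((nat_lit 1000), (nat_lit 905), (nat_lit 238)), ((nat_lit 1000), (nat_lit 871), (nat_lit 407))], ((nat_lit 87), (nat_lit 100), (nat_lit 44))⟩, (nat_lit 1093808), (nat_lit 142), (nat_lit 142), (nat_lit 0), (nat_lit 219641), [(nat_lit 2106715202), (nat_lit 2246949641), (nat_lit 2117392759)], [(nat_lit 0), (nat_lit 0), (nat_lit 0)], [(nat_lit 18248235531), (nat_lit 19348824145), (nat_lit 19803644510), (nat_lit 20772487012), (nat_lit 24091066992), (nat_lit 24935130331), (nat_lit 25064382295), (nat_lit 25838563509)], (nat_lit 1271251), (nat_lit 1271251), (nat_lit 780000), (nat_lit 1435001), (nat_lit 1271251), (nat_lit 1271251), [(nat_lit 780000), (nat_lit 1100000), (nat_lit 1442501)], [(nat_lit 9), (nat_lit 50), (nat_lit 260), (nat_lit 50), (nat_lit 9)]⟩,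
 ⟨⟨[(nat_lit 120), (nat_lit 140), (nat_lit 160)], [(nat_lit 0), (nat_lit 266), (nat_lit 862)], [((nat_lit 0), (nat_lit 0), (nat_lit 0)), ((nat_lit 960), (nat_lit 1000), (nat_lit 200)), ((nat_lit 874), (nat_lit 1000), (nat_lit 406))], ((nat_lit 100), (nat_lit 86), (nat_lit 44))⟩, (nat_lit 2245035), (nat_lit 384), (nat_lit 384), (nat_lit 0), (nat_lit 225843), [(nat_lit 892416000), (nat_lit 1102304000), (nat_lit 1329664000)], [], [(nat_lit 3953646120), (nat_lit 2221439538), (nat_lit 4917155632), (nat_lit 2403478904), (nat_lit 7602585857), (nat_lit 5349528486), (nat_lit 9283622056), (nat_lit 7087221394)], (nat_lit 1271251), (nat_lit 1271251), (nat_lit 780000), (nat_lit 1435001), (nat_lit 0), (nat_lit 2825001), [(nat_lit 1695001), (nat_lit 1271251), (nat_lit 1271251)], [(nat_lit 27), (nat_lit 62), (nat_lit 456), (nat_lit 225), (nat_lit 12)]⟩,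
 ⟨⟨[(nat_lit 140), (nat_lit 160), (nat_lit 180)], [(nat_lit 0), (nat_lit 0), (nat_lit 799)], [((nat_lit 0), (nat_lit 0), (nat_lit 0)), ((nat_lit 0), (nat_lit 0), (nat_lit 0)), ((nat_lit 728), (nat_lit 1000), (nat_lit 454))], ((nat_lit 100), (nat_lit 71), (nat_lit 48))⟩, (nat_lit 82588), (nat_lit 300), (nat_lit 800), (nat_lit 6974802), (nat_lit 871601), [(nat_lit 925148000), (nat_lit 1115968000), (nat_lit 1321452000)], [], [(nat_lit 5718637464), (nat_lit 5639092266), (nat_lit 5577534582), (nat_lit 5495128097), (nat_lit 6541402024), (nat_lit 6806259034), (nat_lit 4439812806), (nat_lit 4353591841)], (nat_lit 780000), (nat_lit 936250), (nat_lit 1271251), (nat_lit 1271251), (nat_lit 0), (nat_lit 2825001), [(nat_lit 1977501), (nat_lit 1271251), (nat_lit 1271251)], [(nat_lit 31), (nat_lit 65), (nat_lit 456), (nat_lit 225), (nat_lit 11)]⟩⟩)) (.leaf ⟨(nat_lit 867), (nat_lit 0), (nat_lit 0), (nat_lit 133), (nat_lit 4972), (nat_lit 3954), (nat_lit 2157), (nat_lit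 1460), (nat_lit 0), (nat_lit 0), (nat_lit 541800), [((nat_lit 320), [((nat_lit 35), (nat_lit 2), (nat_lit 813)), ((nat_lit 15), (nat_lit 2), (nat_lit 54))])], ⟨(nat_lit 4), false, false, false, (nat_lit 176), (nat_lit 4472), (nat_lit 5000), [(nat_lit 1335713), (nat_lit 1342476), (nat_lit 1399984), (nat_lit 1407160), (nat_lit 1478570), (nat_lit 1478432), (nat_lit 1542832), (nat_lit 1543108)]⟩, ⟨(nat_lit 5), false, false, true, (nat_lit 231), (nat_lit 4472), (nat_lit 5000), [(nat_lit 1435713), (nat_lit 1435299), (nat_lit 1457141), (nat_lit 1456866), (nat_lit 1703570), (nat_lit 1690217), (nat_lit 1724998), (nat_lit 1711784)]⟩, (nat_lit 4928995), (nat_lit 41735617), (nat_lit 9972921), (nat_lit 15291462), (nat_lit 0), (nat_lit 0), [], [⟨(nat_lit 1), (nat_lit 77), (nat_lit 86), (nat_lit 100), (nat_lit 42520311)⟩], [], [],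
 ⟨⟨[(nat_lit 60), (nat_lit 80), (nat_lit 100)], [(nat_lit 0), (nat_lit 304), (nat_lit 825)], [((nat_lit 0), (nat_lit 0), (nat_lit 0)), ((nat_lit 1000), (nat_lit 905), (nat_lit 238)), ((nat_lit 1000), (nat_lit 871), (nat_lit 407))], ((nat_lit 87), (nat_lit 100), (nat_lit 44))⟩, (nat_lit 1164618), (nat_lit 133), (nat_lit 133), (nat_lit 0), (nat_lit 176187), [(nat_lit 2130336952), (nat_lit 2357203865), (nat_lit 2348731135)], [(nat_lit 0), (nat_lit 0), (nat_lit 0)], [(nat_lit 18476090187), (nat_lit 19574607653), (nat_lit 20032809620), (nat_lit 20999984511), (nat_lit 24834993011), (nat_lit 25601239981), (nat_lit 25700135467), (nat_lit 26434299263)], (nat_lit 1271251), (nat_lit 1271251), (nat_lit 780000), (nat_lit 1435001), (nat_lit 1271251), (nat_lit 1271251), [(nat_lit 780000), (nat_lit 1100000), (nat_lit 1442501)], [(nat_lit 9), (nat_lit 50), (nat_lit 260), (nat_lit 50), (nat_lit 9)]⟩,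
 ⟨⟨[(nat_lit 120), (nat_lit 140), (nat_lit 160)], [(nat_lit 0), (nat_lit 266), (nat_lit 862)], [((nat_lit 0), (nat_lit 0), (nat_lit 0)), ((nat_lit 960), (nat_lit 1000), (nat_lit 200)), ((nat_lit 874), (nat_lit 1000), (nat_lit 406))], ((nat_lit 100), (nat_lit 86), (nat_lit 44))⟩, (nat_lit 2176487), (nat_lit 366), (nat_lit 366), (nat_lit 0), (nat_lit 189094), [(nat_lit 1059744000), (nat_lit 1308986000), (nat_lit 1578976000)], [], [(nat_lit 4687487564), (nat_lit 2757473540), (nat_lit 5903759852), (nat_lit 2944965970), (nat_lit 9272414277), (nat_lit 6360583990), (nat_lit 11414190588), (nat_lit 8575582902)], (nat_lit 1271251), (nat_lit 1271251), (nat_lit 780000), (nat_lit 1435001), (nat_lit 0), (nat_lit 2825001), [(nat_lit 1695001), (nat_lit 1271251), (nat_lit 1271251)], [(nat_lit 27), (nat_lit 62), (nat_lit 456), (nat_lit 225), (nat_lit 12)]⟩,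
 ⟨⟨[(nat_lit 140), (nat_lit 160), (nat_lit 180)], [(nat_lit 0), (nat_lit 304), (nat_lit 1085)], [((nat_lit 0), (nat_lit 0), (nat_lit 0)), ((nat_lit 913), (nat_lit 1000), (nat_lit 217)), ((nat_lit 759), (nat_lit 1000), (nat_lit 463))], ((nat_lit 100), (nat_lit 76), (nat_lit 46))⟩, (nat_lit 273000), (nat_lit 300), (nat_lit 621), (nat_lit 9349900), (nat_lit 520516), [(nat_lit 1308986000), (nat_lit 1578976000), (nat_lit 1869714000)], [], [(nat_lit 7566741805), (nat_lit 7469872703), (nat_lit 7653835073), (nat_lit 7545166140), (nat_lit 9497566828), (nat_lit 9904551768), (nat_lit 6123122928), (nat_lit 6008492053)], (nat_lit 936250), (nat_lit 1100000), (nat_lit 1271251), (nat_lit 1271251), (nat_lit 0), (nat_lit 2825001), [(nat_lit 1977501), (nat_lit 1271251), (nat_lit 1271251)], [(nat_lit 31), (nat_lit 65), (nat_lit 483), (nat_lit 250), (nat_lit 11)]⟩⟩)))) (.spl (nat_lit 6) (nat_lit 12) (.leaf ⟨(nat_lit 665), (nat_lit 0), (nat_lit 0), (nat_lit 335), (nat_lit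 8652), (nat_lit 4864), (nat_lit 4994), (nat_lit 3920), (nat_lit 0), (nat_lit 0), (nat_lit 258350), [((nat_lit 320), [((nat_lit 15), (nat_lit 0), (nat_lit 51)), ((nat_lit 15), (nat_lit 1), (nat_lit 614))])], ⟨(nat_lit 4), false, false, false, (nat_lit 176), (nat_lit 4472), (nat_lit 5000), [(nat_lit 1335713), (nat_lit 1342476), (nat_lit 1399984), (nat_lit 1407160), (nat_lit 1478570), (nat_lit 1478432), (nat_lit 1542832), (nat_lit 1543108)]⟩, ⟨(nat_lit 5), false, false, true, (nat_lit 246), (nat_lit 4472), (nat_lit 5000), [(nat_lit 1457141), (nat_lit 1456866), (nat_lit 1478570), (nat_lit 1478432), (nat_lit 1760711), (nat_lit 1745771), (nat_lit 1782131), (nat_lit 1767329)]⟩, (nat_lit 5013977), (nat_lit 40527683), (nat_lit 9790183), (nat_lit 16682134), (nat_lit 0), (nat_lit 0), [], [], [], [],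
 ⟨⟨[(nat_lit 60), (nat_lit 80), (nat_lit 100)], [(nat_lit 0), (nat_lit 304), (nat_lit 825)], [((nat_lit 0), (nat_lit 0), (nat_lit 0)), ((nat_lit 1000), (nat_lit 905), (nat_lit 238)), ((nat_lit 1000), (nat_lit 871), (nat_lit 407))], ((nat_lit 88), (nat_lit 100), (nat_lit 35))⟩, (nat_lit 3236254), (nat_lit 134), (nat_lit 134), (nat_lit 0), (nat_lit 151478), [(nat_lit 2365890186), (nat_lit 3028198142), (nat_lit 3670386858)], [(nat_lit 0), (nat_lit 0), (nat_lit 0)], [(nat_lit 16648044736), (nat_lit 17857429550), (nat_lit 18214525482), (nat_lit 19351774096), (nat_lit 27057576071), (nat_lit 28096371840), (nat_lit 27617296727), (nat_lit 28533539072)], (nat_lit 1271251), (nat_lit 1271251), (nat_lit 780000), (nat_lit 1435001), (nat_lit 1271251), (nat_lit 1271251), [(nat_lit 780000), (nat_lit 1100000), (nat_lit 1442501)], [(nat_lit 9), (nat_lit 50), (nat_lit 260), (nat_lit 50), (nat_lit 9)]⟩,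
 ⟨⟨[(nat_lit 120), (nat_lit 140), (nat_lit 160)], [(nat_lit 0), (nat_lit 266), (nat_lit 862)], [((nat_lit 0), (nat_lit 0), (nat_lit 0)), ((nat_lit 960), (nat_lit 1000), (nat_lit 200)), ((nat_lit 874), (nat_lit 1000), (nat_lit 406))], ((nat_lit 100), (nat_lit 91), (nat_lit 34))⟩, (nat_lit 6709172), (nat_lit 428), (nat_lit 428), (nat_lit 0), (nat_lit 311600), [(nat_lit 2669280000), (nat_lit 3297070000), (nat_lit 3977120000)], [], [(nat_lit 11825556827), (nat_lit 6645933524), (nat_lit 14708265907), (nat_lit 7186814992), (nat_lit 22742531757), (nat_lit 16000908924), (nat_lit 27772212236), (nat_lit 21200118224)], (nat_lit 1271251), (nat_lit 1271251), (nat_lit 780000), (nat_lit 1435001), (nat_lit 0), (nat_lit 2825001), [(nat_lit 1695001), (nat_lit 1271251), (nat_lit 1271251)], [(nat_lit 27), (nat_lit 62), (nat_lit 456), (nat_lit 225), (nat_lit 12)]⟩,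
 ⟨⟨[(nat_lit 120), (nat_lit 140), (nat_lit 160)], [(nat_lit 0), (nat_lit 0), (nat_lit 609)], [((nat_lit 0), (nat_lit 0), (nat_lit 0)), ((nat_lit 0), (nat_lit 0), (nat_lit 0)), ((nat_lit 840), (nat_lit 1000), (nat_lit 400))], ((nat_lit 100), (nat_lit 87), (nat_lit 35))⟩, (nat_lit 343251), (nat_lit 300), (nat_lit 580), (nat_lit 23550501), (nat_lit 634512), [(nat_lit 2669280000), (nat_lit 3297070000), (nat_lit 3977120000)], [], [(nat_lit 15292411030), (nat_lit 15252272498), (nat_lit 16435764160), (nat_lit 16307962494), (nat_lit 21398113280), (nat_lit 22593234580), (nat_lit 14506556020), (nat_lit 14451785219)], (nat_lit 1100000), (nat_lit 1271251), (nat_lit 1271251), (nat_lit 1271251), (nat_lit 0), (nat_lit 2825001), [(nat_lit 1695001), (nat_lit 1271251), (nat_lit 1271251)], [(nat_lit 27), (nat_lit 62), (nat_lit 483), (nat_lit 250), (nat_lit 12)]⟩⟩) (.dle (nat_lit 0)))))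
noncomputable def c3_16 : Tr Lf :=
 (.ord (.trZ (nat_lit 0) (nat_lit 1) (nat_lit 3) (nat_lit 100) (nat_lit 87) (nat_lit 41) (nat_lit 10) (.spl (nat_lit 5) (nat_lit 120) (.spl (nat_lit 1) (nat_lit 220) (.ord (.spl (nat_lit 6) (nat_lit 12) (.spl (nat_lit 0) (nat_lit 310) (.spl (nat_lit 6) (nat_lit 4) (.leaf ⟨(nat_lit 0), (nat_lit 0), (nat_lit 825), (nat_lit 175), (nat_lit 38126), (nat_lit 5491), (nat_lit 1012), (nat_lit 6892), (nat_lit 0), (nat_lit 125954), (nat_lit 0), [], Pd.none, Pd.none, (nat_lit 0), (nat_lit 1), (nat_lit 0), (nat_lit 0), (nat_lit 0), (nat_lit 4), [], [], [], [],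
 ⟨⟨[(nat_lit 60), (nat_lit 80)], [(nat_lit 0), (nat_lit 304)], [((nat_lit 0), (nat_lit 0), (nat_lit 0)), ((nat_lit 1000), (nat_lit 905), (nat_lit 238))], ((nat_lit 91), (nat_lit 100), (nat_lit 21))⟩, (nat_lit 6773097), (nat_lit 161), (nat_lit 161), (nat_lit 0), (nat_lit 62407), [(nat_lit 3282000012), (nat_lit 4688000000)], [], [(nat_lit 19634533460), (nat_lit 20327298019), (nat_lit 19794365477), (nat_lit 20364739492), (nat_lit 34075511734), (nat_lit 34610190410), (nat_lit 29699901186), (nat_lit 30140089396)], (nat_lit 1271251), (nat_lit 1271251), (nat_lit 54688), (nat_lit 1414376), (nat_lit 1271251), (nat_lit 1271251), [(nat_lit 780000), (nat_lit 1100000)], [(nat_lit 8), (nat_lit 44), (nat_lit 260), (nat_lit 50), (nat_lit 11)]⟩,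
 ⟨⟨[(nat_lit 120), (nat_lit 140)], [(nat_lit 0), (nat_lit 266)], [((nat_lit 0), (nat_lit 0), (nat_lit 0)), ((nat_lit 960), (nat_lit 1000), (nat_lit 200))], ((nat_lit 100), (nat_lit 96), (nat_lit 20))⟩, (nat_lit 2345182), (nat_lit 326), (nat_lit 326), (nat_lit 0), (nat_lit 92785), [(nat_lit 1394400000), (nat_lit 1722350000)], [], [(nat_lit 9202212688), (nat_lit 8111045699), (nat_lit 6995913506), (nat_lit 6686107026), (nat_lit 6286517106), (nat_lit 6457934346), (nat_lit 7700708450), (nat_lit 6726732326)], (nat_lit 1271251), (nat_lit 1271251), (nat_lit 54688), (nat_lit 1414376), (nat_lit 0), (nat_lit 780000), [(nat_lit 1695001), (nat_lit 1271251)], [(nat_lit 26), (nat_lit 58), (nat_lit 373), (nat_lit 150), (nat_lit 11)]⟩,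
 ⟨⟨[(nat_lit 120), (nat_lit 140)], [(nat_lit 0), (nat_lit 266)], [((nat_lit 0), (nat_lit 0), (nat_lit 0)), ((nat_lit 960), (nat_lit 1000), (nat_lit 200))], ((nat_lit 100), (nat_lit 96), (nat_lit 20))⟩, (nat_lit 12234678), (nat_lit 283), (nat_lit 283), (nat_lit 0), (nat_lit 92785), [(nat_lit 7968000000), (nat_lit 9842000000)], [], [(nat_lit 35776498146), (nat_lit 36012566304), (nat_lit 43132144393), (nat_lit 43401033239), (nat_lit 39977935650), (nat_lit 33344888766), (nat_lit 39023176929), (nat_lit 39245202062)], (nat_lit 1271251), (nat_lit 1271251), (nat_lit 1271251), (nat_lit 1271251), (nat_lit 0), (nat_lit 780000), [(nat_lit 1695001), (nat_lit 1271251)], [(nat_lit 26), (nat_lit 58), (nat_lit 428), (nat_lit 200), (nat_lit 12)]⟩⟩) (.dle (nat_lit 0))) (.trZ (nat_lit 0) (nat_lit 1) (nat_lit 3) (nat_lit 100) (nat_lit 84) (nat_lit 47) (nat_lit 20) (.trX (nat_lit 4) (nat_lit 0) (nat_lit 2) (nat_lit 84) (nat_lit 47) (nat_lit 100) (nat_lit 380) (.leaf ⟨(nat_lit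 0), (nat_lit 0), (nat_lit 903), (nat_lit 97), (nat_lit 0), (nat_lit 5490), (nat_lit 831), (nat_lit 10882), (nat_lit 0), (nat_lit 64038), (nat_lit 0), [], Pd.none, Pd.none, (nat_lit 0), (nat_lit 1), (nat_lit 0), (nat_lit 0), (nat_lit 0), (nat_lit 4), [], [], [], [],
 ⟨⟨[(nat_lit 60), (nat_lit 80)], [(nat_lit 0), (nat_lit 456)], [((nat_lit 0), (nat_lit 0), (nat_lit 0)), ((nat_lit 1000), (nat_lit 859), (nat_lit 351))], ((nat_lit 86), (nat_lit 100), (nat_lit 35))⟩, (nat_lit 4825741), (nat_lit 172), (nat_lit 172), (nat_lit 0), (nat_lit 137419), [(nat_lit 3282000003), (nat_lit 4688000000)], [], [(nat_lit 20060518148), (nat_lit 20815846300), (nat_lit 20367310606), (nat_lit 20937633309), (nat_lit 33101479675), (nat_lit 33661173210), (nat_lit 29399734312), (nat_lit 29859778905)], (nat_lit 1271251), (nat_lit 1271251), (nat_lit 111251), (nat_lit 1416250), (nat_lit 1271251), (nat_lit 1271251), [(nat_lit 780000), (nat_lit 1100000)], [(nat_lit 8), (nat_lit 44), (nat_lit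 260), (nat_lit 50), (nat_lit 11)]⟩,
 ⟨⟨[(nat_lit 120), (nat_lit 140), (nat_lit 160)], [(nat_lit 0), (nat_lit 266), (nat_lit 862)], [((nat_lit 0), (nat_lit 0), (nat_lit 0)), ((nat_lit 960), (nat_lit 1000), (nat_lit 200)), ((nat_lit 874), (nat_lit 1000), (nat_lit 406))], ((nat_lit 100), (nat_lit 91), (nat_lit 34))⟩, (nat_lit 2058086), (nat_lit 503), (nat_lit 503), (nat_lit 0), (nat_lit 220001), [(nat_lit 772896000), (nat_lit 954674000), (nat_lit 1151584000)], [], [(nat_lit 5654978241), (nat_lit 4762379119), (nat_lit 3962125111), (nat_lit 3127747096), (nat_lit 3292945835), (nat_lit 2963564462), (nat_lit 4395158983), (nat_lit 3595382146)], (nat_lit 1271251), (nat_lit 1271251), (nat_lit 111251), (nat_lit 1416250), (nat_lit 0), (nat_lit 780000), [(nat_lit 1695001), (nat_lit 1271251), (nat_lit 1271251)], [(nat_lit 27), (nat_lit 62), (nat_lit 373), (nat_lit 150), (nat_lit 10)]⟩,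
 ⟨⟨[(nat_lit 120), (nat_lit 140), (nat_lit 160)], [(nat_lit 0), (nat_lit 266), (nat_lit 862)], [((nat_lit 0), (nat_lit 0), (nat_lit 0)), ((nat_lit 960), (nat_lit 1000), (nat_lit 200)), ((nat_lit 874), (nat_lit 1000), (nat_lit 406))], ((nat_lit 100), (nat_lit 91), (nat_lit 34))⟩, (nat_lit 2910607), (nat_lit 300), (nat_lit 380), (nat_lit 66400000), (nat_lit 220001), [(nat_lit 7968000000), (nat_lit 9842000000), (nat_lit 11872000000)], [], [(nat_lit 41026678425), (nat_lit 41333933278), (nat_lit 48234957696), (nat_lit 47919429540), (nat_lit 39463774275), (nat_lit 33573253605), (nat_lit 39358621738), (nat_lit 39042609383)], (nat_lit 1271251), (nat_lit 1271251), (nat_lit 1271251), (nat_lit 1271251), (nat_lit 0), (nat_lit 780000), [(nat_lit 1695001), (nat_lit 1271251), (nat_lit 1271251)], [(nat_lit 27), (nat_lit 62), (nat_lit 428), (nat_lit 200), (nat_lit 11)]⟩⟩)))) (.dle (nat_lit 0)))) (.trZ (nat_lit 0) (nat_lit 1) (nat_lit 3) (nat_lit 100) (nat_lit 87) (nat_lit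 59) (nat_lit 30) (.spl (nat_lit 0) (nat_lit 310) (.spl (nat_lit 6) (nat_lit 12) (.leaf ⟨(nat_lit 0), (nat_lit 110), (nat_lit 252), (nat_lit 638), (nat_lit 33321), (nat_lit 5785), (nat_lit 9814), (nat_lit 11356), (nat_lit 0), (nat_lit 569538), (nat_lit 0), [], Pd.none, Pd.none, (nat_lit 0), (nat_lit 1), (nat_lit 0), (nat_lit 0), (nat_lit 5), (nat_lit 5), [⟨(nat_lit 0), (nat_lit 100), (nat_lit 86), (nat_lit 65), (nat_lit 313936602)⟩], [], [⟨(nat_lit 0), (nat_lit 100), (nat_lit 99), (nat_lit 20), (nat_lit 295071635)⟩], [],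
 ⟨⟨[(nat_lit 60), (nat_lit 80), (nat_lit 100)], [(nat_lit 0), (nat_lit 304), (nat_lit 825)], [((nat_lit 0), (nat_lit 0), (nat_lit 0)), ((nat_lit 1000), (nat_lit 905), (nat_lit 238)), ((nat_lit 1000), (nat_lit 871), (nat_lit 407))], ((nat_lit 88), (nat_lit 100), (nat_lit 35))⟩, (nat_lit 6066639), (nat_lit 209), (nat_lit 209), (nat_lit 0), (nat_lit 182851), [(nat_lit 3282000294), (nat_lit 4688000564), (nat_lit 6250000000)], [], [(nat_lit 18875222536), (nat_lit 19530079628), (nat_lit 19942736326), (nat_lit 19608836688), (nat_lit 33545939402), (nat_lit 34089722331), (nat_lit 30010292770), (nat_lit 30459006768)], (nat_lit 1271251), (nat_lit 1271251), (nat_lit 169688), (nat_lit 1418125), (nat_lit 1271251), (nat_lit 1271251), [(nat_lit 780000), (nat_lit 1100000), (nat_lit 1442501)], [(nat_lit 9), (nat_lit 50), (nat_lit 260), (nat_lit 50), (nat_lit 9)]⟩,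
 ⟨⟨[(nat_lit 100), (nat_lit 120), (nat_lit 140)], [(nat_lit 0), (nat_lit 254), (nat_lit 778)], [((nat_lit 0), (nat_lit 0), (nat_lit 0)), ((nat_lit 1000), (nat_lit 1000), (nat_lit 198)), ((nat_lit 960), (nat_lit 1000), (nat_lit 392))], ((nat_lit 100), (nat_lit 97), (nat_lit 34))⟩, (nat_lit 9037776), (nat_lit 361), (nat_lit 361), (nat_lit 0), (nat_lit 216689), [(nat_lit 4675000000), (nat_lit 5960064000), (nat_lit 7361816000)], [], [(nat_lit 19283137747), (nat_lit 17735685911), (nat_lit 30955085987), (nat_lit 26233389028), (nat_lit 23053073600), (nat_lit 18247105050), (nat_lit 36395749840), (nat_lit 31861620502)], (nat_lit 1271251), (nat_lit 1271251), (nat_lit 169688), (nat_lit 1418125), (nat_lit 0), (nat_lit 780000), [(nat_lit 1412501), (nat_lit 1271251), (nat_lit 1271251)], [(nat_lit 22), (nat_lit 58), (nat_lit 373), (nat_lit 150), (nat_lit 11)]⟩,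
 ⟨⟨[(nat_lit 120), (nat_lit 140), (nat_lit 160)], [(nat_lit 0), (nat_lit 266), (nat_lit 862)], [((nat_lit 0), (nat_lit 0), (nat_lit 0)), ((nat_lit 960), (nat_lit 1000), (nat_lit 200)), ((nat_lit 874), (nat_lit 1000), (nat_lit 406))], ((nat_lit 100), (nat_lit 91), (nat_lit 34))⟩, (nat_lit 1826844), (nat_lit 300), (nat_lit 389), (nat_lit 59096000), (nat_lit 234610), [(nat_lit 7091520000), (nat_lit 8759380000), (nat_lit 10566080000)], [], [(nat_lit 34706572638), (nat_lit 35349466920), (nat_lit 43382435754), (nat_lit 43473114442), (nat_lit 34907427290), (nat_lit 26687889016), (nat_lit 33524626063), (nat_lit 32780357293)], (nat_lit 1271251), (nat_lit 1271251), (nat_lit 1271251), (nat_lit 1271251), (nat_lit 0), (nat_lit 780000), [(nat_lit 1695001), (nat_lit 1271251), (nat_lit 1271251)], [(nat_lit 27), (nat_lit 62), (nat_lit 428), (nat_lit 200), (nat_lit 11)]⟩⟩) (.dle (nat_lit 0))) (.trZ (nat_lit 0) (nat_lit 1) (nat_lit 3) (nat_lit 100) (nat_lit 84) (nat_lit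 63) (nat_lit 40) (.leaf ⟨(nat_lit 0), (nat_lit 194), (nat_lit 178), (nat_lit 628), (nat_lit 9810), (nat_lit 5663), (nat_lit 12556), (nat_lit 10253), (nat_lit 0), (nat_lit 118244), (nat_lit 0), [], Pd.none, Pd.none, (nat_lit 0), (nat_lit 1), (nat_lit 0), (nat_lit 0), (nat_lit 5), (nat_lit 5), [⟨(nat_lit 0), (nat_lit 100), (nat_lit 83), (nat_lit 70), (nat_lit 226960061)⟩], [], [⟨(nat_lit 0), (nat_lit 100), (nat_lit 99), (nat_lit 20), (nat_lit 222057756)⟩], [],
 ⟨⟨[(nat_lit 60), (nat_lit 80), (nat_lit 100)], [(nat_lit 0), (nat_lit 456), (nat_lit 976)], [((nat_lit 0), (nat_lit 0), (nat_lit 0)), ((nat_lit 1000), (nat_lit 859), (nat_lit 351)), ((nat_lit 1000), (nat_lit 848), (nat_lit 406))], ((nat_lit 84), (nat_lit 100), (nat_lit 44))⟩, (nat_lit 4718813), (nat_lit 222), (nat_lit 222), (nat_lit 0), (nat_lit 245710), [(nat_lit 3282000013), (nat_lit 4756524990), (nat_lit 6250000000)], [], [(nat_lit 19262162351), (nat_lit 19896613981), (nat_lit 19922503264), (nat_lit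 20501702749), (nat_lit 33197699150), (nat_lit 33735113105), (nat_lit 30326666906), (nat_lit 30771842992)], (nat_lit 1271251), (nat_lit 1271251), (nat_lit 230000), (nat_lit 1420001), (nat_lit 1271251), (nat_lit 1271251), [(nat_lit 780000), (nat_lit 1100000), (nat_lit 1442501)], [(nat_lit 9), (nat_lit 50), (nat_lit 260), (nat_lit 50), (nat_lit 9)]⟩,
 ⟨⟨[(nat_lit 100), (nat_lit 120), (nat_lit 140)], [(nat_lit 0), (nat_lit 254), (nat_lit 778)], [((nat_lit 0), (nat_lit 0), (nat_lit 0)), ((nat_lit 1000), (nat_lit 1000), (nat_lit 198)), ((nat_lit 960), (nat_lit 1000), (nat_lit 392))], ((nat_lit 100), (nat_lit 94), (nat_lit 44))⟩, (nat_lit 9153043), (nat_lit 423), (nat_lit 423), (nat_lit 0), (nat_lit 313840), [(nat_lit 5137500000), (nat_lit 6549696000), (nat_lit 8090124000)], [], [(nat_lit 19385612570), (nat_lit 19883866106), (nat_lit 33692154990), (nat_lit 27651231104), (nat_lit 23920282692), (nat_lit 17793105364), (nat_lit 40231757775), (nat_lit 34430807300)],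 (nat_lit 1271251), (nat_lit 1271251), (nat_lit 230000), (nat_lit 1420001), (nat_lit 0), (nat_lit 780000), [(nat_lit 1412501), (nat_lit 1271251), (nat_lit 1271251)], [(nat_lit 22), (nat_lit 58), (nat_lit 373), (nat_lit 150), (nat_lit 11)]⟩,
 ⟨⟨[(nat_lit 120), (nat_lit 140), (nat_lit 160)], [(nat_lit 0), (nat_lit 266), (nat_lit 862)], [((nat_lit 0), (nat_lit 0), (nat_lit 0)), ((nat_lit 960), (nat_lit 1000), (nat_lit 200)), ((nat_lit 874), (nat_lit 1000), (nat_lit 406))], ((nat_lit 100), (nat_lit 86), (nat_lit 44))⟩, (nat_lit 1654422), (nat_lit 300), (nat_lit 432), (nat_lit 53518400), (nat_lit 347642), [(nat_lit 6422208000), (nat_lit 7932652000), (nat_lit 9568832000)], [], [(nat_lit 31449669508), (nat_lit 32033476136), (nat_lit 39252118919), (nat_lit 39337385880), (nat_lit 31616813924), (nat_lit 24217691491), (nat_lit 30398241264), (nat_lit 29729034102)], (nat_lit 1271251), (nat_lit 1271251), (nat_lit 1271251), (nat_lit 1271251), (nat_lit 0), (nat_lit 780000),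 [(nat_lit 1695001), (nat_lit 1271251), (nat_lit 1271251)], [(nat_lit 27), (nat_lit 62), (nat_lit 428), (nat_lit 200), (nat_lit 11)]⟩⟩))))) (.leaf ⟨(nat_lit 0), (nat_lit 0), (nat_lit 0), (nat_lit 1000), (nat_lit 13710), (nat_lit 6088), (nat_lit 9463), (nat_lit 9308), (nat_lit 0), (nat_lit 6641346833554), (nat_lit 0), [], Pd.none, Pd.none, (nat_lit 0), (nat_lit 1), (nat_lit 0), (nat_lit 0), (nat_lit 0), (nat_lit 0), [⟨(nat_lit 0), (nat_lit 100), (nat_lit 84), (nat_lit 59), (nat_lit 288560836)⟩], [], [], [],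
 ⟨⟨[(nat_lit 60), (nat_lit 80), (nat_lit 100)], [(nat_lit 0), (nat_lit 304), (nat_lit 825)], [((nat_lit 0), (nat_lit 0), (nat_lit 0)), ((nat_lit 1000), (nat_lit 905), (nat_lit 238)), ((nat_lit 1000), (nat_lit 871), (nat_lit 407))], ((nat_lit 87), (nat_lit 100), (nat_lit 44))⟩, (nat_lit 3827447), (nat_lit 243), (nat_lit 243), (nat_lit 0), (nat_lit 248859), [(nat_lit 3282000001), (nat_lit 4688000002), (nat_lit 6250000000)], [], [(nat_lit 20836594685), (nat_lit 22102216674), (nat_lit 21597664266), (nat_lit 20889468437), (nat_lit 35560683512), (nat_lit 36678610294), (nat_lit 30330186137), (nat_lit 31245187698)], (nat_lit 1271251), (nat_lit 1271251), (nat_lit 54688), (nat_lit 1414376), (nat_lit 1271251), (nat_lit 1271251), [(nat_lit 780000), (nat_lit 1100000), (nat_lit 1442501)], [(nat_lit 9), (nat_lit 50), (nat_lit 260), (nat_lit 50), (nat_lit 9)]⟩,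
 ⟨⟨[(nat_lit 120), (nat_lit 140), (nat_lit 160)], [(nat_lit 0), (nat_lit 266), (nat_lit 862)], [((nat_lit 0), (nat_lit 0), (nat_lit 0)), ((nat_lit 960), (nat_lit 1000), (nat_lit 200)), ((nat_lit 874), (nat_lit 1000), (nat_lit 406))], ((nat_lit 100), (nat_lit 86), (nat_lit 44))⟩, (nat_lit 10548449), (nat_lit 547), (nat_lit 547), (nat_lit 0), (nat_lit 524301), [(nat_lit 7968000000), (nat_lit 9842000000), (nat_lit 11872000000)], [], [(nat_lit 33770959953), (nat_lit 34104517010), (nat_lit 45636697663), (nat_lit 31975527611), (nat_lit 64263605916), (nat_lit 51019541247), (nat_lit 80271696172), (nat_lit 67818407098)], (nat_lit 1271251), (nat_lit 1271251), (nat_lit 54688), (nat_lit 1414376), (nat_lit 780000), (nat_lit 3072501), [(nat_lit 1695001), (nat_lit 1271251), (nat_lit 1271251)], [(nat_lit 27), (nat_lit 62), (nat_lit 456), (nat_lit 225), (nat_lit 12)]⟩,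
 ⟨⟨[(nat_lit 120), (nat_lit 140), (nat_lit 160)], [(nat_lit 0), (nat_lit 266), (nat_lit 862)], [((nat_lit 0), (nat_lit 0), (nat_lit 0)), ((nat_lit 960), (nat_lit 1000), (nat_lit 200)), ((nat_lit 874), (nat_lit 1000), (nat_lit 406))], ((nat_lit 100), (nat_lit 86), (nat_lit 44))⟩, (nat_lit 2052632), (nat_lit 300), (nat_lit 412), (nat_lit 66400000), (nat_lit 524301), [(nat_lit 7968000000), (nat_lit 9842000000), (nat_lit 11872000000)], [], [(nat_lit 37418627447), (nat_lit 37734076007), (nat_lit 42559279625), (nat_lit 42021589354), (nat_lit 47314322434), (nat_lit 40528237120), (nat_lit 43049610889), (nat_lit 41967466834)], (nat_lit 1271251), (nat_lit 1271251), (nat_lit 1271251), (nat_lit 1271251), (nat_lit 780000), (nat_lit 3072501), [(nat_lit 1695001), (nat_lit 1271251), (nat_lit 1271251)], [(nat_lit 27), (nat_lit 62), (nat_lit 538), (nat_lit 300), (nat_lit 13)]⟩⟩))))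
noncomputable def c3_17 : Tr Lf :=
 (.trX (nat_lit 4) (nat_lit 0) (nat_lit 2) (nat_lit 87) (nat_lit 59) (nat_lit 100) (nat_lit 370) (.spl (nat_lit 1) (nat_lit 180) (.trX (nat_lit 3) (nat_lit 0) (nat_lit 1) (nat_lit 87) (nat_lit 59) (nat_lit 100) (nat_lit 370) (.spl (nat_lit 6) (nat_lit 8) (.spl (nat_lit 1) (nat_lit 160) (.ord (.trX (nat_lit 3) (nat_lit 0) (nat_lit 1) (nat_lit 88) (nat_lit 68) (nat_lit 100) (nat_lit 350) (.trX (nat_lit 4) (nat_lit 0) (nat_lit 2) (nat_lit 88) (nat_lit 68) (nat_lit 100) (nat_lit 350) (.leaf ⟨(nat_lit 956), (nat_lit 0), (nat_lit 0), (nat_lit 44), (nat_lit 6553), (nat_lit 3478), (nat_lit 535), (nat_lit 564), (nat_lit 0), (nat_lit 102696908270), (nat_lit 956000), [((nat_lit 320), [((nat_lit 15), (nat_lit 2), (nat_lit 956))])], ⟨(nat_lit 5), false, false, true, (nat_lit 226), (nat_lit 4472), (nat_lit 5000), [(nat_lit 1414284), (nat_lit 1413733), (nat_lit 1457141), (nat_lit 1456866), (nat_lit 1682141), (nat_lit 1668651), (nat_lit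 1724998), (nat_lit 1711784)]⟩, ⟨(nat_lit 5), false, false, true, (nat_lit 226), (nat_lit 4472), (nat_lit 5000), [(nat_lit 1414284), (nat_lit 1413733), (nat_lit 1457141), (nat_lit 1456866), (nat_lit 1682141), (nat_lit 1668651), (nat_lit 1724998), (nat_lit 1711784)]⟩, (nat_lit 5256214), (nat_lit 38764748), (nat_lit 14117626), (nat_lit 14117626), (nat_lit 0), (nat_lit 0), [⟨(nat_lit 1), (nat_lit 81), (nat_lit 88), (nat_lit 100), (nat_lit 40000281)⟩], [⟨(nat_lit 1), (nat_lit 81), (nat_lit 88), (nat_lit 100), (nat_lit 40531926)⟩], [], [⟨(nat_lit 0), (nat_lit 67), (nat_lit 67), (nat_lit 100), (nat_lit 50061879)⟩],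
 ⟨⟨[(nat_lit 60), (nat_lit 80)], [(nat_lit 0), (nat_lit 304)], [((nat_lit 0), (nat_lit 0), (nat_lit 0)), ((nat_lit 1000), (nat_lit 905), (nat_lit 238))], ((nat_lit 89), (nat_lit 100), (nat_lit 29))⟩, (nat_lit 1210), (nat_lit 88), (nat_lit 88), (nat_lit 0), (nat_lit 90381), [(nat_lit 2033516641), (nat_lit 1717516800)], [(nat_lit 0), (nat_lit 0)], [(nat_lit 20215023529), (nat_lit 21198814569), (nat_lit 25993278030), (nat_lit 26693428191), (nat_lit 25993278030), (nat_lit 26693428191), (nat_lit 30306957189), (nat_lit 30840060504)], (nat_lit 1271251), (nat_lit 1271251), (nat_lit 1271251), (nat_lit 1271251), (nat_lit 1271251), (nat_lit 1271251), [(nat_lit 780000), (nat_lit 1100000)], [(nat_lit 8), (nat_lit 44), (nat_lit 203), (nat_lit 0), (nat_lit 7)]⟩,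
 ⟨⟨[(nat_lit 140), (nat_lit 160), (nat_lit 180)], [(nat_lit 0), (nat_lit 0), (nat_lit 799)], [((nat_lit 0), (nat_lit 0), (nat_lit 0)), ((nat_lit 0), (nat_lit 0), (nat_lit 0)), ((nat_lit 728), (nat_lit 1000), (nat_lit 454))], ((nat_lit 100), (nat_lit 84), (nat_lit 31))⟩, (nat_lit 200479), (nat_lit 723), (nat_lit 723), (nat_lit 0), (nat_lit 688871), [(nat_lit 433048000), (nat_lit 522368000), (nat_lit 618552000)], [], [(nat_lit 2205125150), (nat_lit 2140840578), (nat_lit 2242341315), (nat_lit 2173446492), (nat_lit 3097204204), (nat_lit 3371899434), (nat_lit 1933611261), (nat_lit 1851668363)], (nat_lit 780000), (nat_lit 1100000), (nat_lit 1271251), (nat_lit 1271251), (nat_lit 0), (nat_lit 2825001), [(nat_lit 1977501), (nat_lit 1271251), (nat_lit 1271251)], [(nat_lit 31), (nat_lit 65), (nat_lit 483), (nat_lit 250), (nat_lit 11)]⟩,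
 ⟨⟨[(nat_lit 140), (nat_lit 160), (nat_lit 180)], [(nat_lit 0), (nat_lit 0), (nat_lit 799)], [((nat_lit 0), (nat_lit 0), (nat_lit 0)), ((nat_lit 0), (nat_lit 0), (nat_lit 0)), ((nat_lit 728), (nat_lit 1000), (nat_lit 454))], ((nat_lit 100), (nat_lit 84), (nat_lit 31))⟩, (nat_lit 115953), (nat_lit 300), (nat_lit 723), (nat_lit 3264800), (nat_lit 688871), [(nat_lit 433048000), (nat_lit 522368000), (nat_lit 618552000)], [], [(nat_lit 2530004272), (nat_lit 2445068248), (nat_lit 2543967916), (nat_lit 2455810090), (nat_lit 3138470160), (nat_lit 3425002552), (nat_lit 2011257170), (nat_lit 1918624293)], (nat_lit 780000), (nat_lit 1100000), (nat_lit 1271251), (nat_lit 1271251), (nat_lit 0), (nat_lit 2825001), [(nat_lit 1977501), (nat_lit 1271251), (nat_lit 1271251)], [(nat_lit 31), (nat_lit 65), (nat_lit 483), (nat_lit 250), (nat_lit 11)]⟩⟩)))) (.leaf ⟨(nat_lit 877), (nat_lit 0), (nat_lit 0), (nat_lit 123), (nat_lit 1879), (nat_lit 3778), (nat_lit 1165), (nat_lit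 1086), (nat_lit 0), (nat_lit 2962), (nat_lit 575400), [((nat_lit 320), [((nat_lit 35), (nat_lit 2), (nat_lit 754)), ((nat_lit 15), (nat_lit 2), (nat_lit 123))])], ⟨(nat_lit 5), false, false, true, (nat_lit 246), (nat_lit 4472), (nat_lit 5000), [(nat_lit 1457141), (nat_lit 1456866), (nat_lit 1478570), (nat_lit 1478432), (nat_lit 1760711), (nat_lit 1745771), (nat_lit 1782131), (nat_lit 1767329)]⟩, ⟨(nat_lit 5), false, false, true, (nat_lit 238), (nat_lit 4472), (nat_lit 5000), [(nat_lit 1414284), (nat_lit 1413733), (nat_lit 1478570), (nat_lit 1478432), (nat_lit 1717856), (nat_lit 1702640), (nat_lit 1782131), (nat_lit 1767329)]⟩, (nat_lit 5415512), (nat_lit 36757113), (nat_lit 15555921), (nat_lit 14686966), (nat_lit 0), (nat_lit 0), [], [], [], [⟨(nat_lit 0), (nat_lit 100), (nat_lit 100), (nat_lit 85), (nat_lit 56981575)⟩],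
 ⟨⟨[(nat_lit 60), (nat_lit 80)], [(nat_lit 0), (nat_lit 304)], [((nat_lit 0), (nat_lit 0), (nat_lit 0)), ((nat_lit 1000), (nat_lit 905), (nat_lit 238))], ((nat_lit 89), (nat_lit 100), (nat_lit 29))⟩, (nat_lit 1239905), (nat_lit 89), (nat_lit 89), (nat_lit 0), (nat_lit 63944), [(nat_lit 2119055648), (nat_lit 2263680800)], [(nat_lit 0), (nat_lit 0)], [(nat_lit 19894384131), (nat_lit 20911391096), (nat_lit 26799957334), (nat_lit 27480752482), (nat_lit 26799957334), (nat_lit 27480752482), (nat_lit 32312625243), (nat_lit 32859791014)], (nat_lit 1271251), (nat_lit 1271251), (nat_lit 1271251), (nat_lit 1271251), (nat_lit 1271251), (nat_lit 1271251), [(nat_lit 780000), (nat_lit 1100000)], [(nat_lit 8), (nat_lit 44), (nat_lit 203), (nat_lit 0), (nat_lit 7)]⟩,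
 ⟨⟨[(nat_lit 120), (nat_lit 140), (nat_lit 160)], [(nat_lit 0), (nat_lit 0), (nat_lit 609)], [((nat_lit 0), (nat_lit 0), (nat_lit 0)), ((nat_lit 0), (nat_lit 0), (nat_lit 0)), ((nat_lit 840), (nat_lit 1000), (nat_lit 400))], ((nat_lit 100), (nat_lit 90), (nat_lit 29))⟩, (nat_lit 768056), (nat_lit 385), (nat_lit 385), (nat_lit 0), (nat_lit 226693), [(nat_lit 980064000), (nat_lit 1210566000), (nat_lit 1460256000)], [], [(nat_lit 4542024800), (nat_lit 4566401359), (nat_lit 5311735893), (nat_lit 5307651198), (nat_lit 7492973878), (nat_lit 7864213140), (nat_lit 4929532627), (nat_lit 4900109208)], (nat_lit 1100000), (nat_lit 1271251), (nat_lit 1271251), (nat_lit 1271251), (nat_lit 0), (nat_lit 2825001), [(nat_lit 1695001), (nat_lit 1271251), (nat_lit 1271251)], [(nat_lit 27), (nat_lit 62), (nat_lit 483), (nat_lit 250), (nat_lit 12)]⟩,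
 ⟨⟨[(nat_lit 140), (nat_lit 160), (nat_lit 180)], [(nat_lit 0), (nat_lit 0), (nat_lit 799)], [((nat_lit 0), (nat_lit 0), (nat_lit 0)), ((nat_lit 0), (nat_lit 0), (nat_lit 0)), ((nat_lit 728), (nat_lit 1000), (nat_lit 454))], ((nat_lit 100), (nat_lit 84), (nat_lit 31))⟩, (nat_lit 108068), (nat_lit 300), (nat_lit 615), (nat_lit 9126600), (nat_lit 483314), [(nat_lit 1210566000), (nat_lit 1460256000), (nat_lit 1729134000)], [], [(nat_lit 7893440089), (nat_lit 7735032016), (nat_lit 8010145341), (nat_lit 7812562164), (nat_lit 8075292792), (nat_lit 9039453042), (nat_lit 6866740137), (nat_lit 6646626829)], (nat_lit 780000), (nat_lit 1271251), (nat_lit 1271251), (nat_lit 1271251), (nat_lit 0), (nat_lit 2825001), [(nat_lit 1977501), (nat_lit 1271251), (nat_lit 1271251)], [(nat_lit 31), (nat_lit 65), (nat_lit 483), (nat_lit 250), (nat_lit 11)]⟩⟩)) (.dle (nat_lit 0)))) (.spl (nat_lit 5) (nat_lit 120) (.spl (nat_lit 1) (nat_lit 220) (.spl (nat_lit 6) (nat_lit 12)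 (.leaf ⟨(nat_lit 88), (nat_lit 554), (nat_lit 0), (nat_lit 358), (nat_lit 6580), (nat_lit 5822), (nat_lit 10688), (nat_lit 5273), (nat_lit 0), (nat_lit 0), (nat_lit 352000), [((nat_lit 320), [((nat_lit 35), (nat_lit 5), (nat_lit 88))])], ⟨(nat_lit 5), false, true, true, (nat_lit 266), (nat_lit 4472), (nat_lit 5000), [(nat_lit 1478570), (nat_lit 1478432), (nat_lit 1521416), (nat_lit 1521554), (nat_lit 1817842), (nat_lit 1801315), (nat_lit 1860679), (nat_lit 1844427)]⟩, ⟨(nat_lit 5), false, false, true, (nat_lit 238), (nat_lit 4472), (nat_lit 5000), [(nat_lit 1414284), (nat_lit 1413733), (nat_lit 1478570), (nat_lit 1478432), (nat_lit 1717856), (nat_lit 1702640), (nat_lit 1782131), (nat_lit 1767329)]⟩, (nat_lit 5494501), (nat_lit 35504961), (nat_lit 17189801), (nat_lit 14305238), (nat_lit 5), (nat_lit 0), [], [⟨(nat_lit 1), (nat_lit 77), (nat_lit 86), (nat_lit 100), (nat_lit 1483786)⟩], [], [⟨(nat_lit 0), (nat_lit 100), (nat_lit 97), (nat_lit 89), (nat_lit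 200863142)⟩],
 ⟨⟨[(nat_lit 60), (nat_lit 80), (nat_lit 100)], [(nat_lit 0), (nat_lit 304), (nat_lit 825)], [((nat_lit 0), (nat_lit 0), (nat_lit 0)), ((nat_lit 1000), (nat_lit 905), (nat_lit 238)), ((nat_lit 1000), (nat_lit 871), (nat_lit 407))], ((nat_lit 88), (nat_lit 100), (nat_lit 35))⟩, (nat_lit 3383740), (nat_lit 127), (nat_lit 127), (nat_lit 0), (nat_lit 148867), [(nat_lit 3132752115), (nat_lit 4179942403), (nat_lit 5071539200)], [(nat_lit 0), (nat_lit 0), (nat_lit 0)], [(nat_lit 18342539513), (nat_lit 19493549702), (nat_lit 30049355657), (nat_lit 30948929600), (nat_lit 28479247707), (nat_lit 29462240319), (nat_lit 35829297225), (nat_lit 36354240189)], (nat_lit 1271251), (nat_lit 1271251), (nat_lit 1271251), (nat_lit 1271251), (nat_lit 1271251), (nat_lit 1271251), [(nat_lit 780000), (nat_lit 1100000), (nat_lit 1442501)], [(nat_lit 9), (nat_lit 50), (nat_lit 203), (nat_lit 0), (nat_lit 6)]⟩,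
 ⟨⟨[(nat_lit 120), (nat_lit 140), (nat_lit 160)], [(nat_lit 0), (nat_lit 266), (nat_lit 862)], [((nat_lit 0), (nat_lit 0), (nat_lit 0)), ((nat_lit 960), (nat_lit 1000), (nat_lit 200)), ((nat_lit 874), (nat_lit 1000), (nat_lit 406))], ((nat_lit 100), (nat_lit 91), (nat_lit 34))⟩, (nat_lit 7546455), (nat_lit 404), (nat_lit 404), (nat_lit 0), (nat_lit 274269), [(nat_lit 7266816000), (nat_lit 8975904000), (nat_lit 10827264000)], [], [(nat_lit 31370045216), (nat_lit 25970983612), (nat_lit 40755081654), (nat_lit 41702032418), (nat_lit 35892560672), (nat_lit 25606140896), (nat_lit 28969118227), (nat_lit 29993208193)], (nat_lit 1271251), (nat_lit 1271251), (nat_lit 1271251), (nat_lit 1271251), (nat_lit 0), (nat_lit 780000), [(nat_lit 1695001), (nat_lit 1271251), (nat_lit 1271251)], [(nat_lit 27), (nat_lit 62), (nat_lit 428), (nat_lit 200), (nat_lit 11)]⟩,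
 ⟨⟨[(nat_lit 140), (nat_lit 160), (nat_lit 180)], [(nat_lit 0), (nat_lit 0), (nat_lit 799)], [((nat_lit 0), (nat_lit 0), (nat_lit 0)), ((nat_lit 0), (nat_lit 0), (nat_lit 0)), ((nat_lit 728), (nat_lit 1000), (nat_lit 454))], ((nat_lit 100), (nat_lit 79), (nat_lit 37))⟩, (nat_lit 314538), (nat_lit 300), (nat_lit 744), (nat_lit 26563601), (nat_lit 737357), [(nat_lit 3523436000), (nat_lit 4250176000), (nat_lit 5032764000)], [], [(nat_lit 19653669428), (nat_lit 18702789883), (nat_lit 21154928614), (nat_lit 20136724833), (nat_lit 15433210400), (nat_lit 17937105621), (nat_lit 16409505658), (nat_lit 15463447857)], (nat_lit 780000), (nat_lit 1271251), (nat_lit 1271251), (nat_lit 1271251), (nat_lit 0), (nat_lit 780000), [(nat_lit 1977501), (nat_lit 1271251), (nat_lit 1271251)], [(nat_lit 31), (nat_lit 65), (nat_lit 401), (nat_lit 175), (nat_lit 10)]⟩⟩) (.dle (nat_lit 0))) (.leaf ⟨(nat_lit 0), (nat_lit 762), (nat_lit 0), (nat_lit 238), (nat_lit 1330), (nat_lit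 5119), (nat_lit 10155), (nat_lit 3087), (nat_lit 0), (nat_lit 0), (nat_lit 0), [], Pd.none, Pd.none, (nat_lit 0), (nat_lit 1), (nat_lit 0), (nat_lit 0), (nat_lit 5), (nat_lit 0), [], [], [], [⟨(nat_lit 0), (nat_lit 100), (nat_lit 97), (nat_lit 89), (nat_lit 258860942)⟩],
 ⟨⟨[(nat_lit 60), (nat_lit 80), (nat_lit 100)], [(nat_lit 0), (nat_lit 304), (nat_lit 825)], [((nat_lit 0), (nat_lit 0), (nat_lit 0)), ((nat_lit 1000), (nat_lit 905), (nat_lit 238)), ((nat_lit 1000), (nat_lit 871), (nat_lit 407))], ((nat_lit 87), (nat_lit 100), (nat_lit 44))⟩, (nat_lit 3809079), (nat_lit 146), (nat_lit 146), (nat_lit 0), (nat_lit 221834), [(nat_lit 3282000148), (nat_lit 4688000314), (nat_lit 6250000000)], [], [(nat_lit 20668410337), (nat_lit 21749865612), (nat_lit 29307160814), (nat_lit 30165961768), (nat_lit 27847404860), (nat_lit 28780740344), (nat_lit 34916832993), (nat_lit 35436585510)], (nat_lit 1271251), (nat_lit 1271251), (nat_lit 1271251), (nat_lit 1271251), (nat_lit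 1271251), (nat_lit 1271251), [(nat_lit 780000), (nat_lit 1100000), (nat_lit 1442501)], [(nat_lit 9), (nat_lit 50), (nat_lit 203), (nat_lit 0), (nat_lit 6)]⟩,
 ⟨⟨[(nat_lit 100), (nat_lit 120), (nat_lit 140)], [(nat_lit 0), (nat_lit 254), (nat_lit 778)], [((nat_lit 0), (nat_lit 0), (nat_lit 0)), ((nat_lit 1000), (nat_lit 1000), (nat_lit 198)), ((nat_lit 960), (nat_lit 1000), (nat_lit 392))], ((nat_lit 100), (nat_lit 94), (nat_lit 44))⟩, (nat_lit 7763349), (nat_lit 361), (nat_lit 361), (nat_lit 0), (nat_lit 328574), [(nat_lit 6250000000), (nat_lit 7968000000), (nat_lit 9842000000)], [], [(nat_lit 21825598293), (nat_lit 22410388128), (nat_lit 42005010556), (nat_lit 42529305990), (nat_lit 20824204283), (nat_lit 16792126468), (nat_lit 31145413085), (nat_lit 31703621954)], (nat_lit 1271251), (nat_lit 1271251), (nat_lit 1271251), (nat_lit 1271251), (nat_lit 0), (nat_lit 780000), [(nat_lit 1412501), (nat_lit 1271251), (nat_lit 1271251)], [(nat_lit 22), (nat_lit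 58), (nat_lit 428), (nat_lit 200), (nat_lit 12)]⟩,
 ⟨⟨[(nat_lit 140), (nat_lit 160), (nat_lit 180)], [(nat_lit 0), (nat_lit 0), (nat_lit 799)], [((nat_lit 0), (nat_lit 0), (nat_lit 0)), ((nat_lit 0), (nat_lit 0), (nat_lit 0)), ((nat_lit 728), (nat_lit 1000), (nat_lit 454))], ((nat_lit 100), (nat_lit 71), (nat_lit 48))⟩, (nat_lit 209107), (nat_lit 300), (nat_lit 889), (nat_lit 17659600), (nat_lit 1067883), [(nat_lit 2342396000), (nat_lit 2825536000), (nat_lit 3345804000)], [], [(nat_lit 13590953040), (nat_lit 13062822367), (nat_lit 14012007674), (nat_lit 13446127826), (nat_lit 11295971183), (nat_lit 11832901786), (nat_lit 11319360101), (nat_lit 10755470505)], (nat_lit 780000), (nat_lit 1271251), (nat_lit 1271251), (nat_lit 1271251), (nat_lit 0), (nat_lit 780000), [(nat_lit 1977501), (nat_lit 1271251), (nat_lit 1271251)], [(nat_lit 31), (nat_lit 65), (nat_lit 401), (nat_lit 175), (nat_lit 10)]⟩⟩)) (.spl (nat_lit 0) (nat_lit 310) (.spl (nat_lit 6) (nat_lit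 12) (.leaf ⟨(nat_lit 0), (nat_lit 455), (nat_lit 0), (nat_lit 545), (nat_lit 15008), (nat_lit 5551), (nat_lit 9609), (nat_lit 6352), (nat_lit 0), (nat_lit 0), (nat_lit 0), [], Pd.none, Pd.none, (nat_lit 0), (nat_lit 1), (nat_lit 0), (nat_lit 0), (nat_lit 5), (nat_lit 0), [], [⟨(nat_lit 1), (nat_lit 74), (nat_lit 88), (nat_lit 100), (nat_lit 366273)⟩], [], [],
 ⟨⟨[(nat_lit 60), (nat_lit 80), (nat_lit 100)], [(nat_lit 0), (nat_lit 304), (nat_lit 825)], [((nat_lit 0), (nat_lit 0), (nat_lit 0)), ((nat_lit 1000), (nat_lit 905), (nat_lit 238)), ((nat_lit 1000), (nat_lit 871), (nat_lit 407))], ((nat_lit 88), (nat_lit 100), (nat_lit 35))⟩, (nat_lit 4762800), (nat_lit 125), (nat_lit 125), (nat_lit 0), (nat_lit 141764), [(nat_lit 3282000112), (nat_lit 4688000067), (nat_lit 6250000000)], [], [(nat_lit 19052576536), (nat_lit 19614492640), (nat_lit 29763246407), (nat_lit 30205174574), (nat_lit 28235418150), (nat_lit 28717473265), (nat_lit 35477550700), (nat_lit 35739021747)],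 (nat_lit 1271251), (nat_lit 1271251), (nat_lit 1271251), (nat_lit 1271251), (nat_lit 1271251), (nat_lit 1271251), [(nat_lit 780000), (nat_lit 1100000), (nat_lit 1442501)], [(nat_lit 9), (nat_lit 50), (nat_lit 203), (nat_lit 0), (nat_lit 6)]⟩,
 ⟨⟨[(nat_lit 120), (nat_lit 140), (nat_lit 160)], [(nat_lit 0), (nat_lit 266), (nat_lit 862)], [((nat_lit 0), (nat_lit 0), (nat_lit 0)), ((nat_lit 960), (nat_lit 1000), (nat_lit 200)), ((nat_lit 874), (nat_lit 1000), (nat_lit 406))], ((nat_lit 100), (nat_lit 91), (nat_lit 34))⟩, (nat_lit 7897605), (nat_lit 287), (nat_lit 287), (nat_lit 0), (nat_lit 279606), [(nat_lit 7968000000), (nat_lit 9842000000), (nat_lit 11872000000)], [], [(nat_lit 37724105745), (nat_lit 22919376536), (nat_lit 32233602683), (nat_lit 32524646826), (nat_lit 47703225120), (nat_lit 34023703780), (nat_lit 41624339715), (nat_lit 41269633879)], (nat_lit 1271251), (nat_lit 1271251), (nat_lit 1271251), (nat_lit 1271251), (nat_lit 780000), (nat_lit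 3072501), [(nat_lit 1695001), (nat_lit 1271251), (nat_lit 1271251)], [(nat_lit 27), (nat_lit 62), (nat_lit 538), (nat_lit 300), (nat_lit 13)]⟩,
 ⟨⟨[(nat_lit 140), (nat_lit 160), (nat_lit 180)], [(nat_lit 0), (nat_lit 0), (nat_lit 799)], [((nat_lit 0), (nat_lit 0), (nat_lit 0)), ((nat_lit 0), (nat_lit 0), (nat_lit 0)), ((nat_lit 728), (nat_lit 1000), (nat_lit 454))], ((nat_lit 100), (nat_lit 79), (nat_lit 37))⟩, (nat_lit 478836), (nat_lit 300), (nat_lit 767), (nat_lit 40439001), (nat_lit 1000515), [(nat_lit 5363890000), (nat_lit 6470240000), (nat_lit 7661610000)], [], [(nat_lit 28432914128), (nat_lit 27254749077), (nat_lit 27620308063), (nat_lit 26389041863), (nat_lit 26243223284), (nat_lit 30224828056), (nat_lit 26024621120), (nat_lit 24785669842)], (nat_lit 780000), (nat_lit 1271251), (nat_lit 1271251), (nat_lit 1271251), (nat_lit 780000), (nat_lit 3072501), [(nat_lit 1977501), (nat_lit 1271251), (nat_lit 1271251)], [(nat_lit 31), (nat_lit 65), (nat_lit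 483), (nat_lit 250), (nat_lit 11)]⟩⟩) (.dle (nat_lit 0))) (.trX (nat_lit 4) (nat_lit 0) (nat_lit 2) (nat_lit 84) (nat_lit 63) (nat_lit 100) (nat_lit 360) (.spl (nat_lit 0) (nat_lit 315) (.leaf ⟨(nat_lit 0), (nat_lit 459), (nat_lit 0), (nat_lit 541), (nat_lit 1899), (nat_lit 5594), (nat_lit 11000), (nat_lit 6244), (nat_lit 0), (nat_lit 0), (nat_lit 0), [], Pd.none, Pd.none, (nat_lit 0), (nat_lit 1), (nat_lit 0), (nat_lit 0), (nat_lit 5), (nat_lit 0), [], [], [], [],
 ⟨⟨[(nat_lit 60), (nat_lit 80), (nat_lit 100)], [(nat_lit 0), (nat_lit 456), (nat_lit 976)], [((nat_lit 0), (nat_lit 0), (nat_lit 0)), ((nat_lit 1000), (nat_lit 859), (nat_lit 351)), ((nat_lit 1000), (nat_lit 848), (nat_lit 406))], ((nat_lit 84), (nat_lit 100), (nat_lit 44))⟩, (nat_lit 4449506), (nat_lit 134), (nat_lit 134), (nat_lit 0), (nat_lit 179474), [(nat_lit 3282000029), (nat_lit 4751175241), (nat_lit 6250000000)], [], [(nat_lit 19120676147), (nat_lit 19408999204), (nat_lit 30251818951),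 (nat_lit 30473406519), (nat_lit 28010580729), (nat_lit 28262451818), (nat_lit 35333143886), (nat_lit 35469810127)], (nat_lit 1271251), (nat_lit 1271251), (nat_lit 1271251), (nat_lit 1271251), (nat_lit 1271251), (nat_lit 1271251), [(nat_lit 780000), (nat_lit 1100000), (nat_lit 1442501)], [(nat_lit 9), (nat_lit 50), (nat_lit 203), (nat_lit 0), (nat_lit 6)]⟩,
 ⟨⟨[(nat_lit 120), (nat_lit 140), (nat_lit 160)], [(nat_lit 0), (nat_lit 266), (nat_lit 862)], [((nat_lit 0), (nat_lit 0), (nat_lit 0)), ((nat_lit 960), (nat_lit 1000), (nat_lit 200)), ((nat_lit 874), (nat_lit 1000), (nat_lit 406))], ((nat_lit 100), (nat_lit 86), (nat_lit 44))⟩, (nat_lit 6254941), (nat_lit 350), (nat_lit 350), (nat_lit 0), (nat_lit 373725), [(nat_lit 7968000000), (nat_lit 9842000000), (nat_lit 11872000000)], [], [(nat_lit 39136395000), (nat_lit 24315189552), (nat_lit 32973465358), (nat_lit 33271043608), (nat_lit 49500446500), (nat_lit 33840676000), (nat_lit 43826750875), (nat_lit 43235654500)],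 (nat_lit 1271251), (nat_lit 1271251), (nat_lit 1271251), (nat_lit 1271251), (nat_lit 780000), (nat_lit 3072501), [(nat_lit 1695001), (nat_lit 1271251), (nat_lit 1271251)], [(nat_lit 27), (nat_lit 62), (nat_lit 538), (nat_lit 300), (nat_lit 13)]⟩,
 ⟨⟨[(nat_lit 140), (nat_lit 160), (nat_lit 180)], [(nat_lit 0), (nat_lit 0), (nat_lit 799)], [((nat_lit 0), (nat_lit 0), (nat_lit 0)), ((nat_lit 0), (nat_lit 0), (nat_lit 0)), ((nat_lit 728), (nat_lit 1000), (nat_lit 454))], ((nat_lit 100), (nat_lit 71), (nat_lit 48))⟩, (nat_lit 475322), (nat_lit 300), (nat_lit 922), (nat_lit 40142200), (nat_lit 1325241), [(nat_lit 5324522000), (nat_lit 6422752000), (nat_lit 7605378000)], [], [(nat_lit 28775903319), (nat_lit 27526161311), (nat_lit 27635257383), (nat_lit 26352208842), (nat_lit 26217774832), (nat_lit 29912590088), (nat_lit 25811339578), (nat_lit 24491835953)], (nat_lit 780000), (nat_lit 1271251), (nat_lit 1271251), (nat_lit 1271251), (nat_lit 780000), (nat_lit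 3072501), [(nat_lit 1977501), (nat_lit 1271251), (nat_lit 1271251)], [(nat_lit 31), (nat_lit 65), (nat_lit 483), (nat_lit 250), (nat_lit 11)]⟩⟩) (.spl (nat_lit 1) (nat_lit 220) (.trX (nat_lit 3) (nat_lit 0) (nat_lit 1) (nat_lit 82) (nat_lit 49) (nat_lit 100) (nat_lit 380) (.spl (nat_lit 6) (nat_lit 12) (.leaf ⟨(nat_lit 0), (nat_lit 498), (nat_lit 0), (nat_lit 502), (nat_lit 0), (nat_lit 5740), (nat_lit 9213), (nat_lit 5438), (nat_lit 0), (nat_lit 0), (nat_lit 0), [], Pd.none, Pd.none, (nat_lit 0), (nat_lit 1), (nat_lit 0), (nat_lit 0), (nat_lit 5), (nat_lit 0), [], [⟨(nat_lit 1), (nat_lit 80), (nat_lit 84), (nat_lit 100), (nat_lit 83400468)⟩], [], [],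
 ⟨⟨[(nat_lit 60), (nat_lit 80)], [(nat_lit 0), (nat_lit 533)], [((nat_lit 0), (nat_lit 0), (nat_lit 0)), ((nat_lit 1000), (nat_lit 837), (nat_lit 397))], ((nat_lit 85), (nat_lit 100), (nat_lit 35))⟩, (nat_lit 3502230), (nat_lit 108), (nat_lit 108), (nat_lit 0), (nat_lit 145296), [(nat_lit 3282000078), (nat_lit 4688000000)], [], [(nat_lit 19151974150), (nat_lit 19481437756), (nat_lit 29886162882), (nat_lit 30120175030), (nat_lit 28390693847), (nat_lit 28645321260), (nat_lit 35147469174), (nat_lit 35291153730)], (nat_lit 1271251), (nat_lit 1271251), (nat_lit 1271251), (nat_lit 1271251), (nat_lit 1271251), (nat_lit 1271251), [(nat_lit 780000), (nat_lit 1100000)], [(nat_lit 8), (nat_lit 44), (nat_lit 203), (nat_lit 0), (nat_lit 7)]⟩,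
 ⟨⟨[(nat_lit 120), (nat_lit 140), (nat_lit 160)], [(nat_lit 0), (nat_lit 266), (nat_lit 862)], [((nat_lit 0), (nat_lit 0), (nat_lit 0)), ((nat_lit 960), (nat_lit 1000), (nat_lit 200)), ((nat_lit 874), (nat_lit 1000), (nat_lit 406))], ((nat_lit 100), (nat_lit 91), (nat_lit 34))⟩, (nat_lit 8956459), (nat_lit 336), (nat_lit 336), (nat_lit 0), (nat_lit 346497), [(nat_lit 7968000000), (nat_lit 9842000000), (nat_lit 11872000000)], [], [(nat_lit 37322044965), (nat_lit 27656510145), (nat_lit 33113424900), (nat_lit 32992347628), (nat_lit 47191579062), (nat_lit 38447732661), (nat_lit 40226429897), (nat_lit 40094415743)], (nat_lit 1271251), (nat_lit 1271251), (nat_lit 1271251), (nat_lit 1271251), (nat_lit 780000), (nat_lit 3072501), [(nat_lit 1695001), (nat_lit 1271251), (nat_lit 1271251)], [(nat_lit 27), (nat_lit 62), (nat_lit 483), (nat_lit 250), (nat_lit 12)]⟩,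
 ⟨⟨[(nat_lit 140), (nat_lit 160), (nat_lit 180)], [(nat_lit 0), (nat_lit 0), (nat_lit 799)], [((nat_lit 0), (nat_lit 0), (nat_lit 0)), ((nat_lit 0), (nat_lit 0), (nat_lit 0)), ((nat_lit 728), (nat_lit 1000), (nat_lit 454))], ((nat_lit 100), (nat_lit 79), (nat_lit 37))⟩, (nat_lit 441057), (nat_lit 300), (nat_lit 816), (nat_lit 37248400), (nat_lit 1111695), [(nat_lit 4940684000), (nat_lit 5959744000), (nat_lit 7057116000)], [], [(nat_lit 27747182714), (nat_lit 26734505534), (nat_lit 27041402706), (nat_lit 25948057354), (nat_lit 25622402592), (nat_lit 27232068296), (nat_lit 24525017876), (nat_lit 23344989611)], (nat_lit 780000), (nat_lit 1271251), (nat_lit 1271251), (nat_lit 1271251), (nat_lit 780000), (nat_lit 3072501), [(nat_lit 1977501), (nat_lit 1271251), (nat_lit 1271251)], [(nat_lit 31), (nat_lit 65), (nat_lit 483), (nat_lit 250), (nat_lit 11)]⟩⟩) (.dle (nat_lit 0)))) (.leaf ⟨(nat_lit 0), (nat_lit 729), (nat_lit 0), (nat_lit 271), (nat_lit 0), (nat_lit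 4968), (nat_lit 8148), (nat_lit 2874), (nat_lit 0), (nat_lit 0), (nat_lit 0), [], Pd.none, Pd.none, (nat_lit 0), (nat_lit 1), (nat_lit 0), (nat_lit 0), (nat_lit 5), (nat_lit 0), [], [⟨(nat_lit 1), (nat_lit 80), (nat_lit 84), (nat_lit 100), (nat_lit 246900336)⟩], [], [],
 ⟨⟨[(nat_lit 60), (nat_lit 80), (nat_lit 100)], [(nat_lit 0), (nat_lit 533), (nat_lit 1067)], [((nat_lit 0), (nat_lit 0), (nat_lit 0)), ((nat_lit 1000), (nat_lit 837), (nat_lit 397)), ((nat_lit 1000), (nat_lit 833), (nat_lit 417))], ((nat_lit 83), (nat_lit 100), (nat_lit 44))⟩, (nat_lit 4077162), (nat_lit 143), (nat_lit 143), (nat_lit 0), (nat_lit 216450), [(nat_lit 3282000007), (nat_lit 4807644065), (nat_lit 6250000000)], [], [(nat_lit 20550321819), (nat_lit 20817005334), (nat_lit 29785274386), (nat_lit 29997785178), (nat_lit 27712592158), (nat_lit 27952645032), (nat_lit 34674779191), (nat_lit 34809773210)], (nat_lit 1271251), (nat_lit 1271251), (nat_lit 1271251), (nat_lit 1271251), (nat_lit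 1271251), (nat_lit 1271251), [(nat_lit 780000), (nat_lit 1100000), (nat_lit 1442501)], [(nat_lit 9), (nat_lit 50), (nat_lit 203), (nat_lit 0), (nat_lit 6)]⟩,
 ⟨⟨[(nat_lit 100), (nat_lit 120), (nat_lit 140)], [(nat_lit 0), (nat_lit 254), (nat_lit 778)], [((nat_lit 0), (nat_lit 0), (nat_lit 0)), ((nat_lit 1000), (nat_lit 1000), (nat_lit 198)), ((nat_lit 960), (nat_lit 1000), (nat_lit 392))], ((nat_lit 100), (nat_lit 94), (nat_lit 44))⟩, (nat_lit 6357986), (nat_lit 305), (nat_lit 305), (nat_lit 0), (nat_lit 408252), [(nat_lit 6250000000), (nat_lit 7968000000), (nat_lit 9842000000)], [], [(nat_lit 34523726974), (nat_lit 30180146320), (nat_lit 30727801594), (nat_lit 30831997899), (nat_lit 33761079018), (nat_lit 30534701656), (nat_lit 39240149301), (nat_lit 39204676202)], (nat_lit 1271251), (nat_lit 1271251), (nat_lit 1271251), (nat_lit 1271251), (nat_lit 780000), (nat_lit 3072501), [(nat_lit 1412501), (nat_lit 1271251), (nat_lit 1271251)], [(nat_lit 22), (nat_lit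 58), (nat_lit 538), (nat_lit 300), (nat_lit 15)]⟩,
 ⟨⟨[(nat_lit 140), (nat_lit 160), (nat_lit 180)], [(nat_lit 0), (nat_lit 0), (nat_lit 799)], [((nat_lit 0), (nat_lit 0), (nat_lit 0)), ((nat_lit 0), (nat_lit 0), (nat_lit 0)), ((nat_lit 728), (nat_lit 1000), (nat_lit 454))], ((nat_lit 100), (nat_lit 71), (nat_lit 48))⟩, (nat_lit 238100), (nat_lit 300), (nat_lit 1072), (nat_lit 20108201), (nat_lit 1656728), [(nat_lit 2667182000), (nat_lit 3217312000), (nat_lit 3809718000)], [], [(nat_lit 15884932906), (nat_lit 15308702872), (nat_lit 15055841848), (nat_lit 14459533251), (nat_lit 14186920446), (nat_lit 14610169808), (nat_lit 13430930038), (nat_lit 12811753456)], (nat_lit 780000), (nat_lit 1271251), (nat_lit 1271251), (nat_lit 1271251), (nat_lit 780000), (nat_lit 3072501), [(nat_lit 1977501), (nat_lit 1271251), (nat_lit 1271251)], [(nat_lit 31), (nat_lit 65), (nat_lit 483), (nat_lit 250), (nat_lit 11)]⟩⟩))))))))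
noncomputable def c3_18 : Tr Lf :=
 (.ord (.leaf ⟨(nat_lit 0), (nat_lit 0), (nat_lit 0), (nat_lit 1000), (nat_lit 10042), (nat_lit 6553), (nat_lit 10362), (nat_lit 11827), (nat_lit 0), (nat_lit 50447), (nat_lit 0), [], Pd.none, Pd.none, (nat_lit 0), (nat_lit 1), (nat_lit 0), (nat_lit 0), (nat_lit 0), (nat_lit 0), [], [], [], [],
 ⟨⟨[(nat_lit 60), (nat_lit 80), (nat_lit 100)], [(nat_lit 0), (nat_lit 304), (nat_lit 825)], [((nat_lit 0), (nat_lit 0), (nat_lit 0)), ((nat_lit 1000), (nat_lit 905), (nat_lit 238)), ((nat_lit 1000), (nat_lit 871), (nat_lit 407))], ((nat_lit 87), (nat_lit 100), (nat_lit 44))⟩, (nat_lit 3787299), (nat_lit 156), (nat_lit 156), (nat_lit 0), (nat_lit 248859), [(nat_lit 3462828786), (nat_lit 4893376967), (nat_lit 6250000000)], [], [(nat_lit 18254101168), (nat_lit 19604326173), (nat_lit 30821111602), (nat_lit 31763082495), (nat_lit 30821111602), (nat_lit 31763082495), (nat_lit 37794167055), (nat_lit 38271363483)], (nat_lit 1271251),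 (nat_lit 1271251), (nat_lit 1271251), (nat_lit 1271251), (nat_lit 1271251), (nat_lit 1271251), [(nat_lit 780000), (nat_lit 1100000), (nat_lit 1442501)], [(nat_lit 9), (nat_lit 50), (nat_lit 203), (nat_lit 0), (nat_lit 6)]⟩,
 ⟨⟨[(nat_lit 120), (nat_lit 140), (nat_lit 160)], [(nat_lit 0), (nat_lit 266), (nat_lit 862)], [((nat_lit 0), (nat_lit 0), (nat_lit 0)), ((nat_lit 960), (nat_lit 1000), (nat_lit 200)), ((nat_lit 874), (nat_lit 1000), (nat_lit 406))], ((nat_lit 100), (nat_lit 86), (nat_lit 44))⟩, (nat_lit 9830885), (nat_lit 525), (nat_lit 525), (nat_lit 0), (nat_lit 524301), [(nat_lit 7968000000), (nat_lit 9842000000), (nat_lit 11872000000)], [], [(nat_lit 34784860631), (nat_lit 31582938544), (nat_lit 41450156838), (nat_lit 43021005096), (nat_lit 65336616128), (nat_lit 51700244852), (nat_lit 42816586734), (nat_lit 42333913913)], (nat_lit 1271251), (nat_lit 1271251), (nat_lit 1271251), (nat_lit 1271251), (nat_lit 0), (nat_lit 2825001), [(nat_lit 1695001),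 (nat_lit 1271251), (nat_lit 1271251)], [(nat_lit 27), (nat_lit 62), (nat_lit 538), (nat_lit 300), (nat_lit 14)]⟩,
 ⟨⟨[(nat_lit 120), (nat_lit 140), (nat_lit 160)], [(nat_lit 0), (nat_lit 266), (nat_lit 862)], [((nat_lit 0), (nat_lit 0), (nat_lit 0)), ((nat_lit 960), (nat_lit 1000), (nat_lit 200)), ((nat_lit 874), (nat_lit 1000), (nat_lit 406))], ((nat_lit 100), (nat_lit 86), (nat_lit 44))⟩, (nat_lit 2052632), (nat_lit 300), (nat_lit 525), (nat_lit 66400000), (nat_lit 524301), [(nat_lit 7968000000), (nat_lit 9842000000), (nat_lit 11872000000)], [], [(nat_lit 43444754783), (nat_lit 43069067898), (nat_lit 48667933005), (nat_lit 47963102723), (nat_lit 67639807088), (nat_lit 52075498742), (nat_lit 45136164269), (nat_lit 44404525136)], (nat_lit 1271251), (nat_lit 1271251), (nat_lit 1271251), (nat_lit 1271251), (nat_lit 0), (nat_lit 2825001), [(nat_lit 1695001), (nat_lit 1271251), (nat_lit 1271251)], [(nat_lit 27), (nat_lit 62), (nat_lit 538), (nat_lit 300),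 (nat_lit 14)]⟩⟩))
def l002 : List St := [⟨⟨(nat_lit 300), (nat_lit 320), (nat_lit 120), (nat_lit 240), (nat_lit 120), (nat_lit 180), (nat_lit 0), (nat_lit 80), (nat_lit 0), (nat_lit 120), (nat_lit 0), (nat_lit 400), (nat_lit 0), (nat_lit 20)⟩, (nat_lit 3), (nat_lit 3), (nat_lit 3), true, true, false⟩,
  ⟨⟨(nat_lit 300), (nat_lit 320), (nat_lit 180), (nat_lit 240), (nat_lit 180), (nat_lit 240), (nat_lit 10), (nat_lit 40), (nat_lit 10), (nat_lit 120), (nat_lit 0), (nat_lit 400), (nat_lit 0), (nat_lit 20)⟩, (nat_lit 3), (nat_lit 3), (nat_lit 3), true, true, false⟩,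
  ⟨⟨(nat_lit 300), (nat_lit 320), (nat_lit 180), (nat_lit 240), (nat_lit 180), (nat_lit 240), (nat_lit 40), (nat_lit 80), (nat_lit 10), (nat_lit 120), (nat_lit 0), (nat_lit 400), (nat_lit 0), (nat_lit 20)⟩, (nat_lit 3), (nat_lit 3), (nat_lit 3), true, true, false⟩,
  ⟨⟨(nat_lit 300), (nat_lit 320), (nat_lit 120), (nat_lit 240), (nat_lit 120), (nat_lit 240), (nat_lit 80), (nat_lit 120), (nat_lit 0), (nat_lit 120), (nat_lit 0), (nat_lit 400), (nat_lit 0), (nat_lit 20)⟩, (nat_lit 3), (nat_lit 3), (nat_lit 3), true, true, false⟩,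
  ⟨⟨(nat_lit 300), (nat_lit 320), (nat_lit 120), (nat_lit 240), (nat_lit 120), (nat_lit 240), (nat_lit 0), (nat_lit 120), (nat_lit 120), (nat_lit 200), (nat_lit 0), (nat_lit 400), (nat_lit 0), (nat_lit 20)⟩, (nat_lit 3), (nat_lit 3), (nat_lit 3), true, false, false⟩,
  ⟨⟨(nat_lit 300), (nat_lit 320), (nat_lit 120), (nat_lit 240), (nat_lit 120), (nat_lit 240), (nat_lit 120), (nat_lit 240), (nat_lit 0), (nat_lit 120), (nat_lit 0), (nat_lit 400), (nat_lit 0), (nat_lit 20)⟩, (nat_lit 3), (nat_lit 3), (nat_lit 3), false, true, false⟩,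
  ⟨⟨(nat_lit 300), (nat_lit 320), (nat_lit 120), (nat_lit 240), (nat_lit 120), (nat_lit 240), (nat_lit 120), (nat_lit 240), (nat_lit 120), (nat_lit 200), (nat_lit 0), (nat_lit 400), (nat_lit 0), (nat_lit 20)⟩, (nat_lit 3), (nat_lit 3), (nat_lit 3), false, false, false⟩,
  ⟨⟨(nat_lit 300), (nat_lit 320), (nat_lit 120), (nat_lit 240), (nat_lit 120), (nat_lit 240), (nat_lit 240), (nat_lit 390), (nat_lit 0), (nat_lit 200), (nat_lit 0), (nat_lit 400), (nat_lit 0), (nat_lit 20)⟩, (nat_lit 3), (nat_lit 3), (nat_lit 3), false, false, false⟩,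
  ⟨⟨(nat_lit 300), (nat_lit 320), (nat_lit 120), (nat_lit 240), (nat_lit 120), (nat_lit 180), (nat_lit 0), (nat_lit 120), (nat_lit 200), (nat_lit 280), (nat_lit 0), (nat_lit 390), (nat_lit 0), (nat_lit 20)⟩, (nat_lit 3), (nat_lit 3), (nat_lit 3), true, false, false⟩,
  ⟨⟨(nat_lit 300), (nat_lit 320), (nat_lit 120), (nat_lit 180), (nat_lit 120), (nat_lit 180), (nat_lit 0), (nat_lit 80), (nat_lit 280), (nat_lit 370), (nat_lit 0), (nat_lit 300), (nat_lit 0), (nat_lit 20)⟩, (nat_lit 3), (nat_lit 3), (nat_lit 3), true, false, false⟩,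
  ⟨⟨(nat_lit 300), (nat_lit 320), (nat_lit 180), (nat_lit 220), (nat_lit 120), (nat_lit 160), (nat_lit 10), (nat_lit 40), (nat_lit 280), (nat_lit 350), (nat_lit 0), (nat_lit 300), (nat_lit 0), (nat_lit 12)⟩, (nat_lit 3), (nat_lit 3), (nat_lit 3), true, false, false⟩,
  ⟨⟨(nat_lit 300), (nat_lit 320), (nat_lit 180), (nat_lit 220), (nat_lit 120), (nat_lit 160), (nat_lit 40), (nat_lit 80), (nat_lit 280), (nat_lit 350), (nat_lit 0), (nat_lit 300), (nat_lit 0), (nat_lit 12)⟩, (nat_lit 3), (nat_lit 3), (nat_lit 3), true, false, false⟩,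
  ⟨⟨(nat_lit 300), (nat_lit 320), (nat_lit 220), (nat_lit 240), (nat_lit 120), (nat_lit 160), (nat_lit 10), (nat_lit 80), (nat_lit 280), (nat_lit 350), (nat_lit 0), (nat_lit 300), (nat_lit 0), (nat_lit 20)⟩, (nat_lit 3), (nat_lit 3), (nat_lit 3), true, false, false⟩,
  ⟨⟨(nat_lit 300), (nat_lit 320), (nat_lit 180), (nat_lit 240), (nat_lit 160), (nat_lit 180), (nat_lit 10), (nat_lit 80), (nat_lit 280), (nat_lit 370), (nat_lit 0), (nat_lit 300), (nat_lit 0), (nat_lit 20)⟩, (nat_lit 3), (nat_lit 3), (nat_lit 3), true, false, false⟩,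
  ⟨⟨(nat_lit 300), (nat_lit 320), (nat_lit 120), (nat_lit 240), (nat_lit 120), (nat_lit 180), (nat_lit 80), (nat_lit 120), (nat_lit 280), (nat_lit 370), (nat_lit 0), (nat_lit 340), (nat_lit 0), (nat_lit 20)⟩, (nat_lit 3), (nat_lit 3), (nat_lit 3), true, false, false⟩,
  ⟨⟨(nat_lit 300), (nat_lit 320), (nat_lit 120), (nat_lit 240), (nat_lit 120), (nat_lit 180), (nat_lit 120), (nat_lit 200), (nat_lit 200), (nat_lit 370), (nat_lit 0), (nat_lit 400), (nat_lit 0), (nat_lit 20)⟩, (nat_lit 3), (nat_lit 3), (nat_lit 3), false, false, false⟩,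
  ⟨⟨(nat_lit 300), (nat_lit 320), (nat_lit 120), (nat_lit 240), (nat_lit 180), (nat_lit 240), (nat_lit 0), (nat_lit 200), (nat_lit 200), (nat_lit 390), (nat_lit 0), (nat_lit 400), (nat_lit 0), (nat_lit 20)⟩, (nat_lit 3), (nat_lit 3), (nat_lit 3), false, false, false⟩,
  ⟨⟨(nat_lit 300), (nat_lit 320), (nat_lit 120), (nat_lit 240), (nat_lit 120), (nat_lit 180), (nat_lit 200), (nat_lit 390), (nat_lit 200), (nat_lit 390), (nat_lit 0), (nat_lit 400), (nat_lit 0), (nat_lit 20)⟩, (nat_lit 3), (nat_lit 3), (nat_lit 3), false, false, false⟩,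
  ⟨⟨(nat_lit 300), (nat_lit 320), (nat_lit 120), (nat_lit 240), (nat_lit 180), (nat_lit 240), (nat_lit 200), (nat_lit 390), (nat_lit 200), (nat_lit 390), (nat_lit 0), (nat_lit 400), (nat_lit 0), (nat_lit 20)⟩, (nat_lit 3), (nat_lit 3), (nat_lit 3), false, false, false⟩]
theorem t002 (h : EC env Ei) : ∀ τ ∈ l002, Dead τ :=
  List.forall_mem_cons.mpr ⟨chkT_sound0 h (T := c3_0) (by decide +kernel),
  List.forall_mem_cons.mpr ⟨chkT_sound0 h (T := c3_1) (by decide +kernel),
  List.forall_mem_cons.mpr ⟨chkT_sound0 h (T := c3_2) (by decide +kernel),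
  List.forall_mem_cons.mpr ⟨chkT_sound0 h (T := c3_3) (by decide +kernel),
  List.forall_mem_cons.mpr ⟨chkT_sound0 h (T := c3_4) (by decide +kernel),
  List.forall_mem_cons.mpr ⟨chkT_sound0 h (T := c3_5) (by decide +kernel),
  List.forall_mem_cons.mpr ⟨chkT_sound0 h (T := c3_6) (by decide +kernel),
  List.forall_mem_cons.mpr ⟨chkT_sound0 h (T := c3_7) (by decide +kernel),
  List.forall_mem_cons.mpr ⟨chkT_sound0 h (T := c3_8) (by decide +kernel),
  List.forall_mem_cons.mpr ⟨chkT_sound0 h (T := c3_9) (by decide +kernel),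
  List.forall_mem_cons.mpr ⟨chkT_sound0 h (T := c3_10) (by decide +kernel),
  List.forall_mem_cons.mpr ⟨chkT_sound0 h (T := c3_11) (by decide +kernel),
  List.forall_mem_cons.mpr ⟨chkT_sound0 h (T := c3_12) (by decide +kernel),
  List.forall_mem_cons.mpr ⟨chkT_sound0 h (T := c3_13) (by decide +kernel),
  List.forall_mem_cons.mpr ⟨chkT_sound0 h (T := c3_14) (by decide +kernel),
  List.forall_mem_cons.mpr ⟨chkT_sound0 h (T := c3_15) (by decide +kernel),
  List.forall_mem_cons.mpr ⟨chkT_sound0 h (T := c3_16) (by decide +kernel),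
  List.forall_mem_cons.mpr ⟨chkT_sound0 h (T := c3_17) (by decide +kernel),
  List.forall_mem_cons.mpr ⟨chkT_sound0 h (T := c3_18) (by decide +kernel),
  List.forall_mem_nil _⟩⟩⟩⟩⟩⟩⟩⟩⟩⟩⟩⟩⟩⟩⟩⟩⟩⟩⟩
end TC
end Pool.Agent.Lib.MP_6947cd_al
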