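import Pool.Agent.Lib.MP_6947cd_al.C.LeafF
import Pool.Agent.Lib.MP_6947cd_al.TC.E
import Pool.Agent.Lib.MP_6947cd_al.TC.F

/-!
Problem MP_6947cd_al (Chollet).  CASE C, tables and certificates.  Trees of leaves (part 3 of root 4).
-/

set_option autoImplicit false
set_option linter.all false
set_option maxRecDepth 100000
set_option maxHeartbeats 4000000
namespace Pool.Agent.Lib.MP_6947cd_al
namespace TC
open C1
noncomputable def c4_0 : Tr Lf :=
 (.spl (nat_lit 5) (nat_lit 200) (.spl (nat_lit 0) (nat_lit 310) (.spl (nat_lit 0) (nat_lit 305) (.leaf ⟨(nat_lit 0), (nat_lit 1000), (nat_lit 0), (nat_lit 0), (nat_lit 13984), (nat_lit 4481), (nat_lit 14487), (nat_lit 0), (nat_lit 0), (nat_lit 0), (nat_lit 0), [], Pd.none, Pd.none, (nat_lit 0), (nat_lit 1), (nat_lit 0), (nat_lit 0), (nat_lit 3), (nat_lit 0), [⟨(nat_lit 0), (nat_lit 100), (nat_lit 90), (nat_lit 78), (nat_lit 497302547)⟩], [], [], [],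
 ⟨⟨[(nat_lit 60), (nat_lit 80), (nat_lit 100)], [(nat_lit 0), (nat_lit 304), (nat_lit 825)], [((nat_lit 0), (nat_lit 0), (nat_lit 0)), ((nat_lit 1000), (nat_lit 905), (nat_lit 238)), ((nat_lit 1000), (nat_lit 871), (nat_lit 407))], ((nat_lit 88), (nat_lit 100), (nat_lit 35))⟩, (nat_lit 7194849), (nat_lit 224), (nat_lit 224), (nat_lit 0), (nat_lit 124993), [(nat_lit 3282000001), (nat_lit 4688000001), (nat_lit 6250000000)], [], [(nat_lit 18127445142), (nat_lit 18563986595), (nat_lit 17258841462), (nat_lit 17685971236), (nat_lit 16121345861), (nat_lit 16532197747), (nat_lit 15438848500), (nat_lit 15839933654)], (nat_lit 1271251), (nat_lit 1271251), (nat_lit 292188), (nat_lit 490000), (nat_lit 0), (nat_lit 490000), [(nat_lit 780000), (nat_lit 1100000), (nat_lit 1442501)], [(nat_lit 9), (nat_lit 50), (nat_lit 249), (nat_lit 40), (nat_lit 10)]⟩,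
 ⟨⟨[(nat_lit 80), (nat_lit 100), (nat_lit 120)], [(nat_lit 0), (nat_lit 0), (nat_lit 511)], [((nat_lit 0), (nat_lit 0), (nat_lit 0)), ((nat_lit 0), (nat_lit 0), (nat_lit 0)), ((nat_lit 1000), (nat_lit 997), (nat_lit 383))], ((nat_lit 99), (nat_lit 100), (nat_lit 34))⟩, (nat_lit 0), (nat_lit 281), (nat_lit 281), (nat_lit 0), (nat_lit 228636), [(nat_lit 4688000000), (nat_lit 6250000000), (nat_lit 7968000000)], [], [(nat_lit 37135298487), (nat_lit 31416997008), (nat_lit 25732044768), (nat_lit 24717429144), (nat_lit 31290122639), (nat_lit 18756389786), (nat_lit 33232221540), (nat_lit 19848493512)], (nat_lit 1271251), (nat_lit 1271251), (nat_lit 292188), (nat_lit 490000), (nat_lit 0), (nat_lit 1412501), [(nat_lit 1100000), (nat_lit 1442501), (nat_lit 1271251)], [(nat_lit 16), (nat_lit 54), (nat_lit 289), (nat_lit 75), (nat_lit 10)]⟩,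
 Rw.none⟩) (.spl (nat_lit 1) (nat_lit 260) (.leaf ⟨(nat_lit 11), (nat_lit 989), (nat_lit 0), (nat_lit 0), (nat_lit 2131), (nat_lit 4378), (nat_lit 14717), (nat_lit 0), (nat_lit 0), (nat_lit 0), (nat_lit 6600), [((nat_lit 310), [((nat_lit 35), (nat_lit 2), (nat_lit 11))])], ⟨(nat_lit 6), false, false, false, (nat_lit 127), (nat_lit 4743), (nat_lit 4874), [(nat_lit 1278300), (nat_lit 1281601), (nat_lit 1299756), (nat_lit 1303088), (nat_lit 1331222), (nat_lit 1333875), (nat_lit 1352678), (nat_lit 1355363)]⟩, ⟨(nat_lit 3), false, false, false, (nat_lit 71), (nat_lit 4743), (nat_lit 4874), [(nat_lit 1061360), (nat_lit 1065547), (nat_lit 1147184), (nat_lit 1151500), (nat_lit 1202485), (nat_lit 1204947), (nat_lit 1288310), (nat_lit 1290899)]⟩, (nat_lit 2518041), (nat_lit 57936837), (nat_lit 6430885), (nat_lit 2632278), (nat_lit 3), (nat_lit 0), [⟨(nat_lit 0), (nat_lit 100), (nat_lit 87), (nat_lit 70), (nat_lit 500189635)⟩], [], [], [],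
 ⟨⟨[(nat_lit 60), (nat_lit 80)], [(nat_lit 0), (nat_lit 379)], [((nat_lit 0), (nat_lit 0), (nat_lit 0)), ((nat_lit 1000), (nat_lit 882), (nat_lit 294))], ((nat_lit 87), (nat_lit 100), (nat_lit 35))⟩, (nat_lit 6153550), (nat_lit 219), (nat_lit 219), (nat_lit 0), (nat_lit 94501), [(nat_lit 3266230416), (nat_lit 4658207600)], [(nat_lit 0), (nat_lit 0)], [(nat_lit 18455946309), (nat_lit 18915107333), (nat_lit 17591039106), (nat_lit 18037622717), (nat_lit 16484129491), (nat_lit 16899129004), (nat_lit 15819983721), (nat_lit 16216034904)], (nat_lit 1271251), (nat_lit 1271251), (nat_lit 292188), (nat_lit 490000), (nat_lit 0), (nat_lit 490000), [(nat_lit 780000), (nat_lit 1100000)], [(nat_lit 8), (nat_lit 44), (nat_lit 249), (nat_lit 40), (nat_lit 12)]⟩,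
 ⟨⟨[(nat_lit 80), (nat_lit 100), (nat_lit 120)], [(nat_lit 0), (nat_lit 0), (nat_lit 511)], [((nat_lit 0), (nat_lit 0), (nat_lit 0)), ((nat_lit 0), (nat_lit 0), (nat_lit 0)), ((nat_lit 1000), (nat_lit 997), (nat_lit 383))], ((nat_lit 99), (nat_lit 100), (nat_lit 34))⟩, (nat_lit 0), (nat_lit 259), (nat_lit 259), (nat_lit 0), (nat_lit 188725), [(nat_lit 4636432000), (nat_lit 6181250000), (nat_lit 7880352000)], [], [(nat_lit 36809354277), (nat_lit 29228574228), (nat_lit 25225059048), (nat_lit 20848230605), (nat_lit 30628208093), (nat_lit 23760473133), (nat_lit 32579874524), (nat_lit 25781768450)], (nat_lit 1271251), (nat_lit 1271251), (nat_lit 292188), (nat_lit 490000), (nat_lit 0), (nat_lit 1412501), [(nat_lit 1100000), (nat_lit 1442501), (nat_lit 1271251)], [(nat_lit 16), (nat_lit 54), (nat_lit 289), (nat_lit 75), (nat_lit 10)]⟩,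
 Rw.none⟩) (.trZ (nat_lit 0) (nat_lit 1) (nat_lit 3) (nat_lit 100) (nat_lit 89) (nat_lit 79) (nat_lit 60) (.leaf ⟨(nat_lit 0), (nat_lit 1000), (nat_lit 0), (nat_lit 0), (nat_lit 8213), (nat_lit 5633), (nat_lit 15602), (nat_lit 0), (nat_lit 0), (nat_lit 0), (nat_lit 0), [], Pd.none, Pd.none, (nat_lit 0), (nat_lit 1), (nat_lit 0), (nat_lit 0), (nat_lit 3), (nat_lit 0), [⟨(nat_lit 0), (nat_lit 100), (nat_lit 89), (nat_lit 79), (nat_lit 2362096170)⟩], [⟨(nat_lit 0), (nat_lit 100), (nat_lit 84), (nat_lit 55), (nat_lit 56102893)⟩], [], [],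
 ⟨⟨[(nat_lit 60), (nat_lit 80)], [(nat_lit 0), (nat_lit 379)], [((nat_lit 0), (nat_lit 0), (nat_lit 0)), ((nat_lit 1000), (nat_lit 882), (nat_lit 294))], ((nat_lit 87), (nat_lit 100), (nat_lit 35))⟩, (nat_lit 0), (nat_lit 218), (nat_lit 218), (nat_lit 0), (nat_lit 137405), [(nat_lit 3282000004), (nat_lit 4688000000)], [], [(nat_lit 19998242872), (nat_lit 20638210826), (nat_lit 18905958388), (nat_lit 19450531688), (nat_lit 16790563628), (nat_lit 17255608592), (nat_lit 16119395272), (nat_lit 16576782697)], (nat_lit 1271251), (nat_lit 1271251), (nat_lit 356250), (nat_lit 490000), (nat_lit 0), (nat_lit 490000), [(nat_lit 780000), (nat_lit 1100000)], [(nat_lit 8), (nat_lit 44), (nat_lit 249), (nat_lit 40), (nat_lit 12)]⟩,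
 ⟨⟨[(nat_lit 80), (nat_lit 100), (nat_lit 120)], [(nat_lit 0), (nat_lit 265), (nat_lit 768)], [((nat_lit 0), (nat_lit 0), (nat_lit 0)), ((nat_lit 1000), (nat_lit 959), (nat_lit 206)), ((nat_lit 1000), (nat_lit 958), (nat_lit 392))], ((nat_lit 95), (nat_lit 100), (nat_lit 34))⟩, (nat_lit 20717128), (nat_lit 278), (nat_lit 278), (nat_lit 0), (nat_lit 243833), [(nat_lit 4688000000), (nat_lit 6250000000), (nat_lit 7968000000)], [], [(nat_lit 25271958798), (nat_lit 30743523797), (nat_lit 20474464728), (nat_lit 25910381024), (nat_lit 12696418975), (nat_lit 16573783198), (nat_lit 14223949956), (nat_lit 13054296612)], (nat_lit 1271251), (nat_lit 1271251), (nat_lit 356250), (nat_lit 490000), (nat_lit 0), (nat_lit 1412501), [(nat_lit 1100000), (nat_lit 1442501), (nat_lit 1271251)], [(nat_lit 16), (nat_lit 54), (nat_lit 289), (nat_lit 75), (nat_lit 10)]⟩,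
 Rw.none⟩)))) (.leaf ⟨(nat_lit 839), (nat_lit 161), (nat_lit 0), (nat_lit 0), (nat_lit 2), (nat_lit 4369), (nat_lit 2396), (nat_lit 0), (nat_lit 0), (nat_lit 0), (nat_lit 301850), [((nat_lit 320), [((nat_lit 15), (nat_lit 0), (nat_lit 225)), ((nat_lit 15), (nat_lit 1), (nat_lit 614))])], ⟨(nat_lit 6), false, false, false, (nat_lit 133), (nat_lit 4472), (nat_lit 4744), [(nat_lit 1281597), (nat_lit 1288210), (nat_lit 1324567), (nat_lit 1331336), (nat_lit 1333872), (nat_lit 1339193), (nat_lit 1376841), (nat_lit 1382319)]⟩, ⟨(nat_lit 3), false, false, false, (nat_lit 73), (nat_lit 4472), (nat_lit 4744), [(nat_lit 1065547), (nat_lit 1073842), (nat_lit 1151500), (nat_lit 1160108), (nat_lit 1204947), (nat_lit 1209798), (nat_lit 1290899), (nat_lit 1296064)]⟩, (nat_lit 2640541), (nat_lit 57277291), (nat_lit 6958208), (nat_lit 2764501), (nat_lit 3), (nat_lit 0), [⟨(nat_lit 0), (nat_lit 100), (nat_lit 85), (nat_lit 72), (nat_lit 346338341)⟩], [⟨(nat_lit 0),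 (nat_lit 100), (nat_lit 80), (nat_lit 60), (nat_lit 124627269)⟩], [], [],
 ⟨⟨[(nat_lit 60), (nat_lit 80)], [(nat_lit 0), (nat_lit 456)], [((nat_lit 0), (nat_lit 0), (nat_lit 0)), ((nat_lit 1000), (nat_lit 859), (nat_lit 351))], ((nat_lit 86), (nat_lit 100), (nat_lit 35))⟩, (nat_lit 0), (nat_lit 222), (nat_lit 222), (nat_lit 0), (nat_lit 161813), [(nat_lit 2191803803), (nat_lit 2618323600)], [(nat_lit 0), (nat_lit 0)], [(nat_lit 18896738746), (nat_lit 19995865617), (nat_lit 17976168794), (nat_lit 18727212698), (nat_lit 17110589496), (nat_lit 17831051791), (nat_lit 16591241917), (nat_lit 17293355246)], (nat_lit 1271251), (nat_lit 1271251), (nat_lit 292188), (nat_lit 490000), (nat_lit 0), (nat_lit 490000), [(nat_lit 780000), (nat_lit 1100000)], [(nat_lit 8), (nat_lit 44), (nat_lit 249), (nat_lit 40), (nat_lit 12)]⟩,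
 ⟨⟨[(nat_lit 80), (nat_lit 100), (nat_lit 120)], [(nat_lit 0), (nat_lit 0), (nat_lit 511)], [((nat_lit 0), (nat_lit 0), (nat_lit 0)), ((nat_lit 0), (nat_lit 0), (nat_lit 0)), ((nat_lit 1000), (nat_lit 997), (nat_lit 383))], ((nat_lit 99), (nat_lit 100), (nat_lit 34))⟩, (nat_lit 0), (nat_lit 312), (nat_lit 312), (nat_lit 0), (nat_lit 307383), [(nat_lit 754768000), (nat_lit 1006250000), (nat_lit 1282848000)], [], [(nat_lit 5992264836), (nat_lit 5157552521), (nat_lit 4106284584), (nat_lit 4047545006), (nat_lit 4985816569), (nat_lit 2982889140), (nat_lit 5303546336), (nat_lit 3090016112)], (nat_lit 1271251), (nat_lit 1271251), (nat_lit 292188), (nat_lit 490000), (nat_lit 0), (nat_lit 1412501), [(nat_lit 1100000), (nat_lit 1442501), (nat_lit 1271251)], [(nat_lit 16), (nat_lit 54), (nat_lit 289), (nat_lit 75), (nat_lit 10)]⟩,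
 Rw.none⟩)) (.spl (nat_lit 1) (nat_lit 260) (.leaf ⟨(nat_lit 823), (nat_lit 98), (nat_lit 0), (nat_lit 79), (nat_lit 1933), (nat_lit 3997), (nat_lit 1405), (nat_lit 919), (nat_lit 0), (nat_lit 0), (nat_lit 823000), [((nat_lit 320), [((nat_lit 15), (nat_lit 2), (nat_lit 823))])], ⟨(nat_lit 6), false, false, false, (nat_lit 127), (nat_lit 4472), (nat_lit 5000), [(nat_lit 1274989), (nat_lit 1288204), (nat_lit 1296408), (nat_lit 1309761), (nat_lit 1328559), (nat_lit 1339186), (nat_lit 1349976), (nat_lit 1360741)]⟩, ⟨(nat_lit 3), false, false, false, (nat_lit 71), (nat_lit 4472), (nat_lit 5000), [(nat_lit 1057141), (nat_lit 1073842), (nat_lit 1142856), (nat_lit 1160108), (nat_lit 1199998), (nat_lit 1209798), (nat_lit 1285713), (nat_lit 1296064)]⟩, (nat_lit 2537493), (nat_lit 57843610), (nat_lit 6483924), (nat_lit 2672466), (nat_lit 5), (nat_lit 0), [⟨(nat_lit 0), (nat_lit 100), (nat_lit 86), (nat_lit 77), (nat_lit 410985675)⟩], [⟨(nat_lit 0), (nat_lit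 100), (nat_lit 85), (nat_lit 38), (nat_lit 209595959)⟩], [], [],
 ⟨⟨[(nat_lit 60), (nat_lit 80), (nat_lit 100)], [(nat_lit 0), (nat_lit 304), (nat_lit 825)], [((nat_lit 0), (nat_lit 0), (nat_lit 0)), ((nat_lit 1000), (nat_lit 905), (nat_lit 238)), ((nat_lit 1000), (nat_lit 871), (nat_lit 407))], ((nat_lit 88), (nat_lit 100), (nat_lit 35))⟩, (nat_lit 2753951), (nat_lit 224), (nat_lit 224), (nat_lit 0), (nat_lit 124095), [(nat_lit 2190930168), (nat_lit 2130774436), (nat_lit 1807785364)], [(nat_lit 0), (nat_lit 0), (nat_lit 0)], [(nat_lit 17107066461), (nat_lit 19196328621), (nat_lit 16580948077), (nat_lit 18042891520), (nat_lit 15891269307), (nat_lit 17300458090), (nat_lit 15478317234), (nat_lit 16854998032)], (nat_lit 1271251), (nat_lit 1271251), (nat_lit 292188), (nat_lit 490000), (nat_lit 0), (nat_lit 490000), [(nat_lit 780000), (nat_lit 1100000), (nat_lit 1442501)], [(nat_lit 9), (nat_lit 50), (nat_lit 249), (nat_lit 40), (nat_lit 10)]⟩,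
 ⟨⟨[(nat_lit 80), (nat_lit 100), (nat_lit 120)], [(nat_lit 0), (nat_lit 0), (nat_lit 511)], [((nat_lit 0), (nat_lit 0), (nat_lit 0)), ((nat_lit 0), (nat_lit 0), (nat_lit 0)), ((nat_lit 1000), (nat_lit 997), (nat_lit 383))], ((nat_lit 99), (nat_lit 100), (nat_lit 34))⟩, (nat_lit 422951), (nat_lit 251), (nat_lit 251), (nat_lit 0), (nat_lit 253088), [(nat_lit 829776000), (nat_lit 1106250000), (nat_lit 1410336000)], [], [(nat_lit 4049979299), (nat_lit 4121100507), (nat_lit 3688841001), (nat_lit 3878398574), (nat_lit 6041428012), (nat_lit 6248421255), (nat_lit 5656202083), (nat_lit 5806255778)], (nat_lit 1271251), (nat_lit 1271251), (nat_lit 292188), (nat_lit 490000), (nat_lit 1271251), (nat_lit 1271251), [(nat_lit 1100000), (nat_lit 1442501), (nat_lit 1271251)], [(nat_lit 16), (nat_lit 54), (nat_lit 345), (nat_lit 125), (nat_lit 11)]⟩,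
 ⟨⟨[(nat_lit 140), (nat_lit 160), (nat_lit 180)], [(nat_lit 0), (nat_lit 0), (nat_lit 799)], [((nat_lit 0), (nat_lit 0), (nat_lit 0)), ((nat_lit 0), (nat_lit 0), (nat_lit 0)), ((nat_lit 728), (nat_lit 1000), (nat_lit 454))], ((nat_lit 100), (nat_lit 79), (nat_lit 37))⟩, (nat_lit 69409), (nat_lit 300), (nat_lit 978), (nat_lit 5861802), (nat_lit 1259675), [(nat_lit 777518000), (nat_lit 937888000), (nat_lit 1110582000)], [], [(nat_lit 4798191410), (nat_lit 4578938921), (nat_lit 4315000728), (nat_lit 4081230100), (nat_lit 4801984076), (nat_lit 4566423054), (nat_lit 4218657532), (nat_lit 3989778328)], (nat_lit 780000), (nat_lit 1435001), (nat_lit 0), (nat_lit 490000), (nat_lit 1271251), (nat_lit 1271251), [(nat_lit 1977501), (nat_lit 1271251), (nat_lit 1271251)], [(nat_lit 31), (nat_lit 65), (nat_lit 401), (nat_lit 175), (nat_lit 10)]⟩⟩) (.trZ (nat_lit 0) (nat_lit 1) (nat_lit 3) (nat_lit 100) (nat_lit 91) (nat_lit 77) (nat_lit 60) (.leaf ⟨(nat_lit 0),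 (nat_lit 761), (nat_lit 0), (nat_lit 239), (nat_lit 0), (nat_lit 5338), (nat_lit 6390), (nat_lit 2637), (nat_lit 0), (nat_lit 0), (nat_lit 0), [], Pd.none, Pd.none, (nat_lit 0), (nat_lit 1), (nat_lit 0), (nat_lit 0), (nat_lit 5), (nat_lit 0), [⟨(nat_lit 0), (nat_lit 100), (nat_lit 89), (nat_lit 86), (nat_lit 1511742511)⟩], [⟨(nat_lit 0), (nat_lit 100), (nat_lit 85), (nat_lit 38), (nat_lit 325768665)⟩], [⟨(nat_lit 1), (nat_lit 54), (nat_lit 96), (nat_lit 100), (nat_lit 205091677)⟩], [],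
 ⟨⟨[(nat_lit 60), (nat_lit 80), (nat_lit 100)], [(nat_lit 0), (nat_lit 304), (nat_lit 825)], [((nat_lit 0), (nat_lit 0), (nat_lit 0)), ((nat_lit 1000), (nat_lit 905), (nat_lit 238)), ((nat_lit 1000), (nat_lit 871), (nat_lit 407))], ((nat_lit 88), (nat_lit 100), (nat_lit 35))⟩, (nat_lit 7462211), (nat_lit 222), (nat_lit 222), (nat_lit 0), (nat_lit 162900), [(nat_lit 3282000002), (nat_lit 4688000003), (nat_lit 6250000000)], [], [(nat_lit 18859452559), (nat_lit 21333162324), (nat_lit 17433058831), (nat_lit 19842425904), (nat_lit 15972367528), (nat_lit 17605996606), (nat_lit 15485470427), (nat_lit 17090606518)], (nat_lit 1271251), (nat_lit 1271251), (nat_lit 356250), (nat_lit 490000), (nat_lit 0), (nat_lit 490000), [(nat_lit 780000), (nat_lit 1100000), (nat_lit 1442501)], [(nat_lit 9), (nat_lit 50), (nat_lit 249), (nat_lit 40), (nat_lit 10)]⟩,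
 ⟨⟨[(nat_lit 80), (nat_lit 100), (nat_lit 120)], [(nat_lit 0), (nat_lit 265), (nat_lit 768)], [((nat_lit 0), (nat_lit 0), (nat_lit 0)), ((nat_lit 1000), (nat_lit 959), (nat_lit 206)), ((nat_lit 1000), (nat_lit 958), (nat_lit 392))], ((nat_lit 95), (nat_lit 100), (nat_lit 34))⟩, (nat_lit 6692073), (nat_lit 259), (nat_lit 259), (nat_lit 0), (nat_lit 297237), [(nat_lit 4688000000), (nat_lit 6250000000), (nat_lit 7968000000)], [], [(nat_lit 21397940970), (nat_lit 22472954440), (nat_lit 20745291565), (nat_lit 21801654080), (nat_lit 31627457305), (nat_lit 32697719540), (nat_lit 30205358940), (nat_lit 31269330700)], (nat_lit 1271251), (nat_lit 1271251), (nat_lit 356250), (nat_lit 490000), (nat_lit 1271251), (nat_lit 1271251), [(nat_lit 1100000), (nat_lit 1442501), (nat_lit 1271251)], [(nat_lit 16), (nat_lit 54), (nat_lit 345), (nat_lit 125), (nat_lit 11)]⟩,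
 ⟨⟨[(nat_lit 140), (nat_lit 160), (nat_lit 180)], [(nat_lit 0), (nat_lit 0), (nat_lit 799)], [((nat_lit 0), (nat_lit 0), (nat_lit 0)), ((nat_lit 0), (nat_lit 0), (nat_lit 0)), ((nat_lit 728), (nat_lit 1000), (nat_lit 454))], ((nat_lit 100), (nat_lit 79), (nat_lit 37))⟩, (nat_lit 209985), (nat_lit 300), (nat_lit 1196), (nat_lit 17733800), (nat_lit 1749853), [(nat_lit 2352238000), (nat_lit 2837408000), (nat_lit 3359862000)], [], [(nat_lit 15136865566), (nat_lit 14455342222), (nat_lit 13856965858), (nat_lit 13165994601), (nat_lit 14731180860), (nat_lit 14056406356), (nat_lit 13187649768), (nat_lit 12489084366)], (nat_lit 780000), (nat_lit 1435001), (nat_lit 0), (nat_lit 490000), (nat_lit 1271251), (nat_lit 1271251), [(nat_lit 1977501), (nat_lit 1271251), (nat_lit 1271251)], [(nat_lit 31), (nat_lit 65), (nat_lit 401), (nat_lit 175), (nat_lit 10)]⟩⟩))))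
noncomputable def c4_1 : Tr Lf :=
 (.spl (nat_lit 5) (nat_lit 200) (.spl (nat_lit 5) (nat_lit 120) (.leaf ⟨(nat_lit 0), (nat_lit 1000), (nat_lit 0), (nat_lit 0), (nat_lit 17220), (nat_lit 4893), (nat_lit 17903), (nat_lit 0), (nat_lit 0), (nat_lit 0), (nat_lit 0), [], Pd.none, Pd.none, (nat_lit 0), (nat_lit 1), (nat_lit 0), (nat_lit 0), (nat_lit 3), (nat_lit 0), [⟨(nat_lit 0), (nat_lit 100), (nat_lit 88), (nat_lit 81), (nat_lit 792212362)⟩], [⟨(nat_lit 0), (nat_lit 100), (nat_lit 80), (nat_lit 60), (nat_lit 15381017)⟩], [], [],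
 ⟨⟨[(nat_lit 60), (nat_lit 80), (nat_lit 100)], [(nat_lit 0), (nat_lit 304), (nat_lit 825)], [((nat_lit 0), (nat_lit 0), (nat_lit 0)), ((nat_lit 1000), (nat_lit 905), (nat_lit 238)), ((nat_lit 1000), (nat_lit 871), (nat_lit 407))], ((nat_lit 87), (nat_lit 100), (nat_lit 44))⟩, (nat_lit 5690890), (nat_lit 222), (nat_lit 222), (nat_lit 0), (nat_lit 98711), [(nat_lit 3282000005), (nat_lit 4688000007), (nat_lit 6250000000)], [], [(nat_lit 18770315629), (nat_lit 21122095149), (nat_lit 17447604432), (nat_lit 19107994344), (nat_lit 16100025919), (nat_lit 17714389226), (nat_lit 15291478810), (nat_lit 16878506676)], (nat_lit 1271251), (nat_lit 1271251), (nat_lit 292188), (nat_lit 490000), (nat_lit 0), (nat_lit 490000), [(nat_lit 780000), (nat_lit 1100000), (nat_lit 1442501)], [(nat_lit 9), (nat_lit 50), (nat_lit 249), (nat_lit 40), (nat_lit 10)]⟩,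
 ⟨⟨[(nat_lit 80), (nat_lit 120), (nat_lit 140)], [(nat_lit 0), (nat_lit 0), (nat_lit 1164)], [((nat_lit 0), (nat_lit 0), (nat_lit 0)), ((nat_lit 0), (nat_lit 0), (nat_lit 0)), ((nat_lit 941), (nat_lit 1000), (nat_lit 576))], ((nat_lit 100), (nat_lit 99), (nat_lit 44))⟩, (nat_lit 0), (nat_lit 312), (nat_lit 312), (nat_lit 0), (nat_lit 120406), [(nat_lit 4688000000), (nat_lit 7968000000), (nat_lit 9842000000)], [], [(nat_lit 39731493903), (nat_lit 39601239543), (nat_lit 30350419248), (nat_lit 33396794532), (nat_lit 35908151853), (nat_lit 23130404748), (nat_lit 38121618648), (nat_lit 21582039516)], (nat_lit 1271251), (nat_lit 1271251), (nat_lit 292188), (nat_lit 490000), (nat_lit 0), (nat_lit 780000), [(nat_lit 1100000), (nat_lit 1785001), (nat_lit 1271251)], [(nat_lit 17), (nat_lit 58), (nat_lit 345), (nat_lit 125), (nat_lit 10)]⟩,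
 Rw.none⟩) (.leaf ⟨(nat_lit 0), (nat_lit 1000), (nat_lit 0), (nat_lit 0), (nat_lit 17419), (nat_lit 4893), (nat_lit 24932), (nat_lit 0), (nat_lit 0), (nat_lit 0), (nat_lit 0), [], Pd.none, Pd.none, (nat_lit 0), (nat_lit 1), (nat_lit 0), (nat_lit 0), (nat_lit 3), (nat_lit 0), [⟨(nat_lit 0), (nat_lit 100), (nat_lit 88), (nat_lit 81), (nat_lit 807044187)⟩], [⟨(nat_lit 0), (nat_lit 100), (nat_lit 85), (nat_lit 38), (nat_lit 14476012)⟩], [], [],
 ⟨⟨[(nat_lit 60), (nat_lit 80), (nat_lit 100)], [(nat_lit 0), (nat_lit 304), (nat_lit 825)], [((nat_lit 0), (nat_lit 0), (nat_lit 0)), ((nat_lit 1000), (nat_lit 905), (nat_lit 238)), ((nat_lit 1000), (nat_lit 871), (nat_lit 407))], ((nat_lit 87), (nat_lit 100), (nat_lit 44))⟩, (nat_lit 5690890), (nat_lit 222), (nat_lit 222), (nat_lit 0), (nat_lit 98711), [(nat_lit 3282000037), (nat_lit 4688000124), (nat_lit 6250000000)], [], [(nat_lit 18770315629), (nat_lit 21122095149), (nat_lit 17447604464), (nat_lit 19107994344),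 (nat_lit 16100025951), (nat_lit 17714389375), (nat_lit 15291478842), (nat_lit 16878506825)], (nat_lit 1271251), (nat_lit 1271251), (nat_lit 292188), (nat_lit 490000), (nat_lit 0), (nat_lit 490000), [(nat_lit 780000), (nat_lit 1100000), (nat_lit 1442501)], [(nat_lit 9), (nat_lit 50), (nat_lit 249), (nat_lit 40), (nat_lit 10)]⟩,
 ⟨⟨[(nat_lit 80), (nat_lit 120), (nat_lit 140)], [(nat_lit 0), (nat_lit 0), (nat_lit 1164)], [((nat_lit 0), (nat_lit 0), (nat_lit 0)), ((nat_lit 0), (nat_lit 0), (nat_lit 0)), ((nat_lit 941), (nat_lit 1000), (nat_lit 576))], ((nat_lit 100), (nat_lit 99), (nat_lit 44))⟩, (nat_lit 0), (nat_lit 200), (nat_lit 200), (nat_lit 0), (nat_lit 189825), [(nat_lit 4688000000), (nat_lit 7968000000), (nat_lit 9842000000)], [], [(nat_lit 12578132028), (nat_lit 21111406210), (nat_lit 7411251512), (nat_lit 13736551688), (nat_lit 25256567399), (nat_lit 21222635631), (nat_lit 28028419712), (nat_lit 13779498440)], (nat_lit 1271251), (nat_lit 1271251),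 (nat_lit 292188), (nat_lit 490000), (nat_lit 780000), (nat_lit 1435001), [(nat_lit 1100000), (nat_lit 1785001), (nat_lit 1271251)], [(nat_lit 17), (nat_lit 58), (nat_lit 373), (nat_lit 150), (nat_lit 11)]⟩,
 Rw.none⟩)) (.spl (nat_lit 0) (nat_lit 310) (.leaf ⟨(nat_lit 0), (nat_lit 756), (nat_lit 0), (nat_lit 244), (nat_lit 22957), (nat_lit 4986), (nat_lit 7491), (nat_lit 2829), (nat_lit 0), (nat_lit 0), (nat_lit 0), [], Pd.none, Pd.none, (nat_lit 0), (nat_lit 1), (nat_lit 0), (nat_lit 0), (nat_lit 5), (nat_lit 0), [⟨(nat_lit 0), (nat_lit 100), (nat_lit 89), (nat_lit 79), (nat_lit 1457266476)⟩], [⟨(nat_lit 0), (nat_lit 100), (nat_lit 87), (nat_lit 35), (nat_lit 357084445)⟩], [⟨(nat_lit 1), (nat_lit 49), (nat_lit 97), (nat_lit 100), (nat_lit 277162223)⟩], [],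
 ⟨⟨[(nat_lit 60), (nat_lit 80), (nat_lit 100)], [(nat_lit 0), (nat_lit 304), (nat_lit 825)], [((nat_lit 0), (nat_lit 0), (nat_lit 0)), ((nat_lit 1000), (nat_lit 905), (nat_lit 238)), ((nat_lit 1000), (nat_lit 871), (nat_lit 407))], ((nat_lit 87), (nat_lit 100), (nat_lit 44))⟩, (nat_lit 5833075), (nat_lit 220), (nat_lit 220), (nat_lit 0), (nat_lit 69769), [(nat_lit 3282000003), (nat_lit 4688000013), (nat_lit 6250000000)], [], [(nat_lit 18942951982), (nat_lit 20132465690), (nat_lit 17246275282), (nat_lit 18085096240), (nat_lit 15856564630), (nat_lit 16684019042), (nat_lit 15022738238), (nat_lit 15843372722)], (nat_lit 1271251), (nat_lit 1271251), (nat_lit 292188), (nat_lit 490000), (nat_lit 0), (nat_lit 490000), [(nat_lit 780000), (nat_lit 1100000), (nat_lit 1442501)], [(nat_lit 9), (nat_lit 50), (nat_lit 249), (nat_lit 40), (nat_lit 10)]⟩,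
 ⟨⟨[(nat_lit 80), (nat_lit 120), (nat_lit 140)], [(nat_lit 0), (nat_lit 0), (nat_lit 1164)], [((nat_lit 0), (nat_lit 0), (nat_lit 0)), ((nat_lit 0), (nat_lit 0), (nat_lit 0)), ((nat_lit 941), (nat_lit 1000), (nat_lit 576))], ((nat_lit 100), (nat_lit 99), (nat_lit 44))⟩, (nat_lit 2719945), (nat_lit 230), (nat_lit 230), (nat_lit 0), (nat_lit 131193), [(nat_lit 4688000000), (nat_lit 7968000000), (nat_lit 9842000000)], [], [(nat_lit 21795444269), (nat_lit 24316930717), (nat_lit 20533648884), (nat_lit 22784273865), (nat_lit 35363725149), (nat_lit 36857124822), (nat_lit 33317719600), (nat_lit 34804981560)], (nat_lit 1271251), (nat_lit 1271251), (nat_lit 292188), (nat_lit 490000), (nat_lit 1271251), (nat_lit 1271251), [(nat_lit 1100000), (nat_lit 1785001), (nat_lit 1271251)], [(nat_lit 17), (nat_lit 58), (nat_lit 428), (nat_lit 200), (nat_lit 12)]⟩,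
 ⟨⟨[(nat_lit 140), (nat_lit 160), (nat_lit 180)], [(nat_lit 0), (nat_lit 0), (nat_lit 799)], [((nat_lit 0), (nat_lit 0), (nat_lit 0)), ((nat_lit 0), (nat_lit 0), (nat_lit 0)), ((nat_lit 728), (nat_lit 1000), (nat_lit 454))], ((nat_lit 100), (nat_lit 71), (nat_lit 48))⟩, (nat_lit 214378), (nat_lit 300), (nat_lit 733), (nat_lit 18104800), (nat_lit 711512), [(nat_lit 2401448000), (nat_lit 2896768000), (nat_lit 3430152000)], [], [(nat_lit 14845106252), (nat_lit 14171474721), (nat_lit 13234687400), (nat_lit 12585300701), (nat_lit 14844847116), (nat_lit 14105968292), (nat_lit 13049869592), (nat_lit 12346262758)], (nat_lit 780000), (nat_lit 1435001), (nat_lit 0), (nat_lit 490000), (nat_lit 1271251), (nat_lit 1271251), [(nat_lit 1977501), (nat_lit 1271251), (nat_lit 1271251)], [(nat_lit 31), (nat_lit 65), (nat_lit 401), (nat_lit 175), (nat_lit 10)]⟩⟩) (.leaf ⟨(nat_lit 845), (nat_lit 84), (nat_lit 0), (nat_lit 71), (nat_lit 3920), (nat_lit 3785), (nat_lit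 1467), (nat_lit 823), (nat_lit 0), (nat_lit 0), (nat_lit 305000), [((nat_lit 320), [((nat_lit 15), (nat_lit 0), (nat_lit 220)), ((nat_lit 15), (nat_lit 1), (nat_lit 625))])], ⟨(nat_lit 6), false, false, false, (nat_lit 133), (nat_lit 4472), (nat_lit 4744), [(nat_lit 1281597), (nat_lit 1288210), (nat_lit 1324567), (nat_lit 1331336), (nat_lit 1333872), (nat_lit 1339193), (nat_lit 1376841), (nat_lit 1382319)]⟩, ⟨(nat_lit 3), false, false, false, (nat_lit 73), (nat_lit 4472), (nat_lit 4744), [(nat_lit 1065547), (nat_lit 1073842), (nat_lit 1151500), (nat_lit 1160108), (nat_lit 1204947), (nat_lit 1209798), (nat_lit 1290899), (nat_lit 1296064)]⟩, (nat_lit 2640541), (nat_lit 57277291), (nat_lit 6958208), (nat_lit 2764501), (nat_lit 5), (nat_lit 0), [⟨(nat_lit 0), (nat_lit 100), (nat_lit 86), (nat_lit 83), (nat_lit 577149078)⟩], [⟨(nat_lit 0), (nat_lit 100), (nat_lit 84), (nat_lit 41), (nat_lit 221779685)⟩], [], [],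
 ⟨⟨[(nat_lit 60), (nat_lit 80), (nat_lit 100)], [(nat_lit 0), (nat_lit 456), (nat_lit 976)], [((nat_lit 0), (nat_lit 0), (nat_lit 0)), ((nat_lit 1000), (nat_lit 859), (nat_lit 351)), ((nat_lit 1000), (nat_lit 848), (nat_lit 406))], ((nat_lit 84), (nat_lit 100), (nat_lit 44))⟩, (nat_lit 3231804), (nat_lit 217), (nat_lit 217), (nat_lit 0), (nat_lit 97670), [(nat_lit 2185661009), (nat_lit 2661234675), (nat_lit 3022206000)], [(nat_lit 0), (nat_lit 0), (nat_lit 0)], [(nat_lit 17727104166), (nat_lit 18740678505), (nat_lit 16390096618), (nat_lit 17279342280), (nat_lit 15517876634), (nat_lit 16312126413), (nat_lit 14994562948), (nat_lit 15775695378)], (nat_lit 1271251), (nat_lit 1271251), (nat_lit 292188), (nat_lit 490000), (nat_lit 0), (nat_lit 490000), [(nat_lit 780000), (nat_lit 1100000), (nat_lit 1442501)], [(nat_lit 9), (nat_lit 50), (nat_lit 249), (nat_lit 40), (nat_lit 10)]⟩,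
 ⟨⟨[(nat_lit 80), (nat_lit 120), (nat_lit 140)], [(nat_lit 0), (nat_lit 0), (nat_lit 1164)], [((nat_lit 0), (nat_lit 0), (nat_lit 0)), ((nat_lit 0), (nat_lit 0), (nat_lit 0)), ((nat_lit 941), (nat_lit 1000), (nat_lit 576))], ((nat_lit 100), (nat_lit 99), (nat_lit 44))⟩, (nat_lit 406205), (nat_lit 250), (nat_lit 250), (nat_lit 0), (nat_lit 189827), [(nat_lit 726640000), (nat_lit 1235040000), (nat_lit 1525510000)], [], [(nat_lit 3832746643), (nat_lit 4199515197), (nat_lit 3517907154), (nat_lit 3875889478), (nat_lit 5723498727), (nat_lit 6125865410), (nat_lit 5221539064), (nat_lit 5604046160)], (nat_lit 1271251), (nat_lit 1271251), (nat_lit 292188), (nat_lit 490000), (nat_lit 1271251), (nat_lit 1271251), [(nat_lit 1100000), (nat_lit 1785001), (nat_lit 1271251)], [(nat_lit 17), (nat_lit 58), (nat_lit 428), (nat_lit 200), (nat_lit 12)]⟩,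
 ⟨⟨[(nat_lit 140), (nat_lit 160), (nat_lit 180)], [(nat_lit 0), (nat_lit 0), (nat_lit 799)], [((nat_lit 0), (nat_lit 0), (nat_lit 0)), ((nat_lit 0), (nat_lit 0), (nat_lit 0)), ((nat_lit 728), (nat_lit 1000), (nat_lit 454))], ((nat_lit 100), (nat_lit 71), (nat_lit 48))⟩, (nat_lit 62380), (nat_lit 300), (nat_lit 871), (nat_lit 5268203), (nat_lit 1039599), [(nat_lit 698782000), (nat_lit 842912000), (nat_lit 998118000)], [], [(nat_lit 4320210452), (nat_lit 4124259977), (nat_lit 3851729004), (nat_lit 3662831379), (nat_lit 4319882600), (nat_lit 4104951344), (nat_lit 3797710200), (nat_lit 3593039780)], (nat_lit 780000), (nat_lit 1435001), (nat_lit 0), (nat_lit 490000), (nat_lit 1271251), (nat_lit 1271251), [(nat_lit 1977501), (nat_lit 1271251), (nat_lit 1271251)], [(nat_lit 31), (nat_lit 65), (nat_lit 401), (nat_lit 175), (nat_lit 10)]⟩⟩)))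
noncomputable def c4_2 : Tr Lf :=
 (.spl (nat_lit 5) (nat_lit 200) (.leaf ⟨(nat_lit 747), (nat_lit 253), (nat_lit 0), (nat_lit 0), (nat_lit 5711), (nat_lit 4039), (nat_lit 1976), (nat_lit 0), (nat_lit 0), (nat_lit 0), (nat_lit 747000), [((nat_lit 320), [((nat_lit 15), (nat_lit 2), (nat_lit 747))])], ⟨(nat_lit 6), false, false, false, (nat_lit 156), (nat_lit 4472), (nat_lit 5000), [(nat_lit 1328559), (nat_lit 1339186), (nat_lit 1371392), (nat_lit 1382295), (nat_lit 1399984), (nat_lit 1407160), (nat_lit 1442816), (nat_lit 1450269)]⟩, ⟨(nat_lit 3), false, false, false, (nat_lit 71), (nat_lit 4472), (nat_lit 5000), [(nat_lit 1057141), (nat_lit 1073842), (nat_lit 1142856), (nat_lit 1160108), (nat_lit 1199998), (nat_lit 1209798), (nat_lit 1285713), (nat_lit 1296064)]⟩, (nat_lit 2944329), (nat_lit 55246090), (nat_lit 9036540), (nat_lit 2717370), (nat_lit 3), (nat_lit 0), [], [⟨(nat_lit 0), (nat_lit 100), (nat_lit 80), (nat_lit 60), (nat_lit 116887059)⟩],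 [], [],
 ⟨⟨[(nat_lit 60), (nat_lit 80), (nat_lit 100)], [(nat_lit 0), (nat_lit 304), (nat_lit 825)], [((nat_lit 0), (nat_lit 0), (nat_lit 0)), ((nat_lit 1000), (nat_lit 905), (nat_lit 238)), ((nat_lit 1000), (nat_lit 871), (nat_lit 407))], ((nat_lit 87), (nat_lit 100), (nat_lit 44))⟩, (nat_lit 1933400), (nat_lit 212), (nat_lit 212), (nat_lit 0), (nat_lit 164479), [(nat_lit 2280880684), (nat_lit 2450280305), (nat_lit 2131042000)], [(nat_lit 0), (nat_lit 0), (nat_lit 0)], [(nat_lit 16199054755), (nat_lit 17698545912), (nat_lit 16751669934), (nat_lit 18205350569), (nat_lit 14661954449), (nat_lit 16070999541), (nat_lit 15246566092), (nat_lit 16647153249)], (nat_lit 1271251), (nat_lit 1271251), (nat_lit 490000), (nat_lit 780000), (nat_lit 0), (nat_lit 490000), [(nat_lit 780000), (nat_lit 1100000), (nat_lit 1442501)], [(nat_lit 9), (nat_lit 50), (nat_lit 260), (nat_lit 50), (nat_lit 10)]⟩,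
 ⟨⟨[(nat_lit 80), (nat_lit 120), (nat_lit 140)], [(nat_lit 0), (nat_lit 0), (nat_lit 1164)], [((nat_lit 0), (nat_lit 0), (nat_lit 0)), ((nat_lit 0), (nat_lit 0), (nat_lit 0)), ((nat_lit 941), (nat_lit 1000), (nat_lit 576))], ((nat_lit 100), (nat_lit 99), (nat_lit 44))⟩, (nat_lit 0), (nat_lit 363), (nat_lit 363), (nat_lit 0), (nat_lit 310591), [(nat_lit 1186064000), (nat_lit 2015904000), (nat_lit 2490026000)], [], [(nat_lit 11273196616), (nat_lit 9199353000), (nat_lit 9199353000), (nat_lit 8736496761), (nat_lit 9691450172), (nat_lit 7865934428), (nat_lit 10451574428), (nat_lit 8649653112)], (nat_lit 1271251), (nat_lit 1271251), (nat_lit 490000), (nat_lit 780000), (nat_lit 0), (nat_lit 1412501), [(nat_lit 1100000), (nat_lit 1785001), (nat_lit 1271251)], [(nat_lit 17), (nat_lit 58), (nat_lit 373), (nat_lit 150), (nat_lit 11)]⟩,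
 Rw.none⟩) (.spl (nat_lit 0) (nat_lit 310) (.leaf ⟨(nat_lit 619), (nat_lit 280), (nat_lit 0), (nat_lit 101), (nat_lit 0), (nat_lit 4285), (nat_lit 3433), (nat_lit 1104), (nat_lit 0), (nat_lit 0), (nat_lit 208350), [((nat_lit 310), [((nat_lit 15), (nat_lit 0), (nat_lit 351)), ((nat_lit 15), (nat_lit 1), (nat_lit 219)), ((nat_lit 35), (nat_lit 2), (nat_lit 40)), ((nat_lit 15), (nat_lit 2), (nat_lit 9))])], ⟨(nat_lit 6), false, false, false, (nat_lit 155), (nat_lit 4743), (nat_lit 5000), [(nat_lit 1328569), (nat_lit 1333875), (nat_lit 1371422), (nat_lit 1376847), (nat_lit 1399997), (nat_lit 1403574), (nat_lit 1442849), (nat_lit 1446544)]⟩, ⟨(nat_lit 3), false, false, false, (nat_lit 70), (nat_lit 4743), (nat_lit 5000), [(nat_lit 1057141), (nat_lit 1065547), (nat_lit 1142856), (nat_lit 1151500), (nat_lit 1199998), (nat_lit 1204947), (nat_lit 1285713), (nat_lit 1290899)]⟩, (nat_lit 2911758), (nat_lit 55411218), (nat_lit 8950286), (nat_lit 2638496), (nat_lit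 5), (nat_lit 0), [], [⟨(nat_lit 0), (nat_lit 100), (nat_lit 87), (nat_lit 35), (nat_lit 229678488)⟩], [⟨(nat_lit 1), (nat_lit 49), (nat_lit 97), (nat_lit 100), (nat_lit 66503084)⟩], [],
 ⟨⟨[(nat_lit 60), (nat_lit 80), (nat_lit 100)], [(nat_lit 0), (nat_lit 304), (nat_lit 825)], [((nat_lit 0), (nat_lit 0), (nat_lit 0)), ((nat_lit 1000), (nat_lit 905), (nat_lit 238)), ((nat_lit 1000), (nat_lit 871), (nat_lit 407))], ((nat_lit 87), (nat_lit 100), (nat_lit 44))⟩, (nat_lit 4302262), (nat_lit 210), (nat_lit 210), (nat_lit 0), (nat_lit 139152), [(nat_lit 2419809001), (nat_lit 3175729000), (nat_lit 3925584400)], [(nat_lit 0), (nat_lit 0), (nat_lit 0)], [(nat_lit 15955987013), (nat_lit 17028956440), (nat_lit 16557435541), (nat_lit 17345965797), (nat_lit 14277898443), (nat_lit 15060910338), (nat_lit 14916742261), (nat_lit 15657237257)], (nat_lit 1271251), (nat_lit 1271251), (nat_lit 490000), (nat_lit 780000), (nat_lit 0), (nat_lit 490000), [(nat_lit 780000),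 (nat_lit 1100000), (nat_lit 1442501)], [(nat_lit 9), (nat_lit 50), (nat_lit 260), (nat_lit 50), (nat_lit 10)]⟩,
 ⟨⟨[(nat_lit 80), (nat_lit 120), (nat_lit 140)], [(nat_lit 0), (nat_lit 0), (nat_lit 1164)], [((nat_lit 0), (nat_lit 0), (nat_lit 0)), ((nat_lit 0), (nat_lit 0), (nat_lit 0)), ((nat_lit 941), (nat_lit 1000), (nat_lit 576))], ((nat_lit 100), (nat_lit 99), (nat_lit 44))⟩, (nat_lit 945679), (nat_lit 249), (nat_lit 249), (nat_lit 0), (nat_lit 257165), [(nat_lit 1786128000), (nat_lit 3035808000), (nat_lit 3749802000)], [], [(nat_lit 9015706598), (nat_lit 9872949650), (nat_lit 8866831706), (nat_lit 9669821131), (nat_lit 13042168524), (nat_lit 13500218280), (nat_lit 12671466146), (nat_lit 13098318302)], (nat_lit 1271251), (nat_lit 1271251), (nat_lit 490000), (nat_lit 780000), (nat_lit 1271251), (nat_lit 1271251), [(nat_lit 1100000), (nat_lit 1785001), (nat_lit 1271251)], [(nat_lit 17), (nat_lit 58), (nat_lit 428), (nat_lit 200), (nat_lit 12)]⟩,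
 ⟨⟨[(nat_lit 140), (nat_lit 160), (nat_lit 180)], [(nat_lit 0), (nat_lit 0), (nat_lit 799)], [((nat_lit 0), (nat_lit 0), (nat_lit 0)), ((nat_lit 0), (nat_lit 0), (nat_lit 0)), ((nat_lit 728), (nat_lit 1000), (nat_lit 454))], ((nat_lit 100), (nat_lit 71), (nat_lit 48))⟩, (nat_lit 88738), (nat_lit 300), (nat_lit 1053), (nat_lit 7494202), (nat_lit 1438891), [(nat_lit 994042000), (nat_lit 1199072000), (nat_lit 1419858000)], [], [(nat_lit 6439749824), (nat_lit 6157069219), (nat_lit 5864075972), (nat_lit 5589391679), (nat_lit 6240669844), (nat_lit 5958705352), (nat_lit 5612008032), (nat_lit 5320529124)], (nat_lit 780000), (nat_lit 1435001), (nat_lit 0), (nat_lit 490000), (nat_lit 1271251), (nat_lit 1271251), [(nat_lit 1977501), (nat_lit 1271251), (nat_lit 1271251)], [(nat_lit 31), (nat_lit 65), (nat_lit 401), (nat_lit 175), (nat_lit 10)]⟩⟩) (.leaf ⟨(nat_lit 792), (nat_lit 138), (nat_lit 0), (nat_lit 70), (nat_lit 0), (nat_lit 3825), (nat_lit 1874), (nat_lit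 778), (nat_lit 0), (nat_lit 0), (nat_lit 275250), [((nat_lit 320), [((nat_lit 15), (nat_lit 0), (nat_lit 277)), ((nat_lit 15), (nat_lit 1), (nat_lit 515))])], ⟨(nat_lit 6), false, false, false, (nat_lit 157), (nat_lit 4472), (nat_lit 4744), [(nat_lit 1333872), (nat_lit 1339193), (nat_lit 1376841), (nat_lit 1382319), (nat_lit 1403571), (nat_lit 1407171), (nat_lit 1446540), (nat_lit 1450297)]⟩, ⟨(nat_lit 3), false, false, false, (nat_lit 73), (nat_lit 4472), (nat_lit 4744), [(nat_lit 1065547), (nat_lit 1073842), (nat_lit 1151500), (nat_lit 1160108), (nat_lit 1204947), (nat_lit 1209798), (nat_lit 1290899), (nat_lit 1296064)]⟩, (nat_lit 2977073), (nat_lit 55078839), (nat_lit 9123417), (nat_lit 2797744), (nat_lit 5), (nat_lit 0), [⟨(nat_lit 0), (nat_lit 100), (nat_lit 86), (nat_lit 83), (nat_lit 158629872)⟩], [⟨(nat_lit 0), (nat_lit 100), (nat_lit 84), (nat_lit 41), (nat_lit 210351337)⟩], [⟨(nat_lit 1), (nat_lit 49), (nat_lit 97), (nat_lit 100), (nat_lit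 19480587)⟩], [],
 ⟨⟨[(nat_lit 60), (nat_lit 80), (nat_lit 100)], [(nat_lit 0), (nat_lit 456), (nat_lit 976)], [((nat_lit 0), (nat_lit 0), (nat_lit 0)), ((nat_lit 1000), (nat_lit 859), (nat_lit 351)), ((nat_lit 1000), (nat_lit 848), (nat_lit 406))], ((nat_lit 84), (nat_lit 100), (nat_lit 44))⟩, (nat_lit 3412629), (nat_lit 207), (nat_lit 207), (nat_lit 0), (nat_lit 163144), [(nat_lit 2241585604), (nat_lit 2791498263), (nat_lit 3252865600)], [(nat_lit 0), (nat_lit 0), (nat_lit 0)], [(nat_lit 16467852113), (nat_lit 17345358600), (nat_lit 17093770771), (nat_lit 17884664408), (nat_lit 15043028058), (nat_lit 15828428408), (nat_lit 15723321083), (nat_lit 16466786858)], (nat_lit 1271251), (nat_lit 1271251), (nat_lit 490000), (nat_lit 780000), (nat_lit 0), (nat_lit 490000), [(nat_lit 780000), (nat_lit 1100000), (nat_lit 1442501)], [(nat_lit 9), (nat_lit 50), (nat_lit 260), (nat_lit 50), (nat_lit 10)]⟩,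
 ⟨⟨[(nat_lit 80), (nat_lit 120), (nat_lit 140)], [(nat_lit 0), (nat_lit 0), (nat_lit 1164)], [((nat_lit 0), (nat_lit 0), (nat_lit 0)), ((nat_lit 0), (nat_lit 0), (nat_lit 0)), ((nat_lit 941), (nat_lit 1000), (nat_lit 576))], ((nat_lit 100), (nat_lit 99), (nat_lit 44))⟩, (nat_lit 516898), (nat_lit 286), (nat_lit 286), (nat_lit 0), (nat_lit 309857), [(nat_lit 975104000), (nat_lit 1657344000), (nat_lit 2047136000)], [], [(nat_lit 4921562860), (nat_lit 5389534956), (nat_lit 4840311684), (nat_lit 5278667390), (nat_lit 7119626896), (nat_lit 7370035832), (nat_lit 6918008648), (nat_lit 7151036336)], (nat_lit 1271251), (nat_lit 1271251), (nat_lit 490000), (nat_lit 780000), (nat_lit 1271251), (nat_lit 1271251), [(nat_lit 1100000), (nat_lit 1785001), (nat_lit 1271251)], [(nat_lit 17), (nat_lit 58), (nat_lit 428), (nat_lit 200), (nat_lit 12)]⟩,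
 ⟨⟨[(nat_lit 140), (nat_lit 160), (nat_lit 180)], [(nat_lit 0), (nat_lit 0), (nat_lit 799)], [((nat_lit 0), (nat_lit 0), (nat_lit 0)), ((nat_lit 0), (nat_lit 0), (nat_lit 0)), ((nat_lit 728), (nat_lit 1000), (nat_lit 454))], ((nat_lit 100), (nat_lit 71), (nat_lit 48))⟩, (nat_lit 61502), (nat_lit 300), (nat_lit 1200), (nat_lit 5194000), (nat_lit 1758645), [(nat_lit 688940000), (nat_lit 831040000), (nat_lit 984060000)], [], [(nat_lit 4407861404), (nat_lit 4207448228), (nat_lit 4021963876), (nat_lit 3817643498), (nat_lit 4306530104), (nat_lit 4106830824), (nat_lit 3841248080), (nat_lit 3634614300)], (nat_lit 780000), (nat_lit 1435001), (nat_lit 0), (nat_lit 490000), (nat_lit 1271251), (nat_lit 1271251), [(nat_lit 1977501), (nat_lit 1271251), (nat_lit 1271251)], [(nat_lit 31), (nat_lit 65), (nat_lit 401), (nat_lit 175), (nat_lit 10)]⟩⟩)))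
noncomputable def c4_3 : Tr Lf :=
 (.spl (nat_lit 3) (nat_lit 80) (.spl (nat_lit 2) (nat_lit 160) (.trX (nat_lit 5) (nat_lit 1) (nat_lit 2) (nat_lit 100) (nat_lit 40) (nat_lit 100) (nat_lit 390) (.spl (nat_lit 4) (nat_lit 40) (.leaf ⟨(nat_lit 1000), (nat_lit 0), (nat_lit 0), (nat_lit 0), (nat_lit 28162), (nat_lit 4236), (nat_lit 0), (nat_lit 0), (nat_lit 0), (nat_lit 0), (nat_lit 1060000), [((nat_lit 320), [((nat_lit 15), (nat_lit 2), (nat_lit 980)), ((nat_lit 35), (nat_lit 5), (nat_lit 20))])], ⟨(nat_lit 6), false, false, false, (nat_lit 132), (nat_lit 4472), (nat_lit 5000), [(nat_lit 1274989), (nat_lit 1288204), (nat_lit 1317824), (nat_lit 1331315), (nat_lit 1328559), (nat_lit 1339186), (nat_lit 1371392), (nat_lit 1382295)]⟩, ⟨(nat_lit 3), false, false, false, (nat_lit 49), (nat_lit 4472), (nat_lit 5000), [(nat_lit 1057141), (nat_lit 1073842), (nat_lit 1099999), (nat_lit 1116975), (nat_lit 1128570), (nat_lit 1141820), (nat_lit 1171427), (nat_lit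 1184953)]⟩, (nat_lit 2247054), (nat_lit 58761966), (nat_lit 6749832), (nat_lit 1488202), (nat_lit 0), (nat_lit 0), [⟨(nat_lit 0), (nat_lit 100), (nat_lit 88), (nat_lit 81), (nat_lit 1578270075)⟩], [⟨(nat_lit 0), (nat_lit 100), (nat_lit 94), (nat_lit 12), (nat_lit 182628092)⟩], [], [],
 ⟨⟨[(nat_lit 60), (nat_lit 100), (nat_lit 120)], [(nat_lit 0), (nat_lit 609), (nat_lit 1609)], [((nat_lit 0), (nat_lit 0), (nat_lit 0)), ((nat_lit 1000), (nat_lit 905), (nat_lit 238)), ((nat_lit 1000), (nat_lit 882), (nat_lit 668))], ((nat_lit 87), (nat_lit 100), (nat_lit 60))⟩, (nat_lit 0), (nat_lit 219), (nat_lit 219), (nat_lit 0), (nat_lit 63066), [(nat_lit 2058004717), (nat_lit 985835337), (nat_lit 0)], [(nat_lit 0), (nat_lit 0), (nat_lit 994792000)], [(nat_lit 17550723326), (nat_lit 19710009648), (nat_lit 16248035458), (nat_lit 18023676288), (nat_lit 16122099943), (nat_lit 17803677328), (nat_lit 15408087186), (nat_lit 16897487862)], (nat_lit 1271251), (nat_lit 1271251),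 (nat_lit 292188), (nat_lit 490000), (nat_lit 0), (nat_lit 230000), [(nat_lit 780000), (nat_lit 1435001), (nat_lit 1271251)], [(nat_lit 10), (nat_lit 54), (nat_lit 238), (nat_lit 30), (nat_lit 8)]⟩,
 Rw.none,
 Rw.none⟩) (.leaf ⟨(nat_lit 1000), (nat_lit 0), (nat_lit 0), (nat_lit 0), (nat_lit 19833), (nat_lit 4598), (nat_lit 0), (nat_lit 0), (nat_lit 0), (nat_lit 0), (nat_lit 1090000), [((nat_lit 320), [((nat_lit 15), (nat_lit 2), (nat_lit 970)), ((nat_lit 35), (nat_lit 5), (nat_lit 30))])], ⟨(nat_lit 6), false, false, false, (nat_lit 132), (nat_lit 4472), (nat_lit 5000), [(nat_lit 1274989), (nat_lit 1288204), (nat_lit 1317824), (nat_lit 1331315), (nat_lit 1328559), (nat_lit 1339186), (nat_lit 1371392), (nat_lit 1382295)]⟩, ⟨(nat_lit 3), false, false, false, (nat_lit 77), (nat_lit 4472), (nat_lit 5000), [(nat_lit 1128570), (nat_lit 1141820), (nat_lit 1171427), (nat_lit 1184953), (nat_lit 1199998), (nat_lit 1209798), (nat_lit 1242856), (nat_lit 1252931)]⟩,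 (nat_lit 2685162), (nat_lit 57129615), (nat_lit 6869114), (nat_lit 3001271), (nat_lit 0), (nat_lit 0), [⟨(nat_lit 0), (nat_lit 100), (nat_lit 88), (nat_lit 81), (nat_lit 1219382943)⟩], [], [], [],
 ⟨⟨[(nat_lit 60), (nat_lit 100), (nat_lit 120)], [(nat_lit 0), (nat_lit 609), (nat_lit 1609)], [((nat_lit 0), (nat_lit 0), (nat_lit 0)), ((nat_lit 1000), (nat_lit 905), (nat_lit 238)), ((nat_lit 1000), (nat_lit 882), (nat_lit 668))], ((nat_lit 87), (nat_lit 100), (nat_lit 60))⟩, (nat_lit 2530), (nat_lit 199), (nat_lit 199), (nat_lit 0), (nat_lit 63066), [(nat_lit 2198041698), (nat_lit 786918766), (nat_lit 0)], [(nat_lit 0), (nat_lit 0), (nat_lit 1143588000)], [(nat_lit 16140672644), (nat_lit 18366355829), (nat_lit 14889397270), (nat_lit 16719951152), (nat_lit 14646610559), (nat_lit 16244657944), (nat_lit 13918250424), (nat_lit 15425373454)], (nat_lit 1271251), (nat_lit 1271251), (nat_lit 292188), (nat_lit 490000), (nat_lit 230000), (nat_lit 490000), [(nat_lit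 780000), (nat_lit 1435001), (nat_lit 1271251)], [(nat_lit 10), (nat_lit 54), (nat_lit 249), (nat_lit 40), (nat_lit 8)]⟩,
 Rw.none,
 Rw.none⟩))) (.trZ (nat_lit 0) (nat_lit 2) (nat_lit 4) (nat_lit 100) (nat_lit 88) (nat_lit 32) (nat_lit 10) (.spl (nat_lit 6) (nat_lit 28) (.leaf ⟨(nat_lit 1000), (nat_lit 0), (nat_lit 0), (nat_lit 0), (nat_lit 300000), (nat_lit 4235), (nat_lit 0), (nat_lit 0), (nat_lit 0), (nat_lit 0), (nat_lit 1042000), [((nat_lit 320), [((nat_lit 15), (nat_lit 2), (nat_lit 986)), ((nat_lit 35), (nat_lit 5), (nat_lit 14))])], ⟨(nat_lit 6), false, false, false, (nat_lit 132), (nat_lit 4472), (nat_lit 5000), [(nat_lit 1274989), (nat_lit 1288204), (nat_lit 1317824), (nat_lit 1331315), (nat_lit 1328559), (nat_lit 1339186), (nat_lit 1371392), (nat_lit 1382295)]⟩, ⟨(nat_lit 4), false, false, false, (nat_lit 83), (nat_lit 4472), (nat_lit 5000), [(nat_lit 1117856), (nat_lit 1133969), (nat_lit 1160713), (nat_lit 1177102), (nat_lit 1242856), (nat_lit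 1252931), (nat_lit 1285713), (nat_lit 1296064)]⟩, (nat_lit 2790136), (nat_lit 56685636), (nat_lit 6891765), (nat_lit 3422599), (nat_lit 0), (nat_lit 0), [⟨(nat_lit 0), (nat_lit 100), (nat_lit 88), (nat_lit 81), (nat_lit 10316725460)⟩], [⟨(nat_lit 0), (nat_lit 100), (nat_lit 80), (nat_lit 60), (nat_lit 202372928)⟩], [], [],
 ⟨⟨[(nat_lit 60), (nat_lit 100), (nat_lit 120)], [(nat_lit 0), (nat_lit 609), (nat_lit 1609)], [((nat_lit 0), (nat_lit 0), (nat_lit 0)), ((nat_lit 1000), (nat_lit 905), (nat_lit 238)), ((nat_lit 1000), (nat_lit 882), (nat_lit 668))], ((nat_lit 87), (nat_lit 100), (nat_lit 51))⟩, (nat_lit 0), (nat_lit 211), (nat_lit 211), (nat_lit 0), (nat_lit 22654), [(nat_lit 2149141596), (nat_lit 930026435), (nat_lit 0)], [(nat_lit 0), (nat_lit 0), (nat_lit 905514400)], [(nat_lit 17120844744), (nat_lit 19231426009), (nat_lit 16137432498), (nat_lit 17597935521), (nat_lit 15257161603), (nat_lit 16712553641), (nat_lit 14605095256), (nat_lit 16048517231)],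 (nat_lit 1271251), (nat_lit 1271251), (nat_lit 292188), (nat_lit 490000), (nat_lit 54688), (nat_lit 490000), [(nat_lit 780000), (nat_lit 1435001), (nat_lit 1271251)], [(nat_lit 10), (nat_lit 54), (nat_lit 249), (nat_lit 40), (nat_lit 8)]⟩,
 Rw.none,
 Rw.none⟩) (.dle (nat_lit 0))))) (.spl (nat_lit 5) (nat_lit 200) (.leaf ⟨(nat_lit 61), (nat_lit 939), (nat_lit 0), (nat_lit 0), (nat_lit 43827), (nat_lit 5974), (nat_lit 7333), (nat_lit 0), (nat_lit 0), (nat_lit 0), (nat_lit 244000), [((nat_lit 320), [((nat_lit 35), (nat_lit 5), (nat_lit 61))])], ⟨(nat_lit 6), false, false, false, (nat_lit 156), (nat_lit 4472), (nat_lit 5000), [(nat_lit 1328559), (nat_lit 1339186), (nat_lit 1371392), (nat_lit 1382295), (nat_lit 1399984), (nat_lit 1407160), (nat_lit 1442816), (nat_lit 1450269)]⟩, ⟨(nat_lit 3), false, false, false, (nat_lit 71), (nat_lit 4472), (nat_lit 5000), [(nat_lit 1057141), (nat_lit 1073842), (nat_lit 1142856), (nat_lit 1160108), (nat_lit 1199998),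 (nat_lit 1209798), (nat_lit 1285713), (nat_lit 1296064)]⟩, (nat_lit 2944329), (nat_lit 55246090), (nat_lit 9036540), (nat_lit 2717370), (nat_lit 3), (nat_lit 0), [⟨(nat_lit 0), (nat_lit 100), (nat_lit 88), (nat_lit 81), (nat_lit 164359318)⟩], [⟨(nat_lit 0), (nat_lit 100), (nat_lit 85), (nat_lit 38), (nat_lit 141623195)⟩], [], [],
 ⟨⟨[(nat_lit 60), (nat_lit 100), (nat_lit 120)], [(nat_lit 0), (nat_lit 609), (nat_lit 1609)], [((nat_lit 0), (nat_lit 0), (nat_lit 0)), ((nat_lit 1000), (nat_lit 905), (nat_lit 238)), ((nat_lit 1000), (nat_lit 882), (nat_lit 668))], ((nat_lit 87), (nat_lit 100), (nat_lit 60))⟩, (nat_lit 3270205), (nat_lit 204), (nat_lit 204), (nat_lit 0), (nat_lit 63066), [(nat_lit 3204806676), (nat_lit 5433140854), (nat_lit 6531767200)], [(nat_lit 0), (nat_lit 0), (nat_lit 0)], [(nat_lit 19006945563), (nat_lit 20892107977), (nat_lit 19139545769), (nat_lit 21031814201), (nat_lit 15340593175), (nat_lit 17089183565), (nat_lit 15755576913),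 (nat_lit 17403780265)], (nat_lit 1271251), (nat_lit 1271251), (nat_lit 490000), (nat_lit 780000), (nat_lit 0), (nat_lit 490000), [(nat_lit 780000), (nat_lit 1435001), (nat_lit 1271251)], [(nat_lit 10), (nat_lit 54), (nat_lit 260), (nat_lit 50), (nat_lit 9)]⟩,
 ⟨⟨[(nat_lit 80), (nat_lit 120), (nat_lit 160)], [(nat_lit 0), (nat_lit 0), (nat_lit 2132)], [((nat_lit 0), (nat_lit 0), (nat_lit 0)), ((nat_lit 0), (nat_lit 0), (nat_lit 0)), ((nat_lit 858), (nat_lit 1000), (nat_lit 713))], ((nat_lit 100), (nat_lit 92), (nat_lit 61))⟩, (nat_lit 1753002), (nat_lit 353), (nat_lit 353), (nat_lit 0), (nat_lit 121749), [(nat_lit 4402032000), (nat_lit 7481952000), (nat_lit 11147808000)], [], [(nat_lit 41838750928), (nat_lit 34142650100), (nat_lit 34142650100), (nat_lit 33216889787), (nat_lit 35970079356), (nat_lit 29195531304), (nat_lit 38791051304), (nat_lit 32104062939)], (nat_lit 1271251), (nat_lit 1271251), (nat_lit 490000), (nat_lit 780000), (nat_lit 0), (nat_lit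 1412501), [(nat_lit 1100000), (nat_lit 1785001), (nat_lit 1271251)], [(nat_lit 18), (nat_lit 59), (nat_lit 373), (nat_lit 150), (nat_lit 10)]⟩,
 Rw.none⟩) (.spl (nat_lit 1) (nat_lit 260) (.spl (nat_lit 6) (nat_lit 28) (.leaf ⟨(nat_lit 206), (nat_lit 374), (nat_lit 0), (nat_lit 420), (nat_lit 12089), (nat_lit 5344), (nat_lit 7135), (nat_lit 4617), (nat_lit 0), (nat_lit 0), (nat_lit 824000), [((nat_lit 320), [((nat_lit 35), (nat_lit 5), (nat_lit 206))])], ⟨(nat_lit 6), false, false, false, (nat_lit 152), (nat_lit 4472), (nat_lit 5000), [(nat_lit 1328559), (nat_lit 1339186), (nat_lit 1349976), (nat_lit 1360741), (nat_lit 1399984), (nat_lit 1407160), (nat_lit 1421400), (nat_lit 1428715)]⟩, ⟨(nat_lit 3), false, false, false, (nat_lit 71), (nat_lit 4472), (nat_lit 5000), [(nat_lit 1057141), (nat_lit 1073842), (nat_lit 1142856), (nat_lit 1160108), (nat_lit 1199998), (nat_lit 1209798), (nat_lit 1285713), (nat_lit 1296064)]⟩, (nat_lit 2886589), (nat_lit 55647994),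 (nat_lit 8638614), (nat_lit 2713392), (nat_lit 5), (nat_lit 0), [⟨(nat_lit 0), (nat_lit 100), (nat_lit 84), (nat_lit 85), (nat_lit 289150546)⟩], [⟨(nat_lit 0), (nat_lit 100), (nat_lit 94), (nat_lit 12), (nat_lit 638965055)⟩], [⟨(nat_lit 1), (nat_lit 45), (nat_lit 99), (nat_lit 100), (nat_lit 4290599)⟩], [],
 ⟨⟨[(nat_lit 60), (nat_lit 100), (nat_lit 120)], [(nat_lit 0), (nat_lit 609), (nat_lit 1609)], [((nat_lit 0), (nat_lit 0), (nat_lit 0)), ((nat_lit 1000), (nat_lit 905), (nat_lit 238)), ((nat_lit 1000), (nat_lit 882), (nat_lit 668))], ((nat_lit 87), (nat_lit 100), (nat_lit 51))⟩, (nat_lit 1608783), (nat_lit 201), (nat_lit 201), (nat_lit 0), (nat_lit 19013), [(nat_lit 3298476951), (nat_lit 3584448755), (nat_lit 3117771200)], [(nat_lit 0), (nat_lit 0), (nat_lit 0)], [(nat_lit 18118173464), (nat_lit 19852328352), (nat_lit 18528085359), (nat_lit 20176157115), (nat_lit 15623247299), (nat_lit 17261282139), (nat_lit 16093458727), (nat_lit 17639477339)],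 (nat_lit 1271251), (nat_lit 1271251), (nat_lit 490000), (nat_lit 780000), (nat_lit 0), (nat_lit 490000), [(nat_lit 780000), (nat_lit 1435001), (nat_lit 1271251)], [(nat_lit 10), (nat_lit 54), (nat_lit 260), (nat_lit 50), (nat_lit 9)]⟩,
 ⟨⟨[(nat_lit 80), (nat_lit 120), (nat_lit 140)], [(nat_lit 0), (nat_lit 0), (nat_lit 1164)], [((nat_lit 0), (nat_lit 0), (nat_lit 0)), ((nat_lit 0), (nat_lit 0), (nat_lit 0)), ((nat_lit 941), (nat_lit 1000), (nat_lit 576))], ((nat_lit 100), (nat_lit 96), (nat_lit 52))⟩, (nat_lit 2259802), (nat_lit 170), (nat_lit 170), (nat_lit 0), (nat_lit 41016), [(nat_lit 3722272000), (nat_lit 6326592000), (nat_lit 7814548000)], [], [(nat_lit 14306666648), (nat_lit 15617003853), (nat_lit 16340741133), (nat_lit 15409691705), (nat_lit 26488895180), (nat_lit 27107329358), (nat_lit 25641531206), (nat_lit 26295310289)], (nat_lit 1271251), (nat_lit 1271251), (nat_lit 490000), (nat_lit 780000), (nat_lit 1271251), (nat_lit 1271251), [(nat_lit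 1100000), (nat_lit 1785001), (nat_lit 1271251)], [(nat_lit 17), (nat_lit 58), (nat_lit 428), (nat_lit 200), (nat_lit 12)]⟩,
 ⟨⟨[(nat_lit 140), (nat_lit 180), (nat_lit 200)], [(nat_lit 0), (nat_lit 0), (nat_lit 2835)], [((nat_lit 0), (nat_lit 0), (nat_lit 0)), ((nat_lit 0), (nat_lit 0), (nat_lit 0)), ((nat_lit 363), (nat_lit 1000), (nat_lit 798))], ((nat_lit 0), (nat_lit 0), (nat_lit 0))⟩, (nat_lit 115556), (nat_lit 300), (nat_lit 539), (nat_lit 32802000), (nat_lit 190360), [(nat_lit 4133640000), (nat_lit 5904360000), (nat_lit 6888000000)], [], [(nat_lit 28298597620), (nat_lit 27283997941), (nat_lit 25277475458), (nat_lit 24325369267), (nat_lit 28831586964), (nat_lit 27594724032), (nat_lit 25783831830), (nat_lit 24553646290)], (nat_lit 780000), (nat_lit 1435001), (nat_lit 0), (nat_lit 490000), (nat_lit 1271251), (nat_lit 1271251), [(nat_lit 1977501), (nat_lit 1271251), (nat_lit 1271251)], [(nat_lit 32), (nat_lit 67), (nat_lit 401), (nat_lit 175), (nat_lit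 9)]⟩⟩) (.dle (nat_lit 0))) (.leaf ⟨(nat_lit 0), (nat_lit 857), (nat_lit 0), (nat_lit 143), (nat_lit 23332), (nat_lit 6100), (nat_lit 7591), (nat_lit 1722), (nat_lit 0), (nat_lit 0), (nat_lit 0), [], Pd.none, Pd.none, (nat_lit 0), (nat_lit 1), (nat_lit 0), (nat_lit 0), (nat_lit 5), (nat_lit 0), [⟨(nat_lit 0), (nat_lit 100), (nat_lit 87), (nat_lit 95), (nat_lit 728127938)⟩], [⟨(nat_lit 0), (nat_lit 100), (nat_lit 85), (nat_lit 38), (nat_lit 352533176)⟩], [⟨(nat_lit 1), (nat_lit 54), (nat_lit 96), (nat_lit 100), (nat_lit 407214145)⟩], [],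
 ⟨⟨[(nat_lit 60), (nat_lit 100), (nat_lit 120)], [(nat_lit 0), (nat_lit 609), (nat_lit 1609)], [((nat_lit 0), (nat_lit 0), (nat_lit 0)), ((nat_lit 1000), (nat_lit 905), (nat_lit 238)), ((nat_lit 1000), (nat_lit 882), (nat_lit 668))], ((nat_lit 87), (nat_lit 100), (nat_lit 60))⟩, (nat_lit 3908713), (nat_lit 204), (nat_lit 204), (nat_lit 0), (nat_lit 63066), [(nat_lit 3282000078), (nat_lit 6250000018), (nat_lit 7968000000)], [], [(nat_lit 19451664983), (nat_lit 21360791583), (nat_lit 19566948883), (nat_lit 21483082601), (nat_lit 15640620379), (nat_lit 17411762201), (nat_lit 16044558579), (nat_lit 17713198879)], (nat_lit 1271251), (nat_lit 1271251), (nat_lit 490000), (nat_lit 780000), (nat_lit 0), (nat_lit 490000), [(nat_lit 780000), (nat_lit 1435001), (nat_lit 1271251)], [(nat_lit 10), (nat_lit 54), (nat_lit 260), (nat_lit 50), (nat_lit 9)]⟩,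
 ⟨⟨[(nat_lit 80), (nat_lit 120), (nat_lit 140)], [(nat_lit 0), (nat_lit 528), (nat_lit 1572)], [((nat_lit 0), (nat_lit 0), (nat_lit 0)), ((nat_lit 1000), (nat_lit 959), (nat_lit 206)), ((nat_lit 966), (nat_lit 1000), (nat_lit 679))], ((nat_lit 100), (nat_lit 99), (nat_lit 63))⟩, (nat_lit 3109429), (nat_lit 199), (nat_lit 199), (nat_lit 0), (nat_lit 116293), [(nat_lit 4688000000), (nat_lit 7968000000), (nat_lit 9842000000)], [], [(nat_lit 19658336612), (nat_lit 20895896957), (nat_lit 19567156033), (nat_lit 20731059395), (nat_lit 32344790136), (nat_lit 33178319048), (nat_lit 31598474536), (nat_lit 32384900700)], (nat_lit 1271251), (nat_lit 1271251), (nat_lit 490000), (nat_lit 780000), (nat_lit 1271251), (nat_lit 1271251), [(nat_lit 1100000), (nat_lit 1785001), (nat_lit 1271251)], [(nat_lit 17), (nat_lit 58), (nat_lit 428), (nat_lit 200), (nat_lit 12)]⟩,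
 ⟨⟨[(nat_lit 140), (nat_lit 180), (nat_lit 200)], [(nat_lit 0), (nat_lit 0), (nat_lit 2835)], [((nat_lit 0), (nat_lit 0), (nat_lit 0)), ((nat_lit 0), (nat_lit 0), (nat_lit 0)), ((nat_lit 363), (nat_lit 1000), (nat_lit 798))], ((nat_lit 0), (nat_lit 0), (nat_lit 0))⟩, (nat_lit 39344), (nat_lit 300), (nat_lit 765), (nat_lit 11168300), (nat_lit 651654), [(nat_lit 1407406000), (nat_lit 2010294000), (nat_lit 2345200000)], [], [(nat_lit 10019612756), (nat_lit 9570050212), (nat_lit 8900045444), (nat_lit 8473642257), (nat_lit 9913052752), (nat_lit 9394046730), (nat_lit 8794336052), (nat_lit 8290479710)], (nat_lit 780000), (nat_lit 1435001), (nat_lit 0), (nat_lit 490000), (nat_lit 1271251), (nat_lit 1271251), [(nat_lit 1977501), (nat_lit 1271251), (nat_lit 1271251)], [(nat_lit 32), (nat_lit 67), (nat_lit 401), (nat_lit 175), (nat_lit 9)]⟩⟩))))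
noncomputable def c4_4 : Tr Lf :=
 (.trZ (nat_lit 0) (nat_lit 2) (nat_lit 4) (nat_lit 100) (nat_lit 87) (nat_lit 50) (nat_lit 20) (.spl (nat_lit 5) (nat_lit 120) (.spl (nat_lit 1) (nat_lit 260) (.ord (.spl (nat_lit 6) (nat_lit 28) (.spl (nat_lit 6) (nat_lit 16) (.leaf ⟨(nat_lit 0), (nat_lit 1000), (nat_lit 0), (nat_lit 0), (nat_lit 11498), (nat_lit 6015), (nat_lit 10440), (nat_lit 0), (nat_lit 0), (nat_lit 11838526149057), (nat_lit 0), [], Pd.none, Pd.none, (nat_lit 0), (nat_lit 1), (nat_lit 0), (nat_lit 0), (nat_lit 5), (nat_lit 0), [⟨(nat_lit 0), (nat_lit 100), (nat_lit 86), (nat_lit 77), (nat_lit 966136674)⟩], [⟨(nat_lit 0), (nat_lit 100), (nat_lit 84), (nat_lit 68), (nat_lit 288667371)⟩], [⟨(nat_lit 0), (nat_lit 100), (nat_lit 98), (nat_lit 40), (nat_lit 136404224)⟩], [],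
 ⟨⟨[(nat_lit 60), (nat_lit 80), (nat_lit 100)], [(nat_lit 0), (nat_lit 304), (nat_lit 825)], [((nat_lit 0), (nat_lit 0), (nat_lit 0)), ((nat_lit 1000), (nat_lit 905), (nat_lit 238)), ((nat_lit 1000), (nat_lit 871), (nat_lit 407))], ((nat_lit 87), (nat_lit 100), (nat_lit 39))⟩, (nat_lit 5156970), (nat_lit 214), (nat_lit 214), (nat_lit 0), (nat_lit 127762), [(nat_lit 3282000002), (nat_lit 4866370111), (nat_lit 6250000000)], [], [(nat_lit 19394265234), (nat_lit 22051243277), (nat_lit 17109068976), (nat_lit 19599032505), (nat_lit 15018466706), (nat_lit 17604167420), (nat_lit 14316326832), (nat_lit 15971180302)], (nat_lit 1271251), (nat_lit 1271251), (nat_lit 292188), (nat_lit 780000), (nat_lit 111251), (nat_lit 490000), [(nat_lit 780000), (nat_lit 1100000), (nat_lit 1442501)], [(nat_lit 9), (nat_lit 50), (nat_lit 260), (nat_lit 50), (nat_lit 10)]⟩,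
 ⟨⟨[(nat_lit 80), (nat_lit 100), (nat_lit 120)], [(nat_lit 0), (nat_lit 0), (nat_lit 511)], [((nat_lit 0), (nat_lit 0), (nat_lit 0)), ((nat_lit 0), (nat_lit 0), (nat_lit 0)), ((nat_lit 1000), (nat_lit 997), (nat_lit 383))], ((nat_lit 100), (nat_lit 100), (nat_lit 40))⟩, (nat_lit 8796773), (nat_lit 257), (nat_lit 257), (nat_lit 0), (nat_lit 164434), [(nat_lit 4688000000), (nat_lit 6250000000), (nat_lit 7968000000)], [], [(nat_lit 18197122157), (nat_lit 21113269470), (nat_lit 15572950917), (nat_lit 17512629817), (nat_lit 11953044667), (nat_lit 13813204292), (nat_lit 9992598677), (nat_lit 11424752557)], (nat_lit 1271251), (nat_lit 1271251), (nat_lit 292188), (nat_lit 780000), (nat_lit 0), (nat_lit 780000), [(nat_lit 1100000), (nat_lit 1442501), (nat_lit 1271251)], [(nat_lit 16), (nat_lit 54), (nat_lit 272), (nat_lit 60), (nat_lit 9)]⟩,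
 Rw.none⟩) (.leaf ⟨(nat_lit 0), (nat_lit 1000), (nat_lit 0), (nat_lit 0), (nat_lit 23798), (nat_lit 7046), (nat_lit 7426), (nat_lit 0), (nat_lit 0), (nat_lit 15547539528722), (nat_lit 0), [], Pd.none, Pd.none, (nat_lit 0), (nat_lit 1), (nat_lit 0), (nat_lit 0), (nat_lit 5), (nat_lit 0), [⟨(nat_lit 0), (nat_lit 100), (nat_lit 86), (nat_lit 77), (nat_lit 773482331)⟩], [⟨(nat_lit 0), (nat_lit 100), (nat_lit 84), (nat_lit 85), (nat_lit 386960844)⟩], [], [],
 ⟨⟨[(nat_lit 60), (nat_lit 100), (nat_lit 120)], [(nat_lit 0), (nat_lit 609), (nat_lit 1609)], [((nat_lit 0), (nat_lit 0), (nat_lit 0)), ((nat_lit 1000), (nat_lit 905), (nat_lit 238)), ((nat_lit 1000), (nat_lit 882), (nat_lit 668))], ((nat_lit 87), (nat_lit 100), (nat_lit 51))⟩, (nat_lit 4059096), (nat_lit 208), (nat_lit 208), (nat_lit 0), (nat_lit 45806), [(nat_lit 3696075046), (nat_lit 6250000023), (nat_lit 7968000000)], [], [(nat_lit 21004121215), (nat_lit 23960476656), (nat_lit 18318747893), (nat_lit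 20838982182), (nat_lit 16531515966), (nat_lit 18593900376), (nat_lit 14882759884), (nat_lit 16940631355)], (nat_lit 1271251), (nat_lit 1271251), (nat_lit 292188), (nat_lit 780000), (nat_lit 111251), (nat_lit 490000), [(nat_lit 780000), (nat_lit 1435001), (nat_lit 1271251)], [(nat_lit 10), (nat_lit 54), (nat_lit 260), (nat_lit 50), (nat_lit 9)]⟩,
 ⟨⟨[(nat_lit 80), (nat_lit 120), (nat_lit 140)], [(nat_lit 0), (nat_lit 0), (nat_lit 1164)], [((nat_lit 0), (nat_lit 0), (nat_lit 0)), ((nat_lit 0), (nat_lit 0), (nat_lit 0)), ((nat_lit 941), (nat_lit 1000), (nat_lit 576))], ((nat_lit 100), (nat_lit 96), (nat_lit 52))⟩, (nat_lit 4921920), (nat_lit 249), (nat_lit 249), (nat_lit 0), (nat_lit 59563), [(nat_lit 4688000000), (nat_lit 7968000000), (nat_lit 9842000000)], [], [(nat_lit 22160283143), (nat_lit 24006948760), (nat_lit 20834365800), (nat_lit 22533723981), (nat_lit 18540920178), (nat_lit 20173244571), (nat_lit 21327243810), (nat_lit 18991687621)], (nat_lit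 1271251), (nat_lit 1271251), (nat_lit 292188), (nat_lit 780000), (nat_lit 0), (nat_lit 780000), [(nat_lit 1100000), (nat_lit 1785001), (nat_lit 1271251)], [(nat_lit 17), (nat_lit 58), (nat_lit 345), (nat_lit 125), (nat_lit 10)]⟩,
 Rw.none⟩)) (.dle (nat_lit 0)))) (.trZ (nat_lit 0) (nat_lit 1) (nat_lit 3) (nat_lit 100) (nat_lit 91) (nat_lit 77) (nat_lit 60) (.leaf ⟨(nat_lit 0), (nat_lit 826), (nat_lit 0), (nat_lit 174), (nat_lit 27623), (nat_lit 8214), (nat_lit 9294), (nat_lit 3202), (nat_lit 0), (nat_lit 3106), (nat_lit 0), [], Pd.none, Pd.none, (nat_lit 0), (nat_lit 1), (nat_lit 0), (nat_lit 0), (nat_lit 5), (nat_lit 0), [⟨(nat_lit 0), (nat_lit 100), (nat_lit 89), (nat_lit 86), (nat_lit 444776456)⟩], [⟨(nat_lit 0), (nat_lit 100), (nat_lit 85), (nat_lit 72), (nat_lit 845805321)⟩], [], [],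
 ⟨⟨[(nat_lit 60), (nat_lit 100), (nat_lit 120)], [(nat_lit 0), (nat_lit 609), (nat_lit 1609)], [((nat_lit 0), (nat_lit 0), (nat_lit 0)), ((nat_lit 1000), (nat_lit 905), (nat_lit 238)), ((nat_lit 1000), (nat_lit 882), (nat_lit 668))], ((nat_lit 87), (nat_lit 100), (nat_lit 60))⟩, (nat_lit 3457425), (nat_lit 256), (nat_lit 256), (nat_lit 0), (nat_lit 178524), [(nat_lit 3828534855), (nat_lit 6250000001), (nat_lit 7968000000)], [], [(nat_lit 21678920580), (nat_lit 24961933341), (nat_lit 19214356584), (nat_lit 22243697238), (nat_lit 16922027336), (nat_lit 18738939648), (nat_lit 15663078811), (nat_lit 17219149547)], (nat_lit 1271251), (nat_lit 1271251), (nat_lit 356250), (nat_lit 780000), (nat_lit 111251), (nat_lit 490000), [(nat_lit 780000), (nat_lit 1435001), (nat_lit 1271251)], [(nat_lit 10), (nat_lit 54), (nat_lit 260), (nat_lit 50), (nat_lit 9)]⟩,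
 ⟨⟨[(nat_lit 80), (nat_lit 120), (nat_lit 140)], [(nat_lit 0), (nat_lit 528), (nat_lit 1572)], [((nat_lit 0), (nat_lit 0), (nat_lit 0)), ((nat_lit 1000), (nat_lit 959), (nat_lit 206)), ((nat_lit 966), (nat_lit 1000), (nat_lit 679))], ((nat_lit 100), (nat_lit 99), (nat_lit 63))⟩, (nat_lit 10756722), (nat_lit 341), (nat_lit 341), (nat_lit 0), (nat_lit 211120), [(nat_lit 4688000000), (nat_lit 7968000000), (nat_lit 9842000000)], [], [(nat_lit 20349722608), (nat_lit 21919587459), (nat_lit 24350724329), (nat_lit 19940363510), (nat_lit 25876535186), (nat_lit 21554117680), (nat_lit 30413100172), (nat_lit 26175484607)], (nat_lit 1271251), (nat_lit 1271251), (nat_lit 356250), (nat_lit 780000), (nat_lit 0), (nat_lit 780000), [(nat_lit 1100000), (nat_lit 1785001), (nat_lit 1271251)], [(nat_lit 17), (nat_lit 58), (nat_lit 373), (nat_lit 150), (nat_lit 11)]⟩,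
 ⟨⟨[(nat_lit 100), (nat_lit 140), (nat_lit 160)], [(nat_lit 0), (nat_lit 0), (nat_lit 1280)], [((nat_lit 0), (nat_lit 0), (nat_lit 0)), ((nat_lit 0), (nat_lit 0), (nat_lit 0)), ((nat_lit 800), (nat_lit 1000), (nat_lit 600))], ((nat_lit 100), (nat_lit 80), (nat_lit 60))⟩, (nat_lit 84825), (nat_lit 300), (nat_lit 504), (nat_lit 12232200), (nat_lit 232303), [(nat_lit 1087500000), (nat_lit 1712508000), (nat_lit 2065728000)], [], [(nat_lit 9096708379), (nat_lit 9754067414), (nat_lit 7208280976), (nat_lit 7854068076), (nat_lit 6246028827), (nat_lit 6822639034), (nat_lit 6520126638), (nat_lit 5146832000)], (nat_lit 1271251), (nat_lit 1271251), (nat_lit 111251), (nat_lit 490000), (nat_lit 0), (nat_lit 780000), [(nat_lit 1412501), (nat_lit 1271251), (nat_lit 1271251)], [(nat_lit 23), (nat_lit 62), (nat_lit 345), (nat_lit 125), (nat_lit 9)]⟩⟩))) (.spl (nat_lit 5) (nat_lit 280) (.spl (nat_lit 1) (nat_lit 260) (.ord (.spl (nat_lit 6) (nat_lit 28) (.leaf ⟨(nat_lit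 0), (nat_lit 0), (nat_lit 0), (nat_lit 1000), (nat_lit 13425), (nat_lit 5272), (nat_lit 19009), (nat_lit 10802), (nat_lit 0), (nat_lit 25571), (nat_lit 0), [], Pd.none, Pd.none, (nat_lit 0), (nat_lit 1), (nat_lit 0), (nat_lit 0), (nat_lit 0), (nat_lit 0), [⟨(nat_lit 0), (nat_lit 100), (nat_lit 86), (nat_lit 77), (nat_lit 74033866)⟩], [⟨(nat_lit 0), (nat_lit 100), (nat_lit 87), (nat_lit 50), (nat_lit 1977372219)⟩], [], [],
 ⟨⟨[(nat_lit 60), (nat_lit 100), (nat_lit 120)], [(nat_lit 0), (nat_lit 609), (nat_lit 1609)], [((nat_lit 0), (nat_lit 0), (nat_lit 0)), ((nat_lit 1000), (nat_lit 905), (nat_lit 238)), ((nat_lit 1000), (nat_lit 882), (nat_lit 668))], ((nat_lit 87), (nat_lit 100), (nat_lit 51))⟩, (nat_lit 8146901), (nat_lit 247), (nat_lit 247), (nat_lit 0), (nat_lit 129843), [(nat_lit 3282000015), (nat_lit 6250000018), (nat_lit 7968000000)], [], [(nat_lit 18234107141), (nat_lit 20675336001), (nat_lit 17841918723), (nat_lit 19272291591), (nat_lit 16651021760),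 (nat_lit 18128094895), (nat_lit 16379221503), (nat_lit 17737573467)], (nat_lit 1271251), (nat_lit 1271251), (nat_lit 292188), (nat_lit 780000), (nat_lit 111251), (nat_lit 490000), [(nat_lit 780000), (nat_lit 1435001), (nat_lit 1271251)], [(nat_lit 10), (nat_lit 54), (nat_lit 260), (nat_lit 50), (nat_lit 9)]⟩,
 ⟨⟨[(nat_lit 80), (nat_lit 120), (nat_lit 140)], [(nat_lit 0), (nat_lit 0), (nat_lit 1164)], [((nat_lit 0), (nat_lit 0), (nat_lit 0)), ((nat_lit 0), (nat_lit 0), (nat_lit 0)), ((nat_lit 941), (nat_lit 1000), (nat_lit 576))], ((nat_lit 100), (nat_lit 96), (nat_lit 52))⟩, (nat_lit 2868942), (nat_lit 312), (nat_lit 312), (nat_lit 0), (nat_lit 361830), [(nat_lit 4688000000), (nat_lit 7968000000), (nat_lit 9842000000)], [], [(nat_lit 17102757394), (nat_lit 16059864258), (nat_lit 20685921401), (nat_lit 11785332579), (nat_lit 46497947267), (nat_lit 37859132572), (nat_lit 55262058885), (nat_lit 46815908722)], (nat_lit 1271251), (nat_lit 1271251), (nat_lit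 292188), (nat_lit 780000), (nat_lit 780000), (nat_lit 2090001), [(nat_lit 1100000), (nat_lit 1785001), (nat_lit 1271251)], [(nat_lit 17), (nat_lit 58), (nat_lit 401), (nat_lit 175), (nat_lit 11)]⟩,
 ⟨⟨[(nat_lit 100), (nat_lit 140), (nat_lit 160)], [(nat_lit 0), (nat_lit 0), (nat_lit 1280)], [((nat_lit 0), (nat_lit 0), (nat_lit 0)), ((nat_lit 0), (nat_lit 0), (nat_lit 0)), ((nat_lit 800), (nat_lit 1000), (nat_lit 600))], ((nat_lit 100), (nat_lit 86), (nat_lit 51))⟩, (nat_lit 487500), (nat_lit 300), (nat_lit 445), (nat_lit 70300000), (nat_lit 394568), [(nat_lit 6250000000), (nat_lit 9842000000), (nat_lit 11872000000)], [], [(nat_lit 43467364610), (nat_lit 44280177266), (nat_lit 38740271083), (nat_lit 39515277292), (nat_lit 43341761105), (nat_lit 43485192161), (nat_lit 39524861502), (nat_lit 38747052863)], (nat_lit 1271251), (nat_lit 1271251), (nat_lit 111251), (nat_lit 490000), (nat_lit 780000), (nat_lit 2090001), [(nat_lit 1412501), (nat_lit 1271251),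 (nat_lit 1271251)], [(nat_lit 23), (nat_lit 62), (nat_lit 401), (nat_lit 175), (nat_lit 10)]⟩⟩) (.dle (nat_lit 0)))) (.trZ (nat_lit 0) (nat_lit 1) (nat_lit 3) (nat_lit 100) (nat_lit 91) (nat_lit 77) (nat_lit 60) (.leaf ⟨(nat_lit 0), (nat_lit 667), (nat_lit 0), (nat_lit 333), (nat_lit 13290), (nat_lit 6983), (nat_lit 6019), (nat_lit 4032), (nat_lit 0), (nat_lit 6321), (nat_lit 0), [], Pd.none, Pd.none, (nat_lit 0), (nat_lit 1), (nat_lit 0), (nat_lit 0), (nat_lit 5), (nat_lit 0), [⟨(nat_lit 0), (nat_lit 100), (nat_lit 91), (nat_lit 77), (nat_lit 891787513)⟩], [⟨(nat_lit 0), (nat_lit 100), (nat_lit 85), (nat_lit 72), (nat_lit 846102048)⟩], [], [],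
 ⟨⟨[(nat_lit 60), (nat_lit 100), (nat_lit 120)], [(nat_lit 0), (nat_lit 609), (nat_lit 1609)], [((nat_lit 0), (nat_lit 0), (nat_lit 0)), ((nat_lit 1000), (nat_lit 905), (nat_lit 238)), ((nat_lit 1000), (nat_lit 882), (nat_lit 668))], ((nat_lit 87), (nat_lit 100), (nat_lit 60))⟩, (nat_lit 4819334), (nat_lit 256), (nat_lit 256), (nat_lit 0), (nat_lit 178524), [(nat_lit 3282000011), (nat_lit 6250000002), (nat_lit 7968000000)], [], [(nat_lit 19951518292), (nat_lit 22878396290), (nat_lit 18673980419), (nat_lit 20763214161), (nat_lit 16713017825), (nat_lit 18395207124), (nat_lit 15963438818), (nat_lit 17520488632)], (nat_lit 1271251), (nat_lit 1271251), (nat_lit 356250), (nat_lit 780000), (nat_lit 111251), (nat_lit 490000), [(nat_lit 780000), (nat_lit 1435001), (nat_lit 1271251)], [(nat_lit 10), (nat_lit 54), (nat_lit 260), (nat_lit 50), (nat_lit 9)]⟩,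
 ⟨⟨[(nat_lit 80), (nat_lit 120), (nat_lit 140)], [(nat_lit 0), (nat_lit 528), (nat_lit 1572)], [((nat_lit 0), (nat_lit 0), (nat_lit 0)), ((nat_lit 1000), (nat_lit 959), (nat_lit 206)), ((nat_lit 966), (nat_lit 1000), (nat_lit 679))], ((nat_lit 100), (nat_lit 99), (nat_lit 63))⟩, (nat_lit 1068988), (nat_lit 353), (nat_lit 353), (nat_lit 0), (nat_lit 456258), [(nat_lit 4688000000), (nat_lit 7968000000), (nat_lit 9842000000)], [], [(nat_lit 32303892520), (nat_lit 33210880863), (nat_lit 31660479867), (nat_lit 32502792922), (nat_lit 35339983219), (nat_lit 35988643924), (nat_lit 35972004209), (nat_lit 35035391775)], (nat_lit 1271251), (nat_lit 1271251), (nat_lit 356250), (nat_lit 780000), (nat_lit 780000), (nat_lit 2090001), [(nat_lit 1100000), (nat_lit 1785001), (nat_lit 1271251)], [(nat_lit 17), (nat_lit 58), (nat_lit 401), (nat_lit 175), (nat_lit 11)]⟩,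
 ⟨⟨[(nat_lit 100), (nat_lit 140), (nat_lit 160)], [(nat_lit 0), (nat_lit 0), (nat_lit 1280)], [((nat_lit 0), (nat_lit 0), (nat_lit 0)), ((nat_lit 0), (nat_lit 0), (nat_lit 0)), ((nat_lit 800), (nat_lit 1000), (nat_lit 600))], ((nat_lit 100), (nat_lit 80), (nat_lit 60))⟩, (nat_lit 162338), (nat_lit 300), (nat_lit 559), (nat_lit 23409900), (nat_lit 581674), [(nat_lit 2081250000), (nat_lit 3277386000), (nat_lit 3953376000)], [], [(nat_lit 14916223080), (nat_lit 15161073780), (nat_lit 13099482261), (nat_lit 13339774854), (nat_lit 14425629919), (nat_lit 14391152998), (nat_lit 13251962880), (nat_lit 12592860732)], (nat_lit 1271251), (nat_lit 1271251), (nat_lit 111251), (nat_lit 490000), (nat_lit 780000), (nat_lit 2090001), [(nat_lit 1412501), (nat_lit 1271251), (nat_lit 1271251)], [(nat_lit 23), (nat_lit 62), (nat_lit 401), (nat_lit 175), (nat_lit 10)]⟩⟩))) (.leaf ⟨(nat_lit 0), (nat_lit 0), (nat_lit 0), (nat_lit 1000), (nat_lit 11930), (nat_lit 5504), (nat_lit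 10375), (nat_lit 11834), (nat_lit 0), (nat_lit 12124), (nat_lit 0), [], Pd.none, Pd.none, (nat_lit 0), (nat_lit 1), (nat_lit 0), (nat_lit 0), (nat_lit 0), (nat_lit 0), [⟨(nat_lit 0), (nat_lit 100), (nat_lit 88), (nat_lit 81), (nat_lit 1190557231)⟩], [⟨(nat_lit 0), (nat_lit 100), (nat_lit 87), (nat_lit 50), (nat_lit 1407476164)⟩], [], [],
 ⟨⟨[(nat_lit 60), (nat_lit 100), (nat_lit 120)], [(nat_lit 0), (nat_lit 609), (nat_lit 1609)], [((nat_lit 0), (nat_lit 0), (nat_lit 0)), ((nat_lit 1000), (nat_lit 905), (nat_lit 238)), ((nat_lit 1000), (nat_lit 882), (nat_lit 668))], ((nat_lit 87), (nat_lit 100), (nat_lit 60))⟩, (nat_lit 7529614), (nat_lit 265), (nat_lit 265), (nat_lit 0), (nat_lit 178421), [(nat_lit 3282000013), (nat_lit 6250000005), (nat_lit 7968000000)], [], [(nat_lit 18597410454), (nat_lit 21104959807), (nat_lit 17981080370), (nat_lit 19250777451), (nat_lit 16864918093), (nat_lit 18176310291), (nat_lit 16363222055), (nat_lit 17569783707)], (nat_lit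 1271251), (nat_lit 1271251), (nat_lit 292188), (nat_lit 780000), (nat_lit 111251), (nat_lit 490000), [(nat_lit 780000), (nat_lit 1435001), (nat_lit 1271251)], [(nat_lit 10), (nat_lit 54), (nat_lit 260), (nat_lit 50), (nat_lit 9)]⟩,
 ⟨⟨[(nat_lit 80), (nat_lit 120), (nat_lit 160)], [(nat_lit 0), (nat_lit 0), (nat_lit 2132)], [((nat_lit 0), (nat_lit 0), (nat_lit 0)), ((nat_lit 0), (nat_lit 0), (nat_lit 0)), ((nat_lit 858), (nat_lit 1000), (nat_lit 713))], ((nat_lit 100), (nat_lit 92), (nat_lit 61))⟩, (nat_lit 3738097), (nat_lit 411), (nat_lit 411), (nat_lit 0), (nat_lit 467775), [(nat_lit 4688000000), (nat_lit 7968000000), (nat_lit 11872000000)], [], [(nat_lit 26309952415), (nat_lit 28142934118), (nat_lit 22924833946), (nat_lit 24957632313), (nat_lit 38601670813), (nat_lit 41331061375), (nat_lit 33502463750), (nat_lit 36068642875)], (nat_lit 1271251), (nat_lit 1271251), (nat_lit 292188), (nat_lit 780000), (nat_lit 1271251), (nat_lit 1271251), [(nat_lit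 1100000), (nat_lit 1785001), (nat_lit 1271251)], [(nat_lit 18), (nat_lit 59), (nat_lit 428), (nat_lit 200), (nat_lit 10)]⟩,
 ⟨⟨[(nat_lit 100), (nat_lit 140), (nat_lit 160)], [(nat_lit 0), (nat_lit 0), (nat_lit 1280)], [((nat_lit 0), (nat_lit 0), (nat_lit 0)), ((nat_lit 0), (nat_lit 0), (nat_lit 0)), ((nat_lit 800), (nat_lit 1000), (nat_lit 600))], ((nat_lit 100), (nat_lit 80), (nat_lit 60))⟩, (nat_lit 487500), (nat_lit 300), (nat_lit 519), (nat_lit 70300000), (nat_lit 581449), [(nat_lit 6250000000), (nat_lit 9842000000), (nat_lit 11872000000)], [], [(nat_lit 43868876405), (nat_lit 43801843920), (nat_lit 38627051276), (nat_lit 38539800592), (nat_lit 48309740239), (nat_lit 49221837113), (nat_lit 42222477424), (nat_lit 42250321288)], (nat_lit 1271251), (nat_lit 1271251), (nat_lit 111251), (nat_lit 490000), (nat_lit 1271251), (nat_lit 1271251), [(nat_lit 1412501), (nat_lit 1271251), (nat_lit 1271251)], [(nat_lit 23), (nat_lit 62), (nat_lit 428), (nat_lit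 200), (nat_lit 11)]⟩⟩))))
noncomputable def c4_5 : Tr Lf :=
 (.spl (nat_lit 2) (nat_lit 200) (.spl (nat_lit 6) (nat_lit 20) (.spl (nat_lit 0) (nat_lit 310) (.leaf ⟨(nat_lit 1000), (nat_lit 0), (nat_lit 0), (nat_lit 0), (nat_lit 2051), (nat_lit 4935), (nat_lit 0), (nat_lit 0), (nat_lit 0), (nat_lit 0), (nat_lit 990800), [((nat_lit 310), [((nat_lit 15), (nat_lit 1), (nat_lit 6)), ((nat_lit 35), (nat_lit 2), (nat_lit 14)), ((nat_lit 15), (nat_lit 2), (nat_lit 980))])], ⟨(nat_lit 6), false, false, false, (nat_lit 145), (nat_lit 4743), (nat_lit 5000), [(nat_lit 1274998), (nat_lit 1281601), (nat_lit 1317852), (nat_lit 1324573), (nat_lit 1399997), (nat_lit 1403574), (nat_lit 1442849), (nat_lit 1446544)]⟩, ⟨(nat_lit 3), false, false, false, (nat_lit 112), (nat_lit 4743), (nat_lit 5000), [(nat_lit 1199998), (nat_lit 1204947), (nat_lit 1285713), (nat_lit 1290899), (nat_lit 1271427), (nat_lit 1274646), (nat_lit 1357141), (nat_lit 1360599)]⟩, (nat_lit 3398121),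 (nat_lit 53512129), (nat_lit 8043880), (nat_lit 5443991), (nat_lit 0), (nat_lit 0), [⟨(nat_lit 0), (nat_lit 100), (nat_lit 91), (nat_lit 91), (nat_lit 157790535)⟩], [], [], [],
 ⟨⟨[(nat_lit 60), (nat_lit 80), (nat_lit 100)], [(nat_lit 0), (nat_lit 304), (nat_lit 825)], [((nat_lit 0), (nat_lit 0), (nat_lit 0)), ((nat_lit 1000), (nat_lit 905), (nat_lit 238)), ((nat_lit 1000), (nat_lit 871), (nat_lit 407))], ((nat_lit 87), (nat_lit 100), (nat_lit 44))⟩, (nat_lit 0), (nat_lit 185), (nat_lit 185), (nat_lit 0), (nat_lit 139152), [(nat_lit 1981186245), (nat_lit 1807944895), (nat_lit 760376800)], [(nat_lit 0), (nat_lit 0), (nat_lit 0)], [(nat_lit 14286751316), (nat_lit 15427368248), (nat_lit 13654963863), (nat_lit 14484949987), (nat_lit 14685290119), (nat_lit 15735102653), (nat_lit 14101252909), (nat_lit 14885730497)], (nat_lit 1271251), (nat_lit 1271251), (nat_lit 292188), (nat_lit 780000), (nat_lit 490000), (nat_lit 780000), [(nat_lit 780000), (nat_lit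 1100000), (nat_lit 1442501)], [(nat_lit 9), (nat_lit 50), (nat_lit 272), (nat_lit 60), (nat_lit 10)]⟩,
 Rw.none,
 Rw.none⟩) (.leaf ⟨(nat_lit 1000), (nat_lit 0), (nat_lit 0), (nat_lit 0), (nat_lit 0), (nat_lit 5220), (nat_lit 0), (nat_lit 0), (nat_lit 0), (nat_lit 0), (nat_lit 250000), [((nat_lit 320), [((nat_lit 15), (nat_lit 0), (nat_lit 1000))])], ⟨(nat_lit 6), false, false, false, (nat_lit 147), (nat_lit 4472), (nat_lit 4744), [(nat_lit 1281597), (nat_lit 1288210), (nat_lit 1324567), (nat_lit 1331336), (nat_lit 1403571), (nat_lit 1407171), (nat_lit 1446540), (nat_lit 1450297)]⟩, ⟨(nat_lit 3), false, false, false, (nat_lit 114), (nat_lit 4472), (nat_lit 4744), [(nat_lit 1204947), (nat_lit 1209798), (nat_lit 1290899), (nat_lit 1296064), (nat_lit 1274646), (nat_lit 1277776), (nat_lit 1360599), (nat_lit 1364042)]⟩, (nat_lit 3448370), (nat_lit 53209959), (nat_lit 8222009), (nat_lit 5568032), (nat_lit 0), (nat_lit 0), [⟨(nat_lit 0), (nat_lit 100), (nat_lit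 87), (nat_lit 95), (nat_lit 217714870)⟩], [], [], [],
 ⟨⟨[(nat_lit 60), (nat_lit 80), (nat_lit 100)], [(nat_lit 0), (nat_lit 456), (nat_lit 976)], [((nat_lit 0), (nat_lit 0), (nat_lit 0)), ((nat_lit 1000), (nat_lit 859), (nat_lit 351)), ((nat_lit 1000), (nat_lit 848), (nat_lit 406))], ((nat_lit 84), (nat_lit 100), (nat_lit 44))⟩, (nat_lit 1908287), (nat_lit 182), (nat_lit 182), (nat_lit 0), (nat_lit 163144), [(nat_lit 2318400076), (nat_lit 2513596093), (nat_lit 2724800000)], [(nat_lit 0), (nat_lit 0), (nat_lit 0)], [(nat_lit 15660543474), (nat_lit 16841422160), (nat_lit 14372103873), (nat_lit 15449427360), (nat_lit 15926687481), (nat_lit 17046169800), (nat_lit 14745598617), (nat_lit 15749419260)], (nat_lit 1271251), (nat_lit 1271251), (nat_lit 292188), (nat_lit 780000), (nat_lit 490000), (nat_lit 780000), [(nat_lit 780000), (nat_lit 1100000), (nat_lit 1442501)], [(nat_lit 9), (nat_lit 50), (nat_lit 272), (nat_lit 60), (nat_lit 10)]⟩,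
 Rw.none,
 Rw.none⟩)) (.leaf ⟨(nat_lit 1000), (nat_lit 0), (nat_lit 0), (nat_lit 0), (nat_lit 11063), (nat_lit 5004), (nat_lit 0), (nat_lit 0), (nat_lit 0), (nat_lit 0), (nat_lit 1000000), [((nat_lit 320), [((nat_lit 15), (nat_lit 2), (nat_lit 1000))])], ⟨(nat_lit 6), false, false, false, (nat_lit 146), (nat_lit 4472), (nat_lit 5000), [(nat_lit 1274989), (nat_lit 1288204), (nat_lit 1317824), (nat_lit 1331315), (nat_lit 1399984), (nat_lit 1407160), (nat_lit 1442816), (nat_lit 1450269)]⟩, ⟨(nat_lit 3), false, false, false, (nat_lit 113), (nat_lit 4472), (nat_lit 5000), [(nat_lit 1199998), (nat_lit 1209798), (nat_lit 1285713), (nat_lit 1296064), (nat_lit 1271427), (nat_lit 1277776), (nat_lit 1357141), (nat_lit 1364042)]⟩, (nat_lit 3423191), (nat_lit 53361838), (nat_lit 8132584), (nat_lit 5505578), (nat_lit 0), (nat_lit 0), [⟨(nat_lit 0), (nat_lit 100), (nat_lit 87), (nat_lit 95), (nat_lit 204871002)⟩], [], [], [],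
 ⟨⟨[(nat_lit 60), (nat_lit 100), (nat_lit 120)], [(nat_lit 0), (nat_lit 609), (nat_lit 1609)], [((nat_lit 0), (nat_lit 0), (nat_lit 0)), ((nat_lit 1000), (nat_lit 905), (nat_lit 238)), ((nat_lit 1000), (nat_lit 882), (nat_lit 668))], ((nat_lit 87), (nat_lit 100), (nat_lit 60))⟩, (nat_lit 188991), (nat_lit 179), (nat_lit 179), (nat_lit 0), (nat_lit 63066), [(nat_lit 2232429395), (nat_lit 929170630), (nat_lit 0)], [(nat_lit 0), (nat_lit 0), (nat_lit 697200000)], [(nat_lit 14606503714), (nat_lit 16634185712), (nat_lit 13852242373), (nat_lit 15376800497), (nat_lit 14929752505), (nat_lit 16872413460), (nat_lit 14281461745), (nat_lit 15690703332)], (nat_lit 1271251), (nat_lit 1271251), (nat_lit 292188), (nat_lit 780000), (nat_lit 490000), (nat_lit 780000), [(nat_lit 780000), (nat_lit 1435001), (nat_lit 1271251)], [(nat_lit 10), (nat_lit 54), (nat_lit 272), (nat_lit 60), (nat_lit 9)]⟩,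
 Rw.none,
 Rw.none⟩)) (.spl (nat_lit 5) (nat_lit 120) (.spl (nat_lit 1) (nat_lit 260) (.ord (.spl (nat_lit 6) (nat_lit 28) (.spl (nat_lit 6) (nat_lit 16) (.leaf ⟨(nat_lit 0), (nat_lit 814), (nat_lit 0), (nat_lit 186), (nat_lit 12320), (nat_lit 6015), (nat_lit 10964), (nat_lit 1879), (nat_lit 0), (nat_lit 370386), (nat_lit 0), [], Pd.none, Pd.none, (nat_lit 0), (nat_lit 1), (nat_lit 0), (nat_lit 0), (nat_lit 5), (nat_lit 0), [⟨(nat_lit 0), (nat_lit 100), (nat_lit 86), (nat_lit 77), (nat_lit 436102623)⟩, ⟨(nat_lit 0), (nat_lit 100), (nat_lit 88), (nat_lit 68), (nat_lit 607261578)⟩], [], [⟨(nat_lit 0), (nat_lit 100), (nat_lit 98), (nat_lit 40), (nat_lit 396041245)⟩], [],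
 ⟨⟨[(nat_lit 60), (nat_lit 80), (nat_lit 100)], [(nat_lit 0), (nat_lit 304), (nat_lit 825)], [((nat_lit 0), (nat_lit 0), (nat_lit 0)), ((nat_lit 1000), (nat_lit 905), (nat_lit 238)), ((nat_lit 1000), (nat_lit 871), (nat_lit 407))], ((nat_lit 87), (nat_lit 100), (nat_lit 39))⟩, (nat_lit 5156970), (nat_lit 184), (nat_lit 184), (nat_lit 0), (nat_lit 127762), [(nat_lit 3282000006), (nat_lit 4766353972), (nat_lit 6250000000)], [], [(nat_lit 15018466710), (nat_lit 17604167420), (nat_lit 14316326836), (nat_lit 15971180306), (nat_lit 15408538775), (nat_lit 17685689663), (nat_lit 14684882153), (nat_lit 16244689176)], (nat_lit 1271251), (nat_lit 1271251), (nat_lit 292188), (nat_lit 780000), (nat_lit 490000), (nat_lit 780000), [(nat_lit 780000), (nat_lit 1100000), (nat_lit 1442501)], [(nat_lit 9), (nat_lit 50), (nat_lit 272), (nat_lit 60), (nat_lit 10)]⟩,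
 ⟨⟨[(nat_lit 80), (nat_lit 100), (nat_lit 120)], [(nat_lit 0), (nat_lit 0), (nat_lit 511)], [((nat_lit 0), (nat_lit 0), (nat_lit 0)), ((nat_lit 0), (nat_lit 0), (nat_lit 0)), ((nat_lit 1000), (nat_lit 997), (nat_lit 383))], ((nat_lit 100), (nat_lit 100), (nat_lit 40))⟩, (nat_lit 8951180), (nat_lit 257), (nat_lit 257), (nat_lit 0), (nat_lit 164434), [(nat_lit 4688000000), (nat_lit 6250000000), (nat_lit 7968000000)], [], [(nat_lit 17648411242), (nat_lit 21778921670), (nat_lit 14819932372), (nat_lit 16825123062), (nat_lit 10975885122), (nat_lit 12898331154), (nat_lit 8568425856), (nat_lit 10320709556)], (nat_lit 1271251), (nat_lit 1271251), (nat_lit 292188), (nat_lit 780000), (nat_lit 0), (nat_lit 780000), [(nat_lit 1100000), (nat_lit 1442501), (nat_lit 1271251)], [(nat_lit 16), (nat_lit 54), (nat_lit 272), (nat_lit 60), (nat_lit 9)]⟩,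
 ⟨⟨[(nat_lit 100), (nat_lit 120), (nat_lit 140)], [(nat_lit 0), (nat_lit 0), (nat_lit 533)], [((nat_lit 0), (nat_lit 0), (nat_lit 0)), ((nat_lit 0), (nat_lit 0), (nat_lit 0)), ((nat_lit 924), (nat_lit 1000), (nat_lit 383))], ((nat_lit 100), (nat_lit 92), (nat_lit 39))⟩, (nat_lit 0), (nat_lit 293), (nat_lit 293), (nat_lit 0), (nat_lit 171150), [(nat_lit 1162500000), (nat_lit 1482048000), (nat_lit 1830612000)], [], [(nat_lit 6597428822), (nat_lit 5219261404), (nat_lit 7133154337), (nat_lit 5145952753), (nat_lit 7512836529), (nat_lit 4825154388), (nat_lit 8124576050), (nat_lit 5472805827)], (nat_lit 1271251), (nat_lit 1271251), (nat_lit 490000), (nat_lit 780000), (nat_lit 0), (nat_lit 780000), [(nat_lit 1412501), (nat_lit 1271251), (nat_lit 1271251)], [(nat_lit 22), (nat_lit 58), (nat_lit 345), (nat_lit 125), (nat_lit 10)]⟩⟩) (.leaf ⟨(nat_lit 0), (nat_lit 895), (nat_lit 0), (nat_lit 105), (nat_lit 23779), (nat_lit 7068), (nat_lit 7515), (nat_lit 2427),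 (nat_lit 0), (nat_lit 13007589232639), (nat_lit 0), [], Pd.none, Pd.none, (nat_lit 0), (nat_lit 1), (nat_lit 0), (nat_lit 0), (nat_lit 5), (nat_lit 0), [⟨(nat_lit 0), (nat_lit 100), (nat_lit 86), (nat_lit 77), (nat_lit 1039510228)⟩], [], [⟨(nat_lit 0), (nat_lit 100), (nat_lit 100), (nat_lit 60), (nat_lit 61511965)⟩], [],
 ⟨⟨[(nat_lit 60), (nat_lit 100), (nat_lit 120)], [(nat_lit 0), (nat_lit 609), (nat_lit 1609)], [((nat_lit 0), (nat_lit 0), (nat_lit 0)), ((nat_lit 1000), (nat_lit 905), (nat_lit 238)), ((nat_lit 1000), (nat_lit 882), (nat_lit 668))], ((nat_lit 87), (nat_lit 100), (nat_lit 51))⟩, (nat_lit 4018264), (nat_lit 178), (nat_lit 178), (nat_lit 0), (nat_lit 45806), [(nat_lit 3600247591), (nat_lit 6250000006), (nat_lit 7968000000)], [], [(nat_lit 16591685685), (nat_lit 18614445104), (nat_lit 14933216388), (nat_lit 16950991798), (nat_lit 16658148882), (nat_lit 18692519839), (nat_lit 15115430847), (nat_lit 17056670778)], (nat_lit 1271251), (nat_lit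 1271251), (nat_lit 292188), (nat_lit 780000), (nat_lit 490000), (nat_lit 780000), [(nat_lit 780000), (nat_lit 1435001), (nat_lit 1271251)], [(nat_lit 10), (nat_lit 54), (nat_lit 272), (nat_lit 60), (nat_lit 9)]⟩,
 ⟨⟨[(nat_lit 80), (nat_lit 120), (nat_lit 140)], [(nat_lit 0), (nat_lit 0), (nat_lit 1164)], [((nat_lit 0), (nat_lit 0), (nat_lit 0)), ((nat_lit 0), (nat_lit 0), (nat_lit 0)), ((nat_lit 941), (nat_lit 1000), (nat_lit 576))], ((nat_lit 100), (nat_lit 96), (nat_lit 52))⟩, (nat_lit 4946830), (nat_lit 249), (nat_lit 249), (nat_lit 0), (nat_lit 59563), [(nat_lit 4688000000), (nat_lit 7968000000), (nat_lit 9842000000)], [], [(nat_lit 22074091583), (nat_lit 24030738033), (nat_lit 20714509500), (nat_lit 22426356028), (nat_lit 18383186257), (nat_lit 20027389986), (nat_lit 21180143275), (nat_lit 18814689628)], (nat_lit 1271251), (nat_lit 1271251), (nat_lit 292188), (nat_lit 780000), (nat_lit 0), (nat_lit 780000), [(nat_lit 1100000), (nat_lit 1785001),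 (nat_lit 1271251)], [(nat_lit 17), (nat_lit 58), (nat_lit 345), (nat_lit 125), (nat_lit 10)]⟩,
 ⟨⟨[(nat_lit 100), (nat_lit 140), (nat_lit 160)], [(nat_lit 0), (nat_lit 0), (nat_lit 1280)], [((nat_lit 0), (nat_lit 0), (nat_lit 0)), ((nat_lit 0), (nat_lit 0), (nat_lit 0)), ((nat_lit 800), (nat_lit 1000), (nat_lit 600))], ((nat_lit 100), (nat_lit 86), (nat_lit 51))⟩, (nat_lit 51188), (nat_lit 300), (nat_lit 327), (nat_lit 7381500), (nat_lit 63210), [(nat_lit 656250000), (nat_lit 1033410000), (nat_lit 1246560000)], [], [(nat_lit 4230713568), (nat_lit 4487247543), (nat_lit 3897640833), (nat_lit 4192494922), (nat_lit 3760526349), (nat_lit 2409537936), (nat_lit 4393791116), (nat_lit 2074666972)], (nat_lit 1271251), (nat_lit 1271251), (nat_lit 490000), (nat_lit 780000), (nat_lit 0), (nat_lit 780000), [(nat_lit 1412501), (nat_lit 1271251), (nat_lit 1271251)], [(nat_lit 23), (nat_lit 62), (nat_lit 345), (nat_lit 125), (nat_lit 9)]⟩⟩)) (.dle (nat_lit 0)))) (.trZ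 (nat_lit 0) (nat_lit 1) (nat_lit 3) (nat_lit 100) (nat_lit 91) (nat_lit 77) (nat_lit 60) (.leaf ⟨(nat_lit 0), (nat_lit 655), (nat_lit 0), (nat_lit 345), (nat_lit 17402), (nat_lit 7936), (nat_lit 11193), (nat_lit 7188), (nat_lit 0), (nat_lit 24438), (nat_lit 0), [], Pd.none, Pd.none, (nat_lit 0), (nat_lit 1), (nat_lit 0), (nat_lit 0), (nat_lit 5), (nat_lit 0), [⟨(nat_lit 0), (nat_lit 100), (nat_lit 89), (nat_lit 86), (nat_lit 648418162)⟩], [], [⟨(nat_lit 0), (nat_lit 100), (nat_lit 96), (nat_lit 54), (nat_lit 186516661)⟩], [],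
 ⟨⟨[(nat_lit 60), (nat_lit 100), (nat_lit 120)], [(nat_lit 0), (nat_lit 609), (nat_lit 1609)], [((nat_lit 0), (nat_lit 0), (nat_lit 0)), ((nat_lit 1000), (nat_lit 905), (nat_lit 238)), ((nat_lit 1000), (nat_lit 882), (nat_lit 668))], ((nat_lit 87), (nat_lit 100), (nat_lit 60))⟩, (nat_lit 3846207), (nat_lit 183), (nat_lit 183), (nat_lit 0), (nat_lit 178524), [(nat_lit 3888378985), (nat_lit 6250000011), (nat_lit 7968000000)], [], [(nat_lit 15965546061), (nat_lit 18510637152), (nat_lit 14611655165), (nat_lit 16620450681), (nat_lit 15943122632), (nat_lit 18338207916), (nat_lit 14597709375), (nat_lit 16487717688)], (nat_lit 1271251), (nat_lit 1271251), (nat_lit 356250), (nat_lit 780000), (nat_lit 490000), (nat_lit 780000), [(nat_lit 780000), (nat_lit 1435001), (nat_lit 1271251)], [(nat_lit 10), (nat_lit 54), (nat_lit 272), (nat_lit 60), (nat_lit 9)]⟩,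
 ⟨⟨[(nat_lit 80), (nat_lit 120), (nat_lit 140)], [(nat_lit 0), (nat_lit 528), (nat_lit 1572)], [((nat_lit 0), (nat_lit 0), (nat_lit 0)), ((nat_lit 1000), (nat_lit 959), (nat_lit 206)), ((nat_lit 966), (nat_lit 1000), (nat_lit 679))], ((nat_lit 100), (nat_lit 99), (nat_lit 63))⟩, (nat_lit 8081704), (nat_lit 341), (nat_lit 341), (nat_lit 0), (nat_lit 211120), [(nat_lit 4688000000), (nat_lit 7968000000), (nat_lit 9842000000)], [], [(nat_lit 21093937032), (nat_lit 24576000761), (nat_lit 25156966156), (nat_lit 20622397764), (nat_lit 26703375228), (nat_lit 21497778161), (nat_lit 31820544035), (nat_lit 26717076097)], (nat_lit 1271251), (nat_lit 1271251), (nat_lit 356250), (nat_lit 780000), (nat_lit 0), (nat_lit 780000), [(nat_lit 1100000), (nat_lit 1785001), (nat_lit 1271251)], [(nat_lit 17), (nat_lit 58), (nat_lit 373), (nat_lit 150), (nat_lit 11)]⟩,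
 ⟨⟨[(nat_lit 100), (nat_lit 140), (nat_lit 160)], [(nat_lit 0), (nat_lit 0), (nat_lit 1280)], [((nat_lit 0), (nat_lit 0), (nat_lit 0)), ((nat_lit 0), (nat_lit 0), (nat_lit 0)), ((nat_lit 800), (nat_lit 1000), (nat_lit 600))], ((nat_lit 100), (nat_lit 80), (nat_lit 60))⟩, (nat_lit 168188), (nat_lit 300), (nat_lit 409), (nat_lit 24253500), (nat_lit 232303), [(nat_lit 2156250000), (nat_lit 3395490000), (nat_lit 4095840000)], [], [(nat_lit 14090245542), (nat_lit 15446805590), (nat_lit 13131137277), (nat_lit 14529893804), (nat_lit 12632643756), (nat_lit 9283984065), (nat_lit 14547639282), (nat_lit 8277905213)], (nat_lit 1271251), (nat_lit 1271251), (nat_lit 490000), (nat_lit 780000), (nat_lit 0), (nat_lit 780000), [(nat_lit 1412501), (nat_lit 1271251), (nat_lit 1271251)], [(nat_lit 23), (nat_lit 62), (nat_lit 373), (nat_lit 150), (nat_lit 10)]⟩⟩))) (.leaf ⟨(nat_lit 0), (nat_lit 0), (nat_lit 0), (nat_lit 1000), (nat_lit 689), (nat_lit 7492), (nat_lit 7708),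 (nat_lit 15294), (nat_lit 0), (nat_lit 38796), (nat_lit 0), [], Pd.none, Pd.none, (nat_lit 0), (nat_lit 1), (nat_lit 0), (nat_lit 0), (nat_lit 0), (nat_lit 0), [⟨(nat_lit 0), (nat_lit 100), (nat_lit 88), (nat_lit 81), (nat_lit 1323237500)⟩], [], [], [],
 ⟨⟨[(nat_lit 60), (nat_lit 100), (nat_lit 120)], [(nat_lit 0), (nat_lit 609), (nat_lit 1609)], [((nat_lit 0), (nat_lit 0), (nat_lit 0)), ((nat_lit 1000), (nat_lit 905), (nat_lit 238)), ((nat_lit 1000), (nat_lit 882), (nat_lit 668))], ((nat_lit 87), (nat_lit 100), (nat_lit 60))⟩, (nat_lit 4309111), (nat_lit 188), (nat_lit 188), (nat_lit 0), (nat_lit 178421), [(nat_lit 3915620213), (nat_lit 6250000021), (nat_lit 7968000000)], [], [(nat_lit 16017557448), (nat_lit 19021242576), (nat_lit 14352354072), (nat_lit 16494291414), (nat_lit 16179207723), (nat_lit 18873829080), (nat_lit 14535112945), (nat_lit 16550356034)], (nat_lit 1271251), (nat_lit 1271251), (nat_lit 292188), (nat_lit 780000), (nat_lit 490000),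 (nat_lit 780000), [(nat_lit 780000), (nat_lit 1435001), (nat_lit 1271251)], [(nat_lit 10), (nat_lit 54), (nat_lit 272), (nat_lit 60), (nat_lit 9)]⟩,
 ⟨⟨[(nat_lit 80), (nat_lit 120), (nat_lit 160)], [(nat_lit 0), (nat_lit 0), (nat_lit 2132)], [((nat_lit 0), (nat_lit 0), (nat_lit 0)), ((nat_lit 0), (nat_lit 0), (nat_lit 0)), ((nat_lit 858), (nat_lit 1000), (nat_lit 713))], ((nat_lit 100), (nat_lit 92), (nat_lit 61))⟩, (nat_lit 350002), (nat_lit 428), (nat_lit 428), (nat_lit 0), (nat_lit 467775), [(nat_lit 4688000000), (nat_lit 7968000000), (nat_lit 11872000000)], [], [(nat_lit 39194661903), (nat_lit 35842681449), (nat_lit 32771162668), (nat_lit 34111706870), (nat_lit 46173846348), (nat_lit 43957594329), (nat_lit 51048098984), (nat_lit 44285623928)], (nat_lit 1271251), (nat_lit 1271251), (nat_lit 292188), (nat_lit 780000), (nat_lit 780000), (nat_lit 3072501), [(nat_lit 1100000), (nat_lit 1785001), (nat_lit 1271251)], [(nat_lit 18), (nat_lit 59), (nat_lit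 428), (nat_lit 200), (nat_lit 11)]⟩,
 ⟨⟨[(nat_lit 100), (nat_lit 140), (nat_lit 160)], [(nat_lit 0), (nat_lit 0), (nat_lit 1280)], [((nat_lit 0), (nat_lit 0), (nat_lit 0)), ((nat_lit 0), (nat_lit 0), (nat_lit 0)), ((nat_lit 800), (nat_lit 1000), (nat_lit 600))], ((nat_lit 100), (nat_lit 80), (nat_lit 60))⟩, (nat_lit 487500), (nat_lit 300), (nat_lit 502), (nat_lit 70300000), (nat_lit 581449), [(nat_lit 6250000000), (nat_lit 9842000000), (nat_lit 11872000000)], [], [(nat_lit 32504266286), (nat_lit 32990525870), (nat_lit 30441442786), (nat_lit 31045765290), (nat_lit 60537801480), (nat_lit 45418944220), (nat_lit 65309571344), (nat_lit 42775310774)], (nat_lit 1271251), (nat_lit 1271251), (nat_lit 490000), (nat_lit 780000), (nat_lit 780000), (nat_lit 3072501), [(nat_lit 1412501), (nat_lit 1271251), (nat_lit 1271251)], [(nat_lit 23), (nat_lit 62), (nat_lit 428), (nat_lit 200), (nat_lit 11)]⟩⟩)))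
noncomputable def c4_6 : Tr Lf :=
 (.trZ (nat_lit 0) (nat_lit 1) (nat_lit 3) (nat_lit 100) (nat_lit 94) (nat_lit 88) (nat_lit 80) (.spl (nat_lit 2) (nat_lit 220) (.spl (nat_lit 5) (nat_lit 200) (.leaf ⟨(nat_lit 0), (nat_lit 1000), (nat_lit 0), (nat_lit 0), (nat_lit 0), (nat_lit 7161), (nat_lit 11905), (nat_lit 0), (nat_lit 224383), (nat_lit 0), (nat_lit 0), [], Pd.none, Pd.none, (nat_lit 0), (nat_lit 1), (nat_lit 0), (nat_lit 0), (nat_lit 3), (nat_lit 0), [⟨(nat_lit 0), (nat_lit 97), (nat_lit 93), (nat_lit 100), (nat_lit 608373997)⟩], [⟨(nat_lit 0), (nat_lit 100), (nat_lit 80), (nat_lit 68), (nat_lit 18238693)⟩], [], [],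
 ⟨⟨[(nat_lit 60), (nat_lit 100), (nat_lit 120)], [(nat_lit 0), (nat_lit 609), (nat_lit 1609)], [((nat_lit 0), (nat_lit 0), (nat_lit 0)), ((nat_lit 1000), (nat_lit 905), (nat_lit 238)), ((nat_lit 1000), (nat_lit 882), (nat_lit 668))], ((nat_lit 87), (nat_lit 100), (nat_lit 60))⟩, (nat_lit 3609535), (nat_lit 286), (nat_lit 286), (nat_lit 0), (nat_lit 262608), [(nat_lit 3362872911), (nat_lit 6250000020), (nat_lit 7968000000)], [], [(nat_lit 20904558809), (nat_lit 22851119688), (nat_lit 20869766941), (nat_lit 22557896780), (nat_lit 17130016952), (nat_lit 18710590890), (nat_lit 17237859854), (nat_lit 18724904158)], (nat_lit 1271251), (nat_lit 1271251), (nat_lit 490000), (nat_lit 780000), (nat_lit 0), (nat_lit 780000), [(nat_lit 780000), (nat_lit 1435001), (nat_lit 1271251)], [(nat_lit 10), (nat_lit 54), (nat_lit 272), (nat_lit 60), (nat_lit 9)]⟩,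
 ⟨⟨[(nat_lit 60), (nat_lit 100), (nat_lit 140)], [(nat_lit 0), (nat_lit 0), (nat_lit 2047)], [((nat_lit 0), (nat_lit 0), (nat_lit 0)), ((nat_lit 0), (nat_lit 0), (nat_lit 0)), ((nat_lit 1000), (nat_lit 993), (nat_lit 781))], ((nat_lit 94), (nat_lit 100), (nat_lit 62))⟩, (nat_lit 2777169), (nat_lit 433), (nat_lit 433), (nat_lit 0), (nat_lit 401186), [(nat_lit 3282000000), (nat_lit 6250000000), (nat_lit 9842000000)], [], [(nat_lit 26058952520), (nat_lit 30680655240), (nat_lit 24615702662), (nat_lit 29565620347), (nat_lit 16960549157), (nat_lit 20928081417), (nat_lit 20479875218), (nat_lit 19914591982)], (nat_lit 1271251), (nat_lit 1271251), (nat_lit 490000), (nat_lit 780000), (nat_lit 0), (nat_lit 1412501), [(nat_lit 780000), (nat_lit 1435001), (nat_lit 1271251)], [(nat_lit 11), (nat_lit 55), (nat_lit 317), (nat_lit 100), (nat_lit 9)]⟩,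
 Rw.none⟩) (.spl (nat_lit 2) (nat_lit 180) (.trX (nat_lit 5) (nat_lit 1) (nat_lit 2) (nat_lit 92) (nat_lit 49) (nat_lit 100) (nat_lit 380) (.spl (nat_lit 2) (nat_lit 160) (.trX (nat_lit 5) (nat_lit 1) (nat_lit 2) (nat_lit 94) (nat_lit 59) (nat_lit 100) (nat_lit 370) (.leaf ⟨(nat_lit 0), (nat_lit 902), (nat_lit 0), (nat_lit 98), (nat_lit 6377), (nat_lit 7478), (nat_lit 7869), (nat_lit 1241), (nat_lit 45843), (nat_lit 0), (nat_lit 0), [], Pd.none, Pd.none, (nat_lit 0), (nat_lit 1), (nat_lit 0), (nat_lit 0), (nat_lit 5), (nat_lit 0), [⟨(nat_lit 0), (nat_lit 100), (nat_lit 94), (nat_lit 88), (nat_lit 703864039)⟩], [⟨(nat_lit 0), (nat_lit 100), (nat_lit 88), (nat_lit 29), (nat_lit 172460032)⟩], [⟨(nat_lit 1), (nat_lit 59), (nat_lit 94), (nat_lit 100), (nat_lit 385480846)⟩], [],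
 ⟨⟨[(nat_lit 60), (nat_lit 100), (nat_lit 120)], [(nat_lit 0), (nat_lit 609), (nat_lit 1609)], [((nat_lit 0), (nat_lit 0), (nat_lit 0)), ((nat_lit 1000), (nat_lit 905), (nat_lit 238)), ((nat_lit 1000), (nat_lit 882), (nat_lit 668))], ((nat_lit 87), (nat_lit 100), (nat_lit 60))⟩, (nat_lit 3771484), (nat_lit 286), (nat_lit 286), (nat_lit 0), (nat_lit 262608), [(nat_lit 3439900006), (nat_lit 6250000006), (nat_lit 7968000000)], [], [(nat_lit 20297114884), (nat_lit 23374299024), (nat_lit 20349702738), (nat_lit 23022512480), (nat_lit 16386103516), (nat_lit 18008571540), (nat_lit 16459958312), (nat_lit 17985538404)], (nat_lit 1271251), (nat_lit 1271251), (nat_lit 490000), (nat_lit 780000), (nat_lit 0), (nat_lit 780000), [(nat_lit 780000), (nat_lit 1435001), (nat_lit 1271251)], [(nat_lit 10), (nat_lit 54), (nat_lit 272), (nat_lit 60), (nat_lit 9)]⟩,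
 ⟨⟨[(nat_lit 60), (nat_lit 100), (nat_lit 140)], [(nat_lit 0), (nat_lit 0), (nat_lit 2047)], [((nat_lit 0), (nat_lit 0), (nat_lit 0)), ((nat_lit 0), (nat_lit 0), (nat_lit 0)), ((nat_lit 1000), (nat_lit 993), (nat_lit 781))], ((nat_lit 94), (nat_lit 100), (nat_lit 62))⟩, (nat_lit 2751981), (nat_lit 307), (nat_lit 307), (nat_lit 0), (nat_lit 393863), [(nat_lit 3282000000), (nat_lit 6250000000), (nat_lit 9842000000)], [], [(nat_lit 22046912899), (nat_lit 24366995395), (nat_lit 21772688382), (nat_lit 23952631461), (nat_lit 30028392608), (nat_lit 32743625868), (nat_lit 29418463692), (nat_lit 31826038859)], (nat_lit 1271251), (nat_lit 1271251), (nat_lit 490000), (nat_lit 780000), (nat_lit 1271251), (nat_lit 1271251), [(nat_lit 780000), (nat_lit 1435001), (nat_lit 1271251)], [(nat_lit 11), (nat_lit 55), (nat_lit 345), (nat_lit 125), (nat_lit 9)]⟩,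
 ⟨⟨[(nat_lit 140), (nat_lit 180), (nat_lit 200)], [(nat_lit 0), (nat_lit 0), (nat_lit 2835)], [((nat_lit 0), (nat_lit 0), (nat_lit 0)), ((nat_lit 0), (nat_lit 0), (nat_lit 0)), ((nat_lit 363), (nat_lit 1000), (nat_lit 798))], ((nat_lit 0), (nat_lit 0), (nat_lit 0))⟩, (nat_lit 26963), (nat_lit 300), (nat_lit 1882), (nat_lit 7653800), (nat_lit 3079981), [(nat_lit 964516000), (nat_lit 1377684000), (nat_lit 1607200000)], [], [(nat_lit 6801926780), (nat_lit 6596755138), (nat_lit 5832257362), (nat_lit 5628337898), (nat_lit 6675674509), (nat_lit 6452176521), (nat_lit 5630367597), (nat_lit 5419575028)], (nat_lit 780000), (nat_lit 1100000), (nat_lit 0), (nat_lit 780000), (nat_lit 1271251), (nat_lit 1271251), [(nat_lit 1977501), (nat_lit 1271251), (nat_lit 1271251)], [(nat_lit 32), (nat_lit 67), (nat_lit 552), (nat_lit 175), (nat_lit 12)]⟩⟩)) (.trZ (nat_lit 0) (nat_lit 2) (nat_lit 4) (nat_lit 100) (nat_lit 88) (nat_lit 32) (nat_lit 10) (.leaf ⟨(nat_lit 0),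 (nat_lit 736), (nat_lit 0), (nat_lit 264), (nat_lit 3051), (nat_lit 7758), (nat_lit 7751), (nat_lit 2949), (nat_lit 23772), (nat_lit 0), (nat_lit 0), [], Pd.none, Pd.none, (nat_lit 0), (nat_lit 1), (nat_lit 0), (nat_lit 0), (nat_lit 5), (nat_lit 0), [⟨(nat_lit 0), (nat_lit 97), (nat_lit 93), (nat_lit 100), (nat_lit 784512818)⟩], [⟨(nat_lit 0), (nat_lit 100), (nat_lit 84), (nat_lit 42), (nat_lit 374374243)⟩], [⟨(nat_lit 1), (nat_lit 63), (nat_lit 88), (nat_lit 100), (nat_lit 204162263)⟩], [],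
 ⟨⟨[(nat_lit 60), (nat_lit 100), (nat_lit 120)], [(nat_lit 0), (nat_lit 609), (nat_lit 1609)], [((nat_lit 0), (nat_lit 0), (nat_lit 0)), ((nat_lit 1000), (nat_lit 905), (nat_lit 238)), ((nat_lit 1000), (nat_lit 882), (nat_lit 668))], ((nat_lit 87), (nat_lit 100), (nat_lit 60))⟩, (nat_lit 3661624), (nat_lit 260), (nat_lit 260), (nat_lit 0), (nat_lit 216852), [(nat_lit 3537154102), (nat_lit 6250000002), (nat_lit 7968000000)], [], [(nat_lit 19781283829), (nat_lit 22924420696), (nat_lit 19678214973), (nat_lit 22564439183), (nat_lit 16037059148), (nat_lit 17696531412), (nat_lit 16080892904), (nat_lit 17640510916)], (nat_lit 1271251), (nat_lit 1271251), (nat_lit 490000), (nat_lit 780000), (nat_lit 54688), (nat_lit 780000), [(nat_lit 780000), (nat_lit 1435001), (nat_lit 1271251)], [(nat_lit 10), (nat_lit 54), (nat_lit 272), (nat_lit 60), (nat_lit 9)]⟩,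
 ⟨⟨[(nat_lit 60), (nat_lit 100), (nat_lit 140)], [(nat_lit 0), (nat_lit 0), (nat_lit 2047)], [((nat_lit 0), (nat_lit 0), (nat_lit 0)), ((nat_lit 0), (nat_lit 0), (nat_lit 0)), ((nat_lit 1000), (nat_lit 993), (nat_lit 781))], ((nat_lit 94), (nat_lit 100), (nat_lit 62))⟩, (nat_lit 2610707), (nat_lit 297), (nat_lit 297), (nat_lit 0), (nat_lit 356971), [(nat_lit 3282000000), (nat_lit 6250000000), (nat_lit 9842000000)], [], [(nat_lit 22534532645), (nat_lit 24836374229), (nat_lit 22276416013), (nat_lit 24439814843), (nat_lit 31096152321), (nat_lit 33635015348), (nat_lit 30274938215), (nat_lit 32687647182)], (nat_lit 1271251), (nat_lit 1271251), (nat_lit 490000), (nat_lit 780000), (nat_lit 1271251), (nat_lit 1271251), [(nat_lit 780000), (nat_lit 1435001), (nat_lit 1271251)], [(nat_lit 11), (nat_lit 55), (nat_lit 345), (nat_lit 125), (nat_lit 9)]⟩,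
 ⟨⟨[(nat_lit 120), (nat_lit 160), (nat_lit 180)], [(nat_lit 0), (nat_lit 0), (nat_lit 1613)], [((nat_lit 0), (nat_lit 0), (nat_lit 0)), ((nat_lit 0), (nat_lit 0), (nat_lit 0)), ((nat_lit 620), (nat_lit 1000), (nat_lit 670))], ((nat_lit 100), (nat_lit 68), (nat_lit 61))⟩, (nat_lit 114896), (nat_lit 300), (nat_lit 1071), (nat_lit 19588805), (nat_lit 1532738), [(nat_lit 2103552000), (nat_lit 3134208000), (nat_lit 3711312000)], [], [(nat_lit 15925291200), (nat_lit 15767126591), (nat_lit 14113802658), (nat_lit 13958174660), (nat_lit 15401354492), (nat_lit 15264423114), (nat_lit 13446048336), (nat_lit 13286704482)], (nat_lit 1100000), (nat_lit 1271251), (nat_lit 54688), (nat_lit 780000), (nat_lit 1271251), (nat_lit 1271251), [(nat_lit 1695001), (nat_lit 1271251), (nat_lit 1271251)], [(nat_lit 28), (nat_lit 65), (nat_lit 401), (nat_lit 175), (nat_lit 9)]⟩⟩)))) (.trZ (nat_lit 0) (nat_lit 2) (nat_lit 4) (nat_lit 100) (nat_lit 87) (nat_lit 41) (nat_lit 10)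 (.leaf ⟨(nat_lit 0), (nat_lit 531), (nat_lit 0), (nat_lit 469), (nat_lit 0), (nat_lit 7217), (nat_lit 7398), (nat_lit 5006), (nat_lit 891046), (nat_lit 0), (nat_lit 0), [], Pd.none, Pd.none, (nat_lit 0), (nat_lit 1), (nat_lit 0), (nat_lit 0), (nat_lit 5), (nat_lit 0), [⟨(nat_lit 0), (nat_lit 97), (nat_lit 93), (nat_lit 100), (nat_lit 809355090)⟩], [⟨(nat_lit 0), (nat_lit 100), (nat_lit 87), (nat_lit 41), (nat_lit 583621412)⟩], [], [],
 ⟨⟨[(nat_lit 60), (nat_lit 100), (nat_lit 120)], [(nat_lit 0), (nat_lit 609), (nat_lit 1609)], [((nat_lit 0), (nat_lit 0), (nat_lit 0)), ((nat_lit 1000), (nat_lit 905), (nat_lit 238)), ((nat_lit 1000), (nat_lit 882), (nat_lit 668))], ((nat_lit 87), (nat_lit 100), (nat_lit 60))⟩, (nat_lit 3786027), (nat_lit 256), (nat_lit 256), (nat_lit 0), (nat_lit 205151), [(nat_lit 3318433637), (nat_lit 6250000054), (nat_lit 7968000000)], [], [(nat_lit 20035054872), (nat_lit 22106314004), (nat_lit 20125361538), (nat_lit 21841980480),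 (nat_lit 16818478996), (nat_lit 18406453782), (nat_lit 16920317690), (nat_lit 18414169578)], (nat_lit 1271251), (nat_lit 1271251), (nat_lit 490000), (nat_lit 780000), (nat_lit 54688), (nat_lit 780000), [(nat_lit 780000), (nat_lit 1435001), (nat_lit 1271251)], [(nat_lit 10), (nat_lit 54), (nat_lit 272), (nat_lit 60), (nat_lit 9)]⟩,
 ⟨⟨[(nat_lit 60), (nat_lit 100), (nat_lit 140)], [(nat_lit 0), (nat_lit 0), (nat_lit 2047)], [((nat_lit 0), (nat_lit 0), (nat_lit 0)), ((nat_lit 0), (nat_lit 0), (nat_lit 0)), ((nat_lit 1000), (nat_lit 993), (nat_lit 781))], ((nat_lit 94), (nat_lit 100), (nat_lit 62))⟩, (nat_lit 2471788), (nat_lit 307), (nat_lit 307), (nat_lit 0), (nat_lit 376616), [(nat_lit 3282000000), (nat_lit 6250000000), (nat_lit 9842000000)], [], [(nat_lit 23412513816), (nat_lit 25659787248), (nat_lit 23202584331), (nat_lit 25316490620), (nat_lit 32873025672), (nat_lit 35149905000), (nat_lit 32098301528), (nat_lit 34174942576)], (nat_lit 1271251),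 (nat_lit 1271251), (nat_lit 490000), (nat_lit 780000), (nat_lit 1271251), (nat_lit 1271251), [(nat_lit 780000), (nat_lit 1435001), (nat_lit 1271251)], [(nat_lit 11), (nat_lit 55), (nat_lit 373), (nat_lit 150), (nat_lit 10)]⟩,
 ⟨⟨[(nat_lit 120), (nat_lit 160), (nat_lit 180)], [(nat_lit 0), (nat_lit 533), (nat_lit 2066)], [((nat_lit 0), (nat_lit 0), (nat_lit 0)), ((nat_lit 960), (nat_lit 1000), (nat_lit 200)), ((nat_lit 615), (nat_lit 1000), (nat_lit 729))], ((nat_lit 100), (nat_lit 74), (nat_lit 60))⟩, (nat_lit 1098146), (nat_lit 300), (nat_lit 911), (nat_lit 31141602), (nat_lit 1187800), [(nat_lit 3736992000), (nat_lit 5567968000), (nat_lit 6593202000)], [], [(nat_lit 25801818227), (nat_lit 25364492422), (nat_lit 22754618334), (nat_lit 22236935170), (nat_lit 25761554678), (nat_lit 25286895999), (nat_lit 22203160991), (nat_lit 21742606200)], (nat_lit 1271251), (nat_lit 1271251), (nat_lit 54688), (nat_lit 780000), (nat_lit 1271251), (nat_lit 1271251),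 [(nat_lit 1695001), (nat_lit 1271251), (nat_lit 1271251)], [(nat_lit 28), (nat_lit 65), (nat_lit 428), (nat_lit 200), (nat_lit 10)]⟩⟩)))) (.trZ (nat_lit 0) (nat_lit 2) (nat_lit 4) (nat_lit 100) (nat_lit 87) (nat_lit 59) (nat_lit 30) (.trZ (nat_lit 1) (nat_lit 2) (nat_lit 5) (nat_lit 100) (nat_lit 92) (nat_lit 49) (nat_lit 20) (.spl (nat_lit 5) (nat_lit 200) (.leaf ⟨(nat_lit 0), (nat_lit 702), (nat_lit 0), (nat_lit 298), (nat_lit 0), (nat_lit 8763), (nat_lit 10340), (nat_lit 4999), (nat_lit 46093), (nat_lit 87432), (nat_lit 0), [], Pd.none, Pd.none, (nat_lit 0), (nat_lit 1), (nat_lit 0), (nat_lit 0), (nat_lit 5), (nat_lit 0), [⟨(nat_lit 0), (nat_lit 100), (nat_lit 94), (nat_lit 88), (nat_lit 411006646)⟩], [⟨(nat_lit 0), (nat_lit 100), (nat_lit 89), (nat_lit 86), (nat_lit 756195052)⟩], [⟨(nat_lit 0), (nat_lit 100), (nat_lit 92), (nat_lit 82), (nat_lit 72066091)⟩], [],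
 ⟨⟨[(nat_lit 60), (nat_lit 100), (nat_lit 120)], [(nat_lit 0), (nat_lit 609), (nat_lit 1609)], [((nat_lit 0), (nat_lit 0), (nat_lit 0)), ((nat_lit 1000), (nat_lit 905), (nat_lit 238)), ((nat_lit 1000), (nat_lit 882), (nat_lit 668))], ((nat_lit 87), (nat_lit 100), (nat_lit 60))⟩, (nat_lit 3627752), (nat_lit 266), (nat_lit 266), (nat_lit 0), (nat_lit 278016), [(nat_lit 3980991540), (nat_lit 6250000014), (nat_lit 7968000000)], [], [(nat_lit 18944395538), (nat_lit 22342434660), (nat_lit 18689768265), (nat_lit 21901393092), (nat_lit 14393013806), (nat_lit 16888551444), (nat_lit 14281340393), (nat_lit 16712523579)], (nat_lit 1271251), (nat_lit 1271251), (nat_lit 490000), (nat_lit 780000), (nat_lit 169688), (nat_lit 780000), [(nat_lit 780000), (nat_lit 1435001), (nat_lit 1271251)], [(nat_lit 10), (nat_lit 54), (nat_lit 272), (nat_lit 60), (nat_lit 9)]⟩,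
 ⟨⟨[(nat_lit 60), (nat_lit 100), (nat_lit 140)], [(nat_lit 0), (nat_lit 0), (nat_lit 2047)], [((nat_lit 0), (nat_lit 0), (nat_lit 0)), ((nat_lit 0), (nat_lit 0), (nat_lit 0)), ((nat_lit 1000), (nat_lit 993), (nat_lit 781))], ((nat_lit 94), (nat_lit 100), (nat_lit 62))⟩, (nat_lit 3378161), (nat_lit 509), (nat_lit 509), (nat_lit 0), (nat_lit 653873), [(nat_lit 3282000000), (nat_lit 6250000000), (nat_lit 9842000000)], [], [(nat_lit 21679559473), (nat_lit 26380485353), (nat_lit 21229596780), (nat_lit 25582983023), (nat_lit 19920477480), (nat_lit 20405368513), (nat_lit 23520588230), (nat_lit 19634809333)], (nat_lit 1271251), (nat_lit 1271251), (nat_lit 490000), (nat_lit 780000), (nat_lit 111251), (nat_lit 1416250), [(nat_lit 780000), (nat_lit 1435001), (nat_lit 1271251)], [(nat_lit 11), (nat_lit 55), (nat_lit 317), (nat_lit 100), (nat_lit 9)]⟩,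
 ⟨⟨[(nat_lit 100), (nat_lit 140), (nat_lit 160)], [(nat_lit 0), (nat_lit 508), (nat_lit 1689)], [((nat_lit 0), (nat_lit 0), (nat_lit 0)), ((nat_lit 1000), (nat_lit 1000), (nat_lit 198)), ((nat_lit 811), (nat_lit 1000), (nat_lit 671))], ((nat_lit 100), (nat_lit 86), (nat_lit 60))⟩, (nat_lit 640583), (nat_lit 300), (nat_lit 769), (nat_lit 18625000), (nat_lit 886276), [(nat_lit 1862500000), (nat_lit 2932916000), (nat_lit 3537856000)], [], [(nat_lit 13338224541), (nat_lit 15124471110), (nat_lit 10347034371), (nat_lit 11945208416), (nat_lit 12091507546), (nat_lit 10651833350), (nat_lit 14543184231), (nat_lit 7748674246)], (nat_lit 1271251), (nat_lit 1271251), (nat_lit 169688), (nat_lit 780000), (nat_lit 111251), (nat_lit 1416250), [(nat_lit 1412501), (nat_lit 1271251), (nat_lit 1271251)], [(nat_lit 23), (nat_lit 62), (nat_lit 401), (nat_lit 175), (nat_lit 11)]⟩⟩) (.leaf ⟨(nat_lit 0), (nat_lit 0), (nat_lit 0), (nat_lit 1000), (nat_lit 0), (nat_lit 6041),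 (nat_lit 10649), (nat_lit 11091), (nat_lit 502547), (nat_lit 9982), (nat_lit 0), [], Pd.none, Pd.none, (nat_lit 0), (nat_lit 1), (nat_lit 0), (nat_lit 0), (nat_lit 0), (nat_lit 0), [⟨(nat_lit 0), (nat_lit 97), (nat_lit 93), (nat_lit 100), (nat_lit 1065381893)⟩], [⟨(nat_lit 0), (nat_lit 100), (nat_lit 87), (nat_lit 59), (nat_lit 1266233599)⟩], [], [],
 ⟨⟨[(nat_lit 60), (nat_lit 100), (nat_lit 120)], [(nat_lit 0), (nat_lit 609), (nat_lit 1609)], [((nat_lit 0), (nat_lit 0), (nat_lit 0)), ((nat_lit 1000), (nat_lit 905), (nat_lit 238)), ((nat_lit 1000), (nat_lit 882), (nat_lit 668))], ((nat_lit 87), (nat_lit 100), (nat_lit 60))⟩, (nat_lit 7589839), (nat_lit 266), (nat_lit 266), (nat_lit 0), (nat_lit 278016), [(nat_lit 3282000025), (nat_lit 6250000008), (nat_lit 7968000000)], [], [(nat_lit 16357957603), (nat_lit 18978532620), (nat_lit 16505749619), (nat_lit 18989069491), (nat_lit 14946077075), (nat_lit 16274537391), (nat_lit 15164820148), (nat_lit 16544798993)],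 (nat_lit 1271251), (nat_lit 1271251), (nat_lit 490000), (nat_lit 780000), (nat_lit 169688), (nat_lit 780000), [(nat_lit 780000), (nat_lit 1435001), (nat_lit 1271251)], [(nat_lit 10), (nat_lit 54), (nat_lit 272), (nat_lit 60), (nat_lit 9)]⟩,
 ⟨⟨[(nat_lit 60), (nat_lit 100), (nat_lit 140)], [(nat_lit 0), (nat_lit 0), (nat_lit 2047)], [((nat_lit 0), (nat_lit 0), (nat_lit 0)), ((nat_lit 0), (nat_lit 0), (nat_lit 0)), ((nat_lit 1000), (nat_lit 993), (nat_lit 781))], ((nat_lit 94), (nat_lit 100), (nat_lit 62))⟩, (nat_lit 3606434), (nat_lit 428), (nat_lit 428), (nat_lit 0), (nat_lit 653873), [(nat_lit 3282000000), (nat_lit 6250000000), (nat_lit 9842000000)], [], [(nat_lit 16117852182), (nat_lit 19798398490), (nat_lit 15529814897), (nat_lit 18979874167), (nat_lit 38037435370), (nat_lit 40792015500), (nat_lit 36442220229), (nat_lit 39045304688)], (nat_lit 1271251), (nat_lit 1271251), (nat_lit 490000), (nat_lit 780000), (nat_lit 1271251), (nat_lit 1271251),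 [(nat_lit 780000), (nat_lit 1435001), (nat_lit 1271251)], [(nat_lit 11), (nat_lit 55), (nat_lit 373), (nat_lit 150), (nat_lit 10)]⟩,
 ⟨⟨[(nat_lit 100), (nat_lit 140), (nat_lit 160)], [(nat_lit 0), (nat_lit 508), (nat_lit 1689)], [((nat_lit 0), (nat_lit 0), (nat_lit 0)), ((nat_lit 1000), (nat_lit 1000), (nat_lit 198)), ((nat_lit 811), (nat_lit 1000), (nat_lit 671))], ((nat_lit 100), (nat_lit 86), (nat_lit 60))⟩, (nat_lit 2149606), (nat_lit 300), (nat_lit 665), (nat_lit 62500002), (nat_lit 886276), [(nat_lit 6250000000), (nat_lit 9842000000), (nat_lit 11872000000)], [], [(nat_lit 41114627628), (nat_lit 41477268996), (nat_lit 35863129478), (nat_lit 35832050907), (nat_lit 44986907666), (nat_lit 48274396173), (nat_lit 38590549745), (nat_lit 39707470192)], (nat_lit 1271251), (nat_lit 1271251), (nat_lit 169688), (nat_lit 780000), (nat_lit 1271251), (nat_lit 1271251), [(nat_lit 1412501), (nat_lit 1271251), (nat_lit 1271251)], [(nat_lit 23), (nat_lit 62),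 (nat_lit 456), (nat_lit 225), (nat_lit 11)]⟩⟩))))))
noncomputable def c4_7 : Tr Lf :=
 (.spl (nat_lit 1) (nat_lit 280) (.ord (.dle (nat_lit 0))) (.trZ (nat_lit 0) (nat_lit 1) (nat_lit 3) (nat_lit 100) (nat_lit 94) (nat_lit 88) (nat_lit 80) (.spl (nat_lit 2) (nat_lit 220) (.spl (nat_lit 6) (nat_lit 68) (.spl (nat_lit 5) (nat_lit 200) (.leaf ⟨(nat_lit 0), (nat_lit 1000), (nat_lit 0), (nat_lit 0), (nat_lit 55187), (nat_lit 6217), (nat_lit 10270), (nat_lit 0), (nat_lit 8888), (nat_lit 0), (nat_lit 0), [], Pd.none, Pd.none, (nat_lit 0), (nat_lit 1), (nat_lit 0), (nat_lit 0), (nat_lit 3), (nat_lit 0), [⟨(nat_lit 0), (nat_lit 97), (nat_lit 93), (nat_lit 100), (nat_lit 771934648)⟩], [⟨(nat_lit 0), (nat_lit 100), (nat_lit 84), (nat_lit 42), (nat_lit 21743341)⟩], [], [],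
 ⟨⟨[(nat_lit 60), (nat_lit 100), (nat_lit 140)], [(nat_lit 0), (nat_lit 609), (nat_lit 2558)], [((nat_lit 0), (nat_lit 0), (nat_lit 0)), ((nat_lit 1000), (nat_lit 905), (nat_lit 238)), ((nat_lit 1000), (nat_lit 904), (nat_lit 760))], ((nat_lit 91), (nat_lit 100), (nat_lit 79))⟩, (nat_lit 4261775), (nat_lit 282), (nat_lit 282), (nat_lit 0), (nat_lit 87437), [(nat_lit 3282000009), (nat_lit 6250000003), (nat_lit 9842000000)], [], [(nat_lit 19727694554), (nat_lit 21443478810), (nat_lit 19667078602), (nat_lit 21289756056), (nat_lit 15649547939), (nat_lit 17363820870), (nat_lit 15978808003), (nat_lit 17569079615)], (nat_lit 1271251), (nat_lit 1271251), (nat_lit 490000), (nat_lit 780000), (nat_lit 0), (nat_lit 780000), [(nat_lit 780000), (nat_lit 1435001), (nat_lit 1271251)], [(nat_lit 11), (nat_lit 55), (nat_lit 272), (nat_lit 60), (nat_lit 8)]⟩,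
 ⟨⟨[(nat_lit 60), (nat_lit 120), (nat_lit 160)], [(nat_lit 0), (nat_lit 0), (nat_lit 3243)], [((nat_lit 0), (nat_lit 0), (nat_lit 0)), ((nat_lit 0), (nat_lit 0), (nat_lit 0)), ((nat_lit 878), (nat_lit 1000), (nat_lit 945))], ((nat_lit 100), (nat_lit 99), (nat_lit 82))⟩, (nat_lit 1802387), (nat_lit 366), (nat_lit 366), (nat_lit 0), (nat_lit 135177), [(nat_lit 3282000000), (nat_lit 7968000000), (nat_lit 11872000000)], [], [(nat_lit 32967003339), (nat_lit 35805595799), (nat_lit 32095672419), (nat_lit 34714006839), (nat_lit 33879525270), (nat_lit 27638304679), (nat_lit 37708498005), (nat_lit 28464270740)], (nat_lit 1271251), (nat_lit 1271251), (nat_lit 490000), (nat_lit 780000), (nat_lit 0), (nat_lit 1412501), [(nat_lit 780000), (nat_lit 1762501), (nat_lit 1271251)], [(nat_lit 12), (nat_lit 59), (nat_lit 401), (nat_lit 175), (nat_lit 10)]⟩,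
 Rw.none⟩) (.spl (nat_lit 0) (nat_lit 310) (.ord (.spl (nat_lit 6) (nat_lit 48) (.leaf ⟨(nat_lit 0), (nat_lit 862), (nat_lit 0), (nat_lit 138), (nat_lit 43823), (nat_lit 5521), (nat_lit 6843), (nat_lit 1683), (nat_lit 52212), (nat_lit 0), (nat_lit 0), [], Pd.none, Pd.none, (nat_lit 0), (nat_lit 1), (nat_lit 0), (nat_lit 0), (nat_lit 5), (nat_lit 0), [⟨(nat_lit 0), (nat_lit 91), (nat_lit 91), (nat_lit 100), (nat_lit 784411513)⟩], [⟨(nat_lit 0), (nat_lit 100), (nat_lit 86), (nat_lit 40), (nat_lit 138985850)⟩], [⟨(nat_lit 1), (nat_lit 61), (nat_lit 89), (nat_lit 100), (nat_lit 401168061)⟩], [],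
 ⟨⟨[(nat_lit 60), (nat_lit 100), (nat_lit 120)], [(nat_lit 0), (nat_lit 609), (nat_lit 1609)], [((nat_lit 0), (nat_lit 0), (nat_lit 0)), ((nat_lit 1000), (nat_lit 905), (nat_lit 238)), ((nat_lit 1000), (nat_lit 882), (nat_lit 668))], ((nat_lit 88), (nat_lit 100), (nat_lit 66))⟩, (nat_lit 3802177), (nat_lit 202), (nat_lit 202), (nat_lit 0), (nat_lit 27876), [(nat_lit 3282000012), (nat_lit 6250000006), (nat_lit 7968000000)], [], [(nat_lit 19458360539), (nat_lit 20357856307), (nat_lit 19663718975), (nat_lit 20503879276), (nat_lit 17103019137), (nat_lit 17890382966), (nat_lit 17516855605), (nat_lit 18259778709)], (nat_lit 1271251), (nat_lit 1271251), (nat_lit 490000), (nat_lit 780000), (nat_lit 0), (nat_lit 780000), [(nat_lit 780000), (nat_lit 1435001), (nat_lit 1271251)], [(nat_lit 10), (nat_lit 54), (nat_lit 272), (nat_lit 60), (nat_lit 9)]⟩,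
 ⟨⟨[(nat_lit 60), (nat_lit 100), (nat_lit 140)], [(nat_lit 0), (nat_lit 0), (nat_lit 2047)], [((nat_lit 0), (nat_lit 0), (nat_lit 0)), ((nat_lit 0), (nat_lit 0), (nat_lit 0)), ((nat_lit 1000), (nat_lit 993), (nat_lit 781))], ((nat_lit 96), (nat_lit 100), (nat_lit 68))⟩, (nat_lit 2592245), (nat_lit 171), (nat_lit 171), (nat_lit 0), (nat_lit 41355), [(nat_lit 3282000000), (nat_lit 6250000000), (nat_lit 9842000000)], [], [(nat_lit 20784184545), (nat_lit 22892363862), (nat_lit 20716294073), (nat_lit 22704593474), (nat_lit 32521918163), (nat_lit 33637328523), (nat_lit 31809038867), (nat_lit 32820877788)], (nat_lit 1271251), (nat_lit 1271251), (nat_lit 490000), (nat_lit 780000), (nat_lit 1271251), (nat_lit 1271251), [(nat_lit 780000), (nat_lit 1435001), (nat_lit 1271251)], [(nat_lit 11), (nat_lit 55), (nat_lit 373), (nat_lit 150), (nat_lit 10)]⟩,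
 ⟨⟨[(nat_lit 140), (nat_lit 180), (nat_lit 200)], [(nat_lit 0), (nat_lit 0), (nat_lit 2835)], [((nat_lit 0), (nat_lit 0), (nat_lit 0)), ((nat_lit 0), (nat_lit 0), (nat_lit 0)), ((nat_lit 363), (nat_lit 1000), (nat_lit 798))], ((nat_lit 0), (nat_lit 0), (nat_lit 0))⟩, (nat_lit 37968), (nat_lit 300), (nat_lit 613), (nat_lit 10777804), (nat_lit 293977), [(nat_lit 1358196000), (nat_lit 1940004000), (nat_lit 2263200000)], [], [(nat_lit 9646755012), (nat_lit 9121993785), (nat_lit 8252400969), (nat_lit 7753814214), (nat_lit 9536252016), (nat_lit 8980104304), (nat_lit 8116666866), (nat_lit 7523996246)], (nat_lit 780000), (nat_lit 1598751), (nat_lit 0), (nat_lit 780000), (nat_lit 1271251), (nat_lit 1271251), [(nat_lit 1977501), (nat_lit 1271251), (nat_lit 1271251)], [(nat_lit 32), (nat_lit 67), (nat_lit 428), (nat_lit 200), (nat_lit 9)]⟩⟩) (.dle (nat_lit 0)))) (.trZ (nat_lit 0) (nat_lit 1) (nat_lit 3) (nat_lit 100) (nat_lit 91) (nat_lit 91) (nat_lit 90) (.leaf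 ⟨(nat_lit 0), (nat_lit 865), (nat_lit 0), (nat_lit 135), (nat_lit 29779), (nat_lit 5394), (nat_lit 8313), (nat_lit 1610), (nat_lit 4031), (nat_lit 0), (nat_lit 0), [], Pd.none, Pd.none, (nat_lit 0), (nat_lit 1), (nat_lit 0), (nat_lit 0), (nat_lit 5), (nat_lit 0), [⟨(nat_lit 0), (nat_lit 95), (nat_lit 90), (nat_lit 100), (nat_lit 828166063)⟩], [⟨(nat_lit 0), (nat_lit 100), (nat_lit 83), (nat_lit 45), (nat_lit 133654680)⟩], [⟨(nat_lit 1), (nat_lit 63), (nat_lit 88), (nat_lit 100), (nat_lit 398068096)⟩], [],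
 ⟨⟨[(nat_lit 60), (nat_lit 100), (nat_lit 140)], [(nat_lit 0), (nat_lit 909), (nat_lit 2819)], [((nat_lit 0), (nat_lit 0), (nat_lit 0)), ((nat_lit 1000), (nat_lit 858), (nat_lit 354)), ((nat_lit 1000), (nat_lit 858), (nat_lit 746))], ((nat_lit 87), (nat_lit 100), (nat_lit 78))⟩, (nat_lit 4180825), (nat_lit 225), (nat_lit 225), (nat_lit 0), (nat_lit 86241), [(nat_lit 3282000002), (nat_lit 6250000002), (nat_lit 9842000000)], [], [(nat_lit 19193031670), (nat_lit 19974006888), (nat_lit 19213326433), (nat_lit 19963211535), (nat_lit 16708632132), (nat_lit 17474784322), (nat_lit 16995004116), (nat_lit 17728420111)], (nat_lit 1271251), (nat_lit 1271251), (nat_lit 559688), (nat_lit 780000), (nat_lit 0), (nat_lit 780000), [(nat_lit 780000), (nat_lit 1435001), (nat_lit 1271251)], [(nat_lit 11), (nat_lit 55), (nat_lit 272), (nat_lit 60), (nat_lit 8)]⟩,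
 ⟨⟨[(nat_lit 60), (nat_lit 120), (nat_lit 160)], [(nat_lit 0), (nat_lit 0), (nat_lit 3243)], [((nat_lit 0), (nat_lit 0), (nat_lit 0)), ((nat_lit 0), (nat_lit 0), (nat_lit 0)), ((nat_lit 878), (nat_lit 1000), (nat_lit 945))], ((nat_lit 100), (nat_lit 99), (nat_lit 82))⟩, (nat_lit 2079542), (nat_lit 227), (nat_lit 227), (nat_lit 0), (nat_lit 135177), [(nat_lit 3282000000), (nat_lit 7968000000), (nat_lit 11872000000)], [], [(nat_lit 23636814541), (nat_lit 26331367764), (nat_lit 23287779840), (nat_lit 25861753666), (nat_lit 34829623862), (nat_lit 36439844389), (nat_lit 33989375191), (nat_lit 35614650220)], (nat_lit 1271251), (nat_lit 1271251), (nat_lit 559688), (nat_lit 780000), (nat_lit 1271251), (nat_lit 1271251), [(nat_lit 780000), (nat_lit 1762501), (nat_lit 1271251)], [(nat_lit 12), (nat_lit 59), (nat_lit 456), (nat_lit 225), (nat_lit 11)]⟩,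
 ⟨⟨[(nat_lit 140), (nat_lit 180), (nat_lit 200)], [(nat_lit 0), (nat_lit 0), (nat_lit 2835)], [((nat_lit 0), (nat_lit 0), (nat_lit 0)), ((nat_lit 0), (nat_lit 0), (nat_lit 0)), ((nat_lit 363), (nat_lit 1000), (nat_lit 798))], ((nat_lit 0), (nat_lit 0), (nat_lit 0))⟩, (nat_lit 37143), (nat_lit 300), (nat_lit 912), (nat_lit 10543500), (nat_lit 963818), [(nat_lit 1328670000), (nat_lit 1897830000), (nat_lit 2214000000)], [], [(nat_lit 9635239340), (nat_lit 9070647905), (nat_lit 8397797745), (nat_lit 7855212862), (nat_lit 9380775120), (nat_lit 8788255080), (nat_lit 8026708670), (nat_lit 7463851910)], (nat_lit 780000), (nat_lit 1598751), (nat_lit 0), (nat_lit 780000), (nat_lit 1271251), (nat_lit 1271251), [(nat_lit 1977501), (nat_lit 1271251), (nat_lit 1271251)], [(nat_lit 32), (nat_lit 67), (nat_lit 428), (nat_lit 200), (nat_lit 9)]⟩⟩)))) (.dle (nat_lit 0))) (.trZ (nat_lit 0) (nat_lit 2) (nat_lit 4) (nat_lit 100) (nat_lit 87) (nat_lit 59) (nat_lit 30)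 (.trZ (nat_lit 1) (nat_lit 2) (nat_lit 5) (nat_lit 100) (nat_lit 92) (nat_lit 49) (nat_lit 20) (.spl (nat_lit 1) (nat_lit 300) (.ord (.spl (nat_lit 6) (nat_lit 56) (.leaf ⟨(nat_lit 0), (nat_lit 528), (nat_lit 0), (nat_lit 472), (nat_lit 52126), (nat_lit 7450), (nat_lit 5366), (nat_lit 4361), (nat_lit 0), (nat_lit 3363), (nat_lit 0), [], Pd.none, Pd.none, (nat_lit 0), (nat_lit 1), (nat_lit 0), (nat_lit 0), (nat_lit 5), (nat_lit 0), [⟨(nat_lit 0), (nat_lit 100), (nat_lit 94), (nat_lit 97), (nat_lit 12466016)⟩, ⟨(nat_lit 0), (nat_lit 94), (nat_lit 87), (nat_lit 100), (nat_lit 975313772)⟩], [⟨(nat_lit 0), (nat_lit 100), (nat_lit 88), (nat_lit 81), (nat_lit 802834084)⟩], [], [],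
 ⟨⟨[(nat_lit 60), (nat_lit 100), (nat_lit 140)], [(nat_lit 0), (nat_lit 609), (nat_lit 2558)], [((nat_lit 0), (nat_lit 0), (nat_lit 0)), ((nat_lit 1000), (nat_lit 905), (nat_lit 238)), ((nat_lit 1000), (nat_lit 904), (nat_lit 760))], ((nat_lit 89), (nat_lit 100), (nat_lit 72))⟩, (nat_lit 4356847), (nat_lit 192), (nat_lit 192), (nat_lit 0), (nat_lit 54133), [(nat_lit 3989519655), (nat_lit 6250000006), (nat_lit 9842000000)], [], [(nat_lit 18202490524), (nat_lit 20719803000), (nat_lit 18002733978), (nat_lit 20496587475), (nat_lit 14836852024), (nat_lit 16549656374), (nat_lit 14707885774), (nat_lit 16553893133)], (nat_lit 1271251), (nat_lit 1271251), (nat_lit 490000), (nat_lit 780000), (nat_lit 169688), (nat_lit 780000), [(nat_lit 780000), (nat_lit 1435001), (nat_lit 1271251)], [(nat_lit 11), (nat_lit 55), (nat_lit 272), (nat_lit 60), (nat_lit 8)]⟩,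
 ⟨⟨[(nat_lit 60), (nat_lit 100), (nat_lit 140)], [(nat_lit 0), (nat_lit 0), (nat_lit 2047)], [((nat_lit 0), (nat_lit 0), (nat_lit 0)), ((nat_lit 0), (nat_lit 0), (nat_lit 0)), ((nat_lit 1000), (nat_lit 993), (nat_lit 781))], ((nat_lit 98), (nat_lit 100), (nat_lit 74))⟩, (nat_lit 3855822), (nat_lit 213), (nat_lit 213), (nat_lit 0), (nat_lit 120837), [(nat_lit 3282000000), (nat_lit 6250000000), (nat_lit 9842000000)], [], [(nat_lit 19930371982), (nat_lit 21423404618), (nat_lit 20191449172), (nat_lit 21522251813), (nat_lit 31904136392), (nat_lit 32714249704), (nat_lit 31608171688), (nat_lit 32378510300)], (nat_lit 1271251), (nat_lit 1271251), (nat_lit 490000), (nat_lit 780000), (nat_lit 111251), (nat_lit 2866250), [(nat_lit 780000), (nat_lit 1435001), (nat_lit 1271251)], [(nat_lit 11), (nat_lit 55), (nat_lit 373), (nat_lit 150), (nat_lit 11)]⟩,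
 ⟨⟨[(nat_lit 100), (nat_lit 140), (nat_lit 180)], [(nat_lit 0), (nat_lit 508), (nat_lit 2854)], [((nat_lit 0), (nat_lit 0), (nat_lit 0)), ((nat_lit 1000), (nat_lit 1000), (nat_lit 198)), ((nat_lit 777), (nat_lit 1000), (nat_lit 712))], ((nat_lit 100), (nat_lit 79), (nat_lit 70))⟩, (nat_lit 301105), (nat_lit 300), (nat_lit 468), (nat_lit 32089019), (nat_lit 134263), [(nat_lit 2950000000), (nat_lit 4645424000), (nat_lit 6635376000)], [], [(nat_lit 26671879225), (nat_lit 27317704800), (nat_lit 24316634400), (nat_lit 24891209176), (nat_lit 28182805322), (nat_lit 25241376479), (nat_lit 31413545512), (nat_lit 23993223334)], (nat_lit 1271251), (nat_lit 1271251), (nat_lit 169688), (nat_lit 780000), (nat_lit 111251), (nat_lit 2866250), [(nat_lit 1412501), (nat_lit 1271251), (nat_lit 1271251)], [(nat_lit 24), (nat_lit 63), (nat_lit 456), (nat_lit 225), (nat_lit 11)]⟩⟩) (.dle (nat_lit 0)))) (.trZ (nat_lit 0) (nat_lit 1) (nat_lit 3) (nat_lit 100) (nat_lit 100)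 (nat_lit 100) (nat_lit 100) (.trZ (nat_lit 1) (nat_lit 2) (nat_lit 5) (nat_lit 100) (nat_lit 87) (nat_lit 59) (nat_lit 30) (.leaf ⟨(nat_lit 0), (nat_lit 508), (nat_lit 0), (nat_lit 492), (nat_lit 41761), (nat_lit 7637), (nat_lit 7293), (nat_lit 5224), (nat_lit 12085891018611), (nat_lit 55318), (nat_lit 0), [], Pd.none, Pd.none, (nat_lit 0), (nat_lit 1), (nat_lit 0), (nat_lit 0), (nat_lit 5), (nat_lit 0), [⟨(nat_lit 0), (nat_lit 91), (nat_lit 91), (nat_lit 100), (nat_lit 1025251899)⟩], [⟨(nat_lit 0), (nat_lit 100), (nat_lit 89), (nat_lit 86), (nat_lit 920353137)⟩], [], [],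
 ⟨⟨[(nat_lit 60), (nat_lit 100), (nat_lit 140)], [(nat_lit 0), (nat_lit 609), (nat_lit 2558)], [((nat_lit 0), (nat_lit 0), (nat_lit 0)), ((nat_lit 1000), (nat_lit 905), (nat_lit 238)), ((nat_lit 1000), (nat_lit 904), (nat_lit 760))], ((nat_lit 93), (nat_lit 100), (nat_lit 84))⟩, (nat_lit 4473746), (nat_lit 207), (nat_lit 207), (nat_lit 0), (nat_lit 114763), [(nat_lit 4052976254), (nat_lit 6250000069), (nat_lit 9842000000)], [], [(nat_lit 17830501675), (nat_lit 20823781975), (nat_lit 17786313086), (nat_lit 20696662609), (nat_lit 14374183011), (nat_lit 16418811689), (nat_lit 14296966190), (nat_lit 16406439621)], (nat_lit 1271251), (nat_lit 1271251), (nat_lit 631250), (nat_lit 780000), (nat_lit 169688), (nat_lit 780000), [(nat_lit 780000), (nat_lit 1435001), (nat_lit 1271251)], [(nat_lit 11), (nat_lit 55), (nat_lit 272), (nat_lit 60), (nat_lit 8)]⟩,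
 ⟨⟨[(nat_lit 60), (nat_lit 100), (nat_lit 140)], [(nat_lit 0), (nat_lit 609), (nat_lit 2558)], [((nat_lit 0), (nat_lit 0), (nat_lit 0)), ((nat_lit 1000), (nat_lit 905), (nat_lit 238)), ((nat_lit 1000), (nat_lit 904), (nat_lit 760))], ((nat_lit 93), (nat_lit 100), (nat_lit 84))⟩, (nat_lit 4130455), (nat_lit 302), (nat_lit 302), (nat_lit 0), (nat_lit 235520), [(nat_lit 3282000000), (nat_lit 6250000000), (nat_lit 9842000000)], [], [(nat_lit 18659124167), (nat_lit 20460311718), (nat_lit 18663506292), (nat_lit 20329683157), (nat_lit 35195930035), (nat_lit 34492659158), (nat_lit 36990300350), (nat_lit 34017640816)], (nat_lit 1271251), (nat_lit 1271251), (nat_lit 631250), (nat_lit 780000), (nat_lit 169688), (nat_lit 2886876), [(nat_lit 780000), (nat_lit 1435001), (nat_lit 1271251)], [(nat_lit 11), (nat_lit 55), (nat_lit 373), (nat_lit 150), (nat_lit 11)]⟩,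
 ⟨⟨[(nat_lit 100), (nat_lit 140), (nat_lit 180)], [(nat_lit 0), (nat_lit 508), (nat_lit 2854)], [((nat_lit 0), (nat_lit 0), (nat_lit 0)), ((nat_lit 1000), (nat_lit 1000), (nat_lit 198)), ((nat_lit 777), (nat_lit 1000), (nat_lit 712))], ((nat_lit 100), (nat_lit 70), (nat_lit 79))⟩, (nat_lit 313863), (nat_lit 300), (nat_lit 565), (nat_lit 33448728), (nat_lit 281037), [(nat_lit 3075000000), (nat_lit 4842264000), (nat_lit 6916536000)], [], [(nat_lit 29677151371), (nat_lit 29940808249), (nat_lit 26724277199), (nat_lit 26922593789), (nat_lit 26200902099), (nat_lit 25924221692), (nat_lit 23306397010), (nat_lit 22758001680)], (nat_lit 1271251), (nat_lit 1271251), (nat_lit 169688), (nat_lit 780000), (nat_lit 169688), (nat_lit 2886876), [(nat_lit 1412501), (nat_lit 1271251), (nat_lit 1271251)], [(nat_lit 24), (nat_lit 63), (nat_lit 456), (nat_lit 225), (nat_lit 11)]⟩⟩)))))))))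
noncomputable def c4_8 : Tr Lf :=
 (.spl (nat_lit 5) (nat_lit 200) (.spl (nat_lit 0) (nat_lit 310) (.ord (.leaf ⟨(nat_lit 0), (nat_lit 1000), (nat_lit 0), (nat_lit 0), (nat_lit 1676), (nat_lit 6523), (nat_lit 9559), (nat_lit 0), (nat_lit 3023995865490), (nat_lit 0), (nat_lit 0), [], Pd.none, Pd.none, (nat_lit 0), (nat_lit 1), (nat_lit 0), (nat_lit 0), (nat_lit 3), (nat_lit 0), [], [], [], [],
 ⟨⟨[(nat_lit 60), (nat_lit 100), (nat_lit 120)], [(nat_lit 0), (nat_lit 609), (nat_lit 1609)], [((nat_lit 0), (nat_lit 0), (nat_lit 0)), ((nat_lit 1000), (nat_lit 905), (nat_lit 238)), ((nat_lit 1000), (nat_lit 882), (nat_lit 668))], ((nat_lit 87), (nat_lit 100), (nat_lit 60))⟩, (nat_lit 1280788), (nat_lit 300), (nat_lit 377), (nat_lit 54700002), (nat_lit 480780), [(nat_lit 3282000024), (nat_lit 6250000030), (nat_lit 7968000000)], [], [(nat_lit 35322928767), (nat_lit 35700045962), (nat_lit 41785337017), (nat_lit 41981115826), (nat_lit 32042009402), (nat_lit 32432818932),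 (nat_lit 37784979613), (nat_lit 37957743289)], (nat_lit 1271251), (nat_lit 1271251), (nat_lit 780000), (nat_lit 3072501), (nat_lit 0), (nat_lit 780000), [(nat_lit 780000), (nat_lit 1435001), (nat_lit 1271251)], [(nat_lit 10), (nat_lit 54), (nat_lit 373), (nat_lit 150), (nat_lit 12)]⟩,
 ⟨⟨[(nat_lit 80), (nat_lit 120), (nat_lit 160)], [(nat_lit 0), (nat_lit 0), (nat_lit 2132)], [((nat_lit 0), (nat_lit 0), (nat_lit 0)), ((nat_lit 0), (nat_lit 0), (nat_lit 0)), ((nat_lit 858), (nat_lit 1000), (nat_lit 713))], ((nat_lit 100), (nat_lit 92), (nat_lit 61))⟩, (nat_lit 5213485), (nat_lit 252), (nat_lit 252), (nat_lit 0), (nat_lit 0), [(nat_lit 4688000000), (nat_lit 7968000000), (nat_lit 11872000000)], [], [(nat_lit 21567936504), (nat_lit 27953580617), (nat_lit 42748812548), (nat_lit 47358860190), (nat_lit 15404451197), (nat_lit 21704212493), (nat_lit 31912918638), (nat_lit 35597664950)], (nat_lit 0), (nat_lit 0), (nat_lit 0), (nat_lit 0), (nat_lit 0), (nat_lit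 0), [], [(nat_lit 18), (nat_lit 59), (nat_lit 483), (nat_lit 250), (nat_lit 12)]⟩,
 Rw.none⟩)) (.leaf ⟨(nat_lit 0), (nat_lit 1000), (nat_lit 0), (nat_lit 0), (nat_lit 0), (nat_lit 7131), (nat_lit 9639), (nat_lit 0), (nat_lit 762690584499), (nat_lit 0), (nat_lit 0), [], Pd.none, Pd.none, (nat_lit 0), (nat_lit 1), (nat_lit 0), (nat_lit 0), (nat_lit 3), (nat_lit 0), [], [⟨(nat_lit 0), (nat_lit 100), (nat_lit 80), (nat_lit 68), (nat_lit 21683006)⟩], [], [],
 ⟨⟨[(nat_lit 60), (nat_lit 100), (nat_lit 120)], [(nat_lit 0), (nat_lit 909), (nat_lit 1866)], [((nat_lit 0), (nat_lit 0), (nat_lit 0)), ((nat_lit 1000), (nat_lit 858), (nat_lit 354)), ((nat_lit 1000), (nat_lit 849), (nat_lit 705))], ((nat_lit 84), (nat_lit 100), (nat_lit 60))⟩, (nat_lit 1278336), (nat_lit 300), (nat_lit 415), (nat_lit 54700001), (nat_lit 578056), [(nat_lit 3282000001), (nat_lit 6468121941), (nat_lit 7968000000)], [], [(nat_lit 35152473396), (nat_lit 35568585784), (nat_lit 40829683530),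 (nat_lit 41224535416), (nat_lit 31505409223), (nat_lit 31870193688), (nat_lit 36356963994), (nat_lit 36507684181)], (nat_lit 1271251), (nat_lit 1271251), (nat_lit 780000), (nat_lit 3072501), (nat_lit 0), (nat_lit 780000), [(nat_lit 780000), (nat_lit 1435001), (nat_lit 1271251)], [(nat_lit 10), (nat_lit 54), (nat_lit 373), (nat_lit 150), (nat_lit 12)]⟩,
 ⟨⟨[(nat_lit 80), (nat_lit 120), (nat_lit 160)], [(nat_lit 0), (nat_lit 0), (nat_lit 2132)], [((nat_lit 0), (nat_lit 0), (nat_lit 0)), ((nat_lit 0), (nat_lit 0), (nat_lit 0)), ((nat_lit 858), (nat_lit 1000), (nat_lit 713))], ((nat_lit 100), (nat_lit 92), (nat_lit 61))⟩, (nat_lit 5364549), (nat_lit 252), (nat_lit 252), (nat_lit 0), (nat_lit 0), [(nat_lit 4688000000), (nat_lit 7968000000), (nat_lit 11872000000)], [], [(nat_lit 21271758936), (nat_lit 28804977404), (nat_lit 42949114308), (nat_lit 48241257304), (nat_lit 15224457425), (nat_lit 22555366257), (nat_lit 31991101198), (nat_lit 36218930880)], (nat_lit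 0), (nat_lit 0), (nat_lit 0), (nat_lit 0), (nat_lit 0), (nat_lit 0), [], [(nat_lit 18), (nat_lit 59), (nat_lit 483), (nat_lit 250), (nat_lit 12)]⟩,
 Rw.none⟩)) (.trX (nat_lit 3) (nat_lit 5) (nat_lit 4) (nat_lit 100) (nat_lit 40) (nat_lit 92) (nat_lit 390) (.spl (nat_lit 6) (nat_lit 20) (.spl (nat_lit 5) (nat_lit 320) (.leaf ⟨(nat_lit 0), (nat_lit 903), (nat_lit 0), (nat_lit 97), (nat_lit 0), (nat_lit 7100), (nat_lit 6247), (nat_lit 1326), (nat_lit 2533521224279), (nat_lit 0), (nat_lit 0), [], Pd.none, Pd.none, (nat_lit 0), (nat_lit 1), (nat_lit 0), (nat_lit 0), (nat_lit 5), (nat_lit 0), [⟨(nat_lit 0), (nat_lit 83), (nat_lit 83), (nat_lit 100), (nat_lit 111944831)⟩], [⟨(nat_lit 0), (nat_lit 100), (nat_lit 94), (nat_lit 12), (nat_lit 132917765)⟩], [], [⟨(nat_lit 1), (nat_lit 99), (nat_lit 100), (nat_lit 57), (nat_lit 1584597)⟩],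
 ⟨⟨[(nat_lit 60), (nat_lit 80), (nat_lit 100)], [(nat_lit 0), (nat_lit 304), (nat_lit 825)], [((nat_lit 0), (nat_lit 0), (nat_lit 0)), ((nat_lit 1000), (nat_lit 905), (nat_lit 238)), ((nat_lit 1000), (nat_lit 871), (nat_lit 407))], ((nat_lit 87), (nat_lit 100), (nat_lit 44))⟩, (nat_lit 8418401), (nat_lit 300), (nat_lit 359), (nat_lit 54700001), (nat_lit 576199), [(nat_lit 3282000001), (nat_lit 4691249568), (nat_lit 6250000000)], [], [(nat_lit 27565815966), (nat_lit 28675528417), (nat_lit 38882387400), (nat_lit 40085654100), (nat_lit 24531098330), (nat_lit 25501563436), (nat_lit 36486325405), (nat_lit 33400625467)], (nat_lit 1271251), (nat_lit 1271251), (nat_lit 780000), (nat_lit 2990626), (nat_lit 0), (nat_lit 780000), [(nat_lit 780000), (nat_lit 1100000), (nat_lit 1442501)], [(nat_lit 9), (nat_lit 50), (nat_lit 373), (nat_lit 150), (nat_lit 14)]⟩,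
 ⟨⟨[(nat_lit 80), (nat_lit 120), (nat_lit 140)], [(nat_lit 0), (nat_lit 0), (nat_lit 1164)], [((nat_lit 0), (nat_lit 0), (nat_lit 0)), ((nat_lit 0), (nat_lit 0), (nat_lit 0)), ((nat_lit 941), (nat_lit 1000), (nat_lit 576))], ((nat_lit 100), (nat_lit 99), (nat_lit 44))⟩, (nat_lit 16522), (nat_lit 93), (nat_lit 93), (nat_lit 0), (nat_lit 0), [(nat_lit 4688000000), (nat_lit 7968000000), (nat_lit 9842000000)], [], [(nat_lit 12306065566), (nat_lit 19038977702), (nat_lit 27725380976), (nat_lit 31422274306), (nat_lit 20589815778), (nat_lit 25416673830), (nat_lit 31928116970), (nat_lit 34551670260)], (nat_lit 0), (nat_lit 0), (nat_lit 0), (nat_lit 0), (nat_lit 0), (nat_lit 0), [], [(nat_lit 17), (nat_lit 58), (nat_lit 538), (nat_lit 300), (nat_lit 15)]⟩,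
 ⟨⟨[(nat_lit 140), (nat_lit 160), (nat_lit 180)], [(nat_lit 0), (nat_lit 0), (nat_lit 799)], [((nat_lit 0), (nat_lit 0), (nat_lit 0)), ((nat_lit 0), (nat_lit 0), (nat_lit 0)), ((nat_lit 728), (nat_lit 1000), (nat_lit 454))], ((nat_lit 100), (nat_lit 71), (nat_lit 48))⟩, (nat_lit 115079), (nat_lit 300), (nat_lit 1806), (nat_lit 7197400), (nat_lit 3044374), [(nat_lit 954674000), (nat_lit 1151584000), (nat_lit 1363626000)], [], [(nat_lit 5454035394), (nat_lit 5128586517), (nat_lit 4403731588), (nat_lit 5459914520), (nat_lit 5414238756), (nat_lit 5132435474), (nat_lit 4346357832), (nat_lit 4001710648)], (nat_lit 780000), (nat_lit 1598751), (nat_lit 0), (nat_lit 780000), (nat_lit 1271251), (nat_lit 1271251), [(nat_lit 1977501), (nat_lit 1271251), (nat_lit 1271251)], [(nat_lit 31), (nat_lit 65), (nat_lit 534), (nat_lit 175), (nat_lit 12)]⟩⟩) (.trX (nat_lit 3) (nat_lit 5) (nat_lit 4) (nat_lit 87) (nat_lit 95) (nat_lit 100) (nat_lit 300) (.spl (nat_lit 1)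 (nat_lit 280) (.leaf ⟨(nat_lit 0), (nat_lit 845), (nat_lit 0), (nat_lit 155), (nat_lit 0), (nat_lit 7115), (nat_lit 8830), (nat_lit 1712), (nat_lit 0), (nat_lit 0), (nat_lit 0), [], Pd.none, Pd.none, (nat_lit 0), (nat_lit 1), (nat_lit 0), (nat_lit 0), (nat_lit 8), (nat_lit 0), [], [], [⟨(nat_lit 1), (nat_lit 44), (nat_lit 96), (nat_lit 100), (nat_lit 145697774)⟩], [⟨(nat_lit 1), (nat_lit 60), (nat_lit 100), (nat_lit 83), (nat_lit 522685542)⟩],
 ⟨⟨[(nat_lit 60), (nat_lit 80), (nat_lit 100)], [(nat_lit 0), (nat_lit 304), (nat_lit 825)], [((nat_lit 0), (nat_lit 0), (nat_lit 0)), ((nat_lit 1000), (nat_lit 905), (nat_lit 238)), ((nat_lit 1000), (nat_lit 871), (nat_lit 407))], ((nat_lit 87), (nat_lit 100), (nat_lit 44))⟩, (nat_lit 3882240), (nat_lit 249), (nat_lit 249), (nat_lit 0), (nat_lit 342648), [(nat_lit 3282000004), (nat_lit 4688000004), (nat_lit 6250000000)], [], [(nat_lit 22410951350), (nat_lit 22489570400), (nat_lit 29272540852), (nat_lit 31077881855),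 (nat_lit 15025587964), (nat_lit 16264542795), (nat_lit 27965839010), (nat_lit 24784335631)], (nat_lit 1271251), (nat_lit 1271251), (nat_lit 780000), (nat_lit 2253751), (nat_lit 0), (nat_lit 780000), [(nat_lit 780000), (nat_lit 1100000), (nat_lit 1442501)], [(nat_lit 9), (nat_lit 50), (nat_lit 345), (nat_lit 125), (nat_lit 13)]⟩,
 ⟨⟨[(nat_lit 80), (nat_lit 120), (nat_lit 140)], [(nat_lit 0), (nat_lit 0), (nat_lit 1164)], [((nat_lit 0), (nat_lit 0), (nat_lit 0)), ((nat_lit 0), (nat_lit 0), (nat_lit 0)), ((nat_lit 941), (nat_lit 1000), (nat_lit 576))], ((nat_lit 100), (nat_lit 99), (nat_lit 44))⟩, (nat_lit 0), (nat_lit 116), (nat_lit 116), (nat_lit 0), (nat_lit 0), [(nat_lit 4688000000), (nat_lit 7968000000), (nat_lit 9842000000)], [], [(nat_lit 24487924160), (nat_lit 26896384340), (nat_lit 28565922630), (nat_lit 30071891320), (nat_lit 32299848920), (nat_lit 33962662560), (nat_lit 34598100490), (nat_lit 36067825915)], (nat_lit 0), (nat_lit 0), (nat_lit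 0), (nat_lit 0), (nat_lit 0), (nat_lit 0), [], [(nat_lit 17), (nat_lit 58), (nat_lit 373), (nat_lit 150), (nat_lit 10)]⟩,
 ⟨⟨[(nat_lit 140), (nat_lit 160), (nat_lit 180)], [(nat_lit 0), (nat_lit 0), (nat_lit 799)], [((nat_lit 0), (nat_lit 0), (nat_lit 0)), ((nat_lit 0), (nat_lit 0), (nat_lit 0)), ((nat_lit 728), (nat_lit 1000), (nat_lit 454))], ((nat_lit 100), (nat_lit 71), (nat_lit 48))⟩, (nat_lit 136183), (nat_lit 300), (nat_lit 1157), (nat_lit 11501000), (nat_lit 1758644), [(nat_lit 1525510000), (nat_lit 1840160000), (nat_lit 2178990000)], [], [(nat_lit 9437981996), (nat_lit 8914204867), (nat_lit 8267029352), (nat_lit 7722858218), (nat_lit 9551119216), (nat_lit 9029544664), (nat_lit 8250967040), (nat_lit 7703958953)], (nat_lit 780000), (nat_lit 1598751), (nat_lit 0), (nat_lit 780000), (nat_lit 1271251), (nat_lit 1271251), [(nat_lit 1977501), (nat_lit 1271251), (nat_lit 1271251)], [(nat_lit 31), (nat_lit 65), (nat_lit 428), (nat_lit 200), (nat_lit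 10)]⟩⟩) (.leaf ⟨(nat_lit 0), (nat_lit 844), (nat_lit 0), (nat_lit 156), (nat_lit 0), (nat_lit 8778), (nat_lit 6770), (nat_lit 1732), (nat_lit 2382500422108), (nat_lit 0), (nat_lit 0), [], Pd.none, Pd.none, (nat_lit 0), (nat_lit 1), (nat_lit 0), (nat_lit 0), (nat_lit 8), (nat_lit 0), [⟨(nat_lit 0), (nat_lit 83), (nat_lit 83), (nat_lit 100), (nat_lit 194966791)⟩], [⟨(nat_lit 0), (nat_lit 100), (nat_lit 80), (nat_lit 68), (nat_lit 301098669)⟩], [⟨(nat_lit 1), (nat_lit 63), (nat_lit 88), (nat_lit 100), (nat_lit 587704585)⟩], [],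
 ⟨⟨[(nat_lit 60), (nat_lit 80), (nat_lit 100)], [(nat_lit 0), (nat_lit 304), (nat_lit 825)], [((nat_lit 0), (nat_lit 0), (nat_lit 0)), ((nat_lit 1000), (nat_lit 905), (nat_lit 238)), ((nat_lit 1000), (nat_lit 871), (nat_lit 407))], ((nat_lit 87), (nat_lit 100), (nat_lit 44))⟩, (nat_lit 3039692), (nat_lit 300), (nat_lit 342), (nat_lit 54700001), (nat_lit 575590), [(nat_lit 3282000005), (nat_lit 4942617222), (nat_lit 6250000000)], [], [(nat_lit 23489811393), (nat_lit 24932434856), (nat_lit 32158530592), (nat_lit 34218419106), (nat_lit 19019038707), (nat_lit 20260324618), (nat_lit 25533195557), (nat_lit 25745155517)], (nat_lit 1271251), (nat_lit 1271251), (nat_lit 780000), (nat_lit 2253751), (nat_lit 0), (nat_lit 780000), [(nat_lit 780000), (nat_lit 1100000), (nat_lit 1442501)], [(nat_lit 9), (nat_lit 50), (nat_lit 345), (nat_lit 125), (nat_lit 13)]⟩,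
 ⟨⟨[(nat_lit 60), (nat_lit 100), (nat_lit 120)], [(nat_lit 0), (nat_lit 0), (nat_lit 1164)], [((nat_lit 0), (nat_lit 0), (nat_lit 0)), ((nat_lit 0), (nat_lit 0), (nat_lit 0)), ((nat_lit 1000), (nat_lit 933), (nat_lit 572))], ((nat_lit 92), (nat_lit 100), (nat_lit 44))⟩, (nat_lit 3521899), (nat_lit 122), (nat_lit 122), (nat_lit 0), (nat_lit 0), [(nat_lit 3282000000), (nat_lit 6250000000), (nat_lit 7968000000)], [], [(nat_lit 25065405680), (nat_lit 27385935200), (nat_lit 29036717220), (nat_lit 30564419010), (nat_lit 31566568360), (nat_lit 33234818640), (nat_lit 33762169885), (nat_lit 35126943460)], (nat_lit 0), (nat_lit 0), (nat_lit 0), (nat_lit 0), (nat_lit 0), (nat_lit 0), [], [(nat_lit 10), (nat_lit 54), (nat_lit 289), (nat_lit 75), (nat_lit 8)]⟩,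
 ⟨⟨[(nat_lit 140), (nat_lit 160), (nat_lit 180)], [(nat_lit 0), (nat_lit 0), (nat_lit 799)], [((nat_lit 0), (nat_lit 0), (nat_lit 0)), ((nat_lit 0), (nat_lit 0), (nat_lit 0)), ((nat_lit 728), (nat_lit 1000), (nat_lit 454))], ((nat_lit 100), (nat_lit 71), (nat_lit 48))⟩, (nat_lit 1120452), (nat_lit 300), (nat_lit 1751), (nat_lit 11575200), (nat_lit 3044374), [(nat_lit 1535352000), (nat_lit 1852032000), (nat_lit 2193048000)], [], [(nat_lit 9470147968), (nat_lit 8940653644), (nat_lit 8271411304), (nat_lit 7719912782), (nat_lit 9600009392), (nat_lit 9071109064), (nat_lit 8268634048), (nat_lit 7714184910)], (nat_lit 780000), (nat_lit 1598751), (nat_lit 0), (nat_lit 780000), (nat_lit 1271251), (nat_lit 1271251), [(nat_lit 1977501), (nat_lit 1271251), (nat_lit 1271251)], [(nat_lit 31), (nat_lit 65), (nat_lit 531), (nat_lit 200), (nat_lit 12)]⟩⟩)))) (.spl (nat_lit 1) (nat_lit 280) (.leaf ⟨(nat_lit 0), (nat_lit 811), (nat_lit 0), (nat_lit 189), (nat_lit 12374),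 (nat_lit 7240), (nat_lit 8830), (nat_lit 2251), (nat_lit 0), (nat_lit 0), (nat_lit 0), [], Pd.none, Pd.none, (nat_lit 0), (nat_lit 1), (nat_lit 0), (nat_lit 0), (nat_lit 5), (nat_lit 0), [], [], [⟨(nat_lit 1), (nat_lit 44), (nat_lit 96), (nat_lit 100), (nat_lit 140200421)⟩], [⟨(nat_lit 1), (nat_lit 90), (nat_lit 100), (nat_lit 74), (nat_lit 264957055)⟩],
 ⟨⟨[(nat_lit 60), (nat_lit 100), (nat_lit 120)], [(nat_lit 0), (nat_lit 609), (nat_lit 1609)], [((nat_lit 0), (nat_lit 0), (nat_lit 0)), ((nat_lit 1000), (nat_lit 905), (nat_lit 238)), ((nat_lit 1000), (nat_lit 882), (nat_lit 668))], ((nat_lit 87), (nat_lit 100), (nat_lit 60))⟩, (nat_lit 3458080), (nat_lit 248), (nat_lit 248), (nat_lit 0), (nat_lit 126549), [(nat_lit 3422888373), (nat_lit 6250000040), (nat_lit 7968000000)], [], [(nat_lit 21133643620), (nat_lit 22673257440), (nat_lit 39249155760), (nat_lit 40463828540), (nat_lit 17277628100), (nat_lit 18774275960), (nat_lit 42993009578), (nat_lit 39846464853)],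 (nat_lit 1271251), (nat_lit 1271251), (nat_lit 780000), (nat_lit 2990626), (nat_lit 0), (nat_lit 780000), [(nat_lit 780000), (nat_lit 1435001), (nat_lit 1271251)], [(nat_lit 10), (nat_lit 54), (nat_lit 373), (nat_lit 150), (nat_lit 12)]⟩,
 ⟨⟨[(nat_lit 80), (nat_lit 120), (nat_lit 160)], [(nat_lit 0), (nat_lit 0), (nat_lit 2132)], [((nat_lit 0), (nat_lit 0), (nat_lit 0)), ((nat_lit 0), (nat_lit 0), (nat_lit 0)), ((nat_lit 858), (nat_lit 1000), (nat_lit 713))], ((nat_lit 100), (nat_lit 92), (nat_lit 61))⟩, (nat_lit 3391031), (nat_lit 165), (nat_lit 165), (nat_lit 0), (nat_lit 0), [(nat_lit 4688000000), (nat_lit 7968000000), (nat_lit 11872000000)], [], [(nat_lit 19838814198), (nat_lit 22500724813), (nat_lit 30854379945), (nat_lit 32342727593), (nat_lit 32299848920), (nat_lit 33962662560), (nat_lit 40168605795), (nat_lit 41058368610)], (nat_lit 0), (nat_lit 0), (nat_lit 0), (nat_lit 0), (nat_lit 0), (nat_lit 0), [], [(nat_lit 18), (nat_lit 59), (nat_lit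 538), (nat_lit 300), (nat_lit 13)]⟩,
 ⟨⟨[(nat_lit 140), (nat_lit 180), (nat_lit 200)], [(nat_lit 0), (nat_lit 0), (nat_lit 2835)], [((nat_lit 0), (nat_lit 0), (nat_lit 0)), ((nat_lit 0), (nat_lit 0), (nat_lit 0)), ((nat_lit 363), (nat_lit 1000), (nat_lit 798))], ((nat_lit 0), (nat_lit 0), (nat_lit 0))⟩, (nat_lit 52000), (nat_lit 300), (nat_lit 765), (nat_lit 14760900), (nat_lit 651654), [(nat_lit 1860138000), (nat_lit 2656962000), (nat_lit 3099600000)], [], [(nat_lit 13269179808), (nat_lit 12574252522), (nat_lit 11418525732), (nat_lit 10750552440), (nat_lit 13137355776), (nat_lit 12309287205), (nat_lit 11244518164), (nat_lit 10457913507)], (nat_lit 780000), (nat_lit 1598751), (nat_lit 0), (nat_lit 780000), (nat_lit 1271251), (nat_lit 1271251), [(nat_lit 1977501), (nat_lit 1271251), (nat_lit 1271251)], [(nat_lit 32), (nat_lit 67), (nat_lit 428), (nat_lit 200), (nat_lit 9)]⟩⟩) (.spl (nat_lit 2) (nat_lit 180) (.trX (nat_lit 5) (nat_lit 1) (nat_lit 2)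 (nat_lit 92) (nat_lit 49) (nat_lit 100) (nat_lit 380) (.leaf ⟨(nat_lit 0), (nat_lit 863), (nat_lit 0), (nat_lit 137), (nat_lit 0), (nat_lit 9348), (nat_lit 7048), (nat_lit 1727), (nat_lit 17658), (nat_lit 0), (nat_lit 0), [], Pd.none, Pd.none, (nat_lit 0), (nat_lit 1), (nat_lit 0), (nat_lit 0), (nat_lit 5), (nat_lit 0), [], [⟨(nat_lit 0), (nat_lit 100), (nat_lit 86), (nat_lit 33), (nat_lit 100644883)⟩], [⟨(nat_lit 1), (nat_lit 72), (nat_lit 89), (nat_lit 100), (nat_lit 384107632)⟩], [⟨(nat_lit 1), (nat_lit 93), (nat_lit 100), (nat_lit 71), (nat_lit 77886904)⟩],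
 ⟨⟨[(nat_lit 60), (nat_lit 100), (nat_lit 120)], [(nat_lit 0), (nat_lit 609), (nat_lit 1609)], [((nat_lit 0), (nat_lit 0), (nat_lit 0)), ((nat_lit 1000), (nat_lit 905), (nat_lit 238)), ((nat_lit 1000), (nat_lit 882), (nat_lit 668))], ((nat_lit 87), (nat_lit 100), (nat_lit 60))⟩, (nat_lit 1280788), (nat_lit 300), (nat_lit 319), (nat_lit 54700002), (nat_lit 351617), [(nat_lit 3282000001), (nat_lit 6250000001), (nat_lit 7968000000)], [], [(nat_lit 29448394779), (nat_lit 28916753324), (nat_lit 44771639352), (nat_lit 46158055108), (nat_lit 22064182578), (nat_lit 23201409958), (nat_lit 45048253370), (nat_lit 40985559987)], (nat_lit 1271251), (nat_lit 1271251), (nat_lit 780000), (nat_lit 2990626), (nat_lit 0), (nat_lit 780000), [(nat_lit 780000), (nat_lit 1435001), (nat_lit 1271251)], [(nat_lit 10), (nat_lit 54), (nat_lit 373), (nat_lit 150), (nat_lit 12)]⟩,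
 ⟨⟨[(nat_lit 60), (nat_lit 100), (nat_lit 140)], [(nat_lit 0), (nat_lit 0), (nat_lit 2047)], [((nat_lit 0), (nat_lit 0), (nat_lit 0)), ((nat_lit 0), (nat_lit 0), (nat_lit 0)), ((nat_lit 1000), (nat_lit 993), (nat_lit 781))], ((nat_lit 94), (nat_lit 100), (nat_lit 62))⟩, (nat_lit 0), (nat_lit 96), (nat_lit 96), (nat_lit 0), (nat_lit 0), [(nat_lit 3282000000), (nat_lit 6250000000), (nat_lit 9842000000)], [], [(nat_lit 17743947332), (nat_lit 21076799896), (nat_lit 30620153259), (nat_lit 32314389858), (nat_lit 29892348856), (nat_lit 31754902212), (nat_lit 37440633352), (nat_lit 38452210545)], (nat_lit 0), (nat_lit 0), (nat_lit 0), (nat_lit 0), (nat_lit 0), (nat_lit 0), [], [(nat_lit 11), (nat_lit 55), (nat_lit 428), (nat_lit 200), (nat_lit 12)]⟩,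
 ⟨⟨[(nat_lit 140), (nat_lit 180), (nat_lit 200)], [(nat_lit 0), (nat_lit 0), (nat_lit 2835)], [((nat_lit 0), (nat_lit 0), (nat_lit 0)), ((nat_lit 0), (nat_lit 0), (nat_lit 0)), ((nat_lit 363), (nat_lit 1000), (nat_lit 798))], ((nat_lit 0), (nat_lit 0), (nat_lit 0))⟩, (nat_lit 37693), (nat_lit 300), (nat_lit 1319), (nat_lit 10699702), (nat_lit 1875495), [(nat_lit 1348354000), (nat_lit 1925946000), (nat_lit 2246800000)], [], [(nat_lit 9519373738), (nat_lit 9145171958), (nat_lit 8181994259), (nat_lit 7795617399), (nat_lit 9373607222), (nat_lit 8987159017), (nat_lit 7901143488), (nat_lit 7503589852)], (nat_lit 780000), (nat_lit 1271251), (nat_lit 0), (nat_lit 780000), (nat_lit 1271251), (nat_lit 1271251), [(nat_lit 1977501), (nat_lit 1271251), (nat_lit 1271251)], [(nat_lit 32), (nat_lit 67), (nat_lit 415), (nat_lit 175), (nat_lit 9)]⟩⟩)) (.trZ (nat_lit 0) (nat_lit 2) (nat_lit 4) (nat_lit 100) (nat_lit 87) (nat_lit 41) (nat_lit 10) (.leaf ⟨(nat_lit 0),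 (nat_lit 401), (nat_lit 0), (nat_lit 599), (nat_lit 0), (nat_lit 3711), (nat_lit 6770), (nat_lit 6531), (nat_lit 38600), (nat_lit 0), (nat_lit 0), [], Pd.none, Pd.none, (nat_lit 0), (nat_lit 1), (nat_lit 0), (nat_lit 0), (nat_lit 5), (nat_lit 0), [⟨(nat_lit 0), (nat_lit 97), (nat_lit 93), (nat_lit 100), (nat_lit 81099546)⟩], [⟨(nat_lit 0), (nat_lit 100), (nat_lit 84), (nat_lit 55), (nat_lit 619695281)⟩], [], [],
 ⟨⟨[(nat_lit 60), (nat_lit 100), (nat_lit 120)], [(nat_lit 0), (nat_lit 609), (nat_lit 1609)], [((nat_lit 0), (nat_lit 0), (nat_lit 0)), ((nat_lit 1000), (nat_lit 905), (nat_lit 238)), ((nat_lit 1000), (nat_lit 882), (nat_lit 668))], ((nat_lit 87), (nat_lit 100), (nat_lit 60))⟩, (nat_lit 2903140), (nat_lit 272), (nat_lit 272), (nat_lit 0), (nat_lit 224724), [(nat_lit 3282000002), (nat_lit 6250000002), (nat_lit 7968000000)], [], [(nat_lit 30535526399), (nat_lit 28565094410), (nat_lit 36285287042), (nat_lit 36876008258), (nat_lit 27014251327),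 (nat_lit 27899509896), (nat_lit 38411687049), (nat_lit 36778548545)], (nat_lit 1271251), (nat_lit 1271251), (nat_lit 780000), (nat_lit 2990626), (nat_lit 54688), (nat_lit 780000), [(nat_lit 780000), (nat_lit 1435001), (nat_lit 1271251)], [(nat_lit 10), (nat_lit 54), (nat_lit 373), (nat_lit 150), (nat_lit 12)]⟩,
 ⟨⟨[(nat_lit 60), (nat_lit 100), (nat_lit 140)], [(nat_lit 0), (nat_lit 0), (nat_lit 2047)], [((nat_lit 0), (nat_lit 0), (nat_lit 0)), ((nat_lit 0), (nat_lit 0), (nat_lit 0)), ((nat_lit 1000), (nat_lit 993), (nat_lit 781))], ((nat_lit 94), (nat_lit 100), (nat_lit 62))⟩, (nat_lit 3615712), (nat_lit 143), (nat_lit 143), (nat_lit 0), (nat_lit 0), [(nat_lit 3282000000), (nat_lit 6250000000), (nat_lit 9842000000)], [], [(nat_lit 18680918856), (nat_lit 21316656986), (nat_lit 30718180785), (nat_lit 32232096448), (nat_lit 31566568360), (nat_lit 33234818640), (nat_lit 38157184090), (nat_lit 39057338575)], (nat_lit 0), (nat_lit 0), (nat_lit 0), (nat_lit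 0), (nat_lit 0), (nat_lit 0), [], [(nat_lit 11), (nat_lit 55), (nat_lit 428), (nat_lit 200), (nat_lit 12)]⟩,
 ⟨⟨[(nat_lit 120), (nat_lit 160), (nat_lit 180)], [(nat_lit 0), (nat_lit 533), (nat_lit 2066)], [((nat_lit 0), (nat_lit 0), (nat_lit 0)), ((nat_lit 960), (nat_lit 1000), (nat_lit 200)), ((nat_lit 615), (nat_lit 1000), (nat_lit 729))], ((nat_lit 100), (nat_lit 74), (nat_lit 60))⟩, (nat_lit 1402537), (nat_lit 300), (nat_lit 625), (nat_lit 39773600), (nat_lit 590956), [(nat_lit 4772832000), (nat_lit 7111328000), (nat_lit 8420742000)], [], [(nat_lit 31719162291), (nat_lit 31346896920), (nat_lit 27292977298), (nat_lit 26909006358), (nat_lit 32655497383), (nat_lit 32217977360), (nat_lit 27996394723), (nat_lit 27387735817)], (nat_lit 1271251), (nat_lit 1271251), (nat_lit 54688), (nat_lit 780000), (nat_lit 1271251), (nat_lit 1271251), [(nat_lit 1695001), (nat_lit 1271251), (nat_lit 1271251)], [(nat_lit 28), (nat_lit 65), (nat_lit 428), (nat_lit 200),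 (nat_lit 10)]⟩⟩)))))))
noncomputable def c4_9 : Tr Lf :=
 (.spl (nat_lit 5) (nat_lit 200) (.spl (nat_lit 1) (nat_lit 280) (.spl (nat_lit 5) (nat_lit 120) (.leaf ⟨(nat_lit 0), (nat_lit 1000), (nat_lit 0), (nat_lit 0), (nat_lit 7772), (nat_lit 6449), (nat_lit 7381), (nat_lit 0), (nat_lit 0), (nat_lit 0), (nat_lit 0), [], Pd.none, Pd.none, (nat_lit 0), (nat_lit 1), (nat_lit 0), (nat_lit 0), (nat_lit 3), (nat_lit 0), [], [⟨(nat_lit 0), (nat_lit 100), (nat_lit 80), (nat_lit 68), (nat_lit 35446816)⟩], [], [],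
 ⟨⟨[(nat_lit 60), (nat_lit 100), (nat_lit 120)], [(nat_lit 0), (nat_lit 609), (nat_lit 1609)], [((nat_lit 0), (nat_lit 0), (nat_lit 0)), ((nat_lit 1000), (nat_lit 905), (nat_lit 238)), ((nat_lit 1000), (nat_lit 882), (nat_lit 668))], ((nat_lit 87), (nat_lit 100), (nat_lit 60))⟩, (nat_lit 3826109), (nat_lit 211), (nat_lit 211), (nat_lit 0), (nat_lit 168892), [(nat_lit 3396283775), (nat_lit 6250000033), (nat_lit 7968000000)], [], [(nat_lit 19751183008), (nat_lit 21616369183), (nat_lit 21434397482), (nat_lit 23211956318), (nat_lit 15939028255), (nat_lit 17654277991), (nat_lit 17678404393), (nat_lit 19249798450)], (nat_lit 1271251), (nat_lit 1271251), (nat_lit 780000), (nat_lit 1435001), (nat_lit 0), (nat_lit 780000), [(nat_lit 780000), (nat_lit 1435001), (nat_lit 1271251)], [(nat_lit 10), (nat_lit 54), (nat_lit 317), (nat_lit 100), (nat_lit 10)]⟩,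
 ⟨⟨[(nat_lit 80), (nat_lit 120), (nat_lit 160)], [(nat_lit 0), (nat_lit 0), (nat_lit 2132)], [((nat_lit 0), (nat_lit 0), (nat_lit 0)), ((nat_lit 0), (nat_lit 0), (nat_lit 0)), ((nat_lit 858), (nat_lit 1000), (nat_lit 713))], ((nat_lit 100), (nat_lit 92), (nat_lit 61))⟩, (nat_lit 2833565), (nat_lit 518), (nat_lit 518), (nat_lit 0), (nat_lit 480029), [(nat_lit 4688000000), (nat_lit 7968000000), (nat_lit 11872000000)], [], [(nat_lit 36606552050), (nat_lit 37860482407), (nat_lit 36960130170), (nat_lit 37773090680), (nat_lit 34145459309), (nat_lit 34002942926), (nat_lit 42279682932), (nat_lit 35548923199)], (nat_lit 1271251), (nat_lit 1271251), (nat_lit 780000), (nat_lit 1435001), (nat_lit 0), (nat_lit 780000), [(nat_lit 1100000), (nat_lit 1785001), (nat_lit 1271251)], [(nat_lit 18), (nat_lit 59), (nat_lit 373), (nat_lit 150), (nat_lit 10)]⟩,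
 Rw.none⟩) (.leaf ⟨(nat_lit 0), (nat_lit 899), (nat_lit 0), (nat_lit 101), (nat_lit 4036), (nat_lit 6441), (nat_lit 7492), (nat_lit 1491), (nat_lit 0), (nat_lit 0), (nat_lit 0), [], Pd.none, Pd.none, (nat_lit 0), (nat_lit 1), (nat_lit 0), (nat_lit 0), (nat_lit 3), (nat_lit 0), [], [⟨(nat_lit 0), (nat_lit 100), (nat_lit 80), (nat_lit 68), (nat_lit 108993284)⟩], [], [],
 ⟨⟨[(nat_lit 60), (nat_lit 100), (nat_lit 120)], [(nat_lit 0), (nat_lit 609), (nat_lit 1609)], [((nat_lit 0), (nat_lit 0), (nat_lit 0)), ((nat_lit 1000), (nat_lit 905), (nat_lit 238)), ((nat_lit 1000), (nat_lit 882), (nat_lit 668))], ((nat_lit 87), (nat_lit 100), (nat_lit 60))⟩, (nat_lit 3843560), (nat_lit 211), (nat_lit 211), (nat_lit 0), (nat_lit 168892), [(nat_lit 3406825308), (nat_lit 6250000017), (nat_lit 7968000000)], [], [(nat_lit 19721927861), (nat_lit 21585712105), (nat_lit 21424212447), (nat_lit 23200443571), (nat_lit 15953403635), (nat_lit 17649861428), (nat_lit 17693053677),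 (nat_lit 19245889959)], (nat_lit 1271251), (nat_lit 1271251), (nat_lit 780000), (nat_lit 1435001), (nat_lit 0), (nat_lit 780000), [(nat_lit 780000), (nat_lit 1435001), (nat_lit 1271251)], [(nat_lit 10), (nat_lit 54), (nat_lit 317), (nat_lit 100), (nat_lit 10)]⟩,
 ⟨⟨[(nat_lit 80), (nat_lit 120), (nat_lit 160)], [(nat_lit 0), (nat_lit 0), (nat_lit 2132)], [((nat_lit 0), (nat_lit 0), (nat_lit 0)), ((nat_lit 0), (nat_lit 0), (nat_lit 0)), ((nat_lit 858), (nat_lit 1000), (nat_lit 713))], ((nat_lit 100), (nat_lit 92), (nat_lit 61))⟩, (nat_lit 3315036), (nat_lit 435), (nat_lit 435), (nat_lit 0), (nat_lit 593465), [(nat_lit 4688000000), (nat_lit 7968000000), (nat_lit 11872000000)], [], [(nat_lit 26318019892), (nat_lit 27943590414), (nat_lit 28634255724), (nat_lit 28078457410), (nat_lit 28634255724), (nat_lit 28078457410), (nat_lit 36462323524), (nat_lit 29446361458)], (nat_lit 1271251), (nat_lit 1271251), (nat_lit 780000), (nat_lit 1435001), (nat_lit 780000),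 (nat_lit 1435001), [(nat_lit 1100000), (nat_lit 1785001), (nat_lit 1271251)], [(nat_lit 18), (nat_lit 59), (nat_lit 401), (nat_lit 175), (nat_lit 10)]⟩,
 ⟨⟨[(nat_lit 140), (nat_lit 180), (nat_lit 200)], [(nat_lit 0), (nat_lit 0), (nat_lit 2835)], [((nat_lit 0), (nat_lit 0), (nat_lit 0)), ((nat_lit 0), (nat_lit 0), (nat_lit 0)), ((nat_lit 363), (nat_lit 1000), (nat_lit 798))], ((nat_lit 0), (nat_lit 0), (nat_lit 0))⟩, (nat_lit 27788), (nat_lit 300), (nat_lit 758), (nat_lit 7888106), (nat_lit 536061), [(nat_lit 994042000), (nat_lit 1419858000), (nat_lit 1656400000)], [], [(nat_lit 7605207556), (nat_lit 6747365336), (nat_lit 5945651687), (nat_lit 5480265969), (nat_lit 6785005424), (nat_lit 6286977615), (nat_lit 5518809413), (nat_lit 6793223775)], (nat_lit 780000), (nat_lit 1598751), (nat_lit 0), (nat_lit 780000), (nat_lit 780000), (nat_lit 1435001), [(nat_lit 1977501), (nat_lit 1271251), (nat_lit 1271251)], [(nat_lit 32), (nat_lit 67), (nat_lit 373),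 (nat_lit 150), (nat_lit 8)]⟩⟩)) (.spl (nat_lit 0) (nat_lit 310) (.ord (.leaf ⟨(nat_lit 0), (nat_lit 991), (nat_lit 0), (nat_lit 9), (nat_lit 0), (nat_lit 6462), (nat_lit 9201), (nat_lit 133), (nat_lit 194390), (nat_lit 0), (nat_lit 0), [], Pd.none, Pd.none, (nat_lit 0), (nat_lit 1), (nat_lit 0), (nat_lit 0), (nat_lit 3), (nat_lit 0), [], [], [], [],
 ⟨⟨[(nat_lit 60), (nat_lit 100), (nat_lit 120)], [(nat_lit 0), (nat_lit 609), (nat_lit 1609)], [((nat_lit 0), (nat_lit 0), (nat_lit 0)), ((nat_lit 1000), (nat_lit 905), (nat_lit 238)), ((nat_lit 1000), (nat_lit 882), (nat_lit 668))], ((nat_lit 87), (nat_lit 100), (nat_lit 60))⟩, (nat_lit 6333009), (nat_lit 250), (nat_lit 250), (nat_lit 0), (nat_lit 218884), [(nat_lit 3282000082), (nat_lit 6250000026), (nat_lit 7968000000)], [], [(nat_lit 18891977048), (nat_lit 20211419484), (nat_lit 20946333984), (nat_lit 22087840958), (nat_lit 15598835083), (nat_lit 16217441619), (nat_lit 20436387422), (nat_lit 18943645228)],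 (nat_lit 1271251), (nat_lit 1271251), (nat_lit 780000), (nat_lit 1435001), (nat_lit 0), (nat_lit 780000), [(nat_lit 780000), (nat_lit 1435001), (nat_lit 1271251)], [(nat_lit 10), (nat_lit 54), (nat_lit 317), (nat_lit 100), (nat_lit 10)]⟩,
 ⟨⟨[(nat_lit 60), (nat_lit 100), (nat_lit 140)], [(nat_lit 0), (nat_lit 0), (nat_lit 2047)], [((nat_lit 0), (nat_lit 0), (nat_lit 0)), ((nat_lit 0), (nat_lit 0), (nat_lit 0)), ((nat_lit 1000), (nat_lit 993), (nat_lit 781))], ((nat_lit 94), (nat_lit 100), (nat_lit 62))⟩, (nat_lit 227154), (nat_lit 488), (nat_lit 488), (nat_lit 0), (nat_lit 600820), [(nat_lit 3282000000), (nat_lit 6250000000), (nat_lit 9842000000)], [], [(nat_lit 30502031214), (nat_lit 32296343411), (nat_lit 30802401298), (nat_lit 32967007237), (nat_lit 25559617155), (nat_lit 26874706284), (nat_lit 35382608186), (nat_lit 29171108546)], (nat_lit 1271251), (nat_lit 1271251), (nat_lit 780000), (nat_lit 1435001), (nat_lit 0), (nat_lit 1412501), [(nat_lit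 780000), (nat_lit 1435001), (nat_lit 1271251)], [(nat_lit 11), (nat_lit 55), (nat_lit 317), (nat_lit 100), (nat_lit 9)]⟩,
 ⟨⟨[(nat_lit 140), (nat_lit 180), (nat_lit 200)], [(nat_lit 0), (nat_lit 0), (nat_lit 2835)], [((nat_lit 0), (nat_lit 0), (nat_lit 0)), ((nat_lit 0), (nat_lit 0), (nat_lit 0)), ((nat_lit 363), (nat_lit 1000), (nat_lit 798))], ((nat_lit 0), (nat_lit 0), (nat_lit 0))⟩, (nat_lit 2476), (nat_lit 300), (nat_lit 926), (nat_lit 702903), (nat_lit 673800), [(nat_lit 88578000), (nat_lit 126522000), (nat_lit 147600000)], [], [(nat_lit 952960606), (nat_lit 770940729), (nat_lit 677960077), (nat_lit 601097829), (nat_lit 604458720), (nat_lit 560229863), (nat_lit 491498003), (nat_lit 592729736)], (nat_lit 780000), (nat_lit 1598751), (nat_lit 0), (nat_lit 780000), (nat_lit 0), (nat_lit 1412501), [(nat_lit 1977501), (nat_lit 1271251), (nat_lit 1271251)], [(nat_lit 32), (nat_lit 67), (nat_lit 373), (nat_lit 150), (nat_lit 9)]⟩⟩)) (.leaf ⟨(nat_lit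 0), (nat_lit 970), (nat_lit 0), (nat_lit 30), (nat_lit 0), (nat_lit 6122), (nat_lit 7268), (nat_lit 443), (nat_lit 188596), (nat_lit 0), (nat_lit 0), [], Pd.none, Pd.none, (nat_lit 0), (nat_lit 1), (nat_lit 0), (nat_lit 0), (nat_lit 3), (nat_lit 0), [], [⟨(nat_lit 0), (nat_lit 100), (nat_lit 80), (nat_lit 68), (nat_lit 104128495)⟩], [], [],
 ⟨⟨[(nat_lit 60), (nat_lit 100), (nat_lit 120)], [(nat_lit 0), (nat_lit 909), (nat_lit 1866)], [((nat_lit 0), (nat_lit 0), (nat_lit 0)), ((nat_lit 1000), (nat_lit 858), (nat_lit 354)), ((nat_lit 1000), (nat_lit 849), (nat_lit 705))], ((nat_lit 84), (nat_lit 100), (nat_lit 60))⟩, (nat_lit 5635691), (nat_lit 271), (nat_lit 271), (nat_lit 0), (nat_lit 260956), [(nat_lit 3282000018), (nat_lit 6250341889), (nat_lit 7968000000)], [], [(nat_lit 19758537104), (nat_lit 21031687520), (nat_lit 21656879398), (nat_lit 22759744692), (nat_lit 15366293251), (nat_lit 16171331746), (nat_lit 17240955569), (nat_lit 17936972226)],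 (nat_lit 1271251), (nat_lit 1271251), (nat_lit 780000), (nat_lit 1435001), (nat_lit 0), (nat_lit 780000), [(nat_lit 780000), (nat_lit 1435001), (nat_lit 1271251)], [(nat_lit 10), (nat_lit 54), (nat_lit 317), (nat_lit 100), (nat_lit 10)]⟩,
 ⟨⟨[(nat_lit 60), (nat_lit 100), (nat_lit 140)], [(nat_lit 0), (nat_lit 0), (nat_lit 2047)], [((nat_lit 0), (nat_lit 0), (nat_lit 0)), ((nat_lit 0), (nat_lit 0), (nat_lit 0)), ((nat_lit 1000), (nat_lit 993), (nat_lit 781))], ((nat_lit 94), (nat_lit 100), (nat_lit 62))⟩, (nat_lit 2702521), (nat_lit 565), (nat_lit 565), (nat_lit 0), (nat_lit 726255), [(nat_lit 3282000000), (nat_lit 6250000000), (nat_lit 9842000000)], [], [(nat_lit 31925179545), (nat_lit 33517693545), (nat_lit 32170344513), (nat_lit 33637223112), (nat_lit 28985461718), (nat_lit 30207049780), (nat_lit 37389863414), (nat_lit 30847794888)], (nat_lit 1271251), (nat_lit 1271251), (nat_lit 780000), (nat_lit 1435001), (nat_lit 0), (nat_lit 1412501), [(nat_lit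 780000), (nat_lit 1435001), (nat_lit 1271251)], [(nat_lit 11), (nat_lit 55), (nat_lit 317), (nat_lit 100), (nat_lit 9)]⟩,
 ⟨⟨[(nat_lit 140), (nat_lit 180), (nat_lit 200)], [(nat_lit 0), (nat_lit 0), (nat_lit 2835)], [((nat_lit 0), (nat_lit 0), (nat_lit 0)), ((nat_lit 0), (nat_lit 0), (nat_lit 0)), ((nat_lit 363), (nat_lit 1000), (nat_lit 798))], ((nat_lit 0), (nat_lit 0), (nat_lit 0))⟩, (nat_lit 8422), (nat_lit 300), (nat_lit 1002), (nat_lit 2343000), (nat_lit 830405), [(nat_lit 295260000), (nat_lit 421740000), (nat_lit 492000000)], [], [(nat_lit 3175177193), (nat_lit 2568926903), (nat_lit 2259220469), (nat_lit 2004023828), (nat_lit 2015210388), (nat_lit 1867421304), (nat_lit 1638990577), (nat_lit 1975379849)], (nat_lit 780000), (nat_lit 1598751), (nat_lit 0), (nat_lit 780000), (nat_lit 0), (nat_lit 1412501), [(nat_lit 1977501), (nat_lit 1271251), (nat_lit 1271251)], [(nat_lit 32), (nat_lit 67), (nat_lit 373), (nat_lit 150), (nat_lit 9)]⟩⟩))) (.spl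 (nat_lit 1) (nat_lit 280) (.spl (nat_lit 1) (nat_lit 260) (.spl (nat_lit 6) (nat_lit 28) (.leaf ⟨(nat_lit 626), (nat_lit 199), (nat_lit 0), (nat_lit 175), (nat_lit 0), (nat_lit 4810), (nat_lit 3471), (nat_lit 2657), (nat_lit 0), (nat_lit 0), (nat_lit 1181000), [((nat_lit 320), [((nat_lit 15), (nat_lit 2), (nat_lit 441)), ((nat_lit 35), (nat_lit 5), (nat_lit 185))])], ⟨(nat_lit 6), false, false, false, (nat_lit 194), (nat_lit 4472), (nat_lit 5000), [(nat_lit 1399984), (nat_lit 1407160), (nat_lit 1421400), (nat_lit 1428715), (nat_lit 1542832), (nat_lit 1543108), (nat_lit 1564248), (nat_lit 1564662)]⟩, ⟨(nat_lit 3), false, false, false, (nat_lit 90), (nat_lit 4472), (nat_lit 5000), [(nat_lit 1057141), (nat_lit 1073842), (nat_lit 1164284), (nat_lit 1181674), (nat_lit 1271427), (nat_lit 1277776), (nat_lit 1378566), (nat_lit 1385605)]⟩, (nat_lit 3653368), (nat_lit 50552958), (nat_lit 12624188), (nat_lit 3822854), (nat_lit 5), (nat_lit 0), [], [⟨(nat_lit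 0), (nat_lit 100), (nat_lit 94), (nat_lit 12), (nat_lit 286545246)⟩], [], [⟨(nat_lit 1), (nat_lit 88), (nat_lit 100), (nat_lit 32), (nat_lit 13748919)⟩],
 ⟨⟨[(nat_lit 60), (nat_lit 100), (nat_lit 120)], [(nat_lit 0), (nat_lit 609), (nat_lit 1609)], [((nat_lit 0), (nat_lit 0), (nat_lit 0)), ((nat_lit 1000), (nat_lit 905), (nat_lit 238)), ((nat_lit 1000), (nat_lit 882), (nat_lit 668))], ((nat_lit 87), (nat_lit 100), (nat_lit 51))⟩, (nat_lit 10553), (nat_lit 195), (nat_lit 195), (nat_lit 0), (nat_lit 126700), [(nat_lit 2681850208), (nat_lit 1714655508), (nat_lit 0)], [(nat_lit 0), (nat_lit 0), (nat_lit 209141200)], [(nat_lit 17550989939), (nat_lit 19105461600), (nat_lit 19479030294), (nat_lit 20947628660), (nat_lit 15975728087), (nat_lit 17355124619), (nat_lit 17771220307), (nat_lit 18974026179)], (nat_lit 1271251), (nat_lit 1271251), (nat_lit 780000), (nat_lit 1435001), (nat_lit 0), (nat_lit 780000), [(nat_lit 780000), (nat_lit 1435001), (nat_lit 1271251)],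 [(nat_lit 10), (nat_lit 54), (nat_lit 317), (nat_lit 100), (nat_lit 10)]⟩,
 ⟨⟨[(nat_lit 80), (nat_lit 120), (nat_lit 140)], [(nat_lit 0), (nat_lit 0), (nat_lit 1164)], [((nat_lit 0), (nat_lit 0), (nat_lit 0)), ((nat_lit 0), (nat_lit 0), (nat_lit 0)), ((nat_lit 941), (nat_lit 1000), (nat_lit 576))], ((nat_lit 100), (nat_lit 96), (nat_lit 52))⟩, (nat_lit 923117), (nat_lit 336), (nat_lit 336), (nat_lit 0), (nat_lit 490699), [(nat_lit 1753312000), (nat_lit 2980032000), (nat_lit 3680908000)], [], [(nat_lit 8517366441), (nat_lit 8917271622), (nat_lit 10906027031), (nat_lit 9280799834), (nat_lit 12299556080), (nat_lit 12510469914), (nat_lit 11932023026), (nat_lit 12222043175)], (nat_lit 1271251), (nat_lit 1271251), (nat_lit 780000), (nat_lit 1435001), (nat_lit 1271251), (nat_lit 1271251), [(nat_lit 1100000), (nat_lit 1785001), (nat_lit 1271251)], [(nat_lit 17), (nat_lit 58), (nat_lit 456), (nat_lit 225), (nat_lit 13)]⟩,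
 ⟨⟨[(nat_lit 140), (nat_lit 180), (nat_lit 200)], [(nat_lit 0), (nat_lit 0), (nat_lit 2835)], [((nat_lit 0), (nat_lit 0), (nat_lit 0)), ((nat_lit 0), (nat_lit 0), (nat_lit 0)), ((nat_lit 363), (nat_lit 1000), (nat_lit 798))], ((nat_lit 0), (nat_lit 0), (nat_lit 0))⟩, (nat_lit 50419), (nat_lit 300), (nat_lit 656), (nat_lit 13667500), (nat_lit 396251), [(nat_lit 1722350000), (nat_lit 2460150000), (nat_lit 2870000000)], [], [(nat_lit 11678047552), (nat_lit 10894945204), (nat_lit 9414405143), (nat_lit 10007296007), (nat_lit 12291272663), (nat_lit 11576313390), (nat_lit 9760052438), (nat_lit 8875707140)], (nat_lit 780000), (nat_lit 1598751), (nat_lit 0), (nat_lit 780000), (nat_lit 1271251), (nat_lit 1271251), [(nat_lit 1977501), (nat_lit 1271251), (nat_lit 1271251)], [(nat_lit 32), (nat_lit 67), (nat_lit 428), (nat_lit 200), (nat_lit 9)]⟩⟩) (.dle (nat_lit 0))) (.leaf ⟨(nat_lit 129), (nat_lit 587), (nat_lit 0), (nat_lit 284), (nat_lit 0), (nat_lit 5719),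 (nat_lit 6442), (nat_lit 4305), (nat_lit 0), (nat_lit 0), (nat_lit 516000), [((nat_lit 320), [((nat_lit 35), (nat_lit 5), (nat_lit 129))])], ⟨(nat_lit 6), false, false, false, (nat_lit 202), (nat_lit 4472), (nat_lit 5000), [(nat_lit 1421400), (nat_lit 1428715), (nat_lit 1442816), (nat_lit 1450269), (nat_lit 1564248), (nat_lit 1564662), (nat_lit 1585664), (nat_lit 1586216)]⟩, ⟨(nat_lit 3), false, false, false, (nat_lit 90), (nat_lit 4472), (nat_lit 5000), [(nat_lit 1057141), (nat_lit 1073842), (nat_lit 1164284), (nat_lit 1181674), (nat_lit 1271427), (nat_lit 1277776), (nat_lit 1378566), (nat_lit 1385605)]⟩, (nat_lit 3738503), (nat_lit 49723908), (nat_lit 13469664), (nat_lit 3806428), (nat_lit 5), (nat_lit 0), [], [⟨(nat_lit 0), (nat_lit 100), (nat_lit 94), (nat_lit 12), (nat_lit 137389769)⟩], [], [⟨(nat_lit 1), (nat_lit 88), (nat_lit 100), (nat_lit 32), (nat_lit 272688068)⟩],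
 ⟨⟨[(nat_lit 60), (nat_lit 100), (nat_lit 120)], [(nat_lit 0), (nat_lit 609), (nat_lit 1609)], [((nat_lit 0), (nat_lit 0), (nat_lit 0)), ((nat_lit 1000), (nat_lit 905), (nat_lit 238)), ((nat_lit 1000), (nat_lit 882), (nat_lit 668))], ((nat_lit 87), (nat_lit 100), (nat_lit 60))⟩, (nat_lit 2655088), (nat_lit 210), (nat_lit 210), (nat_lit 0), (nat_lit 168775), [(nat_lit 3379788070), (nat_lit 4522483619), (nat_lit 4974254981)], [(nat_lit 0), (nat_lit 0), (nat_lit 0)], [(nat_lit 18534256248), (nat_lit 20448688179), (nat_lit 20460423757), (nat_lit 22203126734), (nat_lit 16227781808), (nat_lit 17743272229), (nat_lit 17992151686), (nat_lit 19305703073)], (nat_lit 1271251), (nat_lit 1271251), (nat_lit 780000), (nat_lit 1435001), (nat_lit 0), (nat_lit 780000), [(nat_lit 780000), (nat_lit 1435001), (nat_lit 1271251)], [(nat_lit 10), (nat_lit 54), (nat_lit 317), (nat_lit 100), (nat_lit 10)]⟩,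
 ⟨⟨[(nat_lit 80), (nat_lit 120), (nat_lit 140)], [(nat_lit 0), (nat_lit 528), (nat_lit 1572)], [((nat_lit 0), (nat_lit 0), (nat_lit 0)), ((nat_lit 1000), (nat_lit 959), (nat_lit 206)), ((nat_lit 966), (nat_lit 1000), (nat_lit 679))], ((nat_lit 100), (nat_lit 99), (nat_lit 63))⟩, (nat_lit 3756830), (nat_lit 365), (nat_lit 365), (nat_lit 0), (nat_lit 570690), [(nat_lit 4083248000), (nat_lit 6940128000), (nat_lit 8572382000)], [], [(nat_lit 21027606632), (nat_lit 21653833738), (nat_lit 21995244940), (nat_lit 21813351752), (nat_lit 27406919682), (nat_lit 27878221732), (nat_lit 26914534518), (nat_lit 27592486786)], (nat_lit 1271251), (nat_lit 1271251), (nat_lit 780000), (nat_lit 1435001), (nat_lit 1271251), (nat_lit 1271251), [(nat_lit 1100000), (nat_lit 1785001), (nat_lit 1271251)], [(nat_lit 17), (nat_lit 58), (nat_lit 456), (nat_lit 225), (nat_lit 12)]⟩,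
 ⟨⟨[(nat_lit 140), (nat_lit 180), (nat_lit 200)], [(nat_lit 0), (nat_lit 0), (nat_lit 2835)], [((nat_lit 0), (nat_lit 0), (nat_lit 0)), ((nat_lit 0), (nat_lit 0), (nat_lit 0)), ((nat_lit 363), (nat_lit 1000), (nat_lit 798))], ((nat_lit 0), (nat_lit 0), (nat_lit 0))⟩, (nat_lit 78138), (nat_lit 300), (nat_lit 716), (nat_lit 22180400), (nat_lit 536061), [(nat_lit 2795128000), (nat_lit 3992472000), (nat_lit 4657600000)], [], [(nat_lit 18959163812), (nat_lit 17680782211), (nat_lit 15292164731), (nat_lit 16236302811), (nat_lit 19944215828), (nat_lit 18786641575), (nat_lit 15843828498), (nat_lit 14411706882)], (nat_lit 780000), (nat_lit 1598751), (nat_lit 0), (nat_lit 780000), (nat_lit 1271251), (nat_lit 1271251), [(nat_lit 1977501), (nat_lit 1271251), (nat_lit 1271251)], [(nat_lit 32), (nat_lit 67), (nat_lit 428), (nat_lit 200), (nat_lit 9)]⟩⟩)) (.spl (nat_lit 0) (nat_lit 310) (.ord (.leaf ⟨(nat_lit 0), (nat_lit 672), (nat_lit 0), (nat_lit 328), (nat_lit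 0), (nat_lit 5881), (nat_lit 7475), (nat_lit 5009), (nat_lit 105413), (nat_lit 0), (nat_lit 0), [], Pd.none, Pd.none, (nat_lit 0), (nat_lit 1), (nat_lit 0), (nat_lit 0), (nat_lit 5), (nat_lit 0), [], [⟨(nat_lit 0), (nat_lit 100), (nat_lit 94), (nat_lit 12), (nat_lit 56469271)⟩], [], [⟨(nat_lit 1), (nat_lit 88), (nat_lit 100), (nat_lit 32), (nat_lit 391512160)⟩],
 ⟨⟨[(nat_lit 60), (nat_lit 100), (nat_lit 120)], [(nat_lit 0), (nat_lit 609), (nat_lit 1609)], [((nat_lit 0), (nat_lit 0), (nat_lit 0)), ((nat_lit 1000), (nat_lit 905), (nat_lit 238)), ((nat_lit 1000), (nat_lit 882), (nat_lit 668))], ((nat_lit 87), (nat_lit 100), (nat_lit 60))⟩, (nat_lit 6745039), (nat_lit 250), (nat_lit 250), (nat_lit 0), (nat_lit 218884), [(nat_lit 3282000019), (nat_lit 6250000006), (nat_lit 7968000000)], [], [(nat_lit 18769957173), (nat_lit 19438394747), (nat_lit 20275928542), (nat_lit 21351403704), (nat_lit 16610623685), (nat_lit 17199542428), (nat_lit 21216390867), (nat_lit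 19857861489)], (nat_lit 1271251), (nat_lit 1271251), (nat_lit 780000), (nat_lit 1435001), (nat_lit 0), (nat_lit 780000), [(nat_lit 780000), (nat_lit 1435001), (nat_lit 1271251)], [(nat_lit 10), (nat_lit 54), (nat_lit 317), (nat_lit 100), (nat_lit 10)]⟩,
 ⟨⟨[(nat_lit 60), (nat_lit 100), (nat_lit 140)], [(nat_lit 0), (nat_lit 0), (nat_lit 2047)], [((nat_lit 0), (nat_lit 0), (nat_lit 0)), ((nat_lit 0), (nat_lit 0), (nat_lit 0)), ((nat_lit 1000), (nat_lit 993), (nat_lit 781))], ((nat_lit 94), (nat_lit 100), (nat_lit 62))⟩, (nat_lit 2967402), (nat_lit 365), (nat_lit 365), (nat_lit 0), (nat_lit 600820), [(nat_lit 3282000000), (nat_lit 6250000000), (nat_lit 9842000000)], [], [(nat_lit 24736713044), (nat_lit 26117557566), (nat_lit 25260336163), (nat_lit 26532626104), (nat_lit 32988709875), (nat_lit 33747914344), (nat_lit 32437066300), (nat_lit 33180557869)], (nat_lit 1271251), (nat_lit 1271251), (nat_lit 780000), (nat_lit 1435001), (nat_lit 1271251), (nat_lit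 1271251), [(nat_lit 780000), (nat_lit 1435001), (nat_lit 1271251)], [(nat_lit 11), (nat_lit 55), (nat_lit 373), (nat_lit 150), (nat_lit 10)]⟩,
 ⟨⟨[(nat_lit 140), (nat_lit 180), (nat_lit 200)], [(nat_lit 0), (nat_lit 0), (nat_lit 2835)], [((nat_lit 0), (nat_lit 0), (nat_lit 0)), ((nat_lit 0), (nat_lit 0), (nat_lit 0)), ((nat_lit 363), (nat_lit 1000), (nat_lit 798))], ((nat_lit 0), (nat_lit 0), (nat_lit 0))⟩, (nat_lit 110518), (nat_lit 300), (nat_lit 775), (nat_lit 25616800), (nat_lit 673800), [(nat_lit 3228176000), (nat_lit 4611024000), (nat_lit 5379200000)], [], [(nat_lit 21857176468), (nat_lit 20420899349), (nat_lit 17586957803), (nat_lit 18773736875), (nat_lit 23048204804), (nat_lit 21695904315), (nat_lit 18273624482), (nat_lit 16603361116)], (nat_lit 780000), (nat_lit 1598751), (nat_lit 0), (nat_lit 780000), (nat_lit 1271251), (nat_lit 1271251), [(nat_lit 1977501), (nat_lit 1271251), (nat_lit 1271251)], [(nat_lit 32), (nat_lit 67), (nat_lit 428),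 (nat_lit 200), (nat_lit 9)]⟩⟩)) (.leaf ⟨(nat_lit 189), (nat_lit 533), (nat_lit 0), (nat_lit 278), (nat_lit 0), (nat_lit 4999), (nat_lit 6002), (nat_lit 4182), (nat_lit 212987), (nat_lit 0), (nat_lit 204000), [((nat_lit 320), [((nat_lit 15), (nat_lit 2), (nat_lit 184)), ((nat_lit 35), (nat_lit 5), (nat_lit 5))])], ⟨(nat_lit 7), false, false, false, (nat_lit 216), (nat_lit 4472), (nat_lit 4744), [(nat_lit 1446540), (nat_lit 1450297), (nat_lit 1489510), (nat_lit 1493423), (nat_lit 1585939), (nat_lit 1586252), (nat_lit 1628908), (nat_lit 1629378)]⟩, ⟨(nat_lit 3), false, false, false, (nat_lit 91), (nat_lit 4472), (nat_lit 4744), [(nat_lit 1065547), (nat_lit 1073842), (nat_lit 1172987), (nat_lit 1181674), (nat_lit 1274646), (nat_lit 1277776), (nat_lit 1382085), (nat_lit 1385607)]⟩, (nat_lit 3875568), (nat_lit 48366706), (nat_lit 14783792), (nat_lit 3849502), (nat_lit 5), (nat_lit 0), [⟨(nat_lit 0), (nat_lit 95), (nat_lit 90), (nat_lit 100), (nat_lit 305472895)⟩],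 [⟨(nat_lit 0), (nat_lit 100), (nat_lit 91), (nat_lit 19), (nat_lit 88732944)⟩], [], [⟨(nat_lit 1), (nat_lit 88), (nat_lit 100), (nat_lit 32), (nat_lit 274470893)⟩],
 ⟨⟨[(nat_lit 60), (nat_lit 100), (nat_lit 120)], [(nat_lit 0), (nat_lit 909), (nat_lit 1866)], [((nat_lit 0), (nat_lit 0), (nat_lit 0)), ((nat_lit 1000), (nat_lit 858), (nat_lit 354)), ((nat_lit 1000), (nat_lit 849), (nat_lit 705))], ((nat_lit 84), (nat_lit 100), (nat_lit 60))⟩, (nat_lit 4606343), (nat_lit 271), (nat_lit 271), (nat_lit 0), (nat_lit 260956), [(nat_lit 3003334439), (nat_lit 5168704028), (nat_lit 6255879200)], [(nat_lit 0), (nat_lit 0), (nat_lit 0)], [(nat_lit 18677506521), (nat_lit 19384130939), (nat_lit 20634495522), (nat_lit 21342061783), (nat_lit 17340712664), (nat_lit 18058401131), (nat_lit 19407424842), (nat_lit 19853419291)], (nat_lit 1271251), (nat_lit 1271251), (nat_lit 780000), (nat_lit 1435001), (nat_lit 0), (nat_lit 780000), [(nat_lit 780000), (nat_lit 1435001),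 (nat_lit 1271251)], [(nat_lit 10), (nat_lit 54), (nat_lit 317), (nat_lit 100), (nat_lit 10)]⟩,
 ⟨⟨[(nat_lit 60), (nat_lit 100), (nat_lit 140)], [(nat_lit 0), (nat_lit 0), (nat_lit 2047)], [((nat_lit 0), (nat_lit 0), (nat_lit 0)), ((nat_lit 0), (nat_lit 0), (nat_lit 0)), ((nat_lit 1000), (nat_lit 993), (nat_lit 781))], ((nat_lit 94), (nat_lit 100), (nat_lit 62))⟩, (nat_lit 2325447), (nat_lit 436), (nat_lit 436), (nat_lit 0), (nat_lit 726255), [(nat_lit 2661702000), (nat_lit 5068750000), (nat_lit 7981862000)], [], [(nat_lit 20394529175), (nat_lit 21747474955), (nat_lit 20667061567), (nat_lit 22037011758), (nat_lit 26898254526), (nat_lit 27719207234), (nat_lit 26466667219), (nat_lit 27220836568)], (nat_lit 1271251), (nat_lit 1271251), (nat_lit 780000), (nat_lit 1435001), (nat_lit 1271251), (nat_lit 1271251), [(nat_lit 780000), (nat_lit 1435001), (nat_lit 1271251)], [(nat_lit 11), (nat_lit 55), (nat_lit 373), (nat_lit 150), (nat_lit 10)]⟩,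
 ⟨⟨[(nat_lit 140), (nat_lit 180), (nat_lit 200)], [(nat_lit 0), (nat_lit 0), (nat_lit 2835)], [((nat_lit 0), (nat_lit 0), (nat_lit 0)), ((nat_lit 0), (nat_lit 0), (nat_lit 0)), ((nat_lit 363), (nat_lit 1000), (nat_lit 798))], ((nat_lit 0), (nat_lit 0), (nat_lit 0))⟩, (nat_lit 76487), (nat_lit 300), (nat_lit 857), (nat_lit 21711800), (nat_lit 830405), [(nat_lit 2736076000), (nat_lit 3908124000), (nat_lit 4559200000)], [], [(nat_lit 18592653296), (nat_lit 17306516623), (nat_lit 15033500330), (nat_lit 15874283306), (nat_lit 19510706960), (nat_lit 18341155645), (nat_lit 15530635764), (nat_lit 14142847138)], (nat_lit 780000), (nat_lit 1598751), (nat_lit 0), (nat_lit 780000), (nat_lit 1271251), (nat_lit 1271251), [(nat_lit 1977501), (nat_lit 1271251), (nat_lit 1271251)], [(nat_lit 32), (nat_lit 67), (nat_lit 428), (nat_lit 200), (nat_lit 9)]⟩⟩))))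
noncomputable def c4_10 : Tr Lf :=
 (.trX (nat_lit 5) (nat_lit 3) (nat_lit 4) (nat_lit 100) (nat_lit 40) (nat_lit 92) (nat_lit 390) (.spl (nat_lit 5) (nat_lit 200) (.spl (nat_lit 0) (nat_lit 310) (.ord (.leaf ⟨(nat_lit 0), (nat_lit 1000), (nat_lit 0), (nat_lit 0), (nat_lit 0), (nat_lit 7285), (nat_lit 9687), (nat_lit 0), (nat_lit 585181), (nat_lit 0), (nat_lit 0), [], Pd.none, Pd.none, (nat_lit 0), (nat_lit 1), (nat_lit 0), (nat_lit 0), (nat_lit 3), (nat_lit 0), [], [⟨(nat_lit 0), (nat_lit 100), (nat_lit 84), (nat_lit 63), (nat_lit 28906801)⟩], [], [],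
 ⟨⟨[(nat_lit 60), (nat_lit 100), (nat_lit 120)], [(nat_lit 0), (nat_lit 609), (nat_lit 1609)], [((nat_lit 0), (nat_lit 0), (nat_lit 0)), ((nat_lit 1000), (nat_lit 905), (nat_lit 238)), ((nat_lit 1000), (nat_lit 882), (nat_lit 668))], ((nat_lit 87), (nat_lit 100), (nat_lit 60))⟩, (nat_lit 3422423), (nat_lit 245), (nat_lit 245), (nat_lit 0), (nat_lit 218946), [(nat_lit 3485504487), (nat_lit 6250000086), (nat_lit 7968000000)], [], [(nat_lit 22397271328), (nat_lit 23131021440), (nat_lit 27736198753), (nat_lit 28719337542), (nat_lit 18532318342), (nat_lit 19178340175), (nat_lit 21706983340), (nat_lit 22278013025)], (nat_lit 1271251), (nat_lit 1271251), (nat_lit 1271251), (nat_lit 1271251), (nat_lit 0), (nat_lit 780000), [(nat_lit 780000), (nat_lit 1435001), (nat_lit 1271251)], [(nat_lit 10), (nat_lit 54), (nat_lit 317), (nat_lit 100), (nat_lit 10)]⟩,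
 ⟨⟨[(nat_lit 80), (nat_lit 120), (nat_lit 160)], [(nat_lit 0), (nat_lit 0), (nat_lit 2132)], [((nat_lit 0), (nat_lit 0), (nat_lit 0)), ((nat_lit 0), (nat_lit 0), (nat_lit 0)), ((nat_lit 858), (nat_lit 1000), (nat_lit 713))], ((nat_lit 100), (nat_lit 92), (nat_lit 61))⟩, (nat_lit 3216232), (nat_lit 564), (nat_lit 564), (nat_lit 0), (nat_lit 670418), [(nat_lit 4688000000), (nat_lit 7968000000), (nat_lit 11872000000)], [], [(nat_lit 33971359060), (nat_lit 33626559894), (nat_lit 32828079044), (nat_lit 35485806282), (nat_lit 28808980964), (nat_lit 27156289662), (nat_lit 26448777834), (nat_lit 28282625934)], (nat_lit 1271251), (nat_lit 1271251), (nat_lit 1271251), (nat_lit 1271251), (nat_lit 0), (nat_lit 1412501), [(nat_lit 1100000), (nat_lit 1785001), (nat_lit 1271251)], [(nat_lit 18), (nat_lit 59), (nat_lit 428), (nat_lit 200), (nat_lit 11)]⟩,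
 Rw.none⟩)) (.leaf ⟨(nat_lit 0), (nat_lit 1000), (nat_lit 0), (nat_lit 0), (nat_lit 0), (nat_lit 6122), (nat_lit 10542), (nat_lit 0), (nat_lit 111797876110), (nat_lit 0), (nat_lit 0), [], Pd.none, Pd.none, (nat_lit 0), (nat_lit 1), (nat_lit 0), (nat_lit 0), (nat_lit 3), (nat_lit 0), [], [⟨(nat_lit 0), (nat_lit 100), (nat_lit 80), (nat_lit 68), (nat_lit 80314656)⟩], [⟨(nat_lit 0), (nat_lit 100), (nat_lit 80), (nat_lit 68), (nat_lit 40930244)⟩], [],
 ⟨⟨[(nat_lit 60), (nat_lit 100), (nat_lit 120)], [(nat_lit 0), (nat_lit 909), (nat_lit 1866)], [((nat_lit 0), (nat_lit 0), (nat_lit 0)), ((nat_lit 1000), (nat_lit 858), (nat_lit 354)), ((nat_lit 1000), (nat_lit 849), (nat_lit 705))], ((nat_lit 84), (nat_lit 100), (nat_lit 60))⟩, (nat_lit 5082650), (nat_lit 263), (nat_lit 263), (nat_lit 0), (nat_lit 261014), [(nat_lit 3282000161), (nat_lit 6320988823), (nat_lit 7968000000)], [], [(nat_lit 21656879398), (nat_lit 22759744692), (nat_lit 26780916305), (nat_lit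 27665902836), (nat_lit 17240955998), (nat_lit 17936972655), (nat_lit 21704024987), (nat_lit 22506906086)], (nat_lit 1271251), (nat_lit 1271251), (nat_lit 1271251), (nat_lit 1271251), (nat_lit 0), (nat_lit 780000), [(nat_lit 780000), (nat_lit 1435001), (nat_lit 1271251)], [(nat_lit 10), (nat_lit 54), (nat_lit 317), (nat_lit 100), (nat_lit 10)]⟩,
 ⟨⟨[(nat_lit 80), (nat_lit 120), (nat_lit 160)], [(nat_lit 0), (nat_lit 0), (nat_lit 2132)], [((nat_lit 0), (nat_lit 0), (nat_lit 0)), ((nat_lit 0), (nat_lit 0), (nat_lit 0)), ((nat_lit 858), (nat_lit 1000), (nat_lit 713))], ((nat_lit 100), (nat_lit 92), (nat_lit 61))⟩, (nat_lit 3874434), (nat_lit 648), (nat_lit 648), (nat_lit 0), (nat_lit 805998), [(nat_lit 4688000000), (nat_lit 7968000000), (nat_lit 11872000000)], [], [(nat_lit 34376953960), (nat_lit 33033459864), (nat_lit 31948257940), (nat_lit 35405932796), (nat_lit 27718490024), (nat_lit 25473478640), (nat_lit 24559802378), (nat_lit 25951525178)], (nat_lit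 1271251), (nat_lit 1271251), (nat_lit 1271251), (nat_lit 1271251), (nat_lit 0), (nat_lit 1412501), [(nat_lit 1100000), (nat_lit 1785001), (nat_lit 1271251)], [(nat_lit 18), (nat_lit 59), (nat_lit 428), (nat_lit 200), (nat_lit 11)]⟩,
 Rw.none⟩)) (.spl (nat_lit 1) (nat_lit 280) (.leaf ⟨(nat_lit 0), (nat_lit 698), (nat_lit 0), (nat_lit 302), (nat_lit 0), (nat_lit 5374), (nat_lit 9155), (nat_lit 4733), (nat_lit 0), (nat_lit 0), (nat_lit 0), [], Pd.none, Pd.none, (nat_lit 0), (nat_lit 1), (nat_lit 0), (nat_lit 0), (nat_lit 5), (nat_lit 0), [], [⟨(nat_lit 0), (nat_lit 100), (nat_lit 84), (nat_lit 42), (nat_lit 28094042)⟩], [], [⟨(nat_lit 1), (nat_lit 90), (nat_lit 100), (nat_lit 65), (nat_lit 291360787)⟩],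
 ⟨⟨[(nat_lit 60), (nat_lit 100), (nat_lit 120)], [(nat_lit 0), (nat_lit 609), (nat_lit 1609)], [((nat_lit 0), (nat_lit 0), (nat_lit 0)), ((nat_lit 1000), (nat_lit 905), (nat_lit 238)), ((nat_lit 1000), (nat_lit 882), (nat_lit 668))], ((nat_lit 87), (nat_lit 100), (nat_lit 60))⟩, (nat_lit 7309698), (nat_lit 211), (nat_lit 211), (nat_lit 0), (nat_lit 168892), [(nat_lit 3282000012), (nat_lit 6250000018), (nat_lit 7968000000)], [], [(nat_lit 20494577379), (nat_lit 21726915744), (nat_lit 24712334591), (nat_lit 26356051612), (nat_lit 18672361225), (nat_lit 19799748034), (nat_lit 21935686898), (nat_lit 23011371006)], (nat_lit 1271251), (nat_lit 1271251), (nat_lit 1271251), (nat_lit 1271251), (nat_lit 0), (nat_lit 780000), [(nat_lit 780000), (nat_lit 1435001), (nat_lit 1271251)], [(nat_lit 10), (nat_lit 54), (nat_lit 317), (nat_lit 100), (nat_lit 10)]⟩,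
 ⟨⟨[(nat_lit 80), (nat_lit 120), (nat_lit 160)], [(nat_lit 0), (nat_lit 0), (nat_lit 2132)], [((nat_lit 0), (nat_lit 0), (nat_lit 0)), ((nat_lit 0), (nat_lit 0), (nat_lit 0)), ((nat_lit 858), (nat_lit 1000), (nat_lit 713))], ((nat_lit 100), (nat_lit 92), (nat_lit 61))⟩, (nat_lit 3515208), (nat_lit 383), (nat_lit 383), (nat_lit 0), (nat_lit 593465), [(nat_lit 4688000000), (nat_lit 7968000000), (nat_lit 11872000000)], [], [(nat_lit 23012706079), (nat_lit 24565503665), (nat_lit 25333551435), (nat_lit 26947687368), (nat_lit 31492897190), (nat_lit 32475421835), (nat_lit 33001172708), (nat_lit 34711638092)], (nat_lit 1271251), (nat_lit 1271251), (nat_lit 1271251), (nat_lit 1271251), (nat_lit 1271251), (nat_lit 1271251), [(nat_lit 1100000), (nat_lit 1785001), (nat_lit 1271251)], [(nat_lit 18), (nat_lit 59), (nat_lit 483), (nat_lit 250), (nat_lit 12)]⟩,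
 ⟨⟨[(nat_lit 140), (nat_lit 180), (nat_lit 200)], [(nat_lit 0), (nat_lit 0), (nat_lit 2835)], [((nat_lit 0), (nat_lit 0), (nat_lit 0)), ((nat_lit 0), (nat_lit 0), (nat_lit 0)), ((nat_lit 363), (nat_lit 1000), (nat_lit 798))], ((nat_lit 0), (nat_lit 0), (nat_lit 0))⟩, (nat_lit 243778), (nat_lit 300), (nat_lit 716), (nat_lit 23586200), (nat_lit 536061), [(nat_lit 2972284000), (nat_lit 4245516000), (nat_lit 4952800000)], [], [(nat_lit 19996526148), (nat_lit 18804919042), (nat_lit 15949585575), (nat_lit 17357336894), (nat_lit 21127029989), (nat_lit 19452578882), (nat_lit 16620230975), (nat_lit 15058669386)], (nat_lit 780000), (nat_lit 1598751), (nat_lit 0), (nat_lit 780000), (nat_lit 1271251), (nat_lit 1271251), [(nat_lit 1977501), (nat_lit 1271251), (nat_lit 1271251)], [(nat_lit 32), (nat_lit 67), (nat_lit 428), (nat_lit 200), (nat_lit 9)]⟩⟩) (.leaf ⟨(nat_lit 0), (nat_lit 754), (nat_lit 0), (nat_lit 246), (nat_lit 0), (nat_lit 5362), (nat_lit 7496),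 (nat_lit 3855), (nat_lit 246634113675), (nat_lit 0), (nat_lit 0), [], Pd.none, Pd.none, (nat_lit 0), (nat_lit 1), (nat_lit 0), (nat_lit 0), (nat_lit 5), (nat_lit 0), [], [], [], [⟨(nat_lit 1), (nat_lit 90), (nat_lit 100), (nat_lit 65), (nat_lit 302065820)⟩],
 ⟨⟨[(nat_lit 60), (nat_lit 100), (nat_lit 120)], [(nat_lit 0), (nat_lit 609), (nat_lit 1609)], [((nat_lit 0), (nat_lit 0), (nat_lit 0)), ((nat_lit 1000), (nat_lit 905), (nat_lit 238)), ((nat_lit 1000), (nat_lit 882), (nat_lit 668))], ((nat_lit 87), (nat_lit 100), (nat_lit 60))⟩, (nat_lit 7374132), (nat_lit 263), (nat_lit 263), (nat_lit 0), (nat_lit 262608), [(nat_lit 3282000004), (nat_lit 6250000009), (nat_lit 7968000000)], [], [(nat_lit 20439464431), (nat_lit 21710043332), (nat_lit 24693346433), (nat_lit 26335037956), (nat_lit 18664487193), (nat_lit 19799712424), (nat_lit 21963702587), (nat_lit 23038255122)], (nat_lit 1271251), (nat_lit 1271251), (nat_lit 1271251), (nat_lit 1271251), (nat_lit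 0), (nat_lit 780000), [(nat_lit 780000), (nat_lit 1435001), (nat_lit 1271251)], [(nat_lit 10), (nat_lit 54), (nat_lit 317), (nat_lit 100), (nat_lit 10)]⟩,
 ⟨⟨[(nat_lit 60), (nat_lit 100), (nat_lit 140)], [(nat_lit 0), (nat_lit 0), (nat_lit 2047)], [((nat_lit 0), (nat_lit 0), (nat_lit 0)), ((nat_lit 0), (nat_lit 0), (nat_lit 0)), ((nat_lit 1000), (nat_lit 993), (nat_lit 781))], ((nat_lit 94), (nat_lit 100), (nat_lit 62))⟩, (nat_lit 2648679), (nat_lit 381), (nat_lit 381), (nat_lit 0), (nat_lit 727273), [(nat_lit 3282000000), (nat_lit 6250000000), (nat_lit 9842000000)], [], [(nat_lit 25523083171), (nat_lit 26895663360), (nat_lit 27317258628), (nat_lit 28691722776), (nat_lit 31920018434), (nat_lit 32814877510), (nat_lit 33015649442), (nat_lit 34606668070)], (nat_lit 1271251), (nat_lit 1271251), (nat_lit 1271251), (nat_lit 1271251), (nat_lit 1271251), (nat_lit 1271251), [(nat_lit 780000), (nat_lit 1435001), (nat_lit 1271251)], [(nat_lit 11), (nat_lit 55),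 (nat_lit 401), (nat_lit 175), (nat_lit 11)]⟩,
 ⟨⟨[(nat_lit 140), (nat_lit 180), (nat_lit 200)], [(nat_lit 0), (nat_lit 0), (nat_lit 2835)], [((nat_lit 0), (nat_lit 0), (nat_lit 0)), ((nat_lit 0), (nat_lit 0), (nat_lit 0)), ((nat_lit 363), (nat_lit 1000), (nat_lit 798))], ((nat_lit 0), (nat_lit 0), (nat_lit 0))⟩, (nat_lit 69707), (nat_lit 300), (nat_lit 857), (nat_lit 19212600), (nat_lit 830405), [(nat_lit 2421132000), (nat_lit 3458268000), (nat_lit 4034400000)], [], [(nat_lit 16288544388), (nat_lit 15317906064), (nat_lit 12992765229), (nat_lit 14138545870), (nat_lit 17209304672), (nat_lit 16210290775), (nat_lit 13538578386), (nat_lit 12266732999)], (nat_lit 780000), (nat_lit 1598751), (nat_lit 0), (nat_lit 780000), (nat_lit 1271251), (nat_lit 1271251), [(nat_lit 1977501), (nat_lit 1271251), (nat_lit 1271251)], [(nat_lit 32), (nat_lit 67), (nat_lit 428), (nat_lit 200), (nat_lit 9)]⟩⟩))))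
noncomputable def c4_11 : Tr Lf :=
 (.trX (nat_lit 5) (nat_lit 3) (nat_lit 4) (nat_lit 100) (nat_lit 80) (nat_lit 100) (nat_lit 340) (.spl (nat_lit 1) (nat_lit 280) (.leaf ⟨(nat_lit 0), (nat_lit 961), (nat_lit 0), (nat_lit 39), (nat_lit 2059), (nat_lit 5739), (nat_lit 8383), (nat_lit 401), (nat_lit 0), (nat_lit 0), (nat_lit 0), [], Pd.none, Pd.none, (nat_lit 0), (nat_lit 1), (nat_lit 0), (nat_lit 0), (nat_lit 3), (nat_lit 0), [], [], [], [⟨(nat_lit 1), (nat_lit 100), (nat_lit 71), (nat_lit 71), (nat_lit 162881252)⟩],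
 ⟨⟨[(nat_lit 60), (nat_lit 100), (nat_lit 120)], [(nat_lit 0), (nat_lit 609), (nat_lit 1609)], [((nat_lit 0), (nat_lit 0), (nat_lit 0)), ((nat_lit 1000), (nat_lit 905), (nat_lit 238)), ((nat_lit 1000), (nat_lit 882), (nat_lit 668))], ((nat_lit 87), (nat_lit 100), (nat_lit 60))⟩, (nat_lit 6222541), (nat_lit 265), (nat_lit 265), (nat_lit 0), (nat_lit 168892), [(nat_lit 3282000002), (nat_lit 6250000001), (nat_lit 7968000000)], [], [(nat_lit 25289891064), (nat_lit 26995216982), (nat_lit 36293666055), (nat_lit 37330086904), (nat_lit 21514478911), (nat_lit 22397216335), (nat_lit 30718698944), (nat_lit 31689574768)], (nat_lit 1271251), (nat_lit 1271251), (nat_lit 1271251), (nat_lit 1271251), (nat_lit 0), (nat_lit 780000), [(nat_lit 780000), (nat_lit 1435001), (nat_lit 1271251)], [(nat_lit 10), (nat_lit 54), (nat_lit 238), (nat_lit 30), (nat_lit 7)]⟩,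
 ⟨⟨[(nat_lit 80), (nat_lit 120), (nat_lit 160)], [(nat_lit 0), (nat_lit 0), (nat_lit 2132)], [((nat_lit 0), (nat_lit 0), (nat_lit 0)), ((nat_lit 0), (nat_lit 0), (nat_lit 0)), ((nat_lit 858), (nat_lit 1000), (nat_lit 713))], ((nat_lit 100), (nat_lit 92), (nat_lit 61))⟩, (nat_lit 2792792), (nat_lit 523), (nat_lit 523), (nat_lit 0), (nat_lit 593465), [(nat_lit 4688000000), (nat_lit 7968000000), (nat_lit 11872000000)], [], [(nat_lit 36290391268), (nat_lit 37345628635), (nat_lit 41455709124), (nat_lit 42267553516), (nat_lit 33255156165), (nat_lit 33842617459), (nat_lit 36308404457), (nat_lit 37514426376)], (nat_lit 1271251), (nat_lit 1271251), (nat_lit 1271251), (nat_lit 1271251), (nat_lit 0), (nat_lit 2401251), [(nat_lit 1100000), (nat_lit 1785001), (nat_lit 1271251)], [(nat_lit 18), (nat_lit 59), (nat_lit 538), (nat_lit 300), (nat_lit 13)]⟩,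
 ⟨⟨[(nat_lit 140), (nat_lit 180), (nat_lit 200)], [(nat_lit 0), (nat_lit 0), (nat_lit 2835)], [((nat_lit 0), (nat_lit 0), (nat_lit 0)), ((nat_lit 0), (nat_lit 0), (nat_lit 0)), ((nat_lit 363), (nat_lit 1000), (nat_lit 798))], ((nat_lit 0), (nat_lit 0), (nat_lit 0))⟩, (nat_lit 10730), (nat_lit 300), (nat_lit 872), (nat_lit 3045903), (nat_lit 536061), [(nat_lit 383838000), (nat_lit 548262000), (nat_lit 639600000)], [], [(nat_lit 3416679265), (nat_lit 3270465855), (nat_lit 3092995462), (nat_lit 2958278333), (nat_lit 2873197020), (nat_lit 2731071454), (nat_lit 2581327190), (nat_lit 2829104527)], (nat_lit 780000), (nat_lit 1598751), (nat_lit 0), (nat_lit 780000), (nat_lit 0), (nat_lit 2401251), [(nat_lit 1977501), (nat_lit 1271251), (nat_lit 1271251)], [(nat_lit 32), (nat_lit 67), (nat_lit 401), (nat_lit 175), (nat_lit 9)]⟩⟩) (.leaf ⟨(nat_lit 0), (nat_lit 939), (nat_lit 0), (nat_lit 61), (nat_lit 0), (nat_lit 5973), (nat_lit 6963), (nat_lit 669), (nat_lit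 204816503184), (nat_lit 0), (nat_lit 0), [], Pd.none, Pd.none, (nat_lit 0), (nat_lit 1), (nat_lit 0), (nat_lit 0), (nat_lit 3), (nat_lit 0), [], [], [], [⟨(nat_lit 1), (nat_lit 100), (nat_lit 71), (nat_lit 71), (nat_lit 155123944)⟩],
 ⟨⟨[(nat_lit 60), (nat_lit 100), (nat_lit 120)], [(nat_lit 0), (nat_lit 609), (nat_lit 1609)], [((nat_lit 0), (nat_lit 0), (nat_lit 0)), ((nat_lit 1000), (nat_lit 905), (nat_lit 238)), ((nat_lit 1000), (nat_lit 882), (nat_lit 668))], ((nat_lit 87), (nat_lit 100), (nat_lit 60))⟩, (nat_lit 6479872), (nat_lit 294), (nat_lit 294), (nat_lit 0), (nat_lit 262608), [(nat_lit 3282000001), (nat_lit 6265592268), (nat_lit 7968000000)], [], [(nat_lit 25660160145), (nat_lit 27404983274), (nat_lit 36931139385), (nat_lit 37984757128), (nat_lit 21468909978), (nat_lit 22422234899), (nat_lit 31053498305), (nat_lit 32040132976)], (nat_lit 1271251), (nat_lit 1271251), (nat_lit 1271251), (nat_lit 1271251), (nat_lit 0), (nat_lit 780000), [(nat_lit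 780000), (nat_lit 1435001), (nat_lit 1271251)], [(nat_lit 10), (nat_lit 54), (nat_lit 238), (nat_lit 30), (nat_lit 7)]⟩,
 ⟨⟨[(nat_lit 60), (nat_lit 100), (nat_lit 140)], [(nat_lit 0), (nat_lit 0), (nat_lit 2047)], [((nat_lit 0), (nat_lit 0), (nat_lit 0)), ((nat_lit 0), (nat_lit 0), (nat_lit 0)), ((nat_lit 1000), (nat_lit 993), (nat_lit 781))], ((nat_lit 94), (nat_lit 100), (nat_lit 62))⟩, (nat_lit 2169212), (nat_lit 507), (nat_lit 507), (nat_lit 0), (nat_lit 727273), [(nat_lit 3282000000), (nat_lit 6250000000), (nat_lit 9842000000)], [], [(nat_lit 35787283833), (nat_lit 36874264114), (nat_lit 39900951580), (nat_lit 40754515768), (nat_lit 34207925679), (nat_lit 34845796362), (nat_lit 36846922979), (nat_lit 37191654793)], (nat_lit 1271251), (nat_lit 1271251), (nat_lit 1271251), (nat_lit 1271251), (nat_lit 0), (nat_lit 2401251), [(nat_lit 780000), (nat_lit 1435001), (nat_lit 1271251)], [(nat_lit 11), (nat_lit 55), (nat_lit 317), (nat_lit 100), (nat_lit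 9)]⟩,
 ⟨⟨[(nat_lit 140), (nat_lit 180), (nat_lit 200)], [(nat_lit 0), (nat_lit 0), (nat_lit 2835)], [((nat_lit 0), (nat_lit 0), (nat_lit 0)), ((nat_lit 0), (nat_lit 0), (nat_lit 0)), ((nat_lit 363), (nat_lit 1000), (nat_lit 798))], ((nat_lit 0), (nat_lit 0), (nat_lit 0))⟩, (nat_lit 48522), (nat_lit 300), (nat_lit 1002), (nat_lit 4764100), (nat_lit 830405), [(nat_lit 600362000), (nat_lit 857538000), (nat_lit 1000400000)], [], [(nat_lit 5513951494), (nat_lit 5045962078), (nat_lit 4785943752), (nat_lit 4545482391), (nat_lit 4366111435), (nat_lit 4118819306), (nat_lit 3895513117), (nat_lit 4505644183)], (nat_lit 780000), (nat_lit 1598751), (nat_lit 0), (nat_lit 780000), (nat_lit 0), (nat_lit 2401251), [(nat_lit 1977501), (nat_lit 1271251), (nat_lit 1271251)], [(nat_lit 32), (nat_lit 67), (nat_lit 401), (nat_lit 175), (nat_lit 9)]⟩⟩)))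
noncomputable def c4_12 : Tr Lf :=
 (.spl (nat_lit 5) (nat_lit 120) (.spl (nat_lit 0) (nat_lit 310) (.ord (.leaf ⟨(nat_lit 0), (nat_lit 880), (nat_lit 0), (nat_lit 120), (nat_lit 5), (nat_lit 8114), (nat_lit 9171), (nat_lit 2031), (nat_lit 2817), (nat_lit 6936), (nat_lit 0), [], Pd.none, Pd.none, (nat_lit 0), (nat_lit 1), (nat_lit 0), (nat_lit 0), (nat_lit 5), (nat_lit 0), [], [⟨(nat_lit 0), (nat_lit 100), (nat_lit 90), (nat_lit 82), (nat_lit 258685773)⟩], [⟨(nat_lit 0), (nat_lit 100), (nat_lit 98), (nat_lit 69), (nat_lit 334006589)⟩], [],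
 ⟨⟨[(nat_lit 60), (nat_lit 100), (nat_lit 120)], [(nat_lit 0), (nat_lit 609), (nat_lit 1609)], [((nat_lit 0), (nat_lit 0), (nat_lit 0)), ((nat_lit 1000), (nat_lit 905), (nat_lit 238)), ((nat_lit 1000), (nat_lit 882), (nat_lit 668))], ((nat_lit 87), (nat_lit 100), (nat_lit 60))⟩, (nat_lit 1280788), (nat_lit 300), (nat_lit 377), (nat_lit 54700002), (nat_lit 544180), [(nat_lit 3282000001), (nat_lit 6250000001), (nat_lit 7968000000)], [], [(nat_lit 30584320263), (nat_lit 31059641558), (nat_lit 39927626298), (nat_lit 40529508057), (nat_lit 27634660643), (nat_lit 28061613588), (nat_lit 36173615993), (nat_lit 34682180075)], (nat_lit 1271251), (nat_lit 1271251), (nat_lit 780000), (nat_lit 3072501), (nat_lit 169688), (nat_lit 780000), [(nat_lit 780000), (nat_lit 1435001), (nat_lit 1271251)], [(nat_lit 10), (nat_lit 54), (nat_lit 373), (nat_lit 150), (nat_lit 12)]⟩,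
 ⟨⟨[(nat_lit 80), (nat_lit 120), (nat_lit 160)], [(nat_lit 0), (nat_lit 0), (nat_lit 2132)], [((nat_lit 0), (nat_lit 0), (nat_lit 0)), ((nat_lit 0), (nat_lit 0), (nat_lit 0)), ((nat_lit 858), (nat_lit 1000), (nat_lit 713))], ((nat_lit 100), (nat_lit 92), (nat_lit 61))⟩, (nat_lit 5678200), (nat_lit 252), (nat_lit 252), (nat_lit 0), (nat_lit 0), [(nat_lit 4688000000), (nat_lit 7968000000), (nat_lit 11872000000)], [], [(nat_lit 20451593356), (nat_lit 27480604094), (nat_lit 41777349012), (nat_lit 46287595876), (nat_lit 13816130999), (nat_lit 20828147760), (nat_lit 32257470804), (nat_lit 36230092362)], (nat_lit 0), (nat_lit 0), (nat_lit 0), (nat_lit 0), (nat_lit 0), (nat_lit 0), [], [(nat_lit 18), (nat_lit 59), (nat_lit 456), (nat_lit 225), (nat_lit 12)]⟩,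
 ⟨⟨[(nat_lit 100), (nat_lit 140), (nat_lit 160)], [(nat_lit 0), (nat_lit 508), (nat_lit 1689)], [((nat_lit 0), (nat_lit 0), (nat_lit 0)), ((nat_lit 1000), (nat_lit 1000), (nat_lit 198)), ((nat_lit 811), (nat_lit 1000), (nat_lit 671))], ((nat_lit 100), (nat_lit 86), (nat_lit 60))⟩, (nat_lit 257953), (nat_lit 300), (nat_lit 508), (nat_lit 7500000), (nat_lit 275411), [(nat_lit 750000000), (nat_lit 1181040000), (nat_lit 1424640000)], [], [(nat_lit 5752383331), (nat_lit 6397723385), (nat_lit 4502609964), (nat_lit 5081607592), (nat_lit 3982161798), (nat_lit 4549003795), (nat_lit 4162234264), (nat_lit 3376435528)], (nat_lit 1271251), (nat_lit 1271251), (nat_lit 169688), (nat_lit 780000), (nat_lit 0), (nat_lit 780000), [(nat_lit 1412501), (nat_lit 1271251), (nat_lit 1271251)], [(nat_lit 23), (nat_lit 62), (nat_lit 373), (nat_lit 150), (nat_lit 10)]⟩⟩)) (.trZ (nat_lit 0) (nat_lit 2) (nat_lit 4) (nat_lit 100) (nat_lit 84) (nat_lit 63) (nat_lit 40) (.leaf ⟨(nat_lit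 0), (nat_lit 789), (nat_lit 0), (nat_lit 211), (nat_lit 0), (nat_lit 9493), (nat_lit 7350), (nat_lit 3478), (nat_lit 32032), (nat_lit 27796), (nat_lit 0), [], Pd.none, Pd.none, (nat_lit 0), (nat_lit 1), (nat_lit 0), (nat_lit 0), (nat_lit 5), (nat_lit 0), [], [⟨(nat_lit 0), (nat_lit 100), (nat_lit 87), (nat_lit 88), (nat_lit 468288923)⟩], [⟨(nat_lit 0), (nat_lit 100), (nat_lit 98), (nat_lit 74), (nat_lit 313655892)⟩], [],
 ⟨⟨[(nat_lit 60), (nat_lit 100), (nat_lit 120)], [(nat_lit 0), (nat_lit 909), (nat_lit 1866)], [((nat_lit 0), (nat_lit 0), (nat_lit 0)), ((nat_lit 1000), (nat_lit 858), (nat_lit 354)), ((nat_lit 1000), (nat_lit 849), (nat_lit 705))], ((nat_lit 84), (nat_lit 100), (nat_lit 60))⟩, (nat_lit 858086), (nat_lit 300), (nat_lit 399), (nat_lit 54700001), (nat_lit 617157), [(nat_lit 3282000007), (nat_lit 6250000015), (nat_lit 7968000000)], [], [(nat_lit 27485092891), (nat_lit 28018628860), (nat_lit 42658034107), (nat_lit 43309282674), (nat_lit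 24324807935), (nat_lit 24805432074), (nat_lit 36701641801), (nat_lit 37313487216)], (nat_lit 1271251), (nat_lit 1271251), (nat_lit 780000), (nat_lit 3072501), (nat_lit 230000), (nat_lit 780000), [(nat_lit 780000), (nat_lit 1435001), (nat_lit 1271251)], [(nat_lit 10), (nat_lit 54), (nat_lit 373), (nat_lit 150), (nat_lit 12)]⟩,
 ⟨⟨[(nat_lit 80), (nat_lit 120), (nat_lit 160)], [(nat_lit 0), (nat_lit 0), (nat_lit 2132)], [((nat_lit 0), (nat_lit 0), (nat_lit 0)), ((nat_lit 0), (nat_lit 0), (nat_lit 0)), ((nat_lit 858), (nat_lit 1000), (nat_lit 713))], ((nat_lit 100), (nat_lit 92), (nat_lit 61))⟩, (nat_lit 5169252), (nat_lit 252), (nat_lit 252), (nat_lit 0), (nat_lit 0), [(nat_lit 4688000000), (nat_lit 7968000000), (nat_lit 11872000000)], [], [(nat_lit 20947329336), (nat_lit 28064174600), (nat_lit 38428284400), (nat_lit 41837254600), (nat_lit 17654309150), (nat_lit 23608400450), (nat_lit 32483777400), (nat_lit 35594485000)], (nat_lit 0), (nat_lit 0), (nat_lit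 0), (nat_lit 0), (nat_lit 0), (nat_lit 0), [], [(nat_lit 18), (nat_lit 59), (nat_lit 456), (nat_lit 225), (nat_lit 12)]⟩,
 ⟨⟨[(nat_lit 100), (nat_lit 140), (nat_lit 160)], [(nat_lit 0), (nat_lit 508), (nat_lit 1689)], [((nat_lit 0), (nat_lit 0), (nat_lit 0)), ((nat_lit 1000), (nat_lit 1000), (nat_lit 198)), ((nat_lit 811), (nat_lit 1000), (nat_lit 671))], ((nat_lit 100), (nat_lit 86), (nat_lit 60))⟩, (nat_lit 453567), (nat_lit 300), (nat_lit 527), (nat_lit 13187500), (nat_lit 340832), [(nat_lit 1318750000), (nat_lit 2076662000), (nat_lit 2504992000)], [], [(nat_lit 9750092821), (nat_lit 11010085396), (nat_lit 7956302445), (nat_lit 9093475966), (nat_lit 6771167725), (nat_lit 7876449678), (nat_lit 7375957854), (nat_lit 6165662725)], (nat_lit 1271251), (nat_lit 1271251), (nat_lit 230000), (nat_lit 780000), (nat_lit 0), (nat_lit 780000), [(nat_lit 1412501), (nat_lit 1271251), (nat_lit 1271251)], [(nat_lit 23), (nat_lit 62), (nat_lit 373), (nat_lit 150),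 (nat_lit 10)]⟩⟩))) (.leaf ⟨(nat_lit 0), (nat_lit 412), (nat_lit 0), (nat_lit 588), (nat_lit 0), (nat_lit 10185), (nat_lit 9221), (nat_lit 6058), (nat_lit 130506), (nat_lit 18910), (nat_lit 0), [], Pd.none, Pd.none, (nat_lit 0), (nat_lit 1), (nat_lit 0), (nat_lit 0), (nat_lit 5), (nat_lit 0), [], [⟨(nat_lit 0), (nat_lit 100), (nat_lit 87), (nat_lit 59), (nat_lit 593104750)⟩], [], [],
 ⟨⟨[(nat_lit 60), (nat_lit 100), (nat_lit 120)], [(nat_lit 0), (nat_lit 609), (nat_lit 1609)], [((nat_lit 0), (nat_lit 0), (nat_lit 0)), ((nat_lit 1000), (nat_lit 905), (nat_lit 238)), ((nat_lit 1000), (nat_lit 882), (nat_lit 668))], ((nat_lit 87), (nat_lit 100), (nat_lit 60))⟩, (nat_lit 3141658), (nat_lit 300), (nat_lit 411), (nat_lit 54700001), (nat_lit 625864), [(nat_lit 3282000006), (nat_lit 6250000016), (nat_lit 7968000000)], [], [(nat_lit 29918717719), (nat_lit 27265353308), (nat_lit 44744816307), (nat_lit 46100542038), (nat_lit 22038502697), (nat_lit 23033841490),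 (nat_lit 37079886803), (nat_lit 38350180720)], (nat_lit 1271251), (nat_lit 1271251), (nat_lit 780000), (nat_lit 3072501), (nat_lit 169688), (nat_lit 780000), [(nat_lit 780000), (nat_lit 1435001), (nat_lit 1271251)], [(nat_lit 10), (nat_lit 54), (nat_lit 373), (nat_lit 150), (nat_lit 12)]⟩,
 ⟨⟨[(nat_lit 80), (nat_lit 120), (nat_lit 160)], [(nat_lit 0), (nat_lit 0), (nat_lit 2132)], [((nat_lit 0), (nat_lit 0), (nat_lit 0)), ((nat_lit 0), (nat_lit 0), (nat_lit 0)), ((nat_lit 858), (nat_lit 1000), (nat_lit 713))], ((nat_lit 100), (nat_lit 92), (nat_lit 61))⟩, (nat_lit 5641876), (nat_lit 168), (nat_lit 168), (nat_lit 0), (nat_lit 0), [(nat_lit 4688000000), (nat_lit 7968000000), (nat_lit 11872000000)], [], [(nat_lit 13710744449), (nat_lit 21834650244), (nat_lit 32251257004), (nat_lit 36906000752), (nat_lit 32251257004), (nat_lit 36906000752), (nat_lit 41403109528), (nat_lit 43042450264)], (nat_lit 0), (nat_lit 0), (nat_lit 0), (nat_lit 0), (nat_lit 0),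 (nat_lit 0), [], [(nat_lit 18), (nat_lit 59), (nat_lit 538), (nat_lit 300), (nat_lit 13)]⟩,
 ⟨⟨[(nat_lit 100), (nat_lit 140), (nat_lit 160)], [(nat_lit 0), (nat_lit 508), (nat_lit 1689)], [((nat_lit 0), (nat_lit 0), (nat_lit 0)), ((nat_lit 1000), (nat_lit 1000), (nat_lit 198)), ((nat_lit 811), (nat_lit 1000), (nat_lit 671))], ((nat_lit 100), (nat_lit 86), (nat_lit 60))⟩, (nat_lit 1263969), (nat_lit 300), (nat_lit 705), (nat_lit 36750000), (nat_lit 900955), [(nat_lit 3675000000), (nat_lit 5787096000), (nat_lit 6980736000)], [], [(nat_lit 26856904612), (nat_lit 27003525193), (nat_lit 24025385892), (nat_lit 24084002726), (nat_lit 27675387655), (nat_lit 27289956739), (nat_lit 31202640860), (nat_lit 23758948116)], (nat_lit 1271251), (nat_lit 1271251), (nat_lit 169688), (nat_lit 780000), (nat_lit 780000), (nat_lit 3072501), [(nat_lit 1412501), (nat_lit 1271251), (nat_lit 1271251)], [(nat_lit 23), (nat_lit 62), (nat_lit 456), (nat_lit 225), (nat_lit 12)]⟩⟩))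
noncomputable def c4_13 : Tr Lf :=
 (.spl (nat_lit 3) (nat_lit 280) (.spl (nat_lit 3) (nat_lit 200) (.spl (nat_lit 5) (nat_lit 120) (.spl (nat_lit 1) (nat_lit 280) (.ord (.spl (nat_lit 1) (nat_lit 260) (.ord (.spl (nat_lit 6) (nat_lit 28) (.leaf ⟨(nat_lit 0), (nat_lit 909), (nat_lit 0), (nat_lit 91), (nat_lit 0), (nat_lit 6468), (nat_lit 5259), (nat_lit 1930), (nat_lit 0), (nat_lit 7384820827698), (nat_lit 0), [], Pd.none, Pd.none, (nat_lit 0), (nat_lit 1), (nat_lit 0), (nat_lit 0), (nat_lit 5), (nat_lit 0), [], [⟨(nat_lit 0), (nat_lit 100), (nat_lit 85), (nat_lit 72), (nat_lit 113393812)⟩], [], [],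
 ⟨⟨[(nat_lit 60), (nat_lit 100), (nat_lit 120)], [(nat_lit 0), (nat_lit 609), (nat_lit 1609)], [((nat_lit 0), (nat_lit 0), (nat_lit 0)), ((nat_lit 1000), (nat_lit 905), (nat_lit 238)), ((nat_lit 1000), (nat_lit 882), (nat_lit 668))], ((nat_lit 87), (nat_lit 100), (nat_lit 51))⟩, (nat_lit 4816995), (nat_lit 174), (nat_lit 174), (nat_lit 0), (nat_lit 129857), [(nat_lit 3284568380), (nat_lit 6250000006), (nat_lit 7968000000)], [], [(nat_lit 17424378705), (nat_lit 19446242504), (nat_lit 19353107505), (nat_lit 21260710816), (nat_lit 15199558518), (nat_lit 17036076999), (nat_lit 17046790100), (nat_lit 18630390787)], (nat_lit 1271251), (nat_lit 1271251), (nat_lit 780000), (nat_lit 1435001), (nat_lit 169688), (nat_lit 780000), [(nat_lit 780000), (nat_lit 1435001), (nat_lit 1271251)], [(nat_lit 10), (nat_lit 54), (nat_lit 317), (nat_lit 100), (nat_lit 10)]⟩,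
 ⟨⟨[(nat_lit 80), (nat_lit 120), (nat_lit 140)], [(nat_lit 0), (nat_lit 0), (nat_lit 1164)], [((nat_lit 0), (nat_lit 0), (nat_lit 0)), ((nat_lit 0), (nat_lit 0), (nat_lit 0)), ((nat_lit 941), (nat_lit 1000), (nat_lit 576))], ((nat_lit 100), (nat_lit 96), (nat_lit 52))⟩, (nat_lit 1608838), (nat_lit 383), (nat_lit 383), (nat_lit 0), (nat_lit 406815), [(nat_lit 4688000000), (nat_lit 7968000000), (nat_lit 9842000000)], [], [(nat_lit 35150804420), (nat_lit 36049137648), (nat_lit 38463418630), (nat_lit 37024230037), (nat_lit 36601697651), (nat_lit 34139274767), (nat_lit 43150611148), (nat_lit 40752760895)], (nat_lit 1271251), (nat_lit 1271251), (nat_lit 780000), (nat_lit 1435001), (nat_lit 0), (nat_lit 780000), [(nat_lit 1100000), (nat_lit 1785001), (nat_lit 1271251)], [(nat_lit 17), (nat_lit 58), (nat_lit 373), (nat_lit 150), (nat_lit 11)]⟩,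
 ⟨⟨[(nat_lit 100), (nat_lit 140), (nat_lit 160)], [(nat_lit 0), (nat_lit 508), (nat_lit 1689)], [((nat_lit 0), (nat_lit 0), (nat_lit 0)), ((nat_lit 1000), (nat_lit 1000), (nat_lit 198)), ((nat_lit 811), (nat_lit 1000), (nat_lit 671))], ((nat_lit 100), (nat_lit 91), (nat_lit 51))⟩, (nat_lit 195614), (nat_lit 300), (nat_lit 434), (nat_lit 5687501), (nat_lit 171483), [(nat_lit 568750000), (nat_lit 895622000), (nat_lit 1080352000)], [], [(nat_lit 4472828711), (nat_lit 4655868612), (nat_lit 3250419353), (nat_lit 3412517511), (nat_lit 2745836561), (nat_lit 2904798482), (nat_lit 2916367659), (nat_lit 1797911911)], (nat_lit 1271251), (nat_lit 1271251), (nat_lit 169688), (nat_lit 780000), (nat_lit 0), (nat_lit 780000), [(nat_lit 1412501), (nat_lit 1271251), (nat_lit 1271251)], [(nat_lit 23), (nat_lit 62), (nat_lit 345), (nat_lit 125), (nat_lit 9)]⟩⟩) (.dle (nat_lit 0)))) (.trZ (nat_lit 1) (nat_lit 2) (nat_lit 5) (nat_lit 100) (nat_lit 96) (nat_lit 40) (nat_lit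 10) (.leaf ⟨(nat_lit 0), (nat_lit 860), (nat_lit 0), (nat_lit 140), (nat_lit 0), (nat_lit 7175), (nat_lit 7701), (nat_lit 2747), (nat_lit 0), (nat_lit 852640), (nat_lit 0), [], Pd.none, Pd.none, (nat_lit 0), (nat_lit 1), (nat_lit 0), (nat_lit 0), (nat_lit 5), (nat_lit 0), [], [⟨(nat_lit 0), (nat_lit 100), (nat_lit 86), (nat_lit 77), (nat_lit 337066023)⟩], [⟨(nat_lit 0), (nat_lit 100), (nat_lit 97), (nat_lit 59), (nat_lit 17218494)⟩], [],
 ⟨⟨[(nat_lit 60), (nat_lit 100), (nat_lit 120)], [(nat_lit 0), (nat_lit 609), (nat_lit 1609)], [((nat_lit 0), (nat_lit 0), (nat_lit 0)), ((nat_lit 1000), (nat_lit 905), (nat_lit 238)), ((nat_lit 1000), (nat_lit 882), (nat_lit 668))], ((nat_lit 87), (nat_lit 100), (nat_lit 60))⟩, (nat_lit 3753701), (nat_lit 188), (nat_lit 188), (nat_lit 0), (nat_lit 178443), [(nat_lit 3654155048), (nat_lit 6250000066), (nat_lit 7968000000)], [], [(nat_lit 18215958195), (nat_lit 20202359338), (nat_lit 19760859410), (nat_lit 21969416100),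 (nat_lit 15361114773), (nat_lit 17134739791), (nat_lit 16999566776), (nat_lit 18684129007)], (nat_lit 1271251), (nat_lit 1271251), (nat_lit 780000), (nat_lit 1435001), (nat_lit 169688), (nat_lit 780000), [(nat_lit 780000), (nat_lit 1435001), (nat_lit 1271251)], [(nat_lit 10), (nat_lit 54), (nat_lit 317), (nat_lit 100), (nat_lit 10)]⟩,
 ⟨⟨[(nat_lit 80), (nat_lit 120), (nat_lit 140)], [(nat_lit 0), (nat_lit 528), (nat_lit 1572)], [((nat_lit 0), (nat_lit 0), (nat_lit 0)), ((nat_lit 1000), (nat_lit 959), (nat_lit 206)), ((nat_lit 966), (nat_lit 1000), (nat_lit 679))], ((nat_lit 100), (nat_lit 99), (nat_lit 63))⟩, (nat_lit 4416508), (nat_lit 439), (nat_lit 439), (nat_lit 0), (nat_lit 491017), [(nat_lit 4688000000), (nat_lit 7968000000), (nat_lit 9842000000)], [], [(nat_lit 28019241430), (nat_lit 28827052663), (nat_lit 30835390974), (nat_lit 28993309891), (nat_lit 27837298410), (nat_lit 25525472679), (nat_lit 36305145322), (nat_lit 32793860895)], (nat_lit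 1271251), (nat_lit 1271251), (nat_lit 780000), (nat_lit 1435001), (nat_lit 54688), (nat_lit 780000), [(nat_lit 1100000), (nat_lit 1785001), (nat_lit 1271251)], [(nat_lit 17), (nat_lit 58), (nat_lit 373), (nat_lit 150), (nat_lit 11)]⟩,
 ⟨⟨[(nat_lit 100), (nat_lit 140), (nat_lit 160)], [(nat_lit 0), (nat_lit 508), (nat_lit 1689)], [((nat_lit 0), (nat_lit 0), (nat_lit 0)), ((nat_lit 1000), (nat_lit 1000), (nat_lit 198)), ((nat_lit 811), (nat_lit 1000), (nat_lit 671))], ((nat_lit 100), (nat_lit 86), (nat_lit 60))⟩, (nat_lit 300945), (nat_lit 300), (nat_lit 448), (nat_lit 8750000), (nat_lit 222122), [(nat_lit 875000000), (nat_lit 1377880000), (nat_lit 1662080000)], [], [(nat_lit 6558114199), (nat_lit 7046291587), (nat_lit 4856297104), (nat_lit 5290722743), (nat_lit 4380547676), (nat_lit 4808912769), (nat_lit 4623534459), (nat_lit 3225905485)], (nat_lit 1271251), (nat_lit 1271251), (nat_lit 169688), (nat_lit 780000), (nat_lit 54688), (nat_lit 780000), [(nat_lit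 1412501), (nat_lit 1271251), (nat_lit 1271251)], [(nat_lit 23), (nat_lit 62), (nat_lit 373), (nat_lit 150), (nat_lit 10)]⟩⟩)))) (.trZ (nat_lit 1) (nat_lit 2) (nat_lit 5) (nat_lit 100) (nat_lit 92) (nat_lit 49) (nat_lit 20) (.leaf ⟨(nat_lit 0), (nat_lit 734), (nat_lit 0), (nat_lit 266), (nat_lit 0), (nat_lit 8822), (nat_lit 9304), (nat_lit 4462), (nat_lit 58940), (nat_lit 17965), (nat_lit 0), [], Pd.none, Pd.none, (nat_lit 0), (nat_lit 1), (nat_lit 0), (nat_lit 0), (nat_lit 5), (nat_lit 0), [], [⟨(nat_lit 0), (nat_lit 100), (nat_lit 89), (nat_lit 86), (nat_lit 633901526)⟩], [⟨(nat_lit 0), (nat_lit 100), (nat_lit 92), (nat_lit 82), (nat_lit 244757055)⟩], [],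
 ⟨⟨[(nat_lit 60), (nat_lit 100), (nat_lit 120)], [(nat_lit 0), (nat_lit 609), (nat_lit 1609)], [((nat_lit 0), (nat_lit 0), (nat_lit 0)), ((nat_lit 1000), (nat_lit 905), (nat_lit 238)), ((nat_lit 1000), (nat_lit 882), (nat_lit 668))], ((nat_lit 87), (nat_lit 100), (nat_lit 60))⟩, (nat_lit 3266071), (nat_lit 252), (nat_lit 252), (nat_lit 0), (nat_lit 278016), [(nat_lit 3282000062), (nat_lit 6250000011), (nat_lit 7968000000)], [], [(nat_lit 18737107390), (nat_lit 21964518401), (nat_lit 20850416731), (nat_lit 23620388664), (nat_lit 14893030161), (nat_lit 16840821569), (nat_lit 18965066966), (nat_lit 18558586854)], (nat_lit 1271251), (nat_lit 1271251), (nat_lit 780000), (nat_lit 1435001), (nat_lit 169688), (nat_lit 780000), [(nat_lit 780000), (nat_lit 1435001), (nat_lit 1271251)], [(nat_lit 10), (nat_lit 54), (nat_lit 317), (nat_lit 100), (nat_lit 10)]⟩,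
 ⟨⟨[(nat_lit 60), (nat_lit 100), (nat_lit 140)], [(nat_lit 0), (nat_lit 0), (nat_lit 2047)], [((nat_lit 0), (nat_lit 0), (nat_lit 0)), ((nat_lit 0), (nat_lit 0), (nat_lit 0)), ((nat_lit 1000), (nat_lit 993), (nat_lit 781))], ((nat_lit 94), (nat_lit 100), (nat_lit 62))⟩, (nat_lit 3437126), (nat_lit 493), (nat_lit 493), (nat_lit 0), (nat_lit 653873), [(nat_lit 3282000000), (nat_lit 6250000000), (nat_lit 9842000000)], [], [(nat_lit 22552265072), (nat_lit 25128286432), (nat_lit 23129507226), (nat_lit 25678959586), (nat_lit 18631770660), (nat_lit 21231636024), (nat_lit 26178214404), (nat_lit 21598444368)], (nat_lit 1271251), (nat_lit 1271251), (nat_lit 780000), (nat_lit 1435001), (nat_lit 111251), (nat_lit 780000), [(nat_lit 780000), (nat_lit 1435001), (nat_lit 1271251)], [(nat_lit 11), (nat_lit 55), (nat_lit 317), (nat_lit 100), (nat_lit 9)]⟩,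
 ⟨⟨[(nat_lit 100), (nat_lit 140), (nat_lit 160)], [(nat_lit 0), (nat_lit 508), (nat_lit 1689)], [((nat_lit 0), (nat_lit 0), (nat_lit 0)), ((nat_lit 1000), (nat_lit 1000), (nat_lit 198)), ((nat_lit 811), (nat_lit 1000), (nat_lit 671))], ((nat_lit 100), (nat_lit 86), (nat_lit 60))⟩, (nat_lit 571795), (nat_lit 300), (nat_lit 516), (nat_lit 16625001), (nat_lit 337347), [(nat_lit 1662500000), (nat_lit 2617972000), (nat_lit 3157952000)], [], [(nat_lit 11905916796), (nat_lit 13500095644), (nat_lit 9236062247), (nat_lit 10662587516), (nat_lit 8855272859), (nat_lit 10271615006), (nat_lit 9250942484), (nat_lit 7679940198)], (nat_lit 1271251), (nat_lit 1271251), (nat_lit 169688), (nat_lit 780000), (nat_lit 111251), (nat_lit 780000), [(nat_lit 1412501), (nat_lit 1271251), (nat_lit 1271251)], [(nat_lit 23), (nat_lit 62), (nat_lit 373), (nat_lit 150), (nat_lit 10)]⟩⟩))) (.leaf ⟨(nat_lit 0), (nat_lit 0), (nat_lit 0), (nat_lit 1000), (nat_lit 4072), (nat_lit 10598),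 (nat_lit 7867), (nat_lit 14033), (nat_lit 2336), (nat_lit 7855), (nat_lit 0), [], Pd.none, Pd.none, (nat_lit 0), (nat_lit 1), (nat_lit 0), (nat_lit 0), (nat_lit 0), (nat_lit 0), [], [⟨(nat_lit 0), (nat_lit 100), (nat_lit 89), (nat_lit 86), (nat_lit 216868949)⟩, ⟨(nat_lit 0), (nat_lit 100), (nat_lit 87), (nat_lit 59), (nat_lit 1456071807)⟩], [], [],
 ⟨⟨[(nat_lit 60), (nat_lit 100), (nat_lit 120)], [(nat_lit 0), (nat_lit 609), (nat_lit 1609)], [((nat_lit 0), (nat_lit 0), (nat_lit 0)), ((nat_lit 1000), (nat_lit 905), (nat_lit 238)), ((nat_lit 1000), (nat_lit 882), (nat_lit 668))], ((nat_lit 87), (nat_lit 100), (nat_lit 60))⟩, (nat_lit 2189853), (nat_lit 252), (nat_lit 252), (nat_lit 0), (nat_lit 278208), [(nat_lit 3282000007), (nat_lit 6250000002), (nat_lit 7968000000)], [], [(nat_lit 20162095309), (nat_lit 23864697209), (nat_lit 22234664875), (nat_lit 25400672376), (nat_lit 15113022970), (nat_lit 17409467595), (nat_lit 16357826241), (nat_lit 18968056086)],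 (nat_lit 1271251), (nat_lit 1271251), (nat_lit 780000), (nat_lit 1435001), (nat_lit 169688), (nat_lit 780000), [(nat_lit 780000), (nat_lit 1435001), (nat_lit 1271251)], [(nat_lit 10), (nat_lit 54), (nat_lit 317), (nat_lit 100), (nat_lit 10)]⟩,
 ⟨⟨[(nat_lit 80), (nat_lit 120), (nat_lit 160)], [(nat_lit 0), (nat_lit 0), (nat_lit 2132)], [((nat_lit 0), (nat_lit 0), (nat_lit 0)), ((nat_lit 0), (nat_lit 0), (nat_lit 0)), ((nat_lit 858), (nat_lit 1000), (nat_lit 713))], ((nat_lit 100), (nat_lit 92), (nat_lit 61))⟩, (nat_lit 2279638), (nat_lit 807), (nat_lit 807), (nat_lit 0), (nat_lit 1258744), [(nat_lit 4688000000), (nat_lit 7968000000), (nat_lit 11872000000)], [], [(nat_lit 40085603701), (nat_lit 41040979978), (nat_lit 39289100574), (nat_lit 40213601879), (nat_lit 49188384176), (nat_lit 42277124872), (nat_lit 58259941802), (nat_lit 44456000114)], (nat_lit 1271251), (nat_lit 1271251), (nat_lit 780000), (nat_lit 1435001), (nat_lit 780000), (nat_lit 3072501),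 [(nat_lit 1100000), (nat_lit 1785001), (nat_lit 1271251)], [(nat_lit 18), (nat_lit 59), (nat_lit 483), (nat_lit 250), (nat_lit 12)]⟩,
 ⟨⟨[(nat_lit 100), (nat_lit 140), (nat_lit 160)], [(nat_lit 0), (nat_lit 508), (nat_lit 1689)], [((nat_lit 0), (nat_lit 0), (nat_lit 0)), ((nat_lit 1000), (nat_lit 1000), (nat_lit 198)), ((nat_lit 811), (nat_lit 1000), (nat_lit 671))], ((nat_lit 100), (nat_lit 86), (nat_lit 60))⟩, (nat_lit 1760161), (nat_lit 300), (nat_lit 412), (nat_lit 63913131), (nat_lit 342447), [(nat_lit 6250000000), (nat_lit 9842000000), (nat_lit 11872000000)], [], [(nat_lit 35669386954), (nat_lit 40537063597), (nat_lit 28291836080), (nat_lit 32613572616), (nat_lit 49649676585), (nat_lit 55333423618), (nat_lit 56936454582), (nat_lit 44114915696)], (nat_lit 1271251), (nat_lit 1271251), (nat_lit 169688), (nat_lit 780000), (nat_lit 780000), (nat_lit 3072501), [(nat_lit 1412501), (nat_lit 1271251), (nat_lit 1271251)], [(nat_lit 23), (nat_lit 62),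 (nat_lit 456), (nat_lit 225), (nat_lit 12)]⟩⟩)) (.trX (nat_lit 5) (nat_lit 3) (nat_lit 4) (nat_lit 100) (nat_lit 40) (nat_lit 92) (nat_lit 390) (.spl (nat_lit 5) (nat_lit 120) (.leaf ⟨(nat_lit 0), (nat_lit 527), (nat_lit 0), (nat_lit 473), (nat_lit 0), (nat_lit 8264), (nat_lit 11739), (nat_lit 6906), (nat_lit 2827), (nat_lit 10314), (nat_lit 0), [], Pd.none, Pd.none, (nat_lit 0), (nat_lit 1), (nat_lit 0), (nat_lit 0), (nat_lit 5), (nat_lit 0), [], [⟨(nat_lit 0), (nat_lit 100), (nat_lit 89), (nat_lit 86), (nat_lit 905791970)⟩], [⟨(nat_lit 0), (nat_lit 100), (nat_lit 98), (nat_lit 74), (nat_lit 184313707)⟩], [],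
 ⟨⟨[(nat_lit 60), (nat_lit 100), (nat_lit 120)], [(nat_lit 0), (nat_lit 609), (nat_lit 1609)], [((nat_lit 0), (nat_lit 0), (nat_lit 0)), ((nat_lit 1000), (nat_lit 905), (nat_lit 238)), ((nat_lit 1000), (nat_lit 882), (nat_lit 668))], ((nat_lit 87), (nat_lit 100), (nat_lit 60))⟩, (nat_lit 3192204), (nat_lit 245), (nat_lit 245), (nat_lit 0), (nat_lit 278208), [(nat_lit 3965799369), (nat_lit 6250000002), (nat_lit 7968000000)], [], [(nat_lit 20415500929), (nat_lit 23061042768), (nat_lit 26626620216), (nat_lit 28724796720), (nat_lit 16943301696), (nat_lit 18454398396), (nat_lit 21798253650), (nat_lit 23724125432)], (nat_lit 1271251), (nat_lit 1271251), (nat_lit 1271251), (nat_lit 1271251), (nat_lit 169688), (nat_lit 780000), [(nat_lit 780000), (nat_lit 1435001), (nat_lit 1271251)], [(nat_lit 10), (nat_lit 54), (nat_lit 317), (nat_lit 100), (nat_lit 10)]⟩,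
 ⟨⟨[(nat_lit 80), (nat_lit 120), (nat_lit 160)], [(nat_lit 0), (nat_lit 0), (nat_lit 2132)], [((nat_lit 0), (nat_lit 0), (nat_lit 0)), ((nat_lit 0), (nat_lit 0), (nat_lit 0)), ((nat_lit 858), (nat_lit 1000), (nat_lit 713))], ((nat_lit 100), (nat_lit 92), (nat_lit 61))⟩, (nat_lit 3754513), (nat_lit 640), (nat_lit 640), (nat_lit 0), (nat_lit 785007), [(nat_lit 4688000000), (nat_lit 7968000000), (nat_lit 11872000000)], [], [(nat_lit 26820257208), (nat_lit 33213851426), (nat_lit 30861773422), (nat_lit 37502044982), (nat_lit 32146992708), (nat_lit 23186984600), (nat_lit 21123954506), (nat_lit 26051250677)], (nat_lit 1271251), (nat_lit 1271251), (nat_lit 1271251), (nat_lit 1271251), (nat_lit 0), (nat_lit 780000), [(nat_lit 1100000), (nat_lit 1785001), (nat_lit 1271251)], [(nat_lit 18), (nat_lit 59), (nat_lit 428), (nat_lit 200), (nat_lit 11)]⟩,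
 ⟨⟨[(nat_lit 100), (nat_lit 140), (nat_lit 160)], [(nat_lit 0), (nat_lit 508), (nat_lit 1689)], [((nat_lit 0), (nat_lit 0), (nat_lit 0)), ((nat_lit 1000), (nat_lit 1000), (nat_lit 198)), ((nat_lit 811), (nat_lit 1000), (nat_lit 671))], ((nat_lit 100), (nat_lit 86), (nat_lit 60))⟩, (nat_lit 1016764), (nat_lit 300), (nat_lit 537), (nat_lit 29562500), (nat_lit 342447), [(nat_lit 2956250000), (nat_lit 4655266000), (nat_lit 5615456000)], [], [(nat_lit 22362281698), (nat_lit 25020214143), (nat_lit 18459077604), (nat_lit 20606736298), (nat_lit 16875275317), (nat_lit 18816246838), (nat_lit 17083055751), (nat_lit 14890289199)], (nat_lit 1271251), (nat_lit 1271251), (nat_lit 169688), (nat_lit 780000), (nat_lit 0), (nat_lit 780000), [(nat_lit 1412501), (nat_lit 1271251), (nat_lit 1271251)], [(nat_lit 23), (nat_lit 62), (nat_lit 373), (nat_lit 150), (nat_lit 10)]⟩⟩) (.leaf ⟨(nat_lit 0), (nat_lit 0), (nat_lit 0), (nat_lit 1000), (nat_lit 0), (nat_lit 8413), (nat_lit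 8499), (nat_lit 12648), (nat_lit 28296), (nat_lit 848760), (nat_lit 0), [], Pd.none, Pd.none, (nat_lit 0), (nat_lit 1), (nat_lit 0), (nat_lit 0), (nat_lit 0), (nat_lit 0), [], [⟨(nat_lit 0), (nat_lit 100), (nat_lit 89), (nat_lit 86), (nat_lit 1037973484)⟩], [], [],
 ⟨⟨[(nat_lit 60), (nat_lit 100), (nat_lit 120)], [(nat_lit 0), (nat_lit 609), (nat_lit 1609)], [((nat_lit 0), (nat_lit 0), (nat_lit 0)), ((nat_lit 1000), (nat_lit 905), (nat_lit 238)), ((nat_lit 1000), (nat_lit 882), (nat_lit 668))], ((nat_lit 87), (nat_lit 100), (nat_lit 60))⟩, (nat_lit 3200666), (nat_lit 245), (nat_lit 245), (nat_lit 0), (nat_lit 278208), [(nat_lit 4306585606), (nat_lit 6250000027), (nat_lit 7968000000)], [], [(nat_lit 20531634360), (nat_lit 23210402156), (nat_lit 26806253490), (nat_lit 28929151897), (nat_lit 16648460232), (nat_lit 18464289041), (nat_lit 21860657644), (nat_lit 23808796619)], (nat_lit 1271251), (nat_lit 1271251), (nat_lit 1271251), (nat_lit 1271251), (nat_lit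 169688), (nat_lit 780000), [(nat_lit 780000), (nat_lit 1435001), (nat_lit 1271251)], [(nat_lit 10), (nat_lit 54), (nat_lit 317), (nat_lit 100), (nat_lit 10)]⟩,
 ⟨⟨[(nat_lit 80), (nat_lit 120), (nat_lit 160)], [(nat_lit 0), (nat_lit 0), (nat_lit 2132)], [((nat_lit 0), (nat_lit 0), (nat_lit 0)), ((nat_lit 0), (nat_lit 0), (nat_lit 0)), ((nat_lit 858), (nat_lit 1000), (nat_lit 713))], ((nat_lit 100), (nat_lit 92), (nat_lit 61))⟩, (nat_lit 2402561), (nat_lit 750), (nat_lit 750), (nat_lit 0), (nat_lit 1258744), [(nat_lit 4688000000), (nat_lit 7968000000), (nat_lit 11872000000)], [], [(nat_lit 35874191051), (nat_lit 37092443270), (nat_lit 36430524453), (nat_lit 37303720682), (nat_lit 51873200079), (nat_lit 37398124269), (nat_lit 36912225525), (nat_lit 36824364246)], (nat_lit 1271251), (nat_lit 1271251), (nat_lit 1271251), (nat_lit 1271251), (nat_lit 780000), (nat_lit 2990626), [(nat_lit 1100000), (nat_lit 1785001), (nat_lit 1271251)], [(nat_lit 18), (nat_lit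 59), (nat_lit 483), (nat_lit 250), (nat_lit 12)]⟩,
 ⟨⟨[(nat_lit 100), (nat_lit 140), (nat_lit 160)], [(nat_lit 0), (nat_lit 508), (nat_lit 1689)], [((nat_lit 0), (nat_lit 0), (nat_lit 0)), ((nat_lit 1000), (nat_lit 1000), (nat_lit 198)), ((nat_lit 811), (nat_lit 1000), (nat_lit 671))], ((nat_lit 100), (nat_lit 86), (nat_lit 60))⟩, (nat_lit 2149606), (nat_lit 300), (nat_lit 412), (nat_lit 62500002), (nat_lit 342447), [(nat_lit 6250000000), (nat_lit 9842000000), (nat_lit 11872000000)], [], [(nat_lit 36190566444), (nat_lit 40827403752), (nat_lit 29906721658), (nat_lit 33823216216), (nat_lit 47253530298), (nat_lit 50451006225), (nat_lit 53970725207), (nat_lit 40612524594)], (nat_lit 1271251), (nat_lit 1271251), (nat_lit 169688), (nat_lit 780000), (nat_lit 780000), (nat_lit 2990626), [(nat_lit 1412501), (nat_lit 1271251), (nat_lit 1271251)], [(nat_lit 23), (nat_lit 62), (nat_lit 456), (nat_lit 225), (nat_lit 12)]⟩⟩)))) (.trX (nat_lit 5) (nat_lit 3) (nat_lit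 4) (nat_lit 100) (nat_lit 80) (nat_lit 100) (nat_lit 340) (.spl (nat_lit 1) (nat_lit 280) (.ord (.leaf ⟨(nat_lit 0), (nat_lit 318), (nat_lit 0), (nat_lit 682), (nat_lit 5732), (nat_lit 6032), (nat_lit 8907), (nat_lit 9958), (nat_lit 0), (nat_lit 14310327000), (nat_lit 0), [], Pd.none, Pd.none, (nat_lit 0), (nat_lit 1), (nat_lit 0), (nat_lit 0), (nat_lit 5), (nat_lit 0), [], [⟨(nat_lit 0), (nat_lit 100), (nat_lit 86), (nat_lit 77), (nat_lit 1098337911)⟩], [⟨(nat_lit 0), (nat_lit 100), (nat_lit 99), (nat_lit 55), (nat_lit 114473020)⟩], [],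
 ⟨⟨[(nat_lit 60), (nat_lit 100), (nat_lit 120)], [(nat_lit 0), (nat_lit 609), (nat_lit 1609)], [((nat_lit 0), (nat_lit 0), (nat_lit 0)), ((nat_lit 1000), (nat_lit 905), (nat_lit 238)), ((nat_lit 1000), (nat_lit 882), (nat_lit 668))], ((nat_lit 87), (nat_lit 100), (nat_lit 60))⟩, (nat_lit 5060604), (nat_lit 245), (nat_lit 245), (nat_lit 0), (nat_lit 178539), [(nat_lit 3282000016), (nat_lit 6250000003), (nat_lit 7968000000)], [], [(nat_lit 23935737896), (nat_lit 25663583610), (nat_lit 35084850055), (nat_lit 36135844220), (nat_lit 22176152960), (nat_lit 23031867694), (nat_lit 31137913528), (nat_lit 32128521584)], (nat_lit 1271251), (nat_lit 1271251), (nat_lit 1271251), (nat_lit 1271251), (nat_lit 169688), (nat_lit 780000), [(nat_lit 780000), (nat_lit 1435001), (nat_lit 1271251)], [(nat_lit 10), (nat_lit 54), (nat_lit 238), (nat_lit 30), (nat_lit 7)]⟩,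
 ⟨⟨[(nat_lit 80), (nat_lit 120), (nat_lit 160)], [(nat_lit 0), (nat_lit 0), (nat_lit 2132)], [((nat_lit 0), (nat_lit 0), (nat_lit 0)), ((nat_lit 0), (nat_lit 0), (nat_lit 0)), ((nat_lit 858), (nat_lit 1000), (nat_lit 713))], ((nat_lit 100), (nat_lit 92), (nat_lit 61))⟩, (nat_lit 2688539), (nat_lit 588), (nat_lit 588), (nat_lit 0), (nat_lit 771434), [(nat_lit 4688000000), (nat_lit 7968000000), (nat_lit 11872000000)], [], [(nat_lit 37070598490), (nat_lit 37984579092), (nat_lit 41739297064), (nat_lit 43654833878), (nat_lit 32813649720), (nat_lit 33091404825), (nat_lit 36935883453), (nat_lit 38155892504)], (nat_lit 1271251), (nat_lit 1271251), (nat_lit 1271251), (nat_lit 1271251), (nat_lit 0), (nat_lit 2401251), [(nat_lit 1100000), (nat_lit 1785001), (nat_lit 1271251)], [(nat_lit 18), (nat_lit 59), (nat_lit 538), (nat_lit 300), (nat_lit 13)]⟩,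
 ⟨⟨[(nat_lit 100), (nat_lit 140), (nat_lit 160)], [(nat_lit 0), (nat_lit 508), (nat_lit 1689)], [((nat_lit 0), (nat_lit 0), (nat_lit 0)), ((nat_lit 1000), (nat_lit 1000), (nat_lit 198)), ((nat_lit 811), (nat_lit 1000), (nat_lit 671))], ((nat_lit 100), (nat_lit 86), (nat_lit 60))⟩, (nat_lit 1466031), (nat_lit 300), (nat_lit 486), (nat_lit 42625002), (nat_lit 223148), [(nat_lit 4262500000), (nat_lit 6712244000), (nat_lit 8096704000)], [], [(nat_lit 32243045853), (nat_lit 34297490692), (nat_lit 26614648096), (nat_lit 28107647558), (nat_lit 37775962511), (nat_lit 28232423756), (nat_lit 43810376603), (nat_lit 30837915738)], (nat_lit 1271251), (nat_lit 1271251), (nat_lit 169688), (nat_lit 780000), (nat_lit 0), (nat_lit 2401251), [(nat_lit 1412501), (nat_lit 1271251), (nat_lit 1271251)], [(nat_lit 23), (nat_lit 62), (nat_lit 428), (nat_lit 200), (nat_lit 11)]⟩⟩)) (.trZ (nat_lit 1) (nat_lit 2) (nat_lit 5) (nat_lit 100) (nat_lit 92) (nat_lit 49) (nat_lit 20)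 (.leaf ⟨(nat_lit 0), (nat_lit 216), (nat_lit 0), (nat_lit 784), (nat_lit 0), (nat_lit 6032), (nat_lit 7694), (nat_lit 11999), (nat_lit 138062), (nat_lit 11427), (nat_lit 0), [], Pd.none, Pd.none, (nat_lit 0), (nat_lit 1), (nat_lit 0), (nat_lit 0), (nat_lit 5), (nat_lit 0), [], [⟨(nat_lit 0), (nat_lit 100), (nat_lit 87), (nat_lit 59), (nat_lit 1234509095)⟩], [⟨(nat_lit 0), (nat_lit 100), (nat_lit 92), (nat_lit 49), (nat_lit 431599)⟩], [],
 ⟨⟨[(nat_lit 60), (nat_lit 100), (nat_lit 120)], [(nat_lit 0), (nat_lit 609), (nat_lit 1609)], [((nat_lit 0), (nat_lit 0), (nat_lit 0)), ((nat_lit 1000), (nat_lit 905), (nat_lit 238)), ((nat_lit 1000), (nat_lit 882), (nat_lit 668))], ((nat_lit 87), (nat_lit 100), (nat_lit 60))⟩, (nat_lit 3395082), (nat_lit 277), (nat_lit 277), (nat_lit 0), (nat_lit 278016), [(nat_lit 3282000012), (nat_lit 6250000008), (nat_lit 7968000000)], [], [(nat_lit 25964152414), (nat_lit 27022684732), (nat_lit 35084850055), (nat_lit 36135844220),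 (nat_lit 24204758762), (nat_lit 25060473496), (nat_lit 31137913528), (nat_lit 32128521584)], (nat_lit 1271251), (nat_lit 1271251), (nat_lit 1271251), (nat_lit 1271251), (nat_lit 169688), (nat_lit 780000), [(nat_lit 780000), (nat_lit 1435001), (nat_lit 1271251)], [(nat_lit 10), (nat_lit 54), (nat_lit 238), (nat_lit 30), (nat_lit 7)]⟩,
 ⟨⟨[(nat_lit 60), (nat_lit 100), (nat_lit 140)], [(nat_lit 0), (nat_lit 0), (nat_lit 2047)], [((nat_lit 0), (nat_lit 0), (nat_lit 0)), ((nat_lit 0), (nat_lit 0), (nat_lit 0)), ((nat_lit 1000), (nat_lit 993), (nat_lit 781))], ((nat_lit 94), (nat_lit 100), (nat_lit 62))⟩, (nat_lit 2286109), (nat_lit 626), (nat_lit 626), (nat_lit 0), (nat_lit 1029031), [(nat_lit 3282000000), (nat_lit 6250000000), (nat_lit 9842000000)], [], [(nat_lit 34148600031), (nat_lit 35152151970), (nat_lit 38664991012), (nat_lit 41015648838), (nat_lit 32539186669), (nat_lit 32954542635), (nat_lit 36670971868), (nat_lit 37858602310)], (nat_lit 1271251),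 (nat_lit 1271251), (nat_lit 1271251), (nat_lit 1271251), (nat_lit 111251), (nat_lit 2431251), [(nat_lit 780000), (nat_lit 1435001), (nat_lit 1271251)], [(nat_lit 11), (nat_lit 55), (nat_lit 317), (nat_lit 100), (nat_lit 8)]⟩,
 ⟨⟨[(nat_lit 100), (nat_lit 140), (nat_lit 160)], [(nat_lit 0), (nat_lit 508), (nat_lit 1689)], [((nat_lit 0), (nat_lit 0), (nat_lit 0)), ((nat_lit 1000), (nat_lit 1000), (nat_lit 198)), ((nat_lit 811), (nat_lit 1000), (nat_lit 671))], ((nat_lit 100), (nat_lit 86), (nat_lit 60))⟩, (nat_lit 1685291), (nat_lit 300), (nat_lit 516), (nat_lit 49000002), (nat_lit 337347), [(nat_lit 4900000000), (nat_lit 7716128000), (nat_lit 9307648000)], [], [(nat_lit 34999386884), (nat_lit 39467971887), (nat_lit 27923627672), (nat_lit 31934034460), (nat_lit 45195511541), (nat_lit 37256306660), (nat_lit 52374505807), (nat_lit 28294443565)], (nat_lit 1271251), (nat_lit 1271251), (nat_lit 169688), (nat_lit 780000), (nat_lit 111251), (nat_lit 2431251),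 [(nat_lit 1412501), (nat_lit 1271251), (nat_lit 1271251)], [(nat_lit 23), (nat_lit 62), (nat_lit 428), (nat_lit 200), (nat_lit 11)]⟩⟩)))))
noncomputable def c4_14 : Tr Lf :=
 (.spl (nat_lit 3) (nat_lit 280) (.spl (nat_lit 2) (nat_lit 220) (.spl (nat_lit 6) (nat_lit 68) (.spl (nat_lit 5) (nat_lit 200) (.spl (nat_lit 1) (nat_lit 280) (.dle (nat_lit 0)) (.leaf ⟨(nat_lit 0), (nat_lit 1000), (nat_lit 0), (nat_lit 0), (nat_lit 28068), (nat_lit 6934), (nat_lit 9784), (nat_lit 0), (nat_lit 47302), (nat_lit 0), (nat_lit 0), [], Pd.none, Pd.none, (nat_lit 0), (nat_lit 1), (nat_lit 0), (nat_lit 0), (nat_lit 3), (nat_lit 0), [], [], [], [],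
 ⟨⟨[(nat_lit 60), (nat_lit 100), (nat_lit 140)], [(nat_lit 0), (nat_lit 609), (nat_lit 2558)], [((nat_lit 0), (nat_lit 0), (nat_lit 0)), ((nat_lit 1000), (nat_lit 905), (nat_lit 238)), ((nat_lit 1000), (nat_lit 904), (nat_lit 760))], ((nat_lit 91), (nat_lit 100), (nat_lit 79))⟩, (nat_lit 4047485), (nat_lit 300), (nat_lit 300), (nat_lit 0), (nat_lit 180472), [(nat_lit 3282000010), (nat_lit 6250000004), (nat_lit 9842000000)], [], [(nat_lit 20567504492), (nat_lit 22223833440), (nat_lit 27180795131), (nat_lit 29087826892), (nat_lit 17152932515), (nat_lit 18579680990), (nat_lit 30400171103), (nat_lit 27279456796)], (nat_lit 1271251), (nat_lit 1271251), (nat_lit 780000), (nat_lit 2090001), (nat_lit 0), (nat_lit 780000), [(nat_lit 780000), (nat_lit 1435001), (nat_lit 1271251)], [(nat_lit 11), (nat_lit 55), (nat_lit 317), (nat_lit 100), (nat_lit 9)]⟩,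
 ⟨⟨[(nat_lit 60), (nat_lit 120), (nat_lit 160)], [(nat_lit 0), (nat_lit 0), (nat_lit 3243)], [((nat_lit 0), (nat_lit 0), (nat_lit 0)), ((nat_lit 0), (nat_lit 0), (nat_lit 0)), ((nat_lit 878), (nat_lit 1000), (nat_lit 945))], ((nat_lit 100), (nat_lit 99), (nat_lit 82))⟩, (nat_lit 2774859), (nat_lit 384), (nat_lit 384), (nat_lit 0), (nat_lit 231845), [(nat_lit 3282000000), (nat_lit 7968000000), (nat_lit 11872000000)], [], [(nat_lit 35969254560), (nat_lit 31768752759), (nat_lit 32602138296), (nat_lit 34853501920), (nat_lit 23027800652), (nat_lit 25518138496), (nat_lit 38902812756), (nat_lit 30208285616)], (nat_lit 1271251), (nat_lit 1271251), (nat_lit 780000), (nat_lit 2090001), (nat_lit 0), (nat_lit 1412501), [(nat_lit 780000), (nat_lit 1762501), (nat_lit 1271251)], [(nat_lit 12), (nat_lit 59), (nat_lit 428), (nat_lit 200), (nat_lit 11)]⟩,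
 Rw.none⟩)) (.spl (nat_lit 1) (nat_lit 280) (.dle (nat_lit 0)) (.spl (nat_lit 1) (nat_lit 300) (.spl (nat_lit 6) (nat_lit 48) (.leaf ⟨(nat_lit 0), (nat_lit 772), (nat_lit 0), (nat_lit 228), (nat_lit 15399), (nat_lit 5424), (nat_lit 6916), (nat_lit 2781), (nat_lit 0), (nat_lit 0), (nat_lit 0), [], Pd.none, Pd.none, (nat_lit 0), (nat_lit 1), (nat_lit 0), (nat_lit 0), (nat_lit 5), (nat_lit 0), [], [⟨(nat_lit 0), (nat_lit 100), (nat_lit 84), (nat_lit 42), (nat_lit 259646464)⟩], [⟨(nat_lit 1), (nat_lit 59), (nat_lit 90), (nat_lit 100), (nat_lit 298049040)⟩], [],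
 ⟨⟨[(nat_lit 60), (nat_lit 100), (nat_lit 120)], [(nat_lit 0), (nat_lit 609), (nat_lit 1609)], [((nat_lit 0), (nat_lit 0), (nat_lit 0)), ((nat_lit 1000), (nat_lit 905), (nat_lit 238)), ((nat_lit 1000), (nat_lit 882), (nat_lit 668))], ((nat_lit 88), (nat_lit 100), (nat_lit 66))⟩, (nat_lit 3702164), (nat_lit 184), (nat_lit 184), (nat_lit 0), (nat_lit 59275), [(nat_lit 3282000077), (nat_lit 6250000037), (nat_lit 7968000000)], [], [(nat_lit 19823702273), (nat_lit 21484124414), (nat_lit 25650217137), (nat_lit 26962484817), (nat_lit 17753109572), (nat_lit 19224433110), (nat_lit 22876560224), (nat_lit 23932829326)], (nat_lit 1271251), (nat_lit 1271251), (nat_lit 780000), (nat_lit 2090001), (nat_lit 0), (nat_lit 780000), [(nat_lit 780000), (nat_lit 1435001), (nat_lit 1271251)], [(nat_lit 10), (nat_lit 54), (nat_lit 317), (nat_lit 100), (nat_lit 10)]⟩,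
 ⟨⟨[(nat_lit 60), (nat_lit 100), (nat_lit 140)], [(nat_lit 0), (nat_lit 0), (nat_lit 2047)], [((nat_lit 0), (nat_lit 0), (nat_lit 0)), ((nat_lit 0), (nat_lit 0), (nat_lit 0)), ((nat_lit 1000), (nat_lit 993), (nat_lit 781))], ((nat_lit 96), (nat_lit 100), (nat_lit 68))⟩, (nat_lit 2631671), (nat_lit 167), (nat_lit 167), (nat_lit 0), (nat_lit 83687), [(nat_lit 3282000000), (nat_lit 6250000000), (nat_lit 9842000000)], [], [(nat_lit 20575927319), (nat_lit 21909124121), (nat_lit 24506199857), (nat_lit 25439671152), (nat_lit 31726733247), (nat_lit 32403002719), (nat_lit 33190289252), (nat_lit 33925580458)], (nat_lit 1271251), (nat_lit 1271251), (nat_lit 780000), (nat_lit 2090001), (nat_lit 1271251), (nat_lit 1271251), [(nat_lit 780000), (nat_lit 1435001), (nat_lit 1271251)], [(nat_lit 11), (nat_lit 55), (nat_lit 401), (nat_lit 175), (nat_lit 11)]⟩,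
 ⟨⟨[(nat_lit 140), (nat_lit 180), (nat_lit 200)], [(nat_lit 0), (nat_lit 0), (nat_lit 2835)], [((nat_lit 0), (nat_lit 0), (nat_lit 0)), ((nat_lit 0), (nat_lit 0), (nat_lit 0)), ((nat_lit 363), (nat_lit 1000), (nat_lit 798))], ((nat_lit 0), (nat_lit 0), (nat_lit 0))⟩, (nat_lit 62730), (nat_lit 300), (nat_lit 622), (nat_lit 17806803), (nat_lit 314774), [(nat_lit 2243976000), (nat_lit 3205224000), (nat_lit 3739200000)], [], [(nat_lit 15937699260), (nat_lit 15070530153), (nat_lit 13633613031), (nat_lit 12809696288), (nat_lit 15755565588), (nat_lit 14836658370), (nat_lit 13409213610), (nat_lit 12429836741)], (nat_lit 780000), (nat_lit 1598751), (nat_lit 0), (nat_lit 780000), (nat_lit 1271251), (nat_lit 1271251), [(nat_lit 1977501), (nat_lit 1271251), (nat_lit 1271251)], [(nat_lit 32), (nat_lit 67), (nat_lit 428), (nat_lit 200), (nat_lit 9)]⟩⟩) (.dle (nat_lit 0))) (.trX (nat_lit 5) (nat_lit 1) (nat_lit 2) (nat_lit 87) (nat_lit 41) (nat_lit 100) (nat_lit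 390) (.leaf ⟨(nat_lit 0), (nat_lit 884), (nat_lit 0), (nat_lit 116), (nat_lit 25076), (nat_lit 6934), (nat_lit 5723), (nat_lit 1435), (nat_lit 2696065370045), (nat_lit 0), (nat_lit 0), [], Pd.none, Pd.none, (nat_lit 0), (nat_lit 1), (nat_lit 0), (nat_lit 0), (nat_lit 5), (nat_lit 0), [⟨(nat_lit 0), (nat_lit 83), (nat_lit 83), (nat_lit 100), (nat_lit 107840743)⟩], [⟨(nat_lit 0), (nat_lit 100), (nat_lit 84), (nat_lit 42), (nat_lit 183661286)⟩], [⟨(nat_lit 1), (nat_lit 68), (nat_lit 84), (nat_lit 100), (nat_lit 415664020)⟩], [],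
 ⟨⟨[(nat_lit 60), (nat_lit 100), (nat_lit 140)], [(nat_lit 0), (nat_lit 609), (nat_lit 2558)], [((nat_lit 0), (nat_lit 0), (nat_lit 0)), ((nat_lit 1000), (nat_lit 905), (nat_lit 238)), ((nat_lit 1000), (nat_lit 904), (nat_lit 760))], ((nat_lit 91), (nat_lit 100), (nat_lit 79))⟩, (nat_lit 4047485), (nat_lit 300), (nat_lit 300), (nat_lit 0), (nat_lit 180472), [(nat_lit 3282000149), (nat_lit 6250000023), (nat_lit 9842000000)], [], [(nat_lit 20567504530), (nat_lit 22223833440), (nat_lit 27180795131), (nat_lit 29087826892), (nat_lit 17152932692), (nat_lit 18579681028), (nat_lit 30400171280), (nat_lit 27279456973)], (nat_lit 1271251), (nat_lit 1271251), (nat_lit 780000), (nat_lit 2090001), (nat_lit 0), (nat_lit 780000), [(nat_lit 780000), (nat_lit 1435001), (nat_lit 1271251)], [(nat_lit 11), (nat_lit 55), (nat_lit 317), (nat_lit 100), (nat_lit 9)]⟩,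
 ⟨⟨[(nat_lit 60), (nat_lit 100), (nat_lit 140)], [(nat_lit 0), (nat_lit 609), (nat_lit 2558)], [((nat_lit 0), (nat_lit 0), (nat_lit 0)), ((nat_lit 1000), (nat_lit 905), (nat_lit 238)), ((nat_lit 1000), (nat_lit 904), (nat_lit 760))], ((nat_lit 91), (nat_lit 100), (nat_lit 79))⟩, (nat_lit 2750379), (nat_lit 208), (nat_lit 208), (nat_lit 0), (nat_lit 222105), [(nat_lit 3282000000), (nat_lit 6250000000), (nat_lit 9842000000)], [], [(nat_lit 21247703078), (nat_lit 22328967858), (nat_lit 24693366579), (nat_lit 25557687120), (nat_lit 30156513204), (nat_lit 30831244288), (nat_lit 31934801057), (nat_lit 32666483035)], (nat_lit 1271251), (nat_lit 1271251), (nat_lit 780000), (nat_lit 2090001), (nat_lit 1271251), (nat_lit 1271251), [(nat_lit 780000), (nat_lit 1435001), (nat_lit 1271251)], [(nat_lit 11), (nat_lit 55), (nat_lit 401), (nat_lit 175), (nat_lit 11)]⟩,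
 ⟨⟨[(nat_lit 140), (nat_lit 180), (nat_lit 200)], [(nat_lit 0), (nat_lit 0), (nat_lit 2835)], [((nat_lit 0), (nat_lit 0), (nat_lit 0)), ((nat_lit 0), (nat_lit 0), (nat_lit 0)), ((nat_lit 363), (nat_lit 1000), (nat_lit 798))], ((nat_lit 0), (nat_lit 0), (nat_lit 0))⟩, (nat_lit 31915), (nat_lit 300), (nat_lit 912), (nat_lit 9059605), (nat_lit 963818), [(nat_lit 1141672000), (nat_lit 1630728000), (nat_lit 1902400000)], [], [(nat_lit 8135933730), (nat_lit 7637261079), (nat_lit 7027451240), (nat_lit 6538202846), (nat_lit 7975424957), (nat_lit 7508518560), (nat_lit 6764437068), (nat_lit 6261833719)], (nat_lit 780000), (nat_lit 1598751), (nat_lit 0), (nat_lit 780000), (nat_lit 1271251), (nat_lit 1271251), [(nat_lit 1977501), (nat_lit 1271251), (nat_lit 1271251)], [(nat_lit 32), (nat_lit 67), (nat_lit 428), (nat_lit 200), (nat_lit 9)]⟩⟩))))) (.dle (nat_lit 0))) (.trZ (nat_lit 0) (nat_lit 2) (nat_lit 4) (nat_lit 100) (nat_lit 87) (nat_lit 59) (nat_lit 30)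 (.spl (nat_lit 1) (nat_lit 280) (.ord (.dle (nat_lit 0))) (.trZ (nat_lit 1) (nat_lit 2) (nat_lit 5) (nat_lit 100) (nat_lit 92) (nat_lit 49) (nat_lit 20) (.spl (nat_lit 1) (nat_lit 300) (.ord (.spl (nat_lit 6) (nat_lit 56) (.leaf ⟨(nat_lit 0), (nat_lit 576), (nat_lit 0), (nat_lit 424), (nat_lit 36328), (nat_lit 7118), (nat_lit 5983), (nat_lit 4444), (nat_lit 0), (nat_lit 1192797), (nat_lit 0), [], Pd.none, Pd.none, (nat_lit 0), (nat_lit 1), (nat_lit 0), (nat_lit 0), (nat_lit 5), (nat_lit 0), [], [⟨(nat_lit 0), (nat_lit 100), (nat_lit 88), (nat_lit 81), (nat_lit 723346469)⟩], [⟨(nat_lit 0), (nat_lit 100), (nat_lit 94), (nat_lit 73), (nat_lit 214372)⟩], [],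
 ⟨⟨[(nat_lit 60), (nat_lit 100), (nat_lit 140)], [(nat_lit 0), (nat_lit 609), (nat_lit 2558)], [((nat_lit 0), (nat_lit 0), (nat_lit 0)), ((nat_lit 1000), (nat_lit 905), (nat_lit 238)), ((nat_lit 1000), (nat_lit 904), (nat_lit 760))], ((nat_lit 89), (nat_lit 100), (nat_lit 72))⟩, (nat_lit 4185471), (nat_lit 198), (nat_lit 198), (nat_lit 0), (nat_lit 108756), [(nat_lit 3860231074), (nat_lit 6250001654), (nat_lit 9842000000)], [], [(nat_lit 18418112473), (nat_lit 20141462735), (nat_lit 25245011283), (nat_lit 27153044828), (nat_lit 15345011738), (nat_lit 16916023913), (nat_lit 21318287363), (nat_lit 23072896034)], (nat_lit 1271251), (nat_lit 1271251), (nat_lit 780000), (nat_lit 2090001), (nat_lit 169688), (nat_lit 780000), [(nat_lit 780000), (nat_lit 1435001), (nat_lit 1271251)], [(nat_lit 11), (nat_lit 55), (nat_lit 317), (nat_lit 100), (nat_lit 9)]⟩,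
 ⟨⟨[(nat_lit 60), (nat_lit 100), (nat_lit 140)], [(nat_lit 0), (nat_lit 0), (nat_lit 2047)], [((nat_lit 0), (nat_lit 0), (nat_lit 0)), ((nat_lit 0), (nat_lit 0), (nat_lit 0)), ((nat_lit 1000), (nat_lit 993), (nat_lit 781))], ((nat_lit 98), (nat_lit 100), (nat_lit 74))⟩, (nat_lit 0), (nat_lit 224), (nat_lit 224), (nat_lit 0), (nat_lit 186886), [(nat_lit 3282000000), (nat_lit 6250000000), (nat_lit 9842000000)], [], [(nat_lit 35606609815), (nat_lit 33253642136), (nat_lit 35920728731), (nat_lit 36791463020), (nat_lit 38996394094), (nat_lit 39511412216), (nat_lit 51518835172), (nat_lit 48958535965)], (nat_lit 1271251), (nat_lit 1271251), (nat_lit 780000), (nat_lit 2090001), (nat_lit 111251), (nat_lit 2866250), [(nat_lit 780000), (nat_lit 1435001), (nat_lit 1271251)], [(nat_lit 11), (nat_lit 55), (nat_lit 401), (nat_lit 175), (nat_lit 11)]⟩,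
 ⟨⟨[(nat_lit 100), (nat_lit 140), (nat_lit 180)], [(nat_lit 0), (nat_lit 508), (nat_lit 2854)], [((nat_lit 0), (nat_lit 0), (nat_lit 0)), ((nat_lit 1000), (nat_lit 1000), (nat_lit 198)), ((nat_lit 777), (nat_lit 1000), (nat_lit 712))], ((nat_lit 100), (nat_lit 79), (nat_lit 70))⟩, (nat_lit 270493), (nat_lit 300), (nat_lit 468), (nat_lit 28825697), (nat_lit 134263), [(nat_lit 2650000000), (nat_lit 4173008000), (nat_lit 5960592000)], [], [(nat_lit 23672329040), (nat_lit 24634686023), (nat_lit 21197212197), (nat_lit 21860590360), (nat_lit 25812541625), (nat_lit 22334654950), (nat_lit 28965660064), (nat_lit 21404111850)], (nat_lit 1271251), (nat_lit 1271251), (nat_lit 169688), (nat_lit 780000), (nat_lit 111251), (nat_lit 2866250), [(nat_lit 1412501), (nat_lit 1271251), (nat_lit 1271251)], [(nat_lit 24), (nat_lit 63), (nat_lit 456), (nat_lit 225), (nat_lit 11)]⟩⟩) (.dle (nat_lit 0)))) (.trZ (nat_lit 1) (nat_lit 2) (nat_lit 5) (nat_lit 100) (nat_lit 87)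 (nat_lit 59) (nat_lit 30) (.leaf ⟨(nat_lit 0), (nat_lit 555), (nat_lit 0), (nat_lit 445), (nat_lit 29036), (nat_lit 8056), (nat_lit 5946), (nat_lit 4732), (nat_lit 172558), (nat_lit 21701), (nat_lit 0), [], Pd.none, Pd.none, (nat_lit 0), (nat_lit 1), (nat_lit 0), (nat_lit 0), (nat_lit 5), (nat_lit 0), [], [⟨(nat_lit 0), (nat_lit 100), (nat_lit 89), (nat_lit 86), (nat_lit 840355069)⟩], [⟨(nat_lit 0), (nat_lit 100), (nat_lit 89), (nat_lit 86), (nat_lit 11052440)⟩], [],
 ⟨⟨[(nat_lit 60), (nat_lit 100), (nat_lit 140)], [(nat_lit 0), (nat_lit 609), (nat_lit 2558)], [((nat_lit 0), (nat_lit 0), (nat_lit 0)), ((nat_lit 1000), (nat_lit 905), (nat_lit 238)), ((nat_lit 1000), (nat_lit 904), (nat_lit 760))], ((nat_lit 93), (nat_lit 100), (nat_lit 84))⟩, (nat_lit 3872181), (nat_lit 295), (nat_lit 295), (nat_lit 0), (nat_lit 235520), [(nat_lit 3282000048), (nat_lit 6250000017), (nat_lit 9842000000)], [], [(nat_lit 19284493929), (nat_lit 21145137082), (nat_lit 26375856989),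 (nat_lit 28439522380), (nat_lit 15584889804), (nat_lit 17277635138), (nat_lit 29044598842), (nat_lit 25418917496)], (nat_lit 1271251), (nat_lit 1271251), (nat_lit 780000), (nat_lit 2090001), (nat_lit 169688), (nat_lit 780000), [(nat_lit 780000), (nat_lit 1435001), (nat_lit 1271251)], [(nat_lit 11), (nat_lit 55), (nat_lit 317), (nat_lit 100), (nat_lit 9)]⟩,
 ⟨⟨[(nat_lit 60), (nat_lit 100), (nat_lit 140)], [(nat_lit 0), (nat_lit 609), (nat_lit 2558)], [((nat_lit 0), (nat_lit 0), (nat_lit 0)), ((nat_lit 1000), (nat_lit 905), (nat_lit 238)), ((nat_lit 1000), (nat_lit 904), (nat_lit 760))], ((nat_lit 93), (nat_lit 100), (nat_lit 84))⟩, (nat_lit 1855769), (nat_lit 338), (nat_lit 338), (nat_lit 0), (nat_lit 356276), [(nat_lit 3282000000), (nat_lit 6250000000), (nat_lit 9842000000)], [], [(nat_lit 29744585305), (nat_lit 28192149801), (nat_lit 30552071575), (nat_lit 31414772866), (nat_lit 33681856969), (nat_lit 34196470533), (nat_lit 47148221558), (nat_lit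 44634469787)], (nat_lit 1271251), (nat_lit 1271251), (nat_lit 780000), (nat_lit 2090001), (nat_lit 169688), (nat_lit 2886876), [(nat_lit 780000), (nat_lit 1435001), (nat_lit 1271251)], [(nat_lit 11), (nat_lit 55), (nat_lit 401), (nat_lit 175), (nat_lit 11)]⟩,
 ⟨⟨[(nat_lit 100), (nat_lit 140), (nat_lit 180)], [(nat_lit 0), (nat_lit 508), (nat_lit 2854)], [((nat_lit 0), (nat_lit 0), (nat_lit 0)), ((nat_lit 1000), (nat_lit 1000), (nat_lit 198)), ((nat_lit 777), (nat_lit 1000), (nat_lit 712))], ((nat_lit 100), (nat_lit 70), (nat_lit 79))⟩, (nat_lit 283880), (nat_lit 300), (nat_lit 565), (nat_lit 30253425), (nat_lit 281037), [(nat_lit 2781250000), (nat_lit 4379690000), (nat_lit 6255810000)], [], [(nat_lit 26860147300), (nat_lit 27073535087), (nat_lit 24160440823), (nat_lit 24338810790), (nat_lit 23683020340), (nat_lit 23442986653), (nat_lit 21060421331), (nat_lit 20574216636)], (nat_lit 1271251), (nat_lit 1271251), (nat_lit 169688), (nat_lit 780000), (nat_lit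 169688), (nat_lit 2886876), [(nat_lit 1412501), (nat_lit 1271251), (nat_lit 1271251)], [(nat_lit 24), (nat_lit 63), (nat_lit 456), (nat_lit 225), (nat_lit 11)]⟩⟩))))))) (.trX (nat_lit 5) (nat_lit 3) (nat_lit 4) (nat_lit 100) (nat_lit 80) (nat_lit 100) (nat_lit 340) (.spl (nat_lit 2) (nat_lit 220) (.spl (nat_lit 6) (nat_lit 68) (.spl (nat_lit 1) (nat_lit 280) (.dle (nat_lit 0)) (.leaf ⟨(nat_lit 0), (nat_lit 1000), (nat_lit 0), (nat_lit 0), (nat_lit 10180), (nat_lit 9288), (nat_lit 8095), (nat_lit 0), (nat_lit 3454810729), (nat_lit 0), (nat_lit 0), [], Pd.none, Pd.none, (nat_lit 0), (nat_lit 1), (nat_lit 0), (nat_lit 0), (nat_lit 3), (nat_lit 0), [], [], [], [⟨(nat_lit 1), (nat_lit 100), (nat_lit 71), (nat_lit 71), (nat_lit 215393089)⟩],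
 ⟨⟨[(nat_lit 60), (nat_lit 100), (nat_lit 140)], [(nat_lit 0), (nat_lit 609), (nat_lit 2558)], [((nat_lit 0), (nat_lit 0), (nat_lit 0)), ((nat_lit 1000), (nat_lit 905), (nat_lit 238)), ((nat_lit 1000), (nat_lit 904), (nat_lit 760))], ((nat_lit 91), (nat_lit 100), (nat_lit 79))⟩, (nat_lit 640319), (nat_lit 300), (nat_lit 304), (nat_lit 58600459), (nat_lit 180472), [(nat_lit 3472383935), (nat_lit 6250000163), (nat_lit 9842000000)], [], [(nat_lit 37191994665), (nat_lit 37992112907), (nat_lit 45962011560), (nat_lit 47259251968), (nat_lit 30665068853), (nat_lit 31366450643), (nat_lit 36162453406), (nat_lit 37006374256)], (nat_lit 1271251), (nat_lit 1271251), (nat_lit 1271251), (nat_lit 1271251), (nat_lit 0), (nat_lit 780000), [(nat_lit 780000), (nat_lit 1435001), (nat_lit 1271251)], [(nat_lit 11), (nat_lit 55), (nat_lit 238), (nat_lit 30), (nat_lit 6)]⟩,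
 ⟨⟨[(nat_lit 60), (nat_lit 120), (nat_lit 160)], [(nat_lit 0), (nat_lit 0), (nat_lit 3243)], [((nat_lit 0), (nat_lit 0), (nat_lit 0)), ((nat_lit 0), (nat_lit 0), (nat_lit 0)), ((nat_lit 878), (nat_lit 1000), (nat_lit 945))], ((nat_lit 100), (nat_lit 99), (nat_lit 82))⟩, (nat_lit 1630375), (nat_lit 365), (nat_lit 365), (nat_lit 0), (nat_lit 231845), [(nat_lit 3282000000), (nat_lit 7968000000), (nat_lit 11872000000)], [], [(nat_lit 36375644745), (nat_lit 37944469765), (nat_lit 42602009755), (nat_lit 43922289615), (nat_lit 33129963014), (nat_lit 33821625270), (nat_lit 37161864840), (nat_lit 38360199175)], (nat_lit 1271251), (nat_lit 1271251), (nat_lit 1271251), (nat_lit 1271251), (nat_lit 0), (nat_lit 2401251), [(nat_lit 780000), (nat_lit 1762501), (nat_lit 1271251)], [(nat_lit 12), (nat_lit 59), (nat_lit 538), (nat_lit 300), (nat_lit 13)]⟩,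
 Rw.none⟩)) (.dle (nat_lit 0))) (.trZ (nat_lit 0) (nat_lit 2) (nat_lit 4) (nat_lit 100) (nat_lit 87) (nat_lit 59) (nat_lit 30) (.spl (nat_lit 1) (nat_lit 280) (.ord (.dle (nat_lit 0))) (.trZ (nat_lit 1) (nat_lit 2) (nat_lit 5) (nat_lit 100) (nat_lit 92) (nat_lit 49) (nat_lit 20) (.leaf ⟨(nat_lit 0), (nat_lit 490), (nat_lit 0), (nat_lit 510), (nat_lit 23232), (nat_lit 5938), (nat_lit 7930), (nat_lit 6612), (nat_lit 9327403812316), (nat_lit 4868), (nat_lit 0), [], Pd.none, Pd.none, (nat_lit 0), (nat_lit 1), (nat_lit 0), (nat_lit 0), (nat_lit 5), (nat_lit 0), [], [⟨(nat_lit 0), (nat_lit 100), (nat_lit 89), (nat_lit 86), (nat_lit 742053580)⟩], [⟨(nat_lit 0), (nat_lit 100), (nat_lit 92), (nat_lit 82), (nat_lit 120729556)⟩], [],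
 ⟨⟨[(nat_lit 60), (nat_lit 100), (nat_lit 140)], [(nat_lit 0), (nat_lit 609), (nat_lit 2558)], [((nat_lit 0), (nat_lit 0), (nat_lit 0)), ((nat_lit 1000), (nat_lit 905), (nat_lit 238)), ((nat_lit 1000), (nat_lit 904), (nat_lit 760))], ((nat_lit 93), (nat_lit 100), (nat_lit 84))⟩, (nat_lit 2681365), (nat_lit 299), (nat_lit 299), (nat_lit 0), (nat_lit 235716), [(nat_lit 3282000011), (nat_lit 6250000005), (nat_lit 9842000000)], [], [(nat_lit 27945859863), (nat_lit 28808108641), (nat_lit 34866204058), (nat_lit 35910300855), (nat_lit 25827133319), (nat_lit 26529358478), (nat_lit 31306124680), (nat_lit 31987699056)], (nat_lit 1271251), (nat_lit 1271251), (nat_lit 1271251), (nat_lit 1271251), (nat_lit 169688), (nat_lit 780000), [(nat_lit 780000), (nat_lit 1435001), (nat_lit 1271251)], [(nat_lit 11), (nat_lit 55), (nat_lit 238), (nat_lit 30), (nat_lit 6)]⟩,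
 ⟨⟨[(nat_lit 60), (nat_lit 120), (nat_lit 160)], [(nat_lit 0), (nat_lit 0), (nat_lit 3243)], [((nat_lit 0), (nat_lit 0), (nat_lit 0)), ((nat_lit 0), (nat_lit 0), (nat_lit 0)), ((nat_lit 878), (nat_lit 1000), (nat_lit 945))], ((nat_lit 100), (nat_lit 96), (nat_lit 86))⟩, (nat_lit 1983784), (nat_lit 395), (nat_lit 395), (nat_lit 0), (nat_lit 366364), [(nat_lit 3282000000), (nat_lit 7968000000), (nat_lit 11872000000)], [], [(nat_lit 34167472461), (nat_lit 35703666108), (nat_lit 40399995700), (nat_lit 41613242610), (nat_lit 33174287718), (nat_lit 34131791455), (nat_lit 37063470985), (nat_lit 38153806450)], (nat_lit 1271251), (nat_lit 1271251), (nat_lit 1271251), (nat_lit 1271251), (nat_lit 111251), (nat_lit 2431251), [(nat_lit 780000), (nat_lit 1762501), (nat_lit 1271251)], [(nat_lit 12), (nat_lit 59), (nat_lit 538), (nat_lit 300), (nat_lit 13)]⟩,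
 ⟨⟨[(nat_lit 100), (nat_lit 140), (nat_lit 180)], [(nat_lit 0), (nat_lit 508), (nat_lit 2854)], [((nat_lit 0), (nat_lit 0), (nat_lit 0)), ((nat_lit 1000), (nat_lit 1000), (nat_lit 198)), ((nat_lit 777), (nat_lit 1000), (nat_lit 712))], ((nat_lit 100), (nat_lit 70), (nat_lit 79))⟩, (nat_lit 325346), (nat_lit 300), (nat_lit 574), (nat_lit 34672459), (nat_lit 281037), [(nat_lit 3187500000), (nat_lit 5019420000), (nat_lit 7169580000)], [], [(nat_lit 30280211593), (nat_lit 30733441744), (nat_lit 26369346333), (nat_lit 26407243626), (nat_lit 28746784137), (nat_lit 25096893634), (nat_lit 32893108155), (nat_lit 20987174952)], (nat_lit 1271251), (nat_lit 1271251), (nat_lit 169688), (nat_lit 780000), (nat_lit 111251), (nat_lit 2431251), [(nat_lit 1412501), (nat_lit 1271251), (nat_lit 1271251)], [(nat_lit 24), (nat_lit 63), (nat_lit 428), (nat_lit 200), (nat_lit 10)]⟩⟩)))))))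
noncomputable def c4_15 : Tr Lf :=
 (.spl (nat_lit 1) (nat_lit 280) (.spl (nat_lit 2) (nat_lit 180) (.spl (nat_lit 4) (nat_lit 200) (.spl (nat_lit 1) (nat_lit 260) (.leaf ⟨(nat_lit 935), (nat_lit 38), (nat_lit 0), (nat_lit 27), (nat_lit 2848), (nat_lit 4601), (nat_lit 204), (nat_lit 736), (nat_lit 0), (nat_lit 0), (nat_lit 935000), [((nat_lit 320), [((nat_lit 15), (nat_lit 2), (nat_lit 935))])], ⟨(nat_lit 6), false, false, false, (nat_lit 141), (nat_lit 4472), (nat_lit 5000), [(nat_lit 1274989), (nat_lit 1288204), (nat_lit 1296408), (nat_lit 1309761), (nat_lit 1399984), (nat_lit 1407160), (nat_lit 1421400), (nat_lit 1428715)]⟩, ⟨(nat_lit 3), true, false, true, (nat_lit 151), (nat_lit 4472), (nat_lit 5000), [(nat_lit 1271427), (nat_lit 1277776), (nat_lit 1335713), (nat_lit 1342476), (nat_lit 1414284), (nat_lit 1413733), (nat_lit 1478570), (nat_lit 1478432)]⟩, (nat_lit 3857430), (nat_lit 50772466), (nat_lit 7712901), (nat_lit 8514633), (nat_lit 3),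 (nat_lit 0), [⟨(nat_lit 0), (nat_lit 100), (nat_lit 86), (nat_lit 77), (nat_lit 196078985)⟩], [], [], [],
 ⟨⟨[(nat_lit 60), (nat_lit 80), (nat_lit 100)], [(nat_lit 0), (nat_lit 304), (nat_lit 825)], [((nat_lit 0), (nat_lit 0), (nat_lit 0)), ((nat_lit 1000), (nat_lit 905), (nat_lit 238)), ((nat_lit 1000), (nat_lit 871), (nat_lit 407))], ((nat_lit 87), (nat_lit 100), (nat_lit 44))⟩, (nat_lit 631258), (nat_lit 169), (nat_lit 169), (nat_lit 0), (nat_lit 186852), [(nat_lit 2058371736), (nat_lit 1896921304), (nat_lit 1094410000)], [(nat_lit 0), (nat_lit 0), (nat_lit 0)], [(nat_lit 14811811088), (nat_lit 16548229178), (nat_lit 14595450296), (nat_lit 15943555714), (nat_lit 16734842165), (nat_lit 18542705496), (nat_lit 16398098258), (nat_lit 17665672300)], (nat_lit 1271251), (nat_lit 1271251), (nat_lit 292188), (nat_lit 780000), (nat_lit 780000), (nat_lit 1435001), [(nat_lit 780000), (nat_lit 1100000), (nat_lit 1442501)], [(nat_lit 9), (nat_lit 50), (nat_lit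 317), (nat_lit 100), (nat_lit 12)]⟩,
 ⟨⟨[(nat_lit 80), (nat_lit 120), (nat_lit 140)], [(nat_lit 0), (nat_lit 0), (nat_lit 1164)], [((nat_lit 0), (nat_lit 0), (nat_lit 0)), ((nat_lit 0), (nat_lit 0), (nat_lit 0)), ((nat_lit 941), (nat_lit 1000), (nat_lit 576))], ((nat_lit 100), (nat_lit 99), (nat_lit 44))⟩, (nat_lit 193569), (nat_lit 363), (nat_lit 363), (nat_lit 0), (nat_lit 254050), [(nat_lit 304720000), (nat_lit 517920000), (nat_lit 639730000)], [], [(nat_lit 2599113874), (nat_lit 2492092343), (nat_lit 2447652418), (nat_lit 2500770755), (nat_lit 3231160630), (nat_lit 3141953623), (nat_lit 3443400532), (nat_lit 3356103016)], (nat_lit 1271251), (nat_lit 1271251), (nat_lit 292188), (nat_lit 780000), (nat_lit 0), (nat_lit 2825001), [(nat_lit 1100000), (nat_lit 1785001), (nat_lit 1271251)], [(nat_lit 17), (nat_lit 58), (nat_lit 428), (nat_lit 200), (nat_lit 13)]⟩,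
 ⟨⟨[(nat_lit 140), (nat_lit 160), (nat_lit 180)], [(nat_lit 0), (nat_lit 0), (nat_lit 799)], [((nat_lit 0), (nat_lit 0), (nat_lit 0)), ((nat_lit 0), (nat_lit 0), (nat_lit 0)), ((nat_lit 728), (nat_lit 1000), (nat_lit 454))], ((nat_lit 100), (nat_lit 71), (nat_lit 48))⟩, (nat_lit 23722), (nat_lit 300), (nat_lit 392), (nat_lit 2003401), (nat_lit 0), [(nat_lit 265734000), (nat_lit 320544000), (nat_lit 379566000)], [], [(nat_lit 1572215958), (nat_lit 1461503728), (nat_lit 1419991852), (nat_lit 1301257568), (nat_lit 1507819380), (nat_lit 1431337415), (nat_lit 1399867198), (nat_lit 1315169327)], (nat_lit 0), (nat_lit 0), (nat_lit 0), (nat_lit 0), (nat_lit 0), (nat_lit 0), [], [(nat_lit 31), (nat_lit 65), (nat_lit 428), (nat_lit 200), (nat_lit 10)]⟩⟩) (.trZ (nat_lit 0) (nat_lit 1) (nat_lit 3) (nat_lit 100) (nat_lit 91) (nat_lit 77) (nat_lit 60) (.trX (nat_lit 5) (nat_lit 1) (nat_lit 2) (nat_lit 96) (nat_lit 40) (nat_lit 100) (nat_lit 390) (.leaf ⟨(nat_lit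 620), (nat_lit 240), (nat_lit 0), (nat_lit 140), (nat_lit 338), (nat_lit 5391), (nat_lit 4301), (nat_lit 2022), (nat_lit 0), (nat_lit 0), (nat_lit 1268000), [((nat_lit 320), [((nat_lit 15), (nat_lit 2), (nat_lit 404)), ((nat_lit 35), (nat_lit 5), (nat_lit 216))])], ⟨(nat_lit 6), false, false, false, (nat_lit 153), (nat_lit 4472), (nat_lit 5000), [(nat_lit 1314264), (nat_lit 1326754), (nat_lit 1335680), (nat_lit 1348308), (nat_lit 1421400), (nat_lit 1428715), (nat_lit 1442816), (nat_lit 1450269)]⟩, ⟨(nat_lit 3), true, false, true, (nat_lit 151), (nat_lit 4472), (nat_lit 5000), [(nat_lit 1271427), (nat_lit 1277776), (nat_lit 1335713), (nat_lit 1342476), (nat_lit 1414284), (nat_lit 1413733), (nat_lit 1478570), (nat_lit 1478432)]⟩, (nat_lit 4001214), (nat_lit 49808662), (nat_lit 8718492), (nat_lit 8472846), (nat_lit 3), (nat_lit 0), [⟨(nat_lit 0), (nat_lit 100), (nat_lit 89), (nat_lit 86), (nat_lit 170117395)⟩, ⟨(nat_lit 0), (nat_lit 100), (nat_lit 91),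 (nat_lit 77), (nat_lit 2207389)⟩], [], [], [],
 ⟨⟨[(nat_lit 60), (nat_lit 80), (nat_lit 100)], [(nat_lit 0), (nat_lit 304), (nat_lit 825)], [((nat_lit 0), (nat_lit 0), (nat_lit 0)), ((nat_lit 1000), (nat_lit 905), (nat_lit 238)), ((nat_lit 1000), (nat_lit 871), (nat_lit 407))], ((nat_lit 87), (nat_lit 100), (nat_lit 44))⟩, (nat_lit 0), (nat_lit 168), (nat_lit 168), (nat_lit 0), (nat_lit 244158), [(nat_lit 2461156945), (nat_lit 2300222174), (nat_lit 1129758400)], [(nat_lit 0), (nat_lit 0), (nat_lit 0)], [(nat_lit 14419302937), (nat_lit 16628779771), (nat_lit 14126296458), (nat_lit 15795902703), (nat_lit 16641933921), (nat_lit 18612128458), (nat_lit 15926653285), (nat_lit 17767545787)], (nat_lit 1271251), (nat_lit 1271251), (nat_lit 356250), (nat_lit 780000), (nat_lit 780000), (nat_lit 1435001), [(nat_lit 780000), (nat_lit 1100000), (nat_lit 1442501)], [(nat_lit 9), (nat_lit 50), (nat_lit 317), (nat_lit 100), (nat_lit 12)]⟩,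
 ⟨⟨[(nat_lit 80), (nat_lit 100), (nat_lit 120)], [(nat_lit 0), (nat_lit 265), (nat_lit 768)], [((nat_lit 0), (nat_lit 0), (nat_lit 0)), ((nat_lit 1000), (nat_lit 959), (nat_lit 206)), ((nat_lit 1000), (nat_lit 958), (nat_lit 392))], ((nat_lit 96), (nat_lit 100), (nat_lit 44))⟩, (nat_lit 0), (nat_lit 299), (nat_lit 299), (nat_lit 0), (nat_lit 297626), [(nat_lit 1781440000), (nat_lit 2375000000), (nat_lit 3027840000)], [], [(nat_lit 10520503425), (nat_lit 10176029740), (nat_lit 8045924651), (nat_lit 9081426246), (nat_lit 17617864828), (nat_lit 15737002717), (nat_lit 19932216647), (nat_lit 18085921538)], (nat_lit 1271251), (nat_lit 1271251), (nat_lit 356250), (nat_lit 780000), (nat_lit 0), (nat_lit 2754376), [(nat_lit 1100000), (nat_lit 1442501), (nat_lit 1271251)], [(nat_lit 16), (nat_lit 54), (nat_lit 373), (nat_lit 150), (nat_lit 13)]⟩,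
 ⟨⟨[(nat_lit 140), (nat_lit 160), (nat_lit 180)], [(nat_lit 0), (nat_lit 0), (nat_lit 799)], [((nat_lit 0), (nat_lit 0), (nat_lit 0)), ((nat_lit 0), (nat_lit 0), (nat_lit 0)), ((nat_lit 728), (nat_lit 1000), (nat_lit 454))], ((nat_lit 100), (nat_lit 71), (nat_lit 48))⟩, (nat_lit 123004), (nat_lit 300), (nat_lit 392), (nat_lit 10388000), (nat_lit 0), [(nat_lit 1377880000), (nat_lit 1662080000), (nat_lit 1968120000)], [], [(nat_lit 7712049371), (nat_lit 7489925706), (nat_lit 7402841940), (nat_lit 7155580428), (nat_lit 6613598367), (nat_lit 6234868147), (nat_lit 6099265103), (nat_lit 5716873055)], (nat_lit 0), (nat_lit 0), (nat_lit 0), (nat_lit 0), (nat_lit 0), (nat_lit 0), [], [(nat_lit 31), (nat_lit 65), (nat_lit 428), (nat_lit 200), (nat_lit 10)]⟩⟩)))) (.trX (nat_lit 5) (nat_lit 4) (nat_lit 3) (nat_lit 100) (nat_lit 40) (nat_lit 92) (nat_lit 390) (.spl (nat_lit 1) (nat_lit 260) (.leaf ⟨(nat_lit 880), (nat_lit 0), (nat_lit 35), (nat_lit 85), (nat_lit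 1709), (nat_lit 4542), (nat_lit 269), (nat_lit 2191), (nat_lit 0), (nat_lit 0), (nat_lit 880000), [((nat_lit 320), [((nat_lit 15), (nat_lit 2), (nat_lit 880))])], ⟨(nat_lit 6), false, false, false, (nat_lit 141), (nat_lit 4472), (nat_lit 5000), [(nat_lit 1274989), (nat_lit 1288204), (nat_lit 1296408), (nat_lit 1309761), (nat_lit 1399984), (nat_lit 1407160), (nat_lit 1421400), (nat_lit 1428715)]⟩, ⟨(nat_lit 5), true, false, true, (nat_lit 192), (nat_lit 4472), (nat_lit 5000), [(nat_lit 1414284), (nat_lit 1413733), (nat_lit 1478570), (nat_lit 1478432), (nat_lit 1485713), (nat_lit 1481711), (nat_lit 1549999), (nat_lit 1546410)]⟩, (nat_lit 4298065), (nat_lit 47248905), (nat_lit 7533340), (nat_lit 12217755), (nat_lit 0), (nat_lit 6), [⟨(nat_lit 0), (nat_lit 100), (nat_lit 86), (nat_lit 77), (nat_lit 216593129)⟩], [], [], [],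
 ⟨⟨[(nat_lit 60), (nat_lit 80), (nat_lit 100)], [(nat_lit 0), (nat_lit 304), (nat_lit 825)], [((nat_lit 0), (nat_lit 0), (nat_lit 0)), ((nat_lit 1000), (nat_lit 905), (nat_lit 238)), ((nat_lit 1000), (nat_lit 871), (nat_lit 407))], ((nat_lit 87), (nat_lit 100), (nat_lit 44))⟩, (nat_lit 682466), (nat_lit 132), (nat_lit 132), (nat_lit 0), (nat_lit 186852), [(nat_lit 2123467205), (nat_lit 2058808122), (nat_lit 1397680000)], [(nat_lit 0), (nat_lit 0), (nat_lit 0)], [(nat_lit 17147426880), (nat_lit 18498461632), (nat_lit 16832890894), (nat_lit 18003045723), (nat_lit 18545771317), (nat_lit 20186317330), (nat_lit 18133987707), (nat_lit 19292754639)], (nat_lit 1271251), (nat_lit 1271251), (nat_lit 292188), (nat_lit 780000), (nat_lit 1271251), (nat_lit 1271251), [(nat_lit 780000), (nat_lit 1100000), (nat_lit 1442501)], [(nat_lit 9), (nat_lit 50), (nat_lit 238), (nat_lit 30), (nat_lit 8)]⟩,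
 ⟨⟨[(nat_lit 80), (nat_lit 120), (nat_lit 140)], [(nat_lit 0), (nat_lit 0), (nat_lit 1164)], [((nat_lit 0), (nat_lit 0), (nat_lit 0)), ((nat_lit 0), (nat_lit 0), (nat_lit 0)), ((nat_lit 941), (nat_lit 1000), (nat_lit 576))], ((nat_lit 100), (nat_lit 99), (nat_lit 44))⟩, (nat_lit 249143), (nat_lit 363), (nat_lit 363), (nat_lit 0), (nat_lit 254050), [(nat_lit 398480000), (nat_lit 677280000), (nat_lit 836570000)], [], [(nat_lit 3404051502), (nat_lit 3261236544), (nat_lit 3197818854), (nat_lit 3265830128), (nat_lit 4186249299), (nat_lit 4068240541), (nat_lit 4463401119), (nat_lit 4347927187)], (nat_lit 1271251), (nat_lit 1271251), (nat_lit 292188), (nat_lit 780000), (nat_lit 0), (nat_lit 2754376), [(nat_lit 1100000), (nat_lit 1785001), (nat_lit 1271251)], [(nat_lit 17), (nat_lit 58), (nat_lit 428), (nat_lit 200), (nat_lit 13)]⟩,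
 ⟨⟨[(nat_lit 140), (nat_lit 160), (nat_lit 180)], [(nat_lit 0), (nat_lit 0), (nat_lit 799)], [((nat_lit 0), (nat_lit 0), (nat_lit 0)), ((nat_lit 0), (nat_lit 0), (nat_lit 0)), ((nat_lit 728), (nat_lit 1000), (nat_lit 454))], ((nat_lit 100), (nat_lit 71), (nat_lit 48))⟩, (nat_lit 105432), (nat_lit 300), (nat_lit 301), (nat_lit 8904000), (nat_lit 0), [(nat_lit 1181040000), (nat_lit 1424640000), (nat_lit 1686960000)], [], [(nat_lit 5497176667), (nat_lit 5300887920), (nat_lit 5569803702), (nat_lit 5341646669), (nat_lit 5223487394), (nat_lit 4866788616), (nat_lit 5147383392), (nat_lit 4772117170)], (nat_lit 0), (nat_lit 0), (nat_lit 0), (nat_lit 0), (nat_lit 0), (nat_lit 0), [], [(nat_lit 31), (nat_lit 65), (nat_lit 456), (nat_lit 225), (nat_lit 11)]⟩⟩) (.trZ (nat_lit 0) (nat_lit 1) (nat_lit 3) (nat_lit 100) (nat_lit 91) (nat_lit 77) (nat_lit 60) (.leaf ⟨(nat_lit 0), (nat_lit 437), (nat_lit 0), (nat_lit 563), (nat_lit 0), (nat_lit 7091), (nat_lit 9358),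 (nat_lit 6962), (nat_lit 0), (nat_lit 0), (nat_lit 0), [], Pd.none, Pd.none, (nat_lit 0), (nat_lit 1), (nat_lit 0), (nat_lit 0), (nat_lit 5), (nat_lit 0), [⟨(nat_lit 0), (nat_lit 100), (nat_lit 91), (nat_lit 77), (nat_lit 1463718948)⟩], [], [], [],
 ⟨⟨[(nat_lit 60), (nat_lit 80), (nat_lit 100)], [(nat_lit 0), (nat_lit 304), (nat_lit 825)], [((nat_lit 0), (nat_lit 0), (nat_lit 0)), ((nat_lit 1000), (nat_lit 905), (nat_lit 238)), ((nat_lit 1000), (nat_lit 871), (nat_lit 407))], ((nat_lit 87), (nat_lit 100), (nat_lit 44))⟩, (nat_lit 3716028), (nat_lit 143), (nat_lit 143), (nat_lit 0), (nat_lit 244158), [(nat_lit 3589171720), (nat_lit 5037598432), (nat_lit 6250000000)], [], [(nat_lit 17330892371), (nat_lit 19672313058), (nat_lit 16302394382), (nat_lit 18159492687), (nat_lit 19497508993), (nat_lit 21620047286), (nat_lit 18033805551), (nat_lit 20012352876)], (nat_lit 1271251), (nat_lit 1271251), (nat_lit 356250), (nat_lit 780000), (nat_lit 1271251), (nat_lit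 1271251), [(nat_lit 780000), (nat_lit 1100000), (nat_lit 1442501)], [(nat_lit 9), (nat_lit 50), (nat_lit 238), (nat_lit 30), (nat_lit 8)]⟩,
 ⟨⟨[(nat_lit 80), (nat_lit 100), (nat_lit 120)], [(nat_lit 0), (nat_lit 265), (nat_lit 768)], [((nat_lit 0), (nat_lit 0), (nat_lit 0)), ((nat_lit 1000), (nat_lit 959), (nat_lit 206)), ((nat_lit 1000), (nat_lit 958), (nat_lit 392))], ((nat_lit 96), (nat_lit 100), (nat_lit 44))⟩, (nat_lit 0), (nat_lit 299), (nat_lit 299), (nat_lit 0), (nat_lit 297626), [(nat_lit 4688000000), (nat_lit 6250000000), (nat_lit 7968000000)], [], [(nat_lit 28790332082), (nat_lit 26819644571), (nat_lit 23264479999), (nat_lit 25068884554), (nat_lit 46773777926), (nat_lit 42681448785), (nat_lit 52102866863), (nat_lit 48085747675)], (nat_lit 1271251), (nat_lit 1271251), (nat_lit 356250), (nat_lit 780000), (nat_lit 0), (nat_lit 2754376), [(nat_lit 1100000), (nat_lit 1442501), (nat_lit 1271251)], [(nat_lit 16), (nat_lit 54), (nat_lit 373), (nat_lit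 150), (nat_lit 13)]⟩,
 ⟨⟨[(nat_lit 140), (nat_lit 160), (nat_lit 180)], [(nat_lit 0), (nat_lit 0), (nat_lit 799)], [((nat_lit 0), (nat_lit 0), (nat_lit 0)), ((nat_lit 0), (nat_lit 0), (nat_lit 0)), ((nat_lit 728), (nat_lit 1000), (nat_lit 454))], ((nat_lit 100), (nat_lit 71), (nat_lit 48))⟩, (nat_lit 494651), (nat_lit 300), (nat_lit 301), (nat_lit 41774600), (nat_lit 0), [(nat_lit 5541046000), (nat_lit 6683936000), (nat_lit 7914654000)], [], [(nat_lit 25806244329), (nat_lit 25419703883), (nat_lit 26213502656), (nat_lit 25719625580), (nat_lit 24220995484), (nat_lit 23124190972), (nat_lit 23911420731), (nat_lit 22925622304)], (nat_lit 0), (nat_lit 0), (nat_lit 0), (nat_lit 0), (nat_lit 0), (nat_lit 0), [], [(nat_lit 31), (nat_lit 65), (nat_lit 456), (nat_lit 225), (nat_lit 11)]⟩⟩))))) (.leaf ⟨(nat_lit 0), (nat_lit 0), (nat_lit 370), (nat_lit 630), (nat_lit 41148), (nat_lit 6217), (nat_lit 1623), (nat_lit 17391), (nat_lit 0), (nat_lit 0), (nat_lit 0),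 [], Pd.none, Pd.none, (nat_lit 0), (nat_lit 1), (nat_lit 0), (nat_lit 0), (nat_lit 0), (nat_lit 6), [⟨(nat_lit 0), (nat_lit 100), (nat_lit 88), (nat_lit 81), (nat_lit 864969556)⟩], [], [], [],
 ⟨⟨[(nat_lit 60), (nat_lit 80), (nat_lit 100)], [(nat_lit 0), (nat_lit 304), (nat_lit 825)], [((nat_lit 0), (nat_lit 0), (nat_lit 0)), ((nat_lit 1000), (nat_lit 905), (nat_lit 238)), ((nat_lit 1000), (nat_lit 871), (nat_lit 407))], ((nat_lit 87), (nat_lit 100), (nat_lit 44))⟩, (nat_lit 4343672), (nat_lit 172), (nat_lit 172), (nat_lit 0), (nat_lit 230103), [(nat_lit 3282005357), (nat_lit 4946612176), (nat_lit 6250000000)], [], [(nat_lit 15903778171), (nat_lit 17848184018), (nat_lit 14990704923), (nat_lit 16580971187), (nat_lit 19645222055), (nat_lit 21610678705), (nat_lit 18184512654), (nat_lit 19729495012)], (nat_lit 1271251), (nat_lit 1271251), (nat_lit 292188), (nat_lit 780000), (nat_lit 780000), (nat_lit 1762501), [(nat_lit 780000), (nat_lit 1100000), (nat_lit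 1442501)], [(nat_lit 9), (nat_lit 50), (nat_lit 317), (nat_lit 100), (nat_lit 12)]⟩,
 ⟨⟨[(nat_lit 80), (nat_lit 120), (nat_lit 140)], [(nat_lit 0), (nat_lit 0), (nat_lit 1164)], [((nat_lit 0), (nat_lit 0), (nat_lit 0)), ((nat_lit 0), (nat_lit 0), (nat_lit 0)), ((nat_lit 941), (nat_lit 1000), (nat_lit 576))], ((nat_lit 100), (nat_lit 99), (nat_lit 44))⟩, (nat_lit 1726474), (nat_lit 386), (nat_lit 386), (nat_lit 0), (nat_lit 292508), [(nat_lit 2953440000), (nat_lit 5019840000), (nat_lit 6200460000)], [], [(nat_lit 24364054601), (nat_lit 25320015672), (nat_lit 24551170866), (nat_lit 25450799262), (nat_lit 31227971273), (nat_lit 29967602349), (nat_lit 33136759734), (nat_lit 31747702200)], (nat_lit 1271251), (nat_lit 1271251), (nat_lit 292188), (nat_lit 780000), (nat_lit 0), (nat_lit 2825001), [(nat_lit 1100000), (nat_lit 1785001), (nat_lit 1271251)], [(nat_lit 17), (nat_lit 58), (nat_lit 428), (nat_lit 200), (nat_lit 13)]⟩,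
 ⟨⟨[(nat_lit 120), (nat_lit 140), (nat_lit 160)], [(nat_lit 0), (nat_lit 266), (nat_lit 862)], [((nat_lit 0), (nat_lit 0), (nat_lit 0)), ((nat_lit 960), (nat_lit 1000), (nat_lit 200)), ((nat_lit 874), (nat_lit 1000), (nat_lit 406))], ((nat_lit 100), (nat_lit 86), (nat_lit 44))⟩, (nat_lit 19462971), (nat_lit 205), (nat_lit 205), (nat_lit 0), (nat_lit 0), [(nat_lit 7968000000), (nat_lit 9842000000), (nat_lit 11872000000)], [], [(nat_lit 14223553886), (nat_lit 17965126721), (nat_lit 19942860816), (nat_lit 22446786580), (nat_lit 40760406611), (nat_lit 41668957824), (nat_lit 39401757481), (nat_lit 39732225043)], (nat_lit 0), (nat_lit 0), (nat_lit 0), (nat_lit 0), (nat_lit 0), (nat_lit 0), [], [(nat_lit 27), (nat_lit 62), (nat_lit 456), (nat_lit 225), (nat_lit 12)]⟩⟩)) (.trZ (nat_lit 0) (nat_lit 1) (nat_lit 3) (nat_lit 100) (nat_lit 94) (nat_lit 88) (nat_lit 80) (.leaf ⟨(nat_lit 0), (nat_lit 648), (nat_lit 0), (nat_lit 352), (nat_lit 0), (nat_lit 6572),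 (nat_lit 7861), (nat_lit 5085), (nat_lit 950495), (nat_lit 0), (nat_lit 0), [], Pd.none, Pd.none, (nat_lit 0), (nat_lit 1), (nat_lit 0), (nat_lit 0), (nat_lit 3), (nat_lit 0), [⟨(nat_lit 0), (nat_lit 100), (nat_lit 94), (nat_lit 88), (nat_lit 829865594)⟩], [], [], [],
 ⟨⟨[(nat_lit 60), (nat_lit 80), (nat_lit 100)], [(nat_lit 0), (nat_lit 304), (nat_lit 825)], [((nat_lit 0), (nat_lit 0), (nat_lit 0)), ((nat_lit 1000), (nat_lit 905), (nat_lit 238)), ((nat_lit 1000), (nat_lit 871), (nat_lit 407))], ((nat_lit 87), (nat_lit 100), (nat_lit 44))⟩, (nat_lit 4911023), (nat_lit 174), (nat_lit 174), (nat_lit 0), (nat_lit 383906), [(nat_lit 3282004227), (nat_lit 4688006025), (nat_lit 6250000000)], [], [(nat_lit 13705042175), (nat_lit 15998593536), (nat_lit 14083561804), (nat_lit 16116937476), (nat_lit 17907064424), (nat_lit 19905972976), (nat_lit 17957480892), (nat_lit 19844385792)], (nat_lit 1271251), (nat_lit 1271251), (nat_lit 490000), (nat_lit 780000), (nat_lit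 780000), (nat_lit 1762501), [(nat_lit 780000), (nat_lit 1100000), (nat_lit 1442501)], [(nat_lit 9), (nat_lit 50), (nat_lit 317), (nat_lit 100), (nat_lit 12)]⟩,
 ⟨⟨[(nat_lit 60), (nat_lit 100), (nat_lit 120)], [(nat_lit 0), (nat_lit 0), (nat_lit 1164)], [((nat_lit 0), (nat_lit 0), (nat_lit 0)), ((nat_lit 0), (nat_lit 0), (nat_lit 0)), ((nat_lit 1000), (nat_lit 933), (nat_lit 572))], ((nat_lit 92), (nat_lit 100), (nat_lit 44))⟩, (nat_lit 1147360), (nat_lit 336), (nat_lit 336), (nat_lit 0), (nat_lit 394037), [(nat_lit 3282000000), (nat_lit 6250000000), (nat_lit 7968000000)], [], [(nat_lit 28353582824), (nat_lit 30962240332), (nat_lit 28223831535), (nat_lit 30675105004), (nat_lit 39283796004), (nat_lit 35953441500), (nat_lit 42751345388), (nat_lit 35940134772)], (nat_lit 1271251), (nat_lit 1271251), (nat_lit 490000), (nat_lit 780000), (nat_lit 0), (nat_lit 2825001), [(nat_lit 780000), (nat_lit 1435001), (nat_lit 1271251)], [(nat_lit 10), (nat_lit 54),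 (nat_lit 373), (nat_lit 150), (nat_lit 12)]⟩,
 ⟨⟨[(nat_lit 140), (nat_lit 160), (nat_lit 180)], [(nat_lit 0), (nat_lit 0), (nat_lit 799)], [((nat_lit 0), (nat_lit 0), (nat_lit 0)), ((nat_lit 0), (nat_lit 0), (nat_lit 0)), ((nat_lit 728), (nat_lit 1000), (nat_lit 454))], ((nat_lit 100), (nat_lit 71), (nat_lit 48))⟩, (nat_lit 1068932), (nat_lit 300), (nat_lit 392), (nat_lit 26118400), (nat_lit 0), [(nat_lit 3464384000), (nat_lit 4178944000), (nat_lit 4948416000)], [], [(nat_lit 19390404790), (nat_lit 18810667778), (nat_lit 18599366960), (nat_lit 17782961648), (nat_lit 16829918382), (nat_lit 15447415440), (nat_lit 15102975520), (nat_lit 13663852435)], (nat_lit 0), (nat_lit 0), (nat_lit 0), (nat_lit 0), (nat_lit 0), (nat_lit 0), [], [(nat_lit 31), (nat_lit 65), (nat_lit 456), (nat_lit 225), (nat_lit 11)]⟩⟩)))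
noncomputable def c4_16 : Tr Lf :=
 (.stt (nat_lit 1) (.spl (nat_lit 1) (nat_lit 280) (.leaf ⟨(nat_lit 1000), (nat_lit 0), (nat_lit 0), (nat_lit 0), (nat_lit 2735), (nat_lit 4303), (nat_lit 0), (nat_lit 0), (nat_lit 0), (nat_lit 0), (nat_lit 305500), [((nat_lit 320), [((nat_lit 15), (nat_lit 0), (nat_lit 630)), ((nat_lit 15), (nat_lit 1), (nat_lit 370))])], ⟨(nat_lit 6), false, false, false, (nat_lit 146), (nat_lit 4472), (nat_lit 5000), [(nat_lit 1274989), (nat_lit 1288204), (nat_lit 1317824), (nat_lit 1331315), (nat_lit 1399984), (nat_lit 1407160), (nat_lit 1442816), (nat_lit 1450269)]⟩, ⟨(nat_lit 3), false, false, true, (nat_lit 165), (nat_lit 4472), (nat_lit 5000), [(nat_lit 1271427), (nat_lit 1277776), (nat_lit 1335713), (nat_lit 1342476), (nat_lit 1485713), (nat_lit 1481711), (nat_lit 1549999), (nat_lit 1546410)]⟩, (nat_lit 4068150), (nat_lit 49287475), (nat_lit 8014911), (nat_lit 9697614), (nat_lit 0), (nat_lit 0), [⟨(nat_lit 0), (nat_lit 100),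 (nat_lit 88), (nat_lit 81), (nat_lit 177537762)⟩], [], [], [],
 ⟨⟨[(nat_lit 60), (nat_lit 80), (nat_lit 100)], [(nat_lit 0), (nat_lit 304), (nat_lit 825)], [((nat_lit 0), (nat_lit 0), (nat_lit 0)), ((nat_lit 1000), (nat_lit 905), (nat_lit 238)), ((nat_lit 1000), (nat_lit 871), (nat_lit 407))], ((nat_lit 87), (nat_lit 100), (nat_lit 44))⟩, (nat_lit 0), (nat_lit 57), (nat_lit 57), (nat_lit 0), (nat_lit 0), [(nat_lit 2131056005), (nat_lit 89173314492), (nat_lit 2577392000)], [(nat_lit 0), (nat_lit 0), (nat_lit 0)], [(nat_lit 14312000002), (nat_lit 16308509783), (nat_lit 13755547858), (nat_lit 15500148399), (nat_lit 18388894466), (nat_lit 19983080095), (nat_lit 17623799483), (nat_lit 19110055708)], (nat_lit 0), (nat_lit 0), (nat_lit 0), (nat_lit 0), (nat_lit 0), (nat_lit 0), [], [(nat_lit 9), (nat_lit 50), (nat_lit 317), (nat_lit 100), (nat_lit 12)]⟩,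
 Rw.none,
 Rw.none⟩) (.trZ (nat_lit 0) (nat_lit 1) (nat_lit 3) (nat_lit 100) (nat_lit 94) (nat_lit 88) (nat_lit 80) (.trX (nat_lit 5) (nat_lit 1) (nat_lit 2) (nat_lit 92) (nat_lit 49) (nat_lit 100) (nat_lit 380) (.leaf ⟨(nat_lit 1000), (nat_lit 0), (nat_lit 0), (nat_lit 0), (nat_lit 0), (nat_lit 4489), (nat_lit 0), (nat_lit 0), (nat_lit 6371107332646), (nat_lit 0), (nat_lit 250000), [((nat_lit 320), [((nat_lit 15), (nat_lit 0), (nat_lit 1000))])], ⟨(nat_lit 7), false, false, false, (nat_lit 173), (nat_lit 4472), (nat_lit 5000), [(nat_lit 1371392), (nat_lit 1382295), (nat_lit 1414225), (nat_lit 1425403), (nat_lit 1442816), (nat_lit 1450269), (nat_lit 1485648), (nat_lit 1493376)]⟩, ⟨(nat_lit 3), false, false, true, (nat_lit 165), (nat_lit 4472), (nat_lit 5000), [(nat_lit 1271427), (nat_lit 1277776), (nat_lit 1335713), (nat_lit 1342476), (nat_lit 1485713), (nat_lit 1481711), (nat_lit 1549999), (nat_lit 1546410)]⟩, (nat_lit 4366030), (nat_lit 47124127),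 (nat_lit 10339620), (nat_lit 9536253), (nat_lit 0), (nat_lit 0), [⟨(nat_lit 0), (nat_lit 97), (nat_lit 93), (nat_lit 100), (nat_lit 107066509)⟩], [], [], [],
 ⟨⟨[(nat_lit 60), (nat_lit 80), (nat_lit 100)], [(nat_lit 0), (nat_lit 304), (nat_lit 825)], [((nat_lit 0), (nat_lit 0), (nat_lit 0)), ((nat_lit 1000), (nat_lit 905), (nat_lit 238)), ((nat_lit 1000), (nat_lit 871), (nat_lit 407))], ((nat_lit 87), (nat_lit 100), (nat_lit 44))⟩, (nat_lit 0), (nat_lit 34), (nat_lit 34), (nat_lit 0), (nat_lit 0), [(nat_lit 2318400972), (nat_lit 89888407910), (nat_lit 2724800000)], [(nat_lit 0), (nat_lit 0), (nat_lit 0)], [(nat_lit 13150417218), (nat_lit 15152503932), (nat_lit 13760124714), (nat_lit 15550709337), (nat_lit 17314467588), (nat_lit 18917156212), (nat_lit 17651158989), (nat_lit 19170252004)], (nat_lit 0), (nat_lit 0), (nat_lit 0), (nat_lit 0), (nat_lit 0), (nat_lit 0), [], [(nat_lit 9), (nat_lit 50), (nat_lit 317), (nat_lit 100), (nat_lit 12)]⟩,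
 Rw.none,
 Rw.none⟩)))) (.spl (nat_lit 1) (nat_lit 280) (.spl (nat_lit 3) (nat_lit 80) (.spl (nat_lit 1) (nat_lit 260) (.leaf ⟨(nat_lit 1000), (nat_lit 0), (nat_lit 0), (nat_lit 0), (nat_lit 4675), (nat_lit 4653), (nat_lit 0), (nat_lit 0), (nat_lit 0), (nat_lit 0), (nat_lit 987800), [((nat_lit 320), [((nat_lit 15), (nat_lit 0), (nat_lit 12)), ((nat_lit 35), (nat_lit 2), (nat_lit 8)), ((nat_lit 15), (nat_lit 2), (nat_lit 980))])], ⟨(nat_lit 6), false, false, false, (nat_lit 127), (nat_lit 4472), (nat_lit 5000), [(nat_lit 1274989), (nat_lit 1288204), (nat_lit 1296408), (nat_lit 1309761), (nat_lit 1328559), (nat_lit 1339186), (nat_lit 1349976), (nat_lit 1360741)]⟩, ⟨(nat_lit 3), false, false, true, (nat_lit 165), (nat_lit 4472), (nat_lit 5000), [(nat_lit 1271427), (nat_lit 1277776), (nat_lit 1335713), (nat_lit 1342476), (nat_lit 1485713), (nat_lit 1481711), (nat_lit 1549999), (nat_lit 1546410)]⟩, (nat_lit 3845436), (nat_lit 50662337), (nat_lit 6565699),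 (nat_lit 9771964), (nat_lit 0), (nat_lit 0), [⟨(nat_lit 0), (nat_lit 100), (nat_lit 86), (nat_lit 77), (nat_lit 345451241)⟩], [], [], [],
 ⟨⟨[(nat_lit 60), (nat_lit 80), (nat_lit 100)], [(nat_lit 0), (nat_lit 304), (nat_lit 825)], [((nat_lit 0), (nat_lit 0), (nat_lit 0)), ((nat_lit 1000), (nat_lit 905), (nat_lit 238)), ((nat_lit 1000), (nat_lit 871), (nat_lit 407))], ((nat_lit 87), (nat_lit 100), (nat_lit 44))⟩, (nat_lit 4123), (nat_lit 164), (nat_lit 164), (nat_lit 0), (nat_lit 125572), [(nat_lit 1981073287), (nat_lit 1751953132), (nat_lit 768342400)], [(nat_lit 0), (nat_lit 0), (nat_lit 0)], [(nat_lit 14850487379), (nat_lit 16590059408), (nat_lit 14122071428), (nat_lit 15556011222), (nat_lit 18618630441), (nat_lit 20280707845), (nat_lit 17421766612), (nat_lit 18995008324)], (nat_lit 1271251), (nat_lit 1271251), (nat_lit 292188), (nat_lit 490000), (nat_lit 780000), (nat_lit 1762501), [(nat_lit 780000), (nat_lit 1100000), (nat_lit 1442501)], [(nat_lit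 9), (nat_lit 50), (nat_lit 317), (nat_lit 100), (nat_lit 12)]⟩,
 Rw.none,
 Rw.none⟩) (.trZ (nat_lit 0) (nat_lit 1) (nat_lit 3) (nat_lit 100) (nat_lit 91) (nat_lit 77) (nat_lit 60) (.trX (nat_lit 5) (nat_lit 1) (nat_lit 2) (nat_lit 96) (nat_lit 40) (nat_lit 100) (nat_lit 390) (.leaf ⟨(nat_lit 961), (nat_lit 0), (nat_lit 0), (nat_lit 39), (nat_lit 4661), (nat_lit 4708), (nat_lit 452), (nat_lit 438), (nat_lit 0), (nat_lit 0), (nat_lit 1033000), [((nat_lit 320), [((nat_lit 15), (nat_lit 2), (nat_lit 937)), ((nat_lit 35), (nat_lit 5), (nat_lit 24))])], ⟨(nat_lit 6), false, false, false, (nat_lit 139), (nat_lit 4472), (nat_lit 5000), [(nat_lit 1314264), (nat_lit 1326754), (nat_lit 1335680), (nat_lit 1348308), (nat_lit 1349976), (nat_lit 1360741), (nat_lit 1371392), (nat_lit 1382295)]⟩, ⟨(nat_lit 3), false, false, true, (nat_lit 165), (nat_lit 4472), (nat_lit 5000), [(nat_lit 1271427), (nat_lit 1277776), (nat_lit 1335713), (nat_lit 1342476), (nat_lit 1485713),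 (nat_lit 1481711), (nat_lit 1549999), (nat_lit 1546410)]⟩, (nat_lit 3995189), (nat_lit 49757346), (nat_lit 7516982), (nat_lit 9725672), (nat_lit 0), (nat_lit 0), [⟨(nat_lit 0), (nat_lit 100), (nat_lit 89), (nat_lit 86), (nat_lit 428763691)⟩], [], [], [],
 ⟨⟨[(nat_lit 60), (nat_lit 80), (nat_lit 100)], [(nat_lit 0), (nat_lit 304), (nat_lit 825)], [((nat_lit 0), (nat_lit 0), (nat_lit 0)), ((nat_lit 1000), (nat_lit 905), (nat_lit 238)), ((nat_lit 1000), (nat_lit 871), (nat_lit 407))], ((nat_lit 87), (nat_lit 100), (nat_lit 44))⟩, (nat_lit 0), (nat_lit 162), (nat_lit 162), (nat_lit 0), (nat_lit 164377), [(nat_lit 2030928165), (nat_lit 1796158375), (nat_lit 761983600)], [(nat_lit 0), (nat_lit 0), (nat_lit 0)], [(nat_lit 14569991897), (nat_lit 16170021648), (nat_lit 14074587441), (nat_lit 15517448125), (nat_lit 18228744984), (nat_lit 19892024368), (nat_lit 17376829329), (nat_lit 19021117264)], (nat_lit 1271251), (nat_lit 1271251), (nat_lit 356250), (nat_lit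 490000), (nat_lit 780000), (nat_lit 1762501), [(nat_lit 780000), (nat_lit 1100000), (nat_lit 1442501)], [(nat_lit 9), (nat_lit 50), (nat_lit 317), (nat_lit 100), (nat_lit 12)]⟩,
 ⟨⟨[(nat_lit 80), (nat_lit 100), (nat_lit 120)], [(nat_lit 0), (nat_lit 265), (nat_lit 768)], [((nat_lit 0), (nat_lit 0), (nat_lit 0)), ((nat_lit 1000), (nat_lit 959), (nat_lit 206)), ((nat_lit 1000), (nat_lit 958), (nat_lit 392))], ((nat_lit 96), (nat_lit 100), (nat_lit 44))⟩, (nat_lit 138165), (nat_lit 257), (nat_lit 257), (nat_lit 0), (nat_lit 193725), [(nat_lit 182832000), (nat_lit 243750000), (nat_lit 310752000)], [], [(nat_lit 1073772621), (nat_lit 980108413), (nat_lit 838327516), (nat_lit 843508418), (nat_lit 1732703551), (nat_lit 1587871960), (nat_lit 1795219093), (nat_lit 1598808934)], (nat_lit 1271251), (nat_lit 1271251), (nat_lit 356250), (nat_lit 490000), (nat_lit 0), (nat_lit 2754376), [(nat_lit 1100000), (nat_lit 1442501), (nat_lit 1271251)], [(nat_lit 16), (nat_lit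 54), (nat_lit 345), (nat_lit 125), (nat_lit 12)]⟩,
 ⟨⟨[(nat_lit 140), (nat_lit 160), (nat_lit 180)], [(nat_lit 0), (nat_lit 0), (nat_lit 799)], [((nat_lit 0), (nat_lit 0), (nat_lit 0)), ((nat_lit 0), (nat_lit 0), (nat_lit 0)), ((nat_lit 728), (nat_lit 1000), (nat_lit 454))], ((nat_lit 100), (nat_lit 71), (nat_lit 48))⟩, (nat_lit 34265), (nat_lit 300), (nat_lit 1238), (nat_lit 2893802), (nat_lit 1758663), [(nat_lit 383838000), (nat_lit 463008000), (nat_lit 548262000)], [], [(nat_lit 2556242376), (nat_lit 2467204241), (nat_lit 2390213772), (nat_lit 2299792227), (nat_lit 2499831896), (nat_lit 2851454429), (nat_lit 3208127658), (nat_lit 3581432478)], (nat_lit 780000), (nat_lit 1271251), (nat_lit 780000), (nat_lit 1762501), (nat_lit 0), (nat_lit 2754376), [(nat_lit 1977501), (nat_lit 1271251), (nat_lit 1271251)], [(nat_lit 31), (nat_lit 65), (nat_lit 456), (nat_lit 225), (nat_lit 11)]⟩⟩)))) (.spl (nat_lit 0) (nat_lit 310) (.leaf ⟨(nat_lit 948), (nat_lit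 8), (nat_lit 0), (nat_lit 44), (nat_lit 0), (nat_lit 4119), (nat_lit 362), (nat_lit 517), (nat_lit 0), (nat_lit 0), (nat_lit 358500), [((nat_lit 310), [((nat_lit 15), (nat_lit 0), (nat_lit 138)), ((nat_lit 15), (nat_lit 1), (nat_lit 810))])], ⟨(nat_lit 6), false, false, false, (nat_lit 155), (nat_lit 4743), (nat_lit 5000), [(nat_lit 1328569), (nat_lit 1333875), (nat_lit 1371422), (nat_lit 1376847), (nat_lit 1399997), (nat_lit 1403574), (nat_lit 1442849), (nat_lit 1446544)]⟩, ⟨(nat_lit 3), false, false, true, (nat_lit 164), (nat_lit 4743), (nat_lit 5000), [(nat_lit 1271427), (nat_lit 1274646), (nat_lit 1335713), (nat_lit 1339111), (nat_lit 1485713), (nat_lit 1483746), (nat_lit 1549999), (nat_lit 1548210)]⟩, (nat_lit 4175269), (nat_lit 48559332), (nat_lit 8803860), (nat_lit 9636808), (nat_lit 3), (nat_lit 0), [⟨(nat_lit 0), (nat_lit 100), (nat_lit 91), (nat_lit 91), (nat_lit 44385296)⟩], [], [], [],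
 ⟨⟨[(nat_lit 60), (nat_lit 80), (nat_lit 100)], [(nat_lit 0), (nat_lit 304), (nat_lit 825)], [((nat_lit 0), (nat_lit 0), (nat_lit 0)), ((nat_lit 1000), (nat_lit 905), (nat_lit 238)), ((nat_lit 1000), (nat_lit 871), (nat_lit 407))], ((nat_lit 87), (nat_lit 100), (nat_lit 44))⟩, (nat_lit 0), (nat_lit 150), (nat_lit 150), (nat_lit 0), (nat_lit 139152), [(nat_lit 2080706403), (nat_lit 90052331754), (nat_lit 2585406400)], [(nat_lit 0), (nat_lit 0), (nat_lit 0)], [(nat_lit 13243830469), (nat_lit 14108607678), (nat_lit 13886001118), (nat_lit 14704521577), (nat_lit 17280707688), (nat_lit 17975359900), (nat_lit 17730941810), (nat_lit 18387213635)], (nat_lit 1271251), (nat_lit 1271251), (nat_lit 490000), (nat_lit 780000), (nat_lit 780000), (nat_lit 1762501), [(nat_lit 780000), (nat_lit 1100000), (nat_lit 1442501)], [(nat_lit 9), (nat_lit 50), (nat_lit 317), (nat_lit 100), (nat_lit 12)]⟩,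
 ⟨⟨[(nat_lit 80), (nat_lit 120), (nat_lit 140)], [(nat_lit 0), (nat_lit 0), (nat_lit 1164)], [((nat_lit 0), (nat_lit 0), (nat_lit 0)), ((nat_lit 0), (nat_lit 0), (nat_lit 0)), ((nat_lit 941), (nat_lit 1000), (nat_lit 576))], ((nat_lit 100), (nat_lit 99), (nat_lit 44))⟩, (nat_lit 0), (nat_lit 298), (nat_lit 298), (nat_lit 0), (nat_lit 163779), [(nat_lit 243776000), (nat_lit 414336000), (nat_lit 511784000)], [], [(nat_lit 2249764432), (nat_lit 1869941280), (nat_lit 1869839640), (nat_lit 1861319684), (nat_lit 2721509776), (nat_lit 2407902660), (nat_lit 2888142660), (nat_lit 2578322064)], (nat_lit 1271251), (nat_lit 1271251), (nat_lit 490000), (nat_lit 780000), (nat_lit 0), (nat_lit 2825001), [(nat_lit 1100000), (nat_lit 1785001), (nat_lit 1271251)], [(nat_lit 17), (nat_lit 58), (nat_lit 428), (nat_lit 200), (nat_lit 13)]⟩,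
 ⟨⟨[(nat_lit 140), (nat_lit 160), (nat_lit 180)], [(nat_lit 0), (nat_lit 0), (nat_lit 799)], [((nat_lit 0), (nat_lit 0), (nat_lit 0)), ((nat_lit 0), (nat_lit 0), (nat_lit 0)), ((nat_lit 728), (nat_lit 1000), (nat_lit 454))], ((nat_lit 100), (nat_lit 71), (nat_lit 48))⟩, (nat_lit 38658), (nat_lit 300), (nat_lit 1103), (nat_lit 3264802), (nat_lit 1438891), [(nat_lit 433048000), (nat_lit 522368000), (nat_lit 618552000)], [], [(nat_lit 2793976720), (nat_lit 2692895023), (nat_lit 2612759676), (nat_lit 2511285402), (nat_lit 2887930540), (nat_lit 3301229844), (nat_lit 3720449656), (nat_lit 4159169333)], (nat_lit 780000), (nat_lit 1271251), (nat_lit 780000), (nat_lit 1762501), (nat_lit 0), (nat_lit 2825001), [(nat_lit 1977501), (nat_lit 1271251), (nat_lit 1271251)], [(nat_lit 31), (nat_lit 65), (nat_lit 456), (nat_lit 225), (nat_lit 11)]⟩⟩) (.leaf ⟨(nat_lit 954), (nat_lit 0), (nat_lit 0), (nat_lit 46), (nat_lit 0), (nat_lit 4988), (nat_lit 320), (nat_lit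 536), (nat_lit 0), (nat_lit 0), (nat_lit 238500), [((nat_lit 320), [((nat_lit 15), (nat_lit 0), (nat_lit 954))])], ⟨(nat_lit 6), false, false, false, (nat_lit 157), (nat_lit 4472), (nat_lit 4744), [(nat_lit 1333872), (nat_lit 1339193), (nat_lit 1376841), (nat_lit 1382319), (nat_lit 1403571), (nat_lit 1407171), (nat_lit 1446540), (nat_lit 1450297)]⟩, ⟨(nat_lit 3), false, false, true, (nat_lit 165), (nat_lit 4472), (nat_lit 4744), [(nat_lit 1274646), (nat_lit 1277776), (nat_lit 1339111), (nat_lit 1342476), (nat_lit 1483746), (nat_lit 1481711), (nat_lit 1548210), (nat_lit 1546410)]⟩, (nat_lit 4198073), (nat_lit 48396207), (nat_lit 8953365), (nat_lit 9650428), (nat_lit 0), (nat_lit 0), [⟨(nat_lit 0), (nat_lit 100), (nat_lit 87), (nat_lit 95), (nat_lit 112519676)⟩], [], [], [],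
 ⟨⟨[(nat_lit 60), (nat_lit 80), (nat_lit 100)], [(nat_lit 0), (nat_lit 456), (nat_lit 976)], [((nat_lit 0), (nat_lit 0), (nat_lit 0)), ((nat_lit 1000), (nat_lit 859), (nat_lit 351)), ((nat_lit 1000), (nat_lit 848), (nat_lit 406))], ((nat_lit 84), (nat_lit 100), (nat_lit 44))⟩, (nat_lit 1680994), (nat_lit 147), (nat_lit 147), (nat_lit 0), (nat_lit 163144), [(nat_lit 2337850285), (nat_lit 2641565283), (nat_lit 2886959200)], [(nat_lit 0), (nat_lit 0), (nat_lit 0)], [(nat_lit 15129485239), (nat_lit 15873623301), (nat_lit 15551062815), (nat_lit 16254086005), (nat_lit 18305503502), (nat_lit 19154035504), (nat_lit 18528141318), (nat_lit 19331746368)], (nat_lit 1271251), (nat_lit 1271251), (nat_lit 490000), (nat_lit 780000), (nat_lit 780000), (nat_lit 1762501), [(nat_lit 780000), (nat_lit 1100000), (nat_lit 1442501)], [(nat_lit 9), (nat_lit 50), (nat_lit 317), (nat_lit 100), (nat_lit 12)]⟩,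
 ⟨⟨[(nat_lit 80), (nat_lit 120), (nat_lit 140)], [(nat_lit 0), (nat_lit 0), (nat_lit 1164)], [((nat_lit 0), (nat_lit 0), (nat_lit 0)), ((nat_lit 0), (nat_lit 0), (nat_lit 0)), ((nat_lit 941), (nat_lit 1000), (nat_lit 576))], ((nat_lit 100), (nat_lit 99), (nat_lit 44))⟩, (nat_lit 0), (nat_lit 314), (nat_lit 314), (nat_lit 0), (nat_lit 198163), [(nat_lit 215648000), (nat_lit 366528000), (nat_lit 452732000)], [], [(nat_lit 1989824560), (nat_lit 1654556988), (nat_lit 1653979440), (nat_lit 1646962136), (nat_lit 2407402312), (nat_lit 2130180552), (nat_lit 2554740552), (nat_lit 2280865992)], (nat_lit 1271251), (nat_lit 1271251), (nat_lit 490000), (nat_lit 780000), (nat_lit 0), (nat_lit 2825001), [(nat_lit 1100000), (nat_lit 1785001), (nat_lit 1271251)], [(nat_lit 17), (nat_lit 58), (nat_lit 428), (nat_lit 200), (nat_lit 13)]⟩,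
 ⟨⟨[(nat_lit 140), (nat_lit 160), (nat_lit 180)], [(nat_lit 0), (nat_lit 0), (nat_lit 799)], [((nat_lit 0), (nat_lit 0), (nat_lit 0)), ((nat_lit 0), (nat_lit 0), (nat_lit 0)), ((nat_lit 728), (nat_lit 1000), (nat_lit 454))], ((nat_lit 100), (nat_lit 71), (nat_lit 48))⟩, (nat_lit 40416), (nat_lit 300), (nat_lit 1238), (nat_lit 3413200), (nat_lit 1758645), [(nat_lit 452732000), (nat_lit 546112000), (nat_lit 646668000)], [], [(nat_lit 2938698848), (nat_lit 2828390523), (nat_lit 2744436504), (nat_lit 2639559156), (nat_lit 3013642808), (nat_lit 3442883616), (nat_lit 3878262512), (nat_lit 4333857904)], (nat_lit 780000), (nat_lit 1271251), (nat_lit 780000), (nat_lit 1762501), (nat_lit 0), (nat_lit 2825001), [(nat_lit 1977501), (nat_lit 1271251), (nat_lit 1271251)], [(nat_lit 31), (nat_lit 65), (nat_lit 456), (nat_lit 225), (nat_lit 11)]⟩⟩))) (.trZ (nat_lit 0) (nat_lit 1) (nat_lit 3) (nat_lit 100) (nat_lit 94) (nat_lit 88) (nat_lit 80) (.trX (nat_lit 5) (nat_lit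 1) (nat_lit 2) (nat_lit 92) (nat_lit 49) (nat_lit 100) (nat_lit 380) (.spl (nat_lit 4) (nat_lit 200) (.leaf ⟨(nat_lit 772), (nat_lit 165), (nat_lit 0), (nat_lit 63), (nat_lit 0), (nat_lit 6295), (nat_lit 2143), (nat_lit 553), (nat_lit 72464), (nat_lit 0), (nat_lit 749200), [((nat_lit 320), [((nat_lit 35), (nat_lit 2), (nat_lit 57)), ((nat_lit 15), (nat_lit 2), (nat_lit 715))])], ⟨(nat_lit 7), false, false, false, (nat_lit 173), (nat_lit 4472), (nat_lit 5000), [(nat_lit 1371392), (nat_lit 1382295), (nat_lit 1414225), (nat_lit 1425403), (nat_lit 1442816), (nat_lit 1450269), (nat_lit 1485648), (nat_lit 1493376)]⟩, ⟨(nat_lit 3), false, false, true, (nat_lit 151), (nat_lit 4472), (nat_lit 5000), [(nat_lit 1271427), (nat_lit 1277776), (nat_lit 1335713), (nat_lit 1342476), (nat_lit 1414284), (nat_lit 1413733), (nat_lit 1478570), (nat_lit 1478432)]⟩, (nat_lit 4216969), (nat_lit 48186690), (nat_lit 10432824), (nat_lit 8380486), (nat_lit 3), (nat_lit 0), [⟨(nat_lit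 0), (nat_lit 97), (nat_lit 93), (nat_lit 100), (nat_lit 246642207)⟩], [], [], [],
 ⟨⟨[(nat_lit 60), (nat_lit 80), (nat_lit 100)], [(nat_lit 0), (nat_lit 304), (nat_lit 825)], [((nat_lit 0), (nat_lit 0), (nat_lit 0)), ((nat_lit 1000), (nat_lit 905), (nat_lit 238)), ((nat_lit 1000), (nat_lit 871), (nat_lit 407))], ((nat_lit 87), (nat_lit 100), (nat_lit 44))⟩, (nat_lit 0), (nat_lit 159), (nat_lit 159), (nat_lit 0), (nat_lit 256755), [(nat_lit 2641873495), (nat_lit 2647615582), (nat_lit 2053589200)], [(nat_lit 0), (nat_lit 0), (nat_lit 0)], [(nat_lit 13795083263), (nat_lit 15886079460), (nat_lit 14101207649), (nat_lit 16041639735), (nat_lit 15778748265), (nat_lit 17901632990), (nat_lit 15953936479), (nat_lit 17975969315)], (nat_lit 1271251), (nat_lit 1271251), (nat_lit 490000), (nat_lit 780000), (nat_lit 780000), (nat_lit 1435001), [(nat_lit 780000), (nat_lit 1100000), (nat_lit 1442501)], [(nat_lit 9), (nat_lit 50), (nat_lit 317), (nat_lit 100), (nat_lit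 12)]⟩,
 ⟨⟨[(nat_lit 60), (nat_lit 100), (nat_lit 120)], [(nat_lit 0), (nat_lit 0), (nat_lit 1164)], [((nat_lit 0), (nat_lit 0), (nat_lit 0)), ((nat_lit 0), (nat_lit 0), (nat_lit 0)), ((nat_lit 1000), (nat_lit 933), (nat_lit 572))], ((nat_lit 92), (nat_lit 100), (nat_lit 44))⟩, (nat_lit 29584), (nat_lit 285), (nat_lit 285), (nat_lit 0), (nat_lit 260893), [(nat_lit 748296000), (nat_lit 1425000000), (nat_lit 1816704000)], [], [(nat_lit 6265628632), (nat_lit 6626819244), (nat_lit 5671552269), (nat_lit 6515398772), (nat_lit 8233491227), (nat_lit 8252112412), (nat_lit 9115227018), (nat_lit 7951360290)], (nat_lit 1271251), (nat_lit 1271251), (nat_lit 490000), (nat_lit 780000), (nat_lit 0), (nat_lit 2683751), [(nat_lit 780000), (nat_lit 1435001), (nat_lit 1271251)], [(nat_lit 10), (nat_lit 54), (nat_lit 345), (nat_lit 125), (nat_lit 11)]⟩,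
 ⟨⟨[(nat_lit 140), (nat_lit 160), (nat_lit 180)], [(nat_lit 0), (nat_lit 0), (nat_lit 799)], [((nat_lit 0), (nat_lit 0), (nat_lit 0)), ((nat_lit 0), (nat_lit 0), (nat_lit 0)), ((nat_lit 728), (nat_lit 1000), (nat_lit 454))], ((nat_lit 100), (nat_lit 71), (nat_lit 48))⟩, (nat_lit 55352), (nat_lit 300), (nat_lit 1845), (nat_lit 4674600), (nat_lit 3044374), [(nat_lit 620046000), (nat_lit 747936000), (nat_lit 885654000)], [], [(nat_lit 5811307992), (nat_lit 5704956810), (nat_lit 5668849069), (nat_lit 5563022294), (nat_lit 5163236231), (nat_lit 5058729030), (nat_lit 5023320256), (nat_lit 4919727689)], (nat_lit 780000), (nat_lit 1271251), (nat_lit 780000), (nat_lit 1435001), (nat_lit 0), (nat_lit 2683751), [(nat_lit 1977501), (nat_lit 1271251), (nat_lit 1271251)], [(nat_lit 31), (nat_lit 65), (nat_lit 557), (nat_lit 200), (nat_lit 13)]⟩⟩) (.leaf ⟨(nat_lit 819), (nat_lit 131), (nat_lit 0), (nat_lit 50), (nat_lit 0), (nat_lit 5445), (nat_lit 1688), (nat_lit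 479), (nat_lit 473408), (nat_lit 0), (nat_lit 876000), [((nat_lit 320), [((nat_lit 15), (nat_lit 2), (nat_lit 800)), ((nat_lit 35), (nat_lit 5), (nat_lit 19))])], ⟨(nat_lit 7), false, false, false, (nat_lit 173), (nat_lit 4472), (nat_lit 5000), [(nat_lit 1371392), (nat_lit 1382295), (nat_lit 1414225), (nat_lit 1425403), (nat_lit 1442816), (nat_lit 1450269), (nat_lit 1485648), (nat_lit 1493376)]⟩, ⟨(nat_lit 5), false, false, true, (nat_lit 192), (nat_lit 4472), (nat_lit 5000), [(nat_lit 1414284), (nat_lit 1413733), (nat_lit 1478570), (nat_lit 1478432), (nat_lit 1485713), (nat_lit 1481711), (nat_lit 1549999), (nat_lit 1546410)]⟩, (nat_lit 4626436), (nat_lit 44954868), (nat_lit 10112299), (nat_lit 11932833), (nat_lit 5), (nat_lit 0), [⟨(nat_lit 0), (nat_lit 97), (nat_lit 93), (nat_lit 100), (nat_lit 205481938)⟩], [], [], [],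
 ⟨⟨[(nat_lit 60), (nat_lit 80), (nat_lit 100)], [(nat_lit 0), (nat_lit 304), (nat_lit 825)], [((nat_lit 0), (nat_lit 0), (nat_lit 0)), ((nat_lit 1000), (nat_lit 905), (nat_lit 238)), ((nat_lit 1000), (nat_lit 871), (nat_lit 407))], ((nat_lit 87), (nat_lit 100), (nat_lit 44))⟩, (nat_lit 17443), (nat_lit 131), (nat_lit 131), (nat_lit 0), (nat_lit 256755), [(nat_lit 2393598523), (nat_lit 2318396518), (nat_lit 1584359600)], [(nat_lit 0), (nat_lit 0), (nat_lit 0)], [(nat_lit 16031222240), (nat_lit 17586179290), (nat_lit 16305612042), (nat_lit 17779995865), (nat_lit 17606483780), (nat_lit 19370977060), (nat_lit 17791743145), (nat_lit 19479648020)], (nat_lit 1271251), (nat_lit 1271251), (nat_lit 490000), (nat_lit 780000), (nat_lit 1271251), (nat_lit 1271251), [(nat_lit 780000), (nat_lit 1100000), (nat_lit 1442501)], [(nat_lit 9), (nat_lit 50), (nat_lit 238), (nat_lit 30), (nat_lit 8)]⟩,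
 ⟨⟨[(nat_lit 60), (nat_lit 100), (nat_lit 120)], [(nat_lit 0), (nat_lit 0), (nat_lit 1164)], [((nat_lit 0), (nat_lit 0), (nat_lit 0)), ((nat_lit 0), (nat_lit 0), (nat_lit 0)), ((nat_lit 1000), (nat_lit 933), (nat_lit 572))], ((nat_lit 92), (nat_lit 100), (nat_lit 44))⟩, (nat_lit 0), (nat_lit 285), (nat_lit 285), (nat_lit 0), (nat_lit 260893), [(nat_lit 594042000), (nat_lit 1131250000), (nat_lit 1442208000)], [], [(nat_lit 4981543032), (nat_lit 5281815856), (nat_lit 4543477366), (nat_lit 5195364018), (nat_lit 6550507680), (nat_lit 6530464070), (nat_lit 7246668228), (nat_lit 6294695542)], (nat_lit 1271251), (nat_lit 1271251), (nat_lit 490000), (nat_lit 780000), (nat_lit 0), (nat_lit 2683751), [(nat_lit 780000), (nat_lit 1435001), (nat_lit 1271251)], [(nat_lit 10), (nat_lit 54), (nat_lit 345), (nat_lit 125), (nat_lit 11)]⟩,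
 ⟨⟨[(nat_lit 140), (nat_lit 160), (nat_lit 180)], [(nat_lit 0), (nat_lit 0), (nat_lit 799)], [((nat_lit 0), (nat_lit 0), (nat_lit 0)), ((nat_lit 0), (nat_lit 0), (nat_lit 0)), ((nat_lit 728), (nat_lit 1000), (nat_lit 454))], ((nat_lit 100), (nat_lit 71), (nat_lit 48))⟩, (nat_lit 43930), (nat_lit 300), (nat_lit 1806), (nat_lit 3710000), (nat_lit 3044374), [(nat_lit 492100000), (nat_lit 593600000), (nat_lit 702900000)], [], [(nat_lit 3979082401), (nat_lit 3884744653), (nat_lit 3922115065), (nat_lit 3827882075), (nat_lit 3403695637), (nat_lit 3662909202), (nat_lit 3347090625), (nat_lit 3254671400)], (nat_lit 780000), (nat_lit 1271251), (nat_lit 1271251), (nat_lit 1271251), (nat_lit 0), (nat_lit 2683751), [(nat_lit 1977501), (nat_lit 1271251), (nat_lit 1271251)], [(nat_lit 31), (nat_lit 65), (nat_lit 552), (nat_lit 200), (nat_lit 13)]⟩⟩))))))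
noncomputable def c4_17 : Tr Lf :=
 (.spl (nat_lit 1) (nat_lit 280) (.spl (nat_lit 4) (nat_lit 200) (.spl (nat_lit 0) (nat_lit 310) (.leaf ⟨(nat_lit 945), (nat_lit 8), (nat_lit 0), (nat_lit 47), (nat_lit 0), (nat_lit 4032), (nat_lit 225), (nat_lit 681), (nat_lit 0), (nat_lit 0), (nat_lit 336300), [((nat_lit 310), [((nat_lit 15), (nat_lit 0), (nat_lit 278)), ((nat_lit 15), (nat_lit 1), (nat_lit 667))])], ⟨(nat_lit 6), false, false, false, (nat_lit 145), (nat_lit 4743), (nat_lit 5000), [(nat_lit 1274998), (nat_lit 1281601), (nat_lit 1317852), (nat_lit 1324573), (nat_lit 1399997), (nat_lit 1403574), (nat_lit 1442849), (nat_lit 1446544)]⟩, ⟨(nat_lit 4), false, false, false, (nat_lit 172), (nat_lit 4743), (nat_lit 5000), [(nat_lit 1335713), (nat_lit 1339111), (nat_lit 1378570), (nat_lit 1382087), (nat_lit 1478570), (nat_lit 1478510), (nat_lit 1521425), (nat_lit 1521484)]⟩, (nat_lit 4133231), (nat_lit 48764615), (nat_lit 7899423), (nat_lit 10335962), (nat_lit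 4), (nat_lit 0), [⟨(nat_lit 0), (nat_lit 100), (nat_lit 89), (nat_lit 79), (nat_lit 100625195)⟩, ⟨(nat_lit 0), (nat_lit 100), (nat_lit 91), (nat_lit 91), (nat_lit 73403346)⟩], [], [], [],
 ⟨⟨[(nat_lit 60), (nat_lit 80), (nat_lit 100)], [(nat_lit 0), (nat_lit 304), (nat_lit 825)], [((nat_lit 0), (nat_lit 0), (nat_lit 0)), ((nat_lit 1000), (nat_lit 905), (nat_lit 238)), ((nat_lit 1000), (nat_lit 871), (nat_lit 407))], ((nat_lit 87), (nat_lit 100), (nat_lit 44))⟩, (nat_lit 0), (nat_lit 162), (nat_lit 162), (nat_lit 0), (nat_lit 104246), [(nat_lit 2101597841), (nat_lit 90128003879), (nat_lit 2652953200)], [(nat_lit 0), (nat_lit 0), (nat_lit 0)], [(nat_lit 14165652566), (nat_lit 15128081248), (nat_lit 13992380865), (nat_lit 14801664001), (nat_lit 16436637208), (nat_lit 17274706862), (nat_lit 16234334039), (nat_lit 16940992492)], (nat_lit 1271251), (nat_lit 1271251), (nat_lit 292188), (nat_lit 780000), (nat_lit 780000), (nat_lit 1435001), [(nat_lit 780000),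 (nat_lit 1100000), (nat_lit 1442501)], [(nat_lit 9), (nat_lit 50), (nat_lit 317), (nat_lit 100), (nat_lit 12)]⟩,
 ⟨⟨[(nat_lit 80), (nat_lit 120), (nat_lit 140)], [(nat_lit 0), (nat_lit 0), (nat_lit 1164)], [((nat_lit 0), (nat_lit 0), (nat_lit 0)), ((nat_lit 0), (nat_lit 0), (nat_lit 0)), ((nat_lit 941), (nat_lit 1000), (nat_lit 576))], ((nat_lit 100), (nat_lit 99), (nat_lit 44))⟩, (nat_lit 163086), (nat_lit 313), (nat_lit 313), (nat_lit 0), (nat_lit 123058), [(nat_lit 257840000), (nat_lit 438240000), (nat_lit 541310000)], [], [(nat_lit 2321601988), (nat_lit 2082692207), (nat_lit 1969460146), (nat_lit 2061795585), (nat_lit 2747284408), (nat_lit 2550504245), (nat_lit 2948803910), (nat_lit 2756235860)], (nat_lit 1271251), (nat_lit 1271251), (nat_lit 292188), (nat_lit 780000), (nat_lit 0), (nat_lit 2825001), [(nat_lit 1100000), (nat_lit 1785001), (nat_lit 1271251)], [(nat_lit 17), (nat_lit 58), (nat_lit 428), (nat_lit 200), (nat_lit 13)]⟩,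
 ⟨⟨[(nat_lit 120), (nat_lit 140), (nat_lit 160)], [(nat_lit 0), (nat_lit 266), (nat_lit 862)], [((nat_lit 0), (nat_lit 0), (nat_lit 0)), ((nat_lit 960), (nat_lit 1000), (nat_lit 200)), ((nat_lit 874), (nat_lit 1000), (nat_lit 406))], ((nat_lit 100), (nat_lit 86), (nat_lit 44))⟩, (nat_lit 96474), (nat_lit 300), (nat_lit 720), (nat_lit 3120800), (nat_lit 850465), [(nat_lit 374496000), (nat_lit 462574000), (nat_lit 557984000)], [], [(nat_lit 1944147332), (nat_lit 1930010256), (nat_lit 2056292198), (nat_lit 1807561255), (nat_lit 3163315723), (nat_lit 2550440920), (nat_lit 3852634884), (nat_lit 3255171792)], (nat_lit 1271251), (nat_lit 1271251), (nat_lit 780000), (nat_lit 1435001), (nat_lit 0), (nat_lit 2825001), [(nat_lit 1695001), (nat_lit 1271251), (nat_lit 1271251)], [(nat_lit 27), (nat_lit 62), (nat_lit 456), (nat_lit 225), (nat_lit 12)]⟩⟩) (.leaf ⟨(nat_lit 959), (nat_lit 0), (nat_lit 0), (nat_lit 41), (nat_lit 0), (nat_lit 5190), (nat_lit 159), (nat_lit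 709), (nat_lit 0), (nat_lit 0), (nat_lit 253400), [((nat_lit 320), [((nat_lit 15), (nat_lit 0), (nat_lit 868)), ((nat_lit 15), (nat_lit 1), (nat_lit 91))])], ⟨(nat_lit 6), false, false, false, (nat_lit 147), (nat_lit 4472), (nat_lit 4744), [(nat_lit 1281597), (nat_lit 1288210), (nat_lit 1324567), (nat_lit 1331336), (nat_lit 1403571), (nat_lit 1407171), (nat_lit 1446540), (nat_lit 1450297)]⟩, ⟨(nat_lit 4), false, false, false, (nat_lit 172), (nat_lit 4472), (nat_lit 4744), [(nat_lit 1339111), (nat_lit 1342476), (nat_lit 1382085), (nat_lit 1385607), (nat_lit 1478510), (nat_lit 1478432), (nat_lit 1521484), (nat_lit 1521562)]⟩, (nat_lit 4164095), (nat_lit 48551805), (nat_lit 8062952), (nat_lit 10385243), (nat_lit 0), (nat_lit 0), [⟨(nat_lit 0), (nat_lit 100), (nat_lit 86), (nat_lit 83), (nat_lit 225038392)⟩], [], [⟨(nat_lit 0), (nat_lit 100), (nat_lit 92), (nat_lit 49), (nat_lit 1943238)⟩], [],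
 ⟨⟨[(nat_lit 60), (nat_lit 80), (nat_lit 100)], [(nat_lit 0), (nat_lit 456), (nat_lit 976)], [((nat_lit 0), (nat_lit 0), (nat_lit 0)), ((nat_lit 1000), (nat_lit 859), (nat_lit 351)), ((nat_lit 1000), (nat_lit 848), (nat_lit 406))], ((nat_lit 84), (nat_lit 100), (nat_lit 44))⟩, (nat_lit 1620394), (nat_lit 159), (nat_lit 159), (nat_lit 0), (nat_lit 123497), [(nat_lit 2287840337), (nat_lit 2682303836), (nat_lit 2833078800)], [(nat_lit 0), (nat_lit 0), (nat_lit 0)], [(nat_lit 15912432117), (nat_lit 17022036975), (nat_lit 15156695450), (nat_lit 15963426346), (nat_lit 18015637529), (nat_lit 18984394240), (nat_lit 16938355250), (nat_lit 17721203830)], (nat_lit 1271251), (nat_lit 1271251), (nat_lit 292188), (nat_lit 780000), (nat_lit 780000), (nat_lit 1435001), [(nat_lit 780000), (nat_lit 1100000), (nat_lit 1442501)], [(nat_lit 9), (nat_lit 50), (nat_lit 317), (nat_lit 100), (nat_lit 12)]⟩,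
 ⟨⟨[(nat_lit 80), (nat_lit 120), (nat_lit 140)], [(nat_lit 0), (nat_lit 0), (nat_lit 1164)], [((nat_lit 0), (nat_lit 0), (nat_lit 0)), ((nat_lit 0), (nat_lit 0), (nat_lit 0)), ((nat_lit 941), (nat_lit 1000), (nat_lit 576))], ((nat_lit 100), (nat_lit 99), (nat_lit 44))⟩, (nat_lit 119195), (nat_lit 325), (nat_lit 325), (nat_lit 0), (nat_lit 150688), [(nat_lit 192208000), (nat_lit 326688000), (nat_lit 403522000)], [], [(nat_lit 1710264957), (nat_lit 1566642819), (nat_lit 1487620706), (nat_lit 1553506750), (nat_lit 2045772297), (nat_lit 1906714315), (nat_lit 2192342074), (nat_lit 2056260652)], (nat_lit 1271251), (nat_lit 1271251), (nat_lit 292188), (nat_lit 780000), (nat_lit 0), (nat_lit 2825001), [(nat_lit 1100000), (nat_lit 1785001), (nat_lit 1271251)], [(nat_lit 17), (nat_lit 58), (nat_lit 428), (nat_lit 200), (nat_lit 13)]⟩,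
 ⟨⟨[(nat_lit 120), (nat_lit 140), (nat_lit 160)], [(nat_lit 0), (nat_lit 266), (nat_lit 862)], [((nat_lit 0), (nat_lit 0), (nat_lit 0)), ((nat_lit 960), (nat_lit 1000), (nat_lit 200)), ((nat_lit 874), (nat_lit 1000), (nat_lit 406))], ((nat_lit 100), (nat_lit 86), (nat_lit 44))⟩, (nat_lit 84158), (nat_lit 300), (nat_lit 844), (nat_lit 2722400), (nat_lit 1104519), [(nat_lit 326688000), (nat_lit 403522000), (nat_lit 486752000)], [], [(nat_lit 1555358477), (nat_lit 1583215334), (nat_lit 1836224176), (nat_lit 1500430373), (nat_lit 2919910401), (nat_lit 2281836634), (nat_lit 3616788556), (nat_lit 2994760168)], (nat_lit 1271251), (nat_lit 1271251), (nat_lit 780000), (nat_lit 1435001), (nat_lit 0), (nat_lit 2825001), [(nat_lit 1695001), (nat_lit 1271251), (nat_lit 1271251)], [(nat_lit 27), (nat_lit 62), (nat_lit 456), (nat_lit 225), (nat_lit 12)]⟩⟩)) (.trX (nat_lit 5) (nat_lit 4) (nat_lit 3) (nat_lit 100) (nat_lit 40) (nat_lit 92) (nat_lit 390) (.spl (nat_lit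 1) (nat_lit 260) (.leaf ⟨(nat_lit 928), (nat_lit 0), (nat_lit 0), (nat_lit 72), (nat_lit 2616), (nat_lit 4850), (nat_lit 229), (nat_lit 996), (nat_lit 0), (nat_lit 0), (nat_lit 886000), [((nat_lit 320), [((nat_lit 35), (nat_lit 2), (nat_lit 105)), ((nat_lit 15), (nat_lit 2), (nat_lit 823))])], ⟨(nat_lit 6), false, false, false, (nat_lit 141), (nat_lit 4472), (nat_lit 5000), [(nat_lit 1274989), (nat_lit 1288204), (nat_lit 1296408), (nat_lit 1309761), (nat_lit 1399984), (nat_lit 1407160), (nat_lit 1421400), (nat_lit 1428715)]⟩, ⟨(nat_lit 5), false, true, true, (nat_lit 214), (nat_lit 4472), (nat_lit 5000), [(nat_lit 1478570), (nat_lit 1478432), (nat_lit 1521416), (nat_lit 1521554), (nat_lit 1549999), (nat_lit 1546410), (nat_lit 1592840), (nat_lit 1589527)]⟩, (nat_lit 4477765), (nat_lit 45399757), (nat_lit 7398089), (nat_lit 14202154), (nat_lit 0), (nat_lit 0), [⟨(nat_lit 0), (nat_lit 100), (nat_lit 86), (nat_lit 77), (nat_lit 237037713)⟩], [], [⟨(nat_lit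 0), (nat_lit 100), (nat_lit 97), (nat_lit 25), (nat_lit 4098045)⟩, ⟨(nat_lit 0), (nat_lit 100), (nat_lit 96), (nat_lit 40), (nat_lit 13933179)⟩], [],
 ⟨⟨[(nat_lit 60), (nat_lit 80), (nat_lit 100)], [(nat_lit 0), (nat_lit 304), (nat_lit 825)], [((nat_lit 0), (nat_lit 0), (nat_lit 0)), ((nat_lit 1000), (nat_lit 905), (nat_lit 238)), ((nat_lit 1000), (nat_lit 871), (nat_lit 407))], ((nat_lit 87), (nat_lit 100), (nat_lit 44))⟩, (nat_lit 0), (nat_lit 122), (nat_lit 122), (nat_lit 0), (nat_lit 95240), [(nat_lit 2065548023), (nat_lit 2053370381), (nat_lit 1244266000)], [(nat_lit 0), (nat_lit 0), (nat_lit 0)], [(nat_lit 17205704282), (nat_lit 18729429600), (nat_lit 16617278261), (nat_lit 17917161700), (nat_lit 18747938975), (nat_lit 20448229750), (nat_lit 18008211675), (nat_lit 19287084600)], (nat_lit 1271251), (nat_lit 1271251), (nat_lit 292188), (nat_lit 780000), (nat_lit 1271251), (nat_lit 1271251), [(nat_lit 780000), (nat_lit 1100000), (nat_lit 1442501)],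 [(nat_lit 9), (nat_lit 50), (nat_lit 238), (nat_lit 30), (nat_lit 8)]⟩,
 ⟨⟨[(nat_lit 80), (nat_lit 120), (nat_lit 140)], [(nat_lit 0), (nat_lit 0), (nat_lit 1164)], [((nat_lit 0), (nat_lit 0), (nat_lit 0)), ((nat_lit 0), (nat_lit 0), (nat_lit 0)), ((nat_lit 941), (nat_lit 1000), (nat_lit 576))], ((nat_lit 100), (nat_lit 99), (nat_lit 44))⟩, (nat_lit 208294), (nat_lit 305), (nat_lit 305), (nat_lit 0), (nat_lit 122584), [(nat_lit 337536000), (nat_lit 573696000), (nat_lit 708624000)], [], [(nat_lit 2886097242), (nat_lit 2764518709), (nat_lit 2709750670), (nat_lit 2764149440), (nat_lit 3546221059), (nat_lit 3445760073), (nat_lit 3781457103), (nat_lit 3683154016)], (nat_lit 1271251), (nat_lit 1271251), (nat_lit 292188), (nat_lit 780000), (nat_lit 0), (nat_lit 2754376), [(nat_lit 1100000), (nat_lit 1785001), (nat_lit 1271251)], [(nat_lit 17), (nat_lit 58), (nat_lit 428), (nat_lit 200), (nat_lit 13)]⟩,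
 ⟨⟨[(nat_lit 120), (nat_lit 140), (nat_lit 160)], [(nat_lit 0), (nat_lit 266), (nat_lit 862)], [((nat_lit 0), (nat_lit 0), (nat_lit 0)), ((nat_lit 960), (nat_lit 1000), (nat_lit 200)), ((nat_lit 874), (nat_lit 1000), (nat_lit 406))], ((nat_lit 100), (nat_lit 86), (nat_lit 44))⟩, (nat_lit 147790), (nat_lit 300), (nat_lit 652), (nat_lit 4780800), (nat_lit 768467), [(nat_lit 573696000), (nat_lit 708624000), (nat_lit 854784000)], [], [(nat_lit 2883537426), (nat_lit 2853045270), (nat_lit 2857019388), (nat_lit 2818624728), (nat_lit 5018143752), (nat_lit 4141503520), (nat_lit 4135981011), (nat_lit 3270385797)], (nat_lit 1271251), (nat_lit 1271251), (nat_lit 1271251), (nat_lit 1271251), (nat_lit 0), (nat_lit 2754376), [(nat_lit 1695001), (nat_lit 1271251), (nat_lit 1271251)], [(nat_lit 27), (nat_lit 62), (nat_lit 456), (nat_lit 225), (nat_lit 12)]⟩⟩) (.trZ (nat_lit 0) (nat_lit 1) (nat_lit 3) (nat_lit 100) (nat_lit 91) (nat_lit 77) (nat_lit 60) (.leaf ⟨(nat_lit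 604), (nat_lit 207), (nat_lit 0), (nat_lit 189), (nat_lit 0), (nat_lit 5388), (nat_lit 4325), (nat_lit 1741), (nat_lit 0), (nat_lit 0), (nat_lit 1144000), [((nat_lit 320), [((nat_lit 15), (nat_lit 2), (nat_lit 424)), ((nat_lit 35), (nat_lit 5), (nat_lit 180))])], ⟨(nat_lit 6), false, false, false, (nat_lit 153), (nat_lit 4472), (nat_lit 5000), [(nat_lit 1314264), (nat_lit 1326754), (nat_lit 1335680), (nat_lit 1348308), (nat_lit 1421400), (nat_lit 1428715), (nat_lit 1442816), (nat_lit 1450269)]⟩, ⟨(nat_lit 5), false, true, true, (nat_lit 214), (nat_lit 4472), (nat_lit 5000), [(nat_lit 1478570), (nat_lit 1478432), (nat_lit 1521416), (nat_lit 1521554), (nat_lit 1549999), (nat_lit 1546410), (nat_lit 1592840), (nat_lit 1589527)]⟩, (nat_lit 4603962), (nat_lit 44602041), (nat_lit 8327010), (nat_lit 14070949), (nat_lit 5), (nat_lit 0), [⟨(nat_lit 0), (nat_lit 100), (nat_lit 89), (nat_lit 86), (nat_lit 151733882)⟩], [], [], [],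
 ⟨⟨[(nat_lit 60), (nat_lit 80), (nat_lit 100)], [(nat_lit 0), (nat_lit 304), (nat_lit 825)], [((nat_lit 0), (nat_lit 0), (nat_lit 0)), ((nat_lit 1000), (nat_lit 905), (nat_lit 238)), ((nat_lit 1000), (nat_lit 871), (nat_lit 407))], ((nat_lit 87), (nat_lit 100), (nat_lit 44))⟩, (nat_lit 0), (nat_lit 119), (nat_lit 119), (nat_lit 0), (nat_lit 124585), [(nat_lit 2475099371), (nat_lit 2501416588), (nat_lit 1501576000)], [(nat_lit 0), (nat_lit 0), (nat_lit 0)], [(nat_lit 16777837777), (nat_lit 18610257544), (nat_lit 16293232859), (nat_lit 17766854116), (nat_lit 18590792624), (nat_lit 20385123648), (nat_lit 17783360668), (nat_lit 19461200768)], (nat_lit 1271251), (nat_lit 1271251), (nat_lit 356250), (nat_lit 780000), (nat_lit 1271251), (nat_lit 1271251), [(nat_lit 780000), (nat_lit 1100000), (nat_lit 1442501)], [(nat_lit 9), (nat_lit 50), (nat_lit 238), (nat_lit 30), (nat_lit 8)]⟩,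
 ⟨⟨[(nat_lit 80), (nat_lit 100), (nat_lit 120)], [(nat_lit 0), (nat_lit 265), (nat_lit 768)], [((nat_lit 0), (nat_lit 0), (nat_lit 0)), ((nat_lit 1000), (nat_lit 959), (nat_lit 206)), ((nat_lit 1000), (nat_lit 958), (nat_lit 392))], ((nat_lit 96), (nat_lit 100), (nat_lit 44))⟩, (nat_lit 1261602), (nat_lit 241), (nat_lit 241), (nat_lit 0), (nat_lit 146842), [(nat_lit 1856448000), (nat_lit 2475000000), (nat_lit 3155328000)], [], [(nat_lit 11052002847), (nat_lit 9582218732), (nat_lit 7448165587), (nat_lit 8499528246), (nat_lit 17723953389), (nat_lit 15832595884), (nat_lit 20074745376), (nat_lit 18218147760)], (nat_lit 1271251), (nat_lit 1271251), (nat_lit 356250), (nat_lit 780000), (nat_lit 0), (nat_lit 2754376), [(nat_lit 1100000), (nat_lit 1442501), (nat_lit 1271251)], [(nat_lit 16), (nat_lit 54), (nat_lit 373), (nat_lit 150), (nat_lit 13)]⟩,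
 ⟨⟨[(nat_lit 120), (nat_lit 140), (nat_lit 160)], [(nat_lit 0), (nat_lit 266), (nat_lit 862)], [((nat_lit 0), (nat_lit 0), (nat_lit 0)), ((nat_lit 960), (nat_lit 1000), (nat_lit 200)), ((nat_lit 874), (nat_lit 1000), (nat_lit 406))], ((nat_lit 100), (nat_lit 86), (nat_lit 44))⟩, (nat_lit 387947), (nat_lit 300), (nat_lit 809), (nat_lit 12549601), (nat_lit 1103418), [(nat_lit 1505952000), (nat_lit 1860138000), (nat_lit 2243808000)], [], [(nat_lit 10353908499), (nat_lit 10232114316), (nat_lit 10235134926), (nat_lit 10107299523), (nat_lit 11850829405), (nat_lit 10318469321), (nat_lit 10308816020), (nat_lit 8795762539)], (nat_lit 1271251), (nat_lit 1271251), (nat_lit 1271251), (nat_lit 1271251), (nat_lit 0), (nat_lit 2754376), [(nat_lit 1695001), (nat_lit 1271251), (nat_lit 1271251)], [(nat_lit 27), (nat_lit 62), (nat_lit 456), (nat_lit 225), (nat_lit 12)]⟩⟩))))) (.trZ (nat_lit 0) (nat_lit 1) (nat_lit 3) (nat_lit 100) (nat_lit 94) (nat_lit 88) (nat_lit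 80) (.leaf ⟨(nat_lit 565), (nat_lit 262), (nat_lit 0), (nat_lit 173), (nat_lit 0), (nat_lit 5554), (nat_lit 4366), (nat_lit 1228), (nat_lit 12330), (nat_lit 0), (nat_lit 1117000), [((nat_lit 320), [((nat_lit 15), (nat_lit 2), (nat_lit 381)), ((nat_lit 35), (nat_lit 5), (nat_lit 184))])], ⟨(nat_lit 7), false, false, false, (nat_lit 173), (nat_lit 4472), (nat_lit 5000), [(nat_lit 1371392), (nat_lit 1382295), (nat_lit 1414225), (nat_lit 1425403), (nat_lit 1442816), (nat_lit 1450269), (nat_lit 1485648), (nat_lit 1493376)]⟩, ⟨(nat_lit 4), false, false, false, (nat_lit 186), (nat_lit 4472), (nat_lit 5000), [(nat_lit 1335713), (nat_lit 1342476), (nat_lit 1378566), (nat_lit 1385605), (nat_lit 1549999), (nat_lit 1546410), (nat_lit 1592840), (nat_lit 1589527)]⟩, (nat_lit 4571277), (nat_lit 45455323), (nat_lit 10168872), (nat_lit 11375805), (nat_lit 4), (nat_lit 0), [⟨(nat_lit 0), (nat_lit 97), (nat_lit 93), (nat_lit 100), (nat_lit 377972878)⟩], [], [], [],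
 ⟨⟨[(nat_lit 60), (nat_lit 80), (nat_lit 100)], [(nat_lit 0), (nat_lit 304), (nat_lit 825)], [((nat_lit 0), (nat_lit 0), (nat_lit 0)), ((nat_lit 1000), (nat_lit 905), (nat_lit 238)), ((nat_lit 1000), (nat_lit 871), (nat_lit 407))], ((nat_lit 87), (nat_lit 100), (nat_lit 44))⟩, (nat_lit 0), (nat_lit 155), (nat_lit 155), (nat_lit 0), (nat_lit 199469), [(nat_lit 2564739900), (nat_lit 2613163162), (nat_lit 1685111600)], [(nat_lit 0), (nat_lit 0), (nat_lit 0)], [(nat_lit 14079767488), (nat_lit 15831518404), (nat_lit 14490579102), (nat_lit 16114358094), (nat_lit 17636255166), (nat_lit 19422720232), (nat_lit 17807772794), (nat_lit 19514924344)], (nat_lit 1271251), (nat_lit 1271251), (nat_lit 490000), (nat_lit 780000), (nat_lit 780000), (nat_lit 1762501), [(nat_lit 780000), (nat_lit 1100000), (nat_lit 1442501)], [(nat_lit 9), (nat_lit 50), (nat_lit 317), (nat_lit 100), (nat_lit 12)]⟩,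
 ⟨⟨[(nat_lit 60), (nat_lit 100), (nat_lit 120)], [(nat_lit 0), (nat_lit 0), (nat_lit 1164)], [((nat_lit 0), (nat_lit 0), (nat_lit 0)), ((nat_lit 0), (nat_lit 0), (nat_lit 0)), ((nat_lit 1000), (nat_lit 933), (nat_lit 572))], ((nat_lit 92), (nat_lit 100), (nat_lit 44))⟩, (nat_lit 700992), (nat_lit 263), (nat_lit 263), (nat_lit 0), (nat_lit 203096), [(nat_lit 1427670000), (nat_lit 2718750000), (nat_lit 3466080000)], [], [(nat_lit 11796769144), (nat_lit 12024693960), (nat_lit 9782981340), (nat_lit 11770210838), (nat_lit 16182650184), (nat_lit 17282337060), (nat_lit 17968863288), (nat_lit 16585737842)], (nat_lit 1271251), (nat_lit 1271251), (nat_lit 490000), (nat_lit 780000), (nat_lit 0), (nat_lit 2825001), [(nat_lit 780000), (nat_lit 1435001), (nat_lit 1271251)], [(nat_lit 10), (nat_lit 54), (nat_lit 373), (nat_lit 150), (nat_lit 12)]⟩,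
 ⟨⟨[(nat_lit 120), (nat_lit 140), (nat_lit 160)], [(nat_lit 0), (nat_lit 266), (nat_lit 862)], [((nat_lit 0), (nat_lit 0), (nat_lit 0)), ((nat_lit 960), (nat_lit 1000), (nat_lit 200)), ((nat_lit 874), (nat_lit 1000), (nat_lit 406))], ((nat_lit 100), (nat_lit 86), (nat_lit 44))⟩, (nat_lit 355105), (nat_lit 300), (nat_lit 1228), (nat_lit 11487201), (nat_lit 1950149), [(nat_lit 1378464000), (nat_lit 1702666000), (nat_lit 2053856000)], [], [(nat_lit 13315341908), (nat_lit 13213999063), (nat_lit 12952432247), (nat_lit 12846745670), (nat_lit 12136427882), (nat_lit 12020929287), (nat_lit 12084399920), (nat_lit 11624959962)], (nat_lit 1271251), (nat_lit 1271251), (nat_lit 780000), (nat_lit 1762501), (nat_lit 0), (nat_lit 2825001), [(nat_lit 1695001), (nat_lit 1271251), (nat_lit 1271251)], [(nat_lit 27), (nat_lit 62), (nat_lit 456), (nat_lit 225), (nat_lit 12)]⟩⟩)))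
noncomputable def c4_18 : Tr Lf :=
 (.spl (nat_lit 1) (nat_lit 280) (.spl (nat_lit 3) (nat_lit 80) (.spl (nat_lit 1) (nat_lit 260) (.spl (nat_lit 6) (nat_lit 28) (.leaf ⟨(nat_lit 1000), (nat_lit 0), (nat_lit 0), (nat_lit 0), (nat_lit 43885), (nat_lit 4273), (nat_lit 0), (nat_lit 0), (nat_lit 0), (nat_lit 0), (nat_lit 250000), [((nat_lit 320), [((nat_lit 15), (nat_lit 0), (nat_lit 1000))])], ⟨(nat_lit 6), false, false, false, (nat_lit 127), (nat_lit 4472), (nat_lit 5000), [(nat_lit 1274989), (nat_lit 1288204), (nat_lit 1296408), (nat_lit 1309761), (nat_lit 1328559), (nat_lit 1339186), (nat_lit 1349976), (nat_lit 1360741)]⟩, ⟨(nat_lit 3), false, false, true, (nat_lit 173), (nat_lit 4472), (nat_lit 5000), [(nat_lit 1271427), (nat_lit 1277776), (nat_lit 1378566), (nat_lit 1385605), (nat_lit 1485713), (nat_lit 1481711), (nat_lit 1592840), (nat_lit 1589527)]⟩, (nat_lit 3940661), (nat_lit 49914457), (nat_lit 6540896), (nat_lit 10544647), (nat_lit 0), (nat_lit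 0), [⟨(nat_lit 0), (nat_lit 100), (nat_lit 84), (nat_lit 85), (nat_lit 1450105373)⟩], [], [], [],
 ⟨⟨[(nat_lit 60), (nat_lit 100), (nat_lit 120)], [(nat_lit 0), (nat_lit 609), (nat_lit 1609)], [((nat_lit 0), (nat_lit 0), (nat_lit 0)), ((nat_lit 1000), (nat_lit 905), (nat_lit 238)), ((nat_lit 1000), (nat_lit 882), (nat_lit 668))], ((nat_lit 87), (nat_lit 100), (nat_lit 51))⟩, (nat_lit 0), (nat_lit 157), (nat_lit 157), (nat_lit 0), (nat_lit 29868), [(nat_lit 2318400113), (nat_lit 99777012838), (nat_lit 3071600000)], [(nat_lit 0), (nat_lit 0), (nat_lit 0)], [(nat_lit 14295799178), (nat_lit 16284376958), (nat_lit 13343711735), (nat_lit 15108489341), (nat_lit 18369202811), (nat_lit 19957569145), (nat_lit 17404058708), (nat_lit 18814619284)], (nat_lit 1271251), (nat_lit 1271251), (nat_lit 292188), (nat_lit 490000), (nat_lit 780000), (nat_lit 1762501), [(nat_lit 780000), (nat_lit 1435001), (nat_lit 1271251)], [(nat_lit 10), (nat_lit 54), (nat_lit 317), (nat_lit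 100), (nat_lit 10)]⟩,
 Rw.none,
 Rw.none⟩) (.dle (nat_lit 0))) (.trZ (nat_lit 0) (nat_lit 1) (nat_lit 3) (nat_lit 100) (nat_lit 91) (nat_lit 77) (nat_lit 60) (.leaf ⟨(nat_lit 1000), (nat_lit 0), (nat_lit 0), (nat_lit 0), (nat_lit 71552), (nat_lit 4742), (nat_lit 0), (nat_lit 0), (nat_lit 0), (nat_lit 0), (nat_lit 921400), [((nat_lit 320), [((nat_lit 15), (nat_lit 1), (nat_lit 131)), ((nat_lit 15), (nat_lit 2), (nat_lit 869))])], ⟨(nat_lit 6), false, false, false, (nat_lit 139), (nat_lit 4472), (nat_lit 5000), [(nat_lit 1314264), (nat_lit 1326754), (nat_lit 1335680), (nat_lit 1348308), (nat_lit 1349976), (nat_lit 1360741), (nat_lit 1371392), (nat_lit 1382295)]⟩, ⟨(nat_lit 3), false, false, true, (nat_lit 173), (nat_lit 4472), (nat_lit 5000), [(nat_lit 1271427), (nat_lit 1277776), (nat_lit 1378566), (nat_lit 1385605), (nat_lit 1485713), (nat_lit 1481711), (nat_lit 1592840), (nat_lit 1589527)]⟩, (nat_lit 4087793), (nat_lit 49030387), (nat_lit 7482956),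 (nat_lit 10486657), (nat_lit 0), (nat_lit 0), [⟨(nat_lit 0), (nat_lit 100), (nat_lit 89), (nat_lit 86), (nat_lit 3452645990)⟩], [], [], [],
 ⟨⟨[(nat_lit 60), (nat_lit 100), (nat_lit 120)], [(nat_lit 0), (nat_lit 609), (nat_lit 1609)], [((nat_lit 0), (nat_lit 0), (nat_lit 0)), ((nat_lit 1000), (nat_lit 905), (nat_lit 238)), ((nat_lit 1000), (nat_lit 882), (nat_lit 668))], ((nat_lit 87), (nat_lit 100), (nat_lit 60))⟩, (nat_lit 0), (nat_lit 157), (nat_lit 157), (nat_lit 0), (nat_lit 94844), [(nat_lit 2167027796), (nat_lit 1151667425), (nat_lit 0)], [(nat_lit 0), (nat_lit 0), (nat_lit 302470800)], [(nat_lit 15412513444), (nat_lit 16897141779), (nat_lit 14889941551), (nat_lit 16215263928), (nat_lit 18503715140), (nat_lit 19916679332), (nat_lit 17845949507), (nat_lit 19037257336)], (nat_lit 1271251), (nat_lit 1271251), (nat_lit 356250), (nat_lit 490000), (nat_lit 780000), (nat_lit 1762501), [(nat_lit 780000), (nat_lit 1435001), (nat_lit 1271251)], [(nat_lit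 10), (nat_lit 54), (nat_lit 317), (nat_lit 100), (nat_lit 10)]⟩,
 Rw.none,
 Rw.none⟩))) (.spl (nat_lit 2) (nat_lit 180) (.leaf ⟨(nat_lit 987), (nat_lit 0), (nat_lit 0), (nat_lit 13), (nat_lit 3885), (nat_lit 4324), (nat_lit 92), (nat_lit 186), (nat_lit 0), (nat_lit 0), (nat_lit 246750), [((nat_lit 320), [((nat_lit 15), (nat_lit 0), (nat_lit 987))])], ⟨(nat_lit 6), false, false, false, (nat_lit 156), (nat_lit 4472), (nat_lit 5000), [(nat_lit 1328559), (nat_lit 1339186), (nat_lit 1371392), (nat_lit 1382295), (nat_lit 1399984), (nat_lit 1407160), (nat_lit 1442816), (nat_lit 1450269)]⟩, ⟨(nat_lit 3), false, false, true, (nat_lit 165), (nat_lit 4472), (nat_lit 5000), [(nat_lit 1271427), (nat_lit 1277776), (nat_lit 1335713), (nat_lit 1342476), (nat_lit 1485713), (nat_lit 1481711), (nat_lit 1549999), (nat_lit 1546410)]⟩, (nat_lit 4186604), (nat_lit 48478503), (nat_lit 8878246), (nat_lit 9643251), (nat_lit 0), (nat_lit 0), [⟨(nat_lit 0), (nat_lit 100), (nat_lit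 87), (nat_lit 95), (nat_lit 61281524)⟩], [], [], [],
 ⟨⟨[(nat_lit 60), (nat_lit 100), (nat_lit 120)], [(nat_lit 0), (nat_lit 609), (nat_lit 1609)], [((nat_lit 0), (nat_lit 0), (nat_lit 0)), ((nat_lit 1000), (nat_lit 905), (nat_lit 238)), ((nat_lit 1000), (nat_lit 882), (nat_lit 668))], ((nat_lit 87), (nat_lit 100), (nat_lit 60))⟩, (nat_lit 0), (nat_lit 147), (nat_lit 147), (nat_lit 0), (nat_lit 93435), [(nat_lit 2323321801), (nat_lit 100774760976), (nat_lit 3135253200)], [(nat_lit 0), (nat_lit 0), (nat_lit 0)], [(nat_lit 13302994237), (nat_lit 15085482912), (nat_lit 13927178544), (nat_lit 15607751673), (nat_lit 17371113661), (nat_lit 18838829392), (nat_lit 17797657573), (nat_lit 19141744777)], (nat_lit 1271251), (nat_lit 1271251), (nat_lit 490000), (nat_lit 780000), (nat_lit 780000), (nat_lit 1762501), [(nat_lit 780000), (nat_lit 1435001), (nat_lit 1271251)], [(nat_lit 10), (nat_lit 54), (nat_lit 317), (nat_lit 100), (nat_lit 10)]⟩,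
 ⟨⟨[(nat_lit 80), (nat_lit 120), (nat_lit 160)], [(nat_lit 0), (nat_lit 0), (nat_lit 2132)], [((nat_lit 0), (nat_lit 0), (nat_lit 0)), ((nat_lit 0), (nat_lit 0), (nat_lit 0)), ((nat_lit 858), (nat_lit 1000), (nat_lit 713))], ((nat_lit 100), (nat_lit 92), (nat_lit 61))⟩, (nat_lit 24984), (nat_lit 352), (nat_lit 352), (nat_lit 0), (nat_lit 119897), [(nat_lit 60944000), (nat_lit 103584000), (nat_lit 154336000)], [], [(nat_lit 564726952), (nat_lit 468537280), (nat_lit 468171480), (nat_lit 464447287), (nat_lit 680943628), (nat_lit 601242372), (nat_lit 723042372), (nat_lit 644303436)], (nat_lit 1271251), (nat_lit 1271251), (nat_lit 490000), (nat_lit 780000), (nat_lit 0), (nat_lit 2825001), [(nat_lit 1100000), (nat_lit 1785001), (nat_lit 1271251)], [(nat_lit 18), (nat_lit 59), (nat_lit 428), (nat_lit 200), (nat_lit 11)]⟩,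
 ⟨⟨[(nat_lit 140), (nat_lit 180), (nat_lit 200)], [(nat_lit 0), (nat_lit 0), (nat_lit 2835)], [((nat_lit 0), (nat_lit 0), (nat_lit 0)), ((nat_lit 0), (nat_lit 0), (nat_lit 0)), ((nat_lit 363), (nat_lit 1000), (nat_lit 798))], ((nat_lit 0), (nat_lit 0), (nat_lit 0))⟩, (nat_lit 3577), (nat_lit 300), (nat_lit 1046), (nat_lit 1015300), (nat_lit 1154350), [(nat_lit 127946000), (nat_lit 182754000), (nat_lit 213200000)], [], [(nat_lit 967477741), (nat_lit 894236350), (nat_lit 860540680), (nat_lit 818355393), (nat_lit 894314492), (nat_lit 1037445768), (nat_lit 1182707064), (nat_lit 1334983774)], (nat_lit 780000), (nat_lit 1271251), (nat_lit 780000), (nat_lit 1762501), (nat_lit 0), (nat_lit 2825001), [(nat_lit 1977501), (nat_lit 1271251), (nat_lit 1271251)], [(nat_lit 32), (nat_lit 67), (nat_lit 456), (nat_lit 225), (nat_lit 10)]⟩⟩) (.spl (nat_lit 6) (nat_lit 28) (.leaf ⟨(nat_lit 0), (nat_lit 495), (nat_lit 0), (nat_lit 505), (nat_lit 113402), (nat_lit 5212),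 (nat_lit 6962), (nat_lit 2500), (nat_lit 0), (nat_lit 0), (nat_lit 0), [], Pd.none, Pd.none, (nat_lit 0), (nat_lit 1), (nat_lit 0), (nat_lit 0), (nat_lit 4), (nat_lit 0), [⟨(nat_lit 0), (nat_lit 100), (nat_lit 87), (nat_lit 95), (nat_lit 864454437)⟩], [], [], [],
 ⟨⟨[(nat_lit 60), (nat_lit 100), (nat_lit 120)], [(nat_lit 0), (nat_lit 609), (nat_lit 1609)], [((nat_lit 0), (nat_lit 0), (nat_lit 0)), ((nat_lit 1000), (nat_lit 905), (nat_lit 238)), ((nat_lit 1000), (nat_lit 882), (nat_lit 668))], ((nat_lit 87), (nat_lit 100), (nat_lit 51))⟩, (nat_lit 0), (nat_lit 143), (nat_lit 143), (nat_lit 0), (nat_lit 40465), [(nat_lit 3282000005), (nat_lit 101295878615), (nat_lit 7968000000)], [], [(nat_lit 13467013673), (nat_lit 15446561237), (nat_lit 14013286414), (nat_lit 15882428341), (nat_lit 17670465185), (nat_lit 19260370096), (nat_lit 17994390041), (nat_lit 19475114693)], (nat_lit 1271251), (nat_lit 1271251), (nat_lit 490000), (nat_lit 780000), (nat_lit 780000),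 (nat_lit 1762501), [(nat_lit 780000), (nat_lit 1435001), (nat_lit 1271251)], [(nat_lit 10), (nat_lit 54), (nat_lit 317), (nat_lit 100), (nat_lit 10)]⟩,
 ⟨⟨[(nat_lit 80), (nat_lit 120), (nat_lit 140)], [(nat_lit 0), (nat_lit 0), (nat_lit 1164)], [((nat_lit 0), (nat_lit 0), (nat_lit 0)), ((nat_lit 0), (nat_lit 0), (nat_lit 0)), ((nat_lit 941), (nat_lit 1000), (nat_lit 576))], ((nat_lit 100), (nat_lit 96), (nat_lit 52))⟩, (nat_lit 0), (nat_lit 233), (nat_lit 233), (nat_lit 0), (nat_lit 50988), [(nat_lit 4688000000), (nat_lit 7968000000), (nat_lit 9842000000)], [], [(nat_lit 43265403952), (nat_lit 35959652904), (nat_lit 35958673560), (nat_lit 35793789092), (nat_lit 52336900672), (nat_lit 46305594756), (nat_lit 55541514756), (nat_lit 49583031360)], (nat_lit 1271251), (nat_lit 1271251), (nat_lit 490000), (nat_lit 780000), (nat_lit 0), (nat_lit 2825001), [(nat_lit 1100000), (nat_lit 1785001), (nat_lit 1271251)], [(nat_lit 17), (nat_lit 58), (nat_lit 428),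 (nat_lit 200), (nat_lit 13)]⟩,
 ⟨⟨[(nat_lit 120), (nat_lit 140), (nat_lit 160)], [(nat_lit 0), (nat_lit 266), (nat_lit 862)], [((nat_lit 0), (nat_lit 0), (nat_lit 0)), ((nat_lit 960), (nat_lit 1000), (nat_lit 200)), ((nat_lit 874), (nat_lit 1000), (nat_lit 406))], ((nat_lit 100), (nat_lit 81), (nat_lit 51))⟩, (nat_lit 564731), (nat_lit 300), (nat_lit 342), (nat_lit 34428512), (nat_lit 143034), [(nat_lit 4023840000), (nat_lit 4970210000), (nat_lit 5995360000)], [], [(nat_lit 22728022610), (nat_lit 23143612035), (nat_lit 23449076910), (nat_lit 23761503084), (nat_lit 27265309530), (nat_lit 25015402030), (nat_lit 32396347800), (nat_lit 30230552800)], (nat_lit 1271251), (nat_lit 1271251), (nat_lit 780000), (nat_lit 1762501), (nat_lit 0), (nat_lit 2825001), [(nat_lit 1695001), (nat_lit 1271251), (nat_lit 1271251)], [(nat_lit 27), (nat_lit 62), (nat_lit 456), (nat_lit 225), (nat_lit 12)]⟩⟩) (.dle (nat_lit 0))))) (.trZ (nat_lit 0) (nat_lit 1) (nat_lit 3)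 (nat_lit 100) (nat_lit 94) (nat_lit 88) (nat_lit 80) (.spl (nat_lit 5) (nat_lit 200) (.leaf ⟨(nat_lit 0), (nat_lit 914), (nat_lit 0), (nat_lit 86), (nat_lit 3148), (nat_lit 13558), (nat_lit 12117), (nat_lit 1049), (nat_lit 420773), (nat_lit 0), (nat_lit 0), [], Pd.none, Pd.none, (nat_lit 0), (nat_lit 1), (nat_lit 0), (nat_lit 0), (nat_lit 3), (nat_lit 0), [⟨(nat_lit 0), (nat_lit 97), (nat_lit 93), (nat_lit 100), (nat_lit 929254294)⟩], [], [], [],
 ⟨⟨[(nat_lit 60), (nat_lit 100), (nat_lit 120)], [(nat_lit 0), (nat_lit 609), (nat_lit 1609)], [((nat_lit 0), (nat_lit 0), (nat_lit 0)), ((nat_lit 1000), (nat_lit 905), (nat_lit 238)), ((nat_lit 1000), (nat_lit 882), (nat_lit 668))], ((nat_lit 87), (nat_lit 100), (nat_lit 60))⟩, (nat_lit 0), (nat_lit 165), (nat_lit 165), (nat_lit 0), (nat_lit 241048), [(nat_lit 7604379707), (nat_lit 7843273786), (nat_lit 7968000000)], [], [(nat_lit 16924384184), (nat_lit 19861686732), (nat_lit 16246079627), (nat_lit 18994626512),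 (nat_lit 20043354788), (nat_lit 23222283064), (nat_lit 19001155087), (nat_lit 22105306888)], (nat_lit 1271251), (nat_lit 1271251), (nat_lit 490000), (nat_lit 780000), (nat_lit 780000), (nat_lit 1762501), [(nat_lit 780000), (nat_lit 1435001), (nat_lit 1271251)], [(nat_lit 10), (nat_lit 54), (nat_lit 317), (nat_lit 100), (nat_lit 10)]⟩,
 ⟨⟨[(nat_lit 60), (nat_lit 100), (nat_lit 140)], [(nat_lit 0), (nat_lit 0), (nat_lit 2047)], [((nat_lit 0), (nat_lit 0), (nat_lit 0)), ((nat_lit 0), (nat_lit 0), (nat_lit 0)), ((nat_lit 1000), (nat_lit 993), (nat_lit 781))], ((nat_lit 94), (nat_lit 100), (nat_lit 62))⟩, (nat_lit 2679144), (nat_lit 339), (nat_lit 339), (nat_lit 0), (nat_lit 250837), [(nat_lit 3282000000), (nat_lit 6250000000), (nat_lit 9842000000)], [], [(nat_lit 25692822580), (nat_lit 31030893492), (nat_lit 24866845729), (nat_lit 29880294938), (nat_lit 17016923372), (nat_lit 21032895936), (nat_lit 20091006480), (nat_lit 19986498377)], (nat_lit 1271251),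 (nat_lit 1271251), (nat_lit 490000), (nat_lit 780000), (nat_lit 0), (nat_lit 1412501), [(nat_lit 780000), (nat_lit 1435001), (nat_lit 1271251)], [(nat_lit 11), (nat_lit 55), (nat_lit 317), (nat_lit 100), (nat_lit 9)]⟩,
 ⟨⟨[(nat_lit 140), (nat_lit 180), (nat_lit 200)], [(nat_lit 0), (nat_lit 0), (nat_lit 2835)], [((nat_lit 0), (nat_lit 0), (nat_lit 0)), ((nat_lit 0), (nat_lit 0), (nat_lit 0)), ((nat_lit 363), (nat_lit 1000), (nat_lit 798))], ((nat_lit 0), (nat_lit 0), (nat_lit 0))⟩, (nat_lit 23661), (nat_lit 300), (nat_lit 1978), (nat_lit 6716606), (nat_lit 3198724), [(nat_lit 846412000), (nat_lit 1208988000), (nat_lit 1410400000)], [], [(nat_lit 6401122886), (nat_lit 6031696569), (nat_lit 5947566964), (nat_lit 5579073529), (nat_lit 5264354398), (nat_lit 5406957573), (nat_lit 5652774474), (nat_lit 6991134444)], (nat_lit 780000), (nat_lit 1598751), (nat_lit 780000), (nat_lit 1762501), (nat_lit 0), (nat_lit 1412501), [(nat_lit 1977501), (nat_lit 1271251),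 (nat_lit 1271251)], [(nat_lit 32), (nat_lit 67), (nat_lit 577), (nat_lit 175), (nat_lit 12)]⟩⟩) (.spl (nat_lit 1) (nat_lit 300) (.leaf ⟨(nat_lit 0), (nat_lit 815), (nat_lit 0), (nat_lit 185), (nat_lit 0), (nat_lit 13551), (nat_lit 6894), (nat_lit 2099), (nat_lit 0), (nat_lit 0), (nat_lit 0), [], Pd.none, Pd.none, (nat_lit 0), (nat_lit 1), (nat_lit 0), (nat_lit 0), (nat_lit 5), (nat_lit 0), [⟨(nat_lit 0), (nat_lit 100), (nat_lit 94), (nat_lit 97), (nat_lit 811682464)⟩], [], [⟨(nat_lit 1), (nat_lit 59), (nat_lit 90), (nat_lit 100), (nat_lit 391129394)⟩], [],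
 ⟨⟨[(nat_lit 60), (nat_lit 100), (nat_lit 120)], [(nat_lit 0), (nat_lit 609), (nat_lit 1609)], [((nat_lit 0), (nat_lit 0), (nat_lit 0)), ((nat_lit 1000), (nat_lit 905), (nat_lit 238)), ((nat_lit 1000), (nat_lit 882), (nat_lit 668))], ((nat_lit 87), (nat_lit 100), (nat_lit 60))⟩, (nat_lit 0), (nat_lit 152), (nat_lit 152), (nat_lit 0), (nat_lit 165201), [(nat_lit 7065231286), (nat_lit 7772126998), (nat_lit 7968000000)], [], [(nat_lit 16929209998), (nat_lit 19865356454), (nat_lit 16251732640), (nat_lit 18999210364), (nat_lit 20048176486), (nat_lit 23218960108), (nat_lit 19006957202), (nat_lit 22103041436)], (nat_lit 1271251), (nat_lit 1271251), (nat_lit 490000), (nat_lit 780000), (nat_lit 780000), (nat_lit 1762501), [(nat_lit 780000), (nat_lit 1435001), (nat_lit 1271251)], [(nat_lit 10), (nat_lit 54), (nat_lit 317), (nat_lit 100), (nat_lit 10)]⟩,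
 ⟨⟨[(nat_lit 60), (nat_lit 100), (nat_lit 140)], [(nat_lit 0), (nat_lit 0), (nat_lit 2047)], [((nat_lit 0), (nat_lit 0), (nat_lit 0)), ((nat_lit 0), (nat_lit 0), (nat_lit 0)), ((nat_lit 1000), (nat_lit 993), (nat_lit 781))], ((nat_lit 94), (nat_lit 100), (nat_lit 62))⟩, (nat_lit 2773323), (nat_lit 213), (nat_lit 213), (nat_lit 0), (nat_lit 182118), [(nat_lit 3282000000), (nat_lit 6250000000), (nat_lit 9842000000)], [], [(nat_lit 20378808299), (nat_lit 21790087723), (nat_lit 20303945923), (nat_lit 21634833066), (nat_lit 32160858728), (nat_lit 33172732610), (nat_lit 31562893992), (nat_lit 32402652700)], (nat_lit 1271251), (nat_lit 1271251), (nat_lit 490000), (nat_lit 780000), (nat_lit 1271251), (nat_lit 1271251), [(nat_lit 780000), (nat_lit 1435001), (nat_lit 1271251)], [(nat_lit 11), (nat_lit 55), (nat_lit 373), (nat_lit 150), (nat_lit 10)]⟩,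
 ⟨⟨[(nat_lit 140), (nat_lit 180), (nat_lit 200)], [(nat_lit 0), (nat_lit 0), (nat_lit 2835)], [((nat_lit 0), (nat_lit 0), (nat_lit 0)), ((nat_lit 0), (nat_lit 0), (nat_lit 0)), ((nat_lit 363), (nat_lit 1000), (nat_lit 798))], ((nat_lit 0), (nat_lit 0), (nat_lit 0))⟩, (nat_lit 50899), (nat_lit 300), (nat_lit 1340), (nat_lit 14448507), (nat_lit 2106290), [(nat_lit 1820770000), (nat_lit 2600730000), (nat_lit 3034000000)], [], [(nat_lit 12081914066), (nat_lit 11334307296), (nat_lit 11172995946), (nat_lit 10433531105), (nat_lit 11332048344), (nat_lit 10569933576), (nat_lit 10401275944), (nat_lit 9638443058)], (nat_lit 780000), (nat_lit 1598751), (nat_lit 780000), (nat_lit 1762501), (nat_lit 1271251), (nat_lit 1271251), [(nat_lit 1977501), (nat_lit 1271251), (nat_lit 1271251)], [(nat_lit 32), (nat_lit 67), (nat_lit 456), (nat_lit 225), (nat_lit 10)]⟩⟩) (.trZ (nat_lit 0) (nat_lit 1) (nat_lit 3) (nat_lit 100) (nat_lit 100) (nat_lit 100) (nat_lit 100) (.trX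 (nat_lit 5) (nat_lit 1) (nat_lit 2) (nat_lit 87) (nat_lit 41) (nat_lit 100) (nat_lit 390) (.leaf ⟨(nat_lit 0), (nat_lit 860), (nat_lit 0), (nat_lit 140), (nat_lit 0), (nat_lit 13575), (nat_lit 6374), (nat_lit 1589), (nat_lit 1584124), (nat_lit 0), (nat_lit 0), [], Pd.none, Pd.none, (nat_lit 0), (nat_lit 1), (nat_lit 0), (nat_lit 0), (nat_lit 5), (nat_lit 0), [⟨(nat_lit 0), (nat_lit 91), (nat_lit 91), (nat_lit 100), (nat_lit 1125232391)⟩], [], [⟨(nat_lit 1), (nat_lit 68), (nat_lit 84), (nat_lit 100), (nat_lit 400699238)⟩], [],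
 ⟨⟨[(nat_lit 60), (nat_lit 100), (nat_lit 120)], [(nat_lit 0), (nat_lit 609), (nat_lit 1609)], [((nat_lit 0), (nat_lit 0), (nat_lit 0)), ((nat_lit 1000), (nat_lit 905), (nat_lit 238)), ((nat_lit 1000), (nat_lit 882), (nat_lit 668))], ((nat_lit 87), (nat_lit 100), (nat_lit 60))⟩, (nat_lit 0), (nat_lit 159), (nat_lit 159), (nat_lit 0), (nat_lit 241306), [(nat_lit 7551805706), (nat_lit 8140795688), (nat_lit 7968000000)], [], [(nat_lit 16572507616), (nat_lit 19418134425), (nat_lit 16232350882), (nat_lit 18983494300), (nat_lit 19509354594), (nat_lit 22670580900), (nat_lit 18987349075), (nat_lit 22110808700)], (nat_lit 1271251), (nat_lit 1271251), (nat_lit 631250), (nat_lit 780000), (nat_lit 780000), (nat_lit 1762501), [(nat_lit 780000), (nat_lit 1435001), (nat_lit 1271251)], [(nat_lit 10), (nat_lit 54), (nat_lit 317), (nat_lit 100), (nat_lit 10)]⟩,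
 ⟨⟨[(nat_lit 60), (nat_lit 100), (nat_lit 120)], [(nat_lit 0), (nat_lit 609), (nat_lit 1609)], [((nat_lit 0), (nat_lit 0), (nat_lit 0)), ((nat_lit 1000), (nat_lit 905), (nat_lit 238)), ((nat_lit 1000), (nat_lit 882), (nat_lit 668))], ((nat_lit 87), (nat_lit 100), (nat_lit 60))⟩, (nat_lit 2284276), (nat_lit 202), (nat_lit 202), (nat_lit 0), (nat_lit 241306), [(nat_lit 3282000000), (nat_lit 6250000000), (nat_lit 7968000000)], [], [(nat_lit 22641336283), (nat_lit 23641547801), (nat_lit 22630997253), (nat_lit 23601597054), (nat_lit 30999409899), (nat_lit 32092923918), (nat_lit 30684457414), (nat_lit 31750755260)], (nat_lit 1271251), (nat_lit 1271251), (nat_lit 631250), (nat_lit 780000), (nat_lit 1271251), (nat_lit 1271251), [(nat_lit 780000), (nat_lit 1435001), (nat_lit 1271251)], [(nat_lit 10), (nat_lit 54), (nat_lit 373), (nat_lit 150), (nat_lit 11)]⟩,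
 ⟨⟨[(nat_lit 140), (nat_lit 180), (nat_lit 200)], [(nat_lit 0), (nat_lit 0), (nat_lit 2835)], [((nat_lit 0), (nat_lit 0), (nat_lit 0)), ((nat_lit 0), (nat_lit 0), (nat_lit 0)), ((nat_lit 363), (nat_lit 1000), (nat_lit 798))], ((nat_lit 0), (nat_lit 0), (nat_lit 0))⟩, (nat_lit 38519), (nat_lit 300), (nat_lit 1866), (nat_lit 10934000), (nat_lit 3198724), [(nat_lit 1377880000), (nat_lit 1968120000), (nat_lit 2296000000)], [], [(nat_lit 9139004441), (nat_lit 8572994845), (nat_lit 8450867796), (nat_lit 7909564372), (nat_lit 8580598779), (nat_lit 8006895637), (nat_lit 7879805794), (nat_lit 7305136678)], (nat_lit 780000), (nat_lit 1598751), (nat_lit 780000), (nat_lit 1762501), (nat_lit 1271251), (nat_lit 1271251), [(nat_lit 1977501), (nat_lit 1271251), (nat_lit 1271251)], [(nat_lit 32), (nat_lit 67), (nat_lit 573), (nat_lit 225), (nat_lit 12)]⟩⟩)))))))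
noncomputable def c4_19 : Tr Lf :=
 (.spl (nat_lit 6) (nat_lit 12) (.leaf ⟨(nat_lit 0), (nat_lit 947), (nat_lit 0), (nat_lit 53), (nat_lit 19913), (nat_lit 4893), (nat_lit 8686), (nat_lit 591), (nat_lit 0), (nat_lit 0), (nat_lit 0), [], Pd.none, Pd.none, (nat_lit 0), (nat_lit 1), (nat_lit 0), (nat_lit 0), (nat_lit 6), (nat_lit 0), [⟨(nat_lit 0), (nat_lit 100), (nat_lit 88), (nat_lit 81), (nat_lit 907690313)⟩], [⟨(nat_lit 1), (nat_lit 59), (nat_lit 87), (nat_lit 100), (nat_lit 510469904)⟩], [], [],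
 ⟨⟨[(nat_lit 60), (nat_lit 80), (nat_lit 100)], [(nat_lit 0), (nat_lit 304), (nat_lit 825)], [((nat_lit 0), (nat_lit 0), (nat_lit 0)), ((nat_lit 1000), (nat_lit 905), (nat_lit 238)), ((nat_lit 1000), (nat_lit 871), (nat_lit 407))], ((nat_lit 88), (nat_lit 100), (nat_lit 35))⟩, (nat_lit 5188727), (nat_lit 207), (nat_lit 207), (nat_lit 0), (nat_lit 242894), [(nat_lit 3282000009), (nat_lit 4688000007), (nat_lit 6250000000)], [], [(nat_lit 22249365205), (nat_lit 23336970483), (nat_lit 21857968477), (nat_lit 22861913823), (nat_lit 28812141294), (nat_lit 29914833262), (nat_lit 27959343316), (nat_lit 28733547094)], (nat_lit 1271251), (nat_lit 1271251), (nat_lit 292188), (nat_lit 780000), (nat_lit 1271251), (nat_lit 1271251), [(nat_lit 780000), (nat_lit 1100000), (nat_lit 1442501)], [(nat_lit 9), (nat_lit 50), (nat_lit 238), (nat_lit 30), (nat_lit 8)]⟩,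
 ⟨⟨[(nat_lit 80), (nat_lit 100), (nat_lit 120)], [(nat_lit 0), (nat_lit 0), (nat_lit 511)], [((nat_lit 0), (nat_lit 0), (nat_lit 0)), ((nat_lit 0), (nat_lit 0), (nat_lit 0)), ((nat_lit 1000), (nat_lit 997), (nat_lit 383))], ((nat_lit 99), (nat_lit 100), (nat_lit 34))⟩, (nat_lit 8690381), (nat_lit 163), (nat_lit 163), (nat_lit 0), (nat_lit 0), [(nat_lit 4688000000), (nat_lit 6250000000), (nat_lit 7968000000)], [], [(nat_lit 17459906683), (nat_lit 22348675941), (nat_lit 15015029805), (nat_lit 19535398705), (nat_lit 14292331944), (nat_lit 17985274531), (nat_lit 12827790180), (nat_lit 15943834607)], (nat_lit 0), (nat_lit 0), (nat_lit 0), (nat_lit 0), (nat_lit 0), (nat_lit 0), [], [(nat_lit 16), (nat_lit 54), (nat_lit 317), (nat_lit 100), (nat_lit 11)]⟩,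
 ⟨⟨[(nat_lit 140), (nat_lit 160), (nat_lit 180)], [(nat_lit 0), (nat_lit 0), (nat_lit 799)], [((nat_lit 0), (nat_lit 0), (nat_lit 0)), ((nat_lit 0), (nat_lit 0), (nat_lit 0)), ((nat_lit 728), (nat_lit 1000), (nat_lit 454))], ((nat_lit 100), (nat_lit 79), (nat_lit 37))⟩, (nat_lit 46566), (nat_lit 300), (nat_lit 1851), (nat_lit 3932600), (nat_lit 3177353), [(nat_lit 521626000), (nat_lit 629216000), (nat_lit 745074000)], [], [(nat_lit 3267100784), (nat_lit 3145376344), (nat_lit 3227651037), (nat_lit 3101701608), (nat_lit 2707135552), (nat_lit 2601131090), (nat_lit 2628149195), (nat_lit 2506380566)], (nat_lit 780000), (nat_lit 1271251), (nat_lit 1271251), (nat_lit 1271251), (nat_lit 0), (nat_lit 1412501), [(nat_lit 1977501), (nat_lit 1271251), (nat_lit 1271251)], [(nat_lit 31), (nat_lit 65), (nat_lit 557), (nat_lit 200), (nat_lit 13)]⟩⟩) (.spl (nat_lit 0) (nat_lit 310) (.leaf ⟨(nat_lit 0), (nat_lit 923), (nat_lit 0), (nat_lit 77), (nat_lit 25293), (nat_lit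 4754), (nat_lit 7755), (nat_lit 903), (nat_lit 0), (nat_lit 0), (nat_lit 0), [], Pd.none, Pd.none, (nat_lit 0), (nat_lit 1), (nat_lit 0), (nat_lit 0), (nat_lit 6), (nat_lit 0), [⟨(nat_lit 0), (nat_lit 100), (nat_lit 89), (nat_lit 79), (nat_lit 922237754)⟩], [⟨(nat_lit 1), (nat_lit 74), (nat_lit 88), (nat_lit 100), (nat_lit 497912930)⟩], [], [],
 ⟨⟨[(nat_lit 60), (nat_lit 80), (nat_lit 100)], [(nat_lit 0), (nat_lit 304), (nat_lit 825)], [((nat_lit 0), (nat_lit 0), (nat_lit 0)), ((nat_lit 1000), (nat_lit 905), (nat_lit 238)), ((nat_lit 1000), (nat_lit 871), (nat_lit 407))], ((nat_lit 87), (nat_lit 100), (nat_lit 44))⟩, (nat_lit 4113507), (nat_lit 153), (nat_lit 153), (nat_lit 0), (nat_lit 104423), [(nat_lit 3282000104), (nat_lit 4688000061), (nat_lit 6250000000)], [], [(nat_lit 21428615926), (nat_lit 22023182337), (nat_lit 20935914313), (nat_lit 21486046165), (nat_lit 28568222845), (nat_lit 29112177242), (nat_lit 27605643262), (nat_lit 28013125848)],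 (nat_lit 1271251), (nat_lit 1271251), (nat_lit 292188), (nat_lit 780000), (nat_lit 1271251), (nat_lit 1271251), [(nat_lit 780000), (nat_lit 1100000), (nat_lit 1442501)], [(nat_lit 9), (nat_lit 50), (nat_lit 238), (nat_lit 30), (nat_lit 8)]⟩,
 ⟨⟨[(nat_lit 80), (nat_lit 120), (nat_lit 140)], [(nat_lit 0), (nat_lit 0), (nat_lit 1164)], [((nat_lit 0), (nat_lit 0), (nat_lit 0)), ((nat_lit 0), (nat_lit 0), (nat_lit 0)), ((nat_lit 941), (nat_lit 1000), (nat_lit 576))], ((nat_lit 100), (nat_lit 99), (nat_lit 44))⟩, (nat_lit 4783670), (nat_lit 224), (nat_lit 224), (nat_lit 0), (nat_lit 0), [(nat_lit 4688000000), (nat_lit 7968000000), (nat_lit 9842000000)], [], [(nat_lit 22366025953), (nat_lit 26359071712), (nat_lit 20391301500), (nat_lit 24003660930), (nat_lit 19989927064), (nat_lit 22867684262), (nat_lit 18643057840), (nat_lit 21281275013)], (nat_lit 0), (nat_lit 0), (nat_lit 0), (nat_lit 0), (nat_lit 0), (nat_lit 0), [], [(nat_lit 17), (nat_lit 58), (nat_lit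 373), (nat_lit 150), (nat_lit 11)]⟩,
 ⟨⟨[(nat_lit 140), (nat_lit 160), (nat_lit 180)], [(nat_lit 0), (nat_lit 0), (nat_lit 799)], [((nat_lit 0), (nat_lit 0), (nat_lit 0)), ((nat_lit 0), (nat_lit 0), (nat_lit 0)), ((nat_lit 728), (nat_lit 1000), (nat_lit 454))], ((nat_lit 100), (nat_lit 71), (nat_lit 48))⟩, (nat_lit 67652), (nat_lit 300), (nat_lit 960), (nat_lit 5713401), (nat_lit 1257279), [(nat_lit 757834000), (nat_lit 914144000), (nat_lit 1082466000)], [], [(nat_lit 4577350728), (nat_lit 4400241068), (nat_lit 4611847353), (nat_lit 4428526733), (nat_lit 3688665966), (nat_lit 3777703934), (nat_lit 3652401494), (nat_lit 3475598679)], (nat_lit 780000), (nat_lit 1271251), (nat_lit 1271251), (nat_lit 1271251), (nat_lit 0), (nat_lit 1412501), [(nat_lit 1977501), (nat_lit 1271251), (nat_lit 1271251)], [(nat_lit 31), (nat_lit 65), (nat_lit 428), (nat_lit 200), (nat_lit 10)]⟩⟩) (.trX (nat_lit 4) (nat_lit 0) (nat_lit 2) (nat_lit 84) (nat_lit 63) (nat_lit 100)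 (nat_lit 360) (.leaf ⟨(nat_lit 0), (nat_lit 936), (nat_lit 0), (nat_lit 64), (nat_lit 23159), (nat_lit 5069), (nat_lit 8578), (nat_lit 745), (nat_lit 0), (nat_lit 0), (nat_lit 0), [], Pd.none, Pd.none, (nat_lit 0), (nat_lit 1), (nat_lit 0), (nat_lit 0), (nat_lit 6), (nat_lit 0), [⟨(nat_lit 0), (nat_lit 100), (nat_lit 86), (nat_lit 83), (nat_lit 1014021234)⟩], [⟨(nat_lit 1), (nat_lit 79), (nat_lit 84), (nat_lit 100), (nat_lit 506885127)⟩], [], [],
 ⟨⟨[(nat_lit 60), (nat_lit 80), (nat_lit 100)], [(nat_lit 0), (nat_lit 456), (nat_lit 976)], [((nat_lit 0), (nat_lit 0), (nat_lit 0)), ((nat_lit 1000), (nat_lit 859), (nat_lit 351)), ((nat_lit 1000), (nat_lit 848), (nat_lit 406))], ((nat_lit 84), (nat_lit 100), (nat_lit 44))⟩, (nat_lit 2816907), (nat_lit 162), (nat_lit 162), (nat_lit 0), (nat_lit 144126), [(nat_lit 3282000040), (nat_lit 4688000101), (nat_lit 6250000000)], [], [(nat_lit 22342584234), (nat_lit 22931454226), (nat_lit 21891825085), (nat_lit 22434789865),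 (nat_lit 28825020412), (nat_lit 29408650032), (nat_lit 27727685437), (nat_lit 28116729537)], (nat_lit 1271251), (nat_lit 1271251), (nat_lit 292188), (nat_lit 780000), (nat_lit 1271251), (nat_lit 1271251), [(nat_lit 780000), (nat_lit 1100000), (nat_lit 1442501)], [(nat_lit 9), (nat_lit 50), (nat_lit 238), (nat_lit 30), (nat_lit 8)]⟩,
 ⟨⟨[(nat_lit 80), (nat_lit 120), (nat_lit 140)], [(nat_lit 0), (nat_lit 0), (nat_lit 1164)], [((nat_lit 0), (nat_lit 0), (nat_lit 0)), ((nat_lit 0), (nat_lit 0), (nat_lit 0)), ((nat_lit 941), (nat_lit 1000), (nat_lit 576))], ((nat_lit 100), (nat_lit 99), (nat_lit 44))⟩, (nat_lit 5492345), (nat_lit 224), (nat_lit 224), (nat_lit 0), (nat_lit 0), [(nat_lit 4688000000), (nat_lit 7968000000), (nat_lit 9842000000)], [], [(nat_lit 21892748007), (nat_lit 26739520136), (nat_lit 19497142208), (nat_lit 23979370908), (nat_lit 18531468395), (nat_lit 22184137164), (nat_lit 16895473304), (nat_lit 19952695382)], (nat_lit 0), (nat_lit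 0), (nat_lit 0), (nat_lit 0), (nat_lit 0), (nat_lit 0), [], [(nat_lit 17), (nat_lit 58), (nat_lit 373), (nat_lit 150), (nat_lit 11)]⟩,
 ⟨⟨[(nat_lit 140), (nat_lit 160), (nat_lit 180)], [(nat_lit 0), (nat_lit 0), (nat_lit 799)], [((nat_lit 0), (nat_lit 0), (nat_lit 0)), ((nat_lit 0), (nat_lit 0), (nat_lit 0)), ((nat_lit 728), (nat_lit 1000), (nat_lit 454))], ((nat_lit 100), (nat_lit 71), (nat_lit 48))⟩, (nat_lit 56230), (nat_lit 300), (nat_lit 1228), (nat_lit 4748802), (nat_lit 1863486), [(nat_lit 629888000), (nat_lit 759808000), (nat_lit 899712000)], [], [(nat_lit 3820469436), (nat_lit 3674751770), (nat_lit 3825060398), (nat_lit 3676496270), (nat_lit 3090849044), (nat_lit 3140071943), (nat_lit 3039695717), (nat_lit 2896106481)], (nat_lit 780000), (nat_lit 1271251), (nat_lit 1271251), (nat_lit 1271251), (nat_lit 0), (nat_lit 1412501), [(nat_lit 1977501), (nat_lit 1271251), (nat_lit 1271251)], [(nat_lit 31), (nat_lit 65), (nat_lit 428), (nat_lit 200),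 (nat_lit 10)]⟩⟩))))
noncomputable def c4_20 : Tr Lf :=
 (.stt (nat_lit 3) (.spl (nat_lit 6) (nat_lit 12) (.leaf ⟨(nat_lit 750), (nat_lit 0), (nat_lit 0), (nat_lit 250), (nat_lit 4544), (nat_lit 4037), (nat_lit 1768), (nat_lit 3783), (nat_lit 0), (nat_lit 0), (nat_lit 371000), [((nat_lit 320), [((nat_lit 15), (nat_lit 1), (nat_lit 395)), ((nat_lit 35), (nat_lit 2), (nat_lit 355))])], ⟨(nat_lit 6), false, false, false, (nat_lit 141), (nat_lit 4472), (nat_lit 5000), [(nat_lit 1274989), (nat_lit 1288204), (nat_lit 1296408), (nat_lit 1309761), (nat_lit 1399984), (nat_lit 1407160), (nat_lit 1421400), (nat_lit 1428715)]⟩, ⟨(nat_lit 6), true, false, true, (nat_lit 234), (nat_lit 4472), (nat_lit 5000), [(nat_lit 1485713), (nat_lit 1481711), (nat_lit 1549999), (nat_lit 1546410), (nat_lit 1628570), (nat_lit 1617667), (nat_lit 1692851), (nat_lit 1682362)]⟩, (nat_lit 4618789), (nat_lit 43650723), (nat_lit 7248342), (nat_lit 16100935), (nat_lit 0), (nat_lit 0),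 [⟨(nat_lit 0), (nat_lit 100), (nat_lit 88), (nat_lit 68), (nat_lit 470195055)⟩], [], [], [],
 ⟨⟨[(nat_lit 60), (nat_lit 80), (nat_lit 100)], [(nat_lit 0), (nat_lit 304), (nat_lit 825)], [((nat_lit 0), (nat_lit 0), (nat_lit 0)), ((nat_lit 1000), (nat_lit 905), (nat_lit 238)), ((nat_lit 1000), (nat_lit 871), (nat_lit 407))], ((nat_lit 88), (nat_lit 100), (nat_lit 35))⟩, (nat_lit 2865533), (nat_lit 157), (nat_lit 157), (nat_lit 0), (nat_lit 185375), [(nat_lit 2266566003), (nat_lit 2736016003), (nat_lit 3147317997)], [(nat_lit 0), (nat_lit 0), (nat_lit 0)], [(nat_lit 19344283680), (nat_lit 20528833447), (nat_lit 19195535358), (nat_lit 20293805310), (nat_lit 23425325058), (nat_lit 24648139075), (nat_lit 22989915599), (nat_lit 23896453300)], (nat_lit 1271251), (nat_lit 1271251), (nat_lit 292188), (nat_lit 780000), (nat_lit 1271251), (nat_lit 1271251), [(nat_lit 780000), (nat_lit 1100000), (nat_lit 1442501)], [(nat_lit 9), (nat_lit 50), (nat_lit 238), (nat_lit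 30), (nat_lit 8)]⟩,
 ⟨⟨[(nat_lit 80), (nat_lit 100), (nat_lit 120)], [(nat_lit 0), (nat_lit 0), (nat_lit 511)], [((nat_lit 0), (nat_lit 0), (nat_lit 0)), ((nat_lit 0), (nat_lit 0), (nat_lit 0)), ((nat_lit 1000), (nat_lit 997), (nat_lit 383))], ((nat_lit 99), (nat_lit 100), (nat_lit 34))⟩, (nat_lit 0), (nat_lit 280), (nat_lit 280), (nat_lit 0), (nat_lit 251777), [(nat_lit 1172000000), (nat_lit 1562500000), (nat_lit 1992000000)], [], [(nat_lit 8890827768), (nat_lit 7980124559), (nat_lit 7418946232), (nat_lit 7294011107), (nat_lit 9335228198), (nat_lit 8510185363), (nat_lit 10381014368), (nat_lit 9574891674)], (nat_lit 1271251), (nat_lit 1271251), (nat_lit 292188), (nat_lit 780000), (nat_lit 0), (nat_lit 1412501), [(nat_lit 1100000), (nat_lit 1442501), (nat_lit 1271251)], [(nat_lit 16), (nat_lit 54), (nat_lit 317), (nat_lit 100), (nat_lit 11)]⟩,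
 ⟨⟨[(nat_lit 140), (nat_lit 160), (nat_lit 180)], [(nat_lit 0), (nat_lit 0), (nat_lit 799)], [((nat_lit 0), (nat_lit 0), (nat_lit 0)), ((nat_lit 0), (nat_lit 0), (nat_lit 0)), ((nat_lit 728), (nat_lit 1000), (nat_lit 454))], ((nat_lit 100), (nat_lit 79), (nat_lit 37))⟩, (nat_lit 219650), (nat_lit 300), (nat_lit 323), (nat_lit 18550000), (nat_lit 0), [(nat_lit 2460500000), (nat_lit 2968000000), (nat_lit 3514500000)], [], [(nat_lit 11774631225), (nat_lit 11393759223), (nat_lit 12859844429), (nat_lit 12499803262), (nat_lit 8148480049), (nat_lit 7735060796), (nat_lit 8906313331), (nat_lit 8484843315)], (nat_lit 0), (nat_lit 0), (nat_lit 0), (nat_lit 0), (nat_lit 0), (nat_lit 0), [], [(nat_lit 31), (nat_lit 65), (nat_lit 401), (nat_lit 175), (nat_lit 9)]⟩⟩) (.spl (nat_lit 0) (nat_lit 310) (.leaf ⟨(nat_lit 709), (nat_lit 0), (nat_lit 0), (nat_lit 291), (nat_lit 27796), (nat_lit 4479), (nat_lit 3814), (nat_lit 4404), (nat_lit 0), (nat_lit 0), (nat_lit 982000),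 [((nat_lit 310), [((nat_lit 15), (nat_lit 2), (nat_lit 618)), ((nat_lit 35), (nat_lit 5), (nat_lit 91))])], ⟨(nat_lit 6), false, false, false, (nat_lit 140), (nat_lit 4743), (nat_lit 5000), [(nat_lit 1274998), (nat_lit 1281601), (nat_lit 1296425), (nat_lit 1303087), (nat_lit 1399997), (nat_lit 1403574), (nat_lit 1421423), (nat_lit 1425060)]⟩, ⟨(nat_lit 6), true, false, true, (nat_lit 235), (nat_lit 4743), (nat_lit 5000), [(nat_lit 1485713), (nat_lit 1483746), (nat_lit 1549999), (nat_lit 1548210), (nat_lit 1628570), (nat_lit 1623145), (nat_lit 1692854), (nat_lit 1687608)]⟩, (nat_lit 4612656), (nat_lit 43650228), (nat_lit 7167330), (nat_lit 16182442), (nat_lit 0), (nat_lit 0), [⟨(nat_lit 0), (nat_lit 100), (nat_lit 88), (nat_lit 74), (nat_lit 447481559)⟩], [], [], [],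
 ⟨⟨[(nat_lit 60), (nat_lit 80), (nat_lit 100)], [(nat_lit 0), (nat_lit 304), (nat_lit 825)], [((nat_lit 0), (nat_lit 0), (nat_lit 0)), ((nat_lit 1000), (nat_lit 905), (nat_lit 238)), ((nat_lit 1000), (nat_lit 871), (nat_lit 407))], ((nat_lit 87), (nat_lit 100), (nat_lit 44))⟩, (nat_lit 0), (nat_lit 111), (nat_lit 111), (nat_lit 0), (nat_lit 35652), [(nat_lit 2338479536), (nat_lit 2339566097), (nat_lit 1623712400)], [(nat_lit 0), (nat_lit 0), (nat_lit 0)], [(nat_lit 19637605548), (nat_lit 20215709239), (nat_lit 19250488020), (nat_lit 19785986297), (nat_lit 23978911328), (nat_lit 24619939160), (nat_lit 22938549552), (nat_lit 23377925727)], (nat_lit 1271251), (nat_lit 1271251), (nat_lit 292188), (nat_lit 780000), (nat_lit 1271251), (nat_lit 1271251), [(nat_lit 780000), (nat_lit 1100000), (nat_lit 1442501)], [(nat_lit 9), (nat_lit 50), (nat_lit 238), (nat_lit 30), (nat_lit 8)]⟩,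
 ⟨⟨[(nat_lit 80), (nat_lit 120), (nat_lit 140)], [(nat_lit 0), (nat_lit 0), (nat_lit 1164)], [((nat_lit 0), (nat_lit 0), (nat_lit 0)), ((nat_lit 0), (nat_lit 0), (nat_lit 0)), ((nat_lit 941), (nat_lit 1000), (nat_lit 576))], ((nat_lit 100), (nat_lit 99), (nat_lit 44))⟩, (nat_lit 63541), (nat_lit 248), (nat_lit 248), (nat_lit 0), (nat_lit 47017), [(nat_lit 1364208000), (nat_lit 2318688000), (nat_lit 2864022000)], [], [(nat_lit 11265959454), (nat_lit 9557372066), (nat_lit 11022142112), (nat_lit 9212252273), (nat_lit 14561549866), (nat_lit 12828242525), (nat_lit 16496308262), (nat_lit 14801657480)], (nat_lit 1271251), (nat_lit 1271251), (nat_lit 292188), (nat_lit 780000), (nat_lit 0), (nat_lit 1412501), [(nat_lit 1100000), (nat_lit 1785001), (nat_lit 1271251)], [(nat_lit 17), (nat_lit 58), (nat_lit 373), (nat_lit 150), (nat_lit 11)]⟩,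
 ⟨⟨[(nat_lit 140), (nat_lit 160), (nat_lit 180)], [(nat_lit 0), (nat_lit 0), (nat_lit 799)], [((nat_lit 0), (nat_lit 0), (nat_lit 0)), ((nat_lit 0), (nat_lit 0), (nat_lit 0)), ((nat_lit 728), (nat_lit 1000), (nat_lit 454))], ((nat_lit 100), (nat_lit 71), (nat_lit 48))⟩, (nat_lit 255672), (nat_lit 300), (nat_lit 323), (nat_lit 21592201), (nat_lit 0), [(nat_lit 2864022000), (nat_lit 3454752000), (nat_lit 4090878000)], [], [(nat_lit 13705578873), (nat_lit 13262136490), (nat_lit 14968948728), (nat_lit 14550301449), (nat_lit 9484041049), (nat_lit 9002712221), (nat_lit 10366204760), (nat_lit 9876125048)], (nat_lit 0), (nat_lit 0), (nat_lit 0), (nat_lit 0), (nat_lit 0), (nat_lit 0), [], [(nat_lit 31), (nat_lit 65), (nat_lit 401), (nat_lit 175), (nat_lit 9)]⟩⟩) (.leaf ⟨(nat_lit 765), (nat_lit 0), (nat_lit 0), (nat_lit 235), (nat_lit 8471), (nat_lit 3943), (nat_lit 2272), (nat_lit 3556), (nat_lit 0), (nat_lit 0), (nat_lit 260100), [((nat_lit 320), [((nat_lit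 15), (nat_lit 0), (nat_lit 306)), ((nat_lit 15), (nat_lit 1), (nat_lit 459))])], ⟨(nat_lit 6), false, false, false, (nat_lit 142), (nat_lit 4472), (nat_lit 4744), [(nat_lit 1281597), (nat_lit 1288210), (nat_lit 1303082), (nat_lit 1309773), (nat_lit 1403571), (nat_lit 1407171), (nat_lit 1425056), (nat_lit 1428734)]⟩, ⟨(nat_lit 6), true, false, true, (nat_lit 234), (nat_lit 4472), (nat_lit 4744), [(nat_lit 1483746), (nat_lit 1481711), (nat_lit 1548210), (nat_lit 1546410), (nat_lit 1623145), (nat_lit 1617667), (nat_lit 1687610), (nat_lit 1682366)]⟩, (nat_lit 4624961), (nat_lit 43649815), (nat_lit 7330045), (nat_lit 16020140), (nat_lit 0), (nat_lit 0), [⟨(nat_lit 0), (nat_lit 100), (nat_lit 84), (nat_lit 79), (nat_lit 302007130)⟩], [], [], [],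
 ⟨⟨[(nat_lit 60), (nat_lit 80), (nat_lit 100)], [(nat_lit 0), (nat_lit 456), (nat_lit 976)], [((nat_lit 0), (nat_lit 0), (nat_lit 0)), ((nat_lit 1000), (nat_lit 859), (nat_lit 351)), ((nat_lit 1000), (nat_lit 848), (nat_lit 406))], ((nat_lit 84), (nat_lit 100), (nat_lit 44))⟩, (nat_lit 2268435), (nat_lit 128), (nat_lit 128), (nat_lit 0), (nat_lit 85076), [(nat_lit 2270070604), (nat_lit 2877507487), (nat_lit 3370356400)], [(nat_lit 0), (nat_lit 0), (nat_lit 0)], [(nat_lit 20398565573), (nat_lit 20944581925), (nat_lit 20178200781), (nat_lit 20685176890), (nat_lit 24070435050), (nat_lit 24517809156), (nat_lit 23602207694), (nat_lit 24018982674)], (nat_lit 1271251), (nat_lit 1271251), (nat_lit 292188), (nat_lit 780000), (nat_lit 1271251), (nat_lit 1271251), [(nat_lit 780000), (nat_lit 1100000), (nat_lit 1442501)], [(nat_lit 9), (nat_lit 50), (nat_lit 238), (nat_lit 30), (nat_lit 8)]⟩,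
 ⟨⟨[(nat_lit 80), (nat_lit 120), (nat_lit 140)], [(nat_lit 0), (nat_lit 0), (nat_lit 1164)], [((nat_lit 0), (nat_lit 0), (nat_lit 0)), ((nat_lit 0), (nat_lit 0), (nat_lit 0)), ((nat_lit 941), (nat_lit 1000), (nat_lit 576))], ((nat_lit 100), (nat_lit 99), (nat_lit 44))⟩, (nat_lit 0), (nat_lit 303), (nat_lit 303), (nat_lit 0), (nat_lit 118793), [(nat_lit 1101680000), (nat_lit 1872480000), (nat_lit 2312870000)], [], [(nat_lit 8926635672), (nat_lit 8124067426), (nat_lit 9376514260), (nat_lit 8298362788), (nat_lit 11712972704), (nat_lit 10680441430), (nat_lit 12985805328), (nat_lit 11976301768)], (nat_lit 1271251), (nat_lit 1271251), (nat_lit 292188), (nat_lit 780000), (nat_lit 0), (nat_lit 1412501), [(nat_lit 1100000), (nat_lit 1785001), (nat_lit 1271251)], [(nat_lit 17), (nat_lit 58), (nat_lit 373), (nat_lit 150), (nat_lit 11)]⟩,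
 ⟨⟨[(nat_lit 140), (nat_lit 160), (nat_lit 180)], [(nat_lit 0), (nat_lit 0), (nat_lit 799)], [((nat_lit 0), (nat_lit 0), (nat_lit 0)), ((nat_lit 0), (nat_lit 0), (nat_lit 0)), ((nat_lit 728), (nat_lit 1000), (nat_lit 454))], ((nat_lit 100), (nat_lit 71), (nat_lit 48))⟩, (nat_lit 206471), (nat_lit 300), (nat_lit 323), (nat_lit 17437000), (nat_lit 0), [(nat_lit 2312870000), (nat_lit 2789920000), (nat_lit 3303630000)], [], [(nat_lit 11068156487), (nat_lit 10710140457), (nat_lit 12088253868), (nat_lit 11749797040), (nat_lit 7659598119), (nat_lit 7270987722), (nat_lit 8371959846), (nat_lit 7975760643)], (nat_lit 0), (nat_lit 0), (nat_lit 0), (nat_lit 0), (nat_lit 0), (nat_lit 0), [], [(nat_lit 31), (nat_lit 65), (nat_lit 401), (nat_lit 175), (nat_lit 9)]⟩⟩))) (.spl (nat_lit 5) (nat_lit 120) (.spl (nat_lit 6) (nat_lit 12) (.leaf ⟨(nat_lit 0), (nat_lit 928), (nat_lit 0), (nat_lit 72), (nat_lit 16600), (nat_lit 5133), (nat_lit 8909), (nat_lit 959), (nat_lit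 0), (nat_lit 0), (nat_lit 0), [], Pd.none, Pd.none, (nat_lit 0), (nat_lit 1), (nat_lit 0), (nat_lit 0), (nat_lit 6), (nat_lit 0), [⟨(nat_lit 0), (nat_lit 100), (nat_lit 86), (nat_lit 77), (nat_lit 1025543858)⟩], [], [], [],
 ⟨⟨[(nat_lit 60), (nat_lit 80), (nat_lit 100)], [(nat_lit 0), (nat_lit 304), (nat_lit 825)], [((nat_lit 0), (nat_lit 0), (nat_lit 0)), ((nat_lit 1000), (nat_lit 905), (nat_lit 238)), ((nat_lit 1000), (nat_lit 871), (nat_lit 407))], ((nat_lit 88), (nat_lit 100), (nat_lit 35))⟩, (nat_lit 4486173), (nat_lit 139), (nat_lit 139), (nat_lit 0), (nat_lit 124095), [(nat_lit 3282000008), (nat_lit 4688000010), (nat_lit 6250000000)], [], [(nat_lit 20590353429), (nat_lit 21824863494), (nat_lit 19952137751), (nat_lit 21092736909), (nat_lit 24798063745), (nat_lit 26167730471), (nat_lit 23904654847), (nat_lit 24894220512)], (nat_lit 1271251), (nat_lit 1271251), (nat_lit 292188), (nat_lit 780000), (nat_lit 1271251), (nat_lit 1271251), [(nat_lit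 780000), (nat_lit 1100000), (nat_lit 1442501)], [(nat_lit 9), (nat_lit 50), (nat_lit 238), (nat_lit 30), (nat_lit 8)]⟩,
 ⟨⟨[(nat_lit 80), (nat_lit 100), (nat_lit 120)], [(nat_lit 0), (nat_lit 0), (nat_lit 511)], [((nat_lit 0), (nat_lit 0), (nat_lit 0)), ((nat_lit 0), (nat_lit 0), (nat_lit 0)), ((nat_lit 1000), (nat_lit 997), (nat_lit 383))], ((nat_lit 99), (nat_lit 100), (nat_lit 34))⟩, (nat_lit 10509877), (nat_lit 257), (nat_lit 257), (nat_lit 0), (nat_lit 159532), [(nat_lit 4688000000), (nat_lit 6250000000), (nat_lit 7968000000)], [], [(nat_lit 16546748584), (nat_lit 19212917079), (nat_lit 14188335976), (nat_lit 16707529385), (nat_lit 11369159220), (nat_lit 13397479969), (nat_lit 12594812841), (nat_lit 11927167642)], (nat_lit 1271251), (nat_lit 1271251), (nat_lit 292188), (nat_lit 780000), (nat_lit 0), (nat_lit 780000), [(nat_lit 1100000), (nat_lit 1442501), (nat_lit 1271251)], [(nat_lit 16), (nat_lit 54), (nat_lit 272), (nat_lit 60), (nat_lit 9)]⟩,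
 ⟨⟨[(nat_lit 140), (nat_lit 160), (nat_lit 180)], [(nat_lit 0), (nat_lit 0), (nat_lit 799)], [((nat_lit 0), (nat_lit 0), (nat_lit 0)), ((nat_lit 0), (nat_lit 0), (nat_lit 0)), ((nat_lit 728), (nat_lit 1000), (nat_lit 454))], ((nat_lit 100), (nat_lit 79), (nat_lit 37))⟩, (nat_lit 63259), (nat_lit 300), (nat_lit 1046), (nat_lit 5342401), (nat_lit 1462475), [(nat_lit 708624000), (nat_lit 854784000), (nat_lit 1012176000)], [], [(nat_lit 4021847348), (nat_lit 3850333647), (nat_lit 4055015532), (nat_lit 3865940257), (nat_lit 3265608778), (nat_lit 3101751965), (nat_lit 3285923300), (nat_lit 3105332674)], (nat_lit 780000), (nat_lit 1271251), (nat_lit 1271251), (nat_lit 1271251), (nat_lit 0), (nat_lit 780000), [(nat_lit 1977501), (nat_lit 1271251), (nat_lit 1271251)], [(nat_lit 31), (nat_lit 65), (nat_lit 401), (nat_lit 175), (nat_lit 9)]⟩⟩) (.spl (nat_lit 1) (nat_lit 250) (.leaf ⟨(nat_lit 0), (nat_lit 922), (nat_lit 0), (nat_lit 78), (nat_lit 25412), (nat_lit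 5225), (nat_lit 8586), (nat_lit 1066), (nat_lit 0), (nat_lit 0), (nat_lit 0), [], Pd.none, Pd.none, (nat_lit 0), (nat_lit 1), (nat_lit 0), (nat_lit 0), (nat_lit 6), (nat_lit 0), [⟨(nat_lit 0), (nat_lit 100), (nat_lit 83), (nat_lit 81), (nat_lit 1055553539)⟩], [⟨(nat_lit 1), (nat_lit 77), (nat_lit 86), (nat_lit 100), (nat_lit 106622029)⟩], [], [],
 ⟨⟨[(nat_lit 60), (nat_lit 80), (nat_lit 100)], [(nat_lit 0), (nat_lit 304), (nat_lit 825)], [((nat_lit 0), (nat_lit 0), (nat_lit 0)), ((nat_lit 1000), (nat_lit 905), (nat_lit 238)), ((nat_lit 1000), (nat_lit 871), (nat_lit 407))], ((nat_lit 87), (nat_lit 100), (nat_lit 44))⟩, (nat_lit 3767282), (nat_lit 115), (nat_lit 115), (nat_lit 0), (nat_lit 38616), [(nat_lit 3282000016), (nat_lit 4764188066), (nat_lit 6250000000)], [], [(nat_lit 21054586820), (nat_lit 22300111941), (nat_lit 20381048466), (nat_lit 21531438816), (nat_lit 25296033685), (nat_lit 26295287413), (nat_lit 24310999379), (nat_lit 25237519566)],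 (nat_lit 1271251), (nat_lit 1271251), (nat_lit 292188), (nat_lit 780000), (nat_lit 1271251), (nat_lit 1271251), [(nat_lit 780000), (nat_lit 1100000), (nat_lit 1442501)], [(nat_lit 9), (nat_lit 50), (nat_lit 238), (nat_lit 30), (nat_lit 8)]⟩,
 ⟨⟨[(nat_lit 80), (nat_lit 120), (nat_lit 140)], [(nat_lit 0), (nat_lit 0), (nat_lit 1164)], [((nat_lit 0), (nat_lit 0), (nat_lit 0)), ((nat_lit 0), (nat_lit 0), (nat_lit 0)), ((nat_lit 941), (nat_lit 1000), (nat_lit 576))], ((nat_lit 100), (nat_lit 99), (nat_lit 44))⟩, (nat_lit 5369611), (nat_lit 248), (nat_lit 248), (nat_lit 0), (nat_lit 52250), [(nat_lit 4688000000), (nat_lit 7968000000), (nat_lit 9842000000)], [], [(nat_lit 22039028315), (nat_lit 23105738964), (nat_lit 19494080896), (nat_lit 20615344371), (nat_lit 16485062328), (nat_lit 17378640423), (nat_lit 19409978410), (nat_lit 17285112984)], (nat_lit 1271251), (nat_lit 1271251), (nat_lit 292188), (nat_lit 780000), (nat_lit 0), (nat_lit 780000), [(nat_lit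 1100000), (nat_lit 1785001), (nat_lit 1271251)], [(nat_lit 17), (nat_lit 58), (nat_lit 345), (nat_lit 125), (nat_lit 10)]⟩,
 ⟨⟨[(nat_lit 140), (nat_lit 160), (nat_lit 180)], [(nat_lit 0), (nat_lit 0), (nat_lit 799)], [((nat_lit 0), (nat_lit 0), (nat_lit 0)), ((nat_lit 0), (nat_lit 0), (nat_lit 0)), ((nat_lit 728), (nat_lit 1000), (nat_lit 454))], ((nat_lit 100), (nat_lit 71), (nat_lit 48))⟩, (nat_lit 68531), (nat_lit 300), (nat_lit 586), (nat_lit 5787600), (nat_lit 446472), [(nat_lit 767676000), (nat_lit 926016000), (nat_lit 1096524000)], [], [(nat_lit 4319891992), (nat_lit 4127237868), (nat_lit 4353721424), (nat_lit 4181153678), (nat_lit 3476119712), (nat_lit 3292041025), (nat_lit 3495643840), (nat_lit 3293047316)], (nat_lit 780000), (nat_lit 1271251), (nat_lit 1271251), (nat_lit 1271251), (nat_lit 0), (nat_lit 780000), [(nat_lit 1977501), (nat_lit 1271251), (nat_lit 1271251)], [(nat_lit 31), (nat_lit 65), (nat_lit 401), (nat_lit 175), (nat_lit 9)]⟩⟩)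 (.leaf ⟨(nat_lit 0), (nat_lit 933), (nat_lit 0), (nat_lit 67), (nat_lit 21935), (nat_lit 5356), (nat_lit 8293), (nat_lit 916), (nat_lit 0), (nat_lit 0), (nat_lit 0), [], Pd.none, Pd.none, (nat_lit 0), (nat_lit 1), (nat_lit 0), (nat_lit 0), (nat_lit 6), (nat_lit 0), [⟨(nat_lit 0), (nat_lit 100), (nat_lit 87), (nat_lit 79), (nat_lit 1005585226)⟩], [], [], [],
 ⟨⟨[(nat_lit 60), (nat_lit 80), (nat_lit 100)], [(nat_lit 0), (nat_lit 304), (nat_lit 825)], [((nat_lit 0), (nat_lit 0), (nat_lit 0)), ((nat_lit 1000), (nat_lit 905), (nat_lit 238)), ((nat_lit 1000), (nat_lit 871), (nat_lit 407))], ((nat_lit 87), (nat_lit 100), (nat_lit 44))⟩, (nat_lit 3556817), (nat_lit 120), (nat_lit 120), (nat_lit 0), (nat_lit 57695), [(nat_lit 3282000023), (nat_lit 4795900109), (nat_lit 6250000000)], [], [(nat_lit 21044746846), (nat_lit 22305956450), (nat_lit 20320912074), (nat_lit 21485244230), (nat_lit 25334721429), (nat_lit 26476917406), (nat_lit 24293339540), (nat_lit 25229371310)],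 (nat_lit 1271251), (nat_lit 1271251), (nat_lit 292188), (nat_lit 780000), (nat_lit 1271251), (nat_lit 1271251), [(nat_lit 780000), (nat_lit 1100000), (nat_lit 1442501)], [(nat_lit 9), (nat_lit 50), (nat_lit 238), (nat_lit 30), (nat_lit 8)]⟩,
 ⟨⟨[(nat_lit 80), (nat_lit 100), (nat_lit 120)], [(nat_lit 0), (nat_lit 132), (nat_lit 640)], [((nat_lit 0), (nat_lit 0), (nat_lit 0)), ((nat_lit 1000), (nat_lit 979), (nat_lit 103)), ((nat_lit 1000), (nat_lit 979), (nat_lit 397))], ((nat_lit 99), (nat_lit 100), (nat_lit 44))⟩, (nat_lit 9145689), (nat_lit 245), (nat_lit 245), (nat_lit 0), (nat_lit 74044), [(nat_lit 4688000000), (nat_lit 6250000000), (nat_lit 7968000000)], [], [(nat_lit 17202263960), (nat_lit 18386339892), (nat_lit 14935706314), (nat_lit 15944294223), (nat_lit 12331900111), (nat_lit 13299028924), (nat_lit 11146878334), (nat_lit 12031587804)], (nat_lit 1271251), (nat_lit 1271251), (nat_lit 292188), (nat_lit 780000), (nat_lit 0), (nat_lit 780000),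 [(nat_lit 1100000), (nat_lit 1442501), (nat_lit 1271251)], [(nat_lit 16), (nat_lit 54), (nat_lit 272), (nat_lit 60), (nat_lit 9)]⟩,
 ⟨⟨[(nat_lit 140), (nat_lit 160), (nat_lit 180)], [(nat_lit 0), (nat_lit 0), (nat_lit 799)], [((nat_lit 0), (nat_lit 0), (nat_lit 0)), ((nat_lit 0), (nat_lit 0), (nat_lit 0)), ((nat_lit 728), (nat_lit 1000), (nat_lit 454))], ((nat_lit 100), (nat_lit 71), (nat_lit 48))⟩, (nat_lit 58866), (nat_lit 300), (nat_lit 680), (nat_lit 4971401), (nat_lit 665177), [(nat_lit 659414000), (nat_lit 795424000), (nat_lit 941886000)], [], [(nat_lit 3710220272), (nat_lit 3544651041), (nat_lit 3739730876), (nat_lit 3591418648), (nat_lit 2985139810), (nat_lit 2826940112), (nat_lit 3001879972), (nat_lit 2827769132)], (nat_lit 780000), (nat_lit 1271251), (nat_lit 1271251), (nat_lit 1271251), (nat_lit 0), (nat_lit 780000), [(nat_lit 1977501), (nat_lit 1271251), (nat_lit 1271251)], [(nat_lit 31), (nat_lit 65), (nat_lit 401), (nat_lit 175), (nat_lit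 9)]⟩⟩))) (.leaf ⟨(nat_lit 0), (nat_lit 611), (nat_lit 0), (nat_lit 389), (nat_lit 0), (nat_lit 4849), (nat_lit 36580), (nat_lit 4542), (nat_lit 0), (nat_lit 0), (nat_lit 0), [], Pd.none, Pd.none, (nat_lit 0), (nat_lit 1), (nat_lit 0), (nat_lit 0), (nat_lit 6), (nat_lit 0), [], [⟨(nat_lit 1), (nat_lit 77), (nat_lit 86), (nat_lit 100), (nat_lit 173767807)⟩], [], [],
 ⟨⟨[(nat_lit 60), (nat_lit 80), (nat_lit 100)], [(nat_lit 0), (nat_lit 304), (nat_lit 825)], [((nat_lit 0), (nat_lit 0), (nat_lit 0)), ((nat_lit 1000), (nat_lit 905), (nat_lit 238)), ((nat_lit 1000), (nat_lit 871), (nat_lit 407))], ((nat_lit 87), (nat_lit 100), (nat_lit 44))⟩, (nat_lit 10481193), (nat_lit 140), (nat_lit 140), (nat_lit 0), (nat_lit 125572), [(nat_lit 3282000011), (nat_lit 5032202081), (nat_lit 6250000000)], [], [(nat_lit 19966144647), (nat_lit 21344115417), (nat_lit 19552591771), (nat_lit 20825636526), (nat_lit 24657714469), (nat_lit 25773967737), (nat_lit 23903476877), (nat_lit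 24929423660)], (nat_lit 1271251), (nat_lit 1271251), (nat_lit 292188), (nat_lit 780000), (nat_lit 1271251), (nat_lit 1271251), [(nat_lit 780000), (nat_lit 1100000), (nat_lit 1442501)], [(nat_lit 9), (nat_lit 50), (nat_lit 238), (nat_lit 30), (nat_lit 8)]⟩,
 ⟨⟨[(nat_lit 80), (nat_lit 120), (nat_lit 140)], [(nat_lit 0), (nat_lit 0), (nat_lit 1164)], [((nat_lit 0), (nat_lit 0), (nat_lit 0)), ((nat_lit 0), (nat_lit 0), (nat_lit 0)), ((nat_lit 941), (nat_lit 1000), (nat_lit 576))], ((nat_lit 100), (nat_lit 99), (nat_lit 44))⟩, (nat_lit 1537978), (nat_lit 197), (nat_lit 197), (nat_lit 0), (nat_lit 161806), [(nat_lit 4688000000), (nat_lit 7968000000), (nat_lit 9842000000)], [], [(nat_lit 4086295428), (nat_lit 10681364404), (nat_lit 347295620), (nat_lit 0), (nat_lit 16799836935), (nat_lit 15982483183), (nat_lit 30295595760), (nat_lit 13616880745)], (nat_lit 1271251), (nat_lit 1271251), (nat_lit 292188), (nat_lit 780000), (nat_lit 780000), (nat_lit 1435001),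 [(nat_lit 1100000), (nat_lit 1785001), (nat_lit 1271251)], [(nat_lit 17), (nat_lit 58), (nat_lit 373), (nat_lit 150), (nat_lit 11)]⟩,
 ⟨⟨[(nat_lit 140), (nat_lit 160), (nat_lit 180)], [(nat_lit 0), (nat_lit 0), (nat_lit 799)], [((nat_lit 0), (nat_lit 0), (nat_lit 0)), ((nat_lit 0), (nat_lit 0), (nat_lit 0)), ((nat_lit 728), (nat_lit 1000), (nat_lit 454))], ((nat_lit 100), (nat_lit 71), (nat_lit 48))⟩, (nat_lit 1145513), (nat_lit 300), (nat_lit 969), (nat_lit 28863800), (nat_lit 1471258), [(nat_lit 3828538000), (nat_lit 4618208000), (nat_lit 5468562000)], [], [(nat_lit 19947540666), (nat_lit 19027126376), (nat_lit 19597968510), (nat_lit 18692227208), (nat_lit 18715891506), (nat_lit 17845313165), (nat_lit 18376886254), (nat_lit 17462641098)], (nat_lit 780000), (nat_lit 1271251), (nat_lit 1271251), (nat_lit 1271251), (nat_lit 780000), (nat_lit 1435001), [(nat_lit 1977501), (nat_lit 1271251), (nat_lit 1271251)], [(nat_lit 31), (nat_lit 65), (nat_lit 401),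 (nat_lit 175), (nat_lit 9)]⟩⟩)))
noncomputable def c4_21 : Tr Lf :=
 (.stt (nat_lit 1) (.spl (nat_lit 5) (nat_lit 120) (.spl (nat_lit 6) (nat_lit 12) (.leaf ⟨(nat_lit 0), (nat_lit 890), (nat_lit 0), (nat_lit 110), (nat_lit 22721), (nat_lit 4704), (nat_lit 8535), (nat_lit 1344), (nat_lit 0), (nat_lit 0), (nat_lit 0), [], Pd.none, Pd.none, (nat_lit 0), (nat_lit 1), (nat_lit 0), (nat_lit 0), (nat_lit 8), (nat_lit 0), [⟨(nat_lit 0), (nat_lit 100), (nat_lit 86), (nat_lit 77), (nat_lit 980195316)⟩], [⟨(nat_lit 1), (nat_lit 77), (nat_lit 86), (nat_lit 100), (nat_lit 572473501)⟩], [], [],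
 ⟨⟨[(nat_lit 60), (nat_lit 80), (nat_lit 100)], [(nat_lit 0), (nat_lit 304), (nat_lit 825)], [((nat_lit 0), (nat_lit 0), (nat_lit 0)), ((nat_lit 1000), (nat_lit 905), (nat_lit 238)), ((nat_lit 1000), (nat_lit 871), (nat_lit 407))], ((nat_lit 88), (nat_lit 100), (nat_lit 35))⟩, (nat_lit 4512652), (nat_lit 127), (nat_lit 127), (nat_lit 0), (nat_lit 0), [(nat_lit 3282000010), (nat_lit 4688000012), (nat_lit 6250000000)], [], [(nat_lit 25219749255), (nat_lit 26246245162), (nat_lit 24507227318), (nat_lit 25461227382), (nat_lit 28479293738), (nat_lit 29564506217), (nat_lit 27539223473), (nat_lit 28351217172)], (nat_lit 0), (nat_lit 0), (nat_lit 0), (nat_lit 0), (nat_lit 0), (nat_lit 0), [], [(nat_lit 9), (nat_lit 50), (nat_lit 238), (nat_lit 30), (nat_lit 8)]⟩,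
 ⟨⟨[(nat_lit 80), (nat_lit 100), (nat_lit 120)], [(nat_lit 0), (nat_lit 0), (nat_lit 511)], [((nat_lit 0), (nat_lit 0), (nat_lit 0)), ((nat_lit 0), (nat_lit 0), (nat_lit 0)), ((nat_lit 1000), (nat_lit 997), (nat_lit 383))], ((nat_lit 99), (nat_lit 100), (nat_lit 34))⟩, (nat_lit 10178935), (nat_lit 257), (nat_lit 257), (nat_lit 0), (nat_lit 159532), [(nat_lit 4688000000), (nat_lit 6250000000), (nat_lit 7968000000)], [], [(nat_lit 16688012280), (nat_lit 19200245585), (nat_lit 14762701240), (nat_lit 16864884275), (nat_lit 12099456772), (nat_lit 14070667767), (nat_lit 13347020715), (nat_lit 12723527244)], (nat_lit 1271251), (nat_lit 1271251), (nat_lit 292188), (nat_lit 780000), (nat_lit 0), (nat_lit 780000), [(nat_lit 1100000), (nat_lit 1442501), (nat_lit 1271251)], [(nat_lit 16), (nat_lit 54), (nat_lit 272), (nat_lit 60), (nat_lit 9)]⟩,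
 ⟨⟨[(nat_lit 140), (nat_lit 160), (nat_lit 180)], [(nat_lit 0), (nat_lit 0), (nat_lit 799)], [((nat_lit 0), (nat_lit 0), (nat_lit 0)), ((nat_lit 0), (nat_lit 0), (nat_lit 0)), ((nat_lit 728), (nat_lit 1000), (nat_lit 454))], ((nat_lit 100), (nat_lit 79), (nat_lit 37))⟩, (nat_lit 96646), (nat_lit 300), (nat_lit 1022), (nat_lit 8162000), (nat_lit 1462475), [(nat_lit 1082620000), (nat_lit 1305920000), (nat_lit 1546380000)], [], [(nat_lit 6371212456), (nat_lit 6114289196), (nat_lit 6510945291), (nat_lit 6233895659), (nat_lit 5310066132), (nat_lit 5062107216), (nat_lit 5426817634), (nat_lit 5163520342)], (nat_lit 780000), (nat_lit 1271251), (nat_lit 1271251), (nat_lit 1271251), (nat_lit 0), (nat_lit 780000), [(nat_lit 1977501), (nat_lit 1271251), (nat_lit 1271251)], [(nat_lit 31), (nat_lit 65), (nat_lit 401), (nat_lit 175), (nat_lit 9)]⟩⟩) (.spl (nat_lit 1) (nat_lit 250) (.leaf ⟨(nat_lit 0), (nat_lit 846), (nat_lit 0), (nat_lit 154), (nat_lit 33560), (nat_lit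 5059), (nat_lit 8166), (nat_lit 2051), (nat_lit 0), (nat_lit 0), (nat_lit 0), [], Pd.none, Pd.none, (nat_lit 0), (nat_lit 1), (nat_lit 0), (nat_lit 0), (nat_lit 8), (nat_lit 0), [⟨(nat_lit 0), (nat_lit 100), (nat_lit 86), (nat_lit 74), (nat_lit 1010901519)⟩], [⟨(nat_lit 1), (nat_lit 77), (nat_lit 86), (nat_lit 100), (nat_lit 644278938)⟩], [], [],
 ⟨⟨[(nat_lit 60), (nat_lit 80), (nat_lit 100)], [(nat_lit 0), (nat_lit 304), (nat_lit 825)], [((nat_lit 0), (nat_lit 0), (nat_lit 0)), ((nat_lit 1000), (nat_lit 905), (nat_lit 238)), ((nat_lit 1000), (nat_lit 871), (nat_lit 407))], ((nat_lit 87), (nat_lit 100), (nat_lit 44))⟩, (nat_lit 4258468), (nat_lit 127), (nat_lit 127), (nat_lit 0), (nat_lit 0), [(nat_lit 3282000712), (nat_lit 4688001791), (nat_lit 6250000000)], [], [(nat_lit 25062426733), (nat_lit 26065130322), (nat_lit 24148174038), (nat_lit 25062641380), (nat_lit 29103209195), (nat_lit 30222527916), (nat_lit 27282449145), (nat_lit 28338396822)], (nat_lit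 0), (nat_lit 0), (nat_lit 0), (nat_lit 0), (nat_lit 0), (nat_lit 0), [], [(nat_lit 9), (nat_lit 50), (nat_lit 238), (nat_lit 30), (nat_lit 8)]⟩,
 ⟨⟨[(nat_lit 80), (nat_lit 120), (nat_lit 140)], [(nat_lit 0), (nat_lit 0), (nat_lit 1164)], [((nat_lit 0), (nat_lit 0), (nat_lit 0)), ((nat_lit 0), (nat_lit 0), (nat_lit 0)), ((nat_lit 941), (nat_lit 1000), (nat_lit 576))], ((nat_lit 100), (nat_lit 99), (nat_lit 44))⟩, (nat_lit 5247670), (nat_lit 248), (nat_lit 248), (nat_lit 0), (nat_lit 52250), [(nat_lit 4688000000), (nat_lit 7968000000), (nat_lit 9842000000)], [], [(nat_lit 22001526209), (nat_lit 23033731119), (nat_lit 19837807800), (nat_lit 20739404736), (nat_lit 17229424653), (nat_lit 18094972854), (nat_lit 20104160710), (nat_lit 18083236989)], (nat_lit 1271251), (nat_lit 1271251), (nat_lit 292188), (nat_lit 780000), (nat_lit 0), (nat_lit 780000), [(nat_lit 1100000), (nat_lit 1785001), (nat_lit 1271251)], [(nat_lit 17), (nat_lit 58), (nat_lit 345),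 (nat_lit 125), (nat_lit 10)]⟩,
 ⟨⟨[(nat_lit 140), (nat_lit 160), (nat_lit 180)], [(nat_lit 0), (nat_lit 0), (nat_lit 799)], [((nat_lit 0), (nat_lit 0), (nat_lit 0)), ((nat_lit 0), (nat_lit 0), (nat_lit 0)), ((nat_lit 728), (nat_lit 1000), (nat_lit 454))], ((nat_lit 100), (nat_lit 71), (nat_lit 48))⟩, (nat_lit 135305), (nat_lit 300), (nat_lit 576), (nat_lit 11426800), (nat_lit 446472), [(nat_lit 1515668000), (nat_lit 1828288000), (nat_lit 2164932000)], [], [(nat_lit 8673509096), (nat_lit 8268865773), (nat_lit 9073229242), (nat_lit 8692871003), (nat_lit 7028683928), (nat_lit 6642470590), (nat_lit 7251405781), (nat_lit 6898629354)], (nat_lit 780000), (nat_lit 1271251), (nat_lit 1271251), (nat_lit 1271251), (nat_lit 0), (nat_lit 780000), [(nat_lit 1977501), (nat_lit 1271251), (nat_lit 1271251)], [(nat_lit 31), (nat_lit 65), (nat_lit 401), (nat_lit 175), (nat_lit 9)]⟩⟩) (.leaf ⟨(nat_lit 0), (nat_lit 884), (nat_lit 0), (nat_lit 116), (nat_lit 35714), (nat_lit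 5104), (nat_lit 8293), (nat_lit 1422), (nat_lit 0), (nat_lit 0), (nat_lit 0), [], Pd.none, Pd.none, (nat_lit 0), (nat_lit 1), (nat_lit 0), (nat_lit 0), (nat_lit 8), (nat_lit 0), [⟨(nat_lit 0), (nat_lit 100), (nat_lit 87), (nat_lit 79), (nat_lit 1003315468)⟩], [⟨(nat_lit 1), (nat_lit 77), (nat_lit 86), (nat_lit 100), (nat_lit 673372300)⟩], [⟨(nat_lit 0), (nat_lit 100), (nat_lit 99), (nat_lit 3), (nat_lit 194820634)⟩], [],
 ⟨⟨[(nat_lit 60), (nat_lit 80), (nat_lit 100)], [(nat_lit 0), (nat_lit 304), (nat_lit 825)], [((nat_lit 0), (nat_lit 0), (nat_lit 0)), ((nat_lit 1000), (nat_lit 905), (nat_lit 238)), ((nat_lit 1000), (nat_lit 871), (nat_lit 407))], ((nat_lit 87), (nat_lit 100), (nat_lit 44))⟩, (nat_lit 4254415), (nat_lit 127), (nat_lit 127), (nat_lit 0), (nat_lit 0), [(nat_lit 3282000086), (nat_lit 4688001966), (nat_lit 6250000000)], [], [(nat_lit 25019246120), (nat_lit 26127522304), (nat_lit 24085805639), (nat_lit 25003550260), (nat_lit 29182297070),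 (nat_lit 30305939117), (nat_lit 27334342931), (nat_lit 28394248740)], (nat_lit 0), (nat_lit 0), (nat_lit 0), (nat_lit 0), (nat_lit 0), (nat_lit 0), [], [(nat_lit 9), (nat_lit 50), (nat_lit 238), (nat_lit 30), (nat_lit 8)]⟩,
 ⟨⟨[(nat_lit 80), (nat_lit 100), (nat_lit 120)], [(nat_lit 0), (nat_lit 132), (nat_lit 640)], [((nat_lit 0), (nat_lit 0), (nat_lit 0)), ((nat_lit 1000), (nat_lit 979), (nat_lit 103)), ((nat_lit 1000), (nat_lit 979), (nat_lit 397))], ((nat_lit 99), (nat_lit 100), (nat_lit 44))⟩, (nat_lit 9145689), (nat_lit 245), (nat_lit 245), (nat_lit 0), (nat_lit 74044), [(nat_lit 4688000000), (nat_lit 6250000000), (nat_lit 7968000000)], [], [(nat_lit 17202263960), (nat_lit 18386339892), (nat_lit 14935706314), (nat_lit 15944294223), (nat_lit 12331900111), (nat_lit 13299028924), (nat_lit 11146878334), (nat_lit 12031587804)], (nat_lit 1271251), (nat_lit 1271251), (nat_lit 292188), (nat_lit 780000), (nat_lit 0), (nat_lit 780000), [(nat_lit 1100000),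 (nat_lit 1442501), (nat_lit 1271251)], [(nat_lit 16), (nat_lit 54), (nat_lit 272), (nat_lit 60), (nat_lit 9)]⟩,
 ⟨⟨[(nat_lit 140), (nat_lit 160), (nat_lit 180)], [(nat_lit 0), (nat_lit 0), (nat_lit 799)], [((nat_lit 0), (nat_lit 0), (nat_lit 0)), ((nat_lit 0), (nat_lit 0), (nat_lit 0)), ((nat_lit 728), (nat_lit 1000), (nat_lit 454))], ((nat_lit 100), (nat_lit 71), (nat_lit 48))⟩, (nat_lit 101917), (nat_lit 300), (nat_lit 666), (nat_lit 8607202), (nat_lit 665177), [(nat_lit 1141672000), (nat_lit 1377152000), (nat_lit 1630728000)], [], [(nat_lit 6711916936), (nat_lit 6439721414), (nat_lit 6859364571), (nat_lit 6565885948), (nat_lit 5585258280), (nat_lit 5325915012), (nat_lit 5711764570), (nat_lit 5432846574)], (nat_lit 780000), (nat_lit 1271251), (nat_lit 1271251), (nat_lit 1271251), (nat_lit 0), (nat_lit 780000), [(nat_lit 1977501), (nat_lit 1271251), (nat_lit 1271251)], [(nat_lit 31), (nat_lit 65), (nat_lit 401), (nat_lit 175), (nat_lit 9)]⟩⟩))) (.leaf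 ⟨(nat_lit 0), (nat_lit 208), (nat_lit 0), (nat_lit 792), (nat_lit 0), (nat_lit 4844), (nat_lit 39177), (nat_lit 9414), (nat_lit 0), (nat_lit 0), (nat_lit 0), [], Pd.none, Pd.none, (nat_lit 0), (nat_lit 1), (nat_lit 0), (nat_lit 0), (nat_lit 8), (nat_lit 0), [⟨(nat_lit 0), (nat_lit 100), (nat_lit 84), (nat_lit 85), (nat_lit 950345197)⟩], [⟨(nat_lit 1), (nat_lit 77), (nat_lit 86), (nat_lit 100), (nat_lit 2738177678)⟩], [], [],
 ⟨⟨[(nat_lit 60), (nat_lit 80), (nat_lit 100)], [(nat_lit 0), (nat_lit 304), (nat_lit 825)], [((nat_lit 0), (nat_lit 0), (nat_lit 0)), ((nat_lit 1000), (nat_lit 905), (nat_lit 238)), ((nat_lit 1000), (nat_lit 871), (nat_lit 407))], ((nat_lit 87), (nat_lit 100), (nat_lit 44))⟩, (nat_lit 5673557), (nat_lit 127), (nat_lit 127), (nat_lit 0), (nat_lit 0), [(nat_lit 3282000005), (nat_lit 4688000022), (nat_lit 6250000000)], [], [(nat_lit 24726594075), (nat_lit 25767035294), (nat_lit 23955041593), (nat_lit 24935568338), (nat_lit 28725344904),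 (nat_lit 29824007732), (nat_lit 27165185114), (nat_lit 28071548765)], (nat_lit 0), (nat_lit 0), (nat_lit 0), (nat_lit 0), (nat_lit 0), (nat_lit 0), [], [(nat_lit 9), (nat_lit 50), (nat_lit 238), (nat_lit 30), (nat_lit 8)]⟩,
 ⟨⟨[(nat_lit 80), (nat_lit 120), (nat_lit 140)], [(nat_lit 0), (nat_lit 0), (nat_lit 1164)], [((nat_lit 0), (nat_lit 0), (nat_lit 0)), ((nat_lit 0), (nat_lit 0), (nat_lit 0)), ((nat_lit 941), (nat_lit 1000), (nat_lit 576))], ((nat_lit 100), (nat_lit 99), (nat_lit 44))⟩, (nat_lit 0), (nat_lit 220), (nat_lit 220), (nat_lit 0), (nat_lit 254050), [(nat_lit 4688000000), (nat_lit 7968000000), (nat_lit 9842000000)], [], [(nat_lit 4382328258), (nat_lit 10710521735), (nat_lit 0), (nat_lit 0), (nat_lit 14914351958), (nat_lit 16215015966), (nat_lit 29229714244), (nat_lit 11366892535)], (nat_lit 1271251), (nat_lit 1271251), (nat_lit 292188), (nat_lit 780000), (nat_lit 780000), (nat_lit 1435001), [(nat_lit 1100000), (nat_lit 1785001), (nat_lit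 1271251)], [(nat_lit 17), (nat_lit 58), (nat_lit 373), (nat_lit 150), (nat_lit 11)]⟩,
 ⟨⟨[(nat_lit 140), (nat_lit 160), (nat_lit 180)], [(nat_lit 0), (nat_lit 0), (nat_lit 799)], [((nat_lit 0), (nat_lit 0), (nat_lit 0)), ((nat_lit 0), (nat_lit 0), (nat_lit 0)), ((nat_lit 728), (nat_lit 1000), (nat_lit 454))], ((nat_lit 100), (nat_lit 71), (nat_lit 48))⟩, (nat_lit 695850), (nat_lit 300), (nat_lit 945), (nat_lit 58766400), (nat_lit 1471258), [(nat_lit 7794864000), (nat_lit 9402624000), (nat_lit 11133936000)], [], [(nat_lit 39253956624), (nat_lit 37365301134), (nat_lit 39692837430), (nat_lit 37867632068), (nat_lit 36707958828), (nat_lit 34801975341), (nat_lit 37224897836), (nat_lit 35372440110)], (nat_lit 780000), (nat_lit 1271251), (nat_lit 1271251), (nat_lit 1271251), (nat_lit 780000), (nat_lit 1435001), [(nat_lit 1977501), (nat_lit 1271251), (nat_lit 1271251)], [(nat_lit 31), (nat_lit 65), (nat_lit 428), (nat_lit 200), (nat_lit 9)]⟩⟩)) (.spl (nat_lit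 6) (nat_lit 12) (.spl (nat_lit 5) (nat_lit 120) (.leaf ⟨(nat_lit 0), (nat_lit 0), (nat_lit 0), (nat_lit 1000), (nat_lit 1181), (nat_lit 5534), (nat_lit 8945), (nat_lit 13665), (nat_lit 0), (nat_lit 0), (nat_lit 0), [], Pd.none, Pd.none, (nat_lit 0), (nat_lit 1), (nat_lit 0), (nat_lit 0), (nat_lit 0), (nat_lit 0), [⟨(nat_lit 0), (nat_lit 100), (nat_lit 86), (nat_lit 77), (nat_lit 1194013754)⟩], [⟨(nat_lit 1), (nat_lit 77), (nat_lit 86), (nat_lit 100), (nat_lit 1297505199)⟩], [], [],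
 ⟨⟨[(nat_lit 60), (nat_lit 80), (nat_lit 100)], [(nat_lit 0), (nat_lit 304), (nat_lit 825)], [((nat_lit 0), (nat_lit 0), (nat_lit 0)), ((nat_lit 1000), (nat_lit 905), (nat_lit 238)), ((nat_lit 1000), (nat_lit 871), (nat_lit 407))], ((nat_lit 88), (nat_lit 100), (nat_lit 35))⟩, (nat_lit 4232752), (nat_lit 177), (nat_lit 177), (nat_lit 0), (nat_lit 185375), [(nat_lit 3282000063), (nat_lit 4688000036), (nat_lit 6250000000)], [], [(nat_lit 25300678788), (nat_lit 26723712359), (nat_lit 24384040016), (nat_lit 25242368979), (nat_lit 29938025651), (nat_lit 31102979484), (nat_lit 27830216889), (nat_lit 28927944853)], (nat_lit 1271251), (nat_lit 1271251), (nat_lit 292188), (nat_lit 780000), (nat_lit 1271251), (nat_lit 1271251), [(nat_lit 780000), (nat_lit 1100000), (nat_lit 1442501)], [(nat_lit 9), (nat_lit 50), (nat_lit 238), (nat_lit 30), (nat_lit 8)]⟩,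
 ⟨⟨[(nat_lit 80), (nat_lit 100), (nat_lit 120)], [(nat_lit 0), (nat_lit 0), (nat_lit 511)], [((nat_lit 0), (nat_lit 0), (nat_lit 0)), ((nat_lit 0), (nat_lit 0), (nat_lit 0)), ((nat_lit 1000), (nat_lit 997), (nat_lit 383))], ((nat_lit 99), (nat_lit 100), (nat_lit 34))⟩, (nat_lit 10732528), (nat_lit 257), (nat_lit 257), (nat_lit 0), (nat_lit 159532), [(nat_lit 4688000000), (nat_lit 6250000000), (nat_lit 7968000000)], [], [(nat_lit 16435656083), (nat_lit 19214136795), (nat_lit 14133049480), (nat_lit 16692382925), (nat_lit 11298863199), (nat_lit 13332681144), (nat_lit 12522407805), (nat_lit 11850512707)], (nat_lit 1271251), (nat_lit 1271251), (nat_lit 292188), (nat_lit 780000), (nat_lit 0), (nat_lit 780000), [(nat_lit 1100000), (nat_lit 1442501), (nat_lit 1271251)], [(nat_lit 16), (nat_lit 54), (nat_lit 272), (nat_lit 60), (nat_lit 9)]⟩,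
 ⟨⟨[(nat_lit 140), (nat_lit 160), (nat_lit 180)], [(nat_lit 0), (nat_lit 0), (nat_lit 799)], [((nat_lit 0), (nat_lit 0), (nat_lit 0)), ((nat_lit 0), (nat_lit 0), (nat_lit 0)), ((nat_lit 728), (nat_lit 1000), (nat_lit 454))], ((nat_lit 100), (nat_lit 79), (nat_lit 37))⟩, (nat_lit 878598), (nat_lit 300), (nat_lit 550), (nat_lit 74200002), (nat_lit 380870), [(nat_lit 9842000000), (nat_lit 11872000000), (nat_lit 14058000000)], [], [(nat_lit 55817459240), (nat_lit 53604962615), (nat_lit 58960068770), (nat_lit 56398203500), (nat_lit 44819892720), (nat_lit 42222929490), (nat_lit 46779668543), (nat_lit 44402417805)], (nat_lit 780000), (nat_lit 1271251), (nat_lit 1271251), (nat_lit 1271251), (nat_lit 0), (nat_lit 780000), [(nat_lit 1977501), (nat_lit 1271251), (nat_lit 1271251)], [(nat_lit 31), (nat_lit 65), (nat_lit 401), (nat_lit 175), (nat_lit 9)]⟩⟩) (.leaf ⟨(nat_lit 0), (nat_lit 0), (nat_lit 0), (nat_lit 1000), (nat_lit 0), (nat_lit 5148), (nat_lit 16424),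 (nat_lit 26644), (nat_lit 0), (nat_lit 0), (nat_lit 0), [], Pd.none, Pd.none, (nat_lit 0), (nat_lit 1), (nat_lit 0), (nat_lit 0), (nat_lit 0), (nat_lit 0), [⟨(nat_lit 0), (nat_lit 100), (nat_lit 86), (nat_lit 77), (nat_lit 2492515119)⟩], [⟨(nat_lit 1), (nat_lit 77), (nat_lit 86), (nat_lit 100), (nat_lit 1917569262)⟩], [], [],
 ⟨⟨[(nat_lit 60), (nat_lit 80), (nat_lit 100)], [(nat_lit 0), (nat_lit 304), (nat_lit 825)], [((nat_lit 0), (nat_lit 0), (nat_lit 0)), ((nat_lit 1000), (nat_lit 905), (nat_lit 238)), ((nat_lit 1000), (nat_lit 871), (nat_lit 407))], ((nat_lit 88), (nat_lit 100), (nat_lit 35))⟩, (nat_lit 5634759), (nat_lit 177), (nat_lit 177), (nat_lit 0), (nat_lit 185375), [(nat_lit 3282000002), (nat_lit 4688000003), (nat_lit 6250000000)], [], [(nat_lit 25212088078), (nat_lit 26189481552), (nat_lit 24473215889), (nat_lit 25404521374), (nat_lit 29259627436), (nat_lit 30387496736), (nat_lit 27470589999), (nat_lit 28448859505)], (nat_lit 1271251),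 (nat_lit 1271251), (nat_lit 292188), (nat_lit 780000), (nat_lit 1271251), (nat_lit 1271251), [(nat_lit 780000), (nat_lit 1100000), (nat_lit 1442501)], [(nat_lit 9), (nat_lit 50), (nat_lit 238), (nat_lit 30), (nat_lit 8)]⟩,
 ⟨⟨[(nat_lit 80), (nat_lit 100), (nat_lit 120)], [(nat_lit 0), (nat_lit 0), (nat_lit 511)], [((nat_lit 0), (nat_lit 0), (nat_lit 0)), ((nat_lit 0), (nat_lit 0), (nat_lit 0)), ((nat_lit 1000), (nat_lit 997), (nat_lit 383))], ((nat_lit 99), (nat_lit 100), (nat_lit 34))⟩, (nat_lit 0), (nat_lit 204), (nat_lit 204), (nat_lit 0), (nat_lit 251777), [(nat_lit 4688000000), (nat_lit 6250000000), (nat_lit 7968000000)], [], [(nat_lit 34549694024), (nat_lit 26087758725), (nat_lit 13786445336), (nat_lit 7558991004), (nat_lit 21487904758), (nat_lit 14694452327), (nat_lit 28256086128), (nat_lit 20668095478)], (nat_lit 1271251), (nat_lit 1271251), (nat_lit 292188), (nat_lit 780000), (nat_lit 780000), (nat_lit 1435001), [(nat_lit 1100000), (nat_lit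 1442501), (nat_lit 1271251)], [(nat_lit 16), (nat_lit 54), (nat_lit 317), (nat_lit 100), (nat_lit 10)]⟩,
 ⟨⟨[(nat_lit 140), (nat_lit 160), (nat_lit 180)], [(nat_lit 0), (nat_lit 0), (nat_lit 799)], [((nat_lit 0), (nat_lit 0), (nat_lit 0)), ((nat_lit 0), (nat_lit 0), (nat_lit 0)), ((nat_lit 728), (nat_lit 1000), (nat_lit 454))], ((nat_lit 100), (nat_lit 79), (nat_lit 37))⟩, (nat_lit 11066970), (nat_lit 300), (nat_lit 430), (nat_lit 74200000), (nat_lit 380870), [(nat_lit 9842000000), (nat_lit 11872000000), (nat_lit 14058000000)], [], [(nat_lit 30986897816), (nat_lit 25956982592), (nat_lit 41740027810), (nat_lit 40467066403), (nat_lit 24746506418), (nat_lit 21265244626), (nat_lit 39813907569), (nat_lit 38028111981)], (nat_lit 780000), (nat_lit 1271251), (nat_lit 1271251), (nat_lit 1271251), (nat_lit 780000), (nat_lit 1435001), [(nat_lit 1977501), (nat_lit 1271251), (nat_lit 1271251)], [(nat_lit 31), (nat_lit 65), (nat_lit 428), (nat_lit 200), (nat_lit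 9)]⟩⟩)) (.spl (nat_lit 6) (nat_lit 16) (.leaf ⟨(nat_lit 0), (nat_lit 0), (nat_lit 0), (nat_lit 1000), (nat_lit 56288), (nat_lit 5051), (nat_lit 7984), (nat_lit 11904), (nat_lit 0), (nat_lit 0), (nat_lit 0), [], Pd.none, Pd.none, (nat_lit 0), (nat_lit 1), (nat_lit 0), (nat_lit 0), (nat_lit 0), (nat_lit 0), [⟨(nat_lit 0), (nat_lit 100), (nat_lit 86), (nat_lit 77), (nat_lit 1847799828)⟩], [⟨(nat_lit 1), (nat_lit 77), (nat_lit 86), (nat_lit 100), (nat_lit 1780810977)⟩], [], [],
 ⟨⟨[(nat_lit 60), (nat_lit 80), (nat_lit 100)], [(nat_lit 0), (nat_lit 304), (nat_lit 825)], [((nat_lit 0), (nat_lit 0), (nat_lit 0)), ((nat_lit 1000), (nat_lit 905), (nat_lit 238)), ((nat_lit 1000), (nat_lit 871), (nat_lit 407))], ((nat_lit 87), (nat_lit 100), (nat_lit 39))⟩, (nat_lit 4259185), (nat_lit 150), (nat_lit 150), (nat_lit 0), (nat_lit 86198), [(nat_lit 3282000001), (nat_lit 4688000001), (nat_lit 6250000000)], [], [(nat_lit 25070105379), (nat_lit 26054421540), (nat_lit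 24159263846), (nat_lit 25073150328), (nat_lit 29089149128), (nat_lit 30207699258), (nat_lit 27273223583), (nat_lit 28328467592)], (nat_lit 1271251), (nat_lit 1271251), (nat_lit 292188), (nat_lit 780000), (nat_lit 1271251), (nat_lit 1271251), [(nat_lit 780000), (nat_lit 1100000), (nat_lit 1442501)], [(nat_lit 9), (nat_lit 50), (nat_lit 238), (nat_lit 30), (nat_lit 8)]⟩,
 ⟨⟨[(nat_lit 80), (nat_lit 100), (nat_lit 120)], [(nat_lit 0), (nat_lit 0), (nat_lit 511)], [((nat_lit 0), (nat_lit 0), (nat_lit 0)), ((nat_lit 0), (nat_lit 0), (nat_lit 0)), ((nat_lit 1000), (nat_lit 997), (nat_lit 383))], ((nat_lit 100), (nat_lit 100), (nat_lit 40))⟩, (nat_lit 0), (nat_lit 254), (nat_lit 254), (nat_lit 0), (nat_lit 118384), [(nat_lit 4688000000), (nat_lit 6250000000), (nat_lit 7968000000)], [], [(nat_lit 35756655984), (nat_lit 31644068642), (nat_lit 21339476128), (nat_lit 21860673424), (nat_lit 19584110496), (nat_lit 21047724917), (nat_lit 21148448880), (nat_lit 19497816886)],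 (nat_lit 1271251), (nat_lit 1271251), (nat_lit 292188), (nat_lit 780000), (nat_lit 0), (nat_lit 1412501), [(nat_lit 1100000), (nat_lit 1442501), (nat_lit 1271251)], [(nat_lit 16), (nat_lit 54), (nat_lit 317), (nat_lit 100), (nat_lit 11)]⟩,
 ⟨⟨[(nat_lit 140), (nat_lit 160), (nat_lit 180)], [(nat_lit 0), (nat_lit 0), (nat_lit 799)], [((nat_lit 0), (nat_lit 0), (nat_lit 0)), ((nat_lit 0), (nat_lit 0), (nat_lit 0)), ((nat_lit 728), (nat_lit 1000), (nat_lit 454))], ((nat_lit 100), (nat_lit 75), (nat_lit 43))⟩, (nat_lit 878598), (nat_lit 300), (nat_lit 449), (nat_lit 74200002), (nat_lit 184651), [(nat_lit 9842000000), (nat_lit 11872000000), (nat_lit 14058000000)], [], [(nat_lit 55841020080), (nat_lit 54056724272), (nat_lit 58741757600), (nat_lit 56647063837), (nat_lit 43711441739), (nat_lit 41780667565), (nat_lit 45699576144), (nat_lit 43688607825)], (nat_lit 780000), (nat_lit 1271251), (nat_lit 1271251), (nat_lit 1271251), (nat_lit 0), (nat_lit 1412501),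 [(nat_lit 1977501), (nat_lit 1271251), (nat_lit 1271251)], [(nat_lit 31), (nat_lit 65), (nat_lit 428), (nat_lit 200), (nat_lit 10)]⟩⟩) (.leaf ⟨(nat_lit 0), (nat_lit 0), (nat_lit 0), (nat_lit 1000), (nat_lit 79231), (nat_lit 5248), (nat_lit 13106), (nat_lit 11904), (nat_lit 0), (nat_lit 0), (nat_lit 0), [], Pd.none, Pd.none, (nat_lit 0), (nat_lit 1), (nat_lit 0), (nat_lit 0), (nat_lit 0), (nat_lit 0), [⟨(nat_lit 0), (nat_lit 100), (nat_lit 86), (nat_lit 77), (nat_lit 1022503869)⟩], [⟨(nat_lit 1), (nat_lit 77), (nat_lit 86), (nat_lit 100), (nat_lit 2119295311)⟩], [], [],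
 ⟨⟨[(nat_lit 60), (nat_lit 80), (nat_lit 100)], [(nat_lit 0), (nat_lit 304), (nat_lit 825)], [((nat_lit 0), (nat_lit 0), (nat_lit 0)), ((nat_lit 1000), (nat_lit 905), (nat_lit 238)), ((nat_lit 1000), (nat_lit 871), (nat_lit 407))], ((nat_lit 87), (nat_lit 100), (nat_lit 44))⟩, (nat_lit 3702010), (nat_lit 142), (nat_lit 142), (nat_lit 0), (nat_lit 56230), [(nat_lit 3282000039), (nat_lit 4806458241), (nat_lit 6250000000)], [], [(nat_lit 25326104322), (nat_lit 26327176648), (nat_lit 24331262925), (nat_lit 25259453085), (nat_lit 29435378269), (nat_lit 30572854961), (nat_lit 27500403047), (nat_lit 28572974880)], (nat_lit 1271251), (nat_lit 1271251), (nat_lit 292188), (nat_lit 780000), (nat_lit 1271251), (nat_lit 1271251), [(nat_lit 780000), (nat_lit 1100000), (nat_lit 1442501)], [(nat_lit 9), (nat_lit 50), (nat_lit 238), (nat_lit 30), (nat_lit 8)]⟩,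
 ⟨⟨[(nat_lit 80), (nat_lit 120), (nat_lit 140)], [(nat_lit 0), (nat_lit 0), (nat_lit 1164)], [((nat_lit 0), (nat_lit 0), (nat_lit 0)), ((nat_lit 0), (nat_lit 0), (nat_lit 0)), ((nat_lit 941), (nat_lit 1000), (nat_lit 576))], ((nat_lit 100), (nat_lit 99), (nat_lit 44))⟩, (nat_lit 0), (nat_lit 285), (nat_lit 285), (nat_lit 0), (nat_lit 77558), [(nat_lit 4688000000), (nat_lit 7968000000), (nat_lit 9842000000)], [], [(nat_lit 38714525106), (nat_lit 33097053830), (nat_lit 37877088420), (nat_lit 31657786839), (nat_lit 50039659902), (nat_lit 44083517791), (nat_lit 56688124514), (nat_lit 50864817447)], (nat_lit 1271251), (nat_lit 1271251), (nat_lit 292188), (nat_lit 780000), (nat_lit 0), (nat_lit 1412501), [(nat_lit 1100000), (nat_lit 1785001), (nat_lit 1271251)], [(nat_lit 17), (nat_lit 58), (nat_lit 373), (nat_lit 150), (nat_lit 11)]⟩,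
 ⟨⟨[(nat_lit 140), (nat_lit 160), (nat_lit 180)], [(nat_lit 0), (nat_lit 0), (nat_lit 799)], [((nat_lit 0), (nat_lit 0), (nat_lit 0)), ((nat_lit 0), (nat_lit 0), (nat_lit 0)), ((nat_lit 728), (nat_lit 1000), (nat_lit 454))], ((nat_lit 100), (nat_lit 71), (nat_lit 48))⟩, (nat_lit 878598), (nat_lit 300), (nat_lit 424), (nat_lit 74200002), (nat_lit 124130), [(nat_lit 9842000000), (nat_lit 11872000000), (nat_lit 14058000000)], [], [(nat_lit 55841020080), (nat_lit 54056724272), (nat_lit 58741757600), (nat_lit 56647063837), (nat_lit 43650634932), (nat_lit 41768384663), (nat_lit 45699576144), (nat_lit 43688607825)], (nat_lit 780000), (nat_lit 1271251), (nat_lit 1271251), (nat_lit 1271251), (nat_lit 0), (nat_lit 1412501), [(nat_lit 1977501), (nat_lit 1271251), (nat_lit 1271251)], [(nat_lit 31), (nat_lit 65), (nat_lit 428), (nat_lit 200), (nat_lit 10)]⟩⟩))))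
noncomputable def c4_22 : Tr Lf :=
 (.trZ (nat_lit 0) (nat_lit 1) (nat_lit 3) (nat_lit 100) (nat_lit 91) (nat_lit 77) (nat_lit 60) (.spl (nat_lit 5) (nat_lit 120) (.leaf ⟨(nat_lit 0), (nat_lit 863), (nat_lit 0), (nat_lit 137), (nat_lit 5948), (nat_lit 5319), (nat_lit 9272), (nat_lit 1589), (nat_lit 0), (nat_lit 0), (nat_lit 0), [], Pd.none, Pd.none, (nat_lit 0), (nat_lit 1), (nat_lit 0), (nat_lit 0), (nat_lit 6), (nat_lit 0), [⟨(nat_lit 0), (nat_lit 100), (nat_lit 89), (nat_lit 86), (nat_lit 394559729)⟩], [⟨(nat_lit 1), (nat_lit 77), (nat_lit 86), (nat_lit 100), (nat_lit 416670175)⟩], [], [],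
 ⟨⟨[(nat_lit 60), (nat_lit 80), (nat_lit 100)], [(nat_lit 0), (nat_lit 304), (nat_lit 825)], [((nat_lit 0), (nat_lit 0), (nat_lit 0)), ((nat_lit 1000), (nat_lit 905), (nat_lit 238)), ((nat_lit 1000), (nat_lit 871), (nat_lit 407))], ((nat_lit 87), (nat_lit 100), (nat_lit 44))⟩, (nat_lit 3818165), (nat_lit 201), (nat_lit 201), (nat_lit 0), (nat_lit 244158), [(nat_lit 3282000302), (nat_lit 4688000213), (nat_lit 6250000000)], [], [(nat_lit 22342941047), (nat_lit 23384272707), (nat_lit 21990570335), (nat_lit 22958688468), (nat_lit 29002044951), (nat_lit 30142525290), (nat_lit 27878428414), (nat_lit 28661096797)], (nat_lit 1271251), (nat_lit 1271251), (nat_lit 356250), (nat_lit 780000), (nat_lit 1271251), (nat_lit 1271251), [(nat_lit 780000), (nat_lit 1100000), (nat_lit 1442501)], [(nat_lit 9), (nat_lit 50), (nat_lit 238), (nat_lit 30), (nat_lit 8)]⟩,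
 ⟨⟨[(nat_lit 80), (nat_lit 100), (nat_lit 120)], [(nat_lit 0), (nat_lit 265), (nat_lit 768)], [((nat_lit 0), (nat_lit 0), (nat_lit 0)), ((nat_lit 1000), (nat_lit 959), (nat_lit 206)), ((nat_lit 1000), (nat_lit 958), (nat_lit 392))], ((nat_lit 96), (nat_lit 100), (nat_lit 44))⟩, (nat_lit 5462809), (nat_lit 257), (nat_lit 257), (nat_lit 0), (nat_lit 193725), [(nat_lit 4688000000), (nat_lit 6250000000), (nat_lit 7968000000)], [], [(nat_lit 19345551932), (nat_lit 21888812792), (nat_lit 19227666786), (nat_lit 19763450880), (nat_lit 20386996170), (nat_lit 15956129898), (nat_lit 24563927448), (nat_lit 20222496570)], (nat_lit 1271251), (nat_lit 1271251), (nat_lit 356250), (nat_lit 780000), (nat_lit 0), (nat_lit 780000), [(nat_lit 1100000), (nat_lit 1442501), (nat_lit 1271251)], [(nat_lit 16), (nat_lit 54), (nat_lit 272), (nat_lit 60), (nat_lit 9)]⟩,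
 ⟨⟨[(nat_lit 140), (nat_lit 160), (nat_lit 180)], [(nat_lit 0), (nat_lit 0), (nat_lit 799)], [((nat_lit 0), (nat_lit 0), (nat_lit 0)), ((nat_lit 0), (nat_lit 0), (nat_lit 0)), ((nat_lit 728), (nat_lit 1000), (nat_lit 454))], ((nat_lit 100), (nat_lit 71), (nat_lit 48))⟩, (nat_lit 120368), (nat_lit 300), (nat_lit 1269), (nat_lit 10165400), (nat_lit 1937097), [(nat_lit 1348354000), (nat_lit 1626464000), (nat_lit 1925946000)], [], [(nat_lit 8194738608), (nat_lit 7884361264), (nat_lit 8230774852), (nat_lit 7909559230), (nat_lit 7081029214), (nat_lit 6759690498), (nat_lit 6973585871), (nat_lit 6653909229)], (nat_lit 780000), (nat_lit 1271251), (nat_lit 1271251), (nat_lit 1271251), (nat_lit 0), (nat_lit 780000), [(nat_lit 1977501), (nat_lit 1271251), (nat_lit 1271251)], [(nat_lit 31), (nat_lit 65), (nat_lit 401), (nat_lit 175), (nat_lit 9)]⟩⟩) (.leaf ⟨(nat_lit 0), (nat_lit 672), (nat_lit 0), (nat_lit 328), (nat_lit 0), (nat_lit 5746), (nat_lit 22727), (nat_lit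 3794), (nat_lit 0), (nat_lit 0), (nat_lit 0), [], Pd.none, Pd.none, (nat_lit 0), (nat_lit 1), (nat_lit 0), (nat_lit 0), (nat_lit 6), (nat_lit 0), [⟨(nat_lit 0), (nat_lit 100), (nat_lit 89), (nat_lit 86), (nat_lit 1399277339)⟩], [⟨(nat_lit 1), (nat_lit 77), (nat_lit 86), (nat_lit 100), (nat_lit 372103931)⟩], [], [],
 ⟨⟨[(nat_lit 60), (nat_lit 80), (nat_lit 100)], [(nat_lit 0), (nat_lit 304), (nat_lit 825)], [((nat_lit 0), (nat_lit 0), (nat_lit 0)), ((nat_lit 1000), (nat_lit 905), (nat_lit 238)), ((nat_lit 1000), (nat_lit 871), (nat_lit 407))], ((nat_lit 87), (nat_lit 100), (nat_lit 44))⟩, (nat_lit 6045972), (nat_lit 201), (nat_lit 201), (nat_lit 0), (nat_lit 244158), [(nat_lit 3282000009), (nat_lit 4688000005), (nat_lit 6250000000)], [], [(nat_lit 19479548515), (nat_lit 20645214139), (nat_lit 19084664383), (nat_lit 20209813519), (nat_lit 29696707165), (nat_lit 30878094918), (nat_lit 28074694282), (nat_lit 29191069448)], (nat_lit 1271251), (nat_lit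 1271251), (nat_lit 356250), (nat_lit 780000), (nat_lit 1271251), (nat_lit 1271251), [(nat_lit 780000), (nat_lit 1100000), (nat_lit 1442501)], [(nat_lit 9), (nat_lit 50), (nat_lit 238), (nat_lit 30), (nat_lit 8)]⟩,
 ⟨⟨[(nat_lit 80), (nat_lit 100), (nat_lit 120)], [(nat_lit 0), (nat_lit 265), (nat_lit 768)], [((nat_lit 0), (nat_lit 0), (nat_lit 0)), ((nat_lit 1000), (nat_lit 959), (nat_lit 206)), ((nat_lit 1000), (nat_lit 958), (nat_lit 392))], ((nat_lit 96), (nat_lit 100), (nat_lit 44))⟩, (nat_lit 7733045), (nat_lit 192), (nat_lit 192), (nat_lit 0), (nat_lit 297626), [(nat_lit 4688000000), (nat_lit 6250000000), (nat_lit 7968000000)], [], [(nat_lit 16256579550), (nat_lit 14617458693), (nat_lit 1540529411), (nat_lit 7863152804), (nat_lit 12139719759), (nat_lit 17900985448), (nat_lit 5809012635), (nat_lit 11127502403)], (nat_lit 1271251), (nat_lit 1271251), (nat_lit 356250), (nat_lit 780000), (nat_lit 780000), (nat_lit 1435001), [(nat_lit 1100000), (nat_lit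 1442501), (nat_lit 1271251)], [(nat_lit 16), (nat_lit 54), (nat_lit 317), (nat_lit 100), (nat_lit 10)]⟩,
 ⟨⟨[(nat_lit 140), (nat_lit 160), (nat_lit 180)], [(nat_lit 0), (nat_lit 0), (nat_lit 799)], [((nat_lit 0), (nat_lit 0), (nat_lit 0)), ((nat_lit 0), (nat_lit 0), (nat_lit 0)), ((nat_lit 728), (nat_lit 1000), (nat_lit 454))], ((nat_lit 100), (nat_lit 71), (nat_lit 48))⟩, (nat_lit 288180), (nat_lit 300), (nat_lit 1183), (nat_lit 24337601), (nat_lit 1937097), [(nat_lit 3228176000), (nat_lit 3894016000), (nat_lit 4611024000)], [], [(nat_lit 17007330652), (nat_lit 16240731152), (nat_lit 16736548910), (nat_lit 15957637918), (nat_lit 15975886508), (nat_lit 15205026014), (nat_lit 15701176383), (nat_lit 14962185588)], (nat_lit 780000), (nat_lit 1271251), (nat_lit 1271251), (nat_lit 1271251), (nat_lit 780000), (nat_lit 1435001), [(nat_lit 1977501), (nat_lit 1271251), (nat_lit 1271251)], [(nat_lit 31), (nat_lit 65), (nat_lit 428), (nat_lit 200), (nat_lit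 10)]⟩⟩)))
noncomputable def c4_23 : Tr Lf :=
 (.spl (nat_lit 1) (nat_lit 260) (.spl (nat_lit 3) (nat_lit 80) (.trX (nat_lit 4) (nat_lit 5) (nat_lit 3) (nat_lit 100) (nat_lit 60) (nat_lit 80) (nat_lit 360) (.trX (nat_lit 5) (nat_lit 4) (nat_lit 3) (nat_lit 100) (nat_lit 76) (nat_lit 82) (nat_lit 340) (.leaf ⟨(nat_lit 126), (nat_lit 728), (nat_lit 0), (nat_lit 146), (nat_lit 0), (nat_lit 5985), (nat_lit 9579), (nat_lit 1605), (nat_lit 0), (nat_lit 0), (nat_lit 216000), [((nat_lit 320), [((nat_lit 15), (nat_lit 2), (nat_lit 96)), ((nat_lit 35), (nat_lit 5), (nat_lit 30))])], ⟨(nat_lit 6), false, false, false, (nat_lit 127), (nat_lit 4472), (nat_lit 5000), [(nat_lit 1274989), (nat_lit 1288204), (nat_lit 1296408), (nat_lit 1309761), (nat_lit 1328559), (nat_lit 1339186), (nat_lit 1349976), (nat_lit 1360741)]⟩, ⟨(nat_lit 6), false, false, true, (nat_lit 248), (nat_lit 4472), (nat_lit 5000), [(nat_lit 1485713), (nat_lit 1481711), (nat_lit 1549999), (nat_lit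 1546410), (nat_lit 1699999), (nat_lit 1685645), (nat_lit 1764275), (nat_lit 1750336)]⟩, (nat_lit 4552457), (nat_lit 43251848), (nat_lit 6144061), (nat_lit 17604091), (nat_lit 6), (nat_lit 0), [⟨(nat_lit 0), (nat_lit 100), (nat_lit 86), (nat_lit 77), (nat_lit 886945584)⟩], [], [], [⟨(nat_lit 2), (nat_lit 100), (nat_lit 92), (nat_lit 82), (nat_lit 579567080)⟩],
 ⟨⟨[(nat_lit 60), (nat_lit 80), (nat_lit 100)], [(nat_lit 0), (nat_lit 304), (nat_lit 825)], [((nat_lit 0), (nat_lit 0), (nat_lit 0)), ((nat_lit 1000), (nat_lit 905), (nat_lit 238)), ((nat_lit 1000), (nat_lit 871), (nat_lit 407))], ((nat_lit 87), (nat_lit 100), (nat_lit 44))⟩, (nat_lit 3878198), (nat_lit 173), (nat_lit 173), (nat_lit 0), (nat_lit 186852), [(nat_lit 3090351579), (nat_lit 4208172841), (nat_lit 5318908000)], [(nat_lit 0), (nat_lit 0), (nat_lit 0)], [(nat_lit 19492939923), (nat_lit 21413394025), (nat_lit 18458493208), (nat_lit 19628001917), (nat_lit 29757552028), (nat_lit 31020959798),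 (nat_lit 27839763293), (nat_lit 29089494060)], (nat_lit 1271251), (nat_lit 1271251), (nat_lit 292188), (nat_lit 490000), (nat_lit 1271251), (nat_lit 1271251), [(nat_lit 780000), (nat_lit 1100000), (nat_lit 1442501)], [(nat_lit 9), (nat_lit 50), (nat_lit 226), (nat_lit 20), (nat_lit 8)]⟩,
 ⟨⟨[(nat_lit 80), (nat_lit 120), (nat_lit 140)], [(nat_lit 0), (nat_lit 0), (nat_lit 1164)], [((nat_lit 0), (nat_lit 0), (nat_lit 0)), ((nat_lit 0), (nat_lit 0), (nat_lit 0)), ((nat_lit 941), (nat_lit 1000), (nat_lit 576))], ((nat_lit 100), (nat_lit 99), (nat_lit 44))⟩, (nat_lit 4182326), (nat_lit 248), (nat_lit 248), (nat_lit 0), (nat_lit 254050), [(nat_lit 4097312000), (nat_lit 6964032000), (nat_lit 8601908000)], [], [(nat_lit 14669380264), (nat_lit 16344737498), (nat_lit 12331769244), (nat_lit 13846555293), (nat_lit 25479312013), (nat_lit 27196652786), (nat_lit 22865087026), (nat_lit 24029010590)], (nat_lit 1271251), (nat_lit 1271251), (nat_lit 292188), (nat_lit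 490000), (nat_lit 1271251), (nat_lit 1271251), [(nat_lit 1100000), (nat_lit 1785001), (nat_lit 1271251)], [(nat_lit 17), (nat_lit 58), (nat_lit 401), (nat_lit 175), (nat_lit 11)]⟩,
 ⟨⟨[(nat_lit 140), (nat_lit 160), (nat_lit 180)], [(nat_lit 0), (nat_lit 0), (nat_lit 799)], [((nat_lit 0), (nat_lit 0), (nat_lit 0)), ((nat_lit 0), (nat_lit 0), (nat_lit 0)), ((nat_lit 728), (nat_lit 1000), (nat_lit 454))], ((nat_lit 100), (nat_lit 71), (nat_lit 48))⟩, (nat_lit 128275), (nat_lit 300), (nat_lit 1336), (nat_lit 10833202), (nat_lit 2350063), [(nat_lit 1436932000), (nat_lit 1733312000), (nat_lit 2052468000)], [], [(nat_lit 7622623012), (nat_lit 7293135245), (nat_lit 7344766608), (nat_lit 7008796255), (nat_lit 7182971049), (nat_lit 6847443658), (nat_lit 6999621355), (nat_lit 6667629559)], (nat_lit 780000), (nat_lit 1271251), (nat_lit 1271251), (nat_lit 1271251), (nat_lit 1271251), (nat_lit 1271251), [(nat_lit 1977501), (nat_lit 1271251), (nat_lit 1271251)],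 [(nat_lit 31), (nat_lit 65), (nat_lit 456), (nat_lit 225), (nat_lit 10)]⟩⟩))) (.spl (nat_lit 0) (nat_lit 310) (.leaf ⟨(nat_lit 0), (nat_lit 823), (nat_lit 0), (nat_lit 177), (nat_lit 0), (nat_lit 5913), (nat_lit 9935), (nat_lit 1927), (nat_lit 0), (nat_lit 0), (nat_lit 0), [], Pd.none, Pd.none, (nat_lit 0), (nat_lit 1), (nat_lit 0), (nat_lit 0), (nat_lit 6), (nat_lit 0), [], [], [], [⟨(nat_lit 2), (nat_lit 100), (nat_lit 97), (nat_lit 98), (nat_lit 497590352)⟩, ⟨(nat_lit 2), (nat_lit 100), (nat_lit 94), (nat_lit 92), (nat_lit 13053539)⟩],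
 ⟨⟨[(nat_lit 60), (nat_lit 80), (nat_lit 100)], [(nat_lit 0), (nat_lit 304), (nat_lit 825)], [((nat_lit 0), (nat_lit 0), (nat_lit 0)), ((nat_lit 1000), (nat_lit 905), (nat_lit 238)), ((nat_lit 1000), (nat_lit 871), (nat_lit 407))], ((nat_lit 87), (nat_lit 100), (nat_lit 44))⟩, (nat_lit 4968882), (nat_lit 143), (nat_lit 143), (nat_lit 0), (nat_lit 143308), [(nat_lit 3282000003), (nat_lit 4688000002), (nat_lit 6250000000)], [], [(nat_lit 18008376682), (nat_lit 18656648922), (nat_lit 18161990893), (nat_lit 18823494517), (nat_lit 28696927522), (nat_lit 29291641679), (nat_lit 28267277889), (nat_lit 28832810006)], (nat_lit 1271251), (nat_lit 1271251), (nat_lit 490000), (nat_lit 780000), (nat_lit 1271251), (nat_lit 1271251), [(nat_lit 780000), (nat_lit 1100000), (nat_lit 1442501)], [(nat_lit 9), (nat_lit 50), (nat_lit 238), (nat_lit 30), (nat_lit 8)]⟩,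
 ⟨⟨[(nat_lit 80), (nat_lit 120), (nat_lit 140)], [(nat_lit 0), (nat_lit 0), (nat_lit 1164)], [((nat_lit 0), (nat_lit 0), (nat_lit 0)), ((nat_lit 0), (nat_lit 0), (nat_lit 0)), ((nat_lit 941), (nat_lit 1000), (nat_lit 576))], ((nat_lit 100), (nat_lit 99), (nat_lit 44))⟩, (nat_lit 4467043), (nat_lit 209), (nat_lit 209), (nat_lit 0), (nat_lit 189167), [(nat_lit 4688000000), (nat_lit 7968000000), (nat_lit 9842000000)], [], [(nat_lit 16007663940), (nat_lit 17027817138), (nat_lit 18997919445), (nat_lit 16723872945), (nat_lit 29948765005), (nat_lit 31043914356), (nat_lit 28986013383), (nat_lit 30012498129)], (nat_lit 1271251), (nat_lit 1271251), (nat_lit 490000), (nat_lit 780000), (nat_lit 1271251), (nat_lit 1271251), [(nat_lit 1100000), (nat_lit 1785001), (nat_lit 1271251)], [(nat_lit 17), (nat_lit 58), (nat_lit 428), (nat_lit 200), (nat_lit 12)]⟩,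
 ⟨⟨[(nat_lit 140), (nat_lit 160), (nat_lit 180)], [(nat_lit 0), (nat_lit 0), (nat_lit 799)], [((nat_lit 0), (nat_lit 0), (nat_lit 0)), ((nat_lit 0), (nat_lit 0), (nat_lit 0)), ((nat_lit 728), (nat_lit 1000), (nat_lit 454))], ((nat_lit 100), (nat_lit 71), (nat_lit 48))⟩, (nat_lit 155512), (nat_lit 300), (nat_lit 1035), (nat_lit 13133400), (nat_lit 1711301), [(nat_lit 1742034000), (nat_lit 2101344000), (nat_lit 2488266000)], [], [(nat_lit 9296181702), (nat_lit 8912070782), (nat_lit 9003309851), (nat_lit 8597737665), (nat_lit 8780633879), (nat_lit 8378562907), (nat_lit 8591352976), (nat_lit 8179802679)], (nat_lit 780000), (nat_lit 1271251), (nat_lit 1271251), (nat_lit 1271251), (nat_lit 1271251), (nat_lit 1271251), [(nat_lit 1977501), (nat_lit 1271251), (nat_lit 1271251)], [(nat_lit 31), (nat_lit 65), (nat_lit 483), (nat_lit 250), (nat_lit 11)]⟩⟩) (.trX (nat_lit 4) (nat_lit 0) (nat_lit 2) (nat_lit 84) (nat_lit 63) (nat_lit 100) (nat_lit 360) (.leaf ⟨(nat_lit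 8), (nat_lit 879), (nat_lit 0), (nat_lit 113), (nat_lit 0), (nat_lit 5570), (nat_lit 9855), (nat_lit 1232), (nat_lit 0), (nat_lit 0), (nat_lit 2000), [((nat_lit 320), [((nat_lit 15), (nat_lit 0), (nat_lit 8))])], ⟨(nat_lit 6), false, false, false, (nat_lit 153), (nat_lit 4472), (nat_lit 4744), [(nat_lit 1333872), (nat_lit 1339193), (nat_lit 1355356), (nat_lit 1360756), (nat_lit 1403571), (nat_lit 1407171), (nat_lit 1425056), (nat_lit 1428734)]⟩, ⟨(nat_lit 6), false, false, true, (nat_lit 247), (nat_lit 4472), (nat_lit 4744), [(nat_lit 1483746), (nat_lit 1481711), (nat_lit 1548210), (nat_lit 1546410), (nat_lit 1692845), (nat_lit 1685645), (nat_lit 1757309), (nat_lit 1750345)]⟩, (nat_lit 4807304), (nat_lit 41871253), (nat_lit 7976434), (nat_lit 17152313), (nat_lit 6), (nat_lit 0), [], [], [], [⟨(nat_lit 2), (nat_lit 100), (nat_lit 96), (nat_lit 91), (nat_lit 563547556)⟩],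
 ⟨⟨[(nat_lit 60), (nat_lit 80), (nat_lit 100)], [(nat_lit 0), (nat_lit 456), (nat_lit 976)], [((nat_lit 0), (nat_lit 0), (nat_lit 0)), ((nat_lit 1000), (nat_lit 859), (nat_lit 351)), ((nat_lit 1000), (nat_lit 848), (nat_lit 406))], ((nat_lit 84), (nat_lit 100), (nat_lit 44))⟩, (nat_lit 4569427), (nat_lit 152), (nat_lit 152), (nat_lit 0), (nat_lit 184120), [(nat_lit 3270796809), (nat_lit 4729568474), (nat_lit 6221798400)], [(nat_lit 0), (nat_lit 0), (nat_lit 0)], [(nat_lit 18808552422), (nat_lit 19436933577), (nat_lit 18967819031), (nat_lit 19651862338), (nat_lit 27917705053), (nat_lit 28521277720), (nat_lit 27577356663), (nat_lit 28151370570)], (nat_lit 1271251), (nat_lit 1271251), (nat_lit 490000), (nat_lit 780000), (nat_lit 1271251), (nat_lit 1271251), [(nat_lit 780000), (nat_lit 1100000), (nat_lit 1442501)], [(nat_lit 9), (nat_lit 50), (nat_lit 238), (nat_lit 30), (nat_lit 8)]⟩,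
 ⟨⟨[(nat_lit 80), (nat_lit 120), (nat_lit 140)], [(nat_lit 0), (nat_lit 0), (nat_lit 1164)], [((nat_lit 0), (nat_lit 0), (nat_lit 0)), ((nat_lit 0), (nat_lit 0), (nat_lit 0)), ((nat_lit 941), (nat_lit 1000), (nat_lit 576))], ((nat_lit 100), (nat_lit 99), (nat_lit 44))⟩, (nat_lit 3272898), (nat_lit 234), (nat_lit 234), (nat_lit 0), (nat_lit 253863), [(nat_lit 4650496000), (nat_lit 7904256000), (nat_lit 9763264000)], [], [(nat_lit 16495823096), (nat_lit 18240395586), (nat_lit 18846803269), (nat_lit 17861495301), (nat_lit 29709263741), (nat_lit 30795180684), (nat_lit 28754306153), (nat_lit 29772553012)], (nat_lit 1271251), (nat_lit 1271251), (nat_lit 490000), (nat_lit 780000), (nat_lit 1271251), (nat_lit 1271251), [(nat_lit 1100000), (nat_lit 1785001), (nat_lit 1271251)], [(nat_lit 17), (nat_lit 58), (nat_lit 428), (nat_lit 200), (nat_lit 12)]⟩,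
 ⟨⟨[(nat_lit 140), (nat_lit 160), (nat_lit 180)], [(nat_lit 0), (nat_lit 0), (nat_lit 799)], [((nat_lit 0), (nat_lit 0), (nat_lit 0)), ((nat_lit 0), (nat_lit 0), (nat_lit 0)), ((nat_lit 728), (nat_lit 1000), (nat_lit 454))], ((nat_lit 100), (nat_lit 71), (nat_lit 48))⟩, (nat_lit 99282), (nat_lit 300), (nat_lit 1336), (nat_lit 8384600), (nat_lit 2350063), [(nat_lit 1112146000), (nat_lit 1341536000), (nat_lit 1588554000)], [], [(nat_lit 5985757988), (nat_lit 5732012684), (nat_lit 5745031529), (nat_lit 5486882709), (nat_lit 5594957283), (nat_lit 5340647720), (nat_lit 5472347880), (nat_lit 5211349726)], (nat_lit 780000), (nat_lit 1271251), (nat_lit 1271251), (nat_lit 1271251), (nat_lit 1271251), (nat_lit 1271251), [(nat_lit 1977501), (nat_lit 1271251), (nat_lit 1271251)], [(nat_lit 31), (nat_lit 65), (nat_lit 483), (nat_lit 250), (nat_lit 11)]⟩⟩)))) (.trZ (nat_lit 0) (nat_lit 1) (nat_lit 3) (nat_lit 100) (nat_lit 91) (nat_lit 77) (nat_lit 60) (.spl (nat_lit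 0) (nat_lit 310) (.leaf ⟨(nat_lit 0), (nat_lit 895), (nat_lit 0), (nat_lit 105), (nat_lit 0), (nat_lit 6397), (nat_lit 8162), (nat_lit 1149), (nat_lit 0), (nat_lit 0), (nat_lit 0), [], Pd.none, Pd.none, (nat_lit 0), (nat_lit 1), (nat_lit 0), (nat_lit 0), (nat_lit 6), (nat_lit 0), [⟨(nat_lit 0), (nat_lit 100), (nat_lit 91), (nat_lit 84), (nat_lit 226523668)⟩], [], [], [⟨(nat_lit 2), (nat_lit 100), (nat_lit 94), (nat_lit 92), (nat_lit 319058570)⟩, ⟨(nat_lit 2), (nat_lit 100), (nat_lit 94), (nat_lit 92), (nat_lit 319058570)⟩],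
 ⟨⟨[(nat_lit 60), (nat_lit 80), (nat_lit 100)], [(nat_lit 0), (nat_lit 304), (nat_lit 825)], [((nat_lit 0), (nat_lit 0), (nat_lit 0)), ((nat_lit 1000), (nat_lit 905), (nat_lit 238)), ((nat_lit 1000), (nat_lit 871), (nat_lit 407))], ((nat_lit 87), (nat_lit 100), (nat_lit 44))⟩, (nat_lit 4525503), (nat_lit 175), (nat_lit 175), (nat_lit 0), (nat_lit 207768), [(nat_lit 3282000064), (nat_lit 4688000030), (nat_lit 6250000000)], [], [(nat_lit 19128007431), (nat_lit 20122401697), (nat_lit 18333447322), (nat_lit 18860684062), (nat_lit 30755782345), (nat_lit 31377659742), (nat_lit 28825424390), (nat_lit 29412242464)], (nat_lit 1271251), (nat_lit 1271251), (nat_lit 356250), (nat_lit 780000), (nat_lit 1271251), (nat_lit 1271251), [(nat_lit 780000), (nat_lit 1100000), (nat_lit 1442501)], [(nat_lit 9), (nat_lit 50), (nat_lit 238), (nat_lit 30), (nat_lit 8)]⟩,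
 ⟨⟨[(nat_lit 80), (nat_lit 100), (nat_lit 120)], [(nat_lit 0), (nat_lit 265), (nat_lit 768)], [((nat_lit 0), (nat_lit 0), (nat_lit 0)), ((nat_lit 1000), (nat_lit 959), (nat_lit 206)), ((nat_lit 1000), (nat_lit 958), (nat_lit 392))], ((nat_lit 96), (nat_lit 100), (nat_lit 44))⟩, (nat_lit 4790878), (nat_lit 212), (nat_lit 212), (nat_lit 0), (nat_lit 244574), [(nat_lit 4688000000), (nat_lit 6250000000), (nat_lit 7968000000)], [], [(nat_lit 16534545948), (nat_lit 18085301957), (nat_lit 15478415240), (nat_lit 16815547551), (nat_lit 30801470970), (nat_lit 32214316129), (nat_lit 28203048202), (nat_lit 29531931104)], (nat_lit 1271251), (nat_lit 1271251), (nat_lit 356250), (nat_lit 780000), (nat_lit 1271251), (nat_lit 1271251), [(nat_lit 1100000), (nat_lit 1442501), (nat_lit 1271251)], [(nat_lit 16), (nat_lit 54), (nat_lit 345), (nat_lit 125), (nat_lit 11)]⟩,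
 ⟨⟨[(nat_lit 140), (nat_lit 160), (nat_lit 180)], [(nat_lit 0), (nat_lit 0), (nat_lit 799)], [((nat_lit 0), (nat_lit 0), (nat_lit 0)), ((nat_lit 0), (nat_lit 0), (nat_lit 0)), ((nat_lit 728), (nat_lit 1000), (nat_lit 454))], ((nat_lit 100), (nat_lit 71), (nat_lit 48))⟩, (nat_lit 92253), (nat_lit 300), (nat_lit 1442), (nat_lit 7791000), (nat_lit 2568240), [(nat_lit 1033410000), (nat_lit 1246560000), (nat_lit 1476090000)], [], [(nat_lit 5525146302), (nat_lit 5289178817), (nat_lit 5306205046), (nat_lit 5065593914), (nat_lit 5179788216), (nat_lit 4942548966), (nat_lit 5078474415), (nat_lit 4832654086)], (nat_lit 780000), (nat_lit 1271251), (nat_lit 1271251), (nat_lit 1271251), (nat_lit 1271251), (nat_lit 1271251), [(nat_lit 1977501), (nat_lit 1271251), (nat_lit 1271251)], [(nat_lit 31), (nat_lit 65), (nat_lit 483), (nat_lit 250), (nat_lit 11)]⟩⟩) (.trZ (nat_lit 0) (nat_lit 1) (nat_lit 3) (nat_lit 100) (nat_lit 88) (nat_lit 81) (nat_lit 70) (.trX (nat_lit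 4) (nat_lit 0) (nat_lit 2) (nat_lit 84) (nat_lit 63) (nat_lit 100) (nat_lit 360) (.leaf ⟨(nat_lit 0), (nat_lit 911), (nat_lit 0), (nat_lit 89), (nat_lit 0), (nat_lit 6175), (nat_lit 8243), (nat_lit 980), (nat_lit 0), (nat_lit 0), (nat_lit 0), [], Pd.none, Pd.none, (nat_lit 0), (nat_lit 1), (nat_lit 0), (nat_lit 0), (nat_lit 6), (nat_lit 0), [⟨(nat_lit 0), (nat_lit 100), (nat_lit 87), (nat_lit 88), (nat_lit 226547360)⟩], [], [], [⟨(nat_lit 2), (nat_lit 100), (nat_lit 98), (nat_lit 97), (nat_lit 575471781)⟩],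
 ⟨⟨[(nat_lit 60), (nat_lit 80), (nat_lit 100)], [(nat_lit 0), (nat_lit 456), (nat_lit 976)], [((nat_lit 0), (nat_lit 0), (nat_lit 0)), ((nat_lit 1000), (nat_lit 859), (nat_lit 351)), ((nat_lit 1000), (nat_lit 848), (nat_lit 406))], ((nat_lit 84), (nat_lit 100), (nat_lit 44))⟩, (nat_lit 3774237), (nat_lit 175), (nat_lit 175), (nat_lit 0), (nat_lit 241565), [(nat_lit 3282000003), (nat_lit 4688000025), (nat_lit 6250000000)], [], [(nat_lit 19438659243), (nat_lit 20336663725), (nat_lit 19145056132), (nat_lit 19715902300), (nat_lit 29381297887), (nat_lit 30018224488), (nat_lit 28247748844), (nat_lit 28850448675)], (nat_lit 1271251), (nat_lit 1271251), (nat_lit 422188), (nat_lit 780000), (nat_lit 1271251), (nat_lit 1271251), [(nat_lit 780000), (nat_lit 1100000), (nat_lit 1442501)], [(nat_lit 9), (nat_lit 50), (nat_lit 238), (nat_lit 30), (nat_lit 8)]⟩,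
 ⟨⟨[(nat_lit 80), (nat_lit 100), (nat_lit 120)], [(nat_lit 0), (nat_lit 265), (nat_lit 768)], [((nat_lit 0), (nat_lit 0), (nat_lit 0)), ((nat_lit 1000), (nat_lit 959), (nat_lit 206)), ((nat_lit 1000), (nat_lit 958), (nat_lit 392))], ((nat_lit 96), (nat_lit 100), (nat_lit 44))⟩, (nat_lit 6179503), (nat_lit 233), (nat_lit 233), (nat_lit 0), (nat_lit 297467), [(nat_lit 4688000000), (nat_lit 6250000000), (nat_lit 7968000000)], [], [(nat_lit 16389872789), (nat_lit 17491866139), (nat_lit 15741556953), (nat_lit 16872139098), (nat_lit 29986771249), (nat_lit 31402763387), (nat_lit 28282207740), (nat_lit 29618215281)], (nat_lit 1271251), (nat_lit 1271251), (nat_lit 422188), (nat_lit 780000), (nat_lit 1271251), (nat_lit 1271251), [(nat_lit 1100000), (nat_lit 1442501), (nat_lit 1271251)], [(nat_lit 16), (nat_lit 54), (nat_lit 345), (nat_lit 125), (nat_lit 11)]⟩,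
 ⟨⟨[(nat_lit 140), (nat_lit 160), (nat_lit 180)], [(nat_lit 0), (nat_lit 0), (nat_lit 799)], [((nat_lit 0), (nat_lit 0), (nat_lit 0)), ((nat_lit 0), (nat_lit 0), (nat_lit 0)), ((nat_lit 728), (nat_lit 1000), (nat_lit 454))], ((nat_lit 100), (nat_lit 71), (nat_lit 48))⟩, (nat_lit 78195), (nat_lit 300), (nat_lit 1739), (nat_lit 6603802), (nat_lit 3186136), [(nat_lit 875938000), (nat_lit 1056608000), (nat_lit 1251162000)], [], [(nat_lit 4635124188), (nat_lit 4433847888), (nat_lit 4467785297), (nat_lit 4265131993), (nat_lit 4363326905), (nat_lit 4160566593), (nat_lit 4280366409), (nat_lit 4072046486)], (nat_lit 780000), (nat_lit 1271251), (nat_lit 1271251), (nat_lit 1271251), (nat_lit 1271251), (nat_lit 1271251), [(nat_lit 1977501), (nat_lit 1271251), (nat_lit 1271251)], [(nat_lit 31), (nat_lit 65), (nat_lit 549), (nat_lit 250), (nat_lit 12)]⟩⟩))))))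
noncomputable def c4_24 : Tr Lf :=
 (.trX (nat_lit 5) (nat_lit 4) (nat_lit 3) (nat_lit 100) (nat_lit 76) (nat_lit 82) (nat_lit 340) (.spl (nat_lit 2) (nat_lit 140) (.trX (nat_lit 4) (nat_lit 0) (nat_lit 2) (nat_lit 91) (nat_lit 77) (nat_lit 100) (nat_lit 340) (.spl (nat_lit 5) (nat_lit 160) (.spl (nat_lit 1) (nat_lit 260) (.spl (nat_lit 6) (nat_lit 28) (.leaf ⟨(nat_lit 0), (nat_lit 930), (nat_lit 0), (nat_lit 70), (nat_lit 44785), (nat_lit 6066), (nat_lit 9944), (nat_lit 1060), (nat_lit 0), (nat_lit 0), (nat_lit 0), [], Pd.none, Pd.none, (nat_lit 0), (nat_lit 1), (nat_lit 0), (nat_lit 0), (nat_lit 6), (nat_lit 0), [⟨(nat_lit 0), (nat_lit 100), (nat_lit 84), (nat_lit 85), (nat_lit 1772622190)⟩], [⟨(nat_lit 1), (nat_lit 86), (nat_lit 89), (nat_lit 100), (nat_lit 539046109)⟩], [], [],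
 ⟨⟨[(nat_lit 60), (nat_lit 100), (nat_lit 120)], [(nat_lit 0), (nat_lit 609), (nat_lit 1609)], [((nat_lit 0), (nat_lit 0), (nat_lit 0)), ((nat_lit 1000), (nat_lit 905), (nat_lit 238)), ((nat_lit 1000), (nat_lit 882), (nat_lit 668))], ((nat_lit 87), (nat_lit 100), (nat_lit 51))⟩, (nat_lit 3271043), (nat_lit 145), (nat_lit 145), (nat_lit 0), (nat_lit 27390), [(nat_lit 3336463261), (nat_lit 6250000043), (nat_lit 7968000000)], [], [(nat_lit 21333373355), (nat_lit 22704427489), (nat_lit 19940841089), (nat_lit 21283850536), (nat_lit 27929144980), (nat_lit 29312428641), (nat_lit 26298491652), (nat_lit 27382145550)], (nat_lit 1271251), (nat_lit 1271251), (nat_lit 292188), (nat_lit 490000), (nat_lit 1271251), (nat_lit 1271251), [(nat_lit 780000), (nat_lit 1435001), (nat_lit 1271251)], [(nat_lit 10), (nat_lit 54), (nat_lit 226), (nat_lit 20), (nat_lit 7)]⟩,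
 ⟨⟨[(nat_lit 80), (nat_lit 120), (nat_lit 140)], [(nat_lit 0), (nat_lit 0), (nat_lit 1164)], [((nat_lit 0), (nat_lit 0), (nat_lit 0)), ((nat_lit 0), (nat_lit 0), (nat_lit 0)), ((nat_lit 941), (nat_lit 1000), (nat_lit 576))], ((nat_lit 100), (nat_lit 96), (nat_lit 52))⟩, (nat_lit 5559809), (nat_lit 247), (nat_lit 247), (nat_lit 0), (nat_lit 37573), [(nat_lit 4688000000), (nat_lit 7968000000), (nat_lit 9842000000)], [], [(nat_lit 22397831800), (nat_lit 24754406051), (nat_lit 19235857876), (nat_lit 21553806068), (nat_lit 17271445596), (nat_lit 17273025333), (nat_lit 18333980832), (nat_lit 14820996336)], (nat_lit 1271251), (nat_lit 1271251), (nat_lit 292188), (nat_lit 490000), (nat_lit 0), (nat_lit 1100000), [(nat_lit 1100000), (nat_lit 1785001), (nat_lit 1271251)], [(nat_lit 17), (nat_lit 58), (nat_lit 345), (nat_lit 125), (nat_lit 10)]⟩,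
 ⟨⟨[(nat_lit 140), (nat_lit 180), (nat_lit 200)], [(nat_lit 0), (nat_lit 0), (nat_lit 2835)], [((nat_lit 0), (nat_lit 0), (nat_lit 0)), ((nat_lit 0), (nat_lit 0), (nat_lit 0)), ((nat_lit 363), (nat_lit 1000), (nat_lit 798))], ((nat_lit 0), (nat_lit 0), (nat_lit 0))⟩, (nat_lit 19259), (nat_lit 300), (nat_lit 619), (nat_lit 5467004), (nat_lit 345963), [(nat_lit 688940000), (nat_lit 984060000), (nat_lit 1148000000)], [], [(nat_lit 4563105520), (nat_lit 4480640440), (nat_lit 4723858390), (nat_lit 4631527420), (nat_lit 3466242960), (nat_lit 3379752180), (nat_lit 3535766870), (nat_lit 3451395285)], (nat_lit 780000), (nat_lit 936250), (nat_lit 1271251), (nat_lit 1271251), (nat_lit 0), (nat_lit 1100000), [(nat_lit 1977501), (nat_lit 1271251), (nat_lit 1271251)], [(nat_lit 32), (nat_lit 67), (nat_lit 401), (nat_lit 175), (nat_lit 9)]⟩⟩) (.dle (nat_lit 0))) (.trZ (nat_lit 0) (nat_lit 1) (nat_lit 3) (nat_lit 100) (nat_lit 91) (nat_lit 77) (nat_lit 60) (.spl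 (nat_lit 0) (nat_lit 310) (.spl (nat_lit 6) (nat_lit 28) (.leaf ⟨(nat_lit 0), (nat_lit 990), (nat_lit 0), (nat_lit 10), (nat_lit 85343), (nat_lit 6141), (nat_lit 7932), (nat_lit 151), (nat_lit 0), (nat_lit 0), (nat_lit 0), [], Pd.none, Pd.none, (nat_lit 0), (nat_lit 1), (nat_lit 0), (nat_lit 0), (nat_lit 6), (nat_lit 0), [⟨(nat_lit 0), (nat_lit 100), (nat_lit 91), (nat_lit 84), (nat_lit 3850018792)⟩], [⟨(nat_lit 1), (nat_lit 84), (nat_lit 91), (nat_lit 100), (nat_lit 610018957)⟩], [], [],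
 ⟨⟨[(nat_lit 60), (nat_lit 100), (nat_lit 120)], [(nat_lit 0), (nat_lit 609), (nat_lit 1609)], [((nat_lit 0), (nat_lit 0), (nat_lit 0)), ((nat_lit 1000), (nat_lit 905), (nat_lit 238)), ((nat_lit 1000), (nat_lit 882), (nat_lit 668))], ((nat_lit 87), (nat_lit 100), (nat_lit 51))⟩, (nat_lit 3343800), (nat_lit 139), (nat_lit 139), (nat_lit 0), (nat_lit 44734), [(nat_lit 3331335696), (nat_lit 6250000009), (nat_lit 7968000000)], [], [(nat_lit 20715769545), (nat_lit 21401119413), (nat_lit 19772114026), (nat_lit 20448024257), (nat_lit 27390660571), (nat_lit 28083880017), (nat_lit 26237647430), (nat_lit 26782981137)], (nat_lit 1271251), (nat_lit 1271251), (nat_lit 356250), (nat_lit 490000), (nat_lit 1271251), (nat_lit 1271251), [(nat_lit 780000), (nat_lit 1435001), (nat_lit 1271251)], [(nat_lit 10), (nat_lit 54), (nat_lit 226), (nat_lit 20), (nat_lit 7)]⟩,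
 ⟨⟨[(nat_lit 80), (nat_lit 120), (nat_lit 140)], [(nat_lit 0), (nat_lit 528), (nat_lit 1572)], [((nat_lit 0), (nat_lit 0), (nat_lit 0)), ((nat_lit 1000), (nat_lit 959), (nat_lit 206)), ((nat_lit 966), (nat_lit 1000), (nat_lit 679))], ((nat_lit 98), (nat_lit 100), (nat_lit 52))⟩, (nat_lit 5586010), (nat_lit 236), (nat_lit 236), (nat_lit 0), (nat_lit 52728), [(nat_lit 4688000000), (nat_lit 7968000000), (nat_lit 9842000000)], [], [(nat_lit 20435311753), (nat_lit 22679245120), (nat_lit 18797399112), (nat_lit 21054957952), (nat_lit 16106588732), (nat_lit 17684936704), (nat_lit 15090502244), (nat_lit 16642206600)], (nat_lit 1271251), (nat_lit 1271251), (nat_lit 356250), (nat_lit 490000), (nat_lit 0), (nat_lit 1100000), [(nat_lit 1100000), (nat_lit 1785001), (nat_lit 1271251)], [(nat_lit 17), (nat_lit 58), (nat_lit 373), (nat_lit 150), (nat_lit 11)]⟩,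
 ⟨⟨[(nat_lit 140), (nat_lit 180), (nat_lit 200)], [(nat_lit 0), (nat_lit 0), (nat_lit 2835)], [((nat_lit 0), (nat_lit 0), (nat_lit 0)), ((nat_lit 0), (nat_lit 0), (nat_lit 0)), ((nat_lit 363), (nat_lit 1000), (nat_lit 798))], ((nat_lit 0), (nat_lit 0), (nat_lit 0))⟩, (nat_lit 2751), (nat_lit 300), (nat_lit 703), (nat_lit 781005), (nat_lit 543632), [(nat_lit 98420000), (nat_lit 140580000), (nat_lit 164000000)], [], [(nat_lit 652362428), (nat_lit 640013324), (nat_lit 674713901), (nat_lit 661570426), (nat_lit 496198896), (nat_lit 483886056), (nat_lit 505528602), (nat_lit 493518607)], (nat_lit 780000), (nat_lit 936250), (nat_lit 1271251), (nat_lit 1271251), (nat_lit 0), (nat_lit 1100000), [(nat_lit 1977501), (nat_lit 1271251), (nat_lit 1271251)], [(nat_lit 32), (nat_lit 67), (nat_lit 401), (nat_lit 175), (nat_lit 9)]⟩⟩) (.dle (nat_lit 0))) (.trZ (nat_lit 0) (nat_lit 1) (nat_lit 3) (nat_lit 100) (nat_lit 88) (nat_lit 81) (nat_lit 70) (.trX (nat_lit 4)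 (nat_lit 0) (nat_lit 2) (nat_lit 88) (nat_lit 81) (nat_lit 100) (nat_lit 330) (.leaf ⟨(nat_lit 0), (nat_lit 990), (nat_lit 0), (nat_lit 10), (nat_lit 50286), (nat_lit 5548), (nat_lit 7935), (nat_lit 151), (nat_lit 0), (nat_lit 0), (nat_lit 0), [], Pd.none, Pd.none, (nat_lit 0), (nat_lit 1), (nat_lit 0), (nat_lit 0), (nat_lit 6), (nat_lit 0), [⟨(nat_lit 0), (nat_lit 100), (nat_lit 87), (nat_lit 88), (nat_lit 2585846178)⟩], [⟨(nat_lit 1), (nat_lit 88), (nat_lit 87), (nat_lit 100), (nat_lit 582000301)⟩], [], [],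
 ⟨⟨[(nat_lit 60), (nat_lit 100), (nat_lit 120)], [(nat_lit 0), (nat_lit 909), (nat_lit 1866)], [((nat_lit 0), (nat_lit 0), (nat_lit 0)), ((nat_lit 1000), (nat_lit 858), (nat_lit 354)), ((nat_lit 1000), (nat_lit 849), (nat_lit 705))], ((nat_lit 84), (nat_lit 100), (nat_lit 60))⟩, (nat_lit 3291144), (nat_lit 143), (nat_lit 143), (nat_lit 0), (nat_lit 89475), [(nat_lit 3282000083), (nat_lit 6250000036), (nat_lit 7968000000)], [], [(nat_lit 20696186738), (nat_lit 21319961707), (nat_lit 20351470425), (nat_lit 20978562191), (nat_lit 25796048685), (nat_lit 26476827805), (nat_lit 25227312662), (nat_lit 25905099464)], (nat_lit 1271251), (nat_lit 1271251), (nat_lit 422188), (nat_lit 490000), (nat_lit 1271251), (nat_lit 1271251), [(nat_lit 780000), (nat_lit 1435001), (nat_lit 1271251)], [(nat_lit 10), (nat_lit 54), (nat_lit 226), (nat_lit 20), (nat_lit 6)]⟩,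
 ⟨⟨[(nat_lit 80), (nat_lit 120), (nat_lit 140)], [(nat_lit 0), (nat_lit 528), (nat_lit 1572)], [((nat_lit 0), (nat_lit 0), (nat_lit 0)), ((nat_lit 1000), (nat_lit 959), (nat_lit 206)), ((nat_lit 966), (nat_lit 1000), (nat_lit 679))], ((nat_lit 100), (nat_lit 99), (nat_lit 63))⟩, (nat_lit 5587016), (nat_lit 287), (nat_lit 287), (nat_lit 0), (nat_lit 111482), [(nat_lit 4688000000), (nat_lit 7968000000), (nat_lit 9842000000)], [], [(nat_lit 19615809877), (nat_lit 21867221332), (nat_lit 18796536652), (nat_lit 21054709612), (nat_lit 15592317149), (nat_lit 17157702175), (nat_lit 15084018347), (nat_lit 16636077702)], (nat_lit 1271251), (nat_lit 1271251), (nat_lit 422188), (nat_lit 490000), (nat_lit 0), (nat_lit 1100000), [(nat_lit 1100000), (nat_lit 1785001), (nat_lit 1271251)], [(nat_lit 17), (nat_lit 58), (nat_lit 373), (nat_lit 150), (nat_lit 11)]⟩,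
 ⟨⟨[(nat_lit 140), (nat_lit 180), (nat_lit 200)], [(nat_lit 0), (nat_lit 0), (nat_lit 2835)], [((nat_lit 0), (nat_lit 0), (nat_lit 0)), ((nat_lit 0), (nat_lit 0), (nat_lit 0)), ((nat_lit 363), (nat_lit 1000), (nat_lit 798))], ((nat_lit 0), (nat_lit 0), (nat_lit 0))⟩, (nat_lit 2751), (nat_lit 300), (nat_lit 974), (nat_lit 781005), (nat_lit 1154350), [(nat_lit 98420000), (nat_lit 140580000), (nat_lit 164000000)], [], [(nat_lit 652362428), (nat_lit 640013324), (nat_lit 670159303), (nat_lit 657194802), (nat_lit 496198896), (nat_lit 483886056), (nat_lit 501810635), (nat_lit 489961038)], (nat_lit 780000), (nat_lit 936250), (nat_lit 1271251), (nat_lit 1271251), (nat_lit 0), (nat_lit 1100000), [(nat_lit 1977501), (nat_lit 1271251), (nat_lit 1271251)], [(nat_lit 32), (nat_lit 67), (nat_lit 401), (nat_lit 175), (nat_lit 9)]⟩⟩)))))) (.leaf ⟨(nat_lit 0), (nat_lit 149), (nat_lit 0), (nat_lit 851), (nat_lit 35900), (nat_lit 7369), (nat_lit 15298), (nat_lit 10741),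 (nat_lit 0), (nat_lit 0), (nat_lit 0), [], Pd.none, Pd.none, (nat_lit 0), (nat_lit 1), (nat_lit 0), (nat_lit 0), (nat_lit 6), (nat_lit 0), [⟨(nat_lit 0), (nat_lit 100), (nat_lit 88), (nat_lit 81), (nat_lit 4513934182)⟩], [], [], [],
 ⟨⟨[(nat_lit 60), (nat_lit 100), (nat_lit 120)], [(nat_lit 0), (nat_lit 609), (nat_lit 1609)], [((nat_lit 0), (nat_lit 0), (nat_lit 0)), ((nat_lit 1000), (nat_lit 905), (nat_lit 238)), ((nat_lit 1000), (nat_lit 882), (nat_lit 668))], ((nat_lit 87), (nat_lit 100), (nat_lit 60))⟩, (nat_lit 3526830), (nat_lit 165), (nat_lit 165), (nat_lit 0), (nat_lit 90878), [(nat_lit 3894260128), (nat_lit 6250000032), (nat_lit 7968000000)], [], [(nat_lit 20423023021), (nat_lit 22590299185), (nat_lit 18631758013), (nat_lit 20284357682), (nat_lit 29824329692), (nat_lit 31362472419), (nat_lit 27407899940), (nat_lit 28926904236)], (nat_lit 1271251), (nat_lit 1271251), (nat_lit 292188), (nat_lit 490000), (nat_lit 1271251), (nat_lit 1271251),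 [(nat_lit 780000), (nat_lit 1435001), (nat_lit 1271251)], [(nat_lit 10), (nat_lit 54), (nat_lit 226), (nat_lit 20), (nat_lit 7)]⟩,
 ⟨⟨[(nat_lit 80), (nat_lit 120), (nat_lit 160)], [(nat_lit 0), (nat_lit 0), (nat_lit 2132)], [((nat_lit 0), (nat_lit 0), (nat_lit 0)), ((nat_lit 0), (nat_lit 0), (nat_lit 0)), ((nat_lit 858), (nat_lit 1000), (nat_lit 713))], ((nat_lit 100), (nat_lit 92), (nat_lit 61))⟩, (nat_lit 6741429), (nat_lit 228), (nat_lit 228), (nat_lit 0), (nat_lit 115468), [(nat_lit 4688000000), (nat_lit 7968000000), (nat_lit 11872000000)], [], [(nat_lit 32619231298), (nat_lit 16859120788), (nat_lit 20577609472), (nat_lit 11883553284), (nat_lit 41724425027), (nat_lit 38876395747), (nat_lit 43656550060), (nat_lit 33432407485)], (nat_lit 1271251), (nat_lit 1271251), (nat_lit 292188), (nat_lit 490000), (nat_lit 1100000), (nat_lit 2641251), [(nat_lit 1100000), (nat_lit 1785001), (nat_lit 1271251)], [(nat_lit 18), (nat_lit 59), (nat_lit 401), (nat_lit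 175), (nat_lit 10)]⟩,
 ⟨⟨[(nat_lit 140), (nat_lit 180), (nat_lit 200)], [(nat_lit 0), (nat_lit 0), (nat_lit 2835)], [((nat_lit 0), (nat_lit 0), (nat_lit 0)), ((nat_lit 0), (nat_lit 0), (nat_lit 0)), ((nat_lit 363), (nat_lit 1000), (nat_lit 798))], ((nat_lit 0), (nat_lit 0), (nat_lit 0))⟩, (nat_lit 234138), (nat_lit 300), (nat_lit 864), (nat_lit 66463100), (nat_lit 1154350), [(nat_lit 8375542000), (nat_lit 11963358000), (nat_lit 13956400000)], [], [(nat_lit 47556091864), (nat_lit 46677541084), (nat_lit 46741887954), (nat_lit 45857125311), (nat_lit 44333367767), (nat_lit 43440703658), (nat_lit 43570632895), (nat_lit 42674359692)], (nat_lit 780000), (nat_lit 936250), (nat_lit 1271251), (nat_lit 1271251), (nat_lit 1100000), (nat_lit 2641251), [(nat_lit 1977501), (nat_lit 1271251), (nat_lit 1271251)], [(nat_lit 32), (nat_lit 67), (nat_lit 456), (nat_lit 225), (nat_lit 9)]⟩⟩))) (.spl (nat_lit 6) (nat_lit 32) (.leaf ⟨(nat_lit 972), (nat_lit 0), (nat_lit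 0), (nat_lit 28), (nat_lit 300000), (nat_lit 3977), (nat_lit 115), (nat_lit 424), (nat_lit 0), (nat_lit 0), (nat_lit 812400), [((nat_lit 320), [((nat_lit 15), (nat_lit 1), (nat_lit 266)), ((nat_lit 15), (nat_lit 2), (nat_lit 706))])], ⟨(nat_lit 6), false, false, false, (nat_lit 132), (nat_lit 4472), (nat_lit 5000), [(nat_lit 1274989), (nat_lit 1288204), (nat_lit 1317824), (nat_lit 1331315), (nat_lit 1328559), (nat_lit 1339186), (nat_lit 1371392), (nat_lit 1382295)]⟩, ⟨(nat_lit 6), false, false, true, (nat_lit 245), (nat_lit 4472), (nat_lit 5000), [(nat_lit 1507141), (nat_lit 1503277), (nat_lit 1528570), (nat_lit 1524844), (nat_lit 1703570), (nat_lit 1690217), (nat_lit 1724998), (nat_lit 1711784)]⟩, (nat_lit 4579361), (nat_lit 43314306), (nat_lit 6471320), (nat_lit 17214374), (nat_lit 0), (nat_lit 0), [⟨(nat_lit 0), (nat_lit 100), (nat_lit 88), (nat_lit 81), (nat_lit 11368502983)⟩], [⟨(nat_lit 1), (nat_lit 77), (nat_lit 86), (nat_lit 100), (nat_lit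 189802510)⟩], [], [],
 ⟨⟨[(nat_lit 60), (nat_lit 100), (nat_lit 120)], [(nat_lit 0), (nat_lit 609), (nat_lit 1609)], [((nat_lit 0), (nat_lit 0), (nat_lit 0)), ((nat_lit 1000), (nat_lit 905), (nat_lit 238)), ((nat_lit 1000), (nat_lit 882), (nat_lit 668))], ((nat_lit 87), (nat_lit 100), (nat_lit 54))⟩, (nat_lit 0), (nat_lit 159), (nat_lit 159), (nat_lit 0), (nat_lit 57752), [(nat_lit 2025463183), (nat_lit 1629127223), (nat_lit 346936800)], [(nat_lit 0), (nat_lit 0), (nat_lit 0)], [(nat_lit 20136783237), (nat_lit 21146898930), (nat_lit 19537677658), (nat_lit 20528769838), (nat_lit 25661022150), (nat_lit 26756151059), (nat_lit 24818248070), (nat_lit 25622920179)], (nat_lit 1271251), (nat_lit 1271251), (nat_lit 292188), (nat_lit 490000), (nat_lit 1271251), (nat_lit 1271251), [(nat_lit 780000), (nat_lit 1435001), (nat_lit 1271251)], [(nat_lit 10), (nat_lit 54), (nat_lit 226), (nat_lit 20), (nat_lit 7)]⟩,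
 ⟨⟨[(nat_lit 80), (nat_lit 120), (nat_lit 140)], [(nat_lit 0), (nat_lit 0), (nat_lit 1164)], [((nat_lit 0), (nat_lit 0), (nat_lit 0)), ((nat_lit 0), (nat_lit 0), (nat_lit 0)), ((nat_lit 941), (nat_lit 1000), (nat_lit 576))], ((nat_lit 100), (nat_lit 95), (nat_lit 55))⟩, (nat_lit 0), (nat_lit 292), (nat_lit 292), (nat_lit 0), (nat_lit 73020), [(nat_lit 131264000), (nat_lit 223104000), (nat_lit 275576000)], [], [(nat_lit 1182968123), (nat_lit 1155855587), (nat_lit 1089617160), (nat_lit 1137862044), (nat_lit 1311089909), (nat_lit 1257264955), (nat_lit 1346115581), (nat_lit 1244589096)], (nat_lit 1271251), (nat_lit 1271251), (nat_lit 292188), (nat_lit 490000), (nat_lit 0), (nat_lit 2401251), [(nat_lit 1100000), (nat_lit 1785001), (nat_lit 1271251)], [(nat_lit 17), (nat_lit 58), (nat_lit 401), (nat_lit 175), (nat_lit 12)]⟩,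
 ⟨⟨[(nat_lit 140), (nat_lit 160), (nat_lit 180)], [(nat_lit 0), (nat_lit 304), (nat_lit 1085)], [((nat_lit 0), (nat_lit 0), (nat_lit 0)), ((nat_lit 913), (nat_lit 1000), (nat_lit 217)), ((nat_lit 759), (nat_lit 1000), (nat_lit 463))], ((nat_lit 100), (nat_lit 67), (nat_lit 57))⟩, (nat_lit 57474), (nat_lit 300), (nat_lit 611), (nat_lit 1968400), (nat_lit 528795), [(nat_lit 275576000), (nat_lit 332416000), (nat_lit 393624000)], [], [(nat_lit 1412727712), (nat_lit 1386953424), (nat_lit 1547166310), (nat_lit 1515113652), (nat_lit 1606175676), (nat_lit 1716257192), (nat_lit 1139035156), (nat_lit 1108270729)], (nat_lit 936250), (nat_lit 1100000), (nat_lit 1271251), (nat_lit 1271251), (nat_lit 0), (nat_lit 2401251), [(nat_lit 1977501), (nat_lit 1271251), (nat_lit 1271251)], [(nat_lit 31), (nat_lit 65), (nat_lit 456), (nat_lit 225), (nat_lit 11)]⟩⟩) (.dle (nat_lit 0)))))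
noncomputable def c4_25 : Tr Lf :=
 (.spl (nat_lit 5) (nat_lit 120) (.spl (nat_lit 1) (nat_lit 260) (.spl (nat_lit 6) (nat_lit 28) (.leaf ⟨(nat_lit 0), (nat_lit 924), (nat_lit 0), (nat_lit 76), (nat_lit 45929), (nat_lit 5936), (nat_lit 7928), (nat_lit 890), (nat_lit 0), (nat_lit 0), (nat_lit 0), [], Pd.none, Pd.none, (nat_lit 0), (nat_lit 1), (nat_lit 0), (nat_lit 0), (nat_lit 6), (nat_lit 0), [⟨(nat_lit 0), (nat_lit 100), (nat_lit 84), (nat_lit 85), (nat_lit 686823966)⟩], [⟨(nat_lit 1), (nat_lit 81), (nat_lit 88), (nat_lit 100), (nat_lit 536606707)⟩], [], [],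
 ⟨⟨[(nat_lit 60), (nat_lit 100), (nat_lit 120)], [(nat_lit 0), (nat_lit 609), (nat_lit 1609)], [((nat_lit 0), (nat_lit 0), (nat_lit 0)), ((nat_lit 1000), (nat_lit 905), (nat_lit 238)), ((nat_lit 1000), (nat_lit 882), (nat_lit 668))], ((nat_lit 87), (nat_lit 100), (nat_lit 51))⟩, (nat_lit 3252918), (nat_lit 124), (nat_lit 124), (nat_lit 0), (nat_lit 27494), [(nat_lit 3282000205), (nat_lit 6250000046), (nat_lit 7968000000)], [], [(nat_lit 20088346477), (nat_lit 21387558565), (nat_lit 20239246945), (nat_lit 21465306181), (nat_lit 27091467253), (nat_lit 28125368060), (nat_lit 26831326029), (nat_lit 27810440766)], (nat_lit 1271251), (nat_lit 1271251), (nat_lit 490000), (nat_lit 780000), (nat_lit 1271251), (nat_lit 1271251), [(nat_lit 780000), (nat_lit 1435001), (nat_lit 1271251)], [(nat_lit 10), (nat_lit 54), (nat_lit 238), (nat_lit 30), (nat_lit 7)]⟩,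
 ⟨⟨[(nat_lit 80), (nat_lit 120), (nat_lit 140)], [(nat_lit 0), (nat_lit 0), (nat_lit 1164)], [((nat_lit 0), (nat_lit 0), (nat_lit 0)), ((nat_lit 0), (nat_lit 0), (nat_lit 0)), ((nat_lit 941), (nat_lit 1000), (nat_lit 576))], ((nat_lit 100), (nat_lit 96), (nat_lit 52))⟩, (nat_lit 5008974), (nat_lit 231), (nat_lit 231), (nat_lit 0), (nat_lit 24849), [(nat_lit 4688000000), (nat_lit 7968000000), (nat_lit 9842000000)], [], [(nat_lit 19864936576), (nat_lit 21747272792), (nat_lit 20158322400), (nat_lit 21928120468), (nat_lit 18101278000), (nat_lit 17804022372), (nat_lit 20497530680), (nat_lit 17993339388)], (nat_lit 1271251), (nat_lit 1271251), (nat_lit 490000), (nat_lit 780000), (nat_lit 0), (nat_lit 780000), [(nat_lit 1100000), (nat_lit 1785001), (nat_lit 1271251)], [(nat_lit 17), (nat_lit 58), (nat_lit 345), (nat_lit 125), (nat_lit 10)]⟩,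
 ⟨⟨[(nat_lit 140), (nat_lit 180), (nat_lit 200)], [(nat_lit 0), (nat_lit 0), (nat_lit 2835)], [((nat_lit 0), (nat_lit 0), (nat_lit 0)), ((nat_lit 0), (nat_lit 0), (nat_lit 0)), ((nat_lit 363), (nat_lit 1000), (nat_lit 798))], ((nat_lit 0), (nat_lit 0), (nat_lit 0))⟩, (nat_lit 20910), (nat_lit 300), (nat_lit 537), (nat_lit 5935601), (nat_lit 219535), [(nat_lit 747992000), (nat_lit 1068408000), (nat_lit 1246400000)], [], [(nat_lit 5013943872), (nat_lit 4878990594), (nat_lit 5083644117), (nat_lit 4937767346), (nat_lit 4281160134), (nat_lit 4154929993), (nat_lit 4333829232), (nat_lit 4194817688)], (nat_lit 780000), (nat_lit 1100000), (nat_lit 1271251), (nat_lit 1271251), (nat_lit 0), (nat_lit 780000), [(nat_lit 1977501), (nat_lit 1271251), (nat_lit 1271251)], [(nat_lit 32), (nat_lit 67), (nat_lit 401), (nat_lit 175), (nat_lit 9)]⟩⟩) (.dle (nat_lit 0))) (.leaf ⟨(nat_lit 0), (nat_lit 934), (nat_lit 0), (nat_lit 66), (nat_lit 27952), (nat_lit 6079), (nat_lit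 7638), (nat_lit 864), (nat_lit 0), (nat_lit 0), (nat_lit 0), [], Pd.none, Pd.none, (nat_lit 0), (nat_lit 1), (nat_lit 0), (nat_lit 0), (nat_lit 6), (nat_lit 0), [⟨(nat_lit 0), (nat_lit 100), (nat_lit 89), (nat_lit 86), (nat_lit 690823702)⟩], [⟨(nat_lit 1), (nat_lit 81), (nat_lit 88), (nat_lit 100), (nat_lit 525258863)⟩], [⟨(nat_lit 0), (nat_lit 100), (nat_lit 98), (nat_lit 6), (nat_lit 116297227)⟩, ⟨(nat_lit 0), (nat_lit 100), (nat_lit 94), (nat_lit 21), (nat_lit 9344563)⟩], [],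
 ⟨⟨[(nat_lit 60), (nat_lit 100), (nat_lit 120)], [(nat_lit 0), (nat_lit 609), (nat_lit 1609)], [((nat_lit 0), (nat_lit 0), (nat_lit 0)), ((nat_lit 1000), (nat_lit 905), (nat_lit 238)), ((nat_lit 1000), (nat_lit 882), (nat_lit 668))], ((nat_lit 87), (nat_lit 100), (nat_lit 60))⟩, (nat_lit 2936676), (nat_lit 145), (nat_lit 145), (nat_lit 0), (nat_lit 92095), [(nat_lit 3368008794), (nat_lit 6250000001), (nat_lit 7968000000)], [], [(nat_lit 20469883010), (nat_lit 21814388588), (nat_lit 20477898998), (nat_lit 21744764924), (nat_lit 27262997046), (nat_lit 28307974919), (nat_lit 26977442541), (nat_lit 27966647465)], (nat_lit 1271251), (nat_lit 1271251), (nat_lit 490000), (nat_lit 780000), (nat_lit 1271251), (nat_lit 1271251), [(nat_lit 780000), (nat_lit 1435001), (nat_lit 1271251)], [(nat_lit 10), (nat_lit 54), (nat_lit 238), (nat_lit 30), (nat_lit 7)]⟩,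
 ⟨⟨[(nat_lit 80), (nat_lit 120), (nat_lit 140)], [(nat_lit 0), (nat_lit 528), (nat_lit 1572)], [((nat_lit 0), (nat_lit 0), (nat_lit 0)), ((nat_lit 1000), (nat_lit 959), (nat_lit 206)), ((nat_lit 966), (nat_lit 1000), (nat_lit 679))], ((nat_lit 100), (nat_lit 99), (nat_lit 63))⟩, (nat_lit 5250981), (nat_lit 225), (nat_lit 225), (nat_lit 0), (nat_lit 75094), [(nat_lit 4688000000), (nat_lit 7968000000), (nat_lit 9842000000)], [], [(nat_lit 19296152204), (nat_lit 21204146740), (nat_lit 19505453135), (nat_lit 21234596100), (nat_lit 15582004444), (nat_lit 17201535004), (nat_lit 15797556455), (nat_lit 17320348256)], (nat_lit 1271251), (nat_lit 1271251), (nat_lit 490000), (nat_lit 780000), (nat_lit 0), (nat_lit 780000), [(nat_lit 1100000), (nat_lit 1785001), (nat_lit 1271251)], [(nat_lit 17), (nat_lit 58), (nat_lit 373), (nat_lit 150), (nat_lit 11)]⟩,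
 ⟨⟨[(nat_lit 140), (nat_lit 180), (nat_lit 200)], [(nat_lit 0), (nat_lit 0), (nat_lit 2835)], [((nat_lit 0), (nat_lit 0), (nat_lit 0)), ((nat_lit 0), (nat_lit 0), (nat_lit 0)), ((nat_lit 363), (nat_lit 1000), (nat_lit 798))], ((nat_lit 0), (nat_lit 0), (nat_lit 0))⟩, (nat_lit 18159), (nat_lit 300), (nat_lit 775), (nat_lit 5154600), (nat_lit 714491), [(nat_lit 649572000), (nat_lit 927828000), (nat_lit 1082400000)], [], [(nat_lit 4466152416), (nat_lit 4320905688), (nat_lit 4442605905), (nat_lit 4295897097), (nat_lit 3746827932), (nat_lit 3609994116), (nat_lit 3714786681), (nat_lit 3568915035)], (nat_lit 780000), (nat_lit 1100000), (nat_lit 1271251), (nat_lit 1271251), (nat_lit 0), (nat_lit 780000), [(nat_lit 1977501), (nat_lit 1271251), (nat_lit 1271251)], [(nat_lit 32), (nat_lit 67), (nat_lit 401), (nat_lit 175), (nat_lit 9)]⟩⟩)) (.stt (nat_lit 2) (.spl (nat_lit 1) (nat_lit 260) (.spl (nat_lit 6) (nat_lit 28) (.leaf ⟨(nat_lit 0), (nat_lit 0), (nat_lit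 0), (nat_lit 1000), (nat_lit 0), (nat_lit 7450), (nat_lit 17327), (nat_lit 13901), (nat_lit 0), (nat_lit 0), (nat_lit 0), [], Pd.none, Pd.none, (nat_lit 0), (nat_lit 1), (nat_lit 0), (nat_lit 0), (nat_lit 0), (nat_lit 0), [⟨(nat_lit 0), (nat_lit 100), (nat_lit 84), (nat_lit 85), (nat_lit 756363931)⟩], [], [], [],
 ⟨⟨[(nat_lit 60), (nat_lit 100), (nat_lit 120)], [(nat_lit 0), (nat_lit 609), (nat_lit 1609)], [((nat_lit 0), (nat_lit 0), (nat_lit 0)), ((nat_lit 1000), (nat_lit 905), (nat_lit 238)), ((nat_lit 1000), (nat_lit 882), (nat_lit 668))], ((nat_lit 87), (nat_lit 100), (nat_lit 51))⟩, (nat_lit 3377161), (nat_lit 124), (nat_lit 124), (nat_lit 0), (nat_lit 27494), [(nat_lit 3986375794), (nat_lit 6250000030), (nat_lit 7968000000)], [], [(nat_lit 18816778651), (nat_lit 20323056981), (nat_lit 18630062376), (nat_lit 20153438581), (nat_lit 28594884719), (nat_lit 30059170000), (nat_lit 27955071363), (nat_lit 29341429463)], (nat_lit 1271251), (nat_lit 1271251),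 (nat_lit 490000), (nat_lit 780000), (nat_lit 1271251), (nat_lit 1271251), [(nat_lit 780000), (nat_lit 1435001), (nat_lit 1271251)], [(nat_lit 10), (nat_lit 54), (nat_lit 238), (nat_lit 30), (nat_lit 7)]⟩,
 ⟨⟨[(nat_lit 80), (nat_lit 120), (nat_lit 140)], [(nat_lit 0), (nat_lit 0), (nat_lit 1164)], [((nat_lit 0), (nat_lit 0), (nat_lit 0)), ((nat_lit 0), (nat_lit 0), (nat_lit 0)), ((nat_lit 941), (nat_lit 1000), (nat_lit 576))], ((nat_lit 100), (nat_lit 96), (nat_lit 52))⟩, (nat_lit 0), (nat_lit 110), (nat_lit 110), (nat_lit 0), (nat_lit 0), [(nat_lit 4688000000), (nat_lit 7968000000), (nat_lit 9842000000)], [], [(nat_lit 0), (nat_lit 4330356950), (nat_lit 0), (nat_lit 3995307311), (nat_lit 37452800644), (nat_lit 39729502344), (nat_lit 35024780809), (nat_lit 37159803363)], (nat_lit 0), (nat_lit 0), (nat_lit 0), (nat_lit 0), (nat_lit 0), (nat_lit 0), [], [(nat_lit 17), (nat_lit 58), (nat_lit 428), (nat_lit 200), (nat_lit 12)]⟩,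
 ⟨⟨[(nat_lit 140), (nat_lit 180), (nat_lit 200)], [(nat_lit 0), (nat_lit 0), (nat_lit 2835)], [((nat_lit 0), (nat_lit 0), (nat_lit 0)), ((nat_lit 0), (nat_lit 0), (nat_lit 0)), ((nat_lit 363), (nat_lit 1000), (nat_lit 798))], ((nat_lit 0), (nat_lit 0), (nat_lit 0))⟩, (nat_lit 275132), (nat_lit 300), (nat_lit 482), (nat_lit 78100004), (nat_lit 345963), [(nat_lit 9842000000), (nat_lit 14058000000), (nat_lit 16400000000)], [], [(nat_lit 52318153684), (nat_lit 50389614910), (nat_lit 54692891457), (nat_lit 52481741239), (nat_lit 50216664926), (nat_lit 47922251810), (nat_lit 50280482549), (nat_lit 47998766493)], (nat_lit 780000), (nat_lit 1100000), (nat_lit 1271251), (nat_lit 1271251), (nat_lit 780000), (nat_lit 2826876), [(nat_lit 1977501), (nat_lit 1271251), (nat_lit 1271251)], [(nat_lit 32), (nat_lit 67), (nat_lit 456), (nat_lit 225), (nat_lit 9)]⟩⟩) (.dle (nat_lit 0))) (.leaf ⟨(nat_lit 0), (nat_lit 526), (nat_lit 0), (nat_lit 474), (nat_lit 0), (nat_lit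 5984), (nat_lit 8041), (nat_lit 5225), (nat_lit 0), (nat_lit 0), (nat_lit 0), [], Pd.none, Pd.none, (nat_lit 0), (nat_lit 1), (nat_lit 0), (nat_lit 0), (nat_lit 6), (nat_lit 0), [⟨(nat_lit 0), (nat_lit 100), (nat_lit 87), (nat_lit 95), (nat_lit 713419057)⟩], [⟨(nat_lit 1), (nat_lit 81), (nat_lit 88), (nat_lit 100), (nat_lit 162407752)⟩], [], [],
 ⟨⟨[(nat_lit 60), (nat_lit 100), (nat_lit 120)], [(nat_lit 0), (nat_lit 609), (nat_lit 1609)], [((nat_lit 0), (nat_lit 0), (nat_lit 0)), ((nat_lit 1000), (nat_lit 905), (nat_lit 238)), ((nat_lit 1000), (nat_lit 882), (nat_lit 668))], ((nat_lit 87), (nat_lit 100), (nat_lit 60))⟩, (nat_lit 3172274), (nat_lit 145), (nat_lit 145), (nat_lit 0), (nat_lit 92095), [(nat_lit 3282000005), (nat_lit 6250000004), (nat_lit 7968000000)], [], [(nat_lit 20156243158), (nat_lit 21489540446), (nat_lit 20202702707), (nat_lit 21434130302), (nat_lit 27133509799), (nat_lit 28186179080), (nat_lit 26864838243), (nat_lit 27847339896)],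 (nat_lit 1271251), (nat_lit 1271251), (nat_lit 490000), (nat_lit 780000), (nat_lit 1271251), (nat_lit 1271251), [(nat_lit 780000), (nat_lit 1435001), (nat_lit 1271251)], [(nat_lit 10), (nat_lit 54), (nat_lit 238), (nat_lit 30), (nat_lit 7)]⟩,
 ⟨⟨[(nat_lit 80), (nat_lit 120), (nat_lit 140)], [(nat_lit 0), (nat_lit 528), (nat_lit 1572)], [((nat_lit 0), (nat_lit 0), (nat_lit 0)), ((nat_lit 1000), (nat_lit 959), (nat_lit 206)), ((nat_lit 966), (nat_lit 1000), (nat_lit 679))], ((nat_lit 100), (nat_lit 99), (nat_lit 63))⟩, (nat_lit 3970377), (nat_lit 141), (nat_lit 141), (nat_lit 0), (nat_lit 0), [(nat_lit 4688000000), (nat_lit 7968000000), (nat_lit 9842000000)], [], [(nat_lit 16169765667), (nat_lit 17671372250), (nat_lit 16166922923), (nat_lit 17566677529), (nat_lit 29165349632), (nat_lit 30210604507), (nat_lit 28480216071), (nat_lit 29411967909)], (nat_lit 0), (nat_lit 0), (nat_lit 0), (nat_lit 0), (nat_lit 0), (nat_lit 0), [], [(nat_lit 17), (nat_lit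 58), (nat_lit 428), (nat_lit 200), (nat_lit 12)]⟩,
 ⟨⟨[(nat_lit 140), (nat_lit 180), (nat_lit 200)], [(nat_lit 0), (nat_lit 0), (nat_lit 2835)], [((nat_lit 0), (nat_lit 0), (nat_lit 0)), ((nat_lit 0), (nat_lit 0), (nat_lit 0)), ((nat_lit 363), (nat_lit 1000), (nat_lit 798))], ((nat_lit 0), (nat_lit 0), (nat_lit 0))⟩, (nat_lit 130413), (nat_lit 300), (nat_lit 887), (nat_lit 37019400), (nat_lit 1154350), [(nat_lit 4665108000), (nat_lit 6663492000), (nat_lit 7773600000)], [], [(nat_lit 30469410458), (nat_lit 29640502844), (nat_lit 29785065995), (nat_lit 28923472364), (nat_lit 27481847948), (nat_lit 26618709504), (nat_lit 26484289406), (nat_lit 25602217323)], (nat_lit 780000), (nat_lit 1100000), (nat_lit 1271251), (nat_lit 1271251), (nat_lit 780000), (nat_lit 2826876), [(nat_lit 1977501), (nat_lit 1271251), (nat_lit 1271251)], [(nat_lit 32), (nat_lit 67), (nat_lit 456), (nat_lit 225), (nat_lit 9)]⟩⟩)) (.leaf ⟨(nat_lit 0), (nat_lit 326), (nat_lit 0), (nat_lit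 674), (nat_lit 24185), (nat_lit 7037), (nat_lit 15121), (nat_lit 9243), (nat_lit 0), (nat_lit 0), (nat_lit 0), [], Pd.none, Pd.none, (nat_lit 0), (nat_lit 1), (nat_lit 0), (nat_lit 0), (nat_lit 6), (nat_lit 0), [⟨(nat_lit 0), (nat_lit 100), (nat_lit 88), (nat_lit 81), (nat_lit 805614941)⟩, ⟨(nat_lit 0), (nat_lit 100), (nat_lit 87), (nat_lit 95), (nat_lit 93165324)⟩], [], [], [],
 ⟨⟨[(nat_lit 60), (nat_lit 100), (nat_lit 120)], [(nat_lit 0), (nat_lit 609), (nat_lit 1609)], [((nat_lit 0), (nat_lit 0), (nat_lit 0)), ((nat_lit 1000), (nat_lit 905), (nat_lit 238)), ((nat_lit 1000), (nat_lit 882), (nat_lit 668))], ((nat_lit 87), (nat_lit 100), (nat_lit 60))⟩, (nat_lit 3345481), (nat_lit 145), (nat_lit 145), (nat_lit 0), (nat_lit 92095), [(nat_lit 4002297529), (nat_lit 6250000109), (nat_lit 7968000000)], [], [(nat_lit 19152231953), (nat_lit 20609775940), (nat_lit 19023360252), (nat_lit 20497511676), (nat_lit 28112646560), (nat_lit 29531512940), (nat_lit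 27555226342), (nat_lit 28899582136)], (nat_lit 1271251), (nat_lit 1271251), (nat_lit 490000), (nat_lit 780000), (nat_lit 1271251), (nat_lit 1271251), [(nat_lit 780000), (nat_lit 1435001), (nat_lit 1271251)], [(nat_lit 10), (nat_lit 54), (nat_lit 238), (nat_lit 30), (nat_lit 7)]⟩,
 ⟨⟨[(nat_lit 80), (nat_lit 120), (nat_lit 160)], [(nat_lit 0), (nat_lit 0), (nat_lit 2132)], [((nat_lit 0), (nat_lit 0), (nat_lit 0)), ((nat_lit 0), (nat_lit 0), (nat_lit 0)), ((nat_lit 858), (nat_lit 1000), (nat_lit 713))], ((nat_lit 100), (nat_lit 92), (nat_lit 61))⟩, (nat_lit 3183424), (nat_lit 213), (nat_lit 213), (nat_lit 0), (nat_lit 117587), [(nat_lit 4688000000), (nat_lit 7968000000), (nat_lit 11872000000)], [], [(nat_lit 36549139980), (nat_lit 20913010443), (nat_lit 20912982631), (nat_lit 19534223782), (nat_lit 45289227809), (nat_lit 39204018757), (nat_lit 50425162451), (nat_lit 37030699022)], (nat_lit 1271251), (nat_lit 1271251), (nat_lit 490000), (nat_lit 780000),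 (nat_lit 780000), (nat_lit 2826876), [(nat_lit 1100000), (nat_lit 1785001), (nat_lit 1271251)], [(nat_lit 18), (nat_lit 59), (nat_lit 428), (nat_lit 200), (nat_lit 11)]⟩,
 ⟨⟨[(nat_lit 140), (nat_lit 180), (nat_lit 200)], [(nat_lit 0), (nat_lit 0), (nat_lit 2835)], [((nat_lit 0), (nat_lit 0), (nat_lit 0)), ((nat_lit 0), (nat_lit 0), (nat_lit 0)), ((nat_lit 363), (nat_lit 1000), (nat_lit 798))], ((nat_lit 0), (nat_lit 0), (nat_lit 0))⟩, (nat_lit 185439), (nat_lit 300), (nat_lit 679), (nat_lit 52639403), (nat_lit 714491), [(nat_lit 6633508000), (nat_lit 9475092000), (nat_lit 11053600000)], [], [(nat_lit 37359387466), (nat_lit 35877165170), (nat_lit 36955346005), (nat_lit 35490912825), (nat_lit 34000979824), (nat_lit 32480844028), (nat_lit 33934649780), (nat_lit 32347766176)], (nat_lit 780000), (nat_lit 1100000), (nat_lit 1271251), (nat_lit 1271251), (nat_lit 780000), (nat_lit 2826876), [(nat_lit 1977501), (nat_lit 1271251), (nat_lit 1271251)], [(nat_lit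 32), (nat_lit 67), (nat_lit 456), (nat_lit 225), (nat_lit 9)]⟩⟩)))
noncomputable def c4_26 : Tr Lf :=
 (.spl (nat_lit 6) (nat_lit 28) (.spl (nat_lit 5) (nat_lit 200) (.leaf ⟨(nat_lit 0), (nat_lit 380), (nat_lit 0), (nat_lit 620), (nat_lit 117553), (nat_lit 5988), (nat_lit 13272), (nat_lit 6806), (nat_lit 0), (nat_lit 0), (nat_lit 0), [], Pd.none, Pd.none, (nat_lit 0), (nat_lit 1), (nat_lit 0), (nat_lit 0), (nat_lit 6), (nat_lit 0), [⟨(nat_lit 0), (nat_lit 100), (nat_lit 87), (nat_lit 95), (nat_lit 1355706655)⟩], [], [], [],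
 ⟨⟨[(nat_lit 60), (nat_lit 100), (nat_lit 120)], [(nat_lit 0), (nat_lit 609), (nat_lit 1609)], [((nat_lit 0), (nat_lit 0), (nat_lit 0)), ((nat_lit 1000), (nat_lit 905), (nat_lit 238)), ((nat_lit 1000), (nat_lit 882), (nat_lit 668))], ((nat_lit 87), (nat_lit 100), (nat_lit 51))⟩, (nat_lit 3283395), (nat_lit 161), (nat_lit 161), (nat_lit 0), (nat_lit 35965), [(nat_lit 3282637345), (nat_lit 6250000097), (nat_lit 7968000000)], [], [(nat_lit 21343357426), (nat_lit 22704995164), (nat_lit 20128529435), (nat_lit 21360247246), (nat_lit 30735934432), (nat_lit 31944505826), (nat_lit 28353767532), (nat_lit 29491428655)], (nat_lit 1271251), (nat_lit 1271251), (nat_lit 292188), (nat_lit 780000), (nat_lit 1271251), (nat_lit 1271251), [(nat_lit 780000), (nat_lit 1435001), (nat_lit 1271251)], [(nat_lit 10), (nat_lit 54), (nat_lit 238), (nat_lit 30), (nat_lit 7)]⟩,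
 ⟨⟨[(nat_lit 80), (nat_lit 120), (nat_lit 140)], [(nat_lit 0), (nat_lit 0), (nat_lit 1164)], [((nat_lit 0), (nat_lit 0), (nat_lit 0)), ((nat_lit 0), (nat_lit 0), (nat_lit 0)), ((nat_lit 941), (nat_lit 1000), (nat_lit 576))], ((nat_lit 100), (nat_lit 96), (nat_lit 52))⟩, (nat_lit 4675799), (nat_lit 248), (nat_lit 248), (nat_lit 0), (nat_lit 45060), [(nat_lit 4688000000), (nat_lit 7968000000), (nat_lit 9842000000)], [], [(nat_lit 38749717272), (nat_lit 30656620678), (nat_lit 37779409040), (nat_lit 25183476316), (nat_lit 50049182824), (nat_lit 37986018151), (nat_lit 56757142168), (nat_lit 44963012548)], (nat_lit 1271251), (nat_lit 1271251), (nat_lit 292188), (nat_lit 780000), (nat_lit 0), (nat_lit 1412501), [(nat_lit 1100000), (nat_lit 1785001), (nat_lit 1271251)], [(nat_lit 17), (nat_lit 58), (nat_lit 373), (nat_lit 150), (nat_lit 11)]⟩,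
 ⟨⟨[(nat_lit 120), (nat_lit 160), (nat_lit 180)], [(nat_lit 0), (nat_lit 0), (nat_lit 1613)], [((nat_lit 0), (nat_lit 0), (nat_lit 0)), ((nat_lit 0), (nat_lit 0), (nat_lit 0)), ((nat_lit 620), (nat_lit 1000), (nat_lit 670))], ((nat_lit 100), (nat_lit 76), (nat_lit 52))⟩, (nat_lit 269833), (nat_lit 300), (nat_lit 455), (nat_lit 46004000), (nat_lit 248302), [(nat_lit 4940160000), (nat_lit 7360640000), (nat_lit 8715960000)], [], [(nat_lit 33296632350), (nat_lit 33179137629), (nat_lit 35393951509), (nat_lit 35202363282), (nat_lit 26906976455), (nat_lit 26754130368), (nat_lit 28341418409), (nat_lit 28086540534)], (nat_lit 1100000), (nat_lit 1271251), (nat_lit 1271251), (nat_lit 1271251), (nat_lit 0), (nat_lit 1412501), [(nat_lit 1695001), (nat_lit 1271251), (nat_lit 1271251)], [(nat_lit 28), (nat_lit 65), (nat_lit 428), (nat_lit 200), (nat_lit 10)]⟩⟩) (.leaf ⟨(nat_lit 0), (nat_lit 0), (nat_lit 0), (nat_lit 1000), (nat_lit 21636), (nat_lit 5842), (nat_lit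 10691), (nat_lit 8920), (nat_lit 0), (nat_lit 0), (nat_lit 0), [], Pd.none, Pd.none, (nat_lit 0), (nat_lit 1), (nat_lit 0), (nat_lit 0), (nat_lit 0), (nat_lit 0), [⟨(nat_lit 0), (nat_lit 100), (nat_lit 87), (nat_lit 95), (nat_lit 1031385513)⟩], [], [], [],
 ⟨⟨[(nat_lit 60), (nat_lit 100), (nat_lit 120)], [(nat_lit 0), (nat_lit 609), (nat_lit 1609)], [((nat_lit 0), (nat_lit 0), (nat_lit 0)), ((nat_lit 1000), (nat_lit 905), (nat_lit 238)), ((nat_lit 1000), (nat_lit 882), (nat_lit 668))], ((nat_lit 87), (nat_lit 100), (nat_lit 51))⟩, (nat_lit 3037016), (nat_lit 161), (nat_lit 161), (nat_lit 0), (nat_lit 35965), [(nat_lit 3282000006), (nat_lit 6250000002), (nat_lit 7968000000)], [], [(nat_lit 21795670110), (nat_lit 23139589668), (nat_lit 20637582487), (nat_lit 21754529588), (nat_lit 30479338216), (nat_lit 31673882817), (nat_lit 28410611455), (nat_lit 29310886368)], (nat_lit 1271251), (nat_lit 1271251), (nat_lit 292188), (nat_lit 780000), (nat_lit 1271251),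 (nat_lit 1271251), [(nat_lit 780000), (nat_lit 1435001), (nat_lit 1271251)], [(nat_lit 10), (nat_lit 54), (nat_lit 238), (nat_lit 30), (nat_lit 7)]⟩,
 ⟨⟨[(nat_lit 80), (nat_lit 120), (nat_lit 140)], [(nat_lit 0), (nat_lit 0), (nat_lit 1164)], [((nat_lit 0), (nat_lit 0), (nat_lit 0)), ((nat_lit 0), (nat_lit 0), (nat_lit 0)), ((nat_lit 941), (nat_lit 1000), (nat_lit 576))], ((nat_lit 100), (nat_lit 96), (nat_lit 52))⟩, (nat_lit 1645272), (nat_lit 186), (nat_lit 186), (nat_lit 0), (nat_lit 45060), [(nat_lit 4688000000), (nat_lit 7968000000), (nat_lit 9842000000)], [], [(nat_lit 20602585366), (nat_lit 24373313689), (nat_lit 17737173777), (nat_lit 20962614148), (nat_lit 34797069388), (nat_lit 37341089050), (nat_lit 30546849472), (nat_lit 32396377016)], (nat_lit 1271251), (nat_lit 1271251), (nat_lit 292188), (nat_lit 780000), (nat_lit 1271251), (nat_lit 1271251), [(nat_lit 1100000), (nat_lit 1785001), (nat_lit 1271251)], [(nat_lit 17), (nat_lit 58), (nat_lit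 428), (nat_lit 200), (nat_lit 12)]⟩,
 ⟨⟨[(nat_lit 120), (nat_lit 160), (nat_lit 180)], [(nat_lit 0), (nat_lit 0), (nat_lit 1613)], [((nat_lit 0), (nat_lit 0), (nat_lit 0)), ((nat_lit 0), (nat_lit 0), (nat_lit 0)), ((nat_lit 620), (nat_lit 1000), (nat_lit 670))], ((nat_lit 100), (nat_lit 76), (nat_lit 52))⟩, (nat_lit 3041493), (nat_lit 285), (nat_lit 285), (nat_lit 0), (nat_lit 248302), [(nat_lit 7968000000), (nat_lit 11872000000), (nat_lit 14058000000)], [], [(nat_lit 30383818080), (nat_lit 30671473660), (nat_lit 36679554120), (nat_lit 36700474915), (nat_lit 36801717980), (nat_lit 36782477640), (nat_lit 41414681918), (nat_lit 41281035155)], (nat_lit 1100000), (nat_lit 1271251), (nat_lit 1271251), (nat_lit 1271251), (nat_lit 1271251), (nat_lit 1271251), [(nat_lit 1695001), (nat_lit 1271251), (nat_lit 1271251)], [(nat_lit 28), (nat_lit 65), (nat_lit 483), (nat_lit 250), (nat_lit 11)]⟩⟩)) (.dle (nat_lit 0)))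
noncomputable def c4_27 : Tr Lf :=
 (.spl (nat_lit 2) (nat_lit 160) (.trX (nat_lit 4) (nat_lit 0) (nat_lit 2) (nat_lit 88) (nat_lit 68) (nat_lit 100) (nat_lit 350) (.spl (nat_lit 1) (nat_lit 300) (.leaf ⟨(nat_lit 0), (nat_lit 632), (nat_lit 0), (nat_lit 368), (nat_lit 0), (nat_lit 6808), (nat_lit 9499), (nat_lit 4303), (nat_lit 0), (nat_lit 0), (nat_lit 0), [], Pd.none, Pd.none, (nat_lit 0), (nat_lit 1), (nat_lit 0), (nat_lit 0), (nat_lit 6), (nat_lit 0), [⟨(nat_lit 0), (nat_lit 100), (nat_lit 94), (nat_lit 88), (nat_lit 771678564)⟩], [⟨(nat_lit 1), (nat_lit 81), (nat_lit 88), (nat_lit 100), (nat_lit 121898192)⟩], [], [],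
 ⟨⟨[(nat_lit 60), (nat_lit 100), (nat_lit 120)], [(nat_lit 0), (nat_lit 609), (nat_lit 1609)], [((nat_lit 0), (nat_lit 0), (nat_lit 0)), ((nat_lit 1000), (nat_lit 905), (nat_lit 238)), ((nat_lit 1000), (nat_lit 882), (nat_lit 668))], ((nat_lit 87), (nat_lit 100), (nat_lit 60))⟩, (nat_lit 2505046), (nat_lit 218), (nat_lit 218), (nat_lit 0), (nat_lit 313095), [(nat_lit 3414470122), (nat_lit 6250000007), (nat_lit 7968000000)], [], [(nat_lit 22359895283), (nat_lit 23457670539), (nat_lit 22200205419), (nat_lit 23234161947), (nat_lit 27845255425), (nat_lit 29238937960), (nat_lit 27402209204), (nat_lit 28654586886)], (nat_lit 1271251), (nat_lit 1271251), (nat_lit 490000), (nat_lit 780000), (nat_lit 1271251), (nat_lit 1271251), [(nat_lit 780000), (nat_lit 1435001), (nat_lit 1271251)], [(nat_lit 10), (nat_lit 54), (nat_lit 238), (nat_lit 30), (nat_lit 7)]⟩,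
 ⟨⟨[(nat_lit 60), (nat_lit 100), (nat_lit 140)], [(nat_lit 0), (nat_lit 0), (nat_lit 2047)], [((nat_lit 0), (nat_lit 0), (nat_lit 0)), ((nat_lit 0), (nat_lit 0), (nat_lit 0)), ((nat_lit 1000), (nat_lit 993), (nat_lit 781))], ((nat_lit 94), (nat_lit 100), (nat_lit 62))⟩, (nat_lit 1342535), (nat_lit 367), (nat_lit 367), (nat_lit 0), (nat_lit 344807), [(nat_lit 3282000000), (nat_lit 6250000000), (nat_lit 9842000000)], [], [(nat_lit 27424481211), (nat_lit 29670531643), (nat_lit 27010152559), (nat_lit 29093878626), (nat_lit 35148108417), (nat_lit 33856282585), (nat_lit 39017966514), (nat_lit 34863475562)], (nat_lit 1271251), (nat_lit 1271251), (nat_lit 490000), (nat_lit 780000), (nat_lit 0), (nat_lit 2613125), [(nat_lit 780000), (nat_lit 1435001), (nat_lit 1271251)], [(nat_lit 11), (nat_lit 55), (nat_lit 345), (nat_lit 125), (nat_lit 10)]⟩,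
 ⟨⟨[(nat_lit 140), (nat_lit 180), (nat_lit 200)], [(nat_lit 0), (nat_lit 0), (nat_lit 2835)], [((nat_lit 0), (nat_lit 0), (nat_lit 0)), ((nat_lit 0), (nat_lit 0), (nat_lit 0)), ((nat_lit 363), (nat_lit 1000), (nat_lit 798))], ((nat_lit 0), (nat_lit 0), (nat_lit 0))⟩, (nat_lit 101249), (nat_lit 300), (nat_lit 434), (nat_lit 28740800), (nat_lit 0), [(nat_lit 3621856000), (nat_lit 5173344000), (nat_lit 6035200000)], [], [(nat_lit 23787595171), (nat_lit 23166736168), (nat_lit 24613558155), (nat_lit 23908630490), (nat_lit 19477443274), (nat_lit 18801699837), (nat_lit 19556685763), (nat_lit 18828035584)], (nat_lit 0), (nat_lit 0), (nat_lit 0), (nat_lit 0), (nat_lit 0), (nat_lit 0), [], [(nat_lit 32), (nat_lit 67), (nat_lit 456), (nat_lit 225), (nat_lit 10)]⟩⟩) (.trZ (nat_lit 0) (nat_lit 1) (nat_lit 3) (nat_lit 100) (nat_lit 100) (nat_lit 100) (nat_lit 100) (.trX (nat_lit 5) (nat_lit 1) (nat_lit 2) (nat_lit 88) (nat_lit 68) (nat_lit 100) (nat_lit 350) (.leaf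 ⟨(nat_lit 0), (nat_lit 438), (nat_lit 0), (nat_lit 562), (nat_lit 0), (nat_lit 8563), (nat_lit 8563), (nat_lit 6571), (nat_lit 5463106231104), (nat_lit 0), (nat_lit 0), [], Pd.none, Pd.none, (nat_lit 0), (nat_lit 1), (nat_lit 0), (nat_lit 0), (nat_lit 6), (nat_lit 0), [⟨(nat_lit 0), (nat_lit 100), (nat_lit 100), (nat_lit 100), (nat_lit 955886974)⟩], [⟨(nat_lit 1), (nat_lit 81), (nat_lit 88), (nat_lit 100), (nat_lit 498741)⟩], [⟨(nat_lit 0), (nat_lit 100), (nat_lit 94), (nat_lit 12), (nat_lit 264067686)⟩], [],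
 ⟨⟨[(nat_lit 60), (nat_lit 100), (nat_lit 120)], [(nat_lit 0), (nat_lit 609), (nat_lit 1609)], [((nat_lit 0), (nat_lit 0), (nat_lit 0)), ((nat_lit 1000), (nat_lit 905), (nat_lit 238)), ((nat_lit 1000), (nat_lit 882), (nat_lit 668))], ((nat_lit 87), (nat_lit 100), (nat_lit 60))⟩, (nat_lit 1016911), (nat_lit 252), (nat_lit 252), (nat_lit 0), (nat_lit 384284), [(nat_lit 4141997863), (nat_lit 6250000004), (nat_lit 7968000000)], [], [(nat_lit 22472118073), (nat_lit 23671625460), (nat_lit 22269810996), (nat_lit 23430945354), (nat_lit 29463547750), (nat_lit 31006665813), (nat_lit 29059731273), (nat_lit 30532170565)], (nat_lit 1271251), (nat_lit 1271251), (nat_lit 631250), (nat_lit 780000), (nat_lit 1271251), (nat_lit 1271251), [(nat_lit 780000), (nat_lit 1435001), (nat_lit 1271251)], [(nat_lit 10), (nat_lit 54), (nat_lit 238), (nat_lit 30), (nat_lit 7)]⟩,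
 ⟨⟨[(nat_lit 60), (nat_lit 100), (nat_lit 120)], [(nat_lit 0), (nat_lit 609), (nat_lit 1609)], [((nat_lit 0), (nat_lit 0), (nat_lit 0)), ((nat_lit 1000), (nat_lit 905), (nat_lit 238)), ((nat_lit 1000), (nat_lit 882), (nat_lit 668))], ((nat_lit 87), (nat_lit 100), (nat_lit 60))⟩, (nat_lit 4317179), (nat_lit 325), (nat_lit 325), (nat_lit 0), (nat_lit 384284), [(nat_lit 3282000000), (nat_lit 6250000000), (nat_lit 7968000000)], [], [(nat_lit 22416030906), (nat_lit 24890228892), (nat_lit 21404466302), (nat_lit 24615466080), (nat_lit 29463547750), (nat_lit 31006665813), (nat_lit 29143092543), (nat_lit 30532170565)], (nat_lit 1271251), (nat_lit 1271251), (nat_lit 631250), (nat_lit 780000), (nat_lit 0), (nat_lit 2471876), [(nat_lit 780000), (nat_lit 1435001), (nat_lit 1271251)], [(nat_lit 10), (nat_lit 54), (nat_lit 345), (nat_lit 125), (nat_lit 11)]⟩,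
 ⟨⟨[(nat_lit 140), (nat_lit 180), (nat_lit 200)], [(nat_lit 0), (nat_lit 0), (nat_lit 2835)], [((nat_lit 0), (nat_lit 0), (nat_lit 0)), ((nat_lit 0), (nat_lit 0), (nat_lit 0)), ((nat_lit 363), (nat_lit 1000), (nat_lit 798))], ((nat_lit 0), (nat_lit 0), (nat_lit 0))⟩, (nat_lit 154624), (nat_lit 300), (nat_lit 434), (nat_lit 43892205), (nat_lit 0), [(nat_lit 5531204000), (nat_lit 7900596000), (nat_lit 9216800000)], [], [(nat_lit 36327797837), (nat_lit 35379725261), (nat_lit 37589153412), (nat_lit 36512601851), (nat_lit 29482170861), (nat_lit 28469535342), (nat_lit 29682186488), (nat_lit 28589404242)], (nat_lit 0), (nat_lit 0), (nat_lit 0), (nat_lit 0), (nat_lit 0), (nat_lit 0), [], [(nat_lit 32), (nat_lit 67), (nat_lit 456), (nat_lit 225), (nat_lit 10)]⟩⟩))))) (.leaf ⟨(nat_lit 0), (nat_lit 0), (nat_lit 0), (nat_lit 1000), (nat_lit 4276), (nat_lit 8201), (nat_lit 9830), (nat_lit 13056), (nat_lit 5902), (nat_lit 0), (nat_lit 0), [], Pd.none, Pd.none,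 (nat_lit 0), (nat_lit 1), (nat_lit 0), (nat_lit 0), (nat_lit 0), (nat_lit 0), [⟨(nat_lit 0), (nat_lit 100), (nat_lit 94), (nat_lit 88), (nat_lit 957273525)⟩], [], [⟨(nat_lit 0), (nat_lit 100), (nat_lit 94), (nat_lit 21), (nat_lit 539524404)⟩], [],
 ⟨⟨[(nat_lit 60), (nat_lit 100), (nat_lit 120)], [(nat_lit 0), (nat_lit 609), (nat_lit 1609)], [((nat_lit 0), (nat_lit 0), (nat_lit 0)), ((nat_lit 1000), (nat_lit 905), (nat_lit 238)), ((nat_lit 1000), (nat_lit 882), (nat_lit 668))], ((nat_lit 87), (nat_lit 100), (nat_lit 60))⟩, (nat_lit 3332989), (nat_lit 253), (nat_lit 253), (nat_lit 0), (nat_lit 348146), [(nat_lit 4123940912), (nat_lit 6250000008), (nat_lit 7968000000)], [], [(nat_lit 18370607335), (nat_lit 20679272308), (nat_lit 18197043261), (nat_lit 20371588836), (nat_lit 31821223840), (nat_lit 33228602172), (nat_lit 30905788621), (nat_lit 32238101904)], (nat_lit 1271251), (nat_lit 1271251), (nat_lit 490000), (nat_lit 780000), (nat_lit 1271251), (nat_lit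 1271251), [(nat_lit 780000), (nat_lit 1435001), (nat_lit 1271251)], [(nat_lit 10), (nat_lit 54), (nat_lit 238), (nat_lit 30), (nat_lit 7)]⟩,
 ⟨⟨[(nat_lit 60), (nat_lit 100), (nat_lit 140)], [(nat_lit 0), (nat_lit 0), (nat_lit 2047)], [((nat_lit 0), (nat_lit 0), (nat_lit 0)), ((nat_lit 0), (nat_lit 0), (nat_lit 0)), ((nat_lit 1000), (nat_lit 993), (nat_lit 781))], ((nat_lit 94), (nat_lit 100), (nat_lit 62))⟩, (nat_lit 1514495), (nat_lit 376), (nat_lit 376), (nat_lit 0), (nat_lit 356971), [(nat_lit 3282000000), (nat_lit 6250000000), (nat_lit 9842000000)], [], [(nat_lit 27236404915), (nat_lit 31798524135), (nat_lit 26706371895), (nat_lit 31034341675), (nat_lit 34771375305), (nat_lit 35608199760), (nat_lit 38735660503), (nat_lit 34259941363)], (nat_lit 1271251), (nat_lit 1271251), (nat_lit 490000), (nat_lit 780000), (nat_lit 0), (nat_lit 2613125), [(nat_lit 780000), (nat_lit 1435001), (nat_lit 1271251)], [(nat_lit 11), (nat_lit 55), (nat_lit 345), (nat_lit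 125), (nat_lit 10)]⟩,
 ⟨⟨[(nat_lit 120), (nat_lit 160), (nat_lit 180)], [(nat_lit 0), (nat_lit 0), (nat_lit 1613)], [((nat_lit 0), (nat_lit 0), (nat_lit 0)), ((nat_lit 0), (nat_lit 0), (nat_lit 0)), ((nat_lit 620), (nat_lit 1000), (nat_lit 670))], ((nat_lit 100), (nat_lit 68), (nat_lit 61))⟩, (nat_lit 435214), (nat_lit 300), (nat_lit 323), (nat_lit 74200000), (nat_lit 0), [(nat_lit 7968000000), (nat_lit 11872000000), (nat_lit 14058000000)], [], [(nat_lit 46228513970), (nat_lit 46279635493), (nat_lit 53891010206), (nat_lit 53844645607), (nat_lit 39175984630), (nat_lit 38999017181), (nat_lit 44321851786), (nat_lit 43856308699)], (nat_lit 0), (nat_lit 0), (nat_lit 0), (nat_lit 0), (nat_lit 0), (nat_lit 0), [], [(nat_lit 28), (nat_lit 65), (nat_lit 483), (nat_lit 250), (nat_lit 11)]⟩⟩))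
noncomputable def c4_28 : Tr Lf :=
 (.spl (nat_lit 5) (nat_lit 120) (.leaf ⟨(nat_lit 0), (nat_lit 926), (nat_lit 0), (nat_lit 74), (nat_lit 13103), (nat_lit 6537), (nat_lit 9031), (nat_lit 930), (nat_lit 575062), (nat_lit 0), (nat_lit 0), [], Pd.none, Pd.none, (nat_lit 0), (nat_lit 1), (nat_lit 0), (nat_lit 0), (nat_lit 6), (nat_lit 0), [⟨(nat_lit 0), (nat_lit 97), (nat_lit 93), (nat_lit 100), (nat_lit 766161471)⟩], [⟨(nat_lit 1), (nat_lit 59), (nat_lit 87), (nat_lit 100), (nat_lit 481785174)⟩], [⟨(nat_lit 0), (nat_lit 100), (nat_lit 89), (nat_lit 28), (nat_lit 153628577)⟩], [],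
 ⟨⟨[(nat_lit 60), (nat_lit 100), (nat_lit 120)], [(nat_lit 0), (nat_lit 609), (nat_lit 1609)], [((nat_lit 0), (nat_lit 0), (nat_lit 0)), ((nat_lit 1000), (nat_lit 905), (nat_lit 238)), ((nat_lit 1000), (nat_lit 882), (nat_lit 668))], ((nat_lit 87), (nat_lit 100), (nat_lit 60))⟩, (nat_lit 2417369), (nat_lit 209), (nat_lit 209), (nat_lit 0), (nat_lit 262608), [(nat_lit 3319958957), (nat_lit 6250000031), (nat_lit 7968000000)], [], [(nat_lit 23015472645), (nat_lit 24091613429), (nat_lit 22893602999), (nat_lit 23907921241), (nat_lit 29549564882), (nat_lit 30797877564), (nat_lit 29101065805), (nat_lit 30172822064)], (nat_lit 1271251), (nat_lit 1271251), (nat_lit 490000), (nat_lit 780000), (nat_lit 1271251), (nat_lit 1271251), [(nat_lit 780000), (nat_lit 1435001), (nat_lit 1271251)], [(nat_lit 10), (nat_lit 54), (nat_lit 238), (nat_lit 30), (nat_lit 7)]⟩,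
 ⟨⟨[(nat_lit 60), (nat_lit 100), (nat_lit 140)], [(nat_lit 0), (nat_lit 0), (nat_lit 2047)], [((nat_lit 0), (nat_lit 0), (nat_lit 0)), ((nat_lit 0), (nat_lit 0), (nat_lit 0)), ((nat_lit 1000), (nat_lit 993), (nat_lit 781))], ((nat_lit 94), (nat_lit 100), (nat_lit 62))⟩, (nat_lit 4275038), (nat_lit 345), (nat_lit 345), (nat_lit 0), (nat_lit 268041), [(nat_lit 3282000000), (nat_lit 6250000000), (nat_lit 9842000000)], [], [(nat_lit 21756190312), (nat_lit 25937382648), (nat_lit 21405448390), (nat_lit 25318378270), (nat_lit 16473947284), (nat_lit 20129366080), (nat_lit 17290672958), (nat_lit 19923370908)], (nat_lit 1271251), (nat_lit 1271251), (nat_lit 490000), (nat_lit 780000), (nat_lit 0), (nat_lit 780000), [(nat_lit 780000), (nat_lit 1435001), (nat_lit 1271251)], [(nat_lit 11), (nat_lit 55), (nat_lit 272), (nat_lit 60), (nat_lit 8)]⟩,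
 ⟨⟨[(nat_lit 140), (nat_lit 180), (nat_lit 200)], [(nat_lit 0), (nat_lit 0), (nat_lit 2835)], [((nat_lit 0), (nat_lit 0), (nat_lit 0)), ((nat_lit 0), (nat_lit 0), (nat_lit 0)), ((nat_lit 363), (nat_lit 1000), (nat_lit 798))], ((nat_lit 0), (nat_lit 0), (nat_lit 0))⟩, (nat_lit 20360), (nat_lit 300), (nat_lit 1863), (nat_lit 5779400), (nat_lit 3079981), [(nat_lit 728308000), (nat_lit 1040292000), (nat_lit 1213600000)], [], [(nat_lit 5054403416), (nat_lit 4851631728), (nat_lit 5050758334), (nat_lit 4826950170), (nat_lit 4321038680), (nat_lit 4111935497), (nat_lit 4268160998), (nat_lit 4056094876)], (nat_lit 780000), (nat_lit 1271251), (nat_lit 1271251), (nat_lit 1271251), (nat_lit 0), (nat_lit 780000), [(nat_lit 1977501), (nat_lit 1271251), (nat_lit 1271251)], [(nat_lit 32), (nat_lit 67), (nat_lit 550), (nat_lit 175), (nat_lit 12)]⟩⟩) (.spl (nat_lit 0) (nat_lit 310) (.ord (.leaf ⟨(nat_lit 0), (nat_lit 1000), (nat_lit 0), (nat_lit 0), (nat_lit 10782),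 (nat_lit 6101), (nat_lit 11084), (nat_lit 0), (nat_lit 300494), (nat_lit 0), (nat_lit 0), [], Pd.none, Pd.none, (nat_lit 0), (nat_lit 1), (nat_lit 0), (nat_lit 0), (nat_lit 6), (nat_lit 0), [⟨(nat_lit 0), (nat_lit 100), (nat_lit 97), (nat_lit 98), (nat_lit 693081013)⟩], [⟨(nat_lit 1), (nat_lit 59), (nat_lit 87), (nat_lit 100), (nat_lit 634794003)⟩], [], [],
 ⟨⟨[(nat_lit 60), (nat_lit 100), (nat_lit 120)], [(nat_lit 0), (nat_lit 609), (nat_lit 1609)], [((nat_lit 0), (nat_lit 0), (nat_lit 0)), ((nat_lit 1000), (nat_lit 905), (nat_lit 238)), ((nat_lit 1000), (nat_lit 882), (nat_lit 668))], ((nat_lit 87), (nat_lit 100), (nat_lit 60))⟩, (nat_lit 2669037), (nat_lit 193), (nat_lit 193), (nat_lit 0), (nat_lit 218884), [(nat_lit 3284434003), (nat_lit 6250000022), (nat_lit 7968000000)], [], [(nat_lit 20885360253), (nat_lit 21558910844), (nat_lit 20887584244), (nat_lit 21523565232), (nat_lit 28953644177), (nat_lit 29557312575), (nat_lit 28585842760), (nat_lit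 29057878812)], (nat_lit 1271251), (nat_lit 1271251), (nat_lit 490000), (nat_lit 780000), (nat_lit 1271251), (nat_lit 1271251), [(nat_lit 780000), (nat_lit 1435001), (nat_lit 1271251)], [(nat_lit 10), (nat_lit 54), (nat_lit 238), (nat_lit 30), (nat_lit 7)]⟩,
 ⟨⟨[(nat_lit 60), (nat_lit 100), (nat_lit 140)], [(nat_lit 0), (nat_lit 0), (nat_lit 2047)], [((nat_lit 0), (nat_lit 0), (nat_lit 0)), ((nat_lit 0), (nat_lit 0), (nat_lit 0)), ((nat_lit 1000), (nat_lit 993), (nat_lit 781))], ((nat_lit 94), (nat_lit 100), (nat_lit 62))⟩, (nat_lit 4738349), (nat_lit 189), (nat_lit 189), (nat_lit 0), (nat_lit 222963), [(nat_lit 3282000000), (nat_lit 6250000000), (nat_lit 9842000000)], [], [(nat_lit 12380100453), (nat_lit 15969033469), (nat_lit 11892045549), (nat_lit 15591757196), (nat_lit 13504769877), (nat_lit 18091104312), (nat_lit 13201415206), (nat_lit 17588653349)], (nat_lit 1271251), (nat_lit 1271251), (nat_lit 490000), (nat_lit 780000), (nat_lit 780000), (nat_lit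 1435001), [(nat_lit 780000), (nat_lit 1435001), (nat_lit 1271251)], [(nat_lit 11), (nat_lit 55), (nat_lit 317), (nat_lit 100), (nat_lit 9)]⟩,
 Rw.none⟩)) (.trZ (nat_lit 0) (nat_lit 1) (nat_lit 3) (nat_lit 100) (nat_lit 91) (nat_lit 91) (nat_lit 90) (.trX (nat_lit 4) (nat_lit 0) (nat_lit 2) (nat_lit 84) (nat_lit 63) (nat_lit 100) (nat_lit 360) (.leaf ⟨(nat_lit 0), (nat_lit 1000), (nat_lit 0), (nat_lit 0), (nat_lit 8551), (nat_lit 5790), (nat_lit 11175), (nat_lit 0), (nat_lit 743620), (nat_lit 0), (nat_lit 0), [], Pd.none, Pd.none, (nat_lit 0), (nat_lit 1), (nat_lit 0), (nat_lit 0), (nat_lit 6), (nat_lit 0), [⟨(nat_lit 0), (nat_lit 95), (nat_lit 90), (nat_lit 100), (nat_lit 767785739)⟩], [⟨(nat_lit 1), (nat_lit 63), (nat_lit 84), (nat_lit 100), (nat_lit 546533262)⟩], [], [],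
 ⟨⟨[(nat_lit 60), (nat_lit 100), (nat_lit 120)], [(nat_lit 0), (nat_lit 909), (nat_lit 1866)], [((nat_lit 0), (nat_lit 0), (nat_lit 0)), ((nat_lit 1000), (nat_lit 858), (nat_lit 354)), ((nat_lit 1000), (nat_lit 849), (nat_lit 705))], ((nat_lit 84), (nat_lit 100), (nat_lit 60))⟩, (nat_lit 2745508), (nat_lit 201), (nat_lit 201), (nat_lit 0), (nat_lit 260956), [(nat_lit 3282001360), (nat_lit 6250000076), (nat_lit 7968000000)], [], [(nat_lit 22995603803), (nat_lit 23441403526), (nat_lit 22966798034), (nat_lit 23393714896), (nat_lit 28111014260), (nat_lit 28718270828), (nat_lit 27895490426), (nat_lit 28405580790)], (nat_lit 1271251), (nat_lit 1271251), (nat_lit 559688), (nat_lit 780000), (nat_lit 1271251), (nat_lit 1271251), [(nat_lit 780000), (nat_lit 1435001), (nat_lit 1271251)], [(nat_lit 10), (nat_lit 54), (nat_lit 238), (nat_lit 30), (nat_lit 7)]⟩,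
 ⟨⟨[(nat_lit 60), (nat_lit 100), (nat_lit 140)], [(nat_lit 0), (nat_lit 0), (nat_lit 2047)], [((nat_lit 0), (nat_lit 0), (nat_lit 0)), ((nat_lit 0), (nat_lit 0), (nat_lit 0)), ((nat_lit 1000), (nat_lit 993), (nat_lit 781))], ((nat_lit 94), (nat_lit 100), (nat_lit 62))⟩, (nat_lit 4693498), (nat_lit 208), (nat_lit 208), (nat_lit 0), (nat_lit 267777), [(nat_lit 3282000000), (nat_lit 6250000000), (nat_lit 9842000000)], [], [(nat_lit 12292206251), (nat_lit 17743253869), (nat_lit 11917566869), (nat_lit 17368184775), (nat_lit 13369624044), (nat_lit 19559803132), (nat_lit 13098994388), (nat_lit 19101087475)], (nat_lit 1271251), (nat_lit 1271251), (nat_lit 559688), (nat_lit 780000), (nat_lit 780000), (nat_lit 1435001), [(nat_lit 780000), (nat_lit 1435001), (nat_lit 1271251)], [(nat_lit 11), (nat_lit 55), (nat_lit 317), (nat_lit 100), (nat_lit 9)]⟩,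
 Rw.none⟩)))))
noncomputable def c4_29 : Tr Lf :=
 (.spl (nat_lit 6) (nat_lit 20) (.spl (nat_lit 6) (nat_lit 12) (.spl (nat_lit 0) (nat_lit 310) (.ord (.leaf ⟨(nat_lit 0), (nat_lit 1000), (nat_lit 0), (nat_lit 0), (nat_lit 0), (nat_lit 5661), (nat_lit 6226), (nat_lit 0), (nat_lit 124442), (nat_lit 0), (nat_lit 0), [], Pd.none, Pd.none, (nat_lit 0), (nat_lit 1), (nat_lit 0), (nat_lit 0), (nat_lit 6), (nat_lit 0), [⟨(nat_lit 0), (nat_lit 91), (nat_lit 91), (nat_lit 100), (nat_lit 102835237)⟩], [], [], [⟨(nat_lit 2), (nat_lit 100), (nat_lit 97), (nat_lit 98), (nat_lit 542343335)⟩],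
 ⟨⟨[(nat_lit 60), (nat_lit 80), (nat_lit 100)], [(nat_lit 0), (nat_lit 304), (nat_lit 825)], [((nat_lit 0), (nat_lit 0), (nat_lit 0)), ((nat_lit 1000), (nat_lit 905), (nat_lit 238)), ((nat_lit 1000), (nat_lit 871), (nat_lit 407))], ((nat_lit 88), (nat_lit 100), (nat_lit 35))⟩, (nat_lit 2698017), (nat_lit 162), (nat_lit 162), (nat_lit 0), (nat_lit 211756), [(nat_lit 3282000008), (nat_lit 4739040381), (nat_lit 6250000000)], [], [(nat_lit 20301815196), (nat_lit 20935473578), (nat_lit 20485148339), (nat_lit 21083544382), (nat_lit 28353434188), (nat_lit 28935529627), (nat_lit 28068441116), (nat_lit 28531122032)], (nat_lit 1271251), (nat_lit 1271251), (nat_lit 490000), (nat_lit 780000), (nat_lit 1271251), (nat_lit 1271251), [(nat_lit 780000), (nat_lit 1100000), (nat_lit 1442501)], [(nat_lit 9), (nat_lit 50), (nat_lit 238), (nat_lit 30), (nat_lit 8)]⟩,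
 ⟨⟨[(nat_lit 60), (nat_lit 80), (nat_lit 100)], [(nat_lit 0), (nat_lit 0), (nat_lit 534)], [((nat_lit 0), (nat_lit 0), (nat_lit 0)), ((nat_lit 0), (nat_lit 0), (nat_lit 0)), ((nat_lit 1000), (nat_lit 917), (nat_lit 393))], ((nat_lit 92), (nat_lit 100), (nat_lit 34))⟩, (nat_lit 2700373), (nat_lit 163), (nat_lit 163), (nat_lit 0), (nat_lit 214353), [(nat_lit 3282000000), (nat_lit 4688000000), (nat_lit 6250000000)], [], [(nat_lit 17192759642), (nat_lit 19414272661), (nat_lit 17487651445), (nat_lit 19550675660), (nat_lit 28161501863), (nat_lit 29733955458), (nat_lit 27822191717), (nat_lit 29207525625)], (nat_lit 1271251), (nat_lit 1271251), (nat_lit 490000), (nat_lit 780000), (nat_lit 1271251), (nat_lit 1271251), [(nat_lit 780000), (nat_lit 1100000), (nat_lit 1442501)], [(nat_lit 9), (nat_lit 50), (nat_lit 238), (nat_lit 30), (nat_lit 8)]⟩,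
 Rw.none⟩)) (.trZ (nat_lit 0) (nat_lit 1) (nat_lit 3) (nat_lit 100) (nat_lit 91) (nat_lit 91) (nat_lit 90) (.trX (nat_lit 4) (nat_lit 0) (nat_lit 2) (nat_lit 84) (nat_lit 63) (nat_lit 100) (nat_lit 360) (.leaf ⟨(nat_lit 0), (nat_lit 1000), (nat_lit 0), (nat_lit 0), (nat_lit 0), (nat_lit 5932), (nat_lit 6778), (nat_lit 0), (nat_lit 61926), (nat_lit 0), (nat_lit 0), [], Pd.none, Pd.none, (nat_lit 0), (nat_lit 1), (nat_lit 0), (nat_lit 0), (nat_lit 6), (nat_lit 0), [⟨(nat_lit 0), (nat_lit 95), (nat_lit 90), (nat_lit 100), (nat_lit 191374430)⟩], [], [], [⟨(nat_lit 2), (nat_lit 97), (nat_lit 98), (nat_lit 100), (nat_lit 533076447)⟩],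
 ⟨⟨[(nat_lit 60), (nat_lit 80)], [(nat_lit 0), (nat_lit 456)], [((nat_lit 0), (nat_lit 0), (nat_lit 0)), ((nat_lit 1000), (nat_lit 859), (nat_lit 351))], ((nat_lit 86), (nat_lit 100), (nat_lit 35))⟩, (nat_lit 0), (nat_lit 147), (nat_lit 147), (nat_lit 0), (nat_lit 254246), [(nat_lit 3282000019), (nat_lit 4688000000)], [], [(nat_lit 20865760908), (nat_lit 21478599274), (nat_lit 21002121676), (nat_lit 21588555766), (nat_lit 28290706421), (nat_lit 28905110487), (nat_lit 27978483885), (nat_lit 28569661932)], (nat_lit 1271251), (nat_lit 1271251), (nat_lit 559688), (nat_lit 780000), (nat_lit 1271251), (nat_lit 1271251), [(nat_lit 780000), (nat_lit 1100000)], [(nat_lit 8), (nat_lit 44), (nat_lit 238), (nat_lit 30), (nat_lit 9)]⟩,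
 ⟨⟨[(nat_lit 60), (nat_lit 80), (nat_lit 100)], [(nat_lit 0), (nat_lit 0), (nat_lit 534)], [((nat_lit 0), (nat_lit 0), (nat_lit 0)), ((nat_lit 0), (nat_lit 0), (nat_lit 0)), ((nat_lit 1000), (nat_lit 917), (nat_lit 393))], ((nat_lit 92), (nat_lit 100), (nat_lit 34))⟩, (nat_lit 4272302), (nat_lit 174), (nat_lit 174), (nat_lit 0), (nat_lit 258805), [(nat_lit 3282000000), (nat_lit 4688000000), (nat_lit 6250000000)], [], [(nat_lit 17673326069), (nat_lit 20200357248), (nat_lit 17796798655), (nat_lit 20210925514), (nat_lit 28469114008), (nat_lit 30980427742), (nat_lit 28057643442), (nat_lit 30471940118)], (nat_lit 1271251), (nat_lit 1271251), (nat_lit 559688), (nat_lit 780000), (nat_lit 1271251), (nat_lit 1271251), [(nat_lit 780000), (nat_lit 1100000), (nat_lit 1442501)], [(nat_lit 9), (nat_lit 50), (nat_lit 238), (nat_lit 30), (nat_lit 8)]⟩,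
 Rw.none⟩)))) (.leaf ⟨(nat_lit 0), (nat_lit 954), (nat_lit 0), (nat_lit 46), (nat_lit 0), (nat_lit 6161), (nat_lit 7495), (nat_lit 504), (nat_lit 12194), (nat_lit 0), (nat_lit 0), [], Pd.none, Pd.none, (nat_lit 0), (nat_lit 1), (nat_lit 0), (nat_lit 0), (nat_lit 6), (nat_lit 0), [⟨(nat_lit 0), (nat_lit 97), (nat_lit 93), (nat_lit 100), (nat_lit 207153704)⟩], [], [], [⟨(nat_lit 2), (nat_lit 100), (nat_lit 97), (nat_lit 98), (nat_lit 523962384)⟩],
 ⟨⟨[(nat_lit 60), (nat_lit 80), (nat_lit 100)], [(nat_lit 0), (nat_lit 304), (nat_lit 825)], [((nat_lit 0), (nat_lit 0), (nat_lit 0)), ((nat_lit 1000), (nat_lit 905), (nat_lit 238)), ((nat_lit 1000), (nat_lit 871), (nat_lit 407))], ((nat_lit 87), (nat_lit 100), (nat_lit 44))⟩, (nat_lit 1713816), (nat_lit 160), (nat_lit 160), (nat_lit 0), (nat_lit 195670), [(nat_lit 3282000042), (nat_lit 4981293784), (nat_lit 6250000000)], [], [(nat_lit 20311830219), (nat_lit 21800503080), (nat_lit 20405183066), (nat_lit 21809890688),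 (nat_lit 29164943763), (nat_lit 30248627292), (nat_lit 28786067316), (nat_lit 29706148254)], (nat_lit 1271251), (nat_lit 1271251), (nat_lit 490000), (nat_lit 780000), (nat_lit 1271251), (nat_lit 1271251), [(nat_lit 780000), (nat_lit 1100000), (nat_lit 1442501)], [(nat_lit 9), (nat_lit 50), (nat_lit 238), (nat_lit 30), (nat_lit 8)]⟩,
 ⟨⟨[(nat_lit 60), (nat_lit 100), (nat_lit 120)], [(nat_lit 0), (nat_lit 0), (nat_lit 1164)], [((nat_lit 0), (nat_lit 0), (nat_lit 0)), ((nat_lit 0), (nat_lit 0), (nat_lit 0)), ((nat_lit 1000), (nat_lit 933), (nat_lit 572))], ((nat_lit 92), (nat_lit 100), (nat_lit 44))⟩, (nat_lit 2646337), (nat_lit 189), (nat_lit 189), (nat_lit 0), (nat_lit 199527), [(nat_lit 3282000000), (nat_lit 6250000000), (nat_lit 7968000000)], [], [(nat_lit 17951404732), (nat_lit 21278987812), (nat_lit 17957179637), (nat_lit 21089326917), (nat_lit 29517662713), (nat_lit 32197297140), (nat_lit 28947970693), (nat_lit 31361847357)], (nat_lit 1271251),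 (nat_lit 1271251), (nat_lit 490000), (nat_lit 780000), (nat_lit 1271251), (nat_lit 1271251), [(nat_lit 780000), (nat_lit 1435001), (nat_lit 1271251)], [(nat_lit 10), (nat_lit 54), (nat_lit 345), (nat_lit 125), (nat_lit 11)]⟩,
 ⟨⟨[(nat_lit 140), (nat_lit 160), (nat_lit 180)], [(nat_lit 0), (nat_lit 0), (nat_lit 799)], [((nat_lit 0), (nat_lit 0), (nat_lit 0)), ((nat_lit 0), (nat_lit 0), (nat_lit 0)), ((nat_lit 728), (nat_lit 1000), (nat_lit 454))], ((nat_lit 100), (nat_lit 71), (nat_lit 48))⟩, (nat_lit 40416), (nat_lit 300), (nat_lit 2119), (nat_lit 3413200), (nat_lit 3929364), [(nat_lit 452732000), (nat_lit 546112000), (nat_lit 646668000)], [], [(nat_lit 2463413747), (nat_lit 2367749097), (nat_lit 2320899428), (nat_lit 2216332153), (nat_lit 2266435119), (nat_lit 2162329059), (nat_lit 2222916400), (nat_lit 2115043580)], (nat_lit 780000), (nat_lit 1271251), (nat_lit 1271251), (nat_lit 1271251), (nat_lit 1271251), (nat_lit 1271251), [(nat_lit 1977501),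 (nat_lit 1271251), (nat_lit 1271251)], [(nat_lit 31), (nat_lit 65), (nat_lit 645), (nat_lit 250), (nat_lit 14)]⟩⟩)) (.spl (nat_lit 5) (nat_lit 280) (.spl (nat_lit 0) (nat_lit 310) (.ord (.leaf ⟨(nat_lit 0), (nat_lit 878), (nat_lit 0), (nat_lit 122), (nat_lit 0), (nat_lit 6091), (nat_lit 8829), (nat_lit 1397), (nat_lit 2800334), (nat_lit 0), (nat_lit 0), [], Pd.none, Pd.none, (nat_lit 0), (nat_lit 1), (nat_lit 0), (nat_lit 0), (nat_lit 6), (nat_lit 0), [⟨(nat_lit 0), (nat_lit 100), (nat_lit 97), (nat_lit 98), (nat_lit 325378428)⟩], [⟨(nat_lit 1), (nat_lit 74), (nat_lit 88), (nat_lit 100), (nat_lit 88356530)⟩], [], [⟨(nat_lit 2), (nat_lit 100), (nat_lit 97), (nat_lit 98), (nat_lit 362409928)⟩],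
 ⟨⟨[(nat_lit 60), (nat_lit 100), (nat_lit 120)], [(nat_lit 0), (nat_lit 609), (nat_lit 1609)], [((nat_lit 0), (nat_lit 0), (nat_lit 0)), ((nat_lit 1000), (nat_lit 905), (nat_lit 238)), ((nat_lit 1000), (nat_lit 882), (nat_lit 668))], ((nat_lit 87), (nat_lit 100), (nat_lit 60))⟩, (nat_lit 2669069), (nat_lit 159), (nat_lit 159), (nat_lit 0), (nat_lit 112423), [(nat_lit 3373858689), (nat_lit 6250000527), (nat_lit 7968000000)], [], [(nat_lit 20892196905), (nat_lit 21565157586), (nat_lit 20895821491), (nat_lit 21531260351), (nat_lit 28953443344), (nat_lit 29543181144), (nat_lit 28587710570), (nat_lit 29045907067)], (nat_lit 1271251), (nat_lit 1271251), (nat_lit 490000), (nat_lit 780000), (nat_lit 1271251), (nat_lit 1271251), [(nat_lit 780000), (nat_lit 1435001), (nat_lit 1271251)], [(nat_lit 10), (nat_lit 54), (nat_lit 238), (nat_lit 30), (nat_lit 7)]⟩,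
 ⟨⟨[(nat_lit 60), (nat_lit 100), (nat_lit 140)], [(nat_lit 0), (nat_lit 0), (nat_lit 2047)], [((nat_lit 0), (nat_lit 0), (nat_lit 0)), ((nat_lit 0), (nat_lit 0), (nat_lit 0)), ((nat_lit 1000), (nat_lit 993), (nat_lit 781))], ((nat_lit 94), (nat_lit 100), (nat_lit 62))⟩, (nat_lit 3748428), (nat_lit 151), (nat_lit 151), (nat_lit 0), (nat_lit 115461), [(nat_lit 3282000000), (nat_lit 6250000000), (nat_lit 9842000000)], [], [(nat_lit 17065846064), (nat_lit 19514364215), (nat_lit 16726461448), (nat_lit 19027509674), (nat_lit 21152667482), (nat_lit 23588661401), (nat_lit 20724020782), (nat_lit 23040040136)], (nat_lit 1271251), (nat_lit 1271251), (nat_lit 490000), (nat_lit 780000), (nat_lit 1271251), (nat_lit 1271251), [(nat_lit 780000), (nat_lit 1435001), (nat_lit 1271251)], [(nat_lit 11), (nat_lit 55), (nat_lit 317), (nat_lit 100), (nat_lit 9)]⟩,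
 ⟨⟨[(nat_lit 140), (nat_lit 180), (nat_lit 200)], [(nat_lit 0), (nat_lit 0), (nat_lit 2835)], [((nat_lit 0), (nat_lit 0), (nat_lit 0)), ((nat_lit 0), (nat_lit 0), (nat_lit 0)), ((nat_lit 363), (nat_lit 1000), (nat_lit 798))], ((nat_lit 0), (nat_lit 0), (nat_lit 0))⟩, (nat_lit 33566), (nat_lit 300), (nat_lit 1261), (nat_lit 9528202), (nat_lit 2060418), [(nat_lit 1200724000), (nat_lit 1715076000), (nat_lit 2000800000)], [], [(nat_lit 7290656294), (nat_lit 6976581629), (nat_lit 7005032642), (nat_lit 6683320278), (nat_lit 6991075336), (nat_lit 6674438453), (nat_lit 6715017952), (nat_lit 6389808409)], (nat_lit 780000), (nat_lit 1271251), (nat_lit 1271251), (nat_lit 1271251), (nat_lit 1271251), (nat_lit 1271251), [(nat_lit 1977501), (nat_lit 1271251), (nat_lit 1271251)], [(nat_lit 32), (nat_lit 67), (nat_lit 456), (nat_lit 225), (nat_lit 9)]⟩⟩)) (.trZ (nat_lit 0) (nat_lit 1) (nat_lit 3) (nat_lit 100) (nat_lit 91) (nat_lit 91) (nat_lit 90) (.trX (nat_lit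 4) (nat_lit 0) (nat_lit 2) (nat_lit 84) (nat_lit 63) (nat_lit 100) (nat_lit 360) (.leaf ⟨(nat_lit 0), (nat_lit 921), (nat_lit 0), (nat_lit 79), (nat_lit 0), (nat_lit 5558), (nat_lit 9468), (nat_lit 893), (nat_lit 9698), (nat_lit 0), (nat_lit 0), [], Pd.none, Pd.none, (nat_lit 0), (nat_lit 1), (nat_lit 0), (nat_lit 0), (nat_lit 6), (nat_lit 0), [⟨(nat_lit 0), (nat_lit 95), (nat_lit 90), (nat_lit 100), (nat_lit 380149550)⟩], [⟨(nat_lit 1), (nat_lit 79), (nat_lit 84), (nat_lit 100), (nat_lit 72735631)⟩], [], [⟨(nat_lit 2), (nat_lit 97), (nat_lit 98), (nat_lit 100), (nat_lit 384122271)⟩],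
 ⟨⟨[(nat_lit 60), (nat_lit 100), (nat_lit 120)], [(nat_lit 0), (nat_lit 909), (nat_lit 1866)], [((nat_lit 0), (nat_lit 0), (nat_lit 0)), ((nat_lit 1000), (nat_lit 858), (nat_lit 354)), ((nat_lit 1000), (nat_lit 849), (nat_lit 705))], ((nat_lit 84), (nat_lit 100), (nat_lit 60))⟩, (nat_lit 2747880), (nat_lit 169), (nat_lit 169), (nat_lit 0), (nat_lit 162449), [(nat_lit 3282000003), (nat_lit 6250000007), (nat_lit 7968000000)], [], [(nat_lit 21369071141), (nat_lit 21935053451), (nat_lit 21426833969), (nat_lit 21969190739), (nat_lit 27817432702), (nat_lit 28413011666), (nat_lit 27585531190), (nat_lit 28137504558)], (nat_lit 1271251), (nat_lit 1271251), (nat_lit 559688), (nat_lit 780000), (nat_lit 1271251), (nat_lit 1271251), [(nat_lit 780000), (nat_lit 1435001), (nat_lit 1271251)], [(nat_lit 10), (nat_lit 54), (nat_lit 238), (nat_lit 30), (nat_lit 7)]⟩,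
 ⟨⟨[(nat_lit 60), (nat_lit 100), (nat_lit 140)], [(nat_lit 0), (nat_lit 0), (nat_lit 2047)], [((nat_lit 0), (nat_lit 0), (nat_lit 0)), ((nat_lit 0), (nat_lit 0), (nat_lit 0)), ((nat_lit 1000), (nat_lit 993), (nat_lit 781))], ((nat_lit 94), (nat_lit 100), (nat_lit 62))⟩, (nat_lit 3723331), (nat_lit 169), (nat_lit 169), (nat_lit 0), (nat_lit 167923), [(nat_lit 3282000000), (nat_lit 6250000000), (nat_lit 9842000000)], [], [(nat_lit 16575644385), (nat_lit 19934225950), (nat_lit 16255590531), (nat_lit 19457825023), (nat_lit 20727299633), (nat_lit 24947757821), (nat_lit 20196708766), (nat_lit 24408314084)], (nat_lit 1271251), (nat_lit 1271251), (nat_lit 559688), (nat_lit 780000), (nat_lit 1271251), (nat_lit 1271251), [(nat_lit 780000), (nat_lit 1435001), (nat_lit 1271251)], [(nat_lit 11), (nat_lit 55), (nat_lit 317), (nat_lit 100), (nat_lit 9)]⟩,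
 ⟨⟨[(nat_lit 140), (nat_lit 180), (nat_lit 200)], [(nat_lit 0), (nat_lit 0), (nat_lit 2835)], [((nat_lit 0), (nat_lit 0), (nat_lit 0)), ((nat_lit 0), (nat_lit 0), (nat_lit 0)), ((nat_lit 363), (nat_lit 1000), (nat_lit 798))], ((nat_lit 0), (nat_lit 0), (nat_lit 0))⟩, (nat_lit 21735), (nat_lit 300), (nat_lit 1806), (nat_lit 6169907), (nat_lit 3198724), [(nat_lit 777518000), (nat_lit 1110582000), (nat_lit 1295600000)], [], [(nat_lit 4812177458), (nat_lit 4624671358), (nat_lit 4594041242), (nat_lit 4390059633), (nat_lit 4599598154), (nat_lit 4412671910), (nat_lit 4411527076), (nat_lit 4205182397)], (nat_lit 780000), (nat_lit 1271251), (nat_lit 1271251), (nat_lit 1271251), (nat_lit 1271251), (nat_lit 1271251), [(nat_lit 1977501), (nat_lit 1271251), (nat_lit 1271251)], [(nat_lit 32), (nat_lit 67), (nat_lit 554), (nat_lit 225), (nat_lit 11)]⟩⟩)))) (.trX (nat_lit 4) (nat_lit 5) (nat_lit 3) (nat_lit 100) (nat_lit 80) (nat_lit 100) (nat_lit 340) (.spl (nat_lit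 1) (nat_lit 300) (.leaf ⟨(nat_lit 0), (nat_lit 892), (nat_lit 0), (nat_lit 108), (nat_lit 0), (nat_lit 6685), (nat_lit 7418), (nat_lit 1211), (nat_lit 0), (nat_lit 0), (nat_lit 0), [], Pd.none, Pd.none, (nat_lit 0), (nat_lit 1), (nat_lit 0), (nat_lit 0), (nat_lit 7), (nat_lit 0), [⟨(nat_lit 0), (nat_lit 100), (nat_lit 94), (nat_lit 97), (nat_lit 204844291)⟩], [], [], [⟨(nat_lit 2), (nat_lit 86), (nat_lit 98), (nat_lit 100), (nat_lit 554356303)⟩],
 ⟨⟨[(nat_lit 60), (nat_lit 100), (nat_lit 120)], [(nat_lit 0), (nat_lit 609), (nat_lit 1609)], [((nat_lit 0), (nat_lit 0), (nat_lit 0)), ((nat_lit 1000), (nat_lit 905), (nat_lit 238)), ((nat_lit 1000), (nat_lit 882), (nat_lit 668))], ((nat_lit 87), (nat_lit 100), (nat_lit 60))⟩, (nat_lit 3221531), (nat_lit 147), (nat_lit 147), (nat_lit 0), (nat_lit 111380), [(nat_lit 3635505456), (nat_lit 6250001316), (nat_lit 7968000000)], [], [(nat_lit 19594130031), (nat_lit 21010132701), (nat_lit 19514559274), (nat_lit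 20849841741), (nat_lit 26676900077), (nat_lit 28115650140), (nat_lit 26242885190), (nat_lit 27606236918)], (nat_lit 1271251), (nat_lit 1271251), (nat_lit 490000), (nat_lit 780000), (nat_lit 1271251), (nat_lit 1271251), [(nat_lit 780000), (nat_lit 1435001), (nat_lit 1271251)], [(nat_lit 10), (nat_lit 54), (nat_lit 238), (nat_lit 30), (nat_lit 7)]⟩,
 ⟨⟨[(nat_lit 60), (nat_lit 100), (nat_lit 140)], [(nat_lit 0), (nat_lit 0), (nat_lit 2047)], [((nat_lit 0), (nat_lit 0), (nat_lit 0)), ((nat_lit 0), (nat_lit 0), (nat_lit 0)), ((nat_lit 1000), (nat_lit 993), (nat_lit 781))], ((nat_lit 94), (nat_lit 100), (nat_lit 62))⟩, (nat_lit 3395984), (nat_lit 183), (nat_lit 183), (nat_lit 0), (nat_lit 121026), [(nat_lit 3282000000), (nat_lit 6250000000), (nat_lit 9842000000)], [], [(nat_lit 22536074068), (nat_lit 23724566350), (nat_lit 22157976887), (nat_lit 23278000968), (nat_lit 29522871185), (nat_lit 30752026280), (nat_lit 28967158207), (nat_lit 30002836740)], (nat_lit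 1271251), (nat_lit 1271251), (nat_lit 490000), (nat_lit 780000), (nat_lit 1271251), (nat_lit 1271251), [(nat_lit 780000), (nat_lit 1435001), (nat_lit 1271251)], [(nat_lit 11), (nat_lit 55), (nat_lit 238), (nat_lit 30), (nat_lit 6)]⟩,
 ⟨⟨[(nat_lit 140), (nat_lit 180), (nat_lit 200)], [(nat_lit 0), (nat_lit 0), (nat_lit 2835)], [((nat_lit 0), (nat_lit 0), (nat_lit 0)), ((nat_lit 0), (nat_lit 0), (nat_lit 0)), ((nat_lit 363), (nat_lit 1000), (nat_lit 798))], ((nat_lit 0), (nat_lit 0), (nat_lit 0))⟩, (nat_lit 29715), (nat_lit 300), (nat_lit 1248), (nat_lit 8434800), (nat_lit 2106290), [(nat_lit 1062936000), (nat_lit 1518264000), (nat_lit 1771200000)], [], [(nat_lit 6356330202), (nat_lit 6084740099), (nat_lit 6098105133), (nat_lit 5820628831), (nat_lit 6165535202), (nat_lit 5887589526), (nat_lit 5944712605), (nat_lit 5662521042)], (nat_lit 780000), (nat_lit 1271251), (nat_lit 1271251), (nat_lit 1271251), (nat_lit 1271251), (nat_lit 1271251), [(nat_lit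 1977501), (nat_lit 1271251), (nat_lit 1271251)], [(nat_lit 32), (nat_lit 67), (nat_lit 456), (nat_lit 225), (nat_lit 9)]⟩⟩) (.trZ (nat_lit 0) (nat_lit 1) (nat_lit 3) (nat_lit 100) (nat_lit 100) (nat_lit 100) (nat_lit 100) (.leaf ⟨(nat_lit 0), (nat_lit 935), (nat_lit 0), (nat_lit 65), (nat_lit 0), (nat_lit 6715), (nat_lit 6126), (nat_lit 729), (nat_lit 1485898152877), (nat_lit 0), (nat_lit 0), [], Pd.none, Pd.none, (nat_lit 0), (nat_lit 1), (nat_lit 0), (nat_lit 0), (nat_lit 7), (nat_lit 0), [⟨(nat_lit 0), (nat_lit 91), (nat_lit 91), (nat_lit 100), (nat_lit 198876919)⟩], [], [], [⟨(nat_lit 2), (nat_lit 90), (nat_lit 100), (nat_lit 100), (nat_lit 510590934)⟩],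
 ⟨⟨[(nat_lit 60), (nat_lit 100), (nat_lit 120)], [(nat_lit 0), (nat_lit 609), (nat_lit 1609)], [((nat_lit 0), (nat_lit 0), (nat_lit 0)), ((nat_lit 1000), (nat_lit 905), (nat_lit 238)), ((nat_lit 1000), (nat_lit 882), (nat_lit 668))], ((nat_lit 87), (nat_lit 100), (nat_lit 60))⟩, (nat_lit 2667645), (nat_lit 157), (nat_lit 157), (nat_lit 0), (nat_lit 163574), [(nat_lit 3621588376), (nat_lit 6298995443), (nat_lit 7968000000)], [], [(nat_lit 20422781914), (nat_lit 21801820595), (nat_lit 20380895643), (nat_lit 21719430875), (nat_lit 26499711799), (nat_lit 27893497122), (nat_lit 26285887329), (nat_lit 27635762783)], (nat_lit 1271251), (nat_lit 1271251), (nat_lit 631250), (nat_lit 780000), (nat_lit 1271251), (nat_lit 1271251), [(nat_lit 780000), (nat_lit 1435001), (nat_lit 1271251)], [(nat_lit 10), (nat_lit 54), (nat_lit 238), (nat_lit 30), (nat_lit 7)]⟩,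
 ⟨⟨[(nat_lit 60), (nat_lit 100), (nat_lit 120)], [(nat_lit 0), (nat_lit 609), (nat_lit 1609)], [((nat_lit 0), (nat_lit 0), (nat_lit 0)), ((nat_lit 1000), (nat_lit 905), (nat_lit 238)), ((nat_lit 1000), (nat_lit 882), (nat_lit 668))], ((nat_lit 87), (nat_lit 100), (nat_lit 60))⟩, (nat_lit 2782100), (nat_lit 169), (nat_lit 169), (nat_lit 0), (nat_lit 163574), [(nat_lit 3282000000), (nat_lit 6250000000), (nat_lit 7968000000)], [], [(nat_lit 22895844726), (nat_lit 24070052596), (nat_lit 22833052593), (nat_lit 23973979648), (nat_lit 28750345254), (nat_lit 29930104073), (nat_lit 28512908477), (nat_lit 29662707873)], (nat_lit 1271251), (nat_lit 1271251), (nat_lit 631250), (nat_lit 780000), (nat_lit 1271251), (nat_lit 1271251), [(nat_lit 780000), (nat_lit 1435001), (nat_lit 1271251)], [(nat_lit 10), (nat_lit 54), (nat_lit 238), (nat_lit 30), (nat_lit 7)]⟩,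
 ⟨⟨[(nat_lit 140), (nat_lit 180), (nat_lit 200)], [(nat_lit 0), (nat_lit 0), (nat_lit 2835)], [((nat_lit 0), (nat_lit 0), (nat_lit 0)), ((nat_lit 0), (nat_lit 0), (nat_lit 0)), ((nat_lit 363), (nat_lit 1000), (nat_lit 798))], ((nat_lit 0), (nat_lit 0), (nat_lit 0))⟩, (nat_lit 17884), (nat_lit 300), (nat_lit 1765), (nat_lit 5076500), (nat_lit 3198724), [(nat_lit 639730000), (nat_lit 913770000), (nat_lit 1066000000)], [], [(nat_lit 3832306122), (nat_lit 3675459488), (nat_lit 3669124436), (nat_lit 3502361807), (nat_lit 3710000259), (nat_lit 3542672288), (nat_lit 3577050357), (nat_lit 3407454281)], (nat_lit 780000), (nat_lit 1271251), (nat_lit 1271251), (nat_lit 1271251), (nat_lit 1271251), (nat_lit 1271251), [(nat_lit 1977501), (nat_lit 1271251), (nat_lit 1271251)], [(nat_lit 32), (nat_lit 67), (nat_lit 553), (nat_lit 225), (nat_lit 11)]⟩⟩))))))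
noncomputable def c4_30 : Tr Lf :=
 (.spl (nat_lit 1) (nat_lit 280) (.spl (nat_lit 6) (nat_lit 28) (.spl (nat_lit 5) (nat_lit 120) (.spl (nat_lit 3) (nat_lit 80) (.leaf ⟨(nat_lit 174), (nat_lit 0), (nat_lit 0), (nat_lit 826), (nat_lit 15125), (nat_lit 6609), (nat_lit 19737), (nat_lit 10769), (nat_lit 0), (nat_lit 0), (nat_lit 696000), [((nat_lit 320), [((nat_lit 35), (nat_lit 5), (nat_lit 174))])], ⟨(nat_lit 6), false, false, false, (nat_lit 132), (nat_lit 4472), (nat_lit 5000), [(nat_lit 1274989), (nat_lit 1288204), (nat_lit 1317824), (nat_lit 1331315), (nat_lit 1328559), (nat_lit 1339186), (nat_lit 1371392), (nat_lit 1382295)]⟩, ⟨(nat_lit 6), false, true, true, (nat_lit 280), (nat_lit 4472), (nat_lit 5000), [(nat_lit 1549999), (nat_lit 1546410), (nat_lit 1592840), (nat_lit 1589527), (nat_lit 1817842), (nat_lit 1801315), (nat_lit 1860679), (nat_lit 1844427)]⟩, (nat_lit 4743637), (nat_lit 40254005), (nat_lit 6192482), (nat_lit 20553513), (nat_lit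 0), (nat_lit 0), [⟨(nat_lit 0), (nat_lit 100), (nat_lit 88), (nat_lit 81), (nat_lit 3668357847)⟩], [], [⟨(nat_lit 0), (nat_lit 100), (nat_lit 98), (nat_lit 10), (nat_lit 647656952)⟩], [],
 ⟨⟨[(nat_lit 60), (nat_lit 100), (nat_lit 120)], [(nat_lit 0), (nat_lit 609), (nat_lit 1609)], [((nat_lit 0), (nat_lit 0), (nat_lit 0)), ((nat_lit 1000), (nat_lit 905), (nat_lit 238)), ((nat_lit 1000), (nat_lit 882), (nat_lit 668))], ((nat_lit 87), (nat_lit 100), (nat_lit 51))⟩, (nat_lit 2156717), (nat_lit 244), (nat_lit 244), (nat_lit 0), (nat_lit 231257), [(nat_lit 3277717223), (nat_lit 3992465194), (nat_lit 3871204800)], [(nat_lit 0), (nat_lit 0), (nat_lit 0)], [(nat_lit 19902526347), (nat_lit 21944021785), (nat_lit 18075749893), (nat_lit 19923537172), (nat_lit 33899627517), (nat_lit 35048137566), (nat_lit 31681757008), (nat_lit 32821414716)], (nat_lit 1271251), (nat_lit 1271251), (nat_lit 292188), (nat_lit 490000), (nat_lit 1271251), (nat_lit 1271251), [(nat_lit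 780000), (nat_lit 1435001), (nat_lit 1271251)], [(nat_lit 10), (nat_lit 54), (nat_lit 226), (nat_lit 20), (nat_lit 7)]⟩,
 ⟨⟨[(nat_lit 80), (nat_lit 120), (nat_lit 140)], [(nat_lit 0), (nat_lit 0), (nat_lit 1164)], [((nat_lit 0), (nat_lit 0), (nat_lit 0)), ((nat_lit 0), (nat_lit 0), (nat_lit 0)), ((nat_lit 941), (nat_lit 1000), (nat_lit 576))], ((nat_lit 100), (nat_lit 96), (nat_lit 52))⟩, (nat_lit 647729), (nat_lit 326), (nat_lit 326), (nat_lit 0), (nat_lit 152352), [(nat_lit 3872288000), (nat_lit 6581568000), (nat_lit 8129492000)], [], [(nat_lit 33867432777), (nat_lit 38098564404), (nat_lit 21177667424), (nat_lit 28730602308), (nat_lit 26660845482), (nat_lit 16930180005), (nat_lit 28882328544), (nat_lit 11108647286)], (nat_lit 1271251), (nat_lit 1271251), (nat_lit 292188), (nat_lit 490000), (nat_lit 0), (nat_lit 780000), [(nat_lit 1100000), (nat_lit 1785001), (nat_lit 1271251)], [(nat_lit 17), (nat_lit 58), (nat_lit 345), (nat_lit 125), (nat_lit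 10)]⟩,
 ⟨⟨[(nat_lit 120), (nat_lit 140), (nat_lit 160)], [(nat_lit 0), (nat_lit 266), (nat_lit 862)], [((nat_lit 0), (nat_lit 0), (nat_lit 0)), ((nat_lit 960), (nat_lit 1000), (nat_lit 200)), ((nat_lit 874), (nat_lit 1000), (nat_lit 406))], ((nat_lit 100), (nat_lit 81), (nat_lit 51))⟩, (nat_lit 1695474), (nat_lit 300), (nat_lit 593), (nat_lit 54846400), (nat_lit 701229), [(nat_lit 6581568000), (nat_lit 8129492000), (nat_lit 9806272000)], [], [(nat_lit 33943346871), (nat_lit 33563472949), (nat_lit 40526250987), (nat_lit 40566916727), (nat_lit 26101199264), (nat_lit 25690338939), (nat_lit 30836125671), (nat_lit 30385514705)], (nat_lit 1271251), (nat_lit 1271251), (nat_lit 1271251), (nat_lit 1271251), (nat_lit 0), (nat_lit 780000), [(nat_lit 1695001), (nat_lit 1271251), (nat_lit 1271251)], [(nat_lit 27), (nat_lit 62), (nat_lit 428), (nat_lit 200), (nat_lit 11)]⟩⟩) (.leaf ⟨(nat_lit 0), (nat_lit 165), (nat_lit 0), (nat_lit 835), (nat_lit 0), (nat_lit 8159),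 (nat_lit 16354), (nat_lit 9121), (nat_lit 0), (nat_lit 0), (nat_lit 0), [], Pd.none, Pd.none, (nat_lit 0), (nat_lit 1), (nat_lit 0), (nat_lit 0), (nat_lit 6), (nat_lit 0), [], [], [⟨(nat_lit 0), (nat_lit 100), (nat_lit 95), (nat_lit 30), (nat_lit 592463203)⟩], [],
 ⟨⟨[(nat_lit 60), (nat_lit 100), (nat_lit 120)], [(nat_lit 0), (nat_lit 609), (nat_lit 1609)], [((nat_lit 0), (nat_lit 0), (nat_lit 0)), ((nat_lit 1000), (nat_lit 905), (nat_lit 238)), ((nat_lit 1000), (nat_lit 882), (nat_lit 668))], ((nat_lit 87), (nat_lit 100), (nat_lit 51))⟩, (nat_lit 3217876), (nat_lit 206), (nat_lit 206), (nat_lit 0), (nat_lit 231257), [(nat_lit 3980345814), (nat_lit 6250000032), (nat_lit 7968000000)], [], [(nat_lit 18584699090), (nat_lit 20659334572), (nat_lit 18337334577), (nat_lit 20357996124), (nat_lit 34104998139), (nat_lit 35369496916), (nat_lit 33073220723), (nat_lit 34271995021)], (nat_lit 1271251), (nat_lit 1271251), (nat_lit 490000), (nat_lit 780000), (nat_lit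 1271251), (nat_lit 1271251), [(nat_lit 780000), (nat_lit 1435001), (nat_lit 1271251)], [(nat_lit 10), (nat_lit 54), (nat_lit 238), (nat_lit 30), (nat_lit 7)]⟩,
 ⟨⟨[(nat_lit 80), (nat_lit 120), (nat_lit 140)], [(nat_lit 0), (nat_lit 0), (nat_lit 1164)], [((nat_lit 0), (nat_lit 0), (nat_lit 0)), ((nat_lit 0), (nat_lit 0), (nat_lit 0)), ((nat_lit 941), (nat_lit 1000), (nat_lit 576))], ((nat_lit 100), (nat_lit 96), (nat_lit 52))⟩, (nat_lit 5230028), (nat_lit 293), (nat_lit 293), (nat_lit 0), (nat_lit 152352), [(nat_lit 4688000000), (nat_lit 7968000000), (nat_lit 9842000000)], [], [(nat_lit 31568528064), (nat_lit 26714954848), (nat_lit 35965867780), (nat_lit 25388828992), (nat_lit 38937297264), (nat_lit 23828752488), (nat_lit 43959392488), (nat_lit 29046122649)], (nat_lit 1271251), (nat_lit 1271251), (nat_lit 490000), (nat_lit 780000), (nat_lit 0), (nat_lit 780000), [(nat_lit 1100000), (nat_lit 1785001), (nat_lit 1271251)], [(nat_lit 17), (nat_lit 58),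 (nat_lit 373), (nat_lit 150), (nat_lit 11)]⟩,
 ⟨⟨[(nat_lit 120), (nat_lit 140), (nat_lit 160)], [(nat_lit 0), (nat_lit 266), (nat_lit 862)], [((nat_lit 0), (nat_lit 0), (nat_lit 0)), ((nat_lit 960), (nat_lit 1000), (nat_lit 200)), ((nat_lit 874), (nat_lit 1000), (nat_lit 406))], ((nat_lit 100), (nat_lit 81), (nat_lit 51))⟩, (nat_lit 1713947), (nat_lit 300), (nat_lit 593), (nat_lit 55444001), (nat_lit 701229), [(nat_lit 6653280000), (nat_lit 8218070000), (nat_lit 9913120000)], [], [(nat_lit 37447252517), (nat_lit 37227391231), (nat_lit 40814710455), (nat_lit 40502423474), (nat_lit 31124682957), (nat_lit 30778064874), (nat_lit 33901948181), (nat_lit 33296885695)], (nat_lit 1271251), (nat_lit 1271251), (nat_lit 1271251), (nat_lit 1271251), (nat_lit 0), (nat_lit 780000), [(nat_lit 1695001), (nat_lit 1271251), (nat_lit 1271251)], [(nat_lit 27), (nat_lit 62), (nat_lit 428), (nat_lit 200), (nat_lit 11)]⟩⟩)) (.leaf ⟨(nat_lit 0), (nat_lit 0), (nat_lit 0),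 (nat_lit 1000), (nat_lit 0), (nat_lit 6412), (nat_lit 12241), (nat_lit 12196), (nat_lit 0), (nat_lit 0), (nat_lit 0), [], Pd.none, Pd.none, (nat_lit 0), (nat_lit 1), (nat_lit 0), (nat_lit 0), (nat_lit 0), (nat_lit 0), [⟨(nat_lit 0), (nat_lit 100), (nat_lit 88), (nat_lit 81), (nat_lit 2027084348)⟩], [], [], [],
 ⟨⟨[(nat_lit 60), (nat_lit 100), (nat_lit 120)], [(nat_lit 0), (nat_lit 609), (nat_lit 1609)], [((nat_lit 0), (nat_lit 0), (nat_lit 0)), ((nat_lit 1000), (nat_lit 905), (nat_lit 238)), ((nat_lit 1000), (nat_lit 882), (nat_lit 668))], ((nat_lit 87), (nat_lit 100), (nat_lit 51))⟩, (nat_lit 5758834), (nat_lit 244), (nat_lit 244), (nat_lit 0), (nat_lit 231257), [(nat_lit 3282000407), (nat_lit 6250000518), (nat_lit 7968000000)], [], [(nat_lit 19773581606), (nat_lit 21776499880), (nat_lit 18691334707), (nat_lit 19792604032), (nat_lit 33513600381), (nat_lit 34646174875), (nat_lit 30735310638), (nat_lit 31804428711)], (nat_lit 1271251), (nat_lit 1271251),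 (nat_lit 292188), (nat_lit 780000), (nat_lit 1271251), (nat_lit 1271251), [(nat_lit 780000), (nat_lit 1435001), (nat_lit 1271251)], [(nat_lit 10), (nat_lit 54), (nat_lit 238), (nat_lit 30), (nat_lit 7)]⟩,
 ⟨⟨[(nat_lit 80), (nat_lit 120), (nat_lit 140)], [(nat_lit 0), (nat_lit 0), (nat_lit 1164)], [((nat_lit 0), (nat_lit 0), (nat_lit 0)), ((nat_lit 0), (nat_lit 0), (nat_lit 0)), ((nat_lit 941), (nat_lit 1000), (nat_lit 576))], ((nat_lit 100), (nat_lit 96), (nat_lit 52))⟩, (nat_lit 3916274), (nat_lit 297), (nat_lit 297), (nat_lit 0), (nat_lit 294450), [(nat_lit 4688000000), (nat_lit 7968000000), (nat_lit 9842000000)], [], [(nat_lit 44968898163), (nat_lit 32164637728), (nat_lit 22524886951), (nat_lit 18023633077), (nat_lit 42962398145), (nat_lit 39916312380), (nat_lit 49364544131), (nat_lit 38521238342)], (nat_lit 1271251), (nat_lit 1271251), (nat_lit 292188), (nat_lit 780000), (nat_lit 780000), (nat_lit 2826876), [(nat_lit 1100000), (nat_lit 1785001),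 (nat_lit 1271251)], [(nat_lit 17), (nat_lit 58), (nat_lit 428), (nat_lit 200), (nat_lit 12)]⟩,
 ⟨⟨[(nat_lit 120), (nat_lit 140), (nat_lit 160)], [(nat_lit 0), (nat_lit 266), (nat_lit 862)], [((nat_lit 0), (nat_lit 0), (nat_lit 0)), ((nat_lit 960), (nat_lit 1000), (nat_lit 200)), ((nat_lit 874), (nat_lit 1000), (nat_lit 406))], ((nat_lit 100), (nat_lit 81), (nat_lit 51))⟩, (nat_lit 2052632), (nat_lit 300), (nat_lit 699), (nat_lit 66400000), (nat_lit 1105336), [(nat_lit 7968000000), (nat_lit 9842000000), (nat_lit 11872000000)], [], [(nat_lit 34087358310), (nat_lit 33393969594), (nat_lit 38349797328), (nat_lit 37850289733), (nat_lit 35167143945), (nat_lit 33778766881), (nat_lit 42823411948), (nat_lit 42532115537)], (nat_lit 1271251), (nat_lit 1271251), (nat_lit 1271251), (nat_lit 1271251), (nat_lit 780000), (nat_lit 2826876), [(nat_lit 1695001), (nat_lit 1271251), (nat_lit 1271251)], [(nat_lit 27), (nat_lit 62), (nat_lit 483), (nat_lit 250), (nat_lit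 12)]⟩⟩)) (.dle (nat_lit 0))) (.trZ (nat_lit 0) (nat_lit 1) (nat_lit 3) (nat_lit 100) (nat_lit 94) (nat_lit 88) (nat_lit 80) (.spl (nat_lit 5) (nat_lit 120) (.leaf ⟨(nat_lit 0), (nat_lit 457), (nat_lit 0), (nat_lit 543), (nat_lit 0), (nat_lit 6339), (nat_lit 9038), (nat_lit 5710), (nat_lit 535033), (nat_lit 0), (nat_lit 0), [], Pd.none, Pd.none, (nat_lit 0), (nat_lit 1), (nat_lit 0), (nat_lit 0), (nat_lit 6), (nat_lit 0), [⟨(nat_lit 0), (nat_lit 97), (nat_lit 93), (nat_lit 100), (nat_lit 834715607)⟩], [], [⟨(nat_lit 0), (nat_lit 100), (nat_lit 87), (nat_lit 50), (nat_lit 723974528)⟩], [],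
 ⟨⟨[(nat_lit 60), (nat_lit 100), (nat_lit 120)], [(nat_lit 0), (nat_lit 609), (nat_lit 1609)], [((nat_lit 0), (nat_lit 0), (nat_lit 0)), ((nat_lit 1000), (nat_lit 905), (nat_lit 238)), ((nat_lit 1000), (nat_lit 882), (nat_lit 668))], ((nat_lit 87), (nat_lit 100), (nat_lit 60))⟩, (nat_lit 2880136), (nat_lit 266), (nat_lit 266), (nat_lit 0), (nat_lit 367419), [(nat_lit 3282000119), (nat_lit 6250000059), (nat_lit 7968000000)], [], [(nat_lit 22402503548), (nat_lit 23432372137), (nat_lit 22392848211), (nat_lit 23363578917), (nat_lit 31259644037), (nat_lit 32377555236), (nat_lit 30637618918), (nat_lit 31701319186)], (nat_lit 1271251), (nat_lit 1271251), (nat_lit 490000), (nat_lit 780000), (nat_lit 1271251), (nat_lit 1271251), [(nat_lit 780000), (nat_lit 1435001), (nat_lit 1271251)], [(nat_lit 10), (nat_lit 54), (nat_lit 238), (nat_lit 30), (nat_lit 7)]⟩,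
 ⟨⟨[(nat_lit 60), (nat_lit 100), (nat_lit 140)], [(nat_lit 0), (nat_lit 0), (nat_lit 2047)], [((nat_lit 0), (nat_lit 0), (nat_lit 0)), ((nat_lit 0), (nat_lit 0), (nat_lit 0)), ((nat_lit 1000), (nat_lit 993), (nat_lit 781))], ((nat_lit 94), (nat_lit 100), (nat_lit 62))⟩, (nat_lit 4276072), (nat_lit 325), (nat_lit 325), (nat_lit 0), (nat_lit 209992), [(nat_lit 3282000000), (nat_lit 6250000000), (nat_lit 9842000000)], [], [(nat_lit 21749064220), (nat_lit 25948935504), (nat_lit 21397376864), (nat_lit 25312842080), (nat_lit 16460950832), (nat_lit 20118219840), (nat_lit 17273235835), (nat_lit 19911399984)], (nat_lit 1271251), (nat_lit 1271251), (nat_lit 490000), (nat_lit 780000), (nat_lit 0), (nat_lit 780000), [(nat_lit 780000), (nat_lit 1435001), (nat_lit 1271251)], [(nat_lit 11), (nat_lit 55), (nat_lit 272), (nat_lit 60), (nat_lit 8)]⟩,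
 ⟨⟨[(nat_lit 120), (nat_lit 160), (nat_lit 180)], [(nat_lit 0), (nat_lit 533), (nat_lit 2066)], [((nat_lit 0), (nat_lit 0), (nat_lit 0)), ((nat_lit 960), (nat_lit 1000), (nat_lit 200)), ((nat_lit 615), (nat_lit 1000), (nat_lit 729))], ((nat_lit 100), (nat_lit 74), (nat_lit 60))⟩, (nat_lit 1271415), (nat_lit 300), (nat_lit 903), (nat_lit 36055200), (nat_lit 1187800), [(nat_lit 4326624000), (nat_lit 6446496000), (nat_lit 7633494000)], [], [(nat_lit 30046016830), (nat_lit 29531940458), (nat_lit 30303933076), (nat_lit 29777791162), (nat_lit 26224451792), (nat_lit 25627778712), (nat_lit 25831455842), (nat_lit 25323072354)], (nat_lit 1271251), (nat_lit 1271251), (nat_lit 1271251), (nat_lit 1271251), (nat_lit 0), (nat_lit 780000), [(nat_lit 1695001), (nat_lit 1271251), (nat_lit 1271251)], [(nat_lit 28), (nat_lit 65), (nat_lit 428), (nat_lit 200), (nat_lit 10)]⟩⟩) (.leaf ⟨(nat_lit 0), (nat_lit 222), (nat_lit 0), (nat_lit 778), (nat_lit 0), (nat_lit 6225),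 (nat_lit 12797), (nat_lit 7801), (nat_lit 1887605), (nat_lit 0), (nat_lit 0), [], Pd.none, Pd.none, (nat_lit 0), (nat_lit 1), (nat_lit 0), (nat_lit 0), (nat_lit 6), (nat_lit 0), [⟨(nat_lit 0), (nat_lit 97), (nat_lit 93), (nat_lit 100), (nat_lit 3524885274)⟩], [], [], [],
 ⟨⟨[(nat_lit 60), (nat_lit 100), (nat_lit 120)], [(nat_lit 0), (nat_lit 609), (nat_lit 1609)], [((nat_lit 0), (nat_lit 0), (nat_lit 0)), ((nat_lit 1000), (nat_lit 905), (nat_lit 238)), ((nat_lit 1000), (nat_lit 882), (nat_lit 668))], ((nat_lit 87), (nat_lit 100), (nat_lit 60))⟩, (nat_lit 6105606), (nat_lit 266), (nat_lit 266), (nat_lit 0), (nat_lit 367419), [(nat_lit 3282000882), (nat_lit 6250000482), (nat_lit 7968000000)], [], [(nat_lit 18764583438), (nat_lit 19785635438), (nat_lit 18769154788), (nat_lit 19732084100), (nat_lit 31081418560), (nat_lit 32190147900), (nat_lit 30485059244), (nat_lit 31540298832)], (nat_lit 1271251), (nat_lit 1271251), (nat_lit 490000), (nat_lit 780000),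 (nat_lit 1271251), (nat_lit 1271251), [(nat_lit 780000), (nat_lit 1435001), (nat_lit 1271251)], [(nat_lit 10), (nat_lit 54), (nat_lit 238), (nat_lit 30), (nat_lit 7)]⟩,
 ⟨⟨[(nat_lit 60), (nat_lit 100), (nat_lit 140)], [(nat_lit 0), (nat_lit 0), (nat_lit 2047)], [((nat_lit 0), (nat_lit 0), (nat_lit 0)), ((nat_lit 0), (nat_lit 0), (nat_lit 0)), ((nat_lit 1000), (nat_lit 993), (nat_lit 781))], ((nat_lit 94), (nat_lit 100), (nat_lit 62))⟩, (nat_lit 3493513), (nat_lit 305), (nat_lit 305), (nat_lit 0), (nat_lit 376616), [(nat_lit 3282000000), (nat_lit 6250000000), (nat_lit 9842000000)], [], [(nat_lit 22369699867), (nat_lit 18825258789), (nat_lit 13192395130), (nat_lit 17809097901), (nat_lit 36251943232), (nat_lit 39942310284), (nat_lit 35906001211), (nat_lit 37942444539)], (nat_lit 1271251), (nat_lit 1271251), (nat_lit 490000), (nat_lit 780000), (nat_lit 780000), (nat_lit 2826876), [(nat_lit 780000), (nat_lit 1435001), (nat_lit 1271251)], [(nat_lit 11),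 (nat_lit 55), (nat_lit 345), (nat_lit 125), (nat_lit 10)]⟩,
 ⟨⟨[(nat_lit 120), (nat_lit 160), (nat_lit 180)], [(nat_lit 0), (nat_lit 533), (nat_lit 2066)], [((nat_lit 0), (nat_lit 0), (nat_lit 0)), ((nat_lit 960), (nat_lit 1000), (nat_lit 200)), ((nat_lit 615), (nat_lit 1000), (nat_lit 729))], ((nat_lit 100), (nat_lit 74), (nat_lit 60))⟩, (nat_lit 1821659), (nat_lit 300), (nat_lit 1166), (nat_lit 51659200), (nat_lit 1965779), [(nat_lit 6199104000), (nat_lit 9236416000), (nat_lit 10937124000)], [], [(nat_lit 39990706710), (nat_lit 39122176421), (nat_lit 38579477091), (nat_lit 37768750084), (nat_lit 35628641708), (nat_lit 34805915574), (nat_lit 35015078685), (nat_lit 34298315275)], (nat_lit 1271251), (nat_lit 1271251), (nat_lit 1271251), (nat_lit 1271251), (nat_lit 780000), (nat_lit 2826876), [(nat_lit 1695001), (nat_lit 1271251), (nat_lit 1271251)], [(nat_lit 28), (nat_lit 65), (nat_lit 483), (nat_lit 250), (nat_lit 11)]⟩⟩))))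
noncomputable def c4_31 : Tr Lf :=
 (.spl (nat_lit 4) (nat_lit 240) (.spl (nat_lit 5) (nat_lit 200) (.leaf ⟨(nat_lit 0), (nat_lit 865), (nat_lit 0), (nat_lit 135), (nat_lit 0), (nat_lit 7042), (nat_lit 7014), (nat_lit 7031), (nat_lit 10166133344629), (nat_lit 0), (nat_lit 0), [], Pd.none, Pd.none, (nat_lit 0), (nat_lit 1), (nat_lit 0), (nat_lit 0), (nat_lit 3), (nat_lit 0), [⟨(nat_lit 0), (nat_lit 83), (nat_lit 83), (nat_lit 100), (nat_lit 77466682)⟩], [], [⟨(nat_lit 0), (nat_lit 100), (nat_lit 93), (nat_lit 26), (nat_lit 181478815)⟩], [],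
 ⟨⟨[(nat_lit 60), (nat_lit 80), (nat_lit 100)], [(nat_lit 0), (nat_lit 304), (nat_lit 825)], [((nat_lit 0), (nat_lit 0), (nat_lit 0)), ((nat_lit 1000), (nat_lit 905), (nat_lit 238)), ((nat_lit 1000), (nat_lit 871), (nat_lit 407))], ((nat_lit 87), (nat_lit 100), (nat_lit 44))⟩, (nat_lit 2525878), (nat_lit 300), (nat_lit 336), (nat_lit 54700001), (nat_lit 703622), [(nat_lit 3282000001), (nat_lit 4968343398), (nat_lit 6250000000)], [], [(nat_lit 26319745980), (nat_lit 25333127829), (nat_lit 32582987693), (nat_lit 33641614704), (nat_lit 25793027707), (nat_lit 26598347046), (nat_lit 37798406237), (nat_lit 34709698427)], (nat_lit 1271251), (nat_lit 1271251), (nat_lit 780000), (nat_lit 3072501), (nat_lit 780000), (nat_lit 1762501), [(nat_lit 780000), (nat_lit 1100000), (nat_lit 1442501)], [(nat_lit 9), (nat_lit 50), (nat_lit 401), (nat_lit 175), (nat_lit 15)]⟩,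
 ⟨⟨[(nat_lit 80), (nat_lit 120), (nat_lit 140)], [(nat_lit 0), (nat_lit 0), (nat_lit 1164)], [((nat_lit 0), (nat_lit 0), (nat_lit 0)), ((nat_lit 0), (nat_lit 0), (nat_lit 0)), ((nat_lit 941), (nat_lit 1000), (nat_lit 576))], ((nat_lit 100), (nat_lit 99), (nat_lit 44))⟩, (nat_lit 4007369), (nat_lit 230), (nat_lit 230), (nat_lit 0), (nat_lit 0), [(nat_lit 4688000000), (nat_lit 7968000000), (nat_lit 9842000000)], [], [(nat_lit 21677439232), (nat_lit 27955439936), (nat_lit 38112490096), (nat_lit 41463919624), (nat_lit 20216520952), (nat_lit 25209286418), (nat_lit 32391465960), (nat_lit 35028148288)], (nat_lit 0), (nat_lit 0), (nat_lit 0), (nat_lit 0), (nat_lit 0), (nat_lit 0), [], [(nat_lit 17), (nat_lit 58), (nat_lit 483), (nat_lit 250), (nat_lit 14)]⟩,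
 ⟨⟨[(nat_lit 140), (nat_lit 160), (nat_lit 180)], [(nat_lit 0), (nat_lit 0), (nat_lit 799)], [((nat_lit 0), (nat_lit 0), (nat_lit 0)), ((nat_lit 0), (nat_lit 0), (nat_lit 0)), ((nat_lit 728), (nat_lit 1000), (nat_lit 454))], ((nat_lit 100), (nat_lit 71), (nat_lit 48))⟩, (nat_lit 3638088), (nat_lit 300), (nat_lit 392), (nat_lit 10017000), (nat_lit 0), [(nat_lit 1328670000), (nat_lit 1602720000), (nat_lit 1897830000)], [], [(nat_lit 8683272648), (nat_lit 7132182607), (nat_lit 6695519340), (nat_lit 5981880108), (nat_lit 462771261), (nat_lit 0), (nat_lit 0), (nat_lit 0)], (nat_lit 0), (nat_lit 0), (nat_lit 0), (nat_lit 0), (nat_lit 0), (nat_lit 0), [], [(nat_lit 31), (nat_lit 65), (nat_lit 401), (nat_lit 175), (nat_lit 10)]⟩⟩) (.leaf ⟨(nat_lit 0), (nat_lit 0), (nat_lit 0), (nat_lit 1000), (nat_lit 0), (nat_lit 6797), (nat_lit 8360), (nat_lit 17126), (nat_lit 2742259276931), (nat_lit 0), (nat_lit 0), [], Pd.none, Pd.none, (nat_lit 0), (nat_lit 1), (nat_lit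 0), (nat_lit 0), (nat_lit 0), (nat_lit 0), [⟨(nat_lit 0), (nat_lit 83), (nat_lit 83), (nat_lit 100), (nat_lit 218612145)⟩], [], [⟨(nat_lit 1), (nat_lit 54), (nat_lit 93), (nat_lit 100), (nat_lit 163563228)⟩], [],
 ⟨⟨[(nat_lit 60), (nat_lit 80), (nat_lit 100)], [(nat_lit 0), (nat_lit 304), (nat_lit 825)], [((nat_lit 0), (nat_lit 0), (nat_lit 0)), ((nat_lit 1000), (nat_lit 905), (nat_lit 238)), ((nat_lit 1000), (nat_lit 871), (nat_lit 407))], ((nat_lit 87), (nat_lit 100), (nat_lit 44))⟩, (nat_lit 1026316), (nat_lit 300), (nat_lit 336), (nat_lit 54700001), (nat_lit 703622), [(nat_lit 3282000008), (nat_lit 4688000021), (nat_lit 6250000000)], [], [(nat_lit 26328245289), (nat_lit 26062438916), (nat_lit 32796193636), (nat_lit 33274577264), (nat_lit 26575201900), (nat_lit 27369226659), (nat_lit 39071894809), (nat_lit 36052850928)], (nat_lit 1271251), (nat_lit 1271251), (nat_lit 780000), (nat_lit 3072501), (nat_lit 780000), (nat_lit 1762501), [(nat_lit 780000),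 (nat_lit 1100000), (nat_lit 1442501)], [(nat_lit 9), (nat_lit 50), (nat_lit 401), (nat_lit 175), (nat_lit 15)]⟩,
 ⟨⟨[(nat_lit 80), (nat_lit 120), (nat_lit 140)], [(nat_lit 0), (nat_lit 0), (nat_lit 1164)], [((nat_lit 0), (nat_lit 0), (nat_lit 0)), ((nat_lit 0), (nat_lit 0), (nat_lit 0)), ((nat_lit 941), (nat_lit 1000), (nat_lit 576))], ((nat_lit 100), (nat_lit 99), (nat_lit 44))⟩, (nat_lit 2487068), (nat_lit 143), (nat_lit 143), (nat_lit 0), (nat_lit 0), [(nat_lit 4688000000), (nat_lit 7968000000), (nat_lit 9842000000)], [], [(nat_lit 18918263768), (nat_lit 24857441448), (nat_lit 32054501408), (nat_lit 34702139200), (nat_lit 32758685248), (nat_lit 35616126320), (nat_lit 40149004480), (nat_lit 41807962240)], (nat_lit 0), (nat_lit 0), (nat_lit 0), (nat_lit 0), (nat_lit 0), (nat_lit 0), [], [(nat_lit 17), (nat_lit 58), (nat_lit 538), (nat_lit 300), (nat_lit 15)]⟩,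
 ⟨⟨[(nat_lit 140), (nat_lit 160), (nat_lit 180)], [(nat_lit 0), (nat_lit 0), (nat_lit 799)], [((nat_lit 0), (nat_lit 0), (nat_lit 0)), ((nat_lit 0), (nat_lit 0), (nat_lit 0)), ((nat_lit 728), (nat_lit 1000), (nat_lit 454))], ((nat_lit 100), (nat_lit 71), (nat_lit 48))⟩, (nat_lit 8238262), (nat_lit 240), (nat_lit 240), (nat_lit 0), (nat_lit 0), [(nat_lit 9842000000), (nat_lit 11872000000), (nat_lit 14058000000)], [], [(nat_lit 21399795356), (nat_lit 22508996377), (nat_lit 22366346070), (nat_lit 22033994331), (nat_lit 42397150988), (nat_lit 41342210571), (nat_lit 40836092744), (nat_lit 39478203198)], (nat_lit 0), (nat_lit 0), (nat_lit 0), (nat_lit 0), (nat_lit 0), (nat_lit 0), [], [(nat_lit 31), (nat_lit 65), (nat_lit 456), (nat_lit 225), (nat_lit 10)]⟩⟩)) (.leaf ⟨(nat_lit 0), (nat_lit 0), (nat_lit 0), (nat_lit 1000), (nat_lit 0), (nat_lit 7856), (nat_lit 7014), (nat_lit 18294), (nat_lit 2623430), (nat_lit 0), (nat_lit 0), [], Pd.none, Pd.none, (nat_lit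 0), (nat_lit 1), (nat_lit 0), (nat_lit 0), (nat_lit 0), (nat_lit 0), [⟨(nat_lit 0), (nat_lit 83), (nat_lit 83), (nat_lit 100), (nat_lit 232065704)⟩], [], [⟨(nat_lit 0), (nat_lit 100), (nat_lit 93), (nat_lit 26), (nat_lit 483470807)⟩], [],
 ⟨⟨[(nat_lit 60), (nat_lit 80), (nat_lit 100)], [(nat_lit 0), (nat_lit 304), (nat_lit 825)], [((nat_lit 0), (nat_lit 0), (nat_lit 0)), ((nat_lit 1000), (nat_lit 905), (nat_lit 238)), ((nat_lit 1000), (nat_lit 871), (nat_lit 407))], ((nat_lit 87), (nat_lit 100), (nat_lit 44))⟩, (nat_lit 1026318), (nat_lit 300), (nat_lit 334), (nat_lit 54700001), (nat_lit 703622), [(nat_lit 3282000002), (nat_lit 4688000126), (nat_lit 6250000000)], [], [(nat_lit 23186947680), (nat_lit 24034140447), (nat_lit 33557573368), (nat_lit 34431479296), (nat_lit 32667733169), (nat_lit 33844019868), (nat_lit 40133981581), (nat_lit 40581319660)], (nat_lit 1271251), (nat_lit 1271251), (nat_lit 780000), (nat_lit 3072501), (nat_lit 1271251), (nat_lit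 1271251), [(nat_lit 780000), (nat_lit 1100000), (nat_lit 1442501)], [(nat_lit 9), (nat_lit 50), (nat_lit 317), (nat_lit 100), (nat_lit 11)]⟩,
 ⟨⟨[(nat_lit 80), (nat_lit 120), (nat_lit 140)], [(nat_lit 0), (nat_lit 0), (nat_lit 1164)], [((nat_lit 0), (nat_lit 0), (nat_lit 0)), ((nat_lit 0), (nat_lit 0), (nat_lit 0)), ((nat_lit 941), (nat_lit 1000), (nat_lit 576))], ((nat_lit 100), (nat_lit 99), (nat_lit 44))⟩, (nat_lit 4254985), (nat_lit 230), (nat_lit 230), (nat_lit 0), (nat_lit 0), [(nat_lit 4688000000), (nat_lit 7968000000), (nat_lit 9842000000)], [], [(nat_lit 21389214208), (nat_lit 27955432904), (nat_lit 38112490096), (nat_lit 41463919624), (nat_lit 32525534136), (nat_lit 35587449160), (nat_lit 38711630864), (nat_lit 39878478464)], (nat_lit 0), (nat_lit 0), (nat_lit 0), (nat_lit 0), (nat_lit 0), (nat_lit 0), [], [(nat_lit 17), (nat_lit 58), (nat_lit 538), (nat_lit 300), (nat_lit 16)]⟩,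
 ⟨⟨[(nat_lit 140), (nat_lit 160), (nat_lit 180)], [(nat_lit 0), (nat_lit 0), (nat_lit 799)], [((nat_lit 0), (nat_lit 0), (nat_lit 0)), ((nat_lit 0), (nat_lit 0), (nat_lit 0)), ((nat_lit 728), (nat_lit 1000), (nat_lit 454))], ((nat_lit 100), (nat_lit 71), (nat_lit 48))⟩, (nat_lit 6104236), (nat_lit 300), (nat_lit 378), (nat_lit 74200000), (nat_lit 0), [(nat_lit 9842000000), (nat_lit 11872000000), (nat_lit 14058000000)], [], [(nat_lit 52507568960), (nat_lit 49038152240), (nat_lit 62244404262), (nat_lit 61364760499), (nat_lit 42208777736), (nat_lit 40597816462), (nat_lit 59237634250), (nat_lit 54155115533)], (nat_lit 0), (nat_lit 0), (nat_lit 0), (nat_lit 0), (nat_lit 0), (nat_lit 0), [], [(nat_lit 31), (nat_lit 65), (nat_lit 538), (nat_lit 300), (nat_lit 12)]⟩⟩))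
def l003 : List St := [⟨⟨(nat_lit 300), (nat_lit 320), (nat_lit 240), (nat_lit 280), (nat_lit 120), (nat_lit 200), (nat_lit 50), (nat_lit 80), (nat_lit 0), (nat_lit 80), (nat_lit 0), (nat_lit 400), (nat_lit 0), (nat_lit 12)⟩, (nat_lit 3), (nat_lit 3), (nat_lit 3), true, true, false⟩,
  ⟨⟨(nat_lit 300), (nat_lit 320), (nat_lit 240), (nat_lit 280), (nat_lit 120), (nat_lit 200), (nat_lit 50), (nat_lit 80), (nat_lit 0), (nat_lit 80), (nat_lit 0), (nat_lit 400), (nat_lit 12), (nat_lit 20)⟩, (nat_lit 3), (nat_lit 3), (nat_lit 3), true, true, false⟩,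
  ⟨⟨(nat_lit 300), (nat_lit 320), (nat_lit 240), (nat_lit 280), (nat_lit 120), (nat_lit 200), (nat_lit 80), (nat_lit 120), (nat_lit 0), (nat_lit 80), (nat_lit 0), (nat_lit 400), (nat_lit 0), (nat_lit 20)⟩, (nat_lit 3), (nat_lit 3), (nat_lit 3), true, true, false⟩,
  ⟨⟨(nat_lit 300), (nat_lit 320), (nat_lit 240), (nat_lit 280), (nat_lit 120), (nat_lit 200), (nat_lit 50), (nat_lit 120), (nat_lit 0), (nat_lit 80), (nat_lit 0), (nat_lit 400), (nat_lit 20), (nat_lit 40)⟩, (nat_lit 3), (nat_lit 3), (nat_lit 3), true, true, false⟩,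
  ⟨⟨(nat_lit 300), (nat_lit 320), (nat_lit 240), (nat_lit 280), (nat_lit 200), (nat_lit 280), (nat_lit 50), (nat_lit 120), (nat_lit 0), (nat_lit 80), (nat_lit 0), (nat_lit 400), (nat_lit 0), (nat_lit 40)⟩, (nat_lit 3), (nat_lit 3), (nat_lit 3), true, true, false⟩,
  ⟨⟨(nat_lit 300), (nat_lit 320), (nat_lit 240), (nat_lit 280), (nat_lit 120), (nat_lit 280), (nat_lit 50), (nat_lit 120), (nat_lit 80), (nat_lit 120), (nat_lit 0), (nat_lit 400), (nat_lit 0), (nat_lit 40)⟩, (nat_lit 3), (nat_lit 3), (nat_lit 3), true, true, false⟩,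
  ⟨⟨(nat_lit 300), (nat_lit 320), (nat_lit 280), (nat_lit 320), (nat_lit 120), (nat_lit 320), (nat_lit 50), (nat_lit 120), (nat_lit 0), (nat_lit 120), (nat_lit 0), (nat_lit 400), (nat_lit 0), (nat_lit 40)⟩, (nat_lit 3), (nat_lit 3), (nat_lit 3), true, true, false⟩,
  ⟨⟨(nat_lit 300), (nat_lit 320), (nat_lit 240), (nat_lit 320), (nat_lit 120), (nat_lit 320), (nat_lit 50), (nat_lit 120), (nat_lit 0), (nat_lit 120), (nat_lit 0), (nat_lit 400), (nat_lit 40), (nat_lit 76)⟩, (nat_lit 3), (nat_lit 3), (nat_lit 3), true, true, false⟩,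
  ⟨⟨(nat_lit 300), (nat_lit 320), (nat_lit 240), (nat_lit 320), (nat_lit 120), (nat_lit 220), (nat_lit 120), (nat_lit 400), (nat_lit 0), (nat_lit 120), (nat_lit 0), (nat_lit 400), (nat_lit 0), (nat_lit 40)⟩, (nat_lit 3), (nat_lit 0), (nat_lit 3), false, true, false⟩,
  ⟨⟨(nat_lit 300), (nat_lit 320), (nat_lit 240), (nat_lit 320), (nat_lit 120), (nat_lit 220), (nat_lit 120), (nat_lit 200), (nat_lit 0), (nat_lit 120), (nat_lit 0), (nat_lit 400), (nat_lit 0), (nat_lit 40)⟩, (nat_lit 3), (nat_lit 1), (nat_lit 3), false, true, false⟩,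
  ⟨⟨(nat_lit 300), (nat_lit 320), (nat_lit 240), (nat_lit 320), (nat_lit 120), (nat_lit 220), (nat_lit 200), (nat_lit 280), (nat_lit 0), (nat_lit 120), (nat_lit 0), (nat_lit 400), (nat_lit 0), (nat_lit 40)⟩, (nat_lit 3), (nat_lit 1), (nat_lit 3), false, true, false⟩,
  ⟨⟨(nat_lit 300), (nat_lit 320), (nat_lit 240), (nat_lit 320), (nat_lit 120), (nat_lit 220), (nat_lit 280), (nat_lit 400), (nat_lit 0), (nat_lit 120), (nat_lit 0), (nat_lit 400), (nat_lit 0), (nat_lit 40)⟩, (nat_lit 3), (nat_lit 1), (nat_lit 3), false, true, false⟩,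
  ⟨⟨(nat_lit 300), (nat_lit 320), (nat_lit 240), (nat_lit 320), (nat_lit 220), (nat_lit 320), (nat_lit 120), (nat_lit 400), (nat_lit 30), (nat_lit 120), (nat_lit 0), (nat_lit 400), (nat_lit 0), (nat_lit 40)⟩, (nat_lit 3), (nat_lit 0), (nat_lit 3), false, true, false⟩,
  ⟨⟨(nat_lit 300), (nat_lit 320), (nat_lit 240), (nat_lit 320), (nat_lit 220), (nat_lit 320), (nat_lit 120), (nat_lit 400), (nat_lit 30), (nat_lit 120), (nat_lit 0), (nat_lit 400), (nat_lit 0), (nat_lit 40)⟩, (nat_lit 3), (nat_lit 1), (nat_lit 3), false, true, false⟩,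
  ⟨⟨(nat_lit 300), (nat_lit 320), (nat_lit 240), (nat_lit 320), (nat_lit 120), (nat_lit 320), (nat_lit 120), (nat_lit 400), (nat_lit 0), (nat_lit 120), (nat_lit 0), (nat_lit 400), (nat_lit 40), (nat_lit 76)⟩, (nat_lit 3), (nat_lit 3), (nat_lit 3), false, true, false⟩,
  ⟨⟨(nat_lit 300), (nat_lit 320), (nat_lit 240), (nat_lit 320), (nat_lit 120), (nat_lit 220), (nat_lit 50), (nat_lit 120), (nat_lit 120), (nat_lit 240), (nat_lit 0), (nat_lit 400), (nat_lit 0), (nat_lit 20)⟩, (nat_lit 3), (nat_lit 3), (nat_lit 0), true, false, false⟩,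
  ⟨⟨(nat_lit 300), (nat_lit 320), (nat_lit 240), (nat_lit 320), (nat_lit 120), (nat_lit 180), (nat_lit 50), (nat_lit 120), (nat_lit 120), (nat_lit 240), (nat_lit 0), (nat_lit 400), (nat_lit 0), (nat_lit 20)⟩, (nat_lit 3), (nat_lit 3), (nat_lit 1), true, false, false⟩,
  ⟨⟨(nat_lit 300), (nat_lit 320), (nat_lit 240), (nat_lit 320), (nat_lit 180), (nat_lit 220), (nat_lit 50), (nat_lit 120), (nat_lit 120), (nat_lit 240), (nat_lit 0), (nat_lit 400), (nat_lit 0), (nat_lit 20)⟩, (nat_lit 3), (nat_lit 3), (nat_lit 1), true, false, false⟩,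
  ⟨⟨(nat_lit 300), (nat_lit 320), (nat_lit 240), (nat_lit 320), (nat_lit 120), (nat_lit 220), (nat_lit 50), (nat_lit 120), (nat_lit 120), (nat_lit 240), (nat_lit 0), (nat_lit 400), (nat_lit 20), (nat_lit 40)⟩, (nat_lit 3), (nat_lit 3), (nat_lit 3), true, false, false⟩,
  ⟨⟨(nat_lit 300), (nat_lit 320), (nat_lit 240), (nat_lit 280), (nat_lit 120), (nat_lit 180), (nat_lit 50), (nat_lit 120), (nat_lit 240), (nat_lit 370), (nat_lit 0), (nat_lit 200), (nat_lit 0), (nat_lit 20)⟩, (nat_lit 3), (nat_lit 0), (nat_lit 3), true, false, false⟩,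
  ⟨⟨(nat_lit 300), (nat_lit 320), (nat_lit 240), (nat_lit 260), (nat_lit 120), (nat_lit 180), (nat_lit 50), (nat_lit 120), (nat_lit 240), (nat_lit 320), (nat_lit 0), (nat_lit 200), (nat_lit 0), (nat_lit 20)⟩, (nat_lit 3), (nat_lit 1), (nat_lit 3), true, false, false⟩,
  ⟨⟨(nat_lit 300), (nat_lit 320), (nat_lit 240), (nat_lit 260), (nat_lit 120), (nat_lit 180), (nat_lit 50), (nat_lit 120), (nat_lit 320), (nat_lit 370), (nat_lit 0), (nat_lit 200), (nat_lit 0), (nat_lit 20)⟩, (nat_lit 3), (nat_lit 1), (nat_lit 3), true, false, false⟩,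
  ⟨⟨(nat_lit 300), (nat_lit 320), (nat_lit 260), (nat_lit 280), (nat_lit 120), (nat_lit 180), (nat_lit 50), (nat_lit 120), (nat_lit 240), (nat_lit 370), (nat_lit 0), (nat_lit 200), (nat_lit 0), (nat_lit 20)⟩, (nat_lit 3), (nat_lit 1), (nat_lit 3), true, false, false⟩,
  ⟨⟨(nat_lit 300), (nat_lit 320), (nat_lit 240), (nat_lit 280), (nat_lit 120), (nat_lit 180), (nat_lit 50), (nat_lit 120), (nat_lit 240), (nat_lit 370), (nat_lit 200), (nat_lit 370), (nat_lit 0), (nat_lit 20)⟩, (nat_lit 3), (nat_lit 3), (nat_lit 3), true, false, false⟩,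
  ⟨⟨(nat_lit 300), (nat_lit 320), (nat_lit 240), (nat_lit 280), (nat_lit 120), (nat_lit 160), (nat_lit 50), (nat_lit 80), (nat_lit 240), (nat_lit 350), (nat_lit 0), (nat_lit 370), (nat_lit 20), (nat_lit 40)⟩, (nat_lit 3), (nat_lit 3), (nat_lit 3), true, false, false⟩,
  ⟨⟨(nat_lit 300), (nat_lit 320), (nat_lit 240), (nat_lit 280), (nat_lit 120), (nat_lit 160), (nat_lit 80), (nat_lit 120), (nat_lit 240), (nat_lit 350), (nat_lit 0), (nat_lit 370), (nat_lit 20), (nat_lit 40)⟩, (nat_lit 3), (nat_lit 3), (nat_lit 3), true, false, false⟩,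
  ⟨⟨(nat_lit 300), (nat_lit 320), (nat_lit 240), (nat_lit 280), (nat_lit 160), (nat_lit 180), (nat_lit 50), (nat_lit 120), (nat_lit 240), (nat_lit 370), (nat_lit 0), (nat_lit 370), (nat_lit 20), (nat_lit 40)⟩, (nat_lit 3), (nat_lit 3), (nat_lit 3), true, false, false⟩,
  ⟨⟨(nat_lit 300), (nat_lit 320), (nat_lit 280), (nat_lit 320), (nat_lit 120), (nat_lit 180), (nat_lit 80), (nat_lit 120), (nat_lit 240), (nat_lit 370), (nat_lit 0), (nat_lit 370), (nat_lit 0), (nat_lit 40)⟩, (nat_lit 3), (nat_lit 3), (nat_lit 0), true, false, false⟩,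
  ⟨⟨(nat_lit 300), (nat_lit 320), (nat_lit 280), (nat_lit 320), (nat_lit 120), (nat_lit 180), (nat_lit 80), (nat_lit 120), (nat_lit 240), (nat_lit 370), (nat_lit 0), (nat_lit 200), (nat_lit 0), (nat_lit 40)⟩, (nat_lit 3), (nat_lit 3), (nat_lit 1), true, false, false⟩,
  ⟨⟨(nat_lit 300), (nat_lit 320), (nat_lit 280), (nat_lit 320), (nat_lit 120), (nat_lit 180), (nat_lit 80), (nat_lit 120), (nat_lit 240), (nat_lit 370), (nat_lit 200), (nat_lit 370), (nat_lit 0), (nat_lit 40)⟩, (nat_lit 3), (nat_lit 3), (nat_lit 1), true, false, false⟩,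
  ⟨⟨(nat_lit 300), (nat_lit 320), (nat_lit 240), (nat_lit 320), (nat_lit 180), (nat_lit 220), (nat_lit 50), (nat_lit 120), (nat_lit 240), (nat_lit 390), (nat_lit 0), (nat_lit 370), (nat_lit 0), (nat_lit 40)⟩, (nat_lit 3), (nat_lit 3), (nat_lit 3), true, false, false⟩,
  ⟨⟨(nat_lit 300), (nat_lit 320), (nat_lit 240), (nat_lit 320), (nat_lit 120), (nat_lit 220), (nat_lit 120), (nat_lit 400), (nat_lit 120), (nat_lit 390), (nat_lit 0), (nat_lit 400), (nat_lit 0), (nat_lit 20)⟩, (nat_lit 3), (nat_lit 0), (nat_lit 0), false, false, false⟩]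
theorem t003 (h : EC env Ei) : ∀ τ ∈ l003, Dead τ :=
  List.forall_mem_cons.mpr ⟨chkT_sound0 h (T := c4_0) (by decide +kernel),
  List.forall_mem_cons.mpr ⟨chkT_sound0 h (T := c4_1) (by decide +kernel),
  List.forall_mem_cons.mpr ⟨chkT_sound0 h (T := c4_2) (by decide +kernel),
  List.forall_mem_cons.mpr ⟨chkT_sound0 h (T := c4_3) (by decide +kernel),
  List.forall_mem_cons.mpr ⟨chkT_sound0 h (T := c4_4) (by decide +kernel),
  List.forall_mem_cons.mpr ⟨chkT_sound0 h (T := c4_5) (by decide +kernel),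
  List.forall_mem_cons.mpr ⟨chkT_sound0 h (T := c4_6) (by decide +kernel),
  List.forall_mem_cons.mpr ⟨chkT_sound0 h (T := c4_7) (by decide +kernel),
  List.forall_mem_cons.mpr ⟨chkT_sound0 h (T := c4_8) (by decide +kernel),
  List.forall_mem_cons.mpr ⟨chkT_sound0 h (T := c4_9) (by decide +kernel),
  List.forall_mem_cons.mpr ⟨chkT_sound0 h (T := c4_10) (by decide +kernel),
  List.forall_mem_cons.mpr ⟨chkT_sound0 h (T := c4_11) (by decide +kernel),
  List.forall_mem_cons.mpr ⟨chkT_sound0 h (T := c4_12) (by decide +kernel),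
  List.forall_mem_cons.mpr ⟨chkT_sound0 h (T := c4_13) (by decide +kernel),
  List.forall_mem_cons.mpr ⟨chkT_sound0 h (T := c4_14) (by decide +kernel),
  List.forall_mem_cons.mpr ⟨chkT_sound0 h (T := c4_15) (by decide +kernel),
  List.forall_mem_cons.mpr ⟨chkT_sound0 h (T := c4_16) (by decide +kernel),
  List.forall_mem_cons.mpr ⟨chkT_sound0 h (T := c4_17) (by decide +kernel),
  List.forall_mem_cons.mpr ⟨chkT_sound0 h (T := c4_18) (by decide +kernel),
  List.forall_mem_cons.mpr ⟨chkT_sound0 h (T := c4_19) (by decide +kernel),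
  List.forall_mem_cons.mpr ⟨chkT_sound0 h (T := c4_20) (by decide +kernel),
  List.forall_mem_cons.mpr ⟨chkT_sound0 h (T := c4_21) (by decide +kernel),
  List.forall_mem_cons.mpr ⟨chkT_sound0 h (T := c4_22) (by decide +kernel),
  List.forall_mem_cons.mpr ⟨chkT_sound0 h (T := c4_23) (by decide +kernel),
  List.forall_mem_cons.mpr ⟨chkT_sound0 h (T := c4_24) (by decide +kernel),
  List.forall_mem_cons.mpr ⟨chkT_sound0 h (T := c4_25) (by decide +kernel),
  List.forall_mem_cons.mpr ⟨chkT_sound0 h (T := c4_26) (by decide +kernel),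
  List.forall_mem_cons.mpr ⟨chkT_sound0 h (T := c4_27) (by decide +kernel),
  List.forall_mem_cons.mpr ⟨chkT_sound0 h (T := c4_28) (by decide +kernel),
  List.forall_mem_cons.mpr ⟨chkT_sound0 h (T := c4_29) (by decide +kernel),
  List.forall_mem_cons.mpr ⟨chkT_sound0 h (T := c4_30) (by decide +kernel),
  List.forall_mem_cons.mpr ⟨chkT_sound0 h (T := c4_31) (by decide +kernel),
  List.forall_mem_nil _⟩⟩⟩⟩⟩⟩⟩⟩⟩⟩⟩⟩⟩⟩⟩⟩⟩⟩⟩⟩⟩⟩⟩⟩⟩⟩⟩⟩⟩⟩⟩⟩
end TC
end Pool.Agent.Lib.MP_6947cd_al
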