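import Pool.Agent.Lib.MP_6947cd_al.C.LeafF
import Pool.Agent.Lib.MP_6947cd_al.TC.E
import Pool.Agent.Lib.MP_6947cd_al.TC.F

/-!
Problem MP_6947cd_al (Chollet).  CASE C, tables and certificates.  Trees of leaves (part 4 of root 4).
-/

set_option autoImplicit false
set_option linter.all false
set_option maxRecDepth 100000
set_option maxHeartbeats 4000000
namespace Pool.Agent.Lib.MP_6947cd_al
namespace TC
open C1
noncomputable def c4_32 : Tr Lf :=
 (.spl (nat_lit 4) (nat_lit 240) (.spl (nat_lit 3) (nat_lit 280) (.spl (nat_lit 1) (nat_lit 280) (.spl (nat_lit 3) (nat_lit 200) (.leaf ⟨(nat_lit 668), (nat_lit 179), (nat_lit 0), (nat_lit 153), (nat_lit 0), (nat_lit 5417), (nat_lit 2554), (nat_lit 2680), (nat_lit 0), (nat_lit 0), (nat_lit 1154000), [((nat_lit 320), [((nat_lit 15), (nat_lit 2), (nat_lit 506)), ((nat_lit 35), (nat_lit 5), (nat_lit 162))])], ⟨(nat_lit 6), false, false, false, (nat_lit 198), (nat_lit 4472), (nat_lit 5000), [(nat_lit 1399984),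 (nat_lit 1407160), (nat_lit 1442816), (nat_lit 1450269), (nat_lit 1542832), (nat_lit 1543108), (nat_lit 1585664), (nat_lit 1586216)]⟩, ⟨(nat_lit 3), true, false, true, (nat_lit 173), (nat_lit 4472), (nat_lit 5000), [(nat_lit 1271427), (nat_lit 1277776), (nat_lit 1378566), (nat_lit 1385605), (nat_lit 1485713), (nat_lit 1481711), (nat_lit 1592840), (nat_lit 1589527)]⟩, (nat_lit 4670446), (nat_lit 44534036), (nat_lit 12413334), (nat_lit 10052630), (nat_lit 3), (nat_lit 0), [], [], [], [],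
 ⟨⟨[(nat_lit 60), (nat_lit 80), (nat_lit 100)], [(nat_lit 0), (nat_lit 304), (nat_lit 825)], [((nat_lit 0), (nat_lit 0), (nat_lit 0)), ((nat_lit 1000), (nat_lit 905), (nat_lit 238)), ((nat_lit 1000), (nat_lit 871), (nat_lit 407))], ((nat_lit 87), (nat_lit 100), (nat_lit 44))⟩, (nat_lit 27469), (nat_lit 138), (nat_lit 138), (nat_lit 0), (nat_lit 246132), [(nat_lit 2396854579), (nat_lit 2356430254), (nat_lit 1290476800)], [(nat_lit 0), (nat_lit 0), (nat_lit 0)], [(nat_lit 14153050620), (nat_lit 15803426662), (nat_lit 16030973413), (nat_lit 17773540269), (nat_lit 17787625437), (nat_lit 19470586212), (nat_lit 19431788142), (nat_lit 20893058530)], (nat_lit 1271251), (nat_lit 1271251), (nat_lit 780000), (nat_lit 1435001), (nat_lit 780000), (nat_lit 1762501), [(nat_lit 780000), (nat_lit 1100000), (nat_lit 1442501)], [(nat_lit 9), (nat_lit 50), (nat_lit 345), (nat_lit 125), (nat_lit 13)]⟩,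
 ⟨⟨[(nat_lit 80), (nat_lit 120), (nat_lit 140)], [(nat_lit 0), (nat_lit 0), (nat_lit 1164)], [((nat_lit 0), (nat_lit 0), (nat_lit 0)), ((nat_lit 0), (nat_lit 0), (nat_lit 0)), ((nat_lit 941), (nat_lit 1000), (nat_lit 576))], ((nat_lit 100), (nat_lit 99), (nat_lit 44))⟩, (nat_lit 907099), (nat_lit 488), (nat_lit 488), (nat_lit 0), (nat_lit 586101), [(nat_lit 1556416000), (nat_lit 2645376000), (nat_lit 3267544000)], [], [(nat_lit 12053371800), (nat_lit 12041120726), (nat_lit 12197435044), (nat_lit 12097740902), (nat_lit 18602611716), (nat_lit 16416750384), (nat_lit 21792220596), (nat_lit 19658473634)], (nat_lit 1271251), (nat_lit 1271251), (nat_lit 780000), (nat_lit 1435001), (nat_lit 0), (nat_lit 2825001), [(nat_lit 1100000), (nat_lit 1785001), (nat_lit 1271251)], [(nat_lit 17), (nat_lit 58), (nat_lit 456), (nat_lit 225), (nat_lit 13)]⟩,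
 ⟨⟨[(nat_lit 140), (nat_lit 160), (nat_lit 180)], [(nat_lit 0), (nat_lit 0), (nat_lit 799)], [((nat_lit 0), (nat_lit 0), (nat_lit 0)), ((nat_lit 0), (nat_lit 0), (nat_lit 0)), ((nat_lit 728), (nat_lit 1000), (nat_lit 454))], ((nat_lit 100), (nat_lit 71), (nat_lit 48))⟩, (nat_lit 134426), (nat_lit 300), (nat_lit 392), (nat_lit 11352600), (nat_lit 0), [(nat_lit 1505826000), (nat_lit 1816416000), (nat_lit 2150874000)], [], [(nat_lit 8543474730), (nat_lit 8168633640), (nat_lit 8043909540), (nat_lit 7548650122), (nat_lit 7417324096), (nat_lit 6879966194), (nat_lit 6724440730), (nat_lit 6097444653)], (nat_lit 0), (nat_lit 0), (nat_lit 0), (nat_lit 0), (nat_lit 0), (nat_lit 0), [], [(nat_lit 31), (nat_lit 65), (nat_lit 456), (nat_lit 225), (nat_lit 11)]⟩⟩) (.leaf ⟨(nat_lit 307), (nat_lit 485), (nat_lit 0), (nat_lit 208), (nat_lit 0), (nat_lit 5309), (nat_lit 5429), (nat_lit 3145), (nat_lit 0), (nat_lit 0), (nat_lit 235700), [((nat_lit 320), [((nat_lit 15),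 (nat_lit 0), (nat_lit 22)), ((nat_lit 15), (nat_lit 1), (nat_lit 86)), ((nat_lit 35), (nat_lit 2), (nat_lit 8)), ((nat_lit 15), (nat_lit 2), (nat_lit 191))])], ⟨(nat_lit 6), false, true, false, (nat_lit 254), (nat_lit 4472), (nat_lit 5000), [(nat_lit 1542832), (nat_lit 1543108), (nat_lit 1585664), (nat_lit 1586216), (nat_lit 1685679), (nat_lit 1679054), (nat_lit 1728511), (nat_lit 1722162)]⟩, ⟨(nat_lit 3), true, false, true, (nat_lit 173), (nat_lit 4472), (nat_lit 5000), [(nat_lit 1271427), (nat_lit 1277776), (nat_lit 1378566), (nat_lit 1385605), (nat_lit 1485713), (nat_lit 1481711), (nat_lit 1592840), (nat_lit 1589527)]⟩, (nat_lit 5022029), (nat_lit 40155422), (nat_lit 17392536), (nat_lit 9452042), (nat_lit 3), (nat_lit 0), [], [], [], [],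
 ⟨⟨[(nat_lit 60), (nat_lit 80), (nat_lit 100)], [(nat_lit 0), (nat_lit 304), (nat_lit 825)], [((nat_lit 0), (nat_lit 0), (nat_lit 0)), ((nat_lit 1000), (nat_lit 905), (nat_lit 238)), ((nat_lit 1000), (nat_lit 871), (nat_lit 407))], ((nat_lit 87), (nat_lit 100), (nat_lit 44))⟩, (nat_lit 5184428), (nat_lit 129), (nat_lit 129), (nat_lit 0), (nat_lit 246132), [(nat_lit 2838933963), (nat_lit 3809098027), (nat_lit 4746206800)], [(nat_lit 0), (nat_lit 0), (nat_lit 0)], [(nat_lit 16384714157), (nat_lit 17749047906), (nat_lit 20560644244), (nat_lit 22044908267), (nat_lit 19424398134), (nat_lit 20870044810), (nat_lit 23084057022), (nat_lit 24268448078)], (nat_lit 1271251), (nat_lit 1271251), (nat_lit 1271251), (nat_lit 1271251), (nat_lit 780000), (nat_lit 1762501), [(nat_lit 780000), (nat_lit 1100000), (nat_lit 1442501)], [(nat_lit 9), (nat_lit 50), (nat_lit 272), (nat_lit 60), (nat_lit 9)]⟩,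
 ⟨⟨[(nat_lit 80), (nat_lit 120), (nat_lit 140)], [(nat_lit 0), (nat_lit 0), (nat_lit 1164)], [((nat_lit 0), (nat_lit 0), (nat_lit 0)), ((nat_lit 0), (nat_lit 0), (nat_lit 0)), ((nat_lit 941), (nat_lit 1000), (nat_lit 576))], ((nat_lit 100), (nat_lit 99), (nat_lit 44))⟩, (nat_lit 1920907), (nat_lit 462), (nat_lit 462), (nat_lit 0), (nat_lit 586101), [(nat_lit 3248784000), (nat_lit 5521824000), (nat_lit 6820506000)], [], [(nat_lit 23991279782), (nat_lit 24960910742), (nat_lit 25413306390), (nat_lit 26365029400), (nat_lit 30266102582), (nat_lit 25711471116), (nat_lit 25623737216), (nat_lit 25905990272)], (nat_lit 1271251), (nat_lit 1271251), (nat_lit 1271251), (nat_lit 1271251), (nat_lit 0), (nat_lit 2825001), [(nat_lit 1100000), (nat_lit 1785001), (nat_lit 1271251)], [(nat_lit 17), (nat_lit 58), (nat_lit 483), (nat_lit 250), (nat_lit 14)]⟩,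
 ⟨⟨[(nat_lit 140), (nat_lit 160), (nat_lit 180)], [(nat_lit 0), (nat_lit 0), (nat_lit 799)], [((nat_lit 0), (nat_lit 0), (nat_lit 0)), ((nat_lit 0), (nat_lit 0), (nat_lit 0)), ((nat_lit 728), (nat_lit 1000), (nat_lit 454))], ((nat_lit 100), (nat_lit 71), (nat_lit 48))⟩, (nat_lit 920335), (nat_lit 300), (nat_lit 392), (nat_lit 15433600), (nat_lit 0), [(nat_lit 2047136000), (nat_lit 2469376000), (nat_lit 2924064000)], [], [(nat_lit 11492372350), (nat_lit 11113127682), (nat_lit 10978453040), (nat_lit 10454120592), (nat_lit 9830428438), (nat_lit 8958738866), (nat_lit 8742486240), (nat_lit 7812427426)], (nat_lit 0), (nat_lit 0), (nat_lit 0), (nat_lit 0), (nat_lit 0), (nat_lit 0), [], [(nat_lit 31), (nat_lit 65), (nat_lit 456), (nat_lit 225), (nat_lit 11)]⟩⟩)) (.leaf ⟨(nat_lit 68), (nat_lit 690), (nat_lit 0), (nat_lit 242), (nat_lit 0), (nat_lit 7915), (nat_lit 5190), (nat_lit 3659), (nat_lit 112936), (nat_lit 0), (nat_lit 221000), [((nat_lit 320), [((nat_lit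 15), (nat_lit 2), (nat_lit 17)), ((nat_lit 35), (nat_lit 5), (nat_lit 51))])], ⟨(nat_lit 7), false, false, false, (nat_lit 243), (nat_lit 4472), (nat_lit 5000), [(nat_lit 1442816), (nat_lit 1450269), (nat_lit 1485648), (nat_lit 1493376), (nat_lit 1728511), (nat_lit 1722162), (nat_lit 1771344), (nat_lit 1765270)]⟩, ⟨(nat_lit 3), true, false, true, (nat_lit 173), (nat_lit 4472), (nat_lit 5000), [(nat_lit 1271427), (nat_lit 1277776), (nat_lit 1378566), (nat_lit 1385605), (nat_lit 1485713), (nat_lit 1481711), (nat_lit 1592840), (nat_lit 1589527)]⟩, (nat_lit 4969470), (nat_lit 40988881), (nat_lit 16433437), (nat_lit 9577682), (nat_lit 3), (nat_lit 0), [⟨(nat_lit 0), (nat_lit 97), (nat_lit 93), (nat_lit 100), (nat_lit 51080403)⟩], [], [], [],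
 ⟨⟨[(nat_lit 60), (nat_lit 80), (nat_lit 100)], [(nat_lit 0), (nat_lit 304), (nat_lit 825)], [((nat_lit 0), (nat_lit 0), (nat_lit 0)), ((nat_lit 1000), (nat_lit 905), (nat_lit 238)), ((nat_lit 1000), (nat_lit 871), (nat_lit 407))], ((nat_lit 87), (nat_lit 100), (nat_lit 44))⟩, (nat_lit 3812586), (nat_lit 172), (nat_lit 172), (nat_lit 0), (nat_lit 383906), [(nat_lit 3170541699), (nat_lit 4327447915), (nat_lit 5473290400)], [(nat_lit 0), (nat_lit 0), (nat_lit 0)], [(nat_lit 17877003757), (nat_lit 16482009195), (nat_lit 21652085907), (nat_lit 23525801645), (nat_lit 18154983815), (nat_lit 20279028940), (nat_lit 27372733572), (nat_lit 25373240930)], (nat_lit 1271251), (nat_lit 1271251), (nat_lit 780000), (nat_lit 2090001), (nat_lit 780000), (nat_lit 1762501), [(nat_lit 780000), (nat_lit 1100000), (nat_lit 1442501)], [(nat_lit 9), (nat_lit 50), (nat_lit 373), (nat_lit 150), (nat_lit 14)]⟩,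
 ⟨⟨[(nat_lit 60), (nat_lit 100), (nat_lit 120)], [(nat_lit 0), (nat_lit 0), (nat_lit 1164)], [((nat_lit 0), (nat_lit 0), (nat_lit 0)), ((nat_lit 0), (nat_lit 0), (nat_lit 0)), ((nat_lit 1000), (nat_lit 933), (nat_lit 572))], ((nat_lit 92), (nat_lit 100), (nat_lit 44))⟩, (nat_lit 2036702), (nat_lit 488), (nat_lit 488), (nat_lit 0), (nat_lit 720124), [(nat_lit 3058824000), (nat_lit 5825000000), (nat_lit 7426176000)], [], [(nat_lit 35518033850), (nat_lit 36308880440), (nat_lit 37273420250), (nat_lit 38315853984), (nat_lit 38640116252), (nat_lit 39261350204), (nat_lit 46711860640), (nat_lit 42269957620)], (nat_lit 1271251), (nat_lit 1271251), (nat_lit 780000), (nat_lit 2090001), (nat_lit 0), (nat_lit 2825001), [(nat_lit 780000), (nat_lit 1435001), (nat_lit 1271251)], [(nat_lit 10), (nat_lit 54), (nat_lit 401), (nat_lit 175), (nat_lit 13)]⟩,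
 ⟨⟨[(nat_lit 140), (nat_lit 160), (nat_lit 180)], [(nat_lit 0), (nat_lit 0), (nat_lit 799)], [((nat_lit 0), (nat_lit 0), (nat_lit 0)), ((nat_lit 0), (nat_lit 0), (nat_lit 0)), ((nat_lit 728), (nat_lit 1000), (nat_lit 454))], ((nat_lit 100), (nat_lit 71), (nat_lit 48))⟩, (nat_lit 1070775), (nat_lit 300), (nat_lit 392), (nat_lit 17956400), (nat_lit 0), [(nat_lit 2381764000), (nat_lit 2873024000), (nat_lit 3402036000)], [], [(nat_lit 13370911982), (nat_lit 12929698029), (nat_lit 12773015320), (nat_lit 12163000548), (nat_lit 11437396070), (nat_lit 10423252571), (nat_lit 10171658808), (nat_lit 9089606054)], (nat_lit 0), (nat_lit 0), (nat_lit 0), (nat_lit 0), (nat_lit 0), (nat_lit 0), [], [(nat_lit 31), (nat_lit 65), (nat_lit 456), (nat_lit 225), (nat_lit 11)]⟩⟩)) (.spl (nat_lit 0) (nat_lit 310) (.ord (.leaf ⟨(nat_lit 0), (nat_lit 753), (nat_lit 0), (nat_lit 247), (nat_lit 0), (nat_lit 5420), (nat_lit 6848), (nat_lit 3735), (nat_lit 182279334750), (nat_lit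 0), (nat_lit 0), [], Pd.none, Pd.none, (nat_lit 0), (nat_lit 1), (nat_lit 0), (nat_lit 0), (nat_lit 3), (nat_lit 0), [], [], [], [⟨(nat_lit 0), (nat_lit 100), (nat_lit 72), (nat_lit 63), (nat_lit 24204121)⟩],
 ⟨⟨[(nat_lit 60), (nat_lit 80), (nat_lit 100)], [(nat_lit 0), (nat_lit 304), (nat_lit 825)], [((nat_lit 0), (nat_lit 0), (nat_lit 0)), ((nat_lit 1000), (nat_lit 905), (nat_lit 238)), ((nat_lit 1000), (nat_lit 871), (nat_lit 407))], ((nat_lit 87), (nat_lit 100), (nat_lit 44))⟩, (nat_lit 6502958), (nat_lit 205), (nat_lit 205), (nat_lit 0), (nat_lit 320371), [(nat_lit 3282000002), (nat_lit 4735268090), (nat_lit 6250000000)], [], [(nat_lit 21828293301), (nat_lit 22368304204), (nat_lit 30262284430), (nat_lit 30736980735), (nat_lit 23929844496), (nat_lit 24363227771), (nat_lit 30955187260), (nat_lit 31339993990)], (nat_lit 1271251), (nat_lit 1271251), (nat_lit 1271251), (nat_lit 1271251), (nat_lit 780000), (nat_lit 1762501), [(nat_lit 780000), (nat_lit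 1100000), (nat_lit 1442501)], [(nat_lit 9), (nat_lit 50), (nat_lit 272), (nat_lit 60), (nat_lit 9)]⟩,
 ⟨⟨[(nat_lit 80), (nat_lit 120), (nat_lit 140)], [(nat_lit 0), (nat_lit 0), (nat_lit 1164)], [((nat_lit 0), (nat_lit 0), (nat_lit 0)), ((nat_lit 0), (nat_lit 0), (nat_lit 0)), ((nat_lit 941), (nat_lit 1000), (nat_lit 576))], ((nat_lit 100), (nat_lit 99), (nat_lit 44))⟩, (nat_lit 2350611), (nat_lit 496), (nat_lit 496), (nat_lit 0), (nat_lit 659400), [(nat_lit 4688000000), (nat_lit 7968000000), (nat_lit 9842000000)], [], [(nat_lit 40524480016), (nat_lit 42065165120), (nat_lit 44261832928), (nat_lit 45531111860), (nat_lit 40273146096), (nat_lit 40706949144), (nat_lit 42266371776), (nat_lit 42601113736)], (nat_lit 1271251), (nat_lit 1271251), (nat_lit 1271251), (nat_lit 1271251), (nat_lit 0), (nat_lit 2825001), [(nat_lit 1100000), (nat_lit 1785001), (nat_lit 1271251)], [(nat_lit 17), (nat_lit 58), (nat_lit 428), (nat_lit 200), (nat_lit 12)]⟩,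
 ⟨⟨[(nat_lit 140), (nat_lit 160), (nat_lit 180)], [(nat_lit 0), (nat_lit 0), (nat_lit 799)], [((nat_lit 0), (nat_lit 0), (nat_lit 0)), ((nat_lit 0), (nat_lit 0), (nat_lit 0)), ((nat_lit 728), (nat_lit 1000), (nat_lit 454))], ((nat_lit 100), (nat_lit 71), (nat_lit 48))⟩, (nat_lit 1318272), (nat_lit 300), (nat_lit 392), (nat_lit 18327400), (nat_lit 0), [(nat_lit 2430974000), (nat_lit 2932384000), (nat_lit 3472326000)], [], [(nat_lit 13647268840), (nat_lit 13196834071), (nat_lit 13036886060), (nat_lit 12414147878), (nat_lit 11673378552), (nat_lit 10638125160), (nat_lit 10381296820), (nat_lit 9276725934)], (nat_lit 0), (nat_lit 0), (nat_lit 0), (nat_lit 0), (nat_lit 0), (nat_lit 0), [], [(nat_lit 31), (nat_lit 65), (nat_lit 456), (nat_lit 225), (nat_lit 11)]⟩⟩)) (.leaf ⟨(nat_lit 0), (nat_lit 762), (nat_lit 0), (nat_lit 238), (nat_lit 0), (nat_lit 5500), (nat_lit 7985), (nat_lit 3582), (nat_lit 432978229720), (nat_lit 0), (nat_lit 0), [], Pd.none, Pd.none,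 (nat_lit 0), (nat_lit 1), (nat_lit 0), (nat_lit 0), (nat_lit 3), (nat_lit 0), [], [], [], [⟨(nat_lit 0), (nat_lit 100), (nat_lit 72), (nat_lit 63), (nat_lit 44872563)⟩],
 ⟨⟨[(nat_lit 60), (nat_lit 80), (nat_lit 100)], [(nat_lit 0), (nat_lit 456), (nat_lit 976)], [((nat_lit 0), (nat_lit 0), (nat_lit 0)), ((nat_lit 1000), (nat_lit 859), (nat_lit 351)), ((nat_lit 1000), (nat_lit 848), (nat_lit 406))], ((nat_lit 84), (nat_lit 100), (nat_lit 44))⟩, (nat_lit 6182079), (nat_lit 224), (nat_lit 224), (nat_lit 0), (nat_lit 381122), [(nat_lit 3282000041), (nat_lit 5024505633), (nat_lit 6250000000)], [], [(nat_lit 22185304811), (nat_lit 22729087623), (nat_lit 30854135875), (nat_lit 31331526000), (nat_lit 24170580748), (nat_lit 24606524123), (nat_lit 31427170750), (nat_lit 31813690000)], (nat_lit 1271251), (nat_lit 1271251), (nat_lit 1271251), (nat_lit 1271251), (nat_lit 780000), (nat_lit 1762501), [(nat_lit 780000), (nat_lit 1100000), (nat_lit 1442501)], [(nat_lit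 9), (nat_lit 50), (nat_lit 272), (nat_lit 60), (nat_lit 9)]⟩,
 ⟨⟨[(nat_lit 80), (nat_lit 120), (nat_lit 140)], [(nat_lit 0), (nat_lit 0), (nat_lit 1164)], [((nat_lit 0), (nat_lit 0), (nat_lit 0)), ((nat_lit 0), (nat_lit 0), (nat_lit 0)), ((nat_lit 941), (nat_lit 1000), (nat_lit 576))], ((nat_lit 100), (nat_lit 99), (nat_lit 44))⟩, (nat_lit 3507025), (nat_lit 557), (nat_lit 557), (nat_lit 0), (nat_lit 794454), [(nat_lit 4688000000), (nat_lit 7968000000), (nat_lit 9842000000)], [], [(nat_lit 39959159950), (nat_lit 41768891370), (nat_lit 43999963240), (nat_lit 44984288760), (nat_lit 38139986530), (nat_lit 38488806860), (nat_lit 39624976840), (nat_lit 41270293240)], (nat_lit 1271251), (nat_lit 1271251), (nat_lit 1271251), (nat_lit 1271251), (nat_lit 0), (nat_lit 2825001), [(nat_lit 1100000), (nat_lit 1785001), (nat_lit 1271251)], [(nat_lit 17), (nat_lit 58), (nat_lit 428), (nat_lit 200), (nat_lit 12)]⟩,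
 ⟨⟨[(nat_lit 140), (nat_lit 160), (nat_lit 180)], [(nat_lit 0), (nat_lit 0), (nat_lit 799)], [((nat_lit 0), (nat_lit 0), (nat_lit 0)), ((nat_lit 0), (nat_lit 0), (nat_lit 0)), ((nat_lit 728), (nat_lit 1000), (nat_lit 454))], ((nat_lit 100), (nat_lit 71), (nat_lit 48))⟩, (nat_lit 1897002), (nat_lit 300), (nat_lit 392), (nat_lit 17659600), (nat_lit 0), [(nat_lit 2342396000), (nat_lit 2825536000), (nat_lit 3345804000)], [], [(nat_lit 13145851696), (nat_lit 12716251085), (nat_lit 12563314520), (nat_lit 11968320332), (nat_lit 11261840592), (nat_lit 10270910791), (nat_lit 10024974184), (nat_lit 8967470076)], (nat_lit 0), (nat_lit 0), (nat_lit 0), (nat_lit 0), (nat_lit 0), (nat_lit 0), [], [(nat_lit 31), (nat_lit 65), (nat_lit 456), (nat_lit 225), (nat_lit 11)]⟩⟩))) (.spl (nat_lit 5) (nat_lit 120) (.trX (nat_lit 3) (nat_lit 4) (nat_lit 5) (nat_lit 100) (nat_lit 59) (nat_lit 94) (nat_lit 370) (.spl (nat_lit 4) (nat_lit 320) (.leaf ⟨(nat_lit 254), (nat_lit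 0), (nat_lit 0), (nat_lit 746), (nat_lit 0), (nat_lit 6004), (nat_lit 5368), (nat_lit 12174), (nat_lit 171739), (nat_lit 0), (nat_lit 254000), [((nat_lit 320), [((nat_lit 15), (nat_lit 2), (nat_lit 254))])], ⟨(nat_lit 6), false, false, false, (nat_lit 266), (nat_lit 4472), (nat_lit 5000), [(nat_lit 1399984), (nat_lit 1407160), (nat_lit 1485648), (nat_lit 1493376), (nat_lit 1846383), (nat_lit 1831994), (nat_lit 1932047), (nat_lit 1918210)]⟩, ⟨(nat_lit 6), true, false, true, (nat_lit 243), (nat_lit 4472), (nat_lit 5000), [(nat_lit 1485713), (nat_lit 1481711), (nat_lit 1592840), (nat_lit 1589527), (nat_lit 1628570), (nat_lit 1617667), (nat_lit 1735687), (nat_lit 1725474)]⟩, (nat_lit 5516814), (nat_lit 35241513), (nat_lit 17039569), (nat_lit 14718918), (nat_lit 0), (nat_lit 0), [], [], [], [],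
 ⟨⟨[(nat_lit 60), (nat_lit 80), (nat_lit 100)], [(nat_lit 0), (nat_lit 304), (nat_lit 825)], [((nat_lit 0), (nat_lit 0), (nat_lit 0)), ((nat_lit 1000), (nat_lit 905), (nat_lit 238)), ((nat_lit 1000), (nat_lit 871), (nat_lit 407))], ((nat_lit 87), (nat_lit 100), (nat_lit 44))⟩, (nat_lit 2930541), (nat_lit 190), (nat_lit 190), (nat_lit 0), (nat_lit 384392), [(nat_lit 2911149060), (nat_lit 3904130617), (nat_lit 4849444000)], [(nat_lit 0), (nat_lit 0), (nat_lit 0)], [(nat_lit 18621003068), (nat_lit 19660560544), (nat_lit 29362752790), (nat_lit 30274060192), (nat_lit 23829496306), (nat_lit 25219141560), (nat_lit 32411043541), (nat_lit 33123371324)], (nat_lit 1271251), (nat_lit 1271251), (nat_lit 780000), (nat_lit 2826876), (nat_lit 1271251), (nat_lit 1271251), [(nat_lit 780000), (nat_lit 1100000), (nat_lit 1442501)], [(nat_lit 9), (nat_lit 50), (nat_lit 317), (nat_lit 100), (nat_lit 11)]⟩,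
 ⟨⟨[(nat_lit 80), (nat_lit 120), (nat_lit 140)], [(nat_lit 0), (nat_lit 0), (nat_lit 1164)], [((nat_lit 0), (nat_lit 0), (nat_lit 0)), ((nat_lit 0), (nat_lit 0), (nat_lit 0)), ((nat_lit 941), (nat_lit 1000), (nat_lit 576))], ((nat_lit 100), (nat_lit 99), (nat_lit 44))⟩, (nat_lit 2130267), (nat_lit 513), (nat_lit 513), (nat_lit 0), (nat_lit 639453), [(nat_lit 3497248000), (nat_lit 5944128000), (nat_lit 7342132000)], [], [(nat_lit 26908415276), (nat_lit 29277232064), (nat_lit 40378855336), (nat_lit 32748485436), (nat_lit 25632510760), (nat_lit 26622239464), (nat_lit 45128975208), (nat_lit 35854029396)], (nat_lit 1271251), (nat_lit 1271251), (nat_lit 780000), (nat_lit 2826876), (nat_lit 0), (nat_lit 780000), [(nat_lit 1100000), (nat_lit 1785001), (nat_lit 1271251)], [(nat_lit 17), (nat_lit 58), (nat_lit 456), (nat_lit 225), (nat_lit 13)]⟩,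
 ⟨⟨[(nat_lit 140), (nat_lit 160), (nat_lit 180)], [(nat_lit 0), (nat_lit 0), (nat_lit 799)], [((nat_lit 0), (nat_lit 0), (nat_lit 0)), ((nat_lit 0), (nat_lit 0), (nat_lit 0)), ((nat_lit 728), (nat_lit 1000), (nat_lit 454))], ((nat_lit 100), (nat_lit 71), (nat_lit 48))⟩, (nat_lit 655435), (nat_lit 300), (nat_lit 323), (nat_lit 55353200), (nat_lit 0), [(nat_lit 7342132000), (nat_lit 8856512000), (nat_lit 10487268000)], [], [(nat_lit 34996653122), (nat_lit 33630418051), (nat_lit 39333337371), (nat_lit 38274998537), (nat_lit 24810838866), (nat_lit 23488475672), (nat_lit 27746621815), (nat_lit 26809568370)], (nat_lit 0), (nat_lit 0), (nat_lit 0), (nat_lit 0), (nat_lit 0), (nat_lit 0), [], [(nat_lit 31), (nat_lit 65), (nat_lit 401), (nat_lit 175), (nat_lit 9)]⟩⟩) (.trX (nat_lit 3) (nat_lit 4) (nat_lit 5) (nat_lit 87) (nat_lit 95) (nat_lit 100) (nat_lit 300) (.leaf ⟨(nat_lit 0), (nat_lit 0), (nat_lit 0), (nat_lit 1000), (nat_lit 1120), (nat_lit 6276), (nat_lit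 7297), (nat_lit 16843), (nat_lit 2778), (nat_lit 0), (nat_lit 0), [], Pd.none, Pd.none, (nat_lit 0), (nat_lit 1), (nat_lit 0), (nat_lit 0), (nat_lit 0), (nat_lit 0), [], [⟨(nat_lit 1), (nat_lit 68), (nat_lit 84), (nat_lit 100), (nat_lit 1322500962)⟩], [], [],
 ⟨⟨[(nat_lit 60), (nat_lit 80), (nat_lit 100)], [(nat_lit 0), (nat_lit 304), (nat_lit 825)], [((nat_lit 0), (nat_lit 0), (nat_lit 0)), ((nat_lit 1000), (nat_lit 905), (nat_lit 238)), ((nat_lit 1000), (nat_lit 871), (nat_lit 407))], ((nat_lit 87), (nat_lit 100), (nat_lit 44))⟩, (nat_lit 2993872), (nat_lit 222), (nat_lit 222), (nat_lit 0), (nat_lit 384392), [(nat_lit 3336752706), (nat_lit 4688000101), (nat_lit 6250000000)], [], [(nat_lit 24017333114), (nat_lit 25440247640), (nat_lit 28639550843), (nat_lit 29583615464), (nat_lit 30553309624), (nat_lit 31612334253), (nat_lit 33224123887), (nat_lit 33928209375)], (nat_lit 1271251), (nat_lit 1271251), (nat_lit 780000), (nat_lit 2253751), (nat_lit 1271251),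 (nat_lit 1271251), [(nat_lit 780000), (nat_lit 1100000), (nat_lit 1442501)], [(nat_lit 9), (nat_lit 50), (nat_lit 289), (nat_lit 75), (nat_lit 9)]⟩,
 ⟨⟨[(nat_lit 80), (nat_lit 120), (nat_lit 140)], [(nat_lit 0), (nat_lit 0), (nat_lit 1164)], [((nat_lit 0), (nat_lit 0), (nat_lit 0)), ((nat_lit 0), (nat_lit 0), (nat_lit 0)), ((nat_lit 941), (nat_lit 1000), (nat_lit 576))], ((nat_lit 100), (nat_lit 99), (nat_lit 44))⟩, (nat_lit 2568818), (nat_lit 513), (nat_lit 513), (nat_lit 0), (nat_lit 639453), [(nat_lit 4688000000), (nat_lit 7968000000), (nat_lit 9842000000)], [], [(nat_lit 36119124232), (nat_lit 38971249310), (nat_lit 46926093514), (nat_lit 41058801050), (nat_lit 34242690233), (nat_lit 35336813133), (nat_lit 52894999200), (nat_lit 40008646788)], (nat_lit 1271251), (nat_lit 1271251), (nat_lit 780000), (nat_lit 2253751), (nat_lit 0), (nat_lit 780000), [(nat_lit 1100000), (nat_lit 1785001), (nat_lit 1271251)], [(nat_lit 17), (nat_lit 58), (nat_lit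 428), (nat_lit 200), (nat_lit 12)]⟩,
 ⟨⟨[(nat_lit 140), (nat_lit 160), (nat_lit 180)], [(nat_lit 0), (nat_lit 0), (nat_lit 799)], [((nat_lit 0), (nat_lit 0), (nat_lit 0)), ((nat_lit 0), (nat_lit 0), (nat_lit 0)), ((nat_lit 728), (nat_lit 1000), (nat_lit 454))], ((nat_lit 100), (nat_lit 71), (nat_lit 48))⟩, (nat_lit 878598), (nat_lit 300), (nat_lit 378), (nat_lit 74200002), (nat_lit 0), [(nat_lit 9842000000), (nat_lit 11872000000), (nat_lit 14058000000)], [], [(nat_lit 55773553340), (nat_lit 51756052696), (nat_lit 64110310379), (nat_lit 60608157426), (nat_lit 40810303622), (nat_lit 37016690641), (nat_lit 46754746753), (nat_lit 43707746729)], (nat_lit 0), (nat_lit 0), (nat_lit 0), (nat_lit 0), (nat_lit 0), (nat_lit 0), [], [(nat_lit 31), (nat_lit 65), (nat_lit 428), (nat_lit 200), (nat_lit 10)]⟩⟩)))) (.leaf ⟨(nat_lit 0), (nat_lit 0), (nat_lit 0), (nat_lit 1000), (nat_lit 0), (nat_lit 7748), (nat_lit 5335), (nat_lit 14346), (nat_lit 38887), (nat_lit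 0), (nat_lit 0), [], Pd.none, Pd.none, (nat_lit 0), (nat_lit 1), (nat_lit 0), (nat_lit 0), (nat_lit 0), (nat_lit 0), [], [⟨(nat_lit 1), (nat_lit 68), (nat_lit 84), (nat_lit 100), (nat_lit 289715236)⟩], [], [],
 ⟨⟨[(nat_lit 60), (nat_lit 80), (nat_lit 100)], [(nat_lit 0), (nat_lit 304), (nat_lit 825)], [((nat_lit 0), (nat_lit 0), (nat_lit 0)), ((nat_lit 1000), (nat_lit 905), (nat_lit 238)), ((nat_lit 1000), (nat_lit 871), (nat_lit 407))], ((nat_lit 87), (nat_lit 100), (nat_lit 44))⟩, (nat_lit 0), (nat_lit 222), (nat_lit 222), (nat_lit 0), (nat_lit 384392), [(nat_lit 3794482965), (nat_lit 4688000024), (nat_lit 6250000000)], [], [(nat_lit 20653601908), (nat_lit 21976068056), (nat_lit 33442196644), (nat_lit 34311478768), (nat_lit 32523202952), (nat_lit 33691474269), (nat_lit 39982153048), (nat_lit 40429763530)], (nat_lit 1271251), (nat_lit 1271251), (nat_lit 780000), (nat_lit 3072501), (nat_lit 1271251), (nat_lit 1271251), [(nat_lit 780000), (nat_lit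 1100000), (nat_lit 1442501)], [(nat_lit 9), (nat_lit 50), (nat_lit 317), (nat_lit 100), (nat_lit 11)]⟩,
 ⟨⟨[(nat_lit 80), (nat_lit 120), (nat_lit 140)], [(nat_lit 0), (nat_lit 0), (nat_lit 1164)], [((nat_lit 0), (nat_lit 0), (nat_lit 0)), ((nat_lit 0), (nat_lit 0), (nat_lit 0)), ((nat_lit 941), (nat_lit 1000), (nat_lit 576))], ((nat_lit 100), (nat_lit 99), (nat_lit 44))⟩, (nat_lit 2413963), (nat_lit 496), (nat_lit 496), (nat_lit 0), (nat_lit 799344), [(nat_lit 4688000000), (nat_lit 7968000000), (nat_lit 9842000000)], [], [(nat_lit 39817290043), (nat_lit 42113190315), (nat_lit 45539931020), (nat_lit 46774516120), (nat_lit 59571261220), (nat_lit 49968656010), (nat_lit 47945960640), (nat_lit 48421680820)], (nat_lit 1271251), (nat_lit 1271251), (nat_lit 1271251), (nat_lit 1271251), (nat_lit 780000), (nat_lit 3072501), [(nat_lit 1100000), (nat_lit 1785001), (nat_lit 1271251)], [(nat_lit 17), (nat_lit 58), (nat_lit 538), (nat_lit 300), (nat_lit 15)]⟩,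
 ⟨⟨[(nat_lit 140), (nat_lit 160), (nat_lit 180)], [(nat_lit 0), (nat_lit 0), (nat_lit 799)], [((nat_lit 0), (nat_lit 0), (nat_lit 0)), ((nat_lit 0), (nat_lit 0), (nat_lit 0)), ((nat_lit 728), (nat_lit 1000), (nat_lit 454))], ((nat_lit 100), (nat_lit 71), (nat_lit 48))⟩, (nat_lit 6918952), (nat_lit 234), (nat_lit 234), (nat_lit 0), (nat_lit 0), [(nat_lit 9842000000), (nat_lit 11872000000), (nat_lit 14058000000)], [], [(nat_lit 26606375252), (nat_lit 25898737190), (nat_lit 40796477096), (nat_lit 38550630448), (nat_lit 39078756672), (nat_lit 36813370258), (nat_lit 51895834750), (nat_lit 48351420808)], (nat_lit 0), (nat_lit 0), (nat_lit 0), (nat_lit 0), (nat_lit 0), (nat_lit 0), [], [(nat_lit 31), (nat_lit 65), (nat_lit 538), (nat_lit 300), (nat_lit 12)]⟩⟩)))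
noncomputable def c4_33 : Tr Lf :=
 (.spl (nat_lit 2) (nat_lit 180) (.spl (nat_lit 5) (nat_lit 200) (.spl (nat_lit 1) (nat_lit 280) (.leaf ⟨(nat_lit 783), (nat_lit 166), (nat_lit 0), (nat_lit 51), (nat_lit 10), (nat_lit 4886), (nat_lit 2806), (nat_lit 517), (nat_lit 0), (nat_lit 0), (nat_lit 1026000), [((nat_lit 320), [((nat_lit 15), (nat_lit 2), (nat_lit 702)), ((nat_lit 35), (nat_lit 5), (nat_lit 81))])], ⟨(nat_lit 6), false, false, false, (nat_lit 198), (nat_lit 4472), (nat_lit 5000), [(nat_lit 1399984), (nat_lit 1407160), (nat_lit 1442816), (nat_lit 1450269), (nat_lit 1542832), (nat_lit 1543108), (nat_lit 1585664), (nat_lit 1586216)]⟩, ⟨(nat_lit 3), false, false, true, (nat_lit 165), (nat_lit 4472), (nat_lit 5000), [(nat_lit 1271427), (nat_lit 1277776), (nat_lit 1335713), (nat_lit 1342476), (nat_lit 1485713), (nat_lit 1481711), (nat_lit 1549999), (nat_lit 1546410)]⟩, (nat_lit 4589138), (nat_lit 45149203), (nat_lit 12502887), (nat_lit 9347910),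 (nat_lit 3), (nat_lit 0), [], [], [], [],
 ⟨⟨[(nat_lit 60), (nat_lit 80), (nat_lit 100)], [(nat_lit 0), (nat_lit 304), (nat_lit 825)], [((nat_lit 0), (nat_lit 0), (nat_lit 0)), ((nat_lit 1000), (nat_lit 905), (nat_lit 238)), ((nat_lit 1000), (nat_lit 871), (nat_lit 407))], ((nat_lit 87), (nat_lit 100), (nat_lit 44))⟩, (nat_lit 5437), (nat_lit 151), (nat_lit 151), (nat_lit 0), (nat_lit 342648), [(nat_lit 2249508868), (nat_lit 2146738510), (nat_lit 1294452400)], [(nat_lit 0), (nat_lit 0), (nat_lit 0)], [(nat_lit 14987740432), (nat_lit 16378515551), (nat_lit 16780630564), (nat_lit 17992695687), (nat_lit 18101478699), (nat_lit 19298735496), (nat_lit 19396153443), (nat_lit 20779907740)], (nat_lit 1271251), (nat_lit 1271251), (nat_lit 780000), (nat_lit 1435001), (nat_lit 780000), (nat_lit 1762501), [(nat_lit 780000), (nat_lit 1100000), (nat_lit 1442501)], [(nat_lit 9), (nat_lit 50), (nat_lit 345), (nat_lit 125), (nat_lit 13)]⟩,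
 ⟨⟨[(nat_lit 80), (nat_lit 120), (nat_lit 140)], [(nat_lit 0), (nat_lit 0), (nat_lit 1164)], [((nat_lit 0), (nat_lit 0), (nat_lit 0)), ((nat_lit 0), (nat_lit 0), (nat_lit 0)), ((nat_lit 941), (nat_lit 1000), (nat_lit 576))], ((nat_lit 100), (nat_lit 99), (nat_lit 44))⟩, (nat_lit 0), (nat_lit 440), (nat_lit 440), (nat_lit 0), (nat_lit 472665), [(nat_lit 1017296000), (nat_lit 1729056000), (nat_lit 2135714000)], [], [(nat_lit 8417470960), (nat_lit 6628236929), (nat_lit 7167169704), (nat_lit 6790807519), (nat_lit 8408333316), (nat_lit 5849532095), (nat_lit 11211002966), (nat_lit 8717458081)], (nat_lit 1271251), (nat_lit 1271251), (nat_lit 780000), (nat_lit 1435001), (nat_lit 0), (nat_lit 1412501), [(nat_lit 1100000), (nat_lit 1785001), (nat_lit 1271251)], [(nat_lit 17), (nat_lit 58), (nat_lit 401), (nat_lit 175), (nat_lit 12)]⟩,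
 ⟨⟨[(nat_lit 140), (nat_lit 160), (nat_lit 180)], [(nat_lit 0), (nat_lit 0), (nat_lit 799)], [((nat_lit 0), (nat_lit 0), (nat_lit 0)), ((nat_lit 0), (nat_lit 0), (nat_lit 0)), ((nat_lit 728), (nat_lit 1000), (nat_lit 454))], ((nat_lit 100), (nat_lit 71), (nat_lit 48))⟩, (nat_lit 44809), (nat_lit 300), (nat_lit 1912), (nat_lit 3784200), (nat_lit 3186117), [(nat_lit 501942000), (nat_lit 605472000), (nat_lit 716958000)], [], [(nat_lit 3874282266), (nat_lit 3772098367), (nat_lit 3675561374), (nat_lit 3574074683), (nat_lit 3476781715), (nat_lit 3377008757), (nat_lit 3282483252), (nat_lit 3620607137)], (nat_lit 780000), (nat_lit 1271251), (nat_lit 780000), (nat_lit 1762501), (nat_lit 0), (nat_lit 1412501), [(nat_lit 1977501), (nat_lit 1271251), (nat_lit 1271251)], [(nat_lit 31), (nat_lit 65), (nat_lit 556), (nat_lit 175), (nat_lit 13)]⟩⟩) (.leaf ⟨(nat_lit 0), (nat_lit 1000), (nat_lit 0), (nat_lit 0), (nat_lit 0), (nat_lit 6356), (nat_lit 6386), (nat_lit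 0), (nat_lit 37530), (nat_lit 0), (nat_lit 0), [], Pd.none, Pd.none, (nat_lit 0), (nat_lit 1), (nat_lit 0), (nat_lit 0), (nat_lit 3), (nat_lit 0), [], [], [], [],
 ⟨⟨[(nat_lit 60), (nat_lit 80), (nat_lit 100)], [(nat_lit 0), (nat_lit 304), (nat_lit 825)], [((nat_lit 0), (nat_lit 0), (nat_lit 0)), ((nat_lit 1000), (nat_lit 905), (nat_lit 238)), ((nat_lit 1000), (nat_lit 871), (nat_lit 407))], ((nat_lit 87), (nat_lit 100), (nat_lit 44))⟩, (nat_lit 4276869), (nat_lit 255), (nat_lit 255), (nat_lit 0), (nat_lit 575590), [(nat_lit 3282000037), (nat_lit 4688000053), (nat_lit 6250000000)], [], [(nat_lit 19874613521), (nat_lit 17475219385), (nat_lit 17568830026), (nat_lit 18717157417), (nat_lit 18722875009), (nat_lit 19774480416), (nat_lit 22294507351), (nat_lit 21093150040)], (nat_lit 1271251), (nat_lit 1271251), (nat_lit 780000), (nat_lit 1435001), (nat_lit 780000), (nat_lit 1762501), [(nat_lit 780000), (nat_lit 1100000), (nat_lit 1442501)], [(nat_lit 9),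 (nat_lit 50), (nat_lit 345), (nat_lit 125), (nat_lit 13)]⟩,
 ⟨⟨[(nat_lit 60), (nat_lit 100), (nat_lit 120)], [(nat_lit 0), (nat_lit 0), (nat_lit 1164)], [((nat_lit 0), (nat_lit 0), (nat_lit 0)), ((nat_lit 0), (nat_lit 0), (nat_lit 0)), ((nat_lit 1000), (nat_lit 933), (nat_lit 572))], ((nat_lit 92), (nat_lit 100), (nat_lit 44))⟩, (nat_lit 2178907), (nat_lit 418), (nat_lit 418), (nat_lit 0), (nat_lit 586980), [(nat_lit 3282000000), (nat_lit 6250000000), (nat_lit 7968000000)], [], [(nat_lit 30232862236), (nat_lit 32180918124), (nat_lit 31099998312), (nat_lit 32810413500), (nat_lit 30603302411), (nat_lit 29987883128), (nat_lit 38305745003), (nat_lit 32557581876)], (nat_lit 1271251), (nat_lit 1271251), (nat_lit 780000), (nat_lit 1435001), (nat_lit 0), (nat_lit 1412501), [(nat_lit 780000), (nat_lit 1435001), (nat_lit 1271251)], [(nat_lit 10), (nat_lit 54), (nat_lit 317), (nat_lit 100), (nat_lit 10)]⟩,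
 Rw.none⟩)) (.stt (nat_lit 1) (.spl (nat_lit 2) (nat_lit 160) (.trX (nat_lit 5) (nat_lit 1) (nat_lit 2) (nat_lit 100) (nat_lit 40) (nat_lit 100) (nat_lit 390) (.leaf ⟨(nat_lit 1000), (nat_lit 0), (nat_lit 0), (nat_lit 0), (nat_lit 0), (nat_lit 4339), (nat_lit 0), (nat_lit 0), (nat_lit 5474098036024), (nat_lit 0), (nat_lit 250000), [((nat_lit 320), [((nat_lit 15), (nat_lit 0), (nat_lit 1000))])], ⟨(nat_lit 6), false, false, false, (nat_lit 206), (nat_lit 4472), (nat_lit 5000), [(nat_lit 1399984), (nat_lit 1407160), (nat_lit 1485648), (nat_lit 1493376), (nat_lit 1542832), (nat_lit 1543108), (nat_lit 1628496), (nat_lit 1629323)]⟩, ⟨(nat_lit 3), false, false, true, (nat_lit 160), (nat_lit 4472), (nat_lit 5000), [(nat_lit 1271427), (nat_lit 1277776), (nat_lit 1314284), (nat_lit 1320909), (nat_lit 1485713), (nat_lit 1481711), (nat_lit 1528570), (nat_lit 1524844)]⟩, (nat_lit 4615844), (nat_lit 44752385), (nat_lit 13318636), (nat_lit 8928979), (nat_lit 0),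 (nat_lit 0), [], [], [], [],
 ⟨⟨[(nat_lit 60), (nat_lit 80), (nat_lit 100)], [(nat_lit 0), (nat_lit 304), (nat_lit 825)], [((nat_lit 0), (nat_lit 0), (nat_lit 0)), ((nat_lit 1000), (nat_lit 905), (nat_lit 238)), ((nat_lit 1000), (nat_lit 871), (nat_lit 407))], ((nat_lit 87), (nat_lit 100), (nat_lit 44))⟩, (nat_lit 0), (nat_lit 24), (nat_lit 24), (nat_lit 0), (nat_lit 0), [(nat_lit 2318400008), (nat_lit 90276739784), (nat_lit 2724800000)], [(nat_lit 0), (nat_lit 0), (nat_lit 0)], [(nat_lit 13907517388), (nat_lit 15591275800), (nat_lit 16155125348), (nat_lit 17622144766), (nat_lit 17779865075), (nat_lit 19126260344), (nat_lit 19484998208), (nat_lit 20663543230)], (nat_lit 0), (nat_lit 0), (nat_lit 0), (nat_lit 0), (nat_lit 0), (nat_lit 0), [], [(nat_lit 9), (nat_lit 50), (nat_lit 345), (nat_lit 125), (nat_lit 13)]⟩,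
 Rw.none,
 Rw.none⟩)) (.leaf ⟨(nat_lit 842), (nat_lit 130), (nat_lit 0), (nat_lit 28), (nat_lit 0), (nat_lit 4217), (nat_lit 1363), (nat_lit 308), (nat_lit 1805735095456), (nat_lit 0), (nat_lit 303650), [((nat_lit 320), [((nat_lit 15), (nat_lit 0), (nat_lit 221)), ((nat_lit 15), (nat_lit 1), (nat_lit 621))])], ⟨(nat_lit 6), false, false, false, (nat_lit 206), (nat_lit 4472), (nat_lit 5000), [(nat_lit 1399984), (nat_lit 1407160), (nat_lit 1485648), (nat_lit 1493376), (nat_lit 1542832), (nat_lit 1543108), (nat_lit 1628496), (nat_lit 1629323)]⟩, ⟨(nat_lit 4), false, false, true, (nat_lit 173), (nat_lit 4472), (nat_lit 5000), [(nat_lit 1314284), (nat_lit 1320909), (nat_lit 1335713), (nat_lit 1342476), (nat_lit 1528570), (nat_lit 1524844), (nat_lit 1549999), (nat_lit 1546410)]⟩, (nat_lit 4737459), (nat_lit 43857212), (nat_lit 13172638), (nat_lit 9970150), (nat_lit 5), (nat_lit 0), [⟨(nat_lit 0), (nat_lit 83), (nat_lit 83), (nat_lit 100), (nat_lit 97008044)⟩],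 [], [⟨(nat_lit 1), (nat_lit 54), (nat_lit 93), (nat_lit 100), (nat_lit 49771105)⟩], [],
 ⟨⟨[(nat_lit 60), (nat_lit 80), (nat_lit 100)], [(nat_lit 0), (nat_lit 304), (nat_lit 825)], [((nat_lit 0), (nat_lit 0), (nat_lit 0)), ((nat_lit 1000), (nat_lit 905), (nat_lit 238)), ((nat_lit 1000), (nat_lit 871), (nat_lit 407))], ((nat_lit 87), (nat_lit 100), (nat_lit 44))⟩, (nat_lit 0), (nat_lit 24), (nat_lit 24), (nat_lit 0), (nat_lit 0), [(nat_lit 2188559435), (nat_lit 90293955787), (nat_lit 3034375200)], [(nat_lit 0), (nat_lit 0), (nat_lit 0)], [(nat_lit 13897556973), (nat_lit 15555408411), (nat_lit 16142917755), (nat_lit 17588596109), (nat_lit 17754706236), (nat_lit 19082329243), (nat_lit 19467791634), (nat_lit 20637350530)], (nat_lit 0), (nat_lit 0), (nat_lit 0), (nat_lit 0), (nat_lit 0), (nat_lit 0), [], [(nat_lit 9), (nat_lit 50), (nat_lit 345), (nat_lit 125), (nat_lit 13)]⟩,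
 ⟨⟨[(nat_lit 80), (nat_lit 120), (nat_lit 140)], [(nat_lit 0), (nat_lit 0), (nat_lit 1164)], [((nat_lit 0), (nat_lit 0), (nat_lit 0)), ((nat_lit 0), (nat_lit 0), (nat_lit 0)), ((nat_lit 941), (nat_lit 1000), (nat_lit 576))], ((nat_lit 100), (nat_lit 99), (nat_lit 44))⟩, (nat_lit 437099), (nat_lit 349), (nat_lit 349), (nat_lit 0), (nat_lit 525058), [(nat_lit 740704000), (nat_lit 1258944000), (nat_lit 1555036000)], [], [(nat_lit 3740461302), (nat_lit 4392114038), (nat_lit 4707875259), (nat_lit 4363896561), (nat_lit 5338314544), (nat_lit 5690448436), (nat_lit 5210566954), (nat_lit 5532888944)], (nat_lit 1271251), (nat_lit 1271251), (nat_lit 780000), (nat_lit 1435001), (nat_lit 1271251), (nat_lit 1271251), [(nat_lit 1100000), (nat_lit 1785001), (nat_lit 1271251)], [(nat_lit 17), (nat_lit 58), (nat_lit 483), (nat_lit 250), (nat_lit 13)]⟩,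
 ⟨⟨[(nat_lit 120), (nat_lit 160), (nat_lit 180)], [(nat_lit 0), (nat_lit 0), (nat_lit 1613)], [((nat_lit 0), (nat_lit 0), (nat_lit 0)), ((nat_lit 0), (nat_lit 0), (nat_lit 0)), ((nat_lit 620), (nat_lit 1000), (nat_lit 670))], ((nat_lit 100), (nat_lit 81), (nat_lit 44))⟩, (nat_lit 12186), (nat_lit 300), (nat_lit 1471), (nat_lit 2077600), (nat_lit 2551123), [(nat_lit 223104000), (nat_lit 332416000), (nat_lit 393624000)], [], [(nat_lit 1536153556), (nat_lit 1517793529), (nat_lit 1415165080), (nat_lit 1397257050), (nat_lit 1448052312), (nat_lit 1431120698), (nat_lit 1327416832), (nat_lit 1309947604)], (nat_lit 1100000), (nat_lit 1271251), (nat_lit 780000), (nat_lit 1762501), (nat_lit 1271251), (nat_lit 1271251), [(nat_lit 1695001), (nat_lit 1271251), (nat_lit 1271251)], [(nat_lit 28), (nat_lit 65), (nat_lit 471), (nat_lit 225), (nat_lit 11)]⟩⟩)) (.leaf ⟨(nat_lit 0), (nat_lit 868), (nat_lit 0), (nat_lit 132), (nat_lit 0), (nat_lit 7109), (nat_lit 8360),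 (nat_lit 1449), (nat_lit 432376), (nat_lit 0), (nat_lit 0), [], Pd.none, Pd.none, (nat_lit 0), (nat_lit 1), (nat_lit 0), (nat_lit 0), (nat_lit 5), (nat_lit 0), [], [], [⟨(nat_lit 1), (nat_lit 64), (nat_lit 95), (nat_lit 100), (nat_lit 386629392)⟩], [],
 ⟨⟨[(nat_lit 60), (nat_lit 80), (nat_lit 100)], [(nat_lit 0), (nat_lit 304), (nat_lit 825)], [((nat_lit 0), (nat_lit 0), (nat_lit 0)), ((nat_lit 1000), (nat_lit 905), (nat_lit 238)), ((nat_lit 1000), (nat_lit 871), (nat_lit 407))], ((nat_lit 87), (nat_lit 100), (nat_lit 44))⟩, (nat_lit 2981440), (nat_lit 255), (nat_lit 255), (nat_lit 0), (nat_lit 576199), [(nat_lit 3282000045), (nat_lit 4688000096), (nat_lit 6250000000)], [], [(nat_lit 19463384723), (nat_lit 17217741972), (nat_lit 17147018932), (nat_lit 18565878118), (nat_lit 18495372320), (nat_lit 20018601272), (nat_lit 20999828276), (nat_lit 21253606810)], (nat_lit 1271251), (nat_lit 1271251), (nat_lit 780000), (nat_lit 1435001), (nat_lit 780000),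 (nat_lit 1762501), [(nat_lit 780000), (nat_lit 1100000), (nat_lit 1442501)], [(nat_lit 9), (nat_lit 50), (nat_lit 345), (nat_lit 125), (nat_lit 13)]⟩,
 ⟨⟨[(nat_lit 80), (nat_lit 120), (nat_lit 140)], [(nat_lit 0), (nat_lit 0), (nat_lit 1164)], [((nat_lit 0), (nat_lit 0), (nat_lit 0)), ((nat_lit 0), (nat_lit 0), (nat_lit 0)), ((nat_lit 941), (nat_lit 1000), (nat_lit 576))], ((nat_lit 100), (nat_lit 99), (nat_lit 44))⟩, (nat_lit 2487058), (nat_lit 240), (nat_lit 240), (nat_lit 0), (nat_lit 278570), [(nat_lit 4688000000), (nat_lit 7968000000), (nat_lit 9842000000)], [], [(nat_lit 23289039960), (nat_lit 24857453088), (nat_lit 30055930920), (nat_lit 25242559808), (nat_lit 32758696888), (nat_lit 35616126320), (nat_lit 32054513048), (nat_lit 34702139200)], (nat_lit 1271251), (nat_lit 1271251), (nat_lit 780000), (nat_lit 1435001), (nat_lit 1271251), (nat_lit 1271251), [(nat_lit 1100000), (nat_lit 1785001), (nat_lit 1271251)], [(nat_lit 17), (nat_lit 58),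 (nat_lit 483), (nat_lit 250), (nat_lit 13)]⟩,
 ⟨⟨[(nat_lit 140), (nat_lit 160), (nat_lit 180)], [(nat_lit 0), (nat_lit 0), (nat_lit 799)], [((nat_lit 0), (nat_lit 0), (nat_lit 0)), ((nat_lit 0), (nat_lit 0), (nat_lit 0)), ((nat_lit 728), (nat_lit 1000), (nat_lit 454))], ((nat_lit 100), (nat_lit 71), (nat_lit 48))⟩, (nat_lit 115975), (nat_lit 300), (nat_lit 1728), (nat_lit 9794400), (nat_lit 3044374), [(nat_lit 1299144000), (nat_lit 1567104000), (nat_lit 1855656000)], [], [(nat_lit 7479686622), (nat_lit 7180759734), (nat_lit 6906716508), (nat_lit 6610867376), (nat_lit 7062220656), (nat_lit 6759462597), (nat_lit 6495802668), (nat_lit 6189812664)], (nat_lit 780000), (nat_lit 1271251), (nat_lit 780000), (nat_lit 1762501), (nat_lit 1271251), (nat_lit 1271251), [(nat_lit 1977501), (nat_lit 1271251), (nat_lit 1271251)], [(nat_lit 31), (nat_lit 65), (nat_lit 535), (nat_lit 225), (nat_lit 12)]⟩⟩))) (.spl (nat_lit 5) (nat_lit 120) (.leaf ⟨(nat_lit 0), (nat_lit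 774), (nat_lit 0), (nat_lit 226), (nat_lit 0), (nat_lit 7941), (nat_lit 7941), (nat_lit 3017), (nat_lit 101758), (nat_lit 0), (nat_lit 0), [], Pd.none, Pd.none, (nat_lit 0), (nat_lit 1), (nat_lit 0), (nat_lit 0), (nat_lit 4), (nat_lit 0), [], [], [⟨(nat_lit 0), (nat_lit 100), (nat_lit 92), (nat_lit 40), (nat_lit 160550792)⟩], [],
 ⟨⟨[(nat_lit 60), (nat_lit 80), (nat_lit 100)], [(nat_lit 0), (nat_lit 304), (nat_lit 825)], [((nat_lit 0), (nat_lit 0), (nat_lit 0)), ((nat_lit 1000), (nat_lit 905), (nat_lit 238)), ((nat_lit 1000), (nat_lit 871), (nat_lit 407))], ((nat_lit 87), (nat_lit 100), (nat_lit 44))⟩, (nat_lit 1862100), (nat_lit 208), (nat_lit 208), (nat_lit 0), (nat_lit 446787), [(nat_lit 3282000080), (nat_lit 4688000042), (nat_lit 6250000000)], [], [(nat_lit 18914165168), (nat_lit 17289773451), (nat_lit 16996589345), (nat_lit 18790538482), (nat_lit 18660530956), (nat_lit 20287778628), (nat_lit 20758933686), (nat_lit 21430897690)], (nat_lit 1271251),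 (nat_lit 1271251), (nat_lit 780000), (nat_lit 1435001), (nat_lit 780000), (nat_lit 1762501), [(nat_lit 780000), (nat_lit 1100000), (nat_lit 1442501)], [(nat_lit 9), (nat_lit 50), (nat_lit 345), (nat_lit 125), (nat_lit 13)]⟩,
 ⟨⟨[(nat_lit 80), (nat_lit 120), (nat_lit 140)], [(nat_lit 0), (nat_lit 0), (nat_lit 1164)], [((nat_lit 0), (nat_lit 0), (nat_lit 0)), ((nat_lit 0), (nat_lit 0), (nat_lit 0)), ((nat_lit 941), (nat_lit 1000), (nat_lit 576))], ((nat_lit 100), (nat_lit 99), (nat_lit 44))⟩, (nat_lit 2813800), (nat_lit 455), (nat_lit 455), (nat_lit 0), (nat_lit 495952), [(nat_lit 4688000000), (nat_lit 7968000000), (nat_lit 9842000000)], [], [(nat_lit 36423091580), (nat_lit 37488926394), (nat_lit 36563409370), (nat_lit 37513491670), (nat_lit 33497253149), (nat_lit 33112558849), (nat_lit 42049843252), (nat_lit 32950783485)], (nat_lit 1271251), (nat_lit 1271251), (nat_lit 780000), (nat_lit 1435001), (nat_lit 0), (nat_lit 780000), [(nat_lit 1100000), (nat_lit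 1785001), (nat_lit 1271251)], [(nat_lit 17), (nat_lit 58), (nat_lit 401), (nat_lit 175), (nat_lit 12)]⟩,
 ⟨⟨[(nat_lit 120), (nat_lit 140), (nat_lit 160)], [(nat_lit 0), (nat_lit 266), (nat_lit 862)], [((nat_lit 0), (nat_lit 0), (nat_lit 0)), ((nat_lit 960), (nat_lit 1000), (nat_lit 200)), ((nat_lit 874), (nat_lit 1000), (nat_lit 406))], ((nat_lit 100), (nat_lit 86), (nat_lit 44))⟩, (nat_lit 463895), (nat_lit 300), (nat_lit 874), (nat_lit 15006400), (nat_lit 1173601), [(nat_lit 1800768000), (nat_lit 2224292000), (nat_lit 2683072000)], [], [(nat_lit 9715073696), (nat_lit 9666688148), (nat_lit 10989698650), (nat_lit 9051475837), (nat_lit 8406151137), (nat_lit 7447236623), (nat_lit 12295664760), (nat_lit 9432299451)], (nat_lit 1271251), (nat_lit 1271251), (nat_lit 780000), (nat_lit 1762501), (nat_lit 0), (nat_lit 780000), [(nat_lit 1695001), (nat_lit 1271251), (nat_lit 1271251)], [(nat_lit 27), (nat_lit 62), (nat_lit 373), (nat_lit 150), (nat_lit 10)]⟩⟩)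 (.spl (nat_lit 1) (nat_lit 280) (.leaf ⟨(nat_lit 0), (nat_lit 526), (nat_lit 0), (nat_lit 474), (nat_lit 0), (nat_lit 8359), (nat_lit 5513), (nat_lit 3204), (nat_lit 0), (nat_lit 0), (nat_lit 0), [], Pd.none, Pd.none, (nat_lit 0), (nat_lit 1), (nat_lit 0), (nat_lit 0), (nat_lit 4), (nat_lit 0), [], [], [], [],
 ⟨⟨[(nat_lit 60), (nat_lit 80), (nat_lit 100)], [(nat_lit 0), (nat_lit 304), (nat_lit 825)], [((nat_lit 0), (nat_lit 0), (nat_lit 0)), ((nat_lit 1000), (nat_lit 905), (nat_lit 238)), ((nat_lit 1000), (nat_lit 871), (nat_lit 407))], ((nat_lit 87), (nat_lit 100), (nat_lit 44))⟩, (nat_lit 2301489), (nat_lit 139), (nat_lit 139), (nat_lit 0), (nat_lit 258895), [(nat_lit 4211759930), (nat_lit 5263405282), (nat_lit 6250000000)], [], [(nat_lit 14436181340), (nat_lit 16602746924), (nat_lit 16223324506), (nat_lit 18451838963), (nat_lit 18220278899), (nat_lit 20422723324), (nat_lit 19633097434), (nat_lit 21519969310)], (nat_lit 1271251), (nat_lit 1271251),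 (nat_lit 780000), (nat_lit 1435001), (nat_lit 780000), (nat_lit 1762501), [(nat_lit 780000), (nat_lit 1100000), (nat_lit 1442501)], [(nat_lit 9), (nat_lit 50), (nat_lit 345), (nat_lit 125), (nat_lit 13)]⟩,
 ⟨⟨[(nat_lit 80), (nat_lit 120), (nat_lit 140)], [(nat_lit 0), (nat_lit 0), (nat_lit 1164)], [((nat_lit 0), (nat_lit 0), (nat_lit 0)), ((nat_lit 0), (nat_lit 0), (nat_lit 0)), ((nat_lit 941), (nat_lit 1000), (nat_lit 576))], ((nat_lit 100), (nat_lit 99), (nat_lit 44))⟩, (nat_lit 2906927), (nat_lit 285), (nat_lit 285), (nat_lit 0), (nat_lit 357098), [(nat_lit 4688000000), (nat_lit 7968000000), (nat_lit 9842000000)], [], [(nat_lit 36459730439), (nat_lit 32657574466), (nat_lit 32018451899), (nat_lit 33586011263), (nat_lit 47268160464), (nat_lit 42306664445), (nat_lit 54409254478), (nat_lit 49572523162)], (nat_lit 1271251), (nat_lit 1271251), (nat_lit 780000), (nat_lit 1435001), (nat_lit 780000), (nat_lit 3072501), [(nat_lit 1100000), (nat_lit 1785001),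 (nat_lit 1271251)], [(nat_lit 17), (nat_lit 58), (nat_lit 456), (nat_lit 225), (nat_lit 13)]⟩,
 ⟨⟨[(nat_lit 120), (nat_lit 140), (nat_lit 160)], [(nat_lit 0), (nat_lit 266), (nat_lit 862)], [((nat_lit 0), (nat_lit 0), (nat_lit 0)), ((nat_lit 960), (nat_lit 1000), (nat_lit 200)), ((nat_lit 874), (nat_lit 1000), (nat_lit 406))], ((nat_lit 100), (nat_lit 86), (nat_lit 44))⟩, (nat_lit 972947), (nat_lit 300), (nat_lit 745), (nat_lit 31473601), (nat_lit 1102170), [(nat_lit 3776832000), (nat_lit 4665108000), (nat_lit 5627328000)], [], [(nat_lit 28321457024), (nat_lit 28227649080), (nat_lit 27767846142), (nat_lit 27637607247), (nat_lit 28296693169), (nat_lit 28089059405), (nat_lit 27944213810), (nat_lit 27229107844)], (nat_lit 1271251), (nat_lit 1271251), (nat_lit 780000), (nat_lit 1762501), (nat_lit 780000), (nat_lit 3072501), [(nat_lit 1695001), (nat_lit 1271251), (nat_lit 1271251)], [(nat_lit 27), (nat_lit 62), (nat_lit 456), (nat_lit 225), (nat_lit 12)]⟩⟩)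 (.leaf ⟨(nat_lit 0), (nat_lit 632), (nat_lit 0), (nat_lit 368), (nat_lit 0), (nat_lit 6956), (nat_lit 8276), (nat_lit 3022), (nat_lit 95212), (nat_lit 0), (nat_lit 0), [], Pd.none, Pd.none, (nat_lit 0), (nat_lit 1), (nat_lit 0), (nat_lit 0), (nat_lit 4), (nat_lit 0), [], [], [⟨(nat_lit 1), (nat_lit 50), (nat_lit 87), (nat_lit 100), (nat_lit 190613966)⟩], [],
 ⟨⟨[(nat_lit 60), (nat_lit 80), (nat_lit 100)], [(nat_lit 0), (nat_lit 304), (nat_lit 825)], [((nat_lit 0), (nat_lit 0), (nat_lit 0)), ((nat_lit 1000), (nat_lit 905), (nat_lit 238)), ((nat_lit 1000), (nat_lit 871), (nat_lit 407))], ((nat_lit 87), (nat_lit 100), (nat_lit 44))⟩, (nat_lit 4097882), (nat_lit 208), (nat_lit 208), (nat_lit 0), (nat_lit 446673), [(nat_lit 3282000122), (nat_lit 4688000145), (nat_lit 6250000000)], [], [(nat_lit 19287560196), (nat_lit 16221321348), (nat_lit 16178702310), (nat_lit 18128367492), (nat_lit 18013952316), (nat_lit 19968662016), (nat_lit 21003509661), (nat_lit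 21221004040)], (nat_lit 1271251), (nat_lit 1271251), (nat_lit 780000), (nat_lit 1435001), (nat_lit 780000), (nat_lit 1762501), [(nat_lit 780000), (nat_lit 1100000), (nat_lit 1442501)], [(nat_lit 9), (nat_lit 50), (nat_lit 345), (nat_lit 125), (nat_lit 13)]⟩,
 ⟨⟨[(nat_lit 60), (nat_lit 100), (nat_lit 120)], [(nat_lit 0), (nat_lit 0), (nat_lit 1164)], [((nat_lit 0), (nat_lit 0), (nat_lit 0)), ((nat_lit 0), (nat_lit 0), (nat_lit 0)), ((nat_lit 1000), (nat_lit 933), (nat_lit 572))], ((nat_lit 92), (nat_lit 100), (nat_lit 44))⟩, (nat_lit 2872566), (nat_lit 282), (nat_lit 282), (nat_lit 0), (nat_lit 456595), [(nat_lit 3282000000), (nat_lit 6250000000), (nat_lit 7968000000)], [], [(nat_lit 18278063700), (nat_lit 21214522300), (nat_lit 19419447858), (nat_lit 22197508080), (nat_lit 38912078408), (nat_lit 35490284912), (nat_lit 48691236208), (nat_lit 41520446352)], (nat_lit 1271251), (nat_lit 1271251), (nat_lit 780000), (nat_lit 1435001), (nat_lit 780000),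 (nat_lit 3072501), [(nat_lit 780000), (nat_lit 1435001), (nat_lit 1271251)], [(nat_lit 10), (nat_lit 54), (nat_lit 373), (nat_lit 150), (nat_lit 12)]⟩,
 ⟨⟨[(nat_lit 120), (nat_lit 140), (nat_lit 160)], [(nat_lit 0), (nat_lit 266), (nat_lit 862)], [((nat_lit 0), (nat_lit 0), (nat_lit 0)), ((nat_lit 960), (nat_lit 1000), (nat_lit 200)), ((nat_lit 874), (nat_lit 1000), (nat_lit 406))], ((nat_lit 100), (nat_lit 86), (nat_lit 44))⟩, (nat_lit 6808329), (nat_lit 300), (nat_lit 1153), (nat_lit 24435200), (nat_lit 1950149), [(nat_lit 2932224000), (nat_lit 3621856000), (nat_lit 4368896000)], [], [(nat_lit 23126239766), (nat_lit 22860871190), (nat_lit 22185506338), (nat_lit 21909267430), (nat_lit 21696348584), (nat_lit 21392054394), (nat_lit 20664179036), (nat_lit 20350749721)], (nat_lit 1271251), (nat_lit 1271251), (nat_lit 780000), (nat_lit 1762501), (nat_lit 780000), (nat_lit 3072501), [(nat_lit 1695001), (nat_lit 1271251), (nat_lit 1271251)], [(nat_lit 27),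 (nat_lit 62), (nat_lit 456), (nat_lit 225), (nat_lit 12)]⟩⟩))))
noncomputable def c4_34 : Tr Lf :=
 (.stt (nat_lit 1) (.spl (nat_lit 2) (nat_lit 180) (.spl (nat_lit 1) (nat_lit 280) (.leaf ⟨(nat_lit 820), (nat_lit 143), (nat_lit 0), (nat_lit 37), (nat_lit 0), (nat_lit 4002), (nat_lit 1550), (nat_lit 310), (nat_lit 0), (nat_lit 0), (nat_lit 291100), [((nat_lit 320), [((nat_lit 15), (nat_lit 0), (nat_lit 246)), ((nat_lit 15), (nat_lit 1), (nat_lit 574))])], ⟨(nat_lit 6), false, true, false, (nat_lit 254), (nat_lit 4472), (nat_lit 5000), [(nat_lit 1542832), (nat_lit 1543108), (nat_lit 1585664), (nat_lit 1586216), (nat_lit 1685679), (nat_lit 1679054), (nat_lit 1728511), (nat_lit 1722162)]⟩, ⟨(nat_lit 3), false, false, true, (nat_lit 165), (nat_lit 4472), (nat_lit 5000), [(nat_lit 1271427), (nat_lit 1277776), (nat_lit 1335713), (nat_lit 1342476), (nat_lit 1485713), (nat_lit 1481711), (nat_lit 1549999), (nat_lit 1546410)]⟩, (nat_lit 4948177), (nat_lit 40659257),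 (nat_lit 17540650), (nat_lit 8800093), (nat_lit 3), (nat_lit 0), [], [], [⟨(nat_lit 1), (nat_lit 55), (nat_lit 99), (nat_lit 100), (nat_lit 1801977)⟩], [],
 ⟨⟨[(nat_lit 60), (nat_lit 80), (nat_lit 100)], [(nat_lit 0), (nat_lit 304), (nat_lit 825)], [((nat_lit 0), (nat_lit 0), (nat_lit 0)), ((nat_lit 1000), (nat_lit 905), (nat_lit 238)), ((nat_lit 1000), (nat_lit 871), (nat_lit 407))], ((nat_lit 87), (nat_lit 100), (nat_lit 44))⟩, (nat_lit 0), (nat_lit 40), (nat_lit 40), (nat_lit 0), (nat_lit 0), [(nat_lit 2211925612), (nat_lit 90161504402), (nat_lit 3130654400)], [(nat_lit 0), (nat_lit 0), (nat_lit 0)], [(nat_lit 16373587953), (nat_lit 17781657056), (nat_lit 20178764434), (nat_lit 21349015320), (nat_lit 19689652153), (nat_lit 20825961808), (nat_lit 22761539638), (nat_lit 23714355884)], (nat_lit 0), (nat_lit 0), (nat_lit 0), (nat_lit 0), (nat_lit 0), (nat_lit 0), [], [(nat_lit 9), (nat_lit 50), (nat_lit 272), (nat_lit 60), (nat_lit 9)]⟩,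
 ⟨⟨[(nat_lit 80), (nat_lit 120), (nat_lit 140)], [(nat_lit 0), (nat_lit 0), (nat_lit 1164)], [((nat_lit 0), (nat_lit 0), (nat_lit 0)), ((nat_lit 0), (nat_lit 0), (nat_lit 0)), ((nat_lit 941), (nat_lit 1000), (nat_lit 576))], ((nat_lit 100), (nat_lit 99), (nat_lit 44))⟩, (nat_lit 453207), (nat_lit 393), (nat_lit 393), (nat_lit 0), (nat_lit 472665), [(nat_lit 843840000), (nat_lit 1434240000), (nat_lit 1771560000)], [], [(nat_lit 6022976200), (nat_lit 6257483242), (nat_lit 6345657672), (nat_lit 6569261022), (nat_lit 7860039380), (nat_lit 6500174780), (nat_lit 6237640160), (nat_lit 6306221710)], (nat_lit 1271251), (nat_lit 1271251), (nat_lit 1271251), (nat_lit 1271251), (nat_lit 0), (nat_lit 2825001), [(nat_lit 1100000), (nat_lit 1785001), (nat_lit 1271251)], [(nat_lit 17), (nat_lit 58), (nat_lit 483), (nat_lit 250), (nat_lit 14)]⟩,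
 ⟨⟨[(nat_lit 140), (nat_lit 160), (nat_lit 180)], [(nat_lit 0), (nat_lit 0), (nat_lit 799)], [((nat_lit 0), (nat_lit 0), (nat_lit 0)), ((nat_lit 0), (nat_lit 0), (nat_lit 0)), ((nat_lit 728), (nat_lit 1000), (nat_lit 454))], ((nat_lit 100), (nat_lit 71), (nat_lit 48))⟩, (nat_lit 32509), (nat_lit 300), (nat_lit 1912), (nat_lit 2745400), (nat_lit 3186117), [(nat_lit 364154000), (nat_lit 439264000), (nat_lit 520146000)], [], [(nat_lit 3640299949), (nat_lit 3582011328), (nat_lit 3527154705), (nat_lit 3469213851), (nat_lit 3273226481), (nat_lit 3215873991), (nat_lit 3161519117), (nat_lit 3104579113)], (nat_lit 780000), (nat_lit 1271251), (nat_lit 780000), (nat_lit 1762501), (nat_lit 0), (nat_lit 2825001), [(nat_lit 1977501), (nat_lit 1271251), (nat_lit 1271251)], [(nat_lit 31), (nat_lit 65), (nat_lit 581), (nat_lit 225), (nat_lit 14)]⟩⟩) (.trX (nat_lit 5) (nat_lit 1) (nat_lit 2) (nat_lit 92) (nat_lit 49) (nat_lit 100) (nat_lit 380) (.leaf ⟨(nat_lit 717),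 (nat_lit 283), (nat_lit 0), (nat_lit 0), (nat_lit 0), (nat_lit 4326), (nat_lit 2063), (nat_lit 0), (nat_lit 265293407694), (nat_lit 0), (nat_lit 327300), [((nat_lit 320), [((nat_lit 15), (nat_lit 0), (nat_lit 10)), ((nat_lit 15), (nat_lit 1), (nat_lit 497)), ((nat_lit 35), (nat_lit 2), (nat_lit 210))])], ⟨(nat_lit 7), false, true, false, (nat_lit 271), (nat_lit 4472), (nat_lit 5000), [(nat_lit 1585664), (nat_lit 1586216), (nat_lit 1628496), (nat_lit 1629323), (nat_lit 1728511), (nat_lit 1722162), (nat_lit 1771344), (nat_lit 1765270)]⟩, ⟨(nat_lit 3), false, false, true, (nat_lit 165), (nat_lit 4472), (nat_lit 5000), [(nat_lit 1271427), (nat_lit 1277776), (nat_lit 1335713), (nat_lit 1342476), (nat_lit 1485713), (nat_lit 1481711), (nat_lit 1549999), (nat_lit 1546410)]⟩, (nat_lit 5020446), (nat_lit 39299075), (nat_lit 19094639), (nat_lit 8606286), (nat_lit 3), (nat_lit 0), [], [], [⟨(nat_lit 1), (nat_lit 72), (nat_lit 89), (nat_lit 100), (nat_lit 65355486)⟩],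 [],
 ⟨⟨[(nat_lit 60), (nat_lit 80), (nat_lit 100)], [(nat_lit 0), (nat_lit 304), (nat_lit 825)], [((nat_lit 0), (nat_lit 0), (nat_lit 0)), ((nat_lit 1000), (nat_lit 905), (nat_lit 238)), ((nat_lit 1000), (nat_lit 871), (nat_lit 407))], ((nat_lit 87), (nat_lit 100), (nat_lit 44))⟩, (nat_lit 97493), (nat_lit 40), (nat_lit 40), (nat_lit 0), (nat_lit 0), [(nat_lit 2305107967), (nat_lit 90311888284), (nat_lit 3329294800)], [(nat_lit 0), (nat_lit 0), (nat_lit 0)], [(nat_lit 16154367969), (nat_lit 17619113339), (nat_lit 20148945413), (nat_lit 21486305738), (nat_lit 19483708150), (nat_lit 20660623915), (nat_lit 22771302301), (nat_lit 23851713092)], (nat_lit 0), (nat_lit 0), (nat_lit 0), (nat_lit 0), (nat_lit 0), (nat_lit 0), [], [(nat_lit 9), (nat_lit 50), (nat_lit 272), (nat_lit 60), (nat_lit 9)]⟩,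
 ⟨⟨[(nat_lit 60), (nat_lit 100), (nat_lit 120)], [(nat_lit 0), (nat_lit 0), (nat_lit 1164)], [((nat_lit 0), (nat_lit 0), (nat_lit 0)), ((nat_lit 0), (nat_lit 0), (nat_lit 0)), ((nat_lit 1000), (nat_lit 933), (nat_lit 572))], ((nat_lit 92), (nat_lit 100), (nat_lit 44))⟩, (nat_lit 820064), (nat_lit 398), (nat_lit 398), (nat_lit 0), (nat_lit 586980), [(nat_lit 928806000), (nat_lit 1768750000), (nat_lit 2254944000)], [], [(nat_lit 8079880732), (nat_lit 8710902522), (nat_lit 8899253717), (nat_lit 9412145860), (nat_lit 9957481991), (nat_lit 9326611095), (nat_lit 9320118358), (nat_lit 9528912717)], (nat_lit 1271251), (nat_lit 1271251), (nat_lit 1271251), (nat_lit 1271251), (nat_lit 0), (nat_lit 2683751), [(nat_lit 780000), (nat_lit 1435001), (nat_lit 1271251)], [(nat_lit 10), (nat_lit 54), (nat_lit 401), (nat_lit 175), (nat_lit 13)]⟩,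
 Rw.none⟩))) (.leaf ⟨(nat_lit 173), (nat_lit 569), (nat_lit 0), (nat_lit 258), (nat_lit 0), (nat_lit 5002), (nat_lit 7196), (nat_lit 2189), (nat_lit 11805), (nat_lit 0), (nat_lit 692000), [((nat_lit 320), [((nat_lit 35), (nat_lit 5), (nat_lit 173))])], ⟨(nat_lit 6), false, true, false, (nat_lit 262), (nat_lit 4472), (nat_lit 5000), [(nat_lit 1542832), (nat_lit 1543108), (nat_lit 1628496), (nat_lit 1629323), (nat_lit 1685679), (nat_lit 1679054), (nat_lit 1771344), (nat_lit 1765270)]⟩, ⟨(nat_lit 4), false, false, false, (nat_lit 186), (nat_lit 4472), (nat_lit 5000), [(nat_lit 1335713), (nat_lit 1342476), (nat_lit 1378566), (nat_lit 1385605), (nat_lit 1549999), (nat_lit 1546410), (nat_lit 1592840), (nat_lit 1589527)]⟩, (nat_lit 5161395), (nat_lit 38751796), (nat_lit 17918721), (nat_lit 10329483), (nat_lit 4), (nat_lit 0), [], [], [], [],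
 ⟨⟨[(nat_lit 60), (nat_lit 80), (nat_lit 100)], [(nat_lit 0), (nat_lit 304), (nat_lit 825)], [((nat_lit 0), (nat_lit 0), (nat_lit 0)), ((nat_lit 1000), (nat_lit 905), (nat_lit 238)), ((nat_lit 1000), (nat_lit 871), (nat_lit 407))], ((nat_lit 87), (nat_lit 100), (nat_lit 44))⟩, (nat_lit 106674), (nat_lit 40), (nat_lit 40), (nat_lit 0), (nat_lit 0), [(nat_lit 2988592013), (nat_lit 90398263002), (nat_lit 3933253200)], [(nat_lit 0), (nat_lit 0), (nat_lit 0)], [(nat_lit 16186049604), (nat_lit 17769045457), (nat_lit 20432066888), (nat_lit 21870451526), (nat_lit 19543089054), (nat_lit 20804726209), (nat_lit 22986380827), (nat_lit 24138297884)], (nat_lit 0), (nat_lit 0), (nat_lit 0), (nat_lit 0), (nat_lit 0), (nat_lit 0), [], [(nat_lit 9), (nat_lit 50), (nat_lit 272), (nat_lit 60), (nat_lit 9)]⟩,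
 ⟨⟨[(nat_lit 80), (nat_lit 120), (nat_lit 140)], [(nat_lit 0), (nat_lit 0), (nat_lit 1164)], [((nat_lit 0), (nat_lit 0), (nat_lit 0)), ((nat_lit 0), (nat_lit 0), (nat_lit 0)), ((nat_lit 941), (nat_lit 1000), (nat_lit 576))], ((nat_lit 100), (nat_lit 99), (nat_lit 44))⟩, (nat_lit 2607088), (nat_lit 428), (nat_lit 428), (nat_lit 0), (nat_lit 495952), [(nat_lit 3876976000), (nat_lit 6589536000), (nat_lit 8139334000)], [], [(nat_lit 27707623560), (nat_lit 29793656760), (nat_lit 28838919760), (nat_lit 31190961650), (nat_lit 36111828288), (nat_lit 29071726694), (nat_lit 28435583024), (nat_lit 30363223206)], (nat_lit 1271251), (nat_lit 1271251), (nat_lit 1271251), (nat_lit 1271251), (nat_lit 0), (nat_lit 2825001), [(nat_lit 1100000), (nat_lit 1785001), (nat_lit 1271251)], [(nat_lit 17), (nat_lit 58), (nat_lit 483), (nat_lit 250), (nat_lit 14)]⟩,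
 ⟨⟨[(nat_lit 120), (nat_lit 140), (nat_lit 160)], [(nat_lit 0), (nat_lit 266), (nat_lit 862)], [((nat_lit 0), (nat_lit 0), (nat_lit 0)), ((nat_lit 960), (nat_lit 1000), (nat_lit 200)), ((nat_lit 874), (nat_lit 1000), (nat_lit 406))], ((nat_lit 100), (nat_lit 86), (nat_lit 44))⟩, (nat_lit 796784), (nat_lit 300), (nat_lit 1229), (nat_lit 17131200), (nat_lit 1952624), [(nat_lit 2055744000), (nat_lit 2539236000), (nat_lit 3062976000)], [], [(nat_lit 17069648768), (nat_lit 16866022692), (nat_lit 16356593414), (nat_lit 16146044410), (nat_lit 15202210293), (nat_lit 14527909905), (nat_lit 18971127125), (nat_lit 17074757023)], (nat_lit 1271251), (nat_lit 1271251), (nat_lit 780000), (nat_lit 1762501), (nat_lit 0), (nat_lit 2825001), [(nat_lit 1695001), (nat_lit 1271251), (nat_lit 1271251)], [(nat_lit 27), (nat_lit 62), (nat_lit 456), (nat_lit 225), (nat_lit 12)]⟩⟩)) (.spl (nat_lit 1) (nat_lit 280) (.leaf ⟨(nat_lit 454), (nat_lit 369), (nat_lit 0), (nat_lit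 177), (nat_lit 0), (nat_lit 5677), (nat_lit 5755), (nat_lit 1208), (nat_lit 0), (nat_lit 0), (nat_lit 1039000), [((nat_lit 320), [((nat_lit 15), (nat_lit 2), (nat_lit 259)), ((nat_lit 35), (nat_lit 5), (nat_lit 195))])], ⟨(nat_lit 6), false, true, false, (nat_lit 254), (nat_lit 4472), (nat_lit 5000), [(nat_lit 1542832), (nat_lit 1543108), (nat_lit 1585664), (nat_lit 1586216), (nat_lit 1685679), (nat_lit 1679054), (nat_lit 1728511), (nat_lit 1722162)]⟩, ⟨(nat_lit 3), false, false, true, (nat_lit 173), (nat_lit 4472), (nat_lit 5000), [(nat_lit 1271427), (nat_lit 1277776), (nat_lit 1378566), (nat_lit 1385605), (nat_lit 1485713), (nat_lit 1481711), (nat_lit 1592840), (nat_lit 1589527)]⟩, (nat_lit 5022029), (nat_lit 40155422), (nat_lit 17392536), (nat_lit 9452042), (nat_lit 3), (nat_lit 0), [], [], [], [],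
 ⟨⟨[(nat_lit 60), (nat_lit 80), (nat_lit 100)], [(nat_lit 0), (nat_lit 304), (nat_lit 825)], [((nat_lit 0), (nat_lit 0), (nat_lit 0)), ((nat_lit 1000), (nat_lit 905), (nat_lit 238)), ((nat_lit 1000), (nat_lit 871), (nat_lit 407))], ((nat_lit 87), (nat_lit 100), (nat_lit 44))⟩, (nat_lit 0), (nat_lit 160), (nat_lit 160), (nat_lit 0), (nat_lit 342648), [(nat_lit 2782036758), (nat_lit 2918047387), (nat_lit 2210512000)], [(nat_lit 0), (nat_lit 0), (nat_lit 0)], [(nat_lit 16776738333), (nat_lit 18188812054), (nat_lit 20714769544), (nat_lit 22254029051), (nat_lit 19512238068), (nat_lit 20948461930), (nat_lit 23201141190), (nat_lit 24424458734)], (nat_lit 1271251), (nat_lit 1271251), (nat_lit 1271251), (nat_lit 1271251), (nat_lit 780000), (nat_lit 1762501), [(nat_lit 780000), (nat_lit 1100000), (nat_lit 1442501)], [(nat_lit 9), (nat_lit 50), (nat_lit 272), (nat_lit 60), (nat_lit 9)]⟩,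
 ⟨⟨[(nat_lit 80), (nat_lit 120), (nat_lit 140)], [(nat_lit 0), (nat_lit 0), (nat_lit 1164)], [((nat_lit 0), (nat_lit 0), (nat_lit 0)), ((nat_lit 0), (nat_lit 0), (nat_lit 0)), ((nat_lit 941), (nat_lit 1000), (nat_lit 576))], ((nat_lit 100), (nat_lit 99), (nat_lit 44))⟩, (nat_lit 8527), (nat_lit 281), (nat_lit 281), (nat_lit 0), (nat_lit 198477), [(nat_lit 2559648000), (nat_lit 4350528000), (nat_lit 5373732000)], [], [(nat_lit 18769374740), (nat_lit 17802451905), (nat_lit 18304286470), (nat_lit 19423200606), (nat_lit 23832435106), (nat_lit 19353101018), (nat_lit 19348265178), (nat_lit 20274896027)], (nat_lit 1271251), (nat_lit 1271251), (nat_lit 1271251), (nat_lit 1271251), (nat_lit 0), (nat_lit 2825001), [(nat_lit 1100000), (nat_lit 1785001), (nat_lit 1271251)], [(nat_lit 17), (nat_lit 58), (nat_lit 483), (nat_lit 250), (nat_lit 14)]⟩,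
 ⟨⟨[(nat_lit 140), (nat_lit 160), (nat_lit 180)], [(nat_lit 0), (nat_lit 0), (nat_lit 799)], [((nat_lit 0), (nat_lit 0), (nat_lit 0)), ((nat_lit 0), (nat_lit 0), (nat_lit 0)), ((nat_lit 728), (nat_lit 1000), (nat_lit 454))], ((nat_lit 100), (nat_lit 71), (nat_lit 48))⟩, (nat_lit 155512), (nat_lit 300), (nat_lit 1238), (nat_lit 13133400), (nat_lit 1758644), [(nat_lit 1742034000), (nat_lit 2101344000), (nat_lit 2488266000)], [], [(nat_lit 16781698245), (nat_lit 16457815748), (nat_lit 16385605597), (nat_lit 16057208137), (nat_lit 15504197373), (nat_lit 15163709174), (nat_lit 15089398427), (nat_lit 14747474216)], (nat_lit 780000), (nat_lit 1598751), (nat_lit 780000), (nat_lit 1762501), (nat_lit 0), (nat_lit 2825001), [(nat_lit 1977501), (nat_lit 1271251), (nat_lit 1271251)], [(nat_lit 31), (nat_lit 65), (nat_lit 456), (nat_lit 225), (nat_lit 11)]⟩⟩) (.leaf ⟨(nat_lit 0), (nat_lit 829), (nat_lit 0), (nat_lit 171), (nat_lit 0), (nat_lit 6272), (nat_lit 8249),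 (nat_lit 1363), (nat_lit 493852), (nat_lit 0), (nat_lit 0), [], Pd.none, Pd.none, (nat_lit 0), (nat_lit 1), (nat_lit 0), (nat_lit 0), (nat_lit 3), (nat_lit 0), [], [], [⟨(nat_lit 1), (nat_lit 63), (nat_lit 88), (nat_lit 100), (nat_lit 162259517)⟩], [],
 ⟨⟨[(nat_lit 60), (nat_lit 80), (nat_lit 100)], [(nat_lit 0), (nat_lit 304), (nat_lit 825)], [((nat_lit 0), (nat_lit 0), (nat_lit 0)), ((nat_lit 1000), (nat_lit 905), (nat_lit 238)), ((nat_lit 1000), (nat_lit 871), (nat_lit 407))], ((nat_lit 87), (nat_lit 100), (nat_lit 44))⟩, (nat_lit 4257268), (nat_lit 253), (nat_lit 253), (nat_lit 0), (nat_lit 575590), [(nat_lit 3282000163), (nat_lit 4688000165), (nat_lit 6250000000)], [], [(nat_lit 17887913042), (nat_lit 19047240462), (nat_lit 20963966700), (nat_lit 22592145536), (nat_lit 20154787622), (nat_lit 21076254350), (nat_lit 23390448472), (nat_lit 24676704224)], (nat_lit 1271251), (nat_lit 1271251), (nat_lit 1271251), (nat_lit 1271251), (nat_lit 780000),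 (nat_lit 1762501), [(nat_lit 780000), (nat_lit 1100000), (nat_lit 1442501)], [(nat_lit 9), (nat_lit 50), (nat_lit 272), (nat_lit 60), (nat_lit 9)]⟩,
 ⟨⟨[(nat_lit 60), (nat_lit 100), (nat_lit 120)], [(nat_lit 0), (nat_lit 0), (nat_lit 1164)], [((nat_lit 0), (nat_lit 0), (nat_lit 0)), ((nat_lit 0), (nat_lit 0), (nat_lit 0)), ((nat_lit 1000), (nat_lit 933), (nat_lit 572))], ((nat_lit 92), (nat_lit 100), (nat_lit 44))⟩, (nat_lit 2581901), (nat_lit 263), (nat_lit 263), (nat_lit 0), (nat_lit 260893), [(nat_lit 3282000000), (nat_lit 6250000000), (nat_lit 7968000000)], [], [(nat_lit 24915165439), (nat_lit 27325932152), (nat_lit 28092904264), (nat_lit 31390573362), (nat_lit 35722200022), (nat_lit 34570502080), (nat_lit 34640589253), (nat_lit 36194493496)], (nat_lit 1271251), (nat_lit 1271251), (nat_lit 1271251), (nat_lit 1271251), (nat_lit 0), (nat_lit 2825001), [(nat_lit 780000), (nat_lit 1435001), (nat_lit 1271251)], [(nat_lit 10), (nat_lit 54), (nat_lit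 401), (nat_lit 175), (nat_lit 13)]⟩,
 ⟨⟨[(nat_lit 140), (nat_lit 160), (nat_lit 180)], [(nat_lit 0), (nat_lit 0), (nat_lit 799)], [((nat_lit 0), (nat_lit 0), (nat_lit 0)), ((nat_lit 0), (nat_lit 0), (nat_lit 0)), ((nat_lit 728), (nat_lit 1000), (nat_lit 454))], ((nat_lit 100), (nat_lit 71), (nat_lit 48))⟩, (nat_lit 150241), (nat_lit 300), (nat_lit 1845), (nat_lit 12688200), (nat_lit 3044374), [(nat_lit 1682982000), (nat_lit 2030112000), (nat_lit 2403918000)], [], [(nat_lit 17454620585), (nat_lit 17047657805), (nat_lit 16961268419), (nat_lit 16555858103), (nat_lit 15855086951), (nat_lit 15451781818), (nat_lit 15366789764), (nat_lit 14965764607)], (nat_lit 780000), (nat_lit 1598751), (nat_lit 780000), (nat_lit 1762501), (nat_lit 0), (nat_lit 2825001), [(nat_lit 1977501), (nat_lit 1271251), (nat_lit 1271251)], [(nat_lit 31), (nat_lit 65), (nat_lit 569), (nat_lit 225), (nat_lit 13)]⟩⟩)))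
noncomputable def c4_35 : Tr Lf :=
 (.spl (nat_lit 1) (nat_lit 280) (.leaf ⟨(nat_lit 979), (nat_lit 8), (nat_lit 0), (nat_lit 13), (nat_lit 893), (nat_lit 4271), (nat_lit 275), (nat_lit 145), (nat_lit 0), (nat_lit 0), (nat_lit 244750), [((nat_lit 320), [((nat_lit 15), (nat_lit 0), (nat_lit 979))])], ⟨(nat_lit 6), false, false, false, (nat_lit 198), (nat_lit 4472), (nat_lit 5000), [(nat_lit 1399984), (nat_lit 1407160), (nat_lit 1442816), (nat_lit 1450269), (nat_lit 1542832), (nat_lit 1543108), (nat_lit 1585664), (nat_lit 1586216)]⟩, ⟨(nat_lit 6), false, false, true, (nat_lit 220), (nat_lit 4472), (nat_lit 5000), [(nat_lit 1485713), (nat_lit 1481711), (nat_lit 1549999), (nat_lit 1546410), (nat_lit 1557141), (nat_lit 1549689), (nat_lit 1621427), (nat_lit 1614388)]⟩, (nat_lit 5034841), (nat_lit 41106556), (nat_lit 11841082), (nat_lit 14052362), (nat_lit 6), (nat_lit 0), [], [], [], [],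
 ⟨⟨[(nat_lit 60), (nat_lit 80), (nat_lit 100)], [(nat_lit 0), (nat_lit 304), (nat_lit 825)], [((nat_lit 0), (nat_lit 0), (nat_lit 0)), ((nat_lit 1000), (nat_lit 905), (nat_lit 238)), ((nat_lit 1000), (nat_lit 871), (nat_lit 407))], ((nat_lit 87), (nat_lit 100), (nat_lit 44))⟩, (nat_lit 0), (nat_lit 40), (nat_lit 40), (nat_lit 0), (nat_lit 0), [(nat_lit 2326350856), (nat_lit 90034568628), (nat_lit 2798829200)], [(nat_lit 0), (nat_lit 0), (nat_lit 0)], [(nat_lit 17846163119), (nat_lit 19182095160), (nat_lit 19555728662), (nat_lit 20725751414), (nat_lit 20126352112), (nat_lit 21455051273), (nat_lit 21561989069), (nat_lit 22725235014)], (nat_lit 0), (nat_lit 0), (nat_lit 0), (nat_lit 0), (nat_lit 0), (nat_lit 0), [], [(nat_lit 9), (nat_lit 50), (nat_lit 260), (nat_lit 50), (nat_lit 9)]⟩,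
 ⟨⟨[(nat_lit 80), (nat_lit 120), (nat_lit 140)], [(nat_lit 0), (nat_lit 0), (nat_lit 1164)], [((nat_lit 0), (nat_lit 0), (nat_lit 0)), ((nat_lit 0), (nat_lit 0), (nat_lit 0)), ((nat_lit 941), (nat_lit 1000), (nat_lit 576))], ((nat_lit 100), (nat_lit 99), (nat_lit 44))⟩, (nat_lit 86793), (nat_lit 440), (nat_lit 440), (nat_lit 0), (nat_lit 472665), [(nat_lit 98448000), (nat_lit 167328000), (nat_lit 206682000)], [], [(nat_lit 816231340), (nat_lit 541345568), (nat_lit 691151842), (nat_lit 556627136), (nat_lit 1252813042), (nat_lit 1017452092), (nat_lit 1557612326), (nat_lit 1327862751)], (nat_lit 1271251), (nat_lit 1271251), (nat_lit 780000), (nat_lit 1435001), (nat_lit 0), (nat_lit 2825001), [(nat_lit 1100000), (nat_lit 1785001), (nat_lit 1271251)], [(nat_lit 17), (nat_lit 58), (nat_lit 456), (nat_lit 225), (nat_lit 13)]⟩,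
 ⟨⟨[(nat_lit 140), (nat_lit 160), (nat_lit 180)], [(nat_lit 0), (nat_lit 0), (nat_lit 799)], [((nat_lit 0), (nat_lit 0), (nat_lit 0)), ((nat_lit 0), (nat_lit 0), (nat_lit 0)), ((nat_lit 728), (nat_lit 1000), (nat_lit 454))], ((nat_lit 100), (nat_lit 71), (nat_lit 48))⟩, (nat_lit 11422), (nat_lit 300), (nat_lit 1855), (nat_lit 964600), (nat_lit 3186117), [(nat_lit 127946000), (nat_lit 154336000), (nat_lit 182754000)], [], [(nat_lit 801196088), (nat_lit 771328838), (nat_lit 793082592), (nat_lit 762710746), (nat_lit 769295248), (nat_lit 893636485), (nat_lit 645215268), (nat_lit 771774788)], (nat_lit 780000), (nat_lit 1271251), (nat_lit 1271251), (nat_lit 1271251), (nat_lit 0), (nat_lit 2825001), [(nat_lit 1977501), (nat_lit 1271251), (nat_lit 1271251)], [(nat_lit 31), (nat_lit 65), (nat_lit 572), (nat_lit 225), (nat_lit 13)]⟩⟩) (.trX (nat_lit 5) (nat_lit 1) (nat_lit 2) (nat_lit 92) (nat_lit 49) (nat_lit 100) (nat_lit 380) (.stt (nat_lit 2) (.leaf ⟨(nat_lit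 0), (nat_lit 1000), (nat_lit 0), (nat_lit 0), (nat_lit 1825), (nat_lit 5058), (nat_lit 7410), (nat_lit 0), (nat_lit 70471), (nat_lit 0), (nat_lit 0), [], Pd.none, Pd.none, (nat_lit 0), (nat_lit 1), (nat_lit 0), (nat_lit 0), (nat_lit 6), (nat_lit 0), [], [], [], [⟨(nat_lit 2), (nat_lit 49), (nat_lit 97), (nat_lit 100), (nat_lit 285199294)⟩],
 ⟨⟨[(nat_lit 60), (nat_lit 80), (nat_lit 100)], [(nat_lit 0), (nat_lit 304), (nat_lit 825)], [((nat_lit 0), (nat_lit 0), (nat_lit 0)), ((nat_lit 1000), (nat_lit 905), (nat_lit 238)), ((nat_lit 1000), (nat_lit 871), (nat_lit 407))], ((nat_lit 87), (nat_lit 100), (nat_lit 44))⟩, (nat_lit 0), (nat_lit 40), (nat_lit 40), (nat_lit 0), (nat_lit 0), [(nat_lit 3282000033), (nat_lit 88967861194), (nat_lit 6250000000)], [], [(nat_lit 18126529307), (nat_lit 19583557825), (nat_lit 19784796222), (nat_lit 21053451717), (nat_lit 20593892871), (nat_lit 21902274254), (nat_lit 21941747258), (nat_lit 23083616101)], (nat_lit 0), (nat_lit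 0), (nat_lit 0), (nat_lit 0), (nat_lit 0), (nat_lit 0), [], [(nat_lit 9), (nat_lit 50), (nat_lit 260), (nat_lit 50), (nat_lit 9)]⟩,
 ⟨⟨[(nat_lit 60), (nat_lit 100), (nat_lit 120)], [(nat_lit 0), (nat_lit 0), (nat_lit 1164)], [((nat_lit 0), (nat_lit 0), (nat_lit 0)), ((nat_lit 0), (nat_lit 0), (nat_lit 0)), ((nat_lit 1000), (nat_lit 933), (nat_lit 572))], ((nat_lit 92), (nat_lit 100), (nat_lit 44))⟩, (nat_lit 2256448), (nat_lit 150), (nat_lit 150), (nat_lit 0), (nat_lit 0), [(nat_lit 3282000000), (nat_lit 6250000000), (nat_lit 7968000000)], [], [(nat_lit 21387337788), (nat_lit 25457087288), (nat_lit 23160069948), (nat_lit 26659241428), (nat_lit 29829281915), (nat_lit 32235206165), (nat_lit 29774306293), (nat_lit 31859621145)], (nat_lit 0), (nat_lit 0), (nat_lit 0), (nat_lit 0), (nat_lit 0), (nat_lit 0), [], [(nat_lit 10), (nat_lit 54), (nat_lit 373), (nat_lit 150), (nat_lit 12)]⟩,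
 Rw.none⟩) (.spl (nat_lit 1) (nat_lit 300) (.leaf ⟨(nat_lit 915), (nat_lit 59), (nat_lit 0), (nat_lit 26), (nat_lit 0), (nat_lit 4097), (nat_lit 756), (nat_lit 257), (nat_lit 0), (nat_lit 0), (nat_lit 270900), [((nat_lit 320), [((nat_lit 15), (nat_lit 0), (nat_lit 634)), ((nat_lit 15), (nat_lit 1), (nat_lit 281))])], ⟨(nat_lit 7), false, false, false, (nat_lit 211), (nat_lit 4472), (nat_lit 5000), [(nat_lit 1442816), (nat_lit 1450269), (nat_lit 1464232), (nat_lit 1471823), (nat_lit 1585664), (nat_lit 1586216), (nat_lit 1607080), (nat_lit 1607770)]⟩, ⟨(nat_lit 6), false, false, true, (nat_lit 220), (nat_lit 4472), (nat_lit 5000), [(nat_lit 1485713), (nat_lit 1481711), (nat_lit 1549999), (nat_lit 1546410), (nat_lit 1557141), (nat_lit 1549689), (nat_lit 1621427), (nat_lit 1614388)]⟩, (nat_lit 5124468), (nat_lit 40234685), (nat_lit 12909496), (nat_lit 13855819), (nat_lit 6), (nat_lit 0), [], [], [⟨(nat_lit 1), (nat_lit 68), (nat_lit 92), (nat_lit 100),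 (nat_lit 334054)⟩], [],
 ⟨⟨[(nat_lit 60), (nat_lit 80), (nat_lit 100)], [(nat_lit 0), (nat_lit 304), (nat_lit 825)], [((nat_lit 0), (nat_lit 0), (nat_lit 0)), ((nat_lit 1000), (nat_lit 905), (nat_lit 238)), ((nat_lit 1000), (nat_lit 871), (nat_lit 407))], ((nat_lit 87), (nat_lit 100), (nat_lit 44))⟩, (nat_lit 0), (nat_lit 40), (nat_lit 40), (nat_lit 0), (nat_lit 0), [(nat_lit 2208282601), (nat_lit 90179897693), (nat_lit 2912491600)], [(nat_lit 0), (nat_lit 0), (nat_lit 0)], [(nat_lit 17877395042), (nat_lit 19186553529), (nat_lit 19598302340), (nat_lit 20746518107), (nat_lit 20116201093), (nat_lit 21356173511), (nat_lit 21571246141), (nat_lit 22653749898)], (nat_lit 0), (nat_lit 0), (nat_lit 0), (nat_lit 0), (nat_lit 0), (nat_lit 0), [], [(nat_lit 9), (nat_lit 50), (nat_lit 260), (nat_lit 50), (nat_lit 9)]⟩,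
 ⟨⟨[(nat_lit 60), (nat_lit 100), (nat_lit 120)], [(nat_lit 0), (nat_lit 0), (nat_lit 1164)], [((nat_lit 0), (nat_lit 0), (nat_lit 0)), ((nat_lit 0), (nat_lit 0), (nat_lit 0)), ((nat_lit 1000), (nat_lit 933), (nat_lit 572))], ((nat_lit 92), (nat_lit 100), (nat_lit 44))⟩, (nat_lit 0), (nat_lit 386), (nat_lit 386), (nat_lit 0), (nat_lit 519177), [(nat_lit 278970000), (nat_lit 531250000), (nat_lit 677280000)], [], [(nat_lit 2901562440), (nat_lit 2504754672), (nat_lit 2398041759), (nat_lit 2493134494), (nat_lit 3432121114), (nat_lit 3102517777), (nat_lit 4333163811), (nat_lit 4011576815)], (nat_lit 1271251), (nat_lit 1271251), (nat_lit 780000), (nat_lit 1435001), (nat_lit 0), (nat_lit 2683751), [(nat_lit 780000), (nat_lit 1435001), (nat_lit 1271251)], [(nat_lit 10), (nat_lit 54), (nat_lit 373), (nat_lit 150), (nat_lit 12)]⟩,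
 ⟨⟨[(nat_lit 140), (nat_lit 160), (nat_lit 180)], [(nat_lit 0), (nat_lit 0), (nat_lit 799)], [((nat_lit 0), (nat_lit 0), (nat_lit 0)), ((nat_lit 0), (nat_lit 0), (nat_lit 0)), ((nat_lit 728), (nat_lit 1000), (nat_lit 454))], ((nat_lit 100), (nat_lit 71), (nat_lit 48))⟩, (nat_lit 22844), (nat_lit 300), (nat_lit 1508), (nat_lit 1929200), (nat_lit 2464014), [(nat_lit 255892000), (nat_lit 308672000), (nat_lit 365508000)], [], [(nat_lit 1872172337), (nat_lit 1819959365), (nat_lit 1848549966), (nat_lit 1796148464), (nat_lit 1555049124), (nat_lit 1697532521), (nat_lit 1530157921), (nat_lit 1480215602)], (nat_lit 780000), (nat_lit 1271251), (nat_lit 1271251), (nat_lit 1271251), (nat_lit 0), (nat_lit 2683751), [(nat_lit 1977501), (nat_lit 1271251), (nat_lit 1271251)], [(nat_lit 31), (nat_lit 65), (nat_lit 482), (nat_lit 225), (nat_lit 11)]⟩⟩) (.trX (nat_lit 5) (nat_lit 1) (nat_lit 2) (nat_lit 87) (nat_lit 59) (nat_lit 100) (nat_lit 370) (.leaf ⟨(nat_lit 0),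 (nat_lit 865), (nat_lit 0), (nat_lit 135), (nat_lit 0), (nat_lit 5077), (nat_lit 6064), (nat_lit 1447), (nat_lit 195218), (nat_lit 0), (nat_lit 0), [], Pd.none, Pd.none, (nat_lit 0), (nat_lit 1), (nat_lit 0), (nat_lit 0), (nat_lit 6), (nat_lit 0), [], [], [⟨(nat_lit 1), (nat_lit 77), (nat_lit 86), (nat_lit 100), (nat_lit 193710367)⟩], [],
 ⟨⟨[(nat_lit 60), (nat_lit 80), (nat_lit 100)], [(nat_lit 0), (nat_lit 304), (nat_lit 825)], [((nat_lit 0), (nat_lit 0), (nat_lit 0)), ((nat_lit 1000), (nat_lit 905), (nat_lit 238)), ((nat_lit 1000), (nat_lit 871), (nat_lit 407))], ((nat_lit 87), (nat_lit 100), (nat_lit 44))⟩, (nat_lit 0), (nat_lit 40), (nat_lit 40), (nat_lit 0), (nat_lit 0), [(nat_lit 3282000025), (nat_lit 90909410220), (nat_lit 6250000000)], [], [(nat_lit 18110226406), (nat_lit 19570178473), (nat_lit 19767254854), (nat_lit 21038291571), (nat_lit 20582108797), (nat_lit 21913071251), (nat_lit 21927843910), (nat_lit 23071719167)], (nat_lit 0), (nat_lit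 0), (nat_lit 0), (nat_lit 0), (nat_lit 0), (nat_lit 0), [], [(nat_lit 9), (nat_lit 50), (nat_lit 260), (nat_lit 50), (nat_lit 9)]⟩,
 ⟨⟨[(nat_lit 60), (nat_lit 80), (nat_lit 100)], [(nat_lit 0), (nat_lit 304), (nat_lit 825)], [((nat_lit 0), (nat_lit 0), (nat_lit 0)), ((nat_lit 1000), (nat_lit 905), (nat_lit 238)), ((nat_lit 1000), (nat_lit 871), (nat_lit 407))], ((nat_lit 87), (nat_lit 100), (nat_lit 44))⟩, (nat_lit 8295894), (nat_lit 342), (nat_lit 342), (nat_lit 0), (nat_lit 575283), [(nat_lit 3282000000), (nat_lit 4688000000), (nat_lit 6250000000)], [], [(nat_lit 22200836920), (nat_lit 20946534240), (nat_lit 20487088948), (nat_lit 22679635904), (nat_lit 29591713018), (nat_lit 29585756340), (nat_lit 37684962517), (nat_lit 35097528380)], (nat_lit 1271251), (nat_lit 1271251), (nat_lit 780000), (nat_lit 1435001), (nat_lit 0), (nat_lit 2613125), [(nat_lit 780000), (nat_lit 1100000), (nat_lit 1442501)], [(nat_lit 9), (nat_lit 50), (nat_lit 373), (nat_lit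 150), (nat_lit 14)]⟩,
 ⟨⟨[(nat_lit 140), (nat_lit 160), (nat_lit 180)], [(nat_lit 0), (nat_lit 0), (nat_lit 799)], [((nat_lit 0), (nat_lit 0), (nat_lit 0)), ((nat_lit 0), (nat_lit 0), (nat_lit 0)), ((nat_lit 728), (nat_lit 1000), (nat_lit 454))], ((nat_lit 100), (nat_lit 71), (nat_lit 48))⟩, (nat_lit 118611), (nat_lit 300), (nat_lit 1782), (nat_lit 10017000), (nat_lit 3044374), [(nat_lit 1328670000), (nat_lit 1602720000), (nat_lit 1897830000)], [], [(nat_lit 8655411760), (nat_lit 8357176728), (nat_lit 8530262078), (nat_lit 8224401257), (nat_lit 7567977381), (nat_lit 8801698187), (nat_lit 6727255119), (nat_lit 7574390500)], (nat_lit 780000), (nat_lit 1271251), (nat_lit 1271251), (nat_lit 1271251), (nat_lit 0), (nat_lit 2613125), [(nat_lit 1977501), (nat_lit 1271251), (nat_lit 1271251)], [(nat_lit 31), (nat_lit 65), (nat_lit 550), (nat_lit 225), (nat_lit 13)]⟩⟩))))))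
noncomputable def c4_36 : Tr Lf :=
 (.spl (nat_lit 5) (nat_lit 200) (.spl (nat_lit 1) (nat_lit 260) (.leaf ⟨(nat_lit 901), (nat_lit 79), (nat_lit 0), (nat_lit 20), (nat_lit 562), (nat_lit 3912), (nat_lit 975), (nat_lit 239), (nat_lit 0), (nat_lit 0), (nat_lit 289450), [((nat_lit 320), [((nat_lit 15), (nat_lit 0), (nat_lit 473)), ((nat_lit 15), (nat_lit 1), (nat_lit 428))])], ⟨(nat_lit 6), false, false, false, (nat_lit 194), (nat_lit 4472), (nat_lit 5000), [(nat_lit 1399984), (nat_lit 1407160), (nat_lit 1421400), (nat_lit 1428715), (nat_lit 1542832), (nat_lit 1543108), (nat_lit 1564248), (nat_lit 1564662)]⟩, ⟨(nat_lit 7), false, false, true, (nat_lit 248), (nat_lit 4472), (nat_lit 5000), [(nat_lit 1557141), (nat_lit 1549689), (nat_lit 1621427), (nat_lit 1614388), (nat_lit 1628570), (nat_lit 1617667), (nat_lit 1692851), (nat_lit 1682362)]⟩, (nat_lit 5156353), (nat_lit 39341878), (nat_lit 11111334), (nat_lit 16546788), (nat_lit 7), (nat_lit 0), [], [],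 [], [],
 ⟨⟨[(nat_lit 60), (nat_lit 80), (nat_lit 100)], [(nat_lit 0), (nat_lit 304), (nat_lit 825)], [((nat_lit 0), (nat_lit 0), (nat_lit 0)), ((nat_lit 1000), (nat_lit 905), (nat_lit 238)), ((nat_lit 1000), (nat_lit 871), (nat_lit 407))], ((nat_lit 87), (nat_lit 100), (nat_lit 44))⟩, (nat_lit 0), (nat_lit 54), (nat_lit 54), (nat_lit 0), (nat_lit 0), [(nat_lit 2167326001), (nat_lit 90524654058), (nat_lit 2903279600)], [(nat_lit 0), (nat_lit 0), (nat_lit 0)], [(nat_lit 20189984083), (nat_lit 21348483849), (nat_lit 21665664169), (nat_lit 22686514553), (nat_lit 22384810268), (nat_lit 23518575680), (nat_lit 23603185141), (nat_lit 24583133136)], (nat_lit 0), (nat_lit 0), (nat_lit 0), (nat_lit 0), (nat_lit 0), (nat_lit 0), [], [(nat_lit 9), (nat_lit 50), (nat_lit 260), (nat_lit 50), (nat_lit 8)]⟩,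
 ⟨⟨[(nat_lit 80), (nat_lit 120), (nat_lit 140)], [(nat_lit 0), (nat_lit 0), (nat_lit 1164)], [((nat_lit 0), (nat_lit 0), (nat_lit 0)), ((nat_lit 0), (nat_lit 0), (nat_lit 0)), ((nat_lit 941), (nat_lit 1000), (nat_lit 576))], ((nat_lit 100), (nat_lit 99), (nat_lit 44))⟩, (nat_lit 0), (nat_lit 378), (nat_lit 378), (nat_lit 0), (nat_lit 395317), [(nat_lit 464112000), (nat_lit 788832000), (nat_lit 974358000)], [], [(nat_lit 3695468460), (nat_lit 3191359823), (nat_lit 3485996898), (nat_lit 3168889577), (nat_lit 3988768848), (nat_lit 3544215892), (nat_lit 5024441319), (nat_lit 4591225663)], (nat_lit 1271251), (nat_lit 1271251), (nat_lit 780000), (nat_lit 1435001), (nat_lit 0), (nat_lit 1412501), [(nat_lit 1100000), (nat_lit 1785001), (nat_lit 1271251)], [(nat_lit 17), (nat_lit 58), (nat_lit 401), (nat_lit 175), (nat_lit 12)]⟩,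
 ⟨⟨[(nat_lit 140), (nat_lit 160), (nat_lit 180)], [(nat_lit 0), (nat_lit 0), (nat_lit 799)], [((nat_lit 0), (nat_lit 0), (nat_lit 0)), ((nat_lit 0), (nat_lit 0), (nat_lit 0)), ((nat_lit 728), (nat_lit 1000), (nat_lit 454))], ((nat_lit 100), (nat_lit 71), (nat_lit 48))⟩, (nat_lit 17572), (nat_lit 300), (nat_lit 1442), (nat_lit 1484000), (nat_lit 2350063), [(nat_lit 196840000), (nat_lit 237440000), (nat_lit 281160000)], [], [(nat_lit 1169385200), (nat_lit 1120844251), (nat_lit 1166197216), (nat_lit 1120922611), (nat_lit 930773797), (nat_lit 883444435), (nat_lit 921563998), (nat_lit 875049396)], (nat_lit 780000), (nat_lit 1271251), (nat_lit 1271251), (nat_lit 1271251), (nat_lit 0), (nat_lit 1412501), [(nat_lit 1977501), (nat_lit 1271251), (nat_lit 1271251)], [(nat_lit 31), (nat_lit 65), (nat_lit 448), (nat_lit 175), (nat_lit 10)]⟩⟩) (.leaf ⟨(nat_lit 505), (nat_lit 454), (nat_lit 0), (nat_lit 41), (nat_lit 0), (nat_lit 4197), (nat_lit 2639), (nat_lit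 488), (nat_lit 0), (nat_lit 0), (nat_lit 126250), [((nat_lit 320), [((nat_lit 15), (nat_lit 0), (nat_lit 505))])], ⟨(nat_lit 6), false, false, false, (nat_lit 202), (nat_lit 4472), (nat_lit 5000), [(nat_lit 1421400), (nat_lit 1428715), (nat_lit 1442816), (nat_lit 1450269), (nat_lit 1564248), (nat_lit 1564662), (nat_lit 1585664), (nat_lit 1586216)]⟩, ⟨(nat_lit 7), false, false, true, (nat_lit 248), (nat_lit 4472), (nat_lit 5000), [(nat_lit 1557141), (nat_lit 1549689), (nat_lit 1621427), (nat_lit 1614388), (nat_lit 1628570), (nat_lit 1617667), (nat_lit 1692851), (nat_lit 1682362)]⟩, (nat_lit 5216743), (nat_lit 38817295), (nat_lit 11792375), (nat_lit 16390330), (nat_lit 7), (nat_lit 0), [], [], [], [],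
 ⟨⟨[(nat_lit 60), (nat_lit 80), (nat_lit 100)], [(nat_lit 0), (nat_lit 304), (nat_lit 825)], [((nat_lit 0), (nat_lit 0), (nat_lit 0)), ((nat_lit 1000), (nat_lit 905), (nat_lit 238)), ((nat_lit 1000), (nat_lit 871), (nat_lit 407))], ((nat_lit 87), (nat_lit 100), (nat_lit 44))⟩, (nat_lit 0), (nat_lit 54), (nat_lit 54), (nat_lit 0), (nat_lit 0), [(nat_lit 2574798003), (nat_lit 90230006722), (nat_lit 4469774000)], [(nat_lit 0), (nat_lit 0), (nat_lit 0)], [(nat_lit 20420695095), (nat_lit 21616406741), (nat_lit 21864586068), (nat_lit 22915532665), (nat_lit 22683284446), (nat_lit 23750249330), (nat_lit 23856677343), (nat_lit 24797822021)], (nat_lit 0), (nat_lit 0), (nat_lit 0), (nat_lit 0), (nat_lit 0), (nat_lit 0), [], [(nat_lit 9), (nat_lit 50), (nat_lit 260), (nat_lit 50), (nat_lit 8)]⟩,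
 ⟨⟨[(nat_lit 80), (nat_lit 100), (nat_lit 120)], [(nat_lit 0), (nat_lit 265), (nat_lit 768)], [((nat_lit 0), (nat_lit 0), (nat_lit 0)), ((nat_lit 1000), (nat_lit 959), (nat_lit 206)), ((nat_lit 1000), (nat_lit 958), (nat_lit 392))], ((nat_lit 96), (nat_lit 100), (nat_lit 44))⟩, (nat_lit 1769570), (nat_lit 332), (nat_lit 332), (nat_lit 0), (nat_lit 458756), [(nat_lit 2320560000), (nat_lit 3093750000), (nat_lit 3944160000)], [], [(nat_lit 17503442052), (nat_lit 16118289010), (nat_lit 14688389689), (nat_lit 14659611078), (nat_lit 16685306555), (nat_lit 15466072061), (nat_lit 20050987929), (nat_lit 18863280249)], (nat_lit 1271251), (nat_lit 1271251), (nat_lit 780000), (nat_lit 1435001), (nat_lit 0), (nat_lit 1412501), [(nat_lit 1100000), (nat_lit 1442501), (nat_lit 1271251)], [(nat_lit 16), (nat_lit 54), (nat_lit 317), (nat_lit 100), (nat_lit 10)]⟩,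
 ⟨⟨[(nat_lit 140), (nat_lit 160), (nat_lit 180)], [(nat_lit 0), (nat_lit 0), (nat_lit 799)], [((nat_lit 0), (nat_lit 0), (nat_lit 0)), ((nat_lit 0), (nat_lit 0), (nat_lit 0)), ((nat_lit 728), (nat_lit 1000), (nat_lit 454))], ((nat_lit 100), (nat_lit 71), (nat_lit 48))⟩, (nat_lit 36023), (nat_lit 300), (nat_lit 1839), (nat_lit 3042200), (nat_lit 3186136), [(nat_lit 403522000), (nat_lit 486752000), (nat_lit 576378000)], [], [(nat_lit 2403000116), (nat_lit 2304023601), (nat_lit 2393538220), (nat_lit 2301248338), (nat_lit 1916190790), (nat_lit 1819680674), (nat_lit 1897486906), (nat_lit 1799646108)], (nat_lit 780000), (nat_lit 1271251), (nat_lit 1271251), (nat_lit 1271251), (nat_lit 0), (nat_lit 1412501), [(nat_lit 1977501), (nat_lit 1271251), (nat_lit 1271251)], [(nat_lit 31), (nat_lit 65), (nat_lit 548), (nat_lit 175), (nat_lit 13)]⟩⟩)) (.spl (nat_lit 1) (nat_lit 260) (.leaf ⟨(nat_lit 826), (nat_lit 141), (nat_lit 0), (nat_lit 33), (nat_lit 0), (nat_lit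 3873), (nat_lit 1666), (nat_lit 359), (nat_lit 0), (nat_lit 0), (nat_lit 274600), [((nat_lit 320), [((nat_lit 15), (nat_lit 0), (nat_lit 372)), ((nat_lit 15), (nat_lit 1), (nat_lit 454))])], ⟨(nat_lit 6), false, false, false, (nat_lit 194), (nat_lit 4472), (nat_lit 5000), [(nat_lit 1399984), (nat_lit 1407160), (nat_lit 1421400), (nat_lit 1428715), (nat_lit 1542832), (nat_lit 1543108), (nat_lit 1564248), (nat_lit 1564662)]⟩, ⟨(nat_lit 7), false, false, true, (nat_lit 248), (nat_lit 4472), (nat_lit 5000), [(nat_lit 1557141), (nat_lit 1549689), (nat_lit 1621427), (nat_lit 1614388), (nat_lit 1628570), (nat_lit 1617667), (nat_lit 1692851), (nat_lit 1682362)]⟩, (nat_lit 5156353), (nat_lit 39341878), (nat_lit 11111334), (nat_lit 16546788), (nat_lit 7), (nat_lit 0), [], [], [], [⟨(nat_lit 2), (nat_lit 100), (nat_lit 98), (nat_lit 97), (nat_lit 61478276)⟩],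
 ⟨⟨[(nat_lit 60), (nat_lit 80), (nat_lit 100)], [(nat_lit 0), (nat_lit 304), (nat_lit 825)], [((nat_lit 0), (nat_lit 0), (nat_lit 0)), ((nat_lit 1000), (nat_lit 905), (nat_lit 238)), ((nat_lit 1000), (nat_lit 871), (nat_lit 407))], ((nat_lit 87), (nat_lit 100), (nat_lit 44))⟩, (nat_lit 0), (nat_lit 54), (nat_lit 54), (nat_lit 0), (nat_lit 0), [(nat_lit 2222760403), (nat_lit 90314794561), (nat_lit 3157311200)], [(nat_lit 0), (nat_lit 0), (nat_lit 0)], [(nat_lit 20269606831), (nat_lit 21423014445), (nat_lit 21749637007), (nat_lit 22766368961), (nat_lit 22455138290), (nat_lit 23487262135), (nat_lit 23679690463), (nat_lit 24593011965)], (nat_lit 0), (nat_lit 0), (nat_lit 0), (nat_lit 0), (nat_lit 0), (nat_lit 0), [], [(nat_lit 9), (nat_lit 50), (nat_lit 260), (nat_lit 50), (nat_lit 8)]⟩,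
 ⟨⟨[(nat_lit 80), (nat_lit 120), (nat_lit 140)], [(nat_lit 0), (nat_lit 0), (nat_lit 1164)], [((nat_lit 0), (nat_lit 0), (nat_lit 0)), ((nat_lit 0), (nat_lit 0), (nat_lit 0)), ((nat_lit 941), (nat_lit 1000), (nat_lit 576))], ((nat_lit 100), (nat_lit 99), (nat_lit 44))⟩, (nat_lit 592216), (nat_lit 297), (nat_lit 297), (nat_lit 0), (nat_lit 395317), [(nat_lit 815712000), (nat_lit 1386432000), (nat_lit 1712508000)], [], [(nat_lit 3933997086), (nat_lit 3864705364), (nat_lit 5024183746), (nat_lit 4244112150), (nat_lit 5525004970), (nat_lit 5630657545), (nat_lit 5356949414), (nat_lit 5529170874)], (nat_lit 1271251), (nat_lit 1271251), (nat_lit 780000), (nat_lit 1435001), (nat_lit 1271251), (nat_lit 1271251), [(nat_lit 1100000), (nat_lit 1785001), (nat_lit 1271251)], [(nat_lit 17), (nat_lit 58), (nat_lit 456), (nat_lit 225), (nat_lit 13)]⟩,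
 ⟨⟨[(nat_lit 140), (nat_lit 160), (nat_lit 180)], [(nat_lit 0), (nat_lit 0), (nat_lit 799)], [((nat_lit 0), (nat_lit 0), (nat_lit 0)), ((nat_lit 0), (nat_lit 0), (nat_lit 0)), ((nat_lit 728), (nat_lit 1000), (nat_lit 454))], ((nat_lit 100), (nat_lit 71), (nat_lit 48))⟩, (nat_lit 28994), (nat_lit 300), (nat_lit 1322), (nat_lit 2448600), (nat_lit 2350063), [(nat_lit 324786000), (nat_lit 391776000), (nat_lit 463914000)], [], [(nat_lit 1723355441), (nat_lit 1649042615), (nat_lit 1694440152), (nat_lit 1619614366), (nat_lit 1616820076), (nat_lit 1540613640), (nat_lit 1598790506), (nat_lit 1523944364)], (nat_lit 780000), (nat_lit 1271251), (nat_lit 1271251), (nat_lit 1271251), (nat_lit 1271251), (nat_lit 1271251), [(nat_lit 1977501), (nat_lit 1271251), (nat_lit 1271251)], [(nat_lit 31), (nat_lit 65), (nat_lit 456), (nat_lit 225), (nat_lit 10)]⟩⟩) (.leaf ⟨(nat_lit 0), (nat_lit 915), (nat_lit 0), (nat_lit 85), (nat_lit 0), (nat_lit 4847), (nat_lit 6492), (nat_lit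 924), (nat_lit 0), (nat_lit 0), (nat_lit 0), [], Pd.none, Pd.none, (nat_lit 0), (nat_lit 1), (nat_lit 0), (nat_lit 0), (nat_lit 7), (nat_lit 0), [], [⟨(nat_lit 1), (nat_lit 77), (nat_lit 86), (nat_lit 100), (nat_lit 43339686)⟩], [], [⟨(nat_lit 2), (nat_lit 68), (nat_lit 88), (nat_lit 100), (nat_lit 80106413)⟩, ⟨(nat_lit 2), (nat_lit 100), (nat_lit 98), (nat_lit 97), (nat_lit 350495705)⟩],
 ⟨⟨[(nat_lit 60), (nat_lit 80), (nat_lit 100)], [(nat_lit 0), (nat_lit 304), (nat_lit 825)], [((nat_lit 0), (nat_lit 0), (nat_lit 0)), ((nat_lit 1000), (nat_lit 905), (nat_lit 238)), ((nat_lit 1000), (nat_lit 871), (nat_lit 407))], ((nat_lit 87), (nat_lit 100), (nat_lit 44))⟩, (nat_lit 0), (nat_lit 54), (nat_lit 54), (nat_lit 0), (nat_lit 0), [(nat_lit 3282000001), (nat_lit 90788442843), (nat_lit 6250000000)], [], [(nat_lit 20724757993), (nat_lit 22005338839), (nat_lit 22096147478), (nat_lit 23215734563), (nat_lit 23141938794), (nat_lit 24278627830), (nat_lit 24212697341),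 (nat_lit 25209660119)], (nat_lit 0), (nat_lit 0), (nat_lit 0), (nat_lit 0), (nat_lit 0), (nat_lit 0), [], [(nat_lit 9), (nat_lit 50), (nat_lit 260), (nat_lit 50), (nat_lit 8)]⟩,
 ⟨⟨[(nat_lit 80), (nat_lit 100), (nat_lit 120)], [(nat_lit 0), (nat_lit 265), (nat_lit 768)], [((nat_lit 0), (nat_lit 0), (nat_lit 0)), ((nat_lit 1000), (nat_lit 959), (nat_lit 206)), ((nat_lit 1000), (nat_lit 958), (nat_lit 392))], ((nat_lit 96), (nat_lit 100), (nat_lit 44))⟩, (nat_lit 8968956), (nat_lit 279), (nat_lit 279), (nat_lit 0), (nat_lit 458756), [(nat_lit 4688000000), (nat_lit 6250000000), (nat_lit 7968000000)], [], [(nat_lit 19378563351), (nat_lit 20381343070), (nat_lit 20637182601), (nat_lit 21467798416), (nat_lit 28867919140), (nat_lit 29767314665), (nat_lit 29002331034), (nat_lit 29818277647)], (nat_lit 1271251), (nat_lit 1271251), (nat_lit 780000), (nat_lit 1435001), (nat_lit 1271251), (nat_lit 1271251), [(nat_lit 1100000), (nat_lit 1442501), (nat_lit 1271251)],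 [(nat_lit 16), (nat_lit 54), (nat_lit 373), (nat_lit 150), (nat_lit 12)]⟩,
 ⟨⟨[(nat_lit 140), (nat_lit 160), (nat_lit 180)], [(nat_lit 0), (nat_lit 0), (nat_lit 799)], [((nat_lit 0), (nat_lit 0), (nat_lit 0)), ((nat_lit 0), (nat_lit 0), (nat_lit 0)), ((nat_lit 728), (nat_lit 1000), (nat_lit 454))], ((nat_lit 100), (nat_lit 71), (nat_lit 48))⟩, (nat_lit 74681), (nat_lit 300), (nat_lit 1723), (nat_lit 6307000), (nat_lit 3186136), [(nat_lit 836570000), (nat_lit 1009120000), (nat_lit 1194930000)], [], [(nat_lit 4461174536), (nat_lit 4274554395), (nat_lit 4370242442), (nat_lit 4183282769), (nat_lit 4167743778), (nat_lit 3971649054), (nat_lit 4120221781), (nat_lit 3927633230)], (nat_lit 780000), (nat_lit 1271251), (nat_lit 1271251), (nat_lit 1271251), (nat_lit 1271251), (nat_lit 1271251), [(nat_lit 1977501), (nat_lit 1271251), (nat_lit 1271251)], [(nat_lit 31), (nat_lit 65), (nat_lit 542), (nat_lit 225), (nat_lit 12)]⟩⟩)))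
noncomputable def c4_37 : Tr Lf :=
 (.trX (nat_lit 5) (nat_lit 1) (nat_lit 2) (nat_lit 92) (nat_lit 49) (nat_lit 100) (nat_lit 380) (.stt (nat_lit 2) (.spl (nat_lit 2) (nat_lit 160) (.trX (nat_lit 5) (nat_lit 1) (nat_lit 2) (nat_lit 94) (nat_lit 59) (nat_lit 100) (nat_lit 370) (.leaf ⟨(nat_lit 0), (nat_lit 1000), (nat_lit 0), (nat_lit 0), (nat_lit 1920), (nat_lit 4951), (nat_lit 7591), (nat_lit 0), (nat_lit 189428), (nat_lit 0), (nat_lit 0), [], Pd.none, Pd.none, (nat_lit 0), (nat_lit 1), (nat_lit 0), (nat_lit 0), (nat_lit 7), (nat_lit 0), [], [], [], [⟨(nat_lit 2), (nat_lit 68), (nat_lit 88), (nat_lit 100), (nat_lit 287342587)⟩],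
 ⟨⟨[(nat_lit 60), (nat_lit 80), (nat_lit 100)], [(nat_lit 0), (nat_lit 304), (nat_lit 825)], [((nat_lit 0), (nat_lit 0), (nat_lit 0)), ((nat_lit 1000), (nat_lit 905), (nat_lit 238)), ((nat_lit 1000), (nat_lit 871), (nat_lit 407))], ((nat_lit 87), (nat_lit 100), (nat_lit 44))⟩, (nat_lit 0), (nat_lit 54), (nat_lit 54), (nat_lit 0), (nat_lit 0), [(nat_lit 3282000015), (nat_lit 90719454659), (nat_lit 6250000000)], [], [(nat_lit 20660255751), (nat_lit 21954415669), (nat_lit 22020044998), (nat_lit 23150614561), (nat_lit 23102319252), (nat_lit 24363168390), (nat_lit 24156508235), (nat_lit 25215445678)], (nat_lit 0), (nat_lit 0), (nat_lit 0), (nat_lit 0), (nat_lit 0), (nat_lit 0), [], [(nat_lit 9), (nat_lit 50), (nat_lit 260), (nat_lit 50), (nat_lit 8)]⟩,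
 ⟨⟨[(nat_lit 60), (nat_lit 100), (nat_lit 120)], [(nat_lit 0), (nat_lit 0), (nat_lit 1164)], [((nat_lit 0), (nat_lit 0), (nat_lit 0)), ((nat_lit 0), (nat_lit 0), (nat_lit 0)), ((nat_lit 1000), (nat_lit 933), (nat_lit 572))], ((nat_lit 92), (nat_lit 100), (nat_lit 44))⟩, (nat_lit 2315972), (nat_lit 150), (nat_lit 150), (nat_lit 0), (nat_lit 0), [(nat_lit 3282000000), (nat_lit 6250000000), (nat_lit 7968000000)], [], [(nat_lit 21312709818), (nat_lit 25446379468), (nat_lit 23076984934), (nat_lit 26628524782), (nat_lit 28924048597), (nat_lit 31480998117), (nat_lit 28964637205), (nat_lit 31177138550)], (nat_lit 0), (nat_lit 0), (nat_lit 0), (nat_lit 0), (nat_lit 0), (nat_lit 0), [], [(nat_lit 10), (nat_lit 54), (nat_lit 373), (nat_lit 150), (nat_lit 12)]⟩,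
 Rw.none⟩)) (.leaf ⟨(nat_lit 0), (nat_lit 954), (nat_lit 0), (nat_lit 46), (nat_lit 0), (nat_lit 4847), (nat_lit 7048), (nat_lit 490), (nat_lit 7744), (nat_lit 0), (nat_lit 0), [], Pd.none, Pd.none, (nat_lit 0), (nat_lit 1), (nat_lit 0), (nat_lit 0), (nat_lit 7), (nat_lit 0), [⟨(nat_lit 0), (nat_lit 97), (nat_lit 93), (nat_lit 100), (nat_lit 4297497)⟩], [], [], [⟨(nat_lit 2), (nat_lit 68), (nat_lit 88), (nat_lit 100), (nat_lit 247566349)⟩],
 ⟨⟨[(nat_lit 60), (nat_lit 80), (nat_lit 100)], [(nat_lit 0), (nat_lit 304), (nat_lit 825)], [((nat_lit 0), (nat_lit 0), (nat_lit 0)), ((nat_lit 1000), (nat_lit 905), (nat_lit 238)), ((nat_lit 1000), (nat_lit 871), (nat_lit 407))], ((nat_lit 87), (nat_lit 100), (nat_lit 44))⟩, (nat_lit 0), (nat_lit 54), (nat_lit 54), (nat_lit 0), (nat_lit 0), [(nat_lit 3282000001), (nat_lit 90015862361), (nat_lit 6250000000)], [], [(nat_lit 20724757993), (nat_lit 22005338839), (nat_lit 22096147478), (nat_lit 23215734563), (nat_lit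 23141938794), (nat_lit 24278627830), (nat_lit 24212697341), (nat_lit 25209660119)], (nat_lit 0), (nat_lit 0), (nat_lit 0), (nat_lit 0), (nat_lit 0), (nat_lit 0), [], [(nat_lit 9), (nat_lit 50), (nat_lit 260), (nat_lit 50), (nat_lit 8)]⟩,
 ⟨⟨[(nat_lit 60), (nat_lit 100), (nat_lit 120)], [(nat_lit 0), (nat_lit 0), (nat_lit 1164)], [((nat_lit 0), (nat_lit 0), (nat_lit 0)), ((nat_lit 0), (nat_lit 0), (nat_lit 0)), ((nat_lit 1000), (nat_lit 933), (nat_lit 572))], ((nat_lit 92), (nat_lit 100), (nat_lit 44))⟩, (nat_lit 2258445), (nat_lit 150), (nat_lit 150), (nat_lit 0), (nat_lit 0), [(nat_lit 3282000000), (nat_lit 6250000000), (nat_lit 7968000000)], [], [(nat_lit 21395697348), (nat_lit 25337606548), (nat_lit 23185343596), (nat_lit 26579778340), (nat_lit 29892348856), (nat_lit 31754902212), (nat_lit 29889640598), (nat_lit 31496795368)], (nat_lit 0), (nat_lit 0), (nat_lit 0), (nat_lit 0), (nat_lit 0), (nat_lit 0), [], [(nat_lit 10), (nat_lit 54), (nat_lit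 373), (nat_lit 150), (nat_lit 12)]⟩,
 ⟨⟨[(nat_lit 120), (nat_lit 160), (nat_lit 180)], [(nat_lit 0), (nat_lit 0), (nat_lit 1613)], [((nat_lit 0), (nat_lit 0), (nat_lit 0)), ((nat_lit 0), (nat_lit 0), (nat_lit 0)), ((nat_lit 620), (nat_lit 1000), (nat_lit 670))], ((nat_lit 100), (nat_lit 81), (nat_lit 44))⟩, (nat_lit 20020), (nat_lit 300), (nat_lit 1513), (nat_lit 3413200), (nat_lit 2551123), [(nat_lit 366528000), (nat_lit 546112000), (nat_lit 646668000)], [], [(nat_lit 2855257704), (nat_lit 2824978477), (nat_lit 2814510712), (nat_lit 2785122414), (nat_lit 2233170537), (nat_lit 2202976145), (nat_lit 2197895286), (nat_lit 2169674151)], (nat_lit 1100000), (nat_lit 1271251), (nat_lit 1271251), (nat_lit 1271251), (nat_lit 0), (nat_lit 2683751), [(nat_lit 1695001), (nat_lit 1271251), (nat_lit 1271251)], [(nat_lit 28), (nat_lit 65), (nat_lit 489), (nat_lit 225), (nat_lit 11)]⟩⟩)) (.spl (nat_lit 5) (nat_lit 200) (.leaf ⟨(nat_lit 0), (nat_lit 874), (nat_lit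 0), (nat_lit 126), (nat_lit 0), (nat_lit 4847), (nat_lit 7969), (nat_lit 1498), (nat_lit 8842), (nat_lit 0), (nat_lit 0), [], Pd.none, Pd.none, (nat_lit 0), (nat_lit 1), (nat_lit 0), (nat_lit 0), (nat_lit 7), (nat_lit 0), [⟨(nat_lit 0), (nat_lit 83), (nat_lit 83), (nat_lit 100), (nat_lit 319396)⟩], [⟨(nat_lit 1), (nat_lit 77), (nat_lit 86), (nat_lit 100), (nat_lit 289014383)⟩], [], [],
 ⟨⟨[(nat_lit 60), (nat_lit 80), (nat_lit 100)], [(nat_lit 0), (nat_lit 304), (nat_lit 825)], [((nat_lit 0), (nat_lit 0), (nat_lit 0)), ((nat_lit 1000), (nat_lit 905), (nat_lit 238)), ((nat_lit 1000), (nat_lit 871), (nat_lit 407))], ((nat_lit 87), (nat_lit 100), (nat_lit 44))⟩, (nat_lit 452336), (nat_lit 54), (nat_lit 54), (nat_lit 0), (nat_lit 0), [(nat_lit 3282000002), (nat_lit 90784130869), (nat_lit 6250000000)], [], [(nat_lit 20724757994), (nat_lit 22005338840), (nat_lit 22096147479), (nat_lit 23215734564), (nat_lit 23141938795), (nat_lit 24278627830), (nat_lit 24212697342),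 (nat_lit 25209660120)], (nat_lit 0), (nat_lit 0), (nat_lit 0), (nat_lit 0), (nat_lit 0), (nat_lit 0), [], [(nat_lit 9), (nat_lit 50), (nat_lit 260), (nat_lit 50), (nat_lit 8)]⟩,
 ⟨⟨[(nat_lit 60), (nat_lit 100), (nat_lit 120)], [(nat_lit 0), (nat_lit 0), (nat_lit 1164)], [((nat_lit 0), (nat_lit 0), (nat_lit 0)), ((nat_lit 0), (nat_lit 0), (nat_lit 0)), ((nat_lit 1000), (nat_lit 933), (nat_lit 572))], ((nat_lit 92), (nat_lit 100), (nat_lit 44))⟩, (nat_lit 3873499), (nat_lit 418), (nat_lit 418), (nat_lit 0), (nat_lit 586980), [(nat_lit 3282000000), (nat_lit 6250000000), (nat_lit 7968000000)], [], [(nat_lit 28039878359), (nat_lit 28760588438), (nat_lit 27105055663), (nat_lit 29440799640), (nat_lit 27699626882), (nat_lit 25257923673), (nat_lit 36661934850), (nat_lit 29488882554)], (nat_lit 1271251), (nat_lit 1271251), (nat_lit 780000), (nat_lit 1435001), (nat_lit 0), (nat_lit 1412501), [(nat_lit 780000), (nat_lit 1435001), (nat_lit 1271251)], [(nat_lit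 10), (nat_lit 54), (nat_lit 317), (nat_lit 100), (nat_lit 10)]⟩,
 ⟨⟨[(nat_lit 140), (nat_lit 160), (nat_lit 180)], [(nat_lit 0), (nat_lit 0), (nat_lit 799)], [((nat_lit 0), (nat_lit 0), (nat_lit 0)), ((nat_lit 0), (nat_lit 0), (nat_lit 0)), ((nat_lit 728), (nat_lit 1000), (nat_lit 454))], ((nat_lit 100), (nat_lit 71), (nat_lit 48))⟩, (nat_lit 1844568), (nat_lit 300), (nat_lit 1766), (nat_lit 9349200), (nat_lit 3044374), [(nat_lit 1240092000), (nat_lit 1495872000), (nat_lit 1771308000)], [], [(nat_lit 7389873176), (nat_lit 7086167613), (nat_lit 7358232840), (nat_lit 7075068238), (nat_lit 5895877330), (nat_lit 5599736240), (nat_lit 5838551376), (nat_lit 5535693408)], (nat_lit 780000), (nat_lit 1271251), (nat_lit 1271251), (nat_lit 1271251), (nat_lit 0), (nat_lit 1412501), [(nat_lit 1977501), (nat_lit 1271251), (nat_lit 1271251)], [(nat_lit 31), (nat_lit 65), (nat_lit 529), (nat_lit 175), (nat_lit 12)]⟩⟩) (.spl (nat_lit 1) (nat_lit 300) (.leaf ⟨(nat_lit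 0), (nat_lit 853), (nat_lit 0), (nat_lit 147), (nat_lit 0), (nat_lit 4847), (nat_lit 7582), (nat_lit 1587), (nat_lit 0), (nat_lit 0), (nat_lit 0), [], Pd.none, Pd.none, (nat_lit 0), (nat_lit 1), (nat_lit 0), (nat_lit 0), (nat_lit 7), (nat_lit 0), [⟨(nat_lit 0), (nat_lit 94), (nat_lit 87), (nat_lit 100), (nat_lit 4230005)⟩], [⟨(nat_lit 1), (nat_lit 77), (nat_lit 86), (nat_lit 100), (nat_lit 21562008)⟩], [], [⟨(nat_lit 2), (nat_lit 100), (nat_lit 97), (nat_lit 94), (nat_lit 389932828)⟩],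
 ⟨⟨[(nat_lit 60), (nat_lit 80), (nat_lit 100)], [(nat_lit 0), (nat_lit 304), (nat_lit 825)], [((nat_lit 0), (nat_lit 0), (nat_lit 0)), ((nat_lit 1000), (nat_lit 905), (nat_lit 238)), ((nat_lit 1000), (nat_lit 871), (nat_lit 407))], ((nat_lit 87), (nat_lit 100), (nat_lit 44))⟩, (nat_lit 346580), (nat_lit 54), (nat_lit 54), (nat_lit 0), (nat_lit 0), [(nat_lit 3282000002), (nat_lit 90844524015), (nat_lit 6250000000)], [], [(nat_lit 20724757994), (nat_lit 22005338840), (nat_lit 22096147479), (nat_lit 23215734564), (nat_lit 23141938795), (nat_lit 24278627830), (nat_lit 24212697342), (nat_lit 25209660120)], (nat_lit 0), (nat_lit 0), (nat_lit 0), (nat_lit 0), (nat_lit 0), (nat_lit 0), [], [(nat_lit 9), (nat_lit 50), (nat_lit 260), (nat_lit 50), (nat_lit 8)]⟩,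
 ⟨⟨[(nat_lit 60), (nat_lit 100), (nat_lit 120)], [(nat_lit 0), (nat_lit 0), (nat_lit 1164)], [((nat_lit 0), (nat_lit 0), (nat_lit 0)), ((nat_lit 0), (nat_lit 0), (nat_lit 0)), ((nat_lit 1000), (nat_lit 933), (nat_lit 572))], ((nat_lit 92), (nat_lit 100), (nat_lit 44))⟩, (nat_lit 5774618), (nat_lit 298), (nat_lit 298), (nat_lit 0), (nat_lit 519177), [(nat_lit 3282000000), (nat_lit 6250000000), (nat_lit 7968000000)], [], [(nat_lit 20812586581), (nat_lit 22133696821), (nat_lit 21900247658), (nat_lit 23034488309), (nat_lit 30506072839), (nat_lit 31246590102), (nat_lit 30231599833), (nat_lit 30985136182)], (nat_lit 1271251), (nat_lit 1271251), (nat_lit 780000), (nat_lit 1435001), (nat_lit 1271251), (nat_lit 1271251), [(nat_lit 780000), (nat_lit 1435001), (nat_lit 1271251)], [(nat_lit 10), (nat_lit 54), (nat_lit 373), (nat_lit 150), (nat_lit 11)]⟩,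
 ⟨⟨[(nat_lit 140), (nat_lit 160), (nat_lit 180)], [(nat_lit 0), (nat_lit 0), (nat_lit 799)], [((nat_lit 0), (nat_lit 0), (nat_lit 0)), ((nat_lit 0), (nat_lit 0), (nat_lit 0)), ((nat_lit 728), (nat_lit 1000), (nat_lit 454))], ((nat_lit 100), (nat_lit 71), (nat_lit 48))⟩, (nat_lit 1435088), (nat_lit 300), (nat_lit 1373), (nat_lit 10907400), (nat_lit 2464014), [(nat_lit 1446774000), (nat_lit 1745184000), (nat_lit 2066526000)], [], [(nat_lit 7784638947), (nat_lit 7456774197), (nat_lit 7645557300), (nat_lit 7315852724), (nat_lit 7258761798), (nat_lit 6924922607), (nat_lit 7167443472), (nat_lit 6828347511)], (nat_lit 780000), (nat_lit 1271251), (nat_lit 1271251), (nat_lit 1271251), (nat_lit 1271251), (nat_lit 1271251), [(nat_lit 1977501), (nat_lit 1271251), (nat_lit 1271251)], [(nat_lit 31), (nat_lit 65), (nat_lit 456), (nat_lit 225), (nat_lit 10)]⟩⟩) (.trX (nat_lit 5) (nat_lit 1) (nat_lit 2) (nat_lit 87) (nat_lit 59) (nat_lit 100) (nat_lit 370) (.leaf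 ⟨(nat_lit 0), (nat_lit 908), (nat_lit 0), (nat_lit 92), (nat_lit 0), (nat_lit 4847), (nat_lit 5345), (nat_lit 1005), (nat_lit 69843), (nat_lit 0), (nat_lit 0), [], Pd.none, Pd.none, (nat_lit 0), (nat_lit 1), (nat_lit 0), (nat_lit 0), (nat_lit 7), (nat_lit 0), [⟨(nat_lit 0), (nat_lit 83), (nat_lit 83), (nat_lit 100), (nat_lit 162789924)⟩], [⟨(nat_lit 1), (nat_lit 77), (nat_lit 86), (nat_lit 100), (nat_lit 39815184)⟩], [], [⟨(nat_lit 2), (nat_lit 68), (nat_lit 88), (nat_lit 100), (nat_lit 406863385)⟩],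
 ⟨⟨[(nat_lit 60), (nat_lit 80), (nat_lit 100)], [(nat_lit 0), (nat_lit 304), (nat_lit 825)], [((nat_lit 0), (nat_lit 0), (nat_lit 0)), ((nat_lit 1000), (nat_lit 905), (nat_lit 238)), ((nat_lit 1000), (nat_lit 871), (nat_lit 407))], ((nat_lit 87), (nat_lit 100), (nat_lit 44))⟩, (nat_lit 0), (nat_lit 54), (nat_lit 54), (nat_lit 0), (nat_lit 0), [(nat_lit 3282000004), (nat_lit 90335765822), (nat_lit 6250000000)], [], [(nat_lit 20724757996), (nat_lit 22005338842), (nat_lit 22096147481), (nat_lit 23215734566), (nat_lit 23141938797), (nat_lit 24278627830), (nat_lit 24212697344), (nat_lit 25209660122)], (nat_lit 0), (nat_lit 0), (nat_lit 0), (nat_lit 0), (nat_lit 0), (nat_lit 0), [], [(nat_lit 9), (nat_lit 50), (nat_lit 260), (nat_lit 50), (nat_lit 8)]⟩,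
 ⟨⟨[(nat_lit 60), (nat_lit 80), (nat_lit 100)], [(nat_lit 0), (nat_lit 304), (nat_lit 825)], [((nat_lit 0), (nat_lit 0), (nat_lit 0)), ((nat_lit 1000), (nat_lit 905), (nat_lit 238)), ((nat_lit 1000), (nat_lit 871), (nat_lit 407))], ((nat_lit 87), (nat_lit 100), (nat_lit 44))⟩, (nat_lit 6203014), (nat_lit 275), (nat_lit 275), (nat_lit 0), (nat_lit 575283), [(nat_lit 3282000000), (nat_lit 4688000000), (nat_lit 6250000000)], [], [(nat_lit 20419016295), (nat_lit 21449604669), (nat_lit 21735577132), (nat_lit 22730757120), (nat_lit 27896545511), (nat_lit 28693366794), (nat_lit 28400601397), (nat_lit 29038801790)], (nat_lit 1271251), (nat_lit 1271251), (nat_lit 780000), (nat_lit 1435001), (nat_lit 1271251), (nat_lit 1271251), [(nat_lit 780000), (nat_lit 1100000), (nat_lit 1442501)], [(nat_lit 9), (nat_lit 50), (nat_lit 260), (nat_lit 50), (nat_lit 9)]⟩,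
 ⟨⟨[(nat_lit 140), (nat_lit 160), (nat_lit 180)], [(nat_lit 0), (nat_lit 0), (nat_lit 799)], [((nat_lit 0), (nat_lit 0), (nat_lit 0)), ((nat_lit 0), (nat_lit 0), (nat_lit 0)), ((nat_lit 728), (nat_lit 1000), (nat_lit 454))], ((nat_lit 100), (nat_lit 71), (nat_lit 48))⟩, (nat_lit 80831), (nat_lit 300), (nat_lit 1655), (nat_lit 6826401), (nat_lit 3044374), [(nat_lit 905464000), (nat_lit 1092224000), (nat_lit 1293336000)], [], [(nat_lit 4771046009), (nat_lit 4567056870), (nat_lit 4693110414), (nat_lit 4484222825), (nat_lit 4489376998), (nat_lit 4278573984), (nat_lit 4432493471), (nat_lit 4220683662)], (nat_lit 780000), (nat_lit 1271251), (nat_lit 1271251), (nat_lit 1271251), (nat_lit 1271251), (nat_lit 1271251), [(nat_lit 1977501), (nat_lit 1271251), (nat_lit 1271251)], [(nat_lit 31), (nat_lit 65), (nat_lit 523), (nat_lit 225), (nat_lit 11)]⟩⟩))))))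
noncomputable def c4_38 : Tr Lf :=
 (.stt (nat_lit 2) (.spl (nat_lit 1) (nat_lit 280) (.leaf ⟨(nat_lit 0), (nat_lit 929), (nat_lit 0), (nat_lit 71), (nat_lit 0), (nat_lit 4948), (nat_lit 8747), (nat_lit 758), (nat_lit 0), (nat_lit 0), (nat_lit 0), [], Pd.none, Pd.none, (nat_lit 0), (nat_lit 1), (nat_lit 0), (nat_lit 0), (nat_lit 6), (nat_lit 0), [], [], [⟨(nat_lit 1), (nat_lit 55), (nat_lit 99), (nat_lit 100), (nat_lit 194112580)⟩], [],
 ⟨⟨[(nat_lit 60), (nat_lit 80), (nat_lit 100)], [(nat_lit 0), (nat_lit 304), (nat_lit 825)], [((nat_lit 0), (nat_lit 0), (nat_lit 0)), ((nat_lit 1000), (nat_lit 905), (nat_lit 238)), ((nat_lit 1000), (nat_lit 871), (nat_lit 407))], ((nat_lit 87), (nat_lit 100), (nat_lit 44))⟩, (nat_lit 0), (nat_lit 46), (nat_lit 46), (nat_lit 0), (nat_lit 0), [(nat_lit 3282000001), (nat_lit 90575046739), (nat_lit 6250000000)], [], [(nat_lit 19886351435), (nat_lit 21141220905), (nat_lit 23162094825), (nat_lit 24201033729), (nat_lit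 24158129061), (nat_lit 25213619944), (nat_lit 26856708806), (nat_lit 27770476736)], (nat_lit 0), (nat_lit 0), (nat_lit 0), (nat_lit 0), (nat_lit 0), (nat_lit 0), [], [(nat_lit 9), (nat_lit 50), (nat_lit 203), (nat_lit 0), (nat_lit 6)]⟩,
 ⟨⟨[(nat_lit 80), (nat_lit 120), (nat_lit 140)], [(nat_lit 0), (nat_lit 0), (nat_lit 1164)], [((nat_lit 0), (nat_lit 0), (nat_lit 0)), ((nat_lit 0), (nat_lit 0), (nat_lit 0)), ((nat_lit 941), (nat_lit 1000), (nat_lit 576))], ((nat_lit 100), (nat_lit 99), (nat_lit 44))⟩, (nat_lit 2643850), (nat_lit 177), (nat_lit 177), (nat_lit 0), (nat_lit 0), [(nat_lit 4688000000), (nat_lit 7968000000), (nat_lit 9842000000)], [], [(nat_lit 24205402728), (nat_lit 27635658791), (nat_lit 29135872396), (nat_lit 31867380260), (nat_lit 31736634580), (nat_lit 33140284402), (nat_lit 33597379030), (nat_lit 35182411759)], (nat_lit 0), (nat_lit 0), (nat_lit 0), (nat_lit 0), (nat_lit 0), (nat_lit 0), [], [(nat_lit 17), (nat_lit 58), (nat_lit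 483), (nat_lit 250), (nat_lit 14)]⟩,
 ⟨⟨[(nat_lit 140), (nat_lit 160), (nat_lit 180)], [(nat_lit 0), (nat_lit 0), (nat_lit 799)], [((nat_lit 0), (nat_lit 0), (nat_lit 0)), ((nat_lit 0), (nat_lit 0), (nat_lit 0)), ((nat_lit 728), (nat_lit 1000), (nat_lit 454))], ((nat_lit 100), (nat_lit 71), (nat_lit 48))⟩, (nat_lit 62380), (nat_lit 300), (nat_lit 1855), (nat_lit 5268203), (nat_lit 3186117), [(nat_lit 698782000), (nat_lit 842912000), (nat_lit 998118000)], [], [(nat_lit 4610085438), (nat_lit 4458261756), (nat_lit 4456994554), (nat_lit 4304926627), (nat_lit 4183021184), (nat_lit 4839002042), (nat_lit 3499191948), (nat_lit 3564916984)], (nat_lit 780000), (nat_lit 1271251), (nat_lit 1271251), (nat_lit 1271251), (nat_lit 0), (nat_lit 2825001), [(nat_lit 1977501), (nat_lit 1271251), (nat_lit 1271251)], [(nat_lit 31), (nat_lit 65), (nat_lit 577), (nat_lit 225), (nat_lit 13)]⟩⟩) (.trX (nat_lit 5) (nat_lit 1) (nat_lit 2) (nat_lit 92) (nat_lit 49) (nat_lit 100)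 (nat_lit 380) (.leaf ⟨(nat_lit 0), (nat_lit 1000), (nat_lit 0), (nat_lit 0), (nat_lit 2343), (nat_lit 4901), (nat_lit 7384), (nat_lit 0), (nat_lit 39280), (nat_lit 0), (nat_lit 0), [], Pd.none, Pd.none, (nat_lit 0), (nat_lit 1), (nat_lit 0), (nat_lit 0), (nat_lit 6), (nat_lit 0), [], [], [⟨(nat_lit 1), (nat_lit 49), (nat_lit 92), (nat_lit 100), (nat_lit 284355422)⟩], [],
 ⟨⟨[(nat_lit 60), (nat_lit 80), (nat_lit 100)], [(nat_lit 0), (nat_lit 304), (nat_lit 825)], [((nat_lit 0), (nat_lit 0), (nat_lit 0)), ((nat_lit 1000), (nat_lit 905), (nat_lit 238)), ((nat_lit 1000), (nat_lit 871), (nat_lit 407))], ((nat_lit 87), (nat_lit 100), (nat_lit 44))⟩, (nat_lit 0), (nat_lit 46), (nat_lit 46), (nat_lit 0), (nat_lit 0), [(nat_lit 3282000019), (nat_lit 93233886846), (nat_lit 6250000000)], [], [(nat_lit 19929743240), (nat_lit 21178722317), (nat_lit 23195358482), (nat_lit 24229998155), (nat_lit 24183522239), (nat_lit 25185122213), (nat_lit 26827023160), (nat_lit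 27737537632)], (nat_lit 0), (nat_lit 0), (nat_lit 0), (nat_lit 0), (nat_lit 0), (nat_lit 0), [], [(nat_lit 9), (nat_lit 50), (nat_lit 203), (nat_lit 0), (nat_lit 6)]⟩,
 ⟨⟨[(nat_lit 60), (nat_lit 100), (nat_lit 120)], [(nat_lit 0), (nat_lit 0), (nat_lit 1164)], [((nat_lit 0), (nat_lit 0), (nat_lit 0)), ((nat_lit 0), (nat_lit 0), (nat_lit 0)), ((nat_lit 1000), (nat_lit 933), (nat_lit 572))], ((nat_lit 92), (nat_lit 100), (nat_lit 44))⟩, (nat_lit 2108953), (nat_lit 155), (nat_lit 155), (nat_lit 0), (nat_lit 0), [(nat_lit 3282000000), (nat_lit 6250000000), (nat_lit 7968000000)], [], [(nat_lit 23333736316), (nat_lit 26825385268), (nat_lit 27853543548), (nat_lit 30661306436), (nat_lit 29750571402), (nat_lit 31832539948), (nat_lit 32102832788), (nat_lit 33768906524)], (nat_lit 0), (nat_lit 0), (nat_lit 0), (nat_lit 0), (nat_lit 0), (nat_lit 0), [], [(nat_lit 10), (nat_lit 54), (nat_lit 401), (nat_lit 175), (nat_lit 13)]⟩,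
 Rw.none⟩))) (.spl (nat_lit 1) (nat_lit 280) (.leaf ⟨(nat_lit 626), (nat_lit 268), (nat_lit 0), (nat_lit 106), (nat_lit 0), (nat_lit 4082), (nat_lit 4030), (nat_lit 1123), (nat_lit 0), (nat_lit 0), (nat_lit 211850), [((nat_lit 320), [((nat_lit 15), (nat_lit 0), (nat_lit 257)), ((nat_lit 15), (nat_lit 1), (nat_lit 369))])], ⟨(nat_lit 6), false, true, false, (nat_lit 254), (nat_lit 4472), (nat_lit 5000), [(nat_lit 1542832), (nat_lit 1543108), (nat_lit 1585664), (nat_lit 1586216), (nat_lit 1685679), (nat_lit 1679054), (nat_lit 1728511), (nat_lit 1722162)]⟩, ⟨(nat_lit 6), false, false, true, (nat_lit 234), (nat_lit 4472), (nat_lit 5000), [(nat_lit 1485713), (nat_lit 1481711), (nat_lit 1549999), (nat_lit 1546410), (nat_lit 1628570), (nat_lit 1617667), (nat_lit 1692851), (nat_lit 1682362)]⟩, (nat_lit 5429681), (nat_lit 36503719), (nat_lit 16228776), (nat_lit 14267505), (nat_lit 6), (nat_lit 0), [], [⟨(nat_lit 1), (nat_lit 77), (nat_lit 86), (nat_lit 100),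 (nat_lit 101772638)⟩], [], [],
 ⟨⟨[(nat_lit 60), (nat_lit 80), (nat_lit 100)], [(nat_lit 0), (nat_lit 304), (nat_lit 825)], [((nat_lit 0), (nat_lit 0), (nat_lit 0)), ((nat_lit 1000), (nat_lit 905), (nat_lit 238)), ((nat_lit 1000), (nat_lit 871), (nat_lit 407))], ((nat_lit 87), (nat_lit 100), (nat_lit 44))⟩, (nat_lit 23160), (nat_lit 46), (nat_lit 46), (nat_lit 0), (nat_lit 0), [(nat_lit 2411536214), (nat_lit 90394556555), (nat_lit 3896215200)], [(nat_lit 0), (nat_lit 0), (nat_lit 0)], [(nat_lit 19815404395), (nat_lit 20961740250), (nat_lit 22904531280), (nat_lit 23864254566), (nat_lit 23755547754), (nat_lit 24686816922), (nat_lit 26309734979), (nat_lit 27163556224)], (nat_lit 0), (nat_lit 0), (nat_lit 0), (nat_lit 0), (nat_lit 0), (nat_lit 0), [], [(nat_lit 9), (nat_lit 50), (nat_lit 203), (nat_lit 0), (nat_lit 6)]⟩,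
 ⟨⟨[(nat_lit 80), (nat_lit 120), (nat_lit 140)], [(nat_lit 0), (nat_lit 0), (nat_lit 1164)], [((nat_lit 0), (nat_lit 0), (nat_lit 0)), ((nat_lit 0), (nat_lit 0), (nat_lit 0)), ((nat_lit 941), (nat_lit 1000), (nat_lit 576))], ((nat_lit 100), (nat_lit 99), (nat_lit 44))⟩, (nat_lit 1152100), (nat_lit 393), (nat_lit 393), (nat_lit 0), (nat_lit 472665), [(nat_lit 1753312000), (nat_lit 2980032000), (nat_lit 3680908000)], [], [(nat_lit 12898390360), (nat_lit 11213374446), (nat_lit 11432342980), (nat_lit 12007736536), (nat_lit 16323973124), (nat_lit 13214971566), (nat_lit 13343379032), (nat_lit 13983600458)], (nat_lit 1271251), (nat_lit 1271251), (nat_lit 1271251), (nat_lit 1271251), (nat_lit 0), (nat_lit 2825001), [(nat_lit 1100000), (nat_lit 1785001), (nat_lit 1271251)], [(nat_lit 17), (nat_lit 58), (nat_lit 483), (nat_lit 250), (nat_lit 14)]⟩,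
 ⟨⟨[(nat_lit 140), (nat_lit 160), (nat_lit 180)], [(nat_lit 0), (nat_lit 0), (nat_lit 799)], [((nat_lit 0), (nat_lit 0), (nat_lit 0)), ((nat_lit 0), (nat_lit 0), (nat_lit 0)), ((nat_lit 728), (nat_lit 1000), (nat_lit 454))], ((nat_lit 100), (nat_lit 71), (nat_lit 48))⟩, (nat_lit 129767), (nat_lit 300), (nat_lit 1269), (nat_lit 7865200), (nat_lit 1937078), [(nat_lit 1043252000), (nat_lit 1258432000), (nat_lit 1490148000)], [], [(nat_lit 6888774872), (nat_lit 6653106744), (nat_lit 6697304092), (nat_lit 6458277312), (nat_lit 6240346384), (nat_lit 7213796227), (nat_lit 5265107148), (nat_lit 5326200554)], (nat_lit 780000), (nat_lit 1271251), (nat_lit 1271251), (nat_lit 1271251), (nat_lit 0), (nat_lit 2825001), [(nat_lit 1977501), (nat_lit 1271251), (nat_lit 1271251)], [(nat_lit 31), (nat_lit 65), (nat_lit 456), (nat_lit 225), (nat_lit 11)]⟩⟩) (.trX (nat_lit 5) (nat_lit 1) (nat_lit 2) (nat_lit 92) (nat_lit 49) (nat_lit 100) (nat_lit 380) (.leaf ⟨(nat_lit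 0), (nat_lit 844), (nat_lit 0), (nat_lit 156), (nat_lit 0), (nat_lit 4901), (nat_lit 7616), (nat_lit 1662), (nat_lit 10661381), (nat_lit 0), (nat_lit 0), [], Pd.none, Pd.none, (nat_lit 0), (nat_lit 1), (nat_lit 0), (nat_lit 0), (nat_lit 6), (nat_lit 0), [], [⟨(nat_lit 1), (nat_lit 77), (nat_lit 86), (nat_lit 100), (nat_lit 222126473)⟩], [⟨(nat_lit 1), (nat_lit 72), (nat_lit 89), (nat_lit 100), (nat_lit 78873307)⟩], [],
 ⟨⟨[(nat_lit 60), (nat_lit 80), (nat_lit 100)], [(nat_lit 0), (nat_lit 304), (nat_lit 825)], [((nat_lit 0), (nat_lit 0), (nat_lit 0)), ((nat_lit 1000), (nat_lit 905), (nat_lit 238)), ((nat_lit 1000), (nat_lit 871), (nat_lit 407))], ((nat_lit 87), (nat_lit 100), (nat_lit 44))⟩, (nat_lit 429444), (nat_lit 46), (nat_lit 46), (nat_lit 0), (nat_lit 0), [(nat_lit 3282000163), (nat_lit 90799651642), (nat_lit 6250000000)], [], [(nat_lit 19929743384), (nat_lit 21178722461), (nat_lit 23195358626), (nat_lit 24229998299), (nat_lit 24183522383),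 (nat_lit 25185122357), (nat_lit 26827023160), (nat_lit 27737537632)], (nat_lit 0), (nat_lit 0), (nat_lit 0), (nat_lit 0), (nat_lit 0), (nat_lit 0), [], [(nat_lit 9), (nat_lit 50), (nat_lit 203), (nat_lit 0), (nat_lit 6)]⟩,
 ⟨⟨[(nat_lit 60), (nat_lit 100), (nat_lit 120)], [(nat_lit 0), (nat_lit 0), (nat_lit 1164)], [((nat_lit 0), (nat_lit 0), (nat_lit 0)), ((nat_lit 0), (nat_lit 0), (nat_lit 0)), ((nat_lit 1000), (nat_lit 933), (nat_lit 572))], ((nat_lit 92), (nat_lit 100), (nat_lit 44))⟩, (nat_lit 3618228), (nat_lit 398), (nat_lit 398), (nat_lit 0), (nat_lit 586980), [(nat_lit 3282000000), (nat_lit 6250000000), (nat_lit 7968000000)], [], [(nat_lit 27856406632), (nat_lit 30137070960), (nat_lit 30792933992), (nat_lit 32640717232), (nat_lit 34837278128), (nat_lit 32074187552), (nat_lit 32324762712), (nat_lit 34009742476)], (nat_lit 1271251), (nat_lit 1271251), (nat_lit 1271251), (nat_lit 1271251), (nat_lit 0), (nat_lit 2683751), [(nat_lit 780000), (nat_lit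 1435001), (nat_lit 1271251)], [(nat_lit 10), (nat_lit 54), (nat_lit 401), (nat_lit 175), (nat_lit 13)]⟩,
 ⟨⟨[(nat_lit 140), (nat_lit 160), (nat_lit 180)], [(nat_lit 0), (nat_lit 0), (nat_lit 799)], [((nat_lit 0), (nat_lit 0), (nat_lit 0)), ((nat_lit 0), (nat_lit 0), (nat_lit 0)), ((nat_lit 728), (nat_lit 1000), (nat_lit 454))], ((nat_lit 100), (nat_lit 71), (nat_lit 48))⟩, (nat_lit 2669136), (nat_lit 300), (nat_lit 1782), (nat_lit 11575200), (nat_lit 3044374), [(nat_lit 1535352000), (nat_lit 1852032000), (nat_lit 2193048000)], [], [(nat_lit 10110673704), (nat_lit 9768606672), (nat_lit 9797801976), (nat_lit 9443479176), (nat_lit 8890745676), (nat_lit 10316315886), (nat_lit 7710370812), (nat_lit 7505570987)], (nat_lit 780000), (nat_lit 1271251), (nat_lit 1271251), (nat_lit 1271251), (nat_lit 0), (nat_lit 2683751), [(nat_lit 1977501), (nat_lit 1271251), (nat_lit 1271251)], [(nat_lit 31), (nat_lit 65), (nat_lit 556), (nat_lit 225), (nat_lit 13)]⟩⟩))))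
noncomputable def c4_39 : Tr Lf :=
 (.spl (nat_lit 3) (nat_lit 200) (.trX (nat_lit 5) (nat_lit 4) (nat_lit 3) (nat_lit 80) (nat_lit 60) (nat_lit 100) (nat_lit 360) (.stt (nat_lit 2) (.leaf ⟨(nat_lit 0), (nat_lit 926), (nat_lit 0), (nat_lit 74), (nat_lit 0), (nat_lit 4739), (nat_lit 9967), (nat_lit 797), (nat_lit 0), (nat_lit 0), (nat_lit 0), [], Pd.none, Pd.none, (nat_lit 0), (nat_lit 1), (nat_lit 0), (nat_lit 0), (nat_lit 8), (nat_lit 0), [], [⟨(nat_lit 1), (nat_lit 81), (nat_lit 88), (nat_lit 100), (nat_lit 406620149)⟩], [], [⟨(nat_lit 2), (nat_lit 83), (nat_lit 75), (nat_lit 100), (nat_lit 190829170)⟩],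
 ⟨⟨[(nat_lit 60), (nat_lit 80), (nat_lit 100)], [(nat_lit 0), (nat_lit 304), (nat_lit 825)], [((nat_lit 0), (nat_lit 0), (nat_lit 0)), ((nat_lit 1000), (nat_lit 905), (nat_lit 238)), ((nat_lit 1000), (nat_lit 871), (nat_lit 407))], ((nat_lit 87), (nat_lit 100), (nat_lit 44))⟩, (nat_lit 0), (nat_lit 69), (nat_lit 69), (nat_lit 0), (nat_lit 0), [(nat_lit 3282000003), (nat_lit 90834788625), (nat_lit 6250000000)], [], [(nat_lit 23183235944), (nat_lit 24308251279), (nat_lit 24271047583), (nat_lit 25258735969), (nat_lit 25330422813), (nat_lit 26441070857), (nat_lit 26173755516), (nat_lit 27081988044)], (nat_lit 0), (nat_lit 0), (nat_lit 0), (nat_lit 0), (nat_lit 0), (nat_lit 0), [], [(nat_lit 9), (nat_lit 50), (nat_lit 260), (nat_lit 50), (nat_lit 8)]⟩,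
 ⟨⟨[(nat_lit 80), (nat_lit 120), (nat_lit 140)], [(nat_lit 0), (nat_lit 0), (nat_lit 1164)], [((nat_lit 0), (nat_lit 0), (nat_lit 0)), ((nat_lit 0), (nat_lit 0), (nat_lit 0)), ((nat_lit 941), (nat_lit 1000), (nat_lit 576))], ((nat_lit 100), (nat_lit 99), (nat_lit 44))⟩, (nat_lit 3252432), (nat_lit 169), (nat_lit 169), (nat_lit 0), (nat_lit 0), [(nat_lit 4688000000), (nat_lit 7968000000), (nat_lit 9842000000)], [], [(nat_lit 21684075840), (nat_lit 26053219499), (nat_lit 23368454560), (nat_lit 27096670003), (nat_lit 27913668385), (nat_lit 30102122214), (nat_lit 27588174282), (nat_lit 29762563323)], (nat_lit 0), (nat_lit 0), (nat_lit 0), (nat_lit 0), (nat_lit 0), (nat_lit 0), [], [(nat_lit 17), (nat_lit 58), (nat_lit 456), (nat_lit 225), (nat_lit 13)]⟩,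
 ⟨⟨[(nat_lit 140), (nat_lit 160), (nat_lit 180)], [(nat_lit 0), (nat_lit 0), (nat_lit 799)], [((nat_lit 0), (nat_lit 0), (nat_lit 0)), ((nat_lit 0), (nat_lit 0), (nat_lit 0)), ((nat_lit 728), (nat_lit 1000), (nat_lit 454))], ((nat_lit 100), (nat_lit 71), (nat_lit 48))⟩, (nat_lit 65016), (nat_lit 300), (nat_lit 1823), (nat_lit 5490802), (nat_lit 3186117), [(nat_lit 728308000), (nat_lit 878528000), (nat_lit 1040292000)], [], [(nat_lit 4600950644), (nat_lit 4478324020), (nat_lit 4592464769), (nat_lit 4468078995), (nat_lit 3619961712), (nat_lit 3497181154), (nat_lit 3611387712), (nat_lit 3486849964)], (nat_lit 780000), (nat_lit 1100000), (nat_lit 1271251), (nat_lit 1271251), (nat_lit 0), (nat_lit 2542501), [(nat_lit 1977501), (nat_lit 1271251), (nat_lit 1271251)], [(nat_lit 31), (nat_lit 65), (nat_lit 565), (nat_lit 225), (nat_lit 13)]⟩⟩) (.spl (nat_lit 2) (nat_lit 140) (.trX (nat_lit 4) (nat_lit 0) (nat_lit 2) (nat_lit 91) (nat_lit 77) (nat_lit 100)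 (nat_lit 340) (.spl (nat_lit 2) (nat_lit 130) (.trX (nat_lit 4) (nat_lit 0) (nat_lit 2) (nat_lit 92) (nat_lit 82) (nat_lit 100) (nat_lit 330) (.leaf ⟨(nat_lit 930), (nat_lit 33), (nat_lit 0), (nat_lit 37), (nat_lit 0), (nat_lit 3784), (nat_lit 1056), (nat_lit 406), (nat_lit 0), (nat_lit 0), (nat_lit 353250), [((nat_lit 320), [((nat_lit 15), (nat_lit 0), (nat_lit 125)), ((nat_lit 15), (nat_lit 1), (nat_lit 805))])], ⟨(nat_lit 6), false, false, false, (nat_lit 198), (nat_lit 4472), (nat_lit 5000), [(nat_lit 1399984), (nat_lit 1407160), (nat_lit 1442816), (nat_lit 1450269), (nat_lit 1542832), (nat_lit 1543108), (nat_lit 1585664), (nat_lit 1586216)]⟩, ⟨(nat_lit 8), false, false, true, (nat_lit 255), (nat_lit 4472), (nat_lit 5000), [(nat_lit 1628570), (nat_lit 1617667), (nat_lit 1639284), (nat_lit 1628450), (nat_lit 1646427), (nat_lit 1634662), (nat_lit 1657141), (nat_lit 1645445)]⟩, (nat_lit 5216920), (nat_lit 38598057), (nat_lit 11353500), (nat_lit 17048443),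 (nat_lit 8), (nat_lit 0), [], [⟨(nat_lit 1), (nat_lit 82), (nat_lit 92), (nat_lit 100), (nat_lit 273511909)⟩], [], [],
 ⟨⟨[(nat_lit 60), (nat_lit 80), (nat_lit 100)], [(nat_lit 0), (nat_lit 304), (nat_lit 825)], [((nat_lit 0), (nat_lit 0), (nat_lit 0)), ((nat_lit 1000), (nat_lit 905), (nat_lit 238)), ((nat_lit 1000), (nat_lit 871), (nat_lit 407))], ((nat_lit 87), (nat_lit 100), (nat_lit 44))⟩, (nat_lit 1167), (nat_lit 59), (nat_lit 59), (nat_lit 0), (nat_lit 0), [(nat_lit 2095521006), (nat_lit 90302944230), (nat_lit 2650852000)], [(nat_lit 0), (nat_lit 0), (nat_lit 0)], [(nat_lit 22361930802), (nat_lit 23414525760), (nat_lit 23600535986), (nat_lit 24506214702), (nat_lit 22999913241), (nat_lit 24082805766), (nat_lit 24169547851), (nat_lit 25101501918)], (nat_lit 0), (nat_lit 0), (nat_lit 0), (nat_lit 0), (nat_lit 0), (nat_lit 0), [], [(nat_lit 9), (nat_lit 50), (nat_lit 260), (nat_lit 50), (nat_lit 8)]⟩,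
 ⟨⟨[(nat_lit 80), (nat_lit 120), (nat_lit 140)], [(nat_lit 0), (nat_lit 0), (nat_lit 1164)], [((nat_lit 0), (nat_lit 0), (nat_lit 0)), ((nat_lit 0), (nat_lit 0), (nat_lit 0)), ((nat_lit 941), (nat_lit 1000), (nat_lit 576))], ((nat_lit 100), (nat_lit 99), (nat_lit 44))⟩, (nat_lit 412709), (nat_lit 440), (nat_lit 440), (nat_lit 0), (nat_lit 472665), [(nat_lit 328160000), (nat_lit 557760000), (nat_lit 688940000)], [], [(nat_lit 2786868080), (nat_lit 1695225438), (nat_lit 2205131560), (nat_lit 1865770478), (nat_lit 3923637960), (nat_lit 3008513640), (nat_lit 5043513824), (nat_lit 4150501616)], (nat_lit 1271251), (nat_lit 1271251), (nat_lit 780000), (nat_lit 1435001), (nat_lit 0), (nat_lit 2542501), [(nat_lit 1100000), (nat_lit 1785001), (nat_lit 1271251)], [(nat_lit 17), (nat_lit 58), (nat_lit 456), (nat_lit 225), (nat_lit 13)]⟩,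
 ⟨⟨[(nat_lit 140), (nat_lit 160), (nat_lit 180)], [(nat_lit 0), (nat_lit 0), (nat_lit 799)], [((nat_lit 0), (nat_lit 0), (nat_lit 0)), ((nat_lit 0), (nat_lit 0), (nat_lit 0)), ((nat_lit 728), (nat_lit 1000), (nat_lit 454))], ((nat_lit 100), (nat_lit 71), (nat_lit 48))⟩, (nat_lit 32576), (nat_lit 300), (nat_lit 1232), (nat_lit 2745400), (nat_lit 1937078), [(nat_lit 364154000), (nat_lit 439264000), (nat_lit 520146000)], [], [(nat_lit 2265421132), (nat_lit 2249721644), (nat_lit 2263875780), (nat_lit 2248101979), (nat_lit 1774992216), (nat_lit 1759273145), (nat_lit 1773590624), (nat_lit 1758040553)], (nat_lit 780000), (nat_lit 857188), (nat_lit 1271251), (nat_lit 1271251), (nat_lit 0), (nat_lit 2542501), [(nat_lit 1977501), (nat_lit 1271251), (nat_lit 1271251)], [(nat_lit 31), (nat_lit 65), (nat_lit 456), (nat_lit 225), (nat_lit 10)]⟩⟩)) (.leaf ⟨(nat_lit 909), (nat_lit 43), (nat_lit 0), (nat_lit 48), (nat_lit 0), (nat_lit 3764), (nat_lit 1176), (nat_lit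 538), (nat_lit 0), (nat_lit 0), (nat_lit 317400), [((nat_lit 320), [((nat_lit 15), (nat_lit 0), (nat_lit 308)), ((nat_lit 15), (nat_lit 1), (nat_lit 601))])], ⟨(nat_lit 6), false, false, false, (nat_lit 198), (nat_lit 4472), (nat_lit 5000), [(nat_lit 1399984), (nat_lit 1407160), (nat_lit 1442816), (nat_lit 1450269), (nat_lit 1542832), (nat_lit 1543108), (nat_lit 1585664), (nat_lit 1586216)]⟩, ⟨(nat_lit 8), false, false, true, (nat_lit 263), (nat_lit 4472), (nat_lit 5000), [(nat_lit 1639284), (nat_lit 1628450), (nat_lit 1649999), (nat_lit 1639234), (nat_lit 1674998), (nat_lit 1662439), (nat_lit 1685713), (nat_lit 1673223)]⟩, (nat_lit 5248635), (nat_lit 38039006), (nat_lit 11237882), (nat_lit 17723112), (nat_lit 8), (nat_lit 0), [], [⟨(nat_lit 1), (nat_lit 84), (nat_lit 88), (nat_lit 100), (nat_lit 168398264)⟩, ⟨(nat_lit 1), (nat_lit 77), (nat_lit 91), (nat_lit 100), (nat_lit 120714708)⟩], [], [],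
 ⟨⟨[(nat_lit 60), (nat_lit 80), (nat_lit 100)], [(nat_lit 0), (nat_lit 304), (nat_lit 825)], [((nat_lit 0), (nat_lit 0), (nat_lit 0)), ((nat_lit 1000), (nat_lit 905), (nat_lit 238)), ((nat_lit 1000), (nat_lit 871), (nat_lit 407))], ((nat_lit 87), (nat_lit 100), (nat_lit 44))⟩, (nat_lit 0), (nat_lit 64), (nat_lit 64), (nat_lit 0), (nat_lit 0), [(nat_lit 2138454618), (nat_lit 90402807911), (nat_lit 2806154800)], [(nat_lit 0), (nat_lit 0), (nat_lit 0)], [(nat_lit 22412512034), (nat_lit 23432943994), (nat_lit 23654275198), (nat_lit 24558236434), (nat_lit 23685226635), (nat_lit 24731401862), (nat_lit 24789567028), (nat_lit 25682710414)], (nat_lit 0), (nat_lit 0), (nat_lit 0), (nat_lit 0), (nat_lit 0), (nat_lit 0), [], [(nat_lit 9), (nat_lit 50), (nat_lit 260), (nat_lit 50), (nat_lit 8)]⟩,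
 ⟨⟨[(nat_lit 80), (nat_lit 120), (nat_lit 140)], [(nat_lit 0), (nat_lit 0), (nat_lit 1164)], [((nat_lit 0), (nat_lit 0), (nat_lit 0)), ((nat_lit 0), (nat_lit 0), (nat_lit 0)), ((nat_lit 941), (nat_lit 1000), (nat_lit 576))], ((nat_lit 100), (nat_lit 99), (nat_lit 44))⟩, (nat_lit 395953), (nat_lit 425), (nat_lit 425), (nat_lit 0), (nat_lit 436597), [(nat_lit 426608000), (nat_lit 725088000), (nat_lit 895622000)], [], [(nat_lit 3529570520), (nat_lit 2319023700), (nat_lit 3006090052), (nat_lit 2386770159), (nat_lit 5018374452), (nat_lit 3999258732), (nat_lit 6299688080), (nat_lit 5305197212)], (nat_lit 1271251), (nat_lit 1271251), (nat_lit 780000), (nat_lit 1435001), (nat_lit 0), (nat_lit 2542501), [(nat_lit 1100000), (nat_lit 1785001), (nat_lit 1271251)], [(nat_lit 17), (nat_lit 58), (nat_lit 456), (nat_lit 225), (nat_lit 13)]⟩,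
 ⟨⟨[(nat_lit 140), (nat_lit 160), (nat_lit 180)], [(nat_lit 0), (nat_lit 151), (nat_lit 943)], [((nat_lit 0), (nat_lit 0), (nat_lit 0)), ((nat_lit 955), (nat_lit 1000), (nat_lit 113)), ((nat_lit 742), (nat_lit 1000), (nat_lit 459))], ((nat_lit 100), (nat_lit 74), (nat_lit 47))⟩, (nat_lit 198358), (nat_lit 300), (nat_lit 1054), (nat_lit 3374400), (nat_lit 1551921), [(nat_lit 472416000), (nat_lit 569856000), (nat_lit 674784000)], [], [(nat_lit 2743131892), (nat_lit 2722578880), (nat_lit 2753609200), (nat_lit 2733690450), (nat_lit 2141676942), (nat_lit 2121089168), (nat_lit 2153428185), (nat_lit 2133461964)], (nat_lit 857188), (nat_lit 936250), (nat_lit 1271251), (nat_lit 1271251), (nat_lit 0), (nat_lit 2542501), [(nat_lit 1977501), (nat_lit 1271251), (nat_lit 1271251)], [(nat_lit 31), (nat_lit 65), (nat_lit 456), (nat_lit 225), (nat_lit 10)]⟩⟩))) (.spl (nat_lit 1) (nat_lit 260) (.leaf ⟨(nat_lit 830), (nat_lit 92), (nat_lit 0), (nat_lit 78), (nat_lit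 1157), (nat_lit 3757), (nat_lit 1324), (nat_lit 884), (nat_lit 0), (nat_lit 0), (nat_lit 260000), [((nat_lit 320), [((nat_lit 15), (nat_lit 0), (nat_lit 480)), ((nat_lit 15), (nat_lit 1), (nat_lit 350))])], ⟨(nat_lit 6), false, false, false, (nat_lit 194), (nat_lit 4472), (nat_lit 5000), [(nat_lit 1399984), (nat_lit 1407160), (nat_lit 1421400), (nat_lit 1428715), (nat_lit 1542832), (nat_lit 1543108), (nat_lit 1564248), (nat_lit 1564662)]⟩, ⟨(nat_lit 8), false, false, true, (nat_lit 273), (nat_lit 4472), (nat_lit 5000), [(nat_lit 1649999), (nat_lit 1639234), (nat_lit 1671427), (nat_lit 1660800), (nat_lit 1703570), (nat_lit 1690217), (nat_lit 1724998), (nat_lit 1711784)]⟩, (nat_lit 5254530), (nat_lit 37568694), (nat_lit 10759773), (nat_lit 18671533), (nat_lit 8), (nat_lit 0), [], [⟨(nat_lit 1), (nat_lit 77), (nat_lit 86), (nat_lit 100), (nat_lit 297440341)⟩], [], [],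
 ⟨⟨[(nat_lit 60), (nat_lit 80), (nat_lit 100)], [(nat_lit 0), (nat_lit 304), (nat_lit 825)], [((nat_lit 0), (nat_lit 0), (nat_lit 0)), ((nat_lit 1000), (nat_lit 905), (nat_lit 238)), ((nat_lit 1000), (nat_lit 871), (nat_lit 407))], ((nat_lit 87), (nat_lit 100), (nat_lit 44))⟩, (nat_lit 0), (nat_lit 69), (nat_lit 69), (nat_lit 0), (nat_lit 0), [(nat_lit 2233094039), (nat_lit 90266358563), (nat_lit 3184644000)], [(nat_lit 0), (nat_lit 0), (nat_lit 0)], [(nat_lit 22509828122), (nat_lit 23529509227), (nat_lit 23752696579), (nat_lit 24656056697), (nat_lit 24417193628), (nat_lit 25390479876), (nat_lit 25454200077), (nat_lit 26280560720)], (nat_lit 0), (nat_lit 0), (nat_lit 0), (nat_lit 0), (nat_lit 0), (nat_lit 0), [], [(nat_lit 9), (nat_lit 50), (nat_lit 260), (nat_lit 50), (nat_lit 8)]⟩,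
 ⟨⟨[(nat_lit 80), (nat_lit 120), (nat_lit 140)], [(nat_lit 0), (nat_lit 0), (nat_lit 1164)], [((nat_lit 0), (nat_lit 0), (nat_lit 0)), ((nat_lit 0), (nat_lit 0), (nat_lit 0)), ((nat_lit 941), (nat_lit 1000), (nat_lit 576))], ((nat_lit 100), (nat_lit 99), (nat_lit 44))⟩, (nat_lit 133136), (nat_lit 346), (nat_lit 346), (nat_lit 0), (nat_lit 326172), [(nat_lit 796960000), (nat_lit 1354560000), (nat_lit 1673140000)], [], [(nat_lit 6179605920), (nat_lit 5498359995), (nat_lit 6234177520), (nat_lit 5637387908), (nat_lit 9009693120), (nat_lit 8436007230), (nat_lit 10629235536), (nat_lit 10069411595)], (nat_lit 1271251), (nat_lit 1271251), (nat_lit 780000), (nat_lit 1435001), (nat_lit 0), (nat_lit 2542501), [(nat_lit 1100000), (nat_lit 1785001), (nat_lit 1271251)], [(nat_lit 17), (nat_lit 58), (nat_lit 456), (nat_lit 225), (nat_lit 13)]⟩,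
 ⟨⟨[(nat_lit 140), (nat_lit 160), (nat_lit 180)], [(nat_lit 0), (nat_lit 304), (nat_lit 1085)], [((nat_lit 0), (nat_lit 0), (nat_lit 0)), ((nat_lit 913), (nat_lit 1000), (nat_lit 217)), ((nat_lit 759), (nat_lit 1000), (nat_lit 463))], ((nat_lit 100), (nat_lit 76), (nat_lit 46))⟩, (nat_lit 160105), (nat_lit 300), (nat_lit 779), (nat_lit 5483401), (nat_lit 925996), [(nat_lit 767676000), (nat_lit 926016000), (nat_lit 1096524000)], [], [(nat_lit 4393595120), (nat_lit 4325820296), (nat_lit 4445877723), (nat_lit 4379321330), (nat_lit 3416275402), (nat_lit 3350386932), (nat_lit 3470585553), (nat_lit 3403873931)], (nat_lit 936250), (nat_lit 1100000), (nat_lit 1271251), (nat_lit 1271251), (nat_lit 0), (nat_lit 2542501), [(nat_lit 1977501), (nat_lit 1271251), (nat_lit 1271251)], [(nat_lit 31), (nat_lit 65), (nat_lit 456), (nat_lit 225), (nat_lit 10)]⟩⟩) (.leaf ⟨(nat_lit 0), (nat_lit 653), (nat_lit 0), (nat_lit 347), (nat_lit 0), (nat_lit 4656), (nat_lit 3027),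 (nat_lit 3682), (nat_lit 0), (nat_lit 0), (nat_lit 0), [], Pd.none, Pd.none, (nat_lit 0), (nat_lit 1), (nat_lit 0), (nat_lit 0), (nat_lit 8), (nat_lit 0), [], [⟨(nat_lit 1), (nat_lit 77), (nat_lit 86), (nat_lit 100), (nat_lit 334048319)⟩], [], [],
 ⟨⟨[(nat_lit 60), (nat_lit 80), (nat_lit 100)], [(nat_lit 0), (nat_lit 304), (nat_lit 825)], [((nat_lit 0), (nat_lit 0), (nat_lit 0)), ((nat_lit 1000), (nat_lit 905), (nat_lit 238)), ((nat_lit 1000), (nat_lit 871), (nat_lit 407))], ((nat_lit 87), (nat_lit 100), (nat_lit 44))⟩, (nat_lit 0), (nat_lit 69), (nat_lit 69), (nat_lit 0), (nat_lit 0), [(nat_lit 3282000001), (nat_lit 90513641881), (nat_lit 6250000000)], [], [(nat_lit 23214973565), (nat_lit 24331085905), (nat_lit 24315890821), (nat_lit 25296451665), (nat_lit 25341489031), (nat_lit 26352273452), (nat_lit 26201592676), (nat_lit 27091575999)], (nat_lit 0), (nat_lit 0), (nat_lit 0), (nat_lit 0), (nat_lit 0), (nat_lit 0), [], [(nat_lit 9), (nat_lit 50),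 (nat_lit 260), (nat_lit 50), (nat_lit 8)]⟩,
 ⟨⟨[(nat_lit 80), (nat_lit 100), (nat_lit 120)], [(nat_lit 0), (nat_lit 265), (nat_lit 768)], [((nat_lit 0), (nat_lit 0), (nat_lit 0)), ((nat_lit 1000), (nat_lit 959), (nat_lit 206)), ((nat_lit 1000), (nat_lit 958), (nat_lit 392))], ((nat_lit 96), (nat_lit 100), (nat_lit 44))⟩, (nat_lit 16197818), (nat_lit 306), (nat_lit 306), (nat_lit 0), (nat_lit 394030), [(nat_lit 4688000000), (nat_lit 6250000000), (nat_lit 7968000000)], [], [(nat_lit 29694467116), (nat_lit 28105661410), (nat_lit 30161153751), (nat_lit 30024347835), (nat_lit 40823092157), (nat_lit 39495030717), (nat_lit 46094120811), (nat_lit 44798577676)], (nat_lit 1271251), (nat_lit 1271251), (nat_lit 780000), (nat_lit 1435001), (nat_lit 0), (nat_lit 2542501), [(nat_lit 1100000), (nat_lit 1442501), (nat_lit 1271251)], [(nat_lit 16), (nat_lit 54), (nat_lit 373), (nat_lit 150), (nat_lit 12)]⟩,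
 ⟨⟨[(nat_lit 140), (nat_lit 160), (nat_lit 180)], [(nat_lit 0), (nat_lit 304), (nat_lit 1085)], [((nat_lit 0), (nat_lit 0), (nat_lit 0)), ((nat_lit 913), (nat_lit 1000), (nat_lit 217)), ((nat_lit 759), (nat_lit 1000), (nat_lit 463))], ((nat_lit 100), (nat_lit 76), (nat_lit 46))⟩, (nat_lit 712263), (nat_lit 300), (nat_lit 932), (nat_lit 24394101), (nat_lit 1268276), [(nat_lit 3415174000), (nat_lit 4119584000), (nat_lit 4878126000)], [], [(nat_lit 20333096328), (nat_lit 20056095804), (nat_lit 20402131794), (nat_lit 20119313499), (nat_lit 15982052967), (nat_lit 15705196420), (nat_lit 16051223018), (nat_lit 15767930303)], (nat_lit 936250), (nat_lit 1100000), (nat_lit 1271251), (nat_lit 1271251), (nat_lit 0), (nat_lit 2542501), [(nat_lit 1977501), (nat_lit 1271251), (nat_lit 1271251)], [(nat_lit 31), (nat_lit 65), (nat_lit 456), (nat_lit 225), (nat_lit 10)]⟩⟩))))) (.trZ (nat_lit 3) (nat_lit 4) (nat_lit 5) (nat_lit 80) (nat_lit 100) (nat_lit 60) (nat_lit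 40) (.leaf ⟨(nat_lit 861), (nat_lit 102), (nat_lit 0), (nat_lit 37), (nat_lit 0), (nat_lit 3739), (nat_lit 1242), (nat_lit 397), (nat_lit 0), (nat_lit 0), (nat_lit 273000), [((nat_lit 320), [((nat_lit 15), (nat_lit 0), (nat_lit 476)), ((nat_lit 15), (nat_lit 1), (nat_lit 385))])], ⟨(nat_lit 6), false, true, false, (nat_lit 254), (nat_lit 4472), (nat_lit 5000), [(nat_lit 1542832), (nat_lit 1543108), (nat_lit 1585664), (nat_lit 1586216), (nat_lit 1685679), (nat_lit 1679054), (nat_lit 1728511), (nat_lit 1722162)]⟩, ⟨(nat_lit 8), false, false, true, (nat_lit 268), (nat_lit 4472), (nat_lit 5000), [(nat_lit 1628570), (nat_lit 1617667), (nat_lit 1671427), (nat_lit 1660800), (nat_lit 1682141), (nat_lit 1668651), (nat_lit 1724998), (nat_lit 1711784)]⟩, (nat_lit 5571986), (nat_lit 34471588), (nat_lit 15520657), (nat_lit 17007755), (nat_lit 8), (nat_lit 0), [], [⟨(nat_lit 1), (nat_lit 81), (nat_lit 88), (nat_lit 100), (nat_lit 300247066)⟩], [], [],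
 ⟨⟨[(nat_lit 60), (nat_lit 80), (nat_lit 100)], [(nat_lit 0), (nat_lit 304), (nat_lit 825)], [((nat_lit 0), (nat_lit 0), (nat_lit 0)), ((nat_lit 1000), (nat_lit 905), (nat_lit 238)), ((nat_lit 1000), (nat_lit 871), (nat_lit 407))], ((nat_lit 87), (nat_lit 100), (nat_lit 44))⟩, (nat_lit 0), (nat_lit 56), (nat_lit 56), (nat_lit 0), (nat_lit 0), [(nat_lit 2204185803), (nat_lit 90149713840), (nat_lit 3061418800)], [(nat_lit 0), (nat_lit 0), (nat_lit 0)], [(nat_lit 23733513383), (nat_lit 24635327769), (nat_lit 26159611172), (nat_lit 26923387327), (nat_lit 25431328816), (nat_lit 26256906794), (nat_lit 27696828683), (nat_lit 28454126951)], (nat_lit 0), (nat_lit 0), (nat_lit 0), (nat_lit 0), (nat_lit 0), (nat_lit 0), [], [(nat_lit 9), (nat_lit 50), (nat_lit 203), (nat_lit 0), (nat_lit 6)]⟩,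
 ⟨⟨[(nat_lit 80), (nat_lit 120), (nat_lit 140)], [(nat_lit 0), (nat_lit 0), (nat_lit 1164)], [((nat_lit 0), (nat_lit 0), (nat_lit 0)), ((nat_lit 0), (nat_lit 0), (nat_lit 0)), ((nat_lit 941), (nat_lit 1000), (nat_lit 576))], ((nat_lit 100), (nat_lit 99), (nat_lit 44))⟩, (nat_lit 304870), (nat_lit 357), (nat_lit 357), (nat_lit 0), (nat_lit 472665), [(nat_lit 651632000), (nat_lit 1107552000), (nat_lit 1368038000)], [], [(nat_lit 3705131293), (nat_lit 4026571727), (nat_lit 4152584089), (nat_lit 4408143567), (nat_lit 6393603848), (nat_lit 5300444041), (nat_lit 4564591826), (nat_lit 4793691671)], (nat_lit 1271251), (nat_lit 1271251), (nat_lit 1271251), (nat_lit 1271251), (nat_lit 230000), (nat_lit 2833126), [(nat_lit 1100000), (nat_lit 1785001), (nat_lit 1271251)], [(nat_lit 17), (nat_lit 58), (nat_lit 483), (nat_lit 250), (nat_lit 14)]⟩,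
 ⟨⟨[(nat_lit 140), (nat_lit 160), (nat_lit 180)], [(nat_lit 0), (nat_lit 0), (nat_lit 799)], [((nat_lit 0), (nat_lit 0), (nat_lit 0)), ((nat_lit 0), (nat_lit 0), (nat_lit 0)), ((nat_lit 728), (nat_lit 1000), (nat_lit 454))], ((nat_lit 100), (nat_lit 71), (nat_lit 48))⟩, (nat_lit 32508), (nat_lit 300), (nat_lit 1797), (nat_lit 2745401), (nat_lit 3186117), [(nat_lit 364154000), (nat_lit 439264000), (nat_lit 520146000)], [], [(nat_lit 2219683326), (nat_lit 2164136885), (nat_lit 2200412103), (nat_lit 2139662092), (nat_lit 1814842308), (nat_lit 1752790642), (nat_lit 1814946477), (nat_lit 1752218937)], (nat_lit 780000), (nat_lit 1100000), (nat_lit 1271251), (nat_lit 1271251), (nat_lit 230000), (nat_lit 2833126), [(nat_lit 1977501), (nat_lit 1271251), (nat_lit 1271251)], [(nat_lit 31), (nat_lit 65), (nat_lit 562), (nat_lit 225), (nat_lit 13)]⟩⟩)))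
noncomputable def c4_40 : Tr Lf :=
 (.trX (nat_lit 5) (nat_lit 1) (nat_lit 2) (nat_lit 94) (nat_lit 59) (nat_lit 100) (nat_lit 370) (.stt (nat_lit 2) (.leaf ⟨(nat_lit 0), (nat_lit 1000), (nat_lit 0), (nat_lit 0), (nat_lit 4156), (nat_lit 4739), (nat_lit 7193), (nat_lit 0), (nat_lit 235064), (nat_lit 0), (nat_lit 0), [], Pd.none, Pd.none, (nat_lit 0), (nat_lit 1), (nat_lit 0), (nat_lit 0), (nat_lit 8), (nat_lit 0), [], [⟨(nat_lit 1), (nat_lit 68), (nat_lit 88), (nat_lit 100), (nat_lit 397851213)⟩], [], [⟨(nat_lit 2), (nat_lit 68), (nat_lit 74), (nat_lit 100), (nat_lit 317661208)⟩],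
 ⟨⟨[(nat_lit 60), (nat_lit 80), (nat_lit 100)], [(nat_lit 0), (nat_lit 304), (nat_lit 825)], [((nat_lit 0), (nat_lit 0), (nat_lit 0)), ((nat_lit 1000), (nat_lit 905), (nat_lit 238)), ((nat_lit 1000), (nat_lit 871), (nat_lit 407))], ((nat_lit 87), (nat_lit 100), (nat_lit 44))⟩, (nat_lit 0), (nat_lit 69), (nat_lit 69), (nat_lit 0), (nat_lit 0), [(nat_lit 3282000010), (nat_lit 90861943567), (nat_lit 6250000000)], [], [(nat_lit 23183235951), (nat_lit 24308251286), (nat_lit 26800096379), (nat_lit 27624002848), (nat_lit 25330422813), (nat_lit 26441070857), (nat_lit 28511303558), (nat_lit 29323585951)], (nat_lit 0), (nat_lit 0), (nat_lit 0), (nat_lit 0), (nat_lit 0), (nat_lit 0), [], [(nat_lit 9), (nat_lit 50), (nat_lit 289), (nat_lit 75), (nat_lit 9)]⟩,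
 ⟨⟨[(nat_lit 60), (nat_lit 100), (nat_lit 120)], [(nat_lit 0), (nat_lit 0), (nat_lit 1164)], [((nat_lit 0), (nat_lit 0), (nat_lit 0)), ((nat_lit 0), (nat_lit 0), (nat_lit 0)), ((nat_lit 1000), (nat_lit 933), (nat_lit 572))], ((nat_lit 92), (nat_lit 100), (nat_lit 44))⟩, (nat_lit 2315499), (nat_lit 155), (nat_lit 155), (nat_lit 0), (nat_lit 0), [(nat_lit 3282000000), (nat_lit 6250000000), (nat_lit 7968000000)], [], [(nat_lit 21325006962), (nat_lit 25318122912), (nat_lit 27572558469), (nat_lit 30339913970), (nat_lit 29023225620), (nat_lit 30987271440), (nat_lit 31134352648), (nat_lit 32866167511)], (nat_lit 0), (nat_lit 0), (nat_lit 0), (nat_lit 0), (nat_lit 0), (nat_lit 0), [], [(nat_lit 10), (nat_lit 54), (nat_lit 401), (nat_lit 175), (nat_lit 13)]⟩,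
 Rw.none⟩) (.spl (nat_lit 5) (nat_lit 200) (.leaf ⟨(nat_lit 0), (nat_lit 869), (nat_lit 0), (nat_lit 131), (nat_lit 0), (nat_lit 4739), (nat_lit 6638), (nat_lit 1547), (nat_lit 10281), (nat_lit 0), (nat_lit 0), [], Pd.none, Pd.none, (nat_lit 0), (nat_lit 1), (nat_lit 0), (nat_lit 0), (nat_lit 8), (nat_lit 0), [], [⟨(nat_lit 1), (nat_lit 81), (nat_lit 88), (nat_lit 100), (nat_lit 585833595)⟩], [], [],
 ⟨⟨[(nat_lit 60), (nat_lit 80), (nat_lit 100)], [(nat_lit 0), (nat_lit 304), (nat_lit 825)], [((nat_lit 0), (nat_lit 0), (nat_lit 0)), ((nat_lit 1000), (nat_lit 905), (nat_lit 238)), ((nat_lit 1000), (nat_lit 871), (nat_lit 407))], ((nat_lit 87), (nat_lit 100), (nat_lit 44))⟩, (nat_lit 210016), (nat_lit 69), (nat_lit 69), (nat_lit 0), (nat_lit 0), [(nat_lit 3282000002), (nat_lit 90470850103), (nat_lit 6250000000)], [], [(nat_lit 23183235943), (nat_lit 24308251278), (nat_lit 26800096371), (nat_lit 27624002848), (nat_lit 25330422813), (nat_lit 26441070857),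 (nat_lit 28511303558), (nat_lit 29323585951)], (nat_lit 0), (nat_lit 0), (nat_lit 0), (nat_lit 0), (nat_lit 0), (nat_lit 0), [], [(nat_lit 9), (nat_lit 50), (nat_lit 289), (nat_lit 75), (nat_lit 9)]⟩,
 ⟨⟨[(nat_lit 60), (nat_lit 100), (nat_lit 120)], [(nat_lit 0), (nat_lit 0), (nat_lit 1164)], [((nat_lit 0), (nat_lit 0), (nat_lit 0)), ((nat_lit 0), (nat_lit 0), (nat_lit 0)), ((nat_lit 1000), (nat_lit 933), (nat_lit 572))], ((nat_lit 92), (nat_lit 100), (nat_lit 44))⟩, (nat_lit 4815887), (nat_lit 418), (nat_lit 418), (nat_lit 0), (nat_lit 586980), [(nat_lit 3282000000), (nat_lit 6250000000), (nat_lit 7968000000)], [], [(nat_lit 33047812920), (nat_lit 31208960276), (nat_lit 33143077188), (nat_lit 34492558276), (nat_lit 30141062213), (nat_lit 29109196424), (nat_lit 46255938982), (nat_lit 40431246656)], (nat_lit 1271251), (nat_lit 1271251), (nat_lit 780000), (nat_lit 2090001), (nat_lit 0), (nat_lit 1412501), [(nat_lit 780000), (nat_lit 1435001), (nat_lit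 1271251)], [(nat_lit 10), (nat_lit 54), (nat_lit 345), (nat_lit 125), (nat_lit 11)]⟩,
 ⟨⟨[(nat_lit 140), (nat_lit 160), (nat_lit 180)], [(nat_lit 0), (nat_lit 0), (nat_lit 799)], [((nat_lit 0), (nat_lit 0), (nat_lit 0)), ((nat_lit 0), (nat_lit 0), (nat_lit 0)), ((nat_lit 728), (nat_lit 1000), (nat_lit 454))], ((nat_lit 100), (nat_lit 71), (nat_lit 48))⟩, (nat_lit 795319), (nat_lit 300), (nat_lit 1751), (nat_lit 9720200), (nat_lit 3044374), [(nat_lit 1289302000), (nat_lit 1555232000), (nat_lit 1841598000)], [], [(nat_lit 7671302968), (nat_lit 7437863332), (nat_lit 7764613102), (nat_lit 7528361568), (nat_lit 6114592444), (nat_lit 5883723078), (nat_lit 6139073317), (nat_lit 5913905875)], (nat_lit 780000), (nat_lit 1100000), (nat_lit 1271251), (nat_lit 1271251), (nat_lit 0), (nat_lit 1412501), [(nat_lit 1977501), (nat_lit 1271251), (nat_lit 1271251)], [(nat_lit 31), (nat_lit 65), (nat_lit 527), (nat_lit 200), (nat_lit 12)]⟩⟩) (.leaf ⟨(nat_lit 0), (nat_lit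 830), (nat_lit 0), (nat_lit 170), (nat_lit 0), (nat_lit 4847), (nat_lit 7809), (nat_lit 1849), (nat_lit 8236692657580), (nat_lit 0), (nat_lit 0), [], Pd.none, Pd.none, (nat_lit 0), (nat_lit 1), (nat_lit 0), (nat_lit 0), (nat_lit 8), (nat_lit 0), [⟨(nat_lit 0), (nat_lit 83), (nat_lit 83), (nat_lit 100), (nat_lit 65543377)⟩], [⟨(nat_lit 1), (nat_lit 81), (nat_lit 88), (nat_lit 100), (nat_lit 1185345000)⟩], [], [⟨(nat_lit 2), (nat_lit 98), (nat_lit 80), (nat_lit 100), (nat_lit 316839212)⟩],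
 ⟨⟨[(nat_lit 60), (nat_lit 80), (nat_lit 100)], [(nat_lit 0), (nat_lit 304), (nat_lit 825)], [((nat_lit 0), (nat_lit 0), (nat_lit 0)), ((nat_lit 1000), (nat_lit 905), (nat_lit 238)), ((nat_lit 1000), (nat_lit 871), (nat_lit 407))], ((nat_lit 87), (nat_lit 100), (nat_lit 44))⟩, (nat_lit 431740), (nat_lit 69), (nat_lit 69), (nat_lit 0), (nat_lit 0), [(nat_lit 3282000002), (nat_lit 90421415724), (nat_lit 6250000000)], [], [(nat_lit 23141938795), (nat_lit 24278627830), (nat_lit 26792916247), (nat_lit 27699692704), (nat_lit 25434982770), (nat_lit 26556614468), (nat_lit 28599266845), (nat_lit 29417487523)], (nat_lit 0), (nat_lit 0), (nat_lit 0), (nat_lit 0), (nat_lit 0), (nat_lit 0), [], [(nat_lit 9), (nat_lit 50), (nat_lit 289), (nat_lit 75), (nat_lit 9)]⟩,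
 ⟨⟨[(nat_lit 60), (nat_lit 100), (nat_lit 120)], [(nat_lit 0), (nat_lit 0), (nat_lit 1164)], [((nat_lit 0), (nat_lit 0), (nat_lit 0)), ((nat_lit 0), (nat_lit 0), (nat_lit 0)), ((nat_lit 1000), (nat_lit 933), (nat_lit 572))], ((nat_lit 92), (nat_lit 100), (nat_lit 44))⟩, (nat_lit 3836301), (nat_lit 320), (nat_lit 320), (nat_lit 0), (nat_lit 586980), [(nat_lit 3282000000), (nat_lit 6250000000), (nat_lit 7968000000)], [], [(nat_lit 23675989957), (nat_lit 25696512953), (nat_lit 26391179425), (nat_lit 27784744554), (nat_lit 30575443151), (nat_lit 31751569634), (nat_lit 31683142890), (nat_lit 33471003743)], (nat_lit 1271251), (nat_lit 1271251), (nat_lit 780000), (nat_lit 2090001), (nat_lit 1271251), (nat_lit 1271251), [(nat_lit 780000), (nat_lit 1435001), (nat_lit 1271251)], [(nat_lit 10), (nat_lit 54), (nat_lit 401), (nat_lit 175), (nat_lit 12)]⟩,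
 ⟨⟨[(nat_lit 140), (nat_lit 160), (nat_lit 180)], [(nat_lit 0), (nat_lit 0), (nat_lit 799)], [((nat_lit 0), (nat_lit 0), (nat_lit 0)), ((nat_lit 0), (nat_lit 0), (nat_lit 0)), ((nat_lit 728), (nat_lit 1000), (nat_lit 454))], ((nat_lit 100), (nat_lit 71), (nat_lit 48))⟩, (nat_lit 1982431), (nat_lit 300), (nat_lit 1640), (nat_lit 12614000), (nat_lit 3044374), [(nat_lit 1673140000), (nat_lit 2018240000), (nat_lit 2389860000)], [], [(nat_lit 8731855266), (nat_lit 8467307794), (nat_lit 8680649218), (nat_lit 8402031022), (nat_lit 8228229865), (nat_lit 7941106186), (nat_lit 8235738534), (nat_lit 7946779134)], (nat_lit 780000), (nat_lit 1100000), (nat_lit 1271251), (nat_lit 1271251), (nat_lit 1271251), (nat_lit 1271251), [(nat_lit 1977501), (nat_lit 1271251), (nat_lit 1271251)], [(nat_lit 31), (nat_lit 65), (nat_lit 520), (nat_lit 225), (nat_lit 11)]⟩⟩))))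
noncomputable def c4_41 : Tr Lf :=
 (.spl (nat_lit 3) (nat_lit 200) (.trX (nat_lit 5) (nat_lit 4) (nat_lit 3) (nat_lit 80) (nat_lit 60) (nat_lit 100) (nat_lit 360) (.spl (nat_lit 1) (nat_lit 280) (.stt (nat_lit 2) (.leaf ⟨(nat_lit 0), (nat_lit 733), (nat_lit 0), (nat_lit 267), (nat_lit 0), (nat_lit 5167), (nat_lit 9945), (nat_lit 2802), (nat_lit 0), (nat_lit 0), (nat_lit 0), [], Pd.none, Pd.none, (nat_lit 0), (nat_lit 1), (nat_lit 0), (nat_lit 0), (nat_lit 8), (nat_lit 0), [], [⟨(nat_lit 1), (nat_lit 68), (nat_lit 84), (nat_lit 100), (nat_lit 512815530)⟩], [], [],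
 ⟨⟨[(nat_lit 60), (nat_lit 80), (nat_lit 100)], [(nat_lit 0), (nat_lit 304), (nat_lit 825)], [((nat_lit 0), (nat_lit 0), (nat_lit 0)), ((nat_lit 1000), (nat_lit 905), (nat_lit 238)), ((nat_lit 1000), (nat_lit 871), (nat_lit 407))], ((nat_lit 87), (nat_lit 100), (nat_lit 44))⟩, (nat_lit 6006467), (nat_lit 77), (nat_lit 77), (nat_lit 0), (nat_lit 0), [(nat_lit 3282000019), (nat_lit 4741544609), (nat_lit 6250000000)], [], [(nat_lit 23483421312), (nat_lit 24538752630), (nat_lit 24480223538), (nat_lit 25403691886), (nat_lit 27406994232), (nat_lit 28472441427), (nat_lit 27889917966), (nat_lit 28827272348)], (nat_lit 0), (nat_lit 0), (nat_lit 0), (nat_lit 0), (nat_lit 0), (nat_lit 0), [], [(nat_lit 9), (nat_lit 50), (nat_lit 260), (nat_lit 50), (nat_lit 8)]⟩,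
 ⟨⟨[(nat_lit 80), (nat_lit 120), (nat_lit 140)], [(nat_lit 0), (nat_lit 0), (nat_lit 1164)], [((nat_lit 0), (nat_lit 0), (nat_lit 0)), ((nat_lit 0), (nat_lit 0), (nat_lit 0)), ((nat_lit 941), (nat_lit 1000), (nat_lit 576))], ((nat_lit 100), (nat_lit 99), (nat_lit 44))⟩, (nat_lit 5287263), (nat_lit 169), (nat_lit 169), (nat_lit 0), (nat_lit 0), [(nat_lit 4688000000), (nat_lit 7968000000), (nat_lit 9842000000)], [], [(nat_lit 19316886348), (nat_lit 23939025270), (nat_lit 21360694130), (nat_lit 25593312090), (nat_lit 27922952910), (nat_lit 30080873690), (nat_lit 27601980470), (nat_lit 29746146538)], (nat_lit 0), (nat_lit 0), (nat_lit 0), (nat_lit 0), (nat_lit 0), (nat_lit 0), [], [(nat_lit 17), (nat_lit 58), (nat_lit 456), (nat_lit 225), (nat_lit 13)]⟩,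
 ⟨⟨[(nat_lit 120), (nat_lit 160), (nat_lit 180)], [(nat_lit 0), (nat_lit 0), (nat_lit 1613)], [((nat_lit 0), (nat_lit 0), (nat_lit 0)), ((nat_lit 0), (nat_lit 0), (nat_lit 0)), ((nat_lit 620), (nat_lit 1000), (nat_lit 670))], ((nat_lit 100), (nat_lit 81), (nat_lit 44))⟩, (nat_lit 383298), (nat_lit 300), (nat_lit 992), (nat_lit 19811400), (nat_lit 1436988), [(nat_lit 2127456000), (nat_lit 3169824000), (nat_lit 3753486000)], [], [(nat_lit 16517132436), (nat_lit 16359809130), (nat_lit 16462158404), (nat_lit 16298309479), (nat_lit 13065858168), (nat_lit 12898507061), (nat_lit 12921384813), (nat_lit 12756863009)], (nat_lit 1100000), (nat_lit 1271251), (nat_lit 1271251), (nat_lit 1271251), (nat_lit 0), (nat_lit 2542501), [(nat_lit 1695001), (nat_lit 1271251), (nat_lit 1271251)], [(nat_lit 28), (nat_lit 65), (nat_lit 483), (nat_lit 250), (nat_lit 11)]⟩⟩) (.spl (nat_lit 1) (nat_lit 260) (.leaf ⟨(nat_lit 213), (nat_lit 424), (nat_lit 0), (nat_lit 363), (nat_lit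 0), (nat_lit 5156), (nat_lit 4878), (nat_lit 4498), (nat_lit 0), (nat_lit 0), (nat_lit 213000), [((nat_lit 320), [((nat_lit 15), (nat_lit 2), (nat_lit 213))])], ⟨(nat_lit 6), false, false, false, (nat_lit 194), (nat_lit 4472), (nat_lit 5000), [(nat_lit 1399984), (nat_lit 1407160), (nat_lit 1421400), (nat_lit 1428715), (nat_lit 1542832), (nat_lit 1543108), (nat_lit 1564248), (nat_lit 1564662)]⟩, ⟨(nat_lit 8), false, false, true, (nat_lit 288), (nat_lit 4472), (nat_lit 5000), [(nat_lit 1671427), (nat_lit 1660800), (nat_lit 1692851), (nat_lit 1682362), (nat_lit 1760711), (nat_lit 1745771), (nat_lit 1782131), (nat_lit 1767329)]⟩, (nat_lit 5300745), (nat_lit 36455739), (nat_lit 10527505), (nat_lit 20016756), (nat_lit 8), (nat_lit 0), [], [⟨(nat_lit 1), (nat_lit 68), (nat_lit 84), (nat_lit 100), (nat_lit 326345680)⟩], [], [⟨(nat_lit 0), (nat_lit 70), (nat_lit 100), (nat_lit 58), (nat_lit 7981127)⟩],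
 ⟨⟨[(nat_lit 60), (nat_lit 80), (nat_lit 100)], [(nat_lit 0), (nat_lit 304), (nat_lit 825)], [((nat_lit 0), (nat_lit 0), (nat_lit 0)), ((nat_lit 1000), (nat_lit 905), (nat_lit 238)), ((nat_lit 1000), (nat_lit 871), (nat_lit 407))], ((nat_lit 87), (nat_lit 100), (nat_lit 44))⟩, (nat_lit 2378511), (nat_lit 77), (nat_lit 77), (nat_lit 0), (nat_lit 0), [(nat_lit 2969230836), (nat_lit 4026166429), (nat_lit 5075518000)], [(nat_lit 0), (nat_lit 0), (nat_lit 0)], [(nat_lit 23538044027), (nat_lit 24529810840), (nat_lit 24441266373), (nat_lit 25340204168), (nat_lit 27394309084), (nat_lit 28458788735), (nat_lit 27880020825), (nat_lit 28816608763)], (nat_lit 0), (nat_lit 0), (nat_lit 0), (nat_lit 0), (nat_lit 0), (nat_lit 0), [], [(nat_lit 9), (nat_lit 50), (nat_lit 260), (nat_lit 50), (nat_lit 8)]⟩,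
 ⟨⟨[(nat_lit 80), (nat_lit 120), (nat_lit 140)], [(nat_lit 0), (nat_lit 0), (nat_lit 1164)], [((nat_lit 0), (nat_lit 0), (nat_lit 0)), ((nat_lit 0), (nat_lit 0), (nat_lit 0)), ((nat_lit 941), (nat_lit 1000), (nat_lit 576))], ((nat_lit 100), (nat_lit 99), (nat_lit 44))⟩, (nat_lit 2543292), (nat_lit 327), (nat_lit 327), (nat_lit 0), (nat_lit 284832), [(nat_lit 3689456000), (nat_lit 6270816000), (nat_lit 7745654000)], [], [(nat_lit 28014329120), (nat_lit 25519698046), (nat_lit 29747062384), (nat_lit 27432263581), (nat_lit 41185930584), (nat_lit 39072305379), (nat_lit 47573752424), (nat_lit 45511198660)], (nat_lit 1271251), (nat_lit 1271251), (nat_lit 780000), (nat_lit 1435001), (nat_lit 0), (nat_lit 2542501), [(nat_lit 1100000), (nat_lit 1785001), (nat_lit 1271251)], [(nat_lit 17), (nat_lit 58), (nat_lit 456), (nat_lit 225), (nat_lit 13)]⟩,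
 ⟨⟨[(nat_lit 120), (nat_lit 160), (nat_lit 180)], [(nat_lit 0), (nat_lit 0), (nat_lit 1613)], [((nat_lit 0), (nat_lit 0), (nat_lit 0)), ((nat_lit 0), (nat_lit 0), (nat_lit 0)), ((nat_lit 620), (nat_lit 1000), (nat_lit 670))], ((nat_lit 100), (nat_lit 81), (nat_lit 44))⟩, (nat_lit 157983), (nat_lit 300), (nat_lit 635), (nat_lit 26934600), (nat_lit 640727), [(nat_lit 2892384000), (nat_lit 4309536000), (nat_lit 5103054000)], [], [(nat_lit 20261188360), (nat_lit 20069042200), (nat_lit 20682040831), (nat_lit 20537892173), (nat_lit 15472191630), (nat_lit 15279369586), (nat_lit 15905945702), (nat_lit 15760891858)], (nat_lit 1100000), (nat_lit 1271251), (nat_lit 1271251), (nat_lit 1271251), (nat_lit 0), (nat_lit 2542501), [(nat_lit 1695001), (nat_lit 1271251), (nat_lit 1271251)], [(nat_lit 28), (nat_lit 65), (nat_lit 483), (nat_lit 250), (nat_lit 11)]⟩⟩) (.leaf ⟨(nat_lit 0), (nat_lit 634), (nat_lit 0), (nat_lit 366), (nat_lit 0), (nat_lit 5659), (nat_lit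 2526), (nat_lit 4280), (nat_lit 0), (nat_lit 0), (nat_lit 0), [], Pd.none, Pd.none, (nat_lit 0), (nat_lit 1), (nat_lit 0), (nat_lit 0), (nat_lit 8), (nat_lit 0), [], [⟨(nat_lit 1), (nat_lit 68), (nat_lit 84), (nat_lit 100), (nat_lit 385992247)⟩], [], [],
 ⟨⟨[(nat_lit 60), (nat_lit 80), (nat_lit 100)], [(nat_lit 0), (nat_lit 304), (nat_lit 825)], [((nat_lit 0), (nat_lit 0), (nat_lit 0)), ((nat_lit 1000), (nat_lit 905), (nat_lit 238)), ((nat_lit 1000), (nat_lit 871), (nat_lit 407))], ((nat_lit 87), (nat_lit 100), (nat_lit 44))⟩, (nat_lit 831375), (nat_lit 77), (nat_lit 77), (nat_lit 0), (nat_lit 0), [(nat_lit 3282000065), (nat_lit 4688000025), (nat_lit 6250000000)], [], [(nat_lit 24267025362), (nat_lit 25396523621), (nat_lit 25093003724), (nat_lit 26094787231), (nat_lit 27974366295), (nat_lit 29083089072), (nat_lit 28382396626), (nat_lit 29304225389)], (nat_lit 0), (nat_lit 0), (nat_lit 0), (nat_lit 0), (nat_lit 0), (nat_lit 0), [], [(nat_lit 9), (nat_lit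 50), (nat_lit 260), (nat_lit 50), (nat_lit 8)]⟩,
 ⟨⟨[(nat_lit 80), (nat_lit 100), (nat_lit 120)], [(nat_lit 0), (nat_lit 265), (nat_lit 768)], [((nat_lit 0), (nat_lit 0), (nat_lit 0)), ((nat_lit 1000), (nat_lit 959), (nat_lit 206)), ((nat_lit 1000), (nat_lit 958), (nat_lit 392))], ((nat_lit 96), (nat_lit 100), (nat_lit 44))⟩, (nat_lit 11275182), (nat_lit 289), (nat_lit 289), (nat_lit 0), (nat_lit 352431), [(nat_lit 4688000000), (nat_lit 6250000000), (nat_lit 7968000000)], [], [(nat_lit 30494349438), (nat_lit 29169631322), (nat_lit 32095175919), (nat_lit 31096435230), (nat_lit 42381738227), (nat_lit 41273484776), (nat_lit 47213994714), (nat_lit 46132877449)], (nat_lit 1271251), (nat_lit 1271251), (nat_lit 780000), (nat_lit 1435001), (nat_lit 0), (nat_lit 2542501), [(nat_lit 1100000), (nat_lit 1442501), (nat_lit 1271251)], [(nat_lit 16), (nat_lit 54), (nat_lit 373), (nat_lit 150), (nat_lit 12)]⟩,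
 ⟨⟨[(nat_lit 120), (nat_lit 160), (nat_lit 180)], [(nat_lit 0), (nat_lit 0), (nat_lit 1613)], [((nat_lit 0), (nat_lit 0), (nat_lit 0)), ((nat_lit 0), (nat_lit 0), (nat_lit 0)), ((nat_lit 620), (nat_lit 1000), (nat_lit 670))], ((nat_lit 100), (nat_lit 81), (nat_lit 44))⟩, (nat_lit 159288), (nat_lit 300), (nat_lit 757), (nat_lit 27157203), (nat_lit 899190), [(nat_lit 2916288000), (nat_lit 4345152000), (nat_lit 5145228000)], [], [(nat_lit 20898345752), (nat_lit 20674192856), (nat_lit 21271138028), (nat_lit 21070762234), (nat_lit 16056348108), (nat_lit 15841774796), (nat_lit 16438327441), (nat_lit 16237311788)], (nat_lit 1100000), (nat_lit 1271251), (nat_lit 1271251), (nat_lit 1271251), (nat_lit 0), (nat_lit 2542501), [(nat_lit 1695001), (nat_lit 1271251), (nat_lit 1271251)], [(nat_lit 28), (nat_lit 65), (nat_lit 483), (nat_lit 250), (nat_lit 11)]⟩⟩))) (.spl (nat_lit 5) (nat_lit 200) (.leaf ⟨(nat_lit 0), (nat_lit 844), (nat_lit 0), (nat_lit 156), (nat_lit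 0), (nat_lit 5167), (nat_lit 9412), (nat_lit 1825), (nat_lit 601403), (nat_lit 0), (nat_lit 0), [], Pd.none, Pd.none, (nat_lit 0), (nat_lit 1), (nat_lit 0), (nat_lit 0), (nat_lit 8), (nat_lit 0), [], [⟨(nat_lit 1), (nat_lit 68), (nat_lit 84), (nat_lit 100), (nat_lit 607479170)⟩], [], [⟨(nat_lit 0), (nat_lit 70), (nat_lit 100), (nat_lit 58), (nat_lit 45412970)⟩],
 ⟨⟨[(nat_lit 60), (nat_lit 80), (nat_lit 100)], [(nat_lit 0), (nat_lit 304), (nat_lit 825)], [((nat_lit 0), (nat_lit 0), (nat_lit 0)), ((nat_lit 1000), (nat_lit 905), (nat_lit 238)), ((nat_lit 1000), (nat_lit 871), (nat_lit 407))], ((nat_lit 87), (nat_lit 100), (nat_lit 44))⟩, (nat_lit 6408673), (nat_lit 77), (nat_lit 77), (nat_lit 0), (nat_lit 0), [(nat_lit 3282000111), (nat_lit 4764373359), (nat_lit 6250000000)], [], [(nat_lit 23483421496), (nat_lit 24538752630), (nat_lit 24480223722), (nat_lit 25403692070), (nat_lit 27406994232), (nat_lit 28472441427), (nat_lit 27889917966), (nat_lit 28827272348)],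 (nat_lit 0), (nat_lit 0), (nat_lit 0), (nat_lit 0), (nat_lit 0), (nat_lit 0), [], [(nat_lit 9), (nat_lit 50), (nat_lit 260), (nat_lit 50), (nat_lit 8)]⟩,
 ⟨⟨[(nat_lit 60), (nat_lit 100), (nat_lit 120)], [(nat_lit 0), (nat_lit 0), (nat_lit 1164)], [((nat_lit 0), (nat_lit 0), (nat_lit 0)), ((nat_lit 0), (nat_lit 0), (nat_lit 0)), ((nat_lit 1000), (nat_lit 933), (nat_lit 572))], ((nat_lit 92), (nat_lit 100), (nat_lit 44))⟩, (nat_lit 3167097), (nat_lit 378), (nat_lit 378), (nat_lit 0), (nat_lit 483365), [(nat_lit 3282000000), (nat_lit 6250000000), (nat_lit 7968000000)], [], [(nat_lit 27232247132), (nat_lit 26106192824), (nat_lit 24033669124), (nat_lit 27303846632), (nat_lit 25052751462), (nat_lit 21302396604), (nat_lit 35163502726), (nat_lit 26691577992)], (nat_lit 1271251), (nat_lit 1271251), (nat_lit 780000), (nat_lit 1435001), (nat_lit 0), (nat_lit 1412501), [(nat_lit 780000), (nat_lit 1435001), (nat_lit 1271251)], [(nat_lit 10), (nat_lit 54), (nat_lit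 317), (nat_lit 100), (nat_lit 10)]⟩,
 ⟨⟨[(nat_lit 120), (nat_lit 160), (nat_lit 180)], [(nat_lit 0), (nat_lit 0), (nat_lit 1613)], [((nat_lit 0), (nat_lit 0), (nat_lit 0)), ((nat_lit 0), (nat_lit 0), (nat_lit 0)), ((nat_lit 620), (nat_lit 1000), (nat_lit 670))], ((nat_lit 100), (nat_lit 81), (nat_lit 44))⟩, (nat_lit 685439), (nat_lit 300), (nat_lit 1498), (nat_lit 11575200), (nat_lit 2551123), [(nat_lit 1243008000), (nat_lit 1852032000), (nat_lit 2193048000)], [], [(nat_lit 8905101772), (nat_lit 8810680381), (nat_lit 9065176056), (nat_lit 8979715312), (nat_lit 7083045252), (nat_lit 6987079488), (nat_lit 7141251995), (nat_lit 7054784611)], (nat_lit 1100000), (nat_lit 1271251), (nat_lit 1271251), (nat_lit 1271251), (nat_lit 0), (nat_lit 1412501), [(nat_lit 1695001), (nat_lit 1271251), (nat_lit 1271251)], [(nat_lit 28), (nat_lit 65), (nat_lit 469), (nat_lit 200), (nat_lit 11)]⟩⟩) (.leaf ⟨(nat_lit 0), (nat_lit 865), (nat_lit 0), (nat_lit 135), (nat_lit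 0), (nat_lit 5167), (nat_lit 7694), (nat_lit 1440), (nat_lit 388681188570), (nat_lit 0), (nat_lit 0), [], Pd.none, Pd.none, (nat_lit 0), (nat_lit 1), (nat_lit 0), (nat_lit 0), (nat_lit 8), (nat_lit 0), [⟨(nat_lit 0), (nat_lit 83), (nat_lit 83), (nat_lit 100), (nat_lit 188358736)⟩], [⟨(nat_lit 1), (nat_lit 68), (nat_lit 84), (nat_lit 100), (nat_lit 157067357)⟩], [], [⟨(nat_lit 2), (nat_lit 87), (nat_lit 70), (nat_lit 100), (nat_lit 456279389)⟩],
 ⟨⟨[(nat_lit 60), (nat_lit 80), (nat_lit 100)], [(nat_lit 0), (nat_lit 304), (nat_lit 825)], [((nat_lit 0), (nat_lit 0), (nat_lit 0)), ((nat_lit 1000), (nat_lit 905), (nat_lit 238)), ((nat_lit 1000), (nat_lit 871), (nat_lit 407))], ((nat_lit 87), (nat_lit 100), (nat_lit 44))⟩, (nat_lit 5890232), (nat_lit 77), (nat_lit 77), (nat_lit 0), (nat_lit 0), [(nat_lit 3282000001), (nat_lit 4720312664), (nat_lit 6250000000)], [], [(nat_lit 23483421276), (nat_lit 24538752630), (nat_lit 24480223502), (nat_lit 25403691850),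 (nat_lit 27406994232), (nat_lit 28472441427), (nat_lit 27889917966), (nat_lit 28827272348)], (nat_lit 0), (nat_lit 0), (nat_lit 0), (nat_lit 0), (nat_lit 0), (nat_lit 0), [], [(nat_lit 9), (nat_lit 50), (nat_lit 260), (nat_lit 50), (nat_lit 8)]⟩,
 ⟨⟨[(nat_lit 60), (nat_lit 100), (nat_lit 120)], [(nat_lit 0), (nat_lit 0), (nat_lit 1164)], [((nat_lit 0), (nat_lit 0), (nat_lit 0)), ((nat_lit 0), (nat_lit 0), (nat_lit 0)), ((nat_lit 1000), (nat_lit 933), (nat_lit 572))], ((nat_lit 92), (nat_lit 100), (nat_lit 44))⟩, (nat_lit 3007485), (nat_lit 281), (nat_lit 281), (nat_lit 0), (nat_lit 483365), [(nat_lit 3282000000), (nat_lit 6250000000), (nat_lit 7968000000)], [], [(nat_lit 20587757277), (nat_lit 23251900020), (nat_lit 21664831386), (nat_lit 23950696320), (nat_lit 28981147582), (nat_lit 30605654694), (nat_lit 28849822230), (nat_lit 30398545806)], (nat_lit 1271251), (nat_lit 1271251), (nat_lit 780000), (nat_lit 1435001), (nat_lit 1271251), (nat_lit 1271251),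 [(nat_lit 780000), (nat_lit 1435001), (nat_lit 1271251)], [(nat_lit 10), (nat_lit 54), (nat_lit 373), (nat_lit 150), (nat_lit 11)]⟩,
 ⟨⟨[(nat_lit 120), (nat_lit 160), (nat_lit 180)], [(nat_lit 0), (nat_lit 0), (nat_lit 1613)], [((nat_lit 0), (nat_lit 0), (nat_lit 0)), ((nat_lit 0), (nat_lit 0), (nat_lit 0)), ((nat_lit 620), (nat_lit 1000), (nat_lit 670))], ((nat_lit 100), (nat_lit 81), (nat_lit 44))⟩, (nat_lit 403950), (nat_lit 300), (nat_lit 1378), (nat_lit 10017000), (nat_lit 2551123), [(nat_lit 1075680000), (nat_lit 1602720000), (nat_lit 1897830000)], [], [(nat_lit 6967160100), (nat_lit 6879927893), (nat_lit 6855012113), (nat_lit 6766469955), (nat_lit 6455163240), (nat_lit 6368659358), (nat_lit 6417858679), (nat_lit 6332989380)], (nat_lit 1100000), (nat_lit 1271251), (nat_lit 1271251), (nat_lit 1271251), (nat_lit 1271251), (nat_lit 1271251), [(nat_lit 1695001), (nat_lit 1271251), (nat_lit 1271251)], [(nat_lit 28), (nat_lit 65), (nat_lit 483), (nat_lit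 250), (nat_lit 10)]⟩⟩)))) (.trZ (nat_lit 3) (nat_lit 4) (nat_lit 5) (nat_lit 80) (nat_lit 100) (nat_lit 60) (nat_lit 40) (.spl (nat_lit 1) (nat_lit 280) (.leaf ⟨(nat_lit 0), (nat_lit 535), (nat_lit 0), (nat_lit 465), (nat_lit 0), (nat_lit 4901), (nat_lit 12461), (nat_lit 4808), (nat_lit 0), (nat_lit 0), (nat_lit 0), [], Pd.none, Pd.none, (nat_lit 0), (nat_lit 1), (nat_lit 0), (nat_lit 0), (nat_lit 8), (nat_lit 0), [], [⟨(nat_lit 1), (nat_lit 68), (nat_lit 84), (nat_lit 100), (nat_lit 295915549)⟩], [], [],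
 ⟨⟨[(nat_lit 60), (nat_lit 80), (nat_lit 100)], [(nat_lit 0), (nat_lit 304), (nat_lit 825)], [((nat_lit 0), (nat_lit 0), (nat_lit 0)), ((nat_lit 1000), (nat_lit 905), (nat_lit 238)), ((nat_lit 1000), (nat_lit 871), (nat_lit 407))], ((nat_lit 87), (nat_lit 100), (nat_lit 44))⟩, (nat_lit 400212), (nat_lit 62), (nat_lit 62), (nat_lit 0), (nat_lit 0), [(nat_lit 3282000006), (nat_lit 90979087389), (nat_lit 6250000000)], [], [(nat_lit 24183522226), (nat_lit 25185122200), (nat_lit 26827023160), (nat_lit 27737537632), (nat_lit 27650587109), (nat_lit 28569407492), (nat_lit 29854065373), (nat_lit 30615705427)], (nat_lit 0), (nat_lit 0), (nat_lit 0), (nat_lit 0), (nat_lit 0), (nat_lit 0), [], [(nat_lit 9), (nat_lit 50), (nat_lit 203), (nat_lit 0), (nat_lit 6)]⟩,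
 ⟨⟨[(nat_lit 80), (nat_lit 120), (nat_lit 140)], [(nat_lit 0), (nat_lit 0), (nat_lit 1164)], [((nat_lit 0), (nat_lit 0), (nat_lit 0)), ((nat_lit 0), (nat_lit 0), (nat_lit 0)), ((nat_lit 941), (nat_lit 1000), (nat_lit 576))], ((nat_lit 100), (nat_lit 99), (nat_lit 44))⟩, (nat_lit 5382225), (nat_lit 312), (nat_lit 312), (nat_lit 0), (nat_lit 363259), [(nat_lit 4688000000), (nat_lit 7968000000), (nat_lit 9842000000)], [], [(nat_lit 22401755371), (nat_lit 22604819575), (nat_lit 23785180165), (nat_lit 27493777937), (nat_lit 48073619566), (nat_lit 37157294061), (nat_lit 37406048890), (nat_lit 39223232617)], (nat_lit 1271251), (nat_lit 1271251), (nat_lit 1271251), (nat_lit 1271251), (nat_lit 230000), (nat_lit 2907501), [(nat_lit 1100000), (nat_lit 1785001), (nat_lit 1271251)], [(nat_lit 17), (nat_lit 58), (nat_lit 483), (nat_lit 250), (nat_lit 14)]⟩,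
 ⟨⟨[(nat_lit 120), (nat_lit 160), (nat_lit 180)], [(nat_lit 0), (nat_lit 0), (nat_lit 1613)], [((nat_lit 0), (nat_lit 0), (nat_lit 0)), ((nat_lit 0), (nat_lit 0), (nat_lit 0)), ((nat_lit 620), (nat_lit 1000), (nat_lit 670))], ((nat_lit 100), (nat_lit 81), (nat_lit 44))⟩, (nat_lit 1500395), (nat_lit 300), (nat_lit 962), (nat_lit 34503000), (nat_lit 1436988), [(nat_lit 3705120000), (nat_lit 5520480000), (nat_lit 6536970000)], [], [(nat_lit 27890199148), (nat_lit 27625161249), (nat_lit 27796396320), (nat_lit 27520348086), (nat_lit 23049626124), (nat_lit 22757560169), (nat_lit 22778699989), (nat_lit 22490007513)], (nat_lit 1100000), (nat_lit 1271251), (nat_lit 1271251), (nat_lit 1271251), (nat_lit 230000), (nat_lit 2907501), [(nat_lit 1695001), (nat_lit 1271251), (nat_lit 1271251)], [(nat_lit 28), (nat_lit 65), (nat_lit 483), (nat_lit 250), (nat_lit 11)]⟩⟩) (.trX (nat_lit 5) (nat_lit 1) (nat_lit 2) (nat_lit 92) (nat_lit 49) (nat_lit 100) (nat_lit 380)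 (.leaf ⟨(nat_lit 0), (nat_lit 833), (nat_lit 0), (nat_lit 167), (nat_lit 0), (nat_lit 4617), (nat_lit 7373), (nat_lit 1771), (nat_lit 21951), (nat_lit 0), (nat_lit 0), [], Pd.none, Pd.none, (nat_lit 0), (nat_lit 1), (nat_lit 0), (nat_lit 0), (nat_lit 8), (nat_lit 0), [], [⟨(nat_lit 1), (nat_lit 68), (nat_lit 84), (nat_lit 100), (nat_lit 423073438)⟩], [⟨(nat_lit 1), (nat_lit 63), (nat_lit 88), (nat_lit 100), (nat_lit 67598510)⟩], [⟨(nat_lit 2), (nat_lit 58), (nat_lit 70), (nat_lit 100), (nat_lit 90546583)⟩],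
 ⟨⟨[(nat_lit 60), (nat_lit 80), (nat_lit 100)], [(nat_lit 0), (nat_lit 304), (nat_lit 825)], [((nat_lit 0), (nat_lit 0), (nat_lit 0)), ((nat_lit 1000), (nat_lit 905), (nat_lit 238)), ((nat_lit 1000), (nat_lit 871), (nat_lit 407))], ((nat_lit 87), (nat_lit 100), (nat_lit 44))⟩, (nat_lit 404696), (nat_lit 62), (nat_lit 62), (nat_lit 0), (nat_lit 0), [(nat_lit 3282000004), (nat_lit 90914382798), (nat_lit 6250000000)], [], [(nat_lit 24336961744), (nat_lit 25314173502), (nat_lit 26853450511), (nat_lit 27669594976), (nat_lit 27466480157), (nat_lit 28294093135), (nat_lit 29588131998), (nat_lit 30336852359)], (nat_lit 0), (nat_lit 0), (nat_lit 0), (nat_lit 0), (nat_lit 0), (nat_lit 0), [], [(nat_lit 9), (nat_lit 50), (nat_lit 203), (nat_lit 0), (nat_lit 6)]⟩,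
 ⟨⟨[(nat_lit 60), (nat_lit 100), (nat_lit 120)], [(nat_lit 0), (nat_lit 0), (nat_lit 1164)], [((nat_lit 0), (nat_lit 0), (nat_lit 0)), ((nat_lit 0), (nat_lit 0), (nat_lit 0)), ((nat_lit 1000), (nat_lit 933), (nat_lit 572))], ((nat_lit 92), (nat_lit 100), (nat_lit 44))⟩, (nat_lit 4107590), (nat_lit 311), (nat_lit 311), (nat_lit 0), (nat_lit 483365), [(nat_lit 3282000000), (nat_lit 6250000000), (nat_lit 7968000000)], [], [(nat_lit 23097225214), (nat_lit 25956887352), (nat_lit 26869955517), (nat_lit 29188708041), (nat_lit 35638788445), (nat_lit 31821082519), (nat_lit 32092310249), (nat_lit 33757487578)], (nat_lit 1271251), (nat_lit 1271251), (nat_lit 1271251), (nat_lit 1271251), (nat_lit 230000), (nat_lit 2758751), [(nat_lit 780000), (nat_lit 1435001), (nat_lit 1271251)], [(nat_lit 10), (nat_lit 54), (nat_lit 401), (nat_lit 175), (nat_lit 13)]⟩,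
 ⟨⟨[(nat_lit 120), (nat_lit 160), (nat_lit 180)], [(nat_lit 0), (nat_lit 0), (nat_lit 1613)], [((nat_lit 0), (nat_lit 0), (nat_lit 0)), ((nat_lit 0), (nat_lit 0), (nat_lit 0)), ((nat_lit 620), (nat_lit 1000), (nat_lit 670))], ((nat_lit 100), (nat_lit 81), (nat_lit 44))⟩, (nat_lit 1527383), (nat_lit 300), (nat_lit 1471), (nat_lit 12391400), (nat_lit 2551123), [(nat_lit 1330656000), (nat_lit 1982624000), (nat_lit 2347686000)], [], [(nat_lit 9906247938), (nat_lit 9797134496), (nat_lit 9755655394), (nat_lit 9647982346), (nat_lit 8020463721), (nat_lit 7916247554), (nat_lit 7981684989), (nat_lit 7884259954)], (nat_lit 1100000), (nat_lit 1271251), (nat_lit 1271251), (nat_lit 1271251), (nat_lit 230000), (nat_lit 2758751), [(nat_lit 1695001), (nat_lit 1271251), (nat_lit 1271251)], [(nat_lit 28), (nat_lit 65), (nat_lit 484), (nat_lit 250), (nat_lit 11)]⟩⟩)))))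
noncomputable def c4_42 : Tr Lf :=
 (.spl (nat_lit 5) (nat_lit 120) (.spl (nat_lit 0) (nat_lit 310) (.ord (.leaf ⟨(nat_lit 0), (nat_lit 204), (nat_lit 0), (nat_lit 796), (nat_lit 0), (nat_lit 6161), (nat_lit 11757), (nat_lit 9152), (nat_lit 20245), (nat_lit 0), (nat_lit 0), [], Pd.none, Pd.none, (nat_lit 0), (nat_lit 1), (nat_lit 0), (nat_lit 0), (nat_lit 6), (nat_lit 0), [], [], [⟨(nat_lit 0), (nat_lit 100), (nat_lit 93), (nat_lit 37), (nat_lit 886873671)⟩], [],
 ⟨⟨[(nat_lit 60), (nat_lit 80), (nat_lit 100)], [(nat_lit 0), (nat_lit 304), (nat_lit 825)], [((nat_lit 0), (nat_lit 0), (nat_lit 0)), ((nat_lit 1000), (nat_lit 905), (nat_lit 238)), ((nat_lit 1000), (nat_lit 871), (nat_lit 407))], ((nat_lit 87), (nat_lit 100), (nat_lit 44))⟩, (nat_lit 4754463), (nat_lit 94), (nat_lit 94), (nat_lit 0), (nat_lit 0), [(nat_lit 3282000010), (nat_lit 4753464019), (nat_lit 6250000000)], [], [(nat_lit 17897038821), (nat_lit 18804205109), (nat_lit 23355132324),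 (nat_lit 23992389493), (nat_lit 30399411708), (nat_lit 30924656574), (nat_lit 32398334431), (nat_lit 32772059338)], (nat_lit 0), (nat_lit 0), (nat_lit 0), (nat_lit 0), (nat_lit 0), (nat_lit 0), [], [(nat_lit 9), (nat_lit 50), (nat_lit 289), (nat_lit 75), (nat_lit 10)]⟩,
 ⟨⟨[(nat_lit 80), (nat_lit 120), (nat_lit 140)], [(nat_lit 0), (nat_lit 0), (nat_lit 1164)], [((nat_lit 0), (nat_lit 0), (nat_lit 0)), ((nat_lit 0), (nat_lit 0), (nat_lit 0)), ((nat_lit 941), (nat_lit 1000), (nat_lit 576))], ((nat_lit 100), (nat_lit 99), (nat_lit 44))⟩, (nat_lit 3900362), (nat_lit 392), (nat_lit 392), (nat_lit 0), (nat_lit 399984), [(nat_lit 4688000000), (nat_lit 7968000000), (nat_lit 9842000000)], [], [(nat_lit 38233325660), (nat_lit 29404564563), (nat_lit 44966783912), (nat_lit 36173008884), (nat_lit 29080191173), (nat_lit 21350533014), (nat_lit 52464491105), (nat_lit 34180790955)], (nat_lit 1271251), (nat_lit 1271251), (nat_lit 780000), (nat_lit 2090001), (nat_lit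 0), (nat_lit 780000), [(nat_lit 1100000), (nat_lit 1785001), (nat_lit 1271251)], [(nat_lit 17), (nat_lit 58), (nat_lit 428), (nat_lit 200), (nat_lit 12)]⟩,
 ⟨⟨[(nat_lit 120), (nat_lit 140), (nat_lit 160)], [(nat_lit 0), (nat_lit 266), (nat_lit 862)], [((nat_lit 0), (nat_lit 0), (nat_lit 0)), ((nat_lit 960), (nat_lit 1000), (nat_lit 200)), ((nat_lit 874), (nat_lit 1000), (nat_lit 406))], ((nat_lit 100), (nat_lit 86), (nat_lit 44))⟩, (nat_lit 1633895), (nat_lit 300), (nat_lit 693), (nat_lit 52854400), (nat_lit 893592), [(nat_lit 6342528000), (nat_lit 7834232000), (nat_lit 9450112000)], [], [(nat_lit 35515822108), (nat_lit 34937668276), (nat_lit 38801197884), (nat_lit 38455001063), (nat_lit 29296413044), (nat_lit 28707584300), (nat_lit 31199002924), (nat_lit 30858616570)], (nat_lit 1271251), (nat_lit 1271251), (nat_lit 1271251), (nat_lit 1271251), (nat_lit 0), (nat_lit 780000), [(nat_lit 1695001), (nat_lit 1271251), (nat_lit 1271251)], [(nat_lit 27),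 (nat_lit 62), (nat_lit 428), (nat_lit 200), (nat_lit 11)]⟩⟩)) (.trX (nat_lit 4) (nat_lit 0) (nat_lit 2) (nat_lit 84) (nat_lit 47) (nat_lit 100) (nat_lit 380) (.spl (nat_lit 0) (nat_lit 315) (.ord (.leaf ⟨(nat_lit 0), (nat_lit 281), (nat_lit 0), (nat_lit 719), (nat_lit 0), (nat_lit 5696), (nat_lit 12340), (nat_lit 7978), (nat_lit 194332), (nat_lit 0), (nat_lit 0), [], Pd.none, Pd.none, (nat_lit 0), (nat_lit 1), (nat_lit 0), (nat_lit 0), (nat_lit 6), (nat_lit 0), [], [], [⟨(nat_lit 0), (nat_lit 100), (nat_lit 92), (nat_lit 39), (nat_lit 765686656)⟩], [],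
 ⟨⟨[(nat_lit 60), (nat_lit 80), (nat_lit 100)], [(nat_lit 0), (nat_lit 456), (nat_lit 976)], [((nat_lit 0), (nat_lit 0), (nat_lit 0)), ((nat_lit 1000), (nat_lit 859), (nat_lit 351)), ((nat_lit 1000), (nat_lit 848), (nat_lit 406))], ((nat_lit 84), (nat_lit 100), (nat_lit 44))⟩, (nat_lit 4578008), (nat_lit 82), (nat_lit 82), (nat_lit 0), (nat_lit 0), [(nat_lit 3282000100), (nat_lit 4759779076), (nat_lit 6250000000)], [], [(nat_lit 18780711080), (nat_lit 19127824356), (nat_lit 23819849964), (nat_lit 24126181798), (nat_lit 29429070749), (nat_lit 29695065287), (nat_lit 31634488335), (nat_lit 31825552846)], (nat_lit 0), (nat_lit 0), (nat_lit 0), (nat_lit 0), (nat_lit 0), (nat_lit 0), [], [(nat_lit 9), (nat_lit 50), (nat_lit 289), (nat_lit 75), (nat_lit 10)]⟩,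
 ⟨⟨[(nat_lit 80), (nat_lit 120), (nat_lit 140)], [(nat_lit 0), (nat_lit 0), (nat_lit 1164)], [((nat_lit 0), (nat_lit 0), (nat_lit 0)), ((nat_lit 0), (nat_lit 0), (nat_lit 0)), ((nat_lit 941), (nat_lit 1000), (nat_lit 576))], ((nat_lit 100), (nat_lit 99), (nat_lit 44))⟩, (nat_lit 4647717), (nat_lit 435), (nat_lit 435), (nat_lit 0), (nat_lit 449194), [(nat_lit 4688000000), (nat_lit 7968000000), (nat_lit 9842000000)], [], [(nat_lit 38509889200), (nat_lit 29440044513), (nat_lit 44974605440), (nat_lit 37849599268), (nat_lit 28405362260), (nat_lit 21453445777), (nat_lit 52689392100), (nat_lit 32128310569)], (nat_lit 1271251), (nat_lit 1271251), (nat_lit 780000), (nat_lit 2090001), (nat_lit 0), (nat_lit 780000), [(nat_lit 1100000), (nat_lit 1785001), (nat_lit 1271251)], [(nat_lit 17), (nat_lit 58), (nat_lit 428), (nat_lit 200), (nat_lit 12)]⟩,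
 ⟨⟨[(nat_lit 120), (nat_lit 140), (nat_lit 160)], [(nat_lit 0), (nat_lit 266), (nat_lit 862)], [((nat_lit 0), (nat_lit 0), (nat_lit 0)), ((nat_lit 960), (nat_lit 1000), (nat_lit 200)), ((nat_lit 874), (nat_lit 1000), (nat_lit 406))], ((nat_lit 100), (nat_lit 86), (nat_lit 44))⟩, (nat_lit 1475842), (nat_lit 300), (nat_lit 752), (nat_lit 47741601), (nat_lit 1033084), [(nat_lit 5728992000), (nat_lit 7076398000), (nat_lit 8535968000)], [], [(nat_lit 32969971677), (nat_lit 32482340079), (nat_lit 34665412257), (nat_lit 34396778630), (nat_lit 27585468056), (nat_lit 27087942140), (nat_lit 28644617838), (nat_lit 28130038364)], (nat_lit 1271251), (nat_lit 1271251), (nat_lit 1271251), (nat_lit 1271251), (nat_lit 0), (nat_lit 780000), [(nat_lit 1695001), (nat_lit 1271251), (nat_lit 1271251)], [(nat_lit 27), (nat_lit 62), (nat_lit 428), (nat_lit 200), (nat_lit 11)]⟩⟩)) (.spl (nat_lit 1) (nat_lit 280) (.leaf ⟨(nat_lit 0), (nat_lit 266), (nat_lit 0), (nat_lit 734),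 (nat_lit 0), (nat_lit 5650), (nat_lit 7987), (nat_lit 8038), (nat_lit 0), (nat_lit 0), (nat_lit 0), [], Pd.none, Pd.none, (nat_lit 0), (nat_lit 1), (nat_lit 0), (nat_lit 0), (nat_lit 6), (nat_lit 0), [], [], [⟨(nat_lit 0), (nat_lit 100), (nat_lit 98), (nat_lit 10), (nat_lit 629813343)⟩], [],
 ⟨⟨[(nat_lit 60), (nat_lit 80), (nat_lit 100)], [(nat_lit 0), (nat_lit 533), (nat_lit 1067)], [((nat_lit 0), (nat_lit 0), (nat_lit 0)), ((nat_lit 1000), (nat_lit 837), (nat_lit 397)), ((nat_lit 1000), (nat_lit 833), (nat_lit 417))], ((nat_lit 83), (nat_lit 100), (nat_lit 44))⟩, (nat_lit 4546862), (nat_lit 85), (nat_lit 85), (nat_lit 0), (nat_lit 0), [(nat_lit 3282000003), (nat_lit 4896197068), (nat_lit 6250000000)], [], [(nat_lit 19201858363), (nat_lit 19546516406), (nat_lit 24107896919), (nat_lit 24413012300), (nat_lit 29634964694), (nat_lit 29900026725), (nat_lit 31778269466), (nat_lit 31968865400)], (nat_lit 0), (nat_lit 0), (nat_lit 0), (nat_lit 0), (nat_lit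 0), (nat_lit 0), [], [(nat_lit 9), (nat_lit 50), (nat_lit 289), (nat_lit 75), (nat_lit 10)]⟩,
 ⟨⟨[(nat_lit 80), (nat_lit 120), (nat_lit 140)], [(nat_lit 0), (nat_lit 0), (nat_lit 1164)], [((nat_lit 0), (nat_lit 0), (nat_lit 0)), ((nat_lit 0), (nat_lit 0), (nat_lit 0)), ((nat_lit 941), (nat_lit 1000), (nat_lit 576))], ((nat_lit 100), (nat_lit 99), (nat_lit 44))⟩, (nat_lit 3938210), (nat_lit 366), (nat_lit 366), (nat_lit 0), (nat_lit 357536), [(nat_lit 4688000000), (nat_lit 7968000000), (nat_lit 9842000000)], [], [(nat_lit 36444913060), (nat_lit 30110356887), (nat_lit 44916205592), (nat_lit 37537463564), (nat_lit 33444007643), (nat_lit 26103598268), (nat_lit 51010157055), (nat_lit 43912529473)], (nat_lit 1271251), (nat_lit 1271251), (nat_lit 780000), (nat_lit 2090001), (nat_lit 0), (nat_lit 780000), [(nat_lit 1100000), (nat_lit 1785001), (nat_lit 1271251)], [(nat_lit 17), (nat_lit 58), (nat_lit 401), (nat_lit 175), (nat_lit 12)]⟩,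
 ⟨⟨[(nat_lit 120), (nat_lit 140), (nat_lit 160)], [(nat_lit 0), (nat_lit 266), (nat_lit 862)], [((nat_lit 0), (nat_lit 0), (nat_lit 0)), ((nat_lit 960), (nat_lit 1000), (nat_lit 200)), ((nat_lit 874), (nat_lit 1000), (nat_lit 406))], ((nat_lit 100), (nat_lit 86), (nat_lit 44))⟩, (nat_lit 1627717), (nat_lit 300), (nat_lit 592), (nat_lit 48737600), (nat_lit 698783), [(nat_lit 5848512000), (nat_lit 7224028000), (nat_lit 8714048000)], [], [(nat_lit 32881738278), (nat_lit 32686587218), (nat_lit 35570883184), (nat_lit 35154013121), (nat_lit 27285922918), (nat_lit 27000035222), (nat_lit 29519305435), (nat_lit 29007190101)], (nat_lit 1271251), (nat_lit 1271251), (nat_lit 1271251), (nat_lit 1271251), (nat_lit 0), (nat_lit 780000), [(nat_lit 1695001), (nat_lit 1271251), (nat_lit 1271251)], [(nat_lit 27), (nat_lit 62), (nat_lit 428), (nat_lit 200), (nat_lit 11)]⟩⟩) (.leaf ⟨(nat_lit 0), (nat_lit 560), (nat_lit 0), (nat_lit 440), (nat_lit 0), (nat_lit 4763), (nat_lit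 9486), (nat_lit 4502), (nat_lit 208109), (nat_lit 0), (nat_lit 0), [], Pd.none, Pd.none, (nat_lit 0), (nat_lit 1), (nat_lit 0), (nat_lit 0), (nat_lit 6), (nat_lit 0), [⟨(nat_lit 0), (nat_lit 83), (nat_lit 83), (nat_lit 100), (nat_lit 21697112)⟩], [⟨(nat_lit 1), (nat_lit 59), (nat_lit 81), (nat_lit 100), (nat_lit 145269089)⟩], [⟨(nat_lit 0), (nat_lit 100), (nat_lit 87), (nat_lit 50), (nat_lit 609804370)⟩], [],
 ⟨⟨[(nat_lit 60), (nat_lit 80), (nat_lit 100)], [(nat_lit 0), (nat_lit 533), (nat_lit 1067)], [((nat_lit 0), (nat_lit 0), (nat_lit 0)), ((nat_lit 1000), (nat_lit 837), (nat_lit 397)), ((nat_lit 1000), (nat_lit 833), (nat_lit 417))], ((nat_lit 83), (nat_lit 100), (nat_lit 44))⟩, (nat_lit 7061567), (nat_lit 85), (nat_lit 85), (nat_lit 0), (nat_lit 0), [(nat_lit 3282000005), (nat_lit 5183486077), (nat_lit 6250000000)], [], [(nat_lit 20647543189), (nat_lit 20962970258), (nat_lit 24915837731), (nat_lit 25145929496), (nat_lit 28513943975), (nat_lit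 28723149360), (nat_lit 30866522554), (nat_lit 31048083118)], (nat_lit 0), (nat_lit 0), (nat_lit 0), (nat_lit 0), (nat_lit 0), (nat_lit 0), [], [(nat_lit 9), (nat_lit 50), (nat_lit 289), (nat_lit 75), (nat_lit 10)]⟩,
 ⟨⟨[(nat_lit 60), (nat_lit 100), (nat_lit 120)], [(nat_lit 0), (nat_lit 0), (nat_lit 1164)], [((nat_lit 0), (nat_lit 0), (nat_lit 0)), ((nat_lit 0), (nat_lit 0), (nat_lit 0)), ((nat_lit 1000), (nat_lit 933), (nat_lit 572))], ((nat_lit 92), (nat_lit 100), (nat_lit 44))⟩, (nat_lit 4229934), (nat_lit 367), (nat_lit 367), (nat_lit 0), (nat_lit 455689), [(nat_lit 3282000000), (nat_lit 6250000000), (nat_lit 7968000000)], [], [(nat_lit 27190830146), (nat_lit 25970577760), (nat_lit 29382936836), (nat_lit 33556731068), (nat_lit 18128593440), (nat_lit 20758059466), (nat_lit 36030358109), (nat_lit 27491824532)], (nat_lit 1271251), (nat_lit 1271251), (nat_lit 780000), (nat_lit 2090001), (nat_lit 0), (nat_lit 780000), [(nat_lit 780000), (nat_lit 1435001),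 (nat_lit 1271251)], [(nat_lit 10), (nat_lit 54), (nat_lit 317), (nat_lit 100), (nat_lit 10)]⟩,
 ⟨⟨[(nat_lit 120), (nat_lit 140), (nat_lit 160)], [(nat_lit 0), (nat_lit 266), (nat_lit 862)], [((nat_lit 0), (nat_lit 0), (nat_lit 0)), ((nat_lit 960), (nat_lit 1000), (nat_lit 200)), ((nat_lit 874), (nat_lit 1000), (nat_lit 406))], ((nat_lit 100), (nat_lit 86), (nat_lit 44))⟩, (nat_lit 1983209), (nat_lit 300), (nat_lit 823), (nat_lit 29216000), (nat_lit 1170290), [(nat_lit 3505920000), (nat_lit 4330480000), (nat_lit 5223680000)], [], [(nat_lit 21807994472), (nat_lit 21452618856), (nat_lit 21944579061), (nat_lit 21595535283), (nat_lit 18950787874), (nat_lit 18594510102), (nat_lit 18818323354), (nat_lit 18451909079)], (nat_lit 1271251), (nat_lit 1271251), (nat_lit 1271251), (nat_lit 1271251), (nat_lit 0), (nat_lit 780000), [(nat_lit 1695001), (nat_lit 1271251), (nat_lit 1271251)], [(nat_lit 27), (nat_lit 62), (nat_lit 428), (nat_lit 200), (nat_lit 11)]⟩⟩)))))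 (.spl (nat_lit 1) (nat_lit 280) (.leaf ⟨(nat_lit 0), (nat_lit 229), (nat_lit 0), (nat_lit 771), (nat_lit 0), (nat_lit 5649), (nat_lit 6146), (nat_lit 7232), (nat_lit 0), (nat_lit 0), (nat_lit 0), [], Pd.none, Pd.none, (nat_lit 0), (nat_lit 1), (nat_lit 0), (nat_lit 0), (nat_lit 6), (nat_lit 0), [], [], [], [],
 ⟨⟨[(nat_lit 60), (nat_lit 80), (nat_lit 100)], [(nat_lit 0), (nat_lit 304), (nat_lit 825)], [((nat_lit 0), (nat_lit 0), (nat_lit 0)), ((nat_lit 1000), (nat_lit 905), (nat_lit 238)), ((nat_lit 1000), (nat_lit 871), (nat_lit 407))], ((nat_lit 87), (nat_lit 100), (nat_lit 44))⟩, (nat_lit 9901129), (nat_lit 100), (nat_lit 100), (nat_lit 0), (nat_lit 0), [(nat_lit 3282000012), (nat_lit 5008397949), (nat_lit 6250000000)], [], [(nat_lit 18169612973), (nat_lit 19548113328), (nat_lit 23192232612), (nat_lit 24412588358), (nat_lit 29714231420), (nat_lit 30726722304), (nat_lit 31856487199), (nat_lit 32585505205)], (nat_lit 0), (nat_lit 0), (nat_lit 0),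 (nat_lit 0), (nat_lit 0), (nat_lit 0), [], [(nat_lit 9), (nat_lit 50), (nat_lit 289), (nat_lit 75), (nat_lit 10)]⟩,
 ⟨⟨[(nat_lit 80), (nat_lit 120), (nat_lit 140)], [(nat_lit 0), (nat_lit 0), (nat_lit 1164)], [((nat_lit 0), (nat_lit 0), (nat_lit 0)), ((nat_lit 0), (nat_lit 0), (nat_lit 0)), ((nat_lit 941), (nat_lit 1000), (nat_lit 576))], ((nat_lit 100), (nat_lit 99), (nat_lit 44))⟩, (nat_lit 4138857), (nat_lit 285), (nat_lit 285), (nat_lit 0), (nat_lit 357098), [(nat_lit 4688000000), (nat_lit 7968000000), (nat_lit 9842000000)], [], [(nat_lit 37434742238), (nat_lit 30981466822), (nat_lit 36889653978), (nat_lit 33970330732), (nat_lit 47784516288), (nat_lit 42253343690), (nat_lit 63383074732), (nat_lit 58122971464)], (nat_lit 1271251), (nat_lit 1271251), (nat_lit 780000), (nat_lit 2090001), (nat_lit 780000), (nat_lit 3072501), [(nat_lit 1100000), (nat_lit 1785001), (nat_lit 1271251)], [(nat_lit 17), (nat_lit 58), (nat_lit 483), (nat_lit 250), (nat_lit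 14)]⟩,
 ⟨⟨[(nat_lit 120), (nat_lit 140), (nat_lit 160)], [(nat_lit 0), (nat_lit 266), (nat_lit 862)], [((nat_lit 0), (nat_lit 0), (nat_lit 0)), ((nat_lit 960), (nat_lit 1000), (nat_lit 200)), ((nat_lit 874), (nat_lit 1000), (nat_lit 406))], ((nat_lit 100), (nat_lit 86), (nat_lit 44))⟩, (nat_lit 3782641), (nat_lit 300), (nat_lit 697), (nat_lit 51194400), (nat_lit 1102170), [(nat_lit 6143328000), (nat_lit 7588182000), (nat_lit 9153312000)], [], [(nat_lit 35077644976), (nat_lit 34651699692), (nat_lit 35732116006), (nat_lit 35167287257), (nat_lit 33573315239), (nat_lit 32946082613), (nat_lit 33234272865), (nat_lit 32560704017)], (nat_lit 1271251), (nat_lit 1271251), (nat_lit 1271251), (nat_lit 1271251), (nat_lit 780000), (nat_lit 3072501), [(nat_lit 1695001), (nat_lit 1271251), (nat_lit 1271251)], [(nat_lit 27), (nat_lit 62), (nat_lit 538), (nat_lit 300), (nat_lit 13)]⟩⟩) (.leaf ⟨(nat_lit 0), (nat_lit 425), (nat_lit 0), (nat_lit 575), (nat_lit 0), (nat_lit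 4700), (nat_lit 7653), (nat_lit 5343), (nat_lit 1606283410555), (nat_lit 0), (nat_lit 0), [], Pd.none, Pd.none, (nat_lit 0), (nat_lit 1), (nat_lit 0), (nat_lit 0), (nat_lit 6), (nat_lit 0), [⟨(nat_lit 0), (nat_lit 83), (nat_lit 83), (nat_lit 100), (nat_lit 172370106)⟩], [⟨(nat_lit 1), (nat_lit 55), (nat_lit 84), (nat_lit 100), (nat_lit 35075016)⟩], [], [],
 ⟨⟨[(nat_lit 60), (nat_lit 80), (nat_lit 100)], [(nat_lit 0), (nat_lit 304), (nat_lit 825)], [((nat_lit 0), (nat_lit 0), (nat_lit 0)), ((nat_lit 1000), (nat_lit 905), (nat_lit 238)), ((nat_lit 1000), (nat_lit 871), (nat_lit 407))], ((nat_lit 87), (nat_lit 100), (nat_lit 44))⟩, (nat_lit 15163043), (nat_lit 100), (nat_lit 100), (nat_lit 0), (nat_lit 0), [(nat_lit 3282000038), (nat_lit 5533458727), (nat_lit 6250000000)], [], [(nat_lit 19810171626), (nat_lit 21063575276), (nat_lit 24327398126), (nat_lit 25242891476), (nat_lit 28586362545), (nat_lit 29386298475), (nat_lit 30900348420), (nat_lit 31547019250)],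 (nat_lit 0), (nat_lit 0), (nat_lit 0), (nat_lit 0), (nat_lit 0), (nat_lit 0), [], [(nat_lit 9), (nat_lit 50), (nat_lit 289), (nat_lit 75), (nat_lit 10)]⟩,
 ⟨⟨[(nat_lit 60), (nat_lit 100), (nat_lit 120)], [(nat_lit 0), (nat_lit 0), (nat_lit 1164)], [((nat_lit 0), (nat_lit 0), (nat_lit 0)), ((nat_lit 0), (nat_lit 0), (nat_lit 0)), ((nat_lit 1000), (nat_lit 933), (nat_lit 572))], ((nat_lit 92), (nat_lit 100), (nat_lit 44))⟩, (nat_lit 3569643), (nat_lit 282), (nat_lit 282), (nat_lit 0), (nat_lit 456595), [(nat_lit 3282000000), (nat_lit 6250000000), (nat_lit 7968000000)], [], [(nat_lit 30316359471), (nat_lit 22280740083), (nat_lit 24153373233), (nat_lit 26306683490), (nat_lit 32357410913), (nat_lit 34556961136), (nat_lit 47552477522), (nat_lit 40838255726)], (nat_lit 1271251), (nat_lit 1271251), (nat_lit 780000), (nat_lit 2090001), (nat_lit 780000), (nat_lit 3072501), [(nat_lit 780000), (nat_lit 1435001), (nat_lit 1271251)], [(nat_lit 10), (nat_lit 54),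 (nat_lit 401), (nat_lit 175), (nat_lit 13)]⟩,
 ⟨⟨[(nat_lit 120), (nat_lit 140), (nat_lit 160)], [(nat_lit 0), (nat_lit 266), (nat_lit 862)], [((nat_lit 0), (nat_lit 0), (nat_lit 0)), ((nat_lit 960), (nat_lit 1000), (nat_lit 200)), ((nat_lit 874), (nat_lit 1000), (nat_lit 406))], ((nat_lit 100), (nat_lit 86), (nat_lit 44))⟩, (nat_lit 4380530), (nat_lit 300), (nat_lit 1092), (nat_lit 38180000), (nat_lit 1950149), [(nat_lit 4581600000), (nat_lit 5659150000), (nat_lit 6826400000)], [], [(nat_lit 28924989168), (nat_lit 28423372582), (nat_lit 28095264509), (nat_lit 27560082075), (nat_lit 26199680011), (nat_lit 25644058001), (nat_lit 25156889098), (nat_lit 24557781954)], (nat_lit 1271251), (nat_lit 1271251), (nat_lit 1271251), (nat_lit 1271251), (nat_lit 780000), (nat_lit 3072501), [(nat_lit 1695001), (nat_lit 1271251), (nat_lit 1271251)], [(nat_lit 27), (nat_lit 62), (nat_lit 538), (nat_lit 300), (nat_lit 13)]⟩⟩)))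
noncomputable def c4_43 : Tr Lf :=
 (.spl (nat_lit 5) (nat_lit 120) (.spl (nat_lit 4) (nat_lit 320) (.leaf ⟨(nat_lit 0), (nat_lit 661), (nat_lit 0), (nat_lit 339), (nat_lit 0), (nat_lit 6348), (nat_lit 7148), (nat_lit 4633), (nat_lit 83004), (nat_lit 0), (nat_lit 0), [], Pd.none, Pd.none, (nat_lit 0), (nat_lit 1), (nat_lit 0), (nat_lit 0), (nat_lit 6), (nat_lit 0), [], [], [], [⟨(nat_lit 0), (nat_lit 92), (nat_lit 100), (nat_lit 40), (nat_lit 100818478)⟩],
 ⟨⟨[(nat_lit 60), (nat_lit 80), (nat_lit 100)], [(nat_lit 0), (nat_lit 304), (nat_lit 825)], [((nat_lit 0), (nat_lit 0), (nat_lit 0)), ((nat_lit 1000), (nat_lit 905), (nat_lit 238)), ((nat_lit 1000), (nat_lit 871), (nat_lit 407))], ((nat_lit 87), (nat_lit 100), (nat_lit 44))⟩, (nat_lit 3302514), (nat_lit 260), (nat_lit 260), (nat_lit 0), (nat_lit 576199), [(nat_lit 3282000065), (nat_lit 4688000022), (nat_lit 6250000000)], [], [(nat_lit 21117066547), (nat_lit 21982724827), (nat_lit 23606331103),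 (nat_lit 24708923816), (nat_lit 24068351305), (nat_lit 25498775720), (nat_lit 27740962106), (nat_lit 28751641536)], (nat_lit 1271251), (nat_lit 1271251), (nat_lit 780000), (nat_lit 2090001), (nat_lit 1271251), (nat_lit 1271251), [(nat_lit 780000), (nat_lit 1100000), (nat_lit 1442501)], [(nat_lit 9), (nat_lit 50), (nat_lit 289), (nat_lit 75), (nat_lit 10)]⟩,
 ⟨⟨[(nat_lit 80), (nat_lit 120), (nat_lit 140)], [(nat_lit 0), (nat_lit 0), (nat_lit 1164)], [((nat_lit 0), (nat_lit 0), (nat_lit 0)), ((nat_lit 0), (nat_lit 0), (nat_lit 0)), ((nat_lit 941), (nat_lit 1000), (nat_lit 576))], ((nat_lit 100), (nat_lit 99), (nat_lit 44))⟩, (nat_lit 2277479), (nat_lit 344), (nat_lit 344), (nat_lit 0), (nat_lit 278570), [(nat_lit 4688000000), (nat_lit 7968000000), (nat_lit 9842000000)], [], [(nat_lit 36046908240), (nat_lit 34868825428), (nat_lit 44904949568), (nat_lit 37502129348), (nat_lit 34415159372), (nat_lit 31021249880), (nat_lit 50686500220), (nat_lit 37982395560)],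 (nat_lit 1271251), (nat_lit 1271251), (nat_lit 780000), (nat_lit 2090001), (nat_lit 0), (nat_lit 780000), [(nat_lit 1100000), (nat_lit 1785001), (nat_lit 1271251)], [(nat_lit 17), (nat_lit 58), (nat_lit 428), (nat_lit 200), (nat_lit 12)]⟩,
 ⟨⟨[(nat_lit 140), (nat_lit 160), (nat_lit 180)], [(nat_lit 0), (nat_lit 0), (nat_lit 799)], [((nat_lit 0), (nat_lit 0), (nat_lit 0)), ((nat_lit 0), (nat_lit 0), (nat_lit 0)), ((nat_lit 728), (nat_lit 1000), (nat_lit 454))], ((nat_lit 100), (nat_lit 71), (nat_lit 48))⟩, (nat_lit 297845), (nat_lit 300), (nat_lit 753), (nat_lit 25153800), (nat_lit 794798), [(nat_lit 3336438000), (nat_lit 4024608000), (nat_lit 4765662000)], [], [(nat_lit 18774915196), (nat_lit 17587349154), (nat_lit 18921943112), (nat_lit 17937492649), (nat_lit 15107751056), (nat_lit 14771470966), (nat_lit 15192605920), (nat_lit 13986915921)], (nat_lit 780000), (nat_lit 1598751), (nat_lit 1271251), (nat_lit 1271251), (nat_lit 0), (nat_lit 780000),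 [(nat_lit 1977501), (nat_lit 1271251), (nat_lit 1271251)], [(nat_lit 31), (nat_lit 65), (nat_lit 401), (nat_lit 175), (nat_lit 9)]⟩⟩) (.spl (nat_lit 0) (nat_lit 310) (.ord (.leaf ⟨(nat_lit 0), (nat_lit 490), (nat_lit 0), (nat_lit 510), (nat_lit 0), (nat_lit 6390), (nat_lit 7255), (nat_lit 6916), (nat_lit 14773), (nat_lit 0), (nat_lit 0), [], Pd.none, Pd.none, (nat_lit 0), (nat_lit 1), (nat_lit 0), (nat_lit 0), (nat_lit 8), (nat_lit 0), [], [⟨(nat_lit 1), (nat_lit 65), (nat_lit 86), (nat_lit 100), (nat_lit 444898730)⟩], [], [],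
 ⟨⟨[(nat_lit 60), (nat_lit 80), (nat_lit 100)], [(nat_lit 0), (nat_lit 304), (nat_lit 825)], [((nat_lit 0), (nat_lit 0), (nat_lit 0)), ((nat_lit 1000), (nat_lit 905), (nat_lit 238)), ((nat_lit 1000), (nat_lit 871), (nat_lit 407))], ((nat_lit 87), (nat_lit 100), (nat_lit 44))⟩, (nat_lit 2650705), (nat_lit 249), (nat_lit 249), (nat_lit 0), (nat_lit 475071), [(nat_lit 3282000012), (nat_lit 4688000023), (nat_lit 6250000000)], [], [(nat_lit 24240040455), (nat_lit 24814487968), (nat_lit 27767489705), (nat_lit 28274283093), (nat_lit 30705869298), (nat_lit 31239611953), (nat_lit 32640684072), (nat_lit 33018530936)], (nat_lit 1271251), (nat_lit 1271251), (nat_lit 780000), (nat_lit 2090001), (nat_lit 1271251), (nat_lit 1271251), [(nat_lit 780000), (nat_lit 1100000), (nat_lit 1442501)], [(nat_lit 9), (nat_lit 50), (nat_lit 289), (nat_lit 75), (nat_lit 9)]⟩,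
 ⟨⟨[(nat_lit 80), (nat_lit 120), (nat_lit 140)], [(nat_lit 0), (nat_lit 0), (nat_lit 1164)], [((nat_lit 0), (nat_lit 0), (nat_lit 0)), ((nat_lit 0), (nat_lit 0), (nat_lit 0)), ((nat_lit 941), (nat_lit 1000), (nat_lit 576))], ((nat_lit 100), (nat_lit 99), (nat_lit 44))⟩, (nat_lit 3092891), (nat_lit 321), (nat_lit 321), (nat_lit 0), (nat_lit 230997), [(nat_lit 4688000000), (nat_lit 7968000000), (nat_lit 9842000000)], [], [(nat_lit 36097666900), (nat_lit 33233238957), (nat_lit 44906385080), (nat_lit 36368386887), (nat_lit 34291305695), (nat_lit 29568660107), (nat_lit 50727777075), (nat_lit 39445286254)], (nat_lit 1271251), (nat_lit 1271251), (nat_lit 780000), (nat_lit 2090001), (nat_lit 0), (nat_lit 780000), [(nat_lit 1100000), (nat_lit 1785001), (nat_lit 1271251)], [(nat_lit 17), (nat_lit 58), (nat_lit 428), (nat_lit 200), (nat_lit 12)]⟩,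
 ⟨⟨[(nat_lit 140), (nat_lit 160), (nat_lit 180)], [(nat_lit 0), (nat_lit 0), (nat_lit 799)], [((nat_lit 0), (nat_lit 0), (nat_lit 0)), ((nat_lit 0), (nat_lit 0), (nat_lit 0)), ((nat_lit 728), (nat_lit 1000), (nat_lit 454))], ((nat_lit 100), (nat_lit 71), (nat_lit 48))⟩, (nat_lit 448085), (nat_lit 300), (nat_lit 654), (nat_lit 37842001), (nat_lit 638412), [(nat_lit 5019420000), (nat_lit 6054720000), (nat_lit 7169580000)], [], [(nat_lit 28544146884), (nat_lit 27005278756), (nat_lit 30701313252), (nat_lit 28806329895), (nat_lit 22983950476), (nat_lit 21114391401), (nat_lit 24470227851), (nat_lit 22699728882)], (nat_lit 780000), (nat_lit 1598751), (nat_lit 1271251), (nat_lit 1271251), (nat_lit 0), (nat_lit 780000), [(nat_lit 1977501), (nat_lit 1271251), (nat_lit 1271251)], [(nat_lit 31), (nat_lit 65), (nat_lit 428), (nat_lit 200), (nat_lit 10)]⟩⟩)) (.trX (nat_lit 4) (nat_lit 0) (nat_lit 2) (nat_lit 84) (nat_lit 47) (nat_lit 100) (nat_lit 380) (.leaf ⟨(nat_lit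 0), (nat_lit 521), (nat_lit 0), (nat_lit 479), (nat_lit 0), (nat_lit 6198), (nat_lit 7489), (nat_lit 5670), (nat_lit 10515), (nat_lit 0), (nat_lit 0), [], Pd.none, Pd.none, (nat_lit 0), (nat_lit 1), (nat_lit 0), (nat_lit 0), (nat_lit 8), (nat_lit 0), [], [⟨(nat_lit 1), (nat_lit 70), (nat_lit 83), (nat_lit 100), (nat_lit 386182867)⟩], [⟨(nat_lit 0), (nat_lit 100), (nat_lit 93), (nat_lit 26), (nat_lit 50155736)⟩], [],
 ⟨⟨[(nat_lit 60), (nat_lit 80), (nat_lit 100)], [(nat_lit 0), (nat_lit 456), (nat_lit 976)], [((nat_lit 0), (nat_lit 0), (nat_lit 0)), ((nat_lit 1000), (nat_lit 859), (nat_lit 351)), ((nat_lit 1000), (nat_lit 848), (nat_lit 406))], ((nat_lit 84), (nat_lit 100), (nat_lit 44))⟩, (nat_lit 2473191), (nat_lit 277), (nat_lit 277), (nat_lit 0), (nat_lit 572677), [(nat_lit 3282000008), (nat_lit 4688000006), (nat_lit 6250000000)], [], [(nat_lit 24670731283), (nat_lit 25376842220), (nat_lit 28146368709), (nat_lit 28646516736), (nat_lit 30074774650),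 (nat_lit 30627116687), (nat_lit 32145380324), (nat_lit 32537736528)], (nat_lit 1271251), (nat_lit 1271251), (nat_lit 780000), (nat_lit 2090001), (nat_lit 1271251), (nat_lit 1271251), [(nat_lit 780000), (nat_lit 1100000), (nat_lit 1442501)], [(nat_lit 9), (nat_lit 50), (nat_lit 289), (nat_lit 75), (nat_lit 9)]⟩,
 ⟨⟨[(nat_lit 80), (nat_lit 120), (nat_lit 140)], [(nat_lit 0), (nat_lit 0), (nat_lit 1164)], [((nat_lit 0), (nat_lit 0), (nat_lit 0)), ((nat_lit 0), (nat_lit 0), (nat_lit 0)), ((nat_lit 941), (nat_lit 1000), (nat_lit 576))], ((nat_lit 100), (nat_lit 99), (nat_lit 44))⟩, (nat_lit 3345055), (nat_lit 343), (nat_lit 343), (nat_lit 0), (nat_lit 277468), [(nat_lit 4688000000), (nat_lit 7968000000), (nat_lit 9842000000)], [], [(nat_lit 36208671820), (nat_lit 33422044928), (nat_lit 44909524424), (nat_lit 36669696070), (nat_lit 34020448121), (nat_lit 29489216073), (nat_lit 50818046085), (nat_lit 37507883830)], (nat_lit 1271251), (nat_lit 1271251), (nat_lit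 780000), (nat_lit 2090001), (nat_lit 0), (nat_lit 780000), [(nat_lit 1100000), (nat_lit 1785001), (nat_lit 1271251)], [(nat_lit 17), (nat_lit 58), (nat_lit 428), (nat_lit 200), (nat_lit 12)]⟩,
 ⟨⟨[(nat_lit 140), (nat_lit 160), (nat_lit 180)], [(nat_lit 0), (nat_lit 0), (nat_lit 799)], [((nat_lit 0), (nat_lit 0), (nat_lit 0)), ((nat_lit 0), (nat_lit 0), (nat_lit 0)), ((nat_lit 728), (nat_lit 1000), (nat_lit 454))], ((nat_lit 100), (nat_lit 71), (nat_lit 48))⟩, (nat_lit 420849), (nat_lit 300), (nat_lit 735), (nat_lit 35541800), (nat_lit 794801), [(nat_lit 4714318000), (nat_lit 5686688000), (nat_lit 6733782000)], [], [(nat_lit 28009287572), (nat_lit 26468831708), (nat_lit 28734799111), (nat_lit 27016431964), (nat_lit 23832321114), (nat_lit 22112321920), (nat_lit 24165852234), (nat_lit 22522808212)], (nat_lit 780000), (nat_lit 1598751), (nat_lit 1271251), (nat_lit 1271251), (nat_lit 0), (nat_lit 780000), [(nat_lit 1977501), (nat_lit 1271251), (nat_lit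 1271251)], [(nat_lit 31), (nat_lit 65), (nat_lit 428), (nat_lit 200), (nat_lit 10)]⟩⟩)))) (.stt (nat_lit 2) (.spl (nat_lit 5) (nat_lit 280) (.leaf ⟨(nat_lit 0), (nat_lit 854), (nat_lit 0), (nat_lit 146), (nat_lit 0), (nat_lit 5264), (nat_lit 6614), (nat_lit 1580), (nat_lit 204449), (nat_lit 0), (nat_lit 0), [], Pd.none, Pd.none, (nat_lit 0), (nat_lit 1), (nat_lit 0), (nat_lit 0), (nat_lit 6), (nat_lit 0), [⟨(nat_lit 0), (nat_lit 83), (nat_lit 83), (nat_lit 100), (nat_lit 159372367)⟩], [⟨(nat_lit 1), (nat_lit 68), (nat_lit 84), (nat_lit 100), (nat_lit 447666835)⟩], [], [],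
 ⟨⟨[(nat_lit 60), (nat_lit 80), (nat_lit 100)], [(nat_lit 0), (nat_lit 304), (nat_lit 825)], [((nat_lit 0), (nat_lit 0), (nat_lit 0)), ((nat_lit 1000), (nat_lit 905), (nat_lit 238)), ((nat_lit 1000), (nat_lit 871), (nat_lit 407))], ((nat_lit 87), (nat_lit 100), (nat_lit 44))⟩, (nat_lit 6042036), (nat_lit 280), (nat_lit 280), (nat_lit 0), (nat_lit 576199), [(nat_lit 3282000004), (nat_lit 4688000013), (nat_lit 6250000000)], [], [(nat_lit 21881214306), (nat_lit 22849574329), (nat_lit 25494166572), (nat_lit 26256490320), (nat_lit 29200677000), (nat_lit 30182925492), (nat_lit 31449043479), (nat_lit 32164201630)], (nat_lit 1271251), (nat_lit 1271251), (nat_lit 780000), (nat_lit 2090001), (nat_lit 1271251), (nat_lit 1271251), [(nat_lit 780000), (nat_lit 1100000), (nat_lit 1442501)], [(nat_lit 9), (nat_lit 50), (nat_lit 289), (nat_lit 75), (nat_lit 10)]⟩,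
 ⟨⟨[(nat_lit 80), (nat_lit 120), (nat_lit 140)], [(nat_lit 0), (nat_lit 0), (nat_lit 1164)], [((nat_lit 0), (nat_lit 0), (nat_lit 0)), ((nat_lit 0), (nat_lit 0), (nat_lit 0)), ((nat_lit 941), (nat_lit 1000), (nat_lit 576))], ((nat_lit 100), (nat_lit 99), (nat_lit 44))⟩, (nat_lit 0), (nat_lit 60), (nat_lit 60), (nat_lit 0), (nat_lit 0), [(nat_lit 4688000000), (nat_lit 7968000000), (nat_lit 9842000000)], [], [(nat_lit 8809538972), (nat_lit 16902581920), (nat_lit 17130725318), (nat_lit 22786491482), (nat_lit 17130725318), (nat_lit 22786491482), (nat_lit 22388740200), (nat_lit 26879877618)], (nat_lit 0), (nat_lit 0), (nat_lit 0), (nat_lit 0), (nat_lit 0), (nat_lit 0), [], [(nat_lit 17), (nat_lit 58), (nat_lit 456), (nat_lit 225), (nat_lit 13)]⟩,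
 ⟨⟨[(nat_lit 140), (nat_lit 160), (nat_lit 180)], [(nat_lit 0), (nat_lit 0), (nat_lit 799)], [((nat_lit 0), (nat_lit 0), (nat_lit 0)), ((nat_lit 0), (nat_lit 0), (nat_lit 0)), ((nat_lit 728), (nat_lit 1000), (nat_lit 454))], ((nat_lit 100), (nat_lit 71), (nat_lit 48))⟩, (nat_lit 128275), (nat_lit 300), (nat_lit 1710), (nat_lit 10833202), (nat_lit 3044374), [(nat_lit 1436932000), (nat_lit 1733312000), (nat_lit 2052468000)], [], [(nat_lit 8330651992), (nat_lit 7819052577), (nat_lit 7914086796), (nat_lit 7397515923), (nat_lit 7554715976), (nat_lit 7043899305), (nat_lit 7191413152), (nat_lit 6676095581)], (nat_lit 780000), (nat_lit 1598751), (nat_lit 1271251), (nat_lit 1271251), (nat_lit 780000), (nat_lit 2090001), [(nat_lit 1977501), (nat_lit 1271251), (nat_lit 1271251)], [(nat_lit 31), (nat_lit 65), (nat_lit 539), (nat_lit 225), (nat_lit 12)]⟩⟩) (.spl (nat_lit 1) (nat_lit 280) (.leaf ⟨(nat_lit 0), (nat_lit 814), (nat_lit 0), (nat_lit 186), (nat_lit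 0), (nat_lit 5592), (nat_lit 8830), (nat_lit 1900), (nat_lit 0), (nat_lit 0), (nat_lit 0), [], Pd.none, Pd.none, (nat_lit 0), (nat_lit 1), (nat_lit 0), (nat_lit 0), (nat_lit 7), (nat_lit 0), [], [⟨(nat_lit 1), (nat_lit 68), (nat_lit 84), (nat_lit 100), (nat_lit 87060848)⟩], [⟨(nat_lit 1), (nat_lit 44), (nat_lit 96), (nat_lit 100), (nat_lit 116462402)⟩], [⟨(nat_lit 2), (nat_lit 73), (nat_lit 83), (nat_lit 100), (nat_lit 469290821)⟩],
 ⟨⟨[(nat_lit 60), (nat_lit 80), (nat_lit 100)], [(nat_lit 0), (nat_lit 304), (nat_lit 825)], [((nat_lit 0), (nat_lit 0), (nat_lit 0)), ((nat_lit 1000), (nat_lit 905), (nat_lit 238)), ((nat_lit 1000), (nat_lit 871), (nat_lit 407))], ((nat_lit 87), (nat_lit 100), (nat_lit 44))⟩, (nat_lit 6120170), (nat_lit 209), (nat_lit 209), (nat_lit 0), (nat_lit 342648), [(nat_lit 3282000002), (nat_lit 4688000027), (nat_lit 6250000000)], [], [(nat_lit 19446144376), (nat_lit 20567496054), (nat_lit 23510148930), (nat_lit 24388423664), (nat_lit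 29637951583), (nat_lit 30646212126), (nat_lit 31796164362), (nat_lit 32523130390)], (nat_lit 1271251), (nat_lit 1271251), (nat_lit 780000), (nat_lit 2090001), (nat_lit 1271251), (nat_lit 1271251), [(nat_lit 780000), (nat_lit 1100000), (nat_lit 1442501)], [(nat_lit 9), (nat_lit 50), (nat_lit 289), (nat_lit 75), (nat_lit 10)]⟩,
 ⟨⟨[(nat_lit 80), (nat_lit 120), (nat_lit 140)], [(nat_lit 0), (nat_lit 0), (nat_lit 1164)], [((nat_lit 0), (nat_lit 0), (nat_lit 0)), ((nat_lit 0), (nat_lit 0), (nat_lit 0)), ((nat_lit 941), (nat_lit 1000), (nat_lit 576))], ((nat_lit 100), (nat_lit 99), (nat_lit 44))⟩, (nat_lit 0), (nat_lit 116), (nat_lit 116), (nat_lit 0), (nat_lit 0), [(nat_lit 4688000000), (nat_lit 7968000000), (nat_lit 9842000000)], [], [(nat_lit 21352213830), (nat_lit 24124299085), (nat_lit 25504311270), (nat_lit 27382864225), (nat_lit 32299848920), (nat_lit 33962662560), (nat_lit 33682494700), (nat_lit 35272715510)], (nat_lit 0), (nat_lit 0), (nat_lit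 0), (nat_lit 0), (nat_lit 0), (nat_lit 0), [], [(nat_lit 17), (nat_lit 58), (nat_lit 373), (nat_lit 150), (nat_lit 10)]⟩,
 ⟨⟨[(nat_lit 140), (nat_lit 160), (nat_lit 180)], [(nat_lit 0), (nat_lit 0), (nat_lit 799)], [((nat_lit 0), (nat_lit 0), (nat_lit 0)), ((nat_lit 0), (nat_lit 0), (nat_lit 0)), ((nat_lit 728), (nat_lit 1000), (nat_lit 454))], ((nat_lit 100), (nat_lit 71), (nat_lit 48))⟩, (nat_lit 163419), (nat_lit 300), (nat_lit 1026), (nat_lit 13801202), (nat_lit 1758644), [(nat_lit 1830612000), (nat_lit 2208192000), (nat_lit 2614788000)], [], [(nat_lit 10194287281), (nat_lit 9599744122), (nat_lit 9822245670), (nat_lit 9195506546), (nat_lit 9952144080), (nat_lit 9329330438), (nat_lit 9522771911), (nat_lit 8868496448)], (nat_lit 780000), (nat_lit 1598751), (nat_lit 1271251), (nat_lit 1271251), (nat_lit 1271251), (nat_lit 1271251), [(nat_lit 1977501), (nat_lit 1271251), (nat_lit 1271251)], [(nat_lit 31), (nat_lit 65), (nat_lit 538), (nat_lit 300),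 (nat_lit 12)]⟩⟩) (.leaf ⟨(nat_lit 0), (nat_lit 888), (nat_lit 0), (nat_lit 112), (nat_lit 0), (nat_lit 5488), (nat_lit 6770), (nat_lit 1195), (nat_lit 1656546456152), (nat_lit 0), (nat_lit 0), [], Pd.none, Pd.none, (nat_lit 0), (nat_lit 1), (nat_lit 0), (nat_lit 0), (nat_lit 7), (nat_lit 0), [], [⟨(nat_lit 1), (nat_lit 68), (nat_lit 84), (nat_lit 100), (nat_lit 535755)⟩], [⟨(nat_lit 1), (nat_lit 63), (nat_lit 88), (nat_lit 100), (nat_lit 40391047)⟩], [⟨(nat_lit 2), (nat_lit 73), (nat_lit 83), (nat_lit 100), (nat_lit 528172963)⟩],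
 ⟨⟨[(nat_lit 60), (nat_lit 80), (nat_lit 100)], [(nat_lit 0), (nat_lit 304), (nat_lit 825)], [((nat_lit 0), (nat_lit 0), (nat_lit 0)), ((nat_lit 1000), (nat_lit 905), (nat_lit 238)), ((nat_lit 1000), (nat_lit 871), (nat_lit 407))], ((nat_lit 87), (nat_lit 100), (nat_lit 44))⟩, (nat_lit 4882596), (nat_lit 280), (nat_lit 280), (nat_lit 0), (nat_lit 575590), [(nat_lit 3282000004), (nat_lit 4688000003), (nat_lit 6250000000)], [], [(nat_lit 22128233797), (nat_lit 23006335357), (nat_lit 25014971177), (nat_lit 25655076782), (nat_lit 29498774337), (nat_lit 30499316364), (nat_lit 31686101643), (nat_lit 32409323710)], (nat_lit 1271251), (nat_lit 1271251), (nat_lit 780000), (nat_lit 2090001), (nat_lit 1271251), (nat_lit 1271251), [(nat_lit 780000), (nat_lit 1100000), (nat_lit 1442501)], [(nat_lit 9), (nat_lit 50), (nat_lit 289), (nat_lit 75), (nat_lit 10)]⟩,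
 ⟨⟨[(nat_lit 60), (nat_lit 100), (nat_lit 120)], [(nat_lit 0), (nat_lit 0), (nat_lit 1164)], [((nat_lit 0), (nat_lit 0), (nat_lit 0)), ((nat_lit 0), (nat_lit 0), (nat_lit 0)), ((nat_lit 1000), (nat_lit 933), (nat_lit 572))], ((nat_lit 92), (nat_lit 100), (nat_lit 44))⟩, (nat_lit 2167378), (nat_lit 122), (nat_lit 122), (nat_lit 0), (nat_lit 0), [(nat_lit 3282000000), (nat_lit 6250000000), (nat_lit 7968000000)], [], [(nat_lit 23158832123), (nat_lit 25557442468), (nat_lit 26541598783), (nat_lit 28222724428), (nat_lit 31566568360), (nat_lit 33234818640), (nat_lit 33031441690), (nat_lit 34492898080)], (nat_lit 0), (nat_lit 0), (nat_lit 0), (nat_lit 0), (nat_lit 0), (nat_lit 0), [], [(nat_lit 10), (nat_lit 54), (nat_lit 289), (nat_lit 75), (nat_lit 8)]⟩,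
 ⟨⟨[(nat_lit 140), (nat_lit 160), (nat_lit 180)], [(nat_lit 0), (nat_lit 0), (nat_lit 799)], [((nat_lit 0), (nat_lit 0), (nat_lit 0)), ((nat_lit 0), (nat_lit 0), (nat_lit 0)), ((nat_lit 728), (nat_lit 1000), (nat_lit 454))], ((nat_lit 100), (nat_lit 71), (nat_lit 48))⟩, (nat_lit 98403), (nat_lit 300), (nat_lit 1637), (nat_lit 8310401), (nat_lit 3044374), [(nat_lit 1102304000), (nat_lit 1329664000), (nat_lit 1574496000)], [], [(nat_lit 6001800747), (nat_lit 5617513153), (nat_lit 5597164618), (nat_lit 5208681957), (nat_lit 5694969176), (nat_lit 5306569720), (nat_lit 5548683673), (nat_lit 5172231337)], (nat_lit 780000), (nat_lit 1598751), (nat_lit 1271251), (nat_lit 1271251), (nat_lit 1271251), (nat_lit 1271251), [(nat_lit 1977501), (nat_lit 1271251), (nat_lit 1271251)], [(nat_lit 31), (nat_lit 65), (nat_lit 538), (nat_lit 300), (nat_lit 12)]⟩⟩))) (.leaf ⟨(nat_lit 0), (nat_lit 102), (nat_lit 0), (nat_lit 898), (nat_lit 0), (nat_lit 5975), (nat_lit 7790),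 (nat_lit 12116), (nat_lit 13059), (nat_lit 0), (nat_lit 0), [], Pd.none, Pd.none, (nat_lit 0), (nat_lit 1), (nat_lit 0), (nat_lit 0), (nat_lit 6), (nat_lit 0), [], [], [], [],
 ⟨⟨[(nat_lit 60), (nat_lit 80), (nat_lit 100)], [(nat_lit 0), (nat_lit 304), (nat_lit 825)], [((nat_lit 0), (nat_lit 0), (nat_lit 0)), ((nat_lit 1000), (nat_lit 905), (nat_lit 238)), ((nat_lit 1000), (nat_lit 871), (nat_lit 407))], ((nat_lit 87), (nat_lit 100), (nat_lit 44))⟩, (nat_lit 8379903), (nat_lit 171), (nat_lit 171), (nat_lit 0), (nat_lit 256970), [(nat_lit 3282000002), (nat_lit 4855456440), (nat_lit 6250000000)], [], [(nat_lit 18392861656), (nat_lit 19651175100), (nat_lit 23295953913), (nat_lit 24550793450), (nat_lit 30150498557), (nat_lit 31187184019), (nat_lit 32201491491), (nat_lit 32942245375)], (nat_lit 1271251), (nat_lit 1271251), (nat_lit 780000), (nat_lit 2090001), (nat_lit 1271251), (nat_lit 1271251), [(nat_lit 780000), (nat_lit 1100000), (nat_lit 1442501)],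 [(nat_lit 9), (nat_lit 50), (nat_lit 289), (nat_lit 75), (nat_lit 10)]⟩,
 ⟨⟨[(nat_lit 80), (nat_lit 120), (nat_lit 140)], [(nat_lit 0), (nat_lit 0), (nat_lit 1164)], [((nat_lit 0), (nat_lit 0), (nat_lit 0)), ((nat_lit 0), (nat_lit 0), (nat_lit 0)), ((nat_lit 941), (nat_lit 1000), (nat_lit 576))], ((nat_lit 100), (nat_lit 99), (nat_lit 44))⟩, (nat_lit 3515766), (nat_lit 240), (nat_lit 240), (nat_lit 0), (nat_lit 278570), [(nat_lit 4688000000), (nat_lit 7968000000), (nat_lit 9842000000)], [], [(nat_lit 39967000370), (nat_lit 23608062690), (nat_lit 36367672470), (nat_lit 27494074420), (nat_lit 49125573120), (nat_lit 35603698600), (nat_lit 67494952180), (nat_lit 54160684540)], (nat_lit 1271251), (nat_lit 1271251), (nat_lit 780000), (nat_lit 2090001), (nat_lit 780000), (nat_lit 3072501), [(nat_lit 1100000), (nat_lit 1785001), (nat_lit 1271251)], [(nat_lit 17), (nat_lit 58), (nat_lit 483), (nat_lit 250), (nat_lit 14)]⟩,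
 ⟨⟨[(nat_lit 140), (nat_lit 160), (nat_lit 180)], [(nat_lit 0), (nat_lit 0), (nat_lit 799)], [((nat_lit 0), (nat_lit 0), (nat_lit 0)), ((nat_lit 0), (nat_lit 0), (nat_lit 0)), ((nat_lit 728), (nat_lit 1000), (nat_lit 454))], ((nat_lit 100), (nat_lit 71), (nat_lit 48))⟩, (nat_lit 1116386), (nat_lit 300), (nat_lit 643), (nat_lit 66631600), (nat_lit 794798), [(nat_lit 8838116000), (nat_lit 10661056000), (nat_lit 12624084000)], [], [(nat_lit 40376405052), (nat_lit 37399235979), (nat_lit 43138517169), (nat_lit 40044658579), (nat_lit 39641427992), (nat_lit 46668232468), (nat_lit 45176670241), (nat_lit 42292488961)], (nat_lit 780000), (nat_lit 1598751), (nat_lit 1271251), (nat_lit 1271251), (nat_lit 780000), (nat_lit 3072501), [(nat_lit 1977501), (nat_lit 1271251), (nat_lit 1271251)], [(nat_lit 31), (nat_lit 65), (nat_lit 538), (nat_lit 300), (nat_lit 12)]⟩⟩)))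
noncomputable def c4_44 : Tr Lf :=
 (.spl (nat_lit 2) (nat_lit 180) (.trX (nat_lit 4) (nat_lit 0) (nat_lit 2) (nat_lit 87) (nat_lit 59) (nat_lit 100) (nat_lit 370) (.spl (nat_lit 4) (nat_lit 240) (.spl (nat_lit 1) (nat_lit 280) (.leaf ⟨(nat_lit 0), (nat_lit 874), (nat_lit 0), (nat_lit 126), (nat_lit 0), (nat_lit 5285), (nat_lit 7805), (nat_lit 1111), (nat_lit 0), (nat_lit 0), (nat_lit 0), [], Pd.none, Pd.none, (nat_lit 0), (nat_lit 1), (nat_lit 0), (nat_lit 0), (nat_lit 3), (nat_lit 0), [], [], [⟨(nat_lit 1), (nat_lit 55), (nat_lit 99), (nat_lit 100), (nat_lit 63833439)⟩], [],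
 ⟨⟨[(nat_lit 60), (nat_lit 80), (nat_lit 100)], [(nat_lit 0), (nat_lit 304), (nat_lit 825)], [((nat_lit 0), (nat_lit 0), (nat_lit 0)), ((nat_lit 1000), (nat_lit 905), (nat_lit 238)), ((nat_lit 1000), (nat_lit 871), (nat_lit 407))], ((nat_lit 87), (nat_lit 100), (nat_lit 44))⟩, (nat_lit 5552605), (nat_lit 105), (nat_lit 105), (nat_lit 0), (nat_lit 0), [(nat_lit 3282000001), (nat_lit 4717942626), (nat_lit 6250000000)], [], [(nat_lit 21266913004), (nat_lit 22391884182), (nat_lit 30069130953), (nat_lit 31009431920), (nat_lit 23395817770), (nat_lit 24342530772), (nat_lit 30810966355), (nat_lit 31574800060)], (nat_lit 0), (nat_lit 0), (nat_lit 0), (nat_lit 0), (nat_lit 0), (nat_lit 0), [], [(nat_lit 9), (nat_lit 50), (nat_lit 272), (nat_lit 60), (nat_lit 9)]⟩,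
 ⟨⟨[(nat_lit 80), (nat_lit 120), (nat_lit 140)], [(nat_lit 0), (nat_lit 0), (nat_lit 1164)], [((nat_lit 0), (nat_lit 0), (nat_lit 0)), ((nat_lit 0), (nat_lit 0), (nat_lit 0)), ((nat_lit 941), (nat_lit 1000), (nat_lit 576))], ((nat_lit 100), (nat_lit 99), (nat_lit 44))⟩, (nat_lit 2321574), (nat_lit 427), (nat_lit 427), (nat_lit 0), (nat_lit 472665), [(nat_lit 4688000000), (nat_lit 7968000000), (nat_lit 9842000000)], [], [(nat_lit 37123949574), (nat_lit 38334672269), (nat_lit 42451702540), (nat_lit 43265613860), (nat_lit 37061894000), (nat_lit 37470411100), (nat_lit 39408972660), (nat_lit 40176410680)], (nat_lit 1271251), (nat_lit 1271251), (nat_lit 1271251), (nat_lit 1271251), (nat_lit 0), (nat_lit 2825001), [(nat_lit 1100000), (nat_lit 1785001), (nat_lit 1271251)], [(nat_lit 17), (nat_lit 58), (nat_lit 401), (nat_lit 175), (nat_lit 11)]⟩,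
 ⟨⟨[(nat_lit 140), (nat_lit 160), (nat_lit 180)], [(nat_lit 0), (nat_lit 0), (nat_lit 799)], [((nat_lit 0), (nat_lit 0), (nat_lit 0)), ((nat_lit 0), (nat_lit 0), (nat_lit 0)), ((nat_lit 728), (nat_lit 1000), (nat_lit 454))], ((nat_lit 100), (nat_lit 71), (nat_lit 48))⟩, (nat_lit 174526), (nat_lit 300), (nat_lit 1912), (nat_lit 9349200), (nat_lit 3186117), [(nat_lit 1240092000), (nat_lit 1495872000), (nat_lit 1771308000)], [], [(nat_lit 11691485287), (nat_lit 11479518959), (nat_lit 11279805118), (nat_lit 11069157441), (nat_lit 10355769425), (nat_lit 10147391348), (nat_lit 9949715084), (nat_lit 10730856879)], (nat_lit 780000), (nat_lit 1271251), (nat_lit 780000), (nat_lit 1762501), (nat_lit 0), (nat_lit 2825001), [(nat_lit 1977501), (nat_lit 1271251), (nat_lit 1271251)], [(nat_lit 31), (nat_lit 65), (nat_lit 581), (nat_lit 225), (nat_lit 14)]⟩⟩) (.trX (nat_lit 5) (nat_lit 1) (nat_lit 2) (nat_lit 92) (nat_lit 49) (nat_lit 100) (nat_lit 380) (.leaf ⟨(nat_lit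 0), (nat_lit 1000), (nat_lit 0), (nat_lit 0), (nat_lit 0), (nat_lit 5251), (nat_lit 6581), (nat_lit 0), (nat_lit 163027281064), (nat_lit 0), (nat_lit 0), [], Pd.none, Pd.none, (nat_lit 0), (nat_lit 1), (nat_lit 0), (nat_lit 0), (nat_lit 3), (nat_lit 0), [], [], [⟨(nat_lit 1), (nat_lit 72), (nat_lit 89), (nat_lit 100), (nat_lit 197948511)⟩], [],
 ⟨⟨[(nat_lit 60), (nat_lit 80), (nat_lit 100)], [(nat_lit 0), (nat_lit 304), (nat_lit 825)], [((nat_lit 0), (nat_lit 0), (nat_lit 0)), ((nat_lit 1000), (nat_lit 905), (nat_lit 238)), ((nat_lit 1000), (nat_lit 871), (nat_lit 407))], ((nat_lit 87), (nat_lit 100), (nat_lit 44))⟩, (nat_lit 5837050), (nat_lit 105), (nat_lit 105), (nat_lit 0), (nat_lit 0), [(nat_lit 3282000001), (nat_lit 4746466708), (nat_lit 6250000000)], [], [(nat_lit 21263624707), (nat_lit 22385149994), (nat_lit 30020484892), (nat_lit 30958496112), (nat_lit 23436740439), (nat_lit 24394859424), (nat_lit 30774644053), (nat_lit 31537022116)], (nat_lit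 0), (nat_lit 0), (nat_lit 0), (nat_lit 0), (nat_lit 0), (nat_lit 0), [], [(nat_lit 9), (nat_lit 50), (nat_lit 272), (nat_lit 60), (nat_lit 9)]⟩,
 ⟨⟨[(nat_lit 60), (nat_lit 100), (nat_lit 120)], [(nat_lit 0), (nat_lit 0), (nat_lit 1164)], [((nat_lit 0), (nat_lit 0), (nat_lit 0)), ((nat_lit 0), (nat_lit 0), (nat_lit 0)), ((nat_lit 1000), (nat_lit 933), (nat_lit 572))], ((nat_lit 92), (nat_lit 100), (nat_lit 44))⟩, (nat_lit 2121695), (nat_lit 413), (nat_lit 413), (nat_lit 0), (nat_lit 586980), [(nat_lit 3282000000), (nat_lit 6250000000), (nat_lit 7968000000)], [], [(nat_lit 33079634144), (nat_lit 34658596990), (nat_lit 39028422904), (nat_lit 40148081608), (nat_lit 34923031367), (nat_lit 35660962048), (nat_lit 37909122206), (nat_lit 38328191469)], (nat_lit 1271251), (nat_lit 1271251), (nat_lit 1271251), (nat_lit 1271251), (nat_lit 0), (nat_lit 2683751), [(nat_lit 780000), (nat_lit 1435001), (nat_lit 1271251)], [(nat_lit 10), (nat_lit 54), (nat_lit 317),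 (nat_lit 100), (nat_lit 10)]⟩,
 Rw.none⟩))) (.trZ (nat_lit 3) (nat_lit 4) (nat_lit 5) (nat_lit 100) (nat_lit 94) (nat_lit 59) (nat_lit 30) (.stt (nat_lit 2) (.spl (nat_lit 1) (nat_lit 280) (.leaf ⟨(nat_lit 0), (nat_lit 907), (nat_lit 0), (nat_lit 93), (nat_lit 0), (nat_lit 5591), (nat_lit 7339), (nat_lit 982), (nat_lit 0), (nat_lit 0), (nat_lit 0), [], Pd.none, Pd.none, (nat_lit 0), (nat_lit 1), (nat_lit 0), (nat_lit 0), (nat_lit 6), (nat_lit 0), [], [⟨(nat_lit 1), (nat_lit 77), (nat_lit 86), (nat_lit 100), (nat_lit 343363735)⟩], [⟨(nat_lit 1), (nat_lit 55), (nat_lit 99), (nat_lit 100), (nat_lit 134162769)⟩], [],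
 ⟨⟨[(nat_lit 60), (nat_lit 80), (nat_lit 100)], [(nat_lit 0), (nat_lit 304), (nat_lit 825)], [((nat_lit 0), (nat_lit 0), (nat_lit 0)), ((nat_lit 1000), (nat_lit 905), (nat_lit 238)), ((nat_lit 1000), (nat_lit 871), (nat_lit 407))], ((nat_lit 87), (nat_lit 100), (nat_lit 44))⟩, (nat_lit 0), (nat_lit 79), (nat_lit 79), (nat_lit 0), (nat_lit 0), [(nat_lit 3382248376), (nat_lit 4688000002), (nat_lit 6250000000)], [], [(nat_lit 24626850666), (nat_lit 25550677928), (nat_lit 31138424282), (nat_lit 31914801556), (nat_lit 30613613454), (nat_lit 31300175768), (nat_lit 36034794182), (nat_lit 36532923780)], (nat_lit 0), (nat_lit 0), (nat_lit 0), (nat_lit 0), (nat_lit 0), (nat_lit 0), [], [(nat_lit 9), (nat_lit 50), (nat_lit 203), (nat_lit 0), (nat_lit 6)]⟩,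
 ⟨⟨[(nat_lit 80), (nat_lit 120), (nat_lit 140)], [(nat_lit 0), (nat_lit 0), (nat_lit 1164)], [((nat_lit 0), (nat_lit 0), (nat_lit 0)), ((nat_lit 0), (nat_lit 0), (nat_lit 0)), ((nat_lit 941), (nat_lit 1000), (nat_lit 576))], ((nat_lit 100), (nat_lit 99), (nat_lit 44))⟩, (nat_lit 2328068), (nat_lit 202), (nat_lit 202), (nat_lit 0), (nat_lit 0), [(nat_lit 4688000000), (nat_lit 7968000000), (nat_lit 9842000000)], [], [(nat_lit 27445871267), (nat_lit 29884924193), (nat_lit 37081638096), (nat_lit 38567895921), (nat_lit 33966851218), (nat_lit 34962667673), (nat_lit 38661848552), (nat_lit 39502958664)], (nat_lit 0), (nat_lit 0), (nat_lit 0), (nat_lit 0), (nat_lit 0), (nat_lit 0), [], [(nat_lit 17), (nat_lit 58), (nat_lit 401), (nat_lit 175), (nat_lit 11)]⟩,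
 ⟨⟨[(nat_lit 140), (nat_lit 160), (nat_lit 180)], [(nat_lit 0), (nat_lit 0), (nat_lit 799)], [((nat_lit 0), (nat_lit 0), (nat_lit 0)), ((nat_lit 0), (nat_lit 0), (nat_lit 0)), ((nat_lit 728), (nat_lit 1000), (nat_lit 454))], ((nat_lit 100), (nat_lit 71), (nat_lit 48))⟩, (nat_lit 81710), (nat_lit 300), (nat_lit 1836), (nat_lit 6900600), (nat_lit 3186117), [(nat_lit 915306000), (nat_lit 1104096000), (nat_lit 1307394000)], [], [(nat_lit 6037810701), (nat_lit 5842135603), (nat_lit 5740232029), (nat_lit 5543510709), (nat_lit 5739296740), (nat_lit 6591130758), (nat_lit 4626588959), (nat_lit 4431916975)], (nat_lit 780000), (nat_lit 1271251), (nat_lit 1271251), (nat_lit 1271251), (nat_lit 169688), (nat_lit 2886876), [(nat_lit 1977501), (nat_lit 1271251), (nat_lit 1271251)], [(nat_lit 31), (nat_lit 65), (nat_lit 578), (nat_lit 250), (nat_lit 13)]⟩⟩) (.trX (nat_lit 5) (nat_lit 1) (nat_lit 2) (nat_lit 92) (nat_lit 49) (nat_lit 100) (nat_lit 380) (.leaf ⟨(nat_lit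 0), (nat_lit 1000), (nat_lit 0), (nat_lit 0), (nat_lit 6307), (nat_lit 5591), (nat_lit 6335), (nat_lit 0), (nat_lit 71047), (nat_lit 0), (nat_lit 0), [], Pd.none, Pd.none, (nat_lit 0), (nat_lit 1), (nat_lit 0), (nat_lit 0), (nat_lit 6), (nat_lit 0), [], [⟨(nat_lit 1), (nat_lit 59), (nat_lit 87), (nat_lit 100), (nat_lit 472598038)⟩], [⟨(nat_lit 1), (nat_lit 49), (nat_lit 92), (nat_lit 100), (nat_lit 217892427)⟩], [],
 ⟨⟨[(nat_lit 60), (nat_lit 80), (nat_lit 100)], [(nat_lit 0), (nat_lit 304), (nat_lit 825)], [((nat_lit 0), (nat_lit 0), (nat_lit 0)), ((nat_lit 1000), (nat_lit 905), (nat_lit 238)), ((nat_lit 1000), (nat_lit 871), (nat_lit 407))], ((nat_lit 87), (nat_lit 100), (nat_lit 44))⟩, (nat_lit 0), (nat_lit 79), (nat_lit 79), (nat_lit 0), (nat_lit 0), [(nat_lit 3428175858), (nat_lit 4688000011), (nat_lit 6250000000)], [], [(nat_lit 24672778157), (nat_lit 25596605419), (nat_lit 31138424291), (nat_lit 31914801556), (nat_lit 30613613463), (nat_lit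 31300175777), (nat_lit 36034794182), (nat_lit 36532923780)], (nat_lit 0), (nat_lit 0), (nat_lit 0), (nat_lit 0), (nat_lit 0), (nat_lit 0), [], [(nat_lit 9), (nat_lit 50), (nat_lit 203), (nat_lit 0), (nat_lit 6)]⟩,
 ⟨⟨[(nat_lit 60), (nat_lit 100), (nat_lit 120)], [(nat_lit 0), (nat_lit 0), (nat_lit 1164)], [((nat_lit 0), (nat_lit 0), (nat_lit 0)), ((nat_lit 0), (nat_lit 0), (nat_lit 0)), ((nat_lit 1000), (nat_lit 933), (nat_lit 572))], ((nat_lit 92), (nat_lit 100), (nat_lit 44))⟩, (nat_lit 1946730), (nat_lit 177), (nat_lit 177), (nat_lit 0), (nat_lit 0), [(nat_lit 3282000000), (nat_lit 6250000000), (nat_lit 7968000000)], [], [(nat_lit 26325104764), (nat_lit 28862388883), (nat_lit 35152782224), (nat_lit 36862861663), (nat_lit 32010117142), (nat_lit 33266640933), (nat_lit 37037108680), (nat_lit 37989258685)], (nat_lit 0), (nat_lit 0), (nat_lit 0), (nat_lit 0), (nat_lit 0), (nat_lit 0), [], [(nat_lit 10), (nat_lit 54), (nat_lit 317), (nat_lit 100), (nat_lit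 10)]⟩,
 Rw.none⟩))) (.spl (nat_lit 1) (nat_lit 280) (.leaf ⟨(nat_lit 0), (nat_lit 769), (nat_lit 0), (nat_lit 231), (nat_lit 0), (nat_lit 4705), (nat_lit 8250), (nat_lit 2188), (nat_lit 0), (nat_lit 0), (nat_lit 0), [], Pd.none, Pd.none, (nat_lit 0), (nat_lit 1), (nat_lit 0), (nat_lit 0), (nat_lit 6), (nat_lit 0), [], [⟨(nat_lit 1), (nat_lit 77), (nat_lit 86), (nat_lit 100), (nat_lit 277784903)⟩], [⟨(nat_lit 1), (nat_lit 55), (nat_lit 99), (nat_lit 100), (nat_lit 13624052)⟩], [],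
 ⟨⟨[(nat_lit 60), (nat_lit 80), (nat_lit 100)], [(nat_lit 0), (nat_lit 304), (nat_lit 825)], [((nat_lit 0), (nat_lit 0), (nat_lit 0)), ((nat_lit 1000), (nat_lit 905), (nat_lit 238)), ((nat_lit 1000), (nat_lit 871), (nat_lit 407))], ((nat_lit 87), (nat_lit 100), (nat_lit 44))⟩, (nat_lit 5507526), (nat_lit 79), (nat_lit 79), (nat_lit 0), (nat_lit 0), [(nat_lit 3282000001), (nat_lit 4712522921), (nat_lit 6250000000)], [], [(nat_lit 24403492831), (nat_lit 25266064268), (nat_lit 30302455557), (nat_lit 30931181222), (nat_lit 29917120700), (nat_lit 30553067704), (nat_lit 34848883847), (nat_lit 35343624273)], (nat_lit 0), (nat_lit 0), (nat_lit 0), (nat_lit 0), (nat_lit 0), (nat_lit 0), [], [(nat_lit 9), (nat_lit 50), (nat_lit 203), (nat_lit 0), (nat_lit 6)]⟩,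
 ⟨⟨[(nat_lit 80), (nat_lit 120), (nat_lit 140)], [(nat_lit 0), (nat_lit 0), (nat_lit 1164)], [((nat_lit 0), (nat_lit 0), (nat_lit 0)), ((nat_lit 0), (nat_lit 0), (nat_lit 0)), ((nat_lit 941), (nat_lit 1000), (nat_lit 576))], ((nat_lit 100), (nat_lit 99), (nat_lit 44))⟩, (nat_lit 2717086), (nat_lit 388), (nat_lit 388), (nat_lit 0), (nat_lit 472665), [(nat_lit 4688000000), (nat_lit 7968000000), (nat_lit 9842000000)], [], [(nat_lit 34250285563), (nat_lit 35612516969), (nat_lit 39984609500), (nat_lit 40778433188), (nat_lit 35732412000), (nat_lit 36122159000), (nat_lit 39988782000), (nat_lit 40819514000)], (nat_lit 1271251), (nat_lit 1271251), (nat_lit 1271251), (nat_lit 1271251), (nat_lit 169688), (nat_lit 2886876), [(nat_lit 1100000), (nat_lit 1785001), (nat_lit 1271251)], [(nat_lit 17), (nat_lit 58), (nat_lit 401), (nat_lit 175), (nat_lit 11)]⟩,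
 ⟨⟨[(nat_lit 140), (nat_lit 160), (nat_lit 180)], [(nat_lit 0), (nat_lit 0), (nat_lit 799)], [((nat_lit 0), (nat_lit 0), (nat_lit 0)), ((nat_lit 0), (nat_lit 0), (nat_lit 0)), ((nat_lit 728), (nat_lit 1000), (nat_lit 454))], ((nat_lit 100), (nat_lit 71), (nat_lit 48))⟩, (nat_lit 269719), (nat_lit 300), (nat_lit 1239), (nat_lit 17140200), (nat_lit 1937078), [(nat_lit 2273502000), (nat_lit 2742432000), (nat_lit 3247398000)], [], [(nat_lit 16404296826), (nat_lit 15968942721), (nat_lit 15933243668), (nat_lit 15484541727), (nat_lit 14057063574), (nat_lit 16001148612), (nat_lit 13492370265), (nat_lit 13040929607)], (nat_lit 780000), (nat_lit 1271251), (nat_lit 1271251), (nat_lit 1271251), (nat_lit 169688), (nat_lit 2886876), [(nat_lit 1977501), (nat_lit 1271251), (nat_lit 1271251)], [(nat_lit 31), (nat_lit 65), (nat_lit 483), (nat_lit 250), (nat_lit 11)]⟩⟩) (.trX (nat_lit 5) (nat_lit 1) (nat_lit 2) (nat_lit 92) (nat_lit 49) (nat_lit 100) (nat_lit 380) (.leaf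 ⟨(nat_lit 0), (nat_lit 865), (nat_lit 0), (nat_lit 135), (nat_lit 0), (nat_lit 4767), (nat_lit 6916), (nat_lit 1425), (nat_lit 435473091884), (nat_lit 0), (nat_lit 0), [], Pd.none, Pd.none, (nat_lit 0), (nat_lit 1), (nat_lit 0), (nat_lit 0), (nat_lit 6), (nat_lit 0), [], [⟨(nat_lit 1), (nat_lit 77), (nat_lit 86), (nat_lit 100), (nat_lit 260112475)⟩], [⟨(nat_lit 1), (nat_lit 72), (nat_lit 89), (nat_lit 100), (nat_lit 107283306)⟩], [],
 ⟨⟨[(nat_lit 60), (nat_lit 80), (nat_lit 100)], [(nat_lit 0), (nat_lit 304), (nat_lit 825)], [((nat_lit 0), (nat_lit 0), (nat_lit 0)), ((nat_lit 1000), (nat_lit 905), (nat_lit 238)), ((nat_lit 1000), (nat_lit 871), (nat_lit 407))], ((nat_lit 87), (nat_lit 100), (nat_lit 44))⟩, (nat_lit 5067347), (nat_lit 79), (nat_lit 79), (nat_lit 0), (nat_lit 0), [(nat_lit 3282000005), (nat_lit 4727379270), (nat_lit 6250000000)], [], [(nat_lit 24445332175), (nat_lit 25312190137), (nat_lit 30257585401), (nat_lit 30999241972), (nat_lit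 29845212685), (nat_lit 30484133909), (nat_lit 34931870800), (nat_lit 35426848392)], (nat_lit 0), (nat_lit 0), (nat_lit 0), (nat_lit 0), (nat_lit 0), (nat_lit 0), [], [(nat_lit 9), (nat_lit 50), (nat_lit 203), (nat_lit 0), (nat_lit 6)]⟩,
 ⟨⟨[(nat_lit 60), (nat_lit 100), (nat_lit 120)], [(nat_lit 0), (nat_lit 0), (nat_lit 1164)], [((nat_lit 0), (nat_lit 0), (nat_lit 0)), ((nat_lit 0), (nat_lit 0), (nat_lit 0)), ((nat_lit 1000), (nat_lit 933), (nat_lit 572))], ((nat_lit 92), (nat_lit 100), (nat_lit 44))⟩, (nat_lit 2759915), (nat_lit 392), (nat_lit 392), (nat_lit 0), (nat_lit 586980), [(nat_lit 3282000000), (nat_lit 6250000000), (nat_lit 7968000000)], [], [(nat_lit 30981851067), (nat_lit 32711100526), (nat_lit 37149660629), (nat_lit 38256911610), (nat_lit 33982552953), (nat_lit 34717236228), (nat_lit 37833954828), (nat_lit 38786861876)], (nat_lit 1271251), (nat_lit 1271251), (nat_lit 1271251), (nat_lit 1271251), (nat_lit 169688), (nat_lit 2740000), [(nat_lit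 780000), (nat_lit 1435001), (nat_lit 1271251)], [(nat_lit 10), (nat_lit 54), (nat_lit 317), (nat_lit 100), (nat_lit 10)]⟩,
 ⟨⟨[(nat_lit 140), (nat_lit 160), (nat_lit 180)], [(nat_lit 0), (nat_lit 0), (nat_lit 799)], [((nat_lit 0), (nat_lit 0), (nat_lit 0)), ((nat_lit 0), (nat_lit 0), (nat_lit 0)), ((nat_lit 728), (nat_lit 1000), (nat_lit 454))], ((nat_lit 100), (nat_lit 71), (nat_lit 48))⟩, (nat_lit 353987), (nat_lit 300), (nat_lit 1763), (nat_lit 10017000), (nat_lit 3044374), [(nat_lit 1328670000), (nat_lit 1602720000), (nat_lit 1897830000)], [], [(nat_lit 8680217970), (nat_lit 8394947248), (nat_lit 8266592308), (nat_lit 7972842449), (nat_lit 8039343570), (nat_lit 9264075885), (nat_lit 6705017082), (nat_lit 6410883000)], (nat_lit 780000), (nat_lit 1271251), (nat_lit 1271251), (nat_lit 1271251), (nat_lit 169688), (nat_lit 2740000), [(nat_lit 1977501), (nat_lit 1271251), (nat_lit 1271251)], [(nat_lit 31), (nat_lit 65), (nat_lit 557), (nat_lit 250),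 (nat_lit 13)]⟩⟩))))))) (.spl (nat_lit 1) (nat_lit 280) (.leaf ⟨(nat_lit 0), (nat_lit 574), (nat_lit 0), (nat_lit 426), (nat_lit 0), (nat_lit 4638), (nat_lit 8102), (nat_lit 2436), (nat_lit 0), (nat_lit 0), (nat_lit 0), [], Pd.none, Pd.none, (nat_lit 0), (nat_lit 1), (nat_lit 0), (nat_lit 0), (nat_lit 4), (nat_lit 0), [], [], [], [⟨(nat_lit 0), (nat_lit 100), (nat_lit 74), (nat_lit 90), (nat_lit 36598745)⟩],
 ⟨⟨[(nat_lit 60), (nat_lit 80), (nat_lit 100)], [(nat_lit 0), (nat_lit 304), (nat_lit 825)], [((nat_lit 0), (nat_lit 0), (nat_lit 0)), ((nat_lit 1000), (nat_lit 905), (nat_lit 238)), ((nat_lit 1000), (nat_lit 871), (nat_lit 407))], ((nat_lit 87), (nat_lit 100), (nat_lit 44))⟩, (nat_lit 5291782), (nat_lit 105), (nat_lit 105), (nat_lit 0), (nat_lit 0), [(nat_lit 3282000010), (nat_lit 4722314380), (nat_lit 6250000000)], [], [(nat_lit 22390701702), (nat_lit 23450099592), (nat_lit 29274151998), (nat_lit 30040153456), (nat_lit 30966551712), (nat_lit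 31556933057), (nat_lit 35610053626), (nat_lit 36065508305)], (nat_lit 0), (nat_lit 0), (nat_lit 0), (nat_lit 0), (nat_lit 0), (nat_lit 0), [], [(nat_lit 9), (nat_lit 50), (nat_lit 317), (nat_lit 100), (nat_lit 11)]⟩,
 ⟨⟨[(nat_lit 80), (nat_lit 120), (nat_lit 140)], [(nat_lit 0), (nat_lit 0), (nat_lit 1164)], [((nat_lit 0), (nat_lit 0), (nat_lit 0)), ((nat_lit 0), (nat_lit 0), (nat_lit 0)), ((nat_lit 941), (nat_lit 1000), (nat_lit 576))], ((nat_lit 100), (nat_lit 99), (nat_lit 44))⟩, (nat_lit 2958005), (nat_lit 370), (nat_lit 370), (nat_lit 0), (nat_lit 357098), [(nat_lit 4688000000), (nat_lit 7968000000), (nat_lit 9842000000)], [], [(nat_lit 32376316744), (nat_lit 34189651260), (nat_lit 40336412656), (nat_lit 41569293256), (nat_lit 34784769704), (nat_lit 35475209640), (nat_lit 39773209936), (nat_lit 40605627952)], (nat_lit 1271251), (nat_lit 1271251), (nat_lit 1271251), (nat_lit 1271251), (nat_lit 0), (nat_lit 2825001), [(nat_lit 1100000), (nat_lit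 1785001), (nat_lit 1271251)], [(nat_lit 17), (nat_lit 58), (nat_lit 401), (nat_lit 175), (nat_lit 11)]⟩,
 ⟨⟨[(nat_lit 120), (nat_lit 140), (nat_lit 160)], [(nat_lit 0), (nat_lit 266), (nat_lit 862)], [((nat_lit 0), (nat_lit 0), (nat_lit 0)), ((nat_lit 960), (nat_lit 1000), (nat_lit 200)), ((nat_lit 874), (nat_lit 1000), (nat_lit 406))], ((nat_lit 100), (nat_lit 86), (nat_lit 44))⟩, (nat_lit 933677), (nat_lit 300), (nat_lit 843), (nat_lit 28286400), (nat_lit 1102170), [(nat_lit 3394368000), (nat_lit 4192692000), (nat_lit 5057472000)], [], [(nat_lit 30789621361), (nat_lit 30718712295), (nat_lit 30735275192), (nat_lit 30590491180), (nat_lit 29429358968), (nat_lit 29281703984), (nat_lit 34478218898), (nat_lit 32461224905)], (nat_lit 1271251), (nat_lit 1271251), (nat_lit 780000), (nat_lit 2990626), (nat_lit 0), (nat_lit 2825001), [(nat_lit 1695001), (nat_lit 1271251), (nat_lit 1271251)], [(nat_lit 27), (nat_lit 62), (nat_lit 538), (nat_lit 300), (nat_lit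 14)]⟩⟩) (.leaf ⟨(nat_lit 0), (nat_lit 698), (nat_lit 0), (nat_lit 302), (nat_lit 0), (nat_lit 4642), (nat_lit 6793), (nat_lit 1720), (nat_lit 505654794108), (nat_lit 0), (nat_lit 0), [], Pd.none, Pd.none, (nat_lit 0), (nat_lit 1), (nat_lit 0), (nat_lit 0), (nat_lit 4), (nat_lit 0), [], [⟨(nat_lit 1), (nat_lit 55), (nat_lit 84), (nat_lit 100), (nat_lit 120277073)⟩], [], [],
 ⟨⟨[(nat_lit 60), (nat_lit 80), (nat_lit 100)], [(nat_lit 0), (nat_lit 304), (nat_lit 825)], [((nat_lit 0), (nat_lit 0), (nat_lit 0)), ((nat_lit 1000), (nat_lit 905), (nat_lit 238)), ((nat_lit 1000), (nat_lit 871), (nat_lit 407))], ((nat_lit 87), (nat_lit 100), (nat_lit 44))⟩, (nat_lit 5485503), (nat_lit 105), (nat_lit 105), (nat_lit 0), (nat_lit 0), [(nat_lit 3282000023), (nat_lit 4730481787), (nat_lit 6250000000)], [], [(nat_lit 22333547479), (nat_lit 23393350768), (nat_lit 29271124748), (nat_lit 30046145904), (nat_lit 30962280555), (nat_lit 31552760450), (nat_lit 35615676905),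 (nat_lit 36071121495)], (nat_lit 0), (nat_lit 0), (nat_lit 0), (nat_lit 0), (nat_lit 0), (nat_lit 0), [], [(nat_lit 9), (nat_lit 50), (nat_lit 317), (nat_lit 100), (nat_lit 11)]⟩,
 ⟨⟨[(nat_lit 60), (nat_lit 100), (nat_lit 120)], [(nat_lit 0), (nat_lit 0), (nat_lit 1164)], [((nat_lit 0), (nat_lit 0), (nat_lit 0)), ((nat_lit 0), (nat_lit 0), (nat_lit 0)), ((nat_lit 1000), (nat_lit 933), (nat_lit 572))], ((nat_lit 92), (nat_lit 100), (nat_lit 44))⟩, (nat_lit 1976196), (nat_lit 369), (nat_lit 369), (nat_lit 0), (nat_lit 456595), [(nat_lit 3282000000), (nat_lit 6250000000), (nat_lit 7968000000)], [], [(nat_lit 32826225428), (nat_lit 34424176266), (nat_lit 38701133912), (nat_lit 40278900648), (nat_lit 35073839073), (nat_lit 35739632426), (nat_lit 38713892568), (nat_lit 39561222712)], (nat_lit 1271251), (nat_lit 1271251), (nat_lit 1271251), (nat_lit 1271251), (nat_lit 0), (nat_lit 2825001), [(nat_lit 780000), (nat_lit 1435001), (nat_lit 1271251)], [(nat_lit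 10), (nat_lit 54), (nat_lit 317), (nat_lit 100), (nat_lit 10)]⟩,
 ⟨⟨[(nat_lit 120), (nat_lit 140), (nat_lit 160)], [(nat_lit 0), (nat_lit 266), (nat_lit 862)], [((nat_lit 0), (nat_lit 0), (nat_lit 0)), ((nat_lit 960), (nat_lit 1000), (nat_lit 200)), ((nat_lit 874), (nat_lit 1000), (nat_lit 406))], ((nat_lit 100), (nat_lit 86), (nat_lit 44))⟩, (nat_lit 702078), (nat_lit 300), (nat_lit 1228), (nat_lit 20052800), (nat_lit 1950149), [(nat_lit 2406336000), (nat_lit 2972284000), (nat_lit 3585344000)], [], [(nat_lit 26549615386), (nat_lit 26434787048), (nat_lit 25993300062), (nat_lit 25855397914), (nat_lit 25151348698), (nat_lit 25013684189), (nat_lit 24413984365), (nat_lit 24261965162)], (nat_lit 1271251), (nat_lit 1271251), (nat_lit 780000), (nat_lit 2990626), (nat_lit 0), (nat_lit 2825001), [(nat_lit 1695001), (nat_lit 1271251), (nat_lit 1271251)], [(nat_lit 27), (nat_lit 62), (nat_lit 538), (nat_lit 300), (nat_lit 14)]⟩⟩)))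
noncomputable def c4_45 : Tr Lf :=
 (.spl (nat_lit 5) (nat_lit 200) (.leaf ⟨(nat_lit 0), (nat_lit 868), (nat_lit 0), (nat_lit 132), (nat_lit 0), (nat_lit 5299), (nat_lit 10486), (nat_lit 1046), (nat_lit 988131315737), (nat_lit 0), (nat_lit 0), [], Pd.none, Pd.none, (nat_lit 0), (nat_lit 1), (nat_lit 0), (nat_lit 0), (nat_lit 3), (nat_lit 0), [], [], [], [⟨(nat_lit 0), (nat_lit 100), (nat_lit 74), (nat_lit 90), (nat_lit 335381596)⟩],
 ⟨⟨[(nat_lit 60), (nat_lit 80), (nat_lit 100)], [(nat_lit 0), (nat_lit 304), (nat_lit 825)], [((nat_lit 0), (nat_lit 0), (nat_lit 0)), ((nat_lit 1000), (nat_lit 905), (nat_lit 238)), ((nat_lit 1000), (nat_lit 871), (nat_lit 407))], ((nat_lit 87), (nat_lit 100), (nat_lit 44))⟩, (nat_lit 3289002), (nat_lit 287), (nat_lit 287), (nat_lit 0), (nat_lit 576199), [(nat_lit 3282000001), (nat_lit 4688000001), (nat_lit 6250000000)], [], [(nat_lit 26160978296), (nat_lit 26891854728), (nat_lit 31015624229), (nat_lit 31520563533), (nat_lit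 31792673174), (nat_lit 32202501955), (nat_lit 36539300481), (nat_lit 36993087953)], (nat_lit 1271251), (nat_lit 1271251), (nat_lit 1271251), (nat_lit 1271251), (nat_lit 780000), (nat_lit 2990626), [(nat_lit 780000), (nat_lit 1100000), (nat_lit 1442501)], [(nat_lit 9), (nat_lit 50), (nat_lit 317), (nat_lit 100), (nat_lit 11)]⟩,
 ⟨⟨[(nat_lit 80), (nat_lit 120), (nat_lit 140)], [(nat_lit 0), (nat_lit 0), (nat_lit 1164)], [((nat_lit 0), (nat_lit 0), (nat_lit 0)), ((nat_lit 0), (nat_lit 0), (nat_lit 0)), ((nat_lit 941), (nat_lit 1000), (nat_lit 576))], ((nat_lit 100), (nat_lit 99), (nat_lit 44))⟩, (nat_lit 2785367), (nat_lit 342), (nat_lit 342), (nat_lit 0), (nat_lit 278570), [(nat_lit 4688000000), (nat_lit 7968000000), (nat_lit 9842000000)], [], [(nat_lit 30351045264), (nat_lit 35367121924), (nat_lit 45069809192), (nat_lit 50610939696), (nat_lit 22743399526), (nat_lit 26025549560), (nat_lit 32818859052), (nat_lit 37223405120)], (nat_lit 1271251), (nat_lit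 1271251), (nat_lit 1271251), (nat_lit 1271251), (nat_lit 0), (nat_lit 1412501), [(nat_lit 1100000), (nat_lit 1785001), (nat_lit 1271251)], [(nat_lit 17), (nat_lit 58), (nat_lit 373), (nat_lit 150), (nat_lit 10)]⟩,
 ⟨⟨[(nat_lit 140), (nat_lit 160), (nat_lit 180)], [(nat_lit 0), (nat_lit 0), (nat_lit 799)], [((nat_lit 0), (nat_lit 0), (nat_lit 0)), ((nat_lit 0), (nat_lit 0), (nat_lit 0)), ((nat_lit 728), (nat_lit 1000), (nat_lit 454))], ((nat_lit 100), (nat_lit 71), (nat_lit 48))⟩, (nat_lit 115975), (nat_lit 300), (nat_lit 1845), (nat_lit 9794400), (nat_lit 3044374), [(nat_lit 1299144000), (nat_lit 1567104000), (nat_lit 1855656000)], [], [(nat_lit 13548541928), (nat_lit 13236847472), (nat_lit 12851962654), (nat_lit 12537668661), (nat_lit 12773713708), (nat_lit 12468607198), (nat_lit 12084766681), (nat_lit 11777544677)], (nat_lit 780000), (nat_lit 1598751), (nat_lit 780000), (nat_lit 2990626), (nat_lit 0), (nat_lit 1412501), [(nat_lit 1977501), (nat_lit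 1271251), (nat_lit 1271251)], [(nat_lit 31), (nat_lit 65), (nat_lit 563), (nat_lit 225), (nat_lit 13)]⟩⟩) (.leaf ⟨(nat_lit 0), (nat_lit 838), (nat_lit 0), (nat_lit 162), (nat_lit 0), (nat_lit 5215), (nat_lit 7483), (nat_lit 1702), (nat_lit 48368), (nat_lit 0), (nat_lit 0), [], Pd.none, Pd.none, (nat_lit 0), (nat_lit 1), (nat_lit 0), (nat_lit 0), (nat_lit 5), (nat_lit 0), [], [⟨(nat_lit 1), (nat_lit 68), (nat_lit 84), (nat_lit 100), (nat_lit 239031678)⟩], [⟨(nat_lit 1), (nat_lit 54), (nat_lit 93), (nat_lit 100), (nat_lit 277990896)⟩], [],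
 ⟨⟨[(nat_lit 60), (nat_lit 80), (nat_lit 100)], [(nat_lit 0), (nat_lit 304), (nat_lit 825)], [((nat_lit 0), (nat_lit 0), (nat_lit 0)), ((nat_lit 1000), (nat_lit 905), (nat_lit 238)), ((nat_lit 1000), (nat_lit 871), (nat_lit 407))], ((nat_lit 87), (nat_lit 100), (nat_lit 44))⟩, (nat_lit 4022285), (nat_lit 287), (nat_lit 287), (nat_lit 0), (nat_lit 576199), [(nat_lit 3282000045), (nat_lit 4688000014), (nat_lit 6250000000)], [], [(nat_lit 25394367020), (nat_lit 26121275103), (nat_lit 30485548100), (nat_lit 31027381677), (nat_lit 31398872654), (nat_lit 32110581175), (nat_lit 36421211622), (nat_lit 36875210963)], (nat_lit 1271251), (nat_lit 1271251), (nat_lit 1271251), (nat_lit 1271251), (nat_lit 780000), (nat_lit 2990626), [(nat_lit 780000), (nat_lit 1100000), (nat_lit 1442501)], [(nat_lit 9), (nat_lit 50), (nat_lit 317), (nat_lit 100), (nat_lit 11)]⟩,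
 ⟨⟨[(nat_lit 80), (nat_lit 120), (nat_lit 140)], [(nat_lit 0), (nat_lit 0), (nat_lit 1164)], [((nat_lit 0), (nat_lit 0), (nat_lit 0)), ((nat_lit 0), (nat_lit 0), (nat_lit 0)), ((nat_lit 941), (nat_lit 1000), (nat_lit 576))], ((nat_lit 100), (nat_lit 99), (nat_lit 44))⟩, (nat_lit 2377932), (nat_lit 214), (nat_lit 214), (nat_lit 0), (nat_lit 278570), [(nat_lit 4688000000), (nat_lit 7968000000), (nat_lit 9842000000)], [], [(nat_lit 24731019029), (nat_lit 28596365994), (nat_lit 32488313820), (nat_lit 34897105936), (nat_lit 33850609124), (nat_lit 35964049838), (nat_lit 38871594344), (nat_lit 40550533672)], (nat_lit 1271251), (nat_lit 1271251), (nat_lit 1271251), (nat_lit 1271251), (nat_lit 1271251), (nat_lit 1271251), [(nat_lit 1100000), (nat_lit 1785001), (nat_lit 1271251)], [(nat_lit 17), (nat_lit 58), (nat_lit 428), (nat_lit 200), (nat_lit 11)]⟩,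
 ⟨⟨[(nat_lit 140), (nat_lit 160), (nat_lit 180)], [(nat_lit 0), (nat_lit 0), (nat_lit 799)], [((nat_lit 0), (nat_lit 0), (nat_lit 0)), ((nat_lit 0), (nat_lit 0), (nat_lit 0)), ((nat_lit 728), (nat_lit 1000), (nat_lit 454))], ((nat_lit 100), (nat_lit 71), (nat_lit 48))⟩, (nat_lit 142333), (nat_lit 300), (nat_lit 1728), (nat_lit 12020400), (nat_lit 3044374), [(nat_lit 1594404000), (nat_lit 1923264000), (nat_lit 2277396000)], [], [(nat_lit 10058844542), (nat_lit 9517808377), (nat_lit 8831298311), (nat_lit 9349108633), (nat_lit 9253436286), (nat_lit 8705726905), (nat_lit 8100669497), (nat_lit 7530809885)], (nat_lit 780000), (nat_lit 1598751), (nat_lit 780000), (nat_lit 2990626), (nat_lit 1271251), (nat_lit 1271251), [(nat_lit 1977501), (nat_lit 1271251), (nat_lit 1271251)], [(nat_lit 31), (nat_lit 65), (nat_lit 559), (nat_lit 300), (nat_lit 13)]⟩⟩))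
noncomputable def c4_46 : Tr Lf :=
 (.spl (nat_lit 5) (nat_lit 120) (.spl (nat_lit 1) (nat_lit 280) (.leaf ⟨(nat_lit 0), (nat_lit 867), (nat_lit 0), (nat_lit 133), (nat_lit 29854), (nat_lit 5292), (nat_lit 7123), (nat_lit 1659), (nat_lit 0), (nat_lit 0), (nat_lit 0), [], Pd.none, Pd.none, (nat_lit 0), (nat_lit 1), (nat_lit 0), (nat_lit 0), (nat_lit 3), (nat_lit 0), [], [], [], [],
 ⟨⟨[(nat_lit 60), (nat_lit 100), (nat_lit 120)], [(nat_lit 0), (nat_lit 609), (nat_lit 1609)], [((nat_lit 0), (nat_lit 0), (nat_lit 0)), ((nat_lit 1000), (nat_lit 905), (nat_lit 238)), ((nat_lit 1000), (nat_lit 882), (nat_lit 668))], ((nat_lit 87), (nat_lit 100), (nat_lit 60))⟩, (nat_lit 0), (nat_lit 132), (nat_lit 132), (nat_lit 0), (nat_lit 158328), [(nat_lit 3282000020), (nat_lit 100828368340), (nat_lit 7968000000)], [], [(nat_lit 13934676489), (nat_lit 15820806596), (nat_lit 16199838233), (nat_lit 17833562844), (nat_lit 17925746296), (nat_lit 19430131712), (nat_lit 19568760506),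 (nat_lit 20866742636)], (nat_lit 1271251), (nat_lit 1271251), (nat_lit 780000), (nat_lit 1435001), (nat_lit 780000), (nat_lit 1762501), [(nat_lit 780000), (nat_lit 1435001), (nat_lit 1271251)], [(nat_lit 10), (nat_lit 54), (nat_lit 345), (nat_lit 125), (nat_lit 11)]⟩,
 ⟨⟨[(nat_lit 80), (nat_lit 120), (nat_lit 160)], [(nat_lit 0), (nat_lit 0), (nat_lit 2132)], [((nat_lit 0), (nat_lit 0), (nat_lit 0)), ((nat_lit 0), (nat_lit 0), (nat_lit 0)), ((nat_lit 858), (nat_lit 1000), (nat_lit 713))], ((nat_lit 100), (nat_lit 92), (nat_lit 61))⟩, (nat_lit 3753944), (nat_lit 356), (nat_lit 356), (nat_lit 0), (nat_lit 175996), [(nat_lit 4688000000), (nat_lit 7968000000), (nat_lit 11872000000)], [], [(nat_lit 36035048740), (nat_lit 31746089019), (nat_lit 37142905110), (nat_lit 32590280807), (nat_lit 34444097147), (nat_lit 28392451772), (nat_lit 42385573356), (nat_lit 35890084726)], (nat_lit 1271251), (nat_lit 1271251), (nat_lit 780000), (nat_lit 1435001), (nat_lit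 0), (nat_lit 780000), [(nat_lit 1100000), (nat_lit 1785001), (nat_lit 1271251)], [(nat_lit 18), (nat_lit 59), (nat_lit 373), (nat_lit 150), (nat_lit 10)]⟩,
 ⟨⟨[(nat_lit 140), (nat_lit 180), (nat_lit 200)], [(nat_lit 0), (nat_lit 0), (nat_lit 2835)], [((nat_lit 0), (nat_lit 0), (nat_lit 0)), ((nat_lit 0), (nat_lit 0), (nat_lit 0)), ((nat_lit 363), (nat_lit 1000), (nat_lit 798))], ((nat_lit 0), (nat_lit 0), (nat_lit 0))⟩, (nat_lit 36593), (nat_lit 300), (nat_lit 850), (nat_lit 10387300), (nat_lit 714491), [(nat_lit 1308986000), (nat_lit 1869714000), (nat_lit 2181200000)], [], [(nat_lit 9812206404), (nat_lit 9223816851), (nat_lit 9099386884), (nat_lit 8567334510), (nat_lit 8505286440), (nat_lit 7941262704), (nat_lit 7813803088), (nat_lit 9370102434)], (nat_lit 780000), (nat_lit 1598751), (nat_lit 780000), (nat_lit 1762501), (nat_lit 0), (nat_lit 780000), [(nat_lit 1977501), (nat_lit 1271251), (nat_lit 1271251)], [(nat_lit 32), (nat_lit 67), (nat_lit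 373), (nat_lit 150), (nat_lit 8)]⟩⟩) (.leaf ⟨(nat_lit 0), (nat_lit 979), (nat_lit 0), (nat_lit 21), (nat_lit 0), (nat_lit 9457), (nat_lit 9079), (nat_lit 269), (nat_lit 246152), (nat_lit 0), (nat_lit 0), [], Pd.none, Pd.none, (nat_lit 0), (nat_lit 1), (nat_lit 0), (nat_lit 0), (nat_lit 3), (nat_lit 0), [], [], [⟨(nat_lit 0), (nat_lit 100), (nat_lit 88), (nat_lit 37), (nat_lit 156301999)⟩], [],
 ⟨⟨[(nat_lit 60), (nat_lit 100), (nat_lit 120)], [(nat_lit 0), (nat_lit 609), (nat_lit 1609)], [((nat_lit 0), (nat_lit 0), (nat_lit 0)), ((nat_lit 1000), (nat_lit 905), (nat_lit 238)), ((nat_lit 1000), (nat_lit 882), (nat_lit 668))], ((nat_lit 87), (nat_lit 100), (nat_lit 60))⟩, (nat_lit 2024904), (nat_lit 254), (nat_lit 254), (nat_lit 0), (nat_lit 429211), [(nat_lit 3282000045), (nat_lit 6250000075), (nat_lit 7968000000)], [], [(nat_lit 16537847121), (nat_lit 18422038412), (nat_lit 17624238751), (nat_lit 19434330255), (nat_lit 19142294775), (nat_lit 20778132728),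 (nat_lit 22359288668), (nat_lit 21753942130)], (nat_lit 1271251), (nat_lit 1271251), (nat_lit 780000), (nat_lit 1435001), (nat_lit 780000), (nat_lit 1762501), [(nat_lit 780000), (nat_lit 1435001), (nat_lit 1271251)], [(nat_lit 10), (nat_lit 54), (nat_lit 345), (nat_lit 125), (nat_lit 11)]⟩,
 ⟨⟨[(nat_lit 60), (nat_lit 100), (nat_lit 140)], [(nat_lit 0), (nat_lit 0), (nat_lit 2047)], [((nat_lit 0), (nat_lit 0), (nat_lit 0)), ((nat_lit 0), (nat_lit 0), (nat_lit 0)), ((nat_lit 1000), (nat_lit 993), (nat_lit 781))], ((nat_lit 94), (nat_lit 100), (nat_lit 62))⟩, (nat_lit 3694390), (nat_lit 364), (nat_lit 364), (nat_lit 0), (nat_lit 362570), [(nat_lit 3282000000), (nat_lit 6250000000), (nat_lit 9842000000)], [], [(nat_lit 27418623569), (nat_lit 26168195292), (nat_lit 23304725403), (nat_lit 26843911694), (nat_lit 17171104118), (nat_lit 19841284572), (nat_lit 26570678867), (nat_lit 20742737070)], (nat_lit 1271251), (nat_lit 1271251), (nat_lit 780000), (nat_lit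 1435001), (nat_lit 0), (nat_lit 780000), [(nat_lit 780000), (nat_lit 1435001), (nat_lit 1271251)], [(nat_lit 11), (nat_lit 55), (nat_lit 317), (nat_lit 100), (nat_lit 9)]⟩,
 ⟨⟨[(nat_lit 140), (nat_lit 180), (nat_lit 200)], [(nat_lit 0), (nat_lit 0), (nat_lit 2835)], [((nat_lit 0), (nat_lit 0), (nat_lit 0)), ((nat_lit 0), (nat_lit 0), (nat_lit 0)), ((nat_lit 363), (nat_lit 1000), (nat_lit 798))], ((nat_lit 0), (nat_lit 0), (nat_lit 0))⟩, (nat_lit 5778), (nat_lit 300), (nat_lit 1359), (nat_lit 1640100), (nat_lit 1875495), [(nat_lit 206682000), (nat_lit 295218000), (nat_lit 344400000)], [], [(nat_lit 1532717078), (nat_lit 1448486691), (nat_lit 1428204476), (nat_lit 1341063364), (nat_lit 1319891132), (nat_lit 1227680553), (nat_lit 1206866148), (nat_lit 1490969102)], (nat_lit 780000), (nat_lit 1598751), (nat_lit 780000), (nat_lit 1762501), (nat_lit 0), (nat_lit 780000), [(nat_lit 1977501), (nat_lit 1271251), (nat_lit 1271251)], [(nat_lit 32), (nat_lit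 67), (nat_lit 413), (nat_lit 150), (nat_lit 9)]⟩⟩)) (.stt (nat_lit 3) (.leaf ⟨(nat_lit 0), (nat_lit 0), (nat_lit 0), (nat_lit 1000), (nat_lit 3780), (nat_lit 8818), (nat_lit 5337), (nat_lit 27518), (nat_lit 137227), (nat_lit 0), (nat_lit 0), [], Pd.none, Pd.none, (nat_lit 0), (nat_lit 1), (nat_lit 0), (nat_lit 0), (nat_lit 0), (nat_lit 0), [], [], [], [],
 ⟨⟨[(nat_lit 60), (nat_lit 100), (nat_lit 120)], [(nat_lit 0), (nat_lit 609), (nat_lit 1609)], [((nat_lit 0), (nat_lit 0), (nat_lit 0)), ((nat_lit 1000), (nat_lit 905), (nat_lit 238)), ((nat_lit 1000), (nat_lit 882), (nat_lit 668))], ((nat_lit 87), (nat_lit 100), (nat_lit 60))⟩, (nat_lit 3338026), (nat_lit 254), (nat_lit 254), (nat_lit 0), (nat_lit 429211), [(nat_lit 4141655228), (nat_lit 6250000101), (nat_lit 7968000000)], [], [(nat_lit 14740414165), (nat_lit 16727665318), (nat_lit 16072025904), (nat_lit 18557664626), (nat_lit 18287779898), (nat_lit 20571272248), (nat_lit 24438162072), (nat_lit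 21617777620)], (nat_lit 1271251), (nat_lit 1271251), (nat_lit 780000), (nat_lit 1435001), (nat_lit 780000), (nat_lit 1762501), [(nat_lit 780000), (nat_lit 1435001), (nat_lit 1271251)], [(nat_lit 10), (nat_lit 54), (nat_lit 345), (nat_lit 125), (nat_lit 11)]⟩,
 ⟨⟨[(nat_lit 80), (nat_lit 120), (nat_lit 160)], [(nat_lit 0), (nat_lit 0), (nat_lit 2132)], [((nat_lit 0), (nat_lit 0), (nat_lit 0)), ((nat_lit 0), (nat_lit 0), (nat_lit 0)), ((nat_lit 858), (nat_lit 1000), (nat_lit 713))], ((nat_lit 100), (nat_lit 92), (nat_lit 61))⟩, (nat_lit 1598908), (nat_lit 402), (nat_lit 402), (nat_lit 0), (nat_lit 502791), [(nat_lit 4688000000), (nat_lit 7968000000), (nat_lit 11872000000)], [], [(nat_lit 36188637111), (nat_lit 38269753662), (nat_lit 36120167218), (nat_lit 38634348109), (nat_lit 47124592336), (nat_lit 43529202974), (nat_lit 54121352622), (nat_lit 44756710854)], (nat_lit 1271251), (nat_lit 1271251), (nat_lit 780000), (nat_lit 1435001), (nat_lit 780000),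 (nat_lit 3072501), [(nat_lit 1100000), (nat_lit 1785001), (nat_lit 1271251)], [(nat_lit 18), (nat_lit 59), (nat_lit 483), (nat_lit 250), (nat_lit 12)]⟩,
 ⟨⟨[(nat_lit 140), (nat_lit 180), (nat_lit 200)], [(nat_lit 0), (nat_lit 0), (nat_lit 2835)], [((nat_lit 0), (nat_lit 0), (nat_lit 0)), ((nat_lit 0), (nat_lit 0), (nat_lit 0)), ((nat_lit 363), (nat_lit 1000), (nat_lit 798))], ((nat_lit 0), (nat_lit 0), (nat_lit 0))⟩, (nat_lit 6607681), (nat_lit 291), (nat_lit 291), (nat_lit 0), (nat_lit 0), [(nat_lit 9842000000), (nat_lit 14058000000), (nat_lit 16400000000)], [], [(nat_lit 24917095259), (nat_lit 26652904349), (nat_lit 26380139912), (nat_lit 25658341954), (nat_lit 56207210896), (nat_lit 54155634903), (nat_lit 53049228392), (nat_lit 49439693814)], (nat_lit 0), (nat_lit 0), (nat_lit 0), (nat_lit 0), (nat_lit 0), (nat_lit 0), [], [(nat_lit 32), (nat_lit 67), (nat_lit 456), (nat_lit 225), (nat_lit 10)]⟩⟩) (.stt (nat_lit 1) (.spl (nat_lit 2) (nat_lit 180)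 (.spl (nat_lit 1) (nat_lit 280) (.leaf ⟨(nat_lit 871), (nat_lit 64), (nat_lit 0), (nat_lit 65), (nat_lit 0), (nat_lit 4516), (nat_lit 830), (nat_lit 620), (nat_lit 0), (nat_lit 0), (nat_lit 217750), [((nat_lit 320), [((nat_lit 15), (nat_lit 0), (nat_lit 871))])], ⟨(nat_lit 6), false, false, false, (nat_lit 198), (nat_lit 4472), (nat_lit 5000), [(nat_lit 1399984), (nat_lit 1407160), (nat_lit 1442816), (nat_lit 1450269), (nat_lit 1542832), (nat_lit 1543108), (nat_lit 1585664), (nat_lit 1586216)]⟩, ⟨(nat_lit 3), false, false, true, (nat_lit 165), (nat_lit 4472), (nat_lit 5000), [(nat_lit 1271427), (nat_lit 1277776), (nat_lit 1335713), (nat_lit 1342476), (nat_lit 1485713), (nat_lit 1481711), (nat_lit 1549999), (nat_lit 1546410)]⟩, (nat_lit 4589138), (nat_lit 45149203), (nat_lit 12502887), (nat_lit 9347910), (nat_lit 3), (nat_lit 0), [], [], [], [],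
 ⟨⟨[(nat_lit 60), (nat_lit 100), (nat_lit 120)], [(nat_lit 0), (nat_lit 609), (nat_lit 1609)], [((nat_lit 0), (nat_lit 0), (nat_lit 0)), ((nat_lit 1000), (nat_lit 905), (nat_lit 238)), ((nat_lit 1000), (nat_lit 882), (nat_lit 668))], ((nat_lit 87), (nat_lit 100), (nat_lit 60))⟩, (nat_lit 0), (nat_lit 30), (nat_lit 30), (nat_lit 0), (nat_lit 0), [(nat_lit 2367239403), (nat_lit 99974758503), (nat_lit 3703235600)], [(nat_lit 0), (nat_lit 0), (nat_lit 0)], [(nat_lit 13782432290), (nat_lit 15558048828), (nat_lit 16033300502), (nat_lit 17565808412), (nat_lit 17676830151), (nat_lit 19178990176), (nat_lit 19370425981), (nat_lit 20701064440)], (nat_lit 0), (nat_lit 0), (nat_lit 0), (nat_lit 0), (nat_lit 0), (nat_lit 0), [], [(nat_lit 10), (nat_lit 54), (nat_lit 345), (nat_lit 125), (nat_lit 11)]⟩,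
 ⟨⟨[(nat_lit 80), (nat_lit 120), (nat_lit 160)], [(nat_lit 0), (nat_lit 0), (nat_lit 2132)], [((nat_lit 0), (nat_lit 0), (nat_lit 0)), ((nat_lit 0), (nat_lit 0), (nat_lit 0)), ((nat_lit 858), (nat_lit 1000), (nat_lit 713))], ((nat_lit 100), (nat_lit 92), (nat_lit 61))⟩, (nat_lit 0), (nat_lit 226), (nat_lit 226), (nat_lit 0), (nat_lit 175996), [(nat_lit 604752000), (nat_lit 1027872000), (nat_lit 1531488000)], [], [(nat_lit 4886328650), (nat_lit 4023697690), (nat_lit 3885822244), (nat_lit 4129991409), (nat_lit 6194519948), (nat_lit 5447550658), (nat_lit 7213165204), (nat_lit 6484979644)], (nat_lit 1271251), (nat_lit 1271251), (nat_lit 780000), (nat_lit 1435001), (nat_lit 780000), (nat_lit 3072501), [(nat_lit 1100000), (nat_lit 1785001), (nat_lit 1271251)], [(nat_lit 18), (nat_lit 59), (nat_lit 456), (nat_lit 225), (nat_lit 11)]⟩,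
 ⟨⟨[(nat_lit 140), (nat_lit 180), (nat_lit 200)], [(nat_lit 0), (nat_lit 0), (nat_lit 2835)], [((nat_lit 0), (nat_lit 0), (nat_lit 0)), ((nat_lit 0), (nat_lit 0), (nat_lit 0)), ((nat_lit 363), (nat_lit 1000), (nat_lit 798))], ((nat_lit 0), (nat_lit 0), (nat_lit 0))⟩, (nat_lit 17884), (nat_lit 300), (nat_lit 946), (nat_lit 5076500), (nat_lit 1154350), [(nat_lit 639730000), (nat_lit 913770000), (nat_lit 1066000000)], [], [(nat_lit 4919770893), (nat_lit 4790821882), (nat_lit 4677277337), (nat_lit 4547706843), (nat_lit 4556929424), (nat_lit 4419985199), (nat_lit 4296352866), (nat_lit 4163781620)], (nat_lit 780000), (nat_lit 1271251), (nat_lit 780000), (nat_lit 1762501), (nat_lit 780000), (nat_lit 3072501), [(nat_lit 1977501), (nat_lit 1271251), (nat_lit 1271251)], [(nat_lit 32), (nat_lit 67), (nat_lit 456), (nat_lit 225), (nat_lit 10)]⟩⟩) (.trX (nat_lit 5) (nat_lit 1) (nat_lit 2) (nat_lit 92) (nat_lit 49) (nat_lit 100) (nat_lit 380) (.leaf ⟨(nat_lit 839),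 (nat_lit 134), (nat_lit 0), (nat_lit 27), (nat_lit 10), (nat_lit 4550), (nat_lit 1232), (nat_lit 285), (nat_lit 2484430589), (nat_lit 0), (nat_lit 209750), [((nat_lit 320), [((nat_lit 15), (nat_lit 0), (nat_lit 839))])], ⟨(nat_lit 7), false, false, false, (nat_lit 215), (nat_lit 4472), (nat_lit 5000), [(nat_lit 1442816), (nat_lit 1450269), (nat_lit 1485648), (nat_lit 1493376), (nat_lit 1585664), (nat_lit 1586216), (nat_lit 1628496), (nat_lit 1629323)]⟩, ⟨(nat_lit 3), false, false, true, (nat_lit 165), (nat_lit 4472), (nat_lit 5000), [(nat_lit 1271427), (nat_lit 1277776), (nat_lit 1335713), (nat_lit 1342476), (nat_lit 1485713), (nat_lit 1481711), (nat_lit 1549999), (nat_lit 1546410)]⟩, (nat_lit 4721031), (nat_lit 43760641), (nat_lit 14044403), (nat_lit 9194956), (nat_lit 3), (nat_lit 0), [], [], [⟨(nat_lit 1), (nat_lit 72), (nat_lit 89), (nat_lit 100), (nat_lit 39249293)⟩], [],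
 ⟨⟨[(nat_lit 60), (nat_lit 100), (nat_lit 120)], [(nat_lit 0), (nat_lit 609), (nat_lit 1609)], [((nat_lit 0), (nat_lit 0), (nat_lit 0)), ((nat_lit 1000), (nat_lit 905), (nat_lit 238)), ((nat_lit 1000), (nat_lit 882), (nat_lit 668))], ((nat_lit 87), (nat_lit 100), (nat_lit 60))⟩, (nat_lit 0), (nat_lit 30), (nat_lit 30), (nat_lit 0), (nat_lit 0), [(nat_lit 2379354602), (nat_lit 100348834641), (nat_lit 3859920400)], [(nat_lit 0), (nat_lit 0), (nat_lit 0)], [(nat_lit 13761138265), (nat_lit 15567291150), (nat_lit 16012632740), (nat_lit 17573647350), (nat_lit 17660123550), (nat_lit 19189993800), (nat_lit 19372462800), (nat_lit 20708309500)], (nat_lit 0), (nat_lit 0), (nat_lit 0), (nat_lit 0), (nat_lit 0), (nat_lit 0), [], [(nat_lit 10), (nat_lit 54), (nat_lit 345), (nat_lit 125), (nat_lit 11)]⟩,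
 ⟨⟨[(nat_lit 60), (nat_lit 100), (nat_lit 140)], [(nat_lit 0), (nat_lit 0), (nat_lit 2047)], [((nat_lit 0), (nat_lit 0), (nat_lit 0)), ((nat_lit 0), (nat_lit 0), (nat_lit 0)), ((nat_lit 1000), (nat_lit 993), (nat_lit 781))], ((nat_lit 94), (nat_lit 100), (nat_lit 62))⟩, (nat_lit 363296), (nat_lit 284), (nat_lit 284), (nat_lit 0), (nat_lit 362570), [(nat_lit 528402000), (nat_lit 1006250000), (nat_lit 1584562000)], [], [(nat_lit 3597613339), (nat_lit 4000622561), (nat_lit 3732167262), (nat_lit 4078243664), (nat_lit 5960992240), (nat_lit 5241600378), (nat_lit 7434606704), (nat_lit 6360343976)], (nat_lit 1271251), (nat_lit 1271251), (nat_lit 780000), (nat_lit 1435001), (nat_lit 780000), (nat_lit 2908751), [(nat_lit 780000), (nat_lit 1435001), (nat_lit 1271251)], [(nat_lit 11), (nat_lit 55), (nat_lit 373), (nat_lit 150), (nat_lit 10)]⟩,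
 ⟨⟨[(nat_lit 140), (nat_lit 180), (nat_lit 200)], [(nat_lit 0), (nat_lit 0), (nat_lit 2835)], [((nat_lit 0), (nat_lit 0), (nat_lit 0)), ((nat_lit 0), (nat_lit 0), (nat_lit 0)), ((nat_lit 363), (nat_lit 1000), (nat_lit 798))], ((nat_lit 0), (nat_lit 0), (nat_lit 0))⟩, (nat_lit 7429), (nat_lit 300), (nat_lit 1906), (nat_lit 2108700), (nat_lit 3198724), [(nat_lit 265734000), (nat_lit 379566000), (nat_lit 442800000)], [], [(nat_lit 2113511245), (nat_lit 2054429238), (nat_lit 1998379150), (nat_lit 1939879346), (nat_lit 1899047923), (nat_lit 1840523003), (nat_lit 1784778877), (nat_lit 1728053960)], (nat_lit 780000), (nat_lit 1271251), (nat_lit 780000), (nat_lit 1762501), (nat_lit 780000), (nat_lit 2908751), [(nat_lit 1977501), (nat_lit 1271251), (nat_lit 1271251)], [(nat_lit 32), (nat_lit 67), (nat_lit 577), (nat_lit 200), (nat_lit 12)]⟩⟩))) (.leaf ⟨(nat_lit 0), (nat_lit 550), (nat_lit 0), (nat_lit 450), (nat_lit 7860), (nat_lit 5342), (nat_lit 5457), (nat_lit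 3702), (nat_lit 13391), (nat_lit 0), (nat_lit 0), [], Pd.none, Pd.none, (nat_lit 0), (nat_lit 1), (nat_lit 0), (nat_lit 0), (nat_lit 4), (nat_lit 0), [], [], [], [],
 ⟨⟨[(nat_lit 60), (nat_lit 100), (nat_lit 120)], [(nat_lit 0), (nat_lit 609), (nat_lit 1609)], [((nat_lit 0), (nat_lit 0), (nat_lit 0)), ((nat_lit 1000), (nat_lit 905), (nat_lit 238)), ((nat_lit 1000), (nat_lit 882), (nat_lit 668))], ((nat_lit 87), (nat_lit 100), (nat_lit 60))⟩, (nat_lit 0), (nat_lit 30), (nat_lit 30), (nat_lit 0), (nat_lit 0), [(nat_lit 3282000017), (nat_lit 101266611952), (nat_lit 7968000000)], [], [(nat_lit 13885545274), (nat_lit 15782582886), (nat_lit 16151627993), (nat_lit 17794098941), (nat_lit 17882843943), (nat_lit 19446313512), (nat_lit 19522599028), (nat_lit 20877076780)], (nat_lit 0), (nat_lit 0), (nat_lit 0), (nat_lit 0), (nat_lit 0), (nat_lit 0), [], [(nat_lit 10), (nat_lit 54), (nat_lit 345), (nat_lit 125), (nat_lit 11)]⟩,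
 ⟨⟨[(nat_lit 80), (nat_lit 120), (nat_lit 160)], [(nat_lit 0), (nat_lit 0), (nat_lit 2132)], [((nat_lit 0), (nat_lit 0), (nat_lit 0)), ((nat_lit 0), (nat_lit 0), (nat_lit 0)), ((nat_lit 858), (nat_lit 1000), (nat_lit 713))], ((nat_lit 100), (nat_lit 92), (nat_lit 61))⟩, (nat_lit 2426327), (nat_lit 253), (nat_lit 253), (nat_lit 0), (nat_lit 253402), [(nat_lit 4688000000), (nat_lit 7968000000), (nat_lit 11872000000)], [], [(nat_lit 36373473471), (nat_lit 29476257257), (nat_lit 30695004579), (nat_lit 30482892165), (nat_lit 47222479696), (nat_lit 37557126626), (nat_lit 54317649342), (nat_lit 44742447894)], (nat_lit 1271251), (nat_lit 1271251), (nat_lit 780000), (nat_lit 1435001), (nat_lit 780000), (nat_lit 3072501), [(nat_lit 1100000), (nat_lit 1785001), (nat_lit 1271251)], [(nat_lit 18), (nat_lit 59), (nat_lit 483), (nat_lit 250), (nat_lit 12)]⟩,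
 ⟨⟨[(nat_lit 120), (nat_lit 160), (nat_lit 180)], [(nat_lit 0), (nat_lit 533), (nat_lit 2066)], [((nat_lit 0), (nat_lit 0), (nat_lit 0)), ((nat_lit 960), (nat_lit 1000), (nat_lit 200)), ((nat_lit 615), (nat_lit 1000), (nat_lit 729))], ((nat_lit 100), (nat_lit 74), (nat_lit 60))⟩, (nat_lit 1053659), (nat_lit 300), (nat_lit 760), (nat_lit 29880000), (nat_lit 962895), [(nat_lit 3585600000), (nat_lit 5342400000), (nat_lit 6326100000)], [], [(nat_lit 26991576054), (nat_lit 26735285598), (nat_lit 25934630593), (nat_lit 25650780819), (nat_lit 25965123372), (nat_lit 25611436194), (nat_lit 25283931948), (nat_lit 24303629771)], (nat_lit 1271251), (nat_lit 1271251), (nat_lit 780000), (nat_lit 1762501), (nat_lit 780000), (nat_lit 3072501), [(nat_lit 1695001), (nat_lit 1271251), (nat_lit 1271251)], [(nat_lit 28), (nat_lit 65), (nat_lit 456), (nat_lit 225), (nat_lit 10)]⟩⟩)) (.spl (nat_lit 5) (nat_lit 280) (.leaf ⟨(nat_lit 0), (nat_lit 729), (nat_lit 0), (nat_lit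 271), (nat_lit 0), (nat_lit 12578), (nat_lit 7797), (nat_lit 2970), (nat_lit 90), (nat_lit 0), (nat_lit 0), [], Pd.none, Pd.none, (nat_lit 0), (nat_lit 1), (nat_lit 0), (nat_lit 0), (nat_lit 3), (nat_lit 0), [], [], [], [],
 ⟨⟨[(nat_lit 60), (nat_lit 100), (nat_lit 120)], [(nat_lit 0), (nat_lit 609), (nat_lit 1609)], [((nat_lit 0), (nat_lit 0), (nat_lit 0)), ((nat_lit 1000), (nat_lit 905), (nat_lit 238)), ((nat_lit 1000), (nat_lit 882), (nat_lit 668))], ((nat_lit 87), (nat_lit 100), (nat_lit 60))⟩, (nat_lit 0), (nat_lit 197), (nat_lit 197), (nat_lit 0), (nat_lit 351617), [(nat_lit 6449257304), (nat_lit 7409917659), (nat_lit 7968000000)], [], [(nat_lit 17037501412), (nat_lit 19636365792), (nat_lit 18144227898), (nat_lit 20342484414), (nat_lit 19813451117), (nat_lit 21788143608), (nat_lit 19947151045), (nat_lit 22418996020)], (nat_lit 1271251), (nat_lit 1271251), (nat_lit 780000), (nat_lit 1435001), (nat_lit 780000), (nat_lit 1762501), [(nat_lit 780000),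 (nat_lit 1435001), (nat_lit 1271251)], [(nat_lit 10), (nat_lit 54), (nat_lit 345), (nat_lit 125), (nat_lit 11)]⟩,
 ⟨⟨[(nat_lit 80), (nat_lit 120), (nat_lit 160)], [(nat_lit 0), (nat_lit 0), (nat_lit 2132)], [((nat_lit 0), (nat_lit 0), (nat_lit 0)), ((nat_lit 0), (nat_lit 0), (nat_lit 0)), ((nat_lit 858), (nat_lit 1000), (nat_lit 713))], ((nat_lit 100), (nat_lit 92), (nat_lit 61))⟩, (nat_lit 3706502), (nat_lit 214), (nat_lit 214), (nat_lit 0), (nat_lit 181371), [(nat_lit 4688000000), (nat_lit 7968000000), (nat_lit 11872000000)], [], [(nat_lit 25012144867), (nat_lit 24547246528), (nat_lit 28325396559), (nat_lit 24916428204), (nat_lit 36365449921), (nat_lit 27490051506), (nat_lit 44810460072), (nat_lit 30590236893)], (nat_lit 1271251), (nat_lit 1271251), (nat_lit 780000), (nat_lit 1435001), (nat_lit 780000), (nat_lit 2090001), [(nat_lit 1100000), (nat_lit 1785001), (nat_lit 1271251)], [(nat_lit 18), (nat_lit 59), (nat_lit 428), (nat_lit 200), (nat_lit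 11)]⟩,
 ⟨⟨[(nat_lit 140), (nat_lit 180), (nat_lit 200)], [(nat_lit 0), (nat_lit 0), (nat_lit 2835)], [((nat_lit 0), (nat_lit 0), (nat_lit 0)), ((nat_lit 0), (nat_lit 0), (nat_lit 0)), ((nat_lit 363), (nat_lit 1000), (nat_lit 798))], ((nat_lit 0), (nat_lit 0), (nat_lit 0))⟩, (nat_lit 74561), (nat_lit 300), (nat_lit 1280), (nat_lit 21165100), (nat_lit 1875495), [(nat_lit 2667182000), (nat_lit 3809718000), (nat_lit 4444400000)], [], [(nat_lit 19343915199), (nat_lit 18291655103), (nat_lit 18063884258), (nat_lit 17014442955), (nat_lit 17781372213), (nat_lit 16726357974), (nat_lit 16499130842), (nat_lit 15448514534)], (nat_lit 780000), (nat_lit 1598751), (nat_lit 780000), (nat_lit 1762501), (nat_lit 780000), (nat_lit 2090001), [(nat_lit 1977501), (nat_lit 1271251), (nat_lit 1271251)], [(nat_lit 32), (nat_lit 67), (nat_lit 428), (nat_lit 200), (nat_lit 9)]⟩⟩) (.leaf ⟨(nat_lit 0), (nat_lit 781), (nat_lit 0), (nat_lit 219), (nat_lit 0), (nat_lit 12578), (nat_lit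 8360), (nat_lit 2505), (nat_lit 823911), (nat_lit 0), (nat_lit 0), [], Pd.none, Pd.none, (nat_lit 0), (nat_lit 1), (nat_lit 0), (nat_lit 0), (nat_lit 7), (nat_lit 0), [], [], [⟨(nat_lit 1), (nat_lit 54), (nat_lit 93), (nat_lit 100), (nat_lit 473329881)⟩], [],
 ⟨⟨[(nat_lit 60), (nat_lit 100), (nat_lit 120)], [(nat_lit 0), (nat_lit 609), (nat_lit 1609)], [((nat_lit 0), (nat_lit 0), (nat_lit 0)), ((nat_lit 1000), (nat_lit 905), (nat_lit 238)), ((nat_lit 1000), (nat_lit 882), (nat_lit 668))], ((nat_lit 87), (nat_lit 100), (nat_lit 60))⟩, (nat_lit 0), (nat_lit 197), (nat_lit 197), (nat_lit 0), (nat_lit 351617), [(nat_lit 5973535575), (nat_lit 7698881639), (nat_lit 7968000000)], [], [(nat_lit 17037501412), (nat_lit 19636365792), (nat_lit 18144227898), (nat_lit 20342484414), (nat_lit 19813451117), (nat_lit 21788143608), (nat_lit 19947151045), (nat_lit 22418996020)], (nat_lit 1271251), (nat_lit 1271251), (nat_lit 780000), (nat_lit 1435001), (nat_lit 780000),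 (nat_lit 1762501), [(nat_lit 780000), (nat_lit 1435001), (nat_lit 1271251)], [(nat_lit 10), (nat_lit 54), (nat_lit 345), (nat_lit 125), (nat_lit 11)]⟩,
 ⟨⟨[(nat_lit 80), (nat_lit 120), (nat_lit 160)], [(nat_lit 0), (nat_lit 0), (nat_lit 2132)], [((nat_lit 0), (nat_lit 0), (nat_lit 0)), ((nat_lit 0), (nat_lit 0), (nat_lit 0)), ((nat_lit 858), (nat_lit 1000), (nat_lit 713))], ((nat_lit 100), (nat_lit 92), (nat_lit 61))⟩, (nat_lit 3768678), (nat_lit 229), (nat_lit 229), (nat_lit 0), (nat_lit 181371), [(nat_lit 4688000000), (nat_lit 7968000000), (nat_lit 11872000000)], [], [(nat_lit 23035672784), (nat_lit 27166575824), (nat_lit 23179487264), (nat_lit 27310308760), (nat_lit 32358258640), (nat_lit 35616126320), (nat_lit 31882866400), (nat_lit 34702139200)], (nat_lit 1271251), (nat_lit 1271251), (nat_lit 780000), (nat_lit 1435001), (nat_lit 1271251), (nat_lit 1271251), [(nat_lit 1100000), (nat_lit 1785001), (nat_lit 1271251)], [(nat_lit 18), (nat_lit 59),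 (nat_lit 483), (nat_lit 250), (nat_lit 12)]⟩,
 ⟨⟨[(nat_lit 140), (nat_lit 180), (nat_lit 200)], [(nat_lit 0), (nat_lit 0), (nat_lit 2835)], [((nat_lit 0), (nat_lit 0), (nat_lit 0)), ((nat_lit 0), (nat_lit 0), (nat_lit 0)), ((nat_lit 363), (nat_lit 1000), (nat_lit 798))], ((nat_lit 0), (nat_lit 0), (nat_lit 0))⟩, (nat_lit 60254), (nat_lit 300), (nat_lit 1206), (nat_lit 17103900), (nat_lit 1875495), [(nat_lit 2155398000), (nat_lit 3078702000), (nat_lit 3591600000)], [], [(nat_lit 13652711700), (nat_lit 12761363483), (nat_lit 12566574624), (nat_lit 11675037543), (nat_lit 13330056552), (nat_lit 12418389960), (nat_lit 12216692568), (nat_lit 11340426702)], (nat_lit 780000), (nat_lit 1598751), (nat_lit 780000), (nat_lit 1762501), (nat_lit 1271251), (nat_lit 1271251), [(nat_lit 1977501), (nat_lit 1271251), (nat_lit 1271251)], [(nat_lit 32), (nat_lit 67), (nat_lit 456), (nat_lit 225), (nat_lit 9)]⟩⟩)))))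
noncomputable def c4_47 : Tr Lf :=
 (.spl (nat_lit 5) (nat_lit 200) (.leaf ⟨(nat_lit 0), (nat_lit 902), (nat_lit 0), (nat_lit 98), (nat_lit 0), (nat_lit 10281), (nat_lit 10031), (nat_lit 1257), (nat_lit 333295), (nat_lit 0), (nat_lit 0), [], Pd.none, Pd.none, (nat_lit 0), (nat_lit 1), (nat_lit 0), (nat_lit 0), (nat_lit 3), (nat_lit 0), [], [], [⟨(nat_lit 0), (nat_lit 100), (nat_lit 93), (nat_lit 26), (nat_lit 20646067)⟩], [],
 ⟨⟨[(nat_lit 60), (nat_lit 100), (nat_lit 120)], [(nat_lit 0), (nat_lit 609), (nat_lit 1609)], [((nat_lit 0), (nat_lit 0), (nat_lit 0)), ((nat_lit 1000), (nat_lit 905), (nat_lit 238)), ((nat_lit 1000), (nat_lit 882), (nat_lit 668))], ((nat_lit 87), (nat_lit 100), (nat_lit 60))⟩, (nat_lit 1053765), (nat_lit 244), (nat_lit 244), (nat_lit 0), (nat_lit 429211), [(nat_lit 4866878245), (nat_lit 6665869506), (nat_lit 7968000000)], [], [(nat_lit 18463898786), (nat_lit 20376472818), (nat_lit 22849409164), (nat_lit 24870311903), (nat_lit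 20465486018), (nat_lit 21929739427), (nat_lit 24665965944), (nat_lit 26376287702)], (nat_lit 1271251), (nat_lit 1271251), (nat_lit 1271251), (nat_lit 1271251), (nat_lit 780000), (nat_lit 1762501), [(nat_lit 780000), (nat_lit 1435001), (nat_lit 1271251)], [(nat_lit 10), (nat_lit 54), (nat_lit 373), (nat_lit 150), (nat_lit 11)]⟩,
 ⟨⟨[(nat_lit 80), (nat_lit 120), (nat_lit 160)], [(nat_lit 0), (nat_lit 0), (nat_lit 2132)], [((nat_lit 0), (nat_lit 0), (nat_lit 0)), ((nat_lit 0), (nat_lit 0), (nat_lit 0)), ((nat_lit 858), (nat_lit 1000), (nat_lit 713))], ((nat_lit 100), (nat_lit 92), (nat_lit 61))⟩, (nat_lit 3177672), (nat_lit 499), (nat_lit 499), (nat_lit 0), (nat_lit 502791), [(nat_lit 4688000000), (nat_lit 7968000000), (nat_lit 11872000000)], [], [(nat_lit 34134545780), (nat_lit 33425179970), (nat_lit 32235073380), (nat_lit 36430009088), (nat_lit 28370233732), (nat_lit 26473451514), (nat_lit 25391178042), (nat_lit 27501306929)], (nat_lit 1271251), (nat_lit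 1271251), (nat_lit 1271251), (nat_lit 1271251), (nat_lit 0), (nat_lit 1412501), [(nat_lit 1100000), (nat_lit 1785001), (nat_lit 1271251)], [(nat_lit 18), (nat_lit 59), (nat_lit 428), (nat_lit 200), (nat_lit 11)]⟩,
 ⟨⟨[(nat_lit 140), (nat_lit 180), (nat_lit 200)], [(nat_lit 0), (nat_lit 0), (nat_lit 2835)], [((nat_lit 0), (nat_lit 0), (nat_lit 0)), ((nat_lit 0), (nat_lit 0), (nat_lit 0)), ((nat_lit 363), (nat_lit 1000), (nat_lit 798))], ((nat_lit 0), (nat_lit 0), (nat_lit 0))⟩, (nat_lit 26963), (nat_lit 300), (nat_lit 1978), (nat_lit 7653800), (nat_lit 3198724), [(nat_lit 964516000), (nat_lit 1377684000), (nat_lit 1607200000)], [], [(nat_lit 7151559754), (nat_lit 6757752571), (nat_lit 6662935868), (nat_lit 6256210095), (nat_lit 5773818514), (nat_lit 6232769945), (nat_lit 6524019082), (nat_lit 8111207796)], (nat_lit 780000), (nat_lit 1598751), (nat_lit 780000), (nat_lit 1762501), (nat_lit 0), (nat_lit 1412501), [(nat_lit 1977501), (nat_lit 1271251),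 (nat_lit 1271251)], [(nat_lit 32), (nat_lit 67), (nat_lit 577), (nat_lit 175), (nat_lit 12)]⟩⟩) (.spl (nat_lit 1) (nat_lit 280) (.leaf ⟨(nat_lit 0), (nat_lit 756), (nat_lit 0), (nat_lit 244), (nat_lit 0), (nat_lit 11844), (nat_lit 8747), (nat_lit 2793), (nat_lit 0), (nat_lit 0), (nat_lit 0), [], Pd.none, Pd.none, (nat_lit 0), (nat_lit 1), (nat_lit 0), (nat_lit 0), (nat_lit 5), (nat_lit 0), [], [], [⟨(nat_lit 1), (nat_lit 44), (nat_lit 96), (nat_lit 100), (nat_lit 286285791)⟩], [],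
 ⟨⟨[(nat_lit 60), (nat_lit 100), (nat_lit 120)], [(nat_lit 0), (nat_lit 609), (nat_lit 1609)], [((nat_lit 0), (nat_lit 0), (nat_lit 0)), ((nat_lit 1000), (nat_lit 905), (nat_lit 238)), ((nat_lit 1000), (nat_lit 882), (nat_lit 668))], ((nat_lit 87), (nat_lit 100), (nat_lit 60))⟩, (nat_lit 0), (nat_lit 126), (nat_lit 126), (nat_lit 0), (nat_lit 158328), [(nat_lit 6230111379), (nat_lit 7440866166), (nat_lit 7968000000)], [], [(nat_lit 18788172704), (nat_lit 20895140172), (nat_lit 23504973045), (nat_lit 25758506972), (nat_lit 20654578410), (nat_lit 22262587960), (nat_lit 25163255494), (nat_lit 27038909048)], (nat_lit 1271251), (nat_lit 1271251), (nat_lit 1271251), (nat_lit 1271251), (nat_lit 780000), (nat_lit 1762501), [(nat_lit 780000), (nat_lit 1435001), (nat_lit 1271251)], [(nat_lit 10), (nat_lit 54), (nat_lit 373), (nat_lit 150), (nat_lit 11)]⟩,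
 ⟨⟨[(nat_lit 80), (nat_lit 120), (nat_lit 160)], [(nat_lit 0), (nat_lit 0), (nat_lit 2132)], [((nat_lit 0), (nat_lit 0), (nat_lit 0)), ((nat_lit 0), (nat_lit 0), (nat_lit 0)), ((nat_lit 858), (nat_lit 1000), (nat_lit 713))], ((nat_lit 100), (nat_lit 92), (nat_lit 61))⟩, (nat_lit 2970327), (nat_lit 214), (nat_lit 214), (nat_lit 0), (nat_lit 221234), [(nat_lit 4688000000), (nat_lit 7968000000), (nat_lit 11872000000)], [], [(nat_lit 23295287259), (nat_lit 23749182980), (nat_lit 24585522788), (nat_lit 26380806079), (nat_lit 32115197060), (nat_lit 33140284402), (nat_lit 33597379030), (nat_lit 35182411759)], (nat_lit 1271251), (nat_lit 1271251), (nat_lit 1271251), (nat_lit 1271251), (nat_lit 1271251), (nat_lit 1271251), [(nat_lit 1100000), (nat_lit 1785001), (nat_lit 1271251)], [(nat_lit 18), (nat_lit 59), (nat_lit 483), (nat_lit 250), (nat_lit 12)]⟩,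
 ⟨⟨[(nat_lit 140), (nat_lit 180), (nat_lit 200)], [(nat_lit 0), (nat_lit 0), (nat_lit 2835)], [((nat_lit 0), (nat_lit 0), (nat_lit 0)), ((nat_lit 0), (nat_lit 0), (nat_lit 0)), ((nat_lit 363), (nat_lit 1000), (nat_lit 798))], ((nat_lit 0), (nat_lit 0), (nat_lit 0))⟩, (nat_lit 67132), (nat_lit 300), (nat_lit 905), (nat_lit 19056404), (nat_lit 1154350), [(nat_lit 2401448000), (nat_lit 3430152000), (nat_lit 4001600000)], [], [(nat_lit 15605308576), (nat_lit 14676824158), (nat_lit 14467398838), (nat_lit 13526161923), (nat_lit 14843220120), (nat_lit 13826525135), (nat_lit 13602343844), (nat_lit 12628045165)], (nat_lit 780000), (nat_lit 1598751), (nat_lit 780000), (nat_lit 1762501), (nat_lit 1271251), (nat_lit 1271251), [(nat_lit 1977501), (nat_lit 1271251), (nat_lit 1271251)], [(nat_lit 32), (nat_lit 67), (nat_lit 456), (nat_lit 225), (nat_lit 10)]⟩⟩) (.leaf ⟨(nat_lit 0), (nat_lit 881), (nat_lit 0), (nat_lit 119), (nat_lit 0), (nat_lit 7802), (nat_lit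 7130), (nat_lit 1350), (nat_lit 53847986), (nat_lit 0), (nat_lit 0), [], Pd.none, Pd.none, (nat_lit 0), (nat_lit 1), (nat_lit 0), (nat_lit 0), (nat_lit 5), (nat_lit 0), [], [], [⟨(nat_lit 1), (nat_lit 63), (nat_lit 88), (nat_lit 100), (nat_lit 365678383)⟩], [],
 ⟨⟨[(nat_lit 60), (nat_lit 100), (nat_lit 120)], [(nat_lit 0), (nat_lit 609), (nat_lit 1609)], [((nat_lit 0), (nat_lit 0), (nat_lit 0)), ((nat_lit 1000), (nat_lit 905), (nat_lit 238)), ((nat_lit 1000), (nat_lit 882), (nat_lit 668))], ((nat_lit 87), (nat_lit 100), (nat_lit 60))⟩, (nat_lit 2733531), (nat_lit 244), (nat_lit 244), (nat_lit 0), (nat_lit 429211), [(nat_lit 3948688684), (nat_lit 6250005400), (nat_lit 7968000000)], [], [(nat_lit 18816674830), (nat_lit 20033498522), (nat_lit 21796071419), (nat_lit 23461587926), (nat_lit 20271789073), (nat_lit 21401693725), (nat_lit 23877238627), (nat_lit 25325335484)], (nat_lit 1271251), (nat_lit 1271251), (nat_lit 1271251), (nat_lit 1271251), (nat_lit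 780000), (nat_lit 1762501), [(nat_lit 780000), (nat_lit 1435001), (nat_lit 1271251)], [(nat_lit 10), (nat_lit 54), (nat_lit 373), (nat_lit 150), (nat_lit 11)]⟩,
 ⟨⟨[(nat_lit 60), (nat_lit 100), (nat_lit 140)], [(nat_lit 0), (nat_lit 0), (nat_lit 2047)], [((nat_lit 0), (nat_lit 0), (nat_lit 0)), ((nat_lit 0), (nat_lit 0), (nat_lit 0)), ((nat_lit 1000), (nat_lit 993), (nat_lit 781))], ((nat_lit 94), (nat_lit 100), (nat_lit 62))⟩, (nat_lit 2344841), (nat_lit 288), (nat_lit 288), (nat_lit 0), (nat_lit 445747), [(nat_lit 3282000000), (nat_lit 6250000000), (nat_lit 9842000000)], [], [(nat_lit 24548532333), (nat_lit 26334760423), (nat_lit 26767514108), (nat_lit 28214322693), (nat_lit 32110998340), (nat_lit 33243457600), (nat_lit 33423120610), (nat_lit 34907079520)], (nat_lit 1271251), (nat_lit 1271251), (nat_lit 1271251), (nat_lit 1271251), (nat_lit 1271251), (nat_lit 1271251), [(nat_lit 780000), (nat_lit 1435001), (nat_lit 1271251)], [(nat_lit 11), (nat_lit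 55), (nat_lit 401), (nat_lit 175), (nat_lit 11)]⟩,
 ⟨⟨[(nat_lit 140), (nat_lit 180), (nat_lit 200)], [(nat_lit 0), (nat_lit 0), (nat_lit 2835)], [((nat_lit 0), (nat_lit 0), (nat_lit 0)), ((nat_lit 0), (nat_lit 0), (nat_lit 0)), ((nat_lit 363), (nat_lit 1000), (nat_lit 798))], ((nat_lit 0), (nat_lit 0), (nat_lit 0))⟩, (nat_lit 32741), (nat_lit 300), (nat_lit 1866), (nat_lit 9293900), (nat_lit 3198724), [(nat_lit 1171198000), (nat_lit 1672902000), (nat_lit 1951600000)], [], [(nat_lit 7772802647), (nat_lit 7291984375), (nat_lit 7188237762), (nat_lit 6732029015), (nat_lit 7289960672), (nat_lit 6799814053), (nat_lit 6691343088), (nat_lit 6200733980)], (nat_lit 780000), (nat_lit 1598751), (nat_lit 780000), (nat_lit 1762501), (nat_lit 1271251), (nat_lit 1271251), [(nat_lit 1977501), (nat_lit 1271251), (nat_lit 1271251)], [(nat_lit 32), (nat_lit 67), (nat_lit 574), (nat_lit 225), (nat_lit 12)]⟩⟩)))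
noncomputable def c4_48 : Tr Lf :=
 (.spl (nat_lit 5) (nat_lit 200) (.leaf ⟨(nat_lit 0), (nat_lit 906), (nat_lit 0), (nat_lit 94), (nat_lit 0), (nat_lit 7155), (nat_lit 8019), (nat_lit 1075), (nat_lit 15653), (nat_lit 0), (nat_lit 0), [], Pd.none, Pd.none, (nat_lit 0), (nat_lit 1), (nat_lit 0), (nat_lit 0), (nat_lit 3), (nat_lit 0), [], [], [], [⟨(nat_lit 0), (nat_lit 100), (nat_lit 72), (nat_lit 63), (nat_lit 51024528)⟩],
 ⟨⟨[(nat_lit 60), (nat_lit 100), (nat_lit 120)], [(nat_lit 0), (nat_lit 609), (nat_lit 1609)], [((nat_lit 0), (nat_lit 0), (nat_lit 0)), ((nat_lit 1000), (nat_lit 905), (nat_lit 238)), ((nat_lit 1000), (nat_lit 882), (nat_lit 668))], ((nat_lit 87), (nat_lit 100), (nat_lit 60))⟩, (nat_lit 1917216), (nat_lit 273), (nat_lit 273), (nat_lit 0), (nat_lit 429211), [(nat_lit 3796175352), (nat_lit 6250000005), (nat_lit 7968000000)], [], [(nat_lit 24642925482), (nat_lit 25588547697), (nat_lit 32744664308), (nat_lit 33810901360), (nat_lit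 25485777970), (nat_lit 26224116657), (nat_lit 32808692965), (nat_lit 33652586980)], (nat_lit 1271251), (nat_lit 1271251), (nat_lit 1271251), (nat_lit 1271251), (nat_lit 780000), (nat_lit 1762501), [(nat_lit 780000), (nat_lit 1435001), (nat_lit 1271251)], [(nat_lit 10), (nat_lit 54), (nat_lit 272), (nat_lit 60), (nat_lit 8)]⟩,
 ⟨⟨[(nat_lit 80), (nat_lit 120), (nat_lit 160)], [(nat_lit 0), (nat_lit 0), (nat_lit 2132)], [((nat_lit 0), (nat_lit 0), (nat_lit 0)), ((nat_lit 0), (nat_lit 0), (nat_lit 0)), ((nat_lit 858), (nat_lit 1000), (nat_lit 713))], ((nat_lit 100), (nat_lit 92), (nat_lit 61))⟩, (nat_lit 2537584), (nat_lit 492), (nat_lit 492), (nat_lit 0), (nat_lit 502791), [(nat_lit 4688000000), (nat_lit 7968000000), (nat_lit 11872000000)], [], [(nat_lit 37548967028), (nat_lit 39643972490), (nat_lit 42203106756), (nat_lit 43709235844), (nat_lit 32097253933), (nat_lit 33603383021), (nat_lit 35999326346), (nat_lit 37137664110)], (nat_lit 1271251), (nat_lit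 1271251), (nat_lit 1271251), (nat_lit 1271251), (nat_lit 0), (nat_lit 1412501), [(nat_lit 1100000), (nat_lit 1785001), (nat_lit 1271251)], [(nat_lit 18), (nat_lit 59), (nat_lit 483), (nat_lit 250), (nat_lit 12)]⟩,
 ⟨⟨[(nat_lit 140), (nat_lit 180), (nat_lit 200)], [(nat_lit 0), (nat_lit 0), (nat_lit 2835)], [((nat_lit 0), (nat_lit 0), (nat_lit 0)), ((nat_lit 0), (nat_lit 0), (nat_lit 0)), ((nat_lit 363), (nat_lit 1000), (nat_lit 798))], ((nat_lit 0), (nat_lit 0), (nat_lit 0))⟩, (nat_lit 25862), (nat_lit 300), (nat_lit 1978), (nat_lit 7341407), (nat_lit 3198724), [(nat_lit 925148000), (nat_lit 1321452000), (nat_lit 1541600000)], [], [(nat_lit 7190723072), (nat_lit 6799510453), (nat_lit 6712957888), (nat_lit 6336565997), (nat_lit 6085964551), (nat_lit 5827052983), (nat_lit 6082806414), (nat_lit 7473557503)], (nat_lit 780000), (nat_lit 1598751), (nat_lit 780000), (nat_lit 1762501), (nat_lit 0), (nat_lit 1412501), [(nat_lit 1977501), (nat_lit 1271251),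 (nat_lit 1271251)], [(nat_lit 32), (nat_lit 67), (nat_lit 577), (nat_lit 175), (nat_lit 12)]⟩⟩) (.spl (nat_lit 1) (nat_lit 280) (.leaf ⟨(nat_lit 0), (nat_lit 760), (nat_lit 0), (nat_lit 240), (nat_lit 0), (nat_lit 5617), (nat_lit 7174), (nat_lit 2747), (nat_lit 0), (nat_lit 0), (nat_lit 0), [], Pd.none, Pd.none, (nat_lit 0), (nat_lit 1), (nat_lit 0), (nat_lit 0), (nat_lit 5), (nat_lit 0), [], [], [⟨(nat_lit 1), (nat_lit 44), (nat_lit 96), (nat_lit 100), (nat_lit 181243915)⟩], [⟨(nat_lit 1), (nat_lit 77), (nat_lit 72), (nat_lit 100), (nat_lit 28691967)⟩],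
 ⟨⟨[(nat_lit 60), (nat_lit 100), (nat_lit 120)], [(nat_lit 0), (nat_lit 609), (nat_lit 1609)], [((nat_lit 0), (nat_lit 0), (nat_lit 0)), ((nat_lit 1000), (nat_lit 905), (nat_lit 238)), ((nat_lit 1000), (nat_lit 882), (nat_lit 668))], ((nat_lit 87), (nat_lit 100), (nat_lit 60))⟩, (nat_lit 2612495), (nat_lit 171), (nat_lit 171), (nat_lit 0), (nat_lit 158328), [(nat_lit 3282000001), (nat_lit 6250000000), (nat_lit 7968000000)], [], [(nat_lit 23563539590), (nat_lit 24545713591), (nat_lit 30791466645), (nat_lit 31573208689), (nat_lit 25115558071), (nat_lit 25979636255), (nat_lit 31316641318), (nat_lit 31944320189)], (nat_lit 1271251), (nat_lit 1271251), (nat_lit 1271251), (nat_lit 1271251), (nat_lit 780000), (nat_lit 1762501), [(nat_lit 780000), (nat_lit 1435001), (nat_lit 1271251)], [(nat_lit 10), (nat_lit 54), (nat_lit 272), (nat_lit 60), (nat_lit 8)]⟩,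
 ⟨⟨[(nat_lit 80), (nat_lit 120), (nat_lit 160)], [(nat_lit 0), (nat_lit 0), (nat_lit 2132)], [((nat_lit 0), (nat_lit 0), (nat_lit 0)), ((nat_lit 0), (nat_lit 0), (nat_lit 0)), ((nat_lit 858), (nat_lit 1000), (nat_lit 713))], ((nat_lit 100), (nat_lit 92), (nat_lit 61))⟩, (nat_lit 2697006), (nat_lit 214), (nat_lit 214), (nat_lit 0), (nat_lit 221234), [(nat_lit 4688000000), (nat_lit 7968000000), (nat_lit 11872000000)], [], [(nat_lit 26371562992), (nat_lit 28028246893), (nat_lit 33137426216), (nat_lit 34142318854), (nat_lit 34231069572), (nat_lit 35026076018), (nat_lit 38686795024), (nat_lit 39264570824)], (nat_lit 1271251), (nat_lit 1271251), (nat_lit 1271251), (nat_lit 1271251), (nat_lit 1271251), (nat_lit 1271251), [(nat_lit 1100000), (nat_lit 1785001), (nat_lit 1271251)], [(nat_lit 18), (nat_lit 59), (nat_lit 538), (nat_lit 300), (nat_lit 13)]⟩,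
 ⟨⟨[(nat_lit 140), (nat_lit 180), (nat_lit 200)], [(nat_lit 0), (nat_lit 0), (nat_lit 2835)], [((nat_lit 0), (nat_lit 0), (nat_lit 0)), ((nat_lit 0), (nat_lit 0), (nat_lit 0)), ((nat_lit 363), (nat_lit 1000), (nat_lit 798))], ((nat_lit 0), (nat_lit 0), (nat_lit 0))⟩, (nat_lit 66032), (nat_lit 300), (nat_lit 905), (nat_lit 18744000), (nat_lit 1154350), [(nat_lit 2362080000), (nat_lit 3373920000), (nat_lit 3936000000)], [], [(nat_lit 15350259084), (nat_lit 14437090841), (nat_lit 14231119434), (nat_lit 13305407788), (nat_lit 14600776712), (nat_lit 13600848766), (nat_lit 13379979308), (nat_lit 12421751667)], (nat_lit 780000), (nat_lit 1598751), (nat_lit 780000), (nat_lit 1762501), (nat_lit 1271251), (nat_lit 1271251), [(nat_lit 1977501), (nat_lit 1271251), (nat_lit 1271251)], [(nat_lit 32), (nat_lit 67), (nat_lit 456), (nat_lit 225), (nat_lit 10)]⟩⟩) (.leaf ⟨(nat_lit 0), (nat_lit 890), (nat_lit 0), (nat_lit 110), (nat_lit 0), (nat_lit 6467), (nat_lit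 6227), (nat_lit 1254), (nat_lit 137061), (nat_lit 0), (nat_lit 0), [], Pd.none, Pd.none, (nat_lit 0), (nat_lit 1), (nat_lit 0), (nat_lit 0), (nat_lit 5), (nat_lit 0), [], [], [⟨(nat_lit 1), (nat_lit 63), (nat_lit 88), (nat_lit 100), (nat_lit 301866408)⟩], [⟨(nat_lit 1), (nat_lit 77), (nat_lit 72), (nat_lit 100), (nat_lit 2027281)⟩],
 ⟨⟨[(nat_lit 60), (nat_lit 100), (nat_lit 120)], [(nat_lit 0), (nat_lit 609), (nat_lit 1609)], [((nat_lit 0), (nat_lit 0), (nat_lit 0)), ((nat_lit 1000), (nat_lit 905), (nat_lit 238)), ((nat_lit 1000), (nat_lit 882), (nat_lit 668))], ((nat_lit 87), (nat_lit 100), (nat_lit 60))⟩, (nat_lit 2425659), (nat_lit 273), (nat_lit 273), (nat_lit 0), (nat_lit 429211), [(nat_lit 3433261213), (nat_lit 6250000021), (nat_lit 7968000000)], [], [(nat_lit 24709310300), (nat_lit 25614132051), (nat_lit 31760296956), (nat_lit 32780200304), (nat_lit 25709389708), (nat_lit 26422925170), (nat_lit 32073700501), (nat_lit 32888139172)], (nat_lit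 1271251), (nat_lit 1271251), (nat_lit 1271251), (nat_lit 1271251), (nat_lit 780000), (nat_lit 1762501), [(nat_lit 780000), (nat_lit 1435001), (nat_lit 1271251)], [(nat_lit 10), (nat_lit 54), (nat_lit 272), (nat_lit 60), (nat_lit 8)]⟩,
 ⟨⟨[(nat_lit 60), (nat_lit 100), (nat_lit 140)], [(nat_lit 0), (nat_lit 0), (nat_lit 2047)], [((nat_lit 0), (nat_lit 0), (nat_lit 0)), ((nat_lit 0), (nat_lit 0), (nat_lit 0)), ((nat_lit 1000), (nat_lit 993), (nat_lit 781))], ((nat_lit 94), (nat_lit 100), (nat_lit 62))⟩, (nat_lit 2204693), (nat_lit 288), (nat_lit 288), (nat_lit 0), (nat_lit 445747), [(nat_lit 3282000000), (nat_lit 6250000000), (nat_lit 9842000000)], [], [(nat_lit 28788482596), (nat_lit 30173296167), (nat_lit 33819220122), (nat_lit 34708430727), (nat_lit 34710444406), (nat_lit 35600934010), (nat_lit 38222017062), (nat_lit 38751087976)], (nat_lit 1271251), (nat_lit 1271251), (nat_lit 1271251), (nat_lit 1271251), (nat_lit 1271251), (nat_lit 1271251), [(nat_lit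 780000), (nat_lit 1435001), (nat_lit 1271251)], [(nat_lit 11), (nat_lit 55), (nat_lit 317), (nat_lit 100), (nat_lit 8)]⟩,
 ⟨⟨[(nat_lit 140), (nat_lit 180), (nat_lit 200)], [(nat_lit 0), (nat_lit 0), (nat_lit 2835)], [((nat_lit 0), (nat_lit 0), (nat_lit 0)), ((nat_lit 0), (nat_lit 0), (nat_lit 0)), ((nat_lit 363), (nat_lit 1000), (nat_lit 798))], ((nat_lit 0), (nat_lit 0), (nat_lit 0))⟩, (nat_lit 30265), (nat_lit 300), (nat_lit 1866), (nat_lit 8591000), (nat_lit 3198724), [(nat_lit 1082620000), (nat_lit 1546380000), (nat_lit 1804000000)], [], [(nat_lit 7143319590), (nat_lit 6703308799), (nat_lit 6606746476), (nat_lit 6165730857), (nat_lit 6713106224), (nat_lit 6257169446), (nat_lit 6156286224), (nat_lit 5710477784)], (nat_lit 780000), (nat_lit 1598751), (nat_lit 780000), (nat_lit 1762501), (nat_lit 1271251), (nat_lit 1271251), [(nat_lit 1977501), (nat_lit 1271251), (nat_lit 1271251)], [(nat_lit 32), (nat_lit 67), (nat_lit 574), (nat_lit 225), (nat_lit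 12)]⟩⟩)))
noncomputable def c4_49 : Tr Lf :=
 (.spl (nat_lit 5) (nat_lit 120) (.spl (nat_lit 1) (nat_lit 260) (.spl (nat_lit 6) (nat_lit 28) (.leaf ⟨(nat_lit 0), (nat_lit 862), (nat_lit 0), (nat_lit 138), (nat_lit 57895), (nat_lit 5842), (nat_lit 8594), (nat_lit 1826), (nat_lit 0), (nat_lit 0), (nat_lit 0), [], Pd.none, Pd.none, (nat_lit 0), (nat_lit 1), (nat_lit 0), (nat_lit 0), (nat_lit 6), (nat_lit 0), [], [⟨(nat_lit 1), (nat_lit 77), (nat_lit 86), (nat_lit 100), (nat_lit 483565111)⟩], [], [],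
 ⟨⟨[(nat_lit 60), (nat_lit 100), (nat_lit 120)], [(nat_lit 0), (nat_lit 609), (nat_lit 1609)], [((nat_lit 0), (nat_lit 0), (nat_lit 0)), ((nat_lit 1000), (nat_lit 905), (nat_lit 238)), ((nat_lit 1000), (nat_lit 882), (nat_lit 668))], ((nat_lit 87), (nat_lit 100), (nat_lit 51))⟩, (nat_lit 3037016), (nat_lit 123), (nat_lit 123), (nat_lit 0), (nat_lit 45523), [(nat_lit 3282000062), (nat_lit 6250000045), (nat_lit 7968000000)], [], [(nat_lit 20637582543), (nat_lit 21754529687), (nat_lit 24508761663), (nat_lit 25481402601), (nat_lit 28410611498), (nat_lit 29310886411), (nat_lit 30735203776), (nat_lit 31539651684)], (nat_lit 1271251), (nat_lit 1271251), (nat_lit 780000), (nat_lit 2090001), (nat_lit 1271251), (nat_lit 1271251), [(nat_lit 780000), (nat_lit 1435001), (nat_lit 1271251)], [(nat_lit 10), (nat_lit 54), (nat_lit 289), (nat_lit 75), (nat_lit 8)]⟩,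
 ⟨⟨[(nat_lit 80), (nat_lit 120), (nat_lit 140)], [(nat_lit 0), (nat_lit 0), (nat_lit 1164)], [((nat_lit 0), (nat_lit 0), (nat_lit 0)), ((nat_lit 0), (nat_lit 0), (nat_lit 0)), ((nat_lit 941), (nat_lit 1000), (nat_lit 576))], ((nat_lit 100), (nat_lit 96), (nat_lit 52))⟩, (nat_lit 0), (nat_lit 214), (nat_lit 214), (nat_lit 0), (nat_lit 58338), [(nat_lit 4688000000), (nat_lit 7968000000), (nat_lit 9842000000)], [], [(nat_lit 36732861720), (nat_lit 32553011484), (nat_lit 44924349104), (nat_lit 40954591436), (nat_lit 32741398466), (nat_lit 28717427698), (nat_lit 51244316410), (nat_lit 47425798103)], (nat_lit 1271251), (nat_lit 1271251), (nat_lit 780000), (nat_lit 2090001), (nat_lit 0), (nat_lit 780000), [(nat_lit 1100000), (nat_lit 1785001), (nat_lit 1271251)], [(nat_lit 17), (nat_lit 58), (nat_lit 401), (nat_lit 175), (nat_lit 12)]⟩,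
 ⟨⟨[(nat_lit 140), (nat_lit 180), (nat_lit 200)], [(nat_lit 0), (nat_lit 0), (nat_lit 2835)], [((nat_lit 0), (nat_lit 0), (nat_lit 0)), ((nat_lit 0), (nat_lit 0), (nat_lit 0)), ((nat_lit 363), (nat_lit 1000), (nat_lit 798))], ((nat_lit 0), (nat_lit 0), (nat_lit 0))⟩, (nat_lit 37968), (nat_lit 300), (nat_lit 537), (nat_lit 10777804), (nat_lit 219535), [(nat_lit 1358196000), (nat_lit 1940004000), (nat_lit 2263200000)], [], [(nat_lit 8920003472), (nat_lit 8591242850), (nat_lit 9413180288), (nat_lit 9004935410), (nat_lit 7389072934), (nat_lit 7041276462), (nat_lit 7720051730), (nat_lit 7342333736)], (nat_lit 780000), (nat_lit 1271251), (nat_lit 1271251), (nat_lit 1271251), (nat_lit 0), (nat_lit 780000), [(nat_lit 1977501), (nat_lit 1271251), (nat_lit 1271251)], [(nat_lit 32), (nat_lit 67), (nat_lit 401), (nat_lit 175), (nat_lit 9)]⟩⟩) (.dle (nat_lit 0))) (.leaf ⟨(nat_lit 0), (nat_lit 794), (nat_lit 0), (nat_lit 206), (nat_lit 23296), (nat_lit 5856), (nat_lit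 11086), (nat_lit 2621), (nat_lit 0), (nat_lit 0), (nat_lit 0), [], Pd.none, Pd.none, (nat_lit 0), (nat_lit 1), (nat_lit 0), (nat_lit 0), (nat_lit 6), (nat_lit 0), [], [⟨(nat_lit 1), (nat_lit 77), (nat_lit 86), (nat_lit 100), (nat_lit 296467204)⟩], [], [⟨(nat_lit 0), (nat_lit 85), (nat_lit 100), (nat_lit 53), (nat_lit 133185890)⟩],
 ⟨⟨[(nat_lit 60), (nat_lit 100), (nat_lit 120)], [(nat_lit 0), (nat_lit 609), (nat_lit 1609)], [((nat_lit 0), (nat_lit 0), (nat_lit 0)), ((nat_lit 1000), (nat_lit 905), (nat_lit 238)), ((nat_lit 1000), (nat_lit 882), (nat_lit 668))], ((nat_lit 87), (nat_lit 100), (nat_lit 60))⟩, (nat_lit 3006151), (nat_lit 159), (nat_lit 159), (nat_lit 0), (nat_lit 156919), [(nat_lit 3292950104), (nat_lit 6250000023), (nat_lit 7968000000)], [], [(nat_lit 20674143945), (nat_lit 21793639553), (nat_lit 24515445780), (nat_lit 25489092464), (nat_lit 28426766751), (nat_lit 29327888794), (nat_lit 30748313167), (nat_lit 31553397962)], (nat_lit 1271251),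 (nat_lit 1271251), (nat_lit 780000), (nat_lit 2090001), (nat_lit 1271251), (nat_lit 1271251), [(nat_lit 780000), (nat_lit 1435001), (nat_lit 1271251)], [(nat_lit 10), (nat_lit 54), (nat_lit 289), (nat_lit 75), (nat_lit 8)]⟩,
 ⟨⟨[(nat_lit 80), (nat_lit 120), (nat_lit 140)], [(nat_lit 0), (nat_lit 528), (nat_lit 1572)], [((nat_lit 0), (nat_lit 0), (nat_lit 0)), ((nat_lit 1000), (nat_lit 959), (nat_lit 206)), ((nat_lit 966), (nat_lit 1000), (nat_lit 679))], ((nat_lit 100), (nat_lit 99), (nat_lit 63))⟩, (nat_lit 3514513), (nat_lit 283), (nat_lit 283), (nat_lit 0), (nat_lit 169972), [(nat_lit 4688000000), (nat_lit 7968000000), (nat_lit 9842000000)], [], [(nat_lit 30327509349), (nat_lit 24595664882), (nat_lit 37981251620), (nat_lit 32860384328), (nat_lit 22810417639), (nat_lit 17619617087), (nat_lit 45424206834), (nat_lit 40498433741)], (nat_lit 1271251), (nat_lit 1271251), (nat_lit 780000), (nat_lit 2090001), (nat_lit 0), (nat_lit 780000), [(nat_lit 1100000),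 (nat_lit 1785001), (nat_lit 1271251)], [(nat_lit 17), (nat_lit 58), (nat_lit 401), (nat_lit 175), (nat_lit 12)]⟩,
 ⟨⟨[(nat_lit 140), (nat_lit 180), (nat_lit 200)], [(nat_lit 0), (nat_lit 0), (nat_lit 2835)], [((nat_lit 0), (nat_lit 0), (nat_lit 0)), ((nat_lit 0), (nat_lit 0), (nat_lit 0)), ((nat_lit 363), (nat_lit 1000), (nat_lit 798))], ((nat_lit 0), (nat_lit 0), (nat_lit 0))⟩, (nat_lit 56677), (nat_lit 300), (nat_lit 775), (nat_lit 16088604), (nat_lit 714491), [(nat_lit 2027452000), (nat_lit 2895948000), (nat_lit 3378400000)], [], [(nat_lit 14031518092), (nat_lit 13457737839), (nat_lit 14016443430), (nat_lit 13438350423), (nat_lit 11857688430), (nat_lit 11314427797), (nat_lit 11806171773), (nat_lit 11206406512)], (nat_lit 780000), (nat_lit 1271251), (nat_lit 1271251), (nat_lit 1271251), (nat_lit 0), (nat_lit 780000), [(nat_lit 1977501), (nat_lit 1271251), (nat_lit 1271251)], [(nat_lit 32), (nat_lit 67), (nat_lit 401), (nat_lit 175), (nat_lit 9)]⟩⟩))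 (.stt (nat_lit 2) (.spl (nat_lit 0) (nat_lit 310) (.spl (nat_lit 6) (nat_lit 28) (.leaf ⟨(nat_lit 0), (nat_lit 59), (nat_lit 0), (nat_lit 941), (nat_lit 0), (nat_lit 7925), (nat_lit 17200), (nat_lit 10758), (nat_lit 0), (nat_lit 0), (nat_lit 0), [], Pd.none, Pd.none, (nat_lit 0), (nat_lit 1), (nat_lit 0), (nat_lit 0), (nat_lit 6), (nat_lit 0), [], [], [], [],
 ⟨⟨[(nat_lit 60), (nat_lit 100), (nat_lit 120)], [(nat_lit 0), (nat_lit 609), (nat_lit 1609)], [((nat_lit 0), (nat_lit 0), (nat_lit 0)), ((nat_lit 1000), (nat_lit 905), (nat_lit 238)), ((nat_lit 1000), (nat_lit 882), (nat_lit 668))], ((nat_lit 87), (nat_lit 100), (nat_lit 51))⟩, (nat_lit 3222801), (nat_lit 132), (nat_lit 132), (nat_lit 0), (nat_lit 77248), [(nat_lit 4510629675), (nat_lit 6336549722), (nat_lit 7968000000)], [], [(nat_lit 18484712704), (nat_lit 19219577748), (nat_lit 23916372738), (nat_lit 24646926544), (nat_lit 30587506732), (nat_lit 31241525100), (nat_lit 32685693991), (nat_lit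 33135297733)], (nat_lit 1271251), (nat_lit 1271251), (nat_lit 780000), (nat_lit 2090001), (nat_lit 1271251), (nat_lit 1271251), [(nat_lit 780000), (nat_lit 1435001), (nat_lit 1271251)], [(nat_lit 10), (nat_lit 54), (nat_lit 289), (nat_lit 75), (nat_lit 8)]⟩,
 ⟨⟨[(nat_lit 80), (nat_lit 120), (nat_lit 140)], [(nat_lit 0), (nat_lit 0), (nat_lit 1164)], [((nat_lit 0), (nat_lit 0), (nat_lit 0)), ((nat_lit 0), (nat_lit 0), (nat_lit 0)), ((nat_lit 941), (nat_lit 1000), (nat_lit 576))], ((nat_lit 100), (nat_lit 96), (nat_lit 52))⟩, (nat_lit 0), (nat_lit 116), (nat_lit 116), (nat_lit 0), (nat_lit 0), [(nat_lit 4688000000), (nat_lit 7968000000), (nat_lit 9842000000)], [], [(nat_lit 3390450000), (nat_lit 10000081900), (nat_lit 15756901200), (nat_lit 22279512400), (nat_lit 41888546000), (nat_lit 45373991200), (nat_lit 42265846000), (nat_lit 44379250400)], (nat_lit 0), (nat_lit 0), (nat_lit 0), (nat_lit 0), (nat_lit 0), (nat_lit 0), [], [(nat_lit 17), (nat_lit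 58), (nat_lit 483), (nat_lit 250), (nat_lit 14)]⟩,
 ⟨⟨[(nat_lit 140), (nat_lit 180), (nat_lit 200)], [(nat_lit 0), (nat_lit 0), (nat_lit 2835)], [((nat_lit 0), (nat_lit 0), (nat_lit 0)), ((nat_lit 0), (nat_lit 0), (nat_lit 0)), ((nat_lit 363), (nat_lit 1000), (nat_lit 798))], ((nat_lit 0), (nat_lit 0), (nat_lit 0))⟩, (nat_lit 258899), (nat_lit 300), (nat_lit 603), (nat_lit 73492107), (nat_lit 543632), [(nat_lit 9261322000), (nat_lit 13228578000), (nat_lit 15432400000)], [], [(nat_lit 56789760945), (nat_lit 54641735533), (nat_lit 56787431719), (nat_lit 54404342390), (nat_lit 52497538840), (nat_lit 50040177275), (nat_lit 51027745324), (nat_lit 48509216121)], (nat_lit 780000), (nat_lit 1271251), (nat_lit 1271251), (nat_lit 1271251), (nat_lit 780000), (nat_lit 3072501), [(nat_lit 1977501), (nat_lit 1271251), (nat_lit 1271251)], [(nat_lit 32), (nat_lit 67), (nat_lit 483), (nat_lit 250), (nat_lit 10)]⟩⟩) (.dle (nat_lit 0))) (.trX (nat_lit 4) (nat_lit 0)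 (nat_lit 2) (nat_lit 84) (nat_lit 63) (nat_lit 100) (nat_lit 360) (.leaf ⟨(nat_lit 0), (nat_lit 460), (nat_lit 0), (nat_lit 540), (nat_lit 0), (nat_lit 5987), (nat_lit 8830), (nat_lit 5914), (nat_lit 0), (nat_lit 0), (nat_lit 0), [], Pd.none, Pd.none, (nat_lit 0), (nat_lit 1), (nat_lit 0), (nat_lit 0), (nat_lit 6), (nat_lit 0), [], [⟨(nat_lit 1), (nat_lit 79), (nat_lit 84), (nat_lit 100), (nat_lit 185790937)⟩], [], [],
 ⟨⟨[(nat_lit 60), (nat_lit 100), (nat_lit 120)], [(nat_lit 0), (nat_lit 909), (nat_lit 1866)], [((nat_lit 0), (nat_lit 0), (nat_lit 0)), ((nat_lit 1000), (nat_lit 858), (nat_lit 354)), ((nat_lit 1000), (nat_lit 849), (nat_lit 705))], ((nat_lit 84), (nat_lit 100), (nat_lit 60))⟩, (nat_lit 3318230), (nat_lit 154), (nat_lit 154), (nat_lit 0), (nat_lit 154111), [(nat_lit 3282000003), (nat_lit 6250000003), (nat_lit 7968000000)], [], [(nat_lit 19728736469), (nat_lit 20344479950), (nat_lit 23927826315), (nat_lit 24555880754), (nat_lit 28039428629),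 (nat_lit 28633214487), (nat_lit 30622360613), (nat_lit 31045347316)], (nat_lit 1271251), (nat_lit 1271251), (nat_lit 780000), (nat_lit 2090001), (nat_lit 1271251), (nat_lit 1271251), [(nat_lit 780000), (nat_lit 1435001), (nat_lit 1271251)], [(nat_lit 10), (nat_lit 54), (nat_lit 289), (nat_lit 75), (nat_lit 8)]⟩,
 ⟨⟨[(nat_lit 80), (nat_lit 120), (nat_lit 160)], [(nat_lit 0), (nat_lit 0), (nat_lit 2132)], [((nat_lit 0), (nat_lit 0), (nat_lit 0)), ((nat_lit 0), (nat_lit 0), (nat_lit 0)), ((nat_lit 858), (nat_lit 1000), (nat_lit 713))], ((nat_lit 100), (nat_lit 92), (nat_lit 61))⟩, (nat_lit 5184711), (nat_lit 165), (nat_lit 165), (nat_lit 0), (nat_lit 0), [(nat_lit 4688000000), (nat_lit 7968000000), (nat_lit 11872000000)], [], [(nat_lit 14940887268), (nat_lit 18049674648), (nat_lit 21352213830), (nat_lit 24124299085), (nat_lit 32299848920), (nat_lit 33962662560), (nat_lit 33682494700), (nat_lit 35272715510)], (nat_lit 0), (nat_lit 0), (nat_lit 0), (nat_lit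 0), (nat_lit 0), (nat_lit 0), [], [(nat_lit 18), (nat_lit 59), (nat_lit 483), (nat_lit 250), (nat_lit 12)]⟩,
 ⟨⟨[(nat_lit 140), (nat_lit 180), (nat_lit 200)], [(nat_lit 0), (nat_lit 0), (nat_lit 2835)], [((nat_lit 0), (nat_lit 0), (nat_lit 0)), ((nat_lit 0), (nat_lit 0), (nat_lit 0)), ((nat_lit 363), (nat_lit 1000), (nat_lit 798))], ((nat_lit 0), (nat_lit 0), (nat_lit 0))⟩, (nat_lit 148571), (nat_lit 300), (nat_lit 887), (nat_lit 42174007), (nat_lit 1154350), [(nat_lit 5314680000), (nat_lit 7591320000), (nat_lit 8856000000)], [], [(nat_lit 34890077995), (nat_lit 33604436778), (nat_lit 34065461092), (nat_lit 32721858602), (nat_lit 31371667344), (nat_lit 30004890148), (nat_lit 30121775164), (nat_lit 28718657980)], (nat_lit 780000), (nat_lit 1271251), (nat_lit 1271251), (nat_lit 1271251), (nat_lit 780000), (nat_lit 3072501), [(nat_lit 1977501), (nat_lit 1271251), (nat_lit 1271251)], [(nat_lit 32), (nat_lit 67), (nat_lit 483), (nat_lit 250), (nat_lit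 10)]⟩⟩))) (.leaf ⟨(nat_lit 0), (nat_lit 427), (nat_lit 0), (nat_lit 573), (nat_lit 0), (nat_lit 5987), (nat_lit 4431), (nat_lit 6292), (nat_lit 0), (nat_lit 0), (nat_lit 0), [], Pd.none, Pd.none, (nat_lit 0), (nat_lit 1), (nat_lit 0), (nat_lit 0), (nat_lit 6), (nat_lit 0), [], [⟨(nat_lit 1), (nat_lit 77), (nat_lit 86), (nat_lit 100), (nat_lit 44432603)⟩], [], [],
 ⟨⟨[(nat_lit 60), (nat_lit 100), (nat_lit 120)], [(nat_lit 0), (nat_lit 609), (nat_lit 1609)], [((nat_lit 0), (nat_lit 0), (nat_lit 0)), ((nat_lit 1000), (nat_lit 905), (nat_lit 238)), ((nat_lit 1000), (nat_lit 882), (nat_lit 668))], ((nat_lit 87), (nat_lit 100), (nat_lit 60))⟩, (nat_lit 3175546), (nat_lit 139), (nat_lit 139), (nat_lit 0), (nat_lit 93435), [(nat_lit 3282000021), (nat_lit 6250000002), (nat_lit 7968000000)], [], [(nat_lit 20195356561), (nat_lit 21426843523), (nat_lit 24298944445), (nat_lit 25282002038), (nat_lit 28352614337), (nat_lit 29490187502), (nat_lit 30870979619), (nat_lit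 31682023849)], (nat_lit 1271251), (nat_lit 1271251), (nat_lit 780000), (nat_lit 2090001), (nat_lit 1271251), (nat_lit 1271251), [(nat_lit 780000), (nat_lit 1435001), (nat_lit 1271251)], [(nat_lit 10), (nat_lit 54), (nat_lit 289), (nat_lit 75), (nat_lit 8)]⟩,
 ⟨⟨[(nat_lit 80), (nat_lit 120), (nat_lit 160)], [(nat_lit 0), (nat_lit 0), (nat_lit 2132)], [((nat_lit 0), (nat_lit 0), (nat_lit 0)), ((nat_lit 0), (nat_lit 0), (nat_lit 0)), ((nat_lit 858), (nat_lit 1000), (nat_lit 713))], ((nat_lit 100), (nat_lit 92), (nat_lit 61))⟩, (nat_lit 1871823), (nat_lit 241), (nat_lit 241), (nat_lit 0), (nat_lit 218599), [(nat_lit 4688000000), (nat_lit 7968000000), (nat_lit 11872000000)], [], [(nat_lit 34793122593), (nat_lit 30140590317), (nat_lit 37434178483), (nat_lit 33921084564), (nat_lit 46385542768), (nat_lit 42397806715), (nat_lit 59093616202), (nat_lit 55301309404)], (nat_lit 1271251), (nat_lit 1271251), (nat_lit 780000), (nat_lit 2090001), (nat_lit 780000),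 (nat_lit 3072501), [(nat_lit 1100000), (nat_lit 1785001), (nat_lit 1271251)], [(nat_lit 18), (nat_lit 59), (nat_lit 483), (nat_lit 250), (nat_lit 12)]⟩,
 ⟨⟨[(nat_lit 140), (nat_lit 180), (nat_lit 200)], [(nat_lit 0), (nat_lit 0), (nat_lit 2835)], [((nat_lit 0), (nat_lit 0), (nat_lit 0)), ((nat_lit 0), (nat_lit 0), (nat_lit 0)), ((nat_lit 363), (nat_lit 1000), (nat_lit 798))], ((nat_lit 0), (nat_lit 0), (nat_lit 0))⟩, (nat_lit 157651), (nat_lit 300), (nat_lit 679), (nat_lit 44751300), (nat_lit 714491), [(nat_lit 5639466000), (nat_lit 8055234000), (nat_lit 9397200000)], [], [(nat_lit 35464377207), (nat_lit 34193440917), (nat_lit 35188262220), (nat_lit 33813129154), (nat_lit 32728738792), (nat_lit 31309137325), (nat_lit 31887435464), (nat_lit 30386147229)], (nat_lit 780000), (nat_lit 1271251), (nat_lit 1271251), (nat_lit 1271251), (nat_lit 780000), (nat_lit 3072501), [(nat_lit 1977501), (nat_lit 1271251), (nat_lit 1271251)], [(nat_lit 32), (nat_lit 67),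 (nat_lit 483), (nat_lit 250), (nat_lit 10)]⟩⟩)))
noncomputable def c4_50 : Tr Lf :=
 (.trX (nat_lit 5) (nat_lit 1) (nat_lit 2) (nat_lit 92) (nat_lit 49) (nat_lit 100) (nat_lit 380) (.spl (nat_lit 5) (nat_lit 200) (.spl (nat_lit 5) (nat_lit 120) (.spl (nat_lit 0) (nat_lit 310) (.ord (.leaf ⟨(nat_lit 0), (nat_lit 861), (nat_lit 0), (nat_lit 139), (nat_lit 9641), (nat_lit 6524), (nat_lit 8872), (nat_lit 1747), (nat_lit 4215), (nat_lit 0), (nat_lit 0), [], Pd.none, Pd.none, (nat_lit 0), (nat_lit 1), (nat_lit 0), (nat_lit 0), (nat_lit 6), (nat_lit 0), [], [⟨(nat_lit 1), (nat_lit 74), (nat_lit 88), (nat_lit 100), (nat_lit 187577460)⟩], [], [⟨(nat_lit 0), (nat_lit 85), (nat_lit 100), (nat_lit 53), (nat_lit 330815659)⟩],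
 ⟨⟨[(nat_lit 60), (nat_lit 100), (nat_lit 120)], [(nat_lit 0), (nat_lit 609), (nat_lit 1609)], [((nat_lit 0), (nat_lit 0), (nat_lit 0)), ((nat_lit 1000), (nat_lit 905), (nat_lit 238)), ((nat_lit 1000), (nat_lit 882), (nat_lit 668))], ((nat_lit 87), (nat_lit 100), (nat_lit 60))⟩, (nat_lit 2354082), (nat_lit 202), (nat_lit 202), (nat_lit 0), (nat_lit 292352), [(nat_lit 3353053808), (nat_lit 6250000001), (nat_lit 7968000000)], [], [(nat_lit 23063577419), (nat_lit 23564595537), (nat_lit 25756190667), (nat_lit 26113982292), (nat_lit 29229792576), (nat_lit 29564283626), (nat_lit 31373818431), (nat_lit 31791555115)], (nat_lit 1271251), (nat_lit 1271251), (nat_lit 780000), (nat_lit 2090001), (nat_lit 1271251), (nat_lit 1271251), [(nat_lit 780000), (nat_lit 1435001), (nat_lit 1271251)], [(nat_lit 10), (nat_lit 54), (nat_lit 289), (nat_lit 75), (nat_lit 8)]⟩,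
 ⟨⟨[(nat_lit 60), (nat_lit 100), (nat_lit 140)], [(nat_lit 0), (nat_lit 0), (nat_lit 2047)], [((nat_lit 0), (nat_lit 0), (nat_lit 0)), ((nat_lit 0), (nat_lit 0), (nat_lit 0)), ((nat_lit 1000), (nat_lit 993), (nat_lit 781))], ((nat_lit 94), (nat_lit 100), (nat_lit 62))⟩, (nat_lit 3496190), (nat_lit 320), (nat_lit 320), (nat_lit 0), (nat_lit 247439), [(nat_lit 3282000000), (nat_lit 6250000000), (nat_lit 9842000000)], [], [(nat_lit 27534479192), (nat_lit 25452333030), (nat_lit 30193585072), (nat_lit 31364457492), (nat_lit 17739853966), (nat_lit 19780141516), (nat_lit 36612687068), (nat_lit 30623291915)], (nat_lit 1271251), (nat_lit 1271251), (nat_lit 780000), (nat_lit 2090001), (nat_lit 0), (nat_lit 780000), [(nat_lit 780000), (nat_lit 1435001), (nat_lit 1271251)], [(nat_lit 11), (nat_lit 55), (nat_lit 317), (nat_lit 100), (nat_lit 9)]⟩,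
 ⟨⟨[(nat_lit 140), (nat_lit 180), (nat_lit 200)], [(nat_lit 0), (nat_lit 0), (nat_lit 2835)], [((nat_lit 0), (nat_lit 0), (nat_lit 0)), ((nat_lit 0), (nat_lit 0), (nat_lit 0)), ((nat_lit 363), (nat_lit 1000), (nat_lit 798))], ((nat_lit 0), (nat_lit 0), (nat_lit 0))⟩, (nat_lit 38243), (nat_lit 300), (nat_lit 1012), (nat_lit 10855906), (nat_lit 1214233), [(nat_lit 1368038000), (nat_lit 1954062000), (nat_lit 2279600000)], [], [(nat_lit 9493954772), (nat_lit 9113041452), (nat_lit 9487087061), (nat_lit 9066845152), (nat_lit 8116138204), (nat_lit 7723332474), (nat_lit 8016970619), (nat_lit 7618598459)], (nat_lit 780000), (nat_lit 1271251), (nat_lit 1271251), (nat_lit 1271251), (nat_lit 0), (nat_lit 780000), [(nat_lit 1977501), (nat_lit 1271251), (nat_lit 1271251)], [(nat_lit 32), (nat_lit 67), (nat_lit 401), (nat_lit 175), (nat_lit 9)]⟩⟩)) (.trX (nat_lit 4) (nat_lit 0) (nat_lit 2) (nat_lit 84) (nat_lit 63) (nat_lit 100) (nat_lit 360) (.leaf ⟨(nat_lit 0),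 (nat_lit 875), (nat_lit 0), (nat_lit 125), (nat_lit 0), (nat_lit 6298), (nat_lit 8669), (nat_lit 1611), (nat_lit 43679), (nat_lit 0), (nat_lit 0), [], Pd.none, Pd.none, (nat_lit 0), (nat_lit 1), (nat_lit 0), (nat_lit 0), (nat_lit 6), (nat_lit 0), [], [⟨(nat_lit 1), (nat_lit 79), (nat_lit 84), (nat_lit 100), (nat_lit 363840769)⟩], [⟨(nat_lit 0), (nat_lit 100), (nat_lit 89), (nat_lit 28), (nat_lit 210230114)⟩], [⟨(nat_lit 0), (nat_lit 87), (nat_lit 100), (nat_lit 50), (nat_lit 86107703)⟩],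
 ⟨⟨[(nat_lit 60), (nat_lit 100), (nat_lit 120)], [(nat_lit 0), (nat_lit 909), (nat_lit 1866)], [((nat_lit 0), (nat_lit 0), (nat_lit 0)), ((nat_lit 1000), (nat_lit 858), (nat_lit 354)), ((nat_lit 1000), (nat_lit 849), (nat_lit 705))], ((nat_lit 84), (nat_lit 100), (nat_lit 60))⟩, (nat_lit 2230591), (nat_lit 260), (nat_lit 260), (nat_lit 0), (nat_lit 422641), [(nat_lit 3282000017), (nat_lit 6250000011), (nat_lit 7968000000)], [], [(nat_lit 23064815248), (nat_lit 23506839395), (nat_lit 25585270008), (nat_lit 25938986570), (nat_lit 28384119490), (nat_lit 28992575298), (nat_lit 30902431352), (nat_lit 31333230064)], (nat_lit 1271251), (nat_lit 1271251), (nat_lit 780000), (nat_lit 2090001), (nat_lit 1271251), (nat_lit 1271251), [(nat_lit 780000), (nat_lit 1435001), (nat_lit 1271251)], [(nat_lit 10), (nat_lit 54), (nat_lit 289), (nat_lit 75), (nat_lit 8)]⟩,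
 ⟨⟨[(nat_lit 60), (nat_lit 100), (nat_lit 140)], [(nat_lit 0), (nat_lit 0), (nat_lit 2047)], [((nat_lit 0), (nat_lit 0), (nat_lit 0)), ((nat_lit 0), (nat_lit 0), (nat_lit 0)), ((nat_lit 1000), (nat_lit 993), (nat_lit 781))], ((nat_lit 94), (nat_lit 100), (nat_lit 62))⟩, (nat_lit 2129435), (nat_lit 364), (nat_lit 364), (nat_lit 0), (nat_lit 363280), [(nat_lit 3282000000), (nat_lit 6250000000), (nat_lit 9842000000)], [], [(nat_lit 27648096059), (nat_lit 29151649055), (nat_lit 30557727375), (nat_lit 33275529703), (nat_lit 20881738622), (nat_lit 23565972797), (nat_lit 36805216024), (nat_lit 29002080078)], (nat_lit 1271251), (nat_lit 1271251), (nat_lit 780000), (nat_lit 2090001), (nat_lit 0), (nat_lit 780000), [(nat_lit 780000), (nat_lit 1435001), (nat_lit 1271251)], [(nat_lit 11), (nat_lit 55), (nat_lit 317), (nat_lit 100), (nat_lit 9)]⟩,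
 ⟨⟨[(nat_lit 140), (nat_lit 180), (nat_lit 200)], [(nat_lit 0), (nat_lit 0), (nat_lit 2835)], [((nat_lit 0), (nat_lit 0), (nat_lit 0)), ((nat_lit 0), (nat_lit 0), (nat_lit 0)), ((nat_lit 363), (nat_lit 1000), (nat_lit 798))], ((nat_lit 0), (nat_lit 0), (nat_lit 0))⟩, (nat_lit 34392), (nat_lit 300), (nat_lit 1300), (nat_lit 9762500), (nat_lit 1875495), [(nat_lit 1230250000), (nat_lit 1757250000), (nat_lit 2050000000)], [], [(nat_lit 8489337668), (nat_lit 8135197002), (nat_lit 8462362060), (nat_lit 8108528819), (nat_lit 7150873084), (nat_lit 6815532479), (nat_lit 7105183308), (nat_lit 6738367429)], (nat_lit 780000), (nat_lit 1271251), (nat_lit 1271251), (nat_lit 1271251), (nat_lit 0), (nat_lit 780000), [(nat_lit 1977501), (nat_lit 1271251), (nat_lit 1271251)], [(nat_lit 32), (nat_lit 67), (nat_lit 408), (nat_lit 175), (nat_lit 9)]⟩⟩))) (.leaf ⟨(nat_lit 0), (nat_lit 884), (nat_lit 0), (nat_lit 116), (nat_lit 0), (nat_lit 6451), (nat_lit 10119), (nat_lit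 1353), (nat_lit 27572), (nat_lit 0), (nat_lit 0), [], Pd.none, Pd.none, (nat_lit 0), (nat_lit 1), (nat_lit 0), (nat_lit 0), (nat_lit 6), (nat_lit 0), [], [⟨(nat_lit 1), (nat_lit 77), (nat_lit 86), (nat_lit 100), (nat_lit 435996897)⟩], [], [],
 ⟨⟨[(nat_lit 60), (nat_lit 100), (nat_lit 120)], [(nat_lit 0), (nat_lit 609), (nat_lit 1609)], [((nat_lit 0), (nat_lit 0), (nat_lit 0)), ((nat_lit 1000), (nat_lit 905), (nat_lit 238)), ((nat_lit 1000), (nat_lit 882), (nat_lit 668))], ((nat_lit 87), (nat_lit 100), (nat_lit 60))⟩, (nat_lit 2323194), (nat_lit 264), (nat_lit 264), (nat_lit 0), (nat_lit 426188), [(nat_lit 3342698850), (nat_lit 6250000001), (nat_lit 7968000000)], [], [(nat_lit 23315150911), (nat_lit 24268901305), (nat_lit 25968083530), (nat_lit 26681034217), (nat_lit 29401475930), (nat_lit 30066602067), (nat_lit 31305462317), (nat_lit 32137614777)], (nat_lit 1271251), (nat_lit 1271251), (nat_lit 780000), (nat_lit 2090001), (nat_lit 1271251), (nat_lit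 1271251), [(nat_lit 780000), (nat_lit 1435001), (nat_lit 1271251)], [(nat_lit 10), (nat_lit 54), (nat_lit 289), (nat_lit 75), (nat_lit 8)]⟩,
 ⟨⟨[(nat_lit 60), (nat_lit 100), (nat_lit 140)], [(nat_lit 0), (nat_lit 0), (nat_lit 2047)], [((nat_lit 0), (nat_lit 0), (nat_lit 0)), ((nat_lit 0), (nat_lit 0), (nat_lit 0)), ((nat_lit 1000), (nat_lit 993), (nat_lit 781))], ((nat_lit 94), (nat_lit 100), (nat_lit 62))⟩, (nat_lit 3823204), (nat_lit 314), (nat_lit 314), (nat_lit 0), (nat_lit 441472), [(nat_lit 3282000000), (nat_lit 6250000000), (nat_lit 9842000000)], [], [(nat_lit 14956470829), (nat_lit 18389401951), (nat_lit 21788576431), (nat_lit 24778253297), (nat_lit 15719801365), (nat_lit 18858600270), (nat_lit 32462009199), (nat_lit 25127792246)], (nat_lit 1271251), (nat_lit 1271251), (nat_lit 780000), (nat_lit 2090001), (nat_lit 780000), (nat_lit 1435001), [(nat_lit 780000), (nat_lit 1435001), (nat_lit 1271251)], [(nat_lit 11), (nat_lit 55), (nat_lit 345),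 (nat_lit 125), (nat_lit 9)]⟩,
 ⟨⟨[(nat_lit 140), (nat_lit 180), (nat_lit 200)], [(nat_lit 0), (nat_lit 0), (nat_lit 2835)], [((nat_lit 0), (nat_lit 0), (nat_lit 0)), ((nat_lit 0), (nat_lit 0), (nat_lit 0)), ((nat_lit 363), (nat_lit 1000), (nat_lit 798))], ((nat_lit 0), (nat_lit 0), (nat_lit 0))⟩, (nat_lit 31915), (nat_lit 300), (nat_lit 1847), (nat_lit 9059605), (nat_lit 3198724), [(nat_lit 1141672000), (nat_lit 1630728000), (nat_lit 1902400000)], [], [(nat_lit 7197465938), (nat_lit 6890672562), (nat_lit 6971614574), (nat_lit 6657224823), (nat_lit 6785354670), (nat_lit 6479763083), (nat_lit 6548810353), (nat_lit 6235716981)], (nat_lit 780000), (nat_lit 1271251), (nat_lit 1271251), (nat_lit 1271251), (nat_lit 780000), (nat_lit 1435001), [(nat_lit 1977501), (nat_lit 1271251), (nat_lit 1271251)], [(nat_lit 32), (nat_lit 67), (nat_lit 556), (nat_lit 200), (nat_lit 11)]⟩⟩)) (.stt (nat_lit 2) (.stt (nat_lit 1) (.spl (nat_lit 0) (nat_lit 310) (.ord (.leaf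 ⟨(nat_lit 0), (nat_lit 884), (nat_lit 0), (nat_lit 116), (nat_lit 0), (nat_lit 7290), (nat_lit 7136), (nat_lit 1271), (nat_lit 1367671), (nat_lit 0), (nat_lit 0), [], Pd.none, Pd.none, (nat_lit 0), (nat_lit 1), (nat_lit 0), (nat_lit 0), (nat_lit 6), (nat_lit 0), [], [⟨(nat_lit 1), (nat_lit 74), (nat_lit 88), (nat_lit 100), (nat_lit 283486853)⟩], [⟨(nat_lit 1), (nat_lit 70), (nat_lit 91), (nat_lit 100), (nat_lit 241261528)⟩], [⟨(nat_lit 2), (nat_lit 100), (nat_lit 95), (nat_lit 95), (nat_lit 237212316)⟩],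
 ⟨⟨[(nat_lit 60), (nat_lit 100), (nat_lit 120)], [(nat_lit 0), (nat_lit 609), (nat_lit 1609)], [((nat_lit 0), (nat_lit 0), (nat_lit 0)), ((nat_lit 1000), (nat_lit 905), (nat_lit 238)), ((nat_lit 1000), (nat_lit 882), (nat_lit 668))], ((nat_lit 87), (nat_lit 100), (nat_lit 60))⟩, (nat_lit 0), (nat_lit 89), (nat_lit 89), (nat_lit 0), (nat_lit 0), [(nat_lit 3944290953), (nat_lit 6250000076), (nat_lit 7968000000)], [], [(nat_lit 20790094371), (nat_lit 21563023384), (nat_lit 25105510766), (nat_lit 25643842671), (nat_lit 29986946719), (nat_lit 30481319293), (nat_lit 32091089437), (nat_lit 32526249509)], (nat_lit 0), (nat_lit 0), (nat_lit 0), (nat_lit 0), (nat_lit 0), (nat_lit 0), [], [(nat_lit 10), (nat_lit 54), (nat_lit 289), (nat_lit 75), (nat_lit 8)]⟩,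
 ⟨⟨[(nat_lit 60), (nat_lit 100), (nat_lit 140)], [(nat_lit 0), (nat_lit 0), (nat_lit 2047)], [((nat_lit 0), (nat_lit 0), (nat_lit 0)), ((nat_lit 0), (nat_lit 0), (nat_lit 0)), ((nat_lit 1000), (nat_lit 993), (nat_lit 781))], ((nat_lit 94), (nat_lit 100), (nat_lit 62))⟩, (nat_lit 0), (nat_lit 94), (nat_lit 94), (nat_lit 0), (nat_lit 0), [(nat_lit 3282000000), (nat_lit 6250000000), (nat_lit 9842000000)], [], [(nat_lit 17644903024), (nat_lit 20163392410), (nat_lit 23096026440), (nat_lit 24852345078), (nat_lit 29876860592), (nat_lit 31281289109), (nat_lit 31865597352), (nat_lit 33099995235)], (nat_lit 0), (nat_lit 0), (nat_lit 0), (nat_lit 0), (nat_lit 0), (nat_lit 0), [], [(nat_lit 11), (nat_lit 55), (nat_lit 401), (nat_lit 175), (nat_lit 11)]⟩,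
 ⟨⟨[(nat_lit 140), (nat_lit 180), (nat_lit 200)], [(nat_lit 0), (nat_lit 0), (nat_lit 2835)], [((nat_lit 0), (nat_lit 0), (nat_lit 0)), ((nat_lit 0), (nat_lit 0), (nat_lit 0)), ((nat_lit 363), (nat_lit 1000), (nat_lit 798))], ((nat_lit 0), (nat_lit 0), (nat_lit 0))⟩, (nat_lit 31915), (nat_lit 300), (nat_lit 1261), (nat_lit 9059605), (nat_lit 2060418), [(nat_lit 1141672000), (nat_lit 1630728000), (nat_lit 1902400000)], [], [(nat_lit 7352932332), (nat_lit 7070306524), (nat_lit 6998791397), (nat_lit 6711529797), (nat_lit 6807226951), (nat_lit 6519869104), (nat_lit 6479773064), (nat_lit 6178675198)], (nat_lit 780000), (nat_lit 1271251), (nat_lit 1271251), (nat_lit 1271251), (nat_lit 1271251), (nat_lit 1271251), [(nat_lit 1977501), (nat_lit 1271251), (nat_lit 1271251)], [(nat_lit 32), (nat_lit 67), (nat_lit 483), (nat_lit 250), (nat_lit 10)]⟩⟩)) (.trX (nat_lit 4) (nat_lit 0) (nat_lit 2) (nat_lit 84) (nat_lit 63) (nat_lit 100) (nat_lit 360) (.leaf ⟨(nat_lit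 0), (nat_lit 953), (nat_lit 0), (nat_lit 47), (nat_lit 0), (nat_lit 7449), (nat_lit 7074), (nat_lit 525), (nat_lit 11358), (nat_lit 0), (nat_lit 0), [], Pd.none, Pd.none, (nat_lit 0), (nat_lit 1), (nat_lit 0), (nat_lit 0), (nat_lit 6), (nat_lit 0), [], [⟨(nat_lit 1), (nat_lit 79), (nat_lit 84), (nat_lit 100), (nat_lit 159343109)⟩], [], [⟨(nat_lit 2), (nat_lit 50), (nat_lit 87), (nat_lit 100), (nat_lit 236522258)⟩, ⟨(nat_lit 2), (nat_lit 100), (nat_lit 97), (nat_lit 94), (nat_lit 239312021)⟩],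
 ⟨⟨[(nat_lit 60), (nat_lit 100), (nat_lit 120)], [(nat_lit 0), (nat_lit 909), (nat_lit 1866)], [((nat_lit 0), (nat_lit 0), (nat_lit 0)), ((nat_lit 1000), (nat_lit 858), (nat_lit 354)), ((nat_lit 1000), (nat_lit 849), (nat_lit 705))], ((nat_lit 84), (nat_lit 100), (nat_lit 60))⟩, (nat_lit 0), (nat_lit 86), (nat_lit 86), (nat_lit 0), (nat_lit 0), [(nat_lit 3936861438), (nat_lit 6250000003), (nat_lit 7968000000)], [], [(nat_lit 21428047694), (nat_lit 22210915995), (nat_lit 25511988748), (nat_lit 26056031853), (nat_lit 29659634900), (nat_lit 30322556949), (nat_lit 31938963251), (nat_lit 32398673932)], (nat_lit 0), (nat_lit 0), (nat_lit 0), (nat_lit 0), (nat_lit 0), (nat_lit 0), [], [(nat_lit 10), (nat_lit 54), (nat_lit 289), (nat_lit 75), (nat_lit 8)]⟩,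
 ⟨⟨[(nat_lit 60), (nat_lit 100), (nat_lit 140)], [(nat_lit 0), (nat_lit 0), (nat_lit 2047)], [((nat_lit 0), (nat_lit 0), (nat_lit 0)), ((nat_lit 0), (nat_lit 0), (nat_lit 0)), ((nat_lit 1000), (nat_lit 993), (nat_lit 781))], ((nat_lit 94), (nat_lit 100), (nat_lit 62))⟩, (nat_lit 0), (nat_lit 96), (nat_lit 96), (nat_lit 0), (nat_lit 0), [(nat_lit 3282000000), (nat_lit 6250000000), (nat_lit 9842000000)], [], [(nat_lit 17714684241), (nat_lit 21054962548), (nat_lit 23154892960), (nat_lit 25486243266), (nat_lit 29887772778), (nat_lit 31789399181), (nat_lit 31806288493), (nat_lit 33447099864)], (nat_lit 0), (nat_lit 0), (nat_lit 0), (nat_lit 0), (nat_lit 0), (nat_lit 0), [], [(nat_lit 11), (nat_lit 55), (nat_lit 401), (nat_lit 175), (nat_lit 11)]⟩,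
 ⟨⟨[(nat_lit 140), (nat_lit 180), (nat_lit 200)], [(nat_lit 0), (nat_lit 0), (nat_lit 2835)], [((nat_lit 0), (nat_lit 0), (nat_lit 0)), ((nat_lit 0), (nat_lit 0), (nat_lit 0)), ((nat_lit 363), (nat_lit 1000), (nat_lit 798))], ((nat_lit 0), (nat_lit 0), (nat_lit 0))⟩, (nat_lit 12931), (nat_lit 300), (nat_lit 1806), (nat_lit 3670704), (nat_lit 3198724), [(nat_lit 462574000), (nat_lit 660726000), (nat_lit 770800000)], [], [(nat_lit 2943302993), (nat_lit 2833314878), (nat_lit 2781505416), (nat_lit 2671492975), (nat_lit 2689659965), (nat_lit 2579892866), (nat_lit 2589976053), (nat_lit 2466198623)], (nat_lit 780000), (nat_lit 1271251), (nat_lit 1271251), (nat_lit 1271251), (nat_lit 1271251), (nat_lit 1271251), [(nat_lit 1977501), (nat_lit 1271251), (nat_lit 1271251)], [(nat_lit 32), (nat_lit 67), (nat_lit 567), (nat_lit 250), (nat_lit 11)]⟩⟩))) (.leaf ⟨(nat_lit 0), (nat_lit 854), (nat_lit 0), (nat_lit 146), (nat_lit 0), (nat_lit 6346), (nat_lit 7048), (nat_lit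 1607), (nat_lit 5256664), (nat_lit 0), (nat_lit 0), [], Pd.none, Pd.none, (nat_lit 0), (nat_lit 1), (nat_lit 0), (nat_lit 0), (nat_lit 6), (nat_lit 0), [⟨(nat_lit 0), (nat_lit 83), (nat_lit 83), (nat_lit 100), (nat_lit 37801890)⟩], [⟨(nat_lit 1), (nat_lit 77), (nat_lit 86), (nat_lit 100), (nat_lit 143517809)⟩], [⟨(nat_lit 1), (nat_lit 72), (nat_lit 89), (nat_lit 100), (nat_lit 198276842)⟩], [⟨(nat_lit 2), (nat_lit 100), (nat_lit 95), (nat_lit 95), (nat_lit 246752150)⟩],
 ⟨⟨[(nat_lit 60), (nat_lit 100), (nat_lit 120)], [(nat_lit 0), (nat_lit 609), (nat_lit 1609)], [((nat_lit 0), (nat_lit 0), (nat_lit 0)), ((nat_lit 1000), (nat_lit 905), (nat_lit 238)), ((nat_lit 1000), (nat_lit 882), (nat_lit 668))], ((nat_lit 87), (nat_lit 100), (nat_lit 60))⟩, (nat_lit 2753722), (nat_lit 264), (nat_lit 264), (nat_lit 0), (nat_lit 426188), [(nat_lit 3282000859), (nat_lit 6250000133), (nat_lit 7968000000)], [], [(nat_lit 22577747165), (nat_lit 23499693753), (nat_lit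 25474847472), (nat_lit 26253804890), (nat_lit 28955559462), (nat_lit 29935761698), (nat_lit 31207141879), (nat_lit 32034517692)], (nat_lit 1271251), (nat_lit 1271251), (nat_lit 780000), (nat_lit 2090001), (nat_lit 1271251), (nat_lit 1271251), [(nat_lit 780000), (nat_lit 1435001), (nat_lit 1271251)], [(nat_lit 10), (nat_lit 54), (nat_lit 289), (nat_lit 75), (nat_lit 8)]⟩,
 ⟨⟨[(nat_lit 60), (nat_lit 100), (nat_lit 140)], [(nat_lit 0), (nat_lit 0), (nat_lit 2047)], [((nat_lit 0), (nat_lit 0), (nat_lit 0)), ((nat_lit 0), (nat_lit 0), (nat_lit 0)), ((nat_lit 1000), (nat_lit 993), (nat_lit 781))], ((nat_lit 94), (nat_lit 100), (nat_lit 62))⟩, (nat_lit 0), (nat_lit 96), (nat_lit 96), (nat_lit 0), (nat_lit 0), [(nat_lit 3282000000), (nat_lit 6250000000), (nat_lit 9842000000)], [], [(nat_lit 17743947332), (nat_lit 21076799896), (nat_lit 23179578920), (nat_lit 25506564632), (nat_lit 29892348856), (nat_lit 31754902212), (nat_lit 31781417036), (nat_lit 33420109628)],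 (nat_lit 0), (nat_lit 0), (nat_lit 0), (nat_lit 0), (nat_lit 0), (nat_lit 0), [], [(nat_lit 11), (nat_lit 55), (nat_lit 401), (nat_lit 175), (nat_lit 11)]⟩,
 ⟨⟨[(nat_lit 140), (nat_lit 180), (nat_lit 200)], [(nat_lit 0), (nat_lit 0), (nat_lit 2835)], [((nat_lit 0), (nat_lit 0), (nat_lit 0)), ((nat_lit 0), (nat_lit 0), (nat_lit 0)), ((nat_lit 363), (nat_lit 1000), (nat_lit 798))], ((nat_lit 0), (nat_lit 0), (nat_lit 0))⟩, (nat_lit 40169), (nat_lit 300), (nat_lit 1170), (nat_lit 11402605), (nat_lit 1875495), [(nat_lit 1436932000), (nat_lit 2052468000), (nat_lit 2394400000)], [], [(nat_lit 9109916906), (nat_lit 8752326842), (nat_lit 8735030699), (nat_lit 8367012854), (nat_lit 8502772747), (nat_lit 8133767615), (nat_lit 8118486259), (nat_lit 7738876278)], (nat_lit 780000), (nat_lit 1271251), (nat_lit 1271251), (nat_lit 1271251), (nat_lit 1271251), (nat_lit 1271251), [(nat_lit 1977501), (nat_lit 1271251), (nat_lit 1271251)], [(nat_lit 32), (nat_lit 67),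 (nat_lit 483), (nat_lit 250), (nat_lit 10)]⟩⟩)) (.spl (nat_lit 1) (nat_lit 300) (.leaf ⟨(nat_lit 0), (nat_lit 443), (nat_lit 0), (nat_lit 557), (nat_lit 0), (nat_lit 5842), (nat_lit 7582), (nat_lit 5864), (nat_lit 0), (nat_lit 0), (nat_lit 0), [], Pd.none, Pd.none, (nat_lit 0), (nat_lit 1), (nat_lit 0), (nat_lit 0), (nat_lit 6), (nat_lit 0), [⟨(nat_lit 0), (nat_lit 94), (nat_lit 87), (nat_lit 100), (nat_lit 305333272)⟩], [⟨(nat_lit 1), (nat_lit 77), (nat_lit 86), (nat_lit 100), (nat_lit 107753035)⟩], [], [],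
 ⟨⟨[(nat_lit 60), (nat_lit 100), (nat_lit 120)], [(nat_lit 0), (nat_lit 609), (nat_lit 1609)], [((nat_lit 0), (nat_lit 0), (nat_lit 0)), ((nat_lit 1000), (nat_lit 905), (nat_lit 238)), ((nat_lit 1000), (nat_lit 882), (nat_lit 668))], ((nat_lit 87), (nat_lit 100), (nat_lit 60))⟩, (nat_lit 3037012), (nat_lit 161), (nat_lit 161), (nat_lit 0), (nat_lit 162961), [(nat_lit 3282003866), (nat_lit 6250002593), (nat_lit 7968000000)], [], [(nat_lit 20637592783), (nat_lit 21754538475), (nat_lit 24508766647), (nat_lit 25481407585), (nat_lit 28410616482), (nat_lit 29310891395), (nat_lit 30735203776), (nat_lit 31539651684)], (nat_lit 1271251), (nat_lit 1271251), (nat_lit 780000), (nat_lit 2090001), (nat_lit 1271251), (nat_lit 1271251), [(nat_lit 780000), (nat_lit 1435001), (nat_lit 1271251)], [(nat_lit 10), (nat_lit 54), (nat_lit 289), (nat_lit 75), (nat_lit 8)]⟩,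
 ⟨⟨[(nat_lit 60), (nat_lit 100), (nat_lit 140)], [(nat_lit 0), (nat_lit 0), (nat_lit 2047)], [((nat_lit 0), (nat_lit 0), (nat_lit 0)), ((nat_lit 0), (nat_lit 0), (nat_lit 0)), ((nat_lit 1000), (nat_lit 993), (nat_lit 781))], ((nat_lit 94), (nat_lit 100), (nat_lit 62))⟩, (nat_lit 3353182), (nat_lit 235), (nat_lit 235), (nat_lit 0), (nat_lit 324780), [(nat_lit 3282000000), (nat_lit 6250000000), (nat_lit 9842000000)], [], [(nat_lit 21063834249), (nat_lit 22133696821), (nat_lit 24818070461), (nat_lit 25736963183), (nat_lit 30506072839), (nat_lit 31246590102), (nat_lit 32292238499), (nat_lit 33133343026)], (nat_lit 1271251), (nat_lit 1271251), (nat_lit 780000), (nat_lit 2090001), (nat_lit 1271251), (nat_lit 1271251), [(nat_lit 780000), (nat_lit 1435001), (nat_lit 1271251)], [(nat_lit 11), (nat_lit 55), (nat_lit 401), (nat_lit 175), (nat_lit 11)]⟩,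
 ⟨⟨[(nat_lit 140), (nat_lit 180), (nat_lit 200)], [(nat_lit 0), (nat_lit 0), (nat_lit 2835)], [((nat_lit 0), (nat_lit 0), (nat_lit 0)), ((nat_lit 0), (nat_lit 0), (nat_lit 0)), ((nat_lit 363), (nat_lit 1000), (nat_lit 798))], ((nat_lit 0), (nat_lit 0), (nat_lit 0))⟩, (nat_lit 153249), (nat_lit 300), (nat_lit 896), (nat_lit 43501700), (nat_lit 1269079), [(nat_lit 5481994000), (nat_lit 7830306000), (nat_lit 9134800000)], [], [(nat_lit 35407851029), (nat_lit 34148286219), (nat_lit 34338302585), (nat_lit 33024103671), (nat_lit 33553363336), (nat_lit 32232080139), (nat_lit 32329456509), (nat_lit 30954609006)], (nat_lit 780000), (nat_lit 1271251), (nat_lit 1271251), (nat_lit 1271251), (nat_lit 1271251), (nat_lit 1271251), [(nat_lit 1977501), (nat_lit 1271251), (nat_lit 1271251)], [(nat_lit 32), (nat_lit 67), (nat_lit 483), (nat_lit 250), (nat_lit 10)]⟩⟩) (.trX (nat_lit 5) (nat_lit 1) (nat_lit 2) (nat_lit 87) (nat_lit 59) (nat_lit 100) (nat_lit 370) (.leaf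 ⟨(nat_lit 0), (nat_lit 840), (nat_lit 0), (nat_lit 160), (nat_lit 0), (nat_lit 6004), (nat_lit 6484), (nat_lit 1770), (nat_lit 4077984892634), (nat_lit 0), (nat_lit 0), [], Pd.none, Pd.none, (nat_lit 0), (nat_lit 1), (nat_lit 0), (nat_lit 0), (nat_lit 6), (nat_lit 0), [⟨(nat_lit 0), (nat_lit 83), (nat_lit 83), (nat_lit 100), (nat_lit 144773374)⟩], [⟨(nat_lit 1), (nat_lit 77), (nat_lit 86), (nat_lit 100), (nat_lit 224130335)⟩], [⟨(nat_lit 1), (nat_lit 77), (nat_lit 86), (nat_lit 100), (nat_lit 147528716)⟩], [⟨(nat_lit 2), (nat_lit 100), (nat_lit 94), (nat_lit 92), (nat_lit 202894050)⟩],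
 ⟨⟨[(nat_lit 60), (nat_lit 100), (nat_lit 120)], [(nat_lit 0), (nat_lit 609), (nat_lit 1609)], [((nat_lit 0), (nat_lit 0), (nat_lit 0)), ((nat_lit 1000), (nat_lit 905), (nat_lit 238)), ((nat_lit 1000), (nat_lit 882), (nat_lit 668))], ((nat_lit 87), (nat_lit 100), (nat_lit 60))⟩, (nat_lit 2674458), (nat_lit 186), (nat_lit 186), (nat_lit 0), (nat_lit 238258), [(nat_lit 3289232663), (nat_lit 6250000058), (nat_lit 7968000000)], [], [(nat_lit 21100385808), (nat_lit 22220707286), (nat_lit 24676234076), (nat_lit 25573677736), (nat_lit 28600843294), (nat_lit 29511287115), (nat_lit 30886898166), (nat_lit 31698715758)], (nat_lit 1271251), (nat_lit 1271251), (nat_lit 780000), (nat_lit 2090001), (nat_lit 1271251), (nat_lit 1271251), [(nat_lit 780000), (nat_lit 1435001), (nat_lit 1271251)], [(nat_lit 10), (nat_lit 54), (nat_lit 289), (nat_lit 75), (nat_lit 8)]⟩,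
 ⟨⟨[(nat_lit 60), (nat_lit 100), (nat_lit 120)], [(nat_lit 0), (nat_lit 609), (nat_lit 1609)], [((nat_lit 0), (nat_lit 0), (nat_lit 0)), ((nat_lit 1000), (nat_lit 905), (nat_lit 238)), ((nat_lit 1000), (nat_lit 882), (nat_lit 668))], ((nat_lit 87), (nat_lit 100), (nat_lit 60))⟩, (nat_lit 2539955), (nat_lit 264), (nat_lit 264), (nat_lit 0), (nat_lit 426620), [(nat_lit 3282000000), (nat_lit 6250000000), (nat_lit 7968000000)], [], [(nat_lit 21772330913), (nat_lit 22793806770), (nat_lit 24815503768), (nat_lit 25614822658), (nat_lit 29025060102), (nat_lit 30107040915), (nat_lit 31336363026), (nat_lit 32170016718)], (nat_lit 1271251), (nat_lit 1271251), (nat_lit 780000), (nat_lit 2090001), (nat_lit 1271251), (nat_lit 1271251), [(nat_lit 780000), (nat_lit 1435001), (nat_lit 1271251)], [(nat_lit 10), (nat_lit 54), (nat_lit 401), (nat_lit 175), (nat_lit 12)]⟩,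
 ⟨⟨[(nat_lit 140), (nat_lit 180), (nat_lit 200)], [(nat_lit 0), (nat_lit 0), (nat_lit 2835)], [((nat_lit 0), (nat_lit 0), (nat_lit 0)), ((nat_lit 0), (nat_lit 0), (nat_lit 0)), ((nat_lit 363), (nat_lit 1000), (nat_lit 798))], ((nat_lit 0), (nat_lit 0), (nat_lit 0))⟩, (nat_lit 44021), (nat_lit 300), (nat_lit 1170), (nat_lit 12496003), (nat_lit 1875495), [(nat_lit 1574720000), (nat_lit 2249280000), (nat_lit 2624000000)], [], [(nat_lit 9930577460), (nat_lit 9536188265), (nat_lit 9516346683), (nat_lit 9110495702), (nat_lit 9283955245), (nat_lit 8878108140), (nat_lit 8871300156), (nat_lit 8455203453)], (nat_lit 780000), (nat_lit 1271251), (nat_lit 1271251), (nat_lit 1271251), (nat_lit 1271251), (nat_lit 1271251), [(nat_lit 1977501), (nat_lit 1271251), (nat_lit 1271251)], [(nat_lit 32), (nat_lit 67), (nat_lit 483), (nat_lit 250), (nat_lit 10)]⟩⟩))))))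
noncomputable def c4_51 : Tr Lf :=
 (.spl (nat_lit 5) (nat_lit 120) (.leaf ⟨(nat_lit 0), (nat_lit 199), (nat_lit 0), (nat_lit 801), (nat_lit 16312), (nat_lit 7901), (nat_lit 10270), (nat_lit 8820), (nat_lit 12999), (nat_lit 0), (nat_lit 0), [], Pd.none, Pd.none, (nat_lit 0), (nat_lit 1), (nat_lit 0), (nat_lit 0), (nat_lit 6), (nat_lit 0), [], [], [⟨(nat_lit 0), (nat_lit 100), (nat_lit 92), (nat_lit 40), (nat_lit 893574660)⟩], [],
 ⟨⟨[(nat_lit 60), (nat_lit 100), (nat_lit 120)], [(nat_lit 0), (nat_lit 609), (nat_lit 1609)], [((nat_lit 0), (nat_lit 0), (nat_lit 0)), ((nat_lit 1000), (nat_lit 905), (nat_lit 238)), ((nat_lit 1000), (nat_lit 882), (nat_lit 668))], ((nat_lit 87), (nat_lit 100), (nat_lit 60))⟩, (nat_lit 3032954), (nat_lit 211), (nat_lit 211), (nat_lit 0), (nat_lit 297368), [(nat_lit 4154223282), (nat_lit 6250000012), (nat_lit 7968000000)], [], [(nat_lit 19047650942), (nat_lit 20277197366), (nat_lit 23908736814), (nat_lit 25367305742), (nat_lit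 32727954093), (nat_lit 33907580535), (nat_lit 34239768383), (nat_lit 35049857545)], (nat_lit 1271251), (nat_lit 1271251), (nat_lit 780000), (nat_lit 2090001), (nat_lit 1271251), (nat_lit 1271251), [(nat_lit 780000), (nat_lit 1435001), (nat_lit 1271251)], [(nat_lit 10), (nat_lit 54), (nat_lit 289), (nat_lit 75), (nat_lit 8)]⟩,
 ⟨⟨[(nat_lit 80), (nat_lit 120), (nat_lit 160)], [(nat_lit 0), (nat_lit 0), (nat_lit 2132)], [((nat_lit 0), (nat_lit 0), (nat_lit 0)), ((nat_lit 0), (nat_lit 0), (nat_lit 0)), ((nat_lit 858), (nat_lit 1000), (nat_lit 713))], ((nat_lit 100), (nat_lit 92), (nat_lit 61))⟩, (nat_lit 4287392), (nat_lit 392), (nat_lit 392), (nat_lit 0), (nat_lit 253402), [(nat_lit 4688000000), (nat_lit 7968000000), (nat_lit 11872000000)], [], [(nat_lit 37527922600), (nat_lit 31418479040), (nat_lit 44946834320), (nat_lit 34929623260), (nat_lit 30801410030), (nat_lit 24535882250), (nat_lit 51890858550), (nat_lit 33638038900)], (nat_lit 1271251), (nat_lit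 1271251), (nat_lit 780000), (nat_lit 2090001), (nat_lit 0), (nat_lit 780000), [(nat_lit 1100000), (nat_lit 1785001), (nat_lit 1271251)], [(nat_lit 18), (nat_lit 59), (nat_lit 428), (nat_lit 200), (nat_lit 11)]⟩,
 ⟨⟨[(nat_lit 120), (nat_lit 160), (nat_lit 180)], [(nat_lit 0), (nat_lit 533), (nat_lit 2066)], [((nat_lit 0), (nat_lit 0), (nat_lit 0)), ((nat_lit 960), (nat_lit 1000), (nat_lit 200)), ((nat_lit 615), (nat_lit 1000), (nat_lit 729))], ((nat_lit 100), (nat_lit 74), (nat_lit 60))⟩, (nat_lit 1875512), (nat_lit 300), (nat_lit 619), (nat_lit 53186401), (nat_lit 588775), [(nat_lit 6382368000), (nat_lit 9509472000), (nat_lit 11260458000)], [], [(nat_lit 42461874027), (nat_lit 41902432713), (nat_lit 44023144066), (nat_lit 43455284538), (nat_lit 35788220699), (nat_lit 35234045708), (nat_lit 37061837886), (nat_lit 36253533474)], (nat_lit 1271251), (nat_lit 1271251), (nat_lit 1271251), (nat_lit 1271251), (nat_lit 0), (nat_lit 780000), [(nat_lit 1695001),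 (nat_lit 1271251), (nat_lit 1271251)], [(nat_lit 28), (nat_lit 65), (nat_lit 428), (nat_lit 200), (nat_lit 10)]⟩⟩) (.leaf ⟨(nat_lit 0), (nat_lit 0), (nat_lit 0), (nat_lit 1000), (nat_lit 0), (nat_lit 9780), (nat_lit 11318), (nat_lit 10907), (nat_lit 8470), (nat_lit 0), (nat_lit 0), [], Pd.none, Pd.none, (nat_lit 0), (nat_lit 1), (nat_lit 0), (nat_lit 0), (nat_lit 0), (nat_lit 0), [], [], [], [],
 ⟨⟨[(nat_lit 60), (nat_lit 100), (nat_lit 120)], [(nat_lit 0), (nat_lit 609), (nat_lit 1609)], [((nat_lit 0), (nat_lit 0), (nat_lit 0)), ((nat_lit 1000), (nat_lit 905), (nat_lit 238)), ((nat_lit 1000), (nat_lit 882), (nat_lit 668))], ((nat_lit 87), (nat_lit 100), (nat_lit 60))⟩, (nat_lit 1815627), (nat_lit 211), (nat_lit 211), (nat_lit 0), (nat_lit 297368), [(nat_lit 5268577078), (nat_lit 6694126017), (nat_lit 7968000000)], [], [(nat_lit 19211295327), (nat_lit 20882610080), (nat_lit 24506566030), (nat_lit 26163892760), (nat_lit 35242512220), (nat_lit 36561591465),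 (nat_lit 36228305393), (nat_lit 37106037850)], (nat_lit 1271251), (nat_lit 1271251), (nat_lit 780000), (nat_lit 2090001), (nat_lit 1271251), (nat_lit 1271251), [(nat_lit 780000), (nat_lit 1435001), (nat_lit 1271251)], [(nat_lit 10), (nat_lit 54), (nat_lit 289), (nat_lit 75), (nat_lit 8)]⟩,
 ⟨⟨[(nat_lit 80), (nat_lit 120), (nat_lit 160)], [(nat_lit 0), (nat_lit 0), (nat_lit 2132)], [((nat_lit 0), (nat_lit 0), (nat_lit 0)), ((nat_lit 0), (nat_lit 0), (nat_lit 0)), ((nat_lit 858), (nat_lit 1000), (nat_lit 713))], ((nat_lit 100), (nat_lit 92), (nat_lit 61))⟩, (nat_lit 4113525), (nat_lit 336), (nat_lit 336), (nat_lit 0), (nat_lit 338451), [(nat_lit 4688000000), (nat_lit 7968000000), (nat_lit 11872000000)], [], [(nat_lit 45401189354), (nat_lit 22871108050), (nat_lit 35247507774), (nat_lit 25466525764), (nat_lit 52003461504), (nat_lit 40047541616), (nat_lit 76318981156), (nat_lit 56945779468)], (nat_lit 1271251), (nat_lit 1271251), (nat_lit 780000), (nat_lit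 2090001), (nat_lit 780000), (nat_lit 3072501), [(nat_lit 1100000), (nat_lit 1785001), (nat_lit 1271251)], [(nat_lit 18), (nat_lit 59), (nat_lit 483), (nat_lit 250), (nat_lit 12)]⟩,
 ⟨⟨[(nat_lit 120), (nat_lit 160), (nat_lit 180)], [(nat_lit 0), (nat_lit 533), (nat_lit 2066)], [((nat_lit 0), (nat_lit 0), (nat_lit 0)), ((nat_lit 960), (nat_lit 1000), (nat_lit 200)), ((nat_lit 615), (nat_lit 1000), (nat_lit 729))], ((nat_lit 100), (nat_lit 74), (nat_lit 60))⟩, (nat_lit 2341463), (nat_lit 300), (nat_lit 691), (nat_lit 66400002), (nat_lit 962895), [(nat_lit 7968000000), (nat_lit 11872000000), (nat_lit 14058000000)], [], [(nat_lit 44941869469), (nat_lit 44262863463), (nat_lit 46543370324), (nat_lit 45549577893), (nat_lit 42779072206), (nat_lit 41919357110), (nat_lit 44054735473), (nat_lit 43295973452)], (nat_lit 1271251), (nat_lit 1271251), (nat_lit 1271251), (nat_lit 1271251), (nat_lit 780000), (nat_lit 3072501), [(nat_lit 1695001), (nat_lit 1271251),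 (nat_lit 1271251)], [(nat_lit 28), (nat_lit 65), (nat_lit 538), (nat_lit 300), (nat_lit 12)]⟩⟩))
noncomputable def c4_52 : Tr Lf :=
 (.trZ (nat_lit 3) (nat_lit 4) (nat_lit 5) (nat_lit 100) (nat_lit 94) (nat_lit 59) (nat_lit 30) (.spl (nat_lit 1) (nat_lit 280) (.leaf ⟨(nat_lit 0), (nat_lit 731), (nat_lit 0), (nat_lit 269), (nat_lit 0), (nat_lit 5101), (nat_lit 8385), (nat_lit 2909), (nat_lit 0), (nat_lit 0), (nat_lit 0), [], Pd.none, Pd.none, (nat_lit 0), (nat_lit 1), (nat_lit 0), (nat_lit 0), (nat_lit 6), (nat_lit 0), [], [⟨(nat_lit 1), (nat_lit 68), (nat_lit 84), (nat_lit 100), (nat_lit 222506702)⟩], [], [],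
 ⟨⟨[(nat_lit 60), (nat_lit 100), (nat_lit 120)], [(nat_lit 0), (nat_lit 609), (nat_lit 1609)], [((nat_lit 0), (nat_lit 0), (nat_lit 0)), ((nat_lit 1000), (nat_lit 905), (nat_lit 238)), ((nat_lit 1000), (nat_lit 882), (nat_lit 668))], ((nat_lit 87), (nat_lit 100), (nat_lit 60))⟩, (nat_lit 2244122), (nat_lit 150), (nat_lit 150), (nat_lit 0), (nat_lit 158328), [(nat_lit 3316626043), (nat_lit 6250000009), (nat_lit 7968000000)], [], [(nat_lit 26653726570), (nat_lit 27413506183), (nat_lit 31762692380), (nat_lit 32326177643), (nat_lit 32258006073), (nat_lit 32834468856), (nat_lit 36339743299), (nat_lit 36715235048)], (nat_lit 1271251), (nat_lit 1271251), (nat_lit 1271251), (nat_lit 1271251), (nat_lit 1271251), (nat_lit 1271251), [(nat_lit 780000), (nat_lit 1435001), (nat_lit 1271251)], [(nat_lit 10), (nat_lit 54), (nat_lit 203), (nat_lit 0), (nat_lit 5)]⟩,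
 ⟨⟨[(nat_lit 80), (nat_lit 120), (nat_lit 160)], [(nat_lit 0), (nat_lit 0), (nat_lit 2132)], [((nat_lit 0), (nat_lit 0), (nat_lit 0)), ((nat_lit 0), (nat_lit 0), (nat_lit 0)), ((nat_lit 858), (nat_lit 1000), (nat_lit 713))], ((nat_lit 100), (nat_lit 92), (nat_lit 61))⟩, (nat_lit 2989401), (nat_lit 341), (nat_lit 341), (nat_lit 0), (nat_lit 221234), [(nat_lit 4688000000), (nat_lit 7968000000), (nat_lit 11872000000)], [], [(nat_lit 31627247487), (nat_lit 33184099440), (nat_lit 38247526120), (nat_lit 39468406372), (nat_lit 34296100020), (nat_lit 34982031200), (nat_lit 40185418680), (nat_lit 41014612760)], (nat_lit 1271251), (nat_lit 1271251), (nat_lit 1271251), (nat_lit 1271251), (nat_lit 169688), (nat_lit 2886876), [(nat_lit 1100000), (nat_lit 1785001), (nat_lit 1271251)], [(nat_lit 18), (nat_lit 59), (nat_lit 538), (nat_lit 300), (nat_lit 13)]⟩,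
 ⟨⟨[(nat_lit 140), (nat_lit 180), (nat_lit 200)], [(nat_lit 0), (nat_lit 0), (nat_lit 2835)], [((nat_lit 0), (nat_lit 0), (nat_lit 0)), ((nat_lit 0), (nat_lit 0), (nat_lit 0)), ((nat_lit 363), (nat_lit 1000), (nat_lit 798))], ((nat_lit 0), (nat_lit 0), (nat_lit 0))⟩, (nat_lit 74011), (nat_lit 300), (nat_lit 951), (nat_lit 21008900), (nat_lit 1154350), [(nat_lit 2647498000), (nat_lit 3781602000), (nat_lit 4411600000)], [], [(nat_lit 19068497163), (nat_lit 18086784367), (nat_lit 18670281190), (nat_lit 17606658150), (nat_lit 15803774072), (nat_lit 14761158558), (nat_lit 15097860959), (nat_lit 14020205587)], (nat_lit 780000), (nat_lit 1598751), (nat_lit 1271251), (nat_lit 1271251), (nat_lit 169688), (nat_lit 2886876), [(nat_lit 1977501), (nat_lit 1271251), (nat_lit 1271251)], [(nat_lit 32), (nat_lit 67), (nat_lit 538), (nat_lit 300), (nat_lit 11)]⟩⟩) (.spl (nat_lit 2) (nat_lit 180) (.trX (nat_lit 4) (nat_lit 0) (nat_lit 2) (nat_lit 87) (nat_lit 59) (nat_lit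 100) (nat_lit 370) (.trX (nat_lit 5) (nat_lit 1) (nat_lit 2) (nat_lit 92) (nat_lit 49) (nat_lit 100) (nat_lit 380) (.spl (nat_lit 1) (nat_lit 300) (.leaf ⟨(nat_lit 0), (nat_lit 857), (nat_lit 0), (nat_lit 143), (nat_lit 0), (nat_lit 5394), (nat_lit 6890), (nat_lit 1509), (nat_lit 0), (nat_lit 0), (nat_lit 0), [], Pd.none, Pd.none, (nat_lit 0), (nat_lit 1), (nat_lit 0), (nat_lit 0), (nat_lit 6), (nat_lit 0), [], [⟨(nat_lit 1), (nat_lit 77), (nat_lit 86), (nat_lit 100), (nat_lit 291642146)⟩], [⟨(nat_lit 1), (nat_lit 68), (nat_lit 92), (nat_lit 100), (nat_lit 95349476)⟩], [],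
 ⟨⟨[(nat_lit 60), (nat_lit 100), (nat_lit 120)], [(nat_lit 0), (nat_lit 609), (nat_lit 1609)], [((nat_lit 0), (nat_lit 0), (nat_lit 0)), ((nat_lit 1000), (nat_lit 905), (nat_lit 238)), ((nat_lit 1000), (nat_lit 882), (nat_lit 668))], ((nat_lit 87), (nat_lit 100), (nat_lit 60))⟩, (nat_lit 2242418), (nat_lit 184), (nat_lit 184), (nat_lit 0), (nat_lit 282834), [(nat_lit 3285416123), (nat_lit 6250000227), (nat_lit 7968000000)], [], [(nat_lit 26402345685), (nat_lit 27156991415), (nat_lit 31652593370), (nat_lit 32237772073), (nat_lit 31188511293), (nat_lit 31764931120), (nat_lit 35771109830), (nat_lit 36268485853)], (nat_lit 1271251), (nat_lit 1271251), (nat_lit 1271251), (nat_lit 1271251), (nat_lit 1271251), (nat_lit 1271251), [(nat_lit 780000), (nat_lit 1435001), (nat_lit 1271251)], [(nat_lit 10), (nat_lit 54), (nat_lit 203), (nat_lit 0), (nat_lit 5)]⟩,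
 ⟨⟨[(nat_lit 60), (nat_lit 100), (nat_lit 140)], [(nat_lit 0), (nat_lit 0), (nat_lit 2047)], [((nat_lit 0), (nat_lit 0), (nat_lit 0)), ((nat_lit 0), (nat_lit 0), (nat_lit 0)), ((nat_lit 1000), (nat_lit 993), (nat_lit 781))], ((nat_lit 94), (nat_lit 100), (nat_lit 62))⟩, (nat_lit 2191637), (nat_lit 328), (nat_lit 328), (nat_lit 0), (nat_lit 324780), [(nat_lit 3282000000), (nat_lit 6250000000), (nat_lit 9842000000)], [], [(nat_lit 30029717183), (nat_lit 30945814948), (nat_lit 36616217089), (nat_lit 37190563353), (nat_lit 32805026249), (nat_lit 33191543050), (nat_lit 37798295620), (nat_lit 38274732205)], (nat_lit 1271251), (nat_lit 1271251), (nat_lit 1271251), (nat_lit 1271251), (nat_lit 169688), (nat_lit 2740000), [(nat_lit 780000), (nat_lit 1435001), (nat_lit 1271251)], [(nat_lit 11), (nat_lit 55), (nat_lit 317), (nat_lit 100), (nat_lit 8)]⟩,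
 ⟨⟨[(nat_lit 140), (nat_lit 180), (nat_lit 200)], [(nat_lit 0), (nat_lit 0), (nat_lit 2835)], [((nat_lit 0), (nat_lit 0), (nat_lit 0)), ((nat_lit 0), (nat_lit 0), (nat_lit 0)), ((nat_lit 363), (nat_lit 1000), (nat_lit 798))], ((nat_lit 0), (nat_lit 0), (nat_lit 0))⟩, (nat_lit 39344), (nat_lit 300), (nat_lit 1379), (nat_lit 11168300), (nat_lit 2106290), [(nat_lit 1407406000), (nat_lit 2010294000), (nat_lit 2345200000)], [], [(nat_lit 10671301416), (nat_lit 10334901444), (nat_lit 10265638488), (nat_lit 9917796306), (nat_lit 8886280451), (nat_lit 9812472529), (nat_lit 8421698634), (nat_lit 8083746615)], (nat_lit 780000), (nat_lit 1271251), (nat_lit 1271251), (nat_lit 1271251), (nat_lit 169688), (nat_lit 2740000), [(nat_lit 1977501), (nat_lit 1271251), (nat_lit 1271251)], [(nat_lit 32), (nat_lit 67), (nat_lit 483), (nat_lit 250), (nat_lit 10)]⟩⟩) (.trX (nat_lit 5) (nat_lit 1) (nat_lit 2) (nat_lit 87) (nat_lit 59) (nat_lit 100) (nat_lit 370) (.leaf ⟨(nat_lit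 0), (nat_lit 906), (nat_lit 0), (nat_lit 94), (nat_lit 0), (nat_lit 5967), (nat_lit 6266), (nat_lit 1042), (nat_lit 3908184664237), (nat_lit 0), (nat_lit 0), [], Pd.none, Pd.none, (nat_lit 0), (nat_lit 1), (nat_lit 0), (nat_lit 0), (nat_lit 6), (nat_lit 0), [], [⟨(nat_lit 1), (nat_lit 77), (nat_lit 86), (nat_lit 100), (nat_lit 319782642)⟩], [⟨(nat_lit 1), (nat_lit 77), (nat_lit 86), (nat_lit 100), (nat_lit 137056724)⟩], [],
 ⟨⟨[(nat_lit 60), (nat_lit 100), (nat_lit 120)], [(nat_lit 0), (nat_lit 609), (nat_lit 1609)], [((nat_lit 0), (nat_lit 0), (nat_lit 0)), ((nat_lit 1000), (nat_lit 905), (nat_lit 238)), ((nat_lit 1000), (nat_lit 882), (nat_lit 668))], ((nat_lit 87), (nat_lit 100), (nat_lit 60))⟩, (nat_lit 2130613), (nat_lit 236), (nat_lit 236), (nat_lit 0), (nat_lit 426620), [(nat_lit 3282000003), (nat_lit 6250000002), (nat_lit 7968000000)], [], [(nat_lit 27421672564), (nat_lit 28041375404), (nat_lit 32139662976), (nat_lit 32639607638), (nat_lit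 31691761761), (nat_lit 32197248596), (nat_lit 36538069900), (nat_lit 37037637792)], (nat_lit 1271251), (nat_lit 1271251), (nat_lit 1271251), (nat_lit 1271251), (nat_lit 1271251), (nat_lit 1271251), [(nat_lit 780000), (nat_lit 1435001), (nat_lit 1271251)], [(nat_lit 10), (nat_lit 54), (nat_lit 203), (nat_lit 0), (nat_lit 5)]⟩,
 ⟨⟨[(nat_lit 60), (nat_lit 100), (nat_lit 120)], [(nat_lit 0), (nat_lit 609), (nat_lit 1609)], [((nat_lit 0), (nat_lit 0), (nat_lit 0)), ((nat_lit 1000), (nat_lit 905), (nat_lit 238)), ((nat_lit 1000), (nat_lit 882), (nat_lit 668))], ((nat_lit 87), (nat_lit 100), (nat_lit 60))⟩, (nat_lit 1960975), (nat_lit 325), (nat_lit 325), (nat_lit 0), (nat_lit 426620), [(nat_lit 3282000000), (nat_lit 6250000000), (nat_lit 7968000000)], [], [(nat_lit 30341319665), (nat_lit 31070778756), (nat_lit 35629139028), (nat_lit 36697303235), (nat_lit 32250027904), (nat_lit 32636913411), (nat_lit 36938281176), (nat_lit 37438992817)], (nat_lit 1271251),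 (nat_lit 1271251), (nat_lit 1271251), (nat_lit 1271251), (nat_lit 169688), (nat_lit 2666563), [(nat_lit 780000), (nat_lit 1435001), (nat_lit 1271251)], [(nat_lit 10), (nat_lit 54), (nat_lit 317), (nat_lit 100), (nat_lit 10)]⟩,
 ⟨⟨[(nat_lit 140), (nat_lit 180), (nat_lit 200)], [(nat_lit 0), (nat_lit 0), (nat_lit 2835)], [((nat_lit 0), (nat_lit 0), (nat_lit 0)), ((nat_lit 0), (nat_lit 0), (nat_lit 0)), ((nat_lit 363), (nat_lit 1000), (nat_lit 798))], ((nat_lit 0), (nat_lit 0), (nat_lit 0))⟩, (nat_lit 25862), (nat_lit 300), (nat_lit 1901), (nat_lit 7341407), (nat_lit 3198724), [(nat_lit 925148000), (nat_lit 1321452000), (nat_lit 1541600000)], [], [(nat_lit 6702612501), (nat_lit 6483217937), (nat_lit 6441534907), (nat_lit 6195637211), (nat_lit 5528543732), (nat_lit 6406748058), (nat_lit 5205073362), (nat_lit 4965318253)], (nat_lit 780000), (nat_lit 1271251), (nat_lit 1271251), (nat_lit 1271251), (nat_lit 169688), (nat_lit 2666563), [(nat_lit 1977501),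 (nat_lit 1271251), (nat_lit 1271251)], [(nat_lit 32), (nat_lit 67), (nat_lit 591), (nat_lit 250), (nat_lit 12)]⟩⟩))))) (.leaf ⟨(nat_lit 0), (nat_lit 524), (nat_lit 0), (nat_lit 476), (nat_lit 0), (nat_lit 6336), (nat_lit 6736), (nat_lit 3992), (nat_lit 1450023984008), (nat_lit 0), (nat_lit 0), [], Pd.none, Pd.none, (nat_lit 0), (nat_lit 1), (nat_lit 0), (nat_lit 0), (nat_lit 6), (nat_lit 0), [], [], [], [⟨(nat_lit 0), (nat_lit 83), (nat_lit 73), (nat_lit 100), (nat_lit 142350660)⟩],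
 ⟨⟨[(nat_lit 60), (nat_lit 100), (nat_lit 120)], [(nat_lit 0), (nat_lit 609), (nat_lit 1609)], [((nat_lit 0), (nat_lit 0), (nat_lit 0)), ((nat_lit 1000), (nat_lit 905), (nat_lit 238)), ((nat_lit 1000), (nat_lit 882), (nat_lit 668))], ((nat_lit 87), (nat_lit 100), (nat_lit 60))⟩, (nat_lit 2428719), (nat_lit 191), (nat_lit 191), (nat_lit 0), (nat_lit 297368), [(nat_lit 3450568253), (nat_lit 6250000298), (nat_lit 7968000000)], [], [(nat_lit 25959907144), (nat_lit 26668710644), (nat_lit 31933752808), (nat_lit 32742582976), (nat_lit 32583536121), (nat_lit 33337285870), (nat_lit 37997135561), (nat_lit 38448307460)], (nat_lit 1271251), (nat_lit 1271251), (nat_lit 1271251), (nat_lit 1271251), (nat_lit 1271251), (nat_lit 1271251), [(nat_lit 780000), (nat_lit 1435001), (nat_lit 1271251)], [(nat_lit 10), (nat_lit 54), (nat_lit 203), (nat_lit 0), (nat_lit 5)]⟩,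
 ⟨⟨[(nat_lit 60), (nat_lit 100), (nat_lit 140)], [(nat_lit 0), (nat_lit 0), (nat_lit 2047)], [((nat_lit 0), (nat_lit 0), (nat_lit 0)), ((nat_lit 0), (nat_lit 0), (nat_lit 0)), ((nat_lit 1000), (nat_lit 993), (nat_lit 781))], ((nat_lit 94), (nat_lit 100), (nat_lit 62))⟩, (nat_lit 2982829), (nat_lit 323), (nat_lit 323), (nat_lit 0), (nat_lit 310952), [(nat_lit 3282000000), (nat_lit 6250000000), (nat_lit 9842000000)], [], [(nat_lit 28581536203), (nat_lit 30396310003), (nat_lit 35972443028), (nat_lit 37825020060), (nat_lit 33900488616), (nat_lit 34793471680), (nat_lit 38631517536), (nat_lit 39479497024)], (nat_lit 1271251), (nat_lit 1271251), (nat_lit 1271251), (nat_lit 1271251), (nat_lit 169688), (nat_lit 2886876), [(nat_lit 780000), (nat_lit 1435001), (nat_lit 1271251)], [(nat_lit 11), (nat_lit 55), (nat_lit 317), (nat_lit 100), (nat_lit 8)]⟩,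
 ⟨⟨[(nat_lit 120), (nat_lit 160), (nat_lit 180)], [(nat_lit 0), (nat_lit 533), (nat_lit 2066)], [((nat_lit 0), (nat_lit 0), (nat_lit 0)), ((nat_lit 960), (nat_lit 1000), (nat_lit 200)), ((nat_lit 615), (nat_lit 1000), (nat_lit 729))], ((nat_lit 100), (nat_lit 74), (nat_lit 60))⟩, (nat_lit 1114537), (nat_lit 300), (nat_lit 773), (nat_lit 31606400), (nat_lit 966596), [(nat_lit 3792768000), (nat_lit 5651072000), (nat_lit 6691608000)], [], [(nat_lit 29062247385), (nat_lit 28745332406), (nat_lit 29077485219), (nat_lit 28688233368), (nat_lit 27203460120), (nat_lit 25352162583), (nat_lit 25205907590), (nat_lit 24759298012)], (nat_lit 1271251), (nat_lit 1271251), (nat_lit 1271251), (nat_lit 1271251), (nat_lit 169688), (nat_lit 2886876), [(nat_lit 1695001), (nat_lit 1271251), (nat_lit 1271251)], [(nat_lit 28), (nat_lit 65), (nat_lit 538), (nat_lit 300), (nat_lit 12)]⟩⟩))))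
noncomputable def c4_53 : Tr Lf :=
 (.ord (.spl (nat_lit 4) (nat_lit 280) (.stt (nat_lit 3) (.leaf ⟨(nat_lit 0), (nat_lit 0), (nat_lit 626), (nat_lit 374), (nat_lit 26163), (nat_lit 6266), (nat_lit 1800), (nat_lit 9527), (nat_lit 0), (nat_lit 9143915794834), (nat_lit 0), [], Pd.none, Pd.none, (nat_lit 0), (nat_lit 1), (nat_lit 0), (nat_lit 0), (nat_lit 0), (nat_lit 6), [⟨(nat_lit 0), (nat_lit 100), (nat_lit 88), (nat_lit 81), (nat_lit 1025268872)⟩], [], [], [],
 ⟨⟨[(nat_lit 60), (nat_lit 100), (nat_lit 120)], [(nat_lit 0), (nat_lit 609), (nat_lit 1609)], [((nat_lit 0), (nat_lit 0), (nat_lit 0)), ((nat_lit 1000), (nat_lit 905), (nat_lit 238)), ((nat_lit 1000), (nat_lit 882), (nat_lit 668))], ((nat_lit 87), (nat_lit 100), (nat_lit 60))⟩, (nat_lit 7528676), (nat_lit 270), (nat_lit 270), (nat_lit 0), (nat_lit 366660), [(nat_lit 3282000223), (nat_lit 6250000067), (nat_lit 7968000000)], [], [(nat_lit 23097358889), (nat_lit 19820196244), (nat_lit 14653138862),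 (nat_lit 16033756578), (nat_lit 22947219098), (nat_lit 24695484266), (nat_lit 21029433394), (nat_lit 22588735958)], (nat_lit 1271251), (nat_lit 1271251), (nat_lit 292188), (nat_lit 780000), (nat_lit 780000), (nat_lit 2090001), [(nat_lit 780000), (nat_lit 1435001), (nat_lit 1271251)], [(nat_lit 10), (nat_lit 54), (nat_lit 317), (nat_lit 100), (nat_lit 10)]⟩,
 ⟨⟨[(nat_lit 80), (nat_lit 120), (nat_lit 160)], [(nat_lit 0), (nat_lit 0), (nat_lit 2132)], [((nat_lit 0), (nat_lit 0), (nat_lit 0)), ((nat_lit 0), (nat_lit 0), (nat_lit 0)), ((nat_lit 858), (nat_lit 1000), (nat_lit 713))], ((nat_lit 100), (nat_lit 92), (nat_lit 61))⟩, (nat_lit 1160181), (nat_lit 557), (nat_lit 557), (nat_lit 0), (nat_lit 468350), [(nat_lit 1753312000), (nat_lit 2980032000), (nat_lit 4440128000)], [], [(nat_lit 16417517260), (nat_lit 16814535470), (nat_lit 16078495964), (nat_lit 16575356586), (nat_lit 18749700196), (nat_lit 18344827518), (nat_lit 20233073848), (nat_lit 18692529448)],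 (nat_lit 1271251), (nat_lit 1271251), (nat_lit 292188), (nat_lit 780000), (nat_lit 0), (nat_lit 2825001), [(nat_lit 1100000), (nat_lit 1785001), (nat_lit 1271251)], [(nat_lit 18), (nat_lit 59), (nat_lit 428), (nat_lit 200), (nat_lit 11)]⟩,
 ⟨⟨[(nat_lit 100), (nat_lit 140), (nat_lit 160)], [(nat_lit 0), (nat_lit 508), (nat_lit 1689)], [((nat_lit 0), (nat_lit 0), (nat_lit 0)), ((nat_lit 1000), (nat_lit 1000), (nat_lit 198)), ((nat_lit 811), (nat_lit 1000), (nat_lit 671))], ((nat_lit 100), (nat_lit 86), (nat_lit 60))⟩, (nat_lit 5571245), (nat_lit 236), (nat_lit 236), (nat_lit 0), (nat_lit 0), [(nat_lit 6250000000), (nat_lit 9842000000), (nat_lit 11872000000)], [], [(nat_lit 22686266321), (nat_lit 26904309532), (nat_lit 28759343724), (nat_lit 32396037600), (nat_lit 32526180609), (nat_lit 34912461867), (nat_lit 34190568979), (nat_lit 36031049419)], (nat_lit 0), (nat_lit 0), (nat_lit 0), (nat_lit 0), (nat_lit 0), (nat_lit 0), [], [(nat_lit 23), (nat_lit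 62), (nat_lit 483), (nat_lit 250), (nat_lit 13)]⟩⟩) (.spl (nat_lit 5) (nat_lit 120) (.spl (nat_lit 6) (nat_lit 20) (.spl (nat_lit 1) (nat_lit 260) (.ord (.leaf ⟨(nat_lit 0), (nat_lit 312), (nat_lit 668), (nat_lit 20), (nat_lit 0), (nat_lit 6148), (nat_lit 4351), (nat_lit 4601), (nat_lit 0), (nat_lit 8100), (nat_lit 0), [], Pd.none, Pd.none, (nat_lit 0), (nat_lit 1), (nat_lit 0), (nat_lit 0), (nat_lit 5), (nat_lit 6), [⟨(nat_lit 0), (nat_lit 100), (nat_lit 86), (nat_lit 77), (nat_lit 50668551)⟩], [], [], [],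
 ⟨⟨[(nat_lit 60), (nat_lit 80), (nat_lit 100)], [(nat_lit 0), (nat_lit 304), (nat_lit 825)], [((nat_lit 0), (nat_lit 0), (nat_lit 0)), ((nat_lit 1000), (nat_lit 905), (nat_lit 238)), ((nat_lit 1000), (nat_lit 871), (nat_lit 407))], ((nat_lit 87), (nat_lit 100), (nat_lit 44))⟩, (nat_lit 4503591), (nat_lit 164), (nat_lit 164), (nat_lit 0), (nat_lit 128544), [(nat_lit 3282000004), (nat_lit 4921912578), (nat_lit 6250000000)], [], [(nat_lit 15808853418), (nat_lit 17792678520), (nat_lit 14983497022), (nat_lit 16563216573), (nat_lit 22834597176), (nat_lit 24563509909), (nat_lit 20912033175), (nat_lit 22521680924)], (nat_lit 1271251), (nat_lit 1271251), (nat_lit 292188), (nat_lit 780000), (nat_lit 780000), (nat_lit 2090001), [(nat_lit 780000), (nat_lit 1100000), (nat_lit 1442501)], [(nat_lit 9), (nat_lit 50), (nat_lit 317), (nat_lit 100), (nat_lit 12)]⟩,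
 ⟨⟨[(nat_lit 80), (nat_lit 120), (nat_lit 140)], [(nat_lit 0), (nat_lit 0), (nat_lit 1164)], [((nat_lit 0), (nat_lit 0), (nat_lit 0)), ((nat_lit 0), (nat_lit 0), (nat_lit 0)), ((nat_lit 941), (nat_lit 1000), (nat_lit 576))], ((nat_lit 100), (nat_lit 99), (nat_lit 44))⟩, (nat_lit 4714), (nat_lit 324), (nat_lit 324), (nat_lit 0), (nat_lit 165670), [(nat_lit 1556416000), (nat_lit 2645376000), (nat_lit 3267544000)], [], [(nat_lit 12853181631), (nat_lit 10982735828), (nat_lit 12575306334), (nat_lit 10510589321), (nat_lit 12886779417), (nat_lit 10856371398), (nat_lit 14907753036), (nat_lit 12923906972)], (nat_lit 1271251), (nat_lit 1271251), (nat_lit 292188), (nat_lit 780000), (nat_lit 0), (nat_lit 780000), [(nat_lit 1100000), (nat_lit 1785001), (nat_lit 1271251)], [(nat_lit 17), (nat_lit 58), (nat_lit 345), (nat_lit 125), (nat_lit 10)]⟩,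
 ⟨⟨[(nat_lit 100), (nat_lit 120), (nat_lit 140)], [(nat_lit 0), (nat_lit 254), (nat_lit 778)], [((nat_lit 0), (nat_lit 0), (nat_lit 0)), ((nat_lit 1000), (nat_lit 1000), (nat_lit 198)), ((nat_lit 960), (nat_lit 1000), (nat_lit 392))], ((nat_lit 100), (nat_lit 94), (nat_lit 44))⟩, (nat_lit 1267654), (nat_lit 300), (nat_lit 386), (nat_lit 43000000), (nat_lit 414148), [(nat_lit 4300000000), (nat_lit 5481984000), (nat_lit 6771296000)], [], [(nat_lit 26994805762), (nat_lit 27837159390), (nat_lit 28654150479), (nat_lit 29199075502), (nat_lit 24640930565), (nat_lit 25388102498), (nat_lit 26099190539), (nat_lit 26562269694)], (nat_lit 1271251), (nat_lit 1271251), (nat_lit 780000), (nat_lit 2090001), (nat_lit 0), (nat_lit 780000), [(nat_lit 1412501), (nat_lit 1271251), (nat_lit 1271251)], [(nat_lit 22), (nat_lit 58), (nat_lit 401), (nat_lit 175), (nat_lit 12)]⟩⟩)) (.trZ (nat_lit 0) (nat_lit 1) (nat_lit 3) (nat_lit 100) (nat_lit 91) (nat_lit 77) (nat_lit 60)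 (.trZ (nat_lit 1) (nat_lit 2) (nat_lit 5) (nat_lit 100) (nat_lit 96) (nat_lit 40) (nat_lit 10) (.leaf ⟨(nat_lit 0), (nat_lit 548), (nat_lit 0), (nat_lit 452), (nat_lit 5461), (nat_lit 10331), (nat_lit 8774), (nat_lit 3984), (nat_lit 0), (nat_lit 3183), (nat_lit 0), [], Pd.none, Pd.none, (nat_lit 0), (nat_lit 1), (nat_lit 0), (nat_lit 0), (nat_lit 5), (nat_lit 0), [⟨(nat_lit 0), (nat_lit 100), (nat_lit 89), (nat_lit 86), (nat_lit 903360057)⟩], [], [⟨(nat_lit 0), (nat_lit 100), (nat_lit 96), (nat_lit 40), (nat_lit 85143533)⟩], [],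
 ⟨⟨[(nat_lit 60), (nat_lit 80), (nat_lit 100)], [(nat_lit 0), (nat_lit 304), (nat_lit 825)], [((nat_lit 0), (nat_lit 0), (nat_lit 0)), ((nat_lit 1000), (nat_lit 905), (nat_lit 238)), ((nat_lit 1000), (nat_lit 871), (nat_lit 407))], ((nat_lit 87), (nat_lit 100), (nat_lit 44))⟩, (nat_lit 0), (nat_lit 163), (nat_lit 163), (nat_lit 0), (nat_lit 173571), [(nat_lit 4848249414), (nat_lit 5594722978), (nat_lit 6250000000)], [], [(nat_lit 16377005319), (nat_lit 19946883911), (nat_lit 14459686158), (nat_lit 17138757723), (nat_lit 25681133378), (nat_lit 28082978270), (nat_lit 22663952007), (nat_lit 24898725053)], (nat_lit 1271251), (nat_lit 1271251), (nat_lit 356250), (nat_lit 780000), (nat_lit 780000), (nat_lit 2090001), [(nat_lit 780000), (nat_lit 1100000), (nat_lit 1442501)], [(nat_lit 9), (nat_lit 50), (nat_lit 317), (nat_lit 100), (nat_lit 12)]⟩,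
 ⟨⟨[(nat_lit 80), (nat_lit 100), (nat_lit 120)], [(nat_lit 0), (nat_lit 265), (nat_lit 768)], [((nat_lit 0), (nat_lit 0), (nat_lit 0)), ((nat_lit 1000), (nat_lit 959), (nat_lit 206)), ((nat_lit 1000), (nat_lit 958), (nat_lit 392))], ((nat_lit 96), (nat_lit 100), (nat_lit 44))⟩, (nat_lit 7866910), (nat_lit 253), (nat_lit 253), (nat_lit 0), (nat_lit 204584), [(nat_lit 4688000000), (nat_lit 6250000000), (nat_lit 7968000000)], [], [(nat_lit 16644890436), (nat_lit 20105951909), (nat_lit 18894502788), (nat_lit 17420232165), (nat_lit 20055744555), (nat_lit 15862860531), (nat_lit 24099371069), (nat_lit 19991118855)], (nat_lit 1271251), (nat_lit 1271251), (nat_lit 356250), (nat_lit 780000), (nat_lit 54688), (nat_lit 780000), [(nat_lit 1100000), (nat_lit 1442501), (nat_lit 1271251)], [(nat_lit 16), (nat_lit 54), (nat_lit 272), (nat_lit 60), (nat_lit 9)]⟩,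
 ⟨⟨[(nat_lit 100), (nat_lit 120), (nat_lit 140)], [(nat_lit 0), (nat_lit 254), (nat_lit 778)], [((nat_lit 0), (nat_lit 0), (nat_lit 0)), ((nat_lit 1000), (nat_lit 1000), (nat_lit 198)), ((nat_lit 960), (nat_lit 1000), (nat_lit 392))], ((nat_lit 100), (nat_lit 94), (nat_lit 44))⟩, (nat_lit 806562), (nat_lit 300), (nat_lit 460), (nat_lit 28305578), (nat_lit 538421), [(nat_lit 2825000000), (nat_lit 3601536000), (nat_lit 4448584000)], [], [(nat_lit 17665402246), (nat_lit 18356548143), (nat_lit 18073066339), (nat_lit 18463598160), (nat_lit 15576231812), (nat_lit 16174557005), (nat_lit 17073227944), (nat_lit 16190433237)], (nat_lit 1271251), (nat_lit 1271251), (nat_lit 780000), (nat_lit 2090001), (nat_lit 54688), (nat_lit 780000), [(nat_lit 1412501), (nat_lit 1271251), (nat_lit 1271251)], [(nat_lit 22), (nat_lit 58), (nat_lit 401), (nat_lit 175), (nat_lit 12)]⟩⟩)))) (.spl (nat_lit 1) (nat_lit 260) (.ord (.spl (nat_lit 6) (nat_lit 28) (.leaf ⟨(nat_lit 0),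 (nat_lit 0), (nat_lit 0), (nat_lit 1000), (nat_lit 118379), (nat_lit 7465), (nat_lit 12298), (nat_lit 5797), (nat_lit 0), (nat_lit 14737), (nat_lit 0), [], Pd.none, Pd.none, (nat_lit 0), (nat_lit 1), (nat_lit 0), (nat_lit 0), (nat_lit 0), (nat_lit 0), [⟨(nat_lit 0), (nat_lit 100), (nat_lit 84), (nat_lit 85), (nat_lit 1806798455)⟩], [], [⟨(nat_lit 0), (nat_lit 100), (nat_lit 99), (nat_lit 45), (nat_lit 1247429774)⟩], [],
 ⟨⟨[(nat_lit 60), (nat_lit 100), (nat_lit 120)], [(nat_lit 0), (nat_lit 609), (nat_lit 1609)], [((nat_lit 0), (nat_lit 0), (nat_lit 0)), ((nat_lit 1000), (nat_lit 905), (nat_lit 238)), ((nat_lit 1000), (nat_lit 882), (nat_lit 668))], ((nat_lit 87), (nat_lit 100), (nat_lit 51))⟩, (nat_lit 3788915), (nat_lit 157), (nat_lit 157), (nat_lit 0), (nat_lit 27570), [(nat_lit 4000052921), (nat_lit 6250000003), (nat_lit 7968000000)], [], [(nat_lit 16878007259), (nat_lit 18852109538), (nat_lit 15070259204), (nat_lit 16888178025), (nat_lit 24091572350),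 (nat_lit 26036477939), (nat_lit 21463617469), (nat_lit 23270083295)], (nat_lit 1271251), (nat_lit 1271251), (nat_lit 292188), (nat_lit 780000), (nat_lit 780000), (nat_lit 2090001), [(nat_lit 780000), (nat_lit 1435001), (nat_lit 1271251)], [(nat_lit 10), (nat_lit 54), (nat_lit 317), (nat_lit 100), (nat_lit 10)]⟩,
 ⟨⟨[(nat_lit 80), (nat_lit 120), (nat_lit 140)], [(nat_lit 0), (nat_lit 0), (nat_lit 1164)], [((nat_lit 0), (nat_lit 0), (nat_lit 0)), ((nat_lit 0), (nat_lit 0), (nat_lit 0)), ((nat_lit 941), (nat_lit 1000), (nat_lit 576))], ((nat_lit 100), (nat_lit 96), (nat_lit 52))⟩, (nat_lit 6275170), (nat_lit 247), (nat_lit 247), (nat_lit 0), (nat_lit 36087), [(nat_lit 4688000000), (nat_lit 7968000000), (nat_lit 9842000000)], [], [(nat_lit 22570878087), (nat_lit 25314665029), (nat_lit 18073632128), (nat_lit 20971605478), (nat_lit 12780995011), (nat_lit 15573488760), (nat_lit 13274729130), (nat_lit 12151426021)], (nat_lit 1271251), (nat_lit 1271251), (nat_lit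 292188), (nat_lit 780000), (nat_lit 0), (nat_lit 780000), [(nat_lit 1100000), (nat_lit 1785001), (nat_lit 1271251)], [(nat_lit 17), (nat_lit 58), (nat_lit 345), (nat_lit 125), (nat_lit 10)]⟩,
 ⟨⟨[(nat_lit 100), (nat_lit 140), (nat_lit 160)], [(nat_lit 0), (nat_lit 508), (nat_lit 1689)], [((nat_lit 0), (nat_lit 0), (nat_lit 0)), ((nat_lit 1000), (nat_lit 1000), (nat_lit 198)), ((nat_lit 811), (nat_lit 1000), (nat_lit 671))], ((nat_lit 100), (nat_lit 91), (nat_lit 51))⟩, (nat_lit 0), (nat_lit 273), (nat_lit 273), (nat_lit 0), (nat_lit 86629), [(nat_lit 6250000000), (nat_lit 9842000000), (nat_lit 11872000000)], [], [(nat_lit 38339598676), (nat_lit 36458974562), (nat_lit 38797490512), (nat_lit 40009336114), (nat_lit 32514370486), (nat_lit 33909246088), (nat_lit 38002805769), (nat_lit 36773244423)], (nat_lit 1271251), (nat_lit 1271251), (nat_lit 780000), (nat_lit 2090001), (nat_lit 0), (nat_lit 780000), [(nat_lit 1412501), (nat_lit 1271251), (nat_lit 1271251)],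 [(nat_lit 23), (nat_lit 62), (nat_lit 401), (nat_lit 175), (nat_lit 10)]⟩⟩) (.dle (nat_lit 0)))) (.trZ (nat_lit 0) (nat_lit 1) (nat_lit 3) (nat_lit 100) (nat_lit 91) (nat_lit 77) (nat_lit 60) (.trZ (nat_lit 1) (nat_lit 2) (nat_lit 5) (nat_lit 100) (nat_lit 96) (nat_lit 40) (nat_lit 10) (.leaf ⟨(nat_lit 0), (nat_lit 218), (nat_lit 0), (nat_lit 782), (nat_lit 39939), (nat_lit 7634), (nat_lit 11482), (nat_lit 8170), (nat_lit 0), (nat_lit 7612), (nat_lit 0), [], Pd.none, Pd.none, (nat_lit 0), (nat_lit 1), (nat_lit 0), (nat_lit 0), (nat_lit 5), (nat_lit 0), [⟨(nat_lit 0), (nat_lit 100), (nat_lit 89), (nat_lit 86), (nat_lit 1445055206)⟩], [], [⟨(nat_lit 0), (nat_lit 100), (nat_lit 96), (nat_lit 40), (nat_lit 1241693042)⟩], [],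
 ⟨⟨[(nat_lit 60), (nat_lit 100), (nat_lit 120)], [(nat_lit 0), (nat_lit 609), (nat_lit 1609)], [((nat_lit 0), (nat_lit 0), (nat_lit 0)), ((nat_lit 1000), (nat_lit 905), (nat_lit 238)), ((nat_lit 1000), (nat_lit 882), (nat_lit 668))], ((nat_lit 87), (nat_lit 100), (nat_lit 60))⟩, (nat_lit 3809480), (nat_lit 155), (nat_lit 155), (nat_lit 0), (nat_lit 78319), [(nat_lit 3936726294), (nat_lit 6250000011), (nat_lit 7968000000)], [], [(nat_lit 16147262823), (nat_lit 18135360254), (nat_lit 14900690240), (nat_lit 16744421656), (nat_lit 23445756280), (nat_lit 25407865773), (nat_lit 21534397838), (nat_lit 23366119742)], (nat_lit 1271251), (nat_lit 1271251), (nat_lit 356250), (nat_lit 780000), (nat_lit 780000), (nat_lit 2090001), [(nat_lit 780000), (nat_lit 1435001), (nat_lit 1271251)], [(nat_lit 10), (nat_lit 54), (nat_lit 317), (nat_lit 100), (nat_lit 10)]⟩,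
 ⟨⟨[(nat_lit 80), (nat_lit 120), (nat_lit 140)], [(nat_lit 0), (nat_lit 528), (nat_lit 1572)], [((nat_lit 0), (nat_lit 0), (nat_lit 0)), ((nat_lit 1000), (nat_lit 959), (nat_lit 206)), ((nat_lit 966), (nat_lit 1000), (nat_lit 679))], ((nat_lit 100), (nat_lit 99), (nat_lit 63))⟩, (nat_lit 6688202), (nat_lit 243), (nat_lit 243), (nat_lit 0), (nat_lit 92861), [(nat_lit 4688000000), (nat_lit 7968000000), (nat_lit 9842000000)], [], [(nat_lit 19259935989), (nat_lit 23508275662), (nat_lit 16611769853), (nat_lit 19570286338), (nat_lit 11628601884), (nat_lit 14262902940), (nat_lit 9528302329), (nat_lit 11959766683)], (nat_lit 1271251), (nat_lit 1271251), (nat_lit 356250), (nat_lit 780000), (nat_lit 54688), (nat_lit 780000), [(nat_lit 1100000), (nat_lit 1785001), (nat_lit 1271251)], [(nat_lit 17), (nat_lit 58), (nat_lit 373), (nat_lit 150), (nat_lit 11)]⟩,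
 ⟨⟨[(nat_lit 100), (nat_lit 140), (nat_lit 160)], [(nat_lit 0), (nat_lit 508), (nat_lit 1689)], [((nat_lit 0), (nat_lit 0), (nat_lit 0)), ((nat_lit 1000), (nat_lit 1000), (nat_lit 198)), ((nat_lit 811), (nat_lit 1000), (nat_lit 671))], ((nat_lit 100), (nat_lit 86), (nat_lit 60))⟩, (nat_lit 1680992), (nat_lit 300), (nat_lit 375), (nat_lit 48875001), (nat_lit 227100), [(nat_lit 4887500000), (nat_lit 7696444000), (nat_lit 9283904000)], [], [(nat_lit 31516659954), (nat_lit 32998005878), (nat_lit 32100241734), (nat_lit 33058452845), (nat_lit 26340731778), (nat_lit 27639242515), (nat_lit 29440748577), (nat_lit 27428814192)], (nat_lit 1271251), (nat_lit 1271251), (nat_lit 780000), (nat_lit 2090001), (nat_lit 54688), (nat_lit 780000), [(nat_lit 1412501), (nat_lit 1271251), (nat_lit 1271251)], [(nat_lit 23), (nat_lit 62), (nat_lit 401), (nat_lit 175), (nat_lit 10)]⟩⟩))))) (.leaf ⟨(nat_lit 0), (nat_lit 0), (nat_lit 0), (nat_lit 1000), (nat_lit 1994), (nat_lit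 7160), (nat_lit 4839), (nat_lit 9772), (nat_lit 0), (nat_lit 26368), (nat_lit 0), [], Pd.none, Pd.none, (nat_lit 0), (nat_lit 1), (nat_lit 0), (nat_lit 0), (nat_lit 0), (nat_lit 0), [⟨(nat_lit 0), (nat_lit 100), (nat_lit 88), (nat_lit 81), (nat_lit 1076884794)⟩], [], [], [],
 ⟨⟨[(nat_lit 60), (nat_lit 100), (nat_lit 120)], [(nat_lit 0), (nat_lit 609), (nat_lit 1609)], [((nat_lit 0), (nat_lit 0), (nat_lit 0)), ((nat_lit 1000), (nat_lit 905), (nat_lit 238)), ((nat_lit 1000), (nat_lit 882), (nat_lit 668))], ((nat_lit 87), (nat_lit 100), (nat_lit 60))⟩, (nat_lit 4107431), (nat_lit 174), (nat_lit 174), (nat_lit 0), (nat_lit 178539), [(nat_lit 3834695552), (nat_lit 6250000018), (nat_lit 7968000000)], [], [(nat_lit 16480112169), (nat_lit 18606759150), (nat_lit 14973643079), (nat_lit 16930940299), (nat_lit 23800473315), (nat_lit 25695357780), (nat_lit 21335877750), (nat_lit 23096763080)], (nat_lit 1271251), (nat_lit 1271251), (nat_lit 292188), (nat_lit 780000),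 (nat_lit 780000), (nat_lit 2090001), [(nat_lit 780000), (nat_lit 1435001), (nat_lit 1271251)], [(nat_lit 10), (nat_lit 54), (nat_lit 317), (nat_lit 100), (nat_lit 10)]⟩,
 ⟨⟨[(nat_lit 80), (nat_lit 120), (nat_lit 160)], [(nat_lit 0), (nat_lit 0), (nat_lit 2132)], [((nat_lit 0), (nat_lit 0), (nat_lit 0)), ((nat_lit 0), (nat_lit 0), (nat_lit 0)), ((nat_lit 858), (nat_lit 1000), (nat_lit 713))], ((nat_lit 100), (nat_lit 92), (nat_lit 61))⟩, (nat_lit 3285817), (nat_lit 326), (nat_lit 326), (nat_lit 0), (nat_lit 216158), [(nat_lit 4688000000), (nat_lit 7968000000), (nat_lit 11872000000)], [], [(nat_lit 35540065868), (nat_lit 35172927649), (nat_lit 33047683179), (nat_lit 34443078396), (nat_lit 45322955459), (nat_lit 43043243845), (nat_lit 49109234522), (nat_lit 44863824974)], (nat_lit 1271251), (nat_lit 1271251), (nat_lit 292188), (nat_lit 780000), (nat_lit 780000), (nat_lit 3072501), [(nat_lit 1100000), (nat_lit 1785001), (nat_lit 1271251)], [(nat_lit 18),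 (nat_lit 59), (nat_lit 428), (nat_lit 200), (nat_lit 11)]⟩,
 ⟨⟨[(nat_lit 100), (nat_lit 140), (nat_lit 160)], [(nat_lit 0), (nat_lit 508), (nat_lit 1689)], [((nat_lit 0), (nat_lit 0), (nat_lit 0)), ((nat_lit 1000), (nat_lit 1000), (nat_lit 198)), ((nat_lit 811), (nat_lit 1000), (nat_lit 671))], ((nat_lit 100), (nat_lit 86), (nat_lit 60))⟩, (nat_lit 2149606), (nat_lit 300), (nat_lit 600), (nat_lit 62500002), (nat_lit 847894), [(nat_lit 6250000000), (nat_lit 9842000000), (nat_lit 11872000000)], [], [(nat_lit 40729564170), (nat_lit 40960134165), (nat_lit 38969311181), (nat_lit 38914346772), (nat_lit 52515010888), (nat_lit 41129853436), (nat_lit 73997622864), (nat_lit 61347534336)], (nat_lit 1271251), (nat_lit 1271251), (nat_lit 780000), (nat_lit 2090001), (nat_lit 780000), (nat_lit 3072501), [(nat_lit 1412501), (nat_lit 1271251), (nat_lit 1271251)], [(nat_lit 23), (nat_lit 62), (nat_lit 483), (nat_lit 250), (nat_lit 12)]⟩⟩))) (.trX (nat_lit 5) (nat_lit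 4) (nat_lit 3) (nat_lit 100) (nat_lit 80) (nat_lit 100) (nat_lit 340) (.spl (nat_lit 5) (nat_lit 120) (.leaf ⟨(nat_lit 0), (nat_lit 0), (nat_lit 0), (nat_lit 1000), (nat_lit 5605), (nat_lit 6391), (nat_lit 10715), (nat_lit 11648), (nat_lit 0), (nat_lit 2275076), (nat_lit 0), [], Pd.none, Pd.none, (nat_lit 0), (nat_lit 1), (nat_lit 0), (nat_lit 0), (nat_lit 0), (nat_lit 0), [⟨(nat_lit 0), (nat_lit 100), (nat_lit 88), (nat_lit 81), (nat_lit 849640015)⟩], [], [⟨(nat_lit 0), (nat_lit 100), (nat_lit 98), (nat_lit 30), (nat_lit 847148661)⟩], [],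
 ⟨⟨[(nat_lit 60), (nat_lit 100), (nat_lit 120)], [(nat_lit 0), (nat_lit 609), (nat_lit 1609)], [((nat_lit 0), (nat_lit 0), (nat_lit 0)), ((nat_lit 1000), (nat_lit 905), (nat_lit 238)), ((nat_lit 1000), (nat_lit 882), (nat_lit 668))], ((nat_lit 87), (nat_lit 100), (nat_lit 60))⟩, (nat_lit 4165905), (nat_lit 291), (nat_lit 291), (nat_lit 0), (nat_lit 366660), [(nat_lit 3282000518), (nat_lit 6250000432), (nat_lit 7968000000)], [], [(nat_lit 23764405904), (nat_lit 24835796341), (nat_lit 22659257714), (nat_lit 23432883047), (nat_lit 34486570277), (nat_lit 35559239354), (nat_lit 31651558702), (nat_lit 32666343792)], (nat_lit 1271251), (nat_lit 1271251), (nat_lit 292188), (nat_lit 780000), (nat_lit 1271251), (nat_lit 1271251), [(nat_lit 780000), (nat_lit 1435001), (nat_lit 1271251)], [(nat_lit 10), (nat_lit 54), (nat_lit 238), (nat_lit 30), (nat_lit 7)]⟩,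
 ⟨⟨[(nat_lit 80), (nat_lit 120), (nat_lit 160)], [(nat_lit 0), (nat_lit 0), (nat_lit 2132)], [((nat_lit 0), (nat_lit 0), (nat_lit 0)), ((nat_lit 0), (nat_lit 0), (nat_lit 0)), ((nat_lit 858), (nat_lit 1000), (nat_lit 713))], ((nat_lit 100), (nat_lit 92), (nat_lit 61))⟩, (nat_lit 967776), (nat_lit 417), (nat_lit 417), (nat_lit 0), (nat_lit 216158), [(nat_lit 4688000000), (nat_lit 7968000000), (nat_lit 11872000000)], [], [(nat_lit 38207630715), (nat_lit 39480140836), (nat_lit 39284024550), (nat_lit 35621772638), (nat_lit 40264254162), (nat_lit 31406531026), (nat_lit 45597115980), (nat_lit 35826069978)], (nat_lit 1271251), (nat_lit 1271251), (nat_lit 292188), (nat_lit 780000), (nat_lit 0), (nat_lit 780000), [(nat_lit 1100000), (nat_lit 1785001), (nat_lit 1271251)], [(nat_lit 18), (nat_lit 59), (nat_lit 373), (nat_lit 150), (nat_lit 10)]⟩,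
 ⟨⟨[(nat_lit 100), (nat_lit 140), (nat_lit 160)], [(nat_lit 0), (nat_lit 508), (nat_lit 1689)], [((nat_lit 0), (nat_lit 0), (nat_lit 0)), ((nat_lit 1000), (nat_lit 1000), (nat_lit 198)), ((nat_lit 811), (nat_lit 1000), (nat_lit 671))], ((nat_lit 100), (nat_lit 86), (nat_lit 60))⟩, (nat_lit 2149607), (nat_lit 300), (nat_lit 518), (nat_lit 62500000), (nat_lit 551322), [(nat_lit 6250000000), (nat_lit 9842000000), (nat_lit 11872000000)], [], [(nat_lit 41985841604), (nat_lit 42373830272), (nat_lit 47635886640), (nat_lit 50920550592), (nat_lit 33518989256), (nat_lit 33595550008), (nat_lit 37874333440), (nat_lit 38074701632)], (nat_lit 1271251), (nat_lit 1271251), (nat_lit 1271251), (nat_lit 1271251), (nat_lit 0), (nat_lit 780000), [(nat_lit 1412501), (nat_lit 1271251), (nat_lit 1271251)], [(nat_lit 23), (nat_lit 62), (nat_lit 428), (nat_lit 200), (nat_lit 11)]⟩⟩) (.leaf ⟨(nat_lit 0), (nat_lit 0), (nat_lit 0), (nat_lit 1000), (nat_lit 0), (nat_lit 6391),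 (nat_lit 6475), (nat_lit 11502), (nat_lit 0), (nat_lit 800318), (nat_lit 0), [], Pd.none, Pd.none, (nat_lit 0), (nat_lit 1), (nat_lit 0), (nat_lit 0), (nat_lit 0), (nat_lit 0), [⟨(nat_lit 0), (nat_lit 100), (nat_lit 88), (nat_lit 81), (nat_lit 905997698)⟩], [], [], [],
 ⟨⟨[(nat_lit 60), (nat_lit 100), (nat_lit 120)], [(nat_lit 0), (nat_lit 609), (nat_lit 1609)], [((nat_lit 0), (nat_lit 0), (nat_lit 0)), ((nat_lit 1000), (nat_lit 905), (nat_lit 238)), ((nat_lit 1000), (nat_lit 882), (nat_lit 668))], ((nat_lit 87), (nat_lit 100), (nat_lit 60))⟩, (nat_lit 3847216), (nat_lit 291), (nat_lit 291), (nat_lit 0), (nat_lit 366660), [(nat_lit 3282000156), (nat_lit 6250000082), (nat_lit 7968000000)], [], [(nat_lit 24152567682), (nat_lit 25223958843), (nat_lit 23047419492), (nat_lit 23821044825), (nat_lit 34486570277), (nat_lit 35559239354), (nat_lit 31651558702), (nat_lit 32666343792)], (nat_lit 1271251), (nat_lit 1271251), (nat_lit 292188), (nat_lit 780000),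 (nat_lit 1271251), (nat_lit 1271251), [(nat_lit 780000), (nat_lit 1435001), (nat_lit 1271251)], [(nat_lit 10), (nat_lit 54), (nat_lit 238), (nat_lit 30), (nat_lit 7)]⟩,
 ⟨⟨[(nat_lit 80), (nat_lit 120), (nat_lit 160)], [(nat_lit 0), (nat_lit 0), (nat_lit 2132)], [((nat_lit 0), (nat_lit 0), (nat_lit 0)), ((nat_lit 0), (nat_lit 0), (nat_lit 0)), ((nat_lit 858), (nat_lit 1000), (nat_lit 713))], ((nat_lit 100), (nat_lit 92), (nat_lit 61))⟩, (nat_lit 3456787), (nat_lit 428), (nat_lit 428), (nat_lit 0), (nat_lit 468350), [(nat_lit 4688000000), (nat_lit 7968000000), (nat_lit 11872000000)], [], [(nat_lit 37624039069), (nat_lit 31484005441), (nat_lit 28571673191), (nat_lit 30109091900), (nat_lit 40062843300), (nat_lit 36916551050), (nat_lit 44267355688), (nat_lit 38476729194)], (nat_lit 1271251), (nat_lit 1271251), (nat_lit 292188), (nat_lit 780000), (nat_lit 780000), (nat_lit 2581251), [(nat_lit 1100000), (nat_lit 1785001), (nat_lit 1271251)], [(nat_lit 18),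 (nat_lit 59), (nat_lit 428), (nat_lit 200), (nat_lit 11)]⟩,
 ⟨⟨[(nat_lit 100), (nat_lit 140), (nat_lit 160)], [(nat_lit 0), (nat_lit 508), (nat_lit 1689)], [((nat_lit 0), (nat_lit 0), (nat_lit 0)), ((nat_lit 1000), (nat_lit 1000), (nat_lit 198)), ((nat_lit 811), (nat_lit 1000), (nat_lit 671))], ((nat_lit 100), (nat_lit 86), (nat_lit 60))⟩, (nat_lit 2149606), (nat_lit 300), (nat_lit 551), (nat_lit 62500002), (nat_lit 847894), [(nat_lit 6250000000), (nat_lit 9842000000), (nat_lit 11872000000)], [], [(nat_lit 33920049004), (nat_lit 34009487102), (nat_lit 38062067450), (nat_lit 38274706358), (nat_lit 33018346739), (nat_lit 33096964322), (nat_lit 40088365385), (nat_lit 41332618844)], (nat_lit 1271251), (nat_lit 1271251), (nat_lit 1271251), (nat_lit 1271251), (nat_lit 780000), (nat_lit 2581251), [(nat_lit 1412501), (nat_lit 1271251), (nat_lit 1271251)], [(nat_lit 23), (nat_lit 62), (nat_lit 538), (nat_lit 300), (nat_lit 13)]⟩⟩)))))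
noncomputable def c4_54 : Tr Lf :=
 (.trZ (nat_lit 0) (nat_lit 1) (nat_lit 3) (nat_lit 100) (nat_lit 94) (nat_lit 88) (nat_lit 80) (.trZ (nat_lit 1) (nat_lit 2) (nat_lit 5) (nat_lit 100) (nat_lit 92) (nat_lit 49) (nat_lit 20) (.spl (nat_lit 5) (nat_lit 200) (.spl (nat_lit 0) (nat_lit 310) (.ord (.leaf ⟨(nat_lit 0), (nat_lit 343), (nat_lit 0), (nat_lit 657), (nat_lit 0), (nat_lit 11962), (nat_lit 10641), (nat_lit 5962), (nat_lit 19236), (nat_lit 3761), (nat_lit 0), [], Pd.none, Pd.none, (nat_lit 0), (nat_lit 1), (nat_lit 0), (nat_lit 0), (nat_lit 5), (nat_lit 0), [⟨(nat_lit 0), (nat_lit 100), (nat_lit 97), (nat_lit 98), (nat_lit 1012774899)⟩], [], [⟨(nat_lit 0), (nat_lit 100), (nat_lit 93), (nat_lit 78), (nat_lit 130242338)⟩], [],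
 ⟨⟨[(nat_lit 60), (nat_lit 100), (nat_lit 120)], [(nat_lit 0), (nat_lit 609), (nat_lit 1609)], [((nat_lit 0), (nat_lit 0), (nat_lit 0)), ((nat_lit 1000), (nat_lit 905), (nat_lit 238)), ((nat_lit 1000), (nat_lit 882), (nat_lit 668))], ((nat_lit 87), (nat_lit 100), (nat_lit 60))⟩, (nat_lit 1581668), (nat_lit 300), (nat_lit 328), (nat_lit 54700001), (nat_lit 544051), [(nat_lit 3282000001), (nat_lit 6377992727), (nat_lit 7968000000)], [], [(nat_lit 16936343157), (nat_lit 17684344679), (nat_lit 16128888477), (nat_lit 16826277204), (nat_lit 41597345030), (nat_lit 42334036015), (nat_lit 39622358873), (nat_lit 40317342309)], (nat_lit 1271251), (nat_lit 1271251), (nat_lit 490000), (nat_lit 780000), (nat_lit 780000), (nat_lit 3072501), [(nat_lit 780000), (nat_lit 1435001), (nat_lit 1271251)], [(nat_lit 10), (nat_lit 54), (nat_lit 373), (nat_lit 150), (nat_lit 12)]⟩,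
 ⟨⟨[(nat_lit 60), (nat_lit 100), (nat_lit 140)], [(nat_lit 0), (nat_lit 0), (nat_lit 2047)], [((nat_lit 0), (nat_lit 0), (nat_lit 0)), ((nat_lit 0), (nat_lit 0), (nat_lit 0)), ((nat_lit 1000), (nat_lit 993), (nat_lit 781))], ((nat_lit 94), (nat_lit 100), (nat_lit 62))⟩, (nat_lit 4231985), (nat_lit 471), (nat_lit 471), (nat_lit 0), (nat_lit 551088), [(nat_lit 3282000000), (nat_lit 6250000000), (nat_lit 9842000000)], [], [(nat_lit 21355412163), (nat_lit 23996237614), (nat_lit 19423393065), (nat_lit 23295059078), (nat_lit 19301838802), (nat_lit 17974498738), (nat_lit 22972981790), (nat_lit 17530949443)], (nat_lit 1271251), (nat_lit 1271251), (nat_lit 490000), (nat_lit 780000), (nat_lit 111251), (nat_lit 1416250), [(nat_lit 780000), (nat_lit 1435001), (nat_lit 1271251)], [(nat_lit 11), (nat_lit 55), (nat_lit 317), (nat_lit 100), (nat_lit 9)]⟩,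
 ⟨⟨[(nat_lit 100), (nat_lit 140), (nat_lit 160)], [(nat_lit 0), (nat_lit 508), (nat_lit 1689)], [((nat_lit 0), (nat_lit 0), (nat_lit 0)), ((nat_lit 1000), (nat_lit 1000), (nat_lit 198)), ((nat_lit 811), (nat_lit 1000), (nat_lit 671))], ((nat_lit 100), (nat_lit 86), (nat_lit 60))⟩, (nat_lit 1482547), (nat_lit 300), (nat_lit 821), (nat_lit 41062500), (nat_lit 1117633), [(nat_lit 4106250000), (nat_lit 6466194000), (nat_lit 7799904000)], [], [(nat_lit 34444950789), (nat_lit 34132625970), (nat_lit 32806100830), (nat_lit 32055795570), (nat_lit 30260767897), (nat_lit 29807906747), (nat_lit 40069911867), (nat_lit 28233478742)], (nat_lit 1271251), (nat_lit 1271251), (nat_lit 780000), (nat_lit 3072501), (nat_lit 111251), (nat_lit 1416250), [(nat_lit 1412501), (nat_lit 1271251), (nat_lit 1271251)], [(nat_lit 23), (nat_lit 62), (nat_lit 483), (nat_lit 250), (nat_lit 12)]⟩⟩)) (.trZ (nat_lit 0) (nat_lit 1) (nat_lit 3) (nat_lit 100) (nat_lit 91) (nat_lit 91) (nat_lit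 90) (.spl (nat_lit 0) (nat_lit 315) (.ord (.leaf ⟨(nat_lit 0), (nat_lit 351), (nat_lit 0), (nat_lit 649), (nat_lit 0), (nat_lit 11918), (nat_lit 10059), (nat_lit 5878), (nat_lit 272903), (nat_lit 104943), (nat_lit 0), [], Pd.none, Pd.none, (nat_lit 0), (nat_lit 1), (nat_lit 0), (nat_lit 0), (nat_lit 5), (nat_lit 0), [⟨(nat_lit 0), (nat_lit 98), (nat_lit 92), (nat_lit 100), (nat_lit 1059165968)⟩], [], [⟨(nat_lit 0), (nat_lit 100), (nat_lit 93), (nat_lit 80), (nat_lit 95032331)⟩], [],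
 ⟨⟨[(nat_lit 60), (nat_lit 100), (nat_lit 120)], [(nat_lit 0), (nat_lit 909), (nat_lit 1866)], [((nat_lit 0), (nat_lit 0), (nat_lit 0)), ((nat_lit 1000), (nat_lit 858), (nat_lit 354)), ((nat_lit 1000), (nat_lit 849), (nat_lit 705))], ((nat_lit 84), (nat_lit 100), (nat_lit 60))⟩, (nat_lit 2454760), (nat_lit 300), (nat_lit 335), (nat_lit 54700001), (nat_lit 579343), [(nat_lit 3282000013), (nat_lit 7305569813), (nat_lit 7968000000)], [], [(nat_lit 17562428211), (nat_lit 17929250719), (nat_lit 16923393720), (nat_lit 17271296938), (nat_lit 41757689810), (nat_lit 42120032882), (nat_lit 40252906982), (nat_lit 40599657899)], (nat_lit 1271251), (nat_lit 1271251), (nat_lit 559688), (nat_lit 780000), (nat_lit 780000), (nat_lit 3072501), [(nat_lit 780000), (nat_lit 1435001), (nat_lit 1271251)], [(nat_lit 10), (nat_lit 54), (nat_lit 373), (nat_lit 150), (nat_lit 12)]⟩,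
 ⟨⟨[(nat_lit 60), (nat_lit 100), (nat_lit 140)], [(nat_lit 0), (nat_lit 0), (nat_lit 2047)], [((nat_lit 0), (nat_lit 0), (nat_lit 0)), ((nat_lit 0), (nat_lit 0), (nat_lit 0)), ((nat_lit 1000), (nat_lit 993), (nat_lit 781))], ((nat_lit 94), (nat_lit 100), (nat_lit 62))⟩, (nat_lit 5005031), (nat_lit 486), (nat_lit 486), (nat_lit 0), (nat_lit 601364), [(nat_lit 3282000000), (nat_lit 6250000000), (nat_lit 9842000000)], [], [(nat_lit 20721852524), (nat_lit 24062317208), (nat_lit 20538225792), (nat_lit 23568022766), (nat_lit 21257068532), (nat_lit 19670446158), (nat_lit 24031808861), (nat_lit 19240514063)], (nat_lit 1271251), (nat_lit 1271251), (nat_lit 559688), (nat_lit 780000), (nat_lit 111251), (nat_lit 1416250), [(nat_lit 780000), (nat_lit 1435001), (nat_lit 1271251)], [(nat_lit 11), (nat_lit 55), (nat_lit 317), (nat_lit 100), (nat_lit 9)]⟩,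
 ⟨⟨[(nat_lit 100), (nat_lit 140), (nat_lit 160)], [(nat_lit 0), (nat_lit 508), (nat_lit 1689)], [((nat_lit 0), (nat_lit 0), (nat_lit 0)), ((nat_lit 1000), (nat_lit 1000), (nat_lit 198)), ((nat_lit 811), (nat_lit 1000), (nat_lit 671))], ((nat_lit 100), (nat_lit 86), (nat_lit 60))⟩, (nat_lit 1670751), (nat_lit 300), (nat_lit 885), (nat_lit 40562500), (nat_lit 1268220), [(nat_lit 4056250000), (nat_lit 6387458000), (nat_lit 7704928000)], [], [(nat_lit 34198570663), (nat_lit 33762058059), (nat_lit 32463760397), (nat_lit 31691929246), (nat_lit 30102975888), (nat_lit 29532243105), (nat_lit 39561805269), (nat_lit 27247518707)], (nat_lit 1271251), (nat_lit 1271251), (nat_lit 780000), (nat_lit 3072501), (nat_lit 111251), (nat_lit 1416250), [(nat_lit 1412501), (nat_lit 1271251), (nat_lit 1271251)], [(nat_lit 23), (nat_lit 62), (nat_lit 483), (nat_lit 250), (nat_lit 12)]⟩⟩)) (.spl (nat_lit 1) (nat_lit 300) (.ord (.leaf ⟨(nat_lit 0), (nat_lit 361), (nat_lit 0),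 (nat_lit 639), (nat_lit 0), (nat_lit 11790), (nat_lit 10453), (nat_lit 5914), (nat_lit 0), (nat_lit 40664), (nat_lit 0), [], Pd.none, Pd.none, (nat_lit 0), (nat_lit 1), (nat_lit 0), (nat_lit 0), (nat_lit 5), (nat_lit 0), [⟨(nat_lit 0), (nat_lit 100), (nat_lit 91), (nat_lit 100), (nat_lit 1049635464)⟩], [], [⟨(nat_lit 0), (nat_lit 100), (nat_lit 94), (nat_lit 73), (nat_lit 11950562)⟩], [],
 ⟨⟨[(nat_lit 60), (nat_lit 100), (nat_lit 120)], [(nat_lit 0), (nat_lit 1063), (nat_lit 2005)], [((nat_lit 0), (nat_lit 0), (nat_lit 0)), ((nat_lit 1000), (nat_lit 834), (nat_lit 414)), ((nat_lit 1000), (nat_lit 833), (nat_lit 732))], ((nat_lit 82), (nat_lit 100), (nat_lit 60))⟩, (nat_lit 3065620), (nat_lit 300), (nat_lit 303), (nat_lit 54700001), (nat_lit 481825), [(nat_lit 3282000007), (nat_lit 7923904433), (nat_lit 7968000000)], [], [(nat_lit 18196156161), (nat_lit 18560501131), (nat_lit 17551516198), (nat_lit 17897117905), (nat_lit 41907780502), (nat_lit 42267828370),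 (nat_lit 40410054619), (nat_lit 40754650480)], (nat_lit 1271251), (nat_lit 1271251), (nat_lit 559688), (nat_lit 780000), (nat_lit 780000), (nat_lit 3072501), [(nat_lit 780000), (nat_lit 1435001), (nat_lit 1271251)], [(nat_lit 10), (nat_lit 54), (nat_lit 373), (nat_lit 150), (nat_lit 12)]⟩,
 ⟨⟨[(nat_lit 60), (nat_lit 100), (nat_lit 140)], [(nat_lit 0), (nat_lit 0), (nat_lit 2047)], [((nat_lit 0), (nat_lit 0), (nat_lit 0)), ((nat_lit 0), (nat_lit 0), (nat_lit 0)), ((nat_lit 1000), (nat_lit 993), (nat_lit 781))], ((nat_lit 94), (nat_lit 100), (nat_lit 62))⟩, (nat_lit 5591791), (nat_lit 462), (nat_lit 462), (nat_lit 0), (nat_lit 541915), [(nat_lit 3282000000), (nat_lit 6250000000), (nat_lit 9842000000)], [], [(nat_lit 19890573619), (nat_lit 21673834561), (nat_lit 19674866889), (nat_lit 21253083944), (nat_lit 20466102057), (nat_lit 17692036614), (nat_lit 23315008404), (nat_lit 18485657073)], (nat_lit 1271251), (nat_lit 1271251), (nat_lit 559688), (nat_lit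 780000), (nat_lit 111251), (nat_lit 1416250), [(nat_lit 780000), (nat_lit 1435001), (nat_lit 1271251)], [(nat_lit 11), (nat_lit 55), (nat_lit 317), (nat_lit 100), (nat_lit 9)]⟩,
 ⟨⟨[(nat_lit 100), (nat_lit 140), (nat_lit 160)], [(nat_lit 0), (nat_lit 508), (nat_lit 1689)], [((nat_lit 0), (nat_lit 0), (nat_lit 0)), ((nat_lit 1000), (nat_lit 1000), (nat_lit 198)), ((nat_lit 811), (nat_lit 1000), (nat_lit 671))], ((nat_lit 100), (nat_lit 86), (nat_lit 60))⟩, (nat_lit 1758004), (nat_lit 300), (nat_lit 816), (nat_lit 39937500), (nat_lit 1105708), [(nat_lit 3993750000), (nat_lit 6289038000), (nat_lit 7586208000)], [], [(nat_lit 32981239878), (nat_lit 32694868787), (nat_lit 31329495955), (nat_lit 30781579540), (nat_lit 28800460845), (nat_lit 28382365478), (nat_lit 39176353059), (nat_lit 28732350296)], (nat_lit 1271251), (nat_lit 1271251), (nat_lit 780000), (nat_lit 3072501), (nat_lit 111251), (nat_lit 1416250), [(nat_lit 1412501), (nat_lit 1271251), (nat_lit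 1271251)], [(nat_lit 23), (nat_lit 62), (nat_lit 456), (nat_lit 225), (nat_lit 12)]⟩⟩)) (.trZ (nat_lit 0) (nat_lit 1) (nat_lit 3) (nat_lit 95) (nat_lit 90) (nat_lit 100) (nat_lit 110) (.trZ (nat_lit 1) (nat_lit 2) (nat_lit 5) (nat_lit 100) (nat_lit 87) (nat_lit 59) (nat_lit 30) (.leaf ⟨(nat_lit 0), (nat_lit 365), (nat_lit 0), (nat_lit 635), (nat_lit 0), (nat_lit 11413), (nat_lit 6369), (nat_lit 5760), (nat_lit 72692), (nat_lit 13213), (nat_lit 0), [], Pd.none, Pd.none, (nat_lit 0), (nat_lit 1), (nat_lit 0), (nat_lit 0), (nat_lit 5), (nat_lit 0), [⟨(nat_lit 0), (nat_lit 95), (nat_lit 90), (nat_lit 100), (nat_lit 1958924809)⟩], [], [], [],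
 ⟨⟨[(nat_lit 60), (nat_lit 100), (nat_lit 120)], [(nat_lit 0), (nat_lit 1063), (nat_lit 2005)], [((nat_lit 0), (nat_lit 0), (nat_lit 0)), ((nat_lit 1000), (nat_lit 834), (nat_lit 414)), ((nat_lit 1000), (nat_lit 833), (nat_lit 732))], ((nat_lit 82), (nat_lit 100), (nat_lit 60))⟩, (nat_lit 733773), (nat_lit 300), (nat_lit 339), (nat_lit 54700001), (nat_lit 614253), [(nat_lit 3282000003), (nat_lit 6250000234), (nat_lit 7968000000)], [], [(nat_lit 18578658356), (nat_lit 19074771035), (nat_lit 18376849484), (nat_lit 18928034867), (nat_lit 40328619444), (nat_lit 40671881067), (nat_lit 39851613709), (nat_lit 40189862256)], (nat_lit 1271251), (nat_lit 1271251), (nat_lit 704688), (nat_lit 780000), (nat_lit 780000), (nat_lit 3072501), [(nat_lit 780000), (nat_lit 1435001), (nat_lit 1271251)], [(nat_lit 10), (nat_lit 54), (nat_lit 373), (nat_lit 150), (nat_lit 12)]⟩,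
 ⟨⟨[(nat_lit 60), (nat_lit 100), (nat_lit 120)], [(nat_lit 0), (nat_lit 609), (nat_lit 1609)], [((nat_lit 0), (nat_lit 0), (nat_lit 0)), ((nat_lit 1000), (nat_lit 905), (nat_lit 238)), ((nat_lit 1000), (nat_lit 882), (nat_lit 668))], ((nat_lit 87), (nat_lit 100), (nat_lit 60))⟩, (nat_lit 10687250), (nat_lit 414), (nat_lit 414), (nat_lit 0), (nat_lit 624900), [(nat_lit 3282000000), (nat_lit 6250000000), (nat_lit 7968000000)], [], [(nat_lit 16744097903), (nat_lit 19350972956), (nat_lit 16768923063), (nat_lit 19340003415), (nat_lit 18761809461), (nat_lit 18126475262), (nat_lit 19539233755), (nat_lit 18179902314)], (nat_lit 1271251), (nat_lit 1271251), (nat_lit 704688), (nat_lit 780000), (nat_lit 169688), (nat_lit 1418125), [(nat_lit 780000), (nat_lit 1435001), (nat_lit 1271251)], [(nat_lit 10), (nat_lit 54), (nat_lit 317), (nat_lit 100), (nat_lit 10)]⟩,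
 ⟨⟨[(nat_lit 100), (nat_lit 140), (nat_lit 160)], [(nat_lit 0), (nat_lit 508), (nat_lit 1689)], [((nat_lit 0), (nat_lit 0), (nat_lit 0)), ((nat_lit 1000), (nat_lit 1000), (nat_lit 198)), ((nat_lit 811), (nat_lit 1000), (nat_lit 671))], ((nat_lit 100), (nat_lit 86), (nat_lit 60))⟩, (nat_lit 1365000), (nat_lit 300), (nat_lit 939), (nat_lit 39687500), (nat_lit 1413005), [(nat_lit 3968750000), (nat_lit 6249670000), (nat_lit 7538720000)], [], [(nat_lit 33183253288), (nat_lit 32633489159), (nat_lit 31365158144), (nat_lit 30575247305), (nat_lit 29519209034), (nat_lit 28840690903), (nat_lit 38771934060), (nat_lit 26466234910)], (nat_lit 1271251), (nat_lit 1271251), (nat_lit 780000), (nat_lit 3072501), (nat_lit 169688), (nat_lit 1418125), [(nat_lit 1412501), (nat_lit 1271251), (nat_lit 1271251)], [(nat_lit 23), (nat_lit 62), (nat_lit 483), (nat_lit 250), (nat_lit 12)]⟩⟩))))))) (.trX (nat_lit 4) (nat_lit 5) (nat_lit 3) (nat_lit 100) (nat_lit 40) (nat_lit 92)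 (nat_lit 390) (.leaf ⟨(nat_lit 0), (nat_lit 0), (nat_lit 0), (nat_lit 1000), (nat_lit 0), (nat_lit 12877), (nat_lit 11409), (nat_lit 8915), (nat_lit 314807), (nat_lit 12846), (nat_lit 0), [], Pd.none, Pd.none, (nat_lit 0), (nat_lit 1), (nat_lit 0), (nat_lit 0), (nat_lit 0), (nat_lit 0), [⟨(nat_lit 0), (nat_lit 97), (nat_lit 93), (nat_lit 100), (nat_lit 2872355129)⟩], [], [], [],
 ⟨⟨[(nat_lit 60), (nat_lit 100), (nat_lit 120)], [(nat_lit 0), (nat_lit 609), (nat_lit 1609)], [((nat_lit 0), (nat_lit 0), (nat_lit 0)), ((nat_lit 1000), (nat_lit 905), (nat_lit 238)), ((nat_lit 1000), (nat_lit 882), (nat_lit 668))], ((nat_lit 87), (nat_lit 100), (nat_lit 60))⟩, (nat_lit 2921402), (nat_lit 300), (nat_lit 370), (nat_lit 54700001), (nat_lit 625357), [(nat_lit 3282000003), (nat_lit 6914392919), (nat_lit 7968000000)], [], [(nat_lit 16111913735), (nat_lit 18559608876), (nat_lit 15014090098), (nat_lit 17830844541), (nat_lit 41481031466), (nat_lit 43125530348), (nat_lit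 39387050017), (nat_lit 40935977763)], (nat_lit 1271251), (nat_lit 1271251), (nat_lit 490000), (nat_lit 780000), (nat_lit 780000), (nat_lit 2990626), [(nat_lit 780000), (nat_lit 1435001), (nat_lit 1271251)], [(nat_lit 10), (nat_lit 54), (nat_lit 373), (nat_lit 150), (nat_lit 12)]⟩,
 ⟨⟨[(nat_lit 60), (nat_lit 100), (nat_lit 140)], [(nat_lit 0), (nat_lit 0), (nat_lit 2047)], [((nat_lit 0), (nat_lit 0), (nat_lit 0)), ((nat_lit 0), (nat_lit 0), (nat_lit 0)), ((nat_lit 1000), (nat_lit 993), (nat_lit 781))], ((nat_lit 94), (nat_lit 100), (nat_lit 62))⟩, (nat_lit 4650575), (nat_lit 428), (nat_lit 428), (nat_lit 0), (nat_lit 653873), [(nat_lit 3282000000), (nat_lit 6250000000), (nat_lit 9842000000)], [], [(nat_lit 13942740505), (nat_lit 19799550898), (nat_lit 13349852557), (nat_lit 19155037813), (nat_lit 39245174170), (nat_lit 42110995500), (nat_lit 37478420189), (nat_lit 40183869808)], (nat_lit 1271251), (nat_lit 1271251), (nat_lit 490000), (nat_lit 780000),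 (nat_lit 1271251), (nat_lit 1271251), [(nat_lit 780000), (nat_lit 1435001), (nat_lit 1271251)], [(nat_lit 11), (nat_lit 55), (nat_lit 373), (nat_lit 150), (nat_lit 10)]⟩,
 ⟨⟨[(nat_lit 100), (nat_lit 140), (nat_lit 160)], [(nat_lit 0), (nat_lit 508), (nat_lit 1689)], [((nat_lit 0), (nat_lit 0), (nat_lit 0)), ((nat_lit 1000), (nat_lit 1000), (nat_lit 198)), ((nat_lit 811), (nat_lit 1000), (nat_lit 671))], ((nat_lit 100), (nat_lit 86), (nat_lit 60))⟩, (nat_lit 2426671), (nat_lit 300), (nat_lit 856), (nat_lit 62500000), (nat_lit 1435206), [(nat_lit 6250000000), (nat_lit 9842000000), (nat_lit 11872000000)], [], [(nat_lit 47095656492), (nat_lit 46296283287), (nat_lit 43960211491), (nat_lit 42667761513), (nat_lit 46135825965), (nat_lit 44905888930), (nat_lit 41948662457), (nat_lit 42067411713)], (nat_lit 1271251), (nat_lit 1271251), (nat_lit 780000), (nat_lit 2990626), (nat_lit 1271251), (nat_lit 1271251), [(nat_lit 1412501), (nat_lit 1271251), (nat_lit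 1271251)], [(nat_lit 23), (nat_lit 62), (nat_lit 538), (nat_lit 300), (nat_lit 13)]⟩⟩)))))
noncomputable def c4_55 : Tr Lf :=
 (.spl (nat_lit 5) (nat_lit 120) (.spl (nat_lit 6) (nat_lit 20) (.stt (nat_lit 1) (.spl (nat_lit 1) (nat_lit 280) (.ord (.leaf ⟨(nat_lit 0), (nat_lit 236), (nat_lit 0), (nat_lit 764), (nat_lit 0), (nat_lit 6632), (nat_lit 7254), (nat_lit 6346), (nat_lit 0), (nat_lit 10880), (nat_lit 0), [], Pd.none, Pd.none, (nat_lit 0), (nat_lit 1), (nat_lit 0), (nat_lit 0), (nat_lit 5), (nat_lit 0), [], [], [⟨(nat_lit 0), (nat_lit 100), (nat_lit 99), (nat_lit 55), (nat_lit 131306471)⟩, ⟨(nat_lit 0), (nat_lit 100), (nat_lit 98), (nat_lit 30), (nat_lit 147579924)⟩], [],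
 ⟨⟨[(nat_lit 60), (nat_lit 80), (nat_lit 100)], [(nat_lit 0), (nat_lit 304), (nat_lit 825)], [((nat_lit 0), (nat_lit 0), (nat_lit 0)), ((nat_lit 1000), (nat_lit 905), (nat_lit 238)), ((nat_lit 1000), (nat_lit 871), (nat_lit 407))], ((nat_lit 87), (nat_lit 100), (nat_lit 44))⟩, (nat_lit 5126635), (nat_lit 105), (nat_lit 105), (nat_lit 0), (nat_lit 0), [(nat_lit 3360903831), (nat_lit 4875943188), (nat_lit 6250000000)], [], [(nat_lit 13747682933), (nat_lit 16133247456), (nat_lit 31996373428), (nat_lit 33027388784), (nat_lit 31996373428), (nat_lit 33027388784), (nat_lit 38905801360), (nat_lit 39330383488)], (nat_lit 0), (nat_lit 0), (nat_lit 0), (nat_lit 0), (nat_lit 0), (nat_lit 0), [], [(nat_lit 9), (nat_lit 50), (nat_lit 428), (nat_lit 200), (nat_lit 16)]⟩,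
 ⟨⟨[(nat_lit 80), (nat_lit 120), (nat_lit 140)], [(nat_lit 0), (nat_lit 0), (nat_lit 1164)], [((nat_lit 0), (nat_lit 0), (nat_lit 0)), ((nat_lit 0), (nat_lit 0), (nat_lit 0)), ((nat_lit 941), (nat_lit 1000), (nat_lit 576))], ((nat_lit 100), (nat_lit 99), (nat_lit 44))⟩, (nat_lit 2692160), (nat_lit 451), (nat_lit 451), (nat_lit 0), (nat_lit 498276), [(nat_lit 4688000000), (nat_lit 7968000000), (nat_lit 9842000000)], [], [(nat_lit 36097192520), (nat_lit 37519665332), (nat_lit 57328861592), (nat_lit 50884799708), (nat_lit 34292463206), (nat_lit 34094593854), (nat_lit 63908947052), (nat_lit 57700553120)], (nat_lit 1271251), (nat_lit 1271251), (nat_lit 780000), (nat_lit 3072501), (nat_lit 0), (nat_lit 780000), [(nat_lit 1100000), (nat_lit 1785001), (nat_lit 1271251)], [(nat_lit 17), (nat_lit 58), (nat_lit 428), (nat_lit 200), (nat_lit 12)]⟩,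
 ⟨⟨[(nat_lit 100), (nat_lit 120), (nat_lit 140)], [(nat_lit 0), (nat_lit 254), (nat_lit 778)], [((nat_lit 0), (nat_lit 0), (nat_lit 0)), ((nat_lit 1000), (nat_lit 1000), (nat_lit 198)), ((nat_lit 960), (nat_lit 1000), (nat_lit 392))], ((nat_lit 100), (nat_lit 94), (nat_lit 44))⟩, (nat_lit 1407685), (nat_lit 300), (nat_lit 469), (nat_lit 47750001), (nat_lit 541331), [(nat_lit 4775000000), (nat_lit 6087552000), (nat_lit 7519288000)], [], [(nat_lit 31222619719), (nat_lit 32353793418), (nat_lit 34954230847), (nat_lit 35182514708), (nat_lit 27582201097), (nat_lit 28555812123), (nat_lit 38959495068), (nat_lit 30884163150)], (nat_lit 1271251), (nat_lit 1271251), (nat_lit 780000), (nat_lit 3072501), (nat_lit 0), (nat_lit 780000), [(nat_lit 1412501), (nat_lit 1271251), (nat_lit 1271251)], [(nat_lit 22), (nat_lit 58), (nat_lit 428), (nat_lit 200), (nat_lit 13)]⟩⟩)) (.trZ (nat_lit 1) (nat_lit 2) (nat_lit 5) (nat_lit 100) (nat_lit 92) (nat_lit 49) (nat_lit 20)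 (.leaf ⟨(nat_lit 0), (nat_lit 400), (nat_lit 0), (nat_lit 600), (nat_lit 0), (nat_lit 5868), (nat_lit 6553), (nat_lit 5374), (nat_lit 83040), (nat_lit 52467), (nat_lit 0), [], Pd.none, Pd.none, (nat_lit 0), (nat_lit 1), (nat_lit 0), (nat_lit 0), (nat_lit 5), (nat_lit 0), [], [], [⟨(nat_lit 0), (nat_lit 100), (nat_lit 92), (nat_lit 49), (nat_lit 244488187)⟩], [],
 ⟨⟨[(nat_lit 60), (nat_lit 80), (nat_lit 100)], [(nat_lit 0), (nat_lit 304), (nat_lit 825)], [((nat_lit 0), (nat_lit 0), (nat_lit 0)), ((nat_lit 1000), (nat_lit 905), (nat_lit 238)), ((nat_lit 1000), (nat_lit 871), (nat_lit 407))], ((nat_lit 87), (nat_lit 100), (nat_lit 44))⟩, (nat_lit 6552906), (nat_lit 105), (nat_lit 105), (nat_lit 0), (nat_lit 0), [(nat_lit 3282000078), (nat_lit 4688000034), (nat_lit 6250000000)], [], [(nat_lit 14260084461), (nat_lit 15925689152), (nat_lit 30903267822), (nat_lit 31882831216), (nat_lit 30903267822), (nat_lit 31882831216), (nat_lit 37806038640), (nat_lit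 38234972512)], (nat_lit 0), (nat_lit 0), (nat_lit 0), (nat_lit 0), (nat_lit 0), (nat_lit 0), [], [(nat_lit 9), (nat_lit 50), (nat_lit 428), (nat_lit 200), (nat_lit 16)]⟩,
 ⟨⟨[(nat_lit 60), (nat_lit 100), (nat_lit 120)], [(nat_lit 0), (nat_lit 0), (nat_lit 1164)], [((nat_lit 0), (nat_lit 0), (nat_lit 0)), ((nat_lit 0), (nat_lit 0), (nat_lit 0)), ((nat_lit 1000), (nat_lit 933), (nat_lit 572))], ((nat_lit 92), (nat_lit 100), (nat_lit 44))⟩, (nat_lit 2080085), (nat_lit 427), (nat_lit 427), (nat_lit 0), (nat_lit 647092), [(nat_lit 3282000000), (nat_lit 6250000000), (nat_lit 7968000000)], [], [(nat_lit 36185333665), (nat_lit 35000757168), (nat_lit 40239822286), (nat_lit 41078172117), (nat_lit 31609486555), (nat_lit 32917763916), (nat_lit 41609910257), (nat_lit 38202097166)], (nat_lit 1271251), (nat_lit 1271251), (nat_lit 780000), (nat_lit 3072501), (nat_lit 111251), (nat_lit 780000), [(nat_lit 780000), (nat_lit 1435001), (nat_lit 1271251)], [(nat_lit 10),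 (nat_lit 54), (nat_lit 373), (nat_lit 150), (nat_lit 12)]⟩,
 ⟨⟨[(nat_lit 100), (nat_lit 120), (nat_lit 140)], [(nat_lit 0), (nat_lit 254), (nat_lit 778)], [((nat_lit 0), (nat_lit 0), (nat_lit 0)), ((nat_lit 1000), (nat_lit 1000), (nat_lit 198)), ((nat_lit 960), (nat_lit 1000), (nat_lit 392))], ((nat_lit 100), (nat_lit 94), (nat_lit 44))⟩, (nat_lit 1105512), (nat_lit 300), (nat_lit 618), (nat_lit 37500000), (nat_lit 873442), [(nat_lit 3750000000), (nat_lit 4780800000), (nat_lit 5905200000)], [], [(nat_lit 25392068887), (nat_lit 26142685810), (nat_lit 27550982523), (nat_lit 26527766598), (nat_lit 22948593157), (nat_lit 23564135454), (nat_lit 31001386196), (nat_lit 23570751012)], (nat_lit 1271251), (nat_lit 1271251), (nat_lit 780000), (nat_lit 3072501), (nat_lit 111251), (nat_lit 780000), [(nat_lit 1412501), (nat_lit 1271251), (nat_lit 1271251)], [(nat_lit 22), (nat_lit 58), (nat_lit 456), (nat_lit 225), (nat_lit 13)]⟩⟩))) (.leaf ⟨(nat_lit 0), (nat_lit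 0), (nat_lit 0), (nat_lit 1000), (nat_lit 358), (nat_lit 7510), (nat_lit 6043), (nat_lit 6494), (nat_lit 65577), (nat_lit 297038), (nat_lit 0), [], Pd.none, Pd.none, (nat_lit 0), (nat_lit 1), (nat_lit 0), (nat_lit 0), (nat_lit 0), (nat_lit 0), [], [], [⟨(nat_lit 0), (nat_lit 100), (nat_lit 98), (nat_lit 30), (nat_lit 1058023934)⟩], [],
 ⟨⟨[(nat_lit 60), (nat_lit 80), (nat_lit 100)], [(nat_lit 0), (nat_lit 304), (nat_lit 825)], [((nat_lit 0), (nat_lit 0), (nat_lit 0)), ((nat_lit 1000), (nat_lit 905), (nat_lit 238)), ((nat_lit 1000), (nat_lit 871), (nat_lit 407))], ((nat_lit 87), (nat_lit 100), (nat_lit 44))⟩, (nat_lit 1026312), (nat_lit 300), (nat_lit 441), (nat_lit 54700015), (nat_lit 971285), [(nat_lit 3282000018), (nat_lit 4688000020), (nat_lit 6250000000)], [], [(nat_lit 26303510626), (nat_lit 26397833854), (nat_lit 33252586415), (nat_lit 34342731120), (nat_lit 42566180158), (nat_lit 39097145938), (nat_lit 40169664800), (nat_lit 40589245840)],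 (nat_lit 1271251), (nat_lit 1271251), (nat_lit 1271251), (nat_lit 1271251), (nat_lit 780000), (nat_lit 3072501), [(nat_lit 780000), (nat_lit 1100000), (nat_lit 1442501)], [(nat_lit 9), (nat_lit 50), (nat_lit 428), (nat_lit 200), (nat_lit 16)]⟩,
 ⟨⟨[(nat_lit 80), (nat_lit 120), (nat_lit 140)], [(nat_lit 0), (nat_lit 0), (nat_lit 1164)], [((nat_lit 0), (nat_lit 0), (nat_lit 0)), ((nat_lit 0), (nat_lit 0), (nat_lit 0)), ((nat_lit 941), (nat_lit 1000), (nat_lit 576))], ((nat_lit 100), (nat_lit 99), (nat_lit 44))⟩, (nat_lit 0), (nat_lit 353), (nat_lit 353), (nat_lit 0), (nat_lit 300574), [(nat_lit 4688000000), (nat_lit 7968000000), (nat_lit 9842000000)], [], [(nat_lit 35522718340), (nat_lit 39331615394), (nat_lit 55894858364), (nat_lit 46202419324), (nat_lit 35694209027), (nat_lit 36373621201), (nat_lit 61897308934), (nat_lit 51553409146)], (nat_lit 1271251), (nat_lit 1271251), (nat_lit 780000), (nat_lit 3072501), (nat_lit 0), (nat_lit 780000), [(nat_lit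 1100000), (nat_lit 1785001), (nat_lit 1271251)], [(nat_lit 17), (nat_lit 58), (nat_lit 456), (nat_lit 225), (nat_lit 13)]⟩,
 ⟨⟨[(nat_lit 100), (nat_lit 120), (nat_lit 140)], [(nat_lit 0), (nat_lit 254), (nat_lit 778)], [((nat_lit 0), (nat_lit 0), (nat_lit 0)), ((nat_lit 1000), (nat_lit 1000), (nat_lit 198)), ((nat_lit 960), (nat_lit 1000), (nat_lit 392))], ((nat_lit 100), (nat_lit 94), (nat_lit 44))⟩, (nat_lit 1133564), (nat_lit 300), (nat_lit 364), (nat_lit 64000623), (nat_lit 329013), [(nat_lit 6250000000), (nat_lit 7968000000), (nat_lit 9842000000)], [], [(nat_lit 39041715701), (nat_lit 42865847411), (nat_lit 46804510684), (nat_lit 48310595387), (nat_lit 35738297709), (nat_lit 39132686515), (nat_lit 49113581076), (nat_lit 43962767469)], (nat_lit 1271251), (nat_lit 1271251), (nat_lit 780000), (nat_lit 3072501), (nat_lit 0), (nat_lit 780000), [(nat_lit 1412501), (nat_lit 1271251), (nat_lit 1271251)], [(nat_lit 22), (nat_lit 58), (nat_lit 456), (nat_lit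 225), (nat_lit 13)]⟩⟩)) (.spl (nat_lit 1) (nat_lit 280) (.ord (.leaf ⟨(nat_lit 0), (nat_lit 0), (nat_lit 0), (nat_lit 1000), (nat_lit 47679), (nat_lit 9244), (nat_lit 4662), (nat_lit 9546), (nat_lit 0), (nat_lit 210218), (nat_lit 0), [], Pd.none, Pd.none, (nat_lit 0), (nat_lit 1), (nat_lit 0), (nat_lit 0), (nat_lit 0), (nat_lit 0), [], [], [⟨(nat_lit 0), (nat_lit 100), (nat_lit 99), (nat_lit 55), (nat_lit 985651426)⟩], [],
 ⟨⟨[(nat_lit 60), (nat_lit 100), (nat_lit 120)], [(nat_lit 0), (nat_lit 609), (nat_lit 1609)], [((nat_lit 0), (nat_lit 0), (nat_lit 0)), ((nat_lit 1000), (nat_lit 905), (nat_lit 238)), ((nat_lit 1000), (nat_lit 882), (nat_lit 668))], ((nat_lit 87), (nat_lit 100), (nat_lit 60))⟩, (nat_lit 266846), (nat_lit 195), (nat_lit 195), (nat_lit 0), (nat_lit 235436), [(nat_lit 3282000009), (nat_lit 7552720719), (nat_lit 7968000000)], [], [(nat_lit 26243356414), (nat_lit 21390274902), (nat_lit 35733535526), (nat_lit 36940457328), (nat_lit 45273441090),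 (nat_lit 41003434122), (nat_lit 42665723120), (nat_lit 43075427296)], (nat_lit 1271251), (nat_lit 1271251), (nat_lit 1271251), (nat_lit 1271251), (nat_lit 780000), (nat_lit 3072501), [(nat_lit 780000), (nat_lit 1435001), (nat_lit 1271251)], [(nat_lit 10), (nat_lit 54), (nat_lit 428), (nat_lit 200), (nat_lit 14)]⟩,
 ⟨⟨[(nat_lit 80), (nat_lit 120), (nat_lit 160)], [(nat_lit 0), (nat_lit 0), (nat_lit 2132)], [((nat_lit 0), (nat_lit 0), (nat_lit 0)), ((nat_lit 0), (nat_lit 0), (nat_lit 0)), ((nat_lit 858), (nat_lit 1000), (nat_lit 713))], ((nat_lit 100), (nat_lit 92), (nat_lit 61))⟩, (nat_lit 3437550), (nat_lit 372), (nat_lit 372), (nat_lit 0), (nat_lit 216238), [(nat_lit 4688000000), (nat_lit 7968000000), (nat_lit 11872000000)], [], [(nat_lit 34867715348), (nat_lit 36405862086), (nat_lit 54259549976), (nat_lit 50118080924), (nat_lit 37292731718), (nat_lit 34911975468), (nat_lit 59603277356), (nat_lit 55613267360)], (nat_lit 1271251), (nat_lit 1271251),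 (nat_lit 780000), (nat_lit 3072501), (nat_lit 0), (nat_lit 780000), [(nat_lit 1100000), (nat_lit 1785001), (nat_lit 1271251)], [(nat_lit 18), (nat_lit 59), (nat_lit 428), (nat_lit 200), (nat_lit 11)]⟩,
 ⟨⟨[(nat_lit 100), (nat_lit 140), (nat_lit 160)], [(nat_lit 0), (nat_lit 508), (nat_lit 1689)], [((nat_lit 0), (nat_lit 0), (nat_lit 0)), ((nat_lit 1000), (nat_lit 1000), (nat_lit 198)), ((nat_lit 811), (nat_lit 1000), (nat_lit 671))], ((nat_lit 100), (nat_lit 86), (nat_lit 60))⟩, (nat_lit 2149606), (nat_lit 300), (nat_lit 385), (nat_lit 62500002), (nat_lit 227100), [(nat_lit 6250000000), (nat_lit 9842000000), (nat_lit 11872000000)], [], [(nat_lit 42116123915), (nat_lit 43903971532), (nat_lit 48285289670), (nat_lit 48739202912), (nat_lit 35528775384), (nat_lit 37090648203), (nat_lit 52280501084), (nat_lit 40954213154)], (nat_lit 1271251), (nat_lit 1271251), (nat_lit 780000), (nat_lit 3072501), (nat_lit 0), (nat_lit 780000), [(nat_lit 1412501), (nat_lit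 1271251), (nat_lit 1271251)], [(nat_lit 23), (nat_lit 62), (nat_lit 428), (nat_lit 200), (nat_lit 11)]⟩⟩)) (.trZ (nat_lit 1) (nat_lit 2) (nat_lit 5) (nat_lit 100) (nat_lit 92) (nat_lit 49) (nat_lit 20) (.leaf ⟨(nat_lit 0), (nat_lit 0), (nat_lit 0), (nat_lit 1000), (nat_lit 9244), (nat_lit 12300), (nat_lit 7994), (nat_lit 12531), (nat_lit 39985), (nat_lit 12327), (nat_lit 0), [], Pd.none, Pd.none, (nat_lit 0), (nat_lit 1), (nat_lit 0), (nat_lit 0), (nat_lit 0), (nat_lit 0), [], [], [⟨(nat_lit 0), (nat_lit 100), (nat_lit 92), (nat_lit 49), (nat_lit 941844682)⟩], [],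
 ⟨⟨[(nat_lit 60), (nat_lit 100), (nat_lit 120)], [(nat_lit 0), (nat_lit 609), (nat_lit 1609)], [((nat_lit 0), (nat_lit 0), (nat_lit 0)), ((nat_lit 1000), (nat_lit 905), (nat_lit 238)), ((nat_lit 1000), (nat_lit 882), (nat_lit 668))], ((nat_lit 87), (nat_lit 100), (nat_lit 60))⟩, (nat_lit 0), (nat_lit 300), (nat_lit 335), (nat_lit 66400000), (nat_lit 614044), [(nat_lit 3282000005), (nat_lit 6523916591), (nat_lit 7968000000)], [], [(nat_lit 26137340710), (nat_lit 20299789081), (nat_lit 40105957950), (nat_lit 41518687600), (nat_lit 46126616796), (nat_lit 41518687600), (nat_lit 47064774000), (nat_lit 47457071200)], (nat_lit 1271251), (nat_lit 1271251), (nat_lit 1271251), (nat_lit 1271251), (nat_lit 780000), (nat_lit 3072501), [(nat_lit 780000), (nat_lit 1435001), (nat_lit 1271251)], [(nat_lit 10), (nat_lit 54), (nat_lit 428), (nat_lit 200), (nat_lit 14)]⟩,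
 ⟨⟨[(nat_lit 60), (nat_lit 100), (nat_lit 140)], [(nat_lit 0), (nat_lit 0), (nat_lit 2047)], [((nat_lit 0), (nat_lit 0), (nat_lit 0)), ((nat_lit 0), (nat_lit 0), (nat_lit 0)), ((nat_lit 1000), (nat_lit 993), (nat_lit 781))], ((nat_lit 94), (nat_lit 100), (nat_lit 62))⟩, (nat_lit 0), (nat_lit 365), (nat_lit 365), (nat_lit 0), (nat_lit 408397), [(nat_lit 3282000000), (nat_lit 6250000000), (nat_lit 9842000000)], [], [(nat_lit 37648388170), (nat_lit 34383337901), (nat_lit 42502057711), (nat_lit 44035200304), (nat_lit 29000204647), (nat_lit 30932318192), (nat_lit 41402073386), (nat_lit 38499352052)], (nat_lit 1271251), (nat_lit 1271251), (nat_lit 780000), (nat_lit 3072501), (nat_lit 111251), (nat_lit 780000), [(nat_lit 780000), (nat_lit 1435001), (nat_lit 1271251)], [(nat_lit 11), (nat_lit 55), (nat_lit 373), (nat_lit 150), (nat_lit 11)]⟩,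
 ⟨⟨[(nat_lit 100), (nat_lit 140), (nat_lit 160)], [(nat_lit 0), (nat_lit 508), (nat_lit 1689)], [((nat_lit 0), (nat_lit 0), (nat_lit 0)), ((nat_lit 1000), (nat_lit 1000), (nat_lit 198)), ((nat_lit 811), (nat_lit 1000), (nat_lit 671))], ((nat_lit 100), (nat_lit 86), (nat_lit 60))⟩, (nat_lit 2149606), (nat_lit 300), (nat_lit 499), (nat_lit 62500002), (nat_lit 459518), [(nat_lit 6250000000), (nat_lit 9842000000), (nat_lit 11872000000)], [], [(nat_lit 40249178471), (nat_lit 41953960797), (nat_lit 48399816397), (nat_lit 53263788987), (nat_lit 33014049331), (nat_lit 34413545283), (nat_lit 55377898274), (nat_lit 41864751472)], (nat_lit 1271251), (nat_lit 1271251), (nat_lit 780000), (nat_lit 3072501), (nat_lit 111251), (nat_lit 780000), [(nat_lit 1412501), (nat_lit 1271251), (nat_lit 1271251)], [(nat_lit 23), (nat_lit 62), (nat_lit 456), (nat_lit 225), (nat_lit 12)]⟩⟩)))) (.spl (nat_lit 1) (nat_lit 280) (.ord (.leaf ⟨(nat_lit 0), (nat_lit 0), (nat_lit 0),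 (nat_lit 1000), (nat_lit 3601), (nat_lit 10538), (nat_lit 6755), (nat_lit 6625), (nat_lit 0), (nat_lit 684359), (nat_lit 0), [], Pd.none, Pd.none, (nat_lit 0), (nat_lit 1), (nat_lit 0), (nat_lit 0), (nat_lit 0), (nat_lit 0), [], [], [], [],
 ⟨⟨[(nat_lit 60), (nat_lit 100), (nat_lit 120)], [(nat_lit 0), (nat_lit 609), (nat_lit 1609)], [((nat_lit 0), (nat_lit 0), (nat_lit 0)), ((nat_lit 1000), (nat_lit 905), (nat_lit 238)), ((nat_lit 1000), (nat_lit 882), (nat_lit 668))], ((nat_lit 87), (nat_lit 100), (nat_lit 60))⟩, (nat_lit 532909), (nat_lit 300), (nat_lit 315), (nat_lit 59254585), (nat_lit 554780), [(nat_lit 3282000037), (nat_lit 6250000055), (nat_lit 7968000000)], [], [(nat_lit 26198466316), (nat_lit 21981876069), (nat_lit 37584947377), (nat_lit 38879014256), (nat_lit 44536762363), (nat_lit 39669028327), (nat_lit 44528410240), (nat_lit 44930743792)], (nat_lit 1271251), (nat_lit 1271251), (nat_lit 1271251), (nat_lit 1271251), (nat_lit 780000), (nat_lit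 3072501), [(nat_lit 780000), (nat_lit 1435001), (nat_lit 1271251)], [(nat_lit 10), (nat_lit 54), (nat_lit 428), (nat_lit 200), (nat_lit 14)]⟩,
 ⟨⟨[(nat_lit 80), (nat_lit 120), (nat_lit 160)], [(nat_lit 0), (nat_lit 0), (nat_lit 2132)], [((nat_lit 0), (nat_lit 0), (nat_lit 0)), ((nat_lit 0), (nat_lit 0), (nat_lit 0)), ((nat_lit 858), (nat_lit 1000), (nat_lit 713))], ((nat_lit 100), (nat_lit 92), (nat_lit 61))⟩, (nat_lit 2971459), (nat_lit 551), (nat_lit 551), (nat_lit 0), (nat_lit 771434), [(nat_lit 4688000000), (nat_lit 7968000000), (nat_lit 11872000000)], [], [(nat_lit 38372786765), (nat_lit 35851046042), (nat_lit 40492984060), (nat_lit 41073825210), (nat_lit 63519900660), (nat_lit 57440650595), (nat_lit 42544050060), (nat_lit 42742009510)], (nat_lit 1271251), (nat_lit 1271251), (nat_lit 1271251), (nat_lit 1271251), (nat_lit 780000), (nat_lit 3072501), [(nat_lit 1100000), (nat_lit 1785001), (nat_lit 1271251)], [(nat_lit 18), (nat_lit 59), (nat_lit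 538), (nat_lit 300), (nat_lit 13)]⟩,
 ⟨⟨[(nat_lit 100), (nat_lit 140), (nat_lit 160)], [(nat_lit 0), (nat_lit 508), (nat_lit 1689)], [((nat_lit 0), (nat_lit 0), (nat_lit 0)), ((nat_lit 1000), (nat_lit 1000), (nat_lit 198)), ((nat_lit 811), (nat_lit 1000), (nat_lit 671))], ((nat_lit 100), (nat_lit 86), (nat_lit 60))⟩, (nat_lit 2149606), (nat_lit 300), (nat_lit 600), (nat_lit 62500002), (nat_lit 847894), [(nat_lit 6250000000), (nat_lit 9842000000), (nat_lit 11872000000)], [], [(nat_lit 51419917325), (nat_lit 51924003656), (nat_lit 52823769924), (nat_lit 52745663897), (nat_lit 64232669250), (nat_lit 55210181125), (nat_lit 51883900075), (nat_lit 51446944343)], (nat_lit 1271251), (nat_lit 1271251), (nat_lit 1271251), (nat_lit 1271251), (nat_lit 780000), (nat_lit 3072501), [(nat_lit 1412501), (nat_lit 1271251), (nat_lit 1271251)], [(nat_lit 23), (nat_lit 62), (nat_lit 538), (nat_lit 300), (nat_lit 14)]⟩⟩)) (.spl (nat_lit 2) (nat_lit 280) (.leaf ⟨(nat_lit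 0), (nat_lit 161), (nat_lit 0), (nat_lit 839), (nat_lit 0), (nat_lit 10781), (nat_lit 8491), (nat_lit 6438), (nat_lit 209025516613), (nat_lit 0), (nat_lit 0), [], Pd.none, Pd.none, (nat_lit 0), (nat_lit 1), (nat_lit 0), (nat_lit 0), (nat_lit 5), (nat_lit 0), [], [], [], [],
 ⟨⟨[(nat_lit 60), (nat_lit 100), (nat_lit 120)], [(nat_lit 0), (nat_lit 609), (nat_lit 1609)], [((nat_lit 0), (nat_lit 0), (nat_lit 0)), ((nat_lit 1000), (nat_lit 905), (nat_lit 238)), ((nat_lit 1000), (nat_lit 882), (nat_lit 668))], ((nat_lit 87), (nat_lit 100), (nat_lit 60))⟩, (nat_lit 2952715), (nat_lit 300), (nat_lit 412), (nat_lit 54700001), (nat_lit 765547), [(nat_lit 3282000001), (nat_lit 6892491347), (nat_lit 7968000000)], [], [(nat_lit 26190036331), (nat_lit 21508020698), (nat_lit 37932623637), (nat_lit 39243055472), (nat_lit 43842316687), (nat_lit 39243055472), (nat_lit 44878203880), (nat_lit 45279153304)], (nat_lit 1271251), (nat_lit 1271251), (nat_lit 1271251), (nat_lit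 1271251), (nat_lit 780000), (nat_lit 3072501), [(nat_lit 780000), (nat_lit 1435001), (nat_lit 1271251)], [(nat_lit 10), (nat_lit 54), (nat_lit 428), (nat_lit 200), (nat_lit 14)]⟩,
 ⟨⟨[(nat_lit 60), (nat_lit 100), (nat_lit 140)], [(nat_lit 0), (nat_lit 0), (nat_lit 2047)], [((nat_lit 0), (nat_lit 0), (nat_lit 0)), ((nat_lit 0), (nat_lit 0), (nat_lit 0)), ((nat_lit 1000), (nat_lit 993), (nat_lit 781))], ((nat_lit 94), (nat_lit 100), (nat_lit 62))⟩, (nat_lit 3737001), (nat_lit 480), (nat_lit 480), (nat_lit 0), (nat_lit 780348), [(nat_lit 3282000000), (nat_lit 6250000000), (nat_lit 9842000000)], [], [(nat_lit 30727236737), (nat_lit 23347118121), (nat_lit 33499957711), (nat_lit 35812378992), (nat_lit 47631730816), (nat_lit 39787371412), (nat_lit 41167801416), (nat_lit 41995787944)], (nat_lit 1271251), (nat_lit 1271251), (nat_lit 1271251), (nat_lit 1271251), (nat_lit 780000), (nat_lit 3072501), [(nat_lit 780000), (nat_lit 1435001), (nat_lit 1271251)], [(nat_lit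 11), (nat_lit 55), (nat_lit 428), (nat_lit 200), (nat_lit 12)]⟩,
 ⟨⟨[(nat_lit 100), (nat_lit 140), (nat_lit 160)], [(nat_lit 0), (nat_lit 508), (nat_lit 1689)], [((nat_lit 0), (nat_lit 0), (nat_lit 0)), ((nat_lit 1000), (nat_lit 1000), (nat_lit 198)), ((nat_lit 811), (nat_lit 1000), (nat_lit 671))], ((nat_lit 100), (nat_lit 86), (nat_lit 60))⟩, (nat_lit 2217158), (nat_lit 300), (nat_lit 861), (nat_lit 52437500), (nat_lit 1366583), [(nat_lit 5243750000), (nat_lit 8257438000), (nat_lit 9960608000)], [], [(nat_lit 46777866078), (nat_lit 46526068054), (nat_lit 45141830490), (nat_lit 44600943444), (nat_lit 56532422544), (nat_lit 47764606914), (nat_lit 42322122339), (nat_lit 41593352993)], (nat_lit 1271251), (nat_lit 1271251), (nat_lit 1271251), (nat_lit 1271251), (nat_lit 780000), (nat_lit 3072501), [(nat_lit 1412501), (nat_lit 1271251), (nat_lit 1271251)], [(nat_lit 23), (nat_lit 62), (nat_lit 538), (nat_lit 300), (nat_lit 14)]⟩⟩) (.leaf ⟨(nat_lit 0),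 (nat_lit 0), (nat_lit 0), (nat_lit 1000), (nat_lit 0), (nat_lit 10576), (nat_lit 9135), (nat_lit 10322), (nat_lit 5397656), (nat_lit 6361193938532), (nat_lit 0), [], Pd.none, Pd.none, (nat_lit 0), (nat_lit 1), (nat_lit 0), (nat_lit 0), (nat_lit 0), (nat_lit 0), [], [], [], [],
 ⟨⟨[(nat_lit 60), (nat_lit 100), (nat_lit 120)], [(nat_lit 0), (nat_lit 609), (nat_lit 1609)], [((nat_lit 0), (nat_lit 0), (nat_lit 0)), ((nat_lit 1000), (nat_lit 905), (nat_lit 238)), ((nat_lit 1000), (nat_lit 882), (nat_lit 668))], ((nat_lit 87), (nat_lit 100), (nat_lit 60))⟩, (nat_lit 7692646), (nat_lit 300), (nat_lit 515), (nat_lit 54700001), (nat_lit 975052), [(nat_lit 3282000049), (nat_lit 7870506607), (nat_lit 7968000000)], [], [(nat_lit 26197148082), (nat_lit 22033306640), (nat_lit 37639316504), (nat_lit 38935942512), (nat_lit 41818369946), (nat_lit 38935942512), (nat_lit 44583110480), (nat_lit 44985227584)], (nat_lit 1271251), (nat_lit 1271251), (nat_lit 1271251), (nat_lit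 1271251), (nat_lit 780000), (nat_lit 3072501), [(nat_lit 780000), (nat_lit 1435001), (nat_lit 1271251)], [(nat_lit 10), (nat_lit 54), (nat_lit 428), (nat_lit 200), (nat_lit 14)]⟩,
 ⟨⟨[(nat_lit 60), (nat_lit 100), (nat_lit 140)], [(nat_lit 0), (nat_lit 0), (nat_lit 2047)], [((nat_lit 0), (nat_lit 0), (nat_lit 0)), ((nat_lit 0), (nat_lit 0), (nat_lit 0)), ((nat_lit 1000), (nat_lit 993), (nat_lit 781))], ((nat_lit 94), (nat_lit 100), (nat_lit 62))⟩, (nat_lit 4851429), (nat_lit 606), (nat_lit 606), (nat_lit 0), (nat_lit 1024815), [(nat_lit 3282000000), (nat_lit 6250000000), (nat_lit 9842000000)], [], [(nat_lit 31042994445), (nat_lit 23434762610), (nat_lit 34378000835), (nat_lit 36777163120), (nat_lit 48291557760), (nat_lit 39852242820), (nat_lit 42098494760), (nat_lit 42919144840)], (nat_lit 1271251), (nat_lit 1271251), (nat_lit 1271251), (nat_lit 1271251), (nat_lit 780000), (nat_lit 3072501), [(nat_lit 780000), (nat_lit 1435001), (nat_lit 1271251)],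 [(nat_lit 11), (nat_lit 55), (nat_lit 428), (nat_lit 200), (nat_lit 12)]⟩,
 ⟨⟨[(nat_lit 60), (nat_lit 100), (nat_lit 140)], [(nat_lit 0), (nat_lit 0), (nat_lit 2047)], [((nat_lit 0), (nat_lit 0), (nat_lit 0)), ((nat_lit 0), (nat_lit 0), (nat_lit 0)), ((nat_lit 1000), (nat_lit 993), (nat_lit 781))], ((nat_lit 94), (nat_lit 100), (nat_lit 62))⟩, (nat_lit 2443161), (nat_lit 300), (nat_lit 606), (nat_lit 62500000), (nat_lit 1024815), [(nat_lit 3282000000), (nat_lit 6250000000), (nat_lit 9842000000)], [], [(nat_lit 33278342436), (nat_lit 33944670294), (nat_lit 35996381562), (nat_lit 38555422064), (nat_lit 49507729472), (nat_lit 39971811704), (nat_lit 43813918672), (nat_lit 44621046448)], (nat_lit 1271251), (nat_lit 1271251), (nat_lit 1271251), (nat_lit 1271251), (nat_lit 780000), (nat_lit 3072501), [(nat_lit 780000), (nat_lit 1435001), (nat_lit 1271251)], [(nat_lit 11), (nat_lit 55), (nat_lit 428), (nat_lit 200), (nat_lit 12)]⟩⟩))))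
noncomputable def c4_56 : Tr Lf :=
 (.spl (nat_lit 2) (nat_lit 180) (.spl (nat_lit 0) (nat_lit 310) (.ord (.spl (nat_lit 6) (nat_lit 48) (.leaf ⟨(nat_lit 828), (nat_lit 127), (nat_lit 0), (nat_lit 45), (nat_lit 14248), (nat_lit 4493), (nat_lit 1809), (nat_lit 354), (nat_lit 210129), (nat_lit 0), (nat_lit 207000), [((nat_lit 310), [((nat_lit 16), (nat_lit 0), (nat_lit 828))])], ⟨(nat_lit 6), false, false, false, (nat_lit 151), (nat_lit 4743), (nat_lit 5000), [(nat_lit 1274998), (nat_lit 1281601), (nat_lit 1349990), (nat_lit 1356801), (nat_lit 1399997), (nat_lit 1403574), (nat_lit 1474987), (nat_lit 1478772)]⟩, ⟨(nat_lit 3), false, false, true, (nat_lit 164), (nat_lit 4743), (nat_lit 5000), [(nat_lit 1271427), (nat_lit 1274646), (nat_lit 1335713), (nat_lit 1339111), (nat_lit 1485713), (nat_lit 1483746), (nat_lit 1549999), (nat_lit 1548210)]⟩, (nat_lit 4128852), (nat_lit 48881528), (nat_lit 8459441), (nat_lit 9659031), (nat_lit 3), (nat_lit 0), [⟨(nat_lit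 0), (nat_lit 91), (nat_lit 91), (nat_lit 100), (nat_lit 372311214)⟩], [], [], [],
 ⟨⟨[(nat_lit 60), (nat_lit 100), (nat_lit 120)], [(nat_lit 0), (nat_lit 609), (nat_lit 1609)], [((nat_lit 0), (nat_lit 0), (nat_lit 0)), ((nat_lit 1000), (nat_lit 905), (nat_lit 238)), ((nat_lit 1000), (nat_lit 882), (nat_lit 668))], ((nat_lit 88), (nat_lit 100), (nat_lit 66))⟩, (nat_lit 0), (nat_lit 157), (nat_lit 157), (nat_lit 0), (nat_lit 40082), [(nat_lit 2397429607), (nat_lit 100568724321), (nat_lit 3915105600)], [(nat_lit 0), (nat_lit 0), (nat_lit 0)], [(nat_lit 14414605215), (nat_lit 15437978111), (nat_lit 13835222852), (nat_lit 14693453182), (nat_lit 18513608281), (nat_lit 19329128863), (nat_lit 17726755436), (nat_lit 18411801138)], (nat_lit 1271251), (nat_lit 1271251), (nat_lit 292188), (nat_lit 780000), (nat_lit 780000), (nat_lit 1762501), [(nat_lit 780000), (nat_lit 1435001), (nat_lit 1271251)], [(nat_lit 10), (nat_lit 54), (nat_lit 317), (nat_lit 100), (nat_lit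 10)]⟩,
 ⟨⟨[(nat_lit 80), (nat_lit 120), (nat_lit 160)], [(nat_lit 0), (nat_lit 0), (nat_lit 2132)], [((nat_lit 0), (nat_lit 0), (nat_lit 0)), ((nat_lit 0), (nat_lit 0), (nat_lit 0)), ((nat_lit 858), (nat_lit 1000), (nat_lit 713))], ((nat_lit 100), (nat_lit 89), (nat_lit 66))⟩, (nat_lit 0), (nat_lit 359), (nat_lit 359), (nat_lit 0), (nat_lit 43553), [(nat_lit 806336000), (nat_lit 1370496000), (nat_lit 2041984000)], [], [(nat_lit 9842017972), (nat_lit 7647034092), (nat_lit 6474992300), (nat_lit 6843777951), (nat_lit 8870575996), (nat_lit 8011926539), (nat_lit 9963565586), (nat_lit 7254133123)], (nat_lit 1271251), (nat_lit 1271251), (nat_lit 292188), (nat_lit 780000), (nat_lit 0), (nat_lit 2825001), [(nat_lit 1100000), (nat_lit 1785001), (nat_lit 1271251)], [(nat_lit 18), (nat_lit 59), (nat_lit 456), (nat_lit 225), (nat_lit 12)]⟩,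
 ⟨⟨[(nat_lit 140), (nat_lit 180), (nat_lit 200)], [(nat_lit 0), (nat_lit 0), (nat_lit 2835)], [((nat_lit 0), (nat_lit 0), (nat_lit 0)), ((nat_lit 0), (nat_lit 0), (nat_lit 0)), ((nat_lit 363), (nat_lit 1000), (nat_lit 798))], ((nat_lit 0), (nat_lit 0), (nat_lit 0))⟩, (nat_lit 12381), (nat_lit 300), (nat_lit 739), (nat_lit 3514500), (nat_lit 491303), [(nat_lit 442890000), (nat_lit 632610000), (nat_lit 738000000)], [], [(nat_lit 3651742446), (nat_lit 3587223790), (nat_lit 3535353068), (nat_lit 3469419886), (nat_lit 3284074123), (nat_lit 3213357324), (nat_lit 3366247224), (nat_lit 3695871366)], (nat_lit 780000), (nat_lit 1271251), (nat_lit 780000), (nat_lit 1762501), (nat_lit 0), (nat_lit 2825001), [(nat_lit 1977501), (nat_lit 1271251), (nat_lit 1271251)], [(nat_lit 32), (nat_lit 67), (nat_lit 456), (nat_lit 225), (nat_lit 10)]⟩⟩) (.dle (nat_lit 0)))) (.spl (nat_lit 1) (nat_lit 280) (.dle (nat_lit 0)) (.trZ (nat_lit 0) (nat_lit 1) (nat_lit 3) (nat_lit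 100) (nat_lit 91) (nat_lit 91) (nat_lit 90) (.trX (nat_lit 5) (nat_lit 1) (nat_lit 2) (nat_lit 92) (nat_lit 49) (nat_lit 100) (nat_lit 380) (.spl (nat_lit 1) (nat_lit 300) (.spl (nat_lit 6) (nat_lit 48) (.leaf ⟨(nat_lit 0), (nat_lit 716), (nat_lit 0), (nat_lit 284), (nat_lit 15592), (nat_lit 5342), (nat_lit 5215), (nat_lit 2123), (nat_lit 0), (nat_lit 0), (nat_lit 0), [], Pd.none, Pd.none, (nat_lit 0), (nat_lit 1), (nat_lit 0), (nat_lit 0), (nat_lit 3), (nat_lit 0), [⟨(nat_lit 0), (nat_lit 94), (nat_lit 87), (nat_lit 100), (nat_lit 800346010)⟩], [], [], [],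
 ⟨⟨[(nat_lit 60), (nat_lit 100), (nat_lit 120)], [(nat_lit 0), (nat_lit 909), (nat_lit 1866)], [((nat_lit 0), (nat_lit 0), (nat_lit 0)), ((nat_lit 1000), (nat_lit 858), (nat_lit 354)), ((nat_lit 1000), (nat_lit 849), (nat_lit 705))], ((nat_lit 84), (nat_lit 100), (nat_lit 66))⟩, (nat_lit 0), (nat_lit 133), (nat_lit 133), (nat_lit 0), (nat_lit 41866), [(nat_lit 3282000174), (nat_lit 99599431020), (nat_lit 7968000000)], [], [(nat_lit 14474969354), (nat_lit 15569882444), (nat_lit 14833919291), (nat_lit 15782582886), (nat_lit 18482571697), (nat_lit 19353139980), (nat_lit 18633208041), (nat_lit 19446313512)], (nat_lit 1271251), (nat_lit 1271251), (nat_lit 559688), (nat_lit 780000), (nat_lit 780000), (nat_lit 1762501), [(nat_lit 780000), (nat_lit 1435001), (nat_lit 1271251)], [(nat_lit 10), (nat_lit 54), (nat_lit 317), (nat_lit 100), (nat_lit 10)]⟩,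
 ⟨⟨[(nat_lit 60), (nat_lit 100), (nat_lit 140)], [(nat_lit 0), (nat_lit 0), (nat_lit 2047)], [((nat_lit 0), (nat_lit 0), (nat_lit 0)), ((nat_lit 0), (nat_lit 0), (nat_lit 0)), ((nat_lit 1000), (nat_lit 993), (nat_lit 781))], ((nat_lit 96), (nat_lit 100), (nat_lit 68))⟩, (nat_lit 2760269), (nat_lit 208), (nat_lit 208), (nat_lit 0), (nat_lit 46732), [(nat_lit 3282000000), (nat_lit 6250000000), (nat_lit 9842000000)], [], [(nat_lit 22999094949), (nat_lit 24456974691), (nat_lit 23199126822), (nat_lit 24529672950), (nat_lit 30547204124), (nat_lit 31259939358), (nat_lit 30314667371), (nat_lit 31044345558)], (nat_lit 1271251), (nat_lit 1271251), (nat_lit 559688), (nat_lit 780000), (nat_lit 0), (nat_lit 2683751), [(nat_lit 780000), (nat_lit 1435001), (nat_lit 1271251)], [(nat_lit 11), (nat_lit 55), (nat_lit 345), (nat_lit 125), (nat_lit 10)]⟩,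
 ⟨⟨[(nat_lit 140), (nat_lit 180), (nat_lit 200)], [(nat_lit 0), (nat_lit 0), (nat_lit 2835)], [((nat_lit 0), (nat_lit 0), (nat_lit 0)), ((nat_lit 0), (nat_lit 0), (nat_lit 0)), ((nat_lit 363), (nat_lit 1000), (nat_lit 798))], ((nat_lit 0), (nat_lit 0), (nat_lit 0))⟩, (nat_lit 78138), (nat_lit 300), (nat_lit 759), (nat_lit 22180400), (nat_lit 537654), [(nat_lit 2795128000), (nat_lit 3992472000), (nat_lit 4657600000)], [], [(nat_lit 23484400804), (nat_lit 23105273377), (nat_lit 22799898618), (nat_lit 22412452983), (nat_lit 21295022862), (nat_lit 20886425150), (nat_lit 20536909414), (nat_lit 22524392819)], (nat_lit 780000), (nat_lit 1271251), (nat_lit 780000), (nat_lit 1762501), (nat_lit 0), (nat_lit 2683751), [(nat_lit 1977501), (nat_lit 1271251), (nat_lit 1271251)], [(nat_lit 32), (nat_lit 67), (nat_lit 428), (nat_lit 200), (nat_lit 9)]⟩⟩) (.dle (nat_lit 0))) (.trZ (nat_lit 0) (nat_lit 1) (nat_lit 3) (nat_lit 97) (nat_lit 93) (nat_lit 100) (nat_lit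 110) (.trX (nat_lit 5) (nat_lit 1) (nat_lit 2) (nat_lit 87) (nat_lit 59) (nat_lit 100) (nat_lit 370) (.leaf ⟨(nat_lit 0), (nat_lit 787), (nat_lit 0), (nat_lit 213), (nat_lit 27820), (nat_lit 18406), (nat_lit 10061), (nat_lit 1930), (nat_lit 215351), (nat_lit 0), (nat_lit 0), [], Pd.none, Pd.none, (nat_lit 0), (nat_lit 1), (nat_lit 0), (nat_lit 0), (nat_lit 3), (nat_lit 0), [⟨(nat_lit 0), (nat_lit 90), (nat_lit 88), (nat_lit 100), (nat_lit 3325787466)⟩], [], [], [],
 ⟨⟨[(nat_lit 60), (nat_lit 100), (nat_lit 140)], [(nat_lit 0), (nat_lit 909), (nat_lit 2819)], [((nat_lit 0), (nat_lit 0), (nat_lit 0)), ((nat_lit 1000), (nat_lit 858), (nat_lit 354)), ((nat_lit 1000), (nat_lit 858), (nat_lit 746))], ((nat_lit 87), (nat_lit 100), (nat_lit 78))⟩, (nat_lit 0), (nat_lit 147), (nat_lit 147), (nat_lit 0), (nat_lit 123904), [(nat_lit 8546287637), (nat_lit 13630058835), (nat_lit 9842000000)], [], [(nat_lit 21246126115), (nat_lit 22791375165), (nat_lit 20812237369),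 (nat_lit 22330397486), (nat_lit 22211835759), (nat_lit 24136637524), (nat_lit 21686453126), (nat_lit 23674294216)], (nat_lit 1271251), (nat_lit 1271251), (nat_lit 704688), (nat_lit 780000), (nat_lit 780000), (nat_lit 1762501), [(nat_lit 780000), (nat_lit 1435001), (nat_lit 1271251)], [(nat_lit 11), (nat_lit 55), (nat_lit 317), (nat_lit 100), (nat_lit 9)]⟩,
 ⟨⟨[(nat_lit 60), (nat_lit 100), (nat_lit 140)], [(nat_lit 0), (nat_lit 609), (nat_lit 2558)], [((nat_lit 0), (nat_lit 0), (nat_lit 0)), ((nat_lit 1000), (nat_lit 905), (nat_lit 238)), ((nat_lit 1000), (nat_lit 904), (nat_lit 760))], ((nat_lit 91), (nat_lit 100), (nat_lit 79))⟩, (nat_lit 892418), (nat_lit 285), (nat_lit 285), (nat_lit 0), (nat_lit 126196), [(nat_lit 3282000000), (nat_lit 6250000000), (nat_lit 9842000000)], [], [(nat_lit 29943541427), (nat_lit 32176746825), (nat_lit 29777287006), (nat_lit 31975943654), (nat_lit 33378318867), (nat_lit 34896395433), (nat_lit 33051390430), (nat_lit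 34546647879)], (nat_lit 1271251), (nat_lit 1271251), (nat_lit 704688), (nat_lit 780000), (nat_lit 0), (nat_lit 2613125), [(nat_lit 780000), (nat_lit 1435001), (nat_lit 1271251)], [(nat_lit 11), (nat_lit 55), (nat_lit 345), (nat_lit 125), (nat_lit 10)]⟩,
 ⟨⟨[(nat_lit 140), (nat_lit 180), (nat_lit 200)], [(nat_lit 0), (nat_lit 0), (nat_lit 2835)], [((nat_lit 0), (nat_lit 0), (nat_lit 0)), ((nat_lit 0), (nat_lit 0), (nat_lit 0)), ((nat_lit 363), (nat_lit 1000), (nat_lit 798))], ((nat_lit 0), (nat_lit 0), (nat_lit 0))⟩, (nat_lit 58603), (nat_lit 300), (nat_lit 1247), (nat_lit 16635303), (nat_lit 1610787), [(nat_lit 2096346000), (nat_lit 2994354000), (nat_lit 3493200000)], [], [(nat_lit 19330069334), (nat_lit 18907135502), (nat_lit 18521801331), (nat_lit 18101456274), (nat_lit 16822554068), (nat_lit 16406897952), (nat_lit 16025840166), (nat_lit 17736092558)], (nat_lit 780000), (nat_lit 1271251), (nat_lit 780000), (nat_lit 1762501), (nat_lit 0), (nat_lit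 2613125), [(nat_lit 1977501), (nat_lit 1271251), (nat_lit 1271251)], [(nat_lit 32), (nat_lit 67), (nat_lit 428), (nat_lit 200), (nat_lit 9)]⟩⟩)))))))) (.spl (nat_lit 6) (nat_lit 48) (.leaf ⟨(nat_lit 0), (nat_lit 612), (nat_lit 0), (nat_lit 388), (nat_lit 300000), (nat_lit 5342), (nat_lit 10270), (nat_lit 1842), (nat_lit 179298), (nat_lit 0), (nat_lit 0), [], Pd.none, Pd.none, (nat_lit 0), (nat_lit 1), (nat_lit 0), (nat_lit 0), (nat_lit 4), (nat_lit 0), [⟨(nat_lit 0), (nat_lit 83), (nat_lit 83), (nat_lit 100), (nat_lit 6750626317)⟩], [], [], [],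
 ⟨⟨[(nat_lit 60), (nat_lit 100), (nat_lit 120)], [(nat_lit 0), (nat_lit 609), (nat_lit 1609)], [((nat_lit 0), (nat_lit 0), (nat_lit 0)), ((nat_lit 1000), (nat_lit 905), (nat_lit 238)), ((nat_lit 1000), (nat_lit 882), (nat_lit 668))], ((nat_lit 88), (nat_lit 100), (nat_lit 66))⟩, (nat_lit 0), (nat_lit 157), (nat_lit 157), (nat_lit 0), (nat_lit 38700), [(nat_lit 3282000078), (nat_lit 100927918449), (nat_lit 7968000000)], [], [(nat_lit 14873088509), (nat_lit 17144309955), (nat_lit 13885545335), (nat_lit 15782582886), (nat_lit 19070882117), (nat_lit 20866609330), (nat_lit 17882844004), (nat_lit 19446313512)], (nat_lit 1271251), (nat_lit 1271251), (nat_lit 292188), (nat_lit 780000), (nat_lit 780000), (nat_lit 1762501), [(nat_lit 780000), (nat_lit 1435001), (nat_lit 1271251)], [(nat_lit 10), (nat_lit 54), (nat_lit 317), (nat_lit 100), (nat_lit 10)]⟩,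
 ⟨⟨[(nat_lit 80), (nat_lit 120), (nat_lit 160)], [(nat_lit 0), (nat_lit 0), (nat_lit 2132)], [((nat_lit 0), (nat_lit 0), (nat_lit 0)), ((nat_lit 0), (nat_lit 0), (nat_lit 0)), ((nat_lit 858), (nat_lit 1000), (nat_lit 713))], ((nat_lit 100), (nat_lit 89), (nat_lit 66))⟩, (nat_lit 4287391), (nat_lit 361), (nat_lit 361), (nat_lit 0), (nat_lit 46192), [(nat_lit 4688000000), (nat_lit 7968000000), (nat_lit 11872000000)], [], [(nat_lit 56643098745), (nat_lit 36021404283), (nat_lit 37527922600), (nat_lit 31418479040), (nat_lit 51510645225), (nat_lit 43836398895), (nat_lit 57761639260), (nat_lit 40182315940)], (nat_lit 1271251), (nat_lit 1271251), (nat_lit 292188), (nat_lit 780000), (nat_lit 0), (nat_lit 2825001), [(nat_lit 1100000), (nat_lit 1785001), (nat_lit 1271251)], [(nat_lit 18), (nat_lit 59), (nat_lit 456), (nat_lit 225), (nat_lit 12)]⟩,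
 ⟨⟨[(nat_lit 120), (nat_lit 160), (nat_lit 180)], [(nat_lit 0), (nat_lit 533), (nat_lit 2066)], [((nat_lit 0), (nat_lit 0), (nat_lit 0)), ((nat_lit 960), (nat_lit 1000), (nat_lit 200)), ((nat_lit 615), (nat_lit 1000), (nat_lit 729))], ((nat_lit 100), (nat_lit 69), (nat_lit 65))⟩, (nat_lit 522722), (nat_lit 300), (nat_lit 473), (nat_lit 27048283), (nat_lit 212672), [(nat_lit 3091584000), (nat_lit 4606336000), (nat_lit 5454504000)], [], [(nat_lit 22973490129), (nat_lit 23108892067), (nat_lit 23093860812), (nat_lit 23185310167), (nat_lit 23322260475), (nat_lit 23317347680), (nat_lit 24681521090), (nat_lit 23085763334)], (nat_lit 1271251), (nat_lit 1271251), (nat_lit 780000), (nat_lit 1762501), (nat_lit 0), (nat_lit 2825001), [(nat_lit 1695001), (nat_lit 1271251), (nat_lit 1271251)], [(nat_lit 28), (nat_lit 65), (nat_lit 456), (nat_lit 225), (nat_lit 11)]⟩⟩) (.dle (nat_lit 0))))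
noncomputable def c4_57 : Tr Lf :=
 (.trX (nat_lit 5) (nat_lit 4) (nat_lit 3) (nat_lit 100) (nat_lit 59) (nat_lit 94) (nat_lit 370) (.spl (nat_lit 2) (nat_lit 180) (.trX (nat_lit 4) (nat_lit 0) (nat_lit 2) (nat_lit 87) (nat_lit 59) (nat_lit 100) (nat_lit 370) (.spl (nat_lit 2) (nat_lit 160) (.trX (nat_lit 4) (nat_lit 0) (nat_lit 2) (nat_lit 88) (nat_lit 68) (nat_lit 100) (nat_lit 350) (.spl (nat_lit 1) (nat_lit 280) (.dle (nat_lit 0)) (.trZ (nat_lit 0) (nat_lit 1) (nat_lit 3) (nat_lit 100) (nat_lit 94) (nat_lit 88) (nat_lit 80) (.spl (nat_lit 1) (nat_lit 300) (.spl (nat_lit 6) (nat_lit 48) (.leaf ⟨(nat_lit 0), (nat_lit 720), (nat_lit 0), (nat_lit 280), (nat_lit 16292), (nat_lit 9475), (nat_lit 5339), (nat_lit 3178), (nat_lit 0), (nat_lit 0), (nat_lit 0), [], Pd.none, Pd.none, (nat_lit 0), (nat_lit 1), (nat_lit 0), (nat_lit 0), (nat_lit 6), (nat_lit 0), [⟨(nat_lit 0), (nat_lit 94), (nat_lit 87), (nat_lit 100), (nat_lit 865383017)⟩], [⟨(nat_lit 1),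 (nat_lit 81), (nat_lit 88), (nat_lit 100), (nat_lit 334503185)⟩], [], [],
 ⟨⟨[(nat_lit 60), (nat_lit 100), (nat_lit 120)], [(nat_lit 0), (nat_lit 609), (nat_lit 1609)], [((nat_lit 0), (nat_lit 0), (nat_lit 0)), ((nat_lit 1000), (nat_lit 905), (nat_lit 238)), ((nat_lit 1000), (nat_lit 882), (nat_lit 668))], ((nat_lit 88), (nat_lit 100), (nat_lit 66))⟩, (nat_lit 0), (nat_lit 129), (nat_lit 129), (nat_lit 0), (nat_lit 41945), [(nat_lit 5195629576), (nat_lit 7105691915), (nat_lit 7968000000)], [], [(nat_lit 22855782350), (nat_lit 24600954800), (nat_lit 22385445588), (nat_lit 24023235200), (nat_lit 31380659404), (nat_lit 32646350500), (nat_lit 30404644054), (nat_lit 31507872169)], (nat_lit 1271251), (nat_lit 1271251), (nat_lit 490000), (nat_lit 780000), (nat_lit 1271251), (nat_lit 1271251), [(nat_lit 780000), (nat_lit 1435001), (nat_lit 1271251)], [(nat_lit 10), (nat_lit 54), (nat_lit 238), (nat_lit 30), (nat_lit 7)]⟩,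
 ⟨⟨[(nat_lit 60), (nat_lit 100), (nat_lit 140)], [(nat_lit 0), (nat_lit 0), (nat_lit 2047)], [((nat_lit 0), (nat_lit 0), (nat_lit 0)), ((nat_lit 0), (nat_lit 0), (nat_lit 0)), ((nat_lit 1000), (nat_lit 993), (nat_lit 781))], ((nat_lit 96), (nat_lit 100), (nat_lit 68))⟩, (nat_lit 3139703), (nat_lit 213), (nat_lit 213), (nat_lit 0), (nat_lit 46394), [(nat_lit 3282000000), (nat_lit 6250000000), (nat_lit 9842000000)], [], [(nat_lit 22149719275), (nat_lit 23723646827), (nat_lit 22325972148), (nat_lit 23801081010), (nat_lit 29663499943), (nat_lit 30579592038), (nat_lit 29493860774), (nat_lit 30355059860)], (nat_lit 1271251), (nat_lit 1271251), (nat_lit 490000), (nat_lit 780000), (nat_lit 0), (nat_lit 2613125), [(nat_lit 780000), (nat_lit 1435001), (nat_lit 1271251)], [(nat_lit 11), (nat_lit 55), (nat_lit 345), (nat_lit 125), (nat_lit 10)]⟩,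
 ⟨⟨[(nat_lit 140), (nat_lit 180), (nat_lit 200)], [(nat_lit 0), (nat_lit 0), (nat_lit 2835)], [((nat_lit 0), (nat_lit 0), (nat_lit 0)), ((nat_lit 0), (nat_lit 0), (nat_lit 0)), ((nat_lit 363), (nat_lit 1000), (nat_lit 798))], ((nat_lit 0), (nat_lit 0), (nat_lit 0))⟩, (nat_lit 77037), (nat_lit 300), (nat_lit 700), (nat_lit 21868001), (nat_lit 537654), [(nat_lit 2755760000), (nat_lit 3936240000), (nat_lit 4592000000)], [], [(nat_lit 19537893502), (nat_lit 19025301608), (nat_lit 19525414942), (nat_lit 18977398886), (nat_lit 15759520574), (nat_lit 17423746473), (nat_lit 15280640700), (nat_lit 14735872277)], (nat_lit 780000), (nat_lit 1100000), (nat_lit 1271251), (nat_lit 1271251), (nat_lit 0), (nat_lit 2613125), [(nat_lit 1977501), (nat_lit 1271251), (nat_lit 1271251)], [(nat_lit 32), (nat_lit 67), (nat_lit 456), (nat_lit 225), (nat_lit 10)]⟩⟩) (.dle (nat_lit 0))) (.trZ (nat_lit 0) (nat_lit 1) (nat_lit 3) (nat_lit 100) (nat_lit 100) (nat_lit 100) (nat_lit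 100) (.trX (nat_lit 5) (nat_lit 1) (nat_lit 2) (nat_lit 88) (nat_lit 68) (nat_lit 100) (nat_lit 350) (.spl (nat_lit 0) (nat_lit 310) (.ord (.spl (nat_lit 6) (nat_lit 48) (.leaf ⟨(nat_lit 0), (nat_lit 736), (nat_lit 0), (nat_lit 264), (nat_lit 10777), (nat_lit 7614), (nat_lit 5407), (nat_lit 2947), (nat_lit 5972132130876), (nat_lit 0), (nat_lit 0), [], Pd.none, Pd.none, (nat_lit 0), (nat_lit 1), (nat_lit 0), (nat_lit 0), (nat_lit 6), (nat_lit 0), [⟨(nat_lit 0), (nat_lit 91), (nat_lit 91), (nat_lit 100), (nat_lit 765007053)⟩], [⟨(nat_lit 1), (nat_lit 79), (nat_lit 89), (nat_lit 100), (nat_lit 349726806)⟩], [], [],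
 ⟨⟨[(nat_lit 60), (nat_lit 100), (nat_lit 120)], [(nat_lit 0), (nat_lit 609), (nat_lit 1609)], [((nat_lit 0), (nat_lit 0), (nat_lit 0)), ((nat_lit 1000), (nat_lit 905), (nat_lit 238)), ((nat_lit 1000), (nat_lit 882), (nat_lit 668))], ((nat_lit 88), (nat_lit 100), (nat_lit 66))⟩, (nat_lit 0), (nat_lit 98), (nat_lit 98), (nat_lit 0), (nat_lit 39856), [(nat_lit 4002228538), (nat_lit 6250000004), (nat_lit 7968000000)], [], [(nat_lit 20541252156), (nat_lit 21359305088), (nat_lit 20494796001), (nat_lit 21287978659), (nat_lit 28546178854), (nat_lit 29171452664), (nat_lit 28267005147), (nat_lit 28815762985)], (nat_lit 1271251), (nat_lit 1271251), (nat_lit 631250), (nat_lit 780000), (nat_lit 1271251), (nat_lit 1271251), [(nat_lit 780000), (nat_lit 1435001), (nat_lit 1271251)], [(nat_lit 10), (nat_lit 54), (nat_lit 238), (nat_lit 30), (nat_lit 7)]⟩,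
 ⟨⟨[(nat_lit 60), (nat_lit 100), (nat_lit 120)], [(nat_lit 0), (nat_lit 609), (nat_lit 1609)], [((nat_lit 0), (nat_lit 0), (nat_lit 0)), ((nat_lit 1000), (nat_lit 905), (nat_lit 238)), ((nat_lit 1000), (nat_lit 882), (nat_lit 668))], ((nat_lit 88), (nat_lit 100), (nat_lit 66))⟩, (nat_lit 2726652), (nat_lit 192), (nat_lit 192), (nat_lit 0), (nat_lit 39856), [(nat_lit 3282000000), (nat_lit 6250000000), (nat_lit 7968000000)], [], [(nat_lit 21261709968), (nat_lit 22126335452), (nat_lit 21407887803), (nat_lit 22207569272), (nat_lit 27429063821), (nat_lit 27890489122), (nat_lit 27323746316), (nat_lit 27794640366)], (nat_lit 1271251), (nat_lit 1271251), (nat_lit 631250), (nat_lit 780000), (nat_lit 0), (nat_lit 2471876), [(nat_lit 780000), (nat_lit 1435001), (nat_lit 1271251)], [(nat_lit 10), (nat_lit 54), (nat_lit 345), (nat_lit 125), (nat_lit 11)]⟩,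
 ⟨⟨[(nat_lit 140), (nat_lit 180), (nat_lit 200)], [(nat_lit 0), (nat_lit 0), (nat_lit 2835)], [((nat_lit 0), (nat_lit 0), (nat_lit 0)), ((nat_lit 0), (nat_lit 0), (nat_lit 0)), ((nat_lit 363), (nat_lit 1000), (nat_lit 798))], ((nat_lit 0), (nat_lit 0), (nat_lit 0))⟩, (nat_lit 72635), (nat_lit 300), (nat_lit 680), (nat_lit 20618400), (nat_lit 491303), [(nat_lit 2598288000), (nat_lit 3711312000), (nat_lit 4329600000)], [], [(nat_lit 18518488118), (nat_lit 18042907914), (nat_lit 18478393805), (nat_lit 17972632681), (nat_lit 14873683273), (nat_lit 15852528545), (nat_lit 14569944833), (nat_lit 14071942431)], (nat_lit 780000), (nat_lit 1100000), (nat_lit 1271251), (nat_lit 1271251), (nat_lit 0), (nat_lit 2471876), [(nat_lit 1977501), (nat_lit 1271251), (nat_lit 1271251)], [(nat_lit 32), (nat_lit 67), (nat_lit 456), (nat_lit 225), (nat_lit 10)]⟩⟩) (.dle (nat_lit 0)))) (.trZ (nat_lit 0) (nat_lit 1) (nat_lit 3) (nat_lit 97) (nat_lit 93) (nat_lit 100) (nat_lit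 110) (.leaf ⟨(nat_lit 0), (nat_lit 780), (nat_lit 0), (nat_lit 220), (nat_lit 24791), (nat_lit 5642), (nat_lit 9782), (nat_lit 2661), (nat_lit 266460), (nat_lit 0), (nat_lit 0), [], Pd.none, Pd.none, (nat_lit 0), (nat_lit 1), (nat_lit 0), (nat_lit 0), (nat_lit 6), (nat_lit 0), [⟨(nat_lit 0), (nat_lit 90), (nat_lit 88), (nat_lit 100), (nat_lit 3601457521)⟩], [⟨(nat_lit 1), (nat_lit 83), (nat_lit 86), (nat_lit 100), (nat_lit 301325498)⟩], [], [],
 ⟨⟨[(nat_lit 60), (nat_lit 100), (nat_lit 140)], [(nat_lit 0), (nat_lit 909), (nat_lit 2819)], [((nat_lit 0), (nat_lit 0), (nat_lit 0)), ((nat_lit 1000), (nat_lit 858), (nat_lit 354)), ((nat_lit 1000), (nat_lit 858), (nat_lit 746))], ((nat_lit 87), (nat_lit 100), (nat_lit 78))⟩, (nat_lit 2990513), (nat_lit 167), (nat_lit 167), (nat_lit 0), (nat_lit 122353), [(nat_lit 3282000064), (nat_lit 6349244455), (nat_lit 9842000000)], [], [(nat_lit 21537306292), (nat_lit 22049107333), (nat_lit 21529268331), (nat_lit 22022460389),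 (nat_lit 26896418583), (nat_lit 27492666130), (nat_lit 26805902029), (nat_lit 27407143827)], (nat_lit 1271251), (nat_lit 1271251), (nat_lit 704688), (nat_lit 780000), (nat_lit 1271251), (nat_lit 1271251), [(nat_lit 780000), (nat_lit 1435001), (nat_lit 1271251)], [(nat_lit 11), (nat_lit 55), (nat_lit 345), (nat_lit 125), (nat_lit 9)]⟩,
 ⟨⟨[(nat_lit 60), (nat_lit 100), (nat_lit 140)], [(nat_lit 0), (nat_lit 609), (nat_lit 2558)], [((nat_lit 0), (nat_lit 0), (nat_lit 0)), ((nat_lit 1000), (nat_lit 905), (nat_lit 238)), ((nat_lit 1000), (nat_lit 904), (nat_lit 760))], ((nat_lit 91), (nat_lit 100), (nat_lit 79))⟩, (nat_lit 2017612), (nat_lit 284), (nat_lit 284), (nat_lit 0), (nat_lit 124446), [(nat_lit 3282000000), (nat_lit 6250000000), (nat_lit 9842000000)], [], [(nat_lit 26946081927), (nat_lit 29136664251), (nat_lit 26790794473), (nat_lit 28947646180), (nat_lit 30489053245), (nat_lit 32136881647), (nat_lit 30213884923), (nat_lit 31836315582)], (nat_lit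 1271251), (nat_lit 1271251), (nat_lit 704688), (nat_lit 780000), (nat_lit 0), (nat_lit 2471876), [(nat_lit 780000), (nat_lit 1435001), (nat_lit 1271251)], [(nat_lit 11), (nat_lit 55), (nat_lit 345), (nat_lit 125), (nat_lit 10)]⟩,
 ⟨⟨[(nat_lit 140), (nat_lit 180), (nat_lit 200)], [(nat_lit 0), (nat_lit 0), (nat_lit 2835)], [((nat_lit 0), (nat_lit 0), (nat_lit 0)), ((nat_lit 0), (nat_lit 0), (nat_lit 0)), ((nat_lit 363), (nat_lit 1000), (nat_lit 798))], ((nat_lit 0), (nat_lit 0), (nat_lit 0))⟩, (nat_lit 60529), (nat_lit 300), (nat_lit 1177), (nat_lit 17182002), (nat_lit 1610787), [(nat_lit 2165240000), (nat_lit 3092760000), (nat_lit 3608000000)], [], [(nat_lit 15280865204), (nat_lit 14826578752), (nat_lit 15113267459), (nat_lit 14646365287), (nat_lit 11980236341), (nat_lit 13340766732), (nat_lit 11497106295), (nat_lit 11050221216)], (nat_lit 780000), (nat_lit 1100000), (nat_lit 1271251), (nat_lit 1271251), (nat_lit 0), (nat_lit 2471876), [(nat_lit 1977501),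 (nat_lit 1271251), (nat_lit 1271251)], [(nat_lit 32), (nat_lit 67), (nat_lit 456), (nat_lit 225), (nat_lit 10)]⟩⟩))))))))) (.spl (nat_lit 6) (nat_lit 52) (.spl (nat_lit 0) (nat_lit 310) (.ord (.dle (nat_lit 0))) (.trX (nat_lit 4) (nat_lit 0) (nat_lit 2) (nat_lit 84) (nat_lit 63) (nat_lit 100) (nat_lit 360) (.leaf ⟨(nat_lit 0), (nat_lit 581), (nat_lit 0), (nat_lit 419), (nat_lit 300000), (nat_lit 5836), (nat_lit 10270), (nat_lit 5191), (nat_lit 628209), (nat_lit 0), (nat_lit 0), [], Pd.none, Pd.none, (nat_lit 0), (nat_lit 1), (nat_lit 0), (nat_lit 0), (nat_lit 6), (nat_lit 0), [⟨(nat_lit 0), (nat_lit 83), (nat_lit 83), (nat_lit 100), (nat_lit 9349445169)⟩], [⟨(nat_lit 1), (nat_lit 70), (nat_lit 83), (nat_lit 100), (nat_lit 122197295)⟩], [], [],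
 ⟨⟨[(nat_lit 60), (nat_lit 100), (nat_lit 120)], [(nat_lit 0), (nat_lit 909), (nat_lit 1866)], [((nat_lit 0), (nat_lit 0), (nat_lit 0)), ((nat_lit 1000), (nat_lit 858), (nat_lit 354)), ((nat_lit 1000), (nat_lit 849), (nat_lit 705))], ((nat_lit 85), (nat_lit 100), (nat_lit 68))⟩, (nat_lit 2474556), (nat_lit 163), (nat_lit 163), (nat_lit 0), (nat_lit 55817), [(nat_lit 3282000485), (nat_lit 6393596757), (nat_lit 7968000000)], [], [(nat_lit 22738600531), (nat_lit 23410196900), (nat_lit 21472077800), (nat_lit 22027423976), (nat_lit 30134714617), (nat_lit 30758695436), (nat_lit 28031248573), (nat_lit 28458733836)], (nat_lit 1271251), (nat_lit 1271251), (nat_lit 292188), (nat_lit 780000), (nat_lit 1271251), (nat_lit 1271251), [(nat_lit 780000), (nat_lit 1435001), (nat_lit 1271251)], [(nat_lit 10), (nat_lit 54), (nat_lit 238), (nat_lit 30), (nat_lit 7)]⟩,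
 ⟨⟨[(nat_lit 80), (nat_lit 120), (nat_lit 160)], [(nat_lit 0), (nat_lit 0), (nat_lit 2132)], [((nat_lit 0), (nat_lit 0), (nat_lit 0)), ((nat_lit 0), (nat_lit 0), (nat_lit 0)), ((nat_lit 858), (nat_lit 1000), (nat_lit 713))], ((nat_lit 100), (nat_lit 88), (nat_lit 69))⟩, (nat_lit 4287392), (nat_lit 367), (nat_lit 367), (nat_lit 0), (nat_lit 60581), [(nat_lit 4688000000), (nat_lit 7968000000), (nat_lit 11872000000)], [], [(nat_lit 56643098745), (nat_lit 36021402151), (nat_lit 37527922600), (nat_lit 31418479040), (nat_lit 48868870167), (nat_lit 39881545020), (nat_lit 54967918910), (nat_lit 37223192105)], (nat_lit 1271251), (nat_lit 1271251), (nat_lit 292188), (nat_lit 780000), (nat_lit 0), (nat_lit 2613125), [(nat_lit 1100000), (nat_lit 1785001), (nat_lit 1271251)], [(nat_lit 18), (nat_lit 59), (nat_lit 456), (nat_lit 225), (nat_lit 12)]⟩,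
 ⟨⟨[(nat_lit 120), (nat_lit 160), (nat_lit 200)], [(nat_lit 0), (nat_lit 0), (nat_lit 3198)], [((nat_lit 0), (nat_lit 0), (nat_lit 0)), ((nat_lit 0), (nat_lit 0), (nat_lit 0)), ((nat_lit 572), (nat_lit 1000), (nat_lit 714))], ((nat_lit 0), (nat_lit 0), (nat_lit 0))⟩, (nat_lit 204390), (nat_lit 300), (nat_lit 617), (nat_lit 31089804), (nat_lit 397972), [(nat_lit 3338592000), (nat_lit 4974368000), (nat_lit 6871600000)], [], [(nat_lit 26869562732), (nat_lit 26602569720), (nat_lit 26755014646), (nat_lit 26520935632), (nat_lit 21238192949), (nat_lit 22811096892), (nat_lit 20368411743), (nat_lit 20071826658)], (nat_lit 1100000), (nat_lit 1271251), (nat_lit 1271251), (nat_lit 1271251), (nat_lit 0), (nat_lit 2613125), [(nat_lit 1695001), (nat_lit 1271251), (nat_lit 1271251)], [(nat_lit 29), (nat_lit 66), (nat_lit 483), (nat_lit 250), (nat_lit 10)]⟩⟩))) (.dle (nat_lit 0))))) (.spl (nat_lit 6) (nat_lit 48) (.leaf ⟨(nat_lit 0), (nat_lit 0), (nat_lit 0), (nat_lit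 1000), (nat_lit 300000), (nat_lit 11128), (nat_lit 10270), (nat_lit 11115), (nat_lit 19248), (nat_lit 0), (nat_lit 0), [], Pd.none, Pd.none, (nat_lit 0), (nat_lit 1), (nat_lit 0), (nat_lit 0), (nat_lit 0), (nat_lit 0), [⟨(nat_lit 0), (nat_lit 83), (nat_lit 83), (nat_lit 100), (nat_lit 7896149696)⟩], [], [⟨(nat_lit 0), (nat_lit 100), (nat_lit 92), (nat_lit 40), (nat_lit 495834109)⟩], [],
 ⟨⟨[(nat_lit 60), (nat_lit 100), (nat_lit 120)], [(nat_lit 0), (nat_lit 609), (nat_lit 1609)], [((nat_lit 0), (nat_lit 0), (nat_lit 0)), ((nat_lit 1000), (nat_lit 905), (nat_lit 238)), ((nat_lit 1000), (nat_lit 882), (nat_lit 668))], ((nat_lit 88), (nat_lit 100), (nat_lit 66))⟩, (nat_lit 0), (nat_lit 170), (nat_lit 170), (nat_lit 0), (nat_lit 38700), [(nat_lit 6380076940), (nat_lit 8069470344), (nat_lit 7968000000)], [], [(nat_lit 24658745411), (nat_lit 26642992508), (nat_lit 21015317692), (nat_lit 22832334656), (nat_lit 42754737303), (nat_lit 44268794416), (nat_lit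 37046463447), (nat_lit 38465586534)], (nat_lit 1271251), (nat_lit 1271251), (nat_lit 292188), (nat_lit 780000), (nat_lit 1271251), (nat_lit 1271251), [(nat_lit 780000), (nat_lit 1435001), (nat_lit 1271251)], [(nat_lit 10), (nat_lit 54), (nat_lit 238), (nat_lit 30), (nat_lit 7)]⟩,
 ⟨⟨[(nat_lit 80), (nat_lit 120), (nat_lit 160)], [(nat_lit 0), (nat_lit 0), (nat_lit 2132)], [((nat_lit 0), (nat_lit 0), (nat_lit 0)), ((nat_lit 0), (nat_lit 0), (nat_lit 0)), ((nat_lit 858), (nat_lit 1000), (nat_lit 713))], ((nat_lit 100), (nat_lit 89), (nat_lit 66))⟩, (nat_lit 4287392), (nat_lit 361), (nat_lit 361), (nat_lit 0), (nat_lit 46192), [(nat_lit 4688000000), (nat_lit 7968000000), (nat_lit 11872000000)], [], [(nat_lit 56643098745), (nat_lit 36021402151), (nat_lit 37527922600), (nat_lit 31418479040), (nat_lit 48868870167), (nat_lit 39881545020), (nat_lit 54967918910), (nat_lit 37223192105)], (nat_lit 1271251), (nat_lit 1271251), (nat_lit 292188), (nat_lit 780000),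 (nat_lit 0), (nat_lit 2613125), [(nat_lit 1100000), (nat_lit 1785001), (nat_lit 1271251)], [(nat_lit 18), (nat_lit 59), (nat_lit 456), (nat_lit 225), (nat_lit 12)]⟩,
 ⟨⟨[(nat_lit 120), (nat_lit 160), (nat_lit 180)], [(nat_lit 0), (nat_lit 533), (nat_lit 2066)], [((nat_lit 0), (nat_lit 0), (nat_lit 0)), ((nat_lit 960), (nat_lit 1000), (nat_lit 200)), ((nat_lit 615), (nat_lit 1000), (nat_lit 729))], ((nat_lit 100), (nat_lit 69), (nat_lit 65))⟩, (nat_lit 2341463), (nat_lit 300), (nat_lit 436), (nat_lit 66400002), (nat_lit 212672), [(nat_lit 7968000000), (nat_lit 11872000000), (nat_lit 14058000000)], [], [(nat_lit 49673060214), (nat_lit 49335245390), (nat_lit 54950336035), (nat_lit 54227778209), (nat_lit 53799740729), (nat_lit 44078800702), (nat_lit 43154363950), (nat_lit 42067415033)], (nat_lit 1271251), (nat_lit 1271251), (nat_lit 1271251), (nat_lit 1271251), (nat_lit 0), (nat_lit 2613125), [(nat_lit 1695001), (nat_lit 1271251), (nat_lit 1271251)],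 [(nat_lit 28), (nat_lit 65), (nat_lit 483), (nat_lit 250), (nat_lit 11)]⟩⟩) (.dle (nat_lit 0)))))
noncomputable def c4_58 : Tr Lf :=
 (.spl (nat_lit 1) (nat_lit 280) (.ord (.dle (nat_lit 0))) (.trZ (nat_lit 0) (nat_lit 1) (nat_lit 3) (nat_lit 100) (nat_lit 94) (nat_lit 88) (nat_lit 80) (.trZ (nat_lit 1) (nat_lit 2) (nat_lit 5) (nat_lit 100) (nat_lit 92) (nat_lit 49) (nat_lit 20) (.spl (nat_lit 1) (nat_lit 300) (.ord (.spl (nat_lit 6) (nat_lit 56) (.leaf ⟨(nat_lit 0), (nat_lit 0), (nat_lit 0), (nat_lit 1000), (nat_lit 59968), (nat_lit 10060), (nat_lit 5799), (nat_lit 6498), (nat_lit 0), (nat_lit 764041), (nat_lit 0), [], Pd.none, Pd.none, (nat_lit 0), (nat_lit 1), (nat_lit 0), (nat_lit 0), (nat_lit 0), (nat_lit 0), [⟨(nat_lit 0), (nat_lit 94), (nat_lit 87), (nat_lit 100), (nat_lit 1236336772)⟩], [], [⟨(nat_lit 0), (nat_lit 100), (nat_lit 94), (nat_lit 73), (nat_lit 479325094)⟩], [],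
 ⟨⟨[(nat_lit 60), (nat_lit 100), (nat_lit 140)], [(nat_lit 0), (nat_lit 609), (nat_lit 2558)], [((nat_lit 0), (nat_lit 0), (nat_lit 0)), ((nat_lit 1000), (nat_lit 905), (nat_lit 238)), ((nat_lit 1000), (nat_lit 904), (nat_lit 760))], ((nat_lit 89), (nat_lit 100), (nat_lit 72))⟩, (nat_lit 3588074), (nat_lit 192), (nat_lit 192), (nat_lit 0), (nat_lit 108756), [(nat_lit 5969854803), (nat_lit 7371381904), (nat_lit 9842000000)], [], [(nat_lit 15597858728), (nat_lit 17677584708), (nat_lit 15111974978), (nat_lit 17065090980), (nat_lit 38435621900), (nat_lit 39769806000), (nat_lit 36901040990), (nat_lit 38162916720)], (nat_lit 1271251), (nat_lit 1271251), (nat_lit 490000), (nat_lit 780000), (nat_lit 780000), (nat_lit 3072501), [(nat_lit 780000), (nat_lit 1435001), (nat_lit 1271251)], [(nat_lit 11), (nat_lit 55), (nat_lit 373), (nat_lit 150), (nat_lit 10)]⟩,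
 ⟨⟨[(nat_lit 60), (nat_lit 100), (nat_lit 140)], [(nat_lit 0), (nat_lit 0), (nat_lit 2047)], [((nat_lit 0), (nat_lit 0), (nat_lit 0)), ((nat_lit 0), (nat_lit 0), (nat_lit 0)), ((nat_lit 1000), (nat_lit 993), (nat_lit 781))], ((nat_lit 98), (nat_lit 100), (nat_lit 74))⟩, (nat_lit 4142546), (nat_lit 213), (nat_lit 213), (nat_lit 0), (nat_lit 120837), [(nat_lit 3282000000), (nat_lit 6250000000), (nat_lit 9842000000)], [], [(nat_lit 19350585832), (nat_lit 20978275966), (nat_lit 19470950749), (nat_lit 21011159925), (nat_lit 31976885588), (nat_lit 32808922556), (nat_lit 31595341032), (nat_lit 32385351700)], (nat_lit 1271251), (nat_lit 1271251), (nat_lit 490000), (nat_lit 780000), (nat_lit 111251), (nat_lit 2866250), [(nat_lit 780000), (nat_lit 1435001), (nat_lit 1271251)], [(nat_lit 11), (nat_lit 55), (nat_lit 373), (nat_lit 150), (nat_lit 11)]⟩,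
 ⟨⟨[(nat_lit 100), (nat_lit 140), (nat_lit 180)], [(nat_lit 0), (nat_lit 508), (nat_lit 2854)], [((nat_lit 0), (nat_lit 0), (nat_lit 0)), ((nat_lit 1000), (nat_lit 1000), (nat_lit 198)), ((nat_lit 777), (nat_lit 1000), (nat_lit 712))], ((nat_lit 100), (nat_lit 79), (nat_lit 70))⟩, (nat_lit 2149605), (nat_lit 300), (nat_lit 427), (nat_lit 62500005), (nat_lit 208982), [(nat_lit 6250000000), (nat_lit 9842000000), (nat_lit 14058000000)], [], [(nat_lit 50813702698), (nat_lit 52410191998), (nat_lit 54563302445), (nat_lit 54945347383), (nat_lit 57665451692), (nat_lit 51141765629), (nat_lit 50913575972), (nat_lit 50586474298)], (nat_lit 1271251), (nat_lit 1271251), (nat_lit 1271251), (nat_lit 1271251), (nat_lit 111251), (nat_lit 2866250), [(nat_lit 1412501), (nat_lit 1271251), (nat_lit 1271251)], [(nat_lit 24), (nat_lit 63), (nat_lit 538), (nat_lit 300), (nat_lit 12)]⟩⟩) (.dle (nat_lit 0)))) (.trZ (nat_lit 0) (nat_lit 1) (nat_lit 3) (nat_lit 100) (nat_lit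 100) (nat_lit 100) (nat_lit 100) (.trZ (nat_lit 1) (nat_lit 2) (nat_lit 5) (nat_lit 100) (nat_lit 87) (nat_lit 59) (nat_lit 30) (.leaf ⟨(nat_lit 0), (nat_lit 0), (nat_lit 0), (nat_lit 1000), (nat_lit 27501), (nat_lit 18814), (nat_lit 7342), (nat_lit 12652), (nat_lit 28005), (nat_lit 6107), (nat_lit 0), [], Pd.none, Pd.none, (nat_lit 0), (nat_lit 1), (nat_lit 0), (nat_lit 0), (nat_lit 0), (nat_lit 0), [⟨(nat_lit 0), (nat_lit 91), (nat_lit 91), (nat_lit 100), (nat_lit 1596962943)⟩], [], [⟨(nat_lit 0), (nat_lit 100), (nat_lit 89), (nat_lit 86), (nat_lit 167816633)⟩], [],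
 ⟨⟨[(nat_lit 60), (nat_lit 100), (nat_lit 140)], [(nat_lit 0), (nat_lit 609), (nat_lit 2558)], [((nat_lit 0), (nat_lit 0), (nat_lit 0)), ((nat_lit 1000), (nat_lit 905), (nat_lit 238)), ((nat_lit 1000), (nat_lit 904), (nat_lit 760))], ((nat_lit 93), (nat_lit 100), (nat_lit 84))⟩, (nat_lit 1053249), (nat_lit 223), (nat_lit 223), (nat_lit 0), (nat_lit 235520), [(nat_lit 9350413718), (nat_lit 12309599015), (nat_lit 9842000000)], [], [(nat_lit 17197120671), (nat_lit 20396957625), (nat_lit 16355624046), (nat_lit 19444908392), (nat_lit 51206749171), (nat_lit 53119881084), (nat_lit 49425970931), (nat_lit 51277389168)], (nat_lit 1271251), (nat_lit 1271251), (nat_lit 631250), (nat_lit 780000), (nat_lit 780000), (nat_lit 3072501), [(nat_lit 780000), (nat_lit 1435001), (nat_lit 1271251)], [(nat_lit 11), (nat_lit 55), (nat_lit 373), (nat_lit 150), (nat_lit 10)]⟩,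
 ⟨⟨[(nat_lit 60), (nat_lit 100), (nat_lit 140)], [(nat_lit 0), (nat_lit 609), (nat_lit 2558)], [((nat_lit 0), (nat_lit 0), (nat_lit 0)), ((nat_lit 1000), (nat_lit 905), (nat_lit 238)), ((nat_lit 1000), (nat_lit 904), (nat_lit 760))], ((nat_lit 93), (nat_lit 100), (nat_lit 84))⟩, (nat_lit 4110736), (nat_lit 302), (nat_lit 302), (nat_lit 0), (nat_lit 235520), [(nat_lit 3282000000), (nat_lit 6250000000), (nat_lit 9842000000)], [], [(nat_lit 18716618504), (nat_lit 20525262206), (nat_lit 18624803561), (nat_lit 20381036061), (nat_lit 35170277702), (nat_lit 34571882652), (nat_lit 36972706312), (nat_lit 34091048304)], (nat_lit 1271251), (nat_lit 1271251), (nat_lit 631250), (nat_lit 780000), (nat_lit 169688), (nat_lit 2886876), [(nat_lit 780000), (nat_lit 1435001), (nat_lit 1271251)], [(nat_lit 11), (nat_lit 55), (nat_lit 373), (nat_lit 150), (nat_lit 11)]⟩,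
 ⟨⟨[(nat_lit 100), (nat_lit 140), (nat_lit 180)], [(nat_lit 0), (nat_lit 508), (nat_lit 2854)], [((nat_lit 0), (nat_lit 0), (nat_lit 0)), ((nat_lit 1000), (nat_lit 1000), (nat_lit 198)), ((nat_lit 777), (nat_lit 1000), (nat_lit 712))], ((nat_lit 100), (nat_lit 70), (nat_lit 79))⟩, (nat_lit 637933), (nat_lit 300), (nat_lit 557), (nat_lit 67985218), (nat_lit 427797), [(nat_lit 6250000000), (nat_lit 9842000000), (nat_lit 14058000000)], [], [(nat_lit 51166001679), (nat_lit 51279669956), (nat_lit 51603251756), (nat_lit 53527968676), (nat_lit 72193079016), (nat_lit 44806224410), (nat_lit 46730459180), (nat_lit 47961763168)], (nat_lit 1271251), (nat_lit 1271251), (nat_lit 1271251), (nat_lit 1271251), (nat_lit 169688), (nat_lit 2886876), [(nat_lit 1412501), (nat_lit 1271251), (nat_lit 1271251)], [(nat_lit 24), (nat_lit 63), (nat_lit 538), (nat_lit 300), (nat_lit 12)]⟩⟩)))))))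
noncomputable def c4_59 : Tr Lf :=
 (.spl (nat_lit 3) (nat_lit 280) (.spl (nat_lit 5) (nat_lit 200) (.spl (nat_lit 1) (nat_lit 280) (.dle (nat_lit 0)) (.leaf ⟨(nat_lit 0), (nat_lit 978), (nat_lit 0), (nat_lit 22), (nat_lit 18537), (nat_lit 7917), (nat_lit 7917), (nat_lit 282), (nat_lit 36668), (nat_lit 0), (nat_lit 0), [], Pd.none, Pd.none, (nat_lit 0), (nat_lit 1), (nat_lit 0), (nat_lit 0), (nat_lit 3), (nat_lit 0), [⟨(nat_lit 0), (nat_lit 97), (nat_lit 93), (nat_lit 100), (nat_lit 294831)⟩], [], [], [],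
 ⟨⟨[(nat_lit 60), (nat_lit 100), (nat_lit 140)], [(nat_lit 0), (nat_lit 609), (nat_lit 2558)], [((nat_lit 0), (nat_lit 0), (nat_lit 0)), ((nat_lit 1000), (nat_lit 905), (nat_lit 238)), ((nat_lit 1000), (nat_lit 904), (nat_lit 760))], ((nat_lit 91), (nat_lit 100), (nat_lit 79))⟩, (nat_lit 3444755), (nat_lit 181), (nat_lit 181), (nat_lit 0), (nat_lit 222105), [(nat_lit 4065477595), (nat_lit 6625032312), (nat_lit 9842000000)], [], [(nat_lit 16761455499), (nat_lit 18436156687), (nat_lit 21652923544), (nat_lit 23526938171), (nat_lit 18974292138), (nat_lit 20279918946), (nat_lit 24925336830), (nat_lit 25374088814)], (nat_lit 1271251), (nat_lit 1271251), (nat_lit 780000), (nat_lit 2090001), (nat_lit 780000), (nat_lit 1762501), [(nat_lit 780000), (nat_lit 1435001), (nat_lit 1271251)], [(nat_lit 11), (nat_lit 55), (nat_lit 373), (nat_lit 150), (nat_lit 10)]⟩,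
 ⟨⟨[(nat_lit 60), (nat_lit 120), (nat_lit 160)], [(nat_lit 0), (nat_lit 0), (nat_lit 3243)], [((nat_lit 0), (nat_lit 0), (nat_lit 0)), ((nat_lit 0), (nat_lit 0), (nat_lit 0)), ((nat_lit 878), (nat_lit 1000), (nat_lit 945))], ((nat_lit 100), (nat_lit 99), (nat_lit 82))⟩, (nat_lit 2269395), (nat_lit 384), (nat_lit 384), (nat_lit 0), (nat_lit 231845), [(nat_lit 3282000000), (nat_lit 7968000000), (nat_lit 11872000000)], [], [(nat_lit 35068725780), (nat_lit 34208833363), (nat_lit 34431543697), (nat_lit 36330989710), (nat_lit 27043918238), (nat_lit 28771770598), (nat_lit 40065726916), (nat_lit 33030304658)], (nat_lit 1271251), (nat_lit 1271251), (nat_lit 780000), (nat_lit 2090001), (nat_lit 0), (nat_lit 1412501), [(nat_lit 780000), (nat_lit 1762501), (nat_lit 1271251)], [(nat_lit 12), (nat_lit 59), (nat_lit 428), (nat_lit 200), (nat_lit 11)]⟩,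
 ⟨⟨[(nat_lit 140), (nat_lit 180), (nat_lit 200)], [(nat_lit 0), (nat_lit 0), (nat_lit 2835)], [((nat_lit 0), (nat_lit 0), (nat_lit 0)), ((nat_lit 0), (nat_lit 0), (nat_lit 0)), ((nat_lit 363), (nat_lit 1000), (nat_lit 798))], ((nat_lit 0), (nat_lit 0), (nat_lit 0))⟩, (nat_lit 6053), (nat_lit 300), (nat_lit 1247), (nat_lit 1718200), (nat_lit 1610787), [(nat_lit 216524000), (nat_lit 309276000), (nat_lit 360800000)], [], [(nat_lit 1605575612), (nat_lit 1517250592), (nat_lit 1495983544), (nat_lit 1404608244), (nat_lit 1296834194), (nat_lit 1398980595), (nat_lit 1464329876), (nat_lit 1820452523)], (nat_lit 780000), (nat_lit 1598751), (nat_lit 780000), (nat_lit 1762501), (nat_lit 0), (nat_lit 1412501), [(nat_lit 1977501), (nat_lit 1271251), (nat_lit 1271251)], [(nat_lit 32), (nat_lit 67), (nat_lit 401), (nat_lit 175), (nat_lit 9)]⟩⟩)) (.spl (nat_lit 1) (nat_lit 280) (.dle (nat_lit 0)) (.spl (nat_lit 1) (nat_lit 300) (.spl (nat_lit 6) (nat_lit 48) (.leaf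 ⟨(nat_lit 0), (nat_lit 450), (nat_lit 0), (nat_lit 550), (nat_lit 0), (nat_lit 5342), (nat_lit 6916), (nat_lit 7029), (nat_lit 0), (nat_lit 0), (nat_lit 0), [], Pd.none, Pd.none, (nat_lit 0), (nat_lit 1), (nat_lit 0), (nat_lit 0), (nat_lit 5), (nat_lit 0), [⟨(nat_lit 0), (nat_lit 94), (nat_lit 87), (nat_lit 100), (nat_lit 254266872)⟩], [], [], [],
 ⟨⟨[(nat_lit 60), (nat_lit 100), (nat_lit 120)], [(nat_lit 0), (nat_lit 609), (nat_lit 1609)], [((nat_lit 0), (nat_lit 0), (nat_lit 0)), ((nat_lit 1000), (nat_lit 905), (nat_lit 238)), ((nat_lit 1000), (nat_lit 882), (nat_lit 668))], ((nat_lit 88), (nat_lit 100), (nat_lit 66))⟩, (nat_lit 0), (nat_lit 125), (nat_lit 125), (nat_lit 0), (nat_lit 72680), [(nat_lit 3282000020), (nat_lit 100712666020), (nat_lit 7968000000)], [], [(nat_lit 13885545277), (nat_lit 15782582886), (nat_lit 20574465263), (nat_lit 22063660946), (nat_lit 17882843946), (nat_lit 19446313512), (nat_lit 23094556417), (nat_lit 24282438164)],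 (nat_lit 1271251), (nat_lit 1271251), (nat_lit 780000), (nat_lit 2090001), (nat_lit 780000), (nat_lit 1762501), [(nat_lit 780000), (nat_lit 1435001), (nat_lit 1271251)], [(nat_lit 10), (nat_lit 54), (nat_lit 373), (nat_lit 150), (nat_lit 12)]⟩,
 ⟨⟨[(nat_lit 60), (nat_lit 100), (nat_lit 140)], [(nat_lit 0), (nat_lit 0), (nat_lit 2047)], [((nat_lit 0), (nat_lit 0), (nat_lit 0)), ((nat_lit 0), (nat_lit 0), (nat_lit 0)), ((nat_lit 1000), (nat_lit 993), (nat_lit 781))], ((nat_lit 96), (nat_lit 100), (nat_lit 68))⟩, (nat_lit 2631671), (nat_lit 167), (nat_lit 167), (nat_lit 0), (nat_lit 83687), [(nat_lit 3282000000), (nat_lit 6250000000), (nat_lit 9842000000)], [], [(nat_lit 20575927319), (nat_lit 21909124121), (nat_lit 24506199857), (nat_lit 25439671152), (nat_lit 31726733247), (nat_lit 32403002719), (nat_lit 33190289252), (nat_lit 33925580458)], (nat_lit 1271251), (nat_lit 1271251), (nat_lit 780000), (nat_lit 2090001), (nat_lit 1271251), (nat_lit 1271251),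 [(nat_lit 780000), (nat_lit 1435001), (nat_lit 1271251)], [(nat_lit 11), (nat_lit 55), (nat_lit 401), (nat_lit 175), (nat_lit 11)]⟩,
 ⟨⟨[(nat_lit 140), (nat_lit 180), (nat_lit 200)], [(nat_lit 0), (nat_lit 0), (nat_lit 2835)], [((nat_lit 0), (nat_lit 0), (nat_lit 0)), ((nat_lit 0), (nat_lit 0), (nat_lit 0)), ((nat_lit 363), (nat_lit 1000), (nat_lit 798))], ((nat_lit 0), (nat_lit 0), (nat_lit 0))⟩, (nat_lit 151323), (nat_lit 300), (nat_lit 616), (nat_lit 42955000), (nat_lit 537654), [(nat_lit 5413100000), (nat_lit 7731900000), (nat_lit 9020000000)], [], [(nat_lit 32244093871), (nat_lit 30121688058), (nat_lit 29620983832), (nat_lit 27418374775), (nat_lit 31585610782), (nat_lit 29363599843), (nat_lit 28834019852), (nat_lit 26558965741)], (nat_lit 780000), (nat_lit 1598751), (nat_lit 780000), (nat_lit 1762501), (nat_lit 1271251), (nat_lit 1271251), [(nat_lit 1977501), (nat_lit 1271251), (nat_lit 1271251)], [(nat_lit 32), (nat_lit 67), (nat_lit 456), (nat_lit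 225), (nat_lit 10)]⟩⟩) (.dle (nat_lit 0))) (.trX (nat_lit 5) (nat_lit 1) (nat_lit 2) (nat_lit 87) (nat_lit 41) (nat_lit 100) (nat_lit 390) (.leaf ⟨(nat_lit 0), (nat_lit 776), (nat_lit 0), (nat_lit 224), (nat_lit 0), (nat_lit 15481), (nat_lit 5693), (nat_lit 2580), (nat_lit 950625253208), (nat_lit 0), (nat_lit 0), [], Pd.none, Pd.none, (nat_lit 0), (nat_lit 1), (nat_lit 0), (nat_lit 0), (nat_lit 5), (nat_lit 0), [⟨(nat_lit 0), (nat_lit 83), (nat_lit 83), (nat_lit 100), (nat_lit 296714895)⟩], [], [⟨(nat_lit 1), (nat_lit 68), (nat_lit 84), (nat_lit 100), (nat_lit 312623136)⟩], [],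
 ⟨⟨[(nat_lit 60), (nat_lit 100), (nat_lit 140)], [(nat_lit 0), (nat_lit 609), (nat_lit 2558)], [((nat_lit 0), (nat_lit 0), (nat_lit 0)), ((nat_lit 1000), (nat_lit 905), (nat_lit 238)), ((nat_lit 1000), (nat_lit 904), (nat_lit 760))], ((nat_lit 91), (nat_lit 100), (nat_lit 79))⟩, (nat_lit 718571), (nat_lit 181), (nat_lit 181), (nat_lit 0), (nat_lit 222105), [(nat_lit 8636954260), (nat_lit 9884598499), (nat_lit 9842000000)], [], [(nat_lit 19206974159), (nat_lit 21863588443), (nat_lit 24820868569), (nat_lit 27825279503), (nat_lit 20734640986), (nat_lit 22728016930), (nat_lit 26320416144), (nat_lit 28580786102)], (nat_lit 1271251), (nat_lit 1271251), (nat_lit 780000), (nat_lit 2090001), (nat_lit 780000), (nat_lit 1762501), [(nat_lit 780000), (nat_lit 1435001), (nat_lit 1271251)], [(nat_lit 11), (nat_lit 55), (nat_lit 373), (nat_lit 150), (nat_lit 10)]⟩,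
 ⟨⟨[(nat_lit 60), (nat_lit 100), (nat_lit 140)], [(nat_lit 0), (nat_lit 609), (nat_lit 2558)], [((nat_lit 0), (nat_lit 0), (nat_lit 0)), ((nat_lit 1000), (nat_lit 905), (nat_lit 238)), ((nat_lit 1000), (nat_lit 904), (nat_lit 760))], ((nat_lit 91), (nat_lit 100), (nat_lit 79))⟩, (nat_lit 2818888), (nat_lit 208), (nat_lit 208), (nat_lit 0), (nat_lit 222105), [(nat_lit 3282000000), (nat_lit 6250000000), (nat_lit 9842000000)], [], [(nat_lit 21120927261), (nat_lit 22199514436), (nat_lit 24540806250), (nat_lit 25403387878), (nat_lit 29982729905), (nat_lit 30789053872), (nat_lit 31903052195), (nat_lit 32633654185)], (nat_lit 1271251), (nat_lit 1271251), (nat_lit 780000), (nat_lit 2090001), (nat_lit 1271251), (nat_lit 1271251), [(nat_lit 780000), (nat_lit 1435001), (nat_lit 1271251)], [(nat_lit 11), (nat_lit 55), (nat_lit 401), (nat_lit 175), (nat_lit 11)]⟩,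
 ⟨⟨[(nat_lit 140), (nat_lit 180), (nat_lit 200)], [(nat_lit 0), (nat_lit 0), (nat_lit 2835)], [((nat_lit 0), (nat_lit 0), (nat_lit 0)), ((nat_lit 0), (nat_lit 0), (nat_lit 0)), ((nat_lit 363), (nat_lit 1000), (nat_lit 798))], ((nat_lit 0), (nat_lit 0), (nat_lit 0))⟩, (nat_lit 61630), (nat_lit 300), (nat_lit 1114), (nat_lit 17494400), (nat_lit 1610787), [(nat_lit 2204608000), (nat_lit 3148992000), (nat_lit 3673600000)], [], [(nat_lit 14404040196), (nat_lit 13496107624), (nat_lit 13296921592), (nat_lit 12387011478), (nat_lit 13572399786), (nat_lit 12636907567), (nat_lit 12430512118), (nat_lit 11536572972)], (nat_lit 780000), (nat_lit 1598751), (nat_lit 780000), (nat_lit 1762501), (nat_lit 1271251), (nat_lit 1271251), [(nat_lit 1977501), (nat_lit 1271251), (nat_lit 1271251)], [(nat_lit 32), (nat_lit 67), (nat_lit 456), (nat_lit 225), (nat_lit 10)]⟩⟩))))) (.spl (nat_lit 5) (nat_lit 200) (.leaf ⟨(nat_lit 0), (nat_lit 947), (nat_lit 0), (nat_lit 53), (nat_lit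 10034), (nat_lit 8340), (nat_lit 9331), (nat_lit 659), (nat_lit 152244), (nat_lit 0), (nat_lit 0), [], Pd.none, Pd.none, (nat_lit 0), (nat_lit 1), (nat_lit 0), (nat_lit 0), (nat_lit 3), (nat_lit 0), [], [], [], [⟨(nat_lit 0), (nat_lit 100), (nat_lit 72), (nat_lit 63), (nat_lit 112894909)⟩],
 ⟨⟨[(nat_lit 60), (nat_lit 100), (nat_lit 140)], [(nat_lit 0), (nat_lit 609), (nat_lit 2558)], [((nat_lit 0), (nat_lit 0), (nat_lit 0)), ((nat_lit 1000), (nat_lit 905), (nat_lit 238)), ((nat_lit 1000), (nat_lit 904), (nat_lit 760))], ((nat_lit 91), (nat_lit 100), (nat_lit 79))⟩, (nat_lit 930848), (nat_lit 211), (nat_lit 211), (nat_lit 0), (nat_lit 222105), [(nat_lit 4267391877), (nat_lit 7554447988), (nat_lit 9842000000)], [], [(nat_lit 27336770691), (nat_lit 28525947516), (nat_lit 35415141256), (nat_lit 36128850536), (nat_lit 28002478276), (nat_lit 28920612136), (nat_lit 34429850476), (nat_lit 34969259440)], (nat_lit 1271251), (nat_lit 1271251), (nat_lit 1271251),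 (nat_lit 1271251), (nat_lit 780000), (nat_lit 1762501), [(nat_lit 780000), (nat_lit 1435001), (nat_lit 1271251)], [(nat_lit 11), (nat_lit 55), (nat_lit 272), (nat_lit 60), (nat_lit 7)]⟩,
 ⟨⟨[(nat_lit 80), (nat_lit 140), (nat_lit 180)], [(nat_lit 0), (nat_lit 0), (nat_lit 3656)], [((nat_lit 0), (nat_lit 0), (nat_lit 0)), ((nat_lit 0), (nat_lit 0), (nat_lit 0)), ((nat_lit 637), (nat_lit 1000), (nat_lit 908))], ((nat_lit 100), (nat_lit 81), (nat_lit 77))⟩, (nat_lit 2114253), (nat_lit 427), (nat_lit 427), (nat_lit 0), (nat_lit 255330), [(nat_lit 4688000000), (nat_lit 9842000000), (nat_lit 14058000000)], [], [(nat_lit 39397425148), (nat_lit 41770122450), (nat_lit 45514394704), (nat_lit 47379554616), (nat_lit 31411396318), (nat_lit 33888224140), (nat_lit 36934605394), (nat_lit 38235186368)], (nat_lit 1271251), (nat_lit 1271251), (nat_lit 1271251), (nat_lit 1271251), (nat_lit 0), (nat_lit 1412501), [(nat_lit 1100000), (nat_lit 2127501), (nat_lit 1271251)],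 [(nat_lit 19), (nat_lit 63), (nat_lit 483), (nat_lit 250), (nat_lit 11)]⟩,
 ⟨⟨[(nat_lit 140), (nat_lit 180), (nat_lit 200)], [(nat_lit 0), (nat_lit 0), (nat_lit 2835)], [((nat_lit 0), (nat_lit 0), (nat_lit 0)), ((nat_lit 0), (nat_lit 0), (nat_lit 0)), ((nat_lit 363), (nat_lit 1000), (nat_lit 798))], ((nat_lit 0), (nat_lit 0), (nat_lit 0))⟩, (nat_lit 14582), (nat_lit 300), (nat_lit 1247), (nat_lit 4139301), (nat_lit 1610787), [(nat_lit 521626000), (nat_lit 745074000), (nat_lit 869200000)], [], [(nat_lit 3915128884), (nat_lit 3681636671), (nat_lit 3628621564), (nat_lit 3417535870), (nat_lit 3198568983), (nat_lit 3346694287), (nat_lit 3500448246), (nat_lit 4337866779)], (nat_lit 780000), (nat_lit 1598751), (nat_lit 780000), (nat_lit 1762501), (nat_lit 0), (nat_lit 1412501), [(nat_lit 1977501), (nat_lit 1271251), (nat_lit 1271251)], [(nat_lit 32), (nat_lit 67), (nat_lit 401), (nat_lit 175), (nat_lit 9)]⟩⟩) (.leaf ⟨(nat_lit 0), (nat_lit 789), (nat_lit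 0), (nat_lit 211), (nat_lit 2494), (nat_lit 5779), (nat_lit 8277), (nat_lit 2415), (nat_lit 153708), (nat_lit 0), (nat_lit 0), [], Pd.none, Pd.none, (nat_lit 0), (nat_lit 1), (nat_lit 0), (nat_lit 0), (nat_lit 5), (nat_lit 0), [], [], [⟨(nat_lit 1), (nat_lit 54), (nat_lit 93), (nat_lit 100), (nat_lit 211857442)⟩], [],
 ⟨⟨[(nat_lit 60), (nat_lit 100), (nat_lit 140)], [(nat_lit 0), (nat_lit 609), (nat_lit 2558)], [((nat_lit 0), (nat_lit 0), (nat_lit 0)), ((nat_lit 1000), (nat_lit 905), (nat_lit 238)), ((nat_lit 1000), (nat_lit 904), (nat_lit 760))], ((nat_lit 91), (nat_lit 100), (nat_lit 79))⟩, (nat_lit 2689264), (nat_lit 211), (nat_lit 211), (nat_lit 0), (nat_lit 222105), [(nat_lit 3341599233), (nat_lit 6357762417), (nat_lit 9842000000)], [], [(nat_lit 24259889482), (nat_lit 25256802433), (nat_lit 30905931802), (nat_lit 31749499248), (nat_lit 25525798789), (nat_lit 26320546230), (nat_lit 31338708037), (nat_lit 32123691364)], (nat_lit 1271251), (nat_lit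 1271251), (nat_lit 1271251), (nat_lit 1271251), (nat_lit 780000), (nat_lit 1762501), [(nat_lit 780000), (nat_lit 1435001), (nat_lit 1271251)], [(nat_lit 11), (nat_lit 55), (nat_lit 272), (nat_lit 60), (nat_lit 7)]⟩,
 ⟨⟨[(nat_lit 80), (nat_lit 140), (nat_lit 180)], [(nat_lit 0), (nat_lit 0), (nat_lit 3656)], [((nat_lit 0), (nat_lit 0), (nat_lit 0)), ((nat_lit 0), (nat_lit 0), (nat_lit 0)), ((nat_lit 637), (nat_lit 1000), (nat_lit 908))], ((nat_lit 100), (nat_lit 81), (nat_lit 77))⟩, (nat_lit 1893748), (nat_lit 262), (nat_lit 262), (nat_lit 0), (nat_lit 255330), [(nat_lit 4688000000), (nat_lit 9842000000), (nat_lit 14058000000)], [], [(nat_lit 29362745761), (nat_lit 32318119866), (nat_lit 35737693722), (nat_lit 37388652400), (nat_lit 36398054340), (nat_lit 38143108278), (nat_lit 40762609648), (nat_lit 41688958168)], (nat_lit 1271251), (nat_lit 1271251), (nat_lit 1271251), (nat_lit 1271251), (nat_lit 1271251), (nat_lit 1271251), [(nat_lit 1100000), (nat_lit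 2127501), (nat_lit 1271251)], [(nat_lit 19), (nat_lit 63), (nat_lit 538), (nat_lit 300), (nat_lit 11)]⟩,
 ⟨⟨[(nat_lit 140), (nat_lit 180), (nat_lit 200)], [(nat_lit 0), (nat_lit 0), (nat_lit 2835)], [((nat_lit 0), (nat_lit 0), (nat_lit 0)), ((nat_lit 0), (nat_lit 0), (nat_lit 0)), ((nat_lit 363), (nat_lit 1000), (nat_lit 798))], ((nat_lit 0), (nat_lit 0), (nat_lit 0))⟩, (nat_lit 58053), (nat_lit 300), (nat_lit 1114), (nat_lit 16479100), (nat_lit 1610787), [(nat_lit 2076662000), (nat_lit 2966238000), (nat_lit 3460400000)], [], [(nat_lit 13650419919), (nat_lit 12802068094), (nat_lit 12615916718), (nat_lit 11765662415), (nat_lit 12836812408), (nat_lit 11957742295), (nat_lit 11763440228), (nat_lit 10921031308)], (nat_lit 780000), (nat_lit 1598751), (nat_lit 780000), (nat_lit 1762501), (nat_lit 1271251), (nat_lit 1271251), [(nat_lit 1977501), (nat_lit 1271251), (nat_lit 1271251)], [(nat_lit 32), (nat_lit 67), (nat_lit 456), (nat_lit 225), (nat_lit 10)]⟩⟩)))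
noncomputable def c4_60 : Tr Lf :=
 (.spl (nat_lit 2) (nat_lit 180) (.trX (nat_lit 4) (nat_lit 0) (nat_lit 2) (nat_lit 87) (nat_lit 59) (nat_lit 100) (nat_lit 370) (.spl (nat_lit 1) (nat_lit 280) (.dle (nat_lit 0)) (.trX (nat_lit 5) (nat_lit 1) (nat_lit 2) (nat_lit 92) (nat_lit 49) (nat_lit 100) (nat_lit 380) (.spl (nat_lit 5) (nat_lit 200) (.spl (nat_lit 1) (nat_lit 300) (.spl (nat_lit 6) (nat_lit 48) (.leaf ⟨(nat_lit 0), (nat_lit 790), (nat_lit 0), (nat_lit 210), (nat_lit 23677), (nat_lit 9000), (nat_lit 9082), (nat_lit 2671), (nat_lit 0), (nat_lit 0), (nat_lit 0), [], Pd.none, Pd.none, (nat_lit 0), (nat_lit 1), (nat_lit 0), (nat_lit 0), (nat_lit 6), (nat_lit 0), [], [⟨(nat_lit 1), (nat_lit 77), (nat_lit 86), (nat_lit 100), (nat_lit 437407309)⟩], [], [],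
 ⟨⟨[(nat_lit 60), (nat_lit 100), (nat_lit 120)], [(nat_lit 0), (nat_lit 609), (nat_lit 1609)], [((nat_lit 0), (nat_lit 0), (nat_lit 0)), ((nat_lit 1000), (nat_lit 905), (nat_lit 238)), ((nat_lit 1000), (nat_lit 882), (nat_lit 668))], ((nat_lit 88), (nat_lit 100), (nat_lit 66))⟩, (nat_lit 0), (nat_lit 132), (nat_lit 132), (nat_lit 0), (nat_lit 72095), [(nat_lit 5006368067), (nat_lit 7289475066), (nat_lit 7968000000)], [], [(nat_lit 22779160500), (nat_lit 24365448000), (nat_lit 26427592500), (nat_lit 27505936000), (nat_lit 32250399750), (nat_lit 33230118250), (nat_lit 33692308000), (nat_lit 34640419250)], (nat_lit 1271251), (nat_lit 1271251), (nat_lit 780000), (nat_lit 2090001), (nat_lit 1271251), (nat_lit 1271251), [(nat_lit 780000), (nat_lit 1435001), (nat_lit 1271251)], [(nat_lit 10), (nat_lit 54), (nat_lit 289), (nat_lit 75), (nat_lit 8)]⟩,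
 ⟨⟨[(nat_lit 60), (nat_lit 100), (nat_lit 140)], [(nat_lit 0), (nat_lit 0), (nat_lit 2047)], [((nat_lit 0), (nat_lit 0), (nat_lit 0)), ((nat_lit 0), (nat_lit 0), (nat_lit 0)), ((nat_lit 1000), (nat_lit 993), (nat_lit 781))], ((nat_lit 96), (nat_lit 100), (nat_lit 68))⟩, (nat_lit 3536853), (nat_lit 204), (nat_lit 204), (nat_lit 0), (nat_lit 83011), [(nat_lit 3282000000), (nat_lit 6250000000), (nat_lit 9842000000)], [], [(nat_lit 22873127181), (nat_lit 24440322228), (nat_lit 29916327532), (nat_lit 30579675413), (nat_lit 25658066007), (nat_lit 21462125245), (nat_lit 45776888098), (nat_lit 41792265041)], (nat_lit 1271251), (nat_lit 1271251), (nat_lit 780000), (nat_lit 2090001), (nat_lit 0), (nat_lit 1412501), [(nat_lit 780000), (nat_lit 1435001), (nat_lit 1271251)], [(nat_lit 11), (nat_lit 55), (nat_lit 345), (nat_lit 125), (nat_lit 10)]⟩,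
 ⟨⟨[(nat_lit 140), (nat_lit 180), (nat_lit 200)], [(nat_lit 0), (nat_lit 0), (nat_lit 2835)], [((nat_lit 0), (nat_lit 0), (nat_lit 0)), ((nat_lit 0), (nat_lit 0), (nat_lit 0)), ((nat_lit 363), (nat_lit 1000), (nat_lit 798))], ((nat_lit 0), (nat_lit 0), (nat_lit 0))⟩, (nat_lit 57778), (nat_lit 300), (nat_lit 700), (nat_lit 16401000), (nat_lit 537654), [(nat_lit 2066820000), (nat_lit 2952180000), (nat_lit 3444000000)], [], [(nat_lit 14305053988), (nat_lit 13720391517), (nat_lit 14288569491), (nat_lit 13699255249), (nat_lit 11342150088), (nat_lit 10783505851), (nat_lit 11213592025), (nat_lit 10602483220)], (nat_lit 780000), (nat_lit 1271251), (nat_lit 1271251), (nat_lit 1271251), (nat_lit 0), (nat_lit 1412501), [(nat_lit 1977501), (nat_lit 1271251), (nat_lit 1271251)], [(nat_lit 32), (nat_lit 67), (nat_lit 428), (nat_lit 200), (nat_lit 9)]⟩⟩) (.dle (nat_lit 0))) (.spl (nat_lit 3) (nat_lit 200) (.leaf ⟨(nat_lit 0), (nat_lit 929), (nat_lit 0), (nat_lit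 71), (nat_lit 25017), (nat_lit 5914), (nat_lit 6934), (nat_lit 907), (nat_lit 149691), (nat_lit 0), (nat_lit 0), [], Pd.none, Pd.none, (nat_lit 0), (nat_lit 1), (nat_lit 0), (nat_lit 0), (nat_lit 6), (nat_lit 0), [], [⟨(nat_lit 1), (nat_lit 77), (nat_lit 86), (nat_lit 100), (nat_lit 500097331)⟩], [], [],
 ⟨⟨[(nat_lit 60), (nat_lit 100), (nat_lit 140)], [(nat_lit 0), (nat_lit 609), (nat_lit 2558)], [((nat_lit 0), (nat_lit 0), (nat_lit 0)), ((nat_lit 1000), (nat_lit 905), (nat_lit 238)), ((nat_lit 1000), (nat_lit 904), (nat_lit 760))], ((nat_lit 91), (nat_lit 100), (nat_lit 79))⟩, (nat_lit 2855652), (nat_lit 201), (nat_lit 201), (nat_lit 0), (nat_lit 219231), [(nat_lit 3458898297), (nat_lit 6250000029), (nat_lit 9842000000)], [], [(nat_lit 21903412345), (nat_lit 22985223296), (nat_lit 22637243024), (nat_lit 23605772208), (nat_lit 28671935180), (nat_lit 29412109402), (nat_lit 28747112921), (nat_lit 29551426660)], (nat_lit 1271251), (nat_lit 1271251),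 (nat_lit 780000), (nat_lit 1435001), (nat_lit 1271251), (nat_lit 1271251), [(nat_lit 780000), (nat_lit 1435001), (nat_lit 1271251)], [(nat_lit 11), (nat_lit 55), (nat_lit 373), (nat_lit 150), (nat_lit 10)]⟩,
 ⟨⟨[(nat_lit 60), (nat_lit 100), (nat_lit 140)], [(nat_lit 0), (nat_lit 609), (nat_lit 2558)], [((nat_lit 0), (nat_lit 0), (nat_lit 0)), ((nat_lit 1000), (nat_lit 905), (nat_lit 238)), ((nat_lit 1000), (nat_lit 904), (nat_lit 760))], ((nat_lit 91), (nat_lit 100), (nat_lit 79))⟩, (nat_lit 4047484), (nat_lit 313), (nat_lit 313), (nat_lit 0), (nat_lit 219231), [(nat_lit 3282000000), (nat_lit 6250000000), (nat_lit 9842000000)], [], [(nat_lit 20567505702), (nat_lit 22223833440), (nat_lit 22018683576), (nat_lit 23881267724), (nat_lit 21464726560), (nat_lit 19698933708), (nat_lit 29686144039), (nat_lit 26565429732)], (nat_lit 1271251), (nat_lit 1271251), (nat_lit 780000), (nat_lit 1435001), (nat_lit 0), (nat_lit 1412501), [(nat_lit 780000), (nat_lit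 1435001), (nat_lit 1271251)], [(nat_lit 11), (nat_lit 55), (nat_lit 317), (nat_lit 100), (nat_lit 9)]⟩,
 ⟨⟨[(nat_lit 140), (nat_lit 180), (nat_lit 200)], [(nat_lit 0), (nat_lit 0), (nat_lit 2835)], [((nat_lit 0), (nat_lit 0), (nat_lit 0)), ((nat_lit 0), (nat_lit 0), (nat_lit 0)), ((nat_lit 363), (nat_lit 1000), (nat_lit 798))], ((nat_lit 0), (nat_lit 0), (nat_lit 0))⟩, (nat_lit 19534), (nat_lit 300), (nat_lit 1177), (nat_lit 5545106), (nat_lit 1610787), [(nat_lit 698782000), (nat_lit 998118000), (nat_lit 1164400000)], [], [(nat_lit 4831693620), (nat_lit 4632876696), (nat_lit 4832133856), (nat_lit 4631798501), (nat_lit 3824762828), (nat_lit 3634796545), (nat_lit 3780421468), (nat_lit 3572656136)], (nat_lit 780000), (nat_lit 1271251), (nat_lit 1271251), (nat_lit 1271251), (nat_lit 0), (nat_lit 1412501), [(nat_lit 1977501), (nat_lit 1271251), (nat_lit 1271251)], [(nat_lit 32), (nat_lit 67), (nat_lit 428), (nat_lit 200), (nat_lit 9)]⟩⟩) (.leaf ⟨(nat_lit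 0), (nat_lit 928), (nat_lit 0), (nat_lit 72), (nat_lit 21508), (nat_lit 6156), (nat_lit 6901), (nat_lit 905), (nat_lit 9956117555109), (nat_lit 0), (nat_lit 0), [], Pd.none, Pd.none, (nat_lit 0), (nat_lit 1), (nat_lit 0), (nat_lit 0), (nat_lit 6), (nat_lit 0), [], [⟨(nat_lit 1), (nat_lit 77), (nat_lit 86), (nat_lit 100), (nat_lit 468866842)⟩], [], [⟨(nat_lit 0), (nat_lit 87), (nat_lit 100), (nat_lit 70), (nat_lit 7217061)⟩],
 ⟨⟨[(nat_lit 60), (nat_lit 100), (nat_lit 140)], [(nat_lit 0), (nat_lit 609), (nat_lit 2558)], [((nat_lit 0), (nat_lit 0), (nat_lit 0)), ((nat_lit 1000), (nat_lit 905), (nat_lit 238)), ((nat_lit 1000), (nat_lit 904), (nat_lit 760))], ((nat_lit 91), (nat_lit 100), (nat_lit 79))⟩, (nat_lit 2603274), (nat_lit 178), (nat_lit 178), (nat_lit 0), (nat_lit 219231), [(nat_lit 3593838982), (nat_lit 6376774486), (nat_lit 9842000000)], [], [(nat_lit 23067451838), (nat_lit 24060929204), (nat_lit 25448202272), (nat_lit 26261113196), (nat_lit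 29136542731), (nat_lit 29786682140), (nat_lit 31029228705), (nat_lit 31847961062)], (nat_lit 1271251), (nat_lit 1271251), (nat_lit 1271251), (nat_lit 1271251), (nat_lit 1271251), (nat_lit 1271251), [(nat_lit 780000), (nat_lit 1435001), (nat_lit 1271251)], [(nat_lit 11), (nat_lit 55), (nat_lit 401), (nat_lit 175), (nat_lit 10)]⟩,
 ⟨⟨[(nat_lit 60), (nat_lit 100), (nat_lit 140)], [(nat_lit 0), (nat_lit 609), (nat_lit 2558)], [((nat_lit 0), (nat_lit 0), (nat_lit 0)), ((nat_lit 1000), (nat_lit 905), (nat_lit 238)), ((nat_lit 1000), (nat_lit 904), (nat_lit 760))], ((nat_lit 91), (nat_lit 100), (nat_lit 79))⟩, (nat_lit 3753293), (nat_lit 294), (nat_lit 294), (nat_lit 0), (nat_lit 219231), [(nat_lit 3282000000), (nat_lit 6250000000), (nat_lit 9842000000)], [], [(nat_lit 22412992008), (nat_lit 23835688586), (nat_lit 27128577697), (nat_lit 29030039338), (nat_lit 19841543101), (nat_lit 20922934406), (nat_lit 22475268130), (nat_lit 23805728434)], (nat_lit 1271251),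 (nat_lit 1271251), (nat_lit 1271251), (nat_lit 1271251), (nat_lit 0), (nat_lit 1412501), [(nat_lit 780000), (nat_lit 1435001), (nat_lit 1271251)], [(nat_lit 11), (nat_lit 55), (nat_lit 345), (nat_lit 125), (nat_lit 10)]⟩,
 ⟨⟨[(nat_lit 140), (nat_lit 180), (nat_lit 200)], [(nat_lit 0), (nat_lit 0), (nat_lit 2835)], [((nat_lit 0), (nat_lit 0), (nat_lit 0)), ((nat_lit 0), (nat_lit 0), (nat_lit 0)), ((nat_lit 363), (nat_lit 1000), (nat_lit 798))], ((nat_lit 0), (nat_lit 0), (nat_lit 0))⟩, (nat_lit 19810), (nat_lit 300), (nat_lit 1177), (nat_lit 5623200), (nat_lit 1610787), [(nat_lit 708624000), (nat_lit 1012176000), (nat_lit 1180800000)], [], [(nat_lit 4917634268), (nat_lit 4720303689), (nat_lit 4914061617), (nat_lit 4696496957), (nat_lit 3929884446), (nat_lit 3727377560), (nat_lit 3874249480), (nat_lit 3667870764)], (nat_lit 780000), (nat_lit 1271251), (nat_lit 1271251), (nat_lit 1271251), (nat_lit 0), (nat_lit 1412501), [(nat_lit 1977501), (nat_lit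 1271251), (nat_lit 1271251)], [(nat_lit 32), (nat_lit 67), (nat_lit 428), (nat_lit 200), (nat_lit 9)]⟩⟩))) (.spl (nat_lit 1) (nat_lit 300) (.spl (nat_lit 6) (nat_lit 48) (.leaf ⟨(nat_lit 0), (nat_lit 0), (nat_lit 0), (nat_lit 1000), (nat_lit 0), (nat_lit 11542), (nat_lit 10296), (nat_lit 10684), (nat_lit 0), (nat_lit 0), (nat_lit 0), [], Pd.none, Pd.none, (nat_lit 0), (nat_lit 1), (nat_lit 0), (nat_lit 0), (nat_lit 0), (nat_lit 0), [⟨(nat_lit 0), (nat_lit 94), (nat_lit 87), (nat_lit 100), (nat_lit 137809263)⟩], [], [], [],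
 ⟨⟨[(nat_lit 60), (nat_lit 100), (nat_lit 120)], [(nat_lit 0), (nat_lit 609), (nat_lit 1609)], [((nat_lit 0), (nat_lit 0), (nat_lit 0)), ((nat_lit 1000), (nat_lit 905), (nat_lit 238)), ((nat_lit 1000), (nat_lit 882), (nat_lit 668))], ((nat_lit 88), (nat_lit 100), (nat_lit 66))⟩, (nat_lit 0), (nat_lit 132), (nat_lit 132), (nat_lit 0), (nat_lit 72095), [(nat_lit 6368325404), (nat_lit 7973447232), (nat_lit 7968000000)], [], [(nat_lit 20672164063), (nat_lit 22534069184), (nat_lit 25067170117), (nat_lit 26910878564), (nat_lit 34758613951), (nat_lit 36384796583), (nat_lit 36072598988), (nat_lit 37136350584)], (nat_lit 1271251), (nat_lit 1271251), (nat_lit 780000), (nat_lit 2090001), (nat_lit 1271251), (nat_lit 1271251), [(nat_lit 780000), (nat_lit 1435001), (nat_lit 1271251)], [(nat_lit 10), (nat_lit 54), (nat_lit 289), (nat_lit 75), (nat_lit 8)]⟩,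
 ⟨⟨[(nat_lit 60), (nat_lit 100), (nat_lit 140)], [(nat_lit 0), (nat_lit 0), (nat_lit 2047)], [((nat_lit 0), (nat_lit 0), (nat_lit 0)), ((nat_lit 0), (nat_lit 0), (nat_lit 0)), ((nat_lit 1000), (nat_lit 993), (nat_lit 781))], ((nat_lit 96), (nat_lit 100), (nat_lit 68))⟩, (nat_lit 4235411), (nat_lit 159), (nat_lit 159), (nat_lit 0), (nat_lit 83011), [(nat_lit 3282000000), (nat_lit 6250000000), (nat_lit 9842000000)], [], [(nat_lit 14530651619), (nat_lit 16218696031), (nat_lit 21399531208), (nat_lit 23300020536), (nat_lit 33190408424), (nat_lit 34627389074), (nat_lit 34888435972), (nat_lit 35840124464)], (nat_lit 1271251), (nat_lit 1271251), (nat_lit 780000), (nat_lit 2090001), (nat_lit 1271251), (nat_lit 1271251), [(nat_lit 780000), (nat_lit 1435001), (nat_lit 1271251)], [(nat_lit 11), (nat_lit 55), (nat_lit 401), (nat_lit 175), (nat_lit 11)]⟩,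
 ⟨⟨[(nat_lit 140), (nat_lit 180), (nat_lit 200)], [(nat_lit 0), (nat_lit 0), (nat_lit 2835)], [((nat_lit 0), (nat_lit 0), (nat_lit 0)), ((nat_lit 0), (nat_lit 0), (nat_lit 0)), ((nat_lit 363), (nat_lit 1000), (nat_lit 798))], ((nat_lit 0), (nat_lit 0), (nat_lit 0))⟩, (nat_lit 275132), (nat_lit 300), (nat_lit 533), (nat_lit 78100004), (nat_lit 537654), [(nat_lit 9842000000), (nat_lit 14058000000), (nat_lit 16400000000)], [], [(nat_lit 55604189133), (nat_lit 53712465142), (nat_lit 56423640094), (nat_lit 54243134415), (nat_lit 55536942350), (nat_lit 53305493738), (nat_lit 54982342464), (nat_lit 52587138749)], (nat_lit 780000), (nat_lit 1271251), (nat_lit 1271251), (nat_lit 1271251), (nat_lit 1271251), (nat_lit 1271251), [(nat_lit 1977501), (nat_lit 1271251), (nat_lit 1271251)], [(nat_lit 32), (nat_lit 67), (nat_lit 483), (nat_lit 250), (nat_lit 10)]⟩⟩) (.dle (nat_lit 0))) (.trX (nat_lit 5) (nat_lit 1) (nat_lit 2) (nat_lit 87) (nat_lit 59) (nat_lit 100)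 (nat_lit 370) (.stt (nat_lit 1) (.leaf ⟨(nat_lit 0), (nat_lit 751), (nat_lit 0), (nat_lit 249), (nat_lit 0), (nat_lit 7193), (nat_lit 5886), (nat_lit 2754), (nat_lit 6252782203409), (nat_lit 0), (nat_lit 0), [], Pd.none, Pd.none, (nat_lit 0), (nat_lit 1), (nat_lit 0), (nat_lit 0), (nat_lit 6), (nat_lit 0), [⟨(nat_lit 0), (nat_lit 83), (nat_lit 83), (nat_lit 100), (nat_lit 364984417)⟩], [⟨(nat_lit 1), (nat_lit 77), (nat_lit 86), (nat_lit 100), (nat_lit 418083044)⟩], [⟨(nat_lit 1), (nat_lit 77), (nat_lit 86), (nat_lit 100), (nat_lit 278025829)⟩], [⟨(nat_lit 2), (nat_lit 100), (nat_lit 94), (nat_lit 92), (nat_lit 472967)⟩],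
 ⟨⟨[(nat_lit 60), (nat_lit 100), (nat_lit 140)], [(nat_lit 0), (nat_lit 609), (nat_lit 2558)], [((nat_lit 0), (nat_lit 0), (nat_lit 0)), ((nat_lit 1000), (nat_lit 905), (nat_lit 238)), ((nat_lit 1000), (nat_lit 904), (nat_lit 760))], ((nat_lit 91), (nat_lit 100), (nat_lit 79))⟩, (nat_lit 0), (nat_lit 91), (nat_lit 91), (nat_lit 0), (nat_lit 0), [(nat_lit 3979781006), (nat_lit 6250000063), (nat_lit 9842000000)], [], [(nat_lit 20878501565), (nat_lit 22412232407), (nat_lit 25189434086), (nat_lit 26259129513), (nat_lit 30005248593), (nat_lit 30987271503), (nat_lit 32000260080), (nat_lit 32866167511)], (nat_lit 0), (nat_lit 0), (nat_lit 0), (nat_lit 0), (nat_lit 0), (nat_lit 0), [], [(nat_lit 11), (nat_lit 55), (nat_lit 401), (nat_lit 175), (nat_lit 11)]⟩,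
 ⟨⟨[(nat_lit 60), (nat_lit 100), (nat_lit 140)], [(nat_lit 0), (nat_lit 609), (nat_lit 2558)], [((nat_lit 0), (nat_lit 0), (nat_lit 0)), ((nat_lit 1000), (nat_lit 905), (nat_lit 238)), ((nat_lit 1000), (nat_lit 904), (nat_lit 760))], ((nat_lit 91), (nat_lit 100), (nat_lit 79))⟩, (nat_lit 2939544), (nat_lit 201), (nat_lit 201), (nat_lit 0), (nat_lit 219231), [(nat_lit 3282000000), (nat_lit 6250000000), (nat_lit 9842000000)], [], [(nat_lit 20510469591), (nat_lit 21735532358), (nat_lit 24086223580), (nat_lit 24959992212), (nat_lit 28461679565), (nat_lit 29364830973), (nat_lit 30776404721), (nat_lit 31582854272)], (nat_lit 1271251), (nat_lit 1271251), (nat_lit 780000), (nat_lit 2090001), (nat_lit 1271251), (nat_lit 1271251), [(nat_lit 780000), (nat_lit 1435001), (nat_lit 1271251)], [(nat_lit 11), (nat_lit 55), (nat_lit 401), (nat_lit 175), (nat_lit 11)]⟩,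
 ⟨⟨[(nat_lit 140), (nat_lit 180), (nat_lit 200)], [(nat_lit 0), (nat_lit 0), (nat_lit 2835)], [((nat_lit 0), (nat_lit 0), (nat_lit 0)), ((nat_lit 0), (nat_lit 0), (nat_lit 0)), ((nat_lit 363), (nat_lit 1000), (nat_lit 798))], ((nat_lit 0), (nat_lit 0), (nat_lit 0))⟩, (nat_lit 68508), (nat_lit 300), (nat_lit 1055), (nat_lit 19446900), (nat_lit 1610787), [(nat_lit 2450658000), (nat_lit 3500442000), (nat_lit 4083600000)], [], [(nat_lit 15457797768), (nat_lit 14844188127), (nat_lit 14813365693), (nat_lit 14181920800), (nat_lit 14451802760), (nat_lit 13820363543), (nat_lit 13807762996), (nat_lit 13160382690)], (nat_lit 780000), (nat_lit 1271251), (nat_lit 1271251), (nat_lit 1271251), (nat_lit 1271251), (nat_lit 1271251), [(nat_lit 1977501), (nat_lit 1271251), (nat_lit 1271251)], [(nat_lit 32), (nat_lit 67), (nat_lit 483), (nat_lit 250), (nat_lit 10)]⟩⟩) (.leaf ⟨(nat_lit 0), (nat_lit 300), (nat_lit 0), (nat_lit 700), (nat_lit 0), (nat_lit 6291), (nat_lit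 6503), (nat_lit 7256), (nat_lit 22402751504425), (nat_lit 0), (nat_lit 0), [], Pd.none, Pd.none, (nat_lit 0), (nat_lit 1), (nat_lit 0), (nat_lit 0), (nat_lit 6), (nat_lit 0), [⟨(nat_lit 0), (nat_lit 83), (nat_lit 83), (nat_lit 100), (nat_lit 299392973)⟩], [], [], [],
 ⟨⟨[(nat_lit 60), (nat_lit 100), (nat_lit 140)], [(nat_lit 0), (nat_lit 609), (nat_lit 2558)], [((nat_lit 0), (nat_lit 0), (nat_lit 0)), ((nat_lit 1000), (nat_lit 905), (nat_lit 238)), ((nat_lit 1000), (nat_lit 904), (nat_lit 760))], ((nat_lit 91), (nat_lit 100), (nat_lit 79))⟩, (nat_lit 3562269), (nat_lit 201), (nat_lit 201), (nat_lit 0), (nat_lit 219231), [(nat_lit 3458594996), (nat_lit 6250000061), (nat_lit 9842000000)], [], [(nat_lit 19794356542), (nat_lit 20952140926), (nat_lit 23800412741), (nat_lit 24805309390), (nat_lit 28703185693), (nat_lit 29867498242), (nat_lit 31155640697), (nat_lit 31980514457)], (nat_lit 1271251), (nat_lit 1271251), (nat_lit 780000), (nat_lit 2090001),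 (nat_lit 1271251), (nat_lit 1271251), [(nat_lit 780000), (nat_lit 1435001), (nat_lit 1271251)], [(nat_lit 11), (nat_lit 55), (nat_lit 401), (nat_lit 175), (nat_lit 11)]⟩,
 ⟨⟨[(nat_lit 60), (nat_lit 100), (nat_lit 140)], [(nat_lit 0), (nat_lit 609), (nat_lit 2558)], [((nat_lit 0), (nat_lit 0), (nat_lit 0)), ((nat_lit 1000), (nat_lit 905), (nat_lit 238)), ((nat_lit 1000), (nat_lit 904), (nat_lit 760))], ((nat_lit 91), (nat_lit 100), (nat_lit 79))⟩, (nat_lit 3768957), (nat_lit 171), (nat_lit 171), (nat_lit 0), (nat_lit 126196), [(nat_lit 3282000000), (nat_lit 6250000000), (nat_lit 9842000000)], [], [(nat_lit 17949342346), (nat_lit 19239249493), (nat_lit 22519488361), (nat_lit 23642216502), (nat_lit 28947663086), (nat_lit 30130622837), (nat_lit 31354154343), (nat_lit 32188672381)], (nat_lit 1271251), (nat_lit 1271251), (nat_lit 780000), (nat_lit 2090001), (nat_lit 1271251), (nat_lit 1271251), [(nat_lit 780000), (nat_lit 1435001), (nat_lit 1271251)], [(nat_lit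 11), (nat_lit 55), (nat_lit 401), (nat_lit 175), (nat_lit 11)]⟩,
 ⟨⟨[(nat_lit 140), (nat_lit 180), (nat_lit 200)], [(nat_lit 0), (nat_lit 0), (nat_lit 2835)], [((nat_lit 0), (nat_lit 0), (nat_lit 0)), ((nat_lit 0), (nat_lit 0), (nat_lit 0)), ((nat_lit 363), (nat_lit 1000), (nat_lit 798))], ((nat_lit 0), (nat_lit 0), (nat_lit 0))⟩, (nat_lit 192593), (nat_lit 300), (nat_lit 748), (nat_lit 54670000), (nat_lit 963818), [(nat_lit 6889400000), (nat_lit 9840600000), (nat_lit 11480000000)], [], [(nat_lit 43197106461), (nat_lit 41718316955), (nat_lit 42452683254), (nat_lit 40870133967), (nat_lit 41613710120), (nat_lit 40024010595), (nat_lit 40377004673), (nat_lit 38713716872)], (nat_lit 780000), (nat_lit 1271251), (nat_lit 1271251), (nat_lit 1271251), (nat_lit 1271251), (nat_lit 1271251), [(nat_lit 1977501), (nat_lit 1271251), (nat_lit 1271251)], [(nat_lit 32), (nat_lit 67), (nat_lit 483), (nat_lit 250), (nat_lit 10)]⟩⟩)))))))) (.spl (nat_lit 6) (nat_lit 48)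 (.leaf ⟨(nat_lit 0), (nat_lit 0), (nat_lit 0), (nat_lit 1000), (nat_lit 78163), (nat_lit 11646), (nat_lit 7902), (nat_lit 9813), (nat_lit 217140), (nat_lit 0), (nat_lit 0), [], Pd.none, Pd.none, (nat_lit 0), (nat_lit 1), (nat_lit 0), (nat_lit 0), (nat_lit 0), (nat_lit 0), [⟨(nat_lit 0), (nat_lit 83), (nat_lit 83), (nat_lit 100), (nat_lit 542530912)⟩], [], [⟨(nat_lit 0), (nat_lit 100), (nat_lit 92), (nat_lit 40), (nat_lit 295576455)⟩], [],
 ⟨⟨[(nat_lit 60), (nat_lit 100), (nat_lit 120)], [(nat_lit 0), (nat_lit 609), (nat_lit 1609)], [((nat_lit 0), (nat_lit 0), (nat_lit 0)), ((nat_lit 1000), (nat_lit 905), (nat_lit 238)), ((nat_lit 1000), (nat_lit 882), (nat_lit 668))], ((nat_lit 88), (nat_lit 100), (nat_lit 66))⟩, (nat_lit 0), (nat_lit 138), (nat_lit 138), (nat_lit 0), (nat_lit 64630), [(nat_lit 6624761121), (nat_lit 7801796910), (nat_lit 7968000000)], [], [(nat_lit 20585961219), (nat_lit 22459142592), (nat_lit 25100259121), (nat_lit 26954968532),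 (nat_lit 37739673192), (nat_lit 39197240426), (nat_lit 38203084563), (nat_lit 39147992320)], (nat_lit 1271251), (nat_lit 1271251), (nat_lit 780000), (nat_lit 2090001), (nat_lit 1271251), (nat_lit 1271251), [(nat_lit 780000), (nat_lit 1435001), (nat_lit 1271251)], [(nat_lit 10), (nat_lit 54), (nat_lit 289), (nat_lit 75), (nat_lit 8)]⟩,
 ⟨⟨[(nat_lit 80), (nat_lit 120), (nat_lit 160)], [(nat_lit 0), (nat_lit 0), (nat_lit 2132)], [((nat_lit 0), (nat_lit 0), (nat_lit 0)), ((nat_lit 0), (nat_lit 0), (nat_lit 0)), ((nat_lit 858), (nat_lit 1000), (nat_lit 713))], ((nat_lit 100), (nat_lit 89), (nat_lit 66))⟩, (nat_lit 3963599), (nat_lit 326), (nat_lit 326), (nat_lit 0), (nat_lit 77563), [(nat_lit 4688000000), (nat_lit 7968000000), (nat_lit 11872000000)], [], [(nat_lit 49970437852), (nat_lit 33124590760), (nat_lit 32294677416), (nat_lit 36342860260), (nat_lit 42366223796), (nat_lit 36970871032), (nat_lit 61621404644), (nat_lit 48417905432)], (nat_lit 1271251),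 (nat_lit 1271251), (nat_lit 780000), (nat_lit 2090001), (nat_lit 0), (nat_lit 2825001), [(nat_lit 1100000), (nat_lit 1785001), (nat_lit 1271251)], [(nat_lit 18), (nat_lit 59), (nat_lit 483), (nat_lit 250), (nat_lit 12)]⟩,
 ⟨⟨[(nat_lit 120), (nat_lit 160), (nat_lit 180)], [(nat_lit 0), (nat_lit 533), (nat_lit 2066)], [((nat_lit 0), (nat_lit 0), (nat_lit 0)), ((nat_lit 960), (nat_lit 1000), (nat_lit 200)), ((nat_lit 615), (nat_lit 1000), (nat_lit 729))], ((nat_lit 100), (nat_lit 69), (nat_lit 65))⟩, (nat_lit 2341463), (nat_lit 300), (nat_lit 436), (nat_lit 66400002), (nat_lit 212672), [(nat_lit 7968000000), (nat_lit 11872000000), (nat_lit 14058000000)], [], [(nat_lit 50902140955), (nat_lit 50694204863), (nat_lit 55074504351), (nat_lit 54522820034), (nat_lit 55810209965), (nat_lit 47309031431), (nat_lit 45919055608), (nat_lit 44969008318)], (nat_lit 1271251), (nat_lit 1271251), (nat_lit 1271251), (nat_lit 1271251), (nat_lit 0), (nat_lit 2825001), [(nat_lit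 1695001), (nat_lit 1271251), (nat_lit 1271251)], [(nat_lit 28), (nat_lit 65), (nat_lit 538), (nat_lit 300), (nat_lit 12)]⟩⟩) (.dle (nat_lit 0))))
noncomputable def c4_61 : Tr Lf :=
 (.trZ (nat_lit 3) (nat_lit 4) (nat_lit 5) (nat_lit 100) (nat_lit 94) (nat_lit 59) (nat_lit 30) (.spl (nat_lit 5) (nat_lit 200) (.leaf ⟨(nat_lit 0), (nat_lit 880), (nat_lit 0), (nat_lit 120), (nat_lit 9660), (nat_lit 5614), (nat_lit 11204), (nat_lit 1466), (nat_lit 72293), (nat_lit 0), (nat_lit 0), [], Pd.none, Pd.none, (nat_lit 0), (nat_lit 1), (nat_lit 0), (nat_lit 0), (nat_lit 6), (nat_lit 0), [], [⟨(nat_lit 1), (nat_lit 68), (nat_lit 84), (nat_lit 100), (nat_lit 142570074)⟩], [], [⟨(nat_lit 0), (nat_lit 83), (nat_lit 73), (nat_lit 100), (nat_lit 301649195)⟩],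
 ⟨⟨[(nat_lit 60), (nat_lit 100), (nat_lit 140)], [(nat_lit 0), (nat_lit 609), (nat_lit 2558)], [((nat_lit 0), (nat_lit 0), (nat_lit 0)), ((nat_lit 1000), (nat_lit 905), (nat_lit 238)), ((nat_lit 1000), (nat_lit 904), (nat_lit 760))], ((nat_lit 91), (nat_lit 100), (nat_lit 79))⟩, (nat_lit 2435682), (nat_lit 184), (nat_lit 184), (nat_lit 0), (nat_lit 222105), [(nat_lit 3376114511), (nat_lit 6250000390), (nat_lit 9842000000)], [], [(nat_lit 26304692910), (nat_lit 27091490816), (nat_lit 31656303730), (nat_lit 32169166396), (nat_lit 32069838361), (nat_lit 32547468720), (nat_lit 36982133702), (nat_lit 37435126665)], (nat_lit 1271251), (nat_lit 1271251), (nat_lit 1271251), (nat_lit 1271251), (nat_lit 1271251), (nat_lit 1271251), [(nat_lit 780000), (nat_lit 1435001), (nat_lit 1271251)], [(nat_lit 11), (nat_lit 55), (nat_lit 317), (nat_lit 100), (nat_lit 8)]⟩,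
 ⟨⟨[(nat_lit 80), (nat_lit 140), (nat_lit 180)], [(nat_lit 0), (nat_lit 0), (nat_lit 3656)], [((nat_lit 0), (nat_lit 0), (nat_lit 0)), ((nat_lit 0), (nat_lit 0), (nat_lit 0)), ((nat_lit 637), (nat_lit 1000), (nat_lit 908))], ((nat_lit 100), (nat_lit 81), (nat_lit 77))⟩, (nat_lit 2424699), (nat_lit 402), (nat_lit 402), (nat_lit 0), (nat_lit 255330), [(nat_lit 4688000000), (nat_lit 9842000000), (nat_lit 14058000000)], [], [(nat_lit 34431444096), (nat_lit 37628464939), (nat_lit 42856135190), (nat_lit 48545528090), (nat_lit 27737544552), (nat_lit 30351887760), (nat_lit 33954605984), (nat_lit 38074895680)], (nat_lit 1271251), (nat_lit 1271251), (nat_lit 1271251), (nat_lit 1271251), (nat_lit 169688), (nat_lit 1418125), [(nat_lit 1100000), (nat_lit 2127501), (nat_lit 1271251)], [(nat_lit 19), (nat_lit 63), (nat_lit 483), (nat_lit 250), (nat_lit 11)]⟩,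
 ⟨⟨[(nat_lit 140), (nat_lit 180), (nat_lit 200)], [(nat_lit 0), (nat_lit 0), (nat_lit 2835)], [((nat_lit 0), (nat_lit 0), (nat_lit 0)), ((nat_lit 0), (nat_lit 0), (nat_lit 0)), ((nat_lit 363), (nat_lit 1000), (nat_lit 798))], ((nat_lit 0), (nat_lit 0), (nat_lit 0))⟩, (nat_lit 33016), (nat_lit 300), (nat_lit 1156), (nat_lit 9372000), (nat_lit 1610787), [(nat_lit 1181040000), (nat_lit 1686960000), (nat_lit 1968000000)], [], [(nat_lit 7970150279), (nat_lit 7454981805), (nat_lit 7918390899), (nat_lit 7389391319), (nat_lit 6727435452), (nat_lit 6679606195), (nat_lit 6586720071), (nat_lit 6073398961)], (nat_lit 780000), (nat_lit 1598751), (nat_lit 1271251), (nat_lit 1271251), (nat_lit 169688), (nat_lit 1418125), [(nat_lit 1977501), (nat_lit 1271251), (nat_lit 1271251)], [(nat_lit 32), (nat_lit 67), (nat_lit 456), (nat_lit 225), (nat_lit 10)]⟩⟩) (.spl (nat_lit 1) (nat_lit 280) (.dle (nat_lit 0)) (.leaf ⟨(nat_lit 0), (nat_lit 747), (nat_lit 0), (nat_lit 253),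 (nat_lit 0), (nat_lit 5496), (nat_lit 7281), (nat_lit 2797), (nat_lit 3839303), (nat_lit 0), (nat_lit 0), [], Pd.none, Pd.none, (nat_lit 0), (nat_lit 1), (nat_lit 0), (nat_lit 0), (nat_lit 6), (nat_lit 0), [], [⟨(nat_lit 1), (nat_lit 68), (nat_lit 84), (nat_lit 100), (nat_lit 284456889)⟩], [⟨(nat_lit 1), (nat_lit 63), (nat_lit 88), (nat_lit 100), (nat_lit 206737818)⟩], [],
 ⟨⟨[(nat_lit 60), (nat_lit 100), (nat_lit 140)], [(nat_lit 0), (nat_lit 609), (nat_lit 2558)], [((nat_lit 0), (nat_lit 0), (nat_lit 0)), ((nat_lit 1000), (nat_lit 905), (nat_lit 238)), ((nat_lit 1000), (nat_lit 904), (nat_lit 760))], ((nat_lit 91), (nat_lit 100), (nat_lit 79))⟩, (nat_lit 2500146), (nat_lit 184), (nat_lit 184), (nat_lit 0), (nat_lit 222105), [(nat_lit 3322768644), (nat_lit 6250000402), (nat_lit 9842000000)], [], [(nat_lit 26264560716), (nat_lit 27014041940), (nat_lit 31537973636), (nat_lit 32049713060), (nat_lit 31963207899), (nat_lit 32547378934), (nat_lit 36816246971),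 (nat_lit 37269537560)], (nat_lit 1271251), (nat_lit 1271251), (nat_lit 1271251), (nat_lit 1271251), (nat_lit 1271251), (nat_lit 1271251), [(nat_lit 780000), (nat_lit 1435001), (nat_lit 1271251)], [(nat_lit 11), (nat_lit 55), (nat_lit 317), (nat_lit 100), (nat_lit 8)]⟩,
 ⟨⟨[(nat_lit 60), (nat_lit 120), (nat_lit 160)], [(nat_lit 0), (nat_lit 0), (nat_lit 3243)], [((nat_lit 0), (nat_lit 0), (nat_lit 0)), ((nat_lit 0), (nat_lit 0), (nat_lit 0)), ((nat_lit 878), (nat_lit 1000), (nat_lit 945))], ((nat_lit 100), (nat_lit 99), (nat_lit 82))⟩, (nat_lit 1767957), (nat_lit 218), (nat_lit 218), (nat_lit 0), (nat_lit 231845), [(nat_lit 3282000000), (nat_lit 7968000000), (nat_lit 11872000000)], [], [(nat_lit 27972353777), (nat_lit 29638465608), (nat_lit 34130327998), (nat_lit 35136594195), (nat_lit 34984956667), (nat_lit 36037944266), (nat_lit 39419138456), (nat_lit 40260909304)], (nat_lit 1271251), (nat_lit 1271251), (nat_lit 1271251), (nat_lit 1271251), (nat_lit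 1271251), (nat_lit 1271251), [(nat_lit 780000), (nat_lit 1762501), (nat_lit 1271251)], [(nat_lit 12), (nat_lit 59), (nat_lit 538), (nat_lit 300), (nat_lit 13)]⟩,
 ⟨⟨[(nat_lit 140), (nat_lit 180), (nat_lit 200)], [(nat_lit 0), (nat_lit 0), (nat_lit 2835)], [((nat_lit 0), (nat_lit 0), (nat_lit 0)), ((nat_lit 0), (nat_lit 0), (nat_lit 0)), ((nat_lit 363), (nat_lit 1000), (nat_lit 798))], ((nat_lit 0), (nat_lit 0), (nat_lit 0))⟩, (nat_lit 69608), (nat_lit 300), (nat_lit 1055), (nat_lit 19759307), (nat_lit 1610787), [(nat_lit 2490026000), (nat_lit 3556674000), (nat_lit 4149200000)], [], [(nat_lit 15713494162), (nat_lit 14738272540), (nat_lit 14986905214), (nat_lit 13971435442), (nat_lit 14578862336), (nat_lit 13564800734), (nat_lit 13998872935), (nat_lit 12955736009)], (nat_lit 780000), (nat_lit 1598751), (nat_lit 1271251), (nat_lit 1271251), (nat_lit 1271251), (nat_lit 1271251), [(nat_lit 1977501), (nat_lit 1271251), (nat_lit 1271251)], [(nat_lit 32),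 (nat_lit 67), (nat_lit 538), (nat_lit 300), (nat_lit 11)]⟩⟩))))
noncomputable def c4_62 : Tr Lf :=
 (.spl (nat_lit 5) (nat_lit 120) (.spl (nat_lit 1) (nat_lit 280) (.ord (.dle (nat_lit 0))) (.trZ (nat_lit 1) (nat_lit 2) (nat_lit 5) (nat_lit 100) (nat_lit 92) (nat_lit 49) (nat_lit 20) (.leaf ⟨(nat_lit 0), (nat_lit 0), (nat_lit 0), (nat_lit 1000), (nat_lit 67642), (nat_lit 8892), (nat_lit 10525), (nat_lit 10395), (nat_lit 145750), (nat_lit 65497), (nat_lit 0), [], Pd.none, Pd.none, (nat_lit 0), (nat_lit 1), (nat_lit 0), (nat_lit 0), (nat_lit 0), (nat_lit 0), [], [], [⟨(nat_lit 0), (nat_lit 100), (nat_lit 92), (nat_lit 82), (nat_lit 1501696494)⟩], [],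
 ⟨⟨[(nat_lit 60), (nat_lit 100), (nat_lit 140)], [(nat_lit 0), (nat_lit 609), (nat_lit 2558)], [((nat_lit 0), (nat_lit 0), (nat_lit 0)), ((nat_lit 1000), (nat_lit 905), (nat_lit 238)), ((nat_lit 1000), (nat_lit 904), (nat_lit 760))], ((nat_lit 93), (nat_lit 100), (nat_lit 84))⟩, (nat_lit 2034206), (nat_lit 284), (nat_lit 284), (nat_lit 0), (nat_lit 356586), [(nat_lit 3282000043), (nat_lit 6512817835), (nat_lit 9842000000)], [], [(nat_lit 26255567714), (nat_lit 21587285498), (nat_lit 35229905718), (nat_lit 36413121904), (nat_lit 42959161792), (nat_lit 38851751368), (nat_lit 42159026160), (nat_lit 42570735328)], (nat_lit 1271251), (nat_lit 1271251), (nat_lit 1271251), (nat_lit 1271251), (nat_lit 780000), (nat_lit 3072501), [(nat_lit 780000), (nat_lit 1435001), (nat_lit 1271251)], [(nat_lit 11), (nat_lit 55), (nat_lit 428), (nat_lit 200), (nat_lit 12)]⟩,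
 ⟨⟨[(nat_lit 60), (nat_lit 120), (nat_lit 160)], [(nat_lit 0), (nat_lit 0), (nat_lit 3243)], [((nat_lit 0), (nat_lit 0), (nat_lit 0)), ((nat_lit 0), (nat_lit 0), (nat_lit 0)), ((nat_lit 878), (nat_lit 1000), (nat_lit 945))], ((nat_lit 100), (nat_lit 96), (nat_lit 86))⟩, (nat_lit 2454078), (nat_lit 370), (nat_lit 370), (nat_lit 0), (nat_lit 242050), [(nat_lit 3282000000), (nat_lit 7968000000), (nat_lit 11872000000)], [], [(nat_lit 30883667382), (nat_lit 30801675659), (nat_lit 45417911200), (nat_lit 48184241925), (nat_lit 22412883459), (nat_lit 24749533496), (nat_lit 45223198750), (nat_lit 38859538800)], (nat_lit 1271251), (nat_lit 1271251), (nat_lit 780000), (nat_lit 3072501), (nat_lit 111251), (nat_lit 780000), [(nat_lit 780000), (nat_lit 1762501), (nat_lit 1271251)], [(nat_lit 12), (nat_lit 59), (nat_lit 456), (nat_lit 225), (nat_lit 12)]⟩,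
 ⟨⟨[(nat_lit 100), (nat_lit 140), (nat_lit 180)], [(nat_lit 0), (nat_lit 508), (nat_lit 2854)], [((nat_lit 0), (nat_lit 0), (nat_lit 0)), ((nat_lit 1000), (nat_lit 1000), (nat_lit 198)), ((nat_lit 777), (nat_lit 1000), (nat_lit 712))], ((nat_lit 100), (nat_lit 70), (nat_lit 79))⟩, (nat_lit 2149606), (nat_lit 300), (nat_lit 457), (nat_lit 62500002), (nat_lit 281037), [(nat_lit 6250000000), (nat_lit 9842000000), (nat_lit 14058000000)], [], [(nat_lit 47532101202), (nat_lit 50254161368), (nat_lit 51644451280), (nat_lit 51756525160), (nat_lit 41354460772), (nat_lit 43405109560), (nat_lit 53161469330), (nat_lit 44590051380)], (nat_lit 1271251), (nat_lit 1271251), (nat_lit 780000), (nat_lit 3072501), (nat_lit 111251), (nat_lit 780000), [(nat_lit 1412501), (nat_lit 1271251), (nat_lit 1271251)], [(nat_lit 24), (nat_lit 63), (nat_lit 456), (nat_lit 225), (nat_lit 11)]⟩⟩))) (.leaf ⟨(nat_lit 0), (nat_lit 0), (nat_lit 0), (nat_lit 1000), (nat_lit 19529), (nat_lit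 9155), (nat_lit 6861), (nat_lit 6024), (nat_lit 458630), (nat_lit 1140510), (nat_lit 0), [], Pd.none, Pd.none, (nat_lit 0), (nat_lit 1), (nat_lit 0), (nat_lit 0), (nat_lit 0), (nat_lit 0), [], [], [], [],
 ⟨⟨[(nat_lit 60), (nat_lit 100), (nat_lit 140)], [(nat_lit 0), (nat_lit 609), (nat_lit 2558)], [((nat_lit 0), (nat_lit 0), (nat_lit 0)), ((nat_lit 1000), (nat_lit 905), (nat_lit 238)), ((nat_lit 1000), (nat_lit 904), (nat_lit 760))], ((nat_lit 93), (nat_lit 100), (nat_lit 84))⟩, (nat_lit 853686), (nat_lit 284), (nat_lit 284), (nat_lit 0), (nat_lit 355950), [(nat_lit 3282000039), (nat_lit 6250000210), (nat_lit 9842000000)], [], [(nat_lit 26246443973), (nat_lit 24483952438), (nat_lit 35616079942), (nat_lit 36807125360), (nat_lit 43563258845), (nat_lit 39334362935), (nat_lit 42537609400), (nat_lit 42947820520)], (nat_lit 1271251), (nat_lit 1271251), (nat_lit 1271251), (nat_lit 1271251), (nat_lit 780000), (nat_lit 3072501), [(nat_lit 780000), (nat_lit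 1435001), (nat_lit 1271251)], [(nat_lit 11), (nat_lit 55), (nat_lit 428), (nat_lit 200), (nat_lit 12)]⟩,
 ⟨⟨[(nat_lit 80), (nat_lit 140), (nat_lit 180)], [(nat_lit 0), (nat_lit 0), (nat_lit 3656)], [((nat_lit 0), (nat_lit 0), (nat_lit 0)), ((nat_lit 0), (nat_lit 0), (nat_lit 0)), ((nat_lit 637), (nat_lit 1000), (nat_lit 908))], ((nat_lit 100), (nat_lit 78), (nat_lit 80))⟩, (nat_lit 2084821), (nat_lit 426), (nat_lit 426), (nat_lit 0), (nat_lit 401110), [(nat_lit 4688000000), (nat_lit 9842000000), (nat_lit 14058000000)], [], [(nat_lit 43511174895), (nat_lit 37519050090), (nat_lit 41700739400), (nat_lit 43356343582), (nat_lit 70243726560), (nat_lit 58051757004), (nat_lit 44458204372), (nat_lit 44922732208)], (nat_lit 1271251), (nat_lit 1271251), (nat_lit 1271251), (nat_lit 1271251), (nat_lit 780000), (nat_lit 3072501), [(nat_lit 1100000), (nat_lit 2127501), (nat_lit 1271251)], [(nat_lit 19), (nat_lit 63), (nat_lit 538), (nat_lit 300), (nat_lit 12)]⟩,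
 ⟨⟨[(nat_lit 100), (nat_lit 140), (nat_lit 180)], [(nat_lit 0), (nat_lit 508), (nat_lit 2854)], [((nat_lit 0), (nat_lit 0), (nat_lit 0)), ((nat_lit 1000), (nat_lit 1000), (nat_lit 198)), ((nat_lit 777), (nat_lit 1000), (nat_lit 712))], ((nat_lit 100), (nat_lit 70), (nat_lit 79))⟩, (nat_lit 637933), (nat_lit 300), (nat_lit 441), (nat_lit 67985218), (nat_lit 427797), [(nat_lit 6250000000), (nat_lit 9842000000), (nat_lit 14058000000)], [], [(nat_lit 51200817725), (nat_lit 53007898410), (nat_lit 54532282842), (nat_lit 55049616505), (nat_lit 62428071792), (nat_lit 55049616505), (nat_lit 54860289272), (nat_lit 54613024364)], (nat_lit 1271251), (nat_lit 1271251), (nat_lit 1271251), (nat_lit 1271251), (nat_lit 780000), (nat_lit 3072501), [(nat_lit 1412501), (nat_lit 1271251), (nat_lit 1271251)], [(nat_lit 24), (nat_lit 63), (nat_lit 538), (nat_lit 300), (nat_lit 12)]⟩⟩))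
def l004 : List St := [⟨⟨(nat_lit 300), (nat_lit 320), (nat_lit 240), (nat_lit 320), (nat_lit 120), (nat_lit 220), (nat_lit 120), (nat_lit 400), (nat_lit 120), (nat_lit 390), (nat_lit 0), (nat_lit 400), (nat_lit 0), (nat_lit 20)⟩, (nat_lit 3), (nat_lit 1), (nat_lit 0), false, false, false⟩,
  ⟨⟨(nat_lit 300), (nat_lit 320), (nat_lit 240), (nat_lit 320), (nat_lit 120), (nat_lit 220), (nat_lit 120), (nat_lit 200), (nat_lit 120), (nat_lit 240), (nat_lit 0), (nat_lit 400), (nat_lit 0), (nat_lit 20)⟩, (nat_lit 3), (nat_lit 3), (nat_lit 1), false, false, false⟩,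
  ⟨⟨(nat_lit 300), (nat_lit 320), (nat_lit 240), (nat_lit 320), (nat_lit 120), (nat_lit 220), (nat_lit 200), (nat_lit 280), (nat_lit 120), (nat_lit 240), (nat_lit 0), (nat_lit 400), (nat_lit 0), (nat_lit 20)⟩, (nat_lit 3), (nat_lit 3), (nat_lit 1), false, false, false⟩,
  ⟨⟨(nat_lit 300), (nat_lit 320), (nat_lit 240), (nat_lit 320), (nat_lit 120), (nat_lit 180), (nat_lit 120), (nat_lit 200), (nat_lit 240), (nat_lit 280), (nat_lit 0), (nat_lit 400), (nat_lit 0), (nat_lit 20)⟩, (nat_lit 0), (nat_lit 3), (nat_lit 1), false, false, false⟩,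
  ⟨⟨(nat_lit 300), (nat_lit 320), (nat_lit 240), (nat_lit 280), (nat_lit 120), (nat_lit 180), (nat_lit 120), (nat_lit 200), (nat_lit 280), (nat_lit 320), (nat_lit 0), (nat_lit 390), (nat_lit 0), (nat_lit 20)⟩, (nat_lit 0), (nat_lit 3), (nat_lit 1), false, false, false⟩,
  ⟨⟨(nat_lit 300), (nat_lit 320), (nat_lit 280), (nat_lit 320), (nat_lit 120), (nat_lit 180), (nat_lit 120), (nat_lit 200), (nat_lit 280), (nat_lit 320), (nat_lit 0), (nat_lit 390), (nat_lit 0), (nat_lit 20)⟩, (nat_lit 0), (nat_lit 3), (nat_lit 1), false, false, false⟩,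
  ⟨⟨(nat_lit 300), (nat_lit 320), (nat_lit 240), (nat_lit 320), (nat_lit 120), (nat_lit 180), (nat_lit 200), (nat_lit 280), (nat_lit 240), (nat_lit 320), (nat_lit 0), (nat_lit 400), (nat_lit 0), (nat_lit 20)⟩, (nat_lit 0), (nat_lit 3), (nat_lit 1), false, false, false⟩,
  ⟨⟨(nat_lit 300), (nat_lit 320), (nat_lit 240), (nat_lit 280), (nat_lit 120), (nat_lit 160), (nat_lit 120), (nat_lit 280), (nat_lit 320), (nat_lit 350), (nat_lit 0), (nat_lit 390), (nat_lit 0), (nat_lit 20)⟩, (nat_lit 0), (nat_lit 3), (nat_lit 1), false, false, false⟩,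
  ⟨⟨(nat_lit 300), (nat_lit 320), (nat_lit 280), (nat_lit 320), (nat_lit 120), (nat_lit 160), (nat_lit 120), (nat_lit 280), (nat_lit 320), (nat_lit 350), (nat_lit 0), (nat_lit 390), (nat_lit 0), (nat_lit 20)⟩, (nat_lit 0), (nat_lit 3), (nat_lit 1), false, false, false⟩,
  ⟨⟨(nat_lit 300), (nat_lit 320), (nat_lit 240), (nat_lit 320), (nat_lit 160), (nat_lit 180), (nat_lit 120), (nat_lit 280), (nat_lit 320), (nat_lit 370), (nat_lit 0), (nat_lit 400), (nat_lit 0), (nat_lit 20)⟩, (nat_lit 0), (nat_lit 3), (nat_lit 1), false, false, false⟩,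
  ⟨⟨(nat_lit 300), (nat_lit 320), (nat_lit 240), (nat_lit 320), (nat_lit 180), (nat_lit 220), (nat_lit 120), (nat_lit 280), (nat_lit 240), (nat_lit 390), (nat_lit 0), (nat_lit 400), (nat_lit 0), (nat_lit 20)⟩, (nat_lit 0), (nat_lit 3), (nat_lit 1), false, false, false⟩,
  ⟨⟨(nat_lit 300), (nat_lit 320), (nat_lit 240), (nat_lit 320), (nat_lit 120), (nat_lit 220), (nat_lit 120), (nat_lit 280), (nat_lit 240), (nat_lit 390), (nat_lit 0), (nat_lit 400), (nat_lit 0), (nat_lit 20)⟩, (nat_lit 1), (nat_lit 3), (nat_lit 1), false, false, false⟩,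
  ⟨⟨(nat_lit 300), (nat_lit 320), (nat_lit 240), (nat_lit 320), (nat_lit 120), (nat_lit 220), (nat_lit 280), (nat_lit 400), (nat_lit 120), (nat_lit 390), (nat_lit 0), (nat_lit 400), (nat_lit 0), (nat_lit 20)⟩, (nat_lit 0), (nat_lit 3), (nat_lit 1), false, false, false⟩,
  ⟨⟨(nat_lit 300), (nat_lit 320), (nat_lit 240), (nat_lit 320), (nat_lit 120), (nat_lit 220), (nat_lit 280), (nat_lit 400), (nat_lit 120), (nat_lit 390), (nat_lit 0), (nat_lit 400), (nat_lit 0), (nat_lit 20)⟩, (nat_lit 1), (nat_lit 3), (nat_lit 1), false, false, false⟩,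
  ⟨⟨(nat_lit 300), (nat_lit 320), (nat_lit 240), (nat_lit 320), (nat_lit 120), (nat_lit 220), (nat_lit 120), (nat_lit 200), (nat_lit 120), (nat_lit 240), (nat_lit 0), (nat_lit 400), (nat_lit 20), (nat_lit 40)⟩, (nat_lit 3), (nat_lit 3), (nat_lit 3), false, false, false⟩,
  ⟨⟨(nat_lit 300), (nat_lit 320), (nat_lit 240), (nat_lit 320), (nat_lit 120), (nat_lit 220), (nat_lit 200), (nat_lit 280), (nat_lit 120), (nat_lit 240), (nat_lit 0), (nat_lit 400), (nat_lit 20), (nat_lit 40)⟩, (nat_lit 3), (nat_lit 3), (nat_lit 3), false, false, false⟩,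
  ⟨⟨(nat_lit 300), (nat_lit 320), (nat_lit 240), (nat_lit 320), (nat_lit 120), (nat_lit 220), (nat_lit 280), (nat_lit 400), (nat_lit 120), (nat_lit 240), (nat_lit 0), (nat_lit 400), (nat_lit 20), (nat_lit 40)⟩, (nat_lit 3), (nat_lit 3), (nat_lit 3), false, false, false⟩,
  ⟨⟨(nat_lit 300), (nat_lit 320), (nat_lit 240), (nat_lit 280), (nat_lit 120), (nat_lit 180), (nat_lit 120), (nat_lit 280), (nat_lit 240), (nat_lit 370), (nat_lit 0), (nat_lit 400), (nat_lit 20), (nat_lit 40)⟩, (nat_lit 3), (nat_lit 3), (nat_lit 3), false, false, false⟩,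
  ⟨⟨(nat_lit 300), (nat_lit 320), (nat_lit 280), (nat_lit 320), (nat_lit 120), (nat_lit 180), (nat_lit 120), (nat_lit 280), (nat_lit 240), (nat_lit 370), (nat_lit 0), (nat_lit 400), (nat_lit 20), (nat_lit 40)⟩, (nat_lit 3), (nat_lit 3), (nat_lit 3), false, false, false⟩,
  ⟨⟨(nat_lit 300), (nat_lit 320), (nat_lit 240), (nat_lit 320), (nat_lit 180), (nat_lit 220), (nat_lit 120), (nat_lit 280), (nat_lit 240), (nat_lit 390), (nat_lit 0), (nat_lit 400), (nat_lit 20), (nat_lit 40)⟩, (nat_lit 3), (nat_lit 3), (nat_lit 3), false, false, false⟩,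
  ⟨⟨(nat_lit 300), (nat_lit 320), (nat_lit 240), (nat_lit 320), (nat_lit 120), (nat_lit 220), (nat_lit 280), (nat_lit 400), (nat_lit 240), (nat_lit 390), (nat_lit 0), (nat_lit 400), (nat_lit 20), (nat_lit 40)⟩, (nat_lit 3), (nat_lit 3), (nat_lit 3), false, false, false⟩,
  ⟨⟨(nat_lit 300), (nat_lit 320), (nat_lit 240), (nat_lit 280), (nat_lit 220), (nat_lit 320), (nat_lit 50), (nat_lit 120), (nat_lit 120), (nat_lit 400), (nat_lit 0), (nat_lit 400), (nat_lit 0), (nat_lit 40)⟩, (nat_lit 3), (nat_lit 3), (nat_lit 3), true, false, false⟩,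
  ⟨⟨(nat_lit 300), (nat_lit 320), (nat_lit 280), (nat_lit 320), (nat_lit 220), (nat_lit 320), (nat_lit 50), (nat_lit 120), (nat_lit 120), (nat_lit 400), (nat_lit 0), (nat_lit 400), (nat_lit 0), (nat_lit 40)⟩, (nat_lit 3), (nat_lit 3), (nat_lit 3), true, false, false⟩,
  ⟨⟨(nat_lit 300), (nat_lit 320), (nat_lit 240), (nat_lit 320), (nat_lit 220), (nat_lit 320), (nat_lit 120), (nat_lit 400), (nat_lit 120), (nat_lit 400), (nat_lit 0), (nat_lit 400), (nat_lit 0), (nat_lit 40)⟩, (nat_lit 3), (nat_lit 3), (nat_lit 3), false, false, false⟩,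
  ⟨⟨(nat_lit 300), (nat_lit 320), (nat_lit 240), (nat_lit 320), (nat_lit 120), (nat_lit 220), (nat_lit 50), (nat_lit 120), (nat_lit 120), (nat_lit 240), (nat_lit 0), (nat_lit 400), (nat_lit 40), (nat_lit 68)⟩, (nat_lit 3), (nat_lit 3), (nat_lit 3), true, false, false⟩,
  ⟨⟨(nat_lit 300), (nat_lit 320), (nat_lit 240), (nat_lit 320), (nat_lit 120), (nat_lit 220), (nat_lit 50), (nat_lit 120), (nat_lit 240), (nat_lit 390), (nat_lit 0), (nat_lit 400), (nat_lit 40), (nat_lit 68)⟩, (nat_lit 3), (nat_lit 3), (nat_lit 3), true, false, false⟩,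
  ⟨⟨(nat_lit 300), (nat_lit 320), (nat_lit 240), (nat_lit 320), (nat_lit 220), (nat_lit 320), (nat_lit 50), (nat_lit 120), (nat_lit 120), (nat_lit 400), (nat_lit 0), (nat_lit 400), (nat_lit 40), (nat_lit 76)⟩, (nat_lit 3), (nat_lit 3), (nat_lit 3), true, false, false⟩,
  ⟨⟨(nat_lit 300), (nat_lit 320), (nat_lit 240), (nat_lit 320), (nat_lit 120), (nat_lit 220), (nat_lit 120), (nat_lit 400), (nat_lit 120), (nat_lit 240), (nat_lit 0), (nat_lit 400), (nat_lit 40), (nat_lit 68)⟩, (nat_lit 3), (nat_lit 3), (nat_lit 3), false, false, false⟩,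
  ⟨⟨(nat_lit 300), (nat_lit 320), (nat_lit 240), (nat_lit 320), (nat_lit 120), (nat_lit 220), (nat_lit 120), (nat_lit 280), (nat_lit 240), (nat_lit 390), (nat_lit 0), (nat_lit 400), (nat_lit 40), (nat_lit 68)⟩, (nat_lit 3), (nat_lit 3), (nat_lit 3), false, false, false⟩,
  ⟨⟨(nat_lit 300), (nat_lit 320), (nat_lit 240), (nat_lit 320), (nat_lit 120), (nat_lit 220), (nat_lit 280), (nat_lit 400), (nat_lit 240), (nat_lit 390), (nat_lit 0), (nat_lit 400), (nat_lit 40), (nat_lit 68)⟩, (nat_lit 3), (nat_lit 3), (nat_lit 3), false, false, false⟩,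
  ⟨⟨(nat_lit 300), (nat_lit 320), (nat_lit 240), (nat_lit 320), (nat_lit 220), (nat_lit 320), (nat_lit 120), (nat_lit 400), (nat_lit 120), (nat_lit 400), (nat_lit 0), (nat_lit 400), (nat_lit 40), (nat_lit 76)⟩, (nat_lit 3), (nat_lit 3), (nat_lit 3), false, false, false⟩]
theorem t004 (h : EC env Ei) : ∀ τ ∈ l004, Dead τ :=
  List.forall_mem_cons.mpr ⟨chkT_sound0 h (T := c4_32) (by decide +kernel),
  List.forall_mem_cons.mpr ⟨chkT_sound0 h (T := c4_33) (by decide +kernel),
  List.forall_mem_cons.mpr ⟨chkT_sound0 h (T := c4_34) (by decide +kernel),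
  List.forall_mem_cons.mpr ⟨chkT_sound0 h (T := c4_35) (by decide +kernel),
  List.forall_mem_cons.mpr ⟨chkT_sound0 h (T := c4_36) (by decide +kernel),
  List.forall_mem_cons.mpr ⟨chkT_sound0 h (T := c4_37) (by decide +kernel),
  List.forall_mem_cons.mpr ⟨chkT_sound0 h (T := c4_38) (by decide +kernel),
  List.forall_mem_cons.mpr ⟨chkT_sound0 h (T := c4_39) (by decide +kernel),
  List.forall_mem_cons.mpr ⟨chkT_sound0 h (T := c4_40) (by decide +kernel),
  List.forall_mem_cons.mpr ⟨chkT_sound0 h (T := c4_41) (by decide +kernel),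
  List.forall_mem_cons.mpr ⟨chkT_sound0 h (T := c4_42) (by decide +kernel),
  List.forall_mem_cons.mpr ⟨chkT_sound0 h (T := c4_43) (by decide +kernel),
  List.forall_mem_cons.mpr ⟨chkT_sound0 h (T := c4_44) (by decide +kernel),
  List.forall_mem_cons.mpr ⟨chkT_sound0 h (T := c4_45) (by decide +kernel),
  List.forall_mem_cons.mpr ⟨chkT_sound0 h (T := c4_46) (by decide +kernel),
  List.forall_mem_cons.mpr ⟨chkT_sound0 h (T := c4_47) (by decide +kernel),
  List.forall_mem_cons.mpr ⟨chkT_sound0 h (T := c4_48) (by decide +kernel),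
  List.forall_mem_cons.mpr ⟨chkT_sound0 h (T := c4_49) (by decide +kernel),
  List.forall_mem_cons.mpr ⟨chkT_sound0 h (T := c4_50) (by decide +kernel),
  List.forall_mem_cons.mpr ⟨chkT_sound0 h (T := c4_51) (by decide +kernel),
  List.forall_mem_cons.mpr ⟨chkT_sound0 h (T := c4_52) (by decide +kernel),
  List.forall_mem_cons.mpr ⟨chkT_sound0 h (T := c4_53) (by decide +kernel),
  List.forall_mem_cons.mpr ⟨chkT_sound0 h (T := c4_54) (by decide +kernel),
  List.forall_mem_cons.mpr ⟨chkT_sound0 h (T := c4_55) (by decide +kernel),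
  List.forall_mem_cons.mpr ⟨chkT_sound0 h (T := c4_56) (by decide +kernel),
  List.forall_mem_cons.mpr ⟨chkT_sound0 h (T := c4_57) (by decide +kernel),
  List.forall_mem_cons.mpr ⟨chkT_sound0 h (T := c4_58) (by decide +kernel),
  List.forall_mem_cons.mpr ⟨chkT_sound0 h (T := c4_59) (by decide +kernel),
  List.forall_mem_cons.mpr ⟨chkT_sound0 h (T := c4_60) (by decide +kernel),
  List.forall_mem_cons.mpr ⟨chkT_sound0 h (T := c4_61) (by decide +kernel),
  List.forall_mem_cons.mpr ⟨chkT_sound0 h (T := c4_62) (by decide +kernel),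
  List.forall_mem_nil _⟩⟩⟩⟩⟩⟩⟩⟩⟩⟩⟩⟩⟩⟩⟩⟩⟩⟩⟩⟩⟩⟩⟩⟩⟩⟩⟩⟩⟩⟩⟩
end TC
end Pool.Agent.Lib.MP_6947cd_al
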