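import Pool.Agent.Lib.MP_6947cd_al.C.LeafF
import Pool.Agent.Lib.MP_6947cd_al.TC.E
import Pool.Agent.Lib.MP_6947cd_al.TC.F

/-!
Problem MP_6947cd_al (Chollet).  CASE C, tables and certificates.  Trees of leaves (part 5 of root 5).
-/

set_option autoImplicit false
set_option linter.all false
set_option maxRecDepth 100000
set_option maxHeartbeats 4000000
namespace Pool.Agent.Lib.MP_6947cd_al
namespace TC
open C1
noncomputable def c5_0 : Tr Lf :=
 (.spl (nat_lit 3) (nat_lit 20) (.spl (nat_lit 1) (nat_lit 180) (.ord (.dle (nat_lit 0))) (.leaf ⟨(nat_lit 1000), (nat_lit 0), (nat_lit 0), (nat_lit 0), (nat_lit 300000), (nat_lit 3874), (nat_lit 0), (nat_lit 0), (nat_lit 0), (nat_lit 76524355974619), (nat_lit 4000000), [((nat_lit 300), [((nat_lit 33), (nat_lit 5), (nat_lit 1000))])], ⟨(nat_lit 4), false, false, false, (nat_lit 65), (nat_lit 5000), (nat_lit 5478), [(nat_lit 1103976), (nat_lit 1121427), (nat_lit 1168047), (nat_lit 1185713), (nat_lit 1141443),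 (nat_lit 1157141), (nat_lit 1205514), (nat_lit 1221427)]⟩, ⟨(nat_lit 3), false, false, false, (nat_lit 89), (nat_lit 5000), (nat_lit 5478), [(nat_lit 1039905), (nat_lit 1057141), (nat_lit 1168047), (nat_lit 1185713), (nat_lit 1264704), (nat_lit 1271427), (nat_lit 1392847), (nat_lit 1399998)]⟩, (nat_lit 1835499), (nat_lit 61276419), (nat_lit 2200097), (nat_lit 3523484), (nat_lit 0), (nat_lit 0), [⟨(nat_lit 0), (nat_lit 100), (nat_lit 89), (nat_lit 49), (nat_lit 17554800842)⟩], [⟨(nat_lit 0), (nat_lit 100), (nat_lit 90), (nat_lit 36), (nat_lit 70284173)⟩], [], [],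
 ⟨⟨[(nat_lit 60), (nat_lit 80), (nat_lit 100)], [(nat_lit 0), (nat_lit 0), (nat_lit 534)], [((nat_lit 0), (nat_lit 0), (nat_lit 0)), ((nat_lit 0), (nat_lit 0), (nat_lit 0)), ((nat_lit 1000), (nat_lit 917), (nat_lit 393))], ((nat_lit 92), (nat_lit 100), (nat_lit 28))⟩, (nat_lit 40182063), (nat_lit 252), (nat_lit 252), (nat_lit 0), (nat_lit 39414), [(nat_lit 2381159577), (nat_lit 1481240427), (nat_lit 0)], [(nat_lit 0), (nat_lit 0), (nat_lit 3056440427)], [(nat_lit 17278718531), (nat_lit 19352741162), (nat_lit 16970883379), (nat_lit 18363141082), (nat_lit 16714054927), (nat_lit 18017428946), (nat_lit 16475279410), (nat_lit 17762739395)], (nat_lit 1271251), (nat_lit 1271251), (nat_lit 0), (nat_lit 111251), (nat_lit 0), (nat_lit 780000), [(nat_lit 780000), (nat_lit 1100000), (nat_lit 1442501)], [(nat_lit 9), (nat_lit 50), (nat_lit 249), (nat_lit 40), (nat_lit 10)]⟩,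
 Rw.none,
 Rw.none⟩)) (.spl (nat_lit 4) (nat_lit 80) (.spl (nat_lit 2) (nat_lit 180) (.leaf ⟨(nat_lit 1000), (nat_lit 0), (nat_lit 0), (nat_lit 0), (nat_lit 22143), (nat_lit 3680), (nat_lit 0), (nat_lit 0), (nat_lit 0), (nat_lit 81321), (nat_lit 3796000), [((nat_lit 300), [((nat_lit 33), (nat_lit 2), (nat_lit 60)), ((nat_lit 33), (nat_lit 5), (nat_lit 940))])], ⟨(nat_lit 3), false, false, false, (nat_lit 67), (nat_lit 5000), (nat_lit 5478), [(nat_lit 1077372), (nat_lit 1092856), (nat_lit 1205514), (nat_lit 1221427), (nat_lit 1114838), (nat_lit 1128570), (nat_lit 1242980), (nat_lit 1257141)]⟩, ⟨(nat_lit 3), false, false, false, (nat_lit 62), (nat_lit 5000), (nat_lit 5478), [(nat_lit 1039905), (nat_lit 1057141), (nat_lit 1103976), (nat_lit 1121427), (nat_lit 1189771), (nat_lit 1199998), (nat_lit 1253842), (nat_lit 1264284)]⟩, (nat_lit 1419601), (nat_lit 62943681), (nat_lit 2159660), (nat_lit 1896659), (nat_lit 0), (nat_lit 0), [⟨(nat_lit 0), (nat_lit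 100), (nat_lit 88), (nat_lit 68), (nat_lit 619270254)⟩], [⟨(nat_lit 0), (nat_lit 100), (nat_lit 92), (nat_lit 22), (nat_lit 127020701)⟩], [], [],
 ⟨⟨[(nat_lit 60), (nat_lit 80), (nat_lit 100)], [(nat_lit 0), (nat_lit 0), (nat_lit 534)], [((nat_lit 0), (nat_lit 0), (nat_lit 0)), ((nat_lit 0), (nat_lit 0), (nat_lit 0)), ((nat_lit 1000), (nat_lit 917), (nat_lit 393))], ((nat_lit 92), (nat_lit 100), (nat_lit 28))⟩, (nat_lit 0), (nat_lit 241), (nat_lit 241), (nat_lit 0), (nat_lit 23422), [(nat_lit 2253493454), (nat_lit 1639866581), (nat_lit 0)], [(nat_lit 0), (nat_lit 0), (nat_lit 2839178581)], [(nat_lit 15889575620), (nat_lit 17906765830), (nat_lit 15398701435), (nat_lit 16982048415), (nat_lit 14328820235), (nat_lit 15845138875), (nat_lit 14041659635), (nat_lit 15535122035)], (nat_lit 1271251), (nat_lit 1271251), (nat_lit 111251), (nat_lit 230000), (nat_lit 0), (nat_lit 490000), [(nat_lit 780000), (nat_lit 1100000), (nat_lit 1442501)], [(nat_lit 9), (nat_lit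 50), (nat_lit 238), (nat_lit 30), (nat_lit 10)]⟩,
 Rw.none,
 Rw.none⟩) (.ord (.spl (nat_lit 2) (nat_lit 220) (.spl (nat_lit 0) (nat_lit 290) (.dle (nat_lit 0)) (.trZ (nat_lit 0) (nat_lit 2) (nat_lit 4) (nat_lit 100) (nat_lit 90) (nat_lit 36) (nat_lit 10) (.leaf ⟨(nat_lit 1000), (nat_lit 0), (nat_lit 0), (nat_lit 0), (nat_lit 22754), (nat_lit 3418), (nat_lit 0), (nat_lit 0), (nat_lit 0), (nat_lit 216894), (nat_lit 931200), [((nat_lit 300), [((nat_lit 33), (nat_lit 2), (nat_lit 172)), ((nat_lit 12), (nat_lit 2), (nat_lit 828))])], ⟨(nat_lit 4), false, false, false, (nat_lit 81), (nat_lit 5000), (nat_lit 5245), [(nat_lit 1149343), (nat_lit 1157141), (nat_lit 1213499), (nat_lit 1221427), (nat_lit 1185928), (nat_lit 1192856), (nat_lit 1250085), (nat_lit 1257141)]⟩, ⟨(nat_lit 4), false, false, false, (nat_lit 88), (nat_lit 5000), (nat_lit 5245), [(nat_lit 1131050), (nat_lit 1139284), (nat_lit 1173821), (nat_lit 1182141), (nat_lit 1259100), (nat_lit 1264284),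 (nat_lit 1301871), (nat_lit 1307141)]⟩, (nat_lit 2079778), (nat_lit 60309482), (nat_lit 3148269), (nat_lit 3542249), (nat_lit 0), (nat_lit 0), [⟨(nat_lit 0), (nat_lit 100), (nat_lit 88), (nat_lit 68), (nat_lit 861994261)⟩], [⟨(nat_lit 0), (nat_lit 100), (nat_lit 87), (nat_lit 59), (nat_lit 162484702)⟩], [], [],
 ⟨⟨[(nat_lit 60), (nat_lit 80), (nat_lit 100)], [(nat_lit 0), (nat_lit 151), (nat_lit 679)], [((nat_lit 0), (nat_lit 0), (nat_lit 0)), ((nat_lit 1000), (nat_lit 953), (nat_lit 118)), ((nat_lit 1000), (nat_lit 894), (nat_lit 411))], ((nat_lit 91), (nat_lit 100), (nat_lit 28))⟩, (nat_lit 9063303), (nat_lit 231), (nat_lit 231), (nat_lit 0), (nat_lit 17521), [(nat_lit 1993125128), (nat_lit 2337649607), (nat_lit 1750345600)], [(nat_lit 0), (nat_lit 0), (nat_lit 0)], [(nat_lit 15934003609), (nat_lit 16900174594), (nat_lit 15286502207), (nat_lit 16091252519), (nat_lit 14487433772), (nat_lit 15245712252), (nat_lit 14235745737), (nat_lit 14980163453)],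 (nat_lit 1271251), (nat_lit 1271251), (nat_lit 111251), (nat_lit 230000), (nat_lit 54688), (nat_lit 490000), [(nat_lit 780000), (nat_lit 1100000), (nat_lit 1442501)], [(nat_lit 9), (nat_lit 50), (nat_lit 238), (nat_lit 30), (nat_lit 9)]⟩,
 Rw.none,
 Rw.none⟩))) (.ord (.trZ (nat_lit 0) (nat_lit 2) (nat_lit 4) (nat_lit 100) (nat_lit 92) (nat_lit 49) (nat_lit 20) (.spl (nat_lit 5) (nat_lit 120) (.leaf ⟨(nat_lit 0), (nat_lit 974), (nat_lit 26), (nat_lit 0), (nat_lit 49141), (nat_lit 5648), (nat_lit 10151), (nat_lit 255), (nat_lit 0), (nat_lit 47834809684638), (nat_lit 0), [], Pd.none, Pd.none, (nat_lit 0), (nat_lit 1), (nat_lit 0), (nat_lit 0), (nat_lit 5), (nat_lit 5), [⟨(nat_lit 0), (nat_lit 100), (nat_lit 90), (nat_lit 59), (nat_lit 3151926402)⟩], [⟨(nat_lit 0), (nat_lit 100), (nat_lit 90), (nat_lit 59), (nat_lit 107169806)⟩], [], [],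
 ⟨⟨[(nat_lit 60), (nat_lit 80), (nat_lit 100)], [(nat_lit 0), (nat_lit 0), (nat_lit 534)], [((nat_lit 0), (nat_lit 0), (nat_lit 0)), ((nat_lit 0), (nat_lit 0), (nat_lit 0)), ((nat_lit 1000), (nat_lit 917), (nat_lit 393))], ((nat_lit 92), (nat_lit 100), (nat_lit 28))⟩, (nat_lit 6321996), (nat_lit 232), (nat_lit 232), (nat_lit 0), (nat_lit 39414), [(nat_lit 3282000023), (nat_lit 4688000010), (nat_lit 6250000000)], [], [(nat_lit 18470643149), (nat_lit 21050317250), (nat_lit 17357237506), (nat_lit 19564247561), (nat_lit 15710559753), (nat_lit 17635111457), (nat_lit 15075023793), (nat_lit 16968885633)], (nat_lit 1271251), (nat_lit 1271251), (nat_lit 111251), (nat_lit 230000), (nat_lit 111251), (nat_lit 490000), [(nat_lit 780000), (nat_lit 1100000), (nat_lit 1442501)], [(nat_lit 9), (nat_lit 50), (nat_lit 238), (nat_lit 30), (nat_lit 9)]⟩,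
 ⟨⟨[(nat_lit 100), (nat_lit 120)], [(nat_lit 0), (nat_lit 254)], [((nat_lit 0), (nat_lit 0), (nat_lit 0)), ((nat_lit 1000), (nat_lit 1000), (nat_lit 198))], ((nat_lit 100), (nat_lit 99), (nat_lit 28))⟩, (nat_lit 18796699), (nat_lit 273), (nat_lit 273), (nat_lit 0), (nat_lit 51671), [(nat_lit 6087500000), (nat_lit 7760832000)], [], [(nat_lit 18979852189), (nat_lit 21168886495), (nat_lit 16851923716), (nat_lit 18172467336), (nat_lit 14675654573), (nat_lit 13709044756), (nat_lit 14671149119), (nat_lit 12343285921)], (nat_lit 1271251), (nat_lit 1271251), (nat_lit 111251), (nat_lit 230000), (nat_lit 0), (nat_lit 780000), [(nat_lit 1412501), (nat_lit 1271251)], [(nat_lit 21), (nat_lit 54), (nat_lit 317), (nat_lit 100), (nat_lit 11)]⟩,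
 ⟨⟨[(nat_lit 100), (nat_lit 120)], [(nat_lit 0), (nat_lit 254)], [((nat_lit 0), (nat_lit 0), (nat_lit 0)), ((nat_lit 1000), (nat_lit 1000), (nat_lit 198))], ((nat_lit 100), (nat_lit 99), (nat_lit 28))⟩, (nat_lit 514029), (nat_lit 273), (nat_lit 273), (nat_lit 0), (nat_lit 51671), [(nat_lit 162500000), (nat_lit 207168000)], [], [(nat_lit 501441470), (nat_lit 541681095), (nat_lit 381992771), (nat_lit 420451332), (nat_lit 415448475), (nat_lit 391773100), (nat_lit 442584920), (nat_lit 310741122)], (nat_lit 1271251), (nat_lit 1271251), (nat_lit 111251), (nat_lit 490000), (nat_lit 0), (nat_lit 780000), [(nat_lit 1412501), (nat_lit 1271251)], [(nat_lit 21), (nat_lit 54), (nat_lit 345), (nat_lit 125), (nat_lit 12)]⟩⟩) (.leaf ⟨(nat_lit 0), (nat_lit 0), (nat_lit 0), (nat_lit 1000), (nat_lit 194451), (nat_lit 5648), (nat_lit 7994), (nat_lit 7994), (nat_lit 0), (nat_lit 4927007954923), (nat_lit 0), [], Pd.none, Pd.none, (nat_lit 0), (nat_lit 1), (nat_lit 0), (nat_lit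 0), (nat_lit 0), (nat_lit 0), [⟨(nat_lit 0), (nat_lit 100), (nat_lit 90), (nat_lit 59), (nat_lit 3107060604)⟩], [⟨(nat_lit 0), (nat_lit 100), (nat_lit 90), (nat_lit 59), (nat_lit 2750930113)⟩], [], [],
 ⟨⟨[(nat_lit 60), (nat_lit 80), (nat_lit 100)], [(nat_lit 0), (nat_lit 0), (nat_lit 534)], [((nat_lit 0), (nat_lit 0), (nat_lit 0)), ((nat_lit 0), (nat_lit 0), (nat_lit 0)), ((nat_lit 1000), (nat_lit 917), (nat_lit 393))], ((nat_lit 92), (nat_lit 100), (nat_lit 28))⟩, (nat_lit 27635669), (nat_lit 232), (nat_lit 232), (nat_lit 0), (nat_lit 39414), [(nat_lit 3282000619), (nat_lit 4688000140), (nat_lit 6250000000)], [], [(nat_lit 18470643149), (nat_lit 21050317250), (nat_lit 17357205430), (nat_lit 19564247561), (nat_lit 15710560479), (nat_lit 17635112183), (nat_lit 15075024519), (nat_lit 16968886359)], (nat_lit 1271251), (nat_lit 1271251), (nat_lit 111251), (nat_lit 230000), (nat_lit 111251), (nat_lit 490000), [(nat_lit 780000), (nat_lit 1100000), (nat_lit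 1442501)], [(nat_lit 9), (nat_lit 50), (nat_lit 238), (nat_lit 30), (nat_lit 9)]⟩,
 ⟨⟨[(nat_lit 100), (nat_lit 120)], [(nat_lit 0), (nat_lit 254)], [((nat_lit 0), (nat_lit 0), (nat_lit 0)), ((nat_lit 1000), (nat_lit 1000), (nat_lit 198))], ((nat_lit 100), (nat_lit 99), (nat_lit 28))⟩, (nat_lit 21346132), (nat_lit 218), (nat_lit 218), (nat_lit 0), (nat_lit 112642), [(nat_lit 6250000000), (nat_lit 7968000000)], [], [(nat_lit 36387724049), (nat_lit 32159059927), (nat_lit 32222720146), (nat_lit 28025886134), (nat_lit 45249964448), (nat_lit 41430585132), (nat_lit 45754536249), (nat_lit 41961075480)], (nat_lit 1271251), (nat_lit 1271251), (nat_lit 111251), (nat_lit 230000), (nat_lit 780000), (nat_lit 3072501), [(nat_lit 1412501), (nat_lit 1271251)], [(nat_lit 21), (nat_lit 54), (nat_lit 401), (nat_lit 175), (nat_lit 13)]⟩,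
 ⟨⟨[(nat_lit 100), (nat_lit 120)], [(nat_lit 0), (nat_lit 254)], [((nat_lit 0), (nat_lit 0), (nat_lit 0)), ((nat_lit 1000), (nat_lit 1000), (nat_lit 198))], ((nat_lit 100), (nat_lit 99), (nat_lit 28))⟩, (nat_lit 21016505), (nat_lit 218), (nat_lit 218), (nat_lit 0), (nat_lit 112642), [(nat_lit 6250000000), (nat_lit 7968000000)], [], [(nat_lit 36387724049), (nat_lit 32159059927), (nat_lit 23892712341), (nat_lit 19759562996), (nat_lit 45249964448), (nat_lit 41430585132), (nat_lit 47573211804), (nat_lit 43831588128)], (nat_lit 1271251), (nat_lit 1271251), (nat_lit 111251), (nat_lit 490000), (nat_lit 780000), (nat_lit 3072501), [(nat_lit 1412501), (nat_lit 1271251)], [(nat_lit 21), (nat_lit 54), (nat_lit 428), (nat_lit 200), (nat_lit 14)]⟩⟩))))))) (.leaf ⟨(nat_lit 1000), (nat_lit 0), (nat_lit 0), (nat_lit 0), (nat_lit 10725), (nat_lit 4988), (nat_lit 0), (nat_lit 0), (nat_lit 0), (nat_lit 8410905952041), (nat_lit 1732200), [((nat_lit 300), [((nat_lit 33),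 (nat_lit 2), (nat_lit 667)), ((nat_lit 33), (nat_lit 5), (nat_lit 333))])], ⟨(nat_lit 3), false, false, false, (nat_lit 67), (nat_lit 5000), (nat_lit 5478), [(nat_lit 1077372), (nat_lit 1092856), (nat_lit 1205514), (nat_lit 1221427), (nat_lit 1114838), (nat_lit 1128570), (nat_lit 1242980), (nat_lit 1257141)]⟩, ⟨(nat_lit 3), false, false, false, (nat_lit 118), (nat_lit 5000), (nat_lit 5478), [(nat_lit 1189771), (nat_lit 1199998), (nat_lit 1317913), (nat_lit 1328570), (nat_lit 1264704), (nat_lit 1271427), (nat_lit 1392847), (nat_lit 1399998)]⟩, (nat_lit 2331124), (nat_lit 58884581), (nat_lit 2405145), (nat_lit 5710274), (nat_lit 0), (nat_lit 0), [⟨(nat_lit 0), (nat_lit 100), (nat_lit 88), (nat_lit 68), (nat_lit 753333942)⟩], [], [], [],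
 ⟨⟨[(nat_lit 60), (nat_lit 80), (nat_lit 100)], [(nat_lit 0), (nat_lit 0), (nat_lit 534)], [((nat_lit 0), (nat_lit 0), (nat_lit 0)), ((nat_lit 0), (nat_lit 0), (nat_lit 0)), ((nat_lit 1000), (nat_lit 917), (nat_lit 393))], ((nat_lit 92), (nat_lit 100), (nat_lit 28))⟩, (nat_lit 2352), (nat_lit 202), (nat_lit 202), (nat_lit 0), (nat_lit 39414), [(nat_lit 2069292557), (nat_lit 2137279522), (nat_lit 466769200)], [(nat_lit 0), (nat_lit 0), (nat_lit 0)], [(nat_lit 13543168250), (nat_lit 15874786029), (nat_lit 12532001444), (nat_lit 14840012978), (nat_lit 13936787443), (nat_lit 16150340470), (nat_lit 12992468562), (nat_lit 15171392687)], (nat_lit 1271251), (nat_lit 1271251), (nat_lit 111251), (nat_lit 230000), (nat_lit 490000), (nat_lit 780000), [(nat_lit 780000), (nat_lit 1100000), (nat_lit 1442501)], [(nat_lit 9), (nat_lit 50), (nat_lit 249), (nat_lit 40), (nat_lit 10)]⟩,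
 Rw.none,
 Rw.none⟩)))
noncomputable def c5_1 : Tr Lf :=
 (.spl (nat_lit 4) (nat_lit 80) (.spl (nat_lit 2) (nat_lit 180) (.leaf ⟨(nat_lit 1000), (nat_lit 0), (nat_lit 0), (nat_lit 0), (nat_lit 21881), (nat_lit 3683), (nat_lit 0), (nat_lit 0), (nat_lit 0), (nat_lit 5087), (nat_lit 3751800), [((nat_lit 300), [((nat_lit 33), (nat_lit 2), (nat_lit 73)), ((nat_lit 33), (nat_lit 5), (nat_lit 927))])], ⟨(nat_lit 3), false, false, false, (nat_lit 89), (nat_lit 5000), (nat_lit 5478), [(nat_lit 1114838), (nat_lit 1128570), (nat_lit 1242980), (nat_lit 1257141), (nat_lit 1189771), (nat_lit 1199998), (nat_lit 1317913), (nat_lit 1328570)]⟩, ⟨(nat_lit 3), false, false, false, (nat_lit 62), (nat_lit 5000), (nat_lit 5478), [(nat_lit 1039905), (nat_lit 1057141), (nat_lit 1103976), (nat_lit 1121427), (nat_lit 1189771), (nat_lit 1199998), (nat_lit 1253842), (nat_lit 1264284)]⟩, (nat_lit 1775637), (nat_lit 61498215), (nat_lit 3501159), (nat_lit 2000626), (nat_lit 0), (nat_lit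 0), [⟨(nat_lit 0), (nat_lit 100), (nat_lit 88), (nat_lit 68), (nat_lit 157481458)⟩], [⟨(nat_lit 0), (nat_lit 100), (nat_lit 92), (nat_lit 22), (nat_lit 116375150)⟩], [], [],
 ⟨⟨[(nat_lit 60), (nat_lit 80), (nat_lit 100)], [(nat_lit 0), (nat_lit 0), (nat_lit 534)], [((nat_lit 0), (nat_lit 0), (nat_lit 0)), ((nat_lit 0), (nat_lit 0), (nat_lit 0)), ((nat_lit 1000), (nat_lit 917), (nat_lit 393))], ((nat_lit 92), (nat_lit 100), (nat_lit 28))⟩, (nat_lit 0), (nat_lit 231), (nat_lit 231), (nat_lit 0), (nat_lit 23422), [(nat_lit 2228064796), (nat_lit 1672003209), (nat_lit 0)], [(nat_lit 0), (nat_lit 0), (nat_lit 2789872809)], [(nat_lit 15403050445), (nat_lit 16987398880), (nat_lit 14619111785), (nat_lit 16158920913), (nat_lit 14043728465), (nat_lit 15537801230), (nat_lit 13468345145), (nat_lit 14916681547)], (nat_lit 1271251), (nat_lit 1271251), (nat_lit 230000), (nat_lit 490000), (nat_lit 0), (nat_lit 490000), [(nat_lit 780000), (nat_lit 1100000), (nat_lit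 1442501)], [(nat_lit 9), (nat_lit 50), (nat_lit 249), (nat_lit 40), (nat_lit 10)]⟩,
 Rw.none,
 Rw.none⟩) (.ord (.spl (nat_lit 2) (nat_lit 220) (.spl (nat_lit 0) (nat_lit 290) (.dle (nat_lit 0)) (.trZ (nat_lit 0) (nat_lit 2) (nat_lit 4) (nat_lit 100) (nat_lit 90) (nat_lit 36) (nat_lit 10) (.spl (nat_lit 5) (nat_lit 120) (.spl (nat_lit 1) (nat_lit 220) (.dle (nat_lit 0)) (.leaf ⟨(nat_lit 0), (nat_lit 1000), (nat_lit 0), (nat_lit 0), (nat_lit 66262), (nat_lit 4448), (nat_lit 10422), (nat_lit 0), (nat_lit 0), (nat_lit 0), (nat_lit 0), [], Pd.none, Pd.none, (nat_lit 0), (nat_lit 1), (nat_lit 0), (nat_lit 0), (nat_lit 4), (nat_lit 0), [⟨(nat_lit 0), (nat_lit 100), (nat_lit 88), (nat_lit 68), (nat_lit 858131344)⟩], [⟨(nat_lit 0), (nat_lit 100), (nat_lit 87), (nat_lit 59), (nat_lit 4870389)⟩], [], [],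
 ⟨⟨[(nat_lit 60), (nat_lit 80), (nat_lit 100)], [(nat_lit 0), (nat_lit 151), (nat_lit 679)], [((nat_lit 0), (nat_lit 0), (nat_lit 0)), ((nat_lit 1000), (nat_lit 953), (nat_lit 118)), ((nat_lit 1000), (nat_lit 894), (nat_lit 411))], ((nat_lit 91), (nat_lit 100), (nat_lit 28))⟩, (nat_lit 15570165), (nat_lit 221), (nat_lit 221), (nat_lit 0), (nat_lit 17521), [(nat_lit 3282000032), (nat_lit 4688000043), (nat_lit 6250000000)], [], [(nat_lit 17147140855), (nat_lit 18017327857), (nat_lit 16058545728), (nat_lit 16902838596), (nat_lit 15404442840), (nat_lit 16229300760), (nat_lit 14532305656), (nat_lit 15331250312)], (nat_lit 1271251), (nat_lit 1271251), (nat_lit 230000), (nat_lit 490000), (nat_lit 54688), (nat_lit 490000), [(nat_lit 780000), (nat_lit 1100000), (nat_lit 1442501)], [(nat_lit 9), (nat_lit 50), (nat_lit 249), (nat_lit 40), (nat_lit 10)]⟩,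
 ⟨⟨[(nat_lit 100), (nat_lit 120)], [(nat_lit 0), (nat_lit 254)], [((nat_lit 0), (nat_lit 0), (nat_lit 0)), ((nat_lit 1000), (nat_lit 1000), (nat_lit 198))], ((nat_lit 100), (nat_lit 99), (nat_lit 28))⟩, (nat_lit 19298457), (nat_lit 261), (nat_lit 261), (nat_lit 0), (nat_lit 22992), [(nat_lit 6250000000), (nat_lit 7968000000)], [], [(nat_lit 17301745199), (nat_lit 18657535720), (nat_lit 13922923834), (nat_lit 15329694456), (nat_lit 15062737462), (nat_lit 12672726842), (nat_lit 16081554747), (nat_lit 10693021188)], (nat_lit 1271251), (nat_lit 1271251), (nat_lit 230000), (nat_lit 490000), (nat_lit 0), (nat_lit 780000), [(nat_lit 1412501), (nat_lit 1271251)], [(nat_lit 21), (nat_lit 54), (nat_lit 345), (nat_lit 125), (nat_lit 12)]⟩,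
 Rw.none⟩)) (.leaf ⟨(nat_lit 0), (nat_lit 0), (nat_lit 0), (nat_lit 1000), (nat_lit 211115), (nat_lit 4448), (nat_lit 14406), (nat_lit 2656), (nat_lit 0), (nat_lit 543355), (nat_lit 0), [], Pd.none, Pd.none, (nat_lit 0), (nat_lit 1), (nat_lit 0), (nat_lit 0), (nat_lit 0), (nat_lit 0), [], [⟨(nat_lit 0), (nat_lit 100), (nat_lit 87), (nat_lit 59), (nat_lit 707253461)⟩], [], [],
 ⟨⟨[(nat_lit 60), (nat_lit 80), (nat_lit 100)], [(nat_lit 0), (nat_lit 151), (nat_lit 679)], [((nat_lit 0), (nat_lit 0), (nat_lit 0)), ((nat_lit 1000), (nat_lit 953), (nat_lit 118)), ((nat_lit 1000), (nat_lit 894), (nat_lit 411))], ((nat_lit 91), (nat_lit 100), (nat_lit 28))⟩, (nat_lit 52141439), (nat_lit 221), (nat_lit 221), (nat_lit 0), (nat_lit 17521), [(nat_lit 3282000050), (nat_lit 5884816663), (nat_lit 6250000000)], [], [(nat_lit 17090098354), (nat_lit 18017327857), (nat_lit 15975990507), (nat_lit 16876015111), (nat_lit 15314667502), (nat_lit 16194055792), (nat_lit 14432903496),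 (nat_lit 15284776700)], (nat_lit 1271251), (nat_lit 1271251), (nat_lit 230000), (nat_lit 490000), (nat_lit 54688), (nat_lit 490000), [(nat_lit 780000), (nat_lit 1100000), (nat_lit 1442501)], [(nat_lit 9), (nat_lit 50), (nat_lit 249), (nat_lit 40), (nat_lit 10)]⟩,
 ⟨⟨[(nat_lit 120), (nat_lit 140)], [(nat_lit 0), (nat_lit 266)], [((nat_lit 0), (nat_lit 0), (nat_lit 0)), ((nat_lit 960), (nat_lit 1000), (nat_lit 200))], ((nat_lit 100), (nat_lit 93), (nat_lit 28))⟩, (nat_lit 28088032), (nat_lit 224), (nat_lit 224), (nat_lit 0), (nat_lit 65140), [(nat_lit 7968000000), (nat_lit 9842000000)], [], [(nat_lit 32318595537), (nat_lit 15402801608), (nat_lit 33552096929), (nat_lit 11855256344), (nat_lit 74992756188), (nat_lit 55029411192), (nat_lit 77617761932), (nat_lit 57919429712)], (nat_lit 1271251), (nat_lit 1271251), (nat_lit 230000), (nat_lit 490000), (nat_lit 780000), (nat_lit 3072501), [(nat_lit 1695001), (nat_lit 1271251)], [(nat_lit 26), (nat_lit 58),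 (nat_lit 428), (nat_lit 200), (nat_lit 13)]⟩,
 ⟨⟨[(nat_lit 120), (nat_lit 140)], [(nat_lit 0), (nat_lit 266)], [((nat_lit 0), (nat_lit 0), (nat_lit 0)), ((nat_lit 960), (nat_lit 1000), (nat_lit 200))], ((nat_lit 100), (nat_lit 93), (nat_lit 28))⟩, (nat_lit 18132453), (nat_lit 249), (nat_lit 249), (nat_lit 0), (nat_lit 68174), [(nat_lit 7968000000), (nat_lit 9842000000)], [], [(nat_lit 35374229680), (nat_lit 32637703744), (nat_lit 36968744304), (nat_lit 34301947664), (nat_lit 50528904192), (nat_lit 48050744640), (nat_lit 52572378432), (nat_lit 50151221952)], (nat_lit 1271251), (nat_lit 1271251), (nat_lit 54688), (nat_lit 490000), (nat_lit 780000), (nat_lit 3072501), [(nat_lit 1695001), (nat_lit 1271251)], [(nat_lit 26), (nat_lit 58), (nat_lit 401), (nat_lit 175), (nat_lit 12)]⟩⟩)))) (.ord (.trZ (nat_lit 0) (nat_lit 2) (nat_lit 4) (nat_lit 100) (nat_lit 92) (nat_lit 49) (nat_lit 20) (.spl (nat_lit 5) (nat_lit 120) (.leaf ⟨(nat_lit 0), (nat_lit 523),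 (nat_lit 477), (nat_lit 0), (nat_lit 30377), (nat_lit 5648), (nat_lit 5685), (nat_lit 5674), (nat_lit 0), (nat_lit 125977864618), (nat_lit 0), [], Pd.none, Pd.none, (nat_lit 0), (nat_lit 1), (nat_lit 0), (nat_lit 0), (nat_lit 5), (nat_lit 5), [⟨(nat_lit 0), (nat_lit 100), (nat_lit 88), (nat_lit 68), (nat_lit 517985763)⟩], [⟨(nat_lit 0), (nat_lit 100), (nat_lit 88), (nat_lit 68), (nat_lit 880655567)⟩], [], [],
 ⟨⟨[(nat_lit 60), (nat_lit 80), (nat_lit 100)], [(nat_lit 0), (nat_lit 0), (nat_lit 534)], [((nat_lit 0), (nat_lit 0), (nat_lit 0)), ((nat_lit 0), (nat_lit 0), (nat_lit 0)), ((nat_lit 1000), (nat_lit 917), (nat_lit 393))], ((nat_lit 92), (nat_lit 100), (nat_lit 28))⟩, (nat_lit 5999154), (nat_lit 222), (nat_lit 222), (nat_lit 0), (nat_lit 39414), [(nat_lit 3282000020), (nat_lit 4688000013), (nat_lit 6250000000)], [], [(nat_lit 17529635134), (nat_lit 19564247561), (nat_lit 15805745596), (nat_lit 17635111457), (nat_lit 15157869392), (nat_lit 16968885633),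 (nat_lit 13862116984), (nat_lit 15636433985)], (nat_lit 1271251), (nat_lit 1271251), (nat_lit 230000), (nat_lit 490000), (nat_lit 111251), (nat_lit 490000), [(nat_lit 780000), (nat_lit 1100000), (nat_lit 1442501)], [(nat_lit 9), (nat_lit 50), (nat_lit 249), (nat_lit 40), (nat_lit 10)]⟩,
 ⟨⟨[(nat_lit 100), (nat_lit 120)], [(nat_lit 0), (nat_lit 254)], [((nat_lit 0), (nat_lit 0), (nat_lit 0)), ((nat_lit 1000), (nat_lit 1000), (nat_lit 198))], ((nat_lit 100), (nat_lit 99), (nat_lit 28))⟩, (nat_lit 8306236), (nat_lit 263), (nat_lit 263), (nat_lit 0), (nat_lit 51671), [(nat_lit 3268750000), (nat_lit 4167264000)], [], [(nat_lit 9298757457), (nat_lit 10024771190), (nat_lit 7440292610), (nat_lit 8152781924), (nat_lit 7519417081), (nat_lit 6505006577), (nat_lit 8051782319), (nat_lit 5112441186)], (nat_lit 1271251), (nat_lit 1271251), (nat_lit 230000), (nat_lit 490000), (nat_lit 0), (nat_lit 780000), [(nat_lit 1412501), (nat_lit 1271251)], [(nat_lit 21), (nat_lit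 54), (nat_lit 345), (nat_lit 125), (nat_lit 12)]⟩,
 ⟨⟨[(nat_lit 100), (nat_lit 120)], [(nat_lit 0), (nat_lit 254)], [((nat_lit 0), (nat_lit 0), (nat_lit 0)), ((nat_lit 1000), (nat_lit 1000), (nat_lit 198))], ((nat_lit 100), (nat_lit 99), (nat_lit 28))⟩, (nat_lit 3813770), (nat_lit 273), (nat_lit 273), (nat_lit 0), (nat_lit 51671), [(nat_lit 2981250000), (nat_lit 3800736000)], [], [(nat_lit 10487094851), (nat_lit 11397149521), (nat_lit 7125146630), (nat_lit 7809142236), (nat_lit 6276212762), (nat_lit 6901372106), (nat_lit 6594558753), (nat_lit 4473045972)], (nat_lit 1271251), (nat_lit 1271251), (nat_lit 111251), (nat_lit 490000), (nat_lit 0), (nat_lit 780000), [(nat_lit 1412501), (nat_lit 1271251)], [(nat_lit 21), (nat_lit 54), (nat_lit 345), (nat_lit 125), (nat_lit 12)]⟩⟩) (.leaf ⟨(nat_lit 0), (nat_lit 0), (nat_lit 0), (nat_lit 1000), (nat_lit 164261), (nat_lit 5648), (nat_lit 7449), (nat_lit 7449), (nat_lit 0), (nat_lit 1344645), (nat_lit 0), [],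 Pd.none, Pd.none, (nat_lit 0), (nat_lit 1), (nat_lit 0), (nat_lit 0), (nat_lit 0), (nat_lit 0), [⟨(nat_lit 0), (nat_lit 100), (nat_lit 90), (nat_lit 59), (nat_lit 1921177308)⟩], [⟨(nat_lit 0), (nat_lit 100), (nat_lit 90), (nat_lit 59), (nat_lit 2672071086)⟩], [], [],
 ⟨⟨[(nat_lit 60), (nat_lit 80), (nat_lit 100)], [(nat_lit 0), (nat_lit 0), (nat_lit 534)], [((nat_lit 0), (nat_lit 0), (nat_lit 0)), ((nat_lit 0), (nat_lit 0), (nat_lit 0)), ((nat_lit 1000), (nat_lit 917), (nat_lit 393))], ((nat_lit 92), (nat_lit 100), (nat_lit 28))⟩, (nat_lit 19739616), (nat_lit 222), (nat_lit 222), (nat_lit 0), (nat_lit 39414), [(nat_lit 3282000061), (nat_lit 4688000021), (nat_lit 6250000000)], [], [(nat_lit 17357205311), (nat_lit 19564247561), (nat_lit 15710559802), (nat_lit 17635111506), (nat_lit 15075023842), (nat_lit 16968885682), (nat_lit 13803951922), (nat_lit 15636434034)], (nat_lit 1271251), (nat_lit 1271251), (nat_lit 230000), (nat_lit 490000), (nat_lit 111251),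 (nat_lit 490000), [(nat_lit 780000), (nat_lit 1100000), (nat_lit 1442501)], [(nat_lit 9), (nat_lit 50), (nat_lit 249), (nat_lit 40), (nat_lit 10)]⟩,
 ⟨⟨[(nat_lit 100), (nat_lit 120)], [(nat_lit 0), (nat_lit 254)], [((nat_lit 0), (nat_lit 0), (nat_lit 0)), ((nat_lit 1000), (nat_lit 1000), (nat_lit 198))], ((nat_lit 100), (nat_lit 99), (nat_lit 28))⟩, (nat_lit 21081578), (nat_lit 208), (nat_lit 208), (nat_lit 0), (nat_lit 112642), [(nat_lit 6250000000), (nat_lit 7968000000)], [], [(nat_lit 32241626741), (nat_lit 28330916639), (nat_lit 24479526649), (nat_lit 21304728466), (nat_lit 45374148867), (nat_lit 41839311580), (nat_lit 47139737334), (nat_lit 43653203088)], (nat_lit 1271251), (nat_lit 1271251), (nat_lit 230000), (nat_lit 490000), (nat_lit 780000), (nat_lit 3072501), [(nat_lit 1412501), (nat_lit 1271251)], [(nat_lit 21), (nat_lit 54), (nat_lit 428), (nat_lit 200), (nat_lit 14)]⟩,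
 ⟨⟨[(nat_lit 100), (nat_lit 120)], [(nat_lit 0), (nat_lit 254)], [((nat_lit 0), (nat_lit 0), (nat_lit 0)), ((nat_lit 1000), (nat_lit 1000), (nat_lit 198))], ((nat_lit 100), (nat_lit 99), (nat_lit 28))⟩, (nat_lit 26966919), (nat_lit 218), (nat_lit 218), (nat_lit 0), (nat_lit 112642), [(nat_lit 6250000000), (nat_lit 7968000000)], [], [(nat_lit 36122676788), (nat_lit 32182306630), (nat_lit 24479526649), (nat_lit 21304728466), (nat_lit 44871593429), (nat_lit 41312604622), (nat_lit 47139737334), (nat_lit 43653203088)], (nat_lit 1271251), (nat_lit 1271251), (nat_lit 111251), (nat_lit 490000), (nat_lit 780000), (nat_lit 3072501), [(nat_lit 1412501), (nat_lit 1271251)], [(nat_lit 21), (nat_lit 54), (nat_lit 428), (nat_lit 200), (nat_lit 14)]⟩⟩))))))) (.leaf ⟨(nat_lit 1000), (nat_lit 0), (nat_lit 0), (nat_lit 0), (nat_lit 2927), (nat_lit 3953), (nat_lit 0), (nat_lit 0), (nat_lit 0), (nat_lit 2376384028706), (nat_lit 400000), [((nat_lit 300), [((nat_lit 12),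 (nat_lit 1), (nat_lit 1000))])], ⟨(nat_lit 3), false, false, false, (nat_lit 89), (nat_lit 5000), (nat_lit 5478), [(nat_lit 1114838), (nat_lit 1128570), (nat_lit 1242980), (nat_lit 1257141), (nat_lit 1189771), (nat_lit 1199998), (nat_lit 1317913), (nat_lit 1328570)]⟩, ⟨(nat_lit 3), false, false, false, (nat_lit 118), (nat_lit 5000), (nat_lit 5478), [(nat_lit 1189771), (nat_lit 1199998), (nat_lit 1317913), (nat_lit 1328570), (nat_lit 1264704), (nat_lit 1271427), (nat_lit 1392847), (nat_lit 1399998)]⟩, (nat_lit 2678498), (nat_lit 57436046), (nat_lit 3758444), (nat_lit 5805510), (nat_lit 0), (nat_lit 0), [⟨(nat_lit 0), (nat_lit 100), (nat_lit 88), (nat_lit 68), (nat_lit 192068492)⟩], [], [], [],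
 ⟨⟨[(nat_lit 60), (nat_lit 80), (nat_lit 100)], [(nat_lit 0), (nat_lit 0), (nat_lit 534)], [((nat_lit 0), (nat_lit 0), (nat_lit 0)), ((nat_lit 0), (nat_lit 0), (nat_lit 0)), ((nat_lit 1000), (nat_lit 917), (nat_lit 393))], ((nat_lit 92), (nat_lit 100), (nat_lit 28))⟩, (nat_lit 0), (nat_lit 192), (nat_lit 192), (nat_lit 0), (nat_lit 39414), [(nat_lit 2033400171), (nat_lit 90288438943), (nat_lit 2628400000)], [(nat_lit 0), (nat_lit 0), (nat_lit 0)], [(nat_lit 11984007239), (nat_lit 13997995456), (nat_lit 10876465343), (nat_lit 12662747027), (nat_lit 12592072103), (nat_lit 14476708191), (nat_lit 11653488747), (nat_lit 13345075313)], (nat_lit 1271251), (nat_lit 1271251), (nat_lit 230000), (nat_lit 490000), (nat_lit 490000), (nat_lit 780000), [(nat_lit 780000), (nat_lit 1100000), (nat_lit 1442501)], [(nat_lit 9), (nat_lit 50), (nat_lit 260), (nat_lit 50), (nat_lit 10)]⟩,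
 Rw.none,
 Rw.none⟩))
noncomputable def c5_2 : Tr Lf :=
 (.spl (nat_lit 4) (nat_lit 80) (.spl (nat_lit 2) (nat_lit 180) (.leaf ⟨(nat_lit 1000), (nat_lit 0), (nat_lit 0), (nat_lit 0), (nat_lit 20135), (nat_lit 4245), (nat_lit 0), (nat_lit 0), (nat_lit 0), (nat_lit 440654), (nat_lit 3442400), [((nat_lit 300), [((nat_lit 33), (nat_lit 2), (nat_lit 164)), ((nat_lit 33), (nat_lit 5), (nat_lit 836))])], ⟨(nat_lit 3), false, false, false, (nat_lit 118), (nat_lit 5000), (nat_lit 5478), [(nat_lit 1189771), (nat_lit 1199998), (nat_lit 1317913), (nat_lit 1328570), (nat_lit 1264704), (nat_lit 1271427), (nat_lit 1392847), (nat_lit 1399998)]⟩, ⟨(nat_lit 3), false, false, false, (nat_lit 62), (nat_lit 5000), (nat_lit 5478), [(nat_lit 1039905), (nat_lit 1057141), (nat_lit 1103976), (nat_lit 1121427), (nat_lit 1189771), (nat_lit 1199998), (nat_lit 1253842), (nat_lit 1264284)]⟩, (nat_lit 2243236), (nat_lit 59216009), (nat_lit 5682215), (nat_lit 2101776), (nat_lit 0),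 (nat_lit 0), [], [⟨(nat_lit 0), (nat_lit 100), (nat_lit 92), (nat_lit 22), (nat_lit 144715279)⟩], [], [],
 ⟨⟨[(nat_lit 60), (nat_lit 80), (nat_lit 100)], [(nat_lit 0), (nat_lit 0), (nat_lit 534)], [((nat_lit 0), (nat_lit 0), (nat_lit 0)), ((nat_lit 0), (nat_lit 0), (nat_lit 0)), ((nat_lit 1000), (nat_lit 917), (nat_lit 393))], ((nat_lit 92), (nat_lit 100), (nat_lit 28))⟩, (nat_lit 0), (nat_lit 211), (nat_lit 211), (nat_lit 0), (nat_lit 23422), [(nat_lit 2257495787), (nat_lit 1689528709), (nat_lit 0)], [(nat_lit 0), (nat_lit 0), (nat_lit 2237301509)], [(nat_lit 13995973196), (nat_lit 15898960200), (nat_lit 14690402971), (nat_lit 16259624184), (nat_lit 12447265596), (nat_lit 14005469626), (nat_lit 13173609651), (nat_lit 14647363224)], (nat_lit 1271251), (nat_lit 1271251), (nat_lit 490000), (nat_lit 780000), (nat_lit 0), (nat_lit 490000), [(nat_lit 780000), (nat_lit 1100000), (nat_lit 1442501)], [(nat_lit 9), (nat_lit 50), (nat_lit 260), (nat_lit 50),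 (nat_lit 10)]⟩,
 Rw.none,
 Rw.none⟩) (.ord (.leaf ⟨(nat_lit 898), (nat_lit 64), (nat_lit 0), (nat_lit 38), (nat_lit 9301), (nat_lit 5158), (nat_lit 1586), (nat_lit 210), (nat_lit 0), (nat_lit 55429), (nat_lit 1645000), [((nat_lit 300), [((nat_lit 12), (nat_lit 2), (nat_lit 649)), ((nat_lit 33), (nat_lit 5), (nat_lit 249))])], ⟨(nat_lit 4), false, false, false, (nat_lit 131), (nat_lit 5000), (nat_lit 5478), [(nat_lit 1253842), (nat_lit 1264284), (nat_lit 1317913), (nat_lit 1328570), (nat_lit 1328775), (nat_lit 1335713), (nat_lit 1392847), (nat_lit 1399998)]⟩, ⟨(nat_lit 4), false, false, false, (nat_lit 87), (nat_lit 5000), (nat_lit 5478), [(nat_lit 1103976), (nat_lit 1121427), (nat_lit 1168047), (nat_lit 1185713), (nat_lit 1253842), (nat_lit 1264284), (nat_lit 1317913), (nat_lit 1328570)]⟩, (nat_lit 2840701), (nat_lit 56477191), (nat_lit 6853348), (nat_lit 3669461), (nat_lit 4), (nat_lit 0), [], [⟨(nat_lit 0), (nat_lit 100), (nat_lit 88), (nat_lit 68),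 (nat_lit 408999948)⟩], [], [],
 ⟨⟨[(nat_lit 60), (nat_lit 80), (nat_lit 100)], [(nat_lit 0), (nat_lit 0), (nat_lit 534)], [((nat_lit 0), (nat_lit 0), (nat_lit 0)), ((nat_lit 0), (nat_lit 0), (nat_lit 0)), ((nat_lit 1000), (nat_lit 917), (nat_lit 393))], ((nat_lit 92), (nat_lit 100), (nat_lit 28))⟩, (nat_lit 0), (nat_lit 212), (nat_lit 212), (nat_lit 0), (nat_lit 39414), [(nat_lit 2155481612), (nat_lit 2419417201), (nat_lit 900770800)], [(nat_lit 0), (nat_lit 0), (nat_lit 0)], [(nat_lit 14736220096), (nat_lit 17140786280), (nat_lit 15048785584), (nat_lit 17332583432), (nat_lit 11473804112), (nat_lit 13153511120), (nat_lit 12049865704), (nat_lit 13649028874)], (nat_lit 1271251), (nat_lit 1271251), (nat_lit 490000), (nat_lit 780000), (nat_lit 0), (nat_lit 490000), [(nat_lit 780000), (nat_lit 1100000), (nat_lit 1442501)], [(nat_lit 9), (nat_lit 50), (nat_lit 260), (nat_lit 50), (nat_lit 10)]⟩,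
 ⟨⟨[(nat_lit 120), (nat_lit 140)], [(nat_lit 0), (nat_lit 266)], [((nat_lit 0), (nat_lit 0), (nat_lit 0)), ((nat_lit 960), (nat_lit 1000), (nat_lit 200))], ((nat_lit 100), (nat_lit 93), (nat_lit 28))⟩, (nat_lit 0), (nat_lit 269), (nat_lit 269), (nat_lit 0), (nat_lit 121060), [(nat_lit 812736000), (nat_lit 1003884000)], [], [(nat_lit 5250108948), (nat_lit 2753310384), (nat_lit 3597826043), (nat_lit 2562893976), (nat_lit 6494401604), (nat_lit 4325752784), (nat_lit 7015928005), (nat_lit 4874916028)], (nat_lit 1271251), (nat_lit 1271251), (nat_lit 490000), (nat_lit 780000), (nat_lit 0), (nat_lit 2825001), [(nat_lit 1695001), (nat_lit 1271251)], [(nat_lit 26), (nat_lit 58), (nat_lit 428), (nat_lit 200), (nat_lit 13)]⟩,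
 ⟨⟨[(nat_lit 120), (nat_lit 140)], [(nat_lit 0), (nat_lit 266)], [((nat_lit 0), (nat_lit 0), (nat_lit 0)), ((nat_lit 960), (nat_lit 1000), (nat_lit 200))], ((nat_lit 100), (nat_lit 93), (nat_lit 28))⟩, (nat_lit 83691), (nat_lit 300), (nat_lit 350), (nat_lit 2523200), (nat_lit 121060), [(nat_lit 302784000), (nat_lit 373996000)], [], [(nat_lit 2026521630), (nat_lit 1685587680), (nat_lit 1575388500), (nat_lit 1564417354), (nat_lit 1889229668), (nat_lit 1845751053), (nat_lit 1984719748), (nat_lit 1734644282)], (nat_lit 1271251), (nat_lit 1271251), (nat_lit 0), (nat_lit 490000), (nat_lit 0), (nat_lit 2825001), [(nat_lit 1695001), (nat_lit 1271251)], [(nat_lit 26), (nat_lit 58), (nat_lit 428), (nat_lit 200), (nat_lit 13)]⟩⟩))) (.leaf ⟨(nat_lit 1000), (nat_lit 0), (nat_lit 0), (nat_lit 0), (nat_lit 0), (nat_lit 4537), (nat_lit 0), (nat_lit 0), (nat_lit 0), (nat_lit 1089669186497), (nat_lit 329950), [((nat_lit 300), [((nat_lit 12), (nat_lit 0), (nat_lit 467)),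 ((nat_lit 12), (nat_lit 1), (nat_lit 533))])], ⟨(nat_lit 3), false, false, false, (nat_lit 118), (nat_lit 5000), (nat_lit 5478), [(nat_lit 1189771), (nat_lit 1199998), (nat_lit 1317913), (nat_lit 1328570), (nat_lit 1264704), (nat_lit 1271427), (nat_lit 1392847), (nat_lit 1399998)]⟩, ⟨(nat_lit 3), false, false, false, (nat_lit 118), (nat_lit 5000), (nat_lit 5478), [(nat_lit 1189771), (nat_lit 1199998), (nat_lit 1317913), (nat_lit 1328570), (nat_lit 1264704), (nat_lit 1271427), (nat_lit 1392847), (nat_lit 1399998)]⟩, (nat_lit 3120226), (nat_lit 55236918), (nat_lit 5881541), (nat_lit 5881541), (nat_lit 0), (nat_lit 0), [], [], [], [],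
 ⟨⟨[(nat_lit 60), (nat_lit 80), (nat_lit 100)], [(nat_lit 0), (nat_lit 0), (nat_lit 534)], [((nat_lit 0), (nat_lit 0), (nat_lit 0)), ((nat_lit 0), (nat_lit 0), (nat_lit 0)), ((nat_lit 1000), (nat_lit 917), (nat_lit 393))], ((nat_lit 92), (nat_lit 100), (nat_lit 28))⟩, (nat_lit 0), (nat_lit 172), (nat_lit 172), (nat_lit 0), (nat_lit 39414), [(nat_lit 2068766403), (nat_lit 90222248249), (nat_lit 2743655600)], [(nat_lit 0), (nat_lit 0), (nat_lit 0)], [(nat_lit 10514622518), (nat_lit 12650082799), (nat_lit 11122821875), (nat_lit 13147411416), (nat_lit 11122821875), (nat_lit 13147411416), (nat_lit 11737520023), (nat_lit 13645669623)], (nat_lit 1271251), (nat_lit 1271251), (nat_lit 490000), (nat_lit 780000), (nat_lit 490000), (nat_lit 780000), [(nat_lit 780000), (nat_lit 1100000), (nat_lit 1442501)], [(nat_lit 9), (nat_lit 50), (nat_lit 272), (nat_lit 60), (nat_lit 10)]⟩,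
 Rw.none,
 Rw.none⟩))
noncomputable def c5_3 : Tr Lf :=
 (.spl (nat_lit 2) (nat_lit 180) (.leaf ⟨(nat_lit 1000), (nat_lit 0), (nat_lit 0), (nat_lit 0), (nat_lit 13798), (nat_lit 4324), (nat_lit 0), (nat_lit 0), (nat_lit 0), (nat_lit 397515), (nat_lit 2327200), [((nat_lit 300), [((nat_lit 33), (nat_lit 2), (nat_lit 492)), ((nat_lit 33), (nat_lit 5), (nat_lit 508))])], ⟨(nat_lit 3), false, false, false, (nat_lit 162), (nat_lit 5000), (nat_lit 5478), [(nat_lit 1264704), (nat_lit 1271427), (nat_lit 1392847), (nat_lit 1399998), (nat_lit 1414570), (nat_lit 1414284), (nat_lit 1542694), (nat_lit 1542837)]⟩, ⟨(nat_lit 3), false, false, false, (nat_lit 76), (nat_lit 5000), (nat_lit 5478), [(nat_lit 1039905), (nat_lit 1057141), (nat_lit 1103976), (nat_lit 1121427), (nat_lit 1264704), (nat_lit 1271427), (nat_lit 1328775), (nat_lit 1335713)]⟩, (nat_lit 3097618), (nat_lit 54376569), (nat_lit 9613041), (nat_lit 3010390), (nat_lit 0), (nat_lit 0), [], [⟨(nat_lit 0),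 (nat_lit 100), (nat_lit 92), (nat_lit 22), (nat_lit 101238761)⟩], [], [],
 ⟨⟨[(nat_lit 60), (nat_lit 80), (nat_lit 100)], [(nat_lit 0), (nat_lit 0), (nat_lit 534)], [((nat_lit 0), (nat_lit 0), (nat_lit 0)), ((nat_lit 0), (nat_lit 0), (nat_lit 0)), ((nat_lit 1000), (nat_lit 917), (nat_lit 393))], ((nat_lit 92), (nat_lit 100), (nat_lit 28))⟩, (nat_lit 0), (nat_lit 193), (nat_lit 193), (nat_lit 0), (nat_lit 46520), [(nat_lit 2233563374), (nat_lit 1882709034), (nat_lit 0)], [(nat_lit 0), (nat_lit 0), (nat_lit 375627434)], [(nat_lit 14759609628), (nat_lit 16344313458), (nat_lit 17097942512), (nat_lit 18479712988), (nat_lit 13865670934), (nat_lit 15273090647), (nat_lit 16038459488), (nat_lit 17268182152)], (nat_lit 1271251), (nat_lit 1271251), (nat_lit 780000), (nat_lit 1435001), (nat_lit 0), (nat_lit 780000), [(nat_lit 780000), (nat_lit 1100000), (nat_lit 1442501)], [(nat_lit 9), (nat_lit 50), (nat_lit 317), (nat_lit 100), (nat_lit 12)]⟩,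
 Rw.none,
 Rw.none⟩) (.ord (.spl (nat_lit 1) (nat_lit 220) (.ord (.dle (nat_lit 0))) (.leaf ⟨(nat_lit 394), (nat_lit 452), (nat_lit 0), (nat_lit 154), (nat_lit 22357), (nat_lit 5513), (nat_lit 2308), (nat_lit 712), (nat_lit 0), (nat_lit 3413829360807), (nat_lit 1576000), [((nat_lit 300), [((nat_lit 33), (nat_lit 5), (nat_lit 394))])], ⟨(nat_lit 5), false, false, false, (nat_lit 184), (nat_lit 5000), (nat_lit 5478), [(nat_lit 1371489), (nat_lit 1378570), (nat_lit 1392847), (nat_lit 1399998), (nat_lit 1521346), (nat_lit 1521418), (nat_lit 1542694), (nat_lit 1542837)]⟩, ⟨(nat_lit 4), false, false, false, (nat_lit 102), (nat_lit 5000), (nat_lit 5478), [(nat_lit 1103976), (nat_lit 1121427), (nat_lit 1168047), (nat_lit 1185713), (nat_lit 1328775), (nat_lit 1335713), (nat_lit 1392847), (nat_lit 1399998)]⟩, (nat_lit 3717670), (nat_lit 50732841), (nat_lit 11610112), (nat_lit 4657047), (nat_lit 4), (nat_lit 0), [], [⟨(nat_lit 0), (nat_lit 100), (nat_lit 88),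 (nat_lit 68), (nat_lit 194855394)⟩], [], [],
 ⟨⟨[(nat_lit 60), (nat_lit 80), (nat_lit 100)], [(nat_lit 0), (nat_lit 0), (nat_lit 534)], [((nat_lit 0), (nat_lit 0), (nat_lit 0)), ((nat_lit 0), (nat_lit 0), (nat_lit 0)), ((nat_lit 1000), (nat_lit 917), (nat_lit 393))], ((nat_lit 92), (nat_lit 100), (nat_lit 28))⟩, (nat_lit 746428), (nat_lit 195), (nat_lit 195), (nat_lit 0), (nat_lit 78326), [(nat_lit 2830791230), (nat_lit 3497180399), (nat_lit 2524020800)], [(nat_lit 0), (nat_lit 0), (nat_lit 0)], [(nat_lit 15884699846), (nat_lit 17757625999), (nat_lit 18069498426), (nat_lit 19851299966), (nat_lit 13786413918), (nat_lit 15271085591), (nat_lit 15867604839), (nat_lit 17259817432)], (nat_lit 1271251), (nat_lit 1271251), (nat_lit 780000), (nat_lit 1435001), (nat_lit 0), (nat_lit 780000), [(nat_lit 780000), (nat_lit 1100000), (nat_lit 1442501)], [(nat_lit 9), (nat_lit 50), (nat_lit 317), (nat_lit 100), (nat_lit 12)]⟩,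
 ⟨⟨[(nat_lit 100), (nat_lit 120)], [(nat_lit 0), (nat_lit 254)], [((nat_lit 0), (nat_lit 0), (nat_lit 0)), ((nat_lit 1000), (nat_lit 1000), (nat_lit 198))], ((nat_lit 100), (nat_lit 99), (nat_lit 28))⟩, (nat_lit 5603483), (nat_lit 234), (nat_lit 234), (nat_lit 0), (nat_lit 188855), [(nat_lit 3787500000), (nat_lit 4828608000)], [], [(nat_lit 22019968422), (nat_lit 20789893280), (nat_lit 21158005666), (nat_lit 21472171416), (nat_lit 25189329368), (nat_lit 24751941242), (nat_lit 28642233142), (nat_lit 27603675840)], (nat_lit 1271251), (nat_lit 1271251), (nat_lit 780000), (nat_lit 1435001), (nat_lit 0), (nat_lit 2825001), [(nat_lit 1412501), (nat_lit 1271251)], [(nat_lit 21), (nat_lit 54), (nat_lit 456), (nat_lit 225), (nat_lit 15)]⟩,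
 ⟨⟨[(nat_lit 120), (nat_lit 140)], [(nat_lit 0), (nat_lit 266)], [((nat_lit 0), (nat_lit 0), (nat_lit 0)), ((nat_lit 960), (nat_lit 1000), (nat_lit 200))], ((nat_lit 100), (nat_lit 93), (nat_lit 28))⟩, (nat_lit 514780), (nat_lit 300), (nat_lit 350), (nat_lit 10225600), (nat_lit 121060), [(nat_lit 1227072000), (nat_lit 1515668000)], [], [(nat_lit 7775092552), (nat_lit 6855468137), (nat_lit 6332446668), (nat_lit 6558164208), (nat_lit 7568512526), (nat_lit 7648723806), (nat_lit 8244256980), (nat_lit 7283096496)], (nat_lit 1271251), (nat_lit 1271251), (nat_lit 0), (nat_lit 780000), (nat_lit 0), (nat_lit 2825001), [(nat_lit 1695001), (nat_lit 1271251)], [(nat_lit 26), (nat_lit 58), (nat_lit 428), (nat_lit 200), (nat_lit 13)]⟩⟩))))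
noncomputable def c5_4 : Tr Lf :=
 (.spl (nat_lit 2) (nat_lit 180) (.leaf ⟨(nat_lit 1000), (nat_lit 0), (nat_lit 0), (nat_lit 0), (nat_lit 22672), (nat_lit 4218), (nat_lit 0), (nat_lit 0), (nat_lit 0), (nat_lit 920), (nat_lit 3887800), [((nat_lit 300), [((nat_lit 33), (nat_lit 2), (nat_lit 33)), ((nat_lit 33), (nat_lit 5), (nat_lit 967))])], ⟨(nat_lit 3), false, false, false, (nat_lit 118), (nat_lit 5000), (nat_lit 5478), [(nat_lit 1039905), (nat_lit 1057141), (nat_lit 1168047), (nat_lit 1185713), (nat_lit 1414570), (nat_lit 1414284), (nat_lit 1542694), (nat_lit 1542837)]⟩, ⟨(nat_lit 3), false, false, true, (nat_lit 149), (nat_lit 5000), (nat_lit 5478), [(nat_lit 1264704), (nat_lit 1271427), (nat_lit 1328775), (nat_lit 1335713), (nat_lit 1414570), (nat_lit 1414284), (nat_lit 1478641), (nat_lit 1478570)]⟩, (nat_lit 3542084), (nat_lit 52657544), (nat_lit 5891911), (nat_lit 8450545), (nat_lit 0), (nat_lit 0), [⟨(nat_lit 0), (nat_lit 100), (nat_lit 88),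 (nat_lit 68), (nat_lit 47434676)⟩], [], [], [],
 ⟨⟨[(nat_lit 60), (nat_lit 80), (nat_lit 100)], [(nat_lit 0), (nat_lit 0), (nat_lit 534)], [((nat_lit 0), (nat_lit 0), (nat_lit 0)), ((nat_lit 0), (nat_lit 0), (nat_lit 0)), ((nat_lit 1000), (nat_lit 917), (nat_lit 393))], ((nat_lit 92), (nat_lit 100), (nat_lit 28))⟩, (nat_lit 0), (nat_lit 194), (nat_lit 194), (nat_lit 0), (nat_lit 58763), [(nat_lit 2182965132), (nat_lit 1696462870), (nat_lit 0)], [(nat_lit 0), (nat_lit 0), (nat_lit 3025049200)], [(nat_lit 14656997792), (nat_lit 16220927477), (nat_lit 16014021062), (nat_lit 17229257660), (nat_lit 16991229430), (nat_lit 18357022776), (nat_lit 17857807099), (nat_lit 18923530755)], (nat_lit 1271251), (nat_lit 1271251), (nat_lit 0), (nat_lit 1412501), (nat_lit 780000), (nat_lit 1435001), [(nat_lit 780000), (nat_lit 1100000), (nat_lit 1442501)], [(nat_lit 9), (nat_lit 50), (nat_lit 317), (nat_lit 100), (nat_lit 12)]⟩,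
 Rw.none,
 Rw.none⟩) (.ord (.spl (nat_lit 5) (nat_lit 120) (.leaf ⟨(nat_lit 434), (nat_lit 0), (nat_lit 518), (nat_lit 48), (nat_lit 28522), (nat_lit 5250), (nat_lit 544), (nat_lit 4820), (nat_lit 0), (nat_lit 81414), (nat_lit 1736000), [((nat_lit 300), [((nat_lit 33), (nat_lit 5), (nat_lit 434))])], ⟨(nat_lit 4), false, false, false, (nat_lit 131), (nat_lit 5000), (nat_lit 5478), [(nat_lit 1103976), (nat_lit 1121427), (nat_lit 1168047), (nat_lit 1185713), (nat_lit 1478641), (nat_lit 1478570), (nat_lit 1542694), (nat_lit 1542837)]⟩, ⟨(nat_lit 4), false, false, false, (nat_lit 175), (nat_lit 5000), (nat_lit 5478), [(nat_lit 1328775), (nat_lit 1335713), (nat_lit 1392847), (nat_lit 1399998), (nat_lit 1478641), (nat_lit 1478570), (nat_lit 1542694), (nat_lit 1542837)]⟩, (nat_lit 4006289), (nat_lit 49485692), (nat_lit 6819530), (nat_lit 10694778), (nat_lit 0), (nat_lit 4), [], [], [], [],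
 ⟨⟨[(nat_lit 60), (nat_lit 80), (nat_lit 100)], [(nat_lit 0), (nat_lit 0), (nat_lit 534)], [((nat_lit 0), (nat_lit 0), (nat_lit 0)), ((nat_lit 0), (nat_lit 0), (nat_lit 0)), ((nat_lit 1000), (nat_lit 917), (nat_lit 393))], ((nat_lit 92), (nat_lit 100), (nat_lit 28))⟩, (nat_lit 709348), (nat_lit 198), (nat_lit 198), (nat_lit 0), (nat_lit 117237), [(nat_lit 2864894834), (nat_lit 3300332820), (nat_lit 2184864380)], [(nat_lit 0), (nat_lit 0), (nat_lit 0)], [(nat_lit 15758679382), (nat_lit 17442786798), (nat_lit 16231868154), (nat_lit 17588138904), (nat_lit 18010090154), (nat_lit 19548020945), (nat_lit 18048663779), (nat_lit 19228650217)], (nat_lit 1271251), (nat_lit 1271251), (nat_lit 0), (nat_lit 1412501), (nat_lit 780000), (nat_lit 1435001), [(nat_lit 780000), (nat_lit 1100000), (nat_lit 1442501)], [(nat_lit 9), (nat_lit 50), (nat_lit 317), (nat_lit 100), (nat_lit 12)]⟩,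
 ⟨⟨[(nat_lit 120), (nat_lit 140)], [(nat_lit 0), (nat_lit 266)], [((nat_lit 0), (nat_lit 0), (nat_lit 0)), ((nat_lit 960), (nat_lit 1000), (nat_lit 200))], ((nat_lit 100), (nat_lit 93), (nat_lit 28))⟩, (nat_lit 734469), (nat_lit 357), (nat_lit 357), (nat_lit 0), (nat_lit 137724), [(nat_lit 382464000), (nat_lit 472416000)], [], [(nat_lit 3437110624), (nat_lit 2553929344), (nat_lit 1990829360), (nat_lit 1286455680), (nat_lit 1701725872), (nat_lit 1279455552), (nat_lit 2225949488), (nat_lit 1440609056)], (nat_lit 1271251), (nat_lit 1271251), (nat_lit 0), (nat_lit 1412501), (nat_lit 0), (nat_lit 780000), [(nat_lit 1695001), (nat_lit 1271251)], [(nat_lit 26), (nat_lit 58), (nat_lit 373), (nat_lit 150), (nat_lit 12)]⟩,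
 ⟨⟨[(nat_lit 120), (nat_lit 140)], [(nat_lit 0), (nat_lit 266)], [((nat_lit 0), (nat_lit 0), (nat_lit 0)), ((nat_lit 960), (nat_lit 1000), (nat_lit 200))], ((nat_lit 100), (nat_lit 93), (nat_lit 28))⟩, (nat_lit 8044536), (nat_lit 250), (nat_lit 250), (nat_lit 0), (nat_lit 137724), [(nat_lit 4509888000), (nat_lit 5570572000)], [], [(nat_lit 20134203950), (nat_lit 18280596968), (nat_lit 23514664606), (nat_lit 18583185008), (nat_lit 21402136802), (nat_lit 15772412840), (nat_lit 26036900446), (nat_lit 19078553236)], (nat_lit 1271251), (nat_lit 1271251), (nat_lit 780000), (nat_lit 1435001), (nat_lit 0), (nat_lit 780000), [(nat_lit 1695001), (nat_lit 1271251)], [(nat_lit 26), (nat_lit 58), (nat_lit 373), (nat_lit 150), (nat_lit 11)]⟩⟩) (.leaf ⟨(nat_lit 0), (nat_lit 0), (nat_lit 0), (nat_lit 1000), (nat_lit 76926), (nat_lit 6284), (nat_lit 8500), (nat_lit 1718), (nat_lit 0), (nat_lit 22136018208276), (nat_lit 0), [], Pd.none, Pd.none, (nat_lit 0), (nat_lit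 1), (nat_lit 0), (nat_lit 0), (nat_lit 0), (nat_lit 0), [⟨(nat_lit 0), (nat_lit 100), (nat_lit 89), (nat_lit 49), (nat_lit 720639660)⟩], [], [], [],
 ⟨⟨[(nat_lit 60), (nat_lit 80), (nat_lit 100)], [(nat_lit 0), (nat_lit 0), (nat_lit 534)], [((nat_lit 0), (nat_lit 0), (nat_lit 0)), ((nat_lit 0), (nat_lit 0), (nat_lit 0)), ((nat_lit 1000), (nat_lit 917), (nat_lit 393))], ((nat_lit 92), (nat_lit 100), (nat_lit 28))⟩, (nat_lit 8215777), (nat_lit 198), (nat_lit 198), (nat_lit 0), (nat_lit 117237), [(nat_lit 3282000267), (nat_lit 4688000045), (nat_lit 6250000000)], [], [(nat_lit 16475678081), (nat_lit 18679682939), (nat_lit 15964680592), (nat_lit 17462258816), (nat_lit 18936774401), (nat_lit 20837045087), (nat_lit 17754433498), (nat_lit 19048904157)], (nat_lit 1271251), (nat_lit 1271251), (nat_lit 0), (nat_lit 1412501), (nat_lit 780000), (nat_lit 1435001), [(nat_lit 780000), (nat_lit 1100000), (nat_lit 1442501)], [(nat_lit 9), (nat_lit 50), (nat_lit 317),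 (nat_lit 100), (nat_lit 12)]⟩,
 ⟨⟨[(nat_lit 120), (nat_lit 140)], [(nat_lit 0), (nat_lit 266)], [((nat_lit 0), (nat_lit 0), (nat_lit 0)), ((nat_lit 960), (nat_lit 1000), (nat_lit 200))], ((nat_lit 100), (nat_lit 93), (nat_lit 28))⟩, (nat_lit 14984008), (nat_lit 328), (nat_lit 328), (nat_lit 0), (nat_lit 204381), [(nat_lit 7968000000), (nat_lit 9842000000)], [], [(nat_lit 35573476750), (nat_lit 32329720000), (nat_lit 45138224750), (nat_lit 32867280500), (nat_lit 62218585000), (nat_lit 50283208000), (nat_lit 77181784000), (nat_lit 65995801000)], (nat_lit 1271251), (nat_lit 1271251), (nat_lit 0), (nat_lit 1412501), (nat_lit 780000), (nat_lit 3072501), [(nat_lit 1695001), (nat_lit 1271251)], [(nat_lit 26), (nat_lit 58), (nat_lit 456), (nat_lit 225), (nat_lit 13)]⟩,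
 ⟨⟨[(nat_lit 120), (nat_lit 140)], [(nat_lit 0), (nat_lit 266)], [((nat_lit 0), (nat_lit 0), (nat_lit 0)), ((nat_lit 960), (nat_lit 1000), (nat_lit 200))], ((nat_lit 100), (nat_lit 93), (nat_lit 28))⟩, (nat_lit 16276851), (nat_lit 218), (nat_lit 218), (nat_lit 0), (nat_lit 204381), [(nat_lit 7968000000), (nat_lit 9842000000)], [], [(nat_lit 33404760523), (nat_lit 35203056442), (nat_lit 35286313972), (nat_lit 36918605416), (nat_lit 42193817060), (nat_lit 43294640552), (nat_lit 43306909430), (nat_lit 44325604436)], (nat_lit 1271251), (nat_lit 1271251), (nat_lit 780000), (nat_lit 1435001), (nat_lit 780000), (nat_lit 3072501), [(nat_lit 1695001), (nat_lit 1271251)], [(nat_lit 26), (nat_lit 58), (nat_lit 456), (nat_lit 225), (nat_lit 13)]⟩⟩))))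
noncomputable def c5_5 : Tr Lf :=
 (.spl (nat_lit 2) (nat_lit 180) (.spl (nat_lit 1) (nat_lit 180) (.trX (nat_lit 3) (nat_lit 0) (nat_lit 1) (nat_lit 92) (nat_lit 49) (nat_lit 100) (nat_lit 380) (.dle (nat_lit 0))) (.spl (nat_lit 1) (nat_lit 220) (.dle (nat_lit 0)) (.leaf ⟨(nat_lit 0), (nat_lit 740), (nat_lit 0), (nat_lit 260), (nat_lit 33784), (nat_lit 7118), (nat_lit 7222), (nat_lit 2511), (nat_lit 0), (nat_lit 0), (nat_lit 0), [], Pd.none, Pd.none, (nat_lit 0), (nat_lit 1), (nat_lit 0), (nat_lit 0), (nat_lit 3), (nat_lit 0), [], [], [], [],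
 ⟨⟨[(nat_lit 60), (nat_lit 80), (nat_lit 100)], [(nat_lit 0), (nat_lit 0), (nat_lit 534)], [((nat_lit 0), (nat_lit 0), (nat_lit 0)), ((nat_lit 0), (nat_lit 0), (nat_lit 0)), ((nat_lit 1000), (nat_lit 917), (nat_lit 393))], ((nat_lit 92), (nat_lit 100), (nat_lit 28))⟩, (nat_lit 7936485), (nat_lit 190), (nat_lit 190), (nat_lit 0), (nat_lit 58763), [(nat_lit 3328849478), (nat_lit 4688000003), (nat_lit 6250000000)], [], [(nat_lit 25392173704), (nat_lit 21711922133), (nat_lit 38912634972), (nat_lit 40050399910), (nat_lit 22290045346), (nat_lit 19216123741), (nat_lit 31378299918), (nat_lit 32303763239)], (nat_lit 1271251), (nat_lit 1271251), (nat_lit 1271251), (nat_lit 1271251), (nat_lit 0), (nat_lit 1412501), [(nat_lit 780000), (nat_lit 1100000), (nat_lit 1442501)], [(nat_lit 9), (nat_lit 50), (nat_lit 260), (nat_lit 50), (nat_lit 9)]⟩,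
 ⟨⟨[(nat_lit 100), (nat_lit 120)], [(nat_lit 0), (nat_lit 254)], [((nat_lit 0), (nat_lit 0), (nat_lit 0)), ((nat_lit 1000), (nat_lit 1000), (nat_lit 198))], ((nat_lit 100), (nat_lit 99), (nat_lit 28))⟩, (nat_lit 9092828), (nat_lit 221), (nat_lit 221), (nat_lit 0), (nat_lit 95276), [(nat_lit 6250000000), (nat_lit 7968000000)], [], [(nat_lit 27547368730), (nat_lit 28101488184), (nat_lit 36680613956), (nat_lit 36898676400), (nat_lit 44800176213), (nat_lit 41550409820), (nat_lit 38498769230), (nat_lit 38491430096)], (nat_lit 1271251), (nat_lit 1271251), (nat_lit 1271251), (nat_lit 1271251), (nat_lit 0), (nat_lit 2825001), [(nat_lit 1412501), (nat_lit 1271251)], [(nat_lit 21), (nat_lit 54), (nat_lit 538), (nat_lit 300), (nat_lit 18)]⟩,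
 ⟨⟨[(nat_lit 140), (nat_lit 160), (nat_lit 180)], [(nat_lit 0), (nat_lit 0), (nat_lit 799)], [((nat_lit 0), (nat_lit 0), (nat_lit 0)), ((nat_lit 0), (nat_lit 0), (nat_lit 0)), ((nat_lit 728), (nat_lit 1000), (nat_lit 454))], ((nat_lit 100), (nat_lit 84), (nat_lit 31))⟩, (nat_lit 328260), (nat_lit 300), (nat_lit 730), (nat_lit 19292000), (nat_lit 386670), [(nat_lit 2558920000), (nat_lit 3086720000), (nat_lit 3655080000)], [], [(nat_lit 19737353380), (nat_lit 19277023032), (nat_lit 17218128168), (nat_lit 16771909633), (nat_lit 17099158090), (nat_lit 16611616302), (nat_lit 18941832164), (nat_lit 21123183487)], (nat_lit 780000), (nat_lit 1271251), (nat_lit 0), (nat_lit 1412501), (nat_lit 0), (nat_lit 2825001), [(nat_lit 1977501), (nat_lit 1271251), (nat_lit 1271251)], [(nat_lit 31), (nat_lit 65), (nat_lit 428), (nat_lit 200), (nat_lit 11)]⟩⟩))) (.ord (.spl (nat_lit 0) (nat_lit 290) (.leaf ⟨(nat_lit 0), (nat_lit 530), (nat_lit 0), (nat_lit 470), (nat_lit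 88298), (nat_lit 7994), (nat_lit 8892), (nat_lit 1366), (nat_lit 0), (nat_lit 19096902453333), (nat_lit 0), [], Pd.none, Pd.none, (nat_lit 0), (nat_lit 1), (nat_lit 0), (nat_lit 0), (nat_lit 4), (nat_lit 0), [], [⟨(nat_lit 0), (nat_lit 100), (nat_lit 91), (nat_lit 63), (nat_lit 319887930)⟩], [], [],
 ⟨⟨[(nat_lit 60), (nat_lit 80), (nat_lit 100)], [(nat_lit 0), (nat_lit 0), (nat_lit 534)], [((nat_lit 0), (nat_lit 0), (nat_lit 0)), ((nat_lit 0), (nat_lit 0), (nat_lit 0)), ((nat_lit 1000), (nat_lit 917), (nat_lit 393))], ((nat_lit 92), (nat_lit 100), (nat_lit 28))⟩, (nat_lit 15342401), (nat_lit 180), (nat_lit 180), (nat_lit 0), (nat_lit 48912), [(nat_lit 3580652237), (nat_lit 4688000056), (nat_lit 6250000000)], [], [(nat_lit 24901886246), (nat_lit 22835299350), (nat_lit 41234695476), (nat_lit 41835767003), (nat_lit 18397676092), (nat_lit 16784177004), (nat_lit 32325782394), (nat_lit 32811359916)], (nat_lit 1271251), (nat_lit 1271251), (nat_lit 1271251),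 (nat_lit 1271251), (nat_lit 0), (nat_lit 1412501), [(nat_lit 780000), (nat_lit 1100000), (nat_lit 1442501)], [(nat_lit 9), (nat_lit 50), (nat_lit 260), (nat_lit 50), (nat_lit 9)]⟩,
 ⟨⟨[(nat_lit 120), (nat_lit 140)], [(nat_lit 0), (nat_lit 266)], [((nat_lit 0), (nat_lit 0), (nat_lit 0)), ((nat_lit 960), (nat_lit 1000), (nat_lit 200))], ((nat_lit 100), (nat_lit 93), (nat_lit 28))⟩, (nat_lit 14168000), (nat_lit 295), (nat_lit 295), (nat_lit 0), (nat_lit 114856), [(nat_lit 7968000000), (nat_lit 9842000000)], [], [(nat_lit 35204949146), (nat_lit 32027361328), (nat_lit 40476178388), (nat_lit 41078796624), (nat_lit 63025564448), (nat_lit 51323710232), (nat_lit 41243495028), (nat_lit 40923898656)], (nat_lit 1271251), (nat_lit 1271251), (nat_lit 1271251), (nat_lit 1271251), (nat_lit 0), (nat_lit 2825001), [(nat_lit 1695001), (nat_lit 1271251)], [(nat_lit 26), (nat_lit 58), (nat_lit 538), (nat_lit 300), (nat_lit 16)]⟩,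
 ⟨⟨[(nat_lit 120), (nat_lit 140)], [(nat_lit 0), (nat_lit 266)], [((nat_lit 0), (nat_lit 0), (nat_lit 0)), ((nat_lit 960), (nat_lit 1000), (nat_lit 200))], ((nat_lit 100), (nat_lit 93), (nat_lit 28))⟩, (nat_lit 6463208), (nat_lit 300), (nat_lit 347), (nat_lit 31208000), (nat_lit 114856), [(nat_lit 3744960000), (nat_lit 4625740000)], [], [(nat_lit 21189274906), (nat_lit 21206910602), (nat_lit 20830354514), (nat_lit 21458142873), (nat_lit 23869022584), (nat_lit 24229127575), (nat_lit 26236536904), (nat_lit 24438883636)], (nat_lit 1271251), (nat_lit 1271251), (nat_lit 0), (nat_lit 1412501), (nat_lit 0), (nat_lit 2825001), [(nat_lit 1695001), (nat_lit 1271251)], [(nat_lit 26), (nat_lit 58), (nat_lit 456), (nat_lit 225), (nat_lit 14)]⟩⟩) (.trZ (nat_lit 0) (nat_lit 2) (nat_lit 4) (nat_lit 100) (nat_lit 90) (nat_lit 36) (nat_lit 10) (.leaf ⟨(nat_lit 0), (nat_lit 471), (nat_lit 0), (nat_lit 529), (nat_lit 52721), (nat_lit 5616), (nat_lit 9591), (nat_lit 1848),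 (nat_lit 0), (nat_lit 18521727428183), (nat_lit 0), [], Pd.none, Pd.none, (nat_lit 0), (nat_lit 1), (nat_lit 0), (nat_lit 0), (nat_lit 4), (nat_lit 0), [], [⟨(nat_lit 0), (nat_lit 100), (nat_lit 88), (nat_lit 52), (nat_lit 196476986)⟩], [], [],
 ⟨⟨[(nat_lit 60), (nat_lit 80), (nat_lit 100)], [(nat_lit 0), (nat_lit 151), (nat_lit 679)], [((nat_lit 0), (nat_lit 0), (nat_lit 0)), ((nat_lit 1000), (nat_lit 953), (nat_lit 118)), ((nat_lit 1000), (nat_lit 894), (nat_lit 411))], ((nat_lit 91), (nat_lit 100), (nat_lit 28))⟩, (nat_lit 13410069), (nat_lit 206), (nat_lit 206), (nat_lit 0), (nat_lit 116006), [(nat_lit 3282000003), (nat_lit 4688000006), (nat_lit 6250000000)], [], [(nat_lit 18773858204), (nat_lit 19430633014), (nat_lit 34832258926), (nat_lit 35344797685), (nat_lit 18889771107), (nat_lit 19466558981), (nat_lit 30177295092), (nat_lit 30600854968)], (nat_lit 1271251), (nat_lit 1271251), (nat_lit 1271251), (nat_lit 1271251), (nat_lit 54688), (nat_lit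 1414376), [(nat_lit 780000), (nat_lit 1100000), (nat_lit 1442501)], [(nat_lit 9), (nat_lit 50), (nat_lit 260), (nat_lit 50), (nat_lit 9)]⟩,
 ⟨⟨[(nat_lit 120), (nat_lit 140)], [(nat_lit 0), (nat_lit 266)], [((nat_lit 0), (nat_lit 0), (nat_lit 0)), ((nat_lit 960), (nat_lit 1000), (nat_lit 200))], ((nat_lit 100), (nat_lit 93), (nat_lit 28))⟩, (nat_lit 13379275), (nat_lit 328), (nat_lit 328), (nat_lit 0), (nat_lit 204381), [(nat_lit 7968000000), (nat_lit 9842000000)], [], [(nat_lit 35005192771), (nat_lit 30531023200), (nat_lit 41488550040), (nat_lit 42828933252), (nat_lit 64124493104), (nat_lit 51502756286), (nat_lit 42386191569), (nat_lit 41942039688)], (nat_lit 1271251), (nat_lit 1271251), (nat_lit 1271251), (nat_lit 1271251), (nat_lit 0), (nat_lit 2825001), [(nat_lit 1695001), (nat_lit 1271251)], [(nat_lit 26), (nat_lit 58), (nat_lit 538), (nat_lit 300), (nat_lit 16)]⟩,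
 ⟨⟨[(nat_lit 120), (nat_lit 140)], [(nat_lit 0), (nat_lit 266)], [((nat_lit 0), (nat_lit 0), (nat_lit 0)), ((nat_lit 960), (nat_lit 1000), (nat_lit 200))], ((nat_lit 100), (nat_lit 93), (nat_lit 28))⟩, (nat_lit 1085842), (nat_lit 300), (nat_lit 376), (nat_lit 35125601), (nat_lit 204381), [(nat_lit 4215072000), (nat_lit 5206418000)], [], [(nat_lit 24330624298), (nat_lit 24771523400), (nat_lit 24139814205), (nat_lit 24790147597), (nat_lit 27380470483), (nat_lit 27716890488), (nat_lit 30211520352), (nat_lit 27779556048)], (nat_lit 1271251), (nat_lit 1271251), (nat_lit 54688), (nat_lit 1414376), (nat_lit 0), (nat_lit 2825001), [(nat_lit 1695001), (nat_lit 1271251)], [(nat_lit 26), (nat_lit 58), (nat_lit 456), (nat_lit 225), (nat_lit 14)]⟩⟩)))))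
noncomputable def c5_6 : Tr Lf :=
 (.spl (nat_lit 3) (nat_lit 200) (.spl (nat_lit 2) (nat_lit 180) (.trX (nat_lit 4) (nat_lit 0) (nat_lit 2) (nat_lit 92) (nat_lit 49) (nat_lit 100) (nat_lit 380) (.spl (nat_lit 3) (nat_lit 120) (.trX (nat_lit 5) (nat_lit 4) (nat_lit 3) (nat_lit 100) (nat_lit 40) (nat_lit 92) (nat_lit 390) (.spl (nat_lit 2) (nat_lit 160) (.trX (nat_lit 4) (nat_lit 0) (nat_lit 2) (nat_lit 94) (nat_lit 59) (nat_lit 100) (nat_lit 370) (.spl (nat_lit 4) (nat_lit 280) (.spl (nat_lit 3) (nat_lit 80) (.trX (nat_lit 5) (nat_lit 4) (nat_lit 3) (nat_lit 100) (nat_lit 60) (nat_lit 80) (nat_lit 360) (.leaf ⟨(nat_lit 1000), (nat_lit 0), (nat_lit 0), (nat_lit 0), (nat_lit 10202), (nat_lit 4564), (nat_lit 0), (nat_lit 0), (nat_lit 0), (nat_lit 5365), (nat_lit 1705000), [((nat_lit 300), [((nat_lit 33), (nat_lit 2), (nat_lit 675)), ((nat_lit 33), (nat_lit 5), (nat_lit 325))])], ⟨(nat_lit 3), false, false, false, (nat_lit 74), (nat_lit 5000), (nat_lit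 5478), [(nat_lit 1039905), (nat_lit 1057141), (nat_lit 1168047), (nat_lit 1185713), (nat_lit 1189771), (nat_lit 1199998), (nat_lit 1317913), (nat_lit 1328570)]⟩, ⟨(nat_lit 5), false, false, true, (nat_lit 204), (nat_lit 5000), (nat_lit 5478), [(nat_lit 1414570), (nat_lit 1414284), (nat_lit 1457284), (nat_lit 1457141), (nat_lit 1564436), (nat_lit 1557141), (nat_lit 1607145), (nat_lit 1599993)]⟩, (nat_lit 3540359), (nat_lit 50444403), (nat_lit 2881779), (nat_lit 13673818), (nat_lit 0), (nat_lit 0), [⟨(nat_lit 0), (nat_lit 100), (nat_lit 88), (nat_lit 68), (nat_lit 281488647)⟩], [], [], [],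
 ⟨⟨[(nat_lit 60), (nat_lit 80), (nat_lit 100)], [(nat_lit 0), (nat_lit 0), (nat_lit 534)], [((nat_lit 0), (nat_lit 0), (nat_lit 0)), ((nat_lit 0), (nat_lit 0), (nat_lit 0)), ((nat_lit 1000), (nat_lit 917), (nat_lit 393))], ((nat_lit 92), (nat_lit 100), (nat_lit 28))⟩, (nat_lit 381), (nat_lit 152), (nat_lit 152), (nat_lit 0), (nat_lit 35433), [(nat_lit 2210464839), (nat_lit 2000235169), (nat_lit 653304831)], [(nat_lit 0), (nat_lit 0), (nat_lit 0)], [(nat_lit 16904674992), (nat_lit 18756265948), (nat_lit 15123917212), (nat_lit 16458388106), (nat_lit 21923638020), (nat_lit 23430633926), (nat_lit 18949126776), (nat_lit 20058800712)], (nat_lit 1271251), (nat_lit 1271251), (nat_lit 0), (nat_lit 490000), (nat_lit 1271251), (nat_lit 1271251), [(nat_lit 780000), (nat_lit 1100000), (nat_lit 1442501)], [(nat_lit 9), (nat_lit 50), (nat_lit 226), (nat_lit 20), (nat_lit 8)]⟩,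
 Rw.none,
 Rw.none⟩)) (.leaf ⟨(nat_lit 992), (nat_lit 0), (nat_lit 0), (nat_lit 8), (nat_lit 9384), (nat_lit 3896), (nat_lit 97), (nat_lit 306), (nat_lit 0), (nat_lit 1173), (nat_lit 992000), [((nat_lit 300), [((nat_lit 12), (nat_lit 2), (nat_lit 992))])], ⟨(nat_lit 3), false, false, false, (nat_lit 118), (nat_lit 5000), (nat_lit 5478), [(nat_lit 1189771), (nat_lit 1199998), (nat_lit 1317913), (nat_lit 1328570), (nat_lit 1264704), (nat_lit 1271427), (nat_lit 1392847), (nat_lit 1399998)]⟩, ⟨(nat_lit 5), false, false, true, (nat_lit 204), (nat_lit 5000), (nat_lit 5478), [(nat_lit 1414570), (nat_lit 1414284), (nat_lit 1457284), (nat_lit 1457141), (nat_lit 1564436), (nat_lit 1557141), (nat_lit 1607145), (nat_lit 1599993)]⟩, (nat_lit 4126075), (nat_lit 47816803), (nat_lit 5750555), (nat_lit 13432642), (nat_lit 0), (nat_lit 0), [], [], [], [],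
 ⟨⟨[(nat_lit 60), (nat_lit 80), (nat_lit 100)], [(nat_lit 0), (nat_lit 0), (nat_lit 534)], [((nat_lit 0), (nat_lit 0), (nat_lit 0)), ((nat_lit 0), (nat_lit 0), (nat_lit 0)), ((nat_lit 1000), (nat_lit 917), (nat_lit 393))], ((nat_lit 92), (nat_lit 100), (nat_lit 28))⟩, (nat_lit 101002), (nat_lit 112), (nat_lit 112), (nat_lit 0), (nat_lit 35433), [(nat_lit 2002336322), (nat_lit 90312145188), (nat_lit 1672912000)], [(nat_lit 0), (nat_lit 0), (nat_lit 0)], [(nat_lit 14243912658), (nat_lit 15710082090), (nat_lit 14876677498), (nat_lit 16266204366), (nat_lit 18454831874), (nat_lit 19672202424), (nat_lit 18878507150), (nat_lit 20034917828)], (nat_lit 1271251), (nat_lit 1271251), (nat_lit 490000), (nat_lit 780000), (nat_lit 1271251), (nat_lit 1271251), [(nat_lit 780000), (nat_lit 1100000), (nat_lit 1442501)], [(nat_lit 9), (nat_lit 50), (nat_lit 238), (nat_lit 30), (nat_lit 8)]⟩,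
 ⟨⟨[(nat_lit 140), (nat_lit 160), (nat_lit 180)], [(nat_lit 0), (nat_lit 0), (nat_lit 799)], [((nat_lit 0), (nat_lit 0), (nat_lit 0)), ((nat_lit 0), (nat_lit 0), (nat_lit 0)), ((nat_lit 728), (nat_lit 1000), (nat_lit 454))], ((nat_lit 100), (nat_lit 84), (nat_lit 31))⟩, (nat_lit 548597), (nat_lit 478), (nat_lit 478), (nat_lit 0), (nat_lit 116374), [(nat_lit 78736000), (nat_lit 94976000), (nat_lit 112464000)], [], [(nat_lit 374702272), (nat_lit 369661192), (nat_lit 363801982), (nat_lit 395440444), (nat_lit 487001119), (nat_lit 638610959), (nat_lit 521230368), (nat_lit 676111023)], (nat_lit 780000), (nat_lit 1762501), (nat_lit 490000), (nat_lit 780000), (nat_lit 0), (nat_lit 2754376), [(nat_lit 1977501), (nat_lit 1271251), (nat_lit 1271251)], [(nat_lit 31), (nat_lit 65), (nat_lit 428), (nat_lit 200), (nat_lit 10)]⟩,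
 ⟨⟨[(nat_lit 140), (nat_lit 160), (nat_lit 180)], [(nat_lit 0), (nat_lit 0), (nat_lit 799)], [((nat_lit 0), (nat_lit 0), (nat_lit 0)), ((nat_lit 0), (nat_lit 0), (nat_lit 0)), ((nat_lit 728), (nat_lit 1000), (nat_lit 454))], ((nat_lit 100), (nat_lit 84), (nat_lit 31))⟩, (nat_lit 925778), (nat_lit 300), (nat_lit 573), (nat_lit 593600), (nat_lit 386670), [(nat_lit 78736000), (nat_lit 94976000), (nat_lit 112464000)], [], [(nat_lit 519471702), (nat_lit 407690772), (nat_lit 425077172), (nat_lit 376067244), (nat_lit 839404529), (nat_lit 973692798), (nat_lit 543031372), (nat_lit 498879364)], (nat_lit 780000), (nat_lit 1100000), (nat_lit 1271251), (nat_lit 1271251), (nat_lit 0), (nat_lit 2754376), [(nat_lit 1977501), (nat_lit 1271251), (nat_lit 1271251)], [(nat_lit 31), (nat_lit 65), (nat_lit 456), (nat_lit 225), (nat_lit 11)]⟩⟩)) (.trX (nat_lit 5) (nat_lit 4) (nat_lit 3) (nat_lit 100) (nat_lit 80) (nat_lit 100) (nat_lit 340) (.spl (nat_lit 0) (nat_lit 290)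 (.dle (nat_lit 0)) (.trX (nat_lit 4) (nat_lit 0) (nat_lit 2) (nat_lit 91) (nat_lit 63) (nat_lit 100) (nat_lit 360) (.spl (nat_lit 1) (nat_lit 180) (.dle (nat_lit 0)) (.trZ (nat_lit 0) (nat_lit 1) (nat_lit 3) (nat_lit 100) (nat_lit 90) (nat_lit 36) (nat_lit 10) (.spl (nat_lit 1) (nat_lit 220) (.dle (nat_lit 0)) (.trZ (nat_lit 0) (nat_lit 1) (nat_lit 3) (nat_lit 100) (nat_lit 90) (nat_lit 54) (nat_lit 30) (.spl (nat_lit 5) (nat_lit 160) (.leaf ⟨(nat_lit 0), (nat_lit 872), (nat_lit 0), (nat_lit 128), (nat_lit 52707), (nat_lit 4522), (nat_lit 10100), (nat_lit 1631), (nat_lit 0), (nat_lit 0), (nat_lit 0), [], Pd.none, Pd.none, (nat_lit 0), (nat_lit 1), (nat_lit 0), (nat_lit 0), (nat_lit 7), (nat_lit 0), [⟨(nat_lit 0), (nat_lit 100), (nat_lit 88), (nat_lit 68), (nat_lit 748766775)⟩], [⟨(nat_lit 1), (nat_lit 75), (nat_lit 92), (nat_lit 100), (nat_lit 461871591)⟩], [], [],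
 ⟨⟨[(nat_lit 60), (nat_lit 80), (nat_lit 100)], [(nat_lit 0), (nat_lit 151), (nat_lit 679)], [((nat_lit 0), (nat_lit 0), (nat_lit 0)), ((nat_lit 1000), (nat_lit 953), (nat_lit 118)), ((nat_lit 1000), (nat_lit 894), (nat_lit 411))], ((nat_lit 91), (nat_lit 100), (nat_lit 28))⟩, (nat_lit 12911717), (nat_lit 141), (nat_lit 141), (nat_lit 0), (nat_lit 35185), [(nat_lit 3282000001), (nat_lit 4688000002), (nat_lit 6250000000)], [], [(nat_lit 22615169092), (nat_lit 23188164049), (nat_lit 21678082427), (nat_lit 22226652569), (nat_lit 27756447181), (nat_lit 28232321285), (nat_lit 26409876069), (nat_lit 26848681894)], (nat_lit 1271251), (nat_lit 1271251), (nat_lit 169688), (nat_lit 780000), (nat_lit 1271251), (nat_lit 1271251), [(nat_lit 780000), (nat_lit 1100000), (nat_lit 1442501)], [(nat_lit 9), (nat_lit 50), (nat_lit 238), (nat_lit 30), (nat_lit 8)]⟩,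
 ⟨⟨[(nat_lit 100), (nat_lit 120)], [(nat_lit 0), (nat_lit 254)], [((nat_lit 0), (nat_lit 0), (nat_lit 0)), ((nat_lit 1000), (nat_lit 1000), (nat_lit 198))], ((nat_lit 100), (nat_lit 99), (nat_lit 28))⟩, (nat_lit 19136753), (nat_lit 268), (nat_lit 268), (nat_lit 0), (nat_lit 49601), [(nat_lit 6250000000), (nat_lit 7968000000)], [], [(nat_lit 18436391401), (nat_lit 19776127350), (nat_lit 15867822350), (nat_lit 15943691400), (nat_lit 19152435438), (nat_lit 14120591900), (nat_lit 23225132650), (nat_lit 18154604400)], (nat_lit 1271251), (nat_lit 1271251), (nat_lit 169688), (nat_lit 780000), (nat_lit 0), (nat_lit 1100000), [(nat_lit 1412501), (nat_lit 1271251)], [(nat_lit 21), (nat_lit 54), (nat_lit 373), (nat_lit 150), (nat_lit 13)]⟩,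
 ⟨⟨[(nat_lit 140), (nat_lit 160), (nat_lit 180)], [(nat_lit 0), (nat_lit 0), (nat_lit 799)], [((nat_lit 0), (nat_lit 0), (nat_lit 0)), ((nat_lit 0), (nat_lit 0), (nat_lit 0)), ((nat_lit 728), (nat_lit 1000), (nat_lit 454))], ((nat_lit 100), (nat_lit 84), (nat_lit 31))⟩, (nat_lit 112461), (nat_lit 300), (nat_lit 555), (nat_lit 9497600), (nat_lit 386670), [(nat_lit 1259776000), (nat_lit 1519616000), (nat_lit 1799424000)], [], [(nat_lit 7283744020), (nat_lit 7046917072), (nat_lit 7455033284), (nat_lit 7217357822), (nat_lit 5731333538), (nat_lit 5507406868), (nat_lit 5846910810), (nat_lit 5603910608)], (nat_lit 780000), (nat_lit 1100000), (nat_lit 1271251), (nat_lit 1271251), (nat_lit 0), (nat_lit 1100000), [(nat_lit 1977501), (nat_lit 1271251), (nat_lit 1271251)], [(nat_lit 31), (nat_lit 65), (nat_lit 401), (nat_lit 175), (nat_lit 9)]⟩⟩) (.leaf ⟨(nat_lit 0), (nat_lit 0), (nat_lit 0), (nat_lit 1000), (nat_lit 32709), (nat_lit 5314), (nat_lit 14933), (nat_lit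 13098), (nat_lit 0), (nat_lit 0), (nat_lit 0), [], Pd.none, Pd.none, (nat_lit 0), (nat_lit 1), (nat_lit 0), (nat_lit 0), (nat_lit 0), (nat_lit 0), [], [], [], [⟨(nat_lit 2), (nat_lit 100), (nat_lit 83), (nat_lit 81), (nat_lit 92015274)⟩, ⟨(nat_lit 2), (nat_lit 100), (nat_lit 83), (nat_lit 81), (nat_lit 92015274)⟩],
 ⟨⟨[(nat_lit 60), (nat_lit 80), (nat_lit 100)], [(nat_lit 0), (nat_lit 151), (nat_lit 679)], [((nat_lit 0), (nat_lit 0), (nat_lit 0)), ((nat_lit 1000), (nat_lit 953), (nat_lit 118)), ((nat_lit 1000), (nat_lit 894), (nat_lit 411))], ((nat_lit 91), (nat_lit 100), (nat_lit 28))⟩, (nat_lit 8305832), (nat_lit 141), (nat_lit 141), (nat_lit 0), (nat_lit 35185), [(nat_lit 3282000027), (nat_lit 4688000031), (nat_lit 6250000000)], [], [(nat_lit 22450580506), (nat_lit 23070122526), (nat_lit 21060205734), (nat_lit 21624160895), (nat_lit 29148896022), (nat_lit 29750144388), (nat_lit 26169935120), (nat_lit 26731810851)], (nat_lit 1271251), (nat_lit 1271251),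 (nat_lit 169688), (nat_lit 780000), (nat_lit 1271251), (nat_lit 1271251), [(nat_lit 780000), (nat_lit 1100000), (nat_lit 1442501)], [(nat_lit 9), (nat_lit 50), (nat_lit 238), (nat_lit 30), (nat_lit 8)]⟩,
 ⟨⟨[(nat_lit 100), (nat_lit 120)], [(nat_lit 0), (nat_lit 254)], [((nat_lit 0), (nat_lit 0), (nat_lit 0)), ((nat_lit 1000), (nat_lit 1000), (nat_lit 198))], ((nat_lit 100), (nat_lit 99), (nat_lit 28))⟩, (nat_lit 15747209), (nat_lit 188), (nat_lit 188), (nat_lit 0), (nat_lit 49601), [(nat_lit 6250000000), (nat_lit 7968000000)], [], [(nat_lit 12983724125), (nat_lit 8779597263), (nat_lit 17837094015), (nat_lit 10340242692), (nat_lit 44270432827), (nat_lit 37009675950), (nat_lit 51220863506), (nat_lit 44181680634)], (nat_lit 1271251), (nat_lit 1271251), (nat_lit 169688), (nat_lit 780000), (nat_lit 1100000), (nat_lit 2641251), [(nat_lit 1412501), (nat_lit 1271251)], [(nat_lit 21), (nat_lit 54), (nat_lit 401), (nat_lit 175), (nat_lit 13)]⟩,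
 ⟨⟨[(nat_lit 140), (nat_lit 160), (nat_lit 180)], [(nat_lit 0), (nat_lit 0), (nat_lit 799)], [((nat_lit 0), (nat_lit 0), (nat_lit 0)), ((nat_lit 0), (nat_lit 0), (nat_lit 0)), ((nat_lit 728), (nat_lit 1000), (nat_lit 454))], ((nat_lit 100), (nat_lit 84), (nat_lit 31))⟩, (nat_lit 878601), (nat_lit 300), (nat_lit 407), (nat_lit 74200000), (nat_lit 386670), [(nat_lit 9842000000), (nat_lit 11872000000), (nat_lit 14058000000)], [], [(nat_lit 41393483963), (nat_lit 39892944488), (nat_lit 44563962596), (nat_lit 42795321176), (nat_lit 42496943845), (nat_lit 40632046192), (nat_lit 43975922141), (nat_lit 42061884158)], (nat_lit 780000), (nat_lit 1100000), (nat_lit 1271251), (nat_lit 1271251), (nat_lit 1100000), (nat_lit 2641251), [(nat_lit 1977501), (nat_lit 1271251), (nat_lit 1271251)], [(nat_lit 31), (nat_lit 65), (nat_lit 456), (nat_lit 225), (nat_lit 10)]⟩⟩))))))))))) (.ord (.dle (nat_lit 0))))) (.spl (nat_lit 1) (nat_lit 180) (.dle (nat_lit 0)) (.leaf ⟨(nat_lit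 521), (nat_lit 97), (nat_lit 0), (nat_lit 382), (nat_lit 48502), (nat_lit 5793), (nat_lit 8439), (nat_lit 3596), (nat_lit 0), (nat_lit 0), (nat_lit 2084000), [((nat_lit 300), [((nat_lit 33), (nat_lit 5), (nat_lit 521))])], ⟨(nat_lit 4), false, false, false, (nat_lit 175), (nat_lit 5000), (nat_lit 5478), [(nat_lit 1328775), (nat_lit 1335713), (nat_lit 1392847), (nat_lit 1399998), (nat_lit 1478641), (nat_lit 1478570), (nat_lit 1542694), (nat_lit 1542837)]⟩, ⟨(nat_lit 5), false, false, true, (nat_lit 244), (nat_lit 5000), (nat_lit 5478), [(nat_lit 1414570), (nat_lit 1414284), (nat_lit 1478641), (nat_lit 1478570), (nat_lit 1751751), (nat_lit 1735694), (nat_lit 1815793), (nat_lit 1799951)]⟩, (nat_lit 4992736), (nat_lit 40759600), (nat_lit 9703340), (nat_lit 16537060), (nat_lit 5), (nat_lit 0), [], [], [], [],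
 ⟨⟨[(nat_lit 60), (nat_lit 80), (nat_lit 100)], [(nat_lit 0), (nat_lit 0), (nat_lit 534)], [((nat_lit 0), (nat_lit 0), (nat_lit 0)), ((nat_lit 0), (nat_lit 0), (nat_lit 0)), ((nat_lit 1000), (nat_lit 917), (nat_lit 393))], ((nat_lit 92), (nat_lit 100), (nat_lit 28))⟩, (nat_lit 993132), (nat_lit 109), (nat_lit 109), (nat_lit 0), (nat_lit 58763), [(nat_lit 2943200384), (nat_lit 2868059020), (nat_lit 1531882780)], [(nat_lit 0), (nat_lit 0), (nat_lit 0)], [(nat_lit 14789820214), (nat_lit 16220297887), (nat_lit 16592414489), (nat_lit 17832521751), (nat_lit 27946072780), (nat_lit 29017916417), (nat_lit 28296515036), (nat_lit 29235947022)], (nat_lit 1271251), (nat_lit 1271251), (nat_lit 780000), (nat_lit 1435001), (nat_lit 1271251), (nat_lit 1271251), [(nat_lit 780000), (nat_lit 1100000), (nat_lit 1442501)], [(nat_lit 9), (nat_lit 50), (nat_lit 260), (nat_lit 50), (nat_lit 9)]⟩,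
 ⟨⟨[(nat_lit 120), (nat_lit 140)], [(nat_lit 0), (nat_lit 266)], [((nat_lit 0), (nat_lit 0), (nat_lit 0)), ((nat_lit 960), (nat_lit 1000), (nat_lit 200))], ((nat_lit 100), (nat_lit 93), (nat_lit 28))⟩, (nat_lit 16844413), (nat_lit 248), (nat_lit 248), (nat_lit 0), (nat_lit 114713), [(nat_lit 3816672000), (nat_lit 4714318000)], [], [(nat_lit 16853401835), (nat_lit 7684063542), (nat_lit 21509999819), (nat_lit 9274669968), (nat_lit 34330564294), (nat_lit 22938382658), (nat_lit 42601675956), (nat_lit 31495968834)], (nat_lit 1271251), (nat_lit 1271251), (nat_lit 780000), (nat_lit 1435001), (nat_lit 0), (nat_lit 2825001), [(nat_lit 1695001), (nat_lit 1271251)], [(nat_lit 26), (nat_lit 58), (nat_lit 456), (nat_lit 225), (nat_lit 13)]⟩,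
 ⟨⟨[(nat_lit 140), (nat_lit 160), (nat_lit 180)], [(nat_lit 0), (nat_lit 0), (nat_lit 799)], [((nat_lit 0), (nat_lit 0), (nat_lit 0)), ((nat_lit 0), (nat_lit 0), (nat_lit 0)), ((nat_lit 728), (nat_lit 1000), (nat_lit 454))], ((nat_lit 100), (nat_lit 84), (nat_lit 31))⟩, (nat_lit 996057), (nat_lit 300), (nat_lit 573), (nat_lit 28344400), (nat_lit 386670), [(nat_lit 3759644000), (nat_lit 4535104000), (nat_lit 5370156000)], [], [(nat_lit 23766624681), (nat_lit 23239697937), (nat_lit 24335726134), (nat_lit 23657367547), (nat_lit 25396997936), (nat_lit 28539879252), (nat_lit 20424633351), (nat_lit 19671233710)], (nat_lit 780000), (nat_lit 1271251), (nat_lit 1271251), (nat_lit 1271251), (nat_lit 0), (nat_lit 2825001), [(nat_lit 1977501), (nat_lit 1271251), (nat_lit 1271251)], [(nat_lit 31), (nat_lit 65), (nat_lit 483), (nat_lit 250), (nat_lit 11)]⟩⟩)))) (.ord (.spl (nat_lit 0) (nat_lit 290) (.leaf ⟨(nat_lit 0), (nat_lit 0), (nat_lit 341), (nat_lit 659),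 (nat_lit 121721), (nat_lit 7991), (nat_lit 2772), (nat_lit 9644), (nat_lit 0), (nat_lit 8379065550), (nat_lit 0), [], Pd.none, Pd.none, (nat_lit 0), (nat_lit 1), (nat_lit 0), (nat_lit 0), (nat_lit 0), (nat_lit 4), [⟨(nat_lit 0), (nat_lit 100), (nat_lit 91), (nat_lit 63), (nat_lit 661005506)⟩], [], [], [],
 ⟨⟨[(nat_lit 60), (nat_lit 80), (nat_lit 100)], [(nat_lit 0), (nat_lit 0), (nat_lit 534)], [((nat_lit 0), (nat_lit 0), (nat_lit 0)), ((nat_lit 0), (nat_lit 0), (nat_lit 0)), ((nat_lit 1000), (nat_lit 917), (nat_lit 393))], ((nat_lit 92), (nat_lit 100), (nat_lit 28))⟩, (nat_lit 15140234), (nat_lit 180), (nat_lit 180), (nat_lit 0), (nat_lit 48912), [(nat_lit 3794218709), (nat_lit 4688000015), (nat_lit 6250000000)], [], [(nat_lit 24903565231), (nat_lit 22837753887), (nat_lit 18618890354), (nat_lit 16785258775), (nat_lit 41226743214), (nat_lit 41827704505), (nat_lit 32322537591), (nat_lit 32808036874)], (nat_lit 1271251), (nat_lit 1271251), (nat_lit 0),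 (nat_lit 1412501), (nat_lit 1271251), (nat_lit 1271251), [(nat_lit 780000), (nat_lit 1100000), (nat_lit 1442501)], [(nat_lit 9), (nat_lit 50), (nat_lit 260), (nat_lit 50), (nat_lit 9)]⟩,
 ⟨⟨[(nat_lit 120), (nat_lit 140)], [(nat_lit 0), (nat_lit 266)], [((nat_lit 0), (nat_lit 0), (nat_lit 0)), ((nat_lit 960), (nat_lit 1000), (nat_lit 200))], ((nat_lit 100), (nat_lit 93), (nat_lit 28))⟩, (nat_lit 11040439), (nat_lit 347), (nat_lit 347), (nat_lit 0), (nat_lit 114856), [(nat_lit 5250912000), (nat_lit 6485878000)], [], [(nat_lit 32406418212), (nat_lit 27906090072), (nat_lit 26780355259), (nat_lit 27716193920), (nat_lit 31857301832), (nat_lit 32062165756), (nat_lit 38617851708), (nat_lit 34969905252)], (nat_lit 1271251), (nat_lit 1271251), (nat_lit 0), (nat_lit 1412501), (nat_lit 0), (nat_lit 2825001), [(nat_lit 1695001), (nat_lit 1271251)], [(nat_lit 26), (nat_lit 58), (nat_lit 456), (nat_lit 225), (nat_lit 14)]⟩,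
 ⟨⟨[(nat_lit 120), (nat_lit 140)], [(nat_lit 0), (nat_lit 266)], [((nat_lit 0), (nat_lit 0), (nat_lit 0)), ((nat_lit 960), (nat_lit 1000), (nat_lit 200))], ((nat_lit 100), (nat_lit 93), (nat_lit 28))⟩, (nat_lit 14628639), (nat_lit 295), (nat_lit 295), (nat_lit 0), (nat_lit 114856), [(nat_lit 7968000000), (nat_lit 9842000000)], [], [(nat_lit 34990046722), (nat_lit 30417542896), (nat_lit 41622928360), (nat_lit 42961633168), (nat_lit 64207816736), (nat_lit 51516332024), (nat_lit 42472833796), (nat_lit 42019237792)], (nat_lit 1271251), (nat_lit 1271251), (nat_lit 1271251), (nat_lit 1271251), (nat_lit 0), (nat_lit 2825001), [(nat_lit 1695001), (nat_lit 1271251)], [(nat_lit 26), (nat_lit 58), (nat_lit 538), (nat_lit 300), (nat_lit 16)]⟩⟩) (.trZ (nat_lit 0) (nat_lit 1) (nat_lit 3) (nat_lit 100) (nat_lit 90) (nat_lit 36) (nat_lit 10) (.leaf ⟨(nat_lit 0), (nat_lit 0), (nat_lit 526), (nat_lit 474), (nat_lit 43060), (nat_lit 5706), (nat_lit 2161), (nat_lit 7091),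 (nat_lit 0), (nat_lit 14259), (nat_lit 0), [], Pd.none, Pd.none, (nat_lit 0), (nat_lit 1), (nat_lit 0), (nat_lit 0), (nat_lit 0), (nat_lit 4), [⟨(nat_lit 0), (nat_lit 100), (nat_lit 88), (nat_lit 68), (nat_lit 90328110)⟩], [], [], [],
 ⟨⟨[(nat_lit 60), (nat_lit 80), (nat_lit 100)], [(nat_lit 0), (nat_lit 151), (nat_lit 679)], [((nat_lit 0), (nat_lit 0), (nat_lit 0)), ((nat_lit 1000), (nat_lit 953), (nat_lit 118)), ((nat_lit 1000), (nat_lit 894), (nat_lit 411))], ((nat_lit 91), (nat_lit 100), (nat_lit 28))⟩, (nat_lit 12494633), (nat_lit 206), (nat_lit 206), (nat_lit 0), (nat_lit 116006), [(nat_lit 3282000002), (nat_lit 4688000005), (nat_lit 6250000000)], [], [(nat_lit 18860964525), (nat_lit 19523248504), (nat_lit 18890612422), (nat_lit 19230538321), (nat_lit 35062188890), (nat_lit 35578033023), (nat_lit 30276986360), (nat_lit 30702893413)], (nat_lit 1271251), (nat_lit 1271251), (nat_lit 54688), (nat_lit 1414376), (nat_lit 1271251), (nat_lit 1271251),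 [(nat_lit 780000), (nat_lit 1100000), (nat_lit 1442501)], [(nat_lit 9), (nat_lit 50), (nat_lit 260), (nat_lit 50), (nat_lit 9)]⟩,
 ⟨⟨[(nat_lit 120), (nat_lit 140)], [(nat_lit 0), (nat_lit 266)], [((nat_lit 0), (nat_lit 0), (nat_lit 0)), ((nat_lit 960), (nat_lit 1000), (nat_lit 200))], ((nat_lit 100), (nat_lit 93), (nat_lit 28))⟩, (nat_lit 6296849), (nat_lit 376), (nat_lit 376), (nat_lit 0), (nat_lit 204381), [(nat_lit 3776832000), (nat_lit 4665108000)], [], [(nat_lit 23254898070), (nat_lit 19759821197), (nat_lit 18903364595), (nat_lit 19577588916), (nat_lit 23162157844), (nat_lit 22651851211), (nat_lit 28153773124), (nat_lit 25309901446)], (nat_lit 1271251), (nat_lit 1271251), (nat_lit 54688), (nat_lit 1414376), (nat_lit 0), (nat_lit 2825001), [(nat_lit 1695001), (nat_lit 1271251)], [(nat_lit 26), (nat_lit 58), (nat_lit 456), (nat_lit 225), (nat_lit 14)]⟩,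
 ⟨⟨[(nat_lit 120), (nat_lit 140)], [(nat_lit 0), (nat_lit 266)], [((nat_lit 0), (nat_lit 0), (nat_lit 0)), ((nat_lit 960), (nat_lit 1000), (nat_lit 200))], ((nat_lit 100), (nat_lit 93), (nat_lit 28))⟩, (nat_lit 3771323), (nat_lit 300), (nat_lit 328), (nat_lit 66400000), (nat_lit 204381), [(nat_lit 7968000000), (nat_lit 9842000000)], [], [(nat_lit 37052203970), (nat_lit 38410455700), (nat_lit 46041615601), (nat_lit 46265898641), (nat_lit 60194133104), (nat_lit 50862391286), (nat_lit 43982404636), (nat_lit 43491060161)], (nat_lit 1271251), (nat_lit 1271251), (nat_lit 1271251), (nat_lit 1271251), (nat_lit 0), (nat_lit 2825001), [(nat_lit 1695001), (nat_lit 1271251)], [(nat_lit 26), (nat_lit 58), (nat_lit 538), (nat_lit 300), (nat_lit 16)]⟩⟩))))) (.spl (nat_lit 1) (nat_lit 180) (.ord (.trX (nat_lit 3) (nat_lit 0) (nat_lit 1) (nat_lit 92) (nat_lit 49) (nat_lit 100) (nat_lit 380) (.trX (nat_lit 4) (nat_lit 0) (nat_lit 2) (nat_lit 92) (nat_lit 49) (nat_lit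 100) (nat_lit 380) (.dle (nat_lit 0))))) (.leaf ⟨(nat_lit 108), (nat_lit 287), (nat_lit 0), (nat_lit 605), (nat_lit 33715), (nat_lit 7039), (nat_lit 7976), (nat_lit 4022), (nat_lit 0), (nat_lit 414945), (nat_lit 432000), [((nat_lit 300), [((nat_lit 33), (nat_lit 5), (nat_lit 108))])], ⟨(nat_lit 5), false, true, true, (nat_lit 277), (nat_lit 5000), (nat_lit 5478), [(nat_lit 1478641), (nat_lit 1478570), (nat_lit 1542694), (nat_lit 1542837), (nat_lit 1853253), (nat_lit 1835659), (nat_lit 1917295), (nat_lit 1899915)]⟩, ⟨(nat_lit 5), false, false, true, (nat_lit 265), (nat_lit 5000), (nat_lit 5478), [(nat_lit 1414570), (nat_lit 1414284), (nat_lit 1542694), (nat_lit 1542837), (nat_lit 1789211), (nat_lit 1771403), (nat_lit 1917295), (nat_lit 1899915)]⟩, (nat_lit 5642046), (nat_lit 33333975), (nat_lit 17485281), (nat_lit 16180744), (nat_lit 5), (nat_lit 0), [], [], [], [],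
 ⟨⟨[(nat_lit 60), (nat_lit 80), (nat_lit 100)], [(nat_lit 0), (nat_lit 0), (nat_lit 534)], [((nat_lit 0), (nat_lit 0), (nat_lit 0)), ((nat_lit 0), (nat_lit 0), (nat_lit 0)), ((nat_lit 1000), (nat_lit 917), (nat_lit 393))], ((nat_lit 92), (nat_lit 100), (nat_lit 28))⟩, (nat_lit 3825847), (nat_lit 126), (nat_lit 126), (nat_lit 0), (nat_lit 117237), [(nat_lit 3546285292), (nat_lit 4286715845), (nat_lit 5265070555)], [(nat_lit 0), (nat_lit 0), (nat_lit 0)], [(nat_lit 16376283160), (nat_lit 17809896767), (nat_lit 31292853439), (nat_lit 32214196160), (nat_lit 31292853439), (nat_lit 32214196160), (nat_lit 39069405864), (nat_lit 39491669720)], (nat_lit 1271251), (nat_lit 1271251), (nat_lit 1271251), (nat_lit 1271251), (nat_lit 1271251), (nat_lit 1271251), [(nat_lit 780000), (nat_lit 1100000), (nat_lit 1442501)], [(nat_lit 9), (nat_lit 50), (nat_lit 203), (nat_lit 0), (nat_lit 6)]⟩,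
 ⟨⟨[(nat_lit 120), (nat_lit 140)], [(nat_lit 0), (nat_lit 266)], [((nat_lit 0), (nat_lit 0), (nat_lit 0)), ((nat_lit 960), (nat_lit 1000), (nat_lit 200))], ((nat_lit 100), (nat_lit 93), (nat_lit 28))⟩, (nat_lit 11774176), (nat_lit 328), (nat_lit 328), (nat_lit 0), (nat_lit 204381), [(nat_lit 7107456000), (nat_lit 8779064000)], [], [(nat_lit 31390144540), (nat_lit 28473504616), (nat_lit 36033717712), (nat_lit 36753293824), (nat_lit 56288506064), (nat_lit 45792106016), (nat_lit 36861676240), (nat_lit 36568696000)], (nat_lit 1271251), (nat_lit 1271251), (nat_lit 1271251), (nat_lit 1271251), (nat_lit 0), (nat_lit 2825001), [(nat_lit 1695001), (nat_lit 1271251)], [(nat_lit 26), (nat_lit 58), (nat_lit 538), (nat_lit 300), (nat_lit 16)]⟩,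
 ⟨⟨[(nat_lit 140), (nat_lit 160), (nat_lit 180)], [(nat_lit 0), (nat_lit 0), (nat_lit 799)], [((nat_lit 0), (nat_lit 0), (nat_lit 0)), ((nat_lit 0), (nat_lit 0), (nat_lit 0)), ((nat_lit 728), (nat_lit 1000), (nat_lit 454))], ((nat_lit 100), (nat_lit 84), (nat_lit 31))⟩, (nat_lit 531553), (nat_lit 300), (nat_lit 593), (nat_lit 44891000), (nat_lit 434224), [(nat_lit 5954410000), (nat_lit 7182560000), (nat_lit 8505090000)], [], [(nat_lit 40786290918), (nat_lit 40201899134), (nat_lit 42159915414), (nat_lit 41137042767), (nat_lit 38538446575), (nat_lit 45635178760), (nat_lit 38603355725), (nat_lit 37343970692)], (nat_lit 780000), (nat_lit 1762501), (nat_lit 1271251), (nat_lit 1271251), (nat_lit 0), (nat_lit 2825001), [(nat_lit 1977501), (nat_lit 1271251), (nat_lit 1271251)], [(nat_lit 31), (nat_lit 65), (nat_lit 538), (nat_lit 300), (nat_lit 13)]⟩⟩)))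
def l005 : List St := [⟨⟨(nat_lit 280), (nat_lit 300), (nat_lit 120), (nat_lit 240), (nat_lit 120), (nat_lit 240), (nat_lit 0), (nat_lit 40), (nat_lit 0), (nat_lit 120), (nat_lit 0), (nat_lit 400), (nat_lit 0), (nat_lit 8)⟩, (nat_lit 3), (nat_lit 3), (nat_lit 3), true, true, false⟩,
  ⟨⟨(nat_lit 280), (nat_lit 300), (nat_lit 120), (nat_lit 240), (nat_lit 120), (nat_lit 240), (nat_lit 40), (nat_lit 80), (nat_lit 0), (nat_lit 120), (nat_lit 0), (nat_lit 400), (nat_lit 0), (nat_lit 8)⟩, (nat_lit 3), (nat_lit 3), (nat_lit 3), true, true, false⟩,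
  ⟨⟨(nat_lit 280), (nat_lit 300), (nat_lit 120), (nat_lit 240), (nat_lit 120), (nat_lit 240), (nat_lit 80), (nat_lit 120), (nat_lit 0), (nat_lit 120), (nat_lit 0), (nat_lit 400), (nat_lit 0), (nat_lit 8)⟩, (nat_lit 3), (nat_lit 3), (nat_lit 3), true, true, false⟩,
  ⟨⟨(nat_lit 280), (nat_lit 300), (nat_lit 120), (nat_lit 240), (nat_lit 120), (nat_lit 240), (nat_lit 120), (nat_lit 200), (nat_lit 0), (nat_lit 120), (nat_lit 0), (nat_lit 400), (nat_lit 0), (nat_lit 8)⟩, (nat_lit 3), (nat_lit 3), (nat_lit 3), false, true, false⟩,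
  ⟨⟨(nat_lit 280), (nat_lit 300), (nat_lit 120), (nat_lit 240), (nat_lit 120), (nat_lit 240), (nat_lit 0), (nat_lit 200), (nat_lit 120), (nat_lit 200), (nat_lit 0), (nat_lit 400), (nat_lit 0), (nat_lit 8)⟩, (nat_lit 3), (nat_lit 3), (nat_lit 3), false, false, false⟩,
  ⟨⟨(nat_lit 280), (nat_lit 300), (nat_lit 120), (nat_lit 240), (nat_lit 120), (nat_lit 240), (nat_lit 200), (nat_lit 400), (nat_lit 0), (nat_lit 200), (nat_lit 0), (nat_lit 400), (nat_lit 0), (nat_lit 8)⟩, (nat_lit 3), (nat_lit 3), (nat_lit 3), false, false, false⟩,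
  ⟨⟨(nat_lit 280), (nat_lit 300), (nat_lit 120), (nat_lit 240), (nat_lit 120), (nat_lit 240), (nat_lit 0), (nat_lit 400), (nat_lit 200), (nat_lit 400), (nat_lit 0), (nat_lit 400), (nat_lit 0), (nat_lit 8)⟩, (nat_lit 3), (nat_lit 3), (nat_lit 3), false, false, false⟩]
theorem t005 (h : EC env Ei) : ∀ τ ∈ l005, Dead τ :=
  List.forall_mem_cons.mpr ⟨chkT_sound0 h (T := c5_0) (by decide +kernel),
  List.forall_mem_cons.mpr ⟨chkT_sound0 h (T := c5_1) (by decide +kernel),
  List.forall_mem_cons.mpr ⟨chkT_sound0 h (T := c5_2) (by decide +kernel),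
  List.forall_mem_cons.mpr ⟨chkT_sound0 h (T := c5_3) (by decide +kernel),
  List.forall_mem_cons.mpr ⟨chkT_sound0 h (T := c5_4) (by decide +kernel),
  List.forall_mem_cons.mpr ⟨chkT_sound0 h (T := c5_5) (by decide +kernel),
  List.forall_mem_cons.mpr ⟨chkT_sound0 h (T := c5_6) (by decide +kernel),
  List.forall_mem_nil _⟩⟩⟩⟩⟩⟩⟩
end TC
end Pool.Agent.Lib.MP_6947cd_al
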