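import Pool.Agent.Lib.MP_6947cd_al.C.LeafF
import Pool.Agent.Lib.MP_6947cd_al.TC.E
import Pool.Agent.Lib.MP_6947cd_al.TC.F

/-!
Problem MP_6947cd_al (Chollet).  CASE C, tables and certificates.  Trees of leaves (part 6 of root 6).
-/

set_option autoImplicit false
set_option linter.all false
set_option maxRecDepth 100000
set_option maxHeartbeats 4000000
namespace Pool.Agent.Lib.MP_6947cd_al
namespace TC
open C1
noncomputable def c6_0 : Tr Lf :=
 (.ord (.spl (nat_lit 6) (nat_lit 12) (.spl (nat_lit 5) (nat_lit 200) (.spl (nat_lit 1) (nat_lit 260) (.leaf ⟨(nat_lit 0), (nat_lit 1000), (nat_lit 0), (nat_lit 0), (nat_lit 31276), (nat_lit 5322), (nat_lit 9614), (nat_lit 0), (nat_lit 0), (nat_lit 0), (nat_lit 0), [], Pd.none, Pd.none, (nat_lit 0), (nat_lit 1), (nat_lit 0), (nat_lit 0), (nat_lit 3), (nat_lit 0), [⟨(nat_lit 0), (nat_lit 100), (nat_lit 93), (nat_lit 66), (nat_lit 918700417)⟩], [⟨(nat_lit 0), (nat_lit 100), (nat_lit 90), (nat_lit 54), (nat_lit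 23464339)⟩], [], [],
 ⟨⟨[(nat_lit 60), (nat_lit 80), (nat_lit 100)], [(nat_lit 0), (nat_lit 0), (nat_lit 534)], [((nat_lit 0), (nat_lit 0), (nat_lit 0)), ((nat_lit 0), (nat_lit 0), (nat_lit 0)), ((nat_lit 1000), (nat_lit 917), (nat_lit 393))], ((nat_lit 92), (nat_lit 100), (nat_lit 34))⟩, (nat_lit 6087583), (nat_lit 237), (nat_lit 237), (nat_lit 0), (nat_lit 33984), [(nat_lit 3282000006), (nat_lit 4688000002), (nat_lit 6250000000)], [], [(nat_lit 18788054111), (nat_lit 19788045117), (nat_lit 16762835408), (nat_lit 17677958504), (nat_lit 15877878749), (nat_lit 16789173179), (nat_lit 14423488768), (nat_lit 15307864302)], (nat_lit 1271251), (nat_lit 1271251), (nat_lit 169688), (nat_lit 490000), (nat_lit 0), (nat_lit 490000), [(nat_lit 780000), (nat_lit 1100000), (nat_lit 1442501)], [(nat_lit 9), (nat_lit 50), (nat_lit 249), (nat_lit 40), (nat_lit 10)]⟩,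
 ⟨⟨[(nat_lit 80), (nat_lit 100), (nat_lit 120)], [(nat_lit 0), (nat_lit 0), (nat_lit 511)], [((nat_lit 0), (nat_lit 0), (nat_lit 0)), ((nat_lit 0), (nat_lit 0), (nat_lit 0)), ((nat_lit 1000), (nat_lit 997), (nat_lit 383))], ((nat_lit 99), (nat_lit 100), (nat_lit 34))⟩, (nat_lit 8846978), (nat_lit 259), (nat_lit 259), (nat_lit 0), (nat_lit 62681), [(nat_lit 4688000000), (nat_lit 6250000000), (nat_lit 7968000000)], [], [(nat_lit 19423608308), (nat_lit 22902738913), (nat_lit 14487046458), (nat_lit 17064592082), (nat_lit 14628600624), (nat_lit 16652556217), (nat_lit 15922946740), (nat_lit 12767264382)], (nat_lit 1271251), (nat_lit 1271251), (nat_lit 169688), (nat_lit 490000), (nat_lit 0), (nat_lit 1412501), [(nat_lit 1100000), (nat_lit 1442501), (nat_lit 1271251)], [(nat_lit 16), (nat_lit 54), (nat_lit 289), (nat_lit 75), (nat_lit 10)]⟩,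
 Rw.none⟩) (.trZ (nat_lit 0) (nat_lit 1) (nat_lit 3) (nat_lit 100) (nat_lit 96) (nat_lit 69) (nat_lit 40) (.leaf ⟨(nat_lit 0), (nat_lit 1000), (nat_lit 0), (nat_lit 0), (nat_lit 51694), (nat_lit 5628), (nat_lit 8194), (nat_lit 0), (nat_lit 3628), (nat_lit 0), (nat_lit 0), [], Pd.none, Pd.none, (nat_lit 0), (nat_lit 1), (nat_lit 0), (nat_lit 0), (nat_lit 3), (nat_lit 0), [⟨(nat_lit 0), (nat_lit 100), (nat_lit 98), (nat_lit 79), (nat_lit 959840951)⟩], [⟨(nat_lit 0), (nat_lit 100), (nat_lit 90), (nat_lit 54), (nat_lit 41749967)⟩], [], [],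
 ⟨⟨[(nat_lit 60), (nat_lit 80), (nat_lit 100)], [(nat_lit 0), (nat_lit 0), (nat_lit 534)], [((nat_lit 0), (nat_lit 0), (nat_lit 0)), ((nat_lit 0), (nat_lit 0), (nat_lit 0)), ((nat_lit 1000), (nat_lit 917), (nat_lit 393))], ((nat_lit 92), (nat_lit 100), (nat_lit 34))⟩, (nat_lit 5972743), (nat_lit 238), (nat_lit 238), (nat_lit 0), (nat_lit 114760), [(nat_lit 3282000001), (nat_lit 4688000003), (nat_lit 6250000000)], [], [(nat_lit 18479162398), (nat_lit 19631659051), (nat_lit 16489592415), (nat_lit 17389327873), (nat_lit 15200944927), (nat_lit 16072780801), (nat_lit 13912297439), (nat_lit 14756246360)], (nat_lit 1271251), (nat_lit 1271251), (nat_lit 230000), (nat_lit 490000), (nat_lit 0), (nat_lit 490000), [(nat_lit 780000), (nat_lit 1100000), (nat_lit 1442501)], [(nat_lit 9), (nat_lit 50), (nat_lit 249), (nat_lit 40), (nat_lit 10)]⟩,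
 ⟨⟨[(nat_lit 80), (nat_lit 100), (nat_lit 120)], [(nat_lit 0), (nat_lit 265), (nat_lit 768)], [((nat_lit 0), (nat_lit 0), (nat_lit 0)), ((nat_lit 1000), (nat_lit 959), (nat_lit 206)), ((nat_lit 1000), (nat_lit 958), (nat_lit 392))], ((nat_lit 95), (nat_lit 100), (nat_lit 34))⟩, (nat_lit 24274886), (nat_lit 278), (nat_lit 278), (nat_lit 0), (nat_lit 183369), [(nat_lit 4688000000), (nat_lit 6250000000), (nat_lit 7968000000)], [], [(nat_lit 19447243899), (nat_lit 24442230986), (nat_lit 14949701118), (nat_lit 19627352484), (nat_lit 19596053123), (nat_lit 18192465455), (nat_lit 21216991335), (nat_lit 16003806233)], (nat_lit 1271251), (nat_lit 1271251), (nat_lit 230000), (nat_lit 490000), (nat_lit 0), (nat_lit 1412501), [(nat_lit 1100000), (nat_lit 1442501), (nat_lit 1271251)], [(nat_lit 16), (nat_lit 54), (nat_lit 289), (nat_lit 75), (nat_lit 10)]⟩,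
 Rw.none⟩))) (.spl (nat_lit 1) (nat_lit 260) (.leaf ⟨(nat_lit 0), (nat_lit 529), (nat_lit 0), (nat_lit 471), (nat_lit 23315), (nat_lit 5322), (nat_lit 6561), (nat_lit 4961), (nat_lit 0), (nat_lit 0), (nat_lit 0), [], Pd.none, Pd.none, (nat_lit 0), (nat_lit 1), (nat_lit 0), (nat_lit 0), (nat_lit 5), (nat_lit 0), [⟨(nat_lit 0), (nat_lit 100), (nat_lit 94), (nat_lit 73), (nat_lit 1245398765)⟩], [], [], [],
 ⟨⟨[(nat_lit 60), (nat_lit 80), (nat_lit 100)], [(nat_lit 0), (nat_lit 0), (nat_lit 534)], [((nat_lit 0), (nat_lit 0), (nat_lit 0)), ((nat_lit 0), (nat_lit 0), (nat_lit 0)), ((nat_lit 1000), (nat_lit 917), (nat_lit 393))], ((nat_lit 92), (nat_lit 100), (nat_lit 34))⟩, (nat_lit 6244429), (nat_lit 237), (nat_lit 237), (nat_lit 0), (nat_lit 33984), [(nat_lit 3282000017), (nat_lit 4688000007), (nat_lit 6250000000)], [], [(nat_lit 18704298347), (nat_lit 19788045117), (nat_lit 16734798544), (nat_lit 17677958520), (nat_lit 15868057384), (nat_lit 16789173195),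 (nat_lit 14423488784), (nat_lit 15307864318)], (nat_lit 1271251), (nat_lit 1271251), (nat_lit 169688), (nat_lit 490000), (nat_lit 0), (nat_lit 490000), [(nat_lit 780000), (nat_lit 1100000), (nat_lit 1442501)], [(nat_lit 9), (nat_lit 50), (nat_lit 249), (nat_lit 40), (nat_lit 10)]⟩,
 ⟨⟨[(nat_lit 80), (nat_lit 100), (nat_lit 120)], [(nat_lit 0), (nat_lit 0), (nat_lit 511)], [((nat_lit 0), (nat_lit 0), (nat_lit 0)), ((nat_lit 0), (nat_lit 0), (nat_lit 0)), ((nat_lit 1000), (nat_lit 997), (nat_lit 383))], ((nat_lit 99), (nat_lit 100), (nat_lit 34))⟩, (nat_lit 7410792), (nat_lit 189), (nat_lit 189), (nat_lit 0), (nat_lit 62681), [(nat_lit 4688000000), (nat_lit 6250000000), (nat_lit 7968000000)], [], [(nat_lit 19098233628), (nat_lit 20562052654), (nat_lit 17222904964), (nat_lit 18627721253), (nat_lit 33240456163), (nat_lit 34135694894), (nat_lit 30363673628), (nat_lit 31234292180)], (nat_lit 1271251), (nat_lit 1271251), (nat_lit 169688), (nat_lit 490000),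 (nat_lit 1271251), (nat_lit 1271251), [(nat_lit 1100000), (nat_lit 1442501), (nat_lit 1271251)], [(nat_lit 16), (nat_lit 54), (nat_lit 345), (nat_lit 125), (nat_lit 11)]⟩,
 ⟨⟨[(nat_lit 140), (nat_lit 160), (nat_lit 180)], [(nat_lit 0), (nat_lit 0), (nat_lit 799)], [((nat_lit 0), (nat_lit 0), (nat_lit 0)), ((nat_lit 0), (nat_lit 0), (nat_lit 0)), ((nat_lit 728), (nat_lit 1000), (nat_lit 454))], ((nat_lit 100), (nat_lit 79), (nat_lit 37))⟩, (nat_lit 413820), (nat_lit 300), (nat_lit 510), (nat_lit 34948200), (nat_lit 307201), [(nat_lit 4635582000), (nat_lit 5591712000), (nat_lit 6621318000)], [], [(nat_lit 26801525376), (nat_lit 25942032060), (nat_lit 23780762347), (nat_lit 23948967495), (nat_lit 28354246209), (nat_lit 27135454439), (nat_lit 25237524377), (nat_lit 23931019117)], (nat_lit 780000), (nat_lit 1598751), (nat_lit 0), (nat_lit 490000), (nat_lit 1271251), (nat_lit 1271251), [(nat_lit 1977501), (nat_lit 1271251), (nat_lit 1271251)], [(nat_lit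 31), (nat_lit 65), (nat_lit 401), (nat_lit 175), (nat_lit 10)]⟩⟩) (.trZ (nat_lit 0) (nat_lit 1) (nat_lit 3) (nat_lit 100) (nat_lit 96) (nat_lit 69) (nat_lit 40) (.spl (nat_lit 0) (nat_lit 285) (.ord (.leaf ⟨(nat_lit 0), (nat_lit 758), (nat_lit 0), (nat_lit 242), (nat_lit 9112), (nat_lit 5550), (nat_lit 6291), (nat_lit 2782), (nat_lit 65167), (nat_lit 0), (nat_lit 0), [], Pd.none, Pd.none, (nat_lit 0), (nat_lit 1), (nat_lit 0), (nat_lit 0), (nat_lit 5), (nat_lit 0), [⟨(nat_lit 0), (nat_lit 100), (nat_lit 98), (nat_lit 77), (nat_lit 1178224899)⟩], [⟨(nat_lit 0), (nat_lit 100), (nat_lit 92), (nat_lit 27), (nat_lit 351086676)⟩], [⟨(nat_lit 1), (nat_lit 50), (nat_lit 94), (nat_lit 100), (nat_lit 98920533)⟩], [],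
 ⟨⟨[(nat_lit 60), (nat_lit 80), (nat_lit 100)], [(nat_lit 0), (nat_lit 0), (nat_lit 534)], [((nat_lit 0), (nat_lit 0), (nat_lit 0)), ((nat_lit 0), (nat_lit 0), (nat_lit 0)), ((nat_lit 1000), (nat_lit 917), (nat_lit 393))], ((nat_lit 92), (nat_lit 100), (nat_lit 34))⟩, (nat_lit 6182364), (nat_lit 236), (nat_lit 236), (nat_lit 0), (nat_lit 87450), [(nat_lit 3282000008), (nat_lit 4688000011), (nat_lit 6250000000)], [], [(nat_lit 18337743124), (nat_lit 18847312649), (nat_lit 16462945019), (nat_lit 16946575719), (nat_lit 15226569019), (nat_lit 15695049832), (nat_lit 13990193019), (nat_lit 14443523944)], (nat_lit 1271251), (nat_lit 1271251), (nat_lit 230000), (nat_lit 490000), (nat_lit 0), (nat_lit 490000), [(nat_lit 780000), (nat_lit 1100000), (nat_lit 1442501)], [(nat_lit 9), (nat_lit 50), (nat_lit 249), (nat_lit 40), (nat_lit 10)]⟩,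
 ⟨⟨[(nat_lit 80), (nat_lit 100), (nat_lit 120)], [(nat_lit 0), (nat_lit 265), (nat_lit 768)], [((nat_lit 0), (nat_lit 0), (nat_lit 0)), ((nat_lit 1000), (nat_lit 959), (nat_lit 206)), ((nat_lit 1000), (nat_lit 958), (nat_lit 392))], ((nat_lit 95), (nat_lit 100), (nat_lit 34))⟩, (nat_lit 3711158), (nat_lit 208), (nat_lit 208), (nat_lit 0), (nat_lit 140222), [(nat_lit 4688000000), (nat_lit 6250000000), (nat_lit 7968000000)], [], [(nat_lit 24030387941), (nat_lit 23724260272), (nat_lit 25600412554), (nat_lit 22427562583), (nat_lit 33191467784), (nat_lit 34183399593), (nat_lit 31145706997), (nat_lit 31968467044)], (nat_lit 1271251), (nat_lit 1271251), (nat_lit 230000), (nat_lit 490000), (nat_lit 1271251), (nat_lit 1271251), [(nat_lit 1100000), (nat_lit 1442501), (nat_lit 1271251)], [(nat_lit 16), (nat_lit 54), (nat_lit 345), (nat_lit 125), (nat_lit 11)]⟩,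
 ⟨⟨[(nat_lit 140), (nat_lit 160), (nat_lit 180)], [(nat_lit 0), (nat_lit 0), (nat_lit 799)], [((nat_lit 0), (nat_lit 0), (nat_lit 0)), ((nat_lit 0), (nat_lit 0), (nat_lit 0)), ((nat_lit 728), (nat_lit 1000), (nat_lit 454))], ((nat_lit 100), (nat_lit 79), (nat_lit 37))⟩, (nat_lit 212621), (nat_lit 300), (nat_lit 782), (nat_lit 17956400), (nat_lit 829257), [(nat_lit 2381764000), (nat_lit 2873024000), (nat_lit 3402036000)], [], [(nat_lit 14788414856), (nat_lit 14000784845), (nat_lit 13206529320), (nat_lit 12446414225), (nat_lit 14757017768), (nat_lit 13894445724), (nat_lit 12993643416), (nat_lit 12171617500)], (nat_lit 780000), (nat_lit 1598751), (nat_lit 0), (nat_lit 490000), (nat_lit 1271251), (nat_lit 1271251), [(nat_lit 1977501), (nat_lit 1271251), (nat_lit 1271251)], [(nat_lit 31), (nat_lit 65), (nat_lit 401), (nat_lit 175), (nat_lit 10)]⟩⟩)) (.trZ (nat_lit 0) (nat_lit 1) (nat_lit 3) (nat_lit 100) (nat_lit 95) (nat_lit 71) (nat_lit 50) (.leaf ⟨(nat_lit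 0), (nat_lit 738), (nat_lit 0), (nat_lit 262), (nat_lit 3838), (nat_lit 5326), (nat_lit 6307), (nat_lit 3012), (nat_lit 1318291), (nat_lit 0), (nat_lit 0), [], Pd.none, Pd.none, (nat_lit 0), (nat_lit 1), (nat_lit 0), (nat_lit 0), (nat_lit 5), (nat_lit 0), [⟨(nat_lit 0), (nat_lit 100), (nat_lit 97), (nat_lit 80), (nat_lit 1155222291)⟩], [⟨(nat_lit 0), (nat_lit 100), (nat_lit 91), (nat_lit 30), (nat_lit 370512176)⟩], [⟨(nat_lit 1), (nat_lit 52), (nat_lit 94), (nat_lit 100), (nat_lit 174631597)⟩], [],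
 ⟨⟨[(nat_lit 60), (nat_lit 80), (nat_lit 100)], [(nat_lit 0), (nat_lit 75), (nat_lit 606)], [((nat_lit 0), (nat_lit 0), (nat_lit 0)), ((nat_lit 1000), (nat_lit 977), (nat_lit 59)), ((nat_lit 1000), (nat_lit 905), (nat_lit 411))], ((nat_lit 91), (nat_lit 100), (nat_lit 34))⟩, (nat_lit 6141766), (nat_lit 231), (nat_lit 231), (nat_lit 0), (nat_lit 114486), [(nat_lit 3282000467), (nat_lit 4688000289), (nat_lit 6250000000)], [], [(nat_lit 17840328317), (nat_lit 18334773950), (nat_lit 16741188870), (nat_lit 17212980274), (nat_lit 15276469981), (nat_lit 15729881296), (nat_lit 14397638647), (nat_lit 14840021908)], (nat_lit 1271251), (nat_lit 1271251), (nat_lit 292188), (nat_lit 490000), (nat_lit 0), (nat_lit 490000), [(nat_lit 780000), (nat_lit 1100000), (nat_lit 1442501)], [(nat_lit 9), (nat_lit 50), (nat_lit 249), (nat_lit 40), (nat_lit 10)]⟩,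
 ⟨⟨[(nat_lit 80), (nat_lit 100), (nat_lit 120)], [(nat_lit 0), (nat_lit 265), (nat_lit 768)], [((nat_lit 0), (nat_lit 0), (nat_lit 0)), ((nat_lit 1000), (nat_lit 959), (nat_lit 206)), ((nat_lit 1000), (nat_lit 958), (nat_lit 392))], ((nat_lit 95), (nat_lit 100), (nat_lit 34))⟩, (nat_lit 6523117), (nat_lit 214), (nat_lit 214), (nat_lit 0), (nat_lit 183554), [(nat_lit 4688000000), (nat_lit 6250000000), (nat_lit 7968000000)], [], [(nat_lit 22028594980), (nat_lit 23644697194), (nat_lit 21068557572), (nat_lit 22643086751), (nat_lit 32180461225), (nat_lit 33780229073), (nat_lit 30472997309), (nat_lit 31667193308)], (nat_lit 1271251), (nat_lit 1271251), (nat_lit 292188), (nat_lit 490000), (nat_lit 1271251), (nat_lit 1271251), [(nat_lit 1100000), (nat_lit 1442501), (nat_lit 1271251)], [(nat_lit 16), (nat_lit 54), (nat_lit 345), (nat_lit 125), (nat_lit 11)]⟩,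
 ⟨⟨[(nat_lit 140), (nat_lit 160), (nat_lit 180)], [(nat_lit 0), (nat_lit 0), (nat_lit 799)], [((nat_lit 0), (nat_lit 0), (nat_lit 0)), ((nat_lit 0), (nat_lit 0), (nat_lit 0)), ((nat_lit 728), (nat_lit 1000), (nat_lit 454))], ((nat_lit 100), (nat_lit 79), (nat_lit 37))⟩, (nat_lit 230193), (nat_lit 300), (nat_lit 921), (nat_lit 19440400), (nat_lit 1124065), [(nat_lit 2578604000), (nat_lit 3110464000), (nat_lit 3683196000)], [], [(nat_lit 16067213320), (nat_lit 15157614980), (nat_lit 14485984984), (nat_lit 13562702207), (nat_lit 15976488528), (nat_lit 15042592984), (nat_lit 14067322136), (nat_lit 13177325030)], (nat_lit 780000), (nat_lit 1598751), (nat_lit 0), (nat_lit 490000), (nat_lit 1271251), (nat_lit 1271251), [(nat_lit 1977501), (nat_lit 1271251), (nat_lit 1271251)], [(nat_lit 31), (nat_lit 65), (nat_lit 401), (nat_lit 175), (nat_lit 10)]⟩⟩)))))) (.spl (nat_lit 5) (nat_lit 200) (.spl (nat_lit 1) (nat_lit 260) (.dle (nat_lit 0)) (.trZ (nat_lit 0)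 (nat_lit 1) (nat_lit 3) (nat_lit 100) (nat_lit 96) (nat_lit 69) (nat_lit 40) (.leaf ⟨(nat_lit 0), (nat_lit 1000), (nat_lit 0), (nat_lit 0), (nat_lit 54663), (nat_lit 7856), (nat_lit 8768), (nat_lit 0), (nat_lit 345367), (nat_lit 0), (nat_lit 0), [], Pd.none, Pd.none, (nat_lit 0), (nat_lit 1), (nat_lit 0), (nat_lit 0), (nat_lit 3), (nat_lit 0), [⟨(nat_lit 0), (nat_lit 100), (nat_lit 100), (nat_lit 90), (nat_lit 1587813200)⟩], [⟨(nat_lit 0), (nat_lit 100), (nat_lit 92), (nat_lit 29), (nat_lit 142835392)⟩, ⟨(nat_lit 0), (nat_lit 100), (nat_lit 90), (nat_lit 54), (nat_lit 78065101)⟩], [], [],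
 ⟨⟨[(nat_lit 60), (nat_lit 100), (nat_lit 120)], [(nat_lit 0), (nat_lit 0), (nat_lit 1164)], [((nat_lit 0), (nat_lit 0), (nat_lit 0)), ((nat_lit 0), (nat_lit 0), (nat_lit 0)), ((nat_lit 1000), (nat_lit 933), (nat_lit 572))], ((nat_lit 92), (nat_lit 100), (nat_lit 44))⟩, (nat_lit 3907190), (nat_lit 232), (nat_lit 232), (nat_lit 0), (nat_lit 39163), [(nat_lit 3983829755), (nat_lit 6250000038), (nat_lit 7968000000)], [], [(nat_lit 22660506984), (nat_lit 23808905424), (nat_lit 19449237096), (nat_lit 20570864234), (nat_lit 16805617032), (nat_lit 17941645480), (nat_lit 14161996968), (nat_lit 15312426726)], (nat_lit 1271251), (nat_lit 1271251), (nat_lit 230000), (nat_lit 490000), (nat_lit 0), (nat_lit 490000), [(nat_lit 780000), (nat_lit 1435001), (nat_lit 1271251)], [(nat_lit 10), (nat_lit 54), (nat_lit 249), (nat_lit 40), (nat_lit 8)]⟩,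
 ⟨⟨[(nat_lit 80), (nat_lit 100), (nat_lit 120)], [(nat_lit 0), (nat_lit 265), (nat_lit 768)], [((nat_lit 0), (nat_lit 0), (nat_lit 0)), ((nat_lit 1000), (nat_lit 959), (nat_lit 206)), ((nat_lit 1000), (nat_lit 958), (nat_lit 392))], ((nat_lit 96), (nat_lit 100), (nat_lit 44))⟩, (nat_lit 7839383), (nat_lit 244), (nat_lit 244), (nat_lit 0), (nat_lit 62502), [(nat_lit 4688000000), (nat_lit 6250000000), (nat_lit 7968000000)], [], [(nat_lit 20270293028), (nat_lit 25518329306), (nat_lit 15645916936), (nat_lit 20324783148), (nat_lit 14884260960), (nat_lit 18504618135), (nat_lit 12052163300), (nat_lit 14805638880)], (nat_lit 1271251), (nat_lit 1271251), (nat_lit 230000), (nat_lit 490000), (nat_lit 0), (nat_lit 1412501), [(nat_lit 1100000), (nat_lit 1442501), (nat_lit 1271251)], [(nat_lit 16), (nat_lit 54), (nat_lit 289), (nat_lit 75), (nat_lit 10)]⟩,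
 Rw.none⟩))) (.spl (nat_lit 0) (nat_lit 285) (.ord (.leaf ⟨(nat_lit 0), (nat_lit 432), (nat_lit 0), (nat_lit 568), (nat_lit 46891), (nat_lit 5681), (nat_lit 8671), (nat_lit 5983), (nat_lit 1138680), (nat_lit 0), (nat_lit 0), [], Pd.none, Pd.none, (nat_lit 0), (nat_lit 1), (nat_lit 0), (nat_lit 0), (nat_lit 5), (nat_lit 0), [⟨(nat_lit 0), (nat_lit 100), (nat_lit 100), (nat_lit 85), (nat_lit 1529803029)⟩], [], [], [],
 ⟨⟨[(nat_lit 60), (nat_lit 100), (nat_lit 120)], [(nat_lit 0), (nat_lit 0), (nat_lit 1164)], [((nat_lit 0), (nat_lit 0), (nat_lit 0)), ((nat_lit 0), (nat_lit 0), (nat_lit 0)), ((nat_lit 1000), (nat_lit 933), (nat_lit 572))], ((nat_lit 92), (nat_lit 100), (nat_lit 44))⟩, (nat_lit 3587294), (nat_lit 236), (nat_lit 236), (nat_lit 0), (nat_lit 17075), [(nat_lit 3282000528), (nat_lit 6250000047), (nat_lit 7968000000)], [], [(nat_lit 22296140100), (nat_lit 22766854604), (nat_lit 19621089777), (nat_lit 20073902264), (nat_lit 18640483133), (nat_lit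 19082332630), (nat_lit 17006138725), (nat_lit 17430432047)], (nat_lit 1271251), (nat_lit 1271251), (nat_lit 169688), (nat_lit 490000), (nat_lit 0), (nat_lit 490000), [(nat_lit 780000), (nat_lit 1435001), (nat_lit 1271251)], [(nat_lit 10), (nat_lit 54), (nat_lit 249), (nat_lit 40), (nat_lit 9)]⟩,
 ⟨⟨[(nat_lit 80), (nat_lit 120), (nat_lit 140)], [(nat_lit 0), (nat_lit 0), (nat_lit 1164)], [((nat_lit 0), (nat_lit 0), (nat_lit 0)), ((nat_lit 0), (nat_lit 0), (nat_lit 0)), ((nat_lit 941), (nat_lit 1000), (nat_lit 576))], ((nat_lit 100), (nat_lit 99), (nat_lit 44))⟩, (nat_lit 3512580), (nat_lit 217), (nat_lit 217), (nat_lit 0), (nat_lit 41112), [(nat_lit 4688000000), (nat_lit 7968000000), (nat_lit 9842000000)], [], [(nat_lit 21074822578), (nat_lit 24835731426), (nat_lit 18348435204), (nat_lit 21161340342), (nat_lit 37489317868), (nat_lit 40289744568), (nat_lit 33227663416), (nat_lit 35202811228)], (nat_lit 1271251), (nat_lit 1271251), (nat_lit 169688),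 (nat_lit 490000), (nat_lit 1271251), (nat_lit 1271251), [(nat_lit 1100000), (nat_lit 1785001), (nat_lit 1271251)], [(nat_lit 17), (nat_lit 58), (nat_lit 428), (nat_lit 200), (nat_lit 12)]⟩,
 ⟨⟨[(nat_lit 140), (nat_lit 160), (nat_lit 180)], [(nat_lit 0), (nat_lit 0), (nat_lit 799)], [((nat_lit 0), (nat_lit 0), (nat_lit 0)), ((nat_lit 0), (nat_lit 0), (nat_lit 0)), ((nat_lit 728), (nat_lit 1000), (nat_lit 454))], ((nat_lit 100), (nat_lit 71), (nat_lit 48))⟩, (nat_lit 499044), (nat_lit 300), (nat_lit 442), (nat_lit 42145600), (nat_lit 154075), [(nat_lit 5590256000), (nat_lit 6743296000), (nat_lit 7984944000)], [], [(nat_lit 31306680387), (nat_lit 30501987069), (nat_lit 27480425110), (nat_lit 28881244514), (nat_lit 34193182395), (nat_lit 32723796422), (nat_lit 30219810570), (nat_lit 28745237807)], (nat_lit 780000), (nat_lit 1598751), (nat_lit 0), (nat_lit 490000), (nat_lit 1271251), (nat_lit 1271251), [(nat_lit 1977501), (nat_lit 1271251), (nat_lit 1271251)],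 [(nat_lit 31), (nat_lit 65), (nat_lit 401), (nat_lit 175), (nat_lit 10)]⟩⟩)) (.leaf ⟨(nat_lit 50), (nat_lit 613), (nat_lit 0), (nat_lit 337), (nat_lit 25989), (nat_lit 5573), (nat_lit 7393), (nat_lit 3994), (nat_lit 17925), (nat_lit 0), (nat_lit 200000), [((nat_lit 290), [((nat_lit 33), (nat_lit 5), (nat_lit 50))])], ⟨(nat_lit 6), false, false, false, (nat_lit 121), (nat_lit 5244), (nat_lit 5362), [(nat_lit 1228028), (nat_lit 1231792), (nat_lit 1281451), (nat_lit 1285256), (nat_lit 1320589), (nat_lit 1323256), (nat_lit 1374013), (nat_lit 1376719)]⟩, ⟨(nat_lit 3), false, false, false, (nat_lit 69), (nat_lit 5244), (nat_lit 5362), [(nat_lit 1044274), (nat_lit 1048601), (nat_lit 1151121), (nat_lit 1155528), (nat_lit 1192373), (nat_lit 1194943), (nat_lit 1299220), (nat_lit 1301871)]⟩, (nat_lit 2411709), (nat_lit 58503447), (nat_lit 5949143), (nat_lit 2547410), (nat_lit 5), (nat_lit 0), [⟨(nat_lit 0), (nat_lit 100), (nat_lit 95), (nat_lit 75), (nat_lit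 1320413566)⟩], [⟨(nat_lit 0), (nat_lit 100), (nat_lit 99), (nat_lit 3), (nat_lit 470968028)⟩], [⟨(nat_lit 1), (nat_lit 47), (nat_lit 96), (nat_lit 100), (nat_lit 146425490)⟩], [],
 ⟨⟨[(nat_lit 60), (nat_lit 100), (nat_lit 120)], [(nat_lit 0), (nat_lit 151), (nat_lit 1267)], [((nat_lit 0), (nat_lit 0), (nat_lit 0)), ((nat_lit 1000), (nat_lit 977), (nat_lit 59)), ((nat_lit 1000), (nat_lit 921), (nat_lit 595))], ((nat_lit 91), (nat_lit 100), (nat_lit 44))⟩, (nat_lit 3313344), (nat_lit 235), (nat_lit 235), (nat_lit 0), (nat_lit 38973), [(nat_lit 3227280006), (nat_lit 5777160004), (nat_lit 7058900000)], [(nat_lit 0), (nat_lit 0), (nat_lit 0)], [(nat_lit 21753606629), (nat_lit 22219044360), (nat_lit 19158554265), (nat_lit 19605811598), (nat_lit 18196334257), (nat_lit 18633203300), (nat_lit 16592634243), (nat_lit 17012189469)], (nat_lit 1271251), (nat_lit 1271251), (nat_lit 169688), (nat_lit 490000), (nat_lit 0), (nat_lit 490000), [(nat_lit 780000), (nat_lit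 1435001), (nat_lit 1271251)], [(nat_lit 10), (nat_lit 54), (nat_lit 249), (nat_lit 40), (nat_lit 8)]⟩,
 ⟨⟨[(nat_lit 80), (nat_lit 120), (nat_lit 140)], [(nat_lit 0), (nat_lit 0), (nat_lit 1164)], [((nat_lit 0), (nat_lit 0), (nat_lit 0)), ((nat_lit 0), (nat_lit 0), (nat_lit 0)), ((nat_lit 941), (nat_lit 1000), (nat_lit 576))], ((nat_lit 100), (nat_lit 99), (nat_lit 44))⟩, (nat_lit 2737852), (nat_lit 225), (nat_lit 225), (nat_lit 0), (nat_lit 64844), [(nat_lit 4453600000), (nat_lit 7569600000), (nat_lit 9349900000)], [], [(nat_lit 21067911649), (nat_lit 24780201380), (nat_lit 18994830132), (nat_lit 21710497784), (nat_lit 34898206080), (nat_lit 36915255791), (nat_lit 31507932128), (nat_lit 33506186693)], (nat_lit 1271251), (nat_lit 1271251), (nat_lit 169688), (nat_lit 490000), (nat_lit 1271251), (nat_lit 1271251), [(nat_lit 1100000), (nat_lit 1785001), (nat_lit 1271251)], [(nat_lit 17), (nat_lit 58), (nat_lit 428), (nat_lit 200), (nat_lit 12)]⟩,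
 ⟨⟨[(nat_lit 140), (nat_lit 160), (nat_lit 180)], [(nat_lit 0), (nat_lit 0), (nat_lit 799)], [((nat_lit 0), (nat_lit 0), (nat_lit 0)), ((nat_lit 0), (nat_lit 0), (nat_lit 0)), ((nat_lit 728), (nat_lit 1000), (nat_lit 454))], ((nat_lit 100), (nat_lit 71), (nat_lit 48))⟩, (nat_lit 296088), (nat_lit 300), (nat_lit 568), (nat_lit 25005400), (nat_lit 375250), [(nat_lit 3316754000), (nat_lit 4000864000), (nat_lit 4737546000)], [], [(nat_lit 19717462258), (nat_lit 18813777909), (nat_lit 17242912113), (nat_lit 17296763121), (nat_lit 20379626024), (nat_lit 19323421799), (nat_lit 17838974308), (nat_lit 16643240021)], (nat_lit 780000), (nat_lit 1598751), (nat_lit 0), (nat_lit 490000), (nat_lit 1271251), (nat_lit 1271251), [(nat_lit 1977501), (nat_lit 1271251), (nat_lit 1271251)], [(nat_lit 31), (nat_lit 65), (nat_lit 401), (nat_lit 175), (nat_lit 10)]⟩⟩)))))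
noncomputable def c6_1 : Tr Lf :=
 (.trZ (nat_lit 0) (nat_lit 1) (nat_lit 3) (nat_lit 100) (nat_lit 91) (nat_lit 63) (nat_lit 40) (.spl (nat_lit 1) (nat_lit 280) (.spl (nat_lit 5) (nat_lit 200) (.spl (nat_lit 1) (nat_lit 260) (.spl (nat_lit 6) (nat_lit 12) (.leaf ⟨(nat_lit 0), (nat_lit 1000), (nat_lit 0), (nat_lit 0), (nat_lit 33320), (nat_lit 4356), (nat_lit 6217), (nat_lit 0), (nat_lit 0), (nat_lit 0), (nat_lit 0), [], Pd.none, Pd.none, (nat_lit 0), (nat_lit 1), (nat_lit 0), (nat_lit 0), (nat_lit 3), (nat_lit 0), [⟨(nat_lit 0), (nat_lit 100), (nat_lit 91), (nat_lit 70), (nat_lit 1749351098)⟩], [], [], [],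
 ⟨⟨[(nat_lit 60), (nat_lit 80), (nat_lit 100)], [(nat_lit 0), (nat_lit 151), (nat_lit 679)], [((nat_lit 0), (nat_lit 0), (nat_lit 0)), ((nat_lit 1000), (nat_lit 953), (nat_lit 118)), ((nat_lit 1000), (nat_lit 894), (nat_lit 411))], ((nat_lit 90), (nat_lit 100), (nat_lit 34))⟩, (nat_lit 16022796), (nat_lit 229), (nat_lit 229), (nat_lit 0), (nat_lit 65147), [(nat_lit 3282000002), (nat_lit 4688000003), (nat_lit 6250000000)], [], [(nat_lit 17403896108), (nat_lit 18347993894), (nat_lit 16308202817), (nat_lit 17191375752), (nat_lit 15469003519), (nat_lit 16315875978), (nat_lit 14629804221), (nat_lit 15440376204)], (nat_lit 1271251), (nat_lit 1271251), (nat_lit 230000), (nat_lit 490000), (nat_lit 0), (nat_lit 490000), [(nat_lit 780000), (nat_lit 1100000), (nat_lit 1442501)], [(nat_lit 9), (nat_lit 50), (nat_lit 249), (nat_lit 40), (nat_lit 10)]⟩,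
 ⟨⟨[(nat_lit 80), (nat_lit 100), (nat_lit 120)], [(nat_lit 0), (nat_lit 0), (nat_lit 511)], [((nat_lit 0), (nat_lit 0), (nat_lit 0)), ((nat_lit 0), (nat_lit 0), (nat_lit 0)), ((nat_lit 1000), (nat_lit 997), (nat_lit 383))], ((nat_lit 99), (nat_lit 100), (nat_lit 34))⟩, (nat_lit 0), (nat_lit 259), (nat_lit 259), (nat_lit 0), (nat_lit 125423), [(nat_lit 4688000000), (nat_lit 6250000000), (nat_lit 7968000000)], [], [(nat_lit 37013260460), (nat_lit 33798856974), (nat_lit 30488419488), (nat_lit 27322033001), (nat_lit 25296666773), (nat_lit 26259887700), (nat_lit 24237481158), (nat_lit 25166225411)], (nat_lit 1271251), (nat_lit 1271251), (nat_lit 230000), (nat_lit 490000), (nat_lit 0), (nat_lit 1412501), [(nat_lit 1100000), (nat_lit 1442501), (nat_lit 1271251)], [(nat_lit 16), (nat_lit 54), (nat_lit 289), (nat_lit 75), (nat_lit 10)]⟩,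
 Rw.none⟩) (.dle (nat_lit 0))) (.trZ (nat_lit 0) (nat_lit 1) (nat_lit 3) (nat_lit 100) (nat_lit 94) (nat_lit 73) (nat_lit 50) (.leaf ⟨(nat_lit 0), (nat_lit 1000), (nat_lit 0), (nat_lit 0), (nat_lit 55797), (nat_lit 5496), (nat_lit 8761), (nat_lit 0), (nat_lit 0), (nat_lit 0), (nat_lit 0), [], Pd.none, Pd.none, (nat_lit 0), (nat_lit 1), (nat_lit 0), (nat_lit 0), (nat_lit 3), (nat_lit 0), [⟨(nat_lit 0), (nat_lit 100), (nat_lit 94), (nat_lit 80), (nat_lit 815789612)⟩], [⟨(nat_lit 0), (nat_lit 100), (nat_lit 87), (nat_lit 59), (nat_lit 40298389)⟩], [], [],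
 ⟨⟨[(nat_lit 60), (nat_lit 80), (nat_lit 100)], [(nat_lit 0), (nat_lit 151), (nat_lit 679)], [((nat_lit 0), (nat_lit 0), (nat_lit 0)), ((nat_lit 1000), (nat_lit 953), (nat_lit 118)), ((nat_lit 1000), (nat_lit 894), (nat_lit 411))], ((nat_lit 89), (nat_lit 100), (nat_lit 44))⟩, (nat_lit 5888159), (nat_lit 228), (nat_lit 228), (nat_lit 0), (nat_lit 113849), [(nat_lit 3282000023), (nat_lit 4688000563), (nat_lit 6250000000)], [], [(nat_lit 18625441788), (nat_lit 19889667468), (nat_lit 16712506050), (nat_lit 17600520360), (nat_lit 15126030233), (nat_lit 15978953741), (nat_lit 14174144742), (nat_lit 15006499022)], (nat_lit 1271251), (nat_lit 1271251), (nat_lit 292188), (nat_lit 490000), (nat_lit 0), (nat_lit 490000), [(nat_lit 780000), (nat_lit 1100000), (nat_lit 1442501)], [(nat_lit 9), (nat_lit 50), (nat_lit 249), (nat_lit 40), (nat_lit 10)]⟩,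
 ⟨⟨[(nat_lit 80), (nat_lit 100), (nat_lit 120)], [(nat_lit 0), (nat_lit 265), (nat_lit 768)], [((nat_lit 0), (nat_lit 0), (nat_lit 0)), ((nat_lit 1000), (nat_lit 959), (nat_lit 206)), ((nat_lit 1000), (nat_lit 958), (nat_lit 392))], ((nat_lit 96), (nat_lit 100), (nat_lit 44))⟩, (nat_lit 23562180), (nat_lit 267), (nat_lit 267), (nat_lit 0), (nat_lit 194137), [(nat_lit 4688000000), (nat_lit 6250000000), (nat_lit 7968000000)], [], [(nat_lit 18980387709), (nat_lit 22465445297), (nat_lit 15140783304), (nat_lit 18591113032), (nat_lit 19386350615), (nat_lit 16215156113), (nat_lit 20915024578), (nat_lit 16868125936)], (nat_lit 1271251), (nat_lit 1271251), (nat_lit 292188), (nat_lit 490000), (nat_lit 0), (nat_lit 1412501), [(nat_lit 1100000), (nat_lit 1442501), (nat_lit 1271251)], [(nat_lit 16), (nat_lit 54), (nat_lit 289), (nat_lit 75), (nat_lit 10)]⟩,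
 Rw.none⟩))) (.spl (nat_lit 1) (nat_lit 260) (.spl (nat_lit 6) (nat_lit 12) (.leaf ⟨(nat_lit 0), (nat_lit 680), (nat_lit 0), (nat_lit 320), (nat_lit 10163), (nat_lit 4960), (nat_lit 6530), (nat_lit 3679), (nat_lit 0), (nat_lit 0), (nat_lit 0), [], Pd.none, Pd.none, (nat_lit 0), (nat_lit 1), (nat_lit 0), (nat_lit 0), (nat_lit 5), (nat_lit 0), [⟨(nat_lit 0), (nat_lit 100), (nat_lit 91), (nat_lit 70), (nat_lit 1236630917)⟩], [⟨(nat_lit 0), (nat_lit 100), (nat_lit 97), (nat_lit 6), (nat_lit 402402223)⟩], [⟨(nat_lit 1), (nat_lit 40), (nat_lit 98), (nat_lit 100), (nat_lit 157418481)⟩], [],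
 ⟨⟨[(nat_lit 60), (nat_lit 80), (nat_lit 100)], [(nat_lit 0), (nat_lit 151), (nat_lit 679)], [((nat_lit 0), (nat_lit 0), (nat_lit 0)), ((nat_lit 1000), (nat_lit 953), (nat_lit 118)), ((nat_lit 1000), (nat_lit 894), (nat_lit 411))], ((nat_lit 90), (nat_lit 100), (nat_lit 34))⟩, (nat_lit 6027609), (nat_lit 229), (nat_lit 229), (nat_lit 0), (nat_lit 65147), [(nat_lit 3282000017), (nat_lit 4688000018), (nat_lit 6250000000)], [], [(nat_lit 18490475406), (nat_lit 19569092540), (nat_lit 17161150356), (nat_lit 18066044036), (nat_lit 16105706676), (nat_lit 16982649076), (nat_lit 15050262996), (nat_lit 15899254116)], (nat_lit 1271251), (nat_lit 1271251), (nat_lit 230000), (nat_lit 490000), (nat_lit 0), (nat_lit 490000), [(nat_lit 780000), (nat_lit 1100000), (nat_lit 1442501)], [(nat_lit 9), (nat_lit 50), (nat_lit 249), (nat_lit 40), (nat_lit 10)]⟩,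
 ⟨⟨[(nat_lit 80), (nat_lit 100), (nat_lit 120)], [(nat_lit 0), (nat_lit 0), (nat_lit 511)], [((nat_lit 0), (nat_lit 0), (nat_lit 0)), ((nat_lit 0), (nat_lit 0), (nat_lit 0)), ((nat_lit 1000), (nat_lit 997), (nat_lit 383))], ((nat_lit 99), (nat_lit 100), (nat_lit 34))⟩, (nat_lit 5321296), (nat_lit 201), (nat_lit 201), (nat_lit 0), (nat_lit 125423), [(nat_lit 4688000000), (nat_lit 6250000000), (nat_lit 7968000000)], [], [(nat_lit 19828611454), (nat_lit 21145574992), (nat_lit 18280556144), (nat_lit 19555898159), (nat_lit 32649480144), (nat_lit 33533998820), (nat_lit 30361701080), (nat_lit 31230653400)], (nat_lit 1271251), (nat_lit 1271251), (nat_lit 230000), (nat_lit 490000), (nat_lit 1271251), (nat_lit 1271251), [(nat_lit 1100000), (nat_lit 1442501), (nat_lit 1271251)], [(nat_lit 16), (nat_lit 54), (nat_lit 345), (nat_lit 125), (nat_lit 11)]⟩,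
 ⟨⟨[(nat_lit 140), (nat_lit 160), (nat_lit 180)], [(nat_lit 0), (nat_lit 0), (nat_lit 799)], [((nat_lit 0), (nat_lit 0), (nat_lit 0)), ((nat_lit 0), (nat_lit 0), (nat_lit 0)), ((nat_lit 728), (nat_lit 1000), (nat_lit 454))], ((nat_lit 100), (nat_lit 79), (nat_lit 37))⟩, (nat_lit 281151), (nat_lit 300), (nat_lit 672), (nat_lit 23744002), (nat_lit 613829), [(nat_lit 3149440000), (nat_lit 3799040000), (nat_lit 4498560000)], [], [(nat_lit 18893382262), (nat_lit 18049201706), (nat_lit 16781253256), (nat_lit 16383022242), (nat_lit 19512954812), (nat_lit 18372221118), (nat_lit 17180991504), (nat_lit 16093877947)], (nat_lit 780000), (nat_lit 1598751), (nat_lit 0), (nat_lit 490000), (nat_lit 1271251), (nat_lit 1271251), [(nat_lit 1977501), (nat_lit 1271251), (nat_lit 1271251)], [(nat_lit 31), (nat_lit 65), (nat_lit 401), (nat_lit 175), (nat_lit 10)]⟩⟩) (.dle (nat_lit 0))) (.trZ (nat_lit 0) (nat_lit 1) (nat_lit 3) (nat_lit 100) (nat_lit 94) (nat_lit 73) (nat_lit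 50) (.leaf ⟨(nat_lit 0), (nat_lit 748), (nat_lit 0), (nat_lit 252), (nat_lit 6764), (nat_lit 5087), (nat_lit 6700), (nat_lit 2886), (nat_lit 0), (nat_lit 0), (nat_lit 0), [], Pd.none, Pd.none, (nat_lit 0), (nat_lit 1), (nat_lit 0), (nat_lit 0), (nat_lit 5), (nat_lit 0), [⟨(nat_lit 0), (nat_lit 100), (nat_lit 94), (nat_lit 80), (nat_lit 1274343274)⟩], [⟨(nat_lit 0), (nat_lit 100), (nat_lit 89), (nat_lit 34), (nat_lit 356628155)⟩], [⟨(nat_lit 1), (nat_lit 49), (nat_lit 95), (nat_lit 100), (nat_lit 171999197)⟩], [],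
 ⟨⟨[(nat_lit 60), (nat_lit 80), (nat_lit 100)], [(nat_lit 0), (nat_lit 151), (nat_lit 679)], [((nat_lit 0), (nat_lit 0), (nat_lit 0)), ((nat_lit 1000), (nat_lit 953), (nat_lit 118)), ((nat_lit 1000), (nat_lit 894), (nat_lit 411))], ((nat_lit 89), (nat_lit 100), (nat_lit 44))⟩, (nat_lit 5951904), (nat_lit 228), (nat_lit 228), (nat_lit 0), (nat_lit 113849), [(nat_lit 3282000007), (nat_lit 4688000034), (nat_lit 6250000000)], [], [(nat_lit 18119584310), (nat_lit 19130438775), (nat_lit 17077582890), (nat_lit 17952898149), (nat_lit 15674562233), (nat_lit 16541186791), (nat_lit 14832754986), (nat_lit 15694159975)], (nat_lit 1271251), (nat_lit 1271251), (nat_lit 292188), (nat_lit 490000), (nat_lit 0), (nat_lit 490000), [(nat_lit 780000), (nat_lit 1100000), (nat_lit 1442501)], [(nat_lit 9), (nat_lit 50), (nat_lit 249), (nat_lit 40), (nat_lit 10)]⟩,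
 ⟨⟨[(nat_lit 80), (nat_lit 100), (nat_lit 120)], [(nat_lit 0), (nat_lit 265), (nat_lit 768)], [((nat_lit 0), (nat_lit 0), (nat_lit 0)), ((nat_lit 1000), (nat_lit 959), (nat_lit 206)), ((nat_lit 1000), (nat_lit 958), (nat_lit 392))], ((nat_lit 96), (nat_lit 100), (nat_lit 44))⟩, (nat_lit 4552228), (nat_lit 216), (nat_lit 216), (nat_lit 0), (nat_lit 194137), [(nat_lit 4688000000), (nat_lit 6250000000), (nat_lit 7968000000)], [], [(nat_lit 22923597808), (nat_lit 23935237564), (nat_lit 21838921276), (nat_lit 22824682676), (nat_lit 32932639350), (nat_lit 34027958050), (nat_lit 30674321676), (nat_lit 31761961000)], (nat_lit 1271251), (nat_lit 1271251), (nat_lit 292188), (nat_lit 490000), (nat_lit 1271251), (nat_lit 1271251), [(nat_lit 1100000), (nat_lit 1442501), (nat_lit 1271251)], [(nat_lit 16), (nat_lit 54), (nat_lit 345), (nat_lit 125), (nat_lit 11)]⟩,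
 ⟨⟨[(nat_lit 140), (nat_lit 160), (nat_lit 180)], [(nat_lit 0), (nat_lit 0), (nat_lit 799)], [((nat_lit 0), (nat_lit 0), (nat_lit 0)), ((nat_lit 0), (nat_lit 0), (nat_lit 0)), ((nat_lit 728), (nat_lit 1000), (nat_lit 454))], ((nat_lit 100), (nat_lit 71), (nat_lit 48))⟩, (nat_lit 221407), (nat_lit 300), (nat_lit 922), (nat_lit 18698400), (nat_lit 1128634), [(nat_lit 2480184000), (nat_lit 2991744000), (nat_lit 3542616000)], [], [(nat_lit 15501484212), (nat_lit 14613742239), (nat_lit 13987156584), (nat_lit 13103713869), (nat_lit 15382390440), (nat_lit 14489022012), (nat_lit 13553922720), (nat_lit 12702591522)], (nat_lit 780000), (nat_lit 1598751), (nat_lit 0), (nat_lit 490000), (nat_lit 1271251), (nat_lit 1271251), [(nat_lit 1977501), (nat_lit 1271251), (nat_lit 1271251)], [(nat_lit 31), (nat_lit 65), (nat_lit 401), (nat_lit 175), (nat_lit 10)]⟩⟩)))) (.trZ (nat_lit 0) (nat_lit 1) (nat_lit 3) (nat_lit 100) (nat_lit 97) (nat_lit 84) (nat_lit 70) (.spl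 (nat_lit 5) (nat_lit 200) (.leaf ⟨(nat_lit 0), (nat_lit 1000), (nat_lit 0), (nat_lit 0), (nat_lit 0), (nat_lit 6435), (nat_lit 11998), (nat_lit 0), (nat_lit 5307), (nat_lit 0), (nat_lit 0), [], Pd.none, Pd.none, (nat_lit 0), (nat_lit 1), (nat_lit 0), (nat_lit 0), (nat_lit 3), (nat_lit 0), [⟨(nat_lit 0), (nat_lit 100), (nat_lit 97), (nat_lit 84), (nat_lit 1776843251)⟩], [⟨(nat_lit 0), (nat_lit 100), (nat_lit 87), (nat_lit 59), (nat_lit 142499318)⟩], [], [],
 ⟨⟨[(nat_lit 60), (nat_lit 80), (nat_lit 100)], [(nat_lit 0), (nat_lit 151), (nat_lit 679)], [((nat_lit 0), (nat_lit 0), (nat_lit 0)), ((nat_lit 1000), (nat_lit 953), (nat_lit 118)), ((nat_lit 1000), (nat_lit 894), (nat_lit 411))], ((nat_lit 89), (nat_lit 100), (nat_lit 44))⟩, (nat_lit 4517330), (nat_lit 222), (nat_lit 222), (nat_lit 0), (nat_lit 166833), [(nat_lit 3282000001), (nat_lit 4908271433), (nat_lit 6250000000)], [], [(nat_lit 18403720821), (nat_lit 19796052982), (nat_lit 17508547890),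 (nat_lit 18877710600), (nat_lit 13958213664), (nat_lit 14996358815), (nat_lit 13493512669), (nat_lit 14481605330)], (nat_lit 1271251), (nat_lit 1271251), (nat_lit 422188), (nat_lit 490000), (nat_lit 0), (nat_lit 490000), [(nat_lit 780000), (nat_lit 1100000), (nat_lit 1442501)], [(nat_lit 9), (nat_lit 50), (nat_lit 249), (nat_lit 40), (nat_lit 10)]⟩,
 ⟨⟨[(nat_lit 60), (nat_lit 100), (nat_lit 120)], [(nat_lit 0), (nat_lit 0), (nat_lit 1164)], [((nat_lit 0), (nat_lit 0), (nat_lit 0)), ((nat_lit 0), (nat_lit 0), (nat_lit 0)), ((nat_lit 1000), (nat_lit 933), (nat_lit 572))], ((nat_lit 92), (nat_lit 100), (nat_lit 44))⟩, (nat_lit 1563833), (nat_lit 283), (nat_lit 283), (nat_lit 0), (nat_lit 255493), [(nat_lit 3282000000), (nat_lit 6250000000), (nat_lit 7968000000)], [], [(nat_lit 23878486412), (nat_lit 28282641042), (nat_lit 22567395836), (nat_lit 26444280680), (nat_lit 16285304898), (nat_lit 18574670871), (nat_lit 16317908548), (nat_lit 17509652704)],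 (nat_lit 1271251), (nat_lit 1271251), (nat_lit 422188), (nat_lit 490000), (nat_lit 0), (nat_lit 1412501), [(nat_lit 780000), (nat_lit 1435001), (nat_lit 1271251)], [(nat_lit 10), (nat_lit 54), (nat_lit 289), (nat_lit 75), (nat_lit 10)]⟩,
 Rw.none⟩) (.leaf ⟨(nat_lit 0), (nat_lit 762), (nat_lit 0), (nat_lit 238), (nat_lit 0), (nat_lit 5628), (nat_lit 7349), (nat_lit 2629), (nat_lit 1170454), (nat_lit 0), (nat_lit 0), [], Pd.none, Pd.none, (nat_lit 0), (nat_lit 1), (nat_lit 0), (nat_lit 0), (nat_lit 5), (nat_lit 0), [⟨(nat_lit 0), (nat_lit 100), (nat_lit 99), (nat_lit 92), (nat_lit 1464260518)⟩], [⟨(nat_lit 0), (nat_lit 100), (nat_lit 89), (nat_lit 34), (nat_lit 357373453)⟩], [⟨(nat_lit 1), (nat_lit 59), (nat_lit 90), (nat_lit 100), (nat_lit 250985596)⟩], [],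
 ⟨⟨[(nat_lit 60), (nat_lit 80), (nat_lit 100)], [(nat_lit 0), (nat_lit 151), (nat_lit 679)], [((nat_lit 0), (nat_lit 0), (nat_lit 0)), ((nat_lit 1000), (nat_lit 953), (nat_lit 118)), ((nat_lit 1000), (nat_lit 894), (nat_lit 411))], ((nat_lit 89), (nat_lit 100), (nat_lit 44))⟩, (nat_lit 5992463), (nat_lit 222), (nat_lit 222), (nat_lit 0), (nat_lit 166833), [(nat_lit 3282000188), (nat_lit 4702052282), (nat_lit 6250000000)], [], [(nat_lit 17290092344), (nat_lit 18564940891), (nat_lit 16509890445), (nat_lit 17780061480), (nat_lit 14205933069), (nat_lit 15111025936), (nat_lit 13876796301), (nat_lit 14779723029)], (nat_lit 1271251), (nat_lit 1271251), (nat_lit 422188), (nat_lit 490000), (nat_lit 0), (nat_lit 490000), [(nat_lit 780000), (nat_lit 1100000), (nat_lit 1442501)], [(nat_lit 9), (nat_lit 50), (nat_lit 249), (nat_lit 40), (nat_lit 10)]⟩,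
 ⟨⟨[(nat_lit 60), (nat_lit 100), (nat_lit 120)], [(nat_lit 0), (nat_lit 0), (nat_lit 1164)], [((nat_lit 0), (nat_lit 0), (nat_lit 0)), ((nat_lit 0), (nat_lit 0), (nat_lit 0)), ((nat_lit 1000), (nat_lit 933), (nat_lit 572))], ((nat_lit 92), (nat_lit 100), (nat_lit 44))⟩, (nat_lit 2003798), (nat_lit 230), (nat_lit 230), (nat_lit 0), (nat_lit 255493), [(nat_lit 3282000000), (nat_lit 6250000000), (nat_lit 7968000000)], [], [(nat_lit 22768099429), (nat_lit 24031464529), (nat_lit 22284705589), (nat_lit 23537743408), (nat_lit 33634762967), (nat_lit 34772912757), (nat_lit 32793662876), (nat_lit 33929085935)], (nat_lit 1271251), (nat_lit 1271251), (nat_lit 422188), (nat_lit 490000), (nat_lit 1271251), (nat_lit 1271251), [(nat_lit 780000), (nat_lit 1435001), (nat_lit 1271251)], [(nat_lit 10), (nat_lit 54), (nat_lit 345), (nat_lit 125), (nat_lit 11)]⟩,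
 ⟨⟨[(nat_lit 140), (nat_lit 160), (nat_lit 180)], [(nat_lit 0), (nat_lit 0), (nat_lit 799)], [((nat_lit 0), (nat_lit 0), (nat_lit 0)), ((nat_lit 0), (nat_lit 0), (nat_lit 0)), ((nat_lit 728), (nat_lit 1000), (nat_lit 454))], ((nat_lit 100), (nat_lit 71), (nat_lit 48))⟩, (nat_lit 209107), (nat_lit 300), (nat_lit 1193), (nat_lit 17659600), (nat_lit 1742788), [(nat_lit 2342396000), (nat_lit 2825536000), (nat_lit 3345804000)], [], [(nat_lit 15056475638), (nat_lit 14240021451), (nat_lit 13779380986), (nat_lit 12939981304), (nat_lit 14665231820), (nat_lit 13864251218), (nat_lit 13121079656), (nat_lit 12279918991)], (nat_lit 780000), (nat_lit 1598751), (nat_lit 0), (nat_lit 490000), (nat_lit 1271251), (nat_lit 1271251), [(nat_lit 1977501), (nat_lit 1271251), (nat_lit 1271251)], [(nat_lit 31), (nat_lit 65), (nat_lit 401), (nat_lit 175), (nat_lit 10)]⟩⟩)))))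
noncomputable def c6_2 : Tr Lf :=
 (.spl (nat_lit 1) (nat_lit 280) (.dle (nat_lit 0)) (.trZ (nat_lit 0) (nat_lit 1) (nat_lit 3) (nat_lit 100) (nat_lit 100) (nat_lit 80) (nat_lit 60) (.leaf ⟨(nat_lit 0), (nat_lit 1000), (nat_lit 0), (nat_lit 0), (nat_lit 300000), (nat_lit 5525), (nat_lit 5062), (nat_lit 0), (nat_lit 93441), (nat_lit 0), (nat_lit 0), [], Pd.none, Pd.none, (nat_lit 0), (nat_lit 1), (nat_lit 0), (nat_lit 0), (nat_lit 3), (nat_lit 0), [⟨(nat_lit 0), (nat_lit 100), (nat_lit 100), (nat_lit 90), (nat_lit 13008323563)⟩], [], [⟨(nat_lit 1), (nat_lit 59), (nat_lit 90), (nat_lit 100), (nat_lit 369848218)⟩], [],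
 ⟨⟨[(nat_lit 60), (nat_lit 100), (nat_lit 120)], [(nat_lit 0), (nat_lit 0), (nat_lit 1164)], [((nat_lit 0), (nat_lit 0), (nat_lit 0)), ((nat_lit 0), (nat_lit 0), (nat_lit 0)), ((nat_lit 1000), (nat_lit 933), (nat_lit 572))], ((nat_lit 93), (nat_lit 100), (nat_lit 58))⟩, (nat_lit 3441567), (nat_lit 224), (nat_lit 224), (nat_lit 0), (nat_lit 57327), [(nat_lit 3282000071), (nat_lit 6250000009), (nat_lit 7968000000)], [], [(nat_lit 20805016512), (nat_lit 22625750587), (nat_lit 19791653130), (nat_lit 21571569805), (nat_lit 17913567405), (nat_lit 19610894793), (nat_lit 17287538830), (nat_lit 18957336455)], (nat_lit 1271251), (nat_lit 1271251), (nat_lit 356250), (nat_lit 490000), (nat_lit 0), (nat_lit 490000), [(nat_lit 780000), (nat_lit 1435001), (nat_lit 1271251)], [(nat_lit 10), (nat_lit 54), (nat_lit 249), (nat_lit 40), (nat_lit 8)]⟩,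
 ⟨⟨[(nat_lit 60), (nat_lit 100), (nat_lit 120)], [(nat_lit 0), (nat_lit 0), (nat_lit 1164)], [((nat_lit 0), (nat_lit 0), (nat_lit 0)), ((nat_lit 0), (nat_lit 0), (nat_lit 0)), ((nat_lit 1000), (nat_lit 933), (nat_lit 572))], ((nat_lit 93), (nat_lit 100), (nat_lit 58))⟩, (nat_lit 2220584), (nat_lit 226), (nat_lit 226), (nat_lit 0), (nat_lit 88216), [(nat_lit 3282000000), (nat_lit 6250000000), (nat_lit 7968000000)], [], [(nat_lit 22321654750), (nat_lit 23885086563), (nat_lit 21623565788), (nat_lit 23165078154), (nat_lit 32690212759), (nat_lit 33491601554), (nat_lit 31853060744), (nat_lit 32647781928)], (nat_lit 1271251), (nat_lit 1271251), (nat_lit 356250), (nat_lit 490000), (nat_lit 0), (nat_lit 2825001), [(nat_lit 780000), (nat_lit 1435001), (nat_lit 1271251)], [(nat_lit 10), (nat_lit 54), (nat_lit 345), (nat_lit 125), (nat_lit 12)]⟩,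
 Rw.none⟩)))
noncomputable def c6_3 : Tr Lf :=
 (.spl (nat_lit 6) (nat_lit 20) (.spl (nat_lit 1) (nat_lit 280) (.spl (nat_lit 6) (nat_lit 12) (.spl (nat_lit 2) (nat_lit 180) (.leaf ⟨(nat_lit 982), (nat_lit 10), (nat_lit 0), (nat_lit 8), (nat_lit 6235), (nat_lit 5848), (nat_lit 212), (nat_lit 98), (nat_lit 0), (nat_lit 0), (nat_lit 245500), [((nat_lit 300), [((nat_lit 12), (nat_lit 0), (nat_lit 982))])], ⟨(nat_lit 6), false, false, false, (nat_lit 120), (nat_lit 5000), (nat_lit 5478), [(nat_lit 1224247), (nat_lit 1239284), (nat_lit 1266961), (nat_lit 1282141), (nat_lit 1317913), (nat_lit 1328570), (nat_lit 1360625), (nat_lit 1371424)]⟩, ⟨(nat_lit 3), false, false, false, (nat_lit 105), (nat_lit 5000), (nat_lit 5478), [(nat_lit 1189771), (nat_lit 1199998), (nat_lit 1253842), (nat_lit 1264284), (nat_lit 1264704), (nat_lit 1271427), (nat_lit 1328775), (nat_lit 1335713)]⟩, (nat_lit 2949900), (nat_lit 56128760), (nat_lit 5958378), (nat_lit 4912862), (nat_lit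 3), (nat_lit 0), [⟨(nat_lit 0), (nat_lit 100), (nat_lit 94), (nat_lit 88), (nat_lit 461416240)⟩], [], [], [],
 ⟨⟨[(nat_lit 60), (nat_lit 80), (nat_lit 100)], [(nat_lit 0), (nat_lit 0), (nat_lit 534)], [((nat_lit 0), (nat_lit 0), (nat_lit 0)), ((nat_lit 0), (nat_lit 0), (nat_lit 0)), ((nat_lit 1000), (nat_lit 917), (nat_lit 393))], ((nat_lit 92), (nat_lit 100), (nat_lit 34))⟩, (nat_lit 4064100), (nat_lit 203), (nat_lit 203), (nat_lit 0), (nat_lit 113748), [(nat_lit 2416039828), (nat_lit 2513610356), (nat_lit 2935946400)], [(nat_lit 0), (nat_lit 0), (nat_lit 0)], [(nat_lit 13609119562), (nat_lit 16174569461), (nat_lit 10561218088), (nat_lit 13000024096), (nat_lit 13919214190), (nat_lit 16350894512), (nat_lit 11054162164), (nat_lit 13339514212)], (nat_lit 1271251), (nat_lit 1271251), (nat_lit 169688), (nat_lit 490000), (nat_lit 490000), (nat_lit 780000), [(nat_lit 780000), (nat_lit 1100000), (nat_lit 1442501)], [(nat_lit 9), (nat_lit 50), (nat_lit 260),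 (nat_lit 50), (nat_lit 10)]⟩,
 ⟨⟨[(nat_lit 80), (nat_lit 100), (nat_lit 120)], [(nat_lit 0), (nat_lit 0), (nat_lit 511)], [((nat_lit 0), (nat_lit 0), (nat_lit 0)), ((nat_lit 0), (nat_lit 0), (nat_lit 0)), ((nat_lit 1000), (nat_lit 997), (nat_lit 383))], ((nat_lit 99), (nat_lit 100), (nat_lit 34))⟩, (nat_lit 0), (nat_lit 289), (nat_lit 289), (nat_lit 0), (nat_lit 201418), [(nat_lit 84384000), (nat_lit 112500000), (nat_lit 143424000)], [], [(nat_lit 769345628), (nat_lit 554170844), (nat_lit 491223888), (nat_lit 438604844), (nat_lit 912701178), (nat_lit 845586963), (nat_lit 971976528), (nat_lit 788317112)], (nat_lit 1271251), (nat_lit 1271251), (nat_lit 169688), (nat_lit 490000), (nat_lit 0), (nat_lit 2825001), [(nat_lit 1100000), (nat_lit 1442501), (nat_lit 1271251)], [(nat_lit 16), (nat_lit 54), (nat_lit 345), (nat_lit 125), (nat_lit 12)]⟩,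
 ⟨⟨[(nat_lit 140), (nat_lit 160), (nat_lit 180)], [(nat_lit 0), (nat_lit 0), (nat_lit 799)], [((nat_lit 0), (nat_lit 0), (nat_lit 0)), ((nat_lit 0), (nat_lit 0), (nat_lit 0)), ((nat_lit 728), (nat_lit 1000), (nat_lit 454))], ((nat_lit 100), (nat_lit 79), (nat_lit 37))⟩, (nat_lit 7029), (nat_lit 300), (nat_lit 980), (nat_lit 593600), (nat_lit 1121859), [(nat_lit 78736000), (nat_lit 94976000), (nat_lit 112464000)], [], [(nat_lit 514693816), (nat_lit 495783440), (nat_lit 497971016), (nat_lit 479067385), (nat_lit 495239288), (nat_lit 571250390), (nat_lit 530018104), (nat_lit 607692168)], (nat_lit 780000), (nat_lit 1271251), (nat_lit 490000), (nat_lit 780000), (nat_lit 0), (nat_lit 2825001), [(nat_lit 1977501), (nat_lit 1271251), (nat_lit 1271251)], [(nat_lit 31), (nat_lit 65), (nat_lit 401), (nat_lit 175), (nat_lit 10)]⟩⟩) (.leaf ⟨(nat_lit 885), (nat_lit 58), (nat_lit 0), (nat_lit 57), (nat_lit 11858), (nat_lit 5351), (nat_lit 1190), (nat_lit 1068), (nat_lit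 0), (nat_lit 0), (nat_lit 1776000), [((nat_lit 300), [((nat_lit 12), (nat_lit 2), (nat_lit 588)), ((nat_lit 33), (nat_lit 5), (nat_lit 297))])], ⟨(nat_lit 6), false, false, false, (nat_lit 120), (nat_lit 5000), (nat_lit 5478), [(nat_lit 1224247), (nat_lit 1239284), (nat_lit 1266961), (nat_lit 1282141), (nat_lit 1317913), (nat_lit 1328570), (nat_lit 1360625), (nat_lit 1371424)]⟩, ⟨(nat_lit 4), false, false, false, (nat_lit 127), (nat_lit 5000), (nat_lit 5478), [(nat_lit 1253842), (nat_lit 1264284), (nat_lit 1296556), (nat_lit 1307141), (nat_lit 1328775), (nat_lit 1335713), (nat_lit 1371489), (nat_lit 1378570)]⟩, (nat_lit 3260385), (nat_lit 54445968), (nat_lit 5992316), (nat_lit 6561716), (nat_lit 4), (nat_lit 0), [⟨(nat_lit 0), (nat_lit 100), (nat_lit 94), (nat_lit 73), (nat_lit 635636262)⟩], [], [], [],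
 ⟨⟨[(nat_lit 60), (nat_lit 80), (nat_lit 100)], [(nat_lit 0), (nat_lit 0), (nat_lit 534)], [((nat_lit 0), (nat_lit 0), (nat_lit 0)), ((nat_lit 0), (nat_lit 0), (nat_lit 0)), ((nat_lit 1000), (nat_lit 917), (nat_lit 393))], ((nat_lit 92), (nat_lit 100), (nat_lit 34))⟩, (nat_lit 0), (nat_lit 201), (nat_lit 201), (nat_lit 0), (nat_lit 84602), [(nat_lit 2249884665), (nat_lit 2349943641), (nat_lit 758912559)], [(nat_lit 0), (nat_lit 0), (nat_lit 0)], [(nat_lit 13278825663), (nat_lit 15702321242), (nat_lit 11078205874), (nat_lit 12867489599), (nat_lit 13653420765), (nat_lit 15952122555), (nat_lit 11656351875), (nat_lit 13336265603)], (nat_lit 1271251), (nat_lit 1271251), (nat_lit 169688), (nat_lit 490000), (nat_lit 490000), (nat_lit 780000), [(nat_lit 780000), (nat_lit 1100000), (nat_lit 1442501)], [(nat_lit 9), (nat_lit 50), (nat_lit 260), (nat_lit 50), (nat_lit 10)]⟩,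
 ⟨⟨[(nat_lit 80), (nat_lit 100), (nat_lit 120)], [(nat_lit 0), (nat_lit 0), (nat_lit 511)], [((nat_lit 0), (nat_lit 0), (nat_lit 0)), ((nat_lit 0), (nat_lit 0), (nat_lit 0)), ((nat_lit 1000), (nat_lit 997), (nat_lit 383))], ((nat_lit 99), (nat_lit 100), (nat_lit 34))⟩, (nat_lit 0), (nat_lit 283), (nat_lit 283), (nat_lit 0), (nat_lit 186413), [(nat_lit 539120000), (nat_lit 718750000), (nat_lit 916320000)], [], [(nat_lit 4794107810), (nat_lit 3558970218), (nat_lit 3232952760), (nat_lit 2801134230), (nat_lit 5797164875), (nat_lit 5031926194), (nat_lit 6147778840), (nat_lit 5116860420)], (nat_lit 1271251), (nat_lit 1271251), (nat_lit 169688), (nat_lit 490000), (nat_lit 0), (nat_lit 2825001), [(nat_lit 1100000), (nat_lit 1442501), (nat_lit 1271251)], [(nat_lit 16), (nat_lit 54), (nat_lit 345), (nat_lit 125), (nat_lit 12)]⟩,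
 ⟨⟨[(nat_lit 120), (nat_lit 140), (nat_lit 160)], [(nat_lit 0), (nat_lit 266), (nat_lit 862)], [((nat_lit 0), (nat_lit 0), (nat_lit 0)), ((nat_lit 960), (nat_lit 1000), (nat_lit 200)), ((nat_lit 874), (nat_lit 1000), (nat_lit 406))], ((nat_lit 100), (nat_lit 91), (nat_lit 34))⟩, (nat_lit 117000), (nat_lit 300), (nat_lit 505), (nat_lit 3784800), (nat_lit 362755), [(nat_lit 454176000), (nat_lit 560994000), (nat_lit 676704000)], [], [(nat_lit 3115433664), (nat_lit 2308163499), (nat_lit 2129017541), (nat_lit 2166411830), (nat_lit 3836645688), (nat_lit 2863078248), (nat_lit 4174281726), (nat_lit 3213121242)], (nat_lit 1271251), (nat_lit 1271251), (nat_lit 490000), (nat_lit 780000), (nat_lit 0), (nat_lit 2825001), [(nat_lit 1695001), (nat_lit 1271251), (nat_lit 1271251)], [(nat_lit 27), (nat_lit 62), (nat_lit 428), (nat_lit 200), (nat_lit 11)]⟩⟩)) (.spl (nat_lit 0) (nat_lit 290) (.leaf ⟨(nat_lit 1000), (nat_lit 0), (nat_lit 0), (nat_lit 0), (nat_lit 69299),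 (nat_lit 4640), (nat_lit 0), (nat_lit 0), (nat_lit 0), (nat_lit 0), (nat_lit 250000), [((nat_lit 290), [((nat_lit 12), (nat_lit 0), (nat_lit 1000))])], ⟨(nat_lit 6), false, false, false, (nat_lit 118), (nat_lit 5244), (nat_lit 5478), [(nat_lit 1224247), (nat_lit 1231792), (nat_lit 1266961), (nat_lit 1274563), (nat_lit 1317913), (nat_lit 1323256), (nat_lit 1360628), (nat_lit 1366027)]⟩, ⟨(nat_lit 3), false, false, false, (nat_lit 113), (nat_lit 5244), (nat_lit 5478), [(nat_lit 1189771), (nat_lit 1194943), (nat_lit 1296556), (nat_lit 1301871), (nat_lit 1264704), (nat_lit 1268114), (nat_lit 1371489), (nat_lit 1375042)]⟩, (nat_lit 3045456), (nat_lit 55640894), (nat_lit 5873418), (nat_lit 5485688), (nat_lit 0), (nat_lit 0), [⟨(nat_lit 0), (nat_lit 100), (nat_lit 97), (nat_lit 84), (nat_lit 335593780)⟩], [], [], [],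
 ⟨⟨[(nat_lit 60), (nat_lit 100), (nat_lit 120)], [(nat_lit 0), (nat_lit 0), (nat_lit 1164)], [((nat_lit 0), (nat_lit 0), (nat_lit 0)), ((nat_lit 0), (nat_lit 0), (nat_lit 0)), ((nat_lit 1000), (nat_lit 933), (nat_lit 572))], ((nat_lit 92), (nat_lit 100), (nat_lit 44))⟩, (nat_lit 0), (nat_lit 196), (nat_lit 196), (nat_lit 0), (nat_lit 17075), [(nat_lit 2364000732), (nat_lit 100420213091), (nat_lit 3224400000)], [(nat_lit 0), (nat_lit 0), (nat_lit 0)], [(nat_lit 12806312660), (nat_lit 13916521695), (nat_lit 10513490960), (nat_lit 11595533620), (nat_lit 13273181075), (nat_lit 14327413524), (nat_lit 11212170612), (nat_lit 12136837080)], (nat_lit 1271251), (nat_lit 1271251), (nat_lit 169688), (nat_lit 490000), (nat_lit 490000), (nat_lit 780000), [(nat_lit 780000), (nat_lit 1435001), (nat_lit 1271251)], [(nat_lit 10), (nat_lit 54), (nat_lit 260), (nat_lit 50), (nat_lit 9)]⟩,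
 Rw.none,
 Rw.none⟩) (.trZ (nat_lit 0) (nat_lit 1) (nat_lit 3) (nat_lit 100) (nat_lit 91) (nat_lit 63) (nat_lit 40) (.leaf ⟨(nat_lit 976), (nat_lit 13), (nat_lit 0), (nat_lit 11), (nat_lit 11341), (nat_lit 4647), (nat_lit 167), (nat_lit 125), (nat_lit 0), (nat_lit 0), (nat_lit 244000), [((nat_lit 300), [((nat_lit 12), (nat_lit 0), (nat_lit 976))])], ⟨(nat_lit 6), false, false, false, (nat_lit 124), (nat_lit 5000), (nat_lit 5245), [(nat_lit 1250085), (nat_lit 1257141), (nat_lit 1292856), (nat_lit 1299998), (nat_lit 1323256), (nat_lit 1328570), (nat_lit 1366025), (nat_lit 1371426)]⟩, ⟨(nat_lit 3), false, false, false, (nat_lit 115), (nat_lit 5000), (nat_lit 5245), [(nat_lit 1194943), (nat_lit 1199998), (nat_lit 1301871), (nat_lit 1307141), (nat_lit 1268114), (nat_lit 1271427), (nat_lit 1375042), (nat_lit 1378570)]⟩, (nat_lit 3159933), (nat_lit 55005234), (nat_lit 6367537), (nat_lit 5627229), (nat_lit 3), (nat_lit 0), [⟨(nat_lit 0), (nat_lit 100), (nat_lit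 94), (nat_lit 88), (nat_lit 398502646)⟩], [], [], [],
 ⟨⟨[(nat_lit 60), (nat_lit 80), (nat_lit 100)], [(nat_lit 0), (nat_lit 151), (nat_lit 679)], [((nat_lit 0), (nat_lit 0), (nat_lit 0)), ((nat_lit 1000), (nat_lit 953), (nat_lit 118)), ((nat_lit 1000), (nat_lit 894), (nat_lit 411))], ((nat_lit 89), (nat_lit 100), (nat_lit 44))⟩, (nat_lit 0), (nat_lit 188), (nat_lit 188), (nat_lit 0), (nat_lit 40285), [(nat_lit 2371992093), (nat_lit 88581815902), (nat_lit 2956195200)], [(nat_lit 0), (nat_lit 0), (nat_lit 0)], [(nat_lit 13457024603), (nat_lit 14562594645), (nat_lit 11596429414), (nat_lit 12679444769), (nat_lit 13893065650), (nat_lit 14942515960), (nat_lit 12137456534), (nat_lit 13163529881)], (nat_lit 1271251), (nat_lit 1271251), (nat_lit 230000), (nat_lit 490000), (nat_lit 490000), (nat_lit 780000), [(nat_lit 780000), (nat_lit 1100000), (nat_lit 1442501)], [(nat_lit 9), (nat_lit 50), (nat_lit 260), (nat_lit 50), (nat_lit 10)]⟩,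
 ⟨⟨[(nat_lit 80), (nat_lit 120), (nat_lit 140)], [(nat_lit 0), (nat_lit 0), (nat_lit 1164)], [((nat_lit 0), (nat_lit 0), (nat_lit 0)), ((nat_lit 0), (nat_lit 0), (nat_lit 0)), ((nat_lit 941), (nat_lit 1000), (nat_lit 576))], ((nat_lit 100), (nat_lit 99), (nat_lit 44))⟩, (nat_lit 0), (nat_lit 303), (nat_lit 303), (nat_lit 0), (nat_lit 72593), [(nat_lit 112512000), (nat_lit 191232000), (nat_lit 236208000)], [], [(nat_lit 1218984702), (nat_lit 1040975561), (nat_lit 1038235592), (nat_lit 863175876), (nat_lit 1205766182), (nat_lit 1059251738), (nat_lit 1256052400), (nat_lit 1111377294)], (nat_lit 1271251), (nat_lit 1271251), (nat_lit 230000), (nat_lit 490000), (nat_lit 0), (nat_lit 2825001), [(nat_lit 1100000), (nat_lit 1785001), (nat_lit 1271251)], [(nat_lit 17), (nat_lit 58), (nat_lit 428), (nat_lit 200), (nat_lit 13)]⟩,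
 ⟨⟨[(nat_lit 140), (nat_lit 160), (nat_lit 180)], [(nat_lit 0), (nat_lit 0), (nat_lit 799)], [((nat_lit 0), (nat_lit 0), (nat_lit 0)), ((nat_lit 0), (nat_lit 0), (nat_lit 0)), ((nat_lit 728), (nat_lit 1000), (nat_lit 454))], ((nat_lit 100), (nat_lit 71), (nat_lit 48))⟩, (nat_lit 9665), (nat_lit 300), (nat_lit 636), (nat_lit 816200), (nat_lit 393130), [(nat_lit 108262000), (nat_lit 130592000), (nat_lit 154638000)], [], [(nat_lit 700685632), (nat_lit 671573250), (nat_lit 680713670), (nat_lit 651295231), (nat_lit 671450072), (nat_lit 837083741), (nat_lit 716734072), (nat_lit 885865616)], (nat_lit 780000), (nat_lit 1598751), (nat_lit 490000), (nat_lit 780000), (nat_lit 0), (nat_lit 2825001), [(nat_lit 1977501), (nat_lit 1271251), (nat_lit 1271251)], [(nat_lit 31), (nat_lit 65), (nat_lit 428), (nat_lit 200), (nat_lit 10)]⟩⟩)))) (.trZ (nat_lit 0) (nat_lit 1) (nat_lit 3) (nat_lit 100) (nat_lit 100) (nat_lit 80) (nat_lit 60) (.spl (nat_lit 2) (nat_lit 180)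 (.trX (nat_lit 5) (nat_lit 1) (nat_lit 2) (nat_lit 92) (nat_lit 49) (nat_lit 100) (nat_lit 380) (.leaf ⟨(nat_lit 237), (nat_lit 621), (nat_lit 0), (nat_lit 142), (nat_lit 4688), (nat_lit 13670), (nat_lit 8043), (nat_lit 1533), (nat_lit 124623), (nat_lit 0), (nat_lit 59250), [((nat_lit 300), [((nat_lit 12), (nat_lit 0), (nat_lit 237))])], ⟨(nat_lit 7), false, false, false, (nat_lit 143), (nat_lit 5000), (nat_lit 5478), [(nat_lit 1323161), (nat_lit 1335713), (nat_lit 1344512), (nat_lit 1357135), (nat_lit 1360625), (nat_lit 1371424), (nat_lit 1381974), (nat_lit 1392845)]⟩, ⟨(nat_lit 3), false, false, false, (nat_lit 105), (nat_lit 5000), (nat_lit 5478), [(nat_lit 1189771), (nat_lit 1199998), (nat_lit 1253842), (nat_lit 1264284), (nat_lit 1264704), (nat_lit 1271427), (nat_lit 1328775), (nat_lit 1335713)]⟩, (nat_lit 3284293), (nat_lit 54121282), (nat_lit 7935977), (nat_lit 4942741), (nat_lit 3), (nat_lit 0), [⟨(nat_lit 0), (nat_lit 100), (nat_lit 100),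 (nat_lit 80), (nat_lit 1815252756)⟩], [], [], [],
 ⟨⟨[(nat_lit 60), (nat_lit 100), (nat_lit 120)], [(nat_lit 0), (nat_lit 0), (nat_lit 1164)], [((nat_lit 0), (nat_lit 0), (nat_lit 0)), ((nat_lit 0), (nat_lit 0), (nat_lit 0)), ((nat_lit 1000), (nat_lit 933), (nat_lit 572))], ((nat_lit 92), (nat_lit 100), (nat_lit 44))⟩, (nat_lit 2300129), (nat_lit 192), (nat_lit 192), (nat_lit 0), (nat_lit 168101), [(nat_lit 7621054408), (nat_lit 6588908125), (nat_lit 6843766800)], [(nat_lit 0), (nat_lit 0), (nat_lit 0)], [(nat_lit 13771543295), (nat_lit 18495562368), (nat_lit 10541417604), (nat_lit 15087927090), (nat_lit 13294744978), (nat_lit 17742185874), (nat_lit 10089787784), (nat_lit 14485683605)], (nat_lit 1271251), (nat_lit 1271251), (nat_lit 356250), (nat_lit 490000), (nat_lit 490000), (nat_lit 780000), [(nat_lit 780000), (nat_lit 1435001), (nat_lit 1271251)], [(nat_lit 10), (nat_lit 54), (nat_lit 260), (nat_lit 50), (nat_lit 8)]⟩,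
 ⟨⟨[(nat_lit 60), (nat_lit 100), (nat_lit 120)], [(nat_lit 0), (nat_lit 0), (nat_lit 1164)], [((nat_lit 0), (nat_lit 0), (nat_lit 0)), ((nat_lit 0), (nat_lit 0), (nat_lit 0)), ((nat_lit 1000), (nat_lit 933), (nat_lit 572))], ((nat_lit 92), (nat_lit 100), (nat_lit 44))⟩, (nat_lit 0), (nat_lit 292), (nat_lit 292), (nat_lit 0), (nat_lit 253788), [(nat_lit 2504166000), (nat_lit 4768750000), (nat_lit 6079584000)], [], [(nat_lit 24694979386), (nat_lit 22357822582), (nat_lit 20473385632), (nat_lit 20604276385), (nat_lit 28513469057), (nat_lit 29697635351), (nat_lit 26614047887), (nat_lit 27790875832)], (nat_lit 1271251), (nat_lit 1271251), (nat_lit 356250), (nat_lit 490000), (nat_lit 0), (nat_lit 2683751), [(nat_lit 780000), (nat_lit 1435001), (nat_lit 1271251)], [(nat_lit 10), (nat_lit 54), (nat_lit 345), (nat_lit 125), (nat_lit 12)]⟩,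
 ⟨⟨[(nat_lit 140), (nat_lit 160), (nat_lit 180)], [(nat_lit 0), (nat_lit 0), (nat_lit 799)], [((nat_lit 0), (nat_lit 0), (nat_lit 0)), ((nat_lit 0), (nat_lit 0), (nat_lit 0)), ((nat_lit 728), (nat_lit 1000), (nat_lit 454))], ((nat_lit 100), (nat_lit 71), (nat_lit 48))⟩, (nat_lit 124761), (nat_lit 300), (nat_lit 1262), (nat_lit 10536400), (nat_lit 1742784), [(nat_lit 1397564000), (nat_lit 1685824000), (nat_lit 1996236000)], [], [(nat_lit 9877167292), (nat_lit 9556680719), (nat_lit 9626840634), (nat_lit 9303565145), (nat_lit 8350829717), (nat_lit 9559262614), (nat_lit 8905277409), (nat_lit 10140081547)], (nat_lit 780000), (nat_lit 1271251), (nat_lit 490000), (nat_lit 780000), (nat_lit 0), (nat_lit 2683751), [(nat_lit 1977501), (nat_lit 1271251), (nat_lit 1271251)], [(nat_lit 31), (nat_lit 65), (nat_lit 401), (nat_lit 175), (nat_lit 10)]⟩⟩)) (.leaf ⟨(nat_lit 0), (nat_lit 699), (nat_lit 0), (nat_lit 301), (nat_lit 10329), (nat_lit 11523), (nat_lit 10091),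 (nat_lit 3893), (nat_lit 75934), (nat_lit 0), (nat_lit 0), [], Pd.none, Pd.none, (nat_lit 0), (nat_lit 1), (nat_lit 0), (nat_lit 0), (nat_lit 4), (nat_lit 0), [⟨(nat_lit 0), (nat_lit 100), (nat_lit 100), (nat_lit 80), (nat_lit 2108393236)⟩], [], [], [],
 ⟨⟨[(nat_lit 60), (nat_lit 100), (nat_lit 120)], [(nat_lit 0), (nat_lit 0), (nat_lit 1164)], [((nat_lit 0), (nat_lit 0), (nat_lit 0)), ((nat_lit 0), (nat_lit 0), (nat_lit 0)), ((nat_lit 1000), (nat_lit 933), (nat_lit 572))], ((nat_lit 92), (nat_lit 100), (nat_lit 44))⟩, (nat_lit 4354787), (nat_lit 189), (nat_lit 189), (nat_lit 0), (nat_lit 126432), [(nat_lit 5789407992), (nat_lit 6250000151), (nat_lit 7968000000)], [], [(nat_lit 13214958236), (nat_lit 17335677286), (nat_lit 10886666356), (nat_lit 14514834821), (nat_lit 12981190120), (nat_lit 16864358892), (nat_lit 10657135098), (nat_lit 14171080475)], (nat_lit 1271251), (nat_lit 1271251), (nat_lit 356250), (nat_lit 490000), (nat_lit 490000), (nat_lit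 780000), [(nat_lit 780000), (nat_lit 1435001), (nat_lit 1271251)], [(nat_lit 10), (nat_lit 54), (nat_lit 260), (nat_lit 50), (nat_lit 8)]⟩,
 ⟨⟨[(nat_lit 60), (nat_lit 100), (nat_lit 120)], [(nat_lit 0), (nat_lit 0), (nat_lit 1164)], [((nat_lit 0), (nat_lit 0), (nat_lit 0)), ((nat_lit 0), (nat_lit 0), (nat_lit 0)), ((nat_lit 1000), (nat_lit 933), (nat_lit 572))], ((nat_lit 92), (nat_lit 100), (nat_lit 44))⟩, (nat_lit 0), (nat_lit 286), (nat_lit 286), (nat_lit 0), (nat_lit 238786), [(nat_lit 3282000000), (nat_lit 6250000000), (nat_lit 7968000000)], [], [(nat_lit 32384789042), (nat_lit 29062777993), (nat_lit 27088245144), (nat_lit 26876191772), (nat_lit 39561357276), (nat_lit 40902760323), (nat_lit 37150700830), (nat_lit 38487153665)], (nat_lit 1271251), (nat_lit 1271251), (nat_lit 356250), (nat_lit 490000), (nat_lit 0), (nat_lit 2825001), [(nat_lit 780000), (nat_lit 1435001), (nat_lit 1271251)], [(nat_lit 10), (nat_lit 54), (nat_lit 345), (nat_lit 125),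 (nat_lit 12)]⟩,
 ⟨⟨[(nat_lit 120), (nat_lit 140), (nat_lit 160)], [(nat_lit 0), (nat_lit 266), (nat_lit 862)], [((nat_lit 0), (nat_lit 0), (nat_lit 0)), ((nat_lit 960), (nat_lit 1000), (nat_lit 200)), ((nat_lit 874), (nat_lit 1000), (nat_lit 406))], ((nat_lit 100), (nat_lit 86), (nat_lit 44))⟩, (nat_lit 617842), (nat_lit 300), (nat_lit 643), (nat_lit 19986401), (nat_lit 622535), [(nat_lit 2398368000), (nat_lit 2962442000), (nat_lit 3573472000)], [], [(nat_lit 14706392274), (nat_lit 13595932699), (nat_lit 13150979281), (nat_lit 13062397928), (nat_lit 18266183002), (nat_lit 14717402062), (nat_lit 19605054553), (nat_lit 16101498594)], (nat_lit 1271251), (nat_lit 1271251), (nat_lit 490000), (nat_lit 780000), (nat_lit 0), (nat_lit 2825001), [(nat_lit 1695001), (nat_lit 1271251), (nat_lit 1271251)], [(nat_lit 27), (nat_lit 62), (nat_lit 428), (nat_lit 200), (nat_lit 11)]⟩⟩)))) (.leaf ⟨(nat_lit 1000), (nat_lit 0), (nat_lit 0), (nat_lit 0), (nat_lit 24264),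 (nat_lit 10893), (nat_lit 0), (nat_lit 0), (nat_lit 11021), (nat_lit 0), (nat_lit 250000), [((nat_lit 300), [((nat_lit 12), (nat_lit 0), (nat_lit 1000))])], ⟨(nat_lit 6), false, false, false, (nat_lit 124), (nat_lit 5000), (nat_lit 5478), [(nat_lit 1224247), (nat_lit 1239284), (nat_lit 1288318), (nat_lit 1303570), (nat_lit 1317913), (nat_lit 1328570), (nat_lit 1381974), (nat_lit 1392845)]⟩, ⟨(nat_lit 3), false, false, false, (nat_lit 114), (nat_lit 5000), (nat_lit 5478), [(nat_lit 1189771), (nat_lit 1199998), (nat_lit 1296556), (nat_lit 1307141), (nat_lit 1264704), (nat_lit 1271427), (nat_lit 1371489), (nat_lit 1378570)]⟩, (nat_lit 3138290), (nat_lit 55124477), (nat_lit 6315666), (nat_lit 5559857), (nat_lit 0), (nat_lit 0), [⟨(nat_lit 0), (nat_lit 100), (nat_lit 95), (nat_lit 78), (nat_lit 1240215672)⟩], [], [], [],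
 ⟨⟨[(nat_lit 60), (nat_lit 100), (nat_lit 120)], [(nat_lit 0), (nat_lit 0), (nat_lit 1164)], [((nat_lit 0), (nat_lit 0), (nat_lit 0)), ((nat_lit 0), (nat_lit 0), (nat_lit 0)), ((nat_lit 1000), (nat_lit 933), (nat_lit 572))], ((nat_lit 93), (nat_lit 100), (nat_lit 58))⟩, (nat_lit 0), (nat_lit 199), (nat_lit 199), (nat_lit 0), (nat_lit 57327), [(nat_lit 6071094525), (nat_lit 4141648526), (nat_lit 3224400000)], [(nat_lit 0), (nat_lit 0), (nat_lit 0)], [(nat_lit 16961901699), (nat_lit 20968316480), (nat_lit 11685238984), (nat_lit 14347044814), (nat_lit 16617258119), (nat_lit 20398790938), (nat_lit 11520878706), (nat_lit 14078765630)], (nat_lit 1271251), (nat_lit 1271251), (nat_lit 169688), (nat_lit 490000), (nat_lit 490000), (nat_lit 780000), [(nat_lit 780000), (nat_lit 1435001), (nat_lit 1271251)], [(nat_lit 10), (nat_lit 54), (nat_lit 260), (nat_lit 50), (nat_lit 9)]⟩,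
 Rw.none,
 Rw.none⟩))
noncomputable def c6_4 : Tr Lf :=
 (.spl (nat_lit 5) (nat_lit 200) (.spl (nat_lit 1) (nat_lit 280) (.spl (nat_lit 6) (nat_lit 20) (.spl (nat_lit 1) (nat_lit 260) (.spl (nat_lit 6) (nat_lit 12) (.leaf ⟨(nat_lit 0), (nat_lit 1000), (nat_lit 0), (nat_lit 0), (nat_lit 9353), (nat_lit 6453), (nat_lit 24403), (nat_lit 0), (nat_lit 0), (nat_lit 0), (nat_lit 0), [], Pd.none, Pd.none, (nat_lit 0), (nat_lit 1), (nat_lit 0), (nat_lit 0), (nat_lit 3), (nat_lit 0), [], [⟨(nat_lit 0), (nat_lit 100), (nat_lit 87), (nat_lit 59), (nat_lit 20917287)⟩], [], [],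
 ⟨⟨[(nat_lit 60), (nat_lit 80), (nat_lit 100)], [(nat_lit 0), (nat_lit 0), (nat_lit 534)], [((nat_lit 0), (nat_lit 0), (nat_lit 0)), ((nat_lit 0), (nat_lit 0), (nat_lit 0)), ((nat_lit 1000), (nat_lit 917), (nat_lit 393))], ((nat_lit 92), (nat_lit 100), (nat_lit 34))⟩, (nat_lit 5589187), (nat_lit 214), (nat_lit 214), (nat_lit 0), (nat_lit 66010), [(nat_lit 3282000086), (nat_lit 4688000107), (nat_lit 6250000000)], [], [(nat_lit 16498086774), (nat_lit 18902193480), (nat_lit 16818828980), (nat_lit 18881429273), (nat_lit 13108684850), (nat_lit 14872905930), (nat_lit 13537604678), (nat_lit 15163003120)], (nat_lit 1271251), (nat_lit 1271251), (nat_lit 490000), (nat_lit 780000), (nat_lit 0), (nat_lit 780000), [(nat_lit 780000), (nat_lit 1100000), (nat_lit 1442501)], [(nat_lit 9), (nat_lit 50), (nat_lit 272), (nat_lit 60), (nat_lit 11)]⟩,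
 ⟨⟨[(nat_lit 80), (nat_lit 100), (nat_lit 120)], [(nat_lit 0), (nat_lit 0), (nat_lit 511)], [((nat_lit 0), (nat_lit 0), (nat_lit 0)), ((nat_lit 0), (nat_lit 0), (nat_lit 0)), ((nat_lit 1000), (nat_lit 997), (nat_lit 383))], ((nat_lit 99), (nat_lit 100), (nat_lit 34))⟩, (nat_lit 0), (nat_lit 239), (nat_lit 239), (nat_lit 0), (nat_lit 125423), [(nat_lit 4688000000), (nat_lit 6250000000), (nat_lit 7968000000)], [], [(nat_lit 19345898648), (nat_lit 27336287592), (nat_lit 17773813208), (nat_lit 25298140026), (nat_lit 25928294260), (nat_lit 14656011694), (nat_lit 32851209128), (nat_lit 21724618573)], (nat_lit 1271251), (nat_lit 1271251), (nat_lit 490000), (nat_lit 780000), (nat_lit 0), (nat_lit 1412501), [(nat_lit 1100000), (nat_lit 1442501), (nat_lit 1271251)], [(nat_lit 16), (nat_lit 54), (nat_lit 317), (nat_lit 100), (nat_lit 11)]⟩,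
 Rw.none⟩) (.dle (nat_lit 0))) (.leaf ⟨(nat_lit 0), (nat_lit 1000), (nat_lit 0), (nat_lit 0), (nat_lit 6575), (nat_lit 8657), (nat_lit 9758), (nat_lit 0), (nat_lit 0), (nat_lit 0), (nat_lit 0), [], Pd.none, Pd.none, (nat_lit 0), (nat_lit 1), (nat_lit 0), (nat_lit 0), (nat_lit 3), (nat_lit 0), [⟨(nat_lit 0), (nat_lit 100), (nat_lit 94), (nat_lit 88), (nat_lit 182772945)⟩], [⟨(nat_lit 0), (nat_lit 100), (nat_lit 87), (nat_lit 59), (nat_lit 125952202)⟩], [], [],
 ⟨⟨[(nat_lit 60), (nat_lit 100), (nat_lit 120)], [(nat_lit 0), (nat_lit 0), (nat_lit 1164)], [((nat_lit 0), (nat_lit 0), (nat_lit 0)), ((nat_lit 0), (nat_lit 0), (nat_lit 0)), ((nat_lit 1000), (nat_lit 933), (nat_lit 572))], ((nat_lit 92), (nat_lit 100), (nat_lit 44))⟩, (nat_lit 3924299), (nat_lit 218), (nat_lit 218), (nat_lit 0), (nat_lit 115063), [(nat_lit 4070847610), (nat_lit 6250000126), (nat_lit 7968000000)], [], [(nat_lit 19504837296), (nat_lit 21900405942), (nat_lit 19409155266), (nat_lit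 21828205965), (nat_lit 13627316519), (nat_lit 15988842964), (nat_lit 13832957078), (nat_lit 16051534316)], (nat_lit 1271251), (nat_lit 1271251), (nat_lit 490000), (nat_lit 780000), (nat_lit 0), (nat_lit 780000), [(nat_lit 780000), (nat_lit 1435001), (nat_lit 1271251)], [(nat_lit 10), (nat_lit 54), (nat_lit 272), (nat_lit 60), (nat_lit 9)]⟩,
 ⟨⟨[(nat_lit 80), (nat_lit 100), (nat_lit 120)], [(nat_lit 0), (nat_lit 265), (nat_lit 768)], [((nat_lit 0), (nat_lit 0), (nat_lit 0)), ((nat_lit 1000), (nat_lit 959), (nat_lit 206)), ((nat_lit 1000), (nat_lit 958), (nat_lit 392))], ((nat_lit 96), (nat_lit 100), (nat_lit 44))⟩, (nat_lit 7326875), (nat_lit 234), (nat_lit 234), (nat_lit 0), (nat_lit 193965), [(nat_lit 4688000000), (nat_lit 6250000000), (nat_lit 7968000000)], [], [(nat_lit 15944542480), (nat_lit 19657815296), (nat_lit 15868031538), (nat_lit 19297106384), (nat_lit 11438551364), (nat_lit 13407829800), (nat_lit 11802126031), (nat_lit 13340564985)], (nat_lit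 1271251), (nat_lit 1271251), (nat_lit 490000), (nat_lit 780000), (nat_lit 0), (nat_lit 1412501), [(nat_lit 1100000), (nat_lit 1442501), (nat_lit 1271251)], [(nat_lit 16), (nat_lit 54), (nat_lit 317), (nat_lit 100), (nat_lit 11)]⟩,
 Rw.none⟩)) (.dle (nat_lit 0))) (.leaf ⟨(nat_lit 0), (nat_lit 1000), (nat_lit 0), (nat_lit 0), (nat_lit 0), (nat_lit 8657), (nat_lit 11156), (nat_lit 0), (nat_lit 174378639653), (nat_lit 0), (nat_lit 0), [], Pd.none, Pd.none, (nat_lit 0), (nat_lit 1), (nat_lit 0), (nat_lit 0), (nat_lit 3), (nat_lit 0), [⟨(nat_lit 0), (nat_lit 100), (nat_lit 100), (nat_lit 90), (nat_lit 106460195)⟩], [⟨(nat_lit 0), (nat_lit 100), (nat_lit 87), (nat_lit 59), (nat_lit 124324652)⟩], [], [],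
 ⟨⟨[(nat_lit 60), (nat_lit 100), (nat_lit 120)], [(nat_lit 0), (nat_lit 0), (nat_lit 1164)], [((nat_lit 0), (nat_lit 0), (nat_lit 0)), ((nat_lit 0), (nat_lit 0), (nat_lit 0)), ((nat_lit 1000), (nat_lit 933), (nat_lit 572))], ((nat_lit 93), (nat_lit 100), (nat_lit 58))⟩, (nat_lit 3924299), (nat_lit 223), (nat_lit 223), (nat_lit 0), (nat_lit 171929), [(nat_lit 4189876974), (nat_lit 6250000008), (nat_lit 7968000000)], [], [(nat_lit 19504837296), (nat_lit 21900405824), (nat_lit 19409155266), (nat_lit 21828205847), (nat_lit 13627316401), (nat_lit 15988842846), (nat_lit 13832956960), (nat_lit 16051534198)], (nat_lit 1271251), (nat_lit 1271251), (nat_lit 490000), (nat_lit 780000), (nat_lit 0), (nat_lit 780000), [(nat_lit 780000), (nat_lit 1435001), (nat_lit 1271251)], [(nat_lit 10), (nat_lit 54), (nat_lit 272), (nat_lit 60), (nat_lit 9)]⟩,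
 ⟨⟨[(nat_lit 60), (nat_lit 100), (nat_lit 120)], [(nat_lit 0), (nat_lit 0), (nat_lit 1164)], [((nat_lit 0), (nat_lit 0), (nat_lit 0)), ((nat_lit 0), (nat_lit 0), (nat_lit 0)), ((nat_lit 1000), (nat_lit 933), (nat_lit 572))], ((nat_lit 93), (nat_lit 100), (nat_lit 58))⟩, (nat_lit 1615246), (nat_lit 275), (nat_lit 275), (nat_lit 0), (nat_lit 259468), [(nat_lit 3282000000), (nat_lit 6250000000), (nat_lit 7968000000)], [], [(nat_lit 22428170712), (nat_lit 25299029408), (nat_lit 22023137472), (nat_lit 24719462172), (nat_lit 18061079256), (nat_lit 18079125508), (nat_lit 21853755806), (nat_lit 17511614952)], (nat_lit 1271251), (nat_lit 1271251), (nat_lit 490000), (nat_lit 780000), (nat_lit 0), (nat_lit 1412501), [(nat_lit 780000), (nat_lit 1435001), (nat_lit 1271251)], [(nat_lit 10), (nat_lit 54), (nat_lit 317), (nat_lit 100), (nat_lit 11)]⟩,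
 Rw.none⟩)) (.spl (nat_lit 6) (nat_lit 20) (.spl (nat_lit 1) (nat_lit 280) (.spl (nat_lit 0) (nat_lit 290) (.leaf ⟨(nat_lit 401), (nat_lit 432), (nat_lit 0), (nat_lit 167), (nat_lit 4404), (nat_lit 6053), (nat_lit 4670), (nat_lit 1826), (nat_lit 0), (nat_lit 0), (nat_lit 1604000), [((nat_lit 290), [((nat_lit 33), (nat_lit 5), (nat_lit 401))])], ⟨(nat_lit 6), false, false, false, (nat_lit 152), (nat_lit 5244), (nat_lit 5478), [(nat_lit 1317913), (nat_lit 1323256), (nat_lit 1360628), (nat_lit 1366027), (nat_lit 1392847), (nat_lit 1396427), (nat_lit 1435559), (nat_lit 1439196)]⟩, ⟨(nat_lit 3), false, false, false, (nat_lit 84), (nat_lit 5244), (nat_lit 5478), [(nat_lit 1039905), (nat_lit 1048601), (nat_lit 1146690), (nat_lit 1155528), (nat_lit 1264704), (nat_lit 1268114), (nat_lit 1371489), (nat_lit 1375042)]⟩, (nat_lit 3070100), (nat_lit 54897573), (nat_lit 8643222), (nat_lit 3459205), (nat_lit 5), (nat_lit 0), [], [⟨(nat_lit 0), (nat_lit 100), (nat_lit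 92), (nat_lit 29), (nat_lit 244263800)⟩], [⟨(nat_lit 1), (nat_lit 44), (nat_lit 96), (nat_lit 100), (nat_lit 146129533)⟩], [],
 ⟨⟨[(nat_lit 60), (nat_lit 100), (nat_lit 120)], [(nat_lit 0), (nat_lit 0), (nat_lit 1164)], [((nat_lit 0), (nat_lit 0), (nat_lit 0)), ((nat_lit 0), (nat_lit 0), (nat_lit 0)), ((nat_lit 1000), (nat_lit 933), (nat_lit 572))], ((nat_lit 92), (nat_lit 100), (nat_lit 44))⟩, (nat_lit 395524), (nat_lit 216), (nat_lit 216), (nat_lit 0), (nat_lit 87239), [(nat_lit 3697287343), (nat_lit 2698801555), (nat_lit 677018000)], [(nat_lit 0), (nat_lit 0), (nat_lit 0)], [(nat_lit 16078448924), (nat_lit 17025960408), (nat_lit 16536643126), (nat_lit 17422990887), (nat_lit 13708689920), (nat_lit 14539198417), (nat_lit 14169282748), (nat_lit 14952030907)], (nat_lit 1271251), (nat_lit 1271251), (nat_lit 490000), (nat_lit 780000), (nat_lit 0), (nat_lit 780000), [(nat_lit 780000), (nat_lit 1435001), (nat_lit 1271251)], [(nat_lit 10), (nat_lit 54),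 (nat_lit 272), (nat_lit 60), (nat_lit 9)]⟩,
 ⟨⟨[(nat_lit 80), (nat_lit 120), (nat_lit 140)], [(nat_lit 0), (nat_lit 0), (nat_lit 1164)], [((nat_lit 0), (nat_lit 0), (nat_lit 0)), ((nat_lit 0), (nat_lit 0), (nat_lit 0)), ((nat_lit 941), (nat_lit 1000), (nat_lit 576))], ((nat_lit 100), (nat_lit 99), (nat_lit 44))⟩, (nat_lit 1726728), (nat_lit 211), (nat_lit 211), (nat_lit 0), (nat_lit 151508), [(nat_lit 2808112000), (nat_lit 4772832000), (nat_lit 5895358000)], [], [(nat_lit 11960964228), (nat_lit 13230035554), (nat_lit 13516125638), (nat_lit 13115348136), (nat_lit 19867168988), (nat_lit 20875829758), (nat_lit 19424557474), (nat_lit 20375626149)], (nat_lit 1271251), (nat_lit 1271251), (nat_lit 490000), (nat_lit 780000), (nat_lit 1271251), (nat_lit 1271251), [(nat_lit 1100000), (nat_lit 1785001), (nat_lit 1271251)], [(nat_lit 17), (nat_lit 58), (nat_lit 428), (nat_lit 200), (nat_lit 12)]⟩,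
 ⟨⟨[(nat_lit 140), (nat_lit 160), (nat_lit 180)], [(nat_lit 0), (nat_lit 0), (nat_lit 799)], [((nat_lit 0), (nat_lit 0), (nat_lit 0)), ((nat_lit 0), (nat_lit 0), (nat_lit 0)), ((nat_lit 728), (nat_lit 1000), (nat_lit 454))], ((nat_lit 100), (nat_lit 71), (nat_lit 48))⟩, (nat_lit 146727), (nat_lit 300), (nat_lit 782), (nat_lit 12391400), (nat_lit 828873), [(nat_lit 1643614000), (nat_lit 1982624000), (nat_lit 2347686000)], [], [(nat_lit 10461268344), (nat_lit 9956281614), (nat_lit 9150968776), (nat_lit 9129201565), (nat_lit 10316941020), (nat_lit 9763166092), (nat_lit 8963392736), (nat_lit 8382135773)], (nat_lit 780000), (nat_lit 1598751), (nat_lit 0), (nat_lit 780000), (nat_lit 1271251), (nat_lit 1271251), [(nat_lit 1977501), (nat_lit 1271251), (nat_lit 1271251)], [(nat_lit 31), (nat_lit 65), (nat_lit 428), (nat_lit 200), (nat_lit 10)]⟩⟩) (.leaf ⟨(nat_lit 0), (nat_lit 739), (nat_lit 0), (nat_lit 261), (nat_lit 0), (nat_lit 5475), (nat_lit 7742), (nat_lit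 2854), (nat_lit 0), (nat_lit 0), (nat_lit 0), [], Pd.none, Pd.none, (nat_lit 0), (nat_lit 1), (nat_lit 0), (nat_lit 0), (nat_lit 5), (nat_lit 0), [], [⟨(nat_lit 0), (nat_lit 100), (nat_lit 89), (nat_lit 34), (nat_lit 262248206)⟩], [⟨(nat_lit 1), (nat_lit 44), (nat_lit 96), (nat_lit 100), (nat_lit 259926614)⟩], [],
 ⟨⟨[(nat_lit 60), (nat_lit 80), (nat_lit 100)], [(nat_lit 0), (nat_lit 151), (nat_lit 679)], [((nat_lit 0), (nat_lit 0), (nat_lit 0)), ((nat_lit 1000), (nat_lit 953), (nat_lit 118)), ((nat_lit 1000), (nat_lit 894), (nat_lit 411))], ((nat_lit 89), (nat_lit 100), (nat_lit 44))⟩, (nat_lit 5957740), (nat_lit 213), (nat_lit 213), (nat_lit 0), (nat_lit 113819), [(nat_lit 3282000028), (nat_lit 4688000189), (nat_lit 6250000000)], [], [(nat_lit 16686227681), (nat_lit 17571957000), (nat_lit 17161295446), (nat_lit 18066435290), (nat_lit 14731743746), (nat_lit 15579880490), (nat_lit 15284300649), (nat_lit 16084244609)], (nat_lit 1271251), (nat_lit 1271251),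 (nat_lit 490000), (nat_lit 780000), (nat_lit 0), (nat_lit 780000), [(nat_lit 780000), (nat_lit 1100000), (nat_lit 1442501)], [(nat_lit 9), (nat_lit 50), (nat_lit 272), (nat_lit 60), (nat_lit 11)]⟩,
 ⟨⟨[(nat_lit 80), (nat_lit 120), (nat_lit 140)], [(nat_lit 0), (nat_lit 0), (nat_lit 1164)], [((nat_lit 0), (nat_lit 0), (nat_lit 0)), ((nat_lit 0), (nat_lit 0), (nat_lit 0)), ((nat_lit 941), (nat_lit 1000), (nat_lit 576))], ((nat_lit 100), (nat_lit 99), (nat_lit 44))⟩, (nat_lit 2879902), (nat_lit 230), (nat_lit 230), (nat_lit 0), (nat_lit 205626), [(nat_lit 4688000000), (nat_lit 7968000000), (nat_lit 9842000000)], [], [(nat_lit 20068828008), (nat_lit 22180493962), (nat_lit 22655082474), (nat_lit 21996074418), (nat_lit 33163502032), (nat_lit 34842922720), (nat_lit 32435061208), (nat_lit 34018877344)], (nat_lit 1271251), (nat_lit 1271251), (nat_lit 490000), (nat_lit 780000), (nat_lit 1271251), (nat_lit 1271251), [(nat_lit 1100000), (nat_lit 1785001), (nat_lit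 1271251)], [(nat_lit 17), (nat_lit 58), (nat_lit 428), (nat_lit 200), (nat_lit 12)]⟩,
 ⟨⟨[(nat_lit 140), (nat_lit 160), (nat_lit 180)], [(nat_lit 0), (nat_lit 0), (nat_lit 799)], [((nat_lit 0), (nat_lit 0), (nat_lit 0)), ((nat_lit 0), (nat_lit 0), (nat_lit 0)), ((nat_lit 728), (nat_lit 1000), (nat_lit 454))], ((nat_lit 100), (nat_lit 71), (nat_lit 48))⟩, (nat_lit 229314), (nat_lit 300), (nat_lit 922), (nat_lit 19366201), (nat_lit 1128634), [(nat_lit 2568762000), (nat_lit 3098592000), (nat_lit 3669138000)], [], [(nat_lit 16636640944), (nat_lit 15753702856), (nat_lit 14690607099), (nat_lit 14267907654), (nat_lit 16123775828), (nat_lit 15258244288), (nat_lit 14007895408), (nat_lit 13099380158)], (nat_lit 780000), (nat_lit 1598751), (nat_lit 0), (nat_lit 780000), (nat_lit 1271251), (nat_lit 1271251), [(nat_lit 1977501), (nat_lit 1271251), (nat_lit 1271251)], [(nat_lit 31), (nat_lit 65), (nat_lit 428), (nat_lit 200), (nat_lit 10)]⟩⟩)) (.spl (nat_lit 0)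 (nat_lit 290) (.ord (.leaf ⟨(nat_lit 0), (nat_lit 796), (nat_lit 0), (nat_lit 204), (nat_lit 0), (nat_lit 8967), (nat_lit 6179), (nat_lit 2281), (nat_lit 2781160), (nat_lit 0), (nat_lit 0), [], Pd.none, Pd.none, (nat_lit 0), (nat_lit 1), (nat_lit 0), (nat_lit 0), (nat_lit 5), (nat_lit 0), [], [⟨(nat_lit 0), (nat_lit 100), (nat_lit 92), (nat_lit 29), (nat_lit 377045644)⟩], [⟨(nat_lit 1), (nat_lit 56), (nat_lit 92), (nat_lit 100), (nat_lit 336554241)⟩], [],
 ⟨⟨[(nat_lit 60), (nat_lit 100), (nat_lit 120)], [(nat_lit 0), (nat_lit 0), (nat_lit 1164)], [((nat_lit 0), (nat_lit 0), (nat_lit 0)), ((nat_lit 0), (nat_lit 0), (nat_lit 0)), ((nat_lit 1000), (nat_lit 933), (nat_lit 572))], ((nat_lit 92), (nat_lit 100), (nat_lit 44))⟩, (nat_lit 4091286), (nat_lit 218), (nat_lit 218), (nat_lit 0), (nat_lit 115977), [(nat_lit 4326301104), (nat_lit 6250000183), (nat_lit 7968000000)], [], [(nat_lit 19339689988), (nat_lit 20566993655), (nat_lit 19253004665), (nat_lit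 20537943529), (nat_lit 13306047766), (nat_lit 14516026706), (nat_lit 13484064380), (nat_lit 14620406040)], (nat_lit 1271251), (nat_lit 1271251), (nat_lit 490000), (nat_lit 780000), (nat_lit 0), (nat_lit 780000), [(nat_lit 780000), (nat_lit 1435001), (nat_lit 1271251)], [(nat_lit 10), (nat_lit 54), (nat_lit 272), (nat_lit 60), (nat_lit 9)]⟩,
 ⟨⟨[(nat_lit 60), (nat_lit 100), (nat_lit 120)], [(nat_lit 0), (nat_lit 0), (nat_lit 1164)], [((nat_lit 0), (nat_lit 0), (nat_lit 0)), ((nat_lit 0), (nat_lit 0), (nat_lit 0)), ((nat_lit 1000), (nat_lit 933), (nat_lit 572))], ((nat_lit 92), (nat_lit 100), (nat_lit 44))⟩, (nat_lit 2204410), (nat_lit 190), (nat_lit 190), (nat_lit 0), (nat_lit 177136), [(nat_lit 3282000000), (nat_lit 6250000000), (nat_lit 7968000000)], [], [(nat_lit 19708171705), (nat_lit 20370117194), (nat_lit 19896248866), (nat_lit 20520434630), (nat_lit 32040730148), (nat_lit 32466368712), (nat_lit 31584080872), (nat_lit 31987718286)], (nat_lit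 1271251), (nat_lit 1271251), (nat_lit 490000), (nat_lit 780000), (nat_lit 1271251), (nat_lit 1271251), [(nat_lit 780000), (nat_lit 1435001), (nat_lit 1271251)], [(nat_lit 10), (nat_lit 54), (nat_lit 373), (nat_lit 150), (nat_lit 12)]⟩,
 ⟨⟨[(nat_lit 140), (nat_lit 160), (nat_lit 180)], [(nat_lit 0), (nat_lit 0), (nat_lit 799)], [((nat_lit 0), (nat_lit 0), (nat_lit 0)), ((nat_lit 0), (nat_lit 0), (nat_lit 0)), ((nat_lit 728), (nat_lit 1000), (nat_lit 454))], ((nat_lit 100), (nat_lit 71), (nat_lit 48))⟩, (nat_lit 179234), (nat_lit 300), (nat_lit 923), (nat_lit 15136801), (nat_lit 1130506), [(nat_lit 2007768000), (nat_lit 2421888000), (nat_lit 2867832000)], [], [(nat_lit 12786846466), (nat_lit 12075248740), (nat_lit 11225736636), (nat_lit 11181738481), (nat_lit 12531004472), (nat_lit 11832254662), (nat_lit 10748978752), (nat_lit 10029013905)], (nat_lit 780000), (nat_lit 1598751), (nat_lit 0), (nat_lit 780000), (nat_lit 1271251), (nat_lit 1271251), [(nat_lit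 1977501), (nat_lit 1271251), (nat_lit 1271251)], [(nat_lit 31), (nat_lit 65), (nat_lit 428), (nat_lit 200), (nat_lit 10)]⟩⟩)) (.leaf ⟨(nat_lit 0), (nat_lit 795), (nat_lit 0), (nat_lit 205), (nat_lit 0), (nat_lit 5628), (nat_lit 7349), (nat_lit 2240), (nat_lit 7950), (nat_lit 0), (nat_lit 0), [], Pd.none, Pd.none, (nat_lit 0), (nat_lit 1), (nat_lit 0), (nat_lit 0), (nat_lit 5), (nat_lit 0), [⟨(nat_lit 0), (nat_lit 100), (nat_lit 99), (nat_lit 92), (nat_lit 605950106)⟩], [⟨(nat_lit 0), (nat_lit 100), (nat_lit 89), (nat_lit 34), (nat_lit 202223607)⟩], [⟨(nat_lit 1), (nat_lit 59), (nat_lit 90), (nat_lit 100), (nat_lit 296539745)⟩], [],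
 ⟨⟨[(nat_lit 60), (nat_lit 80), (nat_lit 100)], [(nat_lit 0), (nat_lit 151), (nat_lit 679)], [((nat_lit 0), (nat_lit 0), (nat_lit 0)), ((nat_lit 1000), (nat_lit 953), (nat_lit 118)), ((nat_lit 1000), (nat_lit 894), (nat_lit 411))], ((nat_lit 89), (nat_lit 100), (nat_lit 44))⟩, (nat_lit 5685163), (nat_lit 217), (nat_lit 217), (nat_lit 0), (nat_lit 166833), [(nat_lit 3282000001), (nat_lit 4688000007), (nat_lit 6250000000)], [], [(nat_lit 16718546958), (nat_lit 17780061480), (nat_lit 17162622038), (nat_lit 18019997179), (nat_lit 14578662818), (nat_lit 15374704240), (nat_lit 15027808873), (nat_lit 15840545028)], (nat_lit 1271251), (nat_lit 1271251), (nat_lit 490000), (nat_lit 780000), (nat_lit 0), (nat_lit 780000), [(nat_lit 780000), (nat_lit 1100000), (nat_lit 1442501)], [(nat_lit 9), (nat_lit 50), (nat_lit 272), (nat_lit 60), (nat_lit 11)]⟩,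
 ⟨⟨[(nat_lit 60), (nat_lit 100), (nat_lit 120)], [(nat_lit 0), (nat_lit 0), (nat_lit 1164)], [((nat_lit 0), (nat_lit 0), (nat_lit 0)), ((nat_lit 0), (nat_lit 0), (nat_lit 0)), ((nat_lit 1000), (nat_lit 933), (nat_lit 572))], ((nat_lit 92), (nat_lit 100), (nat_lit 44))⟩, (nat_lit 2003798), (nat_lit 215), (nat_lit 215), (nat_lit 0), (nat_lit 255493), [(nat_lit 3282000000), (nat_lit 6250000000), (nat_lit 7968000000)], [], [(nat_lit 22284705589), (nat_lit 23537743408), (nat_lit 22207949130), (nat_lit 23386575409), (nat_lit 32793662876), (nat_lit 33929085935), (nat_lit 32160143924), (nat_lit 33022233009)], (nat_lit 1271251), (nat_lit 1271251), (nat_lit 490000), (nat_lit 780000), (nat_lit 1271251), (nat_lit 1271251), [(nat_lit 780000), (nat_lit 1435001), (nat_lit 1271251)], [(nat_lit 10), (nat_lit 54), (nat_lit 373), (nat_lit 150), (nat_lit 12)]⟩,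
 ⟨⟨[(nat_lit 140), (nat_lit 160), (nat_lit 180)], [(nat_lit 0), (nat_lit 0), (nat_lit 799)], [((nat_lit 0), (nat_lit 0), (nat_lit 0)), ((nat_lit 0), (nat_lit 0), (nat_lit 0)), ((nat_lit 728), (nat_lit 1000), (nat_lit 454))], ((nat_lit 100), (nat_lit 71), (nat_lit 48))⟩, (nat_lit 180113), (nat_lit 300), (nat_lit 1193), (nat_lit 15211000), (nat_lit 1742788), [(nat_lit 2017610000), (nat_lit 2433760000), (nat_lit 2881890000)], [], [(nat_lit 13112768120), (nat_lit 12383339578), (nat_lit 11668550465), (nat_lit 11205617480), (nat_lit 12669169300), (nat_lit 11987515080), (nat_lit 11008912640), (nat_lit 10296047588)], (nat_lit 780000), (nat_lit 1598751), (nat_lit 0), (nat_lit 780000), (nat_lit 1271251), (nat_lit 1271251), [(nat_lit 1977501), (nat_lit 1271251), (nat_lit 1271251)], [(nat_lit 31), (nat_lit 65), (nat_lit 428), (nat_lit 200), (nat_lit 10)]⟩⟩))) (.spl (nat_lit 1) (nat_lit 280) (.dle (nat_lit 0)) (.leaf ⟨(nat_lit 0), (nat_lit 806), (nat_lit 0), (nat_lit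 194), (nat_lit 20181), (nat_lit 5620), (nat_lit 6125), (nat_lit 2314), (nat_lit 2017506), (nat_lit 0), (nat_lit 0), [], Pd.none, Pd.none, (nat_lit 0), (nat_lit 1), (nat_lit 0), (nat_lit 0), (nat_lit 5), (nat_lit 0), [⟨(nat_lit 0), (nat_lit 100), (nat_lit 100), (nat_lit 90), (nat_lit 587652989)⟩], [⟨(nat_lit 0), (nat_lit 100), (nat_lit 90), (nat_lit 31), (nat_lit 201211159)⟩], [⟨(nat_lit 1), (nat_lit 59), (nat_lit 90), (nat_lit 100), (nat_lit 354778172)⟩], [],
 ⟨⟨[(nat_lit 60), (nat_lit 100), (nat_lit 120)], [(nat_lit 0), (nat_lit 0), (nat_lit 1164)], [((nat_lit 0), (nat_lit 0), (nat_lit 0)), ((nat_lit 0), (nat_lit 0), (nat_lit 0)), ((nat_lit 1000), (nat_lit 933), (nat_lit 572))], ((nat_lit 93), (nat_lit 100), (nat_lit 58))⟩, (nat_lit 3456089), (nat_lit 214), (nat_lit 214), (nat_lit 0), (nat_lit 57327), [(nat_lit 3282000245), (nat_lit 6250000058), (nat_lit 7968000000)], [], [(nat_lit 19763517524), (nat_lit 21581340444), (nat_lit 20183288423), (nat_lit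 21880360298), (nat_lit 17657873183), (nat_lit 19248658443), (nat_lit 18152752033), (nat_lit 19653420348)], (nat_lit 1271251), (nat_lit 1271251), (nat_lit 490000), (nat_lit 780000), (nat_lit 0), (nat_lit 780000), [(nat_lit 780000), (nat_lit 1435001), (nat_lit 1271251)], [(nat_lit 10), (nat_lit 54), (nat_lit 272), (nat_lit 60), (nat_lit 9)]⟩,
 ⟨⟨[(nat_lit 60), (nat_lit 100), (nat_lit 120)], [(nat_lit 0), (nat_lit 0), (nat_lit 1164)], [((nat_lit 0), (nat_lit 0), (nat_lit 0)), ((nat_lit 0), (nat_lit 0), (nat_lit 0)), ((nat_lit 1000), (nat_lit 933), (nat_lit 572))], ((nat_lit 93), (nat_lit 100), (nat_lit 58))⟩, (nat_lit 2160256), (nat_lit 163), (nat_lit 163), (nat_lit 0), (nat_lit 88216), [(nat_lit 3282000000), (nat_lit 6250000000), (nat_lit 7968000000)], [], [(nat_lit 19854123391), (nat_lit 21204943516), (nat_lit 20048127079), (nat_lit 21290964891), (nat_lit 32083959016), (nat_lit 32880200500), (nat_lit 31587886516), (nat_lit 32390502500)], (nat_lit 1271251),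 (nat_lit 1271251), (nat_lit 490000), (nat_lit 780000), (nat_lit 1271251), (nat_lit 1271251), [(nat_lit 780000), (nat_lit 1435001), (nat_lit 1271251)], [(nat_lit 10), (nat_lit 54), (nat_lit 373), (nat_lit 150), (nat_lit 12)]⟩,
 ⟨⟨[(nat_lit 140), (nat_lit 180), (nat_lit 200)], [(nat_lit 0), (nat_lit 0), (nat_lit 2835)], [((nat_lit 0), (nat_lit 0), (nat_lit 0)), ((nat_lit 0), (nat_lit 0), (nat_lit 0)), ((nat_lit 363), (nat_lit 1000), (nat_lit 798))], ((nat_lit 0), (nat_lit 0), (nat_lit 0))⟩, (nat_lit 53376), (nat_lit 300), (nat_lit 731), (nat_lit 15151400), (nat_lit 571817), [(nat_lit 1909348000), (nat_lit 2727252000), (nat_lit 3181600000)], [], [(nat_lit 13616552816), (nat_lit 12901722240), (nat_lit 11707969805), (nat_lit 11026573540), (nat_lit 13479994048), (nat_lit 12628750522), (nat_lit 11533797888), (nat_lit 10724779679)], (nat_lit 780000), (nat_lit 1598751), (nat_lit 0), (nat_lit 780000), (nat_lit 1271251), (nat_lit 1271251), [(nat_lit 1977501),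 (nat_lit 1271251), (nat_lit 1271251)], [(nat_lit 32), (nat_lit 67), (nat_lit 428), (nat_lit 200), (nat_lit 9)]⟩⟩))))
noncomputable def c6_5 : Tr Lf :=
 (.spl (nat_lit 2) (nat_lit 260) (.spl (nat_lit 5) (nat_lit 120) (.spl (nat_lit 6) (nat_lit 12) (.leaf ⟨(nat_lit 0), (nat_lit 941), (nat_lit 0), (nat_lit 59), (nat_lit 0), (nat_lit 7437), (nat_lit 10769), (nat_lit 1044), (nat_lit 199597), (nat_lit 5676129909650), (nat_lit 0), [], Pd.none, Pd.none, (nat_lit 0), (nat_lit 1), (nat_lit 0), (nat_lit 0), (nat_lit 5), (nat_lit 0), [⟨(nat_lit 0), (nat_lit 100), (nat_lit 95), (nat_lit 78), (nat_lit 272320954)⟩, ⟨(nat_lit 0), (nat_lit 100), (nat_lit 94), (nat_lit 59), (nat_lit 581291029)⟩], [⟨(nat_lit 0), (nat_lit 100), (nat_lit 91), (nat_lit 63), (nat_lit 87962683)⟩], [], [],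
 ⟨⟨[(nat_lit 60), (nat_lit 80), (nat_lit 100)], [(nat_lit 0), (nat_lit 0), (nat_lit 534)], [((nat_lit 0), (nat_lit 0), (nat_lit 0)), ((nat_lit 0), (nat_lit 0), (nat_lit 0)), ((nat_lit 1000), (nat_lit 917), (nat_lit 393))], ((nat_lit 92), (nat_lit 100), (nat_lit 34))⟩, (nat_lit 2134294), (nat_lit 236), (nat_lit 236), (nat_lit 0), (nat_lit 155495), [(nat_lit 3282000070), (nat_lit 4688000048), (nat_lit 6250000000)], [], [(nat_lit 20573525037), (nat_lit 23666756950), (nat_lit 17838052223), (nat_lit 19804157392), (nat_lit 17653983303), (nat_lit 19487997931), (nat_lit 15296188870), (nat_lit 17054033260)], (nat_lit 1271251), (nat_lit 1271251), (nat_lit 169688), (nat_lit 490000), (nat_lit 111251), (nat_lit 780000), [(nat_lit 780000), (nat_lit 1100000), (nat_lit 1442501)], [(nat_lit 9), (nat_lit 50), (nat_lit 260), (nat_lit 50), (nat_lit 10)]⟩,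
 ⟨⟨[(nat_lit 80), (nat_lit 100), (nat_lit 120)], [(nat_lit 0), (nat_lit 0), (nat_lit 511)], [((nat_lit 0), (nat_lit 0), (nat_lit 0)), ((nat_lit 0), (nat_lit 0), (nat_lit 0)), ((nat_lit 1000), (nat_lit 997), (nat_lit 383))], ((nat_lit 99), (nat_lit 100), (nat_lit 34))⟩, (nat_lit 14724), (nat_lit 285), (nat_lit 285), (nat_lit 0), (nat_lit 163610), [(nat_lit 4688000000), (nat_lit 6250000000), (nat_lit 7968000000)], [], [(nat_lit 24300563797), (nat_lit 32948261982), (nat_lit 21589446008), (nat_lit 27061553384), (nat_lit 24692599760), (nat_lit 23649333365), (nat_lit 26636429330), (nat_lit 19171328696)], (nat_lit 1271251), (nat_lit 1271251), (nat_lit 169688), (nat_lit 490000), (nat_lit 0), (nat_lit 780000), [(nat_lit 1100000), (nat_lit 1442501), (nat_lit 1271251)], [(nat_lit 16), (nat_lit 54), (nat_lit 260), (nat_lit 50), (nat_lit 9)]⟩,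
 ⟨⟨[(nat_lit 100), (nat_lit 120), (nat_lit 140)], [(nat_lit 0), (nat_lit 254), (nat_lit 778)], [((nat_lit 0), (nat_lit 0), (nat_lit 0)), ((nat_lit 1000), (nat_lit 1000), (nat_lit 198)), ((nat_lit 960), (nat_lit 1000), (nat_lit 392))], ((nat_lit 100), (nat_lit 97), (nat_lit 34))⟩, (nat_lit 251898), (nat_lit 300), (nat_lit 365), (nat_lit 3687500), (nat_lit 187524), [(nat_lit 368750000), (nat_lit 470112000), (nat_lit 580678000)], [], [(nat_lit 2105416071), (nat_lit 2275152647), (nat_lit 1584854830), (nat_lit 1585708740), (nat_lit 1569820649), (nat_lit 1416554726), (nat_lit 2018466229), (nat_lit 1040617723)], (nat_lit 1271251), (nat_lit 1271251), (nat_lit 111251), (nat_lit 780000), (nat_lit 0), (nat_lit 780000), [(nat_lit 1412501), (nat_lit 1271251), (nat_lit 1271251)], [(nat_lit 22), (nat_lit 58), (nat_lit 345), (nat_lit 125), (nat_lit 10)]⟩⟩) (.spl (nat_lit 1) (nat_lit 280) (.spl (nat_lit 1) (nat_lit 260) (.leaf ⟨(nat_lit 0), (nat_lit 794), (nat_lit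 0), (nat_lit 206), (nat_lit 68550), (nat_lit 7789), (nat_lit 11179), (nat_lit 2050), (nat_lit 0), (nat_lit 22690605784846), (nat_lit 0), [], Pd.none, Pd.none, (nat_lit 0), (nat_lit 1), (nat_lit 0), (nat_lit 0), (nat_lit 5), (nat_lit 0), [⟨(nat_lit 0), (nat_lit 100), (nat_lit 91), (nat_lit 77), (nat_lit 2021977605)⟩], [⟨(nat_lit 0), (nat_lit 100), (nat_lit 91), (nat_lit 77), (nat_lit 443528728)⟩], [⟨(nat_lit 0), (nat_lit 100), (nat_lit 99), (nat_lit 45), (nat_lit 2590535)⟩, ⟨(nat_lit 0), (nat_lit 100), (nat_lit 100), (nat_lit 60), (nat_lit 456640188)⟩], [],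
 ⟨⟨[(nat_lit 60), (nat_lit 100), (nat_lit 120)], [(nat_lit 0), (nat_lit 0), (nat_lit 1164)], [((nat_lit 0), (nat_lit 0), (nat_lit 0)), ((nat_lit 0), (nat_lit 0), (nat_lit 0)), ((nat_lit 1000), (nat_lit 933), (nat_lit 572))], ((nat_lit 92), (nat_lit 100), (nat_lit 48))⟩, (nat_lit 3798288), (nat_lit 226), (nat_lit 226), (nat_lit 0), (nat_lit 20375), [(nat_lit 4012595651), (nat_lit 6250000001), (nat_lit 7968000000)], [], [(nat_lit 22059047994), (nat_lit 24328021992), (nat_lit 18262032749), (nat_lit 20491264215), (nat_lit 17674338704), (nat_lit 19923740311), (nat_lit 14526869062), (nat_lit 16724787489)], (nat_lit 1271251), (nat_lit 1271251), (nat_lit 169688), (nat_lit 490000), (nat_lit 111251), (nat_lit 780000), [(nat_lit 780000), (nat_lit 1435001), (nat_lit 1271251)], [(nat_lit 10), (nat_lit 54), (nat_lit 260), (nat_lit 50), (nat_lit 9)]⟩,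
 ⟨⟨[(nat_lit 80), (nat_lit 120), (nat_lit 140)], [(nat_lit 0), (nat_lit 0), (nat_lit 1164)], [((nat_lit 0), (nat_lit 0), (nat_lit 0)), ((nat_lit 0), (nat_lit 0), (nat_lit 0)), ((nat_lit 941), (nat_lit 1000), (nat_lit 576))], ((nat_lit 100), (nat_lit 98), (nat_lit 48))⟩, (nat_lit 6009129), (nat_lit 284), (nat_lit 284), (nat_lit 0), (nat_lit 24402), [(nat_lit 4688000000), (nat_lit 7968000000), (nat_lit 9842000000)], [], [(nat_lit 24812393104), (nat_lit 27400308348), (nat_lit 18787576776), (nat_lit 21435251740), (nat_lit 15662876567), (nat_lit 18304766429), (nat_lit 12221031750), (nat_lit 13475678694)], (nat_lit 1271251), (nat_lit 1271251), (nat_lit 169688), (nat_lit 490000), (nat_lit 0), (nat_lit 780000), [(nat_lit 1100000), (nat_lit 1785001), (nat_lit 1271251)], [(nat_lit 17), (nat_lit 58), (nat_lit 345), (nat_lit 125), (nat_lit 10)]⟩,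
 ⟨⟨[(nat_lit 100), (nat_lit 120), (nat_lit 140)], [(nat_lit 0), (nat_lit 254), (nat_lit 778)], [((nat_lit 0), (nat_lit 0), (nat_lit 0)), ((nat_lit 1000), (nat_lit 1000), (nat_lit 198)), ((nat_lit 960), (nat_lit 1000), (nat_lit 392))], ((nat_lit 100), (nat_lit 93), (nat_lit 48))⟩, (nat_lit 2519724), (nat_lit 295), (nat_lit 295), (nat_lit 0), (nat_lit 24622), [(nat_lit 1287500000), (nat_lit 1641408000), (nat_lit 2027452000)], [], [(nat_lit 4347410273), (nat_lit 5133015879), (nat_lit 3374786524), (nat_lit 4010482237), (nat_lit 3247691099), (nat_lit 3723116866), (nat_lit 4004521837), (nat_lit 2836379918)], (nat_lit 1271251), (nat_lit 1271251), (nat_lit 111251), (nat_lit 780000), (nat_lit 0), (nat_lit 780000), [(nat_lit 1412501), (nat_lit 1271251), (nat_lit 1271251)], [(nat_lit 22), (nat_lit 58), (nat_lit 345), (nat_lit 125), (nat_lit 10)]⟩⟩) (.trZ (nat_lit 0) (nat_lit 1) (nat_lit 3) (nat_lit 100) (nat_lit 96) (nat_lit 69) (nat_lit 40) (.trZ (nat_lit 1)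 (nat_lit 2) (nat_lit 5) (nat_lit 100) (nat_lit 96) (nat_lit 40) (nat_lit 10) (.leaf ⟨(nat_lit 0), (nat_lit 808), (nat_lit 0), (nat_lit 192), (nat_lit 55373), (nat_lit 8022), (nat_lit 7808), (nat_lit 3504), (nat_lit 0), (nat_lit 0), (nat_lit 0), [], Pd.none, Pd.none, (nat_lit 0), (nat_lit 1), (nat_lit 0), (nat_lit 0), (nat_lit 5), (nat_lit 0), [⟨(nat_lit 0), (nat_lit 100), (nat_lit 95), (nat_lit 78), (nat_lit 1687668421)⟩], [⟨(nat_lit 0), (nat_lit 100), (nat_lit 91), (nat_lit 77), (nat_lit 486287351)⟩], [⟨(nat_lit 0), (nat_lit 100), (nat_lit 96), (nat_lit 69), (nat_lit 357230943)⟩], [],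
 ⟨⟨[(nat_lit 60), (nat_lit 100), (nat_lit 120)], [(nat_lit 0), (nat_lit 0), (nat_lit 1164)], [((nat_lit 0), (nat_lit 0), (nat_lit 0)), ((nat_lit 0), (nat_lit 0), (nat_lit 0)), ((nat_lit 1000), (nat_lit 933), (nat_lit 572))], ((nat_lit 92), (nat_lit 100), (nat_lit 48))⟩, (nat_lit 4021407), (nat_lit 223), (nat_lit 223), (nat_lit 0), (nat_lit 52838), [(nat_lit 4077706356), (nat_lit 6250000125), (nat_lit 7968000000)], [], [(nat_lit 21123054499), (nat_lit 23647006380), (nat_lit 17975090359), (nat_lit 20466118047), (nat_lit 16872657770), (nat_lit 19183173235), (nat_lit 14285399403), (nat_lit 16527235650)], (nat_lit 1271251), (nat_lit 1271251), (nat_lit 230000), (nat_lit 490000), (nat_lit 111251), (nat_lit 780000), [(nat_lit 780000), (nat_lit 1435001), (nat_lit 1271251)], [(nat_lit 10), (nat_lit 54), (nat_lit 260), (nat_lit 50), (nat_lit 9)]⟩,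
 ⟨⟨[(nat_lit 80), (nat_lit 100), (nat_lit 120)], [(nat_lit 0), (nat_lit 265), (nat_lit 768)], [((nat_lit 0), (nat_lit 0), (nat_lit 0)), ((nat_lit 1000), (nat_lit 959), (nat_lit 206)), ((nat_lit 1000), (nat_lit 958), (nat_lit 392))], ((nat_lit 97), (nat_lit 100), (nat_lit 48))⟩, (nat_lit 8183052), (nat_lit 239), (nat_lit 239), (nat_lit 0), (nat_lit 57590), [(nat_lit 4688000000), (nat_lit 6250000000), (nat_lit 7968000000)], [], [(nat_lit 17896540330), (nat_lit 21099657383), (nat_lit 15082597738), (nat_lit 17052264384), (nat_lit 13767766934), (nat_lit 15574598496), (nat_lit 11747231556), (nat_lit 13559938332)], (nat_lit 1271251), (nat_lit 1271251), (nat_lit 230000), (nat_lit 490000), (nat_lit 54688), (nat_lit 780000), [(nat_lit 1100000), (nat_lit 1442501), (nat_lit 1271251)], [(nat_lit 16), (nat_lit 54), (nat_lit 260), (nat_lit 50), (nat_lit 9)]⟩,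
 ⟨⟨[(nat_lit 100), (nat_lit 120), (nat_lit 140)], [(nat_lit 0), (nat_lit 254), (nat_lit 778)], [((nat_lit 0), (nat_lit 0), (nat_lit 0)), ((nat_lit 1000), (nat_lit 1000), (nat_lit 198)), ((nat_lit 960), (nat_lit 1000), (nat_lit 392))], ((nat_lit 100), (nat_lit 93), (nat_lit 48))⟩, (nat_lit 878749), (nat_lit 300), (nat_lit 302), (nat_lit 12000000), (nat_lit 65026), [(nat_lit 1200000000), (nat_lit 1529856000), (nat_lit 1889664000)], [], [(nat_lit 6513266857), (nat_lit 7073256798), (nat_lit 4284348208), (nat_lit 4779121617), (nat_lit 4003442456), (nat_lit 4494352396), (nat_lit 2007477794), (nat_lit 2433084502)], (nat_lit 1271251), (nat_lit 1271251), (nat_lit 111251), (nat_lit 780000), (nat_lit 54688), (nat_lit 780000), [(nat_lit 1412501), (nat_lit 1271251), (nat_lit 1271251)], [(nat_lit 22), (nat_lit 58), (nat_lit 345), (nat_lit 125), (nat_lit 10)]⟩⟩)))) (.trZ (nat_lit 0) (nat_lit 1) (nat_lit 3) (nat_lit 100) (nat_lit 100) (nat_lit 80) (nat_lit 60) (.trZ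 (nat_lit 1) (nat_lit 2) (nat_lit 5) (nat_lit 100) (nat_lit 92) (nat_lit 49) (nat_lit 20) (.leaf ⟨(nat_lit 0), (nat_lit 809), (nat_lit 0), (nat_lit 191), (nat_lit 26042), (nat_lit 9148), (nat_lit 9148), (nat_lit 3897), (nat_lit 644714834068), (nat_lit 0), (nat_lit 0), [], Pd.none, Pd.none, (nat_lit 0), (nat_lit 1), (nat_lit 0), (nat_lit 0), (nat_lit 5), (nat_lit 0), [⟨(nat_lit 0), (nat_lit 100), (nat_lit 100), (nat_lit 80), (nat_lit 1434597515)⟩], [⟨(nat_lit 0), (nat_lit 100), (nat_lit 91), (nat_lit 63), (nat_lit 533466642)⟩], [⟨(nat_lit 0), (nat_lit 100), (nat_lit 91), (nat_lit 63), (nat_lit 535409509)⟩], [],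
 ⟨⟨[(nat_lit 60), (nat_lit 100), (nat_lit 120)], [(nat_lit 0), (nat_lit 0), (nat_lit 1164)], [((nat_lit 0), (nat_lit 0), (nat_lit 0)), ((nat_lit 0), (nat_lit 0), (nat_lit 0)), ((nat_lit 1000), (nat_lit 933), (nat_lit 572))], ((nat_lit 92), (nat_lit 100), (nat_lit 48))⟩, (nat_lit 4233845), (nat_lit 216), (nat_lit 216), (nat_lit 0), (nat_lit 88985), [(nat_lit 4551014730), (nat_lit 6250000007), (nat_lit 7968000000)], [], [(nat_lit 19436781820), (nat_lit 22989557248), (nat_lit 17612965263), (nat_lit 20396089309), (nat_lit 14642194498), (nat_lit 17134350244), (nat_lit 13118468059), (nat_lit 15572542357)], (nat_lit 1271251), (nat_lit 1271251), (nat_lit 356250), (nat_lit 490000), (nat_lit 111251), (nat_lit 780000), [(nat_lit 780000), (nat_lit 1435001), (nat_lit 1271251)], [(nat_lit 10), (nat_lit 54), (nat_lit 260), (nat_lit 50), (nat_lit 9)]⟩,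
 ⟨⟨[(nat_lit 60), (nat_lit 100), (nat_lit 120)], [(nat_lit 0), (nat_lit 0), (nat_lit 1164)], [((nat_lit 0), (nat_lit 0), (nat_lit 0)), ((nat_lit 0), (nat_lit 0), (nat_lit 0)), ((nat_lit 1000), (nat_lit 933), (nat_lit 572))], ((nat_lit 92), (nat_lit 100), (nat_lit 48))⟩, (nat_lit 4233845), (nat_lit 216), (nat_lit 216), (nat_lit 0), (nat_lit 88985), [(nat_lit 3282000000), (nat_lit 6250000000), (nat_lit 7968000000)], [], [(nat_lit 19436781813), (nat_lit 22989557248), (nat_lit 17612965256), (nat_lit 20396089309), (nat_lit 14642194491), (nat_lit 17134350237), (nat_lit 13118468052), (nat_lit 15572542350)], (nat_lit 1271251), (nat_lit 1271251), (nat_lit 356250), (nat_lit 490000), (nat_lit 111251), (nat_lit 780000), [(nat_lit 780000), (nat_lit 1435001), (nat_lit 1271251)], [(nat_lit 10), (nat_lit 54), (nat_lit 260), (nat_lit 50), (nat_lit 9)]⟩,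
 ⟨⟨[(nat_lit 100), (nat_lit 120), (nat_lit 140)], [(nat_lit 0), (nat_lit 254), (nat_lit 778)], [((nat_lit 0), (nat_lit 0), (nat_lit 0)), ((nat_lit 1000), (nat_lit 1000), (nat_lit 198)), ((nat_lit 960), (nat_lit 1000), (nat_lit 392))], ((nat_lit 100), (nat_lit 93), (nat_lit 48))⟩, (nat_lit 656796), (nat_lit 300), (nat_lit 310), (nat_lit 11937500), (nat_lit 108296), [(nat_lit 1193750000), (nat_lit 1521888000), (nat_lit 1879822000)], [], [(nat_lit 5987283646), (nat_lit 7118574264), (nat_lit 3503193358), (nat_lit 4199993661), (nat_lit 3503193358), (nat_lit 4199993661), (nat_lit 1244291172), (nat_lit 1695010146)], (nat_lit 1271251), (nat_lit 1271251), (nat_lit 111251), (nat_lit 780000), (nat_lit 111251), (nat_lit 780000), [(nat_lit 1412501), (nat_lit 1271251), (nat_lit 1271251)], [(nat_lit 22), (nat_lit 58), (nat_lit 345), (nat_lit 125), (nat_lit 10)]⟩⟩))))) (.spl (nat_lit 0) (nat_lit 290) (.ord (.leaf ⟨(nat_lit 0), (nat_lit 0), (nat_lit 0), (nat_lit 1000),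 (nat_lit 52421), (nat_lit 6537), (nat_lit 8889), (nat_lit 7196), (nat_lit 987412), (nat_lit 1558107), (nat_lit 0), [], Pd.none, Pd.none, (nat_lit 0), (nat_lit 1), (nat_lit 0), (nat_lit 0), (nat_lit 0), (nat_lit 0), [⟨(nat_lit 0), (nat_lit 100), (nat_lit 94), (nat_lit 59), (nat_lit 1640563654)⟩], [⟨(nat_lit 0), (nat_lit 100), (nat_lit 92), (nat_lit 61), (nat_lit 986428196)⟩], [], [],
 ⟨⟨[(nat_lit 60), (nat_lit 100), (nat_lit 120)], [(nat_lit 0), (nat_lit 0), (nat_lit 1164)], [((nat_lit 0), (nat_lit 0), (nat_lit 0)), ((nat_lit 0), (nat_lit 0), (nat_lit 0)), ((nat_lit 1000), (nat_lit 933), (nat_lit 572))], ((nat_lit 92), (nat_lit 100), (nat_lit 48))⟩, (nat_lit 8855080), (nat_lit 247), (nat_lit 247), (nat_lit 0), (nat_lit 125333), [(nat_lit 3282006488), (nat_lit 6250000239), (nat_lit 7968000000)], [], [(nat_lit 21470766042), (nat_lit 22592556480), (nat_lit 18452670928), (nat_lit 19539528115), (nat_lit 18299807121), (nat_lit 19317528493), (nat_lit 15935546365),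 (nat_lit 16805346165)], (nat_lit 1271251), (nat_lit 1271251), (nat_lit 169688), (nat_lit 490000), (nat_lit 111251), (nat_lit 780000), [(nat_lit 780000), (nat_lit 1435001), (nat_lit 1271251)], [(nat_lit 10), (nat_lit 54), (nat_lit 260), (nat_lit 50), (nat_lit 9)]⟩,
 ⟨⟨[(nat_lit 80), (nat_lit 120), (nat_lit 140)], [(nat_lit 0), (nat_lit 0), (nat_lit 1164)], [((nat_lit 0), (nat_lit 0), (nat_lit 0)), ((nat_lit 0), (nat_lit 0), (nat_lit 0)), ((nat_lit 941), (nat_lit 1000), (nat_lit 576))], ((nat_lit 100), (nat_lit 98), (nat_lit 48))⟩, (nat_lit 7935847), (nat_lit 317), (nat_lit 317), (nat_lit 0), (nat_lit 276381), [(nat_lit 4688000000), (nat_lit 7968000000), (nat_lit 9842000000)], [], [(nat_lit 29978924315), (nat_lit 28136876327), (nat_lit 29365038174), (nat_lit 24944937998), (nat_lit 60054741405), (nat_lit 50275891393), (nat_lit 62854368384), (nat_lit 53228492507)], (nat_lit 1271251), (nat_lit 1271251), (nat_lit 169688), (nat_lit 490000), (nat_lit 780000),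 (nat_lit 3072501), [(nat_lit 1100000), (nat_lit 1785001), (nat_lit 1271251)], [(nat_lit 17), (nat_lit 58), (nat_lit 428), (nat_lit 200), (nat_lit 12)]⟩,
 ⟨⟨[(nat_lit 100), (nat_lit 120), (nat_lit 140)], [(nat_lit 0), (nat_lit 254), (nat_lit 778)], [((nat_lit 0), (nat_lit 0), (nat_lit 0)), ((nat_lit 1000), (nat_lit 1000), (nat_lit 198)), ((nat_lit 960), (nat_lit 1000), (nat_lit 392))], ((nat_lit 100), (nat_lit 93), (nat_lit 48))⟩, (nat_lit 4011609), (nat_lit 300), (nat_lit 352), (nat_lit 62500000), (nat_lit 339024), [(nat_lit 6250000000), (nat_lit 7968000000), (nat_lit 9842000000)], [], [(nat_lit 35999636499), (nat_lit 37395469185), (nat_lit 33020473198), (nat_lit 34271083724), (nat_lit 44695945965), (nat_lit 44546364755), (nat_lit 49842014184), (nat_lit 43279956598)], (nat_lit 1271251), (nat_lit 1271251), (nat_lit 111251), (nat_lit 780000), (nat_lit 780000), (nat_lit 3072501), [(nat_lit 1412501), (nat_lit 1271251), (nat_lit 1271251)], [(nat_lit 22),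 (nat_lit 58), (nat_lit 428), (nat_lit 200), (nat_lit 12)]⟩⟩)) (.trZ (nat_lit 0) (nat_lit 1) (nat_lit 3) (nat_lit 100) (nat_lit 91) (nat_lit 63) (nat_lit 40) (.trZ (nat_lit 0) (nat_lit 2) (nat_lit 4) (nat_lit 100) (nat_lit 90) (nat_lit 54) (nat_lit 30) (.leaf ⟨(nat_lit 0), (nat_lit 0), (nat_lit 0), (nat_lit 1000), (nat_lit 24911), (nat_lit 7104), (nat_lit 10325), (nat_lit 8640), (nat_lit 76964), (nat_lit 118780), (nat_lit 0), [], Pd.none, Pd.none, (nat_lit 0), (nat_lit 1), (nat_lit 0), (nat_lit 0), (nat_lit 0), (nat_lit 0), [⟨(nat_lit 0), (nat_lit 100), (nat_lit 94), (nat_lit 80), (nat_lit 1453333276)⟩], [⟨(nat_lit 0), (nat_lit 100), (nat_lit 90), (nat_lit 65), (nat_lit 442182514)⟩], [], [],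
 ⟨⟨[(nat_lit 60), (nat_lit 100), (nat_lit 120)], [(nat_lit 0), (nat_lit 302), (nat_lit 1376)], [((nat_lit 0), (nat_lit 0), (nat_lit 0)), ((nat_lit 1000), (nat_lit 953), (nat_lit 118)), ((nat_lit 1000), (nat_lit 911), (nat_lit 628))], ((nat_lit 89), (nat_lit 100), (nat_lit 48))⟩, (nat_lit 8845671), (nat_lit 246), (nat_lit 246), (nat_lit 0), (nat_lit 157013), [(nat_lit 3282000653), (nat_lit 6250000021), (nat_lit 7968000000)], [], [(nat_lit 19664321170), (nat_lit 21150294382), (nat_lit 17604703216), (nat_lit 18475831758), (nat_lit 17318442462), (nat_lit 18131690294), (nat_lit 15495420080), (nat_lit 16281940546)], (nat_lit 1271251), (nat_lit 1271251), (nat_lit 230000), (nat_lit 490000), (nat_lit 169688), (nat_lit 780000), [(nat_lit 780000), (nat_lit 1435001), (nat_lit 1271251)], [(nat_lit 10), (nat_lit 54), (nat_lit 260), (nat_lit 50), (nat_lit 9)]⟩,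
 ⟨⟨[(nat_lit 80), (nat_lit 120), (nat_lit 140)], [(nat_lit 0), (nat_lit 0), (nat_lit 1164)], [((nat_lit 0), (nat_lit 0), (nat_lit 0)), ((nat_lit 0), (nat_lit 0), (nat_lit 0)), ((nat_lit 941), (nat_lit 1000), (nat_lit 576))], ((nat_lit 100), (nat_lit 98), (nat_lit 48))⟩, (nat_lit 574364), (nat_lit 334), (nat_lit 334), (nat_lit 0), (nat_lit 347226), [(nat_lit 4688000000), (nat_lit 7968000000), (nat_lit 9842000000)], [], [(nat_lit 26877251075), (nat_lit 30254679617), (nat_lit 27399966950), (nat_lit 27083575629), (nat_lit 62212207650), (nat_lit 48624528300), (nat_lit 64818035200), (nat_lit 51400935175)], (nat_lit 1271251), (nat_lit 1271251), (nat_lit 230000), (nat_lit 490000), (nat_lit 780000), (nat_lit 3072501), [(nat_lit 1100000), (nat_lit 1785001), (nat_lit 1271251)], [(nat_lit 17), (nat_lit 58), (nat_lit 428), (nat_lit 200), (nat_lit 12)]⟩,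
 ⟨⟨[(nat_lit 100), (nat_lit 120), (nat_lit 140)], [(nat_lit 0), (nat_lit 254), (nat_lit 778)], [((nat_lit 0), (nat_lit 0), (nat_lit 0)), ((nat_lit 1000), (nat_lit 1000), (nat_lit 198)), ((nat_lit 960), (nat_lit 1000), (nat_lit 392))], ((nat_lit 100), (nat_lit 93), (nat_lit 48))⟩, (nat_lit 1842520), (nat_lit 300), (nat_lit 393), (nat_lit 62500000), (nat_lit 475467), [(nat_lit 6250000000), (nat_lit 7968000000), (nat_lit 9842000000)], [], [(nat_lit 34451305626), (nat_lit 35692214380), (nat_lit 31174611120), (nat_lit 32275496720), (nat_lit 45915786520), (nat_lit 41967683085), (nat_lit 51340386560), (nat_lit 43461540320)], (nat_lit 1271251), (nat_lit 1271251), (nat_lit 169688), (nat_lit 780000), (nat_lit 780000), (nat_lit 3072501), [(nat_lit 1412501), (nat_lit 1271251), (nat_lit 1271251)], [(nat_lit 22), (nat_lit 58), (nat_lit 428), (nat_lit 200), (nat_lit 12)]⟩⟩))))) (.ord (.trZ (nat_lit 0) (nat_lit 1) (nat_lit 3) (nat_lit 100) (nat_lit 96) (nat_lit 69)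 (nat_lit 40) (.trZ (nat_lit 0) (nat_lit 2) (nat_lit 4) (nat_lit 100) (nat_lit 96) (nat_lit 69) (nat_lit 40) (.trZ (nat_lit 1) (nat_lit 2) (nat_lit 5) (nat_lit 100) (nat_lit 100) (nat_lit 60) (nat_lit 30) (.spl (nat_lit 1) (nat_lit 280) (.ord (.leaf ⟨(nat_lit 0), (nat_lit 267), (nat_lit 0), (nat_lit 733), (nat_lit 507), (nat_lit 9100), (nat_lit 13552), (nat_lit 2549), (nat_lit 0), (nat_lit 26079454901556), (nat_lit 0), [], Pd.none, Pd.none, (nat_lit 0), (nat_lit 1), (nat_lit 0), (nat_lit 0), (nat_lit 6), (nat_lit 0), [⟨(nat_lit 0), (nat_lit 100), (nat_lit 96), (nat_lit 69), (nat_lit 2442995332)⟩], [⟨(nat_lit 0), (nat_lit 100), (nat_lit 96), (nat_lit 69), (nat_lit 397651191)⟩], [], [],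
 ⟨⟨[(nat_lit 60), (nat_lit 100), (nat_lit 120)], [(nat_lit 0), (nat_lit 0), (nat_lit 1164)], [((nat_lit 0), (nat_lit 0), (nat_lit 0)), ((nat_lit 0), (nat_lit 0), (nat_lit 0)), ((nat_lit 1000), (nat_lit 933), (nat_lit 572))], ((nat_lit 92), (nat_lit 100), (nat_lit 48))⟩, (nat_lit 4222405), (nat_lit 221), (nat_lit 221), (nat_lit 0), (nat_lit 150212), [(nat_lit 4683302600), (nat_lit 6250000065), (nat_lit 7968000000)], [], [(nat_lit 19525880900), (nat_lit 23062089250), (nat_lit 16070704065), (nat_lit 18752591965), (nat_lit 16196048315), (nat_lit 18716919040), (nat_lit 13168212965), (nat_lit 15613239815)], (nat_lit 1271251), (nat_lit 1271251), (nat_lit 230000), (nat_lit 490000), (nat_lit 230000), (nat_lit 780000), [(nat_lit 780000), (nat_lit 1435001), (nat_lit 1271251)], [(nat_lit 10), (nat_lit 54), (nat_lit 260), (nat_lit 50), (nat_lit 9)]⟩,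
 ⟨⟨[(nat_lit 80), (nat_lit 100), (nat_lit 120)], [(nat_lit 0), (nat_lit 265), (nat_lit 768)], [((nat_lit 0), (nat_lit 0), (nat_lit 0)), ((nat_lit 1000), (nat_lit 959), (nat_lit 206)), ((nat_lit 1000), (nat_lit 958), (nat_lit 392))], ((nat_lit 97), (nat_lit 100), (nat_lit 48))⟩, (nat_lit 0), (nat_lit 315), (nat_lit 315), (nat_lit 0), (nat_lit 357263), [(nat_lit 4688000000), (nat_lit 6250000000), (nat_lit 7968000000)], [], [(nat_lit 23052188338), (nat_lit 26421563041), (nat_lit 17490628846), (nat_lit 20745738536), (nat_lit 49229997280), (nat_lit 49309132984), (nat_lit 52399843152), (nat_lit 46529672384)], (nat_lit 1271251), (nat_lit 1271251), (nat_lit 230000), (nat_lit 490000), (nat_lit 169688), (nat_lit 2886876), [(nat_lit 1100000), (nat_lit 1442501), (nat_lit 1271251)], [(nat_lit 16), (nat_lit 54), (nat_lit 345), (nat_lit 125), (nat_lit 12)]⟩,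
 ⟨⟨[(nat_lit 80), (nat_lit 100), (nat_lit 120)], [(nat_lit 0), (nat_lit 265), (nat_lit 768)], [((nat_lit 0), (nat_lit 0), (nat_lit 0)), ((nat_lit 1000), (nat_lit 959), (nat_lit 206)), ((nat_lit 1000), (nat_lit 958), (nat_lit 392))], ((nat_lit 97), (nat_lit 100), (nat_lit 48))⟩, (nat_lit 1078777), (nat_lit 300), (nat_lit 315), (nat_lit 42953800), (nat_lit 357263), [(nat_lit 3436304000), (nat_lit 4581250000), (nat_lit 5840544000)], [], [(nat_lit 26513595903), (nat_lit 27165360688), (nat_lit 26387327825), (nat_lit 26991471326), (nat_lit 35258033098), (nat_lit 34139873464), (nat_lit 38033163175), (nat_lit 36942372154)], (nat_lit 1271251), (nat_lit 1271251), (nat_lit 230000), (nat_lit 780000), (nat_lit 169688), (nat_lit 2886876), [(nat_lit 1100000), (nat_lit 1442501), (nat_lit 1271251)], [(nat_lit 16), (nat_lit 54), (nat_lit 373), (nat_lit 150), (nat_lit 13)]⟩⟩)) (.trZ (nat_lit 0) (nat_lit 1) (nat_lit 3) (nat_lit 100) (nat_lit 100) (nat_lit 80) (nat_lit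 60) (.trZ (nat_lit 1) (nat_lit 2) (nat_lit 5) (nat_lit 100) (nat_lit 96) (nat_lit 69) (nat_lit 40) (.leaf ⟨(nat_lit 0), (nat_lit 407), (nat_lit 0), (nat_lit 593), (nat_lit 0), (nat_lit 9701), (nat_lit 7688), (nat_lit 3280), (nat_lit 6303799645573), (nat_lit 187880), (nat_lit 0), [], Pd.none, Pd.none, (nat_lit 0), (nat_lit 1), (nat_lit 0), (nat_lit 0), (nat_lit 6), (nat_lit 0), [⟨(nat_lit 0), (nat_lit 100), (nat_lit 100), (nat_lit 80), (nat_lit 2480792305)⟩], [⟨(nat_lit 0), (nat_lit 100), (nat_lit 96), (nat_lit 69), (nat_lit 885433668)⟩], [⟨(nat_lit 0), (nat_lit 100), (nat_lit 96), (nat_lit 69), (nat_lit 1437652)⟩], [],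
 ⟨⟨[(nat_lit 60), (nat_lit 100), (nat_lit 120)], [(nat_lit 0), (nat_lit 0), (nat_lit 1164)], [((nat_lit 0), (nat_lit 0), (nat_lit 0)), ((nat_lit 0), (nat_lit 0), (nat_lit 0)), ((nat_lit 1000), (nat_lit 933), (nat_lit 572))], ((nat_lit 92), (nat_lit 100), (nat_lit 48))⟩, (nat_lit 4310217), (nat_lit 216), (nat_lit 216), (nat_lit 0), (nat_lit 209140), [(nat_lit 4390518465), (nat_lit 6250000086), (nat_lit 7968000000)], [], [(nat_lit 17615772244), (nat_lit 21294159680), (nat_lit 15751482936), (nat_lit 18674243494), (nat_lit 14182097610), (nat_lit 16780325184), (nat_lit 12545366035), (nat_lit 15103674474)], (nat_lit 1271251), (nat_lit 1271251), (nat_lit 356250), (nat_lit 490000), (nat_lit 230000), (nat_lit 780000), [(nat_lit 780000), (nat_lit 1435001), (nat_lit 1271251)], [(nat_lit 10), (nat_lit 54), (nat_lit 260), (nat_lit 50), (nat_lit 9)]⟩,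
 ⟨⟨[(nat_lit 60), (nat_lit 100), (nat_lit 120)], [(nat_lit 0), (nat_lit 0), (nat_lit 1164)], [((nat_lit 0), (nat_lit 0), (nat_lit 0)), ((nat_lit 0), (nat_lit 0), (nat_lit 0)), ((nat_lit 1000), (nat_lit 933), (nat_lit 572))], ((nat_lit 92), (nat_lit 100), (nat_lit 48))⟩, (nat_lit 0), (nat_lit 363), (nat_lit 363), (nat_lit 0), (nat_lit 462714), [(nat_lit 3282000000), (nat_lit 6250000000), (nat_lit 7968000000)], [], [(nat_lit 32233335592), (nat_lit 30427241676), (nat_lit 28197919560), (nat_lit 29443192260), (nat_lit 41083709544), (nat_lit 37690061052), (nat_lit 42316403232), (nat_lit 38944492560)], (nat_lit 1271251), (nat_lit 1271251), (nat_lit 356250), (nat_lit 490000), (nat_lit 230000), (nat_lit 2907501), [(nat_lit 780000), (nat_lit 1435001), (nat_lit 1271251)], [(nat_lit 10), (nat_lit 54), (nat_lit 345), (nat_lit 125), (nat_lit 11)]⟩,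
 ⟨⟨[(nat_lit 80), (nat_lit 100), (nat_lit 120)], [(nat_lit 0), (nat_lit 265), (nat_lit 768)], [((nat_lit 0), (nat_lit 0), (nat_lit 0)), ((nat_lit 1000), (nat_lit 959), (nat_lit 206)), ((nat_lit 1000), (nat_lit 958), (nat_lit 392))], ((nat_lit 97), (nat_lit 100), (nat_lit 48))⟩, (nat_lit 872718), (nat_lit 300), (nat_lit 383), (nat_lit 34749800), (nat_lit 470696), [(nat_lit 2779984000), (nat_lit 3706250000), (nat_lit 4725024000)], [], [(nat_lit 22140881692), (nat_lit 23166776280), (nat_lit 21442406330), (nat_lit 22383043895), (nat_lit 28885610868), (nat_lit 26063566848), (nat_lit 31686130308), (nat_lit 28878916068)], (nat_lit 1271251), (nat_lit 1271251), (nat_lit 230000), (nat_lit 780000), (nat_lit 230000), (nat_lit 2907501), [(nat_lit 1100000), (nat_lit 1442501), (nat_lit 1271251)], [(nat_lit 16), (nat_lit 54), (nat_lit 373), (nat_lit 150), (nat_lit 13)]⟩⟩)))))))))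
noncomputable def c6_6 : Tr Lf :=
 (.spl (nat_lit 5) (nat_lit 120) (.spl (nat_lit 2) (nat_lit 260) (.spl (nat_lit 5) (nat_lit 80) (.leaf ⟨(nat_lit 0), (nat_lit 898), (nat_lit 0), (nat_lit 102), (nat_lit 2339), (nat_lit 9105), (nat_lit 14729), (nat_lit 1973), (nat_lit 505), (nat_lit 1481), (nat_lit 0), [], Pd.none, Pd.none, (nat_lit 0), (nat_lit 1), (nat_lit 0), (nat_lit 0), (nat_lit 5), (nat_lit 0), [], [⟨(nat_lit 0), (nat_lit 100), (nat_lit 91), (nat_lit 63), (nat_lit 294836476)⟩], [], [],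
 ⟨⟨[(nat_lit 60), (nat_lit 100), (nat_lit 120)], [(nat_lit 0), (nat_lit 0), (nat_lit 1164)], [((nat_lit 0), (nat_lit 0), (nat_lit 0)), ((nat_lit 0), (nat_lit 0), (nat_lit 0)), ((nat_lit 1000), (nat_lit 933), (nat_lit 572))], ((nat_lit 92), (nat_lit 100), (nat_lit 48))⟩, (nat_lit 3977130), (nat_lit 212), (nat_lit 212), (nat_lit 0), (nat_lit 158116), [(nat_lit 4517495703), (nat_lit 6250000001), (nat_lit 7968000000)], [], [(nat_lit 17899795225), (nat_lit 20349354684), (nat_lit 17791590555), (nat_lit 20267634362), (nat_lit 13163049090), (nat_lit 15609000439), (nat_lit 13328750649), (nat_lit 15625519903)], (nat_lit 1271251), (nat_lit 1271251), (nat_lit 490000), (nat_lit 780000), (nat_lit 111251), (nat_lit 780000), [(nat_lit 780000), (nat_lit 1435001), (nat_lit 1271251)], [(nat_lit 10), (nat_lit 54), (nat_lit 272), (nat_lit 60), (nat_lit 9)]⟩,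
 ⟨⟨[(nat_lit 80), (nat_lit 120), (nat_lit 140)], [(nat_lit 0), (nat_lit 0), (nat_lit 1164)], [((nat_lit 0), (nat_lit 0), (nat_lit 0)), ((nat_lit 0), (nat_lit 0), (nat_lit 0)), ((nat_lit 941), (nat_lit 1000), (nat_lit 576))], ((nat_lit 100), (nat_lit 98), (nat_lit 48))⟩, (nat_lit 540701), (nat_lit 308), (nat_lit 308), (nat_lit 0), (nat_lit 167794), [(nat_lit 4688000000), (nat_lit 7968000000), (nat_lit 9842000000)], [], [(nat_lit 32846402064), (nat_lit 34640783584), (nat_lit 36922066530), (nat_lit 33241804592), (nat_lit 35335290996), (nat_lit 23089715744), (nat_lit 39792996264), (nat_lit 21990244329)], (nat_lit 1271251), (nat_lit 1271251), (nat_lit 490000), (nat_lit 780000), (nat_lit 0), (nat_lit 490000), [(nat_lit 1100000), (nat_lit 1785001), (nat_lit 1271251)], [(nat_lit 17), (nat_lit 58), (nat_lit 345), (nat_lit 125), (nat_lit 10)]⟩,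
 ⟨⟨[(nat_lit 100), (nat_lit 120), (nat_lit 140)], [(nat_lit 0), (nat_lit 254), (nat_lit 778)], [((nat_lit 0), (nat_lit 0), (nat_lit 0)), ((nat_lit 1000), (nat_lit 1000), (nat_lit 198)), ((nat_lit 960), (nat_lit 1000), (nat_lit 392))], ((nat_lit 100), (nat_lit 93), (nat_lit 48))⟩, (nat_lit 262936), (nat_lit 300), (nat_lit 367), (nat_lit 6375000), (nat_lit 191950), [(nat_lit 637500000), (nat_lit 812736000), (nat_lit 1003884000)], [], [(nat_lit 3605838060), (nat_lit 4228629565), (nat_lit 2596234492), (nat_lit 2700642110), (nat_lit 2185728949), (nat_lit 2480987750), (nat_lit 2839140243), (nat_lit 1299279563)], (nat_lit 1271251), (nat_lit 1271251), (nat_lit 111251), (nat_lit 780000), (nat_lit 0), (nat_lit 490000), [(nat_lit 1412501), (nat_lit 1271251), (nat_lit 1271251)], [(nat_lit 22), (nat_lit 58), (nat_lit 345), (nat_lit 125), (nat_lit 10)]⟩⟩) (.leaf ⟨(nat_lit 0), (nat_lit 0), (nat_lit 0), (nat_lit 1000), (nat_lit 4561), (nat_lit 9105), (nat_lit 28815),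 (nat_lit 25089), (nat_lit 41516), (nat_lit 18165), (nat_lit 0), [], Pd.none, Pd.none, (nat_lit 0), (nat_lit 1), (nat_lit 0), (nat_lit 0), (nat_lit 0), (nat_lit 0), [], [⟨(nat_lit 0), (nat_lit 100), (nat_lit 91), (nat_lit 63), (nat_lit 925774130)⟩], [], [],
 ⟨⟨[(nat_lit 60), (nat_lit 100), (nat_lit 120)], [(nat_lit 0), (nat_lit 0), (nat_lit 1164)], [((nat_lit 0), (nat_lit 0), (nat_lit 0)), ((nat_lit 0), (nat_lit 0), (nat_lit 0)), ((nat_lit 1000), (nat_lit 933), (nat_lit 572))], ((nat_lit 92), (nat_lit 100), (nat_lit 48))⟩, (nat_lit 4211650), (nat_lit 212), (nat_lit 212), (nat_lit 0), (nat_lit 158116), [(nat_lit 4501607890), (nat_lit 6250000013), (nat_lit 7968000000)], [], [(nat_lit 17626813945), (nat_lit 20349354684), (nat_lit 17707849422), (nat_lit 20267634374), (nat_lit 13163031158), (nat_lit 15609000451), (nat_lit 13328750661), (nat_lit 15625519915)], (nat_lit 1271251), (nat_lit 1271251), (nat_lit 490000), (nat_lit 780000), (nat_lit 111251), (nat_lit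 780000), [(nat_lit 780000), (nat_lit 1435001), (nat_lit 1271251)], [(nat_lit 10), (nat_lit 54), (nat_lit 272), (nat_lit 60), (nat_lit 9)]⟩,
 ⟨⟨[(nat_lit 80), (nat_lit 120), (nat_lit 140)], [(nat_lit 0), (nat_lit 0), (nat_lit 1164)], [((nat_lit 0), (nat_lit 0), (nat_lit 0)), ((nat_lit 0), (nat_lit 0), (nat_lit 0)), ((nat_lit 941), (nat_lit 1000), (nat_lit 576))], ((nat_lit 100), (nat_lit 98), (nat_lit 48))⟩, (nat_lit 0), (nat_lit 202), (nat_lit 202), (nat_lit 0), (nat_lit 167794), [(nat_lit 4688000000), (nat_lit 7968000000), (nat_lit 9842000000)], [], [(nat_lit 16083496160), (nat_lit 19130605380), (nat_lit 1964455920), (nat_lit 16704903173), (nat_lit 1964455920), (nat_lit 16704903173), (nat_lit 0), (nat_lit 14366544138)], (nat_lit 1271251), (nat_lit 1271251), (nat_lit 490000), (nat_lit 780000), (nat_lit 490000), (nat_lit 780000), [(nat_lit 1100000), (nat_lit 1785001), (nat_lit 1271251)], [(nat_lit 17), (nat_lit 58), (nat_lit 373), (nat_lit 150), (nat_lit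 11)]⟩,
 ⟨⟨[(nat_lit 100), (nat_lit 120), (nat_lit 140)], [(nat_lit 0), (nat_lit 254), (nat_lit 778)], [((nat_lit 0), (nat_lit 0), (nat_lit 0)), ((nat_lit 1000), (nat_lit 1000), (nat_lit 198)), ((nat_lit 960), (nat_lit 1000), (nat_lit 392))], ((nat_lit 100), (nat_lit 93), (nat_lit 48))⟩, (nat_lit 6253484), (nat_lit 281), (nat_lit 281), (nat_lit 0), (nat_lit 191950), [(nat_lit 6250000000), (nat_lit 7968000000), (nat_lit 9842000000)], [], [(nat_lit 14215819814), (nat_lit 21513787408), (nat_lit 23049142937), (nat_lit 4584206087), (nat_lit 19995281761), (nat_lit 19667875766), (nat_lit 29659169957), (nat_lit 6159896808)], (nat_lit 1271251), (nat_lit 1271251), (nat_lit 111251), (nat_lit 780000), (nat_lit 490000), (nat_lit 780000), [(nat_lit 1412501), (nat_lit 1271251), (nat_lit 1271251)], [(nat_lit 22), (nat_lit 58), (nat_lit 345), (nat_lit 125), (nat_lit 10)]⟩⟩)) (.ord (.trZ (nat_lit 0) (nat_lit 2) (nat_lit 4) (nat_lit 100) (nat_lit 96) (nat_lit 69) (nat_lit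 40) (.trZ (nat_lit 1) (nat_lit 2) (nat_lit 5) (nat_lit 100) (nat_lit 100) (nat_lit 60) (nat_lit 30) (.leaf ⟨(nat_lit 0), (nat_lit 0), (nat_lit 0), (nat_lit 1000), (nat_lit 26016), (nat_lit 10646), (nat_lit 9683), (nat_lit 9354), (nat_lit 68406), (nat_lit 42042), (nat_lit 0), [], Pd.none, Pd.none, (nat_lit 0), (nat_lit 1), (nat_lit 0), (nat_lit 0), (nat_lit 0), (nat_lit 0), [], [⟨(nat_lit 0), (nat_lit 100), (nat_lit 96), (nat_lit 69), (nat_lit 1361507378)⟩], [⟨(nat_lit 0), (nat_lit 100), (nat_lit 100), (nat_lit 60), (nat_lit 891807721)⟩], [],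
 ⟨⟨[(nat_lit 60), (nat_lit 100), (nat_lit 120)], [(nat_lit 0), (nat_lit 0), (nat_lit 1164)], [((nat_lit 0), (nat_lit 0), (nat_lit 0)), ((nat_lit 0), (nat_lit 0), (nat_lit 0)), ((nat_lit 1000), (nat_lit 933), (nat_lit 572))], ((nat_lit 92), (nat_lit 100), (nat_lit 48))⟩, (nat_lit 4217826), (nat_lit 206), (nat_lit 206), (nat_lit 0), (nat_lit 209232), [(nat_lit 5057085448), (nat_lit 6250000022), (nat_lit 7968000000)], [], [(nat_lit 15527750508), (nat_lit 19443042101), (nat_lit 15287395780), (nat_lit 18969001267), (nat_lit 11566014276), (nat_lit 14302444347), (nat_lit 11594416039), (nat_lit 14160144884)], (nat_lit 1271251), (nat_lit 1271251), (nat_lit 490000), (nat_lit 780000), (nat_lit 230000), (nat_lit 780000), [(nat_lit 780000), (nat_lit 1435001), (nat_lit 1271251)], [(nat_lit 10), (nat_lit 54), (nat_lit 272), (nat_lit 60), (nat_lit 9)]⟩,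
 ⟨⟨[(nat_lit 80), (nat_lit 100), (nat_lit 120)], [(nat_lit 0), (nat_lit 265), (nat_lit 768)], [((nat_lit 0), (nat_lit 0), (nat_lit 0)), ((nat_lit 1000), (nat_lit 959), (nat_lit 206)), ((nat_lit 1000), (nat_lit 958), (nat_lit 392))], ((nat_lit 97), (nat_lit 100), (nat_lit 48))⟩, (nat_lit 6547866), (nat_lit 221), (nat_lit 221), (nat_lit 0), (nat_lit 212664), [(nat_lit 4688000000), (nat_lit 6250000000), (nat_lit 7968000000)], [], [(nat_lit 14042337815), (nat_lit 19818577353), (nat_lit 14040758110), (nat_lit 19427937682), (nat_lit 9972409750), (nat_lit 14567055846), (nat_lit 10033284799), (nat_lit 14346664883)], (nat_lit 1271251), (nat_lit 1271251), (nat_lit 490000), (nat_lit 780000), (nat_lit 169688), (nat_lit 780000), [(nat_lit 1100000), (nat_lit 1442501), (nat_lit 1271251)], [(nat_lit 16), (nat_lit 54), (nat_lit 272), (nat_lit 60), (nat_lit 9)]⟩,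
 ⟨⟨[(nat_lit 80), (nat_lit 100), (nat_lit 120)], [(nat_lit 0), (nat_lit 265), (nat_lit 768)], [((nat_lit 0), (nat_lit 0), (nat_lit 0)), ((nat_lit 1000), (nat_lit 959), (nat_lit 206)), ((nat_lit 1000), (nat_lit 958), (nat_lit 392))], ((nat_lit 97), (nat_lit 100), (nat_lit 48))⟩, (nat_lit 7040139), (nat_lit 268), (nat_lit 268), (nat_lit 0), (nat_lit 212664), [(nat_lit 4688000000), (nat_lit 6250000000), (nat_lit 7968000000)], [], [(nat_lit 17429841689), (nat_lit 24679718351), (nat_lit 18467834324), (nat_lit 19163961880), (nat_lit 18699471089), (nat_lit 18101820234), (nat_lit 23594632094), (nat_lit 14834980577)], (nat_lit 1271251), (nat_lit 1271251), (nat_lit 230000), (nat_lit 780000), (nat_lit 169688), (nat_lit 780000), [(nat_lit 1100000), (nat_lit 1442501), (nat_lit 1271251)], [(nat_lit 16), (nat_lit 54), (nat_lit 272), (nat_lit 60), (nat_lit 9)]⟩⟩))))) (.leaf ⟨(nat_lit 0), (nat_lit 0), (nat_lit 0), (nat_lit 1000), (nat_lit 19221), (nat_lit 9105), (nat_lit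 9873), (nat_lit 9324), (nat_lit 483), (nat_lit 395), (nat_lit 0), [], Pd.none, Pd.none, (nat_lit 0), (nat_lit 1), (nat_lit 0), (nat_lit 0), (nat_lit 0), (nat_lit 0), [], [⟨(nat_lit 0), (nat_lit 100), (nat_lit 92), (nat_lit 49), (nat_lit 1526845750)⟩], [], [],
 ⟨⟨[(nat_lit 60), (nat_lit 100), (nat_lit 120)], [(nat_lit 0), (nat_lit 0), (nat_lit 1164)], [((nat_lit 0), (nat_lit 0), (nat_lit 0)), ((nat_lit 0), (nat_lit 0), (nat_lit 0)), ((nat_lit 1000), (nat_lit 933), (nat_lit 572))], ((nat_lit 92), (nat_lit 100), (nat_lit 48))⟩, (nat_lit 4211650), (nat_lit 216), (nat_lit 216), (nat_lit 0), (nat_lit 209198), [(nat_lit 4377429517), (nat_lit 6250000001), (nat_lit 7968000000)], [], [(nat_lit 17626813945), (nat_lit 20349354684), (nat_lit 17707849410), (nat_lit 20267634362), (nat_lit 13163031146), (nat_lit 15609000439), (nat_lit 13328750649), (nat_lit 15625519903)], (nat_lit 1271251), (nat_lit 1271251), (nat_lit 490000), (nat_lit 780000), (nat_lit 111251),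 (nat_lit 780000), [(nat_lit 780000), (nat_lit 1435001), (nat_lit 1271251)], [(nat_lit 10), (nat_lit 54), (nat_lit 272), (nat_lit 60), (nat_lit 9)]⟩,
 ⟨⟨[(nat_lit 80), (nat_lit 120), (nat_lit 140)], [(nat_lit 0), (nat_lit 0), (nat_lit 1164)], [((nat_lit 0), (nat_lit 0), (nat_lit 0)), ((nat_lit 0), (nat_lit 0), (nat_lit 0)), ((nat_lit 941), (nat_lit 1000), (nat_lit 576))], ((nat_lit 100), (nat_lit 98), (nat_lit 48))⟩, (nat_lit 3638922), (nat_lit 354), (nat_lit 354), (nat_lit 0), (nat_lit 489048), [(nat_lit 4688000000), (nat_lit 7968000000), (nat_lit 9842000000)], [], [(nat_lit 34059593740), (nat_lit 24158441425), (nat_lit 23850230503), (nat_lit 23692184228), (nat_lit 47212083884), (nat_lit 38124768995), (nat_lit 50824734544), (nat_lit 37496732496)], (nat_lit 1271251), (nat_lit 1271251), (nat_lit 490000), (nat_lit 780000), (nat_lit 780000), (nat_lit 3072501), [(nat_lit 1100000), (nat_lit 1785001), (nat_lit 1271251)], [(nat_lit 17), (nat_lit 58), (nat_lit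 456), (nat_lit 225), (nat_lit 13)]⟩,
 ⟨⟨[(nat_lit 100), (nat_lit 120), (nat_lit 140)], [(nat_lit 0), (nat_lit 254), (nat_lit 778)], [((nat_lit 0), (nat_lit 0), (nat_lit 0)), ((nat_lit 1000), (nat_lit 1000), (nat_lit 198)), ((nat_lit 960), (nat_lit 1000), (nat_lit 392))], ((nat_lit 100), (nat_lit 93), (nat_lit 48))⟩, (nat_lit 1842520), (nat_lit 300), (nat_lit 442), (nat_lit 62500000), (nat_lit 510708), [(nat_lit 6250000000), (nat_lit 7968000000), (nat_lit 9842000000)], [], [(nat_lit 37035505954), (nat_lit 39359009481), (nat_lit 32629856300), (nat_lit 34660387109), (nat_lit 46173328585), (nat_lit 43848102800), (nat_lit 52050141896), (nat_lit 37673067256)], (nat_lit 1271251), (nat_lit 1271251), (nat_lit 111251), (nat_lit 780000), (nat_lit 780000), (nat_lit 3072501), [(nat_lit 1412501), (nat_lit 1271251), (nat_lit 1271251)], [(nat_lit 22), (nat_lit 58), (nat_lit 456), (nat_lit 225), (nat_lit 13)]⟩⟩))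
noncomputable def c6_7 : Tr Lf :=
 (.spl (nat_lit 2) (nat_lit 260) (.spl (nat_lit 6) (nat_lit 32) (.spl (nat_lit 1) (nat_lit 280) (.dle (nat_lit 0)) (.trZ (nat_lit 0) (nat_lit 1) (nat_lit 3) (nat_lit 100) (nat_lit 100) (nat_lit 80) (nat_lit 60) (.trZ (nat_lit 1) (nat_lit 2) (nat_lit 5) (nat_lit 100) (nat_lit 92) (nat_lit 49) (nat_lit 20) (.leaf ⟨(nat_lit 0), (nat_lit 547), (nat_lit 0), (nat_lit 453), (nat_lit 53516), (nat_lit 8855), (nat_lit 5487), (nat_lit 2461), (nat_lit 6809387712127), (nat_lit 0), (nat_lit 0), [], Pd.none, Pd.none, (nat_lit 0), (nat_lit 1), (nat_lit 0), (nat_lit 0), (nat_lit 5), (nat_lit 0), [⟨(nat_lit 0), (nat_lit 100), (nat_lit 100), (nat_lit 90), (nat_lit 1094216000)⟩], [⟨(nat_lit 0), (nat_lit 100), (nat_lit 91), (nat_lit 77), (nat_lit 668155971)⟩], [], [],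
 ⟨⟨[(nat_lit 60), (nat_lit 100), (nat_lit 120)], [(nat_lit 0), (nat_lit 0), (nat_lit 1164)], [((nat_lit 0), (nat_lit 0), (nat_lit 0)), ((nat_lit 0), (nat_lit 0), (nat_lit 0)), ((nat_lit 1000), (nat_lit 933), (nat_lit 572))], ((nat_lit 93), (nat_lit 100), (nat_lit 55))⟩, (nat_lit 3591836), (nat_lit 212), (nat_lit 212), (nat_lit 0), (nat_lit 31420), [(nat_lit 4405027702), (nat_lit 6250000003), (nat_lit 7968000000)], [], [(nat_lit 20148891753), (nat_lit 22578793116), (nat_lit 18299016521), (nat_lit 20556679210), (nat_lit 15316452711), (nat_lit 17509389528), (nat_lit 13832975919), (nat_lit 15863251092)], (nat_lit 1271251), (nat_lit 1271251), (nat_lit 356250), (nat_lit 780000), (nat_lit 111251), (nat_lit 780000), [(nat_lit 780000), (nat_lit 1435001), (nat_lit 1271251)], [(nat_lit 10), (nat_lit 54), (nat_lit 272), (nat_lit 60), (nat_lit 9)]⟩,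
 ⟨⟨[(nat_lit 60), (nat_lit 100), (nat_lit 120)], [(nat_lit 0), (nat_lit 0), (nat_lit 1164)], [((nat_lit 0), (nat_lit 0), (nat_lit 0)), ((nat_lit 0), (nat_lit 0), (nat_lit 0)), ((nat_lit 1000), (nat_lit 933), (nat_lit 572))], ((nat_lit 93), (nat_lit 100), (nat_lit 55))⟩, (nat_lit 3134897), (nat_lit 214), (nat_lit 214), (nat_lit 0), (nat_lit 61988), [(nat_lit 3282000000), (nat_lit 6250000000), (nat_lit 7968000000)], [], [(nat_lit 20277409212), (nat_lit 22067608511), (nat_lit 19920362126), (nat_lit 21420437018), (nat_lit 32854737374), (nat_lit 33678130654), (nat_lit 31604586216), (nat_lit 32380422100)], (nat_lit 1271251), (nat_lit 1271251), (nat_lit 356250), (nat_lit 780000), (nat_lit 111251), (nat_lit 2866250), [(nat_lit 780000), (nat_lit 1435001), (nat_lit 1271251)], [(nat_lit 10), (nat_lit 54), (nat_lit 373), (nat_lit 150), (nat_lit 12)]⟩,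
 ⟨⟨[(nat_lit 100), (nat_lit 140), (nat_lit 160)], [(nat_lit 0), (nat_lit 508), (nat_lit 1689)], [((nat_lit 0), (nat_lit 0), (nat_lit 0)), ((nat_lit 1000), (nat_lit 1000), (nat_lit 198)), ((nat_lit 811), (nat_lit 1000), (nat_lit 671))], ((nat_lit 100), (nat_lit 89), (nat_lit 55))⟩, (nat_lit 973772), (nat_lit 300), (nat_lit 385), (nat_lit 28312500), (nat_lit 86859), [(nat_lit 2831250000), (nat_lit 4458426000), (nat_lit 5378016000)], [], [(nat_lit 21686082233), (nat_lit 22166778326), (nat_lit 20534193143), (nat_lit 20977142541), (nat_lit 25286481529), (nat_lit 23344696662), (nat_lit 27703262448), (nat_lit 25596667367)], (nat_lit 1271251), (nat_lit 1271251), (nat_lit 111251), (nat_lit 780000), (nat_lit 111251), (nat_lit 2866250), [(nat_lit 1412501), (nat_lit 1271251), (nat_lit 1271251)], [(nat_lit 23), (nat_lit 62), (nat_lit 428), (nat_lit 200), (nat_lit 11)]⟩⟩)))) (.dle (nat_lit 0))) (.ord (.trZ (nat_lit 0) (nat_lit 1) (nat_lit 3) (nat_lit 100) (nat_lit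 96) (nat_lit 69) (nat_lit 40) (.trZ (nat_lit 0) (nat_lit 2) (nat_lit 4) (nat_lit 100) (nat_lit 96) (nat_lit 69) (nat_lit 40) (.trZ (nat_lit 1) (nat_lit 2) (nat_lit 5) (nat_lit 100) (nat_lit 100) (nat_lit 60) (nat_lit 30) (.spl (nat_lit 0) (nat_lit 290) (.ord (.spl (nat_lit 6) (nat_lit 36) (.leaf ⟨(nat_lit 0), (nat_lit 0), (nat_lit 0), (nat_lit 1000), (nat_lit 125961), (nat_lit 9145), (nat_lit 4869), (nat_lit 4869), (nat_lit 504369), (nat_lit 1501518092737), (nat_lit 0), [], Pd.none, Pd.none, (nat_lit 0), (nat_lit 1), (nat_lit 0), (nat_lit 0), (nat_lit 0), (nat_lit 0), [⟨(nat_lit 0), (nat_lit 100), (nat_lit 98), (nat_lit 79), (nat_lit 1438660287)⟩], [⟨(nat_lit 0), (nat_lit 100), (nat_lit 98), (nat_lit 79), (nat_lit 1341687821)⟩], [⟨(nat_lit 0), (nat_lit 100), (nat_lit 100), (nat_lit 75), (nat_lit 188516110)⟩], [],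
 ⟨⟨[(nat_lit 60), (nat_lit 100), (nat_lit 120)], [(nat_lit 0), (nat_lit 0), (nat_lit 1164)], [((nat_lit 0), (nat_lit 0), (nat_lit 0)), ((nat_lit 0), (nat_lit 0), (nat_lit 0)), ((nat_lit 1000), (nat_lit 933), (nat_lit 572))], ((nat_lit 93), (nat_lit 100), (nat_lit 58))⟩, (nat_lit 3725984), (nat_lit 212), (nat_lit 212), (nat_lit 0), (nat_lit 38984), [(nat_lit 5202150330), (nat_lit 6250000246), (nat_lit 7968000000)], [], [(nat_lit 20109432809), (nat_lit 21351351681), (nat_lit 16523395904), (nat_lit 17660821278), (nat_lit 16523395904), (nat_lit 17660821278), (nat_lit 13398337602), (nat_lit 14435607816)], (nat_lit 1271251), (nat_lit 1271251), (nat_lit 230000), (nat_lit 780000), (nat_lit 230000), (nat_lit 780000), [(nat_lit 780000), (nat_lit 1435001), (nat_lit 1271251)], [(nat_lit 10), (nat_lit 54), (nat_lit 272), (nat_lit 60), (nat_lit 9)]⟩,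
 ⟨⟨[(nat_lit 80), (nat_lit 120), (nat_lit 140)], [(nat_lit 0), (nat_lit 528), (nat_lit 1572)], [((nat_lit 0), (nat_lit 0), (nat_lit 0)), ((nat_lit 1000), (nat_lit 959), (nat_lit 206)), ((nat_lit 966), (nat_lit 1000), (nat_lit 679))], ((nat_lit 100), (nat_lit 100), (nat_lit 60))⟩, (nat_lit 3277137), (nat_lit 281), (nat_lit 281), (nat_lit 0), (nat_lit 83891), [(nat_lit 4688000000), (nat_lit 7968000000), (nat_lit 9842000000)], [], [(nat_lit 37157032911), (nat_lit 33308169662), (nat_lit 31050332284), (nat_lit 32329226030), (nat_lit 47354866348), (nat_lit 44151069217), (nat_lit 51775485785), (nat_lit 48650106334)], (nat_lit 1271251), (nat_lit 1271251), (nat_lit 230000), (nat_lit 780000), (nat_lit 169688), (nat_lit 2886876), [(nat_lit 1100000), (nat_lit 1785001), (nat_lit 1271251)], [(nat_lit 17), (nat_lit 58), (nat_lit 456), (nat_lit 225), (nat_lit 13)]⟩,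
 ⟨⟨[(nat_lit 80), (nat_lit 120), (nat_lit 140)], [(nat_lit 0), (nat_lit 528), (nat_lit 1572)], [((nat_lit 0), (nat_lit 0), (nat_lit 0)), ((nat_lit 1000), (nat_lit 959), (nat_lit 206)), ((nat_lit 966), (nat_lit 1000), (nat_lit 679))], ((nat_lit 100), (nat_lit 100), (nat_lit 60))⟩, (nat_lit 3277136), (nat_lit 281), (nat_lit 281), (nat_lit 0), (nat_lit 83891), [(nat_lit 4688000000), (nat_lit 7968000000), (nat_lit 9842000000)], [], [(nat_lit 37157033439), (nat_lit 33308170190), (nat_lit 31050334384), (nat_lit 32329228130), (nat_lit 47354866876), (nat_lit 44151069745), (nat_lit 51775486313), (nat_lit 48650106862)], (nat_lit 1271251), (nat_lit 1271251), (nat_lit 230000), (nat_lit 780000), (nat_lit 169688), (nat_lit 2886876), [(nat_lit 1100000), (nat_lit 1785001), (nat_lit 1271251)], [(nat_lit 17), (nat_lit 58), (nat_lit 456), (nat_lit 225), (nat_lit 13)]⟩⟩) (.dle (nat_lit 0)))) (.trZ (nat_lit 0) (nat_lit 1) (nat_lit 3) (nat_lit 100) (nat_lit 94) (nat_lit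 73) (nat_lit 50) (.trZ (nat_lit 0) (nat_lit 2) (nat_lit 4) (nat_lit 100) (nat_lit 94) (nat_lit 73) (nat_lit 50) (.leaf ⟨(nat_lit 0), (nat_lit 0), (nat_lit 0), (nat_lit 1000), (nat_lit 81843), (nat_lit 7770), (nat_lit 3612), (nat_lit 5837), (nat_lit 3177), (nat_lit 390822970870), (nat_lit 0), [], Pd.none, Pd.none, (nat_lit 0), (nat_lit 1), (nat_lit 0), (nat_lit 0), (nat_lit 0), (nat_lit 0), [⟨(nat_lit 0), (nat_lit 100), (nat_lit 96), (nat_lit 86), (nat_lit 1224155385)⟩], [⟨(nat_lit 0), (nat_lit 100), (nat_lit 96), (nat_lit 86), (nat_lit 1215293467)⟩], [⟨(nat_lit 0), (nat_lit 100), (nat_lit 100), (nat_lit 80), (nat_lit 267595573)⟩], [],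
 ⟨⟨[(nat_lit 60), (nat_lit 100), (nat_lit 140)], [(nat_lit 0), (nat_lit 302), (nat_lit 2304)], [((nat_lit 0), (nat_lit 0), (nat_lit 0)), ((nat_lit 1000), (nat_lit 953), (nat_lit 118)), ((nat_lit 1000), (nat_lit 952), (nat_lit 781))], ((nat_lit 92), (nat_lit 100), (nat_lit 67))⟩, (nat_lit 4918482), (nat_lit 203), (nat_lit 203), (nat_lit 0), (nat_lit 89321), [(nat_lit 3809777261), (nat_lit 6250000002), (nat_lit 9842000000)], [], [(nat_lit 17952736941), (nat_lit 19170172217), (nat_lit 16046673136), (nat_lit 17168968344), (nat_lit 16046673136), (nat_lit 17168968344), (nat_lit 14377740867), (nat_lit 15409622881)], (nat_lit 1271251), (nat_lit 1271251), (nat_lit 292188), (nat_lit 780000), (nat_lit 292188), (nat_lit 780000), [(nat_lit 780000), (nat_lit 1435001), (nat_lit 1271251)], [(nat_lit 11), (nat_lit 55), (nat_lit 272), (nat_lit 60), (nat_lit 8)]⟩,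
 ⟨⟨[(nat_lit 80), (nat_lit 120), (nat_lit 140)], [(nat_lit 0), (nat_lit 528), (nat_lit 1572)], [((nat_lit 0), (nat_lit 0), (nat_lit 0)), ((nat_lit 1000), (nat_lit 959), (nat_lit 206)), ((nat_lit 966), (nat_lit 1000), (nat_lit 679))], ((nat_lit 100), (nat_lit 96), (nat_lit 68))⟩, (nat_lit 3117444), (nat_lit 322), (nat_lit 322), (nat_lit 0), (nat_lit 195977), [(nat_lit 4688000000), (nat_lit 7968000000), (nat_lit 9842000000)], [], [(nat_lit 34673661528), (nat_lit 35778636006), (nat_lit 34007306661), (nat_lit 35545845419), (nat_lit 47745687407), (nat_lit 44586709865), (nat_lit 51242982476), (nat_lit 48151623380)], (nat_lit 1271251), (nat_lit 1271251), (nat_lit 292188), (nat_lit 780000), (nat_lit 169688), (nat_lit 2886876), [(nat_lit 1100000), (nat_lit 1785001), (nat_lit 1271251)], [(nat_lit 17), (nat_lit 58), (nat_lit 456), (nat_lit 225), (nat_lit 13)]⟩,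
 ⟨⟨[(nat_lit 80), (nat_lit 120), (nat_lit 140)], [(nat_lit 0), (nat_lit 528), (nat_lit 1572)], [((nat_lit 0), (nat_lit 0), (nat_lit 0)), ((nat_lit 1000), (nat_lit 959), (nat_lit 206)), ((nat_lit 966), (nat_lit 1000), (nat_lit 679))], ((nat_lit 100), (nat_lit 96), (nat_lit 68))⟩, (nat_lit 1772727), (nat_lit 300), (nat_lit 322), (nat_lit 58600002), (nat_lit 195977), [(nat_lit 4688000000), (nat_lit 7968000000), (nat_lit 9842000000)], [], [(nat_lit 37640477506), (nat_lit 39546977442), (nat_lit 36344038498), (nat_lit 38111965059), (nat_lit 48595157090), (nat_lit 43937695128), (nat_lit 53044820577), (nat_lit 48049177431)], (nat_lit 1271251), (nat_lit 1271251), (nat_lit 292188), (nat_lit 780000), (nat_lit 169688), (nat_lit 2886876), [(nat_lit 1100000), (nat_lit 1785001), (nat_lit 1271251)], [(nat_lit 17), (nat_lit 58), (nat_lit 456), (nat_lit 225), (nat_lit 13)]⟩⟩)))))))))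
noncomputable def c6_8 : Tr Lf :=
 (.spl (nat_lit 5) (nat_lit 200) (.leaf ⟨(nat_lit 0), (nat_lit 1000), (nat_lit 0), (nat_lit 0), (nat_lit 0), (nat_lit 12210), (nat_lit 10221), (nat_lit 0), (nat_lit 6012583018689), (nat_lit 0), (nat_lit 0), [], Pd.none, Pd.none, (nat_lit 0), (nat_lit 1), (nat_lit 0), (nat_lit 0), (nat_lit 3), (nat_lit 0), [], [⟨(nat_lit 0), (nat_lit 100), (nat_lit 87), (nat_lit 59), (nat_lit 65783977)⟩], [], [],
 ⟨⟨[(nat_lit 60), (nat_lit 100), (nat_lit 120)], [(nat_lit 0), (nat_lit 0), (nat_lit 1164)], [((nat_lit 0), (nat_lit 0), (nat_lit 0)), ((nat_lit 0), (nat_lit 0), (nat_lit 0)), ((nat_lit 1000), (nat_lit 933), (nat_lit 572))], ((nat_lit 93), (nat_lit 100), (nat_lit 58))⟩, (nat_lit 849469), (nat_lit 300), (nat_lit 307), (nat_lit 62500001), (nat_lit 376038), [(nat_lit 3282000002), (nat_lit 6250000001), (nat_lit 7968000000)], [], [(nat_lit 25666237312), (nat_lit 25765953306), (nat_lit 32731679550), (nat_lit 35529255265), (nat_lit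 16499971952), (nat_lit 17912586124), (nat_lit 33446866119), (nat_lit 27951636572)], (nat_lit 1271251), (nat_lit 1271251), (nat_lit 780000), (nat_lit 2090001), (nat_lit 0), (nat_lit 780000), [(nat_lit 780000), (nat_lit 1435001), (nat_lit 1271251)], [(nat_lit 10), (nat_lit 54), (nat_lit 317), (nat_lit 100), (nat_lit 10)]⟩,
 ⟨⟨[(nat_lit 80), (nat_lit 120), (nat_lit 140)], [(nat_lit 0), (nat_lit 0), (nat_lit 1164)], [((nat_lit 0), (nat_lit 0), (nat_lit 0)), ((nat_lit 0), (nat_lit 0), (nat_lit 0)), ((nat_lit 941), (nat_lit 1000), (nat_lit 576))], ((nat_lit 100), (nat_lit 94), (nat_lit 58))⟩, (nat_lit 4862584), (nat_lit 184), (nat_lit 184), (nat_lit 0), (nat_lit 0), [(nat_lit 4688000000), (nat_lit 7968000000), (nat_lit 9842000000)], [], [(nat_lit 19794228768), (nat_lit 26462121194), (nat_lit 27502950988), (nat_lit 32614876134), (nat_lit 14496710075), (nat_lit 20212045211), (nat_lit 20759761313), (nat_lit 24604945481)], (nat_lit 0), (nat_lit 0), (nat_lit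 0), (nat_lit 0), (nat_lit 0), (nat_lit 0), [], [(nat_lit 17), (nat_lit 58), (nat_lit 428), (nat_lit 200), (nat_lit 12)]⟩,
 Rw.none⟩) (.spl (nat_lit 1) (nat_lit 280) (.spl (nat_lit 6) (nat_lit 20) (.leaf ⟨(nat_lit 0), (nat_lit 773), (nat_lit 0), (nat_lit 227), (nat_lit 0), (nat_lit 10744), (nat_lit 8830), (nat_lit 2579), (nat_lit 0), (nat_lit 0), (nat_lit 0), [], Pd.none, Pd.none, (nat_lit 0), (nat_lit 1), (nat_lit 0), (nat_lit 0), (nat_lit 5), (nat_lit 0), [], [], [], [⟨(nat_lit 1), (nat_lit 70), (nat_lit 100), (nat_lit 71), (nat_lit 302282430)⟩, ⟨(nat_lit 1), (nat_lit 87), (nat_lit 100), (nat_lit 50), (nat_lit 278131963)⟩],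
 ⟨⟨[(nat_lit 60), (nat_lit 100), (nat_lit 120)], [(nat_lit 0), (nat_lit 0), (nat_lit 1164)], [((nat_lit 0), (nat_lit 0), (nat_lit 0)), ((nat_lit 0), (nat_lit 0), (nat_lit 0)), ((nat_lit 1000), (nat_lit 933), (nat_lit 572))], ((nat_lit 92), (nat_lit 100), (nat_lit 44))⟩, (nat_lit 2170057), (nat_lit 256), (nat_lit 256), (nat_lit 0), (nat_lit 245409), [(nat_lit 4324934940), (nat_lit 6250000001), (nat_lit 7968000000)], [], [(nat_lit 26486741386), (nat_lit 24013073036), (nat_lit 30659407920), (nat_lit 33209535296), (nat_lit 14528254109), (nat_lit 16257289309), (nat_lit 35880182578), (nat_lit 31044740624)], (nat_lit 1271251), (nat_lit 1271251), (nat_lit 780000), (nat_lit 2090001), (nat_lit 0), (nat_lit 780000), [(nat_lit 780000), (nat_lit 1435001), (nat_lit 1271251)], [(nat_lit 10), (nat_lit 54), (nat_lit 317), (nat_lit 100), (nat_lit 10)]⟩,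
 ⟨⟨[(nat_lit 80), (nat_lit 120), (nat_lit 140)], [(nat_lit 0), (nat_lit 0), (nat_lit 1164)], [((nat_lit 0), (nat_lit 0), (nat_lit 0)), ((nat_lit 0), (nat_lit 0), (nat_lit 0)), ((nat_lit 941), (nat_lit 1000), (nat_lit 576))], ((nat_lit 100), (nat_lit 99), (nat_lit 44))⟩, (nat_lit 0), (nat_lit 116), (nat_lit 116), (nat_lit 0), (nat_lit 0), [(nat_lit 4688000000), (nat_lit 7968000000), (nat_lit 9842000000)], [], [(nat_lit 16360368440), (nat_lit 19700271770), (nat_lit 22220793990), (nat_lit 24585780135), (nat_lit 32299848920), (nat_lit 33962662560), (nat_lit 33682494700), (nat_lit 35272715510)], (nat_lit 0), (nat_lit 0), (nat_lit 0), (nat_lit 0), (nat_lit 0), (nat_lit 0), [], [(nat_lit 17), (nat_lit 58), (nat_lit 483), (nat_lit 250), (nat_lit 13)]⟩,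
 ⟨⟨[(nat_lit 140), (nat_lit 160), (nat_lit 180)], [(nat_lit 0), (nat_lit 0), (nat_lit 799)], [((nat_lit 0), (nat_lit 0), (nat_lit 0)), ((nat_lit 0), (nat_lit 0), (nat_lit 0)), ((nat_lit 728), (nat_lit 1000), (nat_lit 454))], ((nat_lit 100), (nat_lit 71), (nat_lit 48))⟩, (nat_lit 199442), (nat_lit 300), (nat_lit 922), (nat_lit 16843400), (nat_lit 1128634), [(nat_lit 2234134000), (nat_lit 2694944000), (nat_lit 3191166000)], [], [(nat_lit 14052718546), (nat_lit 13243447778), (nat_lit 12283066773), (nat_lit 12466628031), (nat_lit 13885772644), (nat_lit 13090183558), (nat_lit 11805193328), (nat_lit 11046349455)], (nat_lit 780000), (nat_lit 1598751), (nat_lit 0), (nat_lit 780000), (nat_lit 1271251), (nat_lit 1271251), [(nat_lit 1977501), (nat_lit 1271251), (nat_lit 1271251)], [(nat_lit 31), (nat_lit 65), (nat_lit 428), (nat_lit 200), (nat_lit 10)]⟩⟩) (.dle (nat_lit 0))) (.spl (nat_lit 1) (nat_lit 290) (.spl (nat_lit 6) (nat_lit 28) (.leaf ⟨(nat_lit 0),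 (nat_lit 806), (nat_lit 0), (nat_lit 194), (nat_lit 0), (nat_lit 10148), (nat_lit 6991), (nat_lit 2314), (nat_lit 5421207744816), (nat_lit 0), (nat_lit 0), [], Pd.none, Pd.none, (nat_lit 0), (nat_lit 1), (nat_lit 0), (nat_lit 0), (nat_lit 5), (nat_lit 0), [], [], [], [⟨(nat_lit 1), (nat_lit 70), (nat_lit 100), (nat_lit 71), (nat_lit 446677148)⟩, ⟨(nat_lit 1), (nat_lit 87), (nat_lit 100), (nat_lit 50), (nat_lit 95839398)⟩],
 ⟨⟨[(nat_lit 60), (nat_lit 100), (nat_lit 120)], [(nat_lit 0), (nat_lit 0), (nat_lit 1164)], [((nat_lit 0), (nat_lit 0), (nat_lit 0)), ((nat_lit 0), (nat_lit 0), (nat_lit 0)), ((nat_lit 1000), (nat_lit 933), (nat_lit 572))], ((nat_lit 92), (nat_lit 100), (nat_lit 51))⟩, (nat_lit 3124042), (nat_lit 280), (nat_lit 280), (nat_lit 0), (nat_lit 308149), [(nat_lit 4193360751), (nat_lit 6250000006), (nat_lit 7968000000)], [], [(nat_lit 26820316040), (nat_lit 23299894892), (nat_lit 29816929140), (nat_lit 32266456782), (nat_lit 15419567173),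 (nat_lit 16186886270), (nat_lit 36313865825), (nat_lit 31746659482)], (nat_lit 1271251), (nat_lit 1271251), (nat_lit 780000), (nat_lit 2090001), (nat_lit 0), (nat_lit 780000), [(nat_lit 780000), (nat_lit 1435001), (nat_lit 1271251)], [(nat_lit 10), (nat_lit 54), (nat_lit 317), (nat_lit 100), (nat_lit 10)]⟩,
 ⟨⟨[(nat_lit 60), (nat_lit 100), (nat_lit 120)], [(nat_lit 0), (nat_lit 0), (nat_lit 1164)], [((nat_lit 0), (nat_lit 0), (nat_lit 0)), ((nat_lit 0), (nat_lit 0), (nat_lit 0)), ((nat_lit 1000), (nat_lit 933), (nat_lit 572))], ((nat_lit 92), (nat_lit 100), (nat_lit 51))⟩, (nat_lit 0), (nat_lit 100), (nat_lit 100), (nat_lit 0), (nat_lit 0), [(nat_lit 3282000000), (nat_lit 6250000000), (nat_lit 7968000000)], [], [(nat_lit 17808101032), (nat_lit 18637244295), (nat_lit 23233698140), (nat_lit 23813052435), (nat_lit 31560019688), (nat_lit 31982422407), (nat_lit 33271889027), (nat_lit 33640706637)], (nat_lit 0), (nat_lit 0), (nat_lit 0), (nat_lit 0), (nat_lit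 0), (nat_lit 0), [], [(nat_lit 10), (nat_lit 54), (nat_lit 401), (nat_lit 175), (nat_lit 12)]⟩,
 ⟨⟨[(nat_lit 140), (nat_lit 180), (nat_lit 200)], [(nat_lit 0), (nat_lit 0), (nat_lit 2835)], [((nat_lit 0), (nat_lit 0), (nat_lit 0)), ((nat_lit 0), (nat_lit 0), (nat_lit 0)), ((nat_lit 363), (nat_lit 1000), (nat_lit 798))], ((nat_lit 0), (nat_lit 0), (nat_lit 0))⟩, (nat_lit 53376), (nat_lit 300), (nat_lit 1120), (nat_lit 15151400), (nat_lit 1430905), [(nat_lit 1909348000), (nat_lit 2727252000), (nat_lit 3181600000)], [], [(nat_lit 13845167516), (nat_lit 13033657217), (nat_lit 12066593638), (nat_lit 11286713757), (nat_lit 13479994048), (nat_lit 12628750522), (nat_lit 11533797888), (nat_lit 10724779679)], (nat_lit 780000), (nat_lit 1598751), (nat_lit 0), (nat_lit 780000), (nat_lit 1271251), (nat_lit 1271251), [(nat_lit 1977501), (nat_lit 1271251), (nat_lit 1271251)], [(nat_lit 32), (nat_lit 67), (nat_lit 428), (nat_lit 200), (nat_lit 9)]⟩⟩) (.dle (nat_lit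 0))) (.ord (.trX (nat_lit 5) (nat_lit 1) (nat_lit 2) (nat_lit 90) (nat_lit 36) (nat_lit 100) (nat_lit 390) (.spl (nat_lit 0) (nat_lit 295) (.ord (.spl (nat_lit 6) (nat_lit 28) (.leaf ⟨(nat_lit 0), (nat_lit 834), (nat_lit 0), (nat_lit 166), (nat_lit 0), (nat_lit 9178), (nat_lit 7109), (nat_lit 2004), (nat_lit 1193918572786), (nat_lit 0), (nat_lit 0), [], Pd.none, Pd.none, (nat_lit 0), (nat_lit 1), (nat_lit 0), (nat_lit 0), (nat_lit 5), (nat_lit 0), [], [], [], [⟨(nat_lit 1), (nat_lit 70), (nat_lit 100), (nat_lit 71), (nat_lit 546754491)⟩],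
 ⟨⟨[(nat_lit 60), (nat_lit 100), (nat_lit 120)], [(nat_lit 0), (nat_lit 302), (nat_lit 1376)], [((nat_lit 0), (nat_lit 0), (nat_lit 0)), ((nat_lit 1000), (nat_lit 953), (nat_lit 118)), ((nat_lit 1000), (nat_lit 911), (nat_lit 628))], ((nat_lit 90), (nat_lit 100), (nat_lit 51))⟩, (nat_lit 6608229), (nat_lit 280), (nat_lit 280), (nat_lit 0), (nat_lit 313945), [(nat_lit 4130427982), (nat_lit 6250000179), (nat_lit 7968000000)], [], [(nat_lit 20999173080), (nat_lit 21295299520), (nat_lit 29588680734), (nat_lit 30160130706), (nat_lit 13082253208), (nat_lit 13515312931), (nat_lit 31114204839), (nat_lit 30081542742)], (nat_lit 1271251), (nat_lit 1271251), (nat_lit 780000), (nat_lit 2090001), (nat_lit 0), (nat_lit 780000), [(nat_lit 780000), (nat_lit 1435001), (nat_lit 1271251)], [(nat_lit 10), (nat_lit 54), (nat_lit 317), (nat_lit 100), (nat_lit 10)]⟩,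
 ⟨⟨[(nat_lit 60), (nat_lit 100), (nat_lit 120)], [(nat_lit 0), (nat_lit 302), (nat_lit 1376)], [((nat_lit 0), (nat_lit 0), (nat_lit 0)), ((nat_lit 1000), (nat_lit 953), (nat_lit 118)), ((nat_lit 1000), (nat_lit 911), (nat_lit 628))], ((nat_lit 90), (nat_lit 100), (nat_lit 51))⟩, (nat_lit 0), (nat_lit 96), (nat_lit 96), (nat_lit 0), (nat_lit 0), [(nat_lit 3282000000), (nat_lit 6250000000), (nat_lit 7968000000)], [], [(nat_lit 18512860244), (nat_lit 18931644556), (nat_lit 23705968291), (nat_lit 23998121506), (nat_lit 31165066778), (nat_lit 31388066220), (nat_lit 33010809717), (nat_lit 33206204082)], (nat_lit 0), (nat_lit 0), (nat_lit 0), (nat_lit 0), (nat_lit 0), (nat_lit 0), [], [(nat_lit 10), (nat_lit 54), (nat_lit 401), (nat_lit 175), (nat_lit 12)]⟩,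
 ⟨⟨[(nat_lit 140), (nat_lit 180), (nat_lit 200)], [(nat_lit 0), (nat_lit 0), (nat_lit 2835)], [((nat_lit 0), (nat_lit 0), (nat_lit 0)), ((nat_lit 0), (nat_lit 0), (nat_lit 0)), ((nat_lit 363), (nat_lit 1000), (nat_lit 798))], ((nat_lit 0), (nat_lit 0), (nat_lit 0))⟩, (nat_lit 45672), (nat_lit 300), (nat_lit 1124), (nat_lit 12964600), (nat_lit 1441788), [(nat_lit 1633772000), (nat_lit 2333628000), (nat_lit 2722400000)], [], [(nat_lit 11780320856), (nat_lit 11074832354), (nat_lit 10237440458), (nat_lit 9559417849), (nat_lit 11482033016), (nat_lit 10749714369), (nat_lit 9797421177), (nat_lit 9101066416)], (nat_lit 780000), (nat_lit 1598751), (nat_lit 0), (nat_lit 780000), (nat_lit 1271251), (nat_lit 1271251), [(nat_lit 1977501), (nat_lit 1271251), (nat_lit 1271251)], [(nat_lit 32), (nat_lit 67), (nat_lit 428), (nat_lit 200), (nat_lit 9)]⟩⟩) (.dle (nat_lit 0)))) (.leaf ⟨(nat_lit 0), (nat_lit 814), (nat_lit 0), (nat_lit 186), (nat_lit 0), (nat_lit 11321),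 (nat_lit 5709), (nat_lit 2349), (nat_lit 16227143), (nat_lit 0), (nat_lit 0), [], Pd.none, Pd.none, (nat_lit 0), (nat_lit 1), (nat_lit 0), (nat_lit 0), (nat_lit 5), (nat_lit 0), [], [], [⟨(nat_lit 1), (nat_lit 61), (nat_lit 89), (nat_lit 100), (nat_lit 128215367)⟩], [⟨(nat_lit 1), (nat_lit 88), (nat_lit 100), (nat_lit 47), (nat_lit 437824471)⟩],
 ⟨⟨[(nat_lit 60), (nat_lit 100), (nat_lit 120)], [(nat_lit 0), (nat_lit 455), (nat_lit 1489)], [((nat_lit 0), (nat_lit 0), (nat_lit 0)), ((nat_lit 1000), (nat_lit 929), (nat_lit 178)), ((nat_lit 1000), (nat_lit 895), (nat_lit 641))], ((nat_lit 89), (nat_lit 100), (nat_lit 58))⟩, (nat_lit 1714288), (nat_lit 300), (nat_lit 306), (nat_lit 54700001), (nat_lit 371810), [(nat_lit 3282000029), (nat_lit 6250000420), (nat_lit 7968000000)], [], [(nat_lit 24314783815), (nat_lit 24702727461), (nat_lit 33460669209), (nat_lit 34122549227), (nat_lit 17229581785), (nat_lit 17566750608), (nat_lit 28908664129), (nat_lit 27634882521)],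 (nat_lit 1271251), (nat_lit 1271251), (nat_lit 780000), (nat_lit 2090001), (nat_lit 0), (nat_lit 780000), [(nat_lit 780000), (nat_lit 1435001), (nat_lit 1271251)], [(nat_lit 10), (nat_lit 54), (nat_lit 317), (nat_lit 100), (nat_lit 10)]⟩,
 ⟨⟨[(nat_lit 60), (nat_lit 100), (nat_lit 120)], [(nat_lit 0), (nat_lit 302), (nat_lit 1376)], [((nat_lit 0), (nat_lit 0), (nat_lit 0)), ((nat_lit 1000), (nat_lit 953), (nat_lit 118)), ((nat_lit 1000), (nat_lit 911), (nat_lit 628))], ((nat_lit 90), (nat_lit 100), (nat_lit 58))⟩, (nat_lit 6255762), (nat_lit 97), (nat_lit 97), (nat_lit 0), (nat_lit 0), [(nat_lit 3282000000), (nat_lit 6250000000), (nat_lit 7968000000)], [], [(nat_lit 18711841215), (nat_lit 19368007747), (nat_lit 23252977483), (nat_lit 23723587374), (nat_lit 29384450729), (nat_lit 29795129189), (nat_lit 31554395929), (nat_lit 31919984921)], (nat_lit 0), (nat_lit 0), (nat_lit 0), (nat_lit 0), (nat_lit 0), (nat_lit 0), [], [(nat_lit 10), (nat_lit 54),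 (nat_lit 401), (nat_lit 175), (nat_lit 12)]⟩,
 ⟨⟨[(nat_lit 140), (nat_lit 180), (nat_lit 200)], [(nat_lit 0), (nat_lit 0), (nat_lit 2835)], [((nat_lit 0), (nat_lit 0), (nat_lit 0)), ((nat_lit 0), (nat_lit 0), (nat_lit 0)), ((nat_lit 363), (nat_lit 1000), (nat_lit 798))], ((nat_lit 0), (nat_lit 0), (nat_lit 0))⟩, (nat_lit 51175), (nat_lit 300), (nat_lit 1271), (nat_lit 14526600), (nat_lit 1762861), [(nat_lit 1830612000), (nat_lit 2614788000), (nat_lit 3050400000)], [], [(nat_lit 12916541292), (nat_lit 12173761203), (nat_lit 11092642698), (nat_lit 10354736298), (nat_lit 12805693211), (nat_lit 12034892407), (nat_lit 10732648100), (nat_lit 9907115373)], (nat_lit 780000), (nat_lit 1598751), (nat_lit 0), (nat_lit 780000), (nat_lit 1271251), (nat_lit 1271251), [(nat_lit 1977501), (nat_lit 1271251), (nat_lit 1271251)], [(nat_lit 32), (nat_lit 67), (nat_lit 428), (nat_lit 200), (nat_lit 9)]⟩⟩)))))))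
noncomputable def c6_9 : Tr Lf :=
 (.spl (nat_lit 3) (nat_lit 200) (.spl (nat_lit 5) (nat_lit 200) (.spl (nat_lit 5) (nat_lit 120) (.leaf ⟨(nat_lit 0), (nat_lit 1000), (nat_lit 0), (nat_lit 0), (nat_lit 17621), (nat_lit 8792), (nat_lit 7352), (nat_lit 0), (nat_lit 58497), (nat_lit 0), (nat_lit 0), [], Pd.none, Pd.none, (nat_lit 0), (nat_lit 1), (nat_lit 0), (nat_lit 0), (nat_lit 3), (nat_lit 0), [], [⟨(nat_lit 0), (nat_lit 100), (nat_lit 87), (nat_lit 59), (nat_lit 127217478)⟩], [], [],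
 ⟨⟨[(nat_lit 60), (nat_lit 100), (nat_lit 120)], [(nat_lit 0), (nat_lit 0), (nat_lit 1164)], [((nat_lit 0), (nat_lit 0), (nat_lit 0)), ((nat_lit 0), (nat_lit 0), (nat_lit 0)), ((nat_lit 1000), (nat_lit 933), (nat_lit 572))], ((nat_lit 93), (nat_lit 100), (nat_lit 58))⟩, (nat_lit 3771888), (nat_lit 203), (nat_lit 203), (nat_lit 0), (nat_lit 171789), [(nat_lit 4242894546), (nat_lit 6250000025), (nat_lit 7968000000)], [], [(nat_lit 19582577280), (nat_lit 21861478680), (nat_lit 21468447177), (nat_lit 23634879044), (nat_lit 13683894952), (nat_lit 15923159373), (nat_lit 15781069253), (nat_lit 17696543531)], (nat_lit 1271251), (nat_lit 1271251), (nat_lit 780000), (nat_lit 1435001), (nat_lit 0), (nat_lit 780000), [(nat_lit 780000), (nat_lit 1435001), (nat_lit 1271251)], [(nat_lit 10), (nat_lit 54), (nat_lit 317), (nat_lit 100), (nat_lit 10)]⟩,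
 ⟨⟨[(nat_lit 80), (nat_lit 120), (nat_lit 140)], [(nat_lit 0), (nat_lit 0), (nat_lit 1164)], [((nat_lit 0), (nat_lit 0), (nat_lit 0)), ((nat_lit 0), (nat_lit 0), (nat_lit 0)), ((nat_lit 941), (nat_lit 1000), (nat_lit 576))], ((nat_lit 100), (nat_lit 94), (nat_lit 58))⟩, (nat_lit 3148110), (nat_lit 395), (nat_lit 395), (nat_lit 0), (nat_lit 412626), [(nat_lit 4688000000), (nat_lit 7968000000), (nat_lit 9842000000)], [], [(nat_lit 36143681760), (nat_lit 32478982428), (nat_lit 36980674640), (nat_lit 33130039008), (nat_lit 34179027128), (nat_lit 28809658146), (nat_lit 42291585344), (nat_lit 32235113546)], (nat_lit 1271251), (nat_lit 1271251), (nat_lit 780000), (nat_lit 1435001), (nat_lit 0), (nat_lit 780000), [(nat_lit 1100000), (nat_lit 1785001), (nat_lit 1271251)], [(nat_lit 17), (nat_lit 58), (nat_lit 401), (nat_lit 175), (nat_lit 12)]⟩,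
 Rw.none⟩) (.leaf ⟨(nat_lit 0), (nat_lit 926), (nat_lit 0), (nat_lit 74), (nat_lit 6322), (nat_lit 8804), (nat_lit 7738), (nat_lit 1092), (nat_lit 2961), (nat_lit 0), (nat_lit 0), [], Pd.none, Pd.none, (nat_lit 0), (nat_lit 1), (nat_lit 0), (nat_lit 0), (nat_lit 3), (nat_lit 0), [], [⟨(nat_lit 0), (nat_lit 100), (nat_lit 87), (nat_lit 59), (nat_lit 180148294)⟩], [], [],
 ⟨⟨[(nat_lit 60), (nat_lit 100), (nat_lit 120)], [(nat_lit 0), (nat_lit 0), (nat_lit 1164)], [((nat_lit 0), (nat_lit 0), (nat_lit 0)), ((nat_lit 0), (nat_lit 0), (nat_lit 0)), ((nat_lit 1000), (nat_lit 933), (nat_lit 572))], ((nat_lit 93), (nat_lit 100), (nat_lit 58))⟩, (nat_lit 3804211), (nat_lit 203), (nat_lit 203), (nat_lit 0), (nat_lit 171789), [(nat_lit 4360171904), (nat_lit 6250000002), (nat_lit 7968000000)], [], [(nat_lit 19544599140), (nat_lit 21825681410), (nat_lit 21465791626), (nat_lit 23648725628), (nat_lit 13667514260), (nat_lit 15911748253), (nat_lit 15767563188), (nat_lit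 17684751099)], (nat_lit 1271251), (nat_lit 1271251), (nat_lit 780000), (nat_lit 1435001), (nat_lit 0), (nat_lit 780000), [(nat_lit 780000), (nat_lit 1435001), (nat_lit 1271251)], [(nat_lit 10), (nat_lit 54), (nat_lit 317), (nat_lit 100), (nat_lit 10)]⟩,
 ⟨⟨[(nat_lit 80), (nat_lit 120), (nat_lit 140)], [(nat_lit 0), (nat_lit 0), (nat_lit 1164)], [((nat_lit 0), (nat_lit 0), (nat_lit 0)), ((nat_lit 0), (nat_lit 0), (nat_lit 0)), ((nat_lit 941), (nat_lit 1000), (nat_lit 576))], ((nat_lit 100), (nat_lit 94), (nat_lit 58))⟩, (nat_lit 2775635), (nat_lit 349), (nat_lit 349), (nat_lit 0), (nat_lit 517876), [(nat_lit 4688000000), (nat_lit 7968000000), (nat_lit 9842000000)], [], [(nat_lit 25245513382), (nat_lit 28060648915), (nat_lit 28385143086), (nat_lit 28293660385), (nat_lit 28385143086), (nat_lit 28293660385), (nat_lit 36384217786), (nat_lit 28502083789)], (nat_lit 1271251), (nat_lit 1271251), (nat_lit 780000), (nat_lit 1435001), (nat_lit 780000), (nat_lit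 1435001), [(nat_lit 1100000), (nat_lit 1785001), (nat_lit 1271251)], [(nat_lit 17), (nat_lit 58), (nat_lit 401), (nat_lit 175), (nat_lit 11)]⟩,
 ⟨⟨[(nat_lit 140), (nat_lit 180), (nat_lit 200)], [(nat_lit 0), (nat_lit 0), (nat_lit 2835)], [((nat_lit 0), (nat_lit 0), (nat_lit 0)), ((nat_lit 0), (nat_lit 0), (nat_lit 0)), ((nat_lit 363), (nat_lit 1000), (nat_lit 798))], ((nat_lit 0), (nat_lit 0), (nat_lit 0))⟩, (nat_lit 20360), (nat_lit 300), (nat_lit 743), (nat_lit 5779400), (nat_lit 501295), [(nat_lit 728308000), (nat_lit 1040292000), (nat_lit 1213600000)], [], [(nat_lit 5571328228), (nat_lit 4944073649), (nat_lit 4356899546), (nat_lit 4016097809), (nat_lit 4971631064), (nat_lit 4606788098), (nat_lit 4044317204), (nat_lit 4976694569)], (nat_lit 780000), (nat_lit 1598751), (nat_lit 0), (nat_lit 780000), (nat_lit 780000), (nat_lit 1435001), [(nat_lit 1977501), (nat_lit 1271251), (nat_lit 1271251)], [(nat_lit 32), (nat_lit 67), (nat_lit 373), (nat_lit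 150), (nat_lit 8)]⟩⟩)) (.spl (nat_lit 1) (nat_lit 280) (.spl (nat_lit 6) (nat_lit 20) (.leaf ⟨(nat_lit 98), (nat_lit 414), (nat_lit 0), (nat_lit 488), (nat_lit 7), (nat_lit 8150), (nat_lit 8184), (nat_lit 7593), (nat_lit 0), (nat_lit 0), (nat_lit 392000), [((nat_lit 300), [((nat_lit 33), (nat_lit 5), (nat_lit 98))])], ⟨(nat_lit 6), false, false, false, (nat_lit 196), (nat_lit 5000), (nat_lit 5478), [(nat_lit 1392847), (nat_lit 1399998), (nat_lit 1435548), (nat_lit 1442843), (nat_lit 1542694), (nat_lit 1542837), (nat_lit 1585388), (nat_lit 1585674)]⟩, ⟨(nat_lit 3), false, false, false, (nat_lit 85), (nat_lit 5000), (nat_lit 5478), [(nat_lit 1039905), (nat_lit 1057141), (nat_lit 1146690), (nat_lit 1164284), (nat_lit 1264704), (nat_lit 1271427), (nat_lit 1371489), (nat_lit 1378570)]⟩, (nat_lit 3614661), (nat_lit 50568854), (nat_lit 12915959), (nat_lit 3515187), (nat_lit 5), (nat_lit 0), [], [], [], [],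
 ⟨⟨[(nat_lit 60), (nat_lit 100), (nat_lit 120)], [(nat_lit 0), (nat_lit 0), (nat_lit 1164)], [((nat_lit 0), (nat_lit 0), (nat_lit 0)), ((nat_lit 0), (nat_lit 0), (nat_lit 0)), ((nat_lit 1000), (nat_lit 933), (nat_lit 572))], ((nat_lit 92), (nat_lit 100), (nat_lit 44))⟩, (nat_lit 3207842), (nat_lit 198), (nat_lit 198), (nat_lit 0), (nat_lit 115063), [(nat_lit 4355422804), (nat_lit 5323234234), (nat_lit 6215116566)], [(nat_lit 0), (nat_lit 0), (nat_lit 0)], [(nat_lit 18505191378), (nat_lit 20910578600), (nat_lit 20683752134), (nat_lit 22894086800), (nat_lit 13476799659), (nat_lit 15606887272), (nat_lit 15576876709), (nat_lit 17400671622)], (nat_lit 1271251), (nat_lit 1271251), (nat_lit 780000), (nat_lit 1435001), (nat_lit 0), (nat_lit 780000), [(nat_lit 780000), (nat_lit 1435001), (nat_lit 1271251)], [(nat_lit 10), (nat_lit 54), (nat_lit 317), (nat_lit 100), (nat_lit 10)]⟩,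
 ⟨⟨[(nat_lit 80), (nat_lit 120), (nat_lit 140)], [(nat_lit 0), (nat_lit 0), (nat_lit 1164)], [((nat_lit 0), (nat_lit 0), (nat_lit 0)), ((nat_lit 0), (nat_lit 0), (nat_lit 0)), ((nat_lit 941), (nat_lit 1000), (nat_lit 576))], ((nat_lit 100), (nat_lit 99), (nat_lit 44))⟩, (nat_lit 2935500), (nat_lit 292), (nat_lit 292), (nat_lit 0), (nat_lit 374179), [(nat_lit 4228576000), (nat_lit 7187136000), (nat_lit 8877484000)], [], [(nat_lit 20646677304), (nat_lit 21980830047), (nat_lit 26484857960), (nat_lit 22308232815), (nat_lit 29921315204), (nat_lit 30933240404), (nat_lit 29084765600), (nat_lit 30210699112)], (nat_lit 1271251), (nat_lit 1271251), (nat_lit 780000), (nat_lit 1435001), (nat_lit 1271251), (nat_lit 1271251), [(nat_lit 1100000), (nat_lit 1785001), (nat_lit 1271251)], [(nat_lit 17), (nat_lit 58), (nat_lit 456), (nat_lit 225), (nat_lit 13)]⟩,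
 ⟨⟨[(nat_lit 140), (nat_lit 160), (nat_lit 180)], [(nat_lit 0), (nat_lit 0), (nat_lit 799)], [((nat_lit 0), (nat_lit 0), (nat_lit 0)), ((nat_lit 0), (nat_lit 0), (nat_lit 0)), ((nat_lit 728), (nat_lit 1000), (nat_lit 454))], ((nat_lit 100), (nat_lit 71), (nat_lit 48))⟩, (nat_lit 1821593), (nat_lit 300), (nat_lit 547), (nat_lit 36209600), (nat_lit 329301), [(nat_lit 4802896000), (nat_lit 5793536000), (nat_lit 6860304000)], [], [(nat_lit 26282344923), (nat_lit 24649269982), (nat_lit 20161230140), (nat_lit 28014997185), (nat_lit 29884815305), (nat_lit 28257999855), (nat_lit 22888641414), (nat_lit 20759825578)], (nat_lit 780000), (nat_lit 1598751), (nat_lit 0), (nat_lit 780000), (nat_lit 1271251), (nat_lit 1271251), [(nat_lit 1977501), (nat_lit 1271251), (nat_lit 1271251)], [(nat_lit 31), (nat_lit 65), (nat_lit 428), (nat_lit 200), (nat_lit 10)]⟩⟩) (.dle (nat_lit 0))) (.leaf ⟨(nat_lit 0), (nat_lit 695), (nat_lit 0), (nat_lit 305), (nat_lit 0), (nat_lit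 8914), (nat_lit 6677), (nat_lit 4768), (nat_lit 7195), (nat_lit 0), (nat_lit 0), [], Pd.none, Pd.none, (nat_lit 0), (nat_lit 1), (nat_lit 0), (nat_lit 0), (nat_lit 5), (nat_lit 0), [], [], [], [⟨(nat_lit 1), (nat_lit 88), (nat_lit 100), (nat_lit 32), (nat_lit 615352175)⟩],
 ⟨⟨[(nat_lit 60), (nat_lit 100), (nat_lit 120)], [(nat_lit 0), (nat_lit 0), (nat_lit 1164)], [((nat_lit 0), (nat_lit 0), (nat_lit 0)), ((nat_lit 0), (nat_lit 0), (nat_lit 0)), ((nat_lit 1000), (nat_lit 933), (nat_lit 572))], ((nat_lit 93), (nat_lit 100), (nat_lit 58))⟩, (nat_lit 3819629), (nat_lit 203), (nat_lit 203), (nat_lit 0), (nat_lit 171929), [(nat_lit 4393816188), (nat_lit 6250000001), (nat_lit 7968000000)], [], [(nat_lit 19523406048), (nat_lit 21824211056), (nat_lit 21441449285), (nat_lit 23775652648), (nat_lit 13543713604), (nat_lit 15807146530), (nat_lit 15643757802), (nat_lit 17576654016)], (nat_lit 1271251), (nat_lit 1271251), (nat_lit 780000), (nat_lit 1435001), (nat_lit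 0), (nat_lit 780000), [(nat_lit 780000), (nat_lit 1435001), (nat_lit 1271251)], [(nat_lit 10), (nat_lit 54), (nat_lit 317), (nat_lit 100), (nat_lit 10)]⟩,
 ⟨⟨[(nat_lit 60), (nat_lit 100), (nat_lit 120)], [(nat_lit 0), (nat_lit 0), (nat_lit 1164)], [((nat_lit 0), (nat_lit 0), (nat_lit 0)), ((nat_lit 0), (nat_lit 0), (nat_lit 0)), ((nat_lit 1000), (nat_lit 933), (nat_lit 572))], ((nat_lit 93), (nat_lit 100), (nat_lit 58))⟩, (nat_lit 2610925), (nat_lit 284), (nat_lit 284), (nat_lit 0), (nat_lit 463948), [(nat_lit 3282000000), (nat_lit 6250000000), (nat_lit 7968000000)], [], [(nat_lit 22863514175), (nat_lit 23951213771), (nat_lit 23896230575), (nat_lit 24866502887), (nat_lit 33008425652), (nat_lit 33658423710), (nat_lit 32800003186), (nat_lit 33358775851)], (nat_lit 1271251), (nat_lit 1271251), (nat_lit 780000), (nat_lit 1435001), (nat_lit 1271251), (nat_lit 1271251), [(nat_lit 780000), (nat_lit 1435001), (nat_lit 1271251)], [(nat_lit 10), (nat_lit 54),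 (nat_lit 373), (nat_lit 150), (nat_lit 11)]⟩,
 ⟨⟨[(nat_lit 140), (nat_lit 180), (nat_lit 200)], [(nat_lit 0), (nat_lit 0), (nat_lit 2835)], [((nat_lit 0), (nat_lit 0), (nat_lit 0)), ((nat_lit 0), (nat_lit 0), (nat_lit 0)), ((nat_lit 363), (nat_lit 1000), (nat_lit 798))], ((nat_lit 0), (nat_lit 0), (nat_lit 0))⟩, (nat_lit 162541), (nat_lit 300), (nat_lit 701), (nat_lit 23820500), (nat_lit 501295), [(nat_lit 3001810000), (nat_lit 4287690000), (nat_lit 5002000000)], [], [(nat_lit 20207436788), (nat_lit 18991449942), (nat_lit 16132174852), (nat_lit 17522637280), (nat_lit 21473819956), (nat_lit 20172210735), (nat_lit 16918164172), (nat_lit 15316602228)], (nat_lit 780000), (nat_lit 1598751), (nat_lit 0), (nat_lit 780000), (nat_lit 1271251), (nat_lit 1271251), [(nat_lit 1977501), (nat_lit 1271251), (nat_lit 1271251)], [(nat_lit 32), (nat_lit 67), (nat_lit 428), (nat_lit 200), (nat_lit 9)]⟩⟩))) (.trX (nat_lit 5) (nat_lit 3) (nat_lit 4) (nat_lit 100) (nat_lit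 40) (nat_lit 92) (nat_lit 390) (.spl (nat_lit 5) (nat_lit 200) (.leaf ⟨(nat_lit 0), (nat_lit 1000), (nat_lit 0), (nat_lit 0), (nat_lit 2781), (nat_lit 8356), (nat_lit 10309), (nat_lit 0), (nat_lit 3528), (nat_lit 0), (nat_lit 0), [], Pd.none, Pd.none, (nat_lit 0), (nat_lit 1), (nat_lit 0), (nat_lit 0), (nat_lit 3), (nat_lit 0), [], [⟨(nat_lit 0), (nat_lit 100), (nat_lit 87), (nat_lit 59), (nat_lit 107849747)⟩], [], [],
 ⟨⟨[(nat_lit 60), (nat_lit 100), (nat_lit 120)], [(nat_lit 0), (nat_lit 0), (nat_lit 1164)], [((nat_lit 0), (nat_lit 0), (nat_lit 0)), ((nat_lit 0), (nat_lit 0), (nat_lit 0)), ((nat_lit 1000), (nat_lit 933), (nat_lit 572))], ((nat_lit 93), (nat_lit 100), (nat_lit 58))⟩, (nat_lit 3386510), (nat_lit 205), (nat_lit 205), (nat_lit 0), (nat_lit 171789), [(nat_lit 3840686621), (nat_lit 6250000002), (nat_lit 7968000000)], [], [(nat_lit 21772556632), (nat_lit 23658994516), (nat_lit 27283838580), (nat_lit 29430891854), (nat_lit 16271788756),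 (nat_lit 18125001035), (nat_lit 21114613068), (nat_lit 22602222387)], (nat_lit 1271251), (nat_lit 1271251), (nat_lit 1271251), (nat_lit 1271251), (nat_lit 0), (nat_lit 780000), [(nat_lit 780000), (nat_lit 1435001), (nat_lit 1271251)], [(nat_lit 10), (nat_lit 54), (nat_lit 317), (nat_lit 100), (nat_lit 10)]⟩,
 ⟨⟨[(nat_lit 80), (nat_lit 120), (nat_lit 140)], [(nat_lit 0), (nat_lit 0), (nat_lit 1164)], [((nat_lit 0), (nat_lit 0), (nat_lit 0)), ((nat_lit 0), (nat_lit 0), (nat_lit 0)), ((nat_lit 941), (nat_lit 1000), (nat_lit 576))], ((nat_lit 100), (nat_lit 94), (nat_lit 58))⟩, (nat_lit 2754497), (nat_lit 436), (nat_lit 436), (nat_lit 0), (nat_lit 517876), [(nat_lit 4688000000), (nat_lit 7968000000), (nat_lit 9842000000)], [], [(nat_lit 34266423420), (nat_lit 31951019654), (nat_lit 31535604830), (nat_lit 33805110516), (nat_lit 28015664748), (nat_lit 24948930692), (nat_lit 24536489838), (nat_lit 26127755308)], (nat_lit 1271251), (nat_lit 1271251), (nat_lit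 1271251), (nat_lit 1271251), (nat_lit 0), (nat_lit 1412501), [(nat_lit 1100000), (nat_lit 1785001), (nat_lit 1271251)], [(nat_lit 17), (nat_lit 58), (nat_lit 428), (nat_lit 200), (nat_lit 12)]⟩,
 Rw.none⟩) (.leaf ⟨(nat_lit 0), (nat_lit 787), (nat_lit 0), (nat_lit 213), (nat_lit 0), (nat_lit 8792), (nat_lit 8766), (nat_lit 3338), (nat_lit 1474978), (nat_lit 0), (nat_lit 0), [], Pd.none, Pd.none, (nat_lit 0), (nat_lit 1), (nat_lit 0), (nat_lit 0), (nat_lit 5), (nat_lit 0), [], [], [], [⟨(nat_lit 1), (nat_lit 90), (nat_lit 100), (nat_lit 65), (nat_lit 389537385)⟩],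
 ⟨⟨[(nat_lit 60), (nat_lit 100), (nat_lit 120)], [(nat_lit 0), (nat_lit 0), (nat_lit 1164)], [((nat_lit 0), (nat_lit 0), (nat_lit 0)), ((nat_lit 0), (nat_lit 0), (nat_lit 0)), ((nat_lit 1000), (nat_lit 933), (nat_lit 572))], ((nat_lit 93), (nat_lit 100), (nat_lit 58))⟩, (nat_lit 3432874), (nat_lit 205), (nat_lit 205), (nat_lit 0), (nat_lit 171789), [(nat_lit 4268570319), (nat_lit 6250000046), (nat_lit 7968000000)], [], [(nat_lit 21685349168), (nat_lit 23634879044), (nat_lit 27900148560), (nat_lit 30120794928), (nat_lit 15781069274), (nat_lit 17696543552), (nat_lit 20754574558), (nat_lit 22288107866)], (nat_lit 1271251), (nat_lit 1271251), (nat_lit 1271251), (nat_lit 1271251), (nat_lit 0), (nat_lit 780000), [(nat_lit 780000), (nat_lit 1435001), (nat_lit 1271251)], [(nat_lit 10), (nat_lit 54), (nat_lit 317), (nat_lit 100), (nat_lit 10)]⟩,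
 ⟨⟨[(nat_lit 80), (nat_lit 120), (nat_lit 140)], [(nat_lit 0), (nat_lit 0), (nat_lit 1164)], [((nat_lit 0), (nat_lit 0), (nat_lit 0)), ((nat_lit 0), (nat_lit 0), (nat_lit 0)), ((nat_lit 941), (nat_lit 1000), (nat_lit 576))], ((nat_lit 100), (nat_lit 94), (nat_lit 58))⟩, (nat_lit 2870827), (nat_lit 316), (nat_lit 316), (nat_lit 0), (nat_lit 517876), [(nat_lit 4688000000), (nat_lit 7968000000), (nat_lit 9842000000)], [], [(nat_lit 23706860264), (nat_lit 26354083948), (nat_lit 26130387982), (nat_lit 28509905766), (nat_lit 32147079268), (nat_lit 33613742284), (nat_lit 33136040106), (nat_lit 35155193883)], (nat_lit 1271251), (nat_lit 1271251), (nat_lit 1271251), (nat_lit 1271251), (nat_lit 1271251), (nat_lit 1271251), [(nat_lit 1100000), (nat_lit 1785001), (nat_lit 1271251)], [(nat_lit 17), (nat_lit 58), (nat_lit 483), (nat_lit 250), (nat_lit 13)]⟩,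
 ⟨⟨[(nat_lit 140), (nat_lit 180), (nat_lit 200)], [(nat_lit 0), (nat_lit 0), (nat_lit 2835)], [((nat_lit 0), (nat_lit 0), (nat_lit 0)), ((nat_lit 0), (nat_lit 0), (nat_lit 0)), ((nat_lit 363), (nat_lit 1000), (nat_lit 798))], ((nat_lit 0), (nat_lit 0), (nat_lit 0))⟩, (nat_lit 171936), (nat_lit 300), (nat_lit 701), (nat_lit 16635300), (nat_lit 501295), [(nat_lit 2096346000), (nat_lit 2994354000), (nat_lit 3493200000)], [], [(nat_lit 14103440774), (nat_lit 13263068054), (nat_lit 11249563714), (nat_lit 12241991191), (nat_lit 14900788308), (nat_lit 13719607646), (nat_lit 11722335895), (nat_lit 10621045729)], (nat_lit 780000), (nat_lit 1598751), (nat_lit 0), (nat_lit 780000), (nat_lit 1271251), (nat_lit 1271251), [(nat_lit 1977501), (nat_lit 1271251), (nat_lit 1271251)], [(nat_lit 32), (nat_lit 67), (nat_lit 428), (nat_lit 200), (nat_lit 9)]⟩⟩))))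
noncomputable def c6_10 : Tr Lf :=
 (.trZ (nat_lit 0) (nat_lit 2) (nat_lit 4) (nat_lit 100) (nat_lit 92) (nat_lit 49) (nat_lit 20) (.spl (nat_lit 2) (nat_lit 260) (.spl (nat_lit 6) (nat_lit 32) (.spl (nat_lit 5) (nat_lit 120) (.spl (nat_lit 6) (nat_lit 16) (.leaf ⟨(nat_lit 0), (nat_lit 894), (nat_lit 0), (nat_lit 106), (nat_lit 3709), (nat_lit 10047), (nat_lit 4164), (nat_lit 1696), (nat_lit 55978), (nat_lit 125875), (nat_lit 0), [], Pd.none, Pd.none, (nat_lit 0), (nat_lit 1), (nat_lit 0), (nat_lit 0), (nat_lit 5), (nat_lit 0), [], [⟨(nat_lit 0), (nat_lit 100), (nat_lit 91), (nat_lit 63), (nat_lit 272808943)⟩], [], [],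
 ⟨⟨[(nat_lit 60), (nat_lit 80), (nat_lit 100)], [(nat_lit 0), (nat_lit 0), (nat_lit 534)], [((nat_lit 0), (nat_lit 0), (nat_lit 0)), ((nat_lit 0), (nat_lit 0), (nat_lit 0)), ((nat_lit 1000), (nat_lit 917), (nat_lit 393))], ((nat_lit 92), (nat_lit 100), (nat_lit 39))⟩, (nat_lit 0), (nat_lit 226), (nat_lit 226), (nat_lit 0), (nat_lit 347094), [(nat_lit 3282000007), (nat_lit 4688000010), (nat_lit 6250000000)], [], [(nat_lit 20509561567), (nat_lit 20873035224), (nat_lit 27479507886), (nat_lit 29886340950), (nat_lit 12268566857), (nat_lit 14729748787), (nat_lit 28568177437), (nat_lit 23987230205)], (nat_lit 1271251), (nat_lit 1271251), (nat_lit 780000), (nat_lit 2090001), (nat_lit 111251), (nat_lit 780000), [(nat_lit 780000), (nat_lit 1100000), (nat_lit 1442501)], [(nat_lit 9), (nat_lit 50), (nat_lit 317), (nat_lit 100), (nat_lit 12)]⟩,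
 ⟨⟨[(nat_lit 80), (nat_lit 100), (nat_lit 120)], [(nat_lit 0), (nat_lit 0), (nat_lit 511)], [((nat_lit 0), (nat_lit 0), (nat_lit 0)), ((nat_lit 0), (nat_lit 0), (nat_lit 0)), ((nat_lit 1000), (nat_lit 997), (nat_lit 383))], ((nat_lit 100), (nat_lit 100), (nat_lit 40))⟩, (nat_lit 4553147), (nat_lit 306), (nat_lit 306), (nat_lit 0), (nat_lit 371843), [(nat_lit 4688000000), (nat_lit 6250000000), (nat_lit 7968000000)], [], [(nat_lit 37317687744), (nat_lit 33597602740), (nat_lit 39997180984), (nat_lit 36851667898), (nat_lit 33056235196), (nat_lit 32385014638), (nat_lit 44514998308), (nat_lit 38892851911)], (nat_lit 1271251), (nat_lit 1271251), (nat_lit 780000), (nat_lit 2090001), (nat_lit 0), (nat_lit 780000), [(nat_lit 1100000), (nat_lit 1442501), (nat_lit 1271251)], [(nat_lit 16), (nat_lit 54), (nat_lit 317), (nat_lit 100), (nat_lit 11)]⟩,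
 ⟨⟨[(nat_lit 100), (nat_lit 120), (nat_lit 140)], [(nat_lit 0), (nat_lit 254), (nat_lit 778)], [((nat_lit 0), (nat_lit 0), (nat_lit 0)), ((nat_lit 1000), (nat_lit 1000), (nat_lit 198)), ((nat_lit 960), (nat_lit 1000), (nat_lit 392))], ((nat_lit 100), (nat_lit 96), (nat_lit 39))⟩, (nat_lit 195307), (nat_lit 300), (nat_lit 365), (nat_lit 6625001), (nat_lit 188762), [(nat_lit 662500000), (nat_lit 844608000), (nat_lit 1043252000)], [], [(nat_lit 3827000958), (nat_lit 4114412082), (nat_lit 3000915120), (nat_lit 3011376216), (nat_lit 2981010016), (nat_lit 2739621580), (nat_lit 3737004136), (nat_lit 2148468632)], (nat_lit 1271251), (nat_lit 1271251), (nat_lit 111251), (nat_lit 780000), (nat_lit 0), (nat_lit 780000), [(nat_lit 1412501), (nat_lit 1271251), (nat_lit 1271251)], [(nat_lit 22), (nat_lit 58), (nat_lit 345), (nat_lit 125), (nat_lit 10)]⟩⟩) (.leaf ⟨(nat_lit 0), (nat_lit 840), (nat_lit 0), (nat_lit 160), (nat_lit 21179), (nat_lit 9028), (nat_lit 7352),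 (nat_lit 3323), (nat_lit 35590), (nat_lit 39252), (nat_lit 0), [], Pd.none, Pd.none, (nat_lit 0), (nat_lit 1), (nat_lit 0), (nat_lit 0), (nat_lit 5), (nat_lit 0), [], [⟨(nat_lit 0), (nat_lit 100), (nat_lit 91), (nat_lit 77), (nat_lit 463720671)⟩], [⟨(nat_lit 0), (nat_lit 100), (nat_lit 96), (nat_lit 54), (nat_lit 47211243)⟩], [],
 ⟨⟨[(nat_lit 60), (nat_lit 100), (nat_lit 120)], [(nat_lit 0), (nat_lit 0), (nat_lit 1164)], [((nat_lit 0), (nat_lit 0), (nat_lit 0)), ((nat_lit 0), (nat_lit 0), (nat_lit 0)), ((nat_lit 1000), (nat_lit 933), (nat_lit 572))], ((nat_lit 93), (nat_lit 100), (nat_lit 55))⟩, (nat_lit 3688641), (nat_lit 191), (nat_lit 191), (nat_lit 0), (nat_lit 149706), [(nat_lit 4245561921), (nat_lit 6250000017), (nat_lit 7968000000)], [], [(nat_lit 18145546426), (nat_lit 20433262718), (nat_lit 26293085421), (nat_lit 28529871460), (nat_lit 13554161182), (nat_lit 15698741124), (nat_lit 20559691275), (nat_lit 22118231175)], (nat_lit 1271251), (nat_lit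 1271251), (nat_lit 780000), (nat_lit 2090001), (nat_lit 111251), (nat_lit 780000), [(nat_lit 780000), (nat_lit 1435001), (nat_lit 1271251)], [(nat_lit 10), (nat_lit 54), (nat_lit 317), (nat_lit 100), (nat_lit 10)]⟩,
 ⟨⟨[(nat_lit 80), (nat_lit 120), (nat_lit 140)], [(nat_lit 0), (nat_lit 0), (nat_lit 1164)], [((nat_lit 0), (nat_lit 0), (nat_lit 0)), ((nat_lit 0), (nat_lit 0), (nat_lit 0)), ((nat_lit 941), (nat_lit 1000), (nat_lit 576))], ((nat_lit 100), (nat_lit 95), (nat_lit 55))⟩, (nat_lit 2374245), (nat_lit 287), (nat_lit 287), (nat_lit 0), (nat_lit 160783), [(nat_lit 4688000000), (nat_lit 7968000000), (nat_lit 9842000000)], [], [(nat_lit 36143681760), (nat_lit 33379761288), (nat_lit 44907686432), (nat_lit 36367775908), (nat_lit 34179027128), (nat_lit 29493089790), (nat_lit 50765196280), (nat_lit 40965191650)], (nat_lit 1271251), (nat_lit 1271251), (nat_lit 780000), (nat_lit 2090001), (nat_lit 0), (nat_lit 780000), [(nat_lit 1100000), (nat_lit 1785001),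 (nat_lit 1271251)], [(nat_lit 17), (nat_lit 58), (nat_lit 401), (nat_lit 175), (nat_lit 12)]⟩,
 ⟨⟨[(nat_lit 100), (nat_lit 140), (nat_lit 160)], [(nat_lit 0), (nat_lit 508), (nat_lit 1689)], [((nat_lit 0), (nat_lit 0), (nat_lit 0)), ((nat_lit 1000), (nat_lit 1000), (nat_lit 198)), ((nat_lit 811), (nat_lit 1000), (nat_lit 671))], ((nat_lit 100), (nat_lit 89), (nat_lit 55))⟩, (nat_lit 343937), (nat_lit 300), (nat_lit 406), (nat_lit 10000001), (nat_lit 85409), [(nat_lit 1000000000), (nat_lit 1574720000), (nat_lit 1899520000)], [], [(nat_lit 8173309780), (nat_lit 8492978451), (nat_lit 5744653832), (nat_lit 6027065587), (nat_lit 5166435380), (nat_lit 5445223218), (nat_lit 5171024779), (nat_lit 3253334835)], (nat_lit 1271251), (nat_lit 1271251), (nat_lit 111251), (nat_lit 780000), (nat_lit 0), (nat_lit 780000), [(nat_lit 1412501), (nat_lit 1271251), (nat_lit 1271251)], [(nat_lit 23), (nat_lit 62), (nat_lit 345), (nat_lit 125), (nat_lit 9)]⟩⟩)) (.leaf ⟨(nat_lit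 0), (nat_lit 119), (nat_lit 0), (nat_lit 881), (nat_lit 10337), (nat_lit 11763), (nat_lit 7925), (nat_lit 11570), (nat_lit 208394), (nat_lit 115503), (nat_lit 0), [], Pd.none, Pd.none, (nat_lit 0), (nat_lit 1), (nat_lit 0), (nat_lit 0), (nat_lit 5), (nat_lit 0), [], [⟨(nat_lit 0), (nat_lit 100), (nat_lit 91), (nat_lit 63), (nat_lit 436514190)⟩], [], [],
 ⟨⟨[(nat_lit 60), (nat_lit 100), (nat_lit 120)], [(nat_lit 0), (nat_lit 0), (nat_lit 1164)], [((nat_lit 0), (nat_lit 0), (nat_lit 0)), ((nat_lit 0), (nat_lit 0), (nat_lit 0)), ((nat_lit 1000), (nat_lit 933), (nat_lit 572))], ((nat_lit 93), (nat_lit 100), (nat_lit 55))⟩, (nat_lit 1788932), (nat_lit 280), (nat_lit 280), (nat_lit 0), (nat_lit 350738), [(nat_lit 3282000313), (nat_lit 6250000057), (nat_lit 7968000000)], [], [(nat_lit 19922775847), (nat_lit 22474961336), (nat_lit 29477447973), (nat_lit 32170640897), (nat_lit 13138973241), (nat_lit 15613356763), (nat_lit 33870809612), (nat_lit 28576756773)],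 (nat_lit 1271251), (nat_lit 1271251), (nat_lit 780000), (nat_lit 2090001), (nat_lit 111251), (nat_lit 780000), [(nat_lit 780000), (nat_lit 1435001), (nat_lit 1271251)], [(nat_lit 10), (nat_lit 54), (nat_lit 317), (nat_lit 100), (nat_lit 10)]⟩,
 ⟨⟨[(nat_lit 80), (nat_lit 120), (nat_lit 140)], [(nat_lit 0), (nat_lit 0), (nat_lit 1164)], [((nat_lit 0), (nat_lit 0), (nat_lit 0)), ((nat_lit 0), (nat_lit 0), (nat_lit 0)), ((nat_lit 941), (nat_lit 1000), (nat_lit 576))], ((nat_lit 100), (nat_lit 95), (nat_lit 55))⟩, (nat_lit 2292274), (nat_lit 366), (nat_lit 366), (nat_lit 0), (nat_lit 557058), [(nat_lit 4688000000), (nat_lit 7968000000), (nat_lit 9842000000)], [], [(nat_lit 40174941275), (nat_lit 28155673127), (nat_lit 36324809025), (nat_lit 30744366196), (nat_lit 49235696400), (nat_lit 38537386238), (nat_lit 67832606350), (nat_lit 57658594375)], (nat_lit 1271251), (nat_lit 1271251), (nat_lit 780000), (nat_lit 2090001), (nat_lit 780000), (nat_lit 3072501),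 [(nat_lit 1100000), (nat_lit 1785001), (nat_lit 1271251)], [(nat_lit 17), (nat_lit 58), (nat_lit 483), (nat_lit 250), (nat_lit 14)]⟩,
 ⟨⟨[(nat_lit 100), (nat_lit 140), (nat_lit 160)], [(nat_lit 0), (nat_lit 508), (nat_lit 1689)], [((nat_lit 0), (nat_lit 0), (nat_lit 0)), ((nat_lit 1000), (nat_lit 1000), (nat_lit 198)), ((nat_lit 811), (nat_lit 1000), (nat_lit 671))], ((nat_lit 100), (nat_lit 89), (nat_lit 55))⟩, (nat_lit 1893803), (nat_lit 300), (nat_lit 508), (nat_lit 55062501), (nat_lit 478424), [(nat_lit 5506250000), (nat_lit 8670802000), (nat_lit 10459232000)], [], [(nat_lit 34574113617), (nat_lit 34880364030), (nat_lit 27832914536), (nat_lit 28051009414), (nat_lit 43008326598), (nat_lit 44106220501), (nat_lit 49338081116), (nat_lit 38787357621)], (nat_lit 1271251), (nat_lit 1271251), (nat_lit 111251), (nat_lit 780000), (nat_lit 780000), (nat_lit 3072501), [(nat_lit 1412501), (nat_lit 1271251), (nat_lit 1271251)], [(nat_lit 23), (nat_lit 62),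 (nat_lit 428), (nat_lit 200), (nat_lit 11)]⟩⟩)) (.dle (nat_lit 0))) (.ord (.trZ (nat_lit 0) (nat_lit 2) (nat_lit 4) (nat_lit 100) (nat_lit 96) (nat_lit 69) (nat_lit 40) (.trZ (nat_lit 1) (nat_lit 2) (nat_lit 5) (nat_lit 100) (nat_lit 100) (nat_lit 60) (nat_lit 30) (.spl (nat_lit 5) (nat_lit 120) (.leaf ⟨(nat_lit 0), (nat_lit 0), (nat_lit 0), (nat_lit 1000), (nat_lit 4236), (nat_lit 15871), (nat_lit 12519), (nat_lit 16371), (nat_lit 46981), (nat_lit 151240616460), (nat_lit 0), [], Pd.none, Pd.none, (nat_lit 0), (nat_lit 1), (nat_lit 0), (nat_lit 0), (nat_lit 0), (nat_lit 0), [], [⟨(nat_lit 0), (nat_lit 100), (nat_lit 97), (nat_lit 84), (nat_lit 434279054)⟩], [⟨(nat_lit 0), (nat_lit 100), (nat_lit 100), (nat_lit 80), (nat_lit 725613322)⟩], [],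
 ⟨⟨[(nat_lit 60), (nat_lit 100), (nat_lit 140)], [(nat_lit 0), (nat_lit 0), (nat_lit 2047)], [((nat_lit 0), (nat_lit 0), (nat_lit 0)), ((nat_lit 0), (nat_lit 0), (nat_lit 0)), ((nat_lit 1000), (nat_lit 993), (nat_lit 781))], ((nat_lit 96), (nat_lit 100), (nat_lit 68))⟩, (nat_lit 533464), (nat_lit 300), (nat_lit 367), (nat_lit 62500001), (nat_lit 470328), [(nat_lit 3282000007), (nat_lit 6250000002), (nat_lit 9842000000)], [], [(nat_lit 24473027207), (nat_lit 27111200718), (nat_lit 30614086502), (nat_lit 33956007251), (nat_lit 17774720280), (nat_lit 19719611099), (nat_lit 29974705998), (nat_lit 24984207882)], (nat_lit 1271251), (nat_lit 1271251), (nat_lit 780000), (nat_lit 2090001), (nat_lit 230000), (nat_lit 780000), [(nat_lit 780000), (nat_lit 1435001), (nat_lit 1271251)], [(nat_lit 11), (nat_lit 55), (nat_lit 317), (nat_lit 100), (nat_lit 9)]⟩,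
 ⟨⟨[(nat_lit 80), (nat_lit 120), (nat_lit 140)], [(nat_lit 0), (nat_lit 528), (nat_lit 1572)], [((nat_lit 0), (nat_lit 0), (nat_lit 0)), ((nat_lit 1000), (nat_lit 959), (nat_lit 206)), ((nat_lit 966), (nat_lit 1000), (nat_lit 679))], ((nat_lit 100), (nat_lit 96), (nat_lit 68))⟩, (nat_lit 4958727), (nat_lit 397), (nat_lit 397), (nat_lit 0), (nat_lit 480668), [(nat_lit 4688000000), (nat_lit 7968000000), (nat_lit 9842000000)], [], [(nat_lit 19865136865), (nat_lit 21703615465), (nat_lit 37133899711), (nat_lit 31756416038), (nat_lit 19718185436), (nat_lit 15023110879), (nat_lit 44577747153), (nat_lit 33452769101)], (nat_lit 1271251), (nat_lit 1271251), (nat_lit 780000), (nat_lit 2090001), (nat_lit 169688), (nat_lit 780000), [(nat_lit 1100000), (nat_lit 1785001), (nat_lit 1271251)], [(nat_lit 17), (nat_lit 58), (nat_lit 401), (nat_lit 175), (nat_lit 11)]⟩,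
 ⟨⟨[(nat_lit 80), (nat_lit 120), (nat_lit 140)], [(nat_lit 0), (nat_lit 528), (nat_lit 1572)], [((nat_lit 0), (nat_lit 0), (nat_lit 0)), ((nat_lit 1000), (nat_lit 959), (nat_lit 206)), ((nat_lit 966), (nat_lit 1000), (nat_lit 679))], ((nat_lit 100), (nat_lit 96), (nat_lit 68))⟩, (nat_lit 1772727), (nat_lit 300), (nat_lit 343), (nat_lit 58600002), (nat_lit 221601), [(nat_lit 4688000000), (nat_lit 7968000000), (nat_lit 9842000000)], [], [(nat_lit 30339188738), (nat_lit 35687228403), (nat_lit 26530245562), (nat_lit 26978878118), (nat_lit 26862447769), (nat_lit 25397998807), (nat_lit 34618069401), (nat_lit 19689297203)], (nat_lit 1271251), (nat_lit 1271251), (nat_lit 230000), (nat_lit 780000), (nat_lit 169688), (nat_lit 780000), [(nat_lit 1100000), (nat_lit 1785001), (nat_lit 1271251)], [(nat_lit 17), (nat_lit 58), (nat_lit 373), (nat_lit 150), (nat_lit 11)]⟩⟩) (.leaf ⟨(nat_lit 0), (nat_lit 0), (nat_lit 0), (nat_lit 1000), (nat_lit 11913), (nat_lit 16200),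 (nat_lit 6690), (nat_lit 7821), (nat_lit 7474308), (nat_lit 8705), (nat_lit 0), [], Pd.none, Pd.none, (nat_lit 0), (nat_lit 1), (nat_lit 0), (nat_lit 0), (nat_lit 0), (nat_lit 0), [], [⟨(nat_lit 0), (nat_lit 100), (nat_lit 96), (nat_lit 69), (nat_lit 1181777019)⟩], [], [],
 ⟨⟨[(nat_lit 60), (nat_lit 100), (nat_lit 140)], [(nat_lit 0), (nat_lit 0), (nat_lit 2047)], [((nat_lit 0), (nat_lit 0), (nat_lit 0)), ((nat_lit 0), (nat_lit 0), (nat_lit 0)), ((nat_lit 1000), (nat_lit 993), (nat_lit 781))], ((nat_lit 96), (nat_lit 100), (nat_lit 68))⟩, (nat_lit 533464), (nat_lit 300), (nat_lit 367), (nat_lit 62500001), (nat_lit 470328), [(nat_lit 3282000004), (nat_lit 6250000001), (nat_lit 9842000000)], [], [(nat_lit 24068426561), (nat_lit 27099043592), (nat_lit 30915136800), (nat_lit 34311329800), (nat_lit 17202939501), (nat_lit 19522660842), (nat_lit 29662676306), (nat_lit 25121999250)], (nat_lit 1271251), (nat_lit 1271251), (nat_lit 780000), (nat_lit 2090001),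 (nat_lit 230000), (nat_lit 780000), [(nat_lit 780000), (nat_lit 1435001), (nat_lit 1271251)], [(nat_lit 11), (nat_lit 55), (nat_lit 317), (nat_lit 100), (nat_lit 9)]⟩,
 ⟨⟨[(nat_lit 80), (nat_lit 120), (nat_lit 140)], [(nat_lit 0), (nat_lit 528), (nat_lit 1572)], [((nat_lit 0), (nat_lit 0), (nat_lit 0)), ((nat_lit 1000), (nat_lit 959), (nat_lit 206)), ((nat_lit 966), (nat_lit 1000), (nat_lit 679))], ((nat_lit 100), (nat_lit 96), (nat_lit 68))⟩, (nat_lit 8542044), (nat_lit 469), (nat_lit 469), (nat_lit 0), (nat_lit 739733), [(nat_lit 4688000000), (nat_lit 7968000000), (nat_lit 9842000000)], [], [(nat_lit 30250231218), (nat_lit 23225934854), (nat_lit 29074270566), (nat_lit 25600807061), (nat_lit 40707696853), (nat_lit 34686944383), (nat_lit 57370651738), (nat_lit 51644961718)], (nat_lit 1271251), (nat_lit 1271251), (nat_lit 780000), (nat_lit 2090001), (nat_lit 780000), (nat_lit 3072501), [(nat_lit 1100000), (nat_lit 1785001), (nat_lit 1271251)], [(nat_lit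 17), (nat_lit 58), (nat_lit 483), (nat_lit 250), (nat_lit 14)]⟩,
 ⟨⟨[(nat_lit 80), (nat_lit 120), (nat_lit 140)], [(nat_lit 0), (nat_lit 528), (nat_lit 1572)], [((nat_lit 0), (nat_lit 0), (nat_lit 0)), ((nat_lit 1000), (nat_lit 959), (nat_lit 206)), ((nat_lit 966), (nat_lit 1000), (nat_lit 679))], ((nat_lit 100), (nat_lit 96), (nat_lit 68))⟩, (nat_lit 571130), (nat_lit 300), (nat_lit 388), (nat_lit 63887028), (nat_lit 480668), [(nat_lit 4688000000), (nat_lit 7968000000), (nat_lit 9842000000)], [], [(nat_lit 37316740405), (nat_lit 38774354631), (nat_lit 34708640259), (nat_lit 36165060122), (nat_lit 43326513779), (nat_lit 43934022180), (nat_lit 47693657372), (nat_lit 40832043800)], (nat_lit 1271251), (nat_lit 1271251), (nat_lit 230000), (nat_lit 780000), (nat_lit 780000), (nat_lit 3072501), [(nat_lit 1100000), (nat_lit 1785001), (nat_lit 1271251)], [(nat_lit 17), (nat_lit 58), (nat_lit 456), (nat_lit 225), (nat_lit 13)]⟩⟩)))))))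
noncomputable def c6_11 : Tr Lf :=
 (.trX (nat_lit 5) (nat_lit 3) (nat_lit 4) (nat_lit 100) (nat_lit 80) (nat_lit 100) (nat_lit 340) (.spl (nat_lit 2) (nat_lit 220) (.spl (nat_lit 6) (nat_lit 36) (.spl (nat_lit 1) (nat_lit 280) (.spl (nat_lit 6) (nat_lit 20) (.leaf ⟨(nat_lit 0), (nat_lit 863), (nat_lit 0), (nat_lit 137), (nat_lit 0), (nat_lit 6469), (nat_lit 7021), (nat_lit 1527), (nat_lit 0), (nat_lit 0), (nat_lit 0), [], Pd.none, Pd.none, (nat_lit 0), (nat_lit 1), (nat_lit 0), (nat_lit 0), (nat_lit 3), (nat_lit 0), [], [], [], [⟨(nat_lit 1), (nat_lit 100), (nat_lit 72), (nat_lit 59), (nat_lit 75069610)⟩],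
 ⟨⟨[(nat_lit 60), (nat_lit 100), (nat_lit 120)], [(nat_lit 0), (nat_lit 0), (nat_lit 1164)], [((nat_lit 0), (nat_lit 0), (nat_lit 0)), ((nat_lit 0), (nat_lit 0), (nat_lit 0)), ((nat_lit 1000), (nat_lit 933), (nat_lit 572))], ((nat_lit 92), (nat_lit 100), (nat_lit 44))⟩, (nat_lit 2572588), (nat_lit 288), (nat_lit 288), (nat_lit 0), (nat_lit 245409), [(nat_lit 3306127101), (nat_lit 6250000002), (nat_lit 7968000000)], [], [(nat_lit 29771654438), (nat_lit 30876984500), (nat_lit 37568188476), (nat_lit 38283675508), (nat_lit 26359253647), (nat_lit 27306745126), (nat_lit 33270989048), (nat_lit 33915567874)], (nat_lit 1271251), (nat_lit 1271251), (nat_lit 1271251), (nat_lit 1271251), (nat_lit 0), (nat_lit 780000), [(nat_lit 780000), (nat_lit 1435001), (nat_lit 1271251)], [(nat_lit 10), (nat_lit 54), (nat_lit 238), (nat_lit 30), (nat_lit 7)]⟩,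
 ⟨⟨[(nat_lit 80), (nat_lit 120), (nat_lit 140)], [(nat_lit 0), (nat_lit 0), (nat_lit 1164)], [((nat_lit 0), (nat_lit 0), (nat_lit 0)), ((nat_lit 0), (nat_lit 0), (nat_lit 0)), ((nat_lit 941), (nat_lit 1000), (nat_lit 576))], ((nat_lit 100), (nat_lit 99), (nat_lit 44))⟩, (nat_lit 2405203), (nat_lit 376), (nat_lit 376), (nat_lit 0), (nat_lit 374179), [(nat_lit 4688000000), (nat_lit 7968000000), (nat_lit 9842000000)], [], [(nat_lit 34888734128), (nat_lit 36060563429), (nat_lit 40921080340), (nat_lit 42004689788), (nat_lit 34278320990), (nat_lit 34893988685), (nat_lit 38103796891), (nat_lit 38642981655)], (nat_lit 1271251), (nat_lit 1271251), (nat_lit 1271251), (nat_lit 1271251), (nat_lit 0), (nat_lit 2401251), [(nat_lit 1100000), (nat_lit 1785001), (nat_lit 1271251)], [(nat_lit 17), (nat_lit 58), (nat_lit 401), (nat_lit 175), (nat_lit 11)]⟩,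
 ⟨⟨[(nat_lit 140), (nat_lit 160), (nat_lit 180)], [(nat_lit 0), (nat_lit 0), (nat_lit 799)], [((nat_lit 0), (nat_lit 0), (nat_lit 0)), ((nat_lit 0), (nat_lit 0), (nat_lit 0)), ((nat_lit 728), (nat_lit 1000), (nat_lit 454))], ((nat_lit 100), (nat_lit 71), (nat_lit 48))⟩, (nat_lit 140638), (nat_lit 300), (nat_lit 1044), (nat_lit 10165400), (nat_lit 1128634), [(nat_lit 1348354000), (nat_lit 1626464000), (nat_lit 1925946000)], [], [(nat_lit 10345329933), (nat_lit 9662325991), (nat_lit 9025366216), (nat_lit 8555211407), (nat_lit 8317304413), (nat_lit 9116361442), (nat_lit 8157635697), (nat_lit 10166485511)], (nat_lit 780000), (nat_lit 1598751), (nat_lit 0), (nat_lit 780000), (nat_lit 0), (nat_lit 2401251), [(nat_lit 1977501), (nat_lit 1271251), (nat_lit 1271251)], [(nat_lit 31), (nat_lit 65), (nat_lit 401), (nat_lit 175), (nat_lit 10)]⟩⟩) (.dle (nat_lit 0))) (.leaf ⟨(nat_lit 0), (nat_lit 920), (nat_lit 0), (nat_lit 80), (nat_lit 0), (nat_lit 8427), (nat_lit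 6816), (nat_lit 896), (nat_lit 2264290141673), (nat_lit 0), (nat_lit 0), [], Pd.none, Pd.none, (nat_lit 0), (nat_lit 1), (nat_lit 0), (nat_lit 0), (nat_lit 3), (nat_lit 0), [], [], [], [⟨(nat_lit 1), (nat_lit 100), (nat_lit 71), (nat_lit 71), (nat_lit 134199062)⟩, ⟨(nat_lit 1), (nat_lit 100), (nat_lit 72), (nat_lit 59), (nat_lit 4722178)⟩],
 ⟨⟨[(nat_lit 60), (nat_lit 100), (nat_lit 120)], [(nat_lit 0), (nat_lit 0), (nat_lit 1164)], [((nat_lit 0), (nat_lit 0), (nat_lit 0)), ((nat_lit 0), (nat_lit 0), (nat_lit 0)), ((nat_lit 1000), (nat_lit 933), (nat_lit 572))], ((nat_lit 93), (nat_lit 100), (nat_lit 58))⟩, (nat_lit 752675), (nat_lit 300), (nat_lit 329), (nat_lit 62500001), (nat_lit 376409), [(nat_lit 3671803526), (nat_lit 6250000003), (nat_lit 7968000000)], [], [(nat_lit 33423347360), (nat_lit 34236106429), (nat_lit 42382471958), (nat_lit 43616436615), (nat_lit 28462871172), (nat_lit 29172293535), (nat_lit 33936182948), (nat_lit 34564599296)], (nat_lit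 1271251), (nat_lit 1271251), (nat_lit 1271251), (nat_lit 1271251), (nat_lit 0), (nat_lit 780000), [(nat_lit 780000), (nat_lit 1435001), (nat_lit 1271251)], [(nat_lit 10), (nat_lit 54), (nat_lit 238), (nat_lit 30), (nat_lit 7)]⟩,
 ⟨⟨[(nat_lit 60), (nat_lit 100), (nat_lit 120)], [(nat_lit 0), (nat_lit 0), (nat_lit 1164)], [((nat_lit 0), (nat_lit 0), (nat_lit 0)), ((nat_lit 0), (nat_lit 0), (nat_lit 0)), ((nat_lit 1000), (nat_lit 933), (nat_lit 572))], ((nat_lit 93), (nat_lit 100), (nat_lit 58))⟩, (nat_lit 2715434), (nat_lit 372), (nat_lit 372), (nat_lit 0), (nat_lit 463948), [(nat_lit 3282000000), (nat_lit 6250000000), (nat_lit 7968000000)], [], [(nat_lit 32394644392), (nat_lit 33275080012), (nat_lit 38665626144), (nat_lit 39229213616), (nat_lit 32769345982), (nat_lit 33207447421), (nat_lit 36206303424), (nat_lit 36463338292)], (nat_lit 1271251), (nat_lit 1271251), (nat_lit 1271251), (nat_lit 1271251), (nat_lit 0), (nat_lit 2401251), [(nat_lit 780000),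 (nat_lit 1435001), (nat_lit 1271251)], [(nat_lit 10), (nat_lit 54), (nat_lit 317), (nat_lit 100), (nat_lit 10)]⟩,
 ⟨⟨[(nat_lit 140), (nat_lit 180), (nat_lit 200)], [(nat_lit 0), (nat_lit 0), (nat_lit 2835)], [((nat_lit 0), (nat_lit 0), (nat_lit 0)), ((nat_lit 0), (nat_lit 0), (nat_lit 0)), ((nat_lit 363), (nat_lit 1000), (nat_lit 798))], ((nat_lit 0), (nat_lit 0), (nat_lit 0))⟩, (nat_lit 360027), (nat_lit 300), (nat_lit 1398), (nat_lit 6248000), (nat_lit 1762861), [(nat_lit 787360000), (nat_lit 1124640000), (nat_lit 1312000000)], [], [(nat_lit 7307122980), (nat_lit 6568378144), (nat_lit 6198768896), (nat_lit 5874679304), (nat_lit 5654161648), (nat_lit 5329997440), (nat_lit 4999676056), (nat_lit 5944970672)], (nat_lit 780000), (nat_lit 1598751), (nat_lit 0), (nat_lit 780000), (nat_lit 0), (nat_lit 2401251), [(nat_lit 1977501), (nat_lit 1271251), (nat_lit 1271251)], [(nat_lit 32), (nat_lit 67), (nat_lit 435), (nat_lit 175), (nat_lit 10)]⟩⟩)) (.dle (nat_lit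 0))) (.trZ (nat_lit 0) (nat_lit 2) (nat_lit 4) (nat_lit 100) (nat_lit 92) (nat_lit 49) (nat_lit 20) (.spl (nat_lit 1) (nat_lit 280) (.ord (.spl (nat_lit 6) (nat_lit 32) (.leaf ⟨(nat_lit 0), (nat_lit 445), (nat_lit 0), (nat_lit 555), (nat_lit 5540), (nat_lit 7367), (nat_lit 8383), (nat_lit 8021), (nat_lit 0), (nat_lit 2709384), (nat_lit 0), [], Pd.none, Pd.none, (nat_lit 0), (nat_lit 1), (nat_lit 0), (nat_lit 0), (nat_lit 5), (nat_lit 0), [], [⟨(nat_lit 0), (nat_lit 100), (nat_lit 92), (nat_lit 68), (nat_lit 929445148)⟩], [⟨(nat_lit 0), (nat_lit 100), (nat_lit 99), (nat_lit 55), (nat_lit 98298146)⟩], [],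
 ⟨⟨[(nat_lit 60), (nat_lit 100), (nat_lit 120)], [(nat_lit 0), (nat_lit 0), (nat_lit 1164)], [((nat_lit 0), (nat_lit 0), (nat_lit 0)), ((nat_lit 0), (nat_lit 0), (nat_lit 0)), ((nat_lit 1000), (nat_lit 933), (nat_lit 572))], ((nat_lit 93), (nat_lit 100), (nat_lit 55))⟩, (nat_lit 2600071), (nat_lit 297), (nat_lit 297), (nat_lit 0), (nat_lit 320892), [(nat_lit 3518895395), (nat_lit 6250000341), (nat_lit 7968000000)], [], [(nat_lit 27882105740), (nat_lit 29054831367), (nat_lit 37884982216), (nat_lit 39036304588), (nat_lit 24675123000), (nat_lit 25731668396), (nat_lit 32137422774), (nat_lit 33047986806)], (nat_lit 1271251), (nat_lit 1271251), (nat_lit 1271251), (nat_lit 1271251), (nat_lit 111251), (nat_lit 780000), [(nat_lit 780000), (nat_lit 1435001), (nat_lit 1271251)], [(nat_lit 10), (nat_lit 54), (nat_lit 238), (nat_lit 30), (nat_lit 7)]⟩,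
 ⟨⟨[(nat_lit 80), (nat_lit 120), (nat_lit 140)], [(nat_lit 0), (nat_lit 0), (nat_lit 1164)], [((nat_lit 0), (nat_lit 0), (nat_lit 0)), ((nat_lit 0), (nat_lit 0), (nat_lit 0)), ((nat_lit 941), (nat_lit 1000), (nat_lit 576))], ((nat_lit 100), (nat_lit 95), (nat_lit 55))⟩, (nat_lit 2677588), (nat_lit 468), (nat_lit 468), (nat_lit 0), (nat_lit 583386), [(nat_lit 4688000000), (nat_lit 7968000000), (nat_lit 9842000000)], [], [(nat_lit 35532305210), (nat_lit 36936464511), (nat_lit 41455709124), (nat_lit 42267553516), (nat_lit 33255156165), (nat_lit 33842617459), (nat_lit 36308404457), (nat_lit 37514426376)], (nat_lit 1271251), (nat_lit 1271251), (nat_lit 1271251), (nat_lit 1271251), (nat_lit 0), (nat_lit 2401251), [(nat_lit 1100000), (nat_lit 1785001), (nat_lit 1271251)], [(nat_lit 17), (nat_lit 58), (nat_lit 401), (nat_lit 175), (nat_lit 11)]⟩,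
 ⟨⟨[(nat_lit 100), (nat_lit 140), (nat_lit 160)], [(nat_lit 0), (nat_lit 508), (nat_lit 1689)], [((nat_lit 0), (nat_lit 0), (nat_lit 0)), ((nat_lit 1000), (nat_lit 1000), (nat_lit 198)), ((nat_lit 811), (nat_lit 1000), (nat_lit 671))], ((nat_lit 100), (nat_lit 89), (nat_lit 55))⟩, (nat_lit 1193032), (nat_lit 300), (nat_lit 564), (nat_lit 34687500), (nat_lit 384033), [(nat_lit 3468750000), (nat_lit 5462310000), (nat_lit 6588960000)], [], [(nat_lit 26985270613), (nat_lit 28655909534), (nat_lit 21782465840), (nat_lit 22901544757), (nat_lit 30506292824), (nat_lit 23790520001), (nat_lit 35580544209), (nat_lit 25131447142)], (nat_lit 1271251), (nat_lit 1271251), (nat_lit 111251), (nat_lit 780000), (nat_lit 0), (nat_lit 2401251), [(nat_lit 1412501), (nat_lit 1271251), (nat_lit 1271251)], [(nat_lit 23), (nat_lit 62), (nat_lit 428), (nat_lit 200), (nat_lit 11)]⟩⟩) (.dle (nat_lit 0)))) (.trZ (nat_lit 1) (nat_lit 2) (nat_lit 5) (nat_lit 100) (nat_lit 92) (nat_lit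 49) (nat_lit 20) (.leaf ⟨(nat_lit 0), (nat_lit 512), (nat_lit 0), (nat_lit 488), (nat_lit 2113), (nat_lit 9625), (nat_lit 7453), (nat_lit 6398), (nat_lit 6630065), (nat_lit 201555), (nat_lit 0), [], Pd.none, Pd.none, (nat_lit 0), (nat_lit 1), (nat_lit 0), (nat_lit 0), (nat_lit 5), (nat_lit 0), [], [⟨(nat_lit 0), (nat_lit 100), (nat_lit 94), (nat_lit 73), (nat_lit 843866587)⟩], [], [],
 ⟨⟨[(nat_lit 60), (nat_lit 100), (nat_lit 140)], [(nat_lit 0), (nat_lit 0), (nat_lit 2047)], [((nat_lit 0), (nat_lit 0), (nat_lit 0)), ((nat_lit 0), (nat_lit 0), (nat_lit 0)), ((nat_lit 1000), (nat_lit 993), (nat_lit 781))], ((nat_lit 96), (nat_lit 100), (nat_lit 68))⟩, (nat_lit 533464), (nat_lit 300), (nat_lit 380), (nat_lit 62500001), (nat_lit 470537), [(nat_lit 3670503405), (nat_lit 6250000033), (nat_lit 9842000000)], [], [(nat_lit 35772679513), (nat_lit 36572012419), (nat_lit 43271098000), (nat_lit 44588190313), (nat_lit 30492633188), (nat_lit 31202609169), (nat_lit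 36042640026), (nat_lit 36709859942)], (nat_lit 1271251), (nat_lit 1271251), (nat_lit 1271251), (nat_lit 1271251), (nat_lit 111251), (nat_lit 780000), [(nat_lit 780000), (nat_lit 1435001), (nat_lit 1271251)], [(nat_lit 11), (nat_lit 55), (nat_lit 238), (nat_lit 30), (nat_lit 6)]⟩,
 ⟨⟨[(nat_lit 60), (nat_lit 100), (nat_lit 140)], [(nat_lit 0), (nat_lit 0), (nat_lit 2047)], [((nat_lit 0), (nat_lit 0), (nat_lit 0)), ((nat_lit 0), (nat_lit 0), (nat_lit 0)), ((nat_lit 1000), (nat_lit 993), (nat_lit 781))], ((nat_lit 96), (nat_lit 100), (nat_lit 68))⟩, (nat_lit 2545325), (nat_lit 493), (nat_lit 493), (nat_lit 0), (nat_lit 724400), [(nat_lit 3282000000), (nat_lit 6250000000), (nat_lit 9842000000)], [], [(nat_lit 32710861057), (nat_lit 33386968153), (nat_lit 38090122144), (nat_lit 39247758163), (nat_lit 32274419734), (nat_lit 32589114370), (nat_lit 36375946416), (nat_lit 36966545131)], (nat_lit 1271251), (nat_lit 1271251), (nat_lit 1271251), (nat_lit 1271251),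 (nat_lit 111251), (nat_lit 2431251), [(nat_lit 780000), (nat_lit 1435001), (nat_lit 1271251)], [(nat_lit 11), (nat_lit 55), (nat_lit 317), (nat_lit 100), (nat_lit 8)]⟩,
 ⟨⟨[(nat_lit 100), (nat_lit 140), (nat_lit 160)], [(nat_lit 0), (nat_lit 508), (nat_lit 1689)], [((nat_lit 0), (nat_lit 0), (nat_lit 0)), ((nat_lit 1000), (nat_lit 1000), (nat_lit 198)), ((nat_lit 811), (nat_lit 1000), (nat_lit 671))], ((nat_lit 100), (nat_lit 83), (nat_lit 65))⟩, (nat_lit 1049008), (nat_lit 300), (nat_lit 604), (nat_lit 30500000), (nat_lit 520509), [(nat_lit 3050000000), (nat_lit 4802896000), (nat_lit 5793536000)], [], [(nat_lit 23172622960), (nat_lit 24277327401), (nat_lit 19169204189), (nat_lit 19815332972), (nat_lit 27375745423), (nat_lit 20889717771), (nat_lit 31544432813), (nat_lit 20454591472)], (nat_lit 1271251), (nat_lit 1271251), (nat_lit 111251), (nat_lit 780000), (nat_lit 111251), (nat_lit 2431251), [(nat_lit 1412501), (nat_lit 1271251), (nat_lit 1271251)],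 [(nat_lit 23), (nat_lit 62), (nat_lit 428), (nat_lit 200), (nat_lit 11)]⟩⟩))))))
noncomputable def c6_12 : Tr Lf :=
 (.spl (nat_lit 1) (nat_lit 280) (.spl (nat_lit 6) (nat_lit 20) (.spl (nat_lit 3) (nat_lit 80) (.spl (nat_lit 5) (nat_lit 120) (.spl (nat_lit 0) (nat_lit 290) (.leaf ⟨(nat_lit 824), (nat_lit 176), (nat_lit 0), (nat_lit 0), (nat_lit 12582), (nat_lit 6121), (nat_lit 2386), (nat_lit 0), (nat_lit 0), (nat_lit 0), (nat_lit 1490000), [((nat_lit 290), [((nat_lit 12), (nat_lit 2), (nat_lit 602)), ((nat_lit 33), (nat_lit 5), (nat_lit 222))])], ⟨(nat_lit 6), false, false, false, (nat_lit 118), (nat_lit 5244), (nat_lit 5478), [(nat_lit 1224247), (nat_lit 1231792), (nat_lit 1266961), (nat_lit 1274563), (nat_lit 1317913), (nat_lit 1323256), (nat_lit 1360628), (nat_lit 1366027)]⟩, ⟨(nat_lit 3), false, false, true, (nat_lit 149), (nat_lit 5244), (nat_lit 5478), [(nat_lit 1264704), (nat_lit 1268114), (nat_lit 1328775), (nat_lit 1332271), (nat_lit 1414570),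 (nat_lit 1414457), (nat_lit 1478641), (nat_lit 1478613)]⟩, (nat_lit 3538085), (nat_lit 52684943), (nat_lit 5892916), (nat_lit 8422141), (nat_lit 3), (nat_lit 0), [⟨(nat_lit 0), (nat_lit 100), (nat_lit 95), (nat_lit 71), (nat_lit 568551797)⟩], [], [], [],
 ⟨⟨[(nat_lit 60), (nat_lit 100), (nat_lit 120)], [(nat_lit 0), (nat_lit 0), (nat_lit 1164)], [((nat_lit 0), (nat_lit 0), (nat_lit 0)), ((nat_lit 0), (nat_lit 0), (nat_lit 0)), ((nat_lit 1000), (nat_lit 933), (nat_lit 572))], ((nat_lit 92), (nat_lit 100), (nat_lit 44))⟩, (nat_lit 0), (nat_lit 185), (nat_lit 185), (nat_lit 0), (nat_lit 133350), [(nat_lit 3041816126), (nat_lit 1617628678), (nat_lit 0)], [(nat_lit 0), (nat_lit 0), (nat_lit 559083200)], [(nat_lit 14133757110), (nat_lit 15317575830), (nat_lit 11844326458), (nat_lit 12680349687), (nat_lit 16577538171), (nat_lit 17661372092), (nat_lit 13958299108), (nat_lit 14680892902)], (nat_lit 1271251), (nat_lit 1271251), (nat_lit 169688), (nat_lit 490000),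 (nat_lit 780000), (nat_lit 1435001), [(nat_lit 780000), (nat_lit 1435001), (nat_lit 1271251)], [(nat_lit 10), (nat_lit 54), (nat_lit 289), (nat_lit 75), (nat_lit 9)]⟩,
 ⟨⟨[(nat_lit 80), (nat_lit 120), (nat_lit 140)], [(nat_lit 0), (nat_lit 0), (nat_lit 1164)], [((nat_lit 0), (nat_lit 0), (nat_lit 0)), ((nat_lit 0), (nat_lit 0), (nat_lit 0)), ((nat_lit 941), (nat_lit 1000), (nat_lit 576))], ((nat_lit 100), (nat_lit 99), (nat_lit 44))⟩, (nat_lit 793578), (nat_lit 323), (nat_lit 323), (nat_lit 0), (nat_lit 95440), [(nat_lit 825088000), (nat_lit 1402368000), (nat_lit 1732192000)], [], [(nat_lit 8082650014), (nat_lit 6005689539), (nat_lit 5943200928), (nat_lit 4660651008), (nat_lit 6660268505), (nat_lit 4418348010), (nat_lit 7112203728), (nat_lit 4907911944)], (nat_lit 1271251), (nat_lit 1271251), (nat_lit 169688), (nat_lit 490000), (nat_lit 0), (nat_lit 780000), [(nat_lit 1100000), (nat_lit 1785001), (nat_lit 1271251)], [(nat_lit 17), (nat_lit 58), (nat_lit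 345), (nat_lit 125), (nat_lit 10)]⟩,
 Rw.none⟩) (.trZ (nat_lit 0) (nat_lit 1) (nat_lit 3) (nat_lit 100) (nat_lit 91) (nat_lit 63) (nat_lit 40) (.leaf ⟨(nat_lit 749), (nat_lit 251), (nat_lit 0), (nat_lit 0), (nat_lit 13425), (nat_lit 5312), (nat_lit 3236), (nat_lit 0), (nat_lit 0), (nat_lit 0), (nat_lit 217550), [((nat_lit 300), [((nat_lit 12), (nat_lit 0), (nat_lit 547)), ((nat_lit 12), (nat_lit 1), (nat_lit 202))])], ⟨(nat_lit 6), false, false, false, (nat_lit 124), (nat_lit 5000), (nat_lit 5245), [(nat_lit 1250085), (nat_lit 1257141), (nat_lit 1292856), (nat_lit 1299998), (nat_lit 1323256), (nat_lit 1328570), (nat_lit 1366025), (nat_lit 1371426)]⟩, ⟨(nat_lit 3), false, false, true, (nat_lit 150), (nat_lit 5000), (nat_lit 5245), [(nat_lit 1268114), (nat_lit 1271427), (nat_lit 1332271), (nat_lit 1335713), (nat_lit 1414457), (nat_lit 1414284), (nat_lit 1478613), (nat_lit 1478570)]⟩, (nat_lit 3629997), (nat_lit 52159963), (nat_lit 6368200), (nat_lit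 8471837), (nat_lit 3), (nat_lit 0), [⟨(nat_lit 0), (nat_lit 100), (nat_lit 92), (nat_lit 75), (nat_lit 462632715)⟩], [], [], [],
 ⟨⟨[(nat_lit 60), (nat_lit 80), (nat_lit 100)], [(nat_lit 0), (nat_lit 151), (nat_lit 679)], [((nat_lit 0), (nat_lit 0), (nat_lit 0)), ((nat_lit 1000), (nat_lit 953), (nat_lit 118)), ((nat_lit 1000), (nat_lit 894), (nat_lit 411))], ((nat_lit 89), (nat_lit 100), (nat_lit 44))⟩, (nat_lit 3754642), (nat_lit 178), (nat_lit 178), (nat_lit 0), (nat_lit 171694), [(nat_lit 2329418070), (nat_lit 3013194128), (nat_lit 3672422072)], [(nat_lit 0), (nat_lit 0), (nat_lit 0)], [(nat_lit 14337466220), (nat_lit 15388859138), (nat_lit 12927218850), (nat_lit 13697963054), (nat_lit 16625176215), (nat_lit 17613084826), (nat_lit 14976729164), (nat_lit 15699450338)], (nat_lit 1271251), (nat_lit 1271251), (nat_lit 230000), (nat_lit 490000), (nat_lit 780000), (nat_lit 1435001), [(nat_lit 780000), (nat_lit 1100000), (nat_lit 1442501)], [(nat_lit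 9), (nat_lit 50), (nat_lit 289), (nat_lit 75), (nat_lit 11)]⟩,
 ⟨⟨[(nat_lit 80), (nat_lit 120), (nat_lit 140)], [(nat_lit 0), (nat_lit 0), (nat_lit 1164)], [((nat_lit 0), (nat_lit 0), (nat_lit 0)), ((nat_lit 0), (nat_lit 0), (nat_lit 0)), ((nat_lit 941), (nat_lit 1000), (nat_lit 576))], ((nat_lit 100), (nat_lit 99), (nat_lit 44))⟩, (nat_lit 1371902), (nat_lit 327), (nat_lit 327), (nat_lit 0), (nat_lit 129826), [(nat_lit 1176688000), (nat_lit 1999968000), (nat_lit 2470342000)], [], [(nat_lit 10555039720), (nat_lit 7755222771), (nat_lit 8606953428), (nat_lit 6606681646), (nat_lit 9675519400), (nat_lit 6645133222), (nat_lit 10230786228), (nat_lit 7241227044)], (nat_lit 1271251), (nat_lit 1271251), (nat_lit 230000), (nat_lit 490000), (nat_lit 0), (nat_lit 780000), [(nat_lit 1100000), (nat_lit 1785001), (nat_lit 1271251)], [(nat_lit 17), (nat_lit 58), (nat_lit 345), (nat_lit 125), (nat_lit 10)]⟩,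
 Rw.none⟩))) (.leaf ⟨(nat_lit 950), (nat_lit 0), (nat_lit 0), (nat_lit 50), (nat_lit 5266), (nat_lit 5963), (nat_lit 674), (nat_lit 506), (nat_lit 0), (nat_lit 0), (nat_lit 1412000), [((nat_lit 300), [((nat_lit 12), (nat_lit 2), (nat_lit 796)), ((nat_lit 33), (nat_lit 5), (nat_lit 154))])], ⟨(nat_lit 6), false, false, false, (nat_lit 120), (nat_lit 5000), (nat_lit 5478), [(nat_lit 1224247), (nat_lit 1239284), (nat_lit 1266961), (nat_lit 1282141), (nat_lit 1317913), (nat_lit 1328570), (nat_lit 1360625), (nat_lit 1371424)]⟩, ⟨(nat_lit 3), false, false, true, (nat_lit 149), (nat_lit 5000), (nat_lit 5478), [(nat_lit 1264704), (nat_lit 1271427), (nat_lit 1328775), (nat_lit 1335713), (nat_lit 1414570), (nat_lit 1414284), (nat_lit 1478641), (nat_lit 1478570)]⟩, (nat_lit 3559765), (nat_lit 52560152), (nat_lit 5990700), (nat_lit 8449148), (nat_lit 0), (nat_lit 0), [⟨(nat_lit 0), (nat_lit 100), (nat_lit 94), (nat_lit 73), (nat_lit 466378935)⟩], [], [], [],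
 ⟨⟨[(nat_lit 60), (nat_lit 100), (nat_lit 120)], [(nat_lit 0), (nat_lit 0), (nat_lit 1164)], [((nat_lit 0), (nat_lit 0), (nat_lit 0)), ((nat_lit 0), (nat_lit 0), (nat_lit 0)), ((nat_lit 1000), (nat_lit 933), (nat_lit 572))], ((nat_lit 92), (nat_lit 100), (nat_lit 44))⟩, (nat_lit 0), (nat_lit 188), (nat_lit 188), (nat_lit 0), (nat_lit 174328), [(nat_lit 2817006153), (nat_lit 1359447189), (nat_lit 0)], [(nat_lit 0), (nat_lit 0), (nat_lit 769869600)], [(nat_lit 13980715687), (nat_lit 16443165690), (nat_lit 11739580046), (nat_lit 13422522774), (nat_lit 16489622863), (nat_lit 18622057810), (nat_lit 13770384654), (nat_lit 15707909382)], (nat_lit 1271251), (nat_lit 1271251), (nat_lit 169688), (nat_lit 490000), (nat_lit 780000), (nat_lit 1435001), [(nat_lit 780000), (nat_lit 1435001), (nat_lit 1271251)], [(nat_lit 10), (nat_lit 54), (nat_lit 289), (nat_lit 75), (nat_lit 9)]⟩,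
 ⟨⟨[(nat_lit 80), (nat_lit 120), (nat_lit 140)], [(nat_lit 0), (nat_lit 0), (nat_lit 1164)], [((nat_lit 0), (nat_lit 0), (nat_lit 0)), ((nat_lit 0), (nat_lit 0), (nat_lit 0)), ((nat_lit 941), (nat_lit 1000), (nat_lit 576))], ((nat_lit 100), (nat_lit 99), (nat_lit 44))⟩, (nat_lit 217726), (nat_lit 290), (nat_lit 290), (nat_lit 0), (nat_lit 203412), [(nat_lit 234400000), (nat_lit 398400000), (nat_lit 492100000)], [], [(nat_lit 1429812241), (nat_lit 1092105532), (nat_lit 1154127884), (nat_lit 831838934), (nat_lit 3277425897), (nat_lit 2684248270), (nat_lit 3456617944), (nat_lit 2872719612)], (nat_lit 1271251), (nat_lit 1271251), (nat_lit 169688), (nat_lit 490000), (nat_lit 780000), (nat_lit 3072501), [(nat_lit 1100000), (nat_lit 1785001), (nat_lit 1271251)], [(nat_lit 17), (nat_lit 58), (nat_lit 428), (nat_lit 200), (nat_lit 12)]⟩,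
 ⟨⟨[(nat_lit 140), (nat_lit 160), (nat_lit 180)], [(nat_lit 0), (nat_lit 0), (nat_lit 799)], [((nat_lit 0), (nat_lit 0), (nat_lit 0)), ((nat_lit 0), (nat_lit 0), (nat_lit 0)), ((nat_lit 728), (nat_lit 1000), (nat_lit 454))], ((nat_lit 100), (nat_lit 71), (nat_lit 48))⟩, (nat_lit 43930), (nat_lit 300), (nat_lit 1268), (nat_lit 3710000), (nat_lit 1985062), [(nat_lit 492100000), (nat_lit 593600000), (nat_lit 702900000)], [], [(nat_lit 3367329904), (nat_lit 3221670807), (nat_lit 3186751033), (nat_lit 3084754818), (nat_lit 2986500714), (nat_lit 2880955420), (nat_lit 2844956850), (nat_lit 3024054008)], (nat_lit 780000), (nat_lit 1271251), (nat_lit 780000), (nat_lit 1435001), (nat_lit 780000), (nat_lit 3072501), [(nat_lit 1977501), (nat_lit 1271251), (nat_lit 1271251)], [(nat_lit 31), (nat_lit 65), (nat_lit 428), (nat_lit 200), (nat_lit 10)]⟩⟩)) (.spl (nat_lit 0) (nat_lit 290) (.leaf ⟨(nat_lit 941), (nat_lit 18), (nat_lit 0), (nat_lit 41), (nat_lit 18),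 (nat_lit 4524), (nat_lit 411), (nat_lit 522), (nat_lit 0), (nat_lit 0), (nat_lit 294800), [((nat_lit 290), [((nat_lit 12), (nat_lit 0), (nat_lit 544)), ((nat_lit 12), (nat_lit 1), (nat_lit 397))])], ⟨(nat_lit 6), false, false, false, (nat_lit 152), (nat_lit 5244), (nat_lit 5478), [(nat_lit 1317913), (nat_lit 1323256), (nat_lit 1360628), (nat_lit 1366027), (nat_lit 1392847), (nat_lit 1396427), (nat_lit 1435559), (nat_lit 1439196)]⟩, ⟨(nat_lit 3), false, false, true, (nat_lit 149), (nat_lit 5244), (nat_lit 5478), [(nat_lit 1264704), (nat_lit 1268114), (nat_lit 1328775), (nat_lit 1332271), (nat_lit 1414570), (nat_lit 1414457), (nat_lit 1478641), (nat_lit 1478613)]⟩, (nat_lit 3961257), (nat_lit 50083921), (nat_lit 8571243), (nat_lit 8344836), (nat_lit 3), (nat_lit 0), [], [], [], [],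
 ⟨⟨[(nat_lit 60), (nat_lit 100), (nat_lit 120)], [(nat_lit 0), (nat_lit 0), (nat_lit 1164)], [((nat_lit 0), (nat_lit 0), (nat_lit 0)), ((nat_lit 0), (nat_lit 0), (nat_lit 0)), ((nat_lit 1000), (nat_lit 933), (nat_lit 572))], ((nat_lit 92), (nat_lit 100), (nat_lit 44))⟩, (nat_lit 0), (nat_lit 160), (nat_lit 160), (nat_lit 0), (nat_lit 133350), [(nat_lit 2142614373), (nat_lit 100165436444), (nat_lit 3288939600)], [(nat_lit 0), (nat_lit 0), (nat_lit 0)], [(nat_lit 11124292500), (nat_lit 12134899503), (nat_lit 11826902687), (nat_lit 12688424477), (nat_lit 13724449144), (nat_lit 14604430840), (nat_lit 14301580967), (nat_lit 15067194090)], (nat_lit 1271251), (nat_lit 1271251), (nat_lit 490000), (nat_lit 780000), (nat_lit 780000), (nat_lit 1435001), [(nat_lit 780000), (nat_lit 1435001), (nat_lit 1271251)], [(nat_lit 10), (nat_lit 54), (nat_lit 317), (nat_lit 100), (nat_lit 10)]⟩,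
 ⟨⟨[(nat_lit 80), (nat_lit 120), (nat_lit 140)], [(nat_lit 0), (nat_lit 0), (nat_lit 1164)], [((nat_lit 0), (nat_lit 0), (nat_lit 0)), ((nat_lit 0), (nat_lit 0), (nat_lit 0)), ((nat_lit 941), (nat_lit 1000), (nat_lit 576))], ((nat_lit 100), (nat_lit 99), (nat_lit 44))⟩, (nat_lit 0), (nat_lit 292), (nat_lit 292), (nat_lit 0), (nat_lit 150375), [(nat_lit 276592000), (nat_lit 470112000), (nat_lit 580678000)], [], [(nat_lit 2553027616), (nat_lit 2121676540), (nat_lit 2121676540), (nat_lit 2111403490), (nat_lit 3087968484), (nat_lit 2731911786), (nat_lit 3277111786), (nat_lit 2925354148)], (nat_lit 1271251), (nat_lit 1271251), (nat_lit 490000), (nat_lit 780000), (nat_lit 0), (nat_lit 2825001), [(nat_lit 1100000), (nat_lit 1785001), (nat_lit 1271251)], [(nat_lit 17), (nat_lit 58), (nat_lit 428), (nat_lit 200), (nat_lit 13)]⟩,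
 ⟨⟨[(nat_lit 140), (nat_lit 160), (nat_lit 180)], [(nat_lit 0), (nat_lit 0), (nat_lit 799)], [((nat_lit 0), (nat_lit 0), (nat_lit 0)), ((nat_lit 0), (nat_lit 0), (nat_lit 0)), ((nat_lit 728), (nat_lit 1000), (nat_lit 454))], ((nat_lit 100), (nat_lit 71), (nat_lit 48))⟩, (nat_lit 36023), (nat_lit 300), (nat_lit 1102), (nat_lit 3042200), (nat_lit 1437231), [(nat_lit 403522000), (nat_lit 486752000), (nat_lit 576378000)], [], [(nat_lit 2505259592), (nat_lit 2403131550), (nat_lit 2367180760), (nat_lit 2265040990), (nat_lit 2740733164), (nat_lit 3151298376), (nat_lit 3288203504), (nat_lit 3716030734)], (nat_lit 780000), (nat_lit 1271251), (nat_lit 780000), (nat_lit 1435001), (nat_lit 0), (nat_lit 2825001), [(nat_lit 1977501), (nat_lit 1271251), (nat_lit 1271251)], [(nat_lit 31), (nat_lit 65), (nat_lit 428), (nat_lit 200), (nat_lit 10)]⟩⟩) (.leaf ⟨(nat_lit 952), (nat_lit 12), (nat_lit 0), (nat_lit 36), (nat_lit 0), (nat_lit 4270), (nat_lit 252), (nat_lit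 459), (nat_lit 0), (nat_lit 0), (nat_lit 492450), [((nat_lit 300), [((nat_lit 12), (nat_lit 0), (nat_lit 225)), ((nat_lit 33), (nat_lit 2), (nat_lit 727))])], ⟨(nat_lit 6), false, false, false, (nat_lit 153), (nat_lit 5000), (nat_lit 5245), [(nat_lit 1323256), (nat_lit 1328570), (nat_lit 1366025), (nat_lit 1371426), (nat_lit 1396427), (nat_lit 1399998), (nat_lit 1439194), (nat_lit 1442852)]⟩, ⟨(nat_lit 3), false, false, true, (nat_lit 150), (nat_lit 5000), (nat_lit 5245), [(nat_lit 1268114), (nat_lit 1271427), (nat_lit 1332271), (nat_lit 1335713), (nat_lit 1414457), (nat_lit 1414284), (nat_lit 1478613), (nat_lit 1478570)]⟩, (nat_lit 3989898), (nat_lit 49885996), (nat_lit 8720307), (nat_lit 8393697), (nat_lit 3), (nat_lit 0), [⟨(nat_lit 0), (nat_lit 100), (nat_lit 94), (nat_lit 88), (nat_lit 39475664)⟩], [], [], [],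
 ⟨⟨[(nat_lit 60), (nat_lit 80), (nat_lit 100)], [(nat_lit 0), (nat_lit 151), (nat_lit 679)], [((nat_lit 0), (nat_lit 0), (nat_lit 0)), ((nat_lit 1000), (nat_lit 953), (nat_lit 118)), ((nat_lit 1000), (nat_lit 894), (nat_lit 411))], ((nat_lit 89), (nat_lit 100), (nat_lit 44))⟩, (nat_lit 0), (nat_lit 158), (nat_lit 158), (nat_lit 0), (nat_lit 171694), [(nat_lit 2059635863), (nat_lit 89293977428), (nat_lit 2619601600)], [(nat_lit 0), (nat_lit 0), (nat_lit 0)], [(nat_lit 12205586423), (nat_lit 13108287505), (nat_lit 12882001262), (nat_lit 13716554316), (nat_lit 14676694291), (nat_lit 15445104148), (nat_lit 15235416595), (nat_lit 15962891331)], (nat_lit 1271251), (nat_lit 1271251), (nat_lit 490000), (nat_lit 780000), (nat_lit 780000), (nat_lit 1435001), [(nat_lit 780000), (nat_lit 1100000), (nat_lit 1442501)], [(nat_lit 9), (nat_lit 50), (nat_lit 317), (nat_lit 100), (nat_lit 12)]⟩,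
 ⟨⟨[(nat_lit 80), (nat_lit 120), (nat_lit 140)], [(nat_lit 0), (nat_lit 0), (nat_lit 1164)], [((nat_lit 0), (nat_lit 0), (nat_lit 0)), ((nat_lit 0), (nat_lit 0), (nat_lit 0)), ((nat_lit 941), (nat_lit 1000), (nat_lit 576))], ((nat_lit 100), (nat_lit 99), (nat_lit 44))⟩, (nat_lit 150064), (nat_lit 316), (nat_lit 316), (nat_lit 0), (nat_lit 203412), [(nat_lit 225024000), (nat_lit 382464000), (nat_lit 472416000)], [], [(nat_lit 1951511712), (nat_lit 1687033680), (nat_lit 1687033680), (nat_lit 1694040732), (nat_lit 2481153408), (nat_lit 2262841272), (nat_lit 2610841272), (nat_lit 2395165056)], (nat_lit 1271251), (nat_lit 1271251), (nat_lit 490000), (nat_lit 780000), (nat_lit 0), (nat_lit 2825001), [(nat_lit 1100000), (nat_lit 1785001), (nat_lit 1271251)], [(nat_lit 17), (nat_lit 58), (nat_lit 428), (nat_lit 200), (nat_lit 13)]⟩,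
 ⟨⟨[(nat_lit 140), (nat_lit 160), (nat_lit 180)], [(nat_lit 0), (nat_lit 0), (nat_lit 799)], [((nat_lit 0), (nat_lit 0), (nat_lit 0)), ((nat_lit 0), (nat_lit 0), (nat_lit 0)), ((nat_lit 728), (nat_lit 1000), (nat_lit 454))], ((nat_lit 100), (nat_lit 71), (nat_lit 48))⟩, (nat_lit 31630), (nat_lit 300), (nat_lit 1346), (nat_lit 2671200), (nat_lit 1985062), [(nat_lit 354312000), (nat_lit 427392000), (nat_lit 506088000)], [], [(nat_lit 2198178252), (nat_lit 2108329898), (nat_lit 2076702804), (nat_lit 1987826544), (nat_lit 2407310676), (nat_lit 2768223276), (nat_lit 2888571492), (nat_lit 3264662763)], (nat_lit 780000), (nat_lit 1271251), (nat_lit 780000), (nat_lit 1435001), (nat_lit 0), (nat_lit 2825001), [(nat_lit 1977501), (nat_lit 1271251), (nat_lit 1271251)], [(nat_lit 31), (nat_lit 65), (nat_lit 434), (nat_lit 200), (nat_lit 10)]⟩⟩))) (.dle (nat_lit 0))) (.trZ (nat_lit 0) (nat_lit 1) (nat_lit 3) (nat_lit 100) (nat_lit 100) (nat_lit 80) (nat_lit 60)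 (.trX (nat_lit 5) (nat_lit 1) (nat_lit 2) (nat_lit 92) (nat_lit 49) (nat_lit 100) (nat_lit 380) (.spl (nat_lit 5) (nat_lit 200) (.leaf ⟨(nat_lit 0), (nat_lit 1000), (nat_lit 0), (nat_lit 0), (nat_lit 3425), (nat_lit 10213), (nat_lit 10213), (nat_lit 0), (nat_lit 914659863007), (nat_lit 0), (nat_lit 0), [], Pd.none, Pd.none, (nat_lit 0), (nat_lit 1), (nat_lit 0), (nat_lit 0), (nat_lit 3), (nat_lit 0), [⟨(nat_lit 0), (nat_lit 100), (nat_lit 100), (nat_lit 90), (nat_lit 393456322)⟩], [], [], [],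
 ⟨⟨[(nat_lit 60), (nat_lit 100), (nat_lit 120)], [(nat_lit 0), (nat_lit 0), (nat_lit 1164)], [((nat_lit 0), (nat_lit 0), (nat_lit 0)), ((nat_lit 0), (nat_lit 0), (nat_lit 0)), ((nat_lit 1000), (nat_lit 933), (nat_lit 572))], ((nat_lit 93), (nat_lit 100), (nat_lit 58))⟩, (nat_lit 3550877), (nat_lit 179), (nat_lit 179), (nat_lit 0), (nat_lit 257616), [(nat_lit 5376596590), (nat_lit 6250000841), (nat_lit 7968000000)], [], [(nat_lit 14483741661), (nat_lit 16904837076), (nat_lit 12576550536), (nat_lit 14814191320), (nat_lit 16235032599), (nat_lit 18594631753), (nat_lit 14181729596), (nat_lit 16300126582)], (nat_lit 1271251), (nat_lit 1271251), (nat_lit 356250), (nat_lit 780000), (nat_lit 780000), (nat_lit 1435001), [(nat_lit 780000), (nat_lit 1435001), (nat_lit 1271251)], [(nat_lit 10), (nat_lit 54), (nat_lit 317), (nat_lit 100), (nat_lit 10)]⟩,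
 ⟨⟨[(nat_lit 60), (nat_lit 100), (nat_lit 120)], [(nat_lit 0), (nat_lit 0), (nat_lit 1164)], [((nat_lit 0), (nat_lit 0), (nat_lit 0)), ((nat_lit 0), (nat_lit 0), (nat_lit 0)), ((nat_lit 1000), (nat_lit 933), (nat_lit 572))], ((nat_lit 93), (nat_lit 100), (nat_lit 58))⟩, (nat_lit 1739683), (nat_lit 293), (nat_lit 293), (nat_lit 0), (nat_lit 257616), [(nat_lit 3282000000), (nat_lit 6250000000), (nat_lit 7968000000)], [], [(nat_lit 24378523088), (nat_lit 27102742587), (nat_lit 22157739907), (nat_lit 24435938981), (nat_lit 18861791382), (nat_lit 20406170334), (nat_lit 23583487976), (nat_lit 18865018145)], (nat_lit 1271251), (nat_lit 1271251), (nat_lit 356250), (nat_lit 780000), (nat_lit 0), (nat_lit 1412501), [(nat_lit 780000), (nat_lit 1435001), (nat_lit 1271251)], [(nat_lit 10), (nat_lit 54), (nat_lit 317), (nat_lit 100), (nat_lit 11)]⟩,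
 Rw.none⟩) (.spl (nat_lit 0) (nat_lit 290) (.ord (.spl (nat_lit 6) (nat_lit 20) (.leaf ⟨(nat_lit 0), (nat_lit 823), (nat_lit 0), (nat_lit 177), (nat_lit 0), (nat_lit 10884), (nat_lit 6981), (nat_lit 1932), (nat_lit 2446493816448), (nat_lit 0), (nat_lit 0), [], Pd.none, Pd.none, (nat_lit 0), (nat_lit 1), (nat_lit 0), (nat_lit 0), (nat_lit 5), (nat_lit 0), [⟨(nat_lit 0), (nat_lit 100), (nat_lit 100), (nat_lit 85), (nat_lit 926121898)⟩], [], [⟨(nat_lit 1), (nat_lit 66), (nat_lit 93), (nat_lit 100), (nat_lit 443561805)⟩], [],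
 ⟨⟨[(nat_lit 60), (nat_lit 100), (nat_lit 120)], [(nat_lit 0), (nat_lit 0), (nat_lit 1164)], [((nat_lit 0), (nat_lit 0), (nat_lit 0)), ((nat_lit 0), (nat_lit 0), (nat_lit 0)), ((nat_lit 1000), (nat_lit 933), (nat_lit 572))], ((nat_lit 92), (nat_lit 100), (nat_lit 44))⟩, (nat_lit 3622270), (nat_lit 173), (nat_lit 173), (nat_lit 0), (nat_lit 176550), [(nat_lit 5490924451), (nat_lit 6250000213), (nat_lit 7968000000)], [], [(nat_lit 13965632922), (nat_lit 15232548236), (nat_lit 11849080738), (nat_lit 13019144478), (nat_lit 15695074422), (nat_lit 17280649848), (nat_lit 13426516119), (nat_lit 14619814995)], (nat_lit 1271251), (nat_lit 1271251), (nat_lit 356250), (nat_lit 780000), (nat_lit 780000), (nat_lit 1435001), [(nat_lit 780000), (nat_lit 1435001), (nat_lit 1271251)], [(nat_lit 10), (nat_lit 54), (nat_lit 317), (nat_lit 100), (nat_lit 10)]⟩,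
 ⟨⟨[(nat_lit 60), (nat_lit 100), (nat_lit 120)], [(nat_lit 0), (nat_lit 0), (nat_lit 1164)], [((nat_lit 0), (nat_lit 0), (nat_lit 0)), ((nat_lit 0), (nat_lit 0), (nat_lit 0)), ((nat_lit 1000), (nat_lit 933), (nat_lit 572))], ((nat_lit 92), (nat_lit 100), (nat_lit 44))⟩, (nat_lit 3135767), (nat_lit 196), (nat_lit 196), (nat_lit 0), (nat_lit 176550), [(nat_lit 3282000000), (nat_lit 6250000000), (nat_lit 7968000000)], [], [(nat_lit 18918758543), (nat_lit 19727601273), (nat_lit 17902347151), (nat_lit 18653420367), (nat_lit 31659271838), (nat_lit 32154784363), (nat_lit 29904141057), (nat_lit 30367824589)], (nat_lit 1271251), (nat_lit 1271251), (nat_lit 356250), (nat_lit 780000), (nat_lit 1271251), (nat_lit 1271251), [(nat_lit 780000), (nat_lit 1435001), (nat_lit 1271251)], [(nat_lit 10), (nat_lit 54), (nat_lit 345), (nat_lit 125), (nat_lit 11)]⟩,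
 ⟨⟨[(nat_lit 140), (nat_lit 160), (nat_lit 180)], [(nat_lit 0), (nat_lit 0), (nat_lit 799)], [((nat_lit 0), (nat_lit 0), (nat_lit 0)), ((nat_lit 0), (nat_lit 0), (nat_lit 0)), ((nat_lit 728), (nat_lit 1000), (nat_lit 454))], ((nat_lit 100), (nat_lit 71), (nat_lit 48))⟩, (nat_lit 155512), (nat_lit 300), (nat_lit 1201), (nat_lit 13133400), (nat_lit 1939332), [(nat_lit 1742034000), (nat_lit 2101344000), (nat_lit 2488266000)], [], [(nat_lit 10088446317), (nat_lit 9694863766), (nat_lit 9559694667), (nat_lit 9165496112), (nat_lit 9511225143), (nat_lit 9102465285), (nat_lit 8961692456), (nat_lit 8563108212)], (nat_lit 780000), (nat_lit 1271251), (nat_lit 780000), (nat_lit 1435001), (nat_lit 1271251), (nat_lit 1271251), [(nat_lit 1977501), (nat_lit 1271251), (nat_lit 1271251)], [(nat_lit 31), (nat_lit 65), (nat_lit 428), (nat_lit 200), (nat_lit 10)]⟩⟩) (.dle (nat_lit 0)))) (.trZ (nat_lit 0) (nat_lit 1) (nat_lit 3) (nat_lit 100) (nat_lit 97) (nat_lit 84) (nat_lit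 70) (.leaf ⟨(nat_lit 0), (nat_lit 876), (nat_lit 0), (nat_lit 124), (nat_lit 0), (nat_lit 13926), (nat_lit 7611), (nat_lit 1445), (nat_lit 15263), (nat_lit 0), (nat_lit 0), [], Pd.none, Pd.none, (nat_lit 0), (nat_lit 1), (nat_lit 0), (nat_lit 0), (nat_lit 5), (nat_lit 0), [⟨(nat_lit 0), (nat_lit 100), (nat_lit 99), (nat_lit 92), (nat_lit 927833677)⟩], [], [⟨(nat_lit 1), (nat_lit 68), (nat_lit 92), (nat_lit 100), (nat_lit 411991399)⟩], [],
 ⟨⟨[(nat_lit 60), (nat_lit 100), (nat_lit 120)], [(nat_lit 0), (nat_lit 302), (nat_lit 1376)], [((nat_lit 0), (nat_lit 0), (nat_lit 0)), ((nat_lit 1000), (nat_lit 953), (nat_lit 118)), ((nat_lit 1000), (nat_lit 911), (nat_lit 628))], ((nat_lit 90), (nat_lit 100), (nat_lit 58))⟩, (nat_lit 915430), (nat_lit 169), (nat_lit 169), (nat_lit 0), (nat_lit 254568), [(nat_lit 7227652693), (nat_lit 7444988045), (nat_lit 7968000000)], [], [(nat_lit 15192338152), (nat_lit 16703087973), (nat_lit 13286883894), (nat_lit 14689260991),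 (nat_lit 16615045169), (nat_lit 18521454073), (nat_lit 14519028700), (nat_lit 16182338414)], (nat_lit 1271251), (nat_lit 1271251), (nat_lit 422188), (nat_lit 780000), (nat_lit 780000), (nat_lit 1435001), [(nat_lit 780000), (nat_lit 1435001), (nat_lit 1271251)], [(nat_lit 10), (nat_lit 54), (nat_lit 317), (nat_lit 100), (nat_lit 10)]⟩,
 ⟨⟨[(nat_lit 60), (nat_lit 100), (nat_lit 120)], [(nat_lit 0), (nat_lit 0), (nat_lit 1164)], [((nat_lit 0), (nat_lit 0), (nat_lit 0)), ((nat_lit 0), (nat_lit 0), (nat_lit 0)), ((nat_lit 1000), (nat_lit 933), (nat_lit 572))], ((nat_lit 93), (nat_lit 100), (nat_lit 58))⟩, (nat_lit 2042517), (nat_lit 216), (nat_lit 216), (nat_lit 0), (nat_lit 257477), [(nat_lit 3282000000), (nat_lit 6250000000), (nat_lit 7968000000)], [], [(nat_lit 22270507192), (nat_lit 23558366082), (nat_lit 21655333290), (nat_lit 22856051671), (nat_lit 31707746162), (nat_lit 32996519489), (nat_lit 30466418767), (nat_lit 31282633559)], (nat_lit 1271251),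 (nat_lit 1271251), (nat_lit 422188), (nat_lit 780000), (nat_lit 1271251), (nat_lit 1271251), [(nat_lit 780000), (nat_lit 1435001), (nat_lit 1271251)], [(nat_lit 10), (nat_lit 54), (nat_lit 345), (nat_lit 125), (nat_lit 11)]⟩,
 ⟨⟨[(nat_lit 140), (nat_lit 180), (nat_lit 200)], [(nat_lit 0), (nat_lit 0), (nat_lit 2835)], [((nat_lit 0), (nat_lit 0), (nat_lit 0)), ((nat_lit 0), (nat_lit 0), (nat_lit 0)), ((nat_lit 363), (nat_lit 1000), (nat_lit 798))], ((nat_lit 0), (nat_lit 0), (nat_lit 0))⟩, (nat_lit 34116), (nat_lit 300), (nat_lit 1775), (nat_lit 9684406), (nat_lit 3024428), [(nat_lit 1220408000), (nat_lit 1743192000), (nat_lit 2033600000)], [], [(nat_lit 7883157921), (nat_lit 7556222032), (nat_lit 7443941630), (nat_lit 7118187344), (nat_lit 7450615085), (nat_lit 7113258771), (nat_lit 6996960044), (nat_lit 6667089047)], (nat_lit 780000), (nat_lit 1271251), (nat_lit 780000), (nat_lit 1435001), (nat_lit 1271251), (nat_lit 1271251), [(nat_lit 1977501),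 (nat_lit 1271251), (nat_lit 1271251)], [(nat_lit 32), (nat_lit 67), (nat_lit 539), (nat_lit 200), (nat_lit 11)]⟩⟩)))))))
noncomputable def c6_13 : Tr Lf :=
 (.spl (nat_lit 6) (nat_lit 24) (.spl (nat_lit 1) (nat_lit 280) (.spl (nat_lit 6) (nat_lit 16) (.spl (nat_lit 5) (nat_lit 120) (.leaf ⟨(nat_lit 0), (nat_lit 804), (nat_lit 0), (nat_lit 196), (nat_lit 26923), (nat_lit 6828), (nat_lit 9044), (nat_lit 3003), (nat_lit 0), (nat_lit 0), (nat_lit 0), [], Pd.none, Pd.none, (nat_lit 0), (nat_lit 1), (nat_lit 0), (nat_lit 0), (nat_lit 4), (nat_lit 0), [⟨(nat_lit 0), (nat_lit 100), (nat_lit 94), (nat_lit 73), (nat_lit 1138015403)⟩], [], [⟨(nat_lit 0), (nat_lit 100), (nat_lit 95), (nat_lit 30), (nat_lit 222849384)⟩], [],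
 ⟨⟨[(nat_lit 60), (nat_lit 80), (nat_lit 100)], [(nat_lit 0), (nat_lit 0), (nat_lit 534)], [((nat_lit 0), (nat_lit 0), (nat_lit 0)), ((nat_lit 0), (nat_lit 0), (nat_lit 0)), ((nat_lit 1000), (nat_lit 917), (nat_lit 393))], ((nat_lit 92), (nat_lit 100), (nat_lit 39))⟩, (nat_lit 5358475), (nat_lit 187), (nat_lit 187), (nat_lit 0), (nat_lit 161039), [(nat_lit 3479940325), (nat_lit 4688000181), (nat_lit 6250000000)], [], [(nat_lit 15285467170), (nat_lit 17378177642), (nat_lit 13124716937), (nat_lit 14929349907), (nat_lit 17494644210), (nat_lit 19296255245), (nat_lit 15130132452), (nat_lit 16765142129)], (nat_lit 1271251), (nat_lit 1271251), (nat_lit 169688), (nat_lit 780000), (nat_lit 780000), (nat_lit 1435001), [(nat_lit 780000), (nat_lit 1100000), (nat_lit 1442501)], [(nat_lit 9), (nat_lit 50), (nat_lit 317), (nat_lit 100), (nat_lit 12)]⟩,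
 ⟨⟨[(nat_lit 80), (nat_lit 100), (nat_lit 120)], [(nat_lit 0), (nat_lit 0), (nat_lit 511)], [((nat_lit 0), (nat_lit 0), (nat_lit 0)), ((nat_lit 0), (nat_lit 0), (nat_lit 0)), ((nat_lit 1000), (nat_lit 997), (nat_lit 383))], ((nat_lit 100), (nat_lit 100), (nat_lit 40))⟩, (nat_lit 8792476), (nat_lit 262), (nat_lit 262), (nat_lit 0), (nat_lit 95454), [(nat_lit 4688000000), (nat_lit 6250000000), (nat_lit 7968000000)], [], [(nat_lit 20883526128), (nat_lit 25583841143), (nat_lit 17371075556), (nat_lit 20901370536), (nat_lit 15800030802), (nat_lit 19002598436), (nat_lit 13883042532), (nat_lit 15707436920)], (nat_lit 1271251), (nat_lit 1271251), (nat_lit 169688), (nat_lit 780000), (nat_lit 0), (nat_lit 780000), [(nat_lit 1100000), (nat_lit 1442501), (nat_lit 1271251)], [(nat_lit 16), (nat_lit 54), (nat_lit 272), (nat_lit 60), (nat_lit 9)]⟩,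
 ⟨⟨[(nat_lit 120), (nat_lit 140), (nat_lit 160)], [(nat_lit 0), (nat_lit 266), (nat_lit 862)], [((nat_lit 0), (nat_lit 0), (nat_lit 0)), ((nat_lit 960), (nat_lit 1000), (nat_lit 200)), ((nat_lit 874), (nat_lit 1000), (nat_lit 406))], ((nat_lit 100), (nat_lit 88), (nat_lit 39))⟩, (nat_lit 402316), (nat_lit 300), (nat_lit 491), (nat_lit 13014400), (nat_lit 380027), [(nat_lit 1561728000), (nat_lit 1929032000), (nat_lit 2326912000)], [], [(nat_lit 7875398776), (nat_lit 7804039908), (nat_lit 8635391153), (nat_lit 7418414042), (nat_lit 7240908378), (nat_lit 5545669924), (nat_lit 9718117889), (nat_lit 6827949608)], (nat_lit 1271251), (nat_lit 1271251), (nat_lit 780000), (nat_lit 1435001), (nat_lit 0), (nat_lit 780000), [(nat_lit 1695001), (nat_lit 1271251), (nat_lit 1271251)], [(nat_lit 27), (nat_lit 62), (nat_lit 373), (nat_lit 150), (nat_lit 10)]⟩⟩) (.leaf ⟨(nat_lit 0), (nat_lit 0), (nat_lit 0), (nat_lit 1000), (nat_lit 34445), (nat_lit 6724), (nat_lit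 7323), (nat_lit 6708), (nat_lit 0), (nat_lit 0), (nat_lit 0), [], Pd.none, Pd.none, (nat_lit 0), (nat_lit 1), (nat_lit 0), (nat_lit 0), (nat_lit 0), (nat_lit 0), [⟨(nat_lit 0), (nat_lit 100), (nat_lit 94), (nat_lit 73), (nat_lit 1607491224)⟩], [], [], [],
 ⟨⟨[(nat_lit 60), (nat_lit 80), (nat_lit 100)], [(nat_lit 0), (nat_lit 0), (nat_lit 534)], [((nat_lit 0), (nat_lit 0), (nat_lit 0)), ((nat_lit 0), (nat_lit 0), (nat_lit 0)), ((nat_lit 1000), (nat_lit 917), (nat_lit 393))], ((nat_lit 92), (nat_lit 100), (nat_lit 39))⟩, (nat_lit 6851525), (nat_lit 187), (nat_lit 187), (nat_lit 0), (nat_lit 161039), [(nat_lit 3303507813), (nat_lit 4688000050), (nat_lit 6250000000)], [], [(nat_lit 14800331499), (nat_lit 17053831144), (nat_lit 12871213989), (nat_lit 14767688778), (nat_lit 17304211708), (nat_lit 19243397171), (nat_lit 15111389378), (nat_lit 16870852506)], (nat_lit 1271251), (nat_lit 1271251), (nat_lit 169688), (nat_lit 780000), (nat_lit 780000), (nat_lit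 1435001), [(nat_lit 780000), (nat_lit 1100000), (nat_lit 1442501)], [(nat_lit 9), (nat_lit 50), (nat_lit 317), (nat_lit 100), (nat_lit 12)]⟩,
 ⟨⟨[(nat_lit 80), (nat_lit 100), (nat_lit 120)], [(nat_lit 0), (nat_lit 0), (nat_lit 511)], [((nat_lit 0), (nat_lit 0), (nat_lit 0)), ((nat_lit 0), (nat_lit 0), (nat_lit 0)), ((nat_lit 1000), (nat_lit 997), (nat_lit 383))], ((nat_lit 100), (nat_lit 100), (nat_lit 40))⟩, (nat_lit 6583607), (nat_lit 246), (nat_lit 246), (nat_lit 0), (nat_lit 186959), [(nat_lit 4688000000), (nat_lit 6250000000), (nat_lit 7968000000)], [], [(nat_lit 36392056617), (nat_lit 28789584392), (nat_lit 28091042197), (nat_lit 21604977275), (nat_lit 51629166180), (nat_lit 45101989544), (nat_lit 57287408080), (nat_lit 50942350792)], (nat_lit 1271251), (nat_lit 1271251), (nat_lit 169688), (nat_lit 780000), (nat_lit 780000), (nat_lit 3072501), [(nat_lit 1100000), (nat_lit 1442501), (nat_lit 1271251)], [(nat_lit 16), (nat_lit 54), (nat_lit 373),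 (nat_lit 150), (nat_lit 12)]⟩,
 ⟨⟨[(nat_lit 120), (nat_lit 140), (nat_lit 160)], [(nat_lit 0), (nat_lit 266), (nat_lit 862)], [((nat_lit 0), (nat_lit 0), (nat_lit 0)), ((nat_lit 960), (nat_lit 1000), (nat_lit 200)), ((nat_lit 874), (nat_lit 1000), (nat_lit 406))], ((nat_lit 100), (nat_lit 88), (nat_lit 39))⟩, (nat_lit 2218499), (nat_lit 300), (nat_lit 499), (nat_lit 66400000), (nat_lit 610040), [(nat_lit 7968000000), (nat_lit 9842000000), (nat_lit 11872000000)], [], [(nat_lit 49195933635), (nat_lit 49407432950), (nat_lit 48819583299), (nat_lit 48941435203), (nat_lit 52336691576), (nat_lit 52108158233), (nat_lit 54604855186), (nat_lit 50988550777)], (nat_lit 1271251), (nat_lit 1271251), (nat_lit 780000), (nat_lit 1435001), (nat_lit 780000), (nat_lit 3072501), [(nat_lit 1695001), (nat_lit 1271251), (nat_lit 1271251)], [(nat_lit 27), (nat_lit 62), (nat_lit 456), (nat_lit 225), (nat_lit 12)]⟩⟩)) (.dle (nat_lit 0))) (.trZ (nat_lit 0) (nat_lit 1) (nat_lit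 3) (nat_lit 100) (nat_lit 100) (nat_lit 80) (nat_lit 60) (.leaf ⟨(nat_lit 0), (nat_lit 704), (nat_lit 0), (nat_lit 296), (nat_lit 216), (nat_lit 10795), (nat_lit 8229), (nat_lit 2487), (nat_lit 415584), (nat_lit 0), (nat_lit 0), [], Pd.none, Pd.none, (nat_lit 0), (nat_lit 1), (nat_lit 0), (nat_lit 0), (nat_lit 4), (nat_lit 0), [⟨(nat_lit 0), (nat_lit 100), (nat_lit 100), (nat_lit 90), (nat_lit 427926366)⟩], [], [], [],
 ⟨⟨[(nat_lit 60), (nat_lit 100), (nat_lit 120)], [(nat_lit 0), (nat_lit 0), (nat_lit 1164)], [((nat_lit 0), (nat_lit 0), (nat_lit 0)), ((nat_lit 0), (nat_lit 0), (nat_lit 0)), ((nat_lit 1000), (nat_lit 933), (nat_lit 572))], ((nat_lit 92), (nat_lit 100), (nat_lit 48))⟩, (nat_lit 3743425), (nat_lit 178), (nat_lit 178), (nat_lit 0), (nat_lit 239325), [(nat_lit 5847280388), (nat_lit 6250000084), (nat_lit 7968000000)], [], [(nat_lit 13882306935), (nat_lit 16566707265), (nat_lit 11793523953), (nat_lit 14120057817), (nat_lit 15678364080),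 (nat_lit 18830316145), (nat_lit 13526685802), (nat_lit 16088542264)], (nat_lit 1271251), (nat_lit 1271251), (nat_lit 356250), (nat_lit 780000), (nat_lit 780000), (nat_lit 1435001), [(nat_lit 780000), (nat_lit 1435001), (nat_lit 1271251)], [(nat_lit 10), (nat_lit 54), (nat_lit 317), (nat_lit 100), (nat_lit 10)]⟩,
 ⟨⟨[(nat_lit 60), (nat_lit 100), (nat_lit 120)], [(nat_lit 0), (nat_lit 0), (nat_lit 1164)], [((nat_lit 0), (nat_lit 0), (nat_lit 0)), ((nat_lit 0), (nat_lit 0), (nat_lit 0)), ((nat_lit 1000), (nat_lit 933), (nat_lit 572))], ((nat_lit 92), (nat_lit 100), (nat_lit 48))⟩, (nat_lit 0), (nat_lit 286), (nat_lit 286), (nat_lit 0), (nat_lit 239325), [(nat_lit 3282000000), (nat_lit 6250000000), (nat_lit 7968000000)], [], [(nat_lit 32463994798), (nat_lit 29426604855), (nat_lit 26239021927), (nat_lit 27902276080), (nat_lit 37649816777), (nat_lit 37313201378), (nat_lit 42507180332), (nat_lit 38942147120)], (nat_lit 1271251), (nat_lit 1271251), (nat_lit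 356250), (nat_lit 780000), (nat_lit 0), (nat_lit 2825001), [(nat_lit 780000), (nat_lit 1435001), (nat_lit 1271251)], [(nat_lit 10), (nat_lit 54), (nat_lit 373), (nat_lit 150), (nat_lit 13)]⟩,
 ⟨⟨[(nat_lit 120), (nat_lit 140), (nat_lit 160)], [(nat_lit 0), (nat_lit 266), (nat_lit 862)], [((nat_lit 0), (nat_lit 0), (nat_lit 0)), ((nat_lit 960), (nat_lit 1000), (nat_lit 200)), ((nat_lit 874), (nat_lit 1000), (nat_lit 406))], ((nat_lit 100), (nat_lit 83), (nat_lit 48))⟩, (nat_lit 607579), (nat_lit 300), (nat_lit 811), (nat_lit 19654400), (nat_lit 1026478), [(nat_lit 2358528000), (nat_lit 2913232000), (nat_lit 3514112000)], [], [(nat_lit 17763096900), (nat_lit 17617420692), (nat_lit 17281748388), (nat_lit 17122431405), (nat_lit 17407224070), (nat_lit 15461608416), (nat_lit 20250420888), (nat_lit 18068496204)], (nat_lit 1271251), (nat_lit 1271251), (nat_lit 780000), (nat_lit 1435001), (nat_lit 0), (nat_lit 2825001), [(nat_lit 1695001), (nat_lit 1271251),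 (nat_lit 1271251)], [(nat_lit 27), (nat_lit 62), (nat_lit 456), (nat_lit 225), (nat_lit 12)]⟩⟩))) (.dle (nat_lit 0)))
noncomputable def c6_14 : Tr Lf :=
 (.spl (nat_lit 3) (nat_lit 80) (.trX (nat_lit 5) (nat_lit 4) (nat_lit 3) (nat_lit 100) (nat_lit 60) (nat_lit 80) (nat_lit 360) (.spl (nat_lit 6) (nat_lit 12) (.spl (nat_lit 5) (nat_lit 120) (.leaf ⟨(nat_lit 0), (nat_lit 912), (nat_lit 0), (nat_lit 88), (nat_lit 19860), (nat_lit 6161), (nat_lit 10003), (nat_lit 1277), (nat_lit 0), (nat_lit 0), (nat_lit 0), [], Pd.none, Pd.none, (nat_lit 0), (nat_lit 1), (nat_lit 0), (nat_lit 0), (nat_lit 5), (nat_lit 0), [⟨(nat_lit 0), (nat_lit 100), (nat_lit 94), (nat_lit 73), (nat_lit 943483348)⟩], [], [], [],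
 ⟨⟨[(nat_lit 60), (nat_lit 80), (nat_lit 100)], [(nat_lit 0), (nat_lit 0), (nat_lit 534)], [((nat_lit 0), (nat_lit 0), (nat_lit 0)), ((nat_lit 0), (nat_lit 0), (nat_lit 0)), ((nat_lit 1000), (nat_lit 917), (nat_lit 393))], ((nat_lit 92), (nat_lit 100), (nat_lit 34))⟩, (nat_lit 4988577), (nat_lit 148), (nat_lit 148), (nat_lit 0), (nat_lit 173013), [(nat_lit 3303542038), (nat_lit 4688000006), (nat_lit 6250000000)], [], [(nat_lit 18039721765), (nat_lit 19733071224), (nat_lit 16113793184), (nat_lit 17564278651), (nat_lit 22602214252), (nat_lit 24091675594), (nat_lit 20233740026), (nat_lit 21673913358)], (nat_lit 1271251), (nat_lit 1271251), (nat_lit 169688), (nat_lit 490000), (nat_lit 1271251), (nat_lit 1271251), [(nat_lit 780000), (nat_lit 1100000), (nat_lit 1442501)], [(nat_lit 9), (nat_lit 50), (nat_lit 226), (nat_lit 20), (nat_lit 8)]⟩,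
 ⟨⟨[(nat_lit 80), (nat_lit 100), (nat_lit 120)], [(nat_lit 0), (nat_lit 0), (nat_lit 511)], [((nat_lit 0), (nat_lit 0), (nat_lit 0)), ((nat_lit 0), (nat_lit 0), (nat_lit 0)), ((nat_lit 1000), (nat_lit 997), (nat_lit 383))], ((nat_lit 99), (nat_lit 100), (nat_lit 34))⟩, (nat_lit 4173455), (nat_lit 264), (nat_lit 264), (nat_lit 0), (nat_lit 127832), [(nat_lit 4688000000), (nat_lit 6250000000), (nat_lit 7968000000)], [], [(nat_lit 22571376838), (nat_lit 27398512010), (nat_lit 22774729896), (nat_lit 22541921729), (nat_lit 25787946630), (nat_lit 20115764200), (nat_lit 27684646710), (nat_lit 18191029479)], (nat_lit 1271251), (nat_lit 1271251), (nat_lit 169688), (nat_lit 490000), (nat_lit 0), (nat_lit 780000), [(nat_lit 1100000), (nat_lit 1442501), (nat_lit 1271251)], [(nat_lit 16), (nat_lit 54), (nat_lit 260), (nat_lit 50), (nat_lit 9)]⟩,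
 ⟨⟨[(nat_lit 140), (nat_lit 160), (nat_lit 180)], [(nat_lit 0), (nat_lit 0), (nat_lit 799)], [((nat_lit 0), (nat_lit 0), (nat_lit 0)), ((nat_lit 0), (nat_lit 0), (nat_lit 0)), ((nat_lit 728), (nat_lit 1000), (nat_lit 454))], ((nat_lit 100), (nat_lit 79), (nat_lit 37))⟩, (nat_lit 77317), (nat_lit 300), (nat_lit 944), (nat_lit 6529600), (nat_lit 1178954), [(nat_lit 866096000), (nat_lit 1044736000), (nat_lit 1237104000)], [], [(nat_lit 4855104860), (nat_lit 4626130282), (nat_lit 4787784988), (nat_lit 4588610962), (nat_lit 3835060268), (nat_lit 4404920568), (nat_lit 3760251697), (nat_lit 3523568379)], (nat_lit 780000), (nat_lit 1271251), (nat_lit 1271251), (nat_lit 1271251), (nat_lit 0), (nat_lit 780000), [(nat_lit 1977501), (nat_lit 1271251), (nat_lit 1271251)], [(nat_lit 31), (nat_lit 65), (nat_lit 373), (nat_lit 150), (nat_lit 9)]⟩⟩) (.stt (nat_lit 2) (.leaf ⟨(nat_lit 0), (nat_lit 786), (nat_lit 0), (nat_lit 214), (nat_lit 0), (nat_lit 6764), (nat_lit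 7988), (nat_lit 2317), (nat_lit 0), (nat_lit 0), (nat_lit 0), [], Pd.none, Pd.none, (nat_lit 0), (nat_lit 1), (nat_lit 0), (nat_lit 0), (nat_lit 5), (nat_lit 0), [⟨(nat_lit 0), (nat_lit 100), (nat_lit 94), (nat_lit 73), (nat_lit 1094157389)⟩], [], [], [⟨(nat_lit 2), (nat_lit 87), (nat_lit 100), (nat_lit 70), (nat_lit 411486269)⟩],
 ⟨⟨[(nat_lit 60), (nat_lit 80), (nat_lit 100)], [(nat_lit 0), (nat_lit 0), (nat_lit 534)], [((nat_lit 0), (nat_lit 0), (nat_lit 0)), ((nat_lit 0), (nat_lit 0), (nat_lit 0)), ((nat_lit 1000), (nat_lit 917), (nat_lit 393))], ((nat_lit 92), (nat_lit 100), (nat_lit 34))⟩, (nat_lit 5000457), (nat_lit 148), (nat_lit 148), (nat_lit 0), (nat_lit 173013), [(nat_lit 3507613891), (nat_lit 4688000014), (nat_lit 6250000000)], [], [(nat_lit 17719174142), (nat_lit 19510052143), (nat_lit 15185372789), (nat_lit 16898764310), (nat_lit 22968933275), (nat_lit 24818231560), (nat_lit 19811531494), (nat_lit 21329438762)], (nat_lit 1271251), (nat_lit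 1271251), (nat_lit 169688), (nat_lit 490000), (nat_lit 1271251), (nat_lit 1271251), [(nat_lit 780000), (nat_lit 1100000), (nat_lit 1442501)], [(nat_lit 9), (nat_lit 50), (nat_lit 226), (nat_lit 20), (nat_lit 8)]⟩,
 ⟨⟨[(nat_lit 80), (nat_lit 100), (nat_lit 120)], [(nat_lit 0), (nat_lit 0), (nat_lit 511)], [((nat_lit 0), (nat_lit 0), (nat_lit 0)), ((nat_lit 0), (nat_lit 0), (nat_lit 0)), ((nat_lit 1000), (nat_lit 997), (nat_lit 383))], ((nat_lit 99), (nat_lit 100), (nat_lit 34))⟩, (nat_lit 7768479), (nat_lit 153), (nat_lit 153), (nat_lit 0), (nat_lit 0), [(nat_lit 4688000000), (nat_lit 6250000000), (nat_lit 7968000000)], [], [(nat_lit 14588250888), (nat_lit 18059629906), (nat_lit 12055622983), (nat_lit 15385243103), (nat_lit 30430006077), (nat_lit 33393144563), (nat_lit 26245152632), (nat_lit 28921454420)], (nat_lit 0), (nat_lit 0), (nat_lit 0), (nat_lit 0), (nat_lit 0), (nat_lit 0), [], [(nat_lit 16), (nat_lit 54), (nat_lit 345), (nat_lit 125), (nat_lit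 11)]⟩,
 ⟨⟨[(nat_lit 140), (nat_lit 160), (nat_lit 180)], [(nat_lit 0), (nat_lit 0), (nat_lit 799)], [((nat_lit 0), (nat_lit 0), (nat_lit 0)), ((nat_lit 0), (nat_lit 0), (nat_lit 0)), ((nat_lit 728), (nat_lit 1000), (nat_lit 454))], ((nat_lit 100), (nat_lit 79), (nat_lit 37))⟩, (nat_lit 188020), (nat_lit 300), (nat_lit 1218), (nat_lit 15878801), (nat_lit 1978286), [(nat_lit 2106188000), (nat_lit 2540608000), (nat_lit 3008412000)], [], [(nat_lit 12323007352), (nat_lit 11852138618), (nat_lit 11890766013), (nat_lit 11412905148), (nat_lit 10975445152), (nat_lit 10505994994), (nat_lit 10538289081), (nat_lit 10056878569)], (nat_lit 780000), (nat_lit 1271251), (nat_lit 1271251), (nat_lit 1271251), (nat_lit 780000), (nat_lit 2745001), [(nat_lit 1977501), (nat_lit 1271251), (nat_lit 1271251)], [(nat_lit 31), (nat_lit 65), (nat_lit 456), (nat_lit 225), (nat_lit 10)]⟩⟩) (.leaf ⟨(nat_lit 761), (nat_lit 28), (nat_lit 0), (nat_lit 211), (nat_lit 3962), (nat_lit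 5108), (nat_lit 4029), (nat_lit 2640), (nat_lit 0), (nat_lit 0), (nat_lit 1268000), [((nat_lit 300), [((nat_lit 12), (nat_lit 2), (nat_lit 592)), ((nat_lit 33), (nat_lit 5), (nat_lit 169))])], ⟨(nat_lit 6), false, false, false, (nat_lit 120), (nat_lit 5000), (nat_lit 5478), [(nat_lit 1224247), (nat_lit 1239284), (nat_lit 1266961), (nat_lit 1282141), (nat_lit 1317913), (nat_lit 1328570), (nat_lit 1360625), (nat_lit 1371424)]⟩, ⟨(nat_lit 5), false, false, true, (nat_lit 208), (nat_lit 5000), (nat_lit 5478), [(nat_lit 1414570), (nat_lit 1414284), (nat_lit 1478641), (nat_lit 1478570), (nat_lit 1564436), (nat_lit 1557141), (nat_lit 1628492), (nat_lit 1621412)]⟩, (nat_lit 4179014), (nat_lit 47344507), (nat_lit 5824732), (nat_lit 13830761), (nat_lit 5), (nat_lit 0), [⟨(nat_lit 0), (nat_lit 100), (nat_lit 94), (nat_lit 73), (nat_lit 1006575310)⟩], [], [], [],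
 ⟨⟨[(nat_lit 60), (nat_lit 80), (nat_lit 100)], [(nat_lit 0), (nat_lit 0), (nat_lit 534)], [((nat_lit 0), (nat_lit 0), (nat_lit 0)), ((nat_lit 0), (nat_lit 0), (nat_lit 0)), ((nat_lit 1000), (nat_lit 917), (nat_lit 393))], ((nat_lit 92), (nat_lit 100), (nat_lit 34))⟩, (nat_lit 418504), (nat_lit 148), (nat_lit 148), (nat_lit 0), (nat_lit 173013), [(nat_lit 2320992433), (nat_lit 2785176447), (nat_lit 1920312800)], [(nat_lit 0), (nat_lit 0), (nat_lit 0)], [(nat_lit 16699137624), (nat_lit 18222176048), (nat_lit 15208532889), (nat_lit 16519551665), (nat_lit 21247233752), (nat_lit 22821770484), (nat_lit 19070681276), (nat_lit 20372635003)], (nat_lit 1271251), (nat_lit 1271251), (nat_lit 169688), (nat_lit 490000), (nat_lit 1271251), (nat_lit 1271251), [(nat_lit 780000), (nat_lit 1100000), (nat_lit 1442501)], [(nat_lit 9), (nat_lit 50), (nat_lit 226), (nat_lit 20), (nat_lit 8)]⟩,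
 ⟨⟨[(nat_lit 80), (nat_lit 100), (nat_lit 120)], [(nat_lit 0), (nat_lit 0), (nat_lit 511)], [((nat_lit 0), (nat_lit 0), (nat_lit 0)), ((nat_lit 0), (nat_lit 0), (nat_lit 0)), ((nat_lit 1000), (nat_lit 997), (nat_lit 383))], ((nat_lit 99), (nat_lit 100), (nat_lit 34))⟩, (nat_lit 12860), (nat_lit 217), (nat_lit 217), (nat_lit 0), (nat_lit 201418), [(nat_lit 1120432000), (nat_lit 1493750000), (nat_lit 1904352000)], [], [(nat_lit 10394906151), (nat_lit 6212144906), (nat_lit 5108072496), (nat_lit 2662404139), (nat_lit 12082793300), (nat_lit 11822327982), (nat_lit 12959404152), (nat_lit 9379679763)], (nat_lit 1271251), (nat_lit 1271251), (nat_lit 169688), (nat_lit 490000), (nat_lit 780000), (nat_lit 2745001), [(nat_lit 1100000), (nat_lit 1442501), (nat_lit 1271251)], [(nat_lit 16), (nat_lit 54), (nat_lit 345), (nat_lit 125), (nat_lit 11)]⟩,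
 ⟨⟨[(nat_lit 140), (nat_lit 160), (nat_lit 180)], [(nat_lit 0), (nat_lit 0), (nat_lit 799)], [((nat_lit 0), (nat_lit 0), (nat_lit 0)), ((nat_lit 0), (nat_lit 0), (nat_lit 0)), ((nat_lit 728), (nat_lit 1000), (nat_lit 454))], ((nat_lit 100), (nat_lit 79), (nat_lit 37))⟩, (nat_lit 185384), (nat_lit 300), (nat_lit 845), (nat_lit 15656202), (nat_lit 1178954), [(nat_lit 2076662000), (nat_lit 2504992000), (nat_lit 2966238000)], [], [(nat_lit 10363070360), (nat_lit 9858235126), (nat_lit 10034482149), (nat_lit 9533175764), (nat_lit 9521818058), (nat_lit 10756362036), (nat_lit 9293661188), (nat_lit 8807811522)], (nat_lit 780000), (nat_lit 1271251), (nat_lit 1271251), (nat_lit 1271251), (nat_lit 780000), (nat_lit 2745001), [(nat_lit 1977501), (nat_lit 1271251), (nat_lit 1271251)], [(nat_lit 31), (nat_lit 65), (nat_lit 456), (nat_lit 225), (nat_lit 10)]⟩⟩))) (.spl (nat_lit 1) (nat_lit 260) (.dle (nat_lit 0)) (.trZ (nat_lit 0) (nat_lit 1) (nat_lit 3) (nat_lit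 100) (nat_lit 96) (nat_lit 69) (nat_lit 40) (.leaf ⟨(nat_lit 0), (nat_lit 734), (nat_lit 0), (nat_lit 266), (nat_lit 43475), (nat_lit 8978), (nat_lit 9135), (nat_lit 2974), (nat_lit 0), (nat_lit 0), (nat_lit 0), [], Pd.none, Pd.none, (nat_lit 0), (nat_lit 1), (nat_lit 0), (nat_lit 0), (nat_lit 5), (nat_lit 0), [⟨(nat_lit 0), (nat_lit 100), (nat_lit 95), (nat_lit 78), (nat_lit 2466327117)⟩], [], [], [],
 ⟨⟨[(nat_lit 60), (nat_lit 100), (nat_lit 120)], [(nat_lit 0), (nat_lit 0), (nat_lit 1164)], [((nat_lit 0), (nat_lit 0), (nat_lit 0)), ((nat_lit 0), (nat_lit 0), (nat_lit 0)), ((nat_lit 1000), (nat_lit 933), (nat_lit 572))], ((nat_lit 92), (nat_lit 100), (nat_lit 44))⟩, (nat_lit 3038141), (nat_lit 134), (nat_lit 134), (nat_lit 0), (nat_lit 61577), [(nat_lit 4794029330), (nat_lit 6250000029), (nat_lit 7968000000)], [], [(nat_lit 19158691894), (nat_lit 21078893678), (nat_lit 16186745676), (nat_lit 18050730352), (nat_lit 24306670977), (nat_lit 26511513830),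 (nat_lit 20954861571), (nat_lit 22608066200)], (nat_lit 1271251), (nat_lit 1271251), (nat_lit 230000), (nat_lit 490000), (nat_lit 1271251), (nat_lit 1271251), [(nat_lit 780000), (nat_lit 1435001), (nat_lit 1271251)], [(nat_lit 10), (nat_lit 54), (nat_lit 317), (nat_lit 100), (nat_lit 10)]⟩,
 ⟨⟨[(nat_lit 80), (nat_lit 100), (nat_lit 120)], [(nat_lit 0), (nat_lit 265), (nat_lit 768)], [((nat_lit 0), (nat_lit 0), (nat_lit 0)), ((nat_lit 1000), (nat_lit 959), (nat_lit 206)), ((nat_lit 1000), (nat_lit 958), (nat_lit 392))], ((nat_lit 96), (nat_lit 100), (nat_lit 44))⟩, (nat_lit 1267428), (nat_lit 245), (nat_lit 245), (nat_lit 0), (nat_lit 68501), [(nat_lit 4688000000), (nat_lit 6250000000), (nat_lit 7968000000)], [], [(nat_lit 33674391143), (nat_lit 28951280985), (nat_lit 24157616655), (nat_lit 23144400556), (nat_lit 32832968184), (nat_lit 34428582993), (nat_lit 29155280154), (nat_lit 30256564191)], (nat_lit 1271251), (nat_lit 1271251), (nat_lit 230000),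 (nat_lit 490000), (nat_lit 0), (nat_lit 2542501), [(nat_lit 1100000), (nat_lit 1442501), (nat_lit 1271251)], [(nat_lit 16), (nat_lit 54), (nat_lit 345), (nat_lit 125), (nat_lit 12)]⟩,
 ⟨⟨[(nat_lit 140), (nat_lit 160), (nat_lit 180)], [(nat_lit 0), (nat_lit 0), (nat_lit 799)], [((nat_lit 0), (nat_lit 0), (nat_lit 0)), ((nat_lit 0), (nat_lit 0), (nat_lit 0)), ((nat_lit 728), (nat_lit 1000), (nat_lit 454))], ((nat_lit 100), (nat_lit 71), (nat_lit 48))⟩, (nat_lit 233707), (nat_lit 300), (nat_lit 722), (nat_lit 19737201), (nat_lit 684885), [(nat_lit 2617972000), (nat_lit 3157952000), (nat_lit 3739428000)], [], [(nat_lit 16484029784), (nat_lit 15921144719), (nat_lit 16157524056), (nat_lit 15567820927), (nat_lit 17334776884), (nat_lit 19786756767), (nat_lit 12670580884), (nat_lit 14663386744)], (nat_lit 780000), (nat_lit 1271251), (nat_lit 1271251), (nat_lit 1271251), (nat_lit 0), (nat_lit 2542501), [(nat_lit 1977501), (nat_lit 1271251), (nat_lit 1271251)],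 [(nat_lit 31), (nat_lit 65), (nat_lit 456), (nat_lit 225), (nat_lit 11)]⟩⟩))))) (.spl (nat_lit 5) (nat_lit 120) (.spl (nat_lit 0) (nat_lit 290) (.leaf ⟨(nat_lit 0), (nat_lit 784), (nat_lit 0), (nat_lit 216), (nat_lit 14232), (nat_lit 5169), (nat_lit 15855), (nat_lit 3153), (nat_lit 0), (nat_lit 0), (nat_lit 0), [], Pd.none, Pd.none, (nat_lit 0), (nat_lit 1), (nat_lit 0), (nat_lit 0), (nat_lit 5), (nat_lit 0), [], [], [], [],
 ⟨⟨[(nat_lit 60), (nat_lit 100), (nat_lit 120)], [(nat_lit 0), (nat_lit 0), (nat_lit 1164)], [((nat_lit 0), (nat_lit 0), (nat_lit 0)), ((nat_lit 0), (nat_lit 0), (nat_lit 0)), ((nat_lit 1000), (nat_lit 933), (nat_lit 572))], ((nat_lit 92), (nat_lit 100), (nat_lit 44))⟩, (nat_lit 0), (nat_lit 120), (nat_lit 120), (nat_lit 0), (nat_lit 133350), [(nat_lit 3282000007), (nat_lit 101108457584), (nat_lit 7968000000)], [], [(nat_lit 14186151086), (nat_lit 15039473517), (nat_lit 14706226784), (nat_lit 15512331094), (nat_lit 18937517360),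 (nat_lit 19636127794), (nat_lit 19202425349), (nat_lit 19863737220)], (nat_lit 1271251), (nat_lit 1271251), (nat_lit 490000), (nat_lit 780000), (nat_lit 1271251), (nat_lit 1271251), [(nat_lit 780000), (nat_lit 1435001), (nat_lit 1271251)], [(nat_lit 10), (nat_lit 54), (nat_lit 317), (nat_lit 100), (nat_lit 10)]⟩,
 ⟨⟨[(nat_lit 80), (nat_lit 120), (nat_lit 140)], [(nat_lit 0), (nat_lit 0), (nat_lit 1164)], [((nat_lit 0), (nat_lit 0), (nat_lit 0)), ((nat_lit 0), (nat_lit 0), (nat_lit 0)), ((nat_lit 941), (nat_lit 1000), (nat_lit 576))], ((nat_lit 100), (nat_lit 99), (nat_lit 44))⟩, (nat_lit 5524017), (nat_lit 237), (nat_lit 237), (nat_lit 0), (nat_lit 95440), [(nat_lit 4688000000), (nat_lit 7968000000), (nat_lit 9842000000)], [], [(nat_lit 31960933680), (nat_lit 26181135832), (nat_lit 36259494350), (nat_lit 24927978540), (nat_lit 39200062680), (nat_lit 24552516060), (nat_lit 44104316060), (nat_lit 29646086068)], (nat_lit 1271251), (nat_lit 1271251),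 (nat_lit 490000), (nat_lit 780000), (nat_lit 0), (nat_lit 780000), [(nat_lit 1100000), (nat_lit 1785001), (nat_lit 1271251)], [(nat_lit 17), (nat_lit 58), (nat_lit 373), (nat_lit 150), (nat_lit 11)]⟩,
 ⟨⟨[(nat_lit 140), (nat_lit 160), (nat_lit 180)], [(nat_lit 0), (nat_lit 0), (nat_lit 799)], [((nat_lit 0), (nat_lit 0), (nat_lit 0)), ((nat_lit 0), (nat_lit 0), (nat_lit 0)), ((nat_lit 728), (nat_lit 1000), (nat_lit 454))], ((nat_lit 100), (nat_lit 71), (nat_lit 48))⟩, (nat_lit 189777), (nat_lit 300), (nat_lit 791), (nat_lit 16027201), (nat_lit 849851), [(nat_lit 2125872000), (nat_lit 2564352000), (nat_lit 3036528000)], [], [(nat_lit 11893807272), (nat_lit 11327169438), (nat_lit 11732074194), (nat_lit 11257791920), (nat_lit 9373229304), (nat_lit 10816144159), (nat_lit 9186662673), (nat_lit 8601082457)], (nat_lit 780000), (nat_lit 1271251), (nat_lit 1271251), (nat_lit 1271251), (nat_lit 0), (nat_lit 780000), [(nat_lit 1977501), (nat_lit 1271251), (nat_lit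 1271251)], [(nat_lit 31), (nat_lit 65), (nat_lit 373), (nat_lit 150), (nat_lit 9)]⟩⟩) (.leaf ⟨(nat_lit 519), (nat_lit 418), (nat_lit 0), (nat_lit 63), (nat_lit 16486), (nat_lit 5268), (nat_lit 7050), (nat_lit 916), (nat_lit 0), (nat_lit 0), (nat_lit 129750), [((nat_lit 300), [((nat_lit 12), (nat_lit 0), (nat_lit 519))])], ⟨(nat_lit 6), false, false, false, (nat_lit 153), (nat_lit 5000), (nat_lit 5245), [(nat_lit 1323256), (nat_lit 1328570), (nat_lit 1366025), (nat_lit 1371426), (nat_lit 1396427), (nat_lit 1399998), (nat_lit 1439194), (nat_lit 1442852)]⟩, ⟨(nat_lit 5), false, false, true, (nat_lit 208), (nat_lit 5000), (nat_lit 5245), [(nat_lit 1414457), (nat_lit 1414284), (nat_lit 1478613), (nat_lit 1478570), (nat_lit 1560799), (nat_lit 1557141), (nat_lit 1624953), (nat_lit 1621425)]⟩, (nat_lit 4554876), (nat_lit 45139535), (nat_lit 8376219), (nat_lit 13484246), (nat_lit 5), (nat_lit 0), [], [], [], [],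
 ⟨⟨[(nat_lit 60), (nat_lit 80), (nat_lit 100)], [(nat_lit 0), (nat_lit 151), (nat_lit 679)], [((nat_lit 0), (nat_lit 0), (nat_lit 0)), ((nat_lit 1000), (nat_lit 953), (nat_lit 118)), ((nat_lit 1000), (nat_lit 894), (nat_lit 411))], ((nat_lit 89), (nat_lit 100), (nat_lit 44))⟩, (nat_lit 3719011), (nat_lit 118), (nat_lit 118), (nat_lit 0), (nat_lit 171694), [(nat_lit 2635048763), (nat_lit 3530215109), (nat_lit 4498478800)], [(nat_lit 0), (nat_lit 0), (nat_lit 0)], [(nat_lit 16166320874), (nat_lit 16832426022), (nat_lit 16516554802), (nat_lit 17145857323), (nat_lit 19850736920), (nat_lit 20464764292), (nat_lit 20024360842), (nat_lit 20608204536)], (nat_lit 1271251), (nat_lit 1271251), (nat_lit 490000), (nat_lit 780000), (nat_lit 1271251), (nat_lit 1271251), [(nat_lit 780000), (nat_lit 1100000), (nat_lit 1442501)], [(nat_lit 9), (nat_lit 50), (nat_lit 238), (nat_lit 30), (nat_lit 8)]⟩,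
 ⟨⟨[(nat_lit 80), (nat_lit 120), (nat_lit 140)], [(nat_lit 0), (nat_lit 0), (nat_lit 1164)], [((nat_lit 0), (nat_lit 0), (nat_lit 0)), ((nat_lit 0), (nat_lit 0), (nat_lit 0)), ((nat_lit 941), (nat_lit 1000), (nat_lit 576))], ((nat_lit 100), (nat_lit 99), (nat_lit 44))⟩, (nat_lit 2997036), (nat_lit 283), (nat_lit 283), (nat_lit 0), (nat_lit 129826), [(nat_lit 2254928000), (nat_lit 3832608000), (nat_lit 4734002000)], [], [(nat_lit 15826366812), (nat_lit 11976551934), (nat_lit 17779902512), (nat_lit 11475989334), (nat_lit 19158676812), (nat_lit 12645576612), (nat_lit 21381536612), (nat_lit 14952616937)], (nat_lit 1271251), (nat_lit 1271251), (nat_lit 490000), (nat_lit 780000), (nat_lit 0), (nat_lit 780000), [(nat_lit 1100000), (nat_lit 1785001), (nat_lit 1271251)], [(nat_lit 17), (nat_lit 58), (nat_lit 373), (nat_lit 150), (nat_lit 11)]⟩,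
 ⟨⟨[(nat_lit 140), (nat_lit 160), (nat_lit 180)], [(nat_lit 0), (nat_lit 0), (nat_lit 799)], [((nat_lit 0), (nat_lit 0), (nat_lit 0)), ((nat_lit 0), (nat_lit 0), (nat_lit 0)), ((nat_lit 728), (nat_lit 1000), (nat_lit 454))], ((nat_lit 100), (nat_lit 71), (nat_lit 48))⟩, (nat_lit 55352), (nat_lit 300), (nat_lit 946), (nat_lit 4674600), (nat_lit 1185729), [(nat_lit 620046000), (nat_lit 747936000), (nat_lit 885654000)], [], [(nat_lit 3473575222), (nat_lit 3309206819), (nat_lit 3425100140), (nat_lit 3284531653), (nat_lit 2741696756), (nat_lit 3153913871), (nat_lit 2687857251), (nat_lit 2517968077)], (nat_lit 780000), (nat_lit 1271251), (nat_lit 1271251), (nat_lit 1271251), (nat_lit 0), (nat_lit 780000), [(nat_lit 1977501), (nat_lit 1271251), (nat_lit 1271251)], [(nat_lit 31), (nat_lit 65), (nat_lit 373), (nat_lit 150), (nat_lit 9)]⟩⟩)) (.spl (nat_lit 0) (nat_lit 290) (.leaf ⟨(nat_lit 898), (nat_lit 52), (nat_lit 0), (nat_lit 50), (nat_lit 0), (nat_lit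 4081), (nat_lit 1089), (nat_lit 537), (nat_lit 0), (nat_lit 0), (nat_lit 359200), [((nat_lit 290), [((nat_lit 12), (nat_lit 1), (nat_lit 898))])], ⟨(nat_lit 6), false, false, false, (nat_lit 152), (nat_lit 5244), (nat_lit 5478), [(nat_lit 1317913), (nat_lit 1323256), (nat_lit 1360628), (nat_lit 1366027), (nat_lit 1392847), (nat_lit 1396427), (nat_lit 1435559), (nat_lit 1439196)]⟩, ⟨(nat_lit 5), false, false, true, (nat_lit 208), (nat_lit 5244), (nat_lit 5478), [(nat_lit 1414570), (nat_lit 1414457), (nat_lit 1478641), (nat_lit 1478613), (nat_lit 1564436), (nat_lit 1560799), (nat_lit 1628503), (nat_lit 1624951)]⟩, (nat_lit 4542209), (nat_lit 45199894), (nat_lit 8229814), (nat_lit 13570292), (nat_lit 5), (nat_lit 0), [], [], [], [⟨(nat_lit 2), (nat_lit 68), (nat_lit 100), (nat_lit 88), (nat_lit 436382)⟩],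
 ⟨⟨[(nat_lit 60), (nat_lit 100), (nat_lit 120)], [(nat_lit 0), (nat_lit 0), (nat_lit 1164)], [((nat_lit 0), (nat_lit 0), (nat_lit 0)), ((nat_lit 0), (nat_lit 0), (nat_lit 0)), ((nat_lit 1000), (nat_lit 933), (nat_lit 572))], ((nat_lit 92), (nat_lit 100), (nat_lit 44))⟩, (nat_lit 0), (nat_lit 120), (nat_lit 120), (nat_lit 0), (nat_lit 133350), [(nat_lit 2136889207), (nat_lit 100021650949), (nat_lit 3221172000)], [(nat_lit 0), (nat_lit 0), (nat_lit 0)], [(nat_lit 14184102878), (nat_lit 14934661261), (nat_lit 14800491056), (nat_lit 15511435214), (nat_lit 18473563104), (nat_lit 19095247858), (nat_lit 18874165365), (nat_lit 19464448244)], (nat_lit 1271251), (nat_lit 1271251), (nat_lit 490000), (nat_lit 780000), (nat_lit 1271251), (nat_lit 1271251), [(nat_lit 780000), (nat_lit 1435001), (nat_lit 1271251)], [(nat_lit 10), (nat_lit 54), (nat_lit 317), (nat_lit 100), (nat_lit 10)]⟩,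
 ⟨⟨[(nat_lit 80), (nat_lit 120), (nat_lit 140)], [(nat_lit 0), (nat_lit 0), (nat_lit 1164)], [((nat_lit 0), (nat_lit 0), (nat_lit 0)), ((nat_lit 0), (nat_lit 0), (nat_lit 0)), ((nat_lit 941), (nat_lit 1000), (nat_lit 576))], ((nat_lit 100), (nat_lit 99), (nat_lit 44))⟩, (nat_lit 88896), (nat_lit 206), (nat_lit 206), (nat_lit 0), (nat_lit 150375), [(nat_lit 478176000), (nat_lit 812736000), (nat_lit 1003884000)], [], [(nat_lit 3512955900), (nat_lit 2386854759), (nat_lit 2386854759), (nat_lit 2129132628), (nat_lit 4726928619), (nat_lit 3730879125), (nat_lit 5112439125), (nat_lit 4129128617)], (nat_lit 1271251), (nat_lit 1271251), (nat_lit 490000), (nat_lit 780000), (nat_lit 780000), (nat_lit 2990626), [(nat_lit 1100000), (nat_lit 1785001), (nat_lit 1271251)], [(nat_lit 17), (nat_lit 58), (nat_lit 428), (nat_lit 200), (nat_lit 12)]⟩,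
 ⟨⟨[(nat_lit 140), (nat_lit 160), (nat_lit 180)], [(nat_lit 0), (nat_lit 0), (nat_lit 799)], [((nat_lit 0), (nat_lit 0), (nat_lit 0)), ((nat_lit 0), (nat_lit 0), (nat_lit 0)), ((nat_lit 728), (nat_lit 1000), (nat_lit 454))], ((nat_lit 100), (nat_lit 71), (nat_lit 48))⟩, (nat_lit 43930), (nat_lit 300), (nat_lit 971), (nat_lit 3710000), (nat_lit 1437231), [(nat_lit 492100000), (nat_lit 593600000), (nat_lit 702900000)], [], [(nat_lit 2864004810), (nat_lit 2759095120), (nat_lit 2779986693), (nat_lit 2672309931), (nat_lit 2580409008), (nat_lit 2641599686), (nat_lit 2481660135), (nat_lit 2368133198)], (nat_lit 780000), (nat_lit 1271251), (nat_lit 1271251), (nat_lit 1271251), (nat_lit 780000), (nat_lit 2990626), [(nat_lit 1977501), (nat_lit 1271251), (nat_lit 1271251)], [(nat_lit 31), (nat_lit 65), (nat_lit 456), (nat_lit 225), (nat_lit 10)]⟩⟩) (.leaf ⟨(nat_lit 892), (nat_lit 54), (nat_lit 0), (nat_lit 54), (nat_lit 0), (nat_lit 4699), (nat_lit 1168), (nat_lit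 590), (nat_lit 0), (nat_lit 0), (nat_lit 281200), [((nat_lit 300), [((nat_lit 12), (nat_lit 0), (nat_lit 504)), ((nat_lit 12), (nat_lit 1), (nat_lit 388))])], ⟨(nat_lit 6), false, false, false, (nat_lit 153), (nat_lit 5000), (nat_lit 5245), [(nat_lit 1323256), (nat_lit 1328570), (nat_lit 1366025), (nat_lit 1371426), (nat_lit 1396427), (nat_lit 1399998), (nat_lit 1439194), (nat_lit 1442852)]⟩, ⟨(nat_lit 5), false, false, true, (nat_lit 208), (nat_lit 5000), (nat_lit 5245), [(nat_lit 1414457), (nat_lit 1414284), (nat_lit 1478613), (nat_lit 1478570), (nat_lit 1560799), (nat_lit 1557141), (nat_lit 1624953), (nat_lit 1621425)]⟩, (nat_lit 4554876), (nat_lit 45139535), (nat_lit 8376219), (nat_lit 13484246), (nat_lit 5), (nat_lit 0), [], [], [], [],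
 ⟨⟨[(nat_lit 60), (nat_lit 80), (nat_lit 100)], [(nat_lit 0), (nat_lit 151), (nat_lit 679)], [((nat_lit 0), (nat_lit 0), (nat_lit 0)), ((nat_lit 1000), (nat_lit 953), (nat_lit 118)), ((nat_lit 1000), (nat_lit 894), (nat_lit 411))], ((nat_lit 89), (nat_lit 100), (nat_lit 44))⟩, (nat_lit 2689829), (nat_lit 118), (nat_lit 118), (nat_lit 0), (nat_lit 171694), [(nat_lit 2181079403), (nat_lit 2695752264), (nat_lit 3143922136)], [(nat_lit 0), (nat_lit 0), (nat_lit 0)], [(nat_lit 16081579001), (nat_lit 16710002977), (nat_lit 16489561805), (nat_lit 17084203052), (nat_lit 19556505668), (nat_lit 20136149926), (nat_lit 19834901916), (nat_lit 20367692028)], (nat_lit 1271251), (nat_lit 1271251), (nat_lit 490000), (nat_lit 780000), (nat_lit 1271251), (nat_lit 1271251), [(nat_lit 780000), (nat_lit 1100000), (nat_lit 1442501)], [(nat_lit 9), (nat_lit 50), (nat_lit 238), (nat_lit 30), (nat_lit 8)]⟩,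
 ⟨⟨[(nat_lit 80), (nat_lit 120), (nat_lit 140)], [(nat_lit 0), (nat_lit 0), (nat_lit 1164)], [((nat_lit 0), (nat_lit 0), (nat_lit 0)), ((nat_lit 0), (nat_lit 0), (nat_lit 0)), ((nat_lit 941), (nat_lit 1000), (nat_lit 576))], ((nat_lit 100), (nat_lit 99), (nat_lit 44))⟩, (nat_lit 76755), (nat_lit 226), (nat_lit 226), (nat_lit 0), (nat_lit 203412), [(nat_lit 506304000), (nat_lit 860544000), (nat_lit 1062936000)], [], [(nat_lit 3726688160), (nat_lit 2518895568), (nat_lit 2518895568), (nat_lit 2263710754), (nat_lit 5012062896), (nat_lit 3972335828), (nat_lit 5423916368), (nat_lit 4369272958)], (nat_lit 1271251), (nat_lit 1271251), (nat_lit 490000), (nat_lit 780000), (nat_lit 780000), (nat_lit 2990626), [(nat_lit 1100000), (nat_lit 1785001), (nat_lit 1271251)], [(nat_lit 17), (nat_lit 58), (nat_lit 428), (nat_lit 200), (nat_lit 12)]⟩,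
 ⟨⟨[(nat_lit 140), (nat_lit 160), (nat_lit 180)], [(nat_lit 0), (nat_lit 0), (nat_lit 799)], [((nat_lit 0), (nat_lit 0), (nat_lit 0)), ((nat_lit 0), (nat_lit 0), (nat_lit 0)), ((nat_lit 728), (nat_lit 1000), (nat_lit 454))], ((nat_lit 100), (nat_lit 71), (nat_lit 48))⟩, (nat_lit 47446), (nat_lit 300), (nat_lit 1221), (nat_lit 4006800), (nat_lit 1985062), [(nat_lit 531468000), (nat_lit 641088000), (nat_lit 759132000)], [], [(nat_lit 3073991930), (nat_lit 2953763520), (nat_lit 2963452652), (nat_lit 2841452172), (nat_lit 2732903337), (nat_lit 2866826085), (nat_lit 2633992256), (nat_lit 2508580168)], (nat_lit 780000), (nat_lit 1271251), (nat_lit 1271251), (nat_lit 1271251), (nat_lit 780000), (nat_lit 2990626), [(nat_lit 1977501), (nat_lit 1271251), (nat_lit 1271251)], [(nat_lit 31), (nat_lit 65), (nat_lit 456), (nat_lit 225), (nat_lit 10)]⟩⟩))))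
noncomputable def c6_15 : Tr Lf :=
 (.spl (nat_lit 1) (nat_lit 260) (.spl (nat_lit 6) (nat_lit 8) (.leaf ⟨(nat_lit 0), (nat_lit 0), (nat_lit 238), (nat_lit 762), (nat_lit 28314), (nat_lit 6748), (nat_lit 3254), (nat_lit 7747), (nat_lit 0), (nat_lit 0), (nat_lit 0), [], Pd.none, Pd.none, (nat_lit 0), (nat_lit 1), (nat_lit 0), (nat_lit 0), (nat_lit 0), (nat_lit 6), [⟨(nat_lit 0), (nat_lit 100), (nat_lit 92), (nat_lit 68), (nat_lit 939534275)⟩, ⟨(nat_lit 0), (nat_lit 100), (nat_lit 91), (nat_lit 77), (nat_lit 26412857)⟩], [], [], [],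
 ⟨⟨[(nat_lit 60), (nat_lit 80), (nat_lit 100)], [(nat_lit 0), (nat_lit 0), (nat_lit 534)], [((nat_lit 0), (nat_lit 0), (nat_lit 0)), ((nat_lit 0), (nat_lit 0), (nat_lit 0)), ((nat_lit 1000), (nat_lit 917), (nat_lit 393))], ((nat_lit 92), (nat_lit 100), (nat_lit 28))⟩, (nat_lit 5528575), (nat_lit 142), (nat_lit 142), (nat_lit 0), (nat_lit 92076), [(nat_lit 3413310531), (nat_lit 4688000002), (nat_lit 6250000000)], [], [(nat_lit 17445496210), (nat_lit 19233901725), (nat_lit 15166213693), (nat_lit 16846455114), (nat_lit 22952298497), (nat_lit 24798942081), (nat_lit 19847368806), (nat_lit 21277116770)], (nat_lit 1271251), (nat_lit 1271251), (nat_lit 169688), (nat_lit 780000), (nat_lit 1271251), (nat_lit 1271251), [(nat_lit 780000), (nat_lit 1100000), (nat_lit 1442501)], [(nat_lit 9), (nat_lit 50), (nat_lit 238), (nat_lit 30), (nat_lit 8)]⟩,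
 ⟨⟨[(nat_lit 80), (nat_lit 100), (nat_lit 120)], [(nat_lit 0), (nat_lit 0), (nat_lit 511)], [((nat_lit 0), (nat_lit 0), (nat_lit 0)), ((nat_lit 0), (nat_lit 0), (nat_lit 0)), ((nat_lit 1000), (nat_lit 997), (nat_lit 383))], ((nat_lit 98), (nat_lit 100), (nat_lit 28))⟩, (nat_lit 4475649), (nat_lit 263), (nat_lit 263), (nat_lit 0), (nat_lit 115905), [(nat_lit 3572256000), (nat_lit 4762500000), (nat_lit 6071616000)], [], [(nat_lit 28354212266), (nat_lit 26665498936), (nat_lit 25552391120), (nat_lit 26095637924), (nat_lit 37055501407), (nat_lit 35618969060), (nat_lit 40406434322), (nat_lit 39009586082)], (nat_lit 1271251), (nat_lit 1271251), (nat_lit 169688), (nat_lit 780000), (nat_lit 0), (nat_lit 2754376), [(nat_lit 1100000), (nat_lit 1442501), (nat_lit 1271251)], [(nat_lit 16), (nat_lit 54), (nat_lit 373), (nat_lit 150), (nat_lit 13)]⟩,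
 ⟨⟨[(nat_lit 120), (nat_lit 140)], [(nat_lit 0), (nat_lit 266)], [((nat_lit 0), (nat_lit 0), (nat_lit 0)), ((nat_lit 960), (nat_lit 1000), (nat_lit 200))], ((nat_lit 100), (nat_lit 93), (nat_lit 28))⟩, (nat_lit 4437693), (nat_lit 300), (nat_lit 313), (nat_lit 66400000), (nat_lit 281807), [(nat_lit 7968000000), (nat_lit 9842000000)], [], [(nat_lit 35532293358), (nat_lit 36496221666), (nat_lit 38447209090), (nat_lit 39101508550), (nat_lit 60486477761), (nat_lit 53667871463), (nat_lit 46933004908), (nat_lit 40281878097)], (nat_lit 1271251), (nat_lit 1271251), (nat_lit 1271251), (nat_lit 1271251), (nat_lit 0), (nat_lit 2754376), [(nat_lit 1695001), (nat_lit 1271251)], [(nat_lit 26), (nat_lit 58), (nat_lit 456), (nat_lit 225), (nat_lit 13)]⟩⟩) (.dle (nat_lit 0))) (.trZ (nat_lit 0) (nat_lit 1) (nat_lit 3) (nat_lit 100) (nat_lit 96) (nat_lit 69) (nat_lit 40) (.leaf ⟨(nat_lit 552), (nat_lit 119), (nat_lit 0), (nat_lit 329), (nat_lit 13715), (nat_lit 6535),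 (nat_lit 4986), (nat_lit 3103), (nat_lit 0), (nat_lit 0), (nat_lit 1554000), [((nat_lit 300), [((nat_lit 12), (nat_lit 2), (nat_lit 218)), ((nat_lit 33), (nat_lit 5), (nat_lit 334))])], ⟨(nat_lit 6), false, false, false, (nat_lit 142), (nat_lit 5000), (nat_lit 5478), [(nat_lit 1264337), (nat_lit 1278570), (nat_lit 1285695), (nat_lit 1299998), (nat_lit 1414199), (nat_lit 1421423), (nat_lit 1435548), (nat_lit 1442843)]⟩, ⟨(nat_lit 5), false, true, true, (nat_lit 229), (nat_lit 5000), (nat_lit 5478), [(nat_lit 1478641), (nat_lit 1478570), (nat_lit 1521346), (nat_lit 1521418), (nat_lit 1628492), (nat_lit 1621412), (nat_lit 1671187), (nat_lit 1664250)]⟩, (nat_lit 4595053), (nat_lit 44030471), (nat_lit 7346387), (nat_lit 15623142), (nat_lit 5), (nat_lit 0), [⟨(nat_lit 0), (nat_lit 100), (nat_lit 95), (nat_lit 78), (nat_lit 804799042)⟩], [], [], [],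
 ⟨⟨[(nat_lit 60), (nat_lit 100), (nat_lit 120)], [(nat_lit 0), (nat_lit 0), (nat_lit 1164)], [((nat_lit 0), (nat_lit 0), (nat_lit 0)), ((nat_lit 0), (nat_lit 0), (nat_lit 0)), ((nat_lit 1000), (nat_lit 933), (nat_lit 572))], ((nat_lit 92), (nat_lit 100), (nat_lit 44))⟩, (nat_lit 0), (nat_lit 169), (nat_lit 169), (nat_lit 0), (nat_lit 161390), [(nat_lit 3460877341), (nat_lit 2325038775), (nat_lit 269019200)], [(nat_lit 0), (nat_lit 0), (nat_lit 0)], [(nat_lit 16167083535), (nat_lit 18413658180), (nat_lit 14576764749), (nat_lit 15989731253), (nat_lit 22071212378), (nat_lit 23873054897), (nat_lit 19406633358), (nat_lit 21074116032)], (nat_lit 1271251), (nat_lit 1271251), (nat_lit 230000), (nat_lit 780000), (nat_lit 1271251), (nat_lit 1271251), [(nat_lit 780000), (nat_lit 1435001), (nat_lit 1271251)], [(nat_lit 10), (nat_lit 54), (nat_lit 317), (nat_lit 100), (nat_lit 10)]⟩,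
 ⟨⟨[(nat_lit 80), (nat_lit 100), (nat_lit 120)], [(nat_lit 0), (nat_lit 265), (nat_lit 768)], [((nat_lit 0), (nat_lit 0), (nat_lit 0)), ((nat_lit 1000), (nat_lit 959), (nat_lit 206)), ((nat_lit 1000), (nat_lit 958), (nat_lit 392))], ((nat_lit 96), (nat_lit 100), (nat_lit 44))⟩, (nat_lit 1948958), (nat_lit 271), (nat_lit 271), (nat_lit 0), (nat_lit 179836), [(nat_lit 2100224000), (nat_lit 2800000000), (nat_lit 3569664000)], [], [(nat_lit 15048014583), (nat_lit 12476390730), (nat_lit 8006367926), (nat_lit 9212546328), (nat_lit 19219227883), (nat_lit 19074123458), (nat_lit 22450958869), (nat_lit 20310613040)], (nat_lit 1271251), (nat_lit 1271251), (nat_lit 230000), (nat_lit 780000), (nat_lit 0), (nat_lit 2754376), [(nat_lit 1100000), (nat_lit 1442501), (nat_lit 1271251)], [(nat_lit 16), (nat_lit 54), (nat_lit 373), (nat_lit 150), (nat_lit 13)]⟩,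
 ⟨⟨[(nat_lit 120), (nat_lit 140), (nat_lit 160)], [(nat_lit 0), (nat_lit 266), (nat_lit 862)], [((nat_lit 0), (nat_lit 0), (nat_lit 0)), ((nat_lit 960), (nat_lit 1000), (nat_lit 200)), ((nat_lit 874), (nat_lit 1000), (nat_lit 406))], ((nat_lit 100), (nat_lit 86), (nat_lit 44))⟩, (nat_lit 675316), (nat_lit 300), (nat_lit 564), (nat_lit 21845600), (nat_lit 610882), [(nat_lit 2621472000), (nat_lit 3238018000), (nat_lit 3905888000)], [], [(nat_lit 16005534356), (nat_lit 15932665118), (nat_lit 16106290507), (nat_lit 15983586182), (nat_lit 20738733870), (nat_lit 18007594675), (nat_lit 15309996777), (nat_lit 13580287664)], (nat_lit 1271251), (nat_lit 1271251), (nat_lit 1271251), (nat_lit 1271251), (nat_lit 0), (nat_lit 2754376), [(nat_lit 1695001), (nat_lit 1271251), (nat_lit 1271251)], [(nat_lit 27), (nat_lit 62), (nat_lit 456), (nat_lit 225), (nat_lit 12)]⟩⟩)))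
noncomputable def c6_16 : Tr Lf :=
 (.trZ (nat_lit 0) (nat_lit 1) (nat_lit 3) (nat_lit 100) (nat_lit 100) (nat_lit 80) (nat_lit 60) (.spl (nat_lit 5) (nat_lit 200) (.leaf ⟨(nat_lit 0), (nat_lit 923), (nat_lit 0), (nat_lit 77), (nat_lit 5221), (nat_lit 8640), (nat_lit 9608), (nat_lit 1057), (nat_lit 1466618661007), (nat_lit 0), (nat_lit 0), [], Pd.none, Pd.none, (nat_lit 0), (nat_lit 1), (nat_lit 0), (nat_lit 0), (nat_lit 5), (nat_lit 0), [⟨(nat_lit 0), (nat_lit 100), (nat_lit 100), (nat_lit 90), (nat_lit 542758292)⟩], [], [], [],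
 ⟨⟨[(nat_lit 60), (nat_lit 100), (nat_lit 120)], [(nat_lit 0), (nat_lit 0), (nat_lit 1164)], [((nat_lit 0), (nat_lit 0), (nat_lit 0)), ((nat_lit 0), (nat_lit 0), (nat_lit 0)), ((nat_lit 1000), (nat_lit 933), (nat_lit 572))], ((nat_lit 93), (nat_lit 100), (nat_lit 58))⟩, (nat_lit 2910533), (nat_lit 187), (nat_lit 187), (nat_lit 0), (nat_lit 259468), [(nat_lit 4604110799), (nat_lit 6250000058), (nat_lit 7968000000)], [], [(nat_lit 18051385008), (nat_lit 19897033658), (nat_lit 16502730748), (nat_lit 18211210328), (nat_lit 22778685708), (nat_lit 24279811758), (nat_lit 20880092598), (nat_lit 22397615708)], (nat_lit 1271251), (nat_lit 1271251), (nat_lit 356250), (nat_lit 780000), (nat_lit 1271251), (nat_lit 1271251), [(nat_lit 780000), (nat_lit 1435001), (nat_lit 1271251)], [(nat_lit 10), (nat_lit 54), (nat_lit 317), (nat_lit 100), (nat_lit 10)]⟩,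
 ⟨⟨[(nat_lit 60), (nat_lit 100), (nat_lit 120)], [(nat_lit 0), (nat_lit 0), (nat_lit 1164)], [((nat_lit 0), (nat_lit 0), (nat_lit 0)), ((nat_lit 0), (nat_lit 0), (nat_lit 0)), ((nat_lit 1000), (nat_lit 933), (nat_lit 572))], ((nat_lit 93), (nat_lit 100), (nat_lit 58))⟩, (nat_lit 2341775), (nat_lit 294), (nat_lit 294), (nat_lit 0), (nat_lit 259468), [(nat_lit 3282000000), (nat_lit 6250000000), (nat_lit 7968000000)], [], [(nat_lit 23914224596), (nat_lit 26079791584), (nat_lit 22083949204), (nat_lit 23919609384), (nat_lit 20150830850), (nat_lit 20640390878), (nat_lit 24693231308), (nat_lit 20254275258)], (nat_lit 1271251), (nat_lit 1271251), (nat_lit 356250), (nat_lit 780000), (nat_lit 0), (nat_lit 1412501), [(nat_lit 780000), (nat_lit 1435001), (nat_lit 1271251)], [(nat_lit 10), (nat_lit 54), (nat_lit 317), (nat_lit 100), (nat_lit 11)]⟩,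
 ⟨⟨[(nat_lit 140), (nat_lit 180), (nat_lit 200)], [(nat_lit 0), (nat_lit 0), (nat_lit 2835)], [((nat_lit 0), (nat_lit 0), (nat_lit 0)), ((nat_lit 0), (nat_lit 0), (nat_lit 0)), ((nat_lit 363), (nat_lit 1000), (nat_lit 798))], ((nat_lit 0), (nat_lit 0), (nat_lit 0))⟩, (nat_lit 21185), (nat_lit 300), (nat_lit 1856), (nat_lit 6013703), (nat_lit 3024428), [(nat_lit 757834000), (nat_lit 1082466000), (nat_lit 1262800000)], [], [(nat_lit 5257367648), (nat_lit 4912637640), (nat_lit 5121554754), (nat_lit 4758977497), (nat_lit 4068685916), (nat_lit 5265050681), (nat_lit 3922716106), (nat_lit 3573092090)], (nat_lit 780000), (nat_lit 1598751), (nat_lit 1271251), (nat_lit 1271251), (nat_lit 0), (nat_lit 1412501), [(nat_lit 1977501), (nat_lit 1271251), (nat_lit 1271251)], [(nat_lit 32), (nat_lit 67), (nat_lit 552), (nat_lit 175), (nat_lit 12)]⟩⟩) (.stt (nat_lit 1) (.spl (nat_lit 5) (nat_lit 280) (.leaf ⟨(nat_lit 0), (nat_lit 902), (nat_lit 0), (nat_lit 98), (nat_lit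 3716), (nat_lit 5033), (nat_lit 8804), (nat_lit 1118), (nat_lit 2097544660261), (nat_lit 0), (nat_lit 0), [], Pd.none, Pd.none, (nat_lit 0), (nat_lit 1), (nat_lit 0), (nat_lit 0), (nat_lit 5), (nat_lit 0), [⟨(nat_lit 0), (nat_lit 100), (nat_lit 100), (nat_lit 90), (nat_lit 803331476)⟩], [], [], [],
 ⟨⟨[(nat_lit 60), (nat_lit 100), (nat_lit 120)], [(nat_lit 0), (nat_lit 0), (nat_lit 1164)], [((nat_lit 0), (nat_lit 0), (nat_lit 0)), ((nat_lit 0), (nat_lit 0), (nat_lit 0)), ((nat_lit 1000), (nat_lit 933), (nat_lit 572))], ((nat_lit 93), (nat_lit 100), (nat_lit 58))⟩, (nat_lit 0), (nat_lit 70), (nat_lit 70), (nat_lit 0), (nat_lit 0), [(nat_lit 3282000013), (nat_lit 100812721880), (nat_lit 7968000000)], [], [(nat_lit 15008130273), (nat_lit 16713588192), (nat_lit 14861148674), (nat_lit 16449567257), (nat_lit 19751921145), (nat_lit 21289947667), (nat_lit 19304531707), (nat_lit 20609398201)], (nat_lit 0), (nat_lit 0), (nat_lit 0), (nat_lit 0), (nat_lit 0),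 (nat_lit 0), [], [(nat_lit 10), (nat_lit 54), (nat_lit 317), (nat_lit 100), (nat_lit 10)]⟩,
 ⟨⟨[(nat_lit 60), (nat_lit 100), (nat_lit 120)], [(nat_lit 0), (nat_lit 0), (nat_lit 1164)], [((nat_lit 0), (nat_lit 0), (nat_lit 0)), ((nat_lit 0), (nat_lit 0), (nat_lit 0)), ((nat_lit 1000), (nat_lit 933), (nat_lit 572))], ((nat_lit 93), (nat_lit 100), (nat_lit 58))⟩, (nat_lit 2920374), (nat_lit 187), (nat_lit 187), (nat_lit 0), (nat_lit 259468), [(nat_lit 3282000000), (nat_lit 6250000000), (nat_lit 7968000000)], [], [(nat_lit 17928269126), (nat_lit 19796453016), (nat_lit 16327000140), (nat_lit 18055876728), (nat_lit 22701056046), (nat_lit 24415497179), (nat_lit 20744665194), (nat_lit 22279462465)], (nat_lit 1271251), (nat_lit 1271251), (nat_lit 356250), (nat_lit 780000), (nat_lit 1271251), (nat_lit 1271251), [(nat_lit 780000), (nat_lit 1435001), (nat_lit 1271251)], [(nat_lit 10), (nat_lit 54), (nat_lit 317), (nat_lit 100), (nat_lit 10)]⟩,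
 ⟨⟨[(nat_lit 140), (nat_lit 180), (nat_lit 200)], [(nat_lit 0), (nat_lit 0), (nat_lit 2835)], [((nat_lit 0), (nat_lit 0), (nat_lit 0)), ((nat_lit 0), (nat_lit 0), (nat_lit 0)), ((nat_lit 363), (nat_lit 1000), (nat_lit 798))], ((nat_lit 0), (nat_lit 0), (nat_lit 0))⟩, (nat_lit 26963), (nat_lit 300), (nat_lit 1736), (nat_lit 7653800), (nat_lit 3024428), [(nat_lit 964516000), (nat_lit 1377684000), (nat_lit 1607200000)], [], [(nat_lit 6021764224), (nat_lit 5629743897), (nat_lit 5785058102), (nat_lit 5388358378), (nat_lit 5785058102), (nat_lit 5388358378), (nat_lit 5541265072), (nat_lit 5150373949)], (nat_lit 780000), (nat_lit 1598751), (nat_lit 1271251), (nat_lit 1271251), (nat_lit 1271251), (nat_lit 1271251), [(nat_lit 1977501), (nat_lit 1271251), (nat_lit 1271251)], [(nat_lit 32), (nat_lit 67), (nat_lit 532), (nat_lit 200), (nat_lit 11)]⟩⟩) (.leaf ⟨(nat_lit 0), (nat_lit 910), (nat_lit 0), (nat_lit 90), (nat_lit 0), (nat_lit 5033), (nat_lit 7310), (nat_lit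 1014), (nat_lit 1476275694681), (nat_lit 0), (nat_lit 0), [], Pd.none, Pd.none, (nat_lit 0), (nat_lit 1), (nat_lit 0), (nat_lit 0), (nat_lit 7), (nat_lit 0), [⟨(nat_lit 0), (nat_lit 100), (nat_lit 100), (nat_lit 90), (nat_lit 253042584)⟩], [], [], [⟨(nat_lit 2), (nat_lit 75), (nat_lit 100), (nat_lit 83), (nat_lit 621476368)⟩],
 ⟨⟨[(nat_lit 60), (nat_lit 100), (nat_lit 120)], [(nat_lit 0), (nat_lit 0), (nat_lit 1164)], [((nat_lit 0), (nat_lit 0), (nat_lit 0)), ((nat_lit 0), (nat_lit 0), (nat_lit 0)), ((nat_lit 1000), (nat_lit 933), (nat_lit 572))], ((nat_lit 93), (nat_lit 100), (nat_lit 58))⟩, (nat_lit 0), (nat_lit 70), (nat_lit 70), (nat_lit 0), (nat_lit 0), [(nat_lit 3282000077), (nat_lit 100683460813), (nat_lit 7968000000)], [], [(nat_lit 15008130337), (nat_lit 16713588256), (nat_lit 14861148738), (nat_lit 16449567321), (nat_lit 19751921145), (nat_lit 21289947667), (nat_lit 19304531771), (nat_lit 20609398265)], (nat_lit 0), (nat_lit 0), (nat_lit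 0), (nat_lit 0), (nat_lit 0), (nat_lit 0), [], [(nat_lit 10), (nat_lit 54), (nat_lit 317), (nat_lit 100), (nat_lit 10)]⟩,
 ⟨⟨[(nat_lit 60), (nat_lit 100), (nat_lit 120)], [(nat_lit 0), (nat_lit 0), (nat_lit 1164)], [((nat_lit 0), (nat_lit 0), (nat_lit 0)), ((nat_lit 0), (nat_lit 0), (nat_lit 0)), ((nat_lit 1000), (nat_lit 933), (nat_lit 572))], ((nat_lit 93), (nat_lit 100), (nat_lit 58))⟩, (nat_lit 2400894), (nat_lit 244), (nat_lit 244), (nat_lit 0), (nat_lit 259468), [(nat_lit 3282000000), (nat_lit 6250000000), (nat_lit 7968000000)], [], [(nat_lit 26165609517), (nat_lit 27196467431), (nat_lit 24876833584), (nat_lit 25831647764), (nat_lit 33239217977), (nat_lit 34441400499), (nat_lit 31543725528), (nat_lit 32242672429)], (nat_lit 1271251), (nat_lit 1271251), (nat_lit 356250), (nat_lit 780000), (nat_lit 1271251), (nat_lit 1271251), [(nat_lit 780000), (nat_lit 1435001), (nat_lit 1271251)], [(nat_lit 10), (nat_lit 54), (nat_lit 238), (nat_lit 30), (nat_lit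 7)]⟩,
 ⟨⟨[(nat_lit 140), (nat_lit 180), (nat_lit 200)], [(nat_lit 0), (nat_lit 0), (nat_lit 2835)], [((nat_lit 0), (nat_lit 0), (nat_lit 0)), ((nat_lit 0), (nat_lit 0), (nat_lit 0)), ((nat_lit 363), (nat_lit 1000), (nat_lit 798))], ((nat_lit 0), (nat_lit 0), (nat_lit 0))⟩, (nat_lit 24762), (nat_lit 300), (nat_lit 1701), (nat_lit 7029000), (nat_lit 3024428), [(nat_lit 885780000), (nat_lit 1265220000), (nat_lit 1476000000)], [], [(nat_lit 5391594894), (nat_lit 5035315248), (nat_lit 5170030128), (nat_lit 4807882472), (nat_lit 5230258743), (nat_lit 4865571073), (nat_lit 5017083042), (nat_lit 4647476529)], (nat_lit 780000), (nat_lit 1598751), (nat_lit 1271251), (nat_lit 1271251), (nat_lit 1271251), (nat_lit 1271251), [(nat_lit 1977501), (nat_lit 1271251), (nat_lit 1271251)], [(nat_lit 32), (nat_lit 67), (nat_lit 537), (nat_lit 225), (nat_lit 11)]⟩⟩)) (.spl (nat_lit 0) (nat_lit 290) (.ord (.spl (nat_lit 6) (nat_lit 20) (.leaf ⟨(nat_lit 0), (nat_lit 191),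 (nat_lit 0), (nat_lit 809), (nat_lit 0), (nat_lit 10796), (nat_lit 9812), (nat_lit 8238), (nat_lit 19620370577206), (nat_lit 0), (nat_lit 0), [], Pd.none, Pd.none, (nat_lit 0), (nat_lit 1), (nat_lit 0), (nat_lit 0), (nat_lit 5), (nat_lit 0), [⟨(nat_lit 0), (nat_lit 100), (nat_lit 100), (nat_lit 90), (nat_lit 970325423)⟩], [], [], [],
 ⟨⟨[(nat_lit 60), (nat_lit 100), (nat_lit 120)], [(nat_lit 0), (nat_lit 0), (nat_lit 1164)], [((nat_lit 0), (nat_lit 0), (nat_lit 0)), ((nat_lit 0), (nat_lit 0), (nat_lit 0)), ((nat_lit 1000), (nat_lit 933), (nat_lit 572))], ((nat_lit 92), (nat_lit 100), (nat_lit 44))⟩, (nat_lit 7683426), (nat_lit 153), (nat_lit 153), (nat_lit 0), (nat_lit 177136), [(nat_lit 5364970523), (nat_lit 6250000056), (nat_lit 7968000000)], [], [(nat_lit 15678550354), (nat_lit 17254635728), (nat_lit 13525560270), (nat_lit 14626385765), (nat_lit 23588881881), (nat_lit 24827712552), (nat_lit 20554438102), (nat_lit 21706570414)], (nat_lit 1271251),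 (nat_lit 1271251), (nat_lit 356250), (nat_lit 780000), (nat_lit 1271251), (nat_lit 1271251), [(nat_lit 780000), (nat_lit 1435001), (nat_lit 1271251)], [(nat_lit 10), (nat_lit 54), (nat_lit 317), (nat_lit 100), (nat_lit 10)]⟩,
 ⟨⟨[(nat_lit 60), (nat_lit 100), (nat_lit 120)], [(nat_lit 0), (nat_lit 0), (nat_lit 1164)], [((nat_lit 0), (nat_lit 0), (nat_lit 0)), ((nat_lit 0), (nat_lit 0), (nat_lit 0)), ((nat_lit 1000), (nat_lit 933), (nat_lit 572))], ((nat_lit 92), (nat_lit 100), (nat_lit 44))⟩, (nat_lit 9864015), (nat_lit 201), (nat_lit 201), (nat_lit 0), (nat_lit 177136), [(nat_lit 3282000000), (nat_lit 6250000000), (nat_lit 7968000000)], [], [(nat_lit 17944856720), (nat_lit 18781339353), (nat_lit 16336074546), (nat_lit 17105751650), (nat_lit 37609472793), (nat_lit 38311613539), (nat_lit 33963881815), (nat_lit 34624608902)], (nat_lit 1271251), (nat_lit 1271251), (nat_lit 356250), (nat_lit 780000), (nat_lit 1271251), (nat_lit 1271251), [(nat_lit 780000),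 (nat_lit 1435001), (nat_lit 1271251)], [(nat_lit 10), (nat_lit 54), (nat_lit 373), (nat_lit 150), (nat_lit 12)]⟩,
 ⟨⟨[(nat_lit 140), (nat_lit 160), (nat_lit 180)], [(nat_lit 0), (nat_lit 0), (nat_lit 799)], [((nat_lit 0), (nat_lit 0), (nat_lit 0)), ((nat_lit 0), (nat_lit 0), (nat_lit 0)), ((nat_lit 728), (nat_lit 1000), (nat_lit 454))], ((nat_lit 100), (nat_lit 71), (nat_lit 48))⟩, (nat_lit 3143784), (nat_lit 300), (nat_lit 786), (nat_lit 60027800), (nat_lit 1130506), [(nat_lit 7962178000), (nat_lit 9604448000), (nat_lit 11372922000)], [], [(nat_lit 44877835105), (nat_lit 42613558094), (nat_lit 43828064141), (nat_lit 41458321018), (nat_lit 43547594254), (nat_lit 40996796361), (nat_lit 42227046082), (nat_lit 39599077299)], (nat_lit 780000), (nat_lit 1598751), (nat_lit 1271251), (nat_lit 1271251), (nat_lit 1271251), (nat_lit 1271251), [(nat_lit 1977501), (nat_lit 1271251), (nat_lit 1271251)], [(nat_lit 31), (nat_lit 65), (nat_lit 456), (nat_lit 225),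 (nat_lit 10)]⟩⟩) (.dle (nat_lit 0)))) (.trZ (nat_lit 0) (nat_lit 1) (nat_lit 3) (nat_lit 100) (nat_lit 97) (nat_lit 84) (nat_lit 70) (.leaf ⟨(nat_lit 0), (nat_lit 804), (nat_lit 0), (nat_lit 196), (nat_lit 0), (nat_lit 8188), (nat_lit 7413), (nat_lit 2214), (nat_lit 11384), (nat_lit 0), (nat_lit 0), [], Pd.none, Pd.none, (nat_lit 0), (nat_lit 1), (nat_lit 0), (nat_lit 0), (nat_lit 5), (nat_lit 0), [⟨(nat_lit 0), (nat_lit 100), (nat_lit 99), (nat_lit 92), (nat_lit 513339488)⟩], [], [], [⟨(nat_lit 2), (nat_lit 70), (nat_lit 100), (nat_lit 87), (nat_lit 389187460)⟩],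
 ⟨⟨[(nat_lit 60), (nat_lit 100), (nat_lit 120)], [(nat_lit 0), (nat_lit 302), (nat_lit 1376)], [((nat_lit 0), (nat_lit 0), (nat_lit 0)), ((nat_lit 1000), (nat_lit 953), (nat_lit 118)), ((nat_lit 1000), (nat_lit 911), (nat_lit 628))], ((nat_lit 90), (nat_lit 100), (nat_lit 58))⟩, (nat_lit 3169158), (nat_lit 177), (nat_lit 177), (nat_lit 0), (nat_lit 256053), [(nat_lit 4202517156), (nat_lit 6250000002), (nat_lit 7968000000)], [], [(nat_lit 17608074531), (nat_lit 18493294612), (nat_lit 16808721282), (nat_lit 17634853000), (nat_lit 22010445755), (nat_lit 23028245256), (nat_lit 21031214723), (nat_lit 21766423425)], (nat_lit 1271251), (nat_lit 1271251), (nat_lit 422188), (nat_lit 780000), (nat_lit 1271251), (nat_lit 1271251), [(nat_lit 780000), (nat_lit 1435001), (nat_lit 1271251)], [(nat_lit 10), (nat_lit 54), (nat_lit 317), (nat_lit 100), (nat_lit 10)]⟩,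
 ⟨⟨[(nat_lit 60), (nat_lit 100), (nat_lit 120)], [(nat_lit 0), (nat_lit 0), (nat_lit 1164)], [((nat_lit 0), (nat_lit 0), (nat_lit 0)), ((nat_lit 0), (nat_lit 0), (nat_lit 0)), ((nat_lit 1000), (nat_lit 933), (nat_lit 572))], ((nat_lit 93), (nat_lit 100), (nat_lit 58))⟩, (nat_lit 2701054), (nat_lit 220), (nat_lit 220), (nat_lit 0), (nat_lit 259314), [(nat_lit 3282000000), (nat_lit 6250000000), (nat_lit 7968000000)], [], [(nat_lit 21845953397), (nat_lit 23115301713), (nat_lit 21272362218), (nat_lit 22456408616), (nat_lit 32577815245), (nat_lit 33784173262), (nat_lit 31408281326), (nat_lit 32110295580)], (nat_lit 1271251), (nat_lit 1271251), (nat_lit 422188), (nat_lit 780000), (nat_lit 1271251), (nat_lit 1271251), [(nat_lit 780000), (nat_lit 1435001), (nat_lit 1271251)], [(nat_lit 10), (nat_lit 54), (nat_lit 373), (nat_lit 150), (nat_lit 12)]⟩,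
 ⟨⟨[(nat_lit 140), (nat_lit 180), (nat_lit 200)], [(nat_lit 0), (nat_lit 0), (nat_lit 2835)], [((nat_lit 0), (nat_lit 0), (nat_lit 0)), ((nat_lit 0), (nat_lit 0), (nat_lit 0)), ((nat_lit 363), (nat_lit 1000), (nat_lit 798))], ((nat_lit 0), (nat_lit 0), (nat_lit 0))⟩, (nat_lit 53926), (nat_lit 300), (nat_lit 1139), (nat_lit 15307600), (nat_lit 1762861), [(nat_lit 1929032000), (nat_lit 2755368000), (nat_lit 3214400000)], [], [(nat_lit 12170542412), (nat_lit 11396371706), (nat_lit 11703642344), (nat_lit 10920150045), (nat_lit 11364194716), (nat_lit 10567324850), (nat_lit 10898222307), (nat_lit 10098845458)], (nat_lit 780000), (nat_lit 1598751), (nat_lit 1271251), (nat_lit 1271251), (nat_lit 1271251), (nat_lit 1271251), [(nat_lit 1977501), (nat_lit 1271251), (nat_lit 1271251)], [(nat_lit 32), (nat_lit 67), (nat_lit 456), (nat_lit 225), (nat_lit 9)]⟩⟩))))))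
noncomputable def c6_17 : Tr Lf :=
 (.trX (nat_lit 5) (nat_lit 4) (nat_lit 3) (nat_lit 100) (nat_lit 95) (nat_lit 87) (nat_lit 300) (.spl (nat_lit 6) (nat_lit 12) (.spl (nat_lit 5) (nat_lit 120) (.spl (nat_lit 0) (nat_lit 290) (.leaf ⟨(nat_lit 0), (nat_lit 888), (nat_lit 0), (nat_lit 112), (nat_lit 28662), (nat_lit 5820), (nat_lit 7836), (nat_lit 1352), (nat_lit 0), (nat_lit 0), (nat_lit 0), [], Pd.none, Pd.none, (nat_lit 0), (nat_lit 1), (nat_lit 0), (nat_lit 0), (nat_lit 7), (nat_lit 0), [⟨(nat_lit 0), (nat_lit 100), (nat_lit 95), (nat_lit 71), (nat_lit 1329191773)⟩], [⟨(nat_lit 1), (nat_lit 66), (nat_lit 93), (nat_lit 100), (nat_lit 478414851)⟩], [⟨(nat_lit 0), (nat_lit 100), (nat_lit 99), (nat_lit 5), (nat_lit 141051658)⟩], [],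
 ⟨⟨[(nat_lit 60), (nat_lit 80), (nat_lit 100)], [(nat_lit 0), (nat_lit 0), (nat_lit 534)], [((nat_lit 0), (nat_lit 0), (nat_lit 0)), ((nat_lit 0), (nat_lit 0), (nat_lit 0)), ((nat_lit 1000), (nat_lit 917), (nat_lit 393))], ((nat_lit 92), (nat_lit 100), (nat_lit 34))⟩, (nat_lit 4432123), (nat_lit 174), (nat_lit 174), (nat_lit 0), (nat_lit 132697), [(nat_lit 3282000043), (nat_lit 4688000014), (nat_lit 6250000000)], [], [(nat_lit 24898272380), (nat_lit 25400170085), (nat_lit 23350378955), (nat_lit 23832283560), (nat_lit 31510427169), (nat_lit 32083113148), (nat_lit 29182123681), (nat_lit 29601027361)], (nat_lit 1271251), (nat_lit 1271251), (nat_lit 169688), (nat_lit 490000), (nat_lit 1271251), (nat_lit 1271251), [(nat_lit 780000), (nat_lit 1100000), (nat_lit 1442501)], [(nat_lit 9), (nat_lit 50), (nat_lit 226), (nat_lit 20), (nat_lit 8)]⟩,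
 ⟨⟨[(nat_lit 80), (nat_lit 100), (nat_lit 120)], [(nat_lit 0), (nat_lit 0), (nat_lit 511)], [((nat_lit 0), (nat_lit 0), (nat_lit 0)), ((nat_lit 0), (nat_lit 0), (nat_lit 0)), ((nat_lit 1000), (nat_lit 997), (nat_lit 383))], ((nat_lit 99), (nat_lit 100), (nat_lit 34))⟩, (nat_lit 9286819), (nat_lit 262), (nat_lit 262), (nat_lit 0), (nat_lit 94347), [(nat_lit 4688000000), (nat_lit 6250000000), (nat_lit 7968000000)], [], [(nat_lit 18639012475), (nat_lit 23297999217), (nat_lit 15352726416), (nat_lit 19487905112), (nat_lit 14413094989), (nat_lit 18205495039), (nat_lit 12486778912), (nat_lit 15675054304)], (nat_lit 1271251), (nat_lit 1271251), (nat_lit 169688), (nat_lit 490000), (nat_lit 0), (nat_lit 780000), [(nat_lit 1100000), (nat_lit 1442501), (nat_lit 1271251)], [(nat_lit 16), (nat_lit 54), (nat_lit 260), (nat_lit 50), (nat_lit 9)]⟩,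
 ⟨⟨[(nat_lit 140), (nat_lit 160), (nat_lit 180)], [(nat_lit 0), (nat_lit 0), (nat_lit 799)], [((nat_lit 0), (nat_lit 0), (nat_lit 0)), ((nat_lit 0), (nat_lit 0), (nat_lit 0)), ((nat_lit 728), (nat_lit 1000), (nat_lit 454))], ((nat_lit 100), (nat_lit 79), (nat_lit 37))⟩, (nat_lit 98403), (nat_lit 300), (nat_lit 765), (nat_lit 8310401), (nat_lit 846396), [(nat_lit 1102304000), (nat_lit 1329664000), (nat_lit 1574496000)], [], [(nat_lit 6508382352), (nat_lit 6235010844), (nat_lit 6681277172), (nat_lit 6400277166), (nat_lit 5513895192), (nat_lit 5248371148), (nat_lit 5588641004), (nat_lit 5321236411)], (nat_lit 780000), (nat_lit 1271251), (nat_lit 1271251), (nat_lit 1271251), (nat_lit 0), (nat_lit 780000), [(nat_lit 1977501), (nat_lit 1271251), (nat_lit 1271251)], [(nat_lit 31), (nat_lit 65), (nat_lit 401), (nat_lit 175), (nat_lit 9)]⟩⟩) (.trZ (nat_lit 0) (nat_lit 1) (nat_lit 3) (nat_lit 100) (nat_lit 91) (nat_lit 63) (nat_lit 40) (.trX (nat_lit 4) (nat_lit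 0) (nat_lit 2) (nat_lit 90) (nat_lit 54) (nat_lit 100) (nat_lit 370) (.leaf ⟨(nat_lit 0), (nat_lit 901), (nat_lit 0), (nat_lit 99), (nat_lit 28800), (nat_lit 5664), (nat_lit 8091), (nat_lit 1204), (nat_lit 0), (nat_lit 0), (nat_lit 0), [], Pd.none, Pd.none, (nat_lit 0), (nat_lit 1), (nat_lit 0), (nat_lit 0), (nat_lit 7), (nat_lit 0), [⟨(nat_lit 0), (nat_lit 100), (nat_lit 92), (nat_lit 75), (nat_lit 1451511835)⟩], [⟨(nat_lit 1), (nat_lit 70), (nat_lit 91), (nat_lit 100), (nat_lit 487444755)⟩], [⟨(nat_lit 0), (nat_lit 100), (nat_lit 99), (nat_lit 5), (nat_lit 133467312)⟩], [],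
 ⟨⟨[(nat_lit 60), (nat_lit 80), (nat_lit 100)], [(nat_lit 0), (nat_lit 151), (nat_lit 679)], [((nat_lit 0), (nat_lit 0), (nat_lit 0)), ((nat_lit 1000), (nat_lit 953), (nat_lit 118)), ((nat_lit 1000), (nat_lit 894), (nat_lit 411))], ((nat_lit 90), (nat_lit 100), (nat_lit 34))⟩, (nat_lit 4452429), (nat_lit 176), (nat_lit 176), (nat_lit 0), (nat_lit 170517), [(nat_lit 3282000068), (nat_lit 4688000027), (nat_lit 6250000000)], [], [(nat_lit 24088124706), (nat_lit 24582325870), (nat_lit 22883854787), (nat_lit 23378670368), (nat_lit 30179020031), (nat_lit 30769697476), (nat_lit 27905431340), (nat_lit 28356914504)], (nat_lit 1271251), (nat_lit 1271251), (nat_lit 230000), (nat_lit 490000), (nat_lit 1271251), (nat_lit 1271251), [(nat_lit 780000), (nat_lit 1100000), (nat_lit 1442501)], [(nat_lit 9), (nat_lit 50), (nat_lit 226), (nat_lit 20), (nat_lit 7)]⟩,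
 ⟨⟨[(nat_lit 80), (nat_lit 100), (nat_lit 120)], [(nat_lit 0), (nat_lit 0), (nat_lit 511)], [((nat_lit 0), (nat_lit 0), (nat_lit 0)), ((nat_lit 0), (nat_lit 0), (nat_lit 0)), ((nat_lit 1000), (nat_lit 997), (nat_lit 383))], ((nat_lit 99), (nat_lit 100), (nat_lit 34))⟩, (nat_lit 9288600), (nat_lit 259), (nat_lit 259), (nat_lit 0), (nat_lit 127832), [(nat_lit 4688000000), (nat_lit 6250000000), (nat_lit 7968000000)], [], [(nat_lit 17914153824), (nat_lit 22599547270), (nat_lit 14977916196), (nat_lit 19299164904), (nat_lit 13462066429), (nat_lit 17301421252), (nat_lit 11937914872), (nat_lit 15188798374)], (nat_lit 1271251), (nat_lit 1271251), (nat_lit 230000), (nat_lit 490000), (nat_lit 0), (nat_lit 780000), [(nat_lit 1100000), (nat_lit 1442501), (nat_lit 1271251)], [(nat_lit 16), (nat_lit 54), (nat_lit 260), (nat_lit 50), (nat_lit 9)]⟩,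
 ⟨⟨[(nat_lit 140), (nat_lit 160), (nat_lit 180)], [(nat_lit 0), (nat_lit 0), (nat_lit 799)], [((nat_lit 0), (nat_lit 0), (nat_lit 0)), ((nat_lit 0), (nat_lit 0), (nat_lit 0)), ((nat_lit 728), (nat_lit 1000), (nat_lit 454))], ((nat_lit 100), (nat_lit 79), (nat_lit 37))⟩, (nat_lit 86981), (nat_lit 300), (nat_lit 916), (nat_lit 7345802), (nat_lit 1178954), [(nat_lit 974358000), (nat_lit 1175328000), (nat_lit 1391742000)], [], [(nat_lit 5726570204), (nat_lit 5496373876), (nat_lit 5867879266), (nat_lit 5620107059), (nat_lit 4839945009), (nat_lit 4602886796), (nat_lit 4897343201), (nat_lit 4661878670)], (nat_lit 780000), (nat_lit 1271251), (nat_lit 1271251), (nat_lit 1271251), (nat_lit 0), (nat_lit 780000), [(nat_lit 1977501), (nat_lit 1271251), (nat_lit 1271251)], [(nat_lit 31), (nat_lit 65), (nat_lit 401), (nat_lit 175), (nat_lit 9)]⟩⟩)))) (.stt (nat_lit 2) (.leaf ⟨(nat_lit 0), (nat_lit 793), (nat_lit 0), (nat_lit 207), (nat_lit 0), (nat_lit 6439), (nat_lit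 11630), (nat_lit 2275), (nat_lit 0), (nat_lit 0), (nat_lit 0), [], Pd.none, Pd.none, (nat_lit 0), (nat_lit 1), (nat_lit 0), (nat_lit 0), (nat_lit 7), (nat_lit 0), [⟨(nat_lit 0), (nat_lit 100), (nat_lit 94), (nat_lit 73), (nat_lit 1188342173)⟩], [], [], [⟨(nat_lit 2), (nat_lit 100), (nat_lit 76), (nat_lit 69), (nat_lit 338562087)⟩, ⟨(nat_lit 2), (nat_lit 100), (nat_lit 76), (nat_lit 69), (nat_lit 338562087)⟩],
 ⟨⟨[(nat_lit 60), (nat_lit 80), (nat_lit 100)], [(nat_lit 0), (nat_lit 0), (nat_lit 534)], [((nat_lit 0), (nat_lit 0), (nat_lit 0)), ((nat_lit 0), (nat_lit 0), (nat_lit 0)), ((nat_lit 1000), (nat_lit 917), (nat_lit 393))], ((nat_lit 92), (nat_lit 100), (nat_lit 34))⟩, (nat_lit 4334017), (nat_lit 201), (nat_lit 201), (nat_lit 0), (nat_lit 173013), [(nat_lit 3282000002), (nat_lit 4688000001), (nat_lit 6250000000)], [], [(nat_lit 23817770772), (nat_lit 25000308807), (nat_lit 21870847116), (nat_lit 22880486810), (nat_lit 32768458976), (nat_lit 33968841909),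 (nat_lit 29232835353), (nat_lit 30415585063)], (nat_lit 1271251), (nat_lit 1271251), (nat_lit 169688), (nat_lit 490000), (nat_lit 1271251), (nat_lit 1271251), [(nat_lit 780000), (nat_lit 1100000), (nat_lit 1442501)], [(nat_lit 9), (nat_lit 50), (nat_lit 226), (nat_lit 20), (nat_lit 8)]⟩,
 ⟨⟨[(nat_lit 80), (nat_lit 100), (nat_lit 120)], [(nat_lit 0), (nat_lit 0), (nat_lit 511)], [((nat_lit 0), (nat_lit 0), (nat_lit 0)), ((nat_lit 0), (nat_lit 0), (nat_lit 0)), ((nat_lit 1000), (nat_lit 997), (nat_lit 383))], ((nat_lit 99), (nat_lit 100), (nat_lit 34))⟩, (nat_lit 9957879), (nat_lit 121), (nat_lit 121), (nat_lit 0), (nat_lit 0), [(nat_lit 4688000000), (nat_lit 6250000000), (nat_lit 7968000000)], [], [(nat_lit 10266145844), (nat_lit 17011402494), (nat_lit 5308429731), (nat_lit 10546244870), (nat_lit 25766405035), (nat_lit 30684644361), (nat_lit 19346024960), (nat_lit 24139894470)], (nat_lit 0), (nat_lit 0), (nat_lit 0), (nat_lit 0), (nat_lit 0), (nat_lit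 0), [], [(nat_lit 16), (nat_lit 54), (nat_lit 317), (nat_lit 100), (nat_lit 10)]⟩,
 ⟨⟨[(nat_lit 140), (nat_lit 160), (nat_lit 180)], [(nat_lit 0), (nat_lit 0), (nat_lit 799)], [((nat_lit 0), (nat_lit 0), (nat_lit 0)), ((nat_lit 0), (nat_lit 0), (nat_lit 0)), ((nat_lit 728), (nat_lit 1000), (nat_lit 454))], ((nat_lit 100), (nat_lit 79), (nat_lit 37))⟩, (nat_lit 181870), (nat_lit 300), (nat_lit 1187), (nat_lit 15359400), (nat_lit 1978286), [(nat_lit 2037294000), (nat_lit 2457504000), (nat_lit 2910006000)], [], [(nat_lit 11267404006), (nat_lit 10796190651), (nat_lit 11043201163), (nat_lit 10575556171), (nat_lit 10135619733), (nat_lit 9661976666), (nat_lit 9970435163), (nat_lit 9505199601)], (nat_lit 780000), (nat_lit 1271251), (nat_lit 1271251), (nat_lit 1271251), (nat_lit 780000), (nat_lit 2253751), [(nat_lit 1977501), (nat_lit 1271251), (nat_lit 1271251)], [(nat_lit 31), (nat_lit 65), (nat_lit 456), (nat_lit 225), (nat_lit 10)]⟩⟩) (.leaf ⟨(nat_lit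 0), (nat_lit 167), (nat_lit 0), (nat_lit 833), (nat_lit 9161), (nat_lit 6928), (nat_lit 17362), (nat_lit 10527), (nat_lit 0), (nat_lit 0), (nat_lit 0), [], Pd.none, Pd.none, (nat_lit 0), (nat_lit 1), (nat_lit 0), (nat_lit 0), (nat_lit 7), (nat_lit 0), [⟨(nat_lit 0), (nat_lit 100), (nat_lit 94), (nat_lit 73), (nat_lit 3439525907)⟩], [], [], [],
 ⟨⟨[(nat_lit 60), (nat_lit 80), (nat_lit 100)], [(nat_lit 0), (nat_lit 0), (nat_lit 534)], [((nat_lit 0), (nat_lit 0), (nat_lit 0)), ((nat_lit 0), (nat_lit 0), (nat_lit 0)), ((nat_lit 1000), (nat_lit 917), (nat_lit 393))], ((nat_lit 92), (nat_lit 100), (nat_lit 34))⟩, (nat_lit 4481278), (nat_lit 201), (nat_lit 201), (nat_lit 0), (nat_lit 173013), [(nat_lit 3404055148), (nat_lit 4688000007), (nat_lit 6250000000)], [], [(nat_lit 23139439749), (nat_lit 25015948720), (nat_lit 20846837859), (nat_lit 22028082003), (nat_lit 33762283780), (nat_lit 35006124495), (nat_lit 29905967080), (nat_lit 31131700012)], (nat_lit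 1271251), (nat_lit 1271251), (nat_lit 169688), (nat_lit 490000), (nat_lit 1271251), (nat_lit 1271251), [(nat_lit 780000), (nat_lit 1100000), (nat_lit 1442501)], [(nat_lit 9), (nat_lit 50), (nat_lit 226), (nat_lit 20), (nat_lit 8)]⟩,
 ⟨⟨[(nat_lit 80), (nat_lit 100), (nat_lit 120)], [(nat_lit 0), (nat_lit 0), (nat_lit 511)], [((nat_lit 0), (nat_lit 0), (nat_lit 0)), ((nat_lit 0), (nat_lit 0), (nat_lit 0)), ((nat_lit 1000), (nat_lit 997), (nat_lit 383))], ((nat_lit 99), (nat_lit 100), (nat_lit 34))⟩, (nat_lit 2082423), (nat_lit 210), (nat_lit 210), (nat_lit 0), (nat_lit 201418), [(nat_lit 4688000000), (nat_lit 6250000000), (nat_lit 7968000000)], [], [(nat_lit 43868892998), (nat_lit 25844296141), (nat_lit 21086563408), (nat_lit 9672224851), (nat_lit 38676572034), (nat_lit 37595100213), (nat_lit 42019978562), (nat_lit 27451093178)], (nat_lit 1271251), (nat_lit 1271251), (nat_lit 169688), (nat_lit 490000), (nat_lit 780000), (nat_lit 2253751), [(nat_lit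 1100000), (nat_lit 1442501), (nat_lit 1271251)], [(nat_lit 16), (nat_lit 54), (nat_lit 317), (nat_lit 100), (nat_lit 10)]⟩,
 ⟨⟨[(nat_lit 140), (nat_lit 160), (nat_lit 180)], [(nat_lit 0), (nat_lit 0), (nat_lit 799)], [((nat_lit 0), (nat_lit 0), (nat_lit 0)), ((nat_lit 0), (nat_lit 0), (nat_lit 0)), ((nat_lit 728), (nat_lit 1000), (nat_lit 454))], ((nat_lit 100), (nat_lit 79), (nat_lit 37))⟩, (nat_lit 731872), (nat_lit 300), (nat_lit 819), (nat_lit 61808602), (nat_lit 1178954), [(nat_lit 8198386000), (nat_lit 9889376000), (nat_lit 11710314000)], [], [(nat_lit 39217420652), (nat_lit 37366725015), (nat_lit 40454418180), (nat_lit 38353617539), (nat_lit 35688129082), (nat_lit 33632981614), (nat_lit 37206924287), (nat_lit 35139054765)], (nat_lit 780000), (nat_lit 1271251), (nat_lit 1271251), (nat_lit 1271251), (nat_lit 780000), (nat_lit 2253751), [(nat_lit 1977501), (nat_lit 1271251), (nat_lit 1271251)], [(nat_lit 31), (nat_lit 65), (nat_lit 456), (nat_lit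 225), (nat_lit 10)]⟩⟩))) (.spl (nat_lit 1) (nat_lit 260) (.dle (nat_lit 0)) (.trZ (nat_lit 0) (nat_lit 1) (nat_lit 3) (nat_lit 100) (nat_lit 96) (nat_lit 69) (nat_lit 40) (.leaf ⟨(nat_lit 0), (nat_lit 772), (nat_lit 0), (nat_lit 228), (nat_lit 30654), (nat_lit 6760), (nat_lit 7587), (nat_lit 2516), (nat_lit 0), (nat_lit 0), (nat_lit 0), [], Pd.none, Pd.none, (nat_lit 0), (nat_lit 1), (nat_lit 0), (nat_lit 0), (nat_lit 7), (nat_lit 0), [⟨(nat_lit 0), (nat_lit 100), (nat_lit 95), (nat_lit 78), (nat_lit 17671201)⟩, ⟨(nat_lit 0), (nat_lit 100), (nat_lit 94), (nat_lit 88), (nat_lit 1547555064)⟩], [⟨(nat_lit 1), (nat_lit 68), (nat_lit 92), (nat_lit 100), (nat_lit 445122988)⟩], [], [],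
 ⟨⟨[(nat_lit 60), (nat_lit 100), (nat_lit 120)], [(nat_lit 0), (nat_lit 0), (nat_lit 1164)], [((nat_lit 0), (nat_lit 0), (nat_lit 0)), ((nat_lit 0), (nat_lit 0), (nat_lit 0)), ((nat_lit 1000), (nat_lit 933), (nat_lit 572))], ((nat_lit 92), (nat_lit 100), (nat_lit 44))⟩, (nat_lit 2773483), (nat_lit 177), (nat_lit 177), (nat_lit 0), (nat_lit 61577), [(nat_lit 3737874889), (nat_lit 6250000049), (nat_lit 7968000000)], [], [(nat_lit 24780367708), (nat_lit 26084432088), (nat_lit 22613233028), (nat_lit 23883486128), (nat_lit 32793488669), (nat_lit 33896940535), (nat_lit 30424368389), (nat_lit 31391876779)], (nat_lit 1271251), (nat_lit 1271251), (nat_lit 230000), (nat_lit 490000), (nat_lit 1271251), (nat_lit 1271251), [(nat_lit 780000), (nat_lit 1435001), (nat_lit 1271251)], [(nat_lit 10), (nat_lit 54), (nat_lit 226), (nat_lit 20), (nat_lit 7)]⟩,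
 ⟨⟨[(nat_lit 80), (nat_lit 100), (nat_lit 120)], [(nat_lit 0), (nat_lit 265), (nat_lit 768)], [((nat_lit 0), (nat_lit 0), (nat_lit 0)), ((nat_lit 1000), (nat_lit 959), (nat_lit 206)), ((nat_lit 1000), (nat_lit 958), (nat_lit 392))], ((nat_lit 96), (nat_lit 100), (nat_lit 44))⟩, (nat_lit 8357903), (nat_lit 245), (nat_lit 245), (nat_lit 0), (nat_lit 68501), [(nat_lit 4688000000), (nat_lit 6250000000), (nat_lit 7968000000)], [], [(nat_lit 18576876615), (nat_lit 21728469795), (nat_lit 15706410974), (nat_lit 17552976508), (nat_lit 23168290424), (nat_lit 25009223050), (nat_lit 20000101254), (nat_lit 21804378703)], (nat_lit 1271251), (nat_lit 1271251), (nat_lit 230000), (nat_lit 490000), (nat_lit 0), (nat_lit 2118750), [(nat_lit 1100000), (nat_lit 1442501), (nat_lit 1271251)], [(nat_lit 16), (nat_lit 54), (nat_lit 317), (nat_lit 100), (nat_lit 11)]⟩,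
 ⟨⟨[(nat_lit 140), (nat_lit 160), (nat_lit 180)], [(nat_lit 0), (nat_lit 0), (nat_lit 799)], [((nat_lit 0), (nat_lit 0), (nat_lit 0)), ((nat_lit 0), (nat_lit 0), (nat_lit 0)), ((nat_lit 728), (nat_lit 1000), (nat_lit 454))], ((nat_lit 100), (nat_lit 71), (nat_lit 48))⟩, (nat_lit 200320), (nat_lit 300), (nat_lit 681), (nat_lit 16917602), (nat_lit 684885), [(nat_lit 2243976000), (nat_lit 2706816000), (nat_lit 3205224000)], [], [(nat_lit 13523642680), (nat_lit 13087833430), (nat_lit 13938942504), (nat_lit 13432772261), (nat_lit 10823503274), (nat_lit 11151398759), (nat_lit 10951344535), (nat_lit 10436064825)], (nat_lit 780000), (nat_lit 1271251), (nat_lit 1271251), (nat_lit 1271251), (nat_lit 0), (nat_lit 2118750), [(nat_lit 1977501), (nat_lit 1271251), (nat_lit 1271251)], [(nat_lit 31), (nat_lit 65), (nat_lit 456), (nat_lit 225), (nat_lit 11)]⟩⟩)))))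
noncomputable def c6_18 : Tr Lf :=
 (.spl (nat_lit 5) (nat_lit 120) (.spl (nat_lit 1) (nat_lit 260) (.spl (nat_lit 6) (nat_lit 12) (.leaf ⟨(nat_lit 0), (nat_lit 791), (nat_lit 0), (nat_lit 209), (nat_lit 11044), (nat_lit 5650), (nat_lit 10020), (nat_lit 2522), (nat_lit 0), (nat_lit 0), (nat_lit 0), [], Pd.none, Pd.none, (nat_lit 0), (nat_lit 1), (nat_lit 0), (nat_lit 0), (nat_lit 7), (nat_lit 0), [], [⟨(nat_lit 1), (nat_lit 68), (nat_lit 92), (nat_lit 100), (nat_lit 311051099)⟩], [], [⟨(nat_lit 0), (nat_lit 88), (nat_lit 100), (nat_lit 21), (nat_lit 458829446)⟩],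
 ⟨⟨[(nat_lit 60), (nat_lit 80), (nat_lit 100)], [(nat_lit 0), (nat_lit 0), (nat_lit 534)], [((nat_lit 0), (nat_lit 0), (nat_lit 0)), ((nat_lit 0), (nat_lit 0), (nat_lit 0)), ((nat_lit 1000), (nat_lit 917), (nat_lit 393))], ((nat_lit 92), (nat_lit 100), (nat_lit 34))⟩, (nat_lit 3963587), (nat_lit 134), (nat_lit 134), (nat_lit 0), (nat_lit 101338), [(nat_lit 3282000077), (nat_lit 4688000031), (nat_lit 6250000000)], [], [(nat_lit 21441421719), (nat_lit 22580425019), (nat_lit 21571464894), (nat_lit 22647964782), (nat_lit 28295703892), (nat_lit 29260135788), (nat_lit 28052838794), (nat_lit 28972419388)], (nat_lit 1271251), (nat_lit 1271251), (nat_lit 490000), (nat_lit 780000), (nat_lit 1271251), (nat_lit 1271251), [(nat_lit 780000), (nat_lit 1100000), (nat_lit 1442501)], [(nat_lit 9), (nat_lit 50), (nat_lit 238), (nat_lit 30), (nat_lit 8)]⟩,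
 ⟨⟨[(nat_lit 80), (nat_lit 100), (nat_lit 120)], [(nat_lit 0), (nat_lit 0), (nat_lit 511)], [((nat_lit 0), (nat_lit 0), (nat_lit 0)), ((nat_lit 0), (nat_lit 0), (nat_lit 0)), ((nat_lit 1000), (nat_lit 997), (nat_lit 383))], ((nat_lit 99), (nat_lit 100), (nat_lit 34))⟩, (nat_lit 10614615), (nat_lit 235), (nat_lit 235), (nat_lit 0), (nat_lit 78552), [(nat_lit 4688000000), (nat_lit 6250000000), (nat_lit 7968000000)], [], [(nat_lit 13467604615), (nat_lit 16122380280), (nat_lit 13521272455), (nat_lit 16240092800), (nat_lit 7785919840), (nat_lit 9596333710), (nat_lit 10360312980), (nat_lit 9842484825)], (nat_lit 1271251), (nat_lit 1271251), (nat_lit 490000), (nat_lit 780000), (nat_lit 0), (nat_lit 780000), [(nat_lit 1100000), (nat_lit 1442501), (nat_lit 1271251)], [(nat_lit 16), (nat_lit 54), (nat_lit 272), (nat_lit 60), (nat_lit 9)]⟩,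
 ⟨⟨[(nat_lit 140), (nat_lit 160), (nat_lit 180)], [(nat_lit 0), (nat_lit 0), (nat_lit 799)], [((nat_lit 0), (nat_lit 0), (nat_lit 0)), ((nat_lit 0), (nat_lit 0), (nat_lit 0)), ((nat_lit 728), (nat_lit 1000), (nat_lit 454))], ((nat_lit 100), (nat_lit 79), (nat_lit 37))⟩, (nat_lit 183627), (nat_lit 300), (nat_lit 679), (nat_lit 15507801), (nat_lit 679598), [(nat_lit 2056978000), (nat_lit 2481248000), (nat_lit 2938122000)], [], [(nat_lit 12092208472), (nat_lit 11636527945), (nat_lit 12469067365), (nat_lit 11943977614), (nat_lit 10116410207), (nat_lit 9681837743), (nat_lit 10430991026), (nat_lit 9932246325)], (nat_lit 780000), (nat_lit 1271251), (nat_lit 1271251), (nat_lit 1271251), (nat_lit 0), (nat_lit 780000), [(nat_lit 1977501), (nat_lit 1271251), (nat_lit 1271251)], [(nat_lit 31), (nat_lit 65), (nat_lit 401), (nat_lit 175), (nat_lit 9)]⟩⟩) (.dle (nat_lit 0))) (.leaf ⟨(nat_lit 0), (nat_lit 865), (nat_lit 0), (nat_lit 135), (nat_lit 14931), (nat_lit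 7124), (nat_lit 7664), (nat_lit 1629), (nat_lit 0), (nat_lit 0), (nat_lit 0), [], Pd.none, Pd.none, (nat_lit 0), (nat_lit 1), (nat_lit 0), (nat_lit 0), (nat_lit 7), (nat_lit 0), [], [⟨(nat_lit 1), (nat_lit 68), (nat_lit 92), (nat_lit 100), (nat_lit 478691428)⟩], [], [⟨(nat_lit 0), (nat_lit 88), (nat_lit 100), (nat_lit 21), (nat_lit 220566687)⟩],
 ⟨⟨[(nat_lit 60), (nat_lit 100), (nat_lit 120)], [(nat_lit 0), (nat_lit 0), (nat_lit 1164)], [((nat_lit 0), (nat_lit 0), (nat_lit 0)), ((nat_lit 0), (nat_lit 0), (nat_lit 0)), ((nat_lit 1000), (nat_lit 933), (nat_lit 572))], ((nat_lit 92), (nat_lit 100), (nat_lit 44))⟩, (nat_lit 2308921), (nat_lit 181), (nat_lit 181), (nat_lit 0), (nat_lit 174328), [(nat_lit 3959823948), (nat_lit 6250000018), (nat_lit 7968000000)], [], [(nat_lit 22932379632), (nat_lit 24238667822), (nat_lit 22726451894), (nat_lit 23957846901), (nat_lit 30432680350), (nat_lit 31418731771), (nat_lit 29878972646), (nat_lit 30814273850)], (nat_lit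 1271251), (nat_lit 1271251), (nat_lit 490000), (nat_lit 780000), (nat_lit 1271251), (nat_lit 1271251), [(nat_lit 780000), (nat_lit 1435001), (nat_lit 1271251)], [(nat_lit 10), (nat_lit 54), (nat_lit 238), (nat_lit 30), (nat_lit 7)]⟩,
 ⟨⟨[(nat_lit 80), (nat_lit 100), (nat_lit 120)], [(nat_lit 0), (nat_lit 265), (nat_lit 768)], [((nat_lit 0), (nat_lit 0), (nat_lit 0)), ((nat_lit 1000), (nat_lit 959), (nat_lit 206)), ((nat_lit 1000), (nat_lit 958), (nat_lit 392))], ((nat_lit 96), (nat_lit 100), (nat_lit 44))⟩, (nat_lit 8544255), (nat_lit 229), (nat_lit 229), (nat_lit 0), (nat_lit 125145), [(nat_lit 4688000000), (nat_lit 6250000000), (nat_lit 7968000000)], [], [(nat_lit 15477822176), (nat_lit 17417419568), (nat_lit 15752268833), (nat_lit 17668437945), (nat_lit 11947377541), (nat_lit 13738811121), (nat_lit 12313923235), (nat_lit 13997565917)], (nat_lit 1271251), (nat_lit 1271251), (nat_lit 490000), (nat_lit 780000), (nat_lit 0), (nat_lit 780000), [(nat_lit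 1100000), (nat_lit 1442501), (nat_lit 1271251)], [(nat_lit 16), (nat_lit 54), (nat_lit 272), (nat_lit 60), (nat_lit 9)]⟩,
 ⟨⟨[(nat_lit 140), (nat_lit 160), (nat_lit 180)], [(nat_lit 0), (nat_lit 0), (nat_lit 799)], [((nat_lit 0), (nat_lit 0), (nat_lit 0)), ((nat_lit 0), (nat_lit 0), (nat_lit 0)), ((nat_lit 728), (nat_lit 1000), (nat_lit 454))], ((nat_lit 100), (nat_lit 71), (nat_lit 48))⟩, (nat_lit 118611), (nat_lit 300), (nat_lit 919), (nat_lit 10017000), (nat_lit 1185729), [(nat_lit 1328670000), (nat_lit 1602720000), (nat_lit 1897830000)], [], [(nat_lit 7846823340), (nat_lit 7516489235), (nat_lit 8054243478), (nat_lit 7715082873), (nat_lit 6648656148), (nat_lit 6328774328), (nat_lit 6737822604), (nat_lit 6415678593)], (nat_lit 780000), (nat_lit 1271251), (nat_lit 1271251), (nat_lit 1271251), (nat_lit 0), (nat_lit 780000), [(nat_lit 1977501), (nat_lit 1271251), (nat_lit 1271251)], [(nat_lit 31), (nat_lit 65), (nat_lit 401), (nat_lit 175), (nat_lit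 9)]⟩⟩)) (.stt (nat_lit 2) (.leaf ⟨(nat_lit 0), (nat_lit 914), (nat_lit 0), (nat_lit 86), (nat_lit 0), (nat_lit 7124), (nat_lit 7371), (nat_lit 922), (nat_lit 0), (nat_lit 0), (nat_lit 0), [], Pd.none, Pd.none, (nat_lit 0), (nat_lit 1), (nat_lit 0), (nat_lit 0), (nat_lit 7), (nat_lit 0), [], [], [], [⟨(nat_lit 2), (nat_lit 100), (nat_lit 81), (nat_lit 92), (nat_lit 45909440)⟩, ⟨(nat_lit 2), (nat_lit 100), (nat_lit 77), (nat_lit 77), (nat_lit 681272614)⟩],
 ⟨⟨[(nat_lit 60), (nat_lit 100), (nat_lit 120)], [(nat_lit 0), (nat_lit 0), (nat_lit 1164)], [((nat_lit 0), (nat_lit 0), (nat_lit 0)), ((nat_lit 0), (nat_lit 0), (nat_lit 0)), ((nat_lit 1000), (nat_lit 933), (nat_lit 572))], ((nat_lit 92), (nat_lit 100), (nat_lit 44))⟩, (nat_lit 2793860), (nat_lit 181), (nat_lit 181), (nat_lit 0), (nat_lit 174328), [(nat_lit 3776711166), (nat_lit 6250000010), (nat_lit 7968000000)], [], [(nat_lit 22367910636), (nat_lit 23674198826), (nat_lit 22161982898), (nat_lit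 23489812175), (nat_lit 30428339226), (nat_lit 31418731771), (nat_lit 29878972638), (nat_lit 30814273842)], (nat_lit 1271251), (nat_lit 1271251), (nat_lit 490000), (nat_lit 780000), (nat_lit 1271251), (nat_lit 1271251), [(nat_lit 780000), (nat_lit 1435001), (nat_lit 1271251)], [(nat_lit 10), (nat_lit 54), (nat_lit 238), (nat_lit 30), (nat_lit 7)]⟩,
 ⟨⟨[(nat_lit 80), (nat_lit 120), (nat_lit 140)], [(nat_lit 0), (nat_lit 0), (nat_lit 1164)], [((nat_lit 0), (nat_lit 0), (nat_lit 0)), ((nat_lit 0), (nat_lit 0), (nat_lit 0)), ((nat_lit 941), (nat_lit 1000), (nat_lit 576))], ((nat_lit 100), (nat_lit 99), (nat_lit 44))⟩, (nat_lit 0), (nat_lit 94), (nat_lit 94), (nat_lit 0), (nat_lit 0), [(nat_lit 4688000000), (nat_lit 7968000000), (nat_lit 9842000000)], [], [(nat_lit 6890003740), (nat_lit 11504167041), (nat_lit 7599321558), (nat_lit 11940498469), (nat_lit 22852320491), (nat_lit 25890798408), (nat_lit 22530067925), (nat_lit 25405731478)], (nat_lit 0), (nat_lit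 0), (nat_lit 0), (nat_lit 0), (nat_lit 0), (nat_lit 0), [], [(nat_lit 17), (nat_lit 58), (nat_lit 428), (nat_lit 200), (nat_lit 12)]⟩,
 ⟨⟨[(nat_lit 140), (nat_lit 160), (nat_lit 180)], [(nat_lit 0), (nat_lit 0), (nat_lit 799)], [((nat_lit 0), (nat_lit 0), (nat_lit 0)), ((nat_lit 0), (nat_lit 0), (nat_lit 0)), ((nat_lit 728), (nat_lit 1000), (nat_lit 454))], ((nat_lit 100), (nat_lit 71), (nat_lit 48))⟩, (nat_lit 75559), (nat_lit 300), (nat_lit 1190), (nat_lit 6381202), (nat_lit 1985062), [(nat_lit 846412000), (nat_lit 1020992000), (nat_lit 1208988000)], [], [(nat_lit 4841877584), (nat_lit 4652267598), (nat_lit 4714833548), (nat_lit 4520424911), (nat_lit 4307583441), (nat_lit 4113179976), (nat_lit 4215392869), (nat_lit 4016705834)], (nat_lit 780000), (nat_lit 1271251), (nat_lit 1271251), (nat_lit 1271251), (nat_lit 780000), (nat_lit 2581251), [(nat_lit 1977501), (nat_lit 1271251), (nat_lit 1271251)], [(nat_lit 31), (nat_lit 65), (nat_lit 456), (nat_lit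 225), (nat_lit 10)]⟩⟩) (.leaf ⟨(nat_lit 0), (nat_lit 469), (nat_lit 0), (nat_lit 531), (nat_lit 0), (nat_lit 7124), (nat_lit 14757), (nat_lit 5715), (nat_lit 0), (nat_lit 0), (nat_lit 0), [], Pd.none, Pd.none, (nat_lit 0), (nat_lit 1), (nat_lit 0), (nat_lit 0), (nat_lit 7), (nat_lit 0), [], [⟨(nat_lit 1), (nat_lit 68), (nat_lit 92), (nat_lit 100), (nat_lit 169559815)⟩], [], [],
 ⟨⟨[(nat_lit 60), (nat_lit 100), (nat_lit 120)], [(nat_lit 0), (nat_lit 0), (nat_lit 1164)], [((nat_lit 0), (nat_lit 0), (nat_lit 0)), ((nat_lit 0), (nat_lit 0), (nat_lit 0)), ((nat_lit 1000), (nat_lit 933), (nat_lit 572))], ((nat_lit 92), (nat_lit 100), (nat_lit 44))⟩, (nat_lit 2909312), (nat_lit 181), (nat_lit 181), (nat_lit 0), (nat_lit 174328), [(nat_lit 3851989123), (nat_lit 6250000004), (nat_lit 7968000000)], [], [(nat_lit 22233524508), (nat_lit 23674172722), (nat_lit 22131969718), (nat_lit 23489812169), (nat_lit 30428339220), (nat_lit 31418731771), (nat_lit 29878972632),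 (nat_lit 30814273836)], (nat_lit 1271251), (nat_lit 1271251), (nat_lit 490000), (nat_lit 780000), (nat_lit 1271251), (nat_lit 1271251), [(nat_lit 780000), (nat_lit 1435001), (nat_lit 1271251)], [(nat_lit 10), (nat_lit 54), (nat_lit 238), (nat_lit 30), (nat_lit 7)]⟩,
 ⟨⟨[(nat_lit 80), (nat_lit 120), (nat_lit 140)], [(nat_lit 0), (nat_lit 0), (nat_lit 1164)], [((nat_lit 0), (nat_lit 0), (nat_lit 0)), ((nat_lit 0), (nat_lit 0), (nat_lit 0)), ((nat_lit 941), (nat_lit 1000), (nat_lit 576))], ((nat_lit 100), (nat_lit 99), (nat_lit 44))⟩, (nat_lit 0), (nat_lit 203), (nat_lit 203), (nat_lit 0), (nat_lit 203412), [(nat_lit 4688000000), (nat_lit 7968000000), (nat_lit 9842000000)], [], [(nat_lit 36376465660), (nat_lit 21116709427), (nat_lit 21116709427), (nat_lit 18915860121), (nat_lit 39858775098), (nat_lit 32917709553), (nat_lit 44770425073), (nat_lit 31573162499)], (nat_lit 1271251), (nat_lit 1271251), (nat_lit 490000), (nat_lit 780000), (nat_lit 780000),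 (nat_lit 2581251), [(nat_lit 1100000), (nat_lit 1785001), (nat_lit 1271251)], [(nat_lit 17), (nat_lit 58), (nat_lit 428), (nat_lit 200), (nat_lit 12)]⟩,
 ⟨⟨[(nat_lit 140), (nat_lit 160), (nat_lit 180)], [(nat_lit 0), (nat_lit 0), (nat_lit 799)], [((nat_lit 0), (nat_lit 0), (nat_lit 0)), ((nat_lit 0), (nat_lit 0), (nat_lit 0)), ((nat_lit 728), (nat_lit 1000), (nat_lit 454))], ((nat_lit 100), (nat_lit 71), (nat_lit 48))⟩, (nat_lit 466536), (nat_lit 300), (nat_lit 822), (nat_lit 39400200), (nat_lit 1185729), [(nat_lit 5226102000), (nat_lit 6304032000), (nat_lit 7464798000)], [], [(nat_lit 28783797714), (nat_lit 27708139877), (nat_lit 28805698193), (nat_lit 27639435040), (nat_lit 26307584514), (nat_lit 25138650451), (nat_lit 25922570819), (nat_lit 24725574895)], (nat_lit 780000), (nat_lit 1271251), (nat_lit 1271251), (nat_lit 1271251), (nat_lit 780000), (nat_lit 2581251), [(nat_lit 1977501), (nat_lit 1271251), (nat_lit 1271251)], [(nat_lit 31), (nat_lit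 65), (nat_lit 456), (nat_lit 225), (nat_lit 10)]⟩⟩)))
noncomputable def c6_19 : Tr Lf :=
 (.trZ (nat_lit 0) (nat_lit 1) (nat_lit 3) (nat_lit 100) (nat_lit 100) (nat_lit 80) (nat_lit 60) (.spl (nat_lit 5) (nat_lit 160) (.spl (nat_lit 0) (nat_lit 290) (.ord (.spl (nat_lit 6) (nat_lit 20) (.spl (nat_lit 2) (nat_lit 160) (.trX (nat_lit 4) (nat_lit 0) (nat_lit 2) (nat_lit 94) (nat_lit 59) (nat_lit 100) (nat_lit 370) (.leaf ⟨(nat_lit 0), (nat_lit 908), (nat_lit 0), (nat_lit 92), (nat_lit 10624), (nat_lit 7149), (nat_lit 9287), (nat_lit 1066), (nat_lit 7830778578772), (nat_lit 0), (nat_lit 0), [], Pd.none, Pd.none, (nat_lit 0), (nat_lit 1), (nat_lit 0), (nat_lit 0), (nat_lit 7), (nat_lit 0), [⟨(nat_lit 0), (nat_lit 100), (nat_lit 100), (nat_lit 85), (nat_lit 840984011)⟩], [⟨(nat_lit 1), (nat_lit 71), (nat_lit 95), (nat_lit 100), (nat_lit 559723003)⟩], [], [],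
 ⟨⟨[(nat_lit 60), (nat_lit 100), (nat_lit 120)], [(nat_lit 0), (nat_lit 0), (nat_lit 1164)], [((nat_lit 0), (nat_lit 0), (nat_lit 0)), ((nat_lit 0), (nat_lit 0), (nat_lit 0)), ((nat_lit 1000), (nat_lit 933), (nat_lit 572))], ((nat_lit 92), (nat_lit 100), (nat_lit 44))⟩, (nat_lit 2375588), (nat_lit 192), (nat_lit 192), (nat_lit 0), (nat_lit 175318), [(nat_lit 3732648822), (nat_lit 6250000003), (nat_lit 7968000000)], [], [(nat_lit 24002986898), (nat_lit 24666151008), (nat_lit 22629951494), (nat_lit 23246782113), (nat_lit 30796766690), (nat_lit 31321269813), (nat_lit 29034189917), (nat_lit 29523870169)], (nat_lit 1271251), (nat_lit 1271251), (nat_lit 356250), (nat_lit 780000), (nat_lit 1271251), (nat_lit 1271251), [(nat_lit 780000), (nat_lit 1435001), (nat_lit 1271251)], [(nat_lit 10), (nat_lit 54), (nat_lit 238), (nat_lit 30), (nat_lit 7)]⟩,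
 ⟨⟨[(nat_lit 60), (nat_lit 100), (nat_lit 120)], [(nat_lit 0), (nat_lit 0), (nat_lit 1164)], [((nat_lit 0), (nat_lit 0), (nat_lit 0)), ((nat_lit 0), (nat_lit 0), (nat_lit 0)), ((nat_lit 1000), (nat_lit 933), (nat_lit 572))], ((nat_lit 92), (nat_lit 100), (nat_lit 44))⟩, (nat_lit 3630946), (nat_lit 256), (nat_lit 256), (nat_lit 0), (nat_lit 175318), [(nat_lit 3282000000), (nat_lit 6250000000), (nat_lit 7968000000)], [], [(nat_lit 22644228088), (nat_lit 23723351997), (nat_lit 21108004364), (nat_lit 22104608721), (nat_lit 17309655792), (nat_lit 18194322841), (nat_lit 21004550214), (nat_lit 18830732837)], (nat_lit 1271251), (nat_lit 1271251), (nat_lit 356250), (nat_lit 780000), (nat_lit 0), (nat_lit 1100000), [(nat_lit 780000), (nat_lit 1435001), (nat_lit 1271251)], [(nat_lit 10), (nat_lit 54), (nat_lit 289), (nat_lit 75), (nat_lit 10)]⟩,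
 ⟨⟨[(nat_lit 140), (nat_lit 160), (nat_lit 180)], [(nat_lit 0), (nat_lit 0), (nat_lit 799)], [((nat_lit 0), (nat_lit 0), (nat_lit 0)), ((nat_lit 0), (nat_lit 0), (nat_lit 0)), ((nat_lit 728), (nat_lit 1000), (nat_lit 454))], ((nat_lit 100), (nat_lit 71), (nat_lit 48))⟩, (nat_lit 80831), (nat_lit 300), (nat_lit 1252), (nat_lit 6826401), (nat_lit 1939332), [(nat_lit 905464000), (nat_lit 1092224000), (nat_lit 1293336000)], [], [(nat_lit 5477838912), (nat_lit 5316870956), (nat_lit 5528763845), (nat_lit 5362994223), (nat_lit 4524133124), (nat_lit 4370333656), (nat_lit 4504478259), (nat_lit 4341942630)], (nat_lit 780000), (nat_lit 1100000), (nat_lit 1271251), (nat_lit 1271251), (nat_lit 0), (nat_lit 1100000), [(nat_lit 1977501), (nat_lit 1271251), (nat_lit 1271251)], [(nat_lit 31), (nat_lit 65), (nat_lit 401), (nat_lit 175), (nat_lit 9)]⟩⟩)) (.leaf ⟨(nat_lit 0), (nat_lit 676), (nat_lit 0), (nat_lit 324), (nat_lit 0), (nat_lit 5674), (nat_lit 5721), (nat_lit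 3295), (nat_lit 8372659556256), (nat_lit 0), (nat_lit 0), [], Pd.none, Pd.none, (nat_lit 0), (nat_lit 1), (nat_lit 0), (nat_lit 0), (nat_lit 7), (nat_lit 0), [⟨(nat_lit 0), (nat_lit 100), (nat_lit 100), (nat_lit 85), (nat_lit 773233727)⟩], [⟨(nat_lit 1), (nat_lit 56), (nat_lit 92), (nat_lit 100), (nat_lit 269336368)⟩], [⟨(nat_lit 0), (nat_lit 100), (nat_lit 92), (nat_lit 29), (nat_lit 46598689)⟩, ⟨(nat_lit 0), (nat_lit 100), (nat_lit 94), (nat_lit 21), (nat_lit 223404024)⟩], [],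
 ⟨⟨[(nat_lit 60), (nat_lit 100), (nat_lit 120)], [(nat_lit 0), (nat_lit 0), (nat_lit 1164)], [((nat_lit 0), (nat_lit 0), (nat_lit 0)), ((nat_lit 0), (nat_lit 0), (nat_lit 0)), ((nat_lit 1000), (nat_lit 933), (nat_lit 572))], ((nat_lit 92), (nat_lit 100), (nat_lit 44))⟩, (nat_lit 2314556), (nat_lit 182), (nat_lit 182), (nat_lit 0), (nat_lit 129992), [(nat_lit 3282000323), (nat_lit 6250000007), (nat_lit 7968000000)], [], [(nat_lit 24669197283), (nat_lit 25258100490), (nat_lit 23996305485), (nat_lit 24489578521), (nat_lit 31361539859), (nat_lit 31816429599), (nat_lit 30134176985), (nat_lit 30561602050)], (nat_lit 1271251), (nat_lit 1271251), (nat_lit 356250), (nat_lit 780000), (nat_lit 1271251), (nat_lit 1271251), [(nat_lit 780000), (nat_lit 1435001), (nat_lit 1271251)], [(nat_lit 10), (nat_lit 54), (nat_lit 238), (nat_lit 30), (nat_lit 7)]⟩,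
 ⟨⟨[(nat_lit 60), (nat_lit 100), (nat_lit 120)], [(nat_lit 0), (nat_lit 0), (nat_lit 1164)], [((nat_lit 0), (nat_lit 0), (nat_lit 0)), ((nat_lit 0), (nat_lit 0), (nat_lit 0)), ((nat_lit 1000), (nat_lit 933), (nat_lit 572))], ((nat_lit 92), (nat_lit 100), (nat_lit 44))⟩, (nat_lit 3645503), (nat_lit 229), (nat_lit 229), (nat_lit 0), (nat_lit 129992), [(nat_lit 3282000000), (nat_lit 6250000000), (nat_lit 7968000000)], [], [(nat_lit 20634247997), (nat_lit 21660135879), (nat_lit 20064156196), (nat_lit 20921325473), (nat_lit 18639509346), (nat_lit 19407256336), (nat_lit 18441934889), (nat_lit 19154141119)], (nat_lit 1271251), (nat_lit 1271251), (nat_lit 356250), (nat_lit 780000), (nat_lit 0), (nat_lit 1100000), [(nat_lit 780000), (nat_lit 1435001), (nat_lit 1271251)], [(nat_lit 10), (nat_lit 54), (nat_lit 289), (nat_lit 75), (nat_lit 10)]⟩,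
 ⟨⟨[(nat_lit 120), (nat_lit 160), (nat_lit 180)], [(nat_lit 0), (nat_lit 0), (nat_lit 1613)], [((nat_lit 0), (nat_lit 0), (nat_lit 0)), ((nat_lit 0), (nat_lit 0), (nat_lit 0)), ((nat_lit 620), (nat_lit 1000), (nat_lit 670))], ((nat_lit 100), (nat_lit 81), (nat_lit 44))⟩, (nat_lit 141009), (nat_lit 300), (nat_lit 696), (nat_lit 24040803), (nat_lit 768965), [(nat_lit 2581632000), (nat_lit 3846528000), (nat_lit 4554792000)], [], [(nat_lit 19568640674), (nat_lit 19427331529), (nat_lit 19713555357), (nat_lit 19568894923), (nat_lit 16752343037), (nat_lit 16611220567), (nat_lit 16812562141), (nat_lit 16649898754)], (nat_lit 1100000), (nat_lit 1271251), (nat_lit 1271251), (nat_lit 1271251), (nat_lit 0), (nat_lit 1100000), [(nat_lit 1695001), (nat_lit 1271251), (nat_lit 1271251)], [(nat_lit 28), (nat_lit 65), (nat_lit 428), (nat_lit 200), (nat_lit 10)]⟩⟩)) (.dle (nat_lit 0)))) (.trZ (nat_lit 0) (nat_lit 1) (nat_lit 3) (nat_lit 100) (nat_lit 97) (nat_lit 84)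 (nat_lit 70) (.trX (nat_lit 4) (nat_lit 0) (nat_lit 2) (nat_lit 90) (nat_lit 54) (nat_lit 100) (nat_lit 370) (.spl (nat_lit 6) (nat_lit 20) (.leaf ⟨(nat_lit 0), (nat_lit 895), (nat_lit 0), (nat_lit 105), (nat_lit 242), (nat_lit 6230), (nat_lit 9626), (nat_lit 1180), (nat_lit 242994), (nat_lit 0), (nat_lit 0), [], Pd.none, Pd.none, (nat_lit 0), (nat_lit 1), (nat_lit 0), (nat_lit 0), (nat_lit 7), (nat_lit 0), [⟨(nat_lit 0), (nat_lit 100), (nat_lit 99), (nat_lit 92), (nat_lit 774017729)⟩], [⟨(nat_lit 1), (nat_lit 54), (nat_lit 90), (nat_lit 100), (nat_lit 487136888)⟩], [], [],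
 ⟨⟨[(nat_lit 60), (nat_lit 80), (nat_lit 100)], [(nat_lit 0), (nat_lit 151), (nat_lit 679)], [((nat_lit 0), (nat_lit 0), (nat_lit 0)), ((nat_lit 1000), (nat_lit 953), (nat_lit 118)), ((nat_lit 1000), (nat_lit 894), (nat_lit 411))], ((nat_lit 89), (nat_lit 100), (nat_lit 44))⟩, (nat_lit 2102371), (nat_lit 178), (nat_lit 178), (nat_lit 0), (nat_lit 251097), [(nat_lit 3282000072), (nat_lit 4688000014), (nat_lit 6250000000)], [], [(nat_lit 23800930376), (nat_lit 24302112635), (nat_lit 23443149621), (nat_lit 23911877266), (nat_lit 29195102248), (nat_lit 29806947482), (nat_lit 28438986553), (nat_lit 28830466395)], (nat_lit 1271251), (nat_lit 1271251), (nat_lit 422188), (nat_lit 780000), (nat_lit 1271251), (nat_lit 1271251), [(nat_lit 780000), (nat_lit 1100000), (nat_lit 1442501)], [(nat_lit 9), (nat_lit 50), (nat_lit 238), (nat_lit 30), (nat_lit 8)]⟩,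
 ⟨⟨[(nat_lit 60), (nat_lit 100), (nat_lit 120)], [(nat_lit 0), (nat_lit 0), (nat_lit 1164)], [((nat_lit 0), (nat_lit 0), (nat_lit 0)), ((nat_lit 0), (nat_lit 0), (nat_lit 0)), ((nat_lit 1000), (nat_lit 933), (nat_lit 572))], ((nat_lit 92), (nat_lit 100), (nat_lit 44))⟩, (nat_lit 3660723), (nat_lit 282), (nat_lit 282), (nat_lit 0), (nat_lit 253656), [(nat_lit 3282000000), (nat_lit 6250000000), (nat_lit 7968000000)], [], [(nat_lit 21563027515), (nat_lit 24664056308), (nat_lit 20714144672), (nat_lit 22755999546), (nat_lit 16392067849), (nat_lit 17844175223), (nat_lit 20272215972), (nat_lit 16962693336)], (nat_lit 1271251), (nat_lit 1271251), (nat_lit 422188), (nat_lit 780000), (nat_lit 0), (nat_lit 1100000), [(nat_lit 780000), (nat_lit 1435001), (nat_lit 1271251)], [(nat_lit 10), (nat_lit 54), (nat_lit 289), (nat_lit 75), (nat_lit 10)]⟩,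
 ⟨⟨[(nat_lit 140), (nat_lit 160), (nat_lit 180)], [(nat_lit 0), (nat_lit 0), (nat_lit 799)], [((nat_lit 0), (nat_lit 0), (nat_lit 0)), ((nat_lit 0), (nat_lit 0), (nat_lit 0)), ((nat_lit 728), (nat_lit 1000), (nat_lit 454))], ((nat_lit 100), (nat_lit 71), (nat_lit 48))⟩, (nat_lit 92253), (nat_lit 300), (nat_lit 1747), (nat_lit 7791000), (nat_lit 3004354), [(nat_lit 1033410000), (nat_lit 1246560000), (nat_lit 1476090000)], [], [(nat_lit 6365273180), (nat_lit 6125659613), (nat_lit 6366171490), (nat_lit 6126950257), (nat_lit 5364431190), (nat_lit 5124818753), (nat_lit 5293137773), (nat_lit 5051399610)], (nat_lit 780000), (nat_lit 1271251), (nat_lit 1271251), (nat_lit 1271251), (nat_lit 0), (nat_lit 1100000), [(nat_lit 1977501), (nat_lit 1271251), (nat_lit 1271251)], [(nat_lit 31), (nat_lit 65), (nat_lit 526), (nat_lit 200), (nat_lit 12)]⟩⟩) (.leaf ⟨(nat_lit 0), (nat_lit 919), (nat_lit 0), (nat_lit 81), (nat_lit 27826), (nat_lit 6621), (nat_lit 5620),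 (nat_lit 1018), (nat_lit 10249137575833), (nat_lit 0), (nat_lit 0), [], Pd.none, Pd.none, (nat_lit 0), (nat_lit 1), (nat_lit 0), (nat_lit 0), (nat_lit 7), (nat_lit 0), [⟨(nat_lit 0), (nat_lit 100), (nat_lit 99), (nat_lit 92), (nat_lit 715771113)⟩], [⟨(nat_lit 1), (nat_lit 70), (nat_lit 91), (nat_lit 100), (nat_lit 557090861)⟩], [⟨(nat_lit 0), (nat_lit 100), (nat_lit 92), (nat_lit 22), (nat_lit 17225562)⟩], [],
 ⟨⟨[(nat_lit 60), (nat_lit 100), (nat_lit 120)], [(nat_lit 0), (nat_lit 302), (nat_lit 1376)], [((nat_lit 0), (nat_lit 0), (nat_lit 0)), ((nat_lit 1000), (nat_lit 953), (nat_lit 118)), ((nat_lit 1000), (nat_lit 911), (nat_lit 628))], ((nat_lit 90), (nat_lit 100), (nat_lit 58))⟩, (nat_lit 2527036), (nat_lit 156), (nat_lit 156), (nat_lit 0), (nat_lit 84710), [(nat_lit 3662836170), (nat_lit 6250000011), (nat_lit 7968000000)], [], [(nat_lit 23608918331), (nat_lit 24241332054), (nat_lit 22910001871), (nat_lit 23502901088), (nat_lit 29888049339),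 (nat_lit 30391953416), (nat_lit 28876302391), (nat_lit 29350008200)], (nat_lit 1271251), (nat_lit 1271251), (nat_lit 422188), (nat_lit 780000), (nat_lit 1271251), (nat_lit 1271251), [(nat_lit 780000), (nat_lit 1435001), (nat_lit 1271251)], [(nat_lit 10), (nat_lit 54), (nat_lit 238), (nat_lit 30), (nat_lit 7)]⟩,
 ⟨⟨[(nat_lit 60), (nat_lit 100), (nat_lit 120)], [(nat_lit 0), (nat_lit 0), (nat_lit 1164)], [((nat_lit 0), (nat_lit 0), (nat_lit 0)), ((nat_lit 0), (nat_lit 0), (nat_lit 0)), ((nat_lit 1000), (nat_lit 933), (nat_lit 572))], ((nat_lit 93), (nat_lit 100), (nat_lit 58))⟩, (nat_lit 3459943), (nat_lit 221), (nat_lit 221), (nat_lit 0), (nat_lit 86252), [(nat_lit 3282000000), (nat_lit 6250000000), (nat_lit 7968000000)], [], [(nat_lit 20287464908), (nat_lit 22115897748), (nat_lit 20183288120), (nat_lit 21880360240), (nat_lit 18509475190), (nat_lit 20017091610), (nat_lit 18647630580), (nat_lit 20058181950)], (nat_lit 1271251), (nat_lit 1271251), (nat_lit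 422188), (nat_lit 780000), (nat_lit 0), (nat_lit 1100000), [(nat_lit 780000), (nat_lit 1435001), (nat_lit 1271251)], [(nat_lit 10), (nat_lit 54), (nat_lit 289), (nat_lit 75), (nat_lit 10)]⟩,
 ⟨⟨[(nat_lit 140), (nat_lit 180), (nat_lit 200)], [(nat_lit 0), (nat_lit 0), (nat_lit 2835)], [((nat_lit 0), (nat_lit 0), (nat_lit 0)), ((nat_lit 0), (nat_lit 0), (nat_lit 0)), ((nat_lit 363), (nat_lit 1000), (nat_lit 798))], ((nat_lit 0), (nat_lit 0), (nat_lit 0))⟩, (nat_lit 22286), (nat_lit 300), (nat_lit 884), (nat_lit 6326100), (nat_lit 967195), [(nat_lit 797202000), (nat_lit 1138698000), (nat_lit 1328400000)], [], [(nat_lit 5508870396), (nat_lit 5280688154), (nat_lit 5528494824), (nat_lit 5283554544), (nat_lit 4477632422), (nat_lit 4262411069), (nat_lit 4477460169), (nat_lit 4246790381)], (nat_lit 780000), (nat_lit 1271251), (nat_lit 1271251), (nat_lit 1271251), (nat_lit 0), (nat_lit 1100000), [(nat_lit 1977501), (nat_lit 1271251), (nat_lit 1271251)], [(nat_lit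 32), (nat_lit 67), (nat_lit 428), (nat_lit 200), (nat_lit 9)]⟩⟩))))) (.stt (nat_lit 3) (.leaf ⟨(nat_lit 0), (nat_lit 0), (nat_lit 0), (nat_lit 1000), (nat_lit 317), (nat_lit 9359), (nat_lit 11760), (nat_lit 12677), (nat_lit 322444366285), (nat_lit 0), (nat_lit 0), [], Pd.none, Pd.none, (nat_lit 0), (nat_lit 1), (nat_lit 0), (nat_lit 0), (nat_lit 0), (nat_lit 0), [⟨(nat_lit 0), (nat_lit 100), (nat_lit 100), (nat_lit 90), (nat_lit 855248736)⟩], [⟨(nat_lit 1), (nat_lit 68), (nat_lit 92), (nat_lit 100), (nat_lit 215603784)⟩], [], [],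
 ⟨⟨[(nat_lit 60), (nat_lit 100), (nat_lit 120)], [(nat_lit 0), (nat_lit 0), (nat_lit 1164)], [((nat_lit 0), (nat_lit 0), (nat_lit 0)), ((nat_lit 0), (nat_lit 0), (nat_lit 0)), ((nat_lit 1000), (nat_lit 933), (nat_lit 572))], ((nat_lit 93), (nat_lit 100), (nat_lit 58))⟩, (nat_lit 0), (nat_lit 237), (nat_lit 237), (nat_lit 0), (nat_lit 257616), [(nat_lit 4729582518), (nat_lit 6250000028), (nat_lit 7968000000)], [], [(nat_lit 25945076483), (nat_lit 27425285582), (nat_lit 23993662658), (nat_lit 25158370902), (nat_lit 35432594327), (nat_lit 36880199564), (nat_lit 32099589387), (nat_lit 33460150371)], (nat_lit 1271251), (nat_lit 1271251), (nat_lit 356250), (nat_lit 780000), (nat_lit 1271251), (nat_lit 1271251), [(nat_lit 780000), (nat_lit 1435001), (nat_lit 1271251)], [(nat_lit 10), (nat_lit 54), (nat_lit 238), (nat_lit 30), (nat_lit 7)]⟩,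
 ⟨⟨[(nat_lit 60), (nat_lit 100), (nat_lit 120)], [(nat_lit 0), (nat_lit 0), (nat_lit 1164)], [((nat_lit 0), (nat_lit 0), (nat_lit 0)), ((nat_lit 0), (nat_lit 0), (nat_lit 0)), ((nat_lit 1000), (nat_lit 933), (nat_lit 572))], ((nat_lit 93), (nat_lit 100), (nat_lit 58))⟩, (nat_lit 372770), (nat_lit 207), (nat_lit 207), (nat_lit 0), (nat_lit 257616), [(nat_lit 3282000000), (nat_lit 6250000000), (nat_lit 7968000000)], [], [(nat_lit 16869771640), (nat_lit 19372934530), (nat_lit 14490860840), (nat_lit 16798359400), (nat_lit 32789430380), (nat_lit 34840834725), (nat_lit 30902906060), (nat_lit 30686676990)], (nat_lit 1271251), (nat_lit 1271251), (nat_lit 356250), (nat_lit 780000), (nat_lit 1100000), (nat_lit 2641251), [(nat_lit 780000), (nat_lit 1435001), (nat_lit 1271251)], [(nat_lit 10), (nat_lit 54), (nat_lit 345), (nat_lit 125), (nat_lit 11)]⟩,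
 ⟨⟨[(nat_lit 140), (nat_lit 180), (nat_lit 200)], [(nat_lit 0), (nat_lit 0), (nat_lit 2835)], [((nat_lit 0), (nat_lit 0), (nat_lit 0)), ((nat_lit 0), (nat_lit 0), (nat_lit 0)), ((nat_lit 363), (nat_lit 1000), (nat_lit 798))], ((nat_lit 0), (nat_lit 0), (nat_lit 0))⟩, (nat_lit 2274834), (nat_lit 253), (nat_lit 253), (nat_lit 0), (nat_lit 0), [(nat_lit 9842000000), (nat_lit 14058000000), (nat_lit 16400000000)], [], [(nat_lit 34690813332), (nat_lit 33650008097), (nat_lit 42505934743), (nat_lit 41019502658), (nat_lit 40393806634), (nat_lit 38793514544), (nat_lit 45887405487), (nat_lit 43636031512)], (nat_lit 0), (nat_lit 0), (nat_lit 0), (nat_lit 0), (nat_lit 0), (nat_lit 0), [], [(nat_lit 32), (nat_lit 67), (nat_lit 456), (nat_lit 225), (nat_lit 9)]⟩⟩) (.spl (nat_lit 6) (nat_lit 20) (.spl (nat_lit 0) (nat_lit 290) (.ord (.leaf ⟨(nat_lit 0), (nat_lit 891), (nat_lit 0), (nat_lit 109), (nat_lit 0), (nat_lit 6981), (nat_lit 7962), (nat_lit 1191), (nat_lit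 5082577000049), (nat_lit 0), (nat_lit 0), [], Pd.none, Pd.none, (nat_lit 0), (nat_lit 1), (nat_lit 0), (nat_lit 0), (nat_lit 7), (nat_lit 0), [⟨(nat_lit 0), (nat_lit 100), (nat_lit 100), (nat_lit 85), (nat_lit 276112929)⟩], [], [], [⟨(nat_lit 2), (nat_lit 100), (nat_lit 78), (nat_lit 85), (nat_lit 659211157)⟩],
 ⟨⟨[(nat_lit 60), (nat_lit 100), (nat_lit 120)], [(nat_lit 0), (nat_lit 0), (nat_lit 1164)], [((nat_lit 0), (nat_lit 0), (nat_lit 0)), ((nat_lit 0), (nat_lit 0), (nat_lit 0)), ((nat_lit 1000), (nat_lit 933), (nat_lit 572))], ((nat_lit 92), (nat_lit 100), (nat_lit 44))⟩, (nat_lit 2853515), (nat_lit 177), (nat_lit 177), (nat_lit 0), (nat_lit 115977), [(nat_lit 3866071294), (nat_lit 6250000018), (nat_lit 7968000000)], [], [(nat_lit 23514468626), (nat_lit 24169205485), (nat_lit 22250055772), (nat_lit 22921445885), (nat_lit 31659271856), (nat_lit 32154784381), (nat_lit 29904141075), (nat_lit 30367824607)], (nat_lit 1271251), (nat_lit 1271251), (nat_lit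 356250), (nat_lit 780000), (nat_lit 1271251), (nat_lit 1271251), [(nat_lit 780000), (nat_lit 1435001), (nat_lit 1271251)], [(nat_lit 10), (nat_lit 54), (nat_lit 238), (nat_lit 30), (nat_lit 7)]⟩,
 ⟨⟨[(nat_lit 60), (nat_lit 100), (nat_lit 120)], [(nat_lit 0), (nat_lit 0), (nat_lit 1164)], [((nat_lit 0), (nat_lit 0), (nat_lit 0)), ((nat_lit 0), (nat_lit 0), (nat_lit 0)), ((nat_lit 1000), (nat_lit 933), (nat_lit 572))], ((nat_lit 92), (nat_lit 100), (nat_lit 44))⟩, (nat_lit 3584808), (nat_lit 158), (nat_lit 158), (nat_lit 0), (nat_lit 115977), [(nat_lit 3282000000), (nat_lit 6250000000), (nat_lit 7968000000)], [], [(nat_lit 16005280490), (nat_lit 16963084412), (nat_lit 14882723660), (nat_lit 15864735083), (nat_lit 28203165450), (nat_lit 29004135571), (nat_lit 26131952310), (nat_lit 26716366792)], (nat_lit 1271251), (nat_lit 1271251), (nat_lit 356250), (nat_lit 780000), (nat_lit 1100000), (nat_lit 2641251), [(nat_lit 780000), (nat_lit 1435001), (nat_lit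 1271251)], [(nat_lit 10), (nat_lit 54), (nat_lit 345), (nat_lit 125), (nat_lit 11)]⟩,
 ⟨⟨[(nat_lit 140), (nat_lit 160), (nat_lit 180)], [(nat_lit 0), (nat_lit 0), (nat_lit 799)], [((nat_lit 0), (nat_lit 0), (nat_lit 0)), ((nat_lit 0), (nat_lit 0), (nat_lit 0)), ((nat_lit 728), (nat_lit 1000), (nat_lit 454))], ((nat_lit 100), (nat_lit 71), (nat_lit 48))⟩, (nat_lit 95767), (nat_lit 300), (nat_lit 1149), (nat_lit 8087801), (nat_lit 1939332), [(nat_lit 1072778000), (nat_lit 1294048000), (nat_lit 1532322000)], [], [(nat_lit 5789338224), (nat_lit 5543806244), (nat_lit 5650268802), (nat_lit 5399109851), (nat_lit 5319889328), (nat_lit 5074509921), (nat_lit 5266197511), (nat_lit 5015706946)], (nat_lit 780000), (nat_lit 1271251), (nat_lit 1271251), (nat_lit 1271251), (nat_lit 1100000), (nat_lit 2641251), [(nat_lit 1977501), (nat_lit 1271251), (nat_lit 1271251)], [(nat_lit 31), (nat_lit 65), (nat_lit 456), (nat_lit 225), (nat_lit 10)]⟩⟩)) (.trZ (nat_lit 0) (nat_lit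 1) (nat_lit 3) (nat_lit 100) (nat_lit 97) (nat_lit 84) (nat_lit 70) (.trX (nat_lit 4) (nat_lit 0) (nat_lit 2) (nat_lit 90) (nat_lit 54) (nat_lit 100) (nat_lit 370) (.leaf ⟨(nat_lit 0), (nat_lit 928), (nat_lit 0), (nat_lit 72), (nat_lit 0), (nat_lit 5833), (nat_lit 7960), (nat_lit 787), (nat_lit 373463), (nat_lit 0), (nat_lit 0), [], Pd.none, Pd.none, (nat_lit 0), (nat_lit 1), (nat_lit 0), (nat_lit 0), (nat_lit 7), (nat_lit 0), [⟨(nat_lit 0), (nat_lit 100), (nat_lit 99), (nat_lit 92), (nat_lit 159833821)⟩], [], [], [⟨(nat_lit 2), (nat_lit 100), (nat_lit 81), (nat_lit 83), (nat_lit 672640683)⟩],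
 ⟨⟨[(nat_lit 60), (nat_lit 80), (nat_lit 100)], [(nat_lit 0), (nat_lit 151), (nat_lit 679)], [((nat_lit 0), (nat_lit 0), (nat_lit 0)), ((nat_lit 1000), (nat_lit 953), (nat_lit 118)), ((nat_lit 1000), (nat_lit 894), (nat_lit 411))], ((nat_lit 89), (nat_lit 100), (nat_lit 44))⟩, (nat_lit 3485769), (nat_lit 155), (nat_lit 155), (nat_lit 0), (nat_lit 166833), [(nat_lit 3282000023), (nat_lit 4827765748), (nat_lit 6250000000)], [], [(nat_lit 21847865677), (nat_lit 22498568224), (nat_lit 21554346814), (nat_lit 22100787541), (nat_lit 28620081924), (nat_lit 29212964475), (nat_lit 27613008491), (nat_lit 28175022269)], (nat_lit 1271251), (nat_lit 1271251), (nat_lit 422188), (nat_lit 780000), (nat_lit 1271251), (nat_lit 1271251), [(nat_lit 780000), (nat_lit 1100000), (nat_lit 1442501)], [(nat_lit 9), (nat_lit 50), (nat_lit 238), (nat_lit 30), (nat_lit 8)]⟩,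
 ⟨⟨[(nat_lit 60), (nat_lit 100), (nat_lit 120)], [(nat_lit 0), (nat_lit 0), (nat_lit 1164)], [((nat_lit 0), (nat_lit 0), (nat_lit 0)), ((nat_lit 0), (nat_lit 0), (nat_lit 0)), ((nat_lit 1000), (nat_lit 933), (nat_lit 572))], ((nat_lit 92), (nat_lit 100), (nat_lit 44))⟩, (nat_lit 3351595), (nat_lit 169), (nat_lit 169), (nat_lit 0), (nat_lit 168038), [(nat_lit 3282000000), (nat_lit 6250000000), (nat_lit 7968000000)], [], [(nat_lit 15643470830), (nat_lit 17544461465), (nat_lit 15074547940), (nat_lit 16848854480), (nat_lit 27326133890), (nat_lit 28920981692), (nat_lit 26132889800), (nat_lit 27359305790)], (nat_lit 1271251), (nat_lit 1271251), (nat_lit 422188), (nat_lit 780000), (nat_lit 1100000), (nat_lit 2641251), [(nat_lit 780000), (nat_lit 1435001), (nat_lit 1271251)], [(nat_lit 10), (nat_lit 54), (nat_lit 345), (nat_lit 125), (nat_lit 11)]⟩,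
 ⟨⟨[(nat_lit 140), (nat_lit 160), (nat_lit 180)], [(nat_lit 0), (nat_lit 0), (nat_lit 799)], [((nat_lit 0), (nat_lit 0), (nat_lit 0)), ((nat_lit 0), (nat_lit 0), (nat_lit 0)), ((nat_lit 728), (nat_lit 1000), (nat_lit 454))], ((nat_lit 100), (nat_lit 71), (nat_lit 48))⟩, (nat_lit 63259), (nat_lit 300), (nat_lit 1654), (nat_lit 5342401), (nat_lit 3004354), [(nat_lit 708624000), (nat_lit 854784000), (nat_lit 1012176000)], [], [(nat_lit 3823674848), (nat_lit 3664384124), (nat_lit 3734868916), (nat_lit 3569732592), (nat_lit 3512412624), (nat_lit 3350604492), (nat_lit 3471657777), (nat_lit 3307658013)], (nat_lit 780000), (nat_lit 1271251), (nat_lit 1271251), (nat_lit 1271251), (nat_lit 1100000), (nat_lit 2641251), [(nat_lit 1977501), (nat_lit 1271251), (nat_lit 1271251)], [(nat_lit 31), (nat_lit 65), (nat_lit 525), (nat_lit 225), (nat_lit 12)]⟩⟩)))) (.leaf ⟨(nat_lit 0), (nat_lit 73), (nat_lit 0), (nat_lit 927), (nat_lit 0), (nat_lit 7972), (nat_lit 16193),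 (nat_lit 9688), (nat_lit 36685271669357), (nat_lit 0), (nat_lit 0), [], Pd.none, Pd.none, (nat_lit 0), (nat_lit 1), (nat_lit 0), (nat_lit 0), (nat_lit 7), (nat_lit 0), [⟨(nat_lit 0), (nat_lit 100), (nat_lit 100), (nat_lit 100), (nat_lit 1097994598)⟩], [], [], [],
 ⟨⟨[(nat_lit 60), (nat_lit 100), (nat_lit 120)], [(nat_lit 0), (nat_lit 0), (nat_lit 1164)], [((nat_lit 0), (nat_lit 0), (nat_lit 0)), ((nat_lit 0), (nat_lit 0), (nat_lit 0)), ((nat_lit 1000), (nat_lit 933), (nat_lit 572))], ((nat_lit 93), (nat_lit 100), (nat_lit 58))⟩, (nat_lit 2751131), (nat_lit 160), (nat_lit 160), (nat_lit 0), (nat_lit 57327), [(nat_lit 4542128461), (nat_lit 6250000697), (nat_lit 7968000000)], [], [(nat_lit 23233770642), (nat_lit 24642968995), (nat_lit 21570631030), (nat_lit 22878896601), (nat_lit 33159477303), (nat_lit 34484626477), (nat_lit 30483804818), (nat_lit 31732338118)], (nat_lit 1271251), (nat_lit 1271251), (nat_lit 356250), (nat_lit 780000), (nat_lit 1271251),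 (nat_lit 1271251), [(nat_lit 780000), (nat_lit 1435001), (nat_lit 1271251)], [(nat_lit 10), (nat_lit 54), (nat_lit 238), (nat_lit 30), (nat_lit 7)]⟩,
 ⟨⟨[(nat_lit 60), (nat_lit 100), (nat_lit 120)], [(nat_lit 0), (nat_lit 0), (nat_lit 1164)], [((nat_lit 0), (nat_lit 0), (nat_lit 0)), ((nat_lit 0), (nat_lit 0), (nat_lit 0)), ((nat_lit 1000), (nat_lit 933), (nat_lit 572))], ((nat_lit 93), (nat_lit 100), (nat_lit 58))⟩, (nat_lit 0), (nat_lit 144), (nat_lit 144), (nat_lit 0), (nat_lit 57327), [(nat_lit 3282000000), (nat_lit 6250000000), (nat_lit 7968000000)], [], [(nat_lit 13948537503), (nat_lit 17688914127), (nat_lit 10198907841), (nat_lit 13128438312), (nat_lit 38142487894), (nat_lit 40718503710), (nat_lit 32172668633), (nat_lit 34568318182)], (nat_lit 1271251), (nat_lit 1271251), (nat_lit 356250), (nat_lit 780000), (nat_lit 1100000), (nat_lit 2641251), [(nat_lit 780000), (nat_lit 1435001), (nat_lit 1271251)], [(nat_lit 10), (nat_lit 54), (nat_lit 345),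 (nat_lit 125), (nat_lit 11)]⟩,
 ⟨⟨[(nat_lit 140), (nat_lit 180), (nat_lit 200)], [(nat_lit 0), (nat_lit 0), (nat_lit 2835)], [((nat_lit 0), (nat_lit 0), (nat_lit 0)), ((nat_lit 0), (nat_lit 0), (nat_lit 0)), ((nat_lit 363), (nat_lit 1000), (nat_lit 798))], ((nat_lit 0), (nat_lit 0), (nat_lit 0))⟩, (nat_lit 255048), (nat_lit 300), (nat_lit 755), (nat_lit 72398700), (nat_lit 967195), [(nat_lit 9123534000), (nat_lit 13031766000), (nat_lit 15202800000)], [], [(nat_lit 57532539020), (nat_lit 55525913592), (nat_lit 57041591858), (nat_lit 54917410570), (nat_lit 54249007061), (nat_lit 52127972368), (nat_lit 53252334418), (nat_lit 51044829921)], (nat_lit 780000), (nat_lit 1271251), (nat_lit 1271251), (nat_lit 1271251), (nat_lit 1100000), (nat_lit 2641251), [(nat_lit 1977501), (nat_lit 1271251), (nat_lit 1271251)], [(nat_lit 32), (nat_lit 67), (nat_lit 456), (nat_lit 225), (nat_lit 9)]⟩⟩)))))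
noncomputable def c6_20 : Tr Lf :=
 (.spl (nat_lit 6) (nat_lit 24) (.spl (nat_lit 1) (nat_lit 280) (.spl (nat_lit 6) (nat_lit 16) (.leaf ⟨(nat_lit 0), (nat_lit 0), (nat_lit 0), (nat_lit 1000), (nat_lit 31254), (nat_lit 6958), (nat_lit 10463), (nat_lit 10984), (nat_lit 0), (nat_lit 0), (nat_lit 0), [], Pd.none, Pd.none, (nat_lit 0), (nat_lit 1), (nat_lit 0), (nat_lit 0), (nat_lit 0), (nat_lit 0), [⟨(nat_lit 0), (nat_lit 100), (nat_lit 94), (nat_lit 73), (nat_lit 1663974857)⟩], [], [⟨(nat_lit 0), (nat_lit 100), (nat_lit 95), (nat_lit 30), (nat_lit 337373479)⟩], [],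
 ⟨⟨[(nat_lit 60), (nat_lit 80), (nat_lit 100)], [(nat_lit 0), (nat_lit 0), (nat_lit 534)], [((nat_lit 0), (nat_lit 0), (nat_lit 0)), ((nat_lit 0), (nat_lit 0), (nat_lit 0)), ((nat_lit 1000), (nat_lit 917), (nat_lit 393))], ((nat_lit 92), (nat_lit 100), (nat_lit 39))⟩, (nat_lit 4354660), (nat_lit 206), (nat_lit 206), (nat_lit 0), (nat_lit 161039), [(nat_lit 3454274261), (nat_lit 4688000002), (nat_lit 6250000000)], [], [(nat_lit 23170629958), (nat_lit 25052116493), (nat_lit 20784822206), (nat_lit 21899827463), (nat_lit 36119805160), (nat_lit 37238745733), (nat_lit 31409833318), (nat_lit 32462803307)], (nat_lit 1271251), (nat_lit 1271251), (nat_lit 169688), (nat_lit 780000), (nat_lit 1271251), (nat_lit 1271251), [(nat_lit 780000), (nat_lit 1100000), (nat_lit 1442501)], [(nat_lit 9), (nat_lit 50), (nat_lit 238), (nat_lit 30), (nat_lit 8)]⟩,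
 ⟨⟨[(nat_lit 80), (nat_lit 100), (nat_lit 120)], [(nat_lit 0), (nat_lit 0), (nat_lit 511)], [((nat_lit 0), (nat_lit 0), (nat_lit 0)), ((nat_lit 0), (nat_lit 0), (nat_lit 0)), ((nat_lit 1000), (nat_lit 997), (nat_lit 383))], ((nat_lit 100), (nat_lit 100), (nat_lit 40))⟩, (nat_lit 7780115), (nat_lit 283), (nat_lit 283), (nat_lit 0), (nat_lit 186959), [(nat_lit 4688000000), (nat_lit 6250000000), (nat_lit 7968000000)], [], [(nat_lit 41772749417), (nat_lit 30912879980), (nat_lit 25006798412), (nat_lit 19948207724), (nat_lit 45174194459), (nat_lit 35787085785), (nat_lit 52074716820), (nat_lit 42951362720)], (nat_lit 1271251), (nat_lit 1271251), (nat_lit 169688), (nat_lit 780000), (nat_lit 0), (nat_lit 2401251), [(nat_lit 1100000), (nat_lit 1442501), (nat_lit 1271251)], [(nat_lit 16), (nat_lit 54), (nat_lit 345), (nat_lit 125), (nat_lit 12)]⟩,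
 ⟨⟨[(nat_lit 120), (nat_lit 140), (nat_lit 160)], [(nat_lit 0), (nat_lit 266), (nat_lit 862)], [((nat_lit 0), (nat_lit 0), (nat_lit 0)), ((nat_lit 960), (nat_lit 1000), (nat_lit 200)), ((nat_lit 874), (nat_lit 1000), (nat_lit 406))], ((nat_lit 100), (nat_lit 88), (nat_lit 39))⟩, (nat_lit 2052632), (nat_lit 300), (nat_lit 553), (nat_lit 66400000), (nat_lit 610040), [(nat_lit 7968000000), (nat_lit 9842000000), (nat_lit 11872000000)], [], [(nat_lit 45495925764), (nat_lit 45109034732), (nat_lit 49523977368), (nat_lit 49089026120), (nat_lit 41212786154), (nat_lit 35316323284), (nat_lit 39491451350), (nat_lit 39445848674)], (nat_lit 1271251), (nat_lit 1271251), (nat_lit 1271251), (nat_lit 1271251), (nat_lit 0), (nat_lit 2401251), [(nat_lit 1695001), (nat_lit 1271251), (nat_lit 1271251)], [(nat_lit 27), (nat_lit 62), (nat_lit 483), (nat_lit 250), (nat_lit 12)]⟩⟩) (.dle (nat_lit 0))) (.trZ (nat_lit 0) (nat_lit 1) (nat_lit 3) (nat_lit 100) (nat_lit 100) (nat_lit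 80) (nat_lit 60) (.leaf ⟨(nat_lit 0), (nat_lit 351), (nat_lit 0), (nat_lit 649), (nat_lit 0), (nat_lit 7440), (nat_lit 9662), (nat_lit 6366), (nat_lit 88643), (nat_lit 0), (nat_lit 0), [], Pd.none, Pd.none, (nat_lit 0), (nat_lit 1), (nat_lit 0), (nat_lit 0), (nat_lit 7), (nat_lit 0), [⟨(nat_lit 0), (nat_lit 100), (nat_lit 100), (nat_lit 90), (nat_lit 1347422912)⟩], [], [⟨(nat_lit 0), (nat_lit 100), (nat_lit 92), (nat_lit 31), (nat_lit 234666552)⟩], [],
 ⟨⟨[(nat_lit 60), (nat_lit 100), (nat_lit 120)], [(nat_lit 0), (nat_lit 0), (nat_lit 1164)], [((nat_lit 0), (nat_lit 0), (nat_lit 0)), ((nat_lit 0), (nat_lit 0), (nat_lit 0)), ((nat_lit 1000), (nat_lit 933), (nat_lit 572))], ((nat_lit 92), (nat_lit 100), (nat_lit 48))⟩, (nat_lit 2578552), (nat_lit 241), (nat_lit 241), (nat_lit 0), (nat_lit 239325), [(nat_lit 3841697796), (nat_lit 6250000005), (nat_lit 7968000000)], [], [(nat_lit 25767522250), (nat_lit 26914344210), (nat_lit 24541948610), (nat_lit 25603626910),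 (nat_lit 34644982340), (nat_lit 35792169150), (nat_lit 32067002240), (nat_lit 33152432760)], (nat_lit 1271251), (nat_lit 1271251), (nat_lit 356250), (nat_lit 780000), (nat_lit 1271251), (nat_lit 1271251), [(nat_lit 780000), (nat_lit 1435001), (nat_lit 1271251)], [(nat_lit 10), (nat_lit 54), (nat_lit 238), (nat_lit 30), (nat_lit 7)]⟩,
 ⟨⟨[(nat_lit 60), (nat_lit 100), (nat_lit 120)], [(nat_lit 0), (nat_lit 0), (nat_lit 1164)], [((nat_lit 0), (nat_lit 0), (nat_lit 0)), ((nat_lit 0), (nat_lit 0), (nat_lit 0)), ((nat_lit 1000), (nat_lit 933), (nat_lit 572))], ((nat_lit 92), (nat_lit 100), (nat_lit 48))⟩, (nat_lit 3330679), (nat_lit 286), (nat_lit 286), (nat_lit 0), (nat_lit 239325), [(nat_lit 3282000000), (nat_lit 6250000000), (nat_lit 7968000000)], [], [(nat_lit 32403037844), (nat_lit 27370121368), (nat_lit 20876897350), (nat_lit 22719339702), (nat_lit 31037464720), (nat_lit 32059118161), (nat_lit 36201580457), (nat_lit 31935867845)], (nat_lit 1271251),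 (nat_lit 1271251), (nat_lit 356250), (nat_lit 780000), (nat_lit 0), (nat_lit 2401251), [(nat_lit 780000), (nat_lit 1435001), (nat_lit 1271251)], [(nat_lit 10), (nat_lit 54), (nat_lit 345), (nat_lit 125), (nat_lit 12)]⟩,
 ⟨⟨[(nat_lit 120), (nat_lit 140), (nat_lit 160)], [(nat_lit 0), (nat_lit 266), (nat_lit 862)], [((nat_lit 0), (nat_lit 0), (nat_lit 0)), ((nat_lit 960), (nat_lit 1000), (nat_lit 200)), ((nat_lit 874), (nat_lit 1000), (nat_lit 406))], ((nat_lit 100), (nat_lit 83), (nat_lit 48))⟩, (nat_lit 1332159), (nat_lit 300), (nat_lit 741), (nat_lit 43093600), (nat_lit 1026478), [(nat_lit 5171232000), (nat_lit 6387458000), (nat_lit 7704928000)], [], [(nat_lit 32455874220), (nat_lit 32071125952), (nat_lit 33468836376), (nat_lit 32934992864), (nat_lit 27173276824), (nat_lit 25942408715), (nat_lit 26715881687), (nat_lit 26160312989)], (nat_lit 1271251), (nat_lit 1271251), (nat_lit 1271251), (nat_lit 1271251), (nat_lit 0), (nat_lit 2401251), [(nat_lit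 1695001), (nat_lit 1271251), (nat_lit 1271251)], [(nat_lit 27), (nat_lit 62), (nat_lit 483), (nat_lit 250), (nat_lit 12)]⟩⟩))) (.dle (nat_lit 0)))
noncomputable def c6_21 : Tr Lf :=
 (.ord (.spl (nat_lit 6) (nat_lit 32) (.spl (nat_lit 4) (nat_lit 280) (.stt (nat_lit 3) (.leaf ⟨(nat_lit 0), (nat_lit 0), (nat_lit 629), (nat_lit 371), (nat_lit 5485), (nat_lit 11032), (nat_lit 1753), (nat_lit 9972), (nat_lit 0), (nat_lit 932474), (nat_lit 0), [], Pd.none, Pd.none, (nat_lit 0), (nat_lit 1), (nat_lit 0), (nat_lit 0), (nat_lit 0), (nat_lit 6), [⟨(nat_lit 0), (nat_lit 100), (nat_lit 94), (nat_lit 73), (nat_lit 363207892)⟩], [], [], [],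
 ⟨⟨[(nat_lit 60), (nat_lit 100), (nat_lit 120)], [(nat_lit 0), (nat_lit 0), (nat_lit 1164)], [((nat_lit 0), (nat_lit 0), (nat_lit 0)), ((nat_lit 0), (nat_lit 0), (nat_lit 0)), ((nat_lit 1000), (nat_lit 933), (nat_lit 572))], ((nat_lit 93), (nat_lit 100), (nat_lit 55))⟩, (nat_lit 2665547), (nat_lit 259), (nat_lit 259), (nat_lit 0), (nat_lit 320892), [(nat_lit 3282000371), (nat_lit 6250000049), (nat_lit 7968000000)], [], [(nat_lit 17893790692), (nat_lit 20510341501), (nat_lit 13418501909), (nat_lit 15183312948), (nat_lit 27863258340), (nat_lit 29963700083), (nat_lit 34564103577), (nat_lit 29599044415)], (nat_lit 1271251), (nat_lit 1271251), (nat_lit 169688), (nat_lit 780000), (nat_lit 780000), (nat_lit 2090001), [(nat_lit 780000), (nat_lit 1435001), (nat_lit 1271251)], [(nat_lit 10), (nat_lit 54), (nat_lit 317), (nat_lit 100), (nat_lit 10)]⟩,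
 ⟨⟨[(nat_lit 80), (nat_lit 120), (nat_lit 140)], [(nat_lit 0), (nat_lit 0), (nat_lit 1164)], [((nat_lit 0), (nat_lit 0), (nat_lit 0)), ((nat_lit 0), (nat_lit 0), (nat_lit 0)), ((nat_lit 941), (nat_lit 1000), (nat_lit 576))], ((nat_lit 100), (nat_lit 95), (nat_lit 55))⟩, (nat_lit 966488), (nat_lit 461), (nat_lit 461), (nat_lit 0), (nat_lit 369360), [(nat_lit 1739248000), (nat_lit 2956128000), (nat_lit 3651382000)], [], [(nat_lit 17158436141), (nat_lit 16969010037), (nat_lit 16068591028), (nat_lit 16533422990), (nat_lit 18328956081), (nat_lit 18482719576), (nat_lit 20048923206), (nat_lit 18548604132)], (nat_lit 1271251), (nat_lit 1271251), (nat_lit 169688), (nat_lit 780000), (nat_lit 0), (nat_lit 2825001), [(nat_lit 1100000), (nat_lit 1785001), (nat_lit 1271251)], [(nat_lit 17), (nat_lit 58), (nat_lit 428), (nat_lit 200), (nat_lit 13)]⟩,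
 ⟨⟨[(nat_lit 100), (nat_lit 140), (nat_lit 160)], [(nat_lit 0), (nat_lit 508), (nat_lit 1689)], [((nat_lit 0), (nat_lit 0), (nat_lit 0)), ((nat_lit 1000), (nat_lit 1000), (nat_lit 198)), ((nat_lit 811), (nat_lit 1000), (nat_lit 671))], ((nat_lit 100), (nat_lit 89), (nat_lit 55))⟩, (nat_lit 5700750), (nat_lit 236), (nat_lit 236), (nat_lit 0), (nat_lit 0), [(nat_lit 6250000000), (nat_lit 9842000000), (nat_lit 11872000000)], [], [(nat_lit 22127908616), (nat_lit 26944260052), (nat_lit 28765627606), (nat_lit 32490796160), (nat_lit 32521267762), (nat_lit 35519184212), (nat_lit 34659396726), (nat_lit 36515208084)], (nat_lit 0), (nat_lit 0), (nat_lit 0), (nat_lit 0), (nat_lit 0), (nat_lit 0), [], [(nat_lit 23), (nat_lit 62), (nat_lit 483), (nat_lit 250), (nat_lit 13)]⟩⟩) (.spl (nat_lit 2) (nat_lit 260) (.spl (nat_lit 6) (nat_lit 24) (.spl (nat_lit 5) (nat_lit 120) (.spl (nat_lit 0) (nat_lit 290) (.leaf ⟨(nat_lit 0), (nat_lit 89), (nat_lit 845), (nat_lit 66),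 (nat_lit 8145), (nat_lit 10173), (nat_lit 1827), (nat_lit 5026), (nat_lit 0), (nat_lit 20147), (nat_lit 0), [], Pd.none, Pd.none, (nat_lit 0), (nat_lit 1), (nat_lit 0), (nat_lit 0), (nat_lit 5), (nat_lit 6), [⟨(nat_lit 0), (nat_lit 100), (nat_lit 95), (nat_lit 71), (nat_lit 339563017)⟩], [], [], [],
 ⟨⟨[(nat_lit 60), (nat_lit 100), (nat_lit 120)], [(nat_lit 0), (nat_lit 0), (nat_lit 1164)], [((nat_lit 0), (nat_lit 0), (nat_lit 0)), ((nat_lit 0), (nat_lit 0), (nat_lit 0)), ((nat_lit 1000), (nat_lit 933), (nat_lit 572))], ((nat_lit 92), (nat_lit 100), (nat_lit 48))⟩, (nat_lit 3862156), (nat_lit 183), (nat_lit 183), (nat_lit 0), (nat_lit 106696), [(nat_lit 4294302733), (nat_lit 6250000017), (nat_lit 7968000000)], [], [(nat_lit 16792045640), (nat_lit 18026649201), (nat_lit 12252634200), (nat_lit 13368399847), (nat_lit 26513180663), (nat_lit 27720638421), (nat_lit 20386617789), (nat_lit 21492198217)], (nat_lit 1271251), (nat_lit 1271251), (nat_lit 169688),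 (nat_lit 780000), (nat_lit 780000), (nat_lit 2090001), [(nat_lit 780000), (nat_lit 1435001), (nat_lit 1271251)], [(nat_lit 10), (nat_lit 54), (nat_lit 317), (nat_lit 100), (nat_lit 10)]⟩,
 ⟨⟨[(nat_lit 80), (nat_lit 120), (nat_lit 140)], [(nat_lit 0), (nat_lit 0), (nat_lit 1164)], [((nat_lit 0), (nat_lit 0), (nat_lit 0)), ((nat_lit 0), (nat_lit 0), (nat_lit 0)), ((nat_lit 941), (nat_lit 1000), (nat_lit 576))], ((nat_lit 100), (nat_lit 98), (nat_lit 48))⟩, (nat_lit 693140), (nat_lit 331), (nat_lit 331), (nat_lit 0), (nat_lit 115759), [(nat_lit 726640000), (nat_lit 1235040000), (nat_lit 1525510000)], [], [(nat_lit 6916144893), (nat_lit 5020196237), (nat_lit 5991241450), (nat_lit 4257277771), (nat_lit 6036055155), (nat_lit 4319379235), (nat_lit 7019291104), (nat_lit 5353243410)], (nat_lit 1271251), (nat_lit 1271251), (nat_lit 169688), (nat_lit 780000), (nat_lit 0), (nat_lit 780000), [(nat_lit 1100000), (nat_lit 1785001), (nat_lit 1271251)], [(nat_lit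 17), (nat_lit 58), (nat_lit 373), (nat_lit 150), (nat_lit 11)]⟩,
 ⟨⟨[(nat_lit 100), (nat_lit 120), (nat_lit 140)], [(nat_lit 0), (nat_lit 254), (nat_lit 778)], [((nat_lit 0), (nat_lit 0), (nat_lit 0)), ((nat_lit 1000), (nat_lit 1000), (nat_lit 198)), ((nat_lit 960), (nat_lit 1000), (nat_lit 392))], ((nat_lit 100), (nat_lit 93), (nat_lit 48))⟩, (nat_lit 1678535), (nat_lit 300), (nat_lit 330), (nat_lit 56937501), (nat_lit 290698), [(nat_lit 5693750000), (nat_lit 7258848000), (nat_lit 8966062000)], [], [(nat_lit 34670553105), (nat_lit 35951565208), (nat_lit 37578420125), (nat_lit 38456126999), (nat_lit 32338328896), (nat_lit 33486797625), (nat_lit 34954728408), (nat_lit 35741542511)], (nat_lit 1271251), (nat_lit 1271251), (nat_lit 780000), (nat_lit 2090001), (nat_lit 0), (nat_lit 780000), [(nat_lit 1412501), (nat_lit 1271251), (nat_lit 1271251)], [(nat_lit 22), (nat_lit 58), (nat_lit 401), (nat_lit 175), (nat_lit 12)]⟩⟩) (.trZ (nat_lit 0) (nat_lit 1)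 (nat_lit 3) (nat_lit 100) (nat_lit 91) (nat_lit 63) (nat_lit 40) (.leaf ⟨(nat_lit 0), (nat_lit 206), (nat_lit 711), (nat_lit 83), (nat_lit 9515), (nat_lit 8935), (nat_lit 3470), (nat_lit 4904), (nat_lit 0), (nat_lit 6074), (nat_lit 0), [], Pd.none, Pd.none, (nat_lit 0), (nat_lit 1), (nat_lit 0), (nat_lit 0), (nat_lit 5), (nat_lit 6), [⟨(nat_lit 0), (nat_lit 100), (nat_lit 92), (nat_lit 75), (nat_lit 419689409)⟩], [], [], [],
 ⟨⟨[(nat_lit 60), (nat_lit 100), (nat_lit 120)], [(nat_lit 0), (nat_lit 302), (nat_lit 1376)], [((nat_lit 0), (nat_lit 0), (nat_lit 0)), ((nat_lit 1000), (nat_lit 953), (nat_lit 118)), ((nat_lit 1000), (nat_lit 911), (nat_lit 628))], ((nat_lit 89), (nat_lit 100), (nat_lit 48))⟩, (nat_lit 3903516), (nat_lit 174), (nat_lit 174), (nat_lit 0), (nat_lit 122251), [(nat_lit 4091808223), (nat_lit 6250000008), (nat_lit 7968000000)], [], [(nat_lit 16701515321), (nat_lit 17820999817), (nat_lit 13587031456), (nat_lit 14608315285), (nat_lit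 25366198737), (nat_lit 26465073497), (nat_lit 21066206595), (nat_lit 22079281032)], (nat_lit 1271251), (nat_lit 1271251), (nat_lit 230000), (nat_lit 780000), (nat_lit 780000), (nat_lit 2090001), [(nat_lit 780000), (nat_lit 1435001), (nat_lit 1271251)], [(nat_lit 10), (nat_lit 54), (nat_lit 317), (nat_lit 100), (nat_lit 10)]⟩,
 ⟨⟨[(nat_lit 80), (nat_lit 120), (nat_lit 140)], [(nat_lit 0), (nat_lit 0), (nat_lit 1164)], [((nat_lit 0), (nat_lit 0), (nat_lit 0)), ((nat_lit 0), (nat_lit 0), (nat_lit 0)), ((nat_lit 941), (nat_lit 1000), (nat_lit 576))], ((nat_lit 100), (nat_lit 98), (nat_lit 48))⟩, (nat_lit 975536), (nat_lit 330), (nat_lit 330), (nat_lit 0), (nat_lit 137951), [(nat_lit 1354832000), (nat_lit 2302752000), (nat_lit 2844338000)], [], [(nat_lit 12031614160), (nat_lit 9406768574), (nat_lit 11133383928), (nat_lit 7897933509), (nat_lit 11298366738), (nat_lit 8048848803), (nat_lit 13069130868), (nat_lit 9904825723)], (nat_lit 1271251), (nat_lit 1271251),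 (nat_lit 230000), (nat_lit 780000), (nat_lit 0), (nat_lit 780000), [(nat_lit 1100000), (nat_lit 1785001), (nat_lit 1271251)], [(nat_lit 17), (nat_lit 58), (nat_lit 373), (nat_lit 150), (nat_lit 11)]⟩,
 ⟨⟨[(nat_lit 100), (nat_lit 120), (nat_lit 140)], [(nat_lit 0), (nat_lit 254), (nat_lit 778)], [((nat_lit 0), (nat_lit 0), (nat_lit 0)), ((nat_lit 1000), (nat_lit 1000), (nat_lit 198)), ((nat_lit 960), (nat_lit 1000), (nat_lit 392))], ((nat_lit 100), (nat_lit 93), (nat_lit 48))⟩, (nat_lit 1462961), (nat_lit 300), (nat_lit 359), (nat_lit 49625000), (nat_lit 353469), [(nat_lit 4962500000), (nat_lit 6326592000), (nat_lit 7814548000)], [], [(nat_lit 30745034476), (nat_lit 31798288372), (nat_lit 32972237254), (nat_lit 33671173068), (nat_lit 28319949271), (nat_lit 29256846384), (nat_lit 30291999707), (nat_lit 30911285300)], (nat_lit 1271251), (nat_lit 1271251), (nat_lit 780000), (nat_lit 2090001), (nat_lit 0), (nat_lit 780000), [(nat_lit 1412501), (nat_lit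 1271251), (nat_lit 1271251)], [(nat_lit 22), (nat_lit 58), (nat_lit 401), (nat_lit 175), (nat_lit 12)]⟩⟩))) (.leaf ⟨(nat_lit 0), (nat_lit 0), (nat_lit 0), (nat_lit 1000), (nat_lit 14759), (nat_lit 9571), (nat_lit 3903), (nat_lit 7538), (nat_lit 0), (nat_lit 1726245), (nat_lit 0), [], Pd.none, Pd.none, (nat_lit 0), (nat_lit 1), (nat_lit 0), (nat_lit 0), (nat_lit 0), (nat_lit 0), [⟨(nat_lit 0), (nat_lit 100), (nat_lit 94), (nat_lit 73), (nat_lit 1152607076)⟩], [], [], [],
 ⟨⟨[(nat_lit 60), (nat_lit 100), (nat_lit 120)], [(nat_lit 0), (nat_lit 0), (nat_lit 1164)], [((nat_lit 0), (nat_lit 0), (nat_lit 0)), ((nat_lit 0), (nat_lit 0), (nat_lit 0)), ((nat_lit 1000), (nat_lit 933), (nat_lit 572))], ((nat_lit 92), (nat_lit 100), (nat_lit 48))⟩, (nat_lit 4111770), (nat_lit 184), (nat_lit 184), (nat_lit 0), (nat_lit 123315), [(nat_lit 4835731371), (nat_lit 6250000912), (nat_lit 7968000000)], [], [(nat_lit 16705516055), (nat_lit 19338073579), (nat_lit 12804286967),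 (nat_lit 15182389880), (nat_lit 25887297140), (nat_lit 28202329532), (nat_lit 20224454340), (nat_lit 22345649757)], (nat_lit 1271251), (nat_lit 1271251), (nat_lit 169688), (nat_lit 780000), (nat_lit 780000), (nat_lit 2090001), [(nat_lit 780000), (nat_lit 1435001), (nat_lit 1271251)], [(nat_lit 10), (nat_lit 54), (nat_lit 317), (nat_lit 100), (nat_lit 10)]⟩,
 ⟨⟨[(nat_lit 80), (nat_lit 120), (nat_lit 140)], [(nat_lit 0), (nat_lit 0), (nat_lit 1164)], [((nat_lit 0), (nat_lit 0), (nat_lit 0)), ((nat_lit 0), (nat_lit 0), (nat_lit 0)), ((nat_lit 941), (nat_lit 1000), (nat_lit 576))], ((nat_lit 100), (nat_lit 98), (nat_lit 48))⟩, (nat_lit 2794376), (nat_lit 249), (nat_lit 249), (nat_lit 0), (nat_lit 137951), [(nat_lit 4688000000), (nat_lit 7968000000), (nat_lit 9842000000)], [], [(nat_lit 36427916977), (nat_lit 37482930946), (nat_lit 35456364743), (nat_lit 36922669692), (nat_lit 44421834013), (nat_lit 45293969908), (nat_lit 48476687594), (nat_lit 45052460798)],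 (nat_lit 1271251), (nat_lit 1271251), (nat_lit 169688), (nat_lit 780000), (nat_lit 780000), (nat_lit 3072501), [(nat_lit 1100000), (nat_lit 1785001), (nat_lit 1271251)], [(nat_lit 17), (nat_lit 58), (nat_lit 428), (nat_lit 200), (nat_lit 12)]⟩,
 ⟨⟨[(nat_lit 100), (nat_lit 120), (nat_lit 140)], [(nat_lit 0), (nat_lit 254), (nat_lit 778)], [((nat_lit 0), (nat_lit 0), (nat_lit 0)), ((nat_lit 1000), (nat_lit 1000), (nat_lit 198)), ((nat_lit 960), (nat_lit 1000), (nat_lit 392))], ((nat_lit 100), (nat_lit 93), (nat_lit 48))⟩, (nat_lit 1842520), (nat_lit 300), (nat_lit 360), (nat_lit 62500000), (nat_lit 543083), [(nat_lit 6250000000), (nat_lit 7968000000), (nat_lit 9842000000)], [], [(nat_lit 32594121894), (nat_lit 33822193462), (nat_lit 37869985749), (nat_lit 35626782813), (nat_lit 50196891852), (nat_lit 43322963269), (nat_lit 67966242856), (nat_lit 61433849746)], (nat_lit 1271251), (nat_lit 1271251), (nat_lit 780000), (nat_lit 2090001), (nat_lit 780000),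 (nat_lit 3072501), [(nat_lit 1412501), (nat_lit 1271251), (nat_lit 1271251)], [(nat_lit 22), (nat_lit 58), (nat_lit 483), (nat_lit 250), (nat_lit 14)]⟩⟩)) (.dle (nat_lit 0))) (.ord (.trZ (nat_lit 0) (nat_lit 1) (nat_lit 3) (nat_lit 100) (nat_lit 96) (nat_lit 69) (nat_lit 40) (.trZ (nat_lit 1) (nat_lit 2) (nat_lit 5) (nat_lit 100) (nat_lit 100) (nat_lit 60) (nat_lit 30) (.leaf ⟨(nat_lit 0), (nat_lit 0), (nat_lit 0), (nat_lit 1000), (nat_lit 21573), (nat_lit 10756), (nat_lit 1782), (nat_lit 7763), (nat_lit 0), (nat_lit 6807038844896), (nat_lit 0), [], Pd.none, Pd.none, (nat_lit 0), (nat_lit 1), (nat_lit 0), (nat_lit 0), (nat_lit 0), (nat_lit 0), [⟨(nat_lit 0), (nat_lit 100), (nat_lit 95), (nat_lit 78), (nat_lit 1243110051)⟩], [], [⟨(nat_lit 0), (nat_lit 100), (nat_lit 100), (nat_lit 60), (nat_lit 314527406)⟩], [],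
 ⟨⟨[(nat_lit 60), (nat_lit 100), (nat_lit 120)], [(nat_lit 0), (nat_lit 0), (nat_lit 1164)], [((nat_lit 0), (nat_lit 0), (nat_lit 0)), ((nat_lit 0), (nat_lit 0), (nat_lit 0)), ((nat_lit 1000), (nat_lit 933), (nat_lit 572))], ((nat_lit 93), (nat_lit 100), (nat_lit 55))⟩, (nat_lit 4052957), (nat_lit 181), (nat_lit 181), (nat_lit 0), (nat_lit 151669), [(nat_lit 5121245550), (nat_lit 6250000085), (nat_lit 7968000000)], [], [(nat_lit 15430679336), (nat_lit 19042832469), (nat_lit 11470680814), (nat_lit 14055543224), (nat_lit 25933623654), (nat_lit 28431767609), (nat_lit 20543663122), (nat_lit 22841949975)], (nat_lit 1271251), (nat_lit 1271251), (nat_lit 230000), (nat_lit 780000), (nat_lit 780000), (nat_lit 2090001), [(nat_lit 780000), (nat_lit 1435001), (nat_lit 1271251)], [(nat_lit 10), (nat_lit 54), (nat_lit 317), (nat_lit 100), (nat_lit 10)]⟩,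
 ⟨⟨[(nat_lit 80), (nat_lit 120), (nat_lit 140)], [(nat_lit 0), (nat_lit 528), (nat_lit 1572)], [((nat_lit 0), (nat_lit 0), (nat_lit 0)), ((nat_lit 1000), (nat_lit 959), (nat_lit 206)), ((nat_lit 966), (nat_lit 1000), (nat_lit 679))], ((nat_lit 99), (nat_lit 100), (nat_lit 56))⟩, (nat_lit 11162413), (nat_lit 312), (nat_lit 312), (nat_lit 0), (nat_lit 165185), [(nat_lit 4688000000), (nat_lit 7968000000), (nat_lit 9842000000)], [], [(nat_lit 29043486470), (nat_lit 29968653607), (nat_lit 30945359710), (nat_lit 30860122038), (nat_lit 43084519288), (nat_lit 42302816476), (nat_lit 46097241374), (nat_lit 45334671896)], (nat_lit 1271251), (nat_lit 1271251), (nat_lit 230000), (nat_lit 780000), (nat_lit 169688), (nat_lit 2886876), [(nat_lit 1100000), (nat_lit 1785001), (nat_lit 1271251)], [(nat_lit 17), (nat_lit 58), (nat_lit 428), (nat_lit 200), (nat_lit 13)]⟩,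
 ⟨⟨[(nat_lit 80), (nat_lit 120), (nat_lit 140)], [(nat_lit 0), (nat_lit 528), (nat_lit 1572)], [((nat_lit 0), (nat_lit 0), (nat_lit 0)), ((nat_lit 1000), (nat_lit 959), (nat_lit 206)), ((nat_lit 966), (nat_lit 1000), (nat_lit 679))], ((nat_lit 99), (nat_lit 100), (nat_lit 56))⟩, (nat_lit 1772727), (nat_lit 300), (nat_lit 454), (nat_lit 58600002), (nat_lit 566543), [(nat_lit 4688000000), (nat_lit 7968000000), (nat_lit 9842000000)], [], [(nat_lit 39311087615), (nat_lit 39927771209), (nat_lit 40131263516), (nat_lit 40535741846), (nat_lit 40107380785), (nat_lit 40286835030), (nat_lit 56662881163), (nat_lit 53340868336)], (nat_lit 1271251), (nat_lit 1271251), (nat_lit 780000), (nat_lit 2090001), (nat_lit 169688), (nat_lit 2886876), [(nat_lit 1100000), (nat_lit 1785001), (nat_lit 1271251)], [(nat_lit 17), (nat_lit 58), (nat_lit 483), (nat_lit 250), (nat_lit 14)]⟩⟩)))))) (.trX (nat_lit 5) (nat_lit 4) (nat_lit 3) (nat_lit 100) (nat_lit 80) (nat_lit 100) (nat_lit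 340) (.spl (nat_lit 1) (nat_lit 260) (.ord (.spl (nat_lit 6) (nat_lit 20) (.leaf ⟨(nat_lit 0), (nat_lit 0), (nat_lit 0), (nat_lit 1000), (nat_lit 12700), (nat_lit 8138), (nat_lit 2268), (nat_lit 9355), (nat_lit 0), (nat_lit 591528565504), (nat_lit 0), [], Pd.none, Pd.none, (nat_lit 0), (nat_lit 1), (nat_lit 0), (nat_lit 0), (nat_lit 0), (nat_lit 0), [⟨(nat_lit 0), (nat_lit 100), (nat_lit 92), (nat_lit 68), (nat_lit 997742804)⟩], [], [⟨(nat_lit 0), (nat_lit 100), (nat_lit 99), (nat_lit 45), (nat_lit 443967204)⟩], [],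
 ⟨⟨[(nat_lit 60), (nat_lit 100), (nat_lit 120)], [(nat_lit 0), (nat_lit 0), (nat_lit 1164)], [((nat_lit 0), (nat_lit 0), (nat_lit 0)), ((nat_lit 0), (nat_lit 0), (nat_lit 0)), ((nat_lit 1000), (nat_lit 933), (nat_lit 572))], ((nat_lit 92), (nat_lit 100), (nat_lit 44))⟩, (nat_lit 2623979), (nat_lit 248), (nat_lit 248), (nat_lit 0), (nat_lit 190274), [(nat_lit 4065479569), (nat_lit 6250000005), (nat_lit 7968000000)], [], [(nat_lit 26417721904), (nat_lit 27648637989), (nat_lit 23268588955), (nat_lit 24379346253), (nat_lit 38777926260), (nat_lit 39983450808), (nat_lit 33018670098), (nat_lit 34151107777)], (nat_lit 1271251), (nat_lit 1271251), (nat_lit 169688), (nat_lit 780000), (nat_lit 1271251), (nat_lit 1271251), [(nat_lit 780000), (nat_lit 1435001), (nat_lit 1271251)], [(nat_lit 10), (nat_lit 54), (nat_lit 238), (nat_lit 30), (nat_lit 7)]⟩,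
 ⟨⟨[(nat_lit 80), (nat_lit 120), (nat_lit 140)], [(nat_lit 0), (nat_lit 0), (nat_lit 1164)], [((nat_lit 0), (nat_lit 0), (nat_lit 0)), ((nat_lit 0), (nat_lit 0), (nat_lit 0)), ((nat_lit 941), (nat_lit 1000), (nat_lit 576))], ((nat_lit 100), (nat_lit 99), (nat_lit 44))⟩, (nat_lit 2777247), (nat_lit 377), (nat_lit 377), (nat_lit 0), (nat_lit 239641), [(nat_lit 4688000000), (nat_lit 7968000000), (nat_lit 9842000000)], [], [(nat_lit 39183044094), (nat_lit 39971198045), (nat_lit 39801898416), (nat_lit 40531064384), (nat_lit 46428759039), (nat_lit 46048992076), (nat_lit 49836616448), (nat_lit 48847809839)], (nat_lit 1271251), (nat_lit 1271251), (nat_lit 169688), (nat_lit 780000), (nat_lit 0), (nat_lit 2401251), [(nat_lit 1100000), (nat_lit 1785001), (nat_lit 1271251)], [(nat_lit 17), (nat_lit 58), (nat_lit 428), (nat_lit 200), (nat_lit 13)]⟩,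
 ⟨⟨[(nat_lit 100), (nat_lit 120), (nat_lit 140)], [(nat_lit 0), (nat_lit 254), (nat_lit 778)], [((nat_lit 0), (nat_lit 0), (nat_lit 0)), ((nat_lit 1000), (nat_lit 1000), (nat_lit 198)), ((nat_lit 960), (nat_lit 1000), (nat_lit 392))], ((nat_lit 100), (nat_lit 94), (nat_lit 44))⟩, (nat_lit 1842520), (nat_lit 300), (nat_lit 390), (nat_lit 62500000), (nat_lit 402648), [(nat_lit 6250000000), (nat_lit 7968000000), (nat_lit 9842000000)], [], [(nat_lit 36738954176), (nat_lit 37485645205), (nat_lit 43108130270), (nat_lit 43540207365), (nat_lit 32504755348), (nat_lit 32780813167), (nat_lit 37425270062), (nat_lit 38088337803)], (nat_lit 1271251), (nat_lit 1271251), (nat_lit 1271251), (nat_lit 1271251), (nat_lit 0), (nat_lit 2401251), [(nat_lit 1412501), (nat_lit 1271251), (nat_lit 1271251)], [(nat_lit 22), (nat_lit 58), (nat_lit 373), (nat_lit 150), (nat_lit 10)]⟩⟩) (.dle (nat_lit 0)))) (.trZ (nat_lit 0) (nat_lit 1) (nat_lit 3) (nat_lit 100) (nat_lit 96) (nat_lit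 69) (nat_lit 40) (.trZ (nat_lit 1) (nat_lit 2) (nat_lit 5) (nat_lit 100) (nat_lit 96) (nat_lit 40) (nat_lit 10) (.leaf ⟨(nat_lit 0), (nat_lit 0), (nat_lit 0), (nat_lit 1000), (nat_lit 18062), (nat_lit 9023), (nat_lit 3424), (nat_lit 10141), (nat_lit 0), (nat_lit 50972), (nat_lit 0), [], Pd.none, Pd.none, (nat_lit 0), (nat_lit 1), (nat_lit 0), (nat_lit 0), (nat_lit 0), (nat_lit 0), [⟨(nat_lit 0), (nat_lit 100), (nat_lit 95), (nat_lit 78), (nat_lit 1005939992)⟩], [], [⟨(nat_lit 0), (nat_lit 100), (nat_lit 97), (nat_lit 59), (nat_lit 456317251)⟩], [],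
 ⟨⟨[(nat_lit 60), (nat_lit 100), (nat_lit 120)], [(nat_lit 0), (nat_lit 0), (nat_lit 1164)], [((nat_lit 0), (nat_lit 0), (nat_lit 0)), ((nat_lit 0), (nat_lit 0), (nat_lit 0)), ((nat_lit 1000), (nat_lit 933), (nat_lit 572))], ((nat_lit 93), (nat_lit 100), (nat_lit 55))⟩, (nat_lit 2647688), (nat_lit 283), (nat_lit 283), (nat_lit 0), (nat_lit 320892), [(nat_lit 4486693104), (nat_lit 6250000012), (nat_lit 7968000000)], [], [(nat_lit 24668758274), (nat_lit 26560114179), (nat_lit 21654085682), (nat_lit 22827070648), (nat_lit 39707915666), (nat_lit 40975943940), (nat_lit 34225297683), (nat_lit 35417336130)], (nat_lit 1271251), (nat_lit 1271251), (nat_lit 230000), (nat_lit 780000), (nat_lit 1271251), (nat_lit 1271251), [(nat_lit 780000), (nat_lit 1435001), (nat_lit 1271251)], [(nat_lit 10), (nat_lit 54), (nat_lit 238), (nat_lit 30), (nat_lit 7)]⟩,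
 ⟨⟨[(nat_lit 80), (nat_lit 120), (nat_lit 140)], [(nat_lit 0), (nat_lit 528), (nat_lit 1572)], [((nat_lit 0), (nat_lit 0), (nat_lit 0)), ((nat_lit 1000), (nat_lit 959), (nat_lit 206)), ((nat_lit 966), (nat_lit 1000), (nat_lit 679))], ((nat_lit 99), (nat_lit 100), (nat_lit 56))⟩, (nat_lit 10846305), (nat_lit 439), (nat_lit 439), (nat_lit 0), (nat_lit 359131), [(nat_lit 4688000000), (nat_lit 7968000000), (nat_lit 9842000000)], [], [(nat_lit 33122435276), (nat_lit 32167785713), (nat_lit 31453023814), (nat_lit 32392601121), (nat_lit 39573268388), (nat_lit 38468428100), (nat_lit 43220115112), (nat_lit 41727313600)], (nat_lit 1271251), (nat_lit 1271251), (nat_lit 230000), (nat_lit 780000), (nat_lit 54688), (nat_lit 2416251), [(nat_lit 1100000), (nat_lit 1785001), (nat_lit 1271251)], [(nat_lit 17), (nat_lit 58), (nat_lit 428), (nat_lit 200), (nat_lit 13)]⟩,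
 ⟨⟨[(nat_lit 100), (nat_lit 140), (nat_lit 160)], [(nat_lit 0), (nat_lit 508), (nat_lit 1689)], [((nat_lit 0), (nat_lit 0), (nat_lit 0)), ((nat_lit 1000), (nat_lit 1000), (nat_lit 198)), ((nat_lit 811), (nat_lit 1000), (nat_lit 671))], ((nat_lit 100), (nat_lit 89), (nat_lit 55))⟩, (nat_lit 2149606), (nat_lit 300), (nat_lit 529), (nat_lit 62500002), (nat_lit 603252), [(nat_lit 6250000000), (nat_lit 9842000000), (nat_lit 11872000000)], [], [(nat_lit 44094945837), (nat_lit 44406784760), (nat_lit 47252122809), (nat_lit 47657191215), (nat_lit 36194718911), (nat_lit 35782381000), (nat_lit 38457148176), (nat_lit 39666520752)], (nat_lit 1271251), (nat_lit 1271251), (nat_lit 1271251), (nat_lit 1271251), (nat_lit 54688), (nat_lit 2416251), [(nat_lit 1412501), (nat_lit 1271251), (nat_lit 1271251)], [(nat_lit 23), (nat_lit 62), (nat_lit 538), (nat_lit 300), (nat_lit 13)]⟩⟩)))))) (.dle (nat_lit 0))))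
noncomputable def c6_22 : Tr Lf :=
 (.trZ (nat_lit 0) (nat_lit 1) (nat_lit 3) (nat_lit 100) (nat_lit 100) (nat_lit 80) (nat_lit 60) (.trZ (nat_lit 1) (nat_lit 2) (nat_lit 5) (nat_lit 100) (nat_lit 92) (nat_lit 49) (nat_lit 20) (.spl (nat_lit 5) (nat_lit 120) (.leaf ⟨(nat_lit 0), (nat_lit 241), (nat_lit 0), (nat_lit 759), (nat_lit 13832), (nat_lit 12075), (nat_lit 10077), (nat_lit 9899), (nat_lit 854358059987), (nat_lit 401290), (nat_lit 0), [], Pd.none, Pd.none, (nat_lit 0), (nat_lit 1), (nat_lit 0), (nat_lit 0), (nat_lit 5), (nat_lit 0), [⟨(nat_lit 0), (nat_lit 100), (nat_lit 100), (nat_lit 90), (nat_lit 1384422242)⟩], [], [⟨(nat_lit 0), (nat_lit 100), (nat_lit 94), (nat_lit 73), (nat_lit 746745646)⟩, ⟨(nat_lit 0), (nat_lit 100), (nat_lit 92), (nat_lit 49), (nat_lit 8492619)⟩], [],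
 ⟨⟨[(nat_lit 60), (nat_lit 100), (nat_lit 140)], [(nat_lit 0), (nat_lit 0), (nat_lit 2047)], [((nat_lit 0), (nat_lit 0), (nat_lit 0)), ((nat_lit 0), (nat_lit 0), (nat_lit 0)), ((nat_lit 1000), (nat_lit 993), (nat_lit 781))], ((nat_lit 96), (nat_lit 100), (nat_lit 68))⟩, (nat_lit 533463), (nat_lit 300), (nat_lit 353), (nat_lit 62500009), (nat_lit 470537), [(nat_lit 3282000158), (nat_lit 6250000126), (nat_lit 9842000000)], [], [(nat_lit 29113146459), (nat_lit 28597494756), (nat_lit 24371925838), (nat_lit 25589569762), (nat_lit 43240756700), (nat_lit 44727510563), (nat_lit 40813466927), (nat_lit 39784035488)], (nat_lit 1271251), (nat_lit 1271251), (nat_lit 356250), (nat_lit 780000), (nat_lit 780000), (nat_lit 3072501), [(nat_lit 780000), (nat_lit 1435001), (nat_lit 1271251)], [(nat_lit 11), (nat_lit 55), (nat_lit 373), (nat_lit 150), (nat_lit 11)]⟩,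
 ⟨⟨[(nat_lit 60), (nat_lit 100), (nat_lit 140)], [(nat_lit 0), (nat_lit 0), (nat_lit 2047)], [((nat_lit 0), (nat_lit 0), (nat_lit 0)), ((nat_lit 0), (nat_lit 0), (nat_lit 0)), ((nat_lit 1000), (nat_lit 993), (nat_lit 781))], ((nat_lit 96), (nat_lit 100), (nat_lit 68))⟩, (nat_lit 4975487), (nat_lit 322), (nat_lit 322), (nat_lit 0), (nat_lit 216673), [(nat_lit 3282000000), (nat_lit 6250000000), (nat_lit 9842000000)], [], [(nat_lit 20471189217), (nat_lit 24293177659), (nat_lit 18775596690), (nat_lit 20901040925), (nat_lit 15946469582), (nat_lit 17947572813), (nat_lit 14685068653), (nat_lit 16293047908)], (nat_lit 1271251), (nat_lit 1271251), (nat_lit 356250), (nat_lit 780000), (nat_lit 111251), (nat_lit 780000), [(nat_lit 780000), (nat_lit 1435001), (nat_lit 1271251)], [(nat_lit 11), (nat_lit 55), (nat_lit 272), (nat_lit 60), (nat_lit 8)]⟩,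
 ⟨⟨[(nat_lit 100), (nat_lit 140), (nat_lit 160)], [(nat_lit 0), (nat_lit 508), (nat_lit 1689)], [((nat_lit 0), (nat_lit 0), (nat_lit 0)), ((nat_lit 1000), (nat_lit 1000), (nat_lit 198)), ((nat_lit 811), (nat_lit 1000), (nat_lit 671))], ((nat_lit 100), (nat_lit 83), (nat_lit 65))⟩, (nat_lit 1631551), (nat_lit 300), (nat_lit 527), (nat_lit 47437501), (nat_lit 520509), [(nat_lit 4743750000), (nat_lit 7470078000), (nat_lit 9010848000)], [], [(nat_lit 29901217114), (nat_lit 30844529329), (nat_lit 37004812907), (nat_lit 40219544337), (nat_lit 24141161434), (nat_lit 24899992462), (nat_lit 42434404450), (nat_lit 31246372854)], (nat_lit 1271251), (nat_lit 1271251), (nat_lit 780000), (nat_lit 3072501), (nat_lit 111251), (nat_lit 780000), [(nat_lit 1412501), (nat_lit 1271251), (nat_lit 1271251)], [(nat_lit 23), (nat_lit 62), (nat_lit 456), (nat_lit 225), (nat_lit 12)]⟩⟩) (.leaf ⟨(nat_lit 0), (nat_lit 0), (nat_lit 0), (nat_lit 1000), (nat_lit 0), (nat_lit 12281),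 (nat_lit 9696), (nat_lit 8408), (nat_lit 3487066), (nat_lit 717210), (nat_lit 0), [], Pd.none, Pd.none, (nat_lit 0), (nat_lit 1), (nat_lit 0), (nat_lit 0), (nat_lit 0), (nat_lit 0), [⟨(nat_lit 0), (nat_lit 100), (nat_lit 100), (nat_lit 80), (nat_lit 1011510026)⟩], [], [], [],
 ⟨⟨[(nat_lit 60), (nat_lit 100), (nat_lit 140)], [(nat_lit 0), (nat_lit 0), (nat_lit 2047)], [((nat_lit 0), (nat_lit 0), (nat_lit 0)), ((nat_lit 0), (nat_lit 0), (nat_lit 0)), ((nat_lit 1000), (nat_lit 993), (nat_lit 781))], ((nat_lit 96), (nat_lit 100), (nat_lit 68))⟩, (nat_lit 533464), (nat_lit 300), (nat_lit 353), (nat_lit 62500001), (nat_lit 470537), [(nat_lit 3282000096), (nat_lit 6250000047), (nat_lit 9842000000)], [], [(nat_lit 29105999972), (nat_lit 28320672110), (nat_lit 24013908725), (nat_lit 25243452785), (nat_lit 43622791116), (nat_lit 45124636848), (nat_lit 40783755183), (nat_lit 40078773387)], (nat_lit 1271251), (nat_lit 1271251), (nat_lit 356250), (nat_lit 780000),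 (nat_lit 780000), (nat_lit 3072501), [(nat_lit 780000), (nat_lit 1435001), (nat_lit 1271251)], [(nat_lit 11), (nat_lit 55), (nat_lit 373), (nat_lit 150), (nat_lit 11)]⟩,
 ⟨⟨[(nat_lit 60), (nat_lit 100), (nat_lit 140)], [(nat_lit 0), (nat_lit 0), (nat_lit 2047)], [((nat_lit 0), (nat_lit 0), (nat_lit 0)), ((nat_lit 0), (nat_lit 0), (nat_lit 0)), ((nat_lit 1000), (nat_lit 993), (nat_lit 781))], ((nat_lit 96), (nat_lit 100), (nat_lit 68))⟩, (nat_lit 598173), (nat_lit 353), (nat_lit 353), (nat_lit 0), (nat_lit 470537), [(nat_lit 3282000000), (nat_lit 6250000000), (nat_lit 9842000000)], [], [(nat_lit 29195676064), (nat_lit 26233341477), (nat_lit 23321994317), (nat_lit 24385696957), (nat_lit 38999001421), (nat_lit 40141280310), (nat_lit 41156592224), (nat_lit 36793571600)], (nat_lit 1271251), (nat_lit 1271251), (nat_lit 356250), (nat_lit 780000), (nat_lit 780000), (nat_lit 3072501), [(nat_lit 780000), (nat_lit 1435001), (nat_lit 1271251)], [(nat_lit 11),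 (nat_lit 55), (nat_lit 373), (nat_lit 150), (nat_lit 11)]⟩,
 ⟨⟨[(nat_lit 100), (nat_lit 140), (nat_lit 160)], [(nat_lit 0), (nat_lit 508), (nat_lit 1689)], [((nat_lit 0), (nat_lit 0), (nat_lit 0)), ((nat_lit 1000), (nat_lit 1000), (nat_lit 198)), ((nat_lit 811), (nat_lit 1000), (nat_lit 671))], ((nat_lit 100), (nat_lit 83), (nat_lit 65))⟩, (nat_lit 2149607), (nat_lit 300), (nat_lit 591), (nat_lit 62500000), (nat_lit 829544), [(nat_lit 6250000000), (nat_lit 9842000000), (nat_lit 11872000000)], [], [(nat_lit 45167372449), (nat_lit 45774827998), (nat_lit 45800863287), (nat_lit 45438797812), (nat_lit 69586408464), (nat_lit 54352234932), (nat_lit 43772196552), (nat_lit 42988576048)], (nat_lit 1271251), (nat_lit 1271251), (nat_lit 1271251), (nat_lit 1271251), (nat_lit 780000), (nat_lit 3072501), [(nat_lit 1412501), (nat_lit 1271251), (nat_lit 1271251)], [(nat_lit 23), (nat_lit 62), (nat_lit 538), (nat_lit 300), (nat_lit 14)]⟩⟩))))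
noncomputable def c6_23 : Tr Lf :=
 (.spl (nat_lit 3) (nat_lit 200) (.leaf ⟨(nat_lit 1000), (nat_lit 0), (nat_lit 0), (nat_lit 0), (nat_lit 2796), (nat_lit 9646), (nat_lit 0), (nat_lit 0), (nat_lit 580927909401), (nat_lit 0), (nat_lit 250000), [((nat_lit 300), [((nat_lit 12), (nat_lit 0), (nat_lit 1000))])], ⟨(nat_lit 6), false, false, false, (nat_lit 201), (nat_lit 5000), (nat_lit 5478), [(nat_lit 1392847), (nat_lit 1399998), (nat_lit 1456895), (nat_lit 1464262), (nat_lit 1542694), (nat_lit 1542837), (nat_lit 1606735), (nat_lit 1607093)]⟩, ⟨(nat_lit 3), false, false, false, (nat_lit 158), (nat_lit 5000), (nat_lit 5478), [(nat_lit 1264704), (nat_lit 1271427), (nat_lit 1371489), (nat_lit 1378570), (nat_lit 1414570), (nat_lit 1414284), (nat_lit 1521346), (nat_lit 1521418)]⟩, (nat_lit 4545796), (nat_lit 45395348), (nat_lit 12817733), (nat_lit 8786919), (nat_lit 0), (nat_lit 0), [], [], [], [],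
 ⟨⟨[(nat_lit 60), (nat_lit 100), (nat_lit 120)], [(nat_lit 0), (nat_lit 0), (nat_lit 1164)], [((nat_lit 0), (nat_lit 0), (nat_lit 0)), ((nat_lit 0), (nat_lit 0), (nat_lit 0)), ((nat_lit 1000), (nat_lit 933), (nat_lit 572))], ((nat_lit 93), (nat_lit 100), (nat_lit 58))⟩, (nat_lit 0), (nat_lit 4), (nat_lit 4), (nat_lit 0), (nat_lit 0), [(nat_lit 5526705065), (nat_lit 99602721251), (nat_lit 3224400000)], [(nat_lit 0), (nat_lit 0), (nat_lit 0)], [(nat_lit 10642185092), (nat_lit 13797368605), (nat_lit 13359676945), (nat_lit 16054121384), (nat_lit 13359676945), (nat_lit 16054121384), (nat_lit 15476431133), (nat_lit 17774736810)], (nat_lit 0), (nat_lit 0), (nat_lit 0), (nat_lit 0), (nat_lit 0), (nat_lit 0), [], [(nat_lit 10), (nat_lit 54), (nat_lit 317), (nat_lit 100), (nat_lit 10)]⟩,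
 Rw.none,
 Rw.none⟩) (.leaf ⟨(nat_lit 808), (nat_lit 151), (nat_lit 0), (nat_lit 41), (nat_lit 0), (nat_lit 4404), (nat_lit 1625), (nat_lit 371), (nat_lit 1265395), (nat_lit 0), (nat_lit 212950), [((nat_lit 300), [((nat_lit 12), (nat_lit 0), (nat_lit 735)), ((nat_lit 12), (nat_lit 1), (nat_lit 73))])], ⟨(nat_lit 6), false, true, false, (nat_lit 259), (nat_lit 5000), (nat_lit 5478), [(nat_lit 1542694), (nat_lit 1542837), (nat_lit 1606735), (nat_lit 1607093), (nat_lit 1692534), (nat_lit 1685668), (nat_lit 1756576), (nat_lit 1749924)]⟩, ⟨(nat_lit 3), false, false, false, (nat_lit 158), (nat_lit 5000), (nat_lit 5478), [(nat_lit 1264704), (nat_lit 1271427), (nat_lit 1371489), (nat_lit 1378570), (nat_lit 1414570), (nat_lit 1414284), (nat_lit 1521346), (nat_lit 1521418)]⟩, (nat_lit 4913665), (nat_lit 40598031), (nat_lit 18158823), (nat_lit 8243146), (nat_lit 3), (nat_lit 0), [], [], [], [],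
 ⟨⟨[(nat_lit 60), (nat_lit 100), (nat_lit 120)], [(nat_lit 0), (nat_lit 0), (nat_lit 1164)], [((nat_lit 0), (nat_lit 0), (nat_lit 0)), ((nat_lit 0), (nat_lit 0), (nat_lit 0)), ((nat_lit 1000), (nat_lit 933), (nat_lit 572))], ((nat_lit 93), (nat_lit 100), (nat_lit 58))⟩, (nat_lit 0), (nat_lit 37), (nat_lit 37), (nat_lit 0), (nat_lit 0), [(nat_lit 2382559267), (nat_lit 100484097785), (nat_lit 4095576000)], [(nat_lit 0), (nat_lit 0), (nat_lit 0)], [(nat_lit 14678221641), (nat_lit 16156611298), (nat_lit 18877332839), (nat_lit 20181613275), (nat_lit 16784236645), (nat_lit 18074905498), (nat_lit 20448068145), (nat_lit 21596843664)], (nat_lit 0), (nat_lit 0), (nat_lit 0), (nat_lit 0), (nat_lit 0), (nat_lit 0), [], [(nat_lit 10), (nat_lit 54), (nat_lit 345), (nat_lit 125), (nat_lit 10)]⟩,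
 ⟨⟨[(nat_lit 80), (nat_lit 120), (nat_lit 140)], [(nat_lit 0), (nat_lit 0), (nat_lit 1164)], [((nat_lit 0), (nat_lit 0), (nat_lit 0)), ((nat_lit 0), (nat_lit 0), (nat_lit 0)), ((nat_lit 941), (nat_lit 1000), (nat_lit 576))], ((nat_lit 100), (nat_lit 94), (nat_lit 58))⟩, (nat_lit 433563), (nat_lit 436), (nat_lit 436), (nat_lit 0), (nat_lit 517876), [(nat_lit 900096000), (nat_lit 1529856000), (nat_lit 1889664000)], [], [(nat_lit 6488075550), (nat_lit 6939787424), (nat_lit 6884444706), (nat_lit 7240548359), (nat_lit 8384302502), (nat_lit 6828641863), (nat_lit 6738131504), (nat_lit 6847784570)], (nat_lit 1271251), (nat_lit 1271251), (nat_lit 1271251), (nat_lit 1271251), (nat_lit 0), (nat_lit 2825001), [(nat_lit 1100000), (nat_lit 1785001), (nat_lit 1271251)], [(nat_lit 17), (nat_lit 58), (nat_lit 483), (nat_lit 250), (nat_lit 14)]⟩,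
 ⟨⟨[(nat_lit 140), (nat_lit 180), (nat_lit 200)], [(nat_lit 0), (nat_lit 0), (nat_lit 2835)], [((nat_lit 0), (nat_lit 0), (nat_lit 0)), ((nat_lit 0), (nat_lit 0), (nat_lit 0)), ((nat_lit 363), (nat_lit 1000), (nat_lit 798))], ((nat_lit 0), (nat_lit 0), (nat_lit 0))⟩, (nat_lit 11280), (nat_lit 300), (nat_lit 1896), (nat_lit 3202106), (nat_lit 3024428), [(nat_lit 403522000), (nat_lit 576378000), (nat_lit 672400000)], [], [(nat_lit 4188932893), (nat_lit 4066780750), (nat_lit 4087072283), (nat_lit 3965745510), (nat_lit 3709757753), (nat_lit 3590629633), (nat_lit 3610851251), (nat_lit 3524001649)], (nat_lit 780000), (nat_lit 1598751), (nat_lit 780000), (nat_lit 1435001), (nat_lit 0), (nat_lit 2825001), [(nat_lit 1977501), (nat_lit 1271251), (nat_lit 1271251)], [(nat_lit 32), (nat_lit 67), (nat_lit 577), (nat_lit 225), (nat_lit 12)]⟩⟩))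
noncomputable def c6_24 : Tr Lf :=
 (.spl (nat_lit 3) (nat_lit 200) (.spl (nat_lit 5) (nat_lit 120) (.leaf ⟨(nat_lit 0), (nat_lit 910), (nat_lit 0), (nat_lit 90), (nat_lit 5818), (nat_lit 5191), (nat_lit 6125), (nat_lit 1297), (nat_lit 8250), (nat_lit 0), (nat_lit 0), [], Pd.none, Pd.none, (nat_lit 0), (nat_lit 1), (nat_lit 0), (nat_lit 0), (nat_lit 5), (nat_lit 0), [], [], [], [],
 ⟨⟨[(nat_lit 60), (nat_lit 100), (nat_lit 120)], [(nat_lit 0), (nat_lit 0), (nat_lit 1164)], [((nat_lit 0), (nat_lit 0), (nat_lit 0)), ((nat_lit 0), (nat_lit 0), (nat_lit 0)), ((nat_lit 1000), (nat_lit 933), (nat_lit 572))], ((nat_lit 93), (nat_lit 100), (nat_lit 58))⟩, (nat_lit 0), (nat_lit 37), (nat_lit 37), (nat_lit 0), (nat_lit 0), [(nat_lit 3282000005), (nat_lit 100916037427), (nat_lit 7968000000)], [], [(nat_lit 14681165889), (nat_lit 16297222898), (nat_lit 16787988355), (nat_lit 18191307011), (nat_lit 19185908143), (nat_lit 20511404381), (nat_lit 20688510105), (nat_lit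 21844423848)], (nat_lit 0), (nat_lit 0), (nat_lit 0), (nat_lit 0), (nat_lit 0), (nat_lit 0), [], [(nat_lit 10), (nat_lit 54), (nat_lit 345), (nat_lit 125), (nat_lit 10)]⟩,
 ⟨⟨[(nat_lit 80), (nat_lit 120), (nat_lit 140)], [(nat_lit 0), (nat_lit 0), (nat_lit 1164)], [((nat_lit 0), (nat_lit 0), (nat_lit 0)), ((nat_lit 0), (nat_lit 0), (nat_lit 0)), ((nat_lit 941), (nat_lit 1000), (nat_lit 576))], ((nat_lit 100), (nat_lit 94), (nat_lit 58))⟩, (nat_lit 3040349), (nat_lit 395), (nat_lit 395), (nat_lit 0), (nat_lit 412626), [(nat_lit 4688000000), (nat_lit 7968000000), (nat_lit 9842000000)], [], [(nat_lit 35561617500), (nat_lit 34700241264), (nat_lit 37849918250), (nat_lit 35529294563), (nat_lit 35599293125), (nat_lit 31976716313), (nat_lit 42795180500), (nat_lit 34417067094)], (nat_lit 1271251), (nat_lit 1271251), (nat_lit 780000), (nat_lit 1435001), (nat_lit 0), (nat_lit 780000), [(nat_lit 1100000), (nat_lit 1785001), (nat_lit 1271251)], [(nat_lit 17),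 (nat_lit 58), (nat_lit 401), (nat_lit 175), (nat_lit 12)]⟩,
 ⟨⟨[(nat_lit 140), (nat_lit 180), (nat_lit 200)], [(nat_lit 0), (nat_lit 0), (nat_lit 2835)], [((nat_lit 0), (nat_lit 0), (nat_lit 0)), ((nat_lit 0), (nat_lit 0), (nat_lit 0)), ((nat_lit 363), (nat_lit 1000), (nat_lit 798))], ((nat_lit 0), (nat_lit 0), (nat_lit 0))⟩, (nat_lit 24762), (nat_lit 300), (nat_lit 1271), (nat_lit 7029000), (nat_lit 1762861), [(nat_lit 885780000), (nat_lit 1265220000), (nat_lit 1476000000)], [], [(nat_lit 6079614012), (nat_lit 5788359049), (nat_lit 5911050896), (nat_lit 5653472312), (nat_lit 4981282163), (nat_lit 4705726851), (nat_lit 4811130772), (nat_lit 4524388186)], (nat_lit 780000), (nat_lit 1271251), (nat_lit 1271251), (nat_lit 1271251), (nat_lit 0), (nat_lit 780000), [(nat_lit 1977501), (nat_lit 1271251), (nat_lit 1271251)], [(nat_lit 32), (nat_lit 67), (nat_lit 391), (nat_lit 150), (nat_lit 9)]⟩⟩) (.spl (nat_lit 5) (nat_lit 280) (.leaf ⟨(nat_lit 867), (nat_lit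 101), (nat_lit 0), (nat_lit 32), (nat_lit 0), (nat_lit 4179), (nat_lit 1566), (nat_lit 366), (nat_lit 14399859425), (nat_lit 0), (nat_lit 259800), [((nat_lit 300), [((nat_lit 12), (nat_lit 0), (nat_lit 580)), ((nat_lit 12), (nat_lit 1), (nat_lit 287))])], ⟨(nat_lit 6), false, false, false, (nat_lit 201), (nat_lit 5000), (nat_lit 5478), [(nat_lit 1392847), (nat_lit 1399998), (nat_lit 1456895), (nat_lit 1464262), (nat_lit 1542694), (nat_lit 1542837), (nat_lit 1606735), (nat_lit 1607093)]⟩, ⟨(nat_lit 5), false, false, true, (nat_lit 208), (nat_lit 5000), (nat_lit 5478), [(nat_lit 1414570), (nat_lit 1414284), (nat_lit 1478641), (nat_lit 1478570), (nat_lit 1564436), (nat_lit 1557141), (nat_lit 1628492), (nat_lit 1621412)]⟩, (nat_lit 4972506), (nat_lit 41819990), (nat_lit 12236358), (nat_lit 12943652), (nat_lit 5), (nat_lit 0), [], [], [], [],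
 ⟨⟨[(nat_lit 60), (nat_lit 100), (nat_lit 120)], [(nat_lit 0), (nat_lit 0), (nat_lit 1164)], [((nat_lit 0), (nat_lit 0), (nat_lit 0)), ((nat_lit 0), (nat_lit 0), (nat_lit 0)), ((nat_lit 1000), (nat_lit 933), (nat_lit 572))], ((nat_lit 93), (nat_lit 100), (nat_lit 58))⟩, (nat_lit 0), (nat_lit 37), (nat_lit 37), (nat_lit 0), (nat_lit 0), [(nat_lit 2229889813), (nat_lit 100589421364), (nat_lit 3699630000)], [(nat_lit 0), (nat_lit 0), (nat_lit 0)], [(nat_lit 14781856775), (nat_lit 16220887913), (nat_lit 16887640929), (nat_lit 18146103676), (nat_lit 18893589335), (nat_lit 20087379057), (nat_lit 20483803679), (nat_lit 21532849463)], (nat_lit 0), (nat_lit 0), (nat_lit 0), (nat_lit 0), (nat_lit 0), (nat_lit 0), [], [(nat_lit 10), (nat_lit 54), (nat_lit 345), (nat_lit 125), (nat_lit 10)]⟩,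
 ⟨⟨[(nat_lit 80), (nat_lit 120), (nat_lit 140)], [(nat_lit 0), (nat_lit 0), (nat_lit 1164)], [((nat_lit 0), (nat_lit 0), (nat_lit 0)), ((nat_lit 0), (nat_lit 0), (nat_lit 0)), ((nat_lit 941), (nat_lit 1000), (nat_lit 576))], ((nat_lit 100), (nat_lit 94), (nat_lit 58))⟩, (nat_lit 486825), (nat_lit 346), (nat_lit 346), (nat_lit 0), (nat_lit 512581), [(nat_lit 623504000), (nat_lit 1059744000), (nat_lit 1308986000)], [], [(nat_lit 3030540346), (nat_lit 2731281201), (nat_lit 3231585318), (nat_lit 2747889419), (nat_lit 4668643954), (nat_lit 3132337937), (nat_lit 6187036464), (nat_lit 4044975143)], (nat_lit 1271251), (nat_lit 1271251), (nat_lit 780000), (nat_lit 1435001), (nat_lit 780000), (nat_lit 2090001), [(nat_lit 1100000), (nat_lit 1785001), (nat_lit 1271251)], [(nat_lit 17), (nat_lit 58), (nat_lit 428), (nat_lit 200), (nat_lit 12)]⟩,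
 ⟨⟨[(nat_lit 140), (nat_lit 180), (nat_lit 200)], [(nat_lit 0), (nat_lit 0), (nat_lit 2835)], [((nat_lit 0), (nat_lit 0), (nat_lit 0)), ((nat_lit 0), (nat_lit 0), (nat_lit 0)), ((nat_lit 363), (nat_lit 1000), (nat_lit 798))], ((nat_lit 0), (nat_lit 0), (nat_lit 0))⟩, (nat_lit 8804), (nat_lit 300), (nat_lit 1775), (nat_lit 2499204), (nat_lit 3024428), [(nat_lit 314944000), (nat_lit 449856000), (nat_lit 524800000)], [], [(nat_lit 2071589878), (nat_lit 1989181492), (nat_lit 1995076598), (nat_lit 1911860211), (nat_lit 1883304788), (nat_lit 1800458798), (nat_lit 1804899216), (nat_lit 1722383323)], (nat_lit 780000), (nat_lit 1271251), (nat_lit 1271251), (nat_lit 1271251), (nat_lit 780000), (nat_lit 2090001), [(nat_lit 1977501), (nat_lit 1271251), (nat_lit 1271251)], [(nat_lit 32), (nat_lit 67), (nat_lit 537), (nat_lit 200), (nat_lit 11)]⟩⟩) (.spl (nat_lit 0) (nat_lit 290) (.ord (.spl (nat_lit 6) (nat_lit 20) (.leaf ⟨(nat_lit 0), (nat_lit 824), (nat_lit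 0), (nat_lit 176), (nat_lit 0), (nat_lit 5260), (nat_lit 8958), (nat_lit 1918), (nat_lit 31854361340), (nat_lit 0), (nat_lit 0), [], Pd.none, Pd.none, (nat_lit 0), (nat_lit 1), (nat_lit 0), (nat_lit 0), (nat_lit 7), (nat_lit 0), [], [], [⟨(nat_lit 1), (nat_lit 57), (nat_lit 98), (nat_lit 100), (nat_lit 418121598)⟩], [⟨(nat_lit 2), (nat_lit 73), (nat_lit 100), (nat_lit 85), (nat_lit 1978292)⟩],
 ⟨⟨[(nat_lit 60), (nat_lit 100), (nat_lit 120)], [(nat_lit 0), (nat_lit 0), (nat_lit 1164)], [((nat_lit 0), (nat_lit 0), (nat_lit 0)), ((nat_lit 0), (nat_lit 0), (nat_lit 0)), ((nat_lit 1000), (nat_lit 933), (nat_lit 572))], ((nat_lit 92), (nat_lit 100), (nat_lit 44))⟩, (nat_lit 10260), (nat_lit 31), (nat_lit 31), (nat_lit 0), (nat_lit 0), [(nat_lit 3282000041), (nat_lit 100198176094), (nat_lit 7968000000)], [], [(nat_lit 14602565851), (nat_lit 15416629329), (nat_lit 16709459111), (nat_lit 17416056709), (nat_lit 19134104221), (nat_lit 19801651498), (nat_lit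 20630732611), (nat_lit 21212332709)], (nat_lit 0), (nat_lit 0), (nat_lit 0), (nat_lit 0), (nat_lit 0), (nat_lit 0), [], [(nat_lit 10), (nat_lit 54), (nat_lit 345), (nat_lit 125), (nat_lit 10)]⟩,
 ⟨⟨[(nat_lit 80), (nat_lit 120), (nat_lit 140)], [(nat_lit 0), (nat_lit 0), (nat_lit 1164)], [((nat_lit 0), (nat_lit 0), (nat_lit 0)), ((nat_lit 0), (nat_lit 0), (nat_lit 0)), ((nat_lit 941), (nat_lit 1000), (nat_lit 576))], ((nat_lit 100), (nat_lit 99), (nat_lit 44))⟩, (nat_lit 2856465), (nat_lit 281), (nat_lit 281), (nat_lit 0), (nat_lit 345700), [(nat_lit 4688000000), (nat_lit 7968000000), (nat_lit 9842000000)], [], [(nat_lit 25842836948), (nat_lit 27955463318), (nat_lit 25737090766), (nat_lit 27737168213), (nat_lit 33330691912), (nat_lit 34730505813), (nat_lit 32433918916), (nat_lit 33879164159)], (nat_lit 1271251), (nat_lit 1271251), (nat_lit 780000), (nat_lit 1435001), (nat_lit 1271251), (nat_lit 1271251), [(nat_lit 1100000), (nat_lit 1785001), (nat_lit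 1271251)], [(nat_lit 17), (nat_lit 58), (nat_lit 345), (nat_lit 125), (nat_lit 9)]⟩,
 ⟨⟨[(nat_lit 140), (nat_lit 160), (nat_lit 180)], [(nat_lit 0), (nat_lit 0), (nat_lit 799)], [((nat_lit 0), (nat_lit 0), (nat_lit 0)), ((nat_lit 0), (nat_lit 0), (nat_lit 0)), ((nat_lit 728), (nat_lit 1000), (nat_lit 454))], ((nat_lit 100), (nat_lit 71), (nat_lit 48))⟩, (nat_lit 164681), (nat_lit 300), (nat_lit 1131), (nat_lit 13059200), (nat_lit 1939332), [(nat_lit 1732192000), (nat_lit 2089472000), (nat_lit 2474208000)], [], [(nat_lit 9160830622), (nat_lit 8764469859), (nat_lit 8781042350), (nat_lit 8384565496), (nat_lit 8933393580), (nat_lit 8532124271), (nat_lit 8606830472), (nat_lit 8202826376)], (nat_lit 780000), (nat_lit 1271251), (nat_lit 1271251), (nat_lit 1271251), (nat_lit 1271251), (nat_lit 1271251), [(nat_lit 1977501), (nat_lit 1271251), (nat_lit 1271251)], [(nat_lit 31), (nat_lit 65), (nat_lit 456), (nat_lit 225), (nat_lit 10)]⟩⟩) (.dle (nat_lit 0))))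 (.spl (nat_lit 1) (nat_lit 280) (.spl (nat_lit 6) (nat_lit 20) (.leaf ⟨(nat_lit 31), (nat_lit 829), (nat_lit 0), (nat_lit 140), (nat_lit 0), (nat_lit 5152), (nat_lit 8792), (nat_lit 1521), (nat_lit 0), (nat_lit 0), (nat_lit 7750), [((nat_lit 300), [((nat_lit 12), (nat_lit 0), (nat_lit 31))])], ⟨(nat_lit 6), false, false, false, (nat_lit 197), (nat_lit 5000), (nat_lit 5245), [(nat_lit 1396427), (nat_lit 1399998), (nat_lit 1439194), (nat_lit 1442852), (nat_lit 1542765), (nat_lit 1542851), (nat_lit 1585531), (nat_lit 1585703)]⟩, ⟨(nat_lit 5), false, false, true, (nat_lit 208), (nat_lit 5000), (nat_lit 5245), [(nat_lit 1414457), (nat_lit 1414284), (nat_lit 1478613), (nat_lit 1478570), (nat_lit 1560799), (nat_lit 1557141), (nat_lit 1624953), (nat_lit 1621425)]⟩, (nat_lit 4940856), (nat_lit 42121765), (nat_lit 11913385), (nat_lit 12964850), (nat_lit 7), (nat_lit 0), [], [], [], [⟨(nat_lit 2), (nat_lit 73), (nat_lit 100), (nat_lit 85), (nat_lit 508627468)⟩],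
 ⟨⟨[(nat_lit 60), (nat_lit 80), (nat_lit 100)], [(nat_lit 0), (nat_lit 151), (nat_lit 679)], [((nat_lit 0), (nat_lit 0), (nat_lit 0)), ((nat_lit 1000), (nat_lit 953), (nat_lit 118)), ((nat_lit 1000), (nat_lit 894), (nat_lit 411))], ((nat_lit 89), (nat_lit 100), (nat_lit 44))⟩, (nat_lit 91469), (nat_lit 30), (nat_lit 30), (nat_lit 0), (nat_lit 0), [(nat_lit 3241290829), (nat_lit 90768433244), (nat_lit 6145381200)], [(nat_lit 0), (nat_lit 0), (nat_lit 0)], [(nat_lit 15489500274), (nat_lit 16294117707), (nat_lit 17490533425), (nat_lit 18189401557), (nat_lit 19834681508), (nat_lit 20494889700), (nat_lit 21256355450), (nat_lit 21832253107)], (nat_lit 0), (nat_lit 0), (nat_lit 0), (nat_lit 0), (nat_lit 0), (nat_lit 0), [], [(nat_lit 9), (nat_lit 50), (nat_lit 260), (nat_lit 50), (nat_lit 9)]⟩,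
 ⟨⟨[(nat_lit 80), (nat_lit 120), (nat_lit 140)], [(nat_lit 0), (nat_lit 0), (nat_lit 1164)], [((nat_lit 0), (nat_lit 0), (nat_lit 0)), ((nat_lit 0), (nat_lit 0), (nat_lit 0)), ((nat_lit 941), (nat_lit 1000), (nat_lit 576))], ((nat_lit 100), (nat_lit 99), (nat_lit 44))⟩, (nat_lit 3501340), (nat_lit 291), (nat_lit 291), (nat_lit 0), (nat_lit 371965), [(nat_lit 4542672000), (nat_lit 7720992000), (nat_lit 9536898000)], [], [(nat_lit 24585709253), (nat_lit 26431217087), (nat_lit 24710436200), (nat_lit 26268876109), (nat_lit 32143717654), (nat_lit 33230810398), (nat_lit 31245003688), (nat_lit 32454836608)], (nat_lit 1271251), (nat_lit 1271251), (nat_lit 780000), (nat_lit 1435001), (nat_lit 1271251), (nat_lit 1271251), [(nat_lit 1100000), (nat_lit 1785001), (nat_lit 1271251)], [(nat_lit 17), (nat_lit 58), (nat_lit 345), (nat_lit 125), (nat_lit 9)]⟩,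
 ⟨⟨[(nat_lit 140), (nat_lit 160), (nat_lit 180)], [(nat_lit 0), (nat_lit 0), (nat_lit 799)], [((nat_lit 0), (nat_lit 0), (nat_lit 0)), ((nat_lit 0), (nat_lit 0), (nat_lit 0)), ((nat_lit 728), (nat_lit 1000), (nat_lit 454))], ((nat_lit 100), (nat_lit 71), (nat_lit 48))⟩, (nat_lit 432932), (nat_lit 300), (nat_lit 1152), (nat_lit 10388000), (nat_lit 1985062), [(nat_lit 1377880000), (nat_lit 1662080000), (nat_lit 1968120000)], [], [(nat_lit 7321171925), (nat_lit 7007123860), (nat_lit 7020387029), (nat_lit 6702862038), (nat_lit 7126454466), (nat_lit 6808563025), (nat_lit 6867955660), (nat_lit 6543093177)], (nat_lit 780000), (nat_lit 1271251), (nat_lit 1271251), (nat_lit 1271251), (nat_lit 1271251), (nat_lit 1271251), [(nat_lit 1977501), (nat_lit 1271251), (nat_lit 1271251)], [(nat_lit 31), (nat_lit 65), (nat_lit 456), (nat_lit 225), (nat_lit 10)]⟩⟩) (.dle (nat_lit 0))) (.trX (nat_lit 5) (nat_lit 1) (nat_lit 2) (nat_lit 92) (nat_lit 49) (nat_lit 100) (nat_lit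 380) (.leaf ⟨(nat_lit 0), (nat_lit 901), (nat_lit 0), (nat_lit 99), (nat_lit 0), (nat_lit 5191), (nat_lit 7582), (nat_lit 1133), (nat_lit 1163625384402), (nat_lit 0), (nat_lit 0), [], Pd.none, Pd.none, (nat_lit 0), (nat_lit 1), (nat_lit 0), (nat_lit 0), (nat_lit 7), (nat_lit 0), [], [], [⟨(nat_lit 1), (nat_lit 68), (nat_lit 92), (nat_lit 100), (nat_lit 93682212)⟩], [⟨(nat_lit 2), (nat_lit 78), (nat_lit 100), (nat_lit 81), (nat_lit 486090679)⟩],
 ⟨⟨[(nat_lit 60), (nat_lit 100), (nat_lit 120)], [(nat_lit 0), (nat_lit 302), (nat_lit 1376)], [((nat_lit 0), (nat_lit 0), (nat_lit 0)), ((nat_lit 1000), (nat_lit 953), (nat_lit 118)), ((nat_lit 1000), (nat_lit 911), (nat_lit 628))], ((nat_lit 90), (nat_lit 100), (nat_lit 58))⟩, (nat_lit 106469), (nat_lit 37), (nat_lit 37), (nat_lit 0), (nat_lit 0), [(nat_lit 3282000033), (nat_lit 101246177242), (nat_lit 7968000000)], [], [(nat_lit 15489194422), (nat_lit 16297222926), (nat_lit 17489647711), (nat_lit 18191307039),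 (nat_lit 19848656290), (nat_lit 20511404409), (nat_lit 21266467005), (nat_lit 21844423876)], (nat_lit 0), (nat_lit 0), (nat_lit 0), (nat_lit 0), (nat_lit 0), (nat_lit 0), [], [(nat_lit 10), (nat_lit 54), (nat_lit 345), (nat_lit 125), (nat_lit 10)]⟩,
 ⟨⟨[(nat_lit 60), (nat_lit 100), (nat_lit 120)], [(nat_lit 0), (nat_lit 0), (nat_lit 1164)], [((nat_lit 0), (nat_lit 0), (nat_lit 0)), ((nat_lit 0), (nat_lit 0), (nat_lit 0)), ((nat_lit 1000), (nat_lit 933), (nat_lit 572))], ((nat_lit 93), (nat_lit 100), (nat_lit 58))⟩, (nat_lit 3000062), (nat_lit 278), (nat_lit 278), (nat_lit 0), (nat_lit 461842), [(nat_lit 3282000000), (nat_lit 6250000000), (nat_lit 7968000000)], [], [(nat_lit 24282898355), (nat_lit 25354561208), (nat_lit 24818070461), (nat_lit 25736963183), (nat_lit 30506072839), (nat_lit 31246590102), (nat_lit 30231599833), (nat_lit 30985136182)], (nat_lit 1271251), (nat_lit 1271251), (nat_lit 780000), (nat_lit 1435001), (nat_lit 1271251), (nat_lit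 1271251), [(nat_lit 780000), (nat_lit 1435001), (nat_lit 1271251)], [(nat_lit 10), (nat_lit 54), (nat_lit 260), (nat_lit 50), (nat_lit 7)]⟩,
 ⟨⟨[(nat_lit 140), (nat_lit 180), (nat_lit 200)], [(nat_lit 0), (nat_lit 0), (nat_lit 2835)], [((nat_lit 0), (nat_lit 0), (nat_lit 0)), ((nat_lit 0), (nat_lit 0), (nat_lit 0)), ((nat_lit 363), (nat_lit 1000), (nat_lit 798))], ((nat_lit 0), (nat_lit 0), (nat_lit 0))⟩, (nat_lit 363589), (nat_lit 300), (nat_lit 1701), (nat_lit 7731900), (nat_lit 3024428), [(nat_lit 974358000), (nat_lit 1391742000), (nat_lit 1623600000)], [], [(nat_lit 5822289121), (nat_lit 5565789991), (nat_lit 5580737998), (nat_lit 5325256891), (nat_lit 5680142633), (nat_lit 5418058461), (nat_lit 5446007501), (nat_lit 5186991871)], (nat_lit 780000), (nat_lit 1271251), (nat_lit 1271251), (nat_lit 1271251), (nat_lit 1271251), (nat_lit 1271251), [(nat_lit 1977501), (nat_lit 1271251), (nat_lit 1271251)], [(nat_lit 32), (nat_lit 67), (nat_lit 531),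 (nat_lit 225), (nat_lit 11)]⟩⟩)))))) (.spl (nat_lit 0) (nat_lit 290) (.ord (.spl (nat_lit 6) (nat_lit 20) (.leaf ⟨(nat_lit 0), (nat_lit 751), (nat_lit 0), (nat_lit 249), (nat_lit 3092), (nat_lit 5272), (nat_lit 8940), (nat_lit 2627), (nat_lit 15583), (nat_lit 0), (nat_lit 0), [], Pd.none, Pd.none, (nat_lit 0), (nat_lit 1), (nat_lit 0), (nat_lit 0), (nat_lit 5), (nat_lit 0), [], [], [], [],
 ⟨⟨[(nat_lit 60), (nat_lit 100), (nat_lit 120)], [(nat_lit 0), (nat_lit 0), (nat_lit 1164)], [((nat_lit 0), (nat_lit 0), (nat_lit 0)), ((nat_lit 0), (nat_lit 0), (nat_lit 0)), ((nat_lit 1000), (nat_lit 933), (nat_lit 572))], ((nat_lit 92), (nat_lit 100), (nat_lit 44))⟩, (nat_lit 0), (nat_lit 36), (nat_lit 36), (nat_lit 0), (nat_lit 0), [(nat_lit 3282000004), (nat_lit 100890860434), (nat_lit 7968000000)], [], [(nat_lit 16695801808), (nat_lit 17403258235), (nat_lit 20620684308), (nat_lit 21203389504), (nat_lit 20620684308), (nat_lit 21203389504), (nat_lit 24008480992),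 (nat_lit 24537649310)], (nat_lit 0), (nat_lit 0), (nat_lit 0), (nat_lit 0), (nat_lit 0), (nat_lit 0), [], [(nat_lit 10), (nat_lit 54), (nat_lit 373), (nat_lit 150), (nat_lit 11)]⟩,
 ⟨⟨[(nat_lit 80), (nat_lit 120), (nat_lit 140)], [(nat_lit 0), (nat_lit 0), (nat_lit 1164)], [((nat_lit 0), (nat_lit 0), (nat_lit 0)), ((nat_lit 0), (nat_lit 0), (nat_lit 0)), ((nat_lit 941), (nat_lit 1000), (nat_lit 576))], ((nat_lit 100), (nat_lit 99), (nat_lit 44))⟩, (nat_lit 3382731), (nat_lit 341), (nat_lit 341), (nat_lit 0), (nat_lit 345700), [(nat_lit 4688000000), (nat_lit 7968000000), (nat_lit 9842000000)], [], [(nat_lit 33616997200), (nat_lit 30770708771), (nat_lit 31222535520), (nat_lit 33909337195), (nat_lit 43663861640), (nat_lit 33859676540), (nat_lit 33795298600), (nat_lit 35791669325)], (nat_lit 1271251), (nat_lit 1271251), (nat_lit 1271251), (nat_lit 1271251), (nat_lit 0), (nat_lit 2825001), [(nat_lit 1100000), (nat_lit 1785001), (nat_lit 1271251)], [(nat_lit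 17), (nat_lit 58), (nat_lit 483), (nat_lit 250), (nat_lit 14)]⟩,
 ⟨⟨[(nat_lit 140), (nat_lit 160), (nat_lit 180)], [(nat_lit 0), (nat_lit 0), (nat_lit 799)], [((nat_lit 0), (nat_lit 0), (nat_lit 0)), ((nat_lit 0), (nat_lit 0), (nat_lit 0)), ((nat_lit 728), (nat_lit 1000), (nat_lit 454))], ((nat_lit 100), (nat_lit 71), (nat_lit 48))⟩, (nat_lit 218771), (nat_lit 300), (nat_lit 1287), (nat_lit 18475800), (nat_lit 1939332), [(nat_lit 2450658000), (nat_lit 2956128000), (nat_lit 3500442000)], [], [(nat_lit 16579298296), (nat_lit 16029775236), (nat_lit 16042415496), (nat_lit 15488190903), (nat_lit 16957301372), (nat_lit 19194206999), (nat_lit 12607669408), (nat_lit 14724331035)], (nat_lit 780000), (nat_lit 1271251), (nat_lit 1271251), (nat_lit 1271251), (nat_lit 0), (nat_lit 2825001), [(nat_lit 1977501), (nat_lit 1271251), (nat_lit 1271251)], [(nat_lit 31), (nat_lit 65), (nat_lit 456), (nat_lit 225), (nat_lit 11)]⟩⟩) (.dle (nat_lit 0)))) (.leaf ⟨(nat_lit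 832), (nat_lit 138), (nat_lit 0), (nat_lit 30), (nat_lit 0), (nat_lit 4037), (nat_lit 1425), (nat_lit 330), (nat_lit 6138404841), (nat_lit 0), (nat_lit 245500), [((nat_lit 300), [((nat_lit 12), (nat_lit 0), (nat_lit 582)), ((nat_lit 12), (nat_lit 1), (nat_lit 250))])], ⟨(nat_lit 6), false, true, false, (nat_lit 259), (nat_lit 5000), (nat_lit 5245), [(nat_lit 1542765), (nat_lit 1542851), (nat_lit 1606914), (nat_lit 1607130), (nat_lit 1689102), (nat_lit 1685703), (nat_lit 1753250), (nat_lit 1749981)]⟩, ⟨(nat_lit 5), false, false, true, (nat_lit 208), (nat_lit 5000), (nat_lit 5245), [(nat_lit 1414457), (nat_lit 1414284), (nat_lit 1478613), (nat_lit 1478570), (nat_lit 1560799), (nat_lit 1557141), (nat_lit 1624953), (nat_lit 1621425)]⟩, (nat_lit 5297785), (nat_lit 37745988), (nat_lit 17206556), (nat_lit 12047456), (nat_lit 5), (nat_lit 0), [], [], [⟨(nat_lit 1), (nat_lit 59), (nat_lit 97), (nat_lit 100), (nat_lit 299932)⟩], [],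
 ⟨⟨[(nat_lit 60), (nat_lit 100), (nat_lit 120)], [(nat_lit 0), (nat_lit 302), (nat_lit 1376)], [((nat_lit 0), (nat_lit 0), (nat_lit 0)), ((nat_lit 1000), (nat_lit 953), (nat_lit 118)), ((nat_lit 1000), (nat_lit 911), (nat_lit 628))], ((nat_lit 90), (nat_lit 100), (nat_lit 58))⟩, (nat_lit 0), (nat_lit 39), (nat_lit 39), (nat_lit 0), (nat_lit 0), [(nat_lit 2264544006), (nat_lit 100860353068), (nat_lit 3885724800)], [(nat_lit 0), (nat_lit 0), (nat_lit 0)], [(nat_lit 17702974661), (nat_lit 18322043218), (nat_lit 21154387592), (nat_lit 21671412831), (nat_lit 21154387592), (nat_lit 21671412831), (nat_lit 24005226944), (nat_lit 24480332801)], (nat_lit 0), (nat_lit 0), (nat_lit 0), (nat_lit 0), (nat_lit 0), (nat_lit 0), [], [(nat_lit 10), (nat_lit 54), (nat_lit 373), (nat_lit 150), (nat_lit 11)]⟩,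
 ⟨⟨[(nat_lit 80), (nat_lit 120), (nat_lit 140)], [(nat_lit 0), (nat_lit 0), (nat_lit 1164)], [((nat_lit 0), (nat_lit 0), (nat_lit 0)), ((nat_lit 0), (nat_lit 0), (nat_lit 0)), ((nat_lit 941), (nat_lit 1000), (nat_lit 576))], ((nat_lit 100), (nat_lit 94), (nat_lit 58))⟩, (nat_lit 276744), (nat_lit 433), (nat_lit 433), (nat_lit 0), (nat_lit 512581), [(nat_lit 787584000), (nat_lit 1338624000), (nat_lit 1653456000)], [], [(nat_lit 5790060162), (nat_lit 6185644844), (nat_lit 6136978086), (nat_lit 6448752059), (nat_lit 7336235958), (nat_lit 6005074746), (nat_lit 5921841852), (nat_lit 5995876919)], (nat_lit 1271251), (nat_lit 1271251), (nat_lit 1271251), (nat_lit 1271251), (nat_lit 0), (nat_lit 2825001), [(nat_lit 1100000), (nat_lit 1785001), (nat_lit 1271251)], [(nat_lit 17), (nat_lit 58), (nat_lit 483), (nat_lit 250), (nat_lit 14)]⟩,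
 ⟨⟨[(nat_lit 140), (nat_lit 180), (nat_lit 200)], [(nat_lit 0), (nat_lit 0), (nat_lit 2835)], [((nat_lit 0), (nat_lit 0), (nat_lit 0)), ((nat_lit 0), (nat_lit 0), (nat_lit 0)), ((nat_lit 363), (nat_lit 1000), (nat_lit 798))], ((nat_lit 0), (nat_lit 0), (nat_lit 0))⟩, (nat_lit 8254), (nat_lit 300), (nat_lit 1856), (nat_lit 2343000), (nat_lit 3024428), [(nat_lit 295260000), (nat_lit 421740000), (nat_lit 492000000)], [], [(nat_lit 2262103995), (nat_lit 2191550453), (nat_lit 2182683995), (nat_lit 2112355341), (nat_lit 2062249800), (nat_lit 2340733410), (nat_lit 1738073810), (nat_lit 1779233955)], (nat_lit 780000), (nat_lit 1271251), (nat_lit 1271251), (nat_lit 1271251), (nat_lit 0), (nat_lit 2825001), [(nat_lit 1977501), (nat_lit 1271251), (nat_lit 1271251)], [(nat_lit 32), (nat_lit 67), (nat_lit 572), (nat_lit 225), (nat_lit 12)]⟩⟩)))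
noncomputable def c6_25 : Tr Lf :=
 (.spl (nat_lit 6) (nat_lit 24) (.spl (nat_lit 1) (nat_lit 280) (.spl (nat_lit 6) (nat_lit 16) (.leaf ⟨(nat_lit 0), (nat_lit 518), (nat_lit 0), (nat_lit 482), (nat_lit 2001), (nat_lit 5570), (nat_lit 2603), (nat_lit 4969), (nat_lit 0), (nat_lit 0), (nat_lit 0), [], Pd.none, Pd.none, (nat_lit 0), (nat_lit 1), (nat_lit 0), (nat_lit 0), (nat_lit 5), (nat_lit 0), [], [], [], [],
 ⟨⟨[(nat_lit 60), (nat_lit 80), (nat_lit 100)], [(nat_lit 0), (nat_lit 0), (nat_lit 534)], [((nat_lit 0), (nat_lit 0), (nat_lit 0)), ((nat_lit 0), (nat_lit 0), (nat_lit 0)), ((nat_lit 1000), (nat_lit 917), (nat_lit 393))], ((nat_lit 92), (nat_lit 100), (nat_lit 39))⟩, (nat_lit 0), (nat_lit 33), (nat_lit 33), (nat_lit 0), (nat_lit 0), [(nat_lit 3282001874), (nat_lit 89562779372), (nat_lit 6250000000)], [], [(nat_lit 14249436919), (nat_lit 15932015633), (nat_lit 20608880860), (nat_lit 21933894620), (nat_lit 19146686965), (nat_lit 20669955938),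 (nat_lit 24123922020), (nat_lit 25208333805)], (nat_lit 0), (nat_lit 0), (nat_lit 0), (nat_lit 0), (nat_lit 0), (nat_lit 0), [], [(nat_lit 9), (nat_lit 50), (nat_lit 289), (nat_lit 75), (nat_lit 10)]⟩,
 ⟨⟨[(nat_lit 80), (nat_lit 100), (nat_lit 120)], [(nat_lit 0), (nat_lit 0), (nat_lit 511)], [((nat_lit 0), (nat_lit 0), (nat_lit 0)), ((nat_lit 0), (nat_lit 0), (nat_lit 0)), ((nat_lit 1000), (nat_lit 997), (nat_lit 383))], ((nat_lit 100), (nat_lit 100), (nat_lit 40))⟩, (nat_lit 5886198), (nat_lit 272), (nat_lit 272), (nat_lit 0), (nat_lit 311739), [(nat_lit 4688000000), (nat_lit 6250000000), (nat_lit 7968000000)], [], [(nat_lit 36160046278), (nat_lit 34379972948), (nat_lit 37121472080), (nat_lit 38500039901), (nat_lit 44031180194), (nat_lit 42608760642), (nat_lit 53887927466), (nat_lit 51713243307)], (nat_lit 1271251), (nat_lit 1271251), (nat_lit 780000), (nat_lit 2090001), (nat_lit 0), (nat_lit 2825001), [(nat_lit 1100000), (nat_lit 1442501), (nat_lit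 1271251)], [(nat_lit 16), (nat_lit 54), (nat_lit 401), (nat_lit 175), (nat_lit 13)]⟩,
 ⟨⟨[(nat_lit 120), (nat_lit 140), (nat_lit 160)], [(nat_lit 0), (nat_lit 266), (nat_lit 862)], [((nat_lit 0), (nat_lit 0), (nat_lit 0)), ((nat_lit 960), (nat_lit 1000), (nat_lit 200)), ((nat_lit 874), (nat_lit 1000), (nat_lit 406))], ((nat_lit 100), (nat_lit 88), (nat_lit 39))⟩, (nat_lit 989370), (nat_lit 300), (nat_lit 563), (nat_lit 32004800), (nat_lit 610040), [(nat_lit 3840576000), (nat_lit 4743844000), (nat_lit 5722304000)], [], [(nat_lit 22409997954), (nat_lit 22262279917), (nat_lit 22508806454), (nat_lit 22355503702), (nat_lit 31452184456), (nat_lit 27092721748), (nat_lit 22786611193), (nat_lit 18631165050)], (nat_lit 1271251), (nat_lit 1271251), (nat_lit 1271251), (nat_lit 1271251), (nat_lit 0), (nat_lit 2825001), [(nat_lit 1695001), (nat_lit 1271251), (nat_lit 1271251)], [(nat_lit 27), (nat_lit 62), (nat_lit 456), (nat_lit 225), (nat_lit 12)]⟩⟩) (.dle (nat_lit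 0))) (.leaf ⟨(nat_lit 0), (nat_lit 695), (nat_lit 0), (nat_lit 305), (nat_lit 0), (nat_lit 5191), (nat_lit 3805), (nat_lit 2574), (nat_lit 2974299547), (nat_lit 0), (nat_lit 0), [], Pd.none, Pd.none, (nat_lit 0), (nat_lit 1), (nat_lit 0), (nat_lit 0), (nat_lit 5), (nat_lit 0), [], [], [], [],
 ⟨⟨[(nat_lit 60), (nat_lit 100), (nat_lit 120)], [(nat_lit 0), (nat_lit 0), (nat_lit 1164)], [((nat_lit 0), (nat_lit 0), (nat_lit 0)), ((nat_lit 0), (nat_lit 0), (nat_lit 0)), ((nat_lit 1000), (nat_lit 933), (nat_lit 572))], ((nat_lit 92), (nat_lit 100), (nat_lit 48))⟩, (nat_lit 122610), (nat_lit 39), (nat_lit 39), (nat_lit 0), (nat_lit 0), [(nat_lit 3282000004), (nat_lit 101261110832), (nat_lit 7968000000)], [], [(nat_lit 14681165888), (nat_lit 16297222897), (nat_lit 20688510104), (nat_lit 21844423847), (nat_lit 19185908142), (nat_lit 20511404380), (nat_lit 23977102726), (nat_lit 25028351822)], (nat_lit 0), (nat_lit 0), (nat_lit 0), (nat_lit 0), (nat_lit 0),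 (nat_lit 0), [], [(nat_lit 10), (nat_lit 54), (nat_lit 373), (nat_lit 150), (nat_lit 11)]⟩,
 ⟨⟨[(nat_lit 60), (nat_lit 100), (nat_lit 120)], [(nat_lit 0), (nat_lit 0), (nat_lit 1164)], [((nat_lit 0), (nat_lit 0), (nat_lit 0)), ((nat_lit 0), (nat_lit 0), (nat_lit 0)), ((nat_lit 1000), (nat_lit 933), (nat_lit 572))], ((nat_lit 92), (nat_lit 100), (nat_lit 48))⟩, (nat_lit 2889334), (nat_lit 314), (nat_lit 314), (nat_lit 0), (nat_lit 392535), [(nat_lit 3282000000), (nat_lit 6250000000), (nat_lit 7968000000)], [], [(nat_lit 35392892915), (nat_lit 33364974408), (nat_lit 34289703260), (nat_lit 35098649495), (nat_lit 38272909220), (nat_lit 38799479150), (nat_lit 49070130840), (nat_lit 47441860995)], (nat_lit 1271251), (nat_lit 1271251), (nat_lit 780000), (nat_lit 2090001), (nat_lit 0), (nat_lit 2825001), [(nat_lit 780000), (nat_lit 1435001), (nat_lit 1271251)], [(nat_lit 10), (nat_lit 54), (nat_lit 401), (nat_lit 175), (nat_lit 13)]⟩,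
 ⟨⟨[(nat_lit 120), (nat_lit 140), (nat_lit 160)], [(nat_lit 0), (nat_lit 266), (nat_lit 862)], [((nat_lit 0), (nat_lit 0), (nat_lit 0)), ((nat_lit 960), (nat_lit 1000), (nat_lit 200)), ((nat_lit 874), (nat_lit 1000), (nat_lit 406))], ((nat_lit 100), (nat_lit 83), (nat_lit 48))⟩, (nat_lit 909522), (nat_lit 300), (nat_lit 762), (nat_lit 20252000), (nat_lit 1026478), [(nat_lit 2430240000), (nat_lit 3001810000), (nat_lit 3620960000)], [], [(nat_lit 17159755550), (nat_lit 17019385953), (nat_lit 17033071553), (nat_lit 16867738537), (nat_lit 19005746956), (nat_lit 16747494388), (nat_lit 14759967167), (nat_lit 14527218720)], (nat_lit 1271251), (nat_lit 1271251), (nat_lit 1271251), (nat_lit 1271251), (nat_lit 0), (nat_lit 2825001), [(nat_lit 1695001), (nat_lit 1271251), (nat_lit 1271251)], [(nat_lit 27), (nat_lit 62), (nat_lit 456), (nat_lit 225), (nat_lit 12)]⟩⟩)) (.dle (nat_lit 0)))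
noncomputable def c6_26 : Tr Lf :=
 (.spl (nat_lit 5) (nat_lit 200) (.leaf ⟨(nat_lit 0), (nat_lit 875), (nat_lit 0), (nat_lit 125), (nat_lit 0), (nat_lit 6663), (nat_lit 8198), (nat_lit 1380), (nat_lit 154399028665), (nat_lit 0), (nat_lit 0), [], Pd.none, Pd.none, (nat_lit 0), (nat_lit 1), (nat_lit 0), (nat_lit 0), (nat_lit 3), (nat_lit 0), [], [], [], [⟨(nat_lit 0), (nat_lit 100), (nat_lit 71), (nat_lit 70), (nat_lit 29135158)⟩],
 ⟨⟨[(nat_lit 60), (nat_lit 100), (nat_lit 120)], [(nat_lit 0), (nat_lit 0), (nat_lit 1164)], [((nat_lit 0), (nat_lit 0), (nat_lit 0)), ((nat_lit 0), (nat_lit 0), (nat_lit 0)), ((nat_lit 1000), (nat_lit 933), (nat_lit 572))], ((nat_lit 93), (nat_lit 100), (nat_lit 58))⟩, (nat_lit 2389421), (nat_lit 111), (nat_lit 111), (nat_lit 0), (nat_lit 0), [(nat_lit 3954373360), (nat_lit 6250000001), (nat_lit 7968000000)], [], [(nat_lit 22981266125), (nat_lit 24170871828), (nat_lit 31569738985), (nat_lit 32399002901), (nat_lit 26457221650),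 (nat_lit 27377650757), (nat_lit 33064320860), (nat_lit 33642410082)], (nat_lit 0), (nat_lit 0), (nat_lit 0), (nat_lit 0), (nat_lit 0), (nat_lit 0), [], [(nat_lit 10), (nat_lit 54), (nat_lit 289), (nat_lit 75), (nat_lit 8)]⟩,
 ⟨⟨[(nat_lit 80), (nat_lit 120), (nat_lit 140)], [(nat_lit 0), (nat_lit 0), (nat_lit 1164)], [((nat_lit 0), (nat_lit 0), (nat_lit 0)), ((nat_lit 0), (nat_lit 0), (nat_lit 0)), ((nat_lit 941), (nat_lit 1000), (nat_lit 576))], ((nat_lit 100), (nat_lit 94), (nat_lit 58))⟩, (nat_lit 2415906), (nat_lit 444), (nat_lit 444), (nat_lit 0), (nat_lit 517876), [(nat_lit 4688000000), (nat_lit 7968000000), (nat_lit 9842000000)], [], [(nat_lit 36213693372), (nat_lit 38052826275), (nat_lit 41774495944), (nat_lit 42993254872), (nat_lit 31026586236), (nat_lit 32552024921), (nat_lit 35487804132), (nat_lit 36334758498)], (nat_lit 1271251), (nat_lit 1271251), (nat_lit 1271251), (nat_lit 1271251), (nat_lit 0), (nat_lit 1412501), [(nat_lit 1100000),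 (nat_lit 1785001), (nat_lit 1271251)], [(nat_lit 17), (nat_lit 58), (nat_lit 345), (nat_lit 125), (nat_lit 9)]⟩,
 ⟨⟨[(nat_lit 140), (nat_lit 180), (nat_lit 200)], [(nat_lit 0), (nat_lit 0), (nat_lit 2835)], [((nat_lit 0), (nat_lit 0), (nat_lit 0)), ((nat_lit 0), (nat_lit 0), (nat_lit 0)), ((nat_lit 363), (nat_lit 1000), (nat_lit 798))], ((nat_lit 0), (nat_lit 0), (nat_lit 0))⟩, (nat_lit 82092), (nat_lit 300), (nat_lit 1896), (nat_lit 9762500), (nat_lit 3024428), [(nat_lit 1230250000), (nat_lit 1757250000), (nat_lit 2050000000)], [], [(nat_lit 9782571260), (nat_lit 9285792945), (nat_lit 9047538230), (nat_lit 8561779658), (nat_lit 8621401337), (nat_lit 8158774821), (nat_lit 8735904380), (nat_lit 10575098915)], (nat_lit 780000), (nat_lit 1598751), (nat_lit 780000), (nat_lit 2090001), (nat_lit 0), (nat_lit 1412501), [(nat_lit 1977501), (nat_lit 1271251), (nat_lit 1271251)], [(nat_lit 32), (nat_lit 67), (nat_lit 562), (nat_lit 175), (nat_lit 12)]⟩⟩) (.spl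 (nat_lit 1) (nat_lit 280) (.spl (nat_lit 6) (nat_lit 20) (.leaf ⟨(nat_lit 0), (nat_lit 802), (nat_lit 0), (nat_lit 198), (nat_lit 0), (nat_lit 6663), (nat_lit 7640), (nat_lit 2104), (nat_lit 0), (nat_lit 0), (nat_lit 0), [], Pd.none, Pd.none, (nat_lit 0), (nat_lit 1), (nat_lit 0), (nat_lit 0), (nat_lit 5), (nat_lit 0), [], [], [⟨(nat_lit 1), (nat_lit 44), (nat_lit 96), (nat_lit 100), (nat_lit 215782484)⟩], [],
 ⟨⟨[(nat_lit 60), (nat_lit 100), (nat_lit 120)], [(nat_lit 0), (nat_lit 0), (nat_lit 1164)], [((nat_lit 0), (nat_lit 0), (nat_lit 0)), ((nat_lit 0), (nat_lit 0), (nat_lit 0)), ((nat_lit 1000), (nat_lit 933), (nat_lit 572))], ((nat_lit 92), (nat_lit 100), (nat_lit 44))⟩, (nat_lit 3040297), (nat_lit 111), (nat_lit 111), (nat_lit 0), (nat_lit 0), [(nat_lit 3881692888), (nat_lit 6250000006), (nat_lit 7968000000)], [], [(nat_lit 22553562015), (nat_lit 23821937893), (nat_lit 31569738990), (nat_lit 32399002906), (nat_lit 26457221655), (nat_lit 27377650762),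 (nat_lit 33064320865), (nat_lit 33642410082)], (nat_lit 0), (nat_lit 0), (nat_lit 0), (nat_lit 0), (nat_lit 0), (nat_lit 0), [], [(nat_lit 10), (nat_lit 54), (nat_lit 289), (nat_lit 75), (nat_lit 8)]⟩,
 ⟨⟨[(nat_lit 80), (nat_lit 120), (nat_lit 140)], [(nat_lit 0), (nat_lit 0), (nat_lit 1164)], [((nat_lit 0), (nat_lit 0), (nat_lit 0)), ((nat_lit 0), (nat_lit 0), (nat_lit 0)), ((nat_lit 941), (nat_lit 1000), (nat_lit 576))], ((nat_lit 100), (nat_lit 99), (nat_lit 44))⟩, (nat_lit 2757595), (nat_lit 246), (nat_lit 246), (nat_lit 0), (nat_lit 374179), [(nat_lit 4688000000), (nat_lit 7968000000), (nat_lit 9842000000)], [], [(nat_lit 28627983520), (nat_lit 29942814340), (nat_lit 34598731280), (nat_lit 35512701920), (nat_lit 35582527280), (nat_lit 36280327800), (nat_lit 39100275520), (nat_lit 39937956640)], (nat_lit 1271251), (nat_lit 1271251), (nat_lit 1271251), (nat_lit 1271251), (nat_lit 1271251), (nat_lit 1271251), [(nat_lit 1100000), (nat_lit 1785001),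 (nat_lit 1271251)], [(nat_lit 17), (nat_lit 58), (nat_lit 401), (nat_lit 175), (nat_lit 10)]⟩,
 ⟨⟨[(nat_lit 140), (nat_lit 160), (nat_lit 180)], [(nat_lit 0), (nat_lit 0), (nat_lit 799)], [((nat_lit 0), (nat_lit 0), (nat_lit 0)), ((nat_lit 0), (nat_lit 0), (nat_lit 0)), ((nat_lit 728), (nat_lit 1000), (nat_lit 454))], ((nat_lit 100), (nat_lit 71), (nat_lit 48))⟩, (nat_lit 455143), (nat_lit 300), (nat_lit 1221), (nat_lit 14691600), (nat_lit 1985062), [(nat_lit 1948716000), (nat_lit 2350656000), (nat_lit 2783484000)], [], [(nat_lit 11666585614), (nat_lit 11004092360), (nat_lit 10697968406), (nat_lit 10021191715), (nat_lit 10945592852), (nat_lit 10247121383), (nat_lit 9930986216), (nat_lit 9243788214)], (nat_lit 780000), (nat_lit 1598751), (nat_lit 780000), (nat_lit 2090001), (nat_lit 1271251), (nat_lit 1271251), [(nat_lit 1977501), (nat_lit 1271251), (nat_lit 1271251)], [(nat_lit 31), (nat_lit 65), (nat_lit 456), (nat_lit 225), (nat_lit 10)]⟩⟩) (.dle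 (nat_lit 0))) (.leaf ⟨(nat_lit 0), (nat_lit 873), (nat_lit 0), (nat_lit 127), (nat_lit 0), (nat_lit 6663), (nat_lit 6381), (nat_lit 1422), (nat_lit 1460929770861), (nat_lit 0), (nat_lit 0), [], Pd.none, Pd.none, (nat_lit 0), (nat_lit 1), (nat_lit 0), (nat_lit 0), (nat_lit 5), (nat_lit 0), [], [], [⟨(nat_lit 1), (nat_lit 59), (nat_lit 90), (nat_lit 100), (nat_lit 296635292)⟩], [],
 ⟨⟨[(nat_lit 60), (nat_lit 100), (nat_lit 120)], [(nat_lit 0), (nat_lit 0), (nat_lit 1164)], [((nat_lit 0), (nat_lit 0), (nat_lit 0)), ((nat_lit 0), (nat_lit 0), (nat_lit 0)), ((nat_lit 1000), (nat_lit 933), (nat_lit 572))], ((nat_lit 93), (nat_lit 100), (nat_lit 58))⟩, (nat_lit 2323220), (nat_lit 111), (nat_lit 111), (nat_lit 0), (nat_lit 0), [(nat_lit 3948540755), (nat_lit 6250000027), (nat_lit 7968000000)], [], [(nat_lit 23058324089), (nat_lit 24247929792), (nat_lit 31569739011), (nat_lit 32399002927), (nat_lit 26457221676), (nat_lit 27377650783), (nat_lit 33064320886),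 (nat_lit 33642410082)], (nat_lit 0), (nat_lit 0), (nat_lit 0), (nat_lit 0), (nat_lit 0), (nat_lit 0), [], [(nat_lit 10), (nat_lit 54), (nat_lit 289), (nat_lit 75), (nat_lit 8)]⟩,
 ⟨⟨[(nat_lit 60), (nat_lit 100), (nat_lit 120)], [(nat_lit 0), (nat_lit 0), (nat_lit 1164)], [((nat_lit 0), (nat_lit 0), (nat_lit 0)), ((nat_lit 0), (nat_lit 0), (nat_lit 0)), ((nat_lit 1000), (nat_lit 933), (nat_lit 572))], ((nat_lit 93), (nat_lit 100), (nat_lit 58))⟩, (nat_lit 1889141), (nat_lit 259), (nat_lit 259), (nat_lit 0), (nat_lit 463948), [(nat_lit 3282000000), (nat_lit 6250000000), (nat_lit 7968000000)], [], [(nat_lit 27670564129), (nat_lit 28448517423), (nat_lit 33250912454), (nat_lit 33804355603), (nat_lit 34465353611), (nat_lit 34910993321), (nat_lit 38118480056), (nat_lit 38544491880)], (nat_lit 1271251), (nat_lit 1271251), (nat_lit 1271251), (nat_lit 1271251), (nat_lit 1271251), (nat_lit 1271251), [(nat_lit 780000), (nat_lit 1435001), (nat_lit 1271251)], [(nat_lit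 10), (nat_lit 54), (nat_lit 317), (nat_lit 100), (nat_lit 9)]⟩,
 ⟨⟨[(nat_lit 140), (nat_lit 180), (nat_lit 200)], [(nat_lit 0), (nat_lit 0), (nat_lit 2835)], [((nat_lit 0), (nat_lit 0), (nat_lit 0)), ((nat_lit 0), (nat_lit 0), (nat_lit 0)), ((nat_lit 363), (nat_lit 1000), (nat_lit 798))], ((nat_lit 0), (nat_lit 0), (nat_lit 0))⟩, (nat_lit 83019), (nat_lit 300), (nat_lit 1775), (nat_lit 9918700), (nat_lit 3024428), [(nat_lit 1249934000), (nat_lit 1785366000), (nat_lit 2082800000)], [], [(nat_lit 8453814258), (nat_lit 7958283532), (nat_lit 7700917030), (nat_lit 7208839016), (nat_lit 7858478368), (nat_lit 7344173661), (nat_lit 7111312310), (nat_lit 6591472004)], (nat_lit 780000), (nat_lit 1598751), (nat_lit 780000), (nat_lit 2090001), (nat_lit 1271251), (nat_lit 1271251), [(nat_lit 1977501), (nat_lit 1271251), (nat_lit 1271251)], [(nat_lit 32), (nat_lit 67), (nat_lit 557), (nat_lit 225), (nat_lit 12)]⟩⟩)))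
noncomputable def c6_27 : Tr Lf :=
 (.spl (nat_lit 1) (nat_lit 280) (.spl (nat_lit 6) (nat_lit 20) (.leaf ⟨(nat_lit 0), (nat_lit 800), (nat_lit 0), (nat_lit 200), (nat_lit 5429), (nat_lit 5968), (nat_lit 6457), (nat_lit 1949), (nat_lit 0), (nat_lit 0), (nat_lit 0), [], Pd.none, Pd.none, (nat_lit 0), (nat_lit 1), (nat_lit 0), (nat_lit 0), (nat_lit 3), (nat_lit 0), [], [], [], [],
 ⟨⟨[(nat_lit 60), (nat_lit 100), (nat_lit 120)], [(nat_lit 0), (nat_lit 0), (nat_lit 1164)], [((nat_lit 0), (nat_lit 0), (nat_lit 0)), ((nat_lit 0), (nat_lit 0), (nat_lit 0)), ((nat_lit 1000), (nat_lit 933), (nat_lit 572))], ((nat_lit 92), (nat_lit 100), (nat_lit 44))⟩, (nat_lit 2000610), (nat_lit 216), (nat_lit 216), (nat_lit 0), (nat_lit 305550), [(nat_lit 3282000007), (nat_lit 6250000007), (nat_lit 7968000000)], [], [(nat_lit 29490192190), (nat_lit 26357004126), (nat_lit 33910248343), (nat_lit 34534939154), (nat_lit 28052495466), (nat_lit 28831788396), (nat_lit 46375548846),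 (nat_lit 43757590158)], (nat_lit 1271251), (nat_lit 1271251), (nat_lit 780000), (nat_lit 3072501), (nat_lit 780000), (nat_lit 2090001), [(nat_lit 780000), (nat_lit 1435001), (nat_lit 1271251)], [(nat_lit 10), (nat_lit 54), (nat_lit 401), (nat_lit 175), (nat_lit 13)]⟩,
 ⟨⟨[(nat_lit 80), (nat_lit 120), (nat_lit 140)], [(nat_lit 0), (nat_lit 0), (nat_lit 1164)], [((nat_lit 0), (nat_lit 0), (nat_lit 0)), ((nat_lit 0), (nat_lit 0), (nat_lit 0)), ((nat_lit 941), (nat_lit 1000), (nat_lit 576))], ((nat_lit 100), (nat_lit 99), (nat_lit 44))⟩, (nat_lit 3319342), (nat_lit 227), (nat_lit 227), (nat_lit 0), (nat_lit 0), [(nat_lit 4688000000), (nat_lit 7968000000), (nat_lit 9842000000)], [], [(nat_lit 23086835186), (nat_lit 25881115316), (nat_lit 37588985848), (nat_lit 39217006930), (nat_lit 21643228005), (nat_lit 23789068553), (nat_lit 32601933980), (nat_lit 33892856262)], (nat_lit 0), (nat_lit 0), (nat_lit 0), (nat_lit 0), (nat_lit 0), (nat_lit 0), [], [(nat_lit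 17), (nat_lit 58), (nat_lit 456), (nat_lit 225), (nat_lit 13)]⟩,
 ⟨⟨[(nat_lit 140), (nat_lit 160), (nat_lit 180)], [(nat_lit 0), (nat_lit 0), (nat_lit 799)], [((nat_lit 0), (nat_lit 0), (nat_lit 0)), ((nat_lit 0), (nat_lit 0), (nat_lit 0)), ((nat_lit 728), (nat_lit 1000), (nat_lit 454))], ((nat_lit 100), (nat_lit 71), (nat_lit 48))⟩, (nat_lit 175720), (nat_lit 300), (nat_lit 961), (nat_lit 14840000), (nat_lit 1128634), [(nat_lit 1968400000), (nat_lit 2374400000), (nat_lit 2811600000)], [], [(nat_lit 14349412724), (nat_lit 13773248418), (nat_lit 13535711603), (nat_lit 12938152317), (nat_lit 12566365927), (nat_lit 12006375582), (nat_lit 13527641449), (nat_lit 16202002611)], (nat_lit 780000), (nat_lit 1598751), (nat_lit 780000), (nat_lit 2090001), (nat_lit 0), (nat_lit 1412501), [(nat_lit 1977501), (nat_lit 1271251), (nat_lit 1271251)], [(nat_lit 31), (nat_lit 65), (nat_lit 401), (nat_lit 175), (nat_lit 10)]⟩⟩) (.dle (nat_lit 0))) (.leaf ⟨(nat_lit 0),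 (nat_lit 833), (nat_lit 0), (nat_lit 167), (nat_lit 0), (nat_lit 5693), (nat_lit 6125), (nat_lit 1820), (nat_lit 11033134712314), (nat_lit 0), (nat_lit 0), [], Pd.none, Pd.none, (nat_lit 0), (nat_lit 1), (nat_lit 0), (nat_lit 0), (nat_lit 3), (nat_lit 0), [], [], [], [],
 ⟨⟨[(nat_lit 60), (nat_lit 100), (nat_lit 120)], [(nat_lit 0), (nat_lit 0), (nat_lit 1164)], [((nat_lit 0), (nat_lit 0), (nat_lit 0)), ((nat_lit 0), (nat_lit 0), (nat_lit 0)), ((nat_lit 1000), (nat_lit 933), (nat_lit 572))], ((nat_lit 93), (nat_lit 100), (nat_lit 58))⟩, (nat_lit 1182957), (nat_lit 284), (nat_lit 284), (nat_lit 0), (nat_lit 463948), [(nat_lit 3282000157), (nat_lit 6250000141), (nat_lit 7968000000)], [], [(nat_lit 29355358065), (nat_lit 27047267437), (nat_lit 35220058394), (nat_lit 35790206071), (nat_lit 29722792992), (nat_lit 30488865985), (nat_lit 46183468780), (nat_lit 43686143242)], (nat_lit 1271251), (nat_lit 1271251), (nat_lit 780000), (nat_lit 3072501), (nat_lit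 780000), (nat_lit 2090001), [(nat_lit 780000), (nat_lit 1435001), (nat_lit 1271251)], [(nat_lit 10), (nat_lit 54), (nat_lit 401), (nat_lit 175), (nat_lit 13)]⟩,
 ⟨⟨[(nat_lit 60), (nat_lit 100), (nat_lit 120)], [(nat_lit 0), (nat_lit 0), (nat_lit 1164)], [((nat_lit 0), (nat_lit 0), (nat_lit 0)), ((nat_lit 0), (nat_lit 0), (nat_lit 0)), ((nat_lit 1000), (nat_lit 933), (nat_lit 572))], ((nat_lit 93), (nat_lit 100), (nat_lit 58))⟩, (nat_lit 2262652), (nat_lit 197), (nat_lit 197), (nat_lit 0), (nat_lit 0), [(nat_lit 3282000000), (nat_lit 6250000000), (nat_lit 7968000000)], [], [(nat_lit 21418041822), (nat_lit 23226017697), (nat_lit 36313392500), (nat_lit 37345224625), (nat_lit 19956663563), (nat_lit 21171775947), (nat_lit 31619568125), (nat_lit 32320323563)], (nat_lit 0), (nat_lit 0), (nat_lit 0), (nat_lit 0), (nat_lit 0), (nat_lit 0), [], [(nat_lit 10), (nat_lit 54), (nat_lit 373), (nat_lit 150), (nat_lit 12)]⟩,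
 ⟨⟨[(nat_lit 140), (nat_lit 180), (nat_lit 200)], [(nat_lit 0), (nat_lit 0), (nat_lit 2835)], [((nat_lit 0), (nat_lit 0), (nat_lit 0)), ((nat_lit 0), (nat_lit 0), (nat_lit 0)), ((nat_lit 363), (nat_lit 1000), (nat_lit 798))], ((nat_lit 0), (nat_lit 0), (nat_lit 0))⟩, (nat_lit 45947), (nat_lit 300), (nat_lit 1311), (nat_lit 13042702), (nat_lit 1762861), [(nat_lit 1643614000), (nat_lit 2347686000), (nat_lit 2738800000)], [], [(nat_lit 13211762132), (nat_lit 12548233628), (nat_lit 12229050396), (nat_lit 11564679774), (nat_lit 11441155901), (nat_lit 10799636220), (nat_lit 11630043172), (nat_lit 14062672205)], (nat_lit 780000), (nat_lit 1598751), (nat_lit 780000), (nat_lit 2090001), (nat_lit 0), (nat_lit 1412501), [(nat_lit 1977501), (nat_lit 1271251), (nat_lit 1271251)], [(nat_lit 32), (nat_lit 67), (nat_lit 416), (nat_lit 175), (nat_lit 9)]⟩⟩))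
noncomputable def c6_28 : Tr Lf :=
 (.spl (nat_lit 6) (nat_lit 20) (.spl (nat_lit 1) (nat_lit 260) (.spl (nat_lit 6) (nat_lit 12) (.spl (nat_lit 3) (nat_lit 280) (.leaf ⟨(nat_lit 0), (nat_lit 679), (nat_lit 0), (nat_lit 321), (nat_lit 3440), (nat_lit 5206), (nat_lit 2796), (nat_lit 1307), (nat_lit 0), (nat_lit 0), (nat_lit 0), [], Pd.none, Pd.none, (nat_lit 0), (nat_lit 1), (nat_lit 0), (nat_lit 0), (nat_lit 3), (nat_lit 0), [], [], [], [],
 ⟨⟨[(nat_lit 60), (nat_lit 80), (nat_lit 100)], [(nat_lit 0), (nat_lit 0), (nat_lit 534)], [((nat_lit 0), (nat_lit 0), (nat_lit 0)), ((nat_lit 0), (nat_lit 0), (nat_lit 0)), ((nat_lit 1000), (nat_lit 917), (nat_lit 393))], ((nat_lit 92), (nat_lit 100), (nat_lit 34))⟩, (nat_lit 0), (nat_lit 137), (nat_lit 137), (nat_lit 0), (nat_lit 101223), [(nat_lit 3282000773), (nat_lit 88487761204), (nat_lit 6250000000)], [], [(nat_lit 12151315114), (nat_lit 14019182928), (nat_lit 19174647181), (nat_lit 20517505913), (nat_lit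 19174647181), (nat_lit 20517505913), (nat_lit 23982913516), (nat_lit 25035475119)], (nat_lit 1271251), (nat_lit 1271251), (nat_lit 780000), (nat_lit 2090001), (nat_lit 780000), (nat_lit 2090001), [(nat_lit 780000), (nat_lit 1100000), (nat_lit 1442501)], [(nat_lit 9), (nat_lit 50), (nat_lit 373), (nat_lit 150), (nat_lit 14)]⟩,
 ⟨⟨[(nat_lit 80), (nat_lit 100), (nat_lit 120)], [(nat_lit 0), (nat_lit 0), (nat_lit 511)], [((nat_lit 0), (nat_lit 0), (nat_lit 0)), ((nat_lit 0), (nat_lit 0), (nat_lit 0)), ((nat_lit 1000), (nat_lit 997), (nat_lit 383))], ((nat_lit 99), (nat_lit 100), (nat_lit 34))⟩, (nat_lit 754026), (nat_lit 219), (nat_lit 219), (nat_lit 0), (nat_lit 125423), [(nat_lit 4688000000), (nat_lit 6250000000), (nat_lit 7968000000)], [], [(nat_lit 35221780416), (nat_lit 35777844190), (nat_lit 40563524776), (nat_lit 39792967484), (nat_lit 39502034712), (nat_lit 38210265237), (nat_lit 49192543752), (nat_lit 47965830906)], (nat_lit 1271251), (nat_lit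 1271251), (nat_lit 780000), (nat_lit 2090001), (nat_lit 0), (nat_lit 1412501), [(nat_lit 1100000), (nat_lit 1442501), (nat_lit 1271251)], [(nat_lit 16), (nat_lit 54), (nat_lit 345), (nat_lit 125), (nat_lit 11)]⟩,
 ⟨⟨[(nat_lit 140), (nat_lit 160), (nat_lit 180)], [(nat_lit 0), (nat_lit 0), (nat_lit 799)], [((nat_lit 0), (nat_lit 0), (nat_lit 0)), ((nat_lit 0), (nat_lit 0), (nat_lit 0)), ((nat_lit 728), (nat_lit 1000), (nat_lit 454))], ((nat_lit 100), (nat_lit 79), (nat_lit 37))⟩, (nat_lit 282033), (nat_lit 300), (nat_lit 488), (nat_lit 23818200), (nat_lit 186331), [(nat_lit 3159282000), (nat_lit 3810912000), (nat_lit 4512618000)], [], [(nat_lit 20189123627), (nat_lit 20376885082), (nat_lit 20641420470), (nat_lit 20724423595), (nat_lit 19612480259), (nat_lit 19753436290), (nat_lit 19965907003), (nat_lit 20954540148)], (nat_lit 780000), (nat_lit 1598751), (nat_lit 780000), (nat_lit 2090001), (nat_lit 0), (nat_lit 1412501), [(nat_lit 1977501), (nat_lit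 1271251), (nat_lit 1271251)], [(nat_lit 31), (nat_lit 65), (nat_lit 401), (nat_lit 175), (nat_lit 10)]⟩⟩) (.leaf ⟨(nat_lit 0), (nat_lit 696), (nat_lit 0), (nat_lit 304), (nat_lit 8291), (nat_lit 5552), (nat_lit 6725), (nat_lit 1823), (nat_lit 0), (nat_lit 0), (nat_lit 0), [], Pd.none, Pd.none, (nat_lit 0), (nat_lit 1), (nat_lit 0), (nat_lit 0), (nat_lit 3), (nat_lit 0), [], [], [], [⟨(nat_lit 0), (nat_lit 100), (nat_lit 71), (nat_lit 70), (nat_lit 92612972)⟩],
 ⟨⟨[(nat_lit 60), (nat_lit 80), (nat_lit 100)], [(nat_lit 0), (nat_lit 0), (nat_lit 534)], [((nat_lit 0), (nat_lit 0), (nat_lit 0)), ((nat_lit 0), (nat_lit 0), (nat_lit 0)), ((nat_lit 1000), (nat_lit 917), (nat_lit 393))], ((nat_lit 92), (nat_lit 100), (nat_lit 34))⟩, (nat_lit 3614381), (nat_lit 130), (nat_lit 130), (nat_lit 0), (nat_lit 101223), [(nat_lit 3282000027), (nat_lit 4688000018), (nat_lit 6250000000)], [], [(nat_lit 21925706705), (nat_lit 22993433951), (nat_lit 29672580682), (nat_lit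 30451369646), (nat_lit 25531258101), (nat_lit 26301543689), (nat_lit 31706261344), (nat_lit 32398922776)], (nat_lit 1271251), (nat_lit 1271251), (nat_lit 1271251), (nat_lit 1271251), (nat_lit 780000), (nat_lit 2090001), [(nat_lit 780000), (nat_lit 1100000), (nat_lit 1442501)], [(nat_lit 9), (nat_lit 50), (nat_lit 289), (nat_lit 75), (nat_lit 10)]⟩,
 ⟨⟨[(nat_lit 80), (nat_lit 100), (nat_lit 120)], [(nat_lit 0), (nat_lit 0), (nat_lit 511)], [((nat_lit 0), (nat_lit 0), (nat_lit 0)), ((nat_lit 0), (nat_lit 0), (nat_lit 0)), ((nat_lit 1000), (nat_lit 997), (nat_lit 383))], ((nat_lit 99), (nat_lit 100), (nat_lit 34))⟩, (nat_lit 4827020), (nat_lit 247), (nat_lit 247), (nat_lit 0), (nat_lit 125423), [(nat_lit 4688000000), (nat_lit 6250000000), (nat_lit 7968000000)], [], [(nat_lit 29017757980), (nat_lit 29881396468), (nat_lit 36076690780), (nat_lit 36762528000), (nat_lit 26372485330), (nat_lit 27027513037), (nat_lit 31927247550), (nat_lit 32391451513)], (nat_lit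 1271251), (nat_lit 1271251), (nat_lit 1271251), (nat_lit 1271251), (nat_lit 0), (nat_lit 1412501), [(nat_lit 1100000), (nat_lit 1442501), (nat_lit 1271251)], [(nat_lit 16), (nat_lit 54), (nat_lit 260), (nat_lit 50), (nat_lit 8)]⟩,
 ⟨⟨[(nat_lit 140), (nat_lit 160), (nat_lit 180)], [(nat_lit 0), (nat_lit 0), (nat_lit 799)], [((nat_lit 0), (nat_lit 0), (nat_lit 0)), ((nat_lit 0), (nat_lit 0), (nat_lit 0)), ((nat_lit 728), (nat_lit 1000), (nat_lit 454))], ((nat_lit 100), (nat_lit 79), (nat_lit 37))⟩, (nat_lit 267094), (nat_lit 300), (nat_lit 488), (nat_lit 22556800), (nat_lit 186331), [(nat_lit 2991968000), (nat_lit 3609088000), (nat_lit 4273632000)], [], [(nat_lit 18679390588), (nat_lit 18670499615), (nat_lit 18866619958), (nat_lit 18733072912), (nat_lit 17425041716), (nat_lit 17370039577), (nat_lit 18583078947), (nat_lit 21467491831)], (nat_lit 780000), (nat_lit 1598751), (nat_lit 780000), (nat_lit 2090001), (nat_lit 0), (nat_lit 1412501), [(nat_lit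 1977501), (nat_lit 1271251), (nat_lit 1271251)], [(nat_lit 31), (nat_lit 65), (nat_lit 401), (nat_lit 175), (nat_lit 10)]⟩⟩)) (.dle (nat_lit 0))) (.spl (nat_lit 5) (nat_lit 120) (.spl (nat_lit 3) (nat_lit 280) (.leaf ⟨(nat_lit 0), (nat_lit 722), (nat_lit 0), (nat_lit 278), (nat_lit 13234), (nat_lit 9781), (nat_lit 4634), (nat_lit 2331), (nat_lit 0), (nat_lit 0), (nat_lit 0), [], Pd.none, Pd.none, (nat_lit 0), (nat_lit 1), (nat_lit 0), (nat_lit 0), (nat_lit 3), (nat_lit 0), [], [], [⟨(nat_lit 0), (nat_lit 100), (nat_lit 95), (nat_lit 21), (nat_lit 51978624)⟩], [],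
 ⟨⟨[(nat_lit 60), (nat_lit 100), (nat_lit 120)], [(nat_lit 0), (nat_lit 0), (nat_lit 1164)], [((nat_lit 0), (nat_lit 0), (nat_lit 0)), ((nat_lit 0), (nat_lit 0), (nat_lit 0)), ((nat_lit 1000), (nat_lit 933), (nat_lit 572))], ((nat_lit 92), (nat_lit 100), (nat_lit 44))⟩, (nat_lit 2099889), (nat_lit 143), (nat_lit 143), (nat_lit 0), (nat_lit 175203), [(nat_lit 3282000008), (nat_lit 6250000014), (nat_lit 7968000000)], [], [(nat_lit 14680354704), (nat_lit 16852012996), (nat_lit 22378146650), (nat_lit 22433601694), (nat_lit 22378146650), (nat_lit 22433601694), (nat_lit 43642123315), (nat_lit 39350822047)], (nat_lit 1271251), (nat_lit 1271251), (nat_lit 780000), (nat_lit 2090001), (nat_lit 780000), (nat_lit 2090001), [(nat_lit 780000), (nat_lit 1435001), (nat_lit 1271251)], [(nat_lit 10), (nat_lit 54), (nat_lit 373), (nat_lit 150), (nat_lit 12)]⟩,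
 ⟨⟨[(nat_lit 80), (nat_lit 100), (nat_lit 120)], [(nat_lit 0), (nat_lit 265), (nat_lit 768)], [((nat_lit 0), (nat_lit 0), (nat_lit 0)), ((nat_lit 1000), (nat_lit 959), (nat_lit 206)), ((nat_lit 1000), (nat_lit 958), (nat_lit 392))], ((nat_lit 96), (nat_lit 100), (nat_lit 44))⟩, (nat_lit 6774403), (nat_lit 209), (nat_lit 209), (nat_lit 0), (nat_lit 125145), [(nat_lit 4688000000), (nat_lit 6250000000), (nat_lit 7968000000)], [], [(nat_lit 33810271417), (nat_lit 31377986765), (nat_lit 30110519769), (nat_lit 30927966888), (nat_lit 24464513172), (nat_lit 25452519360), (nat_lit 28576092282), (nat_lit 29306492241)], (nat_lit 1271251), (nat_lit 1271251), (nat_lit 780000), (nat_lit 2090001), (nat_lit 0), (nat_lit 780000), [(nat_lit 1100000), (nat_lit 1442501), (nat_lit 1271251)], [(nat_lit 16), (nat_lit 54), (nat_lit 317), (nat_lit 100), (nat_lit 10)]⟩,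
 ⟨⟨[(nat_lit 140), (nat_lit 160), (nat_lit 180)], [(nat_lit 0), (nat_lit 0), (nat_lit 799)], [((nat_lit 0), (nat_lit 0), (nat_lit 0)), ((nat_lit 0), (nat_lit 0), (nat_lit 0)), ((nat_lit 728), (nat_lit 1000), (nat_lit 454))], ((nat_lit 100), (nat_lit 71), (nat_lit 48))⟩, (nat_lit 244250), (nat_lit 300), (nat_lit 584), (nat_lit 20627602), (nat_lit 329301), [(nat_lit 2736076000), (nat_lit 3300416000), (nat_lit 3908124000)], [], [(nat_lit 18239353311), (nat_lit 17852978989), (nat_lit 17835547112), (nat_lit 17349578832), (nat_lit 16570936969), (nat_lit 16199030589), (nat_lit 16170872756), (nat_lit 19041558637)], (nat_lit 780000), (nat_lit 1598751), (nat_lit 780000), (nat_lit 2090001), (nat_lit 0), (nat_lit 780000), [(nat_lit 1977501), (nat_lit 1271251), (nat_lit 1271251)], [(nat_lit 31), (nat_lit 65), (nat_lit 401), (nat_lit 175), (nat_lit 10)]⟩⟩) (.leaf ⟨(nat_lit 0), (nat_lit 709), (nat_lit 0), (nat_lit 291), (nat_lit 5645), (nat_lit 6916), (nat_lit 5896),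 (nat_lit 2886), (nat_lit 0), (nat_lit 0), (nat_lit 0), [], Pd.none, Pd.none, (nat_lit 0), (nat_lit 1), (nat_lit 0), (nat_lit 0), (nat_lit 3), (nat_lit 0), [], [], [], [⟨(nat_lit 0), (nat_lit 100), (nat_lit 71), (nat_lit 70), (nat_lit 132310798)⟩],
 ⟨⟨[(nat_lit 60), (nat_lit 100), (nat_lit 120)], [(nat_lit 0), (nat_lit 0), (nat_lit 1164)], [((nat_lit 0), (nat_lit 0), (nat_lit 0)), ((nat_lit 0), (nat_lit 0), (nat_lit 0)), ((nat_lit 1000), (nat_lit 933), (nat_lit 572))], ((nat_lit 92), (nat_lit 100), (nat_lit 44))⟩, (nat_lit 2240608), (nat_lit 175), (nat_lit 175), (nat_lit 0), (nat_lit 175203), [(nat_lit 3733379076), (nat_lit 6250000002), (nat_lit 7968000000)], [], [(nat_lit 22963216330), (nat_lit 24175756293), (nat_lit 31562242090), (nat_lit 32403000302), (nat_lit 26337180358), (nat_lit 27184739391), (nat_lit 33190289252), (nat_lit 33925580458)], (nat_lit 1271251), (nat_lit 1271251), (nat_lit 1271251), (nat_lit 1271251), (nat_lit 780000), (nat_lit 2090001),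 [(nat_lit 780000), (nat_lit 1435001), (nat_lit 1271251)], [(nat_lit 10), (nat_lit 54), (nat_lit 289), (nat_lit 75), (nat_lit 8)]⟩,
 ⟨⟨[(nat_lit 80), (nat_lit 100), (nat_lit 120)], [(nat_lit 0), (nat_lit 265), (nat_lit 768)], [((nat_lit 0), (nat_lit 0), (nat_lit 0)), ((nat_lit 1000), (nat_lit 959), (nat_lit 206)), ((nat_lit 1000), (nat_lit 958), (nat_lit 392))], ((nat_lit 96), (nat_lit 100), (nat_lit 44))⟩, (nat_lit 5313668), (nat_lit 248), (nat_lit 248), (nat_lit 0), (nat_lit 125145), [(nat_lit 4688000000), (nat_lit 6250000000), (nat_lit 7968000000)], [], [(nat_lit 28511133976), (nat_lit 29331013284), (nat_lit 34905573760), (nat_lit 35673413584), (nat_lit 25887854012), (nat_lit 26635827524), (nat_lit 31685421344), (nat_lit 32216686904)], (nat_lit 1271251), (nat_lit 1271251), (nat_lit 1271251), (nat_lit 1271251), (nat_lit 0), (nat_lit 780000), [(nat_lit 1100000), (nat_lit 1442501), (nat_lit 1271251)], [(nat_lit 16), (nat_lit 54), (nat_lit 238), (nat_lit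 30), (nat_lit 7)]⟩,
 ⟨⟨[(nat_lit 140), (nat_lit 160), (nat_lit 180)], [(nat_lit 0), (nat_lit 0), (nat_lit 799)], [((nat_lit 0), (nat_lit 0), (nat_lit 0)), ((nat_lit 0), (nat_lit 0), (nat_lit 0)), ((nat_lit 728), (nat_lit 1000), (nat_lit 454))], ((nat_lit 100), (nat_lit 71), (nat_lit 48))⟩, (nat_lit 255672), (nat_lit 300), (nat_lit 584), (nat_lit 21592201), (nat_lit 329301), [(nat_lit 2864022000), (nat_lit 3454752000), (nat_lit 4090878000)], [], [(nat_lit 18503216057), (nat_lit 17933988642), (nat_lit 17854623234), (nat_lit 18909253527), (nat_lit 16353454582), (nat_lit 15805219187), (nat_lit 17065486824), (nat_lit 20838131381)], (nat_lit 780000), (nat_lit 1598751), (nat_lit 780000), (nat_lit 2090001), (nat_lit 0), (nat_lit 780000), [(nat_lit 1977501), (nat_lit 1271251), (nat_lit 1271251)], [(nat_lit 31), (nat_lit 65), (nat_lit 401), (nat_lit 175), (nat_lit 10)]⟩⟩)) (.leaf ⟨(nat_lit 0), (nat_lit 0), (nat_lit 0), (nat_lit 1000), (nat_lit 8140), (nat_lit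 3690), (nat_lit 10726), (nat_lit 5628), (nat_lit 0), (nat_lit 0), (nat_lit 0), [], Pd.none, Pd.none, (nat_lit 0), (nat_lit 1), (nat_lit 0), (nat_lit 0), (nat_lit 0), (nat_lit 0), [], [], [], [],
 ⟨⟨[(nat_lit 60), (nat_lit 100), (nat_lit 120)], [(nat_lit 0), (nat_lit 0), (nat_lit 1164)], [((nat_lit 0), (nat_lit 0), (nat_lit 0)), ((nat_lit 0), (nat_lit 0), (nat_lit 0)), ((nat_lit 1000), (nat_lit 933), (nat_lit 572))], ((nat_lit 92), (nat_lit 100), (nat_lit 44))⟩, (nat_lit 0), (nat_lit 175), (nat_lit 175), (nat_lit 0), (nat_lit 175203), [(nat_lit 3282000014), (nat_lit 6250000096), (nat_lit 7968000000)], [], [(nat_lit 28373272858), (nat_lit 26436513667), (nat_lit 35612795534), (nat_lit 36208249814), (nat_lit 29976986024), (nat_lit 30811353344), (nat_lit 44784425170), (nat_lit 43165747630)], (nat_lit 1271251), (nat_lit 1271251), (nat_lit 780000), (nat_lit 3072501), (nat_lit 780000), (nat_lit 2090001), [(nat_lit 780000), (nat_lit 1435001), (nat_lit 1271251)],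 [(nat_lit 10), (nat_lit 54), (nat_lit 401), (nat_lit 175), (nat_lit 13)]⟩,
 ⟨⟨[(nat_lit 80), (nat_lit 100), (nat_lit 120)], [(nat_lit 0), (nat_lit 265), (nat_lit 768)], [((nat_lit 0), (nat_lit 0), (nat_lit 0)), ((nat_lit 1000), (nat_lit 959), (nat_lit 206)), ((nat_lit 1000), (nat_lit 958), (nat_lit 392))], ((nat_lit 96), (nat_lit 100), (nat_lit 44))⟩, (nat_lit 7557605), (nat_lit 178), (nat_lit 178), (nat_lit 0), (nat_lit 193965), [(nat_lit 4688000000), (nat_lit 6250000000), (nat_lit 7968000000)], [], [(nat_lit 8096896444), (nat_lit 10412891437), (nat_lit 36688855680), (nat_lit 36547203646), (nat_lit 10881818957), (nat_lit 13175383045), (nat_lit 47977006861), (nat_lit 43211992087)], (nat_lit 1271251), (nat_lit 1271251), (nat_lit 780000), (nat_lit 3072501), (nat_lit 780000), (nat_lit 1435001), [(nat_lit 1100000), (nat_lit 1442501), (nat_lit 1271251)], [(nat_lit 16), (nat_lit 54), (nat_lit 373), (nat_lit 150), (nat_lit 12)]⟩,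
 ⟨⟨[(nat_lit 140), (nat_lit 160), (nat_lit 180)], [(nat_lit 0), (nat_lit 0), (nat_lit 799)], [((nat_lit 0), (nat_lit 0), (nat_lit 0)), ((nat_lit 0), (nat_lit 0), (nat_lit 0)), ((nat_lit 728), (nat_lit 1000), (nat_lit 454))], ((nat_lit 100), (nat_lit 71), (nat_lit 48))⟩, (nat_lit 878598), (nat_lit 300), (nat_lit 439), (nat_lit 74200002), (nat_lit 329301), [(nat_lit 9842000000), (nat_lit 11872000000), (nat_lit 14058000000)], [], [(nat_lit 54794767978), (nat_lit 55099309668), (nat_lit 55896624289), (nat_lit 62893580381), (nat_lit 54749769997), (nat_lit 55861709575), (nat_lit 61084729228), (nat_lit 70190908249)], (nat_lit 780000), (nat_lit 1598751), (nat_lit 780000), (nat_lit 2090001), (nat_lit 780000), (nat_lit 1435001), [(nat_lit 1977501), (nat_lit 1271251), (nat_lit 1271251)], [(nat_lit 31), (nat_lit 65), (nat_lit 401), (nat_lit 175), (nat_lit 9)]⟩⟩))) (.dle (nat_lit 0)))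
noncomputable def c6_29 : Tr Lf :=
 (.spl (nat_lit 6) (nat_lit 20) (.stt (nat_lit 3) (.spl (nat_lit 0) (nat_lit 290) (.ord (.leaf ⟨(nat_lit 0), (nat_lit 786), (nat_lit 0), (nat_lit 214), (nat_lit 5741), (nat_lit 3629), (nat_lit 2229), (nat_lit 4034), (nat_lit 7786504699476), (nat_lit 0), (nat_lit 0), [], Pd.none, Pd.none, (nat_lit 0), (nat_lit 1), (nat_lit 0), (nat_lit 0), (nat_lit 3), (nat_lit 0), [], [], [⟨(nat_lit 0), (nat_lit 100), (nat_lit 92), (nat_lit 29), (nat_lit 72533041)⟩], [],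
 ⟨⟨[(nat_lit 60), (nat_lit 100), (nat_lit 120)], [(nat_lit 0), (nat_lit 0), (nat_lit 1164)], [((nat_lit 0), (nat_lit 0), (nat_lit 0)), ((nat_lit 0), (nat_lit 0), (nat_lit 0)), ((nat_lit 1000), (nat_lit 933), (nat_lit 572))], ((nat_lit 92), (nat_lit 100), (nat_lit 44))⟩, (nat_lit 457087), (nat_lit 174), (nat_lit 174), (nat_lit 0), (nat_lit 177136), [(nat_lit 3282000002), (nat_lit 6250000048), (nat_lit 7968000000)], [], [(nat_lit 28343364107), (nat_lit 27390755236), (nat_lit 35144875066), (nat_lit 35441694465), (nat_lit 29556752687), (nat_lit 29960828744), (nat_lit 44741818196), (nat_lit 43945858739)], (nat_lit 1271251), (nat_lit 1271251), (nat_lit 780000), (nat_lit 3072501), (nat_lit 780000), (nat_lit 2090001), [(nat_lit 780000), (nat_lit 1435001), (nat_lit 1271251)], [(nat_lit 10), (nat_lit 54), (nat_lit 401), (nat_lit 175), (nat_lit 13)]⟩,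
 ⟨⟨[(nat_lit 60), (nat_lit 100), (nat_lit 120)], [(nat_lit 0), (nat_lit 0), (nat_lit 1164)], [((nat_lit 0), (nat_lit 0), (nat_lit 0)), ((nat_lit 0), (nat_lit 0), (nat_lit 0)), ((nat_lit 1000), (nat_lit 933), (nat_lit 572))], ((nat_lit 92), (nat_lit 100), (nat_lit 44))⟩, (nat_lit 2584162), (nat_lit 265), (nat_lit 265), (nat_lit 0), (nat_lit 177136), [(nat_lit 3282000000), (nat_lit 6250000000), (nat_lit 7968000000)], [], [(nat_lit 32965375387), (nat_lit 33379696489), (nat_lit 41806496784), (nat_lit 42074346049), (nat_lit 35197528927), (nat_lit 35560119453), (nat_lit 46441357462), (nat_lit 45952464205)], (nat_lit 1271251), (nat_lit 1271251), (nat_lit 780000), (nat_lit 3072501), (nat_lit 0), (nat_lit 1412501), [(nat_lit 780000), (nat_lit 1435001), (nat_lit 1271251)], [(nat_lit 10), (nat_lit 54), (nat_lit 373), (nat_lit 150), (nat_lit 12)]⟩,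
 ⟨⟨[(nat_lit 140), (nat_lit 160), (nat_lit 180)], [(nat_lit 0), (nat_lit 0), (nat_lit 799)], [((nat_lit 0), (nat_lit 0), (nat_lit 0)), ((nat_lit 0), (nat_lit 0), (nat_lit 0)), ((nat_lit 728), (nat_lit 1000), (nat_lit 454))], ((nat_lit 100), (nat_lit 71), (nat_lit 48))⟩, (nat_lit 188020), (nat_lit 300), (nat_lit 392), (nat_lit 15878801), (nat_lit 0), [(nat_lit 2106188000), (nat_lit 2540608000), (nat_lit 3008412000)], [], [(nat_lit 12019747552), (nat_lit 11420794057), (nat_lit 11578016076), (nat_lit 10683800743), (nat_lit 7777485338), (nat_lit 7111911632), (nat_lit 7137531384), (nat_lit 6323404819)], (nat_lit 0), (nat_lit 0), (nat_lit 0), (nat_lit 0), (nat_lit 0), (nat_lit 0), [], [(nat_lit 31), (nat_lit 65), (nat_lit 401), (nat_lit 175), (nat_lit 10)]⟩⟩)) (.leaf ⟨(nat_lit 0), (nat_lit 790), (nat_lit 0), (nat_lit 210), (nat_lit 210), (nat_lit 4678), (nat_lit 2249), (nat_lit 4002), (nat_lit 4071), (nat_lit 0), (nat_lit 0), [], Pd.none, Pd.none, (nat_lit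 0), (nat_lit 1), (nat_lit 0), (nat_lit 0), (nat_lit 3), (nat_lit 0), [], [], [⟨(nat_lit 0), (nat_lit 100), (nat_lit 90), (nat_lit 31), (nat_lit 1403747)⟩, ⟨(nat_lit 0), (nat_lit 100), (nat_lit 87), (nat_lit 59), (nat_lit 70688576)⟩], [],
 ⟨⟨[(nat_lit 60), (nat_lit 80), (nat_lit 100)], [(nat_lit 0), (nat_lit 151), (nat_lit 679)], [((nat_lit 0), (nat_lit 0), (nat_lit 0)), ((nat_lit 1000), (nat_lit 953), (nat_lit 118)), ((nat_lit 1000), (nat_lit 894), (nat_lit 411))], ((nat_lit 89), (nat_lit 100), (nat_lit 44))⟩, (nat_lit 0), (nat_lit 171), (nat_lit 171), (nat_lit 0), (nat_lit 252581), [(nat_lit 3282000001), (nat_lit 4688000001), (nat_lit 6250000000)], [], [(nat_lit 27629725826), (nat_lit 26401755504), (nat_lit 34745473040), (nat_lit 35036547570), (nat_lit 29169489451), (nat_lit 29586537048), (nat_lit 44618817599), (nat_lit 43592777825)], (nat_lit 1271251), (nat_lit 1271251), (nat_lit 780000), (nat_lit 3072501), (nat_lit 780000), (nat_lit 2090001), [(nat_lit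 780000), (nat_lit 1100000), (nat_lit 1442501)], [(nat_lit 9), (nat_lit 50), (nat_lit 401), (nat_lit 175), (nat_lit 15)]⟩,
 ⟨⟨[(nat_lit 60), (nat_lit 100), (nat_lit 120)], [(nat_lit 0), (nat_lit 0), (nat_lit 1164)], [((nat_lit 0), (nat_lit 0), (nat_lit 0)), ((nat_lit 0), (nat_lit 0), (nat_lit 0)), ((nat_lit 1000), (nat_lit 933), (nat_lit 572))], ((nat_lit 92), (nat_lit 100), (nat_lit 44))⟩, (nat_lit 2523565), (nat_lit 291), (nat_lit 291), (nat_lit 0), (nat_lit 255493), [(nat_lit 3282000000), (nat_lit 6250000000), (nat_lit 7968000000)], [], [(nat_lit 32996643770), (nat_lit 33830310344), (nat_lit 41780602704), (nat_lit 42316832634), (nat_lit 35142070187), (nat_lit 35868881309), (nat_lit 46453527022), (nat_lit 45466967188)], (nat_lit 1271251), (nat_lit 1271251), (nat_lit 780000), (nat_lit 3072501), (nat_lit 0), (nat_lit 1412501), [(nat_lit 780000), (nat_lit 1435001), (nat_lit 1271251)], [(nat_lit 10), (nat_lit 54), (nat_lit 373), (nat_lit 150), (nat_lit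 12)]⟩,
 ⟨⟨[(nat_lit 140), (nat_lit 160), (nat_lit 180)], [(nat_lit 0), (nat_lit 0), (nat_lit 799)], [((nat_lit 0), (nat_lit 0), (nat_lit 0)), ((nat_lit 0), (nat_lit 0), (nat_lit 0)), ((nat_lit 728), (nat_lit 1000), (nat_lit 454))], ((nat_lit 100), (nat_lit 71), (nat_lit 48))⟩, (nat_lit 184506), (nat_lit 300), (nat_lit 392), (nat_lit 15582000), (nat_lit 0), [(nat_lit 2066820000), (nat_lit 2493120000), (nat_lit 2952180000)], [], [(nat_lit 11805728016), (nat_lit 11206619283), (nat_lit 11359438020), (nat_lit 10467899757), (nat_lit 7589121702), (nat_lit 6924293222), (nat_lit 6946817868), (nat_lit 6181644392)], (nat_lit 0), (nat_lit 0), (nat_lit 0), (nat_lit 0), (nat_lit 0), (nat_lit 0), [], [(nat_lit 31), (nat_lit 65), (nat_lit 401), (nat_lit 175), (nat_lit 10)]⟩⟩)) (.spl (nat_lit 4) (nat_lit 200) (.spl (nat_lit 2) (nat_lit 180) (.leaf ⟨(nat_lit 0), (nat_lit 734), (nat_lit 0), (nat_lit 266), (nat_lit 2433), (nat_lit 5751), (nat_lit 3085), (nat_lit 1952),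 (nat_lit 3817057224504), (nat_lit 0), (nat_lit 0), [], Pd.none, Pd.none, (nat_lit 0), (nat_lit 1), (nat_lit 0), (nat_lit 0), (nat_lit 3), (nat_lit 0), [], [], [], [],
 ⟨⟨[(nat_lit 60), (nat_lit 100), (nat_lit 120)], [(nat_lit 0), (nat_lit 0), (nat_lit 1164)], [((nat_lit 0), (nat_lit 0), (nat_lit 0)), ((nat_lit 0), (nat_lit 0), (nat_lit 0)), ((nat_lit 1000), (nat_lit 933), (nat_lit 572))], ((nat_lit 92), (nat_lit 100), (nat_lit 44))⟩, (nat_lit 0), (nat_lit 172), (nat_lit 172), (nat_lit 0), (nat_lit 168101), [(nat_lit 3282000001), (nat_lit 6250000001), (nat_lit 7968000000)], [], [(nat_lit 21576019424), (nat_lit 22962166931), (nat_lit 40271896961), (nat_lit 37717020962), (nat_lit 23258602581), (nat_lit 24461641311), (nat_lit 47866803511), (nat_lit 45375309283)], (nat_lit 1271251), (nat_lit 1271251), (nat_lit 780000), (nat_lit 3072501), (nat_lit 780000), (nat_lit 1435001), [(nat_lit 780000), (nat_lit 1435001), (nat_lit 1271251)], [(nat_lit 10), (nat_lit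 54), (nat_lit 373), (nat_lit 150), (nat_lit 12)]⟩,
 ⟨⟨[(nat_lit 60), (nat_lit 100), (nat_lit 120)], [(nat_lit 0), (nat_lit 0), (nat_lit 1164)], [((nat_lit 0), (nat_lit 0), (nat_lit 0)), ((nat_lit 0), (nat_lit 0), (nat_lit 0)), ((nat_lit 1000), (nat_lit 933), (nat_lit 572))], ((nat_lit 92), (nat_lit 100), (nat_lit 44))⟩, (nat_lit 58829), (nat_lit 263), (nat_lit 263), (nat_lit 0), (nat_lit 168101), [(nat_lit 3282000000), (nat_lit 6250000000), (nat_lit 7968000000)], [], [(nat_lit 34284778994), (nat_lit 35207417704), (nat_lit 43083874894), (nat_lit 43606884309), (nat_lit 35605943867), (nat_lit 36346996958), (nat_lit 46962214630), (nat_lit 45608930020)], (nat_lit 1271251), (nat_lit 1271251), (nat_lit 780000), (nat_lit 3072501), (nat_lit 0), (nat_lit 1412501), [(nat_lit 780000), (nat_lit 1435001), (nat_lit 1271251)], [(nat_lit 10), (nat_lit 54), (nat_lit 373), (nat_lit 150), (nat_lit 12)]⟩,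
 ⟨⟨[(nat_lit 140), (nat_lit 160), (nat_lit 180)], [(nat_lit 0), (nat_lit 0), (nat_lit 799)], [((nat_lit 0), (nat_lit 0), (nat_lit 0)), ((nat_lit 0), (nat_lit 0), (nat_lit 0)), ((nat_lit 728), (nat_lit 1000), (nat_lit 454))], ((nat_lit 100), (nat_lit 71), (nat_lit 48))⟩, (nat_lit 233707), (nat_lit 300), (nat_lit 651), (nat_lit 19737201), (nat_lit 481218), [(nat_lit 2617972000), (nat_lit 3157952000), (nat_lit 3739428000)], [], [(nat_lit 18538061964), (nat_lit 18297045877), (nat_lit 18208358142), (nat_lit 17954644069), (nat_lit 16916967211), (nat_lit 16673254916), (nat_lit 16585024094), (nat_lit 16329304689)], (nat_lit 780000), (nat_lit 1271251), (nat_lit 780000), (nat_lit 1435001), (nat_lit 0), (nat_lit 1412501), [(nat_lit 1977501), (nat_lit 1271251), (nat_lit 1271251)], [(nat_lit 31), (nat_lit 65), (nat_lit 373), (nat_lit 150), (nat_lit 9)]⟩⟩) (.leaf ⟨(nat_lit 0), (nat_lit 213), (nat_lit 0), (nat_lit 787), (nat_lit 0), (nat_lit 15501), (nat_lit 2630),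 (nat_lit 8526), (nat_lit 26141), (nat_lit 0), (nat_lit 0), [], Pd.none, Pd.none, (nat_lit 0), (nat_lit 1), (nat_lit 0), (nat_lit 0), (nat_lit 4), (nat_lit 0), [], [], [], [],
 ⟨⟨[(nat_lit 60), (nat_lit 100), (nat_lit 120)], [(nat_lit 0), (nat_lit 0), (nat_lit 1164)], [((nat_lit 0), (nat_lit 0), (nat_lit 0)), ((nat_lit 0), (nat_lit 0), (nat_lit 0)), ((nat_lit 1000), (nat_lit 933), (nat_lit 572))], ((nat_lit 92), (nat_lit 100), (nat_lit 44))⟩, (nat_lit 606049), (nat_lit 159), (nat_lit 159), (nat_lit 0), (nat_lit 126432), [(nat_lit 3282000004), (nat_lit 6250000006), (nat_lit 7968000000)], [], [(nat_lit 10926208404), (nat_lit 13971523766), (nat_lit 43057538921), (nat_lit 44685841517), (nat_lit 12360565108), (nat_lit 16229521083), (nat_lit 51050256522), (nat_lit 44334789294)], (nat_lit 1271251), (nat_lit 1271251), (nat_lit 780000), (nat_lit 3072501), (nat_lit 780000), (nat_lit 1435001), [(nat_lit 780000), (nat_lit 1435001), (nat_lit 1271251)], [(nat_lit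 10), (nat_lit 54), (nat_lit 373), (nat_lit 150), (nat_lit 12)]⟩,
 ⟨⟨[(nat_lit 60), (nat_lit 100), (nat_lit 120)], [(nat_lit 0), (nat_lit 0), (nat_lit 1164)], [((nat_lit 0), (nat_lit 0), (nat_lit 0)), ((nat_lit 0), (nat_lit 0), (nat_lit 0)), ((nat_lit 1000), (nat_lit 933), (nat_lit 572))], ((nat_lit 92), (nat_lit 100), (nat_lit 44))⟩, (nat_lit 2095874), (nat_lit 250), (nat_lit 250), (nat_lit 0), (nat_lit 126432), [(nat_lit 3282000000), (nat_lit 6250000000), (nat_lit 7968000000)], [], [(nat_lit 33583036890), (nat_lit 33648246644), (nat_lit 41319446964), (nat_lit 41833675334), (nat_lit 34472619819), (nat_lit 35181917437), (nat_lit 46685357140), (nat_lit 45531665560)], (nat_lit 1271251), (nat_lit 1271251), (nat_lit 780000), (nat_lit 3072501), (nat_lit 0), (nat_lit 1412501), [(nat_lit 780000), (nat_lit 1435001), (nat_lit 1271251)], [(nat_lit 10), (nat_lit 54), (nat_lit 373), (nat_lit 150), (nat_lit 12)]⟩,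
 ⟨⟨[(nat_lit 120), (nat_lit 140), (nat_lit 160)], [(nat_lit 0), (nat_lit 266), (nat_lit 862)], [((nat_lit 0), (nat_lit 0), (nat_lit 0)), ((nat_lit 960), (nat_lit 1000), (nat_lit 200)), ((nat_lit 874), (nat_lit 1000), (nat_lit 406))], ((nat_lit 100), (nat_lit 86), (nat_lit 44))⟩, (nat_lit 1615421), (nat_lit 300), (nat_lit 381), (nat_lit 52256801), (nat_lit 219891), [(nat_lit 6270816000), (nat_lit 7745654000), (nat_lit 9343264000)], [], [(nat_lit 32911429487), (nat_lit 33313206163), (nat_lit 33369647685), (nat_lit 32582393596), (nat_lit 36324749397), (nat_lit 28119096795), (nat_lit 44424236635), (nat_lit 36439974412)], (nat_lit 1271251), (nat_lit 1271251), (nat_lit 780000), (nat_lit 1435001), (nat_lit 0), (nat_lit 1412501), [(nat_lit 1695001), (nat_lit 1271251), (nat_lit 1271251)], [(nat_lit 27), (nat_lit 62), (nat_lit 401), (nat_lit 175), (nat_lit 11)]⟩⟩)) (.leaf ⟨(nat_lit 0), (nat_lit 719), (nat_lit 0), (nat_lit 281), (nat_lit 0), (nat_lit 9028),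 (nat_lit 2445), (nat_lit 3763), (nat_lit 349818), (nat_lit 0), (nat_lit 0), [], Pd.none, Pd.none, (nat_lit 0), (nat_lit 1), (nat_lit 0), (nat_lit 0), (nat_lit 5), (nat_lit 0), [], [], [], [],
 ⟨⟨[(nat_lit 60), (nat_lit 100), (nat_lit 120)], [(nat_lit 0), (nat_lit 0), (nat_lit 1164)], [((nat_lit 0), (nat_lit 0), (nat_lit 0)), ((nat_lit 0), (nat_lit 0), (nat_lit 0)), ((nat_lit 1000), (nat_lit 933), (nat_lit 572))], ((nat_lit 92), (nat_lit 100), (nat_lit 44))⟩, (nat_lit 2933771), (nat_lit 150), (nat_lit 150), (nat_lit 0), (nat_lit 168101), [(nat_lit 4472898642), (nat_lit 6250000062), (nat_lit 7968000000)], [], [(nat_lit 16087029488), (nat_lit 17843765404), (nat_lit 33444157828), (nat_lit 34469245794), (nat_lit 20559701542), (nat_lit 22118231175), (nat_lit 35488138916), (nat_lit 36289437514)], (nat_lit 1271251), (nat_lit 1271251), (nat_lit 780000), (nat_lit 3072501), (nat_lit 1271251), (nat_lit 1271251), [(nat_lit 780000), (nat_lit 1435001), (nat_lit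 1271251)], [(nat_lit 10), (nat_lit 54), (nat_lit 401), (nat_lit 175), (nat_lit 12)]⟩,
 ⟨⟨[(nat_lit 60), (nat_lit 100), (nat_lit 120)], [(nat_lit 0), (nat_lit 0), (nat_lit 1164)], [((nat_lit 0), (nat_lit 0), (nat_lit 0)), ((nat_lit 0), (nat_lit 0), (nat_lit 0)), ((nat_lit 1000), (nat_lit 933), (nat_lit 572))], ((nat_lit 92), (nat_lit 100), (nat_lit 44))⟩, (nat_lit 2575462), (nat_lit 263), (nat_lit 263), (nat_lit 0), (nat_lit 168101), [(nat_lit 3282000000), (nat_lit 6250000000), (nat_lit 7968000000)], [], [(nat_lit 33298080835), (nat_lit 33420139452), (nat_lit 41526840720), (nat_lit 42068278370), (nat_lit 34598574535), (nat_lit 35341360343), (nat_lit 46572788710), (nat_lit 45500250340)], (nat_lit 1271251), (nat_lit 1271251), (nat_lit 780000), (nat_lit 3072501), (nat_lit 0), (nat_lit 1412501), [(nat_lit 780000), (nat_lit 1435001), (nat_lit 1271251)], [(nat_lit 10), (nat_lit 54), (nat_lit 373), (nat_lit 150), (nat_lit 12)]⟩,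
 ⟨⟨[(nat_lit 140), (nat_lit 160), (nat_lit 180)], [(nat_lit 0), (nat_lit 0), (nat_lit 799)], [((nat_lit 0), (nat_lit 0), (nat_lit 0)), ((nat_lit 0), (nat_lit 0), (nat_lit 0)), ((nat_lit 728), (nat_lit 1000), (nat_lit 454))], ((nat_lit 100), (nat_lit 71), (nat_lit 48))⟩, (nat_lit 246886), (nat_lit 300), (nat_lit 614), (nat_lit 20850201), (nat_lit 481218), [(nat_lit 2765602000), (nat_lit 3336032000), (nat_lit 3950298000)], [], [(nat_lit 15898076122), (nat_lit 14984283955), (nat_lit 15732530948), (nat_lit 14714391301), (nat_lit 14495873674), (nat_lit 19092596095), (nat_lit 11820390200), (nat_lit 12360878846)], (nat_lit 780000), (nat_lit 1598751), (nat_lit 1271251), (nat_lit 1271251), (nat_lit 0), (nat_lit 1412501), [(nat_lit 1977501), (nat_lit 1271251), (nat_lit 1271251)], [(nat_lit 31), (nat_lit 65), (nat_lit 401), (nat_lit 175), (nat_lit 10)]⟩⟩))) (.spl (nat_lit 2) (nat_lit 180) (.leaf ⟨(nat_lit 0), (nat_lit 822), (nat_lit 0), (nat_lit 178), (nat_lit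 21633), (nat_lit 5192), (nat_lit 4029), (nat_lit 1488), (nat_lit 2740826825837), (nat_lit 0), (nat_lit 0), [], Pd.none, Pd.none, (nat_lit 0), (nat_lit 1), (nat_lit 0), (nat_lit 0), (nat_lit 3), (nat_lit 0), [], [], [], [],
 ⟨⟨[(nat_lit 60), (nat_lit 100), (nat_lit 120)], [(nat_lit 0), (nat_lit 0), (nat_lit 1164)], [((nat_lit 0), (nat_lit 0), (nat_lit 0)), ((nat_lit 0), (nat_lit 0), (nat_lit 0)), ((nat_lit 1000), (nat_lit 933), (nat_lit 572))], ((nat_lit 93), (nat_lit 100), (nat_lit 58))⟩, (nat_lit 0), (nat_lit 147), (nat_lit 147), (nat_lit 0), (nat_lit 86252), [(nat_lit 3282000088), (nat_lit 6250000299), (nat_lit 7968000000)], [], [(nat_lit 29109714120), (nat_lit 26383924504), (nat_lit 34150630744), (nat_lit 34849963612), (nat_lit 27488891556), (nat_lit 28438466782), (nat_lit 45833533395), (nat_lit 43555979523)], (nat_lit 1271251), (nat_lit 1271251), (nat_lit 780000), (nat_lit 3072501), (nat_lit 780000), (nat_lit 2090001), [(nat_lit 780000), (nat_lit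 1435001), (nat_lit 1271251)], [(nat_lit 10), (nat_lit 54), (nat_lit 401), (nat_lit 175), (nat_lit 13)]⟩,
 ⟨⟨[(nat_lit 60), (nat_lit 100), (nat_lit 120)], [(nat_lit 0), (nat_lit 0), (nat_lit 1164)], [((nat_lit 0), (nat_lit 0), (nat_lit 0)), ((nat_lit 0), (nat_lit 0), (nat_lit 0)), ((nat_lit 1000), (nat_lit 933), (nat_lit 572))], ((nat_lit 93), (nat_lit 100), (nat_lit 58))⟩, (nat_lit 0), (nat_lit 226), (nat_lit 226), (nat_lit 0), (nat_lit 86252), [(nat_lit 3282000000), (nat_lit 6250000000), (nat_lit 7968000000)], [], [(nat_lit 35737920787), (nat_lit 33591322884), (nat_lit 41893631690), (nat_lit 42434859361), (nat_lit 33106333487), (nat_lit 33913270462), (nat_lit 47536617862), (nat_lit 45769232548)], (nat_lit 1271251), (nat_lit 1271251), (nat_lit 780000), (nat_lit 3072501), (nat_lit 0), (nat_lit 1412501), [(nat_lit 780000), (nat_lit 1435001), (nat_lit 1271251)], [(nat_lit 10), (nat_lit 54), (nat_lit 373), (nat_lit 150), (nat_lit 12)]⟩,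
 ⟨⟨[(nat_lit 140), (nat_lit 180), (nat_lit 200)], [(nat_lit 0), (nat_lit 0), (nat_lit 2835)], [((nat_lit 0), (nat_lit 0), (nat_lit 0)), ((nat_lit 0), (nat_lit 0), (nat_lit 0)), ((nat_lit 363), (nat_lit 1000), (nat_lit 798))], ((nat_lit 0), (nat_lit 0), (nat_lit 0))⟩, (nat_lit 48974), (nat_lit 300), (nat_lit 604), (nat_lit 13901800), (nat_lit 176439), [(nat_lit 1751876000), (nat_lit 2502324000), (nat_lit 2919200000)], [], [(nat_lit 13545381304), (nat_lit 13283055284), (nat_lit 13091998195), (nat_lit 12811032803), (nat_lit 12039455896), (nat_lit 11789673876), (nat_lit 11611313056), (nat_lit 12875829164)], (nat_lit 780000), (nat_lit 1271251), (nat_lit 780000), (nat_lit 2090001), (nat_lit 0), (nat_lit 1412501), [(nat_lit 1977501), (nat_lit 1271251), (nat_lit 1271251)], [(nat_lit 32), (nat_lit 67), (nat_lit 401), (nat_lit 175), (nat_lit 9)]⟩⟩) (.spl (nat_lit 6) (nat_lit 24) (.leaf ⟨(nat_lit 0), (nat_lit 411), (nat_lit 0), (nat_lit 589), (nat_lit 40204),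 (nat_lit 5288), (nat_lit 4029), (nat_lit 4700), (nat_lit 2138417), (nat_lit 0), (nat_lit 0), [], Pd.none, Pd.none, (nat_lit 0), (nat_lit 1), (nat_lit 0), (nat_lit 0), (nat_lit 4), (nat_lit 0), [], [], [⟨(nat_lit 0), (nat_lit 100), (nat_lit 89), (nat_lit 45), (nat_lit 217840768)⟩], [],
 ⟨⟨[(nat_lit 60), (nat_lit 100), (nat_lit 120)], [(nat_lit 0), (nat_lit 0), (nat_lit 1164)], [((nat_lit 0), (nat_lit 0), (nat_lit 0)), ((nat_lit 0), (nat_lit 0), (nat_lit 0)), ((nat_lit 1000), (nat_lit 933), (nat_lit 572))], ((nat_lit 92), (nat_lit 100), (nat_lit 48))⟩, (nat_lit 0), (nat_lit 132), (nat_lit 132), (nat_lit 0), (nat_lit 32313), [(nat_lit 3282000006), (nat_lit 6250000114), (nat_lit 7968000000)], [], [(nat_lit 29156783428), (nat_lit 26380594004), (nat_lit 34145670616), (nat_lit 34848488668), (nat_lit 27329865458), (nat_lit 28286804172), (nat_lit 45900586632), (nat_lit 43580920824)], (nat_lit 1271251), (nat_lit 1271251), (nat_lit 780000), (nat_lit 3072501),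 (nat_lit 780000), (nat_lit 2090001), [(nat_lit 780000), (nat_lit 1435001), (nat_lit 1271251)], [(nat_lit 10), (nat_lit 54), (nat_lit 401), (nat_lit 175), (nat_lit 13)]⟩,
 ⟨⟨[(nat_lit 60), (nat_lit 100), (nat_lit 120)], [(nat_lit 0), (nat_lit 0), (nat_lit 1164)], [((nat_lit 0), (nat_lit 0), (nat_lit 0)), ((nat_lit 0), (nat_lit 0), (nat_lit 0)), ((nat_lit 1000), (nat_lit 933), (nat_lit 572))], ((nat_lit 92), (nat_lit 100), (nat_lit 48))⟩, (nat_lit 0), (nat_lit 206), (nat_lit 206), (nat_lit 0), (nat_lit 32313), [(nat_lit 3282000000), (nat_lit 6250000000), (nat_lit 7968000000)], [], [(nat_lit 35737920787), (nat_lit 33591322884), (nat_lit 41893631690), (nat_lit 42434859361), (nat_lit 33106333487), (nat_lit 33913270462), (nat_lit 47536617862), (nat_lit 45769232548)], (nat_lit 1271251), (nat_lit 1271251), (nat_lit 780000), (nat_lit 3072501), (nat_lit 0), (nat_lit 1412501), [(nat_lit 780000), (nat_lit 1435001), (nat_lit 1271251)], [(nat_lit 10), (nat_lit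 54), (nat_lit 373), (nat_lit 150), (nat_lit 12)]⟩,
 ⟨⟨[(nat_lit 120), (nat_lit 140), (nat_lit 160)], [(nat_lit 0), (nat_lit 266), (nat_lit 862)], [((nat_lit 0), (nat_lit 0), (nat_lit 0)), ((nat_lit 960), (nat_lit 1000), (nat_lit 200)), ((nat_lit 874), (nat_lit 1000), (nat_lit 406))], ((nat_lit 100), (nat_lit 83), (nat_lit 48))⟩, (nat_lit 0), (nat_lit 242), (nat_lit 242), (nat_lit 0), (nat_lit 30247), [(nat_lit 4693152000), (nat_lit 5796938000), (nat_lit 6992608000)], [], [(nat_lit 20965851410), (nat_lit 21555449038), (nat_lit 28839027634), (nat_lit 24252875734), (nat_lit 26452738234), (nat_lit 21929331334), (nat_lit 36436307115), (nat_lit 32150360665)], (nat_lit 1271251), (nat_lit 1271251), (nat_lit 780000), (nat_lit 2090001), (nat_lit 0), (nat_lit 1412501), [(nat_lit 1695001), (nat_lit 1271251), (nat_lit 1271251)], [(nat_lit 27), (nat_lit 62), (nat_lit 401), (nat_lit 175), (nat_lit 11)]⟩⟩) (.dle (nat_lit 0)))))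
noncomputable def c6_30 : Tr Lf :=
 (.spl (nat_lit 1) (nat_lit 280) (.spl (nat_lit 6) (nat_lit 20) (.spl (nat_lit 1) (nat_lit 260) (.spl (nat_lit 6) (nat_lit 12) (.leaf ⟨(nat_lit 0), (nat_lit 543), (nat_lit 0), (nat_lit 457), (nat_lit 7), (nat_lit 4279), (nat_lit 6368), (nat_lit 5569), (nat_lit 0), (nat_lit 0), (nat_lit 0), [], Pd.none, Pd.none, (nat_lit 0), (nat_lit 1), (nat_lit 0), (nat_lit 0), (nat_lit 5), (nat_lit 0), [], [], [], [],
 ⟨⟨[(nat_lit 60), (nat_lit 80), (nat_lit 100)], [(nat_lit 0), (nat_lit 0), (nat_lit 534)], [((nat_lit 0), (nat_lit 0), (nat_lit 0)), ((nat_lit 0), (nat_lit 0), (nat_lit 0)), ((nat_lit 1000), (nat_lit 917), (nat_lit 393))], ((nat_lit 92), (nat_lit 100), (nat_lit 34))⟩, (nat_lit 0), (nat_lit 149), (nat_lit 149), (nat_lit 0), (nat_lit 171583), [(nat_lit 3282000001), (nat_lit 4688000022), (nat_lit 6250000000)], [], [(nat_lit 28662063655), (nat_lit 26416062884), (nat_lit 35279536117), (nat_lit 35851602447), (nat_lit 29789289659),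 (nat_lit 30596812251), (nat_lit 45354196247), (nat_lit 43477144433)], (nat_lit 1271251), (nat_lit 1271251), (nat_lit 780000), (nat_lit 3072501), (nat_lit 780000), (nat_lit 2090001), [(nat_lit 780000), (nat_lit 1100000), (nat_lit 1442501)], [(nat_lit 9), (nat_lit 50), (nat_lit 401), (nat_lit 175), (nat_lit 15)]⟩,
 ⟨⟨[(nat_lit 80), (nat_lit 100), (nat_lit 120)], [(nat_lit 0), (nat_lit 0), (nat_lit 511)], [((nat_lit 0), (nat_lit 0), (nat_lit 0)), ((nat_lit 0), (nat_lit 0), (nat_lit 0)), ((nat_lit 1000), (nat_lit 997), (nat_lit 383))], ((nat_lit 99), (nat_lit 100), (nat_lit 34))⟩, (nat_lit 1234222), (nat_lit 154), (nat_lit 154), (nat_lit 0), (nat_lit 125423), [(nat_lit 4688000000), (nat_lit 6250000000), (nat_lit 7968000000)], [], [(nat_lit 29321581120), (nat_lit 26028371512), (nat_lit 44863641280), (nat_lit 42034663648), (nat_lit 32084958254), (nat_lit 32717227758), (nat_lit 38181218126), (nat_lit 38484331926)], (nat_lit 1271251), (nat_lit 1271251), (nat_lit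 780000), (nat_lit 3072501), (nat_lit 1271251), (nat_lit 1271251), [(nat_lit 1100000), (nat_lit 1442501), (nat_lit 1271251)], [(nat_lit 16), (nat_lit 54), (nat_lit 428), (nat_lit 200), (nat_lit 13)]⟩,
 ⟨⟨[(nat_lit 140), (nat_lit 160), (nat_lit 180)], [(nat_lit 0), (nat_lit 0), (nat_lit 799)], [((nat_lit 0), (nat_lit 0), (nat_lit 0)), ((nat_lit 0), (nat_lit 0), (nat_lit 0)), ((nat_lit 728), (nat_lit 1000), (nat_lit 454))], ((nat_lit 100), (nat_lit 79), (nat_lit 37))⟩, (nat_lit 401519), (nat_lit 300), (nat_lit 574), (nat_lit 33909402), (nat_lit 613829), [(nat_lit 4497794000), (nat_lit 5425504000), (nat_lit 6424506000)], [], [(nat_lit 22215759687), (nat_lit 20977578265), (nat_lit 20687950662), (nat_lit 20597137307), (nat_lit 22879510408), (nat_lit 21302123021), (nat_lit 20984842648), (nat_lit 19399452734)], (nat_lit 780000), (nat_lit 1598751), (nat_lit 780000), (nat_lit 2090001), (nat_lit 1271251), (nat_lit 1271251), [(nat_lit 1977501), (nat_lit 1271251),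 (nat_lit 1271251)], [(nat_lit 31), (nat_lit 65), (nat_lit 456), (nat_lit 225), (nat_lit 10)]⟩⟩) (.dle (nat_lit 0))) (.leaf ⟨(nat_lit 0), (nat_lit 643), (nat_lit 0), (nat_lit 357), (nat_lit 0), (nat_lit 6515), (nat_lit 6004), (nat_lit 3806), (nat_lit 0), (nat_lit 0), (nat_lit 0), [], Pd.none, Pd.none, (nat_lit 0), (nat_lit 1), (nat_lit 0), (nat_lit 0), (nat_lit 5), (nat_lit 0), [], [], [⟨(nat_lit 1), (nat_lit 49), (nat_lit 95), (nat_lit 100), (nat_lit 90705324)⟩], [],
 ⟨⟨[(nat_lit 60), (nat_lit 100), (nat_lit 120)], [(nat_lit 0), (nat_lit 0), (nat_lit 1164)], [((nat_lit 0), (nat_lit 0), (nat_lit 0)), ((nat_lit 0), (nat_lit 0), (nat_lit 0)), ((nat_lit 1000), (nat_lit 933), (nat_lit 572))], ((nat_lit 92), (nat_lit 100), (nat_lit 44))⟩, (nat_lit 0), (nat_lit 216), (nat_lit 216), (nat_lit 0), (nat_lit 305550), [(nat_lit 3282000002), (nat_lit 6250000006), (nat_lit 7968000000)], [], [(nat_lit 29758390109), (nat_lit 26338461430), (nat_lit 35526740861), (nat_lit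 36112350769), (nat_lit 29098443556), (nat_lit 30006111851), (nat_lit 46757614118), (nat_lit 43899705128)], (nat_lit 1271251), (nat_lit 1271251), (nat_lit 780000), (nat_lit 3072501), (nat_lit 780000), (nat_lit 2090001), [(nat_lit 780000), (nat_lit 1435001), (nat_lit 1271251)], [(nat_lit 10), (nat_lit 54), (nat_lit 401), (nat_lit 175), (nat_lit 13)]⟩,
 ⟨⟨[(nat_lit 80), (nat_lit 100), (nat_lit 120)], [(nat_lit 0), (nat_lit 265), (nat_lit 768)], [((nat_lit 0), (nat_lit 0), (nat_lit 0)), ((nat_lit 1000), (nat_lit 959), (nat_lit 206)), ((nat_lit 1000), (nat_lit 958), (nat_lit 392))], ((nat_lit 96), (nat_lit 100), (nat_lit 44))⟩, (nat_lit 9270392), (nat_lit 178), (nat_lit 178), (nat_lit 0), (nat_lit 193965), [(nat_lit 4688000000), (nat_lit 6250000000), (nat_lit 7968000000)], [], [(nat_lit 23584388381), (nat_lit 20479421282), (nat_lit 39555910964), (nat_lit 36888639968), (nat_lit 29371500980), (nat_lit 30109681752), (nat_lit 37145489488), (nat_lit 37573648704)],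 (nat_lit 1271251), (nat_lit 1271251), (nat_lit 780000), (nat_lit 3072501), (nat_lit 1271251), (nat_lit 1271251), [(nat_lit 1100000), (nat_lit 1442501), (nat_lit 1271251)], [(nat_lit 16), (nat_lit 54), (nat_lit 428), (nat_lit 200), (nat_lit 13)]⟩,
 ⟨⟨[(nat_lit 140), (nat_lit 160), (nat_lit 180)], [(nat_lit 0), (nat_lit 0), (nat_lit 799)], [((nat_lit 0), (nat_lit 0), (nat_lit 0)), ((nat_lit 0), (nat_lit 0), (nat_lit 0)), ((nat_lit 728), (nat_lit 1000), (nat_lit 454))], ((nat_lit 100), (nat_lit 71), (nat_lit 48))⟩, (nat_lit 313660), (nat_lit 300), (nat_lit 823), (nat_lit 26489400), (nat_lit 1128634), [(nat_lit 3513594000), (nat_lit 4238304000), (nat_lit 5018706000)], [], [(nat_lit 20013591341), (nat_lit 18947911796), (nat_lit 18526767920), (nat_lit 17435212678), (nat_lit 19548436256), (nat_lit 18348455798), (nat_lit 17848208204), (nat_lit 16603984011)], (nat_lit 780000), (nat_lit 1598751), (nat_lit 780000), (nat_lit 2090001), (nat_lit 1271251), (nat_lit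 1271251), [(nat_lit 1977501), (nat_lit 1271251), (nat_lit 1271251)], [(nat_lit 31), (nat_lit 65), (nat_lit 456), (nat_lit 225), (nat_lit 10)]⟩⟩)) (.dle (nat_lit 0))) (.spl (nat_lit 6) (nat_lit 20) (.spl (nat_lit 0) (nat_lit 290) (.ord (.leaf ⟨(nat_lit 0), (nat_lit 697), (nat_lit 0), (nat_lit 303), (nat_lit 0), (nat_lit 5239), (nat_lit 6991), (nat_lit 3070), (nat_lit 9724410293077), (nat_lit 0), (nat_lit 0), [], Pd.none, Pd.none, (nat_lit 0), (nat_lit 1), (nat_lit 0), (nat_lit 0), (nat_lit 5), (nat_lit 0), [], [], [⟨(nat_lit 1), (nat_lit 56), (nat_lit 92), (nat_lit 100), (nat_lit 310190407)⟩], [],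
 ⟨⟨[(nat_lit 60), (nat_lit 100), (nat_lit 120)], [(nat_lit 0), (nat_lit 0), (nat_lit 1164)], [((nat_lit 0), (nat_lit 0), (nat_lit 0)), ((nat_lit 0), (nat_lit 0), (nat_lit 0)), ((nat_lit 1000), (nat_lit 933), (nat_lit 572))], ((nat_lit 92), (nat_lit 100), (nat_lit 44))⟩, (nat_lit 2305538), (nat_lit 218), (nat_lit 218), (nat_lit 0), (nat_lit 316280), [(nat_lit 3282000002), (nat_lit 6250000004), (nat_lit 7968000000)], [], [(nat_lit 29132758377), (nat_lit 27757526116), (nat_lit 35181784566), (nat_lit 35458997973), (nat_lit 29602367740), (nat_lit 29974496884), (nat_lit 45866361292), (nat_lit 44717275705)], (nat_lit 1271251), (nat_lit 1271251), (nat_lit 780000), (nat_lit 3072501), (nat_lit 780000), (nat_lit 2090001), [(nat_lit 780000), (nat_lit 1435001), (nat_lit 1271251)], [(nat_lit 10), (nat_lit 54), (nat_lit 401), (nat_lit 175), (nat_lit 13)]⟩,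
 ⟨⟨[(nat_lit 60), (nat_lit 100), (nat_lit 120)], [(nat_lit 0), (nat_lit 0), (nat_lit 1164)], [((nat_lit 0), (nat_lit 0), (nat_lit 0)), ((nat_lit 0), (nat_lit 0), (nat_lit 0)), ((nat_lit 1000), (nat_lit 933), (nat_lit 572))], ((nat_lit 92), (nat_lit 100), (nat_lit 44))⟩, (nat_lit 2893428), (nat_lit 174), (nat_lit 174), (nat_lit 0), (nat_lit 177136), [(nat_lit 3282000000), (nat_lit 6250000000), (nat_lit 7968000000)], [], [(nat_lit 18174412937), (nat_lit 18926108013), (nat_lit 33344632079), (nat_lit 31771721746), (nat_lit 31560019688), (nat_lit 31982422407), (nat_lit 39000037416), (nat_lit 39211306048)], (nat_lit 1271251), (nat_lit 1271251), (nat_lit 780000), (nat_lit 3072501), (nat_lit 1271251), (nat_lit 1271251), [(nat_lit 780000), (nat_lit 1435001), (nat_lit 1271251)], [(nat_lit 10), (nat_lit 54), (nat_lit 428), (nat_lit 200), (nat_lit 13)]⟩,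
 ⟨⟨[(nat_lit 140), (nat_lit 160), (nat_lit 180)], [(nat_lit 0), (nat_lit 0), (nat_lit 799)], [((nat_lit 0), (nat_lit 0), (nat_lit 0)), ((nat_lit 0), (nat_lit 0), (nat_lit 0)), ((nat_lit 728), (nat_lit 1000), (nat_lit 454))], ((nat_lit 100), (nat_lit 71), (nat_lit 48))⟩, (nat_lit 266215), (nat_lit 300), (nat_lit 824), (nat_lit 22482602), (nat_lit 1130506), [(nat_lit 2982126000), (nat_lit 3597216000), (nat_lit 4259574000)], [], [(nat_lit 17713268310), (nat_lit 16873181831), (nat_lit 16545327928), (nat_lit 15652173357), (nat_lit 17228188864), (nat_lit 16279747013), (nat_lit 15888504436), (nat_lit 14903325837)], (nat_lit 780000), (nat_lit 1598751), (nat_lit 780000), (nat_lit 2090001), (nat_lit 1271251), (nat_lit 1271251), [(nat_lit 1977501), (nat_lit 1271251), (nat_lit 1271251)], [(nat_lit 31), (nat_lit 65), (nat_lit 456), (nat_lit 225), (nat_lit 10)]⟩⟩)) (.leaf ⟨(nat_lit 0), (nat_lit 795), (nat_lit 0), (nat_lit 205), (nat_lit 0), (nat_lit 5834), (nat_lit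 7276), (nat_lit 2296), (nat_lit 14140193140726), (nat_lit 0), (nat_lit 0), [], Pd.none, Pd.none, (nat_lit 0), (nat_lit 1), (nat_lit 0), (nat_lit 0), (nat_lit 5), (nat_lit 0), [], [], [⟨(nat_lit 1), (nat_lit 59), (nat_lit 90), (nat_lit 100), (nat_lit 342055328)⟩], [],
 ⟨⟨[(nat_lit 60), (nat_lit 80), (nat_lit 100)], [(nat_lit 0), (nat_lit 151), (nat_lit 679)], [((nat_lit 0), (nat_lit 0), (nat_lit 0)), ((nat_lit 1000), (nat_lit 953), (nat_lit 118)), ((nat_lit 1000), (nat_lit 894), (nat_lit 411))], ((nat_lit 89), (nat_lit 100), (nat_lit 44))⟩, (nat_lit 1862312), (nat_lit 245), (nat_lit 245), (nat_lit 0), (nat_lit 455070), [(nat_lit 3282000001), (nat_lit 4688000007), (nat_lit 6250000000)], [], [(nat_lit 27893071874), (nat_lit 26361652708), (nat_lit 31014562331), (nat_lit 31344906894), (nat_lit 25526302603), (nat_lit 25929668760), (nat_lit 43942874747), (nat_lit 42663286025)], (nat_lit 1271251), (nat_lit 1271251), (nat_lit 780000), (nat_lit 3072501), (nat_lit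 780000), (nat_lit 2090001), [(nat_lit 780000), (nat_lit 1100000), (nat_lit 1442501)], [(nat_lit 9), (nat_lit 50), (nat_lit 401), (nat_lit 175), (nat_lit 15)]⟩,
 ⟨⟨[(nat_lit 60), (nat_lit 100), (nat_lit 120)], [(nat_lit 0), (nat_lit 0), (nat_lit 1164)], [((nat_lit 0), (nat_lit 0), (nat_lit 0)), ((nat_lit 0), (nat_lit 0), (nat_lit 0)), ((nat_lit 1000), (nat_lit 933), (nat_lit 572))], ((nat_lit 92), (nat_lit 100), (nat_lit 44))⟩, (nat_lit 2694367), (nat_lit 200), (nat_lit 200), (nat_lit 0), (nat_lit 255493), [(nat_lit 3282000000), (nat_lit 6250000000), (nat_lit 7968000000)], [], [(nat_lit 21545542560), (nat_lit 22718015219), (nat_lit 33116851244), (nat_lit 32482897398), (nat_lit 32252293576), (nat_lit 32917897980), (nat_lit 39411912576), (nat_lit 39832826480)], (nat_lit 1271251), (nat_lit 1271251), (nat_lit 780000), (nat_lit 3072501), (nat_lit 1271251), (nat_lit 1271251), [(nat_lit 780000), (nat_lit 1435001), (nat_lit 1271251)], [(nat_lit 10), (nat_lit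 54), (nat_lit 428), (nat_lit 200), (nat_lit 13)]⟩,
 ⟨⟨[(nat_lit 140), (nat_lit 160), (nat_lit 180)], [(nat_lit 0), (nat_lit 0), (nat_lit 799)], [((nat_lit 0), (nat_lit 0), (nat_lit 0)), ((nat_lit 0), (nat_lit 0), (nat_lit 0)), ((nat_lit 728), (nat_lit 1000), (nat_lit 454))], ((nat_lit 100), (nat_lit 71), (nat_lit 48))⟩, (nat_lit 180113), (nat_lit 300), (nat_lit 1114), (nat_lit 15211000), (nat_lit 1742788), [(nat_lit 2017610000), (nat_lit 2433760000), (nat_lit 2881890000)], [], [(nat_lit 11295475441), (nat_lit 10563614535), (nat_lit 10264715679), (nat_lit 9539287755), (nat_lit 10786503040), (nat_lit 10067570357), (nat_lit 9830112276), (nat_lit 9112360659)], (nat_lit 780000), (nat_lit 1598751), (nat_lit 780000), (nat_lit 2090001), (nat_lit 1271251), (nat_lit 1271251), [(nat_lit 1977501), (nat_lit 1271251), (nat_lit 1271251)], [(nat_lit 31), (nat_lit 65), (nat_lit 456), (nat_lit 225), (nat_lit 10)]⟩⟩)) (.leaf ⟨(nat_lit 0), (nat_lit 422), (nat_lit 0),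 (nat_lit 578), (nat_lit 0), (nat_lit 14509), (nat_lit 6916), (nat_lit 7189), (nat_lit 31540951812619), (nat_lit 0), (nat_lit 0), [], Pd.none, Pd.none, (nat_lit 0), (nat_lit 1), (nat_lit 0), (nat_lit 0), (nat_lit 5), (nat_lit 0), [], [], [⟨(nat_lit 1), (nat_lit 59), (nat_lit 90), (nat_lit 100), (nat_lit 451610)⟩], [],
 ⟨⟨[(nat_lit 60), (nat_lit 100), (nat_lit 120)], [(nat_lit 0), (nat_lit 0), (nat_lit 1164)], [((nat_lit 0), (nat_lit 0), (nat_lit 0)), ((nat_lit 0), (nat_lit 0), (nat_lit 0)), ((nat_lit 1000), (nat_lit 933), (nat_lit 572))], ((nat_lit 93), (nat_lit 100), (nat_lit 58))⟩, (nat_lit 0), (nat_lit 168), (nat_lit 168), (nat_lit 0), (nat_lit 153159), [(nat_lit 3282000047), (nat_lit 7517774822), (nat_lit 7968000000)], [], [(nat_lit 33677904357), (nat_lit 26060708375), (nat_lit 41705025289), (nat_lit 43266521149), (nat_lit 21554625621), (nat_lit 24413776744), (nat_lit 53608990135), (nat_lit 47244385141)], (nat_lit 1271251), (nat_lit 1271251), (nat_lit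 780000), (nat_lit 3072501), (nat_lit 780000), (nat_lit 2090001), [(nat_lit 780000), (nat_lit 1435001), (nat_lit 1271251)], [(nat_lit 10), (nat_lit 54), (nat_lit 401), (nat_lit 175), (nat_lit 13)]⟩,
 ⟨⟨[(nat_lit 60), (nat_lit 100), (nat_lit 120)], [(nat_lit 0), (nat_lit 0), (nat_lit 1164)], [((nat_lit 0), (nat_lit 0), (nat_lit 0)), ((nat_lit 0), (nat_lit 0), (nat_lit 0)), ((nat_lit 1000), (nat_lit 933), (nat_lit 572))], ((nat_lit 93), (nat_lit 100), (nat_lit 58))⟩, (nat_lit 2079441), (nat_lit 147), (nat_lit 147), (nat_lit 0), (nat_lit 88216), [(nat_lit 3282000000), (nat_lit 6250000000), (nat_lit 7968000000)], [], [(nat_lit 19197019880), (nat_lit 20691082132), (nat_lit 33404574404), (nat_lit 32115701750), (nat_lit 31641085788), (nat_lit 32403006752), (nat_lit 38891649216), (nat_lit 39314613680)], (nat_lit 1271251), (nat_lit 1271251), (nat_lit 780000), (nat_lit 3072501), (nat_lit 1271251), (nat_lit 1271251), [(nat_lit 780000), (nat_lit 1435001), (nat_lit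 1271251)], [(nat_lit 10), (nat_lit 54), (nat_lit 428), (nat_lit 200), (nat_lit 13)]⟩,
 ⟨⟨[(nat_lit 140), (nat_lit 180), (nat_lit 200)], [(nat_lit 0), (nat_lit 0), (nat_lit 2835)], [((nat_lit 0), (nat_lit 0), (nat_lit 0)), ((nat_lit 0), (nat_lit 0), (nat_lit 0)), ((nat_lit 363), (nat_lit 1000), (nat_lit 798))], ((nat_lit 0), (nat_lit 0), (nat_lit 0))⟩, (nat_lit 159027), (nat_lit 300), (nat_lit 632), (nat_lit 45141800), (nat_lit 571817), [(nat_lit 5688676000), (nat_lit 8125524000), (nat_lit 9479200000)], [], [(nat_lit 34283210623), (nat_lit 32136032741), (nat_lit 31392399523), (nat_lit 29091885086), (nat_lit 33663543174), (nat_lit 31116147571), (nat_lit 30379015658), (nat_lit 27994993859)], (nat_lit 780000), (nat_lit 1598751), (nat_lit 780000), (nat_lit 2090001), (nat_lit 1271251), (nat_lit 1271251), [(nat_lit 1977501), (nat_lit 1271251), (nat_lit 1271251)], [(nat_lit 32), (nat_lit 67), (nat_lit 456), (nat_lit 225), (nat_lit 10)]⟩⟩)))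
noncomputable def c6_31 : Tr Lf :=
 (.spl (nat_lit 5) (nat_lit 200) (.spl (nat_lit 1) (nat_lit 280) (.spl (nat_lit 6) (nat_lit 20) (.leaf ⟨(nat_lit 0), (nat_lit 890), (nat_lit 0), (nat_lit 110), (nat_lit 5495), (nat_lit 7716), (nat_lit 14634), (nat_lit 1244), (nat_lit 0), (nat_lit 0), (nat_lit 0), [], Pd.none, Pd.none, (nat_lit 0), (nat_lit 1), (nat_lit 0), (nat_lit 0), (nat_lit 7), (nat_lit 0), [], [⟨(nat_lit 1), (nat_lit 68), (nat_lit 92), (nat_lit 100), (nat_lit 274744629)⟩], [], [⟨(nat_lit 0), (nat_lit 76), (nat_lit 100), (nat_lit 65), (nat_lit 299020417)⟩],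
 ⟨⟨[(nat_lit 60), (nat_lit 100), (nat_lit 120)], [(nat_lit 0), (nat_lit 0), (nat_lit 1164)], [((nat_lit 0), (nat_lit 0), (nat_lit 0)), ((nat_lit 0), (nat_lit 0), (nat_lit 0)), ((nat_lit 1000), (nat_lit 933), (nat_lit 572))], ((nat_lit 92), (nat_lit 100), (nat_lit 44))⟩, (nat_lit 2039997), (nat_lit 208), (nat_lit 208), (nat_lit 0), (nat_lit 304675), [(nat_lit 3856811011), (nat_lit 6250000049), (nat_lit 7968000000)], [], [(nat_lit 24568176161), (nat_lit 25547067359), (nat_lit 26844026741), (nat_lit 27552017221), (nat_lit 30322812704), (nat_lit 31413434054), (nat_lit 32420422162), (nat_lit 33266986619)], (nat_lit 1271251), (nat_lit 1271251), (nat_lit 780000), (nat_lit 2090001), (nat_lit 1271251), (nat_lit 1271251), [(nat_lit 780000), (nat_lit 1435001), (nat_lit 1271251)], [(nat_lit 10), (nat_lit 54), (nat_lit 289), (nat_lit 75), (nat_lit 8)]⟩,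
 ⟨⟨[(nat_lit 80), (nat_lit 120), (nat_lit 140)], [(nat_lit 0), (nat_lit 0), (nat_lit 1164)], [((nat_lit 0), (nat_lit 0), (nat_lit 0)), ((nat_lit 0), (nat_lit 0), (nat_lit 0)), ((nat_lit 941), (nat_lit 1000), (nat_lit 576))], ((nat_lit 100), (nat_lit 99), (nat_lit 44))⟩, (nat_lit 6142531), (nat_lit 177), (nat_lit 177), (nat_lit 0), (nat_lit 0), [(nat_lit 4688000000), (nat_lit 7968000000), (nat_lit 9842000000)], [], [(nat_lit 18032812092), (nat_lit 23800634124), (nat_lit 29744684248), (nat_lit 36158136870), (nat_lit 8978584550), (nat_lit 13886515246), (nat_lit 17267832108), (nat_lit 22125269932)], (nat_lit 0), (nat_lit 0), (nat_lit 0), (nat_lit 0), (nat_lit 0), (nat_lit 0), [], [(nat_lit 17), (nat_lit 58), (nat_lit 428), (nat_lit 200), (nat_lit 12)]⟩,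
 ⟨⟨[(nat_lit 140), (nat_lit 160), (nat_lit 180)], [(nat_lit 0), (nat_lit 0), (nat_lit 799)], [((nat_lit 0), (nat_lit 0), (nat_lit 0)), ((nat_lit 0), (nat_lit 0), (nat_lit 0)), ((nat_lit 728), (nat_lit 1000), (nat_lit 454))], ((nat_lit 100), (nat_lit 71), (nat_lit 48))⟩, (nat_lit 96646), (nat_lit 300), (nat_lit 1275), (nat_lit 8162000), (nat_lit 1985062), [(nat_lit 1082620000), (nat_lit 1305920000), (nat_lit 1546380000)], [], [(nat_lit 6639881240), (nat_lit 6392155411), (nat_lit 6681842158), (nat_lit 6429098176), (nat_lit 5439276786), (nat_lit 5184565391), (nat_lit 5382040270), (nat_lit 5122592023)], (nat_lit 780000), (nat_lit 1271251), (nat_lit 1271251), (nat_lit 1271251), (nat_lit 0), (nat_lit 1412501), [(nat_lit 1977501), (nat_lit 1271251), (nat_lit 1271251)], [(nat_lit 31), (nat_lit 65), (nat_lit 428), (nat_lit 200), (nat_lit 10)]⟩⟩) (.dle (nat_lit 0))) (.leaf ⟨(nat_lit 0), (nat_lit 894), (nat_lit 0), (nat_lit 106), (nat_lit 614), (nat_lit 7582),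 (nat_lit 8914), (nat_lit 1286), (nat_lit 14174588872476), (nat_lit 0), (nat_lit 0), [], Pd.none, Pd.none, (nat_lit 0), (nat_lit 1), (nat_lit 0), (nat_lit 0), (nat_lit 7), (nat_lit 0), [], [⟨(nat_lit 1), (nat_lit 68), (nat_lit 92), (nat_lit 100), (nat_lit 403709392)⟩], [], [⟨(nat_lit 0), (nat_lit 76), (nat_lit 100), (nat_lit 65), (nat_lit 101702346)⟩],
 ⟨⟨[(nat_lit 60), (nat_lit 100), (nat_lit 120)], [(nat_lit 0), (nat_lit 0), (nat_lit 1164)], [((nat_lit 0), (nat_lit 0), (nat_lit 0)), ((nat_lit 0), (nat_lit 0), (nat_lit 0)), ((nat_lit 1000), (nat_lit 933), (nat_lit 572))], ((nat_lit 93), (nat_lit 100), (nat_lit 58))⟩, (nat_lit 2043220), (nat_lit 278), (nat_lit 278), (nat_lit 0), (nat_lit 462096), [(nat_lit 3897436617), (nat_lit 6250000013), (nat_lit 7968000000)], [], [(nat_lit 24804945173), (nat_lit 25775889769), (nat_lit 27101179833), (nat_lit 27805384785), (nat_lit 30506073272), (nat_lit 31246590128), (nat_lit 32292238499), (nat_lit 33133343026)],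 (nat_lit 1271251), (nat_lit 1271251), (nat_lit 780000), (nat_lit 2090001), (nat_lit 1271251), (nat_lit 1271251), [(nat_lit 780000), (nat_lit 1435001), (nat_lit 1271251)], [(nat_lit 10), (nat_lit 54), (nat_lit 289), (nat_lit 75), (nat_lit 8)]⟩,
 ⟨⟨[(nat_lit 60), (nat_lit 100), (nat_lit 120)], [(nat_lit 0), (nat_lit 0), (nat_lit 1164)], [((nat_lit 0), (nat_lit 0), (nat_lit 0)), ((nat_lit 0), (nat_lit 0), (nat_lit 0)), ((nat_lit 1000), (nat_lit 933), (nat_lit 572))], ((nat_lit 93), (nat_lit 100), (nat_lit 58))⟩, (nat_lit 3819630), (nat_lit 147), (nat_lit 147), (nat_lit 0), (nat_lit 0), [(nat_lit 3282000000), (nat_lit 6250000000), (nat_lit 7968000000)], [], [(nat_lit 19523404884), (nat_lit 21824211056), (nat_lit 28072602270), (nat_lit 30313841201), (nat_lit 15643757801), (nat_lit 17576654015), (nat_lit 21407886560), (nat_lit 22900531324)], (nat_lit 0), (nat_lit 0), (nat_lit 0), (nat_lit 0), (nat_lit 0), (nat_lit 0), [], [(nat_lit 10), (nat_lit 54), (nat_lit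 345), (nat_lit 125), (nat_lit 11)]⟩,
 ⟨⟨[(nat_lit 140), (nat_lit 180), (nat_lit 200)], [(nat_lit 0), (nat_lit 0), (nat_lit 2835)], [((nat_lit 0), (nat_lit 0), (nat_lit 0)), ((nat_lit 0), (nat_lit 0), (nat_lit 0)), ((nat_lit 363), (nat_lit 1000), (nat_lit 798))], ((nat_lit 0), (nat_lit 0), (nat_lit 0))⟩, (nat_lit 29164), (nat_lit 300), (nat_lit 1820), (nat_lit 8278601), (nat_lit 3024428), [(nat_lit 1043252000), (nat_lit 1490148000), (nat_lit 1738400000)], [], [(nat_lit 7269185852), (nat_lit 6983804472), (nat_lit 7311302532), (nat_lit 7002026750), (nat_lit 5892561612), (nat_lit 5602460556), (nat_lit 5837094357), (nat_lit 5544462760)], (nat_lit 780000), (nat_lit 1271251), (nat_lit 1271251), (nat_lit 1271251), (nat_lit 0), (nat_lit 1412501), [(nat_lit 1977501), (nat_lit 1271251), (nat_lit 1271251)], [(nat_lit 32), (nat_lit 67), (nat_lit 550), (nat_lit 200), (nat_lit 11)]⟩⟩)) (.spl (nat_lit 1) (nat_lit 280) (.spl (nat_lit 6) (nat_lit 20) (.spl (nat_lit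 0) (nat_lit 290) (.leaf ⟨(nat_lit 0), (nat_lit 266), (nat_lit 0), (nat_lit 734), (nat_lit 0), (nat_lit 7317), (nat_lit 8842), (nat_lit 7551), (nat_lit 0), (nat_lit 0), (nat_lit 0), [], Pd.none, Pd.none, (nat_lit 0), (nat_lit 1), (nat_lit 0), (nat_lit 0), (nat_lit 7), (nat_lit 0), [], [⟨(nat_lit 1), (nat_lit 66), (nat_lit 93), (nat_lit 100), (nat_lit 290747)⟩], [], [],
 ⟨⟨[(nat_lit 60), (nat_lit 100), (nat_lit 120)], [(nat_lit 0), (nat_lit 0), (nat_lit 1164)], [((nat_lit 0), (nat_lit 0), (nat_lit 0)), ((nat_lit 0), (nat_lit 0), (nat_lit 0)), ((nat_lit 1000), (nat_lit 933), (nat_lit 572))], ((nat_lit 92), (nat_lit 100), (nat_lit 44))⟩, (nat_lit 6181338), (nat_lit 184), (nat_lit 184), (nat_lit 0), (nat_lit 234554), [(nat_lit 4151481367), (nat_lit 6250000005), (nat_lit 7968000000)], [], [(nat_lit 22032621094), (nat_lit 22661680450), (nat_lit 25920498896), (nat_lit 26399736838), (nat_lit 29845004054), (nat_lit 30318681680), (nat_lit 32038740957), (nat_lit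 32453894408)], (nat_lit 1271251), (nat_lit 1271251), (nat_lit 780000), (nat_lit 2090001), (nat_lit 1271251), (nat_lit 1271251), [(nat_lit 780000), (nat_lit 1435001), (nat_lit 1271251)], [(nat_lit 10), (nat_lit 54), (nat_lit 289), (nat_lit 75), (nat_lit 8)]⟩,
 ⟨⟨[(nat_lit 80), (nat_lit 120), (nat_lit 140)], [(nat_lit 0), (nat_lit 0), (nat_lit 1164)], [((nat_lit 0), (nat_lit 0), (nat_lit 0)), ((nat_lit 0), (nat_lit 0), (nat_lit 0)), ((nat_lit 941), (nat_lit 1000), (nat_lit 576))], ((nat_lit 100), (nat_lit 99), (nat_lit 44))⟩, (nat_lit 797565), (nat_lit 116), (nat_lit 116), (nat_lit 0), (nat_lit 0), [(nat_lit 4688000000), (nat_lit 7968000000), (nat_lit 9842000000)], [], [(nat_lit 16334887256), (nat_lit 19688251598), (nat_lit 22208189826), (nat_lit 24574888149), (nat_lit 32298357608), (nat_lit 33978518482), (nat_lit 33694800580), (nat_lit 35285771474)], (nat_lit 0), (nat_lit 0), (nat_lit 0), (nat_lit 0), (nat_lit 0), (nat_lit 0), [], [(nat_lit 17), (nat_lit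 58), (nat_lit 483), (nat_lit 250), (nat_lit 13)]⟩,
 ⟨⟨[(nat_lit 140), (nat_lit 160), (nat_lit 180)], [(nat_lit 0), (nat_lit 0), (nat_lit 799)], [((nat_lit 0), (nat_lit 0), (nat_lit 0)), ((nat_lit 0), (nat_lit 0), (nat_lit 0)), ((nat_lit 728), (nat_lit 1000), (nat_lit 454))], ((nat_lit 100), (nat_lit 71), (nat_lit 48))⟩, (nat_lit 5112495), (nat_lit 300), (nat_lit 904), (nat_lit 54462800), (nat_lit 1437231), [(nat_lit 7224028000), (nat_lit 8714048000), (nat_lit 10318572000)], [], [(nat_lit 40586130724), (nat_lit 39086269538), (nat_lit 39901801008), (nat_lit 38332083281), (nat_lit 38373439788), (nat_lit 36767286308), (nat_lit 37311985482), (nat_lit 35657984802)], (nat_lit 780000), (nat_lit 1271251), (nat_lit 1271251), (nat_lit 1271251), (nat_lit 1271251), (nat_lit 1271251), [(nat_lit 1977501), (nat_lit 1271251), (nat_lit 1271251)], [(nat_lit 31), (nat_lit 65), (nat_lit 483), (nat_lit 250), (nat_lit 11)]⟩⟩) (.trX (nat_lit 4) (nat_lit 0) (nat_lit 2) (nat_lit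 90) (nat_lit 54) (nat_lit 100) (nat_lit 370) (.leaf ⟨(nat_lit 0), (nat_lit 880), (nat_lit 0), (nat_lit 120), (nat_lit 0), (nat_lit 6138), (nat_lit 8830), (nat_lit 1247), (nat_lit 0), (nat_lit 0), (nat_lit 0), [], Pd.none, Pd.none, (nat_lit 0), (nat_lit 1), (nat_lit 0), (nat_lit 0), (nat_lit 7), (nat_lit 0), [], [⟨(nat_lit 1), (nat_lit 70), (nat_lit 91), (nat_lit 100), (nat_lit 111438034)⟩], [], [⟨(nat_lit 2), (nat_lit 63), (nat_lit 78), (nat_lit 100), (nat_lit 593426675)⟩],
 ⟨⟨[(nat_lit 60), (nat_lit 80), (nat_lit 100)], [(nat_lit 0), (nat_lit 151), (nat_lit 679)], [((nat_lit 0), (nat_lit 0), (nat_lit 0)), ((nat_lit 1000), (nat_lit 953), (nat_lit 118)), ((nat_lit 1000), (nat_lit 894), (nat_lit 411))], ((nat_lit 89), (nat_lit 100), (nat_lit 44))⟩, (nat_lit 4355623), (nat_lit 173), (nat_lit 173), (nat_lit 0), (nat_lit 300183), [(nat_lit 3282000002), (nat_lit 4688000001), (nat_lit 6250000000)], [], [(nat_lit 21808959542), (nat_lit 22312124558), (nat_lit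 24947991221), (nat_lit 25478069337), (nat_lit 27951319371), (nat_lit 28526746820), (nat_lit 30603417021), (nat_lit 31012373773)], (nat_lit 1271251), (nat_lit 1271251), (nat_lit 780000), (nat_lit 2090001), (nat_lit 1271251), (nat_lit 1271251), [(nat_lit 780000), (nat_lit 1100000), (nat_lit 1442501)], [(nat_lit 9), (nat_lit 50), (nat_lit 289), (nat_lit 75), (nat_lit 10)]⟩,
 ⟨⟨[(nat_lit 80), (nat_lit 120), (nat_lit 140)], [(nat_lit 0), (nat_lit 0), (nat_lit 1164)], [((nat_lit 0), (nat_lit 0), (nat_lit 0)), ((nat_lit 0), (nat_lit 0), (nat_lit 0)), ((nat_lit 941), (nat_lit 1000), (nat_lit 576))], ((nat_lit 100), (nat_lit 99), (nat_lit 44))⟩, (nat_lit 0), (nat_lit 116), (nat_lit 116), (nat_lit 0), (nat_lit 0), [(nat_lit 4688000000), (nat_lit 7968000000), (nat_lit 9842000000)], [], [(nat_lit 16360368440), (nat_lit 19700271770), (nat_lit 22220793990), (nat_lit 24585780135), (nat_lit 32299848920), (nat_lit 33962662560), (nat_lit 33682494700), (nat_lit 35272715510)],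 (nat_lit 0), (nat_lit 0), (nat_lit 0), (nat_lit 0), (nat_lit 0), (nat_lit 0), [], [(nat_lit 17), (nat_lit 58), (nat_lit 483), (nat_lit 250), (nat_lit 13)]⟩,
 ⟨⟨[(nat_lit 140), (nat_lit 160), (nat_lit 180)], [(nat_lit 0), (nat_lit 0), (nat_lit 799)], [((nat_lit 0), (nat_lit 0), (nat_lit 0)), ((nat_lit 0), (nat_lit 0), (nat_lit 0)), ((nat_lit 728), (nat_lit 1000), (nat_lit 454))], ((nat_lit 100), (nat_lit 71), (nat_lit 48))⟩, (nat_lit 105432), (nat_lit 300), (nat_lit 1152), (nat_lit 8904000), (nat_lit 1985062), [(nat_lit 1181040000), (nat_lit 1424640000), (nat_lit 1686960000)], [], [(nat_lit 6688944655), (nat_lit 6434768362), (nat_lit 6524963018), (nat_lit 6264141888), (nat_lit 6222876582), (nat_lit 5957614739), (nat_lit 6045416861), (nat_lit 5772056386)], (nat_lit 780000), (nat_lit 1271251), (nat_lit 1271251), (nat_lit 1271251), (nat_lit 1271251), (nat_lit 1271251), [(nat_lit 1977501), (nat_lit 1271251), (nat_lit 1271251)], [(nat_lit 31), (nat_lit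 65), (nat_lit 483), (nat_lit 250), (nat_lit 11)]⟩⟩))) (.dle (nat_lit 0))) (.trX (nat_lit 5) (nat_lit 1) (nat_lit 2) (nat_lit 92) (nat_lit 49) (nat_lit 100) (nat_lit 380) (.stt (nat_lit 1) (.leaf ⟨(nat_lit 0), (nat_lit 959), (nat_lit 0), (nat_lit 41), (nat_lit 1056), (nat_lit 7410), (nat_lit 7410), (nat_lit 454), (nat_lit 2153214444367), (nat_lit 0), (nat_lit 0), [], Pd.none, Pd.none, (nat_lit 0), (nat_lit 1), (nat_lit 0), (nat_lit 0), (nat_lit 7), (nat_lit 0), [], [⟨(nat_lit 1), (nat_lit 68), (nat_lit 92), (nat_lit 100), (nat_lit 106727548)⟩], [], [⟨(nat_lit 2), (nat_lit 65), (nat_lit 76), (nat_lit 100), (nat_lit 342378363)⟩, ⟨(nat_lit 2), (nat_lit 97), (nat_lit 82), (nat_lit 100), (nat_lit 226412338)⟩],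
 ⟨⟨[(nat_lit 60), (nat_lit 100), (nat_lit 120)], [(nat_lit 0), (nat_lit 0), (nat_lit 1164)], [((nat_lit 0), (nat_lit 0), (nat_lit 0)), ((nat_lit 0), (nat_lit 0), (nat_lit 0)), ((nat_lit 1000), (nat_lit 933), (nat_lit 572))], ((nat_lit 93), (nat_lit 100), (nat_lit 58))⟩, (nat_lit 0), (nat_lit 92), (nat_lit 92), (nat_lit 0), (nat_lit 0), [(nat_lit 3973014462), (nat_lit 6250000007), (nat_lit 7968000000)], [], [(nat_lit 21895797642), (nat_lit 23283764545), (nat_lit 25844175937), (nat_lit 26808062142), (nat_lit 29829281915), (nat_lit 31032244040), (nat_lit 32127704245), (nat_lit 32961800503)], (nat_lit 0), (nat_lit 0), (nat_lit 0), (nat_lit 0), (nat_lit 0), (nat_lit 0), [], [(nat_lit 10), (nat_lit 54), (nat_lit 289), (nat_lit 75), (nat_lit 8)]⟩,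
 ⟨⟨[(nat_lit 60), (nat_lit 100), (nat_lit 120)], [(nat_lit 0), (nat_lit 0), (nat_lit 1164)], [((nat_lit 0), (nat_lit 0), (nat_lit 0)), ((nat_lit 0), (nat_lit 0), (nat_lit 0)), ((nat_lit 1000), (nat_lit 933), (nat_lit 572))], ((nat_lit 93), (nat_lit 100), (nat_lit 58))⟩, (nat_lit 0), (nat_lit 92), (nat_lit 92), (nat_lit 0), (nat_lit 0), [(nat_lit 3282000000), (nat_lit 6250000000), (nat_lit 7968000000)], [], [(nat_lit 17336515065), (nat_lit 19054635943), (nat_lit 22835874400), (nat_lit 24029751545), (nat_lit 29829281915), (nat_lit 31032244040), (nat_lit 32127704245), (nat_lit 32961800503)], (nat_lit 0), (nat_lit 0), (nat_lit 0), (nat_lit 0), (nat_lit 0), (nat_lit 0), [], [(nat_lit 10), (nat_lit 54), (nat_lit 401), (nat_lit 175), (nat_lit 12)]⟩,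
 ⟨⟨[(nat_lit 140), (nat_lit 180), (nat_lit 200)], [(nat_lit 0), (nat_lit 0), (nat_lit 2835)], [((nat_lit 0), (nat_lit 0), (nat_lit 0)), ((nat_lit 0), (nat_lit 0), (nat_lit 0)), ((nat_lit 363), (nat_lit 1000), (nat_lit 798))], ((nat_lit 0), (nat_lit 0), (nat_lit 0))⟩, (nat_lit 11280), (nat_lit 300), (nat_lit 1701), (nat_lit 3202106), (nat_lit 3024428), [(nat_lit 403522000), (nat_lit 576378000), (nat_lit 672400000)], [], [(nat_lit 2543174026), (nat_lit 2446934518), (nat_lit 2435553436), (nat_lit 2337748415), (nat_lit 2327719328), (nat_lit 2229270782), (nat_lit 2269929025), (nat_lit 2161972080)], (nat_lit 780000), (nat_lit 1271251), (nat_lit 1271251), (nat_lit 1271251), (nat_lit 1271251), (nat_lit 1271251), [(nat_lit 1977501), (nat_lit 1271251), (nat_lit 1271251)], [(nat_lit 32), (nat_lit 67), (nat_lit 543), (nat_lit 250), (nat_lit 11)]⟩⟩) (.leaf ⟨(nat_lit 0), (nat_lit 806), (nat_lit 0), (nat_lit 194), (nat_lit 0), (nat_lit 8263), (nat_lit 7225), (nat_lit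 2135), (nat_lit 12125140023137), (nat_lit 0), (nat_lit 0), [], Pd.none, Pd.none, (nat_lit 0), (nat_lit 1), (nat_lit 0), (nat_lit 0), (nat_lit 7), (nat_lit 0), [], [⟨(nat_lit 1), (nat_lit 68), (nat_lit 92), (nat_lit 100), (nat_lit 147834919)⟩], [⟨(nat_lit 1), (nat_lit 68), (nat_lit 92), (nat_lit 100), (nat_lit 84558518)⟩], [⟨(nat_lit 2), (nat_lit 65), (nat_lit 76), (nat_lit 100), (nat_lit 54864357)⟩, ⟨(nat_lit 2), (nat_lit 97), (nat_lit 82), (nat_lit 100), (nat_lit 310171806)⟩],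
 ⟨⟨[(nat_lit 60), (nat_lit 100), (nat_lit 120)], [(nat_lit 0), (nat_lit 0), (nat_lit 1164)], [((nat_lit 0), (nat_lit 0), (nat_lit 0)), ((nat_lit 0), (nat_lit 0), (nat_lit 0)), ((nat_lit 1000), (nat_lit 933), (nat_lit 572))], ((nat_lit 93), (nat_lit 100), (nat_lit 58))⟩, (nat_lit 2891322), (nat_lit 278), (nat_lit 278), (nat_lit 0), (nat_lit 462096), [(nat_lit 4200103935), (nat_lit 6250000001), (nat_lit 7968000000)], [], [(nat_lit 23040551760), (nat_lit 24160098276), (nat_lit 25754181650), (nat_lit 26517747748), (nat_lit 30822712585), (nat_lit 32094842347), (nat_lit 32943679354), (nat_lit 33812531736)], (nat_lit 1271251), (nat_lit 1271251), (nat_lit 780000), (nat_lit 2090001), (nat_lit 1271251), (nat_lit 1271251), [(nat_lit 780000), (nat_lit 1435001), (nat_lit 1271251)], [(nat_lit 10), (nat_lit 54), (nat_lit 289), (nat_lit 75), (nat_lit 8)]⟩,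
 ⟨⟨[(nat_lit 60), (nat_lit 100), (nat_lit 120)], [(nat_lit 0), (nat_lit 0), (nat_lit 1164)], [((nat_lit 0), (nat_lit 0), (nat_lit 0)), ((nat_lit 0), (nat_lit 0), (nat_lit 0)), ((nat_lit 1000), (nat_lit 933), (nat_lit 572))], ((nat_lit 93), (nat_lit 100), (nat_lit 58))⟩, (nat_lit 94173), (nat_lit 92), (nat_lit 92), (nat_lit 0), (nat_lit 0), [(nat_lit 3282000000), (nat_lit 6250000000), (nat_lit 7968000000)], [], [(nat_lit 17544733213), (nat_lit 19236435582), (nat_lit 23011524500), (nat_lit 24189873763), (nat_lit 29861196325), (nat_lit 30802101363), (nat_lit 31950734263), (nat_lit 32777292557)], (nat_lit 0), (nat_lit 0), (nat_lit 0), (nat_lit 0), (nat_lit 0), (nat_lit 0), [], [(nat_lit 10), (nat_lit 54), (nat_lit 401), (nat_lit 175), (nat_lit 12)]⟩,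
 ⟨⟨[(nat_lit 140), (nat_lit 180), (nat_lit 200)], [(nat_lit 0), (nat_lit 0), (nat_lit 2835)], [((nat_lit 0), (nat_lit 0), (nat_lit 0)), ((nat_lit 0), (nat_lit 0), (nat_lit 0)), ((nat_lit 363), (nat_lit 1000), (nat_lit 798))], ((nat_lit 0), (nat_lit 0), (nat_lit 0))⟩, (nat_lit 523982), (nat_lit 300), (nat_lit 1107), (nat_lit 15151400), (nat_lit 1762861), [(nat_lit 1909348000), (nat_lit 2727252000), (nat_lit 3181600000)], [], [(nat_lit 11926579436), (nat_lit 11448036162), (nat_lit 11581421010), (nat_lit 11091126760), (nat_lit 11097246837), (nat_lit 10604840362), (nat_lit 10783400874), (nat_lit 10276598840)], (nat_lit 780000), (nat_lit 1271251), (nat_lit 1271251), (nat_lit 1271251), (nat_lit 1271251), (nat_lit 1271251), [(nat_lit 1977501), (nat_lit 1271251), (nat_lit 1271251)], [(nat_lit 32), (nat_lit 67), (nat_lit 483), (nat_lit 250), (nat_lit 10)]⟩⟩)))))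
noncomputable def c6_32 : Tr Lf :=
 (.spl (nat_lit 2) (nat_lit 160) (.trX (nat_lit 4) (nat_lit 0) (nat_lit 2) (nat_lit 94) (nat_lit 59) (nat_lit 100) (nat_lit 370) (.spl (nat_lit 1) (nat_lit 280) (.spl (nat_lit 5) (nat_lit 120) (.spl (nat_lit 1) (nat_lit 260) (.spl (nat_lit 6) (nat_lit 12) (.leaf ⟨(nat_lit 0), (nat_lit 814), (nat_lit 0), (nat_lit 186), (nat_lit 11298), (nat_lit 5949), (nat_lit 4668), (nat_lit 2305), (nat_lit 0), (nat_lit 0), (nat_lit 0), [], Pd.none, Pd.none, (nat_lit 0), (nat_lit 1), (nat_lit 0), (nat_lit 0), (nat_lit 7), (nat_lit 0), [], [⟨(nat_lit 1), (nat_lit 73), (nat_lit 94), (nat_lit 100), (nat_lit 464664652)⟩], [], [⟨(nat_lit 0), (nat_lit 80), (nat_lit 100), (nat_lit 47), (nat_lit 3341494)⟩],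
 ⟨⟨[(nat_lit 60), (nat_lit 80), (nat_lit 100)], [(nat_lit 0), (nat_lit 0), (nat_lit 534)], [((nat_lit 0), (nat_lit 0), (nat_lit 0)), ((nat_lit 0), (nat_lit 0), (nat_lit 0)), ((nat_lit 1000), (nat_lit 917), (nat_lit 393))], ((nat_lit 92), (nat_lit 100), (nat_lit 34))⟩, (nat_lit 4641458), (nat_lit 116), (nat_lit 116), (nat_lit 0), (nat_lit 100266), [(nat_lit 3282000168), (nat_lit 4688000078), (nat_lit 6250000000)], [], [(nat_lit 20697624818), (nat_lit 21857797937), (nat_lit 21893883354), (nat_lit 22971286378), (nat_lit 27213644496), (nat_lit 28308792918), (nat_lit 27681250845), (nat_lit 28593514695)], (nat_lit 1271251), (nat_lit 1271251), (nat_lit 780000), (nat_lit 1435001), (nat_lit 1271251), (nat_lit 1271251), [(nat_lit 780000), (nat_lit 1100000), (nat_lit 1442501)], [(nat_lit 9), (nat_lit 50), (nat_lit 260), (nat_lit 50), (nat_lit 8)]⟩,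
 ⟨⟨[(nat_lit 80), (nat_lit 100), (nat_lit 120)], [(nat_lit 0), (nat_lit 0), (nat_lit 511)], [((nat_lit 0), (nat_lit 0), (nat_lit 0)), ((nat_lit 0), (nat_lit 0), (nat_lit 0)), ((nat_lit 1000), (nat_lit 997), (nat_lit 383))], ((nat_lit 99), (nat_lit 100), (nat_lit 34))⟩, (nat_lit 24026), (nat_lit 224), (nat_lit 224), (nat_lit 0), (nat_lit 186542), [(nat_lit 4688000000), (nat_lit 6250000000), (nat_lit 7968000000)], [], [(nat_lit 34714445840), (nat_lit 32300928794), (nat_lit 38726123432), (nat_lit 36510977714), (nat_lit 37129809324), (nat_lit 34944110517), (nat_lit 43237196768), (nat_lit 41108813999)], (nat_lit 1271251), (nat_lit 1271251), (nat_lit 780000), (nat_lit 1435001), (nat_lit 0), (nat_lit 780000), [(nat_lit 1100000), (nat_lit 1442501), (nat_lit 1271251)], [(nat_lit 16), (nat_lit 54), (nat_lit 317), (nat_lit 100), (nat_lit 11)]⟩,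
 ⟨⟨[(nat_lit 140), (nat_lit 160), (nat_lit 180)], [(nat_lit 0), (nat_lit 0), (nat_lit 799)], [((nat_lit 0), (nat_lit 0), (nat_lit 0)), ((nat_lit 0), (nat_lit 0), (nat_lit 0)), ((nat_lit 728), (nat_lit 1000), (nat_lit 454))], ((nat_lit 100), (nat_lit 79), (nat_lit 37))⟩, (nat_lit 163420), (nat_lit 300), (nat_lit 679), (nat_lit 13801200), (nat_lit 679598), [(nat_lit 1830612000), (nat_lit 2208192000), (nat_lit 2614788000)], [], [(nat_lit 10676019284), (nat_lit 10344522896), (nat_lit 10962946141), (nat_lit 10597390416), (nat_lit 8862597255), (nat_lit 8548887921), (nat_lit 9099804803), (nat_lit 8753884423)], (nat_lit 780000), (nat_lit 1100000), (nat_lit 1271251), (nat_lit 1271251), (nat_lit 0), (nat_lit 780000), [(nat_lit 1977501), (nat_lit 1271251), (nat_lit 1271251)], [(nat_lit 31), (nat_lit 65), (nat_lit 401), (nat_lit 175), (nat_lit 9)]⟩⟩) (.dle (nat_lit 0))) (.leaf ⟨(nat_lit 0), (nat_lit 841), (nat_lit 0), (nat_lit 159), (nat_lit 32324), (nat_lit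 7388), (nat_lit 7358), (nat_lit 1970), (nat_lit 0), (nat_lit 0), (nat_lit 0), [], Pd.none, Pd.none, (nat_lit 0), (nat_lit 1), (nat_lit 0), (nat_lit 0), (nat_lit 7), (nat_lit 0), [], [⟨(nat_lit 1), (nat_lit 73), (nat_lit 94), (nat_lit 100), (nat_lit 433612989)⟩], [], [⟨(nat_lit 0), (nat_lit 80), (nat_lit 100), (nat_lit 47), (nat_lit 163659060)⟩],
 ⟨⟨[(nat_lit 60), (nat_lit 100), (nat_lit 120)], [(nat_lit 0), (nat_lit 0), (nat_lit 1164)], [((nat_lit 0), (nat_lit 0), (nat_lit 0)), ((nat_lit 0), (nat_lit 0), (nat_lit 0)), ((nat_lit 1000), (nat_lit 933), (nat_lit 572))], ((nat_lit 92), (nat_lit 100), (nat_lit 44))⟩, (nat_lit 2723516), (nat_lit 161), (nat_lit 161), (nat_lit 0), (nat_lit 172957), [(nat_lit 4144387117), (nat_lit 6250000007), (nat_lit 7968000000)], [], [(nat_lit 22044279182), (nat_lit 23299614362), (nat_lit 22856762527), (nat_lit 24048793113), (nat_lit 28974633869), (nat_lit 29968456083), (nat_lit 28997566404), (nat_lit 29888240645)], (nat_lit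 1271251), (nat_lit 1271251), (nat_lit 780000), (nat_lit 1435001), (nat_lit 1271251), (nat_lit 1271251), [(nat_lit 780000), (nat_lit 1435001), (nat_lit 1271251)], [(nat_lit 10), (nat_lit 54), (nat_lit 260), (nat_lit 50), (nat_lit 7)]⟩,
 ⟨⟨[(nat_lit 80), (nat_lit 100), (nat_lit 120)], [(nat_lit 0), (nat_lit 265), (nat_lit 768)], [((nat_lit 0), (nat_lit 0), (nat_lit 0)), ((nat_lit 1000), (nat_lit 959), (nat_lit 206)), ((nat_lit 1000), (nat_lit 958), (nat_lit 392))], ((nat_lit 96), (nat_lit 100), (nat_lit 44))⟩, (nat_lit 21321904), (nat_lit 261), (nat_lit 261), (nat_lit 0), (nat_lit 285112), [(nat_lit 4688000000), (nat_lit 6250000000), (nat_lit 7968000000)], [], [(nat_lit 20885579069), (nat_lit 17081556906), (nat_lit 22028194089), (nat_lit 19493533924), (nat_lit 19270268195), (nat_lit 15825030015), (nat_lit 27477654112), (nat_lit 24122761135)], (nat_lit 1271251), (nat_lit 1271251), (nat_lit 780000), (nat_lit 1435001), (nat_lit 0), (nat_lit 780000), [(nat_lit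 1100000), (nat_lit 1442501), (nat_lit 1271251)], [(nat_lit 16), (nat_lit 54), (nat_lit 317), (nat_lit 100), (nat_lit 10)]⟩,
 ⟨⟨[(nat_lit 140), (nat_lit 160), (nat_lit 180)], [(nat_lit 0), (nat_lit 0), (nat_lit 799)], [((nat_lit 0), (nat_lit 0), (nat_lit 0)), ((nat_lit 0), (nat_lit 0), (nat_lit 0)), ((nat_lit 728), (nat_lit 1000), (nat_lit 454))], ((nat_lit 100), (nat_lit 71), (nat_lit 48))⟩, (nat_lit 139697), (nat_lit 300), (nat_lit 919), (nat_lit 11797801), (nat_lit 1185729), [(nat_lit 1564878000), (nat_lit 1887648000), (nat_lit 2235222000)], [], [(nat_lit 9126844336), (nat_lit 8843546764), (nat_lit 9372129285), (nat_lit 9059246957), (nat_lit 7635223911), (nat_lit 7344317746), (nat_lit 7779816847), (nat_lit 7484190002)], (nat_lit 780000), (nat_lit 1100000), (nat_lit 1271251), (nat_lit 1271251), (nat_lit 0), (nat_lit 780000), [(nat_lit 1977501), (nat_lit 1271251), (nat_lit 1271251)], [(nat_lit 31), (nat_lit 65), (nat_lit 401), (nat_lit 175), (nat_lit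 9)]⟩⟩)) (.spl (nat_lit 0) (nat_lit 290) (.leaf ⟨(nat_lit 0), (nat_lit 473), (nat_lit 0), (nat_lit 527), (nat_lit 0), (nat_lit 7489), (nat_lit 4431), (nat_lit 5627), (nat_lit 0), (nat_lit 0), (nat_lit 0), [], Pd.none, Pd.none, (nat_lit 0), (nat_lit 1), (nat_lit 0), (nat_lit 0), (nat_lit 7), (nat_lit 0), [], [⟨(nat_lit 1), (nat_lit 71), (nat_lit 95), (nat_lit 100), (nat_lit 191072556)⟩], [], [],
 ⟨⟨[(nat_lit 60), (nat_lit 100), (nat_lit 120)], [(nat_lit 0), (nat_lit 0), (nat_lit 1164)], [((nat_lit 0), (nat_lit 0), (nat_lit 0)), ((nat_lit 0), (nat_lit 0), (nat_lit 0)), ((nat_lit 1000), (nat_lit 933), (nat_lit 572))], ((nat_lit 92), (nat_lit 100), (nat_lit 44))⟩, (nat_lit 3738603), (nat_lit 146), (nat_lit 146), (nat_lit 0), (nat_lit 132267), [(nat_lit 4175668584), (nat_lit 6250000044), (nat_lit 7968000000)], [], [(nat_lit 21830561336), (nat_lit 22528705332), (nat_lit 22760867104), (nat_lit 23361121090), (nat_lit 28949465868), (nat_lit 29449870187), (nat_lit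 28949573160), (nat_lit 29429542566)], (nat_lit 1271251), (nat_lit 1271251), (nat_lit 780000), (nat_lit 1435001), (nat_lit 1271251), (nat_lit 1271251), [(nat_lit 780000), (nat_lit 1435001), (nat_lit 1271251)], [(nat_lit 10), (nat_lit 54), (nat_lit 260), (nat_lit 50), (nat_lit 7)]⟩,
 ⟨⟨[(nat_lit 80), (nat_lit 120), (nat_lit 140)], [(nat_lit 0), (nat_lit 0), (nat_lit 1164)], [((nat_lit 0), (nat_lit 0), (nat_lit 0)), ((nat_lit 0), (nat_lit 0), (nat_lit 0)), ((nat_lit 941), (nat_lit 1000), (nat_lit 576))], ((nat_lit 100), (nat_lit 99), (nat_lit 44))⟩, (nat_lit 383134), (nat_lit 231), (nat_lit 231), (nat_lit 0), (nat_lit 268436), [(nat_lit 4688000000), (nat_lit 7968000000), (nat_lit 9842000000)], [], [(nat_lit 34793122593), (nat_lit 30140590317), (nat_lit 31733986557), (nat_lit 31506950046), (nat_lit 45630278459), (nat_lit 41629315318), (nat_lit 51857593900), (nat_lit 47957601063)], (nat_lit 1271251), (nat_lit 1271251), (nat_lit 780000), (nat_lit 1435001),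 (nat_lit 780000), (nat_lit 2990626), [(nat_lit 1100000), (nat_lit 1785001), (nat_lit 1271251)], [(nat_lit 17), (nat_lit 58), (nat_lit 456), (nat_lit 225), (nat_lit 13)]⟩,
 ⟨⟨[(nat_lit 140), (nat_lit 160), (nat_lit 180)], [(nat_lit 0), (nat_lit 0), (nat_lit 799)], [((nat_lit 0), (nat_lit 0), (nat_lit 0)), ((nat_lit 0), (nat_lit 0), (nat_lit 0)), ((nat_lit 728), (nat_lit 1000), (nat_lit 454))], ((nat_lit 100), (nat_lit 71), (nat_lit 48))⟩, (nat_lit 753729), (nat_lit 300), (nat_lit 660), (nat_lit 39103400), (nat_lit 849851), [(nat_lit 5186734000), (nat_lit 6256544000), (nat_lit 7408566000)], [], [(nat_lit 27650895782), (nat_lit 26896952395), (nat_lit 27914307158), (nat_lit 27111866373), (nat_lit 26020058446), (nat_lit 25167958776), (nat_lit 25988987653), (nat_lit 25089121146)], (nat_lit 780000), (nat_lit 1100000), (nat_lit 1271251), (nat_lit 1271251), (nat_lit 780000), (nat_lit 2990626), [(nat_lit 1977501), (nat_lit 1271251), (nat_lit 1271251)], [(nat_lit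 31), (nat_lit 65), (nat_lit 483), (nat_lit 250), (nat_lit 11)]⟩⟩) (.trX (nat_lit 4) (nat_lit 0) (nat_lit 2) (nat_lit 91) (nat_lit 63) (nat_lit 100) (nat_lit 360) (.leaf ⟨(nat_lit 0), (nat_lit 495), (nat_lit 0), (nat_lit 505), (nat_lit 0), (nat_lit 5559), (nat_lit 6146), (nat_lit 5293), (nat_lit 0), (nat_lit 0), (nat_lit 0), [], Pd.none, Pd.none, (nat_lit 0), (nat_lit 1), (nat_lit 0), (nat_lit 0), (nat_lit 7), (nat_lit 0), [], [⟨(nat_lit 1), (nat_lit 75), (nat_lit 92), (nat_lit 100), (nat_lit 207011560)⟩], [], [],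
 ⟨⟨[(nat_lit 60), (nat_lit 80), (nat_lit 100)], [(nat_lit 0), (nat_lit 151), (nat_lit 679)], [((nat_lit 0), (nat_lit 0), (nat_lit 0)), ((nat_lit 1000), (nat_lit 953), (nat_lit 118)), ((nat_lit 1000), (nat_lit 894), (nat_lit 411))], ((nat_lit 89), (nat_lit 100), (nat_lit 44))⟩, (nat_lit 12053207), (nat_lit 131), (nat_lit 131), (nat_lit 0), (nat_lit 170537), [(nat_lit 3282000005), (nat_lit 4688000004), (nat_lit 6250000000)], [], [(nat_lit 20088071102), (nat_lit 20665348932), (nat_lit 21347624205), (nat_lit 21930714894), (nat_lit 26418183024), (nat_lit 26991675369), (nat_lit 26975657235), (nat_lit 27478077887)], (nat_lit 1271251), (nat_lit 1271251), (nat_lit 780000), (nat_lit 1435001), (nat_lit 1271251), (nat_lit 1271251), [(nat_lit 780000), (nat_lit 1100000), (nat_lit 1442501)], [(nat_lit 9), (nat_lit 50), (nat_lit 260), (nat_lit 50), (nat_lit 8)]⟩,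
 ⟨⟨[(nat_lit 80), (nat_lit 120), (nat_lit 140)], [(nat_lit 0), (nat_lit 0), (nat_lit 1164)], [((nat_lit 0), (nat_lit 0), (nat_lit 0)), ((nat_lit 0), (nat_lit 0), (nat_lit 0)), ((nat_lit 941), (nat_lit 1000), (nat_lit 576))], ((nat_lit 100), (nat_lit 99), (nat_lit 44))⟩, (nat_lit 2957316), (nat_lit 287), (nat_lit 287), (nat_lit 0), (nat_lit 369588), [(nat_lit 4688000000), (nat_lit 7968000000), (nat_lit 9842000000)], [], [(nat_lit 37434742238), (nat_lit 30981466822), (nat_lit 30190805558), (nat_lit 31824348525), (nat_lit 46863687594), (nat_lit 41314168418), (nat_lit 54487197826), (nat_lit 49077729088)], (nat_lit 1271251), (nat_lit 1271251), (nat_lit 780000), (nat_lit 1435001), (nat_lit 780000), (nat_lit 2990626), [(nat_lit 1100000), (nat_lit 1785001), (nat_lit 1271251)], [(nat_lit 17), (nat_lit 58), (nat_lit 456), (nat_lit 225), (nat_lit 13)]⟩,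
 ⟨⟨[(nat_lit 140), (nat_lit 160), (nat_lit 180)], [(nat_lit 0), (nat_lit 0), (nat_lit 799)], [((nat_lit 0), (nat_lit 0), (nat_lit 0)), ((nat_lit 0), (nat_lit 0), (nat_lit 0)), ((nat_lit 728), (nat_lit 1000), (nat_lit 454))], ((nat_lit 100), (nat_lit 71), (nat_lit 48))⟩, (nat_lit 443692), (nat_lit 300), (nat_lit 822), (nat_lit 37471001), (nat_lit 1185729), [(nat_lit 4970210000), (nat_lit 5995360000), (nat_lit 7099290000)], [], [(nat_lit 28033414948), (nat_lit 27285029072), (nat_lit 27900440547), (nat_lit 27119677401), (nat_lit 25666205332), (nat_lit 24854367130), (nat_lit 25266181858), (nat_lit 24429784499)], (nat_lit 780000), (nat_lit 1100000), (nat_lit 1271251), (nat_lit 1271251), (nat_lit 780000), (nat_lit 2990626), [(nat_lit 1977501), (nat_lit 1271251), (nat_lit 1271251)], [(nat_lit 31), (nat_lit 65), (nat_lit 483), (nat_lit 250), (nat_lit 11)]⟩⟩)))) (.trX (nat_lit 5) (nat_lit 1) (nat_lit 2) (nat_lit 94) (nat_lit 59) (nat_lit 100) (nat_lit 370)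 (.spl (nat_lit 5) (nat_lit 200) (.leaf ⟨(nat_lit 0), (nat_lit 818), (nat_lit 0), (nat_lit 182), (nat_lit 0), (nat_lit 7388), (nat_lit 8936), (nat_lit 2278), (nat_lit 11064), (nat_lit 0), (nat_lit 0), [], Pd.none, Pd.none, (nat_lit 0), (nat_lit 1), (nat_lit 0), (nat_lit 0), (nat_lit 7), (nat_lit 0), [], [⟨(nat_lit 1), (nat_lit 73), (nat_lit 94), (nat_lit 100), (nat_lit 433476897)⟩], [], [⟨(nat_lit 0), (nat_lit 80), (nat_lit 100), (nat_lit 47), (nat_lit 115544735)⟩],
 ⟨⟨[(nat_lit 60), (nat_lit 100), (nat_lit 120)], [(nat_lit 0), (nat_lit 0), (nat_lit 1164)], [((nat_lit 0), (nat_lit 0), (nat_lit 0)), ((nat_lit 0), (nat_lit 0), (nat_lit 0)), ((nat_lit 1000), (nat_lit 933), (nat_lit 572))], ((nat_lit 92), (nat_lit 100), (nat_lit 44))⟩, (nat_lit 3321719), (nat_lit 187), (nat_lit 187), (nat_lit 0), (nat_lit 252136), [(nat_lit 3776234047), (nat_lit 6250000001), (nat_lit 7968000000)], [], [(nat_lit 21913964719), (nat_lit 23299614356), (nat_lit 22856762521),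 (nat_lit 24048793107), (nat_lit 28974633863), (nat_lit 29968456077), (nat_lit 28997566398), (nat_lit 29888240645)], (nat_lit 1271251), (nat_lit 1271251), (nat_lit 780000), (nat_lit 1435001), (nat_lit 1271251), (nat_lit 1271251), [(nat_lit 780000), (nat_lit 1435001), (nat_lit 1271251)], [(nat_lit 10), (nat_lit 54), (nat_lit 260), (nat_lit 50), (nat_lit 7)]⟩,
 ⟨⟨[(nat_lit 60), (nat_lit 100), (nat_lit 120)], [(nat_lit 0), (nat_lit 0), (nat_lit 1164)], [((nat_lit 0), (nat_lit 0), (nat_lit 0)), ((nat_lit 0), (nat_lit 0), (nat_lit 0)), ((nat_lit 1000), (nat_lit 933), (nat_lit 572))], ((nat_lit 92), (nat_lit 100), (nat_lit 44))⟩, (nat_lit 2981240), (nat_lit 361), (nat_lit 361), (nat_lit 0), (nat_lit 456616), [(nat_lit 3282000000), (nat_lit 6250000000), (nat_lit 7968000000)], [], [(nat_lit 27498659096), (nat_lit 25523633716), (nat_lit 25046822272), (nat_lit 26290136216), (nat_lit 25925871836), (nat_lit 21797383986), (nat_lit 35657788028), (nat_lit 31636054102)],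 (nat_lit 1271251), (nat_lit 1271251), (nat_lit 780000), (nat_lit 1435001), (nat_lit 0), (nat_lit 1412501), [(nat_lit 780000), (nat_lit 1435001), (nat_lit 1271251)], [(nat_lit 10), (nat_lit 54), (nat_lit 317), (nat_lit 100), (nat_lit 10)]⟩,
 ⟨⟨[(nat_lit 140), (nat_lit 160), (nat_lit 180)], [(nat_lit 0), (nat_lit 0), (nat_lit 799)], [((nat_lit 0), (nat_lit 0), (nat_lit 0)), ((nat_lit 0), (nat_lit 0), (nat_lit 0)), ((nat_lit 728), (nat_lit 1000), (nat_lit 454))], ((nat_lit 100), (nat_lit 71), (nat_lit 48))⟩, (nat_lit 378451), (nat_lit 300), (nat_lit 1163), (nat_lit 13504400), (nat_lit 1742784), [(nat_lit 1791244000), (nat_lit 2160704000), (nat_lit 2558556000)], [], [(nat_lit 10414564832), (nat_lit 10085810624), (nat_lit 10704818936), (nat_lit 10367706333), (nat_lit 8079115508), (nat_lit 7762972256), (nat_lit 8242331095), (nat_lit 7897513338)], (nat_lit 780000), (nat_lit 1100000), (nat_lit 1271251), (nat_lit 1271251), (nat_lit 0), (nat_lit 1412501), [(nat_lit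 1977501), (nat_lit 1271251), (nat_lit 1271251)], [(nat_lit 31), (nat_lit 65), (nat_lit 428), (nat_lit 200), (nat_lit 10)]⟩⟩) (.leaf ⟨(nat_lit 0), (nat_lit 814), (nat_lit 0), (nat_lit 186), (nat_lit 0), (nat_lit 7388), (nat_lit 7743), (nat_lit 2001), (nat_lit 3470404945571), (nat_lit 0), (nat_lit 0), [], Pd.none, Pd.none, (nat_lit 0), (nat_lit 1), (nat_lit 0), (nat_lit 0), (nat_lit 7), (nat_lit 0), [], [⟨(nat_lit 1), (nat_lit 73), (nat_lit 94), (nat_lit 100), (nat_lit 98683080)⟩], [], [⟨(nat_lit 2), (nat_lit 100), (nat_lit 86), (nat_lit 99), (nat_lit 368508034)⟩],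
 ⟨⟨[(nat_lit 60), (nat_lit 100), (nat_lit 120)], [(nat_lit 0), (nat_lit 0), (nat_lit 1164)], [((nat_lit 0), (nat_lit 0), (nat_lit 0)), ((nat_lit 0), (nat_lit 0), (nat_lit 0)), ((nat_lit 1000), (nat_lit 933), (nat_lit 572))], ((nat_lit 92), (nat_lit 100), (nat_lit 44))⟩, (nat_lit 3775766), (nat_lit 187), (nat_lit 187), (nat_lit 0), (nat_lit 252136), [(nat_lit 3947478495), (nat_lit 6250000147), (nat_lit 7968000000)], [], [(nat_lit 21913964865), (nat_lit 23299614502), (nat_lit 22856762667), (nat_lit 24048793253), (nat_lit 28974634009), (nat_lit 29968456223), (nat_lit 28997566544), (nat_lit 29888240645)], (nat_lit 1271251), (nat_lit 1271251), (nat_lit 780000), (nat_lit 1435001), (nat_lit 1271251), (nat_lit 1271251), [(nat_lit 780000), (nat_lit 1435001), (nat_lit 1271251)], [(nat_lit 10), (nat_lit 54), (nat_lit 260), (nat_lit 50), (nat_lit 7)]⟩,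
 ⟨⟨[(nat_lit 60), (nat_lit 100), (nat_lit 120)], [(nat_lit 0), (nat_lit 0), (nat_lit 1164)], [((nat_lit 0), (nat_lit 0), (nat_lit 0)), ((nat_lit 0), (nat_lit 0), (nat_lit 0)), ((nat_lit 1000), (nat_lit 933), (nat_lit 572))], ((nat_lit 92), (nat_lit 100), (nat_lit 44))⟩, (nat_lit 3926376), (nat_lit 273), (nat_lit 273), (nat_lit 0), (nat_lit 456616), [(nat_lit 3282000000), (nat_lit 6250000000), (nat_lit 7968000000)], [], [(nat_lit 20489394457), (nat_lit 21826261324), (nat_lit 21561836767), (nat_lit 22708571904), (nat_lit 29597425114), (nat_lit 30377625196), (nat_lit 29369726983), (nat_lit 30207648367)], (nat_lit 1271251), (nat_lit 1271251), (nat_lit 780000), (nat_lit 1435001), (nat_lit 1271251), (nat_lit 1271251), [(nat_lit 780000), (nat_lit 1435001), (nat_lit 1271251)], [(nat_lit 10), (nat_lit 54), (nat_lit 373), (nat_lit 150), (nat_lit 11)]⟩,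
 ⟨⟨[(nat_lit 140), (nat_lit 160), (nat_lit 180)], [(nat_lit 0), (nat_lit 0), (nat_lit 799)], [((nat_lit 0), (nat_lit 0), (nat_lit 0)), ((nat_lit 0), (nat_lit 0), (nat_lit 0)), ((nat_lit 728), (nat_lit 1000), (nat_lit 454))], ((nat_lit 100), (nat_lit 71), (nat_lit 48))⟩, (nat_lit 592922), (nat_lit 300), (nat_lit 1036), (nat_lit 13801200), (nat_lit 1742784), [(nat_lit 1830612000), (nat_lit 2208192000), (nat_lit 2614788000)], [], [(nat_lit 9783394896), (nat_lit 9490128366), (nat_lit 9603183846), (nat_lit 9300044682), (nat_lit 9223016890), (nat_lit 8916727504), (nat_lit 9102185932), (nat_lit 8785999644)], (nat_lit 780000), (nat_lit 1100000), (nat_lit 1271251), (nat_lit 1271251), (nat_lit 1271251), (nat_lit 1271251), [(nat_lit 1977501), (nat_lit 1271251), (nat_lit 1271251)], [(nat_lit 31), (nat_lit 65), (nat_lit 456), (nat_lit 225), (nat_lit 10)]⟩⟩))))) (.spl (nat_lit 1) (nat_lit 280) (.leaf ⟨(nat_lit 0), (nat_lit 238), (nat_lit 0), (nat_lit 762), (nat_lit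 18567), (nat_lit 7955), (nat_lit 13084), (nat_lit 9287), (nat_lit 0), (nat_lit 0), (nat_lit 0), [], Pd.none, Pd.none, (nat_lit 0), (nat_lit 1), (nat_lit 0), (nat_lit 0), (nat_lit 7), (nat_lit 0), [], [], [⟨(nat_lit 0), (nat_lit 100), (nat_lit 96), (nat_lit 16), (nat_lit 94410541)⟩], [],
 ⟨⟨[(nat_lit 60), (nat_lit 100), (nat_lit 120)], [(nat_lit 0), (nat_lit 0), (nat_lit 1164)], [((nat_lit 0), (nat_lit 0), (nat_lit 0)), ((nat_lit 0), (nat_lit 0), (nat_lit 0)), ((nat_lit 1000), (nat_lit 933), (nat_lit 572))], ((nat_lit 92), (nat_lit 100), (nat_lit 44))⟩, (nat_lit 2750367), (nat_lit 151), (nat_lit 151), (nat_lit 0), (nat_lit 129616), [(nat_lit 4846448167), (nat_lit 6250000007), (nat_lit 7968000000)], [], [(nat_lit 21584372335), (nat_lit 22891121339), (nat_lit 22318418707), (nat_lit 23558040155), (nat_lit 30464006083), (nat_lit 31711160895), (nat_lit 30272386834), (nat_lit 31349835766)], (nat_lit 1271251), (nat_lit 1271251), (nat_lit 780000), (nat_lit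 1435001), (nat_lit 1271251), (nat_lit 1271251), [(nat_lit 780000), (nat_lit 1435001), (nat_lit 1271251)], [(nat_lit 10), (nat_lit 54), (nat_lit 260), (nat_lit 50), (nat_lit 7)]⟩,
 ⟨⟨[(nat_lit 80), (nat_lit 120), (nat_lit 140)], [(nat_lit 0), (nat_lit 0), (nat_lit 1164)], [((nat_lit 0), (nat_lit 0), (nat_lit 0)), ((nat_lit 0), (nat_lit 0), (nat_lit 0)), ((nat_lit 941), (nat_lit 1000), (nat_lit 576))], ((nat_lit 100), (nat_lit 99), (nat_lit 44))⟩, (nat_lit 4508594), (nat_lit 325), (nat_lit 325), (nat_lit 0), (nat_lit 264651), [(nat_lit 4688000000), (nat_lit 7968000000), (nat_lit 9842000000)], [], [(nat_lit 38862827920), (nat_lit 25333332428), (nat_lit 32919953880), (nat_lit 26067302236), (nat_lit 58541244564), (nat_lit 47308077765), (nat_lit 72975047302), (nat_lit 62010607873)], (nat_lit 1271251), (nat_lit 1271251), (nat_lit 780000), (nat_lit 1435001), (nat_lit 0), (nat_lit 2754376), [(nat_lit 1100000), (nat_lit 1785001), (nat_lit 1271251)], [(nat_lit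 17), (nat_lit 58), (nat_lit 456), (nat_lit 225), (nat_lit 13)]⟩,
 ⟨⟨[(nat_lit 120), (nat_lit 160), (nat_lit 180)], [(nat_lit 0), (nat_lit 0), (nat_lit 1613)], [((nat_lit 0), (nat_lit 0), (nat_lit 0)), ((nat_lit 0), (nat_lit 0), (nat_lit 0)), ((nat_lit 620), (nat_lit 1000), (nat_lit 670))], ((nat_lit 100), (nat_lit 81), (nat_lit 44))⟩, (nat_lit 331633), (nat_lit 300), (nat_lit 577), (nat_lit 56540400), (nat_lit 488799), [(nat_lit 6071616000), (nat_lit 9046464000), (nat_lit 10712196000)], [], [(nat_lit 42629829040), (nat_lit 42272222884), (nat_lit 43845222851), (nat_lit 43534264738), (nat_lit 33323656183), (nat_lit 34963387756), (nat_lit 34969758158), (nat_lit 34606024486)], (nat_lit 1100000), (nat_lit 1271251), (nat_lit 1271251), (nat_lit 1271251), (nat_lit 0), (nat_lit 2754376), [(nat_lit 1695001), (nat_lit 1271251), (nat_lit 1271251)], [(nat_lit 28), (nat_lit 65), (nat_lit 483), (nat_lit 250), (nat_lit 11)]⟩⟩) (.trX (nat_lit 5) (nat_lit 1) (nat_lit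 2) (nat_lit 92) (nat_lit 49) (nat_lit 100) (nat_lit 380) (.leaf ⟨(nat_lit 0), (nat_lit 635), (nat_lit 0), (nat_lit 365), (nat_lit 0), (nat_lit 7218), (nat_lit 5730), (nat_lit 3983), (nat_lit 10194), (nat_lit 0), (nat_lit 0), [], Pd.none, Pd.none, (nat_lit 0), (nat_lit 1), (nat_lit 0), (nat_lit 0), (nat_lit 7), (nat_lit 0), [], [⟨(nat_lit 1), (nat_lit 59), (nat_lit 90), (nat_lit 100), (nat_lit 303607862)⟩], [], [],
 ⟨⟨[(nat_lit 60), (nat_lit 100), (nat_lit 120)], [(nat_lit 0), (nat_lit 0), (nat_lit 1164)], [((nat_lit 0), (nat_lit 0), (nat_lit 0)), ((nat_lit 0), (nat_lit 0), (nat_lit 0)), ((nat_lit 1000), (nat_lit 933), (nat_lit 572))], ((nat_lit 92), (nat_lit 100), (nat_lit 44))⟩, (nat_lit 3414157), (nat_lit 178), (nat_lit 178), (nat_lit 0), (nat_lit 210585), [(nat_lit 4197888452), (nat_lit 6250000001), (nat_lit 7968000000)], [], [(nat_lit 22054346724), (nat_lit 23422090219), (nat_lit 23018170721), (nat_lit 24195932442), (nat_lit 29862428347), (nat_lit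 30802945000), (nat_lit 29819277769), (nat_lit 30629872117)], (nat_lit 1271251), (nat_lit 1271251), (nat_lit 780000), (nat_lit 1435001), (nat_lit 1271251), (nat_lit 1271251), [(nat_lit 780000), (nat_lit 1435001), (nat_lit 1271251)], [(nat_lit 10), (nat_lit 54), (nat_lit 260), (nat_lit 50), (nat_lit 7)]⟩,
 ⟨⟨[(nat_lit 60), (nat_lit 100), (nat_lit 120)], [(nat_lit 0), (nat_lit 0), (nat_lit 1164)], [((nat_lit 0), (nat_lit 0), (nat_lit 0)), ((nat_lit 0), (nat_lit 0), (nat_lit 0)), ((nat_lit 1000), (nat_lit 933), (nat_lit 572))], ((nat_lit 92), (nat_lit 100), (nat_lit 44))⟩, (nat_lit 951446), (nat_lit 303), (nat_lit 303), (nat_lit 0), (nat_lit 365363), [(nat_lit 3282000000), (nat_lit 6250000000), (nat_lit 7968000000)], [], [(nat_lit 32609848200), (nat_lit 29602297260), (nat_lit 29608225296), (nat_lit 30654625356), (nat_lit 42876768445), (nat_lit 40378584423), (nat_lit 50638176818), (nat_lit 48200751567)], (nat_lit 1271251), (nat_lit 1271251), (nat_lit 780000),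 (nat_lit 1435001), (nat_lit 0), (nat_lit 2683751), [(nat_lit 780000), (nat_lit 1435001), (nat_lit 1271251)], [(nat_lit 10), (nat_lit 54), (nat_lit 373), (nat_lit 150), (nat_lit 12)]⟩,
 ⟨⟨[(nat_lit 120), (nat_lit 160), (nat_lit 180)], [(nat_lit 0), (nat_lit 0), (nat_lit 1613)], [((nat_lit 0), (nat_lit 0), (nat_lit 0)), ((nat_lit 0), (nat_lit 0), (nat_lit 0)), ((nat_lit 620), (nat_lit 1000), (nat_lit 670))], ((nat_lit 100), (nat_lit 81), (nat_lit 44))⟩, (nat_lit 470600), (nat_lit 300), (nat_lit 726), (nat_lit 27083000), (nat_lit 800695), [(nat_lit 2908320000), (nat_lit 4333280000), (nat_lit 5131170000)], [], [(nat_lit 21870279536), (nat_lit 21677679660), (nat_lit 21891318709), (nat_lit 21672454447), (nat_lit 17213949997), (nat_lit 16987822547), (nat_lit 17090616987), (nat_lit 16898063779)], (nat_lit 1100000), (nat_lit 1271251), (nat_lit 1271251), (nat_lit 1271251), (nat_lit 0), (nat_lit 2683751), [(nat_lit 1695001), (nat_lit 1271251), (nat_lit 1271251)],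 [(nat_lit 28), (nat_lit 65), (nat_lit 483), (nat_lit 250), (nat_lit 11)]⟩⟩))))
def l006 : List St := [⟨⟨(nat_lit 280), (nat_lit 290), (nat_lit 240), (nat_lit 300), (nat_lit 120), (nat_lit 220), (nat_lit 30), (nat_lit 80), (nat_lit 0), (nat_lit 80), (nat_lit 0), (nat_lit 400), (nat_lit 0), (nat_lit 20)⟩, (nat_lit 3), (nat_lit 3), (nat_lit 3), true, true, false⟩,
  ⟨⟨(nat_lit 290), (nat_lit 300), (nat_lit 240), (nat_lit 300), (nat_lit 120), (nat_lit 220), (nat_lit 30), (nat_lit 80), (nat_lit 0), (nat_lit 80), (nat_lit 0), (nat_lit 400), (nat_lit 0), (nat_lit 20)⟩, (nat_lit 3), (nat_lit 3), (nat_lit 3), true, true, false⟩,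
  ⟨⟨(nat_lit 280), (nat_lit 300), (nat_lit 240), (nat_lit 300), (nat_lit 120), (nat_lit 220), (nat_lit 30), (nat_lit 80), (nat_lit 0), (nat_lit 80), (nat_lit 0), (nat_lit 400), (nat_lit 20), (nat_lit 36)⟩, (nat_lit 3), (nat_lit 3), (nat_lit 3), true, true, false⟩,
  ⟨⟨(nat_lit 280), (nat_lit 300), (nat_lit 240), (nat_lit 300), (nat_lit 120), (nat_lit 220), (nat_lit 30), (nat_lit 80), (nat_lit 80), (nat_lit 120), (nat_lit 0), (nat_lit 400), (nat_lit 0), (nat_lit 36)⟩, (nat_lit 3), (nat_lit 3), (nat_lit 3), true, true, false⟩,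
  ⟨⟨(nat_lit 280), (nat_lit 300), (nat_lit 240), (nat_lit 300), (nat_lit 120), (nat_lit 220), (nat_lit 80), (nat_lit 120), (nat_lit 0), (nat_lit 120), (nat_lit 0), (nat_lit 400), (nat_lit 0), (nat_lit 36)⟩, (nat_lit 3), (nat_lit 3), (nat_lit 3), true, true, false⟩,
  ⟨⟨(nat_lit 280), (nat_lit 300), (nat_lit 240), (nat_lit 300), (nat_lit 220), (nat_lit 300), (nat_lit 30), (nat_lit 80), (nat_lit 20), (nat_lit 120), (nat_lit 0), (nat_lit 400), (nat_lit 0), (nat_lit 24)⟩, (nat_lit 3), (nat_lit 3), (nat_lit 3), true, true, false⟩,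
  ⟨⟨(nat_lit 280), (nat_lit 300), (nat_lit 240), (nat_lit 300), (nat_lit 220), (nat_lit 300), (nat_lit 80), (nat_lit 120), (nat_lit 20), (nat_lit 120), (nat_lit 0), (nat_lit 400), (nat_lit 0), (nat_lit 24)⟩, (nat_lit 3), (nat_lit 3), (nat_lit 3), true, true, false⟩,
  ⟨⟨(nat_lit 280), (nat_lit 300), (nat_lit 240), (nat_lit 300), (nat_lit 220), (nat_lit 300), (nat_lit 30), (nat_lit 120), (nat_lit 20), (nat_lit 120), (nat_lit 0), (nat_lit 400), (nat_lit 24), (nat_lit 48)⟩, (nat_lit 3), (nat_lit 3), (nat_lit 3), true, true, false⟩,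
  ⟨⟨(nat_lit 280), (nat_lit 300), (nat_lit 240), (nat_lit 300), (nat_lit 120), (nat_lit 220), (nat_lit 120), (nat_lit 280), (nat_lit 0), (nat_lit 120), (nat_lit 0), (nat_lit 400), (nat_lit 0), (nat_lit 36)⟩, (nat_lit 3), (nat_lit 0), (nat_lit 3), false, true, false⟩,
  ⟨⟨(nat_lit 280), (nat_lit 300), (nat_lit 240), (nat_lit 300), (nat_lit 120), (nat_lit 220), (nat_lit 120), (nat_lit 280), (nat_lit 0), (nat_lit 120), (nat_lit 0), (nat_lit 400), (nat_lit 0), (nat_lit 36)⟩, (nat_lit 3), (nat_lit 1), (nat_lit 3), false, true, false⟩,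
  ⟨⟨(nat_lit 280), (nat_lit 300), (nat_lit 240), (nat_lit 300), (nat_lit 220), (nat_lit 300), (nat_lit 120), (nat_lit 280), (nat_lit 0), (nat_lit 120), (nat_lit 0), (nat_lit 400), (nat_lit 0), (nat_lit 48)⟩, (nat_lit 3), (nat_lit 3), (nat_lit 3), false, true, false⟩,
  ⟨⟨(nat_lit 280), (nat_lit 300), (nat_lit 240), (nat_lit 300), (nat_lit 120), (nat_lit 300), (nat_lit 280), (nat_lit 400), (nat_lit 0), (nat_lit 120), (nat_lit 0), (nat_lit 400), (nat_lit 0), (nat_lit 48)⟩, (nat_lit 3), (nat_lit 3), (nat_lit 3), false, true, false⟩,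
  ⟨⟨(nat_lit 280), (nat_lit 300), (nat_lit 240), (nat_lit 300), (nat_lit 120), (nat_lit 180), (nat_lit 30), (nat_lit 120), (nat_lit 120), (nat_lit 200), (nat_lit 0), (nat_lit 400), (nat_lit 0), (nat_lit 36)⟩, (nat_lit 3), (nat_lit 3), (nat_lit 3), true, false, false⟩,
  ⟨⟨(nat_lit 280), (nat_lit 300), (nat_lit 240), (nat_lit 300), (nat_lit 180), (nat_lit 220), (nat_lit 30), (nat_lit 120), (nat_lit 120), (nat_lit 200), (nat_lit 0), (nat_lit 400), (nat_lit 0), (nat_lit 36)⟩, (nat_lit 3), (nat_lit 3), (nat_lit 3), true, false, false⟩,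
  ⟨⟨(nat_lit 280), (nat_lit 300), (nat_lit 240), (nat_lit 280), (nat_lit 120), (nat_lit 180), (nat_lit 30), (nat_lit 120), (nat_lit 200), (nat_lit 280), (nat_lit 0), (nat_lit 390), (nat_lit 0), (nat_lit 20)⟩, (nat_lit 3), (nat_lit 3), (nat_lit 3), true, false, false⟩,
  ⟨⟨(nat_lit 280), (nat_lit 300), (nat_lit 240), (nat_lit 280), (nat_lit 180), (nat_lit 220), (nat_lit 30), (nat_lit 120), (nat_lit 200), (nat_lit 280), (nat_lit 0), (nat_lit 390), (nat_lit 0), (nat_lit 20)⟩, (nat_lit 3), (nat_lit 3), (nat_lit 3), true, false, false⟩,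
  ⟨⟨(nat_lit 280), (nat_lit 300), (nat_lit 280), (nat_lit 300), (nat_lit 120), (nat_lit 220), (nat_lit 30), (nat_lit 120), (nat_lit 200), (nat_lit 280), (nat_lit 0), (nat_lit 390), (nat_lit 0), (nat_lit 36)⟩, (nat_lit 3), (nat_lit 3), (nat_lit 3), true, false, false⟩,
  ⟨⟨(nat_lit 280), (nat_lit 300), (nat_lit 240), (nat_lit 280), (nat_lit 120), (nat_lit 180), (nat_lit 30), (nat_lit 80), (nat_lit 280), (nat_lit 380), (nat_lit 0), (nat_lit 340), (nat_lit 0), (nat_lit 20)⟩, (nat_lit 3), (nat_lit 3), (nat_lit 3), true, false, false⟩,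
  ⟨⟨(nat_lit 280), (nat_lit 300), (nat_lit 240), (nat_lit 280), (nat_lit 120), (nat_lit 180), (nat_lit 80), (nat_lit 120), (nat_lit 280), (nat_lit 380), (nat_lit 0), (nat_lit 340), (nat_lit 0), (nat_lit 20)⟩, (nat_lit 3), (nat_lit 3), (nat_lit 3), true, false, false⟩,
  ⟨⟨(nat_lit 280), (nat_lit 300), (nat_lit 280), (nat_lit 300), (nat_lit 120), (nat_lit 180), (nat_lit 30), (nat_lit 120), (nat_lit 280), (nat_lit 380), (nat_lit 0), (nat_lit 340), (nat_lit 0), (nat_lit 36)⟩, (nat_lit 3), (nat_lit 3), (nat_lit 3), true, false, false⟩,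
  ⟨⟨(nat_lit 280), (nat_lit 300), (nat_lit 240), (nat_lit 300), (nat_lit 180), (nat_lit 220), (nat_lit 30), (nat_lit 120), (nat_lit 280), (nat_lit 400), (nat_lit 0), (nat_lit 340), (nat_lit 0), (nat_lit 36)⟩, (nat_lit 3), (nat_lit 3), (nat_lit 3), true, false, false⟩,
  ⟨⟨(nat_lit 280), (nat_lit 300), (nat_lit 240), (nat_lit 280), (nat_lit 220), (nat_lit 300), (nat_lit 30), (nat_lit 120), (nat_lit 120), (nat_lit 400), (nat_lit 0), (nat_lit 400), (nat_lit 0), (nat_lit 48)⟩, (nat_lit 3), (nat_lit 3), (nat_lit 3), true, false, false⟩,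
  ⟨⟨(nat_lit 280), (nat_lit 300), (nat_lit 280), (nat_lit 300), (nat_lit 220), (nat_lit 300), (nat_lit 30), (nat_lit 120), (nat_lit 120), (nat_lit 400), (nat_lit 0), (nat_lit 400), (nat_lit 0), (nat_lit 48)⟩, (nat_lit 3), (nat_lit 3), (nat_lit 3), true, false, false⟩,
  ⟨⟨(nat_lit 280), (nat_lit 300), (nat_lit 240), (nat_lit 300), (nat_lit 120), (nat_lit 220), (nat_lit 120), (nat_lit 280), (nat_lit 120), (nat_lit 200), (nat_lit 0), (nat_lit 400), (nat_lit 0), (nat_lit 36)⟩, (nat_lit 0), (nat_lit 3), (nat_lit 3), false, false, false⟩,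
  ⟨⟨(nat_lit 280), (nat_lit 300), (nat_lit 240), (nat_lit 300), (nat_lit 120), (nat_lit 180), (nat_lit 120), (nat_lit 280), (nat_lit 200), (nat_lit 280), (nat_lit 0), (nat_lit 400), (nat_lit 0), (nat_lit 36)⟩, (nat_lit 0), (nat_lit 3), (nat_lit 3), false, false, false⟩,
  ⟨⟨(nat_lit 280), (nat_lit 300), (nat_lit 240), (nat_lit 300), (nat_lit 180), (nat_lit 220), (nat_lit 120), (nat_lit 280), (nat_lit 200), (nat_lit 280), (nat_lit 0), (nat_lit 400), (nat_lit 0), (nat_lit 36)⟩, (nat_lit 0), (nat_lit 3), (nat_lit 3), false, false, false⟩,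
  ⟨⟨(nat_lit 280), (nat_lit 300), (nat_lit 240), (nat_lit 300), (nat_lit 120), (nat_lit 220), (nat_lit 280), (nat_lit 400), (nat_lit 120), (nat_lit 280), (nat_lit 0), (nat_lit 400), (nat_lit 0), (nat_lit 36)⟩, (nat_lit 0), (nat_lit 3), (nat_lit 3), false, false, false⟩,
  ⟨⟨(nat_lit 280), (nat_lit 300), (nat_lit 240), (nat_lit 300), (nat_lit 120), (nat_lit 220), (nat_lit 120), (nat_lit 400), (nat_lit 120), (nat_lit 280), (nat_lit 0), (nat_lit 200), (nat_lit 0), (nat_lit 36)⟩, (nat_lit 1), (nat_lit 0), (nat_lit 3), false, false, false⟩,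
  ⟨⟨(nat_lit 280), (nat_lit 300), (nat_lit 240), (nat_lit 280), (nat_lit 120), (nat_lit 220), (nat_lit 120), (nat_lit 400), (nat_lit 120), (nat_lit 280), (nat_lit 0), (nat_lit 200), (nat_lit 0), (nat_lit 36)⟩, (nat_lit 1), (nat_lit 1), (nat_lit 3), false, false, false⟩,
  ⟨⟨(nat_lit 280), (nat_lit 300), (nat_lit 280), (nat_lit 300), (nat_lit 120), (nat_lit 220), (nat_lit 120), (nat_lit 400), (nat_lit 120), (nat_lit 280), (nat_lit 0), (nat_lit 200), (nat_lit 0), (nat_lit 36)⟩, (nat_lit 1), (nat_lit 1), (nat_lit 3), false, false, false⟩,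
  ⟨⟨(nat_lit 280), (nat_lit 300), (nat_lit 240), (nat_lit 300), (nat_lit 120), (nat_lit 220), (nat_lit 120), (nat_lit 400), (nat_lit 120), (nat_lit 280), (nat_lit 200), (nat_lit 400), (nat_lit 0), (nat_lit 36)⟩, (nat_lit 1), (nat_lit 3), (nat_lit 3), false, false, false⟩,
  ⟨⟨(nat_lit 280), (nat_lit 300), (nat_lit 240), (nat_lit 300), (nat_lit 120), (nat_lit 180), (nat_lit 120), (nat_lit 280), (nat_lit 280), (nat_lit 380), (nat_lit 0), (nat_lit 400), (nat_lit 0), (nat_lit 36)⟩, (nat_lit 3), (nat_lit 0), (nat_lit 3), false, false, false⟩,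
  ⟨⟨(nat_lit 280), (nat_lit 300), (nat_lit 240), (nat_lit 300), (nat_lit 120), (nat_lit 180), (nat_lit 120), (nat_lit 200), (nat_lit 280), (nat_lit 380), (nat_lit 0), (nat_lit 390), (nat_lit 0), (nat_lit 20)⟩, (nat_lit 3), (nat_lit 1), (nat_lit 3), false, false, false⟩]
theorem t006 (h : EC env Ei) : ∀ τ ∈ l006, Dead τ :=
  List.forall_mem_cons.mpr ⟨chkT_sound0 h (T := c6_0) (by decide +kernel),
  List.forall_mem_cons.mpr ⟨chkT_sound0 h (T := c6_1) (by decide +kernel),
  List.forall_mem_cons.mpr ⟨chkT_sound0 h (T := c6_2) (by decide +kernel),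
  List.forall_mem_cons.mpr ⟨chkT_sound0 h (T := c6_3) (by decide +kernel),
  List.forall_mem_cons.mpr ⟨chkT_sound0 h (T := c6_4) (by decide +kernel),
  List.forall_mem_cons.mpr ⟨chkT_sound0 h (T := c6_5) (by decide +kernel),
  List.forall_mem_cons.mpr ⟨chkT_sound0 h (T := c6_6) (by decide +kernel),
  List.forall_mem_cons.mpr ⟨chkT_sound0 h (T := c6_7) (by decide +kernel),
  List.forall_mem_cons.mpr ⟨chkT_sound0 h (T := c6_8) (by decide +kernel),
  List.forall_mem_cons.mpr ⟨chkT_sound0 h (T := c6_9) (by decide +kernel),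
  List.forall_mem_cons.mpr ⟨chkT_sound0 h (T := c6_10) (by decide +kernel),
  List.forall_mem_cons.mpr ⟨chkT_sound0 h (T := c6_11) (by decide +kernel),
  List.forall_mem_cons.mpr ⟨chkT_sound0 h (T := c6_12) (by decide +kernel),
  List.forall_mem_cons.mpr ⟨chkT_sound0 h (T := c6_13) (by decide +kernel),
  List.forall_mem_cons.mpr ⟨chkT_sound0 h (T := c6_14) (by decide +kernel),
  List.forall_mem_cons.mpr ⟨chkT_sound0 h (T := c6_15) (by decide +kernel),
  List.forall_mem_cons.mpr ⟨chkT_sound0 h (T := c6_16) (by decide +kernel),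
  List.forall_mem_cons.mpr ⟨chkT_sound0 h (T := c6_17) (by decide +kernel),
  List.forall_mem_cons.mpr ⟨chkT_sound0 h (T := c6_18) (by decide +kernel),
  List.forall_mem_cons.mpr ⟨chkT_sound0 h (T := c6_19) (by decide +kernel),
  List.forall_mem_cons.mpr ⟨chkT_sound0 h (T := c6_20) (by decide +kernel),
  List.forall_mem_cons.mpr ⟨chkT_sound0 h (T := c6_21) (by decide +kernel),
  List.forall_mem_cons.mpr ⟨chkT_sound0 h (T := c6_22) (by decide +kernel),
  List.forall_mem_cons.mpr ⟨chkT_sound0 h (T := c6_23) (by decide +kernel),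
  List.forall_mem_cons.mpr ⟨chkT_sound0 h (T := c6_24) (by decide +kernel),
  List.forall_mem_cons.mpr ⟨chkT_sound0 h (T := c6_25) (by decide +kernel),
  List.forall_mem_cons.mpr ⟨chkT_sound0 h (T := c6_26) (by decide +kernel),
  List.forall_mem_cons.mpr ⟨chkT_sound0 h (T := c6_27) (by decide +kernel),
  List.forall_mem_cons.mpr ⟨chkT_sound0 h (T := c6_28) (by decide +kernel),
  List.forall_mem_cons.mpr ⟨chkT_sound0 h (T := c6_29) (by decide +kernel),
  List.forall_mem_cons.mpr ⟨chkT_sound0 h (T := c6_30) (by decide +kernel),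
  List.forall_mem_cons.mpr ⟨chkT_sound0 h (T := c6_31) (by decide +kernel),
  List.forall_mem_cons.mpr ⟨chkT_sound0 h (T := c6_32) (by decide +kernel),
  List.forall_mem_nil _⟩⟩⟩⟩⟩⟩⟩⟩⟩⟩⟩⟩⟩⟩⟩⟩⟩⟩⟩⟩⟩⟩⟩⟩⟩⟩⟩⟩⟩⟩⟩⟩⟩
end TC
end Pool.Agent.Lib.MP_6947cd_al
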