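import Pool.Agent.Lib.MP_6947cd_al.C.LeafF
import Pool.Agent.Lib.MP_6947cd_al.TC.E
import Pool.Agent.Lib.MP_6947cd_al.TC.F

/-!
Problem MP_6947cd_al (Chollet).  CASE C, tables and certificates.  Trees of leaves (part 7 of root 6).
-/

set_option autoImplicit false
set_option linter.all false
set_option maxRecDepth 100000
set_option maxHeartbeats 4000000
namespace Pool.Agent.Lib.MP_6947cd_al
namespace TC
open C1
noncomputable def c6_33 : Tr Lf :=
 (.spl (nat_lit 1) (nat_lit 280) (.dle (nat_lit 0)) (.trX (nat_lit 5) (nat_lit 1) (nat_lit 2) (nat_lit 92) (nat_lit 49) (nat_lit 100) (nat_lit 380) (.spl (nat_lit 0) (nat_lit 290) (.ord (.dle (nat_lit 0))) (.trX (nat_lit 4) (nat_lit 0) (nat_lit 2) (nat_lit 90) (nat_lit 54) (nat_lit 100) (nat_lit 370) (.leaf ⟨(nat_lit 0), (nat_lit 659), (nat_lit 0), (nat_lit 341), (nat_lit 3900), (nat_lit 6842), (nat_lit 6395), (nat_lit 3872), (nat_lit 1964981), (nat_lit 0), (nat_lit 0), [], Pd.none, Pd.none, (nat_lit 0), (nat_lit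 1), (nat_lit 0), (nat_lit 0), (nat_lit 7), (nat_lit 0), [], [⟨(nat_lit 1), (nat_lit 70), (nat_lit 91), (nat_lit 100), (nat_lit 264122690)⟩], [], [],
 ⟨⟨[(nat_lit 60), (nat_lit 100), (nat_lit 120)], [(nat_lit 0), (nat_lit 302), (nat_lit 1376)], [((nat_lit 0), (nat_lit 0), (nat_lit 0)), ((nat_lit 1000), (nat_lit 953), (nat_lit 118)), ((nat_lit 1000), (nat_lit 911), (nat_lit 628))], ((nat_lit 90), (nat_lit 100), (nat_lit 58))⟩, (nat_lit 2426211), (nat_lit 132), (nat_lit 132), (nat_lit 0), (nat_lit 84710), [(nat_lit 3720246068), (nat_lit 6250000808), (nat_lit 7968000000)], [], [(nat_lit 22891677703), (nat_lit 23494593662), (nat_lit 23572086644), (nat_lit 24092420475), (nat_lit 28902870225), (nat_lit 29338760728), (nat_lit 28939565244), (nat_lit 29396982571)], (nat_lit 1271251), (nat_lit 1271251), (nat_lit 780000), (nat_lit 1435001), (nat_lit 1271251), (nat_lit 1271251), [(nat_lit 780000), (nat_lit 1435001), (nat_lit 1271251)], [(nat_lit 10), (nat_lit 54),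 (nat_lit 260), (nat_lit 50), (nat_lit 7)]⟩,
 ⟨⟨[(nat_lit 60), (nat_lit 100), (nat_lit 120)], [(nat_lit 0), (nat_lit 0), (nat_lit 1164)], [((nat_lit 0), (nat_lit 0), (nat_lit 0)), ((nat_lit 0), (nat_lit 0), (nat_lit 0)), ((nat_lit 1000), (nat_lit 933), (nat_lit 572))], ((nat_lit 93), (nat_lit 100), (nat_lit 58))⟩, (nat_lit 0), (nat_lit 201), (nat_lit 201), (nat_lit 0), (nat_lit 151195), [(nat_lit 3282000000), (nat_lit 6250000000), (nat_lit 7968000000)], [], [(nat_lit 32930604300), (nat_lit 29574009490), (nat_lit 29550209045), (nat_lit 30789791113), (nat_lit 42351582368), (nat_lit 39563469484), (nat_lit 50709680777), (nat_lit 47989378075)], (nat_lit 1271251), (nat_lit 1271251), (nat_lit 780000), (nat_lit 1435001), (nat_lit 0), (nat_lit 2683751), [(nat_lit 780000), (nat_lit 1435001), (nat_lit 1271251)], [(nat_lit 10), (nat_lit 54), (nat_lit 373), (nat_lit 150), (nat_lit 12)]⟩,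
 ⟨⟨[(nat_lit 140), (nat_lit 180), (nat_lit 200)], [(nat_lit 0), (nat_lit 0), (nat_lit 2835)], [((nat_lit 0), (nat_lit 0), (nat_lit 0)), ((nat_lit 0), (nat_lit 0), (nat_lit 0)), ((nat_lit 363), (nat_lit 1000), (nat_lit 798))], ((nat_lit 0), (nat_lit 0), (nat_lit 0))⟩, (nat_lit 93820), (nat_lit 300), (nat_lit 704), (nat_lit 26632102), (nat_lit 571817), [(nat_lit 3356122000), (nat_lit 4793778000), (nat_lit 5592400000)], [], [(nat_lit 23725808184), (nat_lit 22887141647), (nat_lit 23855068678), (nat_lit 22950564077), (nat_lit 18851075272), (nat_lit 19537470480), (nat_lit 18578424580), (nat_lit 17656308230)], (nat_lit 780000), (nat_lit 1271251), (nat_lit 1271251), (nat_lit 1271251), (nat_lit 0), (nat_lit 2683751), [(nat_lit 1977501), (nat_lit 1271251), (nat_lit 1271251)], [(nat_lit 32), (nat_lit 67), (nat_lit 483), (nat_lit 250), (nat_lit 10)]⟩⟩)))))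
noncomputable def c6_34 : Tr Lf :=
 (.trZ (nat_lit 3) (nat_lit 4) (nat_lit 5) (nat_lit 92) (nat_lit 100) (nat_lit 40) (nat_lit 10) (.spl (nat_lit 1) (nat_lit 280) (.spl (nat_lit 6) (nat_lit 20) (.leaf ⟨(nat_lit 0), (nat_lit 578), (nat_lit 0), (nat_lit 422), (nat_lit 0), (nat_lit 7218), (nat_lit 12270), (nat_lit 4511), (nat_lit 0), (nat_lit 0), (nat_lit 0), [], Pd.none, Pd.none, (nat_lit 0), (nat_lit 1), (nat_lit 0), (nat_lit 0), (nat_lit 7), (nat_lit 0), [], [⟨(nat_lit 1), (nat_lit 68), (nat_lit 92), (nat_lit 100), (nat_lit 185383259)⟩], [], [],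
 ⟨⟨[(nat_lit 60), (nat_lit 100), (nat_lit 120)], [(nat_lit 0), (nat_lit 0), (nat_lit 1164)], [((nat_lit 0), (nat_lit 0), (nat_lit 0)), ((nat_lit 0), (nat_lit 0), (nat_lit 0)), ((nat_lit 1000), (nat_lit 933), (nat_lit 572))], ((nat_lit 92), (nat_lit 100), (nat_lit 44))⟩, (nat_lit 2603768), (nat_lit 144), (nat_lit 144), (nat_lit 0), (nat_lit 174328), [(nat_lit 3925125236), (nat_lit 6250000121), (nat_lit 7968000000)], [], [(nat_lit 23018170841), (nat_lit 24195932562), (nat_lit 26001746035), (nat_lit 26954462544), (nat_lit 29819277889), (nat_lit 30629872237), (nat_lit 31944038101), (nat_lit 32770311175)], (nat_lit 1271251), (nat_lit 1271251), (nat_lit 1271251), (nat_lit 1271251), (nat_lit 1271251), (nat_lit 1271251), [(nat_lit 780000), (nat_lit 1435001), (nat_lit 1271251)], [(nat_lit 10), (nat_lit 54), (nat_lit 289), (nat_lit 75), (nat_lit 8)]⟩,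
 ⟨⟨[(nat_lit 80), (nat_lit 120), (nat_lit 140)], [(nat_lit 0), (nat_lit 0), (nat_lit 1164)], [((nat_lit 0), (nat_lit 0), (nat_lit 0)), ((nat_lit 0), (nat_lit 0), (nat_lit 0)), ((nat_lit 941), (nat_lit 1000), (nat_lit 576))], ((nat_lit 100), (nat_lit 99), (nat_lit 44))⟩, (nat_lit 3824648), (nat_lit 342), (nat_lit 342), (nat_lit 0), (nat_lit 371965), [(nat_lit 4688000000), (nat_lit 7968000000), (nat_lit 9842000000)], [], [(nat_lit 32024675943), (nat_lit 25649847045), (nat_lit 27309605953), (nat_lit 31442120652), (nat_lit 44728020620), (nat_lit 36950708270), (nat_lit 37210180300), (nat_lit 39015425190)], (nat_lit 1271251), (nat_lit 1271251), (nat_lit 1271251), (nat_lit 1271251), (nat_lit 54688), (nat_lit 2845626), [(nat_lit 1100000), (nat_lit 1785001), (nat_lit 1271251)], [(nat_lit 17), (nat_lit 58), (nat_lit 483), (nat_lit 250), (nat_lit 14)]⟩,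
 ⟨⟨[(nat_lit 140), (nat_lit 160), (nat_lit 180)], [(nat_lit 0), (nat_lit 0), (nat_lit 799)], [((nat_lit 0), (nat_lit 0), (nat_lit 0)), ((nat_lit 0), (nat_lit 0), (nat_lit 0)), ((nat_lit 728), (nat_lit 1000), (nat_lit 454))], ((nat_lit 100), (nat_lit 71), (nat_lit 48))⟩, (nat_lit 370769), (nat_lit 300), (nat_lit 911), (nat_lit 31312400), (nat_lit 1185729), [(nat_lit 4153324000), (nat_lit 5009984000), (nat_lit 5932476000)], [], [(nat_lit 26347706210), (nat_lit 25419183508), (nat_lit 26011291485), (nat_lit 25059792078), (nat_lit 21412378704), (nat_lit 25384205309), (nat_lit 20840567680), (nat_lit 19859961845)], (nat_lit 780000), (nat_lit 1271251), (nat_lit 1271251), (nat_lit 1271251), (nat_lit 54688), (nat_lit 2845626), [(nat_lit 1977501), (nat_lit 1271251), (nat_lit 1271251)], [(nat_lit 31), (nat_lit 65), (nat_lit 483), (nat_lit 250), (nat_lit 11)]⟩⟩) (.dle (nat_lit 0))) (.trX (nat_lit 5) (nat_lit 1) (nat_lit 2) (nat_lit 92) (nat_lit 49) (nat_lit 100)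 (nat_lit 380) (.leaf ⟨(nat_lit 0), (nat_lit 762), (nat_lit 0), (nat_lit 238), (nat_lit 0), (nat_lit 7218), (nat_lit 7535), (nat_lit 2569), (nat_lit 2909786886231), (nat_lit 0), (nat_lit 0), [], Pd.none, Pd.none, (nat_lit 0), (nat_lit 1), (nat_lit 0), (nat_lit 0), (nat_lit 7), (nat_lit 0), [], [⟨(nat_lit 1), (nat_lit 68), (nat_lit 92), (nat_lit 100), (nat_lit 394835173)⟩], [⟨(nat_lit 1), (nat_lit 68), (nat_lit 92), (nat_lit 100), (nat_lit 13614761)⟩], [],
 ⟨⟨[(nat_lit 60), (nat_lit 100), (nat_lit 120)], [(nat_lit 0), (nat_lit 0), (nat_lit 1164)], [((nat_lit 0), (nat_lit 0), (nat_lit 0)), ((nat_lit 0), (nat_lit 0), (nat_lit 0)), ((nat_lit 1000), (nat_lit 933), (nat_lit 572))], ((nat_lit 93), (nat_lit 100), (nat_lit 58))⟩, (nat_lit 2559788), (nat_lit 171), (nat_lit 171), (nat_lit 0), (nat_lit 257616), [(nat_lit 3935468606), (nat_lit 6250000004), (nat_lit 7968000000)], [], [(nat_lit 23069343689), (nat_lit 24195932445), (nat_lit 26001745918), (nat_lit 26954462427),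 (nat_lit 29819277772), (nat_lit 30629872120), (nat_lit 31944038101), (nat_lit 32770311175)], (nat_lit 1271251), (nat_lit 1271251), (nat_lit 1271251), (nat_lit 1271251), (nat_lit 1271251), (nat_lit 1271251), [(nat_lit 780000), (nat_lit 1435001), (nat_lit 1271251)], [(nat_lit 10), (nat_lit 54), (nat_lit 289), (nat_lit 75), (nat_lit 8)]⟩,
 ⟨⟨[(nat_lit 60), (nat_lit 100), (nat_lit 120)], [(nat_lit 0), (nat_lit 0), (nat_lit 1164)], [((nat_lit 0), (nat_lit 0), (nat_lit 0)), ((nat_lit 0), (nat_lit 0), (nat_lit 0)), ((nat_lit 1000), (nat_lit 933), (nat_lit 572))], ((nat_lit 93), (nat_lit 100), (nat_lit 58))⟩, (nat_lit 1860919), (nat_lit 323), (nat_lit 323), (nat_lit 0), (nat_lit 462096), [(nat_lit 3282000000), (nat_lit 6250000000), (nat_lit 7968000000)], [], [(nat_lit 25610745598), (nat_lit 26954613982), (nat_lit 29078145289), (nat_lit 30164366604), (nat_lit 33532963378), (nat_lit 30939182079), (nat_lit 32247278558), (nat_lit 33086468034)], (nat_lit 1271251),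 (nat_lit 1271251), (nat_lit 1271251), (nat_lit 1271251), (nat_lit 54688), (nat_lit 2702501), [(nat_lit 780000), (nat_lit 1435001), (nat_lit 1271251)], [(nat_lit 10), (nat_lit 54), (nat_lit 401), (nat_lit 175), (nat_lit 13)]⟩,
 ⟨⟨[(nat_lit 140), (nat_lit 180), (nat_lit 200)], [(nat_lit 0), (nat_lit 0), (nat_lit 2835)], [((nat_lit 0), (nat_lit 0), (nat_lit 0)), ((nat_lit 0), (nat_lit 0), (nat_lit 0)), ((nat_lit 363), (nat_lit 1000), (nat_lit 798))], ((nat_lit 0), (nat_lit 0), (nat_lit 0))⟩, (nat_lit 65481), (nat_lit 300), (nat_lit 1230), (nat_lit 18587807), (nat_lit 1762861), [(nat_lit 2342396000), (nat_lit 3345804000), (nat_lit 3903200000)], [], [(nat_lit 17438425008), (nat_lit 16847572796), (nat_lit 16958244072), (nat_lit 16348205649), (nat_lit 14024718750), (nat_lit 13813674617), (nat_lit 13465217506), (nat_lit 12879554369)], (nat_lit 780000), (nat_lit 1271251), (nat_lit 1271251), (nat_lit 1271251), (nat_lit 54688), (nat_lit 2702501), [(nat_lit 1977501),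 (nat_lit 1271251), (nat_lit 1271251)], [(nat_lit 32), (nat_lit 67), (nat_lit 483), (nat_lit 250), (nat_lit 10)]⟩⟩))))
noncomputable def c6_35 : Tr Lf :=
 (.spl (nat_lit 6) (nat_lit 24) (.spl (nat_lit 3) (nat_lit 200) (.trX (nat_lit 5) (nat_lit 4) (nat_lit 3) (nat_lit 92) (nat_lit 40) (nat_lit 100) (nat_lit 390) (.spl (nat_lit 0) (nat_lit 290) (.ord (.spl (nat_lit 6) (nat_lit 16) (.leaf ⟨(nat_lit 0), (nat_lit 0), (nat_lit 0), (nat_lit 1000), (nat_lit 0), (nat_lit 8579), (nat_lit 4154), (nat_lit 10305), (nat_lit 16944), (nat_lit 0), (nat_lit 0), [], Pd.none, Pd.none, (nat_lit 0), (nat_lit 1), (nat_lit 0), (nat_lit 0), (nat_lit 0), (nat_lit 0), [], [], [⟨(nat_lit 0), (nat_lit 100), (nat_lit 95), (nat_lit 32), (nat_lit 449554711)⟩], [],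
 ⟨⟨[(nat_lit 60), (nat_lit 80), (nat_lit 100)], [(nat_lit 0), (nat_lit 0), (nat_lit 534)], [((nat_lit 0), (nat_lit 0), (nat_lit 0)), ((nat_lit 0), (nat_lit 0), (nat_lit 0)), ((nat_lit 1000), (nat_lit 917), (nat_lit 393))], ((nat_lit 92), (nat_lit 100), (nat_lit 39))⟩, (nat_lit 1632186), (nat_lit 174), (nat_lit 174), (nat_lit 0), (nat_lit 265890), [(nat_lit 4243730547), (nat_lit 4865941921), (nat_lit 6250000000)], [], [(nat_lit 20058877583), (nat_lit 20943708196), (nat_lit 21112280542), (nat_lit 21957987378), (nat_lit 33619938759), (nat_lit 34201007282), (nat_lit 32958518979), (nat_lit 33459353155)], (nat_lit 1271251), (nat_lit 1271251), (nat_lit 780000), (nat_lit 1435001), (nat_lit 1271251), (nat_lit 1271251), [(nat_lit 780000), (nat_lit 1100000), (nat_lit 1442501)], [(nat_lit 9), (nat_lit 50), (nat_lit 260), (nat_lit 50), (nat_lit 8)]⟩,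
 ⟨⟨[(nat_lit 80), (nat_lit 100), (nat_lit 120)], [(nat_lit 0), (nat_lit 0), (nat_lit 511)], [((nat_lit 0), (nat_lit 0), (nat_lit 0)), ((nat_lit 0), (nat_lit 0), (nat_lit 0)), ((nat_lit 1000), (nat_lit 997), (nat_lit 383))], ((nat_lit 100), (nat_lit 100), (nat_lit 40))⟩, (nat_lit 5838506), (nat_lit 267), (nat_lit 267), (nat_lit 0), (nat_lit 286944), [(nat_lit 4688000000), (nat_lit 6250000000), (nat_lit 7968000000)], [], [(nat_lit 37302366784), (nat_lit 31851508754), (nat_lit 34492105920), (nat_lit 33237155347), (nat_lit 47966228013), (nat_lit 43452848598), (nat_lit 54248321564), (nat_lit 49844338388)], (nat_lit 1271251), (nat_lit 1271251), (nat_lit 780000), (nat_lit 1435001), (nat_lit 0), (nat_lit 2754376), [(nat_lit 1100000), (nat_lit 1442501), (nat_lit 1271251)], [(nat_lit 16), (nat_lit 54), (nat_lit 373), (nat_lit 150), (nat_lit 12)]⟩,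
 ⟨⟨[(nat_lit 120), (nat_lit 140), (nat_lit 160)], [(nat_lit 0), (nat_lit 266), (nat_lit 862)], [((nat_lit 0), (nat_lit 0), (nat_lit 0)), ((nat_lit 960), (nat_lit 1000), (nat_lit 200)), ((nat_lit 874), (nat_lit 1000), (nat_lit 406))], ((nat_lit 100), (nat_lit 88), (nat_lit 39))⟩, (nat_lit 2052632), (nat_lit 300), (nat_lit 545), (nat_lit 66400000), (nat_lit 588376), [(nat_lit 7968000000), (nat_lit 9842000000), (nat_lit 11872000000)], [], [(nat_lit 46706127155), (nat_lit 46388492765), (nat_lit 50267976865), (nat_lit 49582221035), (nat_lit 46328569652), (nat_lit 38424371213), (nat_lit 42726336960), (nat_lit 42411012909)], (nat_lit 1271251), (nat_lit 1271251), (nat_lit 1271251), (nat_lit 1271251), (nat_lit 0), (nat_lit 2754376), [(nat_lit 1695001), (nat_lit 1271251), (nat_lit 1271251)], [(nat_lit 27), (nat_lit 62), (nat_lit 538), (nat_lit 300), (nat_lit 14)]⟩⟩) (.dle (nat_lit 0)))) (.trX (nat_lit 4) (nat_lit 0) (nat_lit 2) (nat_lit 90) (nat_lit 36) (nat_lit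 100) (nat_lit 390) (.leaf ⟨(nat_lit 0), (nat_lit 153), (nat_lit 0), (nat_lit 847), (nat_lit 0), (nat_lit 7809), (nat_lit 13356), (nat_lit 8668), (nat_lit 36810), (nat_lit 0), (nat_lit 0), [], Pd.none, Pd.none, (nat_lit 0), (nat_lit 1), (nat_lit 0), (nat_lit 0), (nat_lit 7), (nat_lit 0), [], [], [⟨(nat_lit 0), (nat_lit 100), (nat_lit 94), (nat_lit 35), (nat_lit 180752966)⟩], [⟨(nat_lit 0), (nat_lit 75), (nat_lit 100), (nat_lit 52), (nat_lit 858902)⟩],
 ⟨⟨[(nat_lit 60), (nat_lit 100), (nat_lit 120)], [(nat_lit 0), (nat_lit 302), (nat_lit 1376)], [((nat_lit 0), (nat_lit 0), (nat_lit 0)), ((nat_lit 1000), (nat_lit 953), (nat_lit 118)), ((nat_lit 1000), (nat_lit 911), (nat_lit 628))], ((nat_lit 89), (nat_lit 100), (nat_lit 48))⟩, (nat_lit 5544401), (nat_lit 255), (nat_lit 255), (nat_lit 0), (nat_lit 388261), [(nat_lit 3961636110), (nat_lit 6250000006), (nat_lit 7968000000)], [], [(nat_lit 21063776668), (nat_lit 21607691119), (nat_lit 21782287238), (nat_lit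 22581113394), (nat_lit 32018436498), (nat_lit 32604835760), (nat_lit 31639729690), (nat_lit 32147138234)], (nat_lit 1271251), (nat_lit 1271251), (nat_lit 780000), (nat_lit 1435001), (nat_lit 1271251), (nat_lit 1271251), [(nat_lit 780000), (nat_lit 1435001), (nat_lit 1271251)], [(nat_lit 10), (nat_lit 54), (nat_lit 260), (nat_lit 50), (nat_lit 7)]⟩,
 ⟨⟨[(nat_lit 80), (nat_lit 120), (nat_lit 140)], [(nat_lit 0), (nat_lit 0), (nat_lit 1164)], [((nat_lit 0), (nat_lit 0), (nat_lit 0)), ((nat_lit 0), (nat_lit 0), (nat_lit 0)), ((nat_lit 941), (nat_lit 1000), (nat_lit 576))], ((nat_lit 100), (nat_lit 98), (nat_lit 48))⟩, (nat_lit 5328293), (nat_lit 425), (nat_lit 425), (nat_lit 0), (nat_lit 429504), [(nat_lit 4688000000), (nat_lit 7968000000), (nat_lit 9842000000)], [], [(nat_lit 38991859280), (nat_lit 27136587534), (nat_lit 32727260920), (nat_lit 28901196492), (nat_lit 58706612676), (nat_lit 41506577240), (nat_lit 73386009518), (nat_lit 56597444895)], (nat_lit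 1271251), (nat_lit 1271251), (nat_lit 780000), (nat_lit 1435001), (nat_lit 0), (nat_lit 2754376), [(nat_lit 1100000), (nat_lit 1785001), (nat_lit 1271251)], [(nat_lit 17), (nat_lit 58), (nat_lit 456), (nat_lit 225), (nat_lit 13)]⟩,
 ⟨⟨[(nat_lit 120), (nat_lit 140), (nat_lit 160)], [(nat_lit 0), (nat_lit 266), (nat_lit 862)], [((nat_lit 0), (nat_lit 0), (nat_lit 0)), ((nat_lit 960), (nat_lit 1000), (nat_lit 200)), ((nat_lit 874), (nat_lit 1000), (nat_lit 406))], ((nat_lit 100), (nat_lit 83), (nat_lit 48))⟩, (nat_lit 1738579), (nat_lit 300), (nat_lit 739), (nat_lit 56240800), (nat_lit 1020586), [(nat_lit 6748896000), (nat_lit 8336174000), (nat_lit 10055584000)], [], [(nat_lit 41229397825), (nat_lit 40682130511), (nat_lit 42383018665), (nat_lit 41837125025), (nat_lit 39254555181), (nat_lit 32742538683), (nat_lit 35366327831), (nat_lit 35163787718)], (nat_lit 1271251), (nat_lit 1271251), (nat_lit 1271251), (nat_lit 1271251), (nat_lit 0), (nat_lit 2754376),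 [(nat_lit 1695001), (nat_lit 1271251), (nat_lit 1271251)], [(nat_lit 27), (nat_lit 62), (nat_lit 483), (nat_lit 250), (nat_lit 12)]⟩⟩)))) (.trZ (nat_lit 3) (nat_lit 4) (nat_lit 5) (nat_lit 92) (nat_lit 100) (nat_lit 40) (nat_lit 10) (.leaf ⟨(nat_lit 0), (nat_lit 321), (nat_lit 0), (nat_lit 679), (nat_lit 0), (nat_lit 9038), (nat_lit 12247), (nat_lit 6506), (nat_lit 691730530388), (nat_lit 0), (nat_lit 0), [], Pd.none, Pd.none, (nat_lit 0), (nat_lit 1), (nat_lit 0), (nat_lit 0), (nat_lit 7), (nat_lit 0), [], [], [⟨(nat_lit 0), (nat_lit 100), (nat_lit 94), (nat_lit 35), (nat_lit 793381)⟩], [⟨(nat_lit 0), (nat_lit 73), (nat_lit 100), (nat_lit 85), (nat_lit 228696456)⟩],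
 ⟨⟨[(nat_lit 60), (nat_lit 100), (nat_lit 120)], [(nat_lit 0), (nat_lit 0), (nat_lit 1164)], [((nat_lit 0), (nat_lit 0), (nat_lit 0)), ((nat_lit 0), (nat_lit 0), (nat_lit 0)), ((nat_lit 1000), (nat_lit 933), (nat_lit 572))], ((nat_lit 92), (nat_lit 100), (nat_lit 48))⟩, (nat_lit 3435863), (nat_lit 222), (nat_lit 222), (nat_lit 0), (nat_lit 392078), [(nat_lit 4845001158), (nat_lit 6250000001), (nat_lit 7968000000)], [], [(nat_lit 21939100551), (nat_lit 22936534645), (nat_lit 25467376668), (nat_lit 26855240187), (nat_lit 33454973838), (nat_lit 34480583399), (nat_lit 35499018886), (nat_lit 36300630019)], (nat_lit 1271251), (nat_lit 1271251), (nat_lit 1271251), (nat_lit 1271251), (nat_lit 1271251), (nat_lit 1271251), [(nat_lit 780000), (nat_lit 1435001), (nat_lit 1271251)], [(nat_lit 10), (nat_lit 54), (nat_lit 289), (nat_lit 75), (nat_lit 8)]⟩,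
 ⟨⟨[(nat_lit 80), (nat_lit 120), (nat_lit 140)], [(nat_lit 0), (nat_lit 0), (nat_lit 1164)], [((nat_lit 0), (nat_lit 0), (nat_lit 0)), ((nat_lit 0), (nat_lit 0), (nat_lit 0)), ((nat_lit 941), (nat_lit 1000), (nat_lit 576))], ((nat_lit 100), (nat_lit 98), (nat_lit 48))⟩, (nat_lit 4443804), (nat_lit 369), (nat_lit 369), (nat_lit 0), (nat_lit 429504), [(nat_lit 4688000000), (nat_lit 7968000000), (nat_lit 9842000000)], [], [(nat_lit 32019711100), (nat_lit 27296901576), (nat_lit 26875503121), (nat_lit 34201366356), (nat_lit 44726334582), (nat_lit 38118820844), (nat_lit 37186594030), (nat_lit 39892304874)], (nat_lit 1271251), (nat_lit 1271251), (nat_lit 1271251), (nat_lit 1271251), (nat_lit 54688), (nat_lit 2845626), [(nat_lit 1100000), (nat_lit 1785001), (nat_lit 1271251)], [(nat_lit 17), (nat_lit 58), (nat_lit 483), (nat_lit 250), (nat_lit 14)]⟩,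
 ⟨⟨[(nat_lit 120), (nat_lit 140), (nat_lit 160)], [(nat_lit 0), (nat_lit 266), (nat_lit 862)], [((nat_lit 0), (nat_lit 0), (nat_lit 0)), ((nat_lit 960), (nat_lit 1000), (nat_lit 200)), ((nat_lit 874), (nat_lit 1000), (nat_lit 406))], ((nat_lit 100), (nat_lit 83), (nat_lit 48))⟩, (nat_lit 1919072), (nat_lit 300), (nat_lit 732), (nat_lit 45085600), (nat_lit 1022446), [(nat_lit 5410272000), (nat_lit 6682718000), (nat_lit 8061088000)], [], [(nat_lit 34136500872), (nat_lit 33687633098), (nat_lit 35069989862), (nat_lit 34535674912), (nat_lit 32777417042), (nat_lit 28133648553), (nat_lit 29090979605), (nat_lit 28569637420)], (nat_lit 1271251), (nat_lit 1271251), (nat_lit 1271251), (nat_lit 1271251), (nat_lit 54688), (nat_lit 2845626), [(nat_lit 1695001), (nat_lit 1271251), (nat_lit 1271251)], [(nat_lit 27), (nat_lit 62), (nat_lit 538), (nat_lit 300), (nat_lit 13)]⟩⟩))) (.dle (nat_lit 0)))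
noncomputable def c6_36 : Tr Lf :=
 (.trZ (nat_lit 3) (nat_lit 4) (nat_lit 5) (nat_lit 100) (nat_lit 100) (nat_lit 80) (nat_lit 60) (.spl (nat_lit 1) (nat_lit 280) (.spl (nat_lit 6) (nat_lit 20) (.spl (nat_lit 0) (nat_lit 290) (.leaf ⟨(nat_lit 0), (nat_lit 686), (nat_lit 0), (nat_lit 314), (nat_lit 0), (nat_lit 6016), (nat_lit 8130), (nat_lit 3207), (nat_lit 0), (nat_lit 0), (nat_lit 0), [], Pd.none, Pd.none, (nat_lit 0), (nat_lit 1), (nat_lit 0), (nat_lit 0), (nat_lit 7), (nat_lit 0), [], [⟨(nat_lit 1), (nat_lit 56), (nat_lit 92), (nat_lit 100), (nat_lit 217643402)⟩], [], [⟨(nat_lit 0), (nat_lit 71), (nat_lit 71), (nat_lit 100), (nat_lit 315828)⟩],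
 ⟨⟨[(nat_lit 60), (nat_lit 100), (nat_lit 120)], [(nat_lit 0), (nat_lit 0), (nat_lit 1164)], [((nat_lit 0), (nat_lit 0), (nat_lit 0)), ((nat_lit 0), (nat_lit 0), (nat_lit 0)), ((nat_lit 1000), (nat_lit 933), (nat_lit 572))], ((nat_lit 92), (nat_lit 100), (nat_lit 44))⟩, (nat_lit 3518797), (nat_lit 175), (nat_lit 175), (nat_lit 0), (nat_lit 234635), [(nat_lit 3564694397), (nat_lit 6250000005), (nat_lit 7968000000)], [], [(nat_lit 27341001699), (nat_lit 27694309020), (nat_lit 33273629893), (nat_lit 33557494941), (nat_lit 33273629893), (nat_lit 33557494941), (nat_lit 37632350293), (nat_lit 37805625841)], (nat_lit 1271251), (nat_lit 1271251), (nat_lit 1271251), (nat_lit 1271251), (nat_lit 1271251), (nat_lit 1271251), [(nat_lit 780000), (nat_lit 1435001), (nat_lit 1271251)], [(nat_lit 10), (nat_lit 54), (nat_lit 203), (nat_lit 0), (nat_lit 5)]⟩,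
 ⟨⟨[(nat_lit 80), (nat_lit 120), (nat_lit 140)], [(nat_lit 0), (nat_lit 0), (nat_lit 1164)], [((nat_lit 0), (nat_lit 0), (nat_lit 0)), ((nat_lit 0), (nat_lit 0), (nat_lit 0)), ((nat_lit 941), (nat_lit 1000), (nat_lit 576))], ((nat_lit 100), (nat_lit 99), (nat_lit 44))⟩, (nat_lit 3242664), (nat_lit 289), (nat_lit 289), (nat_lit 0), (nat_lit 271554), [(nat_lit 4688000000), (nat_lit 7968000000), (nat_lit 9842000000)], [], [(nat_lit 28650608655), (nat_lit 30612012665), (nat_lit 36538252480), (nat_lit 37728839820), (nat_lit 34736420760), (nat_lit 35426414600), (nat_lit 39813993840), (nat_lit 40646092880)], (nat_lit 1271251), (nat_lit 1271251), (nat_lit 1271251), (nat_lit 1271251), (nat_lit 356250), (nat_lit 2948751), [(nat_lit 1100000), (nat_lit 1785001), (nat_lit 1271251)], [(nat_lit 17), (nat_lit 58), (nat_lit 401), (nat_lit 175), (nat_lit 11)]⟩,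
 ⟨⟨[(nat_lit 140), (nat_lit 160), (nat_lit 180)], [(nat_lit 0), (nat_lit 0), (nat_lit 799)], [((nat_lit 0), (nat_lit 0), (nat_lit 0)), ((nat_lit 0), (nat_lit 0), (nat_lit 0)), ((nat_lit 728), (nat_lit 1000), (nat_lit 454))], ((nat_lit 100), (nat_lit 71), (nat_lit 48))⟩, (nat_lit 520771), (nat_lit 300), (nat_lit 979), (nat_lit 23298800), (nat_lit 1437231), [(nat_lit 3090388000), (nat_lit 3727808000), (nat_lit 4414212000)], [], [(nat_lit 19298635785), (nat_lit 18307904088), (nat_lit 19025221715), (nat_lit 17972855046), (nat_lit 16561693788), (nat_lit 15498617704), (nat_lit 16045286256), (nat_lit 14943393619)], (nat_lit 780000), (nat_lit 1598751), (nat_lit 1271251), (nat_lit 1271251), (nat_lit 356250), (nat_lit 2948751), [(nat_lit 1977501), (nat_lit 1271251), (nat_lit 1271251)], [(nat_lit 31), (nat_lit 65), (nat_lit 538), (nat_lit 300), (nat_lit 12)]⟩⟩) (.trX (nat_lit 4) (nat_lit 0) (nat_lit 2) (nat_lit 90) (nat_lit 36) (nat_lit 100) (nat_lit 390) (.leaf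 ⟨(nat_lit 0), (nat_lit 770), (nat_lit 0), (nat_lit 230), (nat_lit 0), (nat_lit 5075), (nat_lit 8001), (nat_lit 2361), (nat_lit 0), (nat_lit 0), (nat_lit 0), [], Pd.none, Pd.none, (nat_lit 0), (nat_lit 1), (nat_lit 0), (nat_lit 0), (nat_lit 7), (nat_lit 0), [], [⟨(nat_lit 1), (nat_lit 61), (nat_lit 89), (nat_lit 100), (nat_lit 303026495)⟩], [⟨(nat_lit 1), (nat_lit 44), (nat_lit 96), (nat_lit 100), (nat_lit 57235811)⟩], [],
 ⟨⟨[(nat_lit 60), (nat_lit 80), (nat_lit 100)], [(nat_lit 0), (nat_lit 151), (nat_lit 679)], [((nat_lit 0), (nat_lit 0), (nat_lit 0)), ((nat_lit 1000), (nat_lit 953), (nat_lit 118)), ((nat_lit 1000), (nat_lit 894), (nat_lit 411))], ((nat_lit 89), (nat_lit 100), (nat_lit 44))⟩, (nat_lit 8392751), (nat_lit 172), (nat_lit 172), (nat_lit 0), (nat_lit 300757), [(nat_lit 3282000026), (nat_lit 4688000014), (nat_lit 6250000000)], [], [(nat_lit 26496487931), (nat_lit 26835521771), (nat_lit 31526163532), (nat_lit 31865040288), (nat_lit 30894848543),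 (nat_lit 31249025654), (nat_lit 35997220629), (nat_lit 36224396857)], (nat_lit 1271251), (nat_lit 1271251), (nat_lit 1271251), (nat_lit 1271251), (nat_lit 1271251), (nat_lit 1271251), [(nat_lit 780000), (nat_lit 1100000), (nat_lit 1442501)], [(nat_lit 9), (nat_lit 50), (nat_lit 203), (nat_lit 0), (nat_lit 5)]⟩,
 ⟨⟨[(nat_lit 80), (nat_lit 120), (nat_lit 140)], [(nat_lit 0), (nat_lit 0), (nat_lit 1164)], [((nat_lit 0), (nat_lit 0), (nat_lit 0)), ((nat_lit 0), (nat_lit 0), (nat_lit 0)), ((nat_lit 941), (nat_lit 1000), (nat_lit 576))], ((nat_lit 100), (nat_lit 99), (nat_lit 44))⟩, (nat_lit 2354021), (nat_lit 327), (nat_lit 327), (nat_lit 0), (nat_lit 374179), [(nat_lit 4688000000), (nat_lit 7968000000), (nat_lit 9842000000)], [], [(nat_lit 29753969284), (nat_lit 31481006681), (nat_lit 36818889107), (nat_lit 37853975021), (nat_lit 34959171252), (nat_lit 35651220320), (nat_lit 39626096568), (nat_lit 40459665176)], (nat_lit 1271251), (nat_lit 1271251), (nat_lit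 1271251), (nat_lit 1271251), (nat_lit 356250), (nat_lit 2948751), [(nat_lit 1100000), (nat_lit 1785001), (nat_lit 1271251)], [(nat_lit 17), (nat_lit 58), (nat_lit 401), (nat_lit 175), (nat_lit 11)]⟩,
 ⟨⟨[(nat_lit 140), (nat_lit 160), (nat_lit 180)], [(nat_lit 0), (nat_lit 0), (nat_lit 799)], [((nat_lit 0), (nat_lit 0), (nat_lit 0)), ((nat_lit 0), (nat_lit 0), (nat_lit 0)), ((nat_lit 728), (nat_lit 1000), (nat_lit 454))], ((nat_lit 100), (nat_lit 71), (nat_lit 48))⟩, (nat_lit 202078), (nat_lit 300), (nat_lit 1225), (nat_lit 17066000), (nat_lit 1985062), [(nat_lit 2263660000), (nat_lit 2730560000), (nat_lit 3233340000)], [], [(nat_lit 14332955781), (nat_lit 13578525379), (nat_lit 14005530999), (nat_lit 13218614253), (nat_lit 12156760866), (nat_lit 11366597046), (nat_lit 11706808331), (nat_lit 10897769011)], (nat_lit 780000), (nat_lit 1598751), (nat_lit 1271251), (nat_lit 1271251), (nat_lit 356250), (nat_lit 2948751), [(nat_lit 1977501), (nat_lit 1271251),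 (nat_lit 1271251)], [(nat_lit 31), (nat_lit 65), (nat_lit 538), (nat_lit 300), (nat_lit 12)]⟩⟩))) (.dle (nat_lit 0))) (.spl (nat_lit 2) (nat_lit 180) (.trX (nat_lit 4) (nat_lit 0) (nat_lit 2) (nat_lit 92) (nat_lit 49) (nat_lit 100) (nat_lit 380) (.trX (nat_lit 5) (nat_lit 1) (nat_lit 2) (nat_lit 92) (nat_lit 49) (nat_lit 100) (nat_lit 380) (.spl (nat_lit 0) (nat_lit 290) (.ord (.spl (nat_lit 6) (nat_lit 20) (.leaf ⟨(nat_lit 0), (nat_lit 854), (nat_lit 0), (nat_lit 146), (nat_lit 0), (nat_lit 6867), (nat_lit 6849), (nat_lit 1532), (nat_lit 6408396057342), (nat_lit 0), (nat_lit 0), [], Pd.none, Pd.none, (nat_lit 0), (nat_lit 1), (nat_lit 0), (nat_lit 0), (nat_lit 7), (nat_lit 0), [], [⟨(nat_lit 1), (nat_lit 66), (nat_lit 93), (nat_lit 100), (nat_lit 355621601)⟩], [⟨(nat_lit 1), (nat_lit 66), (nat_lit 93), (nat_lit 100), (nat_lit 132631622)⟩], [],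
 ⟨⟨[(nat_lit 60), (nat_lit 100), (nat_lit 120)], [(nat_lit 0), (nat_lit 0), (nat_lit 1164)], [((nat_lit 0), (nat_lit 0), (nat_lit 0)), ((nat_lit 0), (nat_lit 0), (nat_lit 0)), ((nat_lit 1000), (nat_lit 933), (nat_lit 572))], ((nat_lit 92), (nat_lit 100), (nat_lit 44))⟩, (nat_lit 2097861), (nat_lit 196), (nat_lit 196), (nat_lit 0), (nat_lit 315694), [(nat_lit 3685540753), (nat_lit 6250000003), (nat_lit 7968000000)], [], [(nat_lit 28441855084), (nat_lit 28799582086), (nat_lit 33692045483), (nat_lit 33915448417), (nat_lit 32737224886), (nat_lit 32983354417), (nat_lit 37766750936), (nat_lit 38004961737)], (nat_lit 1271251), (nat_lit 1271251), (nat_lit 1271251), (nat_lit 1271251), (nat_lit 1271251), (nat_lit 1271251), [(nat_lit 780000), (nat_lit 1435001), (nat_lit 1271251)], [(nat_lit 10), (nat_lit 54), (nat_lit 203), (nat_lit 0), (nat_lit 5)]⟩,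
 ⟨⟨[(nat_lit 60), (nat_lit 100), (nat_lit 120)], [(nat_lit 0), (nat_lit 0), (nat_lit 1164)], [((nat_lit 0), (nat_lit 0), (nat_lit 0)), ((nat_lit 0), (nat_lit 0), (nat_lit 0)), ((nat_lit 1000), (nat_lit 933), (nat_lit 572))], ((nat_lit 92), (nat_lit 100), (nat_lit 44))⟩, (nat_lit 2098850), (nat_lit 266), (nat_lit 266), (nat_lit 0), (nat_lit 315694), [(nat_lit 3282000000), (nat_lit 6250000000), (nat_lit 7968000000)], [], [(nat_lit 27195566022), (nat_lit 27695476538), (nat_lit 34361469817), (nat_lit 34712890900), (nat_lit 32767059187), (nat_lit 33013118194), (nat_lit 37742063792), (nat_lit 37980268729)], (nat_lit 1271251), (nat_lit 1271251), (nat_lit 1271251), (nat_lit 1271251), (nat_lit 356250), (nat_lit 2796251), [(nat_lit 780000), (nat_lit 1435001), (nat_lit 1271251)], [(nat_lit 10), (nat_lit 54), (nat_lit 317), (nat_lit 100), (nat_lit 9)]⟩,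
 ⟨⟨[(nat_lit 140), (nat_lit 160), (nat_lit 180)], [(nat_lit 0), (nat_lit 0), (nat_lit 799)], [((nat_lit 0), (nat_lit 0), (nat_lit 0)), ((nat_lit 0), (nat_lit 0), (nat_lit 0)), ((nat_lit 728), (nat_lit 1000), (nat_lit 454))], ((nat_lit 100), (nat_lit 71), (nat_lit 48))⟩, (nat_lit 142121), (nat_lit 300), (nat_lit 1205), (nat_lit 10833200), (nat_lit 1939332), [(nat_lit 1436932000), (nat_lit 1733312000), (nat_lit 2052468000)], [], [(nat_lit 8878612658), (nat_lit 8562679186), (nat_lit 8676792407), (nat_lit 8350416324), (nat_lit 7492987505), (nat_lit 7168118103), (nat_lit 7288710873), (nat_lit 6953925633)], (nat_lit 780000), (nat_lit 1271251), (nat_lit 1271251), (nat_lit 1271251), (nat_lit 356250), (nat_lit 2796251), [(nat_lit 1977501), (nat_lit 1271251), (nat_lit 1271251)], [(nat_lit 31), (nat_lit 65), (nat_lit 483), (nat_lit 250), (nat_lit 11)]⟩⟩) (.dle (nat_lit 0)))) (.trX (nat_lit 4) (nat_lit 0) (nat_lit 2) (nat_lit 90) (nat_lit 54) (nat_lit 100) (nat_lit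 370) (.leaf ⟨(nat_lit 0), (nat_lit 879), (nat_lit 0), (nat_lit 121), (nat_lit 0), (nat_lit 6250), (nat_lit 7188), (nat_lit 1339), (nat_lit 1598110), (nat_lit 0), (nat_lit 0), [], Pd.none, Pd.none, (nat_lit 0), (nat_lit 1), (nat_lit 0), (nat_lit 0), (nat_lit 7), (nat_lit 0), [], [⟨(nat_lit 1), (nat_lit 70), (nat_lit 91), (nat_lit 100), (nat_lit 368050915)⟩], [⟨(nat_lit 1), (nat_lit 68), (nat_lit 92), (nat_lit 100), (nat_lit 143202047)⟩], [],
 ⟨⟨[(nat_lit 60), (nat_lit 100), (nat_lit 120)], [(nat_lit 0), (nat_lit 302), (nat_lit 1376)], [((nat_lit 0), (nat_lit 0), (nat_lit 0)), ((nat_lit 1000), (nat_lit 953), (nat_lit 118)), ((nat_lit 1000), (nat_lit 911), (nat_lit 628))], ((nat_lit 90), (nat_lit 100), (nat_lit 58))⟩, (nat_lit 2894470), (nat_lit 249), (nat_lit 249), (nat_lit 0), (nat_lit 457056), [(nat_lit 3356538224), (nat_lit 6250000028), (nat_lit 7968000000)], [], [(nat_lit 28228580083), (nat_lit 28575674864), (nat_lit 33148199614), (nat_lit 33370862301),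 (nat_lit 31808896583), (nat_lit 32063133426), (nat_lit 36666539969), (nat_lit 36916865188)], (nat_lit 1271251), (nat_lit 1271251), (nat_lit 1271251), (nat_lit 1271251), (nat_lit 1271251), (nat_lit 1271251), [(nat_lit 780000), (nat_lit 1435001), (nat_lit 1271251)], [(nat_lit 10), (nat_lit 54), (nat_lit 203), (nat_lit 0), (nat_lit 5)]⟩,
 ⟨⟨[(nat_lit 60), (nat_lit 100), (nat_lit 120)], [(nat_lit 0), (nat_lit 0), (nat_lit 1164)], [((nat_lit 0), (nat_lit 0), (nat_lit 0)), ((nat_lit 0), (nat_lit 0), (nat_lit 0)), ((nat_lit 1000), (nat_lit 933), (nat_lit 572))], ((nat_lit 93), (nat_lit 100), (nat_lit 58))⟩, (nat_lit 1635413), (nat_lit 314), (nat_lit 314), (nat_lit 0), (nat_lit 461842), [(nat_lit 3282000000), (nat_lit 6250000000), (nat_lit 7968000000)], [], [(nat_lit 29836238036), (nat_lit 30613803230), (nat_lit 35473680810), (nat_lit 35963796689), (nat_lit 33218940629), (nat_lit 33584963917), (nat_lit 38207005004), (nat_lit 38683635736)], (nat_lit 1271251),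 (nat_lit 1271251), (nat_lit 1271251), (nat_lit 1271251), (nat_lit 356250), (nat_lit 2796251), [(nat_lit 780000), (nat_lit 1435001), (nat_lit 1271251)], [(nat_lit 10), (nat_lit 54), (nat_lit 317), (nat_lit 100), (nat_lit 9)]⟩,
 ⟨⟨[(nat_lit 140), (nat_lit 180), (nat_lit 200)], [(nat_lit 0), (nat_lit 0), (nat_lit 2835)], [((nat_lit 0), (nat_lit 0), (nat_lit 0)), ((nat_lit 0), (nat_lit 0), (nat_lit 0)), ((nat_lit 363), (nat_lit 1000), (nat_lit 798))], ((nat_lit 0), (nat_lit 0), (nat_lit 0))⟩, (nat_lit 33291), (nat_lit 300), (nat_lit 1775), (nat_lit 9450101), (nat_lit 3024428), [(nat_lit 1190882000), (nat_lit 1701018000), (nat_lit 1984400000)], [], [(nat_lit 8258410258), (nat_lit 7965395480), (nat_lit 8024129818), (nat_lit 7711006270), (nat_lit 6874492913), (nat_lit 6592978236), (nat_lit 6705016316), (nat_lit 6388419118)], (nat_lit 780000), (nat_lit 1271251), (nat_lit 1271251), (nat_lit 1271251), (nat_lit 356250), (nat_lit 2796251), [(nat_lit 1977501), (nat_lit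 1271251), (nat_lit 1271251)], [(nat_lit 32), (nat_lit 67), (nat_lit 560), (nat_lit 250), (nat_lit 12)]⟩⟩))))) (.spl (nat_lit 6) (nat_lit 24) (.leaf ⟨(nat_lit 0), (nat_lit 350), (nat_lit 0), (nat_lit 650), (nat_lit 0), (nat_lit 8276), (nat_lit 7086), (nat_lit 6227), (nat_lit 13360033342306), (nat_lit 0), (nat_lit 0), [], Pd.none, Pd.none, (nat_lit 0), (nat_lit 1), (nat_lit 0), (nat_lit 0), (nat_lit 7), (nat_lit 0), [], [], [], [⟨(nat_lit 0), (nat_lit 71), (nat_lit 71), (nat_lit 100), (nat_lit 344283223)⟩],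
 ⟨⟨[(nat_lit 60), (nat_lit 100), (nat_lit 120)], [(nat_lit 0), (nat_lit 0), (nat_lit 1164)], [((nat_lit 0), (nat_lit 0), (nat_lit 0)), ((nat_lit 0), (nat_lit 0), (nat_lit 0)), ((nat_lit 1000), (nat_lit 933), (nat_lit 572))], ((nat_lit 92), (nat_lit 100), (nat_lit 48))⟩, (nat_lit 5299825), (nat_lit 222), (nat_lit 222), (nat_lit 0), (nat_lit 392535), [(nat_lit 4093463111), (nat_lit 6250000001), (nat_lit 7968000000)], [], [(nat_lit 25729153172), (nat_lit 26493376674), (nat_lit 34669965172), (nat_lit 35447761138), (nat_lit 34669965172), (nat_lit 35447761138), (nat_lit 40857088576), (nat_lit 41272306480)], (nat_lit 1271251), (nat_lit 1271251), (nat_lit 1271251), (nat_lit 1271251), (nat_lit 1271251), (nat_lit 1271251), [(nat_lit 780000), (nat_lit 1435001), (nat_lit 1271251)], [(nat_lit 10), (nat_lit 54), (nat_lit 203), (nat_lit 0), (nat_lit 5)]⟩,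
 ⟨⟨[(nat_lit 60), (nat_lit 100), (nat_lit 120)], [(nat_lit 0), (nat_lit 0), (nat_lit 1164)], [((nat_lit 0), (nat_lit 0), (nat_lit 0)), ((nat_lit 0), (nat_lit 0), (nat_lit 0)), ((nat_lit 1000), (nat_lit 933), (nat_lit 572))], ((nat_lit 92), (nat_lit 100), (nat_lit 48))⟩, (nat_lit 5167803), (nat_lit 291), (nat_lit 291), (nat_lit 0), (nat_lit 392535), [(nat_lit 3282000000), (nat_lit 6250000000), (nat_lit 7968000000)], [], [(nat_lit 26302457481), (nat_lit 27421221755), (nat_lit 34150832038), (nat_lit 35109728835), (nat_lit 33375248742), (nat_lit 34115853043), (nat_lit 39137329136), (nat_lit 39559325280)], (nat_lit 1271251), (nat_lit 1271251), (nat_lit 1271251), (nat_lit 1271251), (nat_lit 356250), (nat_lit 2948751), [(nat_lit 780000), (nat_lit 1435001), (nat_lit 1271251)], [(nat_lit 10), (nat_lit 54), (nat_lit 317), (nat_lit 100), (nat_lit 9)]⟩,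
 ⟨⟨[(nat_lit 120), (nat_lit 140), (nat_lit 160)], [(nat_lit 0), (nat_lit 266), (nat_lit 862)], [((nat_lit 0), (nat_lit 0), (nat_lit 0)), ((nat_lit 960), (nat_lit 1000), (nat_lit 200)), ((nat_lit 874), (nat_lit 1000), (nat_lit 406))], ((nat_lit 100), (nat_lit 83), (nat_lit 48))⟩, (nat_lit 3501640), (nat_lit 300), (nat_lit 694), (nat_lit 43160000), (nat_lit 1026478), [(nat_lit 5179200000), (nat_lit 6397300000), (nat_lit 7716800000)], [], [(nat_lit 30642851510), (nat_lit 30244087665), (nat_lit 31471384955), (nat_lit 30969225395), (nat_lit 27509339286), (nat_lit 26937448798), (nat_lit 27850373031), (nat_lit 27347719555)], (nat_lit 1271251), (nat_lit 1271251), (nat_lit 1271251), (nat_lit 1271251), (nat_lit 356250), (nat_lit 2948751), [(nat_lit 1695001), (nat_lit 1271251), (nat_lit 1271251)], [(nat_lit 27), (nat_lit 62), (nat_lit 538), (nat_lit 300), (nat_lit 13)]⟩⟩) (.dle (nat_lit 0))))))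
noncomputable def c6_37 : Tr Lf :=
 (.spl (nat_lit 5) (nat_lit 120) (.spl (nat_lit 6) (nat_lit 24) (.spl (nat_lit 1) (nat_lit 280) (.ord (.spl (nat_lit 0) (nat_lit 290) (.leaf ⟨(nat_lit 0), (nat_lit 0), (nat_lit 0), (nat_lit 1000), (nat_lit 27929), (nat_lit 4610), (nat_lit 5351), (nat_lit 6375), (nat_lit 0), (nat_lit 2247829), (nat_lit 0), [], Pd.none, Pd.none, (nat_lit 0), (nat_lit 1), (nat_lit 0), (nat_lit 0), (nat_lit 0), (nat_lit 0), [], [], [⟨(nat_lit 0), (nat_lit 100), (nat_lit 98), (nat_lit 30), (nat_lit 1008273286)⟩], [],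
 ⟨⟨[(nat_lit 60), (nat_lit 100), (nat_lit 120)], [(nat_lit 0), (nat_lit 0), (nat_lit 1164)], [((nat_lit 0), (nat_lit 0), (nat_lit 0)), ((nat_lit 0), (nat_lit 0), (nat_lit 0)), ((nat_lit 1000), (nat_lit 933), (nat_lit 572))], ((nat_lit 92), (nat_lit 100), (nat_lit 48))⟩, (nat_lit 3855499), (nat_lit 280), (nat_lit 280), (nat_lit 0), (nat_lit 451915), [(nat_lit 3282000106), (nat_lit 6250000514), (nat_lit 7968000000)], [], [(nat_lit 28824355482), (nat_lit 27614235092), (nat_lit 36537655574), (nat_lit 36808759504), (nat_lit 43655351980), (nat_lit 42590621770), (nat_lit 41078831834), (nat_lit 41215469729)], (nat_lit 1271251), (nat_lit 1271251), (nat_lit 1271251), (nat_lit 1271251), (nat_lit 780000), (nat_lit 3072501), [(nat_lit 780000), (nat_lit 1435001), (nat_lit 1271251)], [(nat_lit 10), (nat_lit 54), (nat_lit 428), (nat_lit 200), (nat_lit 14)]⟩,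
 ⟨⟨[(nat_lit 80), (nat_lit 120), (nat_lit 140)], [(nat_lit 0), (nat_lit 0), (nat_lit 1164)], [((nat_lit 0), (nat_lit 0), (nat_lit 0)), ((nat_lit 0), (nat_lit 0), (nat_lit 0)), ((nat_lit 941), (nat_lit 1000), (nat_lit 576))], ((nat_lit 100), (nat_lit 98), (nat_lit 48))⟩, (nat_lit 4138842), (nat_lit 359), (nat_lit 359), (nat_lit 0), (nat_lit 328169), [(nat_lit 4688000000), (nat_lit 7968000000), (nat_lit 9842000000)], [], [(nat_lit 35194447380), (nat_lit 35101277103), (nat_lit 55075427948), (nat_lit 50321888502), (nat_lit 36495206639), (nat_lit 33086720764), (nat_lit 60747801438), (nat_lit 56168105280)], (nat_lit 1271251), (nat_lit 1271251), (nat_lit 780000), (nat_lit 3072501), (nat_lit 0), (nat_lit 780000), [(nat_lit 1100000), (nat_lit 1785001), (nat_lit 1271251)], [(nat_lit 17), (nat_lit 58), (nat_lit 428), (nat_lit 200), (nat_lit 12)]⟩,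
 ⟨⟨[(nat_lit 100), (nat_lit 120), (nat_lit 140)], [(nat_lit 0), (nat_lit 254), (nat_lit 778)], [((nat_lit 0), (nat_lit 0), (nat_lit 0)), ((nat_lit 1000), (nat_lit 1000), (nat_lit 198)), ((nat_lit 960), (nat_lit 1000), (nat_lit 392))], ((nat_lit 100), (nat_lit 93), (nat_lit 48))⟩, (nat_lit 2707334), (nat_lit 300), (nat_lit 369), (nat_lit 62500000), (nat_lit 342025), [(nat_lit 6250000000), (nat_lit 7968000000), (nat_lit 9842000000)], [], [(nat_lit 38922079686), (nat_lit 41031025689), (nat_lit 46533098969), (nat_lit 47316343746), (nat_lit 35725048043), (nat_lit 37596625152), (nat_lit 48990100250), (nat_lit 43174848529)], (nat_lit 1271251), (nat_lit 1271251), (nat_lit 780000), (nat_lit 3072501), (nat_lit 0), (nat_lit 780000), [(nat_lit 1412501), (nat_lit 1271251), (nat_lit 1271251)], [(nat_lit 22), (nat_lit 58), (nat_lit 428), (nat_lit 200), (nat_lit 13)]⟩⟩) (.leaf ⟨(nat_lit 0), (nat_lit 91), (nat_lit 0), (nat_lit 909), (nat_lit 15792), (nat_lit 5918), (nat_lit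 5905), (nat_lit 6108), (nat_lit 0), (nat_lit 3069), (nat_lit 0), [], Pd.none, Pd.none, (nat_lit 0), (nat_lit 1), (nat_lit 0), (nat_lit 0), (nat_lit 5), (nat_lit 0), [], [], [⟨(nat_lit 0), (nat_lit 100), (nat_lit 98), (nat_lit 30), (nat_lit 940305645)⟩], [],
 ⟨⟨[(nat_lit 60), (nat_lit 100), (nat_lit 120)], [(nat_lit 0), (nat_lit 302), (nat_lit 1376)], [((nat_lit 0), (nat_lit 0), (nat_lit 0)), ((nat_lit 1000), (nat_lit 953), (nat_lit 118)), ((nat_lit 1000), (nat_lit 911), (nat_lit 628))], ((nat_lit 89), (nat_lit 100), (nat_lit 48))⟩, (nat_lit 1471213), (nat_lit 291), (nat_lit 291), (nat_lit 0), (nat_lit 484650), [(nat_lit 3282000001), (nat_lit 6250000001), (nat_lit 7968000000)], [], [(nat_lit 27912207746), (nat_lit 26358738664), (nat_lit 34122555133), (nat_lit 34409745152), (nat_lit 43184363246), (nat_lit 41817536048), (nat_lit 38118680470), (nat_lit 38238694245)], (nat_lit 1271251), (nat_lit 1271251), (nat_lit 1271251), (nat_lit 1271251), (nat_lit 780000),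 (nat_lit 3072501), [(nat_lit 780000), (nat_lit 1435001), (nat_lit 1271251)], [(nat_lit 10), (nat_lit 54), (nat_lit 428), (nat_lit 200), (nat_lit 14)]⟩,
 ⟨⟨[(nat_lit 80), (nat_lit 120), (nat_lit 140)], [(nat_lit 0), (nat_lit 0), (nat_lit 1164)], [((nat_lit 0), (nat_lit 0), (nat_lit 0)), ((nat_lit 0), (nat_lit 0), (nat_lit 0)), ((nat_lit 941), (nat_lit 1000), (nat_lit 576))], ((nat_lit 100), (nat_lit 98), (nat_lit 48))⟩, (nat_lit 2856901), (nat_lit 378), (nat_lit 378), (nat_lit 0), (nat_lit 381492), [(nat_lit 4688000000), (nat_lit 7968000000), (nat_lit 9842000000)], [], [(nat_lit 35457253900), (nat_lit 36380091011), (nat_lit 55731445940), (nat_lit 50485762810), (nat_lit 35853945545), (nat_lit 34168297990), (nat_lit 61668071890), (nat_lit 56614230400)], (nat_lit 1271251), (nat_lit 1271251), (nat_lit 780000), (nat_lit 3072501), (nat_lit 0), (nat_lit 780000), [(nat_lit 1100000), (nat_lit 1785001), (nat_lit 1271251)], [(nat_lit 17), (nat_lit 58), (nat_lit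 428), (nat_lit 200), (nat_lit 12)]⟩,
 ⟨⟨[(nat_lit 100), (nat_lit 120), (nat_lit 140)], [(nat_lit 0), (nat_lit 254), (nat_lit 778)], [((nat_lit 0), (nat_lit 0), (nat_lit 0)), ((nat_lit 1000), (nat_lit 1000), (nat_lit 198)), ((nat_lit 960), (nat_lit 1000), (nat_lit 392))], ((nat_lit 100), (nat_lit 93), (nat_lit 48))⟩, (nat_lit 1674850), (nat_lit 300), (nat_lit 388), (nat_lit 56812501), (nat_lit 396175), [(nat_lit 5681250000), (nat_lit 7242912000), (nat_lit 8946378000)], [], [(nat_lit 35695509258), (nat_lit 37517708777), (nat_lit 42206014650), (nat_lit 42841447458), (nat_lit 32571788560), (nat_lit 34180900361), (nat_lit 44856916536), (nat_lit 38867261644)], (nat_lit 1271251), (nat_lit 1271251), (nat_lit 780000), (nat_lit 3072501), (nat_lit 0), (nat_lit 780000), [(nat_lit 1412501), (nat_lit 1271251), (nat_lit 1271251)], [(nat_lit 22), (nat_lit 58), (nat_lit 428), (nat_lit 200), (nat_lit 13)]⟩⟩))) (.trZ (nat_lit 1) (nat_lit 2) (nat_lit 5) (nat_lit 100) (nat_lit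 92) (nat_lit 49) (nat_lit 20) (.leaf ⟨(nat_lit 0), (nat_lit 0), (nat_lit 0), (nat_lit 1000), (nat_lit 0), (nat_lit 9436), (nat_lit 5540), (nat_lit 9313), (nat_lit 2836438003378), (nat_lit 408956), (nat_lit 0), [], Pd.none, Pd.none, (nat_lit 0), (nat_lit 1), (nat_lit 0), (nat_lit 0), (nat_lit 0), (nat_lit 0), [], [], [⟨(nat_lit 0), (nat_lit 100), (nat_lit 92), (nat_lit 49), (nat_lit 1181137261)⟩], [],
 ⟨⟨[(nat_lit 60), (nat_lit 100), (nat_lit 120)], [(nat_lit 0), (nat_lit 0), (nat_lit 1164)], [((nat_lit 0), (nat_lit 0), (nat_lit 0)), ((nat_lit 0), (nat_lit 0), (nat_lit 0)), ((nat_lit 1000), (nat_lit 933), (nat_lit 572))], ((nat_lit 92), (nat_lit 100), (nat_lit 48))⟩, (nat_lit 402062), (nat_lit 300), (nat_lit 388), (nat_lit 62500003), (nat_lit 717026), [(nat_lit 3282000092), (nat_lit 6250000244), (nat_lit 7968000000)], [], [(nat_lit 31190577036), (nat_lit 26985670646), (nat_lit 34788390556), (nat_lit 36008242694), (nat_lit 48599955472), (nat_lit 44241259480),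 (nat_lit 42533492736), (nat_lit 42942103280)], (nat_lit 1271251), (nat_lit 1271251), (nat_lit 1271251), (nat_lit 1271251), (nat_lit 780000), (nat_lit 3072501), [(nat_lit 780000), (nat_lit 1435001), (nat_lit 1271251)], [(nat_lit 10), (nat_lit 54), (nat_lit 428), (nat_lit 200), (nat_lit 14)]⟩,
 ⟨⟨[(nat_lit 60), (nat_lit 100), (nat_lit 120)], [(nat_lit 0), (nat_lit 0), (nat_lit 1164)], [((nat_lit 0), (nat_lit 0), (nat_lit 0)), ((nat_lit 0), (nat_lit 0), (nat_lit 0)), ((nat_lit 1000), (nat_lit 933), (nat_lit 572))], ((nat_lit 92), (nat_lit 100), (nat_lit 48))⟩, (nat_lit 709921), (nat_lit 348), (nat_lit 348), (nat_lit 0), (nat_lit 463163), [(nat_lit 3282000000), (nat_lit 6250000000), (nat_lit 7968000000)], [], [(nat_lit 35156829700), (nat_lit 34671552659), (nat_lit 41498472756), (nat_lit 41939097016), (nat_lit 32405101756), (nat_lit 33212558916), (nat_lit 41756016260), (nat_lit 39738372546)], (nat_lit 1271251), (nat_lit 1271251), (nat_lit 780000), (nat_lit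 3072501), (nat_lit 111251), (nat_lit 780000), [(nat_lit 780000), (nat_lit 1435001), (nat_lit 1271251)], [(nat_lit 10), (nat_lit 54), (nat_lit 373), (nat_lit 150), (nat_lit 12)]⟩,
 ⟨⟨[(nat_lit 100), (nat_lit 120), (nat_lit 140)], [(nat_lit 0), (nat_lit 254), (nat_lit 778)], [((nat_lit 0), (nat_lit 0), (nat_lit 0)), ((nat_lit 1000), (nat_lit 1000), (nat_lit 198)), ((nat_lit 960), (nat_lit 1000), (nat_lit 392))], ((nat_lit 100), (nat_lit 93), (nat_lit 48))⟩, (nat_lit 1842519), (nat_lit 300), (nat_lit 440), (nat_lit 62500002), (nat_lit 506555), [(nat_lit 6250000000), (nat_lit 7968000000), (nat_lit 9842000000)], [], [(nat_lit 37029187054), (nat_lit 39368177425), (nat_lit 46165691739), (nat_lit 43821056413), (nat_lit 32626860563), (nat_lit 34672409956), (nat_lit 52038727702), (nat_lit 37703360237)], (nat_lit 1271251), (nat_lit 1271251), (nat_lit 780000), (nat_lit 3072501), (nat_lit 111251), (nat_lit 780000), [(nat_lit 1412501), (nat_lit 1271251), (nat_lit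 1271251)], [(nat_lit 22), (nat_lit 58), (nat_lit 456), (nat_lit 225), (nat_lit 13)]⟩⟩))) (.leaf ⟨(nat_lit 0), (nat_lit 0), (nat_lit 0), (nat_lit 1000), (nat_lit 71444), (nat_lit 7318), (nat_lit 6956), (nat_lit 10883), (nat_lit 136801), (nat_lit 808556653572), (nat_lit 0), [], Pd.none, Pd.none, (nat_lit 0), (nat_lit 1), (nat_lit 0), (nat_lit 0), (nat_lit 0), (nat_lit 0), [], [], [⟨(nat_lit 0), (nat_lit 100), (nat_lit 98), (nat_lit 64), (nat_lit 1190684025)⟩], [],
 ⟨⟨[(nat_lit 60), (nat_lit 100), (nat_lit 140)], [(nat_lit 0), (nat_lit 0), (nat_lit 2047)], [((nat_lit 0), (nat_lit 0), (nat_lit 0)), ((nat_lit 0), (nat_lit 0), (nat_lit 0)), ((nat_lit 1000), (nat_lit 993), (nat_lit 781))], ((nat_lit 96), (nat_lit 100), (nat_lit 68))⟩, (nat_lit 1193418), (nat_lit 230), (nat_lit 230), (nat_lit 0), (nat_lit 288465), [(nat_lit 3282000051), (nat_lit 6250000572), (nat_lit 9842000000)], [], [(nat_lit 30152106728), (nat_lit 26310171364), (nat_lit 34819060050), (nat_lit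 35348861742), (nat_lit 46429903791), (nat_lit 43049558595), (nat_lit 39472609968), (nat_lit 39893284640)], (nat_lit 1271251), (nat_lit 1271251), (nat_lit 1271251), (nat_lit 1271251), (nat_lit 780000), (nat_lit 3072501), [(nat_lit 780000), (nat_lit 1435001), (nat_lit 1271251)], [(nat_lit 11), (nat_lit 55), (nat_lit 428), (nat_lit 200), (nat_lit 12)]⟩,
 ⟨⟨[(nat_lit 80), (nat_lit 120), (nat_lit 160)], [(nat_lit 0), (nat_lit 0), (nat_lit 2132)], [((nat_lit 0), (nat_lit 0), (nat_lit 0)), ((nat_lit 0), (nat_lit 0), (nat_lit 0)), ((nat_lit 858), (nat_lit 1000), (nat_lit 713))], ((nat_lit 100), (nat_lit 89), (nat_lit 66))⟩, (nat_lit 3620020), (nat_lit 371), (nat_lit 371), (nat_lit 0), (nat_lit 205916), [(nat_lit 4688000000), (nat_lit 7968000000), (nat_lit 11872000000)], [], [(nat_lit 35955827280), (nat_lit 33195593946), (nat_lit 56975985488), (nat_lit 47706983324), (nat_lit 34637401484), (nat_lit 29831789388), (nat_lit 63413927928), (nat_lit 54483905556)], (nat_lit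 1271251), (nat_lit 1271251), (nat_lit 780000), (nat_lit 3072501), (nat_lit 0), (nat_lit 780000), [(nat_lit 1100000), (nat_lit 1785001), (nat_lit 1271251)], [(nat_lit 18), (nat_lit 59), (nat_lit 456), (nat_lit 225), (nat_lit 12)]⟩,
 ⟨⟨[(nat_lit 100), (nat_lit 140), (nat_lit 160)], [(nat_lit 0), (nat_lit 508), (nat_lit 1689)], [((nat_lit 0), (nat_lit 0), (nat_lit 0)), ((nat_lit 1000), (nat_lit 1000), (nat_lit 198)), ((nat_lit 811), (nat_lit 1000), (nat_lit 671))], ((nat_lit 100), (nat_lit 83), (nat_lit 65))⟩, (nat_lit 2149603), (nat_lit 300), (nat_lit 383), (nat_lit 62500012), (nat_lit 215573), [(nat_lit 6250000000), (nat_lit 9842000000), (nat_lit 11872000000)], [], [(nat_lit 43462937545), (nat_lit 43483158835), (nat_lit 47872233405), (nat_lit 50307182335), (nat_lit 33046201562), (nat_lit 35354942449), (nat_lit 53667844482), (nat_lit 39358166841)], (nat_lit 1271251), (nat_lit 1271251), (nat_lit 780000), (nat_lit 3072501), (nat_lit 0), (nat_lit 780000),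 [(nat_lit 1412501), (nat_lit 1271251), (nat_lit 1271251)], [(nat_lit 23), (nat_lit 62), (nat_lit 456), (nat_lit 225), (nat_lit 12)]⟩⟩)) (.spl (nat_lit 1) (nat_lit 280) (.ord (.spl (nat_lit 6) (nat_lit 32) (.leaf ⟨(nat_lit 0), (nat_lit 0), (nat_lit 0), (nat_lit 1000), (nat_lit 10612), (nat_lit 6681), (nat_lit 5612), (nat_lit 6355), (nat_lit 0), (nat_lit 39686), (nat_lit 0), [], Pd.none, Pd.none, (nat_lit 0), (nat_lit 1), (nat_lit 0), (nat_lit 0), (nat_lit 0), (nat_lit 0), [], [], [], [],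
 ⟨⟨[(nat_lit 60), (nat_lit 100), (nat_lit 120)], [(nat_lit 0), (nat_lit 0), (nat_lit 1164)], [((nat_lit 0), (nat_lit 0), (nat_lit 0)), ((nat_lit 0), (nat_lit 0), (nat_lit 0)), ((nat_lit 1000), (nat_lit 933), (nat_lit 572))], ((nat_lit 93), (nat_lit 100), (nat_lit 55))⟩, (nat_lit 0), (nat_lit 293), (nat_lit 293), (nat_lit 0), (nat_lit 490040), [(nat_lit 3282000001), (nat_lit 6250000017), (nat_lit 7968000000)], [], [(nat_lit 29839781069), (nat_lit 26332277584), (nat_lit 35310601734), (nat_lit 35899334185), (nat_lit 45777248274), (nat_lit 42691147392), (nat_lit 39358499156), (nat_lit 39656088506)], (nat_lit 1271251), (nat_lit 1271251), (nat_lit 1271251), (nat_lit 1271251), (nat_lit 780000), (nat_lit 3072501), [(nat_lit 780000), (nat_lit 1435001), (nat_lit 1271251)], [(nat_lit 10), (nat_lit 54), (nat_lit 428), (nat_lit 200), (nat_lit 14)]⟩,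
 ⟨⟨[(nat_lit 80), (nat_lit 120), (nat_lit 140)], [(nat_lit 0), (nat_lit 0), (nat_lit 1164)], [((nat_lit 0), (nat_lit 0), (nat_lit 0)), ((nat_lit 0), (nat_lit 0), (nat_lit 0)), ((nat_lit 941), (nat_lit 1000), (nat_lit 576))], ((nat_lit 100), (nat_lit 95), (nat_lit 55))⟩, (nat_lit 2692343), (nat_lit 374), (nat_lit 374), (nat_lit 0), (nat_lit 583386), [(nat_lit 4688000000), (nat_lit 7968000000), (nat_lit 9842000000)], [], [(nat_lit 37318056668), (nat_lit 35186140632), (nat_lit 40837305928), (nat_lit 41569970372), (nat_lit 60341523984), (nat_lit 55290931628), (nat_lit 43781062560), (nat_lit 44070849488)], (nat_lit 1271251), (nat_lit 1271251), (nat_lit 1271251), (nat_lit 1271251), (nat_lit 780000), (nat_lit 3072501), [(nat_lit 1100000), (nat_lit 1785001), (nat_lit 1271251)], [(nat_lit 17), (nat_lit 58), (nat_lit 538), (nat_lit 300), (nat_lit 15)]⟩,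
 ⟨⟨[(nat_lit 100), (nat_lit 140), (nat_lit 160)], [(nat_lit 0), (nat_lit 508), (nat_lit 1689)], [((nat_lit 0), (nat_lit 0), (nat_lit 0)), ((nat_lit 1000), (nat_lit 1000), (nat_lit 198)), ((nat_lit 811), (nat_lit 1000), (nat_lit 671))], ((nat_lit 100), (nat_lit 89), (nat_lit 55))⟩, (nat_lit 2149606), (nat_lit 300), (nat_lit 488), (nat_lit 62500002), (nat_lit 607408), [(nat_lit 6250000000), (nat_lit 9842000000), (nat_lit 11872000000)], [], [(nat_lit 47919148607), (nat_lit 48815083239), (nat_lit 50893264437), (nat_lit 51053674038), (nat_lit 63421951590), (nat_lit 54767172415), (nat_lit 50934301823), (nat_lit 50655837658)], (nat_lit 1271251), (nat_lit 1271251), (nat_lit 1271251), (nat_lit 1271251), (nat_lit 780000), (nat_lit 3072501), [(nat_lit 1412501), (nat_lit 1271251), (nat_lit 1271251)], [(nat_lit 23), (nat_lit 62), (nat_lit 538), (nat_lit 300), (nat_lit 14)]⟩⟩) (.dle (nat_lit 0)))) (.leaf ⟨(nat_lit 0), (nat_lit 0), (nat_lit 0), (nat_lit 1000), (nat_lit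 0), (nat_lit 10355), (nat_lit 6995), (nat_lit 7589), (nat_lit 325971151), (nat_lit 4285266), (nat_lit 0), [], Pd.none, Pd.none, (nat_lit 0), (nat_lit 1), (nat_lit 0), (nat_lit 0), (nat_lit 0), (nat_lit 0), [], [], [], [],
 ⟨⟨[(nat_lit 60), (nat_lit 100), (nat_lit 140)], [(nat_lit 0), (nat_lit 0), (nat_lit 2047)], [((nat_lit 0), (nat_lit 0), (nat_lit 0)), ((nat_lit 0), (nat_lit 0), (nat_lit 0)), ((nat_lit 1000), (nat_lit 993), (nat_lit 781))], ((nat_lit 96), (nat_lit 100), (nat_lit 68))⟩, (nat_lit 980185), (nat_lit 300), (nat_lit 458), (nat_lit 62500002), (nat_lit 724400), [(nat_lit 3282000425), (nat_lit 6250000115), (nat_lit 9842000000)], [], [(nat_lit 31641169835), (nat_lit 31878604759), (nat_lit 36041374455), (nat_lit 37323117108), (nat_lit 49541541020), (nat_lit 44758338710), (nat_lit 43861609480), (nat_lit 44264985400)], (nat_lit 1271251), (nat_lit 1271251), (nat_lit 1271251), (nat_lit 1271251), (nat_lit 780000), (nat_lit 3072501), [(nat_lit 780000),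 (nat_lit 1435001), (nat_lit 1271251)], [(nat_lit 11), (nat_lit 55), (nat_lit 428), (nat_lit 200), (nat_lit 12)]⟩,
 ⟨⟨[(nat_lit 60), (nat_lit 100), (nat_lit 140)], [(nat_lit 0), (nat_lit 0), (nat_lit 2047)], [((nat_lit 0), (nat_lit 0), (nat_lit 0)), ((nat_lit 0), (nat_lit 0), (nat_lit 0)), ((nat_lit 1000), (nat_lit 993), (nat_lit 781))], ((nat_lit 96), (nat_lit 100), (nat_lit 68))⟩, (nat_lit 3299911), (nat_lit 458), (nat_lit 458), (nat_lit 0), (nat_lit 724400), [(nat_lit 3282000000), (nat_lit 6250000000), (nat_lit 9842000000)], [], [(nat_lit 29993737465), (nat_lit 26321376455), (nat_lit 34139680275), (nat_lit 34641094588), (nat_lit 46098965120), (nat_lit 42867820730), (nat_lit 39005818120), (nat_lit 39428332600)], (nat_lit 1271251), (nat_lit 1271251), (nat_lit 1271251), (nat_lit 1271251), (nat_lit 780000), (nat_lit 3072501), [(nat_lit 780000), (nat_lit 1435001), (nat_lit 1271251)], [(nat_lit 11), (nat_lit 55), (nat_lit 428), (nat_lit 200), (nat_lit 12)]⟩,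
 ⟨⟨[(nat_lit 100), (nat_lit 140), (nat_lit 160)], [(nat_lit 0), (nat_lit 508), (nat_lit 1689)], [((nat_lit 0), (nat_lit 0), (nat_lit 0)), ((nat_lit 1000), (nat_lit 1000), (nat_lit 198)), ((nat_lit 811), (nat_lit 1000), (nat_lit 671))], ((nat_lit 100), (nat_lit 83), (nat_lit 65))⟩, (nat_lit 2318188), (nat_lit 300), (nat_lit 591), (nat_lit 62500000), (nat_lit 829544), [(nat_lit 6250000000), (nat_lit 9842000000), (nat_lit 11872000000)], [], [(nat_lit 47885957256), (nat_lit 48576422103), (nat_lit 48927664276), (nat_lit 48723254753), (nat_lit 67127231562), (nat_lit 53376976694), (nat_lit 47314685976), (nat_lit 46561850285)], (nat_lit 1271251), (nat_lit 1271251), (nat_lit 1271251), (nat_lit 1271251), (nat_lit 780000), (nat_lit 3072501), [(nat_lit 1412501), (nat_lit 1271251), (nat_lit 1271251)], [(nat_lit 23), (nat_lit 62), (nat_lit 538), (nat_lit 300), (nat_lit 14)]⟩⟩)))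
def l007 : List St := [⟨⟨(nat_lit 280), (nat_lit 300), (nat_lit 240), (nat_lit 300), (nat_lit 120), (nat_lit 180), (nat_lit 120), (nat_lit 200), (nat_lit 280), (nat_lit 380), (nat_lit 0), (nat_lit 390), (nat_lit 20), (nat_lit 36)⟩, (nat_lit 3), (nat_lit 1), (nat_lit 3), false, false, false⟩,
  ⟨⟨(nat_lit 280), (nat_lit 300), (nat_lit 240), (nat_lit 300), (nat_lit 120), (nat_lit 180), (nat_lit 200), (nat_lit 280), (nat_lit 280), (nat_lit 380), (nat_lit 0), (nat_lit 400), (nat_lit 0), (nat_lit 36)⟩, (nat_lit 3), (nat_lit 1), (nat_lit 3), false, false, false⟩,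
  ⟨⟨(nat_lit 280), (nat_lit 300), (nat_lit 240), (nat_lit 300), (nat_lit 180), (nat_lit 220), (nat_lit 120), (nat_lit 280), (nat_lit 280), (nat_lit 400), (nat_lit 0), (nat_lit 400), (nat_lit 0), (nat_lit 36)⟩, (nat_lit 3), (nat_lit 3), (nat_lit 3), false, false, false⟩,
  ⟨⟨(nat_lit 280), (nat_lit 300), (nat_lit 240), (nat_lit 300), (nat_lit 120), (nat_lit 220), (nat_lit 280), (nat_lit 400), (nat_lit 280), (nat_lit 400), (nat_lit 0), (nat_lit 400), (nat_lit 0), (nat_lit 36)⟩, (nat_lit 3), (nat_lit 3), (nat_lit 3), false, false, false⟩,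
  ⟨⟨(nat_lit 280), (nat_lit 300), (nat_lit 240), (nat_lit 300), (nat_lit 220), (nat_lit 300), (nat_lit 120), (nat_lit 400), (nat_lit 120), (nat_lit 400), (nat_lit 0), (nat_lit 400), (nat_lit 0), (nat_lit 48)⟩, (nat_lit 3), (nat_lit 3), (nat_lit 3), false, false, false⟩]
theorem t007 (h : EC env Ei) : ∀ τ ∈ l007, Dead τ :=
  List.forall_mem_cons.mpr ⟨chkT_sound0 h (T := c6_33) (by decide +kernel),
  List.forall_mem_cons.mpr ⟨chkT_sound0 h (T := c6_34) (by decide +kernel),
  List.forall_mem_cons.mpr ⟨chkT_sound0 h (T := c6_35) (by decide +kernel),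
  List.forall_mem_cons.mpr ⟨chkT_sound0 h (T := c6_36) (by decide +kernel),
  List.forall_mem_cons.mpr ⟨chkT_sound0 h (T := c6_37) (by decide +kernel),
  List.forall_mem_nil _⟩⟩⟩⟩⟩
end TC
end Pool.Agent.Lib.MP_6947cd_al
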