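import Pool.Agent.Lib.MP_6947cd_al.C.LeafF
import Pool.Agent.Lib.MP_6947cd_al.TC.E
import Pool.Agent.Lib.MP_6947cd_al.TC.F

/-!
Problem MP_6947cd_al (Chollet).  CASE C, tables and certificates.  Trees of leaves (part 8 of root 7).
-/

set_option autoImplicit false
set_option linter.all false
set_option maxRecDepth 100000
set_option maxHeartbeats 4000000
namespace Pool.Agent.Lib.MP_6947cd_al
namespace TC
open C1
noncomputable def c7_0 : Tr Lf :=
 (.spl (nat_lit 3) (nat_lit 120) (.spl (nat_lit 2) (nat_lit 180) (.leaf ⟨(nat_lit 1000), (nat_lit 0), (nat_lit 0), (nat_lit 0), (nat_lit 2041), (nat_lit 3356), (nat_lit 0), (nat_lit 0), (nat_lit 0), (nat_lit 112591), (nat_lit 644800), [((nat_lit 360), [((nat_lit 39), (nat_lit 2), (nat_lit 888)), ((nat_lit 21), (nat_lit 2), (nat_lit 112))])], ⟨(nat_lit 3), false, false, false, (nat_lit 106), (nat_lit 3162), (nat_lit 3873), [(nat_lit 1106311), (nat_lit 1121813), (nat_lit 1236898), (nat_lit 1254570), (nat_lit 1283782),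 (nat_lit 1289472), (nat_lit 1414421), (nat_lit 1422280)]⟩, ⟨(nat_lit 3), false, false, false, (nat_lit 93), (nat_lit 3162), (nat_lit 3873), [(nat_lit 1106311), (nat_lit 1121813), (nat_lit 1171604), (nat_lit 1188192), (nat_lit 1283782), (nat_lit 1289472), (nat_lit 1349127), (nat_lit 1355902)]⟩, (nat_lit 2565577), (nat_lit 58074241), (nat_lit 4911197), (nat_lit 4014562), (nat_lit 0), (nat_lit 0), [⟨(nat_lit 0), (nat_lit 100), (nat_lit 61), (nat_lit 92), (nat_lit 254665571)⟩], [⟨(nat_lit 0), (nat_lit 100), (nat_lit 68), (nat_lit 58), (nat_lit 58792536)⟩], [], [],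
 ⟨⟨[(nat_lit 40), (nat_lit 60), (nat_lit 80)], [(nat_lit 0), (nat_lit 398), (nat_lit 992)], [((nat_lit 0), (nat_lit 0), (nat_lit 0)), ((nat_lit 1000), (nat_lit 814), (nat_lit 310)), ((nat_lit 1000), (nat_lit 752), (nat_lit 464))], ((nat_lit 73), (nat_lit 100), (nat_lit 55))⟩, (nat_lit 0), (nat_lit 243), (nat_lit 243), (nat_lit 0), (nat_lit 212210), [(nat_lit 1306380874), (nat_lit 1086252865), (nat_lit 769727935)], [(nat_lit 0), (nat_lit 0), (nat_lit 0)], [(nat_lit 21308300139), (nat_lit 23536639192), (nat_lit 18728614697), (nat_lit 20771280437), (nat_lit 18728614697), (nat_lit 20771280437), (nat_lit 18659107568), (nat_lit 19938542623)], (nat_lit 1271251), (nat_lit 1271251), (nat_lit 54688), (nat_lit 780000), (nat_lit 54688), (nat_lit 780000), [(nat_lit 490000), (nat_lit 780000), (nat_lit 1100000)], [(nat_lit 2), (nat_lit 44), (nat_lit 272), (nat_lit 60), (nat_lit 13)]⟩,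
 Rw.none,
 Rw.none⟩) (.ord (.trZ (nat_lit 0) (nat_lit 1) (nat_lit 3) (nat_lit 100) (nat_lit 72) (nat_lit 63) (nat_lit 40) (.trZ (nat_lit 0) (nat_lit 2) (nat_lit 4) (nat_lit 100) (nat_lit 72) (nat_lit 63) (nat_lit 40) (.leaf ⟨(nat_lit 1000), (nat_lit 0), (nat_lit 0), (nat_lit 0), (nat_lit 0), (nat_lit 3982), (nat_lit 0), (nat_lit 0), (nat_lit 0), (nat_lit 582334158418), (nat_lit 445800), [((nat_lit 360), [((nat_lit 21), (nat_lit 1), (nat_lit 771)), ((nat_lit 39), (nat_lit 2), (nat_lit 229))])], ⟨(nat_lit 4), false, false, false, (nat_lit 129), (nat_lit 3162), (nat_lit 3873), [(nat_lit 1220020), (nat_lit 1233931), (nat_lit 1285313), (nat_lit 1300309), (nat_lit 1349127), (nat_lit 1355902), (nat_lit 1414421), (nat_lit 1422280)]⟩, ⟨(nat_lit 4), false, false, false, (nat_lit 129), (nat_lit 3162), (nat_lit 3873), [(nat_lit 1220020), (nat_lit 1233931), (nat_lit 1285313), (nat_lit 1300309), (nat_lit 1349127), (nat_lit 1355902), (nat_lit 1414421), (nat_lit 1422280)]⟩,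 (nat_lit 3423311), (nat_lit 53507410), (nat_lit 6746295), (nat_lit 6746295), (nat_lit 0), (nat_lit 0), [⟨(nat_lit 0), (nat_lit 100), (nat_lit 66), (nat_lit 78), (nat_lit 234986757)⟩], [⟨(nat_lit 0), (nat_lit 100), (nat_lit 66), (nat_lit 78), (nat_lit 230732978)⟩], [], [],
 ⟨⟨[(nat_lit 40), (nat_lit 60), (nat_lit 80)], [(nat_lit 0), (nat_lit 398), (nat_lit 992)], [((nat_lit 0), (nat_lit 0), (nat_lit 0)), ((nat_lit 1000), (nat_lit 814), (nat_lit 310)), ((nat_lit 1000), (nat_lit 752), (nat_lit 464))], ((nat_lit 73), (nat_lit 100), (nat_lit 55))⟩, (nat_lit 0), (nat_lit 193), (nat_lit 193), (nat_lit 0), (nat_lit 171851), [(nat_lit 1344574402), (nat_lit 1371608083), (nat_lit 1346419917)], [(nat_lit 0), (nat_lit 0), (nat_lit 0)], [(nat_lit 20245657613), (nat_lit 22627427133), (nat_lit 18627191492), (nat_lit 20836187116), (nat_lit 18627191492), (nat_lit 20836187116), (nat_lit 17453746292), (nat_lit 19494602577)], (nat_lit 1271251), (nat_lit 1271251), (nat_lit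 230000), (nat_lit 780000), (nat_lit 230000), (nat_lit 780000), [(nat_lit 490000), (nat_lit 780000), (nat_lit 1100000)], [(nat_lit 2), (nat_lit 44), (nat_lit 272), (nat_lit 60), (nat_lit 12)]⟩,
 Rw.none,
 Rw.none⟩))))) (.spl (nat_lit 2) (nat_lit 180) (.leaf ⟨(nat_lit 1000), (nat_lit 0), (nat_lit 0), (nat_lit 0), (nat_lit 0), (nat_lit 3103), (nat_lit 0), (nat_lit 0), (nat_lit 0), (nat_lit 3981), (nat_lit 680400), [((nat_lit 360), [((nat_lit 39), (nat_lit 2), (nat_lit 799)), ((nat_lit 21), (nat_lit 2), (nat_lit 201))])], ⟨(nat_lit 3), false, false, false, (nat_lit 166), (nat_lit 3162), (nat_lit 3873), [(nat_lit 1283782), (nat_lit 1289472), (nat_lit 1414421), (nat_lit 1422280), (nat_lit 1412825), (nat_lit 1411379), (nat_lit 1543529), (nat_lit 1544252)]⟩, ⟨(nat_lit 3), false, false, false, (nat_lit 93), (nat_lit 3162), (nat_lit 3873), [(nat_lit 1106311), (nat_lit 1121813), (nat_lit 1171604), (nat_lit 1188192), (nat_lit 1283782), (nat_lit 1289472), (nat_lit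 1349127), (nat_lit 1355902)]⟩, (nat_lit 3399375), (nat_lit 52916768), (nat_lit 9982025), (nat_lit 4101207), (nat_lit 0), (nat_lit 0), [], [⟨(nat_lit 0), (nat_lit 100), (nat_lit 68), (nat_lit 58), (nat_lit 57801552)⟩], [], [],
 ⟨⟨[(nat_lit 40), (nat_lit 60), (nat_lit 80)], [(nat_lit 0), (nat_lit 398), (nat_lit 992)], [((nat_lit 0), (nat_lit 0), (nat_lit 0)), ((nat_lit 1000), (nat_lit 814), (nat_lit 310)), ((nat_lit 1000), (nat_lit 752), (nat_lit 464))], ((nat_lit 73), (nat_lit 100), (nat_lit 55))⟩, (nat_lit 350825), (nat_lit 234), (nat_lit 234), (nat_lit 0), (nat_lit 385205), [(nat_lit 1304458402), (nat_lit 1081517352), (nat_lit 621241048)], [(nat_lit 0), (nat_lit 0), (nat_lit 0)], [(nat_lit 18513139474), (nat_lit 20264037069), (nat_lit 20217211249), (nat_lit 21816114518), (nat_lit 18601464238), (nat_lit 19753603076), (nat_lit 20200278963), (nat_lit 21384902134)], (nat_lit 1271251), (nat_lit 1271251), (nat_lit 780000), (nat_lit 1435001), (nat_lit 54688),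 (nat_lit 780000), [(nat_lit 490000), (nat_lit 780000), (nat_lit 1100000)], [(nat_lit 2), (nat_lit 44), (nat_lit 317), (nat_lit 100), (nat_lit 14)]⟩,
 Rw.none,
 Rw.none⟩) (.ord (.trZ (nat_lit 0) (nat_lit 2) (nat_lit 4) (nat_lit 100) (nat_lit 72) (nat_lit 63) (nat_lit 40) (.leaf ⟨(nat_lit 953), (nat_lit 12), (nat_lit 0), (nat_lit 35), (nat_lit 0), (nat_lit 3732), (nat_lit 592), (nat_lit 503), (nat_lit 0), (nat_lit 104715), (nat_lit 611400), [((nat_lit 360), [((nat_lit 39), (nat_lit 2), (nat_lit 854)), ((nat_lit 21), (nat_lit 2), (nat_lit 99))])], ⟨(nat_lit 4), false, false, false, (nat_lit 179), (nat_lit 3162), (nat_lit 3873), [(nat_lit 1349127), (nat_lit 1355902), (nat_lit 1414421), (nat_lit 1422280), (nat_lit 1478205), (nat_lit 1477844), (nat_lit 1543529), (nat_lit 1544252)]⟩, ⟨(nat_lit 4), false, false, false, (nat_lit 129), (nat_lit 3162), (nat_lit 3873), [(nat_lit 1220020), (nat_lit 1233931), (nat_lit 1285313), (nat_lit 1300309), (nat_lit 1349127),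 (nat_lit 1355902), (nat_lit 1414421), (nat_lit 1422280)]⟩, (nat_lit 4025960), (nat_lit 49258783), (nat_lit 11093389), (nat_lit 6647828), (nat_lit 4), (nat_lit 0), [], [⟨(nat_lit 0), (nat_lit 100), (nat_lit 66), (nat_lit 78), (nat_lit 255129682)⟩], [], [],
 ⟨⟨[(nat_lit 40), (nat_lit 60), (nat_lit 80)], [(nat_lit 0), (nat_lit 398), (nat_lit 992)], [((nat_lit 0), (nat_lit 0), (nat_lit 0)), ((nat_lit 1000), (nat_lit 814), (nat_lit 310)), ((nat_lit 1000), (nat_lit 752), (nat_lit 464))], ((nat_lit 73), (nat_lit 100), (nat_lit 55))⟩, (nat_lit 142883), (nat_lit 188), (nat_lit 188), (nat_lit 0), (nat_lit 316578), [(nat_lit 1333320002), (nat_lit 1221403877), (nat_lit 933421123)], [(nat_lit 0), (nat_lit 0), (nat_lit 0)], [(nat_lit 18311021242), (nat_lit 20438140116), (nat_lit 20076761057), (nat_lit 21948943386), (nat_lit 17629679723), (nat_lit 19277909202), (nat_lit 19217394475), (nat_lit 20849815404)], (nat_lit 1271251), (nat_lit 1271251), (nat_lit 780000), (nat_lit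 1435001), (nat_lit 230000), (nat_lit 780000), [(nat_lit 490000), (nat_lit 780000), (nat_lit 1100000)], [(nat_lit 2), (nat_lit 44), (nat_lit 317), (nat_lit 100), (nat_lit 14)]⟩,
 ⟨⟨[(nat_lit 120), (nat_lit 160), (nat_lit 180)], [(nat_lit 0), (nat_lit 533), (nat_lit 2066)], [((nat_lit 0), (nat_lit 0), (nat_lit 0)), ((nat_lit 960), (nat_lit 1000), (nat_lit 200)), ((nat_lit 615), (nat_lit 1000), (nat_lit 729))], ((nat_lit 100), (nat_lit 79), (nat_lit 55))⟩, (nat_lit 813702), (nat_lit 1212), (nat_lit 1212), (nat_lit 0), (nat_lit 1763022), [(nat_lit 374496000), (nat_lit 557984000), (nat_lit 660726000)], [], [(nat_lit 1663742416), (nat_lit 1175472438), (nat_lit 2023431128), (nat_lit 1178151364), (nat_lit 3039093928), (nat_lit 2239926784), (nat_lit 3654419068), (nat_lit 2875348252)], (nat_lit 1271251), (nat_lit 1271251), (nat_lit 780000), (nat_lit 1435001), (nat_lit 0), (nat_lit 2825001), [(nat_lit 1695001), (nat_lit 1271251), (nat_lit 1271251)], [(nat_lit 28),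 (nat_lit 65), (nat_lit 456), (nat_lit 225), (nat_lit 11)]⟩,
 ⟨⟨[(nat_lit 120), (nat_lit 160), (nat_lit 180)], [(nat_lit 0), (nat_lit 533), (nat_lit 2066)], [((nat_lit 0), (nat_lit 0), (nat_lit 0)), ((nat_lit 960), (nat_lit 1000), (nat_lit 200)), ((nat_lit 615), (nat_lit 1000), (nat_lit 729))], ((nat_lit 100), (nat_lit 79), (nat_lit 55))⟩, (nat_lit 81951), (nat_lit 300), (nat_lit 906), (nat_lit 2324001), (nat_lit 934036), [(nat_lit 278880000), (nat_lit 415520000), (nat_lit 492030000)], [], [(nat_lit 2342488139), (nat_lit 2145793741), (nat_lit 1863921597), (nat_lit 1771560022), (nat_lit 2089680454), (nat_lit 1693084960), (nat_lit 2349899462), (nat_lit 1670877378)], (nat_lit 1271251), (nat_lit 1271251), (nat_lit 230000), (nat_lit 780000), (nat_lit 0), (nat_lit 2825001), [(nat_lit 1695001), (nat_lit 1271251), (nat_lit 1271251)], [(nat_lit 28), (nat_lit 65), (nat_lit 428), (nat_lit 200), (nat_lit 10)]⟩⟩)))))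
noncomputable def c7_1 : Tr Lf :=
 (.trX (nat_lit 3) (nat_lit 0) (nat_lit 1) (nat_lit 72) (nat_lit 77) (nat_lit 100) (nat_lit 330) (.spl (nat_lit 2) (nat_lit 160) (.spl (nat_lit 6) (nat_lit 16) (.leaf ⟨(nat_lit 1000), (nat_lit 0), (nat_lit 0), (nat_lit 0), (nat_lit 0), (nat_lit 2950), (nat_lit 0), (nat_lit 0), (nat_lit 0), (nat_lit 340306), (nat_lit 679200), [((nat_lit 360), [((nat_lit 39), (nat_lit 2), (nat_lit 802)), ((nat_lit 21), (nat_lit 2), (nat_lit 198))])], ⟨(nat_lit 5), false, false, true, (nat_lit 219), (nat_lit 3162), (nat_lit 3873), [(nat_lit 1412825), (nat_lit 1411379), (nat_lit 1478205), (nat_lit 1477844), (nat_lit 1622521), (nat_lit 1609477), (nat_lit 1687900), (nat_lit 1675942)]⟩, ⟨(nat_lit 3), false, false, false, (nat_lit 89), (nat_lit 3162), (nat_lit 3873), [(nat_lit 1106311), (nat_lit 1121813), (nat_lit 1149840), (nat_lit 1166065), (nat_lit 1283782), (nat_lit 1289472), (nat_lit 1327361), (nat_lit 1333774)]⟩, (nat_lit 3879607), (nat_lit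 48147451), (nat_lit 15124089), (nat_lit 3728460), (nat_lit 0), (nat_lit 0), [⟨(nat_lit 1), (nat_lit 92), (nat_lit 68), (nat_lit 100), (nat_lit 41240399)⟩, ⟨(nat_lit 1), (nat_lit 77), (nat_lit 72), (nat_lit 100), (nat_lit 167138442)⟩], [⟨(nat_lit 0), (nat_lit 100), (nat_lit 61), (nat_lit 68), (nat_lit 62347393)⟩], [], [],
 ⟨⟨[(nat_lit 40), (nat_lit 60), (nat_lit 80)], [(nat_lit 0), (nat_lit 398), (nat_lit 992)], [((nat_lit 0), (nat_lit 0), (nat_lit 0)), ((nat_lit 1000), (nat_lit 814), (nat_lit 310)), ((nat_lit 1000), (nat_lit 752), (nat_lit 464))], ((nat_lit 77), (nat_lit 100), (nat_lit 42))⟩, (nat_lit 0), (nat_lit 214), (nat_lit 214), (nat_lit 0), (nat_lit 301186), [(nat_lit 1304523212), (nat_lit 1041911480), (nat_lit 666011720)], [(nat_lit 0), (nat_lit 0), (nat_lit 0)], [(nat_lit 21382364972), (nat_lit 22578948853), (nat_lit 26227992516), (nat_lit 27253993290), (nat_lit 21621582641), (nat_lit 22699574603), (nat_lit 26041613029), (nat_lit 26931064773)],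 (nat_lit 1271251), (nat_lit 1271251), (nat_lit 1271251), (nat_lit 1271251), (nat_lit 54688), (nat_lit 780000), [(nat_lit 490000), (nat_lit 780000), (nat_lit 1100000)], [(nat_lit 2), (nat_lit 44), (nat_lit 238), (nat_lit 30), (nat_lit 10)]⟩,
 Rw.none,
 Rw.none⟩) (.leaf ⟨(nat_lit 1000), (nat_lit 0), (nat_lit 0), (nat_lit 0), (nat_lit 2910), (nat_lit 2861), (nat_lit 0), (nat_lit 0), (nat_lit 0), (nat_lit 370860), (nat_lit 661600), [((nat_lit 360), [((nat_lit 39), (nat_lit 2), (nat_lit 846)), ((nat_lit 21), (nat_lit 2), (nat_lit 154))])], ⟨(nat_lit 5), false, false, true, (nat_lit 219), (nat_lit 3162), (nat_lit 3873), [(nat_lit 1412825), (nat_lit 1411379), (nat_lit 1478205), (nat_lit 1477844), (nat_lit 1622521), (nat_lit 1609477), (nat_lit 1687900), (nat_lit 1675942)]⟩, ⟨(nat_lit 3), false, false, false, (nat_lit 89), (nat_lit 3162), (nat_lit 3873), [(nat_lit 1106311), (nat_lit 1121813), (nat_lit 1149840), (nat_lit 1166065), (nat_lit 1283782), (nat_lit 1289472),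 (nat_lit 1327361), (nat_lit 1333774)]⟩, (nat_lit 3879607), (nat_lit 48147451), (nat_lit 15124089), (nat_lit 3728460), (nat_lit 0), (nat_lit 0), [⟨(nat_lit 1), (nat_lit 77), (nat_lit 72), (nat_lit 100), (nat_lit 185511560)⟩], [⟨(nat_lit 0), (nat_lit 100), (nat_lit 69), (nat_lit 54), (nat_lit 71241641)⟩], [], [],
 ⟨⟨[(nat_lit 40), (nat_lit 60), (nat_lit 80)], [(nat_lit 0), (nat_lit 398), (nat_lit 992)], [((nat_lit 0), (nat_lit 0), (nat_lit 0)), ((nat_lit 1000), (nat_lit 814), (nat_lit 310)), ((nat_lit 1000), (nat_lit 752), (nat_lit 464))], ((nat_lit 73), (nat_lit 100), (nat_lit 55))⟩, (nat_lit 0), (nat_lit 188), (nat_lit 188), (nat_lit 0), (nat_lit 195179), [(nat_lit 1305473626), (nat_lit 1108986778), (nat_lit 674686822)], [(nat_lit 0), (nat_lit 0), (nat_lit 0)], [(nat_lit 21310052296), (nat_lit 22451326064), (nat_lit 25897635937), (nat_lit 27043813295), (nat_lit 21439590552), (nat_lit 22470909939), (nat_lit 25636138621), (nat_lit 26476526647)], (nat_lit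 1271251), (nat_lit 1271251), (nat_lit 1271251), (nat_lit 1271251), (nat_lit 54688), (nat_lit 780000), [(nat_lit 490000), (nat_lit 780000), (nat_lit 1100000)], [(nat_lit 2), (nat_lit 44), (nat_lit 238), (nat_lit 30), (nat_lit 10)]⟩,
 Rw.none,
 Rw.none⟩)) (.ord (.trZ (nat_lit 0) (nat_lit 2) (nat_lit 4) (nat_lit 100) (nat_lit 73) (nat_lit 55) (nat_lit 30) (.spl (nat_lit 0) (nat_lit 350) (.leaf ⟨(nat_lit 959), (nat_lit 37), (nat_lit 0), (nat_lit 4), (nat_lit 1366), (nat_lit 3024), (nat_lit 525), (nat_lit 48), (nat_lit 0), (nat_lit 1378915631651), (nat_lit 548400), [((nat_lit 350), [((nat_lit 21), (nat_lit 1), (nat_lit 135)), ((nat_lit 39), (nat_lit 2), (nat_lit 824))])], ⟨(nat_lit 5), false, false, true, (nat_lit 228), (nat_lit 3535), (nat_lit 3873), [(nat_lit 1456412), (nat_lit 1456093), (nat_lit 1478205), (nat_lit 1478046), (nat_lit 1666107), (nat_lit 1660068), (nat_lit 1687900), (nat_lit 1682021)]⟩, ⟨(nat_lit 4), false, false, false, (nat_lit 107), (nat_lit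 3535), (nat_lit 3873), [(nat_lit 1182184), (nat_lit 1189346), (nat_lit 1203970), (nat_lit 1211292), (nat_lit 1327369), (nat_lit 1330570), (nat_lit 1349157), (nat_lit 1352518)]⟩, (nat_lit 4190284), (nat_lit 46207796), (nat_lit 15907668), (nat_lit 4884536), (nat_lit 4), (nat_lit 0), [⟨(nat_lit 1), (nat_lit 77), (nat_lit 72), (nat_lit 100), (nat_lit 105394558)⟩], [⟨(nat_lit 0), (nat_lit 100), (nat_lit 70), (nat_lit 62), (nat_lit 80824423)⟩], [], [],
 ⟨⟨[(nat_lit 40), (nat_lit 60), (nat_lit 80)], [(nat_lit 0), (nat_lit 398), (nat_lit 992)], [((nat_lit 0), (nat_lit 0), (nat_lit 0)), ((nat_lit 1000), (nat_lit 814), (nat_lit 310)), ((nat_lit 1000), (nat_lit 752), (nat_lit 464))], ((nat_lit 73), (nat_lit 100), (nat_lit 55))⟩, (nat_lit 0), (nat_lit 170), (nat_lit 170), (nat_lit 0), (nat_lit 185735), [(nat_lit 1338319223), (nat_lit 1266002063), (nat_lit 1141148137)], [(nat_lit 0), (nat_lit 0), (nat_lit 0)], [(nat_lit 20814648766), (nat_lit 21427404330), (nat_lit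 25643544044), (nat_lit 26275371322), (nat_lit 20874552753), (nat_lit 21436473898), (nat_lit 25478160245), (nat_lit 25934593671)], (nat_lit 1271251), (nat_lit 1271251), (nat_lit 1271251), (nat_lit 1271251), (nat_lit 169688), (nat_lit 780000), [(nat_lit 490000), (nat_lit 780000), (nat_lit 1100000)], [(nat_lit 2), (nat_lit 44), (nat_lit 238), (nat_lit 30), (nat_lit 10)]⟩,
 ⟨⟨[(nat_lit 120), (nat_lit 160), (nat_lit 180)], [(nat_lit 0), (nat_lit 0), (nat_lit 1613)], [((nat_lit 0), (nat_lit 0), (nat_lit 0)), ((nat_lit 0), (nat_lit 0), (nat_lit 0)), ((nat_lit 620), (nat_lit 1000), (nat_lit 670))], ((nat_lit 100), (nat_lit 73), (nat_lit 55))⟩, (nat_lit 107925), (nat_lit 977), (nat_lit 977), (nat_lit 0), (nat_lit 1307240), [(nat_lit 326688000), (nat_lit 486752000), (nat_lit 576378000)], [], [(nat_lit 1917818692), (nat_lit 1901040016), (nat_lit 1947223367), (nat_lit 1932057914), (nat_lit 2637076590), (nat_lit 2793746625), (nat_lit 1637016304), (nat_lit 1627393940)],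 (nat_lit 1100000), (nat_lit 1271251), (nat_lit 1271251), (nat_lit 1271251), (nat_lit 0), (nat_lit 2754376), [(nat_lit 1695001), (nat_lit 1271251), (nat_lit 1271251)], [(nat_lit 28), (nat_lit 65), (nat_lit 456), (nat_lit 225), (nat_lit 11)]⟩,
 ⟨⟨[(nat_lit 120), (nat_lit 160), (nat_lit 180)], [(nat_lit 0), (nat_lit 0), (nat_lit 1613)], [((nat_lit 0), (nat_lit 0), (nat_lit 0)), ((nat_lit 0), (nat_lit 0), (nat_lit 0)), ((nat_lit 620), (nat_lit 1000), (nat_lit 670))], ((nat_lit 100), (nat_lit 73), (nat_lit 55))⟩, (nat_lit 1741), (nat_lit 300), (nat_lit 785), (nat_lit 296800), (nat_lit 635858), [(nat_lit 31872000), (nat_lit 47488000), (nat_lit 56232000)], [], [(nat_lit 281830968), (nat_lit 268944253), (nat_lit 244324864), (nat_lit 242171100), (nat_lit 221015074), (nat_lit 224312548), (nat_lit 237695280), (nat_lit 251644733)], (nat_lit 1100000), (nat_lit 1271251), (nat_lit 169688), (nat_lit 780000), (nat_lit 0), (nat_lit 2754376), [(nat_lit 1695001), (nat_lit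 1271251), (nat_lit 1271251)], [(nat_lit 28), (nat_lit 65), (nat_lit 401), (nat_lit 175), (nat_lit 10)]⟩⟩) (.trX (nat_lit 3) (nat_lit 0) (nat_lit 1) (nat_lit 66) (nat_lit 82) (nat_lit 100) (nat_lit 320) (.trZ (nat_lit 0) (nat_lit 2) (nat_lit 4) (nat_lit 100) (nat_lit 68) (nat_lit 61) (nat_lit 40) (.leaf ⟨(nat_lit 961), (nat_lit 35), (nat_lit 0), (nat_lit 4), (nat_lit 0), (nat_lit 3081), (nat_lit 505), (nat_lit 49), (nat_lit 0), (nat_lit 2079348798356), (nat_lit 384400), [((nat_lit 360), [((nat_lit 21), (nat_lit 1), (nat_lit 961))])], ⟨(nat_lit 5), false, false, true, (nat_lit 224), (nat_lit 3162), (nat_lit 3536), [(nat_lit 1456093), (nat_lit 1455689), (nat_lit 1478046), (nat_lit 1477844), (nat_lit 1644378), (nat_lit 1638549), (nat_lit 1666330), (nat_lit 1660704)]⟩, ⟨(nat_lit 4), false, false, false, (nat_lit 113), (nat_lit 3162), (nat_lit 3536), [(nat_lit 1205023), (nat_lit 1211851), (nat_lit 1226968), (nat_lit 1233998), (nat_lit 1330567), (nat_lit 1333779),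 (nat_lit 1352511), (nat_lit 1355925)]⟩, (nat_lit 4221789), (nat_lit 46309203), (nat_lit 15433233), (nat_lit 5257564), (nat_lit 4), (nat_lit 0), [⟨(nat_lit 1), (nat_lit 82), (nat_lit 66), (nat_lit 100), (nat_lit 111961258)⟩], [⟨(nat_lit 0), (nat_lit 100), (nat_lit 64), (nat_lit 68), (nat_lit 78954046)⟩], [], [],
 ⟨⟨[(nat_lit 40), (nat_lit 60), (nat_lit 80)], [(nat_lit 0), (nat_lit 600), (nat_lit 1195)], [((nat_lit 0), (nat_lit 0), (nat_lit 0)), ((nat_lit 1000), (nat_lit 725), (nat_lit 454)), ((nat_lit 1000), (nat_lit 720), (nat_lit 465))], ((nat_lit 69), (nat_lit 100), (nat_lit 56))⟩, (nat_lit 357905), (nat_lit 178), (nat_lit 178), (nat_lit 0), (nat_lit 236718), [(nat_lit 1375511209), (nat_lit 1471860431), (nat_lit 1640493369)], [(nat_lit 0), (nat_lit 0), (nat_lit 0)], [(nat_lit 21339127406), (nat_lit 21952315703), (nat_lit 25568457491), (nat_lit 26174810366), (nat_lit 21415067747), (nat_lit 21981586939), (nat_lit 25475023226), (nat_lit 25944588364)],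 (nat_lit 1271251), (nat_lit 1271251), (nat_lit 1271251), (nat_lit 1271251), (nat_lit 230000), (nat_lit 780000), [(nat_lit 490000), (nat_lit 780000), (nat_lit 1100000)], [(nat_lit 2), (nat_lit 44), (nat_lit 238), (nat_lit 30), (nat_lit 10)]⟩,
 ⟨⟨[(nat_lit 120), (nat_lit 160), (nat_lit 180)], [(nat_lit 0), (nat_lit 0), (nat_lit 1613)], [((nat_lit 0), (nat_lit 0), (nat_lit 0)), ((nat_lit 0), (nat_lit 0), (nat_lit 0)), ((nat_lit 620), (nat_lit 1000), (nat_lit 670))], ((nat_lit 100), (nat_lit 73), (nat_lit 55))⟩, (nat_lit 102077), (nat_lit 1184), (nat_lit 1184), (nat_lit 0), (nat_lit 1768900), [(nat_lit 310752000), (nat_lit 463008000), (nat_lit 548262000)], [], [(nat_lit 1807940768), (nat_lit 1791655804), (nat_lit 1826856012), (nat_lit 1812758698), (nat_lit 2515553543), (nat_lit 2665955098), (nat_lit 1536786855), (nat_lit 1522124091)], (nat_lit 1100000), (nat_lit 1271251), (nat_lit 1271251), (nat_lit 1271251), (nat_lit 0), (nat_lit 2754376), [(nat_lit 1695001),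 (nat_lit 1271251), (nat_lit 1271251)], [(nat_lit 28), (nat_lit 65), (nat_lit 456), (nat_lit 225), (nat_lit 11)]⟩,
 ⟨⟨[(nat_lit 120), (nat_lit 160), (nat_lit 180)], [(nat_lit 0), (nat_lit 0), (nat_lit 1613)], [((nat_lit 0), (nat_lit 0), (nat_lit 0)), ((nat_lit 0), (nat_lit 0), (nat_lit 0)), ((nat_lit 620), (nat_lit 1000), (nat_lit 670))], ((nat_lit 100), (nat_lit 73), (nat_lit 55))⟩, (nat_lit 1741), (nat_lit 300), (nat_lit 864), (nat_lit 296800), (nat_lit 848219), [(nat_lit 31872000), (nat_lit 47488000), (nat_lit 56232000)], [], [(nat_lit 271449234), (nat_lit 263143251), (nat_lit 241758224), (nat_lit 239533693), (nat_lit 215265106), (nat_lit 226644044), (nat_lit 238804469), (nat_lit 252987452)], (nat_lit 1100000), (nat_lit 1271251), (nat_lit 230000), (nat_lit 780000), (nat_lit 0), (nat_lit 2754376), [(nat_lit 1695001), (nat_lit 1271251), (nat_lit 1271251)], [(nat_lit 28), (nat_lit 65), (nat_lit 401), (nat_lit 175), (nat_lit 10)]⟩⟩))))))))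
noncomputable def c7_2 : Tr Lf :=
 (.spl (nat_lit 1) (nat_lit 220) (.leaf ⟨(nat_lit 952), (nat_lit 42), (nat_lit 0), (nat_lit 6), (nat_lit 0), (nat_lit 3085), (nat_lit 566), (nat_lit 70), (nat_lit 0), (nat_lit 0), (nat_lit 610400), [((nat_lit 360), [((nat_lit 39), (nat_lit 2), (nat_lit 854)), ((nat_lit 21), (nat_lit 2), (nat_lit 98))])], ⟨(nat_lit 5), false, true, true, (nat_lit 225), (nat_lit 3162), (nat_lit 3873), [(nat_lit 1478205), (nat_lit 1477844), (nat_lit 1521764), (nat_lit 1522126), (nat_lit 1607248), (nat_lit 1599750), (nat_lit 1650835), (nat_lit 1644060)]⟩, ⟨(nat_lit 3), false, false, false, (nat_lit 93), (nat_lit 3162), (nat_lit 3873), [(nat_lit 1106311), (nat_lit 1121813), (nat_lit 1171604), (nat_lit 1188192), (nat_lit 1283782), (nat_lit 1289472), (nat_lit 1349127), (nat_lit 1355902)]⟩, (nat_lit 3988511), (nat_lit 47296250), (nat_lit 15718955), (nat_lit 3984795), (nat_lit 3), (nat_lit 0), [], [⟨(nat_lit 0), (nat_lit 100), (nat_lit 68), (nat_lit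 58), (nat_lit 62115400)⟩], [], [],
 ⟨⟨[(nat_lit 40), (nat_lit 60), (nat_lit 80)], [(nat_lit 0), (nat_lit 398), (nat_lit 992)], [((nat_lit 0), (nat_lit 0), (nat_lit 0)), ((nat_lit 1000), (nat_lit 814), (nat_lit 310)), ((nat_lit 1000), (nat_lit 752), (nat_lit 464))], ((nat_lit 73), (nat_lit 100), (nat_lit 55))⟩, (nat_lit 274360), (nat_lit 214), (nat_lit 214), (nat_lit 0), (nat_lit 340234), [(nat_lit 1333930682), (nat_lit 1196095249), (nat_lit 966333551)], [(nat_lit 0), (nat_lit 0), (nat_lit 0)], [(nat_lit 20979681583), (nat_lit 22107180018), (nat_lit 23565916626), (nat_lit 25026122112), (nat_lit 20954418811), (nat_lit 21972564601), (nat_lit 23319817716), (nat_lit 24288693300)], (nat_lit 1271251), (nat_lit 1271251), (nat_lit 1271251), (nat_lit 1271251), (nat_lit 54688), (nat_lit 780000), [(nat_lit 490000), (nat_lit 780000), (nat_lit 1100000)], [(nat_lit 2), (nat_lit 44), (nat_lit 238), (nat_lit 30), (nat_lit 10)]⟩,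
 ⟨⟨[(nat_lit 120), (nat_lit 160), (nat_lit 180)], [(nat_lit 0), (nat_lit 533), (nat_lit 2066)], [((nat_lit 0), (nat_lit 0), (nat_lit 0)), ((nat_lit 960), (nat_lit 1000), (nat_lit 200)), ((nat_lit 615), (nat_lit 1000), (nat_lit 729))], ((nat_lit 100), (nat_lit 79), (nat_lit 55))⟩, (nat_lit 151564), (nat_lit 1113), (nat_lit 1113), (nat_lit 0), (nat_lit 1621561), [(nat_lit 382464000), (nat_lit 569856000), (nat_lit 674784000)], [], [(nat_lit 1902275279), (nat_lit 1912332501), (nat_lit 1987386636), (nat_lit 1982224228), (nat_lit 3197133577), (nat_lit 2698962522), (nat_lit 2206909538), (nat_lit 1731971933)], (nat_lit 1271251), (nat_lit 1271251), (nat_lit 1271251), (nat_lit 1271251), (nat_lit 0), (nat_lit 2754376), [(nat_lit 1695001), (nat_lit 1271251), (nat_lit 1271251)], [(nat_lit 28), (nat_lit 65), (nat_lit 456), (nat_lit 225), (nat_lit 11)]⟩,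
 ⟨⟨[(nat_lit 140), (nat_lit 180), (nat_lit 200)], [(nat_lit 0), (nat_lit 0), (nat_lit 2835)], [((nat_lit 0), (nat_lit 0), (nat_lit 0)), ((nat_lit 0), (nat_lit 0), (nat_lit 0)), ((nat_lit 363), (nat_lit 1000), (nat_lit 798))], ((nat_lit 0), (nat_lit 0), (nat_lit 0))⟩, (nat_lit 1651), (nat_lit 300), (nat_lit 1501), (nat_lit 468600), (nat_lit 2019146), [(nat_lit 59052000), (nat_lit 84348000), (nat_lit 98400000)], [], [(nat_lit 546532638), (nat_lit 490352007), (nat_lit 454157584), (nat_lit 438129867), (nat_lit 412802131), (nat_lit 396246660), (nat_lit 387676700), (nat_lit 443414478)], (nat_lit 780000), (nat_lit 1271251), (nat_lit 54688), (nat_lit 780000), (nat_lit 0), (nat_lit 2754376), [(nat_lit 1977501), (nat_lit 1271251), (nat_lit 1271251)], [(nat_lit 32), (nat_lit 67), (nat_lit 462), (nat_lit 175), (nat_lit 10)]⟩⟩) (.leaf ⟨(nat_lit 883), (nat_lit 100), (nat_lit 0), (nat_lit 17), (nat_lit 0), (nat_lit 3339), (nat_lit 1035), (nat_lit 198), (nat_lit 0),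 (nat_lit 0), (nat_lit 523850), [((nat_lit 360), [((nat_lit 21), (nat_lit 0), (nat_lit 17)), ((nat_lit 39), (nat_lit 2), (nat_lit 866))])], ⟨(nat_lit 5), false, true, true, (nat_lit 238), (nat_lit 3162), (nat_lit 3873), [(nat_lit 1521764), (nat_lit 1522126), (nat_lit 1543529), (nat_lit 1544252), (nat_lit 1650835), (nat_lit 1644060), (nat_lit 1672628), (nat_lit 1666215)]⟩, ⟨(nat_lit 3), false, false, false, (nat_lit 93), (nat_lit 3162), (nat_lit 3873), [(nat_lit 1106311), (nat_lit 1121813), (nat_lit 1171604), (nat_lit 1188192), (nat_lit 1283782), (nat_lit 1289472), (nat_lit 1349127), (nat_lit 1355902)]⟩, (nat_lit 4085488), (nat_lit 46029197), (nat_lit 17032592), (nat_lit 3938211), (nat_lit 3), (nat_lit 0), [], [⟨(nat_lit 0), (nat_lit 100), (nat_lit 60), (nat_lit 74), (nat_lit 46985267)⟩], [], [],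
 ⟨⟨[(nat_lit 40), (nat_lit 60), (nat_lit 80)], [(nat_lit 0), (nat_lit 398), (nat_lit 992)], [((nat_lit 0), (nat_lit 0), (nat_lit 0)), ((nat_lit 1000), (nat_lit 814), (nat_lit 310)), ((nat_lit 1000), (nat_lit 752), (nat_lit 464))], ((nat_lit 73), (nat_lit 100), (nat_lit 55))⟩, (nat_lit 365011), (nat_lit 231), (nat_lit 231), (nat_lit 0), (nat_lit 382362), [(nat_lit 1376930442), (nat_lit 1401823223), (nat_lit 1360966177)], [(nat_lit 0), (nat_lit 0), (nat_lit 0)], [(nat_lit 21076863100), (nat_lit 22246244608), (nat_lit 24035298355), (nat_lit 25552238250), (nat_lit 20890372081), (nat_lit 22028984839), (nat_lit 23496161181), (nat_lit 24485714835)], (nat_lit 1271251), (nat_lit 1271251), (nat_lit 1271251), (nat_lit 1271251), (nat_lit 54688), (nat_lit 780000), [(nat_lit 490000), (nat_lit 780000), (nat_lit 1100000)], [(nat_lit 2), (nat_lit 44), (nat_lit 238), (nat_lit 30), (nat_lit 10)]⟩,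
 ⟨⟨[(nat_lit 100), (nat_lit 140), (nat_lit 160)], [(nat_lit 0), (nat_lit 508), (nat_lit 1689)], [((nat_lit 0), (nat_lit 0), (nat_lit 0)), ((nat_lit 1000), (nat_lit 1000), (nat_lit 198)), ((nat_lit 811), (nat_lit 1000), (nat_lit 671))], ((nat_lit 100), (nat_lit 89), (nat_lit 55))⟩, (nat_lit 597620), (nat_lit 843), (nat_lit 843), (nat_lit 0), (nat_lit 1216424), [(nat_lit 731250000), (nat_lit 1151514000), (nat_lit 1389024000)], [], [(nat_lit 4087220489), (nat_lit 4079457768), (nat_lit 4162528272), (nat_lit 4174738572), (nat_lit 5188746451), (nat_lit 4721470797), (nat_lit 3834036497), (nat_lit 3841128800)], (nat_lit 1271251), (nat_lit 1271251), (nat_lit 1271251), (nat_lit 1271251), (nat_lit 0), (nat_lit 2754376), [(nat_lit 1412501), (nat_lit 1271251), (nat_lit 1271251)], [(nat_lit 23), (nat_lit 62), (nat_lit 483), (nat_lit 250), (nat_lit 12)]⟩,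
 ⟨⟨[(nat_lit 140), (nat_lit 180), (nat_lit 200)], [(nat_lit 0), (nat_lit 0), (nat_lit 2835)], [((nat_lit 0), (nat_lit 0), (nat_lit 0)), ((nat_lit 0), (nat_lit 0), (nat_lit 0)), ((nat_lit 363), (nat_lit 1000), (nat_lit 798))], ((nat_lit 0), (nat_lit 0), (nat_lit 0))⟩, (nat_lit 4677), (nat_lit 300), (nat_lit 1636), (nat_lit 1327704), (nat_lit 2315469), [(nat_lit 167314000), (nat_lit 238986000), (nat_lit 278800000)], [], [(nat_lit 1547218631), (nat_lit 1389942167), (nat_lit 1287574802), (nat_lit 1242262414), (nat_lit 1170110640), (nat_lit 1122922564), (nat_lit 1098023852), (nat_lit 1255738282)], (nat_lit 780000), (nat_lit 1271251), (nat_lit 54688), (nat_lit 780000), (nat_lit 0), (nat_lit 2754376), [(nat_lit 1977501), (nat_lit 1271251), (nat_lit 1271251)], [(nat_lit 32), (nat_lit 67), (nat_lit 496), (nat_lit 175), (nat_lit 11)]⟩⟩))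
noncomputable def c7_3 : Tr Lf :=
 (.trX (nat_lit 5) (nat_lit 3) (nat_lit 4) (nat_lit 100) (nat_lit 80) (nat_lit 100) (nat_lit 340) (.spl (nat_lit 3) (nat_lit 320) (.spl (nat_lit 4) (nat_lit 80) (.trX (nat_lit 5) (nat_lit 3) (nat_lit 4) (nat_lit 100) (nat_lit 95) (nat_lit 87) (nat_lit 300) (.spl (nat_lit 0) (nat_lit 350) (.leaf ⟨(nat_lit 896), (nat_lit 104), (nat_lit 0), (nat_lit 0), (nat_lit 0), (nat_lit 3406), (nat_lit 1004), (nat_lit 0), (nat_lit 0), (nat_lit 0), (nat_lit 534450), [((nat_lit 350), [((nat_lit 21), (nat_lit 0), (nat_lit 9)), ((nat_lit 39), (nat_lit 2), (nat_lit 887))])], ⟨(nat_lit 7), false, true, true, (nat_lit 268), (nat_lit 3535), (nat_lit 3873), [(nat_lit 1607248), (nat_lit 1603569), (nat_lit 1672628), (nat_lit 1669426), (nat_lit 1671770), (nat_lit 1666330), (nat_lit 1737150), (nat_lit 1732188)]⟩, ⟨(nat_lit 3), false, false, false, (nat_lit 79), (nat_lit 3535), (nat_lit 3873), [(nat_lit 1106345), (nat_lit 1114069), (nat_lit 1171707),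 (nat_lit 1179909), (nat_lit 1219261), (nat_lit 1223904), (nat_lit 1284630), (nat_lit 1289751)]⟩, (nat_lit 4087269), (nat_lit 43828634), (nat_lit 20160045), (nat_lit 3011321), (nat_lit 3), (nat_lit 0), [], [⟨(nat_lit 0), (nat_lit 100), (nat_lit 66), (nat_lit 68), (nat_lit 204268475)⟩], [], [⟨(nat_lit 1), (nat_lit 100), (nat_lit 88), (nat_lit 64), (nat_lit 9057495)⟩],
 ⟨⟨[(nat_lit 40), (nat_lit 60), (nat_lit 80)], [(nat_lit 0), (nat_lit 398), (nat_lit 992)], [((nat_lit 0), (nat_lit 0), (nat_lit 0)), ((nat_lit 1000), (nat_lit 814), (nat_lit 310)), ((nat_lit 1000), (nat_lit 752), (nat_lit 464))], ((nat_lit 73), (nat_lit 100), (nat_lit 55))⟩, (nat_lit 126105), (nat_lit 216), (nat_lit 216), (nat_lit 0), (nat_lit 334274), [(nat_lit 1368724801), (nat_lit 1370416401), (nat_lit 1303776399)], [(nat_lit 0), (nat_lit 0), (nat_lit 0)], [(nat_lit 24159111645), (nat_lit 24925064281), (nat_lit 26328407637), (nat_lit 27020393254), (nat_lit 23070342970), (nat_lit 23554366866),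 (nat_lit 24514002609), (nat_lit 24995504974)], (nat_lit 1271251), (nat_lit 1271251), (nat_lit 1271251), (nat_lit 1271251), (nat_lit 54688), (nat_lit 490000), [(nat_lit 490000), (nat_lit 780000), (nat_lit 1100000)], [(nat_lit 2), (nat_lit 44), (nat_lit 226), (nat_lit 20), (nat_lit 9)]⟩,
 ⟨⟨[(nat_lit 120), (nat_lit 160), (nat_lit 180)], [(nat_lit 0), (nat_lit 533), (nat_lit 2066)], [((nat_lit 0), (nat_lit 0), (nat_lit 0)), ((nat_lit 960), (nat_lit 1000), (nat_lit 200)), ((nat_lit 615), (nat_lit 1000), (nat_lit 729))], ((nat_lit 100), (nat_lit 79), (nat_lit 55))⟩, (nat_lit 915741), (nat_lit 929), (nat_lit 929), (nat_lit 0), (nat_lit 1278087), [(nat_lit 828672000), (nat_lit 1234688000), (nat_lit 1462032000)], [], [(nat_lit 3909253474), (nat_lit 3861399616), (nat_lit 3953528178), (nat_lit 3969479166), (nat_lit 3998059620), (nat_lit 3110558272), (nat_lit 3198385403), (nat_lit 3149016290)], (nat_lit 1271251), (nat_lit 1271251), (nat_lit 1271251), (nat_lit 1271251),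 (nat_lit 0), (nat_lit 2118750), [(nat_lit 1695001), (nat_lit 1271251), (nat_lit 1271251)], [(nat_lit 28), (nat_lit 65), (nat_lit 456), (nat_lit 225), (nat_lit 10)]⟩,
 Rw.none⟩) (.leaf ⟨(nat_lit 918), (nat_lit 82), (nat_lit 0), (nat_lit 0), (nat_lit 0), (nat_lit 3332), (nat_lit 801), (nat_lit 0), (nat_lit 0), (nat_lit 0), (nat_lit 548200), [((nat_lit 360), [((nat_lit 21), (nat_lit 1), (nat_lit 13)), ((nat_lit 39), (nat_lit 2), (nat_lit 905))])], ⟨(nat_lit 7), false, true, true, (nat_lit 266), (nat_lit 3162), (nat_lit 3536), [(nat_lit 1603569), (nat_lit 1599750), (nat_lit 1669427), (nat_lit 1666215), (nat_lit 1666330), (nat_lit 1660704), (nat_lit 1732188), (nat_lit 1727168)]⟩, ⟨(nat_lit 3), false, false, false, (nat_lit 82), (nat_lit 3162), (nat_lit 3536), [(nat_lit 1114056), (nat_lit 1121835), (nat_lit 1179889), (nat_lit 1188275), (nat_lit 1223904), (nat_lit 1228519), (nat_lit 1289740), (nat_lit 1294962)]⟩, (nat_lit 4111104), (nat_lit 43882704), (nat_lit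 19954225), (nat_lit 3163071), (nat_lit 3), (nat_lit 0), [], [⟨(nat_lit 0), (nat_lit 100), (nat_lit 65), (nat_lit 61), (nat_lit 219047914)⟩], [], [⟨(nat_lit 1), (nat_lit 100), (nat_lit 88), (nat_lit 64), (nat_lit 6775400)⟩],
 ⟨⟨[(nat_lit 40), (nat_lit 60), (nat_lit 80)], [(nat_lit 0), (nat_lit 600), (nat_lit 1195)], [((nat_lit 0), (nat_lit 0), (nat_lit 0)), ((nat_lit 1000), (nat_lit 725), (nat_lit 454)), ((nat_lit 1000), (nat_lit 720), (nat_lit 465))], ((nat_lit 69), (nat_lit 100), (nat_lit 56))⟩, (nat_lit 252190), (nat_lit 243), (nat_lit 243), (nat_lit 0), (nat_lit 379752), [(nat_lit 1355913601), (nat_lit 1369828401), (nat_lit 1172596000)], [(nat_lit 0), (nat_lit 0), (nat_lit 0)], [(nat_lit 24780050812), (nat_lit 25537738986), (nat_lit 26858660501), (nat_lit 27543551312), (nat_lit 23770210273), (nat_lit 24241211422), (nat_lit 25149372040), (nat_lit 25588211730)], (nat_lit 1271251), (nat_lit 1271251), (nat_lit 1271251), (nat_lit 1271251), (nat_lit 54688),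 (nat_lit 490000), [(nat_lit 490000), (nat_lit 780000), (nat_lit 1100000)], [(nat_lit 2), (nat_lit 44), (nat_lit 226), (nat_lit 20), (nat_lit 9)]⟩,
 ⟨⟨[(nat_lit 120), (nat_lit 160), (nat_lit 180)], [(nat_lit 0), (nat_lit 533), (nat_lit 2066)], [((nat_lit 0), (nat_lit 0), (nat_lit 0)), ((nat_lit 960), (nat_lit 1000), (nat_lit 200)), ((nat_lit 615), (nat_lit 1000), (nat_lit 729))], ((nat_lit 100), (nat_lit 79), (nat_lit 55))⟩, (nat_lit 699238), (nat_lit 1092), (nat_lit 1092), (nat_lit 0), (nat_lit 1642409), [(nat_lit 653376000), (nat_lit 973504000), (nat_lit 1152756000)], [], [(nat_lit 3167034275), (nat_lit 3092107772), (nat_lit 3159134791), (nat_lit 3148436276), (nat_lit 3144754985), (nat_lit 2433178414), (nat_lit 2527827730), (nat_lit 2488912283)], (nat_lit 1271251), (nat_lit 1271251), (nat_lit 1271251), (nat_lit 1271251), (nat_lit 0), (nat_lit 2118750), [(nat_lit 1695001), (nat_lit 1271251), (nat_lit 1271251)], [(nat_lit 28), (nat_lit 65), (nat_lit 456),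 (nat_lit 225), (nat_lit 10)]⟩,
 Rw.none⟩))) (.leaf ⟨(nat_lit 918), (nat_lit 72), (nat_lit 0), (nat_lit 10), (nat_lit 0), (nat_lit 3293), (nat_lit 787), (nat_lit 137), (nat_lit 0), (nat_lit 0), (nat_lit 560800), [((nat_lit 360), [((nat_lit 39), (nat_lit 2), (nat_lit 893)), ((nat_lit 21), (nat_lit 2), (nat_lit 25))])], ⟨(nat_lit 7), false, true, true, (nat_lit 267), (nat_lit 3162), (nat_lit 3873), [(nat_lit 1607248), (nat_lit 1599750), (nat_lit 1672628), (nat_lit 1666215), (nat_lit 1671770), (nat_lit 1660704), (nat_lit 1737150), (nat_lit 1727168)]⟩, ⟨(nat_lit 3), false, false, false, (nat_lit 115), (nat_lit 3162), (nat_lit 3873), [(nat_lit 1219261), (nat_lit 1228519), (nat_lit 1284573), (nat_lit 1294916), (nat_lit 1283782), (nat_lit 1289472), (nat_lit 1349127), (nat_lit 1355902)]⟩, (nat_lit 4514292), (nat_lit 42212843), (nat_lit 19589869), (nat_lit 5197288), (nat_lit 3), (nat_lit 0), [], [], [], [],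
 ⟨⟨[(nat_lit 40), (nat_lit 60), (nat_lit 80)], [(nat_lit 0), (nat_lit 398), (nat_lit 992)], [((nat_lit 0), (nat_lit 0), (nat_lit 0)), ((nat_lit 1000), (nat_lit 814), (nat_lit 310)), ((nat_lit 1000), (nat_lit 752), (nat_lit 464))], ((nat_lit 73), (nat_lit 100), (nat_lit 55))⟩, (nat_lit 216157), (nat_lit 192), (nat_lit 192), (nat_lit 0), (nat_lit 382766), [(nat_lit 1354815740), (nat_lit 1331051879), (nat_lit 1157048521)], [(nat_lit 0), (nat_lit 0), (nat_lit 0)], [(nat_lit 22974310527), (nat_lit 23929071553), (nat_lit 24404150002), (nat_lit 25403618428), (nat_lit 23306442061), (nat_lit 24218989369), (nat_lit 24671920160), (nat_lit 25520294793)], (nat_lit 1271251), (nat_lit 1271251), (nat_lit 1271251), (nat_lit 1271251), (nat_lit 490000), (nat_lit 780000), [(nat_lit 490000), (nat_lit 780000), (nat_lit 1100000)], [(nat_lit 2), (nat_lit 44), (nat_lit 238), (nat_lit 30), (nat_lit 9)]⟩,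
 ⟨⟨[(nat_lit 120), (nat_lit 160), (nat_lit 180)], [(nat_lit 0), (nat_lit 533), (nat_lit 2066)], [((nat_lit 0), (nat_lit 0), (nat_lit 0)), ((nat_lit 960), (nat_lit 1000), (nat_lit 200)), ((nat_lit 615), (nat_lit 1000), (nat_lit 729))], ((nat_lit 100), (nat_lit 79), (nat_lit 55))⟩, (nat_lit 637988), (nat_lit 1094), (nat_lit 1094), (nat_lit 0), (nat_lit 1648384), [(nat_lit 653376000), (nat_lit 973504000), (nat_lit 1152756000)], [], [(nat_lit 3268249067), (nat_lit 3195781076), (nat_lit 3261325705), (nat_lit 3222139528), (nat_lit 3442981611), (nat_lit 2611577513), (nat_lit 2752466827), (nat_lit 2676509275)], (nat_lit 1271251), (nat_lit 1271251), (nat_lit 1271251), (nat_lit 1271251), (nat_lit 0), (nat_lit 2401251), [(nat_lit 1695001), (nat_lit 1271251), (nat_lit 1271251)], [(nat_lit 28), (nat_lit 65), (nat_lit 456), (nat_lit 225), (nat_lit 10)]⟩,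
 ⟨⟨[(nat_lit 140), (nat_lit 180), (nat_lit 200)], [(nat_lit 0), (nat_lit 0), (nat_lit 2835)], [((nat_lit 0), (nat_lit 0), (nat_lit 0)), ((nat_lit 0), (nat_lit 0), (nat_lit 0)), ((nat_lit 363), (nat_lit 1000), (nat_lit 798))], ((nat_lit 0), (nat_lit 0), (nat_lit 0))⟩, (nat_lit 2751), (nat_lit 300), (nat_lit 1581), (nat_lit 781005), (nat_lit 2315843), [(nat_lit 98420000), (nat_lit 140580000), (nat_lit 164000000)], [], [(nat_lit 812266560), (nat_lit 720553940), (nat_lit 732484517), (nat_lit 693719600), (nat_lit 574037823), (nat_lit 674088727), (nat_lit 618627268), (nat_lit 721303469)], (nat_lit 780000), (nat_lit 1271251), (nat_lit 490000), (nat_lit 780000), (nat_lit 0), (nat_lit 2401251), [(nat_lit 1977501), (nat_lit 1271251), (nat_lit 1271251)], [(nat_lit 32), (nat_lit 67), (nat_lit 476), (nat_lit 175), (nat_lit 11)]⟩⟩)) (.trX (nat_lit 5) (nat_lit 3) (nat_lit 4) (nat_lit 87) (nat_lit 95) (nat_lit 100) (nat_lit 300) (.stt (nat_lit 1) (.spl (nat_lit 1) (nat_lit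 220) (.trX (nat_lit 3) (nat_lit 0) (nat_lit 1) (nat_lit 72) (nat_lit 63) (nat_lit 100) (nat_lit 360) (.spl (nat_lit 1) (nat_lit 200) (.trX (nat_lit 3) (nat_lit 0) (nat_lit 1) (nat_lit 71) (nat_lit 70) (nat_lit 100) (nat_lit 350) (.leaf ⟨(nat_lit 1000), (nat_lit 0), (nat_lit 0), (nat_lit 0), (nat_lit 5601), (nat_lit 2650), (nat_lit 0), (nat_lit 0), (nat_lit 0), (nat_lit 0), (nat_lit 666400), [((nat_lit 360), [((nat_lit 39), (nat_lit 2), (nat_lit 834)), ((nat_lit 21), (nat_lit 2), (nat_lit 166))])], ⟨(nat_lit 8), false, true, true, (nat_lit 280), (nat_lit 3162), (nat_lit 3873), [(nat_lit 1671770), (nat_lit 1660704), (nat_lit 1693563), (nat_lit 1682859), (nat_lit 1720161), (nat_lit 1706419), (nat_lit 1741954), (nat_lit 1728574)]⟩, ⟨(nat_lit 3), false, false, false, (nat_lit 93), (nat_lit 3162), (nat_lit 3873), [(nat_lit 1106311), (nat_lit 1121813), (nat_lit 1171604), (nat_lit 1188192), (nat_lit 1283782), (nat_lit 1289472), (nat_lit 1349127), (nat_lit 1355902)]⟩,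 (nat_lit 4315640), (nat_lit 42053497), (nat_lit 21191579), (nat_lit 3754924), (nat_lit 0), (nat_lit 0), [⟨(nat_lit 1), (nat_lit 78), (nat_lit 66), (nat_lit 100), (nat_lit 258260663)⟩, ⟨(nat_lit 1), (nat_lit 70), (nat_lit 71), (nat_lit 100), (nat_lit 39103033)⟩], [⟨(nat_lit 0), (nat_lit 100), (nat_lit 68), (nat_lit 58), (nat_lit 60362977)⟩], [], [],
 ⟨⟨[(nat_lit 40), (nat_lit 60), (nat_lit 80)], [(nat_lit 0), (nat_lit 398), (nat_lit 992)], [((nat_lit 0), (nat_lit 0), (nat_lit 0)), ((nat_lit 1000), (nat_lit 814), (nat_lit 310)), ((nat_lit 1000), (nat_lit 752), (nat_lit 464))], ((nat_lit 73), (nat_lit 100), (nat_lit 55))⟩, (nat_lit 0), (nat_lit 136), (nat_lit 136), (nat_lit 0), (nat_lit 0), [(nat_lit 1305214403), (nat_lit 1115569821), (nat_lit 647444579)], [(nat_lit 0), (nat_lit 0), (nat_lit 0)], [(nat_lit 25153993691), (nat_lit 26095592878), (nat_lit 26516138676), (nat_lit 27661364146), (nat_lit 24951930403), (nat_lit 25816082195), (nat_lit 26211917980),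 (nat_lit 27082280659)], (nat_lit 0), (nat_lit 0), (nat_lit 0), (nat_lit 0), (nat_lit 0), (nat_lit 0), [], [(nat_lit 2), (nat_lit 44), (nat_lit 238), (nat_lit 30), (nat_lit 9)]⟩,
 Rw.none,
 Rw.none⟩)) (.leaf ⟨(nat_lit 906), (nat_lit 94), (nat_lit 0), (nat_lit 0), (nat_lit 0), (nat_lit 2684), (nat_lit 1029), (nat_lit 0), (nat_lit 0), (nat_lit 0), (nat_lit 543600), [((nat_lit 360), [((nat_lit 39), (nat_lit 2), (nat_lit 906))])], ⟨(nat_lit 8), false, true, true, (nat_lit 292), (nat_lit 3162), (nat_lit 3873), [(nat_lit 1693563), (nat_lit 1682859), (nat_lit 1715356), (nat_lit 1705013), (nat_lit 1758085), (nat_lit 1743812), (nat_lit 1779878), (nat_lit 1765967)]⟩, ⟨(nat_lit 3), false, false, false, (nat_lit 93), (nat_lit 3162), (nat_lit 3873), [(nat_lit 1106311), (nat_lit 1121813), (nat_lit 1171604), (nat_lit 1188192), (nat_lit 1283782), (nat_lit 1289472), (nat_lit 1349127), (nat_lit 1355902)]⟩, (nat_lit 4360590), (nat_lit 40954805), (nat_lit 22349624), (nat_lit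 3695571), (nat_lit 3), (nat_lit 0), [⟨(nat_lit 1), (nat_lit 72), (nat_lit 66), (nat_lit 100), (nat_lit 228939616)⟩], [⟨(nat_lit 0), (nat_lit 100), (nat_lit 68), (nat_lit 58), (nat_lit 41562585)⟩], [], [⟨(nat_lit 1), (nat_lit 100), (nat_lit 72), (nat_lit 74), (nat_lit 4647258)⟩],
 ⟨⟨[(nat_lit 40), (nat_lit 60), (nat_lit 80)], [(nat_lit 0), (nat_lit 398), (nat_lit 992)], [((nat_lit 0), (nat_lit 0), (nat_lit 0)), ((nat_lit 1000), (nat_lit 814), (nat_lit 310)), ((nat_lit 1000), (nat_lit 752), (nat_lit 464))], ((nat_lit 73), (nat_lit 100), (nat_lit 55))⟩, (nat_lit 462493), (nat_lit 139), (nat_lit 139), (nat_lit 0), (nat_lit 0), [(nat_lit 1362200808), (nat_lit 1383605929), (nat_lit 1218120871)], [(nat_lit 0), (nat_lit 0), (nat_lit 0)], [(nat_lit 25367848495), (nat_lit 26313813920), (nat_lit 27187730032), (nat_lit 28307751186), (nat_lit 25139988974), (nat_lit 26004518226), (nat_lit 26816142859), (nat_lit 27665383048)], (nat_lit 0), (nat_lit 0), (nat_lit 0),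 (nat_lit 0), (nat_lit 0), (nat_lit 0), [], [(nat_lit 2), (nat_lit 44), (nat_lit 238), (nat_lit 30), (nat_lit 9)]⟩,
 ⟨⟨[(nat_lit 100), (nat_lit 140), (nat_lit 160)], [(nat_lit 0), (nat_lit 0), (nat_lit 1280)], [((nat_lit 0), (nat_lit 0), (nat_lit 0)), ((nat_lit 0), (nat_lit 0), (nat_lit 0)), ((nat_lit 800), (nat_lit 1000), (nat_lit 600))], ((nat_lit 100), (nat_lit 84), (nat_lit 54))⟩, (nat_lit 255769), (nat_lit 878), (nat_lit 878), (nat_lit 0), (nat_lit 1362404), [(nat_lit 587500000), (nat_lit 925148000), (nat_lit 1115968000)], [], [(nat_lit 3894407040), (nat_lit 3862356036), (nat_lit 3996855037), (nat_lit 3981367884), (nat_lit 2995534327), (nat_lit 2971940150), (nat_lit 3127220372), (nat_lit 3119700593)], (nat_lit 1271251), (nat_lit 1271251), (nat_lit 1271251), (nat_lit 1271251), (nat_lit 0), (nat_lit 2118750), [(nat_lit 1412501), (nat_lit 1271251), (nat_lit 1271251)], [(nat_lit 23), (nat_lit 62), (nat_lit 373), (nat_lit 150), (nat_lit 9)]⟩,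
 Rw.none⟩))) (.leaf ⟨(nat_lit 832), (nat_lit 168), (nat_lit 0), (nat_lit 0), (nat_lit 0), (nat_lit 2699), (nat_lit 1396), (nat_lit 0), (nat_lit 0), (nat_lit 0), (nat_lit 479950), [((nat_lit 360), [((nat_lit 21), (nat_lit 0), (nat_lit 55)), ((nat_lit 39), (nat_lit 2), (nat_lit 777))])], ⟨(nat_lit 8), false, true, true, (nat_lit 304), (nat_lit 3162), (nat_lit 3873), [(nat_lit 1715356), (nat_lit 1705013), (nat_lit 1737150), (nat_lit 1727168), (nat_lit 1796008), (nat_lit 1781205), (nat_lit 1817802), (nat_lit 1803360)]⟩, ⟨(nat_lit 3), false, false, false, (nat_lit 93), (nat_lit 3162), (nat_lit 3873), [(nat_lit 1106311), (nat_lit 1121813), (nat_lit 1171604), (nat_lit 1188192), (nat_lit 1283782), (nat_lit 1289472), (nat_lit 1349127), (nat_lit 1355902)]⟩, (nat_lit 4397332), (nat_lit 39873115), (nat_lit 23493017), (nat_lit 3633868), (nat_lit 3), (nat_lit 0), [⟨(nat_lit 1), (nat_lit 65), (nat_lit 67), (nat_lit 100), (nat_lit 184492500)⟩], [], [], [⟨(nat_lit 1),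 (nat_lit 100), (nat_lit 69), (nat_lit 74), (nat_lit 30309988)⟩],
 ⟨⟨[(nat_lit 40), (nat_lit 60), (nat_lit 80)], [(nat_lit 0), (nat_lit 398), (nat_lit 992)], [((nat_lit 0), (nat_lit 0), (nat_lit 0)), ((nat_lit 1000), (nat_lit 814), (nat_lit 310)), ((nat_lit 1000), (nat_lit 752), (nat_lit 464))], ((nat_lit 73), (nat_lit 100), (nat_lit 55))⟩, (nat_lit 918141), (nat_lit 145), (nat_lit 145), (nat_lit 0), (nat_lit 0), [(nat_lit 1409809622), (nat_lit 1537244476), (nat_lit 1583145124)], [(nat_lit 0), (nat_lit 0), (nat_lit 0)], [(nat_lit 25295885382), (nat_lit 26342234539), (nat_lit 27841343327), (nat_lit 28908627384), (nat_lit 25044332678), (nat_lit 25989940147), (nat_lit 27362809627), (nat_lit 28243129845)], (nat_lit 0), (nat_lit 0), (nat_lit 0), (nat_lit 0), (nat_lit 0), (nat_lit 0), [], [(nat_lit 2), (nat_lit 44), (nat_lit 238), (nat_lit 30), (nat_lit 9)]⟩,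
 ⟨⟨[(nat_lit 100), (nat_lit 140), (nat_lit 160)], [(nat_lit 0), (nat_lit 508), (nat_lit 1689)], [((nat_lit 0), (nat_lit 0), (nat_lit 0)), ((nat_lit 1000), (nat_lit 1000), (nat_lit 198)), ((nat_lit 811), (nat_lit 1000), (nat_lit 671))], ((nat_lit 100), (nat_lit 89), (nat_lit 55))⟩, (nat_lit 1228838), (nat_lit 810), (nat_lit 810), (nat_lit 0), (nat_lit 1216424), [(nat_lit 1050000000), (nat_lit 1653456000), (nat_lit 1994496000)], [], [(nat_lit 5996053332), (nat_lit 5982059816), (nat_lit 6171472971), (nat_lit 6158295400), (nat_lit 5177149853), (nat_lit 5151605624), (nat_lit 5289660842), (nat_lit 5265642573)], (nat_lit 1271251), (nat_lit 1271251), (nat_lit 1271251), (nat_lit 1271251), (nat_lit 0), (nat_lit 2118750), [(nat_lit 1412501), (nat_lit 1271251), (nat_lit 1271251)], [(nat_lit 23), (nat_lit 62), (nat_lit 373), (nat_lit 150), (nat_lit 9)]⟩,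
 Rw.none⟩)) (.leaf ⟨(nat_lit 640), (nat_lit 360), (nat_lit 0), (nat_lit 0), (nat_lit 0), (nat_lit 3475), (nat_lit 3525), (nat_lit 0), (nat_lit 0), (nat_lit 0), (nat_lit 385500), [((nat_lit 360), [((nat_lit 21), (nat_lit 0), (nat_lit 270)), ((nat_lit 39), (nat_lit 2), (nat_lit 130)), ((nat_lit 21), (nat_lit 2), (nat_lit 240))])], ⟨(nat_lit 8), false, true, true, (nat_lit 295), (nat_lit 3162), (nat_lit 3873), [(nat_lit 1671770), (nat_lit 1660704), (nat_lit 1737150), (nat_lit 1727168), (nat_lit 1752422), (nat_lit 1736895), (nat_lit 1817802), (nat_lit 1803360)]⟩, ⟨(nat_lit 3), false, false, false, (nat_lit 93), (nat_lit 3162), (nat_lit 3873), [(nat_lit 1106311), (nat_lit 1121813), (nat_lit 1171604), (nat_lit 1188192), (nat_lit 1283782), (nat_lit 1289472), (nat_lit 1349127), (nat_lit 1355902)]⟩, (nat_lit 4371031), (nat_lit 40668576), (nat_lit 22651872), (nat_lit 3679552), (nat_lit 3), (nat_lit 0), [⟨(nat_lit 1), (nat_lit 72), (nat_lit 66), (nat_lit 100),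 (nat_lit 331357446)⟩], [⟨(nat_lit 0), (nat_lit 100), (nat_lit 60), (nat_lit 74), (nat_lit 6359353)⟩], [], [⟨(nat_lit 1), (nat_lit 100), (nat_lit 69), (nat_lit 74), (nat_lit 39585565)⟩],
 ⟨⟨[(nat_lit 40), (nat_lit 60), (nat_lit 80)], [(nat_lit 0), (nat_lit 398), (nat_lit 992)], [((nat_lit 0), (nat_lit 0), (nat_lit 0)), ((nat_lit 1000), (nat_lit 814), (nat_lit 310)), ((nat_lit 1000), (nat_lit 752), (nat_lit 464))], ((nat_lit 73), (nat_lit 100), (nat_lit 55))⟩, (nat_lit 1217458), (nat_lit 258), (nat_lit 258), (nat_lit 0), (nat_lit 382766), [(nat_lit 1535888061), (nat_lit 1911868072), (nat_lit 2250659928)], [(nat_lit 0), (nat_lit 0), (nat_lit 0)], [(nat_lit 26472597075), (nat_lit 27869799163), (nat_lit 29779149523), (nat_lit 30989898839), (nat_lit 25478473490), (nat_lit 26333494734), (nat_lit 27663384296), (nat_lit 28613947382)], (nat_lit 1271251), (nat_lit 1271251), (nat_lit 1271251), (nat_lit 1271251), (nat_lit 54688), (nat_lit 780000), [(nat_lit 490000),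 (nat_lit 780000), (nat_lit 1100000)], [(nat_lit 2), (nat_lit 44), (nat_lit 238), (nat_lit 30), (nat_lit 9)]⟩,
 ⟨⟨[(nat_lit 120), (nat_lit 160), (nat_lit 180)], [(nat_lit 0), (nat_lit 533), (nat_lit 2066)], [((nat_lit 0), (nat_lit 0), (nat_lit 0)), ((nat_lit 960), (nat_lit 1000), (nat_lit 200)), ((nat_lit 615), (nat_lit 1000), (nat_lit 729))], ((nat_lit 100), (nat_lit 79), (nat_lit 55))⟩, (nat_lit 3459638), (nat_lit 667), (nat_lit 667), (nat_lit 0), (nat_lit 736053), [(nat_lit 2868480000), (nat_lit 4273920000), (nat_lit 5060880000)], [], [(nat_lit 13352246317), (nat_lit 13401807652), (nat_lit 14459862217), (nat_lit 14579385476), (nat_lit 10667244923), (nat_lit 10713054581), (nat_lit 11790763422), (nat_lit 11747144531)], (nat_lit 1271251), (nat_lit 1271251), (nat_lit 1271251), (nat_lit 1271251), (nat_lit 0), (nat_lit 2118750), [(nat_lit 1695001), (nat_lit 1271251), (nat_lit 1271251)], [(nat_lit 28), (nat_lit 65), (nat_lit 483), (nat_lit 250), (nat_lit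 11)]⟩,
 Rw.none⟩)))))
noncomputable def c7_4 : Tr Lf :=
 (.ord (.trZ (nat_lit 0) (nat_lit 2) (nat_lit 4) (nat_lit 100) (nat_lit 72) (nat_lit 63) (nat_lit 40) (.spl (nat_lit 3) (nat_lit 280) (.spl (nat_lit 1) (nat_lit 220) (.ord (.leaf ⟨(nat_lit 927), (nat_lit 45), (nat_lit 0), (nat_lit 28), (nat_lit 0), (nat_lit 3502), (nat_lit 800), (nat_lit 341), (nat_lit 0), (nat_lit 3041158529987), (nat_lit 423400), [((nat_lit 360), [((nat_lit 21), (nat_lit 1), (nat_lit 664)), ((nat_lit 39), (nat_lit 2), (nat_lit 263))])], ⟨(nat_lit 5), false, true, true, (nat_lit 225), (nat_lit 3162), (nat_lit 3873), [(nat_lit 1478205), (nat_lit 1477844), (nat_lit 1521764), (nat_lit 1522126), (nat_lit 1607248), (nat_lit 1599750), (nat_lit 1650835), (nat_lit 1644060)]⟩, ⟨(nat_lit 4), false, false, false, (nat_lit 125), (nat_lit 3162), (nat_lit 3873), [(nat_lit 1220020), (nat_lit 1233931), (nat_lit 1263549), (nat_lit 1278184), (nat_lit 1349127), (nat_lit 1355902), (nat_lit 1392656),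 (nat_lit 1400154)]⟩, (nat_lit 4374507), (nat_lit 45469929), (nat_lit 15428824), (nat_lit 6101247), (nat_lit 4), (nat_lit 0), [], [⟨(nat_lit 0), (nat_lit 100), (nat_lit 66), (nat_lit 75), (nat_lit 152974846)⟩], [], [],
 ⟨⟨[(nat_lit 40), (nat_lit 60), (nat_lit 80)], [(nat_lit 0), (nat_lit 398), (nat_lit 992)], [((nat_lit 0), (nat_lit 0), (nat_lit 0)), ((nat_lit 1000), (nat_lit 814), (nat_lit 310)), ((nat_lit 1000), (nat_lit 752), (nat_lit 464))], ((nat_lit 73), (nat_lit 100), (nat_lit 55))⟩, (nat_lit 673), (nat_lit 179), (nat_lit 179), (nat_lit 0), (nat_lit 272836), [(nat_lit 1381015216), (nat_lit 1491264726), (nat_lit 1563287874)], [(nat_lit 0), (nat_lit 0), (nat_lit 0)], [(nat_lit 20572146282), (nat_lit 21874695773), (nat_lit 23425108800), (nat_lit 24951311161), (nat_lit 20507416936), (nat_lit 21708377356), (nat_lit 23161062506), (nat_lit 24199630892)], (nat_lit 1271251), (nat_lit 1271251), (nat_lit 1271251), (nat_lit 1271251), (nat_lit 230000), (nat_lit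 780000), [(nat_lit 490000), (nat_lit 780000), (nat_lit 1100000)], [(nat_lit 2), (nat_lit 44), (nat_lit 238), (nat_lit 30), (nat_lit 10)]⟩,
 ⟨⟨[(nat_lit 120), (nat_lit 160), (nat_lit 180)], [(nat_lit 0), (nat_lit 533), (nat_lit 2066)], [((nat_lit 0), (nat_lit 0), (nat_lit 0)), ((nat_lit 960), (nat_lit 1000), (nat_lit 200)), ((nat_lit 615), (nat_lit 1000), (nat_lit 729))], ((nat_lit 100), (nat_lit 79), (nat_lit 55))⟩, (nat_lit 988840), (nat_lit 1087), (nat_lit 1087), (nat_lit 0), (nat_lit 1562325), [(nat_lit 581664000), (nat_lit 866656000), (nat_lit 1026234000)], [], [(nat_lit 2526842488), (nat_lit 2226436956), (nat_lit 2256132560), (nat_lit 2243821393), (nat_lit 4770316130), (nat_lit 4066187430), (nat_lit 3370706180), (nat_lit 2683872380)], (nat_lit 1271251), (nat_lit 1271251), (nat_lit 1271251), (nat_lit 1271251), (nat_lit 0), (nat_lit 2754376), [(nat_lit 1695001), (nat_lit 1271251), (nat_lit 1271251)], [(nat_lit 28), (nat_lit 65), (nat_lit 456), (nat_lit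 225), (nat_lit 11)]⟩,
 ⟨⟨[(nat_lit 120), (nat_lit 160), (nat_lit 180)], [(nat_lit 0), (nat_lit 533), (nat_lit 2066)], [((nat_lit 0), (nat_lit 0), (nat_lit 0)), ((nat_lit 960), (nat_lit 1000), (nat_lit 200)), ((nat_lit 615), (nat_lit 1000), (nat_lit 729))], ((nat_lit 100), (nat_lit 79), (nat_lit 55))⟩, (nat_lit 65561), (nat_lit 300), (nat_lit 840), (nat_lit 1859200), (nat_lit 808952), [(nat_lit 223104000), (nat_lit 332416000), (nat_lit 393624000)], [], [(nat_lit 1770029096), (nat_lit 1684171667), (nat_lit 1528583862), (nat_lit 1509339121), (nat_lit 1584538922), (nat_lit 1392695689), (nat_lit 1768226726), (nat_lit 1460321416)], (nat_lit 1271251), (nat_lit 1271251), (nat_lit 230000), (nat_lit 780000), (nat_lit 0), (nat_lit 2754376), [(nat_lit 1695001), (nat_lit 1271251), (nat_lit 1271251)], [(nat_lit 28), (nat_lit 65), (nat_lit 428), (nat_lit 200), (nat_lit 10)]⟩⟩)) (.leaf ⟨(nat_lit 886), (nat_lit 68), (nat_lit 0), (nat_lit 46), (nat_lit 0), (nat_lit 3629),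 (nat_lit 1113), (nat_lit 645), (nat_lit 0), (nat_lit 42596), (nat_lit 526350), [((nat_lit 360), [((nat_lit 21), (nat_lit 0), (nat_lit 15)), ((nat_lit 39), (nat_lit 2), (nat_lit 871))])], ⟨(nat_lit 5), false, true, true, (nat_lit 238), (nat_lit 3162), (nat_lit 3873), [(nat_lit 1521764), (nat_lit 1522126), (nat_lit 1543529), (nat_lit 1544252), (nat_lit 1650835), (nat_lit 1644060), (nat_lit 1672628), (nat_lit 1666215)]⟩, ⟨(nat_lit 4), false, false, false, (nat_lit 129), (nat_lit 3162), (nat_lit 3873), [(nat_lit 1220020), (nat_lit 1233931), (nat_lit 1285313), (nat_lit 1300309), (nat_lit 1349127), (nat_lit 1355902), (nat_lit 1414421), (nat_lit 1422280)]⟩, (nat_lit 4512218), (nat_lit 44033721), (nat_lit 16635765), (nat_lit 6330514), (nat_lit 4), (nat_lit 0), [], [⟨(nat_lit 0), (nat_lit 100), (nat_lit 66), (nat_lit 78), (nat_lit 255445229)⟩], [], [],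
 ⟨⟨[(nat_lit 40), (nat_lit 60), (nat_lit 80)], [(nat_lit 0), (nat_lit 398), (nat_lit 992)], [((nat_lit 0), (nat_lit 0), (nat_lit 0)), ((nat_lit 1000), (nat_lit 814), (nat_lit 310)), ((nat_lit 1000), (nat_lit 752), (nat_lit 464))], ((nat_lit 73), (nat_lit 100), (nat_lit 55))⟩, (nat_lit 202692), (nat_lit 190), (nat_lit 190), (nat_lit 0), (nat_lit 316272), [(nat_lit 1375020802), (nat_lit 1420117835), (nat_lit 1321992965)], [(nat_lit 0), (nat_lit 0), (nat_lit 0)], [(nat_lit 20116181155), (nat_lit 21801526130), (nat_lit 23611000256), (nat_lit 25164983010), (nat_lit 20094723008), (nat_lit 21239285723), (nat_lit 22633173565), (nat_lit 23980615618)], (nat_lit 1271251), (nat_lit 1271251), (nat_lit 1271251), (nat_lit 1271251), (nat_lit 230000), (nat_lit 780000), [(nat_lit 490000), (nat_lit 780000), (nat_lit 1100000)], [(nat_lit 2), (nat_lit 44), (nat_lit 238), (nat_lit 30), (nat_lit 10)]⟩,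
 ⟨⟨[(nat_lit 100), (nat_lit 140), (nat_lit 160)], [(nat_lit 0), (nat_lit 508), (nat_lit 1689)], [((nat_lit 0), (nat_lit 0), (nat_lit 0)), ((nat_lit 1000), (nat_lit 1000), (nat_lit 198)), ((nat_lit 811), (nat_lit 1000), (nat_lit 671))], ((nat_lit 100), (nat_lit 89), (nat_lit 55))⟩, (nat_lit 1231769), (nat_lit 841), (nat_lit 841), (nat_lit 0), (nat_lit 1213390), [(nat_lit 712500000), (nat_lit 1121988000), (nat_lit 1353408000)], [], [(nat_lit 2957401362), (nat_lit 2962555224), (nat_lit 3030545007), (nat_lit 3068505086), (nat_lit 5070836207), (nat_lit 4568345575), (nat_lit 3799688128), (nat_lit 3828017745)], (nat_lit 1271251), (nat_lit 1271251), (nat_lit 1271251), (nat_lit 1271251), (nat_lit 0), (nat_lit 2754376), [(nat_lit 1412501), (nat_lit 1271251), (nat_lit 1271251)], [(nat_lit 23), (nat_lit 62), (nat_lit 483), (nat_lit 250), (nat_lit 12)]⟩,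
 ⟨⟨[(nat_lit 120), (nat_lit 160), (nat_lit 180)], [(nat_lit 0), (nat_lit 533), (nat_lit 2066)], [((nat_lit 0), (nat_lit 0), (nat_lit 0)), ((nat_lit 960), (nat_lit 1000), (nat_lit 200)), ((nat_lit 615), (nat_lit 1000), (nat_lit 729))], ((nat_lit 100), (nat_lit 79), (nat_lit 55))⟩, (nat_lit 107707), (nat_lit 300), (nat_lit 904), (nat_lit 3054402), (nat_lit 928999), [(nat_lit 366528000), (nat_lit 546112000), (nat_lit 646668000)], [], [(nat_lit 3051462913), (nat_lit 2800434947), (nat_lit 2438921354), (nat_lit 2349941862), (nat_lit 2686658747), (nat_lit 2211445239), (nat_lit 3018787291), (nat_lit 2145184980)], (nat_lit 1271251), (nat_lit 1271251), (nat_lit 230000), (nat_lit 780000), (nat_lit 0), (nat_lit 2754376), [(nat_lit 1695001), (nat_lit 1271251), (nat_lit 1271251)], [(nat_lit 28), (nat_lit 65), (nat_lit 428), (nat_lit 200), (nat_lit 10)]⟩⟩)) (.trX (nat_lit 5) (nat_lit 3) (nat_lit 4) (nat_lit 100) (nat_lit 80) (nat_lit 100) (nat_lit 340) (.spl (nat_lit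 5) (nat_lit 120) (.spl (nat_lit 1) (nat_lit 220) (.ord (.trX (nat_lit 3) (nat_lit 0) (nat_lit 1) (nat_lit 72) (nat_lit 63) (nat_lit 100) (nat_lit 360) (.spl (nat_lit 6) (nat_lit 16) (.leaf ⟨(nat_lit 864), (nat_lit 132), (nat_lit 0), (nat_lit 4), (nat_lit 0), (nat_lit 3165), (nat_lit 1321), (nat_lit 63), (nat_lit 0), (nat_lit 4976637788678), (nat_lit 508250), [((nat_lit 360), [((nat_lit 21), (nat_lit 0), (nat_lit 29)), ((nat_lit 39), (nat_lit 2), (nat_lit 835))])], ⟨(nat_lit 7), false, true, true, (nat_lit 275), (nat_lit 3162), (nat_lit 3873), [(nat_lit 1607248), (nat_lit 1599750), (nat_lit 1650835), (nat_lit 1644060), (nat_lit 1736292), (nat_lit 1721657), (nat_lit 1779878), (nat_lit 1765967)]⟩, ⟨(nat_lit 4), false, false, false, (nat_lit 125), (nat_lit 3162), (nat_lit 3873), [(nat_lit 1220020), (nat_lit 1233931), (nat_lit 1263549), (nat_lit 1278184), (nat_lit 1349127), (nat_lit 1355902), (nat_lit 1392656), (nat_lit 1400154)]⟩, (nat_lit 4652029), (nat_lit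 41021581), (nat_lit 20217477), (nat_lit 5760942), (nat_lit 4), (nat_lit 0), [⟨(nat_lit 1), (nat_lit 75), (nat_lit 66), (nat_lit 100), (nat_lit 213760193)⟩], [⟨(nat_lit 0), (nat_lit 100), (nat_lit 60), (nat_lit 86), (nat_lit 156798663)⟩], [⟨(nat_lit 0), (nat_lit 100), (nat_lit 100), (nat_lit 20), (nat_lit 17166841)⟩], [],
 ⟨⟨[(nat_lit 40), (nat_lit 60), (nat_lit 80)], [(nat_lit 0), (nat_lit 398), (nat_lit 992)], [((nat_lit 0), (nat_lit 0), (nat_lit 0)), ((nat_lit 1000), (nat_lit 814), (nat_lit 310)), ((nat_lit 1000), (nat_lit 752), (nat_lit 464))], ((nat_lit 77), (nat_lit 100), (nat_lit 42))⟩, (nat_lit 698191), (nat_lit 198), (nat_lit 198), (nat_lit 0), (nat_lit 269778), [(nat_lit 1389124813), (nat_lit 1474356175), (nat_lit 1418387025)], [(nat_lit 0), (nat_lit 0), (nat_lit 0)], [(nat_lit 23373072306), (nat_lit 24384529521), (nat_lit 27514558164), (nat_lit 28695505138), (nat_lit 23358263333), (nat_lit 24296030295), (nat_lit 26684853050), (nat_lit 27589873940)],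 (nat_lit 1271251), (nat_lit 1271251), (nat_lit 1271251), (nat_lit 1271251), (nat_lit 230000), (nat_lit 780000), [(nat_lit 490000), (nat_lit 780000), (nat_lit 1100000)], [(nat_lit 2), (nat_lit 44), (nat_lit 238), (nat_lit 30), (nat_lit 9)]⟩,
 ⟨⟨[(nat_lit 120), (nat_lit 140), (nat_lit 160)], [(nat_lit 0), (nat_lit 266), (nat_lit 862)], [((nat_lit 0), (nat_lit 0), (nat_lit 0)), ((nat_lit 960), (nat_lit 1000), (nat_lit 200)), ((nat_lit 874), (nat_lit 1000), (nat_lit 406))], ((nat_lit 100), (nat_lit 88), (nat_lit 39))⟩, (nat_lit 1144431), (nat_lit 768), (nat_lit 768), (nat_lit 0), (nat_lit 1091146), [(nat_lit 1083648000), (nat_lit 1338512000), (nat_lit 1614592000)], [], [(nat_lit 5070685624), (nat_lit 5028179691), (nat_lit 5239185346), (nat_lit 5174910665), (nat_lit 4369311739), (nat_lit 4320320359), (nat_lit 4505395112), (nat_lit 4436857698)], (nat_lit 1271251), (nat_lit 1271251), (nat_lit 1271251), (nat_lit 1271251), (nat_lit 0), (nat_lit 780000), [(nat_lit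 1695001), (nat_lit 1271251), (nat_lit 1271251)], [(nat_lit 27), (nat_lit 62), (nat_lit 401), (nat_lit 175), (nat_lit 10)]⟩,
 ⟨⟨[(nat_lit 120), (nat_lit 140), (nat_lit 160)], [(nat_lit 0), (nat_lit 266), (nat_lit 862)], [((nat_lit 0), (nat_lit 0), (nat_lit 0)), ((nat_lit 960), (nat_lit 1000), (nat_lit 200)), ((nat_lit 874), (nat_lit 1000), (nat_lit 406))], ((nat_lit 100), (nat_lit 88), (nat_lit 39))⟩, (nat_lit 8211), (nat_lit 300), (nat_lit 534), (nat_lit 265600), (nat_lit 337773), [(nat_lit 31872000), (nat_lit 39368000), (nat_lit 47488000)], [], [(nat_lit 274359824), (nat_lit 207206675), (nat_lit 158282584), (nat_lit 157057022), (nat_lit 138838097), (nat_lit 137267853), (nat_lit 147554604), (nat_lit 109127290)], (nat_lit 1271251), (nat_lit 1271251), (nat_lit 230000), (nat_lit 780000), (nat_lit 0), (nat_lit 780000), [(nat_lit 1695001), (nat_lit 1271251), (nat_lit 1271251)], [(nat_lit 27), (nat_lit 62), (nat_lit 345), (nat_lit 125), (nat_lit 9)]⟩⟩) (.leaf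 ⟨(nat_lit 665), (nat_lit 335), (nat_lit 0), (nat_lit 0), (nat_lit 0), (nat_lit 3326), (nat_lit 3146), (nat_lit 0), (nat_lit 0), (nat_lit 9317835441902), (nat_lit 339150), [((nat_lit 360), [((nat_lit 21), (nat_lit 0), (nat_lit 171)), ((nat_lit 39), (nat_lit 2), (nat_lit 494))])], ⟨(nat_lit 7), false, true, true, (nat_lit 275), (nat_lit 3162), (nat_lit 3873), [(nat_lit 1607248), (nat_lit 1599750), (nat_lit 1650835), (nat_lit 1644060), (nat_lit 1736292), (nat_lit 1721657), (nat_lit 1779878), (nat_lit 1765967)]⟩, ⟨(nat_lit 4), false, false, false, (nat_lit 125), (nat_lit 3162), (nat_lit 3873), [(nat_lit 1220020), (nat_lit 1233931), (nat_lit 1263549), (nat_lit 1278184), (nat_lit 1349127), (nat_lit 1355902), (nat_lit 1392656), (nat_lit 1400154)]⟩, (nat_lit 4652029), (nat_lit 41021581), (nat_lit 20217477), (nat_lit 5760942), (nat_lit 4), (nat_lit 0), [⟨(nat_lit 1), (nat_lit 75), (nat_lit 66), (nat_lit 100), (nat_lit 155562682)⟩], [⟨(nat_lit 0), (nat_lit 100),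 (nat_lit 60), (nat_lit 86), (nat_lit 85599737)⟩], [], [],
 ⟨⟨[(nat_lit 40), (nat_lit 60), (nat_lit 80)], [(nat_lit 0), (nat_lit 398), (nat_lit 992)], [((nat_lit 0), (nat_lit 0), (nat_lit 0)), ((nat_lit 1000), (nat_lit 814), (nat_lit 310)), ((nat_lit 1000), (nat_lit 752), (nat_lit 464))], ((nat_lit 73), (nat_lit 100), (nat_lit 55))⟩, (nat_lit 868911), (nat_lit 167), (nat_lit 167), (nat_lit 0), (nat_lit 143448), [(nat_lit 1516612414), (nat_lit 1937453691), (nat_lit 2341119309)], [(nat_lit 0), (nat_lit 0), (nat_lit 0)], [(nat_lit 23852381261), (nat_lit 24948867522), (nat_lit 27844282421), (nat_lit 29050585405), (nat_lit 23672745204), (nat_lit 24688773622), (nat_lit 27062822964), (nat_lit 27947488896)], (nat_lit 1271251), (nat_lit 1271251), (nat_lit 1271251), (nat_lit 1271251), (nat_lit 230000), (nat_lit 780000), [(nat_lit 490000), (nat_lit 780000), (nat_lit 1100000)], [(nat_lit 2), (nat_lit 44), (nat_lit 238), (nat_lit 30), (nat_lit 9)]⟩,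
 ⟨⟨[(nat_lit 120), (nat_lit 160), (nat_lit 180)], [(nat_lit 0), (nat_lit 533), (nat_lit 2066)], [((nat_lit 0), (nat_lit 0), (nat_lit 0)), ((nat_lit 960), (nat_lit 1000), (nat_lit 200)), ((nat_lit 615), (nat_lit 1000), (nat_lit 729))], ((nat_lit 100), (nat_lit 79), (nat_lit 55))⟩, (nat_lit 3645906), (nat_lit 598), (nat_lit 598), (nat_lit 0), (nat_lit 555104), [(nat_lit 2669280000), (nat_lit 3977120000), (nat_lit 4709430000)], [], [(nat_lit 11900090580), (nat_lit 11893880503), (nat_lit 12840883796), (nat_lit 12818089405), (nat_lit 10048943077), (nat_lit 10095888550), (nat_lit 10948676089), (nat_lit 10912065657)], (nat_lit 1271251), (nat_lit 1271251), (nat_lit 1271251), (nat_lit 1271251), (nat_lit 0), (nat_lit 780000), [(nat_lit 1695001), (nat_lit 1271251), (nat_lit 1271251)], [(nat_lit 28), (nat_lit 65), (nat_lit 401), (nat_lit 175), (nat_lit 9)]⟩,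
 Rw.none⟩)))) (.leaf ⟨(nat_lit 89), (nat_lit 906), (nat_lit 0), (nat_lit 5), (nat_lit 0), (nat_lit 4027), (nat_lit 7563), (nat_lit 72), (nat_lit 0), (nat_lit 19927049106787), (nat_lit 356000), [((nat_lit 360), [((nat_lit 39), (nat_lit 5), (nat_lit 89))])], ⟨(nat_lit 7), false, true, true, (nat_lit 292), (nat_lit 3162), (nat_lit 3873), [(nat_lit 1650835), (nat_lit 1644060), (nat_lit 1672628), (nat_lit 1666215), (nat_lit 1796008), (nat_lit 1781205), (nat_lit 1817802), (nat_lit 1803360)]⟩, ⟨(nat_lit 4), false, false, false, (nat_lit 129), (nat_lit 3162), (nat_lit 3873), [(nat_lit 1220020), (nat_lit 1233931), (nat_lit 1285313), (nat_lit 1300309), (nat_lit 1349127), (nat_lit 1355902), (nat_lit 1414421), (nat_lit 1422280)]⟩, (nat_lit 4754192), (nat_lit 39411024), (nat_lit 21667178), (nat_lit 5921798), (nat_lit 4), (nat_lit 0), [], [⟨(nat_lit 0), (nat_lit 100), (nat_lit 61), (nat_lit 92), (nat_lit 397194)⟩], [⟨(nat_lit 0), (nat_lit 100), (nat_lit 99), (nat_lit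 20), (nat_lit 35903664)⟩], [],
 ⟨⟨[(nat_lit 40), (nat_lit 60), (nat_lit 80)], [(nat_lit 0), (nat_lit 398), (nat_lit 992)], [((nat_lit 0), (nat_lit 0), (nat_lit 0)), ((nat_lit 1000), (nat_lit 814), (nat_lit 310)), ((nat_lit 1000), (nat_lit 752), (nat_lit 464))], ((nat_lit 73), (nat_lit 100), (nat_lit 55))⟩, (nat_lit 3311794), (nat_lit 213), (nat_lit 213), (nat_lit 0), (nat_lit 316272), [(nat_lit 1915516803), (nat_lit 2818195936), (nat_lit 3389525600)], [(nat_lit 0), (nat_lit 0), (nat_lit 0)], [(nat_lit 24356499503), (nat_lit 25834600299), (nat_lit 29978682443), (nat_lit 31254970123), (nat_lit 24098886107), (nat_lit 25224675553), (nat_lit 28253923618), (nat_lit 29450321084)], (nat_lit 1271251), (nat_lit 1271251), (nat_lit 1271251), (nat_lit 1271251), (nat_lit 230000), (nat_lit 780000), [(nat_lit 490000), (nat_lit 780000), (nat_lit 1100000)], [(nat_lit 2), (nat_lit 44), (nat_lit 238), (nat_lit 30), (nat_lit 9)]⟩,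
 ⟨⟨[(nat_lit 100), (nat_lit 140), (nat_lit 160)], [(nat_lit 0), (nat_lit 508), (nat_lit 1689)], [((nat_lit 0), (nat_lit 0), (nat_lit 0)), ((nat_lit 1000), (nat_lit 1000), (nat_lit 198)), ((nat_lit 811), (nat_lit 1000), (nat_lit 671))], ((nat_lit 100), (nat_lit 89), (nat_lit 55))⟩, (nat_lit 10264606), (nat_lit 654), (nat_lit 654), (nat_lit 0), (nat_lit 847575), [(nat_lit 5693750000), (nat_lit 8966062000), (nat_lit 10815392000)], [], [(nat_lit 28501999301), (nat_lit 28706596772), (nat_lit 31587280567), (nat_lit 32048867810), (nat_lit 24967551712), (nat_lit 25123925181), (nat_lit 27645400516), (nat_lit 27680200905)], (nat_lit 1271251), (nat_lit 1271251), (nat_lit 1271251), (nat_lit 1271251), (nat_lit 0), (nat_lit 780000), [(nat_lit 1412501), (nat_lit 1271251), (nat_lit 1271251)], [(nat_lit 23), (nat_lit 62), (nat_lit 428), (nat_lit 200), (nat_lit 11)]⟩,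
 ⟨⟨[(nat_lit 120), (nat_lit 160), (nat_lit 180)], [(nat_lit 0), (nat_lit 533), (nat_lit 2066)], [((nat_lit 0), (nat_lit 0), (nat_lit 0)), ((nat_lit 960), (nat_lit 1000), (nat_lit 200)), ((nat_lit 615), (nat_lit 1000), (nat_lit 729))], ((nat_lit 100), (nat_lit 79), (nat_lit 55))⟩, (nat_lit 774973), (nat_lit 300), (nat_lit 642), (nat_lit 332000), (nat_lit 379591), [(nat_lit 39840000), (nat_lit 59360000), (nat_lit 70290000)], [], [(nat_lit 334883003), (nat_lit 306717332), (nat_lit 266370425), (nat_lit 253017654), (nat_lit 236876920), (nat_lit 229951915), (nat_lit 202273364), (nat_lit 195263042)], (nat_lit 1271251), (nat_lit 1271251), (nat_lit 230000), (nat_lit 780000), (nat_lit 0), (nat_lit 780000), [(nat_lit 1695001), (nat_lit 1271251), (nat_lit 1271251)], [(nat_lit 28), (nat_lit 65), (nat_lit 345), (nat_lit 125), (nat_lit 9)]⟩⟩)) (.spl (nat_lit 1) (nat_lit 220) (.ord (.trX (nat_lit 3) (nat_lit 0) (nat_lit 1) (nat_lit 72) (nat_lit 63) (nat_lit 100) (nat_lit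 360) (.leaf ⟨(nat_lit 865), (nat_lit 0), (nat_lit 0), (nat_lit 135), (nat_lit 0), (nat_lit 3136), (nat_lit 1327), (nat_lit 2043), (nat_lit 0), (nat_lit 282978404961), (nat_lit 508850), [((nat_lit 360), [((nat_lit 21), (nat_lit 0), (nat_lit 29)), ((nat_lit 39), (nat_lit 2), (nat_lit 836))])], ⟨(nat_lit 7), false, true, true, (nat_lit 275), (nat_lit 3162), (nat_lit 3873), [(nat_lit 1607248), (nat_lit 1599750), (nat_lit 1650835), (nat_lit 1644060), (nat_lit 1736292), (nat_lit 1721657), (nat_lit 1779878), (nat_lit 1765967)]⟩, ⟨(nat_lit 4), false, false, false, (nat_lit 125), (nat_lit 3162), (nat_lit 3873), [(nat_lit 1220020), (nat_lit 1233931), (nat_lit 1263549), (nat_lit 1278184), (nat_lit 1349127), (nat_lit 1355902), (nat_lit 1392656), (nat_lit 1400154)]⟩, (nat_lit 4652029), (nat_lit 41021581), (nat_lit 20217477), (nat_lit 5760942), (nat_lit 0), (nat_lit 0), [⟨(nat_lit 1), (nat_lit 75), (nat_lit 66), (nat_lit 100), (nat_lit 248011948)⟩], [⟨(nat_lit 0),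 (nat_lit 100), (nat_lit 66), (nat_lit 75), (nat_lit 236514281)⟩], [], [],
 ⟨⟨[(nat_lit 40), (nat_lit 60), (nat_lit 80)], [(nat_lit 0), (nat_lit 398), (nat_lit 992)], [((nat_lit 0), (nat_lit 0), (nat_lit 0)), ((nat_lit 1000), (nat_lit 814), (nat_lit 310)), ((nat_lit 1000), (nat_lit 752), (nat_lit 464))], ((nat_lit 73), (nat_lit 100), (nat_lit 55))⟩, (nat_lit 789645), (nat_lit 199), (nat_lit 199), (nat_lit 0), (nat_lit 272836), [(nat_lit 1388471739), (nat_lit 1464288089), (nat_lit 1422572911)], [(nat_lit 0), (nat_lit 0), (nat_lit 0)], [(nat_lit 23303062626), (nat_lit 24355145232), (nat_lit 27455166838), (nat_lit 28631546580), (nat_lit 23301165916), (nat_lit 24307221668), (nat_lit 26735875630), (nat_lit 27637429680)], (nat_lit 1271251), (nat_lit 1271251), (nat_lit 1271251), (nat_lit 1271251), (nat_lit 230000), (nat_lit 780000), [(nat_lit 490000), (nat_lit 780000), (nat_lit 1100000)], [(nat_lit 2), (nat_lit 44), (nat_lit 238), (nat_lit 30), (nat_lit 9)]⟩,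
 ⟨⟨[(nat_lit 120), (nat_lit 160), (nat_lit 180)], [(nat_lit 0), (nat_lit 533), (nat_lit 2066)], [((nat_lit 0), (nat_lit 0), (nat_lit 0)), ((nat_lit 960), (nat_lit 1000), (nat_lit 200)), ((nat_lit 615), (nat_lit 1000), (nat_lit 729))], ((nat_lit 100), (nat_lit 79), (nat_lit 55))⟩, (nat_lit 1163244), (nat_lit 968), (nat_lit 968), (nat_lit 0), (nat_lit 1562325), [(nat_lit 1075680000), (nat_lit 1602720000), (nat_lit 1897830000)], [], [(nat_lit 4378191227), (nat_lit 4307245495), (nat_lit 4438448744), (nat_lit 4421804959), (nat_lit 4187481384), (nat_lit 4142444927), (nat_lit 4643499206), (nat_lit 4631167622)], (nat_lit 1271251), (nat_lit 1271251), (nat_lit 1271251), (nat_lit 1271251), (nat_lit 780000), (nat_lit 2581251), [(nat_lit 1695001), (nat_lit 1271251), (nat_lit 1271251)], [(nat_lit 28), (nat_lit 65), (nat_lit 483), (nat_lit 250), (nat_lit 11)]⟩,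
 ⟨⟨[(nat_lit 120), (nat_lit 160), (nat_lit 180)], [(nat_lit 0), (nat_lit 533), (nat_lit 2066)], [((nat_lit 0), (nat_lit 0), (nat_lit 0)), ((nat_lit 960), (nat_lit 1000), (nat_lit 200)), ((nat_lit 615), (nat_lit 1000), (nat_lit 729))], ((nat_lit 100), (nat_lit 79), (nat_lit 55))⟩, (nat_lit 316098), (nat_lit 300), (nat_lit 750), (nat_lit 8964000), (nat_lit 808952), [(nat_lit 1075680000), (nat_lit 1602720000), (nat_lit 1897830000)], [], [(nat_lit 6244869398), (nat_lit 6108912023), (nat_lit 5255402373), (nat_lit 5117961033), (nat_lit 8931857809), (nat_lit 7005781253), (nat_lit 9896734939), (nat_lit 8021518868)], (nat_lit 1271251), (nat_lit 1271251), (nat_lit 230000), (nat_lit 780000), (nat_lit 780000), (nat_lit 2581251), [(nat_lit 1695001), (nat_lit 1271251), (nat_lit 1271251)], [(nat_lit 28), (nat_lit 65), (nat_lit 401), (nat_lit 175), (nat_lit 9)]⟩⟩))) (.leaf ⟨(nat_lit 414), (nat_lit 92), (nat_lit 0), (nat_lit 494), (nat_lit 0), (nat_lit 3663), (nat_lit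 5346), (nat_lit 6078), (nat_lit 0), (nat_lit 11861), (nat_lit 147000), [((nat_lit 360), [((nat_lit 21), (nat_lit 0), (nat_lit 356)), ((nat_lit 21), (nat_lit 2), (nat_lit 58))])], ⟨(nat_lit 7), false, true, true, (nat_lit 292), (nat_lit 3162), (nat_lit 3873), [(nat_lit 1650835), (nat_lit 1644060), (nat_lit 1672628), (nat_lit 1666215), (nat_lit 1796008), (nat_lit 1781205), (nat_lit 1817802), (nat_lit 1803360)]⟩, ⟨(nat_lit 4), false, false, false, (nat_lit 129), (nat_lit 3162), (nat_lit 3873), [(nat_lit 1220020), (nat_lit 1233931), (nat_lit 1285313), (nat_lit 1300309), (nat_lit 1349127), (nat_lit 1355902), (nat_lit 1414421), (nat_lit 1422280)]⟩, (nat_lit 4754192), (nat_lit 39411024), (nat_lit 21667178), (nat_lit 5921798), (nat_lit 4), (nat_lit 0), [], [⟨(nat_lit 0), (nat_lit 100), (nat_lit 66), (nat_lit 78), (nat_lit 367559070)⟩], [], [],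
 ⟨⟨[(nat_lit 40), (nat_lit 60), (nat_lit 80)], [(nat_lit 0), (nat_lit 398), (nat_lit 992)], [((nat_lit 0), (nat_lit 0), (nat_lit 0)), ((nat_lit 1000), (nat_lit 814), (nat_lit 310)), ((nat_lit 1000), (nat_lit 752), (nat_lit 464))], ((nat_lit 73), (nat_lit 100), (nat_lit 55))⟩, (nat_lit 4307904), (nat_lit 213), (nat_lit 213), (nat_lit 0), (nat_lit 316272), [(nat_lit 1679503202), (nat_lit 2717924426), (nat_lit 3421501600)], [(nat_lit 0), (nat_lit 0), (nat_lit 0)], [(nat_lit 24059232781), (nat_lit 25226576129), (nat_lit 29201773242), (nat_lit 30423516637), (nat_lit 23955000158), (nat_lit 25032287332), (nat_lit 27924242192), (nat_lit 28898799295)], (nat_lit 1271251), (nat_lit 1271251), (nat_lit 1271251), (nat_lit 1271251), (nat_lit 230000), (nat_lit 780000), [(nat_lit 490000), (nat_lit 780000), (nat_lit 1100000)], [(nat_lit 2), (nat_lit 44), (nat_lit 238), (nat_lit 30), (nat_lit 9)]⟩,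
 ⟨⟨[(nat_lit 100), (nat_lit 140), (nat_lit 160)], [(nat_lit 0), (nat_lit 508), (nat_lit 1689)], [((nat_lit 0), (nat_lit 0), (nat_lit 0)), ((nat_lit 1000), (nat_lit 1000), (nat_lit 198)), ((nat_lit 811), (nat_lit 1000), (nat_lit 671))], ((nat_lit 100), (nat_lit 89), (nat_lit 55))⟩, (nat_lit 7650608), (nat_lit 724), (nat_lit 724), (nat_lit 0), (nat_lit 1213390), [(nat_lit 3662500000), (nat_lit 5767412000), (nat_lit 6956992000)], [], [(nat_lit 14589302187), (nat_lit 14611997078), (nat_lit 15884189137), (nat_lit 16249008359), (nat_lit 16066739438), (nat_lit 16355076301), (nat_lit 20210348414), (nat_lit 20309624248)], (nat_lit 1271251), (nat_lit 1271251), (nat_lit 1271251), (nat_lit 1271251), (nat_lit 780000), (nat_lit 2581251), [(nat_lit 1412501), (nat_lit 1271251), (nat_lit 1271251)], [(nat_lit 23), (nat_lit 62), (nat_lit 483), (nat_lit 250), (nat_lit 12)]⟩,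
 ⟨⟨[(nat_lit 120), (nat_lit 160), (nat_lit 180)], [(nat_lit 0), (nat_lit 533), (nat_lit 2066)], [((nat_lit 0), (nat_lit 0), (nat_lit 0)), ((nat_lit 960), (nat_lit 1000), (nat_lit 200)), ((nat_lit 615), (nat_lit 1000), (nat_lit 729))], ((nat_lit 100), (nat_lit 79), (nat_lit 55))⟩, (nat_lit 1507016), (nat_lit 300), (nat_lit 802), (nat_lit 32801600), (nat_lit 928999), [(nat_lit 3936192000), (nat_lit 5864768000), (nat_lit 6944652000)], [], [(nat_lit 24986166593), (nat_lit 24474208030), (nat_lit 22247102019), (nat_lit 21623257742), (nat_lit 30628209202), (nat_lit 23229846676), (nat_lit 33701968182), (nat_lit 25333713203)], (nat_lit 1271251), (nat_lit 1271251), (nat_lit 230000), (nat_lit 780000), (nat_lit 780000), (nat_lit 2581251), [(nat_lit 1695001), (nat_lit 1271251), (nat_lit 1271251)], [(nat_lit 28), (nat_lit 65), (nat_lit 401), (nat_lit 175), (nat_lit 9)]⟩⟩)))))))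
noncomputable def c7_5 : Tr Lf :=
 (.spl (nat_lit 0) (nat_lit 350) (.leaf ⟨(nat_lit 1000), (nat_lit 0), (nat_lit 0), (nat_lit 0), (nat_lit 0), (nat_lit 3484), (nat_lit 0), (nat_lit 0), (nat_lit 0), (nat_lit 40672), (nat_lit 600000), [((nat_lit 350), [((nat_lit 39), (nat_lit 2), (nat_lit 1000))])], ⟨(nat_lit 3), false, false, false, (nat_lit 105), (nat_lit 3535), (nat_lit 3873), [(nat_lit 1106345), (nat_lit 1114069), (nat_lit 1237068), (nat_lit 1245748), (nat_lit 1283782), (nat_lit 1286665), (nat_lit 1414519), (nat_lit 1418358)]⟩, ⟨(nat_lit 3), false, false, true, (nat_lit 165), (nat_lit 3535), (nat_lit 3873), [(nat_lit 1283782), (nat_lit 1286665), (nat_lit 1349157), (nat_lit 1352518), (nat_lit 1477347), (nat_lit 1474949), (nat_lit 1542727), (nat_lit 1540807)]⟩, (nat_lit 3560947), (nat_lit 52168872), (nat_lit 4928397), (nat_lit 9902731), (nat_lit 0), (nat_lit 0), [⟨(nat_lit 0), (nat_lit 100), (nat_lit 68), (nat_lit 89), (nat_lit 166687395)⟩], [], [],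 [],
 ⟨⟨[(nat_lit 40), (nat_lit 60), (nat_lit 80)], [(nat_lit 0), (nat_lit 398), (nat_lit 992)], [((nat_lit 0), (nat_lit 0), (nat_lit 0)), ((nat_lit 1000), (nat_lit 814), (nat_lit 310)), ((nat_lit 1000), (nat_lit 752), (nat_lit 464))], ((nat_lit 73), (nat_lit 100), (nat_lit 55))⟩, (nat_lit 3778), (nat_lit 184), (nat_lit 184), (nat_lit 0), (nat_lit 259969), [(nat_lit 1308800010), (nat_lit 1144000031), (nat_lit 904799969)], [(nat_lit 0), (nat_lit 0), (nat_lit 0)], [(nat_lit 18942395689), (nat_lit 19985152591), (nat_lit 17811326757), (nat_lit 18484425545), (nat_lit 22115100589), (nat_lit 22964964311), (nat_lit 20588092313), (nat_lit 21167722773)], (nat_lit 1271251), (nat_lit 1271251), (nat_lit 54688), (nat_lit 780000), (nat_lit 780000), (nat_lit 1762501), [(nat_lit 490000), (nat_lit 780000), (nat_lit 1100000)], [(nat_lit 2), (nat_lit 44), (nat_lit 317), (nat_lit 100), (nat_lit 14)]⟩,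
 Rw.none,
 Rw.none⟩) (.leaf ⟨(nat_lit 1000), (nat_lit 0), (nat_lit 0), (nat_lit 0), (nat_lit 0), (nat_lit 3392), (nat_lit 0), (nat_lit 0), (nat_lit 0), (nat_lit 2541), (nat_lit 680400), [((nat_lit 360), [((nat_lit 39), (nat_lit 2), (nat_lit 799)), ((nat_lit 21), (nat_lit 2), (nat_lit 201))])], ⟨(nat_lit 3), false, false, false, (nat_lit 108), (nat_lit 3162), (nat_lit 3536), [(nat_lit 1114056), (nat_lit 1121835), (nat_lit 1245722), (nat_lit 1254714), (nat_lit 1286665), (nat_lit 1289472), (nat_lit 1418344), (nat_lit 1422365)]⟩, ⟨(nat_lit 3), false, false, true, (nat_lit 166), (nat_lit 3162), (nat_lit 3536), [(nat_lit 1286665), (nat_lit 1289472), (nat_lit 1352511), (nat_lit 1355925), (nat_lit 1474949), (nat_lit 1472332), (nat_lit 1540807), (nat_lit 1538797)]⟩, (nat_lit 3595251), (nat_lit 51991219), (nat_lit 5094091), (nat_lit 9914690), (nat_lit 0), (nat_lit 0), [⟨(nat_lit 0), (nat_lit 100), (nat_lit 61), (nat_lit 92), (nat_lit 178774430)⟩], [], [], [],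
 ⟨⟨[(nat_lit 40), (nat_lit 60), (nat_lit 80)], [(nat_lit 0), (nat_lit 600), (nat_lit 1195)], [((nat_lit 0), (nat_lit 0), (nat_lit 0)), ((nat_lit 1000), (nat_lit 725), (nat_lit 454)), ((nat_lit 1000), (nat_lit 720), (nat_lit 465))], ((nat_lit 69), (nat_lit 100), (nat_lit 56))⟩, (nat_lit 118868), (nat_lit 202), (nat_lit 202), (nat_lit 0), (nat_lit 301971), [(nat_lit 1304458401), (nat_lit 1111585476), (nat_lit 593204400)], [(nat_lit 0), (nat_lit 0), (nat_lit 0)], [(nat_lit 19816098980), (nat_lit 20843457359), (nat_lit 18663962848), (nat_lit 19285648794), (nat_lit 22805463434), (nat_lit 23643598254), (nat_lit 21280464407), (nat_lit 21869905204)], (nat_lit 1271251), (nat_lit 1271251), (nat_lit 54688), (nat_lit 780000), (nat_lit 780000), (nat_lit 1762501), [(nat_lit 490000), (nat_lit 780000), (nat_lit 1100000)], [(nat_lit 2), (nat_lit 44), (nat_lit 317), (nat_lit 100), (nat_lit 14)]⟩,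
 Rw.none,
 Rw.none⟩))
noncomputable def c7_6 : Tr Lf :=
 (.trX (nat_lit 5) (nat_lit 4) (nat_lit 3) (nat_lit 100) (nat_lit 76) (nat_lit 82) (nat_lit 340) (.spl (nat_lit 2) (nat_lit 160) (.trX (nat_lit 4) (nat_lit 0) (nat_lit 2) (nat_lit 73) (nat_lit 85) (nat_lit 100) (nat_lit 320) (.spl (nat_lit 1) (nat_lit 180) (.leaf ⟨(nat_lit 1000), (nat_lit 0), (nat_lit 0), (nat_lit 0), (nat_lit 961), (nat_lit 3380), (nat_lit 0), (nat_lit 0), (nat_lit 0), (nat_lit 7921), (nat_lit 524600), [((nat_lit 360), [((nat_lit 21), (nat_lit 1), (nat_lit 377)), ((nat_lit 39), (nat_lit 2), (nat_lit 623))])], ⟨(nat_lit 3), false, false, false, (nat_lit 81), (nat_lit 3162), (nat_lit 3873), [(nat_lit 1106311), (nat_lit 1121813), (nat_lit 1171604), (nat_lit 1188192), (nat_lit 1219261), (nat_lit 1228519), (nat_lit 1284573), (nat_lit 1294916)]⟩, ⟨(nat_lit 6), false, false, true, (nat_lit 224), (nat_lit 3162), (nat_lit 3873), [(nat_lit 1477347), (nat_lit 1472332), (nat_lit 1520934),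 (nat_lit 1516642), (nat_lit 1606390), (nat_lit 1594239), (nat_lit 1649977), (nat_lit 1638549)]⟩, (nat_lit 3811222), (nat_lit 48096954), (nat_lit 3219426), (nat_lit 15683620), (nat_lit 0), (nat_lit 0), [⟨(nat_lit 0), (nat_lit 100), (nat_lit 68), (nat_lit 58), (nat_lit 254849946)⟩], [⟨(nat_lit 1), (nat_lit 85), (nat_lit 73), (nat_lit 100), (nat_lit 211945257)⟩], [], [],
 ⟨⟨[(nat_lit 40), (nat_lit 60), (nat_lit 80)], [(nat_lit 0), (nat_lit 398), (nat_lit 992)], [((nat_lit 0), (nat_lit 0), (nat_lit 0)), ((nat_lit 1000), (nat_lit 814), (nat_lit 310)), ((nat_lit 1000), (nat_lit 752), (nat_lit 464))], ((nat_lit 73), (nat_lit 100), (nat_lit 55))⟩, (nat_lit 0), (nat_lit 212), (nat_lit 212), (nat_lit 0), (nat_lit 303492), [(nat_lit 1326292801), (nat_lit 1239908802), (nat_lit 1136127198)], [(nat_lit 0), (nat_lit 0), (nat_lit 0)], [(nat_lit 22149755183), (nat_lit 23621263935), (nat_lit 21454288943), (nat_lit 22493657003), (nat_lit 26274075385), (nat_lit 27653061080),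 (nat_lit 24335208943), (nat_lit 25522738480)], (nat_lit 1271251), (nat_lit 1271251), (nat_lit 54688), (nat_lit 490000), (nat_lit 1271251), (nat_lit 1271251), [(nat_lit 490000), (nat_lit 780000), (nat_lit 1100000)], [(nat_lit 2), (nat_lit 44), (nat_lit 226), (nat_lit 20), (nat_lit 9)]⟩,
 Rw.none,
 Rw.none⟩) (.trZ (nat_lit 0) (nat_lit 1) (nat_lit 3) (nat_lit 100) (nat_lit 72) (nat_lit 63) (nat_lit 40) (.spl (nat_lit 1) (nat_lit 220) (.leaf ⟨(nat_lit 1000), (nat_lit 0), (nat_lit 0), (nat_lit 0), (nat_lit 0), (nat_lit 3450), (nat_lit 0), (nat_lit 0), (nat_lit 0), (nat_lit 0), (nat_lit 490200), [((nat_lit 360), [((nat_lit 21), (nat_lit 1), (nat_lit 549)), ((nat_lit 39), (nat_lit 2), (nat_lit 451))])], ⟨(nat_lit 4), false, false, false, (nat_lit 112), (nat_lit 3162), (nat_lit 3873), [(nat_lit 1220020), (nat_lit 1233931), (nat_lit 1263549), (nat_lit 1278184), (nat_lit 1284573), (nat_lit 1294916), (nat_lit 1328103), (nat_lit 1339169)]⟩, ⟨(nat_lit 6), false,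 false, true, (nat_lit 224), (nat_lit 3162), (nat_lit 3873), [(nat_lit 1477347), (nat_lit 1472332), (nat_lit 1520934), (nat_lit 1516642), (nat_lit 1606390), (nat_lit 1594239), (nat_lit 1649977), (nat_lit 1638549)]⟩, (nat_lit 4216350), (nat_lit 46339044), (nat_lit 5229832), (nat_lit 15431124), (nat_lit 0), (nat_lit 0), [⟨(nat_lit 0), (nat_lit 100), (nat_lit 66), (nat_lit 75), (nat_lit 322905727)⟩], [⟨(nat_lit 1), (nat_lit 85), (nat_lit 73), (nat_lit 100), (nat_lit 227404666)⟩], [], [],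
 ⟨⟨[(nat_lit 40), (nat_lit 60), (nat_lit 80)], [(nat_lit 0), (nat_lit 398), (nat_lit 992)], [((nat_lit 0), (nat_lit 0), (nat_lit 0)), ((nat_lit 1000), (nat_lit 814), (nat_lit 310)), ((nat_lit 1000), (nat_lit 752), (nat_lit 464))], ((nat_lit 73), (nat_lit 100), (nat_lit 55))⟩, (nat_lit 0), (nat_lit 187), (nat_lit 187), (nat_lit 0), (nat_lit 274500), [(nat_lit 1334273858), (nat_lit 1315386438), (nat_lit 1209945562)], [(nat_lit 0), (nat_lit 0), (nat_lit 0)], [(nat_lit 21677191191), (nat_lit 22855247250), (nat_lit 21250788866), (nat_lit 22347832216), (nat_lit 25502544500), (nat_lit 26872399700), (nat_lit 24278852816), (nat_lit 25618582200)], (nat_lit 1271251), (nat_lit 1271251), (nat_lit 230000), (nat_lit 490000), (nat_lit 1271251), (nat_lit 1271251), [(nat_lit 490000), (nat_lit 780000), (nat_lit 1100000)], [(nat_lit 2), (nat_lit 44), (nat_lit 226), (nat_lit 20), (nat_lit 9)]⟩,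
 Rw.none,
 Rw.none⟩) (.trZ (nat_lit 0) (nat_lit 1) (nat_lit 3) (nat_lit 100) (nat_lit 72) (nat_lit 77) (nat_lit 70) (.leaf ⟨(nat_lit 1000), (nat_lit 0), (nat_lit 0), (nat_lit 0), (nat_lit 0), (nat_lit 3270), (nat_lit 0), (nat_lit 0), (nat_lit 0), (nat_lit 0), (nat_lit 538800), [((nat_lit 360), [((nat_lit 21), (nat_lit 1), (nat_lit 306)), ((nat_lit 39), (nat_lit 2), (nat_lit 694))])], ⟨(nat_lit 5), false, false, false, (nat_lit 135), (nat_lit 3162), (nat_lit 3873), [(nat_lit 1311964), (nat_lit 1323922), (nat_lit 1333729), (nat_lit 1346049), (nat_lit 1328103), (nat_lit 1339169), (nat_lit 1349867), (nat_lit 1361295)]⟩, ⟨(nat_lit 6), false, false, true, (nat_lit 224), (nat_lit 3162), (nat_lit 3873), [(nat_lit 1477347), (nat_lit 1472332), (nat_lit 1520934), (nat_lit 1516642), (nat_lit 1606390), (nat_lit 1594239), (nat_lit 1649977), (nat_lit 1638549)]⟩, (nat_lit 4478245), (nat_lit 44964583), (nat_lit 6835996), (nat_lit 15199421), (nat_lit 0), (nat_lit 0),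 [⟨(nat_lit 0), (nat_lit 100), (nat_lit 72), (nat_lit 77), (nat_lit 405884512)⟩], [⟨(nat_lit 1), (nat_lit 85), (nat_lit 73), (nat_lit 100), (nat_lit 240302371)⟩], [], [],
 ⟨⟨[(nat_lit 40), (nat_lit 60), (nat_lit 80)], [(nat_lit 0), (nat_lit 398), (nat_lit 992)], [((nat_lit 0), (nat_lit 0), (nat_lit 0)), ((nat_lit 1000), (nat_lit 814), (nat_lit 310)), ((nat_lit 1000), (nat_lit 752), (nat_lit 464))], ((nat_lit 73), (nat_lit 100), (nat_lit 55))⟩, (nat_lit 0), (nat_lit 175), (nat_lit 175), (nat_lit 0), (nat_lit 296566), [(nat_lit 1322998415), (nat_lit 1221846425), (nat_lit 1092561575)], [(nat_lit 0), (nat_lit 0), (nat_lit 0)], [(nat_lit 21030574068), (nat_lit 22180291050), (nat_lit 20916216695), (nat_lit 22056920335), (nat_lit 24348009635), (nat_lit 25662123245), (nat_lit 24065309880), (nat_lit 25372126920)], (nat_lit 1271251), (nat_lit 1271251), (nat_lit 422188), (nat_lit 490000), (nat_lit 1271251), (nat_lit 1271251), [(nat_lit 490000), (nat_lit 780000),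 (nat_lit 1100000)], [(nat_lit 2), (nat_lit 44), (nat_lit 226), (nat_lit 20), (nat_lit 9)]⟩,
 Rw.none,
 Rw.none⟩)))))) (.ord (.trZ (nat_lit 0) (nat_lit 1) (nat_lit 3) (nat_lit 100) (nat_lit 73) (nat_lit 55) (nat_lit 30) (.spl (nat_lit 6) (nat_lit 16) (.spl (nat_lit 1) (nat_lit 200) (.leaf ⟨(nat_lit 963), (nat_lit 0), (nat_lit 37), (nat_lit 0), (nat_lit 0), (nat_lit 3157), (nat_lit 0), (nat_lit 493), (nat_lit 0), (nat_lit 136349), (nat_lit 623800), [((nat_lit 360), [((nat_lit 39), (nat_lit 2), (nat_lit 848)), ((nat_lit 21), (nat_lit 2), (nat_lit 115))])], ⟨(nat_lit 4), false, false, false, (nat_lit 100), (nat_lit 3162), (nat_lit 3873), [(nat_lit 1182116), (nat_lit 1196558), (nat_lit 1225646), (nat_lit 1240811), (nat_lit 1262809), (nat_lit 1272790), (nat_lit 1306338), (nat_lit 1317043)]⟩, ⟨(nat_lit 6), false, false, true, (nat_lit 240), (nat_lit 3162), (nat_lit 3873), [(nat_lit 1520934), (nat_lit 1516642), (nat_lit 1542727), (nat_lit 1538797), (nat_lit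 1666107), (nat_lit 1653787), (nat_lit 1687900), (nat_lit 1675942)]⟩, (nat_lit 4185093), (nat_lit 45484600), (nat_lit 4366135), (nat_lit 17149265), (nat_lit 0), (nat_lit 4), [⟨(nat_lit 0), (nat_lit 100), (nat_lit 66), (nat_lit 68), (nat_lit 248856039)⟩], [⟨(nat_lit 1), (nat_lit 77), (nat_lit 72), (nat_lit 100), (nat_lit 155814968)⟩], [], [⟨(nat_lit 2), (nat_lit 100), (nat_lit 95), (nat_lit 73), (nat_lit 1021751)⟩],
 ⟨⟨[(nat_lit 40), (nat_lit 60), (nat_lit 80)], [(nat_lit 0), (nat_lit 398), (nat_lit 992)], [((nat_lit 0), (nat_lit 0), (nat_lit 0)), ((nat_lit 1000), (nat_lit 814), (nat_lit 310)), ((nat_lit 1000), (nat_lit 752), (nat_lit 464))], ((nat_lit 77), (nat_lit 100), (nat_lit 42))⟩, (nat_lit 327170), (nat_lit 186), (nat_lit 186), (nat_lit 0), (nat_lit 236143), [(nat_lit 1327302407), (nat_lit 1191259317), (nat_lit 877198083)], [(nat_lit 0), (nat_lit 0), (nat_lit 0)], [(nat_lit 21526618579), (nat_lit 22684233097), (nat_lit 21106288273), (nat_lit 22161507924),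 (nat_lit 25898696475), (nat_lit 27186500182), (nat_lit 24703774252), (nat_lit 25795653403)], (nat_lit 1271251), (nat_lit 1271251), (nat_lit 169688), (nat_lit 490000), (nat_lit 1271251), (nat_lit 1271251), [(nat_lit 490000), (nat_lit 780000), (nat_lit 1100000)], [(nat_lit 2), (nat_lit 44), (nat_lit 226), (nat_lit 20), (nat_lit 9)]⟩,
 Rw.none,
 ⟨⟨[(nat_lit 120), (nat_lit 140), (nat_lit 160)], [(nat_lit 0), (nat_lit 0), (nat_lit 609)], [((nat_lit 0), (nat_lit 0), (nat_lit 0)), ((nat_lit 0), (nat_lit 0), (nat_lit 0)), ((nat_lit 840), (nat_lit 1000), (nat_lit 400))], ((nat_lit 100), (nat_lit 84), (nat_lit 40))⟩, (nat_lit 126885), (nat_lit 300), (nat_lit 1135), (nat_lit 2601100), (nat_lit 1836376), [(nat_lit 294816000), (nat_lit 364154000), (nat_lit 439264000)], [], [(nat_lit 1579891384), (nat_lit 1570889957), (nat_lit 1673488528), (nat_lit 1669026685), (nat_lit 1763608719), (nat_lit 1909041026), (nat_lit 1267816823), (nat_lit 1251972467)], (nat_lit 1100000),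 (nat_lit 1271251), (nat_lit 1271251), (nat_lit 1271251), (nat_lit 0), (nat_lit 2401251), [(nat_lit 1695001), (nat_lit 1271251), (nat_lit 1271251)], [(nat_lit 27), (nat_lit 62), (nat_lit 456), (nat_lit 225), (nat_lit 12)]⟩⟩) (.trZ (nat_lit 0) (nat_lit 1) (nat_lit 3) (nat_lit 100) (nat_lit 71) (nat_lit 70) (nat_lit 50) (.leaf ⟨(nat_lit 953), (nat_lit 0), (nat_lit 0), (nat_lit 47), (nat_lit 0), (nat_lit 3216), (nat_lit 1225), (nat_lit 544), (nat_lit 0), (nat_lit 0), (nat_lit 611400), [((nat_lit 360), [((nat_lit 39), (nat_lit 2), (nat_lit 854)), ((nat_lit 21), (nat_lit 2), (nat_lit 99))])], ⟨(nat_lit 5), false, false, false, (nat_lit 124), (nat_lit 3162), (nat_lit 3873), [(nat_lit 1257923), (nat_lit 1271304), (nat_lit 1301452), (nat_lit 1315556), (nat_lit 1306338), (nat_lit 1317043), (nat_lit 1349867), (nat_lit 1361295)]⟩, ⟨(nat_lit 6), false, false, true, (nat_lit 240), (nat_lit 3162), (nat_lit 3873), [(nat_lit 1520934), (nat_lit 1516642), (nat_lit 1542727),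 (nat_lit 1538797), (nat_lit 1666107), (nat_lit 1653787), (nat_lit 1687900), (nat_lit 1675942)]⟩, (nat_lit 4467810), (nat_lit 44158713), (nat_lit 5964130), (nat_lit 16877157), (nat_lit 0), (nat_lit 0), [⟨(nat_lit 0), (nat_lit 100), (nat_lit 66), (nat_lit 82), (nat_lit 250833153)⟩, ⟨(nat_lit 0), (nat_lit 100), (nat_lit 71), (nat_lit 70), (nat_lit 199703193)⟩], [⟨(nat_lit 1), (nat_lit 77), (nat_lit 72), (nat_lit 100), (nat_lit 162284705)⟩], [], [],
 ⟨⟨[(nat_lit 40), (nat_lit 60), (nat_lit 80)], [(nat_lit 0), (nat_lit 398), (nat_lit 992)], [((nat_lit 0), (nat_lit 0), (nat_lit 0)), ((nat_lit 1000), (nat_lit 814), (nat_lit 310)), ((nat_lit 1000), (nat_lit 752), (nat_lit 464))], ((nat_lit 77), (nat_lit 100), (nat_lit 42))⟩, (nat_lit 223798), (nat_lit 182), (nat_lit 182), (nat_lit 0), (nat_lit 264074), [(nat_lit 1333320015), (nat_lit 1240270562), (nat_lit 914554438)], [(nat_lit 0), (nat_lit 0), (nat_lit 0)], [(nat_lit 21456906389), (nat_lit 22546286536), (nat_lit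 21191095202), (nat_lit 22254736690), (nat_lit 25453885425), (nat_lit 26738630070), (nat_lit 24616886968), (nat_lit 25880973848)], (nat_lit 1271251), (nat_lit 1271251), (nat_lit 292188), (nat_lit 490000), (nat_lit 1271251), (nat_lit 1271251), [(nat_lit 490000), (nat_lit 780000), (nat_lit 1100000)], [(nat_lit 2), (nat_lit 44), (nat_lit 226), (nat_lit 20), (nat_lit 9)]⟩,
 ⟨⟨[(nat_lit 100), (nat_lit 120), (nat_lit 140)], [(nat_lit 0), (nat_lit 0), (nat_lit 533)], [((nat_lit 0), (nat_lit 0), (nat_lit 0)), ((nat_lit 0), (nat_lit 0), (nat_lit 0)), ((nat_lit 924), (nat_lit 1000), (nat_lit 383))], ((nat_lit 100), (nat_lit 92), (nat_lit 39))⟩, (nat_lit 295331), (nat_lit 533), (nat_lit 533), (nat_lit 0), (nat_lit 578685), [(nat_lit 293750000), (nat_lit 374496000), (nat_lit 462574000)], [], [(nat_lit 1272298798), (nat_lit 1523144535), (nat_lit 1269422282), (nat_lit 1096682725), (nat_lit 3458694657), (nat_lit 2352536883), (nat_lit 3632838695), (nat_lit 2537501270)],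 (nat_lit 1271251), (nat_lit 1271251), (nat_lit 292188), (nat_lit 490000), (nat_lit 0), (nat_lit 2401251), [(nat_lit 1412501), (nat_lit 1271251), (nat_lit 1271251)], [(nat_lit 22), (nat_lit 58), (nat_lit 401), (nat_lit 175), (nat_lit 12)]⟩,
 ⟨⟨[(nat_lit 120), (nat_lit 140), (nat_lit 160)], [(nat_lit 0), (nat_lit 0), (nat_lit 609)], [((nat_lit 0), (nat_lit 0), (nat_lit 0)), ((nat_lit 0), (nat_lit 0), (nat_lit 0)), ((nat_lit 840), (nat_lit 1000), (nat_lit 400))], ((nat_lit 100), (nat_lit 84), (nat_lit 40))⟩, (nat_lit 48158), (nat_lit 300), (nat_lit 1318), (nat_lit 3304100), (nat_lit 2236498), [(nat_lit 374496000), (nat_lit 462574000), (nat_lit 557984000)], [], [(nat_lit 2220486548), (nat_lit 2203201151), (nat_lit 2243647472), (nat_lit 2229412291), (nat_lit 2234093208), (nat_lit 2398798364), (nat_lit 1749757062), (nat_lit 1733898988)], (nat_lit 1100000), (nat_lit 1271251), (nat_lit 1271251), (nat_lit 1271251), (nat_lit 0), (nat_lit 2401251), [(nat_lit 1695001),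 (nat_lit 1271251), (nat_lit 1271251)], [(nat_lit 27), (nat_lit 62), (nat_lit 456), (nat_lit 225), (nat_lit 12)]⟩⟩))) (.spl (nat_lit 1) (nat_lit 200) (.leaf ⟨(nat_lit 972), (nat_lit 0), (nat_lit 28), (nat_lit 0), (nat_lit 4561), (nat_lit 2990), (nat_lit 0), (nat_lit 483), (nat_lit 0), (nat_lit 4062), (nat_lit 639600), [((nat_lit 360), [((nat_lit 39), (nat_lit 2), (nat_lit 831)), ((nat_lit 21), (nat_lit 2), (nat_lit 141))])], ⟨(nat_lit 4), false, false, false, (nat_lit 100), (nat_lit 3162), (nat_lit 3873), [(nat_lit 1182116), (nat_lit 1196558), (nat_lit 1225646), (nat_lit 1240811), (nat_lit 1262809), (nat_lit 1272790), (nat_lit 1306338), (nat_lit 1317043)]⟩, ⟨(nat_lit 6), false, false, true, (nat_lit 240), (nat_lit 3162), (nat_lit 3873), [(nat_lit 1520934), (nat_lit 1516642), (nat_lit 1542727), (nat_lit 1538797), (nat_lit 1666107), (nat_lit 1653787), (nat_lit 1687900), (nat_lit 1675942)]⟩, (nat_lit 4185093), (nat_lit 45484600), (nat_lit 4366135), (nat_lit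 17149265), (nat_lit 0), (nat_lit 4), [⟨(nat_lit 0), (nat_lit 100), (nat_lit 66), (nat_lit 68), (nat_lit 245966563)⟩], [⟨(nat_lit 1), (nat_lit 85), (nat_lit 67), (nat_lit 100), (nat_lit 194343540)⟩], [], [],
 ⟨⟨[(nat_lit 40), (nat_lit 60), (nat_lit 80)], [(nat_lit 0), (nat_lit 398), (nat_lit 992)], [((nat_lit 0), (nat_lit 0), (nat_lit 0)), ((nat_lit 1000), (nat_lit 814), (nat_lit 310)), ((nat_lit 1000), (nat_lit 752), (nat_lit 464))], ((nat_lit 73), (nat_lit 100), (nat_lit 55))⟩, (nat_lit 18241), (nat_lit 151), (nat_lit 151), (nat_lit 0), (nat_lit 116818), [(nat_lit 1321646402), (nat_lit 1190556309), (nat_lit 780199691)], [(nat_lit 0), (nat_lit 0), (nat_lit 0)], [(nat_lit 21574881685), (nat_lit 22714554727), (nat_lit 21120007772), (nat_lit 22217022452), (nat_lit 25578317107), (nat_lit 26835798194), (nat_lit 24634685194), (nat_lit 25554153158)], (nat_lit 1271251), (nat_lit 1271251), (nat_lit 169688), (nat_lit 490000), (nat_lit 1271251), (nat_lit 1271251),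 [(nat_lit 490000), (nat_lit 780000), (nat_lit 1100000)], [(nat_lit 2), (nat_lit 44), (nat_lit 226), (nat_lit 20), (nat_lit 9)]⟩,
 Rw.none,
 ⟨⟨[(nat_lit 120), (nat_lit 160), (nat_lit 180)], [(nat_lit 0), (nat_lit 0), (nat_lit 1613)], [((nat_lit 0), (nat_lit 0), (nat_lit 0)), ((nat_lit 0), (nat_lit 0), (nat_lit 0)), ((nat_lit 620), (nat_lit 1000), (nat_lit 670))], ((nat_lit 100), (nat_lit 73), (nat_lit 55))⟩, (nat_lit 12186), (nat_lit 300), (nat_lit 778), (nat_lit 2077600), (nat_lit 902315), [(nat_lit 223104000), (nat_lit 332416000), (nat_lit 393624000)], [], [(nat_lit 1411054988), (nat_lit 1402144576), (nat_lit 1509131117), (nat_lit 1493143043), (nat_lit 1342864425), (nat_lit 1479695851), (nat_lit 1100172196), (nat_lit 1086062763)], (nat_lit 1100000), (nat_lit 1271251), (nat_lit 1271251), (nat_lit 1271251), (nat_lit 0), (nat_lit 2401251), [(nat_lit 1695001), (nat_lit 1271251), (nat_lit 1271251)], [(nat_lit 28), (nat_lit 65), (nat_lit 456), (nat_lit 225),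 (nat_lit 11)]⟩⟩) (.trZ (nat_lit 0) (nat_lit 1) (nat_lit 3) (nat_lit 100) (nat_lit 71) (nat_lit 70) (nat_lit 50) (.leaf ⟨(nat_lit 956), (nat_lit 0), (nat_lit 0), (nat_lit 44), (nat_lit 3365), (nat_lit 3576), (nat_lit 814), (nat_lit 576), (nat_lit 0), (nat_lit 0), (nat_lit 342500), [((nat_lit 360), [((nat_lit 21), (nat_lit 0), (nat_lit 266)), ((nat_lit 21), (nat_lit 1), (nat_lit 690))])], ⟨(nat_lit 5), false, false, false, (nat_lit 124), (nat_lit 3162), (nat_lit 3873), [(nat_lit 1257923), (nat_lit 1271304), (nat_lit 1301452), (nat_lit 1315556), (nat_lit 1306338), (nat_lit 1317043), (nat_lit 1349867), (nat_lit 1361295)]⟩, ⟨(nat_lit 6), false, false, true, (nat_lit 240), (nat_lit 3162), (nat_lit 3873), [(nat_lit 1520934), (nat_lit 1516642), (nat_lit 1542727), (nat_lit 1538797), (nat_lit 1666107), (nat_lit 1653787), (nat_lit 1687900), (nat_lit 1675942)]⟩, (nat_lit 4467810), (nat_lit 44158713), (nat_lit 5964130), (nat_lit 16877157), (nat_lit 0), (nat_lit 0),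 [⟨(nat_lit 0), (nat_lit 100), (nat_lit 66), (nat_lit 82), (nat_lit 473419035)⟩], [⟨(nat_lit 1), (nat_lit 85), (nat_lit 67), (nat_lit 100), (nat_lit 69603473)⟩, ⟨(nat_lit 1), (nat_lit 77), (nat_lit 72), (nat_lit 100), (nat_lit 129159304)⟩], [], [],
 ⟨⟨[(nat_lit 40), (nat_lit 60), (nat_lit 80)], [(nat_lit 0), (nat_lit 398), (nat_lit 992)], [((nat_lit 0), (nat_lit 0), (nat_lit 0)), ((nat_lit 1000), (nat_lit 814), (nat_lit 310)), ((nat_lit 1000), (nat_lit 752), (nat_lit 464))], ((nat_lit 73), (nat_lit 100), (nat_lit 55))⟩, (nat_lit 0), (nat_lit 144), (nat_lit 144), (nat_lit 0), (nat_lit 152620), [(nat_lit 1393436868), (nat_lit 1549559677), (nat_lit 1760233123)], [(nat_lit 0), (nat_lit 0), (nat_lit 0)], [(nat_lit 21774309541), (nat_lit 22991378190), (nat_lit 21354575932), (nat_lit 22543025364), (nat_lit 26051189881), (nat_lit 27400472374), (nat_lit 25074878043), (nat_lit 26401573178)], (nat_lit 1271251), (nat_lit 1271251), (nat_lit 292188), (nat_lit 490000),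 (nat_lit 1271251), (nat_lit 1271251), [(nat_lit 490000), (nat_lit 780000), (nat_lit 1100000)], [(nat_lit 2), (nat_lit 44), (nat_lit 226), (nat_lit 20), (nat_lit 9)]⟩,
 ⟨⟨[(nat_lit 100), (nat_lit 140), (nat_lit 160)], [(nat_lit 0), (nat_lit 0), (nat_lit 1280)], [((nat_lit 0), (nat_lit 0), (nat_lit 0)), ((nat_lit 0), (nat_lit 0), (nat_lit 0)), ((nat_lit 800), (nat_lit 1000), (nat_lit 600))], ((nat_lit 100), (nat_lit 84), (nat_lit 54))⟩, (nat_lit 154199), (nat_lit 499), (nat_lit 499), (nat_lit 0), (nat_lit 289693), [(nat_lit 275000000), (nat_lit 433048000), (nat_lit 522368000)], [], [(nat_lit 1599870153), (nat_lit 1735444608), (nat_lit 1364812460), (nat_lit 1449998040), (nat_lit 2932104284), (nat_lit 2197073731), (nat_lit 3057924650), (nat_lit 2330084108)], (nat_lit 1271251), (nat_lit 1271251), (nat_lit 292188), (nat_lit 490000), (nat_lit 0), (nat_lit 2401251), [(nat_lit 1412501), (nat_lit 1271251), (nat_lit 1271251)], [(nat_lit 23), (nat_lit 62), (nat_lit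 401), (nat_lit 175), (nat_lit 11)]⟩,
 ⟨⟨[(nat_lit 120), (nat_lit 160), (nat_lit 180)], [(nat_lit 0), (nat_lit 0), (nat_lit 1613)], [((nat_lit 0), (nat_lit 0), (nat_lit 0)), ((nat_lit 0), (nat_lit 0), (nat_lit 0)), ((nat_lit 620), (nat_lit 1000), (nat_lit 670))], ((nat_lit 100), (nat_lit 73), (nat_lit 55))⟩, (nat_lit 19150), (nat_lit 300), (nat_lit 943), (nat_lit 3264800), (nat_lit 1264787), [(nat_lit 350592000), (nat_lit 522368000), (nat_lit 618552000)], [], [(nat_lit 2390435392), (nat_lit 2369301540), (nat_lit 2415301256), (nat_lit 2389233205), (nat_lit 2096494368), (nat_lit 2266939216), (nat_lit 1811205638), (nat_lit 1786437254)], (nat_lit 1100000), (nat_lit 1271251), (nat_lit 1271251), (nat_lit 1271251), (nat_lit 0), (nat_lit 2401251), [(nat_lit 1695001), (nat_lit 1271251), (nat_lit 1271251)], [(nat_lit 28), (nat_lit 65), (nat_lit 456), (nat_lit 225), (nat_lit 11)]⟩⟩))))))))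
noncomputable def c7_7 : Tr Lf :=
 (.spl (nat_lit 2) (nat_lit 160) (.trX (nat_lit 4) (nat_lit 0) (nat_lit 2) (nat_lit 73) (nat_lit 85) (nat_lit 100) (nat_lit 320) (.stt (nat_lit 3) (.spl (nat_lit 1) (nat_lit 180) (.leaf ⟨(nat_lit 1000), (nat_lit 0), (nat_lit 0), (nat_lit 0), (nat_lit 205), (nat_lit 3296), (nat_lit 0), (nat_lit 0), (nat_lit 0), (nat_lit 15992), (nat_lit 524600), [((nat_lit 360), [((nat_lit 21), (nat_lit 1), (nat_lit 377)), ((nat_lit 39), (nat_lit 2), (nat_lit 623))])], ⟨(nat_lit 3), false, false, false, (nat_lit 115), (nat_lit 3162), (nat_lit 3873), [(nat_lit 1219261), (nat_lit 1228519), (nat_lit 1284573), (nat_lit 1294916), (nat_lit 1283782), (nat_lit 1289472), (nat_lit 1349127), (nat_lit 1355902)]⟩, ⟨(nat_lit 6), true, false, true, (nat_lit 224), (nat_lit 3162), (nat_lit 3873), [(nat_lit 1477347), (nat_lit 1472332), (nat_lit 1520934), (nat_lit 1516642), (nat_lit 1606390), (nat_lit 1594239), (nat_lit 1649977), (nat_lit 1638549)]⟩, (nat_lit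 4254561), (nat_lit 46151621), (nat_lit 5447164), (nat_lit 15401215), (nat_lit 0), (nat_lit 0), [], [⟨(nat_lit 1), (nat_lit 85), (nat_lit 73), (nat_lit 100), (nat_lit 226443173)⟩], [], [],
 ⟨⟨[(nat_lit 40), (nat_lit 60), (nat_lit 80)], [(nat_lit 0), (nat_lit 398), (nat_lit 992)], [((nat_lit 0), (nat_lit 0), (nat_lit 0)), ((nat_lit 1000), (nat_lit 814), (nat_lit 310)), ((nat_lit 1000), (nat_lit 752), (nat_lit 464))], ((nat_lit 73), (nat_lit 100), (nat_lit 55))⟩, (nat_lit 0), (nat_lit 171), (nat_lit 171), (nat_lit 0), (nat_lit 303492), [(nat_lit 1326292823), (nat_lit 1240021763), (nat_lit 1136014237)], [(nat_lit 0), (nat_lit 0), (nat_lit 0)], [(nat_lit 20927825167), (nat_lit 22072585639), (nat_lit 21342401399), (nat_lit 22434356967), (nat_lit 24096147024), (nat_lit 25407726016), (nat_lit 24355306107), (nat_lit 25523761296)], (nat_lit 1271251), (nat_lit 1271251), (nat_lit 490000), (nat_lit 780000), (nat_lit 1271251), (nat_lit 1271251), [(nat_lit 490000),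 (nat_lit 780000), (nat_lit 1100000)], [(nat_lit 2), (nat_lit 44), (nat_lit 238), (nat_lit 30), (nat_lit 9)]⟩,
 Rw.none,
 Rw.none⟩) (.leaf ⟨(nat_lit 993), (nat_lit 0), (nat_lit 0), (nat_lit 7), (nat_lit 0), (nat_lit 3297), (nat_lit 105), (nat_lit 85), (nat_lit 0), (nat_lit 0), (nat_lit 527200), [((nat_lit 360), [((nat_lit 21), (nat_lit 1), (nat_lit 343)), ((nat_lit 39), (nat_lit 2), (nat_lit 650))])], ⟨(nat_lit 4), false, false, false, (nat_lit 142), (nat_lit 3162), (nat_lit 3873), [(nat_lit 1284573), (nat_lit 1294916), (nat_lit 1349867), (nat_lit 1361295), (nat_lit 1349127), (nat_lit 1355902), (nat_lit 1414421), (nat_lit 1422280)]⟩, ⟨(nat_lit 6), true, false, true, (nat_lit 224), (nat_lit 3162), (nat_lit 3873), [(nat_lit 1477347), (nat_lit 1472332), (nat_lit 1520934), (nat_lit 1516642), (nat_lit 1606390), (nat_lit 1594239), (nat_lit 1649977), (nat_lit 1638549)]⟩, (nat_lit 4552841), (nat_lit 44530265), (nat_lit 7349255), (nat_lit 15120480), (nat_lit 0),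 (nat_lit 0), [⟨(nat_lit 0), (nat_lit 100), (nat_lit 66), (nat_lit 78), (nat_lit 51073641)⟩], [⟨(nat_lit 1), (nat_lit 85), (nat_lit 73), (nat_lit 100), (nat_lit 222713578)⟩], [], [],
 ⟨⟨[(nat_lit 40), (nat_lit 60), (nat_lit 80)], [(nat_lit 0), (nat_lit 398), (nat_lit 992)], [((nat_lit 0), (nat_lit 0), (nat_lit 0)), ((nat_lit 1000), (nat_lit 814), (nat_lit 310)), ((nat_lit 1000), (nat_lit 752), (nat_lit 464))], ((nat_lit 73), (nat_lit 100), (nat_lit 55))⟩, (nat_lit 0), (nat_lit 169), (nat_lit 169), (nat_lit 0), (nat_lit 296906), [(nat_lit 1328685606), (nat_lit 1246256556), (nat_lit 1141442844)], [(nat_lit 0), (nat_lit 0), (nat_lit 0)], [(nat_lit 20939830814), (nat_lit 22084747318), (nat_lit 21354284138), (nat_lit 22446384914), (nat_lit 24097333068), (nat_lit 25409095212), (nat_lit 24367457144), (nat_lit 25524916797)], (nat_lit 1271251), (nat_lit 1271251), (nat_lit 490000), (nat_lit 780000), (nat_lit 1271251), (nat_lit 1271251), [(nat_lit 490000), (nat_lit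 780000), (nat_lit 1100000)], [(nat_lit 2), (nat_lit 44), (nat_lit 238), (nat_lit 30), (nat_lit 9)]⟩,
 ⟨⟨[(nat_lit 120), (nat_lit 160), (nat_lit 180)], [(nat_lit 0), (nat_lit 533), (nat_lit 2066)], [((nat_lit 0), (nat_lit 0), (nat_lit 0)), ((nat_lit 960), (nat_lit 1000), (nat_lit 200)), ((nat_lit 615), (nat_lit 1000), (nat_lit 729))], ((nat_lit 100), (nat_lit 79), (nat_lit 55))⟩, (nat_lit 111813), (nat_lit 773), (nat_lit 773), (nat_lit 0), (nat_lit 730457), [(nat_lit 55776000), (nat_lit 83104000), (nat_lit 98406000)], [], [(nat_lit 356461770), (nat_lit 191163000), (nat_lit 247073558), (nat_lit 181511601), (nat_lit 419622364), (nat_lit 274599829), (nat_lit 453483305), (nat_lit 310328661)], (nat_lit 1271251), (nat_lit 1271251), (nat_lit 490000), (nat_lit 780000), (nat_lit 0), (nat_lit 2613125), [(nat_lit 1695001), (nat_lit 1271251), (nat_lit 1271251)], [(nat_lit 28), (nat_lit 65), (nat_lit 428), (nat_lit 200), (nat_lit 10)]⟩,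
 ⟨⟨[(nat_lit 140), (nat_lit 180), (nat_lit 200)], [(nat_lit 0), (nat_lit 0), (nat_lit 2835)], [((nat_lit 0), (nat_lit 0), (nat_lit 0)), ((nat_lit 0), (nat_lit 0), (nat_lit 0)), ((nat_lit 363), (nat_lit 1000), (nat_lit 798))], ((nat_lit 0), (nat_lit 0), (nat_lit 0))⟩, (nat_lit 1926), (nat_lit 300), (nat_lit 434), (nat_lit 546700), (nat_lit 0), [(nat_lit 68894000), (nat_lit 98406000), (nat_lit 114800000)], [], [(nat_lit 452475066), (nat_lit 440026347), (nat_lit 460517886), (nat_lit 447024996), (nat_lit 366618243), (nat_lit 353120487), (nat_lit 364668262), (nat_lit 350484429)], (nat_lit 0), (nat_lit 0), (nat_lit 0), (nat_lit 0), (nat_lit 0), (nat_lit 0), [], [(nat_lit 32), (nat_lit 67), (nat_lit 456), (nat_lit 225), (nat_lit 10)]⟩⟩)) (.leaf ⟨(nat_lit 1000), (nat_lit 0), (nat_lit 0), (nat_lit 0), (nat_lit 0), (nat_lit 3548), (nat_lit 0), (nat_lit 0), (nat_lit 0), (nat_lit 21412), (nat_lit 361000), [((nat_lit 360), [((nat_lit 21), (nat_lit 0), (nat_lit 260)),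 ((nat_lit 21), (nat_lit 1), (nat_lit 740))])], ⟨(nat_lit 3), false, false, false, (nat_lit 128), (nat_lit 3162), (nat_lit 3873), [(nat_lit 1219261), (nat_lit 1228519), (nat_lit 1349867), (nat_lit 1361295), (nat_lit 1283782), (nat_lit 1289472), (nat_lit 1414421), (nat_lit 1422280)]⟩, ⟨(nat_lit 6), false, false, true, (nat_lit 224), (nat_lit 3162), (nat_lit 3873), [(nat_lit 1477347), (nat_lit 1472332), (nat_lit 1520934), (nat_lit 1516642), (nat_lit 1606390), (nat_lit 1594239), (nat_lit 1649977), (nat_lit 1638549)]⟩, (nat_lit 4408399), (nat_lit 45352815), (nat_lit 6379472), (nat_lit 15267713), (nat_lit 0), (nat_lit 0), [⟨(nat_lit 0), (nat_lit 100), (nat_lit 61), (nat_lit 92), (nat_lit 7884302)⟩], [⟨(nat_lit 1), (nat_lit 85), (nat_lit 73), (nat_lit 100), (nat_lit 233740858)⟩], [], [],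
 ⟨⟨[(nat_lit 40), (nat_lit 60), (nat_lit 80)], [(nat_lit 0), (nat_lit 398), (nat_lit 992)], [((nat_lit 0), (nat_lit 0), (nat_lit 0)), ((nat_lit 1000), (nat_lit 814), (nat_lit 310)), ((nat_lit 1000), (nat_lit 752), (nat_lit 464))], ((nat_lit 73), (nat_lit 100), (nat_lit 55))⟩, (nat_lit 0), (nat_lit 136), (nat_lit 136), (nat_lit 0), (nat_lit 212210), [(nat_lit 1370176012), (nat_lit 1466423848), (nat_lit 1618856152)], [(nat_lit 0), (nat_lit 0), (nat_lit 0)], [(nat_lit 21164217284), (nat_lit 22348297820), (nat_lit 21547820700), (nat_lit 22676368684), (nat_lit 24395030112), (nat_lit 25752763408), (nat_lit 24628336504), (nat_lit 25814947548)], (nat_lit 1271251), (nat_lit 1271251), (nat_lit 490000), (nat_lit 780000), (nat_lit 1271251), (nat_lit 1271251), [(nat_lit 490000), (nat_lit 780000), (nat_lit 1100000)], [(nat_lit 2), (nat_lit 44), (nat_lit 238), (nat_lit 30), (nat_lit 9)]⟩,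
 Rw.none,
 Rw.none⟩))) (.ord (.spl (nat_lit 1) (nat_lit 200) (.leaf ⟨(nat_lit 972), (nat_lit 0), (nat_lit 28), (nat_lit 0), (nat_lit 973), (nat_lit 3064), (nat_lit 0), (nat_lit 422), (nat_lit 0), (nat_lit 44102), (nat_lit 638400), [((nat_lit 360), [((nat_lit 39), (nat_lit 2), (nat_lit 834)), ((nat_lit 21), (nat_lit 2), (nat_lit 138))])], ⟨(nat_lit 4), false, false, false, (nat_lit 128), (nat_lit 3162), (nat_lit 3873), [(nat_lit 1262809), (nat_lit 1272790), (nat_lit 1306338), (nat_lit 1317043), (nat_lit 1327361), (nat_lit 1333774), (nat_lit 1370892), (nat_lit 1378028)]⟩, ⟨(nat_lit 6), false, false, true, (nat_lit 240), (nat_lit 3162), (nat_lit 3873), [(nat_lit 1520934), (nat_lit 1516642), (nat_lit 1542727), (nat_lit 1538797), (nat_lit 1666107), (nat_lit 1653787), (nat_lit 1687900), (nat_lit 1675942)]⟩, (nat_lit 4516977), (nat_lit 43903966), (nat_lit 6274296), (nat_lit 16821738), (nat_lit 0), (nat_lit 4), [], [⟨(nat_lit 1), (nat_lit 77), (nat_lit 72),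 (nat_lit 100), (nat_lit 173191629)⟩], [], [],
 ⟨⟨[(nat_lit 40), (nat_lit 60), (nat_lit 80)], [(nat_lit 0), (nat_lit 398), (nat_lit 992)], [((nat_lit 0), (nat_lit 0), (nat_lit 0)), ((nat_lit 1000), (nat_lit 814), (nat_lit 310)), ((nat_lit 1000), (nat_lit 752), (nat_lit 464))], ((nat_lit 73), (nat_lit 100), (nat_lit 55))⟩, (nat_lit 83929), (nat_lit 152), (nat_lit 152), (nat_lit 0), (nat_lit 239298), [(nat_lit 1321700806), (nat_lit 1192123620), (nat_lit 783797180)], [(nat_lit 0), (nat_lit 0), (nat_lit 0)], [(nat_lit 20882180992), (nat_lit 21990742040), (nat_lit 21325271880), (nat_lit 22383539192), (nat_lit 24423803097), (nat_lit 25661165242), (nat_lit 24731172974), (nat_lit 25802790574)], (nat_lit 1271251), (nat_lit 1271251), (nat_lit 490000), (nat_lit 780000), (nat_lit 1271251), (nat_lit 1271251), [(nat_lit 490000), (nat_lit 780000), (nat_lit 1100000)], [(nat_lit 2), (nat_lit 44), (nat_lit 238), (nat_lit 30), (nat_lit 9)]⟩,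
 Rw.none,
 ⟨⟨[(nat_lit 120), (nat_lit 160), (nat_lit 180)], [(nat_lit 0), (nat_lit 0), (nat_lit 1613)], [((nat_lit 0), (nat_lit 0), (nat_lit 0)), ((nat_lit 0), (nat_lit 0), (nat_lit 0)), ((nat_lit 620), (nat_lit 1000), (nat_lit 670))], ((nat_lit 100), (nat_lit 73), (nat_lit 55))⟩, (nat_lit 43667), (nat_lit 300), (nat_lit 1202), (nat_lit 2077600), (nat_lit 1850052), [(nat_lit 223104000), (nat_lit 332416000), (nat_lit 393624000)], [], [(nat_lit 1434679064), (nat_lit 1420457752), (nat_lit 1519985609), (nat_lit 1507386123), (nat_lit 1438502397), (nat_lit 1562218134), (nat_lit 1121549258), (nat_lit 1107996504)], (nat_lit 1100000), (nat_lit 1271251), (nat_lit 1271251), (nat_lit 1271251), (nat_lit 0), (nat_lit 2613125), [(nat_lit 1695001), (nat_lit 1271251), (nat_lit 1271251)], [(nat_lit 28), (nat_lit 65), (nat_lit 456), (nat_lit 225), (nat_lit 11)]⟩⟩) (.spl (nat_lit 6) (nat_lit 16) (.leaf ⟨(nat_lit 957), (nat_lit 0), (nat_lit 0), (nat_lit 43), (nat_lit 0),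 (nat_lit 3029), (nat_lit 832), (nat_lit 466), (nat_lit 0), (nat_lit 0), (nat_lit 617400), [((nat_lit 360), [((nat_lit 39), (nat_lit 2), (nat_lit 849)), ((nat_lit 21), (nat_lit 2), (nat_lit 108))])], ⟨(nat_lit 5), false, false, false, (nat_lit 146), (nat_lit 3162), (nat_lit 3873), [(nat_lit 1306338), (nat_lit 1317043), (nat_lit 1349867), (nat_lit 1361295), (nat_lit 1370892), (nat_lit 1378028), (nat_lit 1414421), (nat_lit 1422280)]⟩, ⟨(nat_lit 6), false, false, true, (nat_lit 240), (nat_lit 3162), (nat_lit 3873), [(nat_lit 1520934), (nat_lit 1516642), (nat_lit 1542727), (nat_lit 1538797), (nat_lit 1666107), (nat_lit 1653787), (nat_lit 1687900), (nat_lit 1675942)]⟩, (nat_lit 4702138), (nat_lit 42867633), (nat_lit 7545880), (nat_lit 16586487), (nat_lit 0), (nat_lit 0), [⟨(nat_lit 0), (nat_lit 100), (nat_lit 66), (nat_lit 82), (nat_lit 94063362)⟩], [⟨(nat_lit 1), (nat_lit 85), (nat_lit 67), (nat_lit 100), (nat_lit 178730077)⟩], [], [],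
 ⟨⟨[(nat_lit 40), (nat_lit 60), (nat_lit 80)], [(nat_lit 0), (nat_lit 398), (nat_lit 992)], [((nat_lit 0), (nat_lit 0), (nat_lit 0)), ((nat_lit 1000), (nat_lit 814), (nat_lit 310)), ((nat_lit 1000), (nat_lit 752), (nat_lit 464))], ((nat_lit 77), (nat_lit 100), (nat_lit 42))⟩, (nat_lit 192657), (nat_lit 163), (nat_lit 163), (nat_lit 0), (nat_lit 264074), [(nat_lit 1330856806), (nat_lit 1229077719), (nat_lit 886724081)], [(nat_lit 0), (nat_lit 0), (nat_lit 0)], [(nat_lit 20951854832), (nat_lit 22054954760), (nat_lit 21399247500), (nat_lit 22452432532), (nat_lit 24489121951), (nat_lit 25610551419), (nat_lit 24792019845), (nat_lit 25799982624)], (nat_lit 1271251), (nat_lit 1271251), (nat_lit 490000), (nat_lit 780000), (nat_lit 1271251), (nat_lit 1271251), [(nat_lit 490000), (nat_lit 780000), (nat_lit 1100000)], [(nat_lit 2), (nat_lit 44), (nat_lit 238), (nat_lit 30), (nat_lit 9)]⟩,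
 ⟨⟨[(nat_lit 100), (nat_lit 120), (nat_lit 140)], [(nat_lit 0), (nat_lit 0), (nat_lit 533)], [((nat_lit 0), (nat_lit 0), (nat_lit 0)), ((nat_lit 0), (nat_lit 0), (nat_lit 0)), ((nat_lit 924), (nat_lit 1000), (nat_lit 383))], ((nat_lit 100), (nat_lit 92), (nat_lit 39))⟩, (nat_lit 728513), (nat_lit 505), (nat_lit 505), (nat_lit 0), (nat_lit 578685), [(nat_lit 268750000), (nat_lit 342624000), (nat_lit 423206000)], [], [(nat_lit 1314445856), (nat_lit 741593939), (nat_lit 1506002976), (nat_lit 682560096), (nat_lit 3213183708), (nat_lit 2476305852), (nat_lit 3500415212), (nat_lit 2772646716)], (nat_lit 1271251), (nat_lit 1271251), (nat_lit 490000), (nat_lit 780000), (nat_lit 0), (nat_lit 2613125), [(nat_lit 1412501), (nat_lit 1271251), (nat_lit 1271251)], [(nat_lit 22), (nat_lit 58), (nat_lit 428), (nat_lit 200), (nat_lit 13)]⟩,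
 ⟨⟨[(nat_lit 120), (nat_lit 140), (nat_lit 160)], [(nat_lit 0), (nat_lit 0), (nat_lit 609)], [((nat_lit 0), (nat_lit 0), (nat_lit 0)), ((nat_lit 0), (nat_lit 0), (nat_lit 0)), ((nat_lit 840), (nat_lit 1000), (nat_lit 400))], ((nat_lit 100), (nat_lit 84), (nat_lit 40))⟩, (nat_lit 44059), (nat_lit 300), (nat_lit 1318), (nat_lit 3022901), (nat_lit 2236498), [(nat_lit 342624000), (nat_lit 423206000), (nat_lit 510496000)], [], [(nat_lit 2173144376), (nat_lit 2150762694), (nat_lit 2149666231), (nat_lit 2132073223), (nat_lit 2162479159), (nat_lit 2307369405), (nat_lit 1703063484), (nat_lit 1686270341)], (nat_lit 1100000), (nat_lit 1271251), (nat_lit 1271251), (nat_lit 1271251), (nat_lit 0), (nat_lit 2613125), [(nat_lit 1695001), (nat_lit 1271251), (nat_lit 1271251)], [(nat_lit 27), (nat_lit 62), (nat_lit 456), (nat_lit 225), (nat_lit 12)]⟩⟩) (.spl (nat_lit 0) (nat_lit 350) (.leaf ⟨(nat_lit 945), (nat_lit 0), (nat_lit 0), (nat_lit 55), (nat_lit 1297), (nat_lit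 3260), (nat_lit 981), (nat_lit 720), (nat_lit 0), (nat_lit 0), (nat_lit 442800), [((nat_lit 350), [((nat_lit 21), (nat_lit 1), (nat_lit 621)), ((nat_lit 39), (nat_lit 2), (nat_lit 324))])], ⟨(nat_lit 5), false, false, false, (nat_lit 145), (nat_lit 3535), (nat_lit 3873), [(nat_lit 1306417), (nat_lit 1311697), (nat_lit 1349991), (nat_lit 1355590), (nat_lit 1370945), (nat_lit 1374465), (nat_lit 1414519), (nat_lit 1418358)]⟩, ⟨(nat_lit 6), false, false, true, (nat_lit 241), (nat_lit 3535), (nat_lit 3873), [(nat_lit 1520934), (nat_lit 1518855), (nat_lit 1542727), (nat_lit 1540807), (nat_lit 1666107), (nat_lit 1660068), (nat_lit 1687900), (nat_lit 1682021)]⟩, (nat_lit 4697770), (nat_lit 42851848), (nat_lit 7471653), (nat_lit 16676499), (nat_lit 0), (nat_lit 0), [⟨(nat_lit 0), (nat_lit 100), (nat_lit 69), (nat_lit 79), (nat_lit 23979488)⟩, ⟨(nat_lit 0), (nat_lit 100), (nat_lit 68), (nat_lit 89), (nat_lit 94957181)⟩], [⟨(nat_lit 1), (nat_lit 77), (nat_lit 72),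 (nat_lit 100), (nat_lit 191258922)⟩], [⟨(nat_lit 0), (nat_lit 100), (nat_lit 98), (nat_lit 10), (nat_lit 10747239)⟩], [],
 ⟨⟨[(nat_lit 40), (nat_lit 60), (nat_lit 80)], [(nat_lit 0), (nat_lit 398), (nat_lit 992)], [((nat_lit 0), (nat_lit 0), (nat_lit 0)), ((nat_lit 1000), (nat_lit 814), (nat_lit 310)), ((nat_lit 1000), (nat_lit 752), (nat_lit 464))], ((nat_lit 73), (nat_lit 100), (nat_lit 55))⟩, (nat_lit 766), (nat_lit 110), (nat_lit 110), (nat_lit 0), (nat_lit 106486), [(nat_lit 1368810402), (nat_lit 1496983858), (nat_lit 1454674400)], [(nat_lit 0), (nat_lit 0), (nat_lit 0)], [(nat_lit 20776470430), (nat_lit 21410150620), (nat_lit 21199351060), (nat_lit 21803353705), (nat_lit 24752775486), (nat_lit 25308691162), (nat_lit 24989791844), (nat_lit 25490405476)], (nat_lit 1271251), (nat_lit 1271251), (nat_lit 490000), (nat_lit 780000), (nat_lit 1271251), (nat_lit 1271251), [(nat_lit 490000), (nat_lit 780000), (nat_lit 1100000)], [(nat_lit 2), (nat_lit 44),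 (nat_lit 238), (nat_lit 30), (nat_lit 9)]⟩,
 ⟨⟨[(nat_lit 100), (nat_lit 140), (nat_lit 160)], [(nat_lit 0), (nat_lit 0), (nat_lit 1280)], [((nat_lit 0), (nat_lit 0), (nat_lit 0)), ((nat_lit 0), (nat_lit 0), (nat_lit 0)), ((nat_lit 800), (nat_lit 1000), (nat_lit 600))], ((nat_lit 100), (nat_lit 84), (nat_lit 54))⟩, (nat_lit 311026), (nat_lit 390), (nat_lit 390), (nat_lit 0), (nat_lit 198796), [(nat_lit 343750000), (nat_lit 541310000), (nat_lit 652960000)], [], [(nat_lit 2450428980), (nat_lit 1643775828), (nat_lit 1956213299), (nat_lit 1547554120), (nat_lit 4009078168), (nat_lit 3140235407), (nat_lit 4352736131), (nat_lit 3494634094)], (nat_lit 1271251), (nat_lit 1271251), (nat_lit 490000), (nat_lit 780000), (nat_lit 0), (nat_lit 2613125), [(nat_lit 1412501), (nat_lit 1271251), (nat_lit 1271251)], [(nat_lit 23), (nat_lit 62), (nat_lit 428), (nat_lit 200), (nat_lit 11)]⟩,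
 ⟨⟨[(nat_lit 120), (nat_lit 160), (nat_lit 180)], [(nat_lit 0), (nat_lit 0), (nat_lit 1613)], [((nat_lit 0), (nat_lit 0), (nat_lit 0)), ((nat_lit 0), (nat_lit 0), (nat_lit 0)), ((nat_lit 620), (nat_lit 1000), (nat_lit 670))], ((nat_lit 100), (nat_lit 73), (nat_lit 55))⟩, (nat_lit 23937), (nat_lit 300), (nat_lit 752), (nat_lit 4081000), (nat_lit 841432), [(nat_lit 438240000), (nat_lit 652960000), (nat_lit 773190000)], [], [(nat_lit 2988044240), (nat_lit 2961626925), (nat_lit 3019126570), (nat_lit 2986541507), (nat_lit 2797720520), (nat_lit 3013750360), (nat_lit 2317281996), (nat_lit 2296933306)], (nat_lit 1100000), (nat_lit 1271251), (nat_lit 1271251), (nat_lit 1271251), (nat_lit 0), (nat_lit 2613125), [(nat_lit 1695001), (nat_lit 1271251), (nat_lit 1271251)], [(nat_lit 28), (nat_lit 65), (nat_lit 456), (nat_lit 225), (nat_lit 11)]⟩⟩) (.trX (nat_lit 4) (nat_lit 0) (nat_lit 2) (nat_lit 66) (nat_lit 82) (nat_lit 100) (nat_lit 320) (.leaf ⟨(nat_lit 953),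 (nat_lit 7), (nat_lit 0), (nat_lit 40), (nat_lit 0), (nat_lit 3397), (nat_lit 838), (nat_lit 533), (nat_lit 0), (nat_lit 0), (nat_lit 341300), [((nat_lit 360), [((nat_lit 21), (nat_lit 0), (nat_lit 266)), ((nat_lit 21), (nat_lit 1), (nat_lit 687))])], ⟨(nat_lit 5), false, false, false, (nat_lit 147), (nat_lit 3162), (nat_lit 3536), [(nat_lit 1311684), (nat_lit 1317108), (nat_lit 1355573), (nat_lit 1361401), (nat_lit 1374456), (nat_lit 1378072), (nat_lit 1418344), (nat_lit 1422365)]⟩, ⟨(nat_lit 6), false, false, true, (nat_lit 236), (nat_lit 3162), (nat_lit 3536), [(nat_lit 1518855), (nat_lit 1516642), (nat_lit 1540807), (nat_lit 1538797), (nat_lit 1644378), (nat_lit 1638549), (nat_lit 1666330), (nat_lit 1660704)]⟩, (nat_lit 4688598), (nat_lit 43139316), (nat_lit 7648952), (nat_lit 16211732), (nat_lit 6), (nat_lit 0), [⟨(nat_lit 0), (nat_lit 100), (nat_lit 64), (nat_lit 84), (nat_lit 5428015)⟩, ⟨(nat_lit 0), (nat_lit 100), (nat_lit 61), (nat_lit 92),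 (nat_lit 126335237)⟩], [⟨(nat_lit 1), (nat_lit 82), (nat_lit 66), (nat_lit 100), (nat_lit 205484940)⟩], [⟨(nat_lit 0), (nat_lit 100), (nat_lit 98), (nat_lit 10), (nat_lit 1988379)⟩], [],
 ⟨⟨[(nat_lit 40), (nat_lit 60), (nat_lit 80)], [(nat_lit 0), (nat_lit 600), (nat_lit 1195)], [((nat_lit 0), (nat_lit 0), (nat_lit 0)), ((nat_lit 1000), (nat_lit 725), (nat_lit 454)), ((nat_lit 1000), (nat_lit 720), (nat_lit 465))], ((nat_lit 69), (nat_lit 100), (nat_lit 56))⟩, (nat_lit 345462), (nat_lit 121), (nat_lit 121), (nat_lit 0), (nat_lit 150752), [(nat_lit 1394999408), (nat_lit 1554545395), (nat_lit 1770290005)], [(nat_lit 0), (nat_lit 0), (nat_lit 0)], [(nat_lit 21698382578), (nat_lit 22278642430), (nat_lit 22073596038), (nat_lit 22626906826), (nat_lit 24880976140), (nat_lit 25546014812), (nat_lit 25032098514), (nat_lit 25640466897)], (nat_lit 1271251), (nat_lit 1271251), (nat_lit 490000), (nat_lit 780000), (nat_lit 1271251), (nat_lit 1271251), [(nat_lit 490000),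 (nat_lit 780000), (nat_lit 1100000)], [(nat_lit 2), (nat_lit 44), (nat_lit 238), (nat_lit 30), (nat_lit 9)]⟩,
 ⟨⟨[(nat_lit 100), (nat_lit 140), (nat_lit 160)], [(nat_lit 0), (nat_lit 0), (nat_lit 1280)], [((nat_lit 0), (nat_lit 0), (nat_lit 0)), ((nat_lit 0), (nat_lit 0), (nat_lit 0)), ((nat_lit 800), (nat_lit 1000), (nat_lit 600))], ((nat_lit 100), (nat_lit 84), (nat_lit 54))⟩, (nat_lit 265146), (nat_lit 437), (nat_lit 437), (nat_lit 0), (nat_lit 290626), [(nat_lit 293750000), (nat_lit 462574000), (nat_lit 557984000)], [], [(nat_lit 2093856320), (nat_lit 1405496604), (nat_lit 1671784394), (nat_lit 1322703916), (nat_lit 3425564957), (nat_lit 2683373078), (nat_lit 3719148131), (nat_lit 2986131304)], (nat_lit 1271251), (nat_lit 1271251), (nat_lit 490000), (nat_lit 780000), (nat_lit 0), (nat_lit 2613125), [(nat_lit 1412501), (nat_lit 1271251), (nat_lit 1271251)], [(nat_lit 23), (nat_lit 62), (nat_lit 428), (nat_lit 200), (nat_lit 11)]⟩,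
 ⟨⟨[(nat_lit 120), (nat_lit 160), (nat_lit 180)], [(nat_lit 0), (nat_lit 0), (nat_lit 1613)], [((nat_lit 0), (nat_lit 0), (nat_lit 0)), ((nat_lit 0), (nat_lit 0), (nat_lit 0)), ((nat_lit 620), (nat_lit 1000), (nat_lit 670))], ((nat_lit 100), (nat_lit 73), (nat_lit 55))⟩, (nat_lit 17409), (nat_lit 300), (nat_lit 943), (nat_lit 2968000), (nat_lit 1264787), [(nat_lit 318720000), (nat_lit 474880000), (nat_lit 562320000)], [], [(nat_lit 2158516148), (nat_lit 2138713281), (nat_lit 2170922796), (nat_lit 2147687379), (nat_lit 2037104942), (nat_lit 2196537064), (nat_lit 1661952928), (nat_lit 1647608063)], (nat_lit 1100000), (nat_lit 1271251), (nat_lit 1271251), (nat_lit 1271251), (nat_lit 0), (nat_lit 2613125), [(nat_lit 1695001), (nat_lit 1271251), (nat_lit 1271251)], [(nat_lit 28), (nat_lit 65), (nat_lit 456), (nat_lit 225), (nat_lit 11)]⟩⟩)))))))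
noncomputable def c7_8 : Tr Lf :=
 (.spl (nat_lit 1) (nat_lit 180) (.leaf ⟨(nat_lit 1000), (nat_lit 0), (nat_lit 0), (nat_lit 0), (nat_lit 0), (nat_lit 3409), (nat_lit 0), (nat_lit 0), (nat_lit 0), (nat_lit 494426559219), (nat_lit 680400), [((nat_lit 360), [((nat_lit 39), (nat_lit 2), (nat_lit 799)), ((nat_lit 21), (nat_lit 2), (nat_lit 201))])], ⟨(nat_lit 3), false, false, true, (nat_lit 153), (nat_lit 3162), (nat_lit 3873), [(nat_lit 1283782), (nat_lit 1289472), (nat_lit 1349127), (nat_lit 1355902), (nat_lit 1412825), (nat_lit 1411379), (nat_lit 1478205), (nat_lit 1477844)]⟩, ⟨(nat_lit 3), false, false, true, (nat_lit 165), (nat_lit 3162), (nat_lit 3873), [(nat_lit 1283782), (nat_lit 1289472), (nat_lit 1349127), (nat_lit 1355902), (nat_lit 1477347), (nat_lit 1472332), (nat_lit 1542727), (nat_lit 1538797)]⟩, (nat_lit 4161342), (nat_lit 48649780), (nat_lit 8610800), (nat_lit 9739420), (nat_lit 0), (nat_lit 0), [], [], [], [],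
 ⟨⟨[(nat_lit 40), (nat_lit 60), (nat_lit 80)], [(nat_lit 0), (nat_lit 398), (nat_lit 992)], [((nat_lit 0), (nat_lit 0), (nat_lit 0)), ((nat_lit 1000), (nat_lit 814), (nat_lit 310)), ((nat_lit 1000), (nat_lit 752), (nat_lit 464))], ((nat_lit 73), (nat_lit 100), (nat_lit 55))⟩, (nat_lit 401895), (nat_lit 177), (nat_lit 177), (nat_lit 0), (nat_lit 396999), [(nat_lit 1304458403), (nat_lit 1093920155), (nat_lit 608838245)], [(nat_lit 0), (nat_lit 0), (nat_lit 0)], [(nat_lit 17593002597), (nat_lit 18997941362), (nat_lit 19398409879), (nat_lit 20685863039), (nat_lit 20630293790), (nat_lit 21881927847), (nat_lit 22108757138), (nat_lit 23183904074)], (nat_lit 1271251), (nat_lit 1271251), (nat_lit 780000), (nat_lit 1435001), (nat_lit 780000), (nat_lit 1762501), [(nat_lit 490000), (nat_lit 780000), (nat_lit 1100000)], [(nat_lit 2), (nat_lit 44), (nat_lit 345), (nat_lit 125), (nat_lit 15)]⟩,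
 Rw.none,
 Rw.none⟩) (.stt (nat_lit 3) (.leaf ⟨(nat_lit 929), (nat_lit 22), (nat_lit 0), (nat_lit 49), (nat_lit 0), (nat_lit 3450), (nat_lit 958), (nat_lit 730), (nat_lit 0), (nat_lit 0), (nat_lit 575800), [((nat_lit 360), [((nat_lit 39), (nat_lit 2), (nat_lit 883)), ((nat_lit 21), (nat_lit 2), (nat_lit 46))])], ⟨(nat_lit 4), false, false, false, (nat_lit 179), (nat_lit 3162), (nat_lit 3873), [(nat_lit 1349127), (nat_lit 1355902), (nat_lit 1414421), (nat_lit 1422280), (nat_lit 1478205), (nat_lit 1477844), (nat_lit 1543529), (nat_lit 1544252)]⟩, ⟨(nat_lit 3), true, false, true, (nat_lit 165), (nat_lit 3162), (nat_lit 3873), [(nat_lit 1283782), (nat_lit 1289472), (nat_lit 1349127), (nat_lit 1355902), (nat_lit 1477347), (nat_lit 1472332), (nat_lit 1542727), (nat_lit 1538797)]⟩, (nat_lit 4433361), (nat_lit 46576347), (nat_lit 10853469), (nat_lit 9570184), (nat_lit 3), (nat_lit 0), [], [], [], [],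
 ⟨⟨[(nat_lit 40), (nat_lit 60), (nat_lit 80)], [(nat_lit 0), (nat_lit 398), (nat_lit 992)], [((nat_lit 0), (nat_lit 0), (nat_lit 0)), ((nat_lit 1000), (nat_lit 814), (nat_lit 310)), ((nat_lit 1000), (nat_lit 752), (nat_lit 464))], ((nat_lit 73), (nat_lit 100), (nat_lit 55))⟩, (nat_lit 506712), (nat_lit 199), (nat_lit 199), (nat_lit 0), (nat_lit 473567), [(nat_lit 1348077604), (nat_lit 1311669510), (nat_lit 1075573090)], [(nat_lit 0), (nat_lit 0), (nat_lit 0)], [(nat_lit 18280437646), (nat_lit 19476544383), (nat_lit 19814242108), (nat_lit 20885140053), (nat_lit 20833829508), (nat_lit 21914343698), (nat_lit 22180732691), (nat_lit 23260312466)], (nat_lit 1271251), (nat_lit 1271251), (nat_lit 780000), (nat_lit 1435001), (nat_lit 780000), (nat_lit 1762501), [(nat_lit 490000), (nat_lit 780000), (nat_lit 1100000)], [(nat_lit 2), (nat_lit 44), (nat_lit 345), (nat_lit 125), (nat_lit 15)]⟩,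
 ⟨⟨[(nat_lit 120), (nat_lit 160), (nat_lit 180)], [(nat_lit 0), (nat_lit 533), (nat_lit 2066)], [((nat_lit 0), (nat_lit 0), (nat_lit 0)), ((nat_lit 960), (nat_lit 1000), (nat_lit 200)), ((nat_lit 615), (nat_lit 1000), (nat_lit 729))], ((nat_lit 100), (nat_lit 79), (nat_lit 55))⟩, (nat_lit 1544919), (nat_lit 1163), (nat_lit 1163), (nat_lit 0), (nat_lit 1648384), [(nat_lit 565728000), (nat_lit 842912000), (nat_lit 998118000)], [], [(nat_lit 2510595829), (nat_lit 1588980940), (nat_lit 3080193005), (nat_lit 1637351600), (nat_lit 4679883955), (nat_lit 3386637124), (nat_lit 5662379212), (nat_lit 4401653128)], (nat_lit 1271251), (nat_lit 1271251), (nat_lit 780000), (nat_lit 1435001), (nat_lit 0), (nat_lit 2825001), [(nat_lit 1695001), (nat_lit 1271251), (nat_lit 1271251)], [(nat_lit 28), (nat_lit 65), (nat_lit 456), (nat_lit 225), (nat_lit 11)]⟩,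
 ⟨⟨[(nat_lit 140), (nat_lit 180), (nat_lit 200)], [(nat_lit 0), (nat_lit 0), (nat_lit 2835)], [((nat_lit 0), (nat_lit 0), (nat_lit 0)), ((nat_lit 0), (nat_lit 0), (nat_lit 0)), ((nat_lit 363), (nat_lit 1000), (nat_lit 798))], ((nat_lit 0), (nat_lit 0), (nat_lit 0))⟩, (nat_lit 17436), (nat_lit 300), (nat_lit 491), (nat_lit 3826900), (nat_lit 0), [(nat_lit 482258000), (nat_lit 688842000), (nat_lit 803600000)], [], [(nat_lit 3407470416), (nat_lit 3277212601), (nat_lit 3190722120), (nat_lit 3052579937), (nat_lit 2742195328), (nat_lit 2577395896), (nat_lit 2443170216), (nat_lit 2275988877)], (nat_lit 0), (nat_lit 0), (nat_lit 0), (nat_lit 0), (nat_lit 0), (nat_lit 0), [], [(nat_lit 32), (nat_lit 67), (nat_lit 456), (nat_lit 225), (nat_lit 10)]⟩⟩) (.leaf ⟨(nat_lit 1000), (nat_lit 0), (nat_lit 0), (nat_lit 0), (nat_lit 0), (nat_lit 3259), (nat_lit 0), (nat_lit 0), (nat_lit 0), (nat_lit 0), (nat_lit 680400), [((nat_lit 360), [((nat_lit 39), (nat_lit 2), (nat_lit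 799)), ((nat_lit 21), (nat_lit 2), (nat_lit 201))])], ⟨(nat_lit 4), false, false, false, (nat_lit 179), (nat_lit 3162), (nat_lit 3873), [(nat_lit 1349127), (nat_lit 1355902), (nat_lit 1414421), (nat_lit 1422280), (nat_lit 1478205), (nat_lit 1477844), (nat_lit 1543529), (nat_lit 1544252)]⟩, ⟨(nat_lit 3), false, false, true, (nat_lit 165), (nat_lit 3162), (nat_lit 3873), [(nat_lit 1283782), (nat_lit 1289472), (nat_lit 1349127), (nat_lit 1355902), (nat_lit 1477347), (nat_lit 1472332), (nat_lit 1542727), (nat_lit 1538797)]⟩, (nat_lit 4433361), (nat_lit 46576347), (nat_lit 10853469), (nat_lit 9570184), (nat_lit 0), (nat_lit 0), [], [], [], [],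
 ⟨⟨[(nat_lit 40), (nat_lit 60), (nat_lit 80)], [(nat_lit 0), (nat_lit 398), (nat_lit 992)], [((nat_lit 0), (nat_lit 0), (nat_lit 0)), ((nat_lit 1000), (nat_lit 814), (nat_lit 310)), ((nat_lit 1000), (nat_lit 752), (nat_lit 464))], ((nat_lit 73), (nat_lit 100), (nat_lit 55))⟩, (nat_lit 149220), (nat_lit 173), (nat_lit 173), (nat_lit 0), (nat_lit 382766), [(nat_lit 1304458401), (nat_lit 1065404199), (nat_lit 637354201)], [(nat_lit 0), (nat_lit 0), (nat_lit 0)], [(nat_lit 17741689525), (nat_lit 19044823506), (nat_lit 19409574281), (nat_lit 20609797619), (nat_lit 20552506435), (nat_lit 21765500397), (nat_lit 21974210044), (nat_lit 23094626174)], (nat_lit 1271251), (nat_lit 1271251), (nat_lit 780000), (nat_lit 1435001), (nat_lit 780000), (nat_lit 1762501), [(nat_lit 490000), (nat_lit 780000), (nat_lit 1100000)], [(nat_lit 2), (nat_lit 44), (nat_lit 345), (nat_lit 125), (nat_lit 15)]⟩,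
 Rw.none,
 Rw.none⟩)))
noncomputable def c7_9 : Tr Lf :=
 (.spl (nat_lit 2) (nat_lit 160) (.trX (nat_lit 4) (nat_lit 0) (nat_lit 2) (nat_lit 73) (nat_lit 85) (nat_lit 100) (nat_lit 320) (.leaf ⟨(nat_lit 1000), (nat_lit 0), (nat_lit 0), (nat_lit 0), (nat_lit 0), (nat_lit 3201), (nat_lit 0), (nat_lit 0), (nat_lit 0), (nat_lit 115594), (nat_lit 680400), [((nat_lit 360), [((nat_lit 39), (nat_lit 2), (nat_lit 799)), ((nat_lit 21), (nat_lit 2), (nat_lit 201))])], ⟨(nat_lit 3), false, false, true, (nat_lit 153), (nat_lit 3162), (nat_lit 3873), [(nat_lit 1283782), (nat_lit 1289472), (nat_lit 1349127), (nat_lit 1355902), (nat_lit 1412825), (nat_lit 1411379), (nat_lit 1478205), (nat_lit 1477844)]⟩, ⟨(nat_lit 6), false, false, true, (nat_lit 224), (nat_lit 3162), (nat_lit 3873), [(nat_lit 1477347), (nat_lit 1472332), (nat_lit 1520934), (nat_lit 1516642), (nat_lit 1606390), (nat_lit 1594239), (nat_lit 1649977), (nat_lit 1638549)]⟩, (nat_lit 4668952), (nat_lit 43809065),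 (nat_lit 8207257), (nat_lit 14983678), (nat_lit 0), (nat_lit 0), [], [⟨(nat_lit 1), (nat_lit 96), (nat_lit 69), (nat_lit 100), (nat_lit 230754130)⟩], [], [],
 ⟨⟨[(nat_lit 40), (nat_lit 60), (nat_lit 80)], [(nat_lit 0), (nat_lit 398), (nat_lit 992)], [((nat_lit 0), (nat_lit 0), (nat_lit 0)), ((nat_lit 1000), (nat_lit 814), (nat_lit 310)), ((nat_lit 1000), (nat_lit 752), (nat_lit 464))], ((nat_lit 73), (nat_lit 100), (nat_lit 55))⟩, (nat_lit 48357), (nat_lit 184), (nat_lit 184), (nat_lit 0), (nat_lit 395788), [(nat_lit 1304458402), (nat_lit 1091679324), (nat_lit 611079076)], [(nat_lit 0), (nat_lit 0), (nat_lit 0)], [(nat_lit 21391982513), (nat_lit 22405403431), (nat_lit 22687590525), (nat_lit 23673782177), (nat_lit 24376335367), (nat_lit 25413988701), (nat_lit 25532363168), (nat_lit 26428110677)], (nat_lit 1271251), (nat_lit 1271251), (nat_lit 780000), (nat_lit 1435001), (nat_lit 1271251), (nat_lit 1271251), [(nat_lit 490000), (nat_lit 780000), (nat_lit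 1100000)], [(nat_lit 2), (nat_lit 44), (nat_lit 260), (nat_lit 50), (nat_lit 10)]⟩,
 Rw.none,
 Rw.none⟩)) (.ord (.leaf ⟨(nat_lit 956), (nat_lit 0), (nat_lit 0), (nat_lit 44), (nat_lit 0), (nat_lit 3227), (nat_lit 615), (nat_lit 655), (nat_lit 0), (nat_lit 1448061786325), (nat_lit 616000), [((nat_lit 360), [((nat_lit 39), (nat_lit 2), (nat_lit 850)), ((nat_lit 21), (nat_lit 2), (nat_lit 106))])], ⟨(nat_lit 4), false, false, false, (nat_lit 162), (nat_lit 3162), (nat_lit 3873), [(nat_lit 1327361), (nat_lit 1333774), (nat_lit 1349127), (nat_lit 1355902), (nat_lit 1456412), (nat_lit 1455689), (nat_lit 1478205), (nat_lit 1477844)]⟩, ⟨(nat_lit 6), false, false, true, (nat_lit 240), (nat_lit 3162), (nat_lit 3873), [(nat_lit 1520934), (nat_lit 1516642), (nat_lit 1542727), (nat_lit 1538797), (nat_lit 1666107), (nat_lit 1653787), (nat_lit 1687900), (nat_lit 1675942)]⟩, (nat_lit 4853218), (nat_lit 41915246), (nat_lit 8727646), (nat_lit 16357108), (nat_lit 0), (nat_lit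 0), [], [⟨(nat_lit 1), (nat_lit 85), (nat_lit 67), (nat_lit 100), (nat_lit 204242886)⟩], [], [⟨(nat_lit 0), (nat_lit 76), (nat_lit 100), (nat_lit 65), (nat_lit 3689100)⟩],
 ⟨⟨[(nat_lit 40), (nat_lit 60), (nat_lit 80)], [(nat_lit 0), (nat_lit 398), (nat_lit 992)], [((nat_lit 0), (nat_lit 0), (nat_lit 0)), ((nat_lit 1000), (nat_lit 814), (nat_lit 310)), ((nat_lit 1000), (nat_lit 752), (nat_lit 464))], ((nat_lit 73), (nat_lit 100), (nat_lit 55))⟩, (nat_lit 153955), (nat_lit 167), (nat_lit 167), (nat_lit 0), (nat_lit 321633), [(nat_lit 1331467231), (nat_lit 1183418590), (nat_lit 941708610)], [(nat_lit 0), (nat_lit 0), (nat_lit 0)], [(nat_lit 21292455731), (nat_lit 22412105241), (nat_lit 22726089419), (nat_lit 23729578336), (nat_lit 24907527977), (nat_lit 26002862439), (nat_lit 26012387598), (nat_lit 26893427021)], (nat_lit 1271251), (nat_lit 1271251), (nat_lit 780000), (nat_lit 1435001), (nat_lit 1271251), (nat_lit 1271251), [(nat_lit 490000), (nat_lit 780000),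 (nat_lit 1100000)], [(nat_lit 2), (nat_lit 44), (nat_lit 260), (nat_lit 50), (nat_lit 10)]⟩,
 ⟨⟨[(nat_lit 120), (nat_lit 160), (nat_lit 180)], [(nat_lit 0), (nat_lit 0), (nat_lit 1613)], [((nat_lit 0), (nat_lit 0), (nat_lit 0)), ((nat_lit 0), (nat_lit 0), (nat_lit 0)), ((nat_lit 620), (nat_lit 1000), (nat_lit 670))], ((nat_lit 100), (nat_lit 73), (nat_lit 55))⟩, (nat_lit 117039), (nat_lit 1222), (nat_lit 1222), (nat_lit 0), (nat_lit 1768900), [(nat_lit 350592000), (nat_lit 522368000), (nat_lit 618552000)], [], [(nat_lit 2044950891), (nat_lit 2033996462), (nat_lit 1930378979), (nat_lit 1916720147), (nat_lit 2755274008), (nat_lit 2929953022), (nat_lit 3374902154), (nat_lit 3556540200)], (nat_lit 1100000), (nat_lit 1271251), (nat_lit 780000), (nat_lit 1435001), (nat_lit 0), (nat_lit 2825001), [(nat_lit 1695001), (nat_lit 1271251), (nat_lit 1271251)], [(nat_lit 28), (nat_lit 65), (nat_lit 428), (nat_lit 200), (nat_lit 10)]⟩,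
 ⟨⟨[(nat_lit 120), (nat_lit 160), (nat_lit 180)], [(nat_lit 0), (nat_lit 0), (nat_lit 1613)], [((nat_lit 0), (nat_lit 0), (nat_lit 0)), ((nat_lit 0), (nat_lit 0), (nat_lit 0)), ((nat_lit 620), (nat_lit 1000), (nat_lit 670))], ((nat_lit 100), (nat_lit 73), (nat_lit 55))⟩, (nat_lit 19150), (nat_lit 300), (nat_lit 1167), (nat_lit 3264800), (nat_lit 1768900), [(nat_lit 350592000), (nat_lit 522368000), (nat_lit 618552000)], [], [(nat_lit 2267198236), (nat_lit 2241084303), (nat_lit 2389997775), (nat_lit 2370650923), (nat_lit 2414422764), (nat_lit 2609521415), (nat_lit 1934745155), (nat_lit 1918576110)], (nat_lit 1100000), (nat_lit 1271251), (nat_lit 1271251), (nat_lit 1271251), (nat_lit 0), (nat_lit 2825001), [(nat_lit 1695001), (nat_lit 1271251), (nat_lit 1271251)], [(nat_lit 28), (nat_lit 65), (nat_lit 483), (nat_lit 250), (nat_lit 11)]⟩⟩)))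
noncomputable def c7_10 : Tr Lf :=
 (.stt (nat_lit 1) (.spl (nat_lit 2) (nat_lit 160) (.trX (nat_lit 4) (nat_lit 0) (nat_lit 2) (nat_lit 73) (nat_lit 85) (nat_lit 100) (nat_lit 320) (.leaf ⟨(nat_lit 1000), (nat_lit 0), (nat_lit 0), (nat_lit 0), (nat_lit 2667), (nat_lit 3828), (nat_lit 0), (nat_lit 0), (nat_lit 0), (nat_lit 0), (nat_lit 250000), [((nat_lit 360), [((nat_lit 21), (nat_lit 0), (nat_lit 1000))])], ⟨(nat_lit 4), false, false, false, (nat_lit 179), (nat_lit 3162), (nat_lit 3873), [(nat_lit 1349127), (nat_lit 1355902), (nat_lit 1414421), (nat_lit 1422280), (nat_lit 1478205), (nat_lit 1477844), (nat_lit 1543529), (nat_lit 1544252)]⟩, ⟨(nat_lit 6), false, false, true, (nat_lit 224), (nat_lit 3162), (nat_lit 3873), [(nat_lit 1477347), (nat_lit 1472332), (nat_lit 1520934), (nat_lit 1516642), (nat_lit 1606390), (nat_lit 1594239), (nat_lit 1649977), (nat_lit 1638549)]⟩, (nat_lit 4910486), (nat_lit 42088712), (nat_lit 10280943), (nat_lit 14630345),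 (nat_lit 0), (nat_lit 0), [], [⟨(nat_lit 1), (nat_lit 85), (nat_lit 73), (nat_lit 100), (nat_lit 255266847)⟩], [], [],
 ⟨⟨[(nat_lit 40), (nat_lit 60), (nat_lit 80)], [(nat_lit 0), (nat_lit 398), (nat_lit 992)], [((nat_lit 0), (nat_lit 0), (nat_lit 0)), ((nat_lit 1000), (nat_lit 814), (nat_lit 310)), ((nat_lit 1000), (nat_lit 752), (nat_lit 464))], ((nat_lit 73), (nat_lit 100), (nat_lit 55))⟩, (nat_lit 0), (nat_lit 64), (nat_lit 64), (nat_lit 0), (nat_lit 0), [(nat_lit 1561508984), (nat_lit 1737590437), (nat_lit 1963600000)], [(nat_lit 0), (nat_lit 0), (nat_lit 0)], [(nat_lit 21150437386), (nat_lit 22535513500), (nat_lit 22482919794), (nat_lit 23713926812), (nat_lit 24810529976), (nat_lit 26138487828), (nat_lit 25730896878), (nat_lit 26929781172)], (nat_lit 0), (nat_lit 0), (nat_lit 0), (nat_lit 0), (nat_lit 0), (nat_lit 0), [], [(nat_lit 2), (nat_lit 44), (nat_lit 260), (nat_lit 50), (nat_lit 10)]⟩,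
 Rw.none,
 Rw.none⟩)) (.leaf ⟨(nat_lit 1000), (nat_lit 0), (nat_lit 0), (nat_lit 0), (nat_lit 3010), (nat_lit 3647), (nat_lit 0), (nat_lit 0), (nat_lit 0), (nat_lit 0), (nat_lit 296050), [((nat_lit 360), [((nat_lit 21), (nat_lit 0), (nat_lit 693)), ((nat_lit 21), (nat_lit 1), (nat_lit 307))])], ⟨(nat_lit 4), false, false, false, (nat_lit 179), (nat_lit 3162), (nat_lit 3873), [(nat_lit 1349127), (nat_lit 1355902), (nat_lit 1414421), (nat_lit 1422280), (nat_lit 1478205), (nat_lit 1477844), (nat_lit 1543529), (nat_lit 1544252)]⟩, ⟨(nat_lit 6), false, false, true, (nat_lit 240), (nat_lit 3162), (nat_lit 3873), [(nat_lit 1520934), (nat_lit 1516642), (nat_lit 1542727), (nat_lit 1538797), (nat_lit 1666107), (nat_lit 1653787), (nat_lit 1687900), (nat_lit 1675942)]⟩, (nat_lit 5005478), (nat_lit 40830026), (nat_lit 10088607), (nat_lit 16081367), (nat_lit 0), (nat_lit 0), [], [⟨(nat_lit 1), (nat_lit 77), (nat_lit 72), (nat_lit 100), (nat_lit 246372457)⟩], [], [],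
 ⟨⟨[(nat_lit 40), (nat_lit 60), (nat_lit 80)], [(nat_lit 0), (nat_lit 398), (nat_lit 992)], [((nat_lit 0), (nat_lit 0), (nat_lit 0)), ((nat_lit 1000), (nat_lit 814), (nat_lit 310)), ((nat_lit 1000), (nat_lit 752), (nat_lit 464))], ((nat_lit 73), (nat_lit 100), (nat_lit 55))⟩, (nat_lit 0), (nat_lit 73), (nat_lit 73), (nat_lit 0), (nat_lit 0), [(nat_lit 1480300613), (nat_lit 1696437281), (nat_lit 1816362800)], [(nat_lit 0), (nat_lit 0), (nat_lit 0)], [(nat_lit 21154274362), (nat_lit 22464228425), (nat_lit 22512737230), (nat_lit 23672687013), (nat_lit 25249893164), (nat_lit 26518385034), (nat_lit 26152473458), (nat_lit 27295649681)], (nat_lit 0), (nat_lit 0), (nat_lit 0), (nat_lit 0), (nat_lit 0), (nat_lit 0), [], [(nat_lit 2), (nat_lit 44), (nat_lit 260), (nat_lit 50), (nat_lit 10)]⟩,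
 Rw.none,
 Rw.none⟩)) (.spl (nat_lit 2) (nat_lit 160) (.trX (nat_lit 4) (nat_lit 0) (nat_lit 2) (nat_lit 73) (nat_lit 85) (nat_lit 100) (nat_lit 320) (.spl (nat_lit 2) (nat_lit 140) (.trX (nat_lit 4) (nat_lit 0) (nat_lit 2) (nat_lit 75) (nat_lit 92) (nat_lit 100) (nat_lit 300) (.spl (nat_lit 0) (nat_lit 350) (.leaf ⟨(nat_lit 930), (nat_lit 20), (nat_lit 0), (nat_lit 50), (nat_lit 0), (nat_lit 3336), (nat_lit 902), (nat_lit 698), (nat_lit 0), (nat_lit 0), (nat_lit 577600), [((nat_lit 350), [((nat_lit 39), (nat_lit 2), (nat_lit 881)), ((nat_lit 21), (nat_lit 2), (nat_lit 49))])], ⟨(nat_lit 4), false, false, false, (nat_lit 179), (nat_lit 3535), (nat_lit 3873), [(nat_lit 1349157), (nat_lit 1352518), (nat_lit 1414519), (nat_lit 1418358), (nat_lit 1478205), (nat_lit 1478046), (nat_lit 1543574), (nat_lit 1543892)]⟩, ⟨(nat_lit 6), false, false, true, (nat_lit 214), (nat_lit 3535), (nat_lit 3873), [(nat_lit 1477347), (nat_lit 1474949), (nat_lit 1499140), (nat_lit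 1496902), (nat_lit 1574129), (nat_lit 1569092), (nat_lit 1595923), (nat_lit 1591044)]⟩, (nat_lit 4841778), (nat_lit 42879015), (nat_lit 10361937), (nat_lit 13759048), (nat_lit 6), (nat_lit 0), [], [⟨(nat_lit 1), (nat_lit 98), (nat_lit 74), (nat_lit 100), (nat_lit 164215641)⟩], [], [],
 ⟨⟨[(nat_lit 40), (nat_lit 60), (nat_lit 80)], [(nat_lit 0), (nat_lit 398), (nat_lit 992)], [((nat_lit 0), (nat_lit 0), (nat_lit 0)), ((nat_lit 1000), (nat_lit 814), (nat_lit 310)), ((nat_lit 1000), (nat_lit 752), (nat_lit 464))], ((nat_lit 73), (nat_lit 100), (nat_lit 55))⟩, (nat_lit 408937), (nat_lit 181), (nat_lit 181), (nat_lit 0), (nat_lit 411900), [(nat_lit 1347445602), (nat_lit 1309076297), (nat_lit 1067119303)], [(nat_lit 0), (nat_lit 0), (nat_lit 0)], [(nat_lit 21274528610), (nat_lit 21790197568), (nat_lit 22553546742), (nat_lit 23028525476), (nat_lit 23447501012), (nat_lit 23972824309), (nat_lit 24666644665), (nat_lit 25140891354)], (nat_lit 1271251), (nat_lit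 1271251), (nat_lit 780000), (nat_lit 1435001), (nat_lit 1271251), (nat_lit 1271251), [(nat_lit 490000), (nat_lit 780000), (nat_lit 1100000)], [(nat_lit 2), (nat_lit 44), (nat_lit 260), (nat_lit 50), (nat_lit 10)]⟩,
 ⟨⟨[(nat_lit 120), (nat_lit 160), (nat_lit 180)], [(nat_lit 0), (nat_lit 533), (nat_lit 2066)], [((nat_lit 0), (nat_lit 0), (nat_lit 0)), ((nat_lit 960), (nat_lit 1000), (nat_lit 200)), ((nat_lit 615), (nat_lit 1000), (nat_lit 729))], ((nat_lit 100), (nat_lit 79), (nat_lit 55))⟩, (nat_lit 1258939), (nat_lit 664), (nat_lit 664), (nat_lit 0), (nat_lit 572439), [(nat_lit 557760000), (nat_lit 831040000), (nat_lit 984060000)], [], [(nat_lit 2477048441), (nat_lit 1692166685), (nat_lit 3021115321), (nat_lit 1733945193), (nat_lit 4554640871), (nat_lit 3336990932), (nat_lit 5487958088), (nat_lit 4300927892)], (nat_lit 1271251), (nat_lit 1271251), (nat_lit 780000), (nat_lit 1435001), (nat_lit 0), (nat_lit 2825001), [(nat_lit 1695001), (nat_lit 1271251),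 (nat_lit 1271251)], [(nat_lit 28), (nat_lit 65), (nat_lit 456), (nat_lit 225), (nat_lit 11)]⟩,
 ⟨⟨[(nat_lit 140), (nat_lit 180), (nat_lit 200)], [(nat_lit 0), (nat_lit 0), (nat_lit 2835)], [((nat_lit 0), (nat_lit 0), (nat_lit 0)), ((nat_lit 0), (nat_lit 0), (nat_lit 0)), ((nat_lit 363), (nat_lit 1000), (nat_lit 798))], ((nat_lit 0), (nat_lit 0), (nat_lit 0))⟩, (nat_lit 13757), (nat_lit 300), (nat_lit 1331), (nat_lit 3905000), (nat_lit 1947870), [(nat_lit 492100000), (nat_lit 702900000), (nat_lit 820000000)], [], [(nat_lit 3330824824), (nat_lit 3271177216), (nat_lit 3300574522), (nat_lit 3239119303), (nat_lit 3035404448), (nat_lit 3202432200), (nat_lit 2519574522), (nat_lit 2458119303)], (nat_lit 780000), (nat_lit 936250), (nat_lit 1271251), (nat_lit 1271251), (nat_lit 0), (nat_lit 2825001), [(nat_lit 1977501), (nat_lit 1271251), (nat_lit 1271251)], [(nat_lit 32), (nat_lit 67), (nat_lit 456), (nat_lit 225), (nat_lit 10)]⟩⟩) (.trX (nat_lit 4) (nat_lit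 0) (nat_lit 2) (nat_lit 69) (nat_lit 96) (nat_lit 100) (nat_lit 290) (.leaf ⟨(nat_lit 945), (nat_lit 8), (nat_lit 0), (nat_lit 47), (nat_lit 0), (nat_lit 3309), (nat_lit 783), (nat_lit 665), (nat_lit 0), (nat_lit 0), (nat_lit 567000), [((nat_lit 360), [((nat_lit 39), (nat_lit 2), (nat_lit 945))])], ⟨(nat_lit 4), false, false, false, (nat_lit 180), (nat_lit 3162), (nat_lit 3536), [(nat_lit 1352511), (nat_lit 1355925), (nat_lit 1418344), (nat_lit 1422365), (nat_lit 1478046), (nat_lit 1477844), (nat_lit 1543888), (nat_lit 1544293)]⟩, ⟨(nat_lit 6), false, false, true, (nat_lit 209), (nat_lit 3162), (nat_lit 3536), [(nat_lit 1474949), (nat_lit 1472332), (nat_lit 1496902), (nat_lit 1494487), (nat_lit 1553401), (nat_lit 1548524), (nat_lit 1575354), (nat_lit 1570679)]⟩, (nat_lit 4815629), (nat_lit 43183064), (nat_lit 10472743), (nat_lit 13344193), (nat_lit 6), (nat_lit 0), [], [⟨(nat_lit 1), (nat_lit 100), (nat_lit 67), (nat_lit 99), (nat_lit 205291760)⟩], [],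 [],
 ⟨⟨[(nat_lit 40), (nat_lit 60), (nat_lit 80)], [(nat_lit 0), (nat_lit 600), (nat_lit 1195)], [((nat_lit 0), (nat_lit 0), (nat_lit 0)), ((nat_lit 1000), (nat_lit 725), (nat_lit 454)), ((nat_lit 1000), (nat_lit 720), (nat_lit 465))], ((nat_lit 69), (nat_lit 100), (nat_lit 56))⟩, (nat_lit 333178), (nat_lit 199), (nat_lit 199), (nat_lit 0), (nat_lit 467098), [(nat_lit 1339996006), (nat_lit 1312192565), (nat_lit 1060712000)], [(nat_lit 0), (nat_lit 0), (nat_lit 0)], [(nat_lit 21815715422), (nat_lit 22330768190), (nat_lit 23078924283), (nat_lit 23560919645), (nat_lit 23608108706), (nat_lit 24138355336), (nat_lit 24815072220), (nat_lit 25297326208)], (nat_lit 1271251), (nat_lit 1271251), (nat_lit 780000), (nat_lit 1435001), (nat_lit 1271251), (nat_lit 1271251), [(nat_lit 490000), (nat_lit 780000), (nat_lit 1100000)], [(nat_lit 2), (nat_lit 44), (nat_lit 260), (nat_lit 50), (nat_lit 10)]⟩,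
 ⟨⟨[(nat_lit 120), (nat_lit 160), (nat_lit 180)], [(nat_lit 0), (nat_lit 533), (nat_lit 2066)], [((nat_lit 0), (nat_lit 0), (nat_lit 0)), ((nat_lit 960), (nat_lit 1000), (nat_lit 200)), ((nat_lit 615), (nat_lit 1000), (nat_lit 729))], ((nat_lit 100), (nat_lit 79), (nat_lit 55))⟩, (nat_lit 1377003), (nat_lit 747), (nat_lit 747), (nat_lit 0), (nat_lit 723116), [(nat_lit 438240000), (nat_lit 652960000), (nat_lit 773190000)], [], [(nat_lit 1943083727), (nat_lit 1146884139), (nat_lit 2401161647), (nat_lit 1221887304), (nat_lit 3682330722), (nat_lit 2625324178), (nat_lit 4477412052), (nat_lit 3446985618)], (nat_lit 1271251), (nat_lit 1271251), (nat_lit 780000), (nat_lit 1435001), (nat_lit 0), (nat_lit 2825001), [(nat_lit 1695001), (nat_lit 1271251), (nat_lit 1271251)], [(nat_lit 28), (nat_lit 65), (nat_lit 456), (nat_lit 225), (nat_lit 11)]⟩,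
 ⟨⟨[(nat_lit 140), (nat_lit 180), (nat_lit 200)], [(nat_lit 0), (nat_lit 0), (nat_lit 2835)], [((nat_lit 0), (nat_lit 0), (nat_lit 0)), ((nat_lit 0), (nat_lit 0), (nat_lit 0)), ((nat_lit 363), (nat_lit 1000), (nat_lit 798))], ((nat_lit 0), (nat_lit 0), (nat_lit 0))⟩, (nat_lit 12931), (nat_lit 300), (nat_lit 1501), (nat_lit 3670704), (nat_lit 2315843), [(nat_lit 462574000), (nat_lit 660726000), (nat_lit 770800000)], [], [(nat_lit 3120223948), (nat_lit 3063209068), (nat_lit 3095636926), (nat_lit 3038215154), (nat_lit 2858126672), (nat_lit 3016860132), (nat_lit 2361496126), (nat_lit 2309831301)], (nat_lit 780000), (nat_lit 936250), (nat_lit 1271251), (nat_lit 1271251), (nat_lit 0), (nat_lit 2825001), [(nat_lit 1977501), (nat_lit 1271251), (nat_lit 1271251)], [(nat_lit 32), (nat_lit 67), (nat_lit 479), (nat_lit 225), (nat_lit 10)]⟩⟩)))) (.leaf ⟨(nat_lit 926), (nat_lit 4), (nat_lit 0), (nat_lit 70), (nat_lit 0), (nat_lit 3300), (nat_lit 953), (nat_lit 911),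 (nat_lit 0), (nat_lit 0), (nat_lit 572400), [((nat_lit 360), [((nat_lit 39), (nat_lit 2), (nat_lit 884)), ((nat_lit 21), (nat_lit 2), (nat_lit 42))])], ⟨(nat_lit 4), false, false, false, (nat_lit 179), (nat_lit 3162), (nat_lit 3873), [(nat_lit 1349127), (nat_lit 1355902), (nat_lit 1414421), (nat_lit 1422280), (nat_lit 1478205), (nat_lit 1477844), (nat_lit 1543529), (nat_lit 1544252)]⟩, ⟨(nat_lit 6), false, false, true, (nat_lit 228), (nat_lit 3162), (nat_lit 3873), [(nat_lit 1499140), (nat_lit 1494487), (nat_lit 1520934), (nat_lit 1516642), (nat_lit 1628183), (nat_lit 1616394), (nat_lit 1649977), (nat_lit 1638549)]⟩, (nat_lit 4937667), (nat_lit 41749156), (nat_lit 10230292), (nat_lit 15020552), (nat_lit 6), (nat_lit 0), [], [⟨(nat_lit 1), (nat_lit 92), (nat_lit 68), (nat_lit 100), (nat_lit 151822163)⟩], [], [],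
 ⟨⟨[(nat_lit 40), (nat_lit 60), (nat_lit 80)], [(nat_lit 0), (nat_lit 398), (nat_lit 992)], [((nat_lit 0), (nat_lit 0), (nat_lit 0)), ((nat_lit 1000), (nat_lit 814), (nat_lit 310)), ((nat_lit 1000), (nat_lit 752), (nat_lit 464))], ((nat_lit 73), (nat_lit 100), (nat_lit 55))⟩, (nat_lit 307041), (nat_lit 195), (nat_lit 195), (nat_lit 0), (nat_lit 434078), [(nat_lit 1349898620), (nat_lit 1280556920), (nat_lit 1131218680)], [(nat_lit 0), (nat_lit 0), (nat_lit 0)], [(nat_lit 21626188232), (nat_lit 22608393632), (nat_lit 22852644682), (nat_lit 23778282768), (nat_lit 24452263218), (nat_lit 25528383300), (nat_lit 25491785830), (nat_lit 26456033700)], (nat_lit 1271251), (nat_lit 1271251), (nat_lit 780000), (nat_lit 1435001), (nat_lit 1271251), (nat_lit 1271251), [(nat_lit 490000), (nat_lit 780000), (nat_lit 1100000)], [(nat_lit 2), (nat_lit 44), (nat_lit 260), (nat_lit 50), (nat_lit 10)]⟩,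
 ⟨⟨[(nat_lit 120), (nat_lit 160), (nat_lit 180)], [(nat_lit 0), (nat_lit 533), (nat_lit 2066)], [((nat_lit 0), (nat_lit 0), (nat_lit 0)), ((nat_lit 960), (nat_lit 1000), (nat_lit 200)), ((nat_lit 615), (nat_lit 1000), (nat_lit 729))], ((nat_lit 100), (nat_lit 79), (nat_lit 55))⟩, (nat_lit 1330878), (nat_lit 734), (nat_lit 734), (nat_lit 0), (nat_lit 690233), [(nat_lit 589632000), (nat_lit 878528000), (nat_lit 1040292000)], [], [(nat_lit 2618617222), (nat_lit 1789002334), (nat_lit 3193550046), (nat_lit 1832912296), (nat_lit 4814148371), (nat_lit 3527651262), (nat_lit 5800346672), (nat_lit 4546200578)], (nat_lit 1271251), (nat_lit 1271251), (nat_lit 780000), (nat_lit 1435001), (nat_lit 0), (nat_lit 2825001), [(nat_lit 1695001), (nat_lit 1271251), (nat_lit 1271251)], [(nat_lit 28), (nat_lit 65), (nat_lit 456), (nat_lit 225), (nat_lit 11)]⟩,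
 ⟨⟨[(nat_lit 140), (nat_lit 160), (nat_lit 180)], [(nat_lit 0), (nat_lit 304), (nat_lit 1085)], [((nat_lit 0), (nat_lit 0), (nat_lit 0)), ((nat_lit 913), (nat_lit 1000), (nat_lit 217)), ((nat_lit 759), (nat_lit 1000), (nat_lit 463))], ((nat_lit 100), (nat_lit 67), (nat_lit 57))⟩, (nat_lit 143684), (nat_lit 300), (nat_lit 1102), (nat_lit 4921001), (nat_lit 1592353), [(nat_lit 688940000), (nat_lit 831040000), (nat_lit 984060000)], [], [(nat_lit 3727945354), (nat_lit 3663913016), (nat_lit 3756815818), (nat_lit 3687631392), (nat_lit 4434397220), (nat_lit 4684788584), (nat_lit 3011682492), (nat_lit 3144473428)], (nat_lit 936250), (nat_lit 1100000), (nat_lit 1271251), (nat_lit 1271251), (nat_lit 0), (nat_lit 2825001), [(nat_lit 1977501), (nat_lit 1271251), (nat_lit 1271251)], [(nat_lit 31), (nat_lit 65), (nat_lit 456), (nat_lit 225), (nat_lit 11)]⟩⟩))) (.spl (nat_lit 0) (nat_lit 350) (.leaf ⟨(nat_lit 897), (nat_lit 0), (nat_lit 0), (nat_lit 103), (nat_lit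 0), (nat_lit 3446), (nat_lit 1342), (nat_lit 1349), (nat_lit 0), (nat_lit 0), (nat_lit 498200), [((nat_lit 350), [((nat_lit 21), (nat_lit 1), (nat_lit 200)), ((nat_lit 39), (nat_lit 2), (nat_lit 697))])], ⟨(nat_lit 4), false, false, false, (nat_lit 179), (nat_lit 3535), (nat_lit 3873), [(nat_lit 1349157), (nat_lit 1352518), (nat_lit 1414519), (nat_lit 1418358), (nat_lit 1478205), (nat_lit 1478046), (nat_lit 1543574), (nat_lit 1543892)]⟩, ⟨(nat_lit 6), false, false, true, (nat_lit 241), (nat_lit 3535), (nat_lit 3873), [(nat_lit 1520934), (nat_lit 1518855), (nat_lit 1542727), (nat_lit 1540807), (nat_lit 1666107), (nat_lit 1660068), (nat_lit 1687900), (nat_lit 1682021)]⟩, (nat_lit 5006897), (nat_lit 40788917), (nat_lit 10049962), (nat_lit 16161121), (nat_lit 0), (nat_lit 0), [], [⟨(nat_lit 1), (nat_lit 83), (nat_lit 70), (nat_lit 100), (nat_lit 117488211)⟩], [], [⟨(nat_lit 0), (nat_lit 92), (nat_lit 100), (nat_lit 24), (nat_lit 15794618)⟩],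
 ⟨⟨[(nat_lit 40), (nat_lit 60), (nat_lit 80)], [(nat_lit 0), (nat_lit 398), (nat_lit 992)], [((nat_lit 0), (nat_lit 0), (nat_lit 0)), ((nat_lit 1000), (nat_lit 814), (nat_lit 310)), ((nat_lit 1000), (nat_lit 752), (nat_lit 464))], ((nat_lit 73), (nat_lit 100), (nat_lit 55))⟩, (nat_lit 0), (nat_lit 172), (nat_lit 172), (nat_lit 0), (nat_lit 350759), [(nat_lit 1376501615), (nat_lit 1438571432), (nat_lit 1389695168)], [(nat_lit 0), (nat_lit 0), (nat_lit 0)], [(nat_lit 21518824191), (nat_lit 22075692575), (nat_lit 22822399240), (nat_lit 23320974737), (nat_lit 25025832382), (nat_lit 25648527566), (nat_lit 25987283632), (nat_lit 26545220520)], (nat_lit 1271251), (nat_lit 1271251), (nat_lit 780000), (nat_lit 1435001), (nat_lit 1271251), (nat_lit 1271251), [(nat_lit 490000), (nat_lit 780000), (nat_lit 1100000)], [(nat_lit 2), (nat_lit 44), (nat_lit 260), (nat_lit 50), (nat_lit 10)]⟩,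
 ⟨⟨[(nat_lit 120), (nat_lit 160), (nat_lit 180)], [(nat_lit 0), (nat_lit 533), (nat_lit 2066)], [((nat_lit 0), (nat_lit 0), (nat_lit 0)), ((nat_lit 960), (nat_lit 1000), (nat_lit 200)), ((nat_lit 615), (nat_lit 1000), (nat_lit 729))], ((nat_lit 100), (nat_lit 79), (nat_lit 55))⟩, (nat_lit 1831373), (nat_lit 645), (nat_lit 645), (nat_lit 0), (nat_lit 530558), [(nat_lit 820704000), (nat_lit 1222816000), (nat_lit 1447974000)], [], [(nat_lit 3644169781), (nat_lit 2505911053), (nat_lit 4450809389), (nat_lit 2565752221), (nat_lit 6722445939), (nat_lit 4910820420), (nat_lit 8108036428), (nat_lit 6341967112)], (nat_lit 1271251), (nat_lit 1271251), (nat_lit 780000), (nat_lit 1435001), (nat_lit 0), (nat_lit 2825001), [(nat_lit 1695001), (nat_lit 1271251), (nat_lit 1271251)], [(nat_lit 28), (nat_lit 65), (nat_lit 456), (nat_lit 225), (nat_lit 11)]⟩,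
 ⟨⟨[(nat_lit 120), (nat_lit 160), (nat_lit 180)], [(nat_lit 0), (nat_lit 0), (nat_lit 1613)], [((nat_lit 0), (nat_lit 0), (nat_lit 0)), ((nat_lit 0), (nat_lit 0), (nat_lit 0)), ((nat_lit 620), (nat_lit 1000), (nat_lit 670))], ((nat_lit 100), (nat_lit 73), (nat_lit 55))⟩, (nat_lit 44827), (nat_lit 300), (nat_lit 802), (nat_lit 7642601), (nat_lit 960465), [(nat_lit 820704000), (nat_lit 1222816000), (nat_lit 1447974000)], [], [(nat_lit 5594799776), (nat_lit 5545287234), (nat_lit 5652951326), (nat_lit 5592510378), (nat_lit 5571322308), (nat_lit 5981616625), (nat_lit 4537286306), (nat_lit 4490643671)], (nat_lit 1100000), (nat_lit 1271251), (nat_lit 1271251), (nat_lit 1271251), (nat_lit 0), (nat_lit 2825001), [(nat_lit 1695001), (nat_lit 1271251), (nat_lit 1271251)], [(nat_lit 28), (nat_lit 65), (nat_lit 483), (nat_lit 250), (nat_lit 11)]⟩⟩) (.trX (nat_lit 4) (nat_lit 0) (nat_lit 2) (nat_lit 66) (nat_lit 82) (nat_lit 100) (nat_lit 320) (.leaf ⟨(nat_lit 903),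 (nat_lit 4), (nat_lit 0), (nat_lit 93), (nat_lit 0), (nat_lit 3316), (nat_lit 1249), (nat_lit 1238), (nat_lit 0), (nat_lit 0), (nat_lit 394000), [((nat_lit 360), [((nat_lit 21), (nat_lit 1), (nat_lit 739)), ((nat_lit 39), (nat_lit 2), (nat_lit 164))])], ⟨(nat_lit 4), false, false, false, (nat_lit 180), (nat_lit 3162), (nat_lit 3536), [(nat_lit 1352511), (nat_lit 1355925), (nat_lit 1418344), (nat_lit 1422365), (nat_lit 1478046), (nat_lit 1477844), (nat_lit 1543888), (nat_lit 1544293)]⟩, ⟨(nat_lit 6), false, false, true, (nat_lit 236), (nat_lit 3162), (nat_lit 3536), [(nat_lit 1518855), (nat_lit 1516642), (nat_lit 1540807), (nat_lit 1538797), (nat_lit 1644378), (nat_lit 1638549), (nat_lit 1666330), (nat_lit 1660704)]⟩, (nat_lit 4987455), (nat_lit 41105072), (nat_lit 10165680), (nat_lit 15729248), (nat_lit 6), (nat_lit 0), [], [⟨(nat_lit 1), (nat_lit 87), (nat_lit 64), (nat_lit 100), (nat_lit 141512332)⟩], [], [⟨(nat_lit 0), (nat_lit 94), (nat_lit 100),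 (nat_lit 21), (nat_lit 10638577)⟩],
 ⟨⟨[(nat_lit 40), (nat_lit 60), (nat_lit 80)], [(nat_lit 0), (nat_lit 600), (nat_lit 1195)], [((nat_lit 0), (nat_lit 0), (nat_lit 0)), ((nat_lit 1000), (nat_lit 725), (nat_lit 454)), ((nat_lit 1000), (nat_lit 720), (nat_lit 465))], ((nat_lit 69), (nat_lit 100), (nat_lit 56))⟩, (nat_lit 666527), (nat_lit 188), (nat_lit 188), (nat_lit 0), (nat_lit 407438), [(nat_lit 1398108006), (nat_lit 1570839647), (nat_lit 1690746400)], [(nat_lit 0), (nat_lit 0), (nat_lit 0)], [(nat_lit 22203245333), (nat_lit 22719360021), (nat_lit 23466134210), (nat_lit 23948486961), (nat_lit 25086731786), (nat_lit 25546871316), (nat_lit 26102664977), (nat_lit 26556640028)], (nat_lit 1271251), (nat_lit 1271251), (nat_lit 780000), (nat_lit 1435001), (nat_lit 1271251), (nat_lit 1271251), [(nat_lit 490000), (nat_lit 780000), (nat_lit 1100000)], [(nat_lit 2), (nat_lit 44), (nat_lit 260), (nat_lit 50), (nat_lit 10)]⟩,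
 ⟨⟨[(nat_lit 120), (nat_lit 160), (nat_lit 180)], [(nat_lit 0), (nat_lit 533), (nat_lit 2066)], [((nat_lit 0), (nat_lit 0), (nat_lit 0)), ((nat_lit 960), (nat_lit 1000), (nat_lit 200)), ((nat_lit 615), (nat_lit 1000), (nat_lit 729))], ((nat_lit 100), (nat_lit 79), (nat_lit 55))⟩, (nat_lit 1744530), (nat_lit 735), (nat_lit 735), (nat_lit 0), (nat_lit 692644), [(nat_lit 772896000), (nat_lit 1151584000), (nat_lit 1363626000)], [], [(nat_lit 3432520410), (nat_lit 2345635862), (nat_lit 4186065082), (nat_lit 2402557670), (nat_lit 6310154807), (nat_lit 4624074126), (nat_lit 7602705676), (nat_lit 5959024174)], (nat_lit 1271251), (nat_lit 1271251), (nat_lit 780000), (nat_lit 1435001), (nat_lit 0), (nat_lit 2825001), [(nat_lit 1695001), (nat_lit 1271251), (nat_lit 1271251)], [(nat_lit 28), (nat_lit 65), (nat_lit 456), (nat_lit 225), (nat_lit 11)]⟩,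
 ⟨⟨[(nat_lit 120), (nat_lit 160), (nat_lit 180)], [(nat_lit 0), (nat_lit 0), (nat_lit 1613)], [((nat_lit 0), (nat_lit 0), (nat_lit 0)), ((nat_lit 0), (nat_lit 0), (nat_lit 0)), ((nat_lit 620), (nat_lit 1000), (nat_lit 670))], ((nat_lit 100), (nat_lit 73), (nat_lit 55))⟩, (nat_lit 40475), (nat_lit 300), (nat_lit 903), (nat_lit 6900600), (nat_lit 1170322), [(nat_lit 741024000), (nat_lit 1104096000), (nat_lit 1307394000)], [], [(nat_lit 5020461000), (nat_lit 4974496557), (nat_lit 5049419480), (nat_lit 4994258240), (nat_lit 5039153688), (nat_lit 5414643170), (nat_lit 4051101405), (nat_lit 4009818525)], (nat_lit 1100000), (nat_lit 1271251), (nat_lit 1271251), (nat_lit 1271251), (nat_lit 0), (nat_lit 2825001), [(nat_lit 1695001), (nat_lit 1271251), (nat_lit 1271251)], [(nat_lit 28), (nat_lit 65), (nat_lit 456), (nat_lit 225), (nat_lit 11)]⟩⟩)))))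
noncomputable def c7_11 : Tr Lf :=
 (.spl (nat_lit 3) (nat_lit 120) (.spl (nat_lit 1) (nat_lit 220) (.ord (.leaf ⟨(nat_lit 972), (nat_lit 0), (nat_lit 0), (nat_lit 28), (nat_lit 0), (nat_lit 3309), (nat_lit 289), (nat_lit 545), (nat_lit 0), (nat_lit 3679379460), (nat_lit 624800), [((nat_lit 360), [((nat_lit 39), (nat_lit 2), (nat_lit 868)), ((nat_lit 21), (nat_lit 2), (nat_lit 104))])], ⟨(nat_lit 4), false, false, false, (nat_lit 125), (nat_lit 3162), (nat_lit 3873), [(nat_lit 1220020), (nat_lit 1233931), (nat_lit 1263549), (nat_lit 1278184), (nat_lit 1349127), (nat_lit 1355902), (nat_lit 1392656), (nat_lit 1400154)]⟩, ⟨(nat_lit 4), false, false, false, (nat_lit 187), (nat_lit 3162), (nat_lit 3873), [(nat_lit 1349127), (nat_lit 1355902), (nat_lit 1392656), (nat_lit 1400154), (nat_lit 1542727), (nat_lit 1538797), (nat_lit 1586313), (nat_lit 1583107)]⟩, (nat_lit 4054167), (nat_lit 48845390), (nat_lit 6285388), (nat_lit 11869222), (nat_lit 0), (nat_lit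 0), [⟨(nat_lit 0), (nat_lit 100), (nat_lit 66), (nat_lit 75), (nat_lit 151271790)⟩], [], [], [],
 ⟨⟨[(nat_lit 40), (nat_lit 60), (nat_lit 80)], [(nat_lit 0), (nat_lit 398), (nat_lit 992)], [((nat_lit 0), (nat_lit 0), (nat_lit 0)), ((nat_lit 1000), (nat_lit 814), (nat_lit 310)), ((nat_lit 1000), (nat_lit 752), (nat_lit 464))], ((nat_lit 73), (nat_lit 100), (nat_lit 55))⟩, (nat_lit 2216), (nat_lit 177), (nat_lit 177), (nat_lit 0), (nat_lit 272836), [(nat_lit 1322435224), (nat_lit 1189395284), (nat_lit 845059916)], [(nat_lit 0), (nat_lit 0), (nat_lit 0)], [(nat_lit 18067168962), (nat_lit 19764644592), (nat_lit 18188385295), (nat_lit 19501088964), (nat_lit 21023106493), (nat_lit 22647353325), (nat_lit 20965627988), (nat_lit 22059471260)], (nat_lit 1271251), (nat_lit 1271251), (nat_lit 230000), (nat_lit 780000), (nat_lit 780000), (nat_lit 1762501), [(nat_lit 490000), (nat_lit 780000), (nat_lit 1100000)], [(nat_lit 2), (nat_lit 44), (nat_lit 317), (nat_lit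 100), (nat_lit 14)]⟩,
 ⟨⟨[(nat_lit 120), (nat_lit 160), (nat_lit 180)], [(nat_lit 0), (nat_lit 533), (nat_lit 2066)], [((nat_lit 0), (nat_lit 0), (nat_lit 0)), ((nat_lit 960), (nat_lit 1000), (nat_lit 200)), ((nat_lit 615), (nat_lit 1000), (nat_lit 729))], ((nat_lit 100), (nat_lit 79), (nat_lit 55))⟩, (nat_lit 91624), (nat_lit 840), (nat_lit 840), (nat_lit 0), (nat_lit 808952), [(nat_lit 223104000), (nat_lit 332416000), (nat_lit 393624000)], [], [(nat_lit 1605382561), (nat_lit 1297330814), (nat_lit 1161485851), (nat_lit 1153614059), (nat_lit 1554772490), (nat_lit 1287781574), (nat_lit 1721641463), (nat_lit 1461552156)], (nat_lit 1271251), (nat_lit 1271251), (nat_lit 230000), (nat_lit 780000), (nat_lit 0), (nat_lit 2825001), [(nat_lit 1695001), (nat_lit 1271251), (nat_lit 1271251)], [(nat_lit 28), (nat_lit 65), (nat_lit 428), (nat_lit 200), (nat_lit 10)]⟩,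
 ⟨⟨[(nat_lit 120), (nat_lit 160), (nat_lit 180)], [(nat_lit 0), (nat_lit 533), (nat_lit 2066)], [((nat_lit 0), (nat_lit 0), (nat_lit 0)), ((nat_lit 960), (nat_lit 1000), (nat_lit 200)), ((nat_lit 615), (nat_lit 1000), (nat_lit 729))], ((nat_lit 100), (nat_lit 79), (nat_lit 55))⟩, (nat_lit 65561), (nat_lit 300), (nat_lit 1126), (nat_lit 1859200), (nat_lit 1562325), [(nat_lit 223104000), (nat_lit 332416000), (nat_lit 393624000)], [], [(nat_lit 1586917946), (nat_lit 1441333710), (nat_lit 1475905258), (nat_lit 1281827272), (nat_lit 2078953591), (nat_lit 1588473756), (nat_lit 2874905905), (nat_lit 2402762595)], (nat_lit 1271251), (nat_lit 1271251), (nat_lit 780000), (nat_lit 1762501), (nat_lit 0), (nat_lit 2825001), [(nat_lit 1695001), (nat_lit 1271251), (nat_lit 1271251)], [(nat_lit 28), (nat_lit 65), (nat_lit 456), (nat_lit 225), (nat_lit 11)]⟩⟩)) (.trZ (nat_lit 0) (nat_lit 1) (nat_lit 3) (nat_lit 100) (nat_lit 72) (nat_lit 77) (nat_lit 70) (.leaf ⟨(nat_lit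 943), (nat_lit 0), (nat_lit 0), (nat_lit 57), (nat_lit 0), (nat_lit 3454), (nat_lit 758), (nat_lit 596), (nat_lit 0), (nat_lit 8477), (nat_lit 597000), [((nat_lit 360), [((nat_lit 39), (nat_lit 2), (nat_lit 865)), ((nat_lit 21), (nat_lit 2), (nat_lit 78))])], ⟨(nat_lit 5), false, false, false, (nat_lit 147), (nat_lit 3162), (nat_lit 3873), [(nat_lit 1311964), (nat_lit 1323922), (nat_lit 1333729), (nat_lit 1346049), (nat_lit 1392656), (nat_lit 1400154), (nat_lit 1414421), (nat_lit 1422280)]⟩, ⟨(nat_lit 4), false, false, false, (nat_lit 192), (nat_lit 3162), (nat_lit 3873), [(nat_lit 1349127), (nat_lit 1355902), (nat_lit 1414421), (nat_lit 1422280), (nat_lit 1542727), (nat_lit 1538797), (nat_lit 1608082), (nat_lit 1605237)]⟩, (nat_lit 4358216), (nat_lit 46882528), (nat_lit 8002538), (nat_lit 12114934), (nat_lit 0), (nat_lit 0), [⟨(nat_lit 0), (nat_lit 100), (nat_lit 67), (nat_lit 85), (nat_lit 172542578)⟩], [], [], [],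
 ⟨⟨[(nat_lit 40), (nat_lit 60), (nat_lit 80)], [(nat_lit 0), (nat_lit 398), (nat_lit 992)], [((nat_lit 0), (nat_lit 0), (nat_lit 0)), ((nat_lit 1000), (nat_lit 814), (nat_lit 310)), ((nat_lit 1000), (nat_lit 752), (nat_lit 464))], ((nat_lit 73), (nat_lit 100), (nat_lit 55))⟩, (nat_lit 256648), (nat_lit 169), (nat_lit 169), (nat_lit 0), (nat_lit 316271), [(nat_lit 1339446839), (nat_lit 1258188225), (nat_lit 991612375)], [(nat_lit 0), (nat_lit 0), (nat_lit 0)], [(nat_lit 17338068630), (nat_lit 19023261646), (nat_lit 17755872934), (nat_lit 19096328696), (nat_lit 20333780012), (nat_lit 21963297665), (nat_lit 20529175143), (nat_lit 21916856082)], (nat_lit 1271251), (nat_lit 1271251), (nat_lit 422188), (nat_lit 780000), (nat_lit 780000), (nat_lit 1762501), [(nat_lit 490000), (nat_lit 780000), (nat_lit 1100000)], [(nat_lit 2), (nat_lit 44), (nat_lit 317), (nat_lit 100), (nat_lit 14)]⟩,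
 ⟨⟨[(nat_lit 100), (nat_lit 140), (nat_lit 160)], [(nat_lit 0), (nat_lit 508), (nat_lit 1689)], [((nat_lit 0), (nat_lit 0), (nat_lit 0)), ((nat_lit 1000), (nat_lit 1000), (nat_lit 198)), ((nat_lit 811), (nat_lit 1000), (nat_lit 671))], ((nat_lit 100), (nat_lit 89), (nat_lit 55))⟩, (nat_lit 281775), (nat_lit 658), (nat_lit 658), (nat_lit 0), (nat_lit 664666), [(nat_lit 356250000), (nat_lit 560994000), (nat_lit 676704000)], [], [(nat_lit 2076355902), (nat_lit 1680148814), (nat_lit 1745317049), (nat_lit 1539263012), (nat_lit 3640775541), (nat_lit 3307249666), (nat_lit 3987237692), (nat_lit 3658850868)], (nat_lit 1271251), (nat_lit 1271251), (nat_lit 422188), (nat_lit 780000), (nat_lit 0), (nat_lit 2825001), [(nat_lit 1412501), (nat_lit 1271251), (nat_lit 1271251)], [(nat_lit 23), (nat_lit 62), (nat_lit 428), (nat_lit 200), (nat_lit 11)]⟩,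
 ⟨⟨[(nat_lit 120), (nat_lit 160), (nat_lit 180)], [(nat_lit 0), (nat_lit 533), (nat_lit 2066)], [((nat_lit 0), (nat_lit 0), (nat_lit 0)), ((nat_lit 960), (nat_lit 1000), (nat_lit 200)), ((nat_lit 615), (nat_lit 1000), (nat_lit 729))], ((nat_lit 100), (nat_lit 79), (nat_lit 55))⟩, (nat_lit 133463), (nat_lit 300), (nat_lit 1207), (nat_lit 3784802), (nat_lit 1753111), [(nat_lit 454176000), (nat_lit 676704000), (nat_lit 801306000)], [], [(nat_lit 3391737955), (nat_lit 3300611108), (nat_lit 3170031243), (nat_lit 3084451040), (nat_lit 3515487490), (nat_lit 2710920568), (nat_lit 4489596200), (nat_lit 3715107908)], (nat_lit 1271251), (nat_lit 1271251), (nat_lit 780000), (nat_lit 1762501), (nat_lit 0), (nat_lit 2825001), [(nat_lit 1695001), (nat_lit 1271251), (nat_lit 1271251)], [(nat_lit 28), (nat_lit 65), (nat_lit 456), (nat_lit 225), (nat_lit 11)]⟩⟩))) (.spl (nat_lit 5) (nat_lit 120) (.leaf ⟨(nat_lit 901), (nat_lit 16), (nat_lit 0), (nat_lit 83), (nat_lit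 0), (nat_lit 3574), (nat_lit 1268), (nat_lit 1237), (nat_lit 0), (nat_lit 996340458623), (nat_lit 540600), [((nat_lit 360), [((nat_lit 39), (nat_lit 2), (nat_lit 901))])], ⟨(nat_lit 4), false, false, false, (nat_lit 179), (nat_lit 3162), (nat_lit 3873), [(nat_lit 1349127), (nat_lit 1355902), (nat_lit 1414421), (nat_lit 1422280), (nat_lit 1478205), (nat_lit 1477844), (nat_lit 1543529), (nat_lit 1544252)]⟩, ⟨(nat_lit 4), false, false, false, (nat_lit 192), (nat_lit 3162), (nat_lit 3873), [(nat_lit 1349127), (nat_lit 1355902), (nat_lit 1414421), (nat_lit 1422280), (nat_lit 1542727), (nat_lit 1538797), (nat_lit 1608082), (nat_lit 1605237)]⟩, (nat_lit 4675971), (nat_lit 44561944), (nat_lit 10620133), (nat_lit 11817923), (nat_lit 4), (nat_lit 0), [], [], [⟨(nat_lit 0), (nat_lit 100), (nat_lit 100), (nat_lit 40), (nat_lit 33336076)⟩], [],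
 ⟨⟨[(nat_lit 40), (nat_lit 60), (nat_lit 80)], [(nat_lit 0), (nat_lit 398), (nat_lit 992)], [((nat_lit 0), (nat_lit 0), (nat_lit 0)), ((nat_lit 1000), (nat_lit 814), (nat_lit 310)), ((nat_lit 1000), (nat_lit 752), (nat_lit 464))], ((nat_lit 73), (nat_lit 100), (nat_lit 55))⟩, (nat_lit 674052), (nat_lit 196), (nat_lit 196), (nat_lit 0), (nat_lit 461304), [(nat_lit 1365466802), (nat_lit 1388635635), (nat_lit 1242502165)], [(nat_lit 0), (nat_lit 0), (nat_lit 0)], [(nat_lit 17866515210), (nat_lit 19141742971), (nat_lit 19464186174), (nat_lit 20733855728), (nat_lit 20546460075), (nat_lit 22009998042), (nat_lit 21940285701), (nat_lit 23282109764)], (nat_lit 1271251), (nat_lit 1271251), (nat_lit 780000), (nat_lit 1435001), (nat_lit 780000), (nat_lit 1762501), [(nat_lit 490000), (nat_lit 780000), (nat_lit 1100000)], [(nat_lit 2), (nat_lit 44), (nat_lit 345), (nat_lit 125), (nat_lit 15)]⟩,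
 ⟨⟨[(nat_lit 120), (nat_lit 160), (nat_lit 180)], [(nat_lit 0), (nat_lit 533), (nat_lit 2066)], [((nat_lit 0), (nat_lit 0), (nat_lit 0)), ((nat_lit 960), (nat_lit 1000), (nat_lit 200)), ((nat_lit 615), (nat_lit 1000), (nat_lit 729))], ((nat_lit 100), (nat_lit 79), (nat_lit 55))⟩, (nat_lit 1763379), (nat_lit 967), (nat_lit 967), (nat_lit 0), (nat_lit 1210364), [(nat_lit 788832000), (nat_lit 1175328000), (nat_lit 1391742000)], [], [(nat_lit 3503582054), (nat_lit 2414305852), (nat_lit 4269882478), (nat_lit 2459781363), (nat_lit 3689189886), (nat_lit 1806360144), (nat_lit 4777726894), (nat_lit 2947190740)], (nat_lit 1271251), (nat_lit 1271251), (nat_lit 780000), (nat_lit 1435001), (nat_lit 0), (nat_lit 780000), [(nat_lit 1695001), (nat_lit 1271251), (nat_lit 1271251)], [(nat_lit 28), (nat_lit 65), (nat_lit 373), (nat_lit 150), (nat_lit 9)]⟩,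
 ⟨⟨[(nat_lit 120), (nat_lit 160), (nat_lit 180)], [(nat_lit 0), (nat_lit 533), (nat_lit 2066)], [((nat_lit 0), (nat_lit 0), (nat_lit 0)), ((nat_lit 960), (nat_lit 1000), (nat_lit 200)), ((nat_lit 615), (nat_lit 1000), (nat_lit 729))], ((nat_lit 100), (nat_lit 79), (nat_lit 55))⟩, (nat_lit 194341), (nat_lit 300), (nat_lit 967), (nat_lit 5511202), (nat_lit 1210364), [(nat_lit 661344000), (nat_lit 985376000), (nat_lit 1166814000)], [], [(nat_lit 4449825678), (nat_lit 4198052348), (nat_lit 4122187682), (nat_lit 3927301112), (nat_lit 3270770238), (nat_lit 3147270385), (nat_lit 4627500562), (nat_lit 2887335502)], (nat_lit 1271251), (nat_lit 1271251), (nat_lit 780000), (nat_lit 1762501), (nat_lit 0), (nat_lit 780000), [(nat_lit 1695001), (nat_lit 1271251), (nat_lit 1271251)], [(nat_lit 28), (nat_lit 65), (nat_lit 373), (nat_lit 150), (nat_lit 9)]⟩⟩) (.leaf ⟨(nat_lit 913), (nat_lit 0), (nat_lit 0), (nat_lit 87), (nat_lit 0), (nat_lit 3463), (nat_lit 775), (nat_lit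 935), (nat_lit 0), (nat_lit 8689), (nat_lit 552600), [((nat_lit 360), [((nat_lit 39), (nat_lit 2), (nat_lit 901)), ((nat_lit 21), (nat_lit 2), (nat_lit 12))])], ⟨(nat_lit 4), false, false, false, (nat_lit 179), (nat_lit 3162), (nat_lit 3873), [(nat_lit 1349127), (nat_lit 1355902), (nat_lit 1414421), (nat_lit 1422280), (nat_lit 1478205), (nat_lit 1477844), (nat_lit 1543529), (nat_lit 1544252)]⟩, ⟨(nat_lit 4), false, false, false, (nat_lit 192), (nat_lit 3162), (nat_lit 3873), [(nat_lit 1349127), (nat_lit 1355902), (nat_lit 1414421), (nat_lit 1422280), (nat_lit 1542727), (nat_lit 1538797), (nat_lit 1608082), (nat_lit 1605237)]⟩, (nat_lit 4675971), (nat_lit 44561944), (nat_lit 10620133), (nat_lit 11817923), (nat_lit 0), (nat_lit 0), [], [], [], [],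
 ⟨⟨[(nat_lit 40), (nat_lit 60), (nat_lit 80)], [(nat_lit 0), (nat_lit 398), (nat_lit 992)], [((nat_lit 0), (nat_lit 0), (nat_lit 0)), ((nat_lit 1000), (nat_lit 814), (nat_lit 310)), ((nat_lit 1000), (nat_lit 752), (nat_lit 464))], ((nat_lit 73), (nat_lit 100), (nat_lit 55))⟩, (nat_lit 1443222), (nat_lit 196), (nat_lit 196), (nat_lit 0), (nat_lit 461304), [(nat_lit 1357887202), (nat_lit 1355701164), (nat_lit 1184191036)], [(nat_lit 0), (nat_lit 0), (nat_lit 0)], [(nat_lit 17617247724), (nat_lit 19078297098), (nat_lit 19478890672), (nat_lit 20776218394), (nat_lit 20713993051), (nat_lit 21924379833), (nat_lit 22187470687), (nat_lit 23268854855)], (nat_lit 1271251), (nat_lit 1271251), (nat_lit 780000), (nat_lit 1435001), (nat_lit 780000), (nat_lit 1762501), [(nat_lit 490000), (nat_lit 780000), (nat_lit 1100000)], [(nat_lit 2), (nat_lit 44), (nat_lit 345), (nat_lit 125), (nat_lit 15)]⟩,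
 ⟨⟨[(nat_lit 120), (nat_lit 160), (nat_lit 180)], [(nat_lit 0), (nat_lit 533), (nat_lit 2066)], [((nat_lit 0), (nat_lit 0), (nat_lit 0)), ((nat_lit 960), (nat_lit 1000), (nat_lit 200)), ((nat_lit 615), (nat_lit 1000), (nat_lit 729))], ((nat_lit 100), (nat_lit 79), (nat_lit 55))⟩, (nat_lit 665862), (nat_lit 1133), (nat_lit 1133), (nat_lit 0), (nat_lit 1763022), [(nat_lit 693216000), (nat_lit 1032864000), (nat_lit 1223046000)], [], [(nat_lit 4885756387), (nat_lit 3629411629), (nat_lit 3565631716), (nat_lit 3505104785), (nat_lit 3879663037), (nat_lit 3460187150), (nat_lit 4635998385), (nat_lit 3532696372)], (nat_lit 1271251), (nat_lit 1271251), (nat_lit 780000), (nat_lit 1435001), (nat_lit 780000), (nat_lit 3072501), [(nat_lit 1695001), (nat_lit 1271251), (nat_lit 1271251)], [(nat_lit 28), (nat_lit 65), (nat_lit 456), (nat_lit 225), (nat_lit 10)]⟩,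
 ⟨⟨[(nat_lit 120), (nat_lit 160), (nat_lit 180)], [(nat_lit 0), (nat_lit 533), (nat_lit 2066)], [((nat_lit 0), (nat_lit 0), (nat_lit 0)), ((nat_lit 960), (nat_lit 1000), (nat_lit 200)), ((nat_lit 615), (nat_lit 1000), (nat_lit 729))], ((nat_lit 100), (nat_lit 79), (nat_lit 55))⟩, (nat_lit 242931), (nat_lit 300), (nat_lit 1133), (nat_lit 5776800), (nat_lit 1763022), [(nat_lit 693216000), (nat_lit 1032864000), (nat_lit 1223046000)], [], [(nat_lit 5392086587), (nat_lit 4290100332), (nat_lit 4090598278), (nat_lit 3959911628), (nat_lit 4101936625), (nat_lit 3972362236), (nat_lit 5392894062), (nat_lit 4080002592)], (nat_lit 1271251), (nat_lit 1271251), (nat_lit 780000), (nat_lit 1762501), (nat_lit 780000), (nat_lit 3072501), [(nat_lit 1695001), (nat_lit 1271251), (nat_lit 1271251)], [(nat_lit 28), (nat_lit 65), (nat_lit 456), (nat_lit 225), (nat_lit 10)]⟩⟩)))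
noncomputable def c7_12 : Tr Lf :=
 (.leaf ⟨(nat_lit 0), (nat_lit 0), (nat_lit 884), (nat_lit 116), (nat_lit 0), (nat_lit 5133), (nat_lit 1213), (nat_lit 14147), (nat_lit 0), (nat_lit 125350), (nat_lit 0), [], Pd.none, Pd.none, (nat_lit 0), (nat_lit 1), (nat_lit 0), (nat_lit 0), (nat_lit 0), (nat_lit 4), [⟨(nat_lit 0), (nat_lit 100), (nat_lit 66), (nat_lit 78), (nat_lit 229198631)⟩], [], [], [],
 ⟨⟨[(nat_lit 40), (nat_lit 60), (nat_lit 80)], [(nat_lit 0), (nat_lit 398), (nat_lit 992)], [((nat_lit 0), (nat_lit 0), (nat_lit 0)), ((nat_lit 1000), (nat_lit 814), (nat_lit 310)), ((nat_lit 1000), (nat_lit 752), (nat_lit 464))], ((nat_lit 73), (nat_lit 100), (nat_lit 55))⟩, (nat_lit 655797), (nat_lit 204), (nat_lit 204), (nat_lit 0), (nat_lit 290142), [(nat_lit 2032000074), (nat_lit 3282000024), (nat_lit 4688000000)], [], [(nat_lit 24616744403), (nat_lit 25977963416), (nat_lit 23866291665), (nat_lit 25075372974), (nat_lit 31544976408), (nat_lit 33035865178),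 (nat_lit 29089276595), (nat_lit 30430162388)], (nat_lit 1271251), (nat_lit 1271251), (nat_lit 230000), (nat_lit 780000), (nat_lit 1271251), (nat_lit 1271251), [(nat_lit 490000), (nat_lit 780000), (nat_lit 1100000)], [(nat_lit 2), (nat_lit 44), (nat_lit 238), (nat_lit 30), (nat_lit 10)]⟩,
 ⟨⟨[(nat_lit 120), (nat_lit 160), (nat_lit 180)], [(nat_lit 0), (nat_lit 533), (nat_lit 2066)], [((nat_lit 0), (nat_lit 0), (nat_lit 0)), ((nat_lit 960), (nat_lit 1000), (nat_lit 200)), ((nat_lit 615), (nat_lit 1000), (nat_lit 729))], ((nat_lit 100), (nat_lit 79), (nat_lit 55))⟩, (nat_lit 441754), (nat_lit 844), (nat_lit 844), (nat_lit 0), (nat_lit 819923), [(nat_lit 924288000), (nat_lit 1377152000), (nat_lit 1630728000)], [], [(nat_lit 6683450479), (nat_lit 5249484456), (nat_lit 4682317484), (nat_lit 4677515624), (nat_lit 6188760625), (nat_lit 4913420358), (nat_lit 6863150681), (nat_lit 5209373698)], (nat_lit 1271251), (nat_lit 1271251), (nat_lit 230000), (nat_lit 780000),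 (nat_lit 0), (nat_lit 2613125), [(nat_lit 1695001), (nat_lit 1271251), (nat_lit 1271251)], [(nat_lit 28), (nat_lit 65), (nat_lit 428), (nat_lit 200), (nat_lit 10)]⟩,
 ⟨⟨[(nat_lit 120), (nat_lit 160), (nat_lit 180)], [(nat_lit 0), (nat_lit 533), (nat_lit 2066)], [((nat_lit 0), (nat_lit 0), (nat_lit 0)), ((nat_lit 960), (nat_lit 1000), (nat_lit 200)), ((nat_lit 615), (nat_lit 1000), (nat_lit 729))], ((nat_lit 100), (nat_lit 79), (nat_lit 55))⟩, (nat_lit 2341463), (nat_lit 300), (nat_lit 313), (nat_lit 66400002), (nat_lit 0), [(nat_lit 7968000000), (nat_lit 11872000000), (nat_lit 14058000000)], [], [(nat_lit 43204464400), (nat_lit 43313482679), (nat_lit 50317353187), (nat_lit 49752411324), (nat_lit 34804357651), (nat_lit 34145855960), (nat_lit 42093650675), (nat_lit 41910562312)], (nat_lit 0), (nat_lit 0), (nat_lit 0), (nat_lit 0), (nat_lit 0), (nat_lit 0), [], [(nat_lit 28), (nat_lit 65), (nat_lit 483), (nat_lit 250), (nat_lit 11)]⟩⟩)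
noncomputable def c7_13 : Tr Lf :=
 (.spl (nat_lit 3) (nat_lit 80) (.trX (nat_lit 5) (nat_lit 4) (nat_lit 3) (nat_lit 100) (nat_lit 76) (nat_lit 82) (nat_lit 340) (.spl (nat_lit 2) (nat_lit 200) (.spl (nat_lit 1) (nat_lit 220) (.leaf ⟨(nat_lit 967), (nat_lit 0), (nat_lit 25), (nat_lit 8), (nat_lit 881), (nat_lit 3611), (nat_lit 151), (nat_lit 402), (nat_lit 0), (nat_lit 668457), (nat_lit 347200), [((nat_lit 360), [((nat_lit 21), (nat_lit 0), (nat_lit 264)), ((nat_lit 21), (nat_lit 1), (nat_lit 703))])], ⟨(nat_lit 4), false, false, false, (nat_lit 112), (nat_lit 3162), (nat_lit 3873), [(nat_lit 1220020), (nat_lit 1233931), (nat_lit 1263549), (nat_lit 1278184), (nat_lit 1284573), (nat_lit 1294916), (nat_lit 1328103), (nat_lit 1339169)]⟩, ⟨(nat_lit 6), false, true, true, (nat_lit 246), (nat_lit 3162), (nat_lit 3873), [(nat_lit 1542727), (nat_lit 1538797), (nat_lit 1564520), (nat_lit 1560952), (nat_lit 1671770), (nat_lit 1660704), (nat_lit 1693563), (nat_lit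 1682859)]⟩, (nat_lit 4365066), (nat_lit 44313742), (nat_lit 5117224), (nat_lit 17569034), (nat_lit 0), (nat_lit 4), [⟨(nat_lit 0), (nat_lit 100), (nat_lit 66), (nat_lit 75), (nat_lit 367702766)⟩], [], [⟨(nat_lit 0), (nat_lit 100), (nat_lit 99), (nat_lit 10), (nat_lit 5614295)⟩], [],
 ⟨⟨[(nat_lit 40), (nat_lit 60), (nat_lit 80)], [(nat_lit 0), (nat_lit 398), (nat_lit 992)], [((nat_lit 0), (nat_lit 0), (nat_lit 0)), ((nat_lit 1000), (nat_lit 814), (nat_lit 310)), ((nat_lit 1000), (nat_lit 752), (nat_lit 464))], ((nat_lit 73), (nat_lit 100), (nat_lit 55))⟩, (nat_lit 0), (nat_lit 149), (nat_lit 149), (nat_lit 0), (nat_lit 150343), [(nat_lit 1387592902), (nat_lit 1530072027), (nat_lit 1723268573)], [(nat_lit 0), (nat_lit 0), (nat_lit 0)], [(nat_lit 21791847113), (nat_lit 23092629675), (nat_lit 21220511006), (nat_lit 22414421558), (nat_lit 25776634120), (nat_lit 27176767946), (nat_lit 24469750884), (nat_lit 25839022756)], (nat_lit 1271251), (nat_lit 1271251),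 (nat_lit 230000), (nat_lit 490000), (nat_lit 1271251), (nat_lit 1271251), [(nat_lit 490000), (nat_lit 780000), (nat_lit 1100000)], [(nat_lit 2), (nat_lit 44), (nat_lit 226), (nat_lit 20), (nat_lit 9)]⟩,
 ⟨⟨[(nat_lit 120), (nat_lit 160), (nat_lit 180)], [(nat_lit 0), (nat_lit 533), (nat_lit 2066)], [((nat_lit 0), (nat_lit 0), (nat_lit 0)), ((nat_lit 960), (nat_lit 1000), (nat_lit 200)), ((nat_lit 615), (nat_lit 1000), (nat_lit 729))], ((nat_lit 100), (nat_lit 79), (nat_lit 55))⟩, (nat_lit 59812), (nat_lit 622), (nat_lit 622), (nat_lit 0), (nat_lit 332073), [(nat_lit 63744000), (nat_lit 94976000), (nat_lit 112464000)], [], [(nat_lit 600551260), (nat_lit 439596887), (nat_lit 438358158), (nat_lit 279889547), (nat_lit 458836768), (nat_lit 316478687), (nat_lit 480872834), (nat_lit 340446458)], (nat_lit 1271251), (nat_lit 1271251), (nat_lit 230000), (nat_lit 490000), (nat_lit 0), (nat_lit 2401251), [(nat_lit 1695001), (nat_lit 1271251), (nat_lit 1271251)],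 [(nat_lit 28), (nat_lit 65), (nat_lit 401), (nat_lit 175), (nat_lit 10)]⟩,
 ⟨⟨[(nat_lit 120), (nat_lit 160), (nat_lit 180)], [(nat_lit 0), (nat_lit 533), (nat_lit 2066)], [((nat_lit 0), (nat_lit 0), (nat_lit 0)), ((nat_lit 960), (nat_lit 1000), (nat_lit 200)), ((nat_lit 615), (nat_lit 1000), (nat_lit 729))], ((nat_lit 100), (nat_lit 79), (nat_lit 55))⟩, (nat_lit 77268), (nat_lit 300), (nat_lit 1056), (nat_lit 2191201), (nat_lit 1551740), [(nat_lit 262944000), (nat_lit 391776000), (nat_lit 463914000)], [], [(nat_lit 1686670785), (nat_lit 1672711566), (nat_lit 1697357136), (nat_lit 1680368124), (nat_lit 1690647507), (nat_lit 1513196868), (nat_lit 1290687255), (nat_lit 1274637915)], (nat_lit 1271251), (nat_lit 1271251), (nat_lit 1271251), (nat_lit 1271251), (nat_lit 0), (nat_lit 2401251), [(nat_lit 1695001), (nat_lit 1271251), (nat_lit 1271251)], [(nat_lit 28), (nat_lit 65), (nat_lit 456), (nat_lit 225), (nat_lit 10)]⟩⟩) (.trZ (nat_lit 0) (nat_lit 1) (nat_lit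 3) (nat_lit 100) (nat_lit 72) (nat_lit 77) (nat_lit 70) (.leaf ⟨(nat_lit 934), (nat_lit 0), (nat_lit 0), (nat_lit 66), (nat_lit 0), (nat_lit 3665), (nat_lit 1433), (nat_lit 714), (nat_lit 0), (nat_lit 0), (nat_lit 338950), [((nat_lit 360), [((nat_lit 21), (nat_lit 0), (nat_lit 231)), ((nat_lit 21), (nat_lit 1), (nat_lit 703))])], ⟨(nat_lit 5), false, false, false, (nat_lit 135), (nat_lit 3162), (nat_lit 3873), [(nat_lit 1311964), (nat_lit 1323922), (nat_lit 1333729), (nat_lit 1346049), (nat_lit 1328103), (nat_lit 1339169), (nat_lit 1349867), (nat_lit 1361295)]⟩, ⟨(nat_lit 6), false, true, true, (nat_lit 246), (nat_lit 3162), (nat_lit 3873), [(nat_lit 1542727), (nat_lit 1538797), (nat_lit 1564520), (nat_lit 1560952), (nat_lit 1671770), (nat_lit 1660704), (nat_lit 1693563), (nat_lit 1682859)]⟩, (nat_lit 4617693), (nat_lit 43047308), (nat_lit 6678069), (nat_lit 17274623), (nat_lit 0), (nat_lit 0), [⟨(nat_lit 0), (nat_lit 100), (nat_lit 72), (nat_lit 77),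 (nat_lit 554638151)⟩], [], [⟨(nat_lit 0), (nat_lit 100), (nat_lit 99), (nat_lit 10), (nat_lit 4617834)⟩], [],
 ⟨⟨[(nat_lit 40), (nat_lit 60), (nat_lit 80)], [(nat_lit 0), (nat_lit 398), (nat_lit 992)], [((nat_lit 0), (nat_lit 0), (nat_lit 0)), ((nat_lit 1000), (nat_lit 814), (nat_lit 310)), ((nat_lit 1000), (nat_lit 752), (nat_lit 464))], ((nat_lit 73), (nat_lit 100), (nat_lit 55))⟩, (nat_lit 0), (nat_lit 130), (nat_lit 130), (nat_lit 0), (nat_lit 162704), [(nat_lit 1402878949), (nat_lit 1591007249), (nat_lit 1806417951)], [(nat_lit 0), (nat_lit 0), (nat_lit 0)], [(nat_lit 21416496236), (nat_lit 22628525357), (nat_lit 21269152709), (nat_lit 22471488989), (nat_lit 24867489145), (nat_lit 26254433053), (nat_lit 24534046444), (nat_lit 25912959340)], (nat_lit 1271251), (nat_lit 1271251), (nat_lit 422188), (nat_lit 490000), (nat_lit 1271251), (nat_lit 1271251), [(nat_lit 490000), (nat_lit 780000), (nat_lit 1100000)], [(nat_lit 2), (nat_lit 44), (nat_lit 226),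 (nat_lit 20), (nat_lit 9)]⟩,
 ⟨⟨[(nat_lit 100), (nat_lit 140), (nat_lit 160)], [(nat_lit 0), (nat_lit 508), (nat_lit 1689)], [((nat_lit 0), (nat_lit 0), (nat_lit 0)), ((nat_lit 1000), (nat_lit 1000), (nat_lit 198)), ((nat_lit 811), (nat_lit 1000), (nat_lit 671))], ((nat_lit 100), (nat_lit 89), (nat_lit 55))⟩, (nat_lit 735316), (nat_lit 437), (nat_lit 437), (nat_lit 0), (nat_lit 274309), [(nat_lit 412500000), (nat_lit 649572000), (nat_lit 783552000)], [], [(nat_lit 1385139534), (nat_lit 1534659421), (nat_lit 1215581933), (nat_lit 1370149180), (nat_lit 4080577091), (nat_lit 3437806867), (nat_lit 4164737931), (nat_lit 3524077306)], (nat_lit 1271251), (nat_lit 1271251), (nat_lit 422188), (nat_lit 490000), (nat_lit 0), (nat_lit 2401251), [(nat_lit 1412501), (nat_lit 1271251), (nat_lit 1271251)], [(nat_lit 23), (nat_lit 62), (nat_lit 401), (nat_lit 175), (nat_lit 11)]⟩,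
 ⟨⟨[(nat_lit 120), (nat_lit 160), (nat_lit 180)], [(nat_lit 0), (nat_lit 533), (nat_lit 2066)], [((nat_lit 0), (nat_lit 0), (nat_lit 0)), ((nat_lit 960), (nat_lit 1000), (nat_lit 200)), ((nat_lit 615), (nat_lit 1000), (nat_lit 729))], ((nat_lit 100), (nat_lit 79), (nat_lit 55))⟩, (nat_lit 154537), (nat_lit 300), (nat_lit 1141), (nat_lit 4382400), (nat_lit 1728248), [(nat_lit 525888000), (nat_lit 783552000), (nat_lit 927828000)], [], [(nat_lit 3589324224), (nat_lit 3556620480), (nat_lit 3549650982), (nat_lit 3521910228), (nat_lit 3352624299), (nat_lit 3037450776), (nat_lit 2757701238), (nat_lit 2722712814)], (nat_lit 1271251), (nat_lit 1271251), (nat_lit 1271251), (nat_lit 1271251), (nat_lit 0), (nat_lit 2401251), [(nat_lit 1695001), (nat_lit 1271251), (nat_lit 1271251)], [(nat_lit 28), (nat_lit 65), (nat_lit 456), (nat_lit 225), (nat_lit 10)]⟩⟩))) (.ord (.trZ (nat_lit 0) (nat_lit 1) (nat_lit 3) (nat_lit 100) (nat_lit 71) (nat_lit 70) (nat_lit 50) (.leaf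 ⟨(nat_lit 951), (nat_lit 0), (nat_lit 0), (nat_lit 49), (nat_lit 0), (nat_lit 3642), (nat_lit 907), (nat_lit 616), (nat_lit 0), (nat_lit 1647406841501), (nat_lit 340350), [((nat_lit 360), [((nat_lit 21), (nat_lit 0), (nat_lit 267)), ((nat_lit 21), (nat_lit 1), (nat_lit 684))])], ⟨(nat_lit 5), false, false, false, (nat_lit 124), (nat_lit 3162), (nat_lit 3873), [(nat_lit 1257923), (nat_lit 1271304), (nat_lit 1301452), (nat_lit 1315556), (nat_lit 1306338), (nat_lit 1317043), (nat_lit 1349867), (nat_lit 1361295)]⟩, ⟨(nat_lit 6), false, true, true, (nat_lit 255), (nat_lit 3162), (nat_lit 3873), [(nat_lit 1564520), (nat_lit 1560952), (nat_lit 1586313), (nat_lit 1583107), (nat_lit 1693563), (nat_lit 1682859), (nat_lit 1715356), (nat_lit 1705013)]⟩, (nat_lit 4550200), (nat_lit 42872447), (nat_lit 5867948), (nat_lit 18259605), (nat_lit 0), (nat_lit 0), [⟨(nat_lit 0), (nat_lit 100), (nat_lit 66), (nat_lit 82), (nat_lit 72774716)⟩, ⟨(nat_lit 0), (nat_lit 100),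 (nat_lit 71), (nat_lit 70), (nat_lit 375920669)⟩], [], [⟨(nat_lit 0), (nat_lit 100), (nat_lit 100), (nat_lit 15), (nat_lit 11083217)⟩], [],
 ⟨⟨[(nat_lit 40), (nat_lit 60), (nat_lit 80)], [(nat_lit 0), (nat_lit 398), (nat_lit 992)], [((nat_lit 0), (nat_lit 0), (nat_lit 0)), ((nat_lit 1000), (nat_lit 814), (nat_lit 310)), ((nat_lit 1000), (nat_lit 752), (nat_lit 464))], ((nat_lit 73), (nat_lit 100), (nat_lit 55))⟩, (nat_lit 0), (nat_lit 142), (nat_lit 142), (nat_lit 0), (nat_lit 163654), [(nat_lit 1396130823), (nat_lit 1563579411), (nat_lit 1771932389)], [(nat_lit 0), (nat_lit 0), (nat_lit 0)], [(nat_lit 21683921952), (nat_lit 22911629322), (nat_lit 21247653511), (nat_lit 22446401055), (nat_lit 25498686417), (nat_lit 26896896717), (nat_lit 24506518248), (nat_lit 25881467832)], (nat_lit 1271251), (nat_lit 1271251), (nat_lit 292188), (nat_lit 490000), (nat_lit 1271251), (nat_lit 1271251), [(nat_lit 490000), (nat_lit 780000), (nat_lit 1100000)], [(nat_lit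 2), (nat_lit 44), (nat_lit 226), (nat_lit 20), (nat_lit 9)]⟩,
 ⟨⟨[(nat_lit 100), (nat_lit 140), (nat_lit 160)], [(nat_lit 0), (nat_lit 0), (nat_lit 1280)], [((nat_lit 0), (nat_lit 0), (nat_lit 0)), ((nat_lit 0), (nat_lit 0), (nat_lit 0)), ((nat_lit 800), (nat_lit 1000), (nat_lit 600))], ((nat_lit 100), (nat_lit 84), (nat_lit 54))⟩, (nat_lit 200626), (nat_lit 506), (nat_lit 506), (nat_lit 0), (nat_lit 307261), [(nat_lit 306250000), (nat_lit 482258000), (nat_lit 581728000)], [], [(nat_lit 1744611658), (nat_lit 1896081791), (nat_lit 1519639742), (nat_lit 1578010284), (nat_lit 3265757410), (nat_lit 2446749165), (nat_lit 3405931445), (nat_lit 2594934674)], (nat_lit 1271251), (nat_lit 1271251), (nat_lit 292188), (nat_lit 490000), (nat_lit 0), (nat_lit 2401251), [(nat_lit 1412501), (nat_lit 1271251), (nat_lit 1271251)], [(nat_lit 23), (nat_lit 62), (nat_lit 401), (nat_lit 175), (nat_lit 11)]⟩,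
 ⟨⟨[(nat_lit 100), (nat_lit 140), (nat_lit 160)], [(nat_lit 0), (nat_lit 0), (nat_lit 1280)], [((nat_lit 0), (nat_lit 0), (nat_lit 0)), ((nat_lit 0), (nat_lit 0), (nat_lit 0)), ((nat_lit 800), (nat_lit 1000), (nat_lit 600))], ((nat_lit 100), (nat_lit 84), (nat_lit 54))⟩, (nat_lit 23888), (nat_lit 300), (nat_lit 917), (nat_lit 3444700), (nat_lit 1410261), [(nat_lit 306250000), (nat_lit 482258000), (nat_lit 581728000)], [], [(nat_lit 2135657580), (nat_lit 2125451986), (nat_lit 2202234314), (nat_lit 2186052561), (nat_lit 1675042712), (nat_lit 1618002889), (nat_lit 1704939055), (nat_lit 1699007607)], (nat_lit 1271251), (nat_lit 1271251), (nat_lit 1271251), (nat_lit 1271251), (nat_lit 0), (nat_lit 2401251), [(nat_lit 1412501), (nat_lit 1271251), (nat_lit 1271251)], [(nat_lit 23), (nat_lit 62), (nat_lit 456), (nat_lit 225), (nat_lit 12)]⟩⟩))))) (.spl (nat_lit 2) (nat_lit 200) (.spl (nat_lit 0) (nat_lit 350) (.leaf ⟨(nat_lit 964), (nat_lit 0), (nat_lit 0),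 (nat_lit 36), (nat_lit 491), (nat_lit 3314), (nat_lit 735), (nat_lit 439), (nat_lit 0), (nat_lit 18725), (nat_lit 460200), [((nat_lit 350), [((nat_lit 21), (nat_lit 1), (nat_lit 591)), ((nat_lit 39), (nat_lit 2), (nat_lit 373))])], ⟨(nat_lit 4), false, false, false, (nat_lit 141), (nat_lit 3535), (nat_lit 3873), [(nat_lit 1284630), (nat_lit 1289751), (nat_lit 1349991), (nat_lit 1355590), (nat_lit 1349157), (nat_lit 1352518), (nat_lit 1414519), (nat_lit 1418358)]⟩, ⟨(nat_lit 6), false, true, true, (nat_lit 247), (nat_lit 3535), (nat_lit 3873), [(nat_lit 1542727), (nat_lit 1540807), (nat_lit 1564520), (nat_lit 1562760), (nat_lit 1671770), (nat_lit 1666330), (nat_lit 1693563), (nat_lit 1688283)]⟩, (nat_lit 4684568), (nat_lit 42635558), (nat_lit 7105328), (nat_lit 17259114), (nat_lit 0), (nat_lit 0), [⟨(nat_lit 0), (nat_lit 100), (nat_lit 68), (nat_lit 89), (nat_lit 92781002)⟩], [], [⟨(nat_lit 0), (nat_lit 100), (nat_lit 98), (nat_lit 20), (nat_lit 20979642)⟩],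 [],
 ⟨⟨[(nat_lit 40), (nat_lit 60), (nat_lit 80)], [(nat_lit 0), (nat_lit 398), (nat_lit 992)], [((nat_lit 0), (nat_lit 0), (nat_lit 0)), ((nat_lit 1000), (nat_lit 814), (nat_lit 310)), ((nat_lit 1000), (nat_lit 752), (nat_lit 464))], ((nat_lit 73), (nat_lit 100), (nat_lit 55))⟩, (nat_lit 0), (nat_lit 113), (nat_lit 113), (nat_lit 0), (nat_lit 137404), [(nat_lit 1356641701), (nat_lit 1490431525), (nat_lit 1362712800)], [(nat_lit 0), (nat_lit 0), (nat_lit 0)], [(nat_lit 20607774851), (nat_lit 21246351842), (nat_lit 21023559908), (nat_lit 21632126674), (nat_lit 24118533070), (nat_lit 24774933680), (nat_lit 24342159785), (nat_lit 24916537101)], (nat_lit 1271251), (nat_lit 1271251), (nat_lit 490000), (nat_lit 780000), (nat_lit 1271251), (nat_lit 1271251), [(nat_lit 490000), (nat_lit 780000), (nat_lit 1100000)], [(nat_lit 2), (nat_lit 44), (nat_lit 238), (nat_lit 30), (nat_lit 9)]⟩,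
 ⟨⟨[(nat_lit 120), (nat_lit 160), (nat_lit 180)], [(nat_lit 0), (nat_lit 533), (nat_lit 2066)], [((nat_lit 0), (nat_lit 0), (nat_lit 0)), ((nat_lit 960), (nat_lit 1000), (nat_lit 200)), ((nat_lit 615), (nat_lit 1000), (nat_lit 729))], ((nat_lit 100), (nat_lit 79), (nat_lit 55))⟩, (nat_lit 311135), (nat_lit 551), (nat_lit 551), (nat_lit 0), (nat_lit 261502), [(nat_lit 286848000), (nat_lit 427392000), (nat_lit 506088000)], [], [(nat_lit 2028063870), (nat_lit 1215054406), (nat_lit 1262346383), (nat_lit 1137257705), (nat_lit 2351400372), (nat_lit 1468398200), (nat_lit 2573346955), (nat_lit 1571264446)], (nat_lit 1271251), (nat_lit 1271251), (nat_lit 490000), (nat_lit 780000), (nat_lit 0), (nat_lit 2613125), [(nat_lit 1695001), (nat_lit 1271251), (nat_lit 1271251)], [(nat_lit 28), (nat_lit 65), (nat_lit 428), (nat_lit 200), (nat_lit 10)]⟩,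
 ⟨⟨[(nat_lit 120), (nat_lit 160), (nat_lit 180)], [(nat_lit 0), (nat_lit 533), (nat_lit 2066)], [((nat_lit 0), (nat_lit 0), (nat_lit 0)), ((nat_lit 960), (nat_lit 1000), (nat_lit 200)), ((nat_lit 615), (nat_lit 1000), (nat_lit 729))], ((nat_lit 100), (nat_lit 79), (nat_lit 55))⟩, (nat_lit 84293), (nat_lit 300), (nat_lit 991), (nat_lit 2390400), (nat_lit 1397178), [(nat_lit 286848000), (nat_lit 427392000), (nat_lit 506088000)], [], [(nat_lit 1839266175), (nat_lit 1824009282), (nat_lit 1850879227), (nat_lit 1832677950), (nat_lit 1956373396), (nat_lit 1764403415), (nat_lit 1435869593), (nat_lit 1416692599)], (nat_lit 1271251), (nat_lit 1271251), (nat_lit 1271251), (nat_lit 1271251), (nat_lit 0), (nat_lit 2613125), [(nat_lit 1695001), (nat_lit 1271251), (nat_lit 1271251)], [(nat_lit 28), (nat_lit 65), (nat_lit 456), (nat_lit 225), (nat_lit 10)]⟩⟩) (.leaf ⟨(nat_lit 970), (nat_lit 0), (nat_lit 0), (nat_lit 30), (nat_lit 0), (nat_lit 3566), (nat_lit 519), (nat_lit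 366), (nat_lit 0), (nat_lit 47398), (nat_lit 348400), [((nat_lit 360), [((nat_lit 21), (nat_lit 0), (nat_lit 264)), ((nat_lit 21), (nat_lit 1), (nat_lit 706))])], ⟨(nat_lit 4), false, false, false, (nat_lit 143), (nat_lit 3162), (nat_lit 3536), [(nat_lit 1289740), (nat_lit 1294962), (nat_lit 1355573), (nat_lit 1361401), (nat_lit 1352511), (nat_lit 1355925), (nat_lit 1418344), (nat_lit 1422365)]⟩, ⟨(nat_lit 6), false, true, true, (nat_lit 245), (nat_lit 3162), (nat_lit 3536), [(nat_lit 1540807), (nat_lit 1538797), (nat_lit 1562760), (nat_lit 1560952), (nat_lit 1666330), (nat_lit 1660704), (nat_lit 1688283), (nat_lit 1682859)]⟩, (nat_lit 4695043), (nat_lit 42654594), (nat_lit 7249441), (nat_lit 17095965), (nat_lit 0), (nat_lit 0), [⟨(nat_lit 0), (nat_lit 100), (nat_lit 61), (nat_lit 92), (nat_lit 110675328)⟩], [], [⟨(nat_lit 0), (nat_lit 100), (nat_lit 98), (nat_lit 20), (nat_lit 16089506)⟩], [],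
 ⟨⟨[(nat_lit 40), (nat_lit 60), (nat_lit 80)], [(nat_lit 0), (nat_lit 600), (nat_lit 1195)], [((nat_lit 0), (nat_lit 0), (nat_lit 0)), ((nat_lit 1000), (nat_lit 725), (nat_lit 454)), ((nat_lit 1000), (nat_lit 720), (nat_lit 465))], ((nat_lit 69), (nat_lit 100), (nat_lit 56))⟩, (nat_lit 0), (nat_lit 123), (nat_lit 123), (nat_lit 0), (nat_lit 161478), [(nat_lit 1386030443), (nat_lit 1525159109), (nat_lit 1713138891)], [(nat_lit 0), (nat_lit 0), (nat_lit 0)], [(nat_lit 21889624623), (nat_lit 22483069179), (nat_lit 22243152003), (nat_lit 22808732867), (nat_lit 25096893920), (nat_lit 25777408936), (nat_lit 25244100181), (nat_lit 25835746566)], (nat_lit 1271251), (nat_lit 1271251), (nat_lit 490000), (nat_lit 780000), (nat_lit 1271251), (nat_lit 1271251), [(nat_lit 490000), (nat_lit 780000), (nat_lit 1100000)], [(nat_lit 2), (nat_lit 44), (nat_lit 238), (nat_lit 30), (nat_lit 9)]⟩,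
 ⟨⟨[(nat_lit 120), (nat_lit 160), (nat_lit 180)], [(nat_lit 0), (nat_lit 533), (nat_lit 2066)], [((nat_lit 0), (nat_lit 0), (nat_lit 0)), ((nat_lit 960), (nat_lit 1000), (nat_lit 200)), ((nat_lit 615), (nat_lit 1000), (nat_lit 729))], ((nat_lit 100), (nat_lit 79), (nat_lit 55))⟩, (nat_lit 352563), (nat_lit 583), (nat_lit 583), (nat_lit 0), (nat_lit 335199), [(nat_lit 239040000), (nat_lit 356160000), (nat_lit 421740000)], [], [(nat_lit 1596633822), (nat_lit 936552702), (nat_lit 1055943515), (nat_lit 867734505), (nat_lit 1866795060), (nat_lit 1149969387), (nat_lit 2028828851), (nat_lit 1321235896)], (nat_lit 1271251), (nat_lit 1271251), (nat_lit 490000), (nat_lit 780000), (nat_lit 0), (nat_lit 2613125), [(nat_lit 1695001), (nat_lit 1271251), (nat_lit 1271251)], [(nat_lit 28), (nat_lit 65), (nat_lit 428), (nat_lit 200), (nat_lit 10)]⟩,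
 ⟨⟨[(nat_lit 120), (nat_lit 160), (nat_lit 180)], [(nat_lit 0), (nat_lit 533), (nat_lit 2066)], [((nat_lit 0), (nat_lit 0), (nat_lit 0)), ((nat_lit 960), (nat_lit 1000), (nat_lit 200)), ((nat_lit 615), (nat_lit 1000), (nat_lit 729))], ((nat_lit 100), (nat_lit 79), (nat_lit 55))⟩, (nat_lit 70244), (nat_lit 300), (nat_lit 1142), (nat_lit 1992000), (nat_lit 1728709), [(nat_lit 239040000), (nat_lit 356160000), (nat_lit 421740000)], [], [(nat_lit 1532451312), (nat_lit 1519726728), (nat_lit 1542112434), (nat_lit 1527179892), (nat_lit 1630395152), (nat_lit 1470347286), (nat_lit 1196273952), (nat_lit 1180281372)], (nat_lit 1271251), (nat_lit 1271251), (nat_lit 1271251), (nat_lit 1271251), (nat_lit 0), (nat_lit 2613125), [(nat_lit 1695001), (nat_lit 1271251), (nat_lit 1271251)], [(nat_lit 28), (nat_lit 65), (nat_lit 456), (nat_lit 225), (nat_lit 10)]⟩⟩)) (.ord (.leaf ⟨(nat_lit 952), (nat_lit 0), (nat_lit 0), (nat_lit 48), (nat_lit 0), (nat_lit 3522), (nat_lit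 901), (nat_lit 552), (nat_lit 0), (nat_lit 6345), (nat_lit 415400), [((nat_lit 360), [((nat_lit 21), (nat_lit 1), (nat_lit 779)), ((nat_lit 39), (nat_lit 2), (nat_lit 173))])], ⟨(nat_lit 5), false, false, false, (nat_lit 146), (nat_lit 3162), (nat_lit 3873), [(nat_lit 1306338), (nat_lit 1317043), (nat_lit 1349867), (nat_lit 1361295), (nat_lit 1370892), (nat_lit 1378028), (nat_lit 1414421), (nat_lit 1422280)]⟩, ⟨(nat_lit 6), false, true, true, (nat_lit 255), (nat_lit 3162), (nat_lit 3873), [(nat_lit 1564520), (nat_lit 1560952), (nat_lit 1586313), (nat_lit 1583107), (nat_lit 1693563), (nat_lit 1682859), (nat_lit 1715356), (nat_lit 1705013)]⟩, (nat_lit 4779366), (nat_lit 41651771), (nat_lit 7418541), (nat_lit 17929688), (nat_lit 0), (nat_lit 0), [⟨(nat_lit 0), (nat_lit 100), (nat_lit 66), (nat_lit 82), (nat_lit 114437565)⟩], [], [⟨(nat_lit 0), (nat_lit 100), (nat_lit 98), (nat_lit 30), (nat_lit 9665287)⟩], [],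
 ⟨⟨[(nat_lit 40), (nat_lit 60), (nat_lit 80)], [(nat_lit 0), (nat_lit 398), (nat_lit 992)], [((nat_lit 0), (nat_lit 0), (nat_lit 0)), ((nat_lit 1000), (nat_lit 814), (nat_lit 310)), ((nat_lit 1000), (nat_lit 752), (nat_lit 464))], ((nat_lit 73), (nat_lit 100), (nat_lit 55))⟩, (nat_lit 0), (nat_lit 124), (nat_lit 124), (nat_lit 0), (nat_lit 163654), [(nat_lit 1372171202), (nat_lit 1468487168), (nat_lit 1538830432)], [(nat_lit 0), (nat_lit 0), (nat_lit 0)], [(nat_lit 21141564010), (nat_lit 22321587714), (nat_lit 21528363034), (nat_lit 22653135610), (nat_lit 24364192968), (nat_lit 25717164312), (nat_lit 24601903090), (nat_lit 25784904522)], (nat_lit 1271251), (nat_lit 1271251), (nat_lit 490000), (nat_lit 780000), (nat_lit 1271251), (nat_lit 1271251), [(nat_lit 490000), (nat_lit 780000), (nat_lit 1100000)], [(nat_lit 2), (nat_lit 44), (nat_lit 238), (nat_lit 30), (nat_lit 9)]⟩,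
 ⟨⟨[(nat_lit 100), (nat_lit 140), (nat_lit 160)], [(nat_lit 0), (nat_lit 0), (nat_lit 1280)], [((nat_lit 0), (nat_lit 0), (nat_lit 0)), ((nat_lit 0), (nat_lit 0), (nat_lit 0)), ((nat_lit 800), (nat_lit 1000), (nat_lit 600))], ((nat_lit 100), (nat_lit 84), (nat_lit 54))⟩, (nat_lit 311729), (nat_lit 445), (nat_lit 445), (nat_lit 0), (nat_lit 307261), [(nat_lit 300000000), (nat_lit 472416000), (nat_lit 569856000)], [], [(nat_lit 2159834300), (nat_lit 1404833364), (nat_lit 1691101987), (nat_lit 1314519764), (nat_lit 3553188276), (nat_lit 2755199155), (nat_lit 3865903979), (nat_lit 3077779682)], (nat_lit 1271251), (nat_lit 1271251), (nat_lit 490000), (nat_lit 780000), (nat_lit 0), (nat_lit 2613125), [(nat_lit 1412501), (nat_lit 1271251), (nat_lit 1271251)], [(nat_lit 23), (nat_lit 62), (nat_lit 428), (nat_lit 200), (nat_lit 11)]⟩,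
 ⟨⟨[(nat_lit 100), (nat_lit 140), (nat_lit 160)], [(nat_lit 0), (nat_lit 0), (nat_lit 1280)], [((nat_lit 0), (nat_lit 0), (nat_lit 0)), ((nat_lit 0), (nat_lit 0), (nat_lit 0)), ((nat_lit 800), (nat_lit 1000), (nat_lit 600))], ((nat_lit 100), (nat_lit 84), (nat_lit 54))⟩, (nat_lit 23400), (nat_lit 300), (nat_lit 917), (nat_lit 3374400), (nat_lit 1410261), [(nat_lit 300000000), (nat_lit 472416000), (nat_lit 569856000)], [], [(nat_lit 2243654928), (nat_lit 2226215928), (nat_lit 2252167728), (nat_lit 2238676920), (nat_lit 1807332282), (nat_lit 1740768222), (nat_lit 1795733628), (nat_lit 1779317742)], (nat_lit 1271251), (nat_lit 1271251), (nat_lit 1271251), (nat_lit 1271251), (nat_lit 0), (nat_lit 2613125), [(nat_lit 1412501), (nat_lit 1271251), (nat_lit 1271251)], [(nat_lit 23), (nat_lit 62), (nat_lit 483), (nat_lit 250), (nat_lit 12)]⟩⟩))))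
noncomputable def c7_14 : Tr Lf :=
 (.trX (nat_lit 4) (nat_lit 0) (nat_lit 2) (nat_lit 71) (nat_lit 70) (nat_lit 100) (nat_lit 350) (.spl (nat_lit 3) (nat_lit 80) (.trX (nat_lit 5) (nat_lit 4) (nat_lit 3) (nat_lit 83) (nat_lit 100) (nat_lit 83) (nat_lit 260) (.spl (nat_lit 6) (nat_lit 16) (.leaf ⟨(nat_lit 964), (nat_lit 0), (nat_lit 17), (nat_lit 19), (nat_lit 0), (nat_lit 3174), (nat_lit 230), (nat_lit 418), (nat_lit 0), (nat_lit 1019235), (nat_lit 538800), [((nat_lit 360), [((nat_lit 21), (nat_lit 1), (nat_lit 198)), ((nat_lit 39), (nat_lit 2), (nat_lit 766))])], ⟨(nat_lit 4), false, false, false, (nat_lit 117), (nat_lit 3162), (nat_lit 3873), [(nat_lit 1220020), (nat_lit 1233931), (nat_lit 1285313), (nat_lit 1300309), (nat_lit 1284573), (nat_lit 1294916), (nat_lit 1349867), (nat_lit 1361295)]⟩, ⟨(nat_lit 8), false, true, true, (nat_lit 280), (nat_lit 3162), (nat_lit 3873), [(nat_lit 1671770), (nat_lit 1660704), (nat_lit 1693563), (nat_lit 1682859),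 (nat_lit 1720161), (nat_lit 1706419), (nat_lit 1741954), (nat_lit 1728574)]⟩, (nat_lit 4582990), (nat_lit 40981954), (nat_lit 5189278), (nat_lit 20828768), (nat_lit 0), (nat_lit 4), [⟨(nat_lit 0), (nat_lit 100), (nat_lit 66), (nat_lit 78), (nat_lit 388475325)⟩], [⟨(nat_lit 1), (nat_lit 70), (nat_lit 71), (nat_lit 100), (nat_lit 277366381)⟩], [], [],
 ⟨⟨[(nat_lit 40), (nat_lit 60), (nat_lit 80)], [(nat_lit 0), (nat_lit 398), (nat_lit 992)], [((nat_lit 0), (nat_lit 0), (nat_lit 0)), ((nat_lit 1000), (nat_lit 814), (nat_lit 310)), ((nat_lit 1000), (nat_lit 752), (nat_lit 464))], ((nat_lit 77), (nat_lit 100), (nat_lit 42))⟩, (nat_lit 2870), (nat_lit 168), (nat_lit 168), (nat_lit 0), (nat_lit 159793), [(nat_lit 1338406512), (nat_lit 1271339655), (nat_lit 1161083545)], [(nat_lit 0), (nat_lit 0), (nat_lit 0)], [(nat_lit 25032676580), (nat_lit 26350625564), (nat_lit 24362241011), (nat_lit 25355828915), (nat_lit 26907911611), (nat_lit 28124172150), (nat_lit 25788302224),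 (nat_lit 26979343571)], (nat_lit 1271251), (nat_lit 1271251), (nat_lit 230000), (nat_lit 490000), (nat_lit 1271251), (nat_lit 1271251), [(nat_lit 490000), (nat_lit 780000), (nat_lit 1100000)], [(nat_lit 2), (nat_lit 44), (nat_lit 226), (nat_lit 20), (nat_lit 8)]⟩,
 ⟨⟨[(nat_lit 120), (nat_lit 140), (nat_lit 160)], [(nat_lit 0), (nat_lit 266), (nat_lit 862)], [((nat_lit 0), (nat_lit 0), (nat_lit 0)), ((nat_lit 960), (nat_lit 1000), (nat_lit 200)), ((nat_lit 874), (nat_lit 1000), (nat_lit 406))], ((nat_lit 100), (nat_lit 88), (nat_lit 39))⟩, (nat_lit 174363), (nat_lit 529), (nat_lit 529), (nat_lit 0), (nat_lit 325009), [(nat_lit 151392000), (nat_lit 186998000), (nat_lit 225568000)], [], [(nat_lit 1159635595), (nat_lit 791892160), (nat_lit 912586500), (nat_lit 556515608), (nat_lit 873202423), (nat_lit 538862233), (nat_lit 907711806), (nat_lit 578043088)], (nat_lit 1271251), (nat_lit 1271251), (nat_lit 230000), (nat_lit 490000), (nat_lit 0), (nat_lit 1836250),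 [(nat_lit 1695001), (nat_lit 1271251), (nat_lit 1271251)], [(nat_lit 27), (nat_lit 62), (nat_lit 373), (nat_lit 150), (nat_lit 10)]⟩,
 ⟨⟨[(nat_lit 120), (nat_lit 140), (nat_lit 160)], [(nat_lit 0), (nat_lit 266), (nat_lit 862)], [((nat_lit 0), (nat_lit 0), (nat_lit 0)), ((nat_lit 960), (nat_lit 1000), (nat_lit 200)), ((nat_lit 874), (nat_lit 1000), (nat_lit 406))], ((nat_lit 100), (nat_lit 88), (nat_lit 39))⟩, (nat_lit 73895), (nat_lit 300), (nat_lit 1045), (nat_lit 2390400), (nat_lit 1718986), [(nat_lit 286848000), (nat_lit 354312000), (nat_lit 427392000)], [], [(nat_lit 1624694602), (nat_lit 1614354476), (nat_lit 1664309190), (nat_lit 1652053961), (nat_lit 1212802628), (nat_lit 1198773045), (nat_lit 1249684322), (nat_lit 1240496030)], (nat_lit 1271251), (nat_lit 1271251), (nat_lit 1271251), (nat_lit 1271251), (nat_lit 0), (nat_lit 1836250), [(nat_lit 1695001), (nat_lit 1271251), (nat_lit 1271251)], [(nat_lit 27), (nat_lit 62), (nat_lit 363), (nat_lit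 125), (nat_lit 9)]⟩⟩) (.spl (nat_lit 1) (nat_lit 220) (.leaf ⟨(nat_lit 965), (nat_lit 0), (nat_lit 22), (nat_lit 13), (nat_lit 4771), (nat_lit 3402), (nat_lit 258), (nat_lit 430), (nat_lit 0), (nat_lit 55729), (nat_lit 378050), [((nat_lit 360), [((nat_lit 21), (nat_lit 0), (nat_lit 53)), ((nat_lit 21), (nat_lit 1), (nat_lit 912))])], ⟨(nat_lit 4), false, false, false, (nat_lit 112), (nat_lit 3162), (nat_lit 3873), [(nat_lit 1220020), (nat_lit 1233931), (nat_lit 1263549), (nat_lit 1278184), (nat_lit 1284573), (nat_lit 1294916), (nat_lit 1328103), (nat_lit 1339169)]⟩, ⟨(nat_lit 8), false, true, true, (nat_lit 280), (nat_lit 3162), (nat_lit 3873), [(nat_lit 1671770), (nat_lit 1660704), (nat_lit 1693563), (nat_lit 1682859), (nat_lit 1720161), (nat_lit 1706419), (nat_lit 1741954), (nat_lit 1728574)]⟩, (nat_lit 4534296), (nat_lit 41190749), (nat_lit 4908320), (nat_lit 20900931), (nat_lit 0), (nat_lit 4), [⟨(nat_lit 0), (nat_lit 100), (nat_lit 66), (nat_lit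 75), (nat_lit 376823485)⟩], [⟨(nat_lit 1), (nat_lit 70), (nat_lit 71), (nat_lit 100), (nat_lit 280578409)⟩], [⟨(nat_lit 0), (nat_lit 100), (nat_lit 99), (nat_lit 10), (nat_lit 14913077)⟩], [],
 ⟨⟨[(nat_lit 40), (nat_lit 60), (nat_lit 80)], [(nat_lit 0), (nat_lit 398), (nat_lit 992)], [((nat_lit 0), (nat_lit 0), (nat_lit 0)), ((nat_lit 1000), (nat_lit 814), (nat_lit 310)), ((nat_lit 1000), (nat_lit 752), (nat_lit 464))], ((nat_lit 73), (nat_lit 100), (nat_lit 55))⟩, (nat_lit 0), (nat_lit 137), (nat_lit 137), (nat_lit 0), (nat_lit 77380), [(nat_lit 1376480812), (nat_lit 1493433021), (nat_lit 1633207979)], [(nat_lit 0), (nat_lit 0), (nat_lit 0)], [(nat_lit 25420828340), (nat_lit 26781656372), (nat_lit 24698370458), (nat_lit 25686118800), (nat_lit 27355153576), (nat_lit 28609064795), (nat_lit 26115746581), (nat_lit 27344128922)], (nat_lit 1271251), (nat_lit 1271251), (nat_lit 230000), (nat_lit 490000), (nat_lit 1271251), (nat_lit 1271251), [(nat_lit 490000),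 (nat_lit 780000), (nat_lit 1100000)], [(nat_lit 2), (nat_lit 44), (nat_lit 226), (nat_lit 20), (nat_lit 8)]⟩,
 ⟨⟨[(nat_lit 120), (nat_lit 160), (nat_lit 180)], [(nat_lit 0), (nat_lit 533), (nat_lit 2066)], [((nat_lit 0), (nat_lit 0), (nat_lit 0)), ((nat_lit 960), (nat_lit 1000), (nat_lit 200)), ((nat_lit 615), (nat_lit 1000), (nat_lit 729))], ((nat_lit 100), (nat_lit 79), (nat_lit 55))⟩, (nat_lit 94855), (nat_lit 550), (nat_lit 550), (nat_lit 0), (nat_lit 165036), [(nat_lit 103584000), (nat_lit 154336000), (nat_lit 182754000)], [], [(nat_lit 1002070761), (nat_lit 727062627), (nat_lit 724946124), (nat_lit 454211663), (nat_lit 639285277), (nat_lit 389256961), (nat_lit 669350237), (nat_lit 422815370)], (nat_lit 1271251), (nat_lit 1271251), (nat_lit 230000), (nat_lit 490000), (nat_lit 0), (nat_lit 1836250), [(nat_lit 1695001), (nat_lit 1271251), (nat_lit 1271251)], [(nat_lit 28), (nat_lit 65), (nat_lit 373), (nat_lit 150), (nat_lit 9)]⟩,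
 ⟨⟨[(nat_lit 120), (nat_lit 160), (nat_lit 180)], [(nat_lit 0), (nat_lit 533), (nat_lit 2066)], [((nat_lit 0), (nat_lit 0), (nat_lit 0)), ((nat_lit 960), (nat_lit 1000), (nat_lit 200)), ((nat_lit 615), (nat_lit 1000), (nat_lit 729))], ((nat_lit 100), (nat_lit 79), (nat_lit 55))⟩, (nat_lit 81951), (nat_lit 300), (nat_lit 683), (nat_lit 2324001), (nat_lit 774444), [(nat_lit 278880000), (nat_lit 415520000), (nat_lit 492030000)], [], [(nat_lit 1793967120), (nat_lit 1780779040), (nat_lit 1845599080), (nat_lit 1833598184), (nat_lit 1326503582), (nat_lit 1313016998), (nat_lit 1361508811), (nat_lit 1346204448)], (nat_lit 1271251), (nat_lit 1271251), (nat_lit 1271251), (nat_lit 1271251), (nat_lit 0), (nat_lit 1836250), [(nat_lit 1695001), (nat_lit 1271251), (nat_lit 1271251)], [(nat_lit 28), (nat_lit 65), (nat_lit 456), (nat_lit 225), (nat_lit 10)]⟩⟩) (.trZ (nat_lit 0) (nat_lit 1) (nat_lit 3) (nat_lit 100) (nat_lit 72) (nat_lit 77) (nat_lit 70) (.leaf ⟨(nat_lit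 0), (nat_lit 0), (nat_lit 0), (nat_lit 1000), (nat_lit 36866), (nat_lit 4906), (nat_lit 21716), (nat_lit 12358), (nat_lit 0), (nat_lit 0), (nat_lit 0), [], Pd.none, Pd.none, (nat_lit 0), (nat_lit 1), (nat_lit 0), (nat_lit 0), (nat_lit 0), (nat_lit 0), [⟨(nat_lit 0), (nat_lit 100), (nat_lit 67), (nat_lit 85), (nat_lit 10319054396)⟩], [⟨(nat_lit 1), (nat_lit 78), (nat_lit 66), (nat_lit 100), (nat_lit 1008306501)⟩], [], [],
 ⟨⟨[(nat_lit 40), (nat_lit 60), (nat_lit 80)], [(nat_lit 0), (nat_lit 398), (nat_lit 992)], [((nat_lit 0), (nat_lit 0), (nat_lit 0)), ((nat_lit 1000), (nat_lit 814), (nat_lit 310)), ((nat_lit 1000), (nat_lit 752), (nat_lit 464))], ((nat_lit 73), (nat_lit 100), (nat_lit 55))⟩, (nat_lit 1086397), (nat_lit 123), (nat_lit 123), (nat_lit 0), (nat_lit 91104), [(nat_lit 2154333267), (nat_lit 3282000025), (nat_lit 4688000000)], [], [(nat_lit 26621312575), (nat_lit 28115335511), (nat_lit 26236940733), (nat_lit 27612778908), (nat_lit 28786096696),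 (nat_lit 30264737935), (nat_lit 28279668505), (nat_lit 29750432290)], (nat_lit 1271251), (nat_lit 1271251), (nat_lit 422188), (nat_lit 490000), (nat_lit 1271251), (nat_lit 1271251), [(nat_lit 490000), (nat_lit 780000), (nat_lit 1100000)], [(nat_lit 2), (nat_lit 44), (nat_lit 226), (nat_lit 20), (nat_lit 8)]⟩,
 ⟨⟨[(nat_lit 100), (nat_lit 140), (nat_lit 160)], [(nat_lit 0), (nat_lit 508), (nat_lit 1689)], [((nat_lit 0), (nat_lit 0), (nat_lit 0)), ((nat_lit 1000), (nat_lit 1000), (nat_lit 198)), ((nat_lit 811), (nat_lit 1000), (nat_lit 671))], ((nat_lit 100), (nat_lit 89), (nat_lit 55))⟩, (nat_lit 11141145), (nat_lit 378), (nat_lit 378), (nat_lit 0), (nat_lit 152157), [(nat_lit 6250000000), (nat_lit 9842000000), (nat_lit 11872000000)], [], [(nat_lit 20989101751), (nat_lit 23253127630), (nat_lit 18414434235), (nat_lit 20760074068), (nat_lit 49711045525), (nat_lit 39712807074), (nat_lit 50856710659), (nat_lit 40892242624)], (nat_lit 1271251), (nat_lit 1271251),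 (nat_lit 422188), (nat_lit 490000), (nat_lit 0), (nat_lit 1836250), [(nat_lit 1412501), (nat_lit 1271251), (nat_lit 1271251)], [(nat_lit 23), (nat_lit 62), (nat_lit 373), (nat_lit 150), (nat_lit 10)]⟩,
 ⟨⟨[(nat_lit 120), (nat_lit 160), (nat_lit 180)], [(nat_lit 0), (nat_lit 533), (nat_lit 2066)], [((nat_lit 0), (nat_lit 0), (nat_lit 0)), ((nat_lit 960), (nat_lit 1000), (nat_lit 200)), ((nat_lit 615), (nat_lit 1000), (nat_lit 729))], ((nat_lit 100), (nat_lit 79), (nat_lit 55))⟩, (nat_lit 2341463), (nat_lit 300), (nat_lit 766), (nat_lit 66400002), (nat_lit 939193), [(nat_lit 7968000000), (nat_lit 11872000000), (nat_lit 14058000000)], [], [(nat_lit 51132256474), (nat_lit 50856954236), (nat_lit 52717845971), (nat_lit 52370703451), (nat_lit 37779098488), (nat_lit 37389438133), (nat_lit 38781359380), (nat_lit 38339498988)], (nat_lit 1271251), (nat_lit 1271251), (nat_lit 1271251), (nat_lit 1271251), (nat_lit 0), (nat_lit 1836250), [(nat_lit 1695001), (nat_lit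 1271251), (nat_lit 1271251)], [(nat_lit 28), (nat_lit 65), (nat_lit 456), (nat_lit 225), (nat_lit 10)]⟩⟩))))) (.spl (nat_lit 1) (nat_lit 220) (.leaf ⟨(nat_lit 967), (nat_lit 0), (nat_lit 0), (nat_lit 33), (nat_lit 653), (nat_lit 3447), (nat_lit 655), (nat_lit 402), (nat_lit 0), (nat_lit 12954), (nat_lit 347050), [((nat_lit 360), [((nat_lit 21), (nat_lit 0), (nat_lit 265)), ((nat_lit 21), (nat_lit 1), (nat_lit 702))])], ⟨(nat_lit 4), false, false, false, (nat_lit 137), (nat_lit 3162), (nat_lit 3873), [(nat_lit 1284573), (nat_lit 1294916), (nat_lit 1328103), (nat_lit 1339169), (nat_lit 1349127), (nat_lit 1355902), (nat_lit 1392656), (nat_lit 1400154)]⟩, ⟨(nat_lit 8), false, true, true, (nat_lit 280), (nat_lit 3162), (nat_lit 3873), [(nat_lit 1671770), (nat_lit 1660704), (nat_lit 1693563), (nat_lit 1682859), (nat_lit 1720161), (nat_lit 1706419), (nat_lit 1741954), (nat_lit 1728574)]⟩, (nat_lit 4800154), (nat_lit 39964617), (nat_lit 6567883), (nat_lit 20467500),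 (nat_lit 0), (nat_lit 0), [], [⟨(nat_lit 1), (nat_lit 70), (nat_lit 71), (nat_lit 100), (nat_lit 278736308)⟩], [⟨(nat_lit 0), (nat_lit 100), (nat_lit 99), (nat_lit 10), (nat_lit 27071070)⟩], [],
 ⟨⟨[(nat_lit 40), (nat_lit 60), (nat_lit 80)], [(nat_lit 0), (nat_lit 398), (nat_lit 992)], [((nat_lit 0), (nat_lit 0), (nat_lit 0)), ((nat_lit 1000), (nat_lit 814), (nat_lit 310)), ((nat_lit 1000), (nat_lit 752), (nat_lit 464))], ((nat_lit 73), (nat_lit 100), (nat_lit 55))⟩, (nat_lit 0), (nat_lit 131), (nat_lit 131), (nat_lit 0), (nat_lit 150343), [(nat_lit 1387718033), (nat_lit 1529926084), (nat_lit 1724062516)], [(nat_lit 0), (nat_lit 0), (nat_lit 0)], [(nat_lit 24757990314), (nat_lit 25751114851), (nat_lit 25007006871), (nat_lit 25956174187), (nat_lit 26181845318), (nat_lit 27416126031), (nat_lit 26368736646), (nat_lit 27422210356)], (nat_lit 1271251), (nat_lit 1271251), (nat_lit 490000), (nat_lit 780000), (nat_lit 1271251), (nat_lit 1271251), [(nat_lit 490000),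 (nat_lit 780000), (nat_lit 1100000)], [(nat_lit 2), (nat_lit 44), (nat_lit 238), (nat_lit 30), (nat_lit 9)]⟩,
 ⟨⟨[(nat_lit 120), (nat_lit 160), (nat_lit 180)], [(nat_lit 0), (nat_lit 533), (nat_lit 2066)], [((nat_lit 0), (nat_lit 0), (nat_lit 0)), ((nat_lit 960), (nat_lit 1000), (nat_lit 200)), ((nat_lit 615), (nat_lit 1000), (nat_lit 729))], ((nat_lit 100), (nat_lit 79), (nat_lit 55))⟩, (nat_lit 240786), (nat_lit 582), (nat_lit 582), (nat_lit 0), (nat_lit 332073), [(nat_lit 262944000), (nat_lit 391776000), (nat_lit 463914000)], [], [(nat_lit 1840324710), (nat_lit 1152979686), (nat_lit 1157950623), (nat_lit 1065006143), (nat_lit 1850703958), (nat_lit 1233305870), (nat_lit 2035460052), (nat_lit 1426210328)], (nat_lit 1271251), (nat_lit 1271251), (nat_lit 490000), (nat_lit 780000), (nat_lit 0), (nat_lit 2118750), [(nat_lit 1695001), (nat_lit 1271251), (nat_lit 1271251)], [(nat_lit 28), (nat_lit 65), (nat_lit 401), (nat_lit 175), (nat_lit 10)]⟩,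
 ⟨⟨[(nat_lit 120), (nat_lit 160), (nat_lit 180)], [(nat_lit 0), (nat_lit 533), (nat_lit 2066)], [((nat_lit 0), (nat_lit 0), (nat_lit 0)), ((nat_lit 960), (nat_lit 1000), (nat_lit 200)), ((nat_lit 615), (nat_lit 1000), (nat_lit 729))], ((nat_lit 100), (nat_lit 79), (nat_lit 55))⟩, (nat_lit 77268), (nat_lit 300), (nat_lit 1031), (nat_lit 2191201), (nat_lit 1551740), [(nat_lit 262944000), (nat_lit 391776000), (nat_lit 463914000)], [], [(nat_lit 1697357136), (nat_lit 1680368124), (nat_lit 1740778829), (nat_lit 1729665744), (nat_lit 1267611366), (nat_lit 1253408366), (nat_lit 1296070961), (nat_lit 1280300697)], (nat_lit 1271251), (nat_lit 1271251), (nat_lit 1271251), (nat_lit 1271251), (nat_lit 0), (nat_lit 2118750), [(nat_lit 1695001), (nat_lit 1271251), (nat_lit 1271251)], [(nat_lit 28), (nat_lit 65), (nat_lit 456), (nat_lit 225), (nat_lit 10)]⟩⟩) (.spl (nat_lit 1) (nat_lit 230) (.leaf ⟨(nat_lit 960), (nat_lit 0), (nat_lit 0), (nat_lit 40), (nat_lit 441),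 (nat_lit 3460), (nat_lit 894), (nat_lit 464), (nat_lit 0), (nat_lit 0), (nat_lit 344100), [((nat_lit 360), [((nat_lit 21), (nat_lit 0), (nat_lit 266)), ((nat_lit 21), (nat_lit 1), (nat_lit 694))])], ⟨(nat_lit 5), false, false, false, (nat_lit 148), (nat_lit 3162), (nat_lit 3873), [(nat_lit 1328103), (nat_lit 1339169), (nat_lit 1338985), (nat_lit 1350232), (nat_lit 1392656), (nat_lit 1400154), (nat_lit 1403539), (nat_lit 1411218)]⟩, ⟨(nat_lit 8), false, true, true, (nat_lit 280), (nat_lit 3162), (nat_lit 3873), [(nat_lit 1671770), (nat_lit 1660704), (nat_lit 1693563), (nat_lit 1682859), (nat_lit 1720161), (nat_lit 1706419), (nat_lit 1741954), (nat_lit 1728574)]⟩, (nat_lit 4906372), (nat_lit 39407902), (nat_lit 7328801), (nat_lit 20263297), (nat_lit 0), (nat_lit 0), [⟨(nat_lit 0), (nat_lit 100), (nat_lit 67), (nat_lit 83), (nat_lit 108919802)⟩], [⟨(nat_lit 1), (nat_lit 70), (nat_lit 71), (nat_lit 100), (nat_lit 268543854)⟩], [⟨(nat_lit 0), (nat_lit 100),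 (nat_lit 99), (nat_lit 8), (nat_lit 8587793)⟩], [],
 ⟨⟨[(nat_lit 40), (nat_lit 60), (nat_lit 80)], [(nat_lit 0), (nat_lit 398), (nat_lit 992)], [((nat_lit 0), (nat_lit 0), (nat_lit 0)), ((nat_lit 1000), (nat_lit 814), (nat_lit 310)), ((nat_lit 1000), (nat_lit 752), (nat_lit 464))], ((nat_lit 73), (nat_lit 100), (nat_lit 55))⟩, (nat_lit 0), (nat_lit 132), (nat_lit 132), (nat_lit 0), (nat_lit 155828), [(nat_lit 1391430402), (nat_lit 1542083776), (nat_lit 1747652224)], [(nat_lit 0), (nat_lit 0), (nat_lit 0)], [(nat_lit 24774637982), (nat_lit 25769315642), (nat_lit 25021699742), (nat_lit 25972309122), (nat_lit 26200643305), (nat_lit 27436925195), (nat_lit 26385424045), (nat_lit 27440037285)], (nat_lit 1271251), (nat_lit 1271251), (nat_lit 490000), (nat_lit 780000), (nat_lit 1271251), (nat_lit 1271251), [(nat_lit 490000), (nat_lit 780000), (nat_lit 1100000)], [(nat_lit 2), (nat_lit 44), (nat_lit 238), (nat_lit 30), (nat_lit 9)]⟩,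
 ⟨⟨[(nat_lit 100), (nat_lit 140), (nat_lit 160)], [(nat_lit 0), (nat_lit 508), (nat_lit 1689)], [((nat_lit 0), (nat_lit 0), (nat_lit 0)), ((nat_lit 1000), (nat_lit 1000), (nat_lit 198)), ((nat_lit 811), (nat_lit 1000), (nat_lit 671))], ((nat_lit 100), (nat_lit 89), (nat_lit 55))⟩, (nat_lit 314195), (nat_lit 425), (nat_lit 425), (nat_lit 0), (nat_lit 273631), [(nat_lit 250000000), (nat_lit 393680000), (nat_lit 474880000)], [], [(nat_lit 1239032608), (nat_lit 1004682086), (nat_lit 915337541), (nat_lit 909501703), (nat_lit 2283063506), (nat_lit 2080622905), (nat_lit 2572116674), (nat_lit 2372238668)], (nat_lit 1271251), (nat_lit 1271251), (nat_lit 490000), (nat_lit 780000), (nat_lit 0), (nat_lit 2118750), [(nat_lit 1412501), (nat_lit 1271251), (nat_lit 1271251)], [(nat_lit 23), (nat_lit 62), (nat_lit 401), (nat_lit 175), (nat_lit 11)]⟩,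
 ⟨⟨[(nat_lit 120), (nat_lit 160), (nat_lit 180)], [(nat_lit 0), (nat_lit 533), (nat_lit 2066)], [((nat_lit 0), (nat_lit 0), (nat_lit 0)), ((nat_lit 960), (nat_lit 1000), (nat_lit 200)), ((nat_lit 615), (nat_lit 1000), (nat_lit 729))], ((nat_lit 100), (nat_lit 79), (nat_lit 55))⟩, (nat_lit 93659), (nat_lit 300), (nat_lit 1068), (nat_lit 2656000), (nat_lit 1631793), [(nat_lit 318720000), (nat_lit 474880000), (nat_lit 562320000)], [], [(nat_lit 2097466656), (nat_lit 2078486784), (nat_lit 2123454816), (nat_lit 2102890632), (nat_lit 1576304402), (nat_lit 1560564700), (nat_lit 1610346512), (nat_lit 1592784897)], (nat_lit 1271251), (nat_lit 1271251), (nat_lit 1271251), (nat_lit 1271251), (nat_lit 0), (nat_lit 2118750), [(nat_lit 1695001), (nat_lit 1271251), (nat_lit 1271251)], [(nat_lit 28), (nat_lit 65), (nat_lit 456), (nat_lit 225), (nat_lit 10)]⟩⟩) (.leaf ⟨(nat_lit 919), (nat_lit 11), (nat_lit 0), (nat_lit 70), (nat_lit 0), (nat_lit 3683), (nat_lit 1850),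 (nat_lit 749), (nat_lit 0), (nat_lit 0), (nat_lit 326950), [((nat_lit 360), [((nat_lit 21), (nat_lit 0), (nat_lit 271)), ((nat_lit 21), (nat_lit 1), (nat_lit 648))])], ⟨(nat_lit 5), false, false, false, (nat_lit 153), (nat_lit 3162), (nat_lit 3873), [(nat_lit 1338985), (nat_lit 1350232), (nat_lit 1349867), (nat_lit 1361295), (nat_lit 1403539), (nat_lit 1411218), (nat_lit 1414421), (nat_lit 1422280)]⟩, ⟨(nat_lit 8), false, true, true, (nat_lit 280), (nat_lit 3162), (nat_lit 3873), [(nat_lit 1671770), (nat_lit 1660704), (nat_lit 1693563), (nat_lit 1682859), (nat_lit 1720161), (nat_lit 1706419), (nat_lit 1741954), (nat_lit 1728574)]⟩, (nat_lit 4947112), (nat_lit 39182327), (nat_lit 7638375), (nat_lit 20179298), (nat_lit 8), (nat_lit 0), [⟨(nat_lit 0), (nat_lit 100), (nat_lit 67), (nat_lit 87), (nat_lit 170967169)⟩], [⟨(nat_lit 1), (nat_lit 78), (nat_lit 66), (nat_lit 100), (nat_lit 387165919)⟩], [⟨(nat_lit 0), (nat_lit 100), (nat_lit 99), (nat_lit 13),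 (nat_lit 279582)⟩], [],
 ⟨⟨[(nat_lit 40), (nat_lit 60), (nat_lit 80)], [(nat_lit 0), (nat_lit 398), (nat_lit 992)], [((nat_lit 0), (nat_lit 0), (nat_lit 0)), ((nat_lit 1000), (nat_lit 814), (nat_lit 310)), ((nat_lit 1000), (nat_lit 752), (nat_lit 464))], ((nat_lit 73), (nat_lit 100), (nat_lit 55))⟩, (nat_lit 0), (nat_lit 134), (nat_lit 134), (nat_lit 0), (nat_lit 162660), [(nat_lit 1412994439), (nat_lit 1616249251), (nat_lit 1882308949)], [(nat_lit 0), (nat_lit 0), (nat_lit 0)], [(nat_lit 24613708948), (nat_lit 25937604868), (nat_lit 24827238421), (nat_lit 25970940183), (nat_lit 26520043164), (nat_lit 27793710868), (nat_lit 26528574396), (nat_lit 27745837687)], (nat_lit 1271251), (nat_lit 1271251), (nat_lit 490000), (nat_lit 780000), (nat_lit 1271251), (nat_lit 1271251), [(nat_lit 490000), (nat_lit 780000), (nat_lit 1100000)], [(nat_lit 2), (nat_lit 44), (nat_lit 238), (nat_lit 30), (nat_lit 9)]⟩,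
 ⟨⟨[(nat_lit 100), (nat_lit 140), (nat_lit 160)], [(nat_lit 0), (nat_lit 766), (nat_lit 1913)], [((nat_lit 0), (nat_lit 0), (nat_lit 0)), ((nat_lit 1000), (nat_lit 1000), (nat_lit 299)), ((nat_lit 817), (nat_lit 1000), (nat_lit 711))], ((nat_lit 100), (nat_lit 92), (nat_lit 55))⟩, (nat_lit 885775), (nat_lit 422), (nat_lit 422), (nat_lit 0), (nat_lit 269247), [(nat_lit 506250000), (nat_lit 797202000), (nat_lit 961632000)], [], [(nat_lit 1666351140), (nat_lit 1505036680), (nat_lit 1361928124), (nat_lit 1391689278), (nat_lit 4218078843), (nat_lit 3799158136), (nat_lit 4819476383), (nat_lit 4405858586)], (nat_lit 1271251), (nat_lit 1271251), (nat_lit 490000), (nat_lit 780000), (nat_lit 0), (nat_lit 2118750), [(nat_lit 1412501), (nat_lit 1271251), (nat_lit 1271251)], [(nat_lit 23), (nat_lit 62), (nat_lit 401), (nat_lit 175), (nat_lit 11)]⟩,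
 ⟨⟨[(nat_lit 120), (nat_lit 160), (nat_lit 180)], [(nat_lit 0), (nat_lit 533), (nat_lit 2066)], [((nat_lit 0), (nat_lit 0), (nat_lit 0)), ((nat_lit 960), (nat_lit 1000), (nat_lit 200)), ((nat_lit 615), (nat_lit 1000), (nat_lit 729))], ((nat_lit 100), (nat_lit 79), (nat_lit 55))⟩, (nat_lit 163902), (nat_lit 300), (nat_lit 1115), (nat_lit 4648002), (nat_lit 1727873), [(nat_lit 557760000), (nat_lit 831040000), (nat_lit 984060000)], [], [(nat_lit 3791589478), (nat_lit 3754025336), (nat_lit 3824228821), (nat_lit 3792789099), (nat_lit 2948032982), (nat_lit 2913676803), (nat_lit 2967053303), (nat_lit 2930879242)], (nat_lit 1271251), (nat_lit 1271251), (nat_lit 1271251), (nat_lit 1271251), (nat_lit 0), (nat_lit 2118750), [(nat_lit 1695001), (nat_lit 1271251), (nat_lit 1271251)], [(nat_lit 28), (nat_lit 65), (nat_lit 456), (nat_lit 225), (nat_lit 10)]⟩⟩)))))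
noncomputable def c7_15 : Tr Lf :=
 (.ord (.trZ (nat_lit 0) (nat_lit 1) (nat_lit 3) (nat_lit 100) (nat_lit 71) (nat_lit 70) (nat_lit 50) (.spl (nat_lit 5) (nat_lit 120) (.spl (nat_lit 0) (nat_lit 350) (.leaf ⟨(nat_lit 824), (nat_lit 0), (nat_lit 0), (nat_lit 176), (nat_lit 0), (nat_lit 2887), (nat_lit 2938), (nat_lit 1980), (nat_lit 0), (nat_lit 47677), (nat_lit 473750), [((nat_lit 350), [((nat_lit 21), (nat_lit 0), (nat_lit 59)), ((nat_lit 39), (nat_lit 2), (nat_lit 765))])], ⟨(nat_lit 5), false, false, false, (nat_lit 136), (nat_lit 3535), (nat_lit 3873), [(nat_lit 1258021), (nat_lit 1264622), (nat_lit 1301595), (nat_lit 1308515), (nat_lit 1370945), (nat_lit 1374465), (nat_lit 1414519), (nat_lit 1418358)]⟩, ⟨(nat_lit 8), false, true, true, (nat_lit 293), (nat_lit 3535), (nat_lit 3873), [(nat_lit 1693563), (nat_lit 1688283), (nat_lit 1715356), (nat_lit 1710235), (nat_lit 1758085), (nat_lit 1751044), (nat_lit 1779878), (nat_lit 1772997)]⟩, (nat_lit 4824827),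 (nat_lit 38949139), (nat_lit 6336081), (nat_lit 21714780), (nat_lit 0), (nat_lit 0), [⟨(nat_lit 0), (nat_lit 100), (nat_lit 69), (nat_lit 79), (nat_lit 243455787)⟩], [⟨(nat_lit 1), (nat_lit 69), (nat_lit 69), (nat_lit 100), (nat_lit 185933868)⟩], [⟨(nat_lit 0), (nat_lit 100), (nat_lit 100), (nat_lit 15), (nat_lit 132294850)⟩], [],
 ⟨⟨[(nat_lit 40), (nat_lit 60), (nat_lit 80)], [(nat_lit 0), (nat_lit 398), (nat_lit 992)], [((nat_lit 0), (nat_lit 0), (nat_lit 0)), ((nat_lit 1000), (nat_lit 814), (nat_lit 310)), ((nat_lit 1000), (nat_lit 752), (nat_lit 464))], ((nat_lit 73), (nat_lit 100), (nat_lit 55))⟩, (nat_lit 885148), (nat_lit 153), (nat_lit 153), (nat_lit 0), (nat_lit 141409), [(nat_lit 1414763205), (nat_lit 1563287625), (nat_lit 1610223575)], [(nat_lit 0), (nat_lit 0), (nat_lit 0)], [(nat_lit 24763634807), (nat_lit 25256478071), (nat_lit 24790100683), (nat_lit 25258700639), (nat_lit 26774643439), (nat_lit 27266058251), (nat_lit 26687073695), (nat_lit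 27148716309)], (nat_lit 1271251), (nat_lit 1271251), (nat_lit 292188), (nat_lit 780000), (nat_lit 1271251), (nat_lit 1271251), [(nat_lit 490000), (nat_lit 780000), (nat_lit 1100000)], [(nat_lit 2), (nat_lit 44), (nat_lit 238), (nat_lit 30), (nat_lit 9)]⟩,
 ⟨⟨[(nat_lit 100), (nat_lit 140), (nat_lit 160)], [(nat_lit 0), (nat_lit 0), (nat_lit 1280)], [((nat_lit 0), (nat_lit 0), (nat_lit 0)), ((nat_lit 0), (nat_lit 0), (nat_lit 0)), ((nat_lit 800), (nat_lit 1000), (nat_lit 600))], ((nat_lit 100), (nat_lit 84), (nat_lit 54))⟩, (nat_lit 976211), (nat_lit 451), (nat_lit 451), (nat_lit 0), (nat_lit 247779), [(nat_lit 1100000000), (nat_lit 1732192000), (nat_lit 2089472000)], [], [(nat_lit 5983599372), (nat_lit 6211442941), (nat_lit 6332274518), (nat_lit 5113982248), (nat_lit 6387496386), (nat_lit 3922966341), (nat_lit 7524192193), (nat_lit 4735264844)], (nat_lit 1271251), (nat_lit 1271251), (nat_lit 292188), (nat_lit 780000), (nat_lit 0), (nat_lit 780000), [(nat_lit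 1412501), (nat_lit 1271251), (nat_lit 1271251)], [(nat_lit 23), (nat_lit 62), (nat_lit 345), (nat_lit 125), (nat_lit 9)]⟩,
 ⟨⟨[(nat_lit 100), (nat_lit 140), (nat_lit 160)], [(nat_lit 0), (nat_lit 0), (nat_lit 1280)], [((nat_lit 0), (nat_lit 0), (nat_lit 0)), ((nat_lit 0), (nat_lit 0), (nat_lit 0)), ((nat_lit 800), (nat_lit 1000), (nat_lit 600))], ((nat_lit 100), (nat_lit 84), (nat_lit 54))⟩, (nat_lit 85800), (nat_lit 300), (nat_lit 616), (nat_lit 12372800), (nat_lit 792074), [(nat_lit 1100000000), (nat_lit 1732192000), (nat_lit 2089472000)], [], [(nat_lit 8339120856), (nat_lit 8292096780), (nat_lit 8581941456), (nat_lit 8522767352), (nat_lit 6889391916), (nat_lit 6841158918), (nat_lit 7100458112), (nat_lit 7041272810)], (nat_lit 1271251), (nat_lit 1271251), (nat_lit 1271251), (nat_lit 1271251), (nat_lit 0), (nat_lit 780000), [(nat_lit 1412501), (nat_lit 1271251), (nat_lit 1271251)], [(nat_lit 23), (nat_lit 62), (nat_lit 317), (nat_lit 100), (nat_lit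 8)]⟩⟩) (.trZ (nat_lit 0) (nat_lit 1) (nat_lit 3) (nat_lit 100) (nat_lit 66) (nat_lit 75) (nat_lit 60) (.trX (nat_lit 4) (nat_lit 0) (nat_lit 2) (nat_lit 66) (nat_lit 68) (nat_lit 100) (nat_lit 350) (.leaf ⟨(nat_lit 887), (nat_lit 0), (nat_lit 0), (nat_lit 113), (nat_lit 0), (nat_lit 2895), (nat_lit 1927), (nat_lit 1282), (nat_lit 0), (nat_lit 2489315), (nat_lit 525400), [((nat_lit 360), [((nat_lit 21), (nat_lit 1), (nat_lit 34)), ((nat_lit 39), (nat_lit 2), (nat_lit 853))])], ⟨(nat_lit 5), false, false, false, (nat_lit 141), (nat_lit 3162), (nat_lit 3536), [(nat_lit 1280298), (nat_lit 1286626), (nat_lit 1324187), (nat_lit 1330920), (nat_lit 1374456), (nat_lit 1378072), (nat_lit 1418344), (nat_lit 1422365)]⟩, ⟨(nat_lit 8), false, true, true, (nat_lit 288), (nat_lit 3162), (nat_lit 3536), [(nat_lit 1688283), (nat_lit 1682859), (nat_lit 1710235), (nat_lit 1705013), (nat_lit 1735354), (nat_lit 1728574), (nat_lit 1757306), (nat_lit 1750729)]⟩, (nat_lit 4859709),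 (nat_lit 39156976), (nat_lit 6739452), (nat_lit 21103572), (nat_lit 0), (nat_lit 0), [⟨(nat_lit 0), (nat_lit 100), (nat_lit 64), (nat_lit 84), (nat_lit 189404465)⟩], [⟨(nat_lit 1), (nat_lit 74), (nat_lit 63), (nat_lit 100), (nat_lit 243985925)⟩], [⟨(nat_lit 0), (nat_lit 100), (nat_lit 100), (nat_lit 15), (nat_lit 22823464)⟩], [⟨(nat_lit 0), (nat_lit 88), (nat_lit 100), (nat_lit 19), (nat_lit 70969626)⟩],
 ⟨⟨[(nat_lit 40), (nat_lit 60), (nat_lit 80)], [(nat_lit 0), (nat_lit 600), (nat_lit 1195)], [((nat_lit 0), (nat_lit 0), (nat_lit 0)), ((nat_lit 1000), (nat_lit 725), (nat_lit 454)), ((nat_lit 1000), (nat_lit 720), (nat_lit 465))], ((nat_lit 69), (nat_lit 100), (nat_lit 56))⟩, (nat_lit 505810), (nat_lit 151), (nat_lit 151), (nat_lit 0), (nat_lit 162400), [(nat_lit 1374471246), (nat_lit 1449432717), (nat_lit 1304908800)], [(nat_lit 0), (nat_lit 0), (nat_lit 0)], [(nat_lit 25024251225), (nat_lit 25544151928), (nat_lit 25126580885), (nat_lit 25632656743),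 (nat_lit 26509599266), (nat_lit 27031889087), (nat_lit 26545887298), (nat_lit 27018989436)], (nat_lit 1271251), (nat_lit 1271251), (nat_lit 356250), (nat_lit 780000), (nat_lit 1271251), (nat_lit 1271251), [(nat_lit 490000), (nat_lit 780000), (nat_lit 1100000)], [(nat_lit 2), (nat_lit 44), (nat_lit 238), (nat_lit 30), (nat_lit 9)]⟩,
 ⟨⟨[(nat_lit 100), (nat_lit 140), (nat_lit 160)], [(nat_lit 0), (nat_lit 0), (nat_lit 1280)], [((nat_lit 0), (nat_lit 0), (nat_lit 0)), ((nat_lit 0), (nat_lit 0), (nat_lit 0)), ((nat_lit 800), (nat_lit 1000), (nat_lit 600))], ((nat_lit 100), (nat_lit 84), (nat_lit 54))⟩, (nat_lit 630648), (nat_lit 496), (nat_lit 496), (nat_lit 0), (nat_lit 306859), [(nat_lit 706250000), (nat_lit 1112146000), (nat_lit 1341536000)], [], [(nat_lit 3646946157), (nat_lit 3794165597), (nat_lit 4050974801), (nat_lit 3250701064), (nat_lit 4136916173), (nat_lit 2311046646), (nat_lit 4825138314), (nat_lit 2995913330)], (nat_lit 1271251), (nat_lit 1271251),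 (nat_lit 356250), (nat_lit 780000), (nat_lit 0), (nat_lit 780000), [(nat_lit 1412501), (nat_lit 1271251), (nat_lit 1271251)], [(nat_lit 23), (nat_lit 62), (nat_lit 345), (nat_lit 125), (nat_lit 9)]⟩,
 ⟨⟨[(nat_lit 100), (nat_lit 140), (nat_lit 160)], [(nat_lit 0), (nat_lit 0), (nat_lit 1280)], [((nat_lit 0), (nat_lit 0), (nat_lit 0)), ((nat_lit 0), (nat_lit 0), (nat_lit 0)), ((nat_lit 800), (nat_lit 1000), (nat_lit 600))], ((nat_lit 100), (nat_lit 84), (nat_lit 54))⟩, (nat_lit 55088), (nat_lit 300), (nat_lit 707), (nat_lit 7943900), (nat_lit 976774), [(nat_lit 706250000), (nat_lit 1112146000), (nat_lit 1341536000)], [], [(nat_lit 5351853346), (nat_lit 5303474445), (nat_lit 5451560071), (nat_lit 5414878825), (nat_lit 4465021817), (nat_lit 4416261351), (nat_lit 4508808551), (nat_lit 4459145820)], (nat_lit 1271251), (nat_lit 1271251), (nat_lit 1271251), (nat_lit 1271251), (nat_lit 0), (nat_lit 780000), [(nat_lit 1412501), (nat_lit 1271251), (nat_lit 1271251)],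 [(nat_lit 23), (nat_lit 62), (nat_lit 317), (nat_lit 100), (nat_lit 8)]⟩⟩)))) (.leaf ⟨(nat_lit 864), (nat_lit 0), (nat_lit 0), (nat_lit 136), (nat_lit 0), (nat_lit 3261), (nat_lit 1972), (nat_lit 1505), (nat_lit 0), (nat_lit 36077), (nat_lit 507900), [((nat_lit 360), [((nat_lit 21), (nat_lit 0), (nat_lit 30)), ((nat_lit 39), (nat_lit 2), (nat_lit 834))])], ⟨(nat_lit 5), false, false, false, (nat_lit 137), (nat_lit 3162), (nat_lit 3873), [(nat_lit 1257923), (nat_lit 1271304), (nat_lit 1301452), (nat_lit 1315556), (nat_lit 1370892), (nat_lit 1378028), (nat_lit 1414421), (nat_lit 1422280)]⟩, ⟨(nat_lit 8), false, true, true, (nat_lit 292), (nat_lit 3162), (nat_lit 3873), [(nat_lit 1693563), (nat_lit 1682859), (nat_lit 1715356), (nat_lit 1705013), (nat_lit 1758085), (nat_lit 1743812), (nat_lit 1779878), (nat_lit 1765967)]⟩, (nat_lit 4831597), (nat_lit 39002832), (nat_lit 6417101), (nat_lit 21580067), (nat_lit 0), (nat_lit 0), [⟨(nat_lit 0), (nat_lit 100),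 (nat_lit 66), (nat_lit 82), (nat_lit 453609481)⟩], [⟨(nat_lit 1), (nat_lit 72), (nat_lit 66), (nat_lit 100), (nat_lit 316913202)⟩], [], [],
 ⟨⟨[(nat_lit 40), (nat_lit 60), (nat_lit 80)], [(nat_lit 0), (nat_lit 398), (nat_lit 992)], [((nat_lit 0), (nat_lit 0), (nat_lit 0)), ((nat_lit 1000), (nat_lit 814), (nat_lit 310)), ((nat_lit 1000), (nat_lit 752), (nat_lit 464))], ((nat_lit 73), (nat_lit 100), (nat_lit 55))⟩, (nat_lit 500313), (nat_lit 166), (nat_lit 166), (nat_lit 0), (nat_lit 163654), [(nat_lit 1389107201), (nat_lit 1448316007), (nat_lit 1445943193)], [(nat_lit 0), (nat_lit 0), (nat_lit 0)], [(nat_lit 24899249211), (nat_lit 26226274424), (nat_lit 24631845685), (nat_lit 25592291022), (nat_lit 27416446292), (nat_lit 28606618161), (nat_lit 26605871679), (nat_lit 27728424596)], (nat_lit 1271251), (nat_lit 1271251), (nat_lit 292188), (nat_lit 780000), (nat_lit 1271251), (nat_lit 1271251), [(nat_lit 490000), (nat_lit 780000), (nat_lit 1100000)], [(nat_lit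 2), (nat_lit 44), (nat_lit 238), (nat_lit 30), (nat_lit 9)]⟩,
 ⟨⟨[(nat_lit 100), (nat_lit 140), (nat_lit 160)], [(nat_lit 0), (nat_lit 0), (nat_lit 1280)], [((nat_lit 0), (nat_lit 0), (nat_lit 0)), ((nat_lit 0), (nat_lit 0), (nat_lit 0)), ((nat_lit 800), (nat_lit 1000), (nat_lit 600))], ((nat_lit 100), (nat_lit 84), (nat_lit 54))⟩, (nat_lit 602477), (nat_lit 366), (nat_lit 366), (nat_lit 0), (nat_lit 307261), [(nat_lit 850000000), (nat_lit 1338512000), (nat_lit 1614592000)], [], [(nat_lit 4869242816), (nat_lit 3455126816), (nat_lit 2792863904), (nat_lit 2777564548), (nat_lit 5683970553), (nat_lit 3985525694), (nat_lit 6458824722), (nat_lit 4574081778)], (nat_lit 1271251), (nat_lit 1271251), (nat_lit 292188), (nat_lit 780000), (nat_lit 780000), (nat_lit 2253751), [(nat_lit 1412501), (nat_lit 1271251), (nat_lit 1271251)], [(nat_lit 23), (nat_lit 62), (nat_lit 401), (nat_lit 175), (nat_lit 10)]⟩,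
 ⟨⟨[(nat_lit 100), (nat_lit 140), (nat_lit 160)], [(nat_lit 0), (nat_lit 0), (nat_lit 1280)], [((nat_lit 0), (nat_lit 0), (nat_lit 0)), ((nat_lit 0), (nat_lit 0), (nat_lit 0)), ((nat_lit 800), (nat_lit 1000), (nat_lit 600))], ((nat_lit 100), (nat_lit 84), (nat_lit 54))⟩, (nat_lit 66300), (nat_lit 300), (nat_lit 819), (nat_lit 9560800), (nat_lit 1410261), [(nat_lit 850000000), (nat_lit 1338512000), (nat_lit 1614592000)], [], [(nat_lit 5528629544), (nat_lit 5472032318), (nat_lit 5599170542), (nat_lit 5537442969), (nat_lit 5029354622), (nat_lit 4975736794), (nat_lit 5124191384), (nat_lit 5071945346)], (nat_lit 1271251), (nat_lit 1271251), (nat_lit 1271251), (nat_lit 1271251), (nat_lit 780000), (nat_lit 2253751), [(nat_lit 1412501), (nat_lit 1271251), (nat_lit 1271251)], [(nat_lit 23), (nat_lit 62), (nat_lit 373), (nat_lit 150), (nat_lit 9)]⟩⟩))))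
noncomputable def c7_16 : Tr Lf :=
 (.ord (.trZ (nat_lit 0) (nat_lit 1) (nat_lit 3) (nat_lit 100) (nat_lit 72) (nat_lit 77) (nat_lit 70) (.spl (nat_lit 4) (nat_lit 320) (.leaf ⟨(nat_lit 903), (nat_lit 0), (nat_lit 0), (nat_lit 97), (nat_lit 0), (nat_lit 3401), (nat_lit 1415), (nat_lit 1015), (nat_lit 0), (nat_lit 2945465590587), (nat_lit 541800), [((nat_lit 360), [((nat_lit 39), (nat_lit 2), (nat_lit 903))])], ⟨(nat_lit 5), false, false, false, (nat_lit 147), (nat_lit 3162), (nat_lit 3873), [(nat_lit 1311964), (nat_lit 1323922), (nat_lit 1333729), (nat_lit 1346049), (nat_lit 1392656), (nat_lit 1400154), (nat_lit 1414421), (nat_lit 1422280)]⟩, ⟨(nat_lit 6), false, true, true, (nat_lit 263), (nat_lit 3162), (nat_lit 3873), [(nat_lit 1586313), (nat_lit 1583107), (nat_lit 1608082), (nat_lit 1605237), (nat_lit 1715356), (nat_lit 1705013), (nat_lit 1737150), (nat_lit 1727168)]⟩, (nat_lit 4832172), (nat_lit 40849395), (nat_lit 7427211), (nat_lit 18723394),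 (nat_lit 0), (nat_lit 0), [⟨(nat_lit 0), (nat_lit 100), (nat_lit 67), (nat_lit 85), (nat_lit 285015232)⟩], [], [⟨(nat_lit 0), (nat_lit 100), (nat_lit 100), (nat_lit 20), (nat_lit 15796849)⟩], [],
 ⟨⟨[(nat_lit 40), (nat_lit 60), (nat_lit 80)], [(nat_lit 0), (nat_lit 398), (nat_lit 992)], [((nat_lit 0), (nat_lit 0), (nat_lit 0)), ((nat_lit 1000), (nat_lit 814), (nat_lit 310)), ((nat_lit 1000), (nat_lit 752), (nat_lit 464))], ((nat_lit 73), (nat_lit 100), (nat_lit 55))⟩, (nat_lit 111958), (nat_lit 180), (nat_lit 180), (nat_lit 0), (nat_lit 315944), [(nat_lit 1364160427), (nat_lit 1377644203), (nat_lit 1241729197)], [(nat_lit 0), (nat_lit 0), (nat_lit 0)], [(nat_lit 21482438631), (nat_lit 22581374435), (nat_lit 21783063873), (nat_lit 22823028491), (nat_lit 24520292713), (nat_lit 25858560169), (nat_lit 24660307450), (nat_lit 25645088901)], (nat_lit 1271251), (nat_lit 1271251), (nat_lit 422188), (nat_lit 780000), (nat_lit 1271251), (nat_lit 1271251), [(nat_lit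 490000), (nat_lit 780000), (nat_lit 1100000)], [(nat_lit 2), (nat_lit 44), (nat_lit 238), (nat_lit 30), (nat_lit 9)]⟩,
 ⟨⟨[(nat_lit 100), (nat_lit 140), (nat_lit 160)], [(nat_lit 0), (nat_lit 508), (nat_lit 1689)], [((nat_lit 0), (nat_lit 0), (nat_lit 0)), ((nat_lit 1000), (nat_lit 1000), (nat_lit 198)), ((nat_lit 811), (nat_lit 1000), (nat_lit 671))], ((nat_lit 100), (nat_lit 89), (nat_lit 55))⟩, (nat_lit 513946), (nat_lit 658), (nat_lit 658), (nat_lit 0), (nat_lit 664104), [(nat_lit 606250000), (nat_lit 954674000), (nat_lit 1151584000)], [], [(nat_lit 3542726716), (nat_lit 2797292157), (nat_lit 2863208655), (nat_lit 2460585240), (nat_lit 5967281858), (nat_lit 5338628201), (nat_lit 6585996081), (nat_lit 5967130442)], (nat_lit 1271251), (nat_lit 1271251), (nat_lit 422188), (nat_lit 780000), (nat_lit 0), (nat_lit 2613125), [(nat_lit 1412501), (nat_lit 1271251), (nat_lit 1271251)], [(nat_lit 23), (nat_lit 62), (nat_lit 428), (nat_lit 200), (nat_lit 11)]⟩,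
 ⟨⟨[(nat_lit 100), (nat_lit 140), (nat_lit 160)], [(nat_lit 0), (nat_lit 508), (nat_lit 1689)], [((nat_lit 0), (nat_lit 0), (nat_lit 0)), ((nat_lit 1000), (nat_lit 1000), (nat_lit 198)), ((nat_lit 811), (nat_lit 1000), (nat_lit 671))], ((nat_lit 100), (nat_lit 89), (nat_lit 55))⟩, (nat_lit 208512), (nat_lit 300), (nat_lit 827), (nat_lit 6062500), (nat_lit 1212394), [(nat_lit 606250000), (nat_lit 954674000), (nat_lit 1151584000)], [], [(nat_lit 4336361722), (nat_lit 4307142068), (nat_lit 4351808610), (nat_lit 4330124188), (nat_lit 3466909737), (nat_lit 3434590457), (nat_lit 3536837253), (nat_lit 3507282723)], (nat_lit 1271251), (nat_lit 1271251), (nat_lit 1271251), (nat_lit 1271251), (nat_lit 0), (nat_lit 2613125), [(nat_lit 1412501), (nat_lit 1271251), (nat_lit 1271251)], [(nat_lit 23), (nat_lit 62), (nat_lit 483), (nat_lit 250), (nat_lit 12)]⟩⟩) (.trX (nat_lit 5) (nat_lit 4) (nat_lit 3) (nat_lit 87) (nat_lit 95) (nat_lit 100) (nat_lit 300) (.leaf ⟨(nat_lit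 800), (nat_lit 0), (nat_lit 0), (nat_lit 200), (nat_lit 0), (nat_lit 3349), (nat_lit 3216), (nat_lit 1973), (nat_lit 0), (nat_lit 2304333650766), (nat_lit 453750), [((nat_lit 360), [((nat_lit 21), (nat_lit 0), (nat_lit 75)), ((nat_lit 39), (nat_lit 2), (nat_lit 725))])], ⟨(nat_lit 5), false, false, false, (nat_lit 147), (nat_lit 3162), (nat_lit 3873), [(nat_lit 1311964), (nat_lit 1323922), (nat_lit 1333729), (nat_lit 1346049), (nat_lit 1392656), (nat_lit 1400154), (nat_lit 1414421), (nat_lit 1422280)]⟩, ⟨(nat_lit 8), false, true, true, (nat_lit 304), (nat_lit 3162), (nat_lit 3873), [(nat_lit 1715356), (nat_lit 1705013), (nat_lit 1737150), (nat_lit 1727168), (nat_lit 1796008), (nat_lit 1781205), (nat_lit 1817802), (nat_lit 1803360)]⟩, (nat_lit 4962689), (nat_lit 37536655), (nat_lit 7019484), (nat_lit 22443861), (nat_lit 0), (nat_lit 0), [⟨(nat_lit 0), (nat_lit 100), (nat_lit 67), (nat_lit 85), (nat_lit 185917518)⟩], [⟨(nat_lit 1), (nat_lit 65), (nat_lit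 67), (nat_lit 100), (nat_lit 220993856)⟩], [], [⟨(nat_lit 0), (nat_lit 81), (nat_lit 100), (nat_lit 30), (nat_lit 45296438)⟩],
 ⟨⟨[(nat_lit 40), (nat_lit 60), (nat_lit 80)], [(nat_lit 0), (nat_lit 398), (nat_lit 992)], [((nat_lit 0), (nat_lit 0), (nat_lit 0)), ((nat_lit 1000), (nat_lit 814), (nat_lit 310)), ((nat_lit 1000), (nat_lit 752), (nat_lit 464))], ((nat_lit 73), (nat_lit 100), (nat_lit 55))⟩, (nat_lit 874394), (nat_lit 196), (nat_lit 196), (nat_lit 0), (nat_lit 315944), [(nat_lit 1430120007), (nat_lit 1627342579), (nat_lit 1711597421)], [(nat_lit 0), (nat_lit 0), (nat_lit 0)], [(nat_lit 24451905537), (nat_lit 25780585207), (nat_lit 24594562820), (nat_lit 25585002849), (nat_lit 27602756099), (nat_lit 28760587155), (nat_lit 27319529951), (nat_lit 28423035993)], (nat_lit 1271251), (nat_lit 1271251), (nat_lit 422188), (nat_lit 780000), (nat_lit 1271251), (nat_lit 1271251), [(nat_lit 490000), (nat_lit 780000), (nat_lit 1100000)], [(nat_lit 2), (nat_lit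 44), (nat_lit 238), (nat_lit 30), (nat_lit 9)]⟩,
 ⟨⟨[(nat_lit 100), (nat_lit 140), (nat_lit 160)], [(nat_lit 0), (nat_lit 508), (nat_lit 1689)], [((nat_lit 0), (nat_lit 0), (nat_lit 0)), ((nat_lit 1000), (nat_lit 1000), (nat_lit 198)), ((nat_lit 811), (nat_lit 1000), (nat_lit 671))], ((nat_lit 100), (nat_lit 89), (nat_lit 55))⟩, (nat_lit 3115568), (nat_lit 658), (nat_lit 658), (nat_lit 0), (nat_lit 664104), [(nat_lit 1250000000), (nat_lit 1968400000), (nat_lit 2374400000)], [], [(nat_lit 4732603242), (nat_lit 3993858696), (nat_lit 5648429464), (nat_lit 4056967744), (nat_lit 10785521327), (nat_lit 9324170826), (nat_lit 12083896678), (nat_lit 10645848208)], (nat_lit 1271251), (nat_lit 1271251), (nat_lit 422188), (nat_lit 780000), (nat_lit 0), (nat_lit 2118750), [(nat_lit 1412501), (nat_lit 1271251), (nat_lit 1271251)], [(nat_lit 23), (nat_lit 62), (nat_lit 401), (nat_lit 175), (nat_lit 11)]⟩,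
 ⟨⟨[(nat_lit 100), (nat_lit 140), (nat_lit 160)], [(nat_lit 0), (nat_lit 508), (nat_lit 1689)], [((nat_lit 0), (nat_lit 0), (nat_lit 0)), ((nat_lit 1000), (nat_lit 1000), (nat_lit 198)), ((nat_lit 811), (nat_lit 1000), (nat_lit 671))], ((nat_lit 100), (nat_lit 89), (nat_lit 55))⟩, (nat_lit 429921), (nat_lit 300), (nat_lit 809), (nat_lit 12500001), (nat_lit 1212394), [(nat_lit 1250000000), (nat_lit 1968400000), (nat_lit 2374400000)], [], [(nat_lit 9370668013), (nat_lit 9303588916), (nat_lit 9521901276), (nat_lit 9460471430), (nat_lit 7394155311), (nat_lit 7311429700), (nat_lit 7524142038), (nat_lit 7450185053)], (nat_lit 1271251), (nat_lit 1271251), (nat_lit 1271251), (nat_lit 1271251), (nat_lit 0), (nat_lit 2118750), [(nat_lit 1412501), (nat_lit 1271251), (nat_lit 1271251)], [(nat_lit 23), (nat_lit 62), (nat_lit 373), (nat_lit 150), (nat_lit 9)]⟩⟩)))))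
noncomputable def c7_17 : Tr Lf :=
 (.stt (nat_lit 3) (.leaf ⟨(nat_lit 220), (nat_lit 0), (nat_lit 610), (nat_lit 170), (nat_lit 0), (nat_lit 4373), (nat_lit 1528), (nat_lit 9660), (nat_lit 0), (nat_lit 1712), (nat_lit 241000), [((nat_lit 360), [((nat_lit 21), (nat_lit 2), (nat_lit 213)), ((nat_lit 39), (nat_lit 5), (nat_lit 7))])], ⟨(nat_lit 4), false, false, false, (nat_lit 179), (nat_lit 3162), (nat_lit 3873), [(nat_lit 1349127), (nat_lit 1355902), (nat_lit 1414421), (nat_lit 1422280), (nat_lit 1478205), (nat_lit 1477844), (nat_lit 1543529), (nat_lit 1544252)]⟩, ⟨(nat_lit 6), true, false, true, (nat_lit 270), (nat_lit 3162), (nat_lit 3873), [(nat_lit 1542727), (nat_lit 1538797), (nat_lit 1608082), (nat_lit 1605237), (nat_lit 1752422), (nat_lit 1736895), (nat_lit 1817802), (nat_lit 1803360)]⟩, (nat_lit 5139588), (nat_lit 38535031), (nat_lit 9707548), (nat_lit 18757421), (nat_lit 0), (nat_lit 4), [], [⟨(nat_lit 1), (nat_lit 72), (nat_lit 66), (nat_lit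 100), (nat_lit 90529611)⟩], [], [],
 ⟨⟨[(nat_lit 40), (nat_lit 60), (nat_lit 80)], [(nat_lit 0), (nat_lit 398), (nat_lit 992)], [((nat_lit 0), (nat_lit 0), (nat_lit 0)), ((nat_lit 1000), (nat_lit 814), (nat_lit 310)), ((nat_lit 1000), (nat_lit 752), (nat_lit 464))], ((nat_lit 73), (nat_lit 100), (nat_lit 55))⟩, (nat_lit 1667138), (nat_lit 216), (nat_lit 216), (nat_lit 0), (nat_lit 461304), [(nat_lit 1833246562), (nat_lit 2671701440), (nat_lit 3496616160)], [(nat_lit 0), (nat_lit 0), (nat_lit 0)], [(nat_lit 21677147557), (nat_lit 22792161386), (nat_lit 22763326962), (nat_lit 23757663378), (nat_lit 28730767583), (nat_lit 29974569817), (nat_lit 29168514668), (nat_lit 30279473887)], (nat_lit 1271251), (nat_lit 1271251), (nat_lit 780000), (nat_lit 1435001), (nat_lit 1271251), (nat_lit 1271251), [(nat_lit 490000), (nat_lit 780000), (nat_lit 1100000)], [(nat_lit 2), (nat_lit 44), (nat_lit 260), (nat_lit 50), (nat_lit 10)]⟩,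
 ⟨⟨[(nat_lit 120), (nat_lit 160), (nat_lit 180)], [(nat_lit 0), (nat_lit 533), (nat_lit 2066)], [((nat_lit 0), (nat_lit 0), (nat_lit 0)), ((nat_lit 960), (nat_lit 1000), (nat_lit 200)), ((nat_lit 615), (nat_lit 1000), (nat_lit 729))], ((nat_lit 100), (nat_lit 79), (nat_lit 55))⟩, (nat_lit 1057775), (nat_lit 1212), (nat_lit 1212), (nat_lit 0), (nat_lit 1763022), [(nat_lit 1354560000), (nat_lit 2018240000), (nat_lit 2389860000)], [], [(nat_lit 8239891975), (nat_lit 8075164966), (nat_lit 7944833923), (nat_lit 7771967313), (nat_lit 10136486284), (nat_lit 8073771088), (nat_lit 11852256232), (nat_lit 9841411288)], (nat_lit 1271251), (nat_lit 1271251), (nat_lit 780000), (nat_lit 1435001), (nat_lit 0), (nat_lit 2825001), [(nat_lit 1695001), (nat_lit 1271251), (nat_lit 1271251)], [(nat_lit 28), (nat_lit 65), (nat_lit 456), (nat_lit 225), (nat_lit 11)]⟩,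
 ⟨⟨[(nat_lit 120), (nat_lit 160), (nat_lit 180)], [(nat_lit 0), (nat_lit 533), (nat_lit 2066)], [((nat_lit 0), (nat_lit 0), (nat_lit 0)), ((nat_lit 960), (nat_lit 1000), (nat_lit 200)), ((nat_lit 615), (nat_lit 1000), (nat_lit 729))], ((nat_lit 100), (nat_lit 79), (nat_lit 55))⟩, (nat_lit 1826341), (nat_lit 300), (nat_lit 317), (nat_lit 51792002), (nat_lit 0), [(nat_lit 6215040000), (nat_lit 9260160000), (nat_lit 10965240000)], [], [(nat_lit 34171077933), (nat_lit 34382141220), (nat_lit 39672959372), (nat_lit 39123864225), (nat_lit 30098452710), (nat_lit 29169981300), (nat_lit 34437780263), (nat_lit 33973440270)], (nat_lit 0), (nat_lit 0), (nat_lit 0), (nat_lit 0), (nat_lit 0), (nat_lit 0), [], [(nat_lit 28), (nat_lit 65), (nat_lit 538), (nat_lit 300), (nat_lit 12)]⟩⟩) (.spl (nat_lit 4) (nat_lit 320) (.spl (nat_lit 5) (nat_lit 120) (.spl (nat_lit 2) (nat_lit 220) (.leaf ⟨(nat_lit 915), (nat_lit 0), (nat_lit 0), (nat_lit 85), (nat_lit 0), (nat_lit 3479),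 (nat_lit 1095), (nat_lit 1019), (nat_lit 0), (nat_lit 57517), (nat_lit 423800), [((nat_lit 360), [((nat_lit 21), (nat_lit 1), (nat_lit 626)), ((nat_lit 39), (nat_lit 2), (nat_lit 289))])], ⟨(nat_lit 4), false, false, false, (nat_lit 179), (nat_lit 3162), (nat_lit 3873), [(nat_lit 1349127), (nat_lit 1355902), (nat_lit 1414421), (nat_lit 1422280), (nat_lit 1478205), (nat_lit 1477844), (nat_lit 1543529), (nat_lit 1544252)]⟩, ⟨(nat_lit 6), false, true, true, (nat_lit 250), (nat_lit 3162), (nat_lit 3873), [(nat_lit 1542727), (nat_lit 1538797), (nat_lit 1586313), (nat_lit 1583107), (nat_lit 1671770), (nat_lit 1660704), (nat_lit 1715356), (nat_lit 1705013)]⟩, (nat_lit 5056004), (nat_lit 40059530), (nat_lit 9964880), (nat_lit 16975590), (nat_lit 0), (nat_lit 0), [], [], [], [⟨(nat_lit 0), (nat_lit 94), (nat_lit 100), (nat_lit 21), (nat_lit 79565752)⟩],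
 ⟨⟨[(nat_lit 40), (nat_lit 60), (nat_lit 80)], [(nat_lit 0), (nat_lit 398), (nat_lit 992)], [((nat_lit 0), (nat_lit 0), (nat_lit 0)), ((nat_lit 1000), (nat_lit 814), (nat_lit 310)), ((nat_lit 1000), (nat_lit 752), (nat_lit 464))], ((nat_lit 73), (nat_lit 100), (nat_lit 55))⟩, (nat_lit 0), (nat_lit 156), (nat_lit 156), (nat_lit 0), (nat_lit 301626), [(nat_lit 1386058434), (nat_lit 1506786293), (nat_lit 1585368707)], [(nat_lit 0), (nat_lit 0), (nat_lit 0)], [(nat_lit 21720545758), (nat_lit 22839074390), (nat_lit 23019988597), (nat_lit 24021157191), (nat_lit 24782549000), (nat_lit 25735266012), (nat_lit 25753042787), (nat_lit 26616641271)], (nat_lit 1271251), (nat_lit 1271251), (nat_lit 780000), (nat_lit 1435001), (nat_lit 1271251), (nat_lit 1271251), [(nat_lit 490000), (nat_lit 780000), (nat_lit 1100000)], [(nat_lit 2), (nat_lit 44), (nat_lit 260), (nat_lit 50), (nat_lit 10)]⟩,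
 ⟨⟨[(nat_lit 120), (nat_lit 160), (nat_lit 180)], [(nat_lit 0), (nat_lit 533), (nat_lit 2066)], [((nat_lit 0), (nat_lit 0), (nat_lit 0)), ((nat_lit 960), (nat_lit 1000), (nat_lit 200)), ((nat_lit 615), (nat_lit 1000), (nat_lit 729))], ((nat_lit 100), (nat_lit 79), (nat_lit 55))⟩, (nat_lit 1528712), (nat_lit 927), (nat_lit 927), (nat_lit 0), (nat_lit 1117203), [(nat_lit 677280000), (nat_lit 1009120000), (nat_lit 1194930000)], [], [(nat_lit 3007856723), (nat_lit 2054681174), (nat_lit 3668391683), (nat_lit 2105443804), (nat_lit 3166679628), (nat_lit 1540734385), (nat_lit 4105410323), (nat_lit 2524623975)], (nat_lit 1271251), (nat_lit 1271251), (nat_lit 780000), (nat_lit 1435001), (nat_lit 0), (nat_lit 780000), [(nat_lit 1695001), (nat_lit 1271251), (nat_lit 1271251)], [(nat_lit 28), (nat_lit 65), (nat_lit 373), (nat_lit 150), (nat_lit 9)]⟩,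
 ⟨⟨[(nat_lit 120), (nat_lit 160), (nat_lit 180)], [(nat_lit 0), (nat_lit 533), (nat_lit 2066)], [((nat_lit 0), (nat_lit 0), (nat_lit 0)), ((nat_lit 960), (nat_lit 1000), (nat_lit 200)), ((nat_lit 615), (nat_lit 1000), (nat_lit 729))], ((nat_lit 100), (nat_lit 79), (nat_lit 55))⟩, (nat_lit 199024), (nat_lit 300), (nat_lit 906), (nat_lit 5644002), (nat_lit 1195131), [(nat_lit 677280000), (nat_lit 1009120000), (nat_lit 1194930000)], [], [(nat_lit 4371160518), (nat_lit 4301323946), (nat_lit 4400307201), (nat_lit 4315068747), (nat_lit 3588663966), (nat_lit 3519620429), (nat_lit 3604893646), (nat_lit 3521660770)], (nat_lit 1271251), (nat_lit 1271251), (nat_lit 1271251), (nat_lit 1271251), (nat_lit 0), (nat_lit 780000), [(nat_lit 1695001), (nat_lit 1271251), (nat_lit 1271251)], [(nat_lit 28), (nat_lit 65), (nat_lit 401), (nat_lit 175), (nat_lit 9)]⟩⟩) (.ord (.leaf ⟨(nat_lit 811), (nat_lit 0), (nat_lit 0), (nat_lit 189), (nat_lit 0), (nat_lit 3190), (nat_lit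 1239), (nat_lit 1978), (nat_lit 0), (nat_lit 2968985), (nat_lit 462800), [((nat_lit 360), [((nat_lit 21), (nat_lit 0), (nat_lit 68)), ((nat_lit 39), (nat_lit 2), (nat_lit 743))])], ⟨(nat_lit 5), false, false, false, (nat_lit 188), (nat_lit 3162), (nat_lit 3873), [(nat_lit 1392656), (nat_lit 1400154), (nat_lit 1414421), (nat_lit 1422280), (nat_lit 1521764), (nat_lit 1522126), (nat_lit 1543529), (nat_lit 1544252)]⟩, ⟨(nat_lit 6), false, true, true, (nat_lit 263), (nat_lit 3162), (nat_lit 3873), [(nat_lit 1586313), (nat_lit 1583107), (nat_lit 1608082), (nat_lit 1605237), (nat_lit 1715356), (nat_lit 1705013), (nat_lit 1737150), (nat_lit 1727168)]⟩, (nat_lit 5180799), (nat_lit 38554234), (nat_lit 10467765), (nat_lit 17978001), (nat_lit 0), (nat_lit 0), [], [], [⟨(nat_lit 0), (nat_lit 100), (nat_lit 100), (nat_lit 20), (nat_lit 204337026)⟩], [],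
 ⟨⟨[(nat_lit 40), (nat_lit 60), (nat_lit 80)], [(nat_lit 0), (nat_lit 398), (nat_lit 992)], [((nat_lit 0), (nat_lit 0), (nat_lit 0)), ((nat_lit 1000), (nat_lit 814), (nat_lit 310)), ((nat_lit 1000), (nat_lit 752), (nat_lit 464))], ((nat_lit 73), (nat_lit 100), (nat_lit 55))⟩, (nat_lit 775835), (nat_lit 163), (nat_lit 163), (nat_lit 0), (nat_lit 315944), [(nat_lit 1423072823), (nat_lit 1607341049), (nat_lit 1656282751)], [(nat_lit 0), (nat_lit 0), (nat_lit 0)], [(nat_lit 21478743613), (nat_lit 22555307133), (nat_lit 22814374598), (nat_lit 23780358743), (nat_lit 24463208733), (nat_lit 25401278190), (nat_lit 25520829605), (nat_lit 26465680329)], (nat_lit 1271251), (nat_lit 1271251), (nat_lit 780000), (nat_lit 1435001), (nat_lit 1271251), (nat_lit 1271251), [(nat_lit 490000), (nat_lit 780000), (nat_lit 1100000)], [(nat_lit 2), (nat_lit 44), (nat_lit 260), (nat_lit 50), (nat_lit 10)]⟩,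
 ⟨⟨[(nat_lit 100), (nat_lit 140), (nat_lit 160)], [(nat_lit 0), (nat_lit 508), (nat_lit 1689)], [((nat_lit 0), (nat_lit 0), (nat_lit 0)), ((nat_lit 1000), (nat_lit 1000), (nat_lit 198)), ((nat_lit 811), (nat_lit 1000), (nat_lit 671))], ((nat_lit 100), (nat_lit 89), (nat_lit 55))⟩, (nat_lit 1863051), (nat_lit 706), (nat_lit 706), (nat_lit 0), (nat_lit 846868), [(nat_lit 1181250000), (nat_lit 1860138000), (nat_lit 2243808000)], [], [(nat_lit 7390603679), (nat_lit 6994368408), (nat_lit 6956598953), (nat_lit 6998609964), (nat_lit 6414791183), (nat_lit 6450970347), (nat_lit 6439068293), (nat_lit 6479473185)], (nat_lit 1271251), (nat_lit 1271251), (nat_lit 780000), (nat_lit 1435001), (nat_lit 0), (nat_lit 780000), [(nat_lit 1412501), (nat_lit 1271251), (nat_lit 1271251)], [(nat_lit 23), (nat_lit 62), (nat_lit 373), (nat_lit 150), (nat_lit 10)]⟩,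
 ⟨⟨[(nat_lit 100), (nat_lit 140), (nat_lit 160)], [(nat_lit 0), (nat_lit 508), (nat_lit 1689)], [((nat_lit 0), (nat_lit 0), (nat_lit 0)), ((nat_lit 1000), (nat_lit 1000), (nat_lit 198)), ((nat_lit 811), (nat_lit 1000), (nat_lit 671))], ((nat_lit 100), (nat_lit 89), (nat_lit 55))⟩, (nat_lit 406276), (nat_lit 300), (nat_lit 660), (nat_lit 11812500), (nat_lit 846868), [(nat_lit 1181250000), (nat_lit 1860138000), (nat_lit 2243808000)], [], [(nat_lit 8448176409), (nat_lit 8391224120), (nat_lit 8478689865), (nat_lit 8436421036), (nat_lit 7126342890), (nat_lit 7068038162), (nat_lit 7130416501), (nat_lit 7059597188)], (nat_lit 1271251), (nat_lit 1271251), (nat_lit 1271251), (nat_lit 1271251), (nat_lit 0), (nat_lit 780000), [(nat_lit 1412501), (nat_lit 1271251), (nat_lit 1271251)], [(nat_lit 23), (nat_lit 62), (nat_lit 401), (nat_lit 175), (nat_lit 10)]⟩⟩))) (.leaf ⟨(nat_lit 937), (nat_lit 0), (nat_lit 0), (nat_lit 63), (nat_lit 0), (nat_lit 3091), (nat_lit 575),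 (nat_lit 686), (nat_lit 0), (nat_lit 19058), (nat_lit 588600), [((nat_lit 360), [((nat_lit 39), (nat_lit 2), (nat_lit 871)), ((nat_lit 21), (nat_lit 2), (nat_lit 66))])], ⟨(nat_lit 4), false, false, false, (nat_lit 179), (nat_lit 3162), (nat_lit 3873), [(nat_lit 1349127), (nat_lit 1355902), (nat_lit 1414421), (nat_lit 1422280), (nat_lit 1478205), (nat_lit 1477844), (nat_lit 1543529), (nat_lit 1544252)]⟩, ⟨(nat_lit 6), false, true, true, (nat_lit 255), (nat_lit 3162), (nat_lit 3873), [(nat_lit 1542727), (nat_lit 1538797), (nat_lit 1608082), (nat_lit 1605237), (nat_lit 1671770), (nat_lit 1660704), (nat_lit 1737150), (nat_lit 1727168)]⟩, (nat_lit 5076240), (nat_lit 39724112), (nat_lit 9909660), (nat_lit 17366228), (nat_lit 0), (nat_lit 0), [], [], [], [],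
 ⟨⟨[(nat_lit 40), (nat_lit 60), (nat_lit 80)], [(nat_lit 0), (nat_lit 398), (nat_lit 992)], [((nat_lit 0), (nat_lit 0), (nat_lit 0)), ((nat_lit 1000), (nat_lit 814), (nat_lit 310)), ((nat_lit 1000), (nat_lit 752), (nat_lit 464))], ((nat_lit 73), (nat_lit 100), (nat_lit 55))⟩, (nat_lit 238115), (nat_lit 163), (nat_lit 163), (nat_lit 0), (nat_lit 316578), [(nat_lit 1343148401), (nat_lit 1294191257), (nat_lit 1011561743)], [(nat_lit 0), (nat_lit 0), (nat_lit 0)], [(nat_lit 21403550147), (nat_lit 22465738075), (nat_lit 22751577764), (nat_lit 23705509104), (nat_lit 24361453765), (nat_lit 25287490648), (nat_lit 25438138175), (nat_lit 26371902957)], (nat_lit 1271251), (nat_lit 1271251), (nat_lit 780000), (nat_lit 1435001), (nat_lit 1271251), (nat_lit 1271251), [(nat_lit 490000), (nat_lit 780000), (nat_lit 1100000)], [(nat_lit 2), (nat_lit 44), (nat_lit 260), (nat_lit 50), (nat_lit 10)]⟩,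
 ⟨⟨[(nat_lit 120), (nat_lit 160), (nat_lit 180)], [(nat_lit 0), (nat_lit 533), (nat_lit 2066)], [((nat_lit 0), (nat_lit 0), (nat_lit 0)), ((nat_lit 960), (nat_lit 1000), (nat_lit 200)), ((nat_lit 615), (nat_lit 1000), (nat_lit 729))], ((nat_lit 100), (nat_lit 79), (nat_lit 55))⟩, (nat_lit 188926), (nat_lit 869), (nat_lit 869), (nat_lit 0), (nat_lit 1210364), [(nat_lit 501984000), (nat_lit 747936000), (nat_lit 885654000)], [], [(nat_lit 3581610677), (nat_lit 2649071459), (nat_lit 2595786431), (nat_lit 2554316073), (nat_lit 2826862689), (nat_lit 2617689214), (nat_lit 3383957941), (nat_lit 2565379028)], (nat_lit 1271251), (nat_lit 1271251), (nat_lit 780000), (nat_lit 1435001), (nat_lit 780000), (nat_lit 3072501), [(nat_lit 1695001), (nat_lit 1271251), (nat_lit 1271251)], [(nat_lit 28), (nat_lit 65), (nat_lit 456), (nat_lit 225), (nat_lit 10)]⟩,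
 ⟨⟨[(nat_lit 120), (nat_lit 160), (nat_lit 180)], [(nat_lit 0), (nat_lit 533), (nat_lit 2066)], [((nat_lit 0), (nat_lit 0), (nat_lit 0)), ((nat_lit 960), (nat_lit 1000), (nat_lit 200)), ((nat_lit 615), (nat_lit 1000), (nat_lit 729))], ((nat_lit 100), (nat_lit 79), (nat_lit 55))⟩, (nat_lit 147512), (nat_lit 300), (nat_lit 1074), (nat_lit 4183201), (nat_lit 1763022), [(nat_lit 501984000), (nat_lit 747936000), (nat_lit 885654000)], [], [(nat_lit 2923053556), (nat_lit 2830092950), (nat_lit 2879509979), (nat_lit 2777701422), (nat_lit 2698674553), (nat_lit 2617148684), (nat_lit 2701839780), (nat_lit 2610746904)], (nat_lit 1271251), (nat_lit 1271251), (nat_lit 1271251), (nat_lit 1271251), (nat_lit 780000), (nat_lit 3072501), [(nat_lit 1695001), (nat_lit 1271251), (nat_lit 1271251)], [(nat_lit 28), (nat_lit 65), (nat_lit 483), (nat_lit 250), (nat_lit 11)]⟩⟩)) (.trX (nat_lit 5) (nat_lit 4) (nat_lit 3) (nat_lit 80) (nat_lit 60) (nat_lit 100) (nat_lit 360) (.spl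 (nat_lit 5) (nat_lit 120) (.spl (nat_lit 2) (nat_lit 220) (.trX (nat_lit 4) (nat_lit 0) (nat_lit 2) (nat_lit 72) (nat_lit 63) (nat_lit 100) (nat_lit 360) (.spl (nat_lit 0) (nat_lit 350) (.leaf ⟨(nat_lit 897), (nat_lit 0), (nat_lit 0), (nat_lit 103), (nat_lit 0), (nat_lit 3533), (nat_lit 1306), (nat_lit 1190), (nat_lit 0), (nat_lit 118707), (nat_lit 366000), [((nat_lit 350), [((nat_lit 21), (nat_lit 1), (nat_lit 861)), ((nat_lit 39), (nat_lit 2), (nat_lit 36))])], ⟨(nat_lit 4), false, false, false, (nat_lit 179), (nat_lit 3535), (nat_lit 3873), [(nat_lit 1349157), (nat_lit 1352518), (nat_lit 1414519), (nat_lit 1418358), (nat_lit 1478205), (nat_lit 1478046), (nat_lit 1543574), (nat_lit 1543892)]⟩, ⟨(nat_lit 8), false, true, true, (nat_lit 289), (nat_lit 3535), (nat_lit 3873), [(nat_lit 1671770), (nat_lit 1666330), (nat_lit 1715356), (nat_lit 1710235), (nat_lit 1736292), (nat_lit 1729092), (nat_lit 1779878), (nat_lit 1772997)]⟩, (nat_lit 5195259), (nat_lit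 37147717), (nat_lit 9429779), (nat_lit 20422504), (nat_lit 0), (nat_lit 0), [], [⟨(nat_lit 1), (nat_lit 72), (nat_lit 69), (nat_lit 100), (nat_lit 137957463)⟩], [], [⟨(nat_lit 0), (nat_lit 73), (nat_lit 100), (nat_lit 55), (nat_lit 144786384)⟩],
 ⟨⟨[(nat_lit 40), (nat_lit 60), (nat_lit 80)], [(nat_lit 0), (nat_lit 398), (nat_lit 992)], [((nat_lit 0), (nat_lit 0), (nat_lit 0)), ((nat_lit 1000), (nat_lit 814), (nat_lit 310)), ((nat_lit 1000), (nat_lit 752), (nat_lit 464))], ((nat_lit 73), (nat_lit 100), (nat_lit 55))⟩, (nat_lit 1038), (nat_lit 154), (nat_lit 154), (nat_lit 0), (nat_lit 262298), [(nat_lit 1407172016), (nat_lit 1599351556), (nat_lit 1802663044)], [(nat_lit 0), (nat_lit 0), (nat_lit 0)], [(nat_lit 25009201478), (nat_lit 25488555040), (nat_lit 25969551527), (nat_lit 26400599731), (nat_lit 26959299911), (nat_lit 27540142350), (nat_lit 27707857201), (nat_lit 28229239443)], (nat_lit 1271251), (nat_lit 1271251), (nat_lit 780000), (nat_lit 1435001),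 (nat_lit 1271251), (nat_lit 1271251), [(nat_lit 490000), (nat_lit 780000), (nat_lit 1100000)], [(nat_lit 2), (nat_lit 44), (nat_lit 260), (nat_lit 50), (nat_lit 10)]⟩,
 ⟨⟨[(nat_lit 120), (nat_lit 160), (nat_lit 180)], [(nat_lit 0), (nat_lit 533), (nat_lit 2066)], [((nat_lit 0), (nat_lit 0), (nat_lit 0)), ((nat_lit 960), (nat_lit 1000), (nat_lit 200)), ((nat_lit 615), (nat_lit 1000), (nat_lit 729))], ((nat_lit 100), (nat_lit 79), (nat_lit 55))⟩, (nat_lit 1803450), (nat_lit 811), (nat_lit 811), (nat_lit 0), (nat_lit 873059), [(nat_lit 820704000), (nat_lit 1222816000), (nat_lit 1447974000)], [], [(nat_lit 3645705343), (nat_lit 2550763942), (nat_lit 4437517271), (nat_lit 2572963940), (nat_lit 3839938777), (nat_lit 1900683538), (nat_lit 4963804343), (nat_lit 3078409850)], (nat_lit 1271251), (nat_lit 1271251), (nat_lit 780000), (nat_lit 1435001), (nat_lit 0), (nat_lit 780000), [(nat_lit 1695001), (nat_lit 1271251), (nat_lit 1271251)], [(nat_lit 28), (nat_lit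 65), (nat_lit 373), (nat_lit 150), (nat_lit 9)]⟩,
 ⟨⟨[(nat_lit 120), (nat_lit 160), (nat_lit 180)], [(nat_lit 0), (nat_lit 533), (nat_lit 2066)], [((nat_lit 0), (nat_lit 0), (nat_lit 0)), ((nat_lit 960), (nat_lit 1000), (nat_lit 200)), ((nat_lit 615), (nat_lit 1000), (nat_lit 729))], ((nat_lit 100), (nat_lit 79), (nat_lit 55))⟩, (nat_lit 241171), (nat_lit 300), (nat_lit 775), (nat_lit 6839200), (nat_lit 961794), [(nat_lit 820704000), (nat_lit 1222816000), (nat_lit 1447974000)], [], [(nat_lit 5409239988), (nat_lit 5312158956), (nat_lit 5498438104), (nat_lit 5431601098), (nat_lit 4485799012), (nat_lit 4390977088), (nat_lit 4561920675), (nat_lit 4457196829)], (nat_lit 1271251), (nat_lit 1271251), (nat_lit 1271251), (nat_lit 1271251), (nat_lit 0), (nat_lit 780000), [(nat_lit 1695001), (nat_lit 1271251), (nat_lit 1271251)], [(nat_lit 28), (nat_lit 65), (nat_lit 401), (nat_lit 175), (nat_lit 9)]⟩⟩) (.trX (nat_lit 4) (nat_lit 0) (nat_lit 2) (nat_lit 66) (nat_lit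 68) (nat_lit 100) (nat_lit 350) (.leaf ⟨(nat_lit 907), (nat_lit 0), (nat_lit 0), (nat_lit 93), (nat_lit 0), (nat_lit 3346), (nat_lit 1154), (nat_lit 1118), (nat_lit 0), (nat_lit 506176), (nat_lit 321850), [((nat_lit 360), [((nat_lit 21), (nat_lit 0), (nat_lit 273)), ((nat_lit 21), (nat_lit 1), (nat_lit 634))])], ⟨(nat_lit 4), false, false, false, (nat_lit 180), (nat_lit 3162), (nat_lit 3536), [(nat_lit 1352511), (nat_lit 1355925), (nat_lit 1418344), (nat_lit 1422365), (nat_lit 1478046), (nat_lit 1477844), (nat_lit 1543888), (nat_lit 1544293)]⟩, ⟨(nat_lit 8), false, true, true, (nat_lit 284), (nat_lit 3162), (nat_lit 3536), [(nat_lit 1666330), (nat_lit 1660704), (nat_lit 1710235), (nat_lit 1705013), (nat_lit 1713401), (nat_lit 1706419), (nat_lit 1757306), (nat_lit 1750729)]⟩, (nat_lit 5185597), (nat_lit 37523570), (nat_lit 9560032), (nat_lit 19916398), (nat_lit 0), (nat_lit 0), [], [⟨(nat_lit 1), (nat_lit 77), (nat_lit 63), (nat_lit 100), (nat_lit 263290522)⟩],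 [], [⟨(nat_lit 0), (nat_lit 75), (nat_lit 100), (nat_lit 52), (nat_lit 130040835)⟩],
 ⟨⟨[(nat_lit 40), (nat_lit 60), (nat_lit 80)], [(nat_lit 0), (nat_lit 600), (nat_lit 1195)], [((nat_lit 0), (nat_lit 0), (nat_lit 0)), ((nat_lit 1000), (nat_lit 725), (nat_lit 454)), ((nat_lit 1000), (nat_lit 720), (nat_lit 465))], ((nat_lit 69), (nat_lit 100), (nat_lit 56))⟩, (nat_lit 491191), (nat_lit 167), (nat_lit 167), (nat_lit 0), (nat_lit 298948), [(nat_lit 1419393243), (nat_lit 1635981066), (nat_lit 1924043534)], [(nat_lit 0), (nat_lit 0), (nat_lit 0)], [(nat_lit 25124431776), (nat_lit 25593447273), (nat_lit 26146364698), (nat_lit 26583183771), (nat_lit 26700474683), (nat_lit 27283708829), (nat_lit 27503829478), (nat_lit 28027556016)], (nat_lit 1271251), (nat_lit 1271251), (nat_lit 780000), (nat_lit 1435001), (nat_lit 1271251), (nat_lit 1271251), [(nat_lit 490000), (nat_lit 780000), (nat_lit 1100000)], [(nat_lit 2), (nat_lit 44), (nat_lit 260), (nat_lit 50),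 (nat_lit 10)]⟩,
 ⟨⟨[(nat_lit 120), (nat_lit 160), (nat_lit 180)], [(nat_lit 0), (nat_lit 533), (nat_lit 2066)], [((nat_lit 0), (nat_lit 0), (nat_lit 0)), ((nat_lit 960), (nat_lit 1000), (nat_lit 200)), ((nat_lit 615), (nat_lit 1000), (nat_lit 729))], ((nat_lit 100), (nat_lit 79), (nat_lit 55))⟩, (nat_lit 1571216), (nat_lit 926), (nat_lit 926), (nat_lit 0), (nat_lit 1113358), [(nat_lit 741024000), (nat_lit 1104096000), (nat_lit 1307394000)], [], [(nat_lit 3292828427), (nat_lit 2375992980), (nat_lit 3997384435), (nat_lit 2348247482), (nat_lit 3470349525), (nat_lit 1756796274), (nat_lit 4468620883), (nat_lit 2802659746)], (nat_lit 1271251), (nat_lit 1271251), (nat_lit 780000), (nat_lit 1435001), (nat_lit 0), (nat_lit 780000), [(nat_lit 1695001), (nat_lit 1271251), (nat_lit 1271251)], [(nat_lit 28), (nat_lit 65), (nat_lit 373), (nat_lit 150), (nat_lit 9)]⟩,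
 ⟨⟨[(nat_lit 120), (nat_lit 160), (nat_lit 180)], [(nat_lit 0), (nat_lit 533), (nat_lit 2066)], [((nat_lit 0), (nat_lit 0), (nat_lit 0)), ((nat_lit 960), (nat_lit 1000), (nat_lit 200)), ((nat_lit 615), (nat_lit 1000), (nat_lit 729))], ((nat_lit 100), (nat_lit 79), (nat_lit 55))⟩, (nat_lit 217756), (nat_lit 300), (nat_lit 870), (nat_lit 6175201), (nat_lit 1193227), [(nat_lit 741024000), (nat_lit 1104096000), (nat_lit 1307394000)], [], [(nat_lit 4809126500), (nat_lit 4715493050), (nat_lit 4908624633), (nat_lit 4847744427), (nat_lit 3936058624), (nat_lit 3844575028), (nat_lit 3987533593), (nat_lit 3897334419)], (nat_lit 1271251), (nat_lit 1271251), (nat_lit 1271251), (nat_lit 1271251), (nat_lit 0), (nat_lit 780000), [(nat_lit 1695001), (nat_lit 1271251), (nat_lit 1271251)], [(nat_lit 28), (nat_lit 65), (nat_lit 401), (nat_lit 175), (nat_lit 9)]⟩⟩)))) (.ord (.leaf ⟨(nat_lit 798), (nat_lit 0), (nat_lit 0), (nat_lit 202), (nat_lit 0), (nat_lit 3350), (nat_lit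 1334), (nat_lit 2092), (nat_lit 0), (nat_lit 244713), (nat_lit 451850), [((nat_lit 360), [((nat_lit 21), (nat_lit 0), (nat_lit 77)), ((nat_lit 39), (nat_lit 2), (nat_lit 721))])], ⟨(nat_lit 5), false, false, false, (nat_lit 188), (nat_lit 3162), (nat_lit 3873), [(nat_lit 1392656), (nat_lit 1400154), (nat_lit 1414421), (nat_lit 1422280), (nat_lit 1521764), (nat_lit 1522126), (nat_lit 1543529), (nat_lit 1544252)]⟩, ⟨(nat_lit 8), false, true, true, (nat_lit 304), (nat_lit 3162), (nat_lit 3873), [(nat_lit 1715356), (nat_lit 1705013), (nat_lit 1737150), (nat_lit 1727168), (nat_lit 1796008), (nat_lit 1781205), (nat_lit 1817802), (nat_lit 1803360)]⟩, (nat_lit 5296779), (nat_lit 35601083), (nat_lit 9882127), (nat_lit 21516790), (nat_lit 0), (nat_lit 0), [], [], [⟨(nat_lit 0), (nat_lit 100), (nat_lit 100), (nat_lit 20), (nat_lit 837461)⟩], [⟨(nat_lit 0), (nat_lit 70), (nat_lit 100), (nat_lit 58), (nat_lit 301505049)⟩],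
 ⟨⟨[(nat_lit 40), (nat_lit 60), (nat_lit 80)], [(nat_lit 0), (nat_lit 398), (nat_lit 992)], [((nat_lit 0), (nat_lit 0), (nat_lit 0)), ((nat_lit 1000), (nat_lit 814), (nat_lit 310)), ((nat_lit 1000), (nat_lit 752), (nat_lit 464))], ((nat_lit 73), (nat_lit 100), (nat_lit 55))⟩, (nat_lit 816161), (nat_lit 178), (nat_lit 178), (nat_lit 0), (nat_lit 315944), [(nat_lit 1431391201), (nat_lit 1632533957), (nat_lit 1721202443)], [(nat_lit 0), (nat_lit 0), (nat_lit 0)], [(nat_lit 24679859612), (nat_lit 25587250984), (nat_lit 25705464129), (nat_lit 26617021954), (nat_lit 27320908113), (nat_lit 28424551163), (nat_lit 28059180757), (nat_lit 29052519400)], (nat_lit 1271251), (nat_lit 1271251), (nat_lit 780000), (nat_lit 1435001), (nat_lit 1271251), (nat_lit 1271251), [(nat_lit 490000), (nat_lit 780000), (nat_lit 1100000)], [(nat_lit 2), (nat_lit 44), (nat_lit 260), (nat_lit 50), (nat_lit 10)]⟩,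
 ⟨⟨[(nat_lit 100), (nat_lit 140), (nat_lit 160)], [(nat_lit 0), (nat_lit 508), (nat_lit 1689)], [((nat_lit 0), (nat_lit 0), (nat_lit 0)), ((nat_lit 1000), (nat_lit 1000), (nat_lit 198)), ((nat_lit 811), (nat_lit 1000), (nat_lit 671))], ((nat_lit 100), (nat_lit 89), (nat_lit 55))⟩, (nat_lit 2084469), (nat_lit 706), (nat_lit 706), (nat_lit 0), (nat_lit 846868), [(nat_lit 1262500000), (nat_lit 1988084000), (nat_lit 2398144000)], [], [(nat_lit 7908801641), (nat_lit 7343856664), (nat_lit 7341789709), (nat_lit 7393968820), (nat_lit 6748445659), (nat_lit 6803867138), (nat_lit 6799278471), (nat_lit 6860246446)], (nat_lit 1271251), (nat_lit 1271251), (nat_lit 780000), (nat_lit 1435001), (nat_lit 0), (nat_lit 780000), [(nat_lit 1412501), (nat_lit 1271251), (nat_lit 1271251)], [(nat_lit 23), (nat_lit 62), (nat_lit 373), (nat_lit 150), (nat_lit 10)]⟩,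
 ⟨⟨[(nat_lit 100), (nat_lit 140), (nat_lit 160)], [(nat_lit 0), (nat_lit 508), (nat_lit 1689)], [((nat_lit 0), (nat_lit 0), (nat_lit 0)), ((nat_lit 1000), (nat_lit 1000), (nat_lit 198)), ((nat_lit 811), (nat_lit 1000), (nat_lit 671))], ((nat_lit 100), (nat_lit 89), (nat_lit 55))⟩, (nat_lit 434220), (nat_lit 300), (nat_lit 647), (nat_lit 12625002), (nat_lit 846868), [(nat_lit 1262500000), (nat_lit 1988084000), (nat_lit 2398144000)], [], [(nat_lit 9134595462), (nat_lit 9060518264), (nat_lit 9425525983), (nat_lit 9365326978), (nat_lit 7712065505), (nat_lit 7637799288), (nat_lit 7876173476), (nat_lit 7816081149)], (nat_lit 1271251), (nat_lit 1271251), (nat_lit 1271251), (nat_lit 1271251), (nat_lit 0), (nat_lit 780000), [(nat_lit 1412501), (nat_lit 1271251), (nat_lit 1271251)], [(nat_lit 23), (nat_lit 62), (nat_lit 317), (nat_lit 100), (nat_lit 8)]⟩⟩))) (.leaf ⟨(nat_lit 907), (nat_lit 0), (nat_lit 0), (nat_lit 93), (nat_lit 0), (nat_lit 3296), (nat_lit 972),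 (nat_lit 941), (nat_lit 0), (nat_lit 1524), (nat_lit 544200), [((nat_lit 360), [((nat_lit 39), (nat_lit 2), (nat_lit 907))])], ⟨(nat_lit 4), false, false, false, (nat_lit 179), (nat_lit 3162), (nat_lit 3873), [(nat_lit 1349127), (nat_lit 1355902), (nat_lit 1414421), (nat_lit 1422280), (nat_lit 1478205), (nat_lit 1477844), (nat_lit 1543529), (nat_lit 1544252)]⟩, ⟨(nat_lit 8), false, true, true, (nat_lit 295), (nat_lit 3162), (nat_lit 3873), [(nat_lit 1671770), (nat_lit 1660704), (nat_lit 1737150), (nat_lit 1727168), (nat_lit 1752422), (nat_lit 1736895), (nat_lit 1817802), (nat_lit 1803360)]⟩, (nat_lit 5213494), (nat_lit 36667290), (nat_lit 9371246), (nat_lit 20961464), (nat_lit 0), (nat_lit 0), [], [⟨(nat_lit 1), (nat_lit 72), (nat_lit 66), (nat_lit 100), (nat_lit 327149955)⟩], [], [],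
 ⟨⟨[(nat_lit 40), (nat_lit 60), (nat_lit 80)], [(nat_lit 0), (nat_lit 398), (nat_lit 992)], [((nat_lit 0), (nat_lit 0), (nat_lit 0)), ((nat_lit 1000), (nat_lit 814), (nat_lit 310)), ((nat_lit 1000), (nat_lit 752), (nat_lit 464))], ((nat_lit 73), (nat_lit 100), (nat_lit 55))⟩, (nat_lit 324920), (nat_lit 178), (nat_lit 178), (nat_lit 0), (nat_lit 316578), [(nat_lit 1361549601), (nat_lit 1384874430), (nat_lit 1210970170)], [(nat_lit 0), (nat_lit 0), (nat_lit 0)], [(nat_lit 24602301138), (nat_lit 25523761296), (nat_lit 25588534954), (nat_lit 26453201028), (nat_lit 27246487378), (nat_lit 28342731996), (nat_lit 28000623541), (nat_lit 28987753474)], (nat_lit 1271251), (nat_lit 1271251), (nat_lit 780000), (nat_lit 1435001), (nat_lit 1271251), (nat_lit 1271251), [(nat_lit 490000), (nat_lit 780000), (nat_lit 1100000)], [(nat_lit 2), (nat_lit 44), (nat_lit 260), (nat_lit 50), (nat_lit 10)]⟩,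
 ⟨⟨[(nat_lit 120), (nat_lit 160), (nat_lit 180)], [(nat_lit 0), (nat_lit 533), (nat_lit 2066)], [((nat_lit 0), (nat_lit 0), (nat_lit 0)), ((nat_lit 960), (nat_lit 1000), (nat_lit 200)), ((nat_lit 615), (nat_lit 1000), (nat_lit 729))], ((nat_lit 100), (nat_lit 79), (nat_lit 55))⟩, (nat_lit 466719), (nat_lit 869), (nat_lit 869), (nat_lit 0), (nat_lit 1210364), [(nat_lit 741024000), (nat_lit 1104096000), (nat_lit 1307394000)], [], [(nat_lit 3493603938), (nat_lit 3019137849), (nat_lit 4372863858), (nat_lit 2969645292), (nat_lit 6286580979), (nat_lit 4957025676), (nat_lit 7315447251), (nat_lit 6019799196)], (nat_lit 1271251), (nat_lit 1271251), (nat_lit 780000), (nat_lit 1435001), (nat_lit 780000), (nat_lit 2745001), [(nat_lit 1695001), (nat_lit 1271251), (nat_lit 1271251)], [(nat_lit 28), (nat_lit 65), (nat_lit 428), (nat_lit 200), (nat_lit 10)]⟩,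
 ⟨⟨[(nat_lit 120), (nat_lit 160), (nat_lit 180)], [(nat_lit 0), (nat_lit 533), (nat_lit 2066)], [((nat_lit 0), (nat_lit 0), (nat_lit 0)), ((nat_lit 960), (nat_lit 1000), (nat_lit 200)), ((nat_lit 615), (nat_lit 1000), (nat_lit 729))], ((nat_lit 100), (nat_lit 79), (nat_lit 55))⟩, (nat_lit 217756), (nat_lit 300), (nat_lit 1042), (nat_lit 6175201), (nat_lit 1763022), [(nat_lit 741024000), (nat_lit 1104096000), (nat_lit 1307394000)], [], [(nat_lit 4590590308), (nat_lit 4437945734), (nat_lit 4567917322), (nat_lit 4424312426), (nat_lit 4115617089), (nat_lit 3977784446), (nat_lit 4142364705), (nat_lit 3994578505)], (nat_lit 1271251), (nat_lit 1271251), (nat_lit 1271251), (nat_lit 1271251), (nat_lit 780000), (nat_lit 2745001), [(nat_lit 1695001), (nat_lit 1271251), (nat_lit 1271251)], [(nat_lit 28), (nat_lit 65), (nat_lit 483), (nat_lit 250), (nat_lit 11)]⟩⟩)))))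
noncomputable def c7_18 : Tr Lf :=
 (.trX (nat_lit 3) (nat_lit 0) (nat_lit 1) (nat_lit 72) (nat_lit 77) (nat_lit 100) (nat_lit 330) (.spl (nat_lit 2) (nat_lit 160) (.spl (nat_lit 4) (nat_lit 200) (.leaf ⟨(nat_lit 1000), (nat_lit 0), (nat_lit 0), (nat_lit 0), (nat_lit 0), (nat_lit 3191), (nat_lit 0), (nat_lit 0), (nat_lit 0), (nat_lit 3174277), (nat_lit 680400), [((nat_lit 360), [((nat_lit 39), (nat_lit 2), (nat_lit 799)), ((nat_lit 21), (nat_lit 2), (nat_lit 201))])], ⟨(nat_lit 5), false, false, true, (nat_lit 219), (nat_lit 3162), (nat_lit 3873), [(nat_lit 1412825), (nat_lit 1411379), (nat_lit 1478205), (nat_lit 1477844), (nat_lit 1622521), (nat_lit 1609477), (nat_lit 1687900), (nat_lit 1675942)]⟩, ⟨(nat_lit 3), false, false, true, (nat_lit 149), (nat_lit 3162), (nat_lit 3873), [(nat_lit 1283782), (nat_lit 1289472), (nat_lit 1327361), (nat_lit 1333774), (nat_lit 1412825), (nat_lit 1411379), (nat_lit 1456412), (nat_lit 1455689)]⟩, (nat_lit 4589675),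 (nat_lit 44514397), (nat_lit 14574217), (nat_lit 7911386), (nat_lit 0), (nat_lit 0), [⟨(nat_lit 1), (nat_lit 92), (nat_lit 68), (nat_lit 100), (nat_lit 211453323)⟩], [], [], [],
 ⟨⟨[(nat_lit 40), (nat_lit 60), (nat_lit 80)], [(nat_lit 0), (nat_lit 398), (nat_lit 992)], [((nat_lit 0), (nat_lit 0), (nat_lit 0)), ((nat_lit 1000), (nat_lit 814), (nat_lit 310)), ((nat_lit 1000), (nat_lit 752), (nat_lit 464))], ((nat_lit 73), (nat_lit 100), (nat_lit 55))⟩, (nat_lit 147762), (nat_lit 187), (nat_lit 187), (nat_lit 0), (nat_lit 395788), [(nat_lit 1304458521), (nat_lit 1089093113), (nat_lit 613665287)], [(nat_lit 0), (nat_lit 0), (nat_lit 0)], [(nat_lit 20222848564), (nat_lit 21302827194), (nat_lit 24872407550), (nat_lit 25958674788), (nat_lit 21640743845), (nat_lit 22688629236), (nat_lit 25983441727), (nat_lit 26859404612)], (nat_lit 1271251), (nat_lit 1271251), (nat_lit 1271251), (nat_lit 1271251), (nat_lit 780000), (nat_lit 1435001), [(nat_lit 490000), (nat_lit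 780000), (nat_lit 1100000)], [(nat_lit 2), (nat_lit 44), (nat_lit 260), (nat_lit 50), (nat_lit 10)]⟩,
 Rw.none,
 Rw.none⟩) (.spl (nat_lit 0) (nat_lit 350) (.leaf ⟨(nat_lit 1000), (nat_lit 0), (nat_lit 0), (nat_lit 0), (nat_lit 0), (nat_lit 3079), (nat_lit 0), (nat_lit 0), (nat_lit 0), (nat_lit 2749419), (nat_lit 612800), [((nat_lit 350), [((nat_lit 39), (nat_lit 2), (nat_lit 968)), ((nat_lit 21), (nat_lit 2), (nat_lit 32))])], ⟨(nat_lit 5), false, false, true, (nat_lit 219), (nat_lit 3535), (nat_lit 3873), [(nat_lit 1412825), (nat_lit 1412188), (nat_lit 1478205), (nat_lit 1478046), (nat_lit 1622521), (nat_lit 1616163), (nat_lit 1687900), (nat_lit 1682021)]⟩, ⟨(nat_lit 5), false, false, true, (nat_lit 186), (nat_lit 3535), (nat_lit 3873), [(nat_lit 1412825), (nat_lit 1412188), (nat_lit 1456412), (nat_lit 1456093), (nat_lit 1477347), (nat_lit 1474949), (nat_lit 1520934), (nat_lit 1518855)]⟩, (nat_lit 4941871), (nat_lit 41938994), (nat_lit 14146240), (nat_lit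 10914766), (nat_lit 0), (nat_lit 0), [⟨(nat_lit 1), (nat_lit 77), (nat_lit 72), (nat_lit 100), (nat_lit 178415169)⟩], [], [], [],
 ⟨⟨[(nat_lit 40), (nat_lit 60), (nat_lit 80)], [(nat_lit 0), (nat_lit 398), (nat_lit 992)], [((nat_lit 0), (nat_lit 0), (nat_lit 0)), ((nat_lit 1000), (nat_lit 814), (nat_lit 310)), ((nat_lit 1000), (nat_lit 752), (nat_lit 464))], ((nat_lit 73), (nat_lit 100), (nat_lit 55))⟩, (nat_lit 0), (nat_lit 139), (nat_lit 139), (nat_lit 0), (nat_lit 325715), [(nat_lit 1308108939), (nat_lit 1156006148), (nat_lit 837702652)], [(nat_lit 0), (nat_lit 0), (nat_lit 0)], [(nat_lit 21783222333), (nat_lit 22290747497), (nat_lit 25847664450), (nat_lit 26265967656), (nat_lit 22763057902), (nat_lit 23239293099), (nat_lit 26614496324), (nat_lit 27044712655)], (nat_lit 1271251), (nat_lit 1271251), (nat_lit 1271251), (nat_lit 1271251), (nat_lit 1271251), (nat_lit 1271251), [(nat_lit 490000), (nat_lit 780000), (nat_lit 1100000)], [(nat_lit 2), (nat_lit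 44), (nat_lit 203), (nat_lit 0), (nat_lit 7)]⟩,
 Rw.none,
 Rw.none⟩) (.trX (nat_lit 3) (nat_lit 0) (nat_lit 1) (nat_lit 66) (nat_lit 82) (nat_lit 100) (nat_lit 320) (.leaf ⟨(nat_lit 1000), (nat_lit 0), (nat_lit 0), (nat_lit 0), (nat_lit 0), (nat_lit 3202), (nat_lit 0), (nat_lit 0), (nat_lit 0), (nat_lit 438036), (nat_lit 680400), [((nat_lit 360), [((nat_lit 39), (nat_lit 2), (nat_lit 799)), ((nat_lit 21), (nat_lit 2), (nat_lit 201))])], ⟨(nat_lit 5), false, false, true, (nat_lit 215), (nat_lit 3162), (nat_lit 3536), [(nat_lit 1412188), (nat_lit 1411379), (nat_lit 1478046), (nat_lit 1477844), (nat_lit 1600472), (nat_lit 1594239), (nat_lit 1666330), (nat_lit 1660704)]⟩, ⟨(nat_lit 5), false, false, true, (nat_lit 186), (nat_lit 3162), (nat_lit 3536), [(nat_lit 1412188), (nat_lit 1411379), (nat_lit 1456093), (nat_lit 1455689), (nat_lit 1474949), (nat_lit 1472332), (nat_lit 1518855), (nat_lit 1516642)]⟩, (nat_lit 4907868), (nat_lit 42313755), (nat_lit 13765663),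 (nat_lit 10920582), (nat_lit 0), (nat_lit 0), [⟨(nat_lit 1), (nat_lit 82), (nat_lit 66), (nat_lit 100), (nat_lit 212533940)⟩], [], [], [],
 ⟨⟨[(nat_lit 40), (nat_lit 60), (nat_lit 80)], [(nat_lit 0), (nat_lit 600), (nat_lit 1195)], [((nat_lit 0), (nat_lit 0), (nat_lit 0)), ((nat_lit 1000), (nat_lit 725), (nat_lit 454)), ((nat_lit 1000), (nat_lit 720), (nat_lit 465))], ((nat_lit 69), (nat_lit 100), (nat_lit 56))⟩, (nat_lit 285976), (nat_lit 168), (nat_lit 168), (nat_lit 0), (nat_lit 391513), [(nat_lit 1304458433), (nat_lit 1101132901), (nat_lit 601625499)], [(nat_lit 0), (nat_lit 0), (nat_lit 0)], [(nat_lit 22104435594), (nat_lit 22662465565), (nat_lit 25978044261), (nat_lit 26425971070), (nat_lit 23148842321), (nat_lit 23671421070), (nat_lit 26763376318), (nat_lit 27184939784)], (nat_lit 1271251), (nat_lit 1271251), (nat_lit 1271251), (nat_lit 1271251), (nat_lit 1271251), (nat_lit 1271251), [(nat_lit 490000), (nat_lit 780000), (nat_lit 1100000)], [(nat_lit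 2), (nat_lit 44), (nat_lit 203), (nat_lit 0), (nat_lit 7)]⟩,
 Rw.none,
 Rw.none⟩)))) (.ord (.spl (nat_lit 0) (nat_lit 350) (.leaf ⟨(nat_lit 942), (nat_lit 27), (nat_lit 0), (nat_lit 31), (nat_lit 157), (nat_lit 3141), (nat_lit 766), (nat_lit 456), (nat_lit 0), (nat_lit 4379645771535), (nat_lit 595600), [((nat_lit 350), [((nat_lit 39), (nat_lit 2), (nat_lit 866)), ((nat_lit 21), (nat_lit 2), (nat_lit 76))])], ⟨(nat_lit 5), false, false, true, (nat_lit 228), (nat_lit 3535), (nat_lit 3873), [(nat_lit 1456412), (nat_lit 1456093), (nat_lit 1478205), (nat_lit 1478046), (nat_lit 1666107), (nat_lit 1660068), (nat_lit 1687900), (nat_lit 1682021)]⟩, ⟨(nat_lit 4), false, false, true, (nat_lit 174), (nat_lit 3535), (nat_lit 3873), [(nat_lit 1327369), (nat_lit 1330570), (nat_lit 1349157), (nat_lit 1352518), (nat_lit 1520934), (nat_lit 1518855), (nat_lit 1542727), (nat_lit 1540807)]⟩, (nat_lit 4894348), (nat_lit 42080125), (nat_lit 15098117), (nat_lit 9821758), (nat_lit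 4), (nat_lit 0), [⟨(nat_lit 1), (nat_lit 77), (nat_lit 72), (nat_lit 100), (nat_lit 49851448)⟩], [], [], [],
 ⟨⟨[(nat_lit 40), (nat_lit 60), (nat_lit 80)], [(nat_lit 0), (nat_lit 398), (nat_lit 992)], [((nat_lit 0), (nat_lit 0), (nat_lit 0)), ((nat_lit 1000), (nat_lit 814), (nat_lit 310)), ((nat_lit 1000), (nat_lit 752), (nat_lit 464))], ((nat_lit 73), (nat_lit 100), (nat_lit 55))⟩, (nat_lit 204118), (nat_lit 134), (nat_lit 134), (nat_lit 0), (nat_lit 250323), [(nat_lit 1340063826), (nat_lit 1282971231), (nat_lit 976154769)], [(nat_lit 0), (nat_lit 0), (nat_lit 0)], [(nat_lit 20185999026), (nat_lit 20757358269), (nat_lit 24702001270), (nat_lit 25299237982), (nat_lit 22634188894), (nat_lit 23114198202), (nat_lit 26613389164), (nat_lit 27097081440)], (nat_lit 1271251), (nat_lit 1271251), (nat_lit 1271251), (nat_lit 1271251), (nat_lit 780000), (nat_lit 1762501), [(nat_lit 490000), (nat_lit 780000), (nat_lit 1100000)], [(nat_lit 2), (nat_lit 44), (nat_lit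 272), (nat_lit 60), (nat_lit 11)]⟩,
 ⟨⟨[(nat_lit 120), (nat_lit 160), (nat_lit 180)], [(nat_lit 0), (nat_lit 0), (nat_lit 1613)], [((nat_lit 0), (nat_lit 0), (nat_lit 0)), ((nat_lit 0), (nat_lit 0), (nat_lit 0)), ((nat_lit 620), (nat_lit 1000), (nat_lit 670))], ((nat_lit 100), (nat_lit 73), (nat_lit 55))⟩, (nat_lit 173569), (nat_lit 977), (nat_lit 977), (nat_lit 0), (nat_lit 1307240), [(nat_lit 462144000), (nat_lit 688576000), (nat_lit 815364000)], [], [(nat_lit 2645153296), (nat_lit 2620067736), (nat_lit 2714510458), (nat_lit 2691784771), (nat_lit 3820508644), (nat_lit 4048933784), (nat_lit 2409348298), (nat_lit 2404859748)], (nat_lit 1100000), (nat_lit 1271251), (nat_lit 1271251), (nat_lit 1271251), (nat_lit 0), (nat_lit 2825001), [(nat_lit 1695001), (nat_lit 1271251), (nat_lit 1271251)], [(nat_lit 28), (nat_lit 65), (nat_lit 483), (nat_lit 250), (nat_lit 11)]⟩,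
 ⟨⟨[(nat_lit 120), (nat_lit 160), (nat_lit 180)], [(nat_lit 0), (nat_lit 0), (nat_lit 1613)], [((nat_lit 0), (nat_lit 0), (nat_lit 0)), ((nat_lit 0), (nat_lit 0), (nat_lit 0)), ((nat_lit 620), (nat_lit 1000), (nat_lit 670))], ((nat_lit 100), (nat_lit 73), (nat_lit 55))⟩, (nat_lit 13492), (nat_lit 300), (nat_lit 1015), (nat_lit 2300200), (nat_lit 1307240), [(nat_lit 247008000), (nat_lit 368032000), (nat_lit 435798000)], [], [(nat_lit 1788778085), (nat_lit 1731233337), (nat_lit 1605888560), (nat_lit 1587835389), (nat_lit 1967569580), (nat_lit 2095974964), (nat_lit 2655629496), (nat_lit 2791705940)], (nat_lit 1100000), (nat_lit 1271251), (nat_lit 780000), (nat_lit 1762501), (nat_lit 0), (nat_lit 2825001), [(nat_lit 1695001), (nat_lit 1271251), (nat_lit 1271251)], [(nat_lit 28), (nat_lit 65), (nat_lit 456), (nat_lit 225), (nat_lit 11)]⟩⟩) (.trX (nat_lit 3) (nat_lit 0) (nat_lit 1) (nat_lit 66) (nat_lit 82) (nat_lit 100) (nat_lit 320) (.leaf ⟨(nat_lit 949),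 (nat_lit 16), (nat_lit 0), (nat_lit 35), (nat_lit 0), (nat_lit 3082), (nat_lit 702), (nat_lit 515), (nat_lit 0), (nat_lit 5151161213632), (nat_lit 605800), [((nat_lit 360), [((nat_lit 39), (nat_lit 2), (nat_lit 858)), ((nat_lit 21), (nat_lit 2), (nat_lit 91))])], ⟨(nat_lit 5), false, false, true, (nat_lit 224), (nat_lit 3162), (nat_lit 3536), [(nat_lit 1456093), (nat_lit 1455689), (nat_lit 1478046), (nat_lit 1477844), (nat_lit 1644378), (nat_lit 1638549), (nat_lit 1666330), (nat_lit 1660704)]⟩, ⟨(nat_lit 4), false, false, true, (nat_lit 174), (nat_lit 3162), (nat_lit 3536), [(nat_lit 1330567), (nat_lit 1333779), (nat_lit 1352511), (nat_lit 1355925), (nat_lit 1518855), (nat_lit 1516642), (nat_lit 1540807), (nat_lit 1538797)]⟩, (nat_lit 4869210), (nat_lit 42406029), (nat_lit 14704725), (nat_lit 9889246), (nat_lit 4), (nat_lit 0), [⟨(nat_lit 1), (nat_lit 87), (nat_lit 64), (nat_lit 100), (nat_lit 91075210)⟩], [], [], [],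
 ⟨⟨[(nat_lit 40), (nat_lit 60), (nat_lit 80)], [(nat_lit 0), (nat_lit 600), (nat_lit 1195)], [((nat_lit 0), (nat_lit 0), (nat_lit 0)), ((nat_lit 1000), (nat_lit 725), (nat_lit 454)), ((nat_lit 1000), (nat_lit 720), (nat_lit 465))], ((nat_lit 69), (nat_lit 100), (nat_lit 56))⟩, (nat_lit 396193), (nat_lit 163), (nat_lit 163), (nat_lit 0), (nat_lit 317984), [(nat_lit 1335763343), (nat_lit 1249165755), (nat_lit 942960845)], [(nat_lit 0), (nat_lit 0), (nat_lit 0)], [(nat_lit 20393447665), (nat_lit 20986249885), (nat_lit 24757821251), (nat_lit 25276802587), (nat_lit 22945864312), (nat_lit 23492495075), (nat_lit 26711164368), (nat_lit 27150427369)], (nat_lit 1271251), (nat_lit 1271251), (nat_lit 1271251), (nat_lit 1271251), (nat_lit 780000), (nat_lit 1762501), [(nat_lit 490000), (nat_lit 780000), (nat_lit 1100000)], [(nat_lit 2), (nat_lit 44), (nat_lit 272), (nat_lit 60), (nat_lit 11)]⟩,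
 ⟨⟨[(nat_lit 120), (nat_lit 160), (nat_lit 180)], [(nat_lit 0), (nat_lit 0), (nat_lit 1613)], [((nat_lit 0), (nat_lit 0), (nat_lit 0)), ((nat_lit 0), (nat_lit 0), (nat_lit 0)), ((nat_lit 620), (nat_lit 1000), (nat_lit 670))], ((nat_lit 100), (nat_lit 73), (nat_lit 55))⟩, (nat_lit 214129), (nat_lit 1184), (nat_lit 1184), (nat_lit 0), (nat_lit 1768900), [(nat_lit 406368000), (nat_lit 605472000), (nat_lit 716958000)], [], [(nat_lit 2250021630), (nat_lit 2239373261), (nat_lit 2320745436), (nat_lit 2315389527), (nat_lit 3397129668), (nat_lit 3604994148), (nat_lit 2102558592), (nat_lit 2099627340)], (nat_lit 1100000), (nat_lit 1271251), (nat_lit 1271251), (nat_lit 1271251), (nat_lit 0), (nat_lit 2825001), [(nat_lit 1695001), (nat_lit 1271251), (nat_lit 1271251)], [(nat_lit 28), (nat_lit 65), (nat_lit 456), (nat_lit 225), (nat_lit 11)]⟩,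
 ⟨⟨[(nat_lit 120), (nat_lit 160), (nat_lit 180)], [(nat_lit 0), (nat_lit 0), (nat_lit 1613)], [((nat_lit 0), (nat_lit 0), (nat_lit 0)), ((nat_lit 0), (nat_lit 0), (nat_lit 0)), ((nat_lit 620), (nat_lit 1000), (nat_lit 670))], ((nat_lit 100), (nat_lit 73), (nat_lit 55))⟩, (nat_lit 42958), (nat_lit 300), (nat_lit 1222), (nat_lit 2597000), (nat_lit 1768900), [(nat_lit 278880000), (nat_lit 415520000), (nat_lit 492030000)], [], [(nat_lit 2019720895), (nat_lit 1954429788), (nat_lit 1812848380), (nat_lit 1792455600), (nat_lit 2221636740), (nat_lit 2366648468), (nat_lit 2998678860), (nat_lit 3152354175)], (nat_lit 1100000), (nat_lit 1271251), (nat_lit 780000), (nat_lit 1762501), (nat_lit 0), (nat_lit 2825001), [(nat_lit 1695001), (nat_lit 1271251), (nat_lit 1271251)], [(nat_lit 28), (nat_lit 65), (nat_lit 456), (nat_lit 225), (nat_lit 11)]⟩⟩))))))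
noncomputable def c7_19 : Tr Lf :=
 (.spl (nat_lit 3) (nat_lit 280) (.leaf ⟨(nat_lit 1000), (nat_lit 0), (nat_lit 0), (nat_lit 0), (nat_lit 0), (nat_lit 3427), (nat_lit 0), (nat_lit 0), (nat_lit 0), (nat_lit 0), (nat_lit 250000), [((nat_lit 360), [((nat_lit 21), (nat_lit 0), (nat_lit 1000))])], ⟨(nat_lit 5), false, true, true, (nat_lit 229), (nat_lit 3162), (nat_lit 3873), [(nat_lit 1478205), (nat_lit 1477844), (nat_lit 1543529), (nat_lit 1544252), (nat_lit 1607248), (nat_lit 1599750), (nat_lit 1672628), (nat_lit 1666215)]⟩, ⟨(nat_lit 3), false, false, true, (nat_lit 165), (nat_lit 3162), (nat_lit 3873), [(nat_lit 1283782), (nat_lit 1289472), (nat_lit 1349127), (nat_lit 1355902), (nat_lit 1477347), (nat_lit 1472332), (nat_lit 1542727), (nat_lit 1538797)]⟩, (nat_lit 4825049), (nat_lit 42539957), (nat_lit 15333696), (nat_lit 9126347), (nat_lit 0), (nat_lit 0), [], [], [], [],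
 ⟨⟨[(nat_lit 40), (nat_lit 60), (nat_lit 80)], [(nat_lit 0), (nat_lit 398), (nat_lit 992)], [((nat_lit 0), (nat_lit 0), (nat_lit 0)), ((nat_lit 1000), (nat_lit 814), (nat_lit 310)), ((nat_lit 1000), (nat_lit 752), (nat_lit 464))], ((nat_lit 73), (nat_lit 100), (nat_lit 55))⟩, (nat_lit 0), (nat_lit 53), (nat_lit 53), (nat_lit 0), (nat_lit 0), [(nat_lit 1558400016), (nat_lit 1595600004), (nat_lit 1969199996)], [(nat_lit 0), (nat_lit 0), (nat_lit 0)], [(nat_lit 19418005060), (nat_lit 20819912388), (nat_lit 22469061201), (nat_lit 23785515534), (nat_lit 22172253575), (nat_lit 23335754282), (nat_lit 24683266483), (nat_lit 25806180732)], (nat_lit 0), (nat_lit 0), (nat_lit 0), (nat_lit 0), (nat_lit 0), (nat_lit 0), [], [(nat_lit 2), (nat_lit 44), (nat_lit 272), (nat_lit 60), (nat_lit 11)]⟩,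
 Rw.none,
 Rw.none⟩) (.spl (nat_lit 3) (nat_lit 320) (.leaf ⟨(nat_lit 1000), (nat_lit 0), (nat_lit 0), (nat_lit 0), (nat_lit 167), (nat_lit 3643), (nat_lit 0), (nat_lit 0), (nat_lit 0), (nat_lit 0), (nat_lit 250000), [((nat_lit 360), [((nat_lit 21), (nat_lit 0), (nat_lit 1000))])], ⟨(nat_lit 7), false, true, true, (nat_lit 267), (nat_lit 3162), (nat_lit 3873), [(nat_lit 1607248), (nat_lit 1599750), (nat_lit 1672628), (nat_lit 1666215), (nat_lit 1671770), (nat_lit 1660704), (nat_lit 1737150), (nat_lit 1727168)]⟩, ⟨(nat_lit 3), false, false, true, (nat_lit 165), (nat_lit 3162), (nat_lit 3873), [(nat_lit 1283782), (nat_lit 1289472), (nat_lit 1349127), (nat_lit 1355902), (nat_lit 1477347), (nat_lit 1472332), (nat_lit 1542727), (nat_lit 1538797)]⟩, (nat_lit 5014145), (nat_lit 39541115), (nat_lit 18742449), (nat_lit 8716436), (nat_lit 0), (nat_lit 0), [], [], [], [],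
 ⟨⟨[(nat_lit 40), (nat_lit 60), (nat_lit 80)], [(nat_lit 0), (nat_lit 398), (nat_lit 992)], [((nat_lit 0), (nat_lit 0), (nat_lit 0)), ((nat_lit 1000), (nat_lit 814), (nat_lit 310)), ((nat_lit 1000), (nat_lit 752), (nat_lit 464))], ((nat_lit 73), (nat_lit 100), (nat_lit 55))⟩, (nat_lit 0), (nat_lit 64), (nat_lit 64), (nat_lit 0), (nat_lit 0), [(nat_lit 1572491442), (nat_lit 1804348289), (nat_lit 1963600000)], [(nat_lit 0), (nat_lit 0), (nat_lit 0)], [(nat_lit 23111003620), (nat_lit 24302567898), (nat_lit 24858155081), (nat_lit 25991991670), (nat_lit 25162312420), (nat_lit 26160691279), (nat_lit 26610894045), (nat_lit 27561573966)], (nat_lit 0), (nat_lit 0), (nat_lit 0), (nat_lit 0), (nat_lit 0), (nat_lit 0), [], [(nat_lit 2), (nat_lit 44), (nat_lit 272), (nat_lit 60), (nat_lit 10)]⟩,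
 Rw.none,
 Rw.none⟩) (.trX (nat_lit 5) (nat_lit 3) (nat_lit 4) (nat_lit 82) (nat_lit 44) (nat_lit 100) (nat_lit 390) (.spl (nat_lit 2) (nat_lit 160) (.spl (nat_lit 4) (nat_lit 200) (.trX (nat_lit 5) (nat_lit 3) (nat_lit 4) (nat_lit 80) (nat_lit 60) (nat_lit 100) (nat_lit 360) (.leaf ⟨(nat_lit 1000), (nat_lit 0), (nat_lit 0), (nat_lit 0), (nat_lit 2627), (nat_lit 3503), (nat_lit 0), (nat_lit 0), (nat_lit 0), (nat_lit 0), (nat_lit 250000), [((nat_lit 360), [((nat_lit 21), (nat_lit 0), (nat_lit 1000))])], ⟨(nat_lit 8), false, true, true, (nat_lit 295), (nat_lit 3162), (nat_lit 3873), [(nat_lit 1671770), (nat_lit 1660704), (nat_lit 1737150), (nat_lit 1727168), (nat_lit 1752422), (nat_lit 1736895), (nat_lit 1817802), (nat_lit 1803360)]⟩, ⟨(nat_lit 3), false, false, true, (nat_lit 149), (nat_lit 3162), (nat_lit 3873), [(nat_lit 1283782), (nat_lit 1289472), (nat_lit 1327361), (nat_lit 1333774), (nat_lit 1412825), (nat_lit 1411379), (nat_lit 1456412), (nat_lit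 1455689)]⟩, (nat_lit 4953952), (nat_lit 38176240), (nat_lit 21625898), (nat_lit 7197862), (nat_lit 0), (nat_lit 0), [⟨(nat_lit 1), (nat_lit 55), (nat_lit 73), (nat_lit 100), (nat_lit 287758706)⟩], [], [], [],
 ⟨⟨[(nat_lit 40), (nat_lit 60), (nat_lit 80)], [(nat_lit 0), (nat_lit 398), (nat_lit 992)], [((nat_lit 0), (nat_lit 0), (nat_lit 0)), ((nat_lit 1000), (nat_lit 814), (nat_lit 310)), ((nat_lit 1000), (nat_lit 752), (nat_lit 464))], ((nat_lit 73), (nat_lit 100), (nat_lit 55))⟩, (nat_lit 0), (nat_lit 91), (nat_lit 91), (nat_lit 0), (nat_lit 0), [(nat_lit 1558400248), (nat_lit 1837508233), (nat_lit 1963600000)], [(nat_lit 0), (nat_lit 0), (nat_lit 0)], [(nat_lit 24951809316), (nat_lit 26008555070), (nat_lit 27548090958), (nat_lit 28656372135), (nat_lit 25960229961), (nat_lit 26907624894), (nat_lit 28265805020), (nat_lit 29236022857)], (nat_lit 0), (nat_lit 0), (nat_lit 0), (nat_lit 0), (nat_lit 0), (nat_lit 0), [], [(nat_lit 2), (nat_lit 44), (nat_lit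 260), (nat_lit 50), (nat_lit 10)]⟩,
 Rw.none,
 Rw.none⟩)) (.trZ (nat_lit 3) (nat_lit 4) (nat_lit 5) (nat_lit 100) (nat_lit 80) (nat_lit 60) (nat_lit 40) (.leaf ⟨(nat_lit 1000), (nat_lit 0), (nat_lit 0), (nat_lit 0), (nat_lit 2474), (nat_lit 3437), (nat_lit 0), (nat_lit 0), (nat_lit 0), (nat_lit 0), (nat_lit 250000), [((nat_lit 360), [((nat_lit 21), (nat_lit 0), (nat_lit 1000))])], ⟨(nat_lit 8), false, true, true, (nat_lit 295), (nat_lit 3162), (nat_lit 3873), [(nat_lit 1671770), (nat_lit 1660704), (nat_lit 1737150), (nat_lit 1727168), (nat_lit 1752422), (nat_lit 1736895), (nat_lit 1817802), (nat_lit 1803360)]⟩, ⟨(nat_lit 5), false, false, true, (nat_lit 186), (nat_lit 3162), (nat_lit 3873), [(nat_lit 1412825), (nat_lit 1411379), (nat_lit 1456412), (nat_lit 1455689), (nat_lit 1477347), (nat_lit 1472332), (nat_lit 1520934), (nat_lit 1516642)]⟩, (nat_lit 5265135), (nat_lit 36321542), (nat_lit 20805084), (nat_lit 9873374), (nat_lit 0), (nat_lit 0), [⟨(nat_lit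 1), (nat_lit 55), (nat_lit 73), (nat_lit 100), (nat_lit 267975141)⟩], [], [], [],
 ⟨⟨[(nat_lit 40), (nat_lit 60), (nat_lit 80)], [(nat_lit 0), (nat_lit 398), (nat_lit 992)], [((nat_lit 0), (nat_lit 0), (nat_lit 0)), ((nat_lit 1000), (nat_lit 814), (nat_lit 310)), ((nat_lit 1000), (nat_lit 752), (nat_lit 464))], ((nat_lit 73), (nat_lit 100), (nat_lit 55))⟩, (nat_lit 0), (nat_lit 68), (nat_lit 68), (nat_lit 0), (nat_lit 0), [(nat_lit 1558400205), (nat_lit 1767689233), (nat_lit 1963600000)], [(nat_lit 0), (nat_lit 0), (nat_lit 0)], [(nat_lit 26040481232), (nat_lit 26980760639), (nat_lit 28287336978), (nat_lit 29157430474), (nat_lit 26823406178), (nat_lit 27705933527), (nat_lit 28933870902), (nat_lit 29800676498)], (nat_lit 0), (nat_lit 0), (nat_lit 0), (nat_lit 0), (nat_lit 0), (nat_lit 0), [], [(nat_lit 2), (nat_lit 44), (nat_lit 203), (nat_lit 0), (nat_lit 6)]⟩,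
 Rw.none,
 Rw.none⟩))) (.spl (nat_lit 1) (nat_lit 220) (.trX (nat_lit 3) (nat_lit 0) (nat_lit 1) (nat_lit 72) (nat_lit 63) (nat_lit 100) (nat_lit 360) (.leaf ⟨(nat_lit 950), (nat_lit 27), (nat_lit 0), (nat_lit 23), (nat_lit 1272), (nat_lit 3251), (nat_lit 467), (nat_lit 308), (nat_lit 0), (nat_lit 0), (nat_lit 397600), [((nat_lit 360), [((nat_lit 21), (nat_lit 1), (nat_lit 862)), ((nat_lit 39), (nat_lit 2), (nat_lit 88))])], ⟨(nat_lit 8), false, true, true, (nat_lit 288), (nat_lit 3162), (nat_lit 3873), [(nat_lit 1671770), (nat_lit 1660704), (nat_lit 1715356), (nat_lit 1705013), (nat_lit 1736292), (nat_lit 1721657), (nat_lit 1779878), (nat_lit 1765967)]⟩, ⟨(nat_lit 4), false, false, true, (nat_lit 174), (nat_lit 3162), (nat_lit 3873), [(nat_lit 1327361), (nat_lit 1333774), (nat_lit 1349127), (nat_lit 1355902), (nat_lit 1520934), (nat_lit 1516642), (nat_lit 1542727), (nat_lit 1538797)]⟩, (nat_lit 5155404), (nat_lit 37480655), (nat_lit 20411897), (nat_lit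 9107448), (nat_lit 4), (nat_lit 0), [⟨(nat_lit 1), (nat_lit 63), (nat_lit 72), (nat_lit 100), (nat_lit 255661459)⟩], [], [], [],
 ⟨⟨[(nat_lit 40), (nat_lit 60), (nat_lit 80)], [(nat_lit 0), (nat_lit 398), (nat_lit 992)], [((nat_lit 0), (nat_lit 0), (nat_lit 0)), ((nat_lit 1000), (nat_lit 814), (nat_lit 310)), ((nat_lit 1000), (nat_lit 752), (nat_lit 464))], ((nat_lit 73), (nat_lit 100), (nat_lit 55))⟩, (nat_lit 0), (nat_lit 87), (nat_lit 87), (nat_lit 0), (nat_lit 0), [(nat_lit 1377157153), (nat_lit 1588710343), (nat_lit 1588372800)], [(nat_lit 0), (nat_lit 0), (nat_lit 0)], [(nat_lit 24652667309), (nat_lit 25675720841), (nat_lit 26642376082), (nat_lit 27713992236), (nat_lit 26499263132), (nat_lit 27363901559), (nat_lit 28172815266), (nat_lit 29118908017)], (nat_lit 0), (nat_lit 0), (nat_lit 0), (nat_lit 0), (nat_lit 0), (nat_lit 0), [], [(nat_lit 2), (nat_lit 44), (nat_lit 272), (nat_lit 60), (nat_lit 10)]⟩,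
 ⟨⟨[(nat_lit 120), (nat_lit 160), (nat_lit 180)], [(nat_lit 0), (nat_lit 533), (nat_lit 2066)], [((nat_lit 0), (nat_lit 0), (nat_lit 0)), ((nat_lit 960), (nat_lit 1000), (nat_lit 200)), ((nat_lit 615), (nat_lit 1000), (nat_lit 729))], ((nat_lit 100), (nat_lit 79), (nat_lit 55))⟩, (nat_lit 342137), (nat_lit 969), (nat_lit 969), (nat_lit 0), (nat_lit 1402848), [(nat_lit 398400000), (nat_lit 593600000), (nat_lit 702900000)], [], [(nat_lit 2049088146), (nat_lit 2019277813), (nat_lit 2132786326), (nat_lit 2129603178), (nat_lit 1924431767), (nat_lit 1801106223), (nat_lit 1905311716), (nat_lit 1900211780)], (nat_lit 1271251), (nat_lit 1271251), (nat_lit 1271251), (nat_lit 1271251), (nat_lit 0), (nat_lit 2754376), [(nat_lit 1695001), (nat_lit 1271251), (nat_lit 1271251)], [(nat_lit 28), (nat_lit 65), (nat_lit 483), (nat_lit 250), (nat_lit 11)]⟩,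
 ⟨⟨[(nat_lit 120), (nat_lit 160), (nat_lit 180)], [(nat_lit 0), (nat_lit 0), (nat_lit 1613)], [((nat_lit 0), (nat_lit 0), (nat_lit 0)), ((nat_lit 0), (nat_lit 0), (nat_lit 0)), ((nat_lit 620), (nat_lit 1000), (nat_lit 670))], ((nat_lit 100), (nat_lit 73), (nat_lit 55))⟩, (nat_lit 10010), (nat_lit 300), (nat_lit 1336), (nat_lit 1706600), (nat_lit 2010311), [(nat_lit 183264000), (nat_lit 273056000), (nat_lit 323334000)], [], [(nat_lit 1329426972), (nat_lit 1319900731), (nat_lit 1238767840), (nat_lit 1227285057), (nat_lit 1402241908), (nat_lit 1489924221), (nat_lit 1872352110), (nat_lit 1965251423)], (nat_lit 1100000), (nat_lit 1271251), (nat_lit 780000), (nat_lit 1762501), (nat_lit 0), (nat_lit 2754376), [(nat_lit 1695001), (nat_lit 1271251), (nat_lit 1271251)], [(nat_lit 28), (nat_lit 65), (nat_lit 456), (nat_lit 225), (nat_lit 11)]⟩⟩)) (.leaf ⟨(nat_lit 844), (nat_lit 102), (nat_lit 0), (nat_lit 54), (nat_lit 0), (nat_lit 2935), (nat_lit 1203), (nat_lit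 577), (nat_lit 0), (nat_lit 0), (nat_lit 609850), [((nat_lit 360), [((nat_lit 21), (nat_lit 0), (nat_lit 181)), ((nat_lit 39), (nat_lit 2), (nat_lit 246)), ((nat_lit 21), (nat_lit 2), (nat_lit 417))])], ⟨(nat_lit 8), false, true, true, (nat_lit 304), (nat_lit 3162), (nat_lit 3873), [(nat_lit 1715356), (nat_lit 1705013), (nat_lit 1737150), (nat_lit 1727168), (nat_lit 1796008), (nat_lit 1781205), (nat_lit 1817802), (nat_lit 1803360)]⟩, ⟨(nat_lit 4), false, false, true, (nat_lit 174), (nat_lit 3162), (nat_lit 3873), [(nat_lit 1327361), (nat_lit 1333774), (nat_lit 1349127), (nat_lit 1355902), (nat_lit 1520934), (nat_lit 1516642), (nat_lit 1542727), (nat_lit 1538797)]⟩, (nat_lit 5193110), (nat_lit 36265974), (nat_lit 21840657), (nat_lit 8893369), (nat_lit 4), (nat_lit 0), [⟨(nat_lit 1), (nat_lit 65), (nat_lit 67), (nat_lit 100), (nat_lit 195459984)⟩], [], [], [],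
 ⟨⟨[(nat_lit 40), (nat_lit 60), (nat_lit 80)], [(nat_lit 0), (nat_lit 398), (nat_lit 992)], [((nat_lit 0), (nat_lit 0), (nat_lit 0)), ((nat_lit 1000), (nat_lit 814), (nat_lit 310)), ((nat_lit 1000), (nat_lit 752), (nat_lit 464))], ((nat_lit 73), (nat_lit 100), (nat_lit 55))⟩, (nat_lit 2371), (nat_lit 91), (nat_lit 91), (nat_lit 0), (nat_lit 0), [(nat_lit 1407100010), (nat_lit 1404812827), (nat_lit 1118099200)], [(nat_lit 0), (nat_lit 0), (nat_lit 0)], [(nat_lit 24532666038), (nat_lit 25514945458), (nat_lit 26881593956), (nat_lit 27795755717), (nat_lit 26451286793), (nat_lit 27285533288), (nat_lit 28451107447), (nat_lit 29237351802)], (nat_lit 0), (nat_lit 0), (nat_lit 0), (nat_lit 0), (nat_lit 0), (nat_lit 0), [], [(nat_lit 2), (nat_lit 44), (nat_lit 272), (nat_lit 60), (nat_lit 10)]⟩,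
 ⟨⟨[(nat_lit 100), (nat_lit 140), (nat_lit 160)], [(nat_lit 0), (nat_lit 508), (nat_lit 1689)], [((nat_lit 0), (nat_lit 0), (nat_lit 0)), ((nat_lit 1000), (nat_lit 1000), (nat_lit 198)), ((nat_lit 811), (nat_lit 1000), (nat_lit 671))], ((nat_lit 100), (nat_lit 89), (nat_lit 55))⟩, (nat_lit 1161605), (nat_lit 729), (nat_lit 729), (nat_lit 0), (nat_lit 1047508), [(nat_lit 975000000), (nat_lit 1535352000), (nat_lit 1852032000)], [], [(nat_lit 5886572781), (nat_lit 5878463660), (nat_lit 6057883859), (nat_lit 6046480278), (nat_lit 5425336272), (nat_lit 5402804801), (nat_lit 5708896974), (nat_lit 5719764378)], (nat_lit 1271251), (nat_lit 1271251), (nat_lit 1271251), (nat_lit 1271251), (nat_lit 0), (nat_lit 2754376), [(nat_lit 1412501), (nat_lit 1271251), (nat_lit 1271251)], [(nat_lit 23), (nat_lit 62), (nat_lit 401), (nat_lit 175), (nat_lit 10)]⟩,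
 ⟨⟨[(nat_lit 120), (nat_lit 160), (nat_lit 180)], [(nat_lit 0), (nat_lit 0), (nat_lit 1613)], [((nat_lit 0), (nat_lit 0), (nat_lit 0)), ((nat_lit 0), (nat_lit 0), (nat_lit 0)), ((nat_lit 620), (nat_lit 1000), (nat_lit 670))], ((nat_lit 100), (nat_lit 73), (nat_lit 55))⟩, (nat_lit 23502), (nat_lit 300), (nat_lit 1449), (nat_lit 4006800), (nat_lit 2249913), [(nat_lit 430272000), (nat_lit 641088000), (nat_lit 759132000)], [], [(nat_lit 3621280130), (nat_lit 3585942213), (nat_lit 3388986024), (nat_lit 3353525553), (nat_lit 3130133861), (nat_lit 3301870851), (nat_lit 4053712855), (nat_lit 4235223251)], (nat_lit 1100000), (nat_lit 1271251), (nat_lit 780000), (nat_lit 1762501), (nat_lit 0), (nat_lit 2754376), [(nat_lit 1695001), (nat_lit 1271251), (nat_lit 1271251)], [(nat_lit 28), (nat_lit 65), (nat_lit 464), (nat_lit 225), (nat_lit 11)]⟩⟩))))))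
noncomputable def c7_20 : Tr Lf :=
 (.spl (nat_lit 5) (nat_lit 120) (.spl (nat_lit 0) (nat_lit 350) (.leaf ⟨(nat_lit 457), (nat_lit 447), (nat_lit 0), (nat_lit 96), (nat_lit 0), (nat_lit 4942), (nat_lit 4873), (nat_lit 1416), (nat_lit 0), (nat_lit 0), (nat_lit 245200), [((nat_lit 350), [((nat_lit 21), (nat_lit 0), (nat_lit 76)), ((nat_lit 21), (nat_lit 1), (nat_lit 12)), ((nat_lit 39), (nat_lit 2), (nat_lit 369))])], ⟨(nat_lit 5), false, true, true, (nat_lit 258), (nat_lit 3535), (nat_lit 3873), [(nat_lit 1478205), (nat_lit 1478046), (nat_lit 1543574), (nat_lit 1543892), (nat_lit 1752422), (nat_lit 1744782), (nat_lit 1817802), (nat_lit 1810640)]⟩, ⟨(nat_lit 3), false, false, true, (nat_lit 165), (nat_lit 3535), (nat_lit 3873), [(nat_lit 1283782), (nat_lit 1286665), (nat_lit 1349157), (nat_lit 1352518), (nat_lit 1477347), (nat_lit 1474949), (nat_lit 1542727), (nat_lit 1540807)]⟩, (nat_lit 4977426), (nat_lit 40229103), (nat_lit 17961489), (nat_lit 8809408),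 (nat_lit 3), (nat_lit 0), [], [], [], [],
 ⟨⟨[(nat_lit 40), (nat_lit 60), (nat_lit 80)], [(nat_lit 0), (nat_lit 398), (nat_lit 992)], [((nat_lit 0), (nat_lit 0), (nat_lit 0)), ((nat_lit 1000), (nat_lit 814), (nat_lit 310)), ((nat_lit 1000), (nat_lit 752), (nat_lit 464))], ((nat_lit 73), (nat_lit 100), (nat_lit 55))⟩, (nat_lit 80077), (nat_lit 201), (nat_lit 201), (nat_lit 0), (nat_lit 414015), [(nat_lit 1700264641), (nat_lit 2342308550), (nat_lit 3026158050)], [(nat_lit 0), (nat_lit 0), (nat_lit 0)], [(nat_lit 20529429717), (nat_lit 21186086911), (nat_lit 29514941619), (nat_lit 30175821512), (nat_lit 22664100321), (nat_lit 23343430571), (nat_lit 30394709072), (nat_lit 30942118749)], (nat_lit 1271251), (nat_lit 1271251), (nat_lit 1271251), (nat_lit 1271251), (nat_lit 780000), (nat_lit 1762501), [(nat_lit 490000), (nat_lit 780000), (nat_lit 1100000)], [(nat_lit 2), (nat_lit 44), (nat_lit 272), (nat_lit 60), (nat_lit 11)]⟩,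
 ⟨⟨[(nat_lit 120), (nat_lit 160), (nat_lit 180)], [(nat_lit 0), (nat_lit 533), (nat_lit 2066)], [((nat_lit 0), (nat_lit 0), (nat_lit 0)), ((nat_lit 960), (nat_lit 1000), (nat_lit 200)), ((nat_lit 615), (nat_lit 1000), (nat_lit 729))], ((nat_lit 100), (nat_lit 79), (nat_lit 55))⟩, (nat_lit 2972274), (nat_lit 494), (nat_lit 494), (nat_lit 0), (nat_lit 331118), [(nat_lit 4326624000), (nat_lit 6446496000), (nat_lit 7633494000)], [], [(nat_lit 21636366256), (nat_lit 21844438018), (nat_lit 24340649540), (nat_lit 24279205768), (nat_lit 21562321446), (nat_lit 18718048369), (nat_lit 20704855702), (nat_lit 20489559906)], (nat_lit 1271251), (nat_lit 1271251), (nat_lit 1271251), (nat_lit 1271251), (nat_lit 0), (nat_lit 780000), [(nat_lit 1695001), (nat_lit 1271251), (nat_lit 1271251)], [(nat_lit 28), (nat_lit 65), (nat_lit 428), (nat_lit 200), (nat_lit 10)]⟩,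
 ⟨⟨[(nat_lit 140), (nat_lit 180), (nat_lit 200)], [(nat_lit 0), (nat_lit 0), (nat_lit 2835)], [((nat_lit 0), (nat_lit 0), (nat_lit 0)), ((nat_lit 0), (nat_lit 0), (nat_lit 0)), ((nat_lit 363), (nat_lit 1000), (nat_lit 798))], ((nat_lit 0), (nat_lit 0), (nat_lit 0))⟩, (nat_lit 26413), (nat_lit 300), (nat_lit 819), (nat_lit 7497600), (nat_lit 639198), [(nat_lit 944832000), (nat_lit 1349568000), (nat_lit 1574400000)], [], [(nat_lit 7226416929), (nat_lit 6562768068), (nat_lit 6303340512), (nat_lit 5980205184), (nat_lit 5653258032), (nat_lit 5353293354), (nat_lit 5464213488), (nat_lit 6446510544)], (nat_lit 780000), (nat_lit 1271251), (nat_lit 780000), (nat_lit 1762501), (nat_lit 0), (nat_lit 780000), [(nat_lit 1977501), (nat_lit 1271251), (nat_lit 1271251)], [(nat_lit 32), (nat_lit 67), (nat_lit 373), (nat_lit 150), (nat_lit 8)]⟩⟩) (.trX (nat_lit 3) (nat_lit 0) (nat_lit 1) (nat_lit 68) (nat_lit 61) (nat_lit 100) (nat_lit 360) (.leaf ⟨(nat_lit 539), (nat_lit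 370), (nat_lit 0), (nat_lit 91), (nat_lit 0), (nat_lit 4210), (nat_lit 4379), (nat_lit 1342), (nat_lit 0), (nat_lit 0), (nat_lit 167150), [((nat_lit 360), [((nat_lit 21), (nat_lit 0), (nat_lit 323)), ((nat_lit 21), (nat_lit 1), (nat_lit 216))])], ⟨(nat_lit 5), false, true, true, (nat_lit 254), (nat_lit 3162), (nat_lit 3536), [(nat_lit 1478046), (nat_lit 1477844), (nat_lit 1543888), (nat_lit 1544293), (nat_lit 1729092), (nat_lit 1721657), (nat_lit 1794949), (nat_lit 1788122)]⟩, ⟨(nat_lit 3), false, false, true, (nat_lit 166), (nat_lit 3162), (nat_lit 3536), [(nat_lit 1286665), (nat_lit 1289472), (nat_lit 1352511), (nat_lit 1355925), (nat_lit 1474949), (nat_lit 1472332), (nat_lit 1540807), (nat_lit 1538797)]⟩, (nat_lit 4958174), (nat_lit 40581676), (nat_lit 17544576), (nat_lit 8873748), (nat_lit 3), (nat_lit 0), [], [], [], [],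
 ⟨⟨[(nat_lit 40), (nat_lit 60), (nat_lit 80)], [(nat_lit 0), (nat_lit 600), (nat_lit 1195)], [((nat_lit 0), (nat_lit 0), (nat_lit 0)), ((nat_lit 1000), (nat_lit 725), (nat_lit 454)), ((nat_lit 1000), (nat_lit 720), (nat_lit 465))], ((nat_lit 69), (nat_lit 100), (nat_lit 56))⟩, (nat_lit 947546), (nat_lit 215), (nat_lit 215), (nat_lit 0), (nat_lit 469284), [(nat_lit 1613905204), (nat_lit 2330435213), (nat_lit 3115954800)], [(nat_lit 0), (nat_lit 0), (nat_lit 0)], [(nat_lit 20838224380), (nat_lit 21453340616), (nat_lit 28468513973), (nat_lit 29098055560), (nat_lit 22996292289), (nat_lit 23660648060), (nat_lit 29618645383), (nat_lit 30143376070)], (nat_lit 1271251), (nat_lit 1271251), (nat_lit 1271251), (nat_lit 1271251), (nat_lit 780000), (nat_lit 1762501), [(nat_lit 490000), (nat_lit 780000), (nat_lit 1100000)], [(nat_lit 2), (nat_lit 44), (nat_lit 272), (nat_lit 60), (nat_lit 11)]⟩,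
 ⟨⟨[(nat_lit 120), (nat_lit 160), (nat_lit 180)], [(nat_lit 0), (nat_lit 533), (nat_lit 2066)], [((nat_lit 0), (nat_lit 0), (nat_lit 0)), ((nat_lit 960), (nat_lit 1000), (nat_lit 200)), ((nat_lit 615), (nat_lit 1000), (nat_lit 729))], ((nat_lit 100), (nat_lit 79), (nat_lit 55))⟩, (nat_lit 2832226), (nat_lit 559), (nat_lit 559), (nat_lit 0), (nat_lit 417425), [(nat_lit 3673248000), (nat_lit 5472992000), (nat_lit 6480738000)], [], [(nat_lit 18125537860), (nat_lit 18081172900), (nat_lit 19982733280), (nat_lit 19928469254), (nat_lit 18274962929), (nat_lit 15404302508), (nat_lit 16570134834), (nat_lit 16505784976)], (nat_lit 1271251), (nat_lit 1271251), (nat_lit 1271251), (nat_lit 1271251), (nat_lit 0), (nat_lit 780000), [(nat_lit 1695001), (nat_lit 1271251), (nat_lit 1271251)], [(nat_lit 28), (nat_lit 65), (nat_lit 428), (nat_lit 200), (nat_lit 10)]⟩,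
 ⟨⟨[(nat_lit 140), (nat_lit 180), (nat_lit 200)], [(nat_lit 0), (nat_lit 0), (nat_lit 2835)], [((nat_lit 0), (nat_lit 0), (nat_lit 0)), ((nat_lit 0), (nat_lit 0), (nat_lit 0)), ((nat_lit 363), (nat_lit 1000), (nat_lit 798))], ((nat_lit 0), (nat_lit 0), (nat_lit 0))⟩, (nat_lit 25037), (nat_lit 300), (nat_lit 867), (nat_lit 7107101), (nat_lit 755977), [(nat_lit 895622000), (nat_lit 1279278000), (nat_lit 1492400000)], [], [(nat_lit 6849558758), (nat_lit 6221198187), (nat_lit 5975344880), (nat_lit 5668730235), (nat_lit 5359228203), (nat_lit 5074955276), (nat_lit 5179448784), (nat_lit 6110444412)], (nat_lit 780000), (nat_lit 1271251), (nat_lit 780000), (nat_lit 1762501), (nat_lit 0), (nat_lit 780000), [(nat_lit 1977501), (nat_lit 1271251), (nat_lit 1271251)], [(nat_lit 32), (nat_lit 67), (nat_lit 373), (nat_lit 150), (nat_lit 8)]⟩⟩))) (.spl (nat_lit 1) (nat_lit 220) (.trX (nat_lit 3) (nat_lit 0) (nat_lit 1) (nat_lit 72) (nat_lit 63) (nat_lit 100) (nat_lit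 360) (.leaf ⟨(nat_lit 798), (nat_lit 123), (nat_lit 0), (nat_lit 79), (nat_lit 0), (nat_lit 3260), (nat_lit 1862), (nat_lit 829), (nat_lit 0), (nat_lit 0), (nat_lit 451850), [((nat_lit 360), [((nat_lit 21), (nat_lit 0), (nat_lit 77)), ((nat_lit 39), (nat_lit 2), (nat_lit 721))])], ⟨(nat_lit 5), false, true, true, (nat_lit 250), (nat_lit 3162), (nat_lit 3873), [(nat_lit 1478205), (nat_lit 1477844), (nat_lit 1521764), (nat_lit 1522126), (nat_lit 1736292), (nat_lit 1721657), (nat_lit 1779878), (nat_lit 1765967)]⟩, ⟨(nat_lit 3), false, false, true, (nat_lit 165), (nat_lit 3162), (nat_lit 3873), [(nat_lit 1283782), (nat_lit 1289472), (nat_lit 1349127), (nat_lit 1355902), (nat_lit 1477347), (nat_lit 1472332), (nat_lit 1542727), (nat_lit 1538797)]⟩, (nat_lit 4939551), (nat_lit 40882335), (nat_lit 17210394), (nat_lit 8907271), (nat_lit 3), (nat_lit 0), [], [], [], [],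
 ⟨⟨[(nat_lit 40), (nat_lit 60), (nat_lit 80)], [(nat_lit 0), (nat_lit 398), (nat_lit 992)], [((nat_lit 0), (nat_lit 0), (nat_lit 0)), ((nat_lit 1000), (nat_lit 814), (nat_lit 310)), ((nat_lit 1000), (nat_lit 752), (nat_lit 464))], ((nat_lit 73), (nat_lit 100), (nat_lit 55))⟩, (nat_lit 978887), (nat_lit 203), (nat_lit 203), (nat_lit 0), (nat_lit 424134), [(nat_lit 1431391220), (nat_lit 1610649367), (nat_lit 1743087033)], [(nat_lit 0), (nat_lit 0), (nat_lit 0)], [(nat_lit 20880590341), (nat_lit 21922820331), (nat_lit 26678218220), (nat_lit 27726981360), (nat_lit 23127570040), (nat_lit 24073249169), (nat_lit 28344467980), (nat_lit 29128522420)], (nat_lit 1271251), (nat_lit 1271251), (nat_lit 1271251), (nat_lit 1271251), (nat_lit 780000), (nat_lit 1762501), [(nat_lit 490000), (nat_lit 780000), (nat_lit 1100000)], [(nat_lit 2), (nat_lit 44), (nat_lit 272), (nat_lit 60), (nat_lit 11)]⟩,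
 ⟨⟨[(nat_lit 120), (nat_lit 160), (nat_lit 180)], [(nat_lit 0), (nat_lit 533), (nat_lit 2066)], [((nat_lit 0), (nat_lit 0), (nat_lit 0)), ((nat_lit 960), (nat_lit 1000), (nat_lit 200)), ((nat_lit 615), (nat_lit 1000), (nat_lit 729))], ((nat_lit 100), (nat_lit 79), (nat_lit 55))⟩, (nat_lit 1409693), (nat_lit 597), (nat_lit 597), (nat_lit 0), (nat_lit 723131), [(nat_lit 1609536000), (nat_lit 2398144000), (nat_lit 2839716000)], [], [(nat_lit 7540041990), (nat_lit 6795754252), (nat_lit 7225685998), (nat_lit 7141133471), (nat_lit 9533957413), (nat_lit 7766776039), (nat_lit 7815682525), (nat_lit 7812996343)], (nat_lit 1271251), (nat_lit 1271251), (nat_lit 1271251), (nat_lit 1271251), (nat_lit 780000), (nat_lit 3072501), [(nat_lit 1695001), (nat_lit 1271251), (nat_lit 1271251)], [(nat_lit 28), (nat_lit 65), (nat_lit 483), (nat_lit 250), (nat_lit 11)]⟩,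
 ⟨⟨[(nat_lit 140), (nat_lit 180), (nat_lit 200)], [(nat_lit 0), (nat_lit 0), (nat_lit 2835)], [((nat_lit 0), (nat_lit 0), (nat_lit 0)), ((nat_lit 0), (nat_lit 0), (nat_lit 0)), ((nat_lit 363), (nat_lit 1000), (nat_lit 798))], ((nat_lit 0), (nat_lit 0), (nat_lit 0))⟩, (nat_lit 21735), (nat_lit 300), (nat_lit 1342), (nat_lit 6169907), (nat_lit 2019146), [(nat_lit 777518000), (nat_lit 1110582000), (nat_lit 1295600000)], [], [(nat_lit 5908402746), (nat_lit 5726565311), (nat_lit 5558457978), (nat_lit 5377816156), (nat_lit 5276334849), (nat_lit 5092530049), (nat_lit 4920917332), (nat_lit 5248893715)], (nat_lit 780000), (nat_lit 1271251), (nat_lit 780000), (nat_lit 1762501), (nat_lit 780000), (nat_lit 3072501), [(nat_lit 1977501), (nat_lit 1271251), (nat_lit 1271251)], [(nat_lit 32), (nat_lit 67), (nat_lit 456), (nat_lit 225), (nat_lit 10)]⟩⟩)) (.leaf ⟨(nat_lit 451), (nat_lit 433), (nat_lit 0), (nat_lit 116), (nat_lit 0), (nat_lit 4401), (nat_lit 3891), (nat_lit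 1252), (nat_lit 0), (nat_lit 0), (nat_lit 245750), [((nat_lit 360), [((nat_lit 21), (nat_lit 0), (nat_lit 71)), ((nat_lit 39), (nat_lit 2), (nat_lit 380))])], ⟨(nat_lit 5), false, true, true, (nat_lit 267), (nat_lit 3162), (nat_lit 3873), [(nat_lit 1521764), (nat_lit 1522126), (nat_lit 1543529), (nat_lit 1544252), (nat_lit 1796008), (nat_lit 1781205), (nat_lit 1817802), (nat_lit 1803360)]⟩, ⟨(nat_lit 3), false, false, true, (nat_lit 165), (nat_lit 3162), (nat_lit 3873), [(nat_lit 1283782), (nat_lit 1289472), (nat_lit 1349127), (nat_lit 1355902), (nat_lit 1477347), (nat_lit 1472332), (nat_lit 1542727), (nat_lit 1538797)]⟩, (nat_lit 5011670), (nat_lit 39590609), (nat_lit 18685709), (nat_lit 8723682), (nat_lit 3), (nat_lit 0), [], [], [⟨(nat_lit 1), (nat_lit 40), (nat_lit 100), (nat_lit 98), (nat_lit 36035455)⟩], [],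
 ⟨⟨[(nat_lit 40), (nat_lit 60), (nat_lit 80)], [(nat_lit 0), (nat_lit 398), (nat_lit 992)], [((nat_lit 0), (nat_lit 0), (nat_lit 0)), ((nat_lit 1000), (nat_lit 814), (nat_lit 310)), ((nat_lit 1000), (nat_lit 752), (nat_lit 464))], ((nat_lit 73), (nat_lit 100), (nat_lit 55))⟩, (nat_lit 896450), (nat_lit 219), (nat_lit 219), (nat_lit 0), (nat_lit 473018), [(nat_lit 1658157222), (nat_lit 2349825611), (nat_lit 3035975600)], [(nat_lit 0), (nat_lit 0), (nat_lit 0)], [(nat_lit 20652178700), (nat_lit 21851437674), (nat_lit 28769356112), (nat_lit 30016994570), (nat_lit 22776021974), (nat_lit 23774328586), (nat_lit 29843035480), (nat_lit 30882439461)], (nat_lit 1271251), (nat_lit 1271251), (nat_lit 1271251), (nat_lit 1271251), (nat_lit 780000), (nat_lit 1762501), [(nat_lit 490000), (nat_lit 780000), (nat_lit 1100000)], [(nat_lit 2), (nat_lit 44), (nat_lit 272), (nat_lit 60), (nat_lit 11)]⟩,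
 ⟨⟨[(nat_lit 100), (nat_lit 140), (nat_lit 160)], [(nat_lit 0), (nat_lit 508), (nat_lit 1689)], [((nat_lit 0), (nat_lit 0), (nat_lit 0)), ((nat_lit 1000), (nat_lit 1000), (nat_lit 198)), ((nat_lit 811), (nat_lit 1000), (nat_lit 671))], ((nat_lit 100), (nat_lit 89), (nat_lit 55))⟩, (nat_lit 4267983), (nat_lit 416), (nat_lit 416), (nat_lit 0), (nat_lit 571538), [(nat_lit 3431250000), (nat_lit 5403258000), (nat_lit 6517728000)], [], [(nat_lit 18362292581), (nat_lit 16288056900), (nat_lit 18159081015), (nat_lit 18206538823), (nat_lit 18444035051), (nat_lit 18442399494), (nat_lit 20013079280), (nat_lit 20052886772)], (nat_lit 1271251), (nat_lit 1271251), (nat_lit 1271251), (nat_lit 1271251), (nat_lit 780000), (nat_lit 3072501), [(nat_lit 1412501), (nat_lit 1271251), (nat_lit 1271251)], [(nat_lit 23), (nat_lit 62), (nat_lit 538), (nat_lit 300), (nat_lit 13)]⟩,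
 ⟨⟨[(nat_lit 140), (nat_lit 180), (nat_lit 200)], [(nat_lit 0), (nat_lit 0), (nat_lit 2835)], [((nat_lit 0), (nat_lit 0), (nat_lit 0)), ((nat_lit 0), (nat_lit 0), (nat_lit 0)), ((nat_lit 363), (nat_lit 1000), (nat_lit 798))], ((nat_lit 0), (nat_lit 0), (nat_lit 0))⟩, (nat_lit 31915), (nat_lit 300), (nat_lit 1483), (nat_lit 9059605), (nat_lit 2315469), [(nat_lit 1141672000), (nat_lit 1630728000), (nat_lit 1902400000)], [], [(nat_lit 8496782380), (nat_lit 8220020404), (nat_lit 7963840369), (nat_lit 7691578930), (nat_lit 7511036520), (nat_lit 7231911366), (nat_lit 6970296216), (nat_lit 7793907804)], (nat_lit 780000), (nat_lit 1271251), (nat_lit 780000), (nat_lit 1762501), (nat_lit 780000), (nat_lit 3072501), [(nat_lit 1977501), (nat_lit 1271251), (nat_lit 1271251)], [(nat_lit 32), (nat_lit 67), (nat_lit 474), (nat_lit 225), (nat_lit 10)]⟩⟩)))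
noncomputable def c7_21 : Tr Lf :=
 (.spl (nat_lit 2) (nat_lit 160) (.trX (nat_lit 4) (nat_lit 0) (nat_lit 2) (nat_lit 73) (nat_lit 85) (nat_lit 100) (nat_lit 320) (.leaf ⟨(nat_lit 1000), (nat_lit 0), (nat_lit 0), (nat_lit 0), (nat_lit 2667), (nat_lit 3261), (nat_lit 0), (nat_lit 0), (nat_lit 0), (nat_lit 29295), (nat_lit 250000), [((nat_lit 360), [((nat_lit 21), (nat_lit 0), (nat_lit 1000))])], ⟨(nat_lit 5), false, false, true, (nat_lit 216), (nat_lit 3162), (nat_lit 3873), [(nat_lit 1412825), (nat_lit 1411379), (nat_lit 1543529), (nat_lit 1544252), (nat_lit 1541869), (nat_lit 1533286), (nat_lit 1672628), (nat_lit 1666215)]⟩, ⟨(nat_lit 6), false, false, true, (nat_lit 224), (nat_lit 3162), (nat_lit 3873), [(nat_lit 1477347), (nat_lit 1472332), (nat_lit 1520934), (nat_lit 1516642), (nat_lit 1606390), (nat_lit 1594239), (nat_lit 1649977), (nat_lit 1638549)]⟩, (nat_lit 5180659), (nat_lit 39621884), (nat_lit 13314145), (nat_lit 14063971), (nat_lit 0), (nat_lit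 0), [], [⟨(nat_lit 1), (nat_lit 85), (nat_lit 73), (nat_lit 100), (nat_lit 211982823)⟩], [], [],
 ⟨⟨[(nat_lit 40), (nat_lit 60), (nat_lit 80)], [(nat_lit 0), (nat_lit 398), (nat_lit 992)], [((nat_lit 0), (nat_lit 0), (nat_lit 0)), ((nat_lit 1000), (nat_lit 814), (nat_lit 310)), ((nat_lit 1000), (nat_lit 752), (nat_lit 464))], ((nat_lit 73), (nat_lit 100), (nat_lit 55))⟩, (nat_lit 0), (nat_lit 51), (nat_lit 51), (nat_lit 0), (nat_lit 0), [(nat_lit 1558400081), (nat_lit 1595600033), (nat_lit 1969199967)], [(nat_lit 0), (nat_lit 0), (nat_lit 0)], [(nat_lit 22399015479), (nat_lit 23536928780), (nat_lit 24887548252), (nat_lit 25874115469), (nat_lit 25505565822), (nat_lit 26473403814), (nat_lit 27555074750), (nat_lit 28521976348)], (nat_lit 0), (nat_lit 0), (nat_lit 0), (nat_lit 0), (nat_lit 0), (nat_lit 0), [], [(nat_lit 2), (nat_lit 44), (nat_lit 203), (nat_lit 0), (nat_lit 7)]⟩,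
 Rw.none,
 Rw.none⟩)) (.ord (.spl (nat_lit 1) (nat_lit 200) (.leaf ⟨(nat_lit 972), (nat_lit 0), (nat_lit 0), (nat_lit 28), (nat_lit 0), (nat_lit 3259), (nat_lit 393), (nat_lit 324), (nat_lit 0), (nat_lit 353092), (nat_lit 243000), [((nat_lit 360), [((nat_lit 21), (nat_lit 0), (nat_lit 972))])], ⟨(nat_lit 5), false, false, true, (nat_lit 216), (nat_lit 3162), (nat_lit 3873), [(nat_lit 1456412), (nat_lit 1455689), (nat_lit 1499999), (nat_lit 1499999), (nat_lit 1585455), (nat_lit 1577595), (nat_lit 1629042), (nat_lit 1621905)]⟩, ⟨(nat_lit 6), false, false, true, (nat_lit 240), (nat_lit 3162), (nat_lit 3873), [(nat_lit 1520934), (nat_lit 1516642), (nat_lit 1542727), (nat_lit 1538797), (nat_lit 1666107), (nat_lit 1653787), (nat_lit 1687900), (nat_lit 1675942)]⟩, (nat_lit 5268906), (nat_lit 38503564), (nat_lit 13053181), (nat_lit 15443255), (nat_lit 0), (nat_lit 0), [], [⟨(nat_lit 1), (nat_lit 85), (nat_lit 67), (nat_lit 100), (nat_lit 150829751)⟩, ⟨(nat_lit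 1), (nat_lit 77), (nat_lit 72), (nat_lit 100), (nat_lit 3908504)⟩], [], [⟨(nat_lit 0), (nat_lit 83), (nat_lit 100), (nat_lit 98), (nat_lit 18830612)⟩],
 ⟨⟨[(nat_lit 40), (nat_lit 60), (nat_lit 80)], [(nat_lit 0), (nat_lit 398), (nat_lit 992)], [((nat_lit 0), (nat_lit 0), (nat_lit 0)), ((nat_lit 1000), (nat_lit 814), (nat_lit 310)), ((nat_lit 1000), (nat_lit 752), (nat_lit 464))], ((nat_lit 73), (nat_lit 100), (nat_lit 55))⟩, (nat_lit 0), (nat_lit 53), (nat_lit 53), (nat_lit 0), (nat_lit 0), [(nat_lit 1565108864), (nat_lit 1642819263), (nat_lit 2044234337)], [(nat_lit 0), (nat_lit 0), (nat_lit 0)], [(nat_lit 22455675562), (nat_lit 23593280581), (nat_lit 24943937490), (nat_lit 25930261372), (nat_lit 26024119898), (nat_lit 26970376540), (nat_lit 28015079525), (nat_lit 28958866831)], (nat_lit 0), (nat_lit 0), (nat_lit 0), (nat_lit 0), (nat_lit 0), (nat_lit 0), [], [(nat_lit 2), (nat_lit 44), (nat_lit 203), (nat_lit 0), (nat_lit 7)]⟩,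
 ⟨⟨[(nat_lit 120), (nat_lit 160), (nat_lit 180)], [(nat_lit 0), (nat_lit 0), (nat_lit 1613)], [((nat_lit 0), (nat_lit 0), (nat_lit 0)), ((nat_lit 0), (nat_lit 0), (nat_lit 0)), ((nat_lit 620), (nat_lit 1000), (nat_lit 670))], ((nat_lit 100), (nat_lit 73), (nat_lit 55))⟩, (nat_lit 88979), (nat_lit 1187), (nat_lit 1187), (nat_lit 0), (nat_lit 1774163), [(nat_lit 223104000), (nat_lit 332416000), (nat_lit 393624000)], [], [(nat_lit 1222790504), (nat_lit 1210443699), (nat_lit 1236195710), (nat_lit 1216647236), (nat_lit 1875151326), (nat_lit 2107131534), (nat_lit 1185568374), (nat_lit 1425987864)], (nat_lit 1100000), (nat_lit 1442501), (nat_lit 1271251), (nat_lit 1271251), (nat_lit 0), (nat_lit 2825001), [(nat_lit 1695001), (nat_lit 1271251), (nat_lit 1271251)], [(nat_lit 28), (nat_lit 65), (nat_lit 456), (nat_lit 225), (nat_lit 11)]⟩,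
 ⟨⟨[(nat_lit 120), (nat_lit 160), (nat_lit 180)], [(nat_lit 0), (nat_lit 0), (nat_lit 1613)], [((nat_lit 0), (nat_lit 0), (nat_lit 0)), ((nat_lit 0), (nat_lit 0), (nat_lit 0)), ((nat_lit 620), (nat_lit 1000), (nat_lit 670))], ((nat_lit 100), (nat_lit 73), (nat_lit 55))⟩, (nat_lit 12186), (nat_lit 300), (nat_lit 1202), (nat_lit 2077600), (nat_lit 1850052), [(nat_lit 223104000), (nat_lit 332416000), (nat_lit 393624000)], [], [(nat_lit 1629203392), (nat_lit 1613785264), (nat_lit 1611315154), (nat_lit 1594186843), (nat_lit 1495846608), (nat_lit 1596624500), (nat_lit 1267144548), (nat_lit 1251909238)], (nat_lit 1100000), (nat_lit 1271251), (nat_lit 1271251), (nat_lit 1271251), (nat_lit 0), (nat_lit 2825001), [(nat_lit 1695001), (nat_lit 1271251), (nat_lit 1271251)], [(nat_lit 28), (nat_lit 65), (nat_lit 483), (nat_lit 250), (nat_lit 11)]⟩⟩) (.leaf ⟨(nat_lit 951), (nat_lit 17), (nat_lit 0), (nat_lit 32), (nat_lit 0), (nat_lit 3088), (nat_lit 637), (nat_lit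 351), (nat_lit 0), (nat_lit 0), (nat_lit 324600), [((nat_lit 360), [((nat_lit 21), (nat_lit 0), (nat_lit 372)), ((nat_lit 21), (nat_lit 1), (nat_lit 579))])], ⟨(nat_lit 5), false, true, true, (nat_lit 234), (nat_lit 3162), (nat_lit 3873), [(nat_lit 1499999), (nat_lit 1499999), (nat_lit 1543529), (nat_lit 1544252), (nat_lit 1629042), (nat_lit 1621905), (nat_lit 1672628), (nat_lit 1666215)]⟩, ⟨(nat_lit 6), false, false, true, (nat_lit 240), (nat_lit 3162), (nat_lit 3873), [(nat_lit 1520934), (nat_lit 1516642), (nat_lit 1542727), (nat_lit 1538797), (nat_lit 1666107), (nat_lit 1653787), (nat_lit 1687900), (nat_lit 1675942)]⟩, (nat_lit 5367265), (nat_lit 37394462), (nat_lit 14487025), (nat_lit 15118513), (nat_lit 6), (nat_lit 0), [], [⟨(nat_lit 1), (nat_lit 85), (nat_lit 67), (nat_lit 100), (nat_lit 159760478)⟩], [], [⟨(nat_lit 0), (nat_lit 83), (nat_lit 100), (nat_lit 98), (nat_lit 18669585)⟩],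
 ⟨⟨[(nat_lit 40), (nat_lit 60), (nat_lit 80)], [(nat_lit 0), (nat_lit 398), (nat_lit 992)], [((nat_lit 0), (nat_lit 0), (nat_lit 0)), ((nat_lit 1000), (nat_lit 814), (nat_lit 310)), ((nat_lit 1000), (nat_lit 752), (nat_lit 464))], ((nat_lit 73), (nat_lit 100), (nat_lit 55))⟩, (nat_lit 0), (nat_lit 53), (nat_lit 53), (nat_lit 0), (nat_lit 0), [(nat_lit 1422843109), (nat_lit 1564055077), (nat_lit 1839496723)], [(nat_lit 0), (nat_lit 0), (nat_lit 0)], [(nat_lit 22468237606), (nat_lit 23579484514), (nat_lit 24933342286), (nat_lit 25898861026), (nat_lit 25979491505), (nat_lit 26906490127), (nat_lit 27964961882), (nat_lit 28792622426)], (nat_lit 0), (nat_lit 0), (nat_lit 0), (nat_lit 0), (nat_lit 0), (nat_lit 0), [], [(nat_lit 2), (nat_lit 44), (nat_lit 203), (nat_lit 0), (nat_lit 7)]⟩,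
 ⟨⟨[(nat_lit 100), (nat_lit 140), (nat_lit 160)], [(nat_lit 0), (nat_lit 0), (nat_lit 1280)], [((nat_lit 0), (nat_lit 0), (nat_lit 0)), ((nat_lit 0), (nat_lit 0), (nat_lit 0)), ((nat_lit 800), (nat_lit 1000), (nat_lit 600))], ((nat_lit 100), (nat_lit 84), (nat_lit 54))⟩, (nat_lit 176303), (nat_lit 837), (nat_lit 837), (nat_lit 0), (nat_lit 1186501), [(nat_lit 306250000), (nat_lit 482258000), (nat_lit 581728000)], [], [(nat_lit 1666247058), (nat_lit 1656908932), (nat_lit 1724410450), (nat_lit 1721041308), (nat_lit 2538695341), (nat_lit 1965418910), (nat_lit 1849273573), (nat_lit 1859980612)], (nat_lit 1271251), (nat_lit 1271251), (nat_lit 1271251), (nat_lit 1271251), (nat_lit 0), (nat_lit 2825001), [(nat_lit 1412501), (nat_lit 1271251), (nat_lit 1271251)], [(nat_lit 23), (nat_lit 62), (nat_lit 483), (nat_lit 250), (nat_lit 12)]⟩,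
 ⟨⟨[(nat_lit 120), (nat_lit 160), (nat_lit 180)], [(nat_lit 0), (nat_lit 0), (nat_lit 1613)], [((nat_lit 0), (nat_lit 0), (nat_lit 0)), ((nat_lit 0), (nat_lit 0), (nat_lit 0)), ((nat_lit 620), (nat_lit 1000), (nat_lit 670))], ((nat_lit 100), (nat_lit 73), (nat_lit 55))⟩, (nat_lit 13927), (nat_lit 300), (nat_lit 1385), (nat_lit 2374400), (nat_lit 2249991), [(nat_lit 254976000), (nat_lit 379904000), (nat_lit 449856000)], [], [(nat_lit 1945738708), (nat_lit 1926683773), (nat_lit 1904156524), (nat_lit 1886073745), (nat_lit 1701102252), (nat_lit 1811419975), (nat_lit 1490481232), (nat_lit 1471292319)], (nat_lit 1100000), (nat_lit 1271251), (nat_lit 1271251), (nat_lit 1271251), (nat_lit 0), (nat_lit 2825001), [(nat_lit 1695001), (nat_lit 1271251), (nat_lit 1271251)], [(nat_lit 28), (nat_lit 65), (nat_lit 483), (nat_lit 250), (nat_lit 11)]⟩⟩))))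
noncomputable def c7_22 : Tr Lf :=
 (.trX (nat_lit 3) (nat_lit 0) (nat_lit 1) (nat_lit 72) (nat_lit 77) (nat_lit 100) (nat_lit 330) (.spl (nat_lit 0) (nat_lit 350) (.leaf ⟨(nat_lit 980), (nat_lit 0), (nat_lit 0), (nat_lit 20), (nat_lit 1115), (nat_lit 3151), (nat_lit 271), (nat_lit 267), (nat_lit 0), (nat_lit 1282457), (nat_lit 245000), [((nat_lit 350), [((nat_lit 21), (nat_lit 0), (nat_lit 980))])], ⟨(nat_lit 7), false, false, true, (nat_lit 245), (nat_lit 3535), (nat_lit 3873), [(nat_lit 1541869), (nat_lit 1537711), (nat_lit 1607248), (nat_lit 1603569), (nat_lit 1622521), (nat_lit 1616163), (nat_lit 1687900), (nat_lit 1682021)]⟩, ⟨(nat_lit 6), false, false, true, (nat_lit 232), (nat_lit 3535), (nat_lit 3873), [(nat_lit 1477347), (nat_lit 1474949), (nat_lit 1542727), (nat_lit 1540807), (nat_lit 1622521), (nat_lit 1616163), (nat_lit 1687900), (nat_lit 1682021)]⟩, (nat_lit 5381350), (nat_lit 37188022), (nat_lit 15548083), (nat_lit 14263895), (nat_lit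 0), (nat_lit 0), [⟨(nat_lit 1), (nat_lit 77), (nat_lit 72), (nat_lit 100), (nat_lit 165865881)⟩], [⟨(nat_lit 1), (nat_lit 77), (nat_lit 72), (nat_lit 100), (nat_lit 124551222)⟩], [], [⟨(nat_lit 0), (nat_lit 77), (nat_lit 77), (nat_lit 100), (nat_lit 24584239)⟩],
 ⟨⟨[(nat_lit 40), (nat_lit 60), (nat_lit 80)], [(nat_lit 0), (nat_lit 398), (nat_lit 992)], [((nat_lit 0), (nat_lit 0), (nat_lit 0)), ((nat_lit 1000), (nat_lit 814), (nat_lit 310)), ((nat_lit 1000), (nat_lit 752), (nat_lit 464))], ((nat_lit 73), (nat_lit 100), (nat_lit 55))⟩, (nat_lit 0), (nat_lit 56), (nat_lit 56), (nat_lit 0), (nat_lit 0), [(nat_lit 1563192040), (nat_lit 1629328028), (nat_lit 2022795972)], [(nat_lit 0), (nat_lit 0), (nat_lit 0)], [(nat_lit 25061435581), (nat_lit 25548027477), (nat_lit 26927291106), (nat_lit 27366213432), (nat_lit 28107616075), (nat_lit 28516118609), (nat_lit 29650418431), (nat_lit 30069992476)], (nat_lit 0), (nat_lit 0), (nat_lit 0), (nat_lit 0), (nat_lit 0),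 (nat_lit 0), [], [(nat_lit 2), (nat_lit 44), (nat_lit 203), (nat_lit 0), (nat_lit 6)]⟩,
 ⟨⟨[(nat_lit 140), (nat_lit 180), (nat_lit 200)], [(nat_lit 0), (nat_lit 0), (nat_lit 2835)], [((nat_lit 0), (nat_lit 0), (nat_lit 0)), ((nat_lit 0), (nat_lit 0), (nat_lit 0)), ((nat_lit 363), (nat_lit 1000), (nat_lit 798))], ((nat_lit 0), (nat_lit 0), (nat_lit 0))⟩, (nat_lit 32844), (nat_lit 1838), (nat_lit 1838), (nat_lit 0), (nat_lit 3102742), [(nat_lit 196840000), (nat_lit 281160000), (nat_lit 328000000)], [], [(nat_lit 1093094414), (nat_lit 1042704283), (nat_lit 1102360215), (nat_lit 1048685240), (nat_lit 918923388), (nat_lit 866371480), (nat_lit 941830598), (nat_lit 885033602)], (nat_lit 780000), (nat_lit 1271251), (nat_lit 1271251), (nat_lit 1271251), (nat_lit 169688), (nat_lit 2886876), [(nat_lit 1977501), (nat_lit 1271251), (nat_lit 1271251)], [(nat_lit 32), (nat_lit 67), (nat_lit 574), (nat_lit 250), (nat_lit 12)]⟩,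
 ⟨⟨[(nat_lit 140), (nat_lit 180), (nat_lit 200)], [(nat_lit 0), (nat_lit 0), (nat_lit 2835)], [((nat_lit 0), (nat_lit 0), (nat_lit 0)), ((nat_lit 0), (nat_lit 0), (nat_lit 0)), ((nat_lit 363), (nat_lit 1000), (nat_lit 798))], ((nat_lit 0), (nat_lit 0), (nat_lit 0))⟩, (nat_lit 5503), (nat_lit 300), (nat_lit 1855), (nat_lit 1562000), (nat_lit 3102742), [(nat_lit 196840000), (nat_lit 281160000), (nat_lit 328000000)], [], [(nat_lit 1281780824), (nat_lit 1223539903), (nat_lit 1269688865), (nat_lit 1207685691), (nat_lit 1278535812), (nat_lit 1499757143), (nat_lit 1022563119), (nat_lit 996183262)], (nat_lit 780000), (nat_lit 1271251), (nat_lit 1271251), (nat_lit 1271251), (nat_lit 169688), (nat_lit 2886876), [(nat_lit 1977501), (nat_lit 1271251), (nat_lit 1271251)], [(nat_lit 32), (nat_lit 67), (nat_lit 578), (nat_lit 250), (nat_lit 12)]⟩⟩) (.trX (nat_lit 3) (nat_lit 0) (nat_lit 1) (nat_lit 66) (nat_lit 82) (nat_lit 100) (nat_lit 320) (.trX (nat_lit 4) (nat_lit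 0) (nat_lit 2) (nat_lit 66) (nat_lit 82) (nat_lit 100) (nat_lit 320) (.leaf ⟨(nat_lit 1000), (nat_lit 0), (nat_lit 0), (nat_lit 0), (nat_lit 2659), (nat_lit 3157), (nat_lit 0), (nat_lit 0), (nat_lit 0), (nat_lit 1332683409334), (nat_lit 250000), [((nat_lit 360), [((nat_lit 21), (nat_lit 0), (nat_lit 1000))])], ⟨(nat_lit 7), false, false, true, (nat_lit 240), (nat_lit 3162), (nat_lit 3536), [(nat_lit 1537711), (nat_lit 1533286), (nat_lit 1603569), (nat_lit 1599750), (nat_lit 1600472), (nat_lit 1594239), (nat_lit 1666330), (nat_lit 1660704)]⟩, ⟨(nat_lit 6), false, false, true, (nat_lit 227), (nat_lit 3162), (nat_lit 3536), [(nat_lit 1474949), (nat_lit 1472332), (nat_lit 1540807), (nat_lit 1538797), (nat_lit 1600472), (nat_lit 1594239), (nat_lit 1666330), (nat_lit 1660704)]⟩, (nat_lit 5331471), (nat_lit 37823405), (nat_lit 15210781), (nat_lit 13965814), (nat_lit 0), (nat_lit 0), [⟨(nat_lit 1), (nat_lit 82), (nat_lit 66), (nat_lit 100), (nat_lit 225122837)⟩],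 [⟨(nat_lit 1), (nat_lit 82), (nat_lit 66), (nat_lit 100), (nat_lit 221231769)⟩], [], [],
 ⟨⟨[(nat_lit 40), (nat_lit 60), (nat_lit 80)], [(nat_lit 0), (nat_lit 600), (nat_lit 1195)], [((nat_lit 0), (nat_lit 0), (nat_lit 0)), ((nat_lit 1000), (nat_lit 725), (nat_lit 454)), ((nat_lit 1000), (nat_lit 720), (nat_lit 465))], ((nat_lit 69), (nat_lit 100), (nat_lit 56))⟩, (nat_lit 0), (nat_lit 54), (nat_lit 54), (nat_lit 0), (nat_lit 0), [(nat_lit 1558400008), (nat_lit 1595600790), (nat_lit 1969199210)], [(nat_lit 0), (nat_lit 0), (nat_lit 0)], [(nat_lit 25502489535), (nat_lit 25989446433), (nat_lit 26901628919), (nat_lit 27350471908), (nat_lit 28080721741), (nat_lit 28498297252), (nat_lit 29265579124), (nat_lit 29704845108)], (nat_lit 0), (nat_lit 0), (nat_lit 0), (nat_lit 0), (nat_lit 0), (nat_lit 0), [], [(nat_lit 2), (nat_lit 44), (nat_lit 203), (nat_lit 0), (nat_lit 6)]⟩,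
 Rw.none,
 Rw.none⟩)))))
noncomputable def c7_23 : Tr Lf :=
 (.trX (nat_lit 4) (nat_lit 0) (nat_lit 2) (nat_lit 73) (nat_lit 85) (nat_lit 100) (nat_lit 320) (.spl (nat_lit 3) (nat_lit 320) (.spl (nat_lit 2) (nat_lit 140) (.trX (nat_lit 4) (nat_lit 0) (nat_lit 2) (nat_lit 75) (nat_lit 92) (nat_lit 100) (nat_lit 300) (.leaf ⟨(nat_lit 1000), (nat_lit 0), (nat_lit 0), (nat_lit 0), (nat_lit 2617), (nat_lit 3221), (nat_lit 0), (nat_lit 0), (nat_lit 0), (nat_lit 0), (nat_lit 250000), [((nat_lit 360), [((nat_lit 21), (nat_lit 0), (nat_lit 1000))])], ⟨(nat_lit 7), false, true, true, (nat_lit 267), (nat_lit 3162), (nat_lit 3873), [(nat_lit 1607248), (nat_lit 1599750), (nat_lit 1672628), (nat_lit 1666215), (nat_lit 1671770), (nat_lit 1660704), (nat_lit 1737150), (nat_lit 1727168)]⟩, ⟨(nat_lit 6), false, false, true, (nat_lit 213), (nat_lit 3162), (nat_lit 3873), [(nat_lit 1477347), (nat_lit 1472332), (nat_lit 1499140), (nat_lit 1494487), (nat_lit 1574129), (nat_lit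 1563762), (nat_lit 1595923), (nat_lit 1585917)]⟩, (nat_lit 5364007), (nat_lit 36851709), (nat_lit 17793695), (nat_lit 12354596), (nat_lit 0), (nat_lit 0), [], [⟨(nat_lit 1), (nat_lit 92), (nat_lit 75), (nat_lit 100), (nat_lit 194259390)⟩], [], [],
 ⟨⟨[(nat_lit 40), (nat_lit 60), (nat_lit 80)], [(nat_lit 0), (nat_lit 398), (nat_lit 992)], [((nat_lit 0), (nat_lit 0), (nat_lit 0)), ((nat_lit 1000), (nat_lit 814), (nat_lit 310)), ((nat_lit 1000), (nat_lit 752), (nat_lit 464))], ((nat_lit 73), (nat_lit 100), (nat_lit 55))⟩, (nat_lit 0), (nat_lit 52), (nat_lit 52), (nat_lit 0), (nat_lit 0), [(nat_lit 1558400003), (nat_lit 1595600001), (nat_lit 1969199999)], [(nat_lit 0), (nat_lit 0), (nat_lit 0)], [(nat_lit 24936772642), (nat_lit 25918473159), (nat_lit 26381641647), (nat_lit 27286037834), (nat_lit 26931573821), (nat_lit 27807741690), (nat_lit 28203940497), (nat_lit 29126853976)], (nat_lit 0), (nat_lit 0), (nat_lit 0), (nat_lit 0), (nat_lit 0), (nat_lit 0),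 [], [(nat_lit 2), (nat_lit 44), (nat_lit 203), (nat_lit 0), (nat_lit 6)]⟩,
 Rw.none,
 Rw.none⟩)) (.leaf ⟨(nat_lit 943), (nat_lit 31), (nat_lit 0), (nat_lit 26), (nat_lit 0), (nat_lit 3241), (nat_lit 589), (nat_lit 277), (nat_lit 0), (nat_lit 0), (nat_lit 235750), [((nat_lit 360), [((nat_lit 21), (nat_lit 0), (nat_lit 943))])], ⟨(nat_lit 7), false, true, true, (nat_lit 267), (nat_lit 3162), (nat_lit 3873), [(nat_lit 1607248), (nat_lit 1599750), (nat_lit 1672628), (nat_lit 1666215), (nat_lit 1671770), (nat_lit 1660704), (nat_lit 1737150), (nat_lit 1727168)]⟩, ⟨(nat_lit 6), false, false, true, (nat_lit 228), (nat_lit 3162), (nat_lit 3873), [(nat_lit 1499140), (nat_lit 1494487), (nat_lit 1520934), (nat_lit 1516642), (nat_lit 1628183), (nat_lit 1616394), (nat_lit 1649977), (nat_lit 1638549)]⟩, (nat_lit 5449534), (nat_lit 35991629), (nat_lit 17472615), (nat_lit 13535756), (nat_lit 6), (nat_lit 0), [], [⟨(nat_lit 1), (nat_lit 92), (nat_lit 68), (nat_lit 100),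 (nat_lit 172736520)⟩], [], [⟨(nat_lit 0), (nat_lit 83), (nat_lit 83), (nat_lit 100), (nat_lit 3489178)⟩],
 ⟨⟨[(nat_lit 40), (nat_lit 60), (nat_lit 80)], [(nat_lit 0), (nat_lit 398), (nat_lit 992)], [((nat_lit 0), (nat_lit 0), (nat_lit 0)), ((nat_lit 1000), (nat_lit 814), (nat_lit 310)), ((nat_lit 1000), (nat_lit 752), (nat_lit 464))], ((nat_lit 73), (nat_lit 100), (nat_lit 55))⟩, (nat_lit 0), (nat_lit 54), (nat_lit 54), (nat_lit 0), (nat_lit 0), [(nat_lit 1572057279), (nat_lit 1691724881), (nat_lit 2121948519)], [(nat_lit 0), (nat_lit 0), (nat_lit 0)], [(nat_lit 25021942548), (nat_lit 26006076415), (nat_lit 26469191463), (nat_lit 27375684590), (nat_lit 27685465363), (nat_lit 28528280462), (nat_lit 28902166820), (nat_lit 29788731204)], (nat_lit 0), (nat_lit 0), (nat_lit 0), (nat_lit 0), (nat_lit 0), (nat_lit 0), [], [(nat_lit 2), (nat_lit 44), (nat_lit 203), (nat_lit 0), (nat_lit 6)]⟩,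
 ⟨⟨[(nat_lit 120), (nat_lit 160), (nat_lit 180)], [(nat_lit 0), (nat_lit 533), (nat_lit 2066)], [((nat_lit 0), (nat_lit 0), (nat_lit 0)), ((nat_lit 960), (nat_lit 1000), (nat_lit 200)), ((nat_lit 615), (nat_lit 1000), (nat_lit 729))], ((nat_lit 100), (nat_lit 79), (nat_lit 55))⟩, (nat_lit 670982), (nat_lit 1000), (nat_lit 1000), (nat_lit 0), (nat_lit 1500081), [(nat_lit 454176000), (nat_lit 676704000), (nat_lit 801306000)], [], [(nat_lit 1871063340), (nat_lit 1824025209), (nat_lit 1875170133), (nat_lit 1829916562), (nat_lit 2854330233), (nat_lit 2098179690), (nat_lit 2347149401), (nat_lit 2119492788)], (nat_lit 1271251), (nat_lit 1271251), (nat_lit 1271251), (nat_lit 1271251), (nat_lit 169688), (nat_lit 2886876), [(nat_lit 1695001), (nat_lit 1271251), (nat_lit 1271251)], [(nat_lit 28), (nat_lit 65), (nat_lit 483), (nat_lit 250), (nat_lit 11)]⟩,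
 ⟨⟨[(nat_lit 140), (nat_lit 160), (nat_lit 180)], [(nat_lit 0), (nat_lit 304), (nat_lit 1085)], [((nat_lit 0), (nat_lit 0), (nat_lit 0)), ((nat_lit 913), (nat_lit 1000), (nat_lit 217)), ((nat_lit 759), (nat_lit 1000), (nat_lit 463))], ((nat_lit 100), (nat_lit 67), (nat_lit 57))⟩, (nat_lit 53368), (nat_lit 300), (nat_lit 1796), (nat_lit 1827801), (nat_lit 3126600), [(nat_lit 255892000), (nat_lit 308672000), (nat_lit 365508000)], [], [(nat_lit 1494959545), (nat_lit 1474532630), (nat_lit 1464762171), (nat_lit 1443765349), (nat_lit 1676621056), (nat_lit 1755844204), (nat_lit 1205410262), (nat_lit 1287493712)], (nat_lit 936250), (nat_lit 1100000), (nat_lit 1271251), (nat_lit 1271251), (nat_lit 169688), (nat_lit 2886876), [(nat_lit 1977501), (nat_lit 1271251), (nat_lit 1271251)], [(nat_lit 31), (nat_lit 65), (nat_lit 559), (nat_lit 225), (nat_lit 13)]⟩⟩)) (.trZ (nat_lit 3) (nat_lit 4) (nat_lit 5) (nat_lit 100) (nat_lit 82) (nat_lit 76) (nat_lit 60) (.spl (nat_lit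 2) (nat_lit 140) (.trX (nat_lit 4) (nat_lit 0) (nat_lit 2) (nat_lit 75) (nat_lit 92) (nat_lit 100) (nat_lit 300) (.stt (nat_lit 2) (.spl (nat_lit 1) (nat_lit 220) (.trX (nat_lit 3) (nat_lit 0) (nat_lit 1) (nat_lit 72) (nat_lit 63) (nat_lit 100) (nat_lit 360) (.leaf ⟨(nat_lit 945), (nat_lit 55), (nat_lit 0), (nat_lit 0), (nat_lit 3652), (nat_lit 3253), (nat_lit 577), (nat_lit 0), (nat_lit 0), (nat_lit 0), (nat_lit 337800), [((nat_lit 360), [((nat_lit 21), (nat_lit 0), (nat_lit 268)), ((nat_lit 21), (nat_lit 1), (nat_lit 677))])], ⟨(nat_lit 8), true, false, true, (nat_lit 288), (nat_lit 3162), (nat_lit 3873), [(nat_lit 1671770), (nat_lit 1660704), (nat_lit 1715356), (nat_lit 1705013), (nat_lit 1736292), (nat_lit 1721657), (nat_lit 1779878), (nat_lit 1765967)]⟩, ⟨(nat_lit 6), false, false, true, (nat_lit 213), (nat_lit 3162), (nat_lit 3873), [(nat_lit 1477347), (nat_lit 1472332), (nat_lit 1499140), (nat_lit 1494487), (nat_lit 1574129), (nat_lit 1563762),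 (nat_lit 1595923), (nat_lit 1585917)]⟩, (nat_lit 5426416), (nat_lit 35455887), (nat_lit 19541491), (nat_lit 12002622), (nat_lit 6), (nat_lit 0), [⟨(nat_lit 1), (nat_lit 63), (nat_lit 72), (nat_lit 100), (nat_lit 231624576)⟩], [⟨(nat_lit 1), (nat_lit 92), (nat_lit 75), (nat_lit 100), (nat_lit 192043109)⟩], [⟨(nat_lit 1), (nat_lit 35), (nat_lit 100), (nat_lit 94), (nat_lit 12376592)⟩], [],
 ⟨⟨[(nat_lit 40), (nat_lit 60), (nat_lit 80)], [(nat_lit 0), (nat_lit 398), (nat_lit 992)], [((nat_lit 0), (nat_lit 0), (nat_lit 0)), ((nat_lit 1000), (nat_lit 814), (nat_lit 310)), ((nat_lit 1000), (nat_lit 752), (nat_lit 464))], ((nat_lit 73), (nat_lit 100), (nat_lit 55))⟩, (nat_lit 0), (nat_lit 61), (nat_lit 61), (nat_lit 0), (nat_lit 0), [(nat_lit 1399349303), (nat_lit 1670513543), (nat_lit 1788752800)], [(nat_lit 0), (nat_lit 0), (nat_lit 0)], [(nat_lit 26719337140), (nat_lit 27584167921), (nat_lit 28375254907), (nat_lit 29202710307), (nat_lit 28458021205), (nat_lit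 29257262955), (nat_lit 30000450579), (nat_lit 30842110368)], (nat_lit 0), (nat_lit 0), (nat_lit 0), (nat_lit 0), (nat_lit 0), (nat_lit 0), [], [(nat_lit 2), (nat_lit 44), (nat_lit 203), (nat_lit 0), (nat_lit 6)]⟩,
 ⟨⟨[(nat_lit 120), (nat_lit 160), (nat_lit 180)], [(nat_lit 0), (nat_lit 533), (nat_lit 2066)], [((nat_lit 0), (nat_lit 0), (nat_lit 0)), ((nat_lit 960), (nat_lit 1000), (nat_lit 200)), ((nat_lit 615), (nat_lit 1000), (nat_lit 729))], ((nat_lit 100), (nat_lit 79), (nat_lit 55))⟩, (nat_lit 126332), (nat_lit 241), (nat_lit 241), (nat_lit 0), (nat_lit 0), [(nat_lit 438240000), (nat_lit 652960000), (nat_lit 773190000)], [], [(nat_lit 1967452886), (nat_lit 1996497526), (nat_lit 2174677552), (nat_lit 2187265443), (nat_lit 2168337070), (nat_lit 2138641642), (nat_lit 2258867016), (nat_lit 2221122364)], (nat_lit 0), (nat_lit 0), (nat_lit 0), (nat_lit 0), (nat_lit 0), (nat_lit 0), [], [(nat_lit 28), (nat_lit 65), (nat_lit 483), (nat_lit 250), (nat_lit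 11)]⟩,
 Rw.none⟩)) (.trX (nat_lit 5) (nat_lit 1) (nat_lit 2) (nat_lit 100) (nat_lit 40) (nat_lit 96) (nat_lit 390) (.leaf ⟨(nat_lit 0), (nat_lit 1000), (nat_lit 0), (nat_lit 0), (nat_lit 8145), (nat_lit 5418), (nat_lit 8578), (nat_lit 0), (nat_lit 0), (nat_lit 0), (nat_lit 0), [], Pd.none, Pd.none, (nat_lit 0), (nat_lit 1), (nat_lit 0), (nat_lit 0), (nat_lit 6), (nat_lit 0), [⟨(nat_lit 1), (nat_lit 65), (nat_lit 67), (nat_lit 100), (nat_lit 1730265)⟩], [⟨(nat_lit 1), (nat_lit 100), (nat_lit 71), (nat_lit 100), (nat_lit 295058964)⟩, ⟨(nat_lit 1), (nat_lit 92), (nat_lit 75), (nat_lit 100), (nat_lit 186127205)⟩], [⟨(nat_lit 1), (nat_lit 40), (nat_lit 100), (nat_lit 96), (nat_lit 247875494)⟩], [],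
 ⟨⟨[(nat_lit 40), (nat_lit 60), (nat_lit 80)], [(nat_lit 0), (nat_lit 398), (nat_lit 992)], [((nat_lit 0), (nat_lit 0), (nat_lit 0)), ((nat_lit 1000), (nat_lit 814), (nat_lit 310)), ((nat_lit 1000), (nat_lit 752), (nat_lit 464))], ((nat_lit 73), (nat_lit 100), (nat_lit 55))⟩, (nat_lit 0), (nat_lit 65), (nat_lit 65), (nat_lit 0), (nat_lit 0), [(nat_lit 2256971093), (nat_lit 3554683700), (nat_lit 4688000000)], [], [(nat_lit 28442140670), (nat_lit 29577326516), (nat_lit 31133101494), (nat_lit 32121283549), (nat_lit 30466373525), (nat_lit 31459672430), (nat_lit 32821653818), (nat_lit 33809987892)], (nat_lit 0), (nat_lit 0), (nat_lit 0), (nat_lit 0), (nat_lit 0), (nat_lit 0), [], [(nat_lit 2), (nat_lit 44), (nat_lit 203), (nat_lit 0), (nat_lit 6)]⟩,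
 ⟨⟨[(nat_lit 100), (nat_lit 140), (nat_lit 160)], [(nat_lit 0), (nat_lit 508), (nat_lit 1689)], [((nat_lit 0), (nat_lit 0), (nat_lit 0)), ((nat_lit 1000), (nat_lit 1000), (nat_lit 198)), ((nat_lit 811), (nat_lit 1000), (nat_lit 671))], ((nat_lit 100), (nat_lit 89), (nat_lit 55))⟩, (nat_lit 2524838), (nat_lit 192), (nat_lit 192), (nat_lit 0), (nat_lit 0), [(nat_lit 6250000000), (nat_lit 9842000000), (nat_lit 11872000000)], [], [(nat_lit 30880506231), (nat_lit 31325727214), (nat_lit 35219050621), (nat_lit 35483388633), (nat_lit 35664447843), (nat_lit 35601888233), (nat_lit 37742532968), (nat_lit 37770594666)], (nat_lit 0), (nat_lit 0), (nat_lit 0), (nat_lit 0), (nat_lit 0), (nat_lit 0), [], [(nat_lit 23), (nat_lit 62), (nat_lit 401), (nat_lit 175), (nat_lit 10)]⟩,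
 Rw.none⟩))) (.spl (nat_lit 0) (nat_lit 350) (.leaf ⟨(nat_lit 897), (nat_lit 71), (nat_lit 0), (nat_lit 32), (nat_lit 0), (nat_lit 3167), (nat_lit 964), (nat_lit 391), (nat_lit 0), (nat_lit 0), (nat_lit 385800), [((nat_lit 350), [((nat_lit 21), (nat_lit 1), (nat_lit 762)), ((nat_lit 39), (nat_lit 2), (nat_lit 135))])], ⟨(nat_lit 8), false, true, true, (nat_lit 297), (nat_lit 3535), (nat_lit 3873), [(nat_lit 1671770), (nat_lit 1666330), (nat_lit 1737150), (nat_lit 1732188), (nat_lit 1752422), (nat_lit 1744782), (nat_lit 1817802), (nat_lit 1810640)]⟩, ⟨(nat_lit 6), false, false, true, (nat_lit 214), (nat_lit 3535), (nat_lit 3873), [(nat_lit 1477347), (nat_lit 1474949), (nat_lit 1499140), (nat_lit 1496902), (nat_lit 1574129), (nat_lit 1569092), (nat_lit 1595923), (nat_lit 1591044)]⟩, (nat_lit 5451337), (nat_lit 34829742), (nat_lit 20261991), (nat_lit 11908267), (nat_lit 6), (nat_lit 0), [⟨(nat_lit 1), (nat_lit 69), (nat_lit 69), (nat_lit 100), (nat_lit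 20243140)⟩, ⟨(nat_lit 1), (nat_lit 55), (nat_lit 73), (nat_lit 100), (nat_lit 171178053)⟩], [⟨(nat_lit 1), (nat_lit 98), (nat_lit 74), (nat_lit 100), (nat_lit 117595027)⟩], [], [],
 ⟨⟨[(nat_lit 40), (nat_lit 60), (nat_lit 80)], [(nat_lit 0), (nat_lit 398), (nat_lit 992)], [((nat_lit 0), (nat_lit 0), (nat_lit 0)), ((nat_lit 1000), (nat_lit 814), (nat_lit 310)), ((nat_lit 1000), (nat_lit 752), (nat_lit 464))], ((nat_lit 73), (nat_lit 100), (nat_lit 55))⟩, (nat_lit 0), (nat_lit 61), (nat_lit 61), (nat_lit 0), (nat_lit 0), [(nat_lit 1402578443), (nat_lit 1664358338), (nat_lit 1728368000)], [(nat_lit 0), (nat_lit 0), (nat_lit 0)], [(nat_lit 26769601586), (nat_lit 27197881366), (nat_lit 28820537891), (nat_lit 29203586374), (nat_lit 28500601121), (nat_lit 28884671338), (nat_lit 30347957886), (nat_lit 30755010238)], (nat_lit 0), (nat_lit 0), (nat_lit 0), (nat_lit 0), (nat_lit 0), (nat_lit 0), [], [(nat_lit 2), (nat_lit 44), (nat_lit 203), (nat_lit 0), (nat_lit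 6)]⟩,
 ⟨⟨[(nat_lit 120), (nat_lit 160), (nat_lit 180)], [(nat_lit 0), (nat_lit 533), (nat_lit 2066)], [((nat_lit 0), (nat_lit 0), (nat_lit 0)), ((nat_lit 960), (nat_lit 1000), (nat_lit 200)), ((nat_lit 615), (nat_lit 1000), (nat_lit 729))], ((nat_lit 100), (nat_lit 79), (nat_lit 55))⟩, (nat_lit 846042), (nat_lit 856), (nat_lit 856), (nat_lit 0), (nat_lit 1268307), [(nat_lit 820704000), (nat_lit 1222816000), (nat_lit 1447974000)], [], [(nat_lit 3759662858), (nat_lit 3703897179), (nat_lit 3859940045), (nat_lit 3816207667), (nat_lit 3717524504), (nat_lit 3718478680), (nat_lit 4086215768), (nat_lit 4072715405)], (nat_lit 1271251), (nat_lit 1271251), (nat_lit 1271251), (nat_lit 1271251), (nat_lit 356250), (nat_lit 2948751), [(nat_lit 1695001), (nat_lit 1271251), (nat_lit 1271251)], [(nat_lit 28), (nat_lit 65), (nat_lit 538), (nat_lit 300), (nat_lit 12)]⟩,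
 ⟨⟨[(nat_lit 140), (nat_lit 180), (nat_lit 200)], [(nat_lit 0), (nat_lit 0), (nat_lit 2835)], [((nat_lit 0), (nat_lit 0), (nat_lit 0)), ((nat_lit 0), (nat_lit 0), (nat_lit 0)), ((nat_lit 363), (nat_lit 1000), (nat_lit 798))], ((nat_lit 0), (nat_lit 0), (nat_lit 0))⟩, (nat_lit 8804), (nat_lit 300), (nat_lit 1564), (nat_lit 2499204), (nat_lit 2547679), [(nat_lit 314944000), (nat_lit 449856000), (nat_lit 524800000)], [], [(nat_lit 2039263217), (nat_lit 2006777849), (nat_lit 2002216265), (nat_lit 1969187059), (nat_lit 2121633208), (nat_lit 2217692092), (nat_lit 1686715515), (nat_lit 1718838066)], (nat_lit 780000), (nat_lit 936250), (nat_lit 1271251), (nat_lit 1271251), (nat_lit 356250), (nat_lit 2948751), [(nat_lit 1977501), (nat_lit 1271251), (nat_lit 1271251)], [(nat_lit 32), (nat_lit 67), (nat_lit 496), (nat_lit 225), (nat_lit 10)]⟩⟩) (.trX (nat_lit 3) (nat_lit 0) (nat_lit 1) (nat_lit 68) (nat_lit 61) (nat_lit 100) (nat_lit 360) (.trX (nat_lit 4) (nat_lit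 0) (nat_lit 2) (nat_lit 69) (nat_lit 96) (nat_lit 100) (nat_lit 290) (.leaf ⟨(nat_lit 937), (nat_lit 42), (nat_lit 0), (nat_lit 21), (nat_lit 0), (nat_lit 3161), (nat_lit 600), (nat_lit 262), (nat_lit 0), (nat_lit 0), (nat_lit 234250), [((nat_lit 360), [((nat_lit 21), (nat_lit 0), (nat_lit 937))])], ⟨(nat_lit 8), false, true, true, (nat_lit 291), (nat_lit 3162), (nat_lit 3536), [(nat_lit 1666330), (nat_lit 1660704), (nat_lit 1732188), (nat_lit 1727168), (nat_lit 1729092), (nat_lit 1721657), (nat_lit 1794949), (nat_lit 1788122)]⟩, ⟨(nat_lit 6), false, false, true, (nat_lit 209), (nat_lit 3162), (nat_lit 3536), [(nat_lit 1474949), (nat_lit 1472332), (nat_lit 1496902), (nat_lit 1494487), (nat_lit 1553401), (nat_lit 1548524), (nat_lit 1575354), (nat_lit 1570679)]⟩, (nat_lit 5410981), (nat_lit 35442040), (nat_lit 19897983), (nat_lit 11659977), (nat_lit 6), (nat_lit 0), [⟨(nat_lit 1), (nat_lit 61), (nat_lit 68), (nat_lit 100), (nat_lit 238146314)⟩], [⟨(nat_lit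 1), (nat_lit 96), (nat_lit 69), (nat_lit 100), (nat_lit 158616104)⟩], [], [],
 ⟨⟨[(nat_lit 40), (nat_lit 60), (nat_lit 80)], [(nat_lit 0), (nat_lit 600), (nat_lit 1195)], [((nat_lit 0), (nat_lit 0), (nat_lit 0)), ((nat_lit 1000), (nat_lit 725), (nat_lit 454)), ((nat_lit 1000), (nat_lit 720), (nat_lit 465))], ((nat_lit 69), (nat_lit 100), (nat_lit 56))⟩, (nat_lit 4443), (nat_lit 60), (nat_lit 60), (nat_lit 0), (nat_lit 0), [(nat_lit 1573494811), (nat_lit 1701843213), (nat_lit 2138027387)], [(nat_lit 0), (nat_lit 0), (nat_lit 0)], [(nat_lit 27016063571), (nat_lit 27465116254), (nat_lit 28696744701), (nat_lit 29107287516), (nat_lit 28490247578), (nat_lit 28900181894), (nat_lit 30026586615), (nat_lit 30451984496)], (nat_lit 0), (nat_lit 0), (nat_lit 0), (nat_lit 0), (nat_lit 0), (nat_lit 0), [], [(nat_lit 2), (nat_lit 44), (nat_lit 203), (nat_lit 0), (nat_lit 6)]⟩,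
 ⟨⟨[(nat_lit 120), (nat_lit 160), (nat_lit 180)], [(nat_lit 0), (nat_lit 533), (nat_lit 2066)], [((nat_lit 0), (nat_lit 0), (nat_lit 0)), ((nat_lit 960), (nat_lit 1000), (nat_lit 200)), ((nat_lit 615), (nat_lit 1000), (nat_lit 729))], ((nat_lit 100), (nat_lit 79), (nat_lit 55))⟩, (nat_lit 524318), (nat_lit 1022), (nat_lit 1022), (nat_lit 0), (nat_lit 1632260), [(nat_lit 501984000), (nat_lit 747936000), (nat_lit 885654000)], [], [(nat_lit 2307698107), (nat_lit 2258520282), (nat_lit 2336982072), (nat_lit 2284133809), (nat_lit 2268123608), (nat_lit 2285930376), (nat_lit 2465112291), (nat_lit 2461056612)], (nat_lit 1271251), (nat_lit 1271251), (nat_lit 1271251), (nat_lit 1271251), (nat_lit 356250), (nat_lit 2948751), [(nat_lit 1695001), (nat_lit 1271251), (nat_lit 1271251)], [(nat_lit 28), (nat_lit 65), (nat_lit 483), (nat_lit 250), (nat_lit 11)]⟩,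
 ⟨⟨[(nat_lit 140), (nat_lit 180), (nat_lit 200)], [(nat_lit 0), (nat_lit 0), (nat_lit 2835)], [((nat_lit 0), (nat_lit 0), (nat_lit 0)), ((nat_lit 0), (nat_lit 0), (nat_lit 0)), ((nat_lit 363), (nat_lit 1000), (nat_lit 798))], ((nat_lit 0), (nat_lit 0), (nat_lit 0))⟩, (nat_lit 5778), (nat_lit 300), (nat_lit 1832), (nat_lit 1640100), (nat_lit 3095777), [(nat_lit 206682000), (nat_lit 295218000), (nat_lit 344400000)], [], [(nat_lit 1319721592), (nat_lit 1297842766), (nat_lit 1302039477), (nat_lit 1280573780), (nat_lit 1397948488), (nat_lit 1462038776), (nat_lit 1117698878), (nat_lit 1183480049)], (nat_lit 780000), (nat_lit 936250), (nat_lit 1271251), (nat_lit 1271251), (nat_lit 356250), (nat_lit 2948751), [(nat_lit 1977501), (nat_lit 1271251), (nat_lit 1271251)], [(nat_lit 32), (nat_lit 67), (nat_lit 562), (nat_lit 225), (nat_lit 12)]⟩⟩)))))) (.spl (nat_lit 1) (nat_lit 220) (.trX (nat_lit 3) (nat_lit 0) (nat_lit 1) (nat_lit 72) (nat_lit 63) (nat_lit 100)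 (nat_lit 360) (.leaf ⟨(nat_lit 910), (nat_lit 49), (nat_lit 0), (nat_lit 41), (nat_lit 0), (nat_lit 3236), (nat_lit 924), (nat_lit 461), (nat_lit 0), (nat_lit 0), (nat_lit 382600), [((nat_lit 360), [((nat_lit 21), (nat_lit 1), (nat_lit 817)), ((nat_lit 39), (nat_lit 2), (nat_lit 93))])], ⟨(nat_lit 8), false, true, true, (nat_lit 288), (nat_lit 3162), (nat_lit 3873), [(nat_lit 1671770), (nat_lit 1660704), (nat_lit 1715356), (nat_lit 1705013), (nat_lit 1736292), (nat_lit 1721657), (nat_lit 1779878), (nat_lit 1765967)]⟩, ⟨(nat_lit 6), false, false, true, (nat_lit 228), (nat_lit 3162), (nat_lit 3873), [(nat_lit 1499140), (nat_lit 1494487), (nat_lit 1520934), (nat_lit 1516642), (nat_lit 1628183), (nat_lit 1616394), (nat_lit 1649977), (nat_lit 1638549)]⟩, (nat_lit 5510886), (nat_lit 34662629), (nat_lit 19187608), (nat_lit 13149763), (nat_lit 6), (nat_lit 0), [⟨(nat_lit 1), (nat_lit 75), (nat_lit 66), (nat_lit 100), (nat_lit 251067216)⟩, ⟨(nat_lit 1), (nat_lit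 63), (nat_lit 72), (nat_lit 100), (nat_lit 10532884)⟩], [⟨(nat_lit 1), (nat_lit 92), (nat_lit 68), (nat_lit 100), (nat_lit 181373090)⟩], [], [⟨(nat_lit 0), (nat_lit 99), (nat_lit 77), (nat_lit 100), (nat_lit 5812188)⟩],
 ⟨⟨[(nat_lit 40), (nat_lit 60), (nat_lit 80)], [(nat_lit 0), (nat_lit 398), (nat_lit 992)], [((nat_lit 0), (nat_lit 0), (nat_lit 0)), ((nat_lit 1000), (nat_lit 814), (nat_lit 310)), ((nat_lit 1000), (nat_lit 752), (nat_lit 464))], ((nat_lit 73), (nat_lit 100), (nat_lit 55))⟩, (nat_lit 0), (nat_lit 62), (nat_lit 62), (nat_lit 0), (nat_lit 0), [(nat_lit 1397756811), (nat_lit 1646086576), (nat_lit 1713360800)], [(nat_lit 0), (nat_lit 0), (nat_lit 0)], [(nat_lit 26663586855), (nat_lit 27526782627), (nat_lit 28316506153), (nat_lit 29131161684), (nat_lit 28979806895), (nat_lit 29783737984), (nat_lit 30589948930), (nat_lit 31396159876)], (nat_lit 0), (nat_lit 0), (nat_lit 0), (nat_lit 0), (nat_lit 0), (nat_lit 0), [], [(nat_lit 2), (nat_lit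 44), (nat_lit 203), (nat_lit 0), (nat_lit 6)]⟩,
 ⟨⟨[(nat_lit 120), (nat_lit 160), (nat_lit 180)], [(nat_lit 0), (nat_lit 533), (nat_lit 2066)], [((nat_lit 0), (nat_lit 0), (nat_lit 0)), ((nat_lit 960), (nat_lit 1000), (nat_lit 200)), ((nat_lit 615), (nat_lit 1000), (nat_lit 729))], ((nat_lit 100), (nat_lit 79), (nat_lit 55))⟩, (nat_lit 913547), (nat_lit 955), (nat_lit 955), (nat_lit 0), (nat_lit 1476110), [(nat_lit 717120000), (nat_lit 1068480000), (nat_lit 1265220000)], [], [(nat_lit 2854879601), (nat_lit 2823237100), (nat_lit 3035096200), (nat_lit 3023423408), (nat_lit 3320094168), (nat_lit 3333298632), (nat_lit 3617130552), (nat_lit 3606796296)], (nat_lit 1271251), (nat_lit 1271251), (nat_lit 1271251), (nat_lit 1271251), (nat_lit 356250), (nat_lit 2948751), [(nat_lit 1695001), (nat_lit 1271251), (nat_lit 1271251)], [(nat_lit 28), (nat_lit 65), (nat_lit 483), (nat_lit 250), (nat_lit 11)]⟩,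
 ⟨⟨[(nat_lit 140), (nat_lit 160), (nat_lit 180)], [(nat_lit 0), (nat_lit 304), (nat_lit 1085)], [((nat_lit 0), (nat_lit 0), (nat_lit 0)), ((nat_lit 913), (nat_lit 1000), (nat_lit 217)), ((nat_lit 759), (nat_lit 1000), (nat_lit 463))], ((nat_lit 100), (nat_lit 67), (nat_lit 57))⟩, (nat_lit 84158), (nat_lit 300), (nat_lit 1613), (nat_lit 2882300), (nat_lit 2793506), [(nat_lit 403522000), (nat_lit 486752000), (nat_lit 576378000)], [], [(nat_lit 2152236519), (nat_lit 2118577386), (nat_lit 2126451235), (nat_lit 2092215211), (nat_lit 1855214328), (nat_lit 1820090392), (nat_lit 1847472200), (nat_lit 1812144972)], (nat_lit 936250), (nat_lit 1100000), (nat_lit 1271251), (nat_lit 1271251), (nat_lit 356250), (nat_lit 2948751), [(nat_lit 1977501), (nat_lit 1271251), (nat_lit 1271251)], [(nat_lit 31), (nat_lit 65), (nat_lit 514), (nat_lit 225), (nat_lit 12)]⟩⟩)) (.leaf ⟨(nat_lit 800), (nat_lit 147), (nat_lit 0), (nat_lit 53), (nat_lit 0), (nat_lit 2887), (nat_lit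 1527), (nat_lit 553), (nat_lit 0), (nat_lit 0), (nat_lit 452000), [((nat_lit 360), [((nat_lit 21), (nat_lit 0), (nat_lit 80)), ((nat_lit 39), (nat_lit 2), (nat_lit 720))])], ⟨(nat_lit 8), false, true, true, (nat_lit 304), (nat_lit 3162), (nat_lit 3873), [(nat_lit 1715356), (nat_lit 1705013), (nat_lit 1737150), (nat_lit 1727168), (nat_lit 1796008), (nat_lit 1781205), (nat_lit 1817802), (nat_lit 1803360)]⟩, ⟨(nat_lit 6), false, false, true, (nat_lit 228), (nat_lit 3162), (nat_lit 3873), [(nat_lit 1499140), (nat_lit 1494487), (nat_lit 1520934), (nat_lit 1516642), (nat_lit 1628183), (nat_lit 1616394), (nat_lit 1649977), (nat_lit 1638549)]⟩, (nat_lit 5545259), (nat_lit 33631839), (nat_lit 20527340), (nat_lit 12840821), (nat_lit 6), (nat_lit 0), [⟨(nat_lit 1), (nat_lit 65), (nat_lit 67), (nat_lit 100), (nat_lit 182609301)⟩], [⟨(nat_lit 1), (nat_lit 92), (nat_lit 68), (nat_lit 100), (nat_lit 210225863)⟩], [], [],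
 ⟨⟨[(nat_lit 40), (nat_lit 60), (nat_lit 80)], [(nat_lit 0), (nat_lit 398), (nat_lit 992)], [((nat_lit 0), (nat_lit 0), (nat_lit 0)), ((nat_lit 1000), (nat_lit 814), (nat_lit 310)), ((nat_lit 1000), (nat_lit 752), (nat_lit 464))], ((nat_lit 73), (nat_lit 100), (nat_lit 55))⟩, (nat_lit 555468), (nat_lit 66), (nat_lit 66), (nat_lit 0), (nat_lit 0), [(nat_lit 1430560006), (nat_lit 1640120058), (nat_lit 1706400000)], [(nat_lit 0), (nat_lit 0), (nat_lit 0)], [(nat_lit 26574330773), (nat_lit 27403960772), (nat_lit 28563533903), (nat_lit 29310538385), (nat_lit 28848970953), (nat_lit 29589457828), (nat_lit 30680914685), (nat_lit 31382423152)], (nat_lit 0), (nat_lit 0), (nat_lit 0), (nat_lit 0), (nat_lit 0), (nat_lit 0), [], [(nat_lit 2), (nat_lit 44), (nat_lit 203), (nat_lit 0), (nat_lit 6)]⟩,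
 ⟨⟨[(nat_lit 100), (nat_lit 140), (nat_lit 160)], [(nat_lit 0), (nat_lit 508), (nat_lit 1689)], [((nat_lit 0), (nat_lit 0), (nat_lit 0)), ((nat_lit 1000), (nat_lit 1000), (nat_lit 198)), ((nat_lit 811), (nat_lit 1000), (nat_lit 671))], ((nat_lit 100), (nat_lit 89), (nat_lit 55))⟩, (nat_lit 1550355), (nat_lit 708), (nat_lit 708), (nat_lit 0), (nat_lit 1108049), [(nat_lit 1250000000), (nat_lit 1968400000), (nat_lit 2374400000)], [], [(nat_lit 7095621231), (nat_lit 7084978019), (nat_lit 7334312362), (nat_lit 7324521727), (nat_lit 7081018141), (nat_lit 7051342324), (nat_lit 7441667967), (nat_lit 7450568285)], (nat_lit 1271251), (nat_lit 1271251), (nat_lit 1271251), (nat_lit 1271251), (nat_lit 356250), (nat_lit 2948751), [(nat_lit 1412501), (nat_lit 1271251), (nat_lit 1271251)], [(nat_lit 23), (nat_lit 62), (nat_lit 401), (nat_lit 175), (nat_lit 10)]⟩,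
 ⟨⟨[(nat_lit 140), (nat_lit 160), (nat_lit 180)], [(nat_lit 0), (nat_lit 304), (nat_lit 1085)], [((nat_lit 0), (nat_lit 0), (nat_lit 0)), ((nat_lit 913), (nat_lit 1000), (nat_lit 217)), ((nat_lit 759), (nat_lit 1000), (nat_lit 463))], ((nat_lit 100), (nat_lit 67), (nat_lit 57))⟩, (nat_lit 108789), (nat_lit 300), (nat_lit 1772), (nat_lit 3725901), (nat_lit 3126342), [(nat_lit 521626000), (nat_lit 629216000), (nat_lit 745074000)], [], [(nat_lit 3022827001), (nat_lit 2982830036), (nat_lit 2939472838), (nat_lit 2898158617), (nat_lit 2546933464), (nat_lit 2504844152), (nat_lit 2490673570), (nat_lit 2447905280)], (nat_lit 936250), (nat_lit 1100000), (nat_lit 1271251), (nat_lit 1271251), (nat_lit 356250), (nat_lit 2948751), [(nat_lit 1977501), (nat_lit 1271251), (nat_lit 1271251)], [(nat_lit 31), (nat_lit 65), (nat_lit 553), (nat_lit 225), (nat_lit 13)]⟩⟩))))))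
noncomputable def c7_24 : Tr Lf :=
 (.spl (nat_lit 5) (nat_lit 120) (.leaf ⟨(nat_lit 849), (nat_lit 62), (nat_lit 0), (nat_lit 89), (nat_lit 0), (nat_lit 2925), (nat_lit 1639), (nat_lit 1151), (nat_lit 0), (nat_lit 0), (nat_lit 495050), [((nat_lit 360), [((nat_lit 21), (nat_lit 0), (nat_lit 41)), ((nat_lit 39), (nat_lit 2), (nat_lit 808))])], ⟨(nat_lit 7), false, true, true, (nat_lit 283), (nat_lit 3162), (nat_lit 3873), [(nat_lit 1607248), (nat_lit 1599750), (nat_lit 1672628), (nat_lit 1666215), (nat_lit 1752422), (nat_lit 1736895), (nat_lit 1817802), (nat_lit 1803360)]⟩, ⟨(nat_lit 6), false, false, true, (nat_lit 240), (nat_lit 3162), (nat_lit 3873), [(nat_lit 1520934), (nat_lit 1516642), (nat_lit 1542727), (nat_lit 1538797), (nat_lit 1666107), (nat_lit 1653787), (nat_lit 1687900), (nat_lit 1675942)]⟩, (nat_lit 5557003), (nat_lit 34341432), (nat_lit 18494186), (nat_lit 14164382), (nat_lit 6), (nat_lit 0), [], [], [], [⟨(nat_lit 0), (nat_lit 100), (nat_lit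 86), (nat_lit 99), (nat_lit 163347682)⟩],
 ⟨⟨[(nat_lit 40), (nat_lit 60), (nat_lit 80)], [(nat_lit 0), (nat_lit 398), (nat_lit 992)], [((nat_lit 0), (nat_lit 0), (nat_lit 0)), ((nat_lit 1000), (nat_lit 814), (nat_lit 310)), ((nat_lit 1000), (nat_lit 752), (nat_lit 464))], ((nat_lit 73), (nat_lit 100), (nat_lit 55))⟩, (nat_lit 775565), (nat_lit 68), (nat_lit 68), (nat_lit 0), (nat_lit 0), [(nat_lit 1398711601), (nat_lit 1520549025), (nat_lit 1478619175)], [(nat_lit 0), (nat_lit 0), (nat_lit 0)], [(nat_lit 24770192577), (nat_lit 25755856352), (nat_lit 28413282827), (nat_lit 29226130194), (nat_lit 27882626384), (nat_lit 28711328759), (nat_lit 31029975131), (nat_lit 31776997792)], (nat_lit 0), (nat_lit 0), (nat_lit 0), (nat_lit 0), (nat_lit 0), (nat_lit 0), [], [(nat_lit 2), (nat_lit 44), (nat_lit 203), (nat_lit 0), (nat_lit 6)]⟩,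
 ⟨⟨[(nat_lit 120), (nat_lit 160), (nat_lit 180)], [(nat_lit 0), (nat_lit 533), (nat_lit 2066)], [((nat_lit 0), (nat_lit 0), (nat_lit 0)), ((nat_lit 960), (nat_lit 1000), (nat_lit 200)), ((nat_lit 615), (nat_lit 1000), (nat_lit 729))], ((nat_lit 100), (nat_lit 79), (nat_lit 55))⟩, (nat_lit 2222841), (nat_lit 815), (nat_lit 815), (nat_lit 0), (nat_lit 1092093), [(nat_lit 1203168000), (nat_lit 1792672000), (nat_lit 2122758000)], [], [(nat_lit 4477882395), (nat_lit 4404563676), (nat_lit 5289135566), (nat_lit 5555448181), (nat_lit 3849903229), (nat_lit 3752289941), (nat_lit 4296805658), (nat_lit 4419541233)], (nat_lit 1271251), (nat_lit 1271251), (nat_lit 1271251), (nat_lit 1271251), (nat_lit 169688), (nat_lit 780000), [(nat_lit 1695001), (nat_lit 1271251), (nat_lit 1271251)], [(nat_lit 28), (nat_lit 65), (nat_lit 428), (nat_lit 200), (nat_lit 10)]⟩,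
 ⟨⟨[(nat_lit 120), (nat_lit 160), (nat_lit 180)], [(nat_lit 0), (nat_lit 0), (nat_lit 1613)], [((nat_lit 0), (nat_lit 0), (nat_lit 0)), ((nat_lit 0), (nat_lit 0), (nat_lit 0)), ((nat_lit 620), (nat_lit 1000), (nat_lit 670))], ((nat_lit 100), (nat_lit 73), (nat_lit 55))⟩, (nat_lit 76188), (nat_lit 300), (nat_lit 1033), (nat_lit 6603800), (nat_lit 1530174), [(nat_lit 709152000), (nat_lit 1056608000), (nat_lit 1251162000)], [], [(nat_lit 4589613859), (nat_lit 4548382674), (nat_lit 4638954140), (nat_lit 4587994016), (nat_lit 3962727822), (nat_lit 3920797724), (nat_lit 3995666669), (nat_lit 3945250765)], (nat_lit 1100000), (nat_lit 1271251), (nat_lit 1271251), (nat_lit 1271251), (nat_lit 169688), (nat_lit 780000), [(nat_lit 1695001), (nat_lit 1271251), (nat_lit 1271251)], [(nat_lit 28), (nat_lit 65), (nat_lit 401), (nat_lit 175), (nat_lit 9)]⟩⟩) (.spl (nat_lit 1) (nat_lit 220) (.trX (nat_lit 3) (nat_lit 0) (nat_lit 1) (nat_lit 72) (nat_lit 63) (nat_lit 100)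 (nat_lit 360) (.leaf ⟨(nat_lit 888), (nat_lit 39), (nat_lit 0), (nat_lit 73), (nat_lit 0), (nat_lit 2919), (nat_lit 1245), (nat_lit 838), (nat_lit 0), (nat_lit 0), (nat_lit 528250), [((nat_lit 360), [((nat_lit 21), (nat_lit 0), (nat_lit 13)), ((nat_lit 39), (nat_lit 2), (nat_lit 875))])], ⟨(nat_lit 7), false, true, true, (nat_lit 275), (nat_lit 3162), (nat_lit 3873), [(nat_lit 1607248), (nat_lit 1599750), (nat_lit 1650835), (nat_lit 1644060), (nat_lit 1736292), (nat_lit 1721657), (nat_lit 1779878), (nat_lit 1765967)]⟩, ⟨(nat_lit 6), false, false, true, (nat_lit 240), (nat_lit 3162), (nat_lit 3873), [(nat_lit 1520934), (nat_lit 1516642), (nat_lit 1542727), (nat_lit 1538797), (nat_lit 1666107), (nat_lit 1653787), (nat_lit 1687900), (nat_lit 1675942)]⟩, (nat_lit 5535427), (nat_lit 34805548), (nat_lit 17879725), (nat_lit 14314727), (nat_lit 6), (nat_lit 0), [⟨(nat_lit 1), (nat_lit 75), (nat_lit 66), (nat_lit 100), (nat_lit 212905451)⟩], [⟨(nat_lit 1), (nat_lit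 85), (nat_lit 67), (nat_lit 100), (nat_lit 171898712)⟩], [], [],
 ⟨⟨[(nat_lit 40), (nat_lit 60), (nat_lit 80)], [(nat_lit 0), (nat_lit 398), (nat_lit 992)], [((nat_lit 0), (nat_lit 0), (nat_lit 0)), ((nat_lit 1000), (nat_lit 814), (nat_lit 310)), ((nat_lit 1000), (nat_lit 752), (nat_lit 464))], ((nat_lit 73), (nat_lit 100), (nat_lit 55))⟩, (nat_lit 225851), (nat_lit 65), (nat_lit 65), (nat_lit 0), (nat_lit 0), [(nat_lit 1373729623), (nat_lit 1435121412), (nat_lit 1293982800)], [(nat_lit 0), (nat_lit 0), (nat_lit 0)], [(nat_lit 25050296705), (nat_lit 25950621559), (nat_lit 27989099662), (nat_lit 28764243373), (nat_lit 27904080443), (nat_lit 28665476217), (nat_lit 30622579533), (nat_lit 31387296070)], (nat_lit 0), (nat_lit 0), (nat_lit 0), (nat_lit 0), (nat_lit 0), (nat_lit 0), [], [(nat_lit 2), (nat_lit 44), (nat_lit 203), (nat_lit 0), (nat_lit 6)]⟩,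
 ⟨⟨[(nat_lit 120), (nat_lit 160), (nat_lit 180)], [(nat_lit 0), (nat_lit 533), (nat_lit 2066)], [((nat_lit 0), (nat_lit 0), (nat_lit 0)), ((nat_lit 960), (nat_lit 1000), (nat_lit 200)), ((nat_lit 615), (nat_lit 1000), (nat_lit 729))], ((nat_lit 100), (nat_lit 79), (nat_lit 55))⟩, (nat_lit 1795721), (nat_lit 896), (nat_lit 896), (nat_lit 0), (nat_lit 1402848), [(nat_lit 892416000), (nat_lit 1329664000), (nat_lit 1574496000)], [], [(nat_lit 2685260452), (nat_lit 2654420692), (nat_lit 2989523863), (nat_lit 3039169594), (nat_lit 3980536887), (nat_lit 4016849540), (nat_lit 4637267407), (nat_lit 4615198188)], (nat_lit 1271251), (nat_lit 1271251), (nat_lit 1271251), (nat_lit 1271251), (nat_lit 780000), (nat_lit 3072501), [(nat_lit 1695001), (nat_lit 1271251), (nat_lit 1271251)], [(nat_lit 28), (nat_lit 65), (nat_lit 483), (nat_lit 250), (nat_lit 11)]⟩,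
 ⟨⟨[(nat_lit 120), (nat_lit 160), (nat_lit 180)], [(nat_lit 0), (nat_lit 0), (nat_lit 1613)], [((nat_lit 0), (nat_lit 0), (nat_lit 0)), ((nat_lit 0), (nat_lit 0), (nat_lit 0)), ((nat_lit 620), (nat_lit 1000), (nat_lit 670))], ((nat_lit 100), (nat_lit 73), (nat_lit 55))⟩, (nat_lit 31771), (nat_lit 300), (nat_lit 1195), (nat_lit 5416600), (nat_lit 2010311), [(nat_lit 581664000), (nat_lit 866656000), (nat_lit 1026234000)], [], [(nat_lit 3695316916), (nat_lit 3649843752), (nat_lit 3612397179), (nat_lit 3569301758), (nat_lit 3341558036), (nat_lit 3298772099), (nat_lit 3314484475), (nat_lit 3275264451)], (nat_lit 1100000), (nat_lit 1271251), (nat_lit 1271251), (nat_lit 1271251), (nat_lit 780000), (nat_lit 3072501), [(nat_lit 1695001), (nat_lit 1271251), (nat_lit 1271251)], [(nat_lit 28), (nat_lit 65), (nat_lit 483), (nat_lit 250), (nat_lit 11)]⟩⟩)) (.leaf ⟨(nat_lit 321), (nat_lit 446), (nat_lit 0), (nat_lit 233), (nat_lit 0), (nat_lit 3338), (nat_lit 5085),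 (nat_lit 2476), (nat_lit 0), (nat_lit 0), (nat_lit 213750), [((nat_lit 360), [((nat_lit 21), (nat_lit 0), (nat_lit 143)), ((nat_lit 21), (nat_lit 2), (nat_lit 178))])], ⟨(nat_lit 7), false, true, true, (nat_lit 292), (nat_lit 3162), (nat_lit 3873), [(nat_lit 1650835), (nat_lit 1644060), (nat_lit 1672628), (nat_lit 1666215), (nat_lit 1796008), (nat_lit 1781205), (nat_lit 1817802), (nat_lit 1803360)]⟩, ⟨(nat_lit 6), false, false, true, (nat_lit 240), (nat_lit 3162), (nat_lit 3873), [(nat_lit 1520934), (nat_lit 1516642), (nat_lit 1542727), (nat_lit 1538797), (nat_lit 1666107), (nat_lit 1653787), (nat_lit 1687900), (nat_lit 1675942)]⟩, (nat_lit 5578896), (nat_lit 33803347), (nat_lit 19208799), (nat_lit 13987854), (nat_lit 6), (nat_lit 0), [], [⟨(nat_lit 1), (nat_lit 85), (nat_lit 67), (nat_lit 100), (nat_lit 211473382)⟩], [], [],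
 ⟨⟨[(nat_lit 40), (nat_lit 60), (nat_lit 80)], [(nat_lit 0), (nat_lit 398), (nat_lit 992)], [((nat_lit 0), (nat_lit 0), (nat_lit 0)), ((nat_lit 1000), (nat_lit 814), (nat_lit 310)), ((nat_lit 1000), (nat_lit 752), (nat_lit 464))], ((nat_lit 73), (nat_lit 100), (nat_lit 55))⟩, (nat_lit 3501988), (nat_lit 68), (nat_lit 68), (nat_lit 0), (nat_lit 0), [(nat_lit 1745033735), (nat_lit 2748248615), (nat_lit 3388118800)], [(nat_lit 0), (nat_lit 0), (nat_lit 0)], [(nat_lit 25036131440), (nat_lit 26075577314), (nat_lit 28839692840), (nat_lit 29689582584), (nat_lit 28253517529), (nat_lit 29120970662), (nat_lit 31506442616), (nat_lit 32282472222)], (nat_lit 0), (nat_lit 0), (nat_lit 0), (nat_lit 0), (nat_lit 0), (nat_lit 0), [], [(nat_lit 2), (nat_lit 44), (nat_lit 203), (nat_lit 0), (nat_lit 6)]⟩,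
 ⟨⟨[(nat_lit 100), (nat_lit 140), (nat_lit 160)], [(nat_lit 0), (nat_lit 508), (nat_lit 1689)], [((nat_lit 0), (nat_lit 0), (nat_lit 0)), ((nat_lit 1000), (nat_lit 1000), (nat_lit 198)), ((nat_lit 811), (nat_lit 1000), (nat_lit 671))], ((nat_lit 100), (nat_lit 89), (nat_lit 55))⟩, (nat_lit 8211955), (nat_lit 653), (nat_lit 653), (nat_lit 0), (nat_lit 1047508), [(nat_lit 4243750000), (nat_lit 6682718000), (nat_lit 8061088000)], [], [(nat_lit 21155065990), (nat_lit 21285097131), (nat_lit 23081135809), (nat_lit 23127885771), (nat_lit 23571828812), (nat_lit 23524561918), (nat_lit 25127796284), (nat_lit 25163085041)], (nat_lit 1271251), (nat_lit 1271251), (nat_lit 1271251), (nat_lit 1271251), (nat_lit 780000), (nat_lit 3072501), [(nat_lit 1412501), (nat_lit 1271251), (nat_lit 1271251)], [(nat_lit 23), (nat_lit 62), (nat_lit 538), (nat_lit 300), (nat_lit 13)]⟩,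
 ⟨⟨[(nat_lit 120), (nat_lit 160), (nat_lit 180)], [(nat_lit 0), (nat_lit 0), (nat_lit 1613)], [((nat_lit 0), (nat_lit 0), (nat_lit 0)), ((nat_lit 0), (nat_lit 0), (nat_lit 0)), ((nat_lit 620), (nat_lit 1000), (nat_lit 670))], ((nat_lit 100), (nat_lit 73), (nat_lit 55))⟩, (nat_lit 335031), (nat_lit 300), (nat_lit 1310), (nat_lit 17288600), (nat_lit 2249913), [(nat_lit 1856544000), (nat_lit 2766176000), (nat_lit 3275514000)], [], [(nat_lit 13223748436), (nat_lit 13077020904), (nat_lit 12760892099), (nat_lit 12610834233), (nat_lit 11498656536), (nat_lit 11351025499), (nat_lit 11135409450), (nat_lit 10989406414)], (nat_lit 1100000), (nat_lit 1271251), (nat_lit 1271251), (nat_lit 1271251), (nat_lit 780000), (nat_lit 3072501), [(nat_lit 1695001), (nat_lit 1271251), (nat_lit 1271251)], [(nat_lit 28), (nat_lit 65), (nat_lit 483), (nat_lit 250), (nat_lit 11)]⟩⟩)))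
noncomputable def c7_25 : Tr Lf :=
 (.trX (nat_lit 3) (nat_lit 0) (nat_lit 1) (nat_lit 72) (nat_lit 77) (nat_lit 100) (nat_lit 330) (.spl (nat_lit 5) (nat_lit 120) (.spl (nat_lit 0) (nat_lit 350) (.leaf ⟨(nat_lit 922), (nat_lit 0), (nat_lit 0), (nat_lit 78), (nat_lit 0), (nat_lit 3176), (nat_lit 1321), (nat_lit 1435), (nat_lit 0), (nat_lit 111406880515), (nat_lit 566000), [((nat_lit 350), [((nat_lit 39), (nat_lit 2), (nat_lit 890)), ((nat_lit 21), (nat_lit 2), (nat_lit 32))])], ⟨(nat_lit 5), false, false, true, (nat_lit 219), (nat_lit 3535), (nat_lit 3873), [(nat_lit 1412825), (nat_lit 1412188), (nat_lit 1478205), (nat_lit 1478046), (nat_lit 1622521), (nat_lit 1616163), (nat_lit 1687900), (nat_lit 1682021)]⟩, ⟨(nat_lit 6), false, false, true, (nat_lit 232), (nat_lit 3535), (nat_lit 3873), [(nat_lit 1477347), (nat_lit 1474949), (nat_lit 1542727), (nat_lit 1540807), (nat_lit 1622521), (nat_lit 1616163), (nat_lit 1687900), (nat_lit 1682021)]⟩, (nat_lit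 5247273), (nat_lit 38838333), (nat_lit 13443570), (nat_lit 14718097), (nat_lit 0), (nat_lit 0), [], [⟨(nat_lit 1), (nat_lit 90), (nat_lit 71), (nat_lit 100), (nat_lit 15895608)⟩], [], [⟨(nat_lit 0), (nat_lit 96), (nat_lit 100), (nat_lit 74), (nat_lit 128003393)⟩],
 ⟨⟨[(nat_lit 40), (nat_lit 60), (nat_lit 80)], [(nat_lit 0), (nat_lit 398), (nat_lit 992)], [((nat_lit 0), (nat_lit 0), (nat_lit 0)), ((nat_lit 1000), (nat_lit 814), (nat_lit 310)), ((nat_lit 1000), (nat_lit 752), (nat_lit 464))], ((nat_lit 73), (nat_lit 100), (nat_lit 55))⟩, (nat_lit 240281), (nat_lit 146), (nat_lit 146), (nat_lit 0), (nat_lit 326644), [(nat_lit 1352350401), (nat_lit 1342897021), (nat_lit 1109623379)], [(nat_lit 0), (nat_lit 0), (nat_lit 0)], [(nat_lit 22709150111), (nat_lit 23191289965), (nat_lit 26621514583), (nat_lit 27126644463), (nat_lit 25789495453), (nat_lit 26305341399), (nat_lit 29675058264), (nat_lit 30095779373)], (nat_lit 1271251), (nat_lit 1271251), (nat_lit 1271251),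 (nat_lit 1271251), (nat_lit 1271251), (nat_lit 1271251), [(nat_lit 490000), (nat_lit 780000), (nat_lit 1100000)], [(nat_lit 2), (nat_lit 44), (nat_lit 203), (nat_lit 0), (nat_lit 7)]⟩,
 ⟨⟨[(nat_lit 140), (nat_lit 180), (nat_lit 200)], [(nat_lit 0), (nat_lit 0), (nat_lit 2835)], [((nat_lit 0), (nat_lit 0), (nat_lit 0)), ((nat_lit 0), (nat_lit 0), (nat_lit 0)), ((nat_lit 363), (nat_lit 1000), (nat_lit 798))], ((nat_lit 0), (nat_lit 0), (nat_lit 0))⟩, (nat_lit 215076), (nat_lit 751), (nat_lit 751), (nat_lit 0), (nat_lit 618528), [(nat_lit 767676000), (nat_lit 1096524000), (nat_lit 1279200000)], [], [(nat_lit 4230377032), (nat_lit 4051940690), (nat_lit 4515805254), (nat_lit 4274702485), (nat_lit 3154604036), (nat_lit 3945827745), (nat_lit 3334803656), (nat_lit 3109825760)], (nat_lit 780000), (nat_lit 1271251), (nat_lit 1271251), (nat_lit 1271251), (nat_lit 0), (nat_lit 780000), [(nat_lit 1977501), (nat_lit 1271251), (nat_lit 1271251)], [(nat_lit 32), (nat_lit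 67), (nat_lit 401), (nat_lit 175), (nat_lit 9)]⟩,
 ⟨⟨[(nat_lit 140), (nat_lit 180), (nat_lit 200)], [(nat_lit 0), (nat_lit 0), (nat_lit 2835)], [((nat_lit 0), (nat_lit 0), (nat_lit 0)), ((nat_lit 0), (nat_lit 0), (nat_lit 0)), ((nat_lit 363), (nat_lit 1000), (nat_lit 798))], ((nat_lit 0), (nat_lit 0), (nat_lit 0))⟩, (nat_lit 21460), (nat_lit 300), (nat_lit 734), (nat_lit 6091805), (nat_lit 618528), [(nat_lit 767676000), (nat_lit 1096524000), (nat_lit 1279200000)], [], [(nat_lit 5157600640), (nat_lit 4866121114), (nat_lit 5298342831), (nat_lit 4968700166), (nat_lit 3824166244), (nat_lit 3554012273), (nat_lit 3940733930), (nat_lit 3634349634)], (nat_lit 780000), (nat_lit 1271251), (nat_lit 1271251), (nat_lit 1271251), (nat_lit 0), (nat_lit 780000), [(nat_lit 1977501), (nat_lit 1271251), (nat_lit 1271251)], [(nat_lit 32), (nat_lit 67), (nat_lit 401), (nat_lit 175), (nat_lit 9)]⟩⟩) (.trX (nat_lit 3) (nat_lit 0) (nat_lit 1) (nat_lit 66) (nat_lit 82) (nat_lit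 100) (nat_lit 320) (.trX (nat_lit 4) (nat_lit 0) (nat_lit 2) (nat_lit 66) (nat_lit 82) (nat_lit 100) (nat_lit 320) (.leaf ⟨(nat_lit 924), (nat_lit 0), (nat_lit 0), (nat_lit 76), (nat_lit 0), (nat_lit 3264), (nat_lit 1408), (nat_lit 1436), (nat_lit 0), (nat_lit 11306935421), (nat_lit 569200), [((nat_lit 360), [((nat_lit 39), (nat_lit 2), (nat_lit 887)), ((nat_lit 21), (nat_lit 2), (nat_lit 37))])], ⟨(nat_lit 5), false, false, true, (nat_lit 215), (nat_lit 3162), (nat_lit 3536), [(nat_lit 1412188), (nat_lit 1411379), (nat_lit 1478046), (nat_lit 1477844), (nat_lit 1600472), (nat_lit 1594239), (nat_lit 1666330), (nat_lit 1660704)]⟩, ⟨(nat_lit 6), false, false, true, (nat_lit 227), (nat_lit 3162), (nat_lit 3536), [(nat_lit 1474949), (nat_lit 1472332), (nat_lit 1540807), (nat_lit 1538797), (nat_lit 1600472), (nat_lit 1594239), (nat_lit 1666330), (nat_lit 1660704)]⟩, (nat_lit 5193761), (nat_lit 39456022), (nat_lit 13154759), (nat_lit 14389219), (nat_lit 0),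 (nat_lit 0), [], [⟨(nat_lit 1), (nat_lit 94), (nat_lit 65), (nat_lit 100), (nat_lit 51569029)⟩], [], [⟨(nat_lit 0), (nat_lit 96), (nat_lit 100), (nat_lit 69), (nat_lit 129232546)⟩],
 ⟨⟨[(nat_lit 40), (nat_lit 60), (nat_lit 80)], [(nat_lit 0), (nat_lit 600), (nat_lit 1195)], [((nat_lit 0), (nat_lit 0), (nat_lit 0)), ((nat_lit 1000), (nat_lit 725), (nat_lit 454)), ((nat_lit 1000), (nat_lit 720), (nat_lit 465))], ((nat_lit 69), (nat_lit 100), (nat_lit 56))⟩, (nat_lit 371164), (nat_lit 168), (nat_lit 168), (nat_lit 0), (nat_lit 392525), [(nat_lit 1351114135), (nat_lit 1314540145), (nat_lit 1117607855)], [(nat_lit 0), (nat_lit 0), (nat_lit 0)], [(nat_lit 23184766022), (nat_lit 23711647556), (nat_lit 26812312192), (nat_lit 27237806688), (nat_lit 26028714352), (nat_lit 26479930556), (nat_lit 29367318148), (nat_lit 29811700016)], (nat_lit 1271251), (nat_lit 1271251), (nat_lit 1271251), (nat_lit 1271251), (nat_lit 1271251), (nat_lit 1271251), [(nat_lit 490000),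 (nat_lit 780000), (nat_lit 1100000)], [(nat_lit 2), (nat_lit 44), (nat_lit 203), (nat_lit 0), (nat_lit 7)]⟩,
 ⟨⟨[(nat_lit 140), (nat_lit 180), (nat_lit 200)], [(nat_lit 0), (nat_lit 0), (nat_lit 2835)], [((nat_lit 0), (nat_lit 0), (nat_lit 0)), ((nat_lit 0), (nat_lit 0), (nat_lit 0)), ((nat_lit 363), (nat_lit 1000), (nat_lit 798))], ((nat_lit 0), (nat_lit 0), (nat_lit 0))⟩, (nat_lit 380130), (nat_lit 833), (nat_lit 833), (nat_lit 0), (nat_lit 772738), [(nat_lit 747992000), (nat_lit 1068408000), (nat_lit 1246400000)], [], [(nat_lit 4118484496), (nat_lit 3920538464), (nat_lit 4343746448), (nat_lit 4085900944), (nat_lit 2960054096), (nat_lit 3871155840), (nat_lit 3080062568), (nat_lit 2839041034)], (nat_lit 780000), (nat_lit 1271251), (nat_lit 1271251), (nat_lit 1271251), (nat_lit 0), (nat_lit 780000), [(nat_lit 1977501), (nat_lit 1271251), (nat_lit 1271251)], [(nat_lit 32), (nat_lit 67), (nat_lit 401), (nat_lit 175), (nat_lit 9)]⟩,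
 ⟨⟨[(nat_lit 140), (nat_lit 180), (nat_lit 200)], [(nat_lit 0), (nat_lit 0), (nat_lit 2835)], [((nat_lit 0), (nat_lit 0), (nat_lit 0)), ((nat_lit 0), (nat_lit 0), (nat_lit 0)), ((nat_lit 363), (nat_lit 1000), (nat_lit 798))], ((nat_lit 0), (nat_lit 0), (nat_lit 0))⟩, (nat_lit 110489), (nat_lit 300), (nat_lit 816), (nat_lit 5935600), (nat_lit 772738), [(nat_lit 747992000), (nat_lit 1068408000), (nat_lit 1246400000)], [], [(nat_lit 5036220512), (nat_lit 4742303644), (nat_lit 5134090592), (nat_lit 4807482956), (nat_lit 3698451824), (nat_lit 3425943912), (nat_lit 3777163584), (nat_lit 3473501318)], (nat_lit 780000), (nat_lit 1271251), (nat_lit 1271251), (nat_lit 1271251), (nat_lit 0), (nat_lit 780000), [(nat_lit 1977501), (nat_lit 1271251), (nat_lit 1271251)], [(nat_lit 32), (nat_lit 67), (nat_lit 401), (nat_lit 175), (nat_lit 9)]⟩⟩)))) (.spl (nat_lit 0) (nat_lit 350) (.leaf ⟨(nat_lit 934), (nat_lit 0), (nat_lit 0), (nat_lit 66), (nat_lit 0), (nat_lit 3013),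 (nat_lit 934), (nat_lit 934), (nat_lit 0), (nat_lit 387946599437), (nat_lit 583600), [((nat_lit 350), [((nat_lit 39), (nat_lit 2), (nat_lit 876)), ((nat_lit 21), (nat_lit 2), (nat_lit 58))])], ⟨(nat_lit 5), false, false, true, (nat_lit 219), (nat_lit 3535), (nat_lit 3873), [(nat_lit 1412825), (nat_lit 1412188), (nat_lit 1478205), (nat_lit 1478046), (nat_lit 1622521), (nat_lit 1616163), (nat_lit 1687900), (nat_lit 1682021)]⟩, ⟨(nat_lit 6), false, false, true, (nat_lit 232), (nat_lit 3535), (nat_lit 3873), [(nat_lit 1477347), (nat_lit 1474949), (nat_lit 1542727), (nat_lit 1540807), (nat_lit 1622521), (nat_lit 1616163), (nat_lit 1687900), (nat_lit 1682021)]⟩, (nat_lit 5247273), (nat_lit 38838333), (nat_lit 13443570), (nat_lit 14718097), (nat_lit 0), (nat_lit 0), [⟨(nat_lit 1), (nat_lit 90), (nat_lit 71), (nat_lit 100), (nat_lit 72319510)⟩], [⟨(nat_lit 1), (nat_lit 90), (nat_lit 71), (nat_lit 100), (nat_lit 116423445)⟩], [], [⟨(nat_lit 0), (nat_lit 77),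 (nat_lit 77), (nat_lit 100), (nat_lit 3890086)⟩],
 ⟨⟨[(nat_lit 40), (nat_lit 60), (nat_lit 80)], [(nat_lit 0), (nat_lit 398), (nat_lit 992)], [((nat_lit 0), (nat_lit 0), (nat_lit 0)), ((nat_lit 1000), (nat_lit 814), (nat_lit 310)), ((nat_lit 1000), (nat_lit 752), (nat_lit 464))], ((nat_lit 73), (nat_lit 100), (nat_lit 55))⟩, (nat_lit 14600), (nat_lit 146), (nat_lit 146), (nat_lit 0), (nat_lit 326644), [(nat_lit 1344982419), (nat_lit 1295857116), (nat_lit 1041315284)], [(nat_lit 0), (nat_lit 0), (nat_lit 0)], [(nat_lit 23274812707), (nat_lit 23747030303), (nat_lit 27024313494), (nat_lit 27400468805), (nat_lit 26302662140), (nat_lit 26701521587), (nat_lit 29514024801), (nat_lit 29927648804)], (nat_lit 1271251), (nat_lit 1271251), (nat_lit 1271251), (nat_lit 1271251), (nat_lit 1271251), (nat_lit 1271251), [(nat_lit 490000), (nat_lit 780000), (nat_lit 1100000)], [(nat_lit 2), (nat_lit 44), (nat_lit 203), (nat_lit 0), (nat_lit 7)]⟩,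
 ⟨⟨[(nat_lit 140), (nat_lit 180), (nat_lit 200)], [(nat_lit 0), (nat_lit 0), (nat_lit 2835)], [((nat_lit 0), (nat_lit 0), (nat_lit 0)), ((nat_lit 0), (nat_lit 0), (nat_lit 0)), ((nat_lit 363), (nat_lit 1000), (nat_lit 798))], ((nat_lit 0), (nat_lit 0), (nat_lit 0))⟩, (nat_lit 111979), (nat_lit 972), (nat_lit 972), (nat_lit 0), (nat_lit 1311156), [(nat_lit 649572000), (nat_lit 927828000), (nat_lit 1082400000)], [], [(nat_lit 3408217642), (nat_lit 2908322785), (nat_lit 3035718540), (nat_lit 2854190798), (nat_lit 3267671812), (nat_lit 3902934408), (nat_lit 3108829301), (nat_lit 2916333181)], (nat_lit 780000), (nat_lit 1271251), (nat_lit 1271251), (nat_lit 1271251), (nat_lit 780000), (nat_lit 3072501), [(nat_lit 1977501), (nat_lit 1271251), (nat_lit 1271251)], [(nat_lit 32), (nat_lit 67), (nat_lit 483), (nat_lit 250), (nat_lit 10)]⟩,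
 ⟨⟨[(nat_lit 140), (nat_lit 180), (nat_lit 200)], [(nat_lit 0), (nat_lit 0), (nat_lit 2835)], [((nat_lit 0), (nat_lit 0), (nat_lit 0)), ((nat_lit 0), (nat_lit 0), (nat_lit 0)), ((nat_lit 363), (nat_lit 1000), (nat_lit 798))], ((nat_lit 0), (nat_lit 0), (nat_lit 0))⟩, (nat_lit 18159), (nat_lit 300), (nat_lit 955), (nat_lit 5154600), (nat_lit 1311156), [(nat_lit 649572000), (nat_lit 927828000), (nat_lit 1082400000)], [], [(nat_lit 3596117512), (nat_lit 3396000785), (nat_lit 3546026960), (nat_lit 3361795488), (nat_lit 3350461576), (nat_lit 3139280700), (nat_lit 3374809001), (nat_lit 3175887142)], (nat_lit 780000), (nat_lit 1271251), (nat_lit 1271251), (nat_lit 1271251), (nat_lit 780000), (nat_lit 3072501), [(nat_lit 1977501), (nat_lit 1271251), (nat_lit 1271251)], [(nat_lit 32), (nat_lit 67), (nat_lit 483), (nat_lit 250), (nat_lit 10)]⟩⟩) (.trX (nat_lit 3) (nat_lit 0) (nat_lit 1) (nat_lit 66) (nat_lit 82) (nat_lit 100) (nat_lit 320) (.trX (nat_lit 4) (nat_lit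 0) (nat_lit 2) (nat_lit 66) (nat_lit 82) (nat_lit 100) (nat_lit 320) (.leaf ⟨(nat_lit 943), (nat_lit 0), (nat_lit 0), (nat_lit 57), (nat_lit 0), (nat_lit 3136), (nat_lit 819), (nat_lit 875), (nat_lit 0), (nat_lit 311660910811), (nat_lit 597400), [((nat_lit 360), [((nat_lit 39), (nat_lit 2), (nat_lit 864)), ((nat_lit 21), (nat_lit 2), (nat_lit 79))])], ⟨(nat_lit 5), false, false, true, (nat_lit 215), (nat_lit 3162), (nat_lit 3536), [(nat_lit 1412188), (nat_lit 1411379), (nat_lit 1478046), (nat_lit 1477844), (nat_lit 1600472), (nat_lit 1594239), (nat_lit 1666330), (nat_lit 1660704)]⟩, ⟨(nat_lit 6), false, false, true, (nat_lit 227), (nat_lit 3162), (nat_lit 3536), [(nat_lit 1474949), (nat_lit 1472332), (nat_lit 1540807), (nat_lit 1538797), (nat_lit 1600472), (nat_lit 1594239), (nat_lit 1666330), (nat_lit 1660704)]⟩, (nat_lit 5193761), (nat_lit 39456022), (nat_lit 13154759), (nat_lit 14389219), (nat_lit 0), (nat_lit 0), [⟨(nat_lit 1), (nat_lit 94), (nat_lit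 65), (nat_lit 100), (nat_lit 142307699)⟩], [⟨(nat_lit 1), (nat_lit 94), (nat_lit 65), (nat_lit 100), (nat_lit 177866077)⟩], [], [],
 ⟨⟨[(nat_lit 40), (nat_lit 60), (nat_lit 80)], [(nat_lit 0), (nat_lit 600), (nat_lit 1195)], [((nat_lit 0), (nat_lit 0), (nat_lit 0)), ((nat_lit 1000), (nat_lit 725), (nat_lit 454)), ((nat_lit 1000), (nat_lit 720), (nat_lit 465))], ((nat_lit 69), (nat_lit 100), (nat_lit 56))⟩, (nat_lit 141074), (nat_lit 168), (nat_lit 168), (nat_lit 0), (nat_lit 392525), [(nat_lit 1339464936), (nat_lit 1241797733), (nat_lit 1006281267)], [(nat_lit 0), (nat_lit 0), (nat_lit 0)], [(nat_lit 23522659345), (nat_lit 24018509165), (nat_lit 27049972292), (nat_lit 27468241680), (nat_lit 26262794132), (nat_lit 26707219328), (nat_lit 29286893808), (nat_lit 29683873584)], (nat_lit 1271251), (nat_lit 1271251), (nat_lit 1271251), (nat_lit 1271251), (nat_lit 1271251), (nat_lit 1271251), [(nat_lit 490000), (nat_lit 780000), (nat_lit 1100000)], [(nat_lit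 2), (nat_lit 44), (nat_lit 203), (nat_lit 0), (nat_lit 7)]⟩,
 ⟨⟨[(nat_lit 140), (nat_lit 180), (nat_lit 200)], [(nat_lit 0), (nat_lit 0), (nat_lit 2835)], [((nat_lit 0), (nat_lit 0), (nat_lit 0)), ((nat_lit 0), (nat_lit 0), (nat_lit 0)), ((nat_lit 363), (nat_lit 1000), (nat_lit 798))], ((nat_lit 0), (nat_lit 0), (nat_lit 0))⟩, (nat_lit 165303), (nat_lit 1140), (nat_lit 1140), (nat_lit 0), (nat_lit 1671012), [(nat_lit 560994000), (nat_lit 801306000), (nat_lit 934800000)], [], [(nat_lit 2962504437), (nat_lit 2482054313), (nat_lit 2579871600), (nat_lit 2421545814), (nat_lit 2833597794), (nat_lit 3388926084), (nat_lit 2645368344), (nat_lit 2490141042)], (nat_lit 780000), (nat_lit 1271251), (nat_lit 1271251), (nat_lit 1271251), (nat_lit 780000), (nat_lit 3072501), [(nat_lit 1977501), (nat_lit 1271251), (nat_lit 1271251)], [(nat_lit 32), (nat_lit 67), (nat_lit 456), (nat_lit 225), (nat_lit 10)]⟩,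
 ⟨⟨[(nat_lit 140), (nat_lit 180), (nat_lit 200)], [(nat_lit 0), (nat_lit 0), (nat_lit 2835)], [((nat_lit 0), (nat_lit 0), (nat_lit 0)), ((nat_lit 0), (nat_lit 0), (nat_lit 0)), ((nat_lit 363), (nat_lit 1000), (nat_lit 798))], ((nat_lit 0), (nat_lit 0), (nat_lit 0))⟩, (nat_lit 86412), (nat_lit 300), (nat_lit 1122), (nat_lit 4451700), (nat_lit 1671012), [(nat_lit 560994000), (nat_lit 801306000), (nat_lit 934800000)], [], [(nat_lit 2958550532), (nat_lit 2766877685), (nat_lit 2987768308), (nat_lit 2813468385), (nat_lit 2810791268), (nat_lit 2646641317), (nat_lit 2752083832), (nat_lit 2544230589)], (nat_lit 780000), (nat_lit 1271251), (nat_lit 1271251), (nat_lit 1271251), (nat_lit 780000), (nat_lit 3072501), [(nat_lit 1977501), (nat_lit 1271251), (nat_lit 1271251)], [(nat_lit 32), (nat_lit 67), (nat_lit 456), (nat_lit 225), (nat_lit 9)]⟩⟩))))))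
noncomputable def c7_26 : Tr Lf :=
 (.spl (nat_lit 5) (nat_lit 120) (.spl (nat_lit 0) (nat_lit 350) (.leaf ⟨(nat_lit 669), (nat_lit 184), (nat_lit 0), (nat_lit 147), (nat_lit 0), (nat_lit 3810), (nat_lit 4288), (nat_lit 2224), (nat_lit 0), (nat_lit 0), (nat_lit 342600), [((nat_lit 350), [((nat_lit 21), (nat_lit 0), (nat_lit 168)), ((nat_lit 39), (nat_lit 2), (nat_lit 501))])], ⟨(nat_lit 5), false, true, true, (nat_lit 258), (nat_lit 3535), (nat_lit 3873), [(nat_lit 1478205), (nat_lit 1478046), (nat_lit 1543574), (nat_lit 1543892), (nat_lit 1752422), (nat_lit 1744782), (nat_lit 1817802), (nat_lit 1810640)]⟩, ⟨(nat_lit 6), false, false, true, (nat_lit 232), (nat_lit 3535), (nat_lit 3873), [(nat_lit 1477347), (nat_lit 1474949), (nat_lit 1542727), (nat_lit 1540807), (nat_lit 1622521), (nat_lit 1616163), (nat_lit 1687900), (nat_lit 1682021)]⟩, (nat_lit 5438552), (nat_lit 36317418), (nat_lit 16668585), (nat_lit 14013997), (nat_lit 6), (nat_lit 0), [], [⟨(nat_lit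 1), (nat_lit 90), (nat_lit 71), (nat_lit 100), (nat_lit 57551399)⟩], [], [⟨(nat_lit 0), (nat_lit 100), (nat_lit 100), (nat_lit 85), (nat_lit 91770159)⟩],
 ⟨⟨[(nat_lit 40), (nat_lit 60), (nat_lit 80)], [(nat_lit 0), (nat_lit 398), (nat_lit 992)], [((nat_lit 0), (nat_lit 0), (nat_lit 0)), ((nat_lit 1000), (nat_lit 814), (nat_lit 310)), ((nat_lit 1000), (nat_lit 752), (nat_lit 464))], ((nat_lit 73), (nat_lit 100), (nat_lit 55))⟩, (nat_lit 521044), (nat_lit 181), (nat_lit 181), (nat_lit 0), (nat_lit 414015), [(nat_lit 1514052414), (nat_lit 1936472489), (nat_lit 2314023711)], [(nat_lit 0), (nat_lit 0), (nat_lit 0)], [(nat_lit 23228001773), (nat_lit 23717289306), (nat_lit 29240375419), (nat_lit 29729808939), (nat_lit 26285475844), (nat_lit 26868613112), (nat_lit 32050976884), (nat_lit 32455567084)], (nat_lit 1271251), (nat_lit 1271251), (nat_lit 1271251), (nat_lit 1271251), (nat_lit 1271251), (nat_lit 1271251), [(nat_lit 490000), (nat_lit 780000), (nat_lit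 1100000)], [(nat_lit 2), (nat_lit 44), (nat_lit 203), (nat_lit 0), (nat_lit 7)]⟩,
 ⟨⟨[(nat_lit 120), (nat_lit 160), (nat_lit 180)], [(nat_lit 0), (nat_lit 533), (nat_lit 2066)], [((nat_lit 0), (nat_lit 0), (nat_lit 0)), ((nat_lit 960), (nat_lit 1000), (nat_lit 200)), ((nat_lit 615), (nat_lit 1000), (nat_lit 729))], ((nat_lit 100), (nat_lit 79), (nat_lit 55))⟩, (nat_lit 2284691), (nat_lit 494), (nat_lit 494), (nat_lit 0), (nat_lit 331118), [(nat_lit 2637408000), (nat_lit 3929632000), (nat_lit 4653198000)], [], [(nat_lit 11268543480), (nat_lit 11495361230), (nat_lit 14707404489), (nat_lit 14907249850), (nat_lit 12974102136), (nat_lit 8215451520), (nat_lit 10747071358), (nat_lit 10880220599)], (nat_lit 1271251), (nat_lit 1271251), (nat_lit 1271251), (nat_lit 1271251), (nat_lit 0), (nat_lit 780000), [(nat_lit 1695001), (nat_lit 1271251), (nat_lit 1271251)], [(nat_lit 28), (nat_lit 65), (nat_lit 428), (nat_lit 200), (nat_lit 10)]⟩,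
 ⟨⟨[(nat_lit 140), (nat_lit 180), (nat_lit 200)], [(nat_lit 0), (nat_lit 0), (nat_lit 2835)], [((nat_lit 0), (nat_lit 0), (nat_lit 0)), ((nat_lit 0), (nat_lit 0), (nat_lit 0)), ((nat_lit 363), (nat_lit 1000), (nat_lit 798))], ((nat_lit 0), (nat_lit 0), (nat_lit 0))⟩, (nat_lit 40444), (nat_lit 300), (nat_lit 743), (nat_lit 11480707), (nat_lit 639198), [(nat_lit 1446774000), (nat_lit 2066526000), (nat_lit 2410800000)], [], [(nat_lit 9584480440), (nat_lit 9158603355), (nat_lit 9852504065), (nat_lit 9368416356), (nat_lit 7700092978), (nat_lit 7214639584), (nat_lit 7789464386), (nat_lit 7340655374)], (nat_lit 780000), (nat_lit 1271251), (nat_lit 1271251), (nat_lit 1271251), (nat_lit 0), (nat_lit 780000), [(nat_lit 1977501), (nat_lit 1271251), (nat_lit 1271251)], [(nat_lit 32), (nat_lit 67), (nat_lit 401), (nat_lit 175), (nat_lit 9)]⟩⟩) (.trX (nat_lit 3) (nat_lit 0) (nat_lit 1) (nat_lit 68) (nat_lit 61) (nat_lit 100) (nat_lit 360) (.trX (nat_lit 4) (nat_lit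 0) (nat_lit 2) (nat_lit 66) (nat_lit 82) (nat_lit 100) (nat_lit 320) (.leaf ⟨(nat_lit 640), (nat_lit 218), (nat_lit 0), (nat_lit 142), (nat_lit 0), (nat_lit 3978), (nat_lit 4010), (nat_lit 2150), (nat_lit 0), (nat_lit 0), (nat_lit 209500), [((nat_lit 360), [((nat_lit 21), (nat_lit 0), (nat_lit 310)), ((nat_lit 21), (nat_lit 1), (nat_lit 330))])], ⟨(nat_lit 5), false, true, true, (nat_lit 254), (nat_lit 3162), (nat_lit 3536), [(nat_lit 1478046), (nat_lit 1477844), (nat_lit 1543888), (nat_lit 1544293), (nat_lit 1729092), (nat_lit 1721657), (nat_lit 1794949), (nat_lit 1788122)]⟩, ⟨(nat_lit 6), false, false, true, (nat_lit 227), (nat_lit 3162), (nat_lit 3536), [(nat_lit 1474949), (nat_lit 1472332), (nat_lit 1540807), (nat_lit 1538797), (nat_lit 1600472), (nat_lit 1594239), (nat_lit 1666330), (nat_lit 1660704)]⟩, (nat_lit 5395038), (nat_lit 36898790), (nat_lit 16386311), (nat_lit 13714899), (nat_lit 6), (nat_lit 0), [], [⟨(nat_lit 1), (nat_lit 94), (nat_lit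 65), (nat_lit 100), (nat_lit 173142783)⟩], [], [⟨(nat_lit 0), (nat_lit 100), (nat_lit 100), (nat_lit 80), (nat_lit 81559340)⟩],
 ⟨⟨[(nat_lit 40), (nat_lit 60), (nat_lit 80)], [(nat_lit 0), (nat_lit 600), (nat_lit 1195)], [((nat_lit 0), (nat_lit 0), (nat_lit 0)), ((nat_lit 1000), (nat_lit 725), (nat_lit 454)), ((nat_lit 1000), (nat_lit 720), (nat_lit 465))], ((nat_lit 69), (nat_lit 100), (nat_lit 56))⟩, (nat_lit 937426), (nat_lit 195), (nat_lit 195), (nat_lit 0), (nat_lit 469284), [(nat_lit 1560704002), (nat_lit 2137628003), (nat_lit 2786116000)], [(nat_lit 0), (nat_lit 0), (nat_lit 0)], [(nat_lit 23046610725), (nat_lit 23545229523), (nat_lit 29383310789), (nat_lit 29895538126), (nat_lit 26454101213), (nat_lit 27064368522), (nat_lit 31821194482), (nat_lit 32253348698)], (nat_lit 1271251), (nat_lit 1271251), (nat_lit 1271251), (nat_lit 1271251), (nat_lit 1271251), (nat_lit 1271251), [(nat_lit 490000), (nat_lit 780000), (nat_lit 1100000)], [(nat_lit 2),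 (nat_lit 44), (nat_lit 203), (nat_lit 0), (nat_lit 7)]⟩,
 ⟨⟨[(nat_lit 120), (nat_lit 160), (nat_lit 180)], [(nat_lit 0), (nat_lit 533), (nat_lit 2066)], [((nat_lit 0), (nat_lit 0), (nat_lit 0)), ((nat_lit 960), (nat_lit 1000), (nat_lit 200)), ((nat_lit 615), (nat_lit 1000), (nat_lit 729))], ((nat_lit 100), (nat_lit 79), (nat_lit 55))⟩, (nat_lit 2674296), (nat_lit 559), (nat_lit 559), (nat_lit 0), (nat_lit 417425), [(nat_lit 2868480000), (nat_lit 4273920000), (nat_lit 5060880000)], [], [(nat_lit 12442624415), (nat_lit 12727243024), (nat_lit 14909318174), (nat_lit 15071478352), (nat_lit 14195041535), (nat_lit 9752855454), (nat_lit 11678495109), (nat_lit 11547296634)], (nat_lit 1271251), (nat_lit 1271251), (nat_lit 1271251), (nat_lit 1271251), (nat_lit 0), (nat_lit 780000), [(nat_lit 1695001), (nat_lit 1271251), (nat_lit 1271251)], [(nat_lit 28), (nat_lit 65), (nat_lit 428), (nat_lit 200), (nat_lit 10)]⟩,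
 ⟨⟨[(nat_lit 140), (nat_lit 180), (nat_lit 200)], [(nat_lit 0), (nat_lit 0), (nat_lit 2835)], [((nat_lit 0), (nat_lit 0), (nat_lit 0)), ((nat_lit 0), (nat_lit 0), (nat_lit 0)), ((nat_lit 363), (nat_lit 1000), (nat_lit 798))], ((nat_lit 0), (nat_lit 0), (nat_lit 0))⟩, (nat_lit 39069), (nat_lit 300), (nat_lit 809), (nat_lit 11090200), (nat_lit 755977), [(nat_lit 1397564000), (nat_lit 1996236000), (nat_lit 2328800000)], [], [(nat_lit 9256500080), (nat_lit 8847125206), (nat_lit 9453076976), (nat_lit 8993237726), (nat_lit 7434636592), (nat_lit 6965240047), (nat_lit 7466082048), (nat_lit 7039752407)], (nat_lit 780000), (nat_lit 1271251), (nat_lit 1271251), (nat_lit 1271251), (nat_lit 0), (nat_lit 780000), [(nat_lit 1977501), (nat_lit 1271251), (nat_lit 1271251)], [(nat_lit 32), (nat_lit 67), (nat_lit 401), (nat_lit 175), (nat_lit 9)]⟩⟩)))) (.spl (nat_lit 3) (nat_lit 280) (.leaf ⟨(nat_lit 853), (nat_lit 76), (nat_lit 0), (nat_lit 71), (nat_lit 0), (nat_lit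 3414), (nat_lit 1737), (nat_lit 865), (nat_lit 0), (nat_lit 0), (nat_lit 498500), [((nat_lit 360), [((nat_lit 21), (nat_lit 0), (nat_lit 38)), ((nat_lit 39), (nat_lit 2), (nat_lit 815))])], ⟨(nat_lit 5), false, true, true, (nat_lit 229), (nat_lit 3162), (nat_lit 3873), [(nat_lit 1478205), (nat_lit 1477844), (nat_lit 1543529), (nat_lit 1544252), (nat_lit 1607248), (nat_lit 1599750), (nat_lit 1672628), (nat_lit 1666215)]⟩, ⟨(nat_lit 6), false, false, true, (nat_lit 231), (nat_lit 3162), (nat_lit 3873), [(nat_lit 1477347), (nat_lit 1472332), (nat_lit 1542727), (nat_lit 1538797), (nat_lit 1622521), (nat_lit 1609477), (nat_lit 1687900), (nat_lit 1675942)]⟩, (nat_lit 5299478), (nat_lit 38246615), (nat_lit 14282841), (nat_lit 14470544), (nat_lit 6), (nat_lit 0), [], [⟨(nat_lit 1), (nat_lit 92), (nat_lit 68), (nat_lit 100), (nat_lit 218545965)⟩], [], [],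
 ⟨⟨[(nat_lit 40), (nat_lit 60), (nat_lit 80)], [(nat_lit 0), (nat_lit 398), (nat_lit 992)], [((nat_lit 0), (nat_lit 0), (nat_lit 0)), ((nat_lit 1000), (nat_lit 814), (nat_lit 310)), ((nat_lit 1000), (nat_lit 752), (nat_lit 464))], ((nat_lit 73), (nat_lit 100), (nat_lit 55))⟩, (nat_lit 666139), (nat_lit 193), (nat_lit 193), (nat_lit 0), (nat_lit 473567), [(nat_lit 1396151604), (nat_lit 1475446803), (nat_lit 1495644597)], [(nat_lit 0), (nat_lit 0), (nat_lit 0)], [(nat_lit 22661710905), (nat_lit 23625731703), (nat_lit 24846929879), (nat_lit 25796759424), (nat_lit 25961068932), (nat_lit 27072511872), (nat_lit 28148503714), (nat_lit 29109556203)], (nat_lit 1271251), (nat_lit 1271251), (nat_lit 1271251), (nat_lit 1271251), (nat_lit 1271251), (nat_lit 1271251), [(nat_lit 490000), (nat_lit 780000), (nat_lit 1100000)], [(nat_lit 2), (nat_lit 44), (nat_lit 203), (nat_lit 0), (nat_lit 7)]⟩,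
 ⟨⟨[(nat_lit 120), (nat_lit 160), (nat_lit 180)], [(nat_lit 0), (nat_lit 533), (nat_lit 2066)], [((nat_lit 0), (nat_lit 0), (nat_lit 0)), ((nat_lit 960), (nat_lit 1000), (nat_lit 200)), ((nat_lit 615), (nat_lit 1000), (nat_lit 729))], ((nat_lit 100), (nat_lit 79), (nat_lit 55))⟩, (nat_lit 1000315), (nat_lit 602), (nat_lit 602), (nat_lit 0), (nat_lit 736053), [(nat_lit 1171296000), (nat_lit 1745184000), (nat_lit 2066526000)], [], [(nat_lit 5874886665), (nat_lit 3924835643), (nat_lit 4141712912), (nat_lit 4161163268), (nat_lit 7431609896), (nat_lit 5015487594), (nat_lit 5338679930), (nat_lit 5401506576)], (nat_lit 1271251), (nat_lit 1271251), (nat_lit 1271251), (nat_lit 1271251), (nat_lit 780000), (nat_lit 3072501), [(nat_lit 1695001), (nat_lit 1271251), (nat_lit 1271251)], [(nat_lit 28), (nat_lit 65), (nat_lit 483), (nat_lit 250), (nat_lit 11)]⟩,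
 ⟨⟨[(nat_lit 140), (nat_lit 180), (nat_lit 200)], [(nat_lit 0), (nat_lit 0), (nat_lit 2835)], [((nat_lit 0), (nat_lit 0), (nat_lit 0)), ((nat_lit 0), (nat_lit 0), (nat_lit 0)), ((nat_lit 363), (nat_lit 1000), (nat_lit 798))], ((nat_lit 0), (nat_lit 0), (nat_lit 0))⟩, (nat_lit 19534), (nat_lit 300), (nat_lit 1424), (nat_lit 5545106), (nat_lit 2315843), [(nat_lit 698782000), (nat_lit 998118000), (nat_lit 1164400000)], [], [(nat_lit 4249952960), (nat_lit 4057112191), (nat_lit 4134358666), (nat_lit 3945770227), (nat_lit 3804225308), (nat_lit 3603010950), (nat_lit 3744272335), (nat_lit 3545157242)], (nat_lit 780000), (nat_lit 1271251), (nat_lit 1271251), (nat_lit 1271251), (nat_lit 780000), (nat_lit 3072501), [(nat_lit 1977501), (nat_lit 1271251), (nat_lit 1271251)], [(nat_lit 32), (nat_lit 67), (nat_lit 483), (nat_lit 250), (nat_lit 10)]⟩⟩) (.spl (nat_lit 0) (nat_lit 350) (.leaf ⟨(nat_lit 90), (nat_lit 650), (nat_lit 0), (nat_lit 260), (nat_lit 0), (nat_lit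 3944), (nat_lit 7728), (nat_lit 2880), (nat_lit 0), (nat_lit 0), (nat_lit 360000), [((nat_lit 350), [((nat_lit 39), (nat_lit 5), (nat_lit 90))])], ⟨(nat_lit 7), false, true, true, (nat_lit 284), (nat_lit 3535), (nat_lit 3873), [(nat_lit 1607248), (nat_lit 1603569), (nat_lit 1672628), (nat_lit 1669426), (nat_lit 1752422), (nat_lit 1744782), (nat_lit 1817802), (nat_lit 1810640)]⟩, ⟨(nat_lit 6), false, false, true, (nat_lit 232), (nat_lit 3535), (nat_lit 3873), [(nat_lit 1477347), (nat_lit 1474949), (nat_lit 1542727), (nat_lit 1540807), (nat_lit 1622521), (nat_lit 1616163), (nat_lit 1687900), (nat_lit 1682021)]⟩, (nat_lit 5521489), (nat_lit 34697199), (nat_lit 18771355), (nat_lit 13531446), (nat_lit 6), (nat_lit 0), [], [⟨(nat_lit 1), (nat_lit 90), (nat_lit 71), (nat_lit 100), (nat_lit 241081762)⟩], [⟨(nat_lit 1), (nat_lit 30), (nat_lit 100), (nat_lit 97), (nat_lit 15092698)⟩], [],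
 ⟨⟨[(nat_lit 40), (nat_lit 60), (nat_lit 80)], [(nat_lit 0), (nat_lit 398), (nat_lit 992)], [((nat_lit 0), (nat_lit 0), (nat_lit 0)), ((nat_lit 1000), (nat_lit 814), (nat_lit 310)), ((nat_lit 1000), (nat_lit 752), (nat_lit 464))], ((nat_lit 73), (nat_lit 100), (nat_lit 55))⟩, (nat_lit 1979620), (nat_lit 181), (nat_lit 181), (nat_lit 0), (nat_lit 414015), [(nat_lit 1914604037), (nat_lit 2733078142), (nat_lit 3374936000)], [(nat_lit 0), (nat_lit 0), (nat_lit 0)], [(nat_lit 25797551830), (nat_lit 26251952254), (nat_lit 29377019155), (nat_lit 29873315577), (nat_lit 28702652005), (nat_lit 29117002716), (nat_lit 32205569240), (nat_lit 32614865167)], (nat_lit 1271251), (nat_lit 1271251), (nat_lit 1271251), (nat_lit 1271251), (nat_lit 1271251), (nat_lit 1271251), [(nat_lit 490000), (nat_lit 780000), (nat_lit 1100000)], [(nat_lit 2), (nat_lit 44), (nat_lit 203), (nat_lit 0), (nat_lit 6)]⟩,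
 ⟨⟨[(nat_lit 120), (nat_lit 160), (nat_lit 180)], [(nat_lit 0), (nat_lit 533), (nat_lit 2066)], [((nat_lit 0), (nat_lit 0), (nat_lit 0)), ((nat_lit 960), (nat_lit 1000), (nat_lit 200)), ((nat_lit 615), (nat_lit 1000), (nat_lit 729))], ((nat_lit 100), (nat_lit 79), (nat_lit 55))⟩, (nat_lit 8653669), (nat_lit 490), (nat_lit 490), (nat_lit 0), (nat_lit 582219), [(nat_lit 7250880000), (nat_lit 10803520000), (nat_lit 12792780000)], [], [(nat_lit 29417081191), (nat_lit 29459938054), (nat_lit 31900846371), (nat_lit 31604773968), (nat_lit 32124533784), (nat_lit 31857729120), (nat_lit 34933585124), (nat_lit 34935363078)], (nat_lit 1271251), (nat_lit 1271251), (nat_lit 1271251), (nat_lit 1271251), (nat_lit 780000), (nat_lit 3072501), [(nat_lit 1695001), (nat_lit 1271251), (nat_lit 1271251)], [(nat_lit 28), (nat_lit 65), (nat_lit 538), (nat_lit 300), (nat_lit 12)]⟩,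
 ⟨⟨[(nat_lit 140), (nat_lit 180), (nat_lit 200)], [(nat_lit 0), (nat_lit 0), (nat_lit 2835)], [((nat_lit 0), (nat_lit 0), (nat_lit 0)), ((nat_lit 0), (nat_lit 0), (nat_lit 0)), ((nat_lit 363), (nat_lit 1000), (nat_lit 798))], ((nat_lit 0), (nat_lit 0), (nat_lit 0))⟩, (nat_lit 71535), (nat_lit 300), (nat_lit 1252), (nat_lit 20306000), (nat_lit 1947870), [(nat_lit 2558920000), (nat_lit 3655080000), (nat_lit 4264000000)], [], [(nat_lit 17107010920), (nat_lit 16461237780), (nat_lit 16508387160), (nat_lit 15856073253), (nat_lit 14950358400), (nat_lit 14282735200), (nat_lit 14437695540), (nat_lit 13757464543)], (nat_lit 780000), (nat_lit 1271251), (nat_lit 1271251), (nat_lit 1271251), (nat_lit 780000), (nat_lit 3072501), [(nat_lit 1977501), (nat_lit 1271251), (nat_lit 1271251)], [(nat_lit 32), (nat_lit 67), (nat_lit 483), (nat_lit 250), (nat_lit 10)]⟩⟩) (.trX (nat_lit 3) (nat_lit 0) (nat_lit 1) (nat_lit 68) (nat_lit 61) (nat_lit 100) (nat_lit 360) (.trX (nat_lit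 4) (nat_lit 0) (nat_lit 2) (nat_lit 66) (nat_lit 82) (nat_lit 100) (nat_lit 320) (.leaf ⟨(nat_lit 683), (nat_lit 222), (nat_lit 0), (nat_lit 95), (nat_lit 0), (nat_lit 3355), (nat_lit 2674), (nat_lit 1084), (nat_lit 0), (nat_lit 0), (nat_lit 334200), [((nat_lit 360), [((nat_lit 21), (nat_lit 1), (nat_lit 378)), ((nat_lit 39), (nat_lit 2), (nat_lit 305))])], ⟨(nat_lit 7), false, true, true, (nat_lit 279), (nat_lit 3162), (nat_lit 3536), [(nat_lit 1603569), (nat_lit 1599750), (nat_lit 1669427), (nat_lit 1666215), (nat_lit 1729092), (nat_lit 1721657), (nat_lit 1794949), (nat_lit 1788122)]⟩, ⟨(nat_lit 6), false, false, true, (nat_lit 227), (nat_lit 3162), (nat_lit 3536), [(nat_lit 1474949), (nat_lit 1472332), (nat_lit 1540807), (nat_lit 1538797), (nat_lit 1600472), (nat_lit 1594239), (nat_lit 1666330), (nat_lit 1660704)]⟩, (nat_lit 5482035), (nat_lit 35292944), (nat_lit 18445596), (nat_lit 13261460), (nat_lit 6), (nat_lit 0), [⟨(nat_lit 1), (nat_lit 74),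 (nat_lit 63), (nat_lit 100), (nat_lit 94353310)⟩], [⟨(nat_lit 1), (nat_lit 94), (nat_lit 65), (nat_lit 100), (nat_lit 226775568)⟩], [], [],
 ⟨⟨[(nat_lit 40), (nat_lit 60), (nat_lit 80)], [(nat_lit 0), (nat_lit 600), (nat_lit 1195)], [((nat_lit 0), (nat_lit 0), (nat_lit 0)), ((nat_lit 1000), (nat_lit 725), (nat_lit 454)), ((nat_lit 1000), (nat_lit 720), (nat_lit 465))], ((nat_lit 69), (nat_lit 100), (nat_lit 56))⟩, (nat_lit 899446), (nat_lit 195), (nat_lit 195), (nat_lit 0), (nat_lit 469284), [(nat_lit 1506251614), (nat_lit 1944097535), (nat_lit 2306176000)], [(nat_lit 0), (nat_lit 0), (nat_lit 0)], [(nat_lit 26120608625), (nat_lit 26544114912), (nat_lit 28837801854), (nat_lit 29230592326), (nat_lit 28375407736), (nat_lit 28761136391), (nat_lit 31125869322), (nat_lit 31533633555)], (nat_lit 1271251), (nat_lit 1271251), (nat_lit 1271251), (nat_lit 1271251), (nat_lit 1271251), (nat_lit 1271251), [(nat_lit 490000), (nat_lit 780000), (nat_lit 1100000)], [(nat_lit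 2), (nat_lit 44), (nat_lit 203), (nat_lit 0), (nat_lit 6)]⟩,
 ⟨⟨[(nat_lit 120), (nat_lit 160), (nat_lit 180)], [(nat_lit 0), (nat_lit 533), (nat_lit 2066)], [((nat_lit 0), (nat_lit 0), (nat_lit 0)), ((nat_lit 960), (nat_lit 1000), (nat_lit 200)), ((nat_lit 615), (nat_lit 1000), (nat_lit 729))], ((nat_lit 100), (nat_lit 79), (nat_lit 55))⟩, (nat_lit 2941226), (nat_lit 580), (nat_lit 580), (nat_lit 0), (nat_lit 733265), [(nat_lit 2525856000), (nat_lit 3763424000), (nat_lit 4456386000)], [], [(nat_lit 11007888598), (nat_lit 10928268207), (nat_lit 11554066887), (nat_lit 11462916191), (nat_lit 11650895746), (nat_lit 11490190598), (nat_lit 11978831947), (nat_lit 11940425216)], (nat_lit 1271251), (nat_lit 1271251), (nat_lit 1271251), (nat_lit 1271251), (nat_lit 780000), (nat_lit 3072501), [(nat_lit 1695001), (nat_lit 1271251), (nat_lit 1271251)], [(nat_lit 28), (nat_lit 65), (nat_lit 483), (nat_lit 250), (nat_lit 11)]⟩,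
 ⟨⟨[(nat_lit 140), (nat_lit 180), (nat_lit 200)], [(nat_lit 0), (nat_lit 0), (nat_lit 2835)], [((nat_lit 0), (nat_lit 0), (nat_lit 0)), ((nat_lit 0), (nat_lit 0), (nat_lit 0)), ((nat_lit 363), (nat_lit 1000), (nat_lit 798))], ((nat_lit 0), (nat_lit 0), (nat_lit 0))⟩, (nat_lit 26138), (nat_lit 300), (nat_lit 1424), (nat_lit 7419500), (nat_lit 2315843), [(nat_lit 934990000), (nat_lit 1335510000), (nat_lit 1558000000)], [], [(nat_lit 6028231428), (nat_lit 5783810745), (nat_lit 5846660186), (nat_lit 5598443785), (nat_lit 5312041024), (nat_lit 5058799008), (nat_lit 5174703800), (nat_lit 4919987454)], (nat_lit 780000), (nat_lit 1271251), (nat_lit 1271251), (nat_lit 1271251), (nat_lit 780000), (nat_lit 3072501), [(nat_lit 1977501), (nat_lit 1271251), (nat_lit 1271251)], [(nat_lit 32), (nat_lit 67), (nat_lit 469), (nat_lit 225), (nat_lit 10)]⟩⟩))))))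
noncomputable def c7_27 : Tr Lf :=
 (.spl (nat_lit 5) (nat_lit 120) (.spl (nat_lit 1) (nat_lit 220) (.ord (.trX (nat_lit 3) (nat_lit 0) (nat_lit 1) (nat_lit 72) (nat_lit 63) (nat_lit 100) (nat_lit 360) (.spl (nat_lit 3) (nat_lit 280) (.leaf ⟨(nat_lit 871), (nat_lit 43), (nat_lit 0), (nat_lit 86), (nat_lit 0), (nat_lit 3431), (nat_lit 1416), (nat_lit 1170), (nat_lit 0), (nat_lit 1973159629404), (nat_lit 514200), [((nat_lit 360), [((nat_lit 21), (nat_lit 0), (nat_lit 24)), ((nat_lit 39), (nat_lit 2), (nat_lit 847))])], ⟨(nat_lit 5), false, true, true, (nat_lit 225), (nat_lit 3162), (nat_lit 3873), [(nat_lit 1478205), (nat_lit 1477844), (nat_lit 1521764), (nat_lit 1522126), (nat_lit 1607248), (nat_lit 1599750), (nat_lit 1650835), (nat_lit 1644060)]⟩, ⟨(nat_lit 4), false, false, false, (nat_lit 187), (nat_lit 3162), (nat_lit 3873), [(nat_lit 1349127), (nat_lit 1355902), (nat_lit 1392656), (nat_lit 1400154), (nat_lit 1542727), (nat_lit 1538797), (nat_lit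 1586313), (nat_lit 1583107)]⟩, (nat_lit 4984799), (nat_lit 41452231), (nat_lit 14623487), (nat_lit 10924282), (nat_lit 4), (nat_lit 0), [], [], [], [⟨(nat_lit 0), (nat_lit 100), (nat_lit 98), (nat_lit 10), (nat_lit 20084682)⟩],
 ⟨⟨[(nat_lit 40), (nat_lit 60), (nat_lit 80)], [(nat_lit 0), (nat_lit 398), (nat_lit 992)], [((nat_lit 0), (nat_lit 0), (nat_lit 0)), ((nat_lit 1000), (nat_lit 814), (nat_lit 310)), ((nat_lit 1000), (nat_lit 752), (nat_lit 464))], ((nat_lit 73), (nat_lit 100), (nat_lit 55))⟩, (nat_lit 265083), (nat_lit 176), (nat_lit 176), (nat_lit 0), (nat_lit 391529), [(nat_lit 1384640403), (nat_lit 1430640435), (nat_lit 1413347365)], [(nat_lit 0), (nat_lit 0), (nat_lit 0)], [(nat_lit 20089845353), (nat_lit 21279350988), (nat_lit 22731382938), (nat_lit 23789378902), (nat_lit 22546728162), (nat_lit 23576645789), (nat_lit 24831653299), (nat_lit 25809079596)], (nat_lit 1271251), (nat_lit 1271251), (nat_lit 1271251), (nat_lit 1271251), (nat_lit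 780000), (nat_lit 1762501), [(nat_lit 490000), (nat_lit 780000), (nat_lit 1100000)], [(nat_lit 2), (nat_lit 44), (nat_lit 272), (nat_lit 60), (nat_lit 11)]⟩,
 ⟨⟨[(nat_lit 120), (nat_lit 160), (nat_lit 180)], [(nat_lit 0), (nat_lit 533), (nat_lit 2066)], [((nat_lit 0), (nat_lit 0), (nat_lit 0)), ((nat_lit 960), (nat_lit 1000), (nat_lit 200)), ((nat_lit 615), (nat_lit 1000), (nat_lit 729))], ((nat_lit 100), (nat_lit 79), (nat_lit 55))⟩, (nat_lit 1772004), (nat_lit 869), (nat_lit 869), (nat_lit 0), (nat_lit 1101931), [(nat_lit 1027872000), (nat_lit 1531488000), (nat_lit 1813482000)], [], [(nat_lit 4464584532), (nat_lit 3922653800), (nat_lit 3977475680), (nat_lit 3952554623), (nat_lit 5089251924), (nat_lit 3726455292), (nat_lit 3197200375), (nat_lit 3144933039)], (nat_lit 1271251), (nat_lit 1271251), (nat_lit 1271251), (nat_lit 1271251), (nat_lit 0), (nat_lit 780000), [(nat_lit 1695001), (nat_lit 1271251), (nat_lit 1271251)], [(nat_lit 28), (nat_lit 65),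 (nat_lit 401), (nat_lit 175), (nat_lit 9)]⟩,
 ⟨⟨[(nat_lit 120), (nat_lit 160), (nat_lit 180)], [(nat_lit 0), (nat_lit 533), (nat_lit 2066)], [((nat_lit 0), (nat_lit 0), (nat_lit 0)), ((nat_lit 960), (nat_lit 1000), (nat_lit 200)), ((nat_lit 615), (nat_lit 1000), (nat_lit 729))], ((nat_lit 100), (nat_lit 79), (nat_lit 55))⟩, (nat_lit 201366), (nat_lit 300), (nat_lit 921), (nat_lit 5710400), (nat_lit 1101931), [(nat_lit 685248000), (nat_lit 1020992000), (nat_lit 1208988000)], [], [(nat_lit 4551606321), (nat_lit 4478232515), (nat_lit 4196968332), (nat_lit 4131073564), (nat_lit 3621414221), (nat_lit 3548805771), (nat_lit 4697902351), (nat_lit 3587482261)], (nat_lit 1271251), (nat_lit 1271251), (nat_lit 780000), (nat_lit 1762501), (nat_lit 0), (nat_lit 780000), [(nat_lit 1695001), (nat_lit 1271251), (nat_lit 1271251)], [(nat_lit 28), (nat_lit 65), (nat_lit 373), (nat_lit 150), (nat_lit 9)]⟩⟩) (.spl (nat_lit 0) (nat_lit 350) (.leaf ⟨(nat_lit 832), (nat_lit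 77), (nat_lit 0), (nat_lit 91), (nat_lit 0), (nat_lit 3449), (nat_lit 1605), (nat_lit 1340), (nat_lit 0), (nat_lit 2905786118278), (nat_lit 480650), [((nat_lit 350), [((nat_lit 21), (nat_lit 0), (nat_lit 53)), ((nat_lit 39), (nat_lit 2), (nat_lit 779))])], ⟨(nat_lit 7), false, true, true, (nat_lit 276), (nat_lit 3535), (nat_lit 3873), [(nat_lit 1607248), (nat_lit 1603569), (nat_lit 1650835), (nat_lit 1647474), (nat_lit 1736292), (nat_lit 1729092), (nat_lit 1779878), (nat_lit 1772997)]⟩, ⟨(nat_lit 4), false, false, false, (nat_lit 187), (nat_lit 3535), (nat_lit 3873), [(nat_lit 1349157), (nat_lit 1352518), (nat_lit 1392731), (nat_lit 1396411), (nat_lit 1542727), (nat_lit 1540807), (nat_lit 1586313), (nat_lit 1584712)]⟩, (nat_lit 5221190), (nat_lit 37643187), (nat_lit 19131340), (nat_lit 10225473), (nat_lit 4), (nat_lit 0), [⟨(nat_lit 1), (nat_lit 72), (nat_lit 69), (nat_lit 100), (nat_lit 51419595)⟩], [], [], [⟨(nat_lit 0), (nat_lit 100), (nat_lit 80),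 (nat_lit 52), (nat_lit 125127532)⟩],
 ⟨⟨[(nat_lit 40), (nat_lit 60), (nat_lit 80)], [(nat_lit 0), (nat_lit 398), (nat_lit 992)], [((nat_lit 0), (nat_lit 0), (nat_lit 0)), ((nat_lit 1000), (nat_lit 814), (nat_lit 310)), ((nat_lit 1000), (nat_lit 752), (nat_lit 464))], ((nat_lit 73), (nat_lit 100), (nat_lit 55))⟩, (nat_lit 105875), (nat_lit 176), (nat_lit 176), (nat_lit 0), (nat_lit 332341), [(nat_lit 1409604811), (nat_lit 1545474235), (nat_lit 1571883365)], [(nat_lit 0), (nat_lit 0), (nat_lit 0)], [(nat_lit 23691256108), (nat_lit 24176751019), (nat_lit 26851186596), (nat_lit 27424952961), (nat_lit 25586469397), (nat_lit 25996700540), (nat_lit 28362989796), (nat_lit 28846707340)], (nat_lit 1271251), (nat_lit 1271251), (nat_lit 1271251), (nat_lit 1271251), (nat_lit 780000), (nat_lit 1762501), [(nat_lit 490000), (nat_lit 780000), (nat_lit 1100000)], [(nat_lit 2), (nat_lit 44), (nat_lit 272), (nat_lit 60), (nat_lit 10)]⟩,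
 ⟨⟨[(nat_lit 120), (nat_lit 160), (nat_lit 180)], [(nat_lit 0), (nat_lit 533), (nat_lit 2066)], [((nat_lit 0), (nat_lit 0), (nat_lit 0)), ((nat_lit 960), (nat_lit 1000), (nat_lit 200)), ((nat_lit 615), (nat_lit 1000), (nat_lit 729))], ((nat_lit 100), (nat_lit 79), (nat_lit 55))⟩, (nat_lit 1762289), (nat_lit 741), (nat_lit 741), (nat_lit 0), (nat_lit 856810), [(nat_lit 1338624000), (nat_lit 1994496000), (nat_lit 2361744000)], [], [(nat_lit 6155376170), (nat_lit 6142346909), (nat_lit 6500719567), (nat_lit 6487301104), (nat_lit 5285105356), (nat_lit 5261169372), (nat_lit 5576027445), (nat_lit 5520582411)], (nat_lit 1271251), (nat_lit 1271251), (nat_lit 1271251), (nat_lit 1271251), (nat_lit 0), (nat_lit 780000), [(nat_lit 1695001), (nat_lit 1271251), (nat_lit 1271251)], [(nat_lit 28), (nat_lit 65), (nat_lit 401), (nat_lit 175), (nat_lit 9)]⟩,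
 ⟨⟨[(nat_lit 120), (nat_lit 160), (nat_lit 180)], [(nat_lit 0), (nat_lit 533), (nat_lit 2066)], [((nat_lit 0), (nat_lit 0), (nat_lit 0)), ((nat_lit 960), (nat_lit 1000), (nat_lit 200)), ((nat_lit 615), (nat_lit 1000), (nat_lit 729))], ((nat_lit 100), (nat_lit 79), (nat_lit 55))⟩, (nat_lit 213073), (nat_lit 300), (nat_lit 804), (nat_lit 6042401), (nat_lit 856810), [(nat_lit 725088000), (nat_lit 1080352000), (nat_lit 1279278000)], [], [(nat_lit 4867823617), (nat_lit 4607556365), (nat_lit 4508667976), (nat_lit 4331987494), (nat_lit 3619790280), (nat_lit 3531366418), (nat_lit 5059453666), (nat_lit 3787690486)], (nat_lit 1271251), (nat_lit 1271251), (nat_lit 780000), (nat_lit 1762501), (nat_lit 0), (nat_lit 780000), [(nat_lit 1695001), (nat_lit 1271251), (nat_lit 1271251)], [(nat_lit 28), (nat_lit 65), (nat_lit 373), (nat_lit 150), (nat_lit 9)]⟩⟩) (.trX (nat_lit 3) (nat_lit 0) (nat_lit 1) (nat_lit 66) (nat_lit 68) (nat_lit 100) (nat_lit 350) (.leaf ⟨(nat_lit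 858), (nat_lit 65), (nat_lit 0), (nat_lit 77), (nat_lit 0), (nat_lit 3233), (nat_lit 1393), (nat_lit 1133), (nat_lit 0), (nat_lit 3637309260038), (nat_lit 493400), [((nat_lit 360), [((nat_lit 21), (nat_lit 1), (nat_lit 107)), ((nat_lit 39), (nat_lit 2), (nat_lit 751))])], ⟨(nat_lit 7), false, true, true, (nat_lit 271), (nat_lit 3162), (nat_lit 3536), [(nat_lit 1603569), (nat_lit 1599750), (nat_lit 1647474), (nat_lit 1644060), (nat_lit 1713401), (nat_lit 1706419), (nat_lit 1757306), (nat_lit 1750729)]⟩, ⟨(nat_lit 4), false, false, false, (nat_lit 188), (nat_lit 3162), (nat_lit 3536), [(nat_lit 1352511), (nat_lit 1355925), (nat_lit 1396400), (nat_lit 1400219), (nat_lit 1540807), (nat_lit 1538797), (nat_lit 1584713), (nat_lit 1583107)]⟩, (nat_lit 5206268), (nat_lit 38007262), (nat_lit 18666657), (nat_lit 10326081), (nat_lit 4), (nat_lit 0), [⟨(nat_lit 1), (nat_lit 77), (nat_lit 63), (nat_lit 100), (nat_lit 110828949)⟩], [], [], [⟨(nat_lit 0), (nat_lit 100),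 (nat_lit 82), (nat_lit 49), (nat_lit 65246006)⟩],
 ⟨⟨[(nat_lit 40), (nat_lit 60), (nat_lit 80)], [(nat_lit 0), (nat_lit 600), (nat_lit 1195)], [((nat_lit 0), (nat_lit 0), (nat_lit 0)), ((nat_lit 1000), (nat_lit 725), (nat_lit 454)), ((nat_lit 1000), (nat_lit 720), (nat_lit 465))], ((nat_lit 69), (nat_lit 100), (nat_lit 56))⟩, (nat_lit 404292), (nat_lit 191), (nat_lit 191), (nat_lit 0), (nat_lit 387754), [(nat_lit 1394307204), (nat_lit 1514414811), (nat_lit 1462533600)], [(nat_lit 0), (nat_lit 0), (nat_lit 0)], [(nat_lit 23989473601), (nat_lit 24462322874), (nat_lit 26632817769), (nat_lit 27128751675), (nat_lit 25851827434), (nat_lit 26269614056), (nat_lit 28243926093), (nat_lit 28640592145)], (nat_lit 1271251), (nat_lit 1271251), (nat_lit 1271251), (nat_lit 1271251), (nat_lit 780000), (nat_lit 1762501), [(nat_lit 490000), (nat_lit 780000), (nat_lit 1100000)], [(nat_lit 2), (nat_lit 44), (nat_lit 272), (nat_lit 60), (nat_lit 10)]⟩,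
 ⟨⟨[(nat_lit 120), (nat_lit 160), (nat_lit 180)], [(nat_lit 0), (nat_lit 533), (nat_lit 2066)], [((nat_lit 0), (nat_lit 0), (nat_lit 0)), ((nat_lit 960), (nat_lit 1000), (nat_lit 200)), ((nat_lit 615), (nat_lit 1000), (nat_lit 729))], ((nat_lit 100), (nat_lit 79), (nat_lit 55))⟩, (nat_lit 1511923), (nat_lit 842), (nat_lit 842), (nat_lit 0), (nat_lit 1100027), [(nat_lit 1131456000), (nat_lit 1685824000), (nat_lit 1996236000)], [], [(nat_lit 5224038922), (nat_lit 5178320505), (nat_lit 5370867795), (nat_lit 5362874146), (nat_lit 4482339257), (nat_lit 4429816143), (nat_lit 4598918910), (nat_lit 4528535444)], (nat_lit 1271251), (nat_lit 1271251), (nat_lit 1271251), (nat_lit 1271251), (nat_lit 0), (nat_lit 780000), [(nat_lit 1695001), (nat_lit 1271251), (nat_lit 1271251)], [(nat_lit 28), (nat_lit 65), (nat_lit 401), (nat_lit 175), (nat_lit 9)]⟩,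
 ⟨⟨[(nat_lit 120), (nat_lit 160), (nat_lit 180)], [(nat_lit 0), (nat_lit 533), (nat_lit 2066)], [((nat_lit 0), (nat_lit 0), (nat_lit 0)), ((nat_lit 960), (nat_lit 1000), (nat_lit 200)), ((nat_lit 615), (nat_lit 1000), (nat_lit 729))], ((nat_lit 100), (nat_lit 79), (nat_lit 55))⟩, (nat_lit 180293), (nat_lit 300), (nat_lit 920), (nat_lit 5112800), (nat_lit 1100027), [(nat_lit 613536000), (nat_lit 914144000), (nat_lit 1082466000)], [], [(nat_lit 4118359082), (nat_lit 3899788382), (nat_lit 3814461618), (nat_lit 3665853378), (nat_lit 3064659510), (nat_lit 2989935520), (nat_lit 4280342534), (nat_lit 3205038293)], (nat_lit 1271251), (nat_lit 1271251), (nat_lit 780000), (nat_lit 1762501), (nat_lit 0), (nat_lit 780000), [(nat_lit 1695001), (nat_lit 1271251), (nat_lit 1271251)], [(nat_lit 28), (nat_lit 65), (nat_lit 373), (nat_lit 150), (nat_lit 9)]⟩⟩)))))) (.leaf ⟨(nat_lit 429), (nat_lit 350), (nat_lit 0), (nat_lit 221), (nat_lit 0), (nat_lit 4060), (nat_lit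 4756), (nat_lit 3175), (nat_lit 0), (nat_lit 2419961689016), (nat_lit 139100), [((nat_lit 360), [((nat_lit 21), (nat_lit 0), (nat_lit 338)), ((nat_lit 39), (nat_lit 2), (nat_lit 91))])], ⟨(nat_lit 5), false, true, true, (nat_lit 267), (nat_lit 3162), (nat_lit 3873), [(nat_lit 1521764), (nat_lit 1522126), (nat_lit 1543529), (nat_lit 1544252), (nat_lit 1796008), (nat_lit 1781205), (nat_lit 1817802), (nat_lit 1803360)]⟩, ⟨(nat_lit 4), false, false, false, (nat_lit 192), (nat_lit 3162), (nat_lit 3873), [(nat_lit 1349127), (nat_lit 1355902), (nat_lit 1414421), (nat_lit 1422280), (nat_lit 1542727), (nat_lit 1538797), (nat_lit 1608082), (nat_lit 1605237)]⟩, (nat_lit 5220294), (nat_lit 38109852), (nat_lit 18177361), (nat_lit 10712787), (nat_lit 4), (nat_lit 0), [], [], [⟨(nat_lit 0), (nat_lit 100), (nat_lit 99), (nat_lit 20), (nat_lit 191348970)⟩], [],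
 ⟨⟨[(nat_lit 40), (nat_lit 60), (nat_lit 80)], [(nat_lit 0), (nat_lit 398), (nat_lit 992)], [((nat_lit 0), (nat_lit 0), (nat_lit 0)), ((nat_lit 1000), (nat_lit 814), (nat_lit 310)), ((nat_lit 1000), (nat_lit 752), (nat_lit 464))], ((nat_lit 73), (nat_lit 100), (nat_lit 55))⟩, (nat_lit 3240596), (nat_lit 216), (nat_lit 216), (nat_lit 0), (nat_lit 460827), [(nat_lit 1667828406), (nat_lit 2575273640), (nat_lit 3417858400)], [(nat_lit 0), (nat_lit 0), (nat_lit 0)], [(nat_lit 19899793625), (nat_lit 21212584680), (nat_lit 28299402955), (nat_lit 29500321685), (nat_lit 22478334880), (nat_lit 23571370160), (nat_lit 29495307763), (nat_lit 30499782645)], (nat_lit 1271251), (nat_lit 1271251), (nat_lit 1271251), (nat_lit 1271251), (nat_lit 780000), (nat_lit 1762501), [(nat_lit 490000), (nat_lit 780000), (nat_lit 1100000)], [(nat_lit 2), (nat_lit 44), (nat_lit 272), (nat_lit 60), (nat_lit 11)]⟩,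
 ⟨⟨[(nat_lit 100), (nat_lit 140), (nat_lit 160)], [(nat_lit 0), (nat_lit 508), (nat_lit 1689)], [((nat_lit 0), (nat_lit 0), (nat_lit 0)), ((nat_lit 1000), (nat_lit 1000), (nat_lit 198)), ((nat_lit 811), (nat_lit 1000), (nat_lit 671))], ((nat_lit 100), (nat_lit 89), (nat_lit 55))⟩, (nat_lit 6443616), (nat_lit 673), (nat_lit 673), (nat_lit 0), (nat_lit 847575), [(nat_lit 3568750000), (nat_lit 5619782000), (nat_lit 6778912000)], [], [(nat_lit 16728797802), (nat_lit 16925896428), (nat_lit 19739491647), (nat_lit 20120831770), (nat_lit 14679307451), (nat_lit 14837881537), (nat_lit 17257553608), (nat_lit 17278776426)], (nat_lit 1271251), (nat_lit 1271251), (nat_lit 1271251), (nat_lit 1271251), (nat_lit 0), (nat_lit 780000), [(nat_lit 1412501), (nat_lit 1271251), (nat_lit 1271251)], [(nat_lit 23), (nat_lit 62), (nat_lit 428), (nat_lit 200), (nat_lit 11)]⟩,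
 ⟨⟨[(nat_lit 120), (nat_lit 160), (nat_lit 180)], [(nat_lit 0), (nat_lit 533), (nat_lit 2066)], [((nat_lit 0), (nat_lit 0), (nat_lit 0)), ((nat_lit 960), (nat_lit 1000), (nat_lit 200)), ((nat_lit 615), (nat_lit 1000), (nat_lit 729))], ((nat_lit 100), (nat_lit 79), (nat_lit 55))⟩, (nat_lit 597955), (nat_lit 300), (nat_lit 964), (nat_lit 14674400), (nat_lit 1203703), [(nat_lit 1760928000), (nat_lit 2623712000), (nat_lit 3106818000)], [], [(nat_lit 11768602366), (nat_lit 11187591002), (nat_lit 10896668726), (nat_lit 10507766792), (nat_lit 8955879024), (nat_lit 8647284811), (nat_lit 12218501089), (nat_lit 7851945370)], (nat_lit 1271251), (nat_lit 1271251), (nat_lit 780000), (nat_lit 1762501), (nat_lit 0), (nat_lit 780000), [(nat_lit 1695001), (nat_lit 1271251), (nat_lit 1271251)], [(nat_lit 28), (nat_lit 65), (nat_lit 373), (nat_lit 150), (nat_lit 9)]⟩⟩)) (.spl (nat_lit 1) (nat_lit 220) (.ord (.trX (nat_lit 3) (nat_lit 0) (nat_lit 1) (nat_lit 72) (nat_lit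 63) (nat_lit 100) (nat_lit 360) (.spl (nat_lit 3) (nat_lit 280) (.leaf ⟨(nat_lit 920), (nat_lit 0), (nat_lit 0), (nat_lit 80), (nat_lit 0), (nat_lit 3352), (nat_lit 910), (nat_lit 853), (nat_lit 0), (nat_lit 2877038), (nat_lit 563600), [((nat_lit 360), [((nat_lit 39), (nat_lit 2), (nat_lit 891)), ((nat_lit 21), (nat_lit 2), (nat_lit 29))])], ⟨(nat_lit 5), false, true, true, (nat_lit 225), (nat_lit 3162), (nat_lit 3873), [(nat_lit 1478205), (nat_lit 1477844), (nat_lit 1521764), (nat_lit 1522126), (nat_lit 1607248), (nat_lit 1599750), (nat_lit 1650835), (nat_lit 1644060)]⟩, ⟨(nat_lit 4), false, false, false, (nat_lit 187), (nat_lit 3162), (nat_lit 3873), [(nat_lit 1349127), (nat_lit 1355902), (nat_lit 1392656), (nat_lit 1400154), (nat_lit 1542727), (nat_lit 1538797), (nat_lit 1586313), (nat_lit 1583107)]⟩, (nat_lit 4984799), (nat_lit 41452231), (nat_lit 14623487), (nat_lit 10924282), (nat_lit 0), (nat_lit 0), [], [], [], [],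
 ⟨⟨[(nat_lit 40), (nat_lit 60), (nat_lit 80)], [(nat_lit 0), (nat_lit 398), (nat_lit 992)], [((nat_lit 0), (nat_lit 0), (nat_lit 0)), ((nat_lit 1000), (nat_lit 814), (nat_lit 310)), ((nat_lit 1000), (nat_lit 752), (nat_lit 464))], ((nat_lit 73), (nat_lit 100), (nat_lit 55))⟩, (nat_lit 644917), (nat_lit 176), (nat_lit 176), (nat_lit 0), (nat_lit 391529), [(nat_lit 1353581873), (nat_lit 1306369111), (nat_lit 1163080489)], [(nat_lit 0), (nat_lit 0), (nat_lit 0)], [(nat_lit 19790696662), (nat_lit 21012570084), (nat_lit 22611082886), (nat_lit 23714057776), (nat_lit 22447752756), (nat_lit 23513730180), (nat_lit 24823953376), (nat_lit 25751917212)], (nat_lit 1271251), (nat_lit 1271251), (nat_lit 1271251), (nat_lit 1271251), (nat_lit 780000), (nat_lit 1762501), [(nat_lit 490000), (nat_lit 780000), (nat_lit 1100000)], [(nat_lit 2), (nat_lit 44), (nat_lit 272), (nat_lit 60), (nat_lit 11)]⟩,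
 ⟨⟨[(nat_lit 120), (nat_lit 160), (nat_lit 180)], [(nat_lit 0), (nat_lit 533), (nat_lit 2066)], [((nat_lit 0), (nat_lit 0), (nat_lit 0)), ((nat_lit 960), (nat_lit 1000), (nat_lit 200)), ((nat_lit 615), (nat_lit 1000), (nat_lit 729))], ((nat_lit 100), (nat_lit 79), (nat_lit 55))⟩, (nat_lit 1069850), (nat_lit 996), (nat_lit 996), (nat_lit 0), (nat_lit 1562325), [(nat_lit 637440000), (nat_lit 949760000), (nat_lit 1124640000)], [], [(nat_lit 3161370750), (nat_lit 2205874390), (nat_lit 1818834403), (nat_lit 1800018415), (nat_lit 3998796785), (nat_lit 3135136715), (nat_lit 2866226375), (nat_lit 2891001685)], (nat_lit 1271251), (nat_lit 1271251), (nat_lit 1271251), (nat_lit 1271251), (nat_lit 780000), (nat_lit 3072501), [(nat_lit 1695001), (nat_lit 1271251), (nat_lit 1271251)], [(nat_lit 28), (nat_lit 65), (nat_lit 456), (nat_lit 225), (nat_lit 10)]⟩,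
 ⟨⟨[(nat_lit 120), (nat_lit 160), (nat_lit 180)], [(nat_lit 0), (nat_lit 533), (nat_lit 2066)], [((nat_lit 0), (nat_lit 0), (nat_lit 0)), ((nat_lit 960), (nat_lit 1000), (nat_lit 200)), ((nat_lit 615), (nat_lit 1000), (nat_lit 729))], ((nat_lit 100), (nat_lit 79), (nat_lit 55))⟩, (nat_lit 205692), (nat_lit 300), (nat_lit 1035), (nat_lit 5312000), (nat_lit 1562325), [(nat_lit 637440000), (nat_lit 949760000), (nat_lit 1124640000)], [], [(nat_lit 4936816079), (nat_lit 4023443359), (nat_lit 3798822910), (nat_lit 3709123562), (nat_lit 3789689942), (nat_lit 3711264685), (nat_lit 4943401802), (nat_lit 4144901678)], (nat_lit 1271251), (nat_lit 1271251), (nat_lit 780000), (nat_lit 1762501), (nat_lit 780000), (nat_lit 3072501), [(nat_lit 1695001), (nat_lit 1271251), (nat_lit 1271251)], [(nat_lit 28), (nat_lit 65), (nat_lit 456), (nat_lit 225), (nat_lit 10)]⟩⟩) (.leaf ⟨(nat_lit 903), (nat_lit 13), (nat_lit 0), (nat_lit 84), (nat_lit 0), (nat_lit 3198), (nat_lit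 1036), (nat_lit 883), (nat_lit 0), (nat_lit 7953), (nat_lit 541800), [((nat_lit 360), [((nat_lit 39), (nat_lit 2), (nat_lit 903))])], ⟨(nat_lit 7), false, true, true, (nat_lit 275), (nat_lit 3162), (nat_lit 3873), [(nat_lit 1607248), (nat_lit 1599750), (nat_lit 1650835), (nat_lit 1644060), (nat_lit 1736292), (nat_lit 1721657), (nat_lit 1779878), (nat_lit 1765967)]⟩, ⟨(nat_lit 4), false, false, false, (nat_lit 187), (nat_lit 3162), (nat_lit 3873), [(nat_lit 1349127), (nat_lit 1355902), (nat_lit 1392656), (nat_lit 1400154), (nat_lit 1542727), (nat_lit 1538797), (nat_lit 1586313), (nat_lit 1583107)]⟩, (nat_lit 5218927), (nat_lit 37713289), (nat_lit 19033072), (nat_lit 10253639), (nat_lit 4), (nat_lit 0), [⟨(nat_lit 1), (nat_lit 75), (nat_lit 66), (nat_lit 100), (nat_lit 211461688)⟩], [], [], [],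
 ⟨⟨[(nat_lit 40), (nat_lit 60), (nat_lit 80)], [(nat_lit 0), (nat_lit 398), (nat_lit 992)], [((nat_lit 0), (nat_lit 0), (nat_lit 0)), ((nat_lit 1000), (nat_lit 814), (nat_lit 310)), ((nat_lit 1000), (nat_lit 752), (nat_lit 464))], ((nat_lit 73), (nat_lit 100), (nat_lit 55))⟩, (nat_lit 434904), (nat_lit 195), (nat_lit 195), (nat_lit 0), (nat_lit 391529), [(nat_lit 1364160407), (nat_lit 1351386077), (nat_lit 1267987323)], [(nat_lit 0), (nat_lit 0), (nat_lit 0)], [(nat_lit 23344581199), (nat_lit 24254700521), (nat_lit 26524011463), (nat_lit 27637500728), (nat_lit 25293911410), (nat_lit 26143197658), (nat_lit 28205351958), (nat_lit 29062289866)], (nat_lit 1271251), (nat_lit 1271251), (nat_lit 1271251), (nat_lit 1271251), (nat_lit 780000), (nat_lit 1762501), [(nat_lit 490000), (nat_lit 780000), (nat_lit 1100000)], [(nat_lit 2), (nat_lit 44), (nat_lit 272), (nat_lit 60), (nat_lit 10)]⟩,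
 ⟨⟨[(nat_lit 120), (nat_lit 160), (nat_lit 180)], [(nat_lit 0), (nat_lit 533), (nat_lit 2066)], [((nat_lit 0), (nat_lit 0), (nat_lit 0)), ((nat_lit 960), (nat_lit 1000), (nat_lit 200)), ((nat_lit 615), (nat_lit 1000), (nat_lit 729))], ((nat_lit 100), (nat_lit 79), (nat_lit 55))⟩, (nat_lit 1387800), (nat_lit 968), (nat_lit 968), (nat_lit 0), (nat_lit 1562325), [(nat_lit 772896000), (nat_lit 1151584000), (nat_lit 1363626000)], [], [(nat_lit 2581293311), (nat_lit 2526828906), (nat_lit 2709830195), (nat_lit 2729090008), (nat_lit 3400536373), (nat_lit 3434356915), (nat_lit 3955815087), (nat_lit 3940792189)], (nat_lit 1271251), (nat_lit 1271251), (nat_lit 1271251), (nat_lit 1271251), (nat_lit 780000), (nat_lit 3072501), [(nat_lit 1695001), (nat_lit 1271251), (nat_lit 1271251)], [(nat_lit 28), (nat_lit 65), (nat_lit 483), (nat_lit 250), (nat_lit 11)]⟩,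
 ⟨⟨[(nat_lit 120), (nat_lit 160), (nat_lit 180)], [(nat_lit 0), (nat_lit 533), (nat_lit 2066)], [((nat_lit 0), (nat_lit 0), (nat_lit 0)), ((nat_lit 960), (nat_lit 1000), (nat_lit 200)), ((nat_lit 615), (nat_lit 1000), (nat_lit 729))], ((nat_lit 100), (nat_lit 79), (nat_lit 55))⟩, (nat_lit 196683), (nat_lit 300), (nat_lit 1035), (nat_lit 5577600), (nat_lit 1562325), [(nat_lit 669312000), (nat_lit 997248000), (nat_lit 1180872000)], [], [(nat_lit 5143625152), (nat_lit 4289915013), (nat_lit 4058558786), (nat_lit 3966303798), (nat_lit 4012422997), (nat_lit 3931958658), (nat_lit 5161458246), (nat_lit 4334874882)], (nat_lit 1271251), (nat_lit 1271251), (nat_lit 780000), (nat_lit 1762501), (nat_lit 780000), (nat_lit 3072501), [(nat_lit 1695001), (nat_lit 1271251), (nat_lit 1271251)], [(nat_lit 28), (nat_lit 65), (nat_lit 456), (nat_lit 225), (nat_lit 10)]⟩⟩)))) (.spl (nat_lit 2) (nat_lit 220) (.leaf ⟨(nat_lit 600), (nat_lit 232), (nat_lit 0), (nat_lit 168),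 (nat_lit 0), (nat_lit 3654), (nat_lit 2876), (nat_lit 1742), (nat_lit 0), (nat_lit 0), (nat_lit 283700), [((nat_lit 360), [((nat_lit 21), (nat_lit 0), (nat_lit 218)), ((nat_lit 39), (nat_lit 2), (nat_lit 382))])], ⟨(nat_lit 5), false, true, true, (nat_lit 267), (nat_lit 3162), (nat_lit 3873), [(nat_lit 1521764), (nat_lit 1522126), (nat_lit 1543529), (nat_lit 1544252), (nat_lit 1796008), (nat_lit 1781205), (nat_lit 1817802), (nat_lit 1803360)]⟩, ⟨(nat_lit 4), false, false, false, (nat_lit 187), (nat_lit 3162), (nat_lit 3873), [(nat_lit 1349127), (nat_lit 1355902), (nat_lit 1392656), (nat_lit 1400154), (nat_lit 1542727), (nat_lit 1538797), (nat_lit 1586313), (nat_lit 1583107)]⟩, (nat_lit 5188154), (nat_lit 38358560), (nat_lit 18264654), (nat_lit 10376786), (nat_lit 4), (nat_lit 0), [], [], [], [],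
 ⟨⟨[(nat_lit 40), (nat_lit 60), (nat_lit 80)], [(nat_lit 0), (nat_lit 398), (nat_lit 992)], [((nat_lit 0), (nat_lit 0), (nat_lit 0)), ((nat_lit 1000), (nat_lit 814), (nat_lit 310)), ((nat_lit 1000), (nat_lit 752), (nat_lit 464))], ((nat_lit 73), (nat_lit 100), (nat_lit 55))⟩, (nat_lit 2524581), (nat_lit 207), (nat_lit 207), (nat_lit 0), (nat_lit 427476), [(nat_lit 1558352001), (nat_lit 2134593174), (nat_lit 2627812000)], [(nat_lit 0), (nat_lit 0), (nat_lit 0)], [(nat_lit 20588877191), (nat_lit 21833903090), (nat_lit 27739869285), (nat_lit 28885162767), (nat_lit 23183463870), (nat_lit 24222490515), (nat_lit 29081297637), (nat_lit 30044185381)], (nat_lit 1271251), (nat_lit 1271251), (nat_lit 1271251), (nat_lit 1271251), (nat_lit 780000), (nat_lit 1762501), [(nat_lit 490000), (nat_lit 780000), (nat_lit 1100000)], [(nat_lit 2), (nat_lit 44), (nat_lit 272), (nat_lit 60), (nat_lit 11)]⟩,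
 ⟨⟨[(nat_lit 100), (nat_lit 140), (nat_lit 160)], [(nat_lit 0), (nat_lit 508), (nat_lit 1689)], [((nat_lit 0), (nat_lit 0), (nat_lit 0)), ((nat_lit 1000), (nat_lit 1000), (nat_lit 198)), ((nat_lit 811), (nat_lit 1000), (nat_lit 671))], ((nat_lit 100), (nat_lit 89), (nat_lit 55))⟩, (nat_lit 4352314), (nat_lit 701), (nat_lit 701), (nat_lit 0), (nat_lit 1111424), [(nat_lit 2500000000), (nat_lit 3936800000), (nat_lit 4748800000)], [], [(nat_lit 13420379738), (nat_lit 12500964496), (nat_lit 14133563562), (nat_lit 14165612892), (nat_lit 14316988092), (nat_lit 14316489776), (nat_lit 14982197504), (nat_lit 14932578540)], (nat_lit 1271251), (nat_lit 1271251), (nat_lit 1271251), (nat_lit 1271251), (nat_lit 780000), (nat_lit 3072501), [(nat_lit 1412501), (nat_lit 1271251), (nat_lit 1271251)], [(nat_lit 23), (nat_lit 62), (nat_lit 538), (nat_lit 300), (nat_lit 13)]⟩,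
 ⟨⟨[(nat_lit 120), (nat_lit 160), (nat_lit 180)], [(nat_lit 0), (nat_lit 533), (nat_lit 2066)], [((nat_lit 0), (nat_lit 0), (nat_lit 0)), ((nat_lit 960), (nat_lit 1000), (nat_lit 200)), ((nat_lit 615), (nat_lit 1000), (nat_lit 729))], ((nat_lit 100), (nat_lit 79), (nat_lit 55))⟩, (nat_lit 478675), (nat_lit 300), (nat_lit 1121), (nat_lit 11155200), (nat_lit 1735662), [(nat_lit 1338624000), (nat_lit 1994496000), (nat_lit 2361744000)], [], [(nat_lit 10211300773), (nat_lit 8703718380), (nat_lit 8249534452), (nat_lit 8068684860), (nat_lit 8093762158), (nat_lit 7930568519), (nat_lit 10267681116), (nat_lit 8636980980)], (nat_lit 1271251), (nat_lit 1271251), (nat_lit 780000), (nat_lit 1762501), (nat_lit 780000), (nat_lit 3072501), [(nat_lit 1695001), (nat_lit 1271251), (nat_lit 1271251)], [(nat_lit 28), (nat_lit 65), (nat_lit 456), (nat_lit 225), (nat_lit 10)]⟩⟩) (.leaf ⟨(nat_lit 0), (nat_lit 240), (nat_lit 0), (nat_lit 760), (nat_lit 0), (nat_lit 4598), (nat_lit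 7593), (nat_lit 7991), (nat_lit 0), (nat_lit 72521630), (nat_lit 0), [], Pd.none, Pd.none, (nat_lit 0), (nat_lit 1), (nat_lit 0), (nat_lit 0), (nat_lit 5), (nat_lit 0), [], [], [], [],
 ⟨⟨[(nat_lit 40), (nat_lit 60), (nat_lit 80)], [(nat_lit 0), (nat_lit 398), (nat_lit 992)], [((nat_lit 0), (nat_lit 0), (nat_lit 0)), ((nat_lit 1000), (nat_lit 814), (nat_lit 310)), ((nat_lit 1000), (nat_lit 752), (nat_lit 464))], ((nat_lit 73), (nat_lit 100), (nat_lit 55))⟩, (nat_lit 9125375), (nat_lit 216), (nat_lit 216), (nat_lit 0), (nat_lit 460344), [(nat_lit 2032000757), (nat_lit 3744606592), (nat_lit 4688000000)], [], [(nat_lit 20082186199), (nat_lit 21485391856), (nat_lit 29040853977), (nat_lit 30315483011), (nat_lit 22639465290), (nat_lit 23891580228), (nat_lit 30043922167), (nat_lit 31103505129)], (nat_lit 1271251), (nat_lit 1271251), (nat_lit 1271251), (nat_lit 1271251), (nat_lit 780000), (nat_lit 1762501), [(nat_lit 490000), (nat_lit 780000), (nat_lit 1100000)],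 [(nat_lit 2), (nat_lit 44), (nat_lit 272), (nat_lit 60), (nat_lit 11)]⟩,
 ⟨⟨[(nat_lit 100), (nat_lit 140), (nat_lit 160)], [(nat_lit 0), (nat_lit 508), (nat_lit 1689)], [((nat_lit 0), (nat_lit 0), (nat_lit 0)), ((nat_lit 1000), (nat_lit 1000), (nat_lit 198)), ((nat_lit 811), (nat_lit 1000), (nat_lit 671))], ((nat_lit 100), (nat_lit 89), (nat_lit 55))⟩, (nat_lit 11043812), (nat_lit 746), (nat_lit 746), (nat_lit 0), (nat_lit 1212394), [(nat_lit 6250000000), (nat_lit 9842000000), (nat_lit 11872000000)], [], [(nat_lit 33960165822), (nat_lit 32407695139), (nat_lit 35415741990), (nat_lit 35407859766), (nat_lit 35396848964), (nat_lit 35320633820), (nat_lit 37150456594), (nat_lit 37197106436)], (nat_lit 1271251), (nat_lit 1271251), (nat_lit 1271251), (nat_lit 1271251), (nat_lit 780000), (nat_lit 3072501), [(nat_lit 1412501), (nat_lit 1271251), (nat_lit 1271251)], [(nat_lit 23), (nat_lit 62), (nat_lit 538), (nat_lit 300), (nat_lit 13)]⟩,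
 ⟨⟨[(nat_lit 100), (nat_lit 140), (nat_lit 160)], [(nat_lit 0), (nat_lit 508), (nat_lit 1689)], [((nat_lit 0), (nat_lit 0), (nat_lit 0)), ((nat_lit 1000), (nat_lit 1000), (nat_lit 198)), ((nat_lit 811), (nat_lit 1000), (nat_lit 671))], ((nat_lit 100), (nat_lit 89), (nat_lit 55))⟩, (nat_lit 2521043), (nat_lit 300), (nat_lit 780), (nat_lit 47500000), (nat_lit 1212394), [(nat_lit 4750000000), (nat_lit 7479920000), (nat_lit 9022720000)], [], [(nat_lit 30475978198), (nat_lit 30289542417), (nat_lit 28507312342), (nat_lit 28270650506), (nat_lit 40496935674), (nat_lit 36805716972), (nat_lit 53264586867), (nat_lit 49715200424)], (nat_lit 1271251), (nat_lit 1271251), (nat_lit 780000), (nat_lit 1762501), (nat_lit 780000), (nat_lit 3072501), [(nat_lit 1412501), (nat_lit 1271251), (nat_lit 1271251)], [(nat_lit 23), (nat_lit 62), (nat_lit 456), (nat_lit 225), (nat_lit 11)]⟩⟩))))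
noncomputable def c7_28 : Tr Lf :=
 (.spl (nat_lit 5) (nat_lit 120) (.spl (nat_lit 1) (nat_lit 220) (.ord (.trX (nat_lit 3) (nat_lit 0) (nat_lit 1) (nat_lit 72) (nat_lit 63) (nat_lit 100) (nat_lit 360) (.trX (nat_lit 4) (nat_lit 0) (nat_lit 2) (nat_lit 72) (nat_lit 63) (nat_lit 100) (nat_lit 360) (.leaf ⟨(nat_lit 888), (nat_lit 0), (nat_lit 0), (nat_lit 112), (nat_lit 0), (nat_lit 3193), (nat_lit 1194), (nat_lit 1290), (nat_lit 0), (nat_lit 389045401740), (nat_lit 527900), [((nat_lit 360), [((nat_lit 21), (nat_lit 0), (nat_lit 14)), ((nat_lit 39), (nat_lit 2), (nat_lit 874))])], ⟨(nat_lit 5), false, true, true, (nat_lit 250), (nat_lit 3162), (nat_lit 3873), [(nat_lit 1478205), (nat_lit 1477844), (nat_lit 1521764), (nat_lit 1522126), (nat_lit 1736292), (nat_lit 1721657), (nat_lit 1779878), (nat_lit 1765967)]⟩, ⟨(nat_lit 6), false, true, true, (nat_lit 263), (nat_lit 3162), (nat_lit 3873), [(nat_lit 1542727), (nat_lit 1538797), (nat_lit 1586313), (nat_lit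 1583107), (nat_lit 1736292), (nat_lit 1721657), (nat_lit 1779878), (nat_lit 1765967)]⟩, (nat_lit 5538261), (nat_lit 35002564), (nat_lit 15361799), (nat_lit 16635637), (nat_lit 0), (nat_lit 0), [], [], [], [⟨(nat_lit 0), (nat_lit 94), (nat_lit 100), (nat_lit 88), (nat_lit 120722177)⟩],
 ⟨⟨[(nat_lit 40), (nat_lit 60), (nat_lit 80)], [(nat_lit 0), (nat_lit 398), (nat_lit 992)], [((nat_lit 0), (nat_lit 0), (nat_lit 0)), ((nat_lit 1000), (nat_lit 814), (nat_lit 310)), ((nat_lit 1000), (nat_lit 752), (nat_lit 464))], ((nat_lit 73), (nat_lit 100), (nat_lit 55))⟩, (nat_lit 642654), (nat_lit 179), (nat_lit 179), (nat_lit 0), (nat_lit 391529), [(nat_lit 1373782403), (nat_lit 1415628289), (nat_lit 1313202111)], [(nat_lit 0), (nat_lit 0), (nat_lit 0)], [(nat_lit 23049482093), (nat_lit 23980138843), (nat_lit 28254308267), (nat_lit 29056948531), (nat_lit 27542496005), (nat_lit 28363380385), (nat_lit 32078411485), (nat_lit 32810338457)], (nat_lit 1271251), (nat_lit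 1271251), (nat_lit 1271251), (nat_lit 1271251), (nat_lit 1271251), (nat_lit 1271251), [(nat_lit 490000), (nat_lit 780000), (nat_lit 1100000)], [(nat_lit 2), (nat_lit 44), (nat_lit 203), (nat_lit 0), (nat_lit 7)]⟩,
 ⟨⟨[(nat_lit 120), (nat_lit 160), (nat_lit 180)], [(nat_lit 0), (nat_lit 533), (nat_lit 2066)], [((nat_lit 0), (nat_lit 0), (nat_lit 0)), ((nat_lit 960), (nat_lit 1000), (nat_lit 200)), ((nat_lit 615), (nat_lit 1000), (nat_lit 729))], ((nat_lit 100), (nat_lit 79), (nat_lit 55))⟩, (nat_lit 1426507), (nat_lit 869), (nat_lit 869), (nat_lit 0), (nat_lit 1101931), [(nat_lit 892416000), (nat_lit 1329664000), (nat_lit 1574496000)], [], [(nat_lit 3886343519), (nat_lit 3586197474), (nat_lit 4244971700), (nat_lit 4299235538), (nat_lit 4423136447), (nat_lit 3273998609), (nat_lit 3193441384), (nat_lit 3245272414)], (nat_lit 1271251), (nat_lit 1271251), (nat_lit 1271251), (nat_lit 1271251), (nat_lit 0), (nat_lit 780000), [(nat_lit 1695001), (nat_lit 1271251),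 (nat_lit 1271251)], [(nat_lit 28), (nat_lit 65), (nat_lit 401), (nat_lit 175), (nat_lit 9)]⟩,
 ⟨⟨[(nat_lit 120), (nat_lit 160), (nat_lit 180)], [(nat_lit 0), (nat_lit 533), (nat_lit 2066)], [((nat_lit 0), (nat_lit 0), (nat_lit 0)), ((nat_lit 960), (nat_lit 1000), (nat_lit 200)), ((nat_lit 615), (nat_lit 1000), (nat_lit 729))], ((nat_lit 100), (nat_lit 79), (nat_lit 55))⟩, (nat_lit 262244), (nat_lit 300), (nat_lit 854), (nat_lit 7436800), (nat_lit 1101931), [(nat_lit 892416000), (nat_lit 1329664000), (nat_lit 1574496000)], [], [(nat_lit 5845148994), (nat_lit 5759771126), (nat_lit 5985713711), (nat_lit 5907343875), (nat_lit 4916419704), (nat_lit 4796168080), (nat_lit 4970988492), (nat_lit 4857678411)], (nat_lit 1271251), (nat_lit 1271251), (nat_lit 1271251), (nat_lit 1271251), (nat_lit 0), (nat_lit 780000), [(nat_lit 1695001), (nat_lit 1271251), (nat_lit 1271251)], [(nat_lit 28), (nat_lit 65), (nat_lit 401), (nat_lit 175), (nat_lit 9)]⟩⟩)))) (.leaf ⟨(nat_lit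 93), (nat_lit 439), (nat_lit 0), (nat_lit 468), (nat_lit 0), (nat_lit 4403), (nat_lit 9080), (nat_lit 6252), (nat_lit 0), (nat_lit 2914137), (nat_lit 357000), [((nat_lit 360), [((nat_lit 21), (nat_lit 2), (nat_lit 5)), ((nat_lit 39), (nat_lit 5), (nat_lit 88))])], ⟨(nat_lit 5), false, true, true, (nat_lit 267), (nat_lit 3162), (nat_lit 3873), [(nat_lit 1521764), (nat_lit 1522126), (nat_lit 1543529), (nat_lit 1544252), (nat_lit 1796008), (nat_lit 1781205), (nat_lit 1817802), (nat_lit 1803360)]⟩, ⟨(nat_lit 6), false, true, true, (nat_lit 270), (nat_lit 3162), (nat_lit 3873), [(nat_lit 1542727), (nat_lit 1538797), (nat_lit 1608082), (nat_lit 1605237), (nat_lit 1752422), (nat_lit 1736895), (nat_lit 1817802), (nat_lit 1803360)]⟩, (nat_lit 5626398), (nat_lit 33635830), (nat_lit 16490773), (nat_lit 16873397), (nat_lit 6), (nat_lit 0), [], [], [⟨(nat_lit 0), (nat_lit 100), (nat_lit 99), (nat_lit 20), (nat_lit 330523520)⟩], [⟨(nat_lit 0), (nat_lit 94), (nat_lit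 100), (nat_lit 92), (nat_lit 179835965)⟩],
 ⟨⟨[(nat_lit 40), (nat_lit 60), (nat_lit 80)], [(nat_lit 0), (nat_lit 398), (nat_lit 992)], [((nat_lit 0), (nat_lit 0), (nat_lit 0)), ((nat_lit 1000), (nat_lit 814), (nat_lit 310)), ((nat_lit 1000), (nat_lit 752), (nat_lit 464))], ((nat_lit 73), (nat_lit 100), (nat_lit 55))⟩, (nat_lit 4391221), (nat_lit 199), (nat_lit 199), (nat_lit 0), (nat_lit 460827), [(nat_lit 1912304139), (nat_lit 2932008018), (nat_lit 3378545200)], [(nat_lit 0), (nat_lit 0), (nat_lit 0)], [(nat_lit 22642557688), (nat_lit 23776383390), (nat_lit 29845074939), (nat_lit 30884683783), (nat_lit 29201046454), (nat_lit 30315454957), (nat_lit 34393300631), (nat_lit 35157201615)], (nat_lit 1271251), (nat_lit 1271251), (nat_lit 1271251), (nat_lit 1271251), (nat_lit 1271251), (nat_lit 1271251), [(nat_lit 490000), (nat_lit 780000), (nat_lit 1100000)], [(nat_lit 2), (nat_lit 44), (nat_lit 203), (nat_lit 0), (nat_lit 7)]⟩,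
 ⟨⟨[(nat_lit 100), (nat_lit 140), (nat_lit 160)], [(nat_lit 0), (nat_lit 508), (nat_lit 1689)], [((nat_lit 0), (nat_lit 0), (nat_lit 0)), ((nat_lit 1000), (nat_lit 1000), (nat_lit 198)), ((nat_lit 811), (nat_lit 1000), (nat_lit 671))], ((nat_lit 100), (nat_lit 89), (nat_lit 55))⟩, (nat_lit 11643670), (nat_lit 673), (nat_lit 673), (nat_lit 0), (nat_lit 847575), [(nat_lit 5668750000), (nat_lit 8926694000), (nat_lit 10767904000)], [], [(nat_lit 20533527114), (nat_lit 20833921716), (nat_lit 34566857912), (nat_lit 35192309322), (nat_lit 19072029212), (nat_lit 16517451217), (nat_lit 25229575315), (nat_lit 25866315843)], (nat_lit 1271251), (nat_lit 1271251), (nat_lit 1271251), (nat_lit 1271251), (nat_lit 0), (nat_lit 780000), [(nat_lit 1412501), (nat_lit 1271251), (nat_lit 1271251)], [(nat_lit 23), (nat_lit 62), (nat_lit 428), (nat_lit 200), (nat_lit 11)]⟩,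
 ⟨⟨[(nat_lit 120), (nat_lit 160), (nat_lit 180)], [(nat_lit 0), (nat_lit 533), (nat_lit 2066)], [((nat_lit 0), (nat_lit 0), (nat_lit 0)), ((nat_lit 960), (nat_lit 1000), (nat_lit 200)), ((nat_lit 615), (nat_lit 1000), (nat_lit 729))], ((nat_lit 100), (nat_lit 79), (nat_lit 55))⟩, (nat_lit 2257227), (nat_lit 300), (nat_lit 909), (nat_lit 31075200), (nat_lit 1203703), [(nat_lit 3729024000), (nat_lit 5556096000), (nat_lit 6579144000)], [], [(nat_lit 23025923640), (nat_lit 22453297632), (nat_lit 25100454411), (nat_lit 24458256558), (nat_lit 18143589462), (nat_lit 17454764976), (nat_lit 19628840503), (nat_lit 19014245085)], (nat_lit 1271251), (nat_lit 1271251), (nat_lit 1271251), (nat_lit 1271251), (nat_lit 0), (nat_lit 780000), [(nat_lit 1695001), (nat_lit 1271251), (nat_lit 1271251)], [(nat_lit 28), (nat_lit 65), (nat_lit 428), (nat_lit 200), (nat_lit 10)]⟩⟩)) (.stt (nat_lit 2) (.leaf ⟨(nat_lit 0), (nat_lit 445), (nat_lit 0), (nat_lit 555), (nat_lit 0),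 (nat_lit 4186), (nat_lit 9327), (nat_lit 5267), (nat_lit 0), (nat_lit 24949), (nat_lit 0), [], Pd.none, Pd.none, (nat_lit 0), (nat_lit 1), (nat_lit 0), (nat_lit 0), (nat_lit 6), (nat_lit 0), [], [], [], [],
 ⟨⟨[(nat_lit 40), (nat_lit 60), (nat_lit 80)], [(nat_lit 0), (nat_lit 398), (nat_lit 992)], [((nat_lit 0), (nat_lit 0), (nat_lit 0)), ((nat_lit 1000), (nat_lit 814), (nat_lit 310)), ((nat_lit 1000), (nat_lit 752), (nat_lit 464))], ((nat_lit 73), (nat_lit 100), (nat_lit 55))⟩, (nat_lit 2564770), (nat_lit 199), (nat_lit 199), (nat_lit 0), (nat_lit 461304), [(nat_lit 2032000007), (nat_lit 3282000023), (nat_lit 4688000000)], [], [(nat_lit 24342207480), (nat_lit 25325002831), (nat_lit 29840175415), (nat_lit 30641174900), (nat_lit 29254660334), (nat_lit 30055414849), (nat_lit 34114091292), (nat_lit 34865991054)], (nat_lit 1271251), (nat_lit 1271251), (nat_lit 1271251), (nat_lit 1271251), (nat_lit 1271251), (nat_lit 1271251), [(nat_lit 490000), (nat_lit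 780000), (nat_lit 1100000)], [(nat_lit 2), (nat_lit 44), (nat_lit 203), (nat_lit 0), (nat_lit 7)]⟩,
 ⟨⟨[(nat_lit 120), (nat_lit 160), (nat_lit 180)], [(nat_lit 0), (nat_lit 533), (nat_lit 2066)], [((nat_lit 0), (nat_lit 0), (nat_lit 0)), ((nat_lit 960), (nat_lit 1000), (nat_lit 200)), ((nat_lit 615), (nat_lit 1000), (nat_lit 729))], ((nat_lit 100), (nat_lit 79), (nat_lit 55))⟩, (nat_lit 21960029), (nat_lit 195), (nat_lit 195), (nat_lit 0), (nat_lit 0), [(nat_lit 7968000000), (nat_lit 11872000000), (nat_lit 14058000000)], [], [(nat_lit 17125379740), (nat_lit 18513859681), (nat_lit 27870239057), (nat_lit 29197500407), (nat_lit 30868973919), (nat_lit 31686189214), (nat_lit 39624292106), (nat_lit 39498165185)], (nat_lit 0), (nat_lit 0), (nat_lit 0), (nat_lit 0), (nat_lit 0), (nat_lit 0), [], [(nat_lit 28), (nat_lit 65), (nat_lit 538), (nat_lit 300), (nat_lit 12)]⟩,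
 ⟨⟨[(nat_lit 120), (nat_lit 160), (nat_lit 180)], [(nat_lit 0), (nat_lit 533), (nat_lit 2066)], [((nat_lit 0), (nat_lit 0), (nat_lit 0)), ((nat_lit 960), (nat_lit 1000), (nat_lit 200)), ((nat_lit 615), (nat_lit 1000), (nat_lit 729))], ((nat_lit 100), (nat_lit 79), (nat_lit 55))⟩, (nat_lit 1299512), (nat_lit 300), (nat_lit 1074), (nat_lit 36852001), (nat_lit 1763022), [(nat_lit 4422240000), (nat_lit 6588960000), (nat_lit 7802190000)], [], [(nat_lit 30473079220), (nat_lit 29620074713), (nat_lit 29493612181), (nat_lit 28586893770), (nat_lit 27277401514), (nat_lit 26347456086), (nat_lit 26136010726), (nat_lit 25220345032)], (nat_lit 1271251), (nat_lit 1271251), (nat_lit 1271251), (nat_lit 1271251), (nat_lit 780000), (nat_lit 3072501), [(nat_lit 1695001), (nat_lit 1271251), (nat_lit 1271251)], [(nat_lit 28), (nat_lit 65), (nat_lit 538), (nat_lit 300), (nat_lit 12)]⟩⟩) (.spl (nat_lit 1) (nat_lit 220) (.ord (.trX (nat_lit 3) (nat_lit 0) (nat_lit 1) (nat_lit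 72) (nat_lit 63) (nat_lit 100) (nat_lit 360) (.trX (nat_lit 4) (nat_lit 0) (nat_lit 2) (nat_lit 72) (nat_lit 63) (nat_lit 100) (nat_lit 360) (.leaf ⟨(nat_lit 686), (nat_lit 0), (nat_lit 0), (nat_lit 314), (nat_lit 0), (nat_lit 3222), (nat_lit 2877), (nat_lit 3723), (nat_lit 0), (nat_lit 3939772324330), (nat_lit 357000), [((nat_lit 360), [((nat_lit 21), (nat_lit 0), (nat_lit 156)), ((nat_lit 39), (nat_lit 2), (nat_lit 530))])], ⟨(nat_lit 5), false, true, true, (nat_lit 250), (nat_lit 3162), (nat_lit 3873), [(nat_lit 1478205), (nat_lit 1477844), (nat_lit 1521764), (nat_lit 1522126), (nat_lit 1736292), (nat_lit 1721657), (nat_lit 1779878), (nat_lit 1765967)]⟩, ⟨(nat_lit 6), false, true, true, (nat_lit 263), (nat_lit 3162), (nat_lit 3873), [(nat_lit 1542727), (nat_lit 1538797), (nat_lit 1586313), (nat_lit 1583107), (nat_lit 1736292), (nat_lit 1721657), (nat_lit 1779878), (nat_lit 1765967)]⟩, (nat_lit 5538261), (nat_lit 35002564), (nat_lit 15361799), (nat_lit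 16635637), (nat_lit 0), (nat_lit 0), [], [⟨(nat_lit 1), (nat_lit 75), (nat_lit 66), (nat_lit 100), (nat_lit 47530000)⟩], [], [],
 ⟨⟨[(nat_lit 40), (nat_lit 60), (nat_lit 80)], [(nat_lit 0), (nat_lit 398), (nat_lit 992)], [((nat_lit 0), (nat_lit 0), (nat_lit 0)), ((nat_lit 1000), (nat_lit 814), (nat_lit 310)), ((nat_lit 1000), (nat_lit 752), (nat_lit 464))], ((nat_lit 73), (nat_lit 100), (nat_lit 55))⟩, (nat_lit 2436850), (nat_lit 140), (nat_lit 140), (nat_lit 0), (nat_lit 272836), [(nat_lit 1503159241), (nat_lit 2010644596), (nat_lit 2228641600)], [(nat_lit 0), (nat_lit 0), (nat_lit 0)], [(nat_lit 22639527372), (nat_lit 23754009189), (nat_lit 28258588706), (nat_lit 29087928274), (nat_lit 27526976930), (nat_lit 28396409790), (nat_lit 32113737277), (nat_lit 32847488051)], (nat_lit 1271251), (nat_lit 1271251), (nat_lit 1271251), (nat_lit 1271251), (nat_lit 1271251), (nat_lit 1271251), [(nat_lit 490000), (nat_lit 780000), (nat_lit 1100000)], [(nat_lit 2),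 (nat_lit 44), (nat_lit 203), (nat_lit 0), (nat_lit 7)]⟩,
 ⟨⟨[(nat_lit 120), (nat_lit 160), (nat_lit 180)], [(nat_lit 0), (nat_lit 533), (nat_lit 2066)], [((nat_lit 0), (nat_lit 0), (nat_lit 0)), ((nat_lit 960), (nat_lit 1000), (nat_lit 200)), ((nat_lit 615), (nat_lit 1000), (nat_lit 729))], ((nat_lit 100), (nat_lit 79), (nat_lit 55))⟩, (nat_lit 4346628), (nat_lit 996), (nat_lit 996), (nat_lit 0), (nat_lit 1562325), [(nat_lit 2501952000), (nat_lit 3727808000), (nat_lit 4414212000)], [], [(nat_lit 11702997045), (nat_lit 11586583899), (nat_lit 11770163749), (nat_lit 11595177128), (nat_lit 14797635718), (nat_lit 12067141189), (nat_lit 12124270617), (nat_lit 12121778986)], (nat_lit 1271251), (nat_lit 1271251), (nat_lit 1271251), (nat_lit 1271251), (nat_lit 780000), (nat_lit 3072501), [(nat_lit 1695001), (nat_lit 1271251), (nat_lit 1271251)], [(nat_lit 28), (nat_lit 65), (nat_lit 483), (nat_lit 250), (nat_lit 11)]⟩,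
 ⟨⟨[(nat_lit 120), (nat_lit 160), (nat_lit 180)], [(nat_lit 0), (nat_lit 533), (nat_lit 2066)], [((nat_lit 0), (nat_lit 0), (nat_lit 0)), ((nat_lit 960), (nat_lit 1000), (nat_lit 200)), ((nat_lit 615), (nat_lit 1000), (nat_lit 729))], ((nat_lit 100), (nat_lit 79), (nat_lit 55))⟩, (nat_lit 1833546), (nat_lit 300), (nat_lit 767), (nat_lit 20849600), (nat_lit 1101931), [(nat_lit 2501952000), (nat_lit 3727808000), (nat_lit 4414212000)], [], [(nat_lit 13360941730), (nat_lit 13110978062), (nat_lit 13657123530), (nat_lit 13356214776), (nat_lit 12953154610), (nat_lit 12655367718), (nat_lit 13333238880), (nat_lit 13248855295)], (nat_lit 1271251), (nat_lit 1271251), (nat_lit 1271251), (nat_lit 1271251), (nat_lit 780000), (nat_lit 3072501), [(nat_lit 1695001), (nat_lit 1271251), (nat_lit 1271251)], [(nat_lit 28), (nat_lit 65), (nat_lit 483), (nat_lit 250), (nat_lit 11)]⟩⟩)))) (.leaf ⟨(nat_lit 0), (nat_lit 316), (nat_lit 0), (nat_lit 684), (nat_lit 0), (nat_lit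 4393), (nat_lit 7539), (nat_lit 7672), (nat_lit 0), (nat_lit 6177), (nat_lit 0), [], Pd.none, Pd.none, (nat_lit 0), (nat_lit 1), (nat_lit 0), (nat_lit 0), (nat_lit 6), (nat_lit 0), [], [], [], [],
 ⟨⟨[(nat_lit 40), (nat_lit 60), (nat_lit 80)], [(nat_lit 0), (nat_lit 398), (nat_lit 992)], [((nat_lit 0), (nat_lit 0), (nat_lit 0)), ((nat_lit 1000), (nat_lit 814), (nat_lit 310)), ((nat_lit 1000), (nat_lit 752), (nat_lit 464))], ((nat_lit 73), (nat_lit 100), (nat_lit 55))⟩, (nat_lit 8033805), (nat_lit 162), (nat_lit 162), (nat_lit 0), (nat_lit 316271), [(nat_lit 2032000002), (nat_lit 3654758699), (nat_lit 4688000000)], [], [(nat_lit 22558893522), (nat_lit 23769567098), (nat_lit 29834877645), (nat_lit 30873462175), (nat_lit 29190202525), (nat_lit 30303461267), (nat_lit 34380433841), (nat_lit 35143781774)], (nat_lit 1271251), (nat_lit 1271251), (nat_lit 1271251), (nat_lit 1271251), (nat_lit 1271251), (nat_lit 1271251), [(nat_lit 490000), (nat_lit 780000), (nat_lit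 1100000)], [(nat_lit 2), (nat_lit 44), (nat_lit 203), (nat_lit 0), (nat_lit 7)]⟩,
 ⟨⟨[(nat_lit 100), (nat_lit 140), (nat_lit 160)], [(nat_lit 0), (nat_lit 508), (nat_lit 1689)], [((nat_lit 0), (nat_lit 0), (nat_lit 0)), ((nat_lit 1000), (nat_lit 1000), (nat_lit 198)), ((nat_lit 811), (nat_lit 1000), (nat_lit 671))], ((nat_lit 100), (nat_lit 89), (nat_lit 55))⟩, (nat_lit 11827140), (nat_lit 746), (nat_lit 746), (nat_lit 0), (nat_lit 1213390), [(nat_lit 6250000000), (nat_lit 9842000000), (nat_lit 11872000000)], [], [(nat_lit 33905332845), (nat_lit 32702290897), (nat_lit 35709048113), (nat_lit 35703532257), (nat_lit 35702795711), (nat_lit 35629311860), (nat_lit 37076035286), (nat_lit 37125447167)], (nat_lit 1271251), (nat_lit 1271251), (nat_lit 1271251), (nat_lit 1271251), (nat_lit 780000), (nat_lit 3072501), [(nat_lit 1412501), (nat_lit 1271251), (nat_lit 1271251)], [(nat_lit 23), (nat_lit 62), (nat_lit 538), (nat_lit 300), (nat_lit 13)]⟩,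
 ⟨⟨[(nat_lit 120), (nat_lit 160), (nat_lit 180)], [(nat_lit 0), (nat_lit 533), (nat_lit 2066)], [((nat_lit 0), (nat_lit 0), (nat_lit 0)), ((nat_lit 960), (nat_lit 1000), (nat_lit 200)), ((nat_lit 615), (nat_lit 1000), (nat_lit 729))], ((nat_lit 100), (nat_lit 79), (nat_lit 55))⟩, (nat_lit 3145468), (nat_lit 300), (nat_lit 812), (nat_lit 45417600), (nat_lit 1203703), [(nat_lit 5450112000), (nat_lit 8120448000), (nat_lit 9615672000)], [], [(nat_lit 30845277862), (nat_lit 29787931192), (nat_lit 31026581583), (nat_lit 30008384579), (nat_lit 28901737840), (nat_lit 28018389712), (nat_lit 29539386425), (nat_lit 28731699920)], (nat_lit 1271251), (nat_lit 1271251), (nat_lit 1271251), (nat_lit 1271251), (nat_lit 780000), (nat_lit 3072501), [(nat_lit 1695001), (nat_lit 1271251), (nat_lit 1271251)], [(nat_lit 28), (nat_lit 65), (nat_lit 538), (nat_lit 300), (nat_lit 12)]⟩⟩))))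
noncomputable def c7_29 : Tr Lf :=
 (.spl (nat_lit 1) (nat_lit 180) (.ord (.leaf ⟨(nat_lit 1000), (nat_lit 0), (nat_lit 0), (nat_lit 0), (nat_lit 8585), (nat_lit 2876), (nat_lit 0), (nat_lit 0), (nat_lit 0), (nat_lit 815299854974), (nat_lit 697400), [((nat_lit 360), [((nat_lit 22), (nat_lit 1), (nat_lit 13)), ((nat_lit 39), (nat_lit 2), (nat_lit 737)), ((nat_lit 22), (nat_lit 2), (nat_lit 250))])], ⟨(nat_lit 3), false, false, false, (nat_lit 118), (nat_lit 3162), (nat_lit 3873), [(nat_lit 1106311), (nat_lit 1121813), (nat_lit 1171604), (nat_lit 1188192), (nat_lit 1412825), (nat_lit 1411379), (nat_lit 1478205), (nat_lit 1477844)]⟩, ⟨(nat_lit 3), false, false, false, (nat_lit 93), (nat_lit 3162), (nat_lit 3873), [(nat_lit 1106311), (nat_lit 1121813), (nat_lit 1171604), (nat_lit 1188192), (nat_lit 1283782), (nat_lit 1289472), (nat_lit 1349127), (nat_lit 1355902)]⟩, (nat_lit 2747917), (nat_lit 57116830), (nat_lit 5832340), (nat_lit 4050830), (nat_lit 0),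 (nat_lit 0), [], [⟨(nat_lit 0), (nat_lit 100), (nat_lit 60), (nat_lit 74), (nat_lit 45228033)⟩], [], [],
 ⟨⟨[(nat_lit 40), (nat_lit 80), (nat_lit 120)], [(nat_lit 0), (nat_lit 795), (nat_lit 2800)], [((nat_lit 0), (nat_lit 0), (nat_lit 0)), ((nat_lit 1000), (nat_lit 814), (nat_lit 310)), ((nat_lit 1000), (nat_lit 719), (nat_lit 783))], ((nat_lit 71), (nat_lit 100), (nat_lit 71))⟩, (nat_lit 0), (nat_lit 297), (nat_lit 297), (nat_lit 0), (nat_lit 110466), [(nat_lit 1305426605), (nat_lit 733398205), (nat_lit 0)], [(nat_lit 0), (nat_lit 0), (nat_lit 1165582335)], [(nat_lit 20430450246), (nat_lit 21907630507), (nat_lit 21763959905), (nat_lit 22724979961), (nat_lit 20339927414), (nat_lit 21408783153), (nat_lit 21715117788), (nat_lit 22697920652)], (nat_lit 1271251), (nat_lit 1271251), (nat_lit 54688), (nat_lit 1414376), (nat_lit 54688), (nat_lit 780000), [(nat_lit 490000), (nat_lit 1100000), (nat_lit 1785001)], [(nat_lit 4), (nat_lit 51), (nat_lit 317), (nat_lit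 100), (nat_lit 11)]⟩,
 Rw.none,
 Rw.none⟩)) (.trZ (nat_lit 0) (nat_lit 1) (nat_lit 3) (nat_lit 100) (nat_lit 72) (nat_lit 63) (nat_lit 40) (.spl (nat_lit 1) (nat_lit 220) (.ord (.spl (nat_lit 6) (nat_lit 52) (.spl (nat_lit 2) (nat_lit 180) (.leaf ⟨(nat_lit 1000), (nat_lit 0), (nat_lit 0), (nat_lit 0), (nat_lit 6185), (nat_lit 2986), (nat_lit 0), (nat_lit 0), (nat_lit 0), (nat_lit 0), (nat_lit 604800), [((nat_lit 360), [((nat_lit 39), (nat_lit 2), (nat_lit 988)), ((nat_lit 22), (nat_lit 2), (nat_lit 12))])], ⟨(nat_lit 4), false, false, false, (nat_lit 150), (nat_lit 3162), (nat_lit 3873), [(nat_lit 1220020), (nat_lit 1233931), (nat_lit 1263549), (nat_lit 1278184), (nat_lit 1478205), (nat_lit 1477844), (nat_lit 1521764), (nat_lit 1522126)]⟩, ⟨(nat_lit 3), false, false, false, (nat_lit 93), (nat_lit 3162), (nat_lit 3873), [(nat_lit 1106311), (nat_lit 1121813), (nat_lit 1171604), (nat_lit 1188192), (nat_lit 1283782), (nat_lit 1289472), (nat_lit 1349127),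 (nat_lit 1355902)]⟩, (nat_lit 3192434), (nat_lit 54408230), (nat_lit 8491356), (nat_lit 4100414), (nat_lit 0), (nat_lit 0), [⟨(nat_lit 0), (nat_lit 100), (nat_lit 60), (nat_lit 86), (nat_lit 17219591)⟩], [⟨(nat_lit 0), (nat_lit 100), (nat_lit 68), (nat_lit 58), (nat_lit 16765615)⟩, ⟨(nat_lit 0), (nat_lit 100), (nat_lit 60), (nat_lit 74), (nat_lit 45082539)⟩], [], [],
 ⟨⟨[(nat_lit 40), (nat_lit 80), (nat_lit 100)], [(nat_lit 0), (nat_lit 795), (nat_lit 1829)], [((nat_lit 0), (nat_lit 0), (nat_lit 0)), ((nat_lit 1000), (nat_lit 814), (nat_lit 310)), ((nat_lit 1000), (nat_lit 714), (nat_lit 692))], ((nat_lit 71), (nat_lit 100), (nat_lit 67))⟩, (nat_lit 0), (nat_lit 229), (nat_lit 229), (nat_lit 0), (nat_lit 104675), [(nat_lit 1308540802), (nat_lit 967180801), (nat_lit 309502400)], [(nat_lit 0), (nat_lit 0), (nat_lit 0)], [(nat_lit 19855228332), (nat_lit 21192635310), (nat_lit 21508733797), (nat_lit 22613880517), (nat_lit 19672351015), (nat_lit 20880325212),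 (nat_lit 21314268105), (nat_lit 22316347989)], (nat_lit 1271251), (nat_lit 1271251), (nat_lit 230000), (nat_lit 1420001), (nat_lit 54688), (nat_lit 780000), [(nat_lit 490000), (nat_lit 1100000), (nat_lit 1442501)], [(nat_lit 3), (nat_lit 50), (nat_lit 317), (nat_lit 100), (nat_lit 12)]⟩,
 Rw.none,
 Rw.none⟩) (.trZ (nat_lit 0) (nat_lit 2) (nat_lit 4) (nat_lit 100) (nat_lit 72) (nat_lit 63) (nat_lit 40) (.spl (nat_lit 6) (nat_lit 40) (.leaf ⟨(nat_lit 1000), (nat_lit 0), (nat_lit 0), (nat_lit 0), (nat_lit 7612), (nat_lit 3157), (nat_lit 0), (nat_lit 0), (nat_lit 0), (nat_lit 476766145825), (nat_lit 737800), [((nat_lit 360), [((nat_lit 21), (nat_lit 1), (nat_lit 437)), ((nat_lit 21), (nat_lit 2), (nat_lit 563))])], ⟨(nat_lit 4), false, false, false, (nat_lit 150), (nat_lit 3162), (nat_lit 3873), [(nat_lit 1220020), (nat_lit 1233931), (nat_lit 1263549), (nat_lit 1278184), (nat_lit 1478205), (nat_lit 1477844), (nat_lit 1521764), (nat_lit 1522126)]⟩, ⟨(nat_lit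 4), false, false, false, (nat_lit 125), (nat_lit 3162), (nat_lit 3873), [(nat_lit 1220020), (nat_lit 1233931), (nat_lit 1263549), (nat_lit 1278184), (nat_lit 1349127), (nat_lit 1355902), (nat_lit 1392656), (nat_lit 1400154)]⟩, (nat_lit 3634119), (nat_lit 52134864), (nat_lit 8480897), (nat_lit 6384239), (nat_lit 0), (nat_lit 0), [⟨(nat_lit 0), (nat_lit 100), (nat_lit 60), (nat_lit 86), (nat_lit 13018976)⟩], [⟨(nat_lit 0), (nat_lit 100), (nat_lit 60), (nat_lit 86), (nat_lit 201582765)⟩], [], [],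
 ⟨⟨[(nat_lit 40), (nat_lit 80), (nat_lit 100)], [(nat_lit 0), (nat_lit 795), (nat_lit 1829)], [((nat_lit 0), (nat_lit 0), (nat_lit 0)), ((nat_lit 1000), (nat_lit 814), (nat_lit 310)), ((nat_lit 1000), (nat_lit 714), (nat_lit 692))], ((nat_lit 72), (nat_lit 100), (nat_lit 61))⟩, (nat_lit 0), (nat_lit 183), (nat_lit 183), (nat_lit 0), (nat_lit 40505), [(nat_lit 1387836937), (nat_lit 541943073), (nat_lit 0)], [(nat_lit 0), (nat_lit 0), (nat_lit 513467873)], [(nat_lit 18542140894), (nat_lit 20628343646), (nat_lit 19880246357), (nat_lit 21125982974), (nat_lit 18204765148), (nat_lit 19523435198), (nat_lit 19934501380), (nat_lit 21021448524)], (nat_lit 1271251), (nat_lit 1271251), (nat_lit 230000), (nat_lit 1420001), (nat_lit 230000), (nat_lit 780000), [(nat_lit 490000), (nat_lit 1100000), (nat_lit 1442501)], [(nat_lit 3), (nat_lit 50), (nat_lit 317), (nat_lit 100), (nat_lit 12)]⟩,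
 Rw.none,
 Rw.none⟩) (.dle (nat_lit 0))))) (.dle (nat_lit 0)))) (.trZ (nat_lit 0) (nat_lit 1) (nat_lit 3) (nat_lit 100) (nat_lit 72) (nat_lit 77) (nat_lit 70) (.spl (nat_lit 2) (nat_lit 180) (.leaf ⟨(nat_lit 1000), (nat_lit 0), (nat_lit 0), (nat_lit 0), (nat_lit 6704), (nat_lit 2892), (nat_lit 0), (nat_lit 0), (nat_lit 0), (nat_lit 0), (nat_lit 758800), [((nat_lit 360), [((nat_lit 22), (nat_lit 1), (nat_lit 402)), ((nat_lit 22), (nat_lit 2), (nat_lit 598))])], ⟨(nat_lit 5), false, false, false, (nat_lit 172), (nat_lit 3162), (nat_lit 3873), [(nat_lit 1311964), (nat_lit 1323922), (nat_lit 1333729), (nat_lit 1346049), (nat_lit 1521764), (nat_lit 1522126), (nat_lit 1543529), (nat_lit 1544252)]⟩, ⟨(nat_lit 3), false, false, false, (nat_lit 93), (nat_lit 3162), (nat_lit 3873), [(nat_lit 1106311), (nat_lit 1121813), (nat_lit 1171604), (nat_lit 1188192), (nat_lit 1283782), (nat_lit 1289472), (nat_lit 1349127), (nat_lit 1355902)]⟩, (nat_lit 3474009), (nat_lit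 52332749), (nat_lit 10569961), (nat_lit 4097290), (nat_lit 0), (nat_lit 0), [], [⟨(nat_lit 0), (nat_lit 100), (nat_lit 68), (nat_lit 58), (nat_lit 546085)⟩, ⟨(nat_lit 0), (nat_lit 100), (nat_lit 60), (nat_lit 74), (nat_lit 53795738)⟩], [], [],
 ⟨⟨[(nat_lit 40), (nat_lit 80), (nat_lit 120)], [(nat_lit 0), (nat_lit 795), (nat_lit 2800)], [((nat_lit 0), (nat_lit 0), (nat_lit 0)), ((nat_lit 1000), (nat_lit 814), (nat_lit 310)), ((nat_lit 1000), (nat_lit 719), (nat_lit 783))], ((nat_lit 71), (nat_lit 100), (nat_lit 71))⟩, (nat_lit 0), (nat_lit 265), (nat_lit 265), (nat_lit 0), (nat_lit 141824), [(nat_lit 1388411349), (nat_lit 492574255), (nat_lit 0)], [(nat_lit 0), (nat_lit 0), (nat_lit 1624683055)], [(nat_lit 18678870506), (nat_lit 19880152226), (nat_lit 20533116035), (nat_lit 21660797648), (nat_lit 18534005674), (nat_lit 19621681331), (nat_lit 20442453841), (nat_lit 21489907099)], (nat_lit 1271251), (nat_lit 1271251), (nat_lit 422188), (nat_lit 1425626),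 (nat_lit 54688), (nat_lit 780000), [(nat_lit 490000), (nat_lit 1100000), (nat_lit 1785001)], [(nat_lit 4), (nat_lit 51), (nat_lit 317), (nat_lit 100), (nat_lit 10)]⟩,
 Rw.none,
 Rw.none⟩) (.trZ (nat_lit 0) (nat_lit 2) (nat_lit 4) (nat_lit 100) (nat_lit 72) (nat_lit 63) (nat_lit 40) (.spl (nat_lit 6) (nat_lit 48) (.spl (nat_lit 0) (nat_lit 350) (.spl (nat_lit 6) (nat_lit 40) (.leaf ⟨(nat_lit 1000), (nat_lit 0), (nat_lit 0), (nat_lit 0), (nat_lit 5690), (nat_lit 3454), (nat_lit 0), (nat_lit 0), (nat_lit 0), (nat_lit 263243786674), (nat_lit 518000), [((nat_lit 350), [((nat_lit 21), (nat_lit 1), (nat_lit 410)), ((nat_lit 39), (nat_lit 2), (nat_lit 590))])], ⟨(nat_lit 5), false, false, false, (nat_lit 172), (nat_lit 3535), (nat_lit 3873), [(nat_lit 1312072), (nat_lit 1317952), (nat_lit 1333859), (nat_lit 1339899), (nat_lit 1521787), (nat_lit 1521946), (nat_lit 1543574), (nat_lit 1543892)]⟩, ⟨(nat_lit 4), false, false, false, (nat_lit 128), (nat_lit 3535),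 (nat_lit 3873), [(nat_lit 1220103), (nat_lit 1226984), (nat_lit 1285464), (nat_lit 1292823), (nat_lit 1349157), (nat_lit 1352518), (nat_lit 1414519), (nat_lit 1418358)]⟩, (nat_lit 3932997), (nat_lit 49993654), (nat_lit 10414612), (nat_lit 6591734), (nat_lit 0), (nat_lit 0), [], [⟨(nat_lit 0), (nat_lit 100), (nat_lit 68), (nat_lit 89), (nat_lit 135469756)⟩], [], [],
 ⟨⟨[(nat_lit 40), (nat_lit 80), (nat_lit 100)], [(nat_lit 0), (nat_lit 795), (nat_lit 1829)], [((nat_lit 0), (nat_lit 0), (nat_lit 0)), ((nat_lit 1000), (nat_lit 814), (nat_lit 310)), ((nat_lit 1000), (nat_lit 714), (nat_lit 692))], ((nat_lit 72), (nat_lit 100), (nat_lit 61))⟩, (nat_lit 0), (nat_lit 167), (nat_lit 167), (nat_lit 0), (nat_lit 31979), [(nat_lit 1327824238), (nat_lit 1546945639), (nat_lit 401958361)], [(nat_lit 0), (nat_lit 0), (nat_lit 0)], [(nat_lit 18168142547), (nat_lit 19071880531), (nat_lit 20098911070), (nat_lit 20864849587), (nat_lit 17716242807), (nat_lit 18508218689),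 (nat_lit 19776900832), (nat_lit 20442623931)], (nat_lit 1271251), (nat_lit 1271251), (nat_lit 422188), (nat_lit 1425626), (nat_lit 230000), (nat_lit 780000), [(nat_lit 490000), (nat_lit 1100000), (nat_lit 1442501)], [(nat_lit 3), (nat_lit 50), (nat_lit 317), (nat_lit 100), (nat_lit 12)]⟩,
 Rw.none,
 Rw.none⟩) (.dle (nat_lit 0))) (.trZ (nat_lit 0) (nat_lit 1) (nat_lit 3) (nat_lit 100) (nat_lit 66) (nat_lit 82) (nat_lit 80) (.trZ (nat_lit 0) (nat_lit 2) (nat_lit 4) (nat_lit 100) (nat_lit 66) (nat_lit 68) (nat_lit 50) (.leaf ⟨(nat_lit 994), (nat_lit 6), (nat_lit 0), (nat_lit 0), (nat_lit 3607), (nat_lit 3537), (nat_lit 38), (nat_lit 0), (nat_lit 0), (nat_lit 216537743203), (nat_lit 357100), [((nat_lit 360), [((nat_lit 22), (nat_lit 0), (nat_lit 270)), ((nat_lit 22), (nat_lit 1), (nat_lit 724))])], ⟨(nat_lit 5), false, false, false, (nat_lit 176), (nat_lit 3162), (nat_lit 3536), [(nat_lit 1333628), (nat_lit 1339255), (nat_lit 1355573), (nat_lit 1361401),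 (nat_lit 1521944), (nat_lit 1522146), (nat_lit 1543888), (nat_lit 1544293)]⟩, ⟨(nat_lit 4), false, false, false, (nat_lit 133), (nat_lit 3162), (nat_lit 3536), [(nat_lit 1242661), (nat_lit 1249238), (nat_lit 1308494), (nat_lit 1315679), (nat_lit 1352511), (nat_lit 1355925), (nat_lit 1418344), (nat_lit 1422365)]⟩, (nat_lit 4044270), (nat_lit 49233094), (nat_lit 10783685), (nat_lit 6983221), (nat_lit 4), (nat_lit 0), [], [⟨(nat_lit 0), (nat_lit 100), (nat_lit 61), (nat_lit 92), (nat_lit 159381795)⟩], [], [⟨(nat_lit 1), (nat_lit 32), (nat_lit 100), (nat_lit 86), (nat_lit 1495099)⟩],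
 ⟨⟨[(nat_lit 40), (nat_lit 80), (nat_lit 100)], [(nat_lit 0), (nat_lit 1195), (nat_lit 2166)], [((nat_lit 0), (nat_lit 0), (nat_lit 0)), ((nat_lit 1000), (nat_lit 720), (nat_lit 465)), ((nat_lit 1000), (nat_lit 662), (nat_lit 740))], ((nat_lit 67), (nat_lit 100), (nat_lit 66))⟩, (nat_lit 687227), (nat_lit 155), (nat_lit 155), (nat_lit 0), (nat_lit 78908), [(nat_lit 1378244226), (nat_lit 1721946954), (nat_lit 1734571200)], [(nat_lit 0), (nat_lit 0), (nat_lit 0)], [(nat_lit 18463925851), (nat_lit 19542999522), (nat_lit 20454277386), (nat_lit 21357431131), (nat_lit 18110014992), (nat_lit 18905886095), (nat_lit 20035254400), (nat_lit 20706700614)], (nat_lit 1271251), (nat_lit 1271251), (nat_lit 490000), (nat_lit 1427501), (nat_lit 292188), (nat_lit 780000), [(nat_lit 490000), (nat_lit 1100000), (nat_lit 1442501)], [(nat_lit 3), (nat_lit 50), (nat_lit 317), (nat_lit 100), (nat_lit 12)]⟩,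
 ⟨⟨[(nat_lit 100), (nat_lit 140), (nat_lit 160)], [(nat_lit 0), (nat_lit 508), (nat_lit 1689)], [((nat_lit 0), (nat_lit 0), (nat_lit 0)), ((nat_lit 1000), (nat_lit 1000), (nat_lit 198)), ((nat_lit 811), (nat_lit 1000), (nat_lit 671))], ((nat_lit 100), (nat_lit 83), (nat_lit 65))⟩, (nat_lit 0), (nat_lit 424), (nat_lit 424), (nat_lit 0), (nat_lit 270769), [(nat_lit 37500000), (nat_lit 59052000), (nat_lit 71232000)], [], [(nat_lit 273472558), (nat_lit 270421392), (nat_lit 268870709), (nat_lit 270790236), (nat_lit 285711544), (nat_lit 285986440), (nat_lit 295230437), (nat_lit 278273776)], (nat_lit 1271251), (nat_lit 1271251), (nat_lit 490000), (nat_lit 1427501), (nat_lit 0), (nat_lit 2825001), [(nat_lit 1412501), (nat_lit 1271251), (nat_lit 1271251)], [(nat_lit 23), (nat_lit 62), (nat_lit 456), (nat_lit 225), (nat_lit 12)]⟩,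
 Rw.none⟩)))) (.dle (nat_lit 0)))))))))
noncomputable def c7_30 : Tr Lf :=
 (.spl (nat_lit 3) (nat_lit 120) (.spl (nat_lit 0) (nat_lit 350) (.spl (nat_lit 6) (nat_lit 48) (.leaf ⟨(nat_lit 1000), (nat_lit 0), (nat_lit 0), (nat_lit 0), (nat_lit 8054), (nat_lit 3468), (nat_lit 0), (nat_lit 0), (nat_lit 0), (nat_lit 127782), (nat_lit 622800), [((nat_lit 350), [((nat_lit 39), (nat_lit 2), (nat_lit 943)), ((nat_lit 22), (nat_lit 2), (nat_lit 57))])], ⟨(nat_lit 3), false, false, false, (nat_lit 105), (nat_lit 3535), (nat_lit 3873), [(nat_lit 1106345), (nat_lit 1114069), (nat_lit 1237068), (nat_lit 1245748), (nat_lit 1283782), (nat_lit 1286665), (nat_lit 1414519), (nat_lit 1418358)]⟩, ⟨(nat_lit 3), false, false, true, (nat_lit 165), (nat_lit 3535), (nat_lit 3873), [(nat_lit 1283782), (nat_lit 1286665), (nat_lit 1349157), (nat_lit 1352518), (nat_lit 1477347), (nat_lit 1474949), (nat_lit 1542727), (nat_lit 1540807)]⟩, (nat_lit 3560947), (nat_lit 52168872), (nat_lit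 4928397), (nat_lit 9902731), (nat_lit 0), (nat_lit 0), [⟨(nat_lit 0), (nat_lit 100), (nat_lit 68), (nat_lit 89), (nat_lit 165477800)⟩], [], [], [],
 ⟨⟨[(nat_lit 40), (nat_lit 80), (nat_lit 100)], [(nat_lit 0), (nat_lit 795), (nat_lit 1829)], [((nat_lit 0), (nat_lit 0), (nat_lit 0)), ((nat_lit 1000), (nat_lit 814), (nat_lit 310)), ((nat_lit 1000), (nat_lit 714), (nat_lit 692))], ((nat_lit 72), (nat_lit 100), (nat_lit 65))⟩, (nat_lit 812), (nat_lit 159), (nat_lit 159), (nat_lit 0), (nat_lit 63144), [(nat_lit 1307569110), (nat_lit 922108814), (nat_lit 207136400)], [(nat_lit 0), (nat_lit 0), (nat_lit 0)], [(nat_lit 18915673065), (nat_lit 19955751963), (nat_lit 17771619221), (nat_lit 18501453183), (nat_lit 22089401115), (nat_lit 22937225028), (nat_lit 20570126938), (nat_lit 21155746895)], (nat_lit 1271251), (nat_lit 1271251), (nat_lit 54688), (nat_lit 780000), (nat_lit 780000), (nat_lit 1762501), [(nat_lit 490000), (nat_lit 1100000), (nat_lit 1442501)], [(nat_lit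 3), (nat_lit 50), (nat_lit 317), (nat_lit 100), (nat_lit 12)]⟩,
 Rw.none,
 Rw.none⟩) (.dle (nat_lit 0))) (.leaf ⟨(nat_lit 1000), (nat_lit 0), (nat_lit 0), (nat_lit 0), (nat_lit 4804), (nat_lit 4062), (nat_lit 0), (nat_lit 0), (nat_lit 0), (nat_lit 24586), (nat_lit 250000), [((nat_lit 360), [((nat_lit 22), (nat_lit 0), (nat_lit 1000))])], ⟨(nat_lit 3), false, false, false, (nat_lit 108), (nat_lit 3162), (nat_lit 3536), [(nat_lit 1114056), (nat_lit 1121835), (nat_lit 1245722), (nat_lit 1254714), (nat_lit 1286665), (nat_lit 1289472), (nat_lit 1418344), (nat_lit 1422365)]⟩, ⟨(nat_lit 3), false, false, true, (nat_lit 166), (nat_lit 3162), (nat_lit 3536), [(nat_lit 1286665), (nat_lit 1289472), (nat_lit 1352511), (nat_lit 1355925), (nat_lit 1474949), (nat_lit 1472332), (nat_lit 1540807), (nat_lit 1538797)]⟩, (nat_lit 3595251), (nat_lit 51991219), (nat_lit 5094091), (nat_lit 9914690), (nat_lit 0), (nat_lit 0), [⟨(nat_lit 0), (nat_lit 100), (nat_lit 61), (nat_lit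 92), (nat_lit 232951328)⟩], [], [], [],
 ⟨⟨[(nat_lit 40), (nat_lit 80), (nat_lit 100)], [(nat_lit 0), (nat_lit 1195), (nat_lit 2166)], [((nat_lit 0), (nat_lit 0), (nat_lit 0)), ((nat_lit 1000), (nat_lit 720), (nat_lit 465)), ((nat_lit 1000), (nat_lit 662), (nat_lit 740))], ((nat_lit 66), (nat_lit 100), (nat_lit 72))⟩, (nat_lit 572928), (nat_lit 171), (nat_lit 171), (nat_lit 0), (nat_lit 112094), [(nat_lit 1568000051), (nat_lit 1970800033), (nat_lit 2330800000)], [(nat_lit 0), (nat_lit 0), (nat_lit 0)], [(nat_lit 21047250278), (nat_lit 22186750074), (nat_lit 19468907227), (nat_lit 20113910137), (nat_lit 23967045910), (nat_lit 24890597732), (nat_lit 21721394333), (nat_lit 22389361424)], (nat_lit 1271251), (nat_lit 1271251), (nat_lit 54688), (nat_lit 780000), (nat_lit 780000), (nat_lit 1762501), [(nat_lit 490000), (nat_lit 1100000), (nat_lit 1442501)], [(nat_lit 3), (nat_lit 50), (nat_lit 317), (nat_lit 100), (nat_lit 12)]⟩,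
 Rw.none,
 Rw.none⟩)) (.spl (nat_lit 6) (nat_lit 48) (.spl (nat_lit 0) (nat_lit 350) (.leaf ⟨(nat_lit 1000), (nat_lit 0), (nat_lit 0), (nat_lit 0), (nat_lit 4259), (nat_lit 4165), (nat_lit 0), (nat_lit 0), (nat_lit 0), (nat_lit 71479), (nat_lit 250000), [((nat_lit 350), [((nat_lit 22), (nat_lit 0), (nat_lit 1000))])], ⟨(nat_lit 3), false, false, false, (nat_lit 166), (nat_lit 3535), (nat_lit 3873), [(nat_lit 1283782), (nat_lit 1286665), (nat_lit 1414519), (nat_lit 1418358), (nat_lit 1412825), (nat_lit 1412188), (nat_lit 1543574), (nat_lit 1543892)]⟩, ⟨(nat_lit 3), false, false, true, (nat_lit 165), (nat_lit 3535), (nat_lit 3873), [(nat_lit 1283782), (nat_lit 1286665), (nat_lit 1349157), (nat_lit 1352518), (nat_lit 1477347), (nat_lit 1474949), (nat_lit 1542727), (nat_lit 1540807)]⟩, (nat_lit 4299000), (nat_lit 47651086), (nat_lit 9692415), (nat_lit 9656499), (nat_lit 0), (nat_lit 0), [], [], [], [],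
 ⟨⟨[(nat_lit 40), (nat_lit 80), (nat_lit 100)], [(nat_lit 0), (nat_lit 795), (nat_lit 1829)], [((nat_lit 0), (nat_lit 0), (nat_lit 0)), ((nat_lit 1000), (nat_lit 814), (nat_lit 310)), ((nat_lit 1000), (nat_lit 714), (nat_lit 692))], ((nat_lit 72), (nat_lit 100), (nat_lit 65))⟩, (nat_lit 0), (nat_lit 107), (nat_lit 107), (nat_lit 0), (nat_lit 97663), [(nat_lit 1730755641), (nat_lit 1970800087), (nat_lit 2330800000)], [(nat_lit 0), (nat_lit 0), (nat_lit 0)], [(nat_lit 17963123901), (nat_lit 18847635458), (nat_lit 19665285160), (nat_lit 20445178751), (nat_lit 20954586380), (nat_lit 21677943171), (nat_lit 22240895070), (nat_lit 22882333846)], (nat_lit 1271251), (nat_lit 1271251), (nat_lit 780000), (nat_lit 1435001), (nat_lit 780000), (nat_lit 1762501), [(nat_lit 490000), (nat_lit 1100000), (nat_lit 1442501)], [(nat_lit 3), (nat_lit 50), (nat_lit 345), (nat_lit 125), (nat_lit 12)]⟩,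
 Rw.none,
 Rw.none⟩) (.leaf ⟨(nat_lit 1000), (nat_lit 0), (nat_lit 0), (nat_lit 0), (nat_lit 2177), (nat_lit 3717), (nat_lit 0), (nat_lit 0), (nat_lit 0), (nat_lit 53485), (nat_lit 250000), [((nat_lit 360), [((nat_lit 22), (nat_lit 0), (nat_lit 1000))])], ⟨(nat_lit 3), false, false, false, (nat_lit 166), (nat_lit 3162), (nat_lit 3536), [(nat_lit 1286665), (nat_lit 1289472), (nat_lit 1418344), (nat_lit 1422365), (nat_lit 1412188), (nat_lit 1411379), (nat_lit 1543888), (nat_lit 1544293)]⟩, ⟨(nat_lit 3), false, false, true, (nat_lit 166), (nat_lit 3162), (nat_lit 3536), [(nat_lit 1286665), (nat_lit 1289472), (nat_lit 1352511), (nat_lit 1355925), (nat_lit 1474949), (nat_lit 1472332), (nat_lit 1540807), (nat_lit 1538797)]⟩, (nat_lit 4307418), (nat_lit 47586954), (nat_lit 9745759), (nat_lit 9667287), (nat_lit 0), (nat_lit 0), [], [], [], [],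
 ⟨⟨[(nat_lit 40), (nat_lit 80), (nat_lit 100)], [(nat_lit 0), (nat_lit 1195), (nat_lit 2166)], [((nat_lit 0), (nat_lit 0), (nat_lit 0)), ((nat_lit 1000), (nat_lit 720), (nat_lit 465)), ((nat_lit 1000), (nat_lit 662), (nat_lit 740))], ((nat_lit 67), (nat_lit 100), (nat_lit 66))⟩, (nat_lit 696878), (nat_lit 128), (nat_lit 128), (nat_lit 0), (nat_lit 172653), [(nat_lit 1568000441), (nat_lit 2095148166), (nat_lit 2330800000)], [(nat_lit 0), (nat_lit 0), (nat_lit 0)], [(nat_lit 19052431375), (nat_lit 19782171425), (nat_lit 20565460109), (nat_lit 21212936855), (nat_lit 21660740427), (nat_lit 22277323904), (nat_lit 22828131160), (nat_lit 23367221362)], (nat_lit 1271251), (nat_lit 1271251), (nat_lit 780000), (nat_lit 1435001), (nat_lit 780000), (nat_lit 1762501), [(nat_lit 490000), (nat_lit 1100000), (nat_lit 1442501)], [(nat_lit 3), (nat_lit 50), (nat_lit 345), (nat_lit 125), (nat_lit 12)]⟩,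
 Rw.none,
 Rw.none⟩)) (.leaf ⟨(nat_lit 1000), (nat_lit 0), (nat_lit 0), (nat_lit 0), (nat_lit 10222), (nat_lit 4072), (nat_lit 0), (nat_lit 0), (nat_lit 0), (nat_lit 39124), (nat_lit 250000), [((nat_lit 360), [((nat_lit 22), (nat_lit 0), (nat_lit 1000))])], ⟨(nat_lit 3), false, false, false, (nat_lit 166), (nat_lit 3162), (nat_lit 3873), [(nat_lit 1283782), (nat_lit 1289472), (nat_lit 1414421), (nat_lit 1422280), (nat_lit 1412825), (nat_lit 1411379), (nat_lit 1543529), (nat_lit 1544252)]⟩, ⟨(nat_lit 3), false, false, true, (nat_lit 165), (nat_lit 3162), (nat_lit 3873), [(nat_lit 1283782), (nat_lit 1289472), (nat_lit 1349127), (nat_lit 1355902), (nat_lit 1477347), (nat_lit 1472332), (nat_lit 1542727), (nat_lit 1538797)]⟩, (nat_lit 4302966), (nat_lit 47620897), (nat_lit 9718052), (nat_lit 9661051), (nat_lit 0), (nat_lit 0), [], [], [], [],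
 ⟨⟨[(nat_lit 40), (nat_lit 80), (nat_lit 120)], [(nat_lit 0), (nat_lit 795), (nat_lit 2800)], [((nat_lit 0), (nat_lit 0), (nat_lit 0)), ((nat_lit 1000), (nat_lit 814), (nat_lit 310)), ((nat_lit 1000), (nat_lit 719), (nat_lit 783))], ((nat_lit 71), (nat_lit 100), (nat_lit 71))⟩, (nat_lit 0), (nat_lit 104), (nat_lit 104), (nat_lit 0), (nat_lit 57990), [(nat_lit 1689308835), (nat_lit 1970800037), (nat_lit 2712400000)], [(nat_lit 0), (nat_lit 0), (nat_lit 0)], [(nat_lit 18017004633), (nat_lit 19763628069), (nat_lit 19726050705), (nat_lit 21266927221), (nat_lit 21010621201), (nat_lit 22440325037), (nat_lit 22309672193), (nat_lit 23578512392)], (nat_lit 1271251), (nat_lit 1271251), (nat_lit 780000), (nat_lit 1435001), (nat_lit 780000), (nat_lit 1762501), [(nat_lit 490000), (nat_lit 1100000), (nat_lit 1785001)], [(nat_lit 4), (nat_lit 51), (nat_lit 345), (nat_lit 125), (nat_lit 11)]⟩,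
 Rw.none,
 Rw.none⟩)))
noncomputable def c7_31 : Tr Lf :=
 (.ord (.trZ (nat_lit 0) (nat_lit 1) (nat_lit 3) (nat_lit 100) (nat_lit 72) (nat_lit 63) (nat_lit 40) (.spl (nat_lit 6) (nat_lit 48) (.spl (nat_lit 3) (nat_lit 120) (.spl (nat_lit 1) (nat_lit 220) (.ord (.spl (nat_lit 6) (nat_lit 40) (.leaf ⟨(nat_lit 971), (nat_lit 0), (nat_lit 0), (nat_lit 29), (nat_lit 5572), (nat_lit 3407), (nat_lit 295), (nat_lit 588), (nat_lit 0), (nat_lit 167566323646), (nat_lit 536000), [((nat_lit 360), [((nat_lit 21), (nat_lit 1), (nat_lit 233)), ((nat_lit 39), (nat_lit 2), (nat_lit 738))])], ⟨(nat_lit 4), false, false, false, (nat_lit 125), (nat_lit 3162), (nat_lit 3873), [(nat_lit 1220020), (nat_lit 1233931), (nat_lit 1263549), (nat_lit 1278184), (nat_lit 1349127), (nat_lit 1355902), (nat_lit 1392656), (nat_lit 1400154)]⟩, ⟨(nat_lit 4), false, false, false, (nat_lit 187), (nat_lit 3162), (nat_lit 3873), [(nat_lit 1349127), (nat_lit 1355902), (nat_lit 1392656), (nat_lit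 1400154), (nat_lit 1542727), (nat_lit 1538797), (nat_lit 1586313), (nat_lit 1583107)]⟩, (nat_lit 4054167), (nat_lit 48845390), (nat_lit 6285388), (nat_lit 11869222), (nat_lit 0), (nat_lit 0), [⟨(nat_lit 0), (nat_lit 100), (nat_lit 60), (nat_lit 86), (nat_lit 206294574)⟩], [], [], [],
 ⟨⟨[(nat_lit 40), (nat_lit 80), (nat_lit 100)], [(nat_lit 0), (nat_lit 795), (nat_lit 1829)], [((nat_lit 0), (nat_lit 0), (nat_lit 0)), ((nat_lit 1000), (nat_lit 814), (nat_lit 310)), ((nat_lit 1000), (nat_lit 714), (nat_lit 692))], ((nat_lit 72), (nat_lit 100), (nat_lit 61))⟩, (nat_lit 360), (nat_lit 143), (nat_lit 143), (nat_lit 0), (nat_lit 40505), [(nat_lit 1336060203), (nat_lit 1383188877), (nat_lit 535598923)], [(nat_lit 0), (nat_lit 0), (nat_lit 0)], [(nat_lit 18481823456), (nat_lit 20089495310), (nat_lit 18208994984), (nat_lit 19605251984), (nat_lit 21384903757), (nat_lit 22791846975), (nat_lit 20959386743), (nat_lit 22131478302)], (nat_lit 1271251), (nat_lit 1271251),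 (nat_lit 230000), (nat_lit 780000), (nat_lit 780000), (nat_lit 1762501), [(nat_lit 490000), (nat_lit 1100000), (nat_lit 1442501)], [(nat_lit 3), (nat_lit 50), (nat_lit 317), (nat_lit 100), (nat_lit 12)]⟩,
 ⟨⟨[(nat_lit 120), (nat_lit 160), (nat_lit 180)], [(nat_lit 0), (nat_lit 533), (nat_lit 2066)], [((nat_lit 0), (nat_lit 0), (nat_lit 0)), ((nat_lit 960), (nat_lit 1000), (nat_lit 200)), ((nat_lit 615), (nat_lit 1000), (nat_lit 729))], ((nat_lit 100), (nat_lit 74), (nat_lit 60))⟩, (nat_lit 95853), (nat_lit 490), (nat_lit 490), (nat_lit 0), (nat_lit 96625), [(nat_lit 231072000), (nat_lit 344288000), (nat_lit 407682000)], [], [(nat_lit 1653758188), (nat_lit 1339310903), (nat_lit 1182766384), (nat_lit 1193187945), (nat_lit 1605842534), (nat_lit 1333308554), (nat_lit 1777097022), (nat_lit 1511607937)], (nat_lit 1271251), (nat_lit 1271251), (nat_lit 230000), (nat_lit 780000), (nat_lit 0), (nat_lit 2825001), [(nat_lit 1695001), (nat_lit 1271251), (nat_lit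 1271251)], [(nat_lit 28), (nat_lit 65), (nat_lit 428), (nat_lit 200), (nat_lit 10)]⟩,
 ⟨⟨[(nat_lit 120), (nat_lit 160), (nat_lit 180)], [(nat_lit 0), (nat_lit 533), (nat_lit 2066)], [((nat_lit 0), (nat_lit 0), (nat_lit 0)), ((nat_lit 960), (nat_lit 1000), (nat_lit 200)), ((nat_lit 615), (nat_lit 1000), (nat_lit 729))], ((nat_lit 100), (nat_lit 74), (nat_lit 60))⟩, (nat_lit 13883), (nat_lit 300), (nat_lit 457), (nat_lit 2105555), (nat_lit 181142), [(nat_lit 231072000), (nat_lit 344288000), (nat_lit 407682000)], [], [(nat_lit 1713388446), (nat_lit 1555483707), (nat_lit 1544335240), (nat_lit 1383328426), (nat_lit 2186051918), (nat_lit 1656873674), (nat_lit 3040052080), (nat_lit 2530657096)], (nat_lit 1271251), (nat_lit 1271251), (nat_lit 780000), (nat_lit 1762501), (nat_lit 0), (nat_lit 2825001), [(nat_lit 1695001), (nat_lit 1271251), (nat_lit 1271251)], [(nat_lit 28), (nat_lit 65), (nat_lit 456), (nat_lit 225), (nat_lit 11)]⟩⟩) (.dle (nat_lit 0)))) (.trZ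 (nat_lit 0) (nat_lit 1) (nat_lit 3) (nat_lit 100) (nat_lit 72) (nat_lit 77) (nat_lit 70) (.leaf ⟨(nat_lit 941), (nat_lit 0), (nat_lit 0), (nat_lit 59), (nat_lit 5442), (nat_lit 3527), (nat_lit 677), (nat_lit 706), (nat_lit 0), (nat_lit 1682118), (nat_lit 564600), [((nat_lit 360), [((nat_lit 39), (nat_lit 2), (nat_lit 941))])], ⟨(nat_lit 5), false, false, false, (nat_lit 147), (nat_lit 3162), (nat_lit 3873), [(nat_lit 1311964), (nat_lit 1323922), (nat_lit 1333729), (nat_lit 1346049), (nat_lit 1392656), (nat_lit 1400154), (nat_lit 1414421), (nat_lit 1422280)]⟩, ⟨(nat_lit 4), false, false, false, (nat_lit 192), (nat_lit 3162), (nat_lit 3873), [(nat_lit 1349127), (nat_lit 1355902), (nat_lit 1414421), (nat_lit 1422280), (nat_lit 1542727), (nat_lit 1538797), (nat_lit 1608082), (nat_lit 1605237)]⟩, (nat_lit 4358216), (nat_lit 46882528), (nat_lit 8002538), (nat_lit 12114934), (nat_lit 0), (nat_lit 0), [⟨(nat_lit 0), (nat_lit 100), (nat_lit 67), (nat_lit 85),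 (nat_lit 155424866)⟩, ⟨(nat_lit 0), (nat_lit 100), (nat_lit 61), (nat_lit 92), (nat_lit 29996385)⟩], [], [], [],
 ⟨⟨[(nat_lit 40), (nat_lit 80), (nat_lit 100)], [(nat_lit 0), (nat_lit 795), (nat_lit 1829)], [((nat_lit 0), (nat_lit 0), (nat_lit 0)), ((nat_lit 1000), (nat_lit 814), (nat_lit 310)), ((nat_lit 1000), (nat_lit 714), (nat_lit 692))], ((nat_lit 72), (nat_lit 100), (nat_lit 65))⟩, (nat_lit 138969), (nat_lit 131), (nat_lit 131), (nat_lit 0), (nat_lit 79756), [(nat_lit 1342265507), (nat_lit 1308525582), (nat_lit 685678800)], [(nat_lit 0), (nat_lit 0), (nat_lit 0)], [(nat_lit 17722680316), (nat_lit 19323956416), (nat_lit 17955183114), (nat_lit 19456406562), (nat_lit 20627650710), (nat_lit 22042696608), (nat_lit 20725135213), (nat_lit 21973620511)], (nat_lit 1271251), (nat_lit 1271251), (nat_lit 422188), (nat_lit 780000), (nat_lit 780000), (nat_lit 1762501), [(nat_lit 490000), (nat_lit 1100000), (nat_lit 1442501)], [(nat_lit 3), (nat_lit 50), (nat_lit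 317), (nat_lit 100), (nat_lit 12)]⟩,
 ⟨⟨[(nat_lit 100), (nat_lit 140), (nat_lit 160)], [(nat_lit 0), (nat_lit 508), (nat_lit 1689)], [((nat_lit 0), (nat_lit 0), (nat_lit 0)), ((nat_lit 1000), (nat_lit 1000), (nat_lit 198)), ((nat_lit 811), (nat_lit 1000), (nat_lit 671))], ((nat_lit 100), (nat_lit 83), (nat_lit 65))⟩, (nat_lit 278856), (nat_lit 379), (nat_lit 379), (nat_lit 0), (nat_lit 154477), [(nat_lit 368750000), (nat_lit 580678000), (nat_lit 700448000)], [], [(nat_lit 2132684632), (nat_lit 1802781029), (nat_lit 1898514500), (nat_lit 1678646136), (nat_lit 3671272388), (nat_lit 3373387141), (nat_lit 3992291808), (nat_lit 3698996452)], (nat_lit 1271251), (nat_lit 1271251), (nat_lit 422188), (nat_lit 780000), (nat_lit 0), (nat_lit 2825001), [(nat_lit 1412501), (nat_lit 1271251), (nat_lit 1271251)], [(nat_lit 23), (nat_lit 62), (nat_lit 428), (nat_lit 200), (nat_lit 11)]⟩,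
 ⟨⟨[(nat_lit 120), (nat_lit 160), (nat_lit 180)], [(nat_lit 0), (nat_lit 533), (nat_lit 2066)], [((nat_lit 0), (nat_lit 0), (nat_lit 0)), ((nat_lit 960), (nat_lit 1000), (nat_lit 200)), ((nat_lit 615), (nat_lit 1000), (nat_lit 729))], ((nat_lit 100), (nat_lit 69), (nat_lit 65))⟩, (nat_lit 28246), (nat_lit 300), (nat_lit 564), (nat_lit 4283706), (nat_lit 346252), [(nat_lit 470112000), (nat_lit 700448000), (nat_lit 829422000)], [], [(nat_lit 3433292000), (nat_lit 3374651972), (nat_lit 3233915595), (nat_lit 3161450364), (nat_lit 3763182157), (nat_lit 2810121340), (nat_lit 4883591870), (nat_lit 3966161108)], (nat_lit 1271251), (nat_lit 1271251), (nat_lit 780000), (nat_lit 1762501), (nat_lit 0), (nat_lit 2825001), [(nat_lit 1695001), (nat_lit 1271251), (nat_lit 1271251)], [(nat_lit 28), (nat_lit 65), (nat_lit 456), (nat_lit 225), (nat_lit 11)]⟩⟩))) (.spl (nat_lit 0) (nat_lit 350) (.spl (nat_lit 6) (nat_lit 40) (.leaf ⟨(nat_lit 913), (nat_lit 0), (nat_lit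 0), (nat_lit 87), (nat_lit 3854), (nat_lit 3175), (nat_lit 1276), (nat_lit 912), (nat_lit 0), (nat_lit 46743), (nat_lit 228250), [((nat_lit 350), [((nat_lit 21), (nat_lit 0), (nat_lit 913))])], ⟨(nat_lit 4), false, false, false, (nat_lit 179), (nat_lit 3535), (nat_lit 3873), [(nat_lit 1349157), (nat_lit 1352518), (nat_lit 1414519), (nat_lit 1418358), (nat_lit 1478205), (nat_lit 1478046), (nat_lit 1543574), (nat_lit 1543892)]⟩, ⟨(nat_lit 4), false, false, false, (nat_lit 192), (nat_lit 3535), (nat_lit 3873), [(nat_lit 1349157), (nat_lit 1352518), (nat_lit 1414519), (nat_lit 1418358), (nat_lit 1542727), (nat_lit 1540807), (nat_lit 1608101), (nat_lit 1606659)]⟩, (nat_lit 4671155), (nat_lit 44603147), (nat_lit 10591325), (nat_lit 11805528), (nat_lit 0), (nat_lit 0), [], [], [], [],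
 ⟨⟨[(nat_lit 40), (nat_lit 80), (nat_lit 100)], [(nat_lit 0), (nat_lit 795), (nat_lit 1829)], [((nat_lit 0), (nat_lit 0), (nat_lit 0)), ((nat_lit 1000), (nat_lit 814), (nat_lit 310)), ((nat_lit 1000), (nat_lit 714), (nat_lit 692))], ((nat_lit 72), (nat_lit 100), (nat_lit 61))⟩, (nat_lit 0), (nat_lit 103), (nat_lit 103), (nat_lit 0), (nat_lit 46045), [(nat_lit 1579245203), (nat_lit 100339733953), (nat_lit 0)], [(nat_lit 0), (nat_lit 0), (nat_lit 10412250000)], [(nat_lit 17044757828), (nat_lit 17894717466), (nat_lit 18961346960), (nat_lit 19713276513), (nat_lit 20314064591), (nat_lit 21013007810), (nat_lit 21861493278), (nat_lit 22484136716)], (nat_lit 1271251), (nat_lit 1271251), (nat_lit 780000), (nat_lit 1435001), (nat_lit 780000), (nat_lit 1762501), [(nat_lit 490000), (nat_lit 1100000), (nat_lit 1442501)], [(nat_lit 3), (nat_lit 50), (nat_lit 345), (nat_lit 125), (nat_lit 12)]⟩,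
 ⟨⟨[(nat_lit 120), (nat_lit 160), (nat_lit 180)], [(nat_lit 0), (nat_lit 533), (nat_lit 2066)], [((nat_lit 0), (nat_lit 0), (nat_lit 0)), ((nat_lit 960), (nat_lit 1000), (nat_lit 200)), ((nat_lit 615), (nat_lit 1000), (nat_lit 729))], ((nat_lit 100), (nat_lit 74), (nat_lit 60))⟩, (nat_lit 363891), (nat_lit 434), (nat_lit 434), (nat_lit 0), (nat_lit 134613), [(nat_lit 693216000), (nat_lit 1032864000), (nat_lit 1223046000)], [], [(nat_lit 3277665771), (nat_lit 3316306100), (nat_lit 3812023610), (nat_lit 3176455166), (nat_lit 5877029510), (nat_lit 4154500328), (nat_lit 7165827964), (nat_lit 5486614516)], (nat_lit 1271251), (nat_lit 1271251), (nat_lit 780000), (nat_lit 1435001), (nat_lit 0), (nat_lit 2825001), [(nat_lit 1695001), (nat_lit 1271251), (nat_lit 1271251)], [(nat_lit 28), (nat_lit 65), (nat_lit 456), (nat_lit 225), (nat_lit 11)]⟩,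
 ⟨⟨[(nat_lit 120), (nat_lit 160), (nat_lit 180)], [(nat_lit 0), (nat_lit 533), (nat_lit 2066)], [((nat_lit 0), (nat_lit 0), (nat_lit 0)), ((nat_lit 960), (nat_lit 1000), (nat_lit 200)), ((nat_lit 615), (nat_lit 1000), (nat_lit 729))], ((nat_lit 100), (nat_lit 74), (nat_lit 60))⟩, (nat_lit 177249), (nat_lit 300), (nat_lit 434), (nat_lit 5864940), (nat_lit 134613), [(nat_lit 693216000), (nat_lit 1032864000), (nat_lit 1223046000)], [], [(nat_lit 4559214259), (nat_lit 4552426668), (nat_lit 4409513313), (nat_lit 4374387998), (nat_lit 5368976328), (nat_lit 4137826944), (nat_lit 6858688380), (nat_lit 5673565356)], (nat_lit 1271251), (nat_lit 1271251), (nat_lit 780000), (nat_lit 1762501), (nat_lit 0), (nat_lit 2825001), [(nat_lit 1695001), (nat_lit 1271251), (nat_lit 1271251)], [(nat_lit 28), (nat_lit 65), (nat_lit 456), (nat_lit 225), (nat_lit 11)]⟩⟩) (.dle (nat_lit 0))) (.leaf ⟨(nat_lit 941), (nat_lit 0), (nat_lit 0), (nat_lit 59), (nat_lit 953), (nat_lit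 3797), (nat_lit 844), (nat_lit 784), (nat_lit 0), (nat_lit 134450), (nat_lit 235250), [((nat_lit 360), [((nat_lit 22), (nat_lit 0), (nat_lit 941))])], ⟨(nat_lit 4), false, false, false, (nat_lit 180), (nat_lit 3162), (nat_lit 3536), [(nat_lit 1352511), (nat_lit 1355925), (nat_lit 1418344), (nat_lit 1422365), (nat_lit 1478046), (nat_lit 1477844), (nat_lit 1543888), (nat_lit 1544293)]⟩, ⟨(nat_lit 4), false, false, false, (nat_lit 192), (nat_lit 3162), (nat_lit 3536), [(nat_lit 1352511), (nat_lit 1355925), (nat_lit 1418344), (nat_lit 1422365), (nat_lit 1540807), (nat_lit 1538797), (nat_lit 1606660), (nat_lit 1605256)]⟩, (nat_lit 4681087), (nat_lit 44518019), (nat_lit 10650293), (nat_lit 11831688), (nat_lit 0), (nat_lit 0), [], [], [], [],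
 ⟨⟨[(nat_lit 40), (nat_lit 80), (nat_lit 100)], [(nat_lit 0), (nat_lit 1195), (nat_lit 2166)], [((nat_lit 0), (nat_lit 0), (nat_lit 0)), ((nat_lit 1000), (nat_lit 720), (nat_lit 465)), ((nat_lit 1000), (nat_lit 662), (nat_lit 740))], ((nat_lit 67), (nat_lit 100), (nat_lit 66))⟩, (nat_lit 797095), (nat_lit 109), (nat_lit 109), (nat_lit 0), (nat_lit 113140), [(nat_lit 1581570052), (nat_lit 2286369207), (nat_lit 2562032800)], [(nat_lit 0), (nat_lit 0), (nat_lit 0)], [(nat_lit 18984232542), (nat_lit 19769347723), (nat_lit 20488876338), (nat_lit 21173846771), (nat_lit 21608494523), (nat_lit 22255211162), (nat_lit 22754211332), (nat_lit 23414836242)], (nat_lit 1271251), (nat_lit 1271251), (nat_lit 780000), (nat_lit 1435001), (nat_lit 780000), (nat_lit 1762501), [(nat_lit 490000), (nat_lit 1100000), (nat_lit 1442501)], [(nat_lit 3), (nat_lit 50), (nat_lit 345), (nat_lit 125), (nat_lit 12)]⟩,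
 ⟨⟨[(nat_lit 120), (nat_lit 160), (nat_lit 180)], [(nat_lit 0), (nat_lit 533), (nat_lit 2066)], [((nat_lit 0), (nat_lit 0), (nat_lit 0)), ((nat_lit 960), (nat_lit 1000), (nat_lit 200)), ((nat_lit 615), (nat_lit 1000), (nat_lit 729))], ((nat_lit 100), (nat_lit 69), (nat_lit 65))⟩, (nat_lit 243878), (nat_lit 565), (nat_lit 565), (nat_lit 0), (nat_lit 348899), [(nat_lit 470112000), (nat_lit 700448000), (nat_lit 829422000)], [], [(nat_lit 2286934402), (nat_lit 2261555014), (nat_lit 2577288626), (nat_lit 2171162416), (nat_lit 3955795726), (nat_lit 2816442568), (nat_lit 4812072076), (nat_lit 3701369764)], (nat_lit 1271251), (nat_lit 1271251), (nat_lit 780000), (nat_lit 1435001), (nat_lit 0), (nat_lit 2825001), [(nat_lit 1695001), (nat_lit 1271251), (nat_lit 1271251)], [(nat_lit 28), (nat_lit 65), (nat_lit 456), (nat_lit 225), (nat_lit 11)]⟩,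
 ⟨⟨[(nat_lit 120), (nat_lit 160), (nat_lit 180)], [(nat_lit 0), (nat_lit 533), (nat_lit 2066)], [((nat_lit 0), (nat_lit 0), (nat_lit 0)), ((nat_lit 960), (nat_lit 1000), (nat_lit 200)), ((nat_lit 615), (nat_lit 1000), (nat_lit 729))], ((nat_lit 100), (nat_lit 69), (nat_lit 65))⟩, (nat_lit 28245), (nat_lit 300), (nat_lit 565), (nat_lit 4283711), (nat_lit 348899), [(nat_lit 470112000), (nat_lit 700448000), (nat_lit 829422000)], [], [(nat_lit 3342137933), (nat_lit 3269889284), (nat_lit 3107324061), (nat_lit 3020107704), (nat_lit 3872050696), (nat_lit 2813694208), (nat_lit 5090627660), (nat_lit 4071837692)], (nat_lit 1271251), (nat_lit 1271251), (nat_lit 780000), (nat_lit 1762501), (nat_lit 0), (nat_lit 2825001), [(nat_lit 1695001), (nat_lit 1271251), (nat_lit 1271251)], [(nat_lit 28), (nat_lit 65), (nat_lit 456), (nat_lit 225), (nat_lit 11)]⟩⟩))) (.dle (nat_lit 0)))))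
noncomputable def c7_32 : Tr Lf :=
 (.trX (nat_lit 5) (nat_lit 4) (nat_lit 3) (nat_lit 100) (nat_lit 59) (nat_lit 94) (nat_lit 370) (.spl (nat_lit 1) (nat_lit 180) (.leaf ⟨(nat_lit 1000), (nat_lit 0), (nat_lit 0), (nat_lit 0), (nat_lit 8536), (nat_lit 2874), (nat_lit 0), (nat_lit 0), (nat_lit 0), (nat_lit 2421842811823), (nat_lit 620000), [((nat_lit 360), [((nat_lit 39), (nat_lit 2), (nat_lit 950)), ((nat_lit 22), (nat_lit 2), (nat_lit 50))])], ⟨(nat_lit 3), false, false, false, (nat_lit 93), (nat_lit 3162), (nat_lit 3873), [(nat_lit 1106311), (nat_lit 1121813), (nat_lit 1171604), (nat_lit 1188192), (nat_lit 1283782), (nat_lit 1289472), (nat_lit 1349127), (nat_lit 1355902)]⟩, ⟨(nat_lit 6), false, false, true, (nat_lit 231), (nat_lit 3162), (nat_lit 3873), [(nat_lit 1477347), (nat_lit 1472332), (nat_lit 1542727), (nat_lit 1538797), (nat_lit 1622521), (nat_lit 1609477), (nat_lit 1687900), (nat_lit 1675942)]⟩, (nat_lit 4036121), (nat_lit 46693774), (nat_lit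 3963433), (nat_lit 16342793), (nat_lit 0), (nat_lit 0), [⟨(nat_lit 0), (nat_lit 100), (nat_lit 60), (nat_lit 74), (nat_lit 65208358)⟩], [⟨(nat_lit 1), (nat_lit 92), (nat_lit 68), (nat_lit 100), (nat_lit 239674870)⟩], [], [],
 ⟨⟨[(nat_lit 40), (nat_lit 80), (nat_lit 120)], [(nat_lit 0), (nat_lit 795), (nat_lit 2800)], [((nat_lit 0), (nat_lit 0), (nat_lit 0)), ((nat_lit 1000), (nat_lit 814), (nat_lit 310)), ((nat_lit 1000), (nat_lit 719), (nat_lit 783))], ((nat_lit 71), (nat_lit 100), (nat_lit 71))⟩, (nat_lit 0), (nat_lit 200), (nat_lit 200), (nat_lit 0), (nat_lit 110466), [(nat_lit 1307720035), (nat_lit 929120178), (nat_lit 0)], [(nat_lit 0), (nat_lit 0), (nat_lit 483000178)], [(nat_lit 22993518995), (nat_lit 23949128137), (nat_lit 22713620635), (nat_lit 23584357275), (nat_lit 26130692115), (nat_lit 27074513744), (nat_lit 25854442468), (nat_lit 26708804251)], (nat_lit 1271251), (nat_lit 1271251), (nat_lit 54688), (nat_lit 780000), (nat_lit 1271251), (nat_lit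 1271251), [(nat_lit 490000), (nat_lit 1100000), (nat_lit 1785001)], [(nat_lit 4), (nat_lit 51), (nat_lit 238), (nat_lit 30), (nat_lit 7)]⟩,
 Rw.none,
 Rw.none⟩) (.trZ (nat_lit 0) (nat_lit 1) (nat_lit 3) (nat_lit 100) (nat_lit 72) (nat_lit 63) (nat_lit 40) (.spl (nat_lit 3) (nat_lit 80) (.trX (nat_lit 5) (nat_lit 4) (nat_lit 3) (nat_lit 100) (nat_lit 76) (nat_lit 82) (nat_lit 340) (.leaf ⟨(nat_lit 1000), (nat_lit 0), (nat_lit 0), (nat_lit 0), (nat_lit 14582), (nat_lit 3005), (nat_lit 0), (nat_lit 0), (nat_lit 0), (nat_lit 0), (nat_lit 698200), [((nat_lit 360), [((nat_lit 22), (nat_lit 1), (nat_lit 503)), ((nat_lit 22), (nat_lit 2), (nat_lit 497))])], ⟨(nat_lit 4), false, false, false, (nat_lit 117), (nat_lit 3162), (nat_lit 3873), [(nat_lit 1220020), (nat_lit 1233931), (nat_lit 1285313), (nat_lit 1300309), (nat_lit 1284573), (nat_lit 1294916), (nat_lit 1349867), (nat_lit 1361295)]⟩, ⟨(nat_lit 6), false, false, true, (nat_lit 231), (nat_lit 3162), (nat_lit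 3873), [(nat_lit 1477347), (nat_lit 1472332), (nat_lit 1542727), (nat_lit 1538797), (nat_lit 1622521), (nat_lit 1609477), (nat_lit 1687900), (nat_lit 1675942)]⟩, (nat_lit 4323427), (nat_lit 45388990), (nat_lit 5493518), (nat_lit 16117492), (nat_lit 0), (nat_lit 0), [⟨(nat_lit 0), (nat_lit 100), (nat_lit 66), (nat_lit 78), (nat_lit 676378660)⟩], [⟨(nat_lit 1), (nat_lit 92), (nat_lit 68), (nat_lit 100), (nat_lit 238566333)⟩], [], [],
 ⟨⟨[(nat_lit 40), (nat_lit 80), (nat_lit 120)], [(nat_lit 0), (nat_lit 795), (nat_lit 2800)], [((nat_lit 0), (nat_lit 0), (nat_lit 0)), ((nat_lit 1000), (nat_lit 814), (nat_lit 310)), ((nat_lit 1000), (nat_lit 719), (nat_lit 783))], ((nat_lit 71), (nat_lit 100), (nat_lit 71))⟩, (nat_lit 0), (nat_lit 182), (nat_lit 182), (nat_lit 0), (nat_lit 114017), [(nat_lit 1324401753), (nat_lit 711397069), (nat_lit 0)], [(nat_lit 0), (nat_lit 0), (nat_lit 1154120269)], [(nat_lit 21614009226), (nat_lit 22627819806), (nat_lit 21207002083),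 (nat_lit 22224756741), (nat_lit 25355446171), (nat_lit 26609007657), (nat_lit 24528340601), (nat_lit 25575844797)], (nat_lit 1271251), (nat_lit 1271251), (nat_lit 230000), (nat_lit 490000), (nat_lit 1271251), (nat_lit 1271251), [(nat_lit 490000), (nat_lit 1100000), (nat_lit 1785001)], [(nat_lit 4), (nat_lit 51), (nat_lit 226), (nat_lit 20), (nat_lit 6)]⟩,
 Rw.none,
 Rw.none⟩)) (.spl (nat_lit 2) (nat_lit 160) (.trX (nat_lit 4) (nat_lit 0) (nat_lit 2) (nat_lit 73) (nat_lit 85) (nat_lit 100) (nat_lit 320) (.spl (nat_lit 0) (nat_lit 350) (.spl (nat_lit 6) (nat_lit 48) (.leaf ⟨(nat_lit 1000), (nat_lit 0), (nat_lit 0), (nat_lit 0), (nat_lit 7406), (nat_lit 3178), (nat_lit 0), (nat_lit 0), (nat_lit 0), (nat_lit 0), (nat_lit 562000), [((nat_lit 350), [((nat_lit 22), (nat_lit 1), (nat_lit 190)), ((nat_lit 39), (nat_lit 2), (nat_lit 810))])], ⟨(nat_lit 4), false, false, false, (nat_lit 141), (nat_lit 3535), (nat_lit 3873), [(nat_lit 1284630), (nat_lit 1289751),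 (nat_lit 1349991), (nat_lit 1355590), (nat_lit 1349157), (nat_lit 1352518), (nat_lit 1414519), (nat_lit 1418358)]⟩, ⟨(nat_lit 6), false, false, true, (nat_lit 225), (nat_lit 3535), (nat_lit 3873), [(nat_lit 1477347), (nat_lit 1474949), (nat_lit 1520934), (nat_lit 1518855), (nat_lit 1606390), (nat_lit 1600472), (nat_lit 1649977), (nat_lit 1644378)]⟩, (nat_lit 4549215), (nat_lit 44513874), (nat_lit 7276247), (nat_lit 15209879), (nat_lit 0), (nat_lit 0), [⟨(nat_lit 0), (nat_lit 100), (nat_lit 68), (nat_lit 89), (nat_lit 37589830)⟩], [⟨(nat_lit 1), (nat_lit 94), (nat_lit 72), (nat_lit 100), (nat_lit 238930984)⟩], [], [],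
 ⟨⟨[(nat_lit 40), (nat_lit 80), (nat_lit 100)], [(nat_lit 0), (nat_lit 795), (nat_lit 1829)], [((nat_lit 0), (nat_lit 0), (nat_lit 0)), ((nat_lit 1000), (nat_lit 814), (nat_lit 310)), ((nat_lit 1000), (nat_lit 714), (nat_lit 692))], ((nat_lit 72), (nat_lit 100), (nat_lit 65))⟩, (nat_lit 0), (nat_lit 113), (nat_lit 113), (nat_lit 0), (nat_lit 62591), [(nat_lit 1318224024), (nat_lit 1112849248), (nat_lit 553020000)], [(nat_lit 0), (nat_lit 0), (nat_lit 0)], [(nat_lit 20878958810), (nat_lit 21467941987), (nat_lit 21270227475), (nat_lit 21832211755), (nat_lit 24101995458), (nat_lit 24602259571), (nat_lit 24350367978), (nat_lit 24828962695)], (nat_lit 1271251), (nat_lit 1271251), (nat_lit 490000), (nat_lit 780000), (nat_lit 1271251), (nat_lit 1271251), [(nat_lit 490000), (nat_lit 1100000), (nat_lit 1442501)], [(nat_lit 3), (nat_lit 50), (nat_lit 238), (nat_lit 30), (nat_lit 8)]⟩,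
 Rw.none,
 Rw.none⟩) (.dle (nat_lit 0))) (.trX (nat_lit 4) (nat_lit 0) (nat_lit 2) (nat_lit 68) (nat_lit 89) (nat_lit 100) (nat_lit 300) (.leaf ⟨(nat_lit 1000), (nat_lit 0), (nat_lit 0), (nat_lit 0), (nat_lit 5760), (nat_lit 3304), (nat_lit 0), (nat_lit 0), (nat_lit 0), (nat_lit 0), (nat_lit 360100), [((nat_lit 360), [((nat_lit 22), (nat_lit 0), (nat_lit 266)), ((nat_lit 22), (nat_lit 1), (nat_lit 734))])], ⟨(nat_lit 4), false, false, false, (nat_lit 143), (nat_lit 3162), (nat_lit 3536), [(nat_lit 1289740), (nat_lit 1294962), (nat_lit 1355573), (nat_lit 1361401), (nat_lit 1352511), (nat_lit 1355925), (nat_lit 1418344), (nat_lit 1422365)]⟩, ⟨(nat_lit 6), false, false, true, (nat_lit 217), (nat_lit 3162), (nat_lit 3536), [(nat_lit 1474949), (nat_lit 1472332), (nat_lit 1518855), (nat_lit 1516642), (nat_lit 1569092), (nat_lit 1563762), (nat_lit 1612997), (nat_lit 1608072)]⟩, (nat_lit 4512523), (nat_lit 45071657), (nat_lit 7469473), (nat_lit 14458870), (nat_lit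 0), (nat_lit 0), [⟨(nat_lit 0), (nat_lit 100), (nat_lit 61), (nat_lit 92), (nat_lit 49936835)⟩], [⟨(nat_lit 1), (nat_lit 89), (nat_lit 68), (nat_lit 100), (nat_lit 256859786)⟩], [], [],
 ⟨⟨[(nat_lit 40), (nat_lit 80), (nat_lit 100)], [(nat_lit 0), (nat_lit 1195), (nat_lit 2166)], [((nat_lit 0), (nat_lit 0), (nat_lit 0)), ((nat_lit 1000), (nat_lit 720), (nat_lit 465)), ((nat_lit 1000), (nat_lit 662), (nat_lit 740))], ((nat_lit 66), (nat_lit 100), (nat_lit 72))⟩, (nat_lit 487341), (nat_lit 127), (nat_lit 127), (nat_lit 0), (nat_lit 110795), [(nat_lit 1374224253), (nat_lit 1728126669), (nat_lit 1702496000)], [(nat_lit 0), (nat_lit 0), (nat_lit 0)], [(nat_lit 21474768831), (nat_lit 22074159167), (nat_lit 21820904521), (nat_lit 22392582327), (nat_lit 23857059835), (nat_lit 24444060972), (nat_lit 24093161262), (nat_lit 24600557505)], (nat_lit 1271251), (nat_lit 1271251), (nat_lit 490000), (nat_lit 780000), (nat_lit 1271251), (nat_lit 1271251), [(nat_lit 490000),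 (nat_lit 1100000), (nat_lit 1442501)], [(nat_lit 3), (nat_lit 50), (nat_lit 238), (nat_lit 30), (nat_lit 8)]⟩,
 Rw.none,
 Rw.none⟩)))) (.spl (nat_lit 6) (nat_lit 48) (.spl (nat_lit 0) (nat_lit 350) (.spl (nat_lit 6) (nat_lit 36) (.leaf ⟨(nat_lit 907), (nat_lit 0), (nat_lit 0), (nat_lit 93), (nat_lit 19981), (nat_lit 3254), (nat_lit 1852), (nat_lit 1072), (nat_lit 0), (nat_lit 0), (nat_lit 534800), [((nat_lit 350), [((nat_lit 21), (nat_lit 1), (nat_lit 47)), ((nat_lit 39), (nat_lit 2), (nat_lit 860))])], ⟨(nat_lit 4), false, false, false, (nat_lit 141), (nat_lit 3535), (nat_lit 3873), [(nat_lit 1284630), (nat_lit 1289751), (nat_lit 1349991), (nat_lit 1355590), (nat_lit 1349157), (nat_lit 1352518), (nat_lit 1414519), (nat_lit 1418358)]⟩, ⟨(nat_lit 6), false, false, true, (nat_lit 241), (nat_lit 3535), (nat_lit 3873), [(nat_lit 1520934), (nat_lit 1518855), (nat_lit 1542727), (nat_lit 1540807), (nat_lit 1666107), (nat_lit 1660068), (nat_lit 1687900), (nat_lit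 1682021)]⟩, (nat_lit 4653072), (nat_lit 43111896), (nat_lit 7150689), (nat_lit 16737415), (nat_lit 0), (nat_lit 0), [⟨(nat_lit 0), (nat_lit 100), (nat_lit 68), (nat_lit 89), (nat_lit 175762447)⟩], [⟨(nat_lit 1), (nat_lit 83), (nat_lit 70), (nat_lit 100), (nat_lit 155014791)⟩], [⟨(nat_lit 0), (nat_lit 100), (nat_lit 98), (nat_lit 10), (nat_lit 46827284)⟩], [],
 ⟨⟨[(nat_lit 40), (nat_lit 80), (nat_lit 100)], [(nat_lit 0), (nat_lit 795), (nat_lit 1829)], [((nat_lit 0), (nat_lit 0), (nat_lit 0)), ((nat_lit 1000), (nat_lit 814), (nat_lit 310)), ((nat_lit 1000), (nat_lit 714), (nat_lit 692))], ((nat_lit 72), (nat_lit 100), (nat_lit 58))⟩, (nat_lit 0), (nat_lit 106), (nat_lit 106), (nat_lit 0), (nat_lit 22319), [(nat_lit 1363731145), (nat_lit 1449968438), (nat_lit 761342562)], [(nat_lit 0), (nat_lit 0), (nat_lit 0)], [(nat_lit 21040215705), (nat_lit 21635476216), (nat_lit 21420976800), (nat_lit 21988807969), (nat_lit 24780370061), (nat_lit 25300541968), (nat_lit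 24986536421), (nat_lit 25486833127)], (nat_lit 1271251), (nat_lit 1271251), (nat_lit 490000), (nat_lit 780000), (nat_lit 1271251), (nat_lit 1271251), [(nat_lit 490000), (nat_lit 1100000), (nat_lit 1442501)], [(nat_lit 3), (nat_lit 50), (nat_lit 238), (nat_lit 30), (nat_lit 8)]⟩,
 ⟨⟨[(nat_lit 120), (nat_lit 160), (nat_lit 180)], [(nat_lit 0), (nat_lit 533), (nat_lit 2066)], [((nat_lit 0), (nat_lit 0), (nat_lit 0)), ((nat_lit 960), (nat_lit 1000), (nat_lit 200)), ((nat_lit 615), (nat_lit 1000), (nat_lit 729))], ((nat_lit 100), (nat_lit 76), (nat_lit 58))⟩, (nat_lit 748852), (nat_lit 423), (nat_lit 423), (nat_lit 0), (nat_lit 61852), [(nat_lit 741024000), (nat_lit 1104096000), (nat_lit 1307394000)], [], [(nat_lit 5192455296), (nat_lit 3209152216), (nat_lit 3263055586), (nat_lit 2952070174), (nat_lit 6028098336), (nat_lit 3742884147), (nat_lit 6589999493), (nat_lit 4065024247)], (nat_lit 1271251), (nat_lit 1271251), (nat_lit 490000), (nat_lit 780000), (nat_lit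 0), (nat_lit 2613125), [(nat_lit 1695001), (nat_lit 1271251), (nat_lit 1271251)], [(nat_lit 28), (nat_lit 65), (nat_lit 428), (nat_lit 200), (nat_lit 10)]⟩,
 ⟨⟨[(nat_lit 120), (nat_lit 160), (nat_lit 180)], [(nat_lit 0), (nat_lit 0), (nat_lit 1613)], [((nat_lit 0), (nat_lit 0), (nat_lit 0)), ((nat_lit 0), (nat_lit 0), (nat_lit 0)), ((nat_lit 620), (nat_lit 1000), (nat_lit 670))], ((nat_lit 100), (nat_lit 70), (nat_lit 58))⟩, (nat_lit 40475), (nat_lit 300), (nat_lit 411), (nat_lit 6900600), (nat_lit 160417), [(nat_lit 741024000), (nat_lit 1104096000), (nat_lit 1307394000)], [], [(nat_lit 4886606549), (nat_lit 4872473624), (nat_lit 5112148554), (nat_lit 5083644678), (nat_lit 4693423352), (nat_lit 5022678936), (nat_lit 4141644402), (nat_lit 4095291127)], (nat_lit 1100000), (nat_lit 1271251), (nat_lit 1271251), (nat_lit 1271251), (nat_lit 0), (nat_lit 2613125), [(nat_lit 1695001), (nat_lit 1271251), (nat_lit 1271251)], [(nat_lit 28), (nat_lit 65), (nat_lit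 456), (nat_lit 225), (nat_lit 11)]⟩⟩) (.dle (nat_lit 0))) (.trX (nat_lit 4) (nat_lit 0) (nat_lit 2) (nat_lit 66) (nat_lit 82) (nat_lit 100) (nat_lit 320) (.spl (nat_lit 6) (nat_lit 40) (.leaf ⟨(nat_lit 953), (nat_lit 0), (nat_lit 0), (nat_lit 47), (nat_lit 3605), (nat_lit 3761), (nat_lit 936), (nat_lit 626), (nat_lit 0), (nat_lit 0), (nat_lit 238250), [((nat_lit 360), [((nat_lit 21), (nat_lit 0), (nat_lit 953))])], ⟨(nat_lit 4), false, false, false, (nat_lit 143), (nat_lit 3162), (nat_lit 3536), [(nat_lit 1289740), (nat_lit 1294962), (nat_lit 1355573), (nat_lit 1361401), (nat_lit 1352511), (nat_lit 1355925), (nat_lit 1418344), (nat_lit 1422365)]⟩, ⟨(nat_lit 6), false, false, true, (nat_lit 236), (nat_lit 3162), (nat_lit 3536), [(nat_lit 1518855), (nat_lit 1516642), (nat_lit 1540807), (nat_lit 1538797), (nat_lit 1644378), (nat_lit 1638549), (nat_lit 1666330), (nat_lit 1660704)]⟩, (nat_lit 4643643), (nat_lit 43406994), (nat_lit 7321864), (nat_lit 16271142),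 (nat_lit 0), (nat_lit 0), [⟨(nat_lit 0), (nat_lit 100), (nat_lit 61), (nat_lit 92), (nat_lit 141965967)⟩], [⟨(nat_lit 1), (nat_lit 82), (nat_lit 66), (nat_lit 100), (nat_lit 247349211)⟩], [⟨(nat_lit 0), (nat_lit 100), (nat_lit 98), (nat_lit 10), (nat_lit 23051543)⟩], [],
 ⟨⟨[(nat_lit 40), (nat_lit 60), (nat_lit 80)], [(nat_lit 0), (nat_lit 600), (nat_lit 1195)], [((nat_lit 0), (nat_lit 0), (nat_lit 0)), ((nat_lit 1000), (nat_lit 725), (nat_lit 454)), ((nat_lit 1000), (nat_lit 720), (nat_lit 465))], ((nat_lit 68), (nat_lit 100), (nat_lit 61))⟩, (nat_lit 0), (nat_lit 99), (nat_lit 99), (nat_lit 0), (nat_lit 61444), [(nat_lit 1569661227), (nat_lit 1879202693), (nat_lit 2091646800)], [(nat_lit 0), (nat_lit 0), (nat_lit 0)], [(nat_lit 21717314922), (nat_lit 22438710296), (nat_lit 22012378324), (nat_lit 22691675175), (nat_lit 25413768249), (nat_lit 26044402156), (nat_lit 25530951339), (nat_lit 26106077890)], (nat_lit 1271251), (nat_lit 1271251), (nat_lit 490000),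 (nat_lit 780000), (nat_lit 1271251), (nat_lit 1271251), [(nat_lit 490000), (nat_lit 780000), (nat_lit 1100000)], [(nat_lit 2), (nat_lit 44), (nat_lit 238), (nat_lit 30), (nat_lit 9)]⟩,
 ⟨⟨[(nat_lit 120), (nat_lit 160), (nat_lit 180)], [(nat_lit 0), (nat_lit 533), (nat_lit 2066)], [((nat_lit 0), (nat_lit 0), (nat_lit 0)), ((nat_lit 960), (nat_lit 1000), (nat_lit 200)), ((nat_lit 615), (nat_lit 1000), (nat_lit 729))], ((nat_lit 100), (nat_lit 74), (nat_lit 60))⟩, (nat_lit 378452), (nat_lit 456), (nat_lit 456), (nat_lit 0), (nat_lit 128245), [(nat_lit 374496000), (nat_lit 557984000), (nat_lit 660726000)], [], [(nat_lit 2624187048), (nat_lit 1621818920), (nat_lit 1649069268), (nat_lit 1491925978), (nat_lit 3046500944), (nat_lit 1891611547), (nat_lit 3330483041), (nat_lit 2054361642)], (nat_lit 1271251), (nat_lit 1271251), (nat_lit 490000), (nat_lit 780000), (nat_lit 0), (nat_lit 2613125), [(nat_lit 1695001), (nat_lit 1271251), (nat_lit 1271251)], [(nat_lit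 28), (nat_lit 65), (nat_lit 428), (nat_lit 200), (nat_lit 10)]⟩,
 ⟨⟨[(nat_lit 120), (nat_lit 160), (nat_lit 180)], [(nat_lit 0), (nat_lit 0), (nat_lit 1613)], [((nat_lit 0), (nat_lit 0), (nat_lit 0)), ((nat_lit 0), (nat_lit 0), (nat_lit 0)), ((nat_lit 620), (nat_lit 1000), (nat_lit 670))], ((nat_lit 100), (nat_lit 68), (nat_lit 61))⟩, (nat_lit 20455), (nat_lit 300), (nat_lit 591), (nat_lit 3487401), (nat_lit 506511), [(nat_lit 374496000), (nat_lit 557984000), (nat_lit 660726000)], [], [(nat_lit 2536686004), (nat_lit 2513434971), (nat_lit 2551289188), (nat_lit 2523603578), (nat_lit 2393527847), (nat_lit 2580792469), (nat_lit 1952838566), (nat_lit 1935998735)], (nat_lit 1100000), (nat_lit 1271251), (nat_lit 1271251), (nat_lit 1271251), (nat_lit 0), (nat_lit 2613125), [(nat_lit 1695001), (nat_lit 1271251), (nat_lit 1271251)], [(nat_lit 28), (nat_lit 65), (nat_lit 456), (nat_lit 225), (nat_lit 11)]⟩⟩) (.leaf ⟨(nat_lit 926), (nat_lit 0), (nat_lit 0), (nat_lit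 74), (nat_lit 8715), (nat_lit 3310), (nat_lit 1268), (nat_lit 865), (nat_lit 0), (nat_lit 0), (nat_lit 329300), [((nat_lit 360), [((nat_lit 22), (nat_lit 0), (nat_lit 274)), ((nat_lit 22), (nat_lit 1), (nat_lit 652))])], ⟨(nat_lit 4), false, false, false, (nat_lit 143), (nat_lit 3162), (nat_lit 3536), [(nat_lit 1289740), (nat_lit 1294962), (nat_lit 1355573), (nat_lit 1361401), (nat_lit 1352511), (nat_lit 1355925), (nat_lit 1418344), (nat_lit 1422365)]⟩, ⟨(nat_lit 6), false, false, true, (nat_lit 236), (nat_lit 3162), (nat_lit 3536), [(nat_lit 1518855), (nat_lit 1516642), (nat_lit 1540807), (nat_lit 1538797), (nat_lit 1644378), (nat_lit 1638549), (nat_lit 1666330), (nat_lit 1660704)]⟩, (nat_lit 4643643), (nat_lit 43406994), (nat_lit 7321864), (nat_lit 16271142), (nat_lit 0), (nat_lit 0), [⟨(nat_lit 0), (nat_lit 100), (nat_lit 61), (nat_lit 92), (nat_lit 167207675)⟩], [⟨(nat_lit 1), (nat_lit 87), (nat_lit 64), (nat_lit 100), (nat_lit 191203882)⟩], [⟨(nat_lit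 0), (nat_lit 100), (nat_lit 98), (nat_lit 10), (nat_lit 37662449)⟩], [],
 ⟨⟨[(nat_lit 40), (nat_lit 80), (nat_lit 100)], [(nat_lit 0), (nat_lit 1195), (nat_lit 2166)], [((nat_lit 0), (nat_lit 0), (nat_lit 0)), ((nat_lit 1000), (nat_lit 720), (nat_lit 465)), ((nat_lit 1000), (nat_lit 662), (nat_lit 740))], ((nat_lit 67), (nat_lit 100), (nat_lit 66))⟩, (nat_lit 574588), (nat_lit 107), (nat_lit 107), (nat_lit 0), (nat_lit 21859), [(nat_lit 1412923201), (nat_lit 1946238126), (nat_lit 2062708800)], [(nat_lit 0), (nat_lit 0), (nat_lit 0)], [(nat_lit 21677890778), (nat_lit 22277776693), (nat_lit 22023162941), (nat_lit 22595302343), (nat_lit 24857897527), (nat_lit 25426894760), (nat_lit 25054406438), (nat_lit 25540726653)], (nat_lit 1271251), (nat_lit 1271251), (nat_lit 490000), (nat_lit 780000), (nat_lit 1271251), (nat_lit 1271251), [(nat_lit 490000), (nat_lit 1100000), (nat_lit 1442501)], [(nat_lit 3), (nat_lit 50), (nat_lit 238), (nat_lit 30), (nat_lit 8)]⟩,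
 ⟨⟨[(nat_lit 120), (nat_lit 160), (nat_lit 180)], [(nat_lit 0), (nat_lit 533), (nat_lit 2066)], [((nat_lit 0), (nat_lit 0), (nat_lit 0)), ((nat_lit 960), (nat_lit 1000), (nat_lit 200)), ((nat_lit 615), (nat_lit 1000), (nat_lit 729))], ((nat_lit 100), (nat_lit 69), (nat_lit 65))⟩, (nat_lit 351660), (nat_lit 424), (nat_lit 424), (nat_lit 0), (nat_lit 64182), [(nat_lit 589632000), (nat_lit 878528000), (nat_lit 1040292000)], [], [(nat_lit 3926173944), (nat_lit 2865405944), (nat_lit 2649795078), (nat_lit 2697591404), (nat_lit 4592664848), (nat_lit 2841345092), (nat_lit 4989357347), (nat_lit 3260594597)], (nat_lit 1271251), (nat_lit 1271251), (nat_lit 490000), (nat_lit 780000), (nat_lit 0), (nat_lit 2613125), [(nat_lit 1695001), (nat_lit 1271251), (nat_lit 1271251)], [(nat_lit 28), (nat_lit 65), (nat_lit 428), (nat_lit 200), (nat_lit 10)]⟩,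
 ⟨⟨[(nat_lit 120), (nat_lit 160), (nat_lit 180)], [(nat_lit 0), (nat_lit 0), (nat_lit 1613)], [((nat_lit 0), (nat_lit 0), (nat_lit 0)), ((nat_lit 0), (nat_lit 0), (nat_lit 0)), ((nat_lit 620), (nat_lit 1000), (nat_lit 670))], ((nat_lit 100), (nat_lit 63), (nat_lit 66))⟩, (nat_lit 32206), (nat_lit 300), (nat_lit 413), (nat_lit 5490800), (nat_lit 171505), [(nat_lit 589632000), (nat_lit 878528000), (nat_lit 1040292000)], [], [(nat_lit 3881797054), (nat_lit 3869757673), (nat_lit 4026544217), (nat_lit 4004311483), (nat_lit 3737629256), (nat_lit 4002592811), (nat_lit 3259804837), (nat_lit 3223021751)], (nat_lit 1100000), (nat_lit 1271251), (nat_lit 1271251), (nat_lit 1271251), (nat_lit 0), (nat_lit 2613125), [(nat_lit 1695001), (nat_lit 1271251), (nat_lit 1271251)], [(nat_lit 28), (nat_lit 65), (nat_lit 456), (nat_lit 225), (nat_lit 11)]⟩⟩)))) (.dle (nat_lit 0))))))))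
noncomputable def c7_33 : Tr Lf :=
 (.spl (nat_lit 1) (nat_lit 180) (.leaf ⟨(nat_lit 1000), (nat_lit 0), (nat_lit 0), (nat_lit 0), (nat_lit 8200), (nat_lit 3117), (nat_lit 0), (nat_lit 0), (nat_lit 0), (nat_lit 1620551643572), (nat_lit 589000), [((nat_lit 360), [((nat_lit 22), (nat_lit 1), (nat_lit 55)), ((nat_lit 39), (nat_lit 2), (nat_lit 945))])], ⟨(nat_lit 3), false, false, true, (nat_lit 153), (nat_lit 3162), (nat_lit 3873), [(nat_lit 1283782), (nat_lit 1289472), (nat_lit 1349127), (nat_lit 1355902), (nat_lit 1412825), (nat_lit 1411379), (nat_lit 1478205), (nat_lit 1477844)]⟩, ⟨(nat_lit 6), false, false, true, (nat_lit 231), (nat_lit 3162), (nat_lit 3873), [(nat_lit 1477347), (nat_lit 1472332), (nat_lit 1542727), (nat_lit 1538797), (nat_lit 1622521), (nat_lit 1609477), (nat_lit 1687900), (nat_lit 1675942)]⟩, (nat_lit 4717900), (nat_lit 43181258), (nat_lit 8141572), (nat_lit 15677170), (nat_lit 0), (nat_lit 0), [], [⟨(nat_lit 1), (nat_lit 92), (nat_lit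 68), (nat_lit 100), (nat_lit 238831473)⟩], [], [],
 ⟨⟨[(nat_lit 40), (nat_lit 80), (nat_lit 120)], [(nat_lit 0), (nat_lit 795), (nat_lit 2800)], [((nat_lit 0), (nat_lit 0), (nat_lit 0)), ((nat_lit 1000), (nat_lit 814), (nat_lit 310)), ((nat_lit 1000), (nat_lit 719), (nat_lit 783))], ((nat_lit 71), (nat_lit 100), (nat_lit 71))⟩, (nat_lit 0), (nat_lit 149), (nat_lit 149), (nat_lit 0), (nat_lit 142445), [(nat_lit 1311528092), (nat_lit 1025054956), (nat_lit 0)], [(nat_lit 0), (nat_lit 0), (nat_lit 226274318)], [(nat_lit 21714339282), (nat_lit 22756315658), (nat_lit 22907897598), (nat_lit 23844433533), (nat_lit 24995619530), (nat_lit 25867844616), (nat_lit 25971247745), (nat_lit 26811469134)], (nat_lit 1271251), (nat_lit 1271251), (nat_lit 780000), (nat_lit 1435001), (nat_lit 1271251), (nat_lit 1271251), [(nat_lit 490000), (nat_lit 1100000), (nat_lit 1785001)], [(nat_lit 4), (nat_lit 51), (nat_lit 260), (nat_lit 50), (nat_lit 7)]⟩,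
 Rw.none,
 Rw.none⟩) (.spl (nat_lit 2) (nat_lit 160) (.trX (nat_lit 4) (nat_lit 0) (nat_lit 2) (nat_lit 73) (nat_lit 85) (nat_lit 100) (nat_lit 320) (.spl (nat_lit 0) (nat_lit 350) (.spl (nat_lit 6) (nat_lit 48) (.leaf ⟨(nat_lit 982), (nat_lit 0), (nat_lit 0), (nat_lit 18), (nat_lit 7779), (nat_lit 3267), (nat_lit 333), (nat_lit 273), (nat_lit 0), (nat_lit 0), (nat_lit 553600), [((nat_lit 350), [((nat_lit 22), (nat_lit 1), (nat_lit 178)), ((nat_lit 39), (nat_lit 2), (nat_lit 804))])], ⟨(nat_lit 4), false, false, false, (nat_lit 179), (nat_lit 3535), (nat_lit 3873), [(nat_lit 1349157), (nat_lit 1352518), (nat_lit 1414519), (nat_lit 1418358), (nat_lit 1478205), (nat_lit 1478046), (nat_lit 1543574), (nat_lit 1543892)]⟩, ⟨(nat_lit 6), false, false, true, (nat_lit 225), (nat_lit 3535), (nat_lit 3873), [(nat_lit 1477347), (nat_lit 1474949), (nat_lit 1520934), (nat_lit 1518855), (nat_lit 1606390), (nat_lit 1600472), (nat_lit 1649977), (nat_lit 1644378)]⟩, (nat_lit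 4912746), (nat_lit 42047442), (nat_lit 10242032), (nat_lit 14710526), (nat_lit 0), (nat_lit 0), [], [⟨(nat_lit 1), (nat_lit 94), (nat_lit 72), (nat_lit 100), (nat_lit 212595531)⟩], [], [⟨(nat_lit 0), (nat_lit 94), (nat_lit 100), (nat_lit 21), (nat_lit 1702705)⟩],
 ⟨⟨[(nat_lit 40), (nat_lit 80), (nat_lit 100)], [(nat_lit 0), (nat_lit 795), (nat_lit 1829)], [((nat_lit 0), (nat_lit 0), (nat_lit 0)), ((nat_lit 1000), (nat_lit 814), (nat_lit 310)), ((nat_lit 1000), (nat_lit 714), (nat_lit 692))], ((nat_lit 72), (nat_lit 100), (nat_lit 65))⟩, (nat_lit 0), (nat_lit 110), (nat_lit 110), (nat_lit 0), (nat_lit 97110), [(nat_lit 1327838443), (nat_lit 1200528684), (nat_lit 645801600)], [(nat_lit 0), (nat_lit 0), (nat_lit 0)], [(nat_lit 21251910970), (nat_lit 21820742264), (nat_lit 22549015941), (nat_lit 23058501523), (nat_lit 24356945974), (nat_lit 24866364404), (nat_lit 25326755844), (nat_lit 25867468444)], (nat_lit 1271251), (nat_lit 1271251), (nat_lit 780000),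 (nat_lit 1435001), (nat_lit 1271251), (nat_lit 1271251), [(nat_lit 490000), (nat_lit 1100000), (nat_lit 1442501)], [(nat_lit 3), (nat_lit 50), (nat_lit 260), (nat_lit 50), (nat_lit 8)]⟩,
 ⟨⟨[(nat_lit 120), (nat_lit 160), (nat_lit 180)], [(nat_lit 0), (nat_lit 533), (nat_lit 2066)], [((nat_lit 0), (nat_lit 0), (nat_lit 0)), ((nat_lit 960), (nat_lit 1000), (nat_lit 200)), ((nat_lit 615), (nat_lit 1000), (nat_lit 729))], ((nat_lit 100), (nat_lit 69), (nat_lit 65))⟩, (nat_lit 121389), (nat_lit 490), (nat_lit 490), (nat_lit 0), (nat_lit 245978), [(nat_lit 143424000), (nat_lit 213696000), (nat_lit 253044000)], [], [(nat_lit 632644772), (nat_lit 607390446), (nat_lit 814171100), (nat_lit 575252133), (nat_lit 1312243925), (nat_lit 862712406), (nat_lit 1636258032), (nat_lit 1198030698)], (nat_lit 1271251), (nat_lit 1271251), (nat_lit 780000), (nat_lit 1435001), (nat_lit 0), (nat_lit 2825001), [(nat_lit 1695001), (nat_lit 1271251), (nat_lit 1271251)], [(nat_lit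 28), (nat_lit 65), (nat_lit 456), (nat_lit 225), (nat_lit 11)]⟩,
 ⟨⟨[(nat_lit 140), (nat_lit 180), (nat_lit 200)], [(nat_lit 0), (nat_lit 0), (nat_lit 2835)], [((nat_lit 0), (nat_lit 0), (nat_lit 0)), ((nat_lit 0), (nat_lit 0), (nat_lit 0)), ((nat_lit 363), (nat_lit 1000), (nat_lit 798))], ((nat_lit 0), (nat_lit 0), (nat_lit 0))⟩, (nat_lit 4952), (nat_lit 300), (nat_lit 865), (nat_lit 1405806), (nat_lit 891026), [(nat_lit 177156000), (nat_lit 253044000), (nat_lit 295200000)], [], [(nat_lit 1173495216), (nat_lit 1130998008), (nat_lit 1198401456), (nat_lit 1152117180), (nat_lit 1104599856), (nat_lit 1242039960), (nat_lit 917240136), (nat_lit 870955860)], (nat_lit 780000), (nat_lit 1100000), (nat_lit 1271251), (nat_lit 1271251), (nat_lit 0), (nat_lit 2825001), [(nat_lit 1977501), (nat_lit 1271251), (nat_lit 1271251)], [(nat_lit 32), (nat_lit 67), (nat_lit 456), (nat_lit 225), (nat_lit 10)]⟩⟩) (.dle (nat_lit 0))) (.trX (nat_lit 4) (nat_lit 0) (nat_lit 2)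 (nat_lit 68) (nat_lit 89) (nat_lit 100) (nat_lit 300) (.spl (nat_lit 6) (nat_lit 48) (.spl (nat_lit 0) (nat_lit 355) (.leaf ⟨(nat_lit 977), (nat_lit 0), (nat_lit 0), (nat_lit 23), (nat_lit 5390), (nat_lit 3358), (nat_lit 410), (nat_lit 348), (nat_lit 0), (nat_lit 0), (nat_lit 350450), [((nat_lit 355), [((nat_lit 22), (nat_lit 0), (nat_lit 269)), ((nat_lit 22), (nat_lit 1), (nat_lit 708))])], ⟨(nat_lit 4), false, false, false, (nat_lit 179), (nat_lit 3354), (nat_lit 3536), [(nat_lit 1352521), (nat_lit 1354219), (nat_lit 1418374), (nat_lit 1420356), (nat_lit 1478046), (nat_lit 1477951), (nat_lit 1543901), (nat_lit 1544091)]⟩, ⟨(nat_lit 6), false, false, true, (nat_lit 217), (nat_lit 3354), (nat_lit 3536), [(nat_lit 1474949), (nat_lit 1473673), (nat_lit 1518855), (nat_lit 1517769), (nat_lit 1569092), (nat_lit 1566471), (nat_lit 1612997), (nat_lit 1610566)]⟩, (nat_lit 4869054), (nat_lit 42586134), (nat_lit 10371138), (nat_lit 14042728), (nat_lit 0), (nat_lit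 0), [], [⟨(nat_lit 1), (nat_lit 89), (nat_lit 68), (nat_lit 100), (nat_lit 216153145)⟩], [], [⟨(nat_lit 0), (nat_lit 96), (nat_lit 100), (nat_lit 16), (nat_lit 3302657)⟩],
 ⟨⟨[(nat_lit 40), (nat_lit 80), (nat_lit 100)], [(nat_lit 0), (nat_lit 1195), (nat_lit 2166)], [((nat_lit 0), (nat_lit 0), (nat_lit 0)), ((nat_lit 1000), (nat_lit 720), (nat_lit 465)), ((nat_lit 1000), (nat_lit 662), (nat_lit 740))], ((nat_lit 67), (nat_lit 100), (nat_lit 66))⟩, (nat_lit 533915), (nat_lit 118), (nat_lit 118), (nat_lit 0), (nat_lit 133742), [(nat_lit 1386378188), (nat_lit 1796345799), (nat_lit 1814893600)], [(nat_lit 0), (nat_lit 0), (nat_lit 0)], [(nat_lit 21775489834), (nat_lit 22063405921), (nat_lit 22999019013), (nat_lit 23256698613), (nat_lit 24058633533), (nat_lit 24328291941), (nat_lit 25076597815), (nat_lit 25373020410)], (nat_lit 1271251), (nat_lit 1271251), (nat_lit 780000), (nat_lit 1435001), (nat_lit 1271251), (nat_lit 1271251), [(nat_lit 490000), (nat_lit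 1100000), (nat_lit 1442501)], [(nat_lit 3), (nat_lit 50), (nat_lit 260), (nat_lit 50), (nat_lit 8)]⟩,
 ⟨⟨[(nat_lit 120), (nat_lit 160), (nat_lit 180)], [(nat_lit 0), (nat_lit 533), (nat_lit 2066)], [((nat_lit 0), (nat_lit 0), (nat_lit 0)), ((nat_lit 960), (nat_lit 1000), (nat_lit 200)), ((nat_lit 615), (nat_lit 1000), (nat_lit 729))], ((nat_lit 100), (nat_lit 69), (nat_lit 65))⟩, (nat_lit 151309), (nat_lit 565), (nat_lit 565), (nat_lit 0), (nat_lit 348667), [(nat_lit 183264000), (nat_lit 273056000), (nat_lit 323334000)], [], [(nat_lit 809040575), (nat_lit 786808744), (nat_lit 1034606743), (nat_lit 733846388), (nat_lit 1655121993), (nat_lit 1101644748), (nat_lit 2056253420), (nat_lit 1516694240)], (nat_lit 1271251), (nat_lit 1271251), (nat_lit 780000), (nat_lit 1435001), (nat_lit 0), (nat_lit 2825001), [(nat_lit 1695001), (nat_lit 1271251), (nat_lit 1271251)], [(nat_lit 28), (nat_lit 65), (nat_lit 456), (nat_lit 225), (nat_lit 11)]⟩,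
 ⟨⟨[(nat_lit 140), (nat_lit 180), (nat_lit 200)], [(nat_lit 0), (nat_lit 0), (nat_lit 2835)], [((nat_lit 0), (nat_lit 0), (nat_lit 0)), ((nat_lit 0), (nat_lit 0), (nat_lit 0)), ((nat_lit 363), (nat_lit 1000), (nat_lit 798))], ((nat_lit 0), (nat_lit 0), (nat_lit 0))⟩, (nat_lit 6328), (nat_lit 300), (nat_lit 1038), (nat_lit 1796301), (nat_lit 1277535), [(nat_lit 226366000), (nat_lit 323334000), (nat_lit 377200000)], [], [(nat_lit 1499579576), (nat_lit 1445090208), (nat_lit 1523108376), (nat_lit 1465352742), (nat_lit 1410978336), (nat_lit 1586247040), (nat_lit 1163848096), (nat_lit 1144949284)], (nat_lit 780000), (nat_lit 1100000), (nat_lit 1271251), (nat_lit 1271251), (nat_lit 0), (nat_lit 2825001), [(nat_lit 1977501), (nat_lit 1271251), (nat_lit 1271251)], [(nat_lit 32), (nat_lit 67), (nat_lit 456), (nat_lit 225), (nat_lit 10)]⟩⟩) (.leaf ⟨(nat_lit 974), (nat_lit 0), (nat_lit 0), (nat_lit 26), (nat_lit 2710), (nat_lit 3364), (nat_lit 491), (nat_lit 385),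 (nat_lit 0), (nat_lit 0), (nat_lit 336050), [((nat_lit 360), [((nat_lit 22), (nat_lit 0), (nat_lit 357)), ((nat_lit 22), (nat_lit 1), (nat_lit 617))])], ⟨(nat_lit 4), false, false, false, (nat_lit 180), (nat_lit 3162), (nat_lit 3355), [(nat_lit 1354218), (nat_lit 1355934), (nat_lit 1420353), (nat_lit 1422392), (nat_lit 1477951), (nat_lit 1477844), (nat_lit 1544090), (nat_lit 1544305)]⟩, ⟨(nat_lit 6), false, false, true, (nat_lit 216), (nat_lit 3162), (nat_lit 3355), [(nat_lit 1473673), (nat_lit 1472332), (nat_lit 1517769), (nat_lit 1516642), (nat_lit 1566471), (nat_lit 1563762), (nat_lit 1610566), (nat_lit 1608072)]⟩, (nat_lit 4867193), (nat_lit 42618593), (nat_lit 10410492), (nat_lit 13970915), (nat_lit 0), (nat_lit 0), [], [⟨(nat_lit 1), (nat_lit 90), (nat_lit 64), (nat_lit 100), (nat_lit 239449017)⟩], [], [⟨(nat_lit 0), (nat_lit 96), (nat_lit 100), (nat_lit 16), (nat_lit 2432315)⟩],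
 ⟨⟨[(nat_lit 40), (nat_lit 80), (nat_lit 100)], [(nat_lit 0), (nat_lit 1399), (nat_lit 2349)], [((nat_lit 0), (nat_lit 0), (nat_lit 0)), ((nat_lit 1000), (nat_lit 672), (nat_lit 546)), ((nat_lit 1000), (nat_lit 633), (nat_lit 742))], ((nat_lit 64), (nat_lit 100), (nat_lit 66))⟩, (nat_lit 530911), (nat_lit 131), (nat_lit 131), (nat_lit 0), (nat_lit 169309), [(nat_lit 1411092016), (nat_lit 1775276864), (nat_lit 1904547200)], [(nat_lit 0), (nat_lit 0), (nat_lit 0)], [(nat_lit 22079677772), (nat_lit 22367824657), (nat_lit 23271995054), (nat_lit 23529868289), (nat_lit 24331360541), (nat_lit 24663501426), (nat_lit 25377716789), (nat_lit 25674373403)], (nat_lit 1271251), (nat_lit 1271251), (nat_lit 780000), (nat_lit 1435001), (nat_lit 1271251), (nat_lit 1271251), [(nat_lit 490000), (nat_lit 1100000), (nat_lit 1442501)], [(nat_lit 3), (nat_lit 50), (nat_lit 260), (nat_lit 50), (nat_lit 8)]⟩,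
 ⟨⟨[(nat_lit 120), (nat_lit 160), (nat_lit 180)], [(nat_lit 0), (nat_lit 533), (nat_lit 2066)], [((nat_lit 0), (nat_lit 0), (nat_lit 0)), ((nat_lit 960), (nat_lit 1000), (nat_lit 200)), ((nat_lit 615), (nat_lit 1000), (nat_lit 729))], ((nat_lit 100), (nat_lit 69), (nat_lit 65))⟩, (nat_lit 177662), (nat_lit 607), (nat_lit 607), (nat_lit 0), (nat_lit 444128), [(nat_lit 207168000), (nat_lit 308672000), (nat_lit 365508000)], [], [(nat_lit 913393681), (nat_lit 870576588), (nat_lit 1179717177), (nat_lit 831812844), (nat_lit 1909420952), (nat_lit 1246598202), (nat_lit 2385755264), (nat_lit 1739600246)], (nat_lit 1271251), (nat_lit 1271251), (nat_lit 780000), (nat_lit 1435001), (nat_lit 0), (nat_lit 2825001), [(nat_lit 1695001), (nat_lit 1271251), (nat_lit 1271251)], [(nat_lit 28), (nat_lit 65), (nat_lit 456), (nat_lit 225), (nat_lit 11)]⟩,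
 ⟨⟨[(nat_lit 140), (nat_lit 180), (nat_lit 200)], [(nat_lit 0), (nat_lit 0), (nat_lit 2835)], [((nat_lit 0), (nat_lit 0), (nat_lit 0)), ((nat_lit 0), (nat_lit 0), (nat_lit 0)), ((nat_lit 363), (nat_lit 1000), (nat_lit 798))], ((nat_lit 0), (nat_lit 0), (nat_lit 0))⟩, (nat_lit 7153), (nat_lit 300), (nat_lit 1213), (nat_lit 2030607), (nat_lit 1671130), [(nat_lit 255892000), (nat_lit 365508000), (nat_lit 426400000)], [], [(nat_lit 1705342404), (nat_lit 1638612344), (nat_lit 1719526016), (nat_lit 1656005531), (nat_lit 1590439216), (nat_lit 1785052696), (nat_lit 1313404461), (nat_lit 1296835351)], (nat_lit 780000), (nat_lit 1100000), (nat_lit 1271251), (nat_lit 1271251), (nat_lit 0), (nat_lit 2825001), [(nat_lit 1977501), (nat_lit 1271251), (nat_lit 1271251)], [(nat_lit 32), (nat_lit 67), (nat_lit 456), (nat_lit 225), (nat_lit 10)]⟩⟩)) (.leaf ⟨(nat_lit 992), (nat_lit 0), (nat_lit 0), (nat_lit 8), (nat_lit 13563), (nat_lit 3773), (nat_lit 128), (nat_lit 121),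 (nat_lit 0), (nat_lit 0), (nat_lit 248000), [((nat_lit 360), [((nat_lit 22), (nat_lit 0), (nat_lit 992))])], ⟨(nat_lit 4), false, false, false, (nat_lit 180), (nat_lit 3162), (nat_lit 3536), [(nat_lit 1352511), (nat_lit 1355925), (nat_lit 1418344), (nat_lit 1422365), (nat_lit 1478046), (nat_lit 1477844), (nat_lit 1543888), (nat_lit 1544293)]⟩, ⟨(nat_lit 6), false, false, true, (nat_lit 217), (nat_lit 3162), (nat_lit 3536), [(nat_lit 1474949), (nat_lit 1472332), (nat_lit 1518855), (nat_lit 1516642), (nat_lit 1569092), (nat_lit 1563762), (nat_lit 1612997), (nat_lit 1608072)]⟩, (nat_lit 4868061), (nat_lit 42603070), (nat_lit 10390649), (nat_lit 14006281), (nat_lit 0), (nat_lit 0), [], [⟨(nat_lit 1), (nat_lit 97), (nat_lit 66), (nat_lit 100), (nat_lit 254747090)⟩], [], [⟨(nat_lit 0), (nat_lit 87), (nat_lit 100), (nat_lit 50), (nat_lit 1455252)⟩],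
 ⟨⟨[(nat_lit 40), (nat_lit 80), (nat_lit 100)], [(nat_lit 0), (nat_lit 1195), (nat_lit 2166)], [((nat_lit 0), (nat_lit 0), (nat_lit 0)), ((nat_lit 1000), (nat_lit 720), (nat_lit 465)), ((nat_lit 1000), (nat_lit 662), (nat_lit 740))], ((nat_lit 66), (nat_lit 100), (nat_lit 72))⟩, (nat_lit 461692), (nat_lit 92), (nat_lit 92), (nat_lit 0), (nat_lit 57294), [(nat_lit 1601585063), (nat_lit 2189389234), (nat_lit 2362153600)], [(nat_lit 0), (nat_lit 0), (nat_lit 0)], [(nat_lit 22163445811), (nat_lit 22792697516), (nat_lit 23322079572), (nat_lit 23872006699), (nat_lit 24627454070), (nat_lit 25195057181), (nat_lit 25502887608), (nat_lit 26010487144)], (nat_lit 1271251), (nat_lit 1271251), (nat_lit 780000), (nat_lit 1435001), (nat_lit 1271251), (nat_lit 1271251), [(nat_lit 490000), (nat_lit 1100000), (nat_lit 1442501)], [(nat_lit 3), (nat_lit 50), (nat_lit 260), (nat_lit 50), (nat_lit 8)]⟩,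
 ⟨⟨[(nat_lit 120), (nat_lit 160), (nat_lit 180)], [(nat_lit 0), (nat_lit 533), (nat_lit 2066)], [((nat_lit 0), (nat_lit 0), (nat_lit 0)), ((nat_lit 960), (nat_lit 1000), (nat_lit 200)), ((nat_lit 615), (nat_lit 1000), (nat_lit 729))], ((nat_lit 100), (nat_lit 63), (nat_lit 72))⟩, (nat_lit 34928), (nat_lit 441), (nat_lit 441), (nat_lit 0), (nat_lit 149439), [(nat_lit 63744000), (nat_lit 94976000), (nat_lit 112464000)], [], [(nat_lit 295913920), (nat_lit 298808592), (nat_lit 354469312), (nat_lit 283561920), (nat_lit 555304512), (nat_lit 382511616), (nat_lit 682682912), (nat_lit 514235168)], (nat_lit 1271251), (nat_lit 1271251), (nat_lit 780000), (nat_lit 1435001), (nat_lit 0), (nat_lit 2825001), [(nat_lit 1695001), (nat_lit 1271251), (nat_lit 1271251)], [(nat_lit 28), (nat_lit 65), (nat_lit 456), (nat_lit 225), (nat_lit 11)]⟩,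
 ⟨⟨[(nat_lit 140), (nat_lit 180), (nat_lit 200)], [(nat_lit 0), (nat_lit 0), (nat_lit 2835)], [((nat_lit 0), (nat_lit 0), (nat_lit 0)), ((nat_lit 0), (nat_lit 0), (nat_lit 0)), ((nat_lit 363), (nat_lit 1000), (nat_lit 798))], ((nat_lit 0), (nat_lit 0), (nat_lit 0))⟩, (nat_lit 2201), (nat_lit 300), (nat_lit 710), (nat_lit 624801), (nat_lit 561443), [(nat_lit 78736000), (nat_lit 112464000), (nat_lit 131200000)], [], [(nat_lit 521645940), (nat_lit 502636616), (nat_lit 529765424), (nat_lit 509685671), (nat_lit 490751344), (nat_lit 551696152), (nat_lit 404805189), (nat_lit 398256415)], (nat_lit 780000), (nat_lit 1100000), (nat_lit 1271251), (nat_lit 1271251), (nat_lit 0), (nat_lit 2825001), [(nat_lit 1977501), (nat_lit 1271251), (nat_lit 1271251)], [(nat_lit 32), (nat_lit 67), (nat_lit 456), (nat_lit 225), (nat_lit 10)]⟩⟩))))) (.spl (nat_lit 6) (nat_lit 48) (.stt (nat_lit 1) (.leaf ⟨(nat_lit 986), (nat_lit 0), (nat_lit 0), (nat_lit 14), (nat_lit 4594), (nat_lit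 3671), (nat_lit 265), (nat_lit 183), (nat_lit 0), (nat_lit 0), (nat_lit 246500), [((nat_lit 360), [((nat_lit 22), (nat_lit 0), (nat_lit 986))])], ⟨(nat_lit 4), false, false, false, (nat_lit 179), (nat_lit 3162), (nat_lit 3873), [(nat_lit 1349127), (nat_lit 1355902), (nat_lit 1414421), (nat_lit 1422280), (nat_lit 1478205), (nat_lit 1477844), (nat_lit 1543529), (nat_lit 1544252)]⟩, ⟨(nat_lit 6), false, false, true, (nat_lit 240), (nat_lit 3162), (nat_lit 3873), [(nat_lit 1520934), (nat_lit 1516642), (nat_lit 1542727), (nat_lit 1538797), (nat_lit 1666107), (nat_lit 1653787), (nat_lit 1687900), (nat_lit 1675942)]⟩, (nat_lit 5005478), (nat_lit 40830026), (nat_lit 10088607), (nat_lit 16081367), (nat_lit 0), (nat_lit 0), [], [⟨(nat_lit 1), (nat_lit 85), (nat_lit 67), (nat_lit 100), (nat_lit 256950098)⟩], [], [⟨(nat_lit 0), (nat_lit 92), (nat_lit 100), (nat_lit 24), (nat_lit 1378376)⟩],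
 ⟨⟨[(nat_lit 40), (nat_lit 80), (nat_lit 100)], [(nat_lit 0), (nat_lit 795), (nat_lit 1829)], [((nat_lit 0), (nat_lit 0), (nat_lit 0)), ((nat_lit 1000), (nat_lit 814), (nat_lit 310)), ((nat_lit 1000), (nat_lit 714), (nat_lit 692))], ((nat_lit 72), (nat_lit 100), (nat_lit 65))⟩, (nat_lit 0), (nat_lit 77), (nat_lit 77), (nat_lit 0), (nat_lit 0), [(nat_lit 1571222711), (nat_lit 2008841269), (nat_lit 2385668800)], [(nat_lit 0), (nat_lit 0), (nat_lit 0)], [(nat_lit 21405487941), (nat_lit 22682969287), (nat_lit 22760956665), (nat_lit 23899419427), (nat_lit 25437730901), (nat_lit 26548139593), (nat_lit 26334996591), (nat_lit 27329843311)], (nat_lit 0), (nat_lit 0), (nat_lit 0), (nat_lit 0), (nat_lit 0), (nat_lit 0), [], [(nat_lit 3), (nat_lit 50), (nat_lit 260), (nat_lit 50), (nat_lit 8)]⟩,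
 ⟨⟨[(nat_lit 120), (nat_lit 160), (nat_lit 180)], [(nat_lit 0), (nat_lit 533), (nat_lit 2066)], [((nat_lit 0), (nat_lit 0), (nat_lit 0)), ((nat_lit 960), (nat_lit 1000), (nat_lit 200)), ((nat_lit 615), (nat_lit 1000), (nat_lit 729))], ((nat_lit 100), (nat_lit 69), (nat_lit 65))⟩, (nat_lit 96266), (nat_lit 490), (nat_lit 490), (nat_lit 0), (nat_lit 247315), [(nat_lit 111552000), (nat_lit 166208000), (nat_lit 196812000)], [], [(nat_lit 491801118), (nat_lit 467952406), (nat_lit 635459542), (nat_lit 447709572), (nat_lit 1029008667), (nat_lit 671273374), (nat_lit 1286008000), (nat_lit 937268530)], (nat_lit 1271251), (nat_lit 1271251), (nat_lit 780000), (nat_lit 1435001), (nat_lit 0), (nat_lit 2825001), [(nat_lit 1695001), (nat_lit 1271251), (nat_lit 1271251)], [(nat_lit 28), (nat_lit 65), (nat_lit 456), (nat_lit 225), (nat_lit 11)]⟩,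
 ⟨⟨[(nat_lit 120), (nat_lit 160), (nat_lit 180)], [(nat_lit 0), (nat_lit 0), (nat_lit 1613)], [((nat_lit 0), (nat_lit 0), (nat_lit 0)), ((nat_lit 0), (nat_lit 0), (nat_lit 0)), ((nat_lit 620), (nat_lit 1000), (nat_lit 670))], ((nat_lit 100), (nat_lit 63), (nat_lit 66))⟩, (nat_lit 6093), (nat_lit 300), (nat_lit 591), (nat_lit 1038800), (nat_lit 507419), [(nat_lit 111552000), (nat_lit 166208000), (nat_lit 196812000)], [], [(nat_lit 761018524), (nat_lit 754311309), (nat_lit 768954895), (nat_lit 760679678), (nat_lit 757109964), (nat_lit 812787655), (nat_lit 616734537), (nat_lit 610417443)], (nat_lit 1100000), (nat_lit 1271251), (nat_lit 1271251), (nat_lit 1271251), (nat_lit 0), (nat_lit 2825001), [(nat_lit 1695001), (nat_lit 1271251), (nat_lit 1271251)], [(nat_lit 28), (nat_lit 65), (nat_lit 483), (nat_lit 250), (nat_lit 11)]⟩⟩) (.leaf ⟨(nat_lit 888), (nat_lit 0), (nat_lit 0), (nat_lit 112), (nat_lit 4585), (nat_lit 3444), (nat_lit 1899), (nat_lit 1456),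 (nat_lit 0), (nat_lit 0), (nat_lit 515000), [((nat_lit 360), [((nat_lit 22), (nat_lit 1), (nat_lit 89)), ((nat_lit 39), (nat_lit 2), (nat_lit 799))])], ⟨(nat_lit 4), false, false, false, (nat_lit 179), (nat_lit 3162), (nat_lit 3873), [(nat_lit 1349127), (nat_lit 1355902), (nat_lit 1414421), (nat_lit 1422280), (nat_lit 1478205), (nat_lit 1477844), (nat_lit 1543529), (nat_lit 1544252)]⟩, ⟨(nat_lit 6), false, false, true, (nat_lit 240), (nat_lit 3162), (nat_lit 3873), [(nat_lit 1520934), (nat_lit 1516642), (nat_lit 1542727), (nat_lit 1538797), (nat_lit 1666107), (nat_lit 1653787), (nat_lit 1687900), (nat_lit 1675942)]⟩, (nat_lit 5005478), (nat_lit 40830026), (nat_lit 10088607), (nat_lit 16081367), (nat_lit 0), (nat_lit 0), [], [⟨(nat_lit 1), (nat_lit 85), (nat_lit 67), (nat_lit 100), (nat_lit 175828391)⟩], [⟨(nat_lit 0), (nat_lit 100), (nat_lit 98), (nat_lit 10), (nat_lit 16063798)⟩], [],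
 ⟨⟨[(nat_lit 40), (nat_lit 80), (nat_lit 100)], [(nat_lit 0), (nat_lit 795), (nat_lit 1829)], [((nat_lit 0), (nat_lit 0), (nat_lit 0)), ((nat_lit 1000), (nat_lit 814), (nat_lit 310)), ((nat_lit 1000), (nat_lit 714), (nat_lit 692))], ((nat_lit 72), (nat_lit 100), (nat_lit 65))⟩, (nat_lit 0), (nat_lit 117), (nat_lit 117), (nat_lit 0), (nat_lit 93755), [(nat_lit 1376741144), (nat_lit 1540351435), (nat_lit 1100360400)], [(nat_lit 0), (nat_lit 0), (nat_lit 0)], [(nat_lit 21515303742), (nat_lit 22680200524), (nat_lit 22786923014), (nat_lit 23828743196), (nat_lit 25251748423), (nat_lit 26269862660), (nat_lit 26116138213), (nat_lit 27101242062)], (nat_lit 1271251), (nat_lit 1271251), (nat_lit 780000), (nat_lit 1435001), (nat_lit 1271251), (nat_lit 1271251), [(nat_lit 490000), (nat_lit 1100000), (nat_lit 1442501)], [(nat_lit 3), (nat_lit 50), (nat_lit 260), (nat_lit 50), (nat_lit 8)]⟩,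
 ⟨⟨[(nat_lit 120), (nat_lit 160), (nat_lit 180)], [(nat_lit 0), (nat_lit 533), (nat_lit 2066)], [((nat_lit 0), (nat_lit 0), (nat_lit 0)), ((nat_lit 960), (nat_lit 1000), (nat_lit 200)), ((nat_lit 615), (nat_lit 1000), (nat_lit 729))], ((nat_lit 100), (nat_lit 69), (nat_lit 65))⟩, (nat_lit 507914), (nat_lit 431), (nat_lit 431), (nat_lit 0), (nat_lit 129268), [(nat_lit 892416000), (nat_lit 1329664000), (nat_lit 1574496000)], [], [(nat_lit 4076879181), (nat_lit 4117841118), (nat_lit 5002077497), (nat_lit 3990089446), (nat_lit 7923608472), (nat_lit 5360063866), (nat_lit 9795865176), (nat_lit 7296784974)], (nat_lit 1271251), (nat_lit 1271251), (nat_lit 780000), (nat_lit 1435001), (nat_lit 0), (nat_lit 2825001), [(nat_lit 1695001), (nat_lit 1271251), (nat_lit 1271251)], [(nat_lit 28), (nat_lit 65), (nat_lit 456), (nat_lit 225), (nat_lit 11)]⟩,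
 ⟨⟨[(nat_lit 120), (nat_lit 160), (nat_lit 180)], [(nat_lit 0), (nat_lit 0), (nat_lit 1613)], [((nat_lit 0), (nat_lit 0), (nat_lit 0)), ((nat_lit 0), (nat_lit 0), (nat_lit 0)), ((nat_lit 620), (nat_lit 1000), (nat_lit 670))], ((nat_lit 100), (nat_lit 63), (nat_lit 66))⟩, (nat_lit 48744), (nat_lit 300), (nat_lit 460), (nat_lit 8310400), (nat_lit 272841), [(nat_lit 892416000), (nat_lit 1329664000), (nat_lit 1574496000)], [], [(nat_lit 5776788696), (nat_lit 5751481120), (nat_lit 6121225096), (nat_lit 6083714896), (nat_lit 6053380032), (nat_lit 6496786800), (nat_lit 4934233176), (nat_lit 4884201544)], (nat_lit 1100000), (nat_lit 1271251), (nat_lit 1271251), (nat_lit 1271251), (nat_lit 0), (nat_lit 2825001), [(nat_lit 1695001), (nat_lit 1271251), (nat_lit 1271251)], [(nat_lit 28), (nat_lit 65), (nat_lit 483), (nat_lit 250), (nat_lit 11)]⟩⟩)) (.dle (nat_lit 0)))))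
def l008 : List St := [⟨⟨(nat_lit 340), (nat_lit 360), (nat_lit 120), (nat_lit 240), (nat_lit 120), (nat_lit 240), (nat_lit 10), (nat_lit 200), (nat_lit 10), (nat_lit 120), (nat_lit 0), (nat_lit 400), (nat_lit 0), (nat_lit 32)⟩, (nat_lit 3), (nat_lit 3), (nat_lit 3), false, true, false⟩,
  ⟨⟨(nat_lit 340), (nat_lit 360), (nat_lit 120), (nat_lit 180), (nat_lit 120), (nat_lit 180), (nat_lit 200), (nat_lit 370), (nat_lit 10), (nat_lit 120), (nat_lit 0), (nat_lit 390), (nat_lit 0), (nat_lit 32)⟩, (nat_lit 3), (nat_lit 3), (nat_lit 3), false, true, false⟩,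
  ⟨⟨(nat_lit 340), (nat_lit 360), (nat_lit 180), (nat_lit 240), (nat_lit 120), (nat_lit 180), (nat_lit 200), (nat_lit 280), (nat_lit 10), (nat_lit 120), (nat_lit 0), (nat_lit 390), (nat_lit 0), (nat_lit 32)⟩, (nat_lit 3), (nat_lit 3), (nat_lit 3), false, true, false⟩,
  ⟨⟨(nat_lit 340), (nat_lit 360), (nat_lit 180), (nat_lit 240), (nat_lit 120), (nat_lit 180), (nat_lit 280), (nat_lit 370), (nat_lit 10), (nat_lit 120), (nat_lit 0), (nat_lit 390), (nat_lit 0), (nat_lit 32)⟩, (nat_lit 3), (nat_lit 3), (nat_lit 3), false, true, false⟩,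
  ⟨⟨(nat_lit 340), (nat_lit 360), (nat_lit 120), (nat_lit 240), (nat_lit 180), (nat_lit 240), (nat_lit 200), (nat_lit 370), (nat_lit 10), (nat_lit 120), (nat_lit 0), (nat_lit 390), (nat_lit 0), (nat_lit 32)⟩, (nat_lit 3), (nat_lit 3), (nat_lit 3), false, true, false⟩,
  ⟨⟨(nat_lit 340), (nat_lit 360), (nat_lit 120), (nat_lit 240), (nat_lit 120), (nat_lit 180), (nat_lit 10), (nat_lit 120), (nat_lit 120), (nat_lit 240), (nat_lit 0), (nat_lit 400), (nat_lit 0), (nat_lit 32)⟩, (nat_lit 3), (nat_lit 3), (nat_lit 3), true, false, false⟩,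
  ⟨⟨(nat_lit 340), (nat_lit 360), (nat_lit 120), (nat_lit 240), (nat_lit 120), (nat_lit 180), (nat_lit 10), (nat_lit 80), (nat_lit 240), (nat_lit 330), (nat_lit 0), (nat_lit 370), (nat_lit 0), (nat_lit 32)⟩, (nat_lit 3), (nat_lit 3), (nat_lit 3), true, false, false⟩,
  ⟨⟨(nat_lit 340), (nat_lit 360), (nat_lit 120), (nat_lit 240), (nat_lit 120), (nat_lit 180), (nat_lit 80), (nat_lit 120), (nat_lit 240), (nat_lit 330), (nat_lit 0), (nat_lit 370), (nat_lit 0), (nat_lit 32)⟩, (nat_lit 3), (nat_lit 3), (nat_lit 3), true, false, false⟩,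
  ⟨⟨(nat_lit 340), (nat_lit 360), (nat_lit 120), (nat_lit 240), (nat_lit 120), (nat_lit 180), (nat_lit 120), (nat_lit 200), (nat_lit 120), (nat_lit 240), (nat_lit 0), (nat_lit 400), (nat_lit 0), (nat_lit 32)⟩, (nat_lit 3), (nat_lit 3), (nat_lit 3), false, false, false⟩,
  ⟨⟨(nat_lit 340), (nat_lit 360), (nat_lit 120), (nat_lit 180), (nat_lit 120), (nat_lit 180), (nat_lit 120), (nat_lit 200), (nat_lit 240), (nat_lit 330), (nat_lit 0), (nat_lit 400), (nat_lit 0), (nat_lit 32)⟩, (nat_lit 3), (nat_lit 3), (nat_lit 3), false, false, false⟩,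
  ⟨⟨(nat_lit 340), (nat_lit 360), (nat_lit 180), (nat_lit 240), (nat_lit 120), (nat_lit 180), (nat_lit 120), (nat_lit 200), (nat_lit 240), (nat_lit 330), (nat_lit 0), (nat_lit 400), (nat_lit 0), (nat_lit 32)⟩, (nat_lit 3), (nat_lit 3), (nat_lit 3), false, false, false⟩,
  ⟨⟨(nat_lit 340), (nat_lit 360), (nat_lit 180), (nat_lit 240), (nat_lit 180), (nat_lit 240), (nat_lit 40), (nat_lit 200), (nat_lit 120), (nat_lit 240), (nat_lit 0), (nat_lit 400), (nat_lit 0), (nat_lit 32)⟩, (nat_lit 3), (nat_lit 3), (nat_lit 3), false, false, false⟩,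
  ⟨⟨(nat_lit 340), (nat_lit 360), (nat_lit 180), (nat_lit 240), (nat_lit 180), (nat_lit 220), (nat_lit 40), (nat_lit 120), (nat_lit 240), (nat_lit 360), (nat_lit 0), (nat_lit 370), (nat_lit 0), (nat_lit 32)⟩, (nat_lit 3), (nat_lit 3), (nat_lit 0), true, false, false⟩,
  ⟨⟨(nat_lit 340), (nat_lit 360), (nat_lit 180), (nat_lit 240), (nat_lit 180), (nat_lit 220), (nat_lit 40), (nat_lit 120), (nat_lit 240), (nat_lit 320), (nat_lit 0), (nat_lit 370), (nat_lit 0), (nat_lit 32)⟩, (nat_lit 3), (nat_lit 3), (nat_lit 1), true, false, false⟩,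
  ⟨⟨(nat_lit 340), (nat_lit 360), (nat_lit 180), (nat_lit 240), (nat_lit 180), (nat_lit 200), (nat_lit 40), (nat_lit 120), (nat_lit 320), (nat_lit 360), (nat_lit 0), (nat_lit 300), (nat_lit 0), (nat_lit 32)⟩, (nat_lit 3), (nat_lit 3), (nat_lit 1), true, false, false⟩,
  ⟨⟨(nat_lit 340), (nat_lit 360), (nat_lit 180), (nat_lit 240), (nat_lit 200), (nat_lit 220), (nat_lit 40), (nat_lit 120), (nat_lit 320), (nat_lit 360), (nat_lit 0), (nat_lit 300), (nat_lit 0), (nat_lit 32)⟩, (nat_lit 3), (nat_lit 3), (nat_lit 1), true, false, false⟩,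
  ⟨⟨(nat_lit 340), (nat_lit 360), (nat_lit 180), (nat_lit 240), (nat_lit 220), (nat_lit 240), (nat_lit 40), (nat_lit 120), (nat_lit 240), (nat_lit 370), (nat_lit 0), (nat_lit 370), (nat_lit 0), (nat_lit 32)⟩, (nat_lit 3), (nat_lit 3), (nat_lit 3), true, false, false⟩,
  ⟨⟨(nat_lit 340), (nat_lit 360), (nat_lit 180), (nat_lit 240), (nat_lit 180), (nat_lit 240), (nat_lit 120), (nat_lit 200), (nat_lit 240), (nat_lit 370), (nat_lit 0), (nat_lit 400), (nat_lit 0), (nat_lit 32)⟩, (nat_lit 3), (nat_lit 3), (nat_lit 3), false, false, false⟩,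
  ⟨⟨(nat_lit 340), (nat_lit 360), (nat_lit 120), (nat_lit 180), (nat_lit 120), (nat_lit 180), (nat_lit 200), (nat_lit 370), (nat_lit 120), (nat_lit 240), (nat_lit 0), (nat_lit 400), (nat_lit 0), (nat_lit 32)⟩, (nat_lit 3), (nat_lit 3), (nat_lit 3), false, false, false⟩,
  ⟨⟨(nat_lit 340), (nat_lit 360), (nat_lit 180), (nat_lit 240), (nat_lit 120), (nat_lit 180), (nat_lit 200), (nat_lit 370), (nat_lit 120), (nat_lit 240), (nat_lit 0), (nat_lit 400), (nat_lit 0), (nat_lit 32)⟩, (nat_lit 0), (nat_lit 3), (nat_lit 3), false, false, false⟩,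
  ⟨⟨(nat_lit 340), (nat_lit 360), (nat_lit 180), (nat_lit 240), (nat_lit 120), (nat_lit 180), (nat_lit 200), (nat_lit 370), (nat_lit 120), (nat_lit 240), (nat_lit 0), (nat_lit 400), (nat_lit 0), (nat_lit 32)⟩, (nat_lit 1), (nat_lit 3), (nat_lit 3), false, false, false⟩,
  ⟨⟨(nat_lit 340), (nat_lit 360), (nat_lit 120), (nat_lit 240), (nat_lit 120), (nat_lit 180), (nat_lit 200), (nat_lit 280), (nat_lit 240), (nat_lit 330), (nat_lit 0), (nat_lit 400), (nat_lit 0), (nat_lit 32)⟩, (nat_lit 0), (nat_lit 3), (nat_lit 3), false, false, false⟩,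
  ⟨⟨(nat_lit 340), (nat_lit 360), (nat_lit 120), (nat_lit 180), (nat_lit 120), (nat_lit 180), (nat_lit 280), (nat_lit 370), (nat_lit 240), (nat_lit 330), (nat_lit 30), (nat_lit 400), (nat_lit 0), (nat_lit 32)⟩, (nat_lit 0), (nat_lit 3), (nat_lit 3), false, false, false⟩,
  ⟨⟨(nat_lit 340), (nat_lit 360), (nat_lit 180), (nat_lit 240), (nat_lit 120), (nat_lit 160), (nat_lit 280), (nat_lit 370), (nat_lit 240), (nat_lit 330), (nat_lit 30), (nat_lit 400), (nat_lit 0), (nat_lit 32)⟩, (nat_lit 0), (nat_lit 3), (nat_lit 3), false, false, false⟩,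
  ⟨⟨(nat_lit 340), (nat_lit 360), (nat_lit 180), (nat_lit 240), (nat_lit 160), (nat_lit 180), (nat_lit 280), (nat_lit 370), (nat_lit 240), (nat_lit 330), (nat_lit 30), (nat_lit 400), (nat_lit 0), (nat_lit 32)⟩, (nat_lit 0), (nat_lit 3), (nat_lit 3), false, false, false⟩,
  ⟨⟨(nat_lit 340), (nat_lit 360), (nat_lit 120), (nat_lit 180), (nat_lit 120), (nat_lit 180), (nat_lit 200), (nat_lit 370), (nat_lit 240), (nat_lit 330), (nat_lit 0), (nat_lit 400), (nat_lit 0), (nat_lit 32)⟩, (nat_lit 1), (nat_lit 3), (nat_lit 3), false, false, false⟩,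
  ⟨⟨(nat_lit 340), (nat_lit 360), (nat_lit 180), (nat_lit 240), (nat_lit 120), (nat_lit 180), (nat_lit 200), (nat_lit 370), (nat_lit 240), (nat_lit 330), (nat_lit 0), (nat_lit 400), (nat_lit 0), (nat_lit 32)⟩, (nat_lit 1), (nat_lit 3), (nat_lit 3), false, false, false⟩,
  ⟨⟨(nat_lit 340), (nat_lit 360), (nat_lit 180), (nat_lit 240), (nat_lit 180), (nat_lit 240), (nat_lit 200), (nat_lit 370), (nat_lit 120), (nat_lit 240), (nat_lit 0), (nat_lit 400), (nat_lit 0), (nat_lit 32)⟩, (nat_lit 3), (nat_lit 3), (nat_lit 3), false, false, false⟩,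
  ⟨⟨(nat_lit 340), (nat_lit 360), (nat_lit 180), (nat_lit 240), (nat_lit 180), (nat_lit 240), (nat_lit 200), (nat_lit 370), (nat_lit 240), (nat_lit 370), (nat_lit 0), (nat_lit 400), (nat_lit 0), (nat_lit 32)⟩, (nat_lit 3), (nat_lit 3), (nat_lit 3), false, false, false⟩,
  ⟨⟨(nat_lit 340), (nat_lit 360), (nat_lit 120), (nat_lit 240), (nat_lit 120), (nat_lit 240), (nat_lit 10), (nat_lit 200), (nat_lit 10), (nat_lit 120), (nat_lit 0), (nat_lit 400), (nat_lit 32), (nat_lit 60)⟩, (nat_lit 3), (nat_lit 3), (nat_lit 3), false, true, false⟩,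
  ⟨⟨(nat_lit 340), (nat_lit 360), (nat_lit 120), (nat_lit 240), (nat_lit 120), (nat_lit 180), (nat_lit 10), (nat_lit 200), (nat_lit 120), (nat_lit 240), (nat_lit 0), (nat_lit 400), (nat_lit 32), (nat_lit 60)⟩, (nat_lit 3), (nat_lit 3), (nat_lit 3), false, false, false⟩,
  ⟨⟨(nat_lit 340), (nat_lit 360), (nat_lit 120), (nat_lit 240), (nat_lit 180), (nat_lit 240), (nat_lit 10), (nat_lit 200), (nat_lit 120), (nat_lit 240), (nat_lit 0), (nat_lit 400), (nat_lit 32), (nat_lit 60)⟩, (nat_lit 3), (nat_lit 3), (nat_lit 3), false, false, false⟩,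
  ⟨⟨(nat_lit 340), (nat_lit 360), (nat_lit 120), (nat_lit 240), (nat_lit 120), (nat_lit 180), (nat_lit 10), (nat_lit 120), (nat_lit 240), (nat_lit 330), (nat_lit 0), (nat_lit 400), (nat_lit 32), (nat_lit 60)⟩, (nat_lit 3), (nat_lit 3), (nat_lit 3), true, false, false⟩,
  ⟨⟨(nat_lit 340), (nat_lit 360), (nat_lit 120), (nat_lit 240), (nat_lit 120), (nat_lit 180), (nat_lit 120), (nat_lit 200), (nat_lit 240), (nat_lit 330), (nat_lit 0), (nat_lit 400), (nat_lit 32), (nat_lit 60)⟩, (nat_lit 3), (nat_lit 3), (nat_lit 3), false, false, false⟩]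
theorem t008 (h : EC env Ei) : ∀ τ ∈ l008, Dead τ :=
  List.forall_mem_cons.mpr ⟨chkT_sound0 h (T := c7_0) (by decide +kernel),
  List.forall_mem_cons.mpr ⟨chkT_sound0 h (T := c7_1) (by decide +kernel),
  List.forall_mem_cons.mpr ⟨chkT_sound0 h (T := c7_2) (by decide +kernel),
  List.forall_mem_cons.mpr ⟨chkT_sound0 h (T := c7_3) (by decide +kernel),
  List.forall_mem_cons.mpr ⟨chkT_sound0 h (T := c7_4) (by decide +kernel),
  List.forall_mem_cons.mpr ⟨chkT_sound0 h (T := c7_5) (by decide +kernel),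
  List.forall_mem_cons.mpr ⟨chkT_sound0 h (T := c7_6) (by decide +kernel),
  List.forall_mem_cons.mpr ⟨chkT_sound0 h (T := c7_7) (by decide +kernel),
  List.forall_mem_cons.mpr ⟨chkT_sound0 h (T := c7_8) (by decide +kernel),
  List.forall_mem_cons.mpr ⟨chkT_sound0 h (T := c7_9) (by decide +kernel),
  List.forall_mem_cons.mpr ⟨chkT_sound0 h (T := c7_10) (by decide +kernel),
  List.forall_mem_cons.mpr ⟨chkT_sound0 h (T := c7_11) (by decide +kernel),
  List.forall_mem_cons.mpr ⟨chkT_sound0 h (T := c7_12) (by decide +kernel),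
  List.forall_mem_cons.mpr ⟨chkT_sound0 h (T := c7_13) (by decide +kernel),
  List.forall_mem_cons.mpr ⟨chkT_sound0 h (T := c7_14) (by decide +kernel),
  List.forall_mem_cons.mpr ⟨chkT_sound0 h (T := c7_15) (by decide +kernel),
  List.forall_mem_cons.mpr ⟨chkT_sound0 h (T := c7_16) (by decide +kernel),
  List.forall_mem_cons.mpr ⟨chkT_sound0 h (T := c7_17) (by decide +kernel),
  List.forall_mem_cons.mpr ⟨chkT_sound0 h (T := c7_18) (by decide +kernel),
  List.forall_mem_cons.mpr ⟨chkT_sound0 h (T := c7_19) (by decide +kernel),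
  List.forall_mem_cons.mpr ⟨chkT_sound0 h (T := c7_20) (by decide +kernel),
  List.forall_mem_cons.mpr ⟨chkT_sound0 h (T := c7_21) (by decide +kernel),
  List.forall_mem_cons.mpr ⟨chkT_sound0 h (T := c7_22) (by decide +kernel),
  List.forall_mem_cons.mpr ⟨chkT_sound0 h (T := c7_23) (by decide +kernel),
  List.forall_mem_cons.mpr ⟨chkT_sound0 h (T := c7_24) (by decide +kernel),
  List.forall_mem_cons.mpr ⟨chkT_sound0 h (T := c7_25) (by decide +kernel),
  List.forall_mem_cons.mpr ⟨chkT_sound0 h (T := c7_26) (by decide +kernel),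
  List.forall_mem_cons.mpr ⟨chkT_sound0 h (T := c7_27) (by decide +kernel),
  List.forall_mem_cons.mpr ⟨chkT_sound0 h (T := c7_28) (by decide +kernel),
  List.forall_mem_cons.mpr ⟨chkT_sound0 h (T := c7_29) (by decide +kernel),
  List.forall_mem_cons.mpr ⟨chkT_sound0 h (T := c7_30) (by decide +kernel),
  List.forall_mem_cons.mpr ⟨chkT_sound0 h (T := c7_31) (by decide +kernel),
  List.forall_mem_cons.mpr ⟨chkT_sound0 h (T := c7_32) (by decide +kernel),
  List.forall_mem_cons.mpr ⟨chkT_sound0 h (T := c7_33) (by decide +kernel),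
  List.forall_mem_nil _⟩⟩⟩⟩⟩⟩⟩⟩⟩⟩⟩⟩⟩⟩⟩⟩⟩⟩⟩⟩⟩⟩⟩⟩⟩⟩⟩⟩⟩⟩⟩⟩⟩⟩
end TC
end Pool.Agent.Lib.MP_6947cd_al
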