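import Pool.Agent.Lib.MP_6947cd_al.C.LeafF
import Pool.Agent.Lib.MP_6947cd_al.TC.E
import Pool.Agent.Lib.MP_6947cd_al.TC.F

/-!
Problem MP_6947cd_al (Chollet).  CASE C, tables and certificates.  Trees of leaves (part 9 of root 7).
-/

set_option autoImplicit false
set_option linter.all false
set_option maxRecDepth 100000
set_option maxHeartbeats 4000000
namespace Pool.Agent.Lib.MP_6947cd_al
namespace TC
open C1
noncomputable def c7_34 : Tr Lf :=
 (.ord (.trZ (nat_lit 0) (nat_lit 1) (nat_lit 3) (nat_lit 100) (nat_lit 72) (nat_lit 63) (nat_lit 40) (.spl (nat_lit 6) (nat_lit 48) (.spl (nat_lit 1) (nat_lit 220) (.ord (.trX (nat_lit 4) (nat_lit 0) (nat_lit 2) (nat_lit 72) (nat_lit 63) (nat_lit 100) (nat_lit 360) (.spl (nat_lit 6) (nat_lit 40) (.spl (nat_lit 0) (nat_lit 350) (.dle (nat_lit 0)) (.trZ (nat_lit 0) (nat_lit 1) (nat_lit 3) (nat_lit 100) (nat_lit 66) (nat_lit 68) (nat_lit 50) (.trX (nat_lit 4) (nat_lit 0) (nat_lit 2) (nat_lit 66) (nat_lit 68) (nat_lit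 100) (nat_lit 350) (.spl (nat_lit 2) (nat_lit 200) (.trX (nat_lit 4) (nat_lit 0) (nat_lit 2) (nat_lit 66) (nat_lit 75) (nat_lit 100) (nat_lit 340) (.spl (nat_lit 3) (nat_lit 120) (.trX (nat_lit 5) (nat_lit 4) (nat_lit 3) (nat_lit 100) (nat_lit 59) (nat_lit 94) (nat_lit 370) (.spl (nat_lit 1) (nat_lit 200) (.leaf ⟨(nat_lit 935), (nat_lit 0), (nat_lit 49), (nat_lit 16), (nat_lit 6843), (nat_lit 3089), (nat_lit 136), (nat_lit 678), (nat_lit 0), (nat_lit 336739054707), (nat_lit 333650), [((nat_lit 360), [((nat_lit 21), (nat_lit 0), (nat_lit 269)), ((nat_lit 21), (nat_lit 1), (nat_lit 666))])], ⟨(nat_lit 4), false, false, false, (nat_lit 124), (nat_lit 3162), (nat_lit 3536), [(nat_lit 1242661), (nat_lit 1249238), (nat_lit 1264605), (nat_lit 1271385), (nat_lit 1352511), (nat_lit 1355925), (nat_lit 1374456), (nat_lit 1378072)]⟩, ⟨(nat_lit 6), false, true, true, (nat_lit 251), (nat_lit 3162), (nat_lit 3536), [(nat_lit 1540807), (nat_lit 1538797), (nat_lit 1562760),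 (nat_lit 1560952), (nat_lit 1697711), (nat_lit 1691180), (nat_lit 1719663), (nat_lit 1713335)]⟩, (nat_lit 4536904), (nat_lit 43145214), (nat_lit 5918519), (nat_lit 17936267), (nat_lit 0), (nat_lit 4), [⟨(nat_lit 0), (nat_lit 100), (nat_lit 60), (nat_lit 80), (nat_lit 123296802)⟩], [⟨(nat_lit 1), (nat_lit 81), (nat_lit 63), (nat_lit 100), (nat_lit 245071835)⟩], [], [],
 ⟨⟨[(nat_lit 40), (nat_lit 60), (nat_lit 80)], [(nat_lit 0), (nat_lit 600), (nat_lit 1195)], [((nat_lit 0), (nat_lit 0), (nat_lit 0)), ((nat_lit 1000), (nat_lit 725), (nat_lit 454)), ((nat_lit 1000), (nat_lit 720), (nat_lit 465))], ((nat_lit 68), (nat_lit 100), (nat_lit 61))⟩, (nat_lit 185341), (nat_lit 115), (nat_lit 115), (nat_lit 0), (nat_lit 22354), [(nat_lit 1404546527), (nat_lit 1641529651), (nat_lit 1821272400)], [(nat_lit 0), (nat_lit 0), (nat_lit 0)], [(nat_lit 22191395105), (nat_lit 22823572335), (nat_lit 22199844449), (nat_lit 22789394045), (nat_lit 26549670844), (nat_lit 27086767324),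 (nat_lit 26293740276), (nat_lit 26772687329)], (nat_lit 1271251), (nat_lit 1271251), (nat_lit 292188), (nat_lit 780000), (nat_lit 1271251), (nat_lit 1271251), [(nat_lit 490000), (nat_lit 780000), (nat_lit 1100000)], [(nat_lit 2), (nat_lit 44), (nat_lit 238), (nat_lit 30), (nat_lit 9)]⟩,
 ⟨⟨[(nat_lit 120), (nat_lit 160), (nat_lit 180)], [(nat_lit 0), (nat_lit 533), (nat_lit 2066)], [((nat_lit 0), (nat_lit 0), (nat_lit 0)), ((nat_lit 960), (nat_lit 1000), (nat_lit 200)), ((nat_lit 615), (nat_lit 1000), (nat_lit 729))], ((nat_lit 100), (nat_lit 74), (nat_lit 60))⟩, (nat_lit 46558), (nat_lit 463), (nat_lit 463), (nat_lit 0), (nat_lit 65803), [(nat_lit 127488000), (nat_lit 189952000), (nat_lit 224928000)], [], [(nat_lit 820420311), (nat_lit 749282400), (nat_lit 701810650), (nat_lit 703873996), (nat_lit 831587334), (nat_lit 768335483), (nat_lit 907921479), (nat_lit 846115029)], (nat_lit 1271251), (nat_lit 1271251), (nat_lit 292188), (nat_lit 780000), (nat_lit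 0), (nat_lit 2613125), [(nat_lit 1695001), (nat_lit 1271251), (nat_lit 1271251)], [(nat_lit 28), (nat_lit 65), (nat_lit 401), (nat_lit 175), (nat_lit 10)]⟩,
 ⟨⟨[(nat_lit 120), (nat_lit 160), (nat_lit 180)], [(nat_lit 0), (nat_lit 533), (nat_lit 2066)], [((nat_lit 0), (nat_lit 0), (nat_lit 0)), ((nat_lit 960), (nat_lit 1000), (nat_lit 200)), ((nat_lit 615), (nat_lit 1000), (nat_lit 729))], ((nat_lit 100), (nat_lit 74), (nat_lit 60))⟩, (nat_lit 152195), (nat_lit 300), (nat_lit 391), (nat_lit 4316001), (nat_lit 125062), [(nat_lit 517920000), (nat_lit 771680000), (nat_lit 913770000)], [], [(nat_lit 3232125895), (nat_lit 3227435872), (nat_lit 3420567464), (nat_lit 3404831602), (nat_lit 3474570850), (nat_lit 3178088738), (nat_lit 2814415469), (nat_lit 2786342917)], (nat_lit 1271251), (nat_lit 1271251), (nat_lit 1271251), (nat_lit 1271251), (nat_lit 0), (nat_lit 2613125), [(nat_lit 1695001), (nat_lit 1271251), (nat_lit 1271251)], [(nat_lit 28), (nat_lit 65),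 (nat_lit 483), (nat_lit 250), (nat_lit 11)]⟩⟩) (.trZ (nat_lit 0) (nat_lit 1) (nat_lit 3) (nat_lit 100) (nat_lit 66) (nat_lit 75) (nat_lit 60) (.leaf ⟨(nat_lit 857), (nat_lit 0), (nat_lit 0), (nat_lit 143), (nat_lit 7891), (nat_lit 3488), (nat_lit 2729), (nat_lit 1506), (nat_lit 0), (nat_lit 0), (nat_lit 214250), [((nat_lit 360), [((nat_lit 21), (nat_lit 0), (nat_lit 857))])], ⟨(nat_lit 5), false, false, false, (nat_lit 136), (nat_lit 3162), (nat_lit 3536), [(nat_lit 1280298), (nat_lit 1286626), (nat_lit 1302243), (nat_lit 1308773), (nat_lit 1374456), (nat_lit 1378072), (nat_lit 1396400), (nat_lit 1400219)]⟩, ⟨(nat_lit 6), false, true, true, (nat_lit 251), (nat_lit 3162), (nat_lit 3536), [(nat_lit 1540807), (nat_lit 1538797), (nat_lit 1562760), (nat_lit 1560952), (nat_lit 1697711), (nat_lit 1691180), (nat_lit 1719663), (nat_lit 1713335)]⟩, (nat_lit 4664731), (nat_lit 42480623), (nat_lit 6753018), (nat_lit 17766359), (nat_lit 0), (nat_lit 0), [⟨(nat_lit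 0), (nat_lit 100), (nat_lit 63), (nat_lit 81), (nat_lit 294936406)⟩], [⟨(nat_lit 1), (nat_lit 81), (nat_lit 63), (nat_lit 100), (nat_lit 159694438)⟩], [], [],
 ⟨⟨[(nat_lit 40), (nat_lit 60), (nat_lit 80)], [(nat_lit 0), (nat_lit 600), (nat_lit 1195)], [((nat_lit 0), (nat_lit 0), (nat_lit 0)), ((nat_lit 1000), (nat_lit 725), (nat_lit 454)), ((nat_lit 1000), (nat_lit 720), (nat_lit 465))], ((nat_lit 68), (nat_lit 100), (nat_lit 61))⟩, (nat_lit 231269), (nat_lit 111), (nat_lit 111), (nat_lit 0), (nat_lit 29181), [(nat_lit 1592664051), (nat_lit 2007405171), (nat_lit 2353189200)], [(nat_lit 0), (nat_lit 0), (nat_lit 0)], [(nat_lit 22349679694), (nat_lit 23014104396), (nat_lit 22363609916), (nat_lit 22986883292), (nat_lit 26965697735), (nat_lit 27527037067), (nat_lit 26622663788), (nat_lit 27130551995)], (nat_lit 1271251), (nat_lit 1271251), (nat_lit 356250), (nat_lit 780000), (nat_lit 1271251), (nat_lit 1271251), [(nat_lit 490000), (nat_lit 780000), (nat_lit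 1100000)], [(nat_lit 2), (nat_lit 44), (nat_lit 238), (nat_lit 30), (nat_lit 9)]⟩,
 ⟨⟨[(nat_lit 100), (nat_lit 140), (nat_lit 160)], [(nat_lit 0), (nat_lit 0), (nat_lit 1280)], [((nat_lit 0), (nat_lit 0), (nat_lit 0)), ((nat_lit 0), (nat_lit 0), (nat_lit 0)), ((nat_lit 800), (nat_lit 1000), (nat_lit 600))], ((nat_lit 100), (nat_lit 80), (nat_lit 60))⟩, (nat_lit 676377), (nat_lit 349), (nat_lit 349), (nat_lit 0), (nat_lit 65082), [(nat_lit 893750000), (nat_lit 1407406000), (nat_lit 1697696000)], [], [(nat_lit 4885544057), (nat_lit 4940910718), (nat_lit 5021966079), (nat_lit 4039548319), (nat_lit 10327523720), (nat_lit 9111150684), (nat_lit 11584199390), (nat_lit 10390641562)], (nat_lit 1271251), (nat_lit 1271251), (nat_lit 356250), (nat_lit 780000), (nat_lit 0), (nat_lit 2613125), [(nat_lit 1412501), (nat_lit 1271251), (nat_lit 1271251)], [(nat_lit 23), (nat_lit 62), (nat_lit 428), (nat_lit 200), (nat_lit 11)]⟩,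
 ⟨⟨[(nat_lit 120), (nat_lit 160), (nat_lit 180)], [(nat_lit 0), (nat_lit 533), (nat_lit 2066)], [((nat_lit 0), (nat_lit 0), (nat_lit 0)), ((nat_lit 960), (nat_lit 1000), (nat_lit 200)), ((nat_lit 615), (nat_lit 1000), (nat_lit 729))], ((nat_lit 100), (nat_lit 74), (nat_lit 60))⟩, (nat_lit 334828), (nat_lit 300), (nat_lit 413), (nat_lit 9495205), (nat_lit 176698), [(nat_lit 1139424000), (nat_lit 1697696000), (nat_lit 2010294000)], [], [(nat_lit 7141414690), (nat_lit 7126032686), (nat_lit 7518041987), (nat_lit 7486775803), (nat_lit 7651312465), (nat_lit 6992754854), (nat_lit 6167189237), (nat_lit 6104387376)], (nat_lit 1271251), (nat_lit 1271251), (nat_lit 1271251), (nat_lit 1271251), (nat_lit 0), (nat_lit 2613125), [(nat_lit 1695001), (nat_lit 1271251), (nat_lit 1271251)], [(nat_lit 28), (nat_lit 65), (nat_lit 483), (nat_lit 250), (nat_lit 11)]⟩⟩)))) (.leaf ⟨(nat_lit 822), (nat_lit 0), (nat_lit 0), (nat_lit 178), (nat_lit 3456), (nat_lit 3950), (nat_lit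 2793), (nat_lit 2105), (nat_lit 0), (nat_lit 28156), (nat_lit 205500), [((nat_lit 360), [((nat_lit 21), (nat_lit 0), (nat_lit 822))])], ⟨(nat_lit 4), false, false, false, (nat_lit 175), (nat_lit 3162), (nat_lit 3536), [(nat_lit 1352511), (nat_lit 1355925), (nat_lit 1396400), (nat_lit 1400219), (nat_lit 1478046), (nat_lit 1477844), (nat_lit 1521944), (nat_lit 1522146)]⟩, ⟨(nat_lit 6), false, true, true, (nat_lit 251), (nat_lit 3162), (nat_lit 3536), [(nat_lit 1540807), (nat_lit 1538797), (nat_lit 1562760), (nat_lit 1560952), (nat_lit 1697711), (nat_lit 1691180), (nat_lit 1719663), (nat_lit 1713335)]⟩, (nat_lit 5028231), (nat_lit 40217657), (nat_lit 9641232), (nat_lit 17141111), (nat_lit 0), (nat_lit 0), [], [⟨(nat_lit 1), (nat_lit 81), (nat_lit 63), (nat_lit 100), (nat_lit 166538602)⟩], [], [⟨(nat_lit 0), (nat_lit 91), (nat_lit 100), (nat_lit 27), (nat_lit 5415667)⟩],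
 ⟨⟨[(nat_lit 40), (nat_lit 60), (nat_lit 80)], [(nat_lit 0), (nat_lit 600), (nat_lit 1195)], [((nat_lit 0), (nat_lit 0), (nat_lit 0)), ((nat_lit 1000), (nat_lit 725), (nat_lit 454)), ((nat_lit 1000), (nat_lit 720), (nat_lit 465))], ((nat_lit 68), (nat_lit 100), (nat_lit 61))⟩, (nat_lit 0), (nat_lit 90), (nat_lit 90), (nat_lit 0), (nat_lit 41737), [(nat_lit 1628293052), (nat_lit 2100083194), (nat_lit 2448543200)], [(nat_lit 0), (nat_lit 0), (nat_lit 0)], [(nat_lit 22265567463), (nat_lit 22969262450), (nat_lit 23502531713), (nat_lit 24127424250), (nat_lit 26942320285), (nat_lit 27501738263), (nat_lit 27659975504), (nat_lit 28160479388)], (nat_lit 1271251), (nat_lit 1271251), (nat_lit 780000), (nat_lit 1435001), (nat_lit 1271251), (nat_lit 1271251), [(nat_lit 490000), (nat_lit 780000), (nat_lit 1100000)], [(nat_lit 2), (nat_lit 44), (nat_lit 260), (nat_lit 50), (nat_lit 10)]⟩,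
 ⟨⟨[(nat_lit 120), (nat_lit 160), (nat_lit 180)], [(nat_lit 0), (nat_lit 533), (nat_lit 2066)], [((nat_lit 0), (nat_lit 0), (nat_lit 0)), ((nat_lit 960), (nat_lit 1000), (nat_lit 200)), ((nat_lit 615), (nat_lit 1000), (nat_lit 729))], ((nat_lit 100), (nat_lit 74), (nat_lit 60))⟩, (nat_lit 848131), (nat_lit 431), (nat_lit 431), (nat_lit 0), (nat_lit 128905), [(nat_lit 1418304000), (nat_lit 2113216000), (nat_lit 2502324000)], [], [(nat_lit 6408203251), (nat_lit 6533636821), (nat_lit 7866634790), (nat_lit 6235489423), (nat_lit 12278759115), (nat_lit 9765162456), (nat_lit 15067201872), (nat_lit 12616813596)], (nat_lit 1271251), (nat_lit 1271251), (nat_lit 780000), (nat_lit 1435001), (nat_lit 0), (nat_lit 2825001), [(nat_lit 1695001), (nat_lit 1271251), (nat_lit 1271251)], [(nat_lit 28), (nat_lit 65), (nat_lit 456), (nat_lit 225), (nat_lit 11)]⟩,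
 ⟨⟨[(nat_lit 120), (nat_lit 160), (nat_lit 180)], [(nat_lit 0), (nat_lit 533), (nat_lit 2066)], [((nat_lit 0), (nat_lit 0), (nat_lit 0)), ((nat_lit 960), (nat_lit 1000), (nat_lit 200)), ((nat_lit 615), (nat_lit 1000), (nat_lit 729))], ((nat_lit 100), (nat_lit 74), (nat_lit 60))⟩, (nat_lit 416780), (nat_lit 300), (nat_lit 413), (nat_lit 11819202), (nat_lit 176698), [(nat_lit 1418304000), (nat_lit 2113216000), (nat_lit 2502324000)], [], [(nat_lit 8716704675), (nat_lit 8687972668), (nat_lit 9309633460), (nat_lit 9257526640), (nat_lit 10181185705), (nat_lit 9269386010), (nat_lit 7412283491), (nat_lit 7309907589)], (nat_lit 1271251), (nat_lit 1271251), (nat_lit 1271251), (nat_lit 1271251), (nat_lit 0), (nat_lit 2825001), [(nat_lit 1695001), (nat_lit 1271251), (nat_lit 1271251)], [(nat_lit 28), (nat_lit 65), (nat_lit 483), (nat_lit 250), (nat_lit 11)]⟩⟩))) (.ord (.trZ (nat_lit 0) (nat_lit 1) (nat_lit 3) (nat_lit 100) (nat_lit 66) (nat_lit 75) (nat_lit 60) (.leaf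 ⟨(nat_lit 0), (nat_lit 0), (nat_lit 745), (nat_lit 255), (nat_lit 0), (nat_lit 4837), (nat_lit 1167), (nat_lit 12390), (nat_lit 0), (nat_lit 392367), (nat_lit 0), [], Pd.none, Pd.none, (nat_lit 0), (nat_lit 1), (nat_lit 0), (nat_lit 0), (nat_lit 0), (nat_lit 5), [⟨(nat_lit 0), (nat_lit 100), (nat_lit 60), (nat_lit 86), (nat_lit 112402099)⟩], [], [], [],
 ⟨⟨[(nat_lit 40), (nat_lit 60), (nat_lit 80)], [(nat_lit 0), (nat_lit 600), (nat_lit 1195)], [((nat_lit 0), (nat_lit 0), (nat_lit 0)), ((nat_lit 1000), (nat_lit 725), (nat_lit 454)), ((nat_lit 1000), (nat_lit 720), (nat_lit 465))], ((nat_lit 68), (nat_lit 100), (nat_lit 61))⟩, (nat_lit 1228187), (nat_lit 121), (nat_lit 121), (nat_lit 0), (nat_lit 56939), [(nat_lit 2032000041), (nat_lit 3282000076), (nat_lit 4688000000)], [], [(nat_lit 23177596817), (nat_lit 24016962405), (nat_lit 23800845432), (nat_lit 24384094923), (nat_lit 29912843082), (nat_lit 30650473884), (nat_lit 29017434622), (nat_lit 29635630827)],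 (nat_lit 1271251), (nat_lit 1271251), (nat_lit 356250), (nat_lit 1423751), (nat_lit 1271251), (nat_lit 1271251), [(nat_lit 490000), (nat_lit 780000), (nat_lit 1100000)], [(nat_lit 2), (nat_lit 44), (nat_lit 260), (nat_lit 50), (nat_lit 10)]⟩,
 ⟨⟨[(nat_lit 100), (nat_lit 140), (nat_lit 160)], [(nat_lit 0), (nat_lit 0), (nat_lit 1280)], [((nat_lit 0), (nat_lit 0), (nat_lit 0)), ((nat_lit 0), (nat_lit 0), (nat_lit 0)), ((nat_lit 800), (nat_lit 1000), (nat_lit 600))], ((nat_lit 100), (nat_lit 80), (nat_lit 60))⟩, (nat_lit 712234), (nat_lit 398), (nat_lit 398), (nat_lit 0), (nat_lit 163732), [(nat_lit 1593750000), (nat_lit 2509710000), (nat_lit 3027360000)], [], [(nat_lit 11970684735), (nat_lit 11334136610), (nat_lit 11268965395), (nat_lit 11358490797), (nat_lit 12526844381), (nat_lit 12569591302), (nat_lit 12681137391), (nat_lit 12378778610)], (nat_lit 1271251), (nat_lit 1271251), (nat_lit 356250), (nat_lit 1423751), (nat_lit 0), (nat_lit 2825001), [(nat_lit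 1412501), (nat_lit 1271251), (nat_lit 1271251)], [(nat_lit 23), (nat_lit 62), (nat_lit 456), (nat_lit 225), (nat_lit 12)]⟩,
 ⟨⟨[(nat_lit 100), (nat_lit 140), (nat_lit 160)], [(nat_lit 0), (nat_lit 0), (nat_lit 1280)], [((nat_lit 0), (nat_lit 0), (nat_lit 0)), ((nat_lit 0), (nat_lit 0), (nat_lit 0)), ((nat_lit 800), (nat_lit 1000), (nat_lit 600))], ((nat_lit 100), (nat_lit 80), (nat_lit 60))⟩, (nat_lit 487500), (nat_lit 300), (nat_lit 344), (nat_lit 70300000), (nat_lit 163732), [(nat_lit 6250000000), (nat_lit 9842000000), (nat_lit 11872000000)], [], [(nat_lit 41207804124), (nat_lit 41370557540), (nat_lit 46804297665), (nat_lit 46660632825), (nat_lit 40262595900), (nat_lit 36672252400), (nat_lit 42168715193), (nat_lit 42047064894)], (nat_lit 1271251), (nat_lit 1271251), (nat_lit 1271251), (nat_lit 1271251), (nat_lit 0), (nat_lit 2825001), [(nat_lit 1412501), (nat_lit 1271251), (nat_lit 1271251)], [(nat_lit 23), (nat_lit 62), (nat_lit 483), (nat_lit 250),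 (nat_lit 12)]⟩⟩))))))) (.dle (nat_lit 0))))) (.trZ (nat_lit 0) (nat_lit 1) (nat_lit 3) (nat_lit 100) (nat_lit 72) (nat_lit 77) (nat_lit 70) (.spl (nat_lit 5) (nat_lit 120) (.spl (nat_lit 0) (nat_lit 350) (.spl (nat_lit 6) (nat_lit 40) (.leaf ⟨(nat_lit 0), (nat_lit 0), (nat_lit 0), (nat_lit 1000), (nat_lit 168205), (nat_lit 4762), (nat_lit 9440), (nat_lit 11991), (nat_lit 0), (nat_lit 712962), (nat_lit 0), [], Pd.none, Pd.none, (nat_lit 0), (nat_lit 1), (nat_lit 0), (nat_lit 0), (nat_lit 0), (nat_lit 0), [⟨(nat_lit 0), (nat_lit 100), (nat_lit 68), (nat_lit 89), (nat_lit 385000122)⟩], [], [⟨(nat_lit 0), (nat_lit 100), (nat_lit 99), (nat_lit 20), (nat_lit 829158989)⟩], [],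
 ⟨⟨[(nat_lit 40), (nat_lit 80), (nat_lit 100)], [(nat_lit 0), (nat_lit 795), (nat_lit 1829)], [((nat_lit 0), (nat_lit 0), (nat_lit 0)), ((nat_lit 1000), (nat_lit 814), (nat_lit 310)), ((nat_lit 1000), (nat_lit 714), (nat_lit 692))], ((nat_lit 72), (nat_lit 100), (nat_lit 61))⟩, (nat_lit 2381107), (nat_lit 136), (nat_lit 136), (nat_lit 0), (nat_lit 46045), [(nat_lit 2091744456), (nat_lit 4688000509), (nat_lit 6250000000)], [], [(nat_lit 21640836408), (nat_lit 22411913418), (nat_lit 22623610345), (nat_lit 23310993794), (nat_lit 30060022202), (nat_lit 30743028550), (nat_lit 29590343496), (nat_lit 30168185962)], (nat_lit 1271251), (nat_lit 1271251), (nat_lit 422188), (nat_lit 1425626), (nat_lit 1271251), (nat_lit 1271251), [(nat_lit 490000), (nat_lit 1100000), (nat_lit 1442501)], [(nat_lit 3), (nat_lit 50), (nat_lit 260), (nat_lit 50), (nat_lit 9)]⟩,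
 ⟨⟨[(nat_lit 100), (nat_lit 140), (nat_lit 160)], [(nat_lit 0), (nat_lit 508), (nat_lit 1689)], [((nat_lit 0), (nat_lit 0), (nat_lit 0)), ((nat_lit 1000), (nat_lit 1000), (nat_lit 198)), ((nat_lit 811), (nat_lit 1000), (nat_lit 671))], ((nat_lit 100), (nat_lit 86), (nat_lit 60))⟩, (nat_lit 4298682), (nat_lit 339), (nat_lit 339), (nat_lit 0), (nat_lit 73599), [(nat_lit 6250000000), (nat_lit 9842000000), (nat_lit 11872000000)], [], [(nat_lit 30637820780), (nat_lit 26907263204), (nat_lit 42581690800), (nat_lit 38039932160), (nat_lit 35538011260), (nat_lit 30980040600), (nat_lit 48690194200), (nat_lit 44328855200)], (nat_lit 1271251), (nat_lit 1271251), (nat_lit 422188), (nat_lit 1425626), (nat_lit 0), (nat_lit 780000), [(nat_lit 1412501), (nat_lit 1271251), (nat_lit 1271251)], [(nat_lit 23), (nat_lit 62), (nat_lit 373), (nat_lit 150), (nat_lit 10)]⟩,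
 ⟨⟨[(nat_lit 120), (nat_lit 160), (nat_lit 180)], [(nat_lit 0), (nat_lit 533), (nat_lit 2066)], [((nat_lit 0), (nat_lit 0), (nat_lit 0)), ((nat_lit 960), (nat_lit 1000), (nat_lit 200)), ((nat_lit 615), (nat_lit 1000), (nat_lit 729))], ((nat_lit 100), (nat_lit 74), (nat_lit 60))⟩, (nat_lit 2341463), (nat_lit 300), (nat_lit 384), (nat_lit 66400002), (nat_lit 93633), [(nat_lit 7968000000), (nat_lit 11872000000), (nat_lit 14058000000)], [], [(nat_lit 48847428664), (nat_lit 48561875788), (nat_lit 53826769204), (nat_lit 52710263425), (nat_lit 39226572468), (nat_lit 38810926166), (nat_lit 43495560354), (nat_lit 42427917455)], (nat_lit 1271251), (nat_lit 1271251), (nat_lit 1271251), (nat_lit 1271251), (nat_lit 0), (nat_lit 780000), [(nat_lit 1695001), (nat_lit 1271251), (nat_lit 1271251)], [(nat_lit 28), (nat_lit 65), (nat_lit 428), (nat_lit 200), (nat_lit 10)]⟩⟩) (.dle (nat_lit 0))) (.trZ (nat_lit 0) (nat_lit 1) (nat_lit 3) (nat_lit 100) (nat_lit 66) (nat_lit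 82) (nat_lit 80) (.trX (nat_lit 4) (nat_lit 0) (nat_lit 2) (nat_lit 68) (nat_lit 61) (nat_lit 100) (nat_lit 360) (.leaf ⟨(nat_lit 529), (nat_lit 0), (nat_lit 0), (nat_lit 471), (nat_lit 5605), (nat_lit 3806), (nat_lit 6949), (nat_lit 5647), (nat_lit 0), (nat_lit 15360), (nat_lit 132250), [((nat_lit 360), [((nat_lit 22), (nat_lit 0), (nat_lit 529))])], ⟨(nat_lit 5), false, false, false, (nat_lit 176), (nat_lit 3162), (nat_lit 3536), [(nat_lit 1333628), (nat_lit 1339255), (nat_lit 1355573), (nat_lit 1361401), (nat_lit 1521944), (nat_lit 1522146), (nat_lit 1543888), (nat_lit 1544293)]⟩, ⟨(nat_lit 6), false, true, true, (nat_lit 266), (nat_lit 3162), (nat_lit 3536), [(nat_lit 1540807), (nat_lit 1538797), (nat_lit 1606660), (nat_lit 1605256), (nat_lit 1729092), (nat_lit 1721657), (nat_lit 1794949), (nat_lit 1788122)]⟩, (nat_lit 5099458), (nat_lit 39015144), (nat_lit 9520470), (nat_lit 18464386), (nat_lit 0), (nat_lit 0), [⟨(nat_lit 0), (nat_lit 100), (nat_lit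 61), (nat_lit 92), (nat_lit 31569837)⟩], [], [], [],
 ⟨⟨[(nat_lit 40), (nat_lit 80), (nat_lit 100)], [(nat_lit 0), (nat_lit 1195), (nat_lit 2166)], [((nat_lit 0), (nat_lit 0), (nat_lit 0)), ((nat_lit 1000), (nat_lit 720), (nat_lit 465)), ((nat_lit 1000), (nat_lit 662), (nat_lit 740))], ((nat_lit 67), (nat_lit 100), (nat_lit 66))⟩, (nat_lit 1562555), (nat_lit 147), (nat_lit 147), (nat_lit 0), (nat_lit 113140), [(nat_lit 1676330005), (nat_lit 3250601211), (nat_lit 4176743200)], [(nat_lit 0), (nat_lit 0), (nat_lit 0)], [(nat_lit 21360689293), (nat_lit 22002148552), (nat_lit 22952930193), (nat_lit 23497522342), (nat_lit 27990502965), (nat_lit 28618665294), (nat_lit 28523675676), (nat_lit 29061553670)], (nat_lit 1271251), (nat_lit 1271251), (nat_lit 490000), (nat_lit 1427501), (nat_lit 1271251), (nat_lit 1271251), [(nat_lit 490000), (nat_lit 1100000), (nat_lit 1442501)], [(nat_lit 3), (nat_lit 50), (nat_lit 260), (nat_lit 50), (nat_lit 9)]⟩,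
 ⟨⟨[(nat_lit 100), (nat_lit 140), (nat_lit 160)], [(nat_lit 0), (nat_lit 508), (nat_lit 1689)], [((nat_lit 0), (nat_lit 0), (nat_lit 0)), ((nat_lit 1000), (nat_lit 1000), (nat_lit 198)), ((nat_lit 811), (nat_lit 1000), (nat_lit 671))], ((nat_lit 100), (nat_lit 83), (nat_lit 65))⟩, (nat_lit 2622220), (nat_lit 386), (nat_lit 386), (nat_lit 0), (nat_lit 193241), [(nat_lit 2943750000), (nat_lit 4635582000), (nat_lit 5591712000)], [], [(nat_lit 12057258297), (nat_lit 12367824744), (nat_lit 19585127003), (nat_lit 16241834546), (nat_lit 14910497323), (nat_lit 11567204866), (nat_lit 23254552737), (nat_lit 20044071305)], (nat_lit 1271251), (nat_lit 1271251), (nat_lit 490000), (nat_lit 1427501), (nat_lit 0), (nat_lit 780000), [(nat_lit 1412501), (nat_lit 1271251), (nat_lit 1271251)], [(nat_lit 23), (nat_lit 62), (nat_lit 373), (nat_lit 150), (nat_lit 10)]⟩,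
 ⟨⟨[(nat_lit 120), (nat_lit 160), (nat_lit 180)], [(nat_lit 0), (nat_lit 533), (nat_lit 2066)], [((nat_lit 0), (nat_lit 0), (nat_lit 0)), ((nat_lit 960), (nat_lit 1000), (nat_lit 200)), ((nat_lit 615), (nat_lit 1000), (nat_lit 729))], ((nat_lit 100), (nat_lit 69), (nat_lit 65))⟩, (nat_lit 1102829), (nat_lit 300), (nat_lit 444), (nat_lit 31274401), (nat_lit 241487), [(nat_lit 3752928000), (nat_lit 5591712000), (nat_lit 6621318000)], [], [(nat_lit 23007367386), (nat_lit 22872968808), (nat_lit 25107579139), (nat_lit 24614803894), (nat_lit 18598606186), (nat_lit 18280997562), (nat_lit 20270151030), (nat_lit 19797210537)], (nat_lit 1271251), (nat_lit 1271251), (nat_lit 1271251), (nat_lit 1271251), (nat_lit 0), (nat_lit 780000), [(nat_lit 1695001), (nat_lit 1271251), (nat_lit 1271251)], [(nat_lit 28), (nat_lit 65), (nat_lit 428), (nat_lit 200), (nat_lit 10)]⟩⟩)))) (.leaf ⟨(nat_lit 0), (nat_lit 0), (nat_lit 0), (nat_lit 1000), (nat_lit 0), (nat_lit 5915), (nat_lit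 12767), (nat_lit 12295), (nat_lit 0), (nat_lit 1379), (nat_lit 0), [], Pd.none, Pd.none, (nat_lit 0), (nat_lit 1), (nat_lit 0), (nat_lit 0), (nat_lit 0), (nat_lit 0), [], [], [], [],
 ⟨⟨[(nat_lit 40), (nat_lit 80), (nat_lit 100)], [(nat_lit 0), (nat_lit 795), (nat_lit 1829)], [((nat_lit 0), (nat_lit 0), (nat_lit 0)), ((nat_lit 1000), (nat_lit 814), (nat_lit 310)), ((nat_lit 1000), (nat_lit 714), (nat_lit 692))], ((nat_lit 72), (nat_lit 100), (nat_lit 65))⟩, (nat_lit 1467969), (nat_lit 157), (nat_lit 157), (nat_lit 0), (nat_lit 114417), [(nat_lit 2353759138), (nat_lit 4688000002), (nat_lit 6250000000)], [], [(nat_lit 23168958217), (nat_lit 24640960155), (nat_lit 23496967671), (nat_lit 24718169626), (nat_lit 32065137429), (nat_lit 33601025165), (nat_lit 30840648481), (nat_lit 32128900885)], (nat_lit 1271251), (nat_lit 1271251), (nat_lit 422188), (nat_lit 1425626), (nat_lit 1271251), (nat_lit 1271251), [(nat_lit 490000), (nat_lit 1100000), (nat_lit 1442501)],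 [(nat_lit 3), (nat_lit 50), (nat_lit 260), (nat_lit 50), (nat_lit 9)]⟩,
 ⟨⟨[(nat_lit 100), (nat_lit 140), (nat_lit 160)], [(nat_lit 0), (nat_lit 508), (nat_lit 1689)], [((nat_lit 0), (nat_lit 0), (nat_lit 0)), ((nat_lit 1000), (nat_lit 1000), (nat_lit 198)), ((nat_lit 811), (nat_lit 1000), (nat_lit 671))], ((nat_lit 100), (nat_lit 83), (nat_lit 65))⟩, (nat_lit 4767902), (nat_lit 331), (nat_lit 331), (nat_lit 0), (nat_lit 270769), [(nat_lit 6250000000), (nat_lit 9842000000), (nat_lit 11872000000)], [], [(nat_lit 22079418308), (nat_lit 20377290613), (nat_lit 25635384421), (nat_lit 19316223717), (nat_lit 50643742118), (nat_lit 44647399797), (nat_lit 68044017581), (nat_lit 62299103770)], (nat_lit 1271251), (nat_lit 1271251), (nat_lit 422188), (nat_lit 1425626), (nat_lit 780000), (nat_lit 3072501), [(nat_lit 1412501), (nat_lit 1271251), (nat_lit 1271251)], [(nat_lit 23), (nat_lit 62), (nat_lit 456), (nat_lit 225), (nat_lit 12)]⟩,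
 ⟨⟨[(nat_lit 120), (nat_lit 160), (nat_lit 180)], [(nat_lit 0), (nat_lit 533), (nat_lit 2066)], [((nat_lit 0), (nat_lit 0), (nat_lit 0)), ((nat_lit 960), (nat_lit 1000), (nat_lit 200)), ((nat_lit 615), (nat_lit 1000), (nat_lit 729))], ((nat_lit 100), (nat_lit 69), (nat_lit 65))⟩, (nat_lit 609665), (nat_lit 300), (nat_lit 388), (nat_lit 72169054), (nat_lit 346252), [(nat_lit 7968000000), (nat_lit 11872000000), (nat_lit 14058000000)], [], [(nat_lit 41032036000), (nat_lit 40552871786), (nat_lit 45227169770), (nat_lit 44104949143), (nat_lit 42643104090), (nat_lit 41130810840), (nat_lit 44894885424), (nat_lit 43436770933)], (nat_lit 1271251), (nat_lit 1271251), (nat_lit 1271251), (nat_lit 1271251), (nat_lit 780000), (nat_lit 3072501), [(nat_lit 1695001), (nat_lit 1271251), (nat_lit 1271251)], [(nat_lit 28), (nat_lit 65), (nat_lit 538), (nat_lit 300), (nat_lit 12)]⟩⟩)))) (.dle (nat_lit 0)))))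
noncomputable def c7_35 : Tr Lf :=
 (.trX (nat_lit 3) (nat_lit 0) (nat_lit 1) (nat_lit 72) (nat_lit 77) (nat_lit 100) (nat_lit 330) (.spl (nat_lit 4) (nat_lit 120) (.trX (nat_lit 5) (nat_lit 3) (nat_lit 4) (nat_lit 100) (nat_lit 40) (nat_lit 92) (nat_lit 390) (.spl (nat_lit 0) (nat_lit 350) (.spl (nat_lit 6) (nat_lit 44) (.leaf ⟨(nat_lit 1000), (nat_lit 0), (nat_lit 0), (nat_lit 0), (nat_lit 20330), (nat_lit 2782), (nat_lit 0), (nat_lit 0), (nat_lit 0), (nat_lit 346619), (nat_lit 648400), [((nat_lit 350), [((nat_lit 22), (nat_lit 1), (nat_lit 586)), ((nat_lit 22), (nat_lit 2), (nat_lit 414))])], ⟨(nat_lit 5), false, false, true, (nat_lit 219), (nat_lit 3535), (nat_lit 3873), [(nat_lit 1412825), (nat_lit 1412188), (nat_lit 1478205), (nat_lit 1478046), (nat_lit 1622521), (nat_lit 1616163), (nat_lit 1687900), (nat_lit 1682021)]⟩, ⟨(nat_lit 3), false, false, false, (nat_lit 92), (nat_lit 3535), (nat_lit 3873), [(nat_lit 1106345), (nat_lit 1114069), (nat_lit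 1171707), (nat_lit 1179909), (nat_lit 1283782), (nat_lit 1286665), (nat_lit 1349157), (nat_lit 1352518)]⟩, (nat_lit 3929006), (nat_lit 47897400), (nat_lit 15169870), (nat_lit 3932730), (nat_lit 0), (nat_lit 0), [⟨(nat_lit 1), (nat_lit 77), (nat_lit 72), (nat_lit 100), (nat_lit 196098983)⟩], [⟨(nat_lit 0), (nat_lit 100), (nat_lit 71), (nat_lit 55), (nat_lit 83367476)⟩, ⟨(nat_lit 0), (nat_lit 100), (nat_lit 78), (nat_lit 39), (nat_lit 206525)⟩], [], [],
 ⟨⟨[(nat_lit 40), (nat_lit 80), (nat_lit 100)], [(nat_lit 0), (nat_lit 795), (nat_lit 1829)], [((nat_lit 0), (nat_lit 0), (nat_lit 0)), ((nat_lit 1000), (nat_lit 814), (nat_lit 310)), ((nat_lit 1000), (nat_lit 714), (nat_lit 692))], ((nat_lit 72), (nat_lit 100), (nat_lit 63))⟩, (nat_lit 1366), (nat_lit 160), (nat_lit 160), (nat_lit 0), (nat_lit 42268), [(nat_lit 1386719593), (nat_lit 776301327), (nat_lit 61900800)], [(nat_lit 0), (nat_lit 0), (nat_lit 0)], [(nat_lit 21471427173), (nat_lit 22007990415), (nat_lit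 25792551166), (nat_lit 26241005383), (nat_lit 21420118417), (nat_lit 21907098175), (nat_lit 25435388725), (nat_lit 25844698688)], (nat_lit 1271251), (nat_lit 1271251), (nat_lit 1271251), (nat_lit 1271251), (nat_lit 54688), (nat_lit 780000), [(nat_lit 490000), (nat_lit 1100000), (nat_lit 1442501)], [(nat_lit 3), (nat_lit 50), (nat_lit 238), (nat_lit 30), (nat_lit 8)]⟩,
 Rw.none,
 Rw.none⟩) (.dle (nat_lit 0))) (.trX (nat_lit 3) (nat_lit 0) (nat_lit 1) (nat_lit 66) (nat_lit 82) (nat_lit 100) (nat_lit 320) (.leaf ⟨(nat_lit 1000), (nat_lit 0), (nat_lit 0), (nat_lit 0), (nat_lit 8434), (nat_lit 2748), (nat_lit 0), (nat_lit 0), (nat_lit 0), (nat_lit 161122), (nat_lit 360100), [((nat_lit 360), [((nat_lit 22), (nat_lit 0), (nat_lit 266)), ((nat_lit 22), (nat_lit 1), (nat_lit 734))])], ⟨(nat_lit 5), false, false, true, (nat_lit 215), (nat_lit 3162), (nat_lit 3536), [(nat_lit 1412188), (nat_lit 1411379), (nat_lit 1478046), (nat_lit 1477844), (nat_lit 1600472), (nat_lit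 1594239), (nat_lit 1666330), (nat_lit 1660704)]⟩, ⟨(nat_lit 3), false, false, false, (nat_lit 94), (nat_lit 3162), (nat_lit 3536), [(nat_lit 1114056), (nat_lit 1121835), (nat_lit 1179889), (nat_lit 1188275), (nat_lit 1286665), (nat_lit 1289472), (nat_lit 1352511), (nat_lit 1355925)]⟩, (nat_lit 3921161), (nat_lit 48198161), (nat_lit 14714117), (nat_lit 4087722), (nat_lit 0), (nat_lit 0), [⟨(nat_lit 1), (nat_lit 82), (nat_lit 66), (nat_lit 100), (nat_lit 201113771)⟩], [⟨(nat_lit 0), (nat_lit 100), (nat_lit 65), (nat_lit 61), (nat_lit 65799016)⟩], [], [],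
 ⟨⟨[(nat_lit 40), (nat_lit 80), (nat_lit 100)], [(nat_lit 0), (nat_lit 1195), (nat_lit 2166)], [((nat_lit 0), (nat_lit 0), (nat_lit 0)), ((nat_lit 1000), (nat_lit 720), (nat_lit 465)), ((nat_lit 1000), (nat_lit 662), (nat_lit 740))], ((nat_lit 66), (nat_lit 100), (nat_lit 72))⟩, (nat_lit 787245), (nat_lit 178), (nat_lit 178), (nat_lit 0), (nat_lit 108664), [(nat_lit 1374224002), (nat_lit 1627670520), (nat_lit 1702496000)], [(nat_lit 0), (nat_lit 0), (nat_lit 0)], [(nat_lit 21896874810), (nat_lit 22430769700), (nat_lit 25742610952), (nat_lit 26212717495), (nat_lit 21820209195), (nat_lit 22304887735), (nat_lit 25368519634), (nat_lit 25820366218)], (nat_lit 1271251), (nat_lit 1271251), (nat_lit 1271251), (nat_lit 1271251), (nat_lit 54688), (nat_lit 780000), [(nat_lit 490000), (nat_lit 1100000), (nat_lit 1442501)], [(nat_lit 3), (nat_lit 50), (nat_lit 238), (nat_lit 30), (nat_lit 8)]⟩,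
 Rw.none,
 Rw.none⟩)))) (.leaf ⟨(nat_lit 1000), (nat_lit 0), (nat_lit 0), (nat_lit 0), (nat_lit 8200), (nat_lit 3117), (nat_lit 0), (nat_lit 0), (nat_lit 0), (nat_lit 21237933043), (nat_lit 589000), [((nat_lit 360), [((nat_lit 22), (nat_lit 1), (nat_lit 55)), ((nat_lit 39), (nat_lit 2), (nat_lit 945))])], ⟨(nat_lit 5), false, false, true, (nat_lit 219), (nat_lit 3162), (nat_lit 3873), [(nat_lit 1412825), (nat_lit 1411379), (nat_lit 1478205), (nat_lit 1477844), (nat_lit 1622521), (nat_lit 1609477), (nat_lit 1687900), (nat_lit 1675942)]⟩, ⟨(nat_lit 3), false, false, true, (nat_lit 153), (nat_lit 3162), (nat_lit 3873), [(nat_lit 1283782), (nat_lit 1289472), (nat_lit 1349127), (nat_lit 1355902), (nat_lit 1412825), (nat_lit 1411379), (nat_lit 1478205), (nat_lit 1477844)]⟩, (nat_lit 4634295), (nat_lit 44227744), (nat_lit 14522732), (nat_lit 8249524), (nat_lit 0), (nat_lit 0), [⟨(nat_lit 1), (nat_lit 92), (nat_lit 68), (nat_lit 100), (nat_lit 206351868)⟩], [],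 [], [],
 ⟨⟨[(nat_lit 40), (nat_lit 80), (nat_lit 120)], [(nat_lit 0), (nat_lit 795), (nat_lit 2800)], [((nat_lit 0), (nat_lit 0), (nat_lit 0)), ((nat_lit 1000), (nat_lit 814), (nat_lit 310)), ((nat_lit 1000), (nat_lit 719), (nat_lit 783))], ((nat_lit 71), (nat_lit 100), (nat_lit 71))⟩, (nat_lit 0), (nat_lit 149), (nat_lit 149), (nat_lit 0), (nat_lit 142445), [(nat_lit 1311528001), (nat_lit 1025054021), (nat_lit 0)], [(nat_lit 0), (nat_lit 0), (nat_lit 226274007)], [(nat_lit 20684000215), (nat_lit 21796904581), (nat_lit 24995619750), (nat_lit 25867844616), (nat_lit 21993071147), (nat_lit 22991198408), (nat_lit 25971246628), (nat_lit 26811468017)], (nat_lit 1271251), (nat_lit 1271251), (nat_lit 1271251), (nat_lit 1271251), (nat_lit 780000), (nat_lit 1435001), [(nat_lit 490000), (nat_lit 1100000), (nat_lit 1785001)], [(nat_lit 4), (nat_lit 51), (nat_lit 373), (nat_lit 150), (nat_lit 11)]⟩,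
 Rw.none,
 Rw.none⟩)))
noncomputable def c7_36 : Tr Lf :=
 (.spl (nat_lit 4) (nat_lit 120) (.trX (nat_lit 5) (nat_lit 3) (nat_lit 4) (nat_lit 100) (nat_lit 40) (nat_lit 92) (nat_lit 390) (.spl (nat_lit 5) (nat_lit 200) (.spl (nat_lit 0) (nat_lit 350) (.spl (nat_lit 6) (nat_lit 48) (.leaf ⟨(nat_lit 823), (nat_lit 177), (nat_lit 0), (nat_lit 0), (nat_lit 9847), (nat_lit 3098), (nat_lit 1576), (nat_lit 0), (nat_lit 0), (nat_lit 0), (nat_lit 725800), [((nat_lit 350), [((nat_lit 22), (nat_lit 1), (nat_lit 162)), ((nat_lit 22), (nat_lit 2), (nat_lit 661))])], ⟨(nat_lit 5), false, true, true, (nat_lit 230), (nat_lit 3535), (nat_lit 3873), [(nat_lit 1478205), (nat_lit 1478046), (nat_lit 1543574), (nat_lit 1543892), (nat_lit 1607248), (nat_lit 1603569), (nat_lit 1672628), (nat_lit 1669426)]⟩, ⟨(nat_lit 3), false, false, false, (nat_lit 92), (nat_lit 3535), (nat_lit 3873), [(nat_lit 1106345), (nat_lit 1114069), (nat_lit 1171707), (nat_lit 1179909), (nat_lit 1283782),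 (nat_lit 1286665), (nat_lit 1349157), (nat_lit 1352518)]⟩, (nat_lit 4010496), (nat_lit 46899990), (nat_lit 16200375), (nat_lit 3899635), (nat_lit 3), (nat_lit 0), [], [⟨(nat_lit 0), (nat_lit 100), (nat_lit 71), (nat_lit 55), (nat_lit 18214119)⟩], [], [],
 ⟨⟨[(nat_lit 40), (nat_lit 80), (nat_lit 100)], [(nat_lit 0), (nat_lit 795), (nat_lit 1829)], [((nat_lit 0), (nat_lit 0), (nat_lit 0)), ((nat_lit 1000), (nat_lit 814), (nat_lit 310)), ((nat_lit 1000), (nat_lit 714), (nat_lit 692))], ((nat_lit 72), (nat_lit 100), (nat_lit 65))⟩, (nat_lit 1906), (nat_lit 157), (nat_lit 157), (nat_lit 0), (nat_lit 78744), [(nat_lit 1569741556), (nat_lit 881330447), (nat_lit 64149600)], [(nat_lit 0), (nat_lit 0), (nat_lit 0)], [(nat_lit 21254431206), (nat_lit 21815794435), (nat_lit 23806524188), (nat_lit 24323074521), (nat_lit 20981369549), (nat_lit 21489737096), (nat_lit 23380500575), (nat_lit 23856342384)], (nat_lit 1271251), (nat_lit 1271251), (nat_lit 1271251), (nat_lit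 1271251), (nat_lit 54688), (nat_lit 780000), [(nat_lit 490000), (nat_lit 1100000), (nat_lit 1442501)], [(nat_lit 3), (nat_lit 50), (nat_lit 238), (nat_lit 30), (nat_lit 8)]⟩,
 ⟨⟨[(nat_lit 120), (nat_lit 160), (nat_lit 180)], [(nat_lit 0), (nat_lit 533), (nat_lit 2066)], [((nat_lit 0), (nat_lit 0), (nat_lit 0)), ((nat_lit 960), (nat_lit 1000), (nat_lit 200)), ((nat_lit 615), (nat_lit 1000), (nat_lit 729))], ((nat_lit 100), (nat_lit 69), (nat_lit 65))⟩, (nat_lit 427094), (nat_lit 454), (nat_lit 454), (nat_lit 0), (nat_lit 248663), [(nat_lit 1410336000), (nat_lit 2101344000), (nat_lit 2488266000)], [], [(nat_lit 7756612713), (nat_lit 7780254178), (nat_lit 7936276142), (nat_lit 7909633140), (nat_lit 8452193322), (nat_lit 6557079187), (nat_lit 6692574519), (nat_lit 6663352363)], (nat_lit 1271251), (nat_lit 1271251), (nat_lit 1271251), (nat_lit 1271251), (nat_lit 0), (nat_lit 1412501), [(nat_lit 1695001), (nat_lit 1271251), (nat_lit 1271251)], [(nat_lit 28),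 (nat_lit 65), (nat_lit 428), (nat_lit 200), (nat_lit 10)]⟩,
 Rw.none⟩) (.dle (nat_lit 0))) (.leaf ⟨(nat_lit 882), (nat_lit 118), (nat_lit 0), (nat_lit 0), (nat_lit 6156), (nat_lit 2976), (nat_lit 1456), (nat_lit 0), (nat_lit 0), (nat_lit 0), (nat_lit 310950), [((nat_lit 360), [((nat_lit 22), (nat_lit 0), (nat_lit 279)), ((nat_lit 22), (nat_lit 1), (nat_lit 603))])], ⟨(nat_lit 5), false, true, true, (nat_lit 229), (nat_lit 3162), (nat_lit 3536), [(nat_lit 1478046), (nat_lit 1477844), (nat_lit 1543888), (nat_lit 1544293), (nat_lit 1603569), (nat_lit 1599750), (nat_lit 1669427), (nat_lit 1666215)]⟩, ⟨(nat_lit 3), false, false, false, (nat_lit 94), (nat_lit 3162), (nat_lit 3536), [(nat_lit 1114056), (nat_lit 1121835), (nat_lit 1179889), (nat_lit 1188275), (nat_lit 1286665), (nat_lit 1289472), (nat_lit 1352511), (nat_lit 1355925)]⟩, (nat_lit 4034214), (nat_lit 46844272), (nat_lit 16113901), (nat_lit 4041827), (nat_lit 3), (nat_lit 0), [], [⟨(nat_lit 0), (nat_lit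 100), (nat_lit 65), (nat_lit 61), (nat_lit 40687108)⟩], [], [],
 ⟨⟨[(nat_lit 40), (nat_lit 80), (nat_lit 100)], [(nat_lit 0), (nat_lit 1195), (nat_lit 2166)], [((nat_lit 0), (nat_lit 0), (nat_lit 0)), ((nat_lit 1000), (nat_lit 720), (nat_lit 465)), ((nat_lit 1000), (nat_lit 662), (nat_lit 740))], ((nat_lit 66), (nat_lit 100), (nat_lit 72))⟩, (nat_lit 984864), (nat_lit 178), (nat_lit 178), (nat_lit 0), (nat_lit 139535), [(nat_lit 1435993635), (nat_lit 2002972913), (nat_lit 2278481887)], [(nat_lit 0), (nat_lit 0), (nat_lit 0)], [(nat_lit 21898627701), (nat_lit 22450416251), (nat_lit 24320125510), (nat_lit 24800347864), (nat_lit 21659501191), (nat_lit 22159611427), (nat_lit 23887860990), (nat_lit 24325200353)], (nat_lit 1271251), (nat_lit 1271251), (nat_lit 1271251), (nat_lit 1271251), (nat_lit 54688), (nat_lit 780000), [(nat_lit 490000), (nat_lit 1100000), (nat_lit 1442501)], [(nat_lit 3), (nat_lit 50), (nat_lit 238), (nat_lit 30), (nat_lit 8)]⟩,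
 ⟨⟨[(nat_lit 120), (nat_lit 160), (nat_lit 180)], [(nat_lit 0), (nat_lit 533), (nat_lit 2066)], [((nat_lit 0), (nat_lit 0), (nat_lit 0)), ((nat_lit 960), (nat_lit 1000), (nat_lit 200)), ((nat_lit 615), (nat_lit 1000), (nat_lit 729))], ((nat_lit 100), (nat_lit 63), (nat_lit 72))⟩, (nat_lit 368195), (nat_lit 573), (nat_lit 573), (nat_lit 0), (nat_lit 449844), [(nat_lit 940224000), (nat_lit 1400896000), (nat_lit 1658844000)], [], [(nat_lit 4877281434), (nat_lit 4825134411), (nat_lit 4936594416), (nat_lit 4844301055), (nat_lit 5833113292), (nat_lit 3787883560), (nat_lit 3595626960), (nat_lit 3493426514)], (nat_lit 1271251), (nat_lit 1271251), (nat_lit 1271251), (nat_lit 1271251), (nat_lit 0), (nat_lit 1412501), [(nat_lit 1695001), (nat_lit 1271251), (nat_lit 1271251)], [(nat_lit 28), (nat_lit 65), (nat_lit 428), (nat_lit 200), (nat_lit 10)]⟩,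
 Rw.none⟩)) (.leaf ⟨(nat_lit 753), (nat_lit 159), (nat_lit 0), (nat_lit 88), (nat_lit 1552), (nat_lit 3265), (nat_lit 3005), (nat_lit 1388), (nat_lit 0), (nat_lit 0), (nat_lit 777000), [((nat_lit 360), [((nat_lit 22), (nat_lit 2), (nat_lit 745)), ((nat_lit 39), (nat_lit 5), (nat_lit 8))])], ⟨(nat_lit 5), false, true, true, (nat_lit 229), (nat_lit 3162), (nat_lit 3873), [(nat_lit 1478205), (nat_lit 1477844), (nat_lit 1543529), (nat_lit 1544252), (nat_lit 1607248), (nat_lit 1599750), (nat_lit 1672628), (nat_lit 1666215)]⟩, ⟨(nat_lit 3), false, false, false, (nat_lit 93), (nat_lit 3162), (nat_lit 3873), [(nat_lit 1106311), (nat_lit 1121813), (nat_lit 1171604), (nat_lit 1188192), (nat_lit 1283782), (nat_lit 1289472), (nat_lit 1349127), (nat_lit 1355902)]⟩, (nat_lit 4022205), (nat_lit 46873513), (nat_lit 16156529), (nat_lit 3969958), (nat_lit 5), (nat_lit 0), [], [⟨(nat_lit 0), (nat_lit 100), (nat_lit 68), (nat_lit 58), (nat_lit 131909853)⟩], [], [⟨(nat_lit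 1), (nat_lit 90), (nat_lit 100), (nat_lit 65), (nat_lit 43202820)⟩],
 ⟨⟨[(nat_lit 40), (nat_lit 80), (nat_lit 120)], [(nat_lit 0), (nat_lit 795), (nat_lit 2800)], [((nat_lit 0), (nat_lit 0), (nat_lit 0)), ((nat_lit 1000), (nat_lit 814), (nat_lit 310)), ((nat_lit 1000), (nat_lit 719), (nat_lit 783))], ((nat_lit 71), (nat_lit 100), (nat_lit 71))⟩, (nat_lit 0), (nat_lit 199), (nat_lit 199), (nat_lit 0), (nat_lit 141824), [(nat_lit 1577763062), (nat_lit 935241762), (nat_lit 0)], [(nat_lit 0), (nat_lit 0), (nat_lit 1038299362)], [(nat_lit 21131885702), (nat_lit 22205486644), (nat_lit 23898549347), (nat_lit 25398960320), (nat_lit 20664004151), (nat_lit 21766968761), (nat_lit 23141563974), (nat_lit 24154133094)], (nat_lit 1271251), (nat_lit 1271251), (nat_lit 1271251), (nat_lit 1271251), (nat_lit 54688), (nat_lit 780000), [(nat_lit 490000), (nat_lit 1100000), (nat_lit 1785001)], [(nat_lit 4), (nat_lit 51), (nat_lit 317), (nat_lit 100), (nat_lit 10)]⟩,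
 ⟨⟨[(nat_lit 120), (nat_lit 160), (nat_lit 180)], [(nat_lit 0), (nat_lit 533), (nat_lit 2066)], [((nat_lit 0), (nat_lit 0), (nat_lit 0)), ((nat_lit 960), (nat_lit 1000), (nat_lit 200)), ((nat_lit 615), (nat_lit 1000), (nat_lit 729))], ((nat_lit 100), (nat_lit 63), (nat_lit 72))⟩, (nat_lit 742132), (nat_lit 403), (nat_lit 403), (nat_lit 0), (nat_lit 449844), [(nat_lit 1968096000), (nat_lit 2932384000), (nat_lit 3472326000)], [], [(nat_lit 7155092495), (nat_lit 7142329338), (nat_lit 7462885832), (nat_lit 7421531196), (nat_lit 8767357913), (nat_lit 8656350930), (nat_lit 8983919175), (nat_lit 8858039421)], (nat_lit 1271251), (nat_lit 1271251), (nat_lit 1271251), (nat_lit 1271251), (nat_lit 1271251), (nat_lit 1271251), [(nat_lit 1695001), (nat_lit 1271251), (nat_lit 1271251)], [(nat_lit 28), (nat_lit 65), (nat_lit 483), (nat_lit 250), (nat_lit 11)]⟩,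
 ⟨⟨[(nat_lit 140), (nat_lit 180), (nat_lit 200)], [(nat_lit 0), (nat_lit 0), (nat_lit 2835)], [((nat_lit 0), (nat_lit 0), (nat_lit 0)), ((nat_lit 0), (nat_lit 0), (nat_lit 0)), ((nat_lit 363), (nat_lit 1000), (nat_lit 798))], ((nat_lit 0), (nat_lit 0), (nat_lit 0))⟩, (nat_lit 24212), (nat_lit 300), (nat_lit 866), (nat_lit 6872800), (nat_lit 871427), [(nat_lit 866096000), (nat_lit 1237104000), (nat_lit 1443200000)], [], [(nat_lit 5701431773), (nat_lit 5444013839), (nat_lit 4629780164), (nat_lit 4429259177), (nat_lit 6029050106), (nat_lit 5749494909), (nat_lit 4836930976), (nat_lit 4523598936)], (nat_lit 780000), (nat_lit 1271251), (nat_lit 54688), (nat_lit 780000), (nat_lit 1271251), (nat_lit 1271251), [(nat_lit 1977501), (nat_lit 1271251), (nat_lit 1271251)], [(nat_lit 32), (nat_lit 67), (nat_lit 401), (nat_lit 175), (nat_lit 9)]⟩⟩))) (.spl (nat_lit 0) (nat_lit 350) (.spl (nat_lit 6) (nat_lit 48) (.leaf ⟨(nat_lit 941), (nat_lit 40), (nat_lit 0), (nat_lit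 19), (nat_lit 8004), (nat_lit 3555), (nat_lit 793), (nat_lit 240), (nat_lit 0), (nat_lit 0), (nat_lit 376400), [((nat_lit 350), [((nat_lit 22), (nat_lit 1), (nat_lit 941))])], ⟨(nat_lit 5), false, true, true, (nat_lit 230), (nat_lit 3535), (nat_lit 3873), [(nat_lit 1478205), (nat_lit 1478046), (nat_lit 1543574), (nat_lit 1543892), (nat_lit 1607248), (nat_lit 1603569), (nat_lit 1672628), (nat_lit 1669426)]⟩, ⟨(nat_lit 3), false, false, true, (nat_lit 153), (nat_lit 3535), (nat_lit 3873), [(nat_lit 1283782), (nat_lit 1286665), (nat_lit 1349157), (nat_lit 1352518), (nat_lit 1412825), (nat_lit 1412188), (nat_lit 1478205), (nat_lit 1478046)]⟩, (nat_lit 4705765), (nat_lit 43324282), (nat_lit 15540274), (nat_lit 8135444), (nat_lit 3), (nat_lit 0), [], [], [], [],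
 ⟨⟨[(nat_lit 40), (nat_lit 80), (nat_lit 100)], [(nat_lit 0), (nat_lit 795), (nat_lit 1829)], [((nat_lit 0), (nat_lit 0), (nat_lit 0)), ((nat_lit 1000), (nat_lit 814), (nat_lit 310)), ((nat_lit 1000), (nat_lit 714), (nat_lit 692))], ((nat_lit 72), (nat_lit 100), (nat_lit 65))⟩, (nat_lit 520002), (nat_lit 98), (nat_lit 98), (nat_lit 0), (nat_lit 97663), [(nat_lit 1388939409), (nat_lit 1794716198), (nat_lit 1756536800)], [(nat_lit 0), (nat_lit 0), (nat_lit 0)], [(nat_lit 19948110601), (nat_lit 20584552051), (nat_lit 22753164667), (nat_lit 23330518620), (nat_lit 21340513663), (nat_lit 21905421541), (nat_lit 23825024407), (nat_lit 24341479042)], (nat_lit 1271251), (nat_lit 1271251), (nat_lit 1271251), (nat_lit 1271251), (nat_lit 780000), (nat_lit 1435001), [(nat_lit 490000), (nat_lit 1100000), (nat_lit 1442501)], [(nat_lit 3), (nat_lit 50), (nat_lit 260), (nat_lit 50), (nat_lit 9)]⟩,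
 ⟨⟨[(nat_lit 120), (nat_lit 160), (nat_lit 180)], [(nat_lit 0), (nat_lit 533), (nat_lit 2066)], [((nat_lit 0), (nat_lit 0), (nat_lit 0)), ((nat_lit 960), (nat_lit 1000), (nat_lit 200)), ((nat_lit 615), (nat_lit 1000), (nat_lit 729))], ((nat_lit 100), (nat_lit 69), (nat_lit 65))⟩, (nat_lit 189499), (nat_lit 454), (nat_lit 454), (nat_lit 0), (nat_lit 248663), [(nat_lit 470112000), (nat_lit 700448000), (nat_lit 829422000)], [], [(nat_lit 2291331529), (nat_lit 2301583093), (nat_lit 2395284773), (nat_lit 2374143806), (nat_lit 4140427732), (nat_lit 3096841318), (nat_lit 2757493621), (nat_lit 2266231232)], (nat_lit 1271251), (nat_lit 1271251), (nat_lit 1271251), (nat_lit 1271251), (nat_lit 0), (nat_lit 2825001), [(nat_lit 1695001), (nat_lit 1271251), (nat_lit 1271251)], [(nat_lit 28), (nat_lit 65), (nat_lit 483), (nat_lit 250), (nat_lit 11)]⟩,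
 ⟨⟨[(nat_lit 140), (nat_lit 180), (nat_lit 200)], [(nat_lit 0), (nat_lit 0), (nat_lit 2835)], [((nat_lit 0), (nat_lit 0), (nat_lit 0)), ((nat_lit 0), (nat_lit 0), (nat_lit 0)), ((nat_lit 363), (nat_lit 1000), (nat_lit 798))], ((nat_lit 0), (nat_lit 0), (nat_lit 0))⟩, (nat_lit 5228), (nat_lit 300), (nat_lit 923), (nat_lit 1483900), (nat_lit 891026), [(nat_lit 186998000), (nat_lit 267102000), (nat_lit 311600000)], [], [(nat_lit 1394617746), (nat_lit 1338392083), (nat_lit 1319380252), (nat_lit 1267647903), (nat_lit 1267746428), (nat_lit 1456805664), (nat_lit 1519848424), (nat_lit 1716844220)], (nat_lit 780000), (nat_lit 1271251), (nat_lit 780000), (nat_lit 1435001), (nat_lit 0), (nat_lit 2825001), [(nat_lit 1977501), (nat_lit 1271251), (nat_lit 1271251)], [(nat_lit 32), (nat_lit 67), (nat_lit 428), (nat_lit 200), (nat_lit 9)]⟩⟩) (.dle (nat_lit 0))) (.leaf ⟨(nat_lit 942), (nat_lit 44), (nat_lit 0), (nat_lit 14), (nat_lit 4377), (nat_lit 3655), (nat_lit 830),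 (nat_lit 177), (nat_lit 0), (nat_lit 0), (nat_lit 235500), [((nat_lit 360), [((nat_lit 22), (nat_lit 0), (nat_lit 942))])], ⟨(nat_lit 5), false, true, true, (nat_lit 229), (nat_lit 3162), (nat_lit 3536), [(nat_lit 1478046), (nat_lit 1477844), (nat_lit 1543888), (nat_lit 1544293), (nat_lit 1603569), (nat_lit 1599750), (nat_lit 1669427), (nat_lit 1666215)]⟩, ⟨(nat_lit 3), false, false, true, (nat_lit 153), (nat_lit 3162), (nat_lit 3536), [(nat_lit 1286665), (nat_lit 1289472), (nat_lit 1352511), (nat_lit 1355925), (nat_lit 1412188), (nat_lit 1411379), (nat_lit 1478046), (nat_lit 1477844)]⟩, (nat_lit 4706683), (nat_lit 43347214), (nat_lit 15470800), (nat_lit 8181986), (nat_lit 3), (nat_lit 0), [], [], [], [],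
 ⟨⟨[(nat_lit 40), (nat_lit 80), (nat_lit 100)], [(nat_lit 0), (nat_lit 1195), (nat_lit 2166)], [((nat_lit 0), (nat_lit 0), (nat_lit 0)), ((nat_lit 1000), (nat_lit 720), (nat_lit 465)), ((nat_lit 1000), (nat_lit 662), (nat_lit 740))], ((nat_lit 66), (nat_lit 100), (nat_lit 72))⟩, (nat_lit 694818), (nat_lit 128), (nat_lit 128), (nat_lit 0), (nat_lit 172029), [(nat_lit 1581340516), (nat_lit 2301151083), (nat_lit 2558113600)], [(nat_lit 0), (nat_lit 0), (nat_lit 0)], [(nat_lit 20891420768), (nat_lit 21533594158), (nat_lit 23545875352), (nat_lit 24123319842), (nat_lit 22201759230), (nat_lit 22773859046), (nat_lit 24552899803), (nat_lit 25052438463)], (nat_lit 1271251), (nat_lit 1271251), (nat_lit 1271251), (nat_lit 1271251), (nat_lit 780000), (nat_lit 1435001), [(nat_lit 490000), (nat_lit 1100000), (nat_lit 1442501)], [(nat_lit 3), (nat_lit 50), (nat_lit 260), (nat_lit 50), (nat_lit 9)]⟩,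
 ⟨⟨[(nat_lit 120), (nat_lit 160), (nat_lit 180)], [(nat_lit 0), (nat_lit 533), (nat_lit 2066)], [((nat_lit 0), (nat_lit 0), (nat_lit 0)), ((nat_lit 960), (nat_lit 1000), (nat_lit 200)), ((nat_lit 615), (nat_lit 1000), (nat_lit 729))], ((nat_lit 100), (nat_lit 63), (nat_lit 72))⟩, (nat_lit 69472), (nat_lit 573), (nat_lit 573), (nat_lit 0), (nat_lit 449844), [(nat_lit 462144000), (nat_lit 688576000), (nat_lit 815364000)], [], [(nat_lit 2536106148), (nat_lit 2541885276), (nat_lit 2637953845), (nat_lit 2611136224), (nat_lit 4149551000), (nat_lit 3057272660), (nat_lit 2702091590), (nat_lit 2279546944)], (nat_lit 1271251), (nat_lit 1271251), (nat_lit 1271251), (nat_lit 1271251), (nat_lit 0), (nat_lit 2825001), [(nat_lit 1695001), (nat_lit 1271251), (nat_lit 1271251)], [(nat_lit 28), (nat_lit 65), (nat_lit 483), (nat_lit 250), (nat_lit 11)]⟩,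
 ⟨⟨[(nat_lit 140), (nat_lit 180), (nat_lit 200)], [(nat_lit 0), (nat_lit 0), (nat_lit 2835)], [((nat_lit 0), (nat_lit 0), (nat_lit 0)), ((nat_lit 0), (nat_lit 0), (nat_lit 0)), ((nat_lit 363), (nat_lit 1000), (nat_lit 798))], ((nat_lit 0), (nat_lit 0), (nat_lit 0))⟩, (nat_lit 3852), (nat_lit 300), (nat_lit 1275), (nat_lit 1093400), (nat_lit 1678214), [(nat_lit 137788000), (nat_lit 196812000), (nat_lit 229600000)], [], [(nat_lit 1027238022), (nat_lit 985761466), (nat_lit 972007244), (nat_lit 933843117), (nat_lit 934323940), (nat_lit 1073730564), (nat_lit 1120216412), (nat_lit 1265476249)], (nat_lit 780000), (nat_lit 1271251), (nat_lit 780000), (nat_lit 1435001), (nat_lit 0), (nat_lit 2825001), [(nat_lit 1977501), (nat_lit 1271251), (nat_lit 1271251)], [(nat_lit 32), (nat_lit 67), (nat_lit 428), (nat_lit 200), (nat_lit 9)]⟩⟩)))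
noncomputable def c7_37 : Tr Lf :=
 (.trX (nat_lit 5) (nat_lit 3) (nat_lit 4) (nat_lit 92) (nat_lit 40) (nat_lit 100) (nat_lit 390) (.spl (nat_lit 4) (nat_lit 120) (.trX (nat_lit 5) (nat_lit 3) (nat_lit 4) (nat_lit 100) (nat_lit 80) (nat_lit 100) (nat_lit 340) (.spl (nat_lit 1) (nat_lit 220) (.trX (nat_lit 3) (nat_lit 0) (nat_lit 1) (nat_lit 72) (nat_lit 63) (nat_lit 100) (nat_lit 360) (.spl (nat_lit 6) (nat_lit 52) (.spl (nat_lit 1) (nat_lit 200) (.trX (nat_lit 3) (nat_lit 0) (nat_lit 1) (nat_lit 71) (nat_lit 70) (nat_lit 100) (nat_lit 350) (.leaf ⟨(nat_lit 948), (nat_lit 52), (nat_lit 0), (nat_lit 0), (nat_lit 8104), (nat_lit 2886), (nat_lit 641), (nat_lit 0), (nat_lit 0), (nat_lit 0), (nat_lit 568800), [((nat_lit 360), [((nat_lit 39), (nat_lit 2), (nat_lit 948))])], ⟨(nat_lit 7), false, true, true, (nat_lit 268), (nat_lit 3162), (nat_lit 3873), [(nat_lit 1607248), (nat_lit 1599750), (nat_lit 1629042), (nat_lit 1621905), (nat_lit 1720161), (nat_lit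 1706419), (nat_lit 1741954), (nat_lit 1728574)]⟩, ⟨(nat_lit 3), false, false, false, (nat_lit 93), (nat_lit 3162), (nat_lit 3873), [(nat_lit 1106311), (nat_lit 1121813), (nat_lit 1171604), (nat_lit 1188192), (nat_lit 1283782), (nat_lit 1289472), (nat_lit 1349127), (nat_lit 1355902)]⟩, (nat_lit 4258999), (nat_lit 43225594), (nat_lit 19960087), (nat_lit 3814319), (nat_lit 3), (nat_lit 0), [⟨(nat_lit 1), (nat_lit 78), (nat_lit 66), (nat_lit 100), (nat_lit 230070058)⟩], [⟨(nat_lit 0), (nat_lit 100), (nat_lit 60), (nat_lit 74), (nat_lit 45508531)⟩], [], [⟨(nat_lit 1), (nat_lit 100), (nat_lit 84), (nat_lit 76), (nat_lit 3689714)⟩],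
 ⟨⟨[(nat_lit 40), (nat_lit 80), (nat_lit 100)], [(nat_lit 0), (nat_lit 795), (nat_lit 1829)], [((nat_lit 0), (nat_lit 0), (nat_lit 0)), ((nat_lit 1000), (nat_lit 814), (nat_lit 310)), ((nat_lit 1000), (nat_lit 714), (nat_lit 692))], ((nat_lit 71), (nat_lit 100), (nat_lit 67))⟩, (nat_lit 4367), (nat_lit 180), (nat_lit 180), (nat_lit 0), (nat_lit 80745), [(nat_lit 1338294409), (nat_lit 1172057598), (nat_lit 644286400)], [(nat_lit 0), (nat_lit 0), (nat_lit 0)], [(nat_lit 24706759706), (nat_lit 25655571308), (nat_lit 27390143803), (nat_lit 28258034337), (nat_lit 24383340270), (nat_lit 25248474951), (nat_lit 26995760908), (nat_lit 27815976400)], (nat_lit 1271251), (nat_lit 1271251), (nat_lit 1271251), (nat_lit 1271251), (nat_lit 54688), (nat_lit 780000), [(nat_lit 490000), (nat_lit 1100000), (nat_lit 1442501)], [(nat_lit 3), (nat_lit 50), (nat_lit 238), (nat_lit 30), (nat_lit 8)]⟩,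
 ⟨⟨[(nat_lit 120), (nat_lit 160), (nat_lit 180)], [(nat_lit 0), (nat_lit 533), (nat_lit 2066)], [((nat_lit 0), (nat_lit 0), (nat_lit 0)), ((nat_lit 960), (nat_lit 1000), (nat_lit 200)), ((nat_lit 615), (nat_lit 1000), (nat_lit 729))], ((nat_lit 100), (nat_lit 67), (nat_lit 68))⟩, (nat_lit 93514), (nat_lit 502), (nat_lit 502), (nat_lit 0), (nat_lit 381995), [(nat_lit 414336000), (nat_lit 617344000), (nat_lit 731016000)], [], [(nat_lit 2325479200), (nat_lit 2321573960), (nat_lit 2500019284), (nat_lit 2487061507), (nat_lit 2104040123), (nat_lit 1824575821), (nat_lit 1989576811), (nat_lit 1974056619)], (nat_lit 1271251), (nat_lit 1271251), (nat_lit 1271251), (nat_lit 1271251), (nat_lit 0), (nat_lit 2401251), [(nat_lit 1695001), (nat_lit 1271251), (nat_lit 1271251)], [(nat_lit 28), (nat_lit 65), (nat_lit 456), (nat_lit 225), (nat_lit 10)]⟩,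
 Rw.none⟩)) (.leaf ⟨(nat_lit 486), (nat_lit 514), (nat_lit 0), (nat_lit 0), (nat_lit 2721), (nat_lit 3632), (nat_lit 5242), (nat_lit 0), (nat_lit 0), (nat_lit 0), (nat_lit 684000), [((nat_lit 360), [((nat_lit 22), (nat_lit 2), (nat_lit 420)), ((nat_lit 39), (nat_lit 5), (nat_lit 66))])], ⟨(nat_lit 7), false, true, true, (nat_lit 280), (nat_lit 3162), (nat_lit 3873), [(nat_lit 1629042), (nat_lit 1621905), (nat_lit 1650835), (nat_lit 1644060), (nat_lit 1758085), (nat_lit 1743812), (nat_lit 1779878), (nat_lit 1765967)]⟩, ⟨(nat_lit 3), false, false, false, (nat_lit 93), (nat_lit 3162), (nat_lit 3873), [(nat_lit 1106311), (nat_lit 1121813), (nat_lit 1171604), (nat_lit 1188192), (nat_lit 1283782), (nat_lit 1289472), (nat_lit 1349127), (nat_lit 1355902)]⟩, (nat_lit 4313067), (nat_lit 42111134), (nat_lit 21130924), (nat_lit 3757942), (nat_lit 3), (nat_lit 0), [], [], [], [⟨(nat_lit 1), (nat_lit 100), (nat_lit 81), (nat_lit 75), (nat_lit 64736100)⟩],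
 ⟨⟨[(nat_lit 40), (nat_lit 80), (nat_lit 100)], [(nat_lit 0), (nat_lit 795), (nat_lit 1829)], [((nat_lit 0), (nat_lit 0), (nat_lit 0)), ((nat_lit 1000), (nat_lit 814), (nat_lit 310)), ((nat_lit 1000), (nat_lit 714), (nat_lit 692))], ((nat_lit 71), (nat_lit 100), (nat_lit 67))⟩, (nat_lit 4157), (nat_lit 203), (nat_lit 203), (nat_lit 0), (nat_lit 104675), [(nat_lit 1699592101), (nat_lit 1788241550), (nat_lit 1148922400)], [(nat_lit 0), (nat_lit 0), (nat_lit 0)], [(nat_lit 25105531327), (nat_lit 26159135998), (nat_lit 29501184746), (nat_lit 30774382129), (nat_lit 24233629285), (nat_lit 25178313607), (nat_lit 27500032720), (nat_lit 28371308754)], (nat_lit 1271251), (nat_lit 1271251), (nat_lit 1271251), (nat_lit 1271251), (nat_lit 54688), (nat_lit 780000), [(nat_lit 490000), (nat_lit 1100000), (nat_lit 1442501)], [(nat_lit 3), (nat_lit 50), (nat_lit 238), (nat_lit 30), (nat_lit 8)]⟩,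
 ⟨⟨[(nat_lit 100), (nat_lit 140), (nat_lit 180)], [(nat_lit 0), (nat_lit 0), (nat_lit 2434)], [((nat_lit 0), (nat_lit 0), (nat_lit 0)), ((nat_lit 0), (nat_lit 0), (nat_lit 0)), ((nat_lit 726), (nat_lit 1000), (nat_lit 688))], ((nat_lit 100), (nat_lit 74), (nat_lit 67))⟩, (nat_lit 1439085), (nat_lit 477), (nat_lit 477), (nat_lit 0), (nat_lit 372897), [(nat_lit 3212500000), (nat_lit 5058788000), (nat_lit 7225812000)], [], [(nat_lit 20352878330), (nat_lit 20405714196), (nat_lit 22398045816), (nat_lit 22353364899), (nat_lit 17073395732), (nat_lit 17042101447), (nat_lit 18476120840), (nat_lit 18372502413)], (nat_lit 1271251), (nat_lit 1271251), (nat_lit 1271251), (nat_lit 1271251), (nat_lit 0), (nat_lit 2401251), [(nat_lit 1412501), (nat_lit 1271251), (nat_lit 1271251)], [(nat_lit 24), (nat_lit 63), (nat_lit 483), (nat_lit 250), (nat_lit 11)]⟩,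
 Rw.none⟩)) (.dle (nat_lit 0)))) (.leaf ⟨(nat_lit 51), (nat_lit 912), (nat_lit 0), (nat_lit 37), (nat_lit 0), (nat_lit 4675), (nat_lit 8903), (nat_lit 423), (nat_lit 0), (nat_lit 0), (nat_lit 204000), [((nat_lit 360), [((nat_lit 39), (nat_lit 5), (nat_lit 51))])], ⟨(nat_lit 7), false, true, true, (nat_lit 292), (nat_lit 3162), (nat_lit 3873), [(nat_lit 1650835), (nat_lit 1644060), (nat_lit 1672628), (nat_lit 1666215), (nat_lit 1796008), (nat_lit 1781205), (nat_lit 1817802), (nat_lit 1803360)]⟩, ⟨(nat_lit 3), false, false, false, (nat_lit 93), (nat_lit 3162), (nat_lit 3873), [(nat_lit 1106311), (nat_lit 1121813), (nat_lit 1171604), (nat_lit 1188192), (nat_lit 1283782), (nat_lit 1289472), (nat_lit 1349127), (nat_lit 1355902)]⟩, (nat_lit 4358457), (nat_lit 41011608), (nat_lit 22289668), (nat_lit 3698724), (nat_lit 3), (nat_lit 0), [], [], [], [⟨(nat_lit 1), (nat_lit 100), (nat_lit 79), (nat_lit 75), (nat_lit 97714392)⟩],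
 ⟨⟨[(nat_lit 40), (nat_lit 80), (nat_lit 120)], [(nat_lit 0), (nat_lit 795), (nat_lit 2800)], [((nat_lit 0), (nat_lit 0), (nat_lit 0)), ((nat_lit 1000), (nat_lit 814), (nat_lit 310)), ((nat_lit 1000), (nat_lit 719), (nat_lit 783))], ((nat_lit 71), (nat_lit 100), (nat_lit 71))⟩, (nat_lit 1787391), (nat_lit 248), (nat_lit 248), (nat_lit 0), (nat_lit 141824), [(nat_lit 1965251203), (nat_lit 3943930406), (nat_lit 6026450400)], [(nat_lit 0), (nat_lit 0), (nat_lit 0)], [(nat_lit 26504172330), (nat_lit 28319526279), (nat_lit 32814777579), (nat_lit 34208359851), (nat_lit 23952120967), (nat_lit 25007214703), (nat_lit 29146972432), (nat_lit 30432151082)], (nat_lit 1271251), (nat_lit 1271251), (nat_lit 1271251), (nat_lit 1271251), (nat_lit 54688), (nat_lit 780000), [(nat_lit 490000), (nat_lit 1100000), (nat_lit 1785001)], [(nat_lit 4), (nat_lit 51), (nat_lit 238), (nat_lit 30), (nat_lit 7)]⟩,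
 ⟨⟨[(nat_lit 100), (nat_lit 140), (nat_lit 180)], [(nat_lit 0), (nat_lit 508), (nat_lit 2854)], [((nat_lit 0), (nat_lit 0), (nat_lit 0)), ((nat_lit 1000), (nat_lit 1000), (nat_lit 198)), ((nat_lit 777), (nat_lit 1000), (nat_lit 712))], ((nat_lit 100), (nat_lit 77), (nat_lit 72))⟩, (nat_lit 3301057), (nat_lit 488), (nat_lit 488), (nat_lit 0), (nat_lit 415284), [(nat_lit 5931250000), (nat_lit 9340058000), (nat_lit 13341042000)], [], [(nat_lit 35115994666), (nat_lit 35198066312), (nat_lit 38340756449), (nat_lit 38360934169), (nat_lit 30015952878), (nat_lit 29852907388), (nat_lit 32987903145), (nat_lit 33140741595)], (nat_lit 1271251), (nat_lit 1271251), (nat_lit 1271251), (nat_lit 1271251), (nat_lit 0), (nat_lit 2401251), [(nat_lit 1412501), (nat_lit 1271251), (nat_lit 1271251)], [(nat_lit 24), (nat_lit 63), (nat_lit 483), (nat_lit 250), (nat_lit 11)]⟩,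
 ⟨⟨[(nat_lit 140), (nat_lit 180), (nat_lit 200)], [(nat_lit 0), (nat_lit 0), (nat_lit 2835)], [((nat_lit 0), (nat_lit 0), (nat_lit 0)), ((nat_lit 0), (nat_lit 0), (nat_lit 0)), ((nat_lit 363), (nat_lit 1000), (nat_lit 798))], ((nat_lit 0), (nat_lit 0), (nat_lit 0))⟩, (nat_lit 10180), (nat_lit 300), (nat_lit 1010), (nat_lit 2889700), (nat_lit 871427), [(nat_lit 364154000), (nat_lit 520146000), (nat_lit 606800000)], [], [(nat_lit 3336700146), (nat_lit 3039652664), (nat_lit 2830966584), (nat_lit 2731729972), (nat_lit 2556847277), (nat_lit 2456813248), (nat_lit 2265047905), (nat_lit 2541831974)], (nat_lit 780000), (nat_lit 1271251), (nat_lit 54688), (nat_lit 780000), (nat_lit 0), (nat_lit 2401251), [(nat_lit 1977501), (nat_lit 1271251), (nat_lit 1271251)], [(nat_lit 32), (nat_lit 67), (nat_lit 401), (nat_lit 175), (nat_lit 9)]⟩⟩))) (.spl (nat_lit 5) (nat_lit 120) (.spl (nat_lit 0) (nat_lit 350) (.spl (nat_lit 6) (nat_lit 48) (.leaf ⟨(nat_lit 0), (nat_lit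 1000), (nat_lit 0), (nat_lit 0), (nat_lit 16868), (nat_lit 6309), (nat_lit 11532), (nat_lit 0), (nat_lit 0), (nat_lit 0), (nat_lit 0), [], Pd.none, Pd.none, (nat_lit 0), (nat_lit 1), (nat_lit 0), (nat_lit 0), (nat_lit 3), (nat_lit 0), [], [], [], [⟨(nat_lit 0), (nat_lit 100), (nat_lit 80), (nat_lit 47), (nat_lit 292341448)⟩],
 ⟨⟨[(nat_lit 40), (nat_lit 80), (nat_lit 100)], [(nat_lit 0), (nat_lit 795), (nat_lit 1829)], [((nat_lit 0), (nat_lit 0), (nat_lit 0)), ((nat_lit 1000), (nat_lit 814), (nat_lit 310)), ((nat_lit 1000), (nat_lit 714), (nat_lit 692))], ((nat_lit 72), (nat_lit 100), (nat_lit 65))⟩, (nat_lit 1079554), (nat_lit 129), (nat_lit 129), (nat_lit 0), (nat_lit 97663), [(nat_lit 2515460882), (nat_lit 5082270175), (nat_lit 6250000000)], [], [(nat_lit 24932283529), (nat_lit 25711190349), (nat_lit 31398888731), (nat_lit 32153413592), (nat_lit 25480106641), (nat_lit 26165331904), (nat_lit 31267899274), (nat_lit 31934675773)], (nat_lit 1271251), (nat_lit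 1271251), (nat_lit 1271251), (nat_lit 1271251), (nat_lit 780000), (nat_lit 1435001), [(nat_lit 490000), (nat_lit 1100000), (nat_lit 1442501)], [(nat_lit 3), (nat_lit 50), (nat_lit 260), (nat_lit 50), (nat_lit 8)]⟩,
 ⟨⟨[(nat_lit 120), (nat_lit 160), (nat_lit 180)], [(nat_lit 0), (nat_lit 533), (nat_lit 2066)], [((nat_lit 0), (nat_lit 0), (nat_lit 0)), ((nat_lit 960), (nat_lit 1000), (nat_lit 200)), ((nat_lit 615), (nat_lit 1000), (nat_lit 729))], ((nat_lit 100), (nat_lit 69), (nat_lit 65))⟩, (nat_lit 3242522), (nat_lit 428), (nat_lit 428), (nat_lit 0), (nat_lit 199374), [(nat_lit 7968000000), (nat_lit 11872000000), (nat_lit 14058000000)], [], [(nat_lit 41287818830), (nat_lit 41446785332), (nat_lit 46420482635), (nat_lit 46025651972), (nat_lit 32392967781), (nat_lit 32551919340), (nat_lit 36991563956), (nat_lit 36497085063)], (nat_lit 1271251), (nat_lit 1271251), (nat_lit 1271251), (nat_lit 1271251), (nat_lit 0), (nat_lit 780000), [(nat_lit 1695001), (nat_lit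 1271251), (nat_lit 1271251)], [(nat_lit 28), (nat_lit 65), (nat_lit 428), (nat_lit 200), (nat_lit 10)]⟩,
 Rw.none⟩) (.dle (nat_lit 0))) (.trX (nat_lit 3) (nat_lit 0) (nat_lit 1) (nat_lit 68) (nat_lit 61) (nat_lit 100) (nat_lit 360) (.leaf ⟨(nat_lit 691), (nat_lit 309), (nat_lit 0), (nat_lit 0), (nat_lit 2344), (nat_lit 4945), (nat_lit 3104), (nat_lit 0), (nat_lit 0), (nat_lit 0), (nat_lit 172750), [((nat_lit 360), [((nat_lit 22), (nat_lit 0), (nat_lit 691))])], ⟨(nat_lit 7), false, true, true, (nat_lit 279), (nat_lit 3162), (nat_lit 3536), [(nat_lit 1603569), (nat_lit 1599750), (nat_lit 1669427), (nat_lit 1666215), (nat_lit 1729092), (nat_lit 1721657), (nat_lit 1794949), (nat_lit 1788122)]⟩, ⟨(nat_lit 3), false, false, true, (nat_lit 153), (nat_lit 3162), (nat_lit 3536), [(nat_lit 1286665), (nat_lit 1289472), (nat_lit 1352511), (nat_lit 1355925), (nat_lit 1412188), (nat_lit 1411379), (nat_lit 1478046), (nat_lit 1477844)]⟩, (nat_lit 4947116), (nat_lit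 39284405), (nat_lit 20016486), (nat_lit 7699109), (nat_lit 3), (nat_lit 0), [⟨(nat_lit 1), (nat_lit 74), (nat_lit 63), (nat_lit 100), (nat_lit 146987604)⟩], [], [], [⟨(nat_lit 0), (nat_lit 100), (nat_lit 82), (nat_lit 44), (nat_lit 70040089)⟩],
 ⟨⟨[(nat_lit 40), (nat_lit 80), (nat_lit 100)], [(nat_lit 0), (nat_lit 1195), (nat_lit 2166)], [((nat_lit 0), (nat_lit 0), (nat_lit 0)), ((nat_lit 1000), (nat_lit 720), (nat_lit 465)), ((nat_lit 1000), (nat_lit 662), (nat_lit 740))], ((nat_lit 66), (nat_lit 100), (nat_lit 72))⟩, (nat_lit 0), (nat_lit 149), (nat_lit 149), (nat_lit 0), (nat_lit 172029), [(nat_lit 1714303240), (nat_lit 2810414808), (nat_lit 3541832800)], [(nat_lit 0), (nat_lit 0), (nat_lit 0)], [(nat_lit 25784821874), (nat_lit 26361847036), (nat_lit 29608544354), (nat_lit 30160945965), (nat_lit 26427183748), (nat_lit 26939749493), (nat_lit 29867061617), (nat_lit 30358995250)], (nat_lit 1271251), (nat_lit 1271251), (nat_lit 1271251), (nat_lit 1271251),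 (nat_lit 780000), (nat_lit 1435001), [(nat_lit 490000), (nat_lit 1100000), (nat_lit 1442501)], [(nat_lit 3), (nat_lit 50), (nat_lit 260), (nat_lit 50), (nat_lit 8)]⟩,
 ⟨⟨[(nat_lit 120), (nat_lit 160), (nat_lit 180)], [(nat_lit 0), (nat_lit 533), (nat_lit 2066)], [((nat_lit 0), (nat_lit 0), (nat_lit 0)), ((nat_lit 960), (nat_lit 1000), (nat_lit 200)), ((nat_lit 615), (nat_lit 1000), (nat_lit 729))], ((nat_lit 100), (nat_lit 63), (nat_lit 72))⟩, (nat_lit 847702), (nat_lit 495), (nat_lit 495), (nat_lit 0), (nat_lit 365126), [(nat_lit 2462112000), (nat_lit 3668448000), (nat_lit 4343922000)], [], [(nat_lit 13344003785), (nat_lit 13358653500), (nat_lit 14456284914), (nat_lit 14396271112), (nat_lit 10951105995), (nat_lit 10952341945), (nat_lit 12007013756), (nat_lit 11940732641)], (nat_lit 1271251), (nat_lit 1271251), (nat_lit 1271251), (nat_lit 1271251), (nat_lit 0), (nat_lit 780000), [(nat_lit 1695001), (nat_lit 1271251), (nat_lit 1271251)], [(nat_lit 28),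 (nat_lit 65), (nat_lit 428), (nat_lit 200), (nat_lit 10)]⟩,
 Rw.none⟩))) (.spl (nat_lit 0) (nat_lit 350) (.spl (nat_lit 6) (nat_lit 48) (.leaf ⟨(nat_lit 0), (nat_lit 677), (nat_lit 0), (nat_lit 323), (nat_lit 5), (nat_lit 4470), (nat_lit 8988), (nat_lit 3473), (nat_lit 0), (nat_lit 0), (nat_lit 0), [], Pd.none, Pd.none, (nat_lit 0), (nat_lit 1), (nat_lit 0), (nat_lit 0), (nat_lit 3), (nat_lit 0), [], [], [], [⟨(nat_lit 1), (nat_lit 78), (nat_lit 80), (nat_lit 100), (nat_lit 21675726)⟩],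
 ⟨⟨[(nat_lit 40), (nat_lit 80), (nat_lit 100)], [(nat_lit 0), (nat_lit 795), (nat_lit 1829)], [((nat_lit 0), (nat_lit 0), (nat_lit 0)), ((nat_lit 1000), (nat_lit 814), (nat_lit 310)), ((nat_lit 1000), (nat_lit 714), (nat_lit 692))], ((nat_lit 72), (nat_lit 100), (nat_lit 65))⟩, (nat_lit 2073537), (nat_lit 129), (nat_lit 129), (nat_lit 0), (nat_lit 97663), [(nat_lit 2032000176), (nat_lit 4688000283), (nat_lit 6250000000)], [], [(nat_lit 23976310677), (nat_lit 24620629362), (nat_lit 28864449273), (nat_lit 29492995278), (nat_lit 24900372290), (nat_lit 25446590052), (nat_lit 29273700777), (nat_lit 29834756729)], (nat_lit 1271251), (nat_lit 1271251), (nat_lit 1271251), (nat_lit 1271251), (nat_lit 780000), (nat_lit 1435001), [(nat_lit 490000), (nat_lit 1100000), (nat_lit 1442501)], [(nat_lit 3), (nat_lit 50), (nat_lit 260), (nat_lit 50), (nat_lit 8)]⟩,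
 ⟨⟨[(nat_lit 120), (nat_lit 160), (nat_lit 180)], [(nat_lit 0), (nat_lit 533), (nat_lit 2066)], [((nat_lit 0), (nat_lit 0), (nat_lit 0)), ((nat_lit 960), (nat_lit 1000), (nat_lit 200)), ((nat_lit 615), (nat_lit 1000), (nat_lit 729))], ((nat_lit 100), (nat_lit 69), (nat_lit 65))⟩, (nat_lit 2678903), (nat_lit 316), (nat_lit 316), (nat_lit 0), (nat_lit 248663), [(nat_lit 7968000000), (nat_lit 11872000000), (nat_lit 14058000000)], [], [(nat_lit 31723695400), (nat_lit 32286780298), (nat_lit 36190648362), (nat_lit 36347039092), (nat_lit 37370823542), (nat_lit 37310424305), (nat_lit 40835426436), (nat_lit 40303619989)], (nat_lit 1271251), (nat_lit 1271251), (nat_lit 1271251), (nat_lit 1271251), (nat_lit 780000), (nat_lit 2990626), [(nat_lit 1695001), (nat_lit 1271251), (nat_lit 1271251)], [(nat_lit 28), (nat_lit 65), (nat_lit 483), (nat_lit 250), (nat_lit 11)]⟩,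
 ⟨⟨[(nat_lit 140), (nat_lit 180), (nat_lit 200)], [(nat_lit 0), (nat_lit 0), (nat_lit 2835)], [((nat_lit 0), (nat_lit 0), (nat_lit 0)), ((nat_lit 0), (nat_lit 0), (nat_lit 0)), ((nat_lit 363), (nat_lit 1000), (nat_lit 798))], ((nat_lit 0), (nat_lit 0), (nat_lit 0))⟩, (nat_lit 88868), (nat_lit 300), (nat_lit 832), (nat_lit 25226300), (nat_lit 891026), [(nat_lit 3178966000), (nat_lit 4540734000), (nat_lit 5297200000)], [], [(nat_lit 22509861352), (nat_lit 21766174588), (nat_lit 21508860845), (nat_lit 20766014507), (nat_lit 20600485587), (nat_lit 19803414554), (nat_lit 19528459294), (nat_lit 19556623505)], (nat_lit 780000), (nat_lit 1271251), (nat_lit 780000), (nat_lit 1435001), (nat_lit 780000), (nat_lit 2990626), [(nat_lit 1977501), (nat_lit 1271251), (nat_lit 1271251)], [(nat_lit 32), (nat_lit 67), (nat_lit 428), (nat_lit 200), (nat_lit 9)]⟩⟩) (.dle (nat_lit 0))) (.trX (nat_lit 3) (nat_lit 0) (nat_lit 1) (nat_lit 68) (nat_lit 61) (nat_lit 100) (nat_lit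 360) (.leaf ⟨(nat_lit 766), (nat_lit 172), (nat_lit 0), (nat_lit 62), (nat_lit 984), (nat_lit 3948), (nat_lit 2482), (nat_lit 681), (nat_lit 0), (nat_lit 0), (nat_lit 191500), [((nat_lit 360), [((nat_lit 22), (nat_lit 0), (nat_lit 766))])], ⟨(nat_lit 7), false, true, true, (nat_lit 279), (nat_lit 3162), (nat_lit 3536), [(nat_lit 1603569), (nat_lit 1599750), (nat_lit 1669427), (nat_lit 1666215), (nat_lit 1729092), (nat_lit 1721657), (nat_lit 1794949), (nat_lit 1788122)]⟩, ⟨(nat_lit 3), false, false, true, (nat_lit 153), (nat_lit 3162), (nat_lit 3536), [(nat_lit 1286665), (nat_lit 1289472), (nat_lit 1352511), (nat_lit 1355925), (nat_lit 1412188), (nat_lit 1411379), (nat_lit 1478046), (nat_lit 1477844)]⟩, (nat_lit 4947116), (nat_lit 39284405), (nat_lit 20016486), (nat_lit 7699109), (nat_lit 3), (nat_lit 0), [⟨(nat_lit 1), (nat_lit 74), (nat_lit 63), (nat_lit 100), (nat_lit 119083968)⟩], [], [], [⟨(nat_lit 1), (nat_lit 76), (nat_lit 82), (nat_lit 100), (nat_lit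 4788977)⟩],
 ⟨⟨[(nat_lit 40), (nat_lit 80), (nat_lit 100)], [(nat_lit 0), (nat_lit 1195), (nat_lit 2166)], [((nat_lit 0), (nat_lit 0), (nat_lit 0)), ((nat_lit 1000), (nat_lit 720), (nat_lit 465)), ((nat_lit 1000), (nat_lit 662), (nat_lit 740))], ((nat_lit 66), (nat_lit 100), (nat_lit 72))⟩, (nat_lit 521369), (nat_lit 149), (nat_lit 149), (nat_lit 0), (nat_lit 172029), [(nat_lit 1621820028), (nat_lit 2606624820), (nat_lit 3247892800)], [(nat_lit 0), (nat_lit 0), (nat_lit 0)], [(nat_lit 25129546121), (nat_lit 25618758375), (nat_lit 28217525440), (nat_lit 28719927728), (nat_lit 25965858099), (nat_lit 26404159649), (nat_lit 28747902170), (nat_lit 29223283860)], (nat_lit 1271251), (nat_lit 1271251), (nat_lit 1271251), (nat_lit 1271251), (nat_lit 780000), (nat_lit 1435001), [(nat_lit 490000), (nat_lit 1100000), (nat_lit 1442501)], [(nat_lit 3), (nat_lit 50), (nat_lit 260), (nat_lit 50), (nat_lit 8)]⟩,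
 ⟨⟨[(nat_lit 120), (nat_lit 160), (nat_lit 180)], [(nat_lit 0), (nat_lit 533), (nat_lit 2066)], [((nat_lit 0), (nat_lit 0), (nat_lit 0)), ((nat_lit 960), (nat_lit 1000), (nat_lit 200)), ((nat_lit 615), (nat_lit 1000), (nat_lit 729))], ((nat_lit 100), (nat_lit 63), (nat_lit 72))⟩, (nat_lit 537363), (nat_lit 431), (nat_lit 431), (nat_lit 0), (nat_lit 449844), [(nat_lit 1864512000), (nat_lit 2778048000), (nat_lit 3289572000)], [], [(nat_lit 8387732368), (nat_lit 8373057847), (nat_lit 9151694171), (nat_lit 9025350873), (nat_lit 8987336241), (nat_lit 8776825132), (nat_lit 9495003267), (nat_lit 9263285891)], (nat_lit 1271251), (nat_lit 1271251), (nat_lit 1271251), (nat_lit 1271251), (nat_lit 780000), (nat_lit 2990626), [(nat_lit 1695001), (nat_lit 1271251), (nat_lit 1271251)], [(nat_lit 28), (nat_lit 65), (nat_lit 483), (nat_lit 250), (nat_lit 11)]⟩,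
 ⟨⟨[(nat_lit 140), (nat_lit 180), (nat_lit 200)], [(nat_lit 0), (nat_lit 0), (nat_lit 2835)], [((nat_lit 0), (nat_lit 0), (nat_lit 0)), ((nat_lit 0), (nat_lit 0), (nat_lit 0)), ((nat_lit 363), (nat_lit 1000), (nat_lit 798))], ((nat_lit 0), (nat_lit 0), (nat_lit 0))⟩, (nat_lit 17058), (nat_lit 300), (nat_lit 1186), (nat_lit 4842203), (nat_lit 1678214), [(nat_lit 610204000), (nat_lit 871596000), (nat_lit 1016800000)], [], [(nat_lit 4373981584), (nat_lit 4217695731), (nat_lit 4165358373), (nat_lit 4013686347), (nat_lit 3912738996), (nat_lit 3754962494), (nat_lit 3700908648), (nat_lit 3783179305)], (nat_lit 780000), (nat_lit 1271251), (nat_lit 780000), (nat_lit 1435001), (nat_lit 780000), (nat_lit 2990626), [(nat_lit 1977501), (nat_lit 1271251), (nat_lit 1271251)], [(nat_lit 32), (nat_lit 67), (nat_lit 428), (nat_lit 200), (nat_lit 9)]⟩⟩))))))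
noncomputable def c7_38 : Tr Lf :=
 (.ord (.trZ (nat_lit 0) (nat_lit 2) (nat_lit 4) (nat_lit 100) (nat_lit 72) (nat_lit 63) (nat_lit 40) (.spl (nat_lit 6) (nat_lit 48) (.spl (nat_lit 5) (nat_lit 120) (.spl (nat_lit 1) (nat_lit 220) (.ord (.trX (nat_lit 3) (nat_lit 0) (nat_lit 1) (nat_lit 72) (nat_lit 63) (nat_lit 100) (nat_lit 360) (.spl (nat_lit 6) (nat_lit 40) (.leaf ⟨(nat_lit 205), (nat_lit 727), (nat_lit 0), (nat_lit 68), (nat_lit 7800), (nat_lit 4723), (nat_lit 8101), (nat_lit 771), (nat_lit 0), (nat_lit 12564073620331), (nat_lit 691000), [((nat_lit 360), [((nat_lit 21), (nat_lit 2), (nat_lit 43)), ((nat_lit 39), (nat_lit 5), (nat_lit 162))])], ⟨(nat_lit 5), false, true, true, (nat_lit 250), (nat_lit 3162), (nat_lit 3873), [(nat_lit 1478205), (nat_lit 1477844), (nat_lit 1521764), (nat_lit 1522126), (nat_lit 1736292), (nat_lit 1721657), (nat_lit 1779878), (nat_lit 1765967)]⟩, ⟨(nat_lit 4), false, false, false, (nat_lit 150), (nat_lit 3162), (nat_lit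 3873), [(nat_lit 1220020), (nat_lit 1233931), (nat_lit 1263549), (nat_lit 1278184), (nat_lit 1478205), (nat_lit 1477844), (nat_lit 1521764), (nat_lit 1522126)]⟩, (nat_lit 4794214), (nat_lit 41802548), (nat_lit 17462861), (nat_lit 7734591), (nat_lit 4), (nat_lit 0), [], [], [], [],
 ⟨⟨[(nat_lit 40), (nat_lit 80), (nat_lit 100)], [(nat_lit 0), (nat_lit 795), (nat_lit 1829)], [((nat_lit 0), (nat_lit 0), (nat_lit 0)), ((nat_lit 1000), (nat_lit 814), (nat_lit 310)), ((nat_lit 1000), (nat_lit 714), (nat_lit 692))], ((nat_lit 72), (nat_lit 100), (nat_lit 61))⟩, (nat_lit 0), (nat_lit 158), (nat_lit 158), (nat_lit 0), (nat_lit 57295), [(nat_lit 1939101603), (nat_lit 2309092003), (nat_lit 1665686597)], [(nat_lit 0), (nat_lit 0), (nat_lit 0)], [(nat_lit 21432793260), (nat_lit 23367297767), (nat_lit 30705305941), (nat_lit 32131623503), (nat_lit 21711985024), (nat_lit 22810742231), (nat_lit 28919392631), (nat_lit 30105966235)], (nat_lit 1271251), (nat_lit 1271251),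 (nat_lit 1271251), (nat_lit 1271251), (nat_lit 230000), (nat_lit 1420001), [(nat_lit 490000), (nat_lit 1100000), (nat_lit 1442501)], [(nat_lit 3), (nat_lit 50), (nat_lit 260), (nat_lit 50), (nat_lit 9)]⟩,
 ⟨⟨[(nat_lit 120), (nat_lit 160), (nat_lit 180)], [(nat_lit 0), (nat_lit 533), (nat_lit 2066)], [((nat_lit 0), (nat_lit 0), (nat_lit 0)), ((nat_lit 960), (nat_lit 1000), (nat_lit 200)), ((nat_lit 615), (nat_lit 1000), (nat_lit 729))], ((nat_lit 100), (nat_lit 74), (nat_lit 60))⟩, (nat_lit 2557510), (nat_lit 397), (nat_lit 397), (nat_lit 0), (nat_lit 129493), [(nat_lit 6334560000), (nat_lit 9438240000), (nat_lit 11176110000)], [], [(nat_lit 31888374194), (nat_lit 32127293734), (nat_lit 36752470997), (nat_lit 36638887758), (nat_lit 31444599408), (nat_lit 26677385872), (nat_lit 30340842463), (nat_lit 30216646608)], (nat_lit 1271251), (nat_lit 1271251), (nat_lit 1271251), (nat_lit 1271251), (nat_lit 0), (nat_lit 780000), [(nat_lit 1695001), (nat_lit 1271251),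 (nat_lit 1271251)], [(nat_lit 28), (nat_lit 65), (nat_lit 401), (nat_lit 175), (nat_lit 9)]⟩,
 ⟨⟨[(nat_lit 120), (nat_lit 160), (nat_lit 180)], [(nat_lit 0), (nat_lit 533), (nat_lit 2066)], [((nat_lit 0), (nat_lit 0), (nat_lit 0)), ((nat_lit 960), (nat_lit 1000), (nat_lit 200)), ((nat_lit 615), (nat_lit 1000), (nat_lit 729))], ((nat_lit 100), (nat_lit 74), (nat_lit 60))⟩, (nat_lit 32554), (nat_lit 300), (nat_lit 506), (nat_lit 4937155), (nat_lit 129493), [(nat_lit 541824000), (nat_lit 807296000), (nat_lit 955944000)], [], [(nat_lit 4328475519), (nat_lit 4137690304), (nat_lit 3634174863), (nat_lit 3600654301), (nat_lit 3539748530), (nat_lit 3514555465), (nat_lit 3178743821), (nat_lit 3021902227)], (nat_lit 1271251), (nat_lit 1271251), (nat_lit 230000), (nat_lit 1420001), (nat_lit 0), (nat_lit 780000), [(nat_lit 1695001), (nat_lit 1271251), (nat_lit 1271251)], [(nat_lit 28), (nat_lit 65), (nat_lit 373), (nat_lit 150), (nat_lit 9)]⟩⟩) (.dle (nat_lit 0)))))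 (.leaf ⟨(nat_lit 0), (nat_lit 929), (nat_lit 0), (nat_lit 71), (nat_lit 0), (nat_lit 4985), (nat_lit 9932), (nat_lit 971), (nat_lit 0), (nat_lit 7043670659974), (nat_lit 0), [], Pd.none, Pd.none, (nat_lit 0), (nat_lit 1), (nat_lit 0), (nat_lit 0), (nat_lit 4), (nat_lit 0), [], [], [⟨(nat_lit 0), (nat_lit 100), (nat_lit 100), (nat_lit 40), (nat_lit 214713057)⟩], [],
 ⟨⟨[(nat_lit 40), (nat_lit 80), (nat_lit 100)], [(nat_lit 0), (nat_lit 795), (nat_lit 1829)], [((nat_lit 0), (nat_lit 0), (nat_lit 0)), ((nat_lit 1000), (nat_lit 814), (nat_lit 310)), ((nat_lit 1000), (nat_lit 714), (nat_lit 692))], ((nat_lit 72), (nat_lit 100), (nat_lit 65))⟩, (nat_lit 2142060), (nat_lit 176), (nat_lit 176), (nat_lit 0), (nat_lit 114417), [(nat_lit 2032000188), (nat_lit 4688000014), (nat_lit 6250000000)], [], [(nat_lit 22471963274), (nat_lit 23948733124), (nat_lit 32023405011), (nat_lit 33443246057), (nat_lit 22508920711), (nat_lit 23709386298), (nat_lit 29832163107), (nat_lit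 31013487715)], (nat_lit 1271251), (nat_lit 1271251), (nat_lit 1271251), (nat_lit 1271251), (nat_lit 230000), (nat_lit 1420001), [(nat_lit 490000), (nat_lit 1100000), (nat_lit 1442501)], [(nat_lit 3), (nat_lit 50), (nat_lit 260), (nat_lit 50), (nat_lit 9)]⟩,
 ⟨⟨[(nat_lit 100), (nat_lit 140), (nat_lit 160)], [(nat_lit 0), (nat_lit 508), (nat_lit 1689)], [((nat_lit 0), (nat_lit 0), (nat_lit 0)), ((nat_lit 1000), (nat_lit 1000), (nat_lit 198)), ((nat_lit 811), (nat_lit 1000), (nat_lit 671))], ((nat_lit 100), (nat_lit 83), (nat_lit 65))⟩, (nat_lit 4155152), (nat_lit 357), (nat_lit 357), (nat_lit 0), (nat_lit 193241), [(nat_lit 6250000000), (nat_lit 9842000000), (nat_lit 11872000000)], [], [(nat_lit 30077369354), (nat_lit 30603707896), (nat_lit 38887302421), (nat_lit 39046747650), (nat_lit 23717233040), (nat_lit 24059463460), (nat_lit 31350431291), (nat_lit 31412311892)], (nat_lit 1271251), (nat_lit 1271251), (nat_lit 1271251), (nat_lit 1271251), (nat_lit 0),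 (nat_lit 780000), [(nat_lit 1412501), (nat_lit 1271251), (nat_lit 1271251)], [(nat_lit 23), (nat_lit 62), (nat_lit 428), (nat_lit 200), (nat_lit 11)]⟩,
 ⟨⟨[(nat_lit 120), (nat_lit 160), (nat_lit 180)], [(nat_lit 0), (nat_lit 533), (nat_lit 2066)], [((nat_lit 0), (nat_lit 0), (nat_lit 0)), ((nat_lit 960), (nat_lit 1000), (nat_lit 200)), ((nat_lit 615), (nat_lit 1000), (nat_lit 729))], ((nat_lit 100), (nat_lit 69), (nat_lit 65))⟩, (nat_lit 166244), (nat_lit 300), (nat_lit 583), (nat_lit 4714400), (nat_lit 241488), [(nat_lit 565728000), (nat_lit 842912000), (nat_lit 998118000)], [], [(nat_lit 4668309248), (nat_lit 4292273101), (nat_lit 3522546049), (nat_lit 3420417628), (nat_lit 3441950270), (nat_lit 3352421175), (nat_lit 3396354489), (nat_lit 2659649771)], (nat_lit 1271251), (nat_lit 1271251), (nat_lit 230000), (nat_lit 1420001), (nat_lit 0), (nat_lit 780000), [(nat_lit 1695001), (nat_lit 1271251), (nat_lit 1271251)], [(nat_lit 28), (nat_lit 65), (nat_lit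 373), (nat_lit 150), (nat_lit 9)]⟩⟩)) (.spl (nat_lit 0) (nat_lit 350) (.spl (nat_lit 6) (nat_lit 40) (.leaf ⟨(nat_lit 0), (nat_lit 0), (nat_lit 0), (nat_lit 1000), (nat_lit 146154), (nat_lit 4974), (nat_lit 8960), (nat_lit 6852), (nat_lit 0), (nat_lit 3299676), (nat_lit 0), [], Pd.none, Pd.none, (nat_lit 0), (nat_lit 1), (nat_lit 0), (nat_lit 0), (nat_lit 0), (nat_lit 0), [], [⟨(nat_lit 0), (nat_lit 100), (nat_lit 69), (nat_lit 76), (nat_lit 1093307018)⟩], [], [],
 ⟨⟨[(nat_lit 40), (nat_lit 80), (nat_lit 100)], [(nat_lit 0), (nat_lit 795), (nat_lit 1829)], [((nat_lit 0), (nat_lit 0), (nat_lit 0)), ((nat_lit 1000), (nat_lit 814), (nat_lit 310)), ((nat_lit 1000), (nat_lit 714), (nat_lit 692))], ((nat_lit 72), (nat_lit 100), (nat_lit 61))⟩, (nat_lit 2372608), (nat_lit 156), (nat_lit 156), (nat_lit 0), (nat_lit 46045), [(nat_lit 2032690330), (nat_lit 4688000121), (nat_lit 6250000000)], [], [(nat_lit 21879738809), (nat_lit 22618093907), (nat_lit 31999926986),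 (nat_lit 32709023351), (nat_lit 22115676769), (nat_lit 22719636892), (nat_lit 29820234786), (nat_lit 30410264721)], (nat_lit 1271251), (nat_lit 1271251), (nat_lit 1271251), (nat_lit 1271251), (nat_lit 230000), (nat_lit 1420001), [(nat_lit 490000), (nat_lit 1100000), (nat_lit 1442501)], [(nat_lit 3), (nat_lit 50), (nat_lit 260), (nat_lit 50), (nat_lit 9)]⟩,
 ⟨⟨[(nat_lit 120), (nat_lit 160), (nat_lit 180)], [(nat_lit 0), (nat_lit 533), (nat_lit 2066)], [((nat_lit 0), (nat_lit 0), (nat_lit 0)), ((nat_lit 960), (nat_lit 1000), (nat_lit 200)), ((nat_lit 615), (nat_lit 1000), (nat_lit 729))], ((nat_lit 100), (nat_lit 74), (nat_lit 60))⟩, (nat_lit 2710314), (nat_lit 261), (nat_lit 261), (nat_lit 0), (nat_lit 134613), [(nat_lit 7968000000), (nat_lit 11872000000), (nat_lit 14058000000)], [], [(nat_lit 37065172800), (nat_lit 30347691836), (nat_lit 36159544474), (nat_lit 36318520608), (nat_lit 46864694080), (nat_lit 36943822958), (nat_lit 41318009408), (nat_lit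 40732019078)], (nat_lit 1271251), (nat_lit 1271251), (nat_lit 1271251), (nat_lit 1271251), (nat_lit 780000), (nat_lit 3072501), [(nat_lit 1695001), (nat_lit 1271251), (nat_lit 1271251)], [(nat_lit 28), (nat_lit 65), (nat_lit 538), (nat_lit 300), (nat_lit 12)]⟩,
 ⟨⟨[(nat_lit 120), (nat_lit 160), (nat_lit 180)], [(nat_lit 0), (nat_lit 533), (nat_lit 2066)], [((nat_lit 0), (nat_lit 0), (nat_lit 0)), ((nat_lit 960), (nat_lit 1000), (nat_lit 200)), ((nat_lit 615), (nat_lit 1000), (nat_lit 729))], ((nat_lit 100), (nat_lit 74), (nat_lit 60))⟩, (nat_lit 2341463), (nat_lit 300), (nat_lit 386), (nat_lit 66400002), (nat_lit 134613), [(nat_lit 7968000000), (nat_lit 11872000000), (nat_lit 14058000000)], [], [(nat_lit 49484669967), (nat_lit 50048337919), (nat_lit 46491926807), (nat_lit 46846186591), (nat_lit 59722360296), (nat_lit 54024678874), (nat_lit 72263810688), (nat_lit 63246592392)], (nat_lit 1271251), (nat_lit 1271251), (nat_lit 230000), (nat_lit 1420001),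 (nat_lit 780000), (nat_lit 3072501), [(nat_lit 1695001), (nat_lit 1271251), (nat_lit 1271251)], [(nat_lit 28), (nat_lit 65), (nat_lit 456), (nat_lit 225), (nat_lit 11)]⟩⟩) (.dle (nat_lit 0))) (.trX (nat_lit 3) (nat_lit 0) (nat_lit 1) (nat_lit 68) (nat_lit 61) (nat_lit 100) (nat_lit 360) (.trZ (nat_lit 0) (nat_lit 2) (nat_lit 4) (nat_lit 100) (nat_lit 66) (nat_lit 68) (nat_lit 50) (.leaf ⟨(nat_lit 524), (nat_lit 46), (nat_lit 0), (nat_lit 430), (nat_lit 6200), (nat_lit 3787), (nat_lit 4756), (nat_lit 4758), (nat_lit 0), (nat_lit 1195258), (nat_lit 161450), [((nat_lit 360), [((nat_lit 22), (nat_lit 0), (nat_lit 321)), ((nat_lit 22), (nat_lit 1), (nat_lit 203))])], ⟨(nat_lit 5), false, true, true, (nat_lit 254), (nat_lit 3162), (nat_lit 3536), [(nat_lit 1478046), (nat_lit 1477844), (nat_lit 1543888), (nat_lit 1544293), (nat_lit 1729092), (nat_lit 1721657), (nat_lit 1794949), (nat_lit 1788122)]⟩, ⟨(nat_lit 4), false, false, false, (nat_lit 158), (nat_lit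 3162), (nat_lit 3536), [(nat_lit 1242661), (nat_lit 1249238), (nat_lit 1308494), (nat_lit 1315679), (nat_lit 1478046), (nat_lit 1477844), (nat_lit 1543888), (nat_lit 1544293)]⟩, (nat_lit 4890226), (nat_lit 41021279), (nat_lit 17671761), (nat_lit 8306960), (nat_lit 4), (nat_lit 0), [], [⟨(nat_lit 0), (nat_lit 100), (nat_lit 63), (nat_lit 81), (nat_lit 89617449)⟩], [], [],
 ⟨⟨[(nat_lit 40), (nat_lit 80), (nat_lit 100)], [(nat_lit 0), (nat_lit 1195), (nat_lit 2166)], [((nat_lit 0), (nat_lit 0), (nat_lit 0)), ((nat_lit 1000), (nat_lit 720), (nat_lit 465)), ((nat_lit 1000), (nat_lit 662), (nat_lit 740))], ((nat_lit 67), (nat_lit 100), (nat_lit 66))⟩, (nat_lit 1589530), (nat_lit 167), (nat_lit 167), (nat_lit 0), (nat_lit 113140), [(nat_lit 1623888049), (nat_lit 3165529441), (nat_lit 4022571200)], [(nat_lit 0), (nat_lit 0), (nat_lit 0)], [(nat_lit 21085568771), (nat_lit 21682627537), (nat_lit 29060915656), (nat_lit 29697180733), (nat_lit 22044472916), (nat_lit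 22540532795), (nat_lit 28503183777), (nat_lit 29039913715)], (nat_lit 1271251), (nat_lit 1271251), (nat_lit 1271251), (nat_lit 1271251), (nat_lit 292188), (nat_lit 1421875), [(nat_lit 490000), (nat_lit 1100000), (nat_lit 1442501)], [(nat_lit 3), (nat_lit 50), (nat_lit 260), (nat_lit 50), (nat_lit 9)]⟩,
 ⟨⟨[(nat_lit 120), (nat_lit 160), (nat_lit 180)], [(nat_lit 0), (nat_lit 533), (nat_lit 2066)], [((nat_lit 0), (nat_lit 0), (nat_lit 0)), ((nat_lit 960), (nat_lit 1000), (nat_lit 200)), ((nat_lit 615), (nat_lit 1000), (nat_lit 729))], ((nat_lit 100), (nat_lit 69), (nat_lit 65))⟩, (nat_lit 945197), (nat_lit 388), (nat_lit 388), (nat_lit 0), (nat_lit 348899), [(nat_lit 3792768000), (nat_lit 5651072000), (nat_lit 6691608000)], [], [(nat_lit 18141577620), (nat_lit 17284142381), (nat_lit 19357135062), (nat_lit 19146148665), (nat_lit 22942035494), (nat_lit 18928014149), (nat_lit 19869143046), (nat_lit 19427135430)], (nat_lit 1271251), (nat_lit 1271251), (nat_lit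 1271251), (nat_lit 1271251), (nat_lit 780000), (nat_lit 3072501), [(nat_lit 1695001), (nat_lit 1271251), (nat_lit 1271251)], [(nat_lit 28), (nat_lit 65), (nat_lit 483), (nat_lit 250), (nat_lit 11)]⟩,
 ⟨⟨[(nat_lit 120), (nat_lit 160), (nat_lit 180)], [(nat_lit 0), (nat_lit 533), (nat_lit 2066)], [((nat_lit 0), (nat_lit 0), (nat_lit 0)), ((nat_lit 960), (nat_lit 1000), (nat_lit 200)), ((nat_lit 615), (nat_lit 1000), (nat_lit 729))], ((nat_lit 100), (nat_lit 69), (nat_lit 65))⟩, (nat_lit 1006829), (nat_lit 300), (nat_lit 485), (nat_lit 28552001), (nat_lit 348899), [(nat_lit 3426240000), (nat_lit 5104960000), (nat_lit 6044940000)], [], [(nat_lit 20672548724), (nat_lit 20501089798), (nat_lit 20085025553), (nat_lit 17849128516), (nat_lit 29527160488), (nat_lit 22955567902), (nat_lit 36831936200), (nat_lit 30570417716)], (nat_lit 1271251), (nat_lit 1271251), (nat_lit 292188), (nat_lit 1421875), (nat_lit 780000), (nat_lit 3072501), [(nat_lit 1695001), (nat_lit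 1271251), (nat_lit 1271251)], [(nat_lit 28), (nat_lit 65), (nat_lit 456), (nat_lit 225), (nat_lit 11)]⟩⟩))))) (.dle (nat_lit 0)))))
noncomputable def c7_39 : Tr Lf :=
 (.trX (nat_lit 3) (nat_lit 0) (nat_lit 1) (nat_lit 72) (nat_lit 77) (nat_lit 100) (nat_lit 330) (.spl (nat_lit 2) (nat_lit 160) (.trX (nat_lit 4) (nat_lit 0) (nat_lit 2) (nat_lit 73) (nat_lit 85) (nat_lit 100) (nat_lit 320) (.spl (nat_lit 0) (nat_lit 350) (.spl (nat_lit 6) (nat_lit 44) (.leaf ⟨(nat_lit 1000), (nat_lit 0), (nat_lit 0), (nat_lit 0), (nat_lit 20754), (nat_lit 3553), (nat_lit 0), (nat_lit 0), (nat_lit 0), (nat_lit 6587), (nat_lit 250000), [((nat_lit 350), [((nat_lit 22), (nat_lit 0), (nat_lit 1000))])], ⟨(nat_lit 5), false, false, true, (nat_lit 219), (nat_lit 3535), (nat_lit 3873), [(nat_lit 1412825), (nat_lit 1412188), (nat_lit 1478205), (nat_lit 1478046), (nat_lit 1622521), (nat_lit 1616163), (nat_lit 1687900), (nat_lit 1682021)]⟩, ⟨(nat_lit 5), false, false, true, (nat_lit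 212), (nat_lit 3535), (nat_lit 3873), [(nat_lit 1412825), (nat_lit 1412188), (nat_lit 1456412), (nat_lit 1456093), (nat_lit 1606390), (nat_lit 1600472), (nat_lit 1649977), (nat_lit 1644378)]⟩, (nat_lit 5126850), (nat_lit 40215136), (nat_lit 13767668), (nat_lit 13017196), (nat_lit 0), (nat_lit 0), [⟨(nat_lit 1), (nat_lit 77), (nat_lit 72), (nat_lit 100), (nat_lit 182342505)⟩], [⟨(nat_lit 1), (nat_lit 94), (nat_lit 72), (nat_lit 100), (nat_lit 159395429)⟩], [], [],
 ⟨⟨[(nat_lit 40), (nat_lit 80), (nat_lit 100)], [(nat_lit 0), (nat_lit 795), (nat_lit 1829)], [((nat_lit 0), (nat_lit 0), (nat_lit 0)), ((nat_lit 1000), (nat_lit 814), (nat_lit 310)), ((nat_lit 1000), (nat_lit 714), (nat_lit 692))], ((nat_lit 72), (nat_lit 100), (nat_lit 63))⟩, (nat_lit 0), (nat_lit 75), (nat_lit 75), (nat_lit 0), (nat_lit 54503), [(nat_lit 1568000005), (nat_lit 1970800004), (nat_lit 2330800000)], [(nat_lit 0), (nat_lit 0), (nat_lit 0)], [(nat_lit 21820217184), (nat_lit 22420888264),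 (nat_lit 26371353512), (nat_lit 26837110003), (nat_lit 25916233272), (nat_lit 26392626014), (nat_lit 29620766721), (nat_lit 30068295319)], (nat_lit 1271251), (nat_lit 1271251), (nat_lit 1271251), (nat_lit 1271251), (nat_lit 1271251), (nat_lit 1271251), [(nat_lit 490000), (nat_lit 1100000), (nat_lit 1442501)], [(nat_lit 3), (nat_lit 50), (nat_lit 203), (nat_lit 0), (nat_lit 6)]⟩,
 Rw.none,
 Rw.none⟩) (.dle (nat_lit 0))) (.trX (nat_lit 3) (nat_lit 0) (nat_lit 1) (nat_lit 66) (nat_lit 82) (nat_lit 100) (nat_lit 320) (.trX (nat_lit 4) (nat_lit 0) (nat_lit 2) (nat_lit 68) (nat_lit 89) (nat_lit 100) (nat_lit 300) (.leaf ⟨(nat_lit 991), (nat_lit 0), (nat_lit 0), (nat_lit 9), (nat_lit 6668), (nat_lit 3196), (nat_lit 124), (nat_lit 141), (nat_lit 0), (nat_lit 88701), (nat_lit 356500), [((nat_lit 360), [((nat_lit 22), (nat_lit 0), (nat_lit 266)), ((nat_lit 22), (nat_lit 1), (nat_lit 725))])], ⟨(nat_lit 5), false, false, true, (nat_lit 215), (nat_lit 3162), (nat_lit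 3536), [(nat_lit 1412188), (nat_lit 1411379), (nat_lit 1478046), (nat_lit 1477844), (nat_lit 1600472), (nat_lit 1594239), (nat_lit 1666330), (nat_lit 1660704)]⟩, ⟨(nat_lit 5), false, false, true, (nat_lit 204), (nat_lit 3162), (nat_lit 3536), [(nat_lit 1412188), (nat_lit 1411379), (nat_lit 1456093), (nat_lit 1455689), (nat_lit 1569092), (nat_lit 1563762), (nat_lit 1612997), (nat_lit 1608072)]⟩, (nat_lit 5048222), (nat_lit 41039095), (nat_lit 13503494), (nat_lit 12457411), (nat_lit 0), (nat_lit 0), [⟨(nat_lit 1), (nat_lit 82), (nat_lit 66), (nat_lit 100), (nat_lit 151492243)⟩], [⟨(nat_lit 1), (nat_lit 97), (nat_lit 66), (nat_lit 100), (nat_lit 137881683)⟩], [], [⟨(nat_lit 0), (nat_lit 94), (nat_lit 87), (nat_lit 100), (nat_lit 6428305)⟩],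
 ⟨⟨[(nat_lit 40), (nat_lit 80), (nat_lit 100)], [(nat_lit 0), (nat_lit 1195), (nat_lit 2166)], [((nat_lit 0), (nat_lit 0), (nat_lit 0)), ((nat_lit 1000), (nat_lit 720), (nat_lit 465)), ((nat_lit 1000), (nat_lit 662), (nat_lit 740))], ((nat_lit 66), (nat_lit 100), (nat_lit 72))⟩, (nat_lit 263688), (nat_lit 109), (nat_lit 109), (nat_lit 0), (nat_lit 139163), [(nat_lit 1378805619), (nat_lit 1747609208), (nat_lit 1745472800)], [(nat_lit 0), (nat_lit 0), (nat_lit 0)], [(nat_lit 22780214835), (nat_lit 23319303657), (nat_lit 26429785802), (nat_lit 26862069399), (nat_lit 25757322054), (nat_lit 26207760469), (nat_lit 28738217208), (nat_lit 29103341165)], (nat_lit 1271251), (nat_lit 1271251), (nat_lit 1271251), (nat_lit 1271251), (nat_lit 1271251), (nat_lit 1271251), [(nat_lit 490000), (nat_lit 1100000), (nat_lit 1442501)], [(nat_lit 3), (nat_lit 50), (nat_lit 203), (nat_lit 0), (nat_lit 6)]⟩,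
 ⟨⟨[(nat_lit 140), (nat_lit 180), (nat_lit 200)], [(nat_lit 0), (nat_lit 0), (nat_lit 2835)], [((nat_lit 0), (nat_lit 0), (nat_lit 0)), ((nat_lit 0), (nat_lit 0), (nat_lit 0)), ((nat_lit 363), (nat_lit 1000), (nat_lit 798))], ((nat_lit 0), (nat_lit 0), (nat_lit 0))⟩, (nat_lit 16453), (nat_lit 1100), (nat_lit 1100), (nat_lit 0), (nat_lit 1382094), [(nat_lit 88578000), (nat_lit 126522000), (nat_lit 147600000)], [], [(nat_lit 523782634), (nat_lit 502005722), (nat_lit 519836028), (nat_lit 495049990), (nat_lit 654249040), (nat_lit 754425448), (nat_lit 416949164), (nat_lit 439225012)], (nat_lit 780000), (nat_lit 1271251), (nat_lit 1271251), (nat_lit 1271251), (nat_lit 0), (nat_lit 2825001), [(nat_lit 1977501), (nat_lit 1271251), (nat_lit 1271251)], [(nat_lit 32), (nat_lit 67), (nat_lit 456), (nat_lit 225), (nat_lit 10)]⟩,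
 ⟨⟨[(nat_lit 140), (nat_lit 180), (nat_lit 200)], [(nat_lit 0), (nat_lit 0), (nat_lit 2835)], [((nat_lit 0), (nat_lit 0), (nat_lit 0)), ((nat_lit 0), (nat_lit 0), (nat_lit 0)), ((nat_lit 363), (nat_lit 1000), (nat_lit 798))], ((nat_lit 0), (nat_lit 0), (nat_lit 0))⟩, (nat_lit 2476), (nat_lit 300), (nat_lit 1102), (nat_lit 702903), (nat_lit 1387512), [(nat_lit 88578000), (nat_lit 126522000), (nat_lit 147600000)], [], [(nat_lit 595963008), (nat_lit 574171716), (nat_lit 597294600), (nat_lit 573677457), (nat_lit 678439428), (nat_lit 747512526), (nat_lit 456713940), (nat_lit 446560011)], (nat_lit 780000), (nat_lit 1100000), (nat_lit 1271251), (nat_lit 1271251), (nat_lit 0), (nat_lit 2825001), [(nat_lit 1977501), (nat_lit 1271251), (nat_lit 1271251)], [(nat_lit 32), (nat_lit 67), (nat_lit 456), (nat_lit 225), (nat_lit 10)]⟩⟩))))) (.ord (.spl (nat_lit 6) (nat_lit 40) (.leaf ⟨(nat_lit 815), (nat_lit 0), (nat_lit 0), (nat_lit 185), (nat_lit 4507), (nat_lit 4044),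 (nat_lit 1845), (nat_lit 1845), (nat_lit 0), (nat_lit 423239), (nat_lit 203750), [((nat_lit 360), [((nat_lit 21), (nat_lit 0), (nat_lit 815))])], ⟨(nat_lit 5), false, false, true, (nat_lit 228), (nat_lit 3162), (nat_lit 3873), [(nat_lit 1456412), (nat_lit 1455689), (nat_lit 1478205), (nat_lit 1477844), (nat_lit 1666107), (nat_lit 1653787), (nat_lit 1687900), (nat_lit 1675942)]⟩, ⟨(nat_lit 5), false, false, true, (nat_lit 228), (nat_lit 3162), (nat_lit 3873), [(nat_lit 1456412), (nat_lit 1455689), (nat_lit 1478205), (nat_lit 1477844), (nat_lit 1666107), (nat_lit 1653787), (nat_lit 1687900), (nat_lit 1675942)]⟩, (nat_lit 5268668), (nat_lit 38617418), (nat_lit 14191291), (nat_lit 14191291), (nat_lit 0), (nat_lit 0), [⟨(nat_lit 1), (nat_lit 85), (nat_lit 67), (nat_lit 100), (nat_lit 18051647)⟩], [], [], [⟨(nat_lit 0), (nat_lit 100), (nat_lit 100), (nat_lit 65), (nat_lit 59964270)⟩],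
 ⟨⟨[(nat_lit 40), (nat_lit 80), (nat_lit 100)], [(nat_lit 0), (nat_lit 795), (nat_lit 1829)], [((nat_lit 0), (nat_lit 0), (nat_lit 0)), ((nat_lit 1000), (nat_lit 814), (nat_lit 310)), ((nat_lit 1000), (nat_lit 714), (nat_lit 692))], ((nat_lit 72), (nat_lit 100), (nat_lit 61))⟩, (nat_lit 0), (nat_lit 74), (nat_lit 74), (nat_lit 0), (nat_lit 30985), [(nat_lit 1669035871), (nat_lit 2467614030), (nat_lit 3046680970)], [(nat_lit 0), (nat_lit 0), (nat_lit 0)], [(nat_lit 21707330974), (nat_lit 23066540522), (nat_lit 26639046830), (nat_lit 27675845862), (nat_lit 26639046830), (nat_lit 27675845862), (nat_lit 30532586156), (nat_lit 31449614722)], (nat_lit 1271251), (nat_lit 1271251), (nat_lit 1271251), (nat_lit 1271251), (nat_lit 1271251), (nat_lit 1271251), [(nat_lit 490000), (nat_lit 1100000), (nat_lit 1442501)], [(nat_lit 3), (nat_lit 50), (nat_lit 203), (nat_lit 0), (nat_lit 6)]⟩,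
 ⟨⟨[(nat_lit 120), (nat_lit 160), (nat_lit 180)], [(nat_lit 0), (nat_lit 0), (nat_lit 1613)], [((nat_lit 0), (nat_lit 0), (nat_lit 0)), ((nat_lit 0), (nat_lit 0), (nat_lit 0)), ((nat_lit 620), (nat_lit 1000), (nat_lit 670))], ((nat_lit 100), (nat_lit 68), (nat_lit 61))⟩, (nat_lit 508448), (nat_lit 419), (nat_lit 419), (nat_lit 0), (nat_lit 165402), [(nat_lit 1474080000), (nat_lit 2196320000), (nat_lit 2600730000)], [], [(nat_lit 8134186806), (nat_lit 8163125851), (nat_lit 8870604806), (nat_lit 8855498262), (nat_lit 11392907430), (nat_lit 11974126780), (nat_lit 8007331630), (nat_lit 7945613778)], (nat_lit 1100000), (nat_lit 1271251), (nat_lit 1271251), (nat_lit 1271251), (nat_lit 0), (nat_lit 2825001), [(nat_lit 1695001), (nat_lit 1271251), (nat_lit 1271251)], [(nat_lit 28), (nat_lit 65), (nat_lit 483), (nat_lit 250), (nat_lit 11)]⟩,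
 ⟨⟨[(nat_lit 120), (nat_lit 160), (nat_lit 180)], [(nat_lit 0), (nat_lit 0), (nat_lit 1613)], [((nat_lit 0), (nat_lit 0), (nat_lit 0)), ((nat_lit 0), (nat_lit 0), (nat_lit 0)), ((nat_lit 620), (nat_lit 1000), (nat_lit 670))], ((nat_lit 100), (nat_lit 68), (nat_lit 61))⟩, (nat_lit 80515), (nat_lit 300), (nat_lit 419), (nat_lit 13727000), (nat_lit 165402), [(nat_lit 1474080000), (nat_lit 2196320000), (nat_lit 2600730000)], [], [(nat_lit 9956885433), (nat_lit 9948512425), (nat_lit 10378880510), (nat_lit 10337245612), (nat_lit 11392907430), (nat_lit 11974126780), (nat_lit 8876728582), (nat_lit 8793468403)], (nat_lit 1100000), (nat_lit 1271251), (nat_lit 1271251), (nat_lit 1271251), (nat_lit 0), (nat_lit 2825001), [(nat_lit 1695001), (nat_lit 1271251), (nat_lit 1271251)], [(nat_lit 28), (nat_lit 65), (nat_lit 483), (nat_lit 250), (nat_lit 11)]⟩⟩) (.dle (nat_lit 0))))))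
noncomputable def c7_40 : Tr Lf :=
 (.spl (nat_lit 1) (nat_lit 220) (.trX (nat_lit 3) (nat_lit 0) (nat_lit 1) (nat_lit 72) (nat_lit 63) (nat_lit 100) (nat_lit 360) (.spl (nat_lit 6) (nat_lit 52) (.spl (nat_lit 3) (nat_lit 280) (.spl (nat_lit 0) (nat_lit 350) (.spl (nat_lit 6) (nat_lit 40) (.leaf ⟨(nat_lit 901), (nat_lit 49), (nat_lit 0), (nat_lit 50), (nat_lit 11742), (nat_lit 3921), (nat_lit 1463), (nat_lit 693), (nat_lit 0), (nat_lit 0), (nat_lit 225250), [((nat_lit 350), [((nat_lit 21), (nat_lit 0), (nat_lit 901))])], ⟨(nat_lit 5), false, true, true, (nat_lit 225), (nat_lit 3535), (nat_lit 3873), [(nat_lit 1478205), (nat_lit 1478046), (nat_lit 1521787), (nat_lit 1521946), (nat_lit 1607248), (nat_lit 1603569), (nat_lit 1650835), (nat_lit 1647474)]⟩, ⟨(nat_lit 5), false, false, true, (nat_lit 219), (nat_lit 3535), (nat_lit 3873), [(nat_lit 1412825), (nat_lit 1412188), (nat_lit 1478205), (nat_lit 1478046), (nat_lit 1622521), (nat_lit 1616163), (nat_lit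 1687900), (nat_lit 1682021)]⟩, (nat_lit 5209708), (nat_lit 39297210), (nat_lit 14149168), (nat_lit 13553622), (nat_lit 5), (nat_lit 0), [], [⟨(nat_lit 1), (nat_lit 90), (nat_lit 71), (nat_lit 100), (nat_lit 90057195)⟩], [], [⟨(nat_lit 0), (nat_lit 97), (nat_lit 100), (nat_lit 52), (nat_lit 100230568)⟩],
 ⟨⟨[(nat_lit 40), (nat_lit 80), (nat_lit 100)], [(nat_lit 0), (nat_lit 795), (nat_lit 1829)], [((nat_lit 0), (nat_lit 0), (nat_lit 0)), ((nat_lit 1000), (nat_lit 814), (nat_lit 310)), ((nat_lit 1000), (nat_lit 714), (nat_lit 692))], ((nat_lit 72), (nat_lit 100), (nat_lit 61))⟩, (nat_lit 0), (nat_lit 71), (nat_lit 71), (nat_lit 0), (nat_lit 48847), [(nat_lit 1664083874), (nat_lit 2233315634), (nat_lit 2712777366)], [(nat_lit 0), (nat_lit 0), (nat_lit 0)], [(nat_lit 21631019519), (nat_lit 22260793097), (nat_lit 24320337663), (nat_lit 24893581254), (nat_lit 26455769534), (nat_lit 26967230084), (nat_lit 28586863646), (nat_lit 29094659963)], (nat_lit 1271251),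 (nat_lit 1271251), (nat_lit 1271251), (nat_lit 1271251), (nat_lit 1271251), (nat_lit 1271251), [(nat_lit 490000), (nat_lit 1100000), (nat_lit 1442501)], [(nat_lit 3), (nat_lit 50), (nat_lit 203), (nat_lit 0), (nat_lit 6)]⟩,
 ⟨⟨[(nat_lit 120), (nat_lit 160), (nat_lit 180)], [(nat_lit 0), (nat_lit 533), (nat_lit 2066)], [((nat_lit 0), (nat_lit 0), (nat_lit 0)), ((nat_lit 960), (nat_lit 1000), (nat_lit 200)), ((nat_lit 615), (nat_lit 1000), (nat_lit 729))], ((nat_lit 100), (nat_lit 74), (nat_lit 60))⟩, (nat_lit 461692), (nat_lit 388), (nat_lit 388), (nat_lit 0), (nat_lit 112584), [(nat_lit 788832000), (nat_lit 1175328000), (nat_lit 1391742000)], [], [(nat_lit 3495325829), (nat_lit 3536212378), (nat_lit 3749756725), (nat_lit 3746442079), (nat_lit 3857213707), (nat_lit 2449183006), (nat_lit 2581602158), (nat_lit 2572024332)], (nat_lit 1271251), (nat_lit 1271251), (nat_lit 1271251), (nat_lit 1271251), (nat_lit 0), (nat_lit 780000), [(nat_lit 1695001), (nat_lit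 1271251), (nat_lit 1271251)], [(nat_lit 28), (nat_lit 65), (nat_lit 401), (nat_lit 175), (nat_lit 9)]⟩,
 ⟨⟨[(nat_lit 140), (nat_lit 180), (nat_lit 200)], [(nat_lit 0), (nat_lit 0), (nat_lit 2835)], [((nat_lit 0), (nat_lit 0), (nat_lit 0)), ((nat_lit 0), (nat_lit 0), (nat_lit 0)), ((nat_lit 363), (nat_lit 1000), (nat_lit 798))], ((nat_lit 0), (nat_lit 0), (nat_lit 0))⟩, (nat_lit 13757), (nat_lit 300), (nat_lit 621), (nat_lit 3905000), (nat_lit 312476), [(nat_lit 492100000), (nat_lit 702900000), (nat_lit 820000000)], [], [(nat_lit 3406826348), (nat_lit 3252968061), (nat_lit 3333643978), (nat_lit 3187107013), (nat_lit 2822757407), (nat_lit 2677237699), (nat_lit 2716842437), (nat_lit 2561720676)], (nat_lit 780000), (nat_lit 1271251), (nat_lit 1271251), (nat_lit 1271251), (nat_lit 0), (nat_lit 780000), [(nat_lit 1977501), (nat_lit 1271251), (nat_lit 1271251)], [(nat_lit 32), (nat_lit 67), (nat_lit 401), (nat_lit 175), (nat_lit 9)]⟩⟩) (.dle (nat_lit 0))) (.trX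 (nat_lit 4) (nat_lit 0) (nat_lit 2) (nat_lit 66) (nat_lit 82) (nat_lit 100) (nat_lit 320) (.leaf ⟨(nat_lit 904), (nat_lit 58), (nat_lit 0), (nat_lit 38), (nat_lit 5878), (nat_lit 3661), (nat_lit 1323), (nat_lit 533), (nat_lit 0), (nat_lit 0), (nat_lit 226000), [((nat_lit 360), [((nat_lit 22), (nat_lit 0), (nat_lit 904))])], ⟨(nat_lit 5), false, true, true, (nat_lit 225), (nat_lit 3162), (nat_lit 3536), [(nat_lit 1478046), (nat_lit 1477844), (nat_lit 1521944), (nat_lit 1522146), (nat_lit 1603569), (nat_lit 1599750), (nat_lit 1647474), (nat_lit 1644060)]⟩, ⟨(nat_lit 5), false, false, true, (nat_lit 215), (nat_lit 3162), (nat_lit 3536), [(nat_lit 1412188), (nat_lit 1411379), (nat_lit 1478046), (nat_lit 1477844), (nat_lit 1600472), (nat_lit 1594239), (nat_lit 1666330), (nat_lit 1660704)]⟩, (nat_lit 5178296), (nat_lit 39641310), (nat_lit 14161860), (nat_lit 13196830), (nat_lit 5), (nat_lit 0), [], [⟨(nat_lit 1), (nat_lit 94), (nat_lit 65), (nat_lit 100), (nat_lit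 106288971)⟩], [], [⟨(nat_lit 0), (nat_lit 97), (nat_lit 100), (nat_lit 49), (nat_lit 80997574)⟩],
 ⟨⟨[(nat_lit 40), (nat_lit 80), (nat_lit 100)], [(nat_lit 0), (nat_lit 1195), (nat_lit 2166)], [((nat_lit 0), (nat_lit 0), (nat_lit 0)), ((nat_lit 1000), (nat_lit 720), (nat_lit 465)), ((nat_lit 1000), (nat_lit 662), (nat_lit 740))], ((nat_lit 67), (nat_lit 100), (nat_lit 68))⟩, (nat_lit 518779), (nat_lit 106), (nat_lit 106), (nat_lit 0), (nat_lit 128837), [(nat_lit 1590080102), (nat_lit 2381723570), (nat_lit 2707043200)], [(nat_lit 0), (nat_lit 0), (nat_lit 0)], [(nat_lit 22732104005), (nat_lit 23304635337), (nat_lit 25083852383), (nat_lit 25578983343), (nat_lit 26513970455), (nat_lit 26993458253), (nat_lit 28386309149), (nat_lit 28892243548)], (nat_lit 1271251), (nat_lit 1271251), (nat_lit 1271251), (nat_lit 1271251), (nat_lit 1271251), (nat_lit 1271251), [(nat_lit 490000), (nat_lit 1100000), (nat_lit 1442501)], [(nat_lit 3), (nat_lit 50), (nat_lit 203),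 (nat_lit 0), (nat_lit 6)]⟩,
 ⟨⟨[(nat_lit 120), (nat_lit 160), (nat_lit 180)], [(nat_lit 0), (nat_lit 533), (nat_lit 2066)], [((nat_lit 0), (nat_lit 0), (nat_lit 0)), ((nat_lit 960), (nat_lit 1000), (nat_lit 200)), ((nat_lit 615), (nat_lit 1000), (nat_lit 729))], ((nat_lit 100), (nat_lit 67), (nat_lit 68))⟩, (nat_lit 320180), (nat_lit 487), (nat_lit 487), (nat_lit 0), (nat_lit 316721), [(nat_lit 764928000), (nat_lit 1139712000), (nat_lit 1349568000)], [], [(nat_lit 3684530802), (nat_lit 3693793581), (nat_lit 3853452328), (nat_lit 3827929572), (nat_lit 3752656289), (nat_lit 2632572305), (nat_lit 2780825620), (nat_lit 2777512844)], (nat_lit 1271251), (nat_lit 1271251), (nat_lit 1271251), (nat_lit 1271251), (nat_lit 0), (nat_lit 780000), [(nat_lit 1695001), (nat_lit 1271251), (nat_lit 1271251)], [(nat_lit 28), (nat_lit 65), (nat_lit 401), (nat_lit 175), (nat_lit 9)]⟩,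
 ⟨⟨[(nat_lit 140), (nat_lit 180), (nat_lit 200)], [(nat_lit 0), (nat_lit 0), (nat_lit 2835)], [((nat_lit 0), (nat_lit 0), (nat_lit 0)), ((nat_lit 0), (nat_lit 0), (nat_lit 0)), ((nat_lit 363), (nat_lit 1000), (nat_lit 798))], ((nat_lit 0), (nat_lit 0), (nat_lit 0))⟩, (nat_lit 10455), (nat_lit 300), (nat_lit 875), (nat_lit 2967801), (nat_lit 874609), [(nat_lit 373996000), (nat_lit 534204000), (nat_lit 623200000)], [], [(nat_lit 2582477012), (nat_lit 2463721337), (nat_lit 2518608256), (nat_lit 2407502373), (nat_lit 2132594919), (nat_lit 2020264510), (nat_lit 2047318770), (nat_lit 1927559689)], (nat_lit 780000), (nat_lit 1271251), (nat_lit 1271251), (nat_lit 1271251), (nat_lit 0), (nat_lit 780000), [(nat_lit 1977501), (nat_lit 1271251), (nat_lit 1271251)], [(nat_lit 32), (nat_lit 67), (nat_lit 401), (nat_lit 175), (nat_lit 9)]⟩⟩))) (.trZ (nat_lit 3) (nat_lit 4) (nat_lit 5) (nat_lit 100) (nat_lit 92) (nat_lit 40) (nat_lit 10) (.leaf ⟨(nat_lit 772), (nat_lit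 158), (nat_lit 0), (nat_lit 70), (nat_lit 0), (nat_lit 4685), (nat_lit 2772), (nat_lit 1104), (nat_lit 0), (nat_lit 0), (nat_lit 193000), [((nat_lit 360), [((nat_lit 22), (nat_lit 0), (nat_lit 772))])], ⟨(nat_lit 7), false, true, true, (nat_lit 275), (nat_lit 3162), (nat_lit 3873), [(nat_lit 1607248), (nat_lit 1599750), (nat_lit 1650835), (nat_lit 1644060), (nat_lit 1736292), (nat_lit 1721657), (nat_lit 1779878), (nat_lit 1765967)]⟩, ⟨(nat_lit 5), false, false, true, (nat_lit 219), (nat_lit 3162), (nat_lit 3873), [(nat_lit 1412825), (nat_lit 1411379), (nat_lit 1478205), (nat_lit 1477844), (nat_lit 1622521), (nat_lit 1609477), (nat_lit 1687900), (nat_lit 1675942)]⟩, (nat_lit 5424379), (nat_lit 35986477), (nat_lit 18359455), (nat_lit 12654068), (nat_lit 5), (nat_lit 0), [], [], [], [⟨(nat_lit 0), (nat_lit 100), (nat_lit 85), (nat_lit 87), (nat_lit 182479817)⟩],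
 ⟨⟨[(nat_lit 40), (nat_lit 80), (nat_lit 100)], [(nat_lit 0), (nat_lit 795), (nat_lit 1829)], [((nat_lit 0), (nat_lit 0), (nat_lit 0)), ((nat_lit 1000), (nat_lit 814), (nat_lit 310)), ((nat_lit 1000), (nat_lit 714), (nat_lit 692))], ((nat_lit 71), (nat_lit 100), (nat_lit 67))⟩, (nat_lit 4106), (nat_lit 119), (nat_lit 119), (nat_lit 0), (nat_lit 130762), [(nat_lit 1778815104), (nat_lit 2879100602), (nat_lit 3224377600)], [(nat_lit 0), (nat_lit 0), (nat_lit 0)], [(nat_lit 25491738481), (nat_lit 26663145071), (nat_lit 29140869499), (nat_lit 30101913576), (nat_lit 29452010056), (nat_lit 30345578485), (nat_lit 32586794601), (nat_lit 33482983325)], (nat_lit 1271251), (nat_lit 1271251), (nat_lit 1271251), (nat_lit 1271251), (nat_lit 1271251), (nat_lit 1271251), [(nat_lit 490000), (nat_lit 1100000), (nat_lit 1442501)], [(nat_lit 3), (nat_lit 50), (nat_lit 203), (nat_lit 0), (nat_lit 6)]⟩,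
 ⟨⟨[(nat_lit 120), (nat_lit 160), (nat_lit 180)], [(nat_lit 0), (nat_lit 533), (nat_lit 2066)], [((nat_lit 0), (nat_lit 0), (nat_lit 0)), ((nat_lit 960), (nat_lit 1000), (nat_lit 200)), ((nat_lit 615), (nat_lit 1000), (nat_lit 729))], ((nat_lit 100), (nat_lit 67), (nat_lit 68))⟩, (nat_lit 819505), (nat_lit 465), (nat_lit 465), (nat_lit 0), (nat_lit 316721), [(nat_lit 1816704000), (nat_lit 2706816000), (nat_lit 3205224000)], [], [(nat_lit 9002650511), (nat_lit 9031218459), (nat_lit 10060477349), (nat_lit 9987344959), (nat_lit 7088996171), (nat_lit 7104244301), (nat_lit 8025989696), (nat_lit 7949358356)], (nat_lit 1271251), (nat_lit 1271251), (nat_lit 1271251), (nat_lit 1271251), (nat_lit 54688), (nat_lit 780000), [(nat_lit 1695001), (nat_lit 1271251), (nat_lit 1271251)], [(nat_lit 28), (nat_lit 65), (nat_lit 401), (nat_lit 175), (nat_lit 9)]⟩,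
 ⟨⟨[(nat_lit 140), (nat_lit 180), (nat_lit 200)], [(nat_lit 0), (nat_lit 0), (nat_lit 2835)], [((nat_lit 0), (nat_lit 0), (nat_lit 0)), ((nat_lit 0), (nat_lit 0), (nat_lit 0)), ((nat_lit 363), (nat_lit 1000), (nat_lit 798))], ((nat_lit 0), (nat_lit 0), (nat_lit 0))⟩, (nat_lit 19259), (nat_lit 300), (nat_lit 867), (nat_lit 5467004), (nat_lit 874609), [(nat_lit 688940000), (nat_lit 984060000), (nat_lit 1148000000)], [], [(nat_lit 4535336989), (nat_lit 4330463626), (nat_lit 4601615530), (nat_lit 4360357632), (nat_lit 3682964776), (nat_lit 3523254412), (nat_lit 3675332020), (nat_lit 3449579850)], (nat_lit 780000), (nat_lit 1271251), (nat_lit 1271251), (nat_lit 1271251), (nat_lit 54688), (nat_lit 780000), [(nat_lit 1977501), (nat_lit 1271251), (nat_lit 1271251)], [(nat_lit 32), (nat_lit 67), (nat_lit 401), (nat_lit 175), (nat_lit 9)]⟩⟩))) (.dle (nat_lit 0)))) (.spl (nat_lit 0) (nat_lit 350) (.spl (nat_lit 6) (nat_lit 48) (.leaf ⟨(nat_lit 0), (nat_lit 881),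 (nat_lit 0), (nat_lit 119), (nat_lit 0), (nat_lit 7214), (nat_lit 13535), (nat_lit 1865), (nat_lit 0), (nat_lit 0), (nat_lit 0), [], Pd.none, Pd.none, (nat_lit 0), (nat_lit 1), (nat_lit 0), (nat_lit 0), (nat_lit 5), (nat_lit 0), [], [⟨(nat_lit 1), (nat_lit 90), (nat_lit 71), (nat_lit 100), (nat_lit 1236024)⟩], [], [⟨(nat_lit 0), (nat_lit 100), (nat_lit 96), (nat_lit 74), (nat_lit 457237628)⟩],
 ⟨⟨[(nat_lit 40), (nat_lit 80), (nat_lit 100)], [(nat_lit 0), (nat_lit 795), (nat_lit 1829)], [((nat_lit 0), (nat_lit 0), (nat_lit 0)), ((nat_lit 1000), (nat_lit 814), (nat_lit 310)), ((nat_lit 1000), (nat_lit 714), (nat_lit 692))], ((nat_lit 72), (nat_lit 100), (nat_lit 65))⟩, (nat_lit 87398), (nat_lit 110), (nat_lit 110), (nat_lit 0), (nat_lit 97663), [(nat_lit 2678849781), (nat_lit 5395514120), (nat_lit 6250000000)], [], [(nat_lit 23713662578), (nat_lit 24597639094), (nat_lit 32249274826), (nat_lit 32968078021), (nat_lit 29244724996), (nat_lit 29892866915), (nat_lit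 35978084191), (nat_lit 36502213909)], (nat_lit 1271251), (nat_lit 1271251), (nat_lit 1271251), (nat_lit 1271251), (nat_lit 1271251), (nat_lit 1271251), [(nat_lit 490000), (nat_lit 1100000), (nat_lit 1442501)], [(nat_lit 3), (nat_lit 50), (nat_lit 203), (nat_lit 0), (nat_lit 6)]⟩,
 ⟨⟨[(nat_lit 100), (nat_lit 140), (nat_lit 160)], [(nat_lit 0), (nat_lit 508), (nat_lit 1689)], [((nat_lit 0), (nat_lit 0), (nat_lit 0)), ((nat_lit 1000), (nat_lit 1000), (nat_lit 198)), ((nat_lit 811), (nat_lit 1000), (nat_lit 671))], ((nat_lit 100), (nat_lit 83), (nat_lit 65))⟩, (nat_lit 4608508), (nat_lit 352), (nat_lit 352), (nat_lit 0), (nat_lit 181935), [(nat_lit 6250000000), (nat_lit 9842000000), (nat_lit 11872000000)], [], [(nat_lit 26268129227), (nat_lit 26711435262), (nat_lit 45537143040), (nat_lit 46266428050), (nat_lit 16591985495), (nat_lit 17080237707), (nat_lit 30898372890), (nat_lit 31652480317)], (nat_lit 1271251), (nat_lit 1271251), (nat_lit 1271251), (nat_lit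 1271251), (nat_lit 0), (nat_lit 780000), [(nat_lit 1412501), (nat_lit 1271251), (nat_lit 1271251)], [(nat_lit 23), (nat_lit 62), (nat_lit 428), (nat_lit 200), (nat_lit 11)]⟩,
 ⟨⟨[(nat_lit 140), (nat_lit 180), (nat_lit 200)], [(nat_lit 0), (nat_lit 0), (nat_lit 2835)], [((nat_lit 0), (nat_lit 0), (nat_lit 0)), ((nat_lit 0), (nat_lit 0), (nat_lit 0)), ((nat_lit 363), (nat_lit 1000), (nat_lit 798))], ((nat_lit 0), (nat_lit 0), (nat_lit 0))⟩, (nat_lit 32741), (nat_lit 300), (nat_lit 744), (nat_lit 9293900), (nat_lit 600386), [(nat_lit 1171198000), (nat_lit 1672902000), (nat_lit 1951600000)], [], [(nat_lit 7879429794), (nat_lit 7531255483), (nat_lit 7993701039), (nat_lit 7583371621), (nat_lit 6284750511), (nat_lit 5986945153), (nat_lit 6256970177), (nat_lit 5876350307)], (nat_lit 780000), (nat_lit 1271251), (nat_lit 1271251), (nat_lit 1271251), (nat_lit 0), (nat_lit 780000), [(nat_lit 1977501), (nat_lit 1271251), (nat_lit 1271251)], [(nat_lit 32), (nat_lit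 67), (nat_lit 401), (nat_lit 175), (nat_lit 9)]⟩⟩) (.dle (nat_lit 0))) (.trX (nat_lit 3) (nat_lit 0) (nat_lit 1) (nat_lit 68) (nat_lit 61) (nat_lit 100) (nat_lit 360) (.trX (nat_lit 4) (nat_lit 0) (nat_lit 2) (nat_lit 66) (nat_lit 82) (nat_lit 100) (nat_lit 320) (.leaf ⟨(nat_lit 0), (nat_lit 1000), (nat_lit 0), (nat_lit 0), (nat_lit 2565), (nat_lit 7456), (nat_lit 11457), (nat_lit 0), (nat_lit 0), (nat_lit 0), (nat_lit 0), [], Pd.none, Pd.none, (nat_lit 0), (nat_lit 1), (nat_lit 0), (nat_lit 0), (nat_lit 5), (nat_lit 0), [], [⟨(nat_lit 1), (nat_lit 94), (nat_lit 65), (nat_lit 100), (nat_lit 452055731)⟩], [], [⟨(nat_lit 0), (nat_lit 100), (nat_lit 96), (nat_lit 69), (nat_lit 205439974)⟩],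
 ⟨⟨[(nat_lit 40), (nat_lit 80), (nat_lit 100)], [(nat_lit 0), (nat_lit 1195), (nat_lit 2166)], [((nat_lit 0), (nat_lit 0), (nat_lit 0)), ((nat_lit 1000), (nat_lit 720), (nat_lit 465)), ((nat_lit 1000), (nat_lit 662), (nat_lit 740))], ((nat_lit 66), (nat_lit 100), (nat_lit 72))⟩, (nat_lit 0), (nat_lit 130), (nat_lit 130), (nat_lit 0), (nat_lit 172095), [(nat_lit 2792068081), (nat_lit 5447893478), (nat_lit 6250000000)], [], [(nat_lit 24586040991), (nat_lit 25488872604), (nat_lit 32460277326), (nat_lit 33218702920), (nat_lit 29323733800), (nat_lit 30185000544), (nat_lit 35702961588), (nat_lit 36271276896)], (nat_lit 1271251), (nat_lit 1271251), (nat_lit 1271251), (nat_lit 1271251), (nat_lit 1271251), (nat_lit 1271251), [(nat_lit 490000), (nat_lit 1100000), (nat_lit 1442501)], [(nat_lit 3), (nat_lit 50), (nat_lit 203), (nat_lit 0), (nat_lit 6)]⟩,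
 ⟨⟨[(nat_lit 100), (nat_lit 140), (nat_lit 180)], [(nat_lit 0), (nat_lit 508), (nat_lit 2854)], [((nat_lit 0), (nat_lit 0), (nat_lit 0)), ((nat_lit 1000), (nat_lit 1000), (nat_lit 198)), ((nat_lit 777), (nat_lit 1000), (nat_lit 712))], ((nat_lit 100), (nat_lit 77), (nat_lit 72))⟩, (nat_lit 4703732), (nat_lit 470), (nat_lit 470), (nat_lit 0), (nat_lit 341490), [(nat_lit 6250000000), (nat_lit 9842000000), (nat_lit 14058000000)], [], [(nat_lit 28026774132), (nat_lit 28593870466), (nat_lit 39186374004), (nat_lit 39985173012), (nat_lit 20257657438), (nat_lit 20743047205), (nat_lit 28452909286), (nat_lit 28808765887)], (nat_lit 1271251), (nat_lit 1271251), (nat_lit 1271251), (nat_lit 1271251), (nat_lit 0), (nat_lit 780000), [(nat_lit 1412501), (nat_lit 1271251), (nat_lit 1271251)], [(nat_lit 24), (nat_lit 63), (nat_lit 428), (nat_lit 200), (nat_lit 10)]⟩,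
 Rw.none⟩)))))
noncomputable def c7_41 : Tr Lf :=
 (.spl (nat_lit 1) (nat_lit 220) (.trX (nat_lit 3) (nat_lit 0) (nat_lit 1) (nat_lit 72) (nat_lit 63) (nat_lit 100) (nat_lit 360) (.spl (nat_lit 6) (nat_lit 52) (.spl (nat_lit 3) (nat_lit 280) (.leaf ⟨(nat_lit 899), (nat_lit 50), (nat_lit 0), (nat_lit 51), (nat_lit 2683), (nat_lit 4347), (nat_lit 1408), (nat_lit 629), (nat_lit 0), (nat_lit 0), (nat_lit 224750), [((nat_lit 360), [((nat_lit 22), (nat_lit 0), (nat_lit 899))])], ⟨(nat_lit 5), false, true, true, (nat_lit 225), (nat_lit 3162), (nat_lit 3873), [(nat_lit 1478205), (nat_lit 1477844), (nat_lit 1521764), (nat_lit 1522126), (nat_lit 1607248), (nat_lit 1599750), (nat_lit 1650835), (nat_lit 1644060)]⟩, ⟨(nat_lit 5), false, false, true, (nat_lit 219), (nat_lit 3162), (nat_lit 3873), [(nat_lit 1412825), (nat_lit 1411379), (nat_lit 1478205), (nat_lit 1477844), (nat_lit 1622521), (nat_lit 1609477), (nat_lit 1687900), (nat_lit 1675942)]⟩, (nat_lit 5203449),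 (nat_lit 39367783), (nat_lit 14129977), (nat_lit 13502240), (nat_lit 5), (nat_lit 0), [], [⟨(nat_lit 1), (nat_lit 92), (nat_lit 68), (nat_lit 100), (nat_lit 154405997)⟩], [], [],
 ⟨⟨[(nat_lit 40), (nat_lit 80), (nat_lit 100)], [(nat_lit 0), (nat_lit 795), (nat_lit 1829)], [((nat_lit 0), (nat_lit 0), (nat_lit 0)), ((nat_lit 1000), (nat_lit 814), (nat_lit 310)), ((nat_lit 1000), (nat_lit 714), (nat_lit 692))], ((nat_lit 71), (nat_lit 100), (nat_lit 67))⟩, (nat_lit 0), (nat_lit 110), (nat_lit 110), (nat_lit 0), (nat_lit 130762), [(nat_lit 1724034407), (nat_lit 2494191297), (nat_lit 2726639200)], [(nat_lit 0), (nat_lit 0), (nat_lit 0)], [(nat_lit 22604706330), (nat_lit 23925902636), (nat_lit 25224261081), (nat_lit 26354241039), (nat_lit 27296617200), (nat_lit 28302872575), (nat_lit 29129968471), (nat_lit 30016609007)], (nat_lit 1271251), (nat_lit 1271251), (nat_lit 1271251), (nat_lit 1271251), (nat_lit 1271251), (nat_lit 1271251), [(nat_lit 490000), (nat_lit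 1100000), (nat_lit 1442501)], [(nat_lit 3), (nat_lit 50), (nat_lit 203), (nat_lit 0), (nat_lit 6)]⟩,
 ⟨⟨[(nat_lit 120), (nat_lit 160), (nat_lit 180)], [(nat_lit 0), (nat_lit 533), (nat_lit 2066)], [((nat_lit 0), (nat_lit 0), (nat_lit 0)), ((nat_lit 960), (nat_lit 1000), (nat_lit 200)), ((nat_lit 615), (nat_lit 1000), (nat_lit 729))], ((nat_lit 100), (nat_lit 67), (nat_lit 68))⟩, (nat_lit 314296), (nat_lit 411), (nat_lit 411), (nat_lit 0), (nat_lit 394241), [(nat_lit 804768000), (nat_lit 1199072000), (nat_lit 1419858000)], [], [(nat_lit 4254321480), (nat_lit 2806017535), (nat_lit 2952331029), (nat_lit 2921440388), (nat_lit 5383279640), (nat_lit 4046979224), (nat_lit 3906150539), (nat_lit 3922889605)], (nat_lit 1271251), (nat_lit 1271251), (nat_lit 1271251), (nat_lit 1271251), (nat_lit 780000), (nat_lit 3072501), [(nat_lit 1695001), (nat_lit 1271251), (nat_lit 1271251)], [(nat_lit 28), (nat_lit 65), (nat_lit 456), (nat_lit 225), (nat_lit 10)]⟩,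
 ⟨⟨[(nat_lit 140), (nat_lit 180), (nat_lit 200)], [(nat_lit 0), (nat_lit 0), (nat_lit 2835)], [((nat_lit 0), (nat_lit 0), (nat_lit 0)), ((nat_lit 0), (nat_lit 0), (nat_lit 0)), ((nat_lit 363), (nat_lit 1000), (nat_lit 798))], ((nat_lit 0), (nat_lit 0), (nat_lit 0))⟩, (nat_lit 14032), (nat_lit 300), (nat_lit 948), (nat_lit 3983100), (nat_lit 1254178), [(nat_lit 501942000), (nat_lit 716958000), (nat_lit 836400000)], [], [(nat_lit 3096612033), (nat_lit 2956735897), (nat_lit 2951958098), (nat_lit 2814292944), (nat_lit 2785673006), (nat_lit 2879328828), (nat_lit 2678987483), (nat_lit 2533653189)], (nat_lit 780000), (nat_lit 1271251), (nat_lit 1271251), (nat_lit 1271251), (nat_lit 780000), (nat_lit 3072501), [(nat_lit 1977501), (nat_lit 1271251), (nat_lit 1271251)], [(nat_lit 32), (nat_lit 67), (nat_lit 483), (nat_lit 250), (nat_lit 10)]⟩⟩) (.leaf ⟨(nat_lit 445), (nat_lit 381), (nat_lit 0), (nat_lit 174), (nat_lit 0), (nat_lit 3746), (nat_lit 5863), (nat_lit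 2032), (nat_lit 0), (nat_lit 0), (nat_lit 235500), [((nat_lit 360), [((nat_lit 22), (nat_lit 0), (nat_lit 90)), ((nat_lit 39), (nat_lit 2), (nat_lit 355))])], ⟨(nat_lit 7), false, true, true, (nat_lit 275), (nat_lit 3162), (nat_lit 3873), [(nat_lit 1607248), (nat_lit 1599750), (nat_lit 1650835), (nat_lit 1644060), (nat_lit 1736292), (nat_lit 1721657), (nat_lit 1779878), (nat_lit 1765967)]⟩, ⟨(nat_lit 5), false, false, true, (nat_lit 219), (nat_lit 3162), (nat_lit 3873), [(nat_lit 1412825), (nat_lit 1411379), (nat_lit 1478205), (nat_lit 1477844), (nat_lit 1622521), (nat_lit 1609477), (nat_lit 1687900), (nat_lit 1675942)]⟩, (nat_lit 5424379), (nat_lit 35986477), (nat_lit 18359455), (nat_lit 12654068), (nat_lit 5), (nat_lit 0), [⟨(nat_lit 1), (nat_lit 75), (nat_lit 66), (nat_lit 100), (nat_lit 61943212)⟩], [⟨(nat_lit 1), (nat_lit 92), (nat_lit 68), (nat_lit 100), (nat_lit 185829191)⟩], [], [],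
 ⟨⟨[(nat_lit 40), (nat_lit 80), (nat_lit 100)], [(nat_lit 0), (nat_lit 795), (nat_lit 1829)], [((nat_lit 0), (nat_lit 0), (nat_lit 0)), ((nat_lit 1000), (nat_lit 814), (nat_lit 310)), ((nat_lit 1000), (nat_lit 714), (nat_lit 692))], ((nat_lit 71), (nat_lit 100), (nat_lit 67))⟩, (nat_lit 1057936), (nat_lit 119), (nat_lit 119), (nat_lit 0), (nat_lit 130762), [(nat_lit 1661742932), (nat_lit 3080821295), (nat_lit 3798086000)], [(nat_lit 0), (nat_lit 0), (nat_lit 0)], [(nat_lit 24821957200), (nat_lit 25821461459), (nat_lit 28114713167), (nat_lit 28993330416), (nat_lit 28565504622), (nat_lit 29432323117), (nat_lit 31542401652), (nat_lit 32368685288)], (nat_lit 1271251), (nat_lit 1271251), (nat_lit 1271251), (nat_lit 1271251), (nat_lit 1271251), (nat_lit 1271251), [(nat_lit 490000), (nat_lit 1100000), (nat_lit 1442501)], [(nat_lit 3), (nat_lit 50), (nat_lit 203), (nat_lit 0), (nat_lit 6)]⟩,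
 ⟨⟨[(nat_lit 120), (nat_lit 160), (nat_lit 180)], [(nat_lit 0), (nat_lit 533), (nat_lit 2066)], [((nat_lit 0), (nat_lit 0), (nat_lit 0)), ((nat_lit 960), (nat_lit 1000), (nat_lit 200)), ((nat_lit 615), (nat_lit 1000), (nat_lit 729))], ((nat_lit 100), (nat_lit 67), (nat_lit 68))⟩, (nat_lit 1401391), (nat_lit 407), (nat_lit 407), (nat_lit 0), (nat_lit 394241), [(nat_lit 4422240000), (nat_lit 6588960000), (nat_lit 7802190000)], [], [(nat_lit 19596310829), (nat_lit 19574992128), (nat_lit 21405154208), (nat_lit 21214950237), (nat_lit 21443297274), (nat_lit 21093487378), (nat_lit 22643272327), (nat_lit 22461730340)], (nat_lit 1271251), (nat_lit 1271251), (nat_lit 1271251), (nat_lit 1271251), (nat_lit 780000), (nat_lit 3072501), [(nat_lit 1695001), (nat_lit 1271251), (nat_lit 1271251)], [(nat_lit 28), (nat_lit 65), (nat_lit 483), (nat_lit 250), (nat_lit 11)]⟩,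
 ⟨⟨[(nat_lit 140), (nat_lit 180), (nat_lit 200)], [(nat_lit 0), (nat_lit 0), (nat_lit 2835)], [((nat_lit 0), (nat_lit 0), (nat_lit 0)), ((nat_lit 0), (nat_lit 0), (nat_lit 0)), ((nat_lit 363), (nat_lit 1000), (nat_lit 798))], ((nat_lit 0), (nat_lit 0), (nat_lit 0))⟩, (nat_lit 47873), (nat_lit 300), (nat_lit 948), (nat_lit 13589401), (nat_lit 1254178), [(nat_lit 1712508000), (nat_lit 2446092000), (nat_lit 2853600000)], [], [(nat_lit 10981289234), (nat_lit 10536527781), (nat_lit 10487878324), (nat_lit 10024945647), (nat_lit 9820564888), (nat_lit 9655685520), (nat_lit 9321785893), (nat_lit 8838752945)], (nat_lit 780000), (nat_lit 1271251), (nat_lit 1271251), (nat_lit 1271251), (nat_lit 780000), (nat_lit 3072501), [(nat_lit 1977501), (nat_lit 1271251), (nat_lit 1271251)], [(nat_lit 32), (nat_lit 67), (nat_lit 483), (nat_lit 250), (nat_lit 10)]⟩⟩)) (.dle (nat_lit 0)))) (.spl (nat_lit 3) (nat_lit 280) (.spl (nat_lit 0) (nat_lit 350) (.spl (nat_lit 6) (nat_lit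 48) (.leaf ⟨(nat_lit 0), (nat_lit 583), (nat_lit 0), (nat_lit 417), (nat_lit 0), (nat_lit 4638), (nat_lit 7786), (nat_lit 4336), (nat_lit 0), (nat_lit 0), (nat_lit 0), [], Pd.none, Pd.none, (nat_lit 0), (nat_lit 1), (nat_lit 0), (nat_lit 0), (nat_lit 5), (nat_lit 0), [], [⟨(nat_lit 1), (nat_lit 90), (nat_lit 71), (nat_lit 100), (nat_lit 116838921)⟩], [], [],
 ⟨⟨[(nat_lit 40), (nat_lit 80), (nat_lit 100)], [(nat_lit 0), (nat_lit 795), (nat_lit 1829)], [((nat_lit 0), (nat_lit 0), (nat_lit 0)), ((nat_lit 1000), (nat_lit 814), (nat_lit 310)), ((nat_lit 1000), (nat_lit 714), (nat_lit 692))], ((nat_lit 72), (nat_lit 100), (nat_lit 65))⟩, (nat_lit 1962920), (nat_lit 88), (nat_lit 88), (nat_lit 0), (nat_lit 97663), [(nat_lit 2134255500), (nat_lit 4688002534), (nat_lit 6250000000)], [], [(nat_lit 22309049652), (nat_lit 22992320670), (nat_lit 24965664344), (nat_lit 25548487385), (nat_lit 27086134258), (nat_lit 27604242416), (nat_lit 29206792780), (nat_lit 29753154466)],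 (nat_lit 1271251), (nat_lit 1271251), (nat_lit 1271251), (nat_lit 1271251), (nat_lit 1271251), (nat_lit 1271251), [(nat_lit 490000), (nat_lit 1100000), (nat_lit 1442501)], [(nat_lit 3), (nat_lit 50), (nat_lit 203), (nat_lit 0), (nat_lit 6)]⟩,
 ⟨⟨[(nat_lit 100), (nat_lit 140), (nat_lit 160)], [(nat_lit 0), (nat_lit 508), (nat_lit 1689)], [((nat_lit 0), (nat_lit 0), (nat_lit 0)), ((nat_lit 1000), (nat_lit 1000), (nat_lit 198)), ((nat_lit 811), (nat_lit 1000), (nat_lit 671))], ((nat_lit 100), (nat_lit 83), (nat_lit 65))⟩, (nat_lit 13416), (nat_lit 227), (nat_lit 227), (nat_lit 0), (nat_lit 223253), [(nat_lit 6250000000), (nat_lit 9842000000), (nat_lit 11872000000)], [], [(nat_lit 34156142943), (nat_lit 30006102216), (nat_lit 32284497414), (nat_lit 32664512712), (nat_lit 38584388759), (nat_lit 38693785688), (nat_lit 39720541571), (nat_lit 39734548572)], (nat_lit 1271251), (nat_lit 1271251), (nat_lit 1271251), (nat_lit 1271251), (nat_lit 780000), (nat_lit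 3072501), [(nat_lit 1412501), (nat_lit 1271251), (nat_lit 1271251)], [(nat_lit 23), (nat_lit 62), (nat_lit 483), (nat_lit 250), (nat_lit 12)]⟩,
 ⟨⟨[(nat_lit 140), (nat_lit 180), (nat_lit 200)], [(nat_lit 0), (nat_lit 0), (nat_lit 2835)], [((nat_lit 0), (nat_lit 0), (nat_lit 0)), ((nat_lit 0), (nat_lit 0), (nat_lit 0)), ((nat_lit 363), (nat_lit 1000), (nat_lit 798))], ((nat_lit 0), (nat_lit 0), (nat_lit 0))⟩, (nat_lit 114730), (nat_lit 300), (nat_lit 774), (nat_lit 32567703), (nat_lit 891026), [(nat_lit 4104114000), (nat_lit 5862186000), (nat_lit 6838800000)], [], [(nat_lit 27442173085), (nat_lit 26562113249), (nat_lit 26585901274), (nat_lit 25658264831), (nat_lit 25250880168), (nat_lit 24285575850), (nat_lit 24041377602), (nat_lit 23049946307)], (nat_lit 780000), (nat_lit 1271251), (nat_lit 1271251), (nat_lit 1271251), (nat_lit 780000), (nat_lit 3072501), [(nat_lit 1977501), (nat_lit 1271251), (nat_lit 1271251)], [(nat_lit 32), (nat_lit 67), (nat_lit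 483), (nat_lit 250), (nat_lit 10)]⟩⟩) (.dle (nat_lit 0))) (.trX (nat_lit 4) (nat_lit 0) (nat_lit 2) (nat_lit 66) (nat_lit 82) (nat_lit 100) (nat_lit 320) (.leaf ⟨(nat_lit 807), (nat_lit 129), (nat_lit 0), (nat_lit 64), (nat_lit 1432), (nat_lit 4661), (nat_lit 1732), (nat_lit 752), (nat_lit 0), (nat_lit 0), (nat_lit 201750), [((nat_lit 360), [((nat_lit 22), (nat_lit 0), (nat_lit 807))])], ⟨(nat_lit 5), false, true, true, (nat_lit 238), (nat_lit 3162), (nat_lit 3536), [(nat_lit 1521944), (nat_lit 1522146), (nat_lit 1543888), (nat_lit 1544293), (nat_lit 1647474), (nat_lit 1644060), (nat_lit 1669427), (nat_lit 1666215)]⟩, ⟨(nat_lit 5), false, false, true, (nat_lit 215), (nat_lit 3162), (nat_lit 3536), [(nat_lit 1412188), (nat_lit 1411379), (nat_lit 1478046), (nat_lit 1477844), (nat_lit 1600472), (nat_lit 1594239), (nat_lit 1666330), (nat_lit 1660704)]⟩, (nat_lit 5250413), (nat_lit 38731057), (nat_lit 15281844), (nat_lit 12987099), (nat_lit 5), (nat_lit 0),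 [], [⟨(nat_lit 1), (nat_lit 94), (nat_lit 65), (nat_lit 100), (nat_lit 217808975)⟩], [], [],
 ⟨⟨[(nat_lit 40), (nat_lit 80), (nat_lit 100)], [(nat_lit 0), (nat_lit 1195), (nat_lit 2166)], [((nat_lit 0), (nat_lit 0), (nat_lit 0)), ((nat_lit 1000), (nat_lit 720), (nat_lit 465)), ((nat_lit 1000), (nat_lit 662), (nat_lit 740))], ((nat_lit 66), (nat_lit 100), (nat_lit 72))⟩, (nat_lit 235675), (nat_lit 119), (nat_lit 119), (nat_lit 0), (nat_lit 172095), [(nat_lit 1807702834), (nat_lit 2765966781), (nat_lit 3087205600)], [(nat_lit 0), (nat_lit 0), (nat_lit 0)], [(nat_lit 22892940156), (nat_lit 23578003187), (nat_lit 25451653480), (nat_lit 26035886007), (nat_lit 27018029869), (nat_lit 27677189589), (nat_lit 29255768149), (nat_lit 29817911548)], (nat_lit 1271251), (nat_lit 1271251), (nat_lit 1271251), (nat_lit 1271251), (nat_lit 1271251), (nat_lit 1271251), [(nat_lit 490000), (nat_lit 1100000), (nat_lit 1442501)], [(nat_lit 3), (nat_lit 50), (nat_lit 203), (nat_lit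 0), (nat_lit 6)]⟩,
 ⟨⟨[(nat_lit 100), (nat_lit 140), (nat_lit 180)], [(nat_lit 0), (nat_lit 508), (nat_lit 2854)], [((nat_lit 0), (nat_lit 0), (nat_lit 0)), ((nat_lit 1000), (nat_lit 1000), (nat_lit 198)), ((nat_lit 777), (nat_lit 1000), (nat_lit 712))], ((nat_lit 100), (nat_lit 77), (nat_lit 72))⟩, (nat_lit 526126), (nat_lit 405), (nat_lit 405), (nat_lit 0), (nat_lit 415815), [(nat_lit 1206250000), (nat_lit 1899506000), (nat_lit 2713194000)], [], [(nat_lit 6824974686), (nat_lit 5901670600), (nat_lit 6070973412), (nat_lit 6093891564), (nat_lit 6739552409), (nat_lit 6709284524), (nat_lit 6843653808), (nat_lit 6820079852)], (nat_lit 1271251), (nat_lit 1271251), (nat_lit 1271251), (nat_lit 1271251), (nat_lit 780000), (nat_lit 3072501), [(nat_lit 1412501), (nat_lit 1271251), (nat_lit 1271251)], [(nat_lit 24), (nat_lit 63), (nat_lit 483), (nat_lit 250), (nat_lit 11)]⟩,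
 ⟨⟨[(nat_lit 140), (nat_lit 180), (nat_lit 200)], [(nat_lit 0), (nat_lit 0), (nat_lit 2835)], [((nat_lit 0), (nat_lit 0), (nat_lit 0)), ((nat_lit 0), (nat_lit 0), (nat_lit 0)), ((nat_lit 363), (nat_lit 1000), (nat_lit 798))], ((nat_lit 0), (nat_lit 0), (nat_lit 0))⟩, (nat_lit 17608), (nat_lit 300), (nat_lit 1143), (nat_lit 4998407), (nat_lit 1678214), [(nat_lit 629888000), (nat_lit 899712000), (nat_lit 1049600000)], [], [(nat_lit 4035333256), (nat_lit 3864831704), (nat_lit 3842803744), (nat_lit 3672061568), (nat_lit 3599400968), (nat_lit 3558288320), (nat_lit 3417261928), (nat_lit 3239124600)], (nat_lit 780000), (nat_lit 1271251), (nat_lit 1271251), (nat_lit 1271251), (nat_lit 780000), (nat_lit 3072501), [(nat_lit 1977501), (nat_lit 1271251), (nat_lit 1271251)], [(nat_lit 32), (nat_lit 67), (nat_lit 456), (nat_lit 225), (nat_lit 10)]⟩⟩))) (.spl (nat_lit 0) (nat_lit 350) (.spl (nat_lit 6) (nat_lit 48) (.leaf ⟨(nat_lit 0), (nat_lit 596), (nat_lit 0), (nat_lit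 404), (nat_lit 0), (nat_lit 4451), (nat_lit 8372), (nat_lit 4201), (nat_lit 0), (nat_lit 0), (nat_lit 0), [], Pd.none, Pd.none, (nat_lit 0), (nat_lit 1), (nat_lit 0), (nat_lit 0), (nat_lit 5), (nat_lit 0), [], [⟨(nat_lit 1), (nat_lit 90), (nat_lit 71), (nat_lit 100), (nat_lit 96666669)⟩], [], [],
 ⟨⟨[(nat_lit 40), (nat_lit 80), (nat_lit 100)], [(nat_lit 0), (nat_lit 795), (nat_lit 1829)], [((nat_lit 0), (nat_lit 0), (nat_lit 0)), ((nat_lit 1000), (nat_lit 814), (nat_lit 310)), ((nat_lit 1000), (nat_lit 714), (nat_lit 692))], ((nat_lit 72), (nat_lit 100), (nat_lit 65))⟩, (nat_lit 1856763), (nat_lit 110), (nat_lit 110), (nat_lit 0), (nat_lit 97663), [(nat_lit 2087894485), (nat_lit 4688000045), (nat_lit 6250000000)], [], [(nat_lit 25283063546), (nat_lit 25854426853), (nat_lit 29355285911), (nat_lit 29813060991), (nat_lit 29205559916), (nat_lit 29657720567), (nat_lit 32790482108), (nat_lit 33217582541)], (nat_lit 1271251), (nat_lit 1271251), (nat_lit 1271251),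 (nat_lit 1271251), (nat_lit 1271251), (nat_lit 1271251), [(nat_lit 490000), (nat_lit 1100000), (nat_lit 1442501)], [(nat_lit 3), (nat_lit 50), (nat_lit 203), (nat_lit 0), (nat_lit 6)]⟩,
 ⟨⟨[(nat_lit 100), (nat_lit 140), (nat_lit 160)], [(nat_lit 0), (nat_lit 508), (nat_lit 1689)], [((nat_lit 0), (nat_lit 0), (nat_lit 0)), ((nat_lit 1000), (nat_lit 1000), (nat_lit 198)), ((nat_lit 811), (nat_lit 1000), (nat_lit 671))], ((nat_lit 100), (nat_lit 83), (nat_lit 65))⟩, (nat_lit 2780365), (nat_lit 245), (nat_lit 245), (nat_lit 0), (nat_lit 223253), [(nat_lit 6250000000), (nat_lit 9842000000), (nat_lit 11872000000)], [], [(nat_lit 26634263241), (nat_lit 27008809987), (nat_lit 32283346921), (nat_lit 32530881953), (nat_lit 34861875905), (nat_lit 34846804707), (nat_lit 38224052874), (nat_lit 38230857742)], (nat_lit 1271251), (nat_lit 1271251), (nat_lit 1271251), (nat_lit 1271251), (nat_lit 780000), (nat_lit 3072501), [(nat_lit 1412501), (nat_lit 1271251), (nat_lit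 1271251)], [(nat_lit 23), (nat_lit 62), (nat_lit 538), (nat_lit 300), (nat_lit 13)]⟩,
 ⟨⟨[(nat_lit 140), (nat_lit 180), (nat_lit 200)], [(nat_lit 0), (nat_lit 0), (nat_lit 2835)], [((nat_lit 0), (nat_lit 0), (nat_lit 0)), ((nat_lit 0), (nat_lit 0), (nat_lit 0)), ((nat_lit 363), (nat_lit 1000), (nat_lit 798))], ((nat_lit 0), (nat_lit 0), (nat_lit 0))⟩, (nat_lit 111153), (nat_lit 300), (nat_lit 774), (nat_lit 31552407), (nat_lit 891026), [(nat_lit 3976168000), (nat_lit 5679432000), (nat_lit 6625600000)], [], [(nat_lit 26586040700), (nat_lit 25733367961), (nat_lit 25756396320), (nat_lit 24857628943), (nat_lit 24462905993), (nat_lit 23527644208), (nat_lit 23291330742), (nat_lit 22330457370)], (nat_lit 780000), (nat_lit 1271251), (nat_lit 1271251), (nat_lit 1271251), (nat_lit 780000), (nat_lit 3072501), [(nat_lit 1977501), (nat_lit 1271251), (nat_lit 1271251)], [(nat_lit 32), (nat_lit 67), (nat_lit 483), (nat_lit 250), (nat_lit 10)]⟩⟩) (.dle (nat_lit 0)))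 (.trX (nat_lit 3) (nat_lit 0) (nat_lit 1) (nat_lit 68) (nat_lit 61) (nat_lit 100) (nat_lit 360) (.trX (nat_lit 4) (nat_lit 0) (nat_lit 2) (nat_lit 66) (nat_lit 82) (nat_lit 100) (nat_lit 320) (.leaf ⟨(nat_lit 0), (nat_lit 797), (nat_lit 0), (nat_lit 203), (nat_lit 0), (nat_lit 4131), (nat_lit 9018), (nat_lit 2253), (nat_lit 0), (nat_lit 0), (nat_lit 0), [], Pd.none, Pd.none, (nat_lit 0), (nat_lit 1), (nat_lit 0), (nat_lit 0), (nat_lit 5), (nat_lit 0), [], [⟨(nat_lit 1), (nat_lit 94), (nat_lit 65), (nat_lit 100), (nat_lit 297947439)⟩], [⟨(nat_lit 1), (nat_lit 40), (nat_lit 100), (nat_lit 98), (nat_lit 116035241)⟩], [],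
 ⟨⟨[(nat_lit 40), (nat_lit 80), (nat_lit 100)], [(nat_lit 0), (nat_lit 1195), (nat_lit 2166)], [((nat_lit 0), (nat_lit 0), (nat_lit 0)), ((nat_lit 1000), (nat_lit 720), (nat_lit 465)), ((nat_lit 1000), (nat_lit 662), (nat_lit 740))], ((nat_lit 66), (nat_lit 100), (nat_lit 72))⟩, (nat_lit 1795660), (nat_lit 130), (nat_lit 130), (nat_lit 0), (nat_lit 172095), [(nat_lit 2032000001), (nat_lit 4688000002), (nat_lit 6250000000)], [], [(nat_lit 25675000236), (nat_lit 26196535974), (nat_lit 28934083587), (nat_lit 29431710795), (nat_lit 28894046529), (nat_lit 29327307508), (nat_lit 31991956520), (nat_lit 32430100571)], (nat_lit 1271251), (nat_lit 1271251), (nat_lit 1271251), (nat_lit 1271251), (nat_lit 1271251), (nat_lit 1271251), [(nat_lit 490000), (nat_lit 1100000), (nat_lit 1442501)], [(nat_lit 3), (nat_lit 50), (nat_lit 203), (nat_lit 0), (nat_lit 5)]⟩,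
 ⟨⟨[(nat_lit 100), (nat_lit 140), (nat_lit 180)], [(nat_lit 0), (nat_lit 508), (nat_lit 2854)], [((nat_lit 0), (nat_lit 0), (nat_lit 0)), ((nat_lit 1000), (nat_lit 1000), (nat_lit 198)), ((nat_lit 777), (nat_lit 1000), (nat_lit 712))], ((nat_lit 100), (nat_lit 77), (nat_lit 72))⟩, (nat_lit 2848865), (nat_lit 399), (nat_lit 399), (nat_lit 0), (nat_lit 415815), [(nat_lit 6250000000), (nat_lit 9842000000), (nat_lit 14058000000)], [], [(nat_lit 30977686697), (nat_lit 31095000386), (nat_lit 34159122794), (nat_lit 34122756418), (nat_lit 35098434799), (nat_lit 34975075716), (nat_lit 38411988847), (nat_lit 38415011156)], (nat_lit 1271251), (nat_lit 1271251), (nat_lit 1271251), (nat_lit 1271251), (nat_lit 780000), (nat_lit 3072501), [(nat_lit 1412501), (nat_lit 1271251), (nat_lit 1271251)], [(nat_lit 24), (nat_lit 63), (nat_lit 483), (nat_lit 250), (nat_lit 11)]⟩,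
 ⟨⟨[(nat_lit 140), (nat_lit 180), (nat_lit 200)], [(nat_lit 0), (nat_lit 0), (nat_lit 2835)], [((nat_lit 0), (nat_lit 0), (nat_lit 0)), ((nat_lit 0), (nat_lit 0), (nat_lit 0)), ((nat_lit 363), (nat_lit 1000), (nat_lit 798))], ((nat_lit 0), (nat_lit 0), (nat_lit 0))⟩, (nat_lit 55852), (nat_lit 300), (nat_lit 1143), (nat_lit 15854300), (nat_lit 1678214), [(nat_lit 1997926000), (nat_lit 2853774000), (nat_lit 3329200000)], [], [(nat_lit 13512678837), (nat_lit 13009459835), (nat_lit 12861727346), (nat_lit 12349433971), (nat_lit 11939998736), (nat_lit 11418635391), (nat_lit 11276745536), (nat_lit 10745999235)], (nat_lit 780000), (nat_lit 1271251), (nat_lit 1271251), (nat_lit 1271251), (nat_lit 780000), (nat_lit 3072501), [(nat_lit 1977501), (nat_lit 1271251), (nat_lit 1271251)], [(nat_lit 32), (nat_lit 67), (nat_lit 456), (nat_lit 225), (nat_lit 10)]⟩⟩))))))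
noncomputable def c7_42 : Tr Lf :=
 (.ord (.spl (nat_lit 6) (nat_lit 48) (.spl (nat_lit 0) (nat_lit 350) (.spl (nat_lit 6) (nat_lit 40) (.leaf ⟨(nat_lit 78), (nat_lit 0), (nat_lit 0), (nat_lit 922), (nat_lit 76297), (nat_lit 7402), (nat_lit 12952), (nat_lit 11445), (nat_lit 0), (nat_lit 41446961833), (nat_lit 19500), [((nat_lit 350), [((nat_lit 21), (nat_lit 0), (nat_lit 78))])], ⟨(nat_lit 5), false, true, true, (nat_lit 258), (nat_lit 3535), (nat_lit 3873), [(nat_lit 1478205), (nat_lit 1478046), (nat_lit 1543574), (nat_lit 1543892), (nat_lit 1752422), (nat_lit 1744782), (nat_lit 1817802), (nat_lit 1810640)]⟩, ⟨(nat_lit 5), false, true, true, (nat_lit 258), (nat_lit 3535), (nat_lit 3873), [(nat_lit 1478205), (nat_lit 1478046), (nat_lit 1543574), (nat_lit 1543892), (nat_lit 1752422), (nat_lit 1744782), (nat_lit 1817802), (nat_lit 1810640)]⟩, (nat_lit 5555609), (nat_lit 34774060), (nat_lit 16112970), (nat_lit 16112970), (nat_lit 0), (nat_lit 0), [], [],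 [], [],
 ⟨⟨[(nat_lit 40), (nat_lit 80), (nat_lit 100)], [(nat_lit 0), (nat_lit 795), (nat_lit 1829)], [((nat_lit 0), (nat_lit 0), (nat_lit 0)), ((nat_lit 1000), (nat_lit 814), (nat_lit 310)), ((nat_lit 1000), (nat_lit 714), (nat_lit 692))], ((nat_lit 72), (nat_lit 100), (nat_lit 61))⟩, (nat_lit 0), (nat_lit 99), (nat_lit 99), (nat_lit 0), (nat_lit 46045), [(nat_lit 3481425010), (nat_lit 5558065606), (nat_lit 4826500000)], [(nat_lit 0), (nat_lit 0), (nat_lit 0)], [(nat_lit 22302173939), (nat_lit 23200798216), (nat_lit 32453140686), (nat_lit 33182751637), (nat_lit 32453140686), (nat_lit 33182751637), (nat_lit 38252050905), (nat_lit 38716931503)], (nat_lit 1271251), (nat_lit 1271251), (nat_lit 1271251), (nat_lit 1271251), (nat_lit 1271251), (nat_lit 1271251), [(nat_lit 490000), (nat_lit 1100000), (nat_lit 1442501)], [(nat_lit 3), (nat_lit 50), (nat_lit 203), (nat_lit 0), (nat_lit 6)]⟩,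
 ⟨⟨[(nat_lit 120), (nat_lit 160), (nat_lit 180)], [(nat_lit 0), (nat_lit 533), (nat_lit 2066)], [((nat_lit 0), (nat_lit 0), (nat_lit 0)), ((nat_lit 960), (nat_lit 1000), (nat_lit 200)), ((nat_lit 615), (nat_lit 1000), (nat_lit 729))], ((nat_lit 100), (nat_lit 74), (nat_lit 60))⟩, (nat_lit 3744619), (nat_lit 401), (nat_lit 401), (nat_lit 0), (nat_lit 134613), [(nat_lit 7346496000), (nat_lit 10945984000), (nat_lit 12961476000)], [], [(nat_lit 33549297114), (nat_lit 34154775258), (nat_lit 43670576558), (nat_lit 43665753735), (nat_lit 65582876408), (nat_lit 48538070312), (nat_lit 42977352424), (nat_lit 42193186046)], (nat_lit 1271251), (nat_lit 1271251), (nat_lit 1271251), (nat_lit 1271251), (nat_lit 0), (nat_lit 2825001), [(nat_lit 1695001), (nat_lit 1271251), (nat_lit 1271251)], [(nat_lit 28), (nat_lit 65), (nat_lit 538), (nat_lit 300), (nat_lit 12)]⟩,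
 ⟨⟨[(nat_lit 120), (nat_lit 160), (nat_lit 180)], [(nat_lit 0), (nat_lit 533), (nat_lit 2066)], [((nat_lit 0), (nat_lit 0), (nat_lit 0)), ((nat_lit 960), (nat_lit 1000), (nat_lit 200)), ((nat_lit 615), (nat_lit 1000), (nat_lit 729))], ((nat_lit 100), (nat_lit 74), (nat_lit 60))⟩, (nat_lit 2158829), (nat_lit 300), (nat_lit 401), (nat_lit 61220801), (nat_lit 134613), [(nat_lit 7346496000), (nat_lit 10945984000), (nat_lit 12961476000)], [], [(nat_lit 44961516986), (nat_lit 44816184612), (nat_lit 49573266234), (nat_lit 48471077452), (nat_lit 63213655400), (nat_lit 48152058290), (nat_lit 40746283946), (nat_lit 40193361632)], (nat_lit 1271251), (nat_lit 1271251), (nat_lit 1271251), (nat_lit 1271251), (nat_lit 0), (nat_lit 2825001), [(nat_lit 1695001), (nat_lit 1271251), (nat_lit 1271251)], [(nat_lit 28), (nat_lit 65), (nat_lit 538), (nat_lit 300), (nat_lit 12)]⟩⟩) (.dle (nat_lit 0))) (.trX (nat_lit 3) (nat_lit 0) (nat_lit 1) (nat_lit 68) (nat_lit 61) (nat_lit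 100) (nat_lit 360) (.trX (nat_lit 4) (nat_lit 0) (nat_lit 2) (nat_lit 68) (nat_lit 61) (nat_lit 100) (nat_lit 360) (.spl (nat_lit 0) (nat_lit 355) (.leaf ⟨(nat_lit 429), (nat_lit 0), (nat_lit 0), (nat_lit 571), (nat_lit 22052), (nat_lit 3963), (nat_lit 7615), (nat_lit 7317), (nat_lit 0), (nat_lit 7249053), (nat_lit 107250), [((nat_lit 355), [((nat_lit 22), (nat_lit 0), (nat_lit 429))])], ⟨(nat_lit 5), false, true, true, (nat_lit 254), (nat_lit 3354), (nat_lit 3536), [(nat_lit 1478046), (nat_lit 1477951), (nat_lit 1543901), (nat_lit 1544091), (nat_lit 1729092), (nat_lit 1725412), (nat_lit 1794949), (nat_lit 1791554)]⟩, ⟨(nat_lit 5), false, true, true, (nat_lit 254), (nat_lit 3354), (nat_lit 3536), [(nat_lit 1478046), (nat_lit 1477951), (nat_lit 1543901), (nat_lit 1544091), (nat_lit 1729092), (nat_lit 1725412), (nat_lit 1794949), (nat_lit 1791554)]⟩, (nat_lit 5522535), (nat_lit 35272124), (nat_lit 15863938), (nat_lit 15863938), (nat_lit 0), (nat_lit 0),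 [], [], [], [],
 ⟨⟨[(nat_lit 40), (nat_lit 80), (nat_lit 100)], [(nat_lit 0), (nat_lit 1195), (nat_lit 2166)], [((nat_lit 0), (nat_lit 0), (nat_lit 0)), ((nat_lit 1000), (nat_lit 720), (nat_lit 465)), ((nat_lit 1000), (nat_lit 662), (nat_lit 740))], ((nat_lit 67), (nat_lit 100), (nat_lit 66))⟩, (nat_lit 1716024), (nat_lit 107), (nat_lit 107), (nat_lit 0), (nat_lit 80024), [(nat_lit 1703268948), (nat_lit 3627938173), (nat_lit 4568663200)], [(nat_lit 0), (nat_lit 0), (nat_lit 0)], [(nat_lit 21679560957), (nat_lit 21977811536), (nat_lit 28693003473), (nat_lit 28966685754), (nat_lit 28693003473), (nat_lit 28966685754), (nat_lit 33406548202), (nat_lit 33601636222)], (nat_lit 1271251), (nat_lit 1271251), (nat_lit 1271251), (nat_lit 1271251), (nat_lit 1271251), (nat_lit 1271251), [(nat_lit 490000), (nat_lit 1100000), (nat_lit 1442501)], [(nat_lit 3), (nat_lit 50), (nat_lit 203), (nat_lit 0), (nat_lit 6)]⟩,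
 ⟨⟨[(nat_lit 120), (nat_lit 160), (nat_lit 180)], [(nat_lit 0), (nat_lit 533), (nat_lit 2066)], [((nat_lit 0), (nat_lit 0), (nat_lit 0)), ((nat_lit 960), (nat_lit 1000), (nat_lit 200)), ((nat_lit 615), (nat_lit 1000), (nat_lit 729))], ((nat_lit 100), (nat_lit 69), (nat_lit 65))⟩, (nat_lit 2264625), (nat_lit 430), (nat_lit 430), (nat_lit 0), (nat_lit 199395), [(nat_lit 4549728000), (nat_lit 6778912000), (nat_lit 8027118000)], [], [(nat_lit 21079776082), (nat_lit 21475451986), (nat_lit 25999537453), (nat_lit 26028704475), (nat_lit 39977176820), (nat_lit 29955852050), (nat_lit 25453410755), (nat_lit 25100568834)], (nat_lit 1271251), (nat_lit 1271251), (nat_lit 1271251), (nat_lit 1271251), (nat_lit 0), (nat_lit 2825001), [(nat_lit 1695001), (nat_lit 1271251), (nat_lit 1271251)], [(nat_lit 28), (nat_lit 65), (nat_lit 483), (nat_lit 250), (nat_lit 11)]⟩,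
 ⟨⟨[(nat_lit 120), (nat_lit 160), (nat_lit 180)], [(nat_lit 0), (nat_lit 533), (nat_lit 2066)], [((nat_lit 0), (nat_lit 0), (nat_lit 0)), ((nat_lit 960), (nat_lit 1000), (nat_lit 200)), ((nat_lit 615), (nat_lit 1000), (nat_lit 729))], ((nat_lit 100), (nat_lit 69), (nat_lit 65))⟩, (nat_lit 1336975), (nat_lit 300), (nat_lit 430), (nat_lit 37914403), (nat_lit 199395), [(nat_lit 4549728000), (nat_lit 6778912000), (nat_lit 8027118000)], [], [(nat_lit 27792786090), (nat_lit 27676449420), (nat_lit 30360851604), (nat_lit 29677786614), (nat_lit 39508677908), (nat_lit 29879520542), (nat_lit 25027556686), (nat_lit 24717983918)], (nat_lit 1271251), (nat_lit 1271251), (nat_lit 1271251), (nat_lit 1271251), (nat_lit 0), (nat_lit 2825001), [(nat_lit 1695001), (nat_lit 1271251), (nat_lit 1271251)], [(nat_lit 28), (nat_lit 65), (nat_lit 483), (nat_lit 250), (nat_lit 11)]⟩⟩) (.spl (nat_lit 1) (nat_lit 220) (.ord (.trX (nat_lit 3) (nat_lit 0) (nat_lit 1) (nat_lit 64) (nat_lit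 71) (nat_lit 100) (nat_lit 350) (.trX (nat_lit 4) (nat_lit 0) (nat_lit 2) (nat_lit 64) (nat_lit 71) (nat_lit 100) (nat_lit 350) (.spl (nat_lit 6) (nat_lit 40) (.leaf ⟨(nat_lit 511), (nat_lit 12), (nat_lit 0), (nat_lit 477), (nat_lit 13869), (nat_lit 5306), (nat_lit 6163), (nat_lit 5921), (nat_lit 0), (nat_lit 1603), (nat_lit 127750), [((nat_lit 360), [((nat_lit 21), (nat_lit 0), (nat_lit 511))])], ⟨(nat_lit 5), false, true, true, (nat_lit 246), (nat_lit 3162), (nat_lit 3355), [(nat_lit 1477951), (nat_lit 1477844), (nat_lit 1522044), (nat_lit 1522152), (nat_lit 1709945), (nat_lit 1706419), (nat_lit 1754040), (nat_lit 1750729)]⟩, ⟨(nat_lit 5), false, true, true, (nat_lit 246), (nat_lit 3162), (nat_lit 3355), [(nat_lit 1477951), (nat_lit 1477844), (nat_lit 1522044), (nat_lit 1522152), (nat_lit 1709945), (nat_lit 1706419), (nat_lit 1754040), (nat_lit 1750729)]⟩, (nat_lit 5453032), (nat_lit 36263910), (nat_lit 15368045), (nat_lit 15368045), (nat_lit 5), (nat_lit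 0), [], [], [], [],
 ⟨⟨[(nat_lit 40), (nat_lit 60), (nat_lit 80)], [(nat_lit 0), (nat_lit 709), (nat_lit 1350)], [((nat_lit 0), (nat_lit 0), (nat_lit 0)), ((nat_lit 1000), (nat_lit 692), (nat_lit 494)), ((nat_lit 1000), (nat_lit 689), (nat_lit 501))], ((nat_lit 65), (nat_lit 100), (nat_lit 62))⟩, (nat_lit 0), (nat_lit 87), (nat_lit 87), (nat_lit 0), (nat_lit 56772), [(nat_lit 2194579722), (nat_lit 2840012992), (nat_lit 3295831600)], [(nat_lit 0), (nat_lit 0), (nat_lit 0)], [(nat_lit 22753090370), (nat_lit 23147014882), (nat_lit 29817501169), (nat_lit 30141457176), (nat_lit 29817501169), (nat_lit 30141457176), (nat_lit 34410057936), (nat_lit 34639387282)], (nat_lit 1271251), (nat_lit 1271251), (nat_lit 1271251), (nat_lit 1271251), (nat_lit 1271251), (nat_lit 1271251), [(nat_lit 490000), (nat_lit 780000), (nat_lit 1100000)], [(nat_lit 2), (nat_lit 44), (nat_lit 203), (nat_lit 0), (nat_lit 7)]⟩,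
 ⟨⟨[(nat_lit 120), (nat_lit 160), (nat_lit 180)], [(nat_lit 0), (nat_lit 533), (nat_lit 2066)], [((nat_lit 0), (nat_lit 0), (nat_lit 0)), ((nat_lit 960), (nat_lit 1000), (nat_lit 200)), ((nat_lit 615), (nat_lit 1000), (nat_lit 729))], ((nat_lit 100), (nat_lit 74), (nat_lit 60))⟩, (nat_lit 1976671), (nat_lit 421), (nat_lit 421), (nat_lit 0), (nat_lit 181142), [(nat_lit 3896352000), (nat_lit 5805408000), (nat_lit 6874362000)], [], [(nat_lit 18228515805), (nat_lit 18466599454), (nat_lit 21421198922), (nat_lit 21291228381), (nat_lit 33672646812), (nat_lit 28265649696), (nat_lit 20823659764), (nat_lit 20695164069)], (nat_lit 1271251), (nat_lit 1271251), (nat_lit 1271251), (nat_lit 1271251), (nat_lit 0), (nat_lit 2825001), [(nat_lit 1695001), (nat_lit 1271251), (nat_lit 1271251)], [(nat_lit 28), (nat_lit 65), (nat_lit 483), (nat_lit 250), (nat_lit 11)]⟩,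
 ⟨⟨[(nat_lit 120), (nat_lit 160), (nat_lit 180)], [(nat_lit 0), (nat_lit 533), (nat_lit 2066)], [((nat_lit 0), (nat_lit 0), (nat_lit 0)), ((nat_lit 960), (nat_lit 1000), (nat_lit 200)), ((nat_lit 615), (nat_lit 1000), (nat_lit 729))], ((nat_lit 100), (nat_lit 74), (nat_lit 60))⟩, (nat_lit 1116878), (nat_lit 300), (nat_lit 421), (nat_lit 31672801), (nat_lit 181142), [(nat_lit 3800736000), (nat_lit 5662944000), (nat_lit 6705666000)], [], [(nat_lit 23261092851), (nat_lit 23210904062), (nat_lit 25141496152), (nat_lit 24807230255), (nat_lit 32703635244), (nat_lit 27508952472), (nat_lit 20187616731), (nat_lit 20070560782)], (nat_lit 1271251), (nat_lit 1271251), (nat_lit 1271251), (nat_lit 1271251), (nat_lit 0), (nat_lit 2825001), [(nat_lit 1695001), (nat_lit 1271251), (nat_lit 1271251)], [(nat_lit 28), (nat_lit 65), (nat_lit 483), (nat_lit 250), (nat_lit 11)]⟩⟩) (.dle (nat_lit 0)))))) (.leaf ⟨(nat_lit 0), (nat_lit 317), (nat_lit 0), (nat_lit 683), (nat_lit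 409), (nat_lit 4411), (nat_lit 11554), (nat_lit 8062), (nat_lit 0), (nat_lit 17341), (nat_lit 0), [], Pd.none, Pd.none, (nat_lit 0), (nat_lit 1), (nat_lit 0), (nat_lit 0), (nat_lit 5), (nat_lit 0), [], [], [], [],
 ⟨⟨[(nat_lit 40), (nat_lit 80), (nat_lit 100)], [(nat_lit 0), (nat_lit 1399), (nat_lit 2349)], [((nat_lit 0), (nat_lit 0), (nat_lit 0)), ((nat_lit 1000), (nat_lit 672), (nat_lit 546)), ((nat_lit 1000), (nat_lit 633), (nat_lit 742))], ((nat_lit 64), (nat_lit 100), (nat_lit 66))⟩, (nat_lit 2034346), (nat_lit 116), (nat_lit 116), (nat_lit 0), (nat_lit 112502), [(nat_lit 2032000119), (nat_lit 4742684735), (nat_lit 6250000000)], [], [(nat_lit 22297436946), (nat_lit 22630781567), (nat_lit 29463398138), (nat_lit 29750615395), (nat_lit 29463398138), (nat_lit 29750615395), (nat_lit 34168489754), (nat_lit 34370621426)], (nat_lit 1271251), (nat_lit 1271251), (nat_lit 1271251), (nat_lit 1271251), (nat_lit 1271251), (nat_lit 1271251), [(nat_lit 490000),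 (nat_lit 1100000), (nat_lit 1442501)], [(nat_lit 3), (nat_lit 50), (nat_lit 203), (nat_lit 0), (nat_lit 6)]⟩,
 ⟨⟨[(nat_lit 100), (nat_lit 140), (nat_lit 160)], [(nat_lit 0), (nat_lit 508), (nat_lit 1689)], [((nat_lit 0), (nat_lit 0), (nat_lit 0)), ((nat_lit 1000), (nat_lit 1000), (nat_lit 198)), ((nat_lit 811), (nat_lit 1000), (nat_lit 671))], ((nat_lit 100), (nat_lit 83), (nat_lit 65))⟩, (nat_lit 4287888), (nat_lit 385), (nat_lit 385), (nat_lit 0), (nat_lit 270769), [(nat_lit 6250000000), (nat_lit 9842000000), (nat_lit 11872000000)], [], [(nat_lit 28519293195), (nat_lit 28924014328), (nat_lit 39377616827), (nat_lit 40178214264), (nat_lit 45670004991), (nat_lit 40470918740), (nat_lit 41790553291), (nat_lit 41670834468)], (nat_lit 1271251), (nat_lit 1271251), (nat_lit 1271251), (nat_lit 1271251), (nat_lit 0), (nat_lit 2825001), [(nat_lit 1412501), (nat_lit 1271251), (nat_lit 1271251)], [(nat_lit 23), (nat_lit 62), (nat_lit 483), (nat_lit 250), (nat_lit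 12)]⟩,
 ⟨⟨[(nat_lit 120), (nat_lit 160), (nat_lit 180)], [(nat_lit 0), (nat_lit 533), (nat_lit 2066)], [((nat_lit 0), (nat_lit 0), (nat_lit 0)), ((nat_lit 960), (nat_lit 1000), (nat_lit 200)), ((nat_lit 615), (nat_lit 1000), (nat_lit 729))], ((nat_lit 100), (nat_lit 69), (nat_lit 65))⟩, (nat_lit 1599219), (nat_lit 300), (nat_lit 501), (nat_lit 45351202), (nat_lit 346252), [(nat_lit 5442144000), (nat_lit 8108576000), (nat_lit 9601614000)], [], [(nat_lit 33885287235), (nat_lit 33345625988), (nat_lit 36429488031), (nat_lit 35737962082), (nat_lit 46173083908), (nat_lit 35563508032), (nat_lit 28950303842), (nat_lit 28680226496)], (nat_lit 1271251), (nat_lit 1271251), (nat_lit 1271251), (nat_lit 1271251), (nat_lit 0), (nat_lit 2825001), [(nat_lit 1695001), (nat_lit 1271251), (nat_lit 1271251)], [(nat_lit 28), (nat_lit 65), (nat_lit 483), (nat_lit 250), (nat_lit 11)]⟩⟩)))))) (.dle (nat_lit 0))))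
def l009 : List St := [⟨⟨(nat_lit 340), (nat_lit 360), (nat_lit 120), (nat_lit 240), (nat_lit 180), (nat_lit 240), (nat_lit 10), (nat_lit 200), (nat_lit 240), (nat_lit 370), (nat_lit 0), (nat_lit 400), (nat_lit 32), (nat_lit 60)⟩, (nat_lit 3), (nat_lit 3), (nat_lit 3), false, false, false⟩,
  ⟨⟨(nat_lit 340), (nat_lit 360), (nat_lit 120), (nat_lit 180), (nat_lit 120), (nat_lit 180), (nat_lit 200), (nat_lit 370), (nat_lit 10), (nat_lit 200), (nat_lit 0), (nat_lit 400), (nat_lit 32), (nat_lit 60)⟩, (nat_lit 3), (nat_lit 3), (nat_lit 3), false, false, false⟩,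
  ⟨⟨(nat_lit 340), (nat_lit 360), (nat_lit 180), (nat_lit 240), (nat_lit 120), (nat_lit 180), (nat_lit 200), (nat_lit 280), (nat_lit 10), (nat_lit 200), (nat_lit 0), (nat_lit 400), (nat_lit 32), (nat_lit 60)⟩, (nat_lit 3), (nat_lit 3), (nat_lit 3), false, false, false⟩,
  ⟨⟨(nat_lit 340), (nat_lit 360), (nat_lit 180), (nat_lit 240), (nat_lit 120), (nat_lit 180), (nat_lit 280), (nat_lit 370), (nat_lit 10), (nat_lit 200), (nat_lit 0), (nat_lit 400), (nat_lit 32), (nat_lit 60)⟩, (nat_lit 3), (nat_lit 3), (nat_lit 3), false, false, false⟩,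
  ⟨⟨(nat_lit 340), (nat_lit 360), (nat_lit 120), (nat_lit 240), (nat_lit 180), (nat_lit 240), (nat_lit 200), (nat_lit 370), (nat_lit 10), (nat_lit 200), (nat_lit 0), (nat_lit 400), (nat_lit 32), (nat_lit 60)⟩, (nat_lit 3), (nat_lit 3), (nat_lit 3), false, false, false⟩,
  ⟨⟨(nat_lit 340), (nat_lit 360), (nat_lit 120), (nat_lit 180), (nat_lit 120), (nat_lit 180), (nat_lit 200), (nat_lit 370), (nat_lit 200), (nat_lit 330), (nat_lit 0), (nat_lit 400), (nat_lit 32), (nat_lit 60)⟩, (nat_lit 3), (nat_lit 3), (nat_lit 3), false, false, false⟩,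
  ⟨⟨(nat_lit 340), (nat_lit 360), (nat_lit 180), (nat_lit 240), (nat_lit 120), (nat_lit 180), (nat_lit 200), (nat_lit 370), (nat_lit 200), (nat_lit 330), (nat_lit 0), (nat_lit 120), (nat_lit 32), (nat_lit 60)⟩, (nat_lit 3), (nat_lit 3), (nat_lit 3), false, false, true⟩,
  ⟨⟨(nat_lit 340), (nat_lit 360), (nat_lit 180), (nat_lit 240), (nat_lit 120), (nat_lit 180), (nat_lit 200), (nat_lit 370), (nat_lit 200), (nat_lit 330), (nat_lit 120), (nat_lit 400), (nat_lit 32), (nat_lit 60)⟩, (nat_lit 3), (nat_lit 3), (nat_lit 3), false, false, false⟩,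
  ⟨⟨(nat_lit 340), (nat_lit 360), (nat_lit 120), (nat_lit 240), (nat_lit 180), (nat_lit 240), (nat_lit 200), (nat_lit 370), (nat_lit 200), (nat_lit 370), (nat_lit 0), (nat_lit 400), (nat_lit 32), (nat_lit 60)⟩, (nat_lit 3), (nat_lit 3), (nat_lit 3), false, false, false⟩]
theorem t009 (h : EC env Ei) : ∀ τ ∈ l009, Dead τ :=
  List.forall_mem_cons.mpr ⟨chkT_sound0 h (T := c7_34) (by decide +kernel),
  List.forall_mem_cons.mpr ⟨chkT_sound0 h (T := c7_35) (by decide +kernel),
  List.forall_mem_cons.mpr ⟨chkT_sound0 h (T := c7_36) (by decide +kernel),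
  List.forall_mem_cons.mpr ⟨chkT_sound0 h (T := c7_37) (by decide +kernel),
  List.forall_mem_cons.mpr ⟨chkT_sound0 h (T := c7_38) (by decide +kernel),
  List.forall_mem_cons.mpr ⟨chkT_sound0 h (T := c7_39) (by decide +kernel),
  List.forall_mem_cons.mpr ⟨chkT_sound0 h (T := c7_40) (by decide +kernel),
  List.forall_mem_cons.mpr ⟨chkT_sound0 h (T := c7_41) (by decide +kernel),
  List.forall_mem_cons.mpr ⟨chkT_sound0 h (T := c7_42) (by decide +kernel),
  List.forall_mem_nil _⟩⟩⟩⟩⟩⟩⟩⟩⟩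
end TC
end Pool.Agent.Lib.MP_6947cd_al
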