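import Pool.Agent.Lib.MP_6947cd_al.C.LeafF
import Pool.Agent.Lib.MP_6947cd_al.TC.E
import Pool.Agent.Lib.MP_6947cd_al.TC.F

/-!
Problem MP_6947cd_al (Chollet).  CASE C, tables and certificates.  Trees of leaves (part 10 of root 8).
-/

set_option autoImplicit false
set_option linter.all false
set_option maxRecDepth 100000
set_option maxHeartbeats 4000000
namespace Pool.Agent.Lib.MP_6947cd_al
namespace TC
open C1
noncomputable def c8_0 : Tr Lf :=
 (.spl (nat_lit 1) (nat_lit 280) (.trX (nat_lit 3) (nat_lit 0) (nat_lit 1) (nat_lit 78) (nat_lit 39) (nat_lit 100) (nat_lit 390) (.spl (nat_lit 3) (nat_lit 240) (.spl (nat_lit 2) (nat_lit 180) (.spl (nat_lit 1) (nat_lit 260) (.leaf ⟨(nat_lit 748), (nat_lit 200), (nat_lit 0), (nat_lit 52), (nat_lit 0), (nat_lit 3574), (nat_lit 1848), (nat_lit 566), (nat_lit 0), (nat_lit 0), (nat_lit 409250), [((nat_lit 360), [((nat_lit 21), (nat_lit 0), (nat_lit 113)), ((nat_lit 39), (nat_lit 2), (nat_lit 635))])], ⟨(nat_lit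 6), true, false, false, (nat_lit 197), (nat_lit 3162), (nat_lit 3873), [(nat_lit 1349867), (nat_lit 1361295), (nat_lit 1371632), (nat_lit 1383421), (nat_lit 1608082), (nat_lit 1605237), (nat_lit 1629847), (nat_lit 1627364)]⟩, ⟨(nat_lit 3), false, false, false, (nat_lit 93), (nat_lit 3162), (nat_lit 3873), [(nat_lit 1106311), (nat_lit 1121813), (nat_lit 1171604), (nat_lit 1188192), (nat_lit 1283782), (nat_lit 1289472), (nat_lit 1349127), (nat_lit 1355902)]⟩, (nat_lit 3738169), (nat_lit 50013361), (nat_lit 12925132), (nat_lit 4061507), (nat_lit 3), (nat_lit 0), [⟨(nat_lit 0), (nat_lit 100), (nat_lit 68), (nat_lit 92), (nat_lit 151720661)⟩], [⟨(nat_lit 0), (nat_lit 100), (nat_lit 68), (nat_lit 58), (nat_lit 27137466)⟩], [], [],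
 ⟨⟨[(nat_lit 40), (nat_lit 60), (nat_lit 80)], [(nat_lit 0), (nat_lit 398), (nat_lit 992)], [((nat_lit 0), (nat_lit 0), (nat_lit 0)), ((nat_lit 1000), (nat_lit 814), (nat_lit 310)), ((nat_lit 1000), (nat_lit 752), (nat_lit 464))], ((nat_lit 73), (nat_lit 100), (nat_lit 55))⟩, (nat_lit 813711), (nat_lit 263), (nat_lit 263), (nat_lit 0), (nat_lit 437060), [(nat_lit 1463486415), (nat_lit 1743515689), (nat_lit 1958906711)], [(nat_lit 0), (nat_lit 0), (nat_lit 0)], [(nat_lit 19234570738), (nat_lit 21049934798), (nat_lit 22590281413), (nat_lit 23982335426), (nat_lit 19212279654), (nat_lit 20464023325), (nat_lit 22283783548), (nat_lit 23280596905)], (nat_lit 1271251), (nat_lit 1271251), (nat_lit 490000), (nat_lit 1740001), (nat_lit 54688), (nat_lit 780000), [(nat_lit 490000), (nat_lit 780000), (nat_lit 1100000)], [(nat_lit 2), (nat_lit 44), (nat_lit 317), (nat_lit 100), (nat_lit 15)]⟩,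
 ⟨⟨[(nat_lit 80), (nat_lit 120), (nat_lit 140)], [(nat_lit 0), (nat_lit 0), (nat_lit 1164)], [((nat_lit 0), (nat_lit 0), (nat_lit 0)), ((nat_lit 0), (nat_lit 0), (nat_lit 0)), ((nat_lit 941), (nat_lit 1000), (nat_lit 576))], ((nat_lit 100), (nat_lit 95), (nat_lit 55))⟩, (nat_lit 720561), (nat_lit 168), (nat_lit 168), (nat_lit 0), (nat_lit 0), [(nat_lit 1181376000), (nat_lit 2007936000), (nat_lit 2480184000)], [], [(nat_lit 5675463636), (nat_lit 6077572644), (nat_lit 6506862036), (nat_lit 6859977372), (nat_lit 8350107300), (nat_lit 8557464468), (nat_lit 8241696288), (nat_lit 8393620368)], (nat_lit 0), (nat_lit 0), (nat_lit 0), (nat_lit 0), (nat_lit 0), (nat_lit 0), [], [(nat_lit 17), (nat_lit 58), (nat_lit 456), (nat_lit 225), (nat_lit 13)]⟩,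
 ⟨⟨[(nat_lit 140), (nat_lit 180), (nat_lit 200)], [(nat_lit 0), (nat_lit 0), (nat_lit 2835)], [((nat_lit 0), (nat_lit 0), (nat_lit 0)), ((nat_lit 0), (nat_lit 0), (nat_lit 0)), ((nat_lit 363), (nat_lit 1000), (nat_lit 798))], ((nat_lit 0), (nat_lit 0), (nat_lit 0))⟩, (nat_lit 14307), (nat_lit 300), (nat_lit 1812), (nat_lit 4061200), (nat_lit 2695129), [(nat_lit 511784000), (nat_lit 731016000), (nat_lit 852800000)], [], [(nat_lit 4579027604), (nat_lit 4352069200), (nat_lit 4155258217), (nat_lit 4032586903), (nat_lit 3676038551), (nat_lit 3540934831), (nat_lit 3382606612), (nat_lit 3817432152)], (nat_lit 780000), (nat_lit 1271251), (nat_lit 54688), (nat_lit 780000), (nat_lit 0), (nat_lit 2825001), [(nat_lit 1977501), (nat_lit 1271251), (nat_lit 1271251)], [(nat_lit 32), (nat_lit 67), (nat_lit 541), (nat_lit 175), (nat_lit 12)]⟩⟩) (.trZ (nat_lit 0) (nat_lit 1) (nat_lit 3) (nat_lit 100) (nat_lit 75) (nat_lit 92) (nat_lit 100) (.trX (nat_lit 5) (nat_lit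 1) (nat_lit 2) (nat_lit 96) (nat_lit 40) (nat_lit 100) (nat_lit 390) (.leaf ⟨(nat_lit 0), (nat_lit 909), (nat_lit 0), (nat_lit 91), (nat_lit 0), (nat_lit 5405), (nat_lit 7771), (nat_lit 1001), (nat_lit 0), (nat_lit 0), (nat_lit 0), [], Pd.none, Pd.none, (nat_lit 0), (nat_lit 1), (nat_lit 0), (nat_lit 0), (nat_lit 3), (nat_lit 0), [⟨(nat_lit 0), (nat_lit 100), (nat_lit 71), (nat_lit 100), (nat_lit 608794179)⟩], [], [⟨(nat_lit 1), (nat_lit 40), (nat_lit 96), (nat_lit 100), (nat_lit 156927022)⟩], [],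
 ⟨⟨[(nat_lit 40), (nat_lit 60), (nat_lit 80)], [(nat_lit 0), (nat_lit 398), (nat_lit 992)], [((nat_lit 0), (nat_lit 0), (nat_lit 0)), ((nat_lit 1000), (nat_lit 814), (nat_lit 310)), ((nat_lit 1000), (nat_lit 752), (nat_lit 464))], ((nat_lit 73), (nat_lit 100), (nat_lit 55))⟩, (nat_lit 893718), (nat_lit 278), (nat_lit 278), (nat_lit 0), (nat_lit 504120), [(nat_lit 2032000012), (nat_lit 3282000011), (nat_lit 4688000000)], [], [(nat_lit 22198304284), (nat_lit 25002410029), (nat_lit 25200643686), (nat_lit 27390180267), (nat_lit 20380138337), (nat_lit 21828592469), (nat_lit 22864763205), (nat_lit 24024084577)], (nat_lit 1271251), (nat_lit 1271251), (nat_lit 631250), (nat_lit 1751251), (nat_lit 54688), (nat_lit 780000), [(nat_lit 490000), (nat_lit 780000), (nat_lit 1100000)], [(nat_lit 2), (nat_lit 44), (nat_lit 317), (nat_lit 100), (nat_lit 15)]⟩,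
 ⟨⟨[(nat_lit 80), (nat_lit 120), (nat_lit 140)], [(nat_lit 0), (nat_lit 528), (nat_lit 1572)], [((nat_lit 0), (nat_lit 0), (nat_lit 0)), ((nat_lit 1000), (nat_lit 959), (nat_lit 206)), ((nat_lit 966), (nat_lit 1000), (nat_lit 679))], ((nat_lit 99), (nat_lit 100), (nat_lit 56))⟩, (nat_lit 3155711), (nat_lit 177), (nat_lit 177), (nat_lit 0), (nat_lit 0), [(nat_lit 4688000000), (nat_lit 7968000000), (nat_lit 9842000000)], [], [(nat_lit 22540931720), (nat_lit 24452125426), (nat_lit 25624213216), (nat_lit 27071909736), (nat_lit 31069022415), (nat_lit 31929068321), (nat_lit 30767589692), (nat_lit 31685962352)], (nat_lit 0), (nat_lit 0), (nat_lit 0), (nat_lit 0), (nat_lit 0), (nat_lit 0), [], [(nat_lit 17), (nat_lit 58), (nat_lit 483), (nat_lit 250), (nat_lit 14)]⟩,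
 ⟨⟨[(nat_lit 140), (nat_lit 180), (nat_lit 200)], [(nat_lit 0), (nat_lit 0), (nat_lit 2835)], [((nat_lit 0), (nat_lit 0), (nat_lit 0)), ((nat_lit 0), (nat_lit 0), (nat_lit 0)), ((nat_lit 363), (nat_lit 1000), (nat_lit 798))], ((nat_lit 0), (nat_lit 0), (nat_lit 0))⟩, (nat_lit 25037), (nat_lit 300), (nat_lit 2033), (nat_lit 7107101), (nat_lit 3160781), [(nat_lit 895622000), (nat_lit 1279278000), (nat_lit 1492400000)], [], [(nat_lit 8053987464), (nat_lit 7577284521), (nat_lit 7207782125), (nat_lit 6997729930), (nat_lit 6400838278), (nat_lit 6160846777), (nat_lit 5900894491), (nat_lit 6615421125)], (nat_lit 780000), (nat_lit 1271251), (nat_lit 54688), (nat_lit 780000), (nat_lit 0), (nat_lit 2754376), [(nat_lit 1977501), (nat_lit 1271251), (nat_lit 1271251)], [(nat_lit 32), (nat_lit 67), (nat_lit 595), (nat_lit 175), (nat_lit 13)]⟩⟩)))) (.trZ (nat_lit 0) (nat_lit 2) (nat_lit 4) (nat_lit 100) (nat_lit 72) (nat_lit 63) (nat_lit 40) (.leaf ⟨(nat_lit 0), (nat_lit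 751), (nat_lit 0), (nat_lit 249), (nat_lit 0), (nat_lit 5064), (nat_lit 7621), (nat_lit 2454), (nat_lit 0), (nat_lit 0), (nat_lit 0), [], Pd.none, Pd.none, (nat_lit 0), (nat_lit 1), (nat_lit 0), (nat_lit 0), (nat_lit 4), (nat_lit 0), [⟨(nat_lit 0), (nat_lit 100), (nat_lit 73), (nat_lit 85), (nat_lit 614515639)⟩], [⟨(nat_lit 0), (nat_lit 100), (nat_lit 66), (nat_lit 75), (nat_lit 18733590)⟩], [], [],
 ⟨⟨[(nat_lit 40), (nat_lit 60), (nat_lit 80)], [(nat_lit 0), (nat_lit 398), (nat_lit 992)], [((nat_lit 0), (nat_lit 0), (nat_lit 0)), ((nat_lit 1000), (nat_lit 814), (nat_lit 310)), ((nat_lit 1000), (nat_lit 752), (nat_lit 464))], ((nat_lit 73), (nat_lit 100), (nat_lit 55))⟩, (nat_lit 1639535), (nat_lit 220), (nat_lit 220), (nat_lit 0), (nat_lit 400151), [(nat_lit 2032000010), (nat_lit 3282000005), (nat_lit 4688000000)], [], [(nat_lit 19938058580), (nat_lit 22642140120), (nat_lit 23172604288), (nat_lit 25234969200), (nat_lit 19479293756), (nat_lit 21019037528),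 (nat_lit 22309816572), (nat_lit 23510357544)], (nat_lit 1271251), (nat_lit 1271251), (nat_lit 490000), (nat_lit 1740001), (nat_lit 230000), (nat_lit 780000), [(nat_lit 490000), (nat_lit 780000), (nat_lit 1100000)], [(nat_lit 2), (nat_lit 44), (nat_lit 317), (nat_lit 100), (nat_lit 14)]⟩,
 ⟨⟨[(nat_lit 80), (nat_lit 120), (nat_lit 140)], [(nat_lit 0), (nat_lit 0), (nat_lit 1164)], [((nat_lit 0), (nat_lit 0), (nat_lit 0)), ((nat_lit 0), (nat_lit 0), (nat_lit 0)), ((nat_lit 941), (nat_lit 1000), (nat_lit 576))], ((nat_lit 100), (nat_lit 95), (nat_lit 55))⟩, (nat_lit 2873846), (nat_lit 186), (nat_lit 186), (nat_lit 0), (nat_lit 0), [(nat_lit 4688000000), (nat_lit 7968000000), (nat_lit 9842000000)], [], [(nat_lit 22221758724), (nat_lit 26107010180), (nat_lit 25796213444), (nat_lit 28659770484), (nat_lit 33155138236), (nat_lit 34824632360), (nat_lit 32579125288), (nat_lit 33795026588)], (nat_lit 0), (nat_lit 0), (nat_lit 0), (nat_lit 0), (nat_lit 0), (nat_lit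 0), [], [(nat_lit 17), (nat_lit 58), (nat_lit 483), (nat_lit 250), (nat_lit 14)]⟩,
 ⟨⟨[(nat_lit 120), (nat_lit 160), (nat_lit 180)], [(nat_lit 0), (nat_lit 533), (nat_lit 2066)], [((nat_lit 0), (nat_lit 0), (nat_lit 0)), ((nat_lit 960), (nat_lit 1000), (nat_lit 200)), ((nat_lit 615), (nat_lit 1000), (nat_lit 729))], ((nat_lit 100), (nat_lit 79), (nat_lit 55))⟩, (nat_lit 583024), (nat_lit 300), (nat_lit 1038), (nat_lit 16533602), (nat_lit 1254664), [(nat_lit 1984032000), (nat_lit 2956128000), (nat_lit 3500442000)], [], [(nat_lit 16520206100), (nat_lit 16275374003), (nat_lit 15446522330), (nat_lit 15204136577), (nat_lit 13706679036), (nat_lit 13367904378), (nat_lit 15148354671), (nat_lit 12939845469)], (nat_lit 1271251), (nat_lit 1271251), (nat_lit 230000), (nat_lit 780000), (nat_lit 0), (nat_lit 2825001), [(nat_lit 1695001), (nat_lit 1271251), (nat_lit 1271251)], [(nat_lit 28), (nat_lit 65), (nat_lit 428), (nat_lit 200), (nat_lit 10)]⟩⟩))) (.trX (nat_lit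 5) (nat_lit 3) (nat_lit 4) (nat_lit 100) (nat_lit 59) (nat_lit 94) (nat_lit 370) (.leaf ⟨(nat_lit 0), (nat_lit 911), (nat_lit 0), (nat_lit 89), (nat_lit 0), (nat_lit 5353), (nat_lit 7727), (nat_lit 940), (nat_lit 0), (nat_lit 0), (nat_lit 0), [], Pd.none, Pd.none, (nat_lit 0), (nat_lit 1), (nat_lit 0), (nat_lit 0), (nat_lit 3), (nat_lit 0), [], [], [], [⟨(nat_lit 1), (nat_lit 100), (nat_lit 84), (nat_lit 76), (nat_lit 131317660)⟩],
 ⟨⟨[(nat_lit 40), (nat_lit 60), (nat_lit 80)], [(nat_lit 0), (nat_lit 398), (nat_lit 992)], [((nat_lit 0), (nat_lit 0), (nat_lit 0)), ((nat_lit 1000), (nat_lit 814), (nat_lit 310)), ((nat_lit 1000), (nat_lit 752), (nat_lit 464))], ((nat_lit 73), (nat_lit 100), (nat_lit 55))⟩, (nat_lit 1530987), (nat_lit 295), (nat_lit 295), (nat_lit 0), (nat_lit 504332), [(nat_lit 2032000030), (nat_lit 3282000031), (nat_lit 4688000000)], [], [(nat_lit 25117120396), (nat_lit 27293398218), (nat_lit 36183047431), (nat_lit 37575758918), (nat_lit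 22316591350), (nat_lit 23391709989), (nat_lit 31595797133), (nat_lit 32882959900)], (nat_lit 1271251), (nat_lit 1271251), (nat_lit 1271251), (nat_lit 1271251), (nat_lit 54688), (nat_lit 780000), [(nat_lit 490000), (nat_lit 780000), (nat_lit 1100000)], [(nat_lit 2), (nat_lit 44), (nat_lit 238), (nat_lit 30), (nat_lit 10)]⟩,
 ⟨⟨[(nat_lit 80), (nat_lit 120), (nat_lit 140)], [(nat_lit 0), (nat_lit 0), (nat_lit 1164)], [((nat_lit 0), (nat_lit 0), (nat_lit 0)), ((nat_lit 0), (nat_lit 0), (nat_lit 0)), ((nat_lit 941), (nat_lit 1000), (nat_lit 576))], ((nat_lit 100), (nat_lit 95), (nat_lit 55))⟩, (nat_lit 2530698), (nat_lit 223), (nat_lit 223), (nat_lit 0), (nat_lit 0), [(nat_lit 4688000000), (nat_lit 7968000000), (nat_lit 9842000000)], [], [(nat_lit 26192757484), (nat_lit 29078811964), (nat_lit 38321819456), (nat_lit 39936315531), (nat_lit 30541299995), (nat_lit 31787714227), (nat_lit 36735776060), (nat_lit 37762898446)], (nat_lit 0), (nat_lit 0), (nat_lit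 0), (nat_lit 0), (nat_lit 0), (nat_lit 0), [], [(nat_lit 17), (nat_lit 58), (nat_lit 538), (nat_lit 300), (nat_lit 15)]⟩,
 ⟨⟨[(nat_lit 140), (nat_lit 180), (nat_lit 200)], [(nat_lit 0), (nat_lit 0), (nat_lit 2835)], [((nat_lit 0), (nat_lit 0), (nat_lit 0)), ((nat_lit 0), (nat_lit 0), (nat_lit 0)), ((nat_lit 363), (nat_lit 1000), (nat_lit 798))], ((nat_lit 0), (nat_lit 0), (nat_lit 0))⟩, (nat_lit 24487), (nat_lit 300), (nat_lit 2033), (nat_lit 6950900), (nat_lit 3160839), [(nat_lit 875938000), (nat_lit 1251162000), (nat_lit 1459600000)], [], [(nat_lit 8024199236), (nat_lit 7702503769), (nat_lit 7564342255), (nat_lit 7248651819), (nat_lit 6826573977), (nat_lit 6514594008), (nat_lit 6389958249), (nat_lit 6753761662)], (nat_lit 780000), (nat_lit 1598751), (nat_lit 54688), (nat_lit 780000), (nat_lit 0), (nat_lit 2613125), [(nat_lit 1977501), (nat_lit 1271251), (nat_lit 1271251)], [(nat_lit 32), (nat_lit 67), (nat_lit 597), (nat_lit 200), (nat_lit 13)]⟩⟩))))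 (.trZ (nat_lit 0) (nat_lit 1) (nat_lit 3) (nat_lit 99) (nat_lit 77) (nat_lit 100) (nat_lit 120) (.spl (nat_lit 2) (nat_lit 180) (.trX (nat_lit 5) (nat_lit 1) (nat_lit 2) (nat_lit 92) (nat_lit 49) (nat_lit 100) (nat_lit 380) (.spl (nat_lit 3) (nat_lit 280) (.spl (nat_lit 1) (nat_lit 300) (.leaf ⟨(nat_lit 0), (nat_lit 1000), (nat_lit 0), (nat_lit 0), (nat_lit 0), (nat_lit 5094), (nat_lit 7409), (nat_lit 0), (nat_lit 0), (nat_lit 0), (nat_lit 0), [], Pd.none, Pd.none, (nat_lit 0), (nat_lit 1), (nat_lit 0), (nat_lit 0), (nat_lit 3), (nat_lit 0), [⟨(nat_lit 0), (nat_lit 92), (nat_lit 68), (nat_lit 100), (nat_lit 402337651)⟩], [], [⟨(nat_lit 1), (nat_lit 49), (nat_lit 92), (nat_lit 100), (nat_lit 281026035)⟩], [],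
 ⟨⟨[(nat_lit 40), (nat_lit 60), (nat_lit 80)], [(nat_lit 0), (nat_lit 398), (nat_lit 992)], [((nat_lit 0), (nat_lit 0), (nat_lit 0)), ((nat_lit 1000), (nat_lit 814), (nat_lit 310)), ((nat_lit 1000), (nat_lit 752), (nat_lit 464))], ((nat_lit 73), (nat_lit 100), (nat_lit 55))⟩, (nat_lit 1889240), (nat_lit 297), (nat_lit 297), (nat_lit 0), (nat_lit 583800), [(nat_lit 2032000026), (nat_lit 3282000056), (nat_lit 4688000000)], [], [(nat_lit 21631359729), (nat_lit 24255821838), (nat_lit 27278467387), (nat_lit 29187410773), (nat_lit 19860395111), (nat_lit 21193533491), (nat_lit 23659152935), (nat_lit 25395574148)], (nat_lit 1271251), (nat_lit 1271251), (nat_lit 780000), (nat_lit 2090001), (nat_lit 54688), (nat_lit 780000), [(nat_lit 490000), (nat_lit 780000), (nat_lit 1100000)], [(nat_lit 2), (nat_lit 44), (nat_lit 317), (nat_lit 100), (nat_lit 14)]⟩,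
 ⟨⟨[(nat_lit 60), (nat_lit 100), (nat_lit 120)], [(nat_lit 0), (nat_lit 0), (nat_lit 1164)], [((nat_lit 0), (nat_lit 0), (nat_lit 0)), ((nat_lit 0), (nat_lit 0), (nat_lit 0)), ((nat_lit 1000), (nat_lit 933), (nat_lit 572))], ((nat_lit 93), (nat_lit 100), (nat_lit 55))⟩, (nat_lit 2256449), (nat_lit 147), (nat_lit 147), (nat_lit 0), (nat_lit 0), [(nat_lit 3282000000), (nat_lit 6250000000), (nat_lit 7968000000)], [], [(nat_lit 21387366138), (nat_lit 23422064313), (nat_lit 27687167829), (nat_lit 29093693736), (nat_lit 29828814426), (nat_lit 31030998321), (nat_lit 32126747651), (nat_lit 32960803163)], (nat_lit 0), (nat_lit 0), (nat_lit 0), (nat_lit 0), (nat_lit 0), (nat_lit 0), [], [(nat_lit 10), (nat_lit 54), (nat_lit 401), (nat_lit 175), (nat_lit 13)]⟩,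
 Rw.none⟩) (.trZ (nat_lit 0) (nat_lit 1) (nat_lit 3) (nat_lit 90) (nat_lit 74) (nat_lit 100) (nat_lit 140) (.trX (nat_lit 5) (nat_lit 1) (nat_lit 2) (nat_lit 87) (nat_lit 59) (nat_lit 100) (nat_lit 370) (.leaf ⟨(nat_lit 0), (nat_lit 1000), (nat_lit 0), (nat_lit 0), (nat_lit 0), (nat_lit 6441), (nat_lit 5247), (nat_lit 0), (nat_lit 0), (nat_lit 0), (nat_lit 0), [], Pd.none, Pd.none, (nat_lit 0), (nat_lit 1), (nat_lit 0), (nat_lit 0), (nat_lit 3), (nat_lit 0), [⟨(nat_lit 0), (nat_lit 84), (nat_lit 67), (nat_lit 100), (nat_lit 340632676)⟩], [], [⟨(nat_lit 1), (nat_lit 59), (nat_lit 87), (nat_lit 100), (nat_lit 299910119)⟩], [],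
 ⟨⟨[(nat_lit 40), (nat_lit 60), (nat_lit 80)], [(nat_lit 0), (nat_lit 398), (nat_lit 992)], [((nat_lit 0), (nat_lit 0), (nat_lit 0)), ((nat_lit 1000), (nat_lit 814), (nat_lit 310)), ((nat_lit 1000), (nat_lit 752), (nat_lit 464))], ((nat_lit 73), (nat_lit 100), (nat_lit 55))⟩, (nat_lit 629032), (nat_lit 300), (nat_lit 334), (nat_lit 50800004), (nat_lit 675945), [(nat_lit 2032000003), (nat_lit 3289621906), (nat_lit 4688000000)], [], [(nat_lit 25103220765), (nat_lit 26718936264), (nat_lit 29767668918), (nat_lit 31977483359), (nat_lit 22969035704), (nat_lit 24229704090), (nat_lit 25789863061), (nat_lit 26763934710)], (nat_lit 1271251), (nat_lit 1271251), (nat_lit 936250), (nat_lit 2108751), (nat_lit 54688), (nat_lit 780000), [(nat_lit 490000), (nat_lit 780000), (nat_lit 1100000)], [(nat_lit 2), (nat_lit 44), (nat_lit 317), (nat_lit 100), (nat_lit 14)]⟩,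
 ⟨⟨[(nat_lit 60), (nat_lit 100), (nat_lit 120)], [(nat_lit 0), (nat_lit 609), (nat_lit 1609)], [((nat_lit 0), (nat_lit 0), (nat_lit 0)), ((nat_lit 1000), (nat_lit 905), (nat_lit 238)), ((nat_lit 1000), (nat_lit 882), (nat_lit 668))], ((nat_lit 87), (nat_lit 100), (nat_lit 54))⟩, (nat_lit 4720487), (nat_lit 155), (nat_lit 155), (nat_lit 0), (nat_lit 0), [(nat_lit 3282000000), (nat_lit 6250000000), (nat_lit 7968000000)], [], [(nat_lit 19595258901), (nat_lit 21178221813), (nat_lit 24985635995), (nat_lit 26276208785), (nat_lit 27443389284), (nat_lit 28400859748), (nat_lit 30178054626), (nat_lit 30955434869)], (nat_lit 0), (nat_lit 0), (nat_lit 0), (nat_lit 0), (nat_lit 0), (nat_lit 0), [], [(nat_lit 10), (nat_lit 54), (nat_lit 401), (nat_lit 175), (nat_lit 13)]⟩,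
 Rw.none⟩)))) (.trX (nat_lit 5) (nat_lit 3) (nat_lit 4) (nat_lit 100) (nat_lit 80) (nat_lit 100) (nat_lit 340) (.leaf ⟨(nat_lit 0), (nat_lit 1000), (nat_lit 0), (nat_lit 0), (nat_lit 0), (nat_lit 6114), (nat_lit 7454), (nat_lit 0), (nat_lit 0), (nat_lit 0), (nat_lit 0), [], Pd.none, Pd.none, (nat_lit 0), (nat_lit 1), (nat_lit 0), (nat_lit 0), (nat_lit 3), (nat_lit 0), [], [], [], [⟨(nat_lit 1), (nat_lit 100), (nat_lit 72), (nat_lit 74), (nat_lit 231177025)⟩],
 ⟨⟨[(nat_lit 40), (nat_lit 60), (nat_lit 80)], [(nat_lit 0), (nat_lit 398), (nat_lit 992)], [((nat_lit 0), (nat_lit 0), (nat_lit 0)), ((nat_lit 1000), (nat_lit 814), (nat_lit 310)), ((nat_lit 1000), (nat_lit 752), (nat_lit 464))], ((nat_lit 73), (nat_lit 100), (nat_lit 55))⟩, (nat_lit 1939290), (nat_lit 300), (nat_lit 355), (nat_lit 50800001), (nat_lit 676172), [(nat_lit 2032000003), (nat_lit 3493995549), (nat_lit 4688000000)], [], [(nat_lit 29324231438), (nat_lit 31300160615), (nat_lit 39135610098),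 (nat_lit 40574196655), (nat_lit 27067431187), (nat_lit 27979097517), (nat_lit 33581678731), (nat_lit 34911990694)], (nat_lit 1271251), (nat_lit 1271251), (nat_lit 1271251), (nat_lit 1271251), (nat_lit 54688), (nat_lit 780000), [(nat_lit 490000), (nat_lit 780000), (nat_lit 1100000)], [(nat_lit 2), (nat_lit 44), (nat_lit 238), (nat_lit 30), (nat_lit 9)]⟩,
 ⟨⟨[(nat_lit 60), (nat_lit 100), (nat_lit 120)], [(nat_lit 0), (nat_lit 0), (nat_lit 1164)], [((nat_lit 0), (nat_lit 0), (nat_lit 0)), ((nat_lit 0), (nat_lit 0), (nat_lit 0)), ((nat_lit 1000), (nat_lit 933), (nat_lit 572))], ((nat_lit 93), (nat_lit 100), (nat_lit 55))⟩, (nat_lit 2691445), (nat_lit 199), (nat_lit 199), (nat_lit 0), (nat_lit 0), [(nat_lit 3282000000), (nat_lit 6250000000), (nat_lit 7968000000)], [], [(nat_lit 28792954080), (nat_lit 31196848392), (nat_lit 39803288316), (nat_lit 42128204144), (nat_lit 29776826389), (nat_lit 30965121661), (nat_lit 36377170588), (nat_lit 37558394710)], (nat_lit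 0), (nat_lit 0), (nat_lit 0), (nat_lit 0), (nat_lit 0), (nat_lit 0), [], [(nat_lit 10), (nat_lit 54), (nat_lit 317), (nat_lit 100), (nat_lit 10)]⟩,
 Rw.none⟩)))) (.trZ (nat_lit 0) (nat_lit 2) (nat_lit 4) (nat_lit 100) (nat_lit 72) (nat_lit 63) (nat_lit 40) (.leaf ⟨(nat_lit 0), (nat_lit 819), (nat_lit 0), (nat_lit 181), (nat_lit 0), (nat_lit 5087), (nat_lit 7285), (nat_lit 1739), (nat_lit 0), (nat_lit 0), (nat_lit 0), [], Pd.none, Pd.none, (nat_lit 0), (nat_lit 1), (nat_lit 0), (nat_lit 0), (nat_lit 4), (nat_lit 0), [⟨(nat_lit 0), (nat_lit 80), (nat_lit 60), (nat_lit 100), (nat_lit 156707487)⟩], [⟨(nat_lit 0), (nat_lit 100), (nat_lit 66), (nat_lit 75), (nat_lit 94463908)⟩], [⟨(nat_lit 1), (nat_lit 50), (nat_lit 87), (nat_lit 100), (nat_lit 24795820)⟩], [],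
 ⟨⟨[(nat_lit 40), (nat_lit 60), (nat_lit 80)], [(nat_lit 0), (nat_lit 398), (nat_lit 992)], [((nat_lit 0), (nat_lit 0), (nat_lit 0)), ((nat_lit 1000), (nat_lit 814), (nat_lit 310)), ((nat_lit 1000), (nat_lit 752), (nat_lit 464))], ((nat_lit 73), (nat_lit 100), (nat_lit 55))⟩, (nat_lit 2647473), (nat_lit 292), (nat_lit 292), (nat_lit 0), (nat_lit 545963), [(nat_lit 2032000021), (nat_lit 3282000030), (nat_lit 4688000000)], [], [(nat_lit 20024663997), (nat_lit 22595554856), (nat_lit 34612132915), (nat_lit 35901702063), (nat_lit 19187156999), (nat_lit 20454298583), (nat_lit 31923544611), (nat_lit 33134283477)], (nat_lit 1271251), (nat_lit 1271251), (nat_lit 780000), (nat_lit 3072501), (nat_lit 230000), (nat_lit 780000), [(nat_lit 490000), (nat_lit 780000), (nat_lit 1100000)], [(nat_lit 2), (nat_lit 44), (nat_lit 373), (nat_lit 150), (nat_lit 17)]⟩,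
 ⟨⟨[(nat_lit 60), (nat_lit 100), (nat_lit 120)], [(nat_lit 0), (nat_lit 0), (nat_lit 1164)], [((nat_lit 0), (nat_lit 0), (nat_lit 0)), ((nat_lit 0), (nat_lit 0), (nat_lit 0)), ((nat_lit 1000), (nat_lit 933), (nat_lit 572))], ((nat_lit 93), (nat_lit 100), (nat_lit 55))⟩, (nat_lit 1476550), (nat_lit 199), (nat_lit 199), (nat_lit 0), (nat_lit 0), [(nat_lit 3282000000), (nat_lit 6250000000), (nat_lit 7968000000)], [], [(nat_lit 25498714255), (nat_lit 28589180080), (nat_lit 39355310890), (nat_lit 41655386760), (nat_lit 32805463545), (nat_lit 34005655920), (nat_lit 39424919160), (nat_lit 40266644440)], (nat_lit 0), (nat_lit 0), (nat_lit 0), (nat_lit 0), (nat_lit 0), (nat_lit 0), [], [(nat_lit 10), (nat_lit 54), (nat_lit 428), (nat_lit 200), (nat_lit 14)]⟩,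
 ⟨⟨[(nat_lit 120), (nat_lit 160), (nat_lit 180)], [(nat_lit 0), (nat_lit 533), (nat_lit 2066)], [((nat_lit 0), (nat_lit 0), (nat_lit 0)), ((nat_lit 960), (nat_lit 1000), (nat_lit 200)), ((nat_lit 615), (nat_lit 1000), (nat_lit 729))], ((nat_lit 100), (nat_lit 79), (nat_lit 55))⟩, (nat_lit 423805), (nat_lit 300), (nat_lit 1262), (nat_lit 12018400), (nat_lit 1741938), [(nat_lit 1442208000), (nat_lit 2148832000), (nat_lit 2544498000)], [], [(nat_lit 12357307134), (nat_lit 12154616410), (nat_lit 11676195011), (nat_lit 11475724857), (nat_lit 10142470291), (nat_lit 9933156741), (nat_lit 10948881256), (nat_lit 9383845599)], (nat_lit 1271251), (nat_lit 1271251), (nat_lit 230000), (nat_lit 780000), (nat_lit 0), (nat_lit 2825001), [(nat_lit 1695001), (nat_lit 1271251), (nat_lit 1271251)], [(nat_lit 28), (nat_lit 65), (nat_lit 428), (nat_lit 200), (nat_lit 10)]⟩⟩)))))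
noncomputable def c8_1 : Tr Lf :=
 (.spl (nat_lit 5) (nat_lit 200) (.spl (nat_lit 3) (nat_lit 160) (.spl (nat_lit 0) (nat_lit 350) (.spl (nat_lit 0) (nat_lit 345) (.leaf ⟨(nat_lit 911), (nat_lit 89), (nat_lit 0), (nat_lit 0), (nat_lit 0), (nat_lit 3885), (nat_lit 902), (nat_lit 0), (nat_lit 0), (nat_lit 0), (nat_lit 550600), [((nat_lit 345), [((nat_lit 39), (nat_lit 2), (nat_lit 901)), ((nat_lit 21), (nat_lit 2), (nat_lit 10))])], ⟨(nat_lit 6), false, false, false, (nat_lit 175), (nat_lit 3708), (nat_lit 3873), [(nat_lit 1350015), (nat_lit 1352792), (nat_lit 1393598), (nat_lit 1396525), (nat_lit 1479060), (nat_lit 1480086), (nat_lit 1522644), (nat_lit 1523820)]⟩, ⟨(nat_lit 3), false, false, false, (nat_lit 100), (nat_lit 3708), (nat_lit 3873), [(nat_lit 1106348), (nat_lit 1110207), (nat_lit 1215308), (nat_lit 1219542), (nat_lit 1283782), (nat_lit 1285233), (nat_lit 1392746), (nat_lit 1394572)]⟩, (nat_lit 3602957), (nat_lit 51629923), (nat_lit 10797595),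 (nat_lit 4572482), (nat_lit 3), (nat_lit 0), [⟨(nat_lit 0), (nat_lit 100), (nat_lit 74), (nat_lit 93), (nat_lit 60343987)⟩], [⟨(nat_lit 0), (nat_lit 100), (nat_lit 69), (nat_lit 79), (nat_lit 185788600)⟩], [], [],
 ⟨⟨[(nat_lit 40), (nat_lit 60), (nat_lit 80)], [(nat_lit 0), (nat_lit 398), (nat_lit 992)], [((nat_lit 0), (nat_lit 0), (nat_lit 0)), ((nat_lit 1000), (nat_lit 814), (nat_lit 310)), ((nat_lit 1000), (nat_lit 752), (nat_lit 464))], ((nat_lit 73), (nat_lit 100), (nat_lit 55))⟩, (nat_lit 28458), (nat_lit 192), (nat_lit 192), (nat_lit 0), (nat_lit 221234), [(nat_lit 1359116135), (nat_lit 1362044488), (nat_lit 1193055312)], [(nat_lit 0), (nat_lit 0), (nat_lit 0)], [(nat_lit 19404899195), (nat_lit 19989218089), (nat_lit 19819363710), (nat_lit 20344919194), (nat_lit 17027698745), (nat_lit 17557831837), (nat_lit 17967584655), (nat_lit 18304589748)], (nat_lit 1271251), (nat_lit 1271251), (nat_lit 490000), (nat_lit 1100000), (nat_lit 54688), (nat_lit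 780000), [(nat_lit 490000), (nat_lit 780000), (nat_lit 1100000)], [(nat_lit 2), (nat_lit 44), (nat_lit 289), (nat_lit 75), (nat_lit 13)]⟩,
 ⟨⟨[(nat_lit 80), (nat_lit 120), (nat_lit 140)], [(nat_lit 0), (nat_lit 0), (nat_lit 1164)], [((nat_lit 0), (nat_lit 0), (nat_lit 0)), ((nat_lit 0), (nat_lit 0), (nat_lit 0)), ((nat_lit 941), (nat_lit 1000), (nat_lit 576))], ((nat_lit 100), (nat_lit 95), (nat_lit 55))⟩, (nat_lit 0), (nat_lit 653), (nat_lit 653), (nat_lit 0), (nat_lit 886329), [(nat_lit 417232000), (nat_lit 709152000), (nat_lit 875938000)], [], [(nat_lit 4280941752), (nat_lit 3346008796), (nat_lit 3075504540), (nat_lit 3181588658), (nat_lit 3256856860), (nat_lit 2742626279), (nat_lit 4008282284), (nat_lit 3196515658)], (nat_lit 1271251), (nat_lit 1271251), (nat_lit 490000), (nat_lit 1100000), (nat_lit 0), (nat_lit 1412501), [(nat_lit 1100000), (nat_lit 1785001), (nat_lit 1271251)], [(nat_lit 17), (nat_lit 58), (nat_lit 401), (nat_lit 175), (nat_lit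 12)]⟩,
 Rw.none⟩) (.trZ (nat_lit 0) (nat_lit 1) (nat_lit 3) (nat_lit 100) (nat_lit 70) (nat_lit 87) (nat_lit 90) (.leaf ⟨(nat_lit 921), (nat_lit 79), (nat_lit 0), (nat_lit 0), (nat_lit 0), (nat_lit 3877), (nat_lit 874), (nat_lit 0), (nat_lit 0), (nat_lit 0), (nat_lit 327750), [((nat_lit 350), [((nat_lit 21), (nat_lit 0), (nat_lit 271)), ((nat_lit 21), (nat_lit 1), (nat_lit 650))])], ⟨(nat_lit 6), false, false, false, (nat_lit 179), (nat_lit 3535), (nat_lit 3709), [(nat_lit 1368702), (nat_lit 1371303), (nat_lit 1412435), (nat_lit 1415205), (nat_lit 1480085), (nat_lit 1481138), (nat_lit 1523819), (nat_lit 1525040)]⟩, ⟨(nat_lit 3), false, false, false, (nat_lit 102), (nat_lit 3535), (nat_lit 3709), [(nat_lit 1110206), (nat_lit 1114070), (nat_lit 1219540), (nat_lit 1223825), (nat_lit 1285233), (nat_lit 1286665), (nat_lit 1394571), (nat_lit 1396424)]⟩, (nat_lit 3662920), (nat_lit 51187284), (nat_lit 11167819), (nat_lit 4644897), (nat_lit 3), (nat_lit 0),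 [⟨(nat_lit 0), (nat_lit 100), (nat_lit 71), (nat_lit 95), (nat_lit 24684141)⟩, ⟨(nat_lit 0), (nat_lit 96), (nat_lit 69), (nat_lit 100), (nat_lit 35125919)⟩], [⟨(nat_lit 0), (nat_lit 100), (nat_lit 66), (nat_lit 82), (nat_lit 195003741)⟩], [], [],
 ⟨⟨[(nat_lit 40), (nat_lit 60), (nat_lit 80)], [(nat_lit 0), (nat_lit 499), (nat_lit 1089)], [((nat_lit 0), (nat_lit 0), (nat_lit 0)), ((nat_lit 1000), (nat_lit 767), (nat_lit 387)), ((nat_lit 1000), (nat_lit 738), (nat_lit 461))], ((nat_lit 71), (nat_lit 100), (nat_lit 56))⟩, (nat_lit 681639), (nat_lit 185), (nat_lit 185), (nat_lit 0), (nat_lit 231687), [(nat_lit 1411968402), (nat_lit 1613657185), (nat_lit 1874872615)], [(nat_lit 0), (nat_lit 0), (nat_lit 0)], [(nat_lit 20018423602), (nat_lit 20594694464), (nat_lit 20332523464), (nat_lit 20857453586), (nat_lit 17637646614), (nat_lit 18160371028), (nat_lit 18265600707), (nat_lit 18716659575)], (nat_lit 1271251), (nat_lit 1271251), (nat_lit 559688), (nat_lit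 1100000), (nat_lit 54688), (nat_lit 780000), [(nat_lit 490000), (nat_lit 780000), (nat_lit 1100000)], [(nat_lit 2), (nat_lit 44), (nat_lit 289), (nat_lit 75), (nat_lit 13)]⟩,
 ⟨⟨[(nat_lit 80), (nat_lit 120), (nat_lit 140)], [(nat_lit 0), (nat_lit 0), (nat_lit 1164)], [((nat_lit 0), (nat_lit 0), (nat_lit 0)), ((nat_lit 0), (nat_lit 0), (nat_lit 0)), ((nat_lit 941), (nat_lit 1000), (nat_lit 576))], ((nat_lit 100), (nat_lit 95), (nat_lit 55))⟩, (nat_lit 0), (nat_lit 680), (nat_lit 680), (nat_lit 0), (nat_lit 958141), [(nat_lit 370352000), (nat_lit 629472000), (nat_lit 777518000)], [], [(nat_lit 3682393018), (nat_lit 2769154728), (nat_lit 2551221560), (nat_lit 2605728764), (nat_lit 2900681434), (nat_lit 2148051051), (nat_lit 3547331380), (nat_lit 2760763718)], (nat_lit 1271251), (nat_lit 1271251), (nat_lit 559688), (nat_lit 1100000), (nat_lit 0), (nat_lit 1412501), [(nat_lit 1100000), (nat_lit 1785001), (nat_lit 1271251)], [(nat_lit 17), (nat_lit 58),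 (nat_lit 401), (nat_lit 175), (nat_lit 12)]⟩,
 Rw.none⟩))) (.trZ (nat_lit 0) (nat_lit 1) (nat_lit 3) (nat_lit 100) (nat_lit 68) (nat_lit 89) (nat_lit 100) (.leaf ⟨(nat_lit 927), (nat_lit 73), (nat_lit 0), (nat_lit 0), (nat_lit 0), (nat_lit 3906), (nat_lit 860), (nat_lit 0), (nat_lit 0), (nat_lit 0), (nat_lit 330300), [((nat_lit 360), [((nat_lit 21), (nat_lit 0), (nat_lit 270)), ((nat_lit 21), (nat_lit 1), (nat_lit 657))])], ⟨(nat_lit 6), false, false, false, (nat_lit 183), (nat_lit 3162), (nat_lit 3536), [(nat_lit 1386958), (nat_lit 1391883), (nat_lit 1430847), (nat_lit 1436176), (nat_lit 1481116), (nat_lit 1483329), (nat_lit 1525005), (nat_lit 1527622)]⟩, ⟨(nat_lit 3), false, false, false, (nat_lit 103), (nat_lit 3162), (nat_lit 3536), [(nat_lit 1114056), (nat_lit 1121835), (nat_lit 1223777), (nat_lit 1232568), (nat_lit 1286665), (nat_lit 1289472), (nat_lit 1396400), (nat_lit 1400219)]⟩, (nat_lit 3732600), (nat_lit 50678254), (nat_lit 11565861), (nat_lit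 4755885), (nat_lit 3), (nat_lit 0), [⟨(nat_lit 0), (nat_lit 100), (nat_lit 66), (nat_lit 97), (nat_lit 39049425)⟩], [⟨(nat_lit 0), (nat_lit 100), (nat_lit 60), (nat_lit 86), (nat_lit 216586956)⟩], [], [],
 ⟨⟨[(nat_lit 40), (nat_lit 60), (nat_lit 80)], [(nat_lit 0), (nat_lit 600), (nat_lit 1195)], [((nat_lit 0), (nat_lit 0), (nat_lit 0)), ((nat_lit 1000), (nat_lit 725), (nat_lit 454)), ((nat_lit 1000), (nat_lit 720), (nat_lit 465))], ((nat_lit 69), (nat_lit 100), (nat_lit 56))⟩, (nat_lit 647665), (nat_lit 193), (nat_lit 193), (nat_lit 0), (nat_lit 252261), [(nat_lit 1408770401), (nat_lit 1602128309), (nat_lit 1855668291)], [(nat_lit 0), (nat_lit 0), (nat_lit 0)], [(nat_lit 20688563710), (nat_lit 21831450537), (nat_lit 20904655044), (nat_lit 21959049162), (nat_lit 18263055319), (nat_lit 19299419254), (nat_lit 18768970685), (nat_lit 19687344866)], (nat_lit 1271251), (nat_lit 1271251), (nat_lit 631250), (nat_lit 1100000), (nat_lit 54688), (nat_lit 780000),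 [(nat_lit 490000), (nat_lit 780000), (nat_lit 1100000)], [(nat_lit 2), (nat_lit 44), (nat_lit 289), (nat_lit 75), (nat_lit 13)]⟩,
 ⟨⟨[(nat_lit 80), (nat_lit 120), (nat_lit 140)], [(nat_lit 0), (nat_lit 0), (nat_lit 1164)], [((nat_lit 0), (nat_lit 0), (nat_lit 0)), ((nat_lit 0), (nat_lit 0), (nat_lit 0)), ((nat_lit 941), (nat_lit 1000), (nat_lit 576))], ((nat_lit 100), (nat_lit 95), (nat_lit 55))⟩, (nat_lit 0), (nat_lit 772), (nat_lit 772), (nat_lit 0), (nat_lit 1151458), [(nat_lit 342224000), (nat_lit 581664000), (nat_lit 718466000)], [], [(nat_lit 3243149600), (nat_lit 2378936630), (nat_lit 2158291268), (nat_lit 2263848216), (nat_lit 2712740636), (nat_lit 1923369211), (nat_lit 3270356876), (nat_lit 2496388696)], (nat_lit 1271251), (nat_lit 1271251), (nat_lit 631250), (nat_lit 1100000), (nat_lit 0), (nat_lit 1412501), [(nat_lit 1100000), (nat_lit 1785001), (nat_lit 1271251)], [(nat_lit 17), (nat_lit 58), (nat_lit 401), (nat_lit 175), (nat_lit 12)]⟩,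
 Rw.none⟩))) (.leaf ⟨(nat_lit 904), (nat_lit 96), (nat_lit 0), (nat_lit 0), (nat_lit 0), (nat_lit 3708), (nat_lit 893), (nat_lit 0), (nat_lit 0), (nat_lit 0), (nat_lit 525400), [((nat_lit 360), [((nat_lit 21), (nat_lit 1), (nat_lit 85)), ((nat_lit 39), (nat_lit 2), (nat_lit 819))])], ⟨(nat_lit 6), false, false, false, (nat_lit 226), (nat_lit 3162), (nat_lit 3873), [(nat_lit 1478975), (nat_lit 1483267), (nat_lit 1522504), (nat_lit 1527519), (nat_lit 1608082), (nat_lit 1605237), (nat_lit 1651611), (nat_lit 1649490)]⟩, ⟨(nat_lit 3), false, false, false, (nat_lit 102), (nat_lit 3162), (nat_lit 3873), [(nat_lit 1106311), (nat_lit 1121813), (nat_lit 1215133), (nat_lit 1232444), (nat_lit 1283782), (nat_lit 1289472), (nat_lit 1392656), (nat_lit 1400154)]⟩, (nat_lit 4110778), (nat_lit 46685796), (nat_lit 15768323), (nat_lit 4545881), (nat_lit 3), (nat_lit 0), [], [⟨(nat_lit 0), (nat_lit 100), (nat_lit 60), (nat_lit 86), (nat_lit 173854068)⟩], [], [],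
 ⟨⟨[(nat_lit 40), (nat_lit 60), (nat_lit 80)], [(nat_lit 0), (nat_lit 398), (nat_lit 992)], [((nat_lit 0), (nat_lit 0), (nat_lit 0)), ((nat_lit 1000), (nat_lit 814), (nat_lit 310)), ((nat_lit 1000), (nat_lit 752), (nat_lit 464))], ((nat_lit 73), (nat_lit 100), (nat_lit 55))⟩, (nat_lit 0), (nat_lit 183), (nat_lit 183), (nat_lit 0), (nat_lit 253588), [(nat_lit 1367195360), (nat_lit 1399608794), (nat_lit 1287662406)], [(nat_lit 0), (nat_lit 0), (nat_lit 0)], [(nat_lit 19558944318), (nat_lit 21605821716), (nat_lit 22474893225), (nat_lit 24231735321), (nat_lit 18544972132), (nat_lit 19861581728), (nat_lit 20799080208), (nat_lit 22114006564)], (nat_lit 1271251), (nat_lit 1271251), (nat_lit 1100000), (nat_lit 1785001), (nat_lit 54688), (nat_lit 780000), [(nat_lit 490000), (nat_lit 780000), (nat_lit 1100000)], [(nat_lit 2), (nat_lit 44), (nat_lit 238), (nat_lit 30), (nat_lit 10)]⟩,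
 ⟨⟨[(nat_lit 80), (nat_lit 120), (nat_lit 140)], [(nat_lit 0), (nat_lit 0), (nat_lit 1164)], [((nat_lit 0), (nat_lit 0), (nat_lit 0)), ((nat_lit 0), (nat_lit 0), (nat_lit 0)), ((nat_lit 941), (nat_lit 1000), (nat_lit 576))], ((nat_lit 100), (nat_lit 95), (nat_lit 55))⟩, (nat_lit 6371), (nat_lit 745), (nat_lit 745), (nat_lit 0), (nat_lit 1152964), [(nat_lit 450048000), (nat_lit 764928000), (nat_lit 944832000)], [], [(nat_lit 4180938968), (nat_lit 3845502596), (nat_lit 3767647124), (nat_lit 3817833680), (nat_lit 3206228040), (nat_lit 3248140863), (nat_lit 4020194096), (nat_lit 3216527137)], (nat_lit 1271251), (nat_lit 1271251), (nat_lit 1100000), (nat_lit 1785001), (nat_lit 0), (nat_lit 1412501), [(nat_lit 1100000), (nat_lit 1785001), (nat_lit 1271251)], [(nat_lit 17), (nat_lit 58), (nat_lit 428), (nat_lit 200), (nat_lit 12)]⟩,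
 Rw.none⟩)) (.leaf ⟨(nat_lit 918), (nat_lit 21), (nat_lit 0), (nat_lit 61), (nat_lit 0), (nat_lit 3495), (nat_lit 956), (nat_lit 904), (nat_lit 0), (nat_lit 0), (nat_lit 501200), [((nat_lit 360), [((nat_lit 21), (nat_lit 1), (nat_lit 248)), ((nat_lit 39), (nat_lit 2), (nat_lit 670))])], ⟨(nat_lit 6), false, false, false, (nat_lit 201), (nat_lit 3162), (nat_lit 3873), [(nat_lit 1349867), (nat_lit 1361295), (nat_lit 1393396), (nat_lit 1405548), (nat_lit 1608082), (nat_lit 1605237), (nat_lit 1651611), (nat_lit 1649490)]⟩, ⟨(nat_lit 3), false, false, false, (nat_lit 102), (nat_lit 3162), (nat_lit 3873), [(nat_lit 1106311), (nat_lit 1121813), (nat_lit 1215133), (nat_lit 1232444), (nat_lit 1283782), (nat_lit 1289472), (nat_lit 1392656), (nat_lit 1400154)]⟩, (nat_lit 3898284), (nat_lit 49058661), (nat_lit 13308860), (nat_lit 4632479), (nat_lit 5), (nat_lit 0), [⟨(nat_lit 0), (nat_lit 94), (nat_lit 62), (nat_lit 100), (nat_lit 56027129)⟩], [⟨(nat_lit 0), (nat_lit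 100), (nat_lit 67), (nat_lit 65), (nat_lit 167757611)⟩], [], [],
 ⟨⟨[(nat_lit 40), (nat_lit 60), (nat_lit 80)], [(nat_lit 0), (nat_lit 398), (nat_lit 992)], [((nat_lit 0), (nat_lit 0), (nat_lit 0)), ((nat_lit 1000), (nat_lit 814), (nat_lit 310)), ((nat_lit 1000), (nat_lit 752), (nat_lit 464))], ((nat_lit 73), (nat_lit 100), (nat_lit 55))⟩, (nat_lit 3243), (nat_lit 198), (nat_lit 198), (nat_lit 0), (nat_lit 253588), [(nat_lit 1366817658), (nat_lit 1407025129), (nat_lit 1339379271)], [(nat_lit 0), (nat_lit 0), (nat_lit 0)], [(nat_lit 18716323918), (nat_lit 20874092490), (nat_lit 22182910112), (nat_lit 23835301159), (nat_lit 18599654864), (nat_lit 19925287221), (nat_lit 21804953004), (nat_lit 22857393161)], (nat_lit 1271251), (nat_lit 1271251), (nat_lit 490000), (nat_lit 1740001), (nat_lit 54688), (nat_lit 780000), [(nat_lit 490000), (nat_lit 780000), (nat_lit 1100000)], [(nat_lit 2), (nat_lit 44), (nat_lit 317), (nat_lit 100), (nat_lit 15)]⟩,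
 ⟨⟨[(nat_lit 80), (nat_lit 120), (nat_lit 140)], [(nat_lit 0), (nat_lit 0), (nat_lit 1164)], [((nat_lit 0), (nat_lit 0), (nat_lit 0)), ((nat_lit 0), (nat_lit 0), (nat_lit 0)), ((nat_lit 941), (nat_lit 1000), (nat_lit 576))], ((nat_lit 100), (nat_lit 95), (nat_lit 55))⟩, (nat_lit 189304), (nat_lit 659), (nat_lit 659), (nat_lit 0), (nat_lit 1152964), [(nat_lit 384416000), (nat_lit 653376000), (nat_lit 807044000)], [], [(nat_lit 1790624256), (nat_lit 1848815566), (nat_lit 2560586112), (nat_lit 1718622414), (nat_lit 3012628688), (nat_lit 3250621060), (nat_lit 2829797272), (nat_lit 2999816716)], (nat_lit 1271251), (nat_lit 1271251), (nat_lit 490000), (nat_lit 1740001), (nat_lit 1271251), (nat_lit 1271251), [(nat_lit 1100000), (nat_lit 1785001), (nat_lit 1271251)], [(nat_lit 17), (nat_lit 58), (nat_lit 483), (nat_lit 250), (nat_lit 13)]⟩,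
 ⟨⟨[(nat_lit 140), (nat_lit 180), (nat_lit 200)], [(nat_lit 0), (nat_lit 0), (nat_lit 2835)], [((nat_lit 0), (nat_lit 0), (nat_lit 0)), ((nat_lit 0), (nat_lit 0), (nat_lit 0)), ((nat_lit 363), (nat_lit 1000), (nat_lit 798))], ((nat_lit 0), (nat_lit 0), (nat_lit 0))⟩, (nat_lit 16783), (nat_lit 300), (nat_lit 887), (nat_lit 4764101), (nat_lit 921720), [(nat_lit 600362000), (nat_lit 857538000), (nat_lit 1000400000)], [], [(nat_lit 4019129582), (nat_lit 3718516017), (nat_lit 3326116740), (nat_lit 3475124266), (nat_lit 4191278324), (nat_lit 3909353158), (nat_lit 3416962748), (nat_lit 3118435994)], (nat_lit 780000), (nat_lit 1598751), (nat_lit 54688), (nat_lit 780000), (nat_lit 1271251), (nat_lit 1271251), [(nat_lit 1977501), (nat_lit 1271251), (nat_lit 1271251)], [(nat_lit 32), (nat_lit 67), (nat_lit 428), (nat_lit 200), (nat_lit 9)]⟩⟩))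
noncomputable def c8_2 : Tr Lf :=
 (.trZ (nat_lit 0) (nat_lit 1) (nat_lit 3) (nat_lit 99) (nat_lit 77) (nat_lit 100) (nat_lit 120) (.spl (nat_lit 5) (nat_lit 200) (.spl (nat_lit 5) (nat_lit 120) (.leaf ⟨(nat_lit 533), (nat_lit 467), (nat_lit 0), (nat_lit 0), (nat_lit 0), (nat_lit 3787), (nat_lit 4332), (nat_lit 0), (nat_lit 0), (nat_lit 0), (nat_lit 227400), [((nat_lit 360), [((nat_lit 21), (nat_lit 0), (nat_lit 264)), ((nat_lit 39), (nat_lit 2), (nat_lit 269))])], ⟨(nat_lit 7), false, false, false, (nat_lit 231), (nat_lit 3162), (nat_lit 3873), [(nat_lit 1457950), (nat_lit 1466533), (nat_lit 1501479), (nat_lit 1510785), (nat_lit 1651611), (nat_lit 1649490), (nat_lit 1695141), (nat_lit 1693742)]⟩, ⟨(nat_lit 3), false, false, false, (nat_lit 102), (nat_lit 3162), (nat_lit 3873), [(nat_lit 1106311), (nat_lit 1121813), (nat_lit 1215133), (nat_lit 1232444), (nat_lit 1283782), (nat_lit 1289472), (nat_lit 1392656), (nat_lit 1400154)]⟩, (nat_lit 4147703),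 (nat_lit 46213275), (nat_lit 16261282), (nat_lit 4525443), (nat_lit 3), (nat_lit 0), [⟨(nat_lit 0), (nat_lit 88), (nat_lit 67), (nat_lit 100), (nat_lit 35995757)⟩], [⟨(nat_lit 0), (nat_lit 100), (nat_lit 60), (nat_lit 86), (nat_lit 87275548)⟩], [], [],
 ⟨⟨[(nat_lit 40), (nat_lit 60), (nat_lit 80)], [(nat_lit 0), (nat_lit 398), (nat_lit 992)], [((nat_lit 0), (nat_lit 0), (nat_lit 0)), ((nat_lit 1000), (nat_lit 814), (nat_lit 310)), ((nat_lit 1000), (nat_lit 752), (nat_lit 464))], ((nat_lit 73), (nat_lit 100), (nat_lit 55))⟩, (nat_lit 2813602), (nat_lit 206), (nat_lit 206), (nat_lit 0), (nat_lit 316975), [(nat_lit 1601198083), (nat_lit 2289516035), (nat_lit 2936228800)], [(nat_lit 0), (nat_lit 0), (nat_lit 0)], [(nat_lit 19448455381), (nat_lit 21635398587), (nat_lit 22601784378), (nat_lit 24378769588), (nat_lit 17798667729), (nat_lit 19329852168), (nat_lit 20907140965), (nat_lit 22175325021)], (nat_lit 1271251), (nat_lit 1271251), (nat_lit 780000), (nat_lit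 1762501), (nat_lit 54688), (nat_lit 780000), [(nat_lit 490000), (nat_lit 780000), (nat_lit 1100000)], [(nat_lit 2), (nat_lit 44), (nat_lit 317), (nat_lit 100), (nat_lit 14)]⟩,
 ⟨⟨[(nat_lit 60), (nat_lit 100), (nat_lit 120)], [(nat_lit 0), (nat_lit 0), (nat_lit 1164)], [((nat_lit 0), (nat_lit 0), (nat_lit 0)), ((nat_lit 0), (nat_lit 0), (nat_lit 0)), ((nat_lit 1000), (nat_lit 933), (nat_lit 572))], ((nat_lit 93), (nat_lit 100), (nat_lit 55))⟩, (nat_lit 1264462), (nat_lit 555), (nat_lit 555), (nat_lit 0), (nat_lit 890063), [(nat_lit 1532694000), (nat_lit 2918750000), (nat_lit 3721056000)], [], [(nat_lit 12753243848), (nat_lit 13510319080), (nat_lit 12915678494), (nat_lit 13659542844), (nat_lit 10727285359), (nat_lit 11374421517), (nat_lit 14531713884), (nat_lit 11251228952)], (nat_lit 1271251), (nat_lit 1271251), (nat_lit 780000), (nat_lit 1762501), (nat_lit 0), (nat_lit 780000), [(nat_lit 780000), (nat_lit 1435001), (nat_lit 1271251)], [(nat_lit 10),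 (nat_lit 54), (nat_lit 317), (nat_lit 100), (nat_lit 10)]⟩,
 Rw.none⟩) (.spl (nat_lit 0) (nat_lit 350) (.leaf ⟨(nat_lit 685), (nat_lit 273), (nat_lit 0), (nat_lit 42), (nat_lit 0), (nat_lit 3714), (nat_lit 2271), (nat_lit 581), (nat_lit 0), (nat_lit 0), (nat_lit 355700), [((nat_lit 350), [((nat_lit 21), (nat_lit 0), (nat_lit 158)), ((nat_lit 39), (nat_lit 2), (nat_lit 527))])], ⟨(nat_lit 7), false, false, false, (nat_lit 231), (nat_lit 3535), (nat_lit 3873), [(nat_lit 1458093), (nat_lit 1462251), (nat_lit 1501667), (nat_lit 1506144), (nat_lit 1651675), (nat_lit 1650552), (nat_lit 1695250), (nat_lit 1694446)]⟩, ⟨(nat_lit 3), false, false, false, (nat_lit 101), (nat_lit 3535), (nat_lit 3873), [(nat_lit 1106345), (nat_lit 1114069), (nat_lit 1215281), (nat_lit 1223801), (nat_lit 1283782), (nat_lit 1286665), (nat_lit 1392731), (nat_lit 1396411)]⟩, (nat_lit 4131062), (nat_lit 46307879), (nat_lit 16239134), (nat_lit 4452987), (nat_lit 3), (nat_lit 0), [⟨(nat_lit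 0), (nat_lit 89), (nat_lit 71), (nat_lit 100), (nat_lit 133408522)⟩], [⟨(nat_lit 0), (nat_lit 100), (nat_lit 70), (nat_lit 62), (nat_lit 9396002)⟩, ⟨(nat_lit 0), (nat_lit 100), (nat_lit 66), (nat_lit 82), (nat_lit 129306030)⟩], [], [],
 ⟨⟨[(nat_lit 40), (nat_lit 60), (nat_lit 80)], [(nat_lit 0), (nat_lit 398), (nat_lit 992)], [((nat_lit 0), (nat_lit 0), (nat_lit 0)), ((nat_lit 1000), (nat_lit 814), (nat_lit 310)), ((nat_lit 1000), (nat_lit 752), (nat_lit 464))], ((nat_lit 73), (nat_lit 100), (nat_lit 55))⟩, (nat_lit 1723401), (nat_lit 196), (nat_lit 196), (nat_lit 0), (nat_lit 302107), [(nat_lit 1503900001), (nat_lit 1894635884), (nat_lit 2246585116)], [(nat_lit 0), (nat_lit 0), (nat_lit 0)], [(nat_lit 19326533409), (nat_lit 20407786619), (nat_lit 22484530528), (nat_lit 23363716504), (nat_lit 17809821853), (nat_lit 18459687991), (nat_lit 20693710919), (nat_lit 21319596437)], (nat_lit 1271251), (nat_lit 1271251), (nat_lit 780000), (nat_lit 1762501),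 (nat_lit 54688), (nat_lit 780000), [(nat_lit 490000), (nat_lit 780000), (nat_lit 1100000)], [(nat_lit 2), (nat_lit 44), (nat_lit 317), (nat_lit 100), (nat_lit 14)]⟩,
 ⟨⟨[(nat_lit 60), (nat_lit 100), (nat_lit 120)], [(nat_lit 0), (nat_lit 0), (nat_lit 1164)], [((nat_lit 0), (nat_lit 0), (nat_lit 0)), ((nat_lit 0), (nat_lit 0), (nat_lit 0)), ((nat_lit 1000), (nat_lit 933), (nat_lit 572))], ((nat_lit 93), (nat_lit 100), (nat_lit 55))⟩, (nat_lit 642346), (nat_lit 517), (nat_lit 517), (nat_lit 0), (nat_lit 980030), [(nat_lit 1033830000), (nat_lit 1968750000), (nat_lit 2509920000)], [], [(nat_lit 9090435158), (nat_lit 9542564991), (nat_lit 9333300291), (nat_lit 9741671004), (nat_lit 9164363580), (nat_lit 9582488955), (nat_lit 9751255611), (nat_lit 9721167252)], (nat_lit 1271251), (nat_lit 1271251), (nat_lit 780000), (nat_lit 1762501), (nat_lit 780000), (nat_lit 1435001), [(nat_lit 780000), (nat_lit 1435001), (nat_lit 1271251)], [(nat_lit 10), (nat_lit 54),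 (nat_lit 345), (nat_lit 125), (nat_lit 11)]⟩,
 ⟨⟨[(nat_lit 140), (nat_lit 180), (nat_lit 200)], [(nat_lit 0), (nat_lit 0), (nat_lit 2835)], [((nat_lit 0), (nat_lit 0), (nat_lit 0)), ((nat_lit 0), (nat_lit 0), (nat_lit 0)), ((nat_lit 363), (nat_lit 1000), (nat_lit 798))], ((nat_lit 0), (nat_lit 0), (nat_lit 0))⟩, (nat_lit 11556), (nat_lit 300), (nat_lit 997), (nat_lit 3280200), (nat_lit 1061530), [(nat_lit 413364000), (nat_lit 590436000), (nat_lit 688800000)], [], [(nat_lit 2987423993), (nat_lit 2801314624), (nat_lit 2536454788), (nat_lit 2359249150), (nat_lit 2815011425), (nat_lit 2626179189), (nat_lit 2373367087), (nat_lit 2776215784)], (nat_lit 780000), (nat_lit 1598751), (nat_lit 54688), (nat_lit 780000), (nat_lit 780000), (nat_lit 1435001), [(nat_lit 1977501), (nat_lit 1271251), (nat_lit 1271251)], [(nat_lit 32), (nat_lit 67), (nat_lit 373), (nat_lit 150), (nat_lit 8)]⟩⟩) (.trZ (nat_lit 0) (nat_lit 1) (nat_lit 3) (nat_lit 96) (nat_lit 69) (nat_lit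 100) (nat_lit 130) (.leaf ⟨(nat_lit 837), (nat_lit 132), (nat_lit 0), (nat_lit 31), (nat_lit 0), (nat_lit 3544), (nat_lit 1642), (nat_lit 399), (nat_lit 0), (nat_lit 0), (nat_lit 425400), [((nat_lit 360), [((nat_lit 21), (nat_lit 1), (nat_lit 384)), ((nat_lit 39), (nat_lit 2), (nat_lit 453))])], ⟨(nat_lit 7), false, false, false, (nat_lit 235), (nat_lit 3162), (nat_lit 3536), [(nat_lit 1477926), (nat_lit 1481899), (nat_lit 1521815), (nat_lit 1526193), (nat_lit 1650549), (nat_lit 1649550), (nat_lit 1694437), (nat_lit 1693843)]⟩, ⟨(nat_lit 3), false, false, false, (nat_lit 103), (nat_lit 3162), (nat_lit 3536), [(nat_lit 1114056), (nat_lit 1121835), (nat_lit 1223777), (nat_lit 1232568), (nat_lit 1286665), (nat_lit 1289472), (nat_lit 1396400), (nat_lit 1400219)]⟩, (nat_lit 4186742), (nat_lit 45821429), (nat_lit 16592239), (nat_lit 4586332), (nat_lit 3), (nat_lit 0), [⟨(nat_lit 0), (nat_lit 88), (nat_lit 64), (nat_lit 100), (nat_lit 36339291)⟩], [⟨(nat_lit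 0), (nat_lit 100), (nat_lit 64), (nat_lit 68), (nat_lit 141973629)⟩, ⟨(nat_lit 0), (nat_lit 100), (nat_lit 60), (nat_lit 86), (nat_lit 26796591)⟩], [], [],
 ⟨⟨[(nat_lit 40), (nat_lit 60), (nat_lit 80)], [(nat_lit 0), (nat_lit 600), (nat_lit 1195)], [((nat_lit 0), (nat_lit 0), (nat_lit 0)), ((nat_lit 1000), (nat_lit 725), (nat_lit 454)), ((nat_lit 1000), (nat_lit 720), (nat_lit 465))], ((nat_lit 69), (nat_lit 100), (nat_lit 56))⟩, (nat_lit 880217), (nat_lit 204), (nat_lit 204), (nat_lit 0), (nat_lit 315783), [(nat_lit 1419071203), (nat_lit 1622042118), (nat_lit 1718868800)], [(nat_lit 0), (nat_lit 0), (nat_lit 0)], [(nat_lit 20150416368), (nat_lit 21189465645), (nat_lit 23068986622), (nat_lit 23926499628), (nat_lit 18882315459), (nat_lit 19539618852), (nat_lit 21433398414), (nat_lit 21987447012)], (nat_lit 1271251), (nat_lit 1271251), (nat_lit 857188), (nat_lit 1768126), (nat_lit 54688), (nat_lit 780000), [(nat_lit 490000), (nat_lit 780000), (nat_lit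 1100000)], [(nat_lit 2), (nat_lit 44), (nat_lit 317), (nat_lit 100), (nat_lit 14)]⟩,
 ⟨⟨[(nat_lit 60), (nat_lit 100), (nat_lit 120)], [(nat_lit 0), (nat_lit 0), (nat_lit 1164)], [((nat_lit 0), (nat_lit 0), (nat_lit 0)), ((nat_lit 0), (nat_lit 0), (nat_lit 0)), ((nat_lit 1000), (nat_lit 933), (nat_lit 572))], ((nat_lit 93), (nat_lit 100), (nat_lit 55))⟩, (nat_lit 281095), (nat_lit 554), (nat_lit 554), (nat_lit 0), (nat_lit 1079207), [(nat_lit 534966000), (nat_lit 1018750000), (nat_lit 1298784000)], [], [(nat_lit 3196519871), (nat_lit 3399915047), (nat_lit 3163235742), (nat_lit 3518295044), (nat_lit 3106460099), (nat_lit 3274648427), (nat_lit 4452381670), (nat_lit 3567310030)], (nat_lit 1271251), (nat_lit 1271251), (nat_lit 857188), (nat_lit 1768126), (nat_lit 780000), (nat_lit 1435001), [(nat_lit 780000), (nat_lit 1435001), (nat_lit 1271251)], [(nat_lit 10), (nat_lit 54), (nat_lit 345), (nat_lit 125), (nat_lit 11)]⟩,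
 ⟨⟨[(nat_lit 140), (nat_lit 180), (nat_lit 200)], [(nat_lit 0), (nat_lit 0), (nat_lit 2835)], [((nat_lit 0), (nat_lit 0), (nat_lit 0)), ((nat_lit 0), (nat_lit 0), (nat_lit 0)), ((nat_lit 363), (nat_lit 1000), (nat_lit 798))], ((nat_lit 0), (nat_lit 0), (nat_lit 0))⟩, (nat_lit 8529), (nat_lit 300), (nat_lit 1036), (nat_lit 2421102), (nat_lit 1149320), [(nat_lit 305102000), (nat_lit 435798000), (nat_lit 508400000)], [], [(nat_lit 2227798980), (nat_lit 2103484788), (nat_lit 1942187332), (nat_lit 1805215073), (nat_lit 2112129608), (nat_lit 1985822528), (nat_lit 1821382173), (nat_lit 2011885430)], (nat_lit 780000), (nat_lit 1598751), (nat_lit 54688), (nat_lit 780000), (nat_lit 780000), (nat_lit 1435001), [(nat_lit 1977501), (nat_lit 1271251), (nat_lit 1271251)], [(nat_lit 32), (nat_lit 67), (nat_lit 373), (nat_lit 150), (nat_lit 8)]⟩⟩)))) (.spl (nat_lit 0) (nat_lit 350) (.leaf ⟨(nat_lit 708), (nat_lit 180), (nat_lit 0), (nat_lit 112), (nat_lit 0), (nat_lit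 3415), (nat_lit 2186), (nat_lit 1608), (nat_lit 0), (nat_lit 0), (nat_lit 375800), [((nat_lit 350), [((nat_lit 21), (nat_lit 0), (nat_lit 140)), ((nat_lit 39), (nat_lit 2), (nat_lit 568))])], ⟨(nat_lit 7), false, false, false, (nat_lit 231), (nat_lit 3535), (nat_lit 3873), [(nat_lit 1458093), (nat_lit 1462251), (nat_lit 1501667), (nat_lit 1506144), (nat_lit 1651675), (nat_lit 1650552), (nat_lit 1695250), (nat_lit 1694446)]⟩, ⟨(nat_lit 3), false, false, false, (nat_lit 101), (nat_lit 3535), (nat_lit 3873), [(nat_lit 1106345), (nat_lit 1114069), (nat_lit 1215281), (nat_lit 1223801), (nat_lit 1283782), (nat_lit 1286665), (nat_lit 1392731), (nat_lit 1396411)]⟩, (nat_lit 4131062), (nat_lit 46307879), (nat_lit 16239134), (nat_lit 4452987), (nat_lit 5), (nat_lit 0), [⟨(nat_lit 0), (nat_lit 80), (nat_lit 66), (nat_lit 100), (nat_lit 178416568)⟩], [⟨(nat_lit 0), (nat_lit 100), (nat_lit 78), (nat_lit 39), (nat_lit 149900019)⟩], [], [⟨(nat_lit 1), (nat_lit 87),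 (nat_lit 100), (nat_lit 41), (nat_lit 10431533)⟩],
 ⟨⟨[(nat_lit 40), (nat_lit 60), (nat_lit 80)], [(nat_lit 0), (nat_lit 398), (nat_lit 992)], [((nat_lit 0), (nat_lit 0), (nat_lit 0)), ((nat_lit 1000), (nat_lit 814), (nat_lit 310)), ((nat_lit 1000), (nat_lit 752), (nat_lit 464))], ((nat_lit 73), (nat_lit 100), (nat_lit 55))⟩, (nat_lit 1270779), (nat_lit 196), (nat_lit 196), (nat_lit 0), (nat_lit 302107), [(nat_lit 1489070401), (nat_lit 1841671926), (nat_lit 2136970474)], [(nat_lit 0), (nat_lit 0), (nat_lit 0)], [(nat_lit 19164789773), (nat_lit 19859801595), (nat_lit 22067974208), (nat_lit 22845338653), (nat_lit 19069080816), (nat_lit 19692779633), (nat_lit 21742434370), (nat_lit 22263345709)], (nat_lit 1271251), (nat_lit 1271251), (nat_lit 780000), (nat_lit 1762501), (nat_lit 54688), (nat_lit 780000), [(nat_lit 490000), (nat_lit 780000), (nat_lit 1100000)], [(nat_lit 2), (nat_lit 44), (nat_lit 317), (nat_lit 100), (nat_lit 14)]⟩,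
 ⟨⟨[(nat_lit 60), (nat_lit 100), (nat_lit 120)], [(nat_lit 0), (nat_lit 0), (nat_lit 1164)], [((nat_lit 0), (nat_lit 0), (nat_lit 0)), ((nat_lit 0), (nat_lit 0), (nat_lit 0)), ((nat_lit 1000), (nat_lit 933), (nat_lit 572))], ((nat_lit 93), (nat_lit 100), (nat_lit 55))⟩, (nat_lit 467621), (nat_lit 493), (nat_lit 493), (nat_lit 0), (nat_lit 980030), [(nat_lit 958344000), (nat_lit 1825000000), (nat_lit 2326656000)], [], [(nat_lit 8342297684), (nat_lit 8734359058), (nat_lit 8475582650), (nat_lit 8776986936), (nat_lit 10005738950), (nat_lit 10207452420), (nat_lit 9779514028), (nat_lit 9935602384)], (nat_lit 1271251), (nat_lit 1271251), (nat_lit 780000), (nat_lit 1762501), (nat_lit 1271251), (nat_lit 1271251), [(nat_lit 780000), (nat_lit 1435001), (nat_lit 1271251)], [(nat_lit 10), (nat_lit 54), (nat_lit 401), (nat_lit 175), (nat_lit 12)]⟩,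
 ⟨⟨[(nat_lit 140), (nat_lit 180), (nat_lit 200)], [(nat_lit 0), (nat_lit 0), (nat_lit 2835)], [((nat_lit 0), (nat_lit 0), (nat_lit 0)), ((nat_lit 0), (nat_lit 0), (nat_lit 0)), ((nat_lit 363), (nat_lit 1000), (nat_lit 798))], ((nat_lit 0), (nat_lit 0), (nat_lit 0))⟩, (nat_lit 30815), (nat_lit 300), (nat_lit 945), (nat_lit 8747200), (nat_lit 1061530), [(nat_lit 1102304000), (nat_lit 1574496000), (nat_lit 1836800000)], [], [(nat_lit 7439085838), (nat_lit 6909833092), (nat_lit 6211076440), (nat_lit 6349846722), (nat_lit 7681065052), (nat_lit 7121376292), (nat_lit 6308576976), (nat_lit 5783215652)], (nat_lit 780000), (nat_lit 1598751), (nat_lit 54688), (nat_lit 780000), (nat_lit 1271251), (nat_lit 1271251), [(nat_lit 1977501), (nat_lit 1271251), (nat_lit 1271251)], [(nat_lit 32), (nat_lit 67), (nat_lit 428), (nat_lit 200), (nat_lit 9)]⟩⟩) (.trZ (nat_lit 0) (nat_lit 1) (nat_lit 3) (nat_lit 96) (nat_lit 69) (nat_lit 100) (nat_lit 130) (.leaf ⟨(nat_lit 755),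 (nat_lit 149), (nat_lit 0), (nat_lit 96), (nat_lit 0), (nat_lit 3342), (nat_lit 1874), (nat_lit 1397), (nat_lit 0), (nat_lit 0), (nat_lit 257900), [((nat_lit 360), [((nat_lit 21), (nat_lit 0), (nat_lit 294)), ((nat_lit 21), (nat_lit 1), (nat_lit 461))])], ⟨(nat_lit 7), false, false, false, (nat_lit 235), (nat_lit 3162), (nat_lit 3536), [(nat_lit 1477926), (nat_lit 1481899), (nat_lit 1521815), (nat_lit 1526193), (nat_lit 1650549), (nat_lit 1649550), (nat_lit 1694437), (nat_lit 1693843)]⟩, ⟨(nat_lit 3), false, false, false, (nat_lit 103), (nat_lit 3162), (nat_lit 3536), [(nat_lit 1114056), (nat_lit 1121835), (nat_lit 1223777), (nat_lit 1232568), (nat_lit 1286665), (nat_lit 1289472), (nat_lit 1396400), (nat_lit 1400219)]⟩, (nat_lit 4186742), (nat_lit 45821429), (nat_lit 16592239), (nat_lit 4586332), (nat_lit 5), (nat_lit 0), [⟨(nat_lit 0), (nat_lit 80), (nat_lit 60), (nat_lit 100), (nat_lit 155685986)⟩], [⟨(nat_lit 0), (nat_lit 100), (nat_lit 64), (nat_lit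 68), (nat_lit 184571804)⟩, ⟨(nat_lit 0), (nat_lit 100), (nat_lit 72), (nat_lit 46), (nat_lit 54823246)⟩], [], [],
 ⟨⟨[(nat_lit 40), (nat_lit 60), (nat_lit 80)], [(nat_lit 0), (nat_lit 600), (nat_lit 1195)], [((nat_lit 0), (nat_lit 0), (nat_lit 0)), ((nat_lit 1000), (nat_lit 725), (nat_lit 454)), ((nat_lit 1000), (nat_lit 720), (nat_lit 465))], ((nat_lit 69), (nat_lit 100), (nat_lit 56))⟩, (nat_lit 1304034), (nat_lit 204), (nat_lit 204), (nat_lit 0), (nat_lit 315783), [(nat_lit 1499823631), (nat_lit 1925808650), (nat_lit 2409982400)], [(nat_lit 0), (nat_lit 0), (nat_lit 0)], [(nat_lit 19947445417), (nat_lit 20795630259), (nat_lit 22718778175), (nat_lit 23550538592), (nat_lit 19824105214), (nat_lit 20462875095), (nat_lit 22377548173), (nat_lit 22917194979)], (nat_lit 1271251), (nat_lit 1271251), (nat_lit 857188), (nat_lit 1768126), (nat_lit 54688), (nat_lit 780000), [(nat_lit 490000), (nat_lit 780000), (nat_lit 1100000)], [(nat_lit 2), (nat_lit 44),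 (nat_lit 317), (nat_lit 100), (nat_lit 14)]⟩,
 ⟨⟨[(nat_lit 60), (nat_lit 100), (nat_lit 120)], [(nat_lit 0), (nat_lit 0), (nat_lit 1164)], [((nat_lit 0), (nat_lit 0), (nat_lit 0)), ((nat_lit 0), (nat_lit 0), (nat_lit 0)), ((nat_lit 1000), (nat_lit 933), (nat_lit 572))], ((nat_lit 93), (nat_lit 100), (nat_lit 55))⟩, (nat_lit 369017), (nat_lit 530), (nat_lit 530), (nat_lit 0), (nat_lit 1079207), [(nat_lit 804090000), (nat_lit 1531250000), (nat_lit 1952160000)], [], [(nat_lit 7497096363), (nat_lit 7735253753), (nat_lit 7505890216), (nat_lit 7687729954), (nat_lit 8504790812), (nat_lit 8627106637), (nat_lit 8297116424), (nat_lit 8380796200)], (nat_lit 1271251), (nat_lit 1271251), (nat_lit 857188), (nat_lit 1768126), (nat_lit 1271251), (nat_lit 1271251), [(nat_lit 780000), (nat_lit 1435001), (nat_lit 1271251)], [(nat_lit 10), (nat_lit 54), (nat_lit 401), (nat_lit 175), (nat_lit 12)]⟩,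
 ⟨⟨[(nat_lit 140), (nat_lit 180), (nat_lit 200)], [(nat_lit 0), (nat_lit 0), (nat_lit 2835)], [((nat_lit 0), (nat_lit 0), (nat_lit 0)), ((nat_lit 0), (nat_lit 0), (nat_lit 0)), ((nat_lit 363), (nat_lit 1000), (nat_lit 798))], ((nat_lit 0), (nat_lit 0), (nat_lit 0))⟩, (nat_lit 26413), (nat_lit 300), (nat_lit 984), (nat_lit 7497600), (nat_lit 1149320), [(nat_lit 944832000), (nat_lit 1349568000), (nat_lit 1574400000)], [], [(nat_lit 6354791726), (nat_lit 5892948344), (nat_lit 5286169687), (nat_lit 5453819708), (nat_lit 6588970717), (nat_lit 6116378257), (nat_lit 5394776330), (nat_lit 4936246814)], (nat_lit 780000), (nat_lit 1598751), (nat_lit 54688), (nat_lit 780000), (nat_lit 1271251), (nat_lit 1271251), [(nat_lit 1977501), (nat_lit 1271251), (nat_lit 1271251)], [(nat_lit 32), (nat_lit 67), (nat_lit 428), (nat_lit 200), (nat_lit 9)]⟩⟩)))))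
noncomputable def c8_3 : Tr Lf :=
 (.spl (nat_lit 1) (nat_lit 280) (.spl (nat_lit 5) (nat_lit 200) (.spl (nat_lit 6) (nat_lit 16) (.spl (nat_lit 1) (nat_lit 260) (.leaf ⟨(nat_lit 891), (nat_lit 105), (nat_lit 0), (nat_lit 4), (nat_lit 0), (nat_lit 3274), (nat_lit 974), (nat_lit 54), (nat_lit 0), (nat_lit 0), (nat_lit 530400), [((nat_lit 360), [((nat_lit 21), (nat_lit 0), (nat_lit 12)), ((nat_lit 39), (nat_lit 2), (nat_lit 879))])], ⟨(nat_lit 6), false, true, true, (nat_lit 272), (nat_lit 3162), (nat_lit 3873), [(nat_lit 1608082), (nat_lit 1605237), (nat_lit 1629847), (nat_lit 1627364), (nat_lit 1737150), (nat_lit 1727168), (nat_lit 1758943), (nat_lit 1749323)]⟩, ⟨(nat_lit 3), false, false, false, (nat_lit 102), (nat_lit 3162), (nat_lit 3873), [(nat_lit 1106311), (nat_lit 1121813), (nat_lit 1215133), (nat_lit 1232444), (nat_lit 1283782), (nat_lit 1289472), (nat_lit 1392656), (nat_lit 1400154)]⟩, (nat_lit 4385129), (nat_lit 42402727), (nat_lit 20269947),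 (nat_lit 4327326), (nat_lit 3), (nat_lit 0), [], [⟨(nat_lit 0), (nat_lit 100), (nat_lit 60), (nat_lit 86), (nat_lit 159946863)⟩], [], [],
 ⟨⟨[(nat_lit 40), (nat_lit 60), (nat_lit 80)], [(nat_lit 0), (nat_lit 398), (nat_lit 992)], [((nat_lit 0), (nat_lit 0), (nat_lit 0)), ((nat_lit 1000), (nat_lit 814), (nat_lit 310)), ((nat_lit 1000), (nat_lit 752), (nat_lit 464))], ((nat_lit 77), (nat_lit 100), (nat_lit 42))⟩, (nat_lit 463884), (nat_lit 192), (nat_lit 192), (nat_lit 0), (nat_lit 224894), [(nat_lit 1371872820), (nat_lit 1418849471), (nat_lit 1289302329)], [(nat_lit 0), (nat_lit 0), (nat_lit 0)], [(nat_lit 21984642329), (nat_lit 23423977451), (nat_lit 26052566973), (nat_lit 27411227009), (nat_lit 21751487929), (nat_lit 22774597298), (nat_lit 24597987664), (nat_lit 25498340274)], (nat_lit 1271251), (nat_lit 1271251), (nat_lit 1271251), (nat_lit 1271251), (nat_lit 54688), (nat_lit 780000), [(nat_lit 490000), (nat_lit 780000), (nat_lit 1100000)], [(nat_lit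 2), (nat_lit 44), (nat_lit 238), (nat_lit 30), (nat_lit 10)]⟩,
 ⟨⟨[(nat_lit 80), (nat_lit 100), (nat_lit 120)], [(nat_lit 0), (nat_lit 0), (nat_lit 511)], [((nat_lit 0), (nat_lit 0), (nat_lit 0)), ((nat_lit 0), (nat_lit 0), (nat_lit 0)), ((nat_lit 1000), (nat_lit 997), (nat_lit 383))], ((nat_lit 100), (nat_lit 100), (nat_lit 40))⟩, (nat_lit 428003), (nat_lit 635), (nat_lit 635), (nat_lit 0), (nat_lit 1129291), [(nat_lit 510992000), (nat_lit 681250000), (nat_lit 868512000)], [], [(nat_lit 3091179542), (nat_lit 3143114606), (nat_lit 3300912207), (nat_lit 3344107697), (nat_lit 2544145013), (nat_lit 2584425852), (nat_lit 2721380238), (nat_lit 2754323233)], (nat_lit 1271251), (nat_lit 1271251), (nat_lit 1271251), (nat_lit 1271251), (nat_lit 0), (nat_lit 1412501), [(nat_lit 1100000), (nat_lit 1442501), (nat_lit 1271251)], [(nat_lit 16), (nat_lit 54), (nat_lit 260), (nat_lit 50), (nat_lit 8)]⟩,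
 ⟨⟨[(nat_lit 140), (nat_lit 160), (nat_lit 180)], [(nat_lit 0), (nat_lit 0), (nat_lit 799)], [((nat_lit 0), (nat_lit 0), (nat_lit 0)), ((nat_lit 0), (nat_lit 0), (nat_lit 0)), ((nat_lit 728), (nat_lit 1000), (nat_lit 454))], ((nat_lit 100), (nat_lit 75), (nat_lit 43))⟩, (nat_lit 3514), (nat_lit 300), (nat_lit 906), (nat_lit 296802), (nat_lit 805890), [(nat_lit 39368000), (nat_lit 47488000), (nat_lit 56232000)], [], [(nat_lit 321121956), (nat_lit 280365707), (nat_lit 245117268), (nat_lit 225676867), (nat_lit 221487812), (nat_lit 229792163), (nat_lit 195031330), (nat_lit 257517762)], (nat_lit 780000), (nat_lit 1598751), (nat_lit 54688), (nat_lit 780000), (nat_lit 0), (nat_lit 1412501), [(nat_lit 1977501), (nat_lit 1271251), (nat_lit 1271251)], [(nat_lit 31), (nat_lit 65), (nat_lit 373), (nat_lit 150), (nat_lit 9)]⟩⟩) (.leaf ⟨(nat_lit 0), (nat_lit 929), (nat_lit 0), (nat_lit 71), (nat_lit 0), (nat_lit 4356), (nat_lit 7601), (nat_lit 784), (nat_lit 0),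 (nat_lit 0), (nat_lit 0), [], Pd.none, Pd.none, (nat_lit 0), (nat_lit 1), (nat_lit 0), (nat_lit 0), (nat_lit 3), (nat_lit 0), [], [⟨(nat_lit 0), (nat_lit 100), (nat_lit 60), (nat_lit 86), (nat_lit 53431764)⟩], [], [],
 ⟨⟨[(nat_lit 40), (nat_lit 60), (nat_lit 80)], [(nat_lit 0), (nat_lit 398), (nat_lit 992)], [((nat_lit 0), (nat_lit 0), (nat_lit 0)), ((nat_lit 1000), (nat_lit 814), (nat_lit 310)), ((nat_lit 1000), (nat_lit 752), (nat_lit 464))], ((nat_lit 77), (nat_lit 100), (nat_lit 42))⟩, (nat_lit 6216747), (nat_lit 198), (nat_lit 198), (nat_lit 0), (nat_lit 250358), [(nat_lit 2032000013), (nat_lit 3489099293), (nat_lit 4688000000)], [], [(nat_lit 23515721922), (nat_lit 25437788547), (nat_lit 28313624537), (nat_lit 29879759696), (nat_lit 21260365962), (nat_lit 22617988352), (nat_lit 25314045598), (nat_lit 26748592356)], (nat_lit 1271251), (nat_lit 1271251), (nat_lit 1271251), (nat_lit 1271251), (nat_lit 54688), (nat_lit 780000), [(nat_lit 490000),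 (nat_lit 780000), (nat_lit 1100000)], [(nat_lit 2), (nat_lit 44), (nat_lit 238), (nat_lit 30), (nat_lit 10)]⟩,
 ⟨⟨[(nat_lit 80), (nat_lit 100), (nat_lit 120)], [(nat_lit 0), (nat_lit 265), (nat_lit 768)], [((nat_lit 0), (nat_lit 0), (nat_lit 0)), ((nat_lit 1000), (nat_lit 959), (nat_lit 206)), ((nat_lit 1000), (nat_lit 958), (nat_lit 392))], ((nat_lit 96), (nat_lit 100), (nat_lit 39))⟩, (nat_lit 9992467), (nat_lit 615), (nat_lit 615), (nat_lit 0), (nat_lit 1083082), [(nat_lit 4688000000), (nat_lit 6250000000), (nat_lit 7968000000)], [], [(nat_lit 25336070123), (nat_lit 26054013406), (nat_lit 28515990199), (nat_lit 30255835938), (nat_lit 22745413782), (nat_lit 23270783926), (nat_lit 24728485270), (nat_lit 25135446326)], (nat_lit 1271251), (nat_lit 1271251), (nat_lit 1271251), (nat_lit 1271251), (nat_lit 0), (nat_lit 1412501), [(nat_lit 1100000), (nat_lit 1442501), (nat_lit 1271251)], [(nat_lit 16), (nat_lit 54), (nat_lit 260), (nat_lit 50), (nat_lit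 8)]⟩,
 ⟨⟨[(nat_lit 140), (nat_lit 160), (nat_lit 180)], [(nat_lit 0), (nat_lit 0), (nat_lit 799)], [((nat_lit 0), (nat_lit 0), (nat_lit 0)), ((nat_lit 0), (nat_lit 0), (nat_lit 0)), ((nat_lit 728), (nat_lit 1000), (nat_lit 454))], ((nat_lit 100), (nat_lit 75), (nat_lit 43))⟩, (nat_lit 459246), (nat_lit 300), (nat_lit 943), (nat_lit 5268200), (nat_lit 897326), [(nat_lit 698782000), (nat_lit 842912000), (nat_lit 998118000)], [], [(nat_lit 5226917394), (nat_lit 4978988697), (nat_lit 4706389456), (nat_lit 4465874607), (nat_lit 4441677118), (nat_lit 4199067448), (nat_lit 3957393189), (nat_lit 4368903076)], (nat_lit 780000), (nat_lit 1598751), (nat_lit 54688), (nat_lit 780000), (nat_lit 0), (nat_lit 1412501), [(nat_lit 1977501), (nat_lit 1271251), (nat_lit 1271251)], [(nat_lit 31), (nat_lit 65), (nat_lit 373), (nat_lit 150), (nat_lit 9)]⟩⟩)) (.leaf ⟨(nat_lit 151), (nat_lit 849), (nat_lit 0), (nat_lit 0), (nat_lit 0), (nat_lit 4290), (nat_lit 8517), (nat_lit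 0), (nat_lit 0), (nat_lit 0), (nat_lit 322000), [((nat_lit 360), [((nat_lit 21), (nat_lit 2), (nat_lit 94)), ((nat_lit 39), (nat_lit 5), (nat_lit 57))])], ⟨(nat_lit 6), false, true, true, (nat_lit 277), (nat_lit 3162), (nat_lit 3873), [(nat_lit 1608082), (nat_lit 1605237), (nat_lit 1651611), (nat_lit 1649490), (nat_lit 1737150), (nat_lit 1727168), (nat_lit 1780717), (nat_lit 1771459)]⟩, ⟨(nat_lit 3), false, false, false, (nat_lit 102), (nat_lit 3162), (nat_lit 3873), [(nat_lit 1106311), (nat_lit 1121813), (nat_lit 1215133), (nat_lit 1232444), (nat_lit 1283782), (nat_lit 1289472), (nat_lit 1392656), (nat_lit 1400154)]⟩, (nat_lit 4404223), (nat_lit 42000401), (nat_lit 20696324), (nat_lit 4303275), (nat_lit 3), (nat_lit 0), [], [⟨(nat_lit 0), (nat_lit 100), (nat_lit 60), (nat_lit 86), (nat_lit 16417160)⟩], [⟨(nat_lit 0), (nat_lit 100), (nat_lit 96), (nat_lit 16), (nat_lit 6079063)⟩], [],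
 ⟨⟨[(nat_lit 40), (nat_lit 60), (nat_lit 80)], [(nat_lit 0), (nat_lit 398), (nat_lit 992)], [((nat_lit 0), (nat_lit 0), (nat_lit 0)), ((nat_lit 1000), (nat_lit 814), (nat_lit 310)), ((nat_lit 1000), (nat_lit 752), (nat_lit 464))], ((nat_lit 73), (nat_lit 100), (nat_lit 55))⟩, (nat_lit 1807672), (nat_lit 182), (nat_lit 182), (nat_lit 0), (nat_lit 185260), [(nat_lit 1869352950), (nat_lit 2690042887), (nat_lit 3375676800)], [(nat_lit 0), (nat_lit 0), (nat_lit 0)], [(nat_lit 23409711592), (nat_lit 25314949793), (nat_lit 28175704205), (nat_lit 29729183765), (nat_lit 21408966672), (nat_lit 22566918037), (nat_lit 25249088695), (nat_lit 26672329290)], (nat_lit 1271251), (nat_lit 1271251), (nat_lit 1271251), (nat_lit 1271251), (nat_lit 54688), (nat_lit 780000), [(nat_lit 490000), (nat_lit 780000), (nat_lit 1100000)], [(nat_lit 2), (nat_lit 44), (nat_lit 238), (nat_lit 30), (nat_lit 10)]⟩,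
 ⟨⟨[(nat_lit 80), (nat_lit 120), (nat_lit 140)], [(nat_lit 0), (nat_lit 0), (nat_lit 1164)], [((nat_lit 0), (nat_lit 0), (nat_lit 0)), ((nat_lit 0), (nat_lit 0), (nat_lit 0)), ((nat_lit 941), (nat_lit 1000), (nat_lit 576))], ((nat_lit 100), (nat_lit 95), (nat_lit 55))⟩, (nat_lit 2039073), (nat_lit 535), (nat_lit 535), (nat_lit 0), (nat_lit 779535), [(nat_lit 3980112000), (nat_lit 6764832000), (nat_lit 8355858000)], [], [(nat_lit 27559886412), (nat_lit 28481124684), (nat_lit 29402362956), (nat_lit 30198926658), (nat_lit 22020587988), (nat_lit 22635987570), (nat_lit 23251387152), (nat_lit 23652797937)], (nat_lit 1271251), (nat_lit 1271251), (nat_lit 1271251), (nat_lit 1271251), (nat_lit 0), (nat_lit 1412501), [(nat_lit 1100000), (nat_lit 1785001), (nat_lit 1271251)], [(nat_lit 17), (nat_lit 58), (nat_lit 428), (nat_lit 200), (nat_lit 12)]⟩,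
 Rw.none⟩)) (.leaf ⟨(nat_lit 855), (nat_lit 56), (nat_lit 0), (nat_lit 89), (nat_lit 0), (nat_lit 2930), (nat_lit 1471), (nat_lit 1404), (nat_lit 0), (nat_lit 0), (nat_lit 500050), [((nat_lit 360), [((nat_lit 21), (nat_lit 0), (nat_lit 37)), ((nat_lit 39), (nat_lit 2), (nat_lit 818))])], ⟨(nat_lit 6), false, true, true, (nat_lit 277), (nat_lit 3162), (nat_lit 3873), [(nat_lit 1608082), (nat_lit 1605237), (nat_lit 1651611), (nat_lit 1649490), (nat_lit 1737150), (nat_lit 1727168), (nat_lit 1780717), (nat_lit 1771459)]⟩, ⟨(nat_lit 3), false, false, false, (nat_lit 102), (nat_lit 3162), (nat_lit 3873), [(nat_lit 1106311), (nat_lit 1121813), (nat_lit 1215133), (nat_lit 1232444), (nat_lit 1283782), (nat_lit 1289472), (nat_lit 1392656), (nat_lit 1400154)]⟩, (nat_lit 4404223), (nat_lit 42000401), (nat_lit 20696324), (nat_lit 4303275), (nat_lit 5), (nat_lit 0), [], [⟨(nat_lit 0), (nat_lit 100), (nat_lit 67), (nat_lit 65), (nat_lit 134141525)⟩], [], [⟨(nat_lit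 1), (nat_lit 100), (nat_lit 100), (nat_lit 81), (nat_lit 3092498)⟩],
 ⟨⟨[(nat_lit 40), (nat_lit 60), (nat_lit 80)], [(nat_lit 0), (nat_lit 398), (nat_lit 992)], [((nat_lit 0), (nat_lit 0), (nat_lit 0)), ((nat_lit 1000), (nat_lit 814), (nat_lit 310)), ((nat_lit 1000), (nat_lit 752), (nat_lit 464))], ((nat_lit 73), (nat_lit 100), (nat_lit 55))⟩, (nat_lit 728020), (nat_lit 199), (nat_lit 199), (nat_lit 0), (nat_lit 253588), [(nat_lit 1394892003), (nat_lit 1485373113), (nat_lit 1472437887)], [(nat_lit 0), (nat_lit 0), (nat_lit 0)], [(nat_lit 22772170486), (nat_lit 23805544861), (nat_lit 25676807460), (nat_lit 26626666286), (nat_lit 22754916446), (nat_lit 23691325836), (nat_lit 25406191421), (nat_lit 26264348326)], (nat_lit 1271251), (nat_lit 1271251), (nat_lit 1271251), (nat_lit 1271251), (nat_lit 54688), (nat_lit 780000), [(nat_lit 490000), (nat_lit 780000), (nat_lit 1100000)], [(nat_lit 2), (nat_lit 44), (nat_lit 238), (nat_lit 30), (nat_lit 10)]⟩,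
 ⟨⟨[(nat_lit 80), (nat_lit 120), (nat_lit 140)], [(nat_lit 0), (nat_lit 0), (nat_lit 1164)], [((nat_lit 0), (nat_lit 0), (nat_lit 0)), ((nat_lit 0), (nat_lit 0), (nat_lit 0)), ((nat_lit 941), (nat_lit 1000), (nat_lit 576))], ((nat_lit 100), (nat_lit 95), (nat_lit 55))⟩, (nat_lit 276527), (nat_lit 600), (nat_lit 600), (nat_lit 0), (nat_lit 1152964), [(nat_lit 679760000), (nat_lit 1155360000), (nat_lit 1427090000)], [], [(nat_lit 3727390360), (nat_lit 3814385468), (nat_lit 3903477808), (nat_lit 3971603201), (nat_lit 4334185617), (nat_lit 4605741244), (nat_lit 4940502793), (nat_lit 5185852374)], (nat_lit 1271251), (nat_lit 1271251), (nat_lit 1271251), (nat_lit 1271251), (nat_lit 1271251), (nat_lit 1271251), [(nat_lit 1100000), (nat_lit 1785001), (nat_lit 1271251)], [(nat_lit 17), (nat_lit 58), (nat_lit 483), (nat_lit 250), (nat_lit 13)]⟩,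
 ⟨⟨[(nat_lit 140), (nat_lit 180), (nat_lit 200)], [(nat_lit 0), (nat_lit 0), (nat_lit 2835)], [((nat_lit 0), (nat_lit 0), (nat_lit 0)), ((nat_lit 0), (nat_lit 0), (nat_lit 0)), ((nat_lit 363), (nat_lit 1000), (nat_lit 798))], ((nat_lit 0), (nat_lit 0), (nat_lit 0))⟩, (nat_lit 24487), (nat_lit 300), (nat_lit 887), (nat_lit 6950900), (nat_lit 921720), [(nat_lit 875938000), (nat_lit 1251162000), (nat_lit 1459600000)], [], [(nat_lit 5765964698), (nat_lit 5415016544), (nat_lit 4681934552), (nat_lit 5120680959), (nat_lit 6015309205), (nat_lit 5554395024), (nat_lit 4818714213), (nat_lit 4372011469)], (nat_lit 780000), (nat_lit 1598751), (nat_lit 54688), (nat_lit 780000), (nat_lit 1271251), (nat_lit 1271251), [(nat_lit 1977501), (nat_lit 1271251), (nat_lit 1271251)], [(nat_lit 32), (nat_lit 67), (nat_lit 428), (nat_lit 200), (nat_lit 9)]⟩⟩)) (.spl (nat_lit 5) (nat_lit 200) (.spl (nat_lit 1) (nat_lit 300) (.leaf ⟨(nat_lit 424), (nat_lit 562), (nat_lit 0), (nat_lit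 14), (nat_lit 0), (nat_lit 3659), (nat_lit 4939), (nat_lit 158), (nat_lit 0), (nat_lit 0), (nat_lit 139550), [((nat_lit 360), [((nat_lit 21), (nat_lit 0), (nat_lit 343)), ((nat_lit 39), (nat_lit 2), (nat_lit 68)), ((nat_lit 21), (nat_lit 2), (nat_lit 13))])], ⟨(nat_lit 7), false, true, false, (nat_lit 290), (nat_lit 3162), (nat_lit 3873), [(nat_lit 1651611), (nat_lit 1649490), (nat_lit 1673376), (nat_lit 1671616), (nat_lit 1780717), (nat_lit 1771459), (nat_lit 1802484), (nat_lit 1793588)]⟩, ⟨(nat_lit 3), false, false, false, (nat_lit 102), (nat_lit 3162), (nat_lit 3873), [(nat_lit 1106311), (nat_lit 1121813), (nat_lit 1215133), (nat_lit 1232444), (nat_lit 1283782), (nat_lit 1289472), (nat_lit 1392656), (nat_lit 1400154)]⟩, (nat_lit 4454534), (nat_lit 40805127), (nat_lit 21966219), (nat_lit 4228654), (nat_lit 3), (nat_lit 0), [], [⟨(nat_lit 0), (nat_lit 100), (nat_lit 60), (nat_lit 86), (nat_lit 84243536)⟩], [], [],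
 ⟨⟨[(nat_lit 40), (nat_lit 60), (nat_lit 80)], [(nat_lit 0), (nat_lit 398), (nat_lit 992)], [((nat_lit 0), (nat_lit 0), (nat_lit 0)), ((nat_lit 1000), (nat_lit 814), (nat_lit 310)), ((nat_lit 1000), (nat_lit 752), (nat_lit 464))], ((nat_lit 73), (nat_lit 100), (nat_lit 55))⟩, (nat_lit 4108222), (nat_lit 207), (nat_lit 207), (nat_lit 0), (nat_lit 283280), [(nat_lit 1671302405), (nat_lit 2638150308), (nat_lit 3426037600)], [(nat_lit 0), (nat_lit 0), (nat_lit 0)], [(nat_lit 22396188586), (nat_lit 24140536852), (nat_lit 26857102243), (nat_lit 28289586607), (nat_lit 21495744173), (nat_lit 22738446945), (nat_lit 24889220601), (nat_lit 25943208159)], (nat_lit 1271251), (nat_lit 1271251), (nat_lit 1271251), (nat_lit 1271251), (nat_lit 54688), (nat_lit 780000), [(nat_lit 490000), (nat_lit 780000), (nat_lit 1100000)], [(nat_lit 2), (nat_lit 44), (nat_lit 238), (nat_lit 30), (nat_lit 10)]⟩,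
 ⟨⟨[(nat_lit 60), (nat_lit 100), (nat_lit 120)], [(nat_lit 0), (nat_lit 0), (nat_lit 1164)], [((nat_lit 0), (nat_lit 0), (nat_lit 0)), ((nat_lit 0), (nat_lit 0), (nat_lit 0)), ((nat_lit 1000), (nat_lit 933), (nat_lit 572))], ((nat_lit 93), (nat_lit 100), (nat_lit 55))⟩, (nat_lit 3695141), (nat_lit 606), (nat_lit 606), (nat_lit 0), (nat_lit 1065049), [(nat_lit 1890432000), (nat_lit 3600000000), (nat_lit 4589568000)], [], [(nat_lit 17528829862), (nat_lit 17872191239), (nat_lit 18733305118), (nat_lit 19488615871), (nat_lit 14903748198), (nat_lit 15145532616), (nat_lit 15738635495), (nat_lit 15914294726)], (nat_lit 1271251), (nat_lit 1271251), (nat_lit 1271251), (nat_lit 1271251), (nat_lit 0), (nat_lit 1412501), [(nat_lit 780000), (nat_lit 1435001), (nat_lit 1271251)], [(nat_lit 10), (nat_lit 54), (nat_lit 260), (nat_lit 50), (nat_lit 8)]⟩,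
 ⟨⟨[(nat_lit 140), (nat_lit 180), (nat_lit 200)], [(nat_lit 0), (nat_lit 0), (nat_lit 2835)], [((nat_lit 0), (nat_lit 0), (nat_lit 0)), ((nat_lit 0), (nat_lit 0), (nat_lit 0)), ((nat_lit 363), (nat_lit 1000), (nat_lit 798))], ((nat_lit 0), (nat_lit 0), (nat_lit 0))⟩, (nat_lit 253451), (nat_lit 300), (nat_lit 1073), (nat_lit 1093400), (nat_lit 1028643), [(nat_lit 137788000), (nat_lit 196812000), (nat_lit 229600000)], [], [(nat_lit 1254575466), (nat_lit 1134760230), (nat_lit 1079766320), (nat_lit 1022488082), (nat_lit 1019535772), (nat_lit 962587695), (nat_lit 917777406), (nat_lit 865420172)], (nat_lit 780000), (nat_lit 1598751), (nat_lit 54688), (nat_lit 780000), (nat_lit 0), (nat_lit 1412501), [(nat_lit 1977501), (nat_lit 1271251), (nat_lit 1271251)], [(nat_lit 32), (nat_lit 67), (nat_lit 373), (nat_lit 150), (nat_lit 9)]⟩⟩) (.leaf ⟨(nat_lit 0), (nat_lit 941), (nat_lit 0), (nat_lit 59), (nat_lit 0), (nat_lit 4572), (nat_lit 6139), (nat_lit 664), (nat_lit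 0), (nat_lit 0), (nat_lit 0), [], Pd.none, Pd.none, (nat_lit 0), (nat_lit 1), (nat_lit 0), (nat_lit 0), (nat_lit 3), (nat_lit 0), [], [⟨(nat_lit 0), (nat_lit 100), (nat_lit 60), (nat_lit 86), (nat_lit 101146211)⟩], [], [],
 ⟨⟨[(nat_lit 40), (nat_lit 60), (nat_lit 80)], [(nat_lit 0), (nat_lit 398), (nat_lit 992)], [((nat_lit 0), (nat_lit 0), (nat_lit 0)), ((nat_lit 1000), (nat_lit 814), (nat_lit 310)), ((nat_lit 1000), (nat_lit 752), (nat_lit 464))], ((nat_lit 73), (nat_lit 100), (nat_lit 55))⟩, (nat_lit 3134549), (nat_lit 215), (nat_lit 215), (nat_lit 0), (nat_lit 316886), [(nat_lit 2032000093), (nat_lit 3282000156), (nat_lit 4688000000)], [], [(nat_lit 23862664821), (nat_lit 25839806289), (nat_lit 28765000169), (nat_lit 30372553652), (nat_lit 21544970314), (nat_lit 22784628676), (nat_lit 25526631826), (nat_lit 26998180572)], (nat_lit 1271251), (nat_lit 1271251), (nat_lit 1271251), (nat_lit 1271251), (nat_lit 54688), (nat_lit 780000), [(nat_lit 490000),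 (nat_lit 780000), (nat_lit 1100000)], [(nat_lit 2), (nat_lit 44), (nat_lit 238), (nat_lit 30), (nat_lit 10)]⟩,
 ⟨⟨[(nat_lit 60), (nat_lit 100), (nat_lit 120)], [(nat_lit 0), (nat_lit 609), (nat_lit 1609)], [((nat_lit 0), (nat_lit 0), (nat_lit 0)), ((nat_lit 1000), (nat_lit 905), (nat_lit 238)), ((nat_lit 1000), (nat_lit 882), (nat_lit 668))], ((nat_lit 87), (nat_lit 100), (nat_lit 54))⟩, (nat_lit 5730300), (nat_lit 603), (nat_lit 603), (nat_lit 0), (nat_lit 1059253), [(nat_lit 3282000000), (nat_lit 6250000000), (nat_lit 7968000000)], [], [(nat_lit 25250881087), (nat_lit 25904017764), (nat_lit 29234728303), (nat_lit 30773784424), (nat_lit 23784178750), (nat_lit 24441250134), (nat_lit 26041436628), (nat_lit 26574832126)], (nat_lit 1271251), (nat_lit 1271251), (nat_lit 1271251), (nat_lit 1271251), (nat_lit 0), (nat_lit 1412501), [(nat_lit 780000), (nat_lit 1435001), (nat_lit 1271251)], [(nat_lit 10), (nat_lit 54), (nat_lit 260), (nat_lit 50), (nat_lit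 8)]⟩,
 ⟨⟨[(nat_lit 140), (nat_lit 180), (nat_lit 200)], [(nat_lit 0), (nat_lit 0), (nat_lit 2835)], [((nat_lit 0), (nat_lit 0), (nat_lit 0)), ((nat_lit 0), (nat_lit 0), (nat_lit 0)), ((nat_lit 363), (nat_lit 1000), (nat_lit 798))], ((nat_lit 0), (nat_lit 0), (nat_lit 0))⟩, (nat_lit 16233), (nat_lit 300), (nat_lit 1121), (nat_lit 4607900), (nat_lit 1149320), [(nat_lit 580678000), (nat_lit 829422000), (nat_lit 967600000)], [], [(nat_lit 5279942793), (nat_lit 4785913142), (nat_lit 4558210096), (nat_lit 4317693864), (nat_lit 4305259021), (nat_lit 4066125453), (nat_lit 3877790436), (nat_lit 3645664616)], (nat_lit 780000), (nat_lit 1598751), (nat_lit 54688), (nat_lit 780000), (nat_lit 0), (nat_lit 1412501), [(nat_lit 1977501), (nat_lit 1271251), (nat_lit 1271251)], [(nat_lit 32), (nat_lit 67), (nat_lit 373), (nat_lit 150), (nat_lit 9)]⟩⟩)) (.leaf ⟨(nat_lit 575), (nat_lit 284), (nat_lit 0), (nat_lit 141), (nat_lit 0), (nat_lit 3299), (nat_lit 2916), (nat_lit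 2224), (nat_lit 0), (nat_lit 0), (nat_lit 263100), [((nat_lit 360), [((nat_lit 21), (nat_lit 0), (nat_lit 234)), ((nat_lit 39), (nat_lit 2), (nat_lit 341))])], ⟨(nat_lit 7), false, true, false, (nat_lit 294), (nat_lit 3162), (nat_lit 3873), [(nat_lit 1651611), (nat_lit 1649490), (nat_lit 1695141), (nat_lit 1693742), (nat_lit 1780717), (nat_lit 1771459), (nat_lit 1824248), (nat_lit 1815713)]⟩, ⟨(nat_lit 3), false, false, false, (nat_lit 102), (nat_lit 3162), (nat_lit 3873), [(nat_lit 1106311), (nat_lit 1121813), (nat_lit 1215133), (nat_lit 1232444), (nat_lit 1283782), (nat_lit 1289472), (nat_lit 1392656), (nat_lit 1400154)]⟩, (nat_lit 4469046), (nat_lit 40411100), (nat_lit 22385848), (nat_lit 4203052), (nat_lit 5), (nat_lit 0), [], [⟨(nat_lit 0), (nat_lit 100), (nat_lit 67), (nat_lit 65), (nat_lit 180364801)⟩], [], [⟨(nat_lit 1), (nat_lit 100), (nat_lit 100), (nat_lit 81), (nat_lit 39850752)⟩],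
 ⟨⟨[(nat_lit 40), (nat_lit 60), (nat_lit 80)], [(nat_lit 0), (nat_lit 398), (nat_lit 992)], [((nat_lit 0), (nat_lit 0), (nat_lit 0)), ((nat_lit 1000), (nat_lit 814), (nat_lit 310)), ((nat_lit 1000), (nat_lit 752), (nat_lit 464))], ((nat_lit 73), (nat_lit 100), (nat_lit 55))⟩, (nat_lit 2273167), (nat_lit 215), (nat_lit 215), (nat_lit 0), (nat_lit 316975), [(nat_lit 1574291601), (nat_lit 2163034477), (nat_lit 2741596000)], [(nat_lit 0), (nat_lit 0), (nat_lit 0)], [(nat_lit 23002704520), (nat_lit 24214459243), (nat_lit 26392755992), (nat_lit 27468263347), (nat_lit 22925827236), (nat_lit 24026669389), (nat_lit 26012650994), (nat_lit 26961148833)], (nat_lit 1271251), (nat_lit 1271251), (nat_lit 1271251), (nat_lit 1271251), (nat_lit 54688), (nat_lit 780000), [(nat_lit 490000), (nat_lit 780000), (nat_lit 1100000)], [(nat_lit 2), (nat_lit 44), (nat_lit 238), (nat_lit 30), (nat_lit 10)]⟩,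
 ⟨⟨[(nat_lit 60), (nat_lit 100), (nat_lit 120)], [(nat_lit 0), (nat_lit 0), (nat_lit 1164)], [((nat_lit 0), (nat_lit 0), (nat_lit 0)), ((nat_lit 0), (nat_lit 0), (nat_lit 0)), ((nat_lit 1000), (nat_lit 933), (nat_lit 572))], ((nat_lit 93), (nat_lit 100), (nat_lit 55))⟩, (nat_lit 807042), (nat_lit 501), (nat_lit 501), (nat_lit 0), (nat_lit 1080269), [(nat_lit 1394850000), (nat_lit 2656250000), (nat_lit 3386400000)], [], [(nat_lit 13281997944), (nat_lit 13696817200), (nat_lit 14066003069), (nat_lit 14438928916), (nat_lit 14844818636), (nat_lit 15117622872), (nat_lit 15317488729), (nat_lit 15517354585)], (nat_lit 1271251), (nat_lit 1271251), (nat_lit 1271251), (nat_lit 1271251), (nat_lit 1271251), (nat_lit 1271251), [(nat_lit 780000), (nat_lit 1435001), (nat_lit 1271251)], [(nat_lit 10), (nat_lit 54), (nat_lit 317), (nat_lit 100), (nat_lit 9)]⟩,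
 ⟨⟨[(nat_lit 140), (nat_lit 180), (nat_lit 200)], [(nat_lit 0), (nat_lit 0), (nat_lit 2835)], [((nat_lit 0), (nat_lit 0), (nat_lit 0)), ((nat_lit 0), (nat_lit 0), (nat_lit 0)), ((nat_lit 363), (nat_lit 1000), (nat_lit 798))], ((nat_lit 0), (nat_lit 0), (nat_lit 0))⟩, (nat_lit 62176), (nat_lit 300), (nat_lit 984), (nat_lit 11012100), (nat_lit 1149320), [(nat_lit 1387722000), (nat_lit 1982178000), (nat_lit 2312400000)], [], [(nat_lit 9135196252), (nat_lit 8578870199), (nat_lit 7418079140), (nat_lit 8112352996), (nat_lit 9529798174), (nat_lit 8777408398), (nat_lit 7634365336), (nat_lit 6926800737)], (nat_lit 780000), (nat_lit 1598751), (nat_lit 54688), (nat_lit 780000), (nat_lit 1271251), (nat_lit 1271251), [(nat_lit 1977501), (nat_lit 1271251), (nat_lit 1271251)], [(nat_lit 32), (nat_lit 67), (nat_lit 428), (nat_lit 200), (nat_lit 9)]⟩⟩)))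
noncomputable def c8_4 : Tr Lf :=
 (.trX (nat_lit 3) (nat_lit 0) (nat_lit 1) (nat_lit 75) (nat_lit 48) (nat_lit 100) (nat_lit 380) (.spl (nat_lit 4) (nat_lit 80) (.trX (nat_lit 5) (nat_lit 3) (nat_lit 4) (nat_lit 83) (nat_lit 100) (nat_lit 83) (nat_lit 260) (.spl (nat_lit 6) (nat_lit 16) (.spl (nat_lit 2) (nat_lit 180) (.leaf ⟨(nat_lit 767), (nat_lit 226), (nat_lit 0), (nat_lit 7), (nat_lit 0), (nat_lit 3255), (nat_lit 1838), (nat_lit 79), (nat_lit 0), (nat_lit 0), (nat_lit 425550), [((nat_lit 360), [((nat_lit 21), (nat_lit 0), (nat_lit 99)), ((nat_lit 39), (nat_lit 2), (nat_lit 668))])], ⟨(nat_lit 8), false, true, true, (nat_lit 316), (nat_lit 3162), (nat_lit 3873), [(nat_lit 1737150), (nat_lit 1727168), (nat_lit 1758943), (nat_lit 1749323), (nat_lit 1833932), (nat_lit 1818598), (nat_lit 1855725), (nat_lit 1840753)]⟩, ⟨(nat_lit 3), false, false, false, (nat_lit 81), (nat_lit 3162), (nat_lit 3873), [(nat_lit 1106311), (nat_lit 1121813), (nat_lit 1171604),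 (nat_lit 1188192), (nat_lit 1219261), (nat_lit 1228519), (nat_lit 1284573), (nat_lit 1294916)]⟩, (nat_lit 4279052), (nat_lit 39269420), (nat_lit 24841489), (nat_lit 2889091), (nat_lit 3), (nat_lit 0), [⟨(nat_lit 1), (nat_lit 58), (nat_lit 68), (nat_lit 100), (nat_lit 178396386)⟩], [⟨(nat_lit 0), (nat_lit 100), (nat_lit 60), (nat_lit 74), (nat_lit 209224475)⟩], [], [⟨(nat_lit 1), (nat_lit 100), (nat_lit 67), (nat_lit 64), (nat_lit 26714829)⟩],
 ⟨⟨[(nat_lit 40), (nat_lit 60), (nat_lit 80)], [(nat_lit 0), (nat_lit 398), (nat_lit 992)], [((nat_lit 0), (nat_lit 0), (nat_lit 0)), ((nat_lit 1000), (nat_lit 814), (nat_lit 310)), ((nat_lit 1000), (nat_lit 752), (nat_lit 464))], ((nat_lit 77), (nat_lit 100), (nat_lit 42))⟩, (nat_lit 1262399), (nat_lit 210), (nat_lit 210), (nat_lit 0), (nat_lit 224894), [(nat_lit 1451253601), (nat_lit 1721363618), (nat_lit 1854233200)], [(nat_lit 0), (nat_lit 0), (nat_lit 0)], [(nat_lit 26012862635), (nat_lit 27367879393), (nat_lit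 29864568728), (nat_lit 31006241305), (nat_lit 25173144970), (nat_lit 26159886635), (nat_lit 28006587348), (nat_lit 28866546395)], (nat_lit 1271251), (nat_lit 1271251), (nat_lit 1271251), (nat_lit 1271251), (nat_lit 54688), (nat_lit 490000), [(nat_lit 490000), (nat_lit 780000), (nat_lit 1100000)], [(nat_lit 2), (nat_lit 44), (nat_lit 226), (nat_lit 20), (nat_lit 9)]⟩,
 ⟨⟨[(nat_lit 80), (nat_lit 100), (nat_lit 120)], [(nat_lit 0), (nat_lit 0), (nat_lit 511)], [((nat_lit 0), (nat_lit 0), (nat_lit 0)), ((nat_lit 0), (nat_lit 0), (nat_lit 0)), ((nat_lit 1000), (nat_lit 997), (nat_lit 383))], ((nat_lit 100), (nat_lit 100), (nat_lit 40))⟩, (nat_lit 1593943), (nat_lit 632), (nat_lit 632), (nat_lit 0), (nat_lit 1124712), [(nat_lit 1092304000), (nat_lit 1456250000), (nat_lit 1856544000)], [], [(nat_lit 8072216940), (nat_lit 8153366854), (nat_lit 8555747956), (nat_lit 8636208416), (nat_lit 7125987151), (nat_lit 7168134071), (nat_lit 7455055133), (nat_lit 7495403677)],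 (nat_lit 1271251), (nat_lit 1271251), (nat_lit 1271251), (nat_lit 1271251), (nat_lit 0), (nat_lit 1836250), [(nat_lit 1100000), (nat_lit 1442501), (nat_lit 1271251)], [(nat_lit 16), (nat_lit 54), (nat_lit 289), (nat_lit 75), (nat_lit 9)]⟩,
 ⟨⟨[(nat_lit 140), (nat_lit 160), (nat_lit 180)], [(nat_lit 0), (nat_lit 0), (nat_lit 799)], [((nat_lit 0), (nat_lit 0), (nat_lit 0)), ((nat_lit 0), (nat_lit 0), (nat_lit 0)), ((nat_lit 728), (nat_lit 1000), (nat_lit 454))], ((nat_lit 100), (nat_lit 75), (nat_lit 43))⟩, (nat_lit 195666), (nat_lit 300), (nat_lit 906), (nat_lit 519400), (nat_lit 805890), [(nat_lit 68894000), (nat_lit 83104000), (nat_lit 98406000)], [], [(nat_lit 519862622), (nat_lit 493282544), (nat_lit 470652980), (nat_lit 454531314), (nat_lit 419918240), (nat_lit 403506112), (nat_lit 383901587), (nat_lit 402295442)], (nat_lit 780000), (nat_lit 1271251), (nat_lit 54688), (nat_lit 490000), (nat_lit 0), (nat_lit 1836250), [(nat_lit 1977501), (nat_lit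 1271251), (nat_lit 1271251)], [(nat_lit 31), (nat_lit 65), (nat_lit 373), (nat_lit 150), (nat_lit 9)]⟩⟩) (.trZ (nat_lit 0) (nat_lit 2) (nat_lit 4) (nat_lit 100) (nat_lit 72) (nat_lit 63) (nat_lit 40) (.leaf ⟨(nat_lit 706), (nat_lit 267), (nat_lit 0), (nat_lit 27), (nat_lit 0), (nat_lit 3169), (nat_lit 2319), (nat_lit 432), (nat_lit 0), (nat_lit 0), (nat_lit 374250), [((nat_lit 360), [((nat_lit 21), (nat_lit 0), (nat_lit 141)), ((nat_lit 39), (nat_lit 2), (nat_lit 565))])], ⟨(nat_lit 8), false, true, true, (nat_lit 316), (nat_lit 3162), (nat_lit 3873), [(nat_lit 1737150), (nat_lit 1727168), (nat_lit 1758943), (nat_lit 1749323), (nat_lit 1833932), (nat_lit 1818598), (nat_lit 1855725), (nat_lit 1840753)]⟩, ⟨(nat_lit 4), false, false, false, (nat_lit 112), (nat_lit 3162), (nat_lit 3873), [(nat_lit 1220020), (nat_lit 1233931), (nat_lit 1263549), (nat_lit 1278184), (nat_lit 1284573), (nat_lit 1294916), (nat_lit 1328103), (nat_lit 1339169)]⟩, (nat_lit 4635584),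 (nat_lit 38077391), (nat_lit 24258817), (nat_lit 4663792), (nat_lit 4), (nat_lit 0), [⟨(nat_lit 1), (nat_lit 58), (nat_lit 68), (nat_lit 100), (nat_lit 205439543)⟩], [⟨(nat_lit 0), (nat_lit 100), (nat_lit 60), (nat_lit 86), (nat_lit 469497552)⟩], [], [],
 ⟨⟨[(nat_lit 40), (nat_lit 60), (nat_lit 80)], [(nat_lit 0), (nat_lit 398), (nat_lit 992)], [((nat_lit 0), (nat_lit 0), (nat_lit 0)), ((nat_lit 1000), (nat_lit 814), (nat_lit 310)), ((nat_lit 1000), (nat_lit 752), (nat_lit 464))], ((nat_lit 77), (nat_lit 100), (nat_lit 42))⟩, (nat_lit 2349612), (nat_lit 181), (nat_lit 181), (nat_lit 0), (nat_lit 176831), [(nat_lit 1490359209), (nat_lit 1911244351), (nat_lit 2135163600)], [(nat_lit 0), (nat_lit 0), (nat_lit 0)], [(nat_lit 25286903924), (nat_lit 26354380533), (nat_lit 28772042867), (nat_lit 29885903945), (nat_lit 24838018957), (nat_lit 25874295150), (nat_lit 27810443966), (nat_lit 28710316589)], (nat_lit 1271251), (nat_lit 1271251), (nat_lit 1271251),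 (nat_lit 1271251), (nat_lit 230000), (nat_lit 490000), [(nat_lit 490000), (nat_lit 780000), (nat_lit 1100000)], [(nat_lit 2), (nat_lit 44), (nat_lit 226), (nat_lit 20), (nat_lit 8)]⟩,
 ⟨⟨[(nat_lit 80), (nat_lit 100), (nat_lit 120)], [(nat_lit 0), (nat_lit 0), (nat_lit 511)], [((nat_lit 0), (nat_lit 0), (nat_lit 0)), ((nat_lit 0), (nat_lit 0), (nat_lit 0)), ((nat_lit 1000), (nat_lit 997), (nat_lit 383))], ((nat_lit 100), (nat_lit 100), (nat_lit 40))⟩, (nat_lit 2121441), (nat_lit 576), (nat_lit 576), (nat_lit 0), (nat_lit 1007140), [(nat_lit 1378272000), (nat_lit 1837500000), (nat_lit 2342592000)], [], [(nat_lit 10186463700), (nat_lit 10288859592), (nat_lit 10796394873), (nat_lit 10896738783), (nat_lit 8992701948), (nat_lit 9045886858), (nat_lit 9407748522), (nat_lit 9458664605)], (nat_lit 1271251), (nat_lit 1271251), (nat_lit 1271251), (nat_lit 1271251), (nat_lit 0), (nat_lit 1836250), [(nat_lit 1100000), (nat_lit 1442501), (nat_lit 1271251)], [(nat_lit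 16), (nat_lit 54), (nat_lit 289), (nat_lit 75), (nat_lit 9)]⟩,
 ⟨⟨[(nat_lit 120), (nat_lit 140), (nat_lit 160)], [(nat_lit 0), (nat_lit 266), (nat_lit 862)], [((nat_lit 0), (nat_lit 0), (nat_lit 0)), ((nat_lit 960), (nat_lit 1000), (nat_lit 200)), ((nat_lit 874), (nat_lit 1000), (nat_lit 406))], ((nat_lit 100), (nat_lit 88), (nat_lit 39))⟩, (nat_lit 370860), (nat_lit 300), (nat_lit 564), (nat_lit 1792800), (nat_lit 404815), [(nat_lit 215136000), (nat_lit 265734000), (nat_lit 320544000)], [], [(nat_lit 1865923344), (nat_lit 1405444608), (nat_lit 1401900696), (nat_lit 1111501197), (nat_lit 1284579108), (nat_lit 897950462), (nat_lit 1340362296), (nat_lit 927559728)], (nat_lit 1271251), (nat_lit 1271251), (nat_lit 230000), (nat_lit 490000), (nat_lit 0), (nat_lit 1836250), [(nat_lit 1695001), (nat_lit 1271251), (nat_lit 1271251)], [(nat_lit 27), (nat_lit 62), (nat_lit 373), (nat_lit 150), (nat_lit 10)]⟩⟩))) (.leaf ⟨(nat_lit 25), (nat_lit 975), (nat_lit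 0), (nat_lit 0), (nat_lit 0), (nat_lit 4015), (nat_lit 9002), (nat_lit 0), (nat_lit 0), (nat_lit 0), (nat_lit 100000), [((nat_lit 360), [((nat_lit 39), (nat_lit 5), (nat_lit 25))])], ⟨(nat_lit 8), false, true, true, (nat_lit 316), (nat_lit 3162), (nat_lit 3873), [(nat_lit 1737150), (nat_lit 1727168), (nat_lit 1758943), (nat_lit 1749323), (nat_lit 1833932), (nat_lit 1818598), (nat_lit 1855725), (nat_lit 1840753)]⟩, ⟨(nat_lit 3), false, false, false, (nat_lit 90), (nat_lit 3162), (nat_lit 3873), [(nat_lit 1106311), (nat_lit 1121813), (nat_lit 1215133), (nat_lit 1232444), (nat_lit 1219261), (nat_lit 1228519), (nat_lit 1328103), (nat_lit 1339169)]⟩, (nat_lit 4382661), (nat_lit 38950875), (nat_lit 24687998), (nat_lit 3361127), (nat_lit 3), (nat_lit 0), [], [⟨(nat_lit 0), (nat_lit 100), (nat_lit 67), (nat_lit 65), (nat_lit 57091777)⟩], [], [⟨(nat_lit 1), (nat_lit 100), (nat_lit 67), (nat_lit 64), (nat_lit 58813598)⟩],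
 ⟨⟨[(nat_lit 40), (nat_lit 60), (nat_lit 80)], [(nat_lit 0), (nat_lit 398), (nat_lit 992)], [((nat_lit 0), (nat_lit 0), (nat_lit 0)), ((nat_lit 1000), (nat_lit 814), (nat_lit 310)), ((nat_lit 1000), (nat_lit 752), (nat_lit 464))], ((nat_lit 73), (nat_lit 100), (nat_lit 55))⟩, (nat_lit 2828327), (nat_lit 194), (nat_lit 194), (nat_lit 0), (nat_lit 158185), [(nat_lit 1999280004), (nat_lit 3120920003), (nat_lit 4323260000)], [(nat_lit 0), (nat_lit 0), (nat_lit 0)], [(nat_lit 27601036155), (nat_lit 29101784053), (nat_lit 31854011347), (nat_lit 33105490743), (nat_lit 25387722955), (nat_lit 26393950935), (nat_lit 29046522177), (nat_lit 30257601133)], (nat_lit 1271251), (nat_lit 1271251), (nat_lit 1271251), (nat_lit 1271251), (nat_lit 54688), (nat_lit 490000), [(nat_lit 490000), (nat_lit 780000), (nat_lit 1100000)], [(nat_lit 2), (nat_lit 44), (nat_lit 226), (nat_lit 20), (nat_lit 9)]⟩,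
 ⟨⟨[(nat_lit 80), (nat_lit 120), (nat_lit 140)], [(nat_lit 0), (nat_lit 0), (nat_lit 1164)], [((nat_lit 0), (nat_lit 0), (nat_lit 0)), ((nat_lit 0), (nat_lit 0), (nat_lit 0)), ((nat_lit 941), (nat_lit 1000), (nat_lit 576))], ((nat_lit 100), (nat_lit 95), (nat_lit 55))⟩, (nat_lit 1772586), (nat_lit 524), (nat_lit 524), (nat_lit 0), (nat_lit 739710), [(nat_lit 4570800000), (nat_lit 7768800000), (nat_lit 9595950000)], [], [(nat_lit 36559683752), (nat_lit 36874347525), (nat_lit 38669367797), (nat_lit 39423349587), (nat_lit 29971616916), (nat_lit 30149404815), (nat_lit 31482302074), (nat_lit 31621352629)], (nat_lit 1271251), (nat_lit 1271251), (nat_lit 1271251), (nat_lit 1271251), (nat_lit 0), (nat_lit 1836250), [(nat_lit 1100000), (nat_lit 1785001), (nat_lit 1271251)], [(nat_lit 17), (nat_lit 58), (nat_lit 373), (nat_lit 150), (nat_lit 10)]⟩,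
 Rw.none⟩))) (.spl (nat_lit 5) (nat_lit 120) (.leaf ⟨(nat_lit 705), (nat_lit 295), (nat_lit 0), (nat_lit 0), (nat_lit 0), (nat_lit 3228), (nat_lit 2700), (nat_lit 0), (nat_lit 0), (nat_lit 0), (nat_lit 372950), [((nat_lit 360), [((nat_lit 21), (nat_lit 0), (nat_lit 143)), ((nat_lit 39), (nat_lit 2), (nat_lit 562))])], ⟨(nat_lit 8), false, true, true, (nat_lit 316), (nat_lit 3162), (nat_lit 3873), [(nat_lit 1737150), (nat_lit 1727168), (nat_lit 1758943), (nat_lit 1749323), (nat_lit 1833932), (nat_lit 1818598), (nat_lit 1855725), (nat_lit 1840753)]⟩, ⟨(nat_lit 3), false, false, false, (nat_lit 124), (nat_lit 3162), (nat_lit 3873), [(nat_lit 1219261), (nat_lit 1228519), (nat_lit 1328103), (nat_lit 1339169), (nat_lit 1283782), (nat_lit 1289472), (nat_lit 1392656), (nat_lit 1400154)]⟩, (nat_lit 4760443), (nat_lit 37589364), (nat_lit 24013969), (nat_lit 5396667), (nat_lit 3), (nat_lit 0), [⟨(nat_lit 1), (nat_lit 58), (nat_lit 68), (nat_lit 100), (nat_lit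 197085733)⟩], [], [], [⟨(nat_lit 0), (nat_lit 100), (nat_lit 76), (nat_lit 37), (nat_lit 33126417)⟩],
 ⟨⟨[(nat_lit 40), (nat_lit 60), (nat_lit 80)], [(nat_lit 0), (nat_lit 398), (nat_lit 992)], [((nat_lit 0), (nat_lit 0), (nat_lit 0)), ((nat_lit 1000), (nat_lit 814), (nat_lit 310)), ((nat_lit 1000), (nat_lit 752), (nat_lit 464))], ((nat_lit 73), (nat_lit 100), (nat_lit 55))⟩, (nat_lit 1697647), (nat_lit 170), (nat_lit 170), (nat_lit 0), (nat_lit 228038), [(nat_lit 1490996003), (nat_lit 1886713903), (nat_lit 2141230000)], [(nat_lit 0), (nat_lit 0), (nat_lit 0)], [(nat_lit 24725835264), (nat_lit 25770152980), (nat_lit 27720584619), (nat_lit 28816859514), (nat_lit 25066216664), (nat_lit 26064354764), (nat_lit 27930622664), (nat_lit 28798752464)], (nat_lit 1271251), (nat_lit 1271251), (nat_lit 1271251), (nat_lit 1271251), (nat_lit 490000), (nat_lit 780000), [(nat_lit 490000), (nat_lit 780000), (nat_lit 1100000)], [(nat_lit 2), (nat_lit 44), (nat_lit 238),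 (nat_lit 30), (nat_lit 9)]⟩,
 ⟨⟨[(nat_lit 80), (nat_lit 120), (nat_lit 140)], [(nat_lit 0), (nat_lit 0), (nat_lit 1164)], [((nat_lit 0), (nat_lit 0), (nat_lit 0)), ((nat_lit 0), (nat_lit 0), (nat_lit 0)), ((nat_lit 941), (nat_lit 1000), (nat_lit 576))], ((nat_lit 100), (nat_lit 95), (nat_lit 55))⟩, (nat_lit 1210877), (nat_lit 610), (nat_lit 610), (nat_lit 0), (nat_lit 928754), [(nat_lit 1382960000), (nat_lit 2350560000), (nat_lit 2903390000)], [], [(nat_lit 11022889980), (nat_lit 11136231745), (nat_lit 11727481650), (nat_lit 11806002404), (nat_lit 9450539790), (nat_lit 9545102990), (nat_lit 10066418318), (nat_lit 10130118493)], (nat_lit 1271251), (nat_lit 1271251), (nat_lit 1271251), (nat_lit 1271251), (nat_lit 0), (nat_lit 780000), [(nat_lit 1100000), (nat_lit 1785001), (nat_lit 1271251)], [(nat_lit 17), (nat_lit 58), (nat_lit 317), (nat_lit 100), (nat_lit 9)]⟩,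
 Rw.none⟩) (.spl (nat_lit 0) (nat_lit 350) (.leaf ⟨(nat_lit 786), (nat_lit 53), (nat_lit 0), (nat_lit 161), (nat_lit 0), (nat_lit 3137), (nat_lit 1920), (nat_lit 2062), (nat_lit 0), (nat_lit 0), (nat_lit 441150), [((nat_lit 350), [((nat_lit 21), (nat_lit 0), (nat_lit 87)), ((nat_lit 39), (nat_lit 2), (nat_lit 699))])], ⟨(nat_lit 8), false, true, true, (nat_lit 317), (nat_lit 3535), (nat_lit 3873), [(nat_lit 1737150), (nat_lit 1732188), (nat_lit 1758942), (nat_lit 1754140), (nat_lit 1833932), (nat_lit 1826330), (nat_lit 1855725), (nat_lit 1848283)]⟩, ⟨(nat_lit 3), false, false, false, (nat_lit 123), (nat_lit 3535), (nat_lit 3873), [(nat_lit 1219261), (nat_lit 1223904), (nat_lit 1328204), (nat_lit 1333644), (nat_lit 1283782), (nat_lit 1286665), (nat_lit 1392731), (nat_lit 1396411)]⟩, (nat_lit 4754178), (nat_lit 37519987), (nat_lit 24145192), (nat_lit 5334821), (nat_lit 3), (nat_lit 0), [⟨(nat_lit 1), (nat_lit 55), (nat_lit 71), (nat_lit 100), (nat_lit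 198518510)⟩], [], [], [],
 ⟨⟨[(nat_lit 40), (nat_lit 60), (nat_lit 80)], [(nat_lit 0), (nat_lit 398), (nat_lit 992)], [((nat_lit 0), (nat_lit 0), (nat_lit 0)), ((nat_lit 1000), (nat_lit 814), (nat_lit 310)), ((nat_lit 1000), (nat_lit 752), (nat_lit 464))], ((nat_lit 73), (nat_lit 100), (nat_lit 55))⟩, (nat_lit 1537096), (nat_lit 161), (nat_lit 161), (nat_lit 0), (nat_lit 203511), [(nat_lit 1439228802), (nat_lit 1712576588), (nat_lit 1767935600)], [(nat_lit 0), (nat_lit 0), (nat_lit 0)], [(nat_lit 24695724241), (nat_lit 25211681586), (nat_lit 27656041130), (nat_lit 28105821452), (nat_lit 25048795591), (nat_lit 25542094104), (nat_lit 27881183810), (nat_lit 28310780895)], (nat_lit 1271251), (nat_lit 1271251), (nat_lit 1271251), (nat_lit 1271251), (nat_lit 490000), (nat_lit 780000), [(nat_lit 490000), (nat_lit 780000), (nat_lit 1100000)], [(nat_lit 2), (nat_lit 44), (nat_lit 238), (nat_lit 30), (nat_lit 9)]⟩,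
 ⟨⟨[(nat_lit 80), (nat_lit 120), (nat_lit 140)], [(nat_lit 0), (nat_lit 0), (nat_lit 1164)], [((nat_lit 0), (nat_lit 0), (nat_lit 0)), ((nat_lit 0), (nat_lit 0), (nat_lit 0)), ((nat_lit 941), (nat_lit 1000), (nat_lit 576))], ((nat_lit 100), (nat_lit 95), (nat_lit 55))⟩, (nat_lit 658533), (nat_lit 523), (nat_lit 523), (nat_lit 0), (nat_lit 941464), [(nat_lit 1003232000), (nat_lit 1705152000), (nat_lit 2106188000)], [], [(nat_lit 7005235068), (nat_lit 7074097628), (nat_lit 7448514291), (nat_lit 7495362266), (nat_lit 6904627798), (nat_lit 6934856406), (nat_lit 7196869387), (nat_lit 7210435123)], (nat_lit 1271251), (nat_lit 1271251), (nat_lit 1271251), (nat_lit 1271251), (nat_lit 780000), (nat_lit 2253751), [(nat_lit 1100000), (nat_lit 1785001), (nat_lit 1271251)], [(nat_lit 17), (nat_lit 58), (nat_lit 373), (nat_lit 150), (nat_lit 10)]⟩,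
 ⟨⟨[(nat_lit 140), (nat_lit 180), (nat_lit 200)], [(nat_lit 0), (nat_lit 0), (nat_lit 2835)], [((nat_lit 0), (nat_lit 0), (nat_lit 0)), ((nat_lit 0), (nat_lit 0), (nat_lit 0)), ((nat_lit 363), (nat_lit 1000), (nat_lit 798))], ((nat_lit 0), (nat_lit 0), (nat_lit 0))⟩, (nat_lit 172937), (nat_lit 300), (nat_lit 765), (nat_lit 12574100), (nat_lit 720859), [(nat_lit 1584562000), (nat_lit 2263338000), (nat_lit 2640400000)], [], [(nat_lit 10366582736), (nat_lit 9756600680), (nat_lit 9994011793), (nat_lit 9383808971), (nat_lit 9762162030), (nat_lit 12273574492), (nat_lit 10423225332), (nat_lit 12996364022)], (nat_lit 780000), (nat_lit 1598751), (nat_lit 490000), (nat_lit 780000), (nat_lit 780000), (nat_lit 2253751), [(nat_lit 1977501), (nat_lit 1271251), (nat_lit 1271251)], [(nat_lit 32), (nat_lit 67), (nat_lit 401), (nat_lit 175), (nat_lit 9)]⟩⟩) (.spl (nat_lit 0) (nat_lit 355) (.leaf ⟨(nat_lit 822), (nat_lit 38), (nat_lit 0), (nat_lit 140), (nat_lit 0),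 (nat_lit 3104), (nat_lit 1597), (nat_lit 1812), (nat_lit 0), (nat_lit 0), (nat_lit 472200), [((nat_lit 355), [((nat_lit 21), (nat_lit 0), (nat_lit 60)), ((nat_lit 39), (nat_lit 2), (nat_lit 762))])], ⟨(nat_lit 8), false, true, true, (nat_lit 315), (nat_lit 3354), (nat_lit 3536), [(nat_lit 1732188), (nat_lit 1729689), (nat_lit 1754141), (nat_lit 1751737), (nat_lit 1826330), (nat_lit 1822487), (nat_lit 1848283), (nat_lit 1844534)]⟩, ⟨(nat_lit 3), false, false, false, (nat_lit 124), (nat_lit 3354), (nat_lit 3536), [(nat_lit 1223904), (nat_lit 1226213), (nat_lit 1333659), (nat_lit 1336443), (nat_lit 1286665), (nat_lit 1288078), (nat_lit 1396423), (nat_lit 1398311)]⟩, (nat_lit 4763738), (nat_lit 37621847), (nat_lit 23949577), (nat_lit 5428576), (nat_lit 3), (nat_lit 0), [⟨(nat_lit 1), (nat_lit 60), (nat_lit 67), (nat_lit 100), (nat_lit 233249948)⟩], [], [], [],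
 ⟨⟨[(nat_lit 40), (nat_lit 60), (nat_lit 80)], [(nat_lit 0), (nat_lit 600), (nat_lit 1195)], [((nat_lit 0), (nat_lit 0), (nat_lit 0)), ((nat_lit 1000), (nat_lit 725), (nat_lit 454)), ((nat_lit 1000), (nat_lit 720), (nat_lit 465))], ((nat_lit 69), (nat_lit 100), (nat_lit 56))⟩, (nat_lit 1104757), (nat_lit 165), (nat_lit 165), (nat_lit 0), (nat_lit 214852), [(nat_lit 1416013638), (nat_lit 1619327454), (nat_lit 1599675200)], [(nat_lit 0), (nat_lit 0), (nat_lit 0)], [(nat_lit 25180743532), (nat_lit 25437597754), (nat_lit 28061363785), (nat_lit 28318780557), (nat_lit 25515914188), (nat_lit 25761517138), (nat_lit 28273462551), (nat_lit 28487450995)], (nat_lit 1271251), (nat_lit 1271251), (nat_lit 1271251), (nat_lit 1271251), (nat_lit 490000), (nat_lit 780000), [(nat_lit 490000), (nat_lit 780000), (nat_lit 1100000)], [(nat_lit 2), (nat_lit 44), (nat_lit 238), (nat_lit 30), (nat_lit 9)]⟩,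
 ⟨⟨[(nat_lit 80), (nat_lit 120), (nat_lit 140)], [(nat_lit 0), (nat_lit 0), (nat_lit 1164)], [((nat_lit 0), (nat_lit 0), (nat_lit 0)), ((nat_lit 0), (nat_lit 0), (nat_lit 0)), ((nat_lit 941), (nat_lit 1000), (nat_lit 576))], ((nat_lit 100), (nat_lit 95), (nat_lit 55))⟩, (nat_lit 653378), (nat_lit 574), (nat_lit 574), (nat_lit 0), (nat_lit 1037005), [(nat_lit 834464000), (nat_lit 1418304000), (nat_lit 1751876000)], [], [(nat_lit 5826820486), (nat_lit 5884098754), (nat_lit 6195528528), (nat_lit 6234495690), (nat_lit 5743141490), (nat_lit 5768285127), (nat_lit 5986220708), (nat_lit 5997504640)], (nat_lit 1271251), (nat_lit 1271251), (nat_lit 1271251), (nat_lit 1271251), (nat_lit 780000), (nat_lit 2253751), [(nat_lit 1100000), (nat_lit 1785001), (nat_lit 1271251)], [(nat_lit 17), (nat_lit 58), (nat_lit 373), (nat_lit 150), (nat_lit 10)]⟩,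
 ⟨⟨[(nat_lit 140), (nat_lit 180), (nat_lit 200)], [(nat_lit 0), (nat_lit 0), (nat_lit 2835)], [((nat_lit 0), (nat_lit 0), (nat_lit 0)), ((nat_lit 0), (nat_lit 0), (nat_lit 0)), ((nat_lit 363), (nat_lit 1000), (nat_lit 798))], ((nat_lit 0), (nat_lit 0), (nat_lit 0))⟩, (nat_lit 136300), (nat_lit 300), (nat_lit 807), (nat_lit 10934000), (nat_lit 775205), [(nat_lit 1377880000), (nat_lit 1968120000), (nat_lit 2296000000)], [], [(nat_lit 9073476024), (nat_lit 8449231496), (nat_lit 8738269344), (nat_lit 8120809020), (nat_lit 8508012188), (nat_lit 10710089816), (nat_lit 9087210240), (nat_lit 11343530315)], (nat_lit 780000), (nat_lit 1598751), (nat_lit 490000), (nat_lit 780000), (nat_lit 780000), (nat_lit 2253751), [(nat_lit 1977501), (nat_lit 1271251), (nat_lit 1271251)], [(nat_lit 32), (nat_lit 67), (nat_lit 401), (nat_lit 175), (nat_lit 9)]⟩⟩) (.trX (nat_lit 3) (nat_lit 0) (nat_lit 1) (nat_lit 66) (nat_lit 58) (nat_lit 100) (nat_lit 370) (.spl (nat_lit 1)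 (nat_lit 250) (.leaf ⟨(nat_lit 894), (nat_lit 0), (nat_lit 0), (nat_lit 106), (nat_lit 0), (nat_lit 3055), (nat_lit 974), (nat_lit 1415), (nat_lit 0), (nat_lit 0), (nat_lit 533600), [((nat_lit 360), [((nat_lit 21), (nat_lit 0), (nat_lit 8)), ((nat_lit 39), (nat_lit 2), (nat_lit 886))])], ⟨(nat_lit 8), false, true, true, (nat_lit 309), (nat_lit 3162), (nat_lit 3355), [(nat_lit 1729689), (nat_lit 1727168), (nat_lit 1740713), (nat_lit 1738246), (nat_lit 1807021), (nat_lit 1803360), (nat_lit 1818044), (nat_lit 1814438)]⟩, ⟨(nat_lit 3), false, false, false, (nat_lit 125), (nat_lit 3162), (nat_lit 3355), [(nat_lit 1226213), (nat_lit 1228519), (nat_lit 1336440), (nat_lit 1339283), (nat_lit 1288078), (nat_lit 1289472), (nat_lit 1398308), (nat_lit 1400239)]⟩, (nat_lit 4759700), (nat_lit 38127498), (nat_lit 23336656), (nat_lit 5535846), (nat_lit 0), (nat_lit 0), [⟨(nat_lit 1), (nat_lit 65), (nat_lit 63), (nat_lit 100), (nat_lit 278707460)⟩], [], [], [],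
 ⟨⟨[(nat_lit 40), (nat_lit 60), (nat_lit 80)], [(nat_lit 0), (nat_lit 709), (nat_lit 1350)], [((nat_lit 0), (nat_lit 0), (nat_lit 0)), ((nat_lit 1000), (nat_lit 692), (nat_lit 494)), ((nat_lit 1000), (nat_lit 689), (nat_lit 501))], ((nat_lit 66), (nat_lit 100), (nat_lit 57))⟩, (nat_lit 374120), (nat_lit 164), (nat_lit 164), (nat_lit 0), (nat_lit 215286), [(nat_lit 1369898401), (nat_lit 1385615899), (nat_lit 1298825301)], [(nat_lit 0), (nat_lit 0), (nat_lit 0)], [(nat_lit 25343412851), (nat_lit 25598597434), (nat_lit 27701409477), (nat_lit 27929752174), (nat_lit 25674513381), (nat_lit 25918562724), (nat_lit 27932634807), (nat_lit 28150631006)], (nat_lit 1271251), (nat_lit 1271251), (nat_lit 1271251), (nat_lit 1271251), (nat_lit 490000), (nat_lit 780000), [(nat_lit 490000), (nat_lit 780000), (nat_lit 1100000)], [(nat_lit 2), (nat_lit 44), (nat_lit 238), (nat_lit 30), (nat_lit 9)]⟩,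
 ⟨⟨[(nat_lit 80), (nat_lit 120), (nat_lit 140)], [(nat_lit 0), (nat_lit 0), (nat_lit 1164)], [((nat_lit 0), (nat_lit 0), (nat_lit 0)), ((nat_lit 0), (nat_lit 0), (nat_lit 0)), ((nat_lit 941), (nat_lit 1000), (nat_lit 576))], ((nat_lit 100), (nat_lit 95), (nat_lit 55))⟩, (nat_lit 262890), (nat_lit 612), (nat_lit 612), (nat_lit 0), (nat_lit 1130517), [(nat_lit 496928000), (nat_lit 844608000), (nat_lit 1043252000)], [], [(nat_lit 3380959472), (nat_lit 3397935700), (nat_lit 3565663662), (nat_lit 3578003701), (nat_lit 3322064490), (nat_lit 3329285786), (nat_lit 3443175744), (nat_lit 3449249950)], (nat_lit 1271251), (nat_lit 1271251), (nat_lit 1271251), (nat_lit 1271251), (nat_lit 780000), (nat_lit 2253751), [(nat_lit 1100000), (nat_lit 1785001), (nat_lit 1271251)], [(nat_lit 17), (nat_lit 58), (nat_lit 373), (nat_lit 150), (nat_lit 10)]⟩,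
 ⟨⟨[(nat_lit 140), (nat_lit 180), (nat_lit 200)], [(nat_lit 0), (nat_lit 0), (nat_lit 2835)], [((nat_lit 0), (nat_lit 0), (nat_lit 0)), ((nat_lit 0), (nat_lit 0), (nat_lit 0)), ((nat_lit 363), (nat_lit 1000), (nat_lit 798))], ((nat_lit 0), (nat_lit 0), (nat_lit 0))⟩, (nat_lit 41203), (nat_lit 300), (nat_lit 813), (nat_lit 8278600), (nat_lit 790679), [(nat_lit 1043252000), (nat_lit 1490148000), (nat_lit 1738400000)], [], [(nat_lit 6744005680), (nat_lit 6318302039), (nat_lit 6485734616), (nat_lit 6059972903), (nat_lit 6485335497), (nat_lit 8194054106), (nat_lit 6933775212), (nat_lit 8684852023)], (nat_lit 780000), (nat_lit 1598751), (nat_lit 490000), (nat_lit 780000), (nat_lit 780000), (nat_lit 2253751), [(nat_lit 1977501), (nat_lit 1271251), (nat_lit 1271251)], [(nat_lit 32), (nat_lit 67), (nat_lit 401), (nat_lit 175), (nat_lit 9)]⟩⟩) (.leaf ⟨(nat_lit 0), (nat_lit 575), (nat_lit 0), (nat_lit 425), (nat_lit 0), (nat_lit 3988), (nat_lit 6978), (nat_lit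 5661), (nat_lit 0), (nat_lit 0), (nat_lit 0), [], Pd.none, Pd.none, (nat_lit 0), (nat_lit 1), (nat_lit 0), (nat_lit 0), (nat_lit 3), (nat_lit 0), [], [], [], [],
 ⟨⟨[(nat_lit 40), (nat_lit 60), (nat_lit 80)], [(nat_lit 0), (nat_lit 709), (nat_lit 1350)], [((nat_lit 0), (nat_lit 0), (nat_lit 0)), ((nat_lit 1000), (nat_lit 692), (nat_lit 494)), ((nat_lit 1000), (nat_lit 689), (nat_lit 501))], ((nat_lit 66), (nat_lit 100), (nat_lit 57))⟩, (nat_lit 1818358), (nat_lit 167), (nat_lit 167), (nat_lit 0), (nat_lit 226327), [(nat_lit 2032000229), (nat_lit 3290890867), (nat_lit 4688000000)], [], [(nat_lit 26283234989), (nat_lit 26559866444), (nat_lit 29254557026), (nat_lit 29566012353), (nat_lit 26467256233), (nat_lit 26740887508), (nat_lit 29093465925), (nat_lit 29391229463)], (nat_lit 1271251), (nat_lit 1271251), (nat_lit 1271251), (nat_lit 1271251), (nat_lit 490000), (nat_lit 780000), [(nat_lit 490000), (nat_lit 780000), (nat_lit 1100000)], [(nat_lit 2), (nat_lit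 44), (nat_lit 238), (nat_lit 30), (nat_lit 9)]⟩,
 ⟨⟨[(nat_lit 80), (nat_lit 120), (nat_lit 140)], [(nat_lit 0), (nat_lit 264), (nat_lit 1360)], [((nat_lit 0), (nat_lit 0), (nat_lit 0)), ((nat_lit 1000), (nat_lit 979), (nat_lit 103)), ((nat_lit 951), (nat_lit 1000), (nat_lit 628))], ((nat_lit 100), (nat_lit 98), (nat_lit 56))⟩, (nat_lit 14570089), (nat_lit 599), (nat_lit 599), (nat_lit 0), (nat_lit 1103428), [(nat_lit 4688000000), (nat_lit 7968000000), (nat_lit 9842000000)], [], [(nat_lit 27848790397), (nat_lit 28045911129), (nat_lit 29677797938), (nat_lit 29876131835), (nat_lit 29121627687), (nat_lit 29271262683), (nat_lit 30599008952), (nat_lit 30998985060)], (nat_lit 1271251), (nat_lit 1271251), (nat_lit 1271251), (nat_lit 1271251), (nat_lit 780000), (nat_lit 2253751), [(nat_lit 1100000), (nat_lit 1785001), (nat_lit 1271251)], [(nat_lit 17), (nat_lit 58), (nat_lit 373), (nat_lit 150), (nat_lit 10)]⟩,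
 ⟨⟨[(nat_lit 140), (nat_lit 180), (nat_lit 200)], [(nat_lit 0), (nat_lit 0), (nat_lit 2835)], [((nat_lit 0), (nat_lit 0), (nat_lit 0)), ((nat_lit 0), (nat_lit 0), (nat_lit 0)), ((nat_lit 363), (nat_lit 1000), (nat_lit 798))], ((nat_lit 0), (nat_lit 0), (nat_lit 0))⟩, (nat_lit 116933), (nat_lit 300), (nat_lit 830), (nat_lit 33192500), (nat_lit 830202), [(nat_lit 4182850000), (nat_lit 5974650000), (nat_lit 6970000000)], [], [(nat_lit 27057111328), (nat_lit 25355464793), (nat_lit 26024381711), (nat_lit 24322483568), (nat_lit 25990032599), (nat_lit 32829144278), (nat_lit 27785181480), (nat_lit 34793755902)], (nat_lit 780000), (nat_lit 1598751), (nat_lit 490000), (nat_lit 780000), (nat_lit 780000), (nat_lit 2253751), [(nat_lit 1977501), (nat_lit 1271251), (nat_lit 1271251)], [(nat_lit 32), (nat_lit 67), (nat_lit 401), (nat_lit 175), (nat_lit 9)]⟩⟩))))))))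
noncomputable def c8_5 : Tr Lf :=
 (.spl (nat_lit 2) (nat_lit 180) (.leaf ⟨(nat_lit 332), (nat_lit 640), (nat_lit 0), (nat_lit 28), (nat_lit 0), (nat_lit 3896), (nat_lit 4546), (nat_lit 298), (nat_lit 0), (nat_lit 0), (nat_lit 206000), [((nat_lit 360), [((nat_lit 21), (nat_lit 0), (nat_lit 168)), ((nat_lit 21), (nat_lit 2), (nat_lit 164))])], ⟨(nat_lit 8), false, true, true, (nat_lit 328), (nat_lit 3162), (nat_lit 3873), [(nat_lit 1758943), (nat_lit 1749323), (nat_lit 1780717), (nat_lit 1771459), (nat_lit 1871856), (nat_lit 1855992), (nat_lit 1893649), (nat_lit 1878147)]⟩, ⟨(nat_lit 3), false, false, false, (nat_lit 93), (nat_lit 3162), (nat_lit 3873), [(nat_lit 1106311), (nat_lit 1121813), (nat_lit 1171604), (nat_lit 1188192), (nat_lit 1283782), (nat_lit 1289472), (nat_lit 1349127), (nat_lit 1355902)]⟩, (nat_lit 4448042), (nat_lit 37767367), (nat_lit 25727517), (nat_lit 3505116), (nat_lit 3), (nat_lit 0), [], [], [], [⟨(nat_lit 1), (nat_lit 100),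 (nat_lit 63), (nat_lit 74), (nat_lit 125870547)⟩],
 ⟨⟨[(nat_lit 40), (nat_lit 60), (nat_lit 80)], [(nat_lit 0), (nat_lit 398), (nat_lit 992)], [((nat_lit 0), (nat_lit 0), (nat_lit 0)), ((nat_lit 1000), (nat_lit 814), (nat_lit 310)), ((nat_lit 1000), (nat_lit 752), (nat_lit 464))], ((nat_lit 73), (nat_lit 100), (nat_lit 55))⟩, (nat_lit 2821176), (nat_lit 220), (nat_lit 220), (nat_lit 0), (nat_lit 253494), [(nat_lit 1737154775), (nat_lit 2634897624), (nat_lit 3391604800)], [(nat_lit 0), (nat_lit 0), (nat_lit 0)], [(nat_lit 27352361617), (nat_lit 28830291086), (nat_lit 32240863998), (nat_lit 33434542707), (nat_lit 25214954031), (nat_lit 26232680587), (nat_lit 29358211932), (nat_lit 30465742626)], (nat_lit 1271251), (nat_lit 1271251), (nat_lit 1271251), (nat_lit 1271251), (nat_lit 54688), (nat_lit 780000), [(nat_lit 490000), (nat_lit 780000), (nat_lit 1100000)], [(nat_lit 2), (nat_lit 44), (nat_lit 238), (nat_lit 30), (nat_lit 9)]⟩,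
 ⟨⟨[(nat_lit 80), (nat_lit 120), (nat_lit 140)], [(nat_lit 0), (nat_lit 528), (nat_lit 1572)], [((nat_lit 0), (nat_lit 0), (nat_lit 0)), ((nat_lit 1000), (nat_lit 959), (nat_lit 206)), ((nat_lit 966), (nat_lit 1000), (nat_lit 679))], ((nat_lit 99), (nat_lit 100), (nat_lit 56))⟩, (nat_lit 4975723), (nat_lit 667), (nat_lit 667), (nat_lit 0), (nat_lit 1083622), [(nat_lit 3131584000), (nat_lit 5322624000), (nat_lit 6574456000)], [], [(nat_lit 22232995510), (nat_lit 22529261092), (nat_lit 23882366328), (nat_lit 24670114794), (nat_lit 21051785192), (nat_lit 21206904017), (nat_lit 22077830272), (nat_lit 22185625481)], (nat_lit 1271251), (nat_lit 1271251), (nat_lit 1271251), (nat_lit 1271251), (nat_lit 0), (nat_lit 2118750), [(nat_lit 1100000), (nat_lit 1785001), (nat_lit 1271251)], [(nat_lit 17), (nat_lit 58), (nat_lit 373), (nat_lit 150), (nat_lit 10)]⟩,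
 ⟨⟨[(nat_lit 140), (nat_lit 180), (nat_lit 200)], [(nat_lit 0), (nat_lit 0), (nat_lit 2835)], [((nat_lit 0), (nat_lit 0), (nat_lit 0)), ((nat_lit 0), (nat_lit 0), (nat_lit 0)), ((nat_lit 363), (nat_lit 1000), (nat_lit 798))], ((nat_lit 0), (nat_lit 0), (nat_lit 0))⟩, (nat_lit 115097), (nat_lit 300), (nat_lit 1030), (nat_lit 2186800), (nat_lit 921663), [(nat_lit 275576000), (nat_lit 393624000), (nat_lit 459200000)], [], [(nat_lit 2439724225), (nat_lit 2368460023), (nat_lit 2234806192), (nat_lit 2166264209), (nat_lit 2049265138), (nat_lit 1980360929), (nat_lit 1860300937), (nat_lit 1793696158)], (nat_lit 780000), (nat_lit 1271251), (nat_lit 54688), (nat_lit 780000), (nat_lit 0), (nat_lit 2118750), [(nat_lit 1977501), (nat_lit 1271251), (nat_lit 1271251)], [(nat_lit 32), (nat_lit 67), (nat_lit 373), (nat_lit 150), (nat_lit 9)]⟩⟩) (.trZ (nat_lit 0) (nat_lit 2) (nat_lit 4) (nat_lit 100) (nat_lit 72) (nat_lit 63) (nat_lit 40) (.leaf ⟨(nat_lit 0), (nat_lit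 813), (nat_lit 0), (nat_lit 187), (nat_lit 0), (nat_lit 3864), (nat_lit 6615), (nat_lit 2337), (nat_lit 0), (nat_lit 0), (nat_lit 0), [], Pd.none, Pd.none, (nat_lit 0), (nat_lit 1), (nat_lit 0), (nat_lit 0), (nat_lit 4), (nat_lit 0), [⟨(nat_lit 1), (nat_lit 50), (nat_lit 71), (nat_lit 100), (nat_lit 11631538)⟩], [⟨(nat_lit 0), (nat_lit 100), (nat_lit 60), (nat_lit 86), (nat_lit 330199952)⟩], [], [],
 ⟨⟨[(nat_lit 40), (nat_lit 60), (nat_lit 80)], [(nat_lit 0), (nat_lit 398), (nat_lit 992)], [((nat_lit 0), (nat_lit 0), (nat_lit 0)), ((nat_lit 1000), (nat_lit 814), (nat_lit 310)), ((nat_lit 1000), (nat_lit 752), (nat_lit 464))], ((nat_lit 73), (nat_lit 100), (nat_lit 55))⟩, (nat_lit 4257215), (nat_lit 190), (nat_lit 190), (nat_lit 0), (nat_lit 201477), [(nat_lit 2032000015), (nat_lit 3376484095), (nat_lit 4688000000)], [], [(nat_lit 26336106960), (nat_lit 27655060904), (nat_lit 31000154561), (nat_lit 32173676432), (nat_lit 25904782636), (nat_lit 26983581436),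 (nat_lit 29507657699), (nat_lit 30413535761)], (nat_lit 1271251), (nat_lit 1271251), (nat_lit 1271251), (nat_lit 1271251), (nat_lit 230000), (nat_lit 780000), [(nat_lit 490000), (nat_lit 780000), (nat_lit 1100000)], [(nat_lit 2), (nat_lit 44), (nat_lit 238), (nat_lit 30), (nat_lit 9)]⟩,
 ⟨⟨[(nat_lit 80), (nat_lit 120), (nat_lit 140)], [(nat_lit 0), (nat_lit 528), (nat_lit 1572)], [((nat_lit 0), (nat_lit 0), (nat_lit 0)), ((nat_lit 1000), (nat_lit 959), (nat_lit 206)), ((nat_lit 966), (nat_lit 1000), (nat_lit 679))], ((nat_lit 99), (nat_lit 100), (nat_lit 56))⟩, (nat_lit 8787487), (nat_lit 617), (nat_lit 617), (nat_lit 0), (nat_lit 956902), [(nat_lit 4688000000), (nat_lit 7968000000), (nat_lit 9842000000)], [], [(nat_lit 32358104170), (nat_lit 32904445560), (nat_lit 35284446453), (nat_lit 36448044230), (nat_lit 31189337078), (nat_lit 31491894580), (nat_lit 33038303771), (nat_lit 33259140065)], (nat_lit 1271251), (nat_lit 1271251), (nat_lit 1271251),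 (nat_lit 1271251), (nat_lit 0), (nat_lit 2118750), [(nat_lit 1100000), (nat_lit 1785001), (nat_lit 1271251)], [(nat_lit 17), (nat_lit 58), (nat_lit 373), (nat_lit 150), (nat_lit 10)]⟩,
 ⟨⟨[(nat_lit 120), (nat_lit 160), (nat_lit 180)], [(nat_lit 0), (nat_lit 533), (nat_lit 2066)], [((nat_lit 0), (nat_lit 0), (nat_lit 0)), ((nat_lit 960), (nat_lit 1000), (nat_lit 200)), ((nat_lit 615), (nat_lit 1000), (nat_lit 729))], ((nat_lit 100), (nat_lit 79), (nat_lit 55))⟩, (nat_lit 757807), (nat_lit 300), (nat_lit 678), (nat_lit 12416800), (nat_lit 464477), [(nat_lit 1490016000), (nat_lit 2220064000), (nat_lit 2628846000)], [], [(nat_lit 11922191295), (nat_lit 11330296213), (nat_lit 10139095037), (nat_lit 10003634574), (nat_lit 9211955027), (nat_lit 8592068759), (nat_lit 10327483487), (nat_lit 8153717679)], (nat_lit 1271251), (nat_lit 1271251), (nat_lit 230000), (nat_lit 780000), (nat_lit 0), (nat_lit 2118750), [(nat_lit 1695001), (nat_lit 1271251), (nat_lit 1271251)],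 [(nat_lit 28), (nat_lit 65), (nat_lit 401), (nat_lit 175), (nat_lit 10)]⟩⟩)))
noncomputable def c8_6 : Tr Lf :=
 (.spl (nat_lit 6) (nat_lit 16) (.leaf ⟨(nat_lit 0), (nat_lit 872), (nat_lit 0), (nat_lit 128), (nat_lit 0), (nat_lit 4277), (nat_lit 6430), (nat_lit 1414), (nat_lit 0), (nat_lit 0), (nat_lit 0), [], Pd.none, Pd.none, (nat_lit 0), (nat_lit 1), (nat_lit 0), (nat_lit 0), (nat_lit 3), (nat_lit 0), [], [⟨(nat_lit 0), (nat_lit 100), (nat_lit 60), (nat_lit 86), (nat_lit 46875468)⟩], [], [⟨(nat_lit 1), (nat_lit 100), (nat_lit 60), (nat_lit 74), (nat_lit 33912531)⟩],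
 ⟨⟨[(nat_lit 40), (nat_lit 60), (nat_lit 80)], [(nat_lit 0), (nat_lit 398), (nat_lit 992)], [((nat_lit 0), (nat_lit 0), (nat_lit 0)), ((nat_lit 1000), (nat_lit 814), (nat_lit 310)), ((nat_lit 1000), (nat_lit 752), (nat_lit 464))], ((nat_lit 77), (nat_lit 100), (nat_lit 42))⟩, (nat_lit 6261651), (nat_lit 247), (nat_lit 247), (nat_lit 0), (nat_lit 313839), [(nat_lit 2032000019), (nat_lit 3561182744), (nat_lit 4688000000)], [], [(nat_lit 28148538079), (nat_lit 29699524870), (nat_lit 34003614657), (nat_lit 35205730863), (nat_lit 25660408242), (nat_lit 26722315939), (nat_lit 30615765996), (nat_lit 31732196967)], (nat_lit 1271251), (nat_lit 1271251), (nat_lit 1271251), (nat_lit 1271251), (nat_lit 54688), (nat_lit 780000), [(nat_lit 490000), (nat_lit 780000), (nat_lit 1100000)], [(nat_lit 2), (nat_lit 44), (nat_lit 238), (nat_lit 30), (nat_lit 9)]⟩,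
 ⟨⟨[(nat_lit 60), (nat_lit 80), (nat_lit 100)], [(nat_lit 0), (nat_lit 0), (nat_lit 534)], [((nat_lit 0), (nat_lit 0), (nat_lit 0)), ((nat_lit 0), (nat_lit 0), (nat_lit 0)), ((nat_lit 1000), (nat_lit 917), (nat_lit 393))], ((nat_lit 92), (nat_lit 100), (nat_lit 39))⟩, (nat_lit 3323156), (nat_lit 548), (nat_lit 548), (nat_lit 0), (nat_lit 1075442), [(nat_lit 3282000000), (nat_lit 4688000000), (nat_lit 6250000000)], [], [(nat_lit 34343223760), (nat_lit 35290597120), (nat_lit 37144464580), (nat_lit 39263322480), (nat_lit 32929896130), (nat_lit 33449897020), (nat_lit 34698868460), (nat_lit 35056277050)], (nat_lit 1271251), (nat_lit 1271251), (nat_lit 1271251), (nat_lit 1271251), (nat_lit 0), (nat_lit 2118750), [(nat_lit 780000), (nat_lit 1100000), (nat_lit 1442501)], [(nat_lit 9), (nat_lit 50), (nat_lit 289), (nat_lit 75), (nat_lit 10)]⟩,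
 ⟨⟨[(nat_lit 140), (nat_lit 160), (nat_lit 180)], [(nat_lit 0), (nat_lit 0), (nat_lit 799)], [((nat_lit 0), (nat_lit 0), (nat_lit 0)), ((nat_lit 0), (nat_lit 0), (nat_lit 0)), ((nat_lit 728), (nat_lit 1000), (nat_lit 454))], ((nat_lit 100), (nat_lit 75), (nat_lit 43))⟩, (nat_lit 546535), (nat_lit 300), (nat_lit 1035), (nat_lit 9497600), (nat_lit 1124923), [(nat_lit 1259776000), (nat_lit 1519616000), (nat_lit 1799424000)], [], [(nat_lit 9423023910), (nat_lit 8974072280), (nat_lit 8482428400), (nat_lit 8048571799), (nat_lit 7740329413), (nat_lit 8081649000), (nat_lit 7174306608), (nat_lit 8996441333)], (nat_lit 780000), (nat_lit 1598751), (nat_lit 54688), (nat_lit 780000), (nat_lit 0), (nat_lit 2118750), [(nat_lit 1977501), (nat_lit 1271251), (nat_lit 1271251)], [(nat_lit 31), (nat_lit 65), (nat_lit 401), (nat_lit 175), (nat_lit 10)]⟩⟩) (.leaf ⟨(nat_lit 0), (nat_lit 931), (nat_lit 0), (nat_lit 69), (nat_lit 0), (nat_lit 4345), (nat_lit 6981), (nat_lit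 734), (nat_lit 0), (nat_lit 0), (nat_lit 0), [], Pd.none, Pd.none, (nat_lit 0), (nat_lit 1), (nat_lit 0), (nat_lit 0), (nat_lit 3), (nat_lit 0), [], [], [], [⟨(nat_lit 1), (nat_lit 100), (nat_lit 60), (nat_lit 74), (nat_lit 91735692)⟩],
 ⟨⟨[(nat_lit 40), (nat_lit 60), (nat_lit 80)], [(nat_lit 0), (nat_lit 398), (nat_lit 992)], [((nat_lit 0), (nat_lit 0), (nat_lit 0)), ((nat_lit 1000), (nat_lit 814), (nat_lit 310)), ((nat_lit 1000), (nat_lit 752), (nat_lit 464))], ((nat_lit 73), (nat_lit 100), (nat_lit 55))⟩, (nat_lit 2808510), (nat_lit 224), (nat_lit 224), (nat_lit 0), (nat_lit 252666), [(nat_lit 2032000002), (nat_lit 3282000007), (nat_lit 4688000000)], [], [(nat_lit 28290637815), (nat_lit 29854663708), (nat_lit 34193585092), (nat_lit 35404454692), (nat_lit 25821164656), (nat_lit 26747792278), (nat_lit 30725554818), (nat_lit 31849902995)], (nat_lit 1271251), (nat_lit 1271251), (nat_lit 1271251), (nat_lit 1271251), (nat_lit 54688), (nat_lit 780000),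 [(nat_lit 490000), (nat_lit 780000), (nat_lit 1100000)], [(nat_lit 2), (nat_lit 44), (nat_lit 238), (nat_lit 30), (nat_lit 9)]⟩,
 ⟨⟨[(nat_lit 60), (nat_lit 100), (nat_lit 120)], [(nat_lit 0), (nat_lit 0), (nat_lit 1164)], [((nat_lit 0), (nat_lit 0), (nat_lit 0)), ((nat_lit 0), (nat_lit 0), (nat_lit 0)), ((nat_lit 1000), (nat_lit 933), (nat_lit 572))], ((nat_lit 93), (nat_lit 100), (nat_lit 55))⟩, (nat_lit 1559984), (nat_lit 513), (nat_lit 513), (nat_lit 0), (nat_lit 838811), [(nat_lit 3282000000), (nat_lit 6250000000), (nat_lit 7968000000)], [], [(nat_lit 36740838446), (nat_lit 37813635120), (nat_lit 40043983864), (nat_lit 40806403240), (nat_lit 33971907780), (nat_lit 34542535721), (nat_lit 36130702914), (nat_lit 36558534714)], (nat_lit 1271251), (nat_lit 1271251), (nat_lit 1271251), (nat_lit 1271251), (nat_lit 0), (nat_lit 2118750), [(nat_lit 780000), (nat_lit 1435001), (nat_lit 1271251)], [(nat_lit 10), (nat_lit 54), (nat_lit 289), (nat_lit 75),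 (nat_lit 9)]⟩,
 ⟨⟨[(nat_lit 140), (nat_lit 180), (nat_lit 200)], [(nat_lit 0), (nat_lit 0), (nat_lit 2835)], [((nat_lit 0), (nat_lit 0), (nat_lit 0)), ((nat_lit 0), (nat_lit 0), (nat_lit 0)), ((nat_lit 363), (nat_lit 1000), (nat_lit 798))], ((nat_lit 0), (nat_lit 0), (nat_lit 0))⟩, (nat_lit 18984), (nat_lit 300), (nat_lit 1053), (nat_lit 5388902), (nat_lit 977917), [(nat_lit 679098000), (nat_lit 970002000), (nat_lit 1131600000)], [], [(nat_lit 6013390858), (nat_lit 5742405402), (nat_lit 5508696496), (nat_lit 5247358644), (nat_lit 5051769939), (nat_lit 4786998366), (nat_lit 4586676335), (nat_lit 4801822180)], (nat_lit 780000), (nat_lit 1598751), (nat_lit 54688), (nat_lit 780000), (nat_lit 0), (nat_lit 2118750), [(nat_lit 1977501), (nat_lit 1271251), (nat_lit 1271251)], [(nat_lit 32), (nat_lit 67), (nat_lit 401), (nat_lit 175), (nat_lit 9)]⟩⟩))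
noncomputable def c8_7 : Tr Lf :=
 (.trZ (nat_lit 0) (nat_lit 2) (nat_lit 4) (nat_lit 100) (nat_lit 72) (nat_lit 77) (nat_lit 70) (.spl (nat_lit 3) (nat_lit 240) (.spl (nat_lit 1) (nat_lit 280) (.ord (.stt (nat_lit 2) (.leaf ⟨(nat_lit 0), (nat_lit 656), (nat_lit 0), (nat_lit 344), (nat_lit 0), (nat_lit 5751), (nat_lit 7621), (nat_lit 3180), (nat_lit 0), (nat_lit 29356), (nat_lit 0), [], Pd.none, Pd.none, (nat_lit 0), (nat_lit 1), (nat_lit 0), (nat_lit 0), (nat_lit 5), (nat_lit 0), [⟨(nat_lit 0), (nat_lit 100), (nat_lit 69), (nat_lit 96), (nat_lit 637697660)⟩], [⟨(nat_lit 0), (nat_lit 100), (nat_lit 68), (nat_lit 92), (nat_lit 26621956)⟩], [], [],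
 ⟨⟨[(nat_lit 40), (nat_lit 60), (nat_lit 80)], [(nat_lit 0), (nat_lit 398), (nat_lit 992)], [((nat_lit 0), (nat_lit 0), (nat_lit 0)), ((nat_lit 1000), (nat_lit 814), (nat_lit 310)), ((nat_lit 1000), (nat_lit 752), (nat_lit 464))], ((nat_lit 73), (nat_lit 100), (nat_lit 55))⟩, (nat_lit 911525), (nat_lit 214), (nat_lit 214), (nat_lit 0), (nat_lit 442035), [(nat_lit 2041150006), (nat_lit 3282000003), (nat_lit 4688000000)], [], [(nat_lit 18969217547), (nat_lit 21856823058), (nat_lit 22271969949), (nat_lit 24461645220), (nat_lit 18948791362), (nat_lit 21092390386), (nat_lit 21811948050), (nat_lit 23699748433)], (nat_lit 1271251), (nat_lit 1271251), (nat_lit 490000), (nat_lit 1740001), (nat_lit 422188), (nat_lit 780000), [(nat_lit 490000), (nat_lit 780000), (nat_lit 1100000)], [(nat_lit 2), (nat_lit 44), (nat_lit 317), (nat_lit 100), (nat_lit 14)]⟩,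
 ⟨⟨[(nat_lit 80), (nat_lit 120), (nat_lit 140)], [(nat_lit 0), (nat_lit 0), (nat_lit 1164)], [((nat_lit 0), (nat_lit 0), (nat_lit 0)), ((nat_lit 0), (nat_lit 0), (nat_lit 0)), ((nat_lit 941), (nat_lit 1000), (nat_lit 576))], ((nat_lit 100), (nat_lit 95), (nat_lit 55))⟩, (nat_lit 2873846), (nat_lit 186), (nat_lit 186), (nat_lit 0), (nat_lit 0), [(nat_lit 4688000000), (nat_lit 7968000000), (nat_lit 9842000000)], [], [(nat_lit 22221758724), (nat_lit 26107010180), (nat_lit 25796213444), (nat_lit 28659770484), (nat_lit 33155138236), (nat_lit 34824632360), (nat_lit 32579125288), (nat_lit 33795026588)], (nat_lit 0), (nat_lit 0), (nat_lit 0), (nat_lit 0), (nat_lit 0), (nat_lit 0), [], [(nat_lit 17), (nat_lit 58), (nat_lit 483), (nat_lit 250), (nat_lit 14)]⟩,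
 ⟨⟨[(nat_lit 100), (nat_lit 140), (nat_lit 160)], [(nat_lit 0), (nat_lit 508), (nat_lit 1689)], [((nat_lit 0), (nat_lit 0), (nat_lit 0)), ((nat_lit 1000), (nat_lit 1000), (nat_lit 198)), ((nat_lit 811), (nat_lit 1000), (nat_lit 671))], ((nat_lit 100), (nat_lit 89), (nat_lit 55))⟩, (nat_lit 739465), (nat_lit 300), (nat_lit 753), (nat_lit 21500000), (nat_lit 888611), [(nat_lit 2150000000), (nat_lit 3385648000), (nat_lit 4083968000)], [], [(nat_lit 18248624270), (nat_lit 18197944004), (nat_lit 17612152967), (nat_lit 17544511445), (nat_lit 20711912193), (nat_lit 16582953288), (nat_lit 22315503760), (nat_lit 18249062860)], (nat_lit 1271251), (nat_lit 1271251), (nat_lit 422188), (nat_lit 780000), (nat_lit 0), (nat_lit 2825001), [(nat_lit 1412501), (nat_lit 1271251), (nat_lit 1271251)], [(nat_lit 23), (nat_lit 62), (nat_lit 428), (nat_lit 200), (nat_lit 11)]⟩⟩) (.spl (nat_lit 5) (nat_lit 120) (.leaf ⟨(nat_lit 837), (nat_lit 54), (nat_lit 70), (nat_lit 39),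 (nat_lit 0), (nat_lit 4043), (nat_lit 971), (nat_lit 2283), (nat_lit 0), (nat_lit 286097), (nat_lit 422800), [((nat_lit 360), [((nat_lit 21), (nat_lit 1), (nat_lit 397)), ((nat_lit 39), (nat_lit 2), (nat_lit 440))])], ⟨(nat_lit 6), false, false, false, (nat_lit 201), (nat_lit 3162), (nat_lit 3873), [(nat_lit 1349867), (nat_lit 1361295), (nat_lit 1393396), (nat_lit 1405548), (nat_lit 1608082), (nat_lit 1605237), (nat_lit 1651611), (nat_lit 1649490)]⟩, ⟨(nat_lit 5), false, false, false, (nat_lit 156), (nat_lit 3162), (nat_lit 3873), [(nat_lit 1311964), (nat_lit 1323922), (nat_lit 1377258), (nat_lit 1390301), (nat_lit 1392656), (nat_lit 1400154), (nat_lit 1457950), (nat_lit 1466533)]⟩, (nat_lit 4531590), (nat_lit 45478921), (nat_lit 12886560), (nat_lit 8634519), (nat_lit 5), (nat_lit 6), [⟨(nat_lit 0), (nat_lit 100), (nat_lit 69), (nat_lit 96), (nat_lit 1767115)⟩], [⟨(nat_lit 0), (nat_lit 100), (nat_lit 68), (nat_lit 92), (nat_lit 231104134)⟩], [⟨(nat_lit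 0), (nat_lit 100), (nat_lit 99), (nat_lit 55), (nat_lit 81776995)⟩], [],
 ⟨⟨[(nat_lit 40), (nat_lit 60), (nat_lit 80)], [(nat_lit 0), (nat_lit 398), (nat_lit 992)], [((nat_lit 0), (nat_lit 0), (nat_lit 0)), ((nat_lit 1000), (nat_lit 814), (nat_lit 310)), ((nat_lit 1000), (nat_lit 752), (nat_lit 464))], ((nat_lit 73), (nat_lit 100), (nat_lit 55))⟩, (nat_lit 1066), (nat_lit 162), (nat_lit 162), (nat_lit 0), (nat_lit 222469), [(nat_lit 1419674456), (nat_lit 1623713243), (nat_lit 1728481357)], [(nat_lit 0), (nat_lit 0), (nat_lit 0)], [(nat_lit 17218650771), (nat_lit 19522314994), (nat_lit 20830773426), (nat_lit 22603927491), (nat_lit 17550792535), (nat_lit 19312849098), (nat_lit 20786897224), (nat_lit 22374027869)], (nat_lit 1271251), (nat_lit 1271251), (nat_lit 490000), (nat_lit 1740001), (nat_lit 422188), (nat_lit 780000), [(nat_lit 490000), (nat_lit 780000), (nat_lit 1100000)], [(nat_lit 2), (nat_lit 44), (nat_lit 317), (nat_lit 100), (nat_lit 14)]⟩,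
 ⟨⟨[(nat_lit 80), (nat_lit 120), (nat_lit 140)], [(nat_lit 0), (nat_lit 0), (nat_lit 1164)], [((nat_lit 0), (nat_lit 0), (nat_lit 0)), ((nat_lit 0), (nat_lit 0), (nat_lit 0)), ((nat_lit 941), (nat_lit 1000), (nat_lit 576))], ((nat_lit 100), (nat_lit 95), (nat_lit 55))⟩, (nat_lit 0), (nat_lit 663), (nat_lit 663), (nat_lit 0), (nat_lit 907961), [(nat_lit 435984000), (nat_lit 741024000), (nat_lit 915306000)], [], [(nat_lit 4516714736), (nat_lit 3503484270), (nat_lit 3599629640), (nat_lit 3256898852), (nat_lit 2886865932), (nat_lit 2951630176), (nat_lit 4216243724), (nat_lit 3342379651)], (nat_lit 1271251), (nat_lit 1271251), (nat_lit 490000), (nat_lit 1740001), (nat_lit 0), (nat_lit 780000), [(nat_lit 1100000), (nat_lit 1785001), (nat_lit 1271251)], [(nat_lit 17), (nat_lit 58), (nat_lit 401), (nat_lit 175), (nat_lit 12)]⟩,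
 ⟨⟨[(nat_lit 100), (nat_lit 140), (nat_lit 160)], [(nat_lit 0), (nat_lit 508), (nat_lit 1689)], [((nat_lit 0), (nat_lit 0), (nat_lit 0)), ((nat_lit 1000), (nat_lit 1000), (nat_lit 198)), ((nat_lit 811), (nat_lit 1000), (nat_lit 671))], ((nat_lit 100), (nat_lit 89), (nat_lit 55))⟩, (nat_lit 234307), (nat_lit 300), (nat_lit 507), (nat_lit 6812501), (nat_lit 363889), [(nat_lit 681250000), (nat_lit 1072778000), (nat_lit 1294048000)], [], [(nat_lit 4444819744), (nat_lit 4834250797), (nat_lit 3905462460), (nat_lit 4269699906), (nat_lit 2792857789), (nat_lit 2849196470), (nat_lit 3510936423), (nat_lit 2327990842)], (nat_lit 1271251), (nat_lit 1271251), (nat_lit 422188), (nat_lit 780000), (nat_lit 0), (nat_lit 780000), [(nat_lit 1412501), (nat_lit 1271251), (nat_lit 1271251)], [(nat_lit 23), (nat_lit 62), (nat_lit 373), (nat_lit 150), (nat_lit 10)]⟩⟩) (.leaf ⟨(nat_lit 746), (nat_lit 0), (nat_lit 0), (nat_lit 254), (nat_lit 0), (nat_lit 3402), (nat_lit 1803),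 (nat_lit 4620), (nat_lit 0), (nat_lit 755716), (nat_lit 407350), [((nat_lit 360), [((nat_lit 21), (nat_lit 0), (nat_lit 115)), ((nat_lit 39), (nat_lit 2), (nat_lit 631))])], ⟨(nat_lit 6), false, false, false, (nat_lit 201), (nat_lit 3162), (nat_lit 3873), [(nat_lit 1349867), (nat_lit 1361295), (nat_lit 1393396), (nat_lit 1405548), (nat_lit 1608082), (nat_lit 1605237), (nat_lit 1651611), (nat_lit 1649490)]⟩, ⟨(nat_lit 5), false, false, false, (nat_lit 156), (nat_lit 3162), (nat_lit 3873), [(nat_lit 1311964), (nat_lit 1323922), (nat_lit 1377258), (nat_lit 1390301), (nat_lit 1392656), (nat_lit 1400154), (nat_lit 1457950), (nat_lit 1466533)]⟩, (nat_lit 4531590), (nat_lit 45478921), (nat_lit 12886560), (nat_lit 8634519), (nat_lit 0), (nat_lit 0), [], [⟨(nat_lit 0), (nat_lit 100), (nat_lit 68), (nat_lit 92), (nat_lit 426726426)⟩], [], [],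
 ⟨⟨[(nat_lit 40), (nat_lit 60), (nat_lit 80)], [(nat_lit 0), (nat_lit 398), (nat_lit 992)], [((nat_lit 0), (nat_lit 0), (nat_lit 0)), ((nat_lit 1000), (nat_lit 814), (nat_lit 310)), ((nat_lit 1000), (nat_lit 752), (nat_lit 464))], ((nat_lit 73), (nat_lit 100), (nat_lit 55))⟩, (nat_lit 1745063), (nat_lit 162), (nat_lit 162), (nat_lit 0), (nat_lit 222469), [(nat_lit 1464828879), (nat_lit 1748922476), (nat_lit 1968296324)], [(nat_lit 0), (nat_lit 0), (nat_lit 0)], [(nat_lit 16561675769), (nat_lit 18646191066), (nat_lit 20340991215), (nat_lit 21906739514), (nat_lit 16875252150), (nat_lit 18645000172), (nat_lit 20673931381), (nat_lit 21953660445)], (nat_lit 1271251), (nat_lit 1271251), (nat_lit 490000), (nat_lit 1740001), (nat_lit 422188), (nat_lit 780000), [(nat_lit 490000), (nat_lit 780000), (nat_lit 1100000)], [(nat_lit 2), (nat_lit 44), (nat_lit 317), (nat_lit 100), (nat_lit 14)]⟩,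
 ⟨⟨[(nat_lit 80), (nat_lit 120), (nat_lit 140)], [(nat_lit 0), (nat_lit 0), (nat_lit 1164)], [((nat_lit 0), (nat_lit 0), (nat_lit 0)), ((nat_lit 0), (nat_lit 0), (nat_lit 0)), ((nat_lit 941), (nat_lit 1000), (nat_lit 576))], ((nat_lit 100), (nat_lit 95), (nat_lit 55))⟩, (nat_lit 474540), (nat_lit 792), (nat_lit 792), (nat_lit 0), (nat_lit 1355091), [(nat_lit 1190752000), (nat_lit 2023872000), (nat_lit 2499868000)], [], [(nat_lit 12457864362), (nat_lit 12554797603), (nat_lit 12123254482), (nat_lit 12178249944), (nat_lit 12668937212), (nat_lit 12674603216), (nat_lit 15386538604), (nat_lit 13824567250)], (nat_lit 1271251), (nat_lit 1271251), (nat_lit 490000), (nat_lit 1740001), (nat_lit 780000), (nat_lit 3072501), [(nat_lit 1100000), (nat_lit 1785001), (nat_lit 1271251)], [(nat_lit 17), (nat_lit 58), (nat_lit 483), (nat_lit 250), (nat_lit 14)]⟩,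
 ⟨⟨[(nat_lit 100), (nat_lit 140), (nat_lit 160)], [(nat_lit 0), (nat_lit 508), (nat_lit 1689)], [((nat_lit 0), (nat_lit 0), (nat_lit 0)), ((nat_lit 1000), (nat_lit 1000), (nat_lit 198)), ((nat_lit 811), (nat_lit 1000), (nat_lit 671))], ((nat_lit 100), (nat_lit 89), (nat_lit 55))⟩, (nat_lit 546000), (nat_lit 300), (nat_lit 375), (nat_lit 15875000), (nat_lit 363889), [(nat_lit 1587500000), (nat_lit 2499868000), (nat_lit 3015488000)], [], [(nat_lit 6613762493), (nat_lit 7341247682), (nat_lit 5662118122), (nat_lit 6315782499), (nat_lit 13909846730), (nat_lit 13284045572), (nat_lit 15557225704), (nat_lit 11867485120)], (nat_lit 1271251), (nat_lit 1271251), (nat_lit 422188), (nat_lit 780000), (nat_lit 780000), (nat_lit 3072501), [(nat_lit 1412501), (nat_lit 1271251), (nat_lit 1271251)], [(nat_lit 23), (nat_lit 62), (nat_lit 428), (nat_lit 200), (nat_lit 11)]⟩⟩)))) (.trZ (nat_lit 0) (nat_lit 1) (nat_lit 3) (nat_lit 99) (nat_lit 77) (nat_lit 100) (nat_lit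 120) (.trZ (nat_lit 1) (nat_lit 2) (nat_lit 5) (nat_lit 100) (nat_lit 92) (nat_lit 49) (nat_lit 20) (.spl (nat_lit 5) (nat_lit 120) (.leaf ⟨(nat_lit 0), (nat_lit 229), (nat_lit 0), (nat_lit 771), (nat_lit 0), (nat_lit 4598), (nat_lit 10033), (nat_lit 18639), (nat_lit 0), (nat_lit 34378), (nat_lit 0), [], Pd.none, Pd.none, (nat_lit 0), (nat_lit 1), (nat_lit 0), (nat_lit 0), (nat_lit 5), (nat_lit 0), [⟨(nat_lit 0), (nat_lit 88), (nat_lit 67), (nat_lit 100), (nat_lit 657369757)⟩], [⟨(nat_lit 0), (nat_lit 100), (nat_lit 72), (nat_lit 77), (nat_lit 1559706053)⟩], [⟨(nat_lit 0), (nat_lit 100), (nat_lit 92), (nat_lit 49), (nat_lit 397779631)⟩], [],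
 ⟨⟨[(nat_lit 40), (nat_lit 60), (nat_lit 80)], [(nat_lit 0), (nat_lit 398), (nat_lit 992)], [((nat_lit 0), (nat_lit 0), (nat_lit 0)), ((nat_lit 1000), (nat_lit 814), (nat_lit 310)), ((nat_lit 1000), (nat_lit 752), (nat_lit 464))], ((nat_lit 73), (nat_lit 100), (nat_lit 55))⟩, (nat_lit 7908369), (nat_lit 270), (nat_lit 270), (nat_lit 0), (nat_lit 611258), [(nat_lit 2032000017), (nat_lit 3428543990), (nat_lit 4688000000)], [], [(nat_lit 18009511592), (nat_lit 20372565602), (nat_lit 21299077917), (nat_lit 23207576987), (nat_lit 18309972052), (nat_lit 20028535053), (nat_lit 21318077923), (nat_lit 22804809434)], (nat_lit 1271251), (nat_lit 1271251), (nat_lit 780000), (nat_lit 1762501), (nat_lit 422188), (nat_lit 780000), [(nat_lit 490000), (nat_lit 780000), (nat_lit 1100000)], [(nat_lit 2), (nat_lit 44), (nat_lit 317), (nat_lit 100), (nat_lit 14)]⟩,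
 ⟨⟨[(nat_lit 60), (nat_lit 100), (nat_lit 120)], [(nat_lit 0), (nat_lit 0), (nat_lit 1164)], [((nat_lit 0), (nat_lit 0), (nat_lit 0)), ((nat_lit 0), (nat_lit 0), (nat_lit 0)), ((nat_lit 1000), (nat_lit 933), (nat_lit 572))], ((nat_lit 93), (nat_lit 100), (nat_lit 55))⟩, (nat_lit 3748423), (nat_lit 547), (nat_lit 547), (nat_lit 0), (nat_lit 904156), [(nat_lit 3282000000), (nat_lit 6250000000), (nat_lit 7968000000)], [], [(nat_lit 22161263649), (nat_lit 24431348511), (nat_lit 23814114776), (nat_lit 28162405726), (nat_lit 18320091387), (nat_lit 20309261038), (nat_lit 30089242133), (nat_lit 20964489988)], (nat_lit 1271251), (nat_lit 1271251), (nat_lit 780000), (nat_lit 1762501), (nat_lit 111251), (nat_lit 780000), [(nat_lit 780000), (nat_lit 1435001), (nat_lit 1271251)], [(nat_lit 10), (nat_lit 54), (nat_lit 317), (nat_lit 100), (nat_lit 10)]⟩,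
 ⟨⟨[(nat_lit 100), (nat_lit 140), (nat_lit 160)], [(nat_lit 0), (nat_lit 508), (nat_lit 1689)], [((nat_lit 0), (nat_lit 0), (nat_lit 0)), ((nat_lit 1000), (nat_lit 1000), (nat_lit 198)), ((nat_lit 811), (nat_lit 1000), (nat_lit 671))], ((nat_lit 100), (nat_lit 89), (nat_lit 55))⟩, (nat_lit 2133399), (nat_lit 300), (nat_lit 531), (nat_lit 48187500), (nat_lit 460416), [(nat_lit 4818750000), (nat_lit 7588182000), (nat_lit 9153312000)], [], [(nat_lit 27703772520), (nat_lit 37508514389), (nat_lit 23296818785), (nat_lit 32531963594), (nat_lit 17608616621), (nat_lit 22905672955), (nat_lit 23301014320), (nat_lit 18515175222)], (nat_lit 1271251), (nat_lit 1271251), (nat_lit 422188), (nat_lit 780000), (nat_lit 111251), (nat_lit 780000), [(nat_lit 1412501), (nat_lit 1271251), (nat_lit 1271251)], [(nat_lit 23), (nat_lit 62), (nat_lit 373), (nat_lit 150), (nat_lit 10)]⟩⟩) (.leaf ⟨(nat_lit 0), (nat_lit 119), (nat_lit 0), (nat_lit 881), (nat_lit 0), (nat_lit 4548),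 (nat_lit 8939), (nat_lit 9528), (nat_lit 0), (nat_lit 74134), (nat_lit 0), [], Pd.none, Pd.none, (nat_lit 0), (nat_lit 1), (nat_lit 0), (nat_lit 0), (nat_lit 5), (nat_lit 0), [⟨(nat_lit 0), (nat_lit 88), (nat_lit 67), (nat_lit 100), (nat_lit 824887948)⟩], [⟨(nat_lit 0), (nat_lit 100), (nat_lit 72), (nat_lit 77), (nat_lit 1188640823)⟩], [], [],
 ⟨⟨[(nat_lit 40), (nat_lit 60), (nat_lit 80)], [(nat_lit 0), (nat_lit 398), (nat_lit 992)], [((nat_lit 0), (nat_lit 0), (nat_lit 0)), ((nat_lit 1000), (nat_lit 814), (nat_lit 310)), ((nat_lit 1000), (nat_lit 752), (nat_lit 464))], ((nat_lit 73), (nat_lit 100), (nat_lit 55))⟩, (nat_lit 11534961), (nat_lit 270), (nat_lit 270), (nat_lit 0), (nat_lit 611258), [(nat_lit 2032000031), (nat_lit 3662277351), (nat_lit 4688000000)], [], [(nat_lit 18075414443), (nat_lit 20313592527), (nat_lit 21282297033), (nat_lit 23153194149), (nat_lit 18460998797), (nat_lit 20038743983), (nat_lit 21467733943), (nat_lit 22766000284)],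 (nat_lit 1271251), (nat_lit 1271251), (nat_lit 780000), (nat_lit 1762501), (nat_lit 422188), (nat_lit 780000), [(nat_lit 490000), (nat_lit 780000), (nat_lit 1100000)], [(nat_lit 2), (nat_lit 44), (nat_lit 317), (nat_lit 100), (nat_lit 14)]⟩,
 ⟨⟨[(nat_lit 60), (nat_lit 100), (nat_lit 120)], [(nat_lit 0), (nat_lit 0), (nat_lit 1164)], [((nat_lit 0), (nat_lit 0), (nat_lit 0)), ((nat_lit 0), (nat_lit 0), (nat_lit 0)), ((nat_lit 1000), (nat_lit 933), (nat_lit 572))], ((nat_lit 93), (nat_lit 100), (nat_lit 55))⟩, (nat_lit 4314142), (nat_lit 710), (nat_lit 710), (nat_lit 0), (nat_lit 1390965), [(nat_lit 3282000000), (nat_lit 6250000000), (nat_lit 7968000000)], [], [(nat_lit 30946894273), (nat_lit 27313043555), (nat_lit 25949790289), (nat_lit 26650403854), (nat_lit 34110770319), (nat_lit 36483533168), (nat_lit 43273095834), (nat_lit 35634817924)], (nat_lit 1271251), (nat_lit 1271251), (nat_lit 780000), (nat_lit 1762501), (nat_lit 780000), (nat_lit 3072501),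 [(nat_lit 780000), (nat_lit 1435001), (nat_lit 1271251)], [(nat_lit 10), (nat_lit 54), (nat_lit 401), (nat_lit 175), (nat_lit 13)]⟩,
 ⟨⟨[(nat_lit 100), (nat_lit 140), (nat_lit 160)], [(nat_lit 0), (nat_lit 508), (nat_lit 1689)], [((nat_lit 0), (nat_lit 0), (nat_lit 0)), ((nat_lit 1000), (nat_lit 1000), (nat_lit 198)), ((nat_lit 811), (nat_lit 1000), (nat_lit 671))], ((nat_lit 100), (nat_lit 89), (nat_lit 55))⟩, (nat_lit 2694662), (nat_lit 300), (nat_lit 828), (nat_lit 55062500), (nat_lit 1224930), [(nat_lit 5506250000), (nat_lit 8670802000), (nat_lit 10459232000)], [], [(nat_lit 36568910573), (nat_lit 36426565486), (nat_lit 34614565303), (nat_lit 34394565548), (nat_lit 43310546487), (nat_lit 37342495473), (nat_lit 47219191648), (nat_lit 34965938358)], (nat_lit 1271251), (nat_lit 1271251), (nat_lit 422188), (nat_lit 780000), (nat_lit 780000), (nat_lit 3072501), [(nat_lit 1412501), (nat_lit 1271251), (nat_lit 1271251)], [(nat_lit 23), (nat_lit 62), (nat_lit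 456), (nat_lit 225), (nat_lit 12)]⟩⟩))))) (.trX (nat_lit 5) (nat_lit 3) (nat_lit 4) (nat_lit 100) (nat_lit 59) (nat_lit 94) (nat_lit 370) (.spl (nat_lit 5) (nat_lit 120) (.leaf ⟨(nat_lit 0), (nat_lit 0), (nat_lit 0), (nat_lit 1000), (nat_lit 0), (nat_lit 4602), (nat_lit 9640), (nat_lit 21936), (nat_lit 0), (nat_lit 33306), (nat_lit 0), [], Pd.none, Pd.none, (nat_lit 0), (nat_lit 1), (nat_lit 0), (nat_lit 0), (nat_lit 0), (nat_lit 0), [], [⟨(nat_lit 0), (nat_lit 100), (nat_lit 72), (nat_lit 77), (nat_lit 1822358617)⟩], [⟨(nat_lit 0), (nat_lit 100), (nat_lit 98), (nat_lit 30), (nat_lit 1156753047)⟩], [],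
 ⟨⟨[(nat_lit 40), (nat_lit 60), (nat_lit 80)], [(nat_lit 0), (nat_lit 398), (nat_lit 992)], [((nat_lit 0), (nat_lit 0), (nat_lit 0)), ((nat_lit 1000), (nat_lit 814), (nat_lit 310)), ((nat_lit 1000), (nat_lit 752), (nat_lit 464))], ((nat_lit 73), (nat_lit 100), (nat_lit 55))⟩, (nat_lit 8673862), (nat_lit 293), (nat_lit 293), (nat_lit 0), (nat_lit 611628), [(nat_lit 2032000005), (nat_lit 3473686935), (nat_lit 4688000000)], [], [(nat_lit 21919351364), (nat_lit 23211927614), (nat_lit 31990976744), (nat_lit 33203054728), (nat_lit 22112754833), (nat_lit 23329972248), (nat_lit 31140491983), (nat_lit 32294762542)], (nat_lit 1271251), (nat_lit 1271251), (nat_lit 1271251), (nat_lit 1271251), (nat_lit 422188), (nat_lit 780000), [(nat_lit 490000), (nat_lit 780000), (nat_lit 1100000)], [(nat_lit 2), (nat_lit 44), (nat_lit 238), (nat_lit 30), (nat_lit 9)]⟩,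
 ⟨⟨[(nat_lit 80), (nat_lit 120), (nat_lit 140)], [(nat_lit 0), (nat_lit 0), (nat_lit 1164)], [((nat_lit 0), (nat_lit 0), (nat_lit 0)), ((nat_lit 0), (nat_lit 0), (nat_lit 0)), ((nat_lit 941), (nat_lit 1000), (nat_lit 576))], ((nat_lit 100), (nat_lit 95), (nat_lit 55))⟩, (nat_lit 3141958), (nat_lit 717), (nat_lit 717), (nat_lit 0), (nat_lit 1141817), [(nat_lit 4688000000), (nat_lit 7968000000), (nat_lit 9842000000)], [], [(nat_lit 35533490720), (nat_lit 36785874080), (nat_lit 42951618080), (nat_lit 48244055040), (nat_lit 30318437040), (nat_lit 31322125120), (nat_lit 33218671600), (nat_lit 37533709680)], (nat_lit 1271251), (nat_lit 1271251), (nat_lit 1271251), (nat_lit 1271251), (nat_lit 0), (nat_lit 780000), [(nat_lit 1100000), (nat_lit 1785001), (nat_lit 1271251)], [(nat_lit 17), (nat_lit 58), (nat_lit 456), (nat_lit 225), (nat_lit 13)]⟩,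
 ⟨⟨[(nat_lit 100), (nat_lit 140), (nat_lit 160)], [(nat_lit 0), (nat_lit 508), (nat_lit 1689)], [((nat_lit 0), (nat_lit 0), (nat_lit 0)), ((nat_lit 1000), (nat_lit 1000), (nat_lit 198)), ((nat_lit 811), (nat_lit 1000), (nat_lit 671))], ((nat_lit 100), (nat_lit 89), (nat_lit 55))⟩, (nat_lit 3512795), (nat_lit 300), (nat_lit 551), (nat_lit 62500000), (nat_lit 464475), [(nat_lit 6250000000), (nat_lit 9842000000), (nat_lit 11872000000)], [], [(nat_lit 40639547469), (nat_lit 50741430508), (nat_lit 35412840284), (nat_lit 44249169760), (nat_lit 24768422694), (nat_lit 28344954357), (nat_lit 31600294700), (nat_lit 23269178741)], (nat_lit 1271251), (nat_lit 1271251), (nat_lit 422188), (nat_lit 780000), (nat_lit 0), (nat_lit 780000), [(nat_lit 1412501), (nat_lit 1271251), (nat_lit 1271251)], [(nat_lit 23), (nat_lit 62), (nat_lit 373), (nat_lit 150), (nat_lit 10)]⟩⟩) (.leaf ⟨(nat_lit 0), (nat_lit 86), (nat_lit 0), (nat_lit 914), (nat_lit 0), (nat_lit 4604), (nat_lit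 9849), (nat_lit 11048), (nat_lit 0), (nat_lit 19349), (nat_lit 0), [], Pd.none, Pd.none, (nat_lit 0), (nat_lit 1), (nat_lit 0), (nat_lit 0), (nat_lit 5), (nat_lit 0), [], [⟨(nat_lit 0), (nat_lit 100), (nat_lit 71), (nat_lit 100), (nat_lit 1082092344)⟩], [], [],
 ⟨⟨[(nat_lit 40), (nat_lit 60), (nat_lit 80)], [(nat_lit 0), (nat_lit 398), (nat_lit 992)], [((nat_lit 0), (nat_lit 0), (nat_lit 0)), ((nat_lit 1000), (nat_lit 814), (nat_lit 310)), ((nat_lit 1000), (nat_lit 752), (nat_lit 464))], ((nat_lit 73), (nat_lit 100), (nat_lit 55))⟩, (nat_lit 12578531), (nat_lit 293), (nat_lit 293), (nat_lit 0), (nat_lit 611628), [(nat_lit 2032000004), (nat_lit 3815462966), (nat_lit 4688000000)], [], [(nat_lit 21912609591), (nat_lit 23214102927), (nat_lit 31994963512), (nat_lit 33207291705), (nat_lit 22105675730), (nat_lit 23323167060), (nat_lit 31143721066), (nat_lit 32298224484)], (nat_lit 1271251), (nat_lit 1271251), (nat_lit 1271251), (nat_lit 1271251), (nat_lit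 422188), (nat_lit 780000), [(nat_lit 490000), (nat_lit 780000), (nat_lit 1100000)], [(nat_lit 2), (nat_lit 44), (nat_lit 238), (nat_lit 30), (nat_lit 9)]⟩,
 ⟨⟨[(nat_lit 80), (nat_lit 120), (nat_lit 140)], [(nat_lit 0), (nat_lit 0), (nat_lit 1164)], [((nat_lit 0), (nat_lit 0), (nat_lit 0)), ((nat_lit 0), (nat_lit 0), (nat_lit 0)), ((nat_lit 941), (nat_lit 1000), (nat_lit 576))], ((nat_lit 100), (nat_lit 95), (nat_lit 55))⟩, (nat_lit 6701240), (nat_lit 927), (nat_lit 927), (nat_lit 0), (nat_lit 1786630), [(nat_lit 4688000000), (nat_lit 7968000000), (nat_lit 9842000000)], [], [(nat_lit 31551528498), (nat_lit 31462571924), (nat_lit 32856151770), (nat_lit 37846815088), (nat_lit 41549541856), (nat_lit 33801071002), (nat_lit 40190871452), (nat_lit 42248541501)], (nat_lit 1271251), (nat_lit 1271251), (nat_lit 1271251), (nat_lit 1271251), (nat_lit 780000), (nat_lit 2826876), [(nat_lit 1100000), (nat_lit 1785001), (nat_lit 1271251)], [(nat_lit 17), (nat_lit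 58), (nat_lit 538), (nat_lit 300), (nat_lit 15)]⟩,
 ⟨⟨[(nat_lit 100), (nat_lit 140), (nat_lit 160)], [(nat_lit 0), (nat_lit 508), (nat_lit 1689)], [((nat_lit 0), (nat_lit 0), (nat_lit 0)), ((nat_lit 1000), (nat_lit 1000), (nat_lit 198)), ((nat_lit 811), (nat_lit 1000), (nat_lit 671))], ((nat_lit 100), (nat_lit 89), (nat_lit 55))⟩, (nat_lit 3706430), (nat_lit 300), (nat_lit 833), (nat_lit 57125000), (nat_lit 1236957), [(nat_lit 5712500000), (nat_lit 8995588000), (nat_lit 10851008000)], [], [(nat_lit 33800743082), (nat_lit 34840381723), (nat_lit 31494279519), (nat_lit 32431712810), (nat_lit 41901453021), (nat_lit 36883661558), (nat_lit 46149379120), (nat_lit 33874558230)], (nat_lit 1271251), (nat_lit 1271251), (nat_lit 422188), (nat_lit 780000), (nat_lit 780000), (nat_lit 2826876), [(nat_lit 1412501), (nat_lit 1271251), (nat_lit 1271251)], [(nat_lit 23), (nat_lit 62), (nat_lit 456), (nat_lit 225), (nat_lit 12)]⟩⟩)))))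
noncomputable def c8_8 : Tr Lf :=
 (.spl (nat_lit 3) (nat_lit 160) (.spl (nat_lit 5) (nat_lit 120) (.spl (nat_lit 0) (nat_lit 350) (.leaf ⟨(nat_lit 52), (nat_lit 948), (nat_lit 0), (nat_lit 0), (nat_lit 14157), (nat_lit 4789), (nat_lit 5418), (nat_lit 0), (nat_lit 0), (nat_lit 0), (nat_lit 208000), [((nat_lit 350), [((nat_lit 39), (nat_lit 5), (nat_lit 52))])], ⟨(nat_lit 6), false, false, false, (nat_lit 175), (nat_lit 3535), (nat_lit 3873), [(nat_lit 1349991), (nat_lit 1355590), (nat_lit 1393565), (nat_lit 1399483), (nat_lit 1479046), (nat_lit 1481125), (nat_lit 1522620), (nat_lit 1525018)]⟩, ⟨(nat_lit 3), false, false, false, (nat_lit 97), (nat_lit 3535), (nat_lit 3873), [(nat_lit 1106345), (nat_lit 1114069), (nat_lit 1193494), (nat_lit 1201855), (nat_lit 1283782), (nat_lit 1286665), (nat_lit 1370945), (nat_lit 1374465)]⟩, (nat_lit 3554337), (nat_lit 51843609), (nat_lit 10843210), (nat_lit 4313181), (nat_lit 3), (nat_lit 0), [⟨(nat_lit 0), (nat_lit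 100), (nat_lit 72), (nat_lit 94), (nat_lit 626176854)⟩], [], [], [],
 ⟨⟨[(nat_lit 40), (nat_lit 80), (nat_lit 120)], [(nat_lit 0), (nat_lit 795), (nat_lit 2800)], [((nat_lit 0), (nat_lit 0), (nat_lit 0)), ((nat_lit 1000), (nat_lit 814), (nat_lit 310)), ((nat_lit 1000), (nat_lit 719), (nat_lit 783))], ((nat_lit 71), (nat_lit 100), (nat_lit 71))⟩, (nat_lit 2076991), (nat_lit 268), (nat_lit 268), (nat_lit 0), (nat_lit 198437), [(nat_lit 1965252902), (nat_lit 3929340805), (nat_lit 5988380800)], [(nat_lit 0), (nat_lit 0), (nat_lit 0)], [(nat_lit 21094504123), (nat_lit 22424424551), (nat_lit 21149415294), (nat_lit 22341858074), (nat_lit 18790422774), (nat_lit 19510220602), (nat_lit 19235674441), (nat_lit 19873532305)], (nat_lit 1271251), (nat_lit 1271251), (nat_lit 490000), (nat_lit 1100000), (nat_lit 54688), (nat_lit 780000), [(nat_lit 490000), (nat_lit 1100000), (nat_lit 1785001)], [(nat_lit 4), (nat_lit 51), (nat_lit 289), (nat_lit 75), (nat_lit 9)]⟩,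
 ⟨⟨[(nat_lit 80), (nat_lit 120), (nat_lit 160)], [(nat_lit 0), (nat_lit 0), (nat_lit 2132)], [((nat_lit 0), (nat_lit 0), (nat_lit 0)), ((nat_lit 0), (nat_lit 0), (nat_lit 0)), ((nat_lit 858), (nat_lit 1000), (nat_lit 713))], ((nat_lit 100), (nat_lit 85), (nat_lit 73))⟩, (nat_lit 0), (nat_lit 482), (nat_lit 482), (nat_lit 0), (nat_lit 338723), [(nat_lit 4444224000), (nat_lit 7553664000), (nat_lit 11254656000)], [], [(nat_lit 39214394448), (nat_lit 39944011608), (nat_lit 38266707912), (nat_lit 39743384076), (nat_lit 35893392792), (nat_lit 37369222542), (nat_lit 37204203720), (nat_lit 37186116456)], (nat_lit 1271251), (nat_lit 1271251), (nat_lit 490000), (nat_lit 1100000), (nat_lit 0), (nat_lit 780000), [(nat_lit 1100000), (nat_lit 1785001), (nat_lit 1271251)], [(nat_lit 18), (nat_lit 59), (nat_lit 373), (nat_lit 150), (nat_lit 10)]⟩,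
 Rw.none⟩) (.trZ (nat_lit 0) (nat_lit 1) (nat_lit 3) (nat_lit 100) (nat_lit 68) (nat_lit 89) (nat_lit 100) (.leaf ⟨(nat_lit 544), (nat_lit 456), (nat_lit 0), (nat_lit 0), (nat_lit 4106), (nat_lit 4244), (nat_lit 3798), (nat_lit 0), (nat_lit 0), (nat_lit 0), (nat_lit 169900), [((nat_lit 360), [((nat_lit 22), (nat_lit 0), (nat_lit 318)), ((nat_lit 22), (nat_lit 1), (nat_lit 226))])], ⟨(nat_lit 6), false, false, false, (nat_lit 183), (nat_lit 3162), (nat_lit 3536), [(nat_lit 1386958), (nat_lit 1391883), (nat_lit 1430847), (nat_lit 1436176), (nat_lit 1481116), (nat_lit 1483329), (nat_lit 1525005), (nat_lit 1527622)]⟩, ⟨(nat_lit 3), false, false, false, (nat_lit 99), (nat_lit 3162), (nat_lit 3536), [(nat_lit 1114056), (nat_lit 1121835), (nat_lit 1201833), (nat_lit 1210421), (nat_lit 1286665), (nat_lit 1289472), (nat_lit 1374456), (nat_lit 1378072)]⟩, (nat_lit 3672437), (nat_lit 50964824), (nat_lit 11580641), (nat_lit 4454535), (nat_lit 3), (nat_lit 0),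 [⟨(nat_lit 0), (nat_lit 100), (nat_lit 66), (nat_lit 97), (nat_lit 432462156)⟩], [], [], [],
 ⟨⟨[(nat_lit 40), (nat_lit 80), (nat_lit 100)], [(nat_lit 0), (nat_lit 1195), (nat_lit 2166)], [((nat_lit 0), (nat_lit 0), (nat_lit 0)), ((nat_lit 1000), (nat_lit 720), (nat_lit 465)), ((nat_lit 1000), (nat_lit 662), (nat_lit 740))], ((nat_lit 66), (nat_lit 100), (nat_lit 72))⟩, (nat_lit 1056577), (nat_lit 238), (nat_lit 238), (nat_lit 0), (nat_lit 248967), [(nat_lit 1613251203), (nat_lit 3100007203), (nat_lit 3924499200)], [(nat_lit 0), (nat_lit 0), (nat_lit 0)], [(nat_lit 21345125541), (nat_lit 22546450076), (nat_lit 21782481997), (nat_lit 22562033388), (nat_lit 20345254299), (nat_lit 20978238278), (nat_lit 20845831062), (nat_lit 21430987592)], (nat_lit 1271251), (nat_lit 1271251), (nat_lit 631250), (nat_lit 1100000), (nat_lit 54688), (nat_lit 780000), [(nat_lit 490000), (nat_lit 1100000), (nat_lit 1442501)], [(nat_lit 3), (nat_lit 50), (nat_lit 289), (nat_lit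 75), (nat_lit 11)]⟩,
 ⟨⟨[(nat_lit 80), (nat_lit 120), (nat_lit 160)], [(nat_lit 0), (nat_lit 0), (nat_lit 2132)], [((nat_lit 0), (nat_lit 0), (nat_lit 0)), ((nat_lit 0), (nat_lit 0), (nat_lit 0)), ((nat_lit 858), (nat_lit 1000), (nat_lit 713))], ((nat_lit 100), (nat_lit 85), (nat_lit 73))⟩, (nat_lit 0), (nat_lit 515), (nat_lit 515), (nat_lit 0), (nat_lit 447978), [(nat_lit 2137728000), (nat_lit 3633408000), (nat_lit 5413632000)], [], [(nat_lit 18685880364), (nat_lit 19437727674), (nat_lit 18321049416), (nat_lit 18999276024), (nat_lit 16487280624), (nat_lit 17146269185), (nat_lit 16910504664), (nat_lit 16731048690)], (nat_lit 1271251), (nat_lit 1271251), (nat_lit 631250), (nat_lit 1100000), (nat_lit 0), (nat_lit 780000), [(nat_lit 1100000), (nat_lit 1785001), (nat_lit 1271251)], [(nat_lit 18), (nat_lit 59), (nat_lit 373), (nat_lit 150), (nat_lit 10)]⟩,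
 Rw.none⟩))) (.spl (nat_lit 0) (nat_lit 350) (.leaf ⟨(nat_lit 69), (nat_lit 931), (nat_lit 0), (nat_lit 0), (nat_lit 9003), (nat_lit 4710), (nat_lit 10055), (nat_lit 0), (nat_lit 0), (nat_lit 0), (nat_lit 276000), [((nat_lit 350), [((nat_lit 39), (nat_lit 5), (nat_lit 69))])], ⟨(nat_lit 6), false, false, false, (nat_lit 175), (nat_lit 3535), (nat_lit 3873), [(nat_lit 1349991), (nat_lit 1355590), (nat_lit 1393565), (nat_lit 1399483), (nat_lit 1479046), (nat_lit 1481125), (nat_lit 1522620), (nat_lit 1525018)]⟩, ⟨(nat_lit 3), false, false, false, (nat_lit 97), (nat_lit 3535), (nat_lit 3873), [(nat_lit 1106345), (nat_lit 1114069), (nat_lit 1193494), (nat_lit 1201855), (nat_lit 1283782), (nat_lit 1286665), (nat_lit 1370945), (nat_lit 1374465)]⟩, (nat_lit 3554337), (nat_lit 51843609), (nat_lit 10843210), (nat_lit 4313181), (nat_lit 3), (nat_lit 0), [⟨(nat_lit 0), (nat_lit 100), (nat_lit 72), (nat_lit 94), (nat_lit 804702368)⟩], [], [], [],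
 ⟨⟨[(nat_lit 40), (nat_lit 80), (nat_lit 120)], [(nat_lit 0), (nat_lit 795), (nat_lit 2800)], [((nat_lit 0), (nat_lit 0), (nat_lit 0)), ((nat_lit 1000), (nat_lit 814), (nat_lit 310)), ((nat_lit 1000), (nat_lit 719), (nat_lit 783))], ((nat_lit 71), (nat_lit 100), (nat_lit 71))⟩, (nat_lit 1911545), (nat_lit 268), (nat_lit 268), (nat_lit 0), (nat_lit 198437), [(nat_lit 1991372767), (nat_lit 3683465636), (nat_lit 5341197600)], [(nat_lit 0), (nat_lit 0), (nat_lit 0)], [(nat_lit 20946850595), (nat_lit 22262676633), (nat_lit 21033182910), (nat_lit 22213274790), (nat_lit 18677296908), (nat_lit 19358204608), (nat_lit 19142203538), (nat_lit 19847182914)], (nat_lit 1271251), (nat_lit 1271251), (nat_lit 490000), (nat_lit 1100000), (nat_lit 54688), (nat_lit 780000), [(nat_lit 490000), (nat_lit 1100000), (nat_lit 1785001)], [(nat_lit 4), (nat_lit 51), (nat_lit 289), (nat_lit 75), (nat_lit 9)]⟩,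
 ⟨⟨[(nat_lit 80), (nat_lit 120), (nat_lit 160)], [(nat_lit 0), (nat_lit 0), (nat_lit 2132)], [((nat_lit 0), (nat_lit 0), (nat_lit 0)), ((nat_lit 0), (nat_lit 0), (nat_lit 0)), ((nat_lit 858), (nat_lit 1000), (nat_lit 713))], ((nat_lit 100), (nat_lit 85), (nat_lit 73))⟩, (nat_lit 0), (nat_lit 379), (nat_lit 379), (nat_lit 0), (nat_lit 414508), [(nat_lit 4364528000), (nat_lit 7418208000), (nat_lit 11052832000)], [], [(nat_lit 32118984140), (nat_lit 28701474425), (nat_lit 25046396960), (nat_lit 27098399822), (nat_lit 26508743420), (nat_lit 28498049180), (nat_lit 28251841348), (nat_lit 26696807707)], (nat_lit 1271251), (nat_lit 1271251), (nat_lit 490000), (nat_lit 1100000), (nat_lit 780000), (nat_lit 1435001), [(nat_lit 1100000), (nat_lit 1785001), (nat_lit 1271251)], [(nat_lit 18), (nat_lit 59), (nat_lit 401), (nat_lit 175), (nat_lit 10)]⟩,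
 Rw.none⟩) (.trZ (nat_lit 0) (nat_lit 1) (nat_lit 3) (nat_lit 100) (nat_lit 68) (nat_lit 89) (nat_lit 100) (.leaf ⟨(nat_lit 599), (nat_lit 401), (nat_lit 0), (nat_lit 0), (nat_lit 0), (nat_lit 4143), (nat_lit 4088), (nat_lit 0), (nat_lit 0), (nat_lit 0), (nat_lit 192800), [((nat_lit 360), [((nat_lit 22), (nat_lit 0), (nat_lit 312)), ((nat_lit 22), (nat_lit 1), (nat_lit 287))])], ⟨(nat_lit 6), false, false, false, (nat_lit 183), (nat_lit 3162), (nat_lit 3536), [(nat_lit 1386958), (nat_lit 1391883), (nat_lit 1430847), (nat_lit 1436176), (nat_lit 1481116), (nat_lit 1483329), (nat_lit 1525005), (nat_lit 1527622)]⟩, ⟨(nat_lit 3), false, false, false, (nat_lit 99), (nat_lit 3162), (nat_lit 3536), [(nat_lit 1114056), (nat_lit 1121835), (nat_lit 1201833), (nat_lit 1210421), (nat_lit 1286665), (nat_lit 1289472), (nat_lit 1374456), (nat_lit 1378072)]⟩, (nat_lit 3672437), (nat_lit 50964824), (nat_lit 11580641), (nat_lit 4454535), (nat_lit 3), (nat_lit 0), [⟨(nat_lit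 0), (nat_lit 100), (nat_lit 66), (nat_lit 97), (nat_lit 310579774)⟩], [], [], [],
 ⟨⟨[(nat_lit 40), (nat_lit 80), (nat_lit 100)], [(nat_lit 0), (nat_lit 1195), (nat_lit 2166)], [((nat_lit 0), (nat_lit 0), (nat_lit 0)), ((nat_lit 1000), (nat_lit 720), (nat_lit 465)), ((nat_lit 1000), (nat_lit 662), (nat_lit 740))], ((nat_lit 66), (nat_lit 100), (nat_lit 72))⟩, (nat_lit 1094797), (nat_lit 238), (nat_lit 238), (nat_lit 0), (nat_lit 248967), [(nat_lit 1584462087), (nat_lit 2920915341), (nat_lit 3656727200)], [(nat_lit 0), (nat_lit 0), (nat_lit 0)], [(nat_lit 21148933988), (nat_lit 22332796368), (nat_lit 21290404895), (nat_lit 22381851711), (nat_lit 19982562497), (nat_lit 20607833825), (nat_lit 20500281598), (nat_lit 21078558008)], (nat_lit 1271251), (nat_lit 1271251), (nat_lit 631250), (nat_lit 1100000), (nat_lit 54688), (nat_lit 780000), [(nat_lit 490000), (nat_lit 1100000), (nat_lit 1442501)], [(nat_lit 3), (nat_lit 50), (nat_lit 289), (nat_lit 75),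 (nat_lit 11)]⟩,
 ⟨⟨[(nat_lit 80), (nat_lit 120), (nat_lit 160)], [(nat_lit 0), (nat_lit 0), (nat_lit 2132)], [((nat_lit 0), (nat_lit 0), (nat_lit 0)), ((nat_lit 0), (nat_lit 0), (nat_lit 0)), ((nat_lit 858), (nat_lit 1000), (nat_lit 713))], ((nat_lit 100), (nat_lit 85), (nat_lit 73))⟩, (nat_lit 0), (nat_lit 424), (nat_lit 424), (nat_lit 0), (nat_lit 544462), [(nat_lit 1879888000), (nat_lit 3195168000), (nat_lit 4760672000)], [], [(nat_lit 11605420444), (nat_lit 12527494226), (nat_lit 11207645342), (nat_lit 12065131863), (nat_lit 11658288189), (nat_lit 12462427123), (nat_lit 12398536504), (nat_lit 11938576702)], (nat_lit 1271251), (nat_lit 1271251), (nat_lit 631250), (nat_lit 1100000), (nat_lit 780000), (nat_lit 1435001), [(nat_lit 1100000), (nat_lit 1785001), (nat_lit 1271251)], [(nat_lit 18), (nat_lit 59), (nat_lit 401), (nat_lit 175), (nat_lit 10)]⟩,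
 Rw.none⟩)))) (.leaf ⟨(nat_lit 383), (nat_lit 611), (nat_lit 0), (nat_lit 6), (nat_lit 0), (nat_lit 4009), (nat_lit 5136), (nat_lit 92), (nat_lit 0), (nat_lit 0), (nat_lit 443000), [((nat_lit 360), [((nat_lit 22), (nat_lit 2), (nat_lit 363)), ((nat_lit 39), (nat_lit 5), (nat_lit 20))])], ⟨(nat_lit 6), false, false, false, (nat_lit 226), (nat_lit 3162), (nat_lit 3873), [(nat_lit 1478975), (nat_lit 1483267), (nat_lit 1522504), (nat_lit 1527519), (nat_lit 1608082), (nat_lit 1605237), (nat_lit 1651611), (nat_lit 1649490)]⟩, ⟨(nat_lit 3), false, false, false, (nat_lit 98), (nat_lit 3162), (nat_lit 3873), [(nat_lit 1106311), (nat_lit 1121813), (nat_lit 1193369), (nat_lit 1210318), (nat_lit 1283782), (nat_lit 1289472), (nat_lit 1370892), (nat_lit 1378028)]⟩, (nat_lit 4054915), (nat_lit 46933168), (nat_lit 15806326), (nat_lit 4260506), (nat_lit 3), (nat_lit 0), [], [], [], [],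
 ⟨⟨[(nat_lit 40), (nat_lit 80), (nat_lit 120)], [(nat_lit 0), (nat_lit 795), (nat_lit 2800)], [((nat_lit 0), (nat_lit 0), (nat_lit 0)), ((nat_lit 1000), (nat_lit 814), (nat_lit 310)), ((nat_lit 1000), (nat_lit 719), (nat_lit 783))], ((nat_lit 71), (nat_lit 100), (nat_lit 71))⟩, (nat_lit 1137673), (nat_lit 265), (nat_lit 265), (nat_lit 0), (nat_lit 251472), [(nat_lit 1760840108), (nat_lit 2621822317), (nat_lit 2926346028)], [(nat_lit 0), (nat_lit 0), (nat_lit 0)], [(nat_lit 20739784815), (nat_lit 22142798793), (nat_lit 22958364580), (nat_lit 24791954490), (nat_lit 19802830017), (nat_lit 20935081442), (nat_lit 21779340671), (nat_lit 22911592096)], (nat_lit 1271251), (nat_lit 1271251), (nat_lit 1100000), (nat_lit 1785001), (nat_lit 54688), (nat_lit 780000), [(nat_lit 490000), (nat_lit 1100000), (nat_lit 1785001)], [(nat_lit 4), (nat_lit 51), (nat_lit 317), (nat_lit 100), (nat_lit 10)]⟩,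
 ⟨⟨[(nat_lit 80), (nat_lit 120), (nat_lit 160)], [(nat_lit 0), (nat_lit 0), (nat_lit 2132)], [((nat_lit 0), (nat_lit 0), (nat_lit 0)), ((nat_lit 0), (nat_lit 0), (nat_lit 0)), ((nat_lit 858), (nat_lit 1000), (nat_lit 713))], ((nat_lit 100), (nat_lit 85), (nat_lit 73))⟩, (nat_lit 0), (nat_lit 524), (nat_lit 524), (nat_lit 0), (nat_lit 543921), [(nat_lit 2892496000), (nat_lit 4916256000), (nat_lit 7325024000)], [], [(nat_lit 25951746536), (nat_lit 25712825518), (nat_lit 25388987308), (nat_lit 26136205430), (nat_lit 21721990598), (nat_lit 22394533505), (nat_lit 25925174092), (nat_lit 22571041119)], (nat_lit 1271251), (nat_lit 1271251), (nat_lit 1100000), (nat_lit 1785001), (nat_lit 0), (nat_lit 1412501), [(nat_lit 1100000), (nat_lit 1785001), (nat_lit 1271251)], [(nat_lit 18), (nat_lit 59), (nat_lit 428), (nat_lit 200), (nat_lit 11)]⟩,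
 ⟨⟨[(nat_lit 140), (nat_lit 180), (nat_lit 200)], [(nat_lit 0), (nat_lit 0), (nat_lit 2835)], [((nat_lit 0), (nat_lit 0), (nat_lit 0)), ((nat_lit 0), (nat_lit 0), (nat_lit 0)), ((nat_lit 363), (nat_lit 1000), (nat_lit 798))], ((nat_lit 0), (nat_lit 0), (nat_lit 0))⟩, (nat_lit 1651), (nat_lit 300), (nat_lit 1317), (nat_lit 468600), (nat_lit 1602470), [(nat_lit 59052000), (nat_lit 84348000), (nat_lit 98400000)], [], [(nat_lit 631785482), (nat_lit 529984167), (nat_lit 458407308), (nat_lit 401917370), (nat_lit 391772302), (nat_lit 368169022), (nat_lit 320965132), (nat_lit 377899694)], (nat_lit 780000), (nat_lit 1435001), (nat_lit 54688), (nat_lit 780000), (nat_lit 0), (nat_lit 1412501), [(nat_lit 1977501), (nat_lit 1271251), (nat_lit 1271251)], [(nat_lit 32), (nat_lit 67), (nat_lit 395), (nat_lit 150), (nat_lit 9)]⟩⟩))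
noncomputable def c8_9 : Tr Lf :=
 (.spl (nat_lit 3) (nat_lit 160) (.spl (nat_lit 2) (nat_lit 160) (.trX (nat_lit 5) (nat_lit 1) (nat_lit 2) (nat_lit 100) (nat_lit 40) (nat_lit 100) (nat_lit 390) (.spl (nat_lit 1) (nat_lit 260) (.leaf ⟨(nat_lit 897), (nat_lit 59), (nat_lit 0), (nat_lit 44), (nat_lit 4505), (nat_lit 3233), (nat_lit 991), (nat_lit 547), (nat_lit 0), (nat_lit 0), (nat_lit 761400), [((nat_lit 360), [((nat_lit 39), (nat_lit 2), (nat_lit 339)), ((nat_lit 22), (nat_lit 2), (nat_lit 558))])], ⟨(nat_lit 6), false, false, false, (nat_lit 172), (nat_lit 3162), (nat_lit 3873), [(nat_lit 1349867), (nat_lit 1361295), (nat_lit 1371632), (nat_lit 1383421), (nat_lit 1478975), (nat_lit 1483267), (nat_lit 1500739), (nat_lit 1505392)]⟩, ⟨(nat_lit 3), false, false, false, (nat_lit 89), (nat_lit 3162), (nat_lit 3873), [(nat_lit 1106311), (nat_lit 1121813), (nat_lit 1149840), (nat_lit 1166065), (nat_lit 1283782), (nat_lit 1289472), (nat_lit 1327361), (nat_lit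 1333774)]⟩, (nat_lit 3403610), (nat_lit 52675061), (nat_lit 10515322), (nat_lit 3809617), (nat_lit 5), (nat_lit 0), [⟨(nat_lit 0), (nat_lit 100), (nat_lit 68), (nat_lit 92), (nat_lit 146330739)⟩], [⟨(nat_lit 0), (nat_lit 100), (nat_lit 69), (nat_lit 54), (nat_lit 101213433)⟩], [], [],
 ⟨⟨[(nat_lit 40), (nat_lit 80), (nat_lit 120)], [(nat_lit 0), (nat_lit 795), (nat_lit 2800)], [((nat_lit 0), (nat_lit 0), (nat_lit 0)), ((nat_lit 1000), (nat_lit 814), (nat_lit 310)), ((nat_lit 1000), (nat_lit 719), (nat_lit 783))], ((nat_lit 71), (nat_lit 100), (nat_lit 71))⟩, (nat_lit 0), (nat_lit 272), (nat_lit 272), (nat_lit 0), (nat_lit 190704), [(nat_lit 1378198001), (nat_lit 779284401), (nat_lit 0)], [(nat_lit 0), (nat_lit 0), (nat_lit 1411136800)], [(nat_lit 18617814557), (nat_lit 20290919266), (nat_lit 19474148720), (nat_lit 20819633176), (nat_lit 18307306039), (nat_lit 19645379890), (nat_lit 19473127228), (nat_lit 20682294412)], (nat_lit 1271251), (nat_lit 1271251),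 (nat_lit 490000), (nat_lit 1100000), (nat_lit 54688), (nat_lit 780000), [(nat_lit 490000), (nat_lit 1100000), (nat_lit 1785001)], [(nat_lit 4), (nat_lit 51), (nat_lit 289), (nat_lit 75), (nat_lit 9)]⟩,
 ⟨⟨[(nat_lit 80), (nat_lit 120), (nat_lit 160)], [(nat_lit 0), (nat_lit 0), (nat_lit 2132)], [((nat_lit 0), (nat_lit 0), (nat_lit 0)), ((nat_lit 0), (nat_lit 0), (nat_lit 0)), ((nat_lit 858), (nat_lit 1000), (nat_lit 713))], ((nat_lit 100), (nat_lit 85), (nat_lit 73))⟩, (nat_lit 331355), (nat_lit 384), (nat_lit 384), (nat_lit 0), (nat_lit 465793), [(nat_lit 482864000), (nat_lit 820704000), (nat_lit 1222816000)], [], [(nat_lit 2419948464), (nat_lit 2523750372), (nat_lit 2443984226), (nat_lit 2376725480), (nat_lit 3411653349), (nat_lit 3485317150), (nat_lit 3156671644), (nat_lit 3214067777)], (nat_lit 1271251), (nat_lit 1271251), (nat_lit 490000), (nat_lit 1100000), (nat_lit 1271251), (nat_lit 1271251), [(nat_lit 1100000), (nat_lit 1785001), (nat_lit 1271251)],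 [(nat_lit 18), (nat_lit 59), (nat_lit 456), (nat_lit 225), (nat_lit 11)]⟩,
 ⟨⟨[(nat_lit 140), (nat_lit 180), (nat_lit 200)], [(nat_lit 0), (nat_lit 0), (nat_lit 2835)], [((nat_lit 0), (nat_lit 0), (nat_lit 0)), ((nat_lit 0), (nat_lit 0), (nat_lit 0)), ((nat_lit 363), (nat_lit 1000), (nat_lit 798))], ((nat_lit 0), (nat_lit 0), (nat_lit 0))⟩, (nat_lit 12106), (nat_lit 300), (nat_lit 1014), (nat_lit 3436400), (nat_lit 1194691), [(nat_lit 433048000), (nat_lit 618552000), (nat_lit 721600000)], [], [(nat_lit 3038155410), (nat_lit 2944814702), (nat_lit 2655759664), (nat_lit 2566281252), (nat_lit 2976493142), (nat_lit 2879891179), (nat_lit 2559451524), (nat_lit 2465640639)], (nat_lit 780000), (nat_lit 1100000), (nat_lit 54688), (nat_lit 780000), (nat_lit 1271251), (nat_lit 1271251), [(nat_lit 1977501), (nat_lit 1271251), (nat_lit 1271251)], [(nat_lit 32), (nat_lit 67), (nat_lit 401), (nat_lit 175), (nat_lit 9)]⟩⟩) (.trZ (nat_lit 0) (nat_lit 1) (nat_lit 3)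 (nat_lit 100) (nat_lit 75) (nat_lit 92) (nat_lit 100) (.trX (nat_lit 5) (nat_lit 1) (nat_lit 2) (nat_lit 97) (nat_lit 49) (nat_lit 100) (nat_lit 380) (.spl (nat_lit 0) (nat_lit 350) (.leaf ⟨(nat_lit 746), (nat_lit 201), (nat_lit 0), (nat_lit 53), (nat_lit 5318), (nat_lit 3481), (nat_lit 2092), (nat_lit 666), (nat_lit 0), (nat_lit 0), (nat_lit 812000), [((nat_lit 350), [((nat_lit 22), (nat_lit 2), (nat_lit 724)), ((nat_lit 39), (nat_lit 5), (nat_lit 22))])], ⟨(nat_lit 6), false, false, false, (nat_lit 186), (nat_lit 3535), (nat_lit 3873), [(nat_lit 1404042), (nat_lit 1408921), (nat_lit 1425829), (nat_lit 1430867), (nat_lit 1500833), (nat_lit 1503072), (nat_lit 1522620), (nat_lit 1525018)]⟩, ⟨(nat_lit 3), false, false, false, (nat_lit 88), (nat_lit 3535), (nat_lit 3873), [(nat_lit 1106345), (nat_lit 1114069), (nat_lit 1149920), (nat_lit 1157962), (nat_lit 1283782), (nat_lit 1286665), (nat_lit 1327369), (nat_lit 1330570)]⟩, (nat_lit 3550418), (nat_lit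 51380065), (nat_lit 11893325), (nat_lit 3726610), (nat_lit 5), (nat_lit 0), [⟨(nat_lit 0), (nat_lit 100), (nat_lit 74), (nat_lit 98), (nat_lit 257341785)⟩], [⟨(nat_lit 0), (nat_lit 100), (nat_lit 72), (nat_lit 51), (nat_lit 97536865)⟩], [⟨(nat_lit 1), (nat_lit 64), (nat_lit 98), (nat_lit 100), (nat_lit 57671765)⟩], [],
 ⟨⟨[(nat_lit 40), (nat_lit 80), (nat_lit 120)], [(nat_lit 0), (nat_lit 795), (nat_lit 2800)], [((nat_lit 0), (nat_lit 0), (nat_lit 0)), ((nat_lit 1000), (nat_lit 814), (nat_lit 310)), ((nat_lit 1000), (nat_lit 719), (nat_lit 783))], ((nat_lit 71), (nat_lit 100), (nat_lit 71))⟩, (nat_lit 5678), (nat_lit 262), (nat_lit 262), (nat_lit 0), (nat_lit 198494), [(nat_lit 1531180395), (nat_lit 912698008), (nat_lit 0)], [(nat_lit 0), (nat_lit 0), (nat_lit 1377000402)], [(nat_lit 18794694547), (nat_lit 19863005194), (nat_lit 19388416605), (nat_lit 20212909532), (nat_lit 18266293500), (nat_lit 18919148746), (nat_lit 19012947202), (nat_lit 19617261884)],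 (nat_lit 1271251), (nat_lit 1271251), (nat_lit 631250), (nat_lit 1100000), (nat_lit 54688), (nat_lit 780000), [(nat_lit 490000), (nat_lit 1100000), (nat_lit 1785001)], [(nat_lit 4), (nat_lit 51), (nat_lit 289), (nat_lit 75), (nat_lit 9)]⟩,
 ⟨⟨[(nat_lit 80), (nat_lit 120), (nat_lit 160)], [(nat_lit 0), (nat_lit 528), (nat_lit 2577)], [((nat_lit 0), (nat_lit 0), (nat_lit 0)), ((nat_lit 1000), (nat_lit 959), (nat_lit 206)), ((nat_lit 929), (nat_lit 1000), (nat_lit 742))], ((nat_lit 100), (nat_lit 92), (nat_lit 75))⟩, (nat_lit 849913), (nat_lit 346), (nat_lit 346), (nat_lit 0), (nat_lit 393534), [(nat_lit 1190752000), (nat_lit 2023872000), (nat_lit 3015488000)], [], [(nat_lit 5806122227), (nat_lit 6036640052), (nat_lit 5615265339), (nat_lit 5823648143), (nat_lit 7759528338), (nat_lit 7937286514), (nat_lit 7437114042), (nat_lit 7588568492)], (nat_lit 1271251), (nat_lit 1271251), (nat_lit 631250), (nat_lit 1100000), (nat_lit 1271251), (nat_lit 1271251),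 [(nat_lit 1100000), (nat_lit 1785001), (nat_lit 1271251)], [(nat_lit 18), (nat_lit 59), (nat_lit 456), (nat_lit 225), (nat_lit 11)]⟩,
 ⟨⟨[(nat_lit 140), (nat_lit 180), (nat_lit 200)], [(nat_lit 0), (nat_lit 0), (nat_lit 2835)], [((nat_lit 0), (nat_lit 0), (nat_lit 0)), ((nat_lit 0), (nat_lit 0), (nat_lit 0)), ((nat_lit 363), (nat_lit 1000), (nat_lit 798))], ((nat_lit 0), (nat_lit 0), (nat_lit 0))⟩, (nat_lit 14582), (nat_lit 300), (nat_lit 1024), (nat_lit 4139301), (nat_lit 1218867), [(nat_lit 521626000), (nat_lit 745074000), (nat_lit 869200000)], [], [(nat_lit 3639264783), (nat_lit 3525323661), (nat_lit 3173001987), (nat_lit 3063770133), (nat_lit 3568997780), (nat_lit 3449152966), (nat_lit 3061625401), (nat_lit 2947910616)], (nat_lit 780000), (nat_lit 1100000), (nat_lit 54688), (nat_lit 780000), (nat_lit 1271251), (nat_lit 1271251), [(nat_lit 1977501), (nat_lit 1271251), (nat_lit 1271251)], [(nat_lit 32), (nat_lit 67), (nat_lit 401), (nat_lit 175),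 (nat_lit 9)]⟩⟩) (.trZ (nat_lit 0) (nat_lit 1) (nat_lit 3) (nat_lit 100) (nat_lit 69) (nat_lit 96) (nat_lit 110) (.leaf ⟨(nat_lit 567), (nat_lit 335), (nat_lit 0), (nat_lit 98), (nat_lit 21), (nat_lit 3636), (nat_lit 3607), (nat_lit 1234), (nat_lit 0), (nat_lit 0), (nat_lit 179400), [((nat_lit 360), [((nat_lit 22), (nat_lit 0), (nat_lit 316)), ((nat_lit 22), (nat_lit 1), (nat_lit 251))])], ⟨(nat_lit 6), false, false, false, (nat_lit 191), (nat_lit 3162), (nat_lit 3536), [(nat_lit 1424596), (nat_lit 1429271), (nat_lit 1446540), (nat_lit 1451418), (nat_lit 1503061), (nat_lit 1505476), (nat_lit 1525005), (nat_lit 1527622)]⟩, ⟨(nat_lit 3), false, false, false, (nat_lit 90), (nat_lit 3162), (nat_lit 3536), [(nat_lit 1114056), (nat_lit 1121835), (nat_lit 1157945), (nat_lit 1166129), (nat_lit 1286665), (nat_lit 1289472), (nat_lit 1330567), (nat_lit 1333779)]⟩, (nat_lit 3629892), (nat_lit 50806241), (nat_lit 12333520), (nat_lit 3860239), (nat_lit 5), (nat_lit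 0), [⟨(nat_lit 0), (nat_lit 99), (nat_lit 67), (nat_lit 100), (nat_lit 434828485)⟩], [⟨(nat_lit 0), (nat_lit 100), (nat_lit 66), (nat_lit 58), (nat_lit 149736944)⟩], [⟨(nat_lit 1), (nat_lit 64), (nat_lit 98), (nat_lit 100), (nat_lit 92134455)⟩], [],
 ⟨⟨[(nat_lit 40), (nat_lit 80), (nat_lit 100)], [(nat_lit 0), (nat_lit 1195), (nat_lit 2166)], [((nat_lit 0), (nat_lit 0), (nat_lit 0)), ((nat_lit 1000), (nat_lit 720), (nat_lit 465)), ((nat_lit 1000), (nat_lit 662), (nat_lit 740))], ((nat_lit 66), (nat_lit 100), (nat_lit 72))⟩, (nat_lit 1537472), (nat_lit 235), (nat_lit 235), (nat_lit 0), (nat_lit 248918), [(nat_lit 1601326035), (nat_lit 3025361661), (nat_lit 3812957600)], [(nat_lit 0), (nat_lit 0), (nat_lit 0)], [(nat_lit 20214274899), (nat_lit 21296476779), (nat_lit 20724454110), (nat_lit 21477375372), (nat_lit 19600785778), (nat_lit 20219182297), (nat_lit 20099065453), (nat_lit 20738539662)], (nat_lit 1271251), (nat_lit 1271251), (nat_lit 704688), (nat_lit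 1100000), (nat_lit 54688), (nat_lit 780000), [(nat_lit 490000), (nat_lit 1100000), (nat_lit 1442501)], [(nat_lit 3), (nat_lit 50), (nat_lit 289), (nat_lit 75), (nat_lit 11)]⟩,
 ⟨⟨[(nat_lit 80), (nat_lit 120), (nat_lit 160)], [(nat_lit 0), (nat_lit 528), (nat_lit 2577)], [((nat_lit 0), (nat_lit 0), (nat_lit 0)), ((nat_lit 1000), (nat_lit 959), (nat_lit 206)), ((nat_lit 929), (nat_lit 1000), (nat_lit 742))], ((nat_lit 100), (nat_lit 92), (nat_lit 75))⟩, (nat_lit 1426772), (nat_lit 388), (nat_lit 388), (nat_lit 0), (nat_lit 522372), [(nat_lit 2029904000), (nat_lit 3450144000), (nat_lit 5140576000)], [], [(nat_lit 9844687672), (nat_lit 10233288217), (nat_lit 9565737402), (nat_lit 9922605611), (nat_lit 13177708579), (nat_lit 13481384925), (nat_lit 12635073314), (nat_lit 12975209216)], (nat_lit 1271251), (nat_lit 1271251), (nat_lit 704688), (nat_lit 1100000), (nat_lit 1271251), (nat_lit 1271251), [(nat_lit 1100000), (nat_lit 1785001), (nat_lit 1271251)],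 [(nat_lit 18), (nat_lit 59), (nat_lit 456), (nat_lit 225), (nat_lit 11)]⟩,
 ⟨⟨[(nat_lit 140), (nat_lit 180), (nat_lit 200)], [(nat_lit 0), (nat_lit 0), (nat_lit 2835)], [((nat_lit 0), (nat_lit 0), (nat_lit 0)), ((nat_lit 0), (nat_lit 0), (nat_lit 0)), ((nat_lit 363), (nat_lit 1000), (nat_lit 798))], ((nat_lit 0), (nat_lit 0), (nat_lit 0))⟩, (nat_lit 26963), (nat_lit 300), (nat_lit 1189), (nat_lit 7653800), (nat_lit 1602470), [(nat_lit 964516000), (nat_lit 1377684000), (nat_lit 1607200000)], [], [(nat_lit 6721978669), (nat_lit 6510759118), (nat_lit 5857824358), (nat_lit 5655332754), (nat_lit 6595485163), (nat_lit 6377090910), (nat_lit 5655150620), (nat_lit 5444346455)], (nat_lit 780000), (nat_lit 1100000), (nat_lit 54688), (nat_lit 780000), (nat_lit 1271251), (nat_lit 1271251), [(nat_lit 1977501), (nat_lit 1271251), (nat_lit 1271251)], [(nat_lit 32), (nat_lit 67), (nat_lit 401), (nat_lit 175), (nat_lit 9)]⟩⟩))))))) (.trZ (nat_lit 0) (nat_lit 2) (nat_lit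 4) (nat_lit 100) (nat_lit 73) (nat_lit 55) (nat_lit 30) (.leaf ⟨(nat_lit 0), (nat_lit 406), (nat_lit 0), (nat_lit 594), (nat_lit 5958), (nat_lit 4575), (nat_lit 12042), (nat_lit 7301), (nat_lit 0), (nat_lit 0), (nat_lit 0), [], Pd.none, Pd.none, (nat_lit 0), (nat_lit 1), (nat_lit 0), (nat_lit 0), (nat_lit 5), (nat_lit 0), [⟨(nat_lit 0), (nat_lit 100), (nat_lit 69), (nat_lit 96), (nat_lit 1115295391)⟩], [⟨(nat_lit 0), (nat_lit 100), (nat_lit 66), (nat_lit 68), (nat_lit 853084456)⟩], [], [],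
 ⟨⟨[(nat_lit 40), (nat_lit 80), (nat_lit 120)], [(nat_lit 0), (nat_lit 795), (nat_lit 2800)], [((nat_lit 0), (nat_lit 0), (nat_lit 0)), ((nat_lit 1000), (nat_lit 814), (nat_lit 310)), ((nat_lit 1000), (nat_lit 719), (nat_lit 783))], ((nat_lit 71), (nat_lit 100), (nat_lit 71))⟩, (nat_lit 2958093), (nat_lit 251), (nat_lit 251), (nat_lit 0), (nat_lit 169706), [(nat_lit 2032000411), (nat_lit 4688000140), (nat_lit 7968000000)], [], [(nat_lit 19740307256), (nat_lit 22268494050), (nat_lit 20540273431), (nat_lit 22248826225), (nat_lit 19074687109), (nat_lit 20620323146), (nat_lit 19840081146), (nat_lit 21227932871)], (nat_lit 1271251), (nat_lit 1271251), (nat_lit 490000), (nat_lit 1100000), (nat_lit 169688), (nat_lit 780000), [(nat_lit 490000), (nat_lit 1100000), (nat_lit 1785001)], [(nat_lit 4), (nat_lit 51), (nat_lit 289), (nat_lit 75), (nat_lit 9)]⟩,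
 ⟨⟨[(nat_lit 80), (nat_lit 120), (nat_lit 160)], [(nat_lit 0), (nat_lit 0), (nat_lit 2132)], [((nat_lit 0), (nat_lit 0), (nat_lit 0)), ((nat_lit 0), (nat_lit 0), (nat_lit 0)), ((nat_lit 858), (nat_lit 1000), (nat_lit 713))], ((nat_lit 100), (nat_lit 85), (nat_lit 73))⟩, (nat_lit 1199694), (nat_lit 357), (nat_lit 357), (nat_lit 0), (nat_lit 383033), [(nat_lit 4688000000), (nat_lit 7968000000), (nat_lit 11872000000)], [], [(nat_lit 23935341480), (nat_lit 26348645990), (nat_lit 21923380000), (nat_lit 24252458688), (nat_lit 38871487800), (nat_lit 40308956364), (nat_lit 35206487944), (nat_lit 36431837904)], (nat_lit 1271251), (nat_lit 1271251), (nat_lit 490000), (nat_lit 1100000), (nat_lit 1271251), (nat_lit 1271251), [(nat_lit 1100000), (nat_lit 1785001), (nat_lit 1271251)], [(nat_lit 18), (nat_lit 59), (nat_lit 456), (nat_lit 225), (nat_lit 11)]⟩,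
 ⟨⟨[(nat_lit 120), (nat_lit 160), (nat_lit 200)], [(nat_lit 0), (nat_lit 0), (nat_lit 3198)], [((nat_lit 0), (nat_lit 0), (nat_lit 0)), ((nat_lit 0), (nat_lit 0), (nat_lit 0)), ((nat_lit 572), (nat_lit 1000), (nat_lit 714))], ((nat_lit 0), (nat_lit 0), (nat_lit 0))⟩, (nat_lit 289756), (nat_lit 300), (nat_lit 707), (nat_lit 44074802), (nat_lit 652829), [(nat_lit 4732992000), (nat_lit 7051968000), (nat_lit 9741600000)], [], [(nat_lit 37116304640), (nat_lit 36404116847), (nat_lit 32892769876), (nat_lit 32195674226), (nat_lit 36853408197), (nat_lit 36128638889), (nat_lit 32155221464), (nat_lit 31457507179)], (nat_lit 1100000), (nat_lit 1442501), (nat_lit 169688), (nat_lit 780000), (nat_lit 1271251), (nat_lit 1271251), [(nat_lit 1695001), (nat_lit 1271251), (nat_lit 1271251)], [(nat_lit 29), (nat_lit 66), (nat_lit 428), (nat_lit 200), (nat_lit 9)]⟩⟩))) (.spl (nat_lit 0) (nat_lit 350) (.leaf ⟨(nat_lit 130), (nat_lit 678), (nat_lit 0), (nat_lit 192), (nat_lit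 0), (nat_lit 4346), (nat_lit 7523), (nat_lit 2391), (nat_lit 0), (nat_lit 0), (nat_lit 520000), [((nat_lit 350), [((nat_lit 39), (nat_lit 5), (nat_lit 130))])], ⟨(nat_lit 6), false, false, false, (nat_lit 226), (nat_lit 3535), (nat_lit 3873), [(nat_lit 1479046), (nat_lit 1481125), (nat_lit 1522620), (nat_lit 1525018), (nat_lit 1608101), (nat_lit 1606659), (nat_lit 1651675), (nat_lit 1650552)]⟩, ⟨(nat_lit 3), false, false, false, (nat_lit 97), (nat_lit 3535), (nat_lit 3873), [(nat_lit 1106345), (nat_lit 1114069), (nat_lit 1193494), (nat_lit 1201855), (nat_lit 1283782), (nat_lit 1286665), (nat_lit 1370945), (nat_lit 1374465)]⟩, (nat_lit 4039817), (nat_lit 47004606), (nat_lit 15806382), (nat_lit 4189012), (nat_lit 5), (nat_lit 0), [], [], [], [⟨(nat_lit 1), (nat_lit 68), (nat_lit 100), (nat_lit 74), (nat_lit 222255762)⟩, ⟨(nat_lit 1), (nat_lit 87), (nat_lit 100), (nat_lit 50), (nat_lit 18780454)⟩],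
 ⟨⟨[(nat_lit 40), (nat_lit 80), (nat_lit 120)], [(nat_lit 0), (nat_lit 795), (nat_lit 2800)], [((nat_lit 0), (nat_lit 0), (nat_lit 0)), ((nat_lit 1000), (nat_lit 814), (nat_lit 310)), ((nat_lit 1000), (nat_lit 719), (nat_lit 783))], ((nat_lit 71), (nat_lit 100), (nat_lit 71))⟩, (nat_lit 1103719), (nat_lit 244), (nat_lit 244), (nat_lit 0), (nat_lit 198437), [(nat_lit 1984131884), (nat_lit 2904636710), (nat_lit 3047629097)], [(nat_lit 0), (nat_lit 0), (nat_lit 0)], [(nat_lit 20965093105), (nat_lit 21620815104), (nat_lit 23499659751), (nat_lit 24459418183), (nat_lit 19790027292), (nat_lit 20378702517), (nat_lit 21859991500), (nat_lit 22448666725)], (nat_lit 1271251), (nat_lit 1271251), (nat_lit 1100000), (nat_lit 1785001), (nat_lit 54688), (nat_lit 780000), [(nat_lit 490000), (nat_lit 1100000), (nat_lit 1785001)], [(nat_lit 4), (nat_lit 51), (nat_lit 317), (nat_lit 100), (nat_lit 10)]⟩,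
 ⟨⟨[(nat_lit 80), (nat_lit 120), (nat_lit 160)], [(nat_lit 0), (nat_lit 0), (nat_lit 2132)], [((nat_lit 0), (nat_lit 0), (nat_lit 0)), ((nat_lit 0), (nat_lit 0), (nat_lit 0)), ((nat_lit 858), (nat_lit 1000), (nat_lit 713))], ((nat_lit 100), (nat_lit 85), (nat_lit 73))⟩, (nat_lit 2306629), (nat_lit 330), (nat_lit 330), (nat_lit 0), (nat_lit 414508), [(nat_lit 4078560000), (nat_lit 6932160000), (nat_lit 10328640000)], [], [(nat_lit 21965035184), (nat_lit 23421213917), (nat_lit 30516022380), (nat_lit 24169496092), (nat_lit 28857111988), (nat_lit 29496934948), (nat_lit 28738339244), (nat_lit 29443822136)], (nat_lit 1271251), (nat_lit 1271251), (nat_lit 1100000), (nat_lit 1785001), (nat_lit 1271251), (nat_lit 1271251), [(nat_lit 1100000), (nat_lit 1785001), (nat_lit 1271251)], [(nat_lit 18), (nat_lit 59), (nat_lit 483), (nat_lit 250), (nat_lit 12)]⟩,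
 ⟨⟨[(nat_lit 140), (nat_lit 180), (nat_lit 200)], [(nat_lit 0), (nat_lit 0), (nat_lit 2835)], [((nat_lit 0), (nat_lit 0), (nat_lit 0)), ((nat_lit 0), (nat_lit 0), (nat_lit 0)), ((nat_lit 363), (nat_lit 1000), (nat_lit 798))], ((nat_lit 0), (nat_lit 0), (nat_lit 0))⟩, (nat_lit 52825), (nat_lit 300), (nat_lit 1024), (nat_lit 14995206), (nat_lit 1218867), [(nat_lit 1889664000), (nat_lit 2699136000), (nat_lit 3148800000)], [], [(nat_lit 13245717524), (nat_lit 12545690528), (nat_lit 11573832492), (nat_lit 10898834075), (nat_lit 13065950738), (nat_lit 12397534925), (nat_lit 11175329646), (nat_lit 10472570073)], (nat_lit 780000), (nat_lit 1435001), (nat_lit 54688), (nat_lit 780000), (nat_lit 1271251), (nat_lit 1271251), [(nat_lit 1977501), (nat_lit 1271251), (nat_lit 1271251)], [(nat_lit 32), (nat_lit 67), (nat_lit 428), (nat_lit 200), (nat_lit 9)]⟩⟩) (.leaf ⟨(nat_lit 652), (nat_lit 267), (nat_lit 0), (nat_lit 81), (nat_lit 0), (nat_lit 3612), (nat_lit 3009),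 (nat_lit 989), (nat_lit 0), (nat_lit 0), (nat_lit 214900), [((nat_lit 360), [((nat_lit 22), (nat_lit 0), (nat_lit 306)), ((nat_lit 22), (nat_lit 1), (nat_lit 346))])], ⟨(nat_lit 6), false, false, false, (nat_lit 226), (nat_lit 3162), (nat_lit 3536), [(nat_lit 1481116), (nat_lit 1483329), (nat_lit 1525005), (nat_lit 1527622), (nat_lit 1606660), (nat_lit 1605256), (nat_lit 1650549), (nat_lit 1649550)]⟩, ⟨(nat_lit 3), false, false, false, (nat_lit 99), (nat_lit 3162), (nat_lit 3536), [(nat_lit 1114056), (nat_lit 1121835), (nat_lit 1201833), (nat_lit 1210421), (nat_lit 1286665), (nat_lit 1289472), (nat_lit 1374456), (nat_lit 1378072)]⟩, (nat_lit 4070440), (nat_lit 46857785), (nat_lit 15808478), (nat_lit 4333737), (nat_lit 5), (nat_lit 0), [], [⟨(nat_lit 0), (nat_lit 100), (nat_lit 64), (nat_lit 65), (nat_lit 90625657)⟩], [], [⟨(nat_lit 1), (nat_lit 68), (nat_lit 100), (nat_lit 74), (nat_lit 78426142)⟩],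
 ⟨⟨[(nat_lit 40), (nat_lit 80), (nat_lit 100)], [(nat_lit 0), (nat_lit 1195), (nat_lit 2166)], [((nat_lit 0), (nat_lit 0), (nat_lit 0)), ((nat_lit 1000), (nat_lit 720), (nat_lit 465)), ((nat_lit 1000), (nat_lit 662), (nat_lit 740))], ((nat_lit 66), (nat_lit 100), (nat_lit 72))⟩, (nat_lit 1308643), (nat_lit 220), (nat_lit 220), (nat_lit 0), (nat_lit 248967), [(nat_lit 1556696162), (nat_lit 2748229775), (nat_lit 3398505600)], [(nat_lit 0), (nat_lit 0), (nat_lit 0)], [(nat_lit 20794244808), (nat_lit 21435886440), (nat_lit 23186878575), (nat_lit 24053060769), (nat_lit 20185704697), (nat_lit 20763795154), (nat_lit 22189544736), (nat_lit 22748386652)], (nat_lit 1271251), (nat_lit 1271251), (nat_lit 1100000), (nat_lit 1785001), (nat_lit 54688), (nat_lit 780000), [(nat_lit 490000), (nat_lit 1100000), (nat_lit 1442501)], [(nat_lit 3), (nat_lit 50), (nat_lit 317), (nat_lit 100), (nat_lit 12)]⟩,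
 ⟨⟨[(nat_lit 80), (nat_lit 120), (nat_lit 160)], [(nat_lit 0), (nat_lit 0), (nat_lit 2132)], [((nat_lit 0), (nat_lit 0), (nat_lit 0)), ((nat_lit 0), (nat_lit 0), (nat_lit 0)), ((nat_lit 858), (nat_lit 1000), (nat_lit 713))], ((nat_lit 100), (nat_lit 85), (nat_lit 73))⟩, (nat_lit 925597), (nat_lit 377), (nat_lit 377), (nat_lit 0), (nat_lit 544462), [(nat_lit 1631424000), (nat_lit 2772864000), (nat_lit 4131456000)], [], [(nat_lit 8780112616), (nat_lit 9362568067), (nat_lit 12206513268), (nat_lit 9661899952), (nat_lit 11536870756), (nat_lit 11793009900), (nat_lit 11495680332), (nat_lit 11777874204)], (nat_lit 1271251), (nat_lit 1271251), (nat_lit 1100000), (nat_lit 1785001), (nat_lit 1271251), (nat_lit 1271251), [(nat_lit 1100000), (nat_lit 1785001), (nat_lit 1271251)], [(nat_lit 18), (nat_lit 59), (nat_lit 483), (nat_lit 250), (nat_lit 12)]⟩,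
 ⟨⟨[(nat_lit 140), (nat_lit 180), (nat_lit 200)], [(nat_lit 0), (nat_lit 0), (nat_lit 2835)], [((nat_lit 0), (nat_lit 0), (nat_lit 0)), ((nat_lit 0), (nat_lit 0), (nat_lit 0)), ((nat_lit 363), (nat_lit 1000), (nat_lit 798))], ((nat_lit 0), (nat_lit 0), (nat_lit 0))⟩, (nat_lit 22286), (nat_lit 300), (nat_lit 1189), (nat_lit 6326100), (nat_lit 1602470), [(nat_lit 797202000), (nat_lit 1138698000), (nat_lit 1328400000)], [], [(nat_lit 5644350833), (nat_lit 5356458265), (nat_lit 4954672803), (nat_lit 4677110254), (nat_lit 5515295134), (nat_lit 5232323899), (nat_lit 4761392336), (nat_lit 4472435989)], (nat_lit 780000), (nat_lit 1435001), (nat_lit 54688), (nat_lit 780000), (nat_lit 1271251), (nat_lit 1271251), [(nat_lit 1977501), (nat_lit 1271251), (nat_lit 1271251)], [(nat_lit 32), (nat_lit 67), (nat_lit 428), (nat_lit 200), (nat_lit 9)]⟩⟩)))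
noncomputable def c8_10 : Tr Lf :=
 (.trZ (nat_lit 0) (nat_lit 2) (nat_lit 4) (nat_lit 100) (nat_lit 71) (nat_lit 70) (nat_lit 50) (.spl (nat_lit 5) (nat_lit 120) (.spl (nat_lit 3) (nat_lit 120) (.spl (nat_lit 2) (nat_lit 240) (.leaf ⟨(nat_lit 759), (nat_lit 193), (nat_lit 0), (nat_lit 48), (nat_lit 10975), (nat_lit 3645), (nat_lit 2729), (nat_lit 1203), (nat_lit 0), (nat_lit 0), (nat_lit 419700), [((nat_lit 360), [((nat_lit 22), (nat_lit 0), (nat_lit 102)), ((nat_lit 39), (nat_lit 2), (nat_lit 657))])], ⟨(nat_lit 6), false, false, false, (nat_lit 164), (nat_lit 3162), (nat_lit 3873), [(nat_lit 1349867), (nat_lit 1361295), (nat_lit 1393396), (nat_lit 1405548), (nat_lit 1414421), (nat_lit 1422280), (nat_lit 1457950), (nat_lit 1466533)]⟩, ⟨(nat_lit 5), false, false, false, (nat_lit 137), (nat_lit 3162), (nat_lit 3873), [(nat_lit 1257923), (nat_lit 1271304), (nat_lit 1301452), (nat_lit 1315556), (nat_lit 1370892), (nat_lit 1378028), (nat_lit 1414421),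 (nat_lit 1422280)]⟩, (nat_lit 3949163), (nat_lit 50059454), (nat_lit 9650020), (nat_lit 7290526), (nat_lit 5), (nat_lit 0), [⟨(nat_lit 0), (nat_lit 100), (nat_lit 69), (nat_lit 96), (nat_lit 300781322)⟩], [⟨(nat_lit 0), (nat_lit 100), (nat_lit 66), (nat_lit 82), (nat_lit 243720351)⟩], [⟨(nat_lit 0), (nat_lit 100), (nat_lit 96), (nat_lit 40), (nat_lit 159400)⟩], [],
 ⟨⟨[(nat_lit 40), (nat_lit 80), (nat_lit 120)], [(nat_lit 0), (nat_lit 795), (nat_lit 2800)], [((nat_lit 0), (nat_lit 0), (nat_lit 0)), ((nat_lit 1000), (nat_lit 814), (nat_lit 310)), ((nat_lit 1000), (nat_lit 719), (nat_lit 783))], ((nat_lit 71), (nat_lit 100), (nat_lit 71))⟩, (nat_lit 1129729), (nat_lit 171), (nat_lit 171), (nat_lit 0), (nat_lit 79726), [(nat_lit 1456592811), (nat_lit 1954765447), (nat_lit 1975772985)], [(nat_lit 0), (nat_lit 0), (nat_lit 0)], [(nat_lit 17766824943), (nat_lit 19721540370), (nat_lit 18110187172), (nat_lit 19949259438), (nat_lit 17400117328), (nat_lit 18898178470),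 (nat_lit 17755064496), (nat_lit 19202499908)], (nat_lit 1271251), (nat_lit 1271251), (nat_lit 490000), (nat_lit 780000), (nat_lit 292188), (nat_lit 780000), [(nat_lit 490000), (nat_lit 1100000), (nat_lit 1785001)], [(nat_lit 4), (nat_lit 51), (nat_lit 272), (nat_lit 60), (nat_lit 9)]⟩,
 ⟨⟨[(nat_lit 80), (nat_lit 120), (nat_lit 160)], [(nat_lit 0), (nat_lit 0), (nat_lit 2132)], [((nat_lit 0), (nat_lit 0), (nat_lit 0)), ((nat_lit 0), (nat_lit 0), (nat_lit 0)), ((nat_lit 858), (nat_lit 1000), (nat_lit 713))], ((nat_lit 100), (nat_lit 85), (nat_lit 73))⟩, (nat_lit 0), (nat_lit 350), (nat_lit 350), (nat_lit 0), (nat_lit 114440), [(nat_lit 1129808000), (nat_lit 1920288000), (nat_lit 2861152000)], [], [(nat_lit 8561359596), (nat_lit 9249410828), (nat_lit 9381136062), (nat_lit 8997801965), (nat_lit 10022273796), (nat_lit 7501103520), (nat_lit 10946303520), (nat_lit 8457718869)], (nat_lit 1271251), (nat_lit 1271251), (nat_lit 490000), (nat_lit 780000), (nat_lit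 0), (nat_lit 780000), [(nat_lit 1100000), (nat_lit 1785001), (nat_lit 1271251)], [(nat_lit 18), (nat_lit 59), (nat_lit 373), (nat_lit 150), (nat_lit 10)]⟩,
 ⟨⟨[(nat_lit 100), (nat_lit 140), (nat_lit 180)], [(nat_lit 0), (nat_lit 0), (nat_lit 2434)], [((nat_lit 0), (nat_lit 0), (nat_lit 0)), ((nat_lit 0), (nat_lit 0), (nat_lit 0)), ((nat_lit 726), (nat_lit 1000), (nat_lit 688))], ((nat_lit 100), (nat_lit 70), (nat_lit 71))⟩, (nat_lit 27688), (nat_lit 300), (nat_lit 482), (nat_lit 3374400), (nat_lit 159145), [(nat_lit 300000000), (nat_lit 472416000), (nat_lit 674784000)], [], [(nat_lit 3097099486), (nat_lit 3062473589), (nat_lit 2507555838), (nat_lit 2471366190), (nat_lit 1950945028), (nat_lit 1917514482), (nat_lit 1995403448), (nat_lit 1386799803)], (nat_lit 1271251), (nat_lit 1271251), (nat_lit 292188), (nat_lit 780000), (nat_lit 0), (nat_lit 780000), [(nat_lit 1412501), (nat_lit 1271251), (nat_lit 1271251)], [(nat_lit 24), (nat_lit 63), (nat_lit 345),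 (nat_lit 125), (nat_lit 8)]⟩⟩) (.trZ (nat_lit 0) (nat_lit 2) (nat_lit 4) (nat_lit 100) (nat_lit 73) (nat_lit 85) (nat_lit 80) (.trZ (nat_lit 1) (nat_lit 2) (nat_lit 5) (nat_lit 100) (nat_lit 100) (nat_lit 40) (nat_lit 10) (.leaf ⟨(nat_lit 0), (nat_lit 191), (nat_lit 0), (nat_lit 809), (nat_lit 22312), (nat_lit 4652), (nat_lit 19289), (nat_lit 19680), (nat_lit 0), (nat_lit 369480), (nat_lit 0), [], Pd.none, Pd.none, (nat_lit 0), (nat_lit 1), (nat_lit 0), (nat_lit 0), (nat_lit 6), (nat_lit 0), [⟨(nat_lit 0), (nat_lit 100), (nat_lit 73), (nat_lit 85), (nat_lit 1196062922)⟩], [⟨(nat_lit 0), (nat_lit 100), (nat_lit 73), (nat_lit 85), (nat_lit 1498685938)⟩], [⟨(nat_lit 0), (nat_lit 100), (nat_lit 100), (nat_lit 40), (nat_lit 20546325)⟩], [],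
 ⟨⟨[(nat_lit 40), (nat_lit 80), (nat_lit 120)], [(nat_lit 0), (nat_lit 795), (nat_lit 2800)], [((nat_lit 0), (nat_lit 0), (nat_lit 0)), ((nat_lit 1000), (nat_lit 814), (nat_lit 310)), ((nat_lit 1000), (nat_lit 719), (nat_lit 783))], ((nat_lit 71), (nat_lit 100), (nat_lit 71))⟩, (nat_lit 3097164), (nat_lit 156), (nat_lit 156), (nat_lit 0), (nat_lit 104954), [(nat_lit 2070298575), (nat_lit 4688000013), (nat_lit 7968000000)], [], [(nat_lit 17343943860), (nat_lit 19838917368), (nat_lit 17583893953), (nat_lit 19947357672), (nat_lit 17583893953), (nat_lit 19947357672), (nat_lit 17935928544), (nat_lit 20075340822)], (nat_lit 1271251), (nat_lit 1271251), (nat_lit 490000), (nat_lit 780000), (nat_lit 490000), (nat_lit 780000), [(nat_lit 490000), (nat_lit 1100000), (nat_lit 1785001)], [(nat_lit 4), (nat_lit 51), (nat_lit 272), (nat_lit 60), (nat_lit 8)]⟩,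
 ⟨⟨[(nat_lit 80), (nat_lit 120), (nat_lit 160)], [(nat_lit 0), (nat_lit 0), (nat_lit 2132)], [((nat_lit 0), (nat_lit 0), (nat_lit 0)), ((nat_lit 0), (nat_lit 0), (nat_lit 0)), ((nat_lit 858), (nat_lit 1000), (nat_lit 713))], ((nat_lit 100), (nat_lit 85), (nat_lit 73))⟩, (nat_lit 1242887), (nat_lit 355), (nat_lit 355), (nat_lit 0), (nat_lit 149530), [(nat_lit 4688000000), (nat_lit 7968000000), (nat_lit 11872000000)], [], [(nat_lit 33231182178), (nat_lit 39631402802), (nat_lit 34100398495), (nat_lit 37288327410), (nat_lit 37391773224), (nat_lit 23826889815), (nat_lit 43106986308), (nat_lit 25517279697)], (nat_lit 1271251), (nat_lit 1271251), (nat_lit 490000), (nat_lit 780000), (nat_lit 54688), (nat_lit 780000), [(nat_lit 1100000), (nat_lit 1785001), (nat_lit 1271251)], [(nat_lit 18), (nat_lit 59), (nat_lit 373), (nat_lit 150), (nat_lit 10)]⟩,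
 ⟨⟨[(nat_lit 80), (nat_lit 120), (nat_lit 160)], [(nat_lit 0), (nat_lit 0), (nat_lit 2132)], [((nat_lit 0), (nat_lit 0), (nat_lit 0)), ((nat_lit 0), (nat_lit 0), (nat_lit 0)), ((nat_lit 858), (nat_lit 1000), (nat_lit 713))], ((nat_lit 100), (nat_lit 85), (nat_lit 73))⟩, (nat_lit 473561), (nat_lit 300), (nat_lit 355), (nat_lit 53717600), (nat_lit 149530), [(nat_lit 3792592000), (nat_lit 6446112000), (nat_lit 9604448000)], [], [(nat_lit 30182670935), (nat_lit 35756610986), (nat_lit 27341440618), (nat_lit 33177139666), (nat_lit 28104009948), (nat_lit 19213930808), (nat_lit 33690000028), (nat_lit 16990801662)], (nat_lit 1271251), (nat_lit 1271251), (nat_lit 490000), (nat_lit 780000), (nat_lit 54688), (nat_lit 780000), [(nat_lit 1100000), (nat_lit 1785001), (nat_lit 1271251)], [(nat_lit 18), (nat_lit 59), (nat_lit 373), (nat_lit 150), (nat_lit 10)]⟩⟩)))) (.spl (nat_lit 1) (nat_lit 260) (.ord (.leaf ⟨(nat_lit 82), (nat_lit 829), (nat_lit 0), (nat_lit 89),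 (nat_lit 0), (nat_lit 4512), (nat_lit 6698), (nat_lit 2015), (nat_lit 0), (nat_lit 3827491731984), (nat_lit 208000), [((nat_lit 360), [((nat_lit 22), (nat_lit 2), (nat_lit 40)), ((nat_lit 39), (nat_lit 5), (nat_lit 42))])], ⟨(nat_lit 6), false, false, false, (nat_lit 209), (nat_lit 3162), (nat_lit 3873), [(nat_lit 1414421), (nat_lit 1422280), (nat_lit 1436185), (nat_lit 1444407), (nat_lit 1608082), (nat_lit 1605237), (nat_lit 1629847), (nat_lit 1627364)]⟩, ⟨(nat_lit 5), false, false, false, (nat_lit 141), (nat_lit 3162), (nat_lit 3873), [(nat_lit 1257923), (nat_lit 1271304), (nat_lit 1323216), (nat_lit 1337682), (nat_lit 1370892), (nat_lit 1378028), (nat_lit 1436185), (nat_lit 1444407)]⟩, (nat_lit 4438599), (nat_lit 45814653), (nat_lit 13783151), (nat_lit 7402196), (nat_lit 5), (nat_lit 0), [], [⟨(nat_lit 0), (nat_lit 100), (nat_lit 63), (nat_lit 99), (nat_lit 220417382)⟩], [⟨(nat_lit 0), (nat_lit 100), (nat_lit 98), (nat_lit 40), (nat_lit 27360062)⟩],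 [],
 ⟨⟨[(nat_lit 40), (nat_lit 80), (nat_lit 120)], [(nat_lit 0), (nat_lit 795), (nat_lit 2800)], [((nat_lit 0), (nat_lit 0), (nat_lit 0)), ((nat_lit 1000), (nat_lit 814), (nat_lit 310)), ((nat_lit 1000), (nat_lit 719), (nat_lit 783))], ((nat_lit 71), (nat_lit 100), (nat_lit 71))⟩, (nat_lit 2172243), (nat_lit 175), (nat_lit 175), (nat_lit 0), (nat_lit 133236), [(nat_lit 1940715461), (nat_lit 3870820825), (nat_lit 5895540800)], [(nat_lit 0), (nat_lit 0), (nat_lit 0)], [(nat_lit 19119955454), (nat_lit 21210408475), (nat_lit 22073105141), (nat_lit 23985403902), (nat_lit 18358608416), (nat_lit 19953992532), (nat_lit 20957876664), (nat_lit 22738057696)], (nat_lit 1271251), (nat_lit 1271251), (nat_lit 780000), (nat_lit 1762501), (nat_lit 292188), (nat_lit 780000), [(nat_lit 490000), (nat_lit 1100000), (nat_lit 1785001)], [(nat_lit 4), (nat_lit 51), (nat_lit 317), (nat_lit 100), (nat_lit 10)]⟩,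
 ⟨⟨[(nat_lit 80), (nat_lit 120), (nat_lit 160)], [(nat_lit 0), (nat_lit 0), (nat_lit 2132)], [((nat_lit 0), (nat_lit 0), (nat_lit 0)), ((nat_lit 0), (nat_lit 0), (nat_lit 0)), ((nat_lit 858), (nat_lit 1000), (nat_lit 713))], ((nat_lit 100), (nat_lit 85), (nat_lit 73))⟩, (nat_lit 658208), (nat_lit 390), (nat_lit 390), (nat_lit 0), (nat_lit 270725), [(nat_lit 4303584000), (nat_lit 7314624000), (nat_lit 10898496000)], [], [(nat_lit 33155641960), (nat_lit 33992340891), (nat_lit 37517661488), (nat_lit 35199294804), (nat_lit 31435537386), (nat_lit 30434594653), (nat_lit 42633715880), (nat_lit 39619739793)], (nat_lit 1271251), (nat_lit 1271251), (nat_lit 780000), (nat_lit 1762501), (nat_lit 0), (nat_lit 780000), [(nat_lit 1100000), (nat_lit 1785001), (nat_lit 1271251)], [(nat_lit 18), (nat_lit 59), (nat_lit 401), (nat_lit 175), (nat_lit 10)]⟩,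
 ⟨⟨[(nat_lit 100), (nat_lit 140), (nat_lit 180)], [(nat_lit 0), (nat_lit 0), (nat_lit 2434)], [((nat_lit 0), (nat_lit 0), (nat_lit 0)), ((nat_lit 0), (nat_lit 0), (nat_lit 0)), ((nat_lit 726), (nat_lit 1000), (nat_lit 688))], ((nat_lit 100), (nat_lit 70), (nat_lit 71))⟩, (nat_lit 51338), (nat_lit 300), (nat_lit 465), (nat_lit 6256700), (nat_lit 117956), [(nat_lit 556250000), (nat_lit 875938000), (nat_lit 1251162000)], [], [(nat_lit 5623492246), (nat_lit 5660693314), (nat_lit 4645868375), (nat_lit 4670841370), (nat_lit 3719411781), (nat_lit 3746196250), (nat_lit 3730207782), (nat_lit 2857137655)], (nat_lit 1271251), (nat_lit 1271251), (nat_lit 292188), (nat_lit 780000), (nat_lit 0), (nat_lit 780000), [(nat_lit 1412501), (nat_lit 1271251), (nat_lit 1271251)], [(nat_lit 24), (nat_lit 63), (nat_lit 345), (nat_lit 125), (nat_lit 8)]⟩⟩)) (.leaf ⟨(nat_lit 0), (nat_lit 867), (nat_lit 0), (nat_lit 133), (nat_lit 0), (nat_lit 5568), (nat_lit 6424), (nat_lit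 2708), (nat_lit 0), (nat_lit 114968), (nat_lit 0), [], Pd.none, Pd.none, (nat_lit 0), (nat_lit 1), (nat_lit 0), (nat_lit 0), (nat_lit 5), (nat_lit 0), [], [⟨(nat_lit 0), (nat_lit 100), (nat_lit 68), (nat_lit 89), (nat_lit 342661105)⟩], [⟨(nat_lit 0), (nat_lit 100), (nat_lit 96), (nat_lit 54), (nat_lit 41008073)⟩], [],
 ⟨⟨[(nat_lit 40), (nat_lit 80), (nat_lit 120)], [(nat_lit 0), (nat_lit 795), (nat_lit 2800)], [((nat_lit 0), (nat_lit 0), (nat_lit 0)), ((nat_lit 1000), (nat_lit 814), (nat_lit 310)), ((nat_lit 1000), (nat_lit 719), (nat_lit 783))], ((nat_lit 71), (nat_lit 100), (nat_lit 71))⟩, (nat_lit 2487023), (nat_lit 194), (nat_lit 194), (nat_lit 0), (nat_lit 198109), [(nat_lit 2258612959), (nat_lit 4688000022), (nat_lit 7968000000)], [], [(nat_lit 20322040906), (nat_lit 22746479275), (nat_lit 23232523049), (nat_lit 25406254278), (nat_lit 19090715731), (nat_lit 20869305348), (nat_lit 21538581096), (nat_lit 23557706944)], (nat_lit 1271251), (nat_lit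 1271251), (nat_lit 780000), (nat_lit 1762501), (nat_lit 292188), (nat_lit 780000), [(nat_lit 490000), (nat_lit 1100000), (nat_lit 1785001)], [(nat_lit 4), (nat_lit 51), (nat_lit 317), (nat_lit 100), (nat_lit 10)]⟩,
 ⟨⟨[(nat_lit 80), (nat_lit 120), (nat_lit 160)], [(nat_lit 0), (nat_lit 528), (nat_lit 2577)], [((nat_lit 0), (nat_lit 0), (nat_lit 0)), ((nat_lit 1000), (nat_lit 959), (nat_lit 206)), ((nat_lit 929), (nat_lit 1000), (nat_lit 742))], ((nat_lit 100), (nat_lit 92), (nat_lit 75))⟩, (nat_lit 2962755), (nat_lit 421), (nat_lit 421), (nat_lit 0), (nat_lit 343258), [(nat_lit 4688000000), (nat_lit 7968000000), (nat_lit 11872000000)], [], [(nat_lit 30817692852), (nat_lit 31682049053), (nat_lit 36612240640), (nat_lit 33605461744), (nat_lit 30680951570), (nat_lit 28403250177), (nat_lit 42008112876), (nat_lit 39117431720)], (nat_lit 1271251), (nat_lit 1271251), (nat_lit 780000), (nat_lit 1762501), (nat_lit 0), (nat_lit 780000), [(nat_lit 1100000), (nat_lit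 1785001), (nat_lit 1271251)], [(nat_lit 18), (nat_lit 59), (nat_lit 401), (nat_lit 175), (nat_lit 10)]⟩,
 ⟨⟨[(nat_lit 100), (nat_lit 140), (nat_lit 180)], [(nat_lit 0), (nat_lit 0), (nat_lit 2434)], [((nat_lit 0), (nat_lit 0), (nat_lit 0)), ((nat_lit 0), (nat_lit 0), (nat_lit 0)), ((nat_lit 726), (nat_lit 1000), (nat_lit 688))], ((nat_lit 100), (nat_lit 70), (nat_lit 71))⟩, (nat_lit 76718), (nat_lit 300), (nat_lit 485), (nat_lit 9349903), (nat_lit 168396), [(nat_lit 831250000), (nat_lit 1308986000), (nat_lit 1869714000)], [], [(nat_lit 8236212960), (nat_lit 8429066701), (nat_lit 6937698973), (nat_lit 7100746417), (nat_lit 5701730560), (nat_lit 5863186604), (nat_lit 5617107890), (nat_lit 4669843933)], (nat_lit 1271251), (nat_lit 1271251), (nat_lit 292188), (nat_lit 780000), (nat_lit 0), (nat_lit 780000), [(nat_lit 1412501), (nat_lit 1271251), (nat_lit 1271251)], [(nat_lit 24), (nat_lit 63), (nat_lit 373), (nat_lit 150), (nat_lit 9)]⟩⟩))) (.leaf ⟨(nat_lit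 0), (nat_lit 0), (nat_lit 0), (nat_lit 1000), (nat_lit 16725), (nat_lit 4677), (nat_lit 7740), (nat_lit 9091), (nat_lit 0), (nat_lit 608324), (nat_lit 0), [], Pd.none, Pd.none, (nat_lit 0), (nat_lit 1), (nat_lit 0), (nat_lit 0), (nat_lit 0), (nat_lit 0), [⟨(nat_lit 0), (nat_lit 100), (nat_lit 69), (nat_lit 96), (nat_lit 923499036)⟩], [⟨(nat_lit 0), (nat_lit 100), (nat_lit 71), (nat_lit 70), (nat_lit 1157375662)⟩], [], [],
 ⟨⟨[(nat_lit 40), (nat_lit 80), (nat_lit 120)], [(nat_lit 0), (nat_lit 795), (nat_lit 2800)], [((nat_lit 0), (nat_lit 0), (nat_lit 0)), ((nat_lit 1000), (nat_lit 814), (nat_lit 310)), ((nat_lit 1000), (nat_lit 719), (nat_lit 783))], ((nat_lit 71), (nat_lit 100), (nat_lit 71))⟩, (nat_lit 2745503), (nat_lit 245), (nat_lit 245), (nat_lit 0), (nat_lit 198109), [(nat_lit 2032000795), (nat_lit 4688000438), (nat_lit 7968000000)], [], [(nat_lit 19867731965), (nat_lit 21428563759), (nat_lit 22599648940), (nat_lit 24207411774), (nat_lit 19417615164),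 (nat_lit 20774302694), (nat_lit 22115466048), (nat_lit 23337112573)], (nat_lit 1271251), (nat_lit 1271251), (nat_lit 490000), (nat_lit 1740001), (nat_lit 292188), (nat_lit 780000), [(nat_lit 490000), (nat_lit 1100000), (nat_lit 1785001)], [(nat_lit 4), (nat_lit 51), (nat_lit 317), (nat_lit 100), (nat_lit 10)]⟩,
 ⟨⟨[(nat_lit 80), (nat_lit 120), (nat_lit 160)], [(nat_lit 0), (nat_lit 0), (nat_lit 2132)], [((nat_lit 0), (nat_lit 0), (nat_lit 0)), ((nat_lit 0), (nat_lit 0), (nat_lit 0)), ((nat_lit 858), (nat_lit 1000), (nat_lit 713))], ((nat_lit 100), (nat_lit 85), (nat_lit 73))⟩, (nat_lit 0), (nat_lit 418), (nat_lit 418), (nat_lit 0), (nat_lit 508742), [(nat_lit 4688000000), (nat_lit 7968000000), (nat_lit 11872000000)], [], [(nat_lit 33048323600), (nat_lit 34851958640), (nat_lit 33778197160), (nat_lit 35329325120), (nat_lit 46002015920), (nat_lit 42837746080), (nat_lit 61839196400), (nat_lit 55133895080)], (nat_lit 1271251), (nat_lit 1271251), (nat_lit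 490000), (nat_lit 1740001), (nat_lit 780000), (nat_lit 3072501), [(nat_lit 1100000), (nat_lit 1785001), (nat_lit 1271251)], [(nat_lit 18), (nat_lit 59), (nat_lit 483), (nat_lit 250), (nat_lit 12)]⟩,
 ⟨⟨[(nat_lit 100), (nat_lit 140), (nat_lit 180)], [(nat_lit 0), (nat_lit 0), (nat_lit 2434)], [((nat_lit 0), (nat_lit 0), (nat_lit 0)), ((nat_lit 0), (nat_lit 0), (nat_lit 0)), ((nat_lit 726), (nat_lit 1000), (nat_lit 688))], ((nat_lit 100), (nat_lit 70), (nat_lit 71))⟩, (nat_lit 576828), (nat_lit 300), (nat_lit 481), (nat_lit 70300004), (nat_lit 392388), [(nat_lit 6250000000), (nat_lit 9842000000), (nat_lit 14058000000)], [], [(nat_lit 51026944453), (nat_lit 51749293175), (nat_lit 47928703940), (nat_lit 48538556676), (nat_lit 53115787392), (nat_lit 52734212282), (nat_lit 56007701416), (nat_lit 49061620734)], (nat_lit 1271251), (nat_lit 1271251), (nat_lit 292188), (nat_lit 780000), (nat_lit 780000), (nat_lit 3072501), [(nat_lit 1412501), (nat_lit 1271251),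 (nat_lit 1271251)], [(nat_lit 24), (nat_lit 63), (nat_lit 428), (nat_lit 200), (nat_lit 10)]⟩⟩)))
noncomputable def c8_11 : Tr Lf :=
 (.spl (nat_lit 2) (nat_lit 220) (.spl (nat_lit 5) (nat_lit 200) (.spl (nat_lit 1) (nat_lit 300) (.leaf ⟨(nat_lit 51), (nat_lit 918), (nat_lit 0), (nat_lit 31), (nat_lit 0), (nat_lit 4959), (nat_lit 6330), (nat_lit 489), (nat_lit 0), (nat_lit 0), (nat_lit 204000), [((nat_lit 360), [((nat_lit 39), (nat_lit 5), (nat_lit 51))])], ⟨(nat_lit 7), false, false, false, (nat_lit 227), (nat_lit 3162), (nat_lit 3873), [(nat_lit 1457950), (nat_lit 1466533), (nat_lit 1479715), (nat_lit 1488659), (nat_lit 1651611), (nat_lit 1649490), (nat_lit 1673376), (nat_lit 1671616)]⟩, ⟨(nat_lit 3), false, false, false, (nat_lit 102), (nat_lit 3162), (nat_lit 3873), [(nat_lit 1106311), (nat_lit 1121813), (nat_lit 1215133), (nat_lit 1232444), (nat_lit 1283782), (nat_lit 1289472), (nat_lit 1392656), (nat_lit 1400154)]⟩, (nat_lit 4115400), (nat_lit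 46627840), (nat_lit 15828732), (nat_lit 4543428), (nat_lit 3), (nat_lit 0), [], [⟨(nat_lit 0), (nat_lit 100), (nat_lit 67), (nat_lit 65), (nat_lit 60387240)⟩], [], [],
 ⟨⟨[(nat_lit 40), (nat_lit 80), (nat_lit 100)], [(nat_lit 0), (nat_lit 795), (nat_lit 1829)], [((nat_lit 0), (nat_lit 0), (nat_lit 0)), ((nat_lit 1000), (nat_lit 814), (nat_lit 310)), ((nat_lit 1000), (nat_lit 714), (nat_lit 692))], ((nat_lit 72), (nat_lit 100), (nat_lit 65))⟩, (nat_lit 1823552), (nat_lit 255), (nat_lit 255), (nat_lit 0), (nat_lit 323570), [(nat_lit 1965251201), (nat_lit 3943930402), (nat_lit 4965636400)], [(nat_lit 0), (nat_lit 0), (nat_lit 0)], [(nat_lit 21405887589), (nat_lit 23985158381), (nat_lit 24484270848), (nat_lit 26560088077), (nat_lit 19244344101), (nat_lit 20583696900), (nat_lit 21578047386), (nat_lit 23085011497)], (nat_lit 1271251), (nat_lit 1271251), (nat_lit 780000), (nat_lit 1762501), (nat_lit 54688), (nat_lit 780000), [(nat_lit 490000), (nat_lit 1100000),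 (nat_lit 1442501)], [(nat_lit 3), (nat_lit 50), (nat_lit 317), (nat_lit 100), (nat_lit 12)]⟩,
 ⟨⟨[(nat_lit 60), (nat_lit 100), (nat_lit 140)], [(nat_lit 0), (nat_lit 0), (nat_lit 2047)], [((nat_lit 0), (nat_lit 0), (nat_lit 0)), ((nat_lit 0), (nat_lit 0), (nat_lit 0)), ((nat_lit 1000), (nat_lit 993), (nat_lit 781))], ((nat_lit 96), (nat_lit 100), (nat_lit 68))⟩, (nat_lit 535390), (nat_lit 481), (nat_lit 481), (nat_lit 0), (nat_lit 584301), [(nat_lit 3114618000), (nat_lit 5931250000), (nat_lit 9340058000)], [], [(nat_lit 32722856348), (nat_lit 33680503697), (nat_lit 34118725680), (nat_lit 34873144949), (nat_lit 30348979713), (nat_lit 30990872430), (nat_lit 39909839720), (nat_lit 37097743550)], (nat_lit 1271251), (nat_lit 1271251), (nat_lit 780000), (nat_lit 1762501), (nat_lit 0), (nat_lit 1412501), [(nat_lit 780000), (nat_lit 1435001), (nat_lit 1271251)], [(nat_lit 11), (nat_lit 55), (nat_lit 345), (nat_lit 125), (nat_lit 10)]⟩,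
 ⟨⟨[(nat_lit 140), (nat_lit 180), (nat_lit 200)], [(nat_lit 0), (nat_lit 0), (nat_lit 2835)], [((nat_lit 0), (nat_lit 0), (nat_lit 0)), ((nat_lit 0), (nat_lit 0), (nat_lit 0)), ((nat_lit 363), (nat_lit 1000), (nat_lit 798))], ((nat_lit 0), (nat_lit 0), (nat_lit 0))⟩, (nat_lit 8529), (nat_lit 300), (nat_lit 1532), (nat_lit 2421102), (nat_lit 2091999), [(nat_lit 305102000), (nat_lit 435798000), (nat_lit 508400000)], [], [(nat_lit 3317185690), (nat_lit 2648970607), (nat_lit 2394819898), (nat_lit 2058448062), (nat_lit 2008407736), (nat_lit 1886132705), (nat_lit 1630855135), (nat_lit 2077387993)], (nat_lit 780000), (nat_lit 1598751), (nat_lit 54688), (nat_lit 780000), (nat_lit 0), (nat_lit 1412501), [(nat_lit 1977501), (nat_lit 1271251), (nat_lit 1271251)], [(nat_lit 32), (nat_lit 67), (nat_lit 451), (nat_lit 150), (nat_lit 10)]⟩⟩) (.trZ (nat_lit 0) (nat_lit 1) (nat_lit 3) (nat_lit 90) (nat_lit 74) (nat_lit 100) (nat_lit 140) (.leaf ⟨(nat_lit 0), (nat_lit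 1000), (nat_lit 0), (nat_lit 0), (nat_lit 0), (nat_lit 5298), (nat_lit 6379), (nat_lit 0), (nat_lit 0), (nat_lit 0), (nat_lit 0), [], Pd.none, Pd.none, (nat_lit 0), (nat_lit 1), (nat_lit 0), (nat_lit 0), (nat_lit 3), (nat_lit 0), [⟨(nat_lit 0), (nat_lit 80), (nat_lit 60), (nat_lit 100), (nat_lit 441323152)⟩], [⟨(nat_lit 0), (nat_lit 100), (nat_lit 60), (nat_lit 86), (nat_lit 59163742)⟩], [], [],
 ⟨⟨[(nat_lit 40), (nat_lit 80), (nat_lit 100)], [(nat_lit 0), (nat_lit 795), (nat_lit 1829)], [((nat_lit 0), (nat_lit 0), (nat_lit 0)), ((nat_lit 1000), (nat_lit 814), (nat_lit 310)), ((nat_lit 1000), (nat_lit 714), (nat_lit 692))], ((nat_lit 72), (nat_lit 100), (nat_lit 65))⟩, (nat_lit 2377026), (nat_lit 277), (nat_lit 277), (nat_lit 0), (nat_lit 409716), [(nat_lit 2059856979), (nat_lit 4688000031), (nat_lit 6250000000)], [], [(nat_lit 21935189072), (nat_lit 24553584771), (nat_lit 25028778454), (nat_lit 27191032589), (nat_lit 19184670650), (nat_lit 20711089482),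 (nat_lit 21500375666), (nat_lit 23348137534)], (nat_lit 1271251), (nat_lit 1271251), (nat_lit 936250), (nat_lit 1773751), (nat_lit 54688), (nat_lit 780000), [(nat_lit 490000), (nat_lit 1100000), (nat_lit 1442501)], [(nat_lit 3), (nat_lit 50), (nat_lit 317), (nat_lit 100), (nat_lit 12)]⟩,
 ⟨⟨[(nat_lit 60), (nat_lit 100), (nat_lit 120)], [(nat_lit 0), (nat_lit 609), (nat_lit 1609)], [((nat_lit 0), (nat_lit 0), (nat_lit 0)), ((nat_lit 1000), (nat_lit 905), (nat_lit 238)), ((nat_lit 1000), (nat_lit 882), (nat_lit 668))], ((nat_lit 88), (nat_lit 100), (nat_lit 66))⟩, (nat_lit 2915197), (nat_lit 431), (nat_lit 431), (nat_lit 0), (nat_lit 639555), [(nat_lit 3282000000), (nat_lit 6250000000), (nat_lit 7968000000)], [], [(nat_lit 30808920111), (nat_lit 27435323765), (nat_lit 27712844715), (nat_lit 28457339605), (nat_lit 24557479584), (nat_lit 25245739017), (nat_lit 27106755436), (nat_lit 26091883595)], (nat_lit 1271251), (nat_lit 1271251), (nat_lit 936250),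 (nat_lit 1773751), (nat_lit 0), (nat_lit 1412501), [(nat_lit 780000), (nat_lit 1435001), (nat_lit 1271251)], [(nat_lit 10), (nat_lit 54), (nat_lit 345), (nat_lit 125), (nat_lit 11)]⟩,
 Rw.none⟩))) (.spl (nat_lit 2) (nat_lit 180) (.trX (nat_lit 5) (nat_lit 1) (nat_lit 2) (nat_lit 92) (nat_lit 49) (nat_lit 100) (nat_lit 380) (.leaf ⟨(nat_lit 539), (nat_lit 395), (nat_lit 0), (nat_lit 66), (nat_lit 0), (nat_lit 3831), (nat_lit 3570), (nat_lit 833), (nat_lit 0), (nat_lit 0), (nat_lit 539000), [((nat_lit 360), [((nat_lit 22), (nat_lit 2), (nat_lit 539))])], ⟨(nat_lit 7), false, false, false, (nat_lit 231), (nat_lit 3162), (nat_lit 3873), [(nat_lit 1457950), (nat_lit 1466533), (nat_lit 1501479), (nat_lit 1510785), (nat_lit 1651611), (nat_lit 1649490), (nat_lit 1695141), (nat_lit 1693742)]⟩, ⟨(nat_lit 3), false, false, false, (nat_lit 93), (nat_lit 3162), (nat_lit 3873), [(nat_lit 1106311), (nat_lit 1121813), (nat_lit 1171604), (nat_lit 1188192), (nat_lit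 1283782), (nat_lit 1289472), (nat_lit 1349127), (nat_lit 1355902)]⟩, (nat_lit 4036006), (nat_lit 46695274), (nat_lit 16341238), (nat_lit 3963488), (nat_lit 5), (nat_lit 0), [⟨(nat_lit 0), (nat_lit 88), (nat_lit 67), (nat_lit 100), (nat_lit 275851942)⟩], [⟨(nat_lit 0), (nat_lit 100), (nat_lit 68), (nat_lit 58), (nat_lit 102491811)⟩], [⟨(nat_lit 1), (nat_lit 72), (nat_lit 89), (nat_lit 100), (nat_lit 134409426)⟩], [],
 ⟨⟨[(nat_lit 40), (nat_lit 80), (nat_lit 100)], [(nat_lit 0), (nat_lit 795), (nat_lit 1829)], [((nat_lit 0), (nat_lit 0), (nat_lit 0)), ((nat_lit 1000), (nat_lit 814), (nat_lit 310)), ((nat_lit 1000), (nat_lit 714), (nat_lit 692))], ((nat_lit 72), (nat_lit 100), (nat_lit 65))⟩, (nat_lit 605970), (nat_lit 294), (nat_lit 294), (nat_lit 0), (nat_lit 409943), [(nat_lit 1611699306), (nat_lit 2096032229), (nat_lit 1836668000)], [(nat_lit 0), (nat_lit 0), (nat_lit 0)], [(nat_lit 20417431615), (nat_lit 21723643797), (nat_lit 22984583150), (nat_lit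 24460662091), (nat_lit 19919929262), (nat_lit 21102710071), (nat_lit 22346161510), (nat_lit 23393204522)], (nat_lit 1271251), (nat_lit 1271251), (nat_lit 780000), (nat_lit 1762501), (nat_lit 54688), (nat_lit 780000), [(nat_lit 490000), (nat_lit 1100000), (nat_lit 1442501)], [(nat_lit 3), (nat_lit 50), (nat_lit 317), (nat_lit 100), (nat_lit 12)]⟩,
 ⟨⟨[(nat_lit 60), (nat_lit 100), (nat_lit 140)], [(nat_lit 0), (nat_lit 0), (nat_lit 2047)], [((nat_lit 0), (nat_lit 0), (nat_lit 0)), ((nat_lit 0), (nat_lit 0), (nat_lit 0)), ((nat_lit 1000), (nat_lit 993), (nat_lit 781))], ((nat_lit 96), (nat_lit 100), (nat_lit 68))⟩, (nat_lit 1072866), (nat_lit 378), (nat_lit 378), (nat_lit 0), (nat_lit 649643), [(nat_lit 1513002000), (nat_lit 2881250000), (nat_lit 4537162000)], [], [(nat_lit 11663772697), (nat_lit 12414437610), (nat_lit 11959126802), (nat_lit 12537698572), (nat_lit 14417091504), (nat_lit 15064744975), (nat_lit 14259316969), (nat_lit 15066625426)], (nat_lit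 1271251), (nat_lit 1271251), (nat_lit 780000), (nat_lit 1762501), (nat_lit 1271251), (nat_lit 1271251), [(nat_lit 780000), (nat_lit 1435001), (nat_lit 1271251)], [(nat_lit 11), (nat_lit 55), (nat_lit 401), (nat_lit 175), (nat_lit 11)]⟩,
 ⟨⟨[(nat_lit 140), (nat_lit 180), (nat_lit 200)], [(nat_lit 0), (nat_lit 0), (nat_lit 2835)], [((nat_lit 0), (nat_lit 0), (nat_lit 0)), ((nat_lit 0), (nat_lit 0), (nat_lit 0)), ((nat_lit 363), (nat_lit 1000), (nat_lit 798))], ((nat_lit 0), (nat_lit 0), (nat_lit 0))⟩, (nat_lit 18159), (nat_lit 300), (nat_lit 1687), (nat_lit 5154600), (nat_lit 2686679), [(nat_lit 649572000), (nat_lit 927828000), (nat_lit 1082400000)], [], [(nat_lit 4521505421), (nat_lit 4337450279), (nat_lit 3937984146), (nat_lit 3751557469), (nat_lit 4439512668), (nat_lit 4254657131), (nat_lit 3803995205), (nat_lit 3612173496)], (nat_lit 780000), (nat_lit 1271251), (nat_lit 54688), (nat_lit 780000), (nat_lit 1271251), (nat_lit 1271251), [(nat_lit 1977501),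 (nat_lit 1271251), (nat_lit 1271251)], [(nat_lit 32), (nat_lit 67), (nat_lit 507), (nat_lit 175), (nat_lit 11)]⟩⟩)) (.trZ (nat_lit 0) (nat_lit 2) (nat_lit 4) (nat_lit 100) (nat_lit 72) (nat_lit 63) (nat_lit 40) (.leaf ⟨(nat_lit 0), (nat_lit 518), (nat_lit 0), (nat_lit 482), (nat_lit 0), (nat_lit 4860), (nat_lit 7198), (nat_lit 4921), (nat_lit 0), (nat_lit 0), (nat_lit 0), [], Pd.none, Pd.none, (nat_lit 0), (nat_lit 1), (nat_lit 0), (nat_lit 0), (nat_lit 5), (nat_lit 0), [⟨(nat_lit 0), (nat_lit 80), (nat_lit 60), (nat_lit 100), (nat_lit 769609671)⟩], [⟨(nat_lit 0), (nat_lit 100), (nat_lit 66), (nat_lit 75), (nat_lit 563644318)⟩], [], [⟨(nat_lit 1), (nat_lit 52), (nat_lit 100), (nat_lit 80), (nat_lit 483671)⟩],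
 ⟨⟨[(nat_lit 40), (nat_lit 80), (nat_lit 100)], [(nat_lit 0), (nat_lit 795), (nat_lit 1829)], [((nat_lit 0), (nat_lit 0), (nat_lit 0)), ((nat_lit 1000), (nat_lit 814), (nat_lit 310)), ((nat_lit 1000), (nat_lit 714), (nat_lit 692))], ((nat_lit 72), (nat_lit 100), (nat_lit 65))⟩, (nat_lit 2384014), (nat_lit 221), (nat_lit 221), (nat_lit 0), (nat_lit 281050), [(nat_lit 2032000012), (nat_lit 4688000003), (nat_lit 6250000000)], [], [(nat_lit 20582177477), (nat_lit 22234128180), (nat_lit 23171680256), (nat_lit 24934186500), (nat_lit 19837854744), (nat_lit 21258189808), (nat_lit 22276306218), (nat_lit 23522625706)], (nat_lit 1271251), (nat_lit 1271251), (nat_lit 780000), (nat_lit 1762501), (nat_lit 230000), (nat_lit 780000), [(nat_lit 490000), (nat_lit 1100000), (nat_lit 1442501)], [(nat_lit 3), (nat_lit 50), (nat_lit 317), (nat_lit 100), (nat_lit 12)]⟩,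
 ⟨⟨[(nat_lit 60), (nat_lit 100), (nat_lit 140)], [(nat_lit 0), (nat_lit 0), (nat_lit 2047)], [((nat_lit 0), (nat_lit 0), (nat_lit 0)), ((nat_lit 0), (nat_lit 0), (nat_lit 0)), ((nat_lit 1000), (nat_lit 993), (nat_lit 781))], ((nat_lit 96), (nat_lit 100), (nat_lit 68))⟩, (nat_lit 1997922), (nat_lit 325), (nat_lit 325), (nat_lit 0), (nat_lit 479078), [(nat_lit 3282000000), (nat_lit 6250000000), (nat_lit 9842000000)], [], [(nat_lit 24536214733), (nat_lit 26622079922), (nat_lit 25895595696), (nat_lit 27527303978), (nat_lit 33328141630), (nat_lit 34385201950), (nat_lit 32795391230), (nat_lit 33700364968)], (nat_lit 1271251), (nat_lit 1271251), (nat_lit 780000), (nat_lit 1762501), (nat_lit 1271251), (nat_lit 1271251), [(nat_lit 780000), (nat_lit 1435001), (nat_lit 1271251)], [(nat_lit 11), (nat_lit 55), (nat_lit 401), (nat_lit 175), (nat_lit 11)]⟩,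
 ⟨⟨[(nat_lit 120), (nat_lit 160), (nat_lit 180)], [(nat_lit 0), (nat_lit 533), (nat_lit 2066)], [((nat_lit 0), (nat_lit 0), (nat_lit 0)), ((nat_lit 960), (nat_lit 1000), (nat_lit 200)), ((nat_lit 615), (nat_lit 1000), (nat_lit 729))], ((nat_lit 100), (nat_lit 69), (nat_lit 65))⟩, (nat_lit 1128585), (nat_lit 300), (nat_lit 753), (nat_lit 32004802), (nat_lit 903092), [(nat_lit 3840576000), (nat_lit 5722304000), (nat_lit 6775956000)], [], [(nat_lit 26186396016), (nat_lit 25773795146), (nat_lit 24070385601), (nat_lit 23658185438), (nat_lit 25744384684), (nat_lit 25298469715), (nat_lit 23548153372), (nat_lit 23025500100)], (nat_lit 1271251), (nat_lit 1271251), (nat_lit 230000), (nat_lit 780000), (nat_lit 1271251), (nat_lit 1271251), [(nat_lit 1695001), (nat_lit 1271251), (nat_lit 1271251)], [(nat_lit 28), (nat_lit 65), (nat_lit 428), (nat_lit 200), (nat_lit 10)]⟩⟩)))) (.trZ (nat_lit 0) (nat_lit 2) (nat_lit 4) (nat_lit 100) (nat_lit 72) (nat_lit 77) (nat_lit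 70) (.trZ (nat_lit 1) (nat_lit 2) (nat_lit 5) (nat_lit 100) (nat_lit 92) (nat_lit 49) (nat_lit 20) (.leaf ⟨(nat_lit 0), (nat_lit 573), (nat_lit 0), (nat_lit 427), (nat_lit 0), (nat_lit 6604), (nat_lit 6924), (nat_lit 4834), (nat_lit 0), (nat_lit 800313), (nat_lit 0), [], Pd.none, Pd.none, (nat_lit 0), (nat_lit 1), (nat_lit 0), (nat_lit 0), (nat_lit 5), (nat_lit 0), [⟨(nat_lit 0), (nat_lit 88), (nat_lit 67), (nat_lit 100), (nat_lit 784490359)⟩], [⟨(nat_lit 0), (nat_lit 100), (nat_lit 71), (nat_lit 100), (nat_lit 139268646)⟩, ⟨(nat_lit 0), (nat_lit 100), (nat_lit 72), (nat_lit 77), (nat_lit 857176364)⟩], [], [],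
 ⟨⟨[(nat_lit 40), (nat_lit 80), (nat_lit 100)], [(nat_lit 0), (nat_lit 795), (nat_lit 1829)], [((nat_lit 0), (nat_lit 0), (nat_lit 0)), ((nat_lit 1000), (nat_lit 814), (nat_lit 310)), ((nat_lit 1000), (nat_lit 714), (nat_lit 692))], ((nat_lit 72), (nat_lit 100), (nat_lit 65))⟩, (nat_lit 1214182), (nat_lit 223), (nat_lit 223), (nat_lit 0), (nat_lit 356108), [(nat_lit 2486711881), (nat_lit 4688000629), (nat_lit 6250000000)], [], [(nat_lit 20478067756), (nat_lit 22738565371), (nat_lit 23103572749), (nat_lit 25389416427), (nat_lit 20088697537), (nat_lit 22016195698), (nat_lit 22415404150), (nat_lit 24361832532)], (nat_lit 1271251), (nat_lit 1271251), (nat_lit 780000), (nat_lit 1762501), (nat_lit 422188), (nat_lit 780000), [(nat_lit 490000), (nat_lit 1100000), (nat_lit 1442501)], [(nat_lit 3), (nat_lit 50), (nat_lit 317), (nat_lit 100), (nat_lit 12)]⟩,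
 ⟨⟨[(nat_lit 60), (nat_lit 100), (nat_lit 140)], [(nat_lit 0), (nat_lit 0), (nat_lit 2047)], [((nat_lit 0), (nat_lit 0), (nat_lit 0)), ((nat_lit 0), (nat_lit 0), (nat_lit 0)), ((nat_lit 1000), (nat_lit 993), (nat_lit 781))], ((nat_lit 96), (nat_lit 100), (nat_lit 68))⟩, (nat_lit 549332), (nat_lit 524), (nat_lit 524), (nat_lit 0), (nat_lit 730968), [(nat_lit 3282000000), (nat_lit 6250000000), (nat_lit 9842000000)], [], [(nat_lit 36563213920), (nat_lit 38099359176), (nat_lit 37386830038), (nat_lit 38586715912), (nat_lit 39340447996), (nat_lit 39916507172), (nat_lit 47779783208), (nat_lit 41781397376)], (nat_lit 1271251), (nat_lit 1271251), (nat_lit 780000), (nat_lit 1762501), (nat_lit 111251), (nat_lit 2866250), [(nat_lit 780000), (nat_lit 1435001), (nat_lit 1271251)], [(nat_lit 11), (nat_lit 55), (nat_lit 401), (nat_lit 175), (nat_lit 11)]⟩,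
 ⟨⟨[(nat_lit 100), (nat_lit 140), (nat_lit 160)], [(nat_lit 0), (nat_lit 508), (nat_lit 1689)], [((nat_lit 0), (nat_lit 0), (nat_lit 0)), ((nat_lit 1000), (nat_lit 1000), (nat_lit 198)), ((nat_lit 811), (nat_lit 1000), (nat_lit 671))], ((nat_lit 100), (nat_lit 83), (nat_lit 65))⟩, (nat_lit 240385), (nat_lit 300), (nat_lit 607), (nat_lit 29145846), (nat_lit 631724), [(nat_lit 2668750000), (nat_lit 4202534000), (nat_lit 5069344000)], [], [(nat_lit 22611972432), (nat_lit 21068919554), (nat_lit 19229352373), (nat_lit 19973819353), (nat_lit 18293820345), (nat_lit 18895017035), (nat_lit 18769822304), (nat_lit 17612901961)], (nat_lit 1271251), (nat_lit 1271251), (nat_lit 422188), (nat_lit 780000), (nat_lit 111251), (nat_lit 2866250), [(nat_lit 1412501), (nat_lit 1271251), (nat_lit 1271251)], [(nat_lit 23), (nat_lit 62), (nat_lit 456), (nat_lit 225), (nat_lit 12)]⟩⟩))))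
noncomputable def c8_12 : Tr Lf :=
 (.spl (nat_lit 2) (nat_lit 220) (.spl (nat_lit 5) (nat_lit 200) (.leaf ⟨(nat_lit 0), (nat_lit 1000), (nat_lit 0), (nat_lit 0), (nat_lit 0), (nat_lit 5005), (nat_lit 8780), (nat_lit 0), (nat_lit 0), (nat_lit 0), (nat_lit 0), [], Pd.none, Pd.none, (nat_lit 0), (nat_lit 1), (nat_lit 0), (nat_lit 0), (nat_lit 3), (nat_lit 0), [], [], [], [],
 ⟨⟨[(nat_lit 40), (nat_lit 80), (nat_lit 120)], [(nat_lit 0), (nat_lit 795), (nat_lit 2800)], [((nat_lit 0), (nat_lit 0), (nat_lit 0)), ((nat_lit 1000), (nat_lit 814), (nat_lit 310)), ((nat_lit 1000), (nat_lit 719), (nat_lit 783))], ((nat_lit 71), (nat_lit 100), (nat_lit 71))⟩, (nat_lit 2579268), (nat_lit 295), (nat_lit 295), (nat_lit 0), (nat_lit 308759), [(nat_lit 2032000075), (nat_lit 4688000078), (nat_lit 7968000000)], [], [(nat_lit 21591602290), (nat_lit 24077384448), (nat_lit 24558156836), (nat_lit 26645702967), (nat_lit 19766270398), (nat_lit 21016065133), (nat_lit 22514549448),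 (nat_lit 23120715915)], (nat_lit 1271251), (nat_lit 1271251), (nat_lit 780000), (nat_lit 1762501), (nat_lit 54688), (nat_lit 780000), [(nat_lit 490000), (nat_lit 1100000), (nat_lit 1785001)], [(nat_lit 4), (nat_lit 51), (nat_lit 317), (nat_lit 100), (nat_lit 10)]⟩,
 ⟨⟨[(nat_lit 60), (nat_lit 100), (nat_lit 140)], [(nat_lit 0), (nat_lit 0), (nat_lit 2047)], [((nat_lit 0), (nat_lit 0), (nat_lit 0)), ((nat_lit 0), (nat_lit 0), (nat_lit 0)), ((nat_lit 1000), (nat_lit 993), (nat_lit 781))], ((nat_lit 99), (nat_lit 100), (nat_lit 77))⟩, (nat_lit 0), (nat_lit 451), (nat_lit 451), (nat_lit 0), (nat_lit 497452), [(nat_lit 3282000000), (nat_lit 6250000000), (nat_lit 9842000000)], [], [(nat_lit 31743738560), (nat_lit 34059569800), (nat_lit 32860092920), (nat_lit 35328964240), (nat_lit 27192079650), (nat_lit 28909379920), (nat_lit 40728531480), (nat_lit 32927519040)], (nat_lit 1271251), (nat_lit 1271251), (nat_lit 780000), (nat_lit 1762501), (nat_lit 0), (nat_lit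 1412501), [(nat_lit 780000), (nat_lit 1435001), (nat_lit 1271251)], [(nat_lit 11), (nat_lit 55), (nat_lit 345), (nat_lit 125), (nat_lit 10)]⟩,
 Rw.none⟩) (.spl (nat_lit 0) (nat_lit 350) (.spl (nat_lit 0) (nat_lit 345) (.leaf ⟨(nat_lit 0), (nat_lit 799), (nat_lit 0), (nat_lit 201), (nat_lit 0), (nat_lit 4636), (nat_lit 7441), (nat_lit 2408), (nat_lit 0), (nat_lit 0), (nat_lit 0), [], Pd.none, Pd.none, (nat_lit 0), (nat_lit 1), (nat_lit 0), (nat_lit 0), (nat_lit 5), (nat_lit 0), [⟨(nat_lit 0), (nat_lit 89), (nat_lit 72), (nat_lit 100), (nat_lit 562685290)⟩], [⟨(nat_lit 0), (nat_lit 100), (nat_lit 71), (nat_lit 61), (nat_lit 210021263)⟩], [⟨(nat_lit 1), (nat_lit 63), (nat_lit 88), (nat_lit 100), (nat_lit 274228596)⟩], [],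
 ⟨⟨[(nat_lit 40), (nat_lit 80), (nat_lit 120)], [(nat_lit 0), (nat_lit 795), (nat_lit 2800)], [((nat_lit 0), (nat_lit 0), (nat_lit 0)), ((nat_lit 1000), (nat_lit 814), (nat_lit 310)), ((nat_lit 1000), (nat_lit 719), (nat_lit 783))], ((nat_lit 71), (nat_lit 100), (nat_lit 71))⟩, (nat_lit 2785941), (nat_lit 266), (nat_lit 266), (nat_lit 0), (nat_lit 239901), [(nat_lit 2032000003), (nat_lit 4688000002), (nat_lit 7968000000)], [], [(nat_lit 21069444144), (nat_lit 21484211212), (nat_lit 23965462717), (nat_lit 24463827702), (nat_lit 19596454684), (nat_lit 19965836500), (nat_lit 22143905413), (nat_lit 22447945338)], (nat_lit 1271251), (nat_lit 1271251), (nat_lit 780000), (nat_lit 1762501), (nat_lit 54688), (nat_lit 780000), [(nat_lit 490000), (nat_lit 1100000), (nat_lit 1785001)], [(nat_lit 4), (nat_lit 51), (nat_lit 317), (nat_lit 100), (nat_lit 10)]⟩,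
 ⟨⟨[(nat_lit 60), (nat_lit 100), (nat_lit 140)], [(nat_lit 0), (nat_lit 0), (nat_lit 2047)], [((nat_lit 0), (nat_lit 0), (nat_lit 0)), ((nat_lit 0), (nat_lit 0), (nat_lit 0)), ((nat_lit 1000), (nat_lit 993), (nat_lit 781))], ((nat_lit 99), (nat_lit 100), (nat_lit 77))⟩, (nat_lit 2072844), (nat_lit 286), (nat_lit 286), (nat_lit 0), (nat_lit 363069), [(nat_lit 3282000000), (nat_lit 6250000000), (nat_lit 9842000000)], [], [(nat_lit 23941042959), (nat_lit 26060978084), (nat_lit 25258899717), (nat_lit 26912297936), (nat_lit 32859140966), (nat_lit 34239361392), (nat_lit 32392385362), (nat_lit 33970366156)], (nat_lit 1271251), (nat_lit 1271251), (nat_lit 780000), (nat_lit 1762501), (nat_lit 1271251), (nat_lit 1271251), [(nat_lit 780000), (nat_lit 1435001), (nat_lit 1271251)], [(nat_lit 11), (nat_lit 55), (nat_lit 401), (nat_lit 175), (nat_lit 11)]⟩,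
 ⟨⟨[(nat_lit 140), (nat_lit 180), (nat_lit 200)], [(nat_lit 0), (nat_lit 0), (nat_lit 2835)], [((nat_lit 0), (nat_lit 0), (nat_lit 0)), ((nat_lit 0), (nat_lit 0), (nat_lit 0)), ((nat_lit 363), (nat_lit 1000), (nat_lit 798))], ((nat_lit 0), (nat_lit 0), (nat_lit 0))⟩, (nat_lit 55302), (nat_lit 300), (nat_lit 1136), (nat_lit 15698100), (nat_lit 1486679), [(nat_lit 1978242000), (nat_lit 2825658000), (nat_lit 3296400000)], [], [(nat_lit 14138359278), (nat_lit 13296531311), (nat_lit 12463616871), (nat_lit 11650908232), (nat_lit 13755987507), (nat_lit 12873525217), (nat_lit 11925012518), (nat_lit 11081918711)], (nat_lit 780000), (nat_lit 1598751), (nat_lit 54688), (nat_lit 780000), (nat_lit 1271251), (nat_lit 1271251), [(nat_lit 1977501), (nat_lit 1271251), (nat_lit 1271251)], [(nat_lit 32), (nat_lit 67), (nat_lit 428), (nat_lit 200), (nat_lit 9)]⟩⟩) (.trZ (nat_lit 0) (nat_lit 1) (nat_lit 3) (nat_lit 98) (nat_lit 73) (nat_lit 100) (nat_lit 130) (.leaf ⟨(nat_lit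 0), (nat_lit 819), (nat_lit 0), (nat_lit 181), (nat_lit 0), (nat_lit 5022), (nat_lit 7455), (nat_lit 2164), (nat_lit 0), (nat_lit 0), (nat_lit 0), [], Pd.none, Pd.none, (nat_lit 0), (nat_lit 1), (nat_lit 0), (nat_lit 0), (nat_lit 5), (nat_lit 0), [⟨(nat_lit 0), (nat_lit 89), (nat_lit 69), (nat_lit 100), (nat_lit 553297477)⟩], [⟨(nat_lit 0), (nat_lit 100), (nat_lit 68), (nat_lit 64), (nat_lit 213112288)⟩], [⟨(nat_lit 1), (nat_lit 63), (nat_lit 88), (nat_lit 100), (nat_lit 296889776)⟩], [],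
 ⟨⟨[(nat_lit 40), (nat_lit 80), (nat_lit 100)], [(nat_lit 0), (nat_lit 994), (nat_lit 1992)], [((nat_lit 0), (nat_lit 0), (nat_lit 0)), ((nat_lit 1000), (nat_lit 767), (nat_lit 387)), ((nat_lit 1000), (nat_lit 689), (nat_lit 725))], ((nat_lit 69), (nat_lit 100), (nat_lit 71))⟩, (nat_lit 1903313), (nat_lit 227), (nat_lit 227), (nat_lit 0), (nat_lit 262560), [(nat_lit 2032000023), (nat_lit 4688000004), (nat_lit 6250000000)], [], [(nat_lit 22363457329), (nat_lit 22788740313), (nat_lit 25108432708), (nat_lit 25631402890), (nat_lit 20478019558), (nat_lit 20858924080), (nat_lit 22696565928), (nat_lit 23013129107)], (nat_lit 1271251), (nat_lit 1271251), (nat_lit 857188), (nat_lit 1768126), (nat_lit 54688), (nat_lit 780000), [(nat_lit 490000), (nat_lit 1100000), (nat_lit 1442501)], [(nat_lit 3), (nat_lit 50), (nat_lit 317), (nat_lit 100), (nat_lit 12)]⟩,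
 ⟨⟨[(nat_lit 60), (nat_lit 100), (nat_lit 140)], [(nat_lit 0), (nat_lit 0), (nat_lit 2047)], [((nat_lit 0), (nat_lit 0), (nat_lit 0)), ((nat_lit 0), (nat_lit 0), (nat_lit 0)), ((nat_lit 1000), (nat_lit 993), (nat_lit 781))], ((nat_lit 99), (nat_lit 100), (nat_lit 77))⟩, (nat_lit 2070650), (nat_lit 296), (nat_lit 296), (nat_lit 0), (nat_lit 406257), [(nat_lit 3282000000), (nat_lit 6250000000), (nat_lit 9842000000)], [], [(nat_lit 23865652605), (nat_lit 25954003928), (nat_lit 25235544625), (nat_lit 26890192470), (nat_lit 32652933680), (nat_lit 34013211575), (nat_lit 32391218100), (nat_lit 33985921780)], (nat_lit 1271251), (nat_lit 1271251), (nat_lit 857188), (nat_lit 1768126), (nat_lit 1271251), (nat_lit 1271251), [(nat_lit 780000), (nat_lit 1435001), (nat_lit 1271251)], [(nat_lit 11), (nat_lit 55), (nat_lit 401), (nat_lit 175), (nat_lit 11)]⟩,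
 ⟨⟨[(nat_lit 140), (nat_lit 180), (nat_lit 200)], [(nat_lit 0), (nat_lit 0), (nat_lit 2835)], [((nat_lit 0), (nat_lit 0), (nat_lit 0)), ((nat_lit 0), (nat_lit 0), (nat_lit 0)), ((nat_lit 363), (nat_lit 1000), (nat_lit 798))], ((nat_lit 0), (nat_lit 0), (nat_lit 0))⟩, (nat_lit 49799), (nat_lit 300), (nat_lit 1222), (nat_lit 14136100), (nat_lit 1667310), [(nat_lit 1781402000), (nat_lit 2544498000), (nat_lit 2968400000)], [], [(nat_lit 12744127820), (nat_lit 11988092313), (nat_lit 11239519403), (nat_lit 10509640258), (nat_lit 12393887347), (nat_lit 11601361689), (nat_lit 10748890886), (nat_lit 9991731801)], (nat_lit 780000), (nat_lit 1598751), (nat_lit 54688), (nat_lit 780000), (nat_lit 1271251), (nat_lit 1271251), [(nat_lit 1977501), (nat_lit 1271251), (nat_lit 1271251)], [(nat_lit 32), (nat_lit 67), (nat_lit 428), (nat_lit 200), (nat_lit 9)]⟩⟩))) (.trZ (nat_lit 0) (nat_lit 1) (nat_lit 3) (nat_lit 96) (nat_lit 69) (nat_lit 100) (nat_lit 130) (.leaf ⟨(nat_lit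 0), (nat_lit 837), (nat_lit 0), (nat_lit 163), (nat_lit 0), (nat_lit 5186), (nat_lit 7455), (nat_lit 1888), (nat_lit 0), (nat_lit 0), (nat_lit 0), [], Pd.none, Pd.none, (nat_lit 0), (nat_lit 1), (nat_lit 0), (nat_lit 0), (nat_lit 5), (nat_lit 0), [⟨(nat_lit 0), (nat_lit 88), (nat_lit 64), (nat_lit 100), (nat_lit 613601830)⟩], [⟨(nat_lit 0), (nat_lit 100), (nat_lit 64), (nat_lit 68), (nat_lit 204871163)⟩], [⟨(nat_lit 1), (nat_lit 63), (nat_lit 88), (nat_lit 100), (nat_lit 314533322)⟩], [],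
 ⟨⟨[(nat_lit 40), (nat_lit 80), (nat_lit 100)], [(nat_lit 0), (nat_lit 1195), (nat_lit 2166)], [((nat_lit 0), (nat_lit 0), (nat_lit 0)), ((nat_lit 1000), (nat_lit 720), (nat_lit 465)), ((nat_lit 1000), (nat_lit 662), (nat_lit 740))], ((nat_lit 66), (nat_lit 100), (nat_lit 72))⟩, (nat_lit 1535961), (nat_lit 247), (nat_lit 247), (nat_lit 0), (nat_lit 306246), [(nat_lit 2032000009), (nat_lit 4688000006), (nat_lit 6250000000)], [], [(nat_lit 23192181105), (nat_lit 24390840410), (nat_lit 25915730540), (nat_lit 26982578945), (nat_lit 21135636252), (nat_lit 21911570585), (nat_lit 23276623177), (nat_lit 23920617199)], (nat_lit 1271251), (nat_lit 1271251), (nat_lit 857188), (nat_lit 1768126), (nat_lit 54688), (nat_lit 780000), [(nat_lit 490000), (nat_lit 1100000), (nat_lit 1442501)], [(nat_lit 3), (nat_lit 50), (nat_lit 317), (nat_lit 100), (nat_lit 12)]⟩,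
 ⟨⟨[(nat_lit 60), (nat_lit 100), (nat_lit 140)], [(nat_lit 0), (nat_lit 0), (nat_lit 2047)], [((nat_lit 0), (nat_lit 0), (nat_lit 0)), ((nat_lit 0), (nat_lit 0), (nat_lit 0)), ((nat_lit 1000), (nat_lit 993), (nat_lit 781))], ((nat_lit 99), (nat_lit 100), (nat_lit 77))⟩, (nat_lit 2070650), (nat_lit 326), (nat_lit 326), (nat_lit 0), (nat_lit 496402), [(nat_lit 3282000000), (nat_lit 6250000000), (nat_lit 9842000000)], [], [(nat_lit 23865652605), (nat_lit 25954003928), (nat_lit 25235544625), (nat_lit 26890192470), (nat_lit 32652933680), (nat_lit 34013211575), (nat_lit 32391218100), (nat_lit 33985921780)], (nat_lit 1271251), (nat_lit 1271251), (nat_lit 857188), (nat_lit 1768126), (nat_lit 1271251), (nat_lit 1271251), [(nat_lit 780000), (nat_lit 1435001), (nat_lit 1271251)], [(nat_lit 11), (nat_lit 55), (nat_lit 401), (nat_lit 175), (nat_lit 11)]⟩,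
 ⟨⟨[(nat_lit 140), (nat_lit 180), (nat_lit 200)], [(nat_lit 0), (nat_lit 0), (nat_lit 2835)], [((nat_lit 0), (nat_lit 0), (nat_lit 0)), ((nat_lit 0), (nat_lit 0), (nat_lit 0)), ((nat_lit 363), (nat_lit 1000), (nat_lit 798))], ((nat_lit 0), (nat_lit 0), (nat_lit 0))⟩, (nat_lit 44847), (nat_lit 300), (nat_lit 1380), (nat_lit 12730300), (nat_lit 2035839), [(nat_lit 1604246000), (nat_lit 2291454000), (nat_lit 2673200000)], [], [(nat_lit 11650522862), (nat_lit 10997713800), (nat_lit 10424411052), (nat_lit 9758950524), (nat_lit 11253338440), (nat_lit 10569063645), (nat_lit 9824350706), (nat_lit 9170755233)], (nat_lit 780000), (nat_lit 1598751), (nat_lit 54688), (nat_lit 780000), (nat_lit 1271251), (nat_lit 1271251), [(nat_lit 1977501), (nat_lit 1271251), (nat_lit 1271251)], [(nat_lit 32), (nat_lit 67), (nat_lit 438), (nat_lit 200), (nat_lit 9)]⟩⟩)))) (.trZ (nat_lit 0) (nat_lit 2) (nat_lit 4) (nat_lit 100) (nat_lit 72) (nat_lit 77) (nat_lit 70) (.trZ (nat_lit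 1) (nat_lit 2) (nat_lit 5) (nat_lit 100) (nat_lit 92) (nat_lit 49) (nat_lit 20) (.leaf ⟨(nat_lit 0), (nat_lit 584), (nat_lit 0), (nat_lit 416), (nat_lit 14531), (nat_lit 5319), (nat_lit 6283), (nat_lit 5339), (nat_lit 0), (nat_lit 19785), (nat_lit 0), [], Pd.none, Pd.none, (nat_lit 0), (nat_lit 1), (nat_lit 0), (nat_lit 0), (nat_lit 5), (nat_lit 0), [⟨(nat_lit 0), (nat_lit 88), (nat_lit 67), (nat_lit 100), (nat_lit 691073756)⟩], [⟨(nat_lit 0), (nat_lit 100), (nat_lit 71), (nat_lit 100), (nat_lit 720444674)⟩], [⟨(nat_lit 0), (nat_lit 100), (nat_lit 92), (nat_lit 49), (nat_lit 191840)⟩], [],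
 ⟨⟨[(nat_lit 40), (nat_lit 80), (nat_lit 120)], [(nat_lit 0), (nat_lit 795), (nat_lit 2800)], [((nat_lit 0), (nat_lit 0), (nat_lit 0)), ((nat_lit 1000), (nat_lit 814), (nat_lit 310)), ((nat_lit 1000), (nat_lit 719), (nat_lit 783))], ((nat_lit 71), (nat_lit 100), (nat_lit 71))⟩, (nat_lit 2792575), (nat_lit 196), (nat_lit 196), (nat_lit 0), (nat_lit 255667), [(nat_lit 2257115982), (nat_lit 4688000022), (nat_lit 7968000000)], [], [(nat_lit 18629281342), (nat_lit 21222957344), (nat_lit 21907451859), (nat_lit 23991777504), (nat_lit 18359362781), (nat_lit 20653478747), (nat_lit 21401653631), (nat_lit 23364437377)], (nat_lit 1271251), (nat_lit 1271251), (nat_lit 780000), (nat_lit 1762501), (nat_lit 422188), (nat_lit 780000), [(nat_lit 490000), (nat_lit 1100000), (nat_lit 1785001)], [(nat_lit 4), (nat_lit 51), (nat_lit 317), (nat_lit 100), (nat_lit 10)]⟩,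
 ⟨⟨[(nat_lit 60), (nat_lit 100), (nat_lit 140)], [(nat_lit 0), (nat_lit 0), (nat_lit 2047)], [((nat_lit 0), (nat_lit 0), (nat_lit 0)), ((nat_lit 0), (nat_lit 0), (nat_lit 0)), ((nat_lit 1000), (nat_lit 993), (nat_lit 781))], ((nat_lit 99), (nat_lit 100), (nat_lit 77))⟩, (nat_lit 0), (nat_lit 438), (nat_lit 438), (nat_lit 0), (nat_lit 502188), [(nat_lit 3282000000), (nat_lit 6250000000), (nat_lit 9842000000)], [], [(nat_lit 35911201315), (nat_lit 37623509656), (nat_lit 37242978273), (nat_lit 38698360062), (nat_lit 40552265650), (nat_lit 41347333182), (nat_lit 47583546186), (nat_lit 42140470192)], (nat_lit 1271251), (nat_lit 1271251), (nat_lit 780000), (nat_lit 1762501), (nat_lit 111251), (nat_lit 2866250), [(nat_lit 780000), (nat_lit 1435001), (nat_lit 1271251)], [(nat_lit 11), (nat_lit 55), (nat_lit 401), (nat_lit 175), (nat_lit 11)]⟩,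
 ⟨⟨[(nat_lit 100), (nat_lit 140), (nat_lit 180)], [(nat_lit 0), (nat_lit 508), (nat_lit 2854)], [((nat_lit 0), (nat_lit 0), (nat_lit 0)), ((nat_lit 1000), (nat_lit 1000), (nat_lit 198)), ((nat_lit 777), (nat_lit 1000), (nat_lit 712))], ((nat_lit 100), (nat_lit 77), (nat_lit 72))⟩, (nat_lit 265380), (nat_lit 300), (nat_lit 581), (nat_lit 28281853), (nat_lit 392138), [(nat_lit 2600000000), (nat_lit 4094272000), (nat_lit 5848128000)], [], [(nat_lit 23166946124), (nat_lit 23020990859), (nat_lit 21588488068), (nat_lit 21626659831), (nat_lit 19550960397), (nat_lit 20177566205), (nat_lit 18420159982), (nat_lit 18652508646)], (nat_lit 1271251), (nat_lit 1271251), (nat_lit 422188), (nat_lit 780000), (nat_lit 111251), (nat_lit 2866250), [(nat_lit 1412501), (nat_lit 1271251), (nat_lit 1271251)], [(nat_lit 24), (nat_lit 63), (nat_lit 456), (nat_lit 225), (nat_lit 11)]⟩⟩))))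
noncomputable def c8_13 : Tr Lf :=
 (.spl (nat_lit 5) (nat_lit 200) (.leaf ⟨(nat_lit 0), (nat_lit 931), (nat_lit 0), (nat_lit 69), (nat_lit 0), (nat_lit 6978), (nat_lit 6736), (nat_lit 836), (nat_lit 0), (nat_lit 14122), (nat_lit 0), [], Pd.none, Pd.none, (nat_lit 0), (nat_lit 1), (nat_lit 0), (nat_lit 0), (nat_lit 3), (nat_lit 0), [], [⟨(nat_lit 0), (nat_lit 100), (nat_lit 66), (nat_lit 82), (nat_lit 429381213)⟩], [⟨(nat_lit 0), (nat_lit 83), (nat_lit 83), (nat_lit 100), (nat_lit 735713)⟩], [],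
 ⟨⟨[(nat_lit 40), (nat_lit 80), (nat_lit 120)], [(nat_lit 0), (nat_lit 795), (nat_lit 2800)], [((nat_lit 0), (nat_lit 0), (nat_lit 0)), ((nat_lit 1000), (nat_lit 814), (nat_lit 310)), ((nat_lit 1000), (nat_lit 719), (nat_lit 783))], ((nat_lit 71), (nat_lit 100), (nat_lit 71))⟩, (nat_lit 784906), (nat_lit 300), (nat_lit 340), (nat_lit 50800001), (nat_lit 411618), [(nat_lit 2032000002), (nat_lit 4688000003), (nat_lit 7968000000)], [], [(nat_lit 33395307911), (nat_lit 34451254383), (nat_lit 41549352102), (nat_lit 43099158247), (nat_lit 29920723670), (nat_lit 30866309870), (nat_lit 34976826773), (nat_lit 36407549638)], (nat_lit 1271251), (nat_lit 1271251), (nat_lit 1271251), (nat_lit 1271251), (nat_lit 54688), (nat_lit 780000), [(nat_lit 490000), (nat_lit 1100000), (nat_lit 1785001)], [(nat_lit 4), (nat_lit 51), (nat_lit 238), (nat_lit 30), (nat_lit 7)]⟩,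
 ⟨⟨[(nat_lit 80), (nat_lit 120), (nat_lit 160)], [(nat_lit 0), (nat_lit 0), (nat_lit 2132)], [((nat_lit 0), (nat_lit 0), (nat_lit 0)), ((nat_lit 0), (nat_lit 0), (nat_lit 0)), ((nat_lit 858), (nat_lit 1000), (nat_lit 713))], ((nat_lit 100), (nat_lit 85), (nat_lit 73))⟩, (nat_lit 3019460), (nat_lit 252), (nat_lit 252), (nat_lit 0), (nat_lit 0), [(nat_lit 4688000000), (nat_lit 7968000000), (nat_lit 11872000000)], [], [(nat_lit 27983132176), (nat_lit 32644188528), (nat_lit 38621540656), (nat_lit 41155043792), (nat_lit 24795565744), (nat_lit 27836705360), (nat_lit 32572334992), (nat_lit 35105823712)], (nat_lit 0), (nat_lit 0), (nat_lit 0), (nat_lit 0), (nat_lit 0), (nat_lit 0), [], [(nat_lit 18), (nat_lit 59), (nat_lit 483), (nat_lit 250), (nat_lit 12)]⟩,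
 ⟨⟨[(nat_lit 140), (nat_lit 180), (nat_lit 200)], [(nat_lit 0), (nat_lit 0), (nat_lit 2835)], [((nat_lit 0), (nat_lit 0), (nat_lit 0)), ((nat_lit 0), (nat_lit 0), (nat_lit 0)), ((nat_lit 363), (nat_lit 1000), (nat_lit 798))], ((nat_lit 0), (nat_lit 0), (nat_lit 0))⟩, (nat_lit 18984), (nat_lit 300), (nat_lit 1911), (nat_lit 5388902), (nat_lit 2912425), [(nat_lit 679098000), (nat_lit 970002000), (nat_lit 1131600000)], [], [(nat_lit 6405254943), (nat_lit 5418158523), (nat_lit 5149178214), (nat_lit 4736527648), (nat_lit 4826677780), (nat_lit 4857662528), (nat_lit 4244321947), (nat_lit 5379339128)], (nat_lit 780000), (nat_lit 2417500), (nat_lit 54688), (nat_lit 780000), (nat_lit 0), (nat_lit 1412501), [(nat_lit 1977501), (nat_lit 1271251), (nat_lit 1271251)], [(nat_lit 32), (nat_lit 67), (nat_lit 558), (nat_lit 175), (nat_lit 12)]⟩⟩) (.trX (nat_lit 3) (nat_lit 5) (nat_lit 4) (nat_lit 100) (nat_lit 40) (nat_lit 92) (nat_lit 390) (.leaf ⟨(nat_lit 0), (nat_lit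 875), (nat_lit 0), (nat_lit 125), (nat_lit 0), (nat_lit 8732), (nat_lit 5741), (nat_lit 1405), (nat_lit 0), (nat_lit 6387), (nat_lit 0), [], Pd.none, Pd.none, (nat_lit 0), (nat_lit 1), (nat_lit 0), (nat_lit 0), (nat_lit 5), (nat_lit 0), [], [⟨(nat_lit 0), (nat_lit 100), (nat_lit 66), (nat_lit 82), (nat_lit 281964514)⟩], [], [⟨(nat_lit 1), (nat_lit 100), (nat_lit 90), (nat_lit 96), (nat_lit 234629996)⟩],
 ⟨⟨[(nat_lit 40), (nat_lit 80), (nat_lit 120)], [(nat_lit 0), (nat_lit 795), (nat_lit 2800)], [((nat_lit 0), (nat_lit 0), (nat_lit 0)), ((nat_lit 1000), (nat_lit 814), (nat_lit 310)), ((nat_lit 1000), (nat_lit 719), (nat_lit 783))], ((nat_lit 71), (nat_lit 100), (nat_lit 71))⟩, (nat_lit 864871), (nat_lit 300), (nat_lit 336), (nat_lit 50800001), (nat_lit 411618), [(nat_lit 2032000003), (nat_lit 4717103696), (nat_lit 7968000000)], [], [(nat_lit 30544528061), (nat_lit 33582370209), (nat_lit 45325557943), (nat_lit 47179856089), (nat_lit 24936469267), (nat_lit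 26013803549), (nat_lit 36785090469), (nat_lit 38488846767)], (nat_lit 1271251), (nat_lit 1271251), (nat_lit 1271251), (nat_lit 1271251), (nat_lit 54688), (nat_lit 780000), [(nat_lit 490000), (nat_lit 1100000), (nat_lit 1785001)], [(nat_lit 4), (nat_lit 51), (nat_lit 238), (nat_lit 30), (nat_lit 7)]⟩,
 ⟨⟨[(nat_lit 80), (nat_lit 120), (nat_lit 160)], [(nat_lit 0), (nat_lit 0), (nat_lit 2132)], [((nat_lit 0), (nat_lit 0), (nat_lit 0)), ((nat_lit 0), (nat_lit 0), (nat_lit 0)), ((nat_lit 858), (nat_lit 1000), (nat_lit 713))], ((nat_lit 100), (nat_lit 85), (nat_lit 73))⟩, (nat_lit 0), (nat_lit 100), (nat_lit 100), (nat_lit 0), (nat_lit 0), [(nat_lit 4688000000), (nat_lit 7968000000), (nat_lit 11872000000)], [], [(nat_lit 17191788694), (nat_lit 22267127622), (nat_lit 27606213502), (nat_lit 30858715668), (nat_lit 26944289736), (nat_lit 30032810818), (nat_lit 34151127902), (nat_lit 36248507573)], (nat_lit 0), (nat_lit 0), (nat_lit 0), (nat_lit 0), (nat_lit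 0), (nat_lit 0), [], [(nat_lit 18), (nat_lit 59), (nat_lit 538), (nat_lit 300), (nat_lit 13)]⟩,
 ⟨⟨[(nat_lit 140), (nat_lit 180), (nat_lit 200)], [(nat_lit 0), (nat_lit 0), (nat_lit 2835)], [((nat_lit 0), (nat_lit 0), (nat_lit 0)), ((nat_lit 0), (nat_lit 0), (nat_lit 0)), ((nat_lit 363), (nat_lit 1000), (nat_lit 798))], ((nat_lit 0), (nat_lit 0), (nat_lit 0))⟩, (nat_lit 34392), (nat_lit 300), (nat_lit 1795), (nat_lit 9762500), (nat_lit 2912425), [(nat_lit 1230250000), (nat_lit 1757250000), (nat_lit 2050000000)], [], [(nat_lit 9129594830), (nat_lit 8312449602), (nat_lit 8276224820), (nat_lit 8646331325), (nat_lit 8701494800), (nat_lit 7929652551), (nat_lit 7731287227), (nat_lit 6915909497)], (nat_lit 780000), (nat_lit 2417500), (nat_lit 54688), (nat_lit 780000), (nat_lit 1271251), (nat_lit 1271251), [(nat_lit 1977501), (nat_lit 1271251), (nat_lit 1271251)], [(nat_lit 32), (nat_lit 67), (nat_lit 550), (nat_lit 225), (nat_lit 12)]⟩⟩)))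
noncomputable def c8_14 : Tr Lf :=
 (.spl (nat_lit 2) (nat_lit 220) (.spl (nat_lit 5) (nat_lit 200) (.spl (nat_lit 0) (nat_lit 350) (.leaf ⟨(nat_lit 0), (nat_lit 1000), (nat_lit 0), (nat_lit 0), (nat_lit 0), (nat_lit 4686), (nat_lit 8019), (nat_lit 0), (nat_lit 0), (nat_lit 0), (nat_lit 0), [], Pd.none, Pd.none, (nat_lit 0), (nat_lit 1), (nat_lit 0), (nat_lit 0), (nat_lit 3), (nat_lit 0), [], [⟨(nat_lit 0), (nat_lit 100), (nat_lit 66), (nat_lit 82), (nat_lit 49621188)⟩], [], [],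
 ⟨⟨[(nat_lit 40), (nat_lit 80), (nat_lit 120)], [(nat_lit 0), (nat_lit 795), (nat_lit 2800)], [((nat_lit 0), (nat_lit 0), (nat_lit 0)), ((nat_lit 1000), (nat_lit 814), (nat_lit 310)), ((nat_lit 1000), (nat_lit 719), (nat_lit 783))], ((nat_lit 71), (nat_lit 100), (nat_lit 71))⟩, (nat_lit 2487908), (nat_lit 264), (nat_lit 264), (nat_lit 0), (nat_lit 182384), [(nat_lit 2032000005), (nat_lit 4688000009), (nat_lit 7968000000)], [], [(nat_lit 24344483437), (nat_lit 25048877947), (nat_lit 35146230953), (nat_lit 35773613599), (nat_lit 22926311647), (nat_lit 23498739342), (nat_lit 31276113469), (nat_lit 31858138788)], (nat_lit 1271251), (nat_lit 1271251), (nat_lit 1271251), (nat_lit 1271251), (nat_lit 54688), (nat_lit 780000), [(nat_lit 490000), (nat_lit 1100000), (nat_lit 1785001)], [(nat_lit 4), (nat_lit 51), (nat_lit 238), (nat_lit 30), (nat_lit 7)]⟩,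
 ⟨⟨[(nat_lit 80), (nat_lit 120), (nat_lit 160)], [(nat_lit 0), (nat_lit 0), (nat_lit 2132)], [((nat_lit 0), (nat_lit 0), (nat_lit 0)), ((nat_lit 0), (nat_lit 0), (nat_lit 0)), ((nat_lit 858), (nat_lit 1000), (nat_lit 713))], ((nat_lit 100), (nat_lit 85), (nat_lit 73))⟩, (nat_lit 2537584), (nat_lit 539), (nat_lit 539), (nat_lit 0), (nat_lit 632347), [(nat_lit 4688000000), (nat_lit 7968000000), (nat_lit 11872000000)], [], [(nat_lit 36349198560), (nat_lit 38748735496), (nat_lit 42203106756), (nat_lit 43709235844), (nat_lit 31226495660), (nat_lit 32968012206), (nat_lit 35999326346), (nat_lit 37137664110)], (nat_lit 1271251), (nat_lit 1271251), (nat_lit 1271251), (nat_lit 1271251), (nat_lit 0), (nat_lit 1412501), [(nat_lit 1100000), (nat_lit 1785001), (nat_lit 1271251)], [(nat_lit 18), (nat_lit 59), (nat_lit 483), (nat_lit 250), (nat_lit 12)]⟩,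
 Rw.none⟩) (.spl (nat_lit 0) (nat_lit 355) (.leaf ⟨(nat_lit 0), (nat_lit 1000), (nat_lit 0), (nat_lit 0), (nat_lit 0), (nat_lit 4407), (nat_lit 8019), (nat_lit 0), (nat_lit 0), (nat_lit 0), (nat_lit 0), [], Pd.none, Pd.none, (nat_lit 0), (nat_lit 1), (nat_lit 0), (nat_lit 0), (nat_lit 3), (nat_lit 0), [], [⟨(nat_lit 0), (nat_lit 100), (nat_lit 65), (nat_lit 66), (nat_lit 31915601)⟩, ⟨(nat_lit 0), (nat_lit 100), (nat_lit 64), (nat_lit 84), (nat_lit 6256552)⟩], [], [],
 ⟨⟨[(nat_lit 40), (nat_lit 80), (nat_lit 100)], [(nat_lit 0), (nat_lit 1195), (nat_lit 2166)], [((nat_lit 0), (nat_lit 0), (nat_lit 0)), ((nat_lit 1000), (nat_lit 720), (nat_lit 465)), ((nat_lit 1000), (nat_lit 662), (nat_lit 740))], ((nat_lit 66), (nat_lit 100), (nat_lit 72))⟩, (nat_lit 2158088), (nat_lit 238), (nat_lit 238), (nat_lit 0), (nat_lit 192250), [(nat_lit 2032000024), (nat_lit 4688000075), (nat_lit 6250000000)], [], [(nat_lit 24565174199), (nat_lit 25048941801), (nat_lit 34976218748),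 (nat_lit 35280931407), (nat_lit 23247940233), (nat_lit 23508935935), (nat_lit 31391439794), (nat_lit 31674331496)], (nat_lit 1271251), (nat_lit 1271251), (nat_lit 1271251), (nat_lit 1271251), (nat_lit 54688), (nat_lit 780000), [(nat_lit 490000), (nat_lit 1100000), (nat_lit 1442501)], [(nat_lit 3), (nat_lit 50), (nat_lit 238), (nat_lit 30), (nat_lit 8)]⟩,
 ⟨⟨[(nat_lit 80), (nat_lit 120), (nat_lit 160)], [(nat_lit 0), (nat_lit 0), (nat_lit 2132)], [((nat_lit 0), (nat_lit 0), (nat_lit 0)), ((nat_lit 0), (nat_lit 0), (nat_lit 0)), ((nat_lit 858), (nat_lit 1000), (nat_lit 713))], ((nat_lit 100), (nat_lit 85), (nat_lit 73))⟩, (nat_lit 2647988), (nat_lit 556), (nat_lit 556), (nat_lit 0), (nat_lit 676783), [(nat_lit 4688000000), (nat_lit 7968000000), (nat_lit 11872000000)], [], [(nat_lit 36113817232), (nat_lit 38513354168), (nat_lit 42082943732), (nat_lit 43709235844), (nat_lit 30991114332), (nat_lit 32732630878), (nat_lit 35999326346), (nat_lit 37137664110)],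 (nat_lit 1271251), (nat_lit 1271251), (nat_lit 1271251), (nat_lit 1271251), (nat_lit 0), (nat_lit 1412501), [(nat_lit 1100000), (nat_lit 1785001), (nat_lit 1271251)], [(nat_lit 18), (nat_lit 59), (nat_lit 483), (nat_lit 250), (nat_lit 12)]⟩,
 Rw.none⟩) (.trZ (nat_lit 0) (nat_lit 2) (nat_lit 4) (nat_lit 100) (nat_lit 69) (nat_lit 50) (nat_lit 20) (.leaf ⟨(nat_lit 0), (nat_lit 1000), (nat_lit 0), (nat_lit 0), (nat_lit 0), (nat_lit 4581), (nat_lit 8187), (nat_lit 0), (nat_lit 0), (nat_lit 0), (nat_lit 0), [], Pd.none, Pd.none, (nat_lit 0), (nat_lit 1), (nat_lit 0), (nat_lit 0), (nat_lit 3), (nat_lit 0), [], [⟨(nat_lit 0), (nat_lit 100), (nat_lit 62), (nat_lit 69), (nat_lit 2602130)⟩], [], [],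
 ⟨⟨[(nat_lit 40), (nat_lit 80), (nat_lit 100)], [(nat_lit 0), (nat_lit 1399), (nat_lit 2349)], [((nat_lit 0), (nat_lit 0), (nat_lit 0)), ((nat_lit 1000), (nat_lit 672), (nat_lit 546)), ((nat_lit 1000), (nat_lit 633), (nat_lit 742))], ((nat_lit 63), (nat_lit 100), (nat_lit 72))⟩, (nat_lit 2000115), (nat_lit 235), (nat_lit 235), (nat_lit 0), (nat_lit 202195), [(nat_lit 2032000110), (nat_lit 4688000419), (nat_lit 6250000000)], [], [(nat_lit 24920248051), (nat_lit 25411978661), (nat_lit 35295893144), (nat_lit 35604880473), (nat_lit 22775974856), (nat_lit 23041872943), (nat_lit 31970455767), (nat_lit 32258412151)], (nat_lit 1271251), (nat_lit 1271251), (nat_lit 1271251), (nat_lit 1271251), (nat_lit 111251), (nat_lit 780000), [(nat_lit 490000), (nat_lit 1100000), (nat_lit 1442501)], [(nat_lit 3), (nat_lit 50), (nat_lit 238), (nat_lit 30), (nat_lit 8)]⟩,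
 ⟨⟨[(nat_lit 80), (nat_lit 120), (nat_lit 160)], [(nat_lit 0), (nat_lit 0), (nat_lit 2132)], [((nat_lit 0), (nat_lit 0), (nat_lit 0)), ((nat_lit 0), (nat_lit 0), (nat_lit 0)), ((nat_lit 858), (nat_lit 1000), (nat_lit 713))], ((nat_lit 100), (nat_lit 85), (nat_lit 73))⟩, (nat_lit 2320201), (nat_lit 573), (nat_lit 573), (nat_lit 0), (nat_lit 721402), [(nat_lit 4688000000), (nat_lit 7968000000), (nat_lit 11872000000)], [], [(nat_lit 39325317668), (nat_lit 40869412176), (nat_lit 43403130808), (nat_lit 44374130792), (nat_lit 33954361084), (nat_lit 34997050396), (nat_lit 37306330618), (nat_lit 37893935946)], (nat_lit 1271251), (nat_lit 1271251), (nat_lit 1271251), (nat_lit 1271251), (nat_lit 0), (nat_lit 1412501), [(nat_lit 1100000), (nat_lit 1785001), (nat_lit 1271251)], [(nat_lit 18), (nat_lit 59), (nat_lit 483), (nat_lit 250), (nat_lit 12)]⟩,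
 Rw.none⟩)))) (.trX (nat_lit 3) (nat_lit 5) (nat_lit 4) (nat_lit 100) (nat_lit 40) (nat_lit 92) (nat_lit 390) (.spl (nat_lit 1) (nat_lit 280) (.leaf ⟨(nat_lit 0), (nat_lit 613), (nat_lit 0), (nat_lit 387), (nat_lit 0), (nat_lit 4515), (nat_lit 7277), (nat_lit 6105), (nat_lit 0), (nat_lit 0), (nat_lit 0), [], Pd.none, Pd.none, (nat_lit 0), (nat_lit 1), (nat_lit 0), (nat_lit 0), (nat_lit 5), (nat_lit 0), [], [⟨(nat_lit 0), (nat_lit 100), (nat_lit 67), (nat_lit 65), (nat_lit 471511772)⟩], [], [⟨(nat_lit 1), (nat_lit 100), (nat_lit 84), (nat_lit 76), (nat_lit 112411157)⟩],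
 ⟨⟨[(nat_lit 40), (nat_lit 80), (nat_lit 120)], [(nat_lit 0), (nat_lit 795), (nat_lit 2800)], [((nat_lit 0), (nat_lit 0), (nat_lit 0)), ((nat_lit 1000), (nat_lit 814), (nat_lit 310)), ((nat_lit 1000), (nat_lit 719), (nat_lit 783))], ((nat_lit 71), (nat_lit 100), (nat_lit 71))⟩, (nat_lit 2501044), (nat_lit 250), (nat_lit 250), (nat_lit 0), (nat_lit 133137), [(nat_lit 2032000020), (nat_lit 4688000018), (nat_lit 7968000000)], [], [(nat_lit 24641916188), (nat_lit 25735093050), (nat_lit 33915683178), (nat_lit 35193920082), (nat_lit 23395846216), (nat_lit 24519804836), (nat_lit 30308840099), (nat_lit 31492686684)], (nat_lit 1271251), (nat_lit 1271251), (nat_lit 1271251), (nat_lit 1271251), (nat_lit 54688), (nat_lit 780000), [(nat_lit 490000), (nat_lit 1100000), (nat_lit 1785001)], [(nat_lit 4), (nat_lit 51), (nat_lit 238), (nat_lit 30), (nat_lit 7)]⟩,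
 ⟨⟨[(nat_lit 80), (nat_lit 120), (nat_lit 160)], [(nat_lit 0), (nat_lit 0), (nat_lit 2132)], [((nat_lit 0), (nat_lit 0), (nat_lit 0)), ((nat_lit 0), (nat_lit 0), (nat_lit 0)), ((nat_lit 858), (nat_lit 1000), (nat_lit 713))], ((nat_lit 100), (nat_lit 85), (nat_lit 73))⟩, (nat_lit 2971822), (nat_lit 366), (nat_lit 366), (nat_lit 0), (nat_lit 546469), [(nat_lit 4688000000), (nat_lit 7968000000), (nat_lit 11872000000)], [], [(nat_lit 28640977488), (nat_lit 29708502916), (nat_lit 34651133546), (nat_lit 35610729689), (nat_lit 33885155292), (nat_lit 34834655663), (nat_lit 38276167633), (nat_lit 38747776545)], (nat_lit 1271251), (nat_lit 1271251), (nat_lit 1271251), (nat_lit 1271251), (nat_lit 1271251), (nat_lit 1271251), [(nat_lit 1100000), (nat_lit 1785001), (nat_lit 1271251)], [(nat_lit 18), (nat_lit 59), (nat_lit 538), (nat_lit 300), (nat_lit 13)]⟩,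
 ⟨⟨[(nat_lit 140), (nat_lit 180), (nat_lit 200)], [(nat_lit 0), (nat_lit 0), (nat_lit 2835)], [((nat_lit 0), (nat_lit 0), (nat_lit 0)), ((nat_lit 0), (nat_lit 0), (nat_lit 0)), ((nat_lit 363), (nat_lit 1000), (nat_lit 798))], ((nat_lit 0), (nat_lit 0), (nat_lit 0))⟩, (nat_lit 106476), (nat_lit 300), (nat_lit 714), (nat_lit 30224703), (nat_lit 553310), [(nat_lit 3808854000), (nat_lit 5440446000), (nat_lit 6346800000)], [], [(nat_lit 25072243722), (nat_lit 23546199279), (nat_lit 20358593943), (nat_lit 22266311829), (nat_lit 26156450180), (nat_lit 24152217673), (nat_lit 20953310445), (nat_lit 19010920629)], (nat_lit 780000), (nat_lit 1598751), (nat_lit 54688), (nat_lit 780000), (nat_lit 1271251), (nat_lit 1271251), [(nat_lit 1977501), (nat_lit 1271251), (nat_lit 1271251)], [(nat_lit 32), (nat_lit 67), (nat_lit 428), (nat_lit 200), (nat_lit 9)]⟩⟩) (.leaf ⟨(nat_lit 0), (nat_lit 681), (nat_lit 0), (nat_lit 319), (nat_lit 0), (nat_lit 4721), (nat_lit 7613),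 (nat_lit 5032), (nat_lit 0), (nat_lit 0), (nat_lit 0), [], Pd.none, Pd.none, (nat_lit 0), (nat_lit 1), (nat_lit 0), (nat_lit 0), (nat_lit 5), (nat_lit 0), [], [⟨(nat_lit 0), (nat_lit 100), (nat_lit 67), (nat_lit 65), (nat_lit 253239495)⟩], [], [⟨(nat_lit 1), (nat_lit 100), (nat_lit 84), (nat_lit 76), (nat_lit 193518459)⟩],
 ⟨⟨[(nat_lit 40), (nat_lit 80), (nat_lit 120)], [(nat_lit 0), (nat_lit 795), (nat_lit 2800)], [((nat_lit 0), (nat_lit 0), (nat_lit 0)), ((nat_lit 1000), (nat_lit 814), (nat_lit 310)), ((nat_lit 1000), (nat_lit 719), (nat_lit 783))], ((nat_lit 71), (nat_lit 100), (nat_lit 71))⟩, (nat_lit 2560123), (nat_lit 269), (nat_lit 269), (nat_lit 0), (nat_lit 203696), [(nat_lit 2032000001), (nat_lit 4688000001), (nat_lit 7968000000)], [], [(nat_lit 24964361203), (nat_lit 26118741377), (nat_lit 34473054343), (nat_lit 35779431777), (nat_lit 23702190450), (nat_lit 24739138606), (nat_lit 30625204239), (nat_lit 31834448358)], (nat_lit 1271251), (nat_lit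 1271251), (nat_lit 1271251), (nat_lit 1271251), (nat_lit 54688), (nat_lit 780000), [(nat_lit 490000), (nat_lit 1100000), (nat_lit 1785001)], [(nat_lit 4), (nat_lit 51), (nat_lit 238), (nat_lit 30), (nat_lit 7)]⟩,
 ⟨⟨[(nat_lit 60), (nat_lit 100), (nat_lit 140)], [(nat_lit 0), (nat_lit 0), (nat_lit 2047)], [((nat_lit 0), (nat_lit 0), (nat_lit 0)), ((nat_lit 0), (nat_lit 0), (nat_lit 0)), ((nat_lit 1000), (nat_lit 993), (nat_lit 781))], ((nat_lit 99), (nat_lit 100), (nat_lit 77))⟩, (nat_lit 2542299), (nat_lit 357), (nat_lit 357), (nat_lit 0), (nat_lit 658042), [(nat_lit 3282000000), (nat_lit 6250000000), (nat_lit 9842000000)], [], [(nat_lit 25894095046), (nat_lit 27142994675), (nat_lit 31605308646), (nat_lit 32943659880), (nat_lit 30868625203), (nat_lit 31751839683), (nat_lit 37615772967), (nat_lit 38692105808)], (nat_lit 1271251), (nat_lit 1271251), (nat_lit 1271251), (nat_lit 1271251), (nat_lit 1271251), (nat_lit 1271251), [(nat_lit 780000), (nat_lit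 1435001), (nat_lit 1271251)], [(nat_lit 11), (nat_lit 55), (nat_lit 428), (nat_lit 200), (nat_lit 11)]⟩,
 ⟨⟨[(nat_lit 140), (nat_lit 180), (nat_lit 200)], [(nat_lit 0), (nat_lit 0), (nat_lit 2835)], [((nat_lit 0), (nat_lit 0), (nat_lit 0)), ((nat_lit 0), (nat_lit 0), (nat_lit 0)), ((nat_lit 363), (nat_lit 1000), (nat_lit 798))], ((nat_lit 0), (nat_lit 0), (nat_lit 0))⟩, (nat_lit 87767), (nat_lit 300), (nat_lit 855), (nat_lit 24913903), (nat_lit 845740), [(nat_lit 3139598000), (nat_lit 4484502000), (nat_lit 5231600000)], [], [(nat_lit 20667115745), (nat_lit 19408904486), (nat_lit 16781950044), (nat_lit 18353714914), (nat_lit 21560417783), (nat_lit 19908054052), (nat_lit 17271794960), (nat_lit 15670824874)], (nat_lit 780000), (nat_lit 1598751), (nat_lit 54688), (nat_lit 780000), (nat_lit 1271251), (nat_lit 1271251), [(nat_lit 1977501), (nat_lit 1271251), (nat_lit 1271251)], [(nat_lit 32), (nat_lit 67), (nat_lit 428), (nat_lit 200), (nat_lit 9)]⟩⟩))))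 (.trZ (nat_lit 0) (nat_lit 2) (nat_lit 4) (nat_lit 100) (nat_lit 72) (nat_lit 77) (nat_lit 70) (.spl (nat_lit 1) (nat_lit 280) (.ord (.trX (nat_lit 3) (nat_lit 0) (nat_lit 1) (nat_lit 78) (nat_lit 39) (nat_lit 100) (nat_lit 390) (.leaf ⟨(nat_lit 0), (nat_lit 441), (nat_lit 0), (nat_lit 559), (nat_lit 7265), (nat_lit 4982), (nat_lit 8690), (nat_lit 6045), (nat_lit 0), (nat_lit 5647), (nat_lit 0), [], Pd.none, Pd.none, (nat_lit 0), (nat_lit 1), (nat_lit 0), (nat_lit 0), (nat_lit 5), (nat_lit 0), [], [⟨(nat_lit 0), (nat_lit 100), (nat_lit 68), (nat_lit 92), (nat_lit 838498011)⟩], [⟨(nat_lit 0), (nat_lit 100), (nat_lit 99), (nat_lit 55), (nat_lit 136660585)⟩], [],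
 ⟨⟨[(nat_lit 40), (nat_lit 80), (nat_lit 120)], [(nat_lit 0), (nat_lit 795), (nat_lit 2800)], [((nat_lit 0), (nat_lit 0), (nat_lit 0)), ((nat_lit 1000), (nat_lit 814), (nat_lit 310)), ((nat_lit 1000), (nat_lit 719), (nat_lit 783))], ((nat_lit 71), (nat_lit 100), (nat_lit 71))⟩, (nat_lit 2569120), (nat_lit 177), (nat_lit 177), (nat_lit 0), (nat_lit 105020), [(nat_lit 2032000002), (nat_lit 4688000001), (nat_lit 7968000000)], [], [(nat_lit 21979370869), (nat_lit 23625237179), (nat_lit 31979845609), (nat_lit 33285732761), (nat_lit 21706191648), (nat_lit 23102863706), (nat_lit 31026034532), (nat_lit 32267457080)], (nat_lit 1271251), (nat_lit 1271251), (nat_lit 1271251), (nat_lit 1271251), (nat_lit 422188), (nat_lit 780000), [(nat_lit 490000), (nat_lit 1100000), (nat_lit 1785001)], [(nat_lit 4), (nat_lit 51), (nat_lit 238), (nat_lit 30), (nat_lit 7)]⟩,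
 ⟨⟨[(nat_lit 80), (nat_lit 120), (nat_lit 160)], [(nat_lit 0), (nat_lit 0), (nat_lit 2132)], [((nat_lit 0), (nat_lit 0), (nat_lit 0)), ((nat_lit 0), (nat_lit 0), (nat_lit 0)), ((nat_lit 858), (nat_lit 1000), (nat_lit 713))], ((nat_lit 100), (nat_lit 85), (nat_lit 73))⟩, (nat_lit 3349169), (nat_lit 492), (nat_lit 492), (nat_lit 0), (nat_lit 507311), [(nat_lit 4688000000), (nat_lit 7968000000), (nat_lit 11872000000)], [], [(nat_lit 33277028172), (nat_lit 34895240300), (nat_lit 40375040465), (nat_lit 41715020880), (nat_lit 33523914695), (nat_lit 33363460618), (nat_lit 37913485141), (nat_lit 39005721569)], (nat_lit 1271251), (nat_lit 1271251), (nat_lit 1271251), (nat_lit 1271251), (nat_lit 0), (nat_lit 2613125), [(nat_lit 1100000), (nat_lit 1785001), (nat_lit 1271251)], [(nat_lit 18), (nat_lit 59), (nat_lit 538), (nat_lit 300), (nat_lit 13)]⟩,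
 ⟨⟨[(nat_lit 100), (nat_lit 140), (nat_lit 180)], [(nat_lit 0), (nat_lit 508), (nat_lit 2854)], [((nat_lit 0), (nat_lit 0), (nat_lit 0)), ((nat_lit 1000), (nat_lit 1000), (nat_lit 198)), ((nat_lit 777), (nat_lit 1000), (nat_lit 712))], ((nat_lit 100), (nat_lit 77), (nat_lit 72))⟩, (nat_lit 356605), (nat_lit 300), (nat_lit 455), (nat_lit 38003734), (nat_lit 153742), [(nat_lit 3493750000), (nat_lit 5501678000), (nat_lit 7858422000)], [], [(nat_lit 30085083799), (nat_lit 30953943042), (nat_lit 28655022437), (nat_lit 29452214628), (nat_lit 32868642809), (nat_lit 26584298065), (nat_lit 35718812024), (nat_lit 27916311393)], (nat_lit 1271251), (nat_lit 1271251), (nat_lit 422188), (nat_lit 780000), (nat_lit 0), (nat_lit 2613125), [(nat_lit 1412501), (nat_lit 1271251), (nat_lit 1271251)], [(nat_lit 24), (nat_lit 63), (nat_lit 428), (nat_lit 200), (nat_lit 10)]⟩⟩))) (.trZ (nat_lit 1) (nat_lit 2) (nat_lit 5) (nat_lit 100) (nat_lit 92) (nat_lit 49) (nat_lit 20)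 (.leaf ⟨(nat_lit 0), (nat_lit 236), (nat_lit 0), (nat_lit 764), (nat_lit 0), (nat_lit 4809), (nat_lit 7953), (nat_lit 8252), (nat_lit 0), (nat_lit 14943), (nat_lit 0), [], Pd.none, Pd.none, (nat_lit 0), (nat_lit 1), (nat_lit 0), (nat_lit 0), (nat_lit 5), (nat_lit 0), [], [⟨(nat_lit 0), (nat_lit 100), (nat_lit 72), (nat_lit 77), (nat_lit 956398201)⟩], [⟨(nat_lit 0), (nat_lit 100), (nat_lit 92), (nat_lit 49), (nat_lit 424609308)⟩], [],
 ⟨⟨[(nat_lit 40), (nat_lit 80), (nat_lit 120)], [(nat_lit 0), (nat_lit 795), (nat_lit 2800)], [((nat_lit 0), (nat_lit 0), (nat_lit 0)), ((nat_lit 1000), (nat_lit 814), (nat_lit 310)), ((nat_lit 1000), (nat_lit 719), (nat_lit 783))], ((nat_lit 71), (nat_lit 100), (nat_lit 71))⟩, (nat_lit 2603820), (nat_lit 199), (nat_lit 199), (nat_lit 0), (nat_lit 177178), [(nat_lit 2032000184), (nat_lit 4688000030), (nat_lit 7968000000)], [], [(nat_lit 22091662019), (nat_lit 23438142345), (nat_lit 32403607258), (nat_lit 33641581899),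 (nat_lit 22042171243), (nat_lit 23281482668), (nat_lit 31474702074), (nat_lit 32653073539)], (nat_lit 1271251), (nat_lit 1271251), (nat_lit 1271251), (nat_lit 1271251), (nat_lit 422188), (nat_lit 780000), [(nat_lit 490000), (nat_lit 1100000), (nat_lit 1785001)], [(nat_lit 4), (nat_lit 51), (nat_lit 238), (nat_lit 30), (nat_lit 7)]⟩,
 ⟨⟨[(nat_lit 60), (nat_lit 100), (nat_lit 140)], [(nat_lit 0), (nat_lit 0), (nat_lit 2047)], [((nat_lit 0), (nat_lit 0), (nat_lit 0)), ((nat_lit 0), (nat_lit 0), (nat_lit 0)), ((nat_lit 1000), (nat_lit 993), (nat_lit 781))], ((nat_lit 99), (nat_lit 100), (nat_lit 77))⟩, (nat_lit 1299996), (nat_lit 496), (nat_lit 496), (nat_lit 0), (nat_lit 733313), [(nat_lit 3282000000), (nat_lit 6250000000), (nat_lit 9842000000)], [], [(nat_lit 32595437750), (nat_lit 33842002665), (nat_lit 39806346258), (nat_lit 41671482681), (nat_lit 32052254584), (nat_lit 33207615628), (nat_lit 38689164572), (nat_lit 39703494249)], (nat_lit 1271251),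 (nat_lit 1271251), (nat_lit 1271251), (nat_lit 1271251), (nat_lit 111251), (nat_lit 2648751), [(nat_lit 780000), (nat_lit 1435001), (nat_lit 1271251)], [(nat_lit 11), (nat_lit 55), (nat_lit 428), (nat_lit 200), (nat_lit 12)]⟩,
 ⟨⟨[(nat_lit 100), (nat_lit 140), (nat_lit 180)], [(nat_lit 0), (nat_lit 508), (nat_lit 2854)], [((nat_lit 0), (nat_lit 0), (nat_lit 0)), ((nat_lit 1000), (nat_lit 1000), (nat_lit 198)), ((nat_lit 777), (nat_lit 1000), (nat_lit 712))], ((nat_lit 100), (nat_lit 77), (nat_lit 72))⟩, (nat_lit 487381), (nat_lit 300), (nat_lit 481), (nat_lit 51940704), (nat_lit 261748), [(nat_lit 4775000000), (nat_lit 7519288000), (nat_lit 10740312000)], [], [(nat_lit 39740399937), (nat_lit 41930114269), (nat_lit 37911434824), (nat_lit 39848515910), (nat_lit 36298825706), (nat_lit 36599339455), (nat_lit 34264111789), (nat_lit 34474576536)], (nat_lit 1271251), (nat_lit 1271251), (nat_lit 422188), (nat_lit 780000), (nat_lit 111251), (nat_lit 2648751),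 [(nat_lit 1412501), (nat_lit 1271251), (nat_lit 1271251)], [(nat_lit 24), (nat_lit 63), (nat_lit 456), (nat_lit 225), (nat_lit 11)]⟩⟩)))))
noncomputable def c8_15 : Tr Lf :=
 (.leaf ⟨(nat_lit 1000), (nat_lit 0), (nat_lit 0), (nat_lit 0), (nat_lit 33910), (nat_lit 3096), (nat_lit 0), (nat_lit 0), (nat_lit 0), (nat_lit 0), (nat_lit 723200), [((nat_lit 360), [((nat_lit 22), (nat_lit 1), (nat_lit 130)), ((nat_lit 39), (nat_lit 2), (nat_lit 497)), ((nat_lit 22), (nat_lit 2), (nat_lit 373))])], ⟨(nat_lit 6), false, false, false, (nat_lit 164), (nat_lit 3162), (nat_lit 3873), [(nat_lit 1349867), (nat_lit 1361295), (nat_lit 1393396), (nat_lit 1405548), (nat_lit 1414421), (nat_lit 1422280), (nat_lit 1457950), (nat_lit 1466533)]⟩, ⟨(nat_lit 3), false, false, false, (nat_lit 93), (nat_lit 3162), (nat_lit 3873), [(nat_lit 1106311), (nat_lit 1121813), (nat_lit 1171604), (nat_lit 1188192), (nat_lit 1283782), (nat_lit 1289472), (nat_lit 1349127), (nat_lit 1355902)]⟩,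 (nat_lit 3368445), (nat_lit 53151115), (nat_lit 9746745), (nat_lit 4102140), (nat_lit 0), (nat_lit 0), [⟨(nat_lit 0), (nat_lit 100), (nat_lit 69), (nat_lit 96), (nat_lit 1438690180)⟩], [⟨(nat_lit 0), (nat_lit 100), (nat_lit 68), (nat_lit 58), (nat_lit 100028919)⟩], [], [],
 ⟨⟨[(nat_lit 40), (nat_lit 80), (nat_lit 120)], [(nat_lit 0), (nat_lit 795), (nat_lit 2800)], [((nat_lit 0), (nat_lit 0), (nat_lit 0)), ((nat_lit 1000), (nat_lit 814), (nat_lit 310)), ((nat_lit 1000), (nat_lit 719), (nat_lit 783))], ((nat_lit 72), (nat_lit 100), (nat_lit 81))⟩, (nat_lit 0), (nat_lit 190), (nat_lit 190), (nat_lit 0), (nat_lit 48336), [(nat_lit 1307217296), (nat_lit 665377413), (nat_lit 0)], [(nat_lit 0), (nat_lit 0), (nat_lit 1389372737)], [(nat_lit 18632093973), (nat_lit 19985977542), (nat_lit 19078020660), (nat_lit 20250002667), (nat_lit 18365617640), (nat_lit 19476633580), (nat_lit 18798850134), (nat_lit 19860735802)], (nat_lit 1271251), (nat_lit 1271251), (nat_lit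 490000), (nat_lit 780000), (nat_lit 54688), (nat_lit 780000), [(nat_lit 490000), (nat_lit 1100000), (nat_lit 1785001)], [(nat_lit 4), (nat_lit 51), (nat_lit 272), (nat_lit 60), (nat_lit 9)]⟩,
 Rw.none,
 Rw.none⟩)
noncomputable def c8_16 : Tr Lf :=
 (.spl (nat_lit 3) (nat_lit 200) (.spl (nat_lit 0) (nat_lit 350) (.spl (nat_lit 6) (nat_lit 68) (.spl (nat_lit 5) (nat_lit 200) (.leaf ⟨(nat_lit 481), (nat_lit 519), (nat_lit 0), (nat_lit 0), (nat_lit 22840), (nat_lit 3414), (nat_lit 3546), (nat_lit 0), (nat_lit 0), (nat_lit 0), (nat_lit 374200), [((nat_lit 350), [((nat_lit 39), (nat_lit 2), (nat_lit 267)), ((nat_lit 22), (nat_lit 2), (nat_lit 214))])], ⟨(nat_lit 6), false, false, false, (nat_lit 201), (nat_lit 3535), (nat_lit 3873), [(nat_lit 1414519), (nat_lit 1418358), (nat_lit 1458093), (nat_lit 1462251), (nat_lit 1543574), (nat_lit 1543892), (nat_lit 1587148), (nat_lit 1587785)]⟩, ⟨(nat_lit 3), false, false, false, (nat_lit 79), (nat_lit 3535), (nat_lit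 3873), [(nat_lit 1106345), (nat_lit 1114069), (nat_lit 1171707), (nat_lit 1179909), (nat_lit 1219261), (nat_lit 1223904), (nat_lit 1284630), (nat_lit 1289751)]⟩, (nat_lit 3585098), (nat_lit 50439737), (nat_lit 13371648), (nat_lit 3188615), (nat_lit 3), (nat_lit 0), [], [⟨(nat_lit 0), (nat_lit 100), (nat_lit 71), (nat_lit 55), (nat_lit 56466401)⟩], [], [],
 ⟨⟨[(nat_lit 40), (nat_lit 80), (nat_lit 120)], [(nat_lit 0), (nat_lit 795), (nat_lit 2800)], [((nat_lit 0), (nat_lit 0), (nat_lit 0)), ((nat_lit 1000), (nat_lit 814), (nat_lit 310)), ((nat_lit 1000), (nat_lit 719), (nat_lit 783))], ((nat_lit 72), (nat_lit 100), (nat_lit 75))⟩, (nat_lit 1440434), (nat_lit 167), (nat_lit 167), (nat_lit 0), (nat_lit 28409), [(nat_lit 1643691337), (nat_lit 2644587900), (nat_lit 3210828700)], [(nat_lit 0), (nat_lit 0), (nat_lit 0)], [(nat_lit 19319923706), (nat_lit 20080576228), (nat_lit 20833939363), (nat_lit 21473825293), (nat_lit 18144689846), (nat_lit 18826851271),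 (nat_lit 19673380657), (nat_lit 20335097678)], (nat_lit 1271251), (nat_lit 1271251), (nat_lit 780000), (nat_lit 1435001), (nat_lit 54688), (nat_lit 490000), [(nat_lit 490000), (nat_lit 1100000), (nat_lit 1785001)], [(nat_lit 4), (nat_lit 51), (nat_lit 289), (nat_lit 75), (nat_lit 9)]⟩,
 ⟨⟨[(nat_lit 80), (nat_lit 140), (nat_lit 180)], [(nat_lit 0), (nat_lit 0), (nat_lit 3656)], [((nat_lit 0), (nat_lit 0), (nat_lit 0)), ((nat_lit 0), (nat_lit 0), (nat_lit 0)), ((nat_lit 637), (nat_lit 1000), (nat_lit 908))], ((nat_lit 100), (nat_lit 81), (nat_lit 77))⟩, (nat_lit 0), (nat_lit 389), (nat_lit 389), (nat_lit 0), (nat_lit 74260), [(nat_lit 2433072000), (nat_lit 5107998000), (nat_lit 7296102000)], [], [(nat_lit 24233021898), (nat_lit 25073459301), (nat_lit 24278051274), (nat_lit 25002438495), (nat_lit 24981041550), (nat_lit 22695031508), (nat_lit 29247710316), (nat_lit 26136176874)], (nat_lit 1271251), (nat_lit 1271251), (nat_lit 780000), (nat_lit 1435001),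 (nat_lit 0), (nat_lit 1412501), [(nat_lit 1100000), (nat_lit 2127501), (nat_lit 1271251)], [(nat_lit 19), (nat_lit 63), (nat_lit 401), (nat_lit 175), (nat_lit 9)]⟩,
 Rw.none⟩) (.leaf ⟨(nat_lit 0), (nat_lit 489), (nat_lit 0), (nat_lit 511), (nat_lit 28905), (nat_lit 3811), (nat_lit 11075), (nat_lit 5652), (nat_lit 0), (nat_lit 0), (nat_lit 0), [], Pd.none, Pd.none, (nat_lit 0), (nat_lit 1), (nat_lit 0), (nat_lit 0), (nat_lit 5), (nat_lit 0), [⟨(nat_lit 0), (nat_lit 96), (nat_lit 69), (nat_lit 100), (nat_lit 88508568)⟩], [⟨(nat_lit 0), (nat_lit 100), (nat_lit 78), (nat_lit 39), (nat_lit 741773310)⟩], [], [],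
 ⟨⟨[(nat_lit 40), (nat_lit 80), (nat_lit 120)], [(nat_lit 0), (nat_lit 795), (nat_lit 2800)], [((nat_lit 0), (nat_lit 0), (nat_lit 0)), ((nat_lit 1000), (nat_lit 814), (nat_lit 310)), ((nat_lit 1000), (nat_lit 719), (nat_lit 783))], ((nat_lit 72), (nat_lit 100), (nat_lit 75))⟩, (nat_lit 2965768), (nat_lit 167), (nat_lit 167), (nat_lit 0), (nat_lit 28409), [(nat_lit 2032000055), (nat_lit 4688000077), (nat_lit 7968000000)], [], [(nat_lit 20026253735), (nat_lit 20786827321), (nat_lit 21715862070), (nat_lit 22492676537), (nat_lit 18589995684), (nat_lit 19366544188), (nat_lit 20355017345), (nat_lit 21090542189)], (nat_lit 1271251), (nat_lit 1271251), (nat_lit 780000), (nat_lit 1435001), (nat_lit 54688), (nat_lit 490000), [(nat_lit 490000), (nat_lit 1100000), (nat_lit 1785001)], [(nat_lit 4), (nat_lit 51), (nat_lit 289), (nat_lit 75), (nat_lit 9)]⟩,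
 ⟨⟨[(nat_lit 80), (nat_lit 140), (nat_lit 180)], [(nat_lit 0), (nat_lit 0), (nat_lit 3656)], [((nat_lit 0), (nat_lit 0), (nat_lit 0)), ((nat_lit 0), (nat_lit 0), (nat_lit 0)), ((nat_lit 637), (nat_lit 1000), (nat_lit 908))], ((nat_lit 100), (nat_lit 81), (nat_lit 77))⟩, (nat_lit 2273384), (nat_lit 224), (nat_lit 224), (nat_lit 0), (nat_lit 74260), [(nat_lit 4688000000), (nat_lit 9842000000), (nat_lit 14058000000)], [], [(nat_lit 24780718225), (nat_lit 26604079359), (nat_lit 35391146450), (nat_lit 25920542296), (nat_lit 36002934896), (nat_lit 37023037575), (nat_lit 33999730700), (nat_lit 35658195075)], (nat_lit 1271251), (nat_lit 1271251), (nat_lit 780000), (nat_lit 1435001), (nat_lit 1271251), (nat_lit 1271251), [(nat_lit 1100000), (nat_lit 2127501), (nat_lit 1271251)], [(nat_lit 19), (nat_lit 63), (nat_lit 456), (nat_lit 225), (nat_lit 10)]⟩,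
 ⟨⟨[(nat_lit 140), (nat_lit 180), (nat_lit 200)], [(nat_lit 0), (nat_lit 0), (nat_lit 2835)], [((nat_lit 0), (nat_lit 0), (nat_lit 0)), ((nat_lit 0), (nat_lit 0), (nat_lit 0)), ((nat_lit 363), (nat_lit 1000), (nat_lit 798))], ((nat_lit 0), (nat_lit 0), (nat_lit 0))⟩, (nat_lit 140593), (nat_lit 300), (nat_lit 518), (nat_lit 39909100), (nat_lit 170000), [(nat_lit 5029262000), (nat_lit 7183638000), (nat_lit 8380400000)], [], [(nat_lit 33707537114), (nat_lit 32701658316), (nat_lit 30422310874), (nat_lit 29475518250), (nat_lit 34576739277), (nat_lit 33339646360), (nat_lit 31259138262), (nat_lit 30052450668)], (nat_lit 780000), (nat_lit 1271251), (nat_lit 54688), (nat_lit 490000), (nat_lit 1271251), (nat_lit 1271251), [(nat_lit 1977501), (nat_lit 1271251), (nat_lit 1271251)], [(nat_lit 32), (nat_lit 67), (nat_lit 401), (nat_lit 175), (nat_lit 9)]⟩⟩)) (.dle (nat_lit 0))) (.spl (nat_lit 2) (nat_lit 160) (.trX (nat_lit 5) (nat_lit 1) (nat_lit 2) (nat_lit 100)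 (nat_lit 40) (nat_lit 100) (nat_lit 390) (.spl (nat_lit 1) (nat_lit 260) (.spl (nat_lit 6) (nat_lit 68) (.leaf ⟨(nat_lit 1000), (nat_lit 0), (nat_lit 0), (nat_lit 0), (nat_lit 9728), (nat_lit 3050), (nat_lit 0), (nat_lit 0), (nat_lit 0), (nat_lit 0), (nat_lit 360100), [((nat_lit 360), [((nat_lit 22), (nat_lit 0), (nat_lit 266)), ((nat_lit 22), (nat_lit 1), (nat_lit 734))])], ⟨(nat_lit 6), false, false, false, (nat_lit 197), (nat_lit 3162), (nat_lit 3536), [(nat_lit 1418344), (nat_lit 1422365), (nat_lit 1440289), (nat_lit 1444512), (nat_lit 1543888), (nat_lit 1544293), (nat_lit 1565832), (nat_lit 1566439)]⟩, ⟨(nat_lit 3), false, false, false, (nat_lit 78), (nat_lit 3162), (nat_lit 3536), [(nat_lit 1114056), (nat_lit 1121835), (nat_lit 1157945), (nat_lit 1166129), (nat_lit 1223904), (nat_lit 1228519), (nat_lit 1267795), (nat_lit 1272815)]⟩, (nat_lit 3524132), (nat_lit 50885647), (nat_lit 13030331), (nat_lit 3084022), (nat_lit 0), (nat_lit 0), [], [⟨(nat_lit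 0), (nat_lit 100), (nat_lit 66), (nat_lit 58), (nat_lit 166846807)⟩], [], [],
 ⟨⟨[(nat_lit 40), (nat_lit 80), (nat_lit 120)], [(nat_lit 0), (nat_lit 1195), (nat_lit 3135)], [((nat_lit 0), (nat_lit 0), (nat_lit 0)), ((nat_lit 1000), (nat_lit 720), (nat_lit 465)), ((nat_lit 1000), (nat_lit 661), (nat_lit 757))], ((nat_lit 66), (nat_lit 100), (nat_lit 75))⟩, (nat_lit 903022), (nat_lit 174), (nat_lit 174), (nat_lit 0), (nat_lit 29426), [(nat_lit 1374224004), (nat_lit 1648656183), (nat_lit 1756335939)], [(nat_lit 0), (nat_lit 0), (nat_lit 0)], [(nat_lit 19626598104), (nat_lit 20346416719), (nat_lit 21111833327), (nat_lit 21719517507), (nat_lit 18663137236), (nat_lit 19309744323), (nat_lit 20161118023), (nat_lit 20765085651)], (nat_lit 1271251), (nat_lit 1271251), (nat_lit 780000), (nat_lit 1435001), (nat_lit 54688), (nat_lit 490000), [(nat_lit 490000), (nat_lit 1100000), (nat_lit 1785001)], [(nat_lit 4), (nat_lit 51), (nat_lit 289), (nat_lit 75), (nat_lit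 9)]⟩,
 Rw.none,
 Rw.none⟩) (.dle (nat_lit 0))) (.trX (nat_lit 5) (nat_lit 1) (nat_lit 2) (nat_lit 97) (nat_lit 49) (nat_lit 100) (nat_lit 380) (.spl (nat_lit 5) (nat_lit 200) (.leaf ⟨(nat_lit 0), (nat_lit 1000), (nat_lit 0), (nat_lit 0), (nat_lit 17226), (nat_lit 4298), (nat_lit 6820), (nat_lit 0), (nat_lit 0), (nat_lit 0), (nat_lit 0), [], Pd.none, Pd.none, (nat_lit 0), (nat_lit 1), (nat_lit 0), (nat_lit 0), (nat_lit 3), (nat_lit 0), [], [], [], [],
 ⟨⟨[(nat_lit 40), (nat_lit 80), (nat_lit 120)], [(nat_lit 0), (nat_lit 1195), (nat_lit 3135)], [((nat_lit 0), (nat_lit 0), (nat_lit 0)), ((nat_lit 1000), (nat_lit 720), (nat_lit 465)), ((nat_lit 1000), (nat_lit 661), (nat_lit 757))], ((nat_lit 66), (nat_lit 100), (nat_lit 80))⟩, (nat_lit 2374612), (nat_lit 189), (nat_lit 189), (nat_lit 0), (nat_lit 87161), [(nat_lit 2032000057), (nat_lit 4688000073), (nat_lit 7968000000)], [], [(nat_lit 21916461549), (nat_lit 22776282130), (nat_lit 23168088710), (nat_lit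 23994103743), (nat_lit 20417486614), (nat_lit 21066383974), (nat_lit 21606544080), (nat_lit 22183243288)], (nat_lit 1271251), (nat_lit 1271251), (nat_lit 780000), (nat_lit 1435001), (nat_lit 54688), (nat_lit 490000), [(nat_lit 490000), (nat_lit 1100000), (nat_lit 1785001)], [(nat_lit 4), (nat_lit 51), (nat_lit 289), (nat_lit 75), (nat_lit 9)]⟩,
 ⟨⟨[(nat_lit 80), (nat_lit 120), (nat_lit 160)], [(nat_lit 0), (nat_lit 528), (nat_lit 2577)], [((nat_lit 0), (nat_lit 0), (nat_lit 0)), ((nat_lit 1000), (nat_lit 959), (nat_lit 206)), ((nat_lit 929), (nat_lit 1000), (nat_lit 742))], ((nat_lit 100), (nat_lit 85), (nat_lit 84))⟩, (nat_lit 0), (nat_lit 359), (nat_lit 359), (nat_lit 0), (nat_lit 183996), [(nat_lit 4688000000), (nat_lit 7968000000), (nat_lit 11872000000)], [], [(nat_lit 39354009910), (nat_lit 40240139540), (nat_lit 39805844190), (nat_lit 40569450700), (nat_lit 38696542105), (nat_lit 36904856770), (nat_lit 46825912605), (nat_lit 43795624630)], (nat_lit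 1271251), (nat_lit 1271251), (nat_lit 780000), (nat_lit 1435001), (nat_lit 0), (nat_lit 1412501), [(nat_lit 1100000), (nat_lit 1785001), (nat_lit 1271251)], [(nat_lit 18), (nat_lit 59), (nat_lit 401), (nat_lit 175), (nat_lit 10)]⟩,
 Rw.none⟩) (.leaf ⟨(nat_lit 0), (nat_lit 748), (nat_lit 0), (nat_lit 252), (nat_lit 14227), (nat_lit 3770), (nat_lit 10125), (nat_lit 3179), (nat_lit 0), (nat_lit 0), (nat_lit 0), [], Pd.none, Pd.none, (nat_lit 0), (nat_lit 1), (nat_lit 0), (nat_lit 0), (nat_lit 5), (nat_lit 0), [⟨(nat_lit 0), (nat_lit 99), (nat_lit 67), (nat_lit 100), (nat_lit 693480012)⟩], [⟨(nat_lit 0), (nat_lit 100), (nat_lit 72), (nat_lit 46), (nat_lit 380867691)⟩], [⟨(nat_lit 1), (nat_lit 64), (nat_lit 98), (nat_lit 100), (nat_lit 267495821)⟩], [],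
 ⟨⟨[(nat_lit 40), (nat_lit 80), (nat_lit 120)], [(nat_lit 0), (nat_lit 1195), (nat_lit 3135)], [((nat_lit 0), (nat_lit 0), (nat_lit 0)), ((nat_lit 1000), (nat_lit 720), (nat_lit 465)), ((nat_lit 1000), (nat_lit 661), (nat_lit 757))], ((nat_lit 66), (nat_lit 100), (nat_lit 80))⟩, (nat_lit 2752027), (nat_lit 189), (nat_lit 189), (nat_lit 0), (nat_lit 87161), [(nat_lit 2032000024), (nat_lit 4688000080), (nat_lit 7968000000)], [], [(nat_lit 20948194707), (nat_lit 21601751080), (nat_lit 22300517710), (nat_lit 23031778797), (nat_lit 19805169254), (nat_lit 20413043654), (nat_lit 21129085259), (nat_lit 21747775634)], (nat_lit 1271251), (nat_lit 1271251), (nat_lit 780000), (nat_lit 1435001), (nat_lit 54688), (nat_lit 490000), [(nat_lit 490000), (nat_lit 1100000), (nat_lit 1785001)], [(nat_lit 4), (nat_lit 51), (nat_lit 289), (nat_lit 75), (nat_lit 9)]⟩,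
 ⟨⟨[(nat_lit 80), (nat_lit 120), (nat_lit 160)], [(nat_lit 0), (nat_lit 528), (nat_lit 2577)], [((nat_lit 0), (nat_lit 0), (nat_lit 0)), ((nat_lit 1000), (nat_lit 959), (nat_lit 206)), ((nat_lit 929), (nat_lit 1000), (nat_lit 742))], ((nat_lit 100), (nat_lit 85), (nat_lit 84))⟩, (nat_lit 2390671), (nat_lit 222), (nat_lit 222), (nat_lit 0), (nat_lit 183996), [(nat_lit 4688000000), (nat_lit 7968000000), (nat_lit 11872000000)], [], [(nat_lit 21373768615), (nat_lit 22814857521), (nat_lit 22336357556), (nat_lit 22884838833), (nat_lit 32390459177), (nat_lit 33110895771), (nat_lit 31039593329), (nat_lit 32255569907)], (nat_lit 1271251), (nat_lit 1271251), (nat_lit 780000), (nat_lit 1435001), (nat_lit 1271251), (nat_lit 1271251), [(nat_lit 1100000), (nat_lit 1785001), (nat_lit 1271251)], [(nat_lit 18), (nat_lit 59), (nat_lit 456), (nat_lit 225), (nat_lit 11)]⟩,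
 ⟨⟨[(nat_lit 140), (nat_lit 180), (nat_lit 200)], [(nat_lit 0), (nat_lit 0), (nat_lit 2835)], [((nat_lit 0), (nat_lit 0), (nat_lit 0)), ((nat_lit 0), (nat_lit 0), (nat_lit 0)), ((nat_lit 363), (nat_lit 1000), (nat_lit 798))], ((nat_lit 0), (nat_lit 0), (nat_lit 0))⟩, (nat_lit 69333), (nat_lit 300), (nat_lit 720), (nat_lit 19681205), (nat_lit 567566), [(nat_lit 2480184000), (nat_lit 3542616000), (nat_lit 4132800000)], [], [(nat_lit 17243878381), (nat_lit 16722415782), (nat_lit 15426057062), (nat_lit 14929374320), (nat_lit 16951035840), (nat_lit 16398379108), (nat_lit 15138970629), (nat_lit 14590858823)], (nat_lit 780000), (nat_lit 1100000), (nat_lit 54688), (nat_lit 490000), (nat_lit 1271251), (nat_lit 1271251), [(nat_lit 1977501), (nat_lit 1271251), (nat_lit 1271251)], [(nat_lit 32), (nat_lit 67), (nat_lit 401), (nat_lit 175), (nat_lit 9)]⟩⟩))))) (.trZ (nat_lit 0) (nat_lit 2) (nat_lit 4) (nat_lit 100) (nat_lit 68) (nat_lit 61) (nat_lit 40) (.spl (nat_lit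 6) (nat_lit 64) (.leaf ⟨(nat_lit 1000), (nat_lit 0), (nat_lit 0), (nat_lit 0), (nat_lit 8493), (nat_lit 3689), (nat_lit 0), (nat_lit 0), (nat_lit 0), (nat_lit 0), (nat_lit 250000), [((nat_lit 360), [((nat_lit 22), (nat_lit 0), (nat_lit 1000))])], ⟨(nat_lit 6), false, false, false, (nat_lit 202), (nat_lit 3162), (nat_lit 3536), [(nat_lit 1418344), (nat_lit 1422365), (nat_lit 1462233), (nat_lit 1466658), (nat_lit 1543888), (nat_lit 1544293), (nat_lit 1587777), (nat_lit 1588586)]⟩, ⟨(nat_lit 4), false, false, false, (nat_lit 100), (nat_lit 3162), (nat_lit 3536), [(nat_lit 1205023), (nat_lit 1211851), (nat_lit 1226968), (nat_lit 1233998), (nat_lit 1267795), (nat_lit 1272815), (nat_lit 1289740), (nat_lit 1294962)]⟩, (nat_lit 3877287), (nat_lit 49132085), (nat_lit 13366469), (nat_lit 4501446), (nat_lit 0), (nat_lit 0), [], [⟨(nat_lit 0), (nat_lit 100), (nat_lit 64), (nat_lit 68), (nat_lit 266359729)⟩], [], [],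
 ⟨⟨[(nat_lit 40), (nat_lit 80), (nat_lit 100)], [(nat_lit 0), (nat_lit 1195), (nat_lit 2166)], [((nat_lit 0), (nat_lit 0), (nat_lit 0)), ((nat_lit 1000), (nat_lit 720), (nat_lit 465)), ((nat_lit 1000), (nat_lit 662), (nat_lit 740))], ((nat_lit 66), (nat_lit 100), (nat_lit 73))⟩, (nat_lit 700933), (nat_lit 136), (nat_lit 136), (nat_lit 0), (nat_lit 26882), [(nat_lit 1568000111), (nat_lit 2134258833), (nat_lit 2330800000)], [(nat_lit 0), (nat_lit 0), (nat_lit 0)], [(nat_lit 19599498750), (nat_lit 20437715588), (nat_lit 21146211336), (nat_lit 21887606094), (nat_lit 18656091463), (nat_lit 19443687691), (nat_lit 20247952083), (nat_lit 20925748975)], (nat_lit 1271251), (nat_lit 1271251), (nat_lit 780000), (nat_lit 1435001), (nat_lit 230000), (nat_lit 490000), [(nat_lit 490000), (nat_lit 1100000), (nat_lit 1442501)], [(nat_lit 3), (nat_lit 50), (nat_lit 289), (nat_lit 75), (nat_lit 11)]⟩,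
 Rw.none,
 Rw.none⟩) (.dle (nat_lit 0)))))) (.trX (nat_lit 5) (nat_lit 3) (nat_lit 4) (nat_lit 100) (nat_lit 60) (nat_lit 80) (nat_lit 360) (.spl (nat_lit 1) (nat_lit 260) (.spl (nat_lit 6) (nat_lit 68) (.leaf ⟨(nat_lit 780), (nat_lit 183), (nat_lit 0), (nat_lit 37), (nat_lit 11348), (nat_lit 3323), (nat_lit 1374), (nat_lit 475), (nat_lit 0), (nat_lit 0), (nat_lit 437550), [((nat_lit 360), [((nat_lit 22), (nat_lit 0), (nat_lit 87)), ((nat_lit 39), (nat_lit 2), (nat_lit 693))])], ⟨(nat_lit 6), false, true, false, (nat_lit 234), (nat_lit 3162), (nat_lit 3873), [(nat_lit 1543529), (nat_lit 1544252), (nat_lit 1565293), (nat_lit 1566378), (nat_lit 1608082), (nat_lit 1605237), (nat_lit 1629847), (nat_lit 1627364)]⟩, ⟨(nat_lit 3), false, false, false, (nat_lit 81), (nat_lit 3162), (nat_lit 3873), [(nat_lit 1106311), (nat_lit 1121813), (nat_lit 1171604), (nat_lit 1188192), (nat_lit 1219261), (nat_lit 1228519), (nat_lit 1284573), (nat_lit 1294916)]⟩, (nat_lit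 3894449), (nat_lit 47043910), (nat_lit 16764532), (nat_lit 3191558), (nat_lit 3), (nat_lit 0), [], [⟨(nat_lit 0), (nat_lit 100), (nat_lit 68), (nat_lit 58), (nat_lit 202884539)⟩], [], [],
 ⟨⟨[(nat_lit 40), (nat_lit 80), (nat_lit 120)], [(nat_lit 0), (nat_lit 795), (nat_lit 2800)], [((nat_lit 0), (nat_lit 0), (nat_lit 0)), ((nat_lit 1000), (nat_lit 814), (nat_lit 310)), ((nat_lit 1000), (nat_lit 719), (nat_lit 783))], ((nat_lit 72), (nat_lit 100), (nat_lit 75))⟩, (nat_lit 879767), (nat_lit 162), (nat_lit 162), (nat_lit 0), (nat_lit 29489), [(nat_lit 1443049615), (nat_lit 1865291695), (nat_lit 1757072369)], [(nat_lit 0), (nat_lit 0), (nat_lit 0)], [(nat_lit 20887029735), (nat_lit 22221052185), (nat_lit 22017323508), (nat_lit 23515175920), (nat_lit 19729924179), (nat_lit 21018412825), (nat_lit 20948660839), (nat_lit 22150989358)], (nat_lit 1271251), (nat_lit 1271251), (nat_lit 1271251), (nat_lit 1271251), (nat_lit 54688), (nat_lit 490000), [(nat_lit 490000),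 (nat_lit 1100000), (nat_lit 1785001)], [(nat_lit 4), (nat_lit 51), (nat_lit 317), (nat_lit 100), (nat_lit 10)]⟩,
 ⟨⟨[(nat_lit 80), (nat_lit 140), (nat_lit 180)], [(nat_lit 0), (nat_lit 0), (nat_lit 3656)], [((nat_lit 0), (nat_lit 0), (nat_lit 0)), ((nat_lit 0), (nat_lit 0), (nat_lit 0)), ((nat_lit 637), (nat_lit 1000), (nat_lit 908))], ((nat_lit 100), (nat_lit 81), (nat_lit 77))⟩, (nat_lit 0), (nat_lit 292), (nat_lit 292), (nat_lit 0), (nat_lit 75964), [(nat_lit 1031360000), (nat_lit 2165240000), (nat_lit 3092760000)], [], [(nat_lit 8670348704), (nat_lit 8772743787), (nat_lit 8775523520), (nat_lit 8980628118), (nat_lit 10414111108), (nat_lit 9811284409), (nat_lit 9193314856), (nat_lit 9181958741)], (nat_lit 1271251), (nat_lit 1271251), (nat_lit 1271251), (nat_lit 1271251), (nat_lit 0), (nat_lit 2542501), [(nat_lit 1100000), (nat_lit 2127501), (nat_lit 1271251)], [(nat_lit 19), (nat_lit 63), (nat_lit 456), (nat_lit 225), (nat_lit 10)]⟩,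
 ⟨⟨[(nat_lit 140), (nat_lit 180), (nat_lit 200)], [(nat_lit 0), (nat_lit 0), (nat_lit 2835)], [((nat_lit 0), (nat_lit 0), (nat_lit 0)), ((nat_lit 0), (nat_lit 0), (nat_lit 0)), ((nat_lit 363), (nat_lit 1000), (nat_lit 798))], ((nat_lit 0), (nat_lit 0), (nat_lit 0))⟩, (nat_lit 10180), (nat_lit 300), (nat_lit 706), (nat_lit 2889700), (nat_lit 190213), [(nat_lit 364154000), (nat_lit 520146000), (nat_lit 606800000)], [], [(nat_lit 3538206869), (nat_lit 3139179195), (nat_lit 2924268816), (nat_lit 2689103454), (nat_lit 2468781697), (nat_lit 2399760139), (nat_lit 2198082548), (nat_lit 2528296560)], (nat_lit 780000), (nat_lit 1271251), (nat_lit 54688), (nat_lit 490000), (nat_lit 0), (nat_lit 2542501), [(nat_lit 1977501), (nat_lit 1271251), (nat_lit 1271251)], [(nat_lit 32), (nat_lit 67), (nat_lit 401), (nat_lit 175), (nat_lit 9)]⟩⟩) (.dle (nat_lit 0))) (.leaf ⟨(nat_lit 0), (nat_lit 880), (nat_lit 0), (nat_lit 120), (nat_lit 3479), (nat_lit 4771), (nat_lit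 9127), (nat_lit 1385), (nat_lit 0), (nat_lit 0), (nat_lit 0), [], Pd.none, Pd.none, (nat_lit 0), (nat_lit 1), (nat_lit 0), (nat_lit 0), (nat_lit 3), (nat_lit 0), [], [⟨(nat_lit 0), (nat_lit 100), (nat_lit 68), (nat_lit 58), (nat_lit 219027568)⟩], [], [],
 ⟨⟨[(nat_lit 40), (nat_lit 80), (nat_lit 120)], [(nat_lit 0), (nat_lit 795), (nat_lit 2800)], [((nat_lit 0), (nat_lit 0), (nat_lit 0)), ((nat_lit 1000), (nat_lit 814), (nat_lit 310)), ((nat_lit 1000), (nat_lit 719), (nat_lit 783))], ((nat_lit 72), (nat_lit 100), (nat_lit 81))⟩, (nat_lit 2421830), (nat_lit 178), (nat_lit 178), (nat_lit 0), (nat_lit 88013), [(nat_lit 2032000411), (nat_lit 4688000067), (nat_lit 7968000000)], [], [(nat_lit 23489766524), (nat_lit 24856186507), (nat_lit 24512089987), (nat_lit 26210183746), (nat_lit 21597508568), (nat_lit 22812759364), (nat_lit 22550750354), (nat_lit 23716020395)], (nat_lit 1271251), (nat_lit 1271251), (nat_lit 1271251), (nat_lit 1271251), (nat_lit 54688),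 (nat_lit 490000), [(nat_lit 490000), (nat_lit 1100000), (nat_lit 1785001)], [(nat_lit 4), (nat_lit 51), (nat_lit 317), (nat_lit 100), (nat_lit 10)]⟩,
 ⟨⟨[(nat_lit 80), (nat_lit 120), (nat_lit 160)], [(nat_lit 0), (nat_lit 528), (nat_lit 2577)], [((nat_lit 0), (nat_lit 0), (nat_lit 0)), ((nat_lit 1000), (nat_lit 959), (nat_lit 206)), ((nat_lit 929), (nat_lit 1000), (nat_lit 742))], ((nat_lit 100), (nat_lit 85), (nat_lit 84))⟩, (nat_lit 0), (nat_lit 335), (nat_lit 335), (nat_lit 0), (nat_lit 185050), [(nat_lit 4688000000), (nat_lit 7968000000), (nat_lit 11872000000)], [], [(nat_lit 37552578768), (nat_lit 38595566032), (nat_lit 38338158573), (nat_lit 39277432010), (nat_lit 36377251797), (nat_lit 36828409918), (nat_lit 36352399559), (nat_lit 36930052148)], (nat_lit 1271251), (nat_lit 1271251), (nat_lit 1271251), (nat_lit 1271251), (nat_lit 0), (nat_lit 2542501), [(nat_lit 1100000), (nat_lit 1785001), (nat_lit 1271251)], [(nat_lit 18), (nat_lit 59), (nat_lit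 456), (nat_lit 225), (nat_lit 11)]⟩,
 ⟨⟨[(nat_lit 140), (nat_lit 180), (nat_lit 200)], [(nat_lit 0), (nat_lit 0), (nat_lit 2835)], [((nat_lit 0), (nat_lit 0), (nat_lit 0)), ((nat_lit 0), (nat_lit 0), (nat_lit 0)), ((nat_lit 363), (nat_lit 1000), (nat_lit 798))], ((nat_lit 0), (nat_lit 0), (nat_lit 0))⟩, (nat_lit 33016), (nat_lit 300), (nat_lit 876), (nat_lit 9372000), (nat_lit 567566), [(nat_lit 1181040000), (nat_lit 1686960000), (nat_lit 1968000000)], [], [(nat_lit 10872525817), (nat_lit 9834412750), (nat_lit 9382760540), (nat_lit 9064476555), (nat_lit 8238190235), (nat_lit 7917841138), (nat_lit 7534614950), (nat_lit 7987451163)], (nat_lit 780000), (nat_lit 1271251), (nat_lit 54688), (nat_lit 490000), (nat_lit 0), (nat_lit 2542501), [(nat_lit 1977501), (nat_lit 1271251), (nat_lit 1271251)], [(nat_lit 32), (nat_lit 67), (nat_lit 401), (nat_lit 175), (nat_lit 9)]⟩⟩))))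
noncomputable def c8_17 : Tr Lf :=
 (.spl (nat_lit 3) (nat_lit 200) (.stt (nat_lit 2) (.leaf ⟨(nat_lit 749), (nat_lit 200), (nat_lit 0), (nat_lit 51), (nat_lit 12666), (nat_lit 3579), (nat_lit 1542), (nat_lit 546), (nat_lit 0), (nat_lit 0), (nat_lit 449400), [((nat_lit 360), [((nat_lit 39), (nat_lit 2), (nat_lit 749))])], ⟨(nat_lit 6), true, false, false, (nat_lit 201), (nat_lit 3162), (nat_lit 3873), [(nat_lit 1414421), (nat_lit 1422280), (nat_lit 1457950), (nat_lit 1466533), (nat_lit 1543529), (nat_lit 1544252), (nat_lit 1587058), (nat_lit 1588504)]⟩, ⟨(nat_lit 3), false, false, false, (nat_lit 115), (nat_lit 3162), (nat_lit 3873), [(nat_lit 1219261), (nat_lit 1228519), (nat_lit 1284573), (nat_lit 1294916), (nat_lit 1283782), (nat_lit 1289472), (nat_lit 1349127), (nat_lit 1355902)]⟩, (nat_lit 4067784), (nat_lit 48225805), (nat_lit 13227152), (nat_lit 5547043), (nat_lit 3), (nat_lit 0), [⟨(nat_lit 0), (nat_lit 94), (nat_lit 62), (nat_lit 100), (nat_lit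 185312814)⟩], [], [], [],
 ⟨⟨[(nat_lit 40), (nat_lit 80), (nat_lit 120)], [(nat_lit 0), (nat_lit 795), (nat_lit 2800)], [((nat_lit 0), (nat_lit 0), (nat_lit 0)), ((nat_lit 1000), (nat_lit 814), (nat_lit 310)), ((nat_lit 1000), (nat_lit 719), (nat_lit 783))], ((nat_lit 72), (nat_lit 100), (nat_lit 81))⟩, (nat_lit 957545), (nat_lit 139), (nat_lit 139), (nat_lit 0), (nat_lit 88013), [(nat_lit 1464753208), (nat_lit 1951441206), (nat_lit 1729728800)], [(nat_lit 0), (nat_lit 0), (nat_lit 0)], [(nat_lit 17658341945), (nat_lit 19139987101), (nat_lit 19169639528), (nat_lit 20472565886), (nat_lit 18060252684), (nat_lit 19432495013), (nat_lit 19499374614), (nat_lit 20738259291)], (nat_lit 1271251), (nat_lit 1271251), (nat_lit 780000), (nat_lit 1435001), (nat_lit 490000), (nat_lit 780000), [(nat_lit 490000), (nat_lit 1100000), (nat_lit 1785001)], [(nat_lit 4), (nat_lit 51), (nat_lit 317), (nat_lit 100), (nat_lit 10)]⟩,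
 ⟨⟨[(nat_lit 80), (nat_lit 140), (nat_lit 180)], [(nat_lit 0), (nat_lit 0), (nat_lit 3656)], [((nat_lit 0), (nat_lit 0), (nat_lit 0)), ((nat_lit 0), (nat_lit 0), (nat_lit 0)), ((nat_lit 637), (nat_lit 1000), (nat_lit 908))], ((nat_lit 100), (nat_lit 76), (nat_lit 82))⟩, (nat_lit 481086), (nat_lit 290), (nat_lit 290), (nat_lit 0), (nat_lit 0), [(nat_lit 1176688000), (nat_lit 2470342000), (nat_lit 3528558000)], [], [(nat_lit 7838366098), (nat_lit 8367082085), (nat_lit 8038465114), (nat_lit 8493816320), (nat_lit 9171881050), (nat_lit 9416759254), (nat_lit 9041589370), (nat_lit 9252852230)], (nat_lit 0), (nat_lit 0), (nat_lit 0), (nat_lit 0), (nat_lit 0), (nat_lit 0), [], [(nat_lit 19), (nat_lit 63), (nat_lit 456), (nat_lit 225), (nat_lit 11)]⟩,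
 ⟨⟨[(nat_lit 140), (nat_lit 180), (nat_lit 200)], [(nat_lit 0), (nat_lit 0), (nat_lit 2835)], [((nat_lit 0), (nat_lit 0), (nat_lit 0)), ((nat_lit 0), (nat_lit 0), (nat_lit 0)), ((nat_lit 363), (nat_lit 1000), (nat_lit 798))], ((nat_lit 0), (nat_lit 0), (nat_lit 0))⟩, (nat_lit 14032), (nat_lit 300), (nat_lit 814), (nat_lit 3983100), (nat_lit 567566), [(nat_lit 501942000), (nat_lit 716958000), (nat_lit 836400000)], [], [(nat_lit 4078948178), (nat_lit 3956458899), (nat_lit 3977029781), (nat_lit 3855305372), (nat_lit 3360846504), (nat_lit 3516510390), (nat_lit 3281612628), (nat_lit 3727000296)], (nat_lit 780000), (nat_lit 1271251), (nat_lit 490000), (nat_lit 780000), (nat_lit 0), (nat_lit 2825001), [(nat_lit 1977501), (nat_lit 1271251), (nat_lit 1271251)], [(nat_lit 32), (nat_lit 67), (nat_lit 401), (nat_lit 175), (nat_lit 9)]⟩⟩) (.spl (nat_lit 0) (nat_lit 350) (.spl (nat_lit 6) (nat_lit 68) (.leaf ⟨(nat_lit 963), (nat_lit 28), (nat_lit 0), (nat_lit 9),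 (nat_lit 13119), (nat_lit 4364), (nat_lit 426), (nat_lit 90), (nat_lit 0), (nat_lit 0), (nat_lit 240750), [((nat_lit 350), [((nat_lit 22), (nat_lit 0), (nat_lit 963))])], ⟨(nat_lit 6), false, false, false, (nat_lit 201), (nat_lit 3535), (nat_lit 3873), [(nat_lit 1414519), (nat_lit 1418358), (nat_lit 1458093), (nat_lit 1462251), (nat_lit 1543574), (nat_lit 1543892), (nat_lit 1587148), (nat_lit 1587785)]⟩, ⟨(nat_lit 3), false, false, false, (nat_lit 114), (nat_lit 3535), (nat_lit 3873), [(nat_lit 1219261), (nat_lit 1223904), (nat_lit 1284630), (nat_lit 1289751), (nat_lit 1283782), (nat_lit 1286665), (nat_lit 1349157), (nat_lit 1352518)]⟩, (nat_lit 4053769), (nat_lit 48317767), (nat_lit 13189917), (nat_lit 5492316), (nat_lit 3), (nat_lit 0), [], [], [], [],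
 ⟨⟨[(nat_lit 40), (nat_lit 80), (nat_lit 120)], [(nat_lit 0), (nat_lit 795), (nat_lit 2800)], [((nat_lit 0), (nat_lit 0), (nat_lit 0)), ((nat_lit 1000), (nat_lit 814), (nat_lit 310)), ((nat_lit 1000), (nat_lit 719), (nat_lit 783))], ((nat_lit 72), (nat_lit 100), (nat_lit 75))⟩, (nat_lit 0), (nat_lit 121), (nat_lit 121), (nat_lit 0), (nat_lit 15491), [(nat_lit 1678636586), (nat_lit 2071336469), (nat_lit 2906857200)], [(nat_lit 0), (nat_lit 0), (nat_lit 0)], [(nat_lit 17560361709), (nat_lit 18518618765), (nat_lit 19332644095), (nat_lit 20175610716), (nat_lit 17948366996), (nat_lit 18856843800), (nat_lit 19635796235), (nat_lit 20435922206)], (nat_lit 1271251), (nat_lit 1271251), (nat_lit 780000), (nat_lit 1435001), (nat_lit 490000), (nat_lit 780000), [(nat_lit 490000), (nat_lit 1100000), (nat_lit 1785001)], [(nat_lit 4), (nat_lit 51), (nat_lit 317), (nat_lit 100), (nat_lit 10)]⟩,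
 ⟨⟨[(nat_lit 80), (nat_lit 140), (nat_lit 180)], [(nat_lit 0), (nat_lit 0), (nat_lit 3656)], [((nat_lit 0), (nat_lit 0), (nat_lit 0)), ((nat_lit 0), (nat_lit 0), (nat_lit 0)), ((nat_lit 637), (nat_lit 1000), (nat_lit 908))], ((nat_lit 100), (nat_lit 81), (nat_lit 77))⟩, (nat_lit 0), (nat_lit 389), (nat_lit 389), (nat_lit 0), (nat_lit 74260), [(nat_lit 173456000), (nat_lit 364154000), (nat_lit 520146000)], [], [(nat_lit 2197165756), (nat_lit 1743082558), (nat_lit 1629676870), (nat_lit 1691754385), (nat_lit 1789448180), (nat_lit 1680027050), (nat_lit 2245509736), (nat_lit 1876399480)], (nat_lit 1271251), (nat_lit 1271251), (nat_lit 780000), (nat_lit 1435001), (nat_lit 0), (nat_lit 2825001), [(nat_lit 1100000), (nat_lit 2127501), (nat_lit 1271251)], [(nat_lit 19), (nat_lit 63), (nat_lit 456), (nat_lit 225), (nat_lit 11)]⟩,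
 ⟨⟨[(nat_lit 140), (nat_lit 180), (nat_lit 200)], [(nat_lit 0), (nat_lit 0), (nat_lit 2835)], [((nat_lit 0), (nat_lit 0), (nat_lit 0)), ((nat_lit 0), (nat_lit 0), (nat_lit 0)), ((nat_lit 363), (nat_lit 1000), (nat_lit 798))], ((nat_lit 0), (nat_lit 0), (nat_lit 0))⟩, (nat_lit 2476), (nat_lit 300), (nat_lit 552), (nat_lit 702903), (nat_lit 66297), [(nat_lit 88578000), (nat_lit 126522000), (nat_lit 147600000)], [], [(nat_lit 653358689), (nat_lit 637732272), (nat_lit 637911137), (nat_lit 622354916), (nat_lit 569774312), (nat_lit 610459614), (nat_lit 571262508), (nat_lit 645844104)], (nat_lit 780000), (nat_lit 1271251), (nat_lit 490000), (nat_lit 780000), (nat_lit 0), (nat_lit 2825001), [(nat_lit 1977501), (nat_lit 1271251), (nat_lit 1271251)], [(nat_lit 32), (nat_lit 67), (nat_lit 401), (nat_lit 175), (nat_lit 9)]⟩⟩) (.dle (nat_lit 0))) (.leaf ⟨(nat_lit 1000), (nat_lit 0), (nat_lit 0), (nat_lit 0), (nat_lit 9772), (nat_lit 3635), (nat_lit 0), (nat_lit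 0), (nat_lit 0), (nat_lit 0), (nat_lit 250000), [((nat_lit 360), [((nat_lit 22), (nat_lit 0), (nat_lit 1000))])], ⟨(nat_lit 6), false, false, false, (nat_lit 202), (nat_lit 3162), (nat_lit 3536), [(nat_lit 1418344), (nat_lit 1422365), (nat_lit 1462233), (nat_lit 1466658), (nat_lit 1543888), (nat_lit 1544293), (nat_lit 1587777), (nat_lit 1588586)]⟩, ⟨(nat_lit 3), false, false, false, (nat_lit 116), (nat_lit 3162), (nat_lit 3536), [(nat_lit 1223904), (nat_lit 1228519), (nat_lit 1289740), (nat_lit 1294962), (nat_lit 1286665), (nat_lit 1289472), (nat_lit 1352511), (nat_lit 1355925)]⟩, (nat_lit 4082219), (nat_lit 48129778), (nat_lit 13267561), (nat_lit 5602661), (nat_lit 0), (nat_lit 0), [], [], [], [],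
 ⟨⟨[(nat_lit 40), (nat_lit 80), (nat_lit 120)], [(nat_lit 0), (nat_lit 1195), (nat_lit 3135)], [((nat_lit 0), (nat_lit 0), (nat_lit 0)), ((nat_lit 1000), (nat_lit 720), (nat_lit 465)), ((nat_lit 1000), (nat_lit 661), (nat_lit 757))], ((nat_lit 66), (nat_lit 100), (nat_lit 80))⟩, (nat_lit 1150489), (nat_lit 127), (nat_lit 127), (nat_lit 0), (nat_lit 47916), [(nat_lit 1568000040), (nat_lit 2288819666), (nat_lit 2712400000)], [(nat_lit 0), (nat_lit 0), (nat_lit 0)], [(nat_lit 18461803384), (nat_lit 19191273550), (nat_lit 19889160485), (nat_lit 20515223575), (nat_lit 18822411389), (nat_lit 19492134345), (nat_lit 20181557400), (nat_lit 20778624970)], (nat_lit 1271251), (nat_lit 1271251), (nat_lit 780000), (nat_lit 1435001), (nat_lit 490000), (nat_lit 780000), [(nat_lit 490000), (nat_lit 1100000), (nat_lit 1785001)], [(nat_lit 4), (nat_lit 51), (nat_lit 317), (nat_lit 100), (nat_lit 10)]⟩,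
 Rw.none,
 Rw.none⟩))) (.trX (nat_lit 5) (nat_lit 3) (nat_lit 4) (nat_lit 100) (nat_lit 40) (nat_lit 92) (nat_lit 390) (.leaf ⟨(nat_lit 868), (nat_lit 114), (nat_lit 0), (nat_lit 18), (nat_lit 10584), (nat_lit 3453), (nat_lit 1556), (nat_lit 194), (nat_lit 0), (nat_lit 0), (nat_lit 701200), [((nat_lit 360), [((nat_lit 39), (nat_lit 2), (nat_lit 417)), ((nat_lit 22), (nat_lit 2), (nat_lit 451))])], ⟨(nat_lit 6), false, true, false, (nat_lit 239), (nat_lit 3162), (nat_lit 3873), [(nat_lit 1543529), (nat_lit 1544252), (nat_lit 1587058), (nat_lit 1588504), (nat_lit 1608082), (nat_lit 1605237), (nat_lit 1651611), (nat_lit 1649490)]⟩, ⟨(nat_lit 3), false, false, false, (nat_lit 115), (nat_lit 3162), (nat_lit 3873), [(nat_lit 1219261), (nat_lit 1228519), (nat_lit 1284573), (nat_lit 1294916), (nat_lit 1283782), (nat_lit 1289472), (nat_lit 1349127), (nat_lit 1355902)]⟩, (nat_lit 4359173), (nat_lit 44771050), (nat_lit 16861072), (nat_lit 5367878), (nat_lit 3),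 (nat_lit 0), [], [], [⟨(nat_lit 1), (nat_lit 55), (nat_lit 99), (nat_lit 100), (nat_lit 228517)⟩], [],
 ⟨⟨[(nat_lit 40), (nat_lit 80), (nat_lit 120)], [(nat_lit 0), (nat_lit 795), (nat_lit 2800)], [((nat_lit 0), (nat_lit 0), (nat_lit 0)), ((nat_lit 1000), (nat_lit 814), (nat_lit 310)), ((nat_lit 1000), (nat_lit 719), (nat_lit 783))], ((nat_lit 72), (nat_lit 100), (nat_lit 81))⟩, (nat_lit 3173), (nat_lit 128), (nat_lit 128), (nat_lit 0), (nat_lit 88013), [(nat_lit 1395207756), (nat_lit 1143847689), (nat_lit 0)], [(nat_lit 0), (nat_lit 0), (nat_lit 844228000)], [(nat_lit 19347892996), (nat_lit 20603152802), (nat_lit 20433422061), (nat_lit 21663056502), (nat_lit 19695221493), (nat_lit 20859987545), (nat_lit 20730558528), (nat_lit 21916079899)], (nat_lit 1271251), (nat_lit 1271251), (nat_lit 1271251), (nat_lit 1271251), (nat_lit 490000), (nat_lit 780000), [(nat_lit 490000), (nat_lit 1100000), (nat_lit 1785001)], [(nat_lit 4), (nat_lit 51), (nat_lit 317),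 (nat_lit 100), (nat_lit 9)]⟩,
 ⟨⟨[(nat_lit 80), (nat_lit 140), (nat_lit 180)], [(nat_lit 0), (nat_lit 0), (nat_lit 3656)], [((nat_lit 0), (nat_lit 0), (nat_lit 0)), ((nat_lit 0), (nat_lit 0), (nat_lit 0)), ((nat_lit 637), (nat_lit 1000), (nat_lit 908))], ((nat_lit 100), (nat_lit 76), (nat_lit 82))⟩, (nat_lit 29827), (nat_lit 404), (nat_lit 404), (nat_lit 0), (nat_lit 192139), [(nat_lit 618816000), (nat_lit 1299144000), (nat_lit 1855656000)], [], [(nat_lit 6323090656), (nat_lit 5907436848), (nat_lit 5724187624), (nat_lit 5924041648), (nat_lit 6815165098), (nat_lit 5462719524), (nat_lit 5445860980), (nat_lit 5395824124)], (nat_lit 1271251), (nat_lit 1271251), (nat_lit 1271251), (nat_lit 1271251), (nat_lit 0), (nat_lit 2754376), [(nat_lit 1100000), (nat_lit 2127501), (nat_lit 1271251)], [(nat_lit 19), (nat_lit 63), (nat_lit 483), (nat_lit 250), (nat_lit 11)]⟩,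
 ⟨⟨[(nat_lit 140), (nat_lit 180), (nat_lit 200)], [(nat_lit 0), (nat_lit 0), (nat_lit 2835)], [((nat_lit 0), (nat_lit 0), (nat_lit 0)), ((nat_lit 0), (nat_lit 0), (nat_lit 0)), ((nat_lit 363), (nat_lit 1000), (nat_lit 798))], ((nat_lit 0), (nat_lit 0), (nat_lit 0))⟩, (nat_lit 4952), (nat_lit 300), (nat_lit 814), (nat_lit 1405806), (nat_lit 567566), [(nat_lit 177156000), (nat_lit 253044000), (nat_lit 295200000)], [], [(nat_lit 1436849216), (nat_lit 1393242852), (nat_lit 1400483024), (nat_lit 1357174761), (nat_lit 1181705240), (nat_lit 1227218852), (nat_lit 1146111613), (nat_lit 1301311973)], (nat_lit 780000), (nat_lit 1271251), (nat_lit 490000), (nat_lit 780000), (nat_lit 0), (nat_lit 2754376), [(nat_lit 1977501), (nat_lit 1271251), (nat_lit 1271251)], [(nat_lit 32), (nat_lit 67), (nat_lit 401), (nat_lit 175), (nat_lit 9)]⟩⟩)))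
noncomputable def c8_18 : Tr Lf :=
 (.trZ (nat_lit 0) (nat_lit 1) (nat_lit 3) (nat_lit 99) (nat_lit 77) (nat_lit 100) (nat_lit 120) (.spl (nat_lit 5) (nat_lit 200) (.leaf ⟨(nat_lit 0), (nat_lit 1000), (nat_lit 0), (nat_lit 0), (nat_lit 4557), (nat_lit 5559), (nat_lit 10361), (nat_lit 0), (nat_lit 0), (nat_lit 0), (nat_lit 0), [], Pd.none, Pd.none, (nat_lit 0), (nat_lit 1), (nat_lit 0), (nat_lit 0), (nat_lit 3), (nat_lit 0), [⟨(nat_lit 0), (nat_lit 88), (nat_lit 67), (nat_lit 100), (nat_lit 571657288)⟩], [], [], [],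
 ⟨⟨[(nat_lit 40), (nat_lit 80), (nat_lit 120)], [(nat_lit 0), (nat_lit 795), (nat_lit 2800)], [((nat_lit 0), (nat_lit 0), (nat_lit 0)), ((nat_lit 1000), (nat_lit 814), (nat_lit 310)), ((nat_lit 1000), (nat_lit 719), (nat_lit 783))], ((nat_lit 73), (nat_lit 100), (nat_lit 85))⟩, (nat_lit 2097589), (nat_lit 275), (nat_lit 275), (nat_lit 0), (nat_lit 241788), [(nat_lit 2181536849), (nat_lit 4688000013), (nat_lit 7968000000)], [], [(nat_lit 23185178623), (nat_lit 25188107081), (nat_lit 25535377721), (nat_lit 27676804027), (nat_lit 20503999862), (nat_lit 22017926272), (nat_lit 22472726710), (nat_lit 23902183442)], (nat_lit 1271251), (nat_lit 1271251), (nat_lit 780000), (nat_lit 1762501), (nat_lit 54688), (nat_lit 780000), [(nat_lit 490000), (nat_lit 1100000), (nat_lit 1785001)], [(nat_lit 4), (nat_lit 51), (nat_lit 317), (nat_lit 100), (nat_lit 10)]⟩,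
 ⟨⟨[(nat_lit 60), (nat_lit 120), (nat_lit 160)], [(nat_lit 0), (nat_lit 0), (nat_lit 3243)], [((nat_lit 0), (nat_lit 0), (nat_lit 0)), ((nat_lit 0), (nat_lit 0), (nat_lit 0)), ((nat_lit 878), (nat_lit 1000), (nat_lit 945))], ((nat_lit 100), (nat_lit 92), (nat_lit 90))⟩, (nat_lit 534382), (nat_lit 484), (nat_lit 484), (nat_lit 0), (nat_lit 392218), [(nat_lit 3282000000), (nat_lit 7968000000), (nat_lit 11872000000)], [], [(nat_lit 37153018792), (nat_lit 38899902464), (nat_lit 36629133378), (nat_lit 39502897922), (nat_lit 29694474799), (nat_lit 30942531238), (nat_lit 32867778609), (nat_lit 30175083254)], (nat_lit 1271251), (nat_lit 1271251), (nat_lit 780000), (nat_lit 1762501), (nat_lit 0), (nat_lit 1412501), [(nat_lit 780000), (nat_lit 1762501), (nat_lit 1271251)], [(nat_lit 12), (nat_lit 59), (nat_lit 428), (nat_lit 200), (nat_lit 11)]⟩,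
 Rw.none⟩) (.stt (nat_lit 2) (.spl (nat_lit 2) (nat_lit 180) (.trX (nat_lit 5) (nat_lit 1) (nat_lit 2) (nat_lit 92) (nat_lit 49) (nat_lit 100) (nat_lit 380) (.leaf ⟨(nat_lit 0), (nat_lit 942), (nat_lit 0), (nat_lit 58), (nat_lit 24827), (nat_lit 4815), (nat_lit 8515), (nat_lit 720), (nat_lit 0), (nat_lit 0), (nat_lit 0), [], Pd.none, Pd.none, (nat_lit 0), (nat_lit 1), (nat_lit 0), (nat_lit 0), (nat_lit 5), (nat_lit 0), [⟨(nat_lit 0), (nat_lit 88), (nat_lit 67), (nat_lit 100), (nat_lit 759351290)⟩], [⟨(nat_lit 0), (nat_lit 100), (nat_lit 60), (nat_lit 74), (nat_lit 40563420)⟩], [⟨(nat_lit 1), (nat_lit 72), (nat_lit 89), (nat_lit 100), (nat_lit 426179401)⟩], [],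
 ⟨⟨[(nat_lit 40), (nat_lit 80), (nat_lit 120)], [(nat_lit 0), (nat_lit 795), (nat_lit 2800)], [((nat_lit 0), (nat_lit 0), (nat_lit 0)), ((nat_lit 1000), (nat_lit 814), (nat_lit 310)), ((nat_lit 1000), (nat_lit 719), (nat_lit 783))], ((nat_lit 73), (nat_lit 100), (nat_lit 85))⟩, (nat_lit 2276748), (nat_lit 275), (nat_lit 275), (nat_lit 0), (nat_lit 241788), [(nat_lit 2032000084), (nat_lit 4688000021), (nat_lit 7968000000)], [], [(nat_lit 22775614781), (nat_lit 24329371928), (nat_lit 24997453467), (nat_lit 26292076249), (nat_lit 21044373038), (nat_lit 22353603559), (nat_lit 23059033795), (nat_lit 24176772306)], (nat_lit 1271251), (nat_lit 1271251), (nat_lit 780000), (nat_lit 1762501), (nat_lit 54688), (nat_lit 780000), [(nat_lit 490000), (nat_lit 1100000), (nat_lit 1785001)], [(nat_lit 4), (nat_lit 51), (nat_lit 317), (nat_lit 100), (nat_lit 10)]⟩,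
 ⟨⟨[(nat_lit 60), (nat_lit 120), (nat_lit 160)], [(nat_lit 0), (nat_lit 0), (nat_lit 3243)], [((nat_lit 0), (nat_lit 0), (nat_lit 0)), ((nat_lit 0), (nat_lit 0), (nat_lit 0)), ((nat_lit 878), (nat_lit 1000), (nat_lit 945))], ((nat_lit 100), (nat_lit 92), (nat_lit 90))⟩, (nat_lit 1947887), (nat_lit 161), (nat_lit 161), (nat_lit 0), (nat_lit 0), [(nat_lit 3282000000), (nat_lit 7968000000), (nat_lit 11872000000)], [], [(nat_lit 23597002012), (nat_lit 26205334119), (nat_lit 24778738699), (nat_lit 26796007659), (nat_lit 33028116062), (nat_lit 34395078174), (nat_lit 32048648928), (nat_lit 33439641785)], (nat_lit 0), (nat_lit 0), (nat_lit 0), (nat_lit 0), (nat_lit 0), (nat_lit 0), [], [(nat_lit 12), (nat_lit 59), (nat_lit 483), (nat_lit 250), (nat_lit 12)]⟩,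
 ⟨⟨[(nat_lit 140), (nat_lit 180), (nat_lit 200)], [(nat_lit 0), (nat_lit 0), (nat_lit 2835)], [((nat_lit 0), (nat_lit 0), (nat_lit 0)), ((nat_lit 0), (nat_lit 0), (nat_lit 0)), ((nat_lit 363), (nat_lit 1000), (nat_lit 798))], ((nat_lit 0), (nat_lit 0), (nat_lit 0))⟩, (nat_lit 15958), (nat_lit 300), (nat_lit 1190), (nat_lit 4529800), (nat_lit 1603860), [(nat_lit 570836000), (nat_lit 815364000), (nat_lit 951200000)], [], [(nat_lit 4007829356), (nat_lit 3841111303), (nat_lit 3504592550), (nat_lit 3344188834), (nat_lit 3918940967), (nat_lit 3745675800), (nat_lit 3371297078), (nat_lit 3206277958)], (nat_lit 780000), (nat_lit 1271251), (nat_lit 54688), (nat_lit 780000), (nat_lit 1271251), (nat_lit 1271251), [(nat_lit 1977501), (nat_lit 1271251), (nat_lit 1271251)], [(nat_lit 32), (nat_lit 67), (nat_lit 401), (nat_lit 175), (nat_lit 9)]⟩⟩)) (.trZ (nat_lit 0) (nat_lit 2) (nat_lit 4) (nat_lit 100) (nat_lit 72) (nat_lit 63) (nat_lit 40) (.leaf ⟨(nat_lit 0),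 (nat_lit 0), (nat_lit 0), (nat_lit 1000), (nat_lit 11586), (nat_lit 4461), (nat_lit 14349), (nat_lit 11402), (nat_lit 0), (nat_lit 0), (nat_lit 0), [], Pd.none, Pd.none, (nat_lit 0), (nat_lit 1), (nat_lit 0), (nat_lit 0), (nat_lit 0), (nat_lit 0), [⟨(nat_lit 0), (nat_lit 88), (nat_lit 67), (nat_lit 100), (nat_lit 910444256)⟩], [⟨(nat_lit 0), (nat_lit 100), (nat_lit 66), (nat_lit 75), (nat_lit 1390278320)⟩], [], [],
 ⟨⟨[(nat_lit 40), (nat_lit 80), (nat_lit 120)], [(nat_lit 0), (nat_lit 795), (nat_lit 2800)], [((nat_lit 0), (nat_lit 0), (nat_lit 0)), ((nat_lit 1000), (nat_lit 814), (nat_lit 310)), ((nat_lit 1000), (nat_lit 719), (nat_lit 783))], ((nat_lit 73), (nat_lit 100), (nat_lit 85))⟩, (nat_lit 2558573), (nat_lit 176), (nat_lit 176), (nat_lit 0), (nat_lit 110890), [(nat_lit 2032000845), (nat_lit 4688000198), (nat_lit 7968000000)], [], [(nat_lit 20434892503), (nat_lit 22153818011), (nat_lit 22938948704), (nat_lit 24346262096), (nat_lit 19372696236),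 (nat_lit 20957727267), (nat_lit 21773369395), (nat_lit 23075584731)], (nat_lit 1271251), (nat_lit 1271251), (nat_lit 780000), (nat_lit 1762501), (nat_lit 230000), (nat_lit 780000), [(nat_lit 490000), (nat_lit 1100000), (nat_lit 1785001)], [(nat_lit 4), (nat_lit 51), (nat_lit 317), (nat_lit 100), (nat_lit 10)]⟩,
 ⟨⟨[(nat_lit 60), (nat_lit 120), (nat_lit 160)], [(nat_lit 0), (nat_lit 0), (nat_lit 3243)], [((nat_lit 0), (nat_lit 0), (nat_lit 0)), ((nat_lit 0), (nat_lit 0), (nat_lit 0)), ((nat_lit 878), (nat_lit 1000), (nat_lit 945))], ((nat_lit 100), (nat_lit 92), (nat_lit 90))⟩, (nat_lit 2007011), (nat_lit 168), (nat_lit 168), (nat_lit 0), (nat_lit 0), [(nat_lit 3282000000), (nat_lit 7968000000), (nat_lit 11872000000)], [], [(nat_lit 20004936399), (nat_lit 23605576483), (nat_lit 20124082911), (nat_lit 22796378410), (nat_lit 41486877929), (nat_lit 44588319088), (nat_lit 39342174010), (nat_lit 41645955484)], (nat_lit 0), (nat_lit 0), (nat_lit 0), (nat_lit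 0), (nat_lit 0), (nat_lit 0), [], [(nat_lit 12), (nat_lit 59), (nat_lit 483), (nat_lit 250), (nat_lit 12)]⟩,
 ⟨⟨[(nat_lit 120), (nat_lit 160), (nat_lit 200)], [(nat_lit 0), (nat_lit 533), (nat_lit 3597)], [((nat_lit 0), (nat_lit 0), (nat_lit 0)), ((nat_lit 960), (nat_lit 1000), (nat_lit 200)), ((nat_lit 612), (nat_lit 1000), (nat_lit 732))], ((nat_lit 0), (nat_lit 0), (nat_lit 0))⟩, (nat_lit 532287), (nat_lit 300), (nat_lit 526), (nat_lit 72426819), (nat_lit 356500), [(nat_lit 7968000000), (nat_lit 11872000000), (nat_lit 16400000000)], [], [(nat_lit 56410205487), (nat_lit 55910748486), (nat_lit 50934400849), (nat_lit 50172066222), (nat_lit 59905885270), (nat_lit 58832943314), (nat_lit 53691734157), (nat_lit 52650314215)], (nat_lit 1271251), (nat_lit 1271251), (nat_lit 230000), (nat_lit 780000), (nat_lit 1271251), (nat_lit 1271251), [(nat_lit 1695001), (nat_lit 1271251), (nat_lit 1271251)], [(nat_lit 29), (nat_lit 66), (nat_lit 428), (nat_lit 200),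 (nat_lit 9)]⟩⟩))) (.spl (nat_lit 0) (nat_lit 350) (.leaf ⟨(nat_lit 0), (nat_lit 676), (nat_lit 0), (nat_lit 324), (nat_lit 11127), (nat_lit 4617), (nat_lit 8529), (nat_lit 4958), (nat_lit 0), (nat_lit 0), (nat_lit 0), [], Pd.none, Pd.none, (nat_lit 0), (nat_lit 1), (nat_lit 0), (nat_lit 0), (nat_lit 5), (nat_lit 0), [⟨(nat_lit 0), (nat_lit 89), (nat_lit 71), (nat_lit 100), (nat_lit 832456442)⟩], [⟨(nat_lit 0), (nat_lit 100), (nat_lit 78), (nat_lit 39), (nat_lit 118680317)⟩], [], [⟨(nat_lit 1), (nat_lit 87), (nat_lit 100), (nat_lit 41), (nat_lit 307134357)⟩],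
 ⟨⟨[(nat_lit 40), (nat_lit 80), (nat_lit 120)], [(nat_lit 0), (nat_lit 795), (nat_lit 2800)], [((nat_lit 0), (nat_lit 0), (nat_lit 0)), ((nat_lit 1000), (nat_lit 814), (nat_lit 310)), ((nat_lit 1000), (nat_lit 719), (nat_lit 783))], ((nat_lit 73), (nat_lit 100), (nat_lit 85))⟩, (nat_lit 2723310), (nat_lit 186), (nat_lit 186), (nat_lit 0), (nat_lit 99159), [(nat_lit 2032000748), (nat_lit 4688000054), (nat_lit 7968000000)], [], [(nat_lit 21307804798), (nat_lit 22067084561), (nat_lit 23934944592), (nat_lit 24929252289), (nat_lit 19862206464), (nat_lit 20502451753), (nat_lit 22286465443), (nat_lit 22893273956)], (nat_lit 1271251), (nat_lit 1271251), (nat_lit 780000), (nat_lit 1762501), (nat_lit 54688), (nat_lit 780000), [(nat_lit 490000), (nat_lit 1100000), (nat_lit 1785001)], [(nat_lit 4), (nat_lit 51), (nat_lit 317), (nat_lit 100), (nat_lit 10)]⟩,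
 ⟨⟨[(nat_lit 60), (nat_lit 120), (nat_lit 160)], [(nat_lit 0), (nat_lit 0), (nat_lit 3243)], [((nat_lit 0), (nat_lit 0), (nat_lit 0)), ((nat_lit 0), (nat_lit 0), (nat_lit 0)), ((nat_lit 878), (nat_lit 1000), (nat_lit 945))], ((nat_lit 100), (nat_lit 92), (nat_lit 90))⟩, (nat_lit 1606751), (nat_lit 270), (nat_lit 270), (nat_lit 0), (nat_lit 303698), [(nat_lit 3282000000), (nat_lit 7968000000), (nat_lit 11872000000)], [], [(nat_lit 28182333740), (nat_lit 29966126446), (nat_lit 28447997847), (nat_lit 29807401957), (nat_lit 35632614399), (nat_lit 36755330049), (nat_lit 34274714901), (nat_lit 35179260364)], (nat_lit 1271251), (nat_lit 1271251), (nat_lit 780000), (nat_lit 1762501), (nat_lit 1271251), (nat_lit 1271251), [(nat_lit 780000), (nat_lit 1762501), (nat_lit 1271251)], [(nat_lit 12), (nat_lit 59), (nat_lit 483), (nat_lit 250), (nat_lit 12)]⟩,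
 ⟨⟨[(nat_lit 140), (nat_lit 180), (nat_lit 200)], [(nat_lit 0), (nat_lit 0), (nat_lit 2835)], [((nat_lit 0), (nat_lit 0), (nat_lit 0)), ((nat_lit 0), (nat_lit 0), (nat_lit 0)), ((nat_lit 363), (nat_lit 1000), (nat_lit 798))], ((nat_lit 0), (nat_lit 0), (nat_lit 0))⟩, (nat_lit 89143), (nat_lit 300), (nat_lit 665), (nat_lit 25304400), (nat_lit 437216), [(nat_lit 3188808000), (nat_lit 4554792000), (nat_lit 5313600000)], [], [(nat_lit 21167228961), (nat_lit 19724665333), (nat_lit 17352214138), (nat_lit 18550767532), (nat_lit 22305340241), (nat_lit 20983923437), (nat_lit 18043998380), (nat_lit 16395591073)], (nat_lit 780000), (nat_lit 1598751), (nat_lit 54688), (nat_lit 780000), (nat_lit 1271251), (nat_lit 1271251), [(nat_lit 1977501), (nat_lit 1271251), (nat_lit 1271251)], [(nat_lit 32), (nat_lit 67), (nat_lit 428), (nat_lit 200), (nat_lit 9)]⟩⟩) (.trZ (nat_lit 0) (nat_lit 1) (nat_lit 3) (nat_lit 96) (nat_lit 69) (nat_lit 100) (nat_lit 130) (.leaf ⟨(nat_lit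 0), (nat_lit 578), (nat_lit 0), (nat_lit 422), (nat_lit 130), (nat_lit 4160), (nat_lit 8612), (nat_lit 5414), (nat_lit 0), (nat_lit 0), (nat_lit 0), [], Pd.none, Pd.none, (nat_lit 0), (nat_lit 1), (nat_lit 0), (nat_lit 0), (nat_lit 5), (nat_lit 0), [⟨(nat_lit 0), (nat_lit 88), (nat_lit 64), (nat_lit 100), (nat_lit 706186645)⟩], [⟨(nat_lit 0), (nat_lit 100), (nat_lit 72), (nat_lit 46), (nat_lit 583935026)⟩], [], [],
 ⟨⟨[(nat_lit 40), (nat_lit 80), (nat_lit 120)], [(nat_lit 0), (nat_lit 1195), (nat_lit 3135)], [((nat_lit 0), (nat_lit 0), (nat_lit 0)), ((nat_lit 1000), (nat_lit 720), (nat_lit 465)), ((nat_lit 1000), (nat_lit 661), (nat_lit 757))], ((nat_lit 67), (nat_lit 100), (nat_lit 84))⟩, (nat_lit 2576914), (nat_lit 197), (nat_lit 197), (nat_lit 0), (nat_lit 123968), [(nat_lit 2032000054), (nat_lit 4688000059), (nat_lit 7968000000)], [], [(nat_lit 21251383414), (nat_lit 22390468602), (nat_lit 24136949018), (nat_lit 25072994670), (nat_lit 20145978117),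 (nat_lit 20745437348), (nat_lit 22164099078), (nat_lit 22721946078)], (nat_lit 1271251), (nat_lit 1271251), (nat_lit 857188), (nat_lit 1768126), (nat_lit 54688), (nat_lit 780000), [(nat_lit 490000), (nat_lit 1100000), (nat_lit 1785001)], [(nat_lit 4), (nat_lit 51), (nat_lit 317), (nat_lit 100), (nat_lit 10)]⟩,
 ⟨⟨[(nat_lit 60), (nat_lit 120), (nat_lit 160)], [(nat_lit 0), (nat_lit 0), (nat_lit 3243)], [((nat_lit 0), (nat_lit 0), (nat_lit 0)), ((nat_lit 0), (nat_lit 0), (nat_lit 0)), ((nat_lit 878), (nat_lit 1000), (nat_lit 945))], ((nat_lit 100), (nat_lit 92), (nat_lit 90))⟩, (nat_lit 1568951), (nat_lit 334), (nat_lit 334), (nat_lit 0), (nat_lit 393258), [(nat_lit 3282000000), (nat_lit 7968000000), (nat_lit 11872000000)], [], [(nat_lit 28013149020), (nat_lit 29774427114), (nat_lit 28412423427), (nat_lit 29776026507), (nat_lit 35364330044), (nat_lit 36567948353), (nat_lit 34366937739), (nat_lit 35271482992)], (nat_lit 1271251), (nat_lit 1271251), (nat_lit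 857188), (nat_lit 1768126), (nat_lit 1271251), (nat_lit 1271251), [(nat_lit 780000), (nat_lit 1762501), (nat_lit 1271251)], [(nat_lit 12), (nat_lit 59), (nat_lit 483), (nat_lit 250), (nat_lit 12)]⟩,
 ⟨⟨[(nat_lit 140), (nat_lit 180), (nat_lit 200)], [(nat_lit 0), (nat_lit 0), (nat_lit 2835)], [((nat_lit 0), (nat_lit 0), (nat_lit 0)), ((nat_lit 0), (nat_lit 0), (nat_lit 0)), ((nat_lit 363), (nat_lit 1000), (nat_lit 798))], ((nat_lit 0), (nat_lit 0), (nat_lit 0))⟩, (nat_lit 116106), (nat_lit 300), (nat_lit 720), (nat_lit 32958200), (nat_lit 567397), [(nat_lit 4153324000), (nat_lit 5932476000), (nat_lit 6920800000)], [], [(nat_lit 28772423522), (nat_lit 27060704889), (nat_lit 24698131674), (nat_lit 23543124670), (nat_lit 28761990688), (nat_lit 26952069218), (nat_lit 24203042900), (nat_lit 22506732082)], (nat_lit 780000), (nat_lit 1598751), (nat_lit 54688), (nat_lit 780000), (nat_lit 1271251), (nat_lit 1271251), [(nat_lit 1977501), (nat_lit 1271251), (nat_lit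 1271251)], [(nat_lit 32), (nat_lit 67), (nat_lit 428), (nat_lit 200), (nat_lit 9)]⟩⟩))))))
noncomputable def c8_19 : Tr Lf :=
 (.trZ (nat_lit 0) (nat_lit 2) (nat_lit 4) (nat_lit 100) (nat_lit 72) (nat_lit 77) (nat_lit 70) (.spl (nat_lit 1) (nat_lit 280) (.ord (.spl (nat_lit 6) (nat_lit 68) (.spl (nat_lit 1) (nat_lit 260) (.ord (.dle (nat_lit 0))) (.trZ (nat_lit 0) (nat_lit 1) (nat_lit 3) (nat_lit 100) (nat_lit 75) (nat_lit 92) (nat_lit 100) (.trZ (nat_lit 1) (nat_lit 2) (nat_lit 5) (nat_lit 100) (nat_lit 96) (nat_lit 40) (nat_lit 10) (.leaf ⟨(nat_lit 0), (nat_lit 0), (nat_lit 0), (nat_lit 1000), (nat_lit 288401), (nat_lit 4642), (nat_lit 6309), (nat_lit 10896), (nat_lit 0), (nat_lit 14678), (nat_lit 0), [], Pd.none, Pd.none, (nat_lit 0), (nat_lit 1), (nat_lit 0), (nat_lit 0), (nat_lit 0), (nat_lit 0), [⟨(nat_lit 0), (nat_lit 94), (nat_lit 62), (nat_lit 100), (nat_lit 1093456555)⟩], [⟨(nat_lit 0), (nat_lit 100), (nat_lit 68), (nat_lit 92), (nat_lit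 2232623977)⟩], [⟨(nat_lit 0), (nat_lit 100), (nat_lit 97), (nat_lit 59), (nat_lit 524817474)⟩], [],
 ⟨⟨[(nat_lit 40), (nat_lit 80), (nat_lit 120)], [(nat_lit 0), (nat_lit 795), (nat_lit 2800)], [((nat_lit 0), (nat_lit 0), (nat_lit 0)), ((nat_lit 1000), (nat_lit 814), (nat_lit 310)), ((nat_lit 1000), (nat_lit 719), (nat_lit 783))], ((nat_lit 72), (nat_lit 100), (nat_lit 75))⟩, (nat_lit 2615661), (nat_lit 137), (nat_lit 137), (nat_lit 0), (nat_lit 34087), [(nat_lit 2200817492), (nat_lit 4688000043), (nat_lit 7968000000)], [], [(nat_lit 19156674806), (nat_lit 20923103893), (nat_lit 21770080372), (nat_lit 23255433884), (nat_lit 19024690982), (nat_lit 20688728586), (nat_lit 21510098690), (nat_lit 22838961486)], (nat_lit 1271251), (nat_lit 1271251), (nat_lit 631250), (nat_lit 1751251), (nat_lit 422188), (nat_lit 780000), [(nat_lit 490000), (nat_lit 1100000), (nat_lit 1785001)], [(nat_lit 4), (nat_lit 51), (nat_lit 317), (nat_lit 100), (nat_lit 10)]⟩,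
 ⟨⟨[(nat_lit 80), (nat_lit 120), (nat_lit 160)], [(nat_lit 0), (nat_lit 528), (nat_lit 2577)], [((nat_lit 0), (nat_lit 0), (nat_lit 0)), ((nat_lit 1000), (nat_lit 959), (nat_lit 206)), ((nat_lit 929), (nat_lit 1000), (nat_lit 742))], ((nat_lit 100), (nat_lit 90), (nat_lit 79))⟩, (nat_lit 0), (nat_lit 254), (nat_lit 254), (nat_lit 0), (nat_lit 84946), [(nat_lit 4688000000), (nat_lit 7968000000), (nat_lit 11872000000)], [], [(nat_lit 44163181453), (nat_lit 40788513791), (nat_lit 41066413065), (nat_lit 41740236755), (nat_lit 43839217378), (nat_lit 44189531707), (nat_lit 52662650889), (nat_lit 49995842898)], (nat_lit 1271251), (nat_lit 1271251), (nat_lit 631250), (nat_lit 1751251), (nat_lit 54688), (nat_lit 2845626), [(nat_lit 1100000), (nat_lit 1785001), (nat_lit 1271251)], [(nat_lit 18), (nat_lit 59), (nat_lit 483), (nat_lit 250), (nat_lit 12)]⟩,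
 ⟨⟨[(nat_lit 100), (nat_lit 140), (nat_lit 180)], [(nat_lit 0), (nat_lit 508), (nat_lit 2854)], [((nat_lit 0), (nat_lit 0), (nat_lit 0)), ((nat_lit 1000), (nat_lit 1000), (nat_lit 198)), ((nat_lit 777), (nat_lit 1000), (nat_lit 712))], ((nat_lit 100), (nat_lit 74), (nat_lit 76))⟩, (nat_lit 637933), (nat_lit 300), (nat_lit 407), (nat_lit 67985218), (nat_lit 60961), [(nat_lit 6250000000), (nat_lit 9842000000), (nat_lit 14058000000)], [], [(nat_lit 55080373602), (nat_lit 54431715452), (nat_lit 50329903141), (nat_lit 51750814363), (nat_lit 48714098968), (nat_lit 48561854242), (nat_lit 45932892544), (nat_lit 45727653456)], (nat_lit 1271251), (nat_lit 1271251), (nat_lit 422188), (nat_lit 780000), (nat_lit 54688), (nat_lit 2845626), [(nat_lit 1412501), (nat_lit 1271251), (nat_lit 1271251)], [(nat_lit 24), (nat_lit 63), (nat_lit 428), (nat_lit 200), (nat_lit 10)]⟩⟩)))) (.dle (nat_lit 0)))) (.trZ (nat_lit 0) (nat_lit 1) (nat_lit 3) (nat_lit 99) (nat_lit 77)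 (nat_lit 100) (nat_lit 120) (.trZ (nat_lit 1) (nat_lit 2) (nat_lit 5) (nat_lit 100) (nat_lit 92) (nat_lit 49) (nat_lit 20) (.leaf ⟨(nat_lit 0), (nat_lit 418), (nat_lit 0), (nat_lit 582), (nat_lit 31465), (nat_lit 4636), (nat_lit 7671), (nat_lit 6285), (nat_lit 0), (nat_lit 418976), (nat_lit 0), [], Pd.none, Pd.none, (nat_lit 0), (nat_lit 1), (nat_lit 0), (nat_lit 0), (nat_lit 5), (nat_lit 0), [⟨(nat_lit 0), (nat_lit 88), (nat_lit 67), (nat_lit 100), (nat_lit 840373683)⟩], [⟨(nat_lit 0), (nat_lit 100), (nat_lit 71), (nat_lit 100), (nat_lit 420280401)⟩, ⟨(nat_lit 0), (nat_lit 100), (nat_lit 72), (nat_lit 77), (nat_lit 465939828)⟩], [], [],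
 ⟨⟨[(nat_lit 40), (nat_lit 80), (nat_lit 120)], [(nat_lit 0), (nat_lit 795), (nat_lit 2800)], [((nat_lit 0), (nat_lit 0), (nat_lit 0)), ((nat_lit 1000), (nat_lit 814), (nat_lit 310)), ((nat_lit 1000), (nat_lit 719), (nat_lit 783))], ((nat_lit 73), (nat_lit 100), (nat_lit 85))⟩, (nat_lit 2625109), (nat_lit 177), (nat_lit 177), (nat_lit 0), (nat_lit 188084), [(nat_lit 2059023078), (nat_lit 4688001824), (nat_lit 7968000000)], [], [(nat_lit 19238451718), (nat_lit 20957346972), (nat_lit 21745464051), (nat_lit 23248907943), (nat_lit 19106263898), (nat_lit 20725759692), (nat_lit 21487072720), (nat_lit 22834304388)], (nat_lit 1271251), (nat_lit 1271251), (nat_lit 780000), (nat_lit 1762501), (nat_lit 422188), (nat_lit 780000), [(nat_lit 490000), (nat_lit 1100000), (nat_lit 1785001)], [(nat_lit 4), (nat_lit 51), (nat_lit 317), (nat_lit 100), (nat_lit 10)]⟩,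
 ⟨⟨[(nat_lit 60), (nat_lit 120), (nat_lit 160)], [(nat_lit 0), (nat_lit 0), (nat_lit 3243)], [((nat_lit 0), (nat_lit 0), (nat_lit 0)), ((nat_lit 0), (nat_lit 0), (nat_lit 0)), ((nat_lit 878), (nat_lit 1000), (nat_lit 945))], ((nat_lit 100), (nat_lit 92), (nat_lit 90))⟩, (nat_lit 2259833), (nat_lit 417), (nat_lit 417), (nat_lit 0), (nat_lit 365601), [(nat_lit 3282000000), (nat_lit 7968000000), (nat_lit 11872000000)], [], [(nat_lit 30983014408), (nat_lit 33191343398), (nat_lit 31988058259), (nat_lit 33707064910), (nat_lit 38387895686), (nat_lit 37277566036), (nat_lit 52604373162), (nat_lit 46119325104)], (nat_lit 1271251), (nat_lit 1271251), (nat_lit 780000), (nat_lit 1762501), (nat_lit 111251), (nat_lit 2866250), [(nat_lit 780000), (nat_lit 1762501), (nat_lit 1271251)], [(nat_lit 12), (nat_lit 59), (nat_lit 483), (nat_lit 250), (nat_lit 12)]⟩,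
 ⟨⟨[(nat_lit 100), (nat_lit 140), (nat_lit 180)], [(nat_lit 0), (nat_lit 508), (nat_lit 2854)], [((nat_lit 0), (nat_lit 0), (nat_lit 0)), ((nat_lit 1000), (nat_lit 1000), (nat_lit 198)), ((nat_lit 777), (nat_lit 1000), (nat_lit 712))], ((nat_lit 100), (nat_lit 64), (nat_lit 83))⟩, (nat_lit 371277), (nat_lit 300), (nat_lit 479), (nat_lit 39567397), (nat_lit 258673), [(nat_lit 3637500000), (nat_lit 5728044000), (nat_lit 8181756000)], [], [(nat_lit 30272660835), (nat_lit 31941343457), (nat_lit 28879846196), (nat_lit 30356019125), (nat_lit 28401622725), (nat_lit 28433658408), (nat_lit 26801115290), (nat_lit 26775117468)], (nat_lit 1271251), (nat_lit 1271251), (nat_lit 422188), (nat_lit 780000), (nat_lit 111251), (nat_lit 2866250), [(nat_lit 1412501), (nat_lit 1271251), (nat_lit 1271251)], [(nat_lit 24), (nat_lit 63), (nat_lit 456), (nat_lit 225), (nat_lit 11)]⟩⟩)))))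
noncomputable def c8_20 : Tr Lf :=
 (.spl (nat_lit 2) (nat_lit 220) (.spl (nat_lit 1) (nat_lit 280) (.dle (nat_lit 0)) (.trZ (nat_lit 0) (nat_lit 1) (nat_lit 3) (nat_lit 99) (nat_lit 77) (nat_lit 100) (nat_lit 120) (.spl (nat_lit 5) (nat_lit 200) (.leaf ⟨(nat_lit 0), (nat_lit 1000), (nat_lit 0), (nat_lit 0), (nat_lit 28568), (nat_lit 5845), (nat_lit 8070), (nat_lit 0), (nat_lit 0), (nat_lit 0), (nat_lit 0), [], Pd.none, Pd.none, (nat_lit 0), (nat_lit 1), (nat_lit 0), (nat_lit 0), (nat_lit 3), (nat_lit 0), [⟨(nat_lit 0), (nat_lit 80), (nat_lit 60), (nat_lit 100), (nat_lit 868320972)⟩], [], [], [],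
 ⟨⟨[(nat_lit 40), (nat_lit 100), (nat_lit 140)], [(nat_lit 0), (nat_lit 1192), (nat_lit 4003)], [((nat_lit 0), (nat_lit 0), (nat_lit 0)), ((nat_lit 1000), (nat_lit 814), (nat_lit 310)), ((nat_lit 992), (nat_lit 771), (nat_lit 1000))], ((nat_lit 76), (nat_lit 100), (nat_lit 97))⟩, (nat_lit 2132680), (nat_lit 284), (nat_lit 284), (nat_lit 0), (nat_lit 102360), [(nat_lit 2245752627), (nat_lit 6250000002), (nat_lit 9842000000)], [], [(nat_lit 25332345858), (nat_lit 26812331692), (nat_lit 26773550597), (nat_lit 28209403509), (nat_lit 22461488490), (nat_lit 23792801367), (nat_lit 23862812909), (nat_lit 25147784554)], (nat_lit 1271251), (nat_lit 1271251), (nat_lit 780000), (nat_lit 1762501), (nat_lit 54688), (nat_lit 780000), [(nat_lit 490000), (nat_lit 1427501), (nat_lit 1271251)], [(nat_lit 5), (nat_lit 55), (nat_lit 317), (nat_lit 100), (nat_lit 9)]⟩,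
 ⟨⟨[(nat_lit 60), (nat_lit 120), (nat_lit 180)], [(nat_lit 0), (nat_lit 0), (nat_lit 4796)], [((nat_lit 0), (nat_lit 0), (nat_lit 0)), ((nat_lit 0), (nat_lit 0), (nat_lit 0)), ((nat_lit 802), (nat_lit 1000), (nat_lit 999))], ((nat_lit 100), (nat_lit 82), (nat_lit 99))⟩, (nat_lit 2255315), (nat_lit 419), (nat_lit 419), (nat_lit 0), (nat_lit 165228), [(nat_lit 3282000000), (nat_lit 7968000000), (nat_lit 14058000000)], [], [(nat_lit 35142523800), (nat_lit 35720797060), (nat_lit 34036999920), (nat_lit 35543675380), (nat_lit 27987347220), (nat_lit 29470368410), (nat_lit 27875317910), (nat_lit 29293150900)], (nat_lit 1271251), (nat_lit 1271251), (nat_lit 780000), (nat_lit 1762501), (nat_lit 0), (nat_lit 1412501), [(nat_lit 780000), (nat_lit 1762501), (nat_lit 1271251)], [(nat_lit 13), (nat_lit 60), (nat_lit 428), (nat_lit 200), (nat_lit 10)]⟩,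
 Rw.none⟩) (.spl (nat_lit 1) (nat_lit 300) (.spl (nat_lit 6) (nat_lit 96) (.leaf ⟨(nat_lit 64), (nat_lit 532), (nat_lit 0), (nat_lit 404), (nat_lit 31762), (nat_lit 4965), (nat_lit 12546), (nat_lit 4468), (nat_lit 0), (nat_lit 0), (nat_lit 256000), [((nat_lit 360), [((nat_lit 39), (nat_lit 5), (nat_lit 64))])], ⟨(nat_lit 7), false, false, false, (nat_lit 227), (nat_lit 3162), (nat_lit 3873), [(nat_lit 1457950), (nat_lit 1466533), (nat_lit 1479715), (nat_lit 1488659), (nat_lit 1651611), (nat_lit 1649490), (nat_lit 1673376), (nat_lit 1671616)]⟩, ⟨(nat_lit 3), false, false, false, (nat_lit 102), (nat_lit 3162), (nat_lit 3873), [(nat_lit 1106311), (nat_lit 1121813), (nat_lit 1215133), (nat_lit 1232444), (nat_lit 1283782), (nat_lit 1289472), (nat_lit 1392656), (nat_lit 1400154)]⟩, (nat_lit 4115400), (nat_lit 46627840), (nat_lit 15828732), (nat_lit 4543428), (nat_lit 5), (nat_lit 0), [⟨(nat_lit 0), (nat_lit 87), (nat_lit 60), (nat_lit 100), (nat_lit 1103770250)⟩],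 [⟨(nat_lit 0), (nat_lit 100), (nat_lit 67), (nat_lit 65), (nat_lit 127120447)⟩], [], [⟨(nat_lit 1), (nat_lit 87), (nat_lit 100), (nat_lit 41), (nat_lit 348199931)⟩],
 ⟨⟨[(nat_lit 40), (nat_lit 100), (nat_lit 140)], [(nat_lit 0), (nat_lit 1192), (nat_lit 4003)], [((nat_lit 0), (nat_lit 0), (nat_lit 0)), ((nat_lit 1000), (nat_lit 814), (nat_lit 310)), ((nat_lit 992), (nat_lit 771), (nat_lit 1000))], ((nat_lit 74), (nat_lit 100), (nat_lit 88))⟩, (nat_lit 1668232), (nat_lit 215), (nat_lit 215), (nat_lit 0), (nat_lit 30623), [(nat_lit 2090219245), (nat_lit 4638249601), (nat_lit 6426422400)], [(nat_lit 0), (nat_lit 0), (nat_lit 0)], [(nat_lit 23233672802), (nat_lit 24585943538), (nat_lit 25264034862), (nat_lit 26572022957), (nat_lit 21191419652), (nat_lit 22544479042), (nat_lit 23241212729), (nat_lit 24399852104)], (nat_lit 1271251), (nat_lit 1271251), (nat_lit 780000), (nat_lit 1762501), (nat_lit 54688), (nat_lit 780000), [(nat_lit 490000), (nat_lit 1427501),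 (nat_lit 1271251)], [(nat_lit 5), (nat_lit 55), (nat_lit 317), (nat_lit 100), (nat_lit 9)]⟩,
 ⟨⟨[(nat_lit 60), (nat_lit 120), (nat_lit 160)], [(nat_lit 0), (nat_lit 0), (nat_lit 3243)], [((nat_lit 0), (nat_lit 0), (nat_lit 0)), ((nat_lit 0), (nat_lit 0), (nat_lit 0)), ((nat_lit 878), (nat_lit 1000), (nat_lit 945))], ((nat_lit 100), (nat_lit 89), (nat_lit 93))⟩, (nat_lit 0), (nat_lit 187), (nat_lit 187), (nat_lit 0), (nat_lit 61701), [(nat_lit 3071952000), (nat_lit 7458048000), (nat_lit 11112192000)], [], [(nat_lit 25332421311), (nat_lit 26942284400), (nat_lit 25605072936), (nat_lit 26806012596), (nat_lit 38374983738), (nat_lit 39017857419), (nat_lit 35917060788), (nat_lit 36957355398)], (nat_lit 1271251), (nat_lit 1271251), (nat_lit 780000), (nat_lit 1762501), (nat_lit 1271251), (nat_lit 1271251), [(nat_lit 780000), (nat_lit 1762501), (nat_lit 1271251)], [(nat_lit 12), (nat_lit 59), (nat_lit 483), (nat_lit 250), (nat_lit 12)]⟩,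
 ⟨⟨[(nat_lit 140), (nat_lit 180), (nat_lit 200)], [(nat_lit 0), (nat_lit 0), (nat_lit 2835)], [((nat_lit 0), (nat_lit 0), (nat_lit 0)), ((nat_lit 0), (nat_lit 0), (nat_lit 0)), ((nat_lit 363), (nat_lit 1000), (nat_lit 798))], ((nat_lit 0), (nat_lit 0), (nat_lit 0))⟩, (nat_lit 111153), (nat_lit 300), (nat_lit 527), (nat_lit 31552407), (nat_lit 187778), [(nat_lit 3976168000), (nat_lit 5679432000), (nat_lit 6625600000)], [], [(nat_lit 26728833529), (nat_lit 25608767442), (nat_lit 23423009763), (nat_lit 22356991965), (nat_lit 27336824000), (nat_lit 25935265521), (nat_lit 23905862788), (nat_lit 22493831791)], (nat_lit 780000), (nat_lit 1598751), (nat_lit 54688), (nat_lit 780000), (nat_lit 1271251), (nat_lit 1271251), [(nat_lit 1977501), (nat_lit 1271251), (nat_lit 1271251)], [(nat_lit 32), (nat_lit 67), (nat_lit 428), (nat_lit 200), (nat_lit 9)]⟩⟩) (.dle (nat_lit 0))) (.trZ (nat_lit 0) (nat_lit 1) (nat_lit 3) (nat_lit 90) (nat_lit 74) (nat_lit 100) (nat_lit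 140) (.trX (nat_lit 5) (nat_lit 1) (nat_lit 2) (nat_lit 87) (nat_lit 41) (nat_lit 100) (nat_lit 390) (.leaf ⟨(nat_lit 0), (nat_lit 865), (nat_lit 0), (nat_lit 135), (nat_lit 25135), (nat_lit 5829), (nat_lit 7019), (nat_lit 1674), (nat_lit 0), (nat_lit 0), (nat_lit 0), [], Pd.none, Pd.none, (nat_lit 0), (nat_lit 1), (nat_lit 0), (nat_lit 0), (nat_lit 5), (nat_lit 0), [⟨(nat_lit 0), (nat_lit 80), (nat_lit 60), (nat_lit 100), (nat_lit 789407652)⟩], [⟨(nat_lit 0), (nat_lit 100), (nat_lit 67), (nat_lit 65), (nat_lit 225089160)⟩], [⟨(nat_lit 1), (nat_lit 68), (nat_lit 84), (nat_lit 100), (nat_lit 368034147)⟩], [],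
 ⟨⟨[(nat_lit 40), (nat_lit 100), (nat_lit 140)], [(nat_lit 0), (nat_lit 1192), (nat_lit 4003)], [((nat_lit 0), (nat_lit 0), (nat_lit 0)), ((nat_lit 1000), (nat_lit 814), (nat_lit 310)), ((nat_lit 992), (nat_lit 771), (nat_lit 1000))], ((nat_lit 76), (nat_lit 100), (nat_lit 97))⟩, (nat_lit 2137814), (nat_lit 231), (nat_lit 231), (nat_lit 0), (nat_lit 102360), [(nat_lit 2256322450), (nat_lit 6250000001), (nat_lit 9842000000)], [], [(nat_lit 25248833232), (nat_lit 26686696980), (nat_lit 26759630970), (nat_lit 28179380783), (nat_lit 22408647685), (nat_lit 23702253942), (nat_lit 23877375931), (nat_lit 25160423720)], (nat_lit 1271251), (nat_lit 1271251), (nat_lit 936250), (nat_lit 1773751), (nat_lit 54688), (nat_lit 780000), [(nat_lit 490000), (nat_lit 1427501), (nat_lit 1271251)], [(nat_lit 5), (nat_lit 55), (nat_lit 317), (nat_lit 100), (nat_lit 9)]⟩,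
 ⟨⟨[(nat_lit 60), (nat_lit 120), (nat_lit 160)], [(nat_lit 0), (nat_lit 913), (nat_lit 3885)], [((nat_lit 0), (nat_lit 0), (nat_lit 0)), ((nat_lit 1000), (nat_lit 905), (nat_lit 238)), ((nat_lit 886), (nat_lit 948), (nat_lit 1000))], ((nat_lit 95), (nat_lit 90), (nat_lit 100))⟩, (nat_lit 2120723), (nat_lit 209), (nat_lit 209), (nat_lit 0), (nat_lit 159869), [(nat_lit 3282000000), (nat_lit 7968000000), (nat_lit 11872000000)], [], [(nat_lit 23557181613), (nat_lit 24699020186), (nat_lit 24925804457), (nat_lit 25850465465), (nat_lit 31999005806), (nat_lit 32598716939), (nat_lit 32108601256), (nat_lit 32736409198)], (nat_lit 1271251), (nat_lit 1271251), (nat_lit 936250), (nat_lit 1773751), (nat_lit 1271251), (nat_lit 1271251), [(nat_lit 780000), (nat_lit 1762501), (nat_lit 1271251)], [(nat_lit 12), (nat_lit 59), (nat_lit 483), (nat_lit 250), (nat_lit 12)]⟩,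
 ⟨⟨[(nat_lit 140), (nat_lit 180), (nat_lit 200)], [(nat_lit 0), (nat_lit 0), (nat_lit 2835)], [((nat_lit 0), (nat_lit 0), (nat_lit 0)), ((nat_lit 0), (nat_lit 0), (nat_lit 0)), ((nat_lit 363), (nat_lit 1000), (nat_lit 798))], ((nat_lit 0), (nat_lit 0), (nat_lit 0))⟩, (nat_lit 37143), (nat_lit 300), (nat_lit 770), (nat_lit 10543500), (nat_lit 683897), [(nat_lit 1328670000), (nat_lit 1897830000), (nat_lit 2214000000)], [], [(nat_lit 9271253034), (nat_lit 8749058858), (nat_lit 8017557066), (nat_lit 7518196852), (nat_lit 9138893707), (nat_lit 8588663767), (nat_lit 7863032975), (nat_lit 7276278336)], (nat_lit 780000), (nat_lit 1598751), (nat_lit 54688), (nat_lit 780000), (nat_lit 1271251), (nat_lit 1271251), [(nat_lit 1977501), (nat_lit 1271251), (nat_lit 1271251)], [(nat_lit 32), (nat_lit 67), (nat_lit 428), (nat_lit 200), (nat_lit 9)]⟩⟩))))))) (.trZ (nat_lit 0) (nat_lit 2) (nat_lit 4) (nat_lit 100) (nat_lit 72) (nat_lit 77) (nat_lit 70) (.spl (nat_lit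 6) (nat_lit 100) (.leaf ⟨(nat_lit 800), (nat_lit 45), (nat_lit 0), (nat_lit 155), (nat_lit 300000), (nat_lit 3720), (nat_lit 2186), (nat_lit 1597), (nat_lit 0), (nat_lit 7053), (nat_lit 705200), [((nat_lit 360), [((nat_lit 23), (nat_lit 1), (nat_lit 158)), ((nat_lit 23), (nat_lit 2), (nat_lit 642))])], ⟨(nat_lit 6), false, false, false, (nat_lit 210), (nat_lit 3162), (nat_lit 3873), [(nat_lit 1349867), (nat_lit 1361295), (nat_lit 1436926), (nat_lit 1449800), (nat_lit 1608082), (nat_lit 1605237), (nat_lit 1695141), (nat_lit 1693742)]⟩, ⟨(nat_lit 5), false, false, false, (nat_lit 165), (nat_lit 3162), (nat_lit 3873), [(nat_lit 1311964), (nat_lit 1323922), (nat_lit 1420787), (nat_lit 1434554), (nat_lit 1392656), (nat_lit 1400154), (nat_lit 1501479), (nat_lit 1510785)]⟩, (nat_lit 4686432), (nat_lit 44154387), (nat_lit 13583398), (nat_lit 9262215), (nat_lit 5), (nat_lit 0), [⟨(nat_lit 0), (nat_lit 80), (nat_lit 60), (nat_lit 100), (nat_lit 309486969)⟩],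 [⟨(nat_lit 0), (nat_lit 100), (nat_lit 71), (nat_lit 100), (nat_lit 3144205468)⟩], [⟨(nat_lit 0), (nat_lit 100), (nat_lit 98), (nat_lit 74), (nat_lit 370645)⟩], [],
 ⟨⟨[(nat_lit 40), (nat_lit 100), (nat_lit 140)], [(nat_lit 0), (nat_lit 1192), (nat_lit 4003)], [((nat_lit 0), (nat_lit 0), (nat_lit 0)), ((nat_lit 1000), (nat_lit 814), (nat_lit 310)), ((nat_lit 992), (nat_lit 771), (nat_lit 1000))], ((nat_lit 74), (nat_lit 100), (nat_lit 90))⟩, (nat_lit 804), (nat_lit 183), (nat_lit 183), (nat_lit 0), (nat_lit 40991), [(nat_lit 1616042378), (nat_lit 637740067), (nat_lit 0)], [(nat_lit 0), (nat_lit 0), (nat_lit 1832049600)], [(nat_lit 18598050928), (nat_lit 20064913108), (nat_lit 21118568073), (nat_lit 22278016258), (nat_lit 18602922688), (nat_lit 19990193388), (nat_lit 21024547008), (nat_lit 22124045477)], (nat_lit 1271251), (nat_lit 1271251), (nat_lit 490000), (nat_lit 1740001), (nat_lit 422188), (nat_lit 780000), [(nat_lit 490000), (nat_lit 1427501),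 (nat_lit 1271251)], [(nat_lit 5), (nat_lit 55), (nat_lit 317), (nat_lit 100), (nat_lit 9)]⟩,
 ⟨⟨[(nat_lit 80), (nat_lit 140), (nat_lit 180)], [(nat_lit 0), (nat_lit 0), (nat_lit 3656)], [((nat_lit 0), (nat_lit 0), (nat_lit 0)), ((nat_lit 0), (nat_lit 0), (nat_lit 0)), ((nat_lit 637), (nat_lit 1000), (nat_lit 908))], ((nat_lit 100), (nat_lit 68), (nat_lit 88))⟩, (nat_lit 473481), (nat_lit 420), (nat_lit 420), (nat_lit 0), (nat_lit 95285), [(nat_lit 937600000), (nat_lit 1968400000), (nat_lit 2811600000)], [], [(nat_lit 7925602120), (nat_lit 8403272168), (nat_lit 9280577232), (nat_lit 7797006040), (nat_lit 12505047992), (nat_lit 8763822664), (nat_lit 17041769448), (nat_lit 13474549720)], (nat_lit 1271251), (nat_lit 1271251), (nat_lit 490000), (nat_lit 1740001), (nat_lit 0), (nat_lit 2825001), [(nat_lit 1100000), (nat_lit 2127501), (nat_lit 1271251)], [(nat_lit 19), (nat_lit 63), (nat_lit 483), (nat_lit 250), (nat_lit 11)]⟩,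
 ⟨⟨[(nat_lit 100), (nat_lit 160), (nat_lit 200)], [(nat_lit 0), (nat_lit 761), (nat_lit 5273)], [((nat_lit 0), (nat_lit 0), (nat_lit 0)), ((nat_lit 1000), (nat_lit 1000), (nat_lit 198)), ((nat_lit 518), (nat_lit 1000), (nat_lit 909))], ((nat_lit 0), (nat_lit 0), (nat_lit 0))⟩, (nat_lit 55950), (nat_lit 300), (nat_lit 504), (nat_lit 11234888), (nat_lit 70823), [(nat_lit 968750000), (nat_lit 1840160000), (nat_lit 2542000000)], [], [(nat_lit 10158273522), (nat_lit 10284734611), (nat_lit 9743273181), (nat_lit 9830488662), (nat_lit 9480768150), (nat_lit 8689866995), (nat_lit 10260678848), (nat_lit 8249386848)], (nat_lit 1271251), (nat_lit 1271251), (nat_lit 422188), (nat_lit 780000), (nat_lit 0), (nat_lit 2825001), [(nat_lit 1412501), (nat_lit 1271251), (nat_lit 1271251)], [(nat_lit 25), (nat_lit 66), (nat_lit 456), (nat_lit 225), (nat_lit 10)]⟩⟩) (.dle (nat_lit 0)))))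
noncomputable def c8_21 : Tr Lf :=
 (.trX (nat_lit 5) (nat_lit 3) (nat_lit 4) (nat_lit 100) (nat_lit 59) (nat_lit 94) (nat_lit 370) (.spl (nat_lit 1) (nat_lit 280) (.ord (.trX (nat_lit 3) (nat_lit 0) (nat_lit 1) (nat_lit 78) (nat_lit 39) (nat_lit 100) (nat_lit 390) (.spl (nat_lit 6) (nat_lit 80) (.spl (nat_lit 5) (nat_lit 200) (.leaf ⟨(nat_lit 0), (nat_lit 1000), (nat_lit 0), (nat_lit 0), (nat_lit 20280), (nat_lit 5591), (nat_lit 9267), (nat_lit 0), (nat_lit 0), (nat_lit 215457), (nat_lit 0), [], Pd.none, Pd.none, (nat_lit 0), (nat_lit 1), (nat_lit 0), (nat_lit 0), (nat_lit 3), (nat_lit 0), [], [⟨(nat_lit 0), (nat_lit 94), (nat_lit 62), (nat_lit 100), (nat_lit 229419920)⟩], [⟨(nat_lit 0), (nat_lit 100), (nat_lit 100), (nat_lit 80), (nat_lit 32057988)⟩], [],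
 ⟨⟨[(nat_lit 40), (nat_lit 80), (nat_lit 120)], [(nat_lit 0), (nat_lit 795), (nat_lit 2800)], [((nat_lit 0), (nat_lit 0), (nat_lit 0)), ((nat_lit 1000), (nat_lit 814), (nat_lit 310)), ((nat_lit 1000), (nat_lit 719), (nat_lit 783))], ((nat_lit 72), (nat_lit 100), (nat_lit 81))⟩, (nat_lit 1304972), (nat_lit 233), (nat_lit 233), (nat_lit 0), (nat_lit 88013), [(nat_lit 2238568790), (nat_lit 4688000079), (nat_lit 7968000000)], [], [(nat_lit 27852441416), (nat_lit 29393682949), (nat_lit 36827000524), (nat_lit 38252223886), (nat_lit 25270684363), (nat_lit 26513339972), (nat_lit 32286694969), (nat_lit 33277810765)], (nat_lit 1271251), (nat_lit 1271251), (nat_lit 1271251), (nat_lit 1271251), (nat_lit 54688), (nat_lit 780000), [(nat_lit 490000), (nat_lit 1100000), (nat_lit 1785001)], [(nat_lit 4), (nat_lit 51), (nat_lit 238), (nat_lit 30), (nat_lit 7)]⟩,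
 ⟨⟨[(nat_lit 80), (nat_lit 140), (nat_lit 180)], [(nat_lit 0), (nat_lit 0), (nat_lit 3656)], [((nat_lit 0), (nat_lit 0), (nat_lit 0)), ((nat_lit 0), (nat_lit 0), (nat_lit 0)), ((nat_lit 637), (nat_lit 1000), (nat_lit 908))], ((nat_lit 100), (nat_lit 76), (nat_lit 82))⟩, (nat_lit 1946374), (nat_lit 405), (nat_lit 405), (nat_lit 0), (nat_lit 197868), [(nat_lit 4688000000), (nat_lit 9842000000), (nat_lit 14058000000)], [], [(nat_lit 38671311208), (nat_lit 40048807668), (nat_lit 45051527387), (nat_lit 45876163306), (nat_lit 31139054328), (nat_lit 32139574358), (nat_lit 36531567571), (nat_lit 37232777538)], (nat_lit 1271251), (nat_lit 1271251), (nat_lit 1271251), (nat_lit 1271251), (nat_lit 0), (nat_lit 1412501), [(nat_lit 1100000), (nat_lit 2127501), (nat_lit 1271251)], [(nat_lit 19), (nat_lit 63), (nat_lit 456), (nat_lit 225), (nat_lit 10)]⟩,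
 Rw.none⟩) (.leaf ⟨(nat_lit 0), (nat_lit 699), (nat_lit 0), (nat_lit 301), (nat_lit 3745), (nat_lit 4790), (nat_lit 10441), (nat_lit 3480), (nat_lit 0), (nat_lit 839), (nat_lit 0), [], Pd.none, Pd.none, (nat_lit 0), (nat_lit 1), (nat_lit 0), (nat_lit 0), (nat_lit 5), (nat_lit 0), [], [⟨(nat_lit 0), (nat_lit 100), (nat_lit 66), (nat_lit 75), (nat_lit 139377367)⟩], [], [⟨(nat_lit 1), (nat_lit 100), (nat_lit 84), (nat_lit 76), (nat_lit 220124315)⟩],
 ⟨⟨[(nat_lit 40), (nat_lit 80), (nat_lit 120)], [(nat_lit 0), (nat_lit 795), (nat_lit 2800)], [((nat_lit 0), (nat_lit 0), (nat_lit 0)), ((nat_lit 1000), (nat_lit 814), (nat_lit 310)), ((nat_lit 1000), (nat_lit 719), (nat_lit 783))], ((nat_lit 72), (nat_lit 100), (nat_lit 81))⟩, (nat_lit 2288806), (nat_lit 233), (nat_lit 233), (nat_lit 0), (nat_lit 88013), [(nat_lit 2032000002), (nat_lit 4688000001), (nat_lit 7968000000)], [], [(nat_lit 24974676678), (nat_lit 26246065874), (nat_lit 34659746626), (nat_lit 35975549771),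 (nat_lit 23072406433), (nat_lit 24170697201), (nat_lit 30731170868), (nat_lit 31948921928)], (nat_lit 1271251), (nat_lit 1271251), (nat_lit 1271251), (nat_lit 1271251), (nat_lit 54688), (nat_lit 780000), [(nat_lit 490000), (nat_lit 1100000), (nat_lit 1785001)], [(nat_lit 4), (nat_lit 51), (nat_lit 238), (nat_lit 30), (nat_lit 7)]⟩,
 ⟨⟨[(nat_lit 80), (nat_lit 140), (nat_lit 180)], [(nat_lit 0), (nat_lit 0), (nat_lit 3656)], [((nat_lit 0), (nat_lit 0), (nat_lit 0)), ((nat_lit 0), (nat_lit 0), (nat_lit 0)), ((nat_lit 637), (nat_lit 1000), (nat_lit 908))], ((nat_lit 100), (nat_lit 76), (nat_lit 82))⟩, (nat_lit 2160202), (nat_lit 237), (nat_lit 237), (nat_lit 0), (nat_lit 197868), [(nat_lit 4688000000), (nat_lit 9842000000), (nat_lit 14058000000)], [], [(nat_lit 25310953928), (nat_lit 27171636405), (nat_lit 33720184876), (nat_lit 34720501166), (nat_lit 32261772989), (nat_lit 33293616651), (nat_lit 40147424621), (nat_lit 41265517300)], (nat_lit 1271251),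 (nat_lit 1271251), (nat_lit 1271251), (nat_lit 1271251), (nat_lit 1271251), (nat_lit 1271251), [(nat_lit 1100000), (nat_lit 2127501), (nat_lit 1271251)], [(nat_lit 19), (nat_lit 63), (nat_lit 538), (nat_lit 300), (nat_lit 12)]⟩,
 ⟨⟨[(nat_lit 140), (nat_lit 180), (nat_lit 200)], [(nat_lit 0), (nat_lit 0), (nat_lit 2835)], [((nat_lit 0), (nat_lit 0), (nat_lit 0)), ((nat_lit 0), (nat_lit 0), (nat_lit 0)), ((nat_lit 363), (nat_lit 1000), (nat_lit 798))], ((nat_lit 0), (nat_lit 0), (nat_lit 0))⟩, (nat_lit 82815), (nat_lit 300), (nat_lit 720), (nat_lit 23508100), (nat_lit 567566), [(nat_lit 2962442000), (nat_lit 4231458000), (nat_lit 4936400000)], [], [(nat_lit 20962342698), (nat_lit 19648603992), (nat_lit 18505097000), (nat_lit 19193166156), (nat_lit 20688981687), (nat_lit 19069226206), (nat_lit 18073433370), (nat_lit 16514345916)], (nat_lit 780000), (nat_lit 2090001), (nat_lit 54688), (nat_lit 780000), (nat_lit 1271251), (nat_lit 1271251), [(nat_lit 1977501),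 (nat_lit 1271251), (nat_lit 1271251)], [(nat_lit 32), (nat_lit 67), (nat_lit 428), (nat_lit 200), (nat_lit 9)]⟩⟩)) (.dle (nat_lit 0))))) (.spl (nat_lit 5) (nat_lit 200) (.spl (nat_lit 6) (nat_lit 88) (.spl (nat_lit 0) (nat_lit 350) (.leaf ⟨(nat_lit 0), (nat_lit 895), (nat_lit 0), (nat_lit 105), (nat_lit 0), (nat_lit 5919), (nat_lit 6486), (nat_lit 1344), (nat_lit 0), (nat_lit 99791), (nat_lit 0), [], Pd.none, Pd.none, (nat_lit 0), (nat_lit 1), (nat_lit 0), (nat_lit 0), (nat_lit 3), (nat_lit 0), [], [⟨(nat_lit 0), (nat_lit 100), (nat_lit 69), (nat_lit 79), (nat_lit 443142216)⟩], [⟨(nat_lit 0), (nat_lit 100), (nat_lit 87), (nat_lit 59), (nat_lit 5394449)⟩], [],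
 ⟨⟨[(nat_lit 40), (nat_lit 80), (nat_lit 120)], [(nat_lit 0), (nat_lit 795), (nat_lit 2800)], [((nat_lit 0), (nat_lit 0), (nat_lit 0)), ((nat_lit 1000), (nat_lit 814), (nat_lit 310)), ((nat_lit 1000), (nat_lit 719), (nat_lit 783))], ((nat_lit 73), (nat_lit 100), (nat_lit 85))⟩, (nat_lit 1113733), (nat_lit 267), (nat_lit 267), (nat_lit 0), (nat_lit 192817), [(nat_lit 2339456991), (nat_lit 4688000050), (nat_lit 7968000000)], [], [(nat_lit 28405617341), (nat_lit 29247874141), (nat_lit 38590841938), (nat_lit 39297584394), (nat_lit 25430308127), (nat_lit 26071062470), (nat_lit 33429547140), (nat_lit 33921286980)], (nat_lit 1271251), (nat_lit 1271251), (nat_lit 1271251), (nat_lit 1271251), (nat_lit 54688), (nat_lit 780000), [(nat_lit 490000), (nat_lit 1100000), (nat_lit 1785001)], [(nat_lit 4), (nat_lit 51), (nat_lit 238), (nat_lit 30), (nat_lit 7)]⟩,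
 ⟨⟨[(nat_lit 60), (nat_lit 120), (nat_lit 160)], [(nat_lit 0), (nat_lit 0), (nat_lit 3243)], [((nat_lit 0), (nat_lit 0), (nat_lit 0)), ((nat_lit 0), (nat_lit 0), (nat_lit 0)), ((nat_lit 878), (nat_lit 1000), (nat_lit 945))], ((nat_lit 100), (nat_lit 92), (nat_lit 90))⟩, (nat_lit 1759333), (nat_lit 394), (nat_lit 394), (nat_lit 0), (nat_lit 317562), [(nat_lit 3282000000), (nat_lit 7968000000), (nat_lit 11872000000)], [], [(nat_lit 35661923261), (nat_lit 37294693393), (nat_lit 42495249477), (nat_lit 43396008608), (nat_lit 31846192641), (nat_lit 33102241381), (nat_lit 37400382808), (nat_lit 38306591644)], (nat_lit 1271251), (nat_lit 1271251), (nat_lit 1271251), (nat_lit 1271251), (nat_lit 0), (nat_lit 1412501), [(nat_lit 780000), (nat_lit 1762501), (nat_lit 1271251)], [(nat_lit 12), (nat_lit 59), (nat_lit 483), (nat_lit 250), (nat_lit 12)]⟩,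
 ⟨⟨[(nat_lit 140), (nat_lit 180), (nat_lit 200)], [(nat_lit 0), (nat_lit 0), (nat_lit 2835)], [((nat_lit 0), (nat_lit 0), (nat_lit 0)), ((nat_lit 0), (nat_lit 0), (nat_lit 0)), ((nat_lit 363), (nat_lit 1000), (nat_lit 798))], ((nat_lit 0), (nat_lit 0), (nat_lit 0))⟩, (nat_lit 28889), (nat_lit 300), (nat_lit 1194), (nat_lit 8200500), (nat_lit 1312090), [(nat_lit 1033410000), (nat_lit 1476090000), (nat_lit 1722000000)], [], [(nat_lit 10025461546), (nat_lit 8214356871), (nat_lit 7665092022), (nat_lit 7110946416), (nat_lit 7162571042), (nat_lit 7518236628), (nat_lit 6196408743), (nat_lit 8339713620)], (nat_lit 780000), (nat_lit 2417500), (nat_lit 54688), (nat_lit 780000), (nat_lit 0), (nat_lit 1412501), [(nat_lit 1977501), (nat_lit 1271251), (nat_lit 1271251)], [(nat_lit 32), (nat_lit 67), (nat_lit 401), (nat_lit 175), (nat_lit 9)]⟩⟩) (.leaf ⟨(nat_lit 0), (nat_lit 1000), (nat_lit 0), (nat_lit 0), (nat_lit 0), (nat_lit 4508), (nat_lit 7896), (nat_lit 0),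 (nat_lit 0), (nat_lit 106659), (nat_lit 0), [], Pd.none, Pd.none, (nat_lit 0), (nat_lit 1), (nat_lit 0), (nat_lit 0), (nat_lit 3), (nat_lit 0), [], [⟨(nat_lit 0), (nat_lit 100), (nat_lit 64), (nat_lit 84), (nat_lit 608452388)⟩], [], [],
 ⟨⟨[(nat_lit 40), (nat_lit 80), (nat_lit 120)], [(nat_lit 0), (nat_lit 1195), (nat_lit 3135)], [((nat_lit 0), (nat_lit 0), (nat_lit 0)), ((nat_lit 1000), (nat_lit 720), (nat_lit 465)), ((nat_lit 1000), (nat_lit 661), (nat_lit 757))], ((nat_lit 67), (nat_lit 100), (nat_lit 84))⟩, (nat_lit 2330478), (nat_lit 281), (nat_lit 281), (nat_lit 0), (nat_lit 239627), [(nat_lit 2032000110), (nat_lit 4688000055), (nat_lit 7968000000)], [], [(nat_lit 24740278423), (nat_lit 25720689921), (nat_lit 35264881400), (nat_lit 35880807399), (nat_lit 22834139942), (nat_lit 23279766177), (nat_lit 31560388175), (nat_lit 32132051268)], (nat_lit 1271251), (nat_lit 1271251), (nat_lit 1271251), (nat_lit 1271251), (nat_lit 54688), (nat_lit 780000),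 [(nat_lit 490000), (nat_lit 1100000), (nat_lit 1785001)], [(nat_lit 4), (nat_lit 51), (nat_lit 238), (nat_lit 30), (nat_lit 7)]⟩,
 ⟨⟨[(nat_lit 60), (nat_lit 120), (nat_lit 160)], [(nat_lit 0), (nat_lit 0), (nat_lit 3243)], [((nat_lit 0), (nat_lit 0), (nat_lit 0)), ((nat_lit 0), (nat_lit 0), (nat_lit 0)), ((nat_lit 878), (nat_lit 1000), (nat_lit 945))], ((nat_lit 100), (nat_lit 92), (nat_lit 90))⟩, (nat_lit 1557726), (nat_lit 419), (nat_lit 419), (nat_lit 0), (nat_lit 393031), [(nat_lit 3282000000), (nat_lit 7968000000), (nat_lit 11872000000)], [], [(nat_lit 38148819526), (nat_lit 39344040438), (nat_lit 43348218230), (nat_lit 43922076182), (nat_lit 32828717046), (nat_lit 33698729078), (nat_lit 36923102752), (nat_lit 37495386240)], (nat_lit 1271251), (nat_lit 1271251), (nat_lit 1271251), (nat_lit 1271251), (nat_lit 0), (nat_lit 1412501), [(nat_lit 780000), (nat_lit 1762501), (nat_lit 1271251)], [(nat_lit 12), (nat_lit 59), (nat_lit 483), (nat_lit 250),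 (nat_lit 12)]⟩,
 Rw.none⟩)) (.leaf ⟨(nat_lit 0), (nat_lit 1000), (nat_lit 0), (nat_lit 0), (nat_lit 21586), (nat_lit 6394), (nat_lit 7742), (nat_lit 0), (nat_lit 0), (nat_lit 12028), (nat_lit 0), [], Pd.none, Pd.none, (nat_lit 0), (nat_lit 1), (nat_lit 0), (nat_lit 0), (nat_lit 3), (nat_lit 0), [], [⟨(nat_lit 0), (nat_lit 100), (nat_lit 66), (nat_lit 82), (nat_lit 426135821)⟩], [], [],
 ⟨⟨[(nat_lit 40), (nat_lit 100), (nat_lit 140)], [(nat_lit 0), (nat_lit 1192), (nat_lit 4003)], [((nat_lit 0), (nat_lit 0), (nat_lit 0)), ((nat_lit 1000), (nat_lit 814), (nat_lit 310)), ((nat_lit 992), (nat_lit 771), (nat_lit 1000))], ((nat_lit 76), (nat_lit 100), (nat_lit 97))⟩, (nat_lit 1228347), (nat_lit 272), (nat_lit 272), (nat_lit 0), (nat_lit 102360), [(nat_lit 2657802776), (nat_lit 6250000011), (nat_lit 9842000000)], [], [(nat_lit 31034024560), (nat_lit 32303700325), (nat_lit 39917841303), (nat_lit 41392471245), (nat_lit 27613102468), (nat_lit 28756116194), (nat_lit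 34464837762), (nat_lit 35396662574)], (nat_lit 1271251), (nat_lit 1271251), (nat_lit 1271251), (nat_lit 1271251), (nat_lit 54688), (nat_lit 780000), [(nat_lit 490000), (nat_lit 1427501), (nat_lit 1271251)], [(nat_lit 5), (nat_lit 55), (nat_lit 373), (nat_lit 150), (nat_lit 10)]⟩,
 ⟨⟨[(nat_lit 60), (nat_lit 120), (nat_lit 180)], [(nat_lit 0), (nat_lit 0), (nat_lit 4796)], [((nat_lit 0), (nat_lit 0), (nat_lit 0)), ((nat_lit 0), (nat_lit 0), (nat_lit 0)), ((nat_lit 802), (nat_lit 1000), (nat_lit 999))], ((nat_lit 100), (nat_lit 82), (nat_lit 99))⟩, (nat_lit 2063771), (nat_lit 388), (nat_lit 388), (nat_lit 0), (nat_lit 169042), [(nat_lit 3282000000), (nat_lit 7968000000), (nat_lit 14058000000)], [], [(nat_lit 35156499680), (nat_lit 36642091956), (nat_lit 41860009324), (nat_lit 42934463776), (nat_lit 29379182174), (nat_lit 30497381548), (nat_lit 35345853176), (nat_lit 36260509868)], (nat_lit 1271251), (nat_lit 1271251), (nat_lit 1271251), (nat_lit 1271251),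 (nat_lit 0), (nat_lit 1412501), [(nat_lit 780000), (nat_lit 1762501), (nat_lit 1271251)], [(nat_lit 13), (nat_lit 60), (nat_lit 483), (nat_lit 250), (nat_lit 11)]⟩,
 Rw.none⟩)) (.trX (nat_lit 3) (nat_lit 5) (nat_lit 4) (nat_lit 100) (nat_lit 40) (nat_lit 92) (nat_lit 390) (.spl (nat_lit 6) (nat_lit 88) (.leaf ⟨(nat_lit 0), (nat_lit 800), (nat_lit 0), (nat_lit 200), (nat_lit 0), (nat_lit 5450), (nat_lit 8472), (nat_lit 2245), (nat_lit 0), (nat_lit 486), (nat_lit 0), [], Pd.none, Pd.none, (nat_lit 0), (nat_lit 1), (nat_lit 0), (nat_lit 0), (nat_lit 5), (nat_lit 0), [], [⟨(nat_lit 0), (nat_lit 100), (nat_lit 66), (nat_lit 82), (nat_lit 194496934)⟩], [], [⟨(nat_lit 1), (nat_lit 100), (nat_lit 90), (nat_lit 96), (nat_lit 146255356)⟩],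
 ⟨⟨[(nat_lit 40), (nat_lit 80), (nat_lit 120)], [(nat_lit 0), (nat_lit 795), (nat_lit 2800)], [((nat_lit 0), (nat_lit 0), (nat_lit 0)), ((nat_lit 1000), (nat_lit 814), (nat_lit 310)), ((nat_lit 1000), (nat_lit 719), (nat_lit 783))], ((nat_lit 73), (nat_lit 100), (nat_lit 85))⟩, (nat_lit 2269934), (nat_lit 280), (nat_lit 280), (nat_lit 0), (nat_lit 241835), [(nat_lit 2078743079), (nat_lit 4688000001), (nat_lit 7968000000)], [], [(nat_lit 25272923457), (nat_lit 27473933963), (nat_lit 36445498901), (nat_lit 37851461027), (nat_lit 22429090017), (nat_lit 23466117350), (nat_lit 31744764713), (nat_lit 33043886513)], (nat_lit 1271251), (nat_lit 1271251), (nat_lit 1271251), (nat_lit 1271251), (nat_lit 54688), (nat_lit 780000), [(nat_lit 490000), (nat_lit 1100000), (nat_lit 1785001)], [(nat_lit 4), (nat_lit 51), (nat_lit 238), (nat_lit 30), (nat_lit 7)]⟩,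
 ⟨⟨[(nat_lit 60), (nat_lit 120), (nat_lit 160)], [(nat_lit 0), (nat_lit 0), (nat_lit 3243)], [((nat_lit 0), (nat_lit 0), (nat_lit 0)), ((nat_lit 0), (nat_lit 0), (nat_lit 0)), ((nat_lit 878), (nat_lit 1000), (nat_lit 945))], ((nat_lit 100), (nat_lit 92), (nat_lit 90))⟩, (nat_lit 1626356), (nat_lit 271), (nat_lit 271), (nat_lit 0), (nat_lit 391864), [(nat_lit 3282000000), (nat_lit 7968000000), (nat_lit 11872000000)], [], [(nat_lit 28493034612), (nat_lit 29849555092), (nat_lit 33912628873), (nat_lit 34747673782), (nat_lit 32943650126), (nat_lit 33629332536), (nat_lit 38724376355), (nat_lit 39813393673)], (nat_lit 1271251), (nat_lit 1271251), (nat_lit 1271251), (nat_lit 1271251), (nat_lit 1271251), (nat_lit 1271251), [(nat_lit 780000), (nat_lit 1762501), (nat_lit 1271251)], [(nat_lit 12), (nat_lit 59), (nat_lit 538), (nat_lit 300), (nat_lit 13)]⟩,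
 ⟨⟨[(nat_lit 140), (nat_lit 180), (nat_lit 200)], [(nat_lit 0), (nat_lit 0), (nat_lit 2835)], [((nat_lit 0), (nat_lit 0), (nat_lit 0)), ((nat_lit 0), (nat_lit 0), (nat_lit 0)), ((nat_lit 363), (nat_lit 1000), (nat_lit 798))], ((nat_lit 0), (nat_lit 0), (nat_lit 0))⟩, (nat_lit 55026), (nat_lit 300), (nat_lit 1213), (nat_lit 15620007), (nat_lit 1645149), [(nat_lit 1968400000), (nat_lit 2811600000), (nat_lit 3280000000)], [], [(nat_lit 14621322083), (nat_lit 13310831462), (nat_lit 13234531805), (nat_lit 13829402825), (nat_lit 13932412926), (nat_lit 12694270247), (nat_lit 12387872068), (nat_lit 11080257479)], (nat_lit 780000), (nat_lit 2417500), (nat_lit 54688), (nat_lit 780000), (nat_lit 1271251), (nat_lit 1271251), [(nat_lit 1977501), (nat_lit 1271251), (nat_lit 1271251)], [(nat_lit 32), (nat_lit 67), (nat_lit 456), (nat_lit 225), (nat_lit 10)]⟩⟩) (.leaf ⟨(nat_lit 0), (nat_lit 736), (nat_lit 0), (nat_lit 264), (nat_lit 6705), (nat_lit 6080), (nat_lit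 7900), (nat_lit 2793), (nat_lit 0), (nat_lit 31163), (nat_lit 0), [], Pd.none, Pd.none, (nat_lit 0), (nat_lit 1), (nat_lit 0), (nat_lit 0), (nat_lit 5), (nat_lit 0), [], [⟨(nat_lit 0), (nat_lit 100), (nat_lit 66), (nat_lit 82), (nat_lit 179148875)⟩], [], [⟨(nat_lit 1), (nat_lit 100), (nat_lit 84), (nat_lit 76), (nat_lit 209107765)⟩],
 ⟨⟨[(nat_lit 40), (nat_lit 100), (nat_lit 140)], [(nat_lit 0), (nat_lit 1192), (nat_lit 4003)], [((nat_lit 0), (nat_lit 0), (nat_lit 0)), ((nat_lit 1000), (nat_lit 814), (nat_lit 310)), ((nat_lit 992), (nat_lit 771), (nat_lit 1000))], ((nat_lit 76), (nat_lit 100), (nat_lit 97))⟩, (nat_lit 2058123), (nat_lit 263), (nat_lit 263), (nat_lit 0), (nat_lit 102360), [(nat_lit 2508594106), (nat_lit 6250000031), (nat_lit 9842000000)], [], [(nat_lit 27089289651), (nat_lit 28646965251), (nat_lit 38150080619), (nat_lit 39642103589), (nat_lit 23805518586), (nat_lit 24960123710), (nat_lit 32712286110), (nat_lit 34089079980)], (nat_lit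 1271251), (nat_lit 1271251), (nat_lit 1271251), (nat_lit 1271251), (nat_lit 54688), (nat_lit 780000), [(nat_lit 490000), (nat_lit 1427501), (nat_lit 1271251)], [(nat_lit 5), (nat_lit 55), (nat_lit 373), (nat_lit 150), (nat_lit 10)]⟩,
 ⟨⟨[(nat_lit 60), (nat_lit 120), (nat_lit 180)], [(nat_lit 0), (nat_lit 0), (nat_lit 4796)], [((nat_lit 0), (nat_lit 0), (nat_lit 0)), ((nat_lit 0), (nat_lit 0), (nat_lit 0)), ((nat_lit 802), (nat_lit 1000), (nat_lit 999))], ((nat_lit 100), (nat_lit 82), (nat_lit 99))⟩, (nat_lit 2034422), (nat_lit 220), (nat_lit 220), (nat_lit 0), (nat_lit 169042), [(nat_lit 3282000000), (nat_lit 7968000000), (nat_lit 14058000000)], [], [(nat_lit 26741211388), (nat_lit 28396588688), (nat_lit 33279072826), (nat_lit 34160482613), (nat_lit 32242166663), (nat_lit 33120590338), (nat_lit 37986167813), (nat_lit 39066738657)], (nat_lit 1271251), (nat_lit 1271251), (nat_lit 1271251), (nat_lit 1271251), (nat_lit 1271251), (nat_lit 1271251), [(nat_lit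 780000), (nat_lit 1762501), (nat_lit 1271251)], [(nat_lit 13), (nat_lit 60), (nat_lit 538), (nat_lit 300), (nat_lit 11)]⟩,
 ⟨⟨[(nat_lit 140), (nat_lit 180), (nat_lit 200)], [(nat_lit 0), (nat_lit 0), (nat_lit 2835)], [((nat_lit 0), (nat_lit 0), (nat_lit 0)), ((nat_lit 0), (nat_lit 0), (nat_lit 0)), ((nat_lit 363), (nat_lit 1000), (nat_lit 798))], ((nat_lit 0), (nat_lit 0), (nat_lit 0))⟩, (nat_lit 72635), (nat_lit 300), (nat_lit 770), (nat_lit 20618400), (nat_lit 683897), [(nat_lit 2598288000), (nat_lit 3711312000), (nat_lit 4329600000)], [], [(nat_lit 19084618099), (nat_lit 17750105652), (nat_lit 17189825872), (nat_lit 17986301373), (nat_lit 18532982177), (nat_lit 17143918854), (nat_lit 16623657999), (nat_lit 15118678522)], (nat_lit 780000), (nat_lit 2417500), (nat_lit 54688), (nat_lit 780000), (nat_lit 1271251), (nat_lit 1271251), [(nat_lit 1977501), (nat_lit 1271251), (nat_lit 1271251)], [(nat_lit 32), (nat_lit 67), (nat_lit 456), (nat_lit 225),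 (nat_lit 10)]⟩⟩))))))
noncomputable def c8_22 : Tr Lf :=
 (.spl (nat_lit 6) (nat_lit 32) (.spl (nat_lit 2) (nat_lit 160) (.trX (nat_lit 5) (nat_lit 1) (nat_lit 2) (nat_lit 100) (nat_lit 40) (nat_lit 100) (nat_lit 390) (.leaf ⟨(nat_lit 1000), (nat_lit 0), (nat_lit 0), (nat_lit 0), (nat_lit 0), (nat_lit 3335), (nat_lit 0), (nat_lit 0), (nat_lit 0), (nat_lit 0), (nat_lit 680400), [((nat_lit 360), [((nat_lit 39), (nat_lit 2), (nat_lit 799)), ((nat_lit 21), (nat_lit 2), (nat_lit 201))])], ⟨(nat_lit 6), false, false, false, (nat_lit 164), (nat_lit 3162), (nat_lit 3873), [(nat_lit 1349867), (nat_lit 1361295), (nat_lit 1393396), (nat_lit 1405548), (nat_lit 1414421), (nat_lit 1422280), (nat_lit 1457950), (nat_lit 1466533)]⟩, ⟨(nat_lit 3), false, false, true, (nat_lit 161), (nat_lit 3162), (nat_lit 3873), [(nat_lit 1283782), (nat_lit 1289472), (nat_lit 1327361), (nat_lit 1333774), (nat_lit 1477347), (nat_lit 1472332), (nat_lit 1520934), (nat_lit 1516642)]⟩,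 (nat_lit 4230247), (nat_lit 48166639), (nat_lit 9529283), (nat_lit 9304078), (nat_lit 0), (nat_lit 0), [⟨(nat_lit 0), (nat_lit 100), (nat_lit 69), (nat_lit 96), (nat_lit 446015460)⟩], [], [], [],
 ⟨⟨[(nat_lit 40), (nat_lit 60), (nat_lit 80)], [(nat_lit 0), (nat_lit 398), (nat_lit 992)], [((nat_lit 0), (nat_lit 0), (nat_lit 0)), ((nat_lit 1000), (nat_lit 814), (nat_lit 310)), ((nat_lit 1000), (nat_lit 752), (nat_lit 464))], ((nat_lit 73), (nat_lit 100), (nat_lit 55))⟩, (nat_lit 205050), (nat_lit 176), (nat_lit 176), (nat_lit 0), (nat_lit 362972), [(nat_lit 1304458402), (nat_lit 1097726569), (nat_lit 605031831)], [(nat_lit 0), (nat_lit 0), (nat_lit 0)], [(nat_lit 16951397435), (nat_lit 18575193810), (nat_lit 17500969439), (nat_lit 18933800123), (nat_lit 19959634535), (nat_lit 21549925890), (nat_lit 20311805715), (nat_lit 21824490305)], (nat_lit 1271251), (nat_lit 1271251), (nat_lit 490000), (nat_lit 780000), (nat_lit 780000), (nat_lit 1762501), [(nat_lit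 490000), (nat_lit 780000), (nat_lit 1100000)], [(nat_lit 2), (nat_lit 44), (nat_lit 317), (nat_lit 100), (nat_lit 14)]⟩,
 Rw.none,
 Rw.none⟩)) (.leaf ⟨(nat_lit 964), (nat_lit 0), (nat_lit 0), (nat_lit 36), (nat_lit 0), (nat_lit 3377), (nat_lit 465), (nat_lit 437), (nat_lit 0), (nat_lit 0), (nat_lit 627600), [((nat_lit 360), [((nat_lit 39), (nat_lit 2), (nat_lit 841)), ((nat_lit 21), (nat_lit 2), (nat_lit 123))])], ⟨(nat_lit 6), false, false, false, (nat_lit 164), (nat_lit 3162), (nat_lit 3873), [(nat_lit 1349867), (nat_lit 1361295), (nat_lit 1393396), (nat_lit 1405548), (nat_lit 1414421), (nat_lit 1422280), (nat_lit 1457950), (nat_lit 1466533)]⟩, ⟨(nat_lit 4), false, false, true, (nat_lit 174), (nat_lit 3162), (nat_lit 3873), [(nat_lit 1327361), (nat_lit 1333774), (nat_lit 1349127), (nat_lit 1355902), (nat_lit 1520934), (nat_lit 1516642), (nat_lit 1542727), (nat_lit 1538797)]⟩, (nat_lit 4365571), (nat_lit 47121585), (nat_lit 9445821), (nat_lit 10432594),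 (nat_lit 0), (nat_lit 0), [⟨(nat_lit 0), (nat_lit 100), (nat_lit 69), (nat_lit 96), (nat_lit 278255087)⟩], [], [], [],
 ⟨⟨[(nat_lit 40), (nat_lit 60), (nat_lit 80)], [(nat_lit 0), (nat_lit 398), (nat_lit 992)], [((nat_lit 0), (nat_lit 0), (nat_lit 0)), ((nat_lit 1000), (nat_lit 814), (nat_lit 310)), ((nat_lit 1000), (nat_lit 752), (nat_lit 464))], ((nat_lit 73), (nat_lit 100), (nat_lit 55))⟩, (nat_lit 374434), (nat_lit 168), (nat_lit 168), (nat_lit 0), (nat_lit 332568), [(nat_lit 1326562401), (nat_lit 1213745883), (nat_lit 835056517)], [(nat_lit 0), (nat_lit 0), (nat_lit 0)], [(nat_lit 16998156213), (nat_lit 18618953022), (nat_lit 17543530411), (nat_lit 18970204610), (nat_lit 19989736817), (nat_lit 21590192718), (nat_lit 20333729382), (nat_lit 21857089991)], (nat_lit 1271251), (nat_lit 1271251), (nat_lit 490000), (nat_lit 780000), (nat_lit 780000), (nat_lit 1762501), [(nat_lit 490000), (nat_lit 780000), (nat_lit 1100000)], [(nat_lit 2), (nat_lit 44),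 (nat_lit 317), (nat_lit 100), (nat_lit 14)]⟩,
 ⟨⟨[(nat_lit 80), (nat_lit 120), (nat_lit 140)], [(nat_lit 0), (nat_lit 0), (nat_lit 1164)], [((nat_lit 0), (nat_lit 0), (nat_lit 0)), ((nat_lit 0), (nat_lit 0), (nat_lit 0)), ((nat_lit 941), (nat_lit 1000), (nat_lit 576))], ((nat_lit 100), (nat_lit 95), (nat_lit 55))⟩, (nat_lit 122305), (nat_lit 472), (nat_lit 472), (nat_lit 0), (nat_lit 504594), [(nat_lit 168768000), (nat_lit 286848000), (nat_lit 354312000)], [], [(nat_lit 1884229080), (nat_lit 1396204140), (nat_lit 1396204140), (nat_lit 957361692), (nat_lit 1965042912), (nat_lit 1562205042), (nat_lit 2143365042), (nat_lit 1745391072)], (nat_lit 1271251), (nat_lit 1271251), (nat_lit 490000), (nat_lit 780000), (nat_lit 0), (nat_lit 2825001), [(nat_lit 1100000), (nat_lit 1785001), (nat_lit 1271251)], [(nat_lit 17), (nat_lit 58), (nat_lit 428), (nat_lit 200), (nat_lit 13)]⟩,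
 ⟨⟨[(nat_lit 120), (nat_lit 160), (nat_lit 180)], [(nat_lit 0), (nat_lit 0), (nat_lit 1613)], [((nat_lit 0), (nat_lit 0), (nat_lit 0)), ((nat_lit 0), (nat_lit 0), (nat_lit 0)), ((nat_lit 620), (nat_lit 1000), (nat_lit 670))], ((nat_lit 100), (nat_lit 73), (nat_lit 55))⟩, (nat_lit 15668), (nat_lit 300), (nat_lit 1780), (nat_lit 2671200), (nat_lit 2963434), [(nat_lit 286848000), (nat_lit 427392000), (nat_lit 506088000)], [], [(nat_lit 2186090576), (nat_lit 2166352863), (nat_lit 2032058200), (nat_lit 2010739562), (nat_lit 2177496008), (nat_lit 2304860985), (nat_lit 2861613036), (nat_lit 2996329445)], (nat_lit 1100000), (nat_lit 1271251), (nat_lit 780000), (nat_lit 1762501), (nat_lit 0), (nat_lit 2825001), [(nat_lit 1695001), (nat_lit 1271251), (nat_lit 1271251)], [(nat_lit 28), (nat_lit 65), (nat_lit 548), (nat_lit 225), (nat_lit 13)]⟩⟩)) (.spl (nat_lit 4) (nat_lit 200) (.leaf ⟨(nat_lit 1000), (nat_lit 0), (nat_lit 0), (nat_lit 0), (nat_lit 7744), (nat_lit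 3465), (nat_lit 0), (nat_lit 0), (nat_lit 0), (nat_lit 0), (nat_lit 680400), [((nat_lit 360), [((nat_lit 39), (nat_lit 2), (nat_lit 799)), ((nat_lit 22), (nat_lit 2), (nat_lit 201))])], ⟨(nat_lit 6), false, false, false, (nat_lit 164), (nat_lit 3162), (nat_lit 3873), [(nat_lit 1349867), (nat_lit 1361295), (nat_lit 1393396), (nat_lit 1405548), (nat_lit 1414421), (nat_lit 1422280), (nat_lit 1457950), (nat_lit 1466533)]⟩, ⟨(nat_lit 3), false, false, true, (nat_lit 153), (nat_lit 3162), (nat_lit 3873), [(nat_lit 1283782), (nat_lit 1289472), (nat_lit 1349127), (nat_lit 1355902), (nat_lit 1412825), (nat_lit 1411379), (nat_lit 1478205), (nat_lit 1477844)]⟩, (nat_lit 4140849), (nat_lit 48805106), (nat_lit 9574590), (nat_lit 8620304), (nat_lit 0), (nat_lit 0), [⟨(nat_lit 0), (nat_lit 100), (nat_lit 69), (nat_lit 96), (nat_lit 572486215)⟩], [], [], [],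
 ⟨⟨[(nat_lit 40), (nat_lit 80), (nat_lit 120)], [(nat_lit 0), (nat_lit 795), (nat_lit 2800)], [((nat_lit 0), (nat_lit 0), (nat_lit 0)), ((nat_lit 1000), (nat_lit 814), (nat_lit 310)), ((nat_lit 1000), (nat_lit 719), (nat_lit 783))], ((nat_lit 71), (nat_lit 100), (nat_lit 71))⟩, (nat_lit 1505), (nat_lit 169), (nat_lit 169), (nat_lit 0), (nat_lit 187133), [(nat_lit 1304458446), (nat_lit 922148587), (nat_lit 0)], [(nat_lit 0), (nat_lit 0), (nat_lit 1065980729)], [(nat_lit 17573778244), (nat_lit 19032849606), (nat_lit 17954568829), (nat_lit 19343446126), (nat_lit 19086079956), (nat_lit 20382994081), (nat_lit 19401828930), (nat_lit 20653858230)], (nat_lit 1271251), (nat_lit 1271251), (nat_lit 490000), (nat_lit 780000), (nat_lit 780000), (nat_lit 1435001), [(nat_lit 490000), (nat_lit 1100000), (nat_lit 1785001)], [(nat_lit 4), (nat_lit 51), (nat_lit 317), (nat_lit 100), (nat_lit 10)]⟩,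
 Rw.none,
 Rw.none⟩) (.trX (nat_lit 5) (nat_lit 4) (nat_lit 3) (nat_lit 100) (nat_lit 40) (nat_lit 92) (nat_lit 390) (.spl (nat_lit 6) (nat_lit 48) (.leaf ⟨(nat_lit 976), (nat_lit 9), (nat_lit 0), (nat_lit 15), (nat_lit 3734), (nat_lit 3713), (nat_lit 272), (nat_lit 227), (nat_lit 0), (nat_lit 0), (nat_lit 350050), [((nat_lit 360), [((nat_lit 22), (nat_lit 0), (nat_lit 269)), ((nat_lit 22), (nat_lit 1), (nat_lit 707))])], ⟨(nat_lit 6), false, false, false, (nat_lit 164), (nat_lit 3162), (nat_lit 3873), [(nat_lit 1349867), (nat_lit 1361295), (nat_lit 1393396), (nat_lit 1405548), (nat_lit 1414421), (nat_lit 1422280), (nat_lit 1457950), (nat_lit 1466533)]⟩, ⟨(nat_lit 5), false, false, true, (nat_lit 191), (nat_lit 3162), (nat_lit 3873), [(nat_lit 1412825), (nat_lit 1411379), (nat_lit 1478205), (nat_lit 1477844), (nat_lit 1477347), (nat_lit 1472332), (nat_lit 1542727), (nat_lit 1538797)]⟩, (nat_lit 4517088), (nat_lit 45812325), (nat_lit 9326141), (nat_lit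 11861534), (nat_lit 5), (nat_lit 0), [⟨(nat_lit 0), (nat_lit 100), (nat_lit 69), (nat_lit 96), (nat_lit 392602801)⟩], [], [], [],
 ⟨⟨[(nat_lit 40), (nat_lit 80), (nat_lit 100)], [(nat_lit 0), (nat_lit 795), (nat_lit 1829)], [((nat_lit 0), (nat_lit 0), (nat_lit 0)), ((nat_lit 1000), (nat_lit 814), (nat_lit 310)), ((nat_lit 1000), (nat_lit 714), (nat_lit 692))], ((nat_lit 72), (nat_lit 100), (nat_lit 65))⟩, (nat_lit 633761), (nat_lit 135), (nat_lit 135), (nat_lit 0), (nat_lit 185635), [(nat_lit 1465962592), (nat_lit 1860662477), (nat_lit 1819668800)], [(nat_lit 0), (nat_lit 0), (nat_lit 0)], [(nat_lit 19320832603), (nat_lit 20766027322), (nat_lit 19663330232), (nat_lit 21038280806), (nat_lit 20553561442), (nat_lit 21912327342), (nat_lit 20838845897), (nat_lit 22118295359)], (nat_lit 1271251), (nat_lit 1271251), (nat_lit 490000), (nat_lit 780000), (nat_lit 1271251), (nat_lit 1271251), [(nat_lit 490000), (nat_lit 1100000), (nat_lit 1442501)], [(nat_lit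 3), (nat_lit 50), (nat_lit 238), (nat_lit 30), (nat_lit 8)]⟩,
 ⟨⟨[(nat_lit 80), (nat_lit 120), (nat_lit 160)], [(nat_lit 0), (nat_lit 0), (nat_lit 2132)], [((nat_lit 0), (nat_lit 0), (nat_lit 0)), ((nat_lit 0), (nat_lit 0), (nat_lit 0)), ((nat_lit 858), (nat_lit 1000), (nat_lit 713))], ((nat_lit 100), (nat_lit 89), (nat_lit 66))⟩, (nat_lit 87942), (nat_lit 415), (nat_lit 415), (nat_lit 0), (nat_lit 280329), [(nat_lit 112512000), (nat_lit 191232000), (nat_lit 284928000)], [], [(nat_lit 1198244672), (nat_lit 912776320), (nat_lit 912776320), (nat_lit 708675192), (nat_lit 1272472808), (nat_lit 1036085360), (nat_lit 1379445360), (nat_lit 1145921868)], (nat_lit 1271251), (nat_lit 1271251), (nat_lit 490000), (nat_lit 780000), (nat_lit 0), (nat_lit 2754376), [(nat_lit 1100000), (nat_lit 1785001), (nat_lit 1271251)], [(nat_lit 18), (nat_lit 59), (nat_lit 428), (nat_lit 200), (nat_lit 11)]⟩,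
 ⟨⟨[(nat_lit 140), (nat_lit 180), (nat_lit 200)], [(nat_lit 0), (nat_lit 0), (nat_lit 2835)], [((nat_lit 0), (nat_lit 0), (nat_lit 0)), ((nat_lit 0), (nat_lit 0), (nat_lit 0)), ((nat_lit 363), (nat_lit 1000), (nat_lit 798))], ((nat_lit 0), (nat_lit 0), (nat_lit 0))⟩, (nat_lit 4127), (nat_lit 300), (nat_lit 1816), (nat_lit 1171500), (nat_lit 2939976), [(nat_lit 147630000), (nat_lit 210870000), (nat_lit 246000000)], [], [(nat_lit 1001764392), (nat_lit 950096384), (nat_lit 977933636), (nat_lit 934552627), (nat_lit 1101405930), (nat_lit 1280955088), (nat_lit 901642411), (nat_lit 1084870927)], (nat_lit 780000), (nat_lit 1271251), (nat_lit 1271251), (nat_lit 1271251), (nat_lit 0), (nat_lit 2754376), [(nat_lit 1977501), (nat_lit 1271251), (nat_lit 1271251)], [(nat_lit 32), (nat_lit 67), (nat_lit 556), (nat_lit 225), (nat_lit 12)]⟩⟩) (.leaf ⟨(nat_lit 1000), (nat_lit 0), (nat_lit 0), (nat_lit 0), (nat_lit 10172), (nat_lit 3384), (nat_lit 0), (nat_lit 0), (nat_lit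 0), (nat_lit 0), (nat_lit 657200), [((nat_lit 360), [((nat_lit 39), (nat_lit 2), (nat_lit 857)), ((nat_lit 22), (nat_lit 2), (nat_lit 143))])], ⟨(nat_lit 6), false, false, false, (nat_lit 164), (nat_lit 3162), (nat_lit 3873), [(nat_lit 1349867), (nat_lit 1361295), (nat_lit 1393396), (nat_lit 1405548), (nat_lit 1414421), (nat_lit 1422280), (nat_lit 1457950), (nat_lit 1466533)]⟩, ⟨(nat_lit 5), false, false, true, (nat_lit 191), (nat_lit 3162), (nat_lit 3873), [(nat_lit 1412825), (nat_lit 1411379), (nat_lit 1478205), (nat_lit 1477844), (nat_lit 1477347), (nat_lit 1472332), (nat_lit 1542727), (nat_lit 1538797)]⟩, (nat_lit 4517088), (nat_lit 45812325), (nat_lit 9326141), (nat_lit 11861534), (nat_lit 0), (nat_lit 0), [⟨(nat_lit 0), (nat_lit 100), (nat_lit 69), (nat_lit 96), (nat_lit 684206022)⟩], [], [], [],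
 ⟨⟨[(nat_lit 40), (nat_lit 80), (nat_lit 120)], [(nat_lit 0), (nat_lit 795), (nat_lit 2800)], [((nat_lit 0), (nat_lit 0), (nat_lit 0)), ((nat_lit 1000), (nat_lit 814), (nat_lit 310)), ((nat_lit 1000), (nat_lit 719), (nat_lit 783))], ((nat_lit 71), (nat_lit 100), (nat_lit 71))⟩, (nat_lit 381), (nat_lit 136), (nat_lit 136), (nat_lit 0), (nat_lit 116341), [(nat_lit 1305711290), (nat_lit 1040480619), (nat_lit 0)], [(nat_lit 0), (nat_lit 0), (nat_lit 862672800)], [(nat_lit 19329646110), (nat_lit 20610214856), (nat_lit 19686609094), (nat_lit 20878408896), (nat_lit 20442268000), (nat_lit 21638383088), (nat_lit 20721037380), (nat_lit 21862523272)], (nat_lit 1271251), (nat_lit 1271251), (nat_lit 490000), (nat_lit 780000), (nat_lit 1271251), (nat_lit 1271251), [(nat_lit 490000), (nat_lit 1100000), (nat_lit 1785001)], [(nat_lit 4), (nat_lit 51), (nat_lit 317), (nat_lit 100), (nat_lit 9)]⟩,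
 Rw.none,
 Rw.none⟩)))))
noncomputable def c8_23 : Tr Lf :=
 (.spl (nat_lit 6) (nat_lit 32) (.spl (nat_lit 1) (nat_lit 260) (.leaf ⟨(nat_lit 956), (nat_lit 0), (nat_lit 0), (nat_lit 44), (nat_lit 0), (nat_lit 3344), (nat_lit 489), (nat_lit 540), (nat_lit 0), (nat_lit 0), (nat_lit 616400), [((nat_lit 360), [((nat_lit 39), (nat_lit 2), (nat_lit 849)), ((nat_lit 21), (nat_lit 2), (nat_lit 107))])], ⟨(nat_lit 6), false, false, false, (nat_lit 159), (nat_lit 3162), (nat_lit 3873), [(nat_lit 1349867), (nat_lit 1361295), (nat_lit 1371632), (nat_lit 1383421), (nat_lit 1414421), (nat_lit 1422280), (nat_lit 1436185), (nat_lit 1444407)]⟩, ⟨(nat_lit 4), false, false, false, (nat_lit 187), (nat_lit 3162), (nat_lit 3873), [(nat_lit 1349127), (nat_lit 1355902), (nat_lit 1392656), (nat_lit 1400154), (nat_lit 1542727), (nat_lit 1538797), (nat_lit 1586313), (nat_lit 1583107)]⟩, (nat_lit 4444854), (nat_lit 46387075), (nat_lit 8990440), (nat_lit 11622485), (nat_lit 0),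 (nat_lit 0), [⟨(nat_lit 0), (nat_lit 100), (nat_lit 68), (nat_lit 92), (nat_lit 188311365)⟩], [], [], [],
 ⟨⟨[(nat_lit 40), (nat_lit 60), (nat_lit 80)], [(nat_lit 0), (nat_lit 398), (nat_lit 992)], [((nat_lit 0), (nat_lit 0), (nat_lit 0)), ((nat_lit 1000), (nat_lit 814), (nat_lit 310)), ((nat_lit 1000), (nat_lit 752), (nat_lit 464))], ((nat_lit 73), (nat_lit 100), (nat_lit 55))⟩, (nat_lit 445720), (nat_lit 163), (nat_lit 163), (nat_lit 0), (nat_lit 315177), [(nat_lit 1331481138), (nat_lit 1234749418), (nat_lit 888656182)], [(nat_lit 0), (nat_lit 0), (nat_lit 0)], [(nat_lit 17046119186), (nat_lit 18584570784), (nat_lit 17594791660), (nat_lit 18941601084), (nat_lit 19966433130), (nat_lit 21558554496), (nat_lit 20392623578), (nat_lit 21831475952)], (nat_lit 1271251), (nat_lit 1271251), (nat_lit 490000), (nat_lit 780000), (nat_lit 780000), (nat_lit 1762501), [(nat_lit 490000), (nat_lit 780000), (nat_lit 1100000)], [(nat_lit 2), (nat_lit 44), (nat_lit 317),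 (nat_lit 100), (nat_lit 14)]⟩,
 ⟨⟨[(nat_lit 80), (nat_lit 120), (nat_lit 140)], [(nat_lit 0), (nat_lit 0), (nat_lit 1164)], [((nat_lit 0), (nat_lit 0), (nat_lit 0)), ((nat_lit 0), (nat_lit 0), (nat_lit 0)), ((nat_lit 941), (nat_lit 1000), (nat_lit 576))], ((nat_lit 100), (nat_lit 95), (nat_lit 55))⟩, (nat_lit 0), (nat_lit 490), (nat_lit 490), (nat_lit 0), (nat_lit 551674), [(nat_lit 206272000), (nat_lit 350592000), (nat_lit 433048000)], [], [(nat_lit 2182050904), (nat_lit 1925444242), (nat_lit 1668837580), (nat_lit 1416705655), (nat_lit 2371774272), (nat_lit 2159959521), (nat_lit 2566424770), (nat_lit 2357167489)], (nat_lit 1271251), (nat_lit 1271251), (nat_lit 490000), (nat_lit 780000), (nat_lit 0), (nat_lit 2825001), [(nat_lit 1100000), (nat_lit 1785001), (nat_lit 1271251)], [(nat_lit 17), (nat_lit 58), (nat_lit 428), (nat_lit 200), (nat_lit 13)]⟩,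
 ⟨⟨[(nat_lit 120), (nat_lit 160), (nat_lit 180)], [(nat_lit 0), (nat_lit 533), (nat_lit 2066)], [((nat_lit 0), (nat_lit 0), (nat_lit 0)), ((nat_lit 960), (nat_lit 1000), (nat_lit 200)), ((nat_lit 615), (nat_lit 1000), (nat_lit 729))], ((nat_lit 100), (nat_lit 79), (nat_lit 55))⟩, (nat_lit 103024), (nat_lit 300), (nat_lit 1311), (nat_lit 2921602), (nat_lit 1971135), [(nat_lit 350592000), (nat_lit 522368000), (nat_lit 618552000)], [], [(nat_lit 2397219774), (nat_lit 2366496170), (nat_lit 2242402728), (nat_lit 2204673832), (nat_lit 2825271734), (nat_lit 2339291714), (nat_lit 3677811340), (nat_lit 3209999620)], (nat_lit 1271251), (nat_lit 1271251), (nat_lit 780000), (nat_lit 1762501), (nat_lit 0), (nat_lit 2825001), [(nat_lit 1695001), (nat_lit 1271251), (nat_lit 1271251)], [(nat_lit 28), (nat_lit 65), (nat_lit 456), (nat_lit 225), (nat_lit 11)]⟩⟩) (.trZ (nat_lit 0) (nat_lit 1) (nat_lit 3) (nat_lit 100) (nat_lit 75) (nat_lit 92) (nat_lit 100) (.leaf ⟨(nat_lit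 930), (nat_lit 14), (nat_lit 0), (nat_lit 56), (nat_lit 0), (nat_lit 3564), (nat_lit 934), (nat_lit 583), (nat_lit 0), (nat_lit 0), (nat_lit 577600), [((nat_lit 360), [((nat_lit 39), (nat_lit 2), (nat_lit 881)), ((nat_lit 21), (nat_lit 2), (nat_lit 49))])], ⟨(nat_lit 6), false, false, false, (nat_lit 174), (nat_lit 3162), (nat_lit 3873), [(nat_lit 1403908), (nat_lit 1413914), (nat_lit 1425673), (nat_lit 1436040), (nat_lit 1436185), (nat_lit 1444407), (nat_lit 1457950), (nat_lit 1466533)]⟩, ⟨(nat_lit 4), false, false, false, (nat_lit 187), (nat_lit 3162), (nat_lit 3873), [(nat_lit 1349127), (nat_lit 1355902), (nat_lit 1392656), (nat_lit 1400154), (nat_lit 1542727), (nat_lit 1538797), (nat_lit 1586313), (nat_lit 1583107)]⟩, (nat_lit 4592419), (nat_lit 45275837), (nat_lit 10237235), (nat_lit 11486928), (nat_lit 4), (nat_lit 0), [⟨(nat_lit 0), (nat_lit 100), (nat_lit 71), (nat_lit 100), (nat_lit 308258977)⟩], [], [], [],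
 ⟨⟨[(nat_lit 40), (nat_lit 60), (nat_lit 80)], [(nat_lit 0), (nat_lit 398), (nat_lit 992)], [((nat_lit 0), (nat_lit 0), (nat_lit 0)), ((nat_lit 1000), (nat_lit 814), (nat_lit 310)), ((nat_lit 1000), (nat_lit 752), (nat_lit 464))], ((nat_lit 73), (nat_lit 100), (nat_lit 55))⟩, (nat_lit 248539), (nat_lit 167), (nat_lit 167), (nat_lit 0), (nat_lit 348118), [(nat_lit 1347445760), (nat_lit 1303382405), (nat_lit 1072813195)], [(nat_lit 0), (nat_lit 0), (nat_lit 0)], [(nat_lit 17402106873), (nat_lit 18973038479), (nat_lit 17665448857), (nat_lit 19132291254), (nat_lit 20280163051), (nat_lit 21885856094), (nat_lit 20436562458), (nat_lit 22002236212)], (nat_lit 1271251), (nat_lit 1271251), (nat_lit 631250), (nat_lit 780000), (nat_lit 780000), (nat_lit 1762501), [(nat_lit 490000), (nat_lit 780000), (nat_lit 1100000)], [(nat_lit 2), (nat_lit 44), (nat_lit 317), (nat_lit 100), (nat_lit 14)]⟩,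
 ⟨⟨[(nat_lit 80), (nat_lit 120), (nat_lit 140)], [(nat_lit 0), (nat_lit 528), (nat_lit 1572)], [((nat_lit 0), (nat_lit 0), (nat_lit 0)), ((nat_lit 1000), (nat_lit 959), (nat_lit 206)), ((nat_lit 966), (nat_lit 1000), (nat_lit 679))], ((nat_lit 99), (nat_lit 100), (nat_lit 56))⟩, (nat_lit 460332), (nat_lit 473), (nat_lit 473), (nat_lit 0), (nat_lit 528291), [(nat_lit 328160000), (nat_lit 557760000), (nat_lit 688940000)], [], [(nat_lit 2489545299), (nat_lit 2003028201), (nat_lit 2003028201), (nat_lit 1582552582), (nat_lit 3349683646), (nat_lit 2947555550), (nat_lit 3544935550), (nat_lit 3145249864)], (nat_lit 1271251), (nat_lit 1271251), (nat_lit 631250), (nat_lit 780000), (nat_lit 0), (nat_lit 2825001), [(nat_lit 1100000), (nat_lit 1785001), (nat_lit 1271251)], [(nat_lit 17), (nat_lit 58), (nat_lit 428), (nat_lit 200), (nat_lit 12)]⟩,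
 ⟨⟨[(nat_lit 120), (nat_lit 160), (nat_lit 180)], [(nat_lit 0), (nat_lit 533), (nat_lit 2066)], [((nat_lit 0), (nat_lit 0), (nat_lit 0)), ((nat_lit 960), (nat_lit 1000), (nat_lit 200)), ((nat_lit 615), (nat_lit 1000), (nat_lit 729))], ((nat_lit 100), (nat_lit 79), (nat_lit 55))⟩, (nat_lit 131122), (nat_lit 300), (nat_lit 1448), (nat_lit 3718400), (nat_lit 2266811), [(nat_lit 446208000), (nat_lit 664832000), (nat_lit 787248000)], [], [(nat_lit 3342946109), (nat_lit 3283651866), (nat_lit 3126452509), (nat_lit 3064958866), (nat_lit 3450261678), (nat_lit 2925583249), (nat_lit 4404079175), (nat_lit 3899015781)], (nat_lit 1271251), (nat_lit 1271251), (nat_lit 780000), (nat_lit 1762501), (nat_lit 0), (nat_lit 2825001), [(nat_lit 1695001), (nat_lit 1271251), (nat_lit 1271251)], [(nat_lit 28), (nat_lit 65), (nat_lit 470), (nat_lit 225), (nat_lit 11)]⟩⟩))) (.spl (nat_lit 4) (nat_lit 200) (.leaf ⟨(nat_lit 936), (nat_lit 21), (nat_lit 0), (nat_lit 43), (nat_lit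 10266), (nat_lit 3409), (nat_lit 702), (nat_lit 631), (nat_lit 0), (nat_lit 0), (nat_lit 587600), [((nat_lit 360), [((nat_lit 39), (nat_lit 2), (nat_lit 871)), ((nat_lit 22), (nat_lit 2), (nat_lit 65))])], ⟨(nat_lit 6), false, false, false, (nat_lit 164), (nat_lit 3162), (nat_lit 3873), [(nat_lit 1349867), (nat_lit 1361295), (nat_lit 1393396), (nat_lit 1405548), (nat_lit 1414421), (nat_lit 1422280), (nat_lit 1457950), (nat_lit 1466533)]⟩, ⟨(nat_lit 4), false, false, false, (nat_lit 175), (nat_lit 3162), (nat_lit 3873), [(nat_lit 1349127), (nat_lit 1355902), (nat_lit 1392656), (nat_lit 1400154), (nat_lit 1478205), (nat_lit 1477844), (nat_lit 1521764), (nat_lit 1522126)]⟩, (nat_lit 4371710), (nat_lit 47071641), (nat_lit 9441555), (nat_lit 10486804), (nat_lit 4), (nat_lit 0), [⟨(nat_lit 0), (nat_lit 100), (nat_lit 69), (nat_lit 96), (nat_lit 564961484)⟩], [], [], [],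
 ⟨⟨[(nat_lit 40), (nat_lit 80), (nat_lit 120)], [(nat_lit 0), (nat_lit 795), (nat_lit 2800)], [((nat_lit 0), (nat_lit 0), (nat_lit 0)), ((nat_lit 1000), (nat_lit 814), (nat_lit 310)), ((nat_lit 1000), (nat_lit 719), (nat_lit 783))], ((nat_lit 71), (nat_lit 100), (nat_lit 71))⟩, (nat_lit 461681), (nat_lit 151), (nat_lit 151), (nat_lit 0), (nat_lit 125976), [(nat_lit 1343783524), (nat_lit 1265225720), (nat_lit 0)], [(nat_lit 0), (nat_lit 0), (nat_lit 55880800)], [(nat_lit 17323986966), (nat_lit 18760184471), (nat_lit 17747990735), (nat_lit 19079666623), (nat_lit 18853204844), (nat_lit 20303759324), (nat_lit 19206677072), (nat_lit 20612758598)], (nat_lit 1271251), (nat_lit 1271251), (nat_lit 490000), (nat_lit 780000), (nat_lit 780000), (nat_lit 1435001), [(nat_lit 490000), (nat_lit 1100000), (nat_lit 1785001)], [(nat_lit 4), (nat_lit 51), (nat_lit 317), (nat_lit 100), (nat_lit 10)]⟩,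
 ⟨⟨[(nat_lit 80), (nat_lit 120), (nat_lit 160)], [(nat_lit 0), (nat_lit 0), (nat_lit 2132)], [((nat_lit 0), (nat_lit 0), (nat_lit 0)), ((nat_lit 0), (nat_lit 0), (nat_lit 0)), ((nat_lit 858), (nat_lit 1000), (nat_lit 713))], ((nat_lit 100), (nat_lit 85), (nat_lit 73))⟩, (nat_lit 0), (nat_lit 382), (nat_lit 382), (nat_lit 0), (nat_lit 195246), [(nat_lit 300032000), (nat_lit 509952000), (nat_lit 759808000)], [], [(nat_lit 3159761552), (nat_lit 2465605996), (nat_lit 2423001320), (nat_lit 2402511388), (nat_lit 3446353440), (nat_lit 2838198204), (nat_lit 3726758204), (nat_lit 3125945888)], (nat_lit 1271251), (nat_lit 1271251), (nat_lit 490000), (nat_lit 780000), (nat_lit 0), (nat_lit 2825001), [(nat_lit 1100000), (nat_lit 1785001), (nat_lit 1271251)], [(nat_lit 18), (nat_lit 59), (nat_lit 428), (nat_lit 200), (nat_lit 11)]⟩,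
 ⟨⟨[(nat_lit 120), (nat_lit 160), (nat_lit 180)], [(nat_lit 0), (nat_lit 533), (nat_lit 2066)], [((nat_lit 0), (nat_lit 0), (nat_lit 0)), ((nat_lit 960), (nat_lit 1000), (nat_lit 200)), ((nat_lit 615), (nat_lit 1000), (nat_lit 729))], ((nat_lit 100), (nat_lit 63), (nat_lit 72))⟩, (nat_lit 32721), (nat_lit 300), (nat_lit 788), (nat_lit 3081599), (nat_lit 818736), [(nat_lit 342624000), (nat_lit 510496000), (nat_lit 604494000)], [], [(nat_lit 2366631121), (nat_lit 2302262201), (nat_lit 2191095219), (nat_lit 2144455452), (nat_lit 2905203974), (nat_lit 2337327321), (nat_lit 3542473444), (nat_lit 2988876952)], (nat_lit 1271251), (nat_lit 1271251), (nat_lit 780000), (nat_lit 1435001), (nat_lit 0), (nat_lit 2825001), [(nat_lit 1695001), (nat_lit 1271251), (nat_lit 1271251)], [(nat_lit 28), (nat_lit 65), (nat_lit 456), (nat_lit 225), (nat_lit 11)]⟩⟩) (.trX (nat_lit 5) (nat_lit 4) (nat_lit 3) (nat_lit 100) (nat_lit 40) (nat_lit 92) (nat_lit 390) (.leaf ⟨(nat_lit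 904), (nat_lit 40), (nat_lit 0), (nat_lit 56), (nat_lit 10457), (nat_lit 3462), (nat_lit 1087), (nat_lit 751), (nat_lit 0), (nat_lit 0), (nat_lit 542400), [((nat_lit 360), [((nat_lit 39), (nat_lit 2), (nat_lit 904))])], ⟨(nat_lit 6), false, false, false, (nat_lit 164), (nat_lit 3162), (nat_lit 3873), [(nat_lit 1349867), (nat_lit 1361295), (nat_lit 1393396), (nat_lit 1405548), (nat_lit 1414421), (nat_lit 1422280), (nat_lit 1457950), (nat_lit 1466533)]⟩, ⟨(nat_lit 5), false, true, true, (nat_lit 213), (nat_lit 3162), (nat_lit 3873), [(nat_lit 1478205), (nat_lit 1477844), (nat_lit 1521764), (nat_lit 1522126), (nat_lit 1542727), (nat_lit 1538797), (nat_lit 1586313), (nat_lit 1583107)]⟩, (nat_lit 4693265), (nat_lit 44034065), (nat_lit 9139180), (nat_lit 13826755), (nat_lit 5), (nat_lit 0), [⟨(nat_lit 0), (nat_lit 100), (nat_lit 69), (nat_lit 96), (nat_lit 611547230)⟩], [], [⟨(nat_lit 0), (nat_lit 100), (nat_lit 95), (nat_lit 30), (nat_lit 148720)⟩], [],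
 ⟨⟨[(nat_lit 40), (nat_lit 80), (nat_lit 120)], [(nat_lit 0), (nat_lit 795), (nat_lit 2800)], [((nat_lit 0), (nat_lit 0), (nat_lit 0)), ((nat_lit 1000), (nat_lit 814), (nat_lit 310)), ((nat_lit 1000), (nat_lit 719), (nat_lit 783))], ((nat_lit 71), (nat_lit 100), (nat_lit 71))⟩, (nat_lit 536733), (nat_lit 139), (nat_lit 139), (nat_lit 0), (nat_lit 125976), [(nat_lit 1363507209), (nat_lit 1433555482), (nat_lit 438764800)], [(nat_lit 0), (nat_lit 0), (nat_lit 0)], [(nat_lit 19094537669), (nat_lit 20389870308), (nat_lit 19440609494), (nat_lit 20651656464), (nat_lit 20209873700), (nat_lit 21671685108), (nat_lit 20476119790), (nat_lit 21923065546)], (nat_lit 1271251), (nat_lit 1271251), (nat_lit 490000), (nat_lit 780000), (nat_lit 1271251), (nat_lit 1271251), [(nat_lit 490000), (nat_lit 1100000), (nat_lit 1785001)], [(nat_lit 4), (nat_lit 51), (nat_lit 317), (nat_lit 100), (nat_lit 9)]⟩,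
 ⟨⟨[(nat_lit 80), (nat_lit 120), (nat_lit 160)], [(nat_lit 0), (nat_lit 0), (nat_lit 2132)], [((nat_lit 0), (nat_lit 0), (nat_lit 0)), ((nat_lit 0), (nat_lit 0), (nat_lit 0)), ((nat_lit 858), (nat_lit 1000), (nat_lit 713))], ((nat_lit 100), (nat_lit 85), (nat_lit 73))⟩, (nat_lit 0), (nat_lit 382), (nat_lit 382), (nat_lit 0), (nat_lit 195246), [(nat_lit 450048000), (nat_lit 764928000), (nat_lit 1139712000)], [], [(nat_lit 4791454792), (nat_lit 3684441590), (nat_lit 3650630900), (nat_lit 3584227214), (nat_lit 5089574190), (nat_lit 4144893469), (nat_lit 5517173469), (nat_lit 4583938044)], (nat_lit 1271251), (nat_lit 1271251), (nat_lit 490000), (nat_lit 780000), (nat_lit 0), (nat_lit 2754376), [(nat_lit 1100000), (nat_lit 1785001), (nat_lit 1271251)], [(nat_lit 18), (nat_lit 59), (nat_lit 428), (nat_lit 200), (nat_lit 11)]⟩,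
 ⟨⟨[(nat_lit 120), (nat_lit 160), (nat_lit 180)], [(nat_lit 0), (nat_lit 533), (nat_lit 2066)], [((nat_lit 0), (nat_lit 0), (nat_lit 0)), ((nat_lit 960), (nat_lit 1000), (nat_lit 200)), ((nat_lit 615), (nat_lit 1000), (nat_lit 729))], ((nat_lit 100), (nat_lit 63), (nat_lit 72))⟩, (nat_lit 131122), (nat_lit 300), (nat_lit 750), (nat_lit 3718400), (nat_lit 818736), [(nat_lit 446208000), (nat_lit 664832000), (nat_lit 787248000)], [], [(nat_lit 2800682966), (nat_lit 2748567374), (nat_lit 2750536179), (nat_lit 2694482977), (nat_lit 3867187815), (nat_lit 3206186998), (nat_lit 3202022938), (nat_lit 2549350241)], (nat_lit 1271251), (nat_lit 1271251), (nat_lit 1271251), (nat_lit 1271251), (nat_lit 0), (nat_lit 2754376), [(nat_lit 1695001), (nat_lit 1271251), (nat_lit 1271251)], [(nat_lit 28), (nat_lit 65), (nat_lit 456), (nat_lit 225), (nat_lit 11)]⟩⟩))))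
noncomputable def c8_24 : Tr Lf :=
 (.spl (nat_lit 5) (nat_lit 120) (.spl (nat_lit 1) (nat_lit 260) (.spl (nat_lit 0) (nat_lit 350) (.leaf ⟨(nat_lit 823), (nat_lit 20), (nat_lit 0), (nat_lit 157), (nat_lit 0), (nat_lit 3403), (nat_lit 3092), (nat_lit 1883), (nat_lit 0), (nat_lit 0), (nat_lit 472800), [((nat_lit 350), [((nat_lit 21), (nat_lit 0), (nat_lit 60)), ((nat_lit 39), (nat_lit 2), (nat_lit 763))])], ⟨(nat_lit 6), false, false, false, (nat_lit 158), (nat_lit 3535), (nat_lit 3873), [(nat_lit 1349991), (nat_lit 1355590), (nat_lit 1371778), (nat_lit 1377537), (nat_lit 1414519), (nat_lit 1418358), (nat_lit 1436306), (nat_lit 1440305)]⟩, ⟨(nat_lit 6), true, false, true, (nat_lit 232), (nat_lit 3535), (nat_lit 3873), [(nat_lit 1477347), (nat_lit 1474949), (nat_lit 1542727), (nat_lit 1540807), (nat_lit 1622521), (nat_lit 1616163), (nat_lit 1687900), (nat_lit 1682021)]⟩, (nat_lit 4774365), (nat_lit 42777537), (nat_lit 8537889), (nat_lit 15684574), (nat_lit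 6), (nat_lit 0), [⟨(nat_lit 0), (nat_lit 100), (nat_lit 71), (nat_lit 90), (nat_lit 97881479)⟩], [⟨(nat_lit 1), (nat_lit 90), (nat_lit 71), (nat_lit 100), (nat_lit 95158291)⟩], [], [],
 ⟨⟨[(nat_lit 40), (nat_lit 60), (nat_lit 80)], [(nat_lit 0), (nat_lit 398), (nat_lit 992)], [((nat_lit 0), (nat_lit 0), (nat_lit 0)), ((nat_lit 1000), (nat_lit 814), (nat_lit 310)), ((nat_lit 1000), (nat_lit 752), (nat_lit 464))], ((nat_lit 73), (nat_lit 100), (nat_lit 55))⟩, (nat_lit 447444), (nat_lit 168), (nat_lit 168), (nat_lit 0), (nat_lit 293801), [(nat_lit 1415434421), (nat_lit 1549522028), (nat_lit 1631387372)], [(nat_lit 0), (nat_lit 0), (nat_lit 0)], [(nat_lit 20980485653), (nat_lit 21561213601), (nat_lit 21381910729), (nat_lit 21935657141), (nat_lit 24854430941), (nat_lit 25502913610), (nat_lit 24979827655), (nat_lit 25599283461)], (nat_lit 1271251), (nat_lit 1271251), (nat_lit 490000), (nat_lit 780000), (nat_lit 1271251), (nat_lit 1271251), [(nat_lit 490000),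 (nat_lit 780000), (nat_lit 1100000)], [(nat_lit 2), (nat_lit 44), (nat_lit 238), (nat_lit 30), (nat_lit 9)]⟩,
 ⟨⟨[(nat_lit 80), (nat_lit 120), (nat_lit 140)], [(nat_lit 0), (nat_lit 0), (nat_lit 1164)], [((nat_lit 0), (nat_lit 0), (nat_lit 0)), ((nat_lit 0), (nat_lit 0), (nat_lit 0)), ((nat_lit 941), (nat_lit 1000), (nat_lit 576))], ((nat_lit 100), (nat_lit 95), (nat_lit 55))⟩, (nat_lit 25487), (nat_lit 350), (nat_lit 350), (nat_lit 0), (nat_lit 296692), [(nat_lit 829776000), (nat_lit 1410336000), (nat_lit 1742034000)], [], [(nat_lit 5432442876), (nat_lit 5226618824), (nat_lit 6249836644), (nat_lit 4982427510), (nat_lit 6787984476), (nat_lit 5359721652), (nat_lit 7723498828), (nat_lit 6313696017)], (nat_lit 1271251), (nat_lit 1271251), (nat_lit 490000), (nat_lit 780000), (nat_lit 0), (nat_lit 780000), [(nat_lit 1100000), (nat_lit 1785001), (nat_lit 1271251)], [(nat_lit 17), (nat_lit 58), (nat_lit 345), (nat_lit 125), (nat_lit 10)]⟩,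
 ⟨⟨[(nat_lit 140), (nat_lit 180), (nat_lit 200)], [(nat_lit 0), (nat_lit 0), (nat_lit 2835)], [((nat_lit 0), (nat_lit 0), (nat_lit 0)), ((nat_lit 0), (nat_lit 0), (nat_lit 0)), ((nat_lit 363), (nat_lit 1000), (nat_lit 798))], ((nat_lit 0), (nat_lit 0), (nat_lit 0))⟩, (nat_lit 43196), (nat_lit 300), (nat_lit 434), (nat_lit 12261700), (nat_lit 0), [(nat_lit 1545194000), (nat_lit 2207106000), (nat_lit 2574800000)], [], [(nat_lit 10148416674), (nat_lit 9814683744), (nat_lit 10386659048), (nat_lit 10010156094), (nat_lit 8514838407), (nat_lit 8206049925), (nat_lit 8720052516), (nat_lit 8364539361)], (nat_lit 0), (nat_lit 0), (nat_lit 0), (nat_lit 0), (nat_lit 0), (nat_lit 0), [], [(nat_lit 32), (nat_lit 67), (nat_lit 401), (nat_lit 175), (nat_lit 9)]⟩⟩) (.trZ (nat_lit 0) (nat_lit 1) (nat_lit 3) (nat_lit 100) (nat_lit 68) (nat_lit 89) (nat_lit 100) (.trX (nat_lit 4) (nat_lit 0) (nat_lit 2) (nat_lit 66) (nat_lit 82) (nat_lit 100) (nat_lit 320) (.leaf ⟨(nat_lit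 854), (nat_lit 0), (nat_lit 0), (nat_lit 146), (nat_lit 0), (nat_lit 3365), (nat_lit 808), (nat_lit 1774), (nat_lit 0), (nat_lit 0), (nat_lit 380600), [((nat_lit 360), [((nat_lit 21), (nat_lit 1), (nat_lit 659)), ((nat_lit 39), (nat_lit 2), (nat_lit 195))])], ⟨(nat_lit 6), false, false, false, (nat_lit 166), (nat_lit 3162), (nat_lit 3536), [(nat_lit 1386958), (nat_lit 1391883), (nat_lit 1408903), (nat_lit 1414030), (nat_lit 1418344), (nat_lit 1422365), (nat_lit 1440289), (nat_lit 1444512)]⟩, ⟨(nat_lit 6), true, false, true, (nat_lit 227), (nat_lit 3162), (nat_lit 3536), [(nat_lit 1474949), (nat_lit 1472332), (nat_lit 1540807), (nat_lit 1538797), (nat_lit 1600472), (nat_lit 1594239), (nat_lit 1666330), (nat_lit 1660704)]⟩, (nat_lit 4820364), (nat_lit 42647639), (nat_lit 9216790), (nat_lit 15135571), (nat_lit 0), (nat_lit 0), [⟨(nat_lit 0), (nat_lit 100), (nat_lit 68), (nat_lit 89), (nat_lit 275439717)⟩], [⟨(nat_lit 1), (nat_lit 94), (nat_lit 65), (nat_lit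 100), (nat_lit 91556002)⟩], [], [],
 ⟨⟨[(nat_lit 40), (nat_lit 60), (nat_lit 80)], [(nat_lit 0), (nat_lit 600), (nat_lit 1195)], [((nat_lit 0), (nat_lit 0), (nat_lit 0)), ((nat_lit 1000), (nat_lit 725), (nat_lit 454)), ((nat_lit 1000), (nat_lit 720), (nat_lit 465))], ((nat_lit 69), (nat_lit 100), (nat_lit 56))⟩, (nat_lit 573351), (nat_lit 171), (nat_lit 171), (nat_lit 0), (nat_lit 325373), [(nat_lit 1422188801), (nat_lit 1623797605), (nat_lit 1855815595)], [(nat_lit 0), (nat_lit 0), (nat_lit 0)], [(nat_lit 21724069506), (nat_lit 22308441823), (nat_lit 21940090443), (nat_lit 22510550168), (nat_lit 24905595831), (nat_lit 25552845703), (nat_lit 25013230802), (nat_lit 25603490865)], (nat_lit 1271251), (nat_lit 1271251), (nat_lit 631250), (nat_lit 780000), (nat_lit 1271251), (nat_lit 1271251), [(nat_lit 490000), (nat_lit 780000), (nat_lit 1100000)], [(nat_lit 2), (nat_lit 44), (nat_lit 238), (nat_lit 30), (nat_lit 9)]⟩,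
 ⟨⟨[(nat_lit 80), (nat_lit 120), (nat_lit 140)], [(nat_lit 0), (nat_lit 0), (nat_lit 1164)], [((nat_lit 0), (nat_lit 0), (nat_lit 0)), ((nat_lit 0), (nat_lit 0), (nat_lit 0)), ((nat_lit 941), (nat_lit 1000), (nat_lit 576))], ((nat_lit 100), (nat_lit 95), (nat_lit 55))⟩, (nat_lit 230098), (nat_lit 362), (nat_lit 362), (nat_lit 0), (nat_lit 342292), [(nat_lit 684448000), (nat_lit 1163328000), (nat_lit 1436932000)], [], [(nat_lit 5575085344), (nat_lit 5188413085), (nat_lit 5151080880), (nat_lit 5194573856), (nat_lit 5113129228), (nat_lit 4861761580), (nat_lit 5297332120), (nat_lit 4919002078)], (nat_lit 1271251), (nat_lit 1271251), (nat_lit 631250), (nat_lit 780000), (nat_lit 0), (nat_lit 780000), [(nat_lit 1100000), (nat_lit 1785001), (nat_lit 1271251)], [(nat_lit 17), (nat_lit 58), (nat_lit 345), (nat_lit 125), (nat_lit 10)]⟩,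
 ⟨⟨[(nat_lit 140), (nat_lit 180), (nat_lit 200)], [(nat_lit 0), (nat_lit 0), (nat_lit 2835)], [((nat_lit 0), (nat_lit 0), (nat_lit 0)), ((nat_lit 0), (nat_lit 0), (nat_lit 0)), ((nat_lit 363), (nat_lit 1000), (nat_lit 798))], ((nat_lit 0), (nat_lit 0), (nat_lit 0))⟩, (nat_lit 40169), (nat_lit 300), (nat_lit 434), (nat_lit 11402605), (nat_lit 0), [(nat_lit 1436932000), (nat_lit 2052468000), (nat_lit 2394400000)], [], [(nat_lit 9437336946), (nat_lit 9120900010), (nat_lit 9605060064), (nat_lit 9255444390), (nat_lit 7895219459), (nat_lit 7602344605), (nat_lit 8037979186), (nat_lit 7707212336)], (nat_lit 0), (nat_lit 0), (nat_lit 0), (nat_lit 0), (nat_lit 0), (nat_lit 0), [], [(nat_lit 32), (nat_lit 67), (nat_lit 401), (nat_lit 175), (nat_lit 9)]⟩⟩)))) (.trZ (nat_lit 0) (nat_lit 1) (nat_lit 3) (nat_lit 100) (nat_lit 75) (nat_lit 92) (nat_lit 100) (.leaf ⟨(nat_lit 0), (nat_lit 638), (nat_lit 0), (nat_lit 362), (nat_lit 0), (nat_lit 5587), (nat_lit 5491),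 (nat_lit 4342), (nat_lit 0), (nat_lit 0), (nat_lit 0), [], Pd.none, Pd.none, (nat_lit 0), (nat_lit 1), (nat_lit 0), (nat_lit 0), (nat_lit 6), (nat_lit 0), [⟨(nat_lit 0), (nat_lit 100), (nat_lit 75), (nat_lit 92), (nat_lit 1782947266)⟩], [⟨(nat_lit 1), (nat_lit 92), (nat_lit 68), (nat_lit 100), (nat_lit 222367156)⟩], [], [],
 ⟨⟨[(nat_lit 40), (nat_lit 60), (nat_lit 80)], [(nat_lit 0), (nat_lit 398), (nat_lit 992)], [((nat_lit 0), (nat_lit 0), (nat_lit 0)), ((nat_lit 1000), (nat_lit 814), (nat_lit 310)), ((nat_lit 1000), (nat_lit 752), (nat_lit 464))], ((nat_lit 73), (nat_lit 100), (nat_lit 55))⟩, (nat_lit 391238), (nat_lit 185), (nat_lit 185), (nat_lit 0), (nat_lit 364417), [(nat_lit 2251902531), (nat_lit 3282000004), (nat_lit 4688000000)], [], [(nat_lit 22468174730), (nat_lit 24151238383), (nat_lit 22519665470), (nat_lit 24133685029), (nat_lit 27464992348), (nat_lit 29104653664), (nat_lit 27358296472), (nat_lit 28899608449)], (nat_lit 1271251), (nat_lit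 1271251), (nat_lit 631250), (nat_lit 780000), (nat_lit 1271251), (nat_lit 1271251), [(nat_lit 490000), (nat_lit 780000), (nat_lit 1100000)], [(nat_lit 2), (nat_lit 44), (nat_lit 238), (nat_lit 30), (nat_lit 9)]⟩,
 ⟨⟨[(nat_lit 80), (nat_lit 120), (nat_lit 140)], [(nat_lit 0), (nat_lit 528), (nat_lit 1572)], [((nat_lit 0), (nat_lit 0), (nat_lit 0)), ((nat_lit 1000), (nat_lit 959), (nat_lit 206)), ((nat_lit 966), (nat_lit 1000), (nat_lit 679))], ((nat_lit 99), (nat_lit 100), (nat_lit 56))⟩, (nat_lit 3226009), (nat_lit 371), (nat_lit 371), (nat_lit 0), (nat_lit 347708), [(nat_lit 4688000000), (nat_lit 7968000000), (nat_lit 9842000000)], [], [(nat_lit 33578732698), (nat_lit 31614453889), (nat_lit 30718962020), (nat_lit 31633334306), (nat_lit 30784996648), (nat_lit 29306020085), (nat_lit 32058770045), (nat_lit 29487717742)], (nat_lit 1271251), (nat_lit 1271251), (nat_lit 631250), (nat_lit 780000), (nat_lit 0), (nat_lit 780000), [(nat_lit 1100000), (nat_lit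 1785001), (nat_lit 1271251)], [(nat_lit 17), (nat_lit 58), (nat_lit 373), (nat_lit 150), (nat_lit 11)]⟩,
 ⟨⟨[(nat_lit 140), (nat_lit 180), (nat_lit 200)], [(nat_lit 0), (nat_lit 0), (nat_lit 2835)], [((nat_lit 0), (nat_lit 0), (nat_lit 0)), ((nat_lit 0), (nat_lit 0), (nat_lit 0)), ((nat_lit 363), (nat_lit 1000), (nat_lit 798))], ((nat_lit 0), (nat_lit 0), (nat_lit 0))⟩, (nat_lit 99598), (nat_lit 300), (nat_lit 434), (nat_lit 28272200), (nat_lit 0), [(nat_lit 3562804000), (nat_lit 5088996000), (nat_lit 5936800000)], [], [(nat_lit 23399533369), (nat_lit 22629953357), (nat_lit 23948861482), (nat_lit 23080739322), (nat_lit 19632632311), (nat_lit 18920572394), (nat_lit 20105787014), (nat_lit 19285986296)], (nat_lit 0), (nat_lit 0), (nat_lit 0), (nat_lit 0), (nat_lit 0), (nat_lit 0), [], [(nat_lit 32), (nat_lit 67), (nat_lit 401), (nat_lit 175), (nat_lit 9)]⟩⟩))) (.leaf ⟨(nat_lit 0), (nat_lit 0), (nat_lit 0), (nat_lit 1000), (nat_lit 0), (nat_lit 5421),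 (nat_lit 6589), (nat_lit 24360), (nat_lit 0), (nat_lit 0), (nat_lit 0), [], Pd.none, Pd.none, (nat_lit 0), (nat_lit 1), (nat_lit 0), (nat_lit 0), (nat_lit 0), (nat_lit 0), [⟨(nat_lit 0), (nat_lit 100), (nat_lit 73), (nat_lit 85), (nat_lit 854200751)⟩], [⟨(nat_lit 1), (nat_lit 92), (nat_lit 68), (nat_lit 100), (nat_lit 459421479)⟩], [], [],
 ⟨⟨[(nat_lit 40), (nat_lit 60), (nat_lit 80)], [(nat_lit 0), (nat_lit 398), (nat_lit 992)], [((nat_lit 0), (nat_lit 0), (nat_lit 0)), ((nat_lit 1000), (nat_lit 814), (nat_lit 310)), ((nat_lit 1000), (nat_lit 752), (nat_lit 464))], ((nat_lit 73), (nat_lit 100), (nat_lit 55))⟩, (nat_lit 1451045), (nat_lit 190), (nat_lit 190), (nat_lit 0), (nat_lit 364586), [(nat_lit 2032000007), (nat_lit 3282000005), (nat_lit 4688000000)], [], [(nat_lit 21455337210), (nat_lit 23549845014), (nat_lit 21599385480), (nat_lit 23443608043), (nat_lit 27417873387), (nat_lit 29069644745), (nat_lit 27124787264), (nat_lit 28695854280)], (nat_lit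 1271251), (nat_lit 1271251), (nat_lit 490000), (nat_lit 780000), (nat_lit 1271251), (nat_lit 1271251), [(nat_lit 490000), (nat_lit 780000), (nat_lit 1100000)], [(nat_lit 2), (nat_lit 44), (nat_lit 238), (nat_lit 30), (nat_lit 9)]⟩,
 ⟨⟨[(nat_lit 80), (nat_lit 120), (nat_lit 140)], [(nat_lit 0), (nat_lit 0), (nat_lit 1164)], [((nat_lit 0), (nat_lit 0), (nat_lit 0)), ((nat_lit 0), (nat_lit 0), (nat_lit 0)), ((nat_lit 941), (nat_lit 1000), (nat_lit 576))], ((nat_lit 100), (nat_lit 95), (nat_lit 55))⟩, (nat_lit 951189), (nat_lit 377), (nat_lit 377), (nat_lit 0), (nat_lit 551145), [(nat_lit 4688000000), (nat_lit 7968000000), (nat_lit 9842000000)], [], [(nat_lit 32503523772), (nat_lit 34034791350), (nat_lit 32436843921), (nat_lit 33877787952), (nat_lit 44390560781), (nat_lit 39030816866), (nat_lit 47283080678), (nat_lit 41446421758)], (nat_lit 1271251), (nat_lit 1271251), (nat_lit 490000), (nat_lit 780000), (nat_lit 780000), (nat_lit 2826876), [(nat_lit 1100000),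 (nat_lit 1785001), (nat_lit 1271251)], [(nat_lit 17), (nat_lit 58), (nat_lit 428), (nat_lit 200), (nat_lit 12)]⟩,
 ⟨⟨[(nat_lit 140), (nat_lit 180), (nat_lit 200)], [(nat_lit 0), (nat_lit 0), (nat_lit 2835)], [((nat_lit 0), (nat_lit 0), (nat_lit 0)), ((nat_lit 0), (nat_lit 0), (nat_lit 0)), ((nat_lit 363), (nat_lit 1000), (nat_lit 798))], ((nat_lit 0), (nat_lit 0), (nat_lit 0))⟩, (nat_lit 4873613), (nat_lit 256), (nat_lit 256), (nat_lit 0), (nat_lit 0), [(nat_lit 9842000000), (nat_lit 14058000000), (nat_lit 16400000000)], [], [(nat_lit 27407043385), (nat_lit 26082957820), (nat_lit 39742858990), (nat_lit 36806298478), (nat_lit 41170666480), (nat_lit 37923384745), (nat_lit 53015143608), (nat_lit 49379723229)], (nat_lit 0), (nat_lit 0), (nat_lit 0), (nat_lit 0), (nat_lit 0), (nat_lit 0), [], [(nat_lit 32), (nat_lit 67), (nat_lit 456), (nat_lit 225), (nat_lit 9)]⟩⟩))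
noncomputable def c8_25 : Tr Lf :=
 (.trX (nat_lit 4) (nat_lit 0) (nat_lit 2) (nat_lit 73) (nat_lit 85) (nat_lit 100) (nat_lit 320) (.stt (nat_lit 1) (.spl (nat_lit 4) (nat_lit 280) (.leaf ⟨(nat_lit 1000), (nat_lit 0), (nat_lit 0), (nat_lit 0), (nat_lit 0), (nat_lit 4072), (nat_lit 0), (nat_lit 0), (nat_lit 0), (nat_lit 0), (nat_lit 250000), [((nat_lit 360), [((nat_lit 21), (nat_lit 0), (nat_lit 1000))])], ⟨(nat_lit 6), false, false, false, (nat_lit 164), (nat_lit 3162), (nat_lit 3873), [(nat_lit 1349867), (nat_lit 1361295), (nat_lit 1393396), (nat_lit 1405548), (nat_lit 1414421), (nat_lit 1422280), (nat_lit 1457950), (nat_lit 1466533)]⟩, ⟨(nat_lit 6), false, false, true, (nat_lit 211), (nat_lit 3162), (nat_lit 3873), [(nat_lit 1477347), (nat_lit 1472332), (nat_lit 1520934), (nat_lit 1516642), (nat_lit 1541869), (nat_lit 1533286), (nat_lit 1585455), (nat_lit 1577595)]⟩, (nat_lit 4683940), (nat_lit 44137114), (nat_lit 9150732), (nat_lit 13712154), (nat_lit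 0), (nat_lit 0), [⟨(nat_lit 0), (nat_lit 100), (nat_lit 69), (nat_lit 96), (nat_lit 355420215)⟩], [], [], [],
 ⟨⟨[(nat_lit 40), (nat_lit 60), (nat_lit 80)], [(nat_lit 0), (nat_lit 398), (nat_lit 992)], [((nat_lit 0), (nat_lit 0), (nat_lit 0)), ((nat_lit 1000), (nat_lit 814), (nat_lit 310)), ((nat_lit 1000), (nat_lit 752), (nat_lit 464))], ((nat_lit 73), (nat_lit 100), (nat_lit 55))⟩, (nat_lit 0), (nat_lit 65), (nat_lit 65), (nat_lit 0), (nat_lit 0), [(nat_lit 1681973945), (nat_lit 1818655922), (nat_lit 1963600000)], [(nat_lit 0), (nat_lit 0), (nat_lit 0)], [(nat_lit 20725455896), (nat_lit 22256512848), (nat_lit 21003421164), (nat_lit 22433125000), (nat_lit 22752187540), (nat_lit 24363367480), (nat_lit 22875568744), (nat_lit 24408483624)], (nat_lit 0), (nat_lit 0), (nat_lit 0), (nat_lit 0), (nat_lit 0), (nat_lit 0), [], [(nat_lit 2), (nat_lit 44), (nat_lit 238), (nat_lit 30), (nat_lit 9)]⟩,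
 Rw.none,
 Rw.none⟩) (.trX (nat_lit 5) (nat_lit 4) (nat_lit 3) (nat_lit 100) (nat_lit 80) (nat_lit 100) (nat_lit 340) (.spl (nat_lit 2) (nat_lit 140) (.trX (nat_lit 4) (nat_lit 0) (nat_lit 2) (nat_lit 75) (nat_lit 92) (nat_lit 100) (nat_lit 300) (.leaf ⟨(nat_lit 1000), (nat_lit 0), (nat_lit 0), (nat_lit 0), (nat_lit 0), (nat_lit 3955), (nat_lit 0), (nat_lit 0), (nat_lit 0), (nat_lit 0), (nat_lit 250000), [((nat_lit 360), [((nat_lit 21), (nat_lit 0), (nat_lit 1000))])], ⟨(nat_lit 6), false, false, false, (nat_lit 164), (nat_lit 3162), (nat_lit 3873), [(nat_lit 1349867), (nat_lit 1361295), (nat_lit 1393396), (nat_lit 1405548), (nat_lit 1414421), (nat_lit 1422280), (nat_lit 1457950), (nat_lit 1466533)]⟩, ⟨(nat_lit 7), false, false, true, (nat_lit 226), (nat_lit 3162), (nat_lit 3873), [(nat_lit 1541869), (nat_lit 1533286), (nat_lit 1563662), (nat_lit 1555441), (nat_lit 1574129), (nat_lit 1563762), (nat_lit 1595923), (nat_lit 1585917)]⟩, (nat_lit 4783608),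 (nat_lit 42968141), (nat_lit 9014835), (nat_lit 15017024), (nat_lit 0), (nat_lit 0), [⟨(nat_lit 0), (nat_lit 100), (nat_lit 69), (nat_lit 96), (nat_lit 360275930)⟩], [⟨(nat_lit 1), (nat_lit 92), (nat_lit 75), (nat_lit 100), (nat_lit 286887465)⟩], [], [],
 ⟨⟨[(nat_lit 40), (nat_lit 60), (nat_lit 80)], [(nat_lit 0), (nat_lit 398), (nat_lit 992)], [((nat_lit 0), (nat_lit 0), (nat_lit 0)), ((nat_lit 1000), (nat_lit 814), (nat_lit 310)), ((nat_lit 1000), (nat_lit 752), (nat_lit 464))], ((nat_lit 73), (nat_lit 100), (nat_lit 55))⟩, (nat_lit 0), (nat_lit 78), (nat_lit 78), (nat_lit 0), (nat_lit 0), [(nat_lit 1606175842), (nat_lit 1802327104), (nat_lit 1963600000)], [(nat_lit 0), (nat_lit 0), (nat_lit 0)], [(nat_lit 22723123983), (nat_lit 24227183575), (nat_lit 22925876317), (nat_lit 24295480110), (nat_lit 23759312904), (nat_lit 25268604878), (nat_lit 23852431670), (nat_lit 25290358283)], (nat_lit 0), (nat_lit 0), (nat_lit 0), (nat_lit 0), (nat_lit 0), (nat_lit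 0), [], [(nat_lit 2), (nat_lit 44), (nat_lit 238), (nat_lit 30), (nat_lit 9)]⟩,
 Rw.none,
 Rw.none⟩)) (.spl (nat_lit 5) (nat_lit 120) (.leaf ⟨(nat_lit 892), (nat_lit 71), (nat_lit 0), (nat_lit 37), (nat_lit 0), (nat_lit 3485), (nat_lit 1533), (nat_lit 435), (nat_lit 0), (nat_lit 0), (nat_lit 436000), [((nat_lit 360), [((nat_lit 21), (nat_lit 1), (nat_lit 760)), ((nat_lit 21), (nat_lit 2), (nat_lit 132))])], ⟨(nat_lit 6), false, false, false, (nat_lit 164), (nat_lit 3162), (nat_lit 3873), [(nat_lit 1349867), (nat_lit 1361295), (nat_lit 1393396), (nat_lit 1405548), (nat_lit 1414421), (nat_lit 1422280), (nat_lit 1457950), (nat_lit 1466533)]⟩, ⟨(nat_lit 7), false, false, true, (nat_lit 241), (nat_lit 3162), (nat_lit 3873), [(nat_lit 1563662), (nat_lit 1555441), (nat_lit 1585455), (nat_lit 1577595), (nat_lit 1628183), (nat_lit 1616394), (nat_lit 1649977), (nat_lit 1638549)]⟩, (nat_lit 4873504), (nat_lit 41751898), (nat_lit 8862641), (nat_lit 16385461),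 (nat_lit 7), (nat_lit 0), [⟨(nat_lit 0), (nat_lit 100), (nat_lit 73), (nat_lit 85), (nat_lit 168074571)⟩], [⟨(nat_lit 1), (nat_lit 85), (nat_lit 73), (nat_lit 100), (nat_lit 267806009)⟩], [], [],
 ⟨⟨[(nat_lit 40), (nat_lit 60), (nat_lit 80)], [(nat_lit 0), (nat_lit 398), (nat_lit 992)], [((nat_lit 0), (nat_lit 0), (nat_lit 0)), ((nat_lit 1000), (nat_lit 814), (nat_lit 310)), ((nat_lit 1000), (nat_lit 752), (nat_lit 464))], ((nat_lit 73), (nat_lit 100), (nat_lit 55))⟩, (nat_lit 0), (nat_lit 85), (nat_lit 85), (nat_lit 0), (nat_lit 0), [(nat_lit 1402502268), (nat_lit 1657917218), (nat_lit 1577912000)], [(nat_lit 0), (nat_lit 0), (nat_lit 0)], [(nat_lit 22464189578), (nat_lit 23740635815), (nat_lit 22742278564), (nat_lit 23959376763), (nat_lit 24320309340), (nat_lit 25666504060), (nat_lit 24513141495), (nat_lit 25742150985)], (nat_lit 0), (nat_lit 0), (nat_lit 0), (nat_lit 0), (nat_lit 0), (nat_lit 0), [], [(nat_lit 2), (nat_lit 44), (nat_lit 238), (nat_lit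 30), (nat_lit 9)]⟩,
 ⟨⟨[(nat_lit 80), (nat_lit 120), (nat_lit 140)], [(nat_lit 0), (nat_lit 0), (nat_lit 1164)], [((nat_lit 0), (nat_lit 0), (nat_lit 0)), ((nat_lit 0), (nat_lit 0), (nat_lit 0)), ((nat_lit 941), (nat_lit 1000), (nat_lit 576))], ((nat_lit 100), (nat_lit 95), (nat_lit 55))⟩, (nat_lit 0), (nat_lit 367), (nat_lit 367), (nat_lit 0), (nat_lit 319548), [(nat_lit 506304000), (nat_lit 860544000), (nat_lit 1062936000)], [], [(nat_lit 3592810944), (nat_lit 3453195180), (nat_lit 4021554426), (nat_lit 3331344045), (nat_lit 4328044344), (nat_lit 2911791492), (nat_lit 4815351492), (nat_lit 3417403427)], (nat_lit 1271251), (nat_lit 1271251), (nat_lit 490000), (nat_lit 780000), (nat_lit 0), (nat_lit 780000), [(nat_lit 1100000), (nat_lit 1785001), (nat_lit 1271251)], [(nat_lit 17), (nat_lit 58), (nat_lit 373), (nat_lit 150), (nat_lit 11)]⟩,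
 ⟨⟨[(nat_lit 140), (nat_lit 160), (nat_lit 180)], [(nat_lit 0), (nat_lit 304), (nat_lit 1085)], [((nat_lit 0), (nat_lit 0), (nat_lit 0)), ((nat_lit 913), (nat_lit 1000), (nat_lit 217)), ((nat_lit 759), (nat_lit 1000), (nat_lit 463))], ((nat_lit 100), (nat_lit 67), (nat_lit 57))⟩, (nat_lit 75947), (nat_lit 300), (nat_lit 1551), (nat_lit 2601101), (nat_lit 2614726), [(nat_lit 364154000), (nat_lit 439264000), (nat_lit 520146000)], [], [(nat_lit 2048323320), (nat_lit 2017637772), (nat_lit 2057993556), (nat_lit 2026052656), (nat_lit 1730307136), (nat_lit 1698690463), (nat_lit 1717328586), (nat_lit 1687121736)], (nat_lit 936250), (nat_lit 1100000), (nat_lit 1271251), (nat_lit 1271251), (nat_lit 0), (nat_lit 780000), [(nat_lit 1977501), (nat_lit 1271251), (nat_lit 1271251)], [(nat_lit 31), (nat_lit 65), (nat_lit 463), (nat_lit 150), (nat_lit 11)]⟩⟩) (.leaf ⟨(nat_lit 935), (nat_lit 38), (nat_lit 0), (nat_lit 27), (nat_lit 0), (nat_lit 3348), (nat_lit 980),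 (nat_lit 285), (nat_lit 0), (nat_lit 0), (nat_lit 470800), [((nat_lit 360), [((nat_lit 21), (nat_lit 1), (nat_lit 451)), ((nat_lit 39), (nat_lit 2), (nat_lit 484))])], ⟨(nat_lit 6), false, false, false, (nat_lit 164), (nat_lit 3162), (nat_lit 3873), [(nat_lit 1349867), (nat_lit 1361295), (nat_lit 1393396), (nat_lit 1405548), (nat_lit 1414421), (nat_lit 1422280), (nat_lit 1457950), (nat_lit 1466533)]⟩, ⟨(nat_lit 7), false, false, true, (nat_lit 241), (nat_lit 3162), (nat_lit 3873), [(nat_lit 1563662), (nat_lit 1555441), (nat_lit 1585455), (nat_lit 1577595), (nat_lit 1628183), (nat_lit 1616394), (nat_lit 1649977), (nat_lit 1638549)]⟩, (nat_lit 4873504), (nat_lit 41751898), (nat_lit 8862641), (nat_lit 16385461), (nat_lit 7), (nat_lit 0), [⟨(nat_lit 0), (nat_lit 100), (nat_lit 69), (nat_lit 96), (nat_lit 182804974)⟩], [⟨(nat_lit 1), (nat_lit 85), (nat_lit 73), (nat_lit 100), (nat_lit 239695566)⟩], [], [⟨(nat_lit 2), (nat_lit 100), (nat_lit 100), (nat_lit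 100), (nat_lit 6548267)⟩],
 ⟨⟨[(nat_lit 40), (nat_lit 60), (nat_lit 80)], [(nat_lit 0), (nat_lit 398), (nat_lit 992)], [((nat_lit 0), (nat_lit 0), (nat_lit 0)), ((nat_lit 1000), (nat_lit 814), (nat_lit 310)), ((nat_lit 1000), (nat_lit 752), (nat_lit 464))], ((nat_lit 73), (nat_lit 100), (nat_lit 55))⟩, (nat_lit 34510), (nat_lit 85), (nat_lit 85), (nat_lit 0), (nat_lit 0), [(nat_lit 1366594530), (nat_lit 1515216732), (nat_lit 1385210400)], [(nat_lit 0), (nat_lit 0), (nat_lit 0)], [(nat_lit 22308890186), (nat_lit 23526992172), (nat_lit 22640917791), (nat_lit 23770143080), (nat_lit 24157821312), (nat_lit 25478924208), (nat_lit 24321976534), (nat_lit 25583847348)], (nat_lit 0), (nat_lit 0), (nat_lit 0), (nat_lit 0), (nat_lit 0), (nat_lit 0), [], [(nat_lit 2), (nat_lit 44), (nat_lit 238), (nat_lit 30), (nat_lit 9)]⟩,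
 ⟨⟨[(nat_lit 80), (nat_lit 120), (nat_lit 140)], [(nat_lit 0), (nat_lit 0), (nat_lit 1164)], [((nat_lit 0), (nat_lit 0), (nat_lit 0)), ((nat_lit 0), (nat_lit 0), (nat_lit 0)), ((nat_lit 941), (nat_lit 1000), (nat_lit 576))], ((nat_lit 100), (nat_lit 95), (nat_lit 55))⟩, (nat_lit 0), (nat_lit 249), (nat_lit 249), (nat_lit 0), (nat_lit 319548), [(nat_lit 304720000), (nat_lit 517920000), (nat_lit 639730000)], [], [(nat_lit 2374335000), (nat_lit 1360947380), (nat_lit 1360947380), (nat_lit 1214382853), (nat_lit 2586796840), (nat_lit 2159435120), (nat_lit 2911340770), (nat_lit 2035577638)], (nat_lit 1271251), (nat_lit 1271251), (nat_lit 490000), (nat_lit 780000), (nat_lit 780000), (nat_lit 2581251), [(nat_lit 1100000), (nat_lit 1785001), (nat_lit 1271251)], [(nat_lit 17), (nat_lit 58), (nat_lit 428), (nat_lit 200), (nat_lit 12)]⟩,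
 ⟨⟨[(nat_lit 140), (nat_lit 160), (nat_lit 180)], [(nat_lit 0), (nat_lit 304), (nat_lit 1085)], [((nat_lit 0), (nat_lit 0), (nat_lit 0)), ((nat_lit 913), (nat_lit 1000), (nat_lit 217)), ((nat_lit 759), (nat_lit 1000), (nat_lit 463))], ((nat_lit 100), (nat_lit 67), (nat_lit 57))⟩, (nat_lit 55421), (nat_lit 300), (nat_lit 2226), (nat_lit 1898101), (nat_lit 4101542), [(nat_lit 265734000), (nat_lit 320544000), (nat_lit 379566000)], [], [(nat_lit 1435497428), (nat_lit 1417097700), (nat_lit 1406837497), (nat_lit 1388453623), (nat_lit 1265902867), (nat_lit 1244621831), (nat_lit 1251319511), (nat_lit 1229725017)], (nat_lit 936250), (nat_lit 1100000), (nat_lit 1271251), (nat_lit 1271251), (nat_lit 780000), (nat_lit 2581251), [(nat_lit 1977501), (nat_lit 1271251), (nat_lit 1271251)], [(nat_lit 31), (nat_lit 65), (nat_lit 659), (nat_lit 225), (nat_lit 15)]⟩⟩))))) (.spl (nat_lit 5) (nat_lit 120) (.leaf ⟨(nat_lit 805), (nat_lit 109), (nat_lit 0), (nat_lit 86),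 (nat_lit 0), (nat_lit 3696), (nat_lit 2906), (nat_lit 1168), (nat_lit 0), (nat_lit 0), (nat_lit 448400), [((nat_lit 360), [((nat_lit 21), (nat_lit 1), (nat_lit 173)), ((nat_lit 39), (nat_lit 2), (nat_lit 632))])], ⟨(nat_lit 6), false, false, false, (nat_lit 164), (nat_lit 3162), (nat_lit 3873), [(nat_lit 1349867), (nat_lit 1361295), (nat_lit 1393396), (nat_lit 1405548), (nat_lit 1414421), (nat_lit 1422280), (nat_lit 1457950), (nat_lit 1466533)]⟩, ⟨(nat_lit 6), false, false, true, (nat_lit 224), (nat_lit 3162), (nat_lit 3873), [(nat_lit 1477347), (nat_lit 1472332), (nat_lit 1520934), (nat_lit 1516642), (nat_lit 1606390), (nat_lit 1594239), (nat_lit 1649977), (nat_lit 1638549)]⟩, (nat_lit 4771387), (nat_lit 43120256), (nat_lit 9033111), (nat_lit 14846633), (nat_lit 6), (nat_lit 0), [⟨(nat_lit 0), (nat_lit 100), (nat_lit 73), (nat_lit 85), (nat_lit 131997618)⟩], [⟨(nat_lit 1), (nat_lit 85), (nat_lit 73), (nat_lit 100), (nat_lit 182332562)⟩], [], [],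
 ⟨⟨[(nat_lit 40), (nat_lit 60), (nat_lit 80)], [(nat_lit 0), (nat_lit 398), (nat_lit 992)], [((nat_lit 0), (nat_lit 0), (nat_lit 0)), ((nat_lit 1000), (nat_lit 814), (nat_lit 310)), ((nat_lit 1000), (nat_lit 752), (nat_lit 464))], ((nat_lit 73), (nat_lit 100), (nat_lit 55))⟩, (nat_lit 0), (nat_lit 153), (nat_lit 153), (nat_lit 0), (nat_lit 253588), [(nat_lit 1427435923), (nat_lit 1627266289), (nat_lit 1718726711)], [(nat_lit 0), (nat_lit 0), (nat_lit 0)], [(nat_lit 21178710867), (nat_lit 22385884139), (nat_lit 21544123899), (nat_lit 22694162667), (nat_lit 24570564624), (nat_lit 25955404416), (nat_lit 24664476568), (nat_lit 25985961696)], (nat_lit 1271251), (nat_lit 1271251), (nat_lit 490000), (nat_lit 780000), (nat_lit 1271251), (nat_lit 1271251), [(nat_lit 490000), (nat_lit 780000), (nat_lit 1100000)], [(nat_lit 2), (nat_lit 44), (nat_lit 238), (nat_lit 30), (nat_lit 9)]⟩,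
 ⟨⟨[(nat_lit 80), (nat_lit 120), (nat_lit 140)], [(nat_lit 0), (nat_lit 0), (nat_lit 1164)], [((nat_lit 0), (nat_lit 0), (nat_lit 0)), ((nat_lit 0), (nat_lit 0), (nat_lit 0)), ((nat_lit 941), (nat_lit 1000), (nat_lit 576))], ((nat_lit 100), (nat_lit 95), (nat_lit 55))⟩, (nat_lit 0), (nat_lit 382), (nat_lit 382), (nat_lit 0), (nat_lit 352497), [(nat_lit 914160000), (nat_lit 1553760000), (nat_lit 1919190000)], [], [(nat_lit 6378433236), (nat_lit 6287910584), (nat_lit 7179887560), (nat_lit 6047810051), (nat_lit 7741812036), (nat_lit 5057121372), (nat_lit 8654281372), (nat_lit 6004289801)], (nat_lit 1271251), (nat_lit 1271251), (nat_lit 490000), (nat_lit 780000), (nat_lit 0), (nat_lit 780000), [(nat_lit 1100000), (nat_lit 1785001), (nat_lit 1271251)], [(nat_lit 17), (nat_lit 58), (nat_lit 373), (nat_lit 150), (nat_lit 11)]⟩,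
 ⟨⟨[(nat_lit 140), (nat_lit 180), (nat_lit 200)], [(nat_lit 0), (nat_lit 0), (nat_lit 2835)], [((nat_lit 0), (nat_lit 0), (nat_lit 0)), ((nat_lit 0), (nat_lit 0), (nat_lit 0)), ((nat_lit 363), (nat_lit 1000), (nat_lit 798))], ((nat_lit 0), (nat_lit 0), (nat_lit 0))⟩, (nat_lit 23661), (nat_lit 300), (nat_lit 878), (nat_lit 6716606), (nat_lit 921720), [(nat_lit 846412000), (nat_lit 1208988000), (nat_lit 1410400000)], [], [(nat_lit 5768452848), (nat_lit 5570203352), (nat_lit 5704305744), (nat_lit 5497983344), (nat_lit 4791416228), (nat_lit 4604589468), (nat_lit 4721956556), (nat_lit 4527202520)], (nat_lit 780000), (nat_lit 1100000), (nat_lit 1271251), (nat_lit 1271251), (nat_lit 0), (nat_lit 780000), [(nat_lit 1977501), (nat_lit 1271251), (nat_lit 1271251)], [(nat_lit 32), (nat_lit 67), (nat_lit 373), (nat_lit 150), (nat_lit 8)]⟩⟩) (.leaf ⟨(nat_lit 938), (nat_lit 25), (nat_lit 0), (nat_lit 37), (nat_lit 0), (nat_lit 3510), (nat_lit 941), (nat_lit 420),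 (nat_lit 0), (nat_lit 0), (nat_lit 457800), [((nat_lit 360), [((nat_lit 21), (nat_lit 1), (nat_lit 525)), ((nat_lit 39), (nat_lit 2), (nat_lit 413))])], ⟨(nat_lit 6), false, false, false, (nat_lit 164), (nat_lit 3162), (nat_lit 3873), [(nat_lit 1349867), (nat_lit 1361295), (nat_lit 1393396), (nat_lit 1405548), (nat_lit 1414421), (nat_lit 1422280), (nat_lit 1457950), (nat_lit 1466533)]⟩, ⟨(nat_lit 6), false, false, true, (nat_lit 224), (nat_lit 3162), (nat_lit 3873), [(nat_lit 1477347), (nat_lit 1472332), (nat_lit 1520934), (nat_lit 1516642), (nat_lit 1606390), (nat_lit 1594239), (nat_lit 1649977), (nat_lit 1638549)]⟩, (nat_lit 4771387), (nat_lit 43120256), (nat_lit 9033111), (nat_lit 14846633), (nat_lit 6), (nat_lit 0), [⟨(nat_lit 0), (nat_lit 100), (nat_lit 69), (nat_lit 96), (nat_lit 193791685)⟩], [⟨(nat_lit 1), (nat_lit 85), (nat_lit 73), (nat_lit 100), (nat_lit 204455972)⟩], [], [⟨(nat_lit 2), (nat_lit 88), (nat_lit 100), (nat_lit 94), (nat_lit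 311676)⟩],
 ⟨⟨[(nat_lit 40), (nat_lit 60), (nat_lit 80)], [(nat_lit 0), (nat_lit 398), (nat_lit 992)], [((nat_lit 0), (nat_lit 0), (nat_lit 0)), ((nat_lit 1000), (nat_lit 814), (nat_lit 310)), ((nat_lit 1000), (nat_lit 752), (nat_lit 464))], ((nat_lit 73), (nat_lit 100), (nat_lit 55))⟩, (nat_lit 618), (nat_lit 153), (nat_lit 153), (nat_lit 0), (nat_lit 253588), [(nat_lit 1368326409), (nat_lit 1433931509), (nat_lit 1435264891)], [(nat_lit 0), (nat_lit 0), (nat_lit 0)], [(nat_lit 21023345429), (nat_lit 22201496749), (nat_lit 21411619349), (nat_lit 22534649429), (nat_lit 24349960440), (nat_lit 25700733960), (nat_lit 24481939829), (nat_lit 25771038510)], (nat_lit 1271251), (nat_lit 1271251), (nat_lit 490000), (nat_lit 780000), (nat_lit 1271251), (nat_lit 1271251), [(nat_lit 490000), (nat_lit 780000), (nat_lit 1100000)], [(nat_lit 2), (nat_lit 44), (nat_lit 238), (nat_lit 30), (nat_lit 9)]⟩,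
 ⟨⟨[(nat_lit 80), (nat_lit 120), (nat_lit 140)], [(nat_lit 0), (nat_lit 0), (nat_lit 1164)], [((nat_lit 0), (nat_lit 0), (nat_lit 0)), ((nat_lit 0), (nat_lit 0), (nat_lit 0)), ((nat_lit 941), (nat_lit 1000), (nat_lit 576))], ((nat_lit 100), (nat_lit 95), (nat_lit 55))⟩, (nat_lit 0), (nat_lit 293), (nat_lit 293), (nat_lit 0), (nat_lit 352497), [(nat_lit 290656000), (nat_lit 494016000), (nat_lit 610204000)], [], [(nat_lit 2267706060), (nat_lit 1294647131), (nat_lit 1294647131), (nat_lit 1153795628), (nat_lit 2808300565), (nat_lit 2435092520), (nat_lit 3127648282), (nat_lit 2294310845)], (nat_lit 1271251), (nat_lit 1271251), (nat_lit 490000), (nat_lit 780000), (nat_lit 780000), (nat_lit 2826876), [(nat_lit 1100000), (nat_lit 1785001), (nat_lit 1271251)], [(nat_lit 17), (nat_lit 58), (nat_lit 428), (nat_lit 200), (nat_lit 12)]⟩,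
 ⟨⟨[(nat_lit 140), (nat_lit 180), (nat_lit 200)], [(nat_lit 0), (nat_lit 0), (nat_lit 2835)], [((nat_lit 0), (nat_lit 0), (nat_lit 0)), ((nat_lit 0), (nat_lit 0), (nat_lit 0)), ((nat_lit 363), (nat_lit 1000), (nat_lit 798))], ((nat_lit 0), (nat_lit 0), (nat_lit 0))⟩, (nat_lit 10180), (nat_lit 300), (nat_lit 1828), (nat_lit 2889700), (nat_lit 3160839), [(nat_lit 364154000), (nat_lit 520146000), (nat_lit 606800000)], [], [(nat_lit 2360132666), (nat_lit 2292919206), (nat_lit 2289853246), (nat_lit 2221054150), (nat_lit 2088243069), (nat_lit 2018362978), (nat_lit 2021880476), (nat_lit 1950899495)], (nat_lit 780000), (nat_lit 1100000), (nat_lit 1271251), (nat_lit 1271251), (nat_lit 780000), (nat_lit 2826876), [(nat_lit 1977501), (nat_lit 1271251), (nat_lit 1271251)], [(nat_lit 32), (nat_lit 67), (nat_lit 564), (nat_lit 225), (nat_lit 12)]⟩⟩))))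
noncomputable def c8_26 : Tr Lf :=
 (.spl (nat_lit 5) (nat_lit 120) (.spl (nat_lit 1) (nat_lit 260) (.spl (nat_lit 2) (nat_lit 170) (.leaf ⟨(nat_lit 897), (nat_lit 56), (nat_lit 0), (nat_lit 47), (nat_lit 0), (nat_lit 3595), (nat_lit 2605), (nat_lit 589), (nat_lit 0), (nat_lit 0), (nat_lit 403000), [((nat_lit 360), [((nat_lit 21), (nat_lit 1), (nat_lit 676)), ((nat_lit 39), (nat_lit 2), (nat_lit 221))])], ⟨(nat_lit 6), false, false, false, (nat_lit 159), (nat_lit 3162), (nat_lit 3873), [(nat_lit 1349867), (nat_lit 1361295), (nat_lit 1371632), (nat_lit 1383421), (nat_lit 1414421), (nat_lit 1422280), (nat_lit 1436185), (nat_lit 1444407)]⟩, ⟨(nat_lit 6), false, false, true, (nat_lit 238), (nat_lit 3162), (nat_lit 3873), [(nat_lit 1520934), (nat_lit 1516642), (nat_lit 1531830), (nat_lit 1527720), (nat_lit 1666107), (nat_lit 1653787), (nat_lit 1677004), (nat_lit 1664865)]⟩, (nat_lit 4817278), (nat_lit 42249842), (nat_lit 8555750), (nat_lit 16194408), (nat_lit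 6), (nat_lit 0), [⟨(nat_lit 0), (nat_lit 100), (nat_lit 73), (nat_lit 85), (nat_lit 158556189)⟩], [⟨(nat_lit 1), (nat_lit 81), (nat_lit 72), (nat_lit 100), (nat_lit 210226403)⟩], [], [],
 ⟨⟨[(nat_lit 40), (nat_lit 60), (nat_lit 80)], [(nat_lit 0), (nat_lit 398), (nat_lit 992)], [((nat_lit 0), (nat_lit 0), (nat_lit 0)), ((nat_lit 1000), (nat_lit 814), (nat_lit 310)), ((nat_lit 1000), (nat_lit 752), (nat_lit 464))], ((nat_lit 73), (nat_lit 100), (nat_lit 55))⟩, (nat_lit 0), (nat_lit 134), (nat_lit 134), (nat_lit 0), (nat_lit 189403), [(nat_lit 1398588023), (nat_lit 1557902635), (nat_lit 1683531965)], [(nat_lit 0), (nat_lit 0), (nat_lit 0)], [(nat_lit 21252408703), (nat_lit 22443822743), (nat_lit 21630235443), (nat_lit 22765608203), (nat_lit 25098326357), (nat_lit 26429049254), (nat_lit 25184840157), (nat_lit 26454558427)], (nat_lit 1271251), (nat_lit 1271251), (nat_lit 490000), (nat_lit 780000), (nat_lit 1271251), (nat_lit 1271251), [(nat_lit 490000),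 (nat_lit 780000), (nat_lit 1100000)], [(nat_lit 2), (nat_lit 44), (nat_lit 238), (nat_lit 30), (nat_lit 9)]⟩,
 ⟨⟨[(nat_lit 80), (nat_lit 120), (nat_lit 140)], [(nat_lit 0), (nat_lit 0), (nat_lit 1164)], [((nat_lit 0), (nat_lit 0), (nat_lit 0)), ((nat_lit 0), (nat_lit 0), (nat_lit 0)), ((nat_lit 941), (nat_lit 1000), (nat_lit 576))], ((nat_lit 100), (nat_lit 95), (nat_lit 55))⟩, (nat_lit 301107), (nat_lit 345), (nat_lit 345), (nat_lit 0), (nat_lit 284569), [(nat_lit 482864000), (nat_lit 820704000), (nat_lit 1013726000)], [], [(nat_lit 2527662036), (nat_lit 2887180732), (nat_lit 3162812206), (nat_lit 2665291205), (nat_lit 3525801036), (nat_lit 2322494226), (nat_lit 4260467416), (nat_lit 3072713108)], (nat_lit 1271251), (nat_lit 1271251), (nat_lit 490000), (nat_lit 780000), (nat_lit 0), (nat_lit 780000), [(nat_lit 1100000), (nat_lit 1785001), (nat_lit 1271251)], [(nat_lit 17), (nat_lit 58), (nat_lit 345), (nat_lit 125), (nat_lit 10)]⟩,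
 ⟨⟨[(nat_lit 120), (nat_lit 160), (nat_lit 180)], [(nat_lit 0), (nat_lit 0), (nat_lit 1613)], [((nat_lit 0), (nat_lit 0), (nat_lit 0)), ((nat_lit 0), (nat_lit 0), (nat_lit 0)), ((nat_lit 620), (nat_lit 1000), (nat_lit 670))], ((nat_lit 100), (nat_lit 73), (nat_lit 55))⟩, (nat_lit 20455), (nat_lit 300), (nat_lit 1138), (nat_lit 3487401), (nat_lit 1700684), [(nat_lit 374496000), (nat_lit 557984000), (nat_lit 660726000)], [], [(nat_lit 2596331680), (nat_lit 2583945377), (nat_lit 2623326554), (nat_lit 2610326850), (nat_lit 2166212746), (nat_lit 2151892763), (nat_lit 2158207571), (nat_lit 2145538293)], (nat_lit 1100000), (nat_lit 1184688), (nat_lit 1271251), (nat_lit 1271251), (nat_lit 0), (nat_lit 780000), [(nat_lit 1695001), (nat_lit 1271251), (nat_lit 1271251)], [(nat_lit 28), (nat_lit 65), (nat_lit 401), (nat_lit 175), (nat_lit 9)]⟩⟩) (.leaf ⟨(nat_lit 876), (nat_lit 57), (nat_lit 0), (nat_lit 67), (nat_lit 0), (nat_lit 3440), (nat_lit 3642), (nat_lit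 814), (nat_lit 0), (nat_lit 0), (nat_lit 515400), [((nat_lit 360), [((nat_lit 21), (nat_lit 1), (nat_lit 51)), ((nat_lit 39), (nat_lit 2), (nat_lit 825))])], ⟨(nat_lit 6), false, false, false, (nat_lit 159), (nat_lit 3162), (nat_lit 3873), [(nat_lit 1349867), (nat_lit 1361295), (nat_lit 1371632), (nat_lit 1383421), (nat_lit 1414421), (nat_lit 1422280), (nat_lit 1436185), (nat_lit 1444407)]⟩, ⟨(nat_lit 6), false, false, true, (nat_lit 242), (nat_lit 3162), (nat_lit 3873), [(nat_lit 1531830), (nat_lit 1527720), (nat_lit 1542727), (nat_lit 1538797), (nat_lit 1677004), (nat_lit 1664865), (nat_lit 1687900), (nat_lit 1675942)]⟩, (nat_lit 4841888), (nat_lit 41891550), (nat_lit 8512143), (nat_lit 16596307), (nat_lit 6), (nat_lit 0), [⟨(nat_lit 0), (nat_lit 100), (nat_lit 68), (nat_lit 92), (nat_lit 246639319)⟩], [⟨(nat_lit 1), (nat_lit 83), (nat_lit 67), (nat_lit 100), (nat_lit 49672360)⟩, ⟨(nat_lit 1), (nat_lit 77), (nat_lit 72), (nat_lit 100), (nat_lit 139049796)⟩],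 [⟨(nat_lit 0), (nat_lit 100), (nat_lit 98), (nat_lit 13), (nat_lit 5095339)⟩], [],
 ⟨⟨[(nat_lit 40), (nat_lit 60), (nat_lit 80)], [(nat_lit 0), (nat_lit 398), (nat_lit 992)], [((nat_lit 0), (nat_lit 0), (nat_lit 0)), ((nat_lit 1000), (nat_lit 814), (nat_lit 310)), ((nat_lit 1000), (nat_lit 752), (nat_lit 464))], ((nat_lit 73), (nat_lit 100), (nat_lit 55))⟩, (nat_lit 11385), (nat_lit 132), (nat_lit 132), (nat_lit 0), (nat_lit 183893), [(nat_lit 1381579202), (nat_lit 1449413316), (nat_lit 1373047484)], [(nat_lit 0), (nat_lit 0), (nat_lit 0)], [(nat_lit 21118434012), (nat_lit 22285663092), (nat_lit 21515311492), (nat_lit 22628177012), (nat_lit 24901431620), (nat_lit 26204902320), (nat_lit 25020403045), (nat_lit 26264306040)], (nat_lit 1271251), (nat_lit 1271251), (nat_lit 490000), (nat_lit 780000), (nat_lit 1271251), (nat_lit 1271251), [(nat_lit 490000), (nat_lit 780000), (nat_lit 1100000)], [(nat_lit 2), (nat_lit 44), (nat_lit 238), (nat_lit 30), (nat_lit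 9)]⟩,
 ⟨⟨[(nat_lit 80), (nat_lit 120), (nat_lit 140)], [(nat_lit 0), (nat_lit 0), (nat_lit 1164)], [((nat_lit 0), (nat_lit 0), (nat_lit 0)), ((nat_lit 0), (nat_lit 0), (nat_lit 0)), ((nat_lit 941), (nat_lit 1000), (nat_lit 576))], ((nat_lit 100), (nat_lit 95), (nat_lit 55))⟩, (nat_lit 79073), (nat_lit 341), (nat_lit 341), (nat_lit 0), (nat_lit 276327), [(nat_lit 581312000), (nat_lit 988032000), (nat_lit 1220408000)], [], [(nat_lit 3241446380), (nat_lit 3918080220), (nat_lit 3509980388), (nat_lit 3549578303), (nat_lit 3978263520), (nat_lit 2295943596), (nat_lit 4982183672), (nat_lit 3321607399)], (nat_lit 1271251), (nat_lit 1271251), (nat_lit 490000), (nat_lit 780000), (nat_lit 0), (nat_lit 780000), [(nat_lit 1100000), (nat_lit 1785001), (nat_lit 1271251)], [(nat_lit 17), (nat_lit 58), (nat_lit 345), (nat_lit 125), (nat_lit 10)]⟩,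
 ⟨⟨[(nat_lit 120), (nat_lit 160), (nat_lit 180)], [(nat_lit 0), (nat_lit 264), (nat_lit 1835)], [((nat_lit 0), (nat_lit 0), (nat_lit 0)), ((nat_lit 980), (nat_lit 1000), (nat_lit 101)), ((nat_lit 612), (nat_lit 1000), (nat_lit 704))], ((nat_lit 100), (nat_lit 76), (nat_lit 55))⟩, (nat_lit 316727), (nat_lit 300), (nat_lit 1032), (nat_lit 4448801), (nat_lit 1484924), [(nat_lit 533856000), (nat_lit 795424000), (nat_lit 941886000)], [], [(nat_lit 3442095300), (nat_lit 3427993347), (nat_lit 3482099155), (nat_lit 3464538630), (nat_lit 2815487030), (nat_lit 2801548958), (nat_lit 2842739315), (nat_lit 2825553984)], (nat_lit 1184688), (nat_lit 1271251), (nat_lit 1271251), (nat_lit 1271251), (nat_lit 0), (nat_lit 780000), [(nat_lit 1695001), (nat_lit 1271251), (nat_lit 1271251)], [(nat_lit 28), (nat_lit 65), (nat_lit 401), (nat_lit 175), (nat_lit 9)]⟩⟩)) (.trZ (nat_lit 0) (nat_lit 1) (nat_lit 3) (nat_lit 100) (nat_lit 75) (nat_lit 92) (nat_lit 100) (.leaf ⟨(nat_lit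 0), (nat_lit 860), (nat_lit 0), (nat_lit 140), (nat_lit 0), (nat_lit 4690), (nat_lit 5578), (nat_lit 1833), (nat_lit 0), (nat_lit 0), (nat_lit 0), [], Pd.none, Pd.none, (nat_lit 0), (nat_lit 1), (nat_lit 0), (nat_lit 0), (nat_lit 6), (nat_lit 0), [⟨(nat_lit 0), (nat_lit 100), (nat_lit 75), (nat_lit 92), (nat_lit 1736749526)⟩], [⟨(nat_lit 1), (nat_lit 77), (nat_lit 72), (nat_lit 100), (nat_lit 453405307)⟩], [], [],
 ⟨⟨[(nat_lit 40), (nat_lit 60), (nat_lit 80)], [(nat_lit 0), (nat_lit 398), (nat_lit 992)], [((nat_lit 0), (nat_lit 0), (nat_lit 0)), ((nat_lit 1000), (nat_lit 814), (nat_lit 310)), ((nat_lit 1000), (nat_lit 752), (nat_lit 464))], ((nat_lit 73), (nat_lit 100), (nat_lit 55))⟩, (nat_lit 1537623), (nat_lit 134), (nat_lit 134), (nat_lit 0), (nat_lit 212397), [(nat_lit 2032000010), (nat_lit 3282000003), (nat_lit 4688000000)], [], [(nat_lit 22353374443), (nat_lit 23681696743), (nat_lit 22474995683), (nat_lit 23769371203), (nat_lit 26418975456),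 (nat_lit 27905569180), (nat_lit 26417570275), (nat_lit 27798599478)], (nat_lit 1271251), (nat_lit 1271251), (nat_lit 631250), (nat_lit 780000), (nat_lit 1271251), (nat_lit 1271251), [(nat_lit 490000), (nat_lit 780000), (nat_lit 1100000)], [(nat_lit 2), (nat_lit 44), (nat_lit 238), (nat_lit 30), (nat_lit 9)]⟩,
 ⟨⟨[(nat_lit 80), (nat_lit 120), (nat_lit 140)], [(nat_lit 0), (nat_lit 528), (nat_lit 1572)], [((nat_lit 0), (nat_lit 0), (nat_lit 0)), ((nat_lit 1000), (nat_lit 959), (nat_lit 206)), ((nat_lit 966), (nat_lit 1000), (nat_lit 679))], ((nat_lit 99), (nat_lit 100), (nat_lit 56))⟩, (nat_lit 3126910), (nat_lit 346), (nat_lit 346), (nat_lit 0), (nat_lit 291463), [(nat_lit 4688000000), (nat_lit 7968000000), (nat_lit 9842000000)], [], [(nat_lit 33672664002), (nat_lit 31673972662), (nat_lit 30767104719), (nat_lit 31686831548), (nat_lit 30685126872), (nat_lit 29297522301), (nat_lit 31969654828), (nat_lit 29357866493)], (nat_lit 1271251), (nat_lit 1271251),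 (nat_lit 631250), (nat_lit 780000), (nat_lit 0), (nat_lit 780000), [(nat_lit 1100000), (nat_lit 1785001), (nat_lit 1271251)], [(nat_lit 17), (nat_lit 58), (nat_lit 373), (nat_lit 150), (nat_lit 11)]⟩,
 ⟨⟨[(nat_lit 120), (nat_lit 160), (nat_lit 180)], [(nat_lit 0), (nat_lit 0), (nat_lit 1613)], [((nat_lit 0), (nat_lit 0), (nat_lit 0)), ((nat_lit 0), (nat_lit 0), (nat_lit 0)), ((nat_lit 620), (nat_lit 1000), (nat_lit 670))], ((nat_lit 100), (nat_lit 73), (nat_lit 55))⟩, (nat_lit 60930), (nat_lit 300), (nat_lit 1228), (nat_lit 10388000), (nat_lit 1911739), [(nat_lit 1115520000), (nat_lit 1662080000), (nat_lit 1968120000)], [], [(nat_lit 7605505348), (nat_lit 7538244081), (nat_lit 7684599502), (nat_lit 7601636541), (nat_lit 6177442808), (nat_lit 6111052681), (nat_lit 6227963147), (nat_lit 6147125435)], (nat_lit 1100000), (nat_lit 1271251), (nat_lit 1271251), (nat_lit 1271251), (nat_lit 0), (nat_lit 780000), [(nat_lit 1695001), (nat_lit 1271251), (nat_lit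 1271251)], [(nat_lit 28), (nat_lit 65), (nat_lit 401), (nat_lit 175), (nat_lit 9)]⟩⟩))) (.spl (nat_lit 1) (nat_lit 260) (.leaf ⟨(nat_lit 953), (nat_lit 0), (nat_lit 0), (nat_lit 47), (nat_lit 0), (nat_lit 3194), (nat_lit 926), (nat_lit 528), (nat_lit 0), (nat_lit 0), (nat_lit 593000), [((nat_lit 360), [((nat_lit 39), (nat_lit 2), (nat_lit 900)), ((nat_lit 21), (nat_lit 2), (nat_lit 53))])], ⟨(nat_lit 6), false, false, false, (nat_lit 159), (nat_lit 3162), (nat_lit 3873), [(nat_lit 1349867), (nat_lit 1361295), (nat_lit 1371632), (nat_lit 1383421), (nat_lit 1414421), (nat_lit 1422280), (nat_lit 1436185), (nat_lit 1444407)]⟩, ⟨(nat_lit 6), false, false, true, (nat_lit 240), (nat_lit 3162), (nat_lit 3873), [(nat_lit 1520934), (nat_lit 1516642), (nat_lit 1542727), (nat_lit 1538797), (nat_lit 1666107), (nat_lit 1653787), (nat_lit 1687900), (nat_lit 1675942)]⟩, (nat_lit 4829733), (nat_lit 42070604), (nat_lit 8534044), (nat_lit 16395352), (nat_lit 0), (nat_lit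 0), [⟨(nat_lit 0), (nat_lit 100), (nat_lit 68), (nat_lit 92), (nat_lit 260946494)⟩], [⟨(nat_lit 1), (nat_lit 85), (nat_lit 67), (nat_lit 100), (nat_lit 189327745)⟩], [], [],
 ⟨⟨[(nat_lit 40), (nat_lit 60), (nat_lit 80)], [(nat_lit 0), (nat_lit 398), (nat_lit 992)], [((nat_lit 0), (nat_lit 0), (nat_lit 0)), ((nat_lit 1000), (nat_lit 814), (nat_lit 310)), ((nat_lit 1000), (nat_lit 752), (nat_lit 464))], ((nat_lit 73), (nat_lit 100), (nat_lit 55))⟩, (nat_lit 1113), (nat_lit 134), (nat_lit 134), (nat_lit 0), (nat_lit 189403), [(nat_lit 1334313608), (nat_lit 1251429067), (nat_lit 982589533)], [(nat_lit 0), (nat_lit 0), (nat_lit 0)], [(nat_lit 21001436154), (nat_lit 22130281362), (nat_lit 21428549002), (nat_lit 22505693354), (nat_lit 24588940619), (nat_lit 25849159445), (nat_lit 24855058376), (nat_lit 25962357092)], (nat_lit 1271251), (nat_lit 1271251), (nat_lit 490000), (nat_lit 780000), (nat_lit 1271251), (nat_lit 1271251), [(nat_lit 490000), (nat_lit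 780000), (nat_lit 1100000)], [(nat_lit 2), (nat_lit 44), (nat_lit 238), (nat_lit 30), (nat_lit 9)]⟩,
 ⟨⟨[(nat_lit 80), (nat_lit 120), (nat_lit 140)], [(nat_lit 0), (nat_lit 0), (nat_lit 1164)], [((nat_lit 0), (nat_lit 0), (nat_lit 0)), ((nat_lit 0), (nat_lit 0), (nat_lit 0)), ((nat_lit 941), (nat_lit 1000), (nat_lit 576))], ((nat_lit 100), (nat_lit 95), (nat_lit 55))⟩, (nat_lit 0), (nat_lit 245), (nat_lit 245), (nat_lit 0), (nat_lit 284569), [(nat_lit 220336000), (nat_lit 374496000), (nat_lit 462574000)], [], [(nat_lit 1819949760), (nat_lit 1341175813), (nat_lit 862401866), (nat_lit 569123986), (nat_lit 2175201158), (nat_lit 1998452854), (nat_lit 2451240730), (nat_lit 2039141985)], (nat_lit 1271251), (nat_lit 1271251), (nat_lit 490000), (nat_lit 780000), (nat_lit 780000), (nat_lit 2826876), [(nat_lit 1100000), (nat_lit 1785001), (nat_lit 1271251)], [(nat_lit 17), (nat_lit 58), (nat_lit 428), (nat_lit 200), (nat_lit 12)]⟩,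
 ⟨⟨[(nat_lit 120), (nat_lit 160), (nat_lit 180)], [(nat_lit 0), (nat_lit 0), (nat_lit 1613)], [((nat_lit 0), (nat_lit 0), (nat_lit 0)), ((nat_lit 0), (nat_lit 0), (nat_lit 0)), ((nat_lit 620), (nat_lit 1000), (nat_lit 670))], ((nat_lit 100), (nat_lit 73), (nat_lit 55))⟩, (nat_lit 20455), (nat_lit 300), (nat_lit 1461), (nat_lit 3487401), (nat_lit 2568334), [(nat_lit 374496000), (nat_lit 557984000), (nat_lit 660726000)], [], [(nat_lit 2441936672), (nat_lit 2413539008), (nat_lit 2375851072), (nat_lit 2346102165), (nat_lit 2176844563), (nat_lit 2147538261), (nat_lit 2137725833), (nat_lit 2109742670)], (nat_lit 1100000), (nat_lit 1271251), (nat_lit 1271251), (nat_lit 1271251), (nat_lit 780000), (nat_lit 2826876), [(nat_lit 1695001), (nat_lit 1271251), (nat_lit 1271251)], [(nat_lit 28), (nat_lit 65), (nat_lit 476), (nat_lit 225), (nat_lit 11)]⟩⟩) (.trZ (nat_lit 0) (nat_lit 1) (nat_lit 3) (nat_lit 100) (nat_lit 75) (nat_lit 92) (nat_lit 100) (.leaf ⟨(nat_lit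 940), (nat_lit 14), (nat_lit 0), (nat_lit 46), (nat_lit 0), (nat_lit 3130), (nat_lit 717), (nat_lit 499), (nat_lit 0), (nat_lit 0), (nat_lit 592400), [((nat_lit 360), [((nat_lit 39), (nat_lit 2), (nat_lit 869)), ((nat_lit 21), (nat_lit 2), (nat_lit 71))])], ⟨(nat_lit 6), false, false, false, (nat_lit 174), (nat_lit 3162), (nat_lit 3873), [(nat_lit 1403908), (nat_lit 1413914), (nat_lit 1425673), (nat_lit 1436040), (nat_lit 1436185), (nat_lit 1444407), (nat_lit 1457950), (nat_lit 1466533)]⟩, ⟨(nat_lit 6), false, false, true, (nat_lit 240), (nat_lit 3162), (nat_lit 3873), [(nat_lit 1520934), (nat_lit 1516642), (nat_lit 1542727), (nat_lit 1538797), (nat_lit 1666107), (nat_lit 1653787), (nat_lit 1687900), (nat_lit 1675942)]⟩, (nat_lit 4963527), (nat_lit 41143696), (nat_lit 9693724), (nat_lit 16162580), (nat_lit 6), (nat_lit 0), [⟨(nat_lit 0), (nat_lit 100), (nat_lit 71), (nat_lit 100), (nat_lit 142625537)⟩, ⟨(nat_lit 0), (nat_lit 100), (nat_lit 75), (nat_lit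 92), (nat_lit 105888760)⟩], [⟨(nat_lit 1), (nat_lit 77), (nat_lit 72), (nat_lit 100), (nat_lit 181506296)⟩], [], [⟨(nat_lit 2), (nat_lit 87), (nat_lit 100), (nat_lit 99), (nat_lit 242869)⟩],
 ⟨⟨[(nat_lit 40), (nat_lit 60), (nat_lit 80)], [(nat_lit 0), (nat_lit 398), (nat_lit 992)], [((nat_lit 0), (nat_lit 0), (nat_lit 0)), ((nat_lit 1000), (nat_lit 814), (nat_lit 310)), ((nat_lit 1000), (nat_lit 752), (nat_lit 464))], ((nat_lit 73), (nat_lit 100), (nat_lit 55))⟩, (nat_lit 254283), (nat_lit 134), (nat_lit 134), (nat_lit 0), (nat_lit 212397), [(nat_lit 1341298405), (nat_lit 1286633736), (nat_lit 992864664)], [(nat_lit 0), (nat_lit 0), (nat_lit 0)], [(nat_lit 21050718235), (nat_lit 22144073335), (nat_lit 21268207715), (nat_lit 22336058755), (nat_lit 24598561092), (nat_lit 25820204860), (nat_lit 24689679768), (nat_lit 25883801268)], (nat_lit 1271251), (nat_lit 1271251), (nat_lit 631250), (nat_lit 780000), (nat_lit 1271251), (nat_lit 1271251), [(nat_lit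 490000), (nat_lit 780000), (nat_lit 1100000)], [(nat_lit 2), (nat_lit 44), (nat_lit 238), (nat_lit 30), (nat_lit 9)]⟩,
 ⟨⟨[(nat_lit 80), (nat_lit 120), (nat_lit 140)], [(nat_lit 0), (nat_lit 528), (nat_lit 1572)], [((nat_lit 0), (nat_lit 0), (nat_lit 0)), ((nat_lit 1000), (nat_lit 959), (nat_lit 206)), ((nat_lit 966), (nat_lit 1000), (nat_lit 679))], ((nat_lit 99), (nat_lit 100), (nat_lit 56))⟩, (nat_lit 415326), (nat_lit 241), (nat_lit 241), (nat_lit 0), (nat_lit 291463), [(nat_lit 281280000), (nat_lit 478080000), (nat_lit 590520000)], [], [(nat_lit 1363954496), (nat_lit 995929868), (nat_lit 995929868), (nat_lit 683210594), (nat_lit 2205053417), (nat_lit 2062292523), (nat_lit 2339395342), (nat_lit 2014022875)], (nat_lit 1271251), (nat_lit 1271251), (nat_lit 631250), (nat_lit 780000), (nat_lit 780000), (nat_lit 2826876), [(nat_lit 1100000), (nat_lit 1785001), (nat_lit 1271251)], [(nat_lit 17), (nat_lit 58), (nat_lit 428), (nat_lit 200), (nat_lit 12)]⟩,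
 ⟨⟨[(nat_lit 120), (nat_lit 160), (nat_lit 180)], [(nat_lit 0), (nat_lit 0), (nat_lit 1613)], [((nat_lit 0), (nat_lit 0), (nat_lit 0)), ((nat_lit 0), (nat_lit 0), (nat_lit 0)), ((nat_lit 620), (nat_lit 1000), (nat_lit 670))], ((nat_lit 100), (nat_lit 73), (nat_lit 55))⟩, (nat_lit 20020), (nat_lit 300), (nat_lit 1651), (nat_lit 3413200), (nat_lit 2963403), [(nat_lit 366528000), (nat_lit 546112000), (nat_lit 646668000)], [], [(nat_lit 2540419530), (nat_lit 2510094761), (nat_lit 2432899931), (nat_lit 2402418104), (nat_lit 2216990928), (nat_lit 2187580501), (nat_lit 2152786700), (nat_lit 2123932129)], (nat_lit 1100000), (nat_lit 1271251), (nat_lit 1271251), (nat_lit 1271251), (nat_lit 780000), (nat_lit 2826876), [(nat_lit 1695001), (nat_lit 1271251), (nat_lit 1271251)], [(nat_lit 28), (nat_lit 65), (nat_lit 523), (nat_lit 225), (nat_lit 12)]⟩⟩))))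
noncomputable def c8_27 : Tr Lf :=
 (.trX (nat_lit 5) (nat_lit 4) (nat_lit 3) (nat_lit 100) (nat_lit 68) (nat_lit 88) (nat_lit 350) (.spl (nat_lit 1) (nat_lit 260) (.spl (nat_lit 2) (nat_lit 160) (.trX (nat_lit 4) (nat_lit 0) (nat_lit 2) (nat_lit 73) (nat_lit 85) (nat_lit 100) (nat_lit 320) (.spl (nat_lit 6) (nat_lit 48) (.spl (nat_lit 5) (nat_lit 120) (.spl (nat_lit 2) (nat_lit 140) (.trX (nat_lit 4) (nat_lit 0) (nat_lit 2) (nat_lit 75) (nat_lit 92) (nat_lit 100) (nat_lit 300) (.leaf ⟨(nat_lit 975), (nat_lit 16), (nat_lit 0), (nat_lit 9), (nat_lit 8393), (nat_lit 3345), (nat_lit 618), (nat_lit 135), (nat_lit 0), (nat_lit 0), (nat_lit 589400), [((nat_lit 360), [((nat_lit 39), (nat_lit 2), (nat_lit 964)), ((nat_lit 22), (nat_lit 2), (nat_lit 11))])], ⟨(nat_lit 6), false, false, false, (nat_lit 153), (nat_lit 3162), (nat_lit 3873), [(nat_lit 1349867), (nat_lit 1361295), (nat_lit 1371632), (nat_lit 1383421), (nat_lit 1382144), (nat_lit 1391788), (nat_lit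 1403908), (nat_lit 1413914)]⟩, ⟨(nat_lit 6), false, false, true, (nat_lit 213), (nat_lit 3162), (nat_lit 3873), [(nat_lit 1477347), (nat_lit 1472332), (nat_lit 1499140), (nat_lit 1494487), (nat_lit 1574129), (nat_lit 1563762), (nat_lit 1595923), (nat_lit 1585917)]⟩, (nat_lit 4592957), (nat_lit 44701755), (nat_lit 8293450), (nat_lit 14004795), (nat_lit 6), (nat_lit 0), [⟨(nat_lit 0), (nat_lit 100), (nat_lit 73), (nat_lit 85), (nat_lit 630089029)⟩], [⟨(nat_lit 1), (nat_lit 92), (nat_lit 75), (nat_lit 100), (nat_lit 239436125)⟩], [], [],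
 ⟨⟨[(nat_lit 40), (nat_lit 80), (nat_lit 100)], [(nat_lit 0), (nat_lit 795), (nat_lit 1829)], [((nat_lit 0), (nat_lit 0), (nat_lit 0)), ((nat_lit 1000), (nat_lit 814), (nat_lit 310)), ((nat_lit 1000), (nat_lit 714), (nat_lit 692))], ((nat_lit 72), (nat_lit 100), (nat_lit 65))⟩, (nat_lit 0), (nat_lit 136), (nat_lit 136), (nat_lit 0), (nat_lit 143425), [(nat_lit 1322742439), (nat_lit 1060902425), (nat_lit 459607200)], [(nat_lit 0), (nat_lit 0), (nat_lit 0)], [(nat_lit 20586647904), (nat_lit 21803022030), (nat_lit 20774494026), (nat_lit 21952347693), (nat_lit 23107397822), (nat_lit 24495990773), (nat_lit 23212849426), (nat_lit 24569669720)], (nat_lit 1271251), (nat_lit 1271251), (nat_lit 490000), (nat_lit 631250), (nat_lit 1271251), (nat_lit 1271251), [(nat_lit 490000), (nat_lit 1100000), (nat_lit 1442501)], [(nat_lit 3), (nat_lit 50), (nat_lit 232), (nat_lit 25), (nat_lit 7)]⟩,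
 ⟨⟨[(nat_lit 80), (nat_lit 120), (nat_lit 160)], [(nat_lit 0), (nat_lit 0), (nat_lit 2132)], [((nat_lit 0), (nat_lit 0), (nat_lit 0)), ((nat_lit 0), (nat_lit 0), (nat_lit 0)), ((nat_lit 858), (nat_lit 1000), (nat_lit 713))], ((nat_lit 100), (nat_lit 89), (nat_lit 66))⟩, (nat_lit 178641), (nat_lit 363), (nat_lit 363), (nat_lit 0), (nat_lit 158020), [(nat_lit 117200000), (nat_lit 199200000), (nat_lit 296800000)], [], [(nat_lit 628961732), (nat_lit 727396435), (nat_lit 690763774), (nat_lit 689124370), (nat_lit 863297388), (nat_lit 577829592), (nat_lit 941124592), (nat_lit 657501604)], (nat_lit 1271251), (nat_lit 1271251), (nat_lit 490000), (nat_lit 631250), (nat_lit 0), (nat_lit 780000), [(nat_lit 1100000), (nat_lit 1785001), (nat_lit 1271251)], [(nat_lit 18), (nat_lit 59), (nat_lit 345), (nat_lit 125), (nat_lit 9)]⟩,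
 ⟨⟨[(nat_lit 140), (nat_lit 180), (nat_lit 200)], [(nat_lit 0), (nat_lit 0), (nat_lit 2835)], [((nat_lit 0), (nat_lit 0), (nat_lit 0)), ((nat_lit 0), (nat_lit 0), (nat_lit 0)), ((nat_lit 363), (nat_lit 1000), (nat_lit 798))], ((nat_lit 0), (nat_lit 0), (nat_lit 0))⟩, (nat_lit 2476), (nat_lit 300), (nat_lit 1121), (nat_lit 702903), (nat_lit 1475507), [(nat_lit 88578000), (nat_lit 126522000), (nat_lit 147600000)], [], [(nat_lit 588215196), (nat_lit 576481356), (nat_lit 595685064), (nat_lit 584508752), (nat_lit 473940324), (nat_lit 462873870), (nat_lit 471538200), (nat_lit 461250071)], (nat_lit 780000), (nat_lit 936250), (nat_lit 1271251), (nat_lit 1271251), (nat_lit 0), (nat_lit 780000), [(nat_lit 1977501), (nat_lit 1271251), (nat_lit 1271251)], [(nat_lit 32), (nat_lit 67), (nat_lit 373), (nat_lit 150), (nat_lit 8)]⟩⟩)) (.spl (nat_lit 0) (nat_lit 350) (.leaf ⟨(nat_lit 0), (nat_lit 919), (nat_lit 0), (nat_lit 81), (nat_lit 31224), (nat_lit 4603), (nat_lit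 7956), (nat_lit 1130), (nat_lit 0), (nat_lit 0), (nat_lit 0), [], Pd.none, Pd.none, (nat_lit 0), (nat_lit 1), (nat_lit 0), (nat_lit 0), (nat_lit 6), (nat_lit 0), [⟨(nat_lit 0), (nat_lit 100), (nat_lit 71), (nat_lit 90), (nat_lit 1178063961)⟩], [⟨(nat_lit 1), (nat_lit 90), (nat_lit 71), (nat_lit 100), (nat_lit 559748564)⟩], [], [],
 ⟨⟨[(nat_lit 40), (nat_lit 80), (nat_lit 100)], [(nat_lit 0), (nat_lit 795), (nat_lit 1829)], [((nat_lit 0), (nat_lit 0), (nat_lit 0)), ((nat_lit 1000), (nat_lit 814), (nat_lit 310)), ((nat_lit 1000), (nat_lit 714), (nat_lit 692))], ((nat_lit 72), (nat_lit 100), (nat_lit 65))⟩, (nat_lit 2145878), (nat_lit 115), (nat_lit 115), (nat_lit 0), (nat_lit 69504), [(nat_lit 2095393964), (nat_lit 4688000002), (nat_lit 6250000000)], [], [(nat_lit 21800862479), (nat_lit 22552080430), (nat_lit 21876325282), (nat_lit 22608837088), (nat_lit 25650768615), (nat_lit 26421785860), (nat_lit 25631155525), (nat_lit 26358678678)], (nat_lit 1271251),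 (nat_lit 1271251), (nat_lit 490000), (nat_lit 631250), (nat_lit 1271251), (nat_lit 1271251), [(nat_lit 490000), (nat_lit 1100000), (nat_lit 1442501)], [(nat_lit 3), (nat_lit 50), (nat_lit 232), (nat_lit 25), (nat_lit 7)]⟩,
 ⟨⟨[(nat_lit 80), (nat_lit 120), (nat_lit 160)], [(nat_lit 0), (nat_lit 0), (nat_lit 2132)], [((nat_lit 0), (nat_lit 0), (nat_lit 0)), ((nat_lit 0), (nat_lit 0), (nat_lit 0)), ((nat_lit 858), (nat_lit 1000), (nat_lit 713))], ((nat_lit 100), (nat_lit 89), (nat_lit 66))⟩, (nat_lit 5780385), (nat_lit 329), (nat_lit 329), (nat_lit 0), (nat_lit 71314), [(nat_lit 4688000000), (nat_lit 7968000000), (nat_lit 11872000000)], [], [(nat_lit 20111188028), (nat_lit 21834957004), (nat_lit 19975852612), (nat_lit 21805455138), (nat_lit 18050633000), (nat_lit 17750870644), (nat_lit 19116602430), (nat_lit 17844262635)], (nat_lit 1271251), (nat_lit 1271251), (nat_lit 490000), (nat_lit 631250), (nat_lit 0), (nat_lit 780000), [(nat_lit 1100000), (nat_lit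 1785001), (nat_lit 1271251)], [(nat_lit 18), (nat_lit 59), (nat_lit 345), (nat_lit 125), (nat_lit 9)]⟩,
 ⟨⟨[(nat_lit 140), (nat_lit 180), (nat_lit 200)], [(nat_lit 0), (nat_lit 608), (nat_lit 3317)], [((nat_lit 0), (nat_lit 0), (nat_lit 0)), ((nat_lit 913), (nat_lit 1000), (nat_lit 217)), ((nat_lit 385), (nat_lit 1000), (nat_lit 814))], ((nat_lit 0), (nat_lit 0), (nat_lit 0))⟩, (nat_lit 187046), (nat_lit 300), (nat_lit 669), (nat_lit 5694301), (nat_lit 490256), [(nat_lit 797202000), (nat_lit 1138698000), (nat_lit 1328400000)], [], [(nat_lit 4921229034), (nat_lit 4828339280), (nat_lit 5020669228), (nat_lit 4927051968), (nat_lit 3978367220), (nat_lit 3887361614), (nat_lit 3993859934), (nat_lit 3907691054)], (nat_lit 936250), (nat_lit 1100000), (nat_lit 1271251), (nat_lit 1271251), (nat_lit 0), (nat_lit 780000), [(nat_lit 1977501), (nat_lit 1271251), (nat_lit 1271251)], [(nat_lit 32), (nat_lit 67), (nat_lit 373), (nat_lit 150), (nat_lit 8)]⟩⟩) (.emL (nat_lit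 0) (nat_lit 1) (nat_lit 3) (nat_lit 100) (nat_lit 68) (nat_lit 89)))) (.leaf ⟨(nat_lit 927), (nat_lit 28), (nat_lit 0), (nat_lit 45), (nat_lit 7539), (nat_lit 3487), (nat_lit 1611), (nat_lit 552), (nat_lit 0), (nat_lit 0), (nat_lit 544600), [((nat_lit 360), [((nat_lit 22), (nat_lit 1), (nat_lit 58)), ((nat_lit 39), (nat_lit 2), (nat_lit 869))])], ⟨(nat_lit 6), false, false, false, (nat_lit 153), (nat_lit 3162), (nat_lit 3873), [(nat_lit 1349867), (nat_lit 1361295), (nat_lit 1371632), (nat_lit 1383421), (nat_lit 1382144), (nat_lit 1391788), (nat_lit 1403908), (nat_lit 1413914)]⟩, ⟨(nat_lit 6), false, false, true, (nat_lit 224), (nat_lit 3162), (nat_lit 3873), [(nat_lit 1477347), (nat_lit 1472332), (nat_lit 1520934), (nat_lit 1516642), (nat_lit 1606390), (nat_lit 1594239), (nat_lit 1649977), (nat_lit 1638549)]⟩, (nat_lit 4668670), (nat_lit 43810888), (nat_lit 8205079), (nat_lit 14984033), (nat_lit 6), (nat_lit 0), [⟨(nat_lit 0), (nat_lit 100), (nat_lit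 68), (nat_lit 92), (nat_lit 799926874)⟩], [⟨(nat_lit 1), (nat_lit 96), (nat_lit 69), (nat_lit 100), (nat_lit 243064600)⟩], [], [],
 ⟨⟨[(nat_lit 40), (nat_lit 80), (nat_lit 100)], [(nat_lit 0), (nat_lit 795), (nat_lit 1829)], [((nat_lit 0), (nat_lit 0), (nat_lit 0)), ((nat_lit 1000), (nat_lit 814), (nat_lit 310)), ((nat_lit 1000), (nat_lit 714), (nat_lit 692))], ((nat_lit 72), (nat_lit 100), (nat_lit 65))⟩, (nat_lit 0), (nat_lit 141), (nat_lit 141), (nat_lit 0), (nat_lit 144565), [(nat_lit 1353082417), (nat_lit 1407185098), (nat_lit 834467600)], [(nat_lit 0), (nat_lit 0), (nat_lit 0)], [(nat_lit 20833492489), (nat_lit 22136647618), (nat_lit 20993193762), (nat_lit 22265684495), (nat_lit 24322681428), (nat_lit 25669242452), (nat_lit 24394433485), (nat_lit 25706852220)], (nat_lit 1271251), (nat_lit 1271251), (nat_lit 490000), (nat_lit 631250), (nat_lit 1271251), (nat_lit 1271251), [(nat_lit 490000), (nat_lit 1100000), (nat_lit 1442501)], [(nat_lit 3),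 (nat_lit 50), (nat_lit 232), (nat_lit 25), (nat_lit 7)]⟩,
 ⟨⟨[(nat_lit 80), (nat_lit 120), (nat_lit 160)], [(nat_lit 0), (nat_lit 0), (nat_lit 2132)], [((nat_lit 0), (nat_lit 0), (nat_lit 0)), ((nat_lit 0), (nat_lit 0), (nat_lit 0)), ((nat_lit 858), (nat_lit 1000), (nat_lit 713))], ((nat_lit 100), (nat_lit 89), (nat_lit 66))⟩, (nat_lit 0), (nat_lit 247), (nat_lit 247), (nat_lit 0), (nat_lit 236590), [(nat_lit 342224000), (nat_lit 581664000), (nat_lit 866656000)], [], [(nat_lit 2908677100), (nat_lit 2075734521), (nat_lit 2075734521), (nat_lit 1561094370), (nat_lit 3079077469), (nat_lit 2884979656), (nat_lit 3283911464), (nat_lit 2769695539)], (nat_lit 1271251), (nat_lit 1271251), (nat_lit 490000), (nat_lit 631250), (nat_lit 780000), (nat_lit 2663126), [(nat_lit 1100000), (nat_lit 1785001), (nat_lit 1271251)], [(nat_lit 18), (nat_lit 59), (nat_lit 428), (nat_lit 200), (nat_lit 11)]⟩,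
 ⟨⟨[(nat_lit 140), (nat_lit 180), (nat_lit 200)], [(nat_lit 0), (nat_lit 0), (nat_lit 2835)], [((nat_lit 0), (nat_lit 0), (nat_lit 0)), ((nat_lit 0), (nat_lit 0), (nat_lit 0)), ((nat_lit 363), (nat_lit 1000), (nat_lit 798))], ((nat_lit 0), (nat_lit 0), (nat_lit 0))⟩, (nat_lit 12381), (nat_lit 300), (nat_lit 1379), (nat_lit 3514500), (nat_lit 2235073), [(nat_lit 442890000), (nat_lit 632610000), (nat_lit 738000000)], [], [(nat_lit 2679289794), (nat_lit 2589001590), (nat_lit 2608102080), (nat_lit 2518065564), (nat_lit 2391879453), (nat_lit 2300212269), (nat_lit 2331036833), (nat_lit 2236929177)], (nat_lit 780000), (nat_lit 1100000), (nat_lit 1271251), (nat_lit 1271251), (nat_lit 780000), (nat_lit 2663126), [(nat_lit 1977501), (nat_lit 1271251), (nat_lit 1271251)], [(nat_lit 32), (nat_lit 67), (nat_lit 456), (nat_lit 225), (nat_lit 9)]⟩⟩)) (.leaf ⟨(nat_lit 1000), (nat_lit 0), (nat_lit 0), (nat_lit 0), (nat_lit 300000), (nat_lit 3364), (nat_lit 0), (nat_lit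 0), (nat_lit 0), (nat_lit 0), (nat_lit 662400), [((nat_lit 360), [((nat_lit 39), (nat_lit 2), (nat_lit 844)), ((nat_lit 22), (nat_lit 2), (nat_lit 156))])], ⟨(nat_lit 6), false, false, false, (nat_lit 153), (nat_lit 3162), (nat_lit 3873), [(nat_lit 1349867), (nat_lit 1361295), (nat_lit 1371632), (nat_lit 1383421), (nat_lit 1382144), (nat_lit 1391788), (nat_lit 1403908), (nat_lit 1413914)]⟩, ⟨(nat_lit 6), false, false, true, (nat_lit 224), (nat_lit 3162), (nat_lit 3873), [(nat_lit 1477347), (nat_lit 1472332), (nat_lit 1520934), (nat_lit 1516642), (nat_lit 1606390), (nat_lit 1594239), (nat_lit 1649977), (nat_lit 1638549)]⟩, (nat_lit 4668670), (nat_lit 43810888), (nat_lit 8205079), (nat_lit 14984033), (nat_lit 0), (nat_lit 0), [⟨(nat_lit 0), (nat_lit 100), (nat_lit 68), (nat_lit 92), (nat_lit 17320223270)⟩], [⟨(nat_lit 1), (nat_lit 96), (nat_lit 69), (nat_lit 100), (nat_lit 323909389)⟩], [], [],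
 ⟨⟨[(nat_lit 40), (nat_lit 80), (nat_lit 120)], [(nat_lit 0), (nat_lit 795), (nat_lit 2800)], [((nat_lit 0), (nat_lit 0), (nat_lit 0)), ((nat_lit 1000), (nat_lit 814), (nat_lit 310)), ((nat_lit 1000), (nat_lit 719), (nat_lit 783))], ((nat_lit 71), (nat_lit 100), (nat_lit 71))⟩, (nat_lit 0), (nat_lit 140), (nat_lit 140), (nat_lit 0), (nat_lit 73157), [(nat_lit 1305430463), (nat_lit 1046322201), (nat_lit 0)], [(nat_lit 0), (nat_lit 0), (nat_lit 908297600)], [(nat_lit 20405927000), (nat_lit 21598842448), (nat_lit 20547160451), (nat_lit 21712531040), (nat_lit 24176798016), (nat_lit 25500831344), (nat_lit 24257260839), (nat_lit 25551583354)], (nat_lit 1271251), (nat_lit 1271251), (nat_lit 490000), (nat_lit 631250), (nat_lit 1271251), (nat_lit 1271251), [(nat_lit 490000), (nat_lit 1100000), (nat_lit 1785001)], [(nat_lit 4), (nat_lit 51), (nat_lit 232), (nat_lit 25), (nat_lit 6)]⟩,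
 Rw.none,
 Rw.none⟩))) (.spl (nat_lit 6) (nat_lit 52) (.spl (nat_lit 0) (nat_lit 350) (.spl (nat_lit 6) (nat_lit 44) (.leaf ⟨(nat_lit 922), (nat_lit 0), (nat_lit 0), (nat_lit 78), (nat_lit 30914), (nat_lit 3213), (nat_lit 505), (nat_lit 908), (nat_lit 0), (nat_lit 0), (nat_lit 566400), [((nat_lit 350), [((nat_lit 39), (nat_lit 2), (nat_lit 889)), ((nat_lit 22), (nat_lit 2), (nat_lit 33))])], ⟨(nat_lit 6), false, false, false, (nat_lit 152), (nat_lit 3535), (nat_lit 3873), [(nat_lit 1349991), (nat_lit 1355590), (nat_lit 1371778), (nat_lit 1377537), (nat_lit 1382255), (nat_lit 1386974), (nat_lit 1404042), (nat_lit 1408921)]⟩, ⟨(nat_lit 6), false, false, true, (nat_lit 241), (nat_lit 3535), (nat_lit 3873), [(nat_lit 1520934), (nat_lit 1518855), (nat_lit 1542727), (nat_lit 1540807), (nat_lit 1666107), (nat_lit 1660068), (nat_lit 1687900), (nat_lit 1682021)]⟩, (nat_lit 4764713), (nat_lit 42446597), (nat_lit 7973711), (nat_lit 16579692), (nat_lit 0), (nat_lit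 0), [⟨(nat_lit 0), (nat_lit 100), (nat_lit 71), (nat_lit 90), (nat_lit 1469594999)⟩], [⟨(nat_lit 1), (nat_lit 83), (nat_lit 70), (nat_lit 100), (nat_lit 161172923)⟩], [], [],
 ⟨⟨[(nat_lit 40), (nat_lit 80), (nat_lit 100)], [(nat_lit 0), (nat_lit 795), (nat_lit 1829)], [((nat_lit 0), (nat_lit 0), (nat_lit 0)), ((nat_lit 1000), (nat_lit 814), (nat_lit 310)), ((nat_lit 1000), (nat_lit 714), (nat_lit 692))], ((nat_lit 72), (nat_lit 100), (nat_lit 63))⟩, (nat_lit 17826), (nat_lit 113), (nat_lit 113), (nat_lit 0), (nat_lit 48271), [(nat_lit 1352348046), (nat_lit 1282833665), (nat_lit 722961200)], [(nat_lit 0), (nat_lit 0), (nat_lit 0)], [(nat_lit 21007788073), (nat_lit 21599662128), (nat_lit 21201002900), (nat_lit 21779278390), (nat_lit 24721651513), (nat_lit 25244855812), (nat_lit 24832669637), (nat_lit 25313347286)], (nat_lit 1271251), (nat_lit 1271251), (nat_lit 490000), (nat_lit 631250), (nat_lit 1271251), (nat_lit 1271251), [(nat_lit 490000), (nat_lit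 1100000), (nat_lit 1442501)], [(nat_lit 3), (nat_lit 50), (nat_lit 232), (nat_lit 25), (nat_lit 7)]⟩,
 ⟨⟨[(nat_lit 80), (nat_lit 120), (nat_lit 160)], [(nat_lit 0), (nat_lit 0), (nat_lit 2132)], [((nat_lit 0), (nat_lit 0), (nat_lit 0)), ((nat_lit 0), (nat_lit 0), (nat_lit 0)), ((nat_lit 858), (nat_lit 1000), (nat_lit 713))], ((nat_lit 100), (nat_lit 91), (nat_lit 64))⟩, (nat_lit 0), (nat_lit 332), (nat_lit 332), (nat_lit 0), (nat_lit 78200), [(nat_lit 365664000), (nat_lit 621504000), (nat_lit 926016000)], [], [(nat_lit 3316738600), (nat_lit 3128008698), (nat_lit 3051735810), (nat_lit 3121370857), (nat_lit 3805202249), (nat_lit 3582980660), (nat_lit 3912375660), (nat_lit 3691518361)], (nat_lit 1271251), (nat_lit 1271251), (nat_lit 490000), (nat_lit 631250), (nat_lit 0), (nat_lit 2471876), [(nat_lit 1100000), (nat_lit 1785001), (nat_lit 1271251)], [(nat_lit 18), (nat_lit 59), (nat_lit 428), (nat_lit 200), (nat_lit 11)]⟩,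
 ⟨⟨[(nat_lit 120), (nat_lit 160), (nat_lit 180)], [(nat_lit 0), (nat_lit 0), (nat_lit 1613)], [((nat_lit 0), (nat_lit 0), (nat_lit 0)), ((nat_lit 0), (nat_lit 0), (nat_lit 0)), ((nat_lit 620), (nat_lit 1000), (nat_lit 670))], ((nat_lit 100), (nat_lit 65), (nat_lit 64))⟩, (nat_lit 33947), (nat_lit 300), (nat_lit 514), (nat_lit 5787600), (nat_lit 385414), [(nat_lit 621504000), (nat_lit 926016000), (nat_lit 1096524000)], [], [(nat_lit 4190827253), (nat_lit 4166415785), (nat_lit 4281857954), (nat_lit 4261623146), (nat_lit 3784923758), (nat_lit 4060778885), (nat_lit 3417758485), (nat_lit 3380467423)], (nat_lit 1100000), (nat_lit 1271251), (nat_lit 1271251), (nat_lit 1271251), (nat_lit 0), (nat_lit 2471876), [(nat_lit 1695001), (nat_lit 1271251), (nat_lit 1271251)], [(nat_lit 28), (nat_lit 65), (nat_lit 456), (nat_lit 225), (nat_lit 11)]⟩⟩) (.dle (nat_lit 0))) (.emL (nat_lit 0) (nat_lit 1) (nat_lit 3) (nat_lit 100) (nat_lit 68) (nat_lit 89))) (.dle (nat_lit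 0)))) (.emL (nat_lit 0) (nat_lit 1) (nat_lit 3) (nat_lit 100) (nat_lit 75) (nat_lit 92))))
noncomputable def c8_28 : Tr Lf :=
 (.trX (nat_lit 4) (nat_lit 0) (nat_lit 2) (nat_lit 73) (nat_lit 85) (nat_lit 100) (nat_lit 320) (.spl (nat_lit 5) (nat_lit 200) (.spl (nat_lit 1) (nat_lit 260) (.spl (nat_lit 5) (nat_lit 120) (.spl (nat_lit 5) (nat_lit 80) (.spl (nat_lit 2) (nat_lit 140) (.trX (nat_lit 4) (nat_lit 0) (nat_lit 2) (nat_lit 75) (nat_lit 92) (nat_lit 100) (nat_lit 300) (.leaf ⟨(nat_lit 853), (nat_lit 123), (nat_lit 0), (nat_lit 24), (nat_lit 6028), (nat_lit 3425), (nat_lit 1755), (nat_lit 377), (nat_lit 0), (nat_lit 0), (nat_lit 494000), [((nat_lit 360), [((nat_lit 22), (nat_lit 1), (nat_lit 89)), ((nat_lit 39), (nat_lit 2), (nat_lit 764))])], ⟨(nat_lit 6), false, false, false, (nat_lit 165), (nat_lit 3162), (nat_lit 3873), [(nat_lit 1382144), (nat_lit 1391788), (nat_lit 1403908), (nat_lit 1413914), (nat_lit 1414421), (nat_lit 1422280), (nat_lit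 1436185), (nat_lit 1444407)]⟩, ⟨(nat_lit 6), false, false, true, (nat_lit 213), (nat_lit 3162), (nat_lit 3873), [(nat_lit 1477347), (nat_lit 1472332), (nat_lit 1499140), (nat_lit 1494487), (nat_lit 1574129), (nat_lit 1563762), (nat_lit 1595923), (nat_lit 1585917)]⟩, (nat_lit 4715512), (nat_lit 43856978), (nat_lit 9284088), (nat_lit 13858934), (nat_lit 6), (nat_lit 0), [⟨(nat_lit 0), (nat_lit 100), (nat_lit 68), (nat_lit 92), (nat_lit 200039766)⟩], [⟨(nat_lit 1), (nat_lit 100), (nat_lit 71), (nat_lit 100), (nat_lit 274506749)⟩], [], [],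
 ⟨⟨[(nat_lit 40), (nat_lit 80), (nat_lit 100)], [(nat_lit 0), (nat_lit 795), (nat_lit 1829)], [((nat_lit 0), (nat_lit 0), (nat_lit 0)), ((nat_lit 1000), (nat_lit 814), (nat_lit 310)), ((nat_lit 1000), (nat_lit 714), (nat_lit 692))], ((nat_lit 72), (nat_lit 100), (nat_lit 65))⟩, (nat_lit 266371), (nat_lit 130), (nat_lit 130), (nat_lit 0), (nat_lit 143425), [(nat_lit 1396592807), (nat_lit 1565333995), (nat_lit 1307322400)], [(nat_lit 0), (nat_lit 0), (nat_lit 0)], [(nat_lit 21102135405), (nat_lit 22292506586), (nat_lit 21280694936), (nat_lit 22442668273), (nat_lit 23548808248), (nat_lit 24662759800), (nat_lit 23654671229), (nat_lit 24742438266)], (nat_lit 1271251), (nat_lit 1271251), (nat_lit 631250), (nat_lit 780000), (nat_lit 1271251), (nat_lit 1271251), [(nat_lit 490000), (nat_lit 1100000), (nat_lit 1442501)], [(nat_lit 3), (nat_lit 50), (nat_lit 238), (nat_lit 30), (nat_lit 8)]⟩,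
 ⟨⟨[(nat_lit 80), (nat_lit 120), (nat_lit 160)], [(nat_lit 0), (nat_lit 0), (nat_lit 2132)], [((nat_lit 0), (nat_lit 0), (nat_lit 0)), ((nat_lit 0), (nat_lit 0), (nat_lit 0)), ((nat_lit 858), (nat_lit 1000), (nat_lit 713))], ((nat_lit 100), (nat_lit 89), (nat_lit 66))⟩, (nat_lit 30363), (nat_lit 354), (nat_lit 354), (nat_lit 0), (nat_lit 158020), [(nat_lit 689136000), (nat_lit 1171296000), (nat_lit 1745184000)], [], [(nat_lit 5381401359), (nat_lit 5238112192), (nat_lit 5668895994), (nat_lit 5163882032), (nat_lit 5755300494), (nat_lit 4939246554), (nat_lit 6065555724), (nat_lit 5254882614)], (nat_lit 1271251), (nat_lit 1271251), (nat_lit 631250), (nat_lit 780000), (nat_lit 0), (nat_lit 490000), [(nat_lit 1100000), (nat_lit 1785001), (nat_lit 1271251)], [(nat_lit 18), (nat_lit 59), (nat_lit 345), (nat_lit 125), (nat_lit 9)]⟩,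
 ⟨⟨[(nat_lit 140), (nat_lit 180), (nat_lit 200)], [(nat_lit 0), (nat_lit 0), (nat_lit 2835)], [((nat_lit 0), (nat_lit 0), (nat_lit 0)), ((nat_lit 0), (nat_lit 0), (nat_lit 0)), ((nat_lit 363), (nat_lit 1000), (nat_lit 798))], ((nat_lit 0), (nat_lit 0), (nat_lit 0))⟩, (nat_lit 6603), (nat_lit 300), (nat_lit 1121), (nat_lit 1874403), (nat_lit 1475507), [(nat_lit 236208000), (nat_lit 337392000), (nat_lit 393600000)], [], [(nat_lit 1568396464), (nat_lit 1538751628), (nat_lit 1593051856), (nat_lit 1561456956), (nat_lit 1298304372), (nat_lit 1266861488), (nat_lit 1313976294), (nat_lit 1284655893)], (nat_lit 780000), (nat_lit 936250), (nat_lit 1271251), (nat_lit 1271251), (nat_lit 0), (nat_lit 490000), [(nat_lit 1977501), (nat_lit 1271251), (nat_lit 1271251)], [(nat_lit 32), (nat_lit 67), (nat_lit 373), (nat_lit 150), (nat_lit 8)]⟩⟩)) (.leaf ⟨(nat_lit 0), (nat_lit 918), (nat_lit 0), (nat_lit 82), (nat_lit 24797), (nat_lit 4491), (nat_lit 7984), (nat_lit 1136),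 (nat_lit 0), (nat_lit 0), (nat_lit 0), [], Pd.none, Pd.none, (nat_lit 0), (nat_lit 1), (nat_lit 0), (nat_lit 0), (nat_lit 6), (nat_lit 0), [⟨(nat_lit 0), (nat_lit 100), (nat_lit 68), (nat_lit 92), (nat_lit 914351843)⟩], [⟨(nat_lit 1), (nat_lit 92), (nat_lit 68), (nat_lit 100), (nat_lit 566187386)⟩], [], [],
 ⟨⟨[(nat_lit 40), (nat_lit 80), (nat_lit 100)], [(nat_lit 0), (nat_lit 795), (nat_lit 1829)], [((nat_lit 0), (nat_lit 0), (nat_lit 0)), ((nat_lit 1000), (nat_lit 814), (nat_lit 310)), ((nat_lit 1000), (nat_lit 714), (nat_lit 692))], ((nat_lit 72), (nat_lit 100), (nat_lit 65))⟩, (nat_lit 2152146), (nat_lit 126), (nat_lit 126), (nat_lit 0), (nat_lit 115401), [(nat_lit 2054308593), (nat_lit 4688000015), (nat_lit 6250000000)], [], [(nat_lit 21925837886), (nat_lit 23371539201), (nat_lit 22059793459), (nat_lit 23418720962), (nat_lit 25645173925), (nat_lit 26974250114), (nat_lit 25653295842), (nat_lit 26905108735)], (nat_lit 1271251), (nat_lit 1271251),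 (nat_lit 631250), (nat_lit 780000), (nat_lit 1271251), (nat_lit 1271251), [(nat_lit 490000), (nat_lit 1100000), (nat_lit 1442501)], [(nat_lit 3), (nat_lit 50), (nat_lit 238), (nat_lit 30), (nat_lit 8)]⟩,
 ⟨⟨[(nat_lit 80), (nat_lit 120), (nat_lit 160)], [(nat_lit 0), (nat_lit 0), (nat_lit 2132)], [((nat_lit 0), (nat_lit 0), (nat_lit 0)), ((nat_lit 0), (nat_lit 0), (nat_lit 0)), ((nat_lit 858), (nat_lit 1000), (nat_lit 713))], ((nat_lit 100), (nat_lit 89), (nat_lit 66))⟩, (nat_lit 5602458), (nat_lit 340), (nat_lit 340), (nat_lit 0), (nat_lit 121417), [(nat_lit 4688000000), (nat_lit 7968000000), (nat_lit 11872000000)], [], [(nat_lit 20366369792), (nat_lit 22046015916), (nat_lit 20228919368), (nat_lit 21860745352), (nat_lit 16720847024), (nat_lit 17578210930), (nat_lit 17999988000), (nat_lit 17697718916)], (nat_lit 1271251), (nat_lit 1271251), (nat_lit 631250), (nat_lit 780000), (nat_lit 0), (nat_lit 490000), [(nat_lit 1100000), (nat_lit 1785001), (nat_lit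 1271251)], [(nat_lit 18), (nat_lit 59), (nat_lit 345), (nat_lit 125), (nat_lit 9)]⟩,
 ⟨⟨[(nat_lit 140), (nat_lit 180), (nat_lit 200)], [(nat_lit 0), (nat_lit 608), (nat_lit 3317)], [((nat_lit 0), (nat_lit 0), (nat_lit 0)), ((nat_lit 913), (nat_lit 1000), (nat_lit 217)), ((nat_lit 385), (nat_lit 1000), (nat_lit 814))], ((nat_lit 0), (nat_lit 0), (nat_lit 0))⟩, (nat_lit 189355), (nat_lit 300), (nat_lit 840), (nat_lit 5764601), (nat_lit 857764), [(nat_lit 807044000), (nat_lit 1152756000), (nat_lit 1344800000)], [], [(nat_lit 4992460340), (nat_lit 4895567344), (nat_lit 5081420464), (nat_lit 4987496768), (nat_lit 4253556684), (nat_lit 4161620472), (nat_lit 4255795380), (nat_lit 4168678104)], (nat_lit 936250), (nat_lit 1100000), (nat_lit 1271251), (nat_lit 1271251), (nat_lit 0), (nat_lit 490000), [(nat_lit 1977501), (nat_lit 1271251), (nat_lit 1271251)], [(nat_lit 32), (nat_lit 67), (nat_lit 373), (nat_lit 150), (nat_lit 8)]⟩⟩)) (.leaf ⟨(nat_lit 0), (nat_lit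 782), (nat_lit 0), (nat_lit 218), (nat_lit 0), (nat_lit 4648), (nat_lit 29665), (nat_lit 3138), (nat_lit 0), (nat_lit 0), (nat_lit 0), [], Pd.none, Pd.none, (nat_lit 0), (nat_lit 1), (nat_lit 0), (nat_lit 0), (nat_lit 6), (nat_lit 0), [⟨(nat_lit 0), (nat_lit 100), (nat_lit 68), (nat_lit 92), (nat_lit 1405797410)⟩], [⟨(nat_lit 1), (nat_lit 96), (nat_lit 69), (nat_lit 100), (nat_lit 379036787)⟩], [], [],
 ⟨⟨[(nat_lit 40), (nat_lit 80), (nat_lit 100)], [(nat_lit 0), (nat_lit 795), (nat_lit 1829)], [((nat_lit 0), (nat_lit 0), (nat_lit 0)), ((nat_lit 1000), (nat_lit 814), (nat_lit 310)), ((nat_lit 1000), (nat_lit 714), (nat_lit 692))], ((nat_lit 72), (nat_lit 100), (nat_lit 65))⟩, (nat_lit 2125930), (nat_lit 135), (nat_lit 135), (nat_lit 0), (nat_lit 144565), [(nat_lit 2084743880), (nat_lit 4688006942), (nat_lit 6250000000)], [], [(nat_lit 21888310576), (nat_lit 23361097610), (nat_lit 21960376666), (nat_lit 23395479318), (nat_lit 25657388768), (nat_lit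 27172438828), (nat_lit 25633727508), (nat_lit 27085998648)], (nat_lit 1271251), (nat_lit 1271251), (nat_lit 631250), (nat_lit 780000), (nat_lit 1271251), (nat_lit 1271251), [(nat_lit 490000), (nat_lit 1100000), (nat_lit 1442501)], [(nat_lit 3), (nat_lit 50), (nat_lit 238), (nat_lit 30), (nat_lit 8)]⟩,
 ⟨⟨[(nat_lit 80), (nat_lit 120), (nat_lit 160)], [(nat_lit 0), (nat_lit 0), (nat_lit 2132)], [((nat_lit 0), (nat_lit 0), (nat_lit 0)), ((nat_lit 0), (nat_lit 0), (nat_lit 0)), ((nat_lit 858), (nat_lit 1000), (nat_lit 713))], ((nat_lit 100), (nat_lit 89), (nat_lit 66))⟩, (nat_lit 7185273), (nat_lit 197), (nat_lit 197), (nat_lit 0), (nat_lit 158020), [(nat_lit 4688000000), (nat_lit 7968000000), (nat_lit 11872000000)], [], [(nat_lit 1467349579), (nat_lit 5672392593), (nat_lit 2654374), (nat_lit 4057463927), (nat_lit 0), (nat_lit 2429326648), (nat_lit 0), (nat_lit 801189369)], (nat_lit 1271251), (nat_lit 1271251), (nat_lit 631250), (nat_lit 780000), (nat_lit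 490000), (nat_lit 780000), [(nat_lit 1100000), (nat_lit 1785001), (nat_lit 1271251)], [(nat_lit 18), (nat_lit 59), (nat_lit 345), (nat_lit 125), (nat_lit 9)]⟩,
 ⟨⟨[(nat_lit 140), (nat_lit 180), (nat_lit 200)], [(nat_lit 0), (nat_lit 0), (nat_lit 2835)], [((nat_lit 0), (nat_lit 0), (nat_lit 0)), ((nat_lit 0), (nat_lit 0), (nat_lit 0)), ((nat_lit 363), (nat_lit 1000), (nat_lit 798))], ((nat_lit 0), (nat_lit 0), (nat_lit 0))⟩, (nat_lit 59979), (nat_lit 300), (nat_lit 1060), (nat_lit 17025800), (nat_lit 1475507), [(nat_lit 2145556000), (nat_lit 3064644000), (nat_lit 3575200000)], [], [(nat_lit 12345443712), (nat_lit 11832589288), (nat_lit 12162315872), (nat_lit 11675407136), (nat_lit 11764041040), (nat_lit 11254620056), (nat_lit 11586776512), (nat_lit 11103677644)], (nat_lit 780000), (nat_lit 1100000), (nat_lit 1271251), (nat_lit 1271251), (nat_lit 490000), (nat_lit 780000), [(nat_lit 1977501), (nat_lit 1271251), (nat_lit 1271251)], [(nat_lit 32), (nat_lit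 67), (nat_lit 373), (nat_lit 150), (nat_lit 8)]⟩⟩)) (.leaf ⟨(nat_lit 0), (nat_lit 909), (nat_lit 0), (nat_lit 91), (nat_lit 11589), (nat_lit 4586), (nat_lit 9182), (nat_lit 1171), (nat_lit 0), (nat_lit 0), (nat_lit 0), [], Pd.none, Pd.none, (nat_lit 0), (nat_lit 1), (nat_lit 0), (nat_lit 0), (nat_lit 6), (nat_lit 0), [⟨(nat_lit 0), (nat_lit 100), (nat_lit 68), (nat_lit 92), (nat_lit 919118552)⟩], [⟨(nat_lit 1), (nat_lit 96), (nat_lit 69), (nat_lit 100), (nat_lit 568229853)⟩], [], [],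
 ⟨⟨[(nat_lit 40), (nat_lit 80), (nat_lit 100)], [(nat_lit 0), (nat_lit 795), (nat_lit 1829)], [((nat_lit 0), (nat_lit 0), (nat_lit 0)), ((nat_lit 1000), (nat_lit 814), (nat_lit 310)), ((nat_lit 1000), (nat_lit 714), (nat_lit 692))], ((nat_lit 72), (nat_lit 100), (nat_lit 65))⟩, (nat_lit 2146851), (nat_lit 135), (nat_lit 135), (nat_lit 0), (nat_lit 144565), [(nat_lit 2063757185), (nat_lit 4688000004), (nat_lit 6250000000)], [], [(nat_lit 21883801068), (nat_lit 23345891831), (nat_lit 21960547073), (nat_lit 23385328337), (nat_lit 25633262455), (nat_lit 27094173221), (nat_lit 25633049221), (nat_lit 27014357586)], (nat_lit 1271251), (nat_lit 1271251), (nat_lit 631250), (nat_lit 780000), (nat_lit 1271251), (nat_lit 1271251), [(nat_lit 490000), (nat_lit 1100000), (nat_lit 1442501)], [(nat_lit 3), (nat_lit 50), (nat_lit 238), (nat_lit 30), (nat_lit 8)]⟩,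
 ⟨⟨[(nat_lit 80), (nat_lit 120), (nat_lit 160)], [(nat_lit 0), (nat_lit 0), (nat_lit 2132)], [((nat_lit 0), (nat_lit 0), (nat_lit 0)), ((nat_lit 0), (nat_lit 0), (nat_lit 0)), ((nat_lit 858), (nat_lit 1000), (nat_lit 713))], ((nat_lit 100), (nat_lit 89), (nat_lit 66))⟩, (nat_lit 0), (nat_lit 218), (nat_lit 218), (nat_lit 0), (nat_lit 236590), [(nat_lit 4688000000), (nat_lit 7968000000), (nat_lit 11872000000)], [], [(nat_lit 28984386381), (nat_lit 27553750735), (nat_lit 25764188848), (nat_lit 27355997674), (nat_lit 27016818377), (nat_lit 28421323238), (nat_lit 26922872154), (nat_lit 28164349702)], (nat_lit 1271251), (nat_lit 1271251), (nat_lit 631250), (nat_lit 780000), (nat_lit 780000), (nat_lit 1435001), [(nat_lit 1100000), (nat_lit 1785001), (nat_lit 1271251)], [(nat_lit 18), (nat_lit 59), (nat_lit 373), (nat_lit 150), (nat_lit 9)]⟩,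
 ⟨⟨[(nat_lit 140), (nat_lit 180), (nat_lit 200)], [(nat_lit 0), (nat_lit 0), (nat_lit 2835)], [((nat_lit 0), (nat_lit 0), (nat_lit 0)), ((nat_lit 0), (nat_lit 0), (nat_lit 0)), ((nat_lit 363), (nat_lit 1000), (nat_lit 798))], ((nat_lit 0), (nat_lit 0), (nat_lit 0))⟩, (nat_lit 25037), (nat_lit 300), (nat_lit 1379), (nat_lit 7107101), (nat_lit 2235073), [(nat_lit 895622000), (nat_lit 1279278000), (nat_lit 1492400000)], [], [(nat_lit 5209728840), (nat_lit 5025162692), (nat_lit 5146693560), (nat_lit 4954075466), (nat_lit 4880676580), (nat_lit 4695860170), (nat_lit 4799549536), (nat_lit 4607406556)], (nat_lit 780000), (nat_lit 1100000), (nat_lit 1271251), (nat_lit 1271251), (nat_lit 780000), (nat_lit 1435001), [(nat_lit 1977501), (nat_lit 1271251), (nat_lit 1271251)], [(nat_lit 32), (nat_lit 67), (nat_lit 430), (nat_lit 175), (nat_lit 9)]⟩⟩)) (.spl (nat_lit 2) (nat_lit 140) (.trX (nat_lit 4) (nat_lit 0) (nat_lit 2) (nat_lit 75) (nat_lit 92) (nat_lit 100)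 (nat_lit 300) (.leaf ⟨(nat_lit 807), (nat_lit 172), (nat_lit 0), (nat_lit 21), (nat_lit 8099), (nat_lit 3650), (nat_lit 2493), (nat_lit 297), (nat_lit 0), (nat_lit 0), (nat_lit 322800), [((nat_lit 360), [((nat_lit 22), (nat_lit 1), (nat_lit 807))])], ⟨(nat_lit 6), false, false, false, (nat_lit 174), (nat_lit 3162), (nat_lit 3873), [(nat_lit 1403908), (nat_lit 1413914), (nat_lit 1425673), (nat_lit 1436040), (nat_lit 1436185), (nat_lit 1444407), (nat_lit 1457950), (nat_lit 1466533)]⟩, ⟨(nat_lit 6), false, false, true, (nat_lit 213), (nat_lit 3162), (nat_lit 3873), [(nat_lit 1477347), (nat_lit 1472332), (nat_lit 1499140), (nat_lit 1494487), (nat_lit 1574129), (nat_lit 1563762), (nat_lit 1595923), (nat_lit 1585917)]⟩, (nat_lit 4795575), (nat_lit 43259548), (nat_lit 9989934), (nat_lit 13750518), (nat_lit 6), (nat_lit 0), [⟨(nat_lit 0), (nat_lit 100), (nat_lit 75), (nat_lit 92), (nat_lit 594840491)⟩], [⟨(nat_lit 1), (nat_lit 92), (nat_lit 75), (nat_lit 100),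 (nat_lit 297626502)⟩], [], [],
 ⟨⟨[(nat_lit 40), (nat_lit 80), (nat_lit 100)], [(nat_lit 0), (nat_lit 795), (nat_lit 1829)], [((nat_lit 0), (nat_lit 0), (nat_lit 0)), ((nat_lit 1000), (nat_lit 814), (nat_lit 310)), ((nat_lit 1000), (nat_lit 714), (nat_lit 692))], ((nat_lit 72), (nat_lit 100), (nat_lit 65))⟩, (nat_lit 845904), (nat_lit 141), (nat_lit 141), (nat_lit 0), (nat_lit 182988), [(nat_lit 1458313718), (nat_lit 2123890580), (nat_lit 2396413600)], [(nat_lit 0), (nat_lit 0), (nat_lit 0)], [(nat_lit 20919238359), (nat_lit 22219849934), (nat_lit 21066635984), (nat_lit 22335597584), (nat_lit 23509360857), (nat_lit 24924575650), (nat_lit 23595335909), (nat_lit 24966853475)], (nat_lit 1271251), (nat_lit 1271251), (nat_lit 631250), (nat_lit 780000), (nat_lit 1271251), (nat_lit 1271251), [(nat_lit 490000), (nat_lit 1100000), (nat_lit 1442501)], [(nat_lit 3), (nat_lit 50), (nat_lit 238), (nat_lit 30), (nat_lit 8)]⟩,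
 ⟨⟨[(nat_lit 80), (nat_lit 120), (nat_lit 140)], [(nat_lit 0), (nat_lit 528), (nat_lit 1572)], [((nat_lit 0), (nat_lit 0), (nat_lit 0)), ((nat_lit 1000), (nat_lit 959), (nat_lit 206)), ((nat_lit 966), (nat_lit 1000), (nat_lit 679))], ((nat_lit 100), (nat_lit 96), (nat_lit 68))⟩, (nat_lit 0), (nat_lit 335), (nat_lit 335), (nat_lit 0), (nat_lit 267911), [(nat_lit 904784000), (nat_lit 1537824000), (nat_lit 1899506000)], [], [(nat_lit 7494872403), (nat_lit 6196278052), (nat_lit 6196278052), (nat_lit 5895681361), (nat_lit 5888981949), (nat_lit 4744852320), (nat_lit 6343022320), (nat_lit 5206334607)], (nat_lit 1271251), (nat_lit 1271251), (nat_lit 631250), (nat_lit 780000), (nat_lit 0), (nat_lit 1412501), [(nat_lit 1100000), (nat_lit 1785001), (nat_lit 1271251)], [(nat_lit 17), (nat_lit 58), (nat_lit 373), (nat_lit 150), (nat_lit 11)]⟩,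
 ⟨⟨[(nat_lit 140), (nat_lit 180), (nat_lit 200)], [(nat_lit 0), (nat_lit 0), (nat_lit 2835)], [((nat_lit 0), (nat_lit 0), (nat_lit 0)), ((nat_lit 0), (nat_lit 0), (nat_lit 0)), ((nat_lit 363), (nat_lit 1000), (nat_lit 798))], ((nat_lit 0), (nat_lit 0), (nat_lit 0))⟩, (nat_lit 5778), (nat_lit 300), (nat_lit 1795), (nat_lit 1640100), (nat_lit 2939976), [(nat_lit 206682000), (nat_lit 295218000), (nat_lit 344400000)], [], [(nat_lit 1394296140), (nat_lit 1368835008), (nat_lit 1385100408), (nat_lit 1360919123), (nat_lit 1058717748), (nat_lit 1034700141), (nat_lit 1041200049), (nat_lit 1016501653)], (nat_lit 780000), (nat_lit 936250), (nat_lit 1271251), (nat_lit 1271251), (nat_lit 0), (nat_lit 1412501), [(nat_lit 1977501), (nat_lit 1271251), (nat_lit 1271251)], [(nat_lit 32), (nat_lit 67), (nat_lit 529), (nat_lit 175), (nat_lit 11)]⟩⟩)) (.leaf ⟨(nat_lit 0), (nat_lit 835), (nat_lit 0), (nat_lit 165), (nat_lit 12650), (nat_lit 4643), (nat_lit 10375), (nat_lit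 2092), (nat_lit 0), (nat_lit 0), (nat_lit 0), [], Pd.none, Pd.none, (nat_lit 0), (nat_lit 1), (nat_lit 0), (nat_lit 0), (nat_lit 6), (nat_lit 0), [⟨(nat_lit 0), (nat_lit 100), (nat_lit 75), (nat_lit 92), (nat_lit 2583913344)⟩], [⟨(nat_lit 1), (nat_lit 92), (nat_lit 68), (nat_lit 100), (nat_lit 95156128)⟩, ⟨(nat_lit 1), (nat_lit 85), (nat_lit 73), (nat_lit 100), (nat_lit 318393215)⟩], [], [],
 ⟨⟨[(nat_lit 40), (nat_lit 80), (nat_lit 100)], [(nat_lit 0), (nat_lit 795), (nat_lit 1829)], [((nat_lit 0), (nat_lit 0), (nat_lit 0)), ((nat_lit 1000), (nat_lit 814), (nat_lit 310)), ((nat_lit 1000), (nat_lit 714), (nat_lit 692))], ((nat_lit 72), (nat_lit 100), (nat_lit 65))⟩, (nat_lit 2126190), (nat_lit 138), (nat_lit 138), (nat_lit 0), (nat_lit 155033), [(nat_lit 2068191412), (nat_lit 4688000085), (nat_lit 6250000000)], [], [(nat_lit 21890557214), (nat_lit 23362481645), (nat_lit 21963000716), (nat_lit 23397270998), (nat_lit 25658051261), (nat_lit 27166127086),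 (nat_lit 25634830194), (nat_lit 27080221143)], (nat_lit 1271251), (nat_lit 1271251), (nat_lit 631250), (nat_lit 780000), (nat_lit 1271251), (nat_lit 1271251), [(nat_lit 490000), (nat_lit 1100000), (nat_lit 1442501)], [(nat_lit 3), (nat_lit 50), (nat_lit 238), (nat_lit 30), (nat_lit 8)]⟩,
 ⟨⟨[(nat_lit 80), (nat_lit 120), (nat_lit 140)], [(nat_lit 0), (nat_lit 528), (nat_lit 1572)], [((nat_lit 0), (nat_lit 0), (nat_lit 0)), ((nat_lit 1000), (nat_lit 959), (nat_lit 206)), ((nat_lit 966), (nat_lit 1000), (nat_lit 679))], ((nat_lit 100), (nat_lit 96), (nat_lit 68))⟩, (nat_lit 0), (nat_lit 318), (nat_lit 318), (nat_lit 0), (nat_lit 228025), [(nat_lit 4688000000), (nat_lit 7968000000), (nat_lit 9842000000)], [], [(nat_lit 37617798157), (nat_lit 32867442250), (nat_lit 32213499563), (nat_lit 32530764500), (nat_lit 32432811422), (nat_lit 27542198532), (nat_lit 34310323532), (nat_lit 29452434688)], (nat_lit 1271251), (nat_lit 1271251), (nat_lit 631250), (nat_lit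 780000), (nat_lit 0), (nat_lit 1412501), [(nat_lit 1100000), (nat_lit 1785001), (nat_lit 1271251)], [(nat_lit 17), (nat_lit 58), (nat_lit 373), (nat_lit 150), (nat_lit 11)]⟩,
 ⟨⟨[(nat_lit 140), (nat_lit 180), (nat_lit 200)], [(nat_lit 0), (nat_lit 608), (nat_lit 3317)], [((nat_lit 0), (nat_lit 0), (nat_lit 0)), ((nat_lit 913), (nat_lit 1000), (nat_lit 217)), ((nat_lit 385), (nat_lit 1000), (nat_lit 814))], ((nat_lit 0), (nat_lit 0), (nat_lit 0))⟩, (nat_lit 381020), (nat_lit 300), (nat_lit 1250), (nat_lit 11599500), (nat_lit 1781838), [(nat_lit 1623930000), (nat_lit 2319570000), (nat_lit 2706000000)], [], [(nat_lit 10301216574), (nat_lit 10126903292), (nat_lit 10194761736), (nat_lit 10026477544), (nat_lit 7991851692), (nat_lit 7827440868), (nat_lit 7843593508), (nat_lit 7672613226)], (nat_lit 936250), (nat_lit 1100000), (nat_lit 1271251), (nat_lit 1271251), (nat_lit 0), (nat_lit 1412501), [(nat_lit 1977501), (nat_lit 1271251), (nat_lit 1271251)], [(nat_lit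 32), (nat_lit 67), (nat_lit 401), (nat_lit 175), (nat_lit 9)]⟩⟩))) (.spl (nat_lit 1) (nat_lit 260) (.leaf ⟨(nat_lit 913), (nat_lit 36), (nat_lit 0), (nat_lit 51), (nat_lit 0), (nat_lit 3575), (nat_lit 870), (nat_lit 581), (nat_lit 0), (nat_lit 0), (nat_lit 365200), [((nat_lit 360), [((nat_lit 22), (nat_lit 1), (nat_lit 913))])], ⟨(nat_lit 6), false, false, false, (nat_lit 165), (nat_lit 3162), (nat_lit 3873), [(nat_lit 1382144), (nat_lit 1391788), (nat_lit 1403908), (nat_lit 1413914), (nat_lit 1414421), (nat_lit 1422280), (nat_lit 1436185), (nat_lit 1444407)]⟩, ⟨(nat_lit 6), false, false, true, (nat_lit 224), (nat_lit 3162), (nat_lit 3873), [(nat_lit 1477347), (nat_lit 1472332), (nat_lit 1520934), (nat_lit 1516642), (nat_lit 1606390), (nat_lit 1594239), (nat_lit 1649977), (nat_lit 1638549)]⟩, (nat_lit 4788871), (nat_lit 42997126), (nat_lit 9181375), (nat_lit 14821499), (nat_lit 6), (nat_lit 0), [⟨(nat_lit 0), (nat_lit 100), (nat_lit 68), (nat_lit 92),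 (nat_lit 157084504)⟩], [⟨(nat_lit 1), (nat_lit 96), (nat_lit 69), (nat_lit 100), (nat_lit 249314923)⟩], [], [⟨(nat_lit 2), (nat_lit 84), (nat_lit 100), (nat_lit 97), (nat_lit 279696)⟩],
 ⟨⟨[(nat_lit 40), (nat_lit 80), (nat_lit 100)], [(nat_lit 0), (nat_lit 795), (nat_lit 1829)], [((nat_lit 0), (nat_lit 0), (nat_lit 0)), ((nat_lit 1000), (nat_lit 814), (nat_lit 310)), ((nat_lit 1000), (nat_lit 714), (nat_lit 692))], ((nat_lit 72), (nat_lit 100), (nat_lit 65))⟩, (nat_lit 493837), (nat_lit 135), (nat_lit 135), (nat_lit 0), (nat_lit 144565), [(nat_lit 1403431791), (nat_lit 1875777394), (nat_lit 1890242400)], [(nat_lit 0), (nat_lit 0), (nat_lit 0)], [(nat_lit 21097830365), (nat_lit 22385502902), (nat_lit 21250970531), (nat_lit 22507365227), (nat_lit 24526951040), (nat_lit 25817938888), (nat_lit 24599813127), (nat_lit 25846146075)], (nat_lit 1271251), (nat_lit 1271251), (nat_lit 631250), (nat_lit 780000), (nat_lit 1271251), (nat_lit 1271251), [(nat_lit 490000),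 (nat_lit 1100000), (nat_lit 1442501)], [(nat_lit 3), (nat_lit 50), (nat_lit 238), (nat_lit 30), (nat_lit 8)]⟩,
 ⟨⟨[(nat_lit 80), (nat_lit 120), (nat_lit 160)], [(nat_lit 0), (nat_lit 0), (nat_lit 2132)], [((nat_lit 0), (nat_lit 0), (nat_lit 0)), ((nat_lit 0), (nat_lit 0), (nat_lit 0)), ((nat_lit 858), (nat_lit 1000), (nat_lit 713))], ((nat_lit 100), (nat_lit 89), (nat_lit 66))⟩, (nat_lit 316329), (nat_lit 245), (nat_lit 245), (nat_lit 0), (nat_lit 236590), [(nat_lit 407856000), (nat_lit 693216000), (nat_lit 1032864000)], [], [(nat_lit 1627466415), (nat_lit 1755990787), (nat_lit 1643388414), (nat_lit 1728353812), (nat_lit 2597712611), (nat_lit 2666109584), (nat_lit 2543398783), (nat_lit 2609937850)], (nat_lit 1271251), (nat_lit 1271251), (nat_lit 631250), (nat_lit 780000), (nat_lit 1271251), (nat_lit 1271251), [(nat_lit 1100000), (nat_lit 1785001), (nat_lit 1271251)], [(nat_lit 18), (nat_lit 59), (nat_lit 428), (nat_lit 200), (nat_lit 11)]⟩,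
 ⟨⟨[(nat_lit 140), (nat_lit 180), (nat_lit 200)], [(nat_lit 0), (nat_lit 0), (nat_lit 2835)], [((nat_lit 0), (nat_lit 0), (nat_lit 0)), ((nat_lit 0), (nat_lit 0), (nat_lit 0)), ((nat_lit 363), (nat_lit 1000), (nat_lit 798))], ((nat_lit 0), (nat_lit 0), (nat_lit 0))⟩, (nat_lit 14032), (nat_lit 300), (nat_lit 1339), (nat_lit 3983100), (nat_lit 2235073), [(nat_lit 501942000), (nat_lit 716958000), (nat_lit 836400000)], [], [(nat_lit 3065503922), (nat_lit 2971974272), (nat_lit 2965588176), (nat_lit 2871049754), (nat_lit 2868625133), (nat_lit 2771874678), (nat_lit 2780409072), (nat_lit 2682127321)], (nat_lit 780000), (nat_lit 1100000), (nat_lit 1271251), (nat_lit 1271251), (nat_lit 1271251), (nat_lit 1271251), [(nat_lit 1977501), (nat_lit 1271251), (nat_lit 1271251)], [(nat_lit 32), (nat_lit 67), (nat_lit 456), (nat_lit 225), (nat_lit 9)]⟩⟩) (.leaf ⟨(nat_lit 851), (nat_lit 47), (nat_lit 0), (nat_lit 102), (nat_lit 0), (nat_lit 3568), (nat_lit 1911), (nat_lit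 1156), (nat_lit 0), (nat_lit 0), (nat_lit 491800), [((nat_lit 360), [((nat_lit 22), (nat_lit 1), (nat_lit 94)), ((nat_lit 39), (nat_lit 2), (nat_lit 757))])], ⟨(nat_lit 6), false, false, false, (nat_lit 174), (nat_lit 3162), (nat_lit 3873), [(nat_lit 1403908), (nat_lit 1413914), (nat_lit 1425673), (nat_lit 1436040), (nat_lit 1436185), (nat_lit 1444407), (nat_lit 1457950), (nat_lit 1466533)]⟩, ⟨(nat_lit 6), false, false, true, (nat_lit 224), (nat_lit 3162), (nat_lit 3873), [(nat_lit 1477347), (nat_lit 1472332), (nat_lit 1520934), (nat_lit 1516642), (nat_lit 1606390), (nat_lit 1594239), (nat_lit 1649977), (nat_lit 1638549)]⟩, (nat_lit 4867399), (nat_lit 42421598), (nat_lit 9876855), (nat_lit 14701547), (nat_lit 6), (nat_lit 0), [⟨(nat_lit 0), (nat_lit 100), (nat_lit 71), (nat_lit 100), (nat_lit 1518009795)⟩], [⟨(nat_lit 1), (nat_lit 96), (nat_lit 69), (nat_lit 100), (nat_lit 203844267)⟩], [], [],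
 ⟨⟨[(nat_lit 40), (nat_lit 80), (nat_lit 100)], [(nat_lit 0), (nat_lit 795), (nat_lit 1829)], [((nat_lit 0), (nat_lit 0), (nat_lit 0)), ((nat_lit 1000), (nat_lit 814), (nat_lit 310)), ((nat_lit 1000), (nat_lit 714), (nat_lit 692))], ((nat_lit 72), (nat_lit 100), (nat_lit 65))⟩, (nat_lit 219654), (nat_lit 146), (nat_lit 146), (nat_lit 0), (nat_lit 184206), [(nat_lit 1397975573), (nat_lit 1663865998), (nat_lit 1324838800)], [(nat_lit 0), (nat_lit 0), (nat_lit 0)], [(nat_lit 21037718520), (nat_lit 22324183414), (nat_lit 21191305710), (nat_lit 22446616442), (nat_lit 24478625268), (nat_lit 25809102448), (nat_lit 24538499544), (nat_lit 25838057568)], (nat_lit 1271251), (nat_lit 1271251), (nat_lit 631250), (nat_lit 780000), (nat_lit 1271251), (nat_lit 1271251), [(nat_lit 490000), (nat_lit 1100000), (nat_lit 1442501)], [(nat_lit 3), (nat_lit 50), (nat_lit 238), (nat_lit 30), (nat_lit 8)]⟩,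
 ⟨⟨[(nat_lit 80), (nat_lit 120), (nat_lit 140)], [(nat_lit 0), (nat_lit 528), (nat_lit 1572)], [((nat_lit 0), (nat_lit 0), (nat_lit 0)), ((nat_lit 1000), (nat_lit 959), (nat_lit 206)), ((nat_lit 966), (nat_lit 1000), (nat_lit 679))], ((nat_lit 100), (nat_lit 96), (nat_lit 68))⟩, (nat_lit 0), (nat_lit 233), (nat_lit 233), (nat_lit 0), (nat_lit 269912), [(nat_lit 698512000), (nat_lit 1187232000), (nat_lit 1466458000)], [], [(nat_lit 2913666707), (nat_lit 3214835417), (nat_lit 2857762227), (nat_lit 3148849082), (nat_lit 5027809334), (nat_lit 5273692297), (nat_lit 4900742998), (nat_lit 5140450273)], (nat_lit 1271251), (nat_lit 1271251), (nat_lit 631250), (nat_lit 780000), (nat_lit 1271251), (nat_lit 1271251), [(nat_lit 1100000), (nat_lit 1785001), (nat_lit 1271251)], [(nat_lit 17), (nat_lit 58), (nat_lit 428), (nat_lit 200), (nat_lit 12)]⟩,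
 ⟨⟨[(nat_lit 140), (nat_lit 180), (nat_lit 200)], [(nat_lit 0), (nat_lit 0), (nat_lit 2835)], [((nat_lit 0), (nat_lit 0), (nat_lit 0)), ((nat_lit 0), (nat_lit 0), (nat_lit 0)), ((nat_lit 363), (nat_lit 1000), (nat_lit 798))], ((nat_lit 0), (nat_lit 0), (nat_lit 0))⟩, (nat_lit 28064), (nat_lit 300), (nat_lit 1677), (nat_lit 7966200), (nat_lit 2939976), [(nat_lit 1003884000), (nat_lit 1433916000), (nat_lit 1672800000)], [], [(nat_lit 6170138100), (nat_lit 5986623100), (nat_lit 5968368636), (nat_lit 5780487220), (nat_lit 5765400910), (nat_lit 5573137574), (nat_lit 5579579333), (nat_lit 5384293346)], (nat_lit 780000), (nat_lit 1100000), (nat_lit 1271251), (nat_lit 1271251), (nat_lit 1271251), (nat_lit 1271251), [(nat_lit 1977501), (nat_lit 1271251), (nat_lit 1271251)], [(nat_lit 32), (nat_lit 67), (nat_lit 526), (nat_lit 225), (nat_lit 11)]⟩⟩))))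
noncomputable def c8_29 : Tr Lf :=
 (.spl (nat_lit 1) (nat_lit 260) (.spl (nat_lit 5) (nat_lit 120) (.spl (nat_lit 5) (nat_lit 80) (.leaf ⟨(nat_lit 0), (nat_lit 862), (nat_lit 0), (nat_lit 138), (nat_lit 25307), (nat_lit 4444), (nat_lit 7984), (nat_lit 1807), (nat_lit 0), (nat_lit 0), (nat_lit 0), [], Pd.none, Pd.none, (nat_lit 0), (nat_lit 1), (nat_lit 0), (nat_lit 0), (nat_lit 6), (nat_lit 0), [⟨(nat_lit 0), (nat_lit 100), (nat_lit 68), (nat_lit 92), (nat_lit 923670859)⟩], [⟨(nat_lit 1), (nat_lit 85), (nat_lit 67), (nat_lit 100), (nat_lit 498888659)⟩], [⟨(nat_lit 0), (nat_lit 100), (nat_lit 98), (nat_lit 10), (nat_lit 215609214)⟩], [],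
 ⟨⟨[(nat_lit 40), (nat_lit 80), (nat_lit 100)], [(nat_lit 0), (nat_lit 795), (nat_lit 1829)], [((nat_lit 0), (nat_lit 0), (nat_lit 0)), ((nat_lit 1000), (nat_lit 814), (nat_lit 310)), ((nat_lit 1000), (nat_lit 714), (nat_lit 692))], ((nat_lit 72), (nat_lit 100), (nat_lit 65))⟩, (nat_lit 2119019), (nat_lit 124), (nat_lit 124), (nat_lit 0), (nat_lit 95224), [(nat_lit 2072445449), (nat_lit 4688000428), (nat_lit 6250000000)], [], [(nat_lit 22020524061), (nat_lit 23449608489), (nat_lit 22128641396), (nat_lit 23500622113), (nat_lit 26285019939), (nat_lit 27576723268), (nat_lit 26282799728), (nat_lit 27496650529)], (nat_lit 1271251), (nat_lit 1271251), (nat_lit 631250), (nat_lit 780000), (nat_lit 1271251), (nat_lit 1271251), [(nat_lit 490000), (nat_lit 1100000), (nat_lit 1442501)], [(nat_lit 3), (nat_lit 50), (nat_lit 238), (nat_lit 30), (nat_lit 8)]⟩,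
 ⟨⟨[(nat_lit 80), (nat_lit 120), (nat_lit 160)], [(nat_lit 0), (nat_lit 0), (nat_lit 2132)], [((nat_lit 0), (nat_lit 0), (nat_lit 0)), ((nat_lit 0), (nat_lit 0), (nat_lit 0)), ((nat_lit 858), (nat_lit 1000), (nat_lit 713))], ((nat_lit 100), (nat_lit 89), (nat_lit 66))⟩, (nat_lit 5602457), (nat_lit 330), (nat_lit 330), (nat_lit 0), (nat_lit 96366), [(nat_lit 4688000000), (nat_lit 7968000000), (nat_lit 11872000000)], [], [(nat_lit 20366371924), (nat_lit 22046018048), (nat_lit 20228921500), (nat_lit 21860747484), (nat_lit 16720847024), (nat_lit 17578210930), (nat_lit 17999988000), (nat_lit 17697718916)], (nat_lit 1271251), (nat_lit 1271251), (nat_lit 631250), (nat_lit 780000), (nat_lit 0), (nat_lit 490000), [(nat_lit 1100000), (nat_lit 1785001), (nat_lit 1271251)], [(nat_lit 18), (nat_lit 59), (nat_lit 345), (nat_lit 125), (nat_lit 9)]⟩,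
 ⟨⟨[(nat_lit 120), (nat_lit 160), (nat_lit 180)], [(nat_lit 0), (nat_lit 0), (nat_lit 1613)], [((nat_lit 0), (nat_lit 0), (nat_lit 0)), ((nat_lit 0), (nat_lit 0), (nat_lit 0)), ((nat_lit 620), (nat_lit 1000), (nat_lit 670))], ((nat_lit 100), (nat_lit 63), (nat_lit 66))⟩, (nat_lit 60060), (nat_lit 300), (nat_lit 604), (nat_lit 10239600), (nat_lit 535837), [(nat_lit 1099584000), (nat_lit 1638336000), (nat_lit 1940004000)], [], [(nat_lit 7496565564), (nat_lit 7430253465), (nat_lit 7574513115), (nat_lit 7492970444), (nat_lit 6374778068), (nat_lit 6311109886), (nat_lit 6443494929), (nat_lit 6364973852)], (nat_lit 1100000), (nat_lit 1271251), (nat_lit 1271251), (nat_lit 1271251), (nat_lit 0), (nat_lit 490000), [(nat_lit 1695001), (nat_lit 1271251), (nat_lit 1271251)], [(nat_lit 28), (nat_lit 65), (nat_lit 373), (nat_lit 150), (nat_lit 9)]⟩⟩) (.leaf ⟨(nat_lit 0), (nat_lit 0), (nat_lit 0), (nat_lit 1000), (nat_lit 0), (nat_lit 5422), (nat_lit 77039), (nat_lit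 14426), (nat_lit 0), (nat_lit 0), (nat_lit 0), [], Pd.none, Pd.none, (nat_lit 0), (nat_lit 1), (nat_lit 0), (nat_lit 0), (nat_lit 0), (nat_lit 0), [⟨(nat_lit 0), (nat_lit 100), (nat_lit 63), (nat_lit 99), (nat_lit 2992752468)⟩], [], [], [],
 ⟨⟨[(nat_lit 40), (nat_lit 80), (nat_lit 100)], [(nat_lit 0), (nat_lit 795), (nat_lit 1829)], [((nat_lit 0), (nat_lit 0), (nat_lit 0)), ((nat_lit 1000), (nat_lit 814), (nat_lit 310)), ((nat_lit 1000), (nat_lit 714), (nat_lit 692))], ((nat_lit 72), (nat_lit 100), (nat_lit 65))⟩, (nat_lit 1907099), (nat_lit 124), (nat_lit 124), (nat_lit 0), (nat_lit 95224), [(nat_lit 2516936110), (nat_lit 4960432188), (nat_lit 6250000000)], [], [(nat_lit 21867159398), (nat_lit 23497593987), (nat_lit 21880802033), (nat_lit 23444755561), (nat_lit 27272496964), (nat_lit 28884086284), (nat_lit 27125850253), (nat_lit 28697081715)], (nat_lit 1271251), (nat_lit 1271251), (nat_lit 631250), (nat_lit 780000), (nat_lit 1271251), (nat_lit 1271251),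 [(nat_lit 490000), (nat_lit 1100000), (nat_lit 1442501)], [(nat_lit 3), (nat_lit 50), (nat_lit 238), (nat_lit 30), (nat_lit 8)]⟩,
 ⟨⟨[(nat_lit 80), (nat_lit 120), (nat_lit 160)], [(nat_lit 0), (nat_lit 0), (nat_lit 2132)], [((nat_lit 0), (nat_lit 0), (nat_lit 0)), ((nat_lit 0), (nat_lit 0), (nat_lit 0)), ((nat_lit 858), (nat_lit 1000), (nat_lit 713))], ((nat_lit 100), (nat_lit 89), (nat_lit 66))⟩, (nat_lit 0), (nat_lit 187), (nat_lit 187), (nat_lit 0), (nat_lit 96366), [(nat_lit 4688000000), (nat_lit 7968000000), (nat_lit 11872000000)], [], [(nat_lit 0), (nat_lit 4920842888), (nat_lit 0), (nat_lit 6303278), (nat_lit 0), (nat_lit 0), (nat_lit 0), (nat_lit 0)], (nat_lit 1271251), (nat_lit 1271251), (nat_lit 631250), (nat_lit 780000), (nat_lit 490000), (nat_lit 780000), [(nat_lit 1100000), (nat_lit 1785001), (nat_lit 1271251)], [(nat_lit 18), (nat_lit 59), (nat_lit 345), (nat_lit 125), (nat_lit 9)]⟩,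
 ⟨⟨[(nat_lit 120), (nat_lit 160), (nat_lit 180)], [(nat_lit 0), (nat_lit 0), (nat_lit 1613)], [((nat_lit 0), (nat_lit 0), (nat_lit 0)), ((nat_lit 0), (nat_lit 0), (nat_lit 0)), ((nat_lit 620), (nat_lit 1000), (nat_lit 670))], ((nat_lit 100), (nat_lit 63), (nat_lit 66))⟩, (nat_lit 435214), (nat_lit 300), (nat_lit 503), (nat_lit 74200000), (nat_lit 535837), [(nat_lit 7968000000), (nat_lit 11872000000), (nat_lit 14058000000)], [], [(nat_lit 41150621152), (nat_lit 40973064648), (nat_lit 44252512994), (nat_lit 43869113892), (nat_lit 39078686900), (nat_lit 38872762064), (nat_lit 41910361535), (nat_lit 41507929427)], (nat_lit 1100000), (nat_lit 1271251), (nat_lit 1271251), (nat_lit 1271251), (nat_lit 490000), (nat_lit 780000), [(nat_lit 1695001), (nat_lit 1271251), (nat_lit 1271251)], [(nat_lit 28), (nat_lit 65), (nat_lit 401), (nat_lit 175), (nat_lit 9)]⟩⟩)) (.leaf ⟨(nat_lit 0), (nat_lit 0), (nat_lit 0), (nat_lit 1000), (nat_lit 0), (nat_lit 4863), (nat_lit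 24734), (nat_lit 12376), (nat_lit 0), (nat_lit 0), (nat_lit 0), [], Pd.none, Pd.none, (nat_lit 0), (nat_lit 1), (nat_lit 0), (nat_lit 0), (nat_lit 0), (nat_lit 0), [⟨(nat_lit 0), (nat_lit 100), (nat_lit 68), (nat_lit 92), (nat_lit 370761272)⟩, ⟨(nat_lit 0), (nat_lit 100), (nat_lit 63), (nat_lit 99), (nat_lit 3480880828)⟩], [], [], [],
 ⟨⟨[(nat_lit 40), (nat_lit 80), (nat_lit 100)], [(nat_lit 0), (nat_lit 795), (nat_lit 1829)], [((nat_lit 0), (nat_lit 0), (nat_lit 0)), ((nat_lit 1000), (nat_lit 814), (nat_lit 310)), ((nat_lit 1000), (nat_lit 714), (nat_lit 692))], ((nat_lit 72), (nat_lit 100), (nat_lit 65))⟩, (nat_lit 2283084), (nat_lit 124), (nat_lit 124), (nat_lit 0), (nat_lit 95224), [(nat_lit 2176830757), (nat_lit 4688000328), (nat_lit 6250000000)], [], [(nat_lit 21483822278), (nat_lit 23012684686), (nat_lit 21539659630), (nat_lit 23010554192), (nat_lit 26620345938), (nat_lit 28136830736), (nat_lit 26531639542), (nat_lit 28010945690)], (nat_lit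 1271251), (nat_lit 1271251), (nat_lit 631250), (nat_lit 780000), (nat_lit 1271251), (nat_lit 1271251), [(nat_lit 490000), (nat_lit 1100000), (nat_lit 1442501)], [(nat_lit 3), (nat_lit 50), (nat_lit 238), (nat_lit 30), (nat_lit 8)]⟩,
 ⟨⟨[(nat_lit 80), (nat_lit 120), (nat_lit 160)], [(nat_lit 0), (nat_lit 0), (nat_lit 2132)], [((nat_lit 0), (nat_lit 0), (nat_lit 0)), ((nat_lit 0), (nat_lit 0), (nat_lit 0)), ((nat_lit 858), (nat_lit 1000), (nat_lit 713))], ((nat_lit 100), (nat_lit 89), (nat_lit 66))⟩, (nat_lit 0), (nat_lit 217), (nat_lit 217), (nat_lit 0), (nat_lit 157940), [(nat_lit 4688000000), (nat_lit 7968000000), (nat_lit 11872000000)], [], [(nat_lit 28321023597), (nat_lit 20108848927), (nat_lit 15580179376), (nat_lit 18825056938), (nat_lit 50876913000), (nat_lit 46415609334), (nat_lit 54801381474), (nat_lit 44398503361)], (nat_lit 1271251), (nat_lit 1271251), (nat_lit 631250), (nat_lit 780000), (nat_lit 780000), (nat_lit 2826876), [(nat_lit 1100000),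 (nat_lit 1785001), (nat_lit 1271251)], [(nat_lit 18), (nat_lit 59), (nat_lit 428), (nat_lit 200), (nat_lit 11)]⟩,
 ⟨⟨[(nat_lit 120), (nat_lit 160), (nat_lit 180)], [(nat_lit 0), (nat_lit 0), (nat_lit 1613)], [((nat_lit 0), (nat_lit 0), (nat_lit 0)), ((nat_lit 0), (nat_lit 0), (nat_lit 0)), ((nat_lit 620), (nat_lit 1000), (nat_lit 670))], ((nat_lit 100), (nat_lit 63), (nat_lit 66))⟩, (nat_lit 435214), (nat_lit 300), (nat_lit 622), (nat_lit 74200000), (nat_lit 794234), [(nat_lit 7968000000), (nat_lit 11872000000), (nat_lit 14058000000)], [], [(nat_lit 45885295856), (nat_lit 45455259852), (nat_lit 46317838984), (nat_lit 45789364662), (nat_lit 42631721608), (nat_lit 42176423076), (nat_lit 43147819252), (nat_lit 42588732406)], (nat_lit 1100000), (nat_lit 1271251), (nat_lit 1271251), (nat_lit 1271251), (nat_lit 780000), (nat_lit 2826876), [(nat_lit 1695001), (nat_lit 1271251), (nat_lit 1271251)], [(nat_lit 28), (nat_lit 65), (nat_lit 456), (nat_lit 225),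 (nat_lit 10)]⟩⟩)) (.spl (nat_lit 0) (nat_lit 350) (.leaf ⟨(nat_lit 0), (nat_lit 516), (nat_lit 0), (nat_lit 484), (nat_lit 8503), (nat_lit 4548), (nat_lit 10422), (nat_lit 5862), (nat_lit 0), (nat_lit 0), (nat_lit 0), [], Pd.none, Pd.none, (nat_lit 0), (nat_lit 1), (nat_lit 0), (nat_lit 0), (nat_lit 6), (nat_lit 0), [⟨(nat_lit 0), (nat_lit 100), (nat_lit 74), (nat_lit 98), (nat_lit 2708646723)⟩], [], [], [],
 ⟨⟨[(nat_lit 40), (nat_lit 80), (nat_lit 100)], [(nat_lit 0), (nat_lit 795), (nat_lit 1829)], [((nat_lit 0), (nat_lit 0), (nat_lit 0)), ((nat_lit 1000), (nat_lit 814), (nat_lit 310)), ((nat_lit 1000), (nat_lit 714), (nat_lit 692))], ((nat_lit 72), (nat_lit 100), (nat_lit 65))⟩, (nat_lit 2075783), (nat_lit 120), (nat_lit 120), (nat_lit 0), (nat_lit 92997), [(nat_lit 2065642519), (nat_lit 4688001012), (nat_lit 6250000000)], [], [(nat_lit 22034472989), (nat_lit 22762240481), (nat_lit 22114087329), (nat_lit 22823314955), (nat_lit 26346687270), (nat_lit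 26984301154), (nat_lit 26318287534), (nat_lit 26910864498)], (nat_lit 1271251), (nat_lit 1271251), (nat_lit 631250), (nat_lit 780000), (nat_lit 1271251), (nat_lit 1271251), [(nat_lit 490000), (nat_lit 1100000), (nat_lit 1442501)], [(nat_lit 3), (nat_lit 50), (nat_lit 238), (nat_lit 30), (nat_lit 8)]⟩,
 ⟨⟨[(nat_lit 80), (nat_lit 120), (nat_lit 140)], [(nat_lit 0), (nat_lit 528), (nat_lit 1572)], [((nat_lit 0), (nat_lit 0), (nat_lit 0)), ((nat_lit 1000), (nat_lit 959), (nat_lit 206)), ((nat_lit 966), (nat_lit 1000), (nat_lit 679))], ((nat_lit 100), (nat_lit 96), (nat_lit 68))⟩, (nat_lit 0), (nat_lit 240), (nat_lit 240), (nat_lit 0), (nat_lit 133625), [(nat_lit 4688000000), (nat_lit 7968000000), (nat_lit 9842000000)], [], [(nat_lit 37640275519), (nat_lit 32834211464), (nat_lit 32211494801), (nat_lit 32494097920), (nat_lit 48272831949), (nat_lit 43743198208), (nat_lit 50539288208), (nat_lit 46037449290)], (nat_lit 1271251), (nat_lit 1271251), (nat_lit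 631250), (nat_lit 780000), (nat_lit 0), (nat_lit 2613125), [(nat_lit 1100000), (nat_lit 1785001), (nat_lit 1271251)], [(nat_lit 17), (nat_lit 58), (nat_lit 428), (nat_lit 200), (nat_lit 12)]⟩,
 ⟨⟨[(nat_lit 120), (nat_lit 160), (nat_lit 180)], [(nat_lit 0), (nat_lit 0), (nat_lit 1613)], [((nat_lit 0), (nat_lit 0), (nat_lit 0)), ((nat_lit 0), (nat_lit 0), (nat_lit 0)), ((nat_lit 620), (nat_lit 1000), (nat_lit 670))], ((nat_lit 100), (nat_lit 63), (nat_lit 66))⟩, (nat_lit 210644), (nat_lit 300), (nat_lit 708), (nat_lit 35912800), (nat_lit 761955), [(nat_lit 3856512000), (nat_lit 5746048000), (nat_lit 6804072000)], [], [(nat_lit 27034212248), (nat_lit 26831620362), (nat_lit 27350325889), (nat_lit 27096882168), (nat_lit 24498494429), (nat_lit 26282140230), (nat_lit 21092449146), (nat_lit 20830994821)], (nat_lit 1100000), (nat_lit 1271251), (nat_lit 1271251), (nat_lit 1271251), (nat_lit 0), (nat_lit 2613125), [(nat_lit 1695001), (nat_lit 1271251), (nat_lit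 1271251)], [(nat_lit 28), (nat_lit 65), (nat_lit 456), (nat_lit 225), (nat_lit 11)]⟩⟩) (.trZ (nat_lit 0) (nat_lit 1) (nat_lit 3) (nat_lit 100) (nat_lit 69) (nat_lit 96) (nat_lit 110) (.trX (nat_lit 4) (nat_lit 0) (nat_lit 2) (nat_lit 66) (nat_lit 82) (nat_lit 100) (nat_lit 320) (.leaf ⟨(nat_lit 0), (nat_lit 504), (nat_lit 0), (nat_lit 496), (nat_lit 0), (nat_lit 4369), (nat_lit 23373), (nat_lit 6229), (nat_lit 0), (nat_lit 0), (nat_lit 0), [], Pd.none, Pd.none, (nat_lit 0), (nat_lit 1), (nat_lit 0), (nat_lit 0), (nat_lit 6), (nat_lit 0), [⟨(nat_lit 0), (nat_lit 100), (nat_lit 69), (nat_lit 96), (nat_lit 5336096662)⟩], [], [], [],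
 ⟨⟨[(nat_lit 40), (nat_lit 80), (nat_lit 100)], [(nat_lit 0), (nat_lit 1195), (nat_lit 2166)], [((nat_lit 0), (nat_lit 0), (nat_lit 0)), ((nat_lit 1000), (nat_lit 720), (nat_lit 465)), ((nat_lit 1000), (nat_lit 662), (nat_lit 740))], ((nat_lit 67), (nat_lit 100), (nat_lit 66))⟩, (nat_lit 2155771), (nat_lit 128), (nat_lit 128), (nat_lit 0), (nat_lit 132948), [(nat_lit 2032000007), (nat_lit 4688000045), (nat_lit 6250000000)], [], [(nat_lit 22009024474), (nat_lit 22712352029), (nat_lit 22049996971), (nat_lit 22740916178), (nat_lit 26064625949), (nat_lit 26791928733), (nat_lit 26045227005), (nat_lit 26763613869)], (nat_lit 1271251), (nat_lit 1271251), (nat_lit 704688), (nat_lit 780000), (nat_lit 1271251), (nat_lit 1271251), [(nat_lit 490000), (nat_lit 1100000), (nat_lit 1442501)], [(nat_lit 3), (nat_lit 50), (nat_lit 238), (nat_lit 30), (nat_lit 8)]⟩,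
 ⟨⟨[(nat_lit 80), (nat_lit 120), (nat_lit 140)], [(nat_lit 0), (nat_lit 528), (nat_lit 1572)], [((nat_lit 0), (nat_lit 0), (nat_lit 0)), ((nat_lit 1000), (nat_lit 959), (nat_lit 206)), ((nat_lit 966), (nat_lit 1000), (nat_lit 679))], ((nat_lit 100), (nat_lit 96), (nat_lit 68))⟩, (nat_lit 0), (nat_lit 301), (nat_lit 301), (nat_lit 0), (nat_lit 198936), [(nat_lit 4688000000), (nat_lit 7968000000), (nat_lit 9842000000)], [], [(nat_lit 37746530398), (nat_lit 33647508248), (nat_lit 31659076372), (nat_lit 33031568593), (nat_lit 48919559281), (nat_lit 46722978814), (nat_lit 51182663130), (nat_lit 45735247308)], (nat_lit 1271251), (nat_lit 1271251), (nat_lit 704688), (nat_lit 780000), (nat_lit 0), (nat_lit 2613125), [(nat_lit 1100000), (nat_lit 1785001), (nat_lit 1271251)], [(nat_lit 17), (nat_lit 58), (nat_lit 428), (nat_lit 200), (nat_lit 12)]⟩,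
 ⟨⟨[(nat_lit 120), (nat_lit 160), (nat_lit 180)], [(nat_lit 0), (nat_lit 0), (nat_lit 1613)], [((nat_lit 0), (nat_lit 0), (nat_lit 0)), ((nat_lit 0), (nat_lit 0), (nat_lit 0)), ((nat_lit 620), (nat_lit 1000), (nat_lit 670))], ((nat_lit 100), (nat_lit 63), (nat_lit 66))⟩, (nat_lit 215866), (nat_lit 300), (nat_lit 892), (nat_lit 36803201), (nat_lit 1156475), [(nat_lit 3952128000), (nat_lit 5888512000), (nat_lit 6972768000)], [], [(nat_lit 27359200008), (nat_lit 27137110965), (nat_lit 27547620296), (nat_lit 27279323237), (nat_lit 25162688142), (nat_lit 27045465304), (nat_lit 21145095962), (nat_lit 20868148628)], (nat_lit 1100000), (nat_lit 1271251), (nat_lit 1271251), (nat_lit 1271251), (nat_lit 0), (nat_lit 2613125), [(nat_lit 1695001), (nat_lit 1271251), (nat_lit 1271251)], [(nat_lit 28), (nat_lit 65), (nat_lit 456), (nat_lit 225), (nat_lit 11)]⟩⟩)))))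
noncomputable def c8_30 : Tr Lf :=
 (.spl (nat_lit 2) (nat_lit 160) (.trX (nat_lit 4) (nat_lit 0) (nat_lit 2) (nat_lit 73) (nat_lit 85) (nat_lit 100) (nat_lit 320) (.spl (nat_lit 5) (nat_lit 120) (.spl (nat_lit 0) (nat_lit 350) (.leaf ⟨(nat_lit 0), (nat_lit 953), (nat_lit 0), (nat_lit 47), (nat_lit 30062), (nat_lit 4414), (nat_lit 7014), (nat_lit 706), (nat_lit 0), (nat_lit 0), (nat_lit 0), [], Pd.none, Pd.none, (nat_lit 0), (nat_lit 1), (nat_lit 0), (nat_lit 0), (nat_lit 6), (nat_lit 0), [⟨(nat_lit 0), (nat_lit 100), (nat_lit 72), (nat_lit 94), (nat_lit 864385843)⟩], [⟨(nat_lit 1), (nat_lit 94), (nat_lit 72), (nat_lit 100), (nat_lit 553753507)⟩], [], [],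
 ⟨⟨[(nat_lit 40), (nat_lit 80), (nat_lit 120)], [(nat_lit 0), (nat_lit 795), (nat_lit 2800)], [((nat_lit 0), (nat_lit 0), (nat_lit 0)), ((nat_lit 1000), (nat_lit 814), (nat_lit 310)), ((nat_lit 1000), (nat_lit 719), (nat_lit 783))], ((nat_lit 71), (nat_lit 100), (nat_lit 71))⟩, (nat_lit 2403865), (nat_lit 129), (nat_lit 129), (nat_lit 0), (nat_lit 71452), [(nat_lit 2055813646), (nat_lit 4688000059), (nat_lit 7968000000)], [], [(nat_lit 22176708965), (nat_lit 22840634928), (nat_lit 22233407830), (nat_lit 22880811481), (nat_lit 25579389223), (nat_lit 26136842928), (nat_lit 25551764952), (nat_lit 26093551833)], (nat_lit 1271251), (nat_lit 1271251), (nat_lit 631250), (nat_lit 780000), (nat_lit 1271251), (nat_lit 1271251), [(nat_lit 490000), (nat_lit 1100000), (nat_lit 1785001)], [(nat_lit 4), (nat_lit 51), (nat_lit 238), (nat_lit 30), (nat_lit 7)]⟩,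
 ⟨⟨[(nat_lit 80), (nat_lit 120), (nat_lit 160)], [(nat_lit 0), (nat_lit 0), (nat_lit 2132)], [((nat_lit 0), (nat_lit 0), (nat_lit 0)), ((nat_lit 0), (nat_lit 0), (nat_lit 0)), ((nat_lit 858), (nat_lit 1000), (nat_lit 713))], ((nat_lit 100), (nat_lit 85), (nat_lit 73))⟩, (nat_lit 3999502), (nat_lit 325), (nat_lit 325), (nat_lit 0), (nat_lit 72177), [(nat_lit 4688000000), (nat_lit 7968000000), (nat_lit 11872000000)], [], [(nat_lit 23396675144), (nat_lit 26509238677), (nat_lit 23332494640), (nat_lit 26358858418), (nat_lit 20761129545), (nat_lit 21882185365), (nat_lit 22008203590), (nat_lit 21813594388)], (nat_lit 1271251), (nat_lit 1271251), (nat_lit 631250), (nat_lit 780000), (nat_lit 0), (nat_lit 780000), [(nat_lit 1100000), (nat_lit 1785001), (nat_lit 1271251)], [(nat_lit 18), (nat_lit 59), (nat_lit 373), (nat_lit 150), (nat_lit 10)]⟩,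
 ⟨⟨[(nat_lit 140), (nat_lit 180), (nat_lit 200)], [(nat_lit 0), (nat_lit 0), (nat_lit 2835)], [((nat_lit 0), (nat_lit 0), (nat_lit 0)), ((nat_lit 0), (nat_lit 0), (nat_lit 0)), ((nat_lit 363), (nat_lit 1000), (nat_lit 798))], ((nat_lit 0), (nat_lit 0), (nat_lit 0))⟩, (nat_lit 12931), (nat_lit 300), (nat_lit 762), (nat_lit 3670704), (nat_lit 682547), [(nat_lit 462574000), (nat_lit 660726000), (nat_lit 770800000)], [], [(nat_lit 3070572456), (nat_lit 2952572576), (nat_lit 3127365560), (nat_lit 3007972128), (nat_lit 2472861686), (nat_lit 2357076546), (nat_lit 2475478858), (nat_lit 2365456162)], (nat_lit 780000), (nat_lit 1100000), (nat_lit 1271251), (nat_lit 1271251), (nat_lit 0), (nat_lit 780000), [(nat_lit 1977501), (nat_lit 1271251), (nat_lit 1271251)], [(nat_lit 32), (nat_lit 67), (nat_lit 373), (nat_lit 150), (nat_lit 8)]⟩⟩) (.trX (nat_lit 4) (nat_lit 0) (nat_lit 2) (nat_lit 68) (nat_lit 89) (nat_lit 100) (nat_lit 300) (.leaf ⟨(nat_lit 488), (nat_lit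 512), (nat_lit 0), (nat_lit 0), (nat_lit 33133), (nat_lit 3907), (nat_lit 4313), (nat_lit 0), (nat_lit 0), (nat_lit 0), (nat_lit 122000), [((nat_lit 360), [((nat_lit 22), (nat_lit 0), (nat_lit 488))])], ⟨(nat_lit 6), false, false, false, (nat_lit 171), (nat_lit 3162), (nat_lit 3536), [(nat_lit 1386958), (nat_lit 1391883), (nat_lit 1430847), (nat_lit 1436176), (nat_lit 1418344), (nat_lit 1422365), (nat_lit 1462233), (nat_lit 1466658)]⟩, ⟨(nat_lit 6), false, false, true, (nat_lit 217), (nat_lit 3162), (nat_lit 3536), [(nat_lit 1474949), (nat_lit 1472332), (nat_lit 1518855), (nat_lit 1516642), (nat_lit 1569092), (nat_lit 1563762), (nat_lit 1612997), (nat_lit 1608072)]⟩, (nat_lit 4790420), (nat_lit 43203042), (nat_lit 9673774), (nat_lit 14123184), (nat_lit 6), (nat_lit 0), [⟨(nat_lit 0), (nat_lit 100), (nat_lit 66), (nat_lit 97), (nat_lit 1343499082)⟩], [⟨(nat_lit 1), (nat_lit 97), (nat_lit 66), (nat_lit 100), (nat_lit 493359577)⟩], [], [],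
 ⟨⟨[(nat_lit 40), (nat_lit 80), (nat_lit 100)], [(nat_lit 0), (nat_lit 1195), (nat_lit 2166)], [((nat_lit 0), (nat_lit 0), (nat_lit 0)), ((nat_lit 1000), (nat_lit 720), (nat_lit 465)), ((nat_lit 1000), (nat_lit 662), (nat_lit 740))], ((nat_lit 66), (nat_lit 100), (nat_lit 72))⟩, (nat_lit 1382673), (nat_lit 121), (nat_lit 121), (nat_lit 0), (nat_lit 113014), [(nat_lit 1685761042), (nat_lit 3472792813), (nat_lit 4337430400)], [(nat_lit 0), (nat_lit 0), (nat_lit 0)], [(nat_lit 21945098606), (nat_lit 22617573277), (nat_lit 22056615785), (nat_lit 22712367974), (nat_lit 24514114682), (nat_lit 25223627532), (nat_lit 24564336191), (nat_lit 25239446051)], (nat_lit 1271251), (nat_lit 1271251), (nat_lit 631250), (nat_lit 780000), (nat_lit 1271251), (nat_lit 1271251), [(nat_lit 490000), (nat_lit 1100000), (nat_lit 1442501)], [(nat_lit 3), (nat_lit 50), (nat_lit 238), (nat_lit 30), (nat_lit 8)]⟩,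
 ⟨⟨[(nat_lit 80), (nat_lit 120), (nat_lit 160)], [(nat_lit 0), (nat_lit 0), (nat_lit 2132)], [((nat_lit 0), (nat_lit 0), (nat_lit 0)), ((nat_lit 0), (nat_lit 0), (nat_lit 0)), ((nat_lit 858), (nat_lit 1000), (nat_lit 713))], ((nat_lit 100), (nat_lit 85), (nat_lit 73))⟩, (nat_lit 0), (nat_lit 343), (nat_lit 343), (nat_lit 0), (nat_lit 119610), [(nat_lit 2400256000), (nat_lit 4079616000), (nat_lit 6078464000)], [], [(nat_lit 21029174674), (nat_lit 20114527998), (nat_lit 18766105536), (nat_lit 19968927810), (nat_lit 16155905284), (nat_lit 17256158253), (nat_lit 16062757083), (nat_lit 17128421347)], (nat_lit 1271251), (nat_lit 1271251), (nat_lit 631250), (nat_lit 780000), (nat_lit 0), (nat_lit 780000), [(nat_lit 1100000), (nat_lit 1785001), (nat_lit 1271251)], [(nat_lit 18), (nat_lit 59), (nat_lit 373), (nat_lit 150), (nat_lit 10)]⟩,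
 Rw.none⟩))) (.spl (nat_lit 1) (nat_lit 260) (.leaf ⟨(nat_lit 924), (nat_lit 14), (nat_lit 0), (nat_lit 62), (nat_lit 4669), (nat_lit 3409), (nat_lit 1889), (nat_lit 757), (nat_lit 0), (nat_lit 0), (nat_lit 680400), [((nat_lit 360), [((nat_lit 39), (nat_lit 2), (nat_lit 609)), ((nat_lit 22), (nat_lit 2), (nat_lit 315))])], ⟨(nat_lit 6), false, false, false, (nat_lit 165), (nat_lit 3162), (nat_lit 3873), [(nat_lit 1382144), (nat_lit 1391788), (nat_lit 1403908), (nat_lit 1413914), (nat_lit 1414421), (nat_lit 1422280), (nat_lit 1436185), (nat_lit 1444407)]⟩, ⟨(nat_lit 6), false, false, true, (nat_lit 224), (nat_lit 3162), (nat_lit 3873), [(nat_lit 1477347), (nat_lit 1472332), (nat_lit 1520934), (nat_lit 1516642), (nat_lit 1606390), (nat_lit 1594239), (nat_lit 1649977), (nat_lit 1638549)]⟩, (nat_lit 4788871), (nat_lit 42997126), (nat_lit 9181375), (nat_lit 14821499), (nat_lit 6), (nat_lit 0), [⟨(nat_lit 0), (nat_lit 100), (nat_lit 68), (nat_lit 92), (nat_lit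 177237767)⟩], [⟨(nat_lit 1), (nat_lit 96), (nat_lit 69), (nat_lit 100), (nat_lit 259728433)⟩], [], [],
 ⟨⟨[(nat_lit 40), (nat_lit 80), (nat_lit 120)], [(nat_lit 0), (nat_lit 795), (nat_lit 2800)], [((nat_lit 0), (nat_lit 0), (nat_lit 0)), ((nat_lit 1000), (nat_lit 814), (nat_lit 310)), ((nat_lit 1000), (nat_lit 719), (nat_lit 783))], ((nat_lit 71), (nat_lit 100), (nat_lit 71))⟩, (nat_lit 0), (nat_lit 134), (nat_lit 134), (nat_lit 0), (nat_lit 73157), [(nat_lit 1356155323), (nat_lit 1088153528), (nat_lit 0)], [(nat_lit 0), (nat_lit 0), (nat_lit 833335200)], [(nat_lit 20617162664), (nat_lit 21772345765), (nat_lit 20768983839), (nat_lit 21882175742), (nat_lit 24306091228), (nat_lit 25608389037), (nat_lit 24382012460), (nat_lit 25654332909)], (nat_lit 1271251), (nat_lit 1271251), (nat_lit 631250), (nat_lit 780000), (nat_lit 1271251), (nat_lit 1271251), [(nat_lit 490000), (nat_lit 1100000), (nat_lit 1785001)], [(nat_lit 4), (nat_lit 51), (nat_lit 238),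 (nat_lit 30), (nat_lit 7)]⟩,
 ⟨⟨[(nat_lit 80), (nat_lit 120), (nat_lit 160)], [(nat_lit 0), (nat_lit 0), (nat_lit 2132)], [((nat_lit 0), (nat_lit 0), (nat_lit 0)), ((nat_lit 0), (nat_lit 0), (nat_lit 0)), ((nat_lit 858), (nat_lit 1000), (nat_lit 713))], ((nat_lit 100), (nat_lit 85), (nat_lit 73))⟩, (nat_lit 0), (nat_lit 203), (nat_lit 203), (nat_lit 0), (nat_lit 121479), [(nat_lit 356288000), (nat_lit 605568000), (nat_lit 902272000)], [], [(nat_lit 2152004690), (nat_lit 1523860725), (nat_lit 1178058664), (nat_lit 1425648955), (nat_lit 3870253452), (nat_lit 3537504001), (nat_lit 4169753631), (nat_lit 3383292852)], (nat_lit 1271251), (nat_lit 1271251), (nat_lit 631250), (nat_lit 780000), (nat_lit 780000), (nat_lit 2826876), [(nat_lit 1100000), (nat_lit 1785001), (nat_lit 1271251)], [(nat_lit 18), (nat_lit 59), (nat_lit 428), (nat_lit 200), (nat_lit 11)]⟩,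
 ⟨⟨[(nat_lit 140), (nat_lit 180), (nat_lit 200)], [(nat_lit 0), (nat_lit 0), (nat_lit 2835)], [((nat_lit 0), (nat_lit 0), (nat_lit 0)), ((nat_lit 0), (nat_lit 0), (nat_lit 0)), ((nat_lit 363), (nat_lit 1000), (nat_lit 798))], ((nat_lit 0), (nat_lit 0), (nat_lit 0))⟩, (nat_lit 17058), (nat_lit 300), (nat_lit 865), (nat_lit 4842203), (nat_lit 1102616), [(nat_lit 610204000), (nat_lit 871596000), (nat_lit 1016800000)], [], [(nat_lit 3704941214), (nat_lit 3581264728), (nat_lit 3607652332), (nat_lit 3481241468), (nat_lit 3310268707), (nat_lit 3183119650), (nat_lit 3224241581), (nat_lit 3097725362)], (nat_lit 780000), (nat_lit 1100000), (nat_lit 1271251), (nat_lit 1271251), (nat_lit 780000), (nat_lit 2826876), [(nat_lit 1977501), (nat_lit 1271251), (nat_lit 1271251)], [(nat_lit 32), (nat_lit 67), (nat_lit 456), (nat_lit 225), (nat_lit 9)]⟩⟩) (.leaf ⟨(nat_lit 0), (nat_lit 274), (nat_lit 0), (nat_lit 726), (nat_lit 16705), (nat_lit 5386), (nat_lit 23356), (nat_lit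 9339), (nat_lit 0), (nat_lit 0), (nat_lit 0), [], Pd.none, Pd.none, (nat_lit 0), (nat_lit 1), (nat_lit 0), (nat_lit 0), (nat_lit 6), (nat_lit 0), [⟨(nat_lit 0), (nat_lit 100), (nat_lit 71), (nat_lit 100), (nat_lit 9096076961)⟩], [], [], [],
 ⟨⟨[(nat_lit 40), (nat_lit 80), (nat_lit 120)], [(nat_lit 0), (nat_lit 795), (nat_lit 2800)], [((nat_lit 0), (nat_lit 0), (nat_lit 0)), ((nat_lit 1000), (nat_lit 814), (nat_lit 310)), ((nat_lit 1000), (nat_lit 719), (nat_lit 783))], ((nat_lit 71), (nat_lit 100), (nat_lit 71))⟩, (nat_lit 2415369), (nat_lit 145), (nat_lit 145), (nat_lit 0), (nat_lit 114892), [(nat_lit 2418693035), (nat_lit 5169398109), (nat_lit 7968000000)], [], [(nat_lit 21667121835), (nat_lit 23466365481), (nat_lit 21645790970), (nat_lit 23416441638), (nat_lit 26451372974), (nat_lit 28104052021), (nat_lit 26327766963), (nat_lit 27938758386)], (nat_lit 1271251), (nat_lit 1271251), (nat_lit 631250), (nat_lit 780000), (nat_lit 1271251), (nat_lit 1271251),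 [(nat_lit 490000), (nat_lit 1100000), (nat_lit 1785001)], [(nat_lit 4), (nat_lit 51), (nat_lit 238), (nat_lit 30), (nat_lit 7)]⟩,
 ⟨⟨[(nat_lit 80), (nat_lit 120), (nat_lit 160)], [(nat_lit 0), (nat_lit 528), (nat_lit 2577)], [((nat_lit 0), (nat_lit 0), (nat_lit 0)), ((nat_lit 1000), (nat_lit 959), (nat_lit 206)), ((nat_lit 929), (nat_lit 1000), (nat_lit 742))], ((nat_lit 100), (nat_lit 92), (nat_lit 75))⟩, (nat_lit 0), (nat_lit 222), (nat_lit 222), (nat_lit 0), (nat_lit 168633), [(nat_lit 4688000000), (nat_lit 7968000000), (nat_lit 11872000000)], [], [(nat_lit 20768511651), (nat_lit 23981189398), (nat_lit 19580949192), (nat_lit 22679355000), (nat_lit 44932690740), (nat_lit 47690858629), (nat_lit 43462051733), (nat_lit 45717138283)], (nat_lit 1271251), (nat_lit 1271251), (nat_lit 631250), (nat_lit 780000), (nat_lit 780000), (nat_lit 2826876), [(nat_lit 1100000), (nat_lit 1785001), (nat_lit 1271251)], [(nat_lit 18), (nat_lit 59), (nat_lit 428), (nat_lit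 200), (nat_lit 11)]⟩,
 ⟨⟨[(nat_lit 140), (nat_lit 180), (nat_lit 200)], [(nat_lit 0), (nat_lit 0), (nat_lit 2835)], [((nat_lit 0), (nat_lit 0), (nat_lit 0)), ((nat_lit 0), (nat_lit 0), (nat_lit 0)), ((nat_lit 363), (nat_lit 1000), (nat_lit 798))], ((nat_lit 0), (nat_lit 0), (nat_lit 0))⟩, (nat_lit 199746), (nat_lit 300), (nat_lit 1170), (nat_lit 56700601), (nat_lit 1783497), [(nat_lit 7145292000), (nat_lit 10206108000), (nat_lit 11906400000)], [], [(nat_lit 41573288138), (nat_lit 40098540906), (nat_lit 41067983094), (nat_lit 39531948462), (nat_lit 37381439308), (nat_lit 35872546302), (nat_lit 37104054541), (nat_lit 35520826378)], (nat_lit 780000), (nat_lit 1100000), (nat_lit 1271251), (nat_lit 1271251), (nat_lit 780000), (nat_lit 2826876), [(nat_lit 1977501), (nat_lit 1271251), (nat_lit 1271251)], [(nat_lit 32), (nat_lit 67), (nat_lit 456), (nat_lit 225), (nat_lit 9)]⟩⟩)))) (.leaf ⟨(nat_lit 941), (nat_lit 34), (nat_lit 0), (nat_lit 25), (nat_lit 300000),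 (nat_lit 3121), (nat_lit 497), (nat_lit 361), (nat_lit 0), (nat_lit 0), (nat_lit 594200), [((nat_lit 360), [((nat_lit 39), (nat_lit 2), (nat_lit 867)), ((nat_lit 22), (nat_lit 2), (nat_lit 74))])], ⟨(nat_lit 6), false, false, false, (nat_lit 170), (nat_lit 3162), (nat_lit 3873), [(nat_lit 1382144), (nat_lit 1391788), (nat_lit 1425673), (nat_lit 1436040), (nat_lit 1414421), (nat_lit 1422280), (nat_lit 1457950), (nat_lit 1466533)]⟩, ⟨(nat_lit 6), false, false, true, (nat_lit 240), (nat_lit 3162), (nat_lit 3873), [(nat_lit 1520934), (nat_lit 1516642), (nat_lit 1542727), (nat_lit 1538797), (nat_lit 1666107), (nat_lit 1653787), (nat_lit 1687900), (nat_lit 1675942)]⟩, (nat_lit 4925862), (nat_lit 41415363), (nat_lit 9352702), (nat_lit 16231935), (nat_lit 6), (nat_lit 0), [⟨(nat_lit 0), (nat_lit 100), (nat_lit 69), (nat_lit 96), (nat_lit 8570926070)⟩], [⟨(nat_lit 1), (nat_lit 85), (nat_lit 67), (nat_lit 100), (nat_lit 221003608)⟩], [], [],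
 ⟨⟨[(nat_lit 40), (nat_lit 80), (nat_lit 120)], [(nat_lit 0), (nat_lit 795), (nat_lit 2800)], [((nat_lit 0), (nat_lit 0), (nat_lit 0)), ((nat_lit 1000), (nat_lit 814), (nat_lit 310)), ((nat_lit 1000), (nat_lit 719), (nat_lit 783))], ((nat_lit 71), (nat_lit 100), (nat_lit 71))⟩, (nat_lit 41683), (nat_lit 132), (nat_lit 132), (nat_lit 0), (nat_lit 56789), [(nat_lit 1340680687), (nat_lit 1247589818), (nat_lit 0)], [(nat_lit 0), (nat_lit 0), (nat_lit 129111200)], [(nat_lit 21545583932), (nat_lit 22612521386), (nat_lit 21718697091), (nat_lit 22761224779), (nat_lit 24902101513), (nat_lit 25808173912), (nat_lit 25001110469), (nat_lit 25873640164)], (nat_lit 1271251), (nat_lit 1271251), (nat_lit 631250), (nat_lit 780000), (nat_lit 1271251), (nat_lit 1271251), [(nat_lit 490000), (nat_lit 1100000), (nat_lit 1785001)], [(nat_lit 4), (nat_lit 51), (nat_lit 238), (nat_lit 30), (nat_lit 7)]⟩,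
 ⟨⟨[(nat_lit 80), (nat_lit 120), (nat_lit 160)], [(nat_lit 0), (nat_lit 0), (nat_lit 2132)], [((nat_lit 0), (nat_lit 0), (nat_lit 0)), ((nat_lit 0), (nat_lit 0), (nat_lit 0)), ((nat_lit 858), (nat_lit 1000), (nat_lit 713))], ((nat_lit 100), (nat_lit 85), (nat_lit 73))⟩, (nat_lit 0), (nat_lit 331), (nat_lit 331), (nat_lit 0), (nat_lit 87494), [(nat_lit 276592000), (nat_lit 470112000), (nat_lit 700448000)], [], [(nat_lit 2423277946), (nat_lit 2317887950), (nat_lit 2162504664), (nat_lit 2301110283), (nat_lit 3077155691), (nat_lit 2645141112), (nat_lit 3190642933), (nat_lit 2761279291)], (nat_lit 1271251), (nat_lit 1271251), (nat_lit 631250), (nat_lit 780000), (nat_lit 0), (nat_lit 2613125), [(nat_lit 1100000), (nat_lit 1785001), (nat_lit 1271251)], [(nat_lit 18), (nat_lit 59), (nat_lit 428), (nat_lit 200), (nat_lit 11)]⟩,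
 ⟨⟨[(nat_lit 120), (nat_lit 160), (nat_lit 200)], [(nat_lit 0), (nat_lit 0), (nat_lit 3198)], [((nat_lit 0), (nat_lit 0), (nat_lit 0)), ((nat_lit 0), (nat_lit 0), (nat_lit 0)), ((nat_lit 572), (nat_lit 1000), (nat_lit 714))], ((nat_lit 0), (nat_lit 0), (nat_lit 0))⟩, (nat_lit 12195), (nat_lit 300), (nat_lit 649), (nat_lit 1855002), (nat_lit 480579), [(nat_lit 199200000), (nat_lit 296800000), (nat_lit 410000000)], [], [(nat_lit 1530274856), (nat_lit 1518149701), (nat_lit 1570568584), (nat_lit 1554423664), (nat_lit 1280332596), (nat_lit 1386882721), (nat_lit 1156884793), (nat_lit 1142713210)], (nat_lit 1100000), (nat_lit 1271251), (nat_lit 1271251), (nat_lit 1271251), (nat_lit 0), (nat_lit 2613125), [(nat_lit 1695001), (nat_lit 1271251), (nat_lit 1271251)], [(nat_lit 29), (nat_lit 66), (nat_lit 456), (nat_lit 225), (nat_lit 10)]⟩⟩))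
noncomputable def c8_31 : Tr Lf :=
 (.spl (nat_lit 1) (nat_lit 280) (.spl (nat_lit 6) (nat_lit 32) (.spl (nat_lit 5) (nat_lit 120) (.spl (nat_lit 6) (nat_lit 16) (.leaf ⟨(nat_lit 0), (nat_lit 592), (nat_lit 0), (nat_lit 408), (nat_lit 0), (nat_lit 4046), (nat_lit 16692), (nat_lit 4325), (nat_lit 0), (nat_lit 0), (nat_lit 0), [], Pd.none, Pd.none, (nat_lit 0), (nat_lit 1), (nat_lit 0), (nat_lit 0), (nat_lit 6), (nat_lit 0), [⟨(nat_lit 0), (nat_lit 100), (nat_lit 73), (nat_lit 85), (nat_lit 2231672282)⟩], [⟨(nat_lit 1), (nat_lit 75), (nat_lit 66), (nat_lit 100), (nat_lit 127260680)⟩], [⟨(nat_lit 0), (nat_lit 100), (nat_lit 95), (nat_lit 30), (nat_lit 33625037)⟩], [],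
 ⟨⟨[(nat_lit 40), (nat_lit 60), (nat_lit 80)], [(nat_lit 0), (nat_lit 398), (nat_lit 992)], [((nat_lit 0), (nat_lit 0), (nat_lit 0)), ((nat_lit 1000), (nat_lit 814), (nat_lit 310)), ((nat_lit 1000), (nat_lit 752), (nat_lit 464))], ((nat_lit 77), (nat_lit 100), (nat_lit 42))⟩, (nat_lit 10430809), (nat_lit 194), (nat_lit 194), (nat_lit 0), (nat_lit 345237), [(nat_lit 2032000011), (nat_lit 3673473121), (nat_lit 4688000000)], [], [(nat_lit 21600487174), (nat_lit 22974404920), (nat_lit 22006753729), (nat_lit 23313264094), (nat_lit 27727866035), (nat_lit 29021109054), (nat_lit 27626963283), (nat_lit 28861364856)], (nat_lit 1271251), (nat_lit 1271251), (nat_lit 490000), (nat_lit 780000), (nat_lit 1271251), (nat_lit 1271251), [(nat_lit 490000), (nat_lit 780000), (nat_lit 1100000)], [(nat_lit 2), (nat_lit 44), (nat_lit 238), (nat_lit 30), (nat_lit 9)]⟩,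
 ⟨⟨[(nat_lit 80), (nat_lit 100), (nat_lit 120)], [(nat_lit 0), (nat_lit 0), (nat_lit 511)], [((nat_lit 0), (nat_lit 0), (nat_lit 0)), ((nat_lit 0), (nat_lit 0), (nat_lit 0)), ((nat_lit 1000), (nat_lit 997), (nat_lit 383))], ((nat_lit 100), (nat_lit 100), (nat_lit 40))⟩, (nat_lit 1457288), (nat_lit 270), (nat_lit 270), (nat_lit 0), (nat_lit 274424), [(nat_lit 4688000000), (nat_lit 6250000000), (nat_lit 7968000000)], [], [(nat_lit 24463869888), (nat_lit 27076585104), (nat_lit 16430237808), (nat_lit 25700988216), (nat_lit 18531218440), (nat_lit 10564222696), (nat_lit 23211945156), (nat_lit 9743245466)], (nat_lit 1271251), (nat_lit 1271251), (nat_lit 490000), (nat_lit 780000), (nat_lit 0), (nat_lit 780000), [(nat_lit 1100000), (nat_lit 1442501), (nat_lit 1271251)], [(nat_lit 16), (nat_lit 54), (nat_lit 272), (nat_lit 60), (nat_lit 9)]⟩,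
 ⟨⟨[(nat_lit 120), (nat_lit 140), (nat_lit 160)], [(nat_lit 0), (nat_lit 266), (nat_lit 862)], [((nat_lit 0), (nat_lit 0), (nat_lit 0)), ((nat_lit 960), (nat_lit 1000), (nat_lit 200)), ((nat_lit 874), (nat_lit 1000), (nat_lit 406))], ((nat_lit 100), (nat_lit 88), (nat_lit 39))⟩, (nat_lit 1821158), (nat_lit 300), (nat_lit 961), (nat_lit 27091200), (nat_lit 1470059), [(nat_lit 3250944000), (nat_lit 4015536000), (nat_lit 4843776000)], [], [(nat_lit 19550449028), (nat_lit 19200599220), (nat_lit 19728488470), (nat_lit 19486335426), (nat_lit 16803691872), (nat_lit 16435448923), (nat_lit 16728111242), (nat_lit 16383443491)], (nat_lit 1271251), (nat_lit 1271251), (nat_lit 1271251), (nat_lit 1271251), (nat_lit 0), (nat_lit 780000), [(nat_lit 1695001), (nat_lit 1271251), (nat_lit 1271251)], [(nat_lit 27), (nat_lit 62), (nat_lit 401), (nat_lit 175), (nat_lit 10)]⟩⟩) (.spl (nat_lit 1) (nat_lit 260) (.leaf ⟨(nat_lit 174), (nat_lit 315), (nat_lit 0), (nat_lit 511),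 (nat_lit 0), (nat_lit 4027), (nat_lit 25568), (nat_lit 5906), (nat_lit 0), (nat_lit 0), (nat_lit 243000), [((nat_lit 360), [((nat_lit 21), (nat_lit 2), (nat_lit 151)), ((nat_lit 39), (nat_lit 5), (nat_lit 23))])], ⟨(nat_lit 6), false, false, false, (nat_lit 159), (nat_lit 3162), (nat_lit 3873), [(nat_lit 1349867), (nat_lit 1361295), (nat_lit 1371632), (nat_lit 1383421), (nat_lit 1414421), (nat_lit 1422280), (nat_lit 1436185), (nat_lit 1444407)]⟩, ⟨(nat_lit 6), false, true, true, (nat_lit 263), (nat_lit 3162), (nat_lit 3873), [(nat_lit 1542727), (nat_lit 1538797), (nat_lit 1586313), (nat_lit 1583107), (nat_lit 1736292), (nat_lit 1721657), (nat_lit 1779878), (nat_lit 1765967)]⟩, (nat_lit 4940689), (nat_lit 40240935), (nat_lit 8300438), (nat_lit 18458627), (nat_lit 6), (nat_lit 0), [⟨(nat_lit 0), (nat_lit 100), (nat_lit 63), (nat_lit 99), (nat_lit 1365067473)⟩], [], [⟨(nat_lit 0), (nat_lit 100), (nat_lit 98), (nat_lit 10), (nat_lit 69013144)⟩], [],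
 ⟨⟨[(nat_lit 40), (nat_lit 60), (nat_lit 80)], [(nat_lit 0), (nat_lit 398), (nat_lit 992)], [((nat_lit 0), (nat_lit 0), (nat_lit 0)), ((nat_lit 1000), (nat_lit 814), (nat_lit 310)), ((nat_lit 1000), (nat_lit 752), (nat_lit 464))], ((nat_lit 73), (nat_lit 100), (nat_lit 55))⟩, (nat_lit 2208867), (nat_lit 146), (nat_lit 146), (nat_lit 0), (nat_lit 188416), [(nat_lit 1870256394), (nat_lit 2733112813), (nat_lit 3580225200)], [(nat_lit 0), (nat_lit 0), (nat_lit 0)], [(nat_lit 20839823805), (nat_lit 22213369818), (nat_lit 21164554289), (nat_lit 22362656905), (nat_lit 27698928608), (nat_lit 28989248923), (nat_lit 27601187950), (nat_lit 28833943372)], (nat_lit 1271251), (nat_lit 1271251), (nat_lit 490000), (nat_lit 780000), (nat_lit 1271251), (nat_lit 1271251), [(nat_lit 490000), (nat_lit 780000), (nat_lit 1100000)], [(nat_lit 2), (nat_lit 44), (nat_lit 238), (nat_lit 30), (nat_lit 9)]⟩,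
 ⟨⟨[(nat_lit 80), (nat_lit 120), (nat_lit 140)], [(nat_lit 0), (nat_lit 0), (nat_lit 1164)], [((nat_lit 0), (nat_lit 0), (nat_lit 0)), ((nat_lit 0), (nat_lit 0), (nat_lit 0)), ((nat_lit 941), (nat_lit 1000), (nat_lit 576))], ((nat_lit 100), (nat_lit 95), (nat_lit 55))⟩, (nat_lit 0), (nat_lit 290), (nat_lit 290), (nat_lit 0), (nat_lit 165614), [(nat_lit 3872288000), (nat_lit 6581568000), (nat_lit 8129492000)], [], [(nat_lit 22284446128), (nat_lit 27002963768), (nat_lit 22611578712), (nat_lit 24420213575), (nat_lit 25811817240), (nat_lit 14001395544), (nat_lit 32808013848), (nat_lit 21150239504)], (nat_lit 1271251), (nat_lit 1271251), (nat_lit 490000), (nat_lit 780000), (nat_lit 0), (nat_lit 780000), [(nat_lit 1100000), (nat_lit 1785001), (nat_lit 1271251)], [(nat_lit 17), (nat_lit 58), (nat_lit 345), (nat_lit 125), (nat_lit 10)]⟩,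
 ⟨⟨[(nat_lit 120), (nat_lit 160), (nat_lit 180)], [(nat_lit 0), (nat_lit 533), (nat_lit 2066)], [((nat_lit 0), (nat_lit 0), (nat_lit 0)), ((nat_lit 960), (nat_lit 1000), (nat_lit 200)), ((nat_lit 615), (nat_lit 1000), (nat_lit 729))], ((nat_lit 100), (nat_lit 79), (nat_lit 55))⟩, (nat_lit 1196488), (nat_lit 300), (nat_lit 721), (nat_lit 33930400), (nat_lit 786233), [(nat_lit 4071648000), (nat_lit 6066592000), (nat_lit 7183638000)], [], [(nat_lit 26635423599), (nat_lit 26243318237), (nat_lit 27276111331), (nat_lit 26946437320), (nat_lit 22350144772), (nat_lit 21798582379), (nat_lit 22626628302), (nat_lit 22106762158)], (nat_lit 1271251), (nat_lit 1271251), (nat_lit 1271251), (nat_lit 1271251), (nat_lit 0), (nat_lit 780000), [(nat_lit 1695001), (nat_lit 1271251), (nat_lit 1271251)], [(nat_lit 28), (nat_lit 65), (nat_lit 401), (nat_lit 175), (nat_lit 9)]⟩⟩) (.trZ (nat_lit 0) (nat_lit 1) (nat_lit 3) (nat_lit 100) (nat_lit 75) (nat_lit 92) (nat_lit 100)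 (.leaf ⟨(nat_lit 0), (nat_lit 628), (nat_lit 0), (nat_lit 372), (nat_lit 0), (nat_lit 3927), (nat_lit 5072), (nat_lit 4284), (nat_lit 0), (nat_lit 0), (nat_lit 0), [], Pd.none, Pd.none, (nat_lit 0), (nat_lit 1), (nat_lit 0), (nat_lit 0), (nat_lit 6), (nat_lit 0), [⟨(nat_lit 0), (nat_lit 100), (nat_lit 71), (nat_lit 100), (nat_lit 593760909)⟩, ⟨(nat_lit 0), (nat_lit 100), (nat_lit 75), (nat_lit 92), (nat_lit 1118332564)⟩], [⟨(nat_lit 1), (nat_lit 75), (nat_lit 66), (nat_lit 100), (nat_lit 178649415)⟩], [⟨(nat_lit 0), (nat_lit 100), (nat_lit 96), (nat_lit 20), (nat_lit 382030702)⟩], [],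
 ⟨⟨[(nat_lit 40), (nat_lit 60), (nat_lit 80)], [(nat_lit 0), (nat_lit 398), (nat_lit 992)], [((nat_lit 0), (nat_lit 0), (nat_lit 0)), ((nat_lit 1000), (nat_lit 814), (nat_lit 310)), ((nat_lit 1000), (nat_lit 752), (nat_lit 464))], ((nat_lit 73), (nat_lit 100), (nat_lit 55))⟩, (nat_lit 2802771), (nat_lit 152), (nat_lit 152), (nat_lit 0), (nat_lit 223073), [(nat_lit 2032000017), (nat_lit 3282000014), (nat_lit 4688000000)], [], [(nat_lit 22206267111), (nat_lit 23419666351), (nat_lit 22374777753), (nat_lit 23558359569), (nat_lit 27508938729), (nat_lit 28755591898), (nat_lit 27471251100), (nat_lit 28689619772)], (nat_lit 1271251), (nat_lit 1271251), (nat_lit 631250), (nat_lit 780000), (nat_lit 1271251), (nat_lit 1271251), [(nat_lit 490000), (nat_lit 780000), (nat_lit 1100000)], [(nat_lit 2), (nat_lit 44), (nat_lit 238), (nat_lit 30), (nat_lit 9)]⟩,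
 ⟨⟨[(nat_lit 80), (nat_lit 120), (nat_lit 140)], [(nat_lit 0), (nat_lit 528), (nat_lit 1572)], [((nat_lit 0), (nat_lit 0), (nat_lit 0)), ((nat_lit 1000), (nat_lit 959), (nat_lit 206)), ((nat_lit 966), (nat_lit 1000), (nat_lit 679))], ((nat_lit 99), (nat_lit 100), (nat_lit 56))⟩, (nat_lit 4190006), (nat_lit 298), (nat_lit 298), (nat_lit 0), (nat_lit 182937), [(nat_lit 4688000000), (nat_lit 7968000000), (nat_lit 9842000000)], [], [(nat_lit 32869358988), (nat_lit 31109921664), (nat_lit 30227599344), (nat_lit 31204902480), (nat_lit 28420745989), (nat_lit 29314093478), (nat_lit 28532356874), (nat_lit 29401183372)], (nat_lit 1271251), (nat_lit 1271251), (nat_lit 631250), (nat_lit 780000), (nat_lit 0), (nat_lit 780000), [(nat_lit 1100000), (nat_lit 1785001), (nat_lit 1271251)], [(nat_lit 17), (nat_lit 58), (nat_lit 373), (nat_lit 150), (nat_lit 11)]⟩,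
 ⟨⟨[(nat_lit 120), (nat_lit 160), (nat_lit 180)], [(nat_lit 0), (nat_lit 533), (nat_lit 2066)], [((nat_lit 0), (nat_lit 0), (nat_lit 0)), ((nat_lit 960), (nat_lit 1000), (nat_lit 200)), ((nat_lit 615), (nat_lit 1000), (nat_lit 729))], ((nat_lit 100), (nat_lit 79), (nat_lit 55))⟩, (nat_lit 871024), (nat_lit 300), (nat_lit 791), (nat_lit 24700802), (nat_lit 952427), [(nat_lit 2964096000), (nat_lit 4416384000), (nat_lit 5229576000)], [], [(nat_lit 19415715024), (nat_lit 19131793872), (nat_lit 19882224582), (nat_lit 19621005048), (nat_lit 16332094602), (nat_lit 15932779374), (nat_lit 16512472488), (nat_lit 16136212296)], (nat_lit 1271251), (nat_lit 1271251), (nat_lit 1271251), (nat_lit 1271251), (nat_lit 0), (nat_lit 780000), [(nat_lit 1695001), (nat_lit 1271251), (nat_lit 1271251)], [(nat_lit 28), (nat_lit 65), (nat_lit 401), (nat_lit 175), (nat_lit 9)]⟩⟩)))) (.leaf ⟨(nat_lit 885), (nat_lit 0), (nat_lit 0), (nat_lit 115), (nat_lit 0), (nat_lit 3213),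 (nat_lit 1830), (nat_lit 1162), (nat_lit 0), (nat_lit 0), (nat_lit 525400), [((nat_lit 360), [((nat_lit 21), (nat_lit 0), (nat_lit 16)), ((nat_lit 39), (nat_lit 2), (nat_lit 869))])], ⟨(nat_lit 6), false, false, false, (nat_lit 164), (nat_lit 3162), (nat_lit 3873), [(nat_lit 1349867), (nat_lit 1361295), (nat_lit 1393396), (nat_lit 1405548), (nat_lit 1414421), (nat_lit 1422280), (nat_lit 1457950), (nat_lit 1466533)]⟩, ⟨(nat_lit 6), false, true, true, (nat_lit 263), (nat_lit 3162), (nat_lit 3873), [(nat_lit 1542727), (nat_lit 1538797), (nat_lit 1586313), (nat_lit 1583107), (nat_lit 1736292), (nat_lit 1721657), (nat_lit 1779878), (nat_lit 1765967)]⟩, (nat_lit 4979735), (nat_lit 39994785), (nat_lit 8624857), (nat_lit 18380358), (nat_lit 0), (nat_lit 0), [⟨(nat_lit 0), (nat_lit 100), (nat_lit 69), (nat_lit 96), (nat_lit 508992365)⟩], [⟨(nat_lit 1), (nat_lit 75), (nat_lit 66), (nat_lit 100), (nat_lit 177535855)⟩], [], [],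
 ⟨⟨[(nat_lit 40), (nat_lit 60), (nat_lit 80)], [(nat_lit 0), (nat_lit 398), (nat_lit 992)], [((nat_lit 0), (nat_lit 0), (nat_lit 0)), ((nat_lit 1000), (nat_lit 814), (nat_lit 310)), ((nat_lit 1000), (nat_lit 752), (nat_lit 464))], ((nat_lit 73), (nat_lit 100), (nat_lit 55))⟩, (nat_lit 861610), (nat_lit 195), (nat_lit 195), (nat_lit 0), (nat_lit 348288), [(nat_lit 1375692007), (nat_lit 1419065892), (nat_lit 1330443108)], [(nat_lit 0), (nat_lit 0), (nat_lit 0)], [(nat_lit 20992304032), (nat_lit 22116710606), (nat_lit 21429058465), (nat_lit 22556305303), (nat_lit 26459188293), (nat_lit 27624293837), (nat_lit 26543501991), (nat_lit 27659149268)], (nat_lit 1271251), (nat_lit 1271251), (nat_lit 490000), (nat_lit 780000), (nat_lit 1271251), (nat_lit 1271251), [(nat_lit 490000), (nat_lit 780000), (nat_lit 1100000)], [(nat_lit 2), (nat_lit 44), (nat_lit 238), (nat_lit 30), (nat_lit 9)]⟩,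
 ⟨⟨[(nat_lit 80), (nat_lit 120), (nat_lit 140)], [(nat_lit 0), (nat_lit 0), (nat_lit 1164)], [((nat_lit 0), (nat_lit 0), (nat_lit 0)), ((nat_lit 0), (nat_lit 0), (nat_lit 0)), ((nat_lit 941), (nat_lit 1000), (nat_lit 576))], ((nat_lit 100), (nat_lit 95), (nat_lit 55))⟩, (nat_lit 647871), (nat_lit 381), (nat_lit 381), (nat_lit 0), (nat_lit 558968), [(nat_lit 539120000), (nat_lit 916320000), (nat_lit 1131830000)], [], [(nat_lit 4246360000), (nat_lit 2354013730), (nat_lit 2354013730), (nat_lit 1324765345), (nat_lit 5217855090), (nat_lit 4624163448), (nat_lit 5832437578), (nat_lit 4345692159)], (nat_lit 1271251), (nat_lit 1271251), (nat_lit 490000), (nat_lit 780000), (nat_lit 780000), (nat_lit 2826876), [(nat_lit 1100000), (nat_lit 1785001), (nat_lit 1271251)], [(nat_lit 17), (nat_lit 58), (nat_lit 428), (nat_lit 200), (nat_lit 12)]⟩,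
 ⟨⟨[(nat_lit 120), (nat_lit 160), (nat_lit 180)], [(nat_lit 0), (nat_lit 533), (nat_lit 2066)], [((nat_lit 0), (nat_lit 0), (nat_lit 0)), ((nat_lit 960), (nat_lit 1000), (nat_lit 200)), ((nat_lit 615), (nat_lit 1000), (nat_lit 729))], ((nat_lit 100), (nat_lit 79), (nat_lit 55))⟩, (nat_lit 269268), (nat_lit 300), (nat_lit 1310), (nat_lit 7636001), (nat_lit 2269914), [(nat_lit 916320000), (nat_lit 1365280000), (nat_lit 1616670000)], [], [(nat_lit 5848222968), (nat_lit 5718450503), (nat_lit 5663391893), (nat_lit 5533832406), (nat_lit 5224297383), (nat_lit 5101288941), (nat_lit 5127661850), (nat_lit 5006086639)], (nat_lit 1271251), (nat_lit 1271251), (nat_lit 1271251), (nat_lit 1271251), (nat_lit 780000), (nat_lit 2826876), [(nat_lit 1695001), (nat_lit 1271251), (nat_lit 1271251)], [(nat_lit 28), (nat_lit 65), (nat_lit 483), (nat_lit 250), (nat_lit 11)]⟩⟩)) (.stt (nat_lit 2) (.leaf ⟨(nat_lit 0), (nat_lit 613), (nat_lit 0), (nat_lit 387), (nat_lit 34427),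 (nat_lit 4583), (nat_lit 7638), (nat_lit 4373), (nat_lit 0), (nat_lit 0), (nat_lit 0), [], Pd.none, Pd.none, (nat_lit 0), (nat_lit 1), (nat_lit 0), (nat_lit 0), (nat_lit 6), (nat_lit 0), [⟨(nat_lit 0), (nat_lit 100), (nat_lit 69), (nat_lit 96), (nat_lit 2384388250)⟩], [⟨(nat_lit 1), (nat_lit 75), (nat_lit 66), (nat_lit 100), (nat_lit 132271417)⟩], [⟨(nat_lit 0), (nat_lit 100), (nat_lit 95), (nat_lit 30), (nat_lit 16001993)⟩], [],
 ⟨⟨[(nat_lit 40), (nat_lit 80), (nat_lit 120)], [(nat_lit 0), (nat_lit 795), (nat_lit 2800)], [((nat_lit 0), (nat_lit 0), (nat_lit 0)), ((nat_lit 1000), (nat_lit 814), (nat_lit 310)), ((nat_lit 1000), (nat_lit 719), (nat_lit 783))], ((nat_lit 71), (nat_lit 100), (nat_lit 71))⟩, (nat_lit 2210223), (nat_lit 168), (nat_lit 168), (nat_lit 0), (nat_lit 125976), [(nat_lit 2032000008), (nat_lit 4688000004), (nat_lit 7968000000)], [], [(nat_lit 23711333125), (nat_lit 24820925923), (nat_lit 23824564277), (nat_lit 24880915407), (nat_lit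 28545729118), (nat_lit 29921576967), (nat_lit 28324489404), (nat_lit 29636382588)], (nat_lit 1271251), (nat_lit 1271251), (nat_lit 490000), (nat_lit 780000), (nat_lit 1271251), (nat_lit 1271251), [(nat_lit 490000), (nat_lit 1100000), (nat_lit 1785001)], [(nat_lit 4), (nat_lit 51), (nat_lit 238), (nat_lit 30), (nat_lit 7)]⟩,
 ⟨⟨[(nat_lit 80), (nat_lit 120), (nat_lit 160)], [(nat_lit 0), (nat_lit 0), (nat_lit 2132)], [((nat_lit 0), (nat_lit 0), (nat_lit 0)), ((nat_lit 0), (nat_lit 0), (nat_lit 0)), ((nat_lit 858), (nat_lit 1000), (nat_lit 713))], ((nat_lit 100), (nat_lit 85), (nat_lit 73))⟩, (nat_lit 5268882), (nat_lit 238), (nat_lit 238), (nat_lit 0), (nat_lit 0), [(nat_lit 4688000000), (nat_lit 7968000000), (nat_lit 11872000000)], [], [(nat_lit 21050755280), (nat_lit 24414311976), (nat_lit 20828125344), (nat_lit 24007136370), (nat_lit 30341269474), (nat_lit 32275020965), (nat_lit 29785003011), (nat_lit 31608192682)], (nat_lit 0), (nat_lit 0), (nat_lit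 0), (nat_lit 0), (nat_lit 0), (nat_lit 0), [], [(nat_lit 18), (nat_lit 59), (nat_lit 428), (nat_lit 200), (nat_lit 11)]⟩,
 ⟨⟨[(nat_lit 120), (nat_lit 160), (nat_lit 180)], [(nat_lit 0), (nat_lit 533), (nat_lit 2066)], [((nat_lit 0), (nat_lit 0), (nat_lit 0)), ((nat_lit 960), (nat_lit 1000), (nat_lit 200)), ((nat_lit 615), (nat_lit 1000), (nat_lit 729))], ((nat_lit 100), (nat_lit 63), (nat_lit 72))⟩, (nat_lit 906146), (nat_lit 300), (nat_lit 735), (nat_lit 25696802), (nat_lit 818736), [(nat_lit 3083616000), (nat_lit 4594464000), (nat_lit 5440446000)], [], [(nat_lit 20461480508), (nat_lit 20050671892), (nat_lit 20827604731), (nat_lit 20436467740), (nat_lit 20856528156), (nat_lit 17031996375), (nat_lit 16341961877), (nat_lit 15939519375)], (nat_lit 1271251), (nat_lit 1271251), (nat_lit 1271251), (nat_lit 1271251), (nat_lit 0), (nat_lit 2613125), [(nat_lit 1695001), (nat_lit 1271251), (nat_lit 1271251)], [(nat_lit 28), (nat_lit 65), (nat_lit 483), (nat_lit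 250), (nat_lit 11)]⟩⟩) (.spl (nat_lit 0) (nat_lit 350) (.spl (nat_lit 6) (nat_lit 48) (.leaf ⟨(nat_lit 495), (nat_lit 0), (nat_lit 0), (nat_lit 505), (nat_lit 16567), (nat_lit 4107), (nat_lit 3597), (nat_lit 6054), (nat_lit 0), (nat_lit 0), (nat_lit 265200), [((nat_lit 350), [((nat_lit 22), (nat_lit 1), (nat_lit 159)), ((nat_lit 39), (nat_lit 2), (nat_lit 336))])], ⟨(nat_lit 6), false, false, false, (nat_lit 163), (nat_lit 3535), (nat_lit 3873), [(nat_lit 1349991), (nat_lit 1355590), (nat_lit 1393565), (nat_lit 1399483), (nat_lit 1414519), (nat_lit 1418358), (nat_lit 1458093), (nat_lit 1462251)]⟩, ⟨(nat_lit 6), false, true, true, (nat_lit 264), (nat_lit 3535), (nat_lit 3873), [(nat_lit 1542727), (nat_lit 1540807), (nat_lit 1586313), (nat_lit 1584712), (nat_lit 1736292), (nat_lit 1729092), (nat_lit 1779878), (nat_lit 1772997)]⟩, (nat_lit 4974949), (nat_lit 39977514), (nat_lit 8542762), (nat_lit 18479724), (nat_lit 0), (nat_lit 0), [⟨(nat_lit 0), (nat_lit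 100), (nat_lit 72), (nat_lit 94), (nat_lit 1252070259)⟩], [], [⟨(nat_lit 0), (nat_lit 100), (nat_lit 98), (nat_lit 10), (nat_lit 184411802)⟩], [],
 ⟨⟨[(nat_lit 40), (nat_lit 80), (nat_lit 100)], [(nat_lit 0), (nat_lit 795), (nat_lit 1829)], [((nat_lit 0), (nat_lit 0), (nat_lit 0)), ((nat_lit 1000), (nat_lit 814), (nat_lit 310)), ((nat_lit 1000), (nat_lit 714), (nat_lit 692))], ((nat_lit 72), (nat_lit 100), (nat_lit 65))⟩, (nat_lit 1475858), (nat_lit 135), (nat_lit 135), (nat_lit 0), (nat_lit 84049), [(nat_lit 1635534510), (nat_lit 2893052035), (nat_lit 3503908000)], [(nat_lit 0), (nat_lit 0), (nat_lit 0)], [(nat_lit 20512943147), (nat_lit 21401505843), (nat_lit 20738641992), (nat_lit 21579433449), (nat_lit 27820770408), (nat_lit 28472083626), (nat_lit 27705137430), (nat_lit 28327269841)], (nat_lit 1271251), (nat_lit 1271251), (nat_lit 490000), (nat_lit 780000), (nat_lit 1271251), (nat_lit 1271251), [(nat_lit 490000), (nat_lit 1100000), (nat_lit 1442501)],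 [(nat_lit 3), (nat_lit 50), (nat_lit 238), (nat_lit 30), (nat_lit 8)]⟩,
 ⟨⟨[(nat_lit 80), (nat_lit 120), (nat_lit 160)], [(nat_lit 0), (nat_lit 0), (nat_lit 2132)], [((nat_lit 0), (nat_lit 0), (nat_lit 0)), ((nat_lit 0), (nat_lit 0), (nat_lit 0)), ((nat_lit 858), (nat_lit 1000), (nat_lit 713))], ((nat_lit 100), (nat_lit 89), (nat_lit 66))⟩, (nat_lit 452211), (nat_lit 355), (nat_lit 355), (nat_lit 0), (nat_lit 126912), [(nat_lit 2367440000), (nat_lit 4023840000), (nat_lit 5995360000)], [], [(nat_lit 21972754112), (nat_lit 19288933576), (nat_lit 18197978036), (nat_lit 19109557542), (nat_lit 25380854506), (nat_lit 22234995641), (nat_lit 26993315641), (nat_lit 23885828674)], (nat_lit 1271251), (nat_lit 1271251), (nat_lit 490000), (nat_lit 780000), (nat_lit 0), (nat_lit 2613125), [(nat_lit 1100000), (nat_lit 1785001), (nat_lit 1271251)], [(nat_lit 18), (nat_lit 59), (nat_lit 428), (nat_lit 200), (nat_lit 11)]⟩,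
 ⟨⟨[(nat_lit 120), (nat_lit 160), (nat_lit 180)], [(nat_lit 0), (nat_lit 533), (nat_lit 2066)], [((nat_lit 0), (nat_lit 0), (nat_lit 0)), ((nat_lit 960), (nat_lit 1000), (nat_lit 200)), ((nat_lit 615), (nat_lit 1000), (nat_lit 729))], ((nat_lit 100), (nat_lit 69), (nat_lit 65))⟩, (nat_lit 1182439), (nat_lit 300), (nat_lit 484), (nat_lit 33532001), (nat_lit 337560), [(nat_lit 4023840000), (nat_lit 5995360000), (nat_lit 7099290000)], [], [(nat_lit 24668839215), (nat_lit 24572375570), (nat_lit 26920120862), (nat_lit 26567966921), (nat_lit 27391064514), (nat_lit 22096366275), (nat_lit 20733076075), (nat_lit 20156304226)], (nat_lit 1271251), (nat_lit 1271251), (nat_lit 1271251), (nat_lit 1271251), (nat_lit 0), (nat_lit 2613125), [(nat_lit 1695001), (nat_lit 1271251), (nat_lit 1271251)], [(nat_lit 28), (nat_lit 65), (nat_lit 483), (nat_lit 250), (nat_lit 11)]⟩⟩) (.dle (nat_lit 0))) (.trZ (nat_lit 0) (nat_lit 1) (nat_lit 3) (nat_lit 100) (nat_lit 68) (nat_lit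 89) (nat_lit 100) (.trX (nat_lit 4) (nat_lit 0) (nat_lit 2) (nat_lit 66) (nat_lit 68) (nat_lit 100) (nat_lit 350) (.leaf ⟨(nat_lit 383), (nat_lit 154), (nat_lit 0), (nat_lit 463), (nat_lit 9648), (nat_lit 3917), (nat_lit 5198), (nat_lit 6453), (nat_lit 0), (nat_lit 0), (nat_lit 95750), [((nat_lit 360), [((nat_lit 22), (nat_lit 0), (nat_lit 383))])], ⟨(nat_lit 6), false, false, false, (nat_lit 171), (nat_lit 3162), (nat_lit 3536), [(nat_lit 1386958), (nat_lit 1391883), (nat_lit 1430847), (nat_lit 1436176), (nat_lit 1418344), (nat_lit 1422365), (nat_lit 1462233), (nat_lit 1466658)]⟩, ⟨(nat_lit 6), false, true, true, (nat_lit 259), (nat_lit 3162), (nat_lit 3536), [(nat_lit 1540807), (nat_lit 1538797), (nat_lit 1584713), (nat_lit 1583107), (nat_lit 1713401), (nat_lit 1706419), (nat_lit 1757306), (nat_lit 1750729)]⟩, (nat_lit 5024817), (nat_lit 39897100), (nat_lit 9210266), (nat_lit 17892634), (nat_lit 6), (nat_lit 0), [⟨(nat_lit 0), (nat_lit 100), (nat_lit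 66), (nat_lit 97), (nat_lit 1720826919)⟩], [], [⟨(nat_lit 0), (nat_lit 100), (nat_lit 98), (nat_lit 10), (nat_lit 89560709)⟩], [],
 ⟨⟨[(nat_lit 40), (nat_lit 80), (nat_lit 100)], [(nat_lit 0), (nat_lit 1195), (nat_lit 2166)], [((nat_lit 0), (nat_lit 0), (nat_lit 0)), ((nat_lit 1000), (nat_lit 720), (nat_lit 465)), ((nat_lit 1000), (nat_lit 662), (nat_lit 740))], ((nat_lit 66), (nat_lit 100), (nat_lit 72))⟩, (nat_lit 1358701), (nat_lit 139), (nat_lit 139), (nat_lit 0), (nat_lit 124048), [(nat_lit 1710126805), (nat_lit 3768492601), (nat_lit 4748946400)], [(nat_lit 0), (nat_lit 0), (nat_lit 0)], [(nat_lit 22403956205), (nat_lit 23077293479), (nat_lit 22531627023), (nat_lit 23171272886), (nat_lit 27476431110), (nat_lit 28117409123), (nat_lit 27440455709), (nat_lit 28066722414)], (nat_lit 1271251), (nat_lit 1271251), (nat_lit 631250), (nat_lit 780000), (nat_lit 1271251), (nat_lit 1271251), [(nat_lit 490000), (nat_lit 1100000), (nat_lit 1442501)], [(nat_lit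 3), (nat_lit 50), (nat_lit 238), (nat_lit 30), (nat_lit 8)]⟩,
 ⟨⟨[(nat_lit 80), (nat_lit 120), (nat_lit 160)], [(nat_lit 0), (nat_lit 0), (nat_lit 2132)], [((nat_lit 0), (nat_lit 0), (nat_lit 0)), ((nat_lit 0), (nat_lit 0), (nat_lit 0)), ((nat_lit 858), (nat_lit 1000), (nat_lit 713))], ((nat_lit 100), (nat_lit 85), (nat_lit 73))⟩, (nat_lit 0), (nat_lit 373), (nat_lit 373), (nat_lit 0), (nat_lit 195246), [(nat_lit 2892496000), (nat_lit 4916256000), (nat_lit 7325024000)], [], [(nat_lit 25342296004), (nat_lit 24239332271), (nat_lit 22614603920), (nat_lit 24063831855), (nat_lit 32179927972), (nat_lit 27661594411), (nat_lit 33366823450), (nat_lit 28876215372)], (nat_lit 1271251), (nat_lit 1271251), (nat_lit 631250), (nat_lit 780000), (nat_lit 0), (nat_lit 2613125), [(nat_lit 1100000), (nat_lit 1785001), (nat_lit 1271251)], [(nat_lit 18), (nat_lit 59), (nat_lit 428), (nat_lit 200), (nat_lit 11)]⟩,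
 ⟨⟨[(nat_lit 120), (nat_lit 160), (nat_lit 180)], [(nat_lit 0), (nat_lit 533), (nat_lit 2066)], [((nat_lit 0), (nat_lit 0), (nat_lit 0)), ((nat_lit 960), (nat_lit 1000), (nat_lit 200)), ((nat_lit 615), (nat_lit 1000), (nat_lit 729))], ((nat_lit 100), (nat_lit 63), (nat_lit 72))⟩, (nat_lit 1084098), (nat_lit 300), (nat_lit 601), (nat_lit 30743200), (nat_lit 544998), [(nat_lit 3689184000), (nat_lit 5496736000), (nat_lit 6508854000)], [], [(nat_lit 22345814386), (nat_lit 22181233142), (nat_lit 24271322921), (nat_lit 23863684476), (nat_lit 25567793332), (nat_lit 19924138271), (nat_lit 18834937368), (nat_lit 18802666328)], (nat_lit 1271251), (nat_lit 1271251), (nat_lit 1271251), (nat_lit 1271251), (nat_lit 0), (nat_lit 2613125), [(nat_lit 1695001), (nat_lit 1271251), (nat_lit 1271251)], [(nat_lit 28), (nat_lit 65), (nat_lit 483), (nat_lit 250), (nat_lit 11)]⟩⟩)))))) (.emL (nat_lit 0) (nat_lit 1) (nat_lit 3) (nat_lit 99) (nat_lit 77) (nat_lit 100)))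
noncomputable def c8_32 : Tr Lf :=
 (.spl (nat_lit 6) (nat_lit 16) (.leaf ⟨(nat_lit 0), (nat_lit 662), (nat_lit 0), (nat_lit 338), (nat_lit 0), (nat_lit 4759), (nat_lit 6127), (nat_lit 3998), (nat_lit 0), (nat_lit 0), (nat_lit 0), [], Pd.none, Pd.none, (nat_lit 0), (nat_lit 1), (nat_lit 0), (nat_lit 0), (nat_lit 3), (nat_lit 0), [⟨(nat_lit 0), (nat_lit 80), (nat_lit 60), (nat_lit 100), (nat_lit 241776581)⟩], [], [], [],
 ⟨⟨[(nat_lit 40), (nat_lit 60), (nat_lit 80)], [(nat_lit 0), (nat_lit 398), (nat_lit 992)], [((nat_lit 0), (nat_lit 0), (nat_lit 0)), ((nat_lit 1000), (nat_lit 814), (nat_lit 310)), ((nat_lit 1000), (nat_lit 752), (nat_lit 464))], ((nat_lit 77), (nat_lit 100), (nat_lit 42))⟩, (nat_lit 629032), (nat_lit 300), (nat_lit 343), (nat_lit 50800004), (nat_lit 816276), [(nat_lit 2032000003), (nat_lit 3282000031), (nat_lit 4688000000)], [], [(nat_lit 28922051513), (nat_lit 30006637038), (nat_lit 35953029076), (nat_lit 36584351438), (nat_lit 34485296905),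 (nat_lit 35184981749), (nat_lit 41072761478), (nat_lit 39084801064)], (nat_lit 1271251), (nat_lit 1271251), (nat_lit 780000), (nat_lit 3072501), (nat_lit 780000), (nat_lit 2745001), [(nat_lit 490000), (nat_lit 780000), (nat_lit 1100000)], [(nat_lit 2), (nat_lit 44), (nat_lit 428), (nat_lit 200), (nat_lit 19)]⟩,
 ⟨⟨[(nat_lit 80), (nat_lit 100), (nat_lit 120)], [(nat_lit 0), (nat_lit 0), (nat_lit 511)], [((nat_lit 0), (nat_lit 0), (nat_lit 0)), ((nat_lit 0), (nat_lit 0), (nat_lit 0)), ((nat_lit 1000), (nat_lit 997), (nat_lit 383))], ((nat_lit 100), (nat_lit 100), (nat_lit 40))⟩, (nat_lit 5504478), (nat_lit 199), (nat_lit 199), (nat_lit 0), (nat_lit 0), [(nat_lit 4688000000), (nat_lit 6250000000), (nat_lit 7968000000)], [], [(nat_lit 19770940842), (nat_lit 25839278640), (nat_lit 34558112588), (nat_lit 38415608472), (nat_lit 30493636978), (nat_lit 33243928312), (nat_lit 36932672012), (nat_lit 38606322568)], (nat_lit 0), (nat_lit 0), (nat_lit 0), (nat_lit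 0), (nat_lit 0), (nat_lit 0), [], [(nat_lit 16), (nat_lit 54), (nat_lit 428), (nat_lit 200), (nat_lit 14)]⟩,
 ⟨⟨[(nat_lit 140), (nat_lit 160), (nat_lit 180)], [(nat_lit 0), (nat_lit 0), (nat_lit 799)], [((nat_lit 0), (nat_lit 0), (nat_lit 0)), ((nat_lit 0), (nat_lit 0), (nat_lit 0)), ((nat_lit 728), (nat_lit 1000), (nat_lit 454))], ((nat_lit 100), (nat_lit 75), (nat_lit 43))⟩, (nat_lit 296966), (nat_lit 300), (nat_lit 392), (nat_lit 25079601), (nat_lit 0), [(nat_lit 3326596000), (nat_lit 4012736000), (nat_lit 4751604000)], [], [(nat_lit 18622776692), (nat_lit 18219118046), (nat_lit 19656159992), (nat_lit 18746646416), (nat_lit 16883125184), (nat_lit 15901087995), (nat_lit 15989522612), (nat_lit 14929447798)], (nat_lit 0), (nat_lit 0), (nat_lit 0), (nat_lit 0), (nat_lit 0), (nat_lit 0), [], [(nat_lit 31), (nat_lit 65), (nat_lit 483), (nat_lit 250), (nat_lit 12)]⟩⟩) (.leaf ⟨(nat_lit 0), (nat_lit 694), (nat_lit 0), (nat_lit 306), (nat_lit 0), (nat_lit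 4165), (nat_lit 6646), (nat_lit 3884), (nat_lit 0), (nat_lit 0), (nat_lit 0), [], Pd.none, Pd.none, (nat_lit 0), (nat_lit 1), (nat_lit 0), (nat_lit 0), (nat_lit 3), (nat_lit 0), [⟨(nat_lit 0), (nat_lit 80), (nat_lit 60), (nat_lit 100), (nat_lit 154377083)⟩], [⟨(nat_lit 1), (nat_lit 85), (nat_lit 67), (nat_lit 100), (nat_lit 29097681)⟩], [], [],
 ⟨⟨[(nat_lit 40), (nat_lit 60), (nat_lit 80)], [(nat_lit 0), (nat_lit 398), (nat_lit 992)], [((nat_lit 0), (nat_lit 0), (nat_lit 0)), ((nat_lit 1000), (nat_lit 814), (nat_lit 310)), ((nat_lit 1000), (nat_lit 752), (nat_lit 464))], ((nat_lit 73), (nat_lit 100), (nat_lit 55))⟩, (nat_lit 1316463), (nat_lit 282), (nat_lit 282), (nat_lit 0), (nat_lit 637209), [(nat_lit 2032000003), (nat_lit 3282000005), (nat_lit 4688000000)], [], [(nat_lit 24645105126), (nat_lit 25415408110), (nat_lit 32591697077), (nat_lit 33299865937), (nat_lit 30956117287), (nat_lit 31737366837), (nat_lit 40732459223), (nat_lit 38992628350)],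 (nat_lit 1271251), (nat_lit 1271251), (nat_lit 780000), (nat_lit 3072501), (nat_lit 780000), (nat_lit 2745001), [(nat_lit 490000), (nat_lit 780000), (nat_lit 1100000)], [(nat_lit 2), (nat_lit 44), (nat_lit 428), (nat_lit 200), (nat_lit 19)]⟩,
 ⟨⟨[(nat_lit 80), (nat_lit 120), (nat_lit 140)], [(nat_lit 0), (nat_lit 0), (nat_lit 1164)], [((nat_lit 0), (nat_lit 0), (nat_lit 0)), ((nat_lit 0), (nat_lit 0), (nat_lit 0)), ((nat_lit 941), (nat_lit 1000), (nat_lit 576))], ((nat_lit 100), (nat_lit 95), (nat_lit 55))⟩, (nat_lit 2542494), (nat_lit 230), (nat_lit 230), (nat_lit 0), (nat_lit 0), [(nat_lit 4688000000), (nat_lit 7968000000), (nat_lit 9842000000)], [], [(nat_lit 23784600356), (nat_lit 29463158636), (nat_lit 38135510440), (nat_lit 41055028936), (nat_lit 32821879524), (nat_lit 35579743240), (nat_lit 38768753296), (nat_lit 39961581696)], (nat_lit 0), (nat_lit 0), (nat_lit 0), (nat_lit 0), (nat_lit 0), (nat_lit 0), [], [(nat_lit 17), (nat_lit 58), (nat_lit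 538), (nat_lit 300), (nat_lit 16)]⟩,
 ⟨⟨[(nat_lit 140), (nat_lit 180), (nat_lit 200)], [(nat_lit 0), (nat_lit 0), (nat_lit 2835)], [((nat_lit 0), (nat_lit 0), (nat_lit 0)), ((nat_lit 0), (nat_lit 0), (nat_lit 0)), ((nat_lit 363), (nat_lit 1000), (nat_lit 798))], ((nat_lit 0), (nat_lit 0), (nat_lit 0))⟩, (nat_lit 84190), (nat_lit 300), (nat_lit 491), (nat_lit 23898607), (nat_lit 0), [(nat_lit 3011652000), (nat_lit 4301748000), (nat_lit 5018400000)], [], [(nat_lit 21075030025), (nat_lit 20111423362), (nat_lit 20688849572), (nat_lit 19492591321), (nat_lit 17578159008), (nat_lit 16366488601), (nat_lit 16019617392), (nat_lit 14712869871)], (nat_lit 0), (nat_lit 0), (nat_lit 0), (nat_lit 0), (nat_lit 0), (nat_lit 0), [], [(nat_lit 32), (nat_lit 67), (nat_lit 483), (nat_lit 250), (nat_lit 11)]⟩⟩))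
def l010 : List St := [⟨⟨(nat_lit 340), (nat_lit 360), (nat_lit 240), (nat_lit 320), (nat_lit 120), (nat_lit 220), (nat_lit 80), (nat_lit 400), (nat_lit 10), (nat_lit 120), (nat_lit 0), (nat_lit 400), (nat_lit 0), (nat_lit 32)⟩, (nat_lit 3), (nat_lit 0), (nat_lit 3), false, true, false⟩,
  ⟨⟨(nat_lit 340), (nat_lit 360), (nat_lit 240), (nat_lit 280), (nat_lit 120), (nat_lit 220), (nat_lit 80), (nat_lit 240), (nat_lit 10), (nat_lit 120), (nat_lit 0), (nat_lit 400), (nat_lit 0), (nat_lit 32)⟩, (nat_lit 3), (nat_lit 1), (nat_lit 3), false, true, false⟩,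
  ⟨⟨(nat_lit 340), (nat_lit 360), (nat_lit 280), (nat_lit 320), (nat_lit 120), (nat_lit 220), (nat_lit 80), (nat_lit 240), (nat_lit 10), (nat_lit 120), (nat_lit 0), (nat_lit 400), (nat_lit 0), (nat_lit 32)⟩, (nat_lit 3), (nat_lit 1), (nat_lit 3), false, true, false⟩,
  ⟨⟨(nat_lit 340), (nat_lit 360), (nat_lit 240), (nat_lit 320), (nat_lit 120), (nat_lit 220), (nat_lit 240), (nat_lit 320), (nat_lit 10), (nat_lit 120), (nat_lit 0), (nat_lit 370), (nat_lit 0), (nat_lit 32)⟩, (nat_lit 3), (nat_lit 1), (nat_lit 3), false, true, false⟩,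
  ⟨⟨(nat_lit 340), (nat_lit 360), (nat_lit 240), (nat_lit 260), (nat_lit 120), (nat_lit 220), (nat_lit 320), (nat_lit 390), (nat_lit 10), (nat_lit 120), (nat_lit 0), (nat_lit 300), (nat_lit 0), (nat_lit 32)⟩, (nat_lit 3), (nat_lit 1), (nat_lit 3), false, true, false⟩,
  ⟨⟨(nat_lit 340), (nat_lit 360), (nat_lit 260), (nat_lit 280), (nat_lit 120), (nat_lit 220), (nat_lit 320), (nat_lit 390), (nat_lit 10), (nat_lit 120), (nat_lit 0), (nat_lit 300), (nat_lit 0), (nat_lit 32)⟩, (nat_lit 3), (nat_lit 1), (nat_lit 3), false, true, false⟩,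
  ⟨⟨(nat_lit 340), (nat_lit 360), (nat_lit 280), (nat_lit 320), (nat_lit 120), (nat_lit 220), (nat_lit 320), (nat_lit 400), (nat_lit 10), (nat_lit 120), (nat_lit 0), (nat_lit 300), (nat_lit 0), (nat_lit 32)⟩, (nat_lit 3), (nat_lit 1), (nat_lit 3), false, true, false⟩,
  ⟨⟨(nat_lit 340), (nat_lit 360), (nat_lit 240), (nat_lit 320), (nat_lit 220), (nat_lit 320), (nat_lit 80), (nat_lit 400), (nat_lit 10), (nat_lit 120), (nat_lit 0), (nat_lit 400), (nat_lit 0), (nat_lit 32)⟩, (nat_lit 3), (nat_lit 3), (nat_lit 3), false, true, false⟩,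
  ⟨⟨(nat_lit 340), (nat_lit 360), (nat_lit 240), (nat_lit 280), (nat_lit 120), (nat_lit 200), (nat_lit 80), (nat_lit 240), (nat_lit 10), (nat_lit 120), (nat_lit 0), (nat_lit 200), (nat_lit 32), (nat_lit 60)⟩, (nat_lit 3), (nat_lit 3), (nat_lit 3), false, true, false⟩,
  ⟨⟨(nat_lit 340), (nat_lit 360), (nat_lit 240), (nat_lit 280), (nat_lit 120), (nat_lit 200), (nat_lit 80), (nat_lit 240), (nat_lit 10), (nat_lit 120), (nat_lit 200), (nat_lit 400), (nat_lit 32), (nat_lit 60)⟩, (nat_lit 3), (nat_lit 3), (nat_lit 3), false, true, false⟩,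
  ⟨⟨(nat_lit 340), (nat_lit 360), (nat_lit 240), (nat_lit 280), (nat_lit 200), (nat_lit 280), (nat_lit 80), (nat_lit 240), (nat_lit 10), (nat_lit 120), (nat_lit 0), (nat_lit 400), (nat_lit 32), (nat_lit 60)⟩, (nat_lit 3), (nat_lit 3), (nat_lit 3), false, true, false⟩,
  ⟨⟨(nat_lit 340), (nat_lit 360), (nat_lit 280), (nat_lit 320), (nat_lit 120), (nat_lit 320), (nat_lit 120), (nat_lit 240), (nat_lit 10), (nat_lit 120), (nat_lit 0), (nat_lit 400), (nat_lit 32), (nat_lit 48)⟩, (nat_lit 3), (nat_lit 3), (nat_lit 3), false, true, false⟩,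
  ⟨⟨(nat_lit 340), (nat_lit 360), (nat_lit 280), (nat_lit 320), (nat_lit 120), (nat_lit 320), (nat_lit 120), (nat_lit 240), (nat_lit 10), (nat_lit 120), (nat_lit 0), (nat_lit 400), (nat_lit 48), (nat_lit 60)⟩, (nat_lit 3), (nat_lit 3), (nat_lit 3), false, true, false⟩,
  ⟨⟨(nat_lit 340), (nat_lit 360), (nat_lit 240), (nat_lit 320), (nat_lit 120), (nat_lit 320), (nat_lit 240), (nat_lit 400), (nat_lit 10), (nat_lit 120), (nat_lit 0), (nat_lit 370), (nat_lit 32), (nat_lit 60)⟩, (nat_lit 3), (nat_lit 0), (nat_lit 3), false, true, false⟩,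
  ⟨⟨(nat_lit 340), (nat_lit 360), (nat_lit 240), (nat_lit 320), (nat_lit 120), (nat_lit 320), (nat_lit 240), (nat_lit 400), (nat_lit 10), (nat_lit 120), (nat_lit 0), (nat_lit 370), (nat_lit 32), (nat_lit 60)⟩, (nat_lit 3), (nat_lit 1), (nat_lit 3), false, true, false⟩,
  ⟨⟨(nat_lit 340), (nat_lit 360), (nat_lit 240), (nat_lit 280), (nat_lit 120), (nat_lit 180), (nat_lit 80), (nat_lit 120), (nat_lit 10), (nat_lit 120), (nat_lit 0), (nat_lit 400), (nat_lit 60), (nat_lit 80)⟩, (nat_lit 3), (nat_lit 3), (nat_lit 3), true, true, false⟩,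
  ⟨⟨(nat_lit 340), (nat_lit 360), (nat_lit 240), (nat_lit 280), (nat_lit 120), (nat_lit 180), (nat_lit 120), (nat_lit 240), (nat_lit 10), (nat_lit 80), (nat_lit 0), (nat_lit 400), (nat_lit 60), (nat_lit 80)⟩, (nat_lit 3), (nat_lit 3), (nat_lit 3), false, true, false⟩,
  ⟨⟨(nat_lit 340), (nat_lit 360), (nat_lit 240), (nat_lit 280), (nat_lit 120), (nat_lit 180), (nat_lit 120), (nat_lit 240), (nat_lit 80), (nat_lit 120), (nat_lit 0), (nat_lit 400), (nat_lit 60), (nat_lit 80)⟩, (nat_lit 3), (nat_lit 3), (nat_lit 3), false, true, false⟩,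
  ⟨⟨(nat_lit 340), (nat_lit 360), (nat_lit 280), (nat_lit 320), (nat_lit 120), (nat_lit 220), (nat_lit 80), (nat_lit 240), (nat_lit 10), (nat_lit 120), (nat_lit 0), (nat_lit 400), (nat_lit 60), (nat_lit 88)⟩, (nat_lit 3), (nat_lit 3), (nat_lit 3), false, true, false⟩,
  ⟨⟨(nat_lit 340), (nat_lit 360), (nat_lit 240), (nat_lit 320), (nat_lit 220), (nat_lit 320), (nat_lit 80), (nat_lit 240), (nat_lit 10), (nat_lit 120), (nat_lit 0), (nat_lit 400), (nat_lit 60), (nat_lit 88)⟩, (nat_lit 3), (nat_lit 3), (nat_lit 3), false, true, false⟩,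
  ⟨⟨(nat_lit 340), (nat_lit 360), (nat_lit 240), (nat_lit 320), (nat_lit 120), (nat_lit 320), (nat_lit 80), (nat_lit 240), (nat_lit 10), (nat_lit 120), (nat_lit 0), (nat_lit 400), (nat_lit 88), (nat_lit 116)⟩, (nat_lit 3), (nat_lit 3), (nat_lit 3), false, true, false⟩,
  ⟨⟨(nat_lit 340), (nat_lit 360), (nat_lit 240), (nat_lit 320), (nat_lit 120), (nat_lit 320), (nat_lit 240), (nat_lit 400), (nat_lit 10), (nat_lit 120), (nat_lit 0), (nat_lit 400), (nat_lit 60), (nat_lit 116)⟩, (nat_lit 3), (nat_lit 3), (nat_lit 3), false, true, false⟩,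
  ⟨⟨(nat_lit 340), (nat_lit 360), (nat_lit 240), (nat_lit 280), (nat_lit 120), (nat_lit 180), (nat_lit 80), (nat_lit 120), (nat_lit 120), (nat_lit 240), (nat_lit 0), (nat_lit 400), (nat_lit 0), (nat_lit 60)⟩, (nat_lit 3), (nat_lit 3), (nat_lit 3), true, false, false⟩,
  ⟨⟨(nat_lit 340), (nat_lit 360), (nat_lit 240), (nat_lit 280), (nat_lit 180), (nat_lit 220), (nat_lit 80), (nat_lit 120), (nat_lit 120), (nat_lit 240), (nat_lit 0), (nat_lit 400), (nat_lit 0), (nat_lit 60)⟩, (nat_lit 3), (nat_lit 3), (nat_lit 3), true, false, false⟩,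
  ⟨⟨(nat_lit 340), (nat_lit 360), (nat_lit 240), (nat_lit 280), (nat_lit 120), (nat_lit 180), (nat_lit 80), (nat_lit 120), (nat_lit 240), (nat_lit 330), (nat_lit 0), (nat_lit 370), (nat_lit 0), (nat_lit 32)⟩, (nat_lit 3), (nat_lit 3), (nat_lit 0), true, false, false⟩,
  ⟨⟨(nat_lit 340), (nat_lit 360), (nat_lit 240), (nat_lit 280), (nat_lit 120), (nat_lit 160), (nat_lit 80), (nat_lit 120), (nat_lit 240), (nat_lit 330), (nat_lit 0), (nat_lit 370), (nat_lit 0), (nat_lit 32)⟩, (nat_lit 3), (nat_lit 3), (nat_lit 1), true, false, false⟩,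
  ⟨⟨(nat_lit 340), (nat_lit 360), (nat_lit 240), (nat_lit 280), (nat_lit 160), (nat_lit 180), (nat_lit 80), (nat_lit 120), (nat_lit 240), (nat_lit 330), (nat_lit 0), (nat_lit 370), (nat_lit 0), (nat_lit 32)⟩, (nat_lit 3), (nat_lit 3), (nat_lit 1), true, false, false⟩,
  ⟨⟨(nat_lit 340), (nat_lit 360), (nat_lit 240), (nat_lit 280), (nat_lit 120), (nat_lit 180), (nat_lit 80), (nat_lit 100), (nat_lit 240), (nat_lit 330), (nat_lit 0), (nat_lit 370), (nat_lit 32), (nat_lit 60)⟩, (nat_lit 3), (nat_lit 3), (nat_lit 3), true, false, false⟩,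
  ⟨⟨(nat_lit 340), (nat_lit 360), (nat_lit 240), (nat_lit 280), (nat_lit 120), (nat_lit 160), (nat_lit 100), (nat_lit 120), (nat_lit 240), (nat_lit 330), (nat_lit 0), (nat_lit 370), (nat_lit 32), (nat_lit 48)⟩, (nat_lit 3), (nat_lit 3), (nat_lit 3), true, false, false⟩,
  ⟨⟨(nat_lit 340), (nat_lit 360), (nat_lit 240), (nat_lit 280), (nat_lit 160), (nat_lit 180), (nat_lit 100), (nat_lit 120), (nat_lit 240), (nat_lit 330), (nat_lit 0), (nat_lit 370), (nat_lit 32), (nat_lit 48)⟩, (nat_lit 3), (nat_lit 3), (nat_lit 3), true, false, false⟩,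
  ⟨⟨(nat_lit 340), (nat_lit 360), (nat_lit 240), (nat_lit 280), (nat_lit 120), (nat_lit 180), (nat_lit 100), (nat_lit 120), (nat_lit 240), (nat_lit 330), (nat_lit 0), (nat_lit 370), (nat_lit 48), (nat_lit 60)⟩, (nat_lit 3), (nat_lit 3), (nat_lit 3), true, false, false⟩,
  ⟨⟨(nat_lit 340), (nat_lit 360), (nat_lit 240), (nat_lit 320), (nat_lit 180), (nat_lit 220), (nat_lit 80), (nat_lit 120), (nat_lit 240), (nat_lit 360), (nat_lit 0), (nat_lit 370), (nat_lit 0), (nat_lit 60)⟩, (nat_lit 3), (nat_lit 3), (nat_lit 3), true, false, false⟩,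
  ⟨⟨(nat_lit 340), (nat_lit 360), (nat_lit 240), (nat_lit 320), (nat_lit 120), (nat_lit 220), (nat_lit 120), (nat_lit 400), (nat_lit 120), (nat_lit 360), (nat_lit 0), (nat_lit 400), (nat_lit 0), (nat_lit 32)⟩, (nat_lit 3), (nat_lit 0), (nat_lit 0), false, false, false⟩]
theorem t010 (h : EC env Ei) : ∀ τ ∈ l010, Dead τ :=
  List.forall_mem_cons.mpr ⟨chkT_sound0 h (T := c8_0) (by decide +kernel),
  List.forall_mem_cons.mpr ⟨chkT_sound0 h (T := c8_1) (by decide +kernel),
  List.forall_mem_cons.mpr ⟨chkT_sound0 h (T := c8_2) (by decide +kernel),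
  List.forall_mem_cons.mpr ⟨chkT_sound0 h (T := c8_3) (by decide +kernel),
  List.forall_mem_cons.mpr ⟨chkT_sound0 h (T := c8_4) (by decide +kernel),
  List.forall_mem_cons.mpr ⟨chkT_sound0 h (T := c8_5) (by decide +kernel),
  List.forall_mem_cons.mpr ⟨chkT_sound0 h (T := c8_6) (by decide +kernel),
  List.forall_mem_cons.mpr ⟨chkT_sound0 h (T := c8_7) (by decide +kernel),
  List.forall_mem_cons.mpr ⟨chkT_sound0 h (T := c8_8) (by decide +kernel),
  List.forall_mem_cons.mpr ⟨chkT_sound0 h (T := c8_9) (by decide +kernel),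
  List.forall_mem_cons.mpr ⟨chkT_sound0 h (T := c8_10) (by decide +kernel),
  List.forall_mem_cons.mpr ⟨chkT_sound0 h (T := c8_11) (by decide +kernel),
  List.forall_mem_cons.mpr ⟨chkT_sound0 h (T := c8_12) (by decide +kernel),
  List.forall_mem_cons.mpr ⟨chkT_sound0 h (T := c8_13) (by decide +kernel),
  List.forall_mem_cons.mpr ⟨chkT_sound0 h (T := c8_14) (by decide +kernel),
  List.forall_mem_cons.mpr ⟨chkT_sound0 h (T := c8_15) (by decide +kernel),
  List.forall_mem_cons.mpr ⟨chkT_sound0 h (T := c8_16) (by decide +kernel),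
  List.forall_mem_cons.mpr ⟨chkT_sound0 h (T := c8_17) (by decide +kernel),
  List.forall_mem_cons.mpr ⟨chkT_sound0 h (T := c8_18) (by decide +kernel),
  List.forall_mem_cons.mpr ⟨chkT_sound0 h (T := c8_19) (by decide +kernel),
  List.forall_mem_cons.mpr ⟨chkT_sound0 h (T := c8_20) (by decide +kernel),
  List.forall_mem_cons.mpr ⟨chkT_sound0 h (T := c8_21) (by decide +kernel),
  List.forall_mem_cons.mpr ⟨chkT_sound0 h (T := c8_22) (by decide +kernel),
  List.forall_mem_cons.mpr ⟨chkT_sound0 h (T := c8_23) (by decide +kernel),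
  List.forall_mem_cons.mpr ⟨chkT_sound0 h (T := c8_24) (by decide +kernel),
  List.forall_mem_cons.mpr ⟨chkT_sound0 h (T := c8_25) (by decide +kernel),
  List.forall_mem_cons.mpr ⟨chkT_sound0 h (T := c8_26) (by decide +kernel),
  List.forall_mem_cons.mpr ⟨chkT_sound0 h (T := c8_27) (by decide +kernel),
  List.forall_mem_cons.mpr ⟨chkT_sound0 h (T := c8_28) (by decide +kernel),
  List.forall_mem_cons.mpr ⟨chkT_sound0 h (T := c8_29) (by decide +kernel),
  List.forall_mem_cons.mpr ⟨chkT_sound0 h (T := c8_30) (by decide +kernel),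
  List.forall_mem_cons.mpr ⟨chkT_sound0 h (T := c8_31) (by decide +kernel),
  List.forall_mem_cons.mpr ⟨chkT_sound0 h (T := c8_32) (by decide +kernel),
  List.forall_mem_nil _⟩⟩⟩⟩⟩⟩⟩⟩⟩⟩⟩⟩⟩⟩⟩⟩⟩⟩⟩⟩⟩⟩⟩⟩⟩⟩⟩⟩⟩⟩⟩⟩⟩
end TC
end Pool.Agent.Lib.MP_6947cd_al
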