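import Pool.Agent.Lib.MP_6947cd_al.C.LeafF
import Pool.Agent.Lib.MP_6947cd_al.TC.E
import Pool.Agent.Lib.MP_6947cd_al.TC.F

/-!
Problem MP_6947cd_al (Chollet).  CASE C, tables and certificates.  Trees of leaves (part 11 of root 8).
-/

set_option autoImplicit false
set_option linter.all false
set_option maxRecDepth 100000
set_option maxHeartbeats 4000000
namespace Pool.Agent.Lib.MP_6947cd_al
namespace TC
open C1
noncomputable def c8_33 : Tr Lf :=
 (.spl (nat_lit 5) (nat_lit 120) (.stt (nat_lit 1) (.spl (nat_lit 3) (nat_lit 200) (.leaf ⟨(nat_lit 920), (nat_lit 29), (nat_lit 0), (nat_lit 51), (nat_lit 0), (nat_lit 3186), (nat_lit 866), (nat_lit 1166), (nat_lit 0), (nat_lit 0), (nat_lit 230000), [((nat_lit 360), [((nat_lit 21), (nat_lit 0), (nat_lit 920))])], ⟨(nat_lit 6), false, false, false, (nat_lit 210), (nat_lit 3162), (nat_lit 3873), [(nat_lit 1414421), (nat_lit 1422280), (nat_lit 1501479), (nat_lit 1510785), (nat_lit 1543529), (nat_lit 1544252),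 (nat_lit 1630587), (nat_lit 1632757)]⟩, ⟨(nat_lit 3), true, false, true, (nat_lit 174), (nat_lit 3162), (nat_lit 3873), [(nat_lit 1283782), (nat_lit 1289472), (nat_lit 1392656), (nat_lit 1400154), (nat_lit 1477347), (nat_lit 1472332), (nat_lit 1586313), (nat_lit 1583107)]⟩, (nat_lit 4773248), (nat_lit 43504939), (nat_lit 13470619), (nat_lit 10024442), (nat_lit 3), (nat_lit 0), [⟨(nat_lit 0), (nat_lit 80), (nat_lit 60), (nat_lit 100), (nat_lit 34980855)⟩], [], [⟨(nat_lit 0), (nat_lit 100), (nat_lit 80), (nat_lit 68), (nat_lit 120217791)⟩], [],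
 ⟨⟨[(nat_lit 40), (nat_lit 60), (nat_lit 80)], [(nat_lit 0), (nat_lit 398), (nat_lit 992)], [((nat_lit 0), (nat_lit 0), (nat_lit 0)), ((nat_lit 1000), (nat_lit 814), (nat_lit 310)), ((nat_lit 1000), (nat_lit 752), (nat_lit 464))], ((nat_lit 73), (nat_lit 100), (nat_lit 55))⟩, (nat_lit 0), (nat_lit 47), (nat_lit 47), (nat_lit 0), (nat_lit 0), [(nat_lit 1577568164), (nat_lit 90015956478), (nat_lit 2181552000)], [(nat_lit 0), (nat_lit 0), (nat_lit 0)], [(nat_lit 17039471304), (nat_lit 18804650871), (nat_lit 18955447414), (nat_lit 20461885555), (nat_lit 20308941653), (nat_lit 21709148898), (nat_lit 21855037938), (nat_lit 23102283088)], (nat_lit 0), (nat_lit 0), (nat_lit 0), (nat_lit 0), (nat_lit 0), (nat_lit 0), [], [(nat_lit 2), (nat_lit 44), (nat_lit 345), (nat_lit 125), (nat_lit 15)]⟩,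
 ⟨⟨[(nat_lit 80), (nat_lit 120), (nat_lit 140)], [(nat_lit 0), (nat_lit 0), (nat_lit 1164)], [((nat_lit 0), (nat_lit 0), (nat_lit 0)), ((nat_lit 0), (nat_lit 0), (nat_lit 0)), ((nat_lit 941), (nat_lit 1000), (nat_lit 576))], ((nat_lit 100), (nat_lit 95), (nat_lit 55))⟩, (nat_lit 172255), (nat_lit 677), (nat_lit 677), (nat_lit 0), (nat_lit 983704), [(nat_lit 375040000), (nat_lit 637440000), (nat_lit 787360000)], [], [(nat_lit 3023296280), (nat_lit 2682378260), (nat_lit 2761623780), (nat_lit 2600716948), (nat_lit 2412719314), (nat_lit 2184372162), (nat_lit 3269293512), (nat_lit 2065415460)], (nat_lit 1271251), (nat_lit 1271251), (nat_lit 780000), (nat_lit 1435001), (nat_lit 0), (nat_lit 780000), [(nat_lit 1100000), (nat_lit 1785001), (nat_lit 1271251)], [(nat_lit 17), (nat_lit 58), (nat_lit 401), (nat_lit 175), (nat_lit 12)]⟩,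
 ⟨⟨[(nat_lit 140), (nat_lit 180), (nat_lit 200)], [(nat_lit 0), (nat_lit 0), (nat_lit 2835)], [((nat_lit 0), (nat_lit 0), (nat_lit 0)), ((nat_lit 0), (nat_lit 0), (nat_lit 0)), ((nat_lit 363), (nat_lit 1000), (nat_lit 798))], ((nat_lit 0), (nat_lit 0), (nat_lit 0))⟩, (nat_lit 14033), (nat_lit 300), (nat_lit 491), (nat_lit 3983100), (nat_lit 0), [(nat_lit 501942000), (nat_lit 716958000), (nat_lit 836400000)], [], [(nat_lit 3847823472), (nat_lit 3522774757), (nat_lit 3437760472), (nat_lit 3090458345), (nat_lit 2710164769), (nat_lit 2411089711), (nat_lit 2333769904), (nat_lit 2004572811)], (nat_lit 0), (nat_lit 0), (nat_lit 0), (nat_lit 0), (nat_lit 0), (nat_lit 0), [], [(nat_lit 32), (nat_lit 67), (nat_lit 373), (nat_lit 150), (nat_lit 8)]⟩⟩) (.spl (nat_lit 1) (nat_lit 280) (.leaf ⟨(nat_lit 916), (nat_lit 46), (nat_lit 0), (nat_lit 38), (nat_lit 0), (nat_lit 3298), (nat_lit 890), (nat_lit 506), (nat_lit 0), (nat_lit 0), (nat_lit 325600), [((nat_lit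 360), [((nat_lit 21), (nat_lit 0), (nat_lit 272)), ((nat_lit 21), (nat_lit 1), (nat_lit 644))])], ⟨(nat_lit 6), false, true, false, (nat_lit 251), (nat_lit 3162), (nat_lit 3873), [(nat_lit 1543529), (nat_lit 1544252), (nat_lit 1587058), (nat_lit 1588504), (nat_lit 1672628), (nat_lit 1666215), (nat_lit 1716165), (nat_lit 1710475)]⟩, ⟨(nat_lit 3), true, false, true, (nat_lit 174), (nat_lit 3162), (nat_lit 3873), [(nat_lit 1283782), (nat_lit 1289472), (nat_lit 1392656), (nat_lit 1400154), (nat_lit 1477347), (nat_lit 1472332), (nat_lit 1586313), (nat_lit 1583107)]⟩, (nat_lit 5020850), (nat_lit 40262718), (nat_lit 17174513), (nat_lit 9562769), (nat_lit 3), (nat_lit 0), [], [], [⟨(nat_lit 0), (nat_lit 100), (nat_lit 92), (nat_lit 49), (nat_lit 62117455)⟩], [],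
 ⟨⟨[(nat_lit 40), (nat_lit 60), (nat_lit 80)], [(nat_lit 0), (nat_lit 398), (nat_lit 992)], [((nat_lit 0), (nat_lit 0), (nat_lit 0)), ((nat_lit 1000), (nat_lit 814), (nat_lit 310)), ((nat_lit 1000), (nat_lit 752), (nat_lit 464))], ((nat_lit 73), (nat_lit 100), (nat_lit 55))⟩, (nat_lit 0), (nat_lit 53), (nat_lit 53), (nat_lit 0), (nat_lit 0), [(nat_lit 1414692975), (nat_lit 1610261070), (nat_lit 1903987730)], [(nat_lit 0), (nat_lit 0), (nat_lit 0)], [(nat_lit 19458679418), (nat_lit 20834368077), (nat_lit 22478945452), (nat_lit 23660933661), (nat_lit 22219426115), (nat_lit 23363042633), (nat_lit 24712969520), (nat_lit 25712692368)], (nat_lit 0), (nat_lit 0), (nat_lit 0), (nat_lit 0), (nat_lit 0), (nat_lit 0), [], [(nat_lit 2), (nat_lit 44), (nat_lit 272), (nat_lit 60), (nat_lit 11)]⟩,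
 ⟨⟨[(nat_lit 80), (nat_lit 120), (nat_lit 140)], [(nat_lit 0), (nat_lit 0), (nat_lit 1164)], [((nat_lit 0), (nat_lit 0), (nat_lit 0)), ((nat_lit 0), (nat_lit 0), (nat_lit 0)), ((nat_lit 941), (nat_lit 1000), (nat_lit 576))], ((nat_lit 100), (nat_lit 95), (nat_lit 55))⟩, (nat_lit 190240), (nat_lit 629), (nat_lit 629), (nat_lit 0), (nat_lit 940084), [(nat_lit 393792000), (nat_lit 669312000), (nat_lit 826728000)], [], [(nat_lit 2577595592), (nat_lit 2667517192), (nat_lit 2669646328), (nat_lit 2769937476), (nat_lit 2802709448), (nat_lit 2139504682), (nat_lit 2144786460), (nat_lit 2209438524)], (nat_lit 1271251), (nat_lit 1271251), (nat_lit 1271251), (nat_lit 1271251), (nat_lit 0), (nat_lit 780000), [(nat_lit 1100000), (nat_lit 1785001), (nat_lit 1271251)], [(nat_lit 17), (nat_lit 58), (nat_lit 401), (nat_lit 175), (nat_lit 11)]⟩,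
 ⟨⟨[(nat_lit 140), (nat_lit 180), (nat_lit 200)], [(nat_lit 0), (nat_lit 0), (nat_lit 2835)], [((nat_lit 0), (nat_lit 0), (nat_lit 0)), ((nat_lit 0), (nat_lit 0), (nat_lit 0)), ((nat_lit 363), (nat_lit 1000), (nat_lit 798))], ((nat_lit 0), (nat_lit 0), (nat_lit 0))⟩, (nat_lit 10457), (nat_lit 300), (nat_lit 491), (nat_lit 2967800), (nat_lit 0), [(nat_lit 373996000), (nat_lit 534204000), (nat_lit 623200000)], [], [(nat_lit 2617062378), (nat_lit 2488147115), (nat_lit 2457149232), (nat_lit 2334066138), (nat_lit 2171436912), (nat_lit 2051447726), (nat_lit 2020614191), (nat_lit 1889980142)], (nat_lit 0), (nat_lit 0), (nat_lit 0), (nat_lit 0), (nat_lit 0), (nat_lit 0), [], [(nat_lit 32), (nat_lit 67), (nat_lit 373), (nat_lit 150), (nat_lit 8)]⟩⟩) (.leaf ⟨(nat_lit 532), (nat_lit 401), (nat_lit 0), (nat_lit 67), (nat_lit 0), (nat_lit 3466), (nat_lit 3355), (nat_lit 886), (nat_lit 0), (nat_lit 0), (nat_lit 226450), [((nat_lit 360), [((nat_lit 21), (nat_lit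 0), (nat_lit 265)), ((nat_lit 39), (nat_lit 2), (nat_lit 267))])], ⟨(nat_lit 7), false, true, false, (nat_lit 269), (nat_lit 3162), (nat_lit 3873), [(nat_lit 1587058), (nat_lit 1588504), (nat_lit 1630587), (nat_lit 1632757), (nat_lit 1716165), (nat_lit 1710475), (nat_lit 1759694), (nat_lit 1754728)]⟩, ⟨(nat_lit 3), true, false, true, (nat_lit 174), (nat_lit 3162), (nat_lit 3873), [(nat_lit 1283782), (nat_lit 1289472), (nat_lit 1392656), (nat_lit 1400154), (nat_lit 1477347), (nat_lit 1472332), (nat_lit 1586313), (nat_lit 1583107)]⟩, (nat_lit 5094844), (nat_lit 38909543), (nat_lit 18743058), (nat_lit 9347399), (nat_lit 3), (nat_lit 0), [], [], [⟨(nat_lit 0), (nat_lit 100), (nat_lit 88), (nat_lit 37), (nat_lit 85064995)⟩], [],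
 ⟨⟨[(nat_lit 40), (nat_lit 60), (nat_lit 80)], [(nat_lit 0), (nat_lit 398), (nat_lit 992)], [((nat_lit 0), (nat_lit 0), (nat_lit 0)), ((nat_lit 1000), (nat_lit 814), (nat_lit 310)), ((nat_lit 1000), (nat_lit 752), (nat_lit 464))], ((nat_lit 73), (nat_lit 100), (nat_lit 55))⟩, (nat_lit 1965353), (nat_lit 53), (nat_lit 53), (nat_lit 0), (nat_lit 0), [(nat_lit 1601833630), (nat_lit 2264258092), (nat_lit 2941181200)], [(nat_lit 0), (nat_lit 0), (nat_lit 0)], [(nat_lit 19296575469), (nat_lit 20706409372), (nat_lit 22410391465), (nat_lit 23823183372), (nat_lit 22048859418), (nat_lit 23218371624), (nat_lit 24660783814), (nat_lit 25834444656)], (nat_lit 0), (nat_lit 0), (nat_lit 0), (nat_lit 0), (nat_lit 0), (nat_lit 0), [], [(nat_lit 2), (nat_lit 44), (nat_lit 272), (nat_lit 60), (nat_lit 11)]⟩,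
 ⟨⟨[(nat_lit 60), (nat_lit 100), (nat_lit 120)], [(nat_lit 0), (nat_lit 0), (nat_lit 1164)], [((nat_lit 0), (nat_lit 0), (nat_lit 0)), ((nat_lit 0), (nat_lit 0), (nat_lit 0)), ((nat_lit 1000), (nat_lit 933), (nat_lit 572))], ((nat_lit 93), (nat_lit 100), (nat_lit 55))⟩, (nat_lit 1000798), (nat_lit 532), (nat_lit 532), (nat_lit 0), (nat_lit 890063), [(nat_lit 1535976000), (nat_lit 2925000000), (nat_lit 3729024000)], [], [(nat_lit 15167730457), (nat_lit 15878194734), (nat_lit 16085766530), (nat_lit 16721766644), (nat_lit 13838615437), (nat_lit 14353867606), (nat_lit 14476713626), (nat_lit 15031050033)], (nat_lit 1271251), (nat_lit 1271251), (nat_lit 1271251), (nat_lit 1271251), (nat_lit 0), (nat_lit 780000), [(nat_lit 780000), (nat_lit 1435001), (nat_lit 1271251)], [(nat_lit 10), (nat_lit 54), (nat_lit 317), (nat_lit 100), (nat_lit 10)]⟩,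
 ⟨⟨[(nat_lit 140), (nat_lit 180), (nat_lit 200)], [(nat_lit 0), (nat_lit 0), (nat_lit 2835)], [((nat_lit 0), (nat_lit 0), (nat_lit 0)), ((nat_lit 0), (nat_lit 0), (nat_lit 0)), ((nat_lit 363), (nat_lit 1000), (nat_lit 798))], ((nat_lit 0), (nat_lit 0), (nat_lit 0))⟩, (nat_lit 18434), (nat_lit 300), (nat_lit 491), (nat_lit 5232700), (nat_lit 0), [(nat_lit 659414000), (nat_lit 941886000), (nat_lit 1098800000)], [], [(nat_lit 4614319629), (nat_lit 4389428224), (nat_lit 4330879315), (nat_lit 4115912409), (nat_lit 3834788895), (nat_lit 3625500075), (nat_lit 3571668071), (nat_lit 3342465185)], (nat_lit 0), (nat_lit 0), (nat_lit 0), (nat_lit 0), (nat_lit 0), (nat_lit 0), [], [(nat_lit 32), (nat_lit 67), (nat_lit 373), (nat_lit 150), (nat_lit 8)]⟩⟩))) (.leaf ⟨(nat_lit 0), (nat_lit 820), (nat_lit 0), (nat_lit 180), (nat_lit 0), (nat_lit 5049), (nat_lit 5390), (nat_lit 4101), (nat_lit 0), (nat_lit 0), (nat_lit 0), [], Pd.none, Pd.none, (nat_lit 0), (nat_lit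 1), (nat_lit 0), (nat_lit 0), (nat_lit 3), (nat_lit 0), [⟨(nat_lit 0), (nat_lit 96), (nat_lit 69), (nat_lit 100), (nat_lit 69181287)⟩], [], [⟨(nat_lit 0), (nat_lit 100), (nat_lit 93), (nat_lit 26), (nat_lit 23109866)⟩], [],
 ⟨⟨[(nat_lit 40), (nat_lit 60), (nat_lit 80)], [(nat_lit 0), (nat_lit 398), (nat_lit 992)], [((nat_lit 0), (nat_lit 0), (nat_lit 0)), ((nat_lit 1000), (nat_lit 814), (nat_lit 310)), ((nat_lit 1000), (nat_lit 752), (nat_lit 464))], ((nat_lit 73), (nat_lit 100), (nat_lit 55))⟩, (nat_lit 1861950), (nat_lit 195), (nat_lit 195), (nat_lit 0), (nat_lit 459953), [(nat_lit 2032000098), (nat_lit 3282000049), (nat_lit 4688000000)], [], [(nat_lit 19483650431), (nat_lit 20941302001), (nat_lit 23624635573), (nat_lit 25352111258), (nat_lit 21956149283), (nat_lit 23154867967), (nat_lit 25569946621), (nat_lit 26981670084)], (nat_lit 1271251), (nat_lit 1271251), (nat_lit 780000), (nat_lit 2090001), (nat_lit 780000), (nat_lit 1762501), [(nat_lit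 490000), (nat_lit 780000), (nat_lit 1100000)], [(nat_lit 2), (nat_lit 44), (nat_lit 373), (nat_lit 150), (nat_lit 17)]⟩,
 ⟨⟨[(nat_lit 80), (nat_lit 120), (nat_lit 140)], [(nat_lit 0), (nat_lit 0), (nat_lit 1164)], [((nat_lit 0), (nat_lit 0), (nat_lit 0)), ((nat_lit 0), (nat_lit 0), (nat_lit 0)), ((nat_lit 941), (nat_lit 1000), (nat_lit 576))], ((nat_lit 100), (nat_lit 95), (nat_lit 55))⟩, (nat_lit 1340122), (nat_lit 389), (nat_lit 389), (nat_lit 0), (nat_lit 389007), [(nat_lit 4688000000), (nat_lit 7968000000), (nat_lit 9842000000)], [], [(nat_lit 35212948200), (nat_lit 38842399612), (nat_lit 44881364240), (nat_lit 41288191832), (nat_lit 36450063710), (nat_lit 36410103722), (nat_lit 50008325350), (nat_lit 40428705300)], (nat_lit 1271251), (nat_lit 1271251), (nat_lit 780000), (nat_lit 2090001), (nat_lit 0), (nat_lit 780000), [(nat_lit 1100000), (nat_lit 1785001), (nat_lit 1271251)], [(nat_lit 17), (nat_lit 58), (nat_lit 428), (nat_lit 200), (nat_lit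 12)]⟩,
 ⟨⟨[(nat_lit 140), (nat_lit 180), (nat_lit 200)], [(nat_lit 0), (nat_lit 0), (nat_lit 2835)], [((nat_lit 0), (nat_lit 0), (nat_lit 0)), ((nat_lit 0), (nat_lit 0), (nat_lit 0)), ((nat_lit 363), (nat_lit 1000), (nat_lit 798))], ((nat_lit 0), (nat_lit 0), (nat_lit 0))⟩, (nat_lit 49524), (nat_lit 300), (nat_lit 491), (nat_lit 14058000), (nat_lit 0), [(nat_lit 1771560000), (nat_lit 2530440000), (nat_lit 2952000000)], [], [(nat_lit 13569951798), (nat_lit 12427933575), (nat_lit 12129161952), (nat_lit 10894132776), (nat_lit 9569715852), (nat_lit 8519010705), (nat_lit 8247294876), (nat_lit 7090580564)], (nat_lit 0), (nat_lit 0), (nat_lit 0), (nat_lit 0), (nat_lit 0), (nat_lit 0), [], [(nat_lit 32), (nat_lit 67), (nat_lit 373), (nat_lit 150), (nat_lit 8)]⟩⟩)) (.leaf ⟨(nat_lit 668), (nat_lit 0), (nat_lit 0), (nat_lit 332), (nat_lit 0), (nat_lit 4394), (nat_lit 2139), (nat_lit 8416), (nat_lit 0), (nat_lit 0), (nat_lit 340950), [((nat_lit 360), [((nat_lit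 21), (nat_lit 0), (nat_lit 171)), ((nat_lit 39), (nat_lit 2), (nat_lit 497))])], ⟨(nat_lit 6), false, false, false, (nat_lit 235), (nat_lit 3162), (nat_lit 3873), [(nat_lit 1414421), (nat_lit 1422280), (nat_lit 1501479), (nat_lit 1510785), (nat_lit 1672628), (nat_lit 1666215), (nat_lit 1759694), (nat_lit 1754728)]⟩, ⟨(nat_lit 3), true, false, true, (nat_lit 174), (nat_lit 3162), (nat_lit 3873), [(nat_lit 1283782), (nat_lit 1289472), (nat_lit 1392656), (nat_lit 1400154), (nat_lit 1477347), (nat_lit 1472332), (nat_lit 1586313), (nat_lit 1583107)]⟩, (nat_lit 4935881), (nat_lit 41535013), (nat_lit 15711437), (nat_lit 9753550), (nat_lit 0), (nat_lit 0), [], [], [], [],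
 ⟨⟨[(nat_lit 40), (nat_lit 60), (nat_lit 80)], [(nat_lit 0), (nat_lit 398), (nat_lit 992)], [((nat_lit 0), (nat_lit 0), (nat_lit 0)), ((nat_lit 1000), (nat_lit 814), (nat_lit 310)), ((nat_lit 1000), (nat_lit 752), (nat_lit 464))], ((nat_lit 73), (nat_lit 100), (nat_lit 55))⟩, (nat_lit 348158), (nat_lit 195), (nat_lit 195), (nat_lit 0), (nat_lit 459953), [(nat_lit 1514894423), (nat_lit 1931039623), (nat_lit 2329886777)], [(nat_lit 0), (nat_lit 0), (nat_lit 0)], [(nat_lit 18501828726), (nat_lit 19852343419), (nat_lit 23122216185), (nat_lit 24719484748), (nat_lit 21007463864), (nat_lit 22646468102), (nat_lit 25193761126), (nat_lit 26506981104)], (nat_lit 1271251), (nat_lit 1271251), (nat_lit 780000), (nat_lit 2090001), (nat_lit 780000), (nat_lit 1762501), [(nat_lit 490000), (nat_lit 780000), (nat_lit 1100000)], [(nat_lit 2), (nat_lit 44), (nat_lit 373), (nat_lit 150), (nat_lit 17)]⟩,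
 ⟨⟨[(nat_lit 80), (nat_lit 120), (nat_lit 140)], [(nat_lit 0), (nat_lit 0), (nat_lit 1164)], [((nat_lit 0), (nat_lit 0), (nat_lit 0)), ((nat_lit 0), (nat_lit 0), (nat_lit 0)), ((nat_lit 941), (nat_lit 1000), (nat_lit 576))], ((nat_lit 100), (nat_lit 95), (nat_lit 55))⟩, (nat_lit 642204), (nat_lit 713), (nat_lit 713), (nat_lit 0), (nat_lit 1217772), [(nat_lit 1556416000), (nat_lit 2645376000), (nat_lit 3267544000)], [], [(nat_lit 15845194419), (nat_lit 16199223735), (nat_lit 15892893432), (nat_lit 16149307603), (nat_lit 16526380428), (nat_lit 16651818450), (nat_lit 21289613330), (nat_lit 17628252806)], (nat_lit 1271251), (nat_lit 1271251), (nat_lit 780000), (nat_lit 2090001), (nat_lit 780000), (nat_lit 3072501), [(nat_lit 1100000), (nat_lit 1785001), (nat_lit 1271251)], [(nat_lit 17), (nat_lit 58), (nat_lit 483), (nat_lit 250), (nat_lit 14)]⟩,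
 ⟨⟨[(nat_lit 140), (nat_lit 180), (nat_lit 200)], [(nat_lit 0), (nat_lit 0), (nat_lit 2835)], [((nat_lit 0), (nat_lit 0), (nat_lit 0)), ((nat_lit 0), (nat_lit 0), (nat_lit 0)), ((nat_lit 363), (nat_lit 1000), (nat_lit 798))], ((nat_lit 0), (nat_lit 0), (nat_lit 0))⟩, (nat_lit 2057224), (nat_lit 291), (nat_lit 291), (nat_lit 0), (nat_lit 0), [(nat_lit 3267544000), (nat_lit 4667256000), (nat_lit 5444800000)], [], [(nat_lit 8464317844), (nat_lit 9062708172), (nat_lit 8992282168), (nat_lit 8833880858), (nat_lit 17672223368), (nat_lit 17091934260), (nat_lit 16766196352), (nat_lit 15723828792)], (nat_lit 0), (nat_lit 0), (nat_lit 0), (nat_lit 0), (nat_lit 0), (nat_lit 0), [], [(nat_lit 32), (nat_lit 67), (nat_lit 456), (nat_lit 225), (nat_lit 10)]⟩⟩))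
noncomputable def c8_34 : Tr Lf :=
 (.trX (nat_lit 4) (nat_lit 0) (nat_lit 2) (nat_lit 72) (nat_lit 77) (nat_lit 100) (nat_lit 330) (.spl (nat_lit 3) (nat_lit 200) (.spl (nat_lit 1) (nat_lit 280) (.spl (nat_lit 2) (nat_lit 160) (.trX (nat_lit 4) (nat_lit 0) (nat_lit 2) (nat_lit 73) (nat_lit 85) (nat_lit 100) (nat_lit 320) (.trX (nat_lit 5) (nat_lit 1) (nat_lit 2) (nat_lit 100) (nat_lit 40) (nat_lit 100) (nat_lit 390) (.stt (nat_lit 1) (.leaf ⟨(nat_lit 930), (nat_lit 0), (nat_lit 0), (nat_lit 70), (nat_lit 0), (nat_lit 3595), (nat_lit 871), (nat_lit 847), (nat_lit 0), (nat_lit 0), (nat_lit 387600), [((nat_lit 360), [((nat_lit 21), (nat_lit 1), (nat_lit 904)), ((nat_lit 21), (nat_lit 2), (nat_lit 26))])], ⟨(nat_lit 6), false, false, false, (nat_lit 201), (nat_lit 3162), (nat_lit 3873), [(nat_lit 1414421), (nat_lit 1422280), (nat_lit 1457950), (nat_lit 1466533), (nat_lit 1543529), (nat_lit 1544252), (nat_lit 1587058), (nat_lit 1588504)]⟩, ⟨(nat_lit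 6), true, false, true, (nat_lit 224), (nat_lit 3162), (nat_lit 3873), [(nat_lit 1477347), (nat_lit 1472332), (nat_lit 1520934), (nat_lit 1516642), (nat_lit 1606390), (nat_lit 1594239), (nat_lit 1649977), (nat_lit 1638549)]⟩, (nat_lit 5080333), (nat_lit 40629656), (nat_lit 12067051), (nat_lit 14303293), (nat_lit 0), (nat_lit 0), [⟨(nat_lit 0), (nat_lit 100), (nat_lit 69), (nat_lit 96), (nat_lit 48307124)⟩], [⟨(nat_lit 1), (nat_lit 85), (nat_lit 73), (nat_lit 100), (nat_lit 220763063)⟩], [⟨(nat_lit 0), (nat_lit 100), (nat_lit 94), (nat_lit 21), (nat_lit 21291479)⟩], [],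
 ⟨⟨[(nat_lit 40), (nat_lit 60), (nat_lit 80)], [(nat_lit 0), (nat_lit 398), (nat_lit 992)], [((nat_lit 0), (nat_lit 0), (nat_lit 0)), ((nat_lit 1000), (nat_lit 814), (nat_lit 310)), ((nat_lit 1000), (nat_lit 752), (nat_lit 464))], ((nat_lit 73), (nat_lit 100), (nat_lit 55))⟩, (nat_lit 0), (nat_lit 64), (nat_lit 64), (nat_lit 0), (nat_lit 0), [(nat_lit 1393326086), (nat_lit 1665398648), (nat_lit 1658620000)], [(nat_lit 0), (nat_lit 0), (nat_lit 0)], [(nat_lit 20985845828), (nat_lit 22328306125), (nat_lit 22350252498), (nat_lit 23545396505), (nat_lit 24565531865), (nat_lit 25869256095), (nat_lit 25555468033), (nat_lit 26720722155)], (nat_lit 0), (nat_lit 0), (nat_lit 0), (nat_lit 0), (nat_lit 0), (nat_lit 0), [], [(nat_lit 2), (nat_lit 44), (nat_lit 260), (nat_lit 50), (nat_lit 10)]⟩,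
 ⟨⟨[(nat_lit 80), (nat_lit 120), (nat_lit 140)], [(nat_lit 0), (nat_lit 0), (nat_lit 1164)], [((nat_lit 0), (nat_lit 0), (nat_lit 0)), ((nat_lit 0), (nat_lit 0), (nat_lit 0)), ((nat_lit 941), (nat_lit 1000), (nat_lit 576))], ((nat_lit 100), (nat_lit 95), (nat_lit 55))⟩, (nat_lit 231100), (nat_lit 760), (nat_lit 760), (nat_lit 0), (nat_lit 1143014), [(nat_lit 328160000), (nat_lit 557760000), (nat_lit 688940000)], [], [(nat_lit 2699107780), (nat_lit 1895227850), (nat_lit 2336191110), (nat_lit 1916839273), (nat_lit 4070601381), (nat_lit 3322811082), (nat_lit 5040444546), (nat_lit 4310543389)], (nat_lit 1271251), (nat_lit 1271251), (nat_lit 780000), (nat_lit 1435001), (nat_lit 0), (nat_lit 2754376), [(nat_lit 1100000), (nat_lit 1785001), (nat_lit 1271251)], [(nat_lit 17), (nat_lit 58), (nat_lit 456), (nat_lit 225), (nat_lit 13)]⟩,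
 ⟨⟨[(nat_lit 140), (nat_lit 180), (nat_lit 200)], [(nat_lit 0), (nat_lit 0), (nat_lit 2835)], [((nat_lit 0), (nat_lit 0), (nat_lit 0)), ((nat_lit 0), (nat_lit 0), (nat_lit 0)), ((nat_lit 363), (nat_lit 1000), (nat_lit 798))], ((nat_lit 0), (nat_lit 0), (nat_lit 0))⟩, (nat_lit 19259), (nat_lit 300), (nat_lit 434), (nat_lit 5467004), (nat_lit 0), [(nat_lit 688940000), (nat_lit 984060000), (nat_lit 1148000000)], [], [(nat_lit 4524758456), (nat_lit 4400879850), (nat_lit 4605327130), (nat_lit 4470177528), (nat_lit 3708241828), (nat_lit 3570611759), (nat_lit 3678174847), (nat_lit 3534220862)], (nat_lit 0), (nat_lit 0), (nat_lit 0), (nat_lit 0), (nat_lit 0), (nat_lit 0), [], [(nat_lit 32), (nat_lit 67), (nat_lit 456), (nat_lit 225), (nat_lit 10)]⟩⟩) (.leaf ⟨(nat_lit 847), (nat_lit 22), (nat_lit 0), (nat_lit 131), (nat_lit 0), (nat_lit 3373), (nat_lit 1895), (nat_lit 1592), (nat_lit 0), (nat_lit 0), (nat_lit 493850), [((nat_lit 360), [((nat_lit 21), (nat_lit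 0), (nat_lit 41)), ((nat_lit 39), (nat_lit 2), (nat_lit 806))])], ⟨(nat_lit 6), false, false, false, (nat_lit 201), (nat_lit 3162), (nat_lit 3873), [(nat_lit 1414421), (nat_lit 1422280), (nat_lit 1457950), (nat_lit 1466533), (nat_lit 1543529), (nat_lit 1544252), (nat_lit 1587058), (nat_lit 1588504)]⟩, ⟨(nat_lit 6), true, false, true, (nat_lit 224), (nat_lit 3162), (nat_lit 3873), [(nat_lit 1477347), (nat_lit 1472332), (nat_lit 1520934), (nat_lit 1516642), (nat_lit 1606390), (nat_lit 1594239), (nat_lit 1649977), (nat_lit 1638549)]⟩, (nat_lit 5080333), (nat_lit 40629656), (nat_lit 12067051), (nat_lit 14303293), (nat_lit 6), (nat_lit 0), [⟨(nat_lit 0), (nat_lit 100), (nat_lit 69), (nat_lit 96), (nat_lit 2915983)⟩], [⟨(nat_lit 1), (nat_lit 96), (nat_lit 69), (nat_lit 100), (nat_lit 127864002)⟩], [], [],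
 ⟨⟨[(nat_lit 40), (nat_lit 60), (nat_lit 80)], [(nat_lit 0), (nat_lit 398), (nat_lit 992)], [((nat_lit 0), (nat_lit 0), (nat_lit 0)), ((nat_lit 1000), (nat_lit 814), (nat_lit 310)), ((nat_lit 1000), (nat_lit 752), (nat_lit 464))], ((nat_lit 73), (nat_lit 100), (nat_lit 55))⟩, (nat_lit 267900), (nat_lit 175), (nat_lit 175), (nat_lit 0), (nat_lit 362972), [(nat_lit 1400018001), (nat_lit 1489629605), (nat_lit 1521302995)], [(nat_lit 0), (nat_lit 0), (nat_lit 0)], [(nat_lit 21511286989), (nat_lit 22614423573), (nat_lit 22824002989), (nat_lit 23827194665), (nat_lit 24545474665), (nat_lit 25612734873), (nat_lit 25627682623), (nat_lit 26521532877)], (nat_lit 1271251), (nat_lit 1271251), (nat_lit 780000), (nat_lit 1435001), (nat_lit 1271251), (nat_lit 1271251), [(nat_lit 490000), (nat_lit 780000), (nat_lit 1100000)], [(nat_lit 2), (nat_lit 44), (nat_lit 260), (nat_lit 50), (nat_lit 10)]⟩,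
 ⟨⟨[(nat_lit 80), (nat_lit 120), (nat_lit 140)], [(nat_lit 0), (nat_lit 0), (nat_lit 1164)], [((nat_lit 0), (nat_lit 0), (nat_lit 0)), ((nat_lit 0), (nat_lit 0), (nat_lit 0)), ((nat_lit 941), (nat_lit 1000), (nat_lit 576))], ((nat_lit 100), (nat_lit 95), (nat_lit 55))⟩, (nat_lit 177716), (nat_lit 472), (nat_lit 472), (nat_lit 0), (nat_lit 547604), [(nat_lit 717264000), (nat_lit 1219104000), (nat_lit 1505826000)], [], [(nat_lit 5895324220), (nat_lit 4530354977), (nat_lit 5112450106), (nat_lit 4569543620), (nat_lit 8891847501), (nat_lit 7264909938), (nat_lit 11003740566), (nat_lit 9415723697)], (nat_lit 1271251), (nat_lit 1271251), (nat_lit 780000), (nat_lit 1435001), (nat_lit 0), (nat_lit 2754376), [(nat_lit 1100000), (nat_lit 1785001), (nat_lit 1271251)], [(nat_lit 17), (nat_lit 58), (nat_lit 456), (nat_lit 225), (nat_lit 13)]⟩,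
 ⟨⟨[(nat_lit 140), (nat_lit 180), (nat_lit 200)], [(nat_lit 0), (nat_lit 0), (nat_lit 2835)], [((nat_lit 0), (nat_lit 0), (nat_lit 0)), ((nat_lit 0), (nat_lit 0), (nat_lit 0)), ((nat_lit 363), (nat_lit 1000), (nat_lit 798))], ((nat_lit 0), (nat_lit 0), (nat_lit 0))⟩, (nat_lit 36042), (nat_lit 300), (nat_lit 434), (nat_lit 10231105), (nat_lit 0), [(nat_lit 1289302000), (nat_lit 1841598000), (nat_lit 2148400000)], [], [(nat_lit 8467747231), (nat_lit 8234517529), (nat_lit 8618307176), (nat_lit 8365817432), (nat_lit 6931315787), (nat_lit 6672291707), (nat_lit 6873978853), (nat_lit 6603081883)], (nat_lit 0), (nat_lit 0), (nat_lit 0), (nat_lit 0), (nat_lit 0), (nat_lit 0), [], [(nat_lit 32), (nat_lit 67), (nat_lit 456), (nat_lit 225), (nat_lit 10)]⟩⟩)))) (.leaf ⟨(nat_lit 643), (nat_lit 0), (nat_lit 220), (nat_lit 137), (nat_lit 0), (nat_lit 3771), (nat_lit 1434), (nat_lit 5081), (nat_lit 0), (nat_lit 0), (nat_lit 320350), [((nat_lit 360), [((nat_lit 21),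 (nat_lit 0), (nat_lit 187)), ((nat_lit 39), (nat_lit 2), (nat_lit 456))])], ⟨(nat_lit 6), false, false, false, (nat_lit 201), (nat_lit 3162), (nat_lit 3873), [(nat_lit 1414421), (nat_lit 1422280), (nat_lit 1457950), (nat_lit 1466533), (nat_lit 1543529), (nat_lit 1544252), (nat_lit 1587058), (nat_lit 1588504)]⟩, ⟨(nat_lit 6), true, false, true, (nat_lit 240), (nat_lit 3162), (nat_lit 3873), [(nat_lit 1520934), (nat_lit 1516642), (nat_lit 1542727), (nat_lit 1538797), (nat_lit 1666107), (nat_lit 1653787), (nat_lit 1687900), (nat_lit 1675942)]⟩, (nat_lit 5170972), (nat_lit 39454604), (nat_lit 11833937), (nat_lit 15711459), (nat_lit 0), (nat_lit 6), [⟨(nat_lit 0), (nat_lit 94), (nat_lit 62), (nat_lit 100), (nat_lit 64818799)⟩], [⟨(nat_lit 1), (nat_lit 85), (nat_lit 67), (nat_lit 100), (nat_lit 183735106)⟩], [], [],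
 ⟨⟨[(nat_lit 40), (nat_lit 60), (nat_lit 80)], [(nat_lit 0), (nat_lit 398), (nat_lit 992)], [((nat_lit 0), (nat_lit 0), (nat_lit 0)), ((nat_lit 1000), (nat_lit 814), (nat_lit 310)), ((nat_lit 1000), (nat_lit 752), (nat_lit 464))], ((nat_lit 73), (nat_lit 100), (nat_lit 55))⟩, (nat_lit 1064511), (nat_lit 170), (nat_lit 170), (nat_lit 0), (nat_lit 332568), [(nat_lit 1530738411), (nat_lit 1991715245), (nat_lit 2440522155)], [(nat_lit 0), (nat_lit 0), (nat_lit 0)], [(nat_lit 21090992197), (nat_lit 22251921565), (nat_lit 22353871234), (nat_lit 23399361406), (nat_lit 25370855827), (nat_lit 26670586943), (nat_lit 26253526679), (nat_lit 27414401133)], (nat_lit 1271251), (nat_lit 1271251), (nat_lit 780000), (nat_lit 1435001), (nat_lit 1271251), (nat_lit 1271251), [(nat_lit 490000), (nat_lit 780000), (nat_lit 1100000)], [(nat_lit 2), (nat_lit 44), (nat_lit 260), (nat_lit 50), (nat_lit 10)]⟩,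
 ⟨⟨[(nat_lit 80), (nat_lit 120), (nat_lit 140)], [(nat_lit 0), (nat_lit 0), (nat_lit 1164)], [((nat_lit 0), (nat_lit 0), (nat_lit 0)), ((nat_lit 0), (nat_lit 0), (nat_lit 0)), ((nat_lit 941), (nat_lit 1000), (nat_lit 576))], ((nat_lit 100), (nat_lit 95), (nat_lit 55))⟩, (nat_lit 293150), (nat_lit 680), (nat_lit 680), (nat_lit 0), (nat_lit 992113), [(nat_lit 642256000), (nat_lit 1091616000), (nat_lit 1348354000)], [], [(nat_lit 5154138400), (nat_lit 4657768754), (nat_lit 4764011504), (nat_lit 4498557877), (nat_lit 7931472016), (nat_lit 6704171644), (nat_lit 9592897556), (nat_lit 8394857954)], (nat_lit 1271251), (nat_lit 1271251), (nat_lit 780000), (nat_lit 1435001), (nat_lit 0), (nat_lit 2825001), [(nat_lit 1100000), (nat_lit 1785001), (nat_lit 1271251)], [(nat_lit 17), (nat_lit 58), (nat_lit 456), (nat_lit 225), (nat_lit 13)]⟩,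
 ⟨⟨[(nat_lit 120), (nat_lit 160), (nat_lit 180)], [(nat_lit 0), (nat_lit 0), (nat_lit 1613)], [((nat_lit 0), (nat_lit 0), (nat_lit 0)), ((nat_lit 0), (nat_lit 0), (nat_lit 0)), ((nat_lit 620), (nat_lit 1000), (nat_lit 670))], ((nat_lit 100), (nat_lit 73), (nat_lit 55))⟩, (nat_lit 155375), (nat_lit 300), (nat_lit 305), (nat_lit 26489400), (nat_lit 0), [(nat_lit 2844576000), (nat_lit 4238304000), (nat_lit 5018706000)], [], [(nat_lit 16184608656), (nat_lit 16213482828), (nat_lit 18008291757), (nat_lit 17995159583), (nat_lit 14855678517), (nat_lit 14734002227), (nat_lit 15708233983), (nat_lit 15520976446)], (nat_lit 0), (nat_lit 0), (nat_lit 0), (nat_lit 0), (nat_lit 0), (nat_lit 0), [], [(nat_lit 28), (nat_lit 65), (nat_lit 483), (nat_lit 250), (nat_lit 11)]⟩⟩)) (.trX (nat_lit 5) (nat_lit 1) (nat_lit 2) (nat_lit 92) (nat_lit 49) (nat_lit 100) (nat_lit 380) (.spl (nat_lit 5) (nat_lit 120) (.leaf ⟨(nat_lit 747), (nat_lit 118), (nat_lit 0), (nat_lit 135),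 (nat_lit 0), (nat_lit 3716), (nat_lit 2416), (nat_lit 1765), (nat_lit 0), (nat_lit 0), (nat_lit 408300), [((nat_lit 360), [((nat_lit 21), (nat_lit 0), (nat_lit 114)), ((nat_lit 39), (nat_lit 2), (nat_lit 633))])], ⟨(nat_lit 7), false, false, false, (nat_lit 219), (nat_lit 3162), (nat_lit 3873), [(nat_lit 1457950), (nat_lit 1466533), (nat_lit 1501479), (nat_lit 1510785), (nat_lit 1587058), (nat_lit 1588504), (nat_lit 1630587), (nat_lit 1632757)]⟩, ⟨(nat_lit 6), true, false, true, (nat_lit 231), (nat_lit 3162), (nat_lit 3873), [(nat_lit 1477347), (nat_lit 1472332), (nat_lit 1542727), (nat_lit 1538797), (nat_lit 1622521), (nat_lit 1609477), (nat_lit 1687900), (nat_lit 1675942)]⟩, (nat_lit 5238331), (nat_lit 38943582), (nat_lit 13399253), (nat_lit 14657165), (nat_lit 6), (nat_lit 0), [⟨(nat_lit 0), (nat_lit 88), (nat_lit 67), (nat_lit 100), (nat_lit 310293786)⟩], [⟨(nat_lit 1), (nat_lit 92), (nat_lit 68), (nat_lit 100), (nat_lit 201683783)⟩], [], [⟨(nat_lit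 0), (nat_lit 92), (nat_lit 100), (nat_lit 24), (nat_lit 161931593)⟩],
 ⟨⟨[(nat_lit 40), (nat_lit 60), (nat_lit 80)], [(nat_lit 0), (nat_lit 398), (nat_lit 992)], [((nat_lit 0), (nat_lit 0), (nat_lit 0)), ((nat_lit 1000), (nat_lit 814), (nat_lit 310)), ((nat_lit 1000), (nat_lit 752), (nat_lit 464))], ((nat_lit 73), (nat_lit 100), (nat_lit 55))⟩, (nat_lit 1102920), (nat_lit 204), (nat_lit 204), (nat_lit 0), (nat_lit 455682), [(nat_lit 1464157610), (nat_lit 1736396403), (nat_lit 1973424197)], [(nat_lit 0), (nat_lit 0), (nat_lit 0)], [(nat_lit 20850740661), (nat_lit 22120216028), (nat_lit 22068392593), (nat_lit 23366626176), (nat_lit 25312391445), (nat_lit 26603078031), (nat_lit 26208470163), (nat_lit 27361729118)], (nat_lit 1271251), (nat_lit 1271251), (nat_lit 780000), (nat_lit 1435001), (nat_lit 1271251), (nat_lit 1271251), [(nat_lit 490000), (nat_lit 780000), (nat_lit 1100000)], [(nat_lit 2), (nat_lit 44), (nat_lit 260), (nat_lit 50), (nat_lit 10)]⟩,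
 ⟨⟨[(nat_lit 60), (nat_lit 100), (nat_lit 120)], [(nat_lit 0), (nat_lit 0), (nat_lit 1164)], [((nat_lit 0), (nat_lit 0), (nat_lit 0)), ((nat_lit 0), (nat_lit 0), (nat_lit 0)), ((nat_lit 1000), (nat_lit 933), (nat_lit 572))], ((nat_lit 93), (nat_lit 100), (nat_lit 55))⟩, (nat_lit 475998), (nat_lit 555), (nat_lit 555), (nat_lit 0), (nat_lit 890063), [(nat_lit 830346000), (nat_lit 1581250000), (nat_lit 2015904000)], [], [(nat_lit 6870301496), (nat_lit 7100401642), (nat_lit 6651406742), (nat_lit 6970954544), (nat_lit 5545812627), (nat_lit 5862424521), (nat_lit 6514788984), (nat_lit 5737478482)], (nat_lit 1271251), (nat_lit 1271251), (nat_lit 780000), (nat_lit 1435001), (nat_lit 0), (nat_lit 780000), [(nat_lit 780000), (nat_lit 1435001), (nat_lit 1271251)], [(nat_lit 10), (nat_lit 54), (nat_lit 317), (nat_lit 100), (nat_lit 10)]⟩,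
 ⟨⟨[(nat_lit 140), (nat_lit 180), (nat_lit 200)], [(nat_lit 0), (nat_lit 0), (nat_lit 2835)], [((nat_lit 0), (nat_lit 0), (nat_lit 0)), ((nat_lit 0), (nat_lit 0), (nat_lit 0)), ((nat_lit 363), (nat_lit 1000), (nat_lit 798))], ((nat_lit 0), (nat_lit 0), (nat_lit 0))⟩, (nat_lit 37143), (nat_lit 300), (nat_lit 434), (nat_lit 10543500), (nat_lit 0), [(nat_lit 1328670000), (nat_lit 1897830000), (nat_lit 2214000000)], [], [(nat_lit 8726050807), (nat_lit 8403935795), (nat_lit 8971502885), (nat_lit 8606144883), (nat_lit 7175115806), (nat_lit 6873203642), (nat_lit 7363048527), (nat_lit 7025149088)], (nat_lit 0), (nat_lit 0), (nat_lit 0), (nat_lit 0), (nat_lit 0), (nat_lit 0), [], [(nat_lit 32), (nat_lit 67), (nat_lit 401), (nat_lit 175), (nat_lit 9)]⟩⟩) (.leaf ⟨(nat_lit 0), (nat_lit 0), (nat_lit 0), (nat_lit 1000), (nat_lit 0), (nat_lit 4393), (nat_lit 6037), (nat_lit 28491), (nat_lit 0), (nat_lit 0), (nat_lit 0), [], Pd.none, Pd.none, (nat_lit 0), (nat_lit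 1), (nat_lit 0), (nat_lit 0), (nat_lit 0), (nat_lit 0), [⟨(nat_lit 0), (nat_lit 88), (nat_lit 67), (nat_lit 100), (nat_lit 780473504)⟩], [⟨(nat_lit 1), (nat_lit 92), (nat_lit 68), (nat_lit 100), (nat_lit 888025016)⟩], [], [],
 ⟨⟨[(nat_lit 40), (nat_lit 60), (nat_lit 80)], [(nat_lit 0), (nat_lit 398), (nat_lit 992)], [((nat_lit 0), (nat_lit 0), (nat_lit 0)), ((nat_lit 1000), (nat_lit 814), (nat_lit 310)), ((nat_lit 1000), (nat_lit 752), (nat_lit 464))], ((nat_lit 73), (nat_lit 100), (nat_lit 55))⟩, (nat_lit 3395678), (nat_lit 204), (nat_lit 204), (nat_lit 0), (nat_lit 455682), [(nat_lit 2032000250), (nat_lit 3282000336), (nat_lit 4688000000)], [], [(nat_lit 21283847805), (nat_lit 22645691919), (nat_lit 22558894514), (nat_lit 23769567098), (nat_lit 26032034829), (nat_lit 27434051357), (nat_lit 26763074910), (nat_lit 28010073739)], (nat_lit 1271251), (nat_lit 1271251), (nat_lit 780000), (nat_lit 1435001), (nat_lit 1271251), (nat_lit 1271251), [(nat_lit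 490000), (nat_lit 780000), (nat_lit 1100000)], [(nat_lit 2), (nat_lit 44), (nat_lit 260), (nat_lit 50), (nat_lit 10)]⟩,
 ⟨⟨[(nat_lit 60), (nat_lit 100), (nat_lit 120)], [(nat_lit 0), (nat_lit 0), (nat_lit 1164)], [((nat_lit 0), (nat_lit 0), (nat_lit 0)), ((nat_lit 0), (nat_lit 0), (nat_lit 0)), ((nat_lit 1000), (nat_lit 933), (nat_lit 572))], ((nat_lit 93), (nat_lit 100), (nat_lit 55))⟩, (nat_lit 1981865), (nat_lit 556), (nat_lit 556), (nat_lit 0), (nat_lit 1073879), [(nat_lit 3282000000), (nat_lit 6250000000), (nat_lit 7968000000)], [], [(nat_lit 38313930828), (nat_lit 39370598121), (nat_lit 38577195524), (nat_lit 39489681356), (nat_lit 42013567912), (nat_lit 42540205604), (nat_lit 45999614121), (nat_lit 42060317047)], (nat_lit 1271251), (nat_lit 1271251), (nat_lit 780000), (nat_lit 1435001), (nat_lit 780000), (nat_lit 2908751), [(nat_lit 780000), (nat_lit 1435001), (nat_lit 1271251)], [(nat_lit 10), (nat_lit 54), (nat_lit 373), (nat_lit 150),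 (nat_lit 12)]⟩,
 ⟨⟨[(nat_lit 140), (nat_lit 180), (nat_lit 200)], [(nat_lit 0), (nat_lit 0), (nat_lit 2835)], [((nat_lit 0), (nat_lit 0), (nat_lit 0)), ((nat_lit 0), (nat_lit 0), (nat_lit 0)), ((nat_lit 363), (nat_lit 1000), (nat_lit 798))], ((nat_lit 0), (nat_lit 0), (nat_lit 0))⟩, (nat_lit 5474832), (nat_lit 256), (nat_lit 256), (nat_lit 0), (nat_lit 0), [(nat_lit 9842000000), (nat_lit 14058000000), (nat_lit 16400000000)], [], [(nat_lit 26063983924), (nat_lit 24278896417), (nat_lit 40042419488), (nat_lit 36389886965), (nat_lit 46949343718), (nat_lit 44014833950), (nat_lit 60915312265), (nat_lit 56143827518)], (nat_lit 0), (nat_lit 0), (nat_lit 0), (nat_lit 0), (nat_lit 0), (nat_lit 0), [], [(nat_lit 32), (nat_lit 67), (nat_lit 456), (nat_lit 225), (nat_lit 9)]⟩⟩)))) (.spl (nat_lit 1) (nat_lit 280) (.leaf ⟨(nat_lit 888), (nat_lit 0), (nat_lit 0), (nat_lit 112), (nat_lit 0), (nat_lit 3401), (nat_lit 1253), (nat_lit 1556), (nat_lit 0), (nat_lit 0),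 (nat_lit 528250), [((nat_lit 360), [((nat_lit 21), (nat_lit 0), (nat_lit 13)), ((nat_lit 39), (nat_lit 2), (nat_lit 875))])], ⟨(nat_lit 6), false, true, false, (nat_lit 251), (nat_lit 3162), (nat_lit 3873), [(nat_lit 1543529), (nat_lit 1544252), (nat_lit 1587058), (nat_lit 1588504), (nat_lit 1672628), (nat_lit 1666215), (nat_lit 1716165), (nat_lit 1710475)]⟩, ⟨(nat_lit 6), true, false, true, (nat_lit 231), (nat_lit 3162), (nat_lit 3873), [(nat_lit 1477347), (nat_lit 1472332), (nat_lit 1542727), (nat_lit 1538797), (nat_lit 1622521), (nat_lit 1609477), (nat_lit 1687900), (nat_lit 1675942)]⟩, (nat_lit 5405497), (nat_lit 36821910), (nat_lit 16103578), (nat_lit 14074512), (nat_lit 0), (nat_lit 0), [], [⟨(nat_lit 1), (nat_lit 92), (nat_lit 68), (nat_lit 100), (nat_lit 134281058)⟩], [], [⟨(nat_lit 0), (nat_lit 92), (nat_lit 100), (nat_lit 61), (nat_lit 71302974)⟩],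
 ⟨⟨[(nat_lit 40), (nat_lit 60), (nat_lit 80)], [(nat_lit 0), (nat_lit 398), (nat_lit 992)], [((nat_lit 0), (nat_lit 0), (nat_lit 0)), ((nat_lit 1000), (nat_lit 814), (nat_lit 310)), ((nat_lit 1000), (nat_lit 752), (nat_lit 464))], ((nat_lit 73), (nat_lit 100), (nat_lit 55))⟩, (nat_lit 165632), (nat_lit 163), (nat_lit 163), (nat_lit 0), (nat_lit 364586), [(nat_lit 1373729605), (nat_lit 1389326807), (nat_lit 1337987593)], [(nat_lit 0), (nat_lit 0), (nat_lit 0)], [(nat_lit 22591950943), (nat_lit 23617981995), (nat_lit 24873673205), (nat_lit 25787338116), (nat_lit 25950419210), (nat_lit 27060062123), (nat_lit 28137263716), (nat_lit 29096917740)], (nat_lit 1271251), (nat_lit 1271251), (nat_lit 1271251), (nat_lit 1271251), (nat_lit 1271251), (nat_lit 1271251), [(nat_lit 490000), (nat_lit 780000), (nat_lit 1100000)], [(nat_lit 2), (nat_lit 44), (nat_lit 203), (nat_lit 0), (nat_lit 7)]⟩,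
 ⟨⟨[(nat_lit 80), (nat_lit 120), (nat_lit 140)], [(nat_lit 0), (nat_lit 0), (nat_lit 1164)], [((nat_lit 0), (nat_lit 0), (nat_lit 0)), ((nat_lit 0), (nat_lit 0), (nat_lit 0)), ((nat_lit 941), (nat_lit 1000), (nat_lit 576))], ((nat_lit 100), (nat_lit 95), (nat_lit 55))⟩, (nat_lit 400000), (nat_lit 731), (nat_lit 731), (nat_lit 0), (nat_lit 1146556), [(nat_lit 525056000), (nat_lit 892416000), (nat_lit 1102304000)], [], [(nat_lit 3884514620), (nat_lit 3345236923), (nat_lit 3351706582), (nat_lit 3546834188), (nat_lit 4888038190), (nat_lit 4007346021), (nat_lit 4043209786), (nat_lit 4237818865)], (nat_lit 1271251), (nat_lit 1271251), (nat_lit 1271251), (nat_lit 1271251), (nat_lit 0), (nat_lit 2825001), [(nat_lit 1100000), (nat_lit 1785001), (nat_lit 1271251)], [(nat_lit 17), (nat_lit 58), (nat_lit 483), (nat_lit 250), (nat_lit 14)]⟩,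
 ⟨⟨[(nat_lit 140), (nat_lit 180), (nat_lit 200)], [(nat_lit 0), (nat_lit 0), (nat_lit 2835)], [((nat_lit 0), (nat_lit 0), (nat_lit 0)), ((nat_lit 0), (nat_lit 0), (nat_lit 0)), ((nat_lit 363), (nat_lit 1000), (nat_lit 798))], ((nat_lit 0), (nat_lit 0), (nat_lit 0))⟩, (nat_lit 72566), (nat_lit 300), (nat_lit 434), (nat_lit 8747200), (nat_lit 0), [(nat_lit 1102304000), (nat_lit 1574496000), (nat_lit 1836800000)], [], [(nat_lit 7260708992), (nat_lit 6974475712), (nat_lit 7468380002), (nat_lit 7139086553), (nat_lit 5720714416), (nat_lit 5370751876), (nat_lit 5642568452), (nat_lit 5271281943)], (nat_lit 0), (nat_lit 0), (nat_lit 0), (nat_lit 0), (nat_lit 0), (nat_lit 0), [], [(nat_lit 32), (nat_lit 67), (nat_lit 483), (nat_lit 250), (nat_lit 10)]⟩⟩) (.trX (nat_lit 5) (nat_lit 1) (nat_lit 2) (nat_lit 92) (nat_lit 49) (nat_lit 100) (nat_lit 380) (.spl (nat_lit 0) (nat_lit 350) (.leaf ⟨(nat_lit 800), (nat_lit 49), (nat_lit 0), (nat_lit 151), (nat_lit 0),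 (nat_lit 3746), (nat_lit 1841), (nat_lit 1998), (nat_lit 0), (nat_lit 0), (nat_lit 453750), [((nat_lit 350), [((nat_lit 21), (nat_lit 0), (nat_lit 75)), ((nat_lit 39), (nat_lit 2), (nat_lit 725))])], ⟨(nat_lit 7), false, true, false, (nat_lit 269), (nat_lit 3535), (nat_lit 3873), [(nat_lit 1587148), (nat_lit 1587785), (nat_lit 1630722), (nat_lit 1631678), (nat_lit 1716203), (nat_lit 1713320), (nat_lit 1759777), (nat_lit 1757213)]⟩, ⟨(nat_lit 6), true, false, true, (nat_lit 232), (nat_lit 3535), (nat_lit 3873), [(nat_lit 1477347), (nat_lit 1474949), (nat_lit 1542727), (nat_lit 1540807), (nat_lit 1622521), (nat_lit 1616163), (nat_lit 1687900), (nat_lit 1682021)]⟩, (nat_lit 5477335), (nat_lit 35631358), (nat_lit 17556279), (nat_lit 13812363), (nat_lit 6), (nat_lit 0), [], [⟨(nat_lit 1), (nat_lit 90), (nat_lit 71), (nat_lit 100), (nat_lit 127777987)⟩], [], [⟨(nat_lit 0), (nat_lit 92), (nat_lit 100), (nat_lit 61), (nat_lit 88865840)⟩],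
 ⟨⟨[(nat_lit 40), (nat_lit 60), (nat_lit 80)], [(nat_lit 0), (nat_lit 398), (nat_lit 992)], [((nat_lit 0), (nat_lit 0), (nat_lit 0)), ((nat_lit 1000), (nat_lit 814), (nat_lit 310)), ((nat_lit 1000), (nat_lit 752), (nat_lit 464))], ((nat_lit 73), (nat_lit 100), (nat_lit 55))⟩, (nat_lit 623101), (nat_lit 180), (nat_lit 180), (nat_lit 0), (nat_lit 436443), [(nat_lit 1430120005), (nat_lit 1624507507), (nat_lit 1714432493)], [(nat_lit 0), (nat_lit 0), (nat_lit 0)], [(nat_lit 22192676693), (nat_lit 22678409458), (nat_lit 24821595934), (nat_lit 25429480535), (nat_lit 26233046444), (nat_lit 26811752876), (nat_lit 28435555977), (nat_lit 28933939547)], (nat_lit 1271251), (nat_lit 1271251), (nat_lit 1271251), (nat_lit 1271251), (nat_lit 1271251), (nat_lit 1271251), [(nat_lit 490000), (nat_lit 780000), (nat_lit 1100000)], [(nat_lit 2), (nat_lit 44), (nat_lit 203), (nat_lit 0), (nat_lit 7)]⟩,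
 ⟨⟨[(nat_lit 60), (nat_lit 100), (nat_lit 120)], [(nat_lit 0), (nat_lit 0), (nat_lit 1164)], [((nat_lit 0), (nat_lit 0), (nat_lit 0)), ((nat_lit 0), (nat_lit 0), (nat_lit 0)), ((nat_lit 1000), (nat_lit 933), (nat_lit 572))], ((nat_lit 93), (nat_lit 100), (nat_lit 55))⟩, (nat_lit 372020), (nat_lit 565), (nat_lit 565), (nat_lit 0), (nat_lit 974132), [(nat_lit 656400000), (nat_lit 1250000000), (nat_lit 1593600000)], [], [(nat_lit 5534225974), (nat_lit 5776736512), (nat_lit 5799950478), (nat_lit 6612932258), (nat_lit 6628300022), (nat_lit 6745853065), (nat_lit 6768958275), (nat_lit 7131852226)], (nat_lit 1271251), (nat_lit 1271251), (nat_lit 1271251), (nat_lit 1271251), (nat_lit 0), (nat_lit 2683751), [(nat_lit 780000), (nat_lit 1435001), (nat_lit 1271251)], [(nat_lit 10), (nat_lit 54), (nat_lit 401), (nat_lit 175), (nat_lit 13)]⟩,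
 ⟨⟨[(nat_lit 140), (nat_lit 180), (nat_lit 200)], [(nat_lit 0), (nat_lit 0), (nat_lit 2835)], [((nat_lit 0), (nat_lit 0), (nat_lit 0)), ((nat_lit 0), (nat_lit 0), (nat_lit 0)), ((nat_lit 363), (nat_lit 1000), (nat_lit 798))], ((nat_lit 0), (nat_lit 0), (nat_lit 0))⟩, (nat_lit 41545), (nat_lit 300), (nat_lit 434), (nat_lit 11793100), (nat_lit 0), [(nat_lit 1486142000), (nat_lit 2122758000), (nat_lit 2476400000)], [], [(nat_lit 9760287736), (nat_lit 9400560711), (nat_lit 10041376734), (nat_lit 9625917856), (nat_lit 7749020094), (nat_lit 7318409045), (nat_lit 7689491334), (nat_lit 7228432265)], (nat_lit 0), (nat_lit 0), (nat_lit 0), (nat_lit 0), (nat_lit 0), (nat_lit 0), [], [(nat_lit 32), (nat_lit 67), (nat_lit 456), (nat_lit 225), (nat_lit 10)]⟩⟩) (.trX (nat_lit 4) (nat_lit 0) (nat_lit 2) (nat_lit 66) (nat_lit 82) (nat_lit 100) (nat_lit 320) (.leaf ⟨(nat_lit 816), (nat_lit 38), (nat_lit 0), (nat_lit 146), (nat_lit 0), (nat_lit 3673), (nat_lit 1682),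 (nat_lit 1932), (nat_lit 0), (nat_lit 0), (nat_lit 384400), [((nat_lit 360), [((nat_lit 21), (nat_lit 1), (nat_lit 526)), ((nat_lit 39), (nat_lit 2), (nat_lit 290))])], ⟨(nat_lit 7), false, true, false, (nat_lit 269), (nat_lit 3162), (nat_lit 3536), [(nat_lit 1587777), (nat_lit 1588586), (nat_lit 1631665), (nat_lit 1632879), (nat_lit 1713320), (nat_lit 1710513), (nat_lit 1757209), (nat_lit 1754807)]⟩, ⟨(nat_lit 6), true, false, true, (nat_lit 227), (nat_lit 3162), (nat_lit 3536), [(nat_lit 1474949), (nat_lit 1472332), (nat_lit 1540807), (nat_lit 1538797), (nat_lit 1600472), (nat_lit 1594239), (nat_lit 1666330), (nat_lit 1660704)]⟩, (nat_lit 5451216), (nat_lit 35925771), (nat_lit 17631498), (nat_lit 13442731), (nat_lit 6), (nat_lit 0), [], [⟨(nat_lit 1), (nat_lit 94), (nat_lit 65), (nat_lit 100), (nat_lit 128769239)⟩], [], [⟨(nat_lit 0), (nat_lit 94), (nat_lit 100), (nat_lit 59), (nat_lit 87435956)⟩],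
 ⟨⟨[(nat_lit 40), (nat_lit 60), (nat_lit 80)], [(nat_lit 0), (nat_lit 600), (nat_lit 1195)], [((nat_lit 0), (nat_lit 0), (nat_lit 0)), ((nat_lit 1000), (nat_lit 725), (nat_lit 454)), ((nat_lit 1000), (nat_lit 720), (nat_lit 465))], ((nat_lit 69), (nat_lit 100), (nat_lit 56))⟩, (nat_lit 654702), (nat_lit 185), (nat_lit 185), (nat_lit 0), (nat_lit 453451), [(nat_lit 1437571203), (nat_lit 1698132814), (nat_lit 1889560000)], [(nat_lit 0), (nat_lit 0), (nat_lit 0)], [(nat_lit 22841035424), (nat_lit 23341879568), (nat_lit 25382065393), (nat_lit 25984460868), (nat_lit 26202451432), (nat_lit 26790707577), (nat_lit 28396742657), (nat_lit 28903351564)], (nat_lit 1271251), (nat_lit 1271251), (nat_lit 1271251), (nat_lit 1271251), (nat_lit 1271251), (nat_lit 1271251), [(nat_lit 490000), (nat_lit 780000), (nat_lit 1100000)], [(nat_lit 2), (nat_lit 44), (nat_lit 203), (nat_lit 0), (nat_lit 7)]⟩,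
 ⟨⟨[(nat_lit 60), (nat_lit 100), (nat_lit 120)], [(nat_lit 0), (nat_lit 0), (nat_lit 1164)], [((nat_lit 0), (nat_lit 0), (nat_lit 0)), ((nat_lit 0), (nat_lit 0), (nat_lit 0)), ((nat_lit 1000), (nat_lit 933), (nat_lit 572))], ((nat_lit 93), (nat_lit 100), (nat_lit 55))⟩, (nat_lit 342593), (nat_lit 618), (nat_lit 618), (nat_lit 0), (nat_lit 1072873), [(nat_lit 603888000), (nat_lit 1150000000), (nat_lit 1466112000)], [], [(nat_lit 5137248336), (nat_lit 5359890064), (nat_lit 5382023908), (nat_lit 6063374340), (nat_lit 6110543584), (nat_lit 6193977449), (nat_lit 6216230325), (nat_lit 6549137680)], (nat_lit 1271251), (nat_lit 1271251), (nat_lit 1271251), (nat_lit 1271251), (nat_lit 0), (nat_lit 2683751), [(nat_lit 780000), (nat_lit 1435001), (nat_lit 1271251)], [(nat_lit 10), (nat_lit 54), (nat_lit 401), (nat_lit 175), (nat_lit 13)]⟩,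
 ⟨⟨[(nat_lit 140), (nat_lit 180), (nat_lit 200)], [(nat_lit 0), (nat_lit 0), (nat_lit 2835)], [((nat_lit 0), (nat_lit 0), (nat_lit 0)), ((nat_lit 0), (nat_lit 0), (nat_lit 0)), ((nat_lit 363), (nat_lit 1000), (nat_lit 798))], ((nat_lit 0), (nat_lit 0), (nat_lit 0))⟩, (nat_lit 40169), (nat_lit 300), (nat_lit 434), (nat_lit 11402605), (nat_lit 0), [(nat_lit 1436932000), (nat_lit 2052468000), (nat_lit 2394400000)], [], [(nat_lit 9437147104), (nat_lit 9089289890), (nat_lit 9646428256), (nat_lit 9252232724), (nat_lit 7492237844), (nat_lit 7075840154), (nat_lit 7416311062), (nat_lit 6974748343)], (nat_lit 0), (nat_lit 0), (nat_lit 0), (nat_lit 0), (nat_lit 0), (nat_lit 0), [], [(nat_lit 32), (nat_lit 67), (nat_lit 456), (nat_lit 225), (nat_lit 10)]⟩⟩)))))))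
noncomputable def c8_35 : Tr Lf :=
 (.spl (nat_lit 0) (nat_lit 350) (.leaf ⟨(nat_lit 0), (nat_lit 0), (nat_lit 514), (nat_lit 486), (nat_lit 0), (nat_lit 4864), (nat_lit 3160), (nat_lit 14597), (nat_lit 0), (nat_lit 0), (nat_lit 0), [], Pd.none, Pd.none, (nat_lit 0), (nat_lit 1), (nat_lit 0), (nat_lit 0), (nat_lit 0), (nat_lit 6), [⟨(nat_lit 0), (nat_lit 98), (nat_lit 73), (nat_lit 100), (nat_lit 103069469)⟩], [], [⟨(nat_lit 0), (nat_lit 100), (nat_lit 92), (nat_lit 40), (nat_lit 118258939)⟩], [],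
 ⟨⟨[(nat_lit 40), (nat_lit 60), (nat_lit 80)], [(nat_lit 0), (nat_lit 398), (nat_lit 992)], [((nat_lit 0), (nat_lit 0), (nat_lit 0)), ((nat_lit 1000), (nat_lit 814), (nat_lit 310)), ((nat_lit 1000), (nat_lit 752), (nat_lit 464))], ((nat_lit 73), (nat_lit 100), (nat_lit 55))⟩, (nat_lit 2424554), (nat_lit 198), (nat_lit 198), (nat_lit 0), (nat_lit 415573), [(nat_lit 2032000006), (nat_lit 3282000003), (nat_lit 4688000000)], [], [(nat_lit 21493009992), (nat_lit 22081359460), (nat_lit 25463695756), (nat_lit 26155646690), (nat_lit 28688759384), (nat_lit 29365345644), (nat_lit 31032639804), (nat_lit 31546048630)], (nat_lit 1271251), (nat_lit 1271251), (nat_lit 780000), (nat_lit 2090001), (nat_lit 1271251), (nat_lit 1271251), [(nat_lit 490000), (nat_lit 780000), (nat_lit 1100000)], [(nat_lit 2), (nat_lit 44), (nat_lit 289), (nat_lit 75), (nat_lit 12)]⟩,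
 ⟨⟨[(nat_lit 80), (nat_lit 120), (nat_lit 140)], [(nat_lit 0), (nat_lit 0), (nat_lit 1164)], [((nat_lit 0), (nat_lit 0), (nat_lit 0)), ((nat_lit 0), (nat_lit 0), (nat_lit 0)), ((nat_lit 941), (nat_lit 1000), (nat_lit 576))], ((nat_lit 100), (nat_lit 95), (nat_lit 55))⟩, (nat_lit 1022186), (nat_lit 643), (nat_lit 643), (nat_lit 0), (nat_lit 905278), [(nat_lit 2278368000), (nat_lit 3872448000), (nat_lit 4783212000)], [], [(nat_lit 22512429600), (nat_lit 23249737996), (nat_lit 22850545924), (nat_lit 23409586252), (nat_lit 22568739160), (nat_lit 22826782400), (nat_lit 28955052792), (nat_lit 23674989832)], (nat_lit 1271251), (nat_lit 1271251), (nat_lit 780000), (nat_lit 2090001), (nat_lit 0), (nat_lit 2825001), [(nat_lit 1100000), (nat_lit 1785001), (nat_lit 1271251)], [(nat_lit 17), (nat_lit 58), (nat_lit 483), (nat_lit 250), (nat_lit 14)]⟩,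
 ⟨⟨[(nat_lit 120), (nat_lit 160), (nat_lit 180)], [(nat_lit 0), (nat_lit 533), (nat_lit 2066)], [((nat_lit 0), (nat_lit 0), (nat_lit 0)), ((nat_lit 960), (nat_lit 1000), (nat_lit 200)), ((nat_lit 615), (nat_lit 1000), (nat_lit 729))], ((nat_lit 100), (nat_lit 79), (nat_lit 55))⟩, (nat_lit 2341463), (nat_lit 300), (nat_lit 313), (nat_lit 66400002), (nat_lit 0), [(nat_lit 7968000000), (nat_lit 11872000000), (nat_lit 14058000000)], [], [(nat_lit 43080561276), (nat_lit 43164824785), (nat_lit 50365937381), (nat_lit 50240889024), (nat_lit 37092251319), (nat_lit 37053972081), (nat_lit 46378561179), (nat_lit 45844564176)], (nat_lit 0), (nat_lit 0), (nat_lit 0), (nat_lit 0), (nat_lit 0), (nat_lit 0), [], [(nat_lit 28), (nat_lit 65), (nat_lit 483), (nat_lit 250), (nat_lit 11)]⟩⟩) (.trX (nat_lit 4) (nat_lit 0) (nat_lit 2) (nat_lit 66) (nat_lit 68) (nat_lit 100) (nat_lit 350) (.leaf ⟨(nat_lit 0), (nat_lit 0), (nat_lit 612), (nat_lit 388), (nat_lit 0), (nat_lit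 5012), (nat_lit 2738), (nat_lit 15029), (nat_lit 0), (nat_lit 0), (nat_lit 0), [], Pd.none, Pd.none, (nat_lit 0), (nat_lit 1), (nat_lit 0), (nat_lit 0), (nat_lit 0), (nat_lit 6), [⟨(nat_lit 0), (nat_lit 95), (nat_lit 66), (nat_lit 100), (nat_lit 32925219)⟩], [⟨(nat_lit 1), (nat_lit 77), (nat_lit 63), (nat_lit 100), (nat_lit 17502478)⟩], [⟨(nat_lit 0), (nat_lit 100), (nat_lit 92), (nat_lit 40), (nat_lit 62677142)⟩], [],
 ⟨⟨[(nat_lit 40), (nat_lit 60), (nat_lit 80)], [(nat_lit 0), (nat_lit 600), (nat_lit 1195)], [((nat_lit 0), (nat_lit 0), (nat_lit 0)), ((nat_lit 1000), (nat_lit 725), (nat_lit 454)), ((nat_lit 1000), (nat_lit 720), (nat_lit 465))], ((nat_lit 69), (nat_lit 100), (nat_lit 56))⟩, (nat_lit 1054613), (nat_lit 203), (nat_lit 203), (nat_lit 0), (nat_lit 432080), [(nat_lit 2032000024), (nat_lit 3282000047), (nat_lit 4688000000)], [], [(nat_lit 22875980383), (nat_lit 23502867444), (nat_lit 26343983998), (nat_lit 26954855592), (nat_lit 28859508640),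 (nat_lit 29568298377), (nat_lit 31168014345), (nat_lit 31703703040)], (nat_lit 1271251), (nat_lit 1271251), (nat_lit 780000), (nat_lit 2090001), (nat_lit 1271251), (nat_lit 1271251), [(nat_lit 490000), (nat_lit 780000), (nat_lit 1100000)], [(nat_lit 2), (nat_lit 44), (nat_lit 289), (nat_lit 75), (nat_lit 12)]⟩,
 ⟨⟨[(nat_lit 80), (nat_lit 120), (nat_lit 140)], [(nat_lit 0), (nat_lit 0), (nat_lit 1164)], [((nat_lit 0), (nat_lit 0), (nat_lit 0)), ((nat_lit 0), (nat_lit 0), (nat_lit 0)), ((nat_lit 941), (nat_lit 1000), (nat_lit 576))], ((nat_lit 100), (nat_lit 95), (nat_lit 55))⟩, (nat_lit 695792), (nat_lit 731), (nat_lit 731), (nat_lit 0), (nat_lit 1076063), [(nat_lit 1818944000), (nat_lit 3091584000), (nat_lit 3818696000)], [], [(nat_lit 18533750308), (nat_lit 19007198392), (nat_lit 18542281488), (nat_lit 18830012656), (nat_lit 17934694832), (nat_lit 18049273012), (nat_lit 23430449612), (nat_lit 18855508984)], (nat_lit 1271251), (nat_lit 1271251),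 (nat_lit 780000), (nat_lit 2090001), (nat_lit 0), (nat_lit 2825001), [(nat_lit 1100000), (nat_lit 1785001), (nat_lit 1271251)], [(nat_lit 17), (nat_lit 58), (nat_lit 483), (nat_lit 250), (nat_lit 14)]⟩,
 ⟨⟨[(nat_lit 120), (nat_lit 160), (nat_lit 180)], [(nat_lit 0), (nat_lit 533), (nat_lit 2066)], [((nat_lit 0), (nat_lit 0), (nat_lit 0)), ((nat_lit 960), (nat_lit 1000), (nat_lit 200)), ((nat_lit 615), (nat_lit 1000), (nat_lit 729))], ((nat_lit 100), (nat_lit 79), (nat_lit 55))⟩, (nat_lit 2341463), (nat_lit 300), (nat_lit 309), (nat_lit 66400002), (nat_lit 0), [(nat_lit 7968000000), (nat_lit 11872000000), (nat_lit 14058000000)], [], [(nat_lit 42910021611), (nat_lit 43000600830), (nat_lit 49577365580), (nat_lit 49548829696), (nat_lit 37049226739), (nat_lit 37468075617), (nat_lit 45925880591), (nat_lit 45441638634)], (nat_lit 0), (nat_lit 0), (nat_lit 0), (nat_lit 0), (nat_lit 0), (nat_lit 0), [], [(nat_lit 28), (nat_lit 65), (nat_lit 483), (nat_lit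 250), (nat_lit 11)]⟩⟩)))
noncomputable def c8_36 : Tr Lf :=
 (.spl (nat_lit 5) (nat_lit 120) (.trX (nat_lit 4) (nat_lit 3) (nat_lit 5) (nat_lit 100) (nat_lit 80) (nat_lit 100) (nat_lit 340) (.spl (nat_lit 1) (nat_lit 280) (.trX (nat_lit 3) (nat_lit 0) (nat_lit 1) (nat_lit 78) (nat_lit 39) (nat_lit 100) (nat_lit 390) (.spl (nat_lit 6) (nat_lit 16) (.leaf ⟨(nat_lit 627), (nat_lit 276), (nat_lit 0), (nat_lit 97), (nat_lit 0), (nat_lit 3597), (nat_lit 2950), (nat_lit 2013), (nat_lit 0), (nat_lit 0), (nat_lit 306550), [((nat_lit 360), [((nat_lit 21), (nat_lit 0), (nat_lit 199)), ((nat_lit 39), (nat_lit 2), (nat_lit 428))])], ⟨(nat_lit 7), false, true, true, (nat_lit 311), (nat_lit 3162), (nat_lit 3873), [(nat_lit 1672628), (nat_lit 1666215), (nat_lit 1716165), (nat_lit 1710475), (nat_lit 1850063), (nat_lit 1833837), (nat_lit 1893649), (nat_lit 1878147)]⟩, ⟨(nat_lit 3), true, false, true, (nat_lit 206), (nat_lit 3162), (nat_lit 3873), [(nat_lit 1283782),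 (nat_lit 1289472), (nat_lit 1392656), (nat_lit 1400154), (nat_lit 1638651), (nat_lit 1624716), (nat_lit 1747617), (nat_lit 1735490)]⟩, (nat_lit 5426347), (nat_lit 34281757), (nat_lit 21668827), (nat_lit 11049416), (nat_lit 3), (nat_lit 0), [], [], [⟨(nat_lit 0), (nat_lit 100), (nat_lit 96), (nat_lit 16), (nat_lit 827190)⟩], [⟨(nat_lit 0), (nat_lit 100), (nat_lit 75), (nat_lit 79), (nat_lit 190337382)⟩],
 ⟨⟨[(nat_lit 40), (nat_lit 60), (nat_lit 80)], [(nat_lit 0), (nat_lit 398), (nat_lit 992)], [((nat_lit 0), (nat_lit 0), (nat_lit 0)), ((nat_lit 1000), (nat_lit 814), (nat_lit 310)), ((nat_lit 1000), (nat_lit 752), (nat_lit 464))], ((nat_lit 77), (nat_lit 100), (nat_lit 42))⟩, (nat_lit 1600597), (nat_lit 196), (nat_lit 196), (nat_lit 0), (nat_lit 364335), [(nat_lit 1541061601), (nat_lit 2031342433), (nat_lit 2513202167)], [(nat_lit 0), (nat_lit 0), (nat_lit 0)], [(nat_lit 22909772941), (nat_lit 23949708674), (nat_lit 28899023206), (nat_lit 29969690489),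 (nat_lit 28785129859), (nat_lit 29741932967), (nat_lit 33029716129), (nat_lit 33764394660)], (nat_lit 1271251), (nat_lit 1271251), (nat_lit 1271251), (nat_lit 1271251), (nat_lit 780000), (nat_lit 2581251), [(nat_lit 490000), (nat_lit 780000), (nat_lit 1100000)], [(nat_lit 2), (nat_lit 44), (nat_lit 317), (nat_lit 100), (nat_lit 13)]⟩,
 ⟨⟨[(nat_lit 80), (nat_lit 100), (nat_lit 120)], [(nat_lit 0), (nat_lit 0), (nat_lit 511)], [((nat_lit 0), (nat_lit 0), (nat_lit 0)), ((nat_lit 0), (nat_lit 0), (nat_lit 0)), ((nat_lit 1000), (nat_lit 997), (nat_lit 383))], ((nat_lit 100), (nat_lit 100), (nat_lit 40))⟩, (nat_lit 1522155), (nat_lit 550), (nat_lit 550), (nat_lit 0), (nat_lit 933620), [(nat_lit 1748624000), (nat_lit 2331250000), (nat_lit 2972064000)], [], [(nat_lit 12541181807), (nat_lit 12843556979), (nat_lit 13873320572), (nat_lit 14820117735), (nat_lit 11228956693), (nat_lit 11483236258), (nat_lit 12275291378), (nat_lit 12459198798)], (nat_lit 1271251),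 (nat_lit 1271251), (nat_lit 1271251), (nat_lit 1271251), (nat_lit 0), (nat_lit 780000), [(nat_lit 1100000), (nat_lit 1442501), (nat_lit 1271251)], [(nat_lit 16), (nat_lit 54), (nat_lit 238), (nat_lit 30), (nat_lit 7)]⟩,
 ⟨⟨[(nat_lit 140), (nat_lit 160), (nat_lit 180)], [(nat_lit 0), (nat_lit 0), (nat_lit 799)], [((nat_lit 0), (nat_lit 0), (nat_lit 0)), ((nat_lit 0), (nat_lit 0), (nat_lit 0)), ((nat_lit 728), (nat_lit 1000), (nat_lit 454))], ((nat_lit 100), (nat_lit 75), (nat_lit 43))⟩, (nat_lit 870038), (nat_lit 300), (nat_lit 392), (nat_lit 7197400), (nat_lit 0), [(nat_lit 954674000), (nat_lit 1151584000), (nat_lit 1363626000)], [], [(nat_lit 5493472864), (nat_lit 5173732198), (nat_lit 5564654744), (nat_lit 5007457771), (nat_lit 3688719220), (nat_lit 3389474580), (nat_lit 3718424250), (nat_lit 3192645684)], (nat_lit 0), (nat_lit 0), (nat_lit 0), (nat_lit 0), (nat_lit 0), (nat_lit 0), [], [(nat_lit 31), (nat_lit 65), (nat_lit 401), (nat_lit 175),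 (nat_lit 10)]⟩⟩) (.leaf ⟨(nat_lit 532), (nat_lit 362), (nat_lit 0), (nat_lit 106), (nat_lit 0), (nat_lit 4084), (nat_lit 3640), (nat_lit 1483), (nat_lit 0), (nat_lit 0), (nat_lit 240450), [((nat_lit 360), [((nat_lit 21), (nat_lit 0), (nat_lit 225)), ((nat_lit 39), (nat_lit 2), (nat_lit 307))])], ⟨(nat_lit 7), false, true, true, (nat_lit 311), (nat_lit 3162), (nat_lit 3873), [(nat_lit 1672628), (nat_lit 1666215), (nat_lit 1716165), (nat_lit 1710475), (nat_lit 1850063), (nat_lit 1833837), (nat_lit 1893649), (nat_lit 1878147)]⟩, ⟨(nat_lit 3), true, false, true, (nat_lit 206), (nat_lit 3162), (nat_lit 3873), [(nat_lit 1283782), (nat_lit 1289472), (nat_lit 1392656), (nat_lit 1400154), (nat_lit 1638651), (nat_lit 1624716), (nat_lit 1747617), (nat_lit 1735490)]⟩, (nat_lit 5426347), (nat_lit 34281757), (nat_lit 21668827), (nat_lit 11049416), (nat_lit 3), (nat_lit 0), [], [], [], [⟨(nat_lit 0), (nat_lit 100), (nat_lit 75), (nat_lit 79), (nat_lit 206782973)⟩],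
 ⟨⟨[(nat_lit 40), (nat_lit 60), (nat_lit 80)], [(nat_lit 0), (nat_lit 398), (nat_lit 992)], [((nat_lit 0), (nat_lit 0), (nat_lit 0)), ((nat_lit 1000), (nat_lit 814), (nat_lit 310)), ((nat_lit 1000), (nat_lit 752), (nat_lit 464))], ((nat_lit 73), (nat_lit 100), (nat_lit 55))⟩, (nat_lit 703945), (nat_lit 171), (nat_lit 171), (nat_lit 0), (nat_lit 266619), [(nat_lit 1602537660), (nat_lit 2246194041), (nat_lit 2896621200)], [(nat_lit 0), (nat_lit 0), (nat_lit 0)], [(nat_lit 23306429821), (nat_lit 24420073728), (nat_lit 29646932603), (nat_lit 30777641629), (nat_lit 29231212362), (nat_lit 30238045224), (nat_lit 33646113566), (nat_lit 34409193343)], (nat_lit 1271251), (nat_lit 1271251), (nat_lit 1271251), (nat_lit 1271251), (nat_lit 780000), (nat_lit 2581251), [(nat_lit 490000), (nat_lit 780000), (nat_lit 1100000)], [(nat_lit 2), (nat_lit 44), (nat_lit 317), (nat_lit 100), (nat_lit 13)]⟩,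
 ⟨⟨[(nat_lit 80), (nat_lit 120), (nat_lit 140)], [(nat_lit 0), (nat_lit 0), (nat_lit 1164)], [((nat_lit 0), (nat_lit 0), (nat_lit 0)), ((nat_lit 0), (nat_lit 0), (nat_lit 0)), ((nat_lit 941), (nat_lit 1000), (nat_lit 576))], ((nat_lit 100), (nat_lit 95), (nat_lit 55))⟩, (nat_lit 1179227), (nat_lit 487), (nat_lit 487), (nat_lit 0), (nat_lit 639215), [(nat_lit 2193984000), (nat_lit 3729024000), (nat_lit 4606056000)], [], [(nat_lit 17292018804), (nat_lit 17858138904), (nat_lit 19645938208), (nat_lit 20048939482), (nat_lit 15304255408), (nat_lit 15754608376), (nat_lit 17337938969), (nat_lit 17689082216)], (nat_lit 1271251), (nat_lit 1271251), (nat_lit 1271251), (nat_lit 1271251), (nat_lit 0), (nat_lit 780000), [(nat_lit 1100000), (nat_lit 1785001), (nat_lit 1271251)], [(nat_lit 17), (nat_lit 58), (nat_lit 317), (nat_lit 100), (nat_lit 9)]⟩,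
 ⟨⟨[(nat_lit 140), (nat_lit 180), (nat_lit 200)], [(nat_lit 0), (nat_lit 0), (nat_lit 2835)], [((nat_lit 0), (nat_lit 0), (nat_lit 0)), ((nat_lit 0), (nat_lit 0), (nat_lit 0)), ((nat_lit 363), (nat_lit 1000), (nat_lit 798))], ((nat_lit 0), (nat_lit 0), (nat_lit 0))⟩, (nat_lit 29164), (nat_lit 300), (nat_lit 491), (nat_lit 8278601), (nat_lit 0), [(nat_lit 1043252000), (nat_lit 1490148000), (nat_lit 1738400000)], [], [(nat_lit 7299931670), (nat_lit 6967281847), (nat_lit 7117706017), (nat_lit 6662686883), (nat_lit 5985119149), (nat_lit 5624033238), (nat_lit 5749259444), (nat_lit 5325313766)], (nat_lit 0), (nat_lit 0), (nat_lit 0), (nat_lit 0), (nat_lit 0), (nat_lit 0), [], [(nat_lit 32), (nat_lit 67), (nat_lit 401), (nat_lit 175), (nat_lit 9)]⟩⟩))) (.spl (nat_lit 3) (nat_lit 360) (.leaf ⟨(nat_lit 89), (nat_lit 733), (nat_lit 0), (nat_lit 178), (nat_lit 0), (nat_lit 4261), (nat_lit 6492), (nat_lit 2490), (nat_lit 0), (nat_lit 0), (nat_lit 356000), [((nat_lit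 360), [((nat_lit 39), (nat_lit 5), (nat_lit 89))])], ⟨(nat_lit 7), false, true, true, (nat_lit 319), (nat_lit 3162), (nat_lit 3873), [(nat_lit 1716165), (nat_lit 1710475), (nat_lit 1759694), (nat_lit 1754728), (nat_lit 1845258), (nat_lit 1832432), (nat_lit 1888802), (nat_lit 1876699)]⟩, ⟨(nat_lit 3), true, false, true, (nat_lit 206), (nat_lit 3162), (nat_lit 3873), [(nat_lit 1283782), (nat_lit 1289472), (nat_lit 1392656), (nat_lit 1400154), (nat_lit 1638651), (nat_lit 1624716), (nat_lit 1747617), (nat_lit 1735490)]⟩, (nat_lit 5436915), (nat_lit 33740904), (nat_lit 22345976), (nat_lit 10913120), (nat_lit 3), (nat_lit 0), [], [], [], [⟨(nat_lit 0), (nat_lit 100), (nat_lit 81), (nat_lit 72), (nat_lit 277540612)⟩],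
 ⟨⟨[(nat_lit 40), (nat_lit 60), (nat_lit 80)], [(nat_lit 0), (nat_lit 398), (nat_lit 992)], [((nat_lit 0), (nat_lit 0), (nat_lit 0)), ((nat_lit 1000), (nat_lit 814), (nat_lit 310)), ((nat_lit 1000), (nat_lit 752), (nat_lit 464))], ((nat_lit 73), (nat_lit 100), (nat_lit 55))⟩, (nat_lit 3260698), (nat_lit 213), (nat_lit 213), (nat_lit 0), (nat_lit 459586), [(nat_lit 1915516824), (nat_lit 2821335046), (nat_lit 3389525600)], [(nat_lit 0), (nat_lit 0), (nat_lit 0)], [(nat_lit 23432769176), (nat_lit 24591027762), (nat_lit 27905240179), (nat_lit 29171660596), (nat_lit 29393340911), (nat_lit 30418357071), (nat_lit 32536595060), (nat_lit 33379375126)], (nat_lit 1271251), (nat_lit 1271251), (nat_lit 1271251), (nat_lit 1271251), (nat_lit 780000), (nat_lit 2581251), [(nat_lit 490000), (nat_lit 780000), (nat_lit 1100000)], [(nat_lit 2), (nat_lit 44), (nat_lit 317), (nat_lit 100), (nat_lit 13)]⟩,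
 ⟨⟨[(nat_lit 60), (nat_lit 100), (nat_lit 120)], [(nat_lit 0), (nat_lit 0), (nat_lit 1164)], [((nat_lit 0), (nat_lit 0), (nat_lit 0)), ((nat_lit 0), (nat_lit 0), (nat_lit 0)), ((nat_lit 1000), (nat_lit 933), (nat_lit 572))], ((nat_lit 93), (nat_lit 100), (nat_lit 55))⟩, (nat_lit 2934334), (nat_lit 527), (nat_lit 527), (nat_lit 0), (nat_lit 890063), [(nat_lit 2989902000), (nat_lit 5693750000), (nat_lit 7258848000)], [], [(nat_lit 31427793166), (nat_lit 32663430574), (nat_lit 34307380425), (nat_lit 35239827946), (nat_lit 28340300516), (nat_lit 29401270101), (nat_lit 30855727393), (nat_lit 31667619091)], (nat_lit 1271251), (nat_lit 1271251), (nat_lit 1271251), (nat_lit 1271251), (nat_lit 0), (nat_lit 780000), [(nat_lit 780000), (nat_lit 1435001), (nat_lit 1271251)], [(nat_lit 10), (nat_lit 54), (nat_lit 238), (nat_lit 30), (nat_lit 7)]⟩,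
 ⟨⟨[(nat_lit 140), (nat_lit 180), (nat_lit 200)], [(nat_lit 0), (nat_lit 0), (nat_lit 2835)], [((nat_lit 0), (nat_lit 0), (nat_lit 0)), ((nat_lit 0), (nat_lit 0), (nat_lit 0)), ((nat_lit 363), (nat_lit 1000), (nat_lit 798))], ((nat_lit 0), (nat_lit 0), (nat_lit 0))⟩, (nat_lit 335361), (nat_lit 300), (nat_lit 491), (nat_lit 13901800), (nat_lit 0), [(nat_lit 1751876000), (nat_lit 2502324000), (nat_lit 2919200000)], [], [(nat_lit 12258376323), (nat_lit 11699653576), (nat_lit 11952280192), (nat_lit 11188329715), (nat_lit 10050805367), (nat_lit 9444571848), (nat_lit 9654654483), (nat_lit 8942876031)], (nat_lit 0), (nat_lit 0), (nat_lit 0), (nat_lit 0), (nat_lit 0), (nat_lit 0), [], [(nat_lit 32), (nat_lit 67), (nat_lit 401), (nat_lit 175), (nat_lit 9)]⟩⟩) (.trX (nat_lit 4) (nat_lit 3) (nat_lit 5) (nat_lit 62) (nat_lit 100) (nat_lit 94) (nat_lit 250) (.trZ (nat_lit 3) (nat_lit 4) (nat_lit 5) (nat_lit 100) (nat_lit 65) (nat_lit 54) (nat_lit 20) (.leaf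 ⟨(nat_lit 0), (nat_lit 926), (nat_lit 0), (nat_lit 74), (nat_lit 0), (nat_lit 4174), (nat_lit 6697), (nat_lit 3018), (nat_lit 0), (nat_lit 0), (nat_lit 0), [], Pd.none, Pd.none, (nat_lit 0), (nat_lit 1), (nat_lit 0), (nat_lit 0), (nat_lit 3), (nat_lit 0), [], [], [], [⟨(nat_lit 0), (nat_lit 100), (nat_lit 44), (nat_lit 87), (nat_lit 377163304)⟩],
 ⟨⟨[(nat_lit 40), (nat_lit 60), (nat_lit 80)], [(nat_lit 0), (nat_lit 398), (nat_lit 992)], [((nat_lit 0), (nat_lit 0), (nat_lit 0)), ((nat_lit 1000), (nat_lit 814), (nat_lit 310)), ((nat_lit 1000), (nat_lit 752), (nat_lit 464))], ((nat_lit 73), (nat_lit 100), (nat_lit 55))⟩, (nat_lit 4002367), (nat_lit 226), (nat_lit 226), (nat_lit 0), (nat_lit 459586), [(nat_lit 2032000001), (nat_lit 3404417886), (nat_lit 4688000000)], [], [(nat_lit 27942880938), (nat_lit 29046099064), (nat_lit 30449468221), (nat_lit 31553906954), (nat_lit 29611949535), (nat_lit 30401775643), (nat_lit 31541633117), (nat_lit 32451456171)],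 (nat_lit 1271251), (nat_lit 1271251), (nat_lit 1271251), (nat_lit 1271251), (nat_lit 780000), (nat_lit 1844376), [(nat_lit 490000), (nat_lit 780000), (nat_lit 1100000)], [(nat_lit 2), (nat_lit 44), (nat_lit 289), (nat_lit 75), (nat_lit 11)]⟩,
 ⟨⟨[(nat_lit 60), (nat_lit 100), (nat_lit 120)], [(nat_lit 0), (nat_lit 0), (nat_lit 1164)], [((nat_lit 0), (nat_lit 0), (nat_lit 0)), ((nat_lit 0), (nat_lit 0), (nat_lit 0)), ((nat_lit 1000), (nat_lit 933), (nat_lit 572))], ((nat_lit 93), (nat_lit 100), (nat_lit 55))⟩, (nat_lit 2960525), (nat_lit 518), (nat_lit 518), (nat_lit 0), (nat_lit 890063), [(nat_lit 3282000000), (nat_lit 6250000000), (nat_lit 7968000000)], [], [(nat_lit 38106505457), (nat_lit 39103579772), (nat_lit 39831735214), (nat_lit 40670420133), (nat_lit 35401407777), (nat_lit 36288158213), (nat_lit 36956242419), (nat_lit 37701412334)], (nat_lit 1271251), (nat_lit 1271251), (nat_lit 1271251), (nat_lit 1271251), (nat_lit 111251), (nat_lit 780000),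 [(nat_lit 780000), (nat_lit 1435001), (nat_lit 1271251)], [(nat_lit 10), (nat_lit 54), (nat_lit 238), (nat_lit 30), (nat_lit 7)]⟩,
 ⟨⟨[(nat_lit 140), (nat_lit 180), (nat_lit 200)], [(nat_lit 0), (nat_lit 0), (nat_lit 2835)], [((nat_lit 0), (nat_lit 0), (nat_lit 0)), ((nat_lit 0), (nat_lit 0), (nat_lit 0)), ((nat_lit 363), (nat_lit 1000), (nat_lit 798))], ((nat_lit 0), (nat_lit 0), (nat_lit 0))⟩, (nat_lit 875513), (nat_lit 300), (nat_lit 467), (nat_lit 5779400), (nat_lit 0), [(nat_lit 728308000), (nat_lit 1040292000), (nat_lit 1213600000)], [], [(nat_lit 5956443394), (nat_lit 5019955368), (nat_lit 4817633160), (nat_lit 4100372758), (nat_lit 3521541934), (nat_lit 2637264151), (nat_lit 2429527381), (nat_lit 1750953443)], (nat_lit 0), (nat_lit 0), (nat_lit 0), (nat_lit 0), (nat_lit 0), (nat_lit 0), [], [(nat_lit 32), (nat_lit 67), (nat_lit 373), (nat_lit 150), (nat_lit 8)]⟩⟩)))))) (.leaf ⟨(nat_lit 0), (nat_lit 0), (nat_lit 0), (nat_lit 1000), (nat_lit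 0), (nat_lit 4419), (nat_lit 8290), (nat_lit 25848), (nat_lit 0), (nat_lit 0), (nat_lit 0), [], Pd.none, Pd.none, (nat_lit 0), (nat_lit 1), (nat_lit 0), (nat_lit 0), (nat_lit 0), (nat_lit 0), [], [], [], [],
 ⟨⟨[(nat_lit 40), (nat_lit 60), (nat_lit 80)], [(nat_lit 0), (nat_lit 398), (nat_lit 992)], [((nat_lit 0), (nat_lit 0), (nat_lit 0)), ((nat_lit 1000), (nat_lit 814), (nat_lit 310)), ((nat_lit 1000), (nat_lit 752), (nat_lit 464))], ((nat_lit 73), (nat_lit 100), (nat_lit 55))⟩, (nat_lit 5079102), (nat_lit 226), (nat_lit 226), (nat_lit 0), (nat_lit 459953), [(nat_lit 2032000049), (nat_lit 3496167628), (nat_lit 4688000000)], [], [(nat_lit 23565413969), (nat_lit 24743630798), (nat_lit 30845030889), (nat_lit 31977994849), (nat_lit 30579313409), (nat_lit 31564726926), (nat_lit 35279707661), (nat_lit 35998929200)], (nat_lit 1271251), (nat_lit 1271251), (nat_lit 1271251), (nat_lit 1271251), (nat_lit 780000), (nat_lit 2745001), [(nat_lit 490000), (nat_lit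 780000), (nat_lit 1100000)], [(nat_lit 2), (nat_lit 44), (nat_lit 317), (nat_lit 100), (nat_lit 13)]⟩,
 ⟨⟨[(nat_lit 80), (nat_lit 120), (nat_lit 140)], [(nat_lit 0), (nat_lit 0), (nat_lit 1164)], [((nat_lit 0), (nat_lit 0), (nat_lit 0)), ((nat_lit 0), (nat_lit 0), (nat_lit 0)), ((nat_lit 941), (nat_lit 1000), (nat_lit 576))], ((nat_lit 100), (nat_lit 95), (nat_lit 55))⟩, (nat_lit 2872934), (nat_lit 652), (nat_lit 652), (nat_lit 0), (nat_lit 1217772), [(nat_lit 4688000000), (nat_lit 7968000000), (nat_lit 9842000000)], [], [(nat_lit 37458167630), (nat_lit 38344683220), (nat_lit 39832672600), (nat_lit 40154094640), (nat_lit 38150488560), (nat_lit 38099367160), (nat_lit 40047044720), (nat_lit 41707597360)], (nat_lit 1271251), (nat_lit 1271251), (nat_lit 1271251), (nat_lit 1271251), (nat_lit 780000), (nat_lit 3072501), [(nat_lit 1100000), (nat_lit 1785001), (nat_lit 1271251)], [(nat_lit 17), (nat_lit 58), (nat_lit 428), (nat_lit 200), (nat_lit 11)]⟩,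
 ⟨⟨[(nat_lit 140), (nat_lit 180), (nat_lit 200)], [(nat_lit 0), (nat_lit 0), (nat_lit 2835)], [((nat_lit 0), (nat_lit 0), (nat_lit 0)), ((nat_lit 0), (nat_lit 0), (nat_lit 0)), ((nat_lit 363), (nat_lit 1000), (nat_lit 798))], ((nat_lit 0), (nat_lit 0), (nat_lit 0))⟩, (nat_lit 6518489), (nat_lit 291), (nat_lit 291), (nat_lit 0), (nat_lit 0), [(nat_lit 9842000000), (nat_lit 14058000000), (nat_lit 16400000000)], [], [(nat_lit 25361966408), (nat_lit 27149151946), (nat_lit 45694983880), (nat_lit 41038284486), (nat_lit 53870426656), (nat_lit 52096510708), (nat_lit 67806112624), (nat_lit 60833613292)], (nat_lit 0), (nat_lit 0), (nat_lit 0), (nat_lit 0), (nat_lit 0), (nat_lit 0), [], [(nat_lit 32), (nat_lit 67), (nat_lit 483), (nat_lit 250), (nat_lit 10)]⟩⟩))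
noncomputable def c8_37 : Tr Lf :=
 (.spl (nat_lit 1) (nat_lit 280) (.stt (nat_lit 1) (.leaf ⟨(nat_lit 871), (nat_lit 129), (nat_lit 0), (nat_lit 0), (nat_lit 0), (nat_lit 3753), (nat_lit 1062), (nat_lit 0), (nat_lit 0), (nat_lit 0), (nat_lit 217750), [((nat_lit 360), [((nat_lit 21), (nat_lit 0), (nat_lit 871))])], ⟨(nat_lit 6), true, false, false, (nat_lit 226), (nat_lit 3162), (nat_lit 3873), [(nat_lit 1414421), (nat_lit 1422280), (nat_lit 1457950), (nat_lit 1466533), (nat_lit 1672628), (nat_lit 1666215), (nat_lit 1716165), (nat_lit 1710475)]⟩, ⟨(nat_lit 3), false, false, true, (nat_lit 165), (nat_lit 3162), (nat_lit 3873), [(nat_lit 1283782), (nat_lit 1289472), (nat_lit 1349127), (nat_lit 1355902), (nat_lit 1477347), (nat_lit 1472332), (nat_lit 1542727), (nat_lit 1538797)]⟩, (nat_lit 4805288), (nat_lit 42793389), (nat_lit 15048511), (nat_lit 9158100), (nat_lit 3), (nat_lit 0), [], [], [⟨(nat_lit 1), (nat_lit 55), (nat_lit 99), (nat_lit 100),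 (nat_lit 30831558)⟩], [],
 ⟨⟨[(nat_lit 40), (nat_lit 60), (nat_lit 80)], [(nat_lit 0), (nat_lit 398), (nat_lit 992)], [((nat_lit 0), (nat_lit 0), (nat_lit 0)), ((nat_lit 1000), (nat_lit 814), (nat_lit 310)), ((nat_lit 1000), (nat_lit 752), (nat_lit 464))], ((nat_lit 73), (nat_lit 100), (nat_lit 55))⟩, (nat_lit 0), (nat_lit 53), (nat_lit 53), (nat_lit 0), (nat_lit 0), [(nat_lit 1589308512), (nat_lit 1813145711), (nat_lit 2315047600)], [(nat_lit 0), (nat_lit 0), (nat_lit 0)], [(nat_lit 17392836637), (nat_lit 19296111446), (nat_lit 22630535533), (nat_lit 24100380026), (nat_lit 20540495354), (nat_lit 22148934799), (nat_lit 24825616237), (nat_lit 26042438148)], (nat_lit 0), (nat_lit 0), (nat_lit 0), (nat_lit 0), (nat_lit 0), (nat_lit 0), [], [(nat_lit 2), (nat_lit 44), (nat_lit 373), (nat_lit 150), (nat_lit 17)]⟩,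
 ⟨⟨[(nat_lit 80), (nat_lit 120), (nat_lit 140)], [(nat_lit 0), (nat_lit 0), (nat_lit 1164)], [((nat_lit 0), (nat_lit 0), (nat_lit 0)), ((nat_lit 0), (nat_lit 0), (nat_lit 0)), ((nat_lit 941), (nat_lit 1000), (nat_lit 576))], ((nat_lit 100), (nat_lit 95), (nat_lit 55))⟩, (nat_lit 295613), (nat_lit 177), (nat_lit 177), (nat_lit 0), (nat_lit 0), [(nat_lit 604752000), (nat_lit 1027872000), (nat_lit 1269618000)], [], [(nat_lit 2955292680), (nat_lit 3451861581), (nat_lit 3799142280), (nat_lit 4139846019), (nat_lit 4256449992), (nat_lit 4439858172), (nat_lit 4340615382), (nat_lit 4466328372)], (nat_lit 0), (nat_lit 0), (nat_lit 0), (nat_lit 0), (nat_lit 0), (nat_lit 0), [], [(nat_lit 17), (nat_lit 58), (nat_lit 483), (nat_lit 250), (nat_lit 14)]⟩,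
 Rw.none⟩) (.spl (nat_lit 4) (nat_lit 200) (.leaf ⟨(nat_lit 765), (nat_lit 172), (nat_lit 0), (nat_lit 63), (nat_lit 0), (nat_lit 3693), (nat_lit 1808), (nat_lit 595), (nat_lit 0), (nat_lit 0), (nat_lit 423650), [((nat_lit 360), [((nat_lit 21), (nat_lit 0), (nat_lit 101)), ((nat_lit 39), (nat_lit 2), (nat_lit 664))])], ⟨(nat_lit 6), true, false, false, (nat_lit 226), (nat_lit 3162), (nat_lit 3873), [(nat_lit 1414421), (nat_lit 1422280), (nat_lit 1457950), (nat_lit 1466533), (nat_lit 1672628), (nat_lit 1666215), (nat_lit 1716165), (nat_lit 1710475)]⟩, ⟨(nat_lit 3), false, false, true, (nat_lit 153), (nat_lit 3162), (nat_lit 3873), [(nat_lit 1283782), (nat_lit 1289472), (nat_lit 1349127), (nat_lit 1355902), (nat_lit 1412825), (nat_lit 1411379), (nat_lit 1478205), (nat_lit 1477844)]⟩, (nat_lit 4685693), (nat_lit 43599464), (nat_lit 15214905), (nat_lit 8185631), (nat_lit 3), (nat_lit 0), [⟨(nat_lit 0), (nat_lit 94), (nat_lit 62), (nat_lit 100), (nat_lit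 36484417)⟩], [], [], [],
 ⟨⟨[(nat_lit 40), (nat_lit 60), (nat_lit 80)], [(nat_lit 0), (nat_lit 398), (nat_lit 992)], [((nat_lit 0), (nat_lit 0), (nat_lit 0)), ((nat_lit 1000), (nat_lit 814), (nat_lit 310)), ((nat_lit 1000), (nat_lit 752), (nat_lit 464))], ((nat_lit 73), (nat_lit 100), (nat_lit 55))⟩, (nat_lit 1098985), (nat_lit 208), (nat_lit 208), (nat_lit 0), (nat_lit 504332), [(nat_lit 1452596001), (nat_lit 1692041610), (nat_lit 1892191390)], [(nat_lit 0), (nat_lit 0), (nat_lit 0)], [(nat_lit 18202656737), (nat_lit 19438510438), (nat_lit 22584512383), (nat_lit 24042429506), (nat_lit 19718613639), (nat_lit 20821192446), (nat_lit 23784283845), (nat_lit 25080794728)], (nat_lit 1271251), (nat_lit 1271251), (nat_lit 780000), (nat_lit 2090001), (nat_lit 780000), (nat_lit 1435001), [(nat_lit 490000), (nat_lit 780000), (nat_lit 1100000)], [(nat_lit 2), (nat_lit 44), (nat_lit 345), (nat_lit 125), (nat_lit 15)]⟩,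
 ⟨⟨[(nat_lit 80), (nat_lit 120), (nat_lit 140)], [(nat_lit 0), (nat_lit 0), (nat_lit 1164)], [((nat_lit 0), (nat_lit 0), (nat_lit 0)), ((nat_lit 0), (nat_lit 0), (nat_lit 0)), ((nat_lit 941), (nat_lit 1000), (nat_lit 576))], ((nat_lit 100), (nat_lit 95), (nat_lit 55))⟩, (nat_lit 620892), (nat_lit 177), (nat_lit 177), (nat_lit 0), (nat_lit 0), [(nat_lit 1101680000), (nat_lit 1872480000), (nat_lit 2312870000)], [], [(nat_lit 5295585084), (nat_lit 6162232905), (nat_lit 6801597796), (nat_lit 7400005517), (nat_lit 7667553592), (nat_lit 7995023641), (nat_lit 7934957944), (nat_lit 8184201846)], (nat_lit 0), (nat_lit 0), (nat_lit 0), (nat_lit 0), (nat_lit 0), (nat_lit 0), [], [(nat_lit 17), (nat_lit 58), (nat_lit 483), (nat_lit 250), (nat_lit 14)]⟩,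
 ⟨⟨[(nat_lit 140), (nat_lit 180), (nat_lit 200)], [(nat_lit 0), (nat_lit 0), (nat_lit 2835)], [((nat_lit 0), (nat_lit 0), (nat_lit 0)), ((nat_lit 0), (nat_lit 0), (nat_lit 0)), ((nat_lit 363), (nat_lit 1000), (nat_lit 798))], ((nat_lit 0), (nat_lit 0), (nat_lit 0))⟩, (nat_lit 17333), (nat_lit 300), (nat_lit 1960), (nat_lit 4920305), (nat_lit 3160839), [(nat_lit 620046000), (nat_lit 885654000), (nat_lit 1033200000)], [], [(nat_lit 6186950397), (nat_lit 6065076581), (nat_lit 6023775548), (nat_lit 5902827959), (nat_lit 5417524559), (nat_lit 5299219041), (nat_lit 5259190075), (nat_lit 5141884895)], (nat_lit 780000), (nat_lit 1271251), (nat_lit 780000), (nat_lit 1435001), (nat_lit 0), (nat_lit 2825001), [(nat_lit 1977501), (nat_lit 1271251), (nat_lit 1271251)], [(nat_lit 32), (nat_lit 67), (nat_lit 588), (nat_lit 200), (nat_lit 13)]⟩⟩) (.leaf ⟨(nat_lit 801), (nat_lit 145), (nat_lit 0), (nat_lit 54), (nat_lit 0), (nat_lit 3566), (nat_lit 1319), (nat_lit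 570), (nat_lit 0), (nat_lit 0), (nat_lit 454000), [((nat_lit 360), [((nat_lit 21), (nat_lit 0), (nat_lit 76)), ((nat_lit 39), (nat_lit 2), (nat_lit 725))])], ⟨(nat_lit 6), true, false, false, (nat_lit 226), (nat_lit 3162), (nat_lit 3873), [(nat_lit 1414421), (nat_lit 1422280), (nat_lit 1457950), (nat_lit 1466533), (nat_lit 1672628), (nat_lit 1666215), (nat_lit 1716165), (nat_lit 1710475)]⟩, ⟨(nat_lit 5), false, false, true, (nat_lit 191), (nat_lit 3162), (nat_lit 3873), [(nat_lit 1412825), (nat_lit 1411379), (nat_lit 1478205), (nat_lit 1477844), (nat_lit 1477347), (nat_lit 1472332), (nat_lit 1542727), (nat_lit 1538797)]⟩, (nat_lit 5016736), (nat_lit 41152238), (nat_lit 14685056), (nat_lit 11162706), (nat_lit 5), (nat_lit 0), [⟨(nat_lit 0), (nat_lit 94), (nat_lit 62), (nat_lit 100), (nat_lit 22566847)⟩], [], [], [],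
 ⟨⟨[(nat_lit 40), (nat_lit 60), (nat_lit 80)], [(nat_lit 0), (nat_lit 398), (nat_lit 992)], [((nat_lit 0), (nat_lit 0), (nat_lit 0)), ((nat_lit 1000), (nat_lit 814), (nat_lit 310)), ((nat_lit 1000), (nat_lit 752), (nat_lit 464))], ((nat_lit 73), (nat_lit 100), (nat_lit 55))⟩, (nat_lit 1009371), (nat_lit 200), (nat_lit 200), (nat_lit 0), (nat_lit 504332), [(nat_lit 1429576801), (nat_lit 1628068252), (nat_lit 1706505548)], [(nat_lit 0), (nat_lit 0), (nat_lit 0)], [(nat_lit 19917717251), (nat_lit 21002060185), (nat_lit 23714915461), (nat_lit 24986025105), (nat_lit 20939956063), (nat_lit 22003788578), (nat_lit 24718216714), (nat_lit 25906916256)], (nat_lit 1271251), (nat_lit 1271251), (nat_lit 780000), (nat_lit 2090001), (nat_lit 1271251), (nat_lit 1271251), [(nat_lit 490000), (nat_lit 780000), (nat_lit 1100000)], [(nat_lit 2), (nat_lit 44), (nat_lit 289), (nat_lit 75), (nat_lit 12)]⟩,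
 ⟨⟨[(nat_lit 80), (nat_lit 120), (nat_lit 140)], [(nat_lit 0), (nat_lit 0), (nat_lit 1164)], [((nat_lit 0), (nat_lit 0), (nat_lit 0)), ((nat_lit 0), (nat_lit 0), (nat_lit 0)), ((nat_lit 941), (nat_lit 1000), (nat_lit 576))], ((nat_lit 100), (nat_lit 95), (nat_lit 55))⟩, (nat_lit 520349), (nat_lit 177), (nat_lit 177), (nat_lit 0), (nat_lit 0), [(nat_lit 932912000), (nat_lit 1585632000), (nat_lit 1958558000)], [], [(nat_lit 4720265184), (nat_lit 5284435561), (nat_lit 5771923400), (nat_lit 6196209305), (nat_lit 6515065738), (nat_lit 6781209217), (nat_lit 6804789580), (nat_lit 7011933339)], (nat_lit 0), (nat_lit 0), (nat_lit 0), (nat_lit 0), (nat_lit 0), (nat_lit 0), [], [(nat_lit 17), (nat_lit 58), (nat_lit 483), (nat_lit 250), (nat_lit 14)]⟩,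
 ⟨⟨[(nat_lit 140), (nat_lit 180), (nat_lit 200)], [(nat_lit 0), (nat_lit 0), (nat_lit 2835)], [((nat_lit 0), (nat_lit 0), (nat_lit 0)), ((nat_lit 0), (nat_lit 0), (nat_lit 0)), ((nat_lit 363), (nat_lit 1000), (nat_lit 798))], ((nat_lit 0), (nat_lit 0), (nat_lit 0))⟩, (nat_lit 14857), (nat_lit 300), (nat_lit 1920), (nat_lit 4217403), (nat_lit 3160839), [(nat_lit 531468000), (nat_lit 759132000), (nat_lit 885600000)], [], [(nat_lit 4375822033), (nat_lit 4256316614), (nat_lit 4302470233), (nat_lit 4183279577), (nat_lit 3677898504), (nat_lit 4163202930), (nat_lit 3548523992), (nat_lit 3672382770)], (nat_lit 780000), (nat_lit 1271251), (nat_lit 1271251), (nat_lit 1271251), (nat_lit 0), (nat_lit 2825001), [(nat_lit 1977501), (nat_lit 1271251), (nat_lit 1271251)], [(nat_lit 32), (nat_lit 67), (nat_lit 583), (nat_lit 225), (nat_lit 12)]⟩⟩))) (.trX (nat_lit 5) (nat_lit 1) (nat_lit 2) (nat_lit 92) (nat_lit 49) (nat_lit 100) (nat_lit 380) (.spl (nat_lit 5)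 (nat_lit 200) (.leaf ⟨(nat_lit 0), (nat_lit 1000), (nat_lit 0), (nat_lit 0), (nat_lit 0), (nat_lit 4807), (nat_lit 8386), (nat_lit 0), (nat_lit 0), (nat_lit 0), (nat_lit 0), [], Pd.none, Pd.none, (nat_lit 0), (nat_lit 1), (nat_lit 0), (nat_lit 0), (nat_lit 3), (nat_lit 0), [⟨(nat_lit 0), (nat_lit 80), (nat_lit 60), (nat_lit 100), (nat_lit 452790190)⟩], [], [], [],
 ⟨⟨[(nat_lit 40), (nat_lit 60), (nat_lit 80)], [(nat_lit 0), (nat_lit 398), (nat_lit 992)], [((nat_lit 0), (nat_lit 0), (nat_lit 0)), ((nat_lit 1000), (nat_lit 814), (nat_lit 310)), ((nat_lit 1000), (nat_lit 752), (nat_lit 464))], ((nat_lit 73), (nat_lit 100), (nat_lit 55))⟩, (nat_lit 2759205), (nat_lit 275), (nat_lit 275), (nat_lit 0), (nat_lit 676172), [(nat_lit 2032000049), (nat_lit 3282000031), (nat_lit 4688000000)], [], [(nat_lit 19260643745), (nat_lit 20581447974), (nat_lit 23439008868), (nat_lit 25118377494), (nat_lit 21619815680), (nat_lit 22967031681), (nat_lit 25430959003), (nat_lit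 26806288812)], (nat_lit 1271251), (nat_lit 1271251), (nat_lit 780000), (nat_lit 2090001), (nat_lit 780000), (nat_lit 1762501), [(nat_lit 490000), (nat_lit 780000), (nat_lit 1100000)], [(nat_lit 2), (nat_lit 44), (nat_lit 373), (nat_lit 150), (nat_lit 17)]⟩,
 ⟨⟨[(nat_lit 60), (nat_lit 100), (nat_lit 120)], [(nat_lit 0), (nat_lit 0), (nat_lit 1164)], [((nat_lit 0), (nat_lit 0), (nat_lit 0)), ((nat_lit 0), (nat_lit 0), (nat_lit 0)), ((nat_lit 1000), (nat_lit 933), (nat_lit 572))], ((nat_lit 93), (nat_lit 100), (nat_lit 55))⟩, (nat_lit 1641749), (nat_lit 155), (nat_lit 155), (nat_lit 0), (nat_lit 0), [(nat_lit 3282000000), (nat_lit 6250000000), (nat_lit 7968000000)], [], [(nat_lit 22074041760), (nat_lit 26488465660), (nat_lit 28610178774), (nat_lit 31630479268), (nat_lit 18234022298), (nat_lit 21587800482), (nat_lit 23077787781), (nat_lit 25379423340)], (nat_lit 0), (nat_lit 0), (nat_lit 0), (nat_lit 0), (nat_lit 0), (nat_lit 0), [], [(nat_lit 10),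 (nat_lit 54), (nat_lit 345), (nat_lit 125), (nat_lit 11)]⟩,
 Rw.none⟩) (.spl (nat_lit 2) (nat_lit 160) (.trX (nat_lit 5) (nat_lit 1) (nat_lit 2) (nat_lit 94) (nat_lit 59) (nat_lit 100) (nat_lit 370) (.leaf ⟨(nat_lit 0), (nat_lit 1000), (nat_lit 0), (nat_lit 0), (nat_lit 0), (nat_lit 4616), (nat_lit 7591), (nat_lit 0), (nat_lit 0), (nat_lit 0), (nat_lit 0), [], Pd.none, Pd.none, (nat_lit 0), (nat_lit 1), (nat_lit 0), (nat_lit 0), (nat_lit 5), (nat_lit 0), [⟨(nat_lit 0), (nat_lit 99), (nat_lit 77), (nat_lit 100), (nat_lit 363624637)⟩], [], [⟨(nat_lit 1), (nat_lit 59), (nat_lit 94), (nat_lit 100), (nat_lit 533238016)⟩], [],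
 ⟨⟨[(nat_lit 40), (nat_lit 60), (nat_lit 80)], [(nat_lit 0), (nat_lit 398), (nat_lit 992)], [((nat_lit 0), (nat_lit 0), (nat_lit 0)), ((nat_lit 1000), (nat_lit 814), (nat_lit 310)), ((nat_lit 1000), (nat_lit 752), (nat_lit 464))], ((nat_lit 73), (nat_lit 100), (nat_lit 55))⟩, (nat_lit 3419467), (nat_lit 275), (nat_lit 275), (nat_lit 0), (nat_lit 676172), [(nat_lit 2032000070), (nat_lit 3282000351), (nat_lit 4688000000)], [], [(nat_lit 18744819609), (nat_lit 20113156999), (nat_lit 23292501840), (nat_lit 24933901672), (nat_lit 21305886064), (nat_lit 22818780728), (nat_lit 25321262164), (nat_lit 26667868056)], (nat_lit 1271251), (nat_lit 1271251), (nat_lit 780000), (nat_lit 2090001), (nat_lit 780000), (nat_lit 1762501), [(nat_lit 490000), (nat_lit 780000), (nat_lit 1100000)], [(nat_lit 2), (nat_lit 44), (nat_lit 373), (nat_lit 150), (nat_lit 17)]⟩,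
 ⟨⟨[(nat_lit 60), (nat_lit 100), (nat_lit 120)], [(nat_lit 0), (nat_lit 0), (nat_lit 1164)], [((nat_lit 0), (nat_lit 0), (nat_lit 0)), ((nat_lit 0), (nat_lit 0), (nat_lit 0)), ((nat_lit 1000), (nat_lit 933), (nat_lit 572))], ((nat_lit 93), (nat_lit 100), (nat_lit 55))⟩, (nat_lit 0), (nat_lit 91), (nat_lit 91), (nat_lit 0), (nat_lit 0), [(nat_lit 3282000000), (nat_lit 6250000000), (nat_lit 7968000000)], [], [(nat_lit 17132798932), (nat_lit 20620735282), (nat_lit 22664022140), (nat_lit 25082160719), (nat_lit 28924048597), (nat_lit 31480998117), (nat_lit 31488928161), (nat_lit 33256954557)], (nat_lit 0), (nat_lit 0), (nat_lit 0), (nat_lit 0), (nat_lit 0), (nat_lit 0), [], [(nat_lit 10), (nat_lit 54), (nat_lit 401), (nat_lit 175), (nat_lit 12)]⟩,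
 Rw.none⟩)) (.leaf ⟨(nat_lit 0), (nat_lit 928), (nat_lit 0), (nat_lit 72), (nat_lit 0), (nat_lit 4621), (nat_lit 7410), (nat_lit 790), (nat_lit 0), (nat_lit 0), (nat_lit 0), [], Pd.none, Pd.none, (nat_lit 0), (nat_lit 1), (nat_lit 0), (nat_lit 0), (nat_lit 5), (nat_lit 0), [⟨(nat_lit 0), (nat_lit 88), (nat_lit 67), (nat_lit 100), (nat_lit 470610512)⟩], [], [⟨(nat_lit 1), (nat_lit 49), (nat_lit 92), (nat_lit 100), (nat_lit 480655220)⟩], [],
 ⟨⟨[(nat_lit 40), (nat_lit 60), (nat_lit 80)], [(nat_lit 0), (nat_lit 398), (nat_lit 992)], [((nat_lit 0), (nat_lit 0), (nat_lit 0)), ((nat_lit 1000), (nat_lit 814), (nat_lit 310)), ((nat_lit 1000), (nat_lit 752), (nat_lit 464))], ((nat_lit 73), (nat_lit 100), (nat_lit 55))⟩, (nat_lit 3493500), (nat_lit 243), (nat_lit 243), (nat_lit 0), (nat_lit 576153), [(nat_lit 2032000002), (nat_lit 3282227837), (nat_lit 4688000000)], [], [(nat_lit 18529200842), (nat_lit 20048470844), (nat_lit 23296337103), (nat_lit 24938730882),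 (nat_lit 21249236111), (nat_lit 22822661643), (nat_lit 25324133809), (nat_lit 26671491636)], (nat_lit 1271251), (nat_lit 1271251), (nat_lit 780000), (nat_lit 2090001), (nat_lit 780000), (nat_lit 1762501), [(nat_lit 490000), (nat_lit 780000), (nat_lit 1100000)], [(nat_lit 2), (nat_lit 44), (nat_lit 373), (nat_lit 150), (nat_lit 17)]⟩,
 ⟨⟨[(nat_lit 60), (nat_lit 100), (nat_lit 120)], [(nat_lit 0), (nat_lit 0), (nat_lit 1164)], [((nat_lit 0), (nat_lit 0), (nat_lit 0)), ((nat_lit 0), (nat_lit 0), (nat_lit 0)), ((nat_lit 1000), (nat_lit 933), (nat_lit 572))], ((nat_lit 93), (nat_lit 100), (nat_lit 55))⟩, (nat_lit 482), (nat_lit 96), (nat_lit 96), (nat_lit 0), (nat_lit 0), [(nat_lit 3282000000), (nat_lit 6250000000), (nat_lit 7968000000)], [], [(nat_lit 17336515065), (nat_lit 20772756820), (nat_lit 22835874400), (nat_lit 25223628690), (nat_lit 29829281915), (nat_lit 32235206165), (nat_lit 32127704245), (nat_lit 33795896760)], (nat_lit 0), (nat_lit 0),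 (nat_lit 0), (nat_lit 0), (nat_lit 0), (nat_lit 0), [], [(nat_lit 10), (nat_lit 54), (nat_lit 401), (nat_lit 175), (nat_lit 12)]⟩,
 ⟨⟨[(nat_lit 120), (nat_lit 160), (nat_lit 180)], [(nat_lit 0), (nat_lit 0), (nat_lit 1613)], [((nat_lit 0), (nat_lit 0), (nat_lit 0)), ((nat_lit 0), (nat_lit 0), (nat_lit 0)), ((nat_lit 620), (nat_lit 1000), (nat_lit 670))], ((nat_lit 100), (nat_lit 73), (nat_lit 55))⟩, (nat_lit 31878), (nat_lit 300), (nat_lit 2188), (nat_lit 5342400), (nat_lit 3981480), [(nat_lit 573696000), (nat_lit 854784000), (nat_lit 1012176000)], [], [(nat_lit 4073346790), (nat_lit 4026936850), (nat_lit 3780608434), (nat_lit 3734464455), (nat_lit 3726310436), (nat_lit 3683966922), (nat_lit 3423072746), (nat_lit 3378772872)], (nat_lit 1100000), (nat_lit 1271251), (nat_lit 780000), (nat_lit 1762501), (nat_lit 1271251), (nat_lit 1271251), [(nat_lit 1695001), (nat_lit 1271251), (nat_lit 1271251)], [(nat_lit 28), (nat_lit 65), (nat_lit 647), (nat_lit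 200), (nat_lit 15)]⟩⟩)))))
noncomputable def c8_38 : Tr Lf :=
 (.stt (nat_lit 1) (.spl (nat_lit 3) (nat_lit 200) (.spl (nat_lit 2) (nat_lit 160) (.trX (nat_lit 5) (nat_lit 1) (nat_lit 2) (nat_lit 100) (nat_lit 40) (nat_lit 100) (nat_lit 390) (.leaf ⟨(nat_lit 1000), (nat_lit 0), (nat_lit 0), (nat_lit 0), (nat_lit 0), (nat_lit 3307), (nat_lit 0), (nat_lit 0), (nat_lit 0), (nat_lit 0), (nat_lit 250000), [((nat_lit 360), [((nat_lit 21), (nat_lit 0), (nat_lit 1000))])], ⟨(nat_lit 6), false, false, false, (nat_lit 210), (nat_lit 3162), (nat_lit 3873), [(nat_lit 1414421), (nat_lit 1422280), (nat_lit 1501479), (nat_lit 1510785), (nat_lit 1543529), (nat_lit 1544252), (nat_lit 1630587), (nat_lit 1632757)]⟩, ⟨(nat_lit 3), false, false, true, (nat_lit 161), (nat_lit 3162), (nat_lit 3873), [(nat_lit 1283782), (nat_lit 1289472), (nat_lit 1327361), (nat_lit 1333774), (nat_lit 1477347), (nat_lit 1472332), (nat_lit 1520934), (nat_lit 1516642)]⟩, (nat_lit 4650622),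 (nat_lit 44409434), (nat_lit 13626305), (nat_lit 8964261), (nat_lit 0), (nat_lit 0), [], [], [], [],
 ⟨⟨[(nat_lit 40), (nat_lit 60), (nat_lit 80)], [(nat_lit 0), (nat_lit 398), (nat_lit 992)], [((nat_lit 0), (nat_lit 0), (nat_lit 0)), ((nat_lit 1000), (nat_lit 814), (nat_lit 310)), ((nat_lit 1000), (nat_lit 752), (nat_lit 464))], ((nat_lit 73), (nat_lit 100), (nat_lit 55))⟩, (nat_lit 0), (nat_lit 47), (nat_lit 47), (nat_lit 0), (nat_lit 0), [(nat_lit 1558400031), (nat_lit 91950284246), (nat_lit 1963600000)], [(nat_lit 0), (nat_lit 0), (nat_lit 0)], [(nat_lit 17069466598), (nat_lit 18909530465), (nat_lit 18912481777), (nat_lit 20537898554), (nat_lit 20295235717), (nat_lit 21802757181), (nat_lit 21783316866), (nat_lit 23123195102)], (nat_lit 0), (nat_lit 0), (nat_lit 0), (nat_lit 0), (nat_lit 0), (nat_lit 0), [], [(nat_lit 2), (nat_lit 44), (nat_lit 345), (nat_lit 125), (nat_lit 15)]⟩,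
 Rw.none,
 Rw.none⟩)) (.leaf ⟨(nat_lit 989), (nat_lit 4), (nat_lit 0), (nat_lit 7), (nat_lit 0), (nat_lit 3310), (nat_lit 119), (nat_lit 68), (nat_lit 0), (nat_lit 0), (nat_lit 247250), [((nat_lit 360), [((nat_lit 21), (nat_lit 0), (nat_lit 989))])], ⟨(nat_lit 6), false, false, false, (nat_lit 210), (nat_lit 3162), (nat_lit 3873), [(nat_lit 1414421), (nat_lit 1422280), (nat_lit 1501479), (nat_lit 1510785), (nat_lit 1543529), (nat_lit 1544252), (nat_lit 1630587), (nat_lit 1632757)]⟩, ⟨(nat_lit 4), false, false, true, (nat_lit 174), (nat_lit 3162), (nat_lit 3873), [(nat_lit 1327361), (nat_lit 1333774), (nat_lit 1349127), (nat_lit 1355902), (nat_lit 1520934), (nat_lit 1516642), (nat_lit 1542727), (nat_lit 1538797)]⟩, (nat_lit 4773293), (nat_lit 43504590), (nat_lit 13470557), (nat_lit 10024853), (nat_lit 4), (nat_lit 0), [], [], [], [],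
 ⟨⟨[(nat_lit 40), (nat_lit 60), (nat_lit 80)], [(nat_lit 0), (nat_lit 398), (nat_lit 992)], [((nat_lit 0), (nat_lit 0), (nat_lit 0)), ((nat_lit 1000), (nat_lit 814), (nat_lit 310)), ((nat_lit 1000), (nat_lit 752), (nat_lit 464))], ((nat_lit 73), (nat_lit 100), (nat_lit 55))⟩, (nat_lit 0), (nat_lit 47), (nat_lit 47), (nat_lit 0), (nat_lit 0), [(nat_lit 1561035643), (nat_lit 90301608405), (nat_lit 1993568400)], [(nat_lit 0), (nat_lit 0), (nat_lit 0)], [(nat_lit 17071174508), (nat_lit 18912130785), (nat_lit 18913928495), (nat_lit 20540100320), (nat_lit 20296885445), (nat_lit 21805085730), (nat_lit 21784640933), (nat_lit 23124980660)], (nat_lit 0), (nat_lit 0), (nat_lit 0), (nat_lit 0), (nat_lit 0), (nat_lit 0), [], [(nat_lit 2), (nat_lit 44), (nat_lit 345), (nat_lit 125), (nat_lit 15)]⟩,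
 ⟨⟨[(nat_lit 80), (nat_lit 120), (nat_lit 140)], [(nat_lit 0), (nat_lit 0), (nat_lit 1164)], [((nat_lit 0), (nat_lit 0), (nat_lit 0)), ((nat_lit 0), (nat_lit 0), (nat_lit 0)), ((nat_lit 941), (nat_lit 1000), (nat_lit 576))], ((nat_lit 100), (nat_lit 95), (nat_lit 55))⟩, (nat_lit 0), (nat_lit 604), (nat_lit 604), (nat_lit 0), (nat_lit 813480), [(nat_lit 51568000), (nat_lit 87648000), (nat_lit 108262000)], [], [(nat_lit 415667660), (nat_lit 396595678), (nat_lit 379776402), (nat_lit 385312252), (nat_lit 639424994), (nat_lit 435730790), (nat_lit 776331310), (nat_lit 577493496)], (nat_lit 1271251), (nat_lit 1271251), (nat_lit 780000), (nat_lit 1435001), (nat_lit 0), (nat_lit 2825001), [(nat_lit 1100000), (nat_lit 1785001), (nat_lit 1271251)], [(nat_lit 17), (nat_lit 58), (nat_lit 483), (nat_lit 250), (nat_lit 14)]⟩,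
 ⟨⟨[(nat_lit 120), (nat_lit 160), (nat_lit 180)], [(nat_lit 0), (nat_lit 0), (nat_lit 1613)], [((nat_lit 0), (nat_lit 0), (nat_lit 0)), ((nat_lit 0), (nat_lit 0), (nat_lit 0)), ((nat_lit 620), (nat_lit 1000), (nat_lit 670))], ((nat_lit 100), (nat_lit 73), (nat_lit 55))⟩, (nat_lit 3047), (nat_lit 300), (nat_lit 1535), (nat_lit 519400), (nat_lit 2442566), [(nat_lit 55776000), (nat_lit 83104000), (nat_lit 98406000)], [], [(nat_lit 533618919), (nat_lit 529579587), (nat_lit 507164486), (nat_lit 503114554), (nat_lit 447990668), (nat_lit 443901267), (nat_lit 515649672), (nat_lit 537570160)], (nat_lit 1100000), (nat_lit 1271251), (nat_lit 780000), (nat_lit 1762501), (nat_lit 0), (nat_lit 2825001), [(nat_lit 1695001), (nat_lit 1271251), (nat_lit 1271251)], [(nat_lit 28), (nat_lit 65), (nat_lit 487), (nat_lit 225), (nat_lit 12)]⟩⟩)) (.spl (nat_lit 1) (nat_lit 280) (.leaf ⟨(nat_lit 985), (nat_lit 15), (nat_lit 0), (nat_lit 0), (nat_lit 0), (nat_lit 3468),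 (nat_lit 131), (nat_lit 0), (nat_lit 0), (nat_lit 0), (nat_lit 246250), [((nat_lit 360), [((nat_lit 21), (nat_lit 0), (nat_lit 985))])], ⟨(nat_lit 6), false, true, false, (nat_lit 251), (nat_lit 3162), (nat_lit 3873), [(nat_lit 1543529), (nat_lit 1544252), (nat_lit 1587058), (nat_lit 1588504), (nat_lit 1672628), (nat_lit 1666215), (nat_lit 1716165), (nat_lit 1710475)]⟩, ⟨(nat_lit 3), false, false, true, (nat_lit 165), (nat_lit 3162), (nat_lit 3873), [(nat_lit 1283782), (nat_lit 1289472), (nat_lit 1349127), (nat_lit 1355902), (nat_lit 1477347), (nat_lit 1472332), (nat_lit 1542727), (nat_lit 1538797)]⟩, (nat_lit 4945651), (nat_lit 40782466), (nat_lit 17324068), (nat_lit 8893466), (nat_lit 3), (nat_lit 0), [], [], [⟨(nat_lit 1), (nat_lit 55), (nat_lit 99), (nat_lit 100), (nat_lit 2342792)⟩], [],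
 ⟨⟨[(nat_lit 40), (nat_lit 60), (nat_lit 80)], [(nat_lit 0), (nat_lit 398), (nat_lit 992)], [((nat_lit 0), (nat_lit 0), (nat_lit 0)), ((nat_lit 1000), (nat_lit 814), (nat_lit 310)), ((nat_lit 1000), (nat_lit 752), (nat_lit 464))], ((nat_lit 73), (nat_lit 100), (nat_lit 55))⟩, (nat_lit 0), (nat_lit 53), (nat_lit 53), (nat_lit 0), (nat_lit 0), [(nat_lit 1561994019), (nat_lit 1620896017), (nat_lit 2009396983)], [(nat_lit 0), (nat_lit 0), (nat_lit 0)], [(nat_lit 19392952954), (nat_lit 20803193348), (nat_lit 22453795098), (nat_lit 23825115056), (nat_lit 22145136156), (nat_lit 23314956644), (nat_lit 24661932472), (nat_lit 25835894088)], (nat_lit 0), (nat_lit 0), (nat_lit 0), (nat_lit 0), (nat_lit 0), (nat_lit 0), [], [(nat_lit 2), (nat_lit 44), (nat_lit 272), (nat_lit 60), (nat_lit 11)]⟩,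
 ⟨⟨[(nat_lit 80), (nat_lit 120), (nat_lit 140)], [(nat_lit 0), (nat_lit 0), (nat_lit 1164)], [((nat_lit 0), (nat_lit 0), (nat_lit 0)), ((nat_lit 0), (nat_lit 0), (nat_lit 0)), ((nat_lit 941), (nat_lit 1000), (nat_lit 576))], ((nat_lit 100), (nat_lit 95), (nat_lit 55))⟩, (nat_lit 24261), (nat_lit 629), (nat_lit 629), (nat_lit 0), (nat_lit 940084), [(nat_lit 70320000), (nat_lit 119520000), (nat_lit 147630000)], [], [(nat_lit 557889386), (nat_lit 573357019), (nat_lit 575664796), (nat_lit 587426029), (nat_lit 654986426), (nat_lit 540055934), (nat_lit 525030634), (nat_lit 527513137)], (nat_lit 1271251), (nat_lit 1271251), (nat_lit 1271251), (nat_lit 1271251), (nat_lit 0), (nat_lit 2825001), [(nat_lit 1100000), (nat_lit 1785001), (nat_lit 1271251)], [(nat_lit 17), (nat_lit 58), (nat_lit 483), (nat_lit 250), (nat_lit 14)]⟩,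
 Rw.none⟩) (.trX (nat_lit 5) (nat_lit 1) (nat_lit 2) (nat_lit 92) (nat_lit 49) (nat_lit 100) (nat_lit 380) (.spl (nat_lit 1) (nat_lit 300) (.leaf ⟨(nat_lit 896), (nat_lit 104), (nat_lit 0), (nat_lit 0), (nat_lit 0), (nat_lit 3473), (nat_lit 807), (nat_lit 0), (nat_lit 0), (nat_lit 0), (nat_lit 224000), [((nat_lit 360), [((nat_lit 21), (nat_lit 0), (nat_lit 896))])], ⟨(nat_lit 7), false, true, false, (nat_lit 265), (nat_lit 3162), (nat_lit 3873), [(nat_lit 1587058), (nat_lit 1588504), (nat_lit 1608822), (nat_lit 1610630), (nat_lit 1716165), (nat_lit 1710475), (nat_lit 1737930), (nat_lit 1732601)]⟩, ⟨(nat_lit 3), false, false, true, (nat_lit 165), (nat_lit 3162), (nat_lit 3873), [(nat_lit 1283782), (nat_lit 1289472), (nat_lit 1349127), (nat_lit 1355902), (nat_lit 1477347), (nat_lit 1472332), (nat_lit 1542727), (nat_lit 1538797)]⟩, (nat_lit 5004092), (nat_lit 39739645), (nat_lit 18514945), (nat_lit 8745410), (nat_lit 3), (nat_lit 0), [], [], [⟨(nat_lit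 1), (nat_lit 68), (nat_lit 92), (nat_lit 100), (nat_lit 20518922)⟩], [],
 ⟨⟨[(nat_lit 40), (nat_lit 60), (nat_lit 80)], [(nat_lit 0), (nat_lit 398), (nat_lit 992)], [((nat_lit 0), (nat_lit 0), (nat_lit 0)), ((nat_lit 1000), (nat_lit 814), (nat_lit 310)), ((nat_lit 1000), (nat_lit 752), (nat_lit 464))], ((nat_lit 73), (nat_lit 100), (nat_lit 55))⟩, (nat_lit 0), (nat_lit 53), (nat_lit 53), (nat_lit 0), (nat_lit 0), [(nat_lit 1583318446), (nat_lit 1770985645), (nat_lit 2247899155)], [(nat_lit 0), (nat_lit 0), (nat_lit 0)], [(nat_lit 19557788702), (nat_lit 20969045323), (nat_lit 22619824261), (nat_lit 23830069807), (nat_lit 22309720036), (nat_lit 23480311229), (nat_lit 24826962379), (nat_lit 25839517668)], (nat_lit 0), (nat_lit 0), (nat_lit 0), (nat_lit 0), (nat_lit 0), (nat_lit 0), [], [(nat_lit 2), (nat_lit 44), (nat_lit 272), (nat_lit 60), (nat_lit 11)]⟩,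
 ⟨⟨[(nat_lit 60), (nat_lit 100), (nat_lit 120)], [(nat_lit 0), (nat_lit 0), (nat_lit 1164)], [((nat_lit 0), (nat_lit 0), (nat_lit 0)), ((nat_lit 0), (nat_lit 0), (nat_lit 0)), ((nat_lit 1000), (nat_lit 933), (nat_lit 572))], ((nat_lit 93), (nat_lit 100), (nat_lit 55))⟩, (nat_lit 80880), (nat_lit 526), (nat_lit 526), (nat_lit 0), (nat_lit 877783), [(nat_lit 341328000), (nat_lit 650000000), (nat_lit 828672000)], [], [(nat_lit 3349788977), (nat_lit 3431179469), (nat_lit 3545848412), (nat_lit 3611239803), (nat_lit 3607137253), (nat_lit 3434219556), (nat_lit 3441851900), (nat_lit 3464290544)], (nat_lit 1271251), (nat_lit 1271251), (nat_lit 1271251), (nat_lit 1271251), (nat_lit 0), (nat_lit 2683751), [(nat_lit 780000), (nat_lit 1435001), (nat_lit 1271251)], [(nat_lit 10), (nat_lit 54), (nat_lit 401), (nat_lit 175), (nat_lit 13)]⟩,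
 Rw.none⟩) (.trX (nat_lit 5) (nat_lit 1) (nat_lit 2) (nat_lit 87) (nat_lit 59) (nat_lit 100) (nat_lit 370) (.leaf ⟨(nat_lit 673), (nat_lit 327), (nat_lit 0), (nat_lit 0), (nat_lit 0), (nat_lit 3800), (nat_lit 1910), (nat_lit 0), (nat_lit 0), (nat_lit 0), (nat_lit 168250), [((nat_lit 360), [((nat_lit 21), (nat_lit 0), (nat_lit 673))])], ⟨(nat_lit 7), false, true, false, (nat_lit 273), (nat_lit 3162), (nat_lit 3873), [(nat_lit 1608822), (nat_lit 1610630), (nat_lit 1630587), (nat_lit 1632757), (nat_lit 1737930), (nat_lit 1732601), (nat_lit 1759694), (nat_lit 1754728)]⟩, ⟨(nat_lit 3), false, false, true, (nat_lit 165), (nat_lit 3162), (nat_lit 3873), [(nat_lit 1283782), (nat_lit 1289472), (nat_lit 1349127), (nat_lit 1355902), (nat_lit 1477347), (nat_lit 1472332), (nat_lit 1542727), (nat_lit 1538797)]⟩, (nat_lit 5037532), (nat_lit 39050645), (nat_lit 19305544), (nat_lit 8643811), (nat_lit 3), (nat_lit 0), [], [], [⟨(nat_lit 1), (nat_lit 77), (nat_lit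 86), (nat_lit 100), (nat_lit 2817946)⟩, ⟨(nat_lit 1), (nat_lit 59), (nat_lit 87), (nat_lit 100), (nat_lit 84139399)⟩], [],
 ⟨⟨[(nat_lit 40), (nat_lit 60), (nat_lit 80)], [(nat_lit 0), (nat_lit 398), (nat_lit 992)], [((nat_lit 0), (nat_lit 0), (nat_lit 0)), ((nat_lit 1000), (nat_lit 814), (nat_lit 310)), ((nat_lit 1000), (nat_lit 752), (nat_lit 464))], ((nat_lit 73), (nat_lit 100), (nat_lit 55))⟩, (nat_lit 0), (nat_lit 53), (nat_lit 53), (nat_lit 0), (nat_lit 0), [(nat_lit 1636749213), (nat_lit 2147052819), (nat_lit 2854478800)], [(nat_lit 0), (nat_lit 0), (nat_lit 0)], [(nat_lit 19557065332), (nat_lit 21034783232), (nat_lit 22721898919), (nat_lit 24145774600), (nat_lit 22292524532), (nat_lit 23513519832), (nat_lit 24885796919), (nat_lit 26076499800)], (nat_lit 0), (nat_lit 0), (nat_lit 0), (nat_lit 0), (nat_lit 0), (nat_lit 0), [], [(nat_lit 2), (nat_lit 44), (nat_lit 272), (nat_lit 60), (nat_lit 11)]⟩,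
 ⟨⟨[(nat_lit 60), (nat_lit 100), (nat_lit 120)], [(nat_lit 0), (nat_lit 609), (nat_lit 1609)], [((nat_lit 0), (nat_lit 0), (nat_lit 0)), ((nat_lit 1000), (nat_lit 905), (nat_lit 238)), ((nat_lit 1000), (nat_lit 882), (nat_lit 668))], ((nat_lit 87), (nat_lit 100), (nat_lit 54))⟩, (nat_lit 1433426), (nat_lit 527), (nat_lit 527), (nat_lit 0), (nat_lit 879029), [(nat_lit 1073214000), (nat_lit 2043750000), (nat_lit 2605536000)], [], [(nat_lit 8581602913), (nat_lit 8841618974), (nat_lit 9253210574), (nat_lit 9469928650), (nat_lit 9634990242), (nat_lit 9653929651), (nat_lit 10050098882), (nat_lit 10313138154)], (nat_lit 1271251), (nat_lit 1271251), (nat_lit 1271251), (nat_lit 1271251), (nat_lit 0), (nat_lit 2613125), [(nat_lit 780000), (nat_lit 1435001), (nat_lit 1271251)], [(nat_lit 10), (nat_lit 54), (nat_lit 401), (nat_lit 175), (nat_lit 13)]⟩,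
 Rw.none⟩)))))) (.spl (nat_lit 5) (nat_lit 120) (.leaf ⟨(nat_lit 0), (nat_lit 858), (nat_lit 0), (nat_lit 142), (nat_lit 0), (nat_lit 4923), (nat_lit 4657), (nat_lit 1772), (nat_lit 0), (nat_lit 0), (nat_lit 0), [], Pd.none, Pd.none, (nat_lit 0), (nat_lit 1), (nat_lit 0), (nat_lit 0), (nat_lit 3), (nat_lit 0), [], [], [], [],
 ⟨⟨[(nat_lit 40), (nat_lit 60), (nat_lit 80)], [(nat_lit 0), (nat_lit 398), (nat_lit 992)], [((nat_lit 0), (nat_lit 0), (nat_lit 0)), ((nat_lit 1000), (nat_lit 814), (nat_lit 310)), ((nat_lit 1000), (nat_lit 752), (nat_lit 464))], ((nat_lit 73), (nat_lit 100), (nat_lit 55))⟩, (nat_lit 1724555), (nat_lit 147), (nat_lit 147), (nat_lit 0), (nat_lit 317153), [(nat_lit 2050718871), (nat_lit 3282000128), (nat_lit 4688000000)], [], [(nat_lit 18994085705), (nat_lit 20615698886), (nat_lit 23527986958), (nat_lit 25230415166), (nat_lit 21727466737), (nat_lit 23089665565), (nat_lit 25497581167), (nat_lit 26890355868)], (nat_lit 1271251),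 (nat_lit 1271251), (nat_lit 780000), (nat_lit 2090001), (nat_lit 780000), (nat_lit 1762501), [(nat_lit 490000), (nat_lit 780000), (nat_lit 1100000)], [(nat_lit 2), (nat_lit 44), (nat_lit 373), (nat_lit 150), (nat_lit 17)]⟩,
 ⟨⟨[(nat_lit 80), (nat_lit 120), (nat_lit 140)], [(nat_lit 0), (nat_lit 0), (nat_lit 1164)], [((nat_lit 0), (nat_lit 0), (nat_lit 0)), ((nat_lit 0), (nat_lit 0), (nat_lit 0)), ((nat_lit 941), (nat_lit 1000), (nat_lit 576))], ((nat_lit 100), (nat_lit 95), (nat_lit 55))⟩, (nat_lit 851908), (nat_lit 389), (nat_lit 389), (nat_lit 0), (nat_lit 389007), [(nat_lit 4688000000), (nat_lit 7968000000), (nat_lit 9842000000)], [], [(nat_lit 37184385806), (nat_lit 40612538294), (nat_lit 44871530312), (nat_lit 43190785080), (nat_lit 37298519273), (nat_lit 38770344787), (nat_lit 49725559605), (nat_lit 41448696790)], (nat_lit 1271251), (nat_lit 1271251), (nat_lit 780000), (nat_lit 2090001), (nat_lit 0), (nat_lit 780000), [(nat_lit 1100000), (nat_lit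 1785001), (nat_lit 1271251)], [(nat_lit 17), (nat_lit 58), (nat_lit 428), (nat_lit 200), (nat_lit 12)]⟩,
 ⟨⟨[(nat_lit 140), (nat_lit 180), (nat_lit 200)], [(nat_lit 0), (nat_lit 0), (nat_lit 2835)], [((nat_lit 0), (nat_lit 0), (nat_lit 0)), ((nat_lit 0), (nat_lit 0), (nat_lit 0)), ((nat_lit 363), (nat_lit 1000), (nat_lit 798))], ((nat_lit 0), (nat_lit 0), (nat_lit 0))⟩, (nat_lit 39069), (nat_lit 300), (nat_lit 1044), (nat_lit 11090200), (nat_lit 1149324), [(nat_lit 1397564000), (nat_lit 1996236000), (nat_lit 2328800000)], [], [(nat_lit 10474440044), (nat_lit 10060698424), (nat_lit 9714242544), (nat_lit 9328794198), (nat_lit 9078424052), (nat_lit 8683370546), (nat_lit 8339747044), (nat_lit 9135080408)], (nat_lit 780000), (nat_lit 1271251), (nat_lit 780000), (nat_lit 1762501), (nat_lit 0), (nat_lit 780000), [(nat_lit 1977501), (nat_lit 1271251), (nat_lit 1271251)], [(nat_lit 32), (nat_lit 67), (nat_lit 373), (nat_lit 150), (nat_lit 8)]⟩⟩) (.leaf ⟨(nat_lit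 803), (nat_lit 79), (nat_lit 0), (nat_lit 118), (nat_lit 0), (nat_lit 3908), (nat_lit 1523), (nat_lit 1214), (nat_lit 0), (nat_lit 0), (nat_lit 384000), [((nat_lit 360), [((nat_lit 21), (nat_lit 1), (nat_lit 489)), ((nat_lit 39), (nat_lit 2), (nat_lit 314))])], ⟨(nat_lit 6), false, false, false, (nat_lit 235), (nat_lit 3162), (nat_lit 3873), [(nat_lit 1414421), (nat_lit 1422280), (nat_lit 1501479), (nat_lit 1510785), (nat_lit 1672628), (nat_lit 1666215), (nat_lit 1759694), (nat_lit 1754728)]⟩, ⟨(nat_lit 3), false, false, true, (nat_lit 165), (nat_lit 3162), (nat_lit 3873), [(nat_lit 1283782), (nat_lit 1289472), (nat_lit 1349127), (nat_lit 1355902), (nat_lit 1477347), (nat_lit 1472332), (nat_lit 1542727), (nat_lit 1538797)]⟩, (nat_lit 4858796), (nat_lit 42087824), (nat_lit 15843653), (nat_lit 9068523), (nat_lit 3), (nat_lit 0), [], [], [], [],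
 ⟨⟨[(nat_lit 40), (nat_lit 60), (nat_lit 80)], [(nat_lit 0), (nat_lit 398), (nat_lit 992)], [((nat_lit 0), (nat_lit 0), (nat_lit 0)), ((nat_lit 1000), (nat_lit 814), (nat_lit 310)), ((nat_lit 1000), (nat_lit 752), (nat_lit 464))], ((nat_lit 73), (nat_lit 100), (nat_lit 55))⟩, (nat_lit 0), (nat_lit 147), (nat_lit 147), (nat_lit 0), (nat_lit 317153), [(nat_lit 1443228007), (nat_lit 1705942118), (nat_lit 1926103282)], [(nat_lit 0), (nat_lit 0), (nat_lit 0)], [(nat_lit 18624233836), (nat_lit 20051582361), (nat_lit 22973749797), (nat_lit 24250085536), (nat_lit 21385198255), (nat_lit 22566021119), (nat_lit 24923077952), (nat_lit 26154769128)], (nat_lit 1271251), (nat_lit 1271251), (nat_lit 780000), (nat_lit 2090001), (nat_lit 780000), (nat_lit 1762501), [(nat_lit 490000), (nat_lit 780000), (nat_lit 1100000)], [(nat_lit 2), (nat_lit 44), (nat_lit 373), (nat_lit 150), (nat_lit 17)]⟩,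
 ⟨⟨[(nat_lit 80), (nat_lit 120), (nat_lit 140)], [(nat_lit 0), (nat_lit 0), (nat_lit 1164)], [((nat_lit 0), (nat_lit 0), (nat_lit 0)), ((nat_lit 0), (nat_lit 0), (nat_lit 0)), ((nat_lit 941), (nat_lit 1000), (nat_lit 576))], ((nat_lit 100), (nat_lit 95), (nat_lit 55))⟩, (nat_lit 0), (nat_lit 297), (nat_lit 297), (nat_lit 0), (nat_lit 389007), [(nat_lit 923536000), (nat_lit 1569696000), (nat_lit 1938874000)], [], [(nat_lit 7855585349), (nat_lit 6355752530), (nat_lit 7168124083), (nat_lit 6801785498), (nat_lit 9668250988), (nat_lit 7826802108), (nat_lit 13267417298), (nat_lit 10660473830)], (nat_lit 1271251), (nat_lit 1271251), (nat_lit 780000), (nat_lit 2090001), (nat_lit 780000), (nat_lit 3072501), [(nat_lit 1100000), (nat_lit 1785001), (nat_lit 1271251)], [(nat_lit 17), (nat_lit 58), (nat_lit 483), (nat_lit 250), (nat_lit 14)]⟩,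
 ⟨⟨[(nat_lit 140), (nat_lit 180), (nat_lit 200)], [(nat_lit 0), (nat_lit 0), (nat_lit 2835)], [((nat_lit 0), (nat_lit 0), (nat_lit 0)), ((nat_lit 0), (nat_lit 0), (nat_lit 0)), ((nat_lit 363), (nat_lit 1000), (nat_lit 798))], ((nat_lit 0), (nat_lit 0), (nat_lit 0))⟩, (nat_lit 32466), (nat_lit 300), (nat_lit 943), (nat_lit 9215800), (nat_lit 1149324), [(nat_lit 1161356000), (nat_lit 1658844000), (nat_lit 1935200000)], [], [(nat_lit 8519278458), (nat_lit 8260213110), (nat_lit 8031271084), (nat_lit 7771197802), (nat_lit 7777449318), (nat_lit 7503207459), (nat_lit 7254987550), (nat_lit 7779601314)], (nat_lit 780000), (nat_lit 1271251), (nat_lit 780000), (nat_lit 1762501), (nat_lit 780000), (nat_lit 3072501), [(nat_lit 1977501), (nat_lit 1271251), (nat_lit 1271251)], [(nat_lit 32), (nat_lit 67), (nat_lit 456), (nat_lit 225), (nat_lit 10)]⟩⟩)))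
noncomputable def c8_39 : Tr Lf :=
 (.stt (nat_lit 1) (.spl (nat_lit 2) (nat_lit 160) (.trX (nat_lit 4) (nat_lit 0) (nat_lit 2) (nat_lit 73) (nat_lit 85) (nat_lit 100) (nat_lit 320) (.trX (nat_lit 5) (nat_lit 1) (nat_lit 2) (nat_lit 100) (nat_lit 40) (nat_lit 100) (nat_lit 390) (.spl (nat_lit 5) (nat_lit 200) (.leaf ⟨(nat_lit 0), (nat_lit 1000), (nat_lit 0), (nat_lit 0), (nat_lit 0), (nat_lit 6035), (nat_lit 9574), (nat_lit 0), (nat_lit 0), (nat_lit 0), (nat_lit 0), [], Pd.none, Pd.none, (nat_lit 0), (nat_lit 1), (nat_lit 0), (nat_lit 0), (nat_lit 6), (nat_lit 0), [⟨(nat_lit 0), (nat_lit 100), (nat_lit 69), (nat_lit 96), (nat_lit 77657865)⟩], [⟨(nat_lit 1), (nat_lit 85), (nat_lit 73), (nat_lit 100), (nat_lit 712823532)⟩], [], [],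
 ⟨⟨[(nat_lit 40), (nat_lit 60), (nat_lit 80)], [(nat_lit 0), (nat_lit 398), (nat_lit 992)], [((nat_lit 0), (nat_lit 0), (nat_lit 0)), ((nat_lit 1000), (nat_lit 814), (nat_lit 310)), ((nat_lit 1000), (nat_lit 752), (nat_lit 464))], ((nat_lit 73), (nat_lit 100), (nat_lit 55))⟩, (nat_lit 0), (nat_lit 64), (nat_lit 64), (nat_lit 0), (nat_lit 0), [(nat_lit 2484483397), (nat_lit 3812774410), (nat_lit 4688000000)], [], [(nat_lit 22545063608), (nat_lit 24333801125), (nat_lit 26371397963), (nat_lit 27697350855), (nat_lit 26966775345), (nat_lit 28688678535), (nat_lit 29811030250), (nat_lit 31089779380)], (nat_lit 0), (nat_lit 0), (nat_lit 0), (nat_lit 0), (nat_lit 0), (nat_lit 0), [], [(nat_lit 2), (nat_lit 44), (nat_lit 289), (nat_lit 75), (nat_lit 12)]⟩,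
 ⟨⟨[(nat_lit 80), (nat_lit 120), (nat_lit 140)], [(nat_lit 0), (nat_lit 0), (nat_lit 1164)], [((nat_lit 0), (nat_lit 0), (nat_lit 0)), ((nat_lit 0), (nat_lit 0), (nat_lit 0)), ((nat_lit 941), (nat_lit 1000), (nat_lit 576))], ((nat_lit 100), (nat_lit 95), (nat_lit 55))⟩, (nat_lit 4519231), (nat_lit 177), (nat_lit 177), (nat_lit 0), (nat_lit 0), [(nat_lit 4688000000), (nat_lit 7968000000), (nat_lit 9842000000)], [], [(nat_lit 20233705452), (nat_lit 24485076050), (nat_lit 27502415272), (nat_lit 30773487990), (nat_lit 15305740894), (nat_lit 18955021106), (nat_lit 21439335822), (nat_lit 23910477003)], (nat_lit 0), (nat_lit 0), (nat_lit 0), (nat_lit 0), (nat_lit 0), (nat_lit 0), [], [(nat_lit 17), (nat_lit 58), (nat_lit 428), (nat_lit 200), (nat_lit 12)]⟩,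
 Rw.none⟩) (.leaf ⟨(nat_lit 0), (nat_lit 1000), (nat_lit 0), (nat_lit 0), (nat_lit 2489), (nat_lit 6035), (nat_lit 5963), (nat_lit 0), (nat_lit 0), (nat_lit 0), (nat_lit 0), [], Pd.none, Pd.none, (nat_lit 0), (nat_lit 1), (nat_lit 0), (nat_lit 0), (nat_lit 6), (nat_lit 0), [], [⟨(nat_lit 1), (nat_lit 85), (nat_lit 73), (nat_lit 100), (nat_lit 209866787)⟩], [], [⟨(nat_lit 2), (nat_lit 40), (nat_lit 92), (nat_lit 100), (nat_lit 387169020)⟩, ⟨(nat_lit 2), (nat_lit 96), (nat_lit 100), (nat_lit 86), (nat_lit 182807235)⟩],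
 ⟨⟨[(nat_lit 40), (nat_lit 60), (nat_lit 80)], [(nat_lit 0), (nat_lit 398), (nat_lit 992)], [((nat_lit 0), (nat_lit 0), (nat_lit 0)), ((nat_lit 1000), (nat_lit 814), (nat_lit 310)), ((nat_lit 1000), (nat_lit 752), (nat_lit 464))], ((nat_lit 73), (nat_lit 100), (nat_lit 55))⟩, (nat_lit 0), (nat_lit 64), (nat_lit 64), (nat_lit 0), (nat_lit 0), [(nat_lit 2367994870), (nat_lit 3624893564), (nat_lit 4688000000)], [], [(nat_lit 22545063608), (nat_lit 24333801125), (nat_lit 26371397963), (nat_lit 27697350855), (nat_lit 26966775345), (nat_lit 28688678535), (nat_lit 29811030250), (nat_lit 31089779380)], (nat_lit 0), (nat_lit 0), (nat_lit 0), (nat_lit 0), (nat_lit 0), (nat_lit 0), [], [(nat_lit 2), (nat_lit 44), (nat_lit 289), (nat_lit 75), (nat_lit 12)]⟩,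
 ⟨⟨[(nat_lit 80), (nat_lit 120), (nat_lit 140)], [(nat_lit 0), (nat_lit 0), (nat_lit 1164)], [((nat_lit 0), (nat_lit 0), (nat_lit 0)), ((nat_lit 0), (nat_lit 0), (nat_lit 0)), ((nat_lit 941), (nat_lit 1000), (nat_lit 576))], ((nat_lit 100), (nat_lit 95), (nat_lit 55))⟩, (nat_lit 0), (nat_lit 110), (nat_lit 110), (nat_lit 0), (nat_lit 0), [(nat_lit 4688000000), (nat_lit 7968000000), (nat_lit 9842000000)], [], [(nat_lit 12730935814), (nat_lit 16006612986), (nat_lit 19480604594), (nat_lit 21799936369), (nat_lit 27027367148), (nat_lit 29098644779), (nat_lit 29967826280), (nat_lit 31448470058)], (nat_lit 0), (nat_lit 0), (nat_lit 0), (nat_lit 0), (nat_lit 0), (nat_lit 0), [], [(nat_lit 17), (nat_lit 58), (nat_lit 483), (nat_lit 250), (nat_lit 13)]⟩,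
 Rw.none⟩)))) (.spl (nat_lit 5) (nat_lit 200) (.leaf ⟨(nat_lit 0), (nat_lit 923), (nat_lit 0), (nat_lit 77), (nat_lit 0), (nat_lit 5941), (nat_lit 8030), (nat_lit 911), (nat_lit 0), (nat_lit 0), (nat_lit 0), [], Pd.none, Pd.none, (nat_lit 0), (nat_lit 1), (nat_lit 0), (nat_lit 0), (nat_lit 6), (nat_lit 0), [⟨(nat_lit 0), (nat_lit 100), (nat_lit 69), (nat_lit 96), (nat_lit 143581627)⟩], [⟨(nat_lit 1), (nat_lit 77), (nat_lit 72), (nat_lit 100), (nat_lit 616801302)⟩], [], [],
 ⟨⟨[(nat_lit 40), (nat_lit 60), (nat_lit 80)], [(nat_lit 0), (nat_lit 398), (nat_lit 992)], [((nat_lit 0), (nat_lit 0), (nat_lit 0)), ((nat_lit 1000), (nat_lit 814), (nat_lit 310)), ((nat_lit 1000), (nat_lit 752), (nat_lit 464))], ((nat_lit 73), (nat_lit 100), (nat_lit 55))⟩, (nat_lit 0), (nat_lit 73), (nat_lit 73), (nat_lit 0), (nat_lit 0), [(nat_lit 2451477757), (nat_lit 3715314498), (nat_lit 4688000000)], [], [(nat_lit 22601701005), (nat_lit 24373245875), (nat_lit 26429449778),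 (nat_lit 27744026273), (nat_lit 27677953778), (nat_lit 29334120350), (nat_lit 30333386451), (nat_lit 31566279070)], (nat_lit 0), (nat_lit 0), (nat_lit 0), (nat_lit 0), (nat_lit 0), (nat_lit 0), [], [(nat_lit 2), (nat_lit 44), (nat_lit 289), (nat_lit 75), (nat_lit 12)]⟩,
 ⟨⟨[(nat_lit 80), (nat_lit 120), (nat_lit 140)], [(nat_lit 0), (nat_lit 0), (nat_lit 1164)], [((nat_lit 0), (nat_lit 0), (nat_lit 0)), ((nat_lit 0), (nat_lit 0), (nat_lit 0)), ((nat_lit 941), (nat_lit 1000), (nat_lit 576))], ((nat_lit 100), (nat_lit 95), (nat_lit 55))⟩, (nat_lit 4623880), (nat_lit 177), (nat_lit 177), (nat_lit 0), (nat_lit 0), [(nat_lit 4688000000), (nat_lit 7968000000), (nat_lit 9842000000)], [], [(nat_lit 20206905600), (nat_lit 23995574910), (nat_lit 27501136840), (nat_lit 30445565550), (nat_lit 18059114040), (nat_lit 20749968825), (nat_lit 23061071590), (nat_lit 25311912535)], (nat_lit 0), (nat_lit 0), (nat_lit 0), (nat_lit 0), (nat_lit 0), (nat_lit 0), [], [(nat_lit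 17), (nat_lit 58), (nat_lit 428), (nat_lit 200), (nat_lit 12)]⟩,
 ⟨⟨[(nat_lit 120), (nat_lit 160), (nat_lit 180)], [(nat_lit 0), (nat_lit 0), (nat_lit 1613)], [((nat_lit 0), (nat_lit 0), (nat_lit 0)), ((nat_lit 0), (nat_lit 0), (nat_lit 0)), ((nat_lit 620), (nat_lit 1000), (nat_lit 670))], ((nat_lit 100), (nat_lit 73), (nat_lit 55))⟩, (nat_lit 33511), (nat_lit 300), (nat_lit 1724), (nat_lit 5713405), (nat_lit 2963434), [(nat_lit 613536000), (nat_lit 914144000), (nat_lit 1082466000)], [], [(nat_lit 4418995008), (nat_lit 4375131196), (nat_lit 4386811905), (nat_lit 4348008363), (nat_lit 3525345904), (nat_lit 3480706199), (nat_lit 3451114360), (nat_lit 3407245596)], (nat_lit 1100000), (nat_lit 1271251), (nat_lit 1271251), (nat_lit 1271251), (nat_lit 0), (nat_lit 1412501), [(nat_lit 1695001), (nat_lit 1271251), (nat_lit 1271251)], [(nat_lit 28), (nat_lit 65), (nat_lit 520), (nat_lit 200), (nat_lit 12)]⟩⟩) (.spl (nat_lit 0) (nat_lit 350) (.leaf ⟨(nat_lit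 334), (nat_lit 609), (nat_lit 0), (nat_lit 57), (nat_lit 0), (nat_lit 3474), (nat_lit 5881), (nat_lit 598), (nat_lit 0), (nat_lit 0), (nat_lit 200400), [((nat_lit 350), [((nat_lit 39), (nat_lit 2), (nat_lit 334))])], ⟨(nat_lit 6), true, false, false, (nat_lit 226), (nat_lit 3535), (nat_lit 3873), [(nat_lit 1414519), (nat_lit 1418358), (nat_lit 1458093), (nat_lit 1462251), (nat_lit 1672628), (nat_lit 1669426), (nat_lit 1716203), (nat_lit 1713320)]⟩, ⟨(nat_lit 6), false, false, true, (nat_lit 241), (nat_lit 3535), (nat_lit 3873), [(nat_lit 1520934), (nat_lit 1518855), (nat_lit 1542727), (nat_lit 1540807), (nat_lit 1666107), (nat_lit 1660068), (nat_lit 1687900), (nat_lit 1682021)]⟩, (nat_lit 5330592), (nat_lit 37821552), (nat_lit 13848060), (nat_lit 15330388), (nat_lit 6), (nat_lit 0), [], [⟨(nat_lit 1), (nat_lit 83), (nat_lit 70), (nat_lit 100), (nat_lit 188144980)⟩], [], [⟨(nat_lit 2), (nat_lit 42), (nat_lit 91), (nat_lit 100), (nat_lit 379943359)⟩],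
 ⟨⟨[(nat_lit 40), (nat_lit 60), (nat_lit 80)], [(nat_lit 0), (nat_lit 398), (nat_lit 992)], [((nat_lit 0), (nat_lit 0), (nat_lit 0)), ((nat_lit 1000), (nat_lit 814), (nat_lit 310)), ((nat_lit 1000), (nat_lit 752), (nat_lit 464))], ((nat_lit 73), (nat_lit 100), (nat_lit 55))⟩, (nat_lit 2056730), (nat_lit 63), (nat_lit 63), (nat_lit 0), (nat_lit 0), [(nat_lit 1735831683), (nat_lit 2568764753), (nat_lit 3405974400)], [(nat_lit 0), (nat_lit 0), (nat_lit 0)], [(nat_lit 21191155410), (nat_lit 21813245496), (nat_lit 24957445571), (nat_lit 25463686769), (nat_lit 25062802895), (nat_lit 25680593495), (nat_lit 28200380629), (nat_lit 28684134101)], (nat_lit 0), (nat_lit 0), (nat_lit 0), (nat_lit 0), (nat_lit 0), (nat_lit 0), [], [(nat_lit 2), (nat_lit 44), (nat_lit 289), (nat_lit 75), (nat_lit 12)]⟩,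
 ⟨⟨[(nat_lit 80), (nat_lit 120), (nat_lit 140)], [(nat_lit 0), (nat_lit 0), (nat_lit 1164)], [((nat_lit 0), (nat_lit 0), (nat_lit 0)), ((nat_lit 0), (nat_lit 0), (nat_lit 0)), ((nat_lit 941), (nat_lit 1000), (nat_lit 576))], ((nat_lit 100), (nat_lit 95), (nat_lit 55))⟩, (nat_lit 0), (nat_lit 116), (nat_lit 116), (nat_lit 0), (nat_lit 0), [(nat_lit 3122208000), (nat_lit 5306688000), (nat_lit 6554772000)], [], [(nat_lit 10895538226), (nat_lit 13120160629), (nat_lit 14798817721), (nat_lit 16373929884), (nat_lit 21511672040), (nat_lit 22619121898), (nat_lit 22432767078), (nat_lit 23491867889)], (nat_lit 0), (nat_lit 0), (nat_lit 0), (nat_lit 0), (nat_lit 0), (nat_lit 0), [], [(nat_lit 17), (nat_lit 58), (nat_lit 483), (nat_lit 250), (nat_lit 13)]⟩,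
 ⟨⟨[(nat_lit 120), (nat_lit 160), (nat_lit 180)], [(nat_lit 0), (nat_lit 0), (nat_lit 1613)], [((nat_lit 0), (nat_lit 0), (nat_lit 0)), ((nat_lit 0), (nat_lit 0), (nat_lit 0)), ((nat_lit 620), (nat_lit 1000), (nat_lit 670))], ((nat_lit 100), (nat_lit 73), (nat_lit 55))⟩, (nat_lit 24807), (nat_lit 300), (nat_lit 1409), (nat_lit 4229402), (nat_lit 2555688), [(nat_lit 454176000), (nat_lit 676704000), (nat_lit 801306000)], [], [(nat_lit 3137536898), (nat_lit 3102126121), (nat_lit 3024127063), (nat_lit 2987974968), (nat_lit 2885980324), (nat_lit 2848981453), (nat_lit 2762306448), (nat_lit 2727222543)], (nat_lit 1100000), (nat_lit 1271251), (nat_lit 1271251), (nat_lit 1271251), (nat_lit 1271251), (nat_lit 1271251), [(nat_lit 1695001), (nat_lit 1271251), (nat_lit 1271251)], [(nat_lit 28), (nat_lit 65), (nat_lit 483), (nat_lit 250), (nat_lit 11)]⟩⟩) (.trX (nat_lit 4) (nat_lit 0) (nat_lit 2) (nat_lit 66) (nat_lit 82) (nat_lit 100) (nat_lit 320) (.leaf ⟨(nat_lit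 174), (nat_lit 773), (nat_lit 0), (nat_lit 53), (nat_lit 0), (nat_lit 3590), (nat_lit 7294), (nat_lit 561), (nat_lit 0), (nat_lit 0), (nat_lit 43500), [((nat_lit 360), [((nat_lit 21), (nat_lit 0), (nat_lit 174))])], ⟨(nat_lit 6), true, false, false, (nat_lit 226), (nat_lit 3162), (nat_lit 3536), [(nat_lit 1418344), (nat_lit 1422365), (nat_lit 1462233), (nat_lit 1466658), (nat_lit 1669427), (nat_lit 1666215), (nat_lit 1713320), (nat_lit 1710513)]⟩, ⟨(nat_lit 6), false, false, true, (nat_lit 236), (nat_lit 3162), (nat_lit 3536), [(nat_lit 1518855), (nat_lit 1516642), (nat_lit 1540807), (nat_lit 1538797), (nat_lit 1644378), (nat_lit 1638549), (nat_lit 1666330), (nat_lit 1660704)]⟩, (nat_lit 5308386), (nat_lit 38119705), (nat_lit 13947720), (nat_lit 14932575), (nat_lit 6), (nat_lit 0), [⟨(nat_lit 0), (nat_lit 94), (nat_lit 62), (nat_lit 100), (nat_lit 459273)⟩], [⟨(nat_lit 1), (nat_lit 87), (nat_lit 64), (nat_lit 100), (nat_lit 220186572)⟩], [], [⟨(nat_lit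 2), (nat_lit 40), (nat_lit 92), (nat_lit 100), (nat_lit 482928091)⟩, ⟨(nat_lit 2), (nat_lit 94), (nat_lit 100), (nat_lit 88), (nat_lit 414896)⟩],
 ⟨⟨[(nat_lit 40), (nat_lit 60), (nat_lit 80)], [(nat_lit 0), (nat_lit 600), (nat_lit 1195)], [((nat_lit 0), (nat_lit 0), (nat_lit 0)), ((nat_lit 1000), (nat_lit 725), (nat_lit 454)), ((nat_lit 1000), (nat_lit 720), (nat_lit 465))], ((nat_lit 69), (nat_lit 100), (nat_lit 56))⟩, (nat_lit 2212149), (nat_lit 64), (nat_lit 64), (nat_lit 0), (nat_lit 0), [(nat_lit 1885770439), (nat_lit 3067208872), (nat_lit 4213954400)], [(nat_lit 0), (nat_lit 0), (nat_lit 0)], [(nat_lit 22022156322), (nat_lit 22654050814), (nat_lit 25641891394), (nat_lit 26129584864), (nat_lit 25330574014), (nat_lit 25863971704), (nat_lit 28359065771), (nat_lit 28826521120)], (nat_lit 0), (nat_lit 0), (nat_lit 0), (nat_lit 0), (nat_lit 0), (nat_lit 0), [], [(nat_lit 2), (nat_lit 44), (nat_lit 289), (nat_lit 75), (nat_lit 12)]⟩,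
 ⟨⟨[(nat_lit 80), (nat_lit 120), (nat_lit 140)], [(nat_lit 0), (nat_lit 0), (nat_lit 1164)], [((nat_lit 0), (nat_lit 0), (nat_lit 0)), ((nat_lit 0), (nat_lit 0), (nat_lit 0)), ((nat_lit 941), (nat_lit 1000), (nat_lit 576))], ((nat_lit 100), (nat_lit 95), (nat_lit 55))⟩, (nat_lit 0), (nat_lit 116), (nat_lit 116), (nat_lit 0), (nat_lit 0), [(nat_lit 3872288000), (nat_lit 6581568000), (nat_lit 8129492000)], [], [(nat_lit 13512772490), (nat_lit 16272003776), (nat_lit 18353934690), (nat_lit 20307473172), (nat_lit 26679623012), (nat_lit 28053314674), (nat_lit 27822171328), (nat_lit 29135719970)], (nat_lit 0), (nat_lit 0), (nat_lit 0), (nat_lit 0), (nat_lit 0), (nat_lit 0), [], [(nat_lit 17), (nat_lit 58), (nat_lit 483), (nat_lit 250), (nat_lit 13)]⟩,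
 ⟨⟨[(nat_lit 120), (nat_lit 160), (nat_lit 180)], [(nat_lit 0), (nat_lit 0), (nat_lit 1613)], [((nat_lit 0), (nat_lit 0), (nat_lit 0)), ((nat_lit 0), (nat_lit 0), (nat_lit 0)), ((nat_lit 620), (nat_lit 1000), (nat_lit 670))], ((nat_lit 100), (nat_lit 73), (nat_lit 55))⟩, (nat_lit 23066), (nat_lit 300), (nat_lit 1608), (nat_lit 3932604), (nat_lit 2963434), [(nat_lit 422304000), (nat_lit 629216000), (nat_lit 745074000)], [], [(nat_lit 2917208915), (nat_lit 2883525910), (nat_lit 2808382784), (nat_lit 2774444913), (nat_lit 2652816585), (nat_lit 2618476336), (nat_lit 2547117836), (nat_lit 2514327721)], (nat_lit 1100000), (nat_lit 1271251), (nat_lit 1271251), (nat_lit 1271251), (nat_lit 1271251), (nat_lit 1271251), [(nat_lit 1695001), (nat_lit 1271251), (nat_lit 1271251)], [(nat_lit 28), (nat_lit 65), (nat_lit 515), (nat_lit 225), (nat_lit 11)]⟩⟩))))) (.spl (nat_lit 5) (nat_lit 200) (.leaf ⟨(nat_lit 0), (nat_lit 915), (nat_lit 0), (nat_lit 85), (nat_lit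 0), (nat_lit 5385), (nat_lit 7847), (nat_lit 1127), (nat_lit 0), (nat_lit 0), (nat_lit 0), [], Pd.none, Pd.none, (nat_lit 0), (nat_lit 1), (nat_lit 0), (nat_lit 0), (nat_lit 6), (nat_lit 0), [⟨(nat_lit 0), (nat_lit 100), (nat_lit 69), (nat_lit 96), (nat_lit 141718597)⟩], [⟨(nat_lit 1), (nat_lit 77), (nat_lit 72), (nat_lit 100), (nat_lit 517545692)⟩], [⟨(nat_lit 0), (nat_lit 100), (nat_lit 92), (nat_lit 31), (nat_lit 7044282)⟩], [],
 ⟨⟨[(nat_lit 40), (nat_lit 60), (nat_lit 80)], [(nat_lit 0), (nat_lit 398), (nat_lit 992)], [((nat_lit 0), (nat_lit 0), (nat_lit 0)), ((nat_lit 1000), (nat_lit 814), (nat_lit 310)), ((nat_lit 1000), (nat_lit 752), (nat_lit 464))], ((nat_lit 73), (nat_lit 100), (nat_lit 55))⟩, (nat_lit 509730), (nat_lit 217), (nat_lit 217), (nat_lit 0), (nat_lit 504332), [(nat_lit 2032000122), (nat_lit 3282000027), (nat_lit 4688000000)], [], [(nat_lit 23388082191), (nat_lit 24682976574), (nat_lit 26563856877), (nat_lit 27569054349), (nat_lit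 27280035536), (nat_lit 28651666629), (nat_lit 29852660372), (nat_lit 31025741708)], (nat_lit 1271251), (nat_lit 1271251), (nat_lit 780000), (nat_lit 2090001), (nat_lit 1271251), (nat_lit 1271251), [(nat_lit 490000), (nat_lit 780000), (nat_lit 1100000)], [(nat_lit 2), (nat_lit 44), (nat_lit 289), (nat_lit 75), (nat_lit 12)]⟩,
 ⟨⟨[(nat_lit 80), (nat_lit 120), (nat_lit 140)], [(nat_lit 0), (nat_lit 0), (nat_lit 1164)], [((nat_lit 0), (nat_lit 0), (nat_lit 0)), ((nat_lit 0), (nat_lit 0), (nat_lit 0)), ((nat_lit 941), (nat_lit 1000), (nat_lit 576))], ((nat_lit 100), (nat_lit 95), (nat_lit 55))⟩, (nat_lit 4581891), (nat_lit 177), (nat_lit 177), (nat_lit 0), (nat_lit 0), [(nat_lit 4688000000), (nat_lit 7968000000), (nat_lit 9842000000)], [], [(nat_lit 20267405100), (nat_lit 24000945642), (nat_lit 27500985316), (nat_lit 30406699095), (nat_lit 18447702096), (nat_lit 21103528943), (nat_lit 23253285091), (nat_lit 25478015322)], (nat_lit 0), (nat_lit 0), (nat_lit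 0), (nat_lit 0), (nat_lit 0), (nat_lit 0), [], [(nat_lit 17), (nat_lit 58), (nat_lit 428), (nat_lit 200), (nat_lit 12)]⟩,
 ⟨⟨[(nat_lit 140), (nat_lit 180), (nat_lit 200)], [(nat_lit 0), (nat_lit 0), (nat_lit 2835)], [((nat_lit 0), (nat_lit 0), (nat_lit 0)), ((nat_lit 0), (nat_lit 0), (nat_lit 0)), ((nat_lit 363), (nat_lit 1000), (nat_lit 798))], ((nat_lit 0), (nat_lit 0), (nat_lit 0))⟩, (nat_lit 23386), (nat_lit 300), (nat_lit 1902), (nat_lit 6638504), (nat_lit 3160839), [(nat_lit 836570000), (nat_lit 1194930000), (nat_lit 1394000000)], [], [(nat_lit 5734580916), (nat_lit 5484620334), (nat_lit 5684275489), (nat_lit 5418543927), (nat_lit 4475023636), (nat_lit 4236221850), (nat_lit 4397356460), (nat_lit 4144640724)], (nat_lit 780000), (nat_lit 1271251), (nat_lit 1271251), (nat_lit 1271251), (nat_lit 0), (nat_lit 1412501), [(nat_lit 1977501), (nat_lit 1271251), (nat_lit 1271251)], [(nat_lit 32), (nat_lit 67), (nat_lit 565), (nat_lit 200), (nat_lit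 12)]⟩⟩) (.spl (nat_lit 1) (nat_lit 260) (.leaf ⟨(nat_lit 0), (nat_lit 912), (nat_lit 0), (nat_lit 88), (nat_lit 0), (nat_lit 4259), (nat_lit 5738), (nat_lit 976), (nat_lit 0), (nat_lit 0), (nat_lit 0), [], Pd.none, Pd.none, (nat_lit 0), (nat_lit 1), (nat_lit 0), (nat_lit 0), (nat_lit 6), (nat_lit 0), [], [⟨(nat_lit 1), (nat_lit 92), (nat_lit 68), (nat_lit 100), (nat_lit 196629603)⟩], [], [⟨(nat_lit 2), (nat_lit 42), (nat_lit 91), (nat_lit 100), (nat_lit 556016960)⟩],
 ⟨⟨[(nat_lit 40), (nat_lit 60), (nat_lit 80)], [(nat_lit 0), (nat_lit 398), (nat_lit 992)], [((nat_lit 0), (nat_lit 0), (nat_lit 0)), ((nat_lit 1000), (nat_lit 814), (nat_lit 310)), ((nat_lit 1000), (nat_lit 752), (nat_lit 464))], ((nat_lit 73), (nat_lit 100), (nat_lit 55))⟩, (nat_lit 3153695), (nat_lit 198), (nat_lit 198), (nat_lit 0), (nat_lit 437060), [(nat_lit 2032000002), (nat_lit 3282000002), (nat_lit 4688000000)], [], [(nat_lit 21964398263), (nat_lit 23117503049), (nat_lit 25382734024),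 (nat_lit 26410314123), (nat_lit 25889594337), (nat_lit 27269575101), (nat_lit 28879103600), (nat_lit 29931056331)], (nat_lit 1271251), (nat_lit 1271251), (nat_lit 780000), (nat_lit 2090001), (nat_lit 1271251), (nat_lit 1271251), [(nat_lit 490000), (nat_lit 780000), (nat_lit 1100000)], [(nat_lit 2), (nat_lit 44), (nat_lit 289), (nat_lit 75), (nat_lit 12)]⟩,
 ⟨⟨[(nat_lit 80), (nat_lit 120), (nat_lit 140)], [(nat_lit 0), (nat_lit 0), (nat_lit 1164)], [((nat_lit 0), (nat_lit 0), (nat_lit 0)), ((nat_lit 0), (nat_lit 0), (nat_lit 0)), ((nat_lit 941), (nat_lit 1000), (nat_lit 576))], ((nat_lit 100), (nat_lit 95), (nat_lit 55))⟩, (nat_lit 0), (nat_lit 113), (nat_lit 113), (nat_lit 0), (nat_lit 0), [(nat_lit 4688000000), (nat_lit 7968000000), (nat_lit 9842000000)], [], [(nat_lit 13067540764), (nat_lit 14669419400), (nat_lit 19732821044), (nat_lit 20871007869), (nat_lit 27927261888), (nat_lit 28775651219), (nat_lit 30511679620), (nat_lit 31210154203)], (nat_lit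 0), (nat_lit 0), (nat_lit 0), (nat_lit 0), (nat_lit 0), (nat_lit 0), [], [(nat_lit 17), (nat_lit 58), (nat_lit 483), (nat_lit 250), (nat_lit 13)]⟩,
 ⟨⟨[(nat_lit 140), (nat_lit 180), (nat_lit 200)], [(nat_lit 0), (nat_lit 0), (nat_lit 2835)], [((nat_lit 0), (nat_lit 0), (nat_lit 0)), ((nat_lit 0), (nat_lit 0), (nat_lit 0)), ((nat_lit 363), (nat_lit 1000), (nat_lit 798))], ((nat_lit 0), (nat_lit 0), (nat_lit 0))⟩, (nat_lit 24212), (nat_lit 300), (nat_lit 1556), (nat_lit 6872800), (nat_lit 2695129), [(nat_lit 866096000), (nat_lit 1237104000), (nat_lit 1443200000)], [], [(nat_lit 5512406336), (nat_lit 5297799824), (nat_lit 5290791714), (nat_lit 5075236910), (nat_lit 5054273152), (nat_lit 4827947104), (nat_lit 4880406464), (nat_lit 4650476791)], (nat_lit 780000), (nat_lit 1271251), (nat_lit 1271251), (nat_lit 1271251), (nat_lit 1271251), (nat_lit 1271251), [(nat_lit 1977501), (nat_lit 1271251), (nat_lit 1271251)], [(nat_lit 32), (nat_lit 67), (nat_lit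 503), (nat_lit 250), (nat_lit 10)]⟩⟩) (.trX (nat_lit 5) (nat_lit 1) (nat_lit 2) (nat_lit 96) (nat_lit 40) (nat_lit 100) (nat_lit 390) (.leaf ⟨(nat_lit 0), (nat_lit 918), (nat_lit 0), (nat_lit 82), (nat_lit 0), (nat_lit 4424), (nat_lit 5753), (nat_lit 912), (nat_lit 0), (nat_lit 0), (nat_lit 0), [], Pd.none, Pd.none, (nat_lit 0), (nat_lit 1), (nat_lit 0), (nat_lit 0), (nat_lit 6), (nat_lit 0), [⟨(nat_lit 0), (nat_lit 94), (nat_lit 62), (nat_lit 100), (nat_lit 39730528)⟩], [⟨(nat_lit 1), (nat_lit 92), (nat_lit 68), (nat_lit 100), (nat_lit 250637329)⟩], [], [⟨(nat_lit 2), (nat_lit 42), (nat_lit 91), (nat_lit 100), (nat_lit 521584087)⟩],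
 ⟨⟨[(nat_lit 40), (nat_lit 60), (nat_lit 80)], [(nat_lit 0), (nat_lit 398), (nat_lit 992)], [((nat_lit 0), (nat_lit 0), (nat_lit 0)), ((nat_lit 1000), (nat_lit 814), (nat_lit 310)), ((nat_lit 1000), (nat_lit 752), (nat_lit 464))], ((nat_lit 73), (nat_lit 100), (nat_lit 55))⟩, (nat_lit 3182282), (nat_lit 217), (nat_lit 217), (nat_lit 0), (nat_lit 504120), [(nat_lit 2032000008), (nat_lit 3282000038), (nat_lit 4688000000)], [], [(nat_lit 21989600030), (nat_lit 23207949330), (nat_lit 25548050960), (nat_lit 26529493928), (nat_lit 26064987480), (nat_lit 27472101834), (nat_lit 29021765116), (nat_lit 30091467598)], (nat_lit 1271251), (nat_lit 1271251), (nat_lit 780000), (nat_lit 2090001), (nat_lit 1271251), (nat_lit 1271251), [(nat_lit 490000), (nat_lit 780000), (nat_lit 1100000)], [(nat_lit 2), (nat_lit 44), (nat_lit 289), (nat_lit 75), (nat_lit 12)]⟩,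
 ⟨⟨[(nat_lit 80), (nat_lit 120), (nat_lit 140)], [(nat_lit 0), (nat_lit 528), (nat_lit 1572)], [((nat_lit 0), (nat_lit 0), (nat_lit 0)), ((nat_lit 1000), (nat_lit 959), (nat_lit 206)), ((nat_lit 966), (nat_lit 1000), (nat_lit 679))], ((nat_lit 99), (nat_lit 100), (nat_lit 56))⟩, (nat_lit 0), (nat_lit 110), (nat_lit 110), (nat_lit 0), (nat_lit 0), [(nat_lit 4688000000), (nat_lit 7968000000), (nat_lit 9842000000)], [], [(nat_lit 14649376400), (nat_lit 16253652366), (nat_lit 20855625377), (nat_lit 21995244139), (nat_lit 27945365242), (nat_lit 28833199267), (nat_lit 30501025983), (nat_lit 31233787950)], (nat_lit 0), (nat_lit 0), (nat_lit 0), (nat_lit 0), (nat_lit 0), (nat_lit 0), [], [(nat_lit 17), (nat_lit 58), (nat_lit 483), (nat_lit 250), (nat_lit 13)]⟩,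
 ⟨⟨[(nat_lit 140), (nat_lit 180), (nat_lit 200)], [(nat_lit 0), (nat_lit 0), (nat_lit 2835)], [((nat_lit 0), (nat_lit 0), (nat_lit 0)), ((nat_lit 0), (nat_lit 0), (nat_lit 0)), ((nat_lit 363), (nat_lit 1000), (nat_lit 798))], ((nat_lit 0), (nat_lit 0), (nat_lit 0))⟩, (nat_lit 22561), (nat_lit 300), (nat_lit 1782), (nat_lit 6404200), (nat_lit 3160781), [(nat_lit 807044000), (nat_lit 1152756000), (nat_lit 1344800000)], [], [(nat_lit 5138971012), (nat_lit 4947269606), (nat_lit 4923882157), (nat_lit 4730301526), (nat_lit 4703797126), (nat_lit 4493082885), (nat_lit 4543430521), (nat_lit 4328593228)], (nat_lit 780000), (nat_lit 1271251), (nat_lit 1271251), (nat_lit 1271251), (nat_lit 1271251), (nat_lit 1271251), [(nat_lit 1977501), (nat_lit 1271251), (nat_lit 1271251)], [(nat_lit 32), (nat_lit 67), (nat_lit 558), (nat_lit 225), (nat_lit 11)]⟩⟩)))))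
noncomputable def c8_40 : Tr Lf :=
 (.trX (nat_lit 5) (nat_lit 1) (nat_lit 2) (nat_lit 92) (nat_lit 49) (nat_lit 100) (nat_lit 380) (.spl (nat_lit 5) (nat_lit 200) (.leaf ⟨(nat_lit 0), (nat_lit 1000), (nat_lit 0), (nat_lit 0), (nat_lit 0), (nat_lit 4568), (nat_lit 8379), (nat_lit 0), (nat_lit 0), (nat_lit 0), (nat_lit 0), [], Pd.none, Pd.none, (nat_lit 0), (nat_lit 1), (nat_lit 0), (nat_lit 0), (nat_lit 6), (nat_lit 0), [⟨(nat_lit 0), (nat_lit 88), (nat_lit 67), (nat_lit 100), (nat_lit 397216555)⟩], [⟨(nat_lit 1), (nat_lit 77), (nat_lit 72), (nat_lit 100), (nat_lit 586594877)⟩], [], [],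
 ⟨⟨[(nat_lit 40), (nat_lit 60), (nat_lit 80)], [(nat_lit 0), (nat_lit 398), (nat_lit 992)], [((nat_lit 0), (nat_lit 0), (nat_lit 0)), ((nat_lit 1000), (nat_lit 814), (nat_lit 310)), ((nat_lit 1000), (nat_lit 752), (nat_lit 464))], ((nat_lit 73), (nat_lit 100), (nat_lit 55))⟩, (nat_lit 2478571), (nat_lit 277), (nat_lit 277), (nat_lit 0), (nat_lit 676172), [(nat_lit 2032000011), (nat_lit 3282000012), (nat_lit 4688000000)], [], [(nat_lit 22957107226), (nat_lit 24022253962), (nat_lit 25979293589), (nat_lit 26870662753), (nat_lit 26218057860), (nat_lit 27648852438), (nat_lit 29146269712), (nat_lit 30231462886)], (nat_lit 1271251), (nat_lit 1271251), (nat_lit 780000), (nat_lit 2090001), (nat_lit 1271251), (nat_lit 1271251), [(nat_lit 490000), (nat_lit 780000), (nat_lit 1100000)], [(nat_lit 2), (nat_lit 44), (nat_lit 289), (nat_lit 75), (nat_lit 12)]⟩,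
 ⟨⟨[(nat_lit 60), (nat_lit 100), (nat_lit 120)], [(nat_lit 0), (nat_lit 0), (nat_lit 1164)], [((nat_lit 0), (nat_lit 0), (nat_lit 0)), ((nat_lit 0), (nat_lit 0), (nat_lit 0)), ((nat_lit 1000), (nat_lit 933), (nat_lit 572))], ((nat_lit 93), (nat_lit 100), (nat_lit 55))⟩, (nat_lit 1649418), (nat_lit 155), (nat_lit 155), (nat_lit 0), (nat_lit 0), [(nat_lit 3282000000), (nat_lit 6250000000), (nat_lit 7968000000)], [], [(nat_lit 22065321642), (nat_lit 26477273492), (nat_lit 28599765363), (nat_lit 31618221302), (nat_lit 18232107349), (nat_lit 21584144325), (nat_lit 23075214724), (nat_lit 25375851512)], (nat_lit 0), (nat_lit 0), (nat_lit 0), (nat_lit 0), (nat_lit 0), (nat_lit 0), [], [(nat_lit 10), (nat_lit 54), (nat_lit 345), (nat_lit 125), (nat_lit 11)]⟩,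
 Rw.none⟩) (.spl (nat_lit 3) (nat_lit 200) (.spl (nat_lit 3) (nat_lit 160) (.spl (nat_lit 2) (nat_lit 160) (.trX (nat_lit 4) (nat_lit 0) (nat_lit 2) (nat_lit 73) (nat_lit 85) (nat_lit 100) (nat_lit 320) (.trX (nat_lit 5) (nat_lit 1) (nat_lit 2) (nat_lit 94) (nat_lit 59) (nat_lit 100) (nat_lit 370) (.leaf ⟨(nat_lit 0), (nat_lit 1000), (nat_lit 0), (nat_lit 0), (nat_lit 0), (nat_lit 4621), (nat_lit 7296), (nat_lit 0), (nat_lit 0), (nat_lit 0), (nat_lit 0), [], Pd.none, Pd.none, (nat_lit 0), (nat_lit 1), (nat_lit 0), (nat_lit 0), (nat_lit 6), (nat_lit 0), [⟨(nat_lit 0), (nat_lit 88), (nat_lit 67), (nat_lit 100), (nat_lit 449804621)⟩], [⟨(nat_lit 1), (nat_lit 85), (nat_lit 73), (nat_lit 100), (nat_lit 62718379)⟩], [⟨(nat_lit 1), (nat_lit 77), (nat_lit 91), (nat_lit 100), (nat_lit 4503755)⟩], [⟨(nat_lit 2), (nat_lit 69), (nat_lit 96), (nat_lit 100), (nat_lit 521537096)⟩],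
 ⟨⟨[(nat_lit 40), (nat_lit 60), (nat_lit 80)], [(nat_lit 0), (nat_lit 398), (nat_lit 992)], [((nat_lit 0), (nat_lit 0), (nat_lit 0)), ((nat_lit 1000), (nat_lit 814), (nat_lit 310)), ((nat_lit 1000), (nat_lit 752), (nat_lit 464))], ((nat_lit 73), (nat_lit 100), (nat_lit 55))⟩, (nat_lit 3567772), (nat_lit 275), (nat_lit 275), (nat_lit 0), (nat_lit 676172), [(nat_lit 2032000002), (nat_lit 3295919648), (nat_lit 4688000000)], [], [(nat_lit 22045503394), (nat_lit 23265323001), (nat_lit 22389582416), (nat_lit 23545913632), (nat_lit 25574857406), (nat_lit 27054800121), (nat_lit 25482059487), (nat_lit 26887689526)], (nat_lit 1271251), (nat_lit 1271251), (nat_lit 780000), (nat_lit 1100000), (nat_lit 1271251), (nat_lit 1271251), [(nat_lit 490000), (nat_lit 780000), (nat_lit 1100000)], [(nat_lit 2), (nat_lit 44), (nat_lit 249), (nat_lit 40), (nat_lit 10)]⟩,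
 ⟨⟨[(nat_lit 60), (nat_lit 100), (nat_lit 120)], [(nat_lit 0), (nat_lit 0), (nat_lit 1164)], [((nat_lit 0), (nat_lit 0), (nat_lit 0)), ((nat_lit 0), (nat_lit 0), (nat_lit 0)), ((nat_lit 1000), (nat_lit 933), (nat_lit 572))], ((nat_lit 93), (nat_lit 100), (nat_lit 55))⟩, (nat_lit 19938), (nat_lit 91), (nat_lit 91), (nat_lit 0), (nat_lit 0), [(nat_lit 3282000000), (nat_lit 6250000000), (nat_lit 7968000000)], [], [(nat_lit 17464822464), (nat_lit 20868505192), (nat_lit 17629589168), (nat_lit 20820466000), (nat_lit 28997559204), (nat_lit 31114857760), (nat_lit 28463994838), (nat_lit 30323650880)], (nat_lit 0), (nat_lit 0), (nat_lit 0), (nat_lit 0), (nat_lit 0), (nat_lit 0), [], [(nat_lit 10), (nat_lit 54), (nat_lit 373), (nat_lit 150), (nat_lit 11)]⟩,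
 Rw.none⟩))) (.leaf ⟨(nat_lit 0), (nat_lit 934), (nat_lit 0), (nat_lit 66), (nat_lit 0), (nat_lit 4414), (nat_lit 7514), (nat_lit 721), (nat_lit 0), (nat_lit 0), (nat_lit 0), [], Pd.none, Pd.none, (nat_lit 0), (nat_lit 1), (nat_lit 0), (nat_lit 0), (nat_lit 6), (nat_lit 0), [⟨(nat_lit 0), (nat_lit 88), (nat_lit 67), (nat_lit 100), (nat_lit 482461084)⟩], [⟨(nat_lit 1), (nat_lit 85), (nat_lit 67), (nat_lit 100), (nat_lit 28525951)⟩], [], [⟨(nat_lit 2), (nat_lit 71), (nat_lit 95), (nat_lit 100), (nat_lit 503109346)⟩],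
 ⟨⟨[(nat_lit 40), (nat_lit 60), (nat_lit 80)], [(nat_lit 0), (nat_lit 398), (nat_lit 992)], [((nat_lit 0), (nat_lit 0), (nat_lit 0)), ((nat_lit 1000), (nat_lit 814), (nat_lit 310)), ((nat_lit 1000), (nat_lit 752), (nat_lit 464))], ((nat_lit 73), (nat_lit 100), (nat_lit 55))⟩, (nat_lit 3501284), (nat_lit 248), (nat_lit 248), (nat_lit 0), (nat_lit 576153), [(nat_lit 2032000020), (nat_lit 3282000117), (nat_lit 4688000000)], [], [(nat_lit 21901917941), (nat_lit 23145730324), (nat_lit 22239546621), (nat_lit 23449433108), (nat_lit 26054357593), (nat_lit 27459827487), (nat_lit 25970022445), (nat_lit 27306242244)], (nat_lit 1271251), (nat_lit 1271251), (nat_lit 780000), (nat_lit 1100000), (nat_lit 1271251), (nat_lit 1271251), [(nat_lit 490000), (nat_lit 780000), (nat_lit 1100000)], [(nat_lit 2), (nat_lit 44), (nat_lit 249), (nat_lit 40), (nat_lit 10)]⟩,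
 ⟨⟨[(nat_lit 60), (nat_lit 100), (nat_lit 120)], [(nat_lit 0), (nat_lit 0), (nat_lit 1164)], [((nat_lit 0), (nat_lit 0), (nat_lit 0)), ((nat_lit 0), (nat_lit 0), (nat_lit 0)), ((nat_lit 1000), (nat_lit 933), (nat_lit 572))], ((nat_lit 93), (nat_lit 100), (nat_lit 55))⟩, (nat_lit 0), (nat_lit 96), (nat_lit 96), (nat_lit 0), (nat_lit 0), [(nat_lit 3282000000), (nat_lit 6250000000), (nat_lit 7968000000)], [], [(nat_lit 17219462701), (nat_lit 20685407428), (nat_lit 17361380062), (nat_lit 20609333000), (nat_lit 29950403591), (nat_lit 32373194041), (nat_lit 29188183267), (nat_lit 31479279210)], (nat_lit 0), (nat_lit 0), (nat_lit 0), (nat_lit 0), (nat_lit 0), (nat_lit 0), [], [(nat_lit 10), (nat_lit 54), (nat_lit 373), (nat_lit 150), (nat_lit 11)]⟩,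
 ⟨⟨[(nat_lit 120), (nat_lit 160), (nat_lit 180)], [(nat_lit 0), (nat_lit 0), (nat_lit 1613)], [((nat_lit 0), (nat_lit 0), (nat_lit 0)), ((nat_lit 0), (nat_lit 0), (nat_lit 0)), ((nat_lit 620), (nat_lit 1000), (nat_lit 670))], ((nat_lit 100), (nat_lit 73), (nat_lit 55))⟩, (nat_lit 28724), (nat_lit 300), (nat_lit 2126), (nat_lit 4897202), (nat_lit 3981480), [(nat_lit 525888000), (nat_lit 783552000), (nat_lit 927828000)], [], [(nat_lit 3474476263), (nat_lit 3432263612), (nat_lit 3312775406), (nat_lit 3270500656), (nat_lit 3152217427), (nat_lit 3112259587), (nat_lit 3073450850), (nat_lit 3035204538)], (nat_lit 1100000), (nat_lit 1271251), (nat_lit 1271251), (nat_lit 1271251), (nat_lit 1271251), (nat_lit 1271251), [(nat_lit 1695001), (nat_lit 1271251), (nat_lit 1271251)], [(nat_lit 28), (nat_lit 65), (nat_lit 643), (nat_lit 225), (nat_lit 14)]⟩⟩)) (.leaf ⟨(nat_lit 0), (nat_lit 1000), (nat_lit 0), (nat_lit 0), (nat_lit 0), (nat_lit 4548), (nat_lit 4562),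 (nat_lit 0), (nat_lit 0), (nat_lit 0), (nat_lit 0), [], Pd.none, Pd.none, (nat_lit 0), (nat_lit 1), (nat_lit 0), (nat_lit 0), (nat_lit 6), (nat_lit 0), [⟨(nat_lit 0), (nat_lit 88), (nat_lit 67), (nat_lit 100), (nat_lit 107425301)⟩], [⟨(nat_lit 1), (nat_lit 77), (nat_lit 72), (nat_lit 100), (nat_lit 180703020)⟩], [], [⟨(nat_lit 2), (nat_lit 52), (nat_lit 91), (nat_lit 100), (nat_lit 516893653)⟩],
 ⟨⟨[(nat_lit 40), (nat_lit 60), (nat_lit 80)], [(nat_lit 0), (nat_lit 398), (nat_lit 992)], [((nat_lit 0), (nat_lit 0), (nat_lit 0)), ((nat_lit 1000), (nat_lit 814), (nat_lit 310)), ((nat_lit 1000), (nat_lit 752), (nat_lit 464))], ((nat_lit 73), (nat_lit 100), (nat_lit 55))⟩, (nat_lit 3481986), (nat_lit 265), (nat_lit 265), (nat_lit 0), (nat_lit 676172), [(nat_lit 2032000001), (nat_lit 3300473791), (nat_lit 4688000000)], [], [(nat_lit 22670274820), (nat_lit 23802346566), (nat_lit 23570728172), (nat_lit 24647217218), (nat_lit 26193269374), (nat_lit 27441416117),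 (nat_lit 26890052363), (nat_lit 28158513054)], (nat_lit 1271251), (nat_lit 1271251), (nat_lit 1100000), (nat_lit 1442501), (nat_lit 1271251), (nat_lit 1271251), [(nat_lit 490000), (nat_lit 780000), (nat_lit 1100000)], [(nat_lit 2), (nat_lit 44), (nat_lit 203), (nat_lit 0), (nat_lit 7)]⟩,
 ⟨⟨[(nat_lit 60), (nat_lit 100), (nat_lit 120)], [(nat_lit 0), (nat_lit 0), (nat_lit 1164)], [((nat_lit 0), (nat_lit 0), (nat_lit 0)), ((nat_lit 0), (nat_lit 0), (nat_lit 0)), ((nat_lit 1000), (nat_lit 933), (nat_lit 572))], ((nat_lit 93), (nat_lit 100), (nat_lit 55))⟩, (nat_lit 25318), (nat_lit 81), (nat_lit 81), (nat_lit 0), (nat_lit 0), [(nat_lit 3282000000), (nat_lit 6250000000), (nat_lit 7968000000)], [], [(nat_lit 15971488452), (nat_lit 18811641128), (nat_lit 17503856709), (nat_lit 20130426102), (nat_lit 26534575099), (nat_lit 28242376692), (nat_lit 27305387956), (nat_lit 28893734164)], (nat_lit 0), (nat_lit 0), (nat_lit 0), (nat_lit 0), (nat_lit 0), (nat_lit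 0), [], [(nat_lit 10), (nat_lit 54), (nat_lit 373), (nat_lit 150), (nat_lit 11)]⟩,
 Rw.none⟩)) (.leaf ⟨(nat_lit 0), (nat_lit 1000), (nat_lit 0), (nat_lit 0), (nat_lit 0), (nat_lit 4389), (nat_lit 4562), (nat_lit 0), (nat_lit 0), (nat_lit 0), (nat_lit 0), [], Pd.none, Pd.none, (nat_lit 0), (nat_lit 1), (nat_lit 0), (nat_lit 0), (nat_lit 6), (nat_lit 0), [], [⟨(nat_lit 1), (nat_lit 77), (nat_lit 72), (nat_lit 100), (nat_lit 566214705)⟩], [⟨(nat_lit 1), (nat_lit 72), (nat_lit 89), (nat_lit 100), (nat_lit 161291)⟩, ⟨(nat_lit 1), (nat_lit 49), (nat_lit 92), (nat_lit 100), (nat_lit 511119263)⟩], [],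
 ⟨⟨[(nat_lit 40), (nat_lit 60), (nat_lit 80)], [(nat_lit 0), (nat_lit 398), (nat_lit 992)], [((nat_lit 0), (nat_lit 0), (nat_lit 0)), ((nat_lit 1000), (nat_lit 814), (nat_lit 310)), ((nat_lit 1000), (nat_lit 752), (nat_lit 464))], ((nat_lit 73), (nat_lit 100), (nat_lit 55))⟩, (nat_lit 3443234), (nat_lit 260), (nat_lit 260), (nat_lit 0), (nat_lit 676172), [(nat_lit 2032000003), (nat_lit 3291114684), (nat_lit 4688000000)], [], [(nat_lit 23284227043), (nat_lit 24416280800), (nat_lit 25652262823), (nat_lit 26630203358), (nat_lit 26760214377), (nat_lit 28006243047), (nat_lit 28991503583), (nat_lit 30057440966)], (nat_lit 1271251), (nat_lit 1271251), (nat_lit 1271251), (nat_lit 1271251), (nat_lit 1271251), (nat_lit 1271251), [(nat_lit 490000), (nat_lit 780000), (nat_lit 1100000)], [(nat_lit 2), (nat_lit 44), (nat_lit 203), (nat_lit 0), (nat_lit 7)]⟩,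
 ⟨⟨[(nat_lit 60), (nat_lit 100), (nat_lit 120)], [(nat_lit 0), (nat_lit 0), (nat_lit 1164)], [((nat_lit 0), (nat_lit 0), (nat_lit 0)), ((nat_lit 0), (nat_lit 0), (nat_lit 0)), ((nat_lit 1000), (nat_lit 933), (nat_lit 572))], ((nat_lit 93), (nat_lit 100), (nat_lit 55))⟩, (nat_lit 17176), (nat_lit 76), (nat_lit 76), (nat_lit 0), (nat_lit 0), [(nat_lit 3282000000), (nat_lit 6250000000), (nat_lit 7968000000)], [], [(nat_lit 17503856709), (nat_lit 20130426102), (nat_lit 21215206709), (nat_lit 23394188452), (nat_lit 27305387956), (nat_lit 28893734164), (nat_lit 29406740408), (nat_lit 30839427832)], (nat_lit 0), (nat_lit 0), (nat_lit 0), (nat_lit 0), (nat_lit 0), (nat_lit 0), [], [(nat_lit 10), (nat_lit 54), (nat_lit 401), (nat_lit 175), (nat_lit 12)]⟩,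
 Rw.none⟩))))
noncomputable def c8_41 : Tr Lf :=
 (.trX (nat_lit 4) (nat_lit 0) (nat_lit 2) (nat_lit 75) (nat_lit 92) (nat_lit 100) (nat_lit 300) (.trX (nat_lit 5) (nat_lit 1) (nat_lit 2) (nat_lit 100) (nat_lit 49) (nat_lit 97) (nat_lit 380) (.spl (nat_lit 3) (nat_lit 160) (.spl (nat_lit 1) (nat_lit 280) (.leaf ⟨(nat_lit 1000), (nat_lit 0), (nat_lit 0), (nat_lit 0), (nat_lit 0), (nat_lit 3407), (nat_lit 0), (nat_lit 0), (nat_lit 0), (nat_lit 0), (nat_lit 250000), [((nat_lit 360), [((nat_lit 21), (nat_lit 0), (nat_lit 1000))])], ⟨(nat_lit 6), false, false, false, (nat_lit 189), (nat_lit 3162), (nat_lit 3873), [(nat_lit 1414421), (nat_lit 1422280), (nat_lit 1457950), (nat_lit 1466533), (nat_lit 1478975), (nat_lit 1483267), (nat_lit 1522504), (nat_lit 1527519)]⟩, ⟨(nat_lit 6), false, false, true, (nat_lit 213), (nat_lit 3162), (nat_lit 3873), [(nat_lit 1477347), (nat_lit 1472332), (nat_lit 1499140), (nat_lit 1494487), (nat_lit 1574129), (nat_lit 1563762),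 (nat_lit 1595923), (nat_lit 1585917)]⟩, (nat_lit 4917150), (nat_lit 42267814), (nat_lit 11170760), (nat_lit 13561426), (nat_lit 0), (nat_lit 0), [⟨(nat_lit 0), (nat_lit 100), (nat_lit 69), (nat_lit 96), (nat_lit 58837386)⟩], [⟨(nat_lit 1), (nat_lit 92), (nat_lit 75), (nat_lit 100), (nat_lit 257682682)⟩], [], [],
 ⟨⟨[(nat_lit 40), (nat_lit 60), (nat_lit 80)], [(nat_lit 0), (nat_lit 398), (nat_lit 992)], [((nat_lit 0), (nat_lit 0), (nat_lit 0)), ((nat_lit 1000), (nat_lit 814), (nat_lit 310)), ((nat_lit 1000), (nat_lit 752), (nat_lit 464))], ((nat_lit 73), (nat_lit 100), (nat_lit 55))⟩, (nat_lit 0), (nat_lit 57), (nat_lit 57), (nat_lit 0), (nat_lit 0), [(nat_lit 1558400003), (nat_lit 1595600003), (nat_lit 1969199997)], [(nat_lit 0), (nat_lit 0), (nat_lit 0)], [(nat_lit 20725248337), (nat_lit 22026655145), (nat_lit 21158271972), (nat_lit 22394344130), (nat_lit 23373276967), (nat_lit 24709110301), (nat_lit 23679015631), (nat_lit 24843701838)], (nat_lit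 0), (nat_lit 0), (nat_lit 0), (nat_lit 0), (nat_lit 0), (nat_lit 0), [], [(nat_lit 2), (nat_lit 44), (nat_lit 249), (nat_lit 40), (nat_lit 10)]⟩,
 Rw.none,
 Rw.none⟩) (.trX (nat_lit 5) (nat_lit 1) (nat_lit 2) (nat_lit 96) (nat_lit 69) (nat_lit 100) (nat_lit 360) (.spl (nat_lit 4) (nat_lit 280) (.leaf ⟨(nat_lit 1000), (nat_lit 0), (nat_lit 0), (nat_lit 0), (nat_lit 0), (nat_lit 3533), (nat_lit 0), (nat_lit 0), (nat_lit 0), (nat_lit 0), (nat_lit 250000), [((nat_lit 360), [((nat_lit 21), (nat_lit 0), (nat_lit 1000))])], ⟨(nat_lit 7), false, false, false, (nat_lit 206), (nat_lit 3162), (nat_lit 3873), [(nat_lit 1457950), (nat_lit 1466533), (nat_lit 1501479), (nat_lit 1510785), (nat_lit 1522504), (nat_lit 1527519), (nat_lit 1566033), (nat_lit 1571771)]⟩, ⟨(nat_lit 6), false, false, true, (nat_lit 207), (nat_lit 3162), (nat_lit 3873), [(nat_lit 1477347), (nat_lit 1472332), (nat_lit 1499140), (nat_lit 1494487), (nat_lit 1541869), (nat_lit 1533286), (nat_lit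 1563662), (nat_lit 1555441)]⟩, (nat_lit 5005401), (nat_lit 41498548), (nat_lit 12718778), (nat_lit 12782674), (nat_lit 0), (nat_lit 0), [⟨(nat_lit 0), (nat_lit 88), (nat_lit 67), (nat_lit 100), (nat_lit 366629983)⟩], [], [], [],
 ⟨⟨[(nat_lit 40), (nat_lit 60), (nat_lit 80)], [(nat_lit 0), (nat_lit 398), (nat_lit 992)], [((nat_lit 0), (nat_lit 0), (nat_lit 0)), ((nat_lit 1000), (nat_lit 814), (nat_lit 310)), ((nat_lit 1000), (nat_lit 752), (nat_lit 464))], ((nat_lit 73), (nat_lit 100), (nat_lit 55))⟩, (nat_lit 0), (nat_lit 53), (nat_lit 53), (nat_lit 0), (nat_lit 0), [(nat_lit 1558400005), (nat_lit 1595600004), (nat_lit 1969199996)], [(nat_lit 0), (nat_lit 0), (nat_lit 0)], [(nat_lit 20567176489), (nat_lit 21978174539), (nat_lit 20984081763), (nat_lit 22241547965), (nat_lit 22461783983), (nat_lit 23887894786), (nat_lit 22684922441), (nat_lit 24039799227)], (nat_lit 0), (nat_lit 0), (nat_lit 0), (nat_lit 0), (nat_lit 0), (nat_lit 0), [], [(nat_lit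 2), (nat_lit 44), (nat_lit 249), (nat_lit 40), (nat_lit 10)]⟩,
 Rw.none,
 Rw.none⟩) (.spl (nat_lit 6) (nat_lit 16) (.leaf ⟨(nat_lit 1000), (nat_lit 0), (nat_lit 0), (nat_lit 0), (nat_lit 0), (nat_lit 3466), (nat_lit 0), (nat_lit 0), (nat_lit 0), (nat_lit 0), (nat_lit 250000), [((nat_lit 360), [((nat_lit 21), (nat_lit 0), (nat_lit 1000))])], ⟨(nat_lit 7), false, false, false, (nat_lit 206), (nat_lit 3162), (nat_lit 3873), [(nat_lit 1457950), (nat_lit 1466533), (nat_lit 1501479), (nat_lit 1510785), (nat_lit 1522504), (nat_lit 1527519), (nat_lit 1566033), (nat_lit 1571771)]⟩, ⟨(nat_lit 7), false, false, true, (nat_lit 226), (nat_lit 3162), (nat_lit 3873), [(nat_lit 1541869), (nat_lit 1533286), (nat_lit 1563662), (nat_lit 1555441), (nat_lit 1574129), (nat_lit 1563762), (nat_lit 1595923), (nat_lit 1585917)]⟩, (nat_lit 5126207), (nat_lit 40162109), (nat_lit 12452105), (nat_lit 14385786), (nat_lit 0), (nat_lit 0), [⟨(nat_lit 0), (nat_lit 88), (nat_lit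 67), (nat_lit 100), (nat_lit 370514911)⟩], [⟨(nat_lit 1), (nat_lit 92), (nat_lit 75), (nat_lit 100), (nat_lit 266902459)⟩], [], [],
 ⟨⟨[(nat_lit 40), (nat_lit 60), (nat_lit 80)], [(nat_lit 0), (nat_lit 398), (nat_lit 992)], [((nat_lit 0), (nat_lit 0), (nat_lit 0)), ((nat_lit 1000), (nat_lit 814), (nat_lit 310)), ((nat_lit 1000), (nat_lit 752), (nat_lit 464))], ((nat_lit 77), (nat_lit 100), (nat_lit 42))⟩, (nat_lit 0), (nat_lit 57), (nat_lit 57), (nat_lit 0), (nat_lit 0), [(nat_lit 1558400023), (nat_lit 1595600019), (nat_lit 1969199981)], [(nat_lit 0), (nat_lit 0), (nat_lit 0)], [(nat_lit 22427059061), (nat_lit 23823183372), (nat_lit 22766729105), (nat_lit 23988362054), (nat_lit 23424251534), (nat_lit 24771689919), (nat_lit 23611790944), (nat_lit 24894132825)], (nat_lit 0), (nat_lit 0), (nat_lit 0), (nat_lit 0), (nat_lit 0), (nat_lit 0), [], [(nat_lit 2), (nat_lit 44), (nat_lit 249), (nat_lit 40), (nat_lit 9)]⟩,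
 Rw.none,
 Rw.none⟩) (.leaf ⟨(nat_lit 899), (nat_lit 77), (nat_lit 0), (nat_lit 24), (nat_lit 0), (nat_lit 3573), (nat_lit 1113), (nat_lit 272), (nat_lit 0), (nat_lit 0), (nat_lit 224750), [((nat_lit 360), [((nat_lit 21), (nat_lit 0), (nat_lit 899))])], ⟨(nat_lit 7), false, false, false, (nat_lit 206), (nat_lit 3162), (nat_lit 3873), [(nat_lit 1457950), (nat_lit 1466533), (nat_lit 1501479), (nat_lit 1510785), (nat_lit 1522504), (nat_lit 1527519), (nat_lit 1566033), (nat_lit 1571771)]⟩, ⟨(nat_lit 7), false, false, true, (nat_lit 226), (nat_lit 3162), (nat_lit 3873), [(nat_lit 1541869), (nat_lit 1533286), (nat_lit 1563662), (nat_lit 1555441), (nat_lit 1574129), (nat_lit 1563762), (nat_lit 1595923), (nat_lit 1585917)]⟩, (nat_lit 5126207), (nat_lit 40162109), (nat_lit 12452105), (nat_lit 14385786), (nat_lit 7), (nat_lit 0), [⟨(nat_lit 0), (nat_lit 88), (nat_lit 67), (nat_lit 100), (nat_lit 209788165)⟩], [⟨(nat_lit 1), (nat_lit 92), (nat_lit 75), (nat_lit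 100), (nat_lit 274911013)⟩], [⟨(nat_lit 1), (nat_lit 82), (nat_lit 92), (nat_lit 100), (nat_lit 992168)⟩], [],
 ⟨⟨[(nat_lit 40), (nat_lit 60), (nat_lit 80)], [(nat_lit 0), (nat_lit 398), (nat_lit 992)], [((nat_lit 0), (nat_lit 0), (nat_lit 0)), ((nat_lit 1000), (nat_lit 814), (nat_lit 310)), ((nat_lit 1000), (nat_lit 752), (nat_lit 464))], ((nat_lit 73), (nat_lit 100), (nat_lit 55))⟩, (nat_lit 0), (nat_lit 57), (nat_lit 57), (nat_lit 0), (nat_lit 0), [(nat_lit 1582599602), (nat_lit 1765926402), (nat_lit 2239859798)], [(nat_lit 0), (nat_lit 0), (nat_lit 0)], [(nat_lit 22506348324), (nat_lit 23926528466), (nat_lit 22830608656), (nat_lit 24070507987), (nat_lit 23517943302), (nat_lit 24885181770), (nat_lit 23684822162), (nat_lit 24985592413)], (nat_lit 0), (nat_lit 0), (nat_lit 0), (nat_lit 0), (nat_lit 0), (nat_lit 0), [], [(nat_lit 2), (nat_lit 44), (nat_lit 249), (nat_lit 40), (nat_lit 9)]⟩,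
 ⟨⟨[(nat_lit 60), (nat_lit 100), (nat_lit 120)], [(nat_lit 0), (nat_lit 0), (nat_lit 1164)], [((nat_lit 0), (nat_lit 0), (nat_lit 0)), ((nat_lit 0), (nat_lit 0), (nat_lit 0)), ((nat_lit 1000), (nat_lit 933), (nat_lit 572))], ((nat_lit 93), (nat_lit 100), (nat_lit 55))⟩, (nat_lit 0), (nat_lit 460), (nat_lit 460), (nat_lit 0), (nat_lit 694017), [(nat_lit 331482000), (nat_lit 631250000), (nat_lit 804768000)], [], [(nat_lit 2659570183), (nat_lit 2954437318), (nat_lit 2375432158), (nat_lit 2880351240), (nat_lit 3711017961), (nat_lit 3479310843), (nat_lit 4288306060), (nat_lit 3324326082)], (nat_lit 1271251), (nat_lit 1271251), (nat_lit 780000), (nat_lit 1100000), (nat_lit 0), (nat_lit 2542501), [(nat_lit 780000), (nat_lit 1435001), (nat_lit 1271251)], [(nat_lit 10), (nat_lit 54), (nat_lit 373), (nat_lit 150), (nat_lit 12)]⟩,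
 ⟨⟨[(nat_lit 140), (nat_lit 180), (nat_lit 200)], [(nat_lit 0), (nat_lit 0), (nat_lit 2835)], [((nat_lit 0), (nat_lit 0), (nat_lit 0)), ((nat_lit 0), (nat_lit 0), (nat_lit 0)), ((nat_lit 363), (nat_lit 1000), (nat_lit 798))], ((nat_lit 0), (nat_lit 0), (nat_lit 0))⟩, (nat_lit 6603), (nat_lit 300), (nat_lit 2167), (nat_lit 1874403), (nat_lit 3728956), [(nat_lit 236208000), (nat_lit 337392000), (nat_lit 393600000)], [], [(nat_lit 1704436224), (nat_lit 1681345336), (nat_lit 1696241936), (nat_lit 1673022652), (nat_lit 1336810072), (nat_lit 1314120824), (nat_lit 1325969348), (nat_lit 1303203364)], (nat_lit 780000), (nat_lit 936250), (nat_lit 1271251), (nat_lit 1271251), (nat_lit 0), (nat_lit 2542501), [(nat_lit 1977501), (nat_lit 1271251), (nat_lit 1271251)], [(nat_lit 32), (nat_lit 67), (nat_lit 642), (nat_lit 200), (nat_lit 13)]⟩⟩))))) (.spl (nat_lit 1) (nat_lit 280) (.leaf ⟨(nat_lit 1000), (nat_lit 0), (nat_lit 0), (nat_lit 0), (nat_lit 0), (nat_lit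 3179), (nat_lit 0), (nat_lit 0), (nat_lit 0), (nat_lit 0), (nat_lit 250000), [((nat_lit 360), [((nat_lit 21), (nat_lit 0), (nat_lit 1000))])], ⟨(nat_lit 6), false, false, false, (nat_lit 214), (nat_lit 3162), (nat_lit 3873), [(nat_lit 1478975), (nat_lit 1483267), (nat_lit 1522504), (nat_lit 1527519), (nat_lit 1543529), (nat_lit 1544252), (nat_lit 1587058), (nat_lit 1588504)]⟩, ⟨(nat_lit 6), false, false, true, (nat_lit 213), (nat_lit 3162), (nat_lit 3873), [(nat_lit 1477347), (nat_lit 1472332), (nat_lit 1499140), (nat_lit 1494487), (nat_lit 1574129), (nat_lit 1563762), (nat_lit 1595923), (nat_lit 1585917)]⟩, (nat_lit 5098647), (nat_lit 40529082), (nat_lit 13266605), (nat_lit 13204313), (nat_lit 0), (nat_lit 0), [], [⟨(nat_lit 1), (nat_lit 92), (nat_lit 75), (nat_lit 100), (nat_lit 262459233)⟩], [], [],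
 ⟨⟨[(nat_lit 40), (nat_lit 60), (nat_lit 80)], [(nat_lit 0), (nat_lit 398), (nat_lit 992)], [((nat_lit 0), (nat_lit 0), (nat_lit 0)), ((nat_lit 1000), (nat_lit 814), (nat_lit 310)), ((nat_lit 1000), (nat_lit 752), (nat_lit 464))], ((nat_lit 73), (nat_lit 100), (nat_lit 55))⟩, (nat_lit 0), (nat_lit 48), (nat_lit 48), (nat_lit 0), (nat_lit 0), [(nat_lit 1558400055), (nat_lit 90470662222), (nat_lit 1963600000)], [(nat_lit 0), (nat_lit 0), (nat_lit 0)], [(nat_lit 20729189227), (nat_lit 22057868399), (nat_lit 21838910566), (nat_lit 23084909541), (nat_lit 23426208857), (nat_lit 24648815988), (nat_lit 24364875647), (nat_lit 25522352752)], (nat_lit 0), (nat_lit 0), (nat_lit 0), (nat_lit 0), (nat_lit 0), (nat_lit 0), [], [(nat_lit 2), (nat_lit 44), (nat_lit 203), (nat_lit 0), (nat_lit 7)]⟩,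
 Rw.none,
 Rw.none⟩) (.trX (nat_lit 5) (nat_lit 1) (nat_lit 2) (nat_lit 96) (nat_lit 69) (nat_lit 100) (nat_lit 360) (.spl (nat_lit 1) (nat_lit 300) (.leaf ⟨(nat_lit 1000), (nat_lit 0), (nat_lit 0), (nat_lit 0), (nat_lit 0), (nat_lit 3179), (nat_lit 0), (nat_lit 0), (nat_lit 0), (nat_lit 0), (nat_lit 250000), [((nat_lit 360), [((nat_lit 21), (nat_lit 0), (nat_lit 1000))])], ⟨(nat_lit 7), false, false, false, (nat_lit 227), (nat_lit 3162), (nat_lit 3873), [(nat_lit 1522504), (nat_lit 1527519), (nat_lit 1544269), (nat_lit 1549645), (nat_lit 1587058), (nat_lit 1588504), (nat_lit 1608822), (nat_lit 1610630)]⟩, ⟨(nat_lit 6), false, false, true, (nat_lit 213), (nat_lit 3162), (nat_lit 3873), [(nat_lit 1477347), (nat_lit 1472332), (nat_lit 1499140), (nat_lit 1494487), (nat_lit 1574129), (nat_lit 1563762), (nat_lit 1595923), (nat_lit 1585917)]⟩, (nat_lit 5178956), (nat_lit 39615626), (nat_lit 14379783), (nat_lit 13004591), (nat_lit 0), (nat_lit 0), [],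 [⟨(nat_lit 1), (nat_lit 92), (nat_lit 75), (nat_lit 100), (nat_lit 264808382)⟩], [], [],
 ⟨⟨[(nat_lit 40), (nat_lit 60), (nat_lit 80)], [(nat_lit 0), (nat_lit 398), (nat_lit 992)], [((nat_lit 0), (nat_lit 0), (nat_lit 0)), ((nat_lit 1000), (nat_lit 814), (nat_lit 310)), ((nat_lit 1000), (nat_lit 752), (nat_lit 464))], ((nat_lit 73), (nat_lit 100), (nat_lit 55))⟩, (nat_lit 0), (nat_lit 48), (nat_lit 48), (nat_lit 0), (nat_lit 0), [(nat_lit 1558400003), (nat_lit 91002160634), (nat_lit 1963600000)], [(nat_lit 0), (nat_lit 0), (nat_lit 0)], [(nat_lit 20729189175), (nat_lit 22057868347), (nat_lit 21838910514), (nat_lit 23084909489), (nat_lit 23426208805), (nat_lit 24648815988), (nat_lit 24364875595), (nat_lit 25522352752)], (nat_lit 0), (nat_lit 0), (nat_lit 0), (nat_lit 0), (nat_lit 0), (nat_lit 0), [], [(nat_lit 2), (nat_lit 44), (nat_lit 203), (nat_lit 0), (nat_lit 7)]⟩,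
 Rw.none,
 Rw.none⟩) (.trX (nat_lit 5) (nat_lit 1) (nat_lit 2) (nat_lit 91) (nat_lit 77) (nat_lit 100) (nat_lit 340) (.leaf ⟨(nat_lit 739), (nat_lit 261), (nat_lit 0), (nat_lit 0), (nat_lit 0), (nat_lit 3253), (nat_lit 1597), (nat_lit 0), (nat_lit 0), (nat_lit 0), (nat_lit 184750), [((nat_lit 360), [((nat_lit 21), (nat_lit 0), (nat_lit 739))])], ⟨(nat_lit 7), false, false, false, (nat_lit 236), (nat_lit 3162), (nat_lit 3873), [(nat_lit 1544269), (nat_lit 1549645), (nat_lit 1566033), (nat_lit 1571771), (nat_lit 1608822), (nat_lit 1610630), (nat_lit 1630587), (nat_lit 1632757)]⟩, ⟨(nat_lit 6), false, false, true, (nat_lit 213), (nat_lit 3162), (nat_lit 3873), [(nat_lit 1477347), (nat_lit 1472332), (nat_lit 1499140), (nat_lit 1494487), (nat_lit 1574129), (nat_lit 1563762), (nat_lit 1595923), (nat_lit 1585917)]⟩, (nat_lit 5226964), (nat_lit 39007785), (nat_lit 15124854), (nat_lit 12867361), (nat_lit 6), (nat_lit 0), [], [⟨(nat_lit 1), (nat_lit 92),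 (nat_lit 75), (nat_lit 100), (nat_lit 344662723)⟩], [⟨(nat_lit 1), (nat_lit 86), (nat_lit 89), (nat_lit 100), (nat_lit 56079984)⟩, ⟨(nat_lit 1), (nat_lit 77), (nat_lit 91), (nat_lit 100), (nat_lit 2115508)⟩], [],
 ⟨⟨[(nat_lit 40), (nat_lit 60), (nat_lit 80)], [(nat_lit 0), (nat_lit 398), (nat_lit 992)], [((nat_lit 0), (nat_lit 0), (nat_lit 0)), ((nat_lit 1000), (nat_lit 814), (nat_lit 310)), ((nat_lit 1000), (nat_lit 752), (nat_lit 464))], ((nat_lit 73), (nat_lit 100), (nat_lit 55))⟩, (nat_lit 0), (nat_lit 48), (nat_lit 48), (nat_lit 0), (nat_lit 0), [(nat_lit 1620935649), (nat_lit 90054772764), (nat_lit 2674668400)], [(nat_lit 0), (nat_lit 0), (nat_lit 0)], [(nat_lit 20757837853), (nat_lit 22101026057), (nat_lit 21869301226), (nat_lit 23128474051), (nat_lit 23475752512), (nat_lit 24712068413), (nat_lit 24413852066), (nat_lit 25583161013)], (nat_lit 0), (nat_lit 0), (nat_lit 0), (nat_lit 0), (nat_lit 0), (nat_lit 0), [], [(nat_lit 2), (nat_lit 44),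 (nat_lit 203), (nat_lit 0), (nat_lit 7)]⟩,
 ⟨⟨[(nat_lit 60), (nat_lit 100), (nat_lit 120)], [(nat_lit 0), (nat_lit 609), (nat_lit 1609)], [((nat_lit 0), (nat_lit 0), (nat_lit 0)), ((nat_lit 1000), (nat_lit 905), (nat_lit 238)), ((nat_lit 1000), (nat_lit 882), (nat_lit 668))], ((nat_lit 87), (nat_lit 100), (nat_lit 54))⟩, (nat_lit 1229565), (nat_lit 535), (nat_lit 535), (nat_lit 0), (nat_lit 879029), [(nat_lit 856602000), (nat_lit 1631250000), (nat_lit 2079648000)], [], [(nat_lit 6878603689), (nat_lit 6467883758), (nat_lit 6446752510), (nat_lit 6658180348), (nat_lit 7095460396), (nat_lit 6956651833), (nat_lit 8239712442), (nat_lit 7534646923)], (nat_lit 1271251), (nat_lit 1271251), (nat_lit 1100000), (nat_lit 1442501), (nat_lit 0), (nat_lit 2401251), [(nat_lit 780000), (nat_lit 1435001), (nat_lit 1271251)], [(nat_lit 10), (nat_lit 54), (nat_lit 373), (nat_lit 150), (nat_lit 12)]⟩,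
 Rw.none⟩))))))))
noncomputable def c8_42 : Tr Lf :=
 (.spl (nat_lit 1) (nat_lit 280) (.spl (nat_lit 0) (nat_lit 350) (.leaf ⟨(nat_lit 949), (nat_lit 20), (nat_lit 0), (nat_lit 31), (nat_lit 0), (nat_lit 3393), (nat_lit 670), (nat_lit 329), (nat_lit 0), (nat_lit 0), (nat_lit 237250), [((nat_lit 350), [((nat_lit 21), (nat_lit 0), (nat_lit 949))])], ⟨(nat_lit 6), false, false, false, (nat_lit 201), (nat_lit 3535), (nat_lit 3873), [(nat_lit 1414519), (nat_lit 1418358), (nat_lit 1458093), (nat_lit 1462251), (nat_lit 1543574), (nat_lit 1543892), (nat_lit 1587148), (nat_lit 1587785)]⟩, ⟨(nat_lit 6), false, false, true, (nat_lit 229), (nat_lit 3535), (nat_lit 3873), [(nat_lit 1499140), (nat_lit 1496902), (nat_lit 1520934), (nat_lit 1518855), (nat_lit 1628183), (nat_lit 1622425), (nat_lit 1649977), (nat_lit 1644378)]⟩, (nat_lit 5107867), (nat_lit 40282502), (nat_lit 11957337), (nat_lit 14760161), (nat_lit 6), (nat_lit 0), [], [⟨(nat_lit 1), (nat_lit 85),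 (nat_lit 73), (nat_lit 100), (nat_lit 185203312)⟩], [], [],
 ⟨⟨[(nat_lit 40), (nat_lit 60), (nat_lit 80)], [(nat_lit 0), (nat_lit 398), (nat_lit 992)], [((nat_lit 0), (nat_lit 0), (nat_lit 0)), ((nat_lit 1000), (nat_lit 814), (nat_lit 310)), ((nat_lit 1000), (nat_lit 752), (nat_lit 464))], ((nat_lit 73), (nat_lit 100), (nat_lit 55))⟩, (nat_lit 0), (nat_lit 58), (nat_lit 58), (nat_lit 0), (nat_lit 0), [(nat_lit 1570619603), (nat_lit 1681606403), (nat_lit 2105869797)], [(nat_lit 0), (nat_lit 0), (nat_lit 0)], [(nat_lit 20841037876), (nat_lit 21490460172), (nat_lit 22316924751), (nat_lit 22896054708), (nat_lit 24366771036), (nat_lit 25001055113), (nat_lit 25460496210), (nat_lit 25971428682)], (nat_lit 0), (nat_lit 0), (nat_lit 0), (nat_lit 0), (nat_lit 0), (nat_lit 0), [], [(nat_lit 2), (nat_lit 44), (nat_lit 260), (nat_lit 50), (nat_lit 10)]⟩,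
 ⟨⟨[(nat_lit 80), (nat_lit 120), (nat_lit 140)], [(nat_lit 0), (nat_lit 0), (nat_lit 1164)], [((nat_lit 0), (nat_lit 0), (nat_lit 0)), ((nat_lit 0), (nat_lit 0), (nat_lit 0)), ((nat_lit 941), (nat_lit 1000), (nat_lit 576))], ((nat_lit 100), (nat_lit 95), (nat_lit 55))⟩, (nat_lit 214787), (nat_lit 536), (nat_lit 536), (nat_lit 0), (nat_lit 699229), [(nat_lit 239088000), (nat_lit 406368000), (nat_lit 501942000)], [], [(nat_lit 1983292640), (nat_lit 1310667493), (nat_lit 1676993552), (nat_lit 1347445645), (nat_lit 2987254722), (nat_lit 2412031415), (nat_lit 3725830991), (nat_lit 3164368563)], (nat_lit 1271251), (nat_lit 1271251), (nat_lit 780000), (nat_lit 1435001), (nat_lit 0), (nat_lit 2754376), [(nat_lit 1100000), (nat_lit 1785001), (nat_lit 1271251)], [(nat_lit 17), (nat_lit 58), (nat_lit 456), (nat_lit 225), (nat_lit 13)]⟩,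
 ⟨⟨[(nat_lit 140), (nat_lit 160), (nat_lit 180)], [(nat_lit 0), (nat_lit 304), (nat_lit 1085)], [((nat_lit 0), (nat_lit 0), (nat_lit 0)), ((nat_lit 913), (nat_lit 1000), (nat_lit 217)), ((nat_lit 759), (nat_lit 1000), (nat_lit 463))], ((nat_lit 100), (nat_lit 67), (nat_lit 57))⟩, (nat_lit 63632), (nat_lit 300), (nat_lit 1395), (nat_lit 2179300), (nat_lit 2250304), [(nat_lit 305102000), (nat_lit 368032000), (nat_lit 435798000)], [], [(nat_lit 1851984384), (nat_lit 1827464208), (nat_lit 1816255920), (nat_lit 1791558912), (nat_lit 1878696121), (nat_lit 1972422488), (nat_lit 1436366325), (nat_lit 1414429934)], (nat_lit 936250), (nat_lit 1100000), (nat_lit 1271251), (nat_lit 1271251), (nat_lit 0), (nat_lit 2754376), [(nat_lit 1977501), (nat_lit 1271251), (nat_lit 1271251)], [(nat_lit 31), (nat_lit 65), (nat_lit 458), (nat_lit 225), (nat_lit 11)]⟩⟩) (.trX (nat_lit 4) (nat_lit 0) (nat_lit 2) (nat_lit 68) (nat_lit 89) (nat_lit 100) (nat_lit 300) (.leaf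 ⟨(nat_lit 958), (nat_lit 17), (nat_lit 0), (nat_lit 25), (nat_lit 0), (nat_lit 3404), (nat_lit 540), (nat_lit 268), (nat_lit 0), (nat_lit 0), (nat_lit 239500), [((nat_lit 360), [((nat_lit 21), (nat_lit 0), (nat_lit 958))])], ⟨(nat_lit 6), false, false, false, (nat_lit 202), (nat_lit 3162), (nat_lit 3536), [(nat_lit 1418344), (nat_lit 1422365), (nat_lit 1462233), (nat_lit 1466658), (nat_lit 1543888), (nat_lit 1544293), (nat_lit 1587777), (nat_lit 1588586)]⟩, ⟨(nat_lit 6), false, false, true, (nat_lit 221), (nat_lit 3162), (nat_lit 3536), [(nat_lit 1496902), (nat_lit 1494487), (nat_lit 1518855), (nat_lit 1516642), (nat_lit 1591044), (nat_lit 1585917), (nat_lit 1612997), (nat_lit 1608072)]⟩, (nat_lit 5068028), (nat_lit 40783044), (nat_lit 12142506), (nat_lit 14074450), (nat_lit 6), (nat_lit 0), [], [⟨(nat_lit 1), (nat_lit 89), (nat_lit 68), (nat_lit 100), (nat_lit 212089431)⟩], [], [],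
 ⟨⟨[(nat_lit 40), (nat_lit 60), (nat_lit 80)], [(nat_lit 0), (nat_lit 600), (nat_lit 1195)], [((nat_lit 0), (nat_lit 0), (nat_lit 0)), ((nat_lit 1000), (nat_lit 725), (nat_lit 454)), ((nat_lit 1000), (nat_lit 720), (nat_lit 465))], ((nat_lit 69), (nat_lit 100), (nat_lit 56))⟩, (nat_lit 0), (nat_lit 57), (nat_lit 57), (nat_lit 0), (nat_lit 0), [(nat_lit 1568463209), (nat_lit 1666428809), (nat_lit 2081751591)], [(nat_lit 0), (nat_lit 0), (nat_lit 0)], [(nat_lit 21460332845), (nat_lit 22110761726), (nat_lit 22864542110), (nat_lit 23444519842), (nat_lit 24037945566), (nat_lit 24705928286), (nat_lit 25158779183), (nat_lit 25707242733)], (nat_lit 0), (nat_lit 0), (nat_lit 0), (nat_lit 0), (nat_lit 0), (nat_lit 0), [], [(nat_lit 2), (nat_lit 44), (nat_lit 260), (nat_lit 50), (nat_lit 10)]⟩,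
 ⟨⟨[(nat_lit 80), (nat_lit 120), (nat_lit 140)], [(nat_lit 0), (nat_lit 0), (nat_lit 1164)], [((nat_lit 0), (nat_lit 0), (nat_lit 0)), ((nat_lit 0), (nat_lit 0), (nat_lit 0)), ((nat_lit 941), (nat_lit 1000), (nat_lit 576))], ((nat_lit 100), (nat_lit 95), (nat_lit 55))⟩, (nat_lit 0), (nat_lit 615), (nat_lit 615), (nat_lit 0), (nat_lit 839765), [(nat_lit 196896000), (nat_lit 334656000), (nat_lit 413364000)], [], [(nat_lit 1627718880), (nat_lit 1284962514), (nat_lit 1389387984), (nat_lit 1313919846), (nat_lit 2452939524), (nat_lit 1989326709), (nat_lit 3050556222), (nat_lit 2598034265)], (nat_lit 1271251), (nat_lit 1271251), (nat_lit 780000), (nat_lit 1435001), (nat_lit 0), (nat_lit 2754376), [(nat_lit 1100000), (nat_lit 1785001), (nat_lit 1271251)], [(nat_lit 17), (nat_lit 58), (nat_lit 456), (nat_lit 225), (nat_lit 13)]⟩,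
 ⟨⟨[(nat_lit 140), (nat_lit 160), (nat_lit 180)], [(nat_lit 0), (nat_lit 304), (nat_lit 1085)], [((nat_lit 0), (nat_lit 0), (nat_lit 0)), ((nat_lit 913), (nat_lit 1000), (nat_lit 217)), ((nat_lit 759), (nat_lit 1000), (nat_lit 463))], ((nat_lit 100), (nat_lit 67), (nat_lit 57))⟩, (nat_lit 51316), (nat_lit 300), (nat_lit 1566), (nat_lit 1757500), (nat_lit 2614726), [(nat_lit 246050000), (nat_lit 296800000), (nat_lit 351450000)], [], [(nat_lit 1481336400), (nat_lit 1461300652), (nat_lit 1459482752), (nat_lit 1439527803), (nat_lit 1516886751), (nat_lit 1593070038), (nat_lit 1173896331), (nat_lit 1252168812)], (nat_lit 936250), (nat_lit 1100000), (nat_lit 1271251), (nat_lit 1271251), (nat_lit 0), (nat_lit 2754376), [(nat_lit 1977501), (nat_lit 1271251), (nat_lit 1271251)], [(nat_lit 31), (nat_lit 65), (nat_lit 498), (nat_lit 225), (nat_lit 12)]⟩⟩))) (.trX (nat_lit 5) (nat_lit 1) (nat_lit 2) (nat_lit 94) (nat_lit 59) (nat_lit 100) (nat_lit 370) (.spl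 (nat_lit 5) (nat_lit 200) (.leaf ⟨(nat_lit 741), (nat_lit 198), (nat_lit 0), (nat_lit 61), (nat_lit 0), (nat_lit 3153), (nat_lit 2515), (nat_lit 698), (nat_lit 0), (nat_lit 0), (nat_lit 403300), [((nat_lit 360), [((nat_lit 21), (nat_lit 0), (nat_lit 118)), ((nat_lit 39), (nat_lit 2), (nat_lit 623))])], ⟨(nat_lit 7), false, false, false, (nat_lit 219), (nat_lit 3162), (nat_lit 3873), [(nat_lit 1457950), (nat_lit 1466533), (nat_lit 1501479), (nat_lit 1510785), (nat_lit 1587058), (nat_lit 1588504), (nat_lit 1630587), (nat_lit 1632757)]⟩, ⟨(nat_lit 6), false, false, true, (nat_lit 228), (nat_lit 3162), (nat_lit 3873), [(nat_lit 1499140), (nat_lit 1494487), (nat_lit 1520934), (nat_lit 1516642), (nat_lit 1628183), (nat_lit 1616394), (nat_lit 1649977), (nat_lit 1638549)]⟩, (nat_lit 5221063), (nat_lit 39156797), (nat_lit 13450136), (nat_lit 14393067), (nat_lit 6), (nat_lit 0), [⟨(nat_lit 0), (nat_lit 88), (nat_lit 67), (nat_lit 100), (nat_lit 154854752)⟩],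 [⟨(nat_lit 1), (nat_lit 92), (nat_lit 68), (nat_lit 100), (nat_lit 284776174)⟩], [], [],
 ⟨⟨[(nat_lit 40), (nat_lit 60), (nat_lit 80)], [(nat_lit 0), (nat_lit 398), (nat_lit 992)], [((nat_lit 0), (nat_lit 0), (nat_lit 0)), ((nat_lit 1000), (nat_lit 814), (nat_lit 310)), ((nat_lit 1000), (nat_lit 752), (nat_lit 464))], ((nat_lit 73), (nat_lit 100), (nat_lit 55))⟩, (nat_lit 1119514), (nat_lit 64), (nat_lit 64), (nat_lit 0), (nat_lit 0), [(nat_lit 1467976809), (nat_lit 1776543116), (nat_lit 1975197600)], [(nat_lit 0), (nat_lit 0), (nat_lit 0)], [(nat_lit 20852742973), (nat_lit 22042660822), (nat_lit 22272835305), (nat_lit 23337670842), (nat_lit 24130058412), (nat_lit 25358524653), (nat_lit 25304441884), (nat_lit 26324138097)], (nat_lit 0), (nat_lit 0), (nat_lit 0), (nat_lit 0), (nat_lit 0), (nat_lit 0), [], [(nat_lit 2), (nat_lit 44), (nat_lit 260), (nat_lit 50), (nat_lit 10)]⟩,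
 ⟨⟨[(nat_lit 60), (nat_lit 100), (nat_lit 120)], [(nat_lit 0), (nat_lit 0), (nat_lit 1164)], [((nat_lit 0), (nat_lit 0), (nat_lit 0)), ((nat_lit 0), (nat_lit 0), (nat_lit 0)), ((nat_lit 1000), (nat_lit 933), (nat_lit 572))], ((nat_lit 93), (nat_lit 100), (nat_lit 55))⟩, (nat_lit 597481), (nat_lit 526), (nat_lit 526), (nat_lit 0), (nat_lit 815474), [(nat_lit 850038000), (nat_lit 1618750000), (nat_lit 2063712000)], [], [(nat_lit 7009892525), (nat_lit 6862153378), (nat_lit 6362244842), (nat_lit 7178450906), (nat_lit 6346886957), (nat_lit 5513468287), (nat_lit 9027086073), (nat_lit 6763285530)], (nat_lit 1271251), (nat_lit 1271251), (nat_lit 780000), (nat_lit 1435001), (nat_lit 0), (nat_lit 1412501), [(nat_lit 780000), (nat_lit 1435001), (nat_lit 1271251)], [(nat_lit 10), (nat_lit 54), (nat_lit 317), (nat_lit 100), (nat_lit 10)]⟩,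
 ⟨⟨[(nat_lit 140), (nat_lit 160), (nat_lit 180)], [(nat_lit 0), (nat_lit 304), (nat_lit 1085)], [((nat_lit 0), (nat_lit 0), (nat_lit 0)), ((nat_lit 913), (nat_lit 1000), (nat_lit 217)), ((nat_lit 759), (nat_lit 1000), (nat_lit 463))], ((nat_lit 100), (nat_lit 67), (nat_lit 57))⟩, (nat_lit 125211), (nat_lit 300), (nat_lit 1909), (nat_lit 4288300), (nat_lit 3319175), [(nat_lit 600362000), (nat_lit 724192000), (nat_lit 857538000)], [], [(nat_lit 3453450514), (nat_lit 3402137144), (nat_lit 3422661682), (nat_lit 3371908344), (nat_lit 2771916888), (nat_lit 2787403352), (nat_lit 2719308286), (nat_lit 2667704646)], (nat_lit 936250), (nat_lit 1100000), (nat_lit 1271251), (nat_lit 1271251), (nat_lit 0), (nat_lit 1412501), [(nat_lit 1977501), (nat_lit 1271251), (nat_lit 1271251)], [(nat_lit 31), (nat_lit 65), (nat_lit 563), (nat_lit 175), (nat_lit 13)]⟩⟩) (.leaf ⟨(nat_lit 611), (nat_lit 304), (nat_lit 0), (nat_lit 85), (nat_lit 0), (nat_lit 3298), (nat_lit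 3010), (nat_lit 894), (nat_lit 0), (nat_lit 0), (nat_lit 292750), [((nat_lit 360), [((nat_lit 21), (nat_lit 0), (nat_lit 211)), ((nat_lit 39), (nat_lit 2), (nat_lit 400))])], ⟨(nat_lit 7), false, false, false, (nat_lit 219), (nat_lit 3162), (nat_lit 3873), [(nat_lit 1457950), (nat_lit 1466533), (nat_lit 1501479), (nat_lit 1510785), (nat_lit 1587058), (nat_lit 1588504), (nat_lit 1630587), (nat_lit 1632757)]⟩, ⟨(nat_lit 6), false, false, true, (nat_lit 228), (nat_lit 3162), (nat_lit 3873), [(nat_lit 1499140), (nat_lit 1494487), (nat_lit 1520934), (nat_lit 1516642), (nat_lit 1628183), (nat_lit 1616394), (nat_lit 1649977), (nat_lit 1638549)]⟩, (nat_lit 5221063), (nat_lit 39156797), (nat_lit 13450136), (nat_lit 14393067), (nat_lit 6), (nat_lit 0), [⟨(nat_lit 0), (nat_lit 88), (nat_lit 67), (nat_lit 100), (nat_lit 303641071)⟩], [⟨(nat_lit 1), (nat_lit 92), (nat_lit 68), (nat_lit 100), (nat_lit 319415157)⟩], [⟨(nat_lit 1), (nat_lit 72), (nat_lit 89), (nat_lit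 100), (nat_lit 92734679)⟩], [],
 ⟨⟨[(nat_lit 40), (nat_lit 60), (nat_lit 80)], [(nat_lit 0), (nat_lit 398), (nat_lit 992)], [((nat_lit 0), (nat_lit 0), (nat_lit 0)), ((nat_lit 1000), (nat_lit 814), (nat_lit 310)), ((nat_lit 1000), (nat_lit 752), (nat_lit 464))], ((nat_lit 73), (nat_lit 100), (nat_lit 55))⟩, (nat_lit 1819816), (nat_lit 64), (nat_lit 64), (nat_lit 0), (nat_lit 0), [(nat_lit 1551384805), (nat_lit 2070969610), (nat_lit 2585882190)], [(nat_lit 0), (nat_lit 0), (nat_lit 0)], [(nat_lit 20657672922), (nat_lit 21893236416), (nat_lit 22092539717), (nat_lit 23288399986), (nat_lit 24272766759), (nat_lit 25526072298), (nat_lit 25343487066), (nat_lit 26454239202)], (nat_lit 0), (nat_lit 0), (nat_lit 0), (nat_lit 0), (nat_lit 0), (nat_lit 0), [], [(nat_lit 2), (nat_lit 44), (nat_lit 260), (nat_lit 50), (nat_lit 10)]⟩,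
 ⟨⟨[(nat_lit 60), (nat_lit 100), (nat_lit 120)], [(nat_lit 0), (nat_lit 0), (nat_lit 1164)], [((nat_lit 0), (nat_lit 0), (nat_lit 0)), ((nat_lit 0), (nat_lit 0), (nat_lit 0)), ((nat_lit 1000), (nat_lit 933), (nat_lit 572))], ((nat_lit 93), (nat_lit 100), (nat_lit 55))⟩, (nat_lit 827957), (nat_lit 416), (nat_lit 416), (nat_lit 0), (nat_lit 815474), [(nat_lit 1276698000), (nat_lit 2431250000), (nat_lit 3099552000)], [], [(nat_lit 9434734938), (nat_lit 10144259672), (nat_lit 9582683123), (nat_lit 10188938393), (nat_lit 11963321878), (nat_lit 12419410006), (nat_lit 11799504743), (nat_lit 12183711667)], (nat_lit 1271251), (nat_lit 1271251), (nat_lit 780000), (nat_lit 1435001), (nat_lit 1271251), (nat_lit 1271251), [(nat_lit 780000), (nat_lit 1435001), (nat_lit 1271251)], [(nat_lit 10), (nat_lit 54), (nat_lit 373), (nat_lit 150), (nat_lit 11)]⟩,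
 ⟨⟨[(nat_lit 140), (nat_lit 160), (nat_lit 180)], [(nat_lit 0), (nat_lit 304), (nat_lit 1085)], [((nat_lit 0), (nat_lit 0), (nat_lit 0)), ((nat_lit 913), (nat_lit 1000), (nat_lit 217)), ((nat_lit 759), (nat_lit 1000), (nat_lit 463))], ((nat_lit 100), (nat_lit 67), (nat_lit 57))⟩, (nat_lit 174474), (nat_lit 300), (nat_lit 1797), (nat_lit 5975500), (nat_lit 3319175), [(nat_lit 836570000), (nat_lit 1009120000), (nat_lit 1194930000)], [], [(nat_lit 4316708252), (nat_lit 4255631892), (nat_lit 4170959883), (nat_lit 4105079874), (nat_lit 4048842539), (nat_lit 3981890805), (nat_lit 3949458432), (nat_lit 3880708228)], (nat_lit 936250), (nat_lit 1100000), (nat_lit 1271251), (nat_lit 1271251), (nat_lit 1271251), (nat_lit 1271251), [(nat_lit 1977501), (nat_lit 1271251), (nat_lit 1271251)], [(nat_lit 31), (nat_lit 65), (nat_lit 556), (nat_lit 225), (nat_lit 12)]⟩⟩))))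
noncomputable def c8_43 : Tr Lf :=
 (.spl (nat_lit 1) (nat_lit 280) (.spl (nat_lit 2) (nat_lit 140) (.trX (nat_lit 4) (nat_lit 0) (nat_lit 2) (nat_lit 75) (nat_lit 92) (nat_lit 100) (nat_lit 300) (.trX (nat_lit 5) (nat_lit 1) (nat_lit 2) (nat_lit 100) (nat_lit 49) (nat_lit 97) (nat_lit 380) (.leaf ⟨(nat_lit 913), (nat_lit 87), (nat_lit 0), (nat_lit 0), (nat_lit 0), (nat_lit 3398), (nat_lit 781), (nat_lit 0), (nat_lit 0), (nat_lit 0), (nat_lit 228250), [((nat_lit 360), [((nat_lit 21), (nat_lit 0), (nat_lit 913))])], ⟨(nat_lit 6), false, true, false, (nat_lit 251), (nat_lit 3162), (nat_lit 3873), [(nat_lit 1543529), (nat_lit 1544252), (nat_lit 1587058), (nat_lit 1588504), (nat_lit 1672628), (nat_lit 1666215), (nat_lit 1716165), (nat_lit 1710475)]⟩, ⟨(nat_lit 6), false, false, true, (nat_lit 213), (nat_lit 3162), (nat_lit 3873), [(nat_lit 1477347), (nat_lit 1472332), (nat_lit 1499140), (nat_lit 1494487), (nat_lit 1574129), (nat_lit 1563762), (nat_lit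 1595923), (nat_lit 1585917)]⟩, (nat_lit 5302173), (nat_lit 37924312), (nat_lit 16461094), (nat_lit 12614594), (nat_lit 6), (nat_lit 0), [], [⟨(nat_lit 1), (nat_lit 92), (nat_lit 75), (nat_lit 100), (nat_lit 238306479)⟩], [⟨(nat_lit 1), (nat_lit 64), (nat_lit 100), (nat_lit 98), (nat_lit 10988015)⟩], [],
 ⟨⟨[(nat_lit 40), (nat_lit 60), (nat_lit 80)], [(nat_lit 0), (nat_lit 398), (nat_lit 992)], [((nat_lit 0), (nat_lit 0), (nat_lit 0)), ((nat_lit 1000), (nat_lit 814), (nat_lit 310)), ((nat_lit 1000), (nat_lit 752), (nat_lit 464))], ((nat_lit 73), (nat_lit 100), (nat_lit 55))⟩, (nat_lit 4589), (nat_lit 48), (nat_lit 48), (nat_lit 0), (nat_lit 0), [(nat_lit 1579245202), (nat_lit 1742316802), (nat_lit 2202342598)], [(nat_lit 0), (nat_lit 0), (nat_lit 0)], [(nat_lit 22377604152), (nat_lit 23536634770), (nat_lit 24884689807), (nat_lit 25887925472), (nat_lit 24736334483), (nat_lit 25764020329), (nat_lit 26905299861), (nat_lit 27932885640)], (nat_lit 0),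 (nat_lit 0), (nat_lit 0), (nat_lit 0), (nat_lit 0), (nat_lit 0), [], [(nat_lit 2), (nat_lit 44), (nat_lit 203), (nat_lit 0), (nat_lit 7)]⟩,
 ⟨⟨[(nat_lit 80), (nat_lit 120), (nat_lit 140)], [(nat_lit 0), (nat_lit 0), (nat_lit 1164)], [((nat_lit 0), (nat_lit 0), (nat_lit 0)), ((nat_lit 0), (nat_lit 0), (nat_lit 0)), ((nat_lit 941), (nat_lit 1000), (nat_lit 576))], ((nat_lit 100), (nat_lit 95), (nat_lit 55))⟩, (nat_lit 159572), (nat_lit 629), (nat_lit 629), (nat_lit 0), (nat_lit 940084), [(nat_lit 407856000), (nat_lit 693216000), (nat_lit 856254000)], [], [(nat_lit 3148297798), (nat_lit 3238457771), (nat_lit 3250379696), (nat_lit 3318545621), (nat_lit 3659741910), (nat_lit 2970126915), (nat_lit 2913209876), (nat_lit 2927717284)], (nat_lit 1271251), (nat_lit 1271251), (nat_lit 1271251), (nat_lit 1271251), (nat_lit 0), (nat_lit 2683751), [(nat_lit 1100000), (nat_lit 1785001), (nat_lit 1271251)], [(nat_lit 17), (nat_lit 58), (nat_lit 483), (nat_lit 250),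 (nat_lit 14)]⟩,
 Rw.none⟩))) (.leaf ⟨(nat_lit 881), (nat_lit 78), (nat_lit 0), (nat_lit 41), (nat_lit 0), (nat_lit 3087), (nat_lit 1248), (nat_lit 436), (nat_lit 0), (nat_lit 0), (nat_lit 412600), [((nat_lit 360), [((nat_lit 21), (nat_lit 1), (nat_lit 580)), ((nat_lit 39), (nat_lit 2), (nat_lit 301))])], ⟨(nat_lit 6), false, true, false, (nat_lit 251), (nat_lit 3162), (nat_lit 3873), [(nat_lit 1543529), (nat_lit 1544252), (nat_lit 1587058), (nat_lit 1588504), (nat_lit 1672628), (nat_lit 1666215), (nat_lit 1716165), (nat_lit 1710475)]⟩, ⟨(nat_lit 6), false, false, true, (nat_lit 228), (nat_lit 3162), (nat_lit 3873), [(nat_lit 1499140), (nat_lit 1494487), (nat_lit 1520934), (nat_lit 1516642), (nat_lit 1628183), (nat_lit 1616394), (nat_lit 1649977), (nat_lit 1638549)]⟩, (nat_lit 5388941), (nat_lit 37011862), (nat_lit 16166085), (nat_lit 13822053), (nat_lit 6), (nat_lit 0), [], [⟨(nat_lit 1), (nat_lit 92), (nat_lit 68), (nat_lit 100), (nat_lit 212712208)⟩],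 [], [],
 ⟨⟨[(nat_lit 40), (nat_lit 60), (nat_lit 80)], [(nat_lit 0), (nat_lit 398), (nat_lit 992)], [((nat_lit 0), (nat_lit 0), (nat_lit 0)), ((nat_lit 1000), (nat_lit 814), (nat_lit 310)), ((nat_lit 1000), (nat_lit 752), (nat_lit 464))], ((nat_lit 73), (nat_lit 100), (nat_lit 55))⟩, (nat_lit 0), (nat_lit 51), (nat_lit 51), (nat_lit 0), (nat_lit 0), [(nat_lit 1403208833), (nat_lit 1545974028), (nat_lit 1706247772)], [(nat_lit 0), (nat_lit 0), (nat_lit 0)], [(nat_lit 22431888316), (nat_lit 23542981083), (nat_lit 24896857574), (nat_lit 25862254646), (nat_lit 25489638097), (nat_lit 26437070761), (nat_lit 27531213482), (nat_lit 28360910116)], (nat_lit 0), (nat_lit 0), (nat_lit 0), (nat_lit 0), (nat_lit 0), (nat_lit 0), [], [(nat_lit 2), (nat_lit 44), (nat_lit 203), (nat_lit 0), (nat_lit 7)]⟩,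
 ⟨⟨[(nat_lit 80), (nat_lit 120), (nat_lit 140)], [(nat_lit 0), (nat_lit 0), (nat_lit 1164)], [((nat_lit 0), (nat_lit 0), (nat_lit 0)), ((nat_lit 0), (nat_lit 0), (nat_lit 0)), ((nat_lit 941), (nat_lit 1000), (nat_lit 576))], ((nat_lit 100), (nat_lit 95), (nat_lit 55))⟩, (nat_lit 268429), (nat_lit 587), (nat_lit 587), (nat_lit 0), (nat_lit 840784), [(nat_lit 557872000), (nat_lit 948192000), (nat_lit 1171198000)], [], [(nat_lit 4087775000), (nat_lit 3819622105), (nat_lit 3823524112), (nat_lit 3933280663), (nat_lit 5088917508), (nat_lit 4022759710), (nat_lit 4077813814), (nat_lit 4292775036)], (nat_lit 1271251), (nat_lit 1271251), (nat_lit 1271251), (nat_lit 1271251), (nat_lit 0), (nat_lit 2754376), [(nat_lit 1100000), (nat_lit 1785001), (nat_lit 1271251)], [(nat_lit 17), (nat_lit 58), (nat_lit 483), (nat_lit 250), (nat_lit 14)]⟩,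
 ⟨⟨[(nat_lit 140), (nat_lit 160), (nat_lit 180)], [(nat_lit 0), (nat_lit 304), (nat_lit 1085)], [((nat_lit 0), (nat_lit 0), (nat_lit 0)), ((nat_lit 913), (nat_lit 1000), (nat_lit 217)), ((nat_lit 759), (nat_lit 1000), (nat_lit 463))], ((nat_lit 100), (nat_lit 67), (nat_lit 57))⟩, (nat_lit 84158), (nat_lit 300), (nat_lit 1566), (nat_lit 2882300), (nat_lit 2614726), [(nat_lit 403522000), (nat_lit 486752000), (nat_lit 576378000)], [], [(nat_lit 2445430224), (nat_lit 2412915276), (nat_lit 2399411760), (nat_lit 2366660652), (nat_lit 2485315673), (nat_lit 2609470722), (nat_lit 1896966021), (nat_lit 1870003386)], (nat_lit 936250), (nat_lit 1100000), (nat_lit 1271251), (nat_lit 1271251), (nat_lit 0), (nat_lit 2754376), [(nat_lit 1977501), (nat_lit 1271251), (nat_lit 1271251)], [(nat_lit 31), (nat_lit 65), (nat_lit 501), (nat_lit 225), (nat_lit 12)]⟩⟩)) (.trX (nat_lit 5) (nat_lit 1) (nat_lit 2) (nat_lit 94) (nat_lit 59) (nat_lit 100) (nat_lit 370) (.spl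 (nat_lit 2) (nat_lit 140) (.trX (nat_lit 4) (nat_lit 0) (nat_lit 2) (nat_lit 75) (nat_lit 92) (nat_lit 100) (nat_lit 300) (.trX (nat_lit 5) (nat_lit 1) (nat_lit 2) (nat_lit 96) (nat_lit 69) (nat_lit 100) (nat_lit 360) (.spl (nat_lit 1) (nat_lit 300) (.leaf ⟨(nat_lit 886), (nat_lit 114), (nat_lit 0), (nat_lit 0), (nat_lit 0), (nat_lit 3426), (nat_lit 889), (nat_lit 0), (nat_lit 0), (nat_lit 0), (nat_lit 221500), [((nat_lit 360), [((nat_lit 21), (nat_lit 0), (nat_lit 886))])], ⟨(nat_lit 7), false, true, false, (nat_lit 265), (nat_lit 3162), (nat_lit 3873), [(nat_lit 1587058), (nat_lit 1588504), (nat_lit 1608822), (nat_lit 1610630), (nat_lit 1716165), (nat_lit 1710475), (nat_lit 1737930), (nat_lit 1732601)]⟩, ⟨(nat_lit 6), false, false, true, (nat_lit 213), (nat_lit 3162), (nat_lit 3873), [(nat_lit 1477347), (nat_lit 1472332), (nat_lit 1499140), (nat_lit 1494487), (nat_lit 1574129), (nat_lit 1563762), (nat_lit 1595923), (nat_lit 1585917)]⟩, (nat_lit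 5354934), (nat_lit 37023390), (nat_lit 17579769), (nat_lit 12396841), (nat_lit 6), (nat_lit 0), [], [⟨(nat_lit 1), (nat_lit 92), (nat_lit 75), (nat_lit 100), (nat_lit 248826039)⟩], [⟨(nat_lit 1), (nat_lit 78), (nat_lit 95), (nat_lit 100), (nat_lit 17946299)⟩], [],
 ⟨⟨[(nat_lit 40), (nat_lit 60), (nat_lit 80)], [(nat_lit 0), (nat_lit 398), (nat_lit 992)], [((nat_lit 0), (nat_lit 0), (nat_lit 0)), ((nat_lit 1000), (nat_lit 814), (nat_lit 310)), ((nat_lit 1000), (nat_lit 752), (nat_lit 464))], ((nat_lit 73), (nat_lit 100), (nat_lit 55))⟩, (nat_lit 4562), (nat_lit 48), (nat_lit 48), (nat_lit 0), (nat_lit 0), [(nat_lit 1585714481), (nat_lit 1787849681), (nat_lit 2274697119)], [(nat_lit 0), (nat_lit 0), (nat_lit 0)], [(nat_lit 22391368076), (nat_lit 23554714642), (nat_lit 24902245561), (nat_lit 25908887916), (nat_lit 24755988130), (nat_lit 25787215675), (nat_lit 26926398414), (nat_lit 27957397680)], (nat_lit 0), (nat_lit 0), (nat_lit 0), (nat_lit 0),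 (nat_lit 0), (nat_lit 0), [], [(nat_lit 2), (nat_lit 44), (nat_lit 203), (nat_lit 0), (nat_lit 7)]⟩,
 ⟨⟨[(nat_lit 60), (nat_lit 100), (nat_lit 120)], [(nat_lit 0), (nat_lit 0), (nat_lit 1164)], [((nat_lit 0), (nat_lit 0), (nat_lit 0)), ((nat_lit 0), (nat_lit 0), (nat_lit 0)), ((nat_lit 1000), (nat_lit 933), (nat_lit 572))], ((nat_lit 93), (nat_lit 100), (nat_lit 55))⟩, (nat_lit 169584), (nat_lit 526), (nat_lit 526), (nat_lit 0), (nat_lit 877783), [(nat_lit 374148000), (nat_lit 712500000), (nat_lit 908352000)], [], [(nat_lit 3564386461), (nat_lit 3653778607), (nat_lit 3779384842), (nat_lit 3851167432), (nat_lit 3777586410), (nat_lit 3580941176), (nat_lit 3597613919), (nat_lit 3625235637)], (nat_lit 1271251), (nat_lit 1271251), (nat_lit 1271251), (nat_lit 1271251), (nat_lit 0), (nat_lit 2542501), [(nat_lit 780000), (nat_lit 1435001), (nat_lit 1271251)], [(nat_lit 10), (nat_lit 54), (nat_lit 401), (nat_lit 175), (nat_lit 13)]⟩,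
 Rw.none⟩) (.trX (nat_lit 5) (nat_lit 1) (nat_lit 2) (nat_lit 91) (nat_lit 77) (nat_lit 100) (nat_lit 340) (.leaf ⟨(nat_lit 549), (nat_lit 451), (nat_lit 0), (nat_lit 0), (nat_lit 0), (nat_lit 3963), (nat_lit 2679), (nat_lit 0), (nat_lit 0), (nat_lit 0), (nat_lit 140400), [((nat_lit 360), [((nat_lit 21), (nat_lit 0), (nat_lit 528)), ((nat_lit 21), (nat_lit 1), (nat_lit 21))])], ⟨(nat_lit 7), false, true, false, (nat_lit 273), (nat_lit 3162), (nat_lit 3873), [(nat_lit 1608822), (nat_lit 1610630), (nat_lit 1630587), (nat_lit 1632757), (nat_lit 1737930), (nat_lit 1732601), (nat_lit 1759694), (nat_lit 1754728)]⟩, ⟨(nat_lit 6), false, false, true, (nat_lit 213), (nat_lit 3162), (nat_lit 3873), [(nat_lit 1477347), (nat_lit 1472332), (nat_lit 1499140), (nat_lit 1494487), (nat_lit 1574129), (nat_lit 1563762), (nat_lit 1595923), (nat_lit 1585917)]⟩, (nat_lit 5385109), (nat_lit 36427322), (nat_lit 18323510), (nat_lit 12249168), (nat_lit 6), (nat_lit 0), [],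 [⟨(nat_lit 1), (nat_lit 100), (nat_lit 71), (nat_lit 100), (nat_lit 433826635)⟩], [⟨(nat_lit 1), (nat_lit 86), (nat_lit 89), (nat_lit 100), (nat_lit 100152101)⟩], [],
 ⟨⟨[(nat_lit 40), (nat_lit 60), (nat_lit 80)], [(nat_lit 0), (nat_lit 398), (nat_lit 992)], [((nat_lit 0), (nat_lit 0), (nat_lit 0)), ((nat_lit 1000), (nat_lit 814), (nat_lit 310)), ((nat_lit 1000), (nat_lit 752), (nat_lit 464))], ((nat_lit 73), (nat_lit 100), (nat_lit 55))⟩, (nat_lit 0), (nat_lit 48), (nat_lit 48), (nat_lit 0), (nat_lit 0), [(nat_lit 1669637817), (nat_lit 2352025210), (nat_lit 3182232800)], [(nat_lit 0), (nat_lit 0), (nat_lit 0)], [(nat_lit 22319875410), (nat_lit 23642571236), (nat_lit 25011750089), (nat_lit 26194628508), (nat_lit 24922804305), (nat_lit 26166591620), (nat_lit 27331038520), (nat_lit 28427503590)], (nat_lit 0), (nat_lit 0), (nat_lit 0), (nat_lit 0), (nat_lit 0), (nat_lit 0), [], [(nat_lit 2), (nat_lit 44), (nat_lit 203), (nat_lit 0), (nat_lit 7)]⟩,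
 ⟨⟨[(nat_lit 60), (nat_lit 100), (nat_lit 120)], [(nat_lit 0), (nat_lit 609), (nat_lit 1609)], [((nat_lit 0), (nat_lit 0), (nat_lit 0)), ((nat_lit 1000), (nat_lit 905), (nat_lit 238)), ((nat_lit 1000), (nat_lit 882), (nat_lit 668))], ((nat_lit 87), (nat_lit 100), (nat_lit 54))⟩, (nat_lit 2388957), (nat_lit 527), (nat_lit 527), (nat_lit 0), (nat_lit 879029), [(nat_lit 1480182000), (nat_lit 2818750000), (nat_lit 3593568000)], [], [(nat_lit 11149781240), (nat_lit 11510797184), (nat_lit 12078502354), (nat_lit 12379002650), (nat_lit 12066475523), (nat_lit 12322163735), (nat_lit 12998202138), (nat_lit 13409979742)], (nat_lit 1271251), (nat_lit 1271251), (nat_lit 1271251), (nat_lit 1271251), (nat_lit 0), (nat_lit 2401251), [(nat_lit 780000), (nat_lit 1435001), (nat_lit 1271251)], [(nat_lit 10), (nat_lit 54), (nat_lit 401), (nat_lit 175), (nat_lit 13)]⟩,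
 Rw.none⟩))))) (.leaf ⟨(nat_lit 702), (nat_lit 239), (nat_lit 0), (nat_lit 59), (nat_lit 0), (nat_lit 3295), (nat_lit 2336), (nat_lit 607), (nat_lit 0), (nat_lit 0), (nat_lit 490500), [((nat_lit 360), [((nat_lit 21), (nat_lit 0), (nat_lit 282)), ((nat_lit 21), (nat_lit 2), (nat_lit 420))])], ⟨(nat_lit 7), false, true, false, (nat_lit 269), (nat_lit 3162), (nat_lit 3873), [(nat_lit 1587058), (nat_lit 1588504), (nat_lit 1630587), (nat_lit 1632757), (nat_lit 1716165), (nat_lit 1710475), (nat_lit 1759694), (nat_lit 1754728)]⟩, ⟨(nat_lit 6), false, false, true, (nat_lit 228), (nat_lit 3162), (nat_lit 3873), [(nat_lit 1499140), (nat_lit 1494487), (nat_lit 1520934), (nat_lit 1516642), (nat_lit 1628183), (nat_lit 1616394), (nat_lit 1649977), (nat_lit 1638549)]⟩, (nat_lit 5455917), (nat_lit 35870913), (nat_lit 17627794), (nat_lit 13501293), (nat_lit 6), (nat_lit 0), [], [⟨(nat_lit 1), (nat_lit 92), (nat_lit 68), (nat_lit 100), (nat_lit 248655438)⟩], [],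 [],
 ⟨⟨[(nat_lit 40), (nat_lit 60), (nat_lit 80)], [(nat_lit 0), (nat_lit 398), (nat_lit 992)], [((nat_lit 0), (nat_lit 0), (nat_lit 0)), ((nat_lit 1000), (nat_lit 814), (nat_lit 310)), ((nat_lit 1000), (nat_lit 752), (nat_lit 464))], ((nat_lit 73), (nat_lit 100), (nat_lit 55))⟩, (nat_lit 408441), (nat_lit 51), (nat_lit 51), (nat_lit 0), (nat_lit 0), [(nat_lit 1498106401), (nat_lit 1691923207), (nat_lit 1814212393)], [(nat_lit 0), (nat_lit 0), (nat_lit 0)], [(nat_lit 22226040265), (nat_lit 23369194360), (nat_lit 24719177403), (nat_lit 25710518220), (nat_lit 25342126350), (nat_lit 26451547455), (nat_lit 27582725250), (nat_lit 28553449060)], (nat_lit 0), (nat_lit 0), (nat_lit 0), (nat_lit 0), (nat_lit 0), (nat_lit 0), [], [(nat_lit 2), (nat_lit 44), (nat_lit 203), (nat_lit 0), (nat_lit 7)]⟩,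
 ⟨⟨[(nat_lit 60), (nat_lit 100), (nat_lit 120)], [(nat_lit 0), (nat_lit 0), (nat_lit 1164)], [((nat_lit 0), (nat_lit 0), (nat_lit 0)), ((nat_lit 0), (nat_lit 0), (nat_lit 0)), ((nat_lit 1000), (nat_lit 933), (nat_lit 572))], ((nat_lit 93), (nat_lit 100), (nat_lit 55))⟩, (nat_lit 489950), (nat_lit 502), (nat_lit 502), (nat_lit 0), (nat_lit 815474), [(nat_lit 978036000), (nat_lit 1862500000), (nat_lit 2374464000)], [], [(nat_lit 9226521174), (nat_lit 9694836608), (nat_lit 9788774190), (nat_lit 10164628792), (nat_lit 10085467372), (nat_lit 9482659083), (nat_lit 9449521567), (nat_lit 9983115495)], (nat_lit 1271251), (nat_lit 1271251), (nat_lit 1271251), (nat_lit 1271251), (nat_lit 0), (nat_lit 2613125), [(nat_lit 780000), (nat_lit 1435001), (nat_lit 1271251)], [(nat_lit 10), (nat_lit 54), (nat_lit 401), (nat_lit 175), (nat_lit 13)]⟩,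
 ⟨⟨[(nat_lit 140), (nat_lit 160), (nat_lit 180)], [(nat_lit 0), (nat_lit 304), (nat_lit 1085)], [((nat_lit 0), (nat_lit 0), (nat_lit 0)), ((nat_lit 913), (nat_lit 1000), (nat_lit 217)), ((nat_lit 759), (nat_lit 1000), (nat_lit 463))], ((nat_lit 100), (nat_lit 67), (nat_lit 57))⟩, (nat_lit 121105), (nat_lit 300), (nat_lit 1909), (nat_lit 4147701), (nat_lit 3319175), [(nat_lit 580678000), (nat_lit 700448000), (nat_lit 829422000)], [], [(nat_lit 3654768340), (nat_lit 3612362052), (nat_lit 3548115372), (nat_lit 3502045900), (nat_lit 3450919294), (nat_lit 3623376078), (nat_lit 2812953393), (nat_lit 2772447803)], (nat_lit 936250), (nat_lit 1100000), (nat_lit 1271251), (nat_lit 1271251), (nat_lit 0), (nat_lit 2613125), [(nat_lit 1977501), (nat_lit 1271251), (nat_lit 1271251)], [(nat_lit 31), (nat_lit 65), (nat_lit 584), (nat_lit 225), (nat_lit 13)]⟩⟩))))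
noncomputable def c8_44 : Tr Lf :=
 (.spl (nat_lit 3) (nat_lit 200) (.spl (nat_lit 5) (nat_lit 120) (.spl (nat_lit 1) (nat_lit 260) (.spl (nat_lit 0) (nat_lit 350) (.leaf ⟨(nat_lit 907), (nat_lit 46), (nat_lit 0), (nat_lit 47), (nat_lit 0), (nat_lit 3302), (nat_lit 1034), (nat_lit 613), (nat_lit 0), (nat_lit 0), (nat_lit 491600), [((nat_lit 350), [((nat_lit 21), (nat_lit 1), (nat_lit 263)), ((nat_lit 39), (nat_lit 2), (nat_lit 644))])], ⟨(nat_lit 6), false, false, false, (nat_lit 196), (nat_lit 3535), (nat_lit 3873), [(nat_lit 1414519), (nat_lit 1418358), (nat_lit 1436306), (nat_lit 1440305), (nat_lit 1543574), (nat_lit 1543892), (nat_lit 1565361), (nat_lit 1565839)]⟩, ⟨(nat_lit 6), false, false, true, (nat_lit 241), (nat_lit 3535), (nat_lit 3873), [(nat_lit 1520934), (nat_lit 1518855), (nat_lit 1542727), (nat_lit 1540807), (nat_lit 1666107), (nat_lit 1660068), (nat_lit 1687900), (nat_lit 1682021)]⟩, (nat_lit 5141220), (nat_lit 39697349), (nat_lit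 11435666), (nat_lit 15866985), (nat_lit 6), (nat_lit 0), [], [⟨(nat_lit 1), (nat_lit 83), (nat_lit 70), (nat_lit 100), (nat_lit 21808557)⟩, ⟨(nat_lit 1), (nat_lit 77), (nat_lit 72), (nat_lit 100), (nat_lit 184846602)⟩], [], [⟨(nat_lit 0), (nat_lit 92), (nat_lit 100), (nat_lit 24), (nat_lit 75808057)⟩],
 ⟨⟨[(nat_lit 40), (nat_lit 60), (nat_lit 80)], [(nat_lit 0), (nat_lit 398), (nat_lit 992)], [((nat_lit 0), (nat_lit 0), (nat_lit 0)), ((nat_lit 1000), (nat_lit 814), (nat_lit 310)), ((nat_lit 1000), (nat_lit 752), (nat_lit 464))], ((nat_lit 73), (nat_lit 100), (nat_lit 55))⟩, (nat_lit 0), (nat_lit 63), (nat_lit 63), (nat_lit 0), (nat_lit 0), [(nat_lit 1373752845), (nat_lit 1517133982), (nat_lit 1373418400)], [(nat_lit 0), (nat_lit 0), (nat_lit 0)], [(nat_lit 21067470146), (nat_lit 21675022663), (nat_lit 22468973834), (nat_lit 23011980847), (nat_lit 24873848694), (nat_lit 25483617074), (nat_lit 25872483085), (nat_lit 26417284989)], (nat_lit 0), (nat_lit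 0), (nat_lit 0), (nat_lit 0), (nat_lit 0), (nat_lit 0), [], [(nat_lit 2), (nat_lit 44), (nat_lit 260), (nat_lit 50), (nat_lit 10)]⟩,
 ⟨⟨[(nat_lit 80), (nat_lit 120), (nat_lit 140)], [(nat_lit 0), (nat_lit 0), (nat_lit 1164)], [((nat_lit 0), (nat_lit 0), (nat_lit 0)), ((nat_lit 0), (nat_lit 0), (nat_lit 0)), ((nat_lit 941), (nat_lit 1000), (nat_lit 576))], ((nat_lit 100), (nat_lit 95), (nat_lit 55))⟩, (nat_lit 0), (nat_lit 501), (nat_lit 501), (nat_lit 0), (nat_lit 619105), [(nat_lit 435984000), (nat_lit 741024000), (nat_lit 915306000)], [], [(nat_lit 3527520640), (nat_lit 2993601462), (nat_lit 3191065216), (nat_lit 2958551947), (nat_lit 2773215090), (nat_lit 2357195845), (nat_lit 3789359284), (nat_lit 3317905175)], (nat_lit 1271251), (nat_lit 1271251), (nat_lit 780000), (nat_lit 1435001), (nat_lit 0), (nat_lit 780000), [(nat_lit 1100000), (nat_lit 1785001), (nat_lit 1271251)], [(nat_lit 17), (nat_lit 58), (nat_lit 373), (nat_lit 150), (nat_lit 11)]⟩,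
 ⟨⟨[(nat_lit 120), (nat_lit 160), (nat_lit 180)], [(nat_lit 0), (nat_lit 0), (nat_lit 1613)], [((nat_lit 0), (nat_lit 0), (nat_lit 0)), ((nat_lit 0), (nat_lit 0), (nat_lit 0)), ((nat_lit 620), (nat_lit 1000), (nat_lit 670))], ((nat_lit 100), (nat_lit 73), (nat_lit 55))⟩, (nat_lit 20455), (nat_lit 300), (nat_lit 1006), (nat_lit 3487401), (nat_lit 1414347), [(nat_lit 374496000), (nat_lit 557984000), (nat_lit 660726000)], [], [(nat_lit 2556965536), (nat_lit 2534534010), (nat_lit 2583731006), (nat_lit 2556045277), (nat_lit 2079663366), (nat_lit 2057520961), (nat_lit 2096860187), (nat_lit 2069883216)], (nat_lit 1100000), (nat_lit 1271251), (nat_lit 1271251), (nat_lit 1271251), (nat_lit 0), (nat_lit 780000), [(nat_lit 1695001), (nat_lit 1271251), (nat_lit 1271251)], [(nat_lit 28), (nat_lit 65), (nat_lit 401), (nat_lit 175), (nat_lit 9)]⟩⟩) (.trX (nat_lit 4) (nat_lit 0) (nat_lit 2) (nat_lit 66) (nat_lit 82) (nat_lit 100) (nat_lit 320) (.leaf ⟨(nat_lit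 917), (nat_lit 44), (nat_lit 0), (nat_lit 39), (nat_lit 0), (nat_lit 3322), (nat_lit 953), (nat_lit 519), (nat_lit 0), (nat_lit 0), (nat_lit 326150), [((nat_lit 360), [((nat_lit 21), (nat_lit 0), (nat_lit 271)), ((nat_lit 21), (nat_lit 1), (nat_lit 646))])], ⟨(nat_lit 6), false, false, false, (nat_lit 197), (nat_lit 3162), (nat_lit 3536), [(nat_lit 1418344), (nat_lit 1422365), (nat_lit 1440289), (nat_lit 1444512), (nat_lit 1543888), (nat_lit 1544293), (nat_lit 1565832), (nat_lit 1566439)]⟩, ⟨(nat_lit 6), false, false, true, (nat_lit 236), (nat_lit 3162), (nat_lit 3536), [(nat_lit 1518855), (nat_lit 1516642), (nat_lit 1540807), (nat_lit 1538797), (nat_lit 1644378), (nat_lit 1638549), (nat_lit 1666330), (nat_lit 1660704)]⟩, (nat_lit 5123013), (nat_lit 39984761), (nat_lit 11573415), (nat_lit 15441824), (nat_lit 6), (nat_lit 0), [], [⟨(nat_lit 1), (nat_lit 82), (nat_lit 66), (nat_lit 100), (nat_lit 252437713)⟩], [⟨(nat_lit 0), (nat_lit 100), (nat_lit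 96), (nat_lit 20), (nat_lit 38839752)⟩], [⟨(nat_lit 0), (nat_lit 94), (nat_lit 100), (nat_lit 21), (nat_lit 12046363)⟩],
 ⟨⟨[(nat_lit 40), (nat_lit 60), (nat_lit 80)], [(nat_lit 0), (nat_lit 600), (nat_lit 1195)], [((nat_lit 0), (nat_lit 0), (nat_lit 0)), ((nat_lit 1000), (nat_lit 725), (nat_lit 454)), ((nat_lit 1000), (nat_lit 720), (nat_lit 465))], ((nat_lit 69), (nat_lit 100), (nat_lit 56))⟩, (nat_lit 417891), (nat_lit 64), (nat_lit 64), (nat_lit 0), (nat_lit 0), [(nat_lit 1414036045), (nat_lit 1721884241), (nat_lit 1879903600)], [(nat_lit 0), (nat_lit 0), (nat_lit 0)], [(nat_lit 21697279243), (nat_lit 22306522174), (nat_lit 23031473267), (nat_lit 23575901654), (nat_lit 24925303434), (nat_lit 25553804322), (nat_lit 25916813333), (nat_lit 26475773178)], (nat_lit 0), (nat_lit 0), (nat_lit 0), (nat_lit 0), (nat_lit 0), (nat_lit 0), [], [(nat_lit 2), (nat_lit 44), (nat_lit 260), (nat_lit 50), (nat_lit 10)]⟩,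
 ⟨⟨[(nat_lit 80), (nat_lit 120), (nat_lit 140)], [(nat_lit 0), (nat_lit 0), (nat_lit 1164)], [((nat_lit 0), (nat_lit 0), (nat_lit 0)), ((nat_lit 0), (nat_lit 0), (nat_lit 0)), ((nat_lit 941), (nat_lit 1000), (nat_lit 576))], ((nat_lit 100), (nat_lit 95), (nat_lit 55))⟩, (nat_lit 0), (nat_lit 582), (nat_lit 582), (nat_lit 0), (nat_lit 763189), [(nat_lit 389104000), (nat_lit 661344000), (nat_lit 816886000)], [], [(nat_lit 3162535460), (nat_lit 2670064551), (nat_lit 2826557526), (nat_lit 2583500579), (nat_lit 2440083001), (nat_lit 2104224046), (nat_lit 3369513432), (nat_lit 2934991415)], (nat_lit 1271251), (nat_lit 1271251), (nat_lit 780000), (nat_lit 1435001), (nat_lit 0), (nat_lit 780000), [(nat_lit 1100000), (nat_lit 1785001), (nat_lit 1271251)], [(nat_lit 17), (nat_lit 58), (nat_lit 373), (nat_lit 150), (nat_lit 11)]⟩,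
 ⟨⟨[(nat_lit 120), (nat_lit 160), (nat_lit 180)], [(nat_lit 0), (nat_lit 0), (nat_lit 1613)], [((nat_lit 0), (nat_lit 0), (nat_lit 0)), ((nat_lit 0), (nat_lit 0), (nat_lit 0)), ((nat_lit 620), (nat_lit 1000), (nat_lit 670))], ((nat_lit 100), (nat_lit 73), (nat_lit 55))⟩, (nat_lit 16973), (nat_lit 300), (nat_lit 1138), (nat_lit 2893804), (nat_lit 1700684), [(nat_lit 310752000), (nat_lit 463008000), (nat_lit 548262000)], [], [(nat_lit 2105608380), (nat_lit 2086343136), (nat_lit 2117767140), (nat_lit 2094646185), (nat_lit 1700282250), (nat_lit 1681271495), (nat_lit 1705822176), (nat_lit 1683259662)], (nat_lit 1100000), (nat_lit 1271251), (nat_lit 1271251), (nat_lit 1271251), (nat_lit 0), (nat_lit 780000), [(nat_lit 1695001), (nat_lit 1271251), (nat_lit 1271251)], [(nat_lit 28), (nat_lit 65), (nat_lit 401), (nat_lit 175), (nat_lit 9)]⟩⟩))) (.leaf ⟨(nat_lit 328), (nat_lit 523), (nat_lit 0), (nat_lit 149), (nat_lit 0), (nat_lit 3964), (nat_lit 4329),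 (nat_lit 1951), (nat_lit 0), (nat_lit 0), (nat_lit 526000), [((nat_lit 360), [((nat_lit 21), (nat_lit 2), (nat_lit 262)), ((nat_lit 39), (nat_lit 5), (nat_lit 66))])], ⟨(nat_lit 6), false, false, false, (nat_lit 206), (nat_lit 3162), (nat_lit 3873), [(nat_lit 1436185), (nat_lit 1444407), (nat_lit 1457950), (nat_lit 1466533), (nat_lit 1565293), (nat_lit 1566378), (nat_lit 1587058), (nat_lit 1588504)]⟩, ⟨(nat_lit 6), false, false, true, (nat_lit 240), (nat_lit 3162), (nat_lit 3873), [(nat_lit 1520934), (nat_lit 1516642), (nat_lit 1542727), (nat_lit 1538797), (nat_lit 1666107), (nat_lit 1653787), (nat_lit 1687900), (nat_lit 1675942)]⟩, (nat_lit 5200790), (nat_lit 39178057), (nat_lit 12187461), (nat_lit 15634482), (nat_lit 6), (nat_lit 0), [⟨(nat_lit 0), (nat_lit 94), (nat_lit 62), (nat_lit 100), (nat_lit 276892588)⟩], [⟨(nat_lit 1), (nat_lit 85), (nat_lit 67), (nat_lit 100), (nat_lit 362961597)⟩], [], [],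
 ⟨⟨[(nat_lit 40), (nat_lit 60), (nat_lit 80)], [(nat_lit 0), (nat_lit 398), (nat_lit 992)], [((nat_lit 0), (nat_lit 0), (nat_lit 0)), ((nat_lit 1000), (nat_lit 814), (nat_lit 310)), ((nat_lit 1000), (nat_lit 752), (nat_lit 464))], ((nat_lit 73), (nat_lit 100), (nat_lit 55))⟩, (nat_lit 0), (nat_lit 73), (nat_lit 73), (nat_lit 0), (nat_lit 0), [(nat_lit 1758722145), (nat_lit 2314376205), (nat_lit 2385218400)], [(nat_lit 0), (nat_lit 0), (nat_lit 0)], [(nat_lit 21576415027), (nat_lit 22903425533), (nat_lit 22895330243), (nat_lit 24075439293), (nat_lit 25757452435), (nat_lit 26907481849), (nat_lit 26589835655), (nat_lit 27617418918)], (nat_lit 0), (nat_lit 0), (nat_lit 0), (nat_lit 0), (nat_lit 0), (nat_lit 0), [], [(nat_lit 2), (nat_lit 44), (nat_lit 260), (nat_lit 50), (nat_lit 10)]⟩,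
 ⟨⟨[(nat_lit 80), (nat_lit 120), (nat_lit 140)], [(nat_lit 0), (nat_lit 528), (nat_lit 1572)], [((nat_lit 0), (nat_lit 0), (nat_lit 0)), ((nat_lit 1000), (nat_lit 959), (nat_lit 206)), ((nat_lit 966), (nat_lit 1000), (nat_lit 679))], ((nat_lit 99), (nat_lit 100), (nat_lit 56))⟩, (nat_lit 5876747), (nat_lit 572), (nat_lit 572), (nat_lit 0), (nat_lit 740579), [(nat_lit 3150336000), (nat_lit 5354496000), (nat_lit 6613824000)], [], [(nat_lit 18657285134), (nat_lit 18616969641), (nat_lit 20127049892), (nat_lit 18958395612), (nat_lit 18546283969), (nat_lit 16975813391), (nat_lit 23594202591), (nat_lit 21620387465)], (nat_lit 1271251), (nat_lit 1271251), (nat_lit 780000), (nat_lit 1435001), (nat_lit 0), (nat_lit 780000), [(nat_lit 1100000), (nat_lit 1785001), (nat_lit 1271251)], [(nat_lit 17), (nat_lit 58), (nat_lit 373), (nat_lit 150), (nat_lit 11)]⟩,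
 ⟨⟨[(nat_lit 120), (nat_lit 160), (nat_lit 180)], [(nat_lit 0), (nat_lit 0), (nat_lit 1613)], [((nat_lit 0), (nat_lit 0), (nat_lit 0)), ((nat_lit 0), (nat_lit 0), (nat_lit 0)), ((nat_lit 620), (nat_lit 1000), (nat_lit 670))], ((nat_lit 100), (nat_lit 73), (nat_lit 55))⟩, (nat_lit 64847), (nat_lit 300), (nat_lit 1228), (nat_lit 11055800), (nat_lit 1911739), [(nat_lit 1187232000), (nat_lit 1768928000), (nat_lit 2094642000)], [], [(nat_lit 8094174412), (nat_lit 8022578850), (nat_lit 8178338429), (nat_lit 8090244664), (nat_lit 6574160622), (nat_lit 6503492434), (nat_lit 6627912269), (nat_lit 6541866631)], (nat_lit 1100000), (nat_lit 1271251), (nat_lit 1271251), (nat_lit 1271251), (nat_lit 0), (nat_lit 780000), [(nat_lit 1695001), (nat_lit 1271251), (nat_lit 1271251)], [(nat_lit 28), (nat_lit 65), (nat_lit 401), (nat_lit 175), (nat_lit 9)]⟩⟩)) (.leaf ⟨(nat_lit 903), (nat_lit 39), (nat_lit 0), (nat_lit 58), (nat_lit 0), (nat_lit 2975), (nat_lit 854),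 (nat_lit 649), (nat_lit 0), (nat_lit 0), (nat_lit 666700), [((nat_lit 360), [((nat_lit 21), (nat_lit 0), (nat_lit 146)), ((nat_lit 39), (nat_lit 2), (nat_lit 317)), ((nat_lit 21), (nat_lit 2), (nat_lit 440))])], ⟨(nat_lit 6), false, false, false, (nat_lit 201), (nat_lit 3162), (nat_lit 3873), [(nat_lit 1414421), (nat_lit 1422280), (nat_lit 1457950), (nat_lit 1466533), (nat_lit 1543529), (nat_lit 1544252), (nat_lit 1587058), (nat_lit 1588504)]⟩, ⟨(nat_lit 6), false, false, true, (nat_lit 240), (nat_lit 3162), (nat_lit 3873), [(nat_lit 1520934), (nat_lit 1516642), (nat_lit 1542727), (nat_lit 1538797), (nat_lit 1666107), (nat_lit 1653787), (nat_lit 1687900), (nat_lit 1675942)]⟩, (nat_lit 5170972), (nat_lit 39454604), (nat_lit 11833937), (nat_lit 15711459), (nat_lit 6), (nat_lit 0), [⟨(nat_lit 0), (nat_lit 94), (nat_lit 62), (nat_lit 100), (nat_lit 2318159)⟩], [⟨(nat_lit 1), (nat_lit 85), (nat_lit 67), (nat_lit 100), (nat_lit 231379168)⟩], [], [],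
 ⟨⟨[(nat_lit 40), (nat_lit 60), (nat_lit 80)], [(nat_lit 0), (nat_lit 398), (nat_lit 992)], [((nat_lit 0), (nat_lit 0), (nat_lit 0)), ((nat_lit 1000), (nat_lit 814), (nat_lit 310)), ((nat_lit 1000), (nat_lit 752), (nat_lit 464))], ((nat_lit 73), (nat_lit 100), (nat_lit 55))⟩, (nat_lit 30982), (nat_lit 73), (nat_lit 73), (nat_lit 0), (nat_lit 0), [(nat_lit 1369569472), (nat_lit 1259900577), (nat_lit 823304823)], [(nat_lit 0), (nat_lit 0), (nat_lit 0)], [(nat_lit 20920986764), (nat_lit 22080815226), (nat_lit 22363285664), (nat_lit 23402820726), (nat_lit 24603278437), (nat_lit 25693548882), (nat_lit 25729918119), (nat_lit 26682024069)], (nat_lit 0), (nat_lit 0), (nat_lit 0), (nat_lit 0), (nat_lit 0), (nat_lit 0), [], [(nat_lit 2), (nat_lit 44), (nat_lit 260), (nat_lit 50), (nat_lit 10)]⟩,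
 ⟨⟨[(nat_lit 80), (nat_lit 120), (nat_lit 140)], [(nat_lit 0), (nat_lit 0), (nat_lit 1164)], [((nat_lit 0), (nat_lit 0), (nat_lit 0)), ((nat_lit 0), (nat_lit 0), (nat_lit 0)), ((nat_lit 941), (nat_lit 1000), (nat_lit 576))], ((nat_lit 100), (nat_lit 95), (nat_lit 55))⟩, (nat_lit 0), (nat_lit 483), (nat_lit 483), (nat_lit 0), (nat_lit 773710), [(nat_lit 454736000), (nat_lit 772896000), (nat_lit 954674000)], [], [(nat_lit 4028318642), (nat_lit 3131622058), (nat_lit 2979068936), (nat_lit 3113409415), (nat_lit 4845423756), (nat_lit 4076855354), (nat_lit 5799910756), (nat_lit 5050669228)], (nat_lit 1271251), (nat_lit 1271251), (nat_lit 780000), (nat_lit 1435001), (nat_lit 780000), (nat_lit 3072501), [(nat_lit 1100000), (nat_lit 1785001), (nat_lit 1271251)], [(nat_lit 17), (nat_lit 58), (nat_lit 456), (nat_lit 225), (nat_lit 13)]⟩,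
 ⟨⟨[(nat_lit 120), (nat_lit 160), (nat_lit 180)], [(nat_lit 0), (nat_lit 0), (nat_lit 1613)], [((nat_lit 0), (nat_lit 0), (nat_lit 0)), ((nat_lit 0), (nat_lit 0), (nat_lit 0)), ((nat_lit 620), (nat_lit 1000), (nat_lit 670))], ((nat_lit 100), (nat_lit 73), (nat_lit 55))⟩, (nat_lit 25242), (nat_lit 300), (nat_lit 1151), (nat_lit 4303604), (nat_lit 1911770), [(nat_lit 462144000), (nat_lit 688576000), (nat_lit 815364000)], [], [(nat_lit 3029982414), (nat_lit 2992616622), (nat_lit 2946518347), (nat_lit 2909647577), (nat_lit 2706578708), (nat_lit 2673866432), (nat_lit 2660607898), (nat_lit 2630699975)], (nat_lit 1100000), (nat_lit 1271251), (nat_lit 1271251), (nat_lit 1271251), (nat_lit 780000), (nat_lit 3072501), [(nat_lit 1695001), (nat_lit 1271251), (nat_lit 1271251)], [(nat_lit 28), (nat_lit 65), (nat_lit 483), (nat_lit 250), (nat_lit 11)]⟩⟩)) (.leaf ⟨(nat_lit 847), (nat_lit 92), (nat_lit 0), (nat_lit 61), (nat_lit 0), (nat_lit 2973), (nat_lit 1650),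 (nat_lit 707), (nat_lit 0), (nat_lit 0), (nat_lit 493500), [((nat_lit 360), [((nat_lit 21), (nat_lit 0), (nat_lit 42)), ((nat_lit 39), (nat_lit 2), (nat_lit 805))])], ⟨(nat_lit 6), false, true, false, (nat_lit 251), (nat_lit 3162), (nat_lit 3873), [(nat_lit 1543529), (nat_lit 1544252), (nat_lit 1587058), (nat_lit 1588504), (nat_lit 1672628), (nat_lit 1666215), (nat_lit 1716165), (nat_lit 1710475)]⟩, ⟨(nat_lit 6), false, false, true, (nat_lit 240), (nat_lit 3162), (nat_lit 3873), [(nat_lit 1520934), (nat_lit 1516642), (nat_lit 1542727), (nat_lit 1538797), (nat_lit 1666107), (nat_lit 1653787), (nat_lit 1687900), (nat_lit 1675942)]⟩, (nat_lit 5449164), (nat_lit 36290174), (nat_lit 15926662), (nat_lit 14783164), (nat_lit 6), (nat_lit 0), [], [⟨(nat_lit 1), (nat_lit 85), (nat_lit 67), (nat_lit 100), (nat_lit 199373610)⟩], [], [⟨(nat_lit 0), (nat_lit 83), (nat_lit 100), (nat_lit 98), (nat_lit 5116850)⟩],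
 ⟨⟨[(nat_lit 40), (nat_lit 60), (nat_lit 80)], [(nat_lit 0), (nat_lit 398), (nat_lit 992)], [((nat_lit 0), (nat_lit 0), (nat_lit 0)), ((nat_lit 1000), (nat_lit 814), (nat_lit 310)), ((nat_lit 1000), (nat_lit 752), (nat_lit 464))], ((nat_lit 73), (nat_lit 100), (nat_lit 55))⟩, (nat_lit 271739), (nat_lit 53), (nat_lit 53), (nat_lit 0), (nat_lit 0), [(nat_lit 1400000459), (nat_lit 1490081278), (nat_lit 1522367322)], [(nat_lit 0), (nat_lit 0), (nat_lit 0)], [(nat_lit 22420363060), (nat_lit 23513883753), (nat_lit 24869894153), (nat_lit 25821421130), (nat_lit 25893155554), (nat_lit 26807202876), (nat_lit 27874934330), (nat_lit 28681015159)], (nat_lit 0), (nat_lit 0), (nat_lit 0), (nat_lit 0), (nat_lit 0), (nat_lit 0), [], [(nat_lit 2), (nat_lit 44), (nat_lit 203), (nat_lit 0), (nat_lit 7)]⟩,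
 ⟨⟨[(nat_lit 80), (nat_lit 120), (nat_lit 140)], [(nat_lit 0), (nat_lit 0), (nat_lit 1164)], [((nat_lit 0), (nat_lit 0), (nat_lit 0)), ((nat_lit 0), (nat_lit 0), (nat_lit 0)), ((nat_lit 941), (nat_lit 1000), (nat_lit 576))], ((nat_lit 100), (nat_lit 95), (nat_lit 55))⟩, (nat_lit 467452), (nat_lit 544), (nat_lit 544), (nat_lit 0), (nat_lit 773710), [(nat_lit 717264000), (nat_lit 1219104000), (nat_lit 1505826000)], [], [(nat_lit 5277261120), (nat_lit 4749606045), (nat_lit 4771933218), (nat_lit 4914901959), (nat_lit 6677976468), (nat_lit 5407599642), (nat_lit 5460053454), (nat_lit 5722047456)], (nat_lit 1271251), (nat_lit 1271251), (nat_lit 1271251), (nat_lit 1271251), (nat_lit 0), (nat_lit 2825001), [(nat_lit 1100000), (nat_lit 1785001), (nat_lit 1271251)], [(nat_lit 17), (nat_lit 58), (nat_lit 483), (nat_lit 250), (nat_lit 14)]⟩,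
 ⟨⟨[(nat_lit 120), (nat_lit 160), (nat_lit 180)], [(nat_lit 0), (nat_lit 0), (nat_lit 1613)], [((nat_lit 0), (nat_lit 0), (nat_lit 0)), ((nat_lit 0), (nat_lit 0), (nat_lit 0)), ((nat_lit 620), (nat_lit 1000), (nat_lit 670))], ((nat_lit 100), (nat_lit 73), (nat_lit 55))⟩, (nat_lit 26548), (nat_lit 300), (nat_lit 1228), (nat_lit 4526201), (nat_lit 1911770), [(nat_lit 486048000), (nat_lit 724192000), (nat_lit 857538000)], [], [(nat_lit 3545832800), (nat_lit 3512159652), (nat_lit 3506653078), (nat_lit 3469811886), (nat_lit 3259308636), (nat_lit 3479148295), (nat_lit 2758717163), (nat_lit 2725440743)], (nat_lit 1100000), (nat_lit 1271251), (nat_lit 1271251), (nat_lit 1271251), (nat_lit 0), (nat_lit 2825001), [(nat_lit 1695001), (nat_lit 1271251), (nat_lit 1271251)], [(nat_lit 28), (nat_lit 65), (nat_lit 483), (nat_lit 250), (nat_lit 11)]⟩⟩))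
noncomputable def c8_45 : Tr Lf :=
 (.trX (nat_lit 5) (nat_lit 1) (nat_lit 2) (nat_lit 92) (nat_lit 49) (nat_lit 100) (nat_lit 380) (.spl (nat_lit 5) (nat_lit 120) (.spl (nat_lit 3) (nat_lit 200) (.leaf ⟨(nat_lit 607), (nat_lit 305), (nat_lit 0), (nat_lit 88), (nat_lit 0), (nat_lit 3153), (nat_lit 3338), (nat_lit 1152), (nat_lit 0), (nat_lit 0), (nat_lit 290000), [((nat_lit 360), [((nat_lit 21), (nat_lit 0), (nat_lit 212)), ((nat_lit 39), (nat_lit 2), (nat_lit 395))])], ⟨(nat_lit 7), false, false, false, (nat_lit 219), (nat_lit 3162), (nat_lit 3873), [(nat_lit 1457950), (nat_lit 1466533), (nat_lit 1501479), (nat_lit 1510785), (nat_lit 1587058), (nat_lit 1588504), (nat_lit 1630587), (nat_lit 1632757)]⟩, ⟨(nat_lit 6), false, false, true, (nat_lit 240), (nat_lit 3162), (nat_lit 3873), [(nat_lit 1520934), (nat_lit 1516642), (nat_lit 1542727), (nat_lit 1538797), (nat_lit 1666107), (nat_lit 1653787), (nat_lit 1687900), (nat_lit 1675942)]⟩, (nat_lit 5283793),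 (nat_lit 38347118), (nat_lit 13254671), (nat_lit 15398211), (nat_lit 6), (nat_lit 0), [⟨(nat_lit 0), (nat_lit 88), (nat_lit 67), (nat_lit 100), (nat_lit 295894862)⟩], [⟨(nat_lit 1), (nat_lit 85), (nat_lit 67), (nat_lit 100), (nat_lit 315141486)⟩], [⟨(nat_lit 0), (nat_lit 100), (nat_lit 88), (nat_lit 37), (nat_lit 71597926)⟩], [],
 ⟨⟨[(nat_lit 40), (nat_lit 60), (nat_lit 80)], [(nat_lit 0), (nat_lit 398), (nat_lit 992)], [((nat_lit 0), (nat_lit 0), (nat_lit 0)), ((nat_lit 1000), (nat_lit 814), (nat_lit 310)), ((nat_lit 1000), (nat_lit 752), (nat_lit 464))], ((nat_lit 73), (nat_lit 100), (nat_lit 55))⟩, (nat_lit 1927356), (nat_lit 73), (nat_lit 73), (nat_lit 0), (nat_lit 0), [(nat_lit 1553776417), (nat_lit 2083217503), (nat_lit 2598679097)], [(nat_lit 0), (nat_lit 0), (nat_lit 0)], [(nat_lit 20760644814), (nat_lit 22026468325), (nat_lit 22269336474), (nat_lit 23441356970), (nat_lit 24829838118), (nat_lit 25912590376), (nat_lit 25951770458), (nat_lit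 26925332439)], (nat_lit 0), (nat_lit 0), (nat_lit 0), (nat_lit 0), (nat_lit 0), (nat_lit 0), [], [(nat_lit 2), (nat_lit 44), (nat_lit 260), (nat_lit 50), (nat_lit 10)]⟩,
 ⟨⟨[(nat_lit 60), (nat_lit 100), (nat_lit 120)], [(nat_lit 0), (nat_lit 0), (nat_lit 1164)], [((nat_lit 0), (nat_lit 0), (nat_lit 0)), ((nat_lit 0), (nat_lit 0), (nat_lit 0)), ((nat_lit 1000), (nat_lit 933), (nat_lit 572))], ((nat_lit 93), (nat_lit 100), (nat_lit 55))⟩, (nat_lit 997828), (nat_lit 503), (nat_lit 503), (nat_lit 0), (nat_lit 759039), [(nat_lit 1289826000), (nat_lit 2456250000), (nat_lit 3131424000)], [], [(nat_lit 10904273838), (nat_lit 11734230232), (nat_lit 11101029602), (nat_lit 11808616056), (nat_lit 9366952770), (nat_lit 10087142662), (nat_lit 10843544671), (nat_lit 10112330754)], (nat_lit 1271251), (nat_lit 1271251), (nat_lit 780000), (nat_lit 1435001), (nat_lit 0), (nat_lit 780000), [(nat_lit 780000), (nat_lit 1435001), (nat_lit 1271251)], [(nat_lit 10), (nat_lit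 54), (nat_lit 317), (nat_lit 100), (nat_lit 10)]⟩,
 ⟨⟨[(nat_lit 120), (nat_lit 160), (nat_lit 180)], [(nat_lit 0), (nat_lit 0), (nat_lit 1613)], [((nat_lit 0), (nat_lit 0), (nat_lit 0)), ((nat_lit 0), (nat_lit 0), (nat_lit 0)), ((nat_lit 620), (nat_lit 1000), (nat_lit 670))], ((nat_lit 100), (nat_lit 73), (nat_lit 55))⟩, (nat_lit 45987), (nat_lit 300), (nat_lit 1479), (nat_lit 6529600), (nat_lit 2442566), [(nat_lit 701184000), (nat_lit 1044736000), (nat_lit 1237104000)], [], [(nat_lit 4780870784), (nat_lit 4738603080), (nat_lit 4830602512), (nat_lit 4778466410), (nat_lit 3883385104), (nat_lit 3841664732), (nat_lit 3915157888), (nat_lit 3864357315)], (nat_lit 1100000), (nat_lit 1271251), (nat_lit 1271251), (nat_lit 1271251), (nat_lit 0), (nat_lit 780000), [(nat_lit 1695001), (nat_lit 1271251), (nat_lit 1271251)], [(nat_lit 28), (nat_lit 65), (nat_lit 449), (nat_lit 175), (nat_lit 10)]⟩⟩) (.leaf ⟨(nat_lit 0), (nat_lit 781), (nat_lit 0), (nat_lit 219),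 (nat_lit 0), (nat_lit 3791), (nat_lit 9424), (nat_lit 2908), (nat_lit 0), (nat_lit 0), (nat_lit 0), [], Pd.none, Pd.none, (nat_lit 0), (nat_lit 1), (nat_lit 0), (nat_lit 0), (nat_lit 6), (nat_lit 0), [], [⟨(nat_lit 1), (nat_lit 85), (nat_lit 67), (nat_lit 100), (nat_lit 62952536)⟩], [], [⟨(nat_lit 0), (nat_lit 92), (nat_lit 100), (nat_lit 61), (nat_lit 358088870)⟩],
 ⟨⟨[(nat_lit 40), (nat_lit 60), (nat_lit 80)], [(nat_lit 0), (nat_lit 398), (nat_lit 992)], [((nat_lit 0), (nat_lit 0), (nat_lit 0)), ((nat_lit 1000), (nat_lit 814), (nat_lit 310)), ((nat_lit 1000), (nat_lit 752), (nat_lit 464))], ((nat_lit 73), (nat_lit 100), (nat_lit 55))⟩, (nat_lit 4939928), (nat_lit 53), (nat_lit 53), (nat_lit 0), (nat_lit 0), [(nat_lit 2032000005), (nat_lit 3519605285), (nat_lit 4688000000)], [], [(nat_lit 22468720090), (nat_lit 23745839602), (nat_lit 25142031175), (nat_lit 26240468068), (nat_lit 26382901513), (nat_lit 27433554593), (nat_lit 28474534417), (nat_lit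 29476071645)], (nat_lit 0), (nat_lit 0), (nat_lit 0), (nat_lit 0), (nat_lit 0), (nat_lit 0), [], [(nat_lit 2), (nat_lit 44), (nat_lit 203), (nat_lit 0), (nat_lit 7)]⟩,
 ⟨⟨[(nat_lit 60), (nat_lit 100), (nat_lit 120)], [(nat_lit 0), (nat_lit 0), (nat_lit 1164)], [((nat_lit 0), (nat_lit 0), (nat_lit 0)), ((nat_lit 0), (nat_lit 0), (nat_lit 0)), ((nat_lit 1000), (nat_lit 933), (nat_lit 572))], ((nat_lit 93), (nat_lit 100), (nat_lit 55))⟩, (nat_lit 4107915), (nat_lit 479), (nat_lit 479), (nat_lit 0), (nat_lit 759039), [(nat_lit 3282000000), (nat_lit 6250000000), (nat_lit 7968000000)], [], [(nat_lit 25431431504), (nat_lit 27322372416), (nat_lit 28793515320), (nat_lit 33448160512), (nat_lit 20706482500), (nat_lit 22333521040), (nat_lit 22569842460), (nat_lit 24383310512)], (nat_lit 1271251), (nat_lit 1271251), (nat_lit 1271251), (nat_lit 1271251), (nat_lit 0), (nat_lit 780000), [(nat_lit 780000), (nat_lit 1435001), (nat_lit 1271251)], [(nat_lit 10), (nat_lit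 54), (nat_lit 317), (nat_lit 100), (nat_lit 10)]⟩,
 ⟨⟨[(nat_lit 120), (nat_lit 160), (nat_lit 180)], [(nat_lit 0), (nat_lit 0), (nat_lit 1613)], [((nat_lit 0), (nat_lit 0), (nat_lit 0)), ((nat_lit 0), (nat_lit 0), (nat_lit 0)), ((nat_lit 620), (nat_lit 1000), (nat_lit 670))], ((nat_lit 100), (nat_lit 73), (nat_lit 55))⟩, (nat_lit 1141385), (nat_lit 300), (nat_lit 1479), (nat_lit 16249800), (nat_lit 2442566), [(nat_lit 1744992000), (nat_lit 2599968000), (nat_lit 3078702000)], [], [(nat_lit 11833748544), (nat_lit 11725969269), (nat_lit 11958326722), (nat_lit 11881592297), (nat_lit 9563408194), (nat_lit 9457048968), (nat_lit 9638370132), (nat_lit 9509140812)], (nat_lit 1100000), (nat_lit 1271251), (nat_lit 1271251), (nat_lit 1271251), (nat_lit 0), (nat_lit 780000), [(nat_lit 1695001), (nat_lit 1271251), (nat_lit 1271251)], [(nat_lit 28), (nat_lit 65), (nat_lit 449), (nat_lit 175), (nat_lit 10)]⟩⟩)) (.spl (nat_lit 5) (nat_lit 240) (.leaf ⟨(nat_lit 0),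 (nat_lit 744), (nat_lit 0), (nat_lit 256), (nat_lit 0), (nat_lit 3712), (nat_lit 8227), (nat_lit 2948), (nat_lit 0), (nat_lit 0), (nat_lit 0), [], Pd.none, Pd.none, (nat_lit 0), (nat_lit 1), (nat_lit 0), (nat_lit 0), (nat_lit 6), (nat_lit 0), [], [⟨(nat_lit 1), (nat_lit 85), (nat_lit 67), (nat_lit 100), (nat_lit 348752988)⟩], [], [],
 ⟨⟨[(nat_lit 40), (nat_lit 60), (nat_lit 80)], [(nat_lit 0), (nat_lit 398), (nat_lit 992)], [((nat_lit 0), (nat_lit 0), (nat_lit 0)), ((nat_lit 1000), (nat_lit 814), (nat_lit 310)), ((nat_lit 1000), (nat_lit 752), (nat_lit 464))], ((nat_lit 73), (nat_lit 100), (nat_lit 55))⟩, (nat_lit 6425305), (nat_lit 73), (nat_lit 73), (nat_lit 0), (nat_lit 0), [(nat_lit 2032000054), (nat_lit 3647406974), (nat_lit 4688000000)], [], [(nat_lit 21065185580), (nat_lit 22487723772), (nat_lit 25223652888), (nat_lit 26311802164), (nat_lit 25435001512), (nat_lit 26598168292), (nat_lit 28536080512), (nat_lit 29438625129)], (nat_lit 0), (nat_lit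 0), (nat_lit 0), (nat_lit 0), (nat_lit 0), (nat_lit 0), [], [(nat_lit 2), (nat_lit 44), (nat_lit 289), (nat_lit 75), (nat_lit 12)]⟩,
 ⟨⟨[(nat_lit 60), (nat_lit 100), (nat_lit 120)], [(nat_lit 0), (nat_lit 0), (nat_lit 1164)], [((nat_lit 0), (nat_lit 0), (nat_lit 0)), ((nat_lit 0), (nat_lit 0), (nat_lit 0)), ((nat_lit 1000), (nat_lit 933), (nat_lit 572))], ((nat_lit 93), (nat_lit 100), (nat_lit 55))⟩, (nat_lit 3373899), (nat_lit 410), (nat_lit 410), (nat_lit 0), (nat_lit 759039), [(nat_lit 3282000000), (nat_lit 6250000000), (nat_lit 7968000000)], [], [(nat_lit 21609363330), (nat_lit 24034064337), (nat_lit 25090748683), (nat_lit 26763044076), (nat_lit 23418453289), (nat_lit 25300616146), (nat_lit 38938503874), (nat_lit 31628830828)], (nat_lit 1271251), (nat_lit 1271251), (nat_lit 780000), (nat_lit 2090001), (nat_lit 780000), (nat_lit 1762501), [(nat_lit 780000), (nat_lit 1435001), (nat_lit 1271251)], [(nat_lit 10), (nat_lit 54), (nat_lit 373), (nat_lit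 150), (nat_lit 12)]⟩,
 ⟨⟨[(nat_lit 120), (nat_lit 160), (nat_lit 180)], [(nat_lit 0), (nat_lit 0), (nat_lit 1613)], [((nat_lit 0), (nat_lit 0), (nat_lit 0)), ((nat_lit 0), (nat_lit 0), (nat_lit 0)), ((nat_lit 620), (nat_lit 1000), (nat_lit 670))], ((nat_lit 100), (nat_lit 73), (nat_lit 55))⟩, (nat_lit 800593), (nat_lit 300), (nat_lit 1397), (nat_lit 18995200), (nat_lit 2442566), [(nat_lit 2039808000), (nat_lit 3039232000), (nat_lit 3598848000)], [], [(nat_lit 12908533408), (nat_lit 12748359704), (nat_lit 12630247456), (nat_lit 12478420162), (nat_lit 11786524848), (nat_lit 11640277932), (nat_lit 11527979606), (nat_lit 11369330034)], (nat_lit 1100000), (nat_lit 1271251), (nat_lit 1271251), (nat_lit 1271251), (nat_lit 780000), (nat_lit 1762501), [(nat_lit 1695001), (nat_lit 1271251), (nat_lit 1271251)], [(nat_lit 28), (nat_lit 65), (nat_lit 443), (nat_lit 200), (nat_lit 10)]⟩⟩) (.leaf ⟨(nat_lit 0), (nat_lit 725), (nat_lit 0), (nat_lit 275), (nat_lit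 0), (nat_lit 3712), (nat_lit 7669), (nat_lit 2934), (nat_lit 0), (nat_lit 0), (nat_lit 0), [], Pd.none, Pd.none, (nat_lit 0), (nat_lit 1), (nat_lit 0), (nat_lit 0), (nat_lit 6), (nat_lit 0), [⟨(nat_lit 0), (nat_lit 80), (nat_lit 60), (nat_lit 100), (nat_lit 591221290)⟩], [⟨(nat_lit 1), (nat_lit 85), (nat_lit 67), (nat_lit 100), (nat_lit 303644678)⟩], [⟨(nat_lit 1), (nat_lit 63), (nat_lit 88), (nat_lit 100), (nat_lit 261245145)⟩], [],
 ⟨⟨[(nat_lit 40), (nat_lit 60), (nat_lit 80)], [(nat_lit 0), (nat_lit 398), (nat_lit 992)], [((nat_lit 0), (nat_lit 0), (nat_lit 0)), ((nat_lit 1000), (nat_lit 814), (nat_lit 310)), ((nat_lit 1000), (nat_lit 752), (nat_lit 464))], ((nat_lit 73), (nat_lit 100), (nat_lit 55))⟩, (nat_lit 6871731), (nat_lit 73), (nat_lit 73), (nat_lit 0), (nat_lit 0), [(nat_lit 2032000002), (nat_lit 3705251191), (nat_lit 4688000000)], [], [(nat_lit 21065185476), (nat_lit 22487723668), (nat_lit 25223652784), (nat_lit 26311802060), (nat_lit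 25435001408), (nat_lit 26598168292), (nat_lit 28536080408), (nat_lit 29438625025)], (nat_lit 0), (nat_lit 0), (nat_lit 0), (nat_lit 0), (nat_lit 0), (nat_lit 0), [], [(nat_lit 2), (nat_lit 44), (nat_lit 289), (nat_lit 75), (nat_lit 12)]⟩,
 ⟨⟨[(nat_lit 60), (nat_lit 100), (nat_lit 120)], [(nat_lit 0), (nat_lit 0), (nat_lit 1164)], [((nat_lit 0), (nat_lit 0), (nat_lit 0)), ((nat_lit 0), (nat_lit 0), (nat_lit 0)), ((nat_lit 1000), (nat_lit 933), (nat_lit 572))], ((nat_lit 93), (nat_lit 100), (nat_lit 55))⟩, (nat_lit 2604761), (nat_lit 397), (nat_lit 397), (nat_lit 0), (nat_lit 759039), [(nat_lit 3282000000), (nat_lit 6250000000), (nat_lit 7968000000)], [], [(nat_lit 25016505583), (nat_lit 26838576862), (nat_lit 27303773732), (nat_lit 28557038478), (nat_lit 31458885397), (nat_lit 32578849049), (nat_lit 32375462221), (nat_lit 34064761034)], (nat_lit 1271251), (nat_lit 1271251), (nat_lit 780000), (nat_lit 2090001), (nat_lit 1271251), (nat_lit 1271251),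 [(nat_lit 780000), (nat_lit 1435001), (nat_lit 1271251)], [(nat_lit 10), (nat_lit 54), (nat_lit 289), (nat_lit 75), (nat_lit 8)]⟩,
 ⟨⟨[(nat_lit 120), (nat_lit 160), (nat_lit 180)], [(nat_lit 0), (nat_lit 0), (nat_lit 1613)], [((nat_lit 0), (nat_lit 0), (nat_lit 0)), ((nat_lit 0), (nat_lit 0), (nat_lit 0)), ((nat_lit 620), (nat_lit 1000), (nat_lit 670))], ((nat_lit 100), (nat_lit 73), (nat_lit 55))⟩, (nat_lit 697382), (nat_lit 300), (nat_lit 1340), (nat_lit 20405000), (nat_lit 2442566), [(nat_lit 2191200000), (nat_lit 3264800000), (nat_lit 3865950000)], [], [(nat_lit 14353633832), (nat_lit 14178220813), (nat_lit 13785094310), (nat_lit 13606257117), (nat_lit 13550981840), (nat_lit 13369595124), (nat_lit 13102063558), (nat_lit 12931668596)], (nat_lit 1100000), (nat_lit 1271251), (nat_lit 1271251), (nat_lit 1271251), (nat_lit 1271251), (nat_lit 1271251), [(nat_lit 1695001), (nat_lit 1271251), (nat_lit 1271251)], [(nat_lit 28), (nat_lit 65), (nat_lit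 456), (nat_lit 225), (nat_lit 10)]⟩⟩))))
noncomputable def c8_46 : Tr Lf :=
 (.spl (nat_lit 5) (nat_lit 120) (.spl (nat_lit 2) (nat_lit 160) (.trX (nat_lit 4) (nat_lit 0) (nat_lit 2) (nat_lit 73) (nat_lit 85) (nat_lit 100) (nat_lit 320) (.leaf ⟨(nat_lit 38), (nat_lit 807), (nat_lit 0), (nat_lit 155), (nat_lit 0), (nat_lit 4904), (nat_lit 5305), (nat_lit 2318), (nat_lit 0), (nat_lit 0), (nat_lit 152000), [((nat_lit 360), [((nat_lit 39), (nat_lit 5), (nat_lit 38))])], ⟨(nat_lit 6), false, false, false, (nat_lit 235), (nat_lit 3162), (nat_lit 3873), [(nat_lit 1414421), (nat_lit 1422280), (nat_lit 1501479), (nat_lit 1510785), (nat_lit 1672628), (nat_lit 1666215), (nat_lit 1759694), (nat_lit 1754728)]⟩, ⟨(nat_lit 6), false, false, true, (nat_lit 224), (nat_lit 3162), (nat_lit 3873), [(nat_lit 1477347), (nat_lit 1472332), (nat_lit 1520934), (nat_lit 1516642), (nat_lit 1606390), (nat_lit 1594239), (nat_lit 1649977), (nat_lit 1638549)]⟩, (nat_lit 5287722),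 (nat_lit 38364411), (nat_lit 14884497), (nat_lit 13751092), (nat_lit 6), (nat_lit 0), [], [⟨(nat_lit 1), (nat_lit 96), (nat_lit 69), (nat_lit 100), (nat_lit 429497602)⟩, ⟨(nat_lit 1), (nat_lit 85), (nat_lit 73), (nat_lit 100), (nat_lit 27571267)⟩], [⟨(nat_lit 0), (nat_lit 100), (nat_lit 96), (nat_lit 11), (nat_lit 42124743)⟩], [],
 ⟨⟨[(nat_lit 40), (nat_lit 60), (nat_lit 80)], [(nat_lit 0), (nat_lit 398), (nat_lit 992)], [((nat_lit 0), (nat_lit 0), (nat_lit 0)), ((nat_lit 1000), (nat_lit 814), (nat_lit 310)), ((nat_lit 1000), (nat_lit 752), (nat_lit 464))], ((nat_lit 73), (nat_lit 100), (nat_lit 55))⟩, (nat_lit 816596), (nat_lit 163), (nat_lit 163), (nat_lit 0), (nat_lit 317153), [(nat_lit 1982265730), (nat_lit 3037158481), (nat_lit 4133595200)], [(nat_lit 0), (nat_lit 0), (nat_lit 0)], [(nat_lit 22163180253), (nat_lit 23578016353), (nat_lit 25723705517), (nat_lit 26894477480), (nat_lit 25893464036), (nat_lit 27381806904), (nat_lit 28891244500),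 (nat_lit 30042848872)], (nat_lit 1271251), (nat_lit 1271251), (nat_lit 780000), (nat_lit 2090001), (nat_lit 1271251), (nat_lit 1271251), [(nat_lit 490000), (nat_lit 780000), (nat_lit 1100000)], [(nat_lit 2), (nat_lit 44), (nat_lit 289), (nat_lit 75), (nat_lit 12)]⟩,
 ⟨⟨[(nat_lit 80), (nat_lit 120), (nat_lit 140)], [(nat_lit 0), (nat_lit 0), (nat_lit 1164)], [((nat_lit 0), (nat_lit 0), (nat_lit 0)), ((nat_lit 0), (nat_lit 0), (nat_lit 0)), ((nat_lit 941), (nat_lit 1000), (nat_lit 576))], ((nat_lit 100), (nat_lit 95), (nat_lit 55))⟩, (nat_lit 1042491), (nat_lit 389), (nat_lit 389), (nat_lit 0), (nat_lit 389007), [(nat_lit 4509856000), (nat_lit 7665216000), (nat_lit 9468004000)], [], [(nat_lit 33932357586), (nat_lit 37457092730), (nat_lit 43177479904), (nat_lit 39788293132), (nat_lit 34926268321), (nat_lit 35020762873), (nat_lit 48154231349), (nat_lit 38725681374)], (nat_lit 1271251), (nat_lit 1271251), (nat_lit 780000), (nat_lit 2090001), (nat_lit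 0), (nat_lit 780000), [(nat_lit 1100000), (nat_lit 1785001), (nat_lit 1271251)], [(nat_lit 17), (nat_lit 58), (nat_lit 428), (nat_lit 200), (nat_lit 12)]⟩,
 ⟨⟨[(nat_lit 140), (nat_lit 180), (nat_lit 200)], [(nat_lit 0), (nat_lit 0), (nat_lit 2835)], [((nat_lit 0), (nat_lit 0), (nat_lit 0)), ((nat_lit 0), (nat_lit 0), (nat_lit 0)), ((nat_lit 363), (nat_lit 1000), (nat_lit 798))], ((nat_lit 0), (nat_lit 0), (nat_lit 0))⟩, (nat_lit 42646), (nat_lit 300), (nat_lit 972), (nat_lit 12105500), (nat_lit 1149324), [(nat_lit 1525510000), (nat_lit 2178990000), (nat_lit 2542000000)], [], [(nat_lit 10138818904), (nat_lit 9736321728), (nat_lit 10310950872), (nat_lit 9919406736), (nat_lit 8177345622), (nat_lit 7797582994), (nat_lit 8171704490), (nat_lit 7810915082)], (nat_lit 780000), (nat_lit 1100000), (nat_lit 1271251), (nat_lit 1271251), (nat_lit 0), (nat_lit 780000), [(nat_lit 1977501), (nat_lit 1271251), (nat_lit 1271251)], [(nat_lit 32), (nat_lit 67), (nat_lit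 373), (nat_lit 150), (nat_lit 8)]⟩⟩)) (.leaf ⟨(nat_lit 0), (nat_lit 699), (nat_lit 0), (nat_lit 301), (nat_lit 0), (nat_lit 4007), (nat_lit 6043), (nat_lit 3993), (nat_lit 0), (nat_lit 0), (nat_lit 0), [], Pd.none, Pd.none, (nat_lit 0), (nat_lit 1), (nat_lit 0), (nat_lit 0), (nat_lit 6), (nat_lit 0), [⟨(nat_lit 0), (nat_lit 96), (nat_lit 69), (nat_lit 100), (nat_lit 102459179)⟩], [⟨(nat_lit 1), (nat_lit 85), (nat_lit 67), (nat_lit 100), (nat_lit 236106243)⟩], [⟨(nat_lit 0), (nat_lit 100), (nat_lit 93), (nat_lit 26), (nat_lit 6096577)⟩], [],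
 ⟨⟨[(nat_lit 40), (nat_lit 60), (nat_lit 80)], [(nat_lit 0), (nat_lit 398), (nat_lit 992)], [((nat_lit 0), (nat_lit 0), (nat_lit 0)), ((nat_lit 1000), (nat_lit 814), (nat_lit 310)), ((nat_lit 1000), (nat_lit 752), (nat_lit 464))], ((nat_lit 73), (nat_lit 100), (nat_lit 55))⟩, (nat_lit 2950190), (nat_lit 145), (nat_lit 145), (nat_lit 0), (nat_lit 270526), [(nat_lit 2032000094), (nat_lit 3282000083), (nat_lit 4688000000)], [], [(nat_lit 21995989969), (nat_lit 23191188425), (nat_lit 25493995935), (nat_lit 26465721856), (nat_lit 25703587100), (nat_lit 26960261544), (nat_lit 28661220557), (nat_lit 29686064577)], (nat_lit 1271251), (nat_lit 1271251), (nat_lit 780000), (nat_lit 2090001), (nat_lit 1271251), (nat_lit 1271251), [(nat_lit 490000), (nat_lit 780000), (nat_lit 1100000)], [(nat_lit 2), (nat_lit 44), (nat_lit 289), (nat_lit 75), (nat_lit 12)]⟩,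
 ⟨⟨[(nat_lit 80), (nat_lit 120), (nat_lit 140)], [(nat_lit 0), (nat_lit 0), (nat_lit 1164)], [((nat_lit 0), (nat_lit 0), (nat_lit 0)), ((nat_lit 0), (nat_lit 0), (nat_lit 0)), ((nat_lit 941), (nat_lit 1000), (nat_lit 576))], ((nat_lit 100), (nat_lit 95), (nat_lit 55))⟩, (nat_lit 0), (nat_lit 366), (nat_lit 366), (nat_lit 0), (nat_lit 333213), [(nat_lit 4688000000), (nat_lit 7968000000), (nat_lit 9842000000)], [], [(nat_lit 35522718340), (nat_lit 39331615394), (nat_lit 44890124888), (nat_lit 41659409208), (nat_lit 35694209027), (nat_lit 36373621201), (nat_lit 50260229895), (nat_lit 39520036210)], (nat_lit 1271251), (nat_lit 1271251), (nat_lit 780000), (nat_lit 2090001), (nat_lit 0), (nat_lit 780000), [(nat_lit 1100000), (nat_lit 1785001), (nat_lit 1271251)], [(nat_lit 17), (nat_lit 58), (nat_lit 428), (nat_lit 200), (nat_lit 12)]⟩,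
 ⟨⟨[(nat_lit 120), (nat_lit 160), (nat_lit 180)], [(nat_lit 0), (nat_lit 0), (nat_lit 1613)], [((nat_lit 0), (nat_lit 0), (nat_lit 0)), ((nat_lit 0), (nat_lit 0), (nat_lit 0)), ((nat_lit 620), (nat_lit 1000), (nat_lit 670))], ((nat_lit 100), (nat_lit 73), (nat_lit 55))⟩, (nat_lit 130999), (nat_lit 300), (nat_lit 680), (nat_lit 22334204), (nat_lit 711289), [(nat_lit 2398368000), (nat_lit 3573472000), (nat_lit 4231458000)], [], [(nat_lit 16270642532), (nat_lit 16122749628), (nat_lit 16436558486), (nat_lit 16331305773), (nat_lit 13153661902), (nat_lit 13007715340), (nat_lit 13257075787), (nat_lit 13079721392)], (nat_lit 1100000), (nat_lit 1271251), (nat_lit 1271251), (nat_lit 1271251), (nat_lit 0), (nat_lit 780000), [(nat_lit 1695001), (nat_lit 1271251), (nat_lit 1271251)], [(nat_lit 28), (nat_lit 65), (nat_lit 401), (nat_lit 175), (nat_lit 9)]⟩⟩)) (.leaf ⟨(nat_lit 732), (nat_lit 116), (nat_lit 0), (nat_lit 152), (nat_lit 0), (nat_lit 3840), (nat_lit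 2063), (nat_lit 1740), (nat_lit 0), (nat_lit 0), (nat_lit 396150), [((nat_lit 360), [((nat_lit 21), (nat_lit 0), (nat_lit 123)), ((nat_lit 39), (nat_lit 2), (nat_lit 609))])], ⟨(nat_lit 6), false, false, false, (nat_lit 235), (nat_lit 3162), (nat_lit 3873), [(nat_lit 1414421), (nat_lit 1422280), (nat_lit 1501479), (nat_lit 1510785), (nat_lit 1672628), (nat_lit 1666215), (nat_lit 1759694), (nat_lit 1754728)]⟩, ⟨(nat_lit 6), false, false, true, (nat_lit 231), (nat_lit 3162), (nat_lit 3873), [(nat_lit 1477347), (nat_lit 1472332), (nat_lit 1542727), (nat_lit 1538797), (nat_lit 1622521), (nat_lit 1609477), (nat_lit 1687900), (nat_lit 1675942)]⟩, (nat_lit 5329113), (nat_lit 37880524), (nat_lit 14748870), (nat_lit 14370606), (nat_lit 6), (nat_lit 0), [], [⟨(nat_lit 1), (nat_lit 92), (nat_lit 68), (nat_lit 100), (nat_lit 204660587)⟩], [⟨(nat_lit 1), (nat_lit 64), (nat_lit 95), (nat_lit 100), (nat_lit 1375996)⟩], [],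
 ⟨⟨[(nat_lit 40), (nat_lit 60), (nat_lit 80)], [(nat_lit 0), (nat_lit 398), (nat_lit 992)], [((nat_lit 0), (nat_lit 0), (nat_lit 0)), ((nat_lit 1000), (nat_lit 814), (nat_lit 310)), ((nat_lit 1000), (nat_lit 752), (nat_lit 464))], ((nat_lit 73), (nat_lit 100), (nat_lit 55))⟩, (nat_lit 126143), (nat_lit 166), (nat_lit 166), (nat_lit 0), (nat_lit 317153), [(nat_lit 1473693332), (nat_lit 1786463006), (nat_lit 2025234594)], [(nat_lit 0), (nat_lit 0), (nat_lit 0)], [(nat_lit 21567771202), (nat_lit 22738719922), (nat_lit 25035302682), (nat_lit 26105488440), (nat_lit 25444202050), (nat_lit 26755279940), (nat_lit 28516829810), (nat_lit 29523708930)], (nat_lit 1271251), (nat_lit 1271251), (nat_lit 780000), (nat_lit 2090001), (nat_lit 1271251), (nat_lit 1271251), [(nat_lit 490000), (nat_lit 780000), (nat_lit 1100000)], [(nat_lit 2), (nat_lit 44), (nat_lit 289), (nat_lit 75), (nat_lit 12)]⟩,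
 ⟨⟨[(nat_lit 80), (nat_lit 120), (nat_lit 140)], [(nat_lit 0), (nat_lit 0), (nat_lit 1164)], [((nat_lit 0), (nat_lit 0), (nat_lit 0)), ((nat_lit 0), (nat_lit 0), (nat_lit 0)), ((nat_lit 941), (nat_lit 1000), (nat_lit 576))], ((nat_lit 100), (nat_lit 95), (nat_lit 55))⟩, (nat_lit 0), (nat_lit 297), (nat_lit 297), (nat_lit 0), (nat_lit 389007), [(nat_lit 1256384000), (nat_lit 2135424000), (nat_lit 2637656000)], [], [(nat_lit 10673079809), (nat_lit 8663967809), (nat_lit 9754384995), (nat_lit 9267843021), (nat_lit 13145488800), (nat_lit 10659650608), (nat_lit 18026818954), (nat_lit 14495548846)], (nat_lit 1271251), (nat_lit 1271251), (nat_lit 780000), (nat_lit 2090001), (nat_lit 780000), (nat_lit 3072501), [(nat_lit 1100000), (nat_lit 1785001), (nat_lit 1271251)], [(nat_lit 17), (nat_lit 58), (nat_lit 483), (nat_lit 250), (nat_lit 14)]⟩,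
 ⟨⟨[(nat_lit 140), (nat_lit 180), (nat_lit 200)], [(nat_lit 0), (nat_lit 0), (nat_lit 2835)], [((nat_lit 0), (nat_lit 0), (nat_lit 0)), ((nat_lit 0), (nat_lit 0), (nat_lit 0)), ((nat_lit 363), (nat_lit 1000), (nat_lit 798))], ((nat_lit 0), (nat_lit 0), (nat_lit 0))⟩, (nat_lit 41820), (nat_lit 300), (nat_lit 885), (nat_lit 11871202), (nat_lit 1149324), [(nat_lit 1495984000), (nat_lit 2136816000), (nat_lit 2492800000)], [], [(nat_lit 9524902440), (nat_lit 9143954706), (nat_lit 9304087450), (nat_lit 8909874517), (nat_lit 8473301536), (nat_lit 8075693900), (nat_lit 8254973790), (nat_lit 7843604571)], (nat_lit 780000), (nat_lit 1271251), (nat_lit 1271251), (nat_lit 1271251), (nat_lit 780000), (nat_lit 3072501), [(nat_lit 1977501), (nat_lit 1271251), (nat_lit 1271251)], [(nat_lit 32), (nat_lit 67), (nat_lit 483), (nat_lit 250), (nat_lit 10)]⟩⟩))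
noncomputable def c8_47 : Tr Lf :=
 (.stt (nat_lit 2) (.spl (nat_lit 1) (nat_lit 280) (.leaf ⟨(nat_lit 667), (nat_lit 236), (nat_lit 0), (nat_lit 97), (nat_lit 0), (nat_lit 3732), (nat_lit 2699), (nat_lit 739), (nat_lit 0), (nat_lit 0), (nat_lit 340700), [((nat_lit 360), [((nat_lit 21), (nat_lit 0), (nat_lit 170)), ((nat_lit 39), (nat_lit 2), (nat_lit 497))])], ⟨(nat_lit 6), true, false, false, (nat_lit 226), (nat_lit 3162), (nat_lit 3873), [(nat_lit 1414421), (nat_lit 1422280), (nat_lit 1457950), (nat_lit 1466533), (nat_lit 1672628), (nat_lit 1666215), (nat_lit 1716165), (nat_lit 1710475)]⟩, ⟨(nat_lit 4), false, false, false, (nat_lit 187), (nat_lit 3162), (nat_lit 3873), [(nat_lit 1349127), (nat_lit 1355902), (nat_lit 1392656), (nat_lit 1400154), (nat_lit 1542727), (nat_lit 1538797), (nat_lit 1586313), (nat_lit 1583107)]⟩, (nat_lit 4992363), (nat_lit 41358659), (nat_lit 14732503), (nat_lit 10908838), (nat_lit 4), (nat_lit 0), [⟨(nat_lit 0), (nat_lit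 94), (nat_lit 62), (nat_lit 100), (nat_lit 109701806)⟩], [], [], [],
 ⟨⟨[(nat_lit 40), (nat_lit 60), (nat_lit 80)], [(nat_lit 0), (nat_lit 398), (nat_lit 992)], [((nat_lit 0), (nat_lit 0), (nat_lit 0)), ((nat_lit 1000), (nat_lit 814), (nat_lit 310)), ((nat_lit 1000), (nat_lit 752), (nat_lit 464))], ((nat_lit 73), (nat_lit 100), (nat_lit 55))⟩, (nat_lit 1075340), (nat_lit 178), (nat_lit 178), (nat_lit 0), (nat_lit 400151), [(nat_lit 1515357611), (nat_lit 1932726064), (nat_lit 2332566536)], [(nat_lit 0), (nat_lit 0), (nat_lit 0)], [(nat_lit 18212631252), (nat_lit 19606294477), (nat_lit 22614427430), (nat_lit 24080097344), (nat_lit 20978378603), (nat_lit 22133778745), (nat_lit 24813555328), (nat_lit 26027219112)], (nat_lit 1271251), (nat_lit 1271251), (nat_lit 780000), (nat_lit 2090001), (nat_lit 780000), (nat_lit 1762501), [(nat_lit 490000), (nat_lit 780000), (nat_lit 1100000)], [(nat_lit 2), (nat_lit 44), (nat_lit 373), (nat_lit 150), (nat_lit 17)]⟩,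
 ⟨⟨[(nat_lit 80), (nat_lit 120), (nat_lit 140)], [(nat_lit 0), (nat_lit 0), (nat_lit 1164)], [((nat_lit 0), (nat_lit 0), (nat_lit 0)), ((nat_lit 0), (nat_lit 0), (nat_lit 0)), ((nat_lit 941), (nat_lit 1000), (nat_lit 576))], ((nat_lit 100), (nat_lit 95), (nat_lit 55))⟩, (nat_lit 883308), (nat_lit 177), (nat_lit 177), (nat_lit 0), (nat_lit 0), [(nat_lit 1561104000), (nat_lit 2653344000), (nat_lit 3277386000)], [], [(nat_lit 7491461412), (nat_lit 8760583214), (nat_lit 9659304512), (nat_lit 10531338015), (nat_lit 10850813486), (nat_lit 11322038771), (nat_lit 11188814188), (nat_lit 11544530195)], (nat_lit 0), (nat_lit 0), (nat_lit 0), (nat_lit 0), (nat_lit 0), (nat_lit 0), [], [(nat_lit 17), (nat_lit 58), (nat_lit 483), (nat_lit 250), (nat_lit 14)]⟩,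
 ⟨⟨[(nat_lit 120), (nat_lit 160), (nat_lit 180)], [(nat_lit 0), (nat_lit 533), (nat_lit 2066)], [((nat_lit 0), (nat_lit 0), (nat_lit 0)), ((nat_lit 960), (nat_lit 1000), (nat_lit 200)), ((nat_lit 615), (nat_lit 1000), (nat_lit 729))], ((nat_lit 100), (nat_lit 79), (nat_lit 55))⟩, (nat_lit 227122), (nat_lit 300), (nat_lit 1449), (nat_lit 6440800), (nat_lit 2269914), [(nat_lit 772896000), (nat_lit 1151584000), (nat_lit 1363626000)], [], [(nat_lit 8044115972), (nat_lit 7964499338), (nat_lit 7778202655), (nat_lit 7697965645), (nat_lit 7184302325), (nat_lit 7102317691), (nat_lit 6915929510), (nat_lit 6833822886)], (nat_lit 1271251), (nat_lit 1271251), (nat_lit 780000), (nat_lit 1762501), (nat_lit 0), (nat_lit 2825001), [(nat_lit 1695001), (nat_lit 1271251), (nat_lit 1271251)], [(nat_lit 28), (nat_lit 65), (nat_lit 470), (nat_lit 225), (nat_lit 11)]⟩⟩) (.leaf ⟨(nat_lit 0), (nat_lit 841), (nat_lit 0), (nat_lit 159), (nat_lit 0), (nat_lit 4607), (nat_lit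 6699), (nat_lit 1280), (nat_lit 0), (nat_lit 0), (nat_lit 0), [], Pd.none, Pd.none, (nat_lit 0), (nat_lit 1), (nat_lit 0), (nat_lit 0), (nat_lit 4), (nat_lit 0), [⟨(nat_lit 0), (nat_lit 88), (nat_lit 67), (nat_lit 100), (nat_lit 495297204)⟩], [], [⟨(nat_lit 1), (nat_lit 50), (nat_lit 87), (nat_lit 100), (nat_lit 141468338)⟩], [],
 ⟨⟨[(nat_lit 40), (nat_lit 60), (nat_lit 80)], [(nat_lit 0), (nat_lit 398), (nat_lit 992)], [((nat_lit 0), (nat_lit 0), (nat_lit 0)), ((nat_lit 1000), (nat_lit 814), (nat_lit 310)), ((nat_lit 1000), (nat_lit 752), (nat_lit 464))], ((nat_lit 73), (nat_lit 100), (nat_lit 55))⟩, (nat_lit 2805278), (nat_lit 220), (nat_lit 220), (nat_lit 0), (nat_lit 545963), [(nat_lit 2032000005), (nat_lit 3282000009), (nat_lit 4688000000)], [], [(nat_lit 19071463479), (nat_lit 20456818103), (nat_lit 23285598368), (nat_lit 24925209094), (nat_lit 21566377938), (nat_lit 22811795081), (nat_lit 25316093203), (nat_lit 26661345612)], (nat_lit 1271251),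 (nat_lit 1271251), (nat_lit 780000), (nat_lit 2090001), (nat_lit 780000), (nat_lit 1762501), [(nat_lit 490000), (nat_lit 780000), (nat_lit 1100000)], [(nat_lit 2), (nat_lit 44), (nat_lit 373), (nat_lit 150), (nat_lit 17)]⟩,
 ⟨⟨[(nat_lit 60), (nat_lit 100), (nat_lit 120)], [(nat_lit 0), (nat_lit 0), (nat_lit 1164)], [((nat_lit 0), (nat_lit 0), (nat_lit 0)), ((nat_lit 0), (nat_lit 0), (nat_lit 0)), ((nat_lit 1000), (nat_lit 933), (nat_lit 572))], ((nat_lit 93), (nat_lit 100), (nat_lit 55))⟩, (nat_lit 2151286), (nat_lit 155), (nat_lit 155), (nat_lit 0), (nat_lit 0), [(nat_lit 3282000000), (nat_lit 6250000000), (nat_lit 7968000000)], [], [(nat_lit 21530730810), (nat_lit 25349390660), (nat_lit 27658784211), (nat_lit 30321630554), (nat_lit 31568672232), (nat_lit 33230471168), (nat_lit 33052674607), (nat_lit 34411212296)], (nat_lit 0), (nat_lit 0), (nat_lit 0), (nat_lit 0), (nat_lit 0), (nat_lit 0), [], [(nat_lit 10), (nat_lit 54), (nat_lit 401), (nat_lit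 175), (nat_lit 13)]⟩,
 ⟨⟨[(nat_lit 120), (nat_lit 160), (nat_lit 180)], [(nat_lit 0), (nat_lit 533), (nat_lit 2066)], [((nat_lit 0), (nat_lit 0), (nat_lit 0)), ((nat_lit 960), (nat_lit 1000), (nat_lit 200)), ((nat_lit 615), (nat_lit 1000), (nat_lit 729))], ((nat_lit 100), (nat_lit 79), (nat_lit 55))⟩, (nat_lit 372293), (nat_lit 300), (nat_lit 1813), (nat_lit 10557600), (nat_lit 3038045), [(nat_lit 1266912000), (nat_lit 1887648000), (nat_lit 2235222000)], [], [(nat_lit 13475137273), (nat_lit 13331268760), (nat_lit 13009922950), (nat_lit 12866188722), (nat_lit 11966312360), (nat_lit 11822428365), (nat_lit 11508268940), (nat_lit 11362634877)], (nat_lit 1271251), (nat_lit 1271251), (nat_lit 780000), (nat_lit 1762501), (nat_lit 0), (nat_lit 2825001), [(nat_lit 1695001), (nat_lit 1271251), (nat_lit 1271251)], [(nat_lit 28), (nat_lit 65), (nat_lit 561), (nat_lit 225), (nat_lit 13)]⟩⟩)) (.spl (nat_lit 4) (nat_lit 200) (.spl (nat_lit 1) (nat_lit 280) (.leaf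 ⟨(nat_lit 918), (nat_lit 27), (nat_lit 0), (nat_lit 55), (nat_lit 0), (nat_lit 3508), (nat_lit 815), (nat_lit 574), (nat_lit 0), (nat_lit 0), (nat_lit 440000), [((nat_lit 360), [((nat_lit 21), (nat_lit 1), (nat_lit 554)), ((nat_lit 39), (nat_lit 2), (nat_lit 364))])], ⟨(nat_lit 6), false, false, false, (nat_lit 226), (nat_lit 3162), (nat_lit 3873), [(nat_lit 1414421), (nat_lit 1422280), (nat_lit 1457950), (nat_lit 1466533), (nat_lit 1672628), (nat_lit 1666215), (nat_lit 1716165), (nat_lit 1710475)]⟩, ⟨(nat_lit 4), false, false, false, (nat_lit 175), (nat_lit 3162), (nat_lit 3873), [(nat_lit 1349127), (nat_lit 1355902), (nat_lit 1392656), (nat_lit 1400154), (nat_lit 1478205), (nat_lit 1477844), (nat_lit 1521764), (nat_lit 1522126)]⟩, (nat_lit 4888954), (nat_lit 42181471), (nat_lit 14916744), (nat_lit 9901785), (nat_lit 4), (nat_lit 0), [], [], [], [],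
 ⟨⟨[(nat_lit 40), (nat_lit 60), (nat_lit 80)], [(nat_lit 0), (nat_lit 398), (nat_lit 992)], [((nat_lit 0), (nat_lit 0), (nat_lit 0)), ((nat_lit 1000), (nat_lit 814), (nat_lit 310)), ((nat_lit 1000), (nat_lit 752), (nat_lit 464))], ((nat_lit 73), (nat_lit 100), (nat_lit 55))⟩, (nat_lit 611), (nat_lit 115), (nat_lit 115), (nat_lit 0), (nat_lit 201563), [(nat_lit 1381016003), (nat_lit 1593161712), (nat_lit 1515806400)], [(nat_lit 0), (nat_lit 0), (nat_lit 0)], [(nat_lit 17972226904), (nat_lit 19498945986), (nat_lit 22669677329), (nat_lit 23890478798), (nat_lit 19723291701), (nat_lit 21065157364), (nat_lit 23851641793), (nat_lit 24942744490)], (nat_lit 1271251), (nat_lit 1271251), (nat_lit 780000), (nat_lit 2090001), (nat_lit 780000), (nat_lit 1435001), [(nat_lit 490000), (nat_lit 780000), (nat_lit 1100000)], [(nat_lit 2), (nat_lit 44), (nat_lit 345), (nat_lit 125), (nat_lit 15)]⟩,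
 ⟨⟨[(nat_lit 80), (nat_lit 120), (nat_lit 140)], [(nat_lit 0), (nat_lit 0), (nat_lit 1164)], [((nat_lit 0), (nat_lit 0), (nat_lit 0)), ((nat_lit 0), (nat_lit 0), (nat_lit 0)), ((nat_lit 941), (nat_lit 1000), (nat_lit 576))], ((nat_lit 100), (nat_lit 95), (nat_lit 55))⟩, (nat_lit 0), (nat_lit 572), (nat_lit 572), (nat_lit 0), (nat_lit 740574), [(nat_lit 384416000), (nat_lit 653376000), (nat_lit 807044000)], [], [(nat_lit 4532909470), (nat_lit 3664182225), (nat_lit 2991103524), (nat_lit 3055168696), (nat_lit 3421547306), (nat_lit 3037893438), (nat_lit 5296731194), (nat_lit 4615836999)], (nat_lit 1271251), (nat_lit 1271251), (nat_lit 780000), (nat_lit 2090001), (nat_lit 0), (nat_lit 2825001), [(nat_lit 1100000), (nat_lit 1785001), (nat_lit 1271251)], [(nat_lit 17), (nat_lit 58), (nat_lit 483), (nat_lit 250), (nat_lit 14)]⟩,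
 ⟨⟨[(nat_lit 120), (nat_lit 160), (nat_lit 180)], [(nat_lit 0), (nat_lit 533), (nat_lit 2066)], [((nat_lit 0), (nat_lit 0), (nat_lit 0)), ((nat_lit 960), (nat_lit 1000), (nat_lit 200)), ((nat_lit 615), (nat_lit 1000), (nat_lit 729))], ((nat_lit 100), (nat_lit 79), (nat_lit 55))⟩, (nat_lit 128780), (nat_lit 300), (nat_lit 1091), (nat_lit 3652002), (nat_lit 1480275), [(nat_lit 438240000), (nat_lit 652960000), (nat_lit 773190000)], [], [(nat_lit 3277310869), (nat_lit 3218858522), (nat_lit 3123248438), (nat_lit 3063404361), (nat_lit 3390618867), (nat_lit 2874040105), (nat_lit 4011938956), (nat_lit 3508350388)], (nat_lit 1271251), (nat_lit 1271251), (nat_lit 780000), (nat_lit 1435001), (nat_lit 0), (nat_lit 2825001), [(nat_lit 1695001), (nat_lit 1271251), (nat_lit 1271251)], [(nat_lit 28), (nat_lit 65), (nat_lit 456), (nat_lit 225), (nat_lit 11)]⟩⟩) (.spl (nat_lit 1) (nat_lit 300) (.leaf ⟨(nat_lit 817), (nat_lit 117), (nat_lit 0), (nat_lit 66), (nat_lit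 0), (nat_lit 3561), (nat_lit 1212), (nat_lit 606), (nat_lit 0), (nat_lit 0), (nat_lit 481000), [((nat_lit 360), [((nat_lit 21), (nat_lit 1), (nat_lit 220)), ((nat_lit 39), (nat_lit 2), (nat_lit 510)), ((nat_lit 21), (nat_lit 2), (nat_lit 87))])], ⟨(nat_lit 7), false, false, false, (nat_lit 240), (nat_lit 3162), (nat_lit 3873), [(nat_lit 1457950), (nat_lit 1466533), (nat_lit 1479715), (nat_lit 1488659), (nat_lit 1716165), (nat_lit 1710475), (nat_lit 1737930), (nat_lit 1732601)]⟩, ⟨(nat_lit 4), false, false, false, (nat_lit 175), (nat_lit 3162), (nat_lit 3873), [(nat_lit 1349127), (nat_lit 1355902), (nat_lit 1392656), (nat_lit 1400154), (nat_lit 1478205), (nat_lit 1477844), (nat_lit 1521764), (nat_lit 1522126)]⟩, (nat_lit 4965624), (nat_lit 41152747), (nat_lit 16094736), (nat_lit 9752517), (nat_lit 4), (nat_lit 0), [], [], [], [],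
 ⟨⟨[(nat_lit 40), (nat_lit 60), (nat_lit 80)], [(nat_lit 0), (nat_lit 398), (nat_lit 992)], [((nat_lit 0), (nat_lit 0), (nat_lit 0)), ((nat_lit 1000), (nat_lit 814), (nat_lit 310)), ((nat_lit 1000), (nat_lit 752), (nat_lit 464))], ((nat_lit 73), (nat_lit 100), (nat_lit 55))⟩, (nat_lit 867), (nat_lit 121), (nat_lit 121), (nat_lit 0), (nat_lit 227016), [(nat_lit 1420974619), (nat_lit 1685531321), (nat_lit 1580618000)], [(nat_lit 0), (nat_lit 0), (nat_lit 0)], [(nat_lit 18006281245), (nat_lit 19545562790), (nat_lit 22711446077), (nat_lit 23940781169), (nat_lit 19754142338), (nat_lit 21105862203), (nat_lit 23884191615), (nat_lit 24982294018)], (nat_lit 1271251), (nat_lit 1271251), (nat_lit 780000), (nat_lit 2090001), (nat_lit 780000), (nat_lit 1435001), [(nat_lit 490000), (nat_lit 780000), (nat_lit 1100000)], [(nat_lit 2), (nat_lit 44), (nat_lit 345), (nat_lit 125), (nat_lit 15)]⟩,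
 ⟨⟨[(nat_lit 60), (nat_lit 100), (nat_lit 120)], [(nat_lit 0), (nat_lit 0), (nat_lit 1164)], [((nat_lit 0), (nat_lit 0), (nat_lit 0)), ((nat_lit 0), (nat_lit 0), (nat_lit 0)), ((nat_lit 1000), (nat_lit 933), (nat_lit 572))], ((nat_lit 93), (nat_lit 100), (nat_lit 55))⟩, (nat_lit 0), (nat_lit 459), (nat_lit 459), (nat_lit 0), (nat_lit 700159), [(nat_lit 600606000), (nat_lit 1143750000), (nat_lit 1458144000)], [], [(nat_lit 7271210556), (nat_lit 6779757093), (nat_lit 7029010233), (nat_lit 7139182169), (nat_lit 7171244250), (nat_lit 7232316858), (nat_lit 9286815036), (nat_lit 8768165088)], (nat_lit 1271251), (nat_lit 1271251), (nat_lit 780000), (nat_lit 2090001), (nat_lit 0), (nat_lit 2825001), [(nat_lit 780000), (nat_lit 1435001), (nat_lit 1271251)], [(nat_lit 10), (nat_lit 54), (nat_lit 401), (nat_lit 175), (nat_lit 13)]⟩,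
 ⟨⟨[(nat_lit 120), (nat_lit 160), (nat_lit 180)], [(nat_lit 0), (nat_lit 533), (nat_lit 2066)], [((nat_lit 0), (nat_lit 0), (nat_lit 0)), ((nat_lit 960), (nat_lit 1000), (nat_lit 200)), ((nat_lit 615), (nat_lit 1000), (nat_lit 729))], ((nat_lit 100), (nat_lit 79), (nat_lit 55))⟩, (nat_lit 154537), (nat_lit 300), (nat_lit 1171), (nat_lit 4382400), (nat_lit 1667811), [(nat_lit 525888000), (nat_lit 783552000), (nat_lit 927828000)], [], [(nat_lit 4398063994), (nat_lit 4331974713), (nat_lit 4237023880), (nat_lit 4170275988), (nat_lit 3953174499), (nat_lit 3593346209), (nat_lit 4629919224), (nat_lit 4098256032)], (nat_lit 1271251), (nat_lit 1271251), (nat_lit 780000), (nat_lit 1435001), (nat_lit 0), (nat_lit 2825001), [(nat_lit 1695001), (nat_lit 1271251), (nat_lit 1271251)], [(nat_lit 28), (nat_lit 65), (nat_lit 456), (nat_lit 225), (nat_lit 11)]⟩⟩) (.trZ (nat_lit 0) (nat_lit 1) (nat_lit 3) (nat_lit 90) (nat_lit 74) (nat_lit 100) (nat_lit 140) (.trZ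 (nat_lit 1) (nat_lit 2) (nat_lit 5) (nat_lit 100) (nat_lit 87) (nat_lit 41) (nat_lit 10) (.trX (nat_lit 5) (nat_lit 1) (nat_lit 2) (nat_lit 87) (nat_lit 41) (nat_lit 100) (nat_lit 390) (.leaf ⟨(nat_lit 0), (nat_lit 693), (nat_lit 0), (nat_lit 307), (nat_lit 0), (nat_lit 5362), (nat_lit 5517), (nat_lit 2396), (nat_lit 0), (nat_lit 0), (nat_lit 0), [], Pd.none, Pd.none, (nat_lit 0), (nat_lit 1), (nat_lit 0), (nat_lit 0), (nat_lit 4), (nat_lit 0), [], [], [⟨(nat_lit 1), (nat_lit 55), (nat_lit 84), (nat_lit 100), (nat_lit 679778)⟩], [],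
 ⟨⟨[(nat_lit 40), (nat_lit 60), (nat_lit 80)], [(nat_lit 0), (nat_lit 398), (nat_lit 992)], [((nat_lit 0), (nat_lit 0), (nat_lit 0)), ((nat_lit 1000), (nat_lit 814), (nat_lit 310)), ((nat_lit 1000), (nat_lit 752), (nat_lit 464))], ((nat_lit 73), (nat_lit 100), (nat_lit 55))⟩, (nat_lit 926969), (nat_lit 128), (nat_lit 128), (nat_lit 0), (nat_lit 256212), [(nat_lit 2128288076), (nat_lit 3282000204), (nat_lit 4688000000)], [], [(nat_lit 19472782565), (nat_lit 21249491161), (nat_lit 24125742264), (nat_lit 25654419804), (nat_lit 20977474604), (nat_lit 22539420625), (nat_lit 24985218260), (nat_lit 26326515311)], (nat_lit 1271251), (nat_lit 1271251), (nat_lit 936250), (nat_lit 2108751), (nat_lit 780000), (nat_lit 1435001), [(nat_lit 490000), (nat_lit 780000), (nat_lit 1100000)], [(nat_lit 2), (nat_lit 44), (nat_lit 345), (nat_lit 125), (nat_lit 15)]⟩,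
 ⟨⟨[(nat_lit 60), (nat_lit 100), (nat_lit 120)], [(nat_lit 0), (nat_lit 609), (nat_lit 1609)], [((nat_lit 0), (nat_lit 0), (nat_lit 0)), ((nat_lit 1000), (nat_lit 905), (nat_lit 238)), ((nat_lit 1000), (nat_lit 882), (nat_lit 668))], ((nat_lit 87), (nat_lit 100), (nat_lit 54))⟩, (nat_lit 5817943), (nat_lit 451), (nat_lit 451), (nat_lit 0), (nat_lit 709625), [(nat_lit 3282000000), (nat_lit 6250000000), (nat_lit 7968000000)], [], [(nat_lit 27202291350), (nat_lit 24295390257), (nat_lit 26428055134), (nat_lit 27157926609), (nat_lit 29487555843), (nat_lit 30297291670), (nat_lit 43426919821), (nat_lit 41087317010)], (nat_lit 1271251), (nat_lit 1271251), (nat_lit 936250), (nat_lit 2108751), (nat_lit 54688), (nat_lit 2774063), [(nat_lit 780000), (nat_lit 1435001), (nat_lit 1271251)], [(nat_lit 10), (nat_lit 54), (nat_lit 401), (nat_lit 175), (nat_lit 13)]⟩,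
 ⟨⟨[(nat_lit 120), (nat_lit 160), (nat_lit 180)], [(nat_lit 0), (nat_lit 533), (nat_lit 2066)], [((nat_lit 0), (nat_lit 0), (nat_lit 0)), ((nat_lit 960), (nat_lit 1000), (nat_lit 200)), ((nat_lit 615), (nat_lit 1000), (nat_lit 729))], ((nat_lit 100), (nat_lit 79), (nat_lit 55))⟩, (nat_lit 718829), (nat_lit 300), (nat_lit 1266), (nat_lit 20384801), (nat_lit 1885447), [(nat_lit 2446176000), (nat_lit 3644704000), (nat_lit 4315806000)], [], [(nat_lit 23811445998), (nat_lit 23560518675), (nat_lit 23205707814), (nat_lit 22952783228), (nat_lit 21190926618), (nat_lit 20926519587), (nat_lit 20579409633), (nat_lit 20311045729)], (nat_lit 1271251), (nat_lit 1271251), (nat_lit 780000), (nat_lit 1435001), (nat_lit 54688), (nat_lit 2774063), [(nat_lit 1695001), (nat_lit 1271251), (nat_lit 1271251)], [(nat_lit 28), (nat_lit 65), (nat_lit 456), (nat_lit 225), (nat_lit 11)]⟩⟩)))))) (.spl (nat_lit 1) (nat_lit 280) (.leaf ⟨(nat_lit 891), (nat_lit 51), (nat_lit 0),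 (nat_lit 58), (nat_lit 0), (nat_lit 3477), (nat_lit 898), (nat_lit 647), (nat_lit 0), (nat_lit 0), (nat_lit 456400), [((nat_lit 360), [((nat_lit 21), (nat_lit 1), (nat_lit 391)), ((nat_lit 39), (nat_lit 2), (nat_lit 500))])], ⟨(nat_lit 6), false, false, false, (nat_lit 226), (nat_lit 3162), (nat_lit 3873), [(nat_lit 1414421), (nat_lit 1422280), (nat_lit 1457950), (nat_lit 1466533), (nat_lit 1672628), (nat_lit 1666215), (nat_lit 1716165), (nat_lit 1710475)]⟩, ⟨(nat_lit 5), false, true, true, (nat_lit 213), (nat_lit 3162), (nat_lit 3873), [(nat_lit 1478205), (nat_lit 1477844), (nat_lit 1521764), (nat_lit 1522126), (nat_lit 1542727), (nat_lit 1538797), (nat_lit 1586313), (nat_lit 1583107)]⟩, (nat_lit 5171547), (nat_lit 39698501), (nat_lit 14337669), (nat_lit 12963830), (nat_lit 5), (nat_lit 0), [], [], [], [],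
 ⟨⟨[(nat_lit 40), (nat_lit 60), (nat_lit 80)], [(nat_lit 0), (nat_lit 398), (nat_lit 992)], [((nat_lit 0), (nat_lit 0), (nat_lit 0)), ((nat_lit 1000), (nat_lit 814), (nat_lit 310)), ((nat_lit 1000), (nat_lit 752), (nat_lit 464))], ((nat_lit 73), (nat_lit 100), (nat_lit 55))⟩, (nat_lit 0), (nat_lit 105), (nat_lit 105), (nat_lit 0), (nat_lit 201563), [(nat_lit 1388767254), (nat_lit 1596032005), (nat_lit 1516036000)], [(nat_lit 0), (nat_lit 0), (nat_lit 0)], [(nat_lit 19774966107), (nat_lit 21110731830), (nat_lit 23872361939), (nat_lit 24957661552), (nat_lit 20990405368), (nat_lit 22235237875), (nat_lit 24779184418), (nat_lit 25842416532)], (nat_lit 1271251), (nat_lit 1271251), (nat_lit 780000), (nat_lit 2090001), (nat_lit 1271251), (nat_lit 1271251), [(nat_lit 490000), (nat_lit 780000), (nat_lit 1100000)], [(nat_lit 2), (nat_lit 44), (nat_lit 289), (nat_lit 75), (nat_lit 12)]⟩,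
 ⟨⟨[(nat_lit 80), (nat_lit 120), (nat_lit 140)], [(nat_lit 0), (nat_lit 0), (nat_lit 1164)], [((nat_lit 0), (nat_lit 0), (nat_lit 0)), ((nat_lit 0), (nat_lit 0), (nat_lit 0)), ((nat_lit 941), (nat_lit 1000), (nat_lit 576))], ((nat_lit 100), (nat_lit 95), (nat_lit 55))⟩, (nat_lit 0), (nat_lit 572), (nat_lit 572), (nat_lit 0), (nat_lit 740574), [(nat_lit 510992000), (nat_lit 868512000), (nat_lit 1072778000)], [], [(nat_lit 5542379308), (nat_lit 4585180454), (nat_lit 4557615148), (nat_lit 4643205341), (nat_lit 4606392836), (nat_lit 4438484462), (nat_lit 6770267624), (nat_lit 6020030830)], (nat_lit 1271251), (nat_lit 1271251), (nat_lit 780000), (nat_lit 2090001), (nat_lit 0), (nat_lit 2825001), [(nat_lit 1100000), (nat_lit 1785001), (nat_lit 1271251)], [(nat_lit 17), (nat_lit 58), (nat_lit 483), (nat_lit 250), (nat_lit 14)]⟩,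
 ⟨⟨[(nat_lit 120), (nat_lit 160), (nat_lit 180)], [(nat_lit 0), (nat_lit 533), (nat_lit 2066)], [((nat_lit 0), (nat_lit 0), (nat_lit 0)), ((nat_lit 960), (nat_lit 1000), (nat_lit 200)), ((nat_lit 615), (nat_lit 1000), (nat_lit 729))], ((nat_lit 100), (nat_lit 79), (nat_lit 55))⟩, (nat_lit 135805), (nat_lit 300), (nat_lit 1042), (nat_lit 3851200), (nat_lit 1480275), [(nat_lit 462144000), (nat_lit 688576000), (nat_lit 815364000)], [], [(nat_lit 3150192345), (nat_lit 3091883622), (nat_lit 3092899602), (nat_lit 3032558918), (nat_lit 3861848648), (nat_lit 3294214844), (nat_lit 3290651815), (nat_lit 2730144069)], (nat_lit 1271251), (nat_lit 1271251), (nat_lit 1271251), (nat_lit 1271251), (nat_lit 0), (nat_lit 2825001), [(nat_lit 1695001), (nat_lit 1271251), (nat_lit 1271251)], [(nat_lit 28), (nat_lit 65), (nat_lit 456), (nat_lit 225), (nat_lit 11)]⟩⟩) (.spl (nat_lit 1) (nat_lit 300) (.leaf ⟨(nat_lit 833), (nat_lit 99), (nat_lit 0), (nat_lit 68), (nat_lit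 0), (nat_lit 3512), (nat_lit 1137), (nat_lit 696), (nat_lit 0), (nat_lit 0), (nat_lit 572000), [((nat_lit 360), [((nat_lit 21), (nat_lit 1), (nat_lit 435)), ((nat_lit 21), (nat_lit 2), (nat_lit 398))])], ⟨(nat_lit 7), false, false, false, (nat_lit 240), (nat_lit 3162), (nat_lit 3873), [(nat_lit 1457950), (nat_lit 1466533), (nat_lit 1479715), (nat_lit 1488659), (nat_lit 1716165), (nat_lit 1710475), (nat_lit 1737930), (nat_lit 1732601)]⟩, ⟨(nat_lit 5), false, true, true, (nat_lit 213), (nat_lit 3162), (nat_lit 3873), [(nat_lit 1478205), (nat_lit 1477844), (nat_lit 1521764), (nat_lit 1522126), (nat_lit 1542727), (nat_lit 1538797), (nat_lit 1586313), (nat_lit 1583107)]⟩, (nat_lit 5242466), (nat_lit 38785277), (nat_lit 15456627), (nat_lit 12758096), (nat_lit 5), (nat_lit 0), [⟨(nat_lit 0), (nat_lit 87), (nat_lit 60), (nat_lit 100), (nat_lit 500192)⟩], [], [], [],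
 ⟨⟨[(nat_lit 40), (nat_lit 60), (nat_lit 80)], [(nat_lit 0), (nat_lit 398), (nat_lit 992)], [((nat_lit 0), (nat_lit 0), (nat_lit 0)), ((nat_lit 1000), (nat_lit 814), (nat_lit 310)), ((nat_lit 1000), (nat_lit 752), (nat_lit 464))], ((nat_lit 73), (nat_lit 100), (nat_lit 55))⟩, (nat_lit 1545), (nat_lit 112), (nat_lit 112), (nat_lit 0), (nat_lit 227016), [(nat_lit 1415245473), (nat_lit 1494598890), (nat_lit 1258888000)], [(nat_lit 0), (nat_lit 0), (nat_lit 0)], [(nat_lit 19494116573), (nat_lit 20836455489), (nat_lit 23679570684), (nat_lit 24945729360), (nat_lit 20711263589), (nat_lit 21961874696), (nat_lit 24687202948), (nat_lit 25867781592)], (nat_lit 1271251), (nat_lit 1271251), (nat_lit 780000), (nat_lit 2090001), (nat_lit 1271251), (nat_lit 1271251), [(nat_lit 490000), (nat_lit 780000), (nat_lit 1100000)], [(nat_lit 2), (nat_lit 44), (nat_lit 289), (nat_lit 75), (nat_lit 12)]⟩,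
 ⟨⟨[(nat_lit 60), (nat_lit 100), (nat_lit 120)], [(nat_lit 0), (nat_lit 0), (nat_lit 1164)], [((nat_lit 0), (nat_lit 0), (nat_lit 0)), ((nat_lit 0), (nat_lit 0), (nat_lit 0)), ((nat_lit 1000), (nat_lit 933), (nat_lit 572))], ((nat_lit 93), (nat_lit 100), (nat_lit 55))⟩, (nat_lit 0), (nat_lit 459), (nat_lit 459), (nat_lit 0), (nat_lit 700159), [(nat_lit 548094000), (nat_lit 1043750000), (nat_lit 1330656000)], [], [(nat_lit 6683175191), (nat_lit 6077197966), (nat_lit 6321551189), (nat_lit 6422818862), (nat_lit 6434606247), (nat_lit 6490093062), (nat_lit 8493287476), (nat_lit 8006732203)], (nat_lit 1271251), (nat_lit 1271251), (nat_lit 780000), (nat_lit 2090001), (nat_lit 0), (nat_lit 2825001), [(nat_lit 780000), (nat_lit 1435001), (nat_lit 1271251)], [(nat_lit 10), (nat_lit 54), (nat_lit 401), (nat_lit 175), (nat_lit 13)]⟩,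
 ⟨⟨[(nat_lit 120), (nat_lit 160), (nat_lit 180)], [(nat_lit 0), (nat_lit 533), (nat_lit 2066)], [((nat_lit 0), (nat_lit 0), (nat_lit 0)), ((nat_lit 960), (nat_lit 1000), (nat_lit 200)), ((nat_lit 615), (nat_lit 1000), (nat_lit 729))], ((nat_lit 100), (nat_lit 79), (nat_lit 55))⟩, (nat_lit 159220), (nat_lit 300), (nat_lit 1133), (nat_lit 4515200), (nat_lit 1667811), [(nat_lit 541824000), (nat_lit 807296000), (nat_lit 955944000)], [], [(nat_lit 3924059410), (nat_lit 3852187222), (nat_lit 3852852964), (nat_lit 3779649292), (nat_lit 4429344304), (nat_lit 3818721232), (nat_lit 3814888360), (nat_lit 3211931032)], (nat_lit 1271251), (nat_lit 1271251), (nat_lit 1271251), (nat_lit 1271251), (nat_lit 0), (nat_lit 2825001), [(nat_lit 1695001), (nat_lit 1271251), (nat_lit 1271251)], [(nat_lit 28), (nat_lit 65), (nat_lit 456), (nat_lit 225), (nat_lit 11)]⟩⟩) (.trZ (nat_lit 0) (nat_lit 1) (nat_lit 3) (nat_lit 90) (nat_lit 74) (nat_lit 100) (nat_lit 140) (.trZ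 (nat_lit 1) (nat_lit 2) (nat_lit 5) (nat_lit 100) (nat_lit 87) (nat_lit 41) (nat_lit 10) (.trX (nat_lit 5) (nat_lit 1) (nat_lit 2) (nat_lit 87) (nat_lit 41) (nat_lit 100) (nat_lit 390) (.leaf ⟨(nat_lit 0), (nat_lit 671), (nat_lit 0), (nat_lit 329), (nat_lit 0), (nat_lit 6103), (nat_lit 6590), (nat_lit 2760), (nat_lit 0), (nat_lit 0), (nat_lit 0), [], Pd.none, Pd.none, (nat_lit 0), (nat_lit 1), (nat_lit 0), (nat_lit 0), (nat_lit 5), (nat_lit 0), [], [], [], [],
 ⟨⟨[(nat_lit 40), (nat_lit 60), (nat_lit 80)], [(nat_lit 0), (nat_lit 398), (nat_lit 992)], [((nat_lit 0), (nat_lit 0), (nat_lit 0)), ((nat_lit 1000), (nat_lit 814), (nat_lit 310)), ((nat_lit 1000), (nat_lit 752), (nat_lit 464))], ((nat_lit 73), (nat_lit 100), (nat_lit 55))⟩, (nat_lit 0), (nat_lit 116), (nat_lit 116), (nat_lit 0), (nat_lit 256212), [(nat_lit 2376907698), (nat_lit 3730039994), (nat_lit 4688000000)], [], [(nat_lit 21150519422), (nat_lit 23048866881), (nat_lit 25457265862), (nat_lit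 26898739259), (nat_lit 22496239809), (nat_lit 24247010934), (nat_lit 26329403033), (nat_lit 27745520748)], (nat_lit 1271251), (nat_lit 1271251), (nat_lit 936250), (nat_lit 2108751), (nat_lit 1271251), (nat_lit 1271251), [(nat_lit 490000), (nat_lit 780000), (nat_lit 1100000)], [(nat_lit 2), (nat_lit 44), (nat_lit 289), (nat_lit 75), (nat_lit 12)]⟩,
 ⟨⟨[(nat_lit 60), (nat_lit 100), (nat_lit 120)], [(nat_lit 0), (nat_lit 609), (nat_lit 1609)], [((nat_lit 0), (nat_lit 0), (nat_lit 0)), ((nat_lit 1000), (nat_lit 905), (nat_lit 238)), ((nat_lit 1000), (nat_lit 882), (nat_lit 668))], ((nat_lit 87), (nat_lit 100), (nat_lit 54))⟩, (nat_lit 7991688), (nat_lit 451), (nat_lit 451), (nat_lit 0), (nat_lit 709625), [(nat_lit 3282000000), (nat_lit 6250000000), (nat_lit 7968000000)], [], [(nat_lit 26114470363), (nat_lit 22642206777), (nat_lit 25960464782), (nat_lit 27799919243), (nat_lit 30634250391), (nat_lit 31688679607), (nat_lit 42001924478), (nat_lit 39207292881)],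 (nat_lit 1271251), (nat_lit 1271251), (nat_lit 936250), (nat_lit 2108751), (nat_lit 54688), (nat_lit 2774063), [(nat_lit 780000), (nat_lit 1435001), (nat_lit 1271251)], [(nat_lit 10), (nat_lit 54), (nat_lit 401), (nat_lit 175), (nat_lit 13)]⟩,
 ⟨⟨[(nat_lit 120), (nat_lit 160), (nat_lit 180)], [(nat_lit 0), (nat_lit 533), (nat_lit 2066)], [((nat_lit 0), (nat_lit 0), (nat_lit 0)), ((nat_lit 960), (nat_lit 1000), (nat_lit 200)), ((nat_lit 615), (nat_lit 1000), (nat_lit 729))], ((nat_lit 100), (nat_lit 79), (nat_lit 55))⟩, (nat_lit 770342), (nat_lit 300), (nat_lit 1219), (nat_lit 21845600), (nat_lit 1885447), [(nat_lit 2621472000), (nat_lit 3905888000), (nat_lit 4625082000)], [], [(nat_lit 22949889145), (nat_lit 22655816211), (nat_lit 22657075813), (nat_lit 22360483674), (nat_lit 20462951875), (nat_lit 19568986131), (nat_lit 19569644079), (nat_lit 19258044728)], (nat_lit 1271251), (nat_lit 1271251), (nat_lit 1271251), (nat_lit 1271251), (nat_lit 54688),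 (nat_lit 2774063), [(nat_lit 1695001), (nat_lit 1271251), (nat_lit 1271251)], [(nat_lit 28), (nat_lit 65), (nat_lit 456), (nat_lit 225), (nat_lit 11)]⟩⟩))))))))
noncomputable def c8_48 : Tr Lf :=
 (.spl (nat_lit 1) (nat_lit 280) (.spl (nat_lit 5) (nat_lit 200) (.leaf ⟨(nat_lit 0), (nat_lit 847), (nat_lit 0), (nat_lit 153), (nat_lit 0), (nat_lit 5074), (nat_lit 11352), (nat_lit 1582), (nat_lit 0), (nat_lit 0), (nat_lit 0), [], Pd.none, Pd.none, (nat_lit 0), (nat_lit 1), (nat_lit 0), (nat_lit 0), (nat_lit 6), (nat_lit 0), [⟨(nat_lit 0), (nat_lit 100), (nat_lit 69), (nat_lit 96), (nat_lit 259286960)⟩], [⟨(nat_lit 1), (nat_lit 75), (nat_lit 66), (nat_lit 100), (nat_lit 483530680)⟩], [⟨(nat_lit 0), (nat_lit 100), (nat_lit 95), (nat_lit 30), (nat_lit 172884916)⟩], [],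
 ⟨⟨[(nat_lit 40), (nat_lit 60), (nat_lit 80)], [(nat_lit 0), (nat_lit 398), (nat_lit 992)], [((nat_lit 0), (nat_lit 0), (nat_lit 0)), ((nat_lit 1000), (nat_lit 814), (nat_lit 310)), ((nat_lit 1000), (nat_lit 752), (nat_lit 464))], ((nat_lit 73), (nat_lit 100), (nat_lit 55))⟩, (nat_lit 784361), (nat_lit 197), (nat_lit 197), (nat_lit 0), (nat_lit 400151), [(nat_lit 2032000043), (nat_lit 3282000013), (nat_lit 4688000000)], [], [(nat_lit 23809527363), (nat_lit 25011306065), (nat_lit 26878138817), (nat_lit 27796364692), (nat_lit 28962076081), (nat_lit 30345011464), (nat_lit 31246569114), (nat_lit 32292925796)], (nat_lit 1271251), (nat_lit 1271251), (nat_lit 780000), (nat_lit 2090001), (nat_lit 1271251), (nat_lit 1271251), [(nat_lit 490000), (nat_lit 780000), (nat_lit 1100000)], [(nat_lit 2), (nat_lit 44), (nat_lit 289), (nat_lit 75), (nat_lit 12)]⟩,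
 ⟨⟨[(nat_lit 80), (nat_lit 120), (nat_lit 140)], [(nat_lit 0), (nat_lit 0), (nat_lit 1164)], [((nat_lit 0), (nat_lit 0), (nat_lit 0)), ((nat_lit 0), (nat_lit 0), (nat_lit 0)), ((nat_lit 941), (nat_lit 1000), (nat_lit 576))], ((nat_lit 100), (nat_lit 95), (nat_lit 55))⟩, (nat_lit 5387677), (nat_lit 177), (nat_lit 177), (nat_lit 0), (nat_lit 0), [(nat_lit 4688000000), (nat_lit 7968000000), (nat_lit 9842000000)], [], [(nat_lit 19113423300), (nat_lit 23897619604), (nat_lit 27503887456), (nat_lit 31518849360), (nat_lit 13082479400), (nat_lit 17174032288), (nat_lit 19571818856), (nat_lit 22296647744)], (nat_lit 0), (nat_lit 0), (nat_lit 0), (nat_lit 0), (nat_lit 0), (nat_lit 0), [], [(nat_lit 17), (nat_lit 58), (nat_lit 428), (nat_lit 200), (nat_lit 12)]⟩,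
 ⟨⟨[(nat_lit 120), (nat_lit 160), (nat_lit 180)], [(nat_lit 0), (nat_lit 533), (nat_lit 2066)], [((nat_lit 0), (nat_lit 0), (nat_lit 0)), ((nat_lit 960), (nat_lit 1000), (nat_lit 200)), ((nat_lit 615), (nat_lit 1000), (nat_lit 729))], ((nat_lit 100), (nat_lit 79), (nat_lit 55))⟩, (nat_lit 358244), (nat_lit 300), (nat_lit 1385), (nat_lit 10159200), (nat_lit 2269914), [(nat_lit 1219104000), (nat_lit 1816416000), (nat_lit 2150874000)], [], [(nat_lit 8593206705), (nat_lit 8426002667), (nat_lit 8504316953), (nat_lit 8352988618), (nat_lit 7121217191), (nat_lit 6954015884), (nat_lit 6942250069), (nat_lit 6777759858)], (nat_lit 1271251), (nat_lit 1271251), (nat_lit 1271251), (nat_lit 1271251), (nat_lit 0), (nat_lit 1412501), [(nat_lit 1695001), (nat_lit 1271251), (nat_lit 1271251)], [(nat_lit 28), (nat_lit 65), (nat_lit 444), (nat_lit 200), (nat_lit 10)]⟩⟩) (.leaf ⟨(nat_lit 0), (nat_lit 882), (nat_lit 0), (nat_lit 118), (nat_lit 0), (nat_lit 4259), (nat_lit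 8830), (nat_lit 1126), (nat_lit 0), (nat_lit 0), (nat_lit 0), [], Pd.none, Pd.none, (nat_lit 0), (nat_lit 1), (nat_lit 0), (nat_lit 0), (nat_lit 6), (nat_lit 0), [], [⟨(nat_lit 1), (nat_lit 75), (nat_lit 66), (nat_lit 100), (nat_lit 186652678)⟩], [], [⟨(nat_lit 2), (nat_lit 50), (nat_lit 87), (nat_lit 100), (nat_lit 551711817)⟩],
 ⟨⟨[(nat_lit 40), (nat_lit 60), (nat_lit 80)], [(nat_lit 0), (nat_lit 398), (nat_lit 992)], [((nat_lit 0), (nat_lit 0), (nat_lit 0)), ((nat_lit 1000), (nat_lit 814), (nat_lit 310)), ((nat_lit 1000), (nat_lit 752), (nat_lit 464))], ((nat_lit 73), (nat_lit 100), (nat_lit 55))⟩, (nat_lit 3451824), (nat_lit 197), (nat_lit 197), (nat_lit 0), (nat_lit 400151), [(nat_lit 2032000006), (nat_lit 3282000016), (nat_lit 4688000000)], [], [(nat_lit 21598885894), (nat_lit 22835542349), (nat_lit 25382734040), (nat_lit 26410314139), (nat_lit 27902641442), (nat_lit 29168774124), (nat_lit 30416319649), (nat_lit 31386846286)], (nat_lit 1271251),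 (nat_lit 1271251), (nat_lit 780000), (nat_lit 2090001), (nat_lit 1271251), (nat_lit 1271251), [(nat_lit 490000), (nat_lit 780000), (nat_lit 1100000)], [(nat_lit 2), (nat_lit 44), (nat_lit 289), (nat_lit 75), (nat_lit 12)]⟩,
 ⟨⟨[(nat_lit 80), (nat_lit 120), (nat_lit 140)], [(nat_lit 0), (nat_lit 0), (nat_lit 1164)], [((nat_lit 0), (nat_lit 0), (nat_lit 0)), ((nat_lit 0), (nat_lit 0), (nat_lit 0)), ((nat_lit 941), (nat_lit 1000), (nat_lit 576))], ((nat_lit 100), (nat_lit 95), (nat_lit 55))⟩, (nat_lit 0), (nat_lit 116), (nat_lit 116), (nat_lit 0), (nat_lit 0), [(nat_lit 4688000000), (nat_lit 7968000000), (nat_lit 9842000000)], [], [(nat_lit 16360368440), (nat_lit 19700271770), (nat_lit 22220793990), (nat_lit 24585780135), (nat_lit 32299848920), (nat_lit 33962662560), (nat_lit 33682494700), (nat_lit 35272715510)], (nat_lit 0), (nat_lit 0), (nat_lit 0), (nat_lit 0), (nat_lit 0), (nat_lit 0), [], [(nat_lit 17), (nat_lit 58), (nat_lit 483), (nat_lit 250),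 (nat_lit 13)]⟩,
 ⟨⟨[(nat_lit 120), (nat_lit 160), (nat_lit 180)], [(nat_lit 0), (nat_lit 533), (nat_lit 2066)], [((nat_lit 0), (nat_lit 0), (nat_lit 0)), ((nat_lit 960), (nat_lit 1000), (nat_lit 200)), ((nat_lit 615), (nat_lit 1000), (nat_lit 729))], ((nat_lit 100), (nat_lit 79), (nat_lit 55))⟩, (nat_lit 276293), (nat_lit 300), (nat_lit 1271), (nat_lit 7835200), (nat_lit 2269914), [(nat_lit 940224000), (nat_lit 1400896000), (nat_lit 1658844000)], [], [(nat_lit 6268952371), (nat_lit 6139801284), (nat_lit 6014668020), (nat_lit 5881397664), (nat_lit 5814385814), (nat_lit 5679067106), (nat_lit 5530719277), (nat_lit 5400774469)], (nat_lit 1271251), (nat_lit 1271251), (nat_lit 1271251), (nat_lit 1271251), (nat_lit 1271251), (nat_lit 1271251), [(nat_lit 1695001), (nat_lit 1271251), (nat_lit 1271251)], [(nat_lit 28), (nat_lit 65), (nat_lit 483), (nat_lit 250), (nat_lit 11)]⟩⟩)) (.spl (nat_lit 5) (nat_lit 200) (.leaf ⟨(nat_lit 0), (nat_lit 876), (nat_lit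 0), (nat_lit 124), (nat_lit 0), (nat_lit 4868), (nat_lit 6182), (nat_lit 1277), (nat_lit 0), (nat_lit 0), (nat_lit 0), [], Pd.none, Pd.none, (nat_lit 0), (nat_lit 1), (nat_lit 0), (nat_lit 0), (nat_lit 6), (nat_lit 0), [⟨(nat_lit 0), (nat_lit 88), (nat_lit 67), (nat_lit 100), (nat_lit 398518128)⟩], [⟨(nat_lit 1), (nat_lit 75), (nat_lit 66), (nat_lit 100), (nat_lit 482972503)⟩, ⟨(nat_lit 1), (nat_lit 63), (nat_lit 72), (nat_lit 100), (nat_lit 7056631)⟩], [⟨(nat_lit 0), (nat_lit 100), (nat_lit 80), (nat_lit 68), (nat_lit 49404443)⟩], [],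
 ⟨⟨[(nat_lit 40), (nat_lit 60), (nat_lit 80)], [(nat_lit 0), (nat_lit 398), (nat_lit 992)], [((nat_lit 0), (nat_lit 0), (nat_lit 0)), ((nat_lit 1000), (nat_lit 814), (nat_lit 310)), ((nat_lit 1000), (nat_lit 752), (nat_lit 464))], ((nat_lit 73), (nat_lit 100), (nat_lit 55))⟩, (nat_lit 1292019), (nat_lit 247), (nat_lit 247), (nat_lit 0), (nat_lit 545963), [(nat_lit 2032000011), (nat_lit 3282000011), (nat_lit 4688000000)], [], [(nat_lit 24029894750), (nat_lit 25128795836), (nat_lit 26944422082), (nat_lit 27789799620), (nat_lit 28693956858), (nat_lit 30047704848), (nat_lit 31036714648), (nat_lit 32063904472)], (nat_lit 1271251), (nat_lit 1271251), (nat_lit 780000), (nat_lit 2090001), (nat_lit 1271251), (nat_lit 1271251), [(nat_lit 490000), (nat_lit 780000), (nat_lit 1100000)], [(nat_lit 2), (nat_lit 44), (nat_lit 289), (nat_lit 75), (nat_lit 12)]⟩,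
 ⟨⟨[(nat_lit 60), (nat_lit 100), (nat_lit 120)], [(nat_lit 0), (nat_lit 0), (nat_lit 1164)], [((nat_lit 0), (nat_lit 0), (nat_lit 0)), ((nat_lit 0), (nat_lit 0), (nat_lit 0)), ((nat_lit 1000), (nat_lit 933), (nat_lit 572))], ((nat_lit 93), (nat_lit 100), (nat_lit 55))⟩, (nat_lit 2881546), (nat_lit 155), (nat_lit 155), (nat_lit 0), (nat_lit 0), [(nat_lit 3282000000), (nat_lit 6250000000), (nat_lit 7968000000)], [], [(nat_lit 20695966908), (nat_lit 24332048208), (nat_lit 26698958526), (nat_lit 29500249008), (nat_lit 19102480175), (nat_lit 21804151564), (nat_lit 24001811280), (nat_lit 26183422438)], (nat_lit 0), (nat_lit 0), (nat_lit 0), (nat_lit 0), (nat_lit 0), (nat_lit 0), [], [(nat_lit 10), (nat_lit 54), (nat_lit 345), (nat_lit 125), (nat_lit 11)]⟩,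
 ⟨⟨[(nat_lit 120), (nat_lit 160), (nat_lit 180)], [(nat_lit 0), (nat_lit 533), (nat_lit 2066)], [((nat_lit 0), (nat_lit 0), (nat_lit 0)), ((nat_lit 960), (nat_lit 1000), (nat_lit 200)), ((nat_lit 615), (nat_lit 1000), (nat_lit 729))], ((nat_lit 100), (nat_lit 79), (nat_lit 55))⟩, (nat_lit 290341), (nat_lit 300), (nat_lit 1750), (nat_lit 8233602), (nat_lit 3038045), [(nat_lit 988032000), (nat_lit 1472128000), (nat_lit 1743192000)], [], [(nat_lit 6988771331), (nat_lit 6854061921), (nat_lit 6909666494), (nat_lit 6779321267), (nat_lit 5801654237), (nat_lit 5666933255), (nat_lit 5649901356), (nat_lit 5517386326)], (nat_lit 1271251), (nat_lit 1271251), (nat_lit 1271251), (nat_lit 1271251), (nat_lit 0), (nat_lit 1412501), [(nat_lit 1695001), (nat_lit 1271251), (nat_lit 1271251)], [(nat_lit 28), (nat_lit 65), (nat_lit 535), (nat_lit 200), (nat_lit 12)]⟩⟩) (.spl (nat_lit 0) (nat_lit 350) (.leaf ⟨(nat_lit 0), (nat_lit 875), (nat_lit 0), (nat_lit 125), (nat_lit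 0), (nat_lit 4211), (nat_lit 6770), (nat_lit 1198), (nat_lit 0), (nat_lit 0), (nat_lit 0), [], Pd.none, Pd.none, (nat_lit 0), (nat_lit 1), (nat_lit 0), (nat_lit 0), (nat_lit 6), (nat_lit 0), [⟨(nat_lit 0), (nat_lit 89), (nat_lit 71), (nat_lit 100), (nat_lit 202018299)⟩], [⟨(nat_lit 1), (nat_lit 72), (nat_lit 69), (nat_lit 100), (nat_lit 153555064)⟩], [], [⟨(nat_lit 2), (nat_lit 50), (nat_lit 87), (nat_lit 100), (nat_lit 423295391)⟩, ⟨(nat_lit 2), (nat_lit 100), (nat_lit 100), (nat_lit 100), (nat_lit 1993947)⟩],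
 ⟨⟨[(nat_lit 40), (nat_lit 60), (nat_lit 80)], [(nat_lit 0), (nat_lit 398), (nat_lit 992)], [((nat_lit 0), (nat_lit 0), (nat_lit 0)), ((nat_lit 1000), (nat_lit 814), (nat_lit 310)), ((nat_lit 1000), (nat_lit 752), (nat_lit 464))], ((nat_lit 73), (nat_lit 100), (nat_lit 55))⟩, (nat_lit 2799565), (nat_lit 233), (nat_lit 233), (nat_lit 0), (nat_lit 521077), [(nat_lit 2032000209), (nat_lit 3282000372), (nat_lit 4688000000)], [], [(nat_lit 23361991264), (nat_lit 23898874494), (nat_lit 26495888590), (nat_lit 26912681446), (nat_lit 28024713346), (nat_lit 28469885275), (nat_lit 30367421521), (nat_lit 30850451808)], (nat_lit 1271251), (nat_lit 1271251), (nat_lit 780000), (nat_lit 2090001), (nat_lit 1271251), (nat_lit 1271251), [(nat_lit 490000), (nat_lit 780000), (nat_lit 1100000)], [(nat_lit 2), (nat_lit 44), (nat_lit 289), (nat_lit 75), (nat_lit 12)]⟩,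
 ⟨⟨[(nat_lit 60), (nat_lit 100), (nat_lit 120)], [(nat_lit 0), (nat_lit 0), (nat_lit 1164)], [((nat_lit 0), (nat_lit 0), (nat_lit 0)), ((nat_lit 0), (nat_lit 0), (nat_lit 0)), ((nat_lit 1000), (nat_lit 933), (nat_lit 572))], ((nat_lit 93), (nat_lit 100), (nat_lit 55))⟩, (nat_lit 2407897), (nat_lit 122), (nat_lit 122), (nat_lit 0), (nat_lit 0), [(nat_lit 3282000000), (nat_lit 6250000000), (nat_lit 7968000000)], [], [(nat_lit 18960942522), (nat_lit 21912750402), (nat_lit 23652778957), (nat_lit 25723846930), (nat_lit 31566568360), (nat_lit 33234818640), (nat_lit 33031441690), (nat_lit 34492898080)], (nat_lit 0), (nat_lit 0), (nat_lit 0), (nat_lit 0), (nat_lit 0), (nat_lit 0), [], [(nat_lit 10), (nat_lit 54), (nat_lit 401), (nat_lit 175), (nat_lit 12)]⟩,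
 ⟨⟨[(nat_lit 120), (nat_lit 160), (nat_lit 180)], [(nat_lit 0), (nat_lit 533), (nat_lit 2066)], [((nat_lit 0), (nat_lit 0), (nat_lit 0)), ((nat_lit 960), (nat_lit 1000), (nat_lit 200)), ((nat_lit 615), (nat_lit 1000), (nat_lit 729))], ((nat_lit 100), (nat_lit 79), (nat_lit 55))⟩, (nat_lit 292684), (nat_lit 300), (nat_lit 1495), (nat_lit 8300000), (nat_lit 2744530), [(nat_lit 996000000), (nat_lit 1484000000), (nat_lit 1757250000)], [], [(nat_lit 6684152398), (nat_lit 6544375858), (nat_lit 6381306591), (nat_lit 6238840390), (nat_lit 6153878203), (nat_lit 6010062519), (nat_lit 5833077383), (nat_lit 5693806114)], (nat_lit 1271251), (nat_lit 1271251), (nat_lit 1271251), (nat_lit 1271251), (nat_lit 1271251), (nat_lit 1271251), [(nat_lit 1695001), (nat_lit 1271251), (nat_lit 1271251)], [(nat_lit 28), (nat_lit 65), (nat_lit 497), (nat_lit 250), (nat_lit 11)]⟩⟩) (.trZ (nat_lit 0) (nat_lit 1) (nat_lit 3) (nat_lit 96) (nat_lit 69) (nat_lit 100) (nat_lit 130)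 (.trX (nat_lit 4) (nat_lit 0) (nat_lit 2) (nat_lit 66) (nat_lit 68) (nat_lit 100) (nat_lit 350) (.leaf ⟨(nat_lit 0), (nat_lit 886), (nat_lit 0), (nat_lit 114), (nat_lit 0), (nat_lit 4233), (nat_lit 6798), (nat_lit 1107), (nat_lit 0), (nat_lit 0), (nat_lit 0), [], Pd.none, Pd.none, (nat_lit 0), (nat_lit 1), (nat_lit 0), (nat_lit 0), (nat_lit 6), (nat_lit 0), [⟨(nat_lit 0), (nat_lit 88), (nat_lit 64), (nat_lit 100), (nat_lit 226174330)⟩], [⟨(nat_lit 1), (nat_lit 77), (nat_lit 63), (nat_lit 100), (nat_lit 227324460)⟩], [], [⟨(nat_lit 2), (nat_lit 45), (nat_lit 88), (nat_lit 100), (nat_lit 421969587)⟩],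
 ⟨⟨[(nat_lit 40), (nat_lit 60), (nat_lit 80)], [(nat_lit 0), (nat_lit 600), (nat_lit 1195)], [((nat_lit 0), (nat_lit 0), (nat_lit 0)), ((nat_lit 1000), (nat_lit 725), (nat_lit 454)), ((nat_lit 1000), (nat_lit 720), (nat_lit 465))], ((nat_lit 69), (nat_lit 100), (nat_lit 56))⟩, (nat_lit 2406908), (nat_lit 240), (nat_lit 240), (nat_lit 0), (nat_lit 543581), [(nat_lit 2032000001), (nat_lit 3299271378), (nat_lit 4688000000)], [], [(nat_lit 23545407079), (nat_lit 24102309047), (nat_lit 26642300746), (nat_lit 27079079776), (nat_lit 27814334627), (nat_lit 28456648523), (nat_lit 30376325117), (nat_lit 30873886923)], (nat_lit 1271251), (nat_lit 1271251), (nat_lit 857188), (nat_lit 2099376), (nat_lit 1271251), (nat_lit 1271251), [(nat_lit 490000), (nat_lit 780000), (nat_lit 1100000)], [(nat_lit 2), (nat_lit 44), (nat_lit 289), (nat_lit 75), (nat_lit 11)]⟩,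
 ⟨⟨[(nat_lit 60), (nat_lit 100), (nat_lit 120)], [(nat_lit 0), (nat_lit 0), (nat_lit 1164)], [((nat_lit 0), (nat_lit 0), (nat_lit 0)), ((nat_lit 0), (nat_lit 0), (nat_lit 0)), ((nat_lit 1000), (nat_lit 933), (nat_lit 572))], ((nat_lit 93), (nat_lit 100), (nat_lit 55))⟩, (nat_lit 2137898), (nat_lit 105), (nat_lit 105), (nat_lit 0), (nat_lit 0), [(nat_lit 3282000000), (nat_lit 6250000000), (nat_lit 7968000000)], [], [(nat_lit 19269402731), (nat_lit 22183017563), (nat_lit 23941643159), (nat_lit 26016700496), (nat_lit 31420994728), (nat_lit 33068174858), (nat_lit 33061905606), (nat_lit 34525112192)], (nat_lit 0), (nat_lit 0), (nat_lit 0), (nat_lit 0), (nat_lit 0), (nat_lit 0), [], [(nat_lit 10), (nat_lit 54), (nat_lit 401), (nat_lit 175), (nat_lit 12)]⟩,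
 ⟨⟨[(nat_lit 120), (nat_lit 160), (nat_lit 180)], [(nat_lit 0), (nat_lit 533), (nat_lit 2066)], [((nat_lit 0), (nat_lit 0), (nat_lit 0)), ((nat_lit 960), (nat_lit 1000), (nat_lit 200)), ((nat_lit 615), (nat_lit 1000), (nat_lit 729))], ((nat_lit 100), (nat_lit 79), (nat_lit 55))⟩, (nat_lit 266927), (nat_lit 300), (nat_lit 1638), (nat_lit 7569600), (nat_lit 3037212), [(nat_lit 908352000), (nat_lit 1353408000), (nat_lit 1602612000)], [], [(nat_lit 6004083409), (nat_lit 5873963528), (nat_lit 5730711906), (nat_lit 5599038248), (nat_lit 5493077165), (nat_lit 5360446552), (nat_lit 5251030841), (nat_lit 5134257270)], (nat_lit 1271251), (nat_lit 1271251), (nat_lit 1271251), (nat_lit 1271251), (nat_lit 1271251), (nat_lit 1271251), [(nat_lit 1695001), (nat_lit 1271251), (nat_lit 1271251)], [(nat_lit 28), (nat_lit 65), (nat_lit 531), (nat_lit 250), (nat_lit 12)]⟩⟩))))))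
noncomputable def c8_49 : Tr Lf :=
 (.spl (nat_lit 4) (nat_lit 280) (.leaf ⟨(nat_lit 917), (nat_lit 18), (nat_lit 0), (nat_lit 65), (nat_lit 0), (nat_lit 3381), (nat_lit 1073), (nat_lit 670), (nat_lit 0), (nat_lit 0), (nat_lit 488200), [((nat_lit 360), [((nat_lit 21), (nat_lit 1), (nat_lit 484)), ((nat_lit 39), (nat_lit 2), (nat_lit 346)), ((nat_lit 21), (nat_lit 2), (nat_lit 87))])], ⟨(nat_lit 6), false, false, false, (nat_lit 201), (nat_lit 3162), (nat_lit 3873), [(nat_lit 1414421), (nat_lit 1422280), (nat_lit 1457950), (nat_lit 1466533), (nat_lit 1543529), (nat_lit 1544252), (nat_lit 1587058), (nat_lit 1588504)]⟩, ⟨(nat_lit 6), false, true, true, (nat_lit 238), (nat_lit 3162), (nat_lit 3873), [(nat_lit 1542727), (nat_lit 1538797), (nat_lit 1586313), (nat_lit 1583107), (nat_lit 1607248), (nat_lit 1599750), (nat_lit 1650835), (nat_lit 1644060)]⟩, (nat_lit 5158089), (nat_lit 39634183), (nat_lit 11870335), (nat_lit 15495482), (nat_lit 6), (nat_lit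 0), [⟨(nat_lit 0), (nat_lit 94), (nat_lit 62), (nat_lit 100), (nat_lit 56222332)⟩], [], [], [],
 ⟨⟨[(nat_lit 40), (nat_lit 60), (nat_lit 80)], [(nat_lit 0), (nat_lit 398), (nat_lit 992)], [((nat_lit 0), (nat_lit 0), (nat_lit 0)), ((nat_lit 1000), (nat_lit 814), (nat_lit 310)), ((nat_lit 1000), (nat_lit 752), (nat_lit 464))], ((nat_lit 73), (nat_lit 100), (nat_lit 55))⟩, (nat_lit 4153), (nat_lit 114), (nat_lit 114), (nat_lit 0), (nat_lit 201563), [(nat_lit 1376456555), (nat_lit 1507550424), (nat_lit 1364259600)], [(nat_lit 0), (nat_lit 0), (nat_lit 0)], [(nat_lit 20950946445), (nat_lit 22179405756), (nat_lit 22342594409), (nat_lit 23439837296), (nat_lit 22620965730), (nat_lit 23769577207), (nat_lit 23832881920), (nat_lit 24848624359)], (nat_lit 1271251), (nat_lit 1271251), (nat_lit 780000), (nat_lit 1435001), (nat_lit 1271251), (nat_lit 1271251), [(nat_lit 490000), (nat_lit 780000), (nat_lit 1100000)], [(nat_lit 2), (nat_lit 44), (nat_lit 260), (nat_lit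 50), (nat_lit 10)]⟩,
 ⟨⟨[(nat_lit 80), (nat_lit 120), (nat_lit 140)], [(nat_lit 0), (nat_lit 0), (nat_lit 1164)], [((nat_lit 0), (nat_lit 0), (nat_lit 0)), ((nat_lit 0), (nat_lit 0), (nat_lit 0)), ((nat_lit 941), (nat_lit 1000), (nat_lit 576))], ((nat_lit 100), (nat_lit 95), (nat_lit 55))⟩, (nat_lit 316651), (nat_lit 572), (nat_lit 572), (nat_lit 0), (nat_lit 740574), [(nat_lit 389104000), (nat_lit 661344000), (nat_lit 816886000)], [], [(nat_lit 3219461060), (nat_lit 2166579946), (nat_lit 2741545926), (nat_lit 2228787404), (nat_lit 4942262390), (nat_lit 4023926756), (nat_lit 6134315746), (nat_lit 5237874677)], (nat_lit 1271251), (nat_lit 1271251), (nat_lit 780000), (nat_lit 1435001), (nat_lit 0), (nat_lit 2825001), [(nat_lit 1100000), (nat_lit 1785001), (nat_lit 1271251)], [(nat_lit 17), (nat_lit 58), (nat_lit 456), (nat_lit 225), (nat_lit 13)]⟩,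
 ⟨⟨[(nat_lit 120), (nat_lit 160), (nat_lit 180)], [(nat_lit 0), (nat_lit 533), (nat_lit 2066)], [((nat_lit 0), (nat_lit 0), (nat_lit 0)), ((nat_lit 960), (nat_lit 1000), (nat_lit 200)), ((nat_lit 615), (nat_lit 1000), (nat_lit 729))], ((nat_lit 100), (nat_lit 79), (nat_lit 55))⟩, (nat_lit 152195), (nat_lit 300), (nat_lit 1026), (nat_lit 4316001), (nat_lit 1480275), [(nat_lit 517920000), (nat_lit 771680000), (nat_lit 913770000)], [], [(nat_lit 3660606685), (nat_lit 3589898535), (nat_lit 3623561248), (nat_lit 3559497928), (nat_lit 3649828250), (nat_lit 3069395190), (nat_lit 3072899290), (nat_lit 2812718155)], (nat_lit 1271251), (nat_lit 1271251), (nat_lit 1271251), (nat_lit 1271251), (nat_lit 0), (nat_lit 2825001), [(nat_lit 1695001), (nat_lit 1271251), (nat_lit 1271251)], [(nat_lit 28), (nat_lit 65), (nat_lit 456), (nat_lit 225), (nat_lit 10)]⟩⟩) (.trX (nat_lit 5) (nat_lit 4) (nat_lit 3) (nat_lit 92) (nat_lit 40) (nat_lit 100) (nat_lit 390) (.spl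 (nat_lit 6) (nat_lit 16) (.spl (nat_lit 1) (nat_lit 260) (.leaf ⟨(nat_lit 896), (nat_lit 53), (nat_lit 0), (nat_lit 51), (nat_lit 0), (nat_lit 3161), (nat_lit 734), (nat_lit 553), (nat_lit 0), (nat_lit 0), (nat_lit 535500), [((nat_lit 360), [((nat_lit 21), (nat_lit 0), (nat_lit 6)), ((nat_lit 39), (nat_lit 2), (nat_lit 890))])], ⟨(nat_lit 6), false, false, false, (nat_lit 197), (nat_lit 3162), (nat_lit 3873), [(nat_lit 1414421), (nat_lit 1422280), (nat_lit 1436185), (nat_lit 1444407), (nat_lit 1543529), (nat_lit 1544252), (nat_lit 1565293), (nat_lit 1566378)]⟩, ⟨(nat_lit 7), false, true, true, (nat_lit 263), (nat_lit 3162), (nat_lit 3873), [(nat_lit 1607248), (nat_lit 1599750), (nat_lit 1650835), (nat_lit 1644060), (nat_lit 1671770), (nat_lit 1660704), (nat_lit 1715356), (nat_lit 1705013)]⟩, (nat_lit 5241518), (nat_lit 38095507), (nat_lit 11154199), (nat_lit 17750294), (nat_lit 7), (nat_lit 0), [⟨(nat_lit 0), (nat_lit 100), (nat_lit 63), (nat_lit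 99), (nat_lit 67727082)⟩], [⟨(nat_lit 1), (nat_lit 75), (nat_lit 66), (nat_lit 100), (nat_lit 13506689)⟩], [], [],
 ⟨⟨[(nat_lit 40), (nat_lit 60), (nat_lit 80)], [(nat_lit 0), (nat_lit 398), (nat_lit 992)], [((nat_lit 0), (nat_lit 0), (nat_lit 0)), ((nat_lit 1000), (nat_lit 814), (nat_lit 310)), ((nat_lit 1000), (nat_lit 752), (nat_lit 464))], ((nat_lit 77), (nat_lit 100), (nat_lit 42))⟩, (nat_lit 92662), (nat_lit 117), (nat_lit 117), (nat_lit 0), (nat_lit 176831), [(nat_lit 1368627206), (nat_lit 1369061619), (nat_lit 1300583181)], [(nat_lit 0), (nat_lit 0), (nat_lit 0)], [(nat_lit 22727510911), (nat_lit 23822863986), (nat_lit 24034146779), (nat_lit 25015469755), (nat_lit 24362531468), (nat_lit 25367771187), (nat_lit 25497203661), (nat_lit 26402304043)], (nat_lit 1271251), (nat_lit 1271251), (nat_lit 780000), (nat_lit 1435001), (nat_lit 1271251), (nat_lit 1271251), [(nat_lit 490000), (nat_lit 780000), (nat_lit 1100000)], [(nat_lit 2), (nat_lit 44),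 (nat_lit 260), (nat_lit 50), (nat_lit 10)]⟩,
 ⟨⟨[(nat_lit 80), (nat_lit 100), (nat_lit 120)], [(nat_lit 0), (nat_lit 0), (nat_lit 511)], [((nat_lit 0), (nat_lit 0), (nat_lit 0)), ((nat_lit 0), (nat_lit 0), (nat_lit 0)), ((nat_lit 1000), (nat_lit 997), (nat_lit 383))], ((nat_lit 100), (nat_lit 100), (nat_lit 40))⟩, (nat_lit 0), (nat_lit 481), (nat_lit 481), (nat_lit 0), (nat_lit 724956), [(nat_lit 487552000), (nat_lit 650000000), (nat_lit 828672000)], [], [(nat_lit 4342114624), (nat_lit 3956854172), (nat_lit 3919954624), (nat_lit 3977908045), (nat_lit 5022486431), (nat_lit 4703485903), (nat_lit 5942047668), (nat_lit 5630779142)], (nat_lit 1271251), (nat_lit 1271251), (nat_lit 780000), (nat_lit 1435001), (nat_lit 0), (nat_lit 2754376), [(nat_lit 1100000), (nat_lit 1442501), (nat_lit 1271251)], [(nat_lit 16), (nat_lit 54), (nat_lit 373), (nat_lit 150), (nat_lit 12)]⟩,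
 ⟨⟨[(nat_lit 120), (nat_lit 140), (nat_lit 160)], [(nat_lit 0), (nat_lit 266), (nat_lit 862)], [((nat_lit 0), (nat_lit 0), (nat_lit 0)), ((nat_lit 960), (nat_lit 1000), (nat_lit 200)), ((nat_lit 874), (nat_lit 1000), (nat_lit 406))], ((nat_lit 100), (nat_lit 88), (nat_lit 39))⟩, (nat_lit 104684), (nat_lit 300), (nat_lit 872), (nat_lit 3386401), (nat_lit 1308500), [(nat_lit 406368000), (nat_lit 501942000), (nat_lit 605472000)], [], [(nat_lit 2385079816), (nat_lit 2348228967), (nat_lit 2391799009), (nat_lit 2351140747), (nat_lit 2356272015), (nat_lit 1904204962), (nat_lit 1957343745), (nat_lit 1920453208)], (nat_lit 1271251), (nat_lit 1271251), (nat_lit 1271251), (nat_lit 1271251), (nat_lit 0), (nat_lit 2754376), [(nat_lit 1695001), (nat_lit 1271251), (nat_lit 1271251)], [(nat_lit 27), (nat_lit 62), (nat_lit 483), (nat_lit 250), (nat_lit 12)]⟩⟩) (.leaf ⟨(nat_lit 771), (nat_lit 119), (nat_lit 0), (nat_lit 110), (nat_lit 0), (nat_lit 3228), (nat_lit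 1031), (nat_lit 1041), (nat_lit 0), (nat_lit 0), (nat_lit 429000), [((nat_lit 360), [((nat_lit 21), (nat_lit 0), (nat_lit 96)), ((nat_lit 39), (nat_lit 2), (nat_lit 675))])], ⟨(nat_lit 6), false, false, false, (nat_lit 206), (nat_lit 3162), (nat_lit 3873), [(nat_lit 1436185), (nat_lit 1444407), (nat_lit 1457950), (nat_lit 1466533), (nat_lit 1565293), (nat_lit 1566378), (nat_lit 1587058), (nat_lit 1588504)]⟩, ⟨(nat_lit 7), false, true, true, (nat_lit 263), (nat_lit 3162), (nat_lit 3873), [(nat_lit 1607248), (nat_lit 1599750), (nat_lit 1650835), (nat_lit 1644060), (nat_lit 1671770), (nat_lit 1660704), (nat_lit 1715356), (nat_lit 1705013)]⟩, (nat_lit 5300570), (nat_lit 37587920), (nat_lit 11837564), (nat_lit 17574516), (nat_lit 7), (nat_lit 0), [⟨(nat_lit 0), (nat_lit 94), (nat_lit 62), (nat_lit 100), (nat_lit 148560024)⟩], [⟨(nat_lit 1), (nat_lit 75), (nat_lit 66), (nat_lit 100), (nat_lit 145949710)⟩], [], [],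
 ⟨⟨[(nat_lit 40), (nat_lit 60), (nat_lit 80)], [(nat_lit 0), (nat_lit 398), (nat_lit 992)], [((nat_lit 0), (nat_lit 0), (nat_lit 0)), ((nat_lit 1000), (nat_lit 814), (nat_lit 310)), ((nat_lit 1000), (nat_lit 752), (nat_lit 464))], ((nat_lit 77), (nat_lit 100), (nat_lit 42))⟩, (nat_lit 921628), (nat_lit 122), (nat_lit 122), (nat_lit 0), (nat_lit 198438), [(nat_lit 1448693448), (nat_lit 1697428109), (nat_lit 1843931691)], [(nat_lit 0), (nat_lit 0), (nat_lit 0)], [(nat_lit 22994187318), (nat_lit 23997665072), (nat_lit 24168445351), (nat_lit 25070761671), (nat_lit 24491517540), (nat_lit 25445187228), (nat_lit 25536463649), (nat_lit 26486503376)], (nat_lit 1271251), (nat_lit 1271251), (nat_lit 780000), (nat_lit 1435001), (nat_lit 1271251), (nat_lit 1271251), [(nat_lit 490000), (nat_lit 780000), (nat_lit 1100000)], [(nat_lit 2), (nat_lit 44), (nat_lit 260), (nat_lit 50), (nat_lit 10)]⟩,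
 ⟨⟨[(nat_lit 80), (nat_lit 100), (nat_lit 120)], [(nat_lit 0), (nat_lit 265), (nat_lit 768)], [((nat_lit 0), (nat_lit 0), (nat_lit 0)), ((nat_lit 1000), (nat_lit 959), (nat_lit 206)), ((nat_lit 1000), (nat_lit 958), (nat_lit 392))], ((nat_lit 96), (nat_lit 100), (nat_lit 39))⟩, (nat_lit 1286831), (nat_lit 454), (nat_lit 454), (nat_lit 0), (nat_lit 697757), [(nat_lit 1073552000), (nat_lit 1431250000), (nat_lit 1824672000)], [], [(nat_lit 7782242703), (nat_lit 7242187352), (nat_lit 7330271182), (nat_lit 7511833613), (nat_lit 10204154414), (nat_lit 9756076014), (nat_lit 11723906475), (nat_lit 11286688694)], (nat_lit 1271251), (nat_lit 1271251), (nat_lit 780000), (nat_lit 1435001), (nat_lit 0), (nat_lit 2754376), [(nat_lit 1100000), (nat_lit 1442501), (nat_lit 1271251)], [(nat_lit 16), (nat_lit 54), (nat_lit 373), (nat_lit 150), (nat_lit 12)]⟩,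
 ⟨⟨[(nat_lit 120), (nat_lit 140), (nat_lit 160)], [(nat_lit 0), (nat_lit 266), (nat_lit 862)], [((nat_lit 0), (nat_lit 0), (nat_lit 0)), ((nat_lit 960), (nat_lit 1000), (nat_lit 200)), ((nat_lit 874), (nat_lit 1000), (nat_lit 406))], ((nat_lit 100), (nat_lit 88), (nat_lit 39))⟩, (nat_lit 225790), (nat_lit 300), (nat_lit 939), (nat_lit 7304000), (nat_lit 1468161), [(nat_lit 876480000), (nat_lit 1082620000), (nat_lit 1305920000)], [], [(nat_lit 5816084652), (nat_lit 5729761175), (nat_lit 5794971439), (nat_lit 5707720701), (nat_lit 5118011498), (nat_lit 4661563018), (nat_lit 4711678668), (nat_lit 4604944572)], (nat_lit 1271251), (nat_lit 1271251), (nat_lit 1271251), (nat_lit 1271251), (nat_lit 0), (nat_lit 2754376), [(nat_lit 1695001), (nat_lit 1271251), (nat_lit 1271251)], [(nat_lit 27), (nat_lit 62), (nat_lit 483), (nat_lit 250), (nat_lit 12)]⟩⟩)) (.spl (nat_lit 6) (nat_lit 24) (.leaf ⟨(nat_lit 849), (nat_lit 24), (nat_lit 0), (nat_lit 127), (nat_lit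 0), (nat_lit 3037), (nat_lit 1870), (nat_lit 1306), (nat_lit 0), (nat_lit 0), (nat_lit 669750), [((nat_lit 360), [((nat_lit 21), (nat_lit 0), (nat_lit 239)), ((nat_lit 21), (nat_lit 2), (nat_lit 610))])], ⟨(nat_lit 6), false, false, false, (nat_lit 201), (nat_lit 3162), (nat_lit 3873), [(nat_lit 1414421), (nat_lit 1422280), (nat_lit 1457950), (nat_lit 1466533), (nat_lit 1543529), (nat_lit 1544252), (nat_lit 1587058), (nat_lit 1588504)]⟩, ⟨(nat_lit 7), false, true, true, (nat_lit 263), (nat_lit 3162), (nat_lit 3873), [(nat_lit 1607248), (nat_lit 1599750), (nat_lit 1650835), (nat_lit 1644060), (nat_lit 1671770), (nat_lit 1660704), (nat_lit 1715356), (nat_lit 1705013)]⟩, (nat_lit 5271561), (nat_lit 37841922), (nat_lit 11495229), (nat_lit 17662849), (nat_lit 7), (nat_lit 0), [⟨(nat_lit 0), (nat_lit 94), (nat_lit 62), (nat_lit 100), (nat_lit 113620042)⟩], [⟨(nat_lit 1), (nat_lit 75), (nat_lit 66), (nat_lit 100), (nat_lit 138721555)⟩], [], [],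
 ⟨⟨[(nat_lit 40), (nat_lit 60), (nat_lit 80)], [(nat_lit 0), (nat_lit 398), (nat_lit 992)], [((nat_lit 0), (nat_lit 0), (nat_lit 0)), ((nat_lit 1000), (nat_lit 814), (nat_lit 310)), ((nat_lit 1000), (nat_lit 752), (nat_lit 464))], ((nat_lit 74), (nat_lit 100), (nat_lit 49))⟩, (nat_lit 0), (nat_lit 106), (nat_lit 106), (nat_lit 0), (nat_lit 131807), [(nat_lit 1406288150), (nat_lit 1331832306), (nat_lit 917328400)], [(nat_lit 0), (nat_lit 0), (nat_lit 0)], [(nat_lit 22614296083), (nat_lit 23697170943), (nat_lit 23881173325), (nat_lit 24853924622), (nat_lit 24229278722), (nat_lit 25224719406), (nat_lit 25332854292), (nat_lit 26274423356)], (nat_lit 1271251), (nat_lit 1271251), (nat_lit 780000), (nat_lit 1435001), (nat_lit 1271251), (nat_lit 1271251), [(nat_lit 490000), (nat_lit 780000), (nat_lit 1100000)], [(nat_lit 2), (nat_lit 44), (nat_lit 260), (nat_lit 50), (nat_lit 10)]⟩,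
 ⟨⟨[(nat_lit 80), (nat_lit 120), (nat_lit 140)], [(nat_lit 0), (nat_lit 0), (nat_lit 1164)], [((nat_lit 0), (nat_lit 0), (nat_lit 0)), ((nat_lit 0), (nat_lit 0), (nat_lit 0)), ((nat_lit 941), (nat_lit 1000), (nat_lit 576))], ((nat_lit 100), (nat_lit 98), (nat_lit 48))⟩, (nat_lit 499396), (nat_lit 433), (nat_lit 433), (nat_lit 0), (nat_lit 456517), [(nat_lit 707888000), (nat_lit 1203168000), (nat_lit 1486142000)], [], [(nat_lit 5818152640), (nat_lit 4094424393), (nat_lit 5045782752), (nat_lit 4132639669), (nat_lit 8775475122), (nat_lit 7170001115), (nat_lit 10859555191), (nat_lit 9292488413)], (nat_lit 1271251), (nat_lit 1271251), (nat_lit 780000), (nat_lit 1435001), (nat_lit 0), (nat_lit 2754376), [(nat_lit 1100000), (nat_lit 1785001), (nat_lit 1271251)], [(nat_lit 17), (nat_lit 58), (nat_lit 456), (nat_lit 225), (nat_lit 13)]⟩,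
 ⟨⟨[(nat_lit 120), (nat_lit 140), (nat_lit 160)], [(nat_lit 0), (nat_lit 266), (nat_lit 862)], [((nat_lit 0), (nat_lit 0), (nat_lit 0)), ((nat_lit 960), (nat_lit 1000), (nat_lit 200)), ((nat_lit 874), (nat_lit 1000), (nat_lit 406))], ((nat_lit 100), (nat_lit 83), (nat_lit 48))⟩, (nat_lit 260684), (nat_lit 300), (nat_lit 710), (nat_lit 8432801), (nat_lit 951981), [(nat_lit 1011936000), (nat_lit 1249934000), (nat_lit 1507744000)], [], [(nat_lit 6162185816), (nat_lit 6079336268), (nat_lit 6182731603), (nat_lit 6090799529), (nat_lit 5884374605), (nat_lit 4888830045), (nat_lit 4994975688), (nat_lit 4912307252)], (nat_lit 1271251), (nat_lit 1271251), (nat_lit 1271251), (nat_lit 1271251), (nat_lit 0), (nat_lit 2754376), [(nat_lit 1695001), (nat_lit 1271251), (nat_lit 1271251)], [(nat_lit 27), (nat_lit 62), (nat_lit 483), (nat_lit 250), (nat_lit 12)]⟩⟩) (.leaf ⟨(nat_lit 673), (nat_lit 114), (nat_lit 0), (nat_lit 213), (nat_lit 0), (nat_lit 3551), (nat_lit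 2997), (nat_lit 2131), (nat_lit 0), (nat_lit 0), (nat_lit 505000), [((nat_lit 360), [((nat_lit 21), (nat_lit 1), (nat_lit 280)), ((nat_lit 21), (nat_lit 2), (nat_lit 393))])], ⟨(nat_lit 6), false, false, false, (nat_lit 201), (nat_lit 3162), (nat_lit 3873), [(nat_lit 1414421), (nat_lit 1422280), (nat_lit 1457950), (nat_lit 1466533), (nat_lit 1543529), (nat_lit 1544252), (nat_lit 1587058), (nat_lit 1588504)]⟩, ⟨(nat_lit 7), false, true, true, (nat_lit 263), (nat_lit 3162), (nat_lit 3873), [(nat_lit 1607248), (nat_lit 1599750), (nat_lit 1650835), (nat_lit 1644060), (nat_lit 1671770), (nat_lit 1660704), (nat_lit 1715356), (nat_lit 1705013)]⟩, (nat_lit 5271561), (nat_lit 37841922), (nat_lit 11495229), (nat_lit 17662849), (nat_lit 7), (nat_lit 0), [⟨(nat_lit 0), (nat_lit 100), (nat_lit 69), (nat_lit 96), (nat_lit 204422432)⟩, ⟨(nat_lit 0), (nat_lit 94), (nat_lit 62), (nat_lit 100), (nat_lit 23810459)⟩], [⟨(nat_lit 1), (nat_lit 75), (nat_lit 66), (nat_lit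 100), (nat_lit 115118399)⟩], [], [],
 ⟨⟨[(nat_lit 40), (nat_lit 60), (nat_lit 80)], [(nat_lit 0), (nat_lit 398), (nat_lit 992)], [((nat_lit 0), (nat_lit 0), (nat_lit 0)), ((nat_lit 1000), (nat_lit 814), (nat_lit 310)), ((nat_lit 1000), (nat_lit 752), (nat_lit 464))], ((nat_lit 73), (nat_lit 100), (nat_lit 55))⟩, (nat_lit 2508), (nat_lit 99), (nat_lit 99), (nat_lit 0), (nat_lit 103689), [(nat_lit 1520328254), (nat_lit 1845135547), (nat_lit 1781078000)], [(nat_lit 0), (nat_lit 0), (nat_lit 0)], [(nat_lit 22982494847), (nat_lit 24142302972), (nat_lit 24167250051), (nat_lit 25204238113), (nat_lit 24696828981), (nat_lit 25818414051), (nat_lit 25678783439), (nat_lit 26681243199)], (nat_lit 1271251), (nat_lit 1271251), (nat_lit 780000), (nat_lit 1435001), (nat_lit 1271251), (nat_lit 1271251), [(nat_lit 490000), (nat_lit 780000), (nat_lit 1100000)], [(nat_lit 2), (nat_lit 44), (nat_lit 260), (nat_lit 50), (nat_lit 10)]⟩,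
 ⟨⟨[(nat_lit 80), (nat_lit 120), (nat_lit 140)], [(nat_lit 0), (nat_lit 0), (nat_lit 1164)], [((nat_lit 0), (nat_lit 0), (nat_lit 0)), ((nat_lit 0), (nat_lit 0), (nat_lit 0)), ((nat_lit 941), (nat_lit 1000), (nat_lit 576))], ((nat_lit 100), (nat_lit 95), (nat_lit 55))⟩, (nat_lit 0), (nat_lit 365), (nat_lit 365), (nat_lit 0), (nat_lit 354862), [(nat_lit 1532976000), (nat_lit 2605536000), (nat_lit 3218334000)], [], [(nat_lit 12100241940), (nat_lit 10946202879), (nat_lit 11672655294), (nat_lit 11086087299), (nat_lit 18363891591), (nat_lit 15790840468), (nat_lit 21926682641), (nat_lit 19415185777)], (nat_lit 1271251), (nat_lit 1271251), (nat_lit 780000), (nat_lit 1435001), (nat_lit 0), (nat_lit 2754376), [(nat_lit 1100000), (nat_lit 1785001), (nat_lit 1271251)], [(nat_lit 17), (nat_lit 58), (nat_lit 456), (nat_lit 225), (nat_lit 13)]⟩,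
 ⟨⟨[(nat_lit 120), (nat_lit 160), (nat_lit 180)], [(nat_lit 0), (nat_lit 533), (nat_lit 2066)], [((nat_lit 0), (nat_lit 0), (nat_lit 0)), ((nat_lit 960), (nat_lit 1000), (nat_lit 200)), ((nat_lit 615), (nat_lit 1000), (nat_lit 729))], ((nat_lit 100), (nat_lit 79), (nat_lit 55))⟩, (nat_lit 498732), (nat_lit 300), (nat_lit 675), (nat_lit 14143200), (nat_lit 736873), [(nat_lit 1697184000), (nat_lit 2528736000), (nat_lit 2994354000)], [], [(nat_lit 11722154359), (nat_lit 11558267179), (nat_lit 11753986177), (nat_lit 11598948859), (nat_lit 9883099762), (nat_lit 9417211162), (nat_lit 9559486204), (nat_lit 9343055613)], (nat_lit 1271251), (nat_lit 1271251), (nat_lit 1271251), (nat_lit 1271251), (nat_lit 0), (nat_lit 2754376), [(nat_lit 1695001), (nat_lit 1271251), (nat_lit 1271251)], [(nat_lit 28), (nat_lit 65), (nat_lit 483), (nat_lit 250), (nat_lit 11)]⟩⟩)))))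
noncomputable def c8_50 : Tr Lf :=
 (.trX (nat_lit 5) (nat_lit 4) (nat_lit 3) (nat_lit 80) (nat_lit 60) (nat_lit 100) (nat_lit 360) (.spl (nat_lit 1) (nat_lit 260) (.spl (nat_lit 6) (nat_lit 16) (.spl (nat_lit 0) (nat_lit 350) (.leaf ⟨(nat_lit 770), (nat_lit 113), (nat_lit 0), (nat_lit 117), (nat_lit 0), (nat_lit 3260), (nat_lit 1076), (nat_lit 1218), (nat_lit 0), (nat_lit 0), (nat_lit 428400), [((nat_lit 350), [((nat_lit 21), (nat_lit 0), (nat_lit 96)), ((nat_lit 39), (nat_lit 2), (nat_lit 674))])], ⟨(nat_lit 6), false, false, false, (nat_lit 196), (nat_lit 3535), (nat_lit 3873), [(nat_lit 1414519), (nat_lit 1418358), (nat_lit 1436306), (nat_lit 1440305), (nat_lit 1543574), (nat_lit 1543892), (nat_lit 1565361), (nat_lit 1565839)]⟩, ⟨(nat_lit 8), false, true, true, (nat_lit 289), (nat_lit 3535), (nat_lit 3873), [(nat_lit 1671770), (nat_lit 1666330), (nat_lit 1715356), (nat_lit 1710235), (nat_lit 1736292), (nat_lit 1729092), (nat_lit 1779878), (nat_lit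 1772997)]⟩, (nat_lit 5322432), (nat_lit 36244483), (nat_lit 10722259), (nat_lit 20033258), (nat_lit 8), (nat_lit 0), [], [⟨(nat_lit 1), (nat_lit 72), (nat_lit 69), (nat_lit 100), (nat_lit 347142175)⟩], [⟨(nat_lit 0), (nat_lit 100), (nat_lit 97), (nat_lit 25), (nat_lit 32966129)⟩], [],
 ⟨⟨[(nat_lit 40), (nat_lit 60), (nat_lit 80)], [(nat_lit 0), (nat_lit 398), (nat_lit 992)], [((nat_lit 0), (nat_lit 0), (nat_lit 0)), ((nat_lit 1000), (nat_lit 814), (nat_lit 310)), ((nat_lit 1000), (nat_lit 752), (nat_lit 464))], ((nat_lit 77), (nat_lit 100), (nat_lit 42))⟩, (nat_lit 966003), (nat_lit 121), (nat_lit 121), (nat_lit 0), (nat_lit 155051), [(nat_lit 1449346425), (nat_lit 1700732425), (nat_lit 1846509575)], [(nat_lit 0), (nat_lit 0), (nat_lit 0)], [(nat_lit 24375406795), (nat_lit 24858765295), (nat_lit 25486339915), (nat_lit 25963805815), (nat_lit 26604572310), (nat_lit 27165776835), (nat_lit 27429916720), (nat_lit 27934803210)], (nat_lit 1271251), (nat_lit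 1271251), (nat_lit 780000), (nat_lit 1435001), (nat_lit 1271251), (nat_lit 1271251), [(nat_lit 490000), (nat_lit 780000), (nat_lit 1100000)], [(nat_lit 2), (nat_lit 44), (nat_lit 260), (nat_lit 50), (nat_lit 10)]⟩,
 ⟨⟨[(nat_lit 80), (nat_lit 100), (nat_lit 120)], [(nat_lit 0), (nat_lit 0), (nat_lit 511)], [((nat_lit 0), (nat_lit 0), (nat_lit 0)), ((nat_lit 0), (nat_lit 0), (nat_lit 0)), ((nat_lit 1000), (nat_lit 997), (nat_lit 383))], ((nat_lit 100), (nat_lit 100), (nat_lit 40))⟩, (nat_lit 1268584), (nat_lit 407), (nat_lit 407), (nat_lit 0), (nat_lit 596506), [(nat_lit 1078240000), (nat_lit 1437500000), (nat_lit 1832640000)], [], [(nat_lit 8764284496), (nat_lit 8200870859), (nat_lit 8287435252), (nat_lit 8462757770), (nat_lit 10655990768), (nat_lit 10183908142), (nat_lit 12189385488), (nat_lit 11728862061)], (nat_lit 1271251), (nat_lit 1271251), (nat_lit 780000), (nat_lit 1435001), (nat_lit 0), (nat_lit 2542501), [(nat_lit 1100000), (nat_lit 1442501),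 (nat_lit 1271251)], [(nat_lit 16), (nat_lit 54), (nat_lit 373), (nat_lit 150), (nat_lit 12)]⟩,
 ⟨⟨[(nat_lit 120), (nat_lit 140), (nat_lit 160)], [(nat_lit 0), (nat_lit 266), (nat_lit 862)], [((nat_lit 0), (nat_lit 0), (nat_lit 0)), ((nat_lit 960), (nat_lit 1000), (nat_lit 200)), ((nat_lit 874), (nat_lit 1000), (nat_lit 406))], ((nat_lit 100), (nat_lit 88), (nat_lit 39))⟩, (nat_lit 240158), (nat_lit 300), (nat_lit 759), (nat_lit 7768800), (nat_lit 1086543), [(nat_lit 932256000), (nat_lit 1151514000), (nat_lit 1389024000)], [], [(nat_lit 5648590953), (nat_lit 5561953515), (nat_lit 5728527161), (nat_lit 5632006094), (nat_lit 4485519161), (nat_lit 4388998094), (nat_lit 4594113576), (nat_lit 4513682214)], (nat_lit 1271251), (nat_lit 1271251), (nat_lit 1271251), (nat_lit 1271251), (nat_lit 0), (nat_lit 2542501), [(nat_lit 1695001), (nat_lit 1271251), (nat_lit 1271251)], [(nat_lit 27), (nat_lit 62), (nat_lit 373), (nat_lit 150), (nat_lit 9)]⟩⟩) (.trX (nat_lit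 4) (nat_lit 0) (nat_lit 2) (nat_lit 66) (nat_lit 68) (nat_lit 100) (nat_lit 350) (.leaf ⟨(nat_lit 926), (nat_lit 0), (nat_lit 0), (nat_lit 74), (nat_lit 0), (nat_lit 3158), (nat_lit 522), (nat_lit 780), (nat_lit 0), (nat_lit 0), (nat_lit 400600), [((nat_lit 360), [((nat_lit 21), (nat_lit 1), (nat_lit 775)), ((nat_lit 39), (nat_lit 2), (nat_lit 151))])], ⟨(nat_lit 6), false, false, false, (nat_lit 197), (nat_lit 3162), (nat_lit 3536), [(nat_lit 1418344), (nat_lit 1422365), (nat_lit 1440289), (nat_lit 1444512), (nat_lit 1543888), (nat_lit 1544293), (nat_lit 1565832), (nat_lit 1566439)]⟩, ⟨(nat_lit 8), false, true, true, (nat_lit 284), (nat_lit 3162), (nat_lit 3536), [(nat_lit 1666330), (nat_lit 1660704), (nat_lit 1710235), (nat_lit 1705013), (nat_lit 1713401), (nat_lit 1706419), (nat_lit 1757306), (nat_lit 1750729)]⟩, (nat_lit 5313669), (nat_lit 36591191), (nat_lit 10875064), (nat_lit 19533745), (nat_lit 0), (nat_lit 0), [⟨(nat_lit 0), (nat_lit 100),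 (nat_lit 65), (nat_lit 94), (nat_lit 34713356)⟩], [⟨(nat_lit 1), (nat_lit 77), (nat_lit 63), (nat_lit 100), (nat_lit 357434583)⟩], [⟨(nat_lit 0), (nat_lit 100), (nat_lit 97), (nat_lit 25), (nat_lit 35657105)⟩, ⟨(nat_lit 0), (nat_lit 100), (nat_lit 96), (nat_lit 40), (nat_lit 326617)⟩], [],
 ⟨⟨[(nat_lit 40), (nat_lit 60)], [(nat_lit 0), (nat_lit 600)], [((nat_lit 0), (nat_lit 0), (nat_lit 0)), ((nat_lit 1000), (nat_lit 725), (nat_lit 454))], ((nat_lit 73), (nat_lit 100), (nat_lit 43))⟩, (nat_lit 441498), (nat_lit 112), (nat_lit 112), (nat_lit 0), (nat_lit 175880), [(nat_lit 1386732801), (nat_lit 1499372000)], [(nat_lit 0), (nat_lit 0)], [(nat_lit 24808279057), (nat_lit 25364302158), (nat_lit 25932287185), (nat_lit 26403850855), (nat_lit 26456838198), (nat_lit 27025904006), (nat_lit 27312979198), (nat_lit 27824794068)], (nat_lit 1271251), (nat_lit 1271251), (nat_lit 780000), (nat_lit 1435001), (nat_lit 1271251), (nat_lit 1271251), [(nat_lit 490000),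 (nat_lit 780000)], [(nat_lit 1), (nat_lit 38), (nat_lit 203), (nat_lit 0), (nat_lit 8)]⟩,
 ⟨⟨[(nat_lit 80), (nat_lit 100), (nat_lit 120)], [(nat_lit 0), (nat_lit 0), (nat_lit 511)], [((nat_lit 0), (nat_lit 0), (nat_lit 0)), ((nat_lit 0), (nat_lit 0), (nat_lit 0)), ((nat_lit 1000), (nat_lit 997), (nat_lit 383))], ((nat_lit 100), (nat_lit 100), (nat_lit 40))⟩, (nat_lit 0), (nat_lit 481), (nat_lit 481), (nat_lit 0), (nat_lit 724729), [(nat_lit 346912000), (nat_lit 462500000), (nat_lit 589632000)], [], [(nat_lit 3089169072), (nat_lit 2815182756), (nat_lit 2790256624), (nat_lit 2831487726), (nat_lit 3416398924), (nat_lit 3187377427), (nat_lit 4061835320), (nat_lit 3838421539)], (nat_lit 1271251), (nat_lit 1271251), (nat_lit 780000), (nat_lit 1435001), (nat_lit 0), (nat_lit 2542501), [(nat_lit 1100000), (nat_lit 1442501), (nat_lit 1271251)], [(nat_lit 16), (nat_lit 54), (nat_lit 373), (nat_lit 150), (nat_lit 12)]⟩,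
 ⟨⟨[(nat_lit 120), (nat_lit 140), (nat_lit 160)], [(nat_lit 0), (nat_lit 266), (nat_lit 862)], [((nat_lit 0), (nat_lit 0), (nat_lit 0)), ((nat_lit 960), (nat_lit 1000), (nat_lit 200)), ((nat_lit 874), (nat_lit 1000), (nat_lit 406))], ((nat_lit 100), (nat_lit 88), (nat_lit 39))⟩, (nat_lit 151895), (nat_lit 300), (nat_lit 862), (nat_lit 4913600), (nat_lit 1306942), [(nat_lit 589632000), (nat_lit 728308000), (nat_lit 878528000)], [], [(nat_lit 3541865826), (nat_lit 3485806022), (nat_lit 3579741384), (nat_lit 3518944644), (nat_lit 2806190569), (nat_lit 2756359908), (nat_lit 2866876157), (nat_lit 2816930688)], (nat_lit 1271251), (nat_lit 1271251), (nat_lit 1271251), (nat_lit 1271251), (nat_lit 0), (nat_lit 2542501), [(nat_lit 1695001), (nat_lit 1271251), (nat_lit 1271251)], [(nat_lit 27), (nat_lit 62), (nat_lit 373), (nat_lit 150), (nat_lit 9)]⟩⟩))) (.leaf ⟨(nat_lit 777), (nat_lit 74), (nat_lit 0), (nat_lit 149), (nat_lit 0), (nat_lit 3360), (nat_lit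 1894), (nat_lit 1465), (nat_lit 0), (nat_lit 0), (nat_lit 519200), [((nat_lit 360), [((nat_lit 21), (nat_lit 0), (nat_lit 188)), ((nat_lit 39), (nat_lit 2), (nat_lit 292)), ((nat_lit 21), (nat_lit 2), (nat_lit 297))])], ⟨(nat_lit 6), false, false, false, (nat_lit 197), (nat_lit 3162), (nat_lit 3873), [(nat_lit 1414421), (nat_lit 1422280), (nat_lit 1436185), (nat_lit 1444407), (nat_lit 1543529), (nat_lit 1544252), (nat_lit 1565293), (nat_lit 1566378)]⟩, ⟨(nat_lit 8), false, true, true, (nat_lit 288), (nat_lit 3162), (nat_lit 3873), [(nat_lit 1671770), (nat_lit 1660704), (nat_lit 1715356), (nat_lit 1705013), (nat_lit 1736292), (nat_lit 1721657), (nat_lit 1779878), (nat_lit 1765967)]⟩, (nat_lit 5322135), (nat_lit 36311064), (nat_lit 10773846), (nat_lit 19915090), (nat_lit 8), (nat_lit 0), [], [⟨(nat_lit 1), (nat_lit 75), (nat_lit 66), (nat_lit 100), (nat_lit 338808508)⟩], [⟨(nat_lit 0), (nat_lit 100), (nat_lit 97), (nat_lit 25), (nat_lit 28534742)⟩],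 [],
 ⟨⟨[(nat_lit 40), (nat_lit 60), (nat_lit 80)], [(nat_lit 0), (nat_lit 398), (nat_lit 992)], [((nat_lit 0), (nat_lit 0), (nat_lit 0)), ((nat_lit 1000), (nat_lit 814), (nat_lit 310)), ((nat_lit 1000), (nat_lit 752), (nat_lit 464))], ((nat_lit 73), (nat_lit 100), (nat_lit 55))⟩, (nat_lit 0), (nat_lit 113), (nat_lit 113), (nat_lit 0), (nat_lit 109362), [(nat_lit 1448540405), (nat_lit 1611143998), (nat_lit 1536142000)], [(nat_lit 0), (nat_lit 0), (nat_lit 0)], [(nat_lit 24560515065), (nat_lit 25598015400), (nat_lit 25596789965), (nat_lit 26528767925), (nat_lit 26734509160), (nat_lit 27871304960), (nat_lit 27531726420), (nat_lit 28553584200)], (nat_lit 1271251), (nat_lit 1271251), (nat_lit 780000), (nat_lit 1435001), (nat_lit 1271251), (nat_lit 1271251), [(nat_lit 490000), (nat_lit 780000), (nat_lit 1100000)], [(nat_lit 2), (nat_lit 44), (nat_lit 260), (nat_lit 50), (nat_lit 10)]⟩,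
 ⟨⟨[(nat_lit 80), (nat_lit 120), (nat_lit 140)], [(nat_lit 0), (nat_lit 0), (nat_lit 1164)], [((nat_lit 0), (nat_lit 0), (nat_lit 0)), ((nat_lit 0), (nat_lit 0), (nat_lit 0)), ((nat_lit 941), (nat_lit 1000), (nat_lit 576))], ((nat_lit 100), (nat_lit 95), (nat_lit 55))⟩, (nat_lit 0), (nat_lit 388), (nat_lit 388), (nat_lit 0), (nat_lit 418666), [(nat_lit 1045424000), (nat_lit 1776864000), (nat_lit 2194766000)], [], [(nat_lit 8180772640), (nat_lit 7278887401), (nat_lit 8066392176), (nat_lit 7440723480), (nat_lit 11884390776), (nat_lit 11063725311), (nat_lit 14148277384), (nat_lit 13347441626)], (nat_lit 1271251), (nat_lit 1271251), (nat_lit 780000), (nat_lit 1435001), (nat_lit 0), (nat_lit 2542501), [(nat_lit 1100000), (nat_lit 1785001), (nat_lit 1271251)], [(nat_lit 17), (nat_lit 58), (nat_lit 456), (nat_lit 225), (nat_lit 13)]⟩,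
 ⟨⟨[(nat_lit 120), (nat_lit 160), (nat_lit 180)], [(nat_lit 0), (nat_lit 533), (nat_lit 2066)], [((nat_lit 0), (nat_lit 0), (nat_lit 0)), ((nat_lit 960), (nat_lit 1000), (nat_lit 200)), ((nat_lit 615), (nat_lit 1000), (nat_lit 729))], ((nat_lit 100), (nat_lit 79), (nat_lit 55))⟩, (nat_lit 348878), (nat_lit 300), (nat_lit 688), (nat_lit 9893601), (nat_lit 786233), [(nat_lit 1187232000), (nat_lit 1768928000), (nat_lit 2094642000)], [], [(nat_lit 8266515099), (nat_lit 8161623873), (nat_lit 8394058615), (nat_lit 8275453592), (nat_lit 6734300525), (nat_lit 6593910451), (nat_lit 6770781790), (nat_lit 6621865638)], (nat_lit 1271251), (nat_lit 1271251), (nat_lit 1271251), (nat_lit 1271251), (nat_lit 0), (nat_lit 2542501), [(nat_lit 1695001), (nat_lit 1271251), (nat_lit 1271251)], [(nat_lit 28), (nat_lit 65), (nat_lit 483), (nat_lit 250), (nat_lit 11)]⟩⟩)) (.leaf ⟨(nat_lit 625), (nat_lit 186), (nat_lit 0), (nat_lit 189), (nat_lit 0), (nat_lit 3389), (nat_lit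 2705), (nat_lit 2014), (nat_lit 0), (nat_lit 0), (nat_lit 305350), [((nat_lit 360), [((nat_lit 21), (nat_lit 0), (nat_lit 199)), ((nat_lit 39), (nat_lit 2), (nat_lit 426))])], ⟨(nat_lit 6), false, false, false, (nat_lit 206), (nat_lit 3162), (nat_lit 3873), [(nat_lit 1436185), (nat_lit 1444407), (nat_lit 1457950), (nat_lit 1466533), (nat_lit 1565293), (nat_lit 1566378), (nat_lit 1587058), (nat_lit 1588504)]⟩, ⟨(nat_lit 8), false, true, true, (nat_lit 288), (nat_lit 3162), (nat_lit 3873), [(nat_lit 1671770), (nat_lit 1660704), (nat_lit 1715356), (nat_lit 1705013), (nat_lit 1736292), (nat_lit 1721657), (nat_lit 1779878), (nat_lit 1765967)]⟩, (nat_lit 5379916), (nat_lit 35851651), (nat_lit 11432915), (nat_lit 19715434), (nat_lit 8), (nat_lit 0), [⟨(nat_lit 0), (nat_lit 100), (nat_lit 71), (nat_lit 100), (nat_lit 2440691)⟩], [⟨(nat_lit 1), (nat_lit 75), (nat_lit 66), (nat_lit 100), (nat_lit 371457908)⟩], [], [],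
 ⟨⟨[(nat_lit 40), (nat_lit 60), (nat_lit 80)], [(nat_lit 0), (nat_lit 398), (nat_lit 992)], [((nat_lit 0), (nat_lit 0), (nat_lit 0)), ((nat_lit 1000), (nat_lit 814), (nat_lit 310)), ((nat_lit 1000), (nat_lit 752), (nat_lit 464))], ((nat_lit 73), (nat_lit 100), (nat_lit 55))⟩, (nat_lit 1357225), (nat_lit 135), (nat_lit 135), (nat_lit 0), (nat_lit 201477), [(nat_lit 1542247604), (nat_lit 2037960823), (nat_lit 2518348177)], [(nat_lit 0), (nat_lit 0), (nat_lit 0)], [(nat_lit 24687812560), (nat_lit 25631222889), (nat_lit 25675212577), (nat_lit 26535888861), (nat_lit 26772190847), (nat_lit 27913158804), (nat_lit 27561251233), (nat_lit 28586613605)], (nat_lit 1271251), (nat_lit 1271251), (nat_lit 780000), (nat_lit 1435001), (nat_lit 1271251), (nat_lit 1271251), [(nat_lit 490000), (nat_lit 780000), (nat_lit 1100000)], [(nat_lit 2), (nat_lit 44), (nat_lit 260), (nat_lit 50), (nat_lit 10)]⟩,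
 ⟨⟨[(nat_lit 80), (nat_lit 120), (nat_lit 140)], [(nat_lit 0), (nat_lit 528), (nat_lit 1572)], [((nat_lit 0), (nat_lit 0), (nat_lit 0)), ((nat_lit 1000), (nat_lit 959), (nat_lit 206)), ((nat_lit 966), (nat_lit 1000), (nat_lit 679))], ((nat_lit 99), (nat_lit 100), (nat_lit 56))⟩, (nat_lit 3885462), (nat_lit 538), (nat_lit 538), (nat_lit 0), (nat_lit 702876), [(nat_lit 1758000000), (nat_lit 2988000000), (nat_lit 3690750000)], [], [(nat_lit 10079110642), (nat_lit 8965874905), (nat_lit 10569440772), (nat_lit 9374860210), (nat_lit 16560512177), (nat_lit 15388442439), (nat_lit 19970166221), (nat_lit 18826417157)], (nat_lit 1271251), (nat_lit 1271251), (nat_lit 780000), (nat_lit 1435001), (nat_lit 0), (nat_lit 2542501), [(nat_lit 1100000), (nat_lit 1785001), (nat_lit 1271251)], [(nat_lit 17), (nat_lit 58), (nat_lit 456), (nat_lit 225), (nat_lit 13)]⟩,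
 ⟨⟨[(nat_lit 120), (nat_lit 160), (nat_lit 180)], [(nat_lit 0), (nat_lit 533), (nat_lit 2066)], [((nat_lit 0), (nat_lit 0), (nat_lit 0)), ((nat_lit 960), (nat_lit 1000), (nat_lit 200)), ((nat_lit 615), (nat_lit 1000), (nat_lit 729))], ((nat_lit 100), (nat_lit 79), (nat_lit 55))⟩, (nat_lit 442537), (nat_lit 300), (nat_lit 1000), (nat_lit 12549600), (nat_lit 1478290), [(nat_lit 1505952000), (nat_lit 2243808000), (nat_lit 2656962000)], [], [(nat_lit 10264803431), (nat_lit 10063232077), (nat_lit 10380339538), (nat_lit 10207115374), (nat_lit 8027540479), (nat_lit 7829905974), (nat_lit 8147446929), (nat_lit 7973616580)], (nat_lit 1271251), (nat_lit 1271251), (nat_lit 1271251), (nat_lit 1271251), (nat_lit 0), (nat_lit 2542501), [(nat_lit 1695001), (nat_lit 1271251), (nat_lit 1271251)], [(nat_lit 28), (nat_lit 65), (nat_lit 483), (nat_lit 250), (nat_lit 11)]⟩⟩)))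
noncomputable def c8_51 : Tr Lf :=
 (.spl (nat_lit 5) (nat_lit 200) (.leaf ⟨(nat_lit 0), (nat_lit 620), (nat_lit 0), (nat_lit 380), (nat_lit 0), (nat_lit 3878), (nat_lit 8797), (nat_lit 3996), (nat_lit 0), (nat_lit 0), (nat_lit 0), [], Pd.none, Pd.none, (nat_lit 0), (nat_lit 1), (nat_lit 0), (nat_lit 0), (nat_lit 6), (nat_lit 0), [⟨(nat_lit 0), (nat_lit 88), (nat_lit 67), (nat_lit 100), (nat_lit 835962079)⟩], [⟨(nat_lit 1), (nat_lit 75), (nat_lit 66), (nat_lit 100), (nat_lit 195955492)⟩], [], [],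
 ⟨⟨[(nat_lit 40), (nat_lit 60), (nat_lit 80)], [(nat_lit 0), (nat_lit 398), (nat_lit 992)], [((nat_lit 0), (nat_lit 0), (nat_lit 0)), ((nat_lit 1000), (nat_lit 814), (nat_lit 310)), ((nat_lit 1000), (nat_lit 752), (nat_lit 464))], ((nat_lit 73), (nat_lit 100), (nat_lit 55))⟩, (nat_lit 6233311), (nat_lit 158), (nat_lit 158), (nat_lit 0), (nat_lit 256293), [(nat_lit 2032000007), (nat_lit 3517744867), (nat_lit 4688000000)], [], [(nat_lit 21530888437), (nat_lit 22896241333), (nat_lit 22998889822), (nat_lit 24212803855), (nat_lit 27407582043), (nat_lit 28618901208), (nat_lit 28210150164), (nat_lit 29143557710)], (nat_lit 1271251), (nat_lit 1271251), (nat_lit 780000), (nat_lit 1435001), (nat_lit 1271251), (nat_lit 1271251), [(nat_lit 490000), (nat_lit 780000), (nat_lit 1100000)], [(nat_lit 2), (nat_lit 44), (nat_lit 260), (nat_lit 50), (nat_lit 10)]⟩,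
 ⟨⟨[(nat_lit 60), (nat_lit 100), (nat_lit 120)], [(nat_lit 0), (nat_lit 0), (nat_lit 1164)], [((nat_lit 0), (nat_lit 0), (nat_lit 0)), ((nat_lit 0), (nat_lit 0), (nat_lit 0)), ((nat_lit 1000), (nat_lit 933), (nat_lit 572))], ((nat_lit 93), (nat_lit 100), (nat_lit 55))⟩, (nat_lit 3815944), (nat_lit 487), (nat_lit 487), (nat_lit 0), (nat_lit 719260), [(nat_lit 3282000000), (nat_lit 6250000000), (nat_lit 7968000000)], [], [(nat_lit 27576455867), (nat_lit 29019577834), (nat_lit 27328861412), (nat_lit 29158834098), (nat_lit 26180837660), (nat_lit 24623271745), (nat_lit 35802127644), (nat_lit 27883776402)], (nat_lit 1271251), (nat_lit 1271251), (nat_lit 780000), (nat_lit 1435001), (nat_lit 0), (nat_lit 1412501), [(nat_lit 780000), (nat_lit 1435001), (nat_lit 1271251)], [(nat_lit 10), (nat_lit 54), (nat_lit 317), (nat_lit 100), (nat_lit 10)]⟩,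
 ⟨⟨[(nat_lit 120), (nat_lit 160), (nat_lit 180)], [(nat_lit 0), (nat_lit 533), (nat_lit 2066)], [((nat_lit 0), (nat_lit 0), (nat_lit 0)), ((nat_lit 960), (nat_lit 1000), (nat_lit 200)), ((nat_lit 615), (nat_lit 1000), (nat_lit 729))], ((nat_lit 100), (nat_lit 79), (nat_lit 55))⟩, (nat_lit 1893727), (nat_lit 300), (nat_lit 1209), (nat_lit 25232000), (nat_lit 1885951), [(nat_lit 3027840000), (nat_lit 4511360000), (nat_lit 5342040000)], [], [(nat_lit 21026516576), (nat_lit 20666750240), (nat_lit 20961992614), (nat_lit 20621510210), (nat_lit 17294088658), (nat_lit 16868568982), (nat_lit 16936764118), (nat_lit 16523090043)], (nat_lit 1271251), (nat_lit 1271251), (nat_lit 1271251), (nat_lit 1271251), (nat_lit 0), (nat_lit 1412501), [(nat_lit 1695001), (nat_lit 1271251), (nat_lit 1271251)], [(nat_lit 28), (nat_lit 65), (nat_lit 428), (nat_lit 200), (nat_lit 10)]⟩⟩) (.leaf ⟨(nat_lit 0), (nat_lit 320), (nat_lit 0), (nat_lit 680), (nat_lit 0), (nat_lit 4202),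 (nat_lit 8650), (nat_lit 6471), (nat_lit 0), (nat_lit 0), (nat_lit 0), [], Pd.none, Pd.none, (nat_lit 0), (nat_lit 1), (nat_lit 0), (nat_lit 0), (nat_lit 6), (nat_lit 0), [⟨(nat_lit 0), (nat_lit 80), (nat_lit 60), (nat_lit 100), (nat_lit 1388640307)⟩], [], [], [],
 ⟨⟨[(nat_lit 40), (nat_lit 60), (nat_lit 80)], [(nat_lit 0), (nat_lit 398), (nat_lit 992)], [((nat_lit 0), (nat_lit 0), (nat_lit 0)), ((nat_lit 1000), (nat_lit 814), (nat_lit 310)), ((nat_lit 1000), (nat_lit 752), (nat_lit 464))], ((nat_lit 73), (nat_lit 100), (nat_lit 55))⟩, (nat_lit 9734840), (nat_lit 158), (nat_lit 158), (nat_lit 0), (nat_lit 256293), [(nat_lit 2032000007), (nat_lit 3840157349), (nat_lit 4688000000)], [], [(nat_lit 20956022365), (nat_lit 22497440966), (nat_lit 22392792580), (nat_lit 23655886572), (nat_lit 27828577437), (nat_lit 29086509672), (nat_lit 28388964094), (nat_lit 29512575890)], (nat_lit 1271251), (nat_lit 1271251), (nat_lit 780000), (nat_lit 1435001), (nat_lit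 1271251), (nat_lit 1271251), [(nat_lit 490000), (nat_lit 780000), (nat_lit 1100000)], [(nat_lit 2), (nat_lit 44), (nat_lit 260), (nat_lit 50), (nat_lit 10)]⟩,
 ⟨⟨[(nat_lit 60), (nat_lit 100), (nat_lit 120)], [(nat_lit 0), (nat_lit 0), (nat_lit 1164)], [((nat_lit 0), (nat_lit 0), (nat_lit 0)), ((nat_lit 0), (nat_lit 0), (nat_lit 0)), ((nat_lit 1000), (nat_lit 933), (nat_lit 572))], ((nat_lit 93), (nat_lit 100), (nat_lit 55))⟩, (nat_lit 5356360), (nat_lit 386), (nat_lit 386), (nat_lit 0), (nat_lit 719260), [(nat_lit 3282000000), (nat_lit 6250000000), (nat_lit 7968000000)], [], [(nat_lit 21263689525), (nat_lit 23391178050), (nat_lit 21730381775), (nat_lit 23540304500), (nat_lit 33716741650), (nat_lit 36050578800), (nat_lit 33035312650), (nat_lit 35046056000)], (nat_lit 1271251), (nat_lit 1271251), (nat_lit 780000), (nat_lit 1435001), (nat_lit 1271251), (nat_lit 1271251), [(nat_lit 780000), (nat_lit 1435001), (nat_lit 1271251)], [(nat_lit 10), (nat_lit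 54), (nat_lit 373), (nat_lit 150), (nat_lit 11)]⟩,
 ⟨⟨[(nat_lit 120), (nat_lit 160), (nat_lit 180)], [(nat_lit 0), (nat_lit 533), (nat_lit 2066)], [((nat_lit 0), (nat_lit 0), (nat_lit 0)), ((nat_lit 960), (nat_lit 1000), (nat_lit 200)), ((nat_lit 615), (nat_lit 1000), (nat_lit 729))], ((nat_lit 100), (nat_lit 79), (nat_lit 55))⟩, (nat_lit 4027806), (nat_lit 300), (nat_lit 1092), (nat_lit 45152000), (nat_lit 1885951), [(nat_lit 5418240000), (nat_lit 8072960000), (nat_lit 9559440000)], [], [(nat_lit 35710579086), (nat_lit 34997204136), (nat_lit 34481968787), (nat_lit 33733988345), (nat_lit 33441108566), (nat_lit 32675093002), (nat_lit 31969694853), (nat_lit 31216749776)], (nat_lit 1271251), (nat_lit 1271251), (nat_lit 1271251), (nat_lit 1271251), (nat_lit 1271251), (nat_lit 1271251), [(nat_lit 1695001), (nat_lit 1271251), (nat_lit 1271251)], [(nat_lit 28), (nat_lit 65), (nat_lit 483), (nat_lit 250), (nat_lit 11)]⟩⟩))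
noncomputable def c8_52 : Tr Lf :=
 (.spl (nat_lit 1) (nat_lit 280) (.spl (nat_lit 1) (nat_lit 260) (.leaf ⟨(nat_lit 772), (nat_lit 89), (nat_lit 0), (nat_lit 139), (nat_lit 0), (nat_lit 3153), (nat_lit 2207), (nat_lit 1431), (nat_lit 0), (nat_lit 0), (nat_lit 429950), [((nat_lit 360), [((nat_lit 21), (nat_lit 0), (nat_lit 95)), ((nat_lit 39), (nat_lit 2), (nat_lit 677))])], ⟨(nat_lit 6), false, true, false, (nat_lit 247), (nat_lit 3162), (nat_lit 3873), [(nat_lit 1543529), (nat_lit 1544252), (nat_lit 1565293), (nat_lit 1566378), (nat_lit 1672628), (nat_lit 1666215), (nat_lit 1694401), (nat_lit 1688349)]⟩, ⟨(nat_lit 6), false, true, true, (nat_lit 263), (nat_lit 3162), (nat_lit 3873), [(nat_lit 1542727), (nat_lit 1538797), (nat_lit 1586313), (nat_lit 1583107), (nat_lit 1736292), (nat_lit 1721657), (nat_lit 1779878), (nat_lit 1765967)]⟩, (nat_lit 5524830), (nat_lit 35183893), (nat_lit 15112383), (nat_lit 16703724), (nat_lit 6), (nat_lit 0), [], [⟨(nat_lit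 1), (nat_lit 75), (nat_lit 66), (nat_lit 100), (nat_lit 107903245)⟩], [], [⟨(nat_lit 0), (nat_lit 88), (nat_lit 100), (nat_lit 68), (nat_lit 47628406)⟩],
 ⟨⟨[(nat_lit 40), (nat_lit 60), (nat_lit 80)], [(nat_lit 0), (nat_lit 398), (nat_lit 992)], [((nat_lit 0), (nat_lit 0), (nat_lit 0)), ((nat_lit 1000), (nat_lit 814), (nat_lit 310)), ((nat_lit 1000), (nat_lit 752), (nat_lit 464))], ((nat_lit 73), (nat_lit 100), (nat_lit 55))⟩, (nat_lit 1324273), (nat_lit 115), (nat_lit 115), (nat_lit 0), (nat_lit 179882), [(nat_lit 1448057613), (nat_lit 1702058021), (nat_lit 1831903579)], [(nat_lit 0), (nat_lit 0), (nat_lit 0)], [(nat_lit 22603298753), (nat_lit 23707321998), (nat_lit 25069292757), (nat_lit 26029273664), (nat_lit 27456688945), (nat_lit 28318179068), (nat_lit 29289625283), (nat_lit 30157246362)], (nat_lit 1271251), (nat_lit 1271251), (nat_lit 1271251), (nat_lit 1271251), (nat_lit 1271251), (nat_lit 1271251), [(nat_lit 490000), (nat_lit 780000), (nat_lit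 1100000)], [(nat_lit 2), (nat_lit 44), (nat_lit 203), (nat_lit 0), (nat_lit 7)]⟩,
 ⟨⟨[(nat_lit 80), (nat_lit 120), (nat_lit 140)], [(nat_lit 0), (nat_lit 0), (nat_lit 1164)], [((nat_lit 0), (nat_lit 0), (nat_lit 0)), ((nat_lit 0), (nat_lit 0), (nat_lit 0)), ((nat_lit 941), (nat_lit 1000), (nat_lit 576))], ((nat_lit 100), (nat_lit 95), (nat_lit 55))⟩, (nat_lit 848398), (nat_lit 523), (nat_lit 523), (nat_lit 0), (nat_lit 730969), [(nat_lit 1068864000), (nat_lit 1816704000), (nat_lit 2243976000)], [], [(nat_lit 7744693780), (nat_lit 7132676922), (nat_lit 7487799450), (nat_lit 7656174271), (nat_lit 9953809610), (nat_lit 8985673748), (nat_lit 7878307734), (nat_lit 8065648585)], (nat_lit 1271251), (nat_lit 1271251), (nat_lit 1271251), (nat_lit 1271251), (nat_lit 0), (nat_lit 2825001), [(nat_lit 1100000), (nat_lit 1785001), (nat_lit 1271251)], [(nat_lit 17), (nat_lit 58), (nat_lit 483), (nat_lit 250), (nat_lit 14)]⟩,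
 ⟨⟨[(nat_lit 120), (nat_lit 160), (nat_lit 180)], [(nat_lit 0), (nat_lit 533), (nat_lit 2066)], [((nat_lit 0), (nat_lit 0), (nat_lit 0)), ((nat_lit 960), (nat_lit 1000), (nat_lit 200)), ((nat_lit 615), (nat_lit 1000), (nat_lit 729))], ((nat_lit 100), (nat_lit 79), (nat_lit 55))⟩, (nat_lit 391214), (nat_lit 300), (nat_lit 958), (nat_lit 9229600), (nat_lit 1318716), [(nat_lit 1107552000), (nat_lit 1650208000), (nat_lit 1954062000)], [], [(nat_lit 7836436730), (nat_lit 7685506046), (nat_lit 7747109818), (nat_lit 7600285197), (nat_lit 7803797795), (nat_lit 6564096737), (nat_lit 6196626982), (nat_lit 6062855970)], (nat_lit 1271251), (nat_lit 1271251), (nat_lit 1271251), (nat_lit 1271251), (nat_lit 0), (nat_lit 2825001), [(nat_lit 1695001), (nat_lit 1271251), (nat_lit 1271251)], [(nat_lit 28), (nat_lit 65), (nat_lit 483), (nat_lit 250), (nat_lit 11)]⟩⟩) (.leaf ⟨(nat_lit 0), (nat_lit 632), (nat_lit 0), (nat_lit 368), (nat_lit 0), (nat_lit 3878), (nat_lit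 6720), (nat_lit 3671), (nat_lit 0), (nat_lit 0), (nat_lit 0), [], Pd.none, Pd.none, (nat_lit 0), (nat_lit 1), (nat_lit 0), (nat_lit 0), (nat_lit 6), (nat_lit 0), [], [⟨(nat_lit 1), (nat_lit 75), (nat_lit 66), (nat_lit 100), (nat_lit 176793803)⟩], [], [],
 ⟨⟨[(nat_lit 40), (nat_lit 60), (nat_lit 80)], [(nat_lit 0), (nat_lit 398), (nat_lit 992)], [((nat_lit 0), (nat_lit 0), (nat_lit 0)), ((nat_lit 1000), (nat_lit 814), (nat_lit 310)), ((nat_lit 1000), (nat_lit 752), (nat_lit 464))], ((nat_lit 73), (nat_lit 100), (nat_lit 55))⟩, (nat_lit 3334761), (nat_lit 120), (nat_lit 120), (nat_lit 0), (nat_lit 201477), [(nat_lit 2032000020), (nat_lit 3282000009), (nat_lit 4688000000)], [], [(nat_lit 23111890837), (nat_lit 24219070549), (nat_lit 25566215665), (nat_lit 26613144010), (nat_lit 28210150203), (nat_lit 29143557710), (nat_lit 30034233962), (nat_lit 30963268012)], (nat_lit 1271251), (nat_lit 1271251), (nat_lit 1271251), (nat_lit 1271251), (nat_lit 1271251),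 (nat_lit 1271251), [(nat_lit 490000), (nat_lit 780000), (nat_lit 1100000)], [(nat_lit 2), (nat_lit 44), (nat_lit 203), (nat_lit 0), (nat_lit 7)]⟩,
 ⟨⟨[(nat_lit 80), (nat_lit 120), (nat_lit 140)], [(nat_lit 0), (nat_lit 528), (nat_lit 1572)], [((nat_lit 0), (nat_lit 0), (nat_lit 0)), ((nat_lit 1000), (nat_lit 959), (nat_lit 206)), ((nat_lit 966), (nat_lit 1000), (nat_lit 679))], ((nat_lit 99), (nat_lit 100), (nat_lit 56))⟩, (nat_lit 7690156), (nat_lit 511), (nat_lit 511), (nat_lit 0), (nat_lit 702876), [(nat_lit 4688000000), (nat_lit 7968000000), (nat_lit 9842000000)], [], [(nat_lit 29089401760), (nat_lit 28256529104), (nat_lit 29346173384), (nat_lit 29876640304), (nat_lit 36676034432), (nat_lit 33728198912), (nat_lit 32247876320), (nat_lit 32977041840)], (nat_lit 1271251), (nat_lit 1271251), (nat_lit 1271251), (nat_lit 1271251), (nat_lit 0), (nat_lit 2825001), [(nat_lit 1100000), (nat_lit 1785001), (nat_lit 1271251)], [(nat_lit 17), (nat_lit 58),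 (nat_lit 483), (nat_lit 250), (nat_lit 14)]⟩,
 ⟨⟨[(nat_lit 120), (nat_lit 160), (nat_lit 180)], [(nat_lit 0), (nat_lit 533), (nat_lit 2066)], [((nat_lit 0), (nat_lit 0), (nat_lit 0)), ((nat_lit 960), (nat_lit 1000), (nat_lit 200)), ((nat_lit 615), (nat_lit 1000), (nat_lit 729))], ((nat_lit 100), (nat_lit 79), (nat_lit 55))⟩, (nat_lit 861659), (nat_lit 300), (nat_lit 1025), (nat_lit 24435200), (nat_lit 1478290), [(nat_lit 2932224000), (nat_lit 4368896000), (nat_lit 5173344000)], [], [(nat_lit 21303059989), (nat_lit 20921809367), (nat_lit 20905161256), (nat_lit 20529839124), (nat_lit 20579388735), (nat_lit 17399135357), (nat_lit 16633613644), (nat_lit 16269015785)], (nat_lit 1271251), (nat_lit 1271251), (nat_lit 1271251), (nat_lit 1271251), (nat_lit 0), (nat_lit 2825001), [(nat_lit 1695001), (nat_lit 1271251), (nat_lit 1271251)], [(nat_lit 28), (nat_lit 65), (nat_lit 483), (nat_lit 250), (nat_lit 11)]⟩⟩)) (.leaf ⟨(nat_lit 0), (nat_lit 627), (nat_lit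 0), (nat_lit 373), (nat_lit 0), (nat_lit 4088), (nat_lit 9251), (nat_lit 3541), (nat_lit 0), (nat_lit 0), (nat_lit 0), [], Pd.none, Pd.none, (nat_lit 0), (nat_lit 1), (nat_lit 0), (nat_lit 0), (nat_lit 6), (nat_lit 0), [], [⟨(nat_lit 1), (nat_lit 75), (nat_lit 66), (nat_lit 100), (nat_lit 201557937)⟩], [], [],
 ⟨⟨[(nat_lit 40), (nat_lit 60), (nat_lit 80)], [(nat_lit 0), (nat_lit 398), (nat_lit 992)], [((nat_lit 0), (nat_lit 0), (nat_lit 0)), ((nat_lit 1000), (nat_lit 814), (nat_lit 310)), ((nat_lit 1000), (nat_lit 752), (nat_lit 464))], ((nat_lit 73), (nat_lit 100), (nat_lit 55))⟩, (nat_lit 5782202), (nat_lit 133), (nat_lit 133), (nat_lit 0), (nat_lit 256293), [(nat_lit 2032000042), (nat_lit 3525407350), (nat_lit 4688000000)], [], [(nat_lit 22606049122), (nat_lit 23851793590), (nat_lit 25202726206), (nat_lit 26285218008), (nat_lit 28272901036), (nat_lit 29382736160), (nat_lit 30242120068), (nat_lit 31196736352)], (nat_lit 1271251), (nat_lit 1271251),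 (nat_lit 1271251), (nat_lit 1271251), (nat_lit 1271251), (nat_lit 1271251), [(nat_lit 490000), (nat_lit 780000), (nat_lit 1100000)], [(nat_lit 2), (nat_lit 44), (nat_lit 203), (nat_lit 0), (nat_lit 7)]⟩,
 ⟨⟨[(nat_lit 60), (nat_lit 100), (nat_lit 120)], [(nat_lit 0), (nat_lit 0), (nat_lit 1164)], [((nat_lit 0), (nat_lit 0), (nat_lit 0)), ((nat_lit 0), (nat_lit 0), (nat_lit 0)), ((nat_lit 1000), (nat_lit 933), (nat_lit 572))], ((nat_lit 93), (nat_lit 100), (nat_lit 55))⟩, (nat_lit 3367342), (nat_lit 449), (nat_lit 449), (nat_lit 0), (nat_lit 719260), [(nat_lit 3282000000), (nat_lit 6250000000), (nat_lit 7968000000)], [], [(nat_lit 25954964796), (nat_lit 27829083534), (nat_lit 28548970305), (nat_lit 33145213638), (nat_lit 34773784978), (nat_lit 35758793920), (nat_lit 35730762247), (nat_lit 37347298504)], (nat_lit 1271251), (nat_lit 1271251), (nat_lit 1271251), (nat_lit 1271251), (nat_lit 0), (nat_lit 2825001), [(nat_lit 780000), (nat_lit 1435001),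 (nat_lit 1271251)], [(nat_lit 10), (nat_lit 54), (nat_lit 401), (nat_lit 175), (nat_lit 13)]⟩,
 ⟨⟨[(nat_lit 120), (nat_lit 160), (nat_lit 180)], [(nat_lit 0), (nat_lit 533), (nat_lit 2066)], [((nat_lit 0), (nat_lit 0), (nat_lit 0)), ((nat_lit 960), (nat_lit 1000), (nat_lit 200)), ((nat_lit 615), (nat_lit 1000), (nat_lit 729))], ((nat_lit 100), (nat_lit 79), (nat_lit 55))⟩, (nat_lit 1478753), (nat_lit 300), (nat_lit 1209), (nat_lit 24767200), (nat_lit 1885951), [(nat_lit 2972064000), (nat_lit 4428256000), (nat_lit 5243634000)], [], [(nat_lit 22783533194), (nat_lit 22390871798), (nat_lit 22157627923), (nat_lit 21742102421), (nat_lit 20735009385), (nat_lit 17993175506), (nat_lit 17607824811), (nat_lit 17175076028)], (nat_lit 1271251), (nat_lit 1271251), (nat_lit 1271251), (nat_lit 1271251), (nat_lit 0), (nat_lit 2825001), [(nat_lit 1695001), (nat_lit 1271251), (nat_lit 1271251)], [(nat_lit 28), (nat_lit 65), (nat_lit 483), (nat_lit 250), (nat_lit 11)]⟩⟩))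
noncomputable def c8_53 : Tr Lf :=
 (.spl (nat_lit 5) (nat_lit 200) (.leaf ⟨(nat_lit 0), (nat_lit 1000), (nat_lit 0), (nat_lit 0), (nat_lit 0), (nat_lit 4520), (nat_lit 7500), (nat_lit 0), (nat_lit 0), (nat_lit 0), (nat_lit 0), [], Pd.none, Pd.none, (nat_lit 0), (nat_lit 1), (nat_lit 0), (nat_lit 0), (nat_lit 3), (nat_lit 0), [], [⟨(nat_lit 1), (nat_lit 77), (nat_lit 72), (nat_lit 100), (nat_lit 367020543)⟩], [], [⟨(nat_lit 0), (nat_lit 100), (nat_lit 72), (nat_lit 79), (nat_lit 38736035)⟩],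
 ⟨⟨[(nat_lit 40), (nat_lit 60), (nat_lit 80)], [(nat_lit 0), (nat_lit 398), (nat_lit 992)], [((nat_lit 0), (nat_lit 0), (nat_lit 0)), ((nat_lit 1000), (nat_lit 814), (nat_lit 310)), ((nat_lit 1000), (nat_lit 752), (nat_lit 464))], ((nat_lit 73), (nat_lit 100), (nat_lit 55))⟩, (nat_lit 1737442), (nat_lit 293), (nat_lit 293), (nat_lit 0), (nat_lit 676623), [(nat_lit 2032000004), (nat_lit 3282000007), (nat_lit 4688000000)], [], [(nat_lit 26622423100), (nat_lit 27539976710), (nat_lit 31176038290), (nat_lit 32152822920), (nat_lit 30378484565), (nat_lit 31024041920), (nat_lit 34270517320), (nat_lit 35054990320)], (nat_lit 1271251), (nat_lit 1271251), (nat_lit 1271251), (nat_lit 1271251), (nat_lit 780000), (nat_lit 2499376), [(nat_lit 490000), (nat_lit 780000), (nat_lit 1100000)], [(nat_lit 2), (nat_lit 44), (nat_lit 317), (nat_lit 100), (nat_lit 13)]⟩,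
 ⟨⟨[(nat_lit 80), (nat_lit 120), (nat_lit 140)], [(nat_lit 0), (nat_lit 0), (nat_lit 1164)], [((nat_lit 0), (nat_lit 0), (nat_lit 0)), ((nat_lit 0), (nat_lit 0), (nat_lit 0)), ((nat_lit 941), (nat_lit 1000), (nat_lit 576))], ((nat_lit 100), (nat_lit 95), (nat_lit 55))⟩, (nat_lit 2335862), (nat_lit 230), (nat_lit 230), (nat_lit 0), (nat_lit 0), [(nat_lit 4688000000), (nat_lit 7968000000), (nat_lit 9842000000)], [], [(nat_lit 29263590632), (nat_lit 34288380632), (nat_lit 39229804632), (nat_lit 42257472632), (nat_lit 24764177132), (nat_lit 28633465632), (nat_lit 32531336632), (nat_lit 34892358632)], (nat_lit 0), (nat_lit 0), (nat_lit 0), (nat_lit 0), (nat_lit 0), (nat_lit 0), [], [(nat_lit 17), (nat_lit 58), (nat_lit 373), (nat_lit 150), (nat_lit 10)]⟩,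
 Rw.none⟩) (.spl (nat_lit 5) (nat_lit 320) (.leaf ⟨(nat_lit 0), (nat_lit 1000), (nat_lit 0), (nat_lit 0), (nat_lit 0), (nat_lit 4125), (nat_lit 5710), (nat_lit 0), (nat_lit 0), (nat_lit 0), (nat_lit 0), [], Pd.none, Pd.none, (nat_lit 0), (nat_lit 1), (nat_lit 0), (nat_lit 0), (nat_lit 5), (nat_lit 0), [], [⟨(nat_lit 1), (nat_lit 77), (nat_lit 72), (nat_lit 100), (nat_lit 375414476)⟩], [], [],
 ⟨⟨[(nat_lit 40), (nat_lit 60), (nat_lit 80)], [(nat_lit 0), (nat_lit 398), (nat_lit 992)], [((nat_lit 0), (nat_lit 0), (nat_lit 0)), ((nat_lit 1000), (nat_lit 814), (nat_lit 310)), ((nat_lit 1000), (nat_lit 752), (nat_lit 464))], ((nat_lit 73), (nat_lit 100), (nat_lit 55))⟩, (nat_lit 3283448), (nat_lit 293), (nat_lit 293), (nat_lit 0), (nat_lit 676623), [(nat_lit 2032000014), (nat_lit 3301170441), (nat_lit 4688000000)], [], [(nat_lit 25638951391), (nat_lit 26568067078), (nat_lit 30681491522), (nat_lit 31488145209), (nat_lit 30057788670), (nat_lit 30807244600),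 (nat_lit 33767140756), (nat_lit 34527436813)], (nat_lit 1271251), (nat_lit 1271251), (nat_lit 1271251), (nat_lit 1271251), (nat_lit 780000), (nat_lit 2499376), [(nat_lit 490000), (nat_lit 780000), (nat_lit 1100000)], [(nat_lit 2), (nat_lit 44), (nat_lit 317), (nat_lit 100), (nat_lit 13)]⟩,
 ⟨⟨[(nat_lit 80), (nat_lit 120), (nat_lit 140)], [(nat_lit 0), (nat_lit 0), (nat_lit 1164)], [((nat_lit 0), (nat_lit 0), (nat_lit 0)), ((nat_lit 0), (nat_lit 0), (nat_lit 0)), ((nat_lit 941), (nat_lit 1000), (nat_lit 576))], ((nat_lit 100), (nat_lit 95), (nat_lit 55))⟩, (nat_lit 24819), (nat_lit 98), (nat_lit 98), (nat_lit 0), (nat_lit 0), [(nat_lit 4688000000), (nat_lit 7968000000), (nat_lit 9842000000)], [], [(nat_lit 19764207980), (nat_lit 24306263480), (nat_lit 28377551360), (nat_lit 31559451200), (nat_lit 25285489420), (nat_lit 28596863360), (nat_lit 32047024360), (nat_lit 34499703320)], (nat_lit 0), (nat_lit 0), (nat_lit 0), (nat_lit 0), (nat_lit 0), (nat_lit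 0), [], [(nat_lit 17), (nat_lit 58), (nat_lit 401), (nat_lit 175), (nat_lit 10)]⟩,
 Rw.none⟩) (.leaf ⟨(nat_lit 0), (nat_lit 1000), (nat_lit 0), (nat_lit 0), (nat_lit 0), (nat_lit 4490), (nat_lit 7648), (nat_lit 0), (nat_lit 0), (nat_lit 0), (nat_lit 0), [], Pd.none, Pd.none, (nat_lit 0), (nat_lit 1), (nat_lit 0), (nat_lit 0), (nat_lit 8), (nat_lit 0), [], [⟨(nat_lit 1), (nat_lit 77), (nat_lit 72), (nat_lit 100), (nat_lit 332590691)⟩], [⟨(nat_lit 1), (nat_lit 30), (nat_lit 98), (nat_lit 100), (nat_lit 538467365)⟩], [],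
 ⟨⟨[(nat_lit 40), (nat_lit 60), (nat_lit 80)], [(nat_lit 0), (nat_lit 398), (nat_lit 992)], [((nat_lit 0), (nat_lit 0), (nat_lit 0)), ((nat_lit 1000), (nat_lit 814), (nat_lit 310)), ((nat_lit 1000), (nat_lit 752), (nat_lit 464))], ((nat_lit 73), (nat_lit 100), (nat_lit 55))⟩, (nat_lit 2517841), (nat_lit 293), (nat_lit 293), (nat_lit 0), (nat_lit 676623), [(nat_lit 2032000011), (nat_lit 3282000009), (nat_lit 4688000000)], [], [(nat_lit 25345285096), (nat_lit 26260149978), (nat_lit 30959663335), (nat_lit 32100893790), (nat_lit 29110101805), (nat_lit 30155632105), (nat_lit 34232177965), (nat_lit 35014922965)], (nat_lit 1271251), (nat_lit 1271251), (nat_lit 1271251), (nat_lit 1271251), (nat_lit 780000), (nat_lit 2499376), [(nat_lit 490000), (nat_lit 780000), (nat_lit 1100000)], [(nat_lit 2), (nat_lit 44), (nat_lit 317), (nat_lit 100), (nat_lit 13)]⟩,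
 ⟨⟨[(nat_lit 80), (nat_lit 120), (nat_lit 140)], [(nat_lit 0), (nat_lit 0), (nat_lit 1164)], [((nat_lit 0), (nat_lit 0), (nat_lit 0)), ((nat_lit 0), (nat_lit 0), (nat_lit 0)), ((nat_lit 941), (nat_lit 1000), (nat_lit 576))], ((nat_lit 100), (nat_lit 95), (nat_lit 55))⟩, (nat_lit 0), (nat_lit 109), (nat_lit 109), (nat_lit 0), (nat_lit 0), [(nat_lit 4688000000), (nat_lit 7968000000), (nat_lit 9842000000)], [], [(nat_lit 28575868240), (nat_lit 31650119376), (nat_lit 35001006144), (nat_lit 36806374912), (nat_lit 33784151744), (nat_lit 35903690528), (nat_lit 39111928064), (nat_lit 40787108032)], (nat_lit 0), (nat_lit 0), (nat_lit 0), (nat_lit 0), (nat_lit 0), (nat_lit 0), [], [(nat_lit 17), (nat_lit 58), (nat_lit 317), (nat_lit 100), (nat_lit 8)]⟩,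
 Rw.none⟩)))
noncomputable def c8_54 : Tr Lf :=
 (.trX (nat_lit 3) (nat_lit 0) (nat_lit 1) (nat_lit 78) (nat_lit 39) (nat_lit 100) (nat_lit 390) (.spl (nat_lit 5) (nat_lit 200) (.spl (nat_lit 6) (nat_lit 16) (.leaf ⟨(nat_lit 570), (nat_lit 363), (nat_lit 0), (nat_lit 67), (nat_lit 0), (nat_lit 3364), (nat_lit 3355), (nat_lit 773), (nat_lit 0), (nat_lit 0), (nat_lit 258350), [((nat_lit 360), [((nat_lit 21), (nat_lit 0), (nat_lit 239)), ((nat_lit 39), (nat_lit 2), (nat_lit 331))])], ⟨(nat_lit 7), false, true, true, (nat_lit 311), (nat_lit 3162), (nat_lit 3873), [(nat_lit 1672628), (nat_lit 1666215), (nat_lit 1716165), (nat_lit 1710475), (nat_lit 1850063), (nat_lit 1833837), (nat_lit 1893649), (nat_lit 1878147)]⟩, ⟨(nat_lit 3), false, false, true, (nat_lit 165), (nat_lit 3162), (nat_lit 3873), [(nat_lit 1283782), (nat_lit 1289472), (nat_lit 1349127), (nat_lit 1355902), (nat_lit 1477347), (nat_lit 1472332), (nat_lit 1542727), (nat_lit 1538797)]⟩, (nat_lit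 5134564), (nat_lit 36165512), (nat_lit 22646189), (nat_lit 8188299), (nat_lit 3), (nat_lit 0), [⟨(nat_lit 1), (nat_lit 54), (nat_lit 69), (nat_lit 100), (nat_lit 19967990)⟩], [], [], [⟨(nat_lit 0), (nat_lit 100), (nat_lit 74), (nat_lit 60), (nat_lit 33373337)⟩],
 ⟨⟨[(nat_lit 40), (nat_lit 60), (nat_lit 80)], [(nat_lit 0), (nat_lit 398), (nat_lit 992)], [((nat_lit 0), (nat_lit 0), (nat_lit 0)), ((nat_lit 1000), (nat_lit 814), (nat_lit 310)), ((nat_lit 1000), (nat_lit 752), (nat_lit 464))], ((nat_lit 77), (nat_lit 100), (nat_lit 42))⟩, (nat_lit 2314316), (nat_lit 167), (nat_lit 167), (nat_lit 0), (nat_lit 250444), [(nat_lit 1577552073), (nat_lit 2218723925), (nat_lit 2766358000)], [(nat_lit 0), (nat_lit 0), (nat_lit 0)], [(nat_lit 23480013225), (nat_lit 24584738330), (nat_lit 28541193863), (nat_lit 29583134809), (nat_lit 25691324030), (nat_lit 26620605832), (nat_lit 29944719807), (nat_lit 30677114922)], (nat_lit 1271251), (nat_lit 1271251), (nat_lit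 1271251), (nat_lit 1271251), (nat_lit 780000), (nat_lit 1762501), [(nat_lit 490000), (nat_lit 780000), (nat_lit 1100000)], [(nat_lit 2), (nat_lit 44), (nat_lit 272), (nat_lit 60), (nat_lit 10)]⟩,
 ⟨⟨[(nat_lit 80), (nat_lit 100), (nat_lit 120)], [(nat_lit 0), (nat_lit 0), (nat_lit 511)], [((nat_lit 0), (nat_lit 0), (nat_lit 0)), ((nat_lit 0), (nat_lit 0), (nat_lit 0)), ((nat_lit 1000), (nat_lit 997), (nat_lit 383))], ((nat_lit 100), (nat_lit 100), (nat_lit 40))⟩, (nat_lit 2343063), (nat_lit 550), (nat_lit 550), (nat_lit 0), (nat_lit 933620), [(nat_lit 2015840000), (nat_lit 2687500000), (nat_lit 3426240000)], [], [(nat_lit 14676484950), (nat_lit 15024880865), (nat_lit 16101245133), (nat_lit 16968589105), (nat_lit 13007009360), (nat_lit 13245768190), (nat_lit 14035023018), (nat_lit 14195470045)], (nat_lit 1271251), (nat_lit 1271251), (nat_lit 1271251), (nat_lit 1271251), (nat_lit 0), (nat_lit 1412501), [(nat_lit 1100000), (nat_lit 1442501), (nat_lit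 1271251)], [(nat_lit 16), (nat_lit 54), (nat_lit 260), (nat_lit 50), (nat_lit 8)]⟩,
 ⟨⟨[(nat_lit 140), (nat_lit 160), (nat_lit 180)], [(nat_lit 0), (nat_lit 0), (nat_lit 799)], [((nat_lit 0), (nat_lit 0), (nat_lit 0)), ((nat_lit 0), (nat_lit 0), (nat_lit 0)), ((nat_lit 728), (nat_lit 1000), (nat_lit 454))], ((nat_lit 100), (nat_lit 75), (nat_lit 43))⟩, (nat_lit 133275), (nat_lit 300), (nat_lit 2212), (nat_lit 4971400), (nat_lit 3776241), [(nat_lit 659414000), (nat_lit 795424000), (nat_lit 941886000)], [], [(nat_lit 4310591192), (nat_lit 4152024435), (nat_lit 4019420568), (nat_lit 3868732668), (nat_lit 3565205853), (nat_lit 3784654950), (nat_lit 4344687418), (nat_lit 4938065249)], (nat_lit 780000), (nat_lit 1271251), (nat_lit 780000), (nat_lit 1762501), (nat_lit 0), (nat_lit 1412501), [(nat_lit 1977501), (nat_lit 1271251), (nat_lit 1271251)], [(nat_lit 31), (nat_lit 65), (nat_lit 631), (nat_lit 175), (nat_lit 15)]⟩⟩) (.leaf ⟨(nat_lit 67), (nat_lit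 823), (nat_lit 0), (nat_lit 110), (nat_lit 0), (nat_lit 4568), (nat_lit 7195), (nat_lit 1663), (nat_lit 0), (nat_lit 0), (nat_lit 268000), [((nat_lit 360), [((nat_lit 39), (nat_lit 5), (nat_lit 67))])], ⟨(nat_lit 7), false, true, true, (nat_lit 311), (nat_lit 3162), (nat_lit 3873), [(nat_lit 1672628), (nat_lit 1666215), (nat_lit 1716165), (nat_lit 1710475), (nat_lit 1850063), (nat_lit 1833837), (nat_lit 1893649), (nat_lit 1878147)]⟩, ⟨(nat_lit 3), false, false, true, (nat_lit 165), (nat_lit 3162), (nat_lit 3873), [(nat_lit 1283782), (nat_lit 1289472), (nat_lit 1349127), (nat_lit 1355902), (nat_lit 1477347), (nat_lit 1472332), (nat_lit 1542727), (nat_lit 1538797)]⟩, (nat_lit 5134564), (nat_lit 36165512), (nat_lit 22646189), (nat_lit 8188299), (nat_lit 3), (nat_lit 0), [], [], [], [⟨(nat_lit 0), (nat_lit 100), (nat_lit 74), (nat_lit 60), (nat_lit 55990166)⟩],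
 ⟨⟨[(nat_lit 40), (nat_lit 60), (nat_lit 80)], [(nat_lit 0), (nat_lit 398), (nat_lit 992)], [((nat_lit 0), (nat_lit 0), (nat_lit 0)), ((nat_lit 1000), (nat_lit 814), (nat_lit 310)), ((nat_lit 1000), (nat_lit 752), (nat_lit 464))], ((nat_lit 73), (nat_lit 100), (nat_lit 55))⟩, (nat_lit 843560), (nat_lit 140), (nat_lit 140), (nat_lit 0), (nat_lit 185260), [(nat_lit 1956906403), (nat_lit 2851090200), (nat_lit 3710496800)], [(nat_lit 0), (nat_lit 0), (nat_lit 0)], [(nat_lit 23898486693), (nat_lit 25073575567), (nat_lit 30390234756), (nat_lit 31580615658), (nat_lit 25658149907), (nat_lit 26634365627), (nat_lit 31164458143), (nat_lit 32157889606)], (nat_lit 1271251), (nat_lit 1271251), (nat_lit 1271251), (nat_lit 1271251), (nat_lit 780000), (nat_lit 1762501), [(nat_lit 490000), (nat_lit 780000), (nat_lit 1100000)], [(nat_lit 2), (nat_lit 44), (nat_lit 272), (nat_lit 60), (nat_lit 10)]⟩,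
 ⟨⟨[(nat_lit 80), (nat_lit 120), (nat_lit 140)], [(nat_lit 0), (nat_lit 0), (nat_lit 1164)], [((nat_lit 0), (nat_lit 0), (nat_lit 0)), ((nat_lit 0), (nat_lit 0), (nat_lit 0)), ((nat_lit 941), (nat_lit 1000), (nat_lit 576))], ((nat_lit 100), (nat_lit 95), (nat_lit 55))⟩, (nat_lit 2088943), (nat_lit 487), (nat_lit 487), (nat_lit 0), (nat_lit 639215), [(nat_lit 4373904000), (nat_lit 7434144000), (nat_lit 9182586000)], [], [(nat_lit 34903704600), (nat_lit 36029904720), (nat_lit 39274335591), (nat_lit 40077662760), (nat_lit 30479033412), (nat_lit 31302407548), (nat_lit 34032258278), (nat_lit 34604601200)], (nat_lit 1271251), (nat_lit 1271251), (nat_lit 1271251), (nat_lit 1271251), (nat_lit 0), (nat_lit 1412501), [(nat_lit 1100000), (nat_lit 1785001), (nat_lit 1271251)], [(nat_lit 17), (nat_lit 58), (nat_lit 345), (nat_lit 125), (nat_lit 9)]⟩,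
 ⟨⟨[(nat_lit 140), (nat_lit 180), (nat_lit 200)], [(nat_lit 0), (nat_lit 0), (nat_lit 2835)], [((nat_lit 0), (nat_lit 0), (nat_lit 0)), ((nat_lit 0), (nat_lit 0), (nat_lit 0)), ((nat_lit 363), (nat_lit 1000), (nat_lit 798))], ((nat_lit 0), (nat_lit 0), (nat_lit 0))⟩, (nat_lit 30265), (nat_lit 300), (nat_lit 1751), (nat_lit 8591000), (nat_lit 2724938), [(nat_lit 1082620000), (nat_lit 1546380000), (nat_lit 1804000000)], [], [(nat_lit 8358448851), (nat_lit 7480900841), (nat_lit 7173531684), (nat_lit 6853343738), (nat_lit 5931923677), (nat_lit 6522531766), (nat_lit 7660275206), (nat_lit 8869756334)], (nat_lit 780000), (nat_lit 1271251), (nat_lit 780000), (nat_lit 1762501), (nat_lit 0), (nat_lit 1412501), [(nat_lit 1977501), (nat_lit 1271251), (nat_lit 1271251)], [(nat_lit 32), (nat_lit 67), (nat_lit 516), (nat_lit 175), (nat_lit 11)]⟩⟩)) (.spl (nat_lit 6) (nat_lit 16) (.leaf ⟨(nat_lit 664), (nat_lit 285), (nat_lit 0), (nat_lit 51), (nat_lit 0), (nat_lit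 3323), (nat_lit 2387), (nat_lit 564), (nat_lit 0), (nat_lit 0), (nat_lit 337850), [((nat_lit 360), [((nat_lit 21), (nat_lit 0), (nat_lit 173)), ((nat_lit 39), (nat_lit 2), (nat_lit 491))])], ⟨(nat_lit 7), false, true, true, (nat_lit 311), (nat_lit 3162), (nat_lit 3873), [(nat_lit 1672628), (nat_lit 1666215), (nat_lit 1716165), (nat_lit 1710475), (nat_lit 1850063), (nat_lit 1833837), (nat_lit 1893649), (nat_lit 1878147)]⟩, ⟨(nat_lit 3), false, false, true, (nat_lit 165), (nat_lit 3162), (nat_lit 3873), [(nat_lit 1283782), (nat_lit 1289472), (nat_lit 1349127), (nat_lit 1355902), (nat_lit 1477347), (nat_lit 1472332), (nat_lit 1542727), (nat_lit 1538797)]⟩, (nat_lit 5134564), (nat_lit 36165512), (nat_lit 22646189), (nat_lit 8188299), (nat_lit 5), (nat_lit 0), [], [], [], [⟨(nat_lit 1), (nat_lit 75), (nat_lit 74), (nat_lit 100), (nat_lit 102649926)⟩],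
 ⟨⟨[(nat_lit 40), (nat_lit 60), (nat_lit 80)], [(nat_lit 0), (nat_lit 398), (nat_lit 992)], [((nat_lit 0), (nat_lit 0), (nat_lit 0)), ((nat_lit 1000), (nat_lit 814), (nat_lit 310)), ((nat_lit 1000), (nat_lit 752), (nat_lit 464))], ((nat_lit 77), (nat_lit 100), (nat_lit 42))⟩, (nat_lit 1393909), (nat_lit 167), (nat_lit 167), (nat_lit 0), (nat_lit 250444), [(nat_lit 1517371201), (nat_lit 1944315786), (nat_lit 2343171414)], [(nat_lit 0), (nat_lit 0), (nat_lit 0)], [(nat_lit 23444616092), (nat_lit 24495732682), (nat_lit 28478228185), (nat_lit 29515114282), (nat_lit 25569592244), (nat_lit 26472788959), (nat_lit 29784469941), (nat_lit 30626604035)], (nat_lit 1271251), (nat_lit 1271251), (nat_lit 1271251), (nat_lit 1271251), (nat_lit 780000), (nat_lit 1762501), [(nat_lit 490000), (nat_lit 780000), (nat_lit 1100000)], [(nat_lit 2), (nat_lit 44), (nat_lit 272), (nat_lit 60), (nat_lit 10)]⟩,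
 ⟨⟨[(nat_lit 80), (nat_lit 100), (nat_lit 120)], [(nat_lit 0), (nat_lit 0), (nat_lit 511)], [((nat_lit 0), (nat_lit 0), (nat_lit 0)), ((nat_lit 0), (nat_lit 0), (nat_lit 0)), ((nat_lit 1000), (nat_lit 997), (nat_lit 383))], ((nat_lit 100), (nat_lit 100), (nat_lit 40))⟩, (nat_lit 1411888), (nat_lit 439), (nat_lit 439), (nat_lit 0), (nat_lit 933620), [(nat_lit 1575168000), (nat_lit 2100000000), (nat_lit 2677248000)], [], [(nat_lit 10531071775), (nat_lit 10801306429), (nat_lit 11584228424), (nat_lit 11754314022), (nat_lit 11831172416), (nat_lit 11947999896), (nat_lit 12677056984), (nat_lit 12978942494)], (nat_lit 1271251), (nat_lit 1271251), (nat_lit 1271251), (nat_lit 1271251), (nat_lit 1271251), (nat_lit 1271251), [(nat_lit 1100000), (nat_lit 1442501), (nat_lit 1271251)], [(nat_lit 16), (nat_lit 54), (nat_lit 317), (nat_lit 100), (nat_lit 9)]⟩,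
 ⟨⟨[(nat_lit 140), (nat_lit 160), (nat_lit 180)], [(nat_lit 0), (nat_lit 0), (nat_lit 799)], [((nat_lit 0), (nat_lit 0), (nat_lit 0)), ((nat_lit 0), (nat_lit 0), (nat_lit 0)), ((nat_lit 728), (nat_lit 1000), (nat_lit 454))], ((nat_lit 100), (nat_lit 75), (nat_lit 43))⟩, (nat_lit 55010), (nat_lit 300), (nat_lit 2098), (nat_lit 3784200), (nat_lit 3776241), [(nat_lit 501942000), (nat_lit 605472000), (nat_lit 716958000)], [], [(nat_lit 2859917745), (nat_lit 2751506345), (nat_lit 2648131688), (nat_lit 2540534562), (nat_lit 2712067008), (nat_lit 2593933394), (nat_lit 2491011108), (nat_lit 2372165157)], (nat_lit 780000), (nat_lit 1271251), (nat_lit 780000), (nat_lit 1762501), (nat_lit 1271251), (nat_lit 1271251), [(nat_lit 1977501), (nat_lit 1271251), (nat_lit 1271251)], [(nat_lit 31), (nat_lit 65), (nat_lit 627), (nat_lit 225), (nat_lit 14)]⟩⟩) (.leaf ⟨(nat_lit 86), (nat_lit 766), (nat_lit 0), (nat_lit 148), (nat_lit 0), (nat_lit 4546), (nat_lit 6882),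 (nat_lit 1697), (nat_lit 0), (nat_lit 0), (nat_lit 260000), [((nat_lit 360), [((nat_lit 21), (nat_lit 2), (nat_lit 28)), ((nat_lit 39), (nat_lit 5), (nat_lit 58))])], ⟨(nat_lit 7), false, true, true, (nat_lit 311), (nat_lit 3162), (nat_lit 3873), [(nat_lit 1672628), (nat_lit 1666215), (nat_lit 1716165), (nat_lit 1710475), (nat_lit 1850063), (nat_lit 1833837), (nat_lit 1893649), (nat_lit 1878147)]⟩, ⟨(nat_lit 3), false, false, true, (nat_lit 165), (nat_lit 3162), (nat_lit 3873), [(nat_lit 1283782), (nat_lit 1289472), (nat_lit 1349127), (nat_lit 1355902), (nat_lit 1477347), (nat_lit 1472332), (nat_lit 1542727), (nat_lit 1538797)]⟩, (nat_lit 5134564), (nat_lit 36165512), (nat_lit 22646189), (nat_lit 8188299), (nat_lit 5), (nat_lit 0), [], [], [⟨(nat_lit 1), (nat_lit 55), (nat_lit 99), (nat_lit 100), (nat_lit 204838692)⟩], [],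
 ⟨⟨[(nat_lit 40), (nat_lit 60), (nat_lit 80)], [(nat_lit 0), (nat_lit 398), (nat_lit 992)], [((nat_lit 0), (nat_lit 0), (nat_lit 0)), ((nat_lit 1000), (nat_lit 814), (nat_lit 310)), ((nat_lit 1000), (nat_lit 752), (nat_lit 464))], ((nat_lit 73), (nat_lit 100), (nat_lit 55))⟩, (nat_lit 857467), (nat_lit 140), (nat_lit 140), (nat_lit 0), (nat_lit 185260), [(nat_lit 1941894314), (nat_lit 2834020619), (nat_lit 3698611200)], [(nat_lit 0), (nat_lit 0), (nat_lit 0)], [(nat_lit 23880053183), (nat_lit 25052324561), (nat_lit 30356448295), (nat_lit 31544116839), (nat_lit 25643597791), (nat_lit 26617711631), (nat_lit 31139417103), (nat_lit 32130830745)], (nat_lit 1271251), (nat_lit 1271251), (nat_lit 1271251), (nat_lit 1271251), (nat_lit 780000), (nat_lit 1762501), [(nat_lit 490000), (nat_lit 780000), (nat_lit 1100000)], [(nat_lit 2), (nat_lit 44), (nat_lit 272), (nat_lit 60), (nat_lit 10)]⟩,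
 ⟨⟨[(nat_lit 80), (nat_lit 120), (nat_lit 140)], [(nat_lit 0), (nat_lit 0), (nat_lit 1164)], [((nat_lit 0), (nat_lit 0), (nat_lit 0)), ((nat_lit 0), (nat_lit 0), (nat_lit 0)), ((nat_lit 941), (nat_lit 1000), (nat_lit 576))], ((nat_lit 100), (nat_lit 95), (nat_lit 55))⟩, (nat_lit 1915169), (nat_lit 362), (nat_lit 362), (nat_lit 0), (nat_lit 639215), [(nat_lit 4284832000), (nat_lit 7282752000), (nat_lit 8995588000)], [], [(nat_lit 27274191122), (nat_lit 28127836004), (nat_lit 31515886266), (nat_lit 32282341971), (nat_lit 32696762412), (nat_lit 33336160582), (nat_lit 35520392104), (nat_lit 35853365442)], (nat_lit 1271251), (nat_lit 1271251), (nat_lit 1271251), (nat_lit 1271251), (nat_lit 1271251), (nat_lit 1271251), [(nat_lit 1100000), (nat_lit 1785001), (nat_lit 1271251)], [(nat_lit 17), (nat_lit 58), (nat_lit 401), (nat_lit 175), (nat_lit 10)]⟩,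
 ⟨⟨[(nat_lit 140), (nat_lit 180), (nat_lit 200)], [(nat_lit 0), (nat_lit 0), (nat_lit 2835)], [((nat_lit 0), (nat_lit 0), (nat_lit 0)), ((nat_lit 0), (nat_lit 0), (nat_lit 0)), ((nat_lit 363), (nat_lit 1000), (nat_lit 798))], ((nat_lit 0), (nat_lit 0), (nat_lit 0))⟩, (nat_lit 40720), (nat_lit 300), (nat_lit 1636), (nat_lit 11558800), (nat_lit 2724938), [(nat_lit 1456616000), (nat_lit 2080584000), (nat_lit 2427200000)], [], [(nat_lit 9558167517), (nat_lit 9175820716), (nat_lit 8830864822), (nat_lit 8449213951), (nat_lit 8991197016), (nat_lit 8592767856), (nat_lit 8242111012), (nat_lit 7854139575)], (nat_lit 780000), (nat_lit 1271251), (nat_lit 780000), (nat_lit 1762501), (nat_lit 1271251), (nat_lit 1271251), [(nat_lit 1977501), (nat_lit 1271251), (nat_lit 1271251)], [(nat_lit 32), (nat_lit 67), (nat_lit 512), (nat_lit 225), (nat_lit 11)]⟩⟩))))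
noncomputable def c8_55 : Tr Lf :=
 (.spl (nat_lit 2) (nat_lit 160) (.trX (nat_lit 5) (nat_lit 1) (nat_lit 2) (nat_lit 94) (nat_lit 59) (nat_lit 100) (nat_lit 370) (.spl (nat_lit 5) (nat_lit 200) (.leaf ⟨(nat_lit 140), (nat_lit 860), (nat_lit 0), (nat_lit 0), (nat_lit 0), (nat_lit 4053), (nat_lit 6642), (nat_lit 0), (nat_lit 0), (nat_lit 0), (nat_lit 329000), [((nat_lit 360), [((nat_lit 21), (nat_lit 2), (nat_lit 77)), ((nat_lit 39), (nat_lit 5), (nat_lit 63))])], ⟨(nat_lit 7), false, true, true, (nat_lit 319), (nat_lit 3162), (nat_lit 3873), [(nat_lit 1716165), (nat_lit 1710475), (nat_lit 1759694), (nat_lit 1754728), (nat_lit 1845258), (nat_lit 1832432), (nat_lit 1888802), (nat_lit 1876699)]⟩, ⟨(nat_lit 3), false, false, true, (nat_lit 161), (nat_lit 3162), (nat_lit 3873), [(nat_lit 1283782), (nat_lit 1289472), (nat_lit 1327361), (nat_lit 1333774), (nat_lit 1477347), (nat_lit 1472332), (nat_lit 1520934), (nat_lit 1516642)]⟩, (nat_lit 5109906),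 (nat_lit 35752964), (nat_lit 23459644), (nat_lit 7787392), (nat_lit 3), (nat_lit 0), [], [], [], [],
 ⟨⟨[(nat_lit 40), (nat_lit 60), (nat_lit 80)], [(nat_lit 0), (nat_lit 398), (nat_lit 992)], [((nat_lit 0), (nat_lit 0), (nat_lit 0)), ((nat_lit 1000), (nat_lit 814), (nat_lit 310)), ((nat_lit 1000), (nat_lit 752), (nat_lit 464))], ((nat_lit 73), (nat_lit 100), (nat_lit 55))⟩, (nat_lit 3712579), (nat_lit 175), (nat_lit 175), (nat_lit 0), (nat_lit 316975), [(nat_lit 1877522668), (nat_lit 2881341015), (nat_lit 3375077200)], [(nat_lit 0), (nat_lit 0), (nat_lit 0)], [(nat_lit 23132489970), (nat_lit 24390132626), (nat_lit 27634971531), (nat_lit 28871467508), (nat_lit 25254248861), (nat_lit 26259852948), (nat_lit 28943119414), (nat_lit 29975658151)], (nat_lit 1271251), (nat_lit 1271251), (nat_lit 1271251), (nat_lit 1271251), (nat_lit 780000), (nat_lit 1762501), [(nat_lit 490000), (nat_lit 780000), (nat_lit 1100000)], [(nat_lit 2), (nat_lit 44), (nat_lit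 272), (nat_lit 60), (nat_lit 10)]⟩,
 ⟨⟨[(nat_lit 60), (nat_lit 100), (nat_lit 120)], [(nat_lit 0), (nat_lit 0), (nat_lit 1164)], [((nat_lit 0), (nat_lit 0), (nat_lit 0)), ((nat_lit 0), (nat_lit 0), (nat_lit 0)), ((nat_lit 1000), (nat_lit 933), (nat_lit 572))], ((nat_lit 93), (nat_lit 100), (nat_lit 55))⟩, (nat_lit 2917629), (nat_lit 527), (nat_lit 527), (nat_lit 0), (nat_lit 890063), [(nat_lit 2822520000), (nat_lit 5375000000), (nat_lit 6852480000)], [], [(nat_lit 28138630036), (nat_lit 29336716096), (nat_lit 30949864188), (nat_lit 33051823592), (nat_lit 24702243053), (nat_lit 25579941158), (nat_lit 26823318353), (nat_lit 27463947358)], (nat_lit 1271251), (nat_lit 1271251), (nat_lit 1271251), (nat_lit 1271251), (nat_lit 0), (nat_lit 1412501), [(nat_lit 780000), (nat_lit 1435001), (nat_lit 1271251)], [(nat_lit 10), (nat_lit 54), (nat_lit 260), (nat_lit 50), (nat_lit 8)]⟩,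
 Rw.none⟩) (.spl (nat_lit 6) (nat_lit 16) (.spl (nat_lit 1) (nat_lit 300) (.leaf ⟨(nat_lit 0), (nat_lit 878), (nat_lit 0), (nat_lit 122), (nat_lit 0), (nat_lit 4259), (nat_lit 6303), (nat_lit 1368), (nat_lit 0), (nat_lit 0), (nat_lit 0), [], Pd.none, Pd.none, (nat_lit 0), (nat_lit 1), (nat_lit 0), (nat_lit 0), (nat_lit 5), (nat_lit 0), [], [], [⟨(nat_lit 1), (nat_lit 73), (nat_lit 94), (nat_lit 100), (nat_lit 284216054)⟩], [],
 ⟨⟨[(nat_lit 40), (nat_lit 60), (nat_lit 80)], [(nat_lit 0), (nat_lit 398), (nat_lit 992)], [((nat_lit 0), (nat_lit 0), (nat_lit 0)), ((nat_lit 1000), (nat_lit 814), (nat_lit 310)), ((nat_lit 1000), (nat_lit 752), (nat_lit 464))], ((nat_lit 77), (nat_lit 100), (nat_lit 42))⟩, (nat_lit 4387119), (nat_lit 165), (nat_lit 165), (nat_lit 0), (nat_lit 280149), [(nat_lit 2032000001), (nat_lit 3422212156), (nat_lit 4688000000)], [], [(nat_lit 23287749721), (nat_lit 24589096078), (nat_lit 27902641442), (nat_lit 29168774124), (nat_lit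 25382734020), (nat_lit 26410314119), (nat_lit 29140978191), (nat_lit 30195721153)], (nat_lit 1271251), (nat_lit 1271251), (nat_lit 1271251), (nat_lit 1271251), (nat_lit 780000), (nat_lit 1762501), [(nat_lit 490000), (nat_lit 780000), (nat_lit 1100000)], [(nat_lit 2), (nat_lit 44), (nat_lit 272), (nat_lit 60), (nat_lit 10)]⟩,
 ⟨⟨[(nat_lit 60), (nat_lit 80), (nat_lit 100)], [(nat_lit 0), (nat_lit 0), (nat_lit 534)], [((nat_lit 0), (nat_lit 0), (nat_lit 0)), ((nat_lit 0), (nat_lit 0), (nat_lit 0)), ((nat_lit 1000), (nat_lit 917), (nat_lit 393))], ((nat_lit 92), (nat_lit 100), (nat_lit 39))⟩, (nat_lit 5013759), (nat_lit 362), (nat_lit 362), (nat_lit 0), (nat_lit 873215), [(nat_lit 3282000000), (nat_lit 4688000000), (nat_lit 6250000000)], [], [(nat_lit 27416824376), (nat_lit 28014862035), (nat_lit 30166163240), (nat_lit 30631241730), (nat_lit 31578712556), (nat_lit 31941029237), (nat_lit 34239624727), (nat_lit 34851042487)], (nat_lit 1271251), (nat_lit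 1271251), (nat_lit 1271251), (nat_lit 1271251), (nat_lit 1271251), (nat_lit 1271251), [(nat_lit 780000), (nat_lit 1100000), (nat_lit 1442501)], [(nat_lit 9), (nat_lit 50), (nat_lit 220), (nat_lit 0), (nat_lit 6)]⟩,
 ⟨⟨[(nat_lit 140), (nat_lit 160), (nat_lit 180)], [(nat_lit 0), (nat_lit 0), (nat_lit 799)], [((nat_lit 0), (nat_lit 0), (nat_lit 0)), ((nat_lit 0), (nat_lit 0), (nat_lit 0)), ((nat_lit 728), (nat_lit 1000), (nat_lit 454))], ((nat_lit 100), (nat_lit 75), (nat_lit 43))⟩, (nat_lit 334880), (nat_lit 300), (nat_lit 2343), (nat_lit 9052400), (nat_lit 4230098), [(nat_lit 1200724000), (nat_lit 1448384000), (nat_lit 1715076000)], [], [(nat_lit 6711526098), (nat_lit 6512995168), (nat_lit 6188252961), (nat_lit 6013608206), (nat_lit 6395313419), (nat_lit 6187708265), (nat_lit 5871262893), (nat_lit 5662427075)], (nat_lit 780000), (nat_lit 1100000), (nat_lit 780000), (nat_lit 1762501), (nat_lit 1271251), (nat_lit 1271251), [(nat_lit 1977501), (nat_lit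 1271251), (nat_lit 1271251)], [(nat_lit 31), (nat_lit 65), (nat_lit 682), (nat_lit 200), (nat_lit 15)]⟩⟩) (.trX (nat_lit 5) (nat_lit 1) (nat_lit 2) (nat_lit 88) (nat_lit 68) (nat_lit 100) (nat_lit 350) (.leaf ⟨(nat_lit 0), (nat_lit 1000), (nat_lit 0), (nat_lit 0), (nat_lit 0), (nat_lit 4259), (nat_lit 5361), (nat_lit 0), (nat_lit 0), (nat_lit 0), (nat_lit 0), [], Pd.none, Pd.none, (nat_lit 0), (nat_lit 1), (nat_lit 0), (nat_lit 0), (nat_lit 5), (nat_lit 0), [], [], [⟨(nat_lit 1), (nat_lit 68), (nat_lit 88), (nat_lit 100), (nat_lit 408732174)⟩], [],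
 ⟨⟨[(nat_lit 40), (nat_lit 60), (nat_lit 80)], [(nat_lit 0), (nat_lit 398), (nat_lit 992)], [((nat_lit 0), (nat_lit 0), (nat_lit 0)), ((nat_lit 1000), (nat_lit 814), (nat_lit 310)), ((nat_lit 1000), (nat_lit 752), (nat_lit 464))], ((nat_lit 77), (nat_lit 100), (nat_lit 42))⟩, (nat_lit 2993201), (nat_lit 174), (nat_lit 174), (nat_lit 0), (nat_lit 313754), [(nat_lit 2032000036), (nat_lit 3282001646), (nat_lit 4688000000)], [], [(nat_lit 23436953645), (nat_lit 24615622231), (nat_lit 27902641442), (nat_lit 29168774124), (nat_lit 25428332177), (nat_lit 26410382294), (nat_lit 29140978191), (nat_lit 30195721153)], (nat_lit 1271251), (nat_lit 1271251), (nat_lit 1271251), (nat_lit 1271251), (nat_lit 780000), (nat_lit 1762501), [(nat_lit 490000), (nat_lit 780000), (nat_lit 1100000)], [(nat_lit 2), (nat_lit 44), (nat_lit 272), (nat_lit 60), (nat_lit 10)]⟩,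
 ⟨⟨[(nat_lit 60), (nat_lit 80), (nat_lit 100)], [(nat_lit 0), (nat_lit 304), (nat_lit 825)], [((nat_lit 0), (nat_lit 0), (nat_lit 0)), ((nat_lit 1000), (nat_lit 905), (nat_lit 238)), ((nat_lit 1000), (nat_lit 871), (nat_lit 407))], ((nat_lit 87), (nat_lit 100), (nat_lit 39))⟩, (nat_lit 4557562), (nat_lit 363), (nat_lit 363), (nat_lit 0), (nat_lit 875038), [(nat_lit 3282000000), (nat_lit 4688000000), (nat_lit 6250000000)], [], [(nat_lit 26218176562), (nat_lit 26868661573), (nat_lit 29012239862), (nat_lit 29530893805), (nat_lit 29970482600), (nat_lit 30477525790), (nat_lit 32720109278), (nat_lit 33364749372)], (nat_lit 1271251), (nat_lit 1271251), (nat_lit 1271251), (nat_lit 1271251), (nat_lit 1271251), (nat_lit 1271251), [(nat_lit 780000), (nat_lit 1100000), (nat_lit 1442501)], [(nat_lit 9), (nat_lit 50), (nat_lit 220), (nat_lit 0), (nat_lit 6)]⟩,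
 Rw.none⟩))) (.leaf ⟨(nat_lit 0), (nat_lit 882), (nat_lit 0), (nat_lit 118), (nat_lit 0), (nat_lit 4680), (nat_lit 7124), (nat_lit 1377), (nat_lit 0), (nat_lit 0), (nat_lit 0), [], Pd.none, Pd.none, (nat_lit 0), (nat_lit 1), (nat_lit 0), (nat_lit 0), (nat_lit 5), (nat_lit 0), [], [], [⟨(nat_lit 1), (nat_lit 77), (nat_lit 91), (nat_lit 100), (nat_lit 287255504)⟩], [],
 ⟨⟨[(nat_lit 40), (nat_lit 60), (nat_lit 80)], [(nat_lit 0), (nat_lit 398), (nat_lit 992)], [((nat_lit 0), (nat_lit 0), (nat_lit 0)), ((nat_lit 1000), (nat_lit 814), (nat_lit 310)), ((nat_lit 1000), (nat_lit 752), (nat_lit 464))], ((nat_lit 73), (nat_lit 100), (nat_lit 55))⟩, (nat_lit 1683030), (nat_lit 156), (nat_lit 156), (nat_lit 0), (nat_lit 252666), [(nat_lit 2032000932), (nat_lit 3282000177), (nat_lit 4688000000)], [], [(nat_lit 23986730059), (nat_lit 25176162549), (nat_lit 28449675580), (nat_lit 29776376480), (nat_lit 25726633449), (nat_lit 26714249880), (nat_lit 29545340060),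 (nat_lit 30645461560)], (nat_lit 1271251), (nat_lit 1271251), (nat_lit 1271251), (nat_lit 1271251), (nat_lit 780000), (nat_lit 1762501), [(nat_lit 490000), (nat_lit 780000), (nat_lit 1100000)], [(nat_lit 2), (nat_lit 44), (nat_lit 272), (nat_lit 60), (nat_lit 10)]⟩,
 ⟨⟨[(nat_lit 60), (nat_lit 100), (nat_lit 120)], [(nat_lit 0), (nat_lit 0), (nat_lit 1164)], [((nat_lit 0), (nat_lit 0), (nat_lit 0)), ((nat_lit 0), (nat_lit 0), (nat_lit 0)), ((nat_lit 1000), (nat_lit 933), (nat_lit 572))], ((nat_lit 93), (nat_lit 100), (nat_lit 55))⟩, (nat_lit 1664964), (nat_lit 331), (nat_lit 331), (nat_lit 0), (nat_lit 694017), [(nat_lit 3282000000), (nat_lit 6250000000), (nat_lit 7968000000)], [], [(nat_lit 28877075508), (nat_lit 30100432016), (nat_lit 31763202360), (nat_lit 32678418472), (nat_lit 33018457082), (nat_lit 33787545954), (nat_lit 35190568912), (nat_lit 36443054641)], (nat_lit 1271251), (nat_lit 1271251), (nat_lit 1271251), (nat_lit 1271251), (nat_lit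 1271251), (nat_lit 1271251), [(nat_lit 780000), (nat_lit 1435001), (nat_lit 1271251)], [(nat_lit 10), (nat_lit 54), (nat_lit 317), (nat_lit 100), (nat_lit 9)]⟩,
 ⟨⟨[(nat_lit 140), (nat_lit 180), (nat_lit 200)], [(nat_lit 0), (nat_lit 0), (nat_lit 2835)], [((nat_lit 0), (nat_lit 0), (nat_lit 0)), ((nat_lit 0), (nat_lit 0), (nat_lit 0)), ((nat_lit 363), (nat_lit 1000), (nat_lit 798))], ((nat_lit 0), (nat_lit 0), (nat_lit 0))⟩, (nat_lit 32466), (nat_lit 300), (nat_lit 2132), (nat_lit 9215800), (nat_lit 3728956), [(nat_lit 1161356000), (nat_lit 1658844000), (nat_lit 1935200000)], [], [(nat_lit 7491359397), (nat_lit 7267045664), (nat_lit 6898344302), (nat_lit 6675446226), (nat_lit 7089035286), (nat_lit 6856765355), (nat_lit 6485627617), (nat_lit 6257033124)], (nat_lit 780000), (nat_lit 1100000), (nat_lit 780000), (nat_lit 1762501), (nat_lit 1271251), (nat_lit 1271251), [(nat_lit 1977501), (nat_lit 1271251), (nat_lit 1271251)], [(nat_lit 32), (nat_lit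 67), (nat_lit 630), (nat_lit 200), (nat_lit 13)]⟩⟩)))) (.leaf ⟨(nat_lit 0), (nat_lit 751), (nat_lit 0), (nat_lit 249), (nat_lit 0), (nat_lit 4259), (nat_lit 7384), (nat_lit 2313), (nat_lit 0), (nat_lit 0), (nat_lit 0), [], Pd.none, Pd.none, (nat_lit 0), (nat_lit 1), (nat_lit 0), (nat_lit 0), (nat_lit 4), (nat_lit 0), [], [], [], [],
 ⟨⟨[(nat_lit 40), (nat_lit 60), (nat_lit 80)], [(nat_lit 0), (nat_lit 398), (nat_lit 992)], [((nat_lit 0), (nat_lit 0), (nat_lit 0)), ((nat_lit 1000), (nat_lit 814), (nat_lit 310)), ((nat_lit 1000), (nat_lit 752), (nat_lit 464))], ((nat_lit 73), (nat_lit 100), (nat_lit 55))⟩, (nat_lit 4505115), (nat_lit 163), (nat_lit 163), (nat_lit 0), (nat_lit 270362), [(nat_lit 2032000014), (nat_lit 3495689743), (nat_lit 4688000000)], [], [(nat_lit 23287749773), (nat_lit 24589096078), (nat_lit 27902641442), (nat_lit 29168774124), (nat_lit 25382734072), (nat_lit 26410314171), (nat_lit 29140978191), (nat_lit 30195721153)], (nat_lit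 1271251), (nat_lit 1271251), (nat_lit 1271251), (nat_lit 1271251), (nat_lit 780000), (nat_lit 1762501), [(nat_lit 490000), (nat_lit 780000), (nat_lit 1100000)], [(nat_lit 2), (nat_lit 44), (nat_lit 272), (nat_lit 60), (nat_lit 10)]⟩,
 ⟨⟨[(nat_lit 60), (nat_lit 100), (nat_lit 120)], [(nat_lit 0), (nat_lit 0), (nat_lit 1164)], [((nat_lit 0), (nat_lit 0), (nat_lit 0)), ((nat_lit 0), (nat_lit 0), (nat_lit 0)), ((nat_lit 1000), (nat_lit 933), (nat_lit 572))], ((nat_lit 93), (nat_lit 100), (nat_lit 55))⟩, (nat_lit 2973528), (nat_lit 477), (nat_lit 477), (nat_lit 0), (nat_lit 759039), [(nat_lit 3282000000), (nat_lit 6250000000), (nat_lit 7968000000)], [], [(nat_lit 33730130272), (nat_lit 35102358832), (nat_lit 36937654136), (nat_lit 37967163200), (nat_lit 33740139774), (nat_lit 34252473468), (nat_lit 36122363548), (nat_lit 37319092668)], (nat_lit 1271251), (nat_lit 1271251), (nat_lit 1271251), (nat_lit 1271251), (nat_lit 0), (nat_lit 2683751), [(nat_lit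 780000), (nat_lit 1435001), (nat_lit 1271251)], [(nat_lit 10), (nat_lit 54), (nat_lit 317), (nat_lit 100), (nat_lit 10)]⟩,
 ⟨⟨[(nat_lit 120), (nat_lit 160), (nat_lit 180)], [(nat_lit 0), (nat_lit 0), (nat_lit 1613)], [((nat_lit 0), (nat_lit 0), (nat_lit 0)), ((nat_lit 0), (nat_lit 0), (nat_lit 0)), ((nat_lit 620), (nat_lit 1000), (nat_lit 670))], ((nat_lit 100), (nat_lit 73), (nat_lit 55))⟩, (nat_lit 895628), (nat_lit 300), (nat_lit 1535), (nat_lit 18475800), (nat_lit 2442566), [(nat_lit 1984032000), (nat_lit 2956128000), (nat_lit 3500442000)], [], [(nat_lit 20016144448), (nat_lit 19880795624), (nat_lit 19128230988), (nat_lit 18992463414), (nat_lit 17221175474), (nat_lit 17084498772), (nat_lit 17667920073), (nat_lit 18414634709)], (nat_lit 1100000), (nat_lit 1271251), (nat_lit 780000), (nat_lit 1762501), (nat_lit 0), (nat_lit 2683751), [(nat_lit 1695001), (nat_lit 1271251), (nat_lit 1271251)], [(nat_lit 28), (nat_lit 65), (nat_lit 484), (nat_lit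 200), (nat_lit 11)]⟩⟩))
noncomputable def c8_56 : Tr Lf :=
 (.trZ (nat_lit 3) (nat_lit 4) (nat_lit 5) (nat_lit 100) (nat_lit 65) (nat_lit 54) (nat_lit 20) (.trX (nat_lit 5) (nat_lit 3) (nat_lit 4) (nat_lit 61) (nat_lit 68) (nat_lit 100) (nat_lit 350) (.spl (nat_lit 4) (nat_lit 200) (.trX (nat_lit 5) (nat_lit 3) (nat_lit 4) (nat_lit 60) (nat_lit 80) (nat_lit 100) (nat_lit 320) (.spl (nat_lit 0) (nat_lit 350) (.leaf ⟨(nat_lit 347), (nat_lit 653), (nat_lit 0), (nat_lit 0), (nat_lit 0), (nat_lit 3680), (nat_lit 4778), (nat_lit 0), (nat_lit 0), (nat_lit 0), (nat_lit 194750), [((nat_lit 350), [((nat_lit 21), (nat_lit 0), (nat_lit 203)), ((nat_lit 21), (nat_lit 2), (nat_lit 144))])], ⟨(nat_lit 9), false, true, true, (nat_lit 358), (nat_lit 3535), (nat_lit 3873), [(nat_lit 1845257), (nat_lit 1838854), (nat_lit 1888832), (nat_lit 1882748), (nat_lit 1909779), (nat_lit 1901616), (nat_lit 1953359), (nat_lit 1945515)]⟩, ⟨(nat_lit 3), false, false, true, (nat_lit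 153), (nat_lit 3535), (nat_lit 3873), [(nat_lit 1283782), (nat_lit 1286665), (nat_lit 1349157), (nat_lit 1352518), (nat_lit 1412825), (nat_lit 1412188), (nat_lit 1478205), (nat_lit 1478046)]⟩, (nat_lit 5057356), (nat_lit 33222017), (nat_lit 26998672), (nat_lit 6779311), (nat_lit 3), (nat_lit 0), [], [], [⟨(nat_lit 1), (nat_lit 72), (nat_lit 89), (nat_lit 100), (nat_lit 7675952)⟩], [⟨(nat_lit 1), (nat_lit 99), (nat_lit 44), (nat_lit 100), (nat_lit 176662255)⟩],
 ⟨⟨[(nat_lit 40), (nat_lit 60), (nat_lit 80)], [(nat_lit 0), (nat_lit 398), (nat_lit 992)], [((nat_lit 0), (nat_lit 0), (nat_lit 0)), ((nat_lit 1000), (nat_lit 814), (nat_lit 310)), ((nat_lit 1000), (nat_lit 752), (nat_lit 464))], ((nat_lit 73), (nat_lit 100), (nat_lit 55))⟩, (nat_lit 3234329), (nat_lit 181), (nat_lit 181), (nat_lit 0), (nat_lit 302107), [(nat_lit 1726442066), (nat_lit 2681796817), (nat_lit 3398530800)], [(nat_lit 0), (nat_lit 0), (nat_lit 0)], [(nat_lit 27150307080), (nat_lit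 27741723780), (nat_lit 29651884720), (nat_lit 30175346000), (nat_lit 27954715624), (nat_lit 28387782030), (nat_lit 30095569240), (nat_lit 30567337060)], (nat_lit 1271251), (nat_lit 1271251), (nat_lit 1271251), (nat_lit 1271251), (nat_lit 780000), (nat_lit 1435001), [(nat_lit 490000), (nat_lit 780000), (nat_lit 1100000)], [(nat_lit 2), (nat_lit 44), (nat_lit 260), (nat_lit 50), (nat_lit 9)]⟩,
 ⟨⟨[(nat_lit 60), (nat_lit 100), (nat_lit 120)], [(nat_lit 0), (nat_lit 0), (nat_lit 1164)], [((nat_lit 0), (nat_lit 0), (nat_lit 0)), ((nat_lit 0), (nat_lit 0), (nat_lit 0)), ((nat_lit 1000), (nat_lit 933), (nat_lit 572))], ((nat_lit 93), (nat_lit 100), (nat_lit 55))⟩, (nat_lit 1242734), (nat_lit 489), (nat_lit 489), (nat_lit 0), (nat_lit 808328), [(nat_lit 2143146000), (nat_lit 4081250000), (nat_lit 5203104000)], [], [(nat_lit 23689145593), (nat_lit 24348991613), (nat_lit 24862777790), (nat_lit 26159842293), (nat_lit 22188397302), (nat_lit 22502176608), (nat_lit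 22934810970), (nat_lit 23776943236)], (nat_lit 1271251), (nat_lit 1271251), (nat_lit 1271251), (nat_lit 1271251), (nat_lit 111251), (nat_lit 2286250), [(nat_lit 780000), (nat_lit 1435001), (nat_lit 1271251)], [(nat_lit 10), (nat_lit 54), (nat_lit 317), (nat_lit 100), (nat_lit 9)]⟩,
 Rw.none⟩) (.leaf ⟨(nat_lit 548), (nat_lit 452), (nat_lit 0), (nat_lit 0), (nat_lit 0), (nat_lit 3474), (nat_lit 3221), (nat_lit 0), (nat_lit 0), (nat_lit 0), (nat_lit 239550), [((nat_lit 360), [((nat_lit 21), (nat_lit 0), (nat_lit 255)), ((nat_lit 39), (nat_lit 2), (nat_lit 293))])], ⟨(nat_lit 9), false, true, true, (nat_lit 355), (nat_lit 3162), (nat_lit 3536), [(nat_lit 1838855), (nat_lit 1832432), (nat_lit 1882753), (nat_lit 1876734), (nat_lit 1901616), (nat_lit 1893385), (nat_lit 1945521), (nat_lit 1937695)]⟩, ⟨(nat_lit 3), false, false, true, (nat_lit 153), (nat_lit 3162), (nat_lit 3536), [(nat_lit 1286665), (nat_lit 1289472), (nat_lit 1352511), (nat_lit 1355925),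 (nat_lit 1412188), (nat_lit 1411379), (nat_lit 1478046), (nat_lit 1477844)]⟩, (nat_lit 5062541), (nat_lit 33407343), (nat_lit 26747395), (nat_lit 6845262), (nat_lit 3), (nat_lit 0), [], [], [], [⟨(nat_lit 1), (nat_lit 99), (nat_lit 44), (nat_lit 100), (nat_lit 137467136)⟩],
 ⟨⟨[(nat_lit 40), (nat_lit 60), (nat_lit 80)], [(nat_lit 0), (nat_lit 600), (nat_lit 1195)], [((nat_lit 0), (nat_lit 0), (nat_lit 0)), ((nat_lit 1000), (nat_lit 725), (nat_lit 454)), ((nat_lit 1000), (nat_lit 720), (nat_lit 465))], ((nat_lit 69), (nat_lit 100), (nat_lit 56))⟩, (nat_lit 1872136), (nat_lit 186), (nat_lit 186), (nat_lit 0), (nat_lit 315783), [(nat_lit 1591694453), (nat_lit 2354418419), (nat_lit 2868626800)], [(nat_lit 0), (nat_lit 0), (nat_lit 0)], [(nat_lit 27459235517), (nat_lit 28035833864), (nat_lit 29830758213), (nat_lit 30342227254), (nat_lit 28260627400), (nat_lit 28683423930), (nat_lit 30292953146), (nat_lit 30754692834)], (nat_lit 1271251), (nat_lit 1271251),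 (nat_lit 1271251), (nat_lit 1271251), (nat_lit 780000), (nat_lit 1435001), [(nat_lit 490000), (nat_lit 780000), (nat_lit 1100000)], [(nat_lit 2), (nat_lit 44), (nat_lit 260), (nat_lit 50), (nat_lit 9)]⟩,
 ⟨⟨[(nat_lit 60), (nat_lit 100), (nat_lit 120)], [(nat_lit 0), (nat_lit 0), (nat_lit 1164)], [((nat_lit 0), (nat_lit 0), (nat_lit 0)), ((nat_lit 0), (nat_lit 0), (nat_lit 0)), ((nat_lit 1000), (nat_lit 933), (nat_lit 572))], ((nat_lit 93), (nat_lit 100), (nat_lit 55))⟩, (nat_lit 833293), (nat_lit 518), (nat_lit 518), (nat_lit 0), (nat_lit 889308), [(nat_lit 1483464000), (nat_lit 2825000000), (nat_lit 3601536000)], [], [(nat_lit 16651937488), (nat_lit 17106810056), (nat_lit 17454285038), (nat_lit 17889093825), (nat_lit 15698939643), (nat_lit 15919065810), (nat_lit 16180590756), (nat_lit 16355491972)], (nat_lit 1271251), (nat_lit 1271251), (nat_lit 1271251), (nat_lit 1271251), (nat_lit 111251), (nat_lit 2286250), [(nat_lit 780000), (nat_lit 1435001),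 (nat_lit 1271251)], [(nat_lit 10), (nat_lit 54), (nat_lit 317), (nat_lit 100), (nat_lit 9)]⟩,
 Rw.none⟩))) (.trZ (nat_lit 3) (nat_lit 4) (nat_lit 5) (nat_lit 100) (nat_lit 60) (nat_lit 80) (nat_lit 80) (.spl (nat_lit 6) (nat_lit 16) (.leaf ⟨(nat_lit 427), (nat_lit 573), (nat_lit 0), (nat_lit 0), (nat_lit 0), (nat_lit 3567), (nat_lit 3562), (nat_lit 0), (nat_lit 0), (nat_lit 0), (nat_lit 137200), [((nat_lit 360), [((nat_lit 21), (nat_lit 0), (nat_lit 340)), ((nat_lit 39), (nat_lit 2), (nat_lit 87))])], ⟨(nat_lit 9), false, true, true, (nat_lit 357), (nat_lit 3162), (nat_lit 3873), [(nat_lit 1845258), (nat_lit 1832432), (nat_lit 1888802), (nat_lit 1876699), (nat_lit 1909779), (nat_lit 1893385), (nat_lit 1953347), (nat_lit 1937676)]⟩, ⟨(nat_lit 5), false, false, true, (nat_lit 191), (nat_lit 3162), (nat_lit 3873), [(nat_lit 1412825), (nat_lit 1411379), (nat_lit 1478205), (nat_lit 1477844), (nat_lit 1477347), (nat_lit 1472332), (nat_lit 1542727), (nat_lit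 1538797)]⟩, (nat_lit 5351935), (nat_lit 31902755), (nat_lit 25833520), (nat_lit 9263725), (nat_lit 5), (nat_lit 0), [], [], [], [⟨(nat_lit 1), (nat_lit 86), (nat_lit 44), (nat_lit 100), (nat_lit 207838999)⟩],
 ⟨⟨[(nat_lit 40), (nat_lit 60), (nat_lit 80)], [(nat_lit 0), (nat_lit 398), (nat_lit 992)], [((nat_lit 0), (nat_lit 0), (nat_lit 0)), ((nat_lit 1000), (nat_lit 814), (nat_lit 310)), ((nat_lit 1000), (nat_lit 752), (nat_lit 464))], ((nat_lit 77), (nat_lit 100), (nat_lit 42))⟩, (nat_lit 2240333), (nat_lit 167), (nat_lit 167), (nat_lit 0), (nat_lit 313839), [(nat_lit 1669165604), (nat_lit 2546883686), (nat_lit 3427763200)], [(nat_lit 0), (nat_lit 0), (nat_lit 0)], [(nat_lit 27957275794), (nat_lit 28810753649), (nat_lit 29950558544), (nat_lit 30883092447), (nat_lit 28652810361), (nat_lit 29456480389), (nat_lit 30541345593), (nat_lit 31416788414)], (nat_lit 1271251), (nat_lit 1271251), (nat_lit 1271251), (nat_lit 1271251), (nat_lit 1271251), (nat_lit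 1271251), [(nat_lit 490000), (nat_lit 780000), (nat_lit 1100000)], [(nat_lit 2), (nat_lit 44), (nat_lit 203), (nat_lit 0), (nat_lit 6)]⟩,
 ⟨⟨[(nat_lit 60), (nat_lit 80), (nat_lit 100)], [(nat_lit 0), (nat_lit 0), (nat_lit 534)], [((nat_lit 0), (nat_lit 0), (nat_lit 0)), ((nat_lit 0), (nat_lit 0), (nat_lit 0)), ((nat_lit 1000), (nat_lit 917), (nat_lit 393))], ((nat_lit 92), (nat_lit 100), (nat_lit 39))⟩, (nat_lit 1783403), (nat_lit 422), (nat_lit 422), (nat_lit 0), (nat_lit 885221), [(nat_lit 1880586000), (nat_lit 2686224000), (nat_lit 3581250000)], [], [(nat_lit 18009158963), (nat_lit 18541054484), (nat_lit 18884871464), (nat_lit 19366708308), (nat_lit 19137299019), (nat_lit 19665050413), (nat_lit 20264270837), (nat_lit 20894078410)], (nat_lit 1271251), (nat_lit 1271251), (nat_lit 1271251), (nat_lit 1271251), (nat_lit 490000), (nat_lit 2599376), [(nat_lit 780000), (nat_lit 1100000), (nat_lit 1442501)], [(nat_lit 9), (nat_lit 50), (nat_lit 317),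 (nat_lit 100), (nat_lit 11)]⟩,
 Rw.none⟩) (.leaf ⟨(nat_lit 0), (nat_lit 893), (nat_lit 0), (nat_lit 107), (nat_lit 0), (nat_lit 3930), (nat_lit 6750), (nat_lit 1262), (nat_lit 0), (nat_lit 0), (nat_lit 0), [], Pd.none, Pd.none, (nat_lit 0), (nat_lit 1), (nat_lit 0), (nat_lit 0), (nat_lit 5), (nat_lit 0), [], [], [⟨(nat_lit 1), (nat_lit 72), (nat_lit 89), (nat_lit 100), (nat_lit 127901310)⟩], [⟨(nat_lit 1), (nat_lit 86), (nat_lit 44), (nat_lit 100), (nat_lit 29236636)⟩],
 ⟨⟨[(nat_lit 40), (nat_lit 60), (nat_lit 80)], [(nat_lit 0), (nat_lit 398), (nat_lit 992)], [((nat_lit 0), (nat_lit 0), (nat_lit 0)), ((nat_lit 1000), (nat_lit 814), (nat_lit 310)), ((nat_lit 1000), (nat_lit 752), (nat_lit 464))], ((nat_lit 73), (nat_lit 100), (nat_lit 55))⟩, (nat_lit 2573996), (nat_lit 144), (nat_lit 144), (nat_lit 0), (nat_lit 252666), [(nat_lit 2032000042), (nat_lit 3282000009), (nat_lit 4688000000)], [], [(nat_lit 28472868821), (nat_lit 29292011051), (nat_lit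 30416389365), (nat_lit 31384265130), (nat_lit 29076194676), (nat_lit 29845246881), (nat_lit 30976030470), (nat_lit 31882823060)], (nat_lit 1271251), (nat_lit 1271251), (nat_lit 1271251), (nat_lit 1271251), (nat_lit 1271251), (nat_lit 1271251), [(nat_lit 490000), (nat_lit 780000), (nat_lit 1100000)], [(nat_lit 2), (nat_lit 44), (nat_lit 203), (nat_lit 0), (nat_lit 6)]⟩,
 ⟨⟨[(nat_lit 60), (nat_lit 100), (nat_lit 120)], [(nat_lit 0), (nat_lit 0), (nat_lit 1164)], [((nat_lit 0), (nat_lit 0), (nat_lit 0)), ((nat_lit 0), (nat_lit 0), (nat_lit 0)), ((nat_lit 1000), (nat_lit 933), (nat_lit 572))], ((nat_lit 93), (nat_lit 100), (nat_lit 55))⟩, (nat_lit 1578268), (nat_lit 394), (nat_lit 394), (nat_lit 0), (nat_lit 694017), [(nat_lit 3282000000), (nat_lit 6250000000), (nat_lit 7968000000)], [], [(nat_lit 33630788548), (nat_lit 34770761548), (nat_lit 35577040548), (nat_lit 36536472048), (nat_lit 35413407282), (nat_lit 36022962813), (nat_lit 36653526063), (nat_lit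 37148083125)], (nat_lit 1271251), (nat_lit 1271251), (nat_lit 1271251), (nat_lit 1271251), (nat_lit 490000), (nat_lit 2599376), [(nat_lit 780000), (nat_lit 1435001), (nat_lit 1271251)], [(nat_lit 10), (nat_lit 54), (nat_lit 317), (nat_lit 100), (nat_lit 9)]⟩,
 ⟨⟨[(nat_lit 140), (nat_lit 180), (nat_lit 200)], [(nat_lit 0), (nat_lit 0), (nat_lit 2835)], [((nat_lit 0), (nat_lit 0), (nat_lit 0)), ((nat_lit 0), (nat_lit 0), (nat_lit 0)), ((nat_lit 363), (nat_lit 1000), (nat_lit 798))], ((nat_lit 0), (nat_lit 0), (nat_lit 0))⟩, (nat_lit 29439), (nat_lit 300), (nat_lit 2153), (nat_lit 8356703), (nat_lit 3728956), [(nat_lit 1053094000), (nat_lit 1504206000), (nat_lit 1754800000)], [], [(nat_lit 6945411208), (nat_lit 6657488601), (nat_lit 6790406800), (nat_lit 6510310269), (nat_lit 5994356254), (nat_lit 5704147832), (nat_lit 5835686001), (nat_lit 5553207350)], (nat_lit 780000), (nat_lit 1271251), (nat_lit 1271251), (nat_lit 1271251), (nat_lit 490000), (nat_lit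 2599376), [(nat_lit 1977501), (nat_lit 1271251), (nat_lit 1271251)], [(nat_lit 32), (nat_lit 67), (nat_lit 635), (nat_lit 200), (nat_lit 13)]⟩⟩))))))
noncomputable def c8_57 : Tr Lf :=
 (.trX (nat_lit 3) (nat_lit 0) (nat_lit 1) (nat_lit 78) (nat_lit 39) (nat_lit 100) (nat_lit 390) (.spl (nat_lit 6) (nat_lit 16) (.spl (nat_lit 3) (nat_lit 320) (.leaf ⟨(nat_lit 758), (nat_lit 197), (nat_lit 0), (nat_lit 45), (nat_lit 0), (nat_lit 3265), (nat_lit 1789), (nat_lit 482), (nat_lit 0), (nat_lit 0), (nat_lit 418400), [((nat_lit 360), [((nat_lit 21), (nat_lit 0), (nat_lit 104)), ((nat_lit 39), (nat_lit 2), (nat_lit 654))])], ⟨(nat_lit 7), false, true, true, (nat_lit 289), (nat_lit 3162), (nat_lit 3873), [(nat_lit 1672628), (nat_lit 1666215), (nat_lit 1716165), (nat_lit 1710475), (nat_lit 1737150), (nat_lit 1727168), (nat_lit 1780717), (nat_lit 1771459)]⟩, ⟨(nat_lit 6), false, false, true, (nat_lit 224), (nat_lit 3162), (nat_lit 3873), [(nat_lit 1477347),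 (nat_lit 1472332), (nat_lit 1520934), (nat_lit 1516642), (nat_lit 1606390), (nat_lit 1594239), (nat_lit 1649977), (nat_lit 1638549)]⟩, (nat_lit 5490504), (nat_lit 34812500), (nat_lit 19396673), (nat_lit 12790827), (nat_lit 6), (nat_lit 0), [], [⟨(nat_lit 1), (nat_lit 96), (nat_lit 69), (nat_lit 100), (nat_lit 210875998)⟩], [⟨(nat_lit 1), (nat_lit 60), (nat_lit 100), (nat_lit 100), (nat_lit 7181475)⟩], [],
 ⟨⟨[(nat_lit 40), (nat_lit 60), (nat_lit 80)], [(nat_lit 0), (nat_lit 398), (nat_lit 992)], [((nat_lit 0), (nat_lit 0), (nat_lit 0)), ((nat_lit 1000), (nat_lit 814), (nat_lit 310)), ((nat_lit 1000), (nat_lit 752), (nat_lit 464))], ((nat_lit 77), (nat_lit 100), (nat_lit 42))⟩, (nat_lit 797265), (nat_lit 123), (nat_lit 123), (nat_lit 0), (nat_lit 250444), [(nat_lit 1457044010), (nat_lit 1730712322), (nat_lit 1899244078)], [(nat_lit 0), (nat_lit 0), (nat_lit 0)], [(nat_lit 25178092730), (nat_lit 26029819830), (nat_lit 26435841245), (nat_lit 27238659380),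 (nat_lit 27558327750), (nat_lit 28525679020), (nat_lit 28923839300), (nat_lit 29812698660)], (nat_lit 1271251), (nat_lit 1271251), (nat_lit 1271251), (nat_lit 1271251), (nat_lit 1271251), (nat_lit 1271251), [(nat_lit 490000), (nat_lit 780000), (nat_lit 1100000)], [(nat_lit 2), (nat_lit 44), (nat_lit 203), (nat_lit 0), (nat_lit 6)]⟩,
 ⟨⟨[(nat_lit 80), (nat_lit 100), (nat_lit 120)], [(nat_lit 0), (nat_lit 0), (nat_lit 511)], [((nat_lit 0), (nat_lit 0), (nat_lit 0)), ((nat_lit 0), (nat_lit 0), (nat_lit 0)), ((nat_lit 1000), (nat_lit 997), (nat_lit 383))], ((nat_lit 100), (nat_lit 100), (nat_lit 40))⟩, (nat_lit 792541), (nat_lit 520), (nat_lit 520), (nat_lit 0), (nat_lit 933620), [(nat_lit 1134496000), (nat_lit 1512500000), (nat_lit 1928256000)], [], [(nat_lit 8086583329), (nat_lit 8297907241), (nat_lit 8326106059), (nat_lit 8509231153), (nat_lit 8159667657), (nat_lit 8244452441), (nat_lit 8262890346), (nat_lit 8347421281)], (nat_lit 1271251), (nat_lit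 1271251), (nat_lit 1271251), (nat_lit 1271251), (nat_lit 169688), (nat_lit 2813438), [(nat_lit 1100000), (nat_lit 1442501), (nat_lit 1271251)], [(nat_lit 16), (nat_lit 54), (nat_lit 317), (nat_lit 100), (nat_lit 10)]⟩,
 ⟨⟨[(nat_lit 140), (nat_lit 160), (nat_lit 180)], [(nat_lit 0), (nat_lit 0), (nat_lit 799)], [((nat_lit 0), (nat_lit 0), (nat_lit 0)), ((nat_lit 0), (nat_lit 0), (nat_lit 0)), ((nat_lit 728), (nat_lit 1000), (nat_lit 454))], ((nat_lit 100), (nat_lit 75), (nat_lit 43))⟩, (nat_lit 39537), (nat_lit 300), (nat_lit 2131), (nat_lit 3339000), (nat_lit 3776241), [(nat_lit 442890000), (nat_lit 534240000), (nat_lit 632610000)], [], [(nat_lit 2877061385), (nat_lit 2813016711), (nat_lit 2779129572), (nat_lit 2715170302), (nat_lit 2733397902), (nat_lit 2991669203), (nat_lit 2260177111), (nat_lit 2197672811)], (nat_lit 780000), (nat_lit 1100000), (nat_lit 1271251), (nat_lit 1271251), (nat_lit 169688), (nat_lit 2813438), [(nat_lit 1977501), (nat_lit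 1271251), (nat_lit 1271251)], [(nat_lit 31), (nat_lit 65), (nat_lit 642), (nat_lit 225), (nat_lit 15)]⟩⟩) (.trZ (nat_lit 3) (nat_lit 4) (nat_lit 5) (nat_lit 100) (nat_lit 82) (nat_lit 76) (nat_lit 60) (.leaf ⟨(nat_lit 663), (nat_lit 281), (nat_lit 0), (nat_lit 56), (nat_lit 0), (nat_lit 3158), (nat_lit 2333), (nat_lit 609), (nat_lit 0), (nat_lit 0), (nat_lit 337600), [((nat_lit 360), [((nat_lit 21), (nat_lit 0), (nat_lit 172)), ((nat_lit 39), (nat_lit 2), (nat_lit 491))])], ⟨(nat_lit 8), false, true, true, (nat_lit 324), (nat_lit 3162), (nat_lit 3873), [(nat_lit 1737150), (nat_lit 1727168), (nat_lit 1780717), (nat_lit 1771459), (nat_lit 1850063), (nat_lit 1833837), (nat_lit 1893649), (nat_lit 1878147)]⟩, ⟨(nat_lit 6), false, false, true, (nat_lit 224), (nat_lit 3162), (nat_lit 3873), [(nat_lit 1477347), (nat_lit 1472332), (nat_lit 1520934), (nat_lit 1516642), (nat_lit 1606390), (nat_lit 1594239), (nat_lit 1649977), (nat_lit 1638549)]⟩, (nat_lit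 5547852), (nat_lit 32626459), (nat_lit 22223086), (nat_lit 12150455), (nat_lit 6), (nat_lit 0), [⟨(nat_lit 1), (nat_lit 54), (nat_lit 69), (nat_lit 100), (nat_lit 134638277)⟩], [⟨(nat_lit 1), (nat_lit 96), (nat_lit 69), (nat_lit 100), (nat_lit 264177781)⟩], [⟨(nat_lit 1), (nat_lit 60), (nat_lit 100), (nat_lit 100), (nat_lit 23442460)⟩], [],
 ⟨⟨[(nat_lit 40), (nat_lit 60), (nat_lit 80)], [(nat_lit 0), (nat_lit 398), (nat_lit 992)], [((nat_lit 0), (nat_lit 0), (nat_lit 0)), ((nat_lit 1000), (nat_lit 814), (nat_lit 310)), ((nat_lit 1000), (nat_lit 752), (nat_lit 464))], ((nat_lit 77), (nat_lit 100), (nat_lit 42))⟩, (nat_lit 1283623), (nat_lit 135), (nat_lit 135), (nat_lit 0), (nat_lit 250444), [(nat_lit 1517901201), (nat_lit 1952284905), (nat_lit 2339568495)], [(nat_lit 0), (nat_lit 0), (nat_lit 0)], [(nat_lit 26740407803), (nat_lit 27582223063), (nat_lit 29667227139), (nat_lit 30423662574), (nat_lit 29103214983), (nat_lit 29867595563), (nat_lit 31764995857),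 (nat_lit 32506206573)], (nat_lit 1271251), (nat_lit 1271251), (nat_lit 1271251), (nat_lit 1271251), (nat_lit 1271251), (nat_lit 1271251), [(nat_lit 490000), (nat_lit 780000), (nat_lit 1100000)], [(nat_lit 2), (nat_lit 44), (nat_lit 203), (nat_lit 0), (nat_lit 6)]⟩,
 ⟨⟨[(nat_lit 80), (nat_lit 100), (nat_lit 120)], [(nat_lit 0), (nat_lit 0), (nat_lit 511)], [((nat_lit 0), (nat_lit 0), (nat_lit 0)), ((nat_lit 0), (nat_lit 0), (nat_lit 0)), ((nat_lit 1000), (nat_lit 997), (nat_lit 383))], ((nat_lit 100), (nat_lit 100), (nat_lit 40))⟩, (nat_lit 1404771), (nat_lit 509), (nat_lit 509), (nat_lit 0), (nat_lit 933620), [(nat_lit 1579856000), (nat_lit 2106250000), (nat_lit 2685216000)], [], [(nat_lit 11586068132), (nat_lit 11868385716), (nat_lit 12471488599), (nat_lit 12701961225), (nat_lit 12218801773), (nat_lit 12323184831), (nat_lit 12677507070), (nat_lit 12746460627)], (nat_lit 1271251), (nat_lit 1271251), (nat_lit 1271251), (nat_lit 1271251), (nat_lit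 356250), (nat_lit 2872501), [(nat_lit 1100000), (nat_lit 1442501), (nat_lit 1271251)], [(nat_lit 16), (nat_lit 54), (nat_lit 317), (nat_lit 100), (nat_lit 9)]⟩,
 ⟨⟨[(nat_lit 140), (nat_lit 160), (nat_lit 180)], [(nat_lit 0), (nat_lit 0), (nat_lit 799)], [((nat_lit 0), (nat_lit 0), (nat_lit 0)), ((nat_lit 0), (nat_lit 0), (nat_lit 0)), ((nat_lit 728), (nat_lit 1000), (nat_lit 454))], ((nat_lit 100), (nat_lit 75), (nat_lit 43))⟩, (nat_lit 60391), (nat_lit 300), (nat_lit 2113), (nat_lit 4155200), (nat_lit 3776241), [(nat_lit 551152000), (nat_lit 664832000), (nat_lit 787248000)], [], [(nat_lit 3361809709), (nat_lit 3280824227), (nat_lit 3237976221), (nat_lit 3157087001), (nat_lit 2781986672), (nat_lit 2702345299), (nat_lit 2713745787), (nat_lit 2619086355)], (nat_lit 780000), (nat_lit 1100000), (nat_lit 1271251), (nat_lit 1271251), (nat_lit 356250), (nat_lit 2872501), [(nat_lit 1977501), (nat_lit 1271251), (nat_lit 1271251)], [(nat_lit 31), (nat_lit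 65), (nat_lit 637), (nat_lit 225), (nat_lit 14)]⟩⟩))) (.spl (nat_lit 1) (nat_lit 260) (.trX (nat_lit 3) (nat_lit 0) (nat_lit 1) (nat_lit 75) (nat_lit 48) (nat_lit 100) (nat_lit 380) (.leaf ⟨(nat_lit 362), (nat_lit 511), (nat_lit 0), (nat_lit 127), (nat_lit 0), (nat_lit 3544), (nat_lit 5172), (nat_lit 1365), (nat_lit 0), (nat_lit 0), (nat_lit 362000), [((nat_lit 360), [((nat_lit 21), (nat_lit 2), (nat_lit 362))])], ⟨(nat_lit 7), false, true, true, (nat_lit 304), (nat_lit 3162), (nat_lit 3873), [(nat_lit 1672628), (nat_lit 1666215), (nat_lit 1694401), (nat_lit 1688349), (nat_lit 1833932), (nat_lit 1818598), (nat_lit 1855725), (nat_lit 1840753)]⟩, ⟨(nat_lit 6), false, false, true, (nat_lit 224), (nat_lit 3162), (nat_lit 3873), [(nat_lit 1477347), (nat_lit 1472332), (nat_lit 1520934), (nat_lit 1516642), (nat_lit 1606390), (nat_lit 1594239), (nat_lit 1649977), (nat_lit 1638549)]⟩, (nat_lit 5520754), (nat_lit 33888369), (nat_lit 20587287), (nat_lit 12524344),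 (nat_lit 6), (nat_lit 0), [⟨(nat_lit 1), (nat_lit 58), (nat_lit 68), (nat_lit 100), (nat_lit 1262275)⟩], [⟨(nat_lit 1), (nat_lit 96), (nat_lit 69), (nat_lit 100), (nat_lit 284467087)⟩], [], [],
 ⟨⟨[(nat_lit 40), (nat_lit 60), (nat_lit 80)], [(nat_lit 0), (nat_lit 398), (nat_lit 992)], [((nat_lit 0), (nat_lit 0), (nat_lit 0)), ((nat_lit 1000), (nat_lit 814), (nat_lit 310)), ((nat_lit 1000), (nat_lit 752), (nat_lit 464))], ((nat_lit 73), (nat_lit 100), (nat_lit 55))⟩, (nat_lit 659540), (nat_lit 111), (nat_lit 111), (nat_lit 0), (nat_lit 158185), [(nat_lit 1724105890), (nat_lit 2341692792), (nat_lit 2836732000)], [(nat_lit 0), (nat_lit 0), (nat_lit 0)], [(nat_lit 25666856434), (nat_lit 26637097538), (nat_lit 29635196324), (nat_lit 30410426486), (nat_lit 28254577196), (nat_lit 29080074612), (nat_lit 31794579890), (nat_lit 32582300988)], (nat_lit 1271251), (nat_lit 1271251), (nat_lit 1271251), (nat_lit 1271251), (nat_lit 1271251), (nat_lit 1271251),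 [(nat_lit 490000), (nat_lit 780000), (nat_lit 1100000)], [(nat_lit 2), (nat_lit 44), (nat_lit 203), (nat_lit 0), (nat_lit 6)]⟩,
 ⟨⟨[(nat_lit 80), (nat_lit 120), (nat_lit 140)], [(nat_lit 0), (nat_lit 0), (nat_lit 1164)], [((nat_lit 0), (nat_lit 0), (nat_lit 0)), ((nat_lit 0), (nat_lit 0), (nat_lit 0)), ((nat_lit 941), (nat_lit 1000), (nat_lit 576))], ((nat_lit 100), (nat_lit 95), (nat_lit 55))⟩, (nat_lit 1164019), (nat_lit 451), (nat_lit 451), (nat_lit 0), (nat_lit 607013), [(nat_lit 2990944000), (nat_lit 5083584000), (nat_lit 6279196000)], [], [(nat_lit 22670813564), (nat_lit 23051322170), (nat_lit 25344133832), (nat_lit 25588375453), (nat_lit 22888831999), (nat_lit 22998352042), (nat_lit 24134360255), (nat_lit 24459809884)], (nat_lit 1271251), (nat_lit 1271251), (nat_lit 1271251), (nat_lit 1271251), (nat_lit 169688), (nat_lit 2813438), [(nat_lit 1100000), (nat_lit 1785001), (nat_lit 1271251)], [(nat_lit 17), (nat_lit 58), (nat_lit 401), (nat_lit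 175), (nat_lit 11)]⟩,
 ⟨⟨[(nat_lit 140), (nat_lit 180), (nat_lit 200)], [(nat_lit 0), (nat_lit 0), (nat_lit 2835)], [((nat_lit 0), (nat_lit 0), (nat_lit 0)), ((nat_lit 0), (nat_lit 0), (nat_lit 0)), ((nat_lit 363), (nat_lit 1000), (nat_lit 798))], ((nat_lit 0), (nat_lit 0), (nat_lit 0))⟩, (nat_lit 34942), (nat_lit 300), (nat_lit 1483), (nat_lit 9918700), (nat_lit 2322675), [(nat_lit 1249934000), (nat_lit 1785366000), (nat_lit 2082800000)], [], [(nat_lit 9377954286), (nat_lit 9162483401), (nat_lit 9097481803), (nat_lit 8881556779), (nat_lit 7720973735), (nat_lit 8448477906), (nat_lit 7427569239), (nat_lit 7220604827)], (nat_lit 780000), (nat_lit 1100000), (nat_lit 1271251), (nat_lit 1271251), (nat_lit 169688), (nat_lit 2813438), [(nat_lit 1977501), (nat_lit 1271251), (nat_lit 1271251)], [(nat_lit 32), (nat_lit 67), (nat_lit 480), (nat_lit 225), (nat_lit 10)]⟩⟩)) (.trX (nat_lit 5) (nat_lit 1) (nat_lit 2) (nat_lit 97) (nat_lit 49) (nat_lit 100) (nat_lit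 380) (.leaf ⟨(nat_lit 0), (nat_lit 852), (nat_lit 0), (nat_lit 148), (nat_lit 0), (nat_lit 4626), (nat_lit 6765), (nat_lit 1595), (nat_lit 0), (nat_lit 0), (nat_lit 0), [], Pd.none, Pd.none, (nat_lit 0), (nat_lit 1), (nat_lit 0), (nat_lit 0), (nat_lit 6), (nat_lit 0), [], [⟨(nat_lit 1), (nat_lit 96), (nat_lit 69), (nat_lit 100), (nat_lit 349931024)⟩], [⟨(nat_lit 1), (nat_lit 64), (nat_lit 98), (nat_lit 100), (nat_lit 83527013)⟩], [],
 ⟨⟨[(nat_lit 40), (nat_lit 60), (nat_lit 80)], [(nat_lit 0), (nat_lit 398), (nat_lit 992)], [((nat_lit 0), (nat_lit 0), (nat_lit 0)), ((nat_lit 1000), (nat_lit 814), (nat_lit 310)), ((nat_lit 1000), (nat_lit 752), (nat_lit 464))], ((nat_lit 73), (nat_lit 100), (nat_lit 55))⟩, (nat_lit 1332335), (nat_lit 119), (nat_lit 119), (nat_lit 0), (nat_lit 185175), [(nat_lit 2032000003), (nat_lit 3282000003), (nat_lit 4688000000)], [], [(nat_lit 26333747384), (nat_lit 27315504424), (nat_lit 31230475433), (nat_lit 32229226605),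 (nat_lit 28873845679), (nat_lit 29785891024), (nat_lit 33537436119), (nat_lit 34374513658)], (nat_lit 1271251), (nat_lit 1271251), (nat_lit 1271251), (nat_lit 1271251), (nat_lit 1271251), (nat_lit 1271251), [(nat_lit 490000), (nat_lit 780000), (nat_lit 1100000)], [(nat_lit 2), (nat_lit 44), (nat_lit 203), (nat_lit 0), (nat_lit 6)]⟩,
 ⟨⟨[(nat_lit 80), (nat_lit 120), (nat_lit 140)], [(nat_lit 0), (nat_lit 528), (nat_lit 1572)], [((nat_lit 0), (nat_lit 0), (nat_lit 0)), ((nat_lit 1000), (nat_lit 959), (nat_lit 206)), ((nat_lit 966), (nat_lit 1000), (nat_lit 679))], ((nat_lit 99), (nat_lit 100), (nat_lit 56))⟩, (nat_lit 3836966), (nat_lit 458), (nat_lit 458), (nat_lit 0), (nat_lit 627401), [(nat_lit 4688000000), (nat_lit 7968000000), (nat_lit 9842000000)], [], [(nat_lit 30904853868), (nat_lit 31538134383), (nat_lit 35335915150), (nat_lit 35933490026), (nat_lit 32717707519), (nat_lit 32973645704), (nat_lit 36559657842), (nat_lit 37064291392)], (nat_lit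 1271251), (nat_lit 1271251), (nat_lit 1271251), (nat_lit 1271251), (nat_lit 169688), (nat_lit 2740000), [(nat_lit 1100000), (nat_lit 1785001), (nat_lit 1271251)], [(nat_lit 17), (nat_lit 58), (nat_lit 401), (nat_lit 175), (nat_lit 11)]⟩,
 ⟨⟨[(nat_lit 140), (nat_lit 180), (nat_lit 200)], [(nat_lit 0), (nat_lit 0), (nat_lit 2835)], [((nat_lit 0), (nat_lit 0), (nat_lit 0)), ((nat_lit 0), (nat_lit 0), (nat_lit 0)), ((nat_lit 363), (nat_lit 1000), (nat_lit 798))], ((nat_lit 0), (nat_lit 0), (nat_lit 0))⟩, (nat_lit 40720), (nat_lit 300), (nat_lit 1672), (nat_lit 11558800), (nat_lit 2724938), [(nat_lit 1456616000), (nat_lit 2080584000), (nat_lit 2427200000)], [], [(nat_lit 10983819286), (nat_lit 10742738209), (nat_lit 10641682306), (nat_lit 10400754198), (nat_lit 9114530414), (nat_lit 9683776201), (nat_lit 8767815327), (nat_lit 8533680212)], (nat_lit 780000), (nat_lit 1100000), (nat_lit 1271251), (nat_lit 1271251), (nat_lit 169688), (nat_lit 2740000),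 [(nat_lit 1977501), (nat_lit 1271251), (nat_lit 1271251)], [(nat_lit 32), (nat_lit 67), (nat_lit 526), (nat_lit 225), (nat_lit 11)]⟩⟩)))))
noncomputable def c8_58 : Tr Lf :=
 (.trX (nat_lit 5) (nat_lit 1) (nat_lit 2) (nat_lit 94) (nat_lit 59) (nat_lit 100) (nat_lit 370) (.spl (nat_lit 2) (nat_lit 140) (.trX (nat_lit 4) (nat_lit 0) (nat_lit 2) (nat_lit 75) (nat_lit 92) (nat_lit 100) (nat_lit 300) (.trX (nat_lit 5) (nat_lit 1) (nat_lit 2) (nat_lit 96) (nat_lit 69) (nat_lit 100) (nat_lit 360) (.spl (nat_lit 6) (nat_lit 16) (.spl (nat_lit 2) (nat_lit 130) (.trX (nat_lit 4) (nat_lit 0) (nat_lit 2) (nat_lit 76) (nat_lit 97) (nat_lit 100) (nat_lit 290) (.trX (nat_lit 5) (nat_lit 1) (nat_lit 2) (nat_lit 98) (nat_lit 74) (nat_lit 100) (nat_lit 350) (.spl (nat_lit 3) (nat_lit 360) (.spl (nat_lit 1) (nat_lit 300) (.leaf ⟨(nat_lit 674), (nat_lit 326), (nat_lit 0), (nat_lit 0), (nat_lit 0), (nat_lit 3227), (nat_lit 2081), (nat_lit 0), (nat_lit 0), (nat_lit 0),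 (nat_lit 346650), [((nat_lit 360), [((nat_lit 21), (nat_lit 0), (nat_lit 165)), ((nat_lit 39), (nat_lit 2), (nat_lit 509))])], ⟨(nat_lit 7), false, true, true, (nat_lit 315), (nat_lit 3162), (nat_lit 3873), [(nat_lit 1716165), (nat_lit 1710475), (nat_lit 1737930), (nat_lit 1732601), (nat_lit 1845258), (nat_lit 1832432), (nat_lit 1867032), (nat_lit 1854567)]⟩, ⟨(nat_lit 6), false, false, true, (nat_lit 208), (nat_lit 3162), (nat_lit 3873), [(nat_lit 1477347), (nat_lit 1472332), (nat_lit 1488244), (nat_lit 1483410), (nat_lit 1557999), (nat_lit 1548524), (nat_lit 1568896), (nat_lit 1559601)]⟩, (nat_lit 5445229), (nat_lit 33928634), (nat_lit 21925894), (nat_lit 11145472), (nat_lit 6), (nat_lit 0), [], [⟨(nat_lit 1), (nat_lit 100), (nat_lit 70), (nat_lit 98), (nat_lit 318664340)⟩], [⟨(nat_lit 1), (nat_lit 81), (nat_lit 96), (nat_lit 100), (nat_lit 60467459)⟩], [],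
 ⟨⟨[(nat_lit 40), (nat_lit 60), (nat_lit 80)], [(nat_lit 0), (nat_lit 398), (nat_lit 992)], [((nat_lit 0), (nat_lit 0), (nat_lit 0)), ((nat_lit 1000), (nat_lit 814), (nat_lit 310)), ((nat_lit 1000), (nat_lit 752), (nat_lit 464))], ((nat_lit 77), (nat_lit 100), (nat_lit 42))⟩, (nat_lit 1014130), (nat_lit 136), (nat_lit 136), (nat_lit 0), (nat_lit 280149), [(nat_lit 1510867202), (nat_lit 1926359462), (nat_lit 2290177738)], [(nat_lit 0), (nat_lit 0), (nat_lit 0)], [(nat_lit 25601251808), (nat_lit 26449348388), (nat_lit 28362019556), (nat_lit 29093269609), (nat_lit 27050045440), (nat_lit 27825971843), (nat_lit 29668821535), (nat_lit 30526077796)], (nat_lit 1271251), (nat_lit 1271251), (nat_lit 1271251), (nat_lit 1271251), (nat_lit 1271251), (nat_lit 1271251), [(nat_lit 490000), (nat_lit 780000), (nat_lit 1100000)], [(nat_lit 2), (nat_lit 44), (nat_lit 203), (nat_lit 0), (nat_lit 6)]⟩,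
 ⟨⟨[(nat_lit 60), (nat_lit 80), (nat_lit 100)], [(nat_lit 0), (nat_lit 0), (nat_lit 534)], [((nat_lit 0), (nat_lit 0), (nat_lit 0)), ((nat_lit 0), (nat_lit 0), (nat_lit 0)), ((nat_lit 1000), (nat_lit 917), (nat_lit 393))], ((nat_lit 92), (nat_lit 100), (nat_lit 39))⟩, (nat_lit 880873), (nat_lit 442), (nat_lit 442), (nat_lit 0), (nat_lit 873215), [(nat_lit 1069932000), (nat_lit 1528288000), (nat_lit 2037500000)], [], [(nat_lit 10084979079), (nat_lit 10275724655), (nat_lit 10963424754), (nat_lit 11111630006), (nat_lit 10479837381), (nat_lit 10573029547), (nat_lit 10957943733), (nat_lit 11033095355)], (nat_lit 1271251), (nat_lit 1271251), (nat_lit 1271251), (nat_lit 1271251), (nat_lit 169688), (nat_lit 2519688), [(nat_lit 780000), (nat_lit 1100000), (nat_lit 1442501)], [(nat_lit 9), (nat_lit 50), (nat_lit 317), (nat_lit 100), (nat_lit 11)]⟩,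
 Rw.none⟩) (.trX (nat_lit 5) (nat_lit 1) (nat_lit 2) (nat_lit 92) (nat_lit 82) (nat_lit 100) (nat_lit 330) (.leaf ⟨(nat_lit 0), (nat_lit 1000), (nat_lit 0), (nat_lit 0), (nat_lit 0), (nat_lit 4084), (nat_lit 5630), (nat_lit 0), (nat_lit 0), (nat_lit 0), (nat_lit 0), [], Pd.none, Pd.none, (nat_lit 0), (nat_lit 1), (nat_lit 0), (nat_lit 0), (nat_lit 6), (nat_lit 0), [], [⟨(nat_lit 1), (nat_lit 100), (nat_lit 70), (nat_lit 98), (nat_lit 574197499)⟩], [⟨(nat_lit 1), (nat_lit 82), (nat_lit 92), (nat_lit 100), (nat_lit 216094130)⟩], [],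
 ⟨⟨[(nat_lit 40), (nat_lit 60), (nat_lit 80)], [(nat_lit 0), (nat_lit 398), (nat_lit 992)], [((nat_lit 0), (nat_lit 0), (nat_lit 0)), ((nat_lit 1000), (nat_lit 814), (nat_lit 310)), ((nat_lit 1000), (nat_lit 752), (nat_lit 464))], ((nat_lit 77), (nat_lit 100), (nat_lit 42))⟩, (nat_lit 3140701), (nat_lit 148), (nat_lit 148), (nat_lit 0), (nat_lit 313754), [(nat_lit 2032000031), (nat_lit 3301191773), (nat_lit 4688000000)], [], [(nat_lit 25219213061), (nat_lit 26282319144), (nat_lit 28972894278), (nat_lit 30008774428), (nat_lit 27021131864), (nat_lit 28158245374), (nat_lit 30554332961), (nat_lit 31488168063)], (nat_lit 1271251), (nat_lit 1271251), (nat_lit 1271251), (nat_lit 1271251), (nat_lit 1271251), (nat_lit 1271251), [(nat_lit 490000), (nat_lit 780000), (nat_lit 1100000)], [(nat_lit 2), (nat_lit 44), (nat_lit 203), (nat_lit 0), (nat_lit 6)]⟩,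
 ⟨⟨[(nat_lit 60), (nat_lit 80), (nat_lit 100)], [(nat_lit 0), (nat_lit 304), (nat_lit 825)], [((nat_lit 0), (nat_lit 0), (nat_lit 0)), ((nat_lit 1000), (nat_lit 905), (nat_lit 238)), ((nat_lit 1000), (nat_lit 871), (nat_lit 407))], ((nat_lit 87), (nat_lit 100), (nat_lit 39))⟩, (nat_lit 4487228), (nat_lit 443), (nat_lit 443), (nat_lit 0), (nat_lit 875038), [(nat_lit 3282000000), (nat_lit 4688000000), (nat_lit 6250000000)], [], [(nat_lit 26949721371), (nat_lit 27689430251), (nat_lit 30355740475), (nat_lit 31591216605), (nat_lit 29161895590), (nat_lit 29643266118), (nat_lit 31967624317), (nat_lit 32671320498)], (nat_lit 1271251), (nat_lit 1271251), (nat_lit 1271251), (nat_lit 1271251), (nat_lit 169688), (nat_lit 2372813), [(nat_lit 780000), (nat_lit 1100000), (nat_lit 1442501)], [(nat_lit 9), (nat_lit 50), (nat_lit 317), (nat_lit 100), (nat_lit 11)]⟩,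
 Rw.none⟩))) (.trZ (nat_lit 3) (nat_lit 4) (nat_lit 5) (nat_lit 100) (nat_lit 61) (nat_lit 92) (nat_lit 110) (.leaf ⟨(nat_lit 564), (nat_lit 436), (nat_lit 0), (nat_lit 0), (nat_lit 0), (nat_lit 3395), (nat_lit 2585), (nat_lit 0), (nat_lit 0), (nat_lit 0), (nat_lit 253350), [((nat_lit 360), [((nat_lit 21), (nat_lit 0), (nat_lit 243)), ((nat_lit 39), (nat_lit 2), (nat_lit 321))])], ⟨(nat_lit 9), false, true, true, (nat_lit 357), (nat_lit 3162), (nat_lit 3873), [(nat_lit 1845258), (nat_lit 1832432), (nat_lit 1888802), (nat_lit 1876699), (nat_lit 1909779), (nat_lit 1893385), (nat_lit 1953347), (nat_lit 1937676)]⟩, ⟨(nat_lit 6), false, false, true, (nat_lit 208), (nat_lit 3162), (nat_lit 3873), [(nat_lit 1477347), (nat_lit 1472332), (nat_lit 1488244), (nat_lit 1483410), (nat_lit 1557999), (nat_lit 1548524), (nat_lit 1568896), (nat_lit 1559601)]⟩, (nat_lit 5464851), (nat_lit 31234366), (nat_lit 25335584), (nat_lit 10430050), (nat_lit 6), (nat_lit 0),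 [], [⟨(nat_lit 1), (nat_lit 100), (nat_lit 70), (nat_lit 98), (nat_lit 397324822)⟩], [⟨(nat_lit 1), (nat_lit 74), (nat_lit 98), (nat_lit 100), (nat_lit 42079868)⟩], [⟨(nat_lit 1), (nat_lit 75), (nat_lit 46), (nat_lit 100), (nat_lit 133364410)⟩],
 ⟨⟨[(nat_lit 40), (nat_lit 60), (nat_lit 80)], [(nat_lit 0), (nat_lit 398), (nat_lit 992)], [((nat_lit 0), (nat_lit 0), (nat_lit 0)), ((nat_lit 1000), (nat_lit 814), (nat_lit 310)), ((nat_lit 1000), (nat_lit 752), (nat_lit 464))], ((nat_lit 77), (nat_lit 100), (nat_lit 42))⟩, (nat_lit 1468983), (nat_lit 161), (nat_lit 161), (nat_lit 0), (nat_lit 313839), [(nat_lit 1581371205), (nat_lit 2185906886), (nat_lit 2795920314)], [(nat_lit 0), (nat_lit 0), (nat_lit 0)], [(nat_lit 28694766225), (nat_lit 29452400162), (nat_lit 30335379205), (nat_lit 31195967590), (nat_lit 29974699820), (nat_lit 30714678922), (nat_lit 31676475749), (nat_lit 32459215353)], (nat_lit 1271251), (nat_lit 1271251), (nat_lit 1271251), (nat_lit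 1271251), (nat_lit 1271251), (nat_lit 1271251), [(nat_lit 490000), (nat_lit 780000), (nat_lit 1100000)], [(nat_lit 2), (nat_lit 44), (nat_lit 203), (nat_lit 0), (nat_lit 6)]⟩,
 ⟨⟨[(nat_lit 60), (nat_lit 80), (nat_lit 100)], [(nat_lit 0), (nat_lit 0), (nat_lit 534)], [((nat_lit 0), (nat_lit 0), (nat_lit 0)), ((nat_lit 0), (nat_lit 0), (nat_lit 0)), ((nat_lit 1000), (nat_lit 917), (nat_lit 393))], ((nat_lit 92), (nat_lit 100), (nat_lit 39))⟩, (nat_lit 1242294), (nat_lit 410), (nat_lit 410), (nat_lit 0), (nat_lit 885221), [(nat_lit 1430952000), (nat_lit 2043968000), (nat_lit 2725000000)], [], [(nat_lit 13922911289), (nat_lit 14360031760), (nat_lit 14630587989), (nat_lit 15007292098), (nat_lit 14996362823), (nat_lit 15256077909), (nat_lit 15476246124), (nat_lit 15737840406)], (nat_lit 1271251), (nat_lit 1271251), (nat_lit 1271251), (nat_lit 1271251), (nat_lit 704688), (nat_lit 2647188), [(nat_lit 780000), (nat_lit 1100000), (nat_lit 1442501)], [(nat_lit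 9), (nat_lit 50), (nat_lit 317), (nat_lit 100), (nat_lit 10)]⟩,
 Rw.none⟩))))) (.leaf ⟨(nat_lit 0), (nat_lit 863), (nat_lit 0), (nat_lit 137), (nat_lit 0), (nat_lit 4136), (nat_lit 6436), (nat_lit 1433), (nat_lit 0), (nat_lit 0), (nat_lit 0), [], Pd.none, Pd.none, (nat_lit 0), (nat_lit 1), (nat_lit 0), (nat_lit 0), (nat_lit 6), (nat_lit 0), [], [⟨(nat_lit 1), (nat_lit 98), (nat_lit 70), (nat_lit 100), (nat_lit 224885873)⟩], [⟨(nat_lit 1), (nat_lit 80), (nat_lit 92), (nat_lit 100), (nat_lit 92000135)⟩], [],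
 ⟨⟨[(nat_lit 40), (nat_lit 60), (nat_lit 80)], [(nat_lit 0), (nat_lit 398), (nat_lit 992)], [((nat_lit 0), (nat_lit 0), (nat_lit 0)), ((nat_lit 1000), (nat_lit 814), (nat_lit 310)), ((nat_lit 1000), (nat_lit 752), (nat_lit 464))], ((nat_lit 77), (nat_lit 100), (nat_lit 42))⟩, (nat_lit 3647589), (nat_lit 156), (nat_lit 156), (nat_lit 0), (nat_lit 299718), [(nat_lit 2032000005), (nat_lit 3400580847), (nat_lit 4688000000)], [], [(nat_lit 25674963032), (nat_lit 26689033980), (nat_lit 31222711144), (nat_lit 32147294512), (nat_lit 27676665263), (nat_lit 28578952980), (nat_lit 32861696266), (nat_lit 33678750604)], (nat_lit 1271251), (nat_lit 1271251), (nat_lit 1271251), (nat_lit 1271251), (nat_lit 1271251), (nat_lit 1271251), [(nat_lit 490000), (nat_lit 780000), (nat_lit 1100000)], [(nat_lit 2), (nat_lit 44), (nat_lit 203), (nat_lit 0), (nat_lit 6)]⟩,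
 ⟨⟨[(nat_lit 60), (nat_lit 80), (nat_lit 100)], [(nat_lit 0), (nat_lit 0), (nat_lit 534)], [((nat_lit 0), (nat_lit 0), (nat_lit 0)), ((nat_lit 0), (nat_lit 0), (nat_lit 0)), ((nat_lit 1000), (nat_lit 917), (nat_lit 393))], ((nat_lit 92), (nat_lit 100), (nat_lit 39))⟩, (nat_lit 4159416), (nat_lit 440), (nat_lit 440), (nat_lit 0), (nat_lit 845563), [(nat_lit 3282000000), (nat_lit 4688000000), (nat_lit 6250000000)], [], [(nat_lit 30188935085), (nat_lit 31459064025), (nat_lit 34943924470), (nat_lit 37105200810), (nat_lit 32057815938), (nat_lit 32660849836), (nat_lit 36153297240), (nat_lit 37206463368)], (nat_lit 1271251), (nat_lit 1271251), (nat_lit 1271251), (nat_lit 1271251), (nat_lit 169688), (nat_lit 2593126), [(nat_lit 780000), (nat_lit 1100000), (nat_lit 1442501)], [(nat_lit 9), (nat_lit 50), (nat_lit 317), (nat_lit 100), (nat_lit 11)]⟩,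
 ⟨⟨[(nat_lit 140), (nat_lit 160), (nat_lit 180)], [(nat_lit 0), (nat_lit 151), (nat_lit 943)], [((nat_lit 0), (nat_lit 0), (nat_lit 0)), ((nat_lit 955), (nat_lit 1000), (nat_lit 113)), ((nat_lit 742), (nat_lit 1000), (nat_lit 459))], ((nat_lit 100), (nat_lit 77), (nat_lit 42))⟩, (nat_lit 754710), (nat_lit 300), (nat_lit 2208), (nat_lit 9631100), (nat_lit 3926961), [(nat_lit 1348354000), (nat_lit 1626464000), (nat_lit 1925946000)], [], [(nat_lit 8174556601), (nat_lit 8127613009), (nat_lit 7957101694), (nat_lit 7910213961), (nat_lit 8028543493), (nat_lit 8212722621), (nat_lit 6526973048), (nat_lit 6481172166)], (nat_lit 857188), (nat_lit 936250), (nat_lit 1271251), (nat_lit 1271251), (nat_lit 169688), (nat_lit 2593126), [(nat_lit 1977501), (nat_lit 1271251), (nat_lit 1271251)], [(nat_lit 31), (nat_lit 65), (nat_lit 652), (nat_lit 200), (nat_lit 15)]⟩⟩)) (.leaf ⟨(nat_lit 0), (nat_lit 881), (nat_lit 0), (nat_lit 119), (nat_lit 0), (nat_lit 4325), (nat_lit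 7245), (nat_lit 1340), (nat_lit 0), (nat_lit 0), (nat_lit 0), [], Pd.none, Pd.none, (nat_lit 0), (nat_lit 1), (nat_lit 0), (nat_lit 0), (nat_lit 6), (nat_lit 0), [], [⟨(nat_lit 1), (nat_lit 100), (nat_lit 71), (nat_lit 100), (nat_lit 369951961)⟩], [⟨(nat_lit 1), (nat_lit 82), (nat_lit 92), (nat_lit 100), (nat_lit 84150574)⟩], [],
 ⟨⟨[(nat_lit 40), (nat_lit 60), (nat_lit 80)], [(nat_lit 0), (nat_lit 398), (nat_lit 992)], [((nat_lit 0), (nat_lit 0), (nat_lit 0)), ((nat_lit 1000), (nat_lit 814), (nat_lit 310)), ((nat_lit 1000), (nat_lit 752), (nat_lit 464))], ((nat_lit 73), (nat_lit 100), (nat_lit 55))⟩, (nat_lit 2015133), (nat_lit 137), (nat_lit 137), (nat_lit 0), (nat_lit 252666), [(nat_lit 2032000012), (nat_lit 3282000011), (nat_lit 4688000000)], [], [(nat_lit 26051590503), (nat_lit 27004590003), (nat_lit 31449034675), (nat_lit 32389940650), (nat_lit 27897701432), (nat_lit 28744409250), (nat_lit 33095587263), (nat_lit 33925365175)], (nat_lit 1271251),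 (nat_lit 1271251), (nat_lit 1271251), (nat_lit 1271251), (nat_lit 1271251), (nat_lit 1271251), [(nat_lit 490000), (nat_lit 780000), (nat_lit 1100000)], [(nat_lit 2), (nat_lit 44), (nat_lit 203), (nat_lit 0), (nat_lit 6)]⟩,
 ⟨⟨[(nat_lit 60), (nat_lit 100), (nat_lit 120)], [(nat_lit 0), (nat_lit 0), (nat_lit 1164)], [((nat_lit 0), (nat_lit 0), (nat_lit 0)), ((nat_lit 0), (nat_lit 0), (nat_lit 0)), ((nat_lit 1000), (nat_lit 933), (nat_lit 572))], ((nat_lit 93), (nat_lit 100), (nat_lit 55))⟩, (nat_lit 1559493), (nat_lit 430), (nat_lit 430), (nat_lit 0), (nat_lit 694017), [(nat_lit 3282000000), (nat_lit 6250000000), (nat_lit 7968000000)], [], [(nat_lit 33534482327), (nat_lit 34735582422), (nat_lit 38011412867), (nat_lit 39046313388), (nat_lit 33688420226), (nat_lit 34263175875), (nat_lit 37203249800), (nat_lit 38267740310)], (nat_lit 1271251), (nat_lit 1271251), (nat_lit 1271251), (nat_lit 1271251), (nat_lit 169688), (nat_lit 2593126), [(nat_lit 780000),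 (nat_lit 1435001), (nat_lit 1271251)], [(nat_lit 10), (nat_lit 54), (nat_lit 317), (nat_lit 100), (nat_lit 10)]⟩,
 ⟨⟨[(nat_lit 140), (nat_lit 180), (nat_lit 200)], [(nat_lit 0), (nat_lit 0), (nat_lit 2835)], [((nat_lit 0), (nat_lit 0), (nat_lit 0)), ((nat_lit 0), (nat_lit 0), (nat_lit 0)), ((nat_lit 363), (nat_lit 1000), (nat_lit 798))], ((nat_lit 0), (nat_lit 0), (nat_lit 0))⟩, (nat_lit 32741), (nat_lit 300), (nat_lit 2166), (nat_lit 9293900), (nat_lit 3728956), [(nat_lit 1171198000), (nat_lit 1672902000), (nat_lit 1951600000)], [], [(nat_lit 8330821997), (nat_lit 8219646612), (nat_lit 8163218645), (nat_lit 8051068256), (nat_lit 6871146924), (nat_lit 7198901184), (nat_lit 6647797832), (nat_lit 6557074227)], (nat_lit 780000), (nat_lit 936250), (nat_lit 1271251), (nat_lit 1271251), (nat_lit 169688), (nat_lit 2593126), [(nat_lit 1977501), (nat_lit 1271251), (nat_lit 1271251)], [(nat_lit 32), (nat_lit 67), (nat_lit 642), (nat_lit 200), (nat_lit 13)]⟩⟩))))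 (.leaf ⟨(nat_lit 0), (nat_lit 821), (nat_lit 0), (nat_lit 179), (nat_lit 0), (nat_lit 4095), (nat_lit 7197), (nat_lit 1843), (nat_lit 0), (nat_lit 0), (nat_lit 0), [], Pd.none, Pd.none, (nat_lit 0), (nat_lit 1), (nat_lit 0), (nat_lit 0), (nat_lit 6), (nat_lit 0), [], [⟨(nat_lit 1), (nat_lit 92), (nat_lit 68), (nat_lit 100), (nat_lit 162685624)⟩], [⟨(nat_lit 1), (nat_lit 72), (nat_lit 89), (nat_lit 100), (nat_lit 53536208)⟩], [],
 ⟨⟨[(nat_lit 40), (nat_lit 60), (nat_lit 80)], [(nat_lit 0), (nat_lit 398), (nat_lit 992)], [((nat_lit 0), (nat_lit 0), (nat_lit 0)), ((nat_lit 1000), (nat_lit 814), (nat_lit 310)), ((nat_lit 1000), (nat_lit 752), (nat_lit 464))], ((nat_lit 73), (nat_lit 100), (nat_lit 55))⟩, (nat_lit 4666696), (nat_lit 151), (nat_lit 151), (nat_lit 0), (nat_lit 290411), [(nat_lit 2032000100), (nat_lit 3455931525), (nat_lit 4688000000)], [], [(nat_lit 25772373078), (nat_lit 26781940975), (nat_lit 31173614505), (nat_lit 32094656990), (nat_lit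 28434281863), (nat_lit 29293996115), (nat_lit 33356739175), (nat_lit 34135450610)], (nat_lit 1271251), (nat_lit 1271251), (nat_lit 1271251), (nat_lit 1271251), (nat_lit 1271251), (nat_lit 1271251), [(nat_lit 490000), (nat_lit 780000), (nat_lit 1100000)], [(nat_lit 2), (nat_lit 44), (nat_lit 203), (nat_lit 0), (nat_lit 6)]⟩,
 ⟨⟨[(nat_lit 60), (nat_lit 100), (nat_lit 120)], [(nat_lit 0), (nat_lit 0), (nat_lit 1164)], [((nat_lit 0), (nat_lit 0), (nat_lit 0)), ((nat_lit 0), (nat_lit 0), (nat_lit 0)), ((nat_lit 1000), (nat_lit 933), (nat_lit 572))], ((nat_lit 93), (nat_lit 100), (nat_lit 55))⟩, (nat_lit 3179009), (nat_lit 484), (nat_lit 484), (nat_lit 0), (nat_lit 815474), [(nat_lit 3282000000), (nat_lit 6250000000), (nat_lit 7968000000)], [], [(nat_lit 33122923368), (nat_lit 34448114972), (nat_lit 37985156311), (nat_lit 38931142308), (nat_lit 34172607427), (nat_lit 34719577654), (nat_lit 37680151028), (nat_lit 38688696927)], (nat_lit 1271251), (nat_lit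 1271251), (nat_lit 1271251), (nat_lit 1271251), (nat_lit 169688), (nat_lit 2666563), [(nat_lit 780000), (nat_lit 1435001), (nat_lit 1271251)], [(nat_lit 10), (nat_lit 54), (nat_lit 317), (nat_lit 100), (nat_lit 10)]⟩,
 ⟨⟨[(nat_lit 140), (nat_lit 160), (nat_lit 180)], [(nat_lit 0), (nat_lit 304), (nat_lit 1085)], [((nat_lit 0), (nat_lit 0), (nat_lit 0)), ((nat_lit 913), (nat_lit 1000), (nat_lit 217)), ((nat_lit 759), (nat_lit 1000), (nat_lit 463))], ((nat_lit 100), (nat_lit 67), (nat_lit 57))⟩, (nat_lit 701083), (nat_lit 300), (nat_lit 1890), (nat_lit 12583700), (nat_lit 3319175), [(nat_lit 1761718000), (nat_lit 2125088000), (nat_lit 2516382000)], [], [(nat_lit 10813272490), (nat_lit 10687225043), (nat_lit 10446155894), (nat_lit 10320052656), (nat_lit 10902722965), (nat_lit 11426253168), (nat_lit 8508037101), (nat_lit 8384603689)], (nat_lit 936250), (nat_lit 1100000), (nat_lit 1271251), (nat_lit 1271251), (nat_lit 169688), (nat_lit 2666563), [(nat_lit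 1977501), (nat_lit 1271251), (nat_lit 1271251)], [(nat_lit 31), (nat_lit 65), (nat_lit 579), (nat_lit 225), (nat_lit 13)]⟩⟩)))
noncomputable def c8_59 : Tr Lf :=
 (.spl (nat_lit 6) (nat_lit 16) (.leaf ⟨(nat_lit 0), (nat_lit 722), (nat_lit 0), (nat_lit 278), (nat_lit 0), (nat_lit 3890), (nat_lit 7263), (nat_lit 2553), (nat_lit 0), (nat_lit 0), (nat_lit 0), [], Pd.none, Pd.none, (nat_lit 0), (nat_lit 1), (nat_lit 0), (nat_lit 0), (nat_lit 6), (nat_lit 0), [], [⟨(nat_lit 1), (nat_lit 85), (nat_lit 67), (nat_lit 100), (nat_lit 237795220)⟩], [], [],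
 ⟨⟨[(nat_lit 40), (nat_lit 60), (nat_lit 80)], [(nat_lit 0), (nat_lit 398), (nat_lit 992)], [((nat_lit 0), (nat_lit 0), (nat_lit 0)), ((nat_lit 1000), (nat_lit 814), (nat_lit 310)), ((nat_lit 1000), (nat_lit 752), (nat_lit 464))], ((nat_lit 77), (nat_lit 100), (nat_lit 42))⟩, (nat_lit 4779273), (nat_lit 142), (nat_lit 142), (nat_lit 0), (nat_lit 267452), [(nat_lit 2032000029), (nat_lit 3396312145), (nat_lit 4688000000)], [], [(nat_lit 25545444862), (nat_lit 26593812337), (nat_lit 30928131310), (nat_lit 31831469380), (nat_lit 28740315306), (nat_lit 29611861867), (nat_lit 33465390865), (nat_lit 34213575865)], (nat_lit 1271251), (nat_lit 1271251), (nat_lit 1271251), (nat_lit 1271251), (nat_lit 1271251), (nat_lit 1271251), [(nat_lit 490000), (nat_lit 780000), (nat_lit 1100000)], [(nat_lit 2), (nat_lit 44), (nat_lit 203), (nat_lit 0), (nat_lit 6)]⟩,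
 ⟨⟨[(nat_lit 80), (nat_lit 100), (nat_lit 120)], [(nat_lit 0), (nat_lit 0), (nat_lit 511)], [((nat_lit 0), (nat_lit 0), (nat_lit 0)), ((nat_lit 0), (nat_lit 0), (nat_lit 0)), ((nat_lit 1000), (nat_lit 997), (nat_lit 383))], ((nat_lit 100), (nat_lit 100), (nat_lit 40))⟩, (nat_lit 5269665), (nat_lit 484), (nat_lit 484), (nat_lit 0), (nat_lit 806096), [(nat_lit 4688000000), (nat_lit 6250000000), (nat_lit 7968000000)], [], [(nat_lit 32744120636), (nat_lit 34897181166), (nat_lit 37190295183), (nat_lit 39089502543), (nat_lit 34456873856), (nat_lit 35262868852), (nat_lit 38551149384), (nat_lit 40235101192)], (nat_lit 1271251), (nat_lit 1271251), (nat_lit 1271251), (nat_lit 1271251), (nat_lit 169688), (nat_lit 2886876), [(nat_lit 1100000), (nat_lit 1442501), (nat_lit 1271251)], [(nat_lit 16), (nat_lit 54), (nat_lit 317), (nat_lit 100), (nat_lit 10)]⟩,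
 ⟨⟨[(nat_lit 120), (nat_lit 140), (nat_lit 160)], [(nat_lit 0), (nat_lit 0), (nat_lit 609)], [((nat_lit 0), (nat_lit 0), (nat_lit 0)), ((nat_lit 0), (nat_lit 0), (nat_lit 0)), ((nat_lit 840), (nat_lit 1000), (nat_lit 400))], ((nat_lit 100), (nat_lit 84), (nat_lit 40))⟩, (nat_lit 427657), (nat_lit 300), (nat_lit 1384), (nat_lit 19543400), (nat_lit 2429149), [(nat_lit 2215104000), (nat_lit 2736076000), (nat_lit 3300416000)], [], [(nat_lit 17599347322), (nat_lit 17466532912), (nat_lit 17194653927), (nat_lit 17057917441), (nat_lit 15261881448), (nat_lit 16095272845), (nat_lit 14607735553), (nat_lit 14464914868)], (nat_lit 1100000), (nat_lit 1271251), (nat_lit 1271251), (nat_lit 1271251), (nat_lit 169688), (nat_lit 2886876), [(nat_lit 1695001), (nat_lit 1271251), (nat_lit 1271251)], [(nat_lit 27), (nat_lit 62), (nat_lit 483), (nat_lit 250), (nat_lit 12)]⟩⟩) (.leaf ⟨(nat_lit 0), (nat_lit 756), (nat_lit 0), (nat_lit 244), (nat_lit 0), (nat_lit 4470), (nat_lit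 7948), (nat_lit 2439), (nat_lit 0), (nat_lit 0), (nat_lit 0), [], Pd.none, Pd.none, (nat_lit 0), (nat_lit 1), (nat_lit 0), (nat_lit 0), (nat_lit 6), (nat_lit 0), [], [⟨(nat_lit 1), (nat_lit 85), (nat_lit 67), (nat_lit 100), (nat_lit 232476425)⟩], [], [],
 ⟨⟨[(nat_lit 40), (nat_lit 60), (nat_lit 80)], [(nat_lit 0), (nat_lit 398), (nat_lit 992)], [((nat_lit 0), (nat_lit 0), (nat_lit 0)), ((nat_lit 1000), (nat_lit 814), (nat_lit 310)), ((nat_lit 1000), (nat_lit 752), (nat_lit 464))], ((nat_lit 73), (nat_lit 100), (nat_lit 55))⟩, (nat_lit 1489307), (nat_lit 127), (nat_lit 127), (nat_lit 0), (nat_lit 205000), [(nat_lit 2032000009), (nat_lit 3282000008), (nat_lit 4688000000)], [], [(nat_lit 26461208947), (nat_lit 27428061747), (nat_lit 31622669130), (nat_lit 32576097740), (nat_lit 29333283146), (nat_lit 30136188315), (nat_lit 34206618395), (nat_lit 34988211395)], (nat_lit 1271251), (nat_lit 1271251), (nat_lit 1271251), (nat_lit 1271251), (nat_lit 1271251),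 (nat_lit 1271251), [(nat_lit 490000), (nat_lit 780000), (nat_lit 1100000)], [(nat_lit 2), (nat_lit 44), (nat_lit 203), (nat_lit 0), (nat_lit 6)]⟩,
 ⟨⟨[(nat_lit 80), (nat_lit 120), (nat_lit 140)], [(nat_lit 0), (nat_lit 0), (nat_lit 1164)], [((nat_lit 0), (nat_lit 0), (nat_lit 0)), ((nat_lit 0), (nat_lit 0), (nat_lit 0)), ((nat_lit 941), (nat_lit 1000), (nat_lit 576))], ((nat_lit 100), (nat_lit 95), (nat_lit 55))⟩, (nat_lit 2363970), (nat_lit 453), (nat_lit 453), (nat_lit 0), (nat_lit 605250), [(nat_lit 4688000000), (nat_lit 7968000000), (nat_lit 9842000000)], [], [(nat_lit 35267604075), (nat_lit 37641598954), (nat_lit 40581220164), (nat_lit 42171748166), (nat_lit 36634667200), (nat_lit 37439637920), (nat_lit 39548898464), (nat_lit 41217243232)], (nat_lit 1271251), (nat_lit 1271251), (nat_lit 1271251), (nat_lit 1271251), (nat_lit 169688), (nat_lit 2886876), [(nat_lit 1100000), (nat_lit 1785001), (nat_lit 1271251)], [(nat_lit 17), (nat_lit 58), (nat_lit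 428), (nat_lit 200), (nat_lit 12)]⟩,
 ⟨⟨[(nat_lit 120), (nat_lit 160), (nat_lit 180)], [(nat_lit 0), (nat_lit 0), (nat_lit 1613)], [((nat_lit 0), (nat_lit 0), (nat_lit 0)), ((nat_lit 0), (nat_lit 0), (nat_lit 0)), ((nat_lit 620), (nat_lit 1000), (nat_lit 670))], ((nat_lit 100), (nat_lit 73), (nat_lit 55))⟩, (nat_lit 106192), (nat_lit 300), (nat_lit 1165), (nat_lit 18104802), (nat_lit 1813532), [(nat_lit 1944192000), (nat_lit 2896768000), (nat_lit 3430152000)], [], [(nat_lit 15938654632), (nat_lit 15799481233), (nat_lit 15538323355), (nat_lit 15394588502), (nat_lit 13531105104), (nat_lit 14312496035), (nat_lit 12815122127), (nat_lit 12665294840)], (nat_lit 1100000), (nat_lit 1271251), (nat_lit 1271251), (nat_lit 1271251), (nat_lit 169688), (nat_lit 2886876), [(nat_lit 1695001), (nat_lit 1271251), (nat_lit 1271251)], [(nat_lit 28), (nat_lit 65), (nat_lit 483), (nat_lit 250), (nat_lit 11)]⟩⟩))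
noncomputable def c8_60 : Tr Lf :=
 (.spl (nat_lit 4) (nat_lit 240) (.spl (nat_lit 6) (nat_lit 16) (.spl (nat_lit 1) (nat_lit 280) (.trX (nat_lit 3) (nat_lit 0) (nat_lit 1) (nat_lit 78) (nat_lit 39) (nat_lit 100) (nat_lit 390) (.leaf ⟨(nat_lit 7), (nat_lit 702), (nat_lit 0), (nat_lit 291), (nat_lit 0), (nat_lit 4411), (nat_lit 7183), (nat_lit 2387), (nat_lit 0), (nat_lit 0), (nat_lit 28000), [((nat_lit 360), [((nat_lit 39), (nat_lit 5), (nat_lit 7))])], ⟨(nat_lit 7), false, true, true, (nat_lit 311), (nat_lit 3162), (nat_lit 3873), [(nat_lit 1672628), (nat_lit 1666215), (nat_lit 1716165), (nat_lit 1710475), (nat_lit 1850063), (nat_lit 1833837), (nat_lit 1893649), (nat_lit 1878147)]⟩, ⟨(nat_lit 4), false, false, false, (nat_lit 187), (nat_lit 3162), (nat_lit 3873), [(nat_lit 1349127), (nat_lit 1355902), (nat_lit 1392656), (nat_lit 1400154), (nat_lit 1542727), (nat_lit 1538797), (nat_lit 1586313), (nat_lit 1583107)]⟩, (nat_lit 5303949), (nat_lit 35143190),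 (nat_lit 22121015), (nat_lit 9735795), (nat_lit 4), (nat_lit 0), [], [], [], [],
 ⟨⟨[(nat_lit 40), (nat_lit 60), (nat_lit 80)], [(nat_lit 0), (nat_lit 398), (nat_lit 992)], [((nat_lit 0), (nat_lit 0), (nat_lit 0)), ((nat_lit 1000), (nat_lit 814), (nat_lit 310)), ((nat_lit 1000), (nat_lit 752), (nat_lit 464))], ((nat_lit 77), (nat_lit 100), (nat_lit 42))⟩, (nat_lit 5635813), (nat_lit 205), (nat_lit 205), (nat_lit 0), (nat_lit 397100), [(nat_lit 2022838402), (nat_lit 3565655187), (nat_lit 4585872800)], [(nat_lit 0), (nat_lit 0), (nat_lit 0)], [(nat_lit 23542378966), (nat_lit 24735904062), (nat_lit 30149122281), (nat_lit 31320146810), (nat_lit 25540950203), (nat_lit 26521092267), (nat_lit 30985756171), (nat_lit 31964787731)], (nat_lit 1271251), (nat_lit 1271251), (nat_lit 1271251), (nat_lit 1271251), (nat_lit 780000), (nat_lit 1762501), [(nat_lit 490000), (nat_lit 780000), (nat_lit 1100000)], [(nat_lit 2), (nat_lit 44), (nat_lit 272), (nat_lit 60),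 (nat_lit 10)]⟩,
 ⟨⟨[(nat_lit 80), (nat_lit 100), (nat_lit 120)], [(nat_lit 0), (nat_lit 0), (nat_lit 511)], [((nat_lit 0), (nat_lit 0), (nat_lit 0)), ((nat_lit 0), (nat_lit 0), (nat_lit 0)), ((nat_lit 1000), (nat_lit 997), (nat_lit 383))], ((nat_lit 100), (nat_lit 100), (nat_lit 40))⟩, (nat_lit 6110223), (nat_lit 471), (nat_lit 471), (nat_lit 0), (nat_lit 734314), [(nat_lit 4655184000), (nat_lit 6206250000), (nat_lit 7912224000)], [], [(nat_lit 33677572440), (nat_lit 34776562016), (nat_lit 37793379249), (nat_lit 38509377157), (nat_lit 34354271032), (nat_lit 34693448211), (nat_lit 37646939409), (nat_lit 38538470375)], (nat_lit 1271251), (nat_lit 1271251), (nat_lit 1271251), (nat_lit 1271251), (nat_lit 0), (nat_lit 2825001), [(nat_lit 1100000), (nat_lit 1442501), (nat_lit 1271251)], [(nat_lit 16), (nat_lit 54), (nat_lit 317), (nat_lit 100), (nat_lit 10)]⟩,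
 ⟨⟨[(nat_lit 120), (nat_lit 140), (nat_lit 160)], [(nat_lit 0), (nat_lit 266), (nat_lit 862)], [((nat_lit 0), (nat_lit 0), (nat_lit 0)), ((nat_lit 960), (nat_lit 1000), (nat_lit 200)), ((nat_lit 874), (nat_lit 1000), (nat_lit 406))], ((nat_lit 100), (nat_lit 88), (nat_lit 39))⟩, (nat_lit 1297161), (nat_lit 300), (nat_lit 1373), (nat_lit 19322400), (nat_lit 2259959), [(nat_lit 2318688000), (nat_lit 2864022000), (nat_lit 3454752000)], [], [(nat_lit 20602407690), (nat_lit 20371144629), (nat_lit 19812873625), (nat_lit 19576360598), (nat_lit 18039678275), (nat_lit 17790970147), (nat_lit 21180044495), (nat_lit 19112143429)], (nat_lit 1271251), (nat_lit 1271251), (nat_lit 780000), (nat_lit 1762501), (nat_lit 0), (nat_lit 2825001), [(nat_lit 1695001), (nat_lit 1271251), (nat_lit 1271251)], [(nat_lit 27), (nat_lit 62), (nat_lit 456), (nat_lit 225), (nat_lit 12)]⟩⟩)) (.leaf ⟨(nat_lit 0), (nat_lit 801), (nat_lit 0), (nat_lit 199), (nat_lit 0), (nat_lit 4424),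 (nat_lit 5838), (nat_lit 1553), (nat_lit 0), (nat_lit 0), (nat_lit 0), [], Pd.none, Pd.none, (nat_lit 0), (nat_lit 1), (nat_lit 0), (nat_lit 0), (nat_lit 4), (nat_lit 0), [], [], [⟨(nat_lit 1), (nat_lit 50), (nat_lit 87), (nat_lit 100), (nat_lit 73621080)⟩], [],
 ⟨⟨[(nat_lit 40), (nat_lit 60), (nat_lit 80)], [(nat_lit 0), (nat_lit 398), (nat_lit 992)], [((nat_lit 0), (nat_lit 0), (nat_lit 0)), ((nat_lit 1000), (nat_lit 814), (nat_lit 310)), ((nat_lit 1000), (nat_lit 752), (nat_lit 464))], ((nat_lit 77), (nat_lit 100), (nat_lit 42))⟩, (nat_lit 4808809), (nat_lit 256), (nat_lit 256), (nat_lit 0), (nat_lit 542921), [(nat_lit 2032000003), (nat_lit 3378940802), (nat_lit 4688000000)], [], [(nat_lit 23551180469), (nat_lit 24748460008), (nat_lit 30853103596), (nat_lit 31986649704), (nat_lit 25548050935), (nat_lit 26529493903), (nat_lit 31567585096), (nat_lit 32517041008)], (nat_lit 1271251), (nat_lit 1271251), (nat_lit 1271251), (nat_lit 1271251), (nat_lit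 780000), (nat_lit 1762501), [(nat_lit 490000), (nat_lit 780000), (nat_lit 1100000)], [(nat_lit 2), (nat_lit 44), (nat_lit 272), (nat_lit 60), (nat_lit 10)]⟩,
 ⟨⟨[(nat_lit 60), (nat_lit 80), (nat_lit 100)], [(nat_lit 0), (nat_lit 0), (nat_lit 534)], [((nat_lit 0), (nat_lit 0), (nat_lit 0)), ((nat_lit 0), (nat_lit 0), (nat_lit 0)), ((nat_lit 1000), (nat_lit 917), (nat_lit 393))], ((nat_lit 92), (nat_lit 100), (nat_lit 39))⟩, (nat_lit 3078889), (nat_lit 415), (nat_lit 415), (nat_lit 0), (nat_lit 714586), [(nat_lit 3282000000), (nat_lit 4688000000), (nat_lit 6250000000)], [], [(nat_lit 31348042194), (nat_lit 32770743042), (nat_lit 36354415430), (nat_lit 37607062768), (nat_lit 34514770888), (nat_lit 35160060492), (nat_lit 37333749488), (nat_lit 38191958992)], (nat_lit 1271251), (nat_lit 1271251), (nat_lit 1271251), (nat_lit 1271251), (nat_lit 0), (nat_lit 2825001), [(nat_lit 780000), (nat_lit 1100000), (nat_lit 1442501)], [(nat_lit 9), (nat_lit 50),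 (nat_lit 317), (nat_lit 100), (nat_lit 11)]⟩,
 ⟨⟨[(nat_lit 120), (nat_lit 140), (nat_lit 160)], [(nat_lit 0), (nat_lit 266), (nat_lit 862)], [((nat_lit 0), (nat_lit 0), (nat_lit 0)), ((nat_lit 960), (nat_lit 1000), (nat_lit 200)), ((nat_lit 874), (nat_lit 1000), (nat_lit 406))], ((nat_lit 100), (nat_lit 88), (nat_lit 39))⟩, (nat_lit 519379), (nat_lit 300), (nat_lit 1738), (nat_lit 13213600), (nat_lit 3027178), [(nat_lit 1585632000), (nat_lit 1958558000), (nat_lit 2362528000)], [], [(nat_lit 16179539264), (nat_lit 16022663099), (nat_lit 15664616045), (nat_lit 15506513352), (nat_lit 14506958840), (nat_lit 14345788078), (nat_lit 14273336605), (nat_lit 13824494347)], (nat_lit 1271251), (nat_lit 1271251), (nat_lit 780000), (nat_lit 1762501), (nat_lit 0), (nat_lit 2825001), [(nat_lit 1695001), (nat_lit 1271251), (nat_lit 1271251)], [(nat_lit 27), (nat_lit 62), (nat_lit 542), (nat_lit 225), (nat_lit 14)]⟩⟩)) (.spl (nat_lit 0) (nat_lit 350) (.leaf ⟨(nat_lit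 0), (nat_lit 765), (nat_lit 0), (nat_lit 235), (nat_lit 0), (nat_lit 4318), (nat_lit 7816), (nat_lit 1822), (nat_lit 0), (nat_lit 0), (nat_lit 0), [], Pd.none, Pd.none, (nat_lit 0), (nat_lit 1), (nat_lit 0), (nat_lit 0), (nat_lit 4), (nat_lit 0), [], [], [], [],
 ⟨⟨[(nat_lit 40), (nat_lit 60), (nat_lit 80)], [(nat_lit 0), (nat_lit 398), (nat_lit 992)], [((nat_lit 0), (nat_lit 0), (nat_lit 0)), ((nat_lit 1000), (nat_lit 814), (nat_lit 310)), ((nat_lit 1000), (nat_lit 752), (nat_lit 464))], ((nat_lit 73), (nat_lit 100), (nat_lit 55))⟩, (nat_lit 2753875), (nat_lit 197), (nat_lit 197), (nat_lit 0), (nat_lit 364034), [(nat_lit 2032000016), (nat_lit 3282000008), (nat_lit 4688000000)], [], [(nat_lit 23984143959), (nat_lit 24496314322), (nat_lit 30681962197), (nat_lit 31242564488), (nat_lit 25632522244), (nat_lit 26060951048), (nat_lit 31440652322), (nat_lit 31910803039)], (nat_lit 1271251), (nat_lit 1271251), (nat_lit 1271251), (nat_lit 1271251), (nat_lit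 780000), (nat_lit 1762501), [(nat_lit 490000), (nat_lit 780000), (nat_lit 1100000)], [(nat_lit 2), (nat_lit 44), (nat_lit 272), (nat_lit 60), (nat_lit 10)]⟩,
 ⟨⟨[(nat_lit 80), (nat_lit 120), (nat_lit 140)], [(nat_lit 0), (nat_lit 0), (nat_lit 1164)], [((nat_lit 0), (nat_lit 0), (nat_lit 0)), ((nat_lit 0), (nat_lit 0), (nat_lit 0)), ((nat_lit 941), (nat_lit 1000), (nat_lit 576))], ((nat_lit 100), (nat_lit 95), (nat_lit 55))⟩, (nat_lit 1988300), (nat_lit 435), (nat_lit 435), (nat_lit 0), (nat_lit 493761), [(nat_lit 4688000000), (nat_lit 7968000000), (nat_lit 9842000000)], [], [(nat_lit 37489475952), (nat_lit 39911781520), (nat_lit 42663509744), (nat_lit 44060491616), (nat_lit 37029030400), (nat_lit 37845136640), (nat_lit 39376128992), (nat_lit 41027983744)], (nat_lit 1271251), (nat_lit 1271251), (nat_lit 1271251), (nat_lit 1271251), (nat_lit 0), (nat_lit 2825001), [(nat_lit 1100000), (nat_lit 1785001), (nat_lit 1271251)], [(nat_lit 17), (nat_lit 58),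 (nat_lit 428), (nat_lit 200), (nat_lit 12)]⟩,
 ⟨⟨[(nat_lit 120), (nat_lit 160), (nat_lit 180)], [(nat_lit 0), (nat_lit 533), (nat_lit 2066)], [((nat_lit 0), (nat_lit 0), (nat_lit 0)), ((nat_lit 960), (nat_lit 1000), (nat_lit 200)), ((nat_lit 615), (nat_lit 1000), (nat_lit 729))], ((nat_lit 100), (nat_lit 79), (nat_lit 55))⟩, (nat_lit 550244), (nat_lit 300), (nat_lit 1285), (nat_lit 15604000), (nat_lit 1911220), [(nat_lit 1872480000), (nat_lit 2789920000), (nat_lit 3303630000)], [], [(nat_lit 18481631053), (nat_lit 18290514634), (nat_lit 17829460133), (nat_lit 17635512975), (nat_lit 16375773215), (nat_lit 16174460252), (nat_lit 16823742810), (nat_lit 15505318410)], (nat_lit 1271251), (nat_lit 1271251), (nat_lit 780000), (nat_lit 1762501), (nat_lit 0), (nat_lit 2825001), [(nat_lit 1695001), (nat_lit 1271251), (nat_lit 1271251)], [(nat_lit 28), (nat_lit 65), (nat_lit 456), (nat_lit 225), (nat_lit 11)]⟩⟩) (.spl (nat_lit 0) (nat_lit 355) (.leaf ⟨(nat_lit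 0), (nat_lit 766), (nat_lit 0), (nat_lit 234), (nat_lit 0), (nat_lit 4385), (nat_lit 7810), (nat_lit 1823), (nat_lit 0), (nat_lit 0), (nat_lit 0), [], Pd.none, Pd.none, (nat_lit 0), (nat_lit 1), (nat_lit 0), (nat_lit 0), (nat_lit 4), (nat_lit 0), [], [], [], [],
 ⟨⟨[(nat_lit 40), (nat_lit 60), (nat_lit 80)], [(nat_lit 0), (nat_lit 600), (nat_lit 1195)], [((nat_lit 0), (nat_lit 0), (nat_lit 0)), ((nat_lit 1000), (nat_lit 725), (nat_lit 454)), ((nat_lit 1000), (nat_lit 720), (nat_lit 465))], ((nat_lit 69), (nat_lit 100), (nat_lit 56))⟩, (nat_lit 1925809), (nat_lit 201), (nat_lit 201), (nat_lit 0), (nat_lit 378892), [(nat_lit 2032000006), (nat_lit 3282000020), (nat_lit 4688000000)], [], [(nat_lit 24528041799), (nat_lit 24798188140), (nat_lit 31354639157), (nat_lit 31636890496), (nat_lit 26170523731), (nat_lit 26396006312), (nat_lit 31993927293), (nat_lit 32230449232)], (nat_lit 1271251), (nat_lit 1271251), (nat_lit 1271251), (nat_lit 1271251), (nat_lit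 780000), (nat_lit 1762501), [(nat_lit 490000), (nat_lit 780000), (nat_lit 1100000)], [(nat_lit 2), (nat_lit 44), (nat_lit 272), (nat_lit 60), (nat_lit 10)]⟩,
 ⟨⟨[(nat_lit 80), (nat_lit 120), (nat_lit 140)], [(nat_lit 0), (nat_lit 0), (nat_lit 1164)], [((nat_lit 0), (nat_lit 0), (nat_lit 0)), ((nat_lit 0), (nat_lit 0), (nat_lit 0)), ((nat_lit 941), (nat_lit 1000), (nat_lit 576))], ((nat_lit 100), (nat_lit 95), (nat_lit 55))⟩, (nat_lit 1988520), (nat_lit 446), (nat_lit 446), (nat_lit 0), (nat_lit 524947), [(nat_lit 4688000000), (nat_lit 7968000000), (nat_lit 9842000000)], [], [(nat_lit 37501440540), (nat_lit 39923276920), (nat_lit 42673714760), (nat_lit 44070877120), (nat_lit 37046956000), (nat_lit 37863568400), (nat_lit 39394043720), (nat_lit 41019381040)], (nat_lit 1271251), (nat_lit 1271251), (nat_lit 1271251), (nat_lit 1271251), (nat_lit 0), (nat_lit 2825001), [(nat_lit 1100000), (nat_lit 1785001), (nat_lit 1271251)], [(nat_lit 17), (nat_lit 58),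 (nat_lit 428), (nat_lit 200), (nat_lit 12)]⟩,
 ⟨⟨[(nat_lit 120), (nat_lit 160), (nat_lit 180)], [(nat_lit 0), (nat_lit 533), (nat_lit 2066)], [((nat_lit 0), (nat_lit 0), (nat_lit 0)), ((nat_lit 960), (nat_lit 1000), (nat_lit 200)), ((nat_lit 615), (nat_lit 1000), (nat_lit 729))], ((nat_lit 100), (nat_lit 79), (nat_lit 55))⟩, (nat_lit 547902), (nat_lit 300), (nat_lit 1345), (nat_lit 15537602), (nat_lit 2049854), [(nat_lit 1864512000), (nat_lit 2778048000), (nat_lit 3289572000)], [], [(nat_lit 18538316062), (nat_lit 18344972643), (nat_lit 17884049611), (nat_lit 17688324749), (nat_lit 16424268714), (nat_lit 16222248133), (nat_lit 16775386055), (nat_lit 15554600582)], (nat_lit 1271251), (nat_lit 1271251), (nat_lit 780000), (nat_lit 1762501), (nat_lit 0), (nat_lit 2825001), [(nat_lit 1695001), (nat_lit 1271251), (nat_lit 1271251)], [(nat_lit 28), (nat_lit 65), (nat_lit 456), (nat_lit 225), (nat_lit 11)]⟩⟩) (.leaf ⟨(nat_lit 0), (nat_lit 767), (nat_lit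 0), (nat_lit 233), (nat_lit 0), (nat_lit 4369), (nat_lit 7840), (nat_lit 1845), (nat_lit 0), (nat_lit 0), (nat_lit 0), [], Pd.none, Pd.none, (nat_lit 0), (nat_lit 1), (nat_lit 0), (nat_lit 0), (nat_lit 4), (nat_lit 0), [], [], [], [],
 ⟨⟨[(nat_lit 40), (nat_lit 60), (nat_lit 80)], [(nat_lit 0), (nat_lit 709), (nat_lit 1350)], [((nat_lit 0), (nat_lit 0), (nat_lit 0)), ((nat_lit 1000), (nat_lit 692), (nat_lit 494)), ((nat_lit 1000), (nat_lit 689), (nat_lit 501))], ((nat_lit 66), (nat_lit 100), (nat_lit 57))⟩, (nat_lit 1619271), (nat_lit 206), (nat_lit 206), (nat_lit 0), (nat_lit 394091), [(nat_lit 2032000004), (nat_lit 3282000031), (nat_lit 4688000000)], [], [(nat_lit 24962117206), (nat_lit 25231795189), (nat_lit 31609660678), (nat_lit 31891446299), (nat_lit 26563089215), (nat_lit 26788305674), (nat_lit 32210253212), (nat_lit 32446429698)], (nat_lit 1271251), (nat_lit 1271251), (nat_lit 1271251), (nat_lit 1271251), (nat_lit 780000), (nat_lit 1762501),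 [(nat_lit 490000), (nat_lit 780000), (nat_lit 1100000)], [(nat_lit 2), (nat_lit 44), (nat_lit 272), (nat_lit 60), (nat_lit 10)]⟩,
 ⟨⟨[(nat_lit 80), (nat_lit 120), (nat_lit 140)], [(nat_lit 0), (nat_lit 0), (nat_lit 1164)], [((nat_lit 0), (nat_lit 0), (nat_lit 0)), ((nat_lit 0), (nat_lit 0), (nat_lit 0)), ((nat_lit 941), (nat_lit 1000), (nat_lit 576))], ((nat_lit 100), (nat_lit 95), (nat_lit 55))⟩, (nat_lit 1858719), (nat_lit 459), (nat_lit 459), (nat_lit 0), (nat_lit 558719), [(nat_lit 4688000000), (nat_lit 7968000000), (nat_lit 9842000000)], [], [(nat_lit 37591425564), (nat_lit 40015607884), (nat_lit 42772497644), (nat_lit 44168728684), (nat_lit 36957348044), (nat_lit 37771409600), (nat_lit 39391589120), (nat_lit 41062394560)], (nat_lit 1271251), (nat_lit 1271251), (nat_lit 1271251), (nat_lit 1271251), (nat_lit 0), (nat_lit 2825001), [(nat_lit 1100000), (nat_lit 1785001), (nat_lit 1271251)], [(nat_lit 17), (nat_lit 58), (nat_lit 428), (nat_lit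 200), (nat_lit 12)]⟩,
 ⟨⟨[(nat_lit 120), (nat_lit 160), (nat_lit 180)], [(nat_lit 0), (nat_lit 533), (nat_lit 2066)], [((nat_lit 0), (nat_lit 0), (nat_lit 0)), ((nat_lit 960), (nat_lit 1000), (nat_lit 200)), ((nat_lit 615), (nat_lit 1000), (nat_lit 729))], ((nat_lit 100), (nat_lit 79), (nat_lit 55))⟩, (nat_lit 545561), (nat_lit 300), (nat_lit 1408), (nat_lit 15471200), (nat_lit 2194454), [(nat_lit 1856544000), (nat_lit 2766176000), (nat_lit 3275514000)], [], [(nat_lit 18408938420), (nat_lit 18209987098), (nat_lit 17741977774), (nat_lit 17541125250), (nat_lit 16252311596), (nat_lit 16046294488), (nat_lit 16782769705), (nat_lit 15369909784)], (nat_lit 1271251), (nat_lit 1271251), (nat_lit 780000), (nat_lit 1762501), (nat_lit 0), (nat_lit 2825001), [(nat_lit 1695001), (nat_lit 1271251), (nat_lit 1271251)], [(nat_lit 28), (nat_lit 65), (nat_lit 460), (nat_lit 225), (nat_lit 11)]⟩⟩)))) (.trZ (nat_lit 3) (nat_lit 4) (nat_lit 5) (nat_lit 100) (nat_lit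 94) (nat_lit 59) (nat_lit 30) (.stt (nat_lit 2) (.leaf ⟨(nat_lit 0), (nat_lit 875), (nat_lit 0), (nat_lit 125), (nat_lit 0), (nat_lit 4292), (nat_lit 7457), (nat_lit 1205), (nat_lit 0), (nat_lit 0), (nat_lit 0), [], Pd.none, Pd.none, (nat_lit 0), (nat_lit 1), (nat_lit 0), (nat_lit 0), (nat_lit 6), (nat_lit 0), [], [⟨(nat_lit 1), (nat_lit 75), (nat_lit 66), (nat_lit 100), (nat_lit 366625988)⟩], [⟨(nat_lit 1), (nat_lit 40), (nat_lit 92), (nat_lit 100), (nat_lit 118381028)⟩], [],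
 ⟨⟨[(nat_lit 40), (nat_lit 60), (nat_lit 80)], [(nat_lit 0), (nat_lit 398), (nat_lit 992)], [((nat_lit 0), (nat_lit 0), (nat_lit 0)), ((nat_lit 1000), (nat_lit 814), (nat_lit 310)), ((nat_lit 1000), (nat_lit 752), (nat_lit 464))], ((nat_lit 73), (nat_lit 100), (nat_lit 55))⟩, (nat_lit 2325524), (nat_lit 224), (nat_lit 224), (nat_lit 0), (nat_lit 546364), [(nat_lit 2032000003), (nat_lit 3282000008), (nat_lit 4688000000)], [], [(nat_lit 26877864423), (nat_lit 27717835973), (nat_lit 31409517868), (nat_lit 32347573864), (nat_lit 30449937112), (nat_lit 31423534168), (nat_lit 35107074148), (nat_lit 35820265600)], (nat_lit 1271251), (nat_lit 1271251), (nat_lit 1271251), (nat_lit 1271251), (nat_lit 1271251), (nat_lit 1271251), [(nat_lit 490000), (nat_lit 780000), (nat_lit 1100000)], [(nat_lit 2), (nat_lit 44), (nat_lit 203), (nat_lit 0), (nat_lit 6)]⟩,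
 ⟨⟨[(nat_lit 80), (nat_lit 120), (nat_lit 140)], [(nat_lit 0), (nat_lit 0), (nat_lit 1164)], [((nat_lit 0), (nat_lit 0), (nat_lit 0)), ((nat_lit 0), (nat_lit 0), (nat_lit 0)), ((nat_lit 941), (nat_lit 1000), (nat_lit 576))], ((nat_lit 100), (nat_lit 95), (nat_lit 55))⟩, (nat_lit 2377963), (nat_lit 206), (nat_lit 206), (nat_lit 0), (nat_lit 0), [(nat_lit 4688000000), (nat_lit 7968000000), (nat_lit 9842000000)], [], [(nat_lit 27373390584), (nat_lit 32291998578), (nat_lit 37102927411), (nat_lit 40090178842), (nat_lit 33861081378), (nat_lit 35973561002), (nat_lit 38833723576), (nat_lit 40513255288)], (nat_lit 0), (nat_lit 0), (nat_lit 0), (nat_lit 0), (nat_lit 0), (nat_lit 0), [], [(nat_lit 17), (nat_lit 58), (nat_lit 428), (nat_lit 200), (nat_lit 12)]⟩,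
 ⟨⟨[(nat_lit 120), (nat_lit 160), (nat_lit 180)], [(nat_lit 0), (nat_lit 533), (nat_lit 2066)], [((nat_lit 0), (nat_lit 0), (nat_lit 0)), ((nat_lit 960), (nat_lit 1000), (nat_lit 200)), ((nat_lit 615), (nat_lit 1000), (nat_lit 729))], ((nat_lit 100), (nat_lit 79), (nat_lit 55))⟩, (nat_lit 292683), (nat_lit 300), (nat_lit 1733), (nat_lit 8300000), (nat_lit 3043545), [(nat_lit 996000000), (nat_lit 1484000000), (nat_lit 1757250000)], [], [(nat_lit 7475755327), (nat_lit 7333393970), (nat_lit 7154811240), (nat_lit 7009216848), (nat_lit 7290545025), (nat_lit 6246631835), (nat_lit 5812383516), (nat_lit 5668638773)], (nat_lit 1271251), (nat_lit 1271251), (nat_lit 1271251), (nat_lit 1271251), (nat_lit 169688), (nat_lit 2886876), [(nat_lit 1695001), (nat_lit 1271251), (nat_lit 1271251)], [(nat_lit 28), (nat_lit 65), (nat_lit 556), (nat_lit 250), (nat_lit 13)]⟩⟩) (.spl (nat_lit 1) (nat_lit 280) (.trX (nat_lit 3) (nat_lit 0) (nat_lit 1) (nat_lit 78) (nat_lit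 39) (nat_lit 100) (nat_lit 390) (.leaf ⟨(nat_lit 0), (nat_lit 540), (nat_lit 0), (nat_lit 460), (nat_lit 0), (nat_lit 3829), (nat_lit 9245), (nat_lit 4752), (nat_lit 0), (nat_lit 0), (nat_lit 0), [], Pd.none, Pd.none, (nat_lit 0), (nat_lit 1), (nat_lit 0), (nat_lit 0), (nat_lit 6), (nat_lit 0), [], [⟨(nat_lit 1), (nat_lit 75), (nat_lit 66), (nat_lit 100), (nat_lit 459916)⟩], [], [⟨(nat_lit 0), (nat_lit 91), (nat_lit 77), (nat_lit 100), (nat_lit 61069223)⟩],
 ⟨⟨[(nat_lit 40), (nat_lit 60), (nat_lit 80)], [(nat_lit 0), (nat_lit 398), (nat_lit 992)], [((nat_lit 0), (nat_lit 0), (nat_lit 0)), ((nat_lit 1000), (nat_lit 814), (nat_lit 310)), ((nat_lit 1000), (nat_lit 752), (nat_lit 464))], ((nat_lit 73), (nat_lit 100), (nat_lit 55))⟩, (nat_lit 8043503), (nat_lit 127), (nat_lit 127), (nat_lit 0), (nat_lit 201563), [(nat_lit 2032000007), (nat_lit 3639324866), (nat_lit 4688000000)], [], [(nat_lit 25651029849), (nat_lit 26692081746), (nat_lit 30351794071),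 (nat_lit 31248957850), (nat_lit 30101590107), (nat_lit 30908792066), (nat_lit 34071567749), (nat_lit 34782954774)], (nat_lit 1271251), (nat_lit 1271251), (nat_lit 1271251), (nat_lit 1271251), (nat_lit 1271251), (nat_lit 1271251), [(nat_lit 490000), (nat_lit 780000), (nat_lit 1100000)], [(nat_lit 2), (nat_lit 44), (nat_lit 203), (nat_lit 0), (nat_lit 6)]⟩,
 ⟨⟨[(nat_lit 80), (nat_lit 120), (nat_lit 140)], [(nat_lit 0), (nat_lit 0), (nat_lit 1164)], [((nat_lit 0), (nat_lit 0), (nat_lit 0)), ((nat_lit 0), (nat_lit 0), (nat_lit 0)), ((nat_lit 941), (nat_lit 1000), (nat_lit 576))], ((nat_lit 100), (nat_lit 95), (nat_lit 55))⟩, (nat_lit 3821349), (nat_lit 503), (nat_lit 503), (nat_lit 0), (nat_lit 740574), [(nat_lit 4688000000), (nat_lit 7968000000), (nat_lit 9842000000)], [], [(nat_lit 31947160307), (nat_lit 33362417377), (nat_lit 37462106527), (nat_lit 39871434898), (nat_lit 34108073050), (nat_lit 35724234265), (nat_lit 40755161193), (nat_lit 41642830540)],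 (nat_lit 1271251), (nat_lit 1271251), (nat_lit 1271251), (nat_lit 1271251), (nat_lit 169688), (nat_lit 2886876), [(nat_lit 1100000), (nat_lit 1785001), (nat_lit 1271251)], [(nat_lit 17), (nat_lit 58), (nat_lit 401), (nat_lit 175), (nat_lit 11)]⟩,
 ⟨⟨[(nat_lit 120), (nat_lit 160), (nat_lit 180)], [(nat_lit 0), (nat_lit 533), (nat_lit 2066)], [((nat_lit 0), (nat_lit 0), (nat_lit 0)), ((nat_lit 960), (nat_lit 1000), (nat_lit 200)), ((nat_lit 615), (nat_lit 1000), (nat_lit 729))], ((nat_lit 100), (nat_lit 79), (nat_lit 55))⟩, (nat_lit 2298235), (nat_lit 300), (nat_lit 1004), (nat_lit 30544000), (nat_lit 1480275), [(nat_lit 3665280000), (nat_lit 5461120000), (nat_lit 6466680000)], [], [(nat_lit 24949443418), (nat_lit 24451826065), (nat_lit 24594916820), (nat_lit 24105602198), (nat_lit 27126734960), (nat_lit 23009991824), (nat_lit 20479119388), (nat_lit 20033907060)], (nat_lit 1271251), (nat_lit 1271251), (nat_lit 1271251), (nat_lit 1271251), (nat_lit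 169688), (nat_lit 2886876), [(nat_lit 1695001), (nat_lit 1271251), (nat_lit 1271251)], [(nat_lit 28), (nat_lit 65), (nat_lit 483), (nat_lit 250), (nat_lit 11)]⟩⟩)) (.leaf ⟨(nat_lit 0), (nat_lit 681), (nat_lit 0), (nat_lit 319), (nat_lit 0), (nat_lit 3829), (nat_lit 7331), (nat_lit 2932), (nat_lit 0), (nat_lit 0), (nat_lit 0), [], Pd.none, Pd.none, (nat_lit 0), (nat_lit 1), (nat_lit 0), (nat_lit 0), (nat_lit 6), (nat_lit 0), [], [⟨(nat_lit 1), (nat_lit 75), (nat_lit 66), (nat_lit 100), (nat_lit 212642779)⟩], [], [],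
 ⟨⟨[(nat_lit 40), (nat_lit 60), (nat_lit 80)], [(nat_lit 0), (nat_lit 398), (nat_lit 992)], [((nat_lit 0), (nat_lit 0), (nat_lit 0)), ((nat_lit 1000), (nat_lit 814), (nat_lit 310)), ((nat_lit 1000), (nat_lit 752), (nat_lit 464))], ((nat_lit 73), (nat_lit 100), (nat_lit 55))⟩, (nat_lit 5326736), (nat_lit 142), (nat_lit 142), (nat_lit 0), (nat_lit 256293), [(nat_lit 2032000001), (nat_lit 3420816928), (nat_lit 4688000000)], [], [(nat_lit 25651029831), (nat_lit 26692081728), (nat_lit 30855085091), (nat_lit 31753155018), (nat_lit 30101590089), (nat_lit 30908792066), (nat_lit 34477709451), (nat_lit 35168917200)], (nat_lit 1271251), (nat_lit 1271251), (nat_lit 1271251), (nat_lit 1271251), (nat_lit 1271251), (nat_lit 1271251), [(nat_lit 490000), (nat_lit 780000), (nat_lit 1100000)], [(nat_lit 2), (nat_lit 44), (nat_lit 203), (nat_lit 0), (nat_lit 6)]⟩,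
 ⟨⟨[(nat_lit 60), (nat_lit 100), (nat_lit 120)], [(nat_lit 0), (nat_lit 0), (nat_lit 1164)], [((nat_lit 0), (nat_lit 0), (nat_lit 0)), ((nat_lit 0), (nat_lit 0), (nat_lit 0)), ((nat_lit 1000), (nat_lit 933), (nat_lit 572))], ((nat_lit 93), (nat_lit 100), (nat_lit 55))⟩, (nat_lit 2364872), (nat_lit 438), (nat_lit 438), (nat_lit 0), (nat_lit 719260), [(nat_lit 3282000000), (nat_lit 6250000000), (nat_lit 7968000000)], [], [(nat_lit 32694275559), (nat_lit 34027264656), (nat_lit 37595050553), (nat_lit 39252661573), (nat_lit 34541998353), (nat_lit 35138330824), (nat_lit 39491397256), (nat_lit 40332598504)], (nat_lit 1271251), (nat_lit 1271251), (nat_lit 1271251), (nat_lit 1271251), (nat_lit 169688), (nat_lit 2886876), [(nat_lit 780000), (nat_lit 1435001), (nat_lit 1271251)], [(nat_lit 10), (nat_lit 54), (nat_lit 317), (nat_lit 100), (nat_lit 10)]⟩,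
 ⟨⟨[(nat_lit 120), (nat_lit 160), (nat_lit 180)], [(nat_lit 0), (nat_lit 533), (nat_lit 2066)], [((nat_lit 0), (nat_lit 0), (nat_lit 0)), ((nat_lit 960), (nat_lit 1000), (nat_lit 200)), ((nat_lit 615), (nat_lit 1000), (nat_lit 729))], ((nat_lit 100), (nat_lit 79), (nat_lit 55))⟩, (nat_lit 1012970), (nat_lit 300), (nat_lit 1188), (nat_lit 21181600), (nat_lit 1885951), [(nat_lit 2541792000), (nat_lit 3787168000), (nat_lit 4484502000)], [], [(nat_lit 19654556300), (nat_lit 19329807732), (nat_lit 19086626456), (nat_lit 18746531481), (nat_lit 18471357900), (nat_lit 16207852533), (nat_lit 15868173433), (nat_lit 15513876519)], (nat_lit 1271251), (nat_lit 1271251), (nat_lit 1271251), (nat_lit 1271251), (nat_lit 169688), (nat_lit 2886876), [(nat_lit 1695001), (nat_lit 1271251), (nat_lit 1271251)], [(nat_lit 28), (nat_lit 65), (nat_lit 483), (nat_lit 250), (nat_lit 11)]⟩⟩)))))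
noncomputable def c8_61 : Tr Lf :=
 (.spl (nat_lit 4) (nat_lit 200) (.spl (nat_lit 4) (nat_lit 160) (.leaf ⟨(nat_lit 1000), (nat_lit 0), (nat_lit 0), (nat_lit 0), (nat_lit 0), (nat_lit 3371), (nat_lit 0), (nat_lit 0), (nat_lit 0), (nat_lit 0), (nat_lit 250000), [((nat_lit 360), [((nat_lit 22), (nat_lit 0), (nat_lit 1000))])], ⟨(nat_lit 6), false, false, false, (nat_lit 210), (nat_lit 3162), (nat_lit 3873), [(nat_lit 1414421), (nat_lit 1422280), (nat_lit 1501479), (nat_lit 1510785), (nat_lit 1543529), (nat_lit 1544252), (nat_lit 1630587), (nat_lit 1632757)]⟩, ⟨(nat_lit 3), false, false, false, (nat_lit 140), (nat_lit 3162), (nat_lit 3873), [(nat_lit 1283782), (nat_lit 1289472), (nat_lit 1349127), (nat_lit 1355902), (nat_lit 1348304), (nat_lit 1350426), (nat_lit 1413680), (nat_lit 1416886)]⟩, (nat_lit 4436875), (nat_lit 45801685), (nat_lit 13846047), (nat_lit 7352268), (nat_lit 0), (nat_lit 0), [], [], [], [],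
 ⟨⟨[(nat_lit 40), (nat_lit 80), (nat_lit 120)], [(nat_lit 0), (nat_lit 795), (nat_lit 2800)], [((nat_lit 0), (nat_lit 0), (nat_lit 0)), ((nat_lit 1000), (nat_lit 814), (nat_lit 310)), ((nat_lit 1000), (nat_lit 719), (nat_lit 783))], ((nat_lit 71), (nat_lit 100), (nat_lit 71))⟩, (nat_lit 0), (nat_lit 58), (nat_lit 58), (nat_lit 0), (nat_lit 0), [(nat_lit 1568000054), (nat_lit 97867671086), (nat_lit 2712400000)], [(nat_lit 0), (nat_lit 0), (nat_lit 0)], [(nat_lit 17105902006), (nat_lit 18965003969), (nat_lit 18943345105), (nat_lit 20584869562), (nat_lit 17556260285), (nat_lit 19317306231), (nat_lit 19344206481), (nat_lit 20900538368)], (nat_lit 0), (nat_lit 0), (nat_lit 0), (nat_lit 0), (nat_lit 0), (nat_lit 0), [], [(nat_lit 4), (nat_lit 51), (nat_lit 317), (nat_lit 100), (nat_lit 10)]⟩,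
 Rw.none,
 Rw.none⟩) (.leaf ⟨(nat_lit 1000), (nat_lit 0), (nat_lit 0), (nat_lit 0), (nat_lit 0), (nat_lit 3345), (nat_lit 0), (nat_lit 0), (nat_lit 0), (nat_lit 0), (nat_lit 250000), [((nat_lit 360), [((nat_lit 22), (nat_lit 0), (nat_lit 1000))])], ⟨(nat_lit 6), false, false, false, (nat_lit 210), (nat_lit 3162), (nat_lit 3873), [(nat_lit 1414421), (nat_lit 1422280), (nat_lit 1501479), (nat_lit 1510785), (nat_lit 1543529), (nat_lit 1544252), (nat_lit 1630587), (nat_lit 1632757)]⟩, ⟨(nat_lit 4), false, false, true, (nat_lit 165), (nat_lit 3162), (nat_lit 3873), [(nat_lit 1348304), (nat_lit 1350426), (nat_lit 1413680), (nat_lit 1416886), (nat_lit 1412825), (nat_lit 1411379), (nat_lit 1478205), (nat_lit 1477844)]⟩, (nat_lit 4692698), (nat_lit 44109022), (nat_lit 13575683), (nat_lit 9315295), (nat_lit 0), (nat_lit 0), [], [], [], [],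
 ⟨⟨[(nat_lit 40), (nat_lit 80), (nat_lit 120)], [(nat_lit 0), (nat_lit 795), (nat_lit 2800)], [((nat_lit 0), (nat_lit 0), (nat_lit 0)), ((nat_lit 1000), (nat_lit 814), (nat_lit 310)), ((nat_lit 1000), (nat_lit 719), (nat_lit 783))], ((nat_lit 71), (nat_lit 100), (nat_lit 71))⟩, (nat_lit 0), (nat_lit 50), (nat_lit 50), (nat_lit 0), (nat_lit 0), [(nat_lit 1568000105), (nat_lit 97556967772), (nat_lit 2712400000)], [(nat_lit 0), (nat_lit 0), (nat_lit 0)], [(nat_lit 17545481478), (nat_lit 19299323045), (nat_lit 19357688273), (nat_lit 20886019760), (nat_lit 18930806878), (nat_lit 20565787590), (nat_lit 20567049305), (nat_lit 22015915965)], (nat_lit 0), (nat_lit 0), (nat_lit 0), (nat_lit 0), (nat_lit 0), (nat_lit 0), [], [(nat_lit 4), (nat_lit 51), (nat_lit 317), (nat_lit 100), (nat_lit 9)]⟩,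
 Rw.none,
 Rw.none⟩)) (.spl (nat_lit 2) (nat_lit 160) (.trX (nat_lit 5) (nat_lit 1) (nat_lit 2) (nat_lit 100) (nat_lit 40) (nat_lit 100) (nat_lit 390) (.stt (nat_lit 2) (.leaf ⟨(nat_lit 706), (nat_lit 294), (nat_lit 0), (nat_lit 0), (nat_lit 4194), (nat_lit 3346), (nat_lit 2500), (nat_lit 0), (nat_lit 0), (nat_lit 0), (nat_lit 176500), [((nat_lit 360), [((nat_lit 22), (nat_lit 0), (nat_lit 706))])], ⟨(nat_lit 6), true, false, false, (nat_lit 210), (nat_lit 3162), (nat_lit 3873), [(nat_lit 1414421), (nat_lit 1422280), (nat_lit 1501479), (nat_lit 1510785), (nat_lit 1543529), (nat_lit 1544252), (nat_lit 1630587), (nat_lit 1632757)]⟩, ⟨(nat_lit 5), false, false, true, (nat_lit 186), (nat_lit 3162), (nat_lit 3873), [(nat_lit 1412825), (nat_lit 1411379), (nat_lit 1456412), (nat_lit 1455689), (nat_lit 1477347), (nat_lit 1472332), (nat_lit 1520934), (nat_lit 1516642)]⟩, (nat_lit 4875085), (nat_lit 42678180), (nat_lit 13320015), (nat_lit 11001805), (nat_lit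 5), (nat_lit 0), [⟨(nat_lit 0), (nat_lit 96), (nat_lit 69), (nat_lit 100), (nat_lit 201428861)⟩], [], [⟨(nat_lit 1), (nat_lit 69), (nat_lit 96), (nat_lit 100), (nat_lit 62388788)⟩], [],
 ⟨⟨[(nat_lit 40), (nat_lit 80), (nat_lit 120)], [(nat_lit 0), (nat_lit 795), (nat_lit 2800)], [((nat_lit 0), (nat_lit 0), (nat_lit 0)), ((nat_lit 1000), (nat_lit 814), (nat_lit 310)), ((nat_lit 1000), (nat_lit 719), (nat_lit 783))], ((nat_lit 71), (nat_lit 100), (nat_lit 71))⟩, (nat_lit 0), (nat_lit 52), (nat_lit 52), (nat_lit 0), (nat_lit 0), [(nat_lit 1635620033), (nat_lit 97941048520), (nat_lit 4257546400)], [(nat_lit 0), (nat_lit 0), (nat_lit 0)], [(nat_lit 18952081003), (nat_lit 20566521512), (nat_lit 20634188460), (nat_lit 22016492762), (nat_lit 20316871362), (nat_lit 21833028318), (nat_lit 21843587247), (nat_lit 23146407356)], (nat_lit 0), (nat_lit 0), (nat_lit 0), (nat_lit 0), (nat_lit 0), (nat_lit 0), [], [(nat_lit 4), (nat_lit 51), (nat_lit 345), (nat_lit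 125), (nat_lit 10)]⟩,
 ⟨⟨[(nat_lit 80), (nat_lit 120), (nat_lit 160)], [(nat_lit 0), (nat_lit 0), (nat_lit 2132)], [((nat_lit 0), (nat_lit 0), (nat_lit 0)), ((nat_lit 0), (nat_lit 0), (nat_lit 0)), ((nat_lit 858), (nat_lit 1000), (nat_lit 713))], ((nat_lit 100), (nat_lit 85), (nat_lit 73))⟩, (nat_lit 837790), (nat_lit 239), (nat_lit 239), (nat_lit 0), (nat_lit 0), [(nat_lit 1378272000), (nat_lit 2342592000), (nat_lit 3490368000)], [], [(nat_lit 7722220020), (nat_lit 9715958420), (nat_lit 8040117220), (nat_lit 9753143264), (nat_lit 9606603727), (nat_lit 10367198005), (nat_lit 9339253274), (nat_lit 9977645554)], (nat_lit 0), (nat_lit 0), (nat_lit 0), (nat_lit 0), (nat_lit 0), (nat_lit 0), [], [(nat_lit 18), (nat_lit 59), (nat_lit 483), (nat_lit 250), (nat_lit 12)]⟩,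
 Rw.none⟩) (.spl (nat_lit 1) (nat_lit 280) (.leaf ⟨(nat_lit 972), (nat_lit 10), (nat_lit 0), (nat_lit 18), (nat_lit 676), (nat_lit 3242), (nat_lit 315), (nat_lit 223), (nat_lit 0), (nat_lit 0), (nat_lit 243000), [((nat_lit 360), [((nat_lit 22), (nat_lit 0), (nat_lit 972))])], ⟨(nat_lit 6), false, false, false, (nat_lit 201), (nat_lit 3162), (nat_lit 3873), [(nat_lit 1414421), (nat_lit 1422280), (nat_lit 1457950), (nat_lit 1466533), (nat_lit 1543529), (nat_lit 1544252), (nat_lit 1587058), (nat_lit 1588504)]⟩, ⟨(nat_lit 5), false, false, true, (nat_lit 186), (nat_lit 3162), (nat_lit 3873), [(nat_lit 1412825), (nat_lit 1411379), (nat_lit 1456412), (nat_lit 1455689), (nat_lit 1477347), (nat_lit 1472332), (nat_lit 1520934), (nat_lit 1516642)]⟩, (nat_lit 4810530), (nat_lit 43342862), (nat_lit 12556203), (nat_lit 11100935), (nat_lit 5), (nat_lit 0), [], [], [], [],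
 ⟨⟨[(nat_lit 40), (nat_lit 80), (nat_lit 120)], [(nat_lit 0), (nat_lit 795), (nat_lit 2800)], [((nat_lit 0), (nat_lit 0), (nat_lit 0)), ((nat_lit 1000), (nat_lit 814), (nat_lit 310)), ((nat_lit 1000), (nat_lit 719), (nat_lit 783))], ((nat_lit 71), (nat_lit 100), (nat_lit 71))⟩, (nat_lit 0), (nat_lit 52), (nat_lit 52), (nat_lit 0), (nat_lit 0), [(nat_lit 1574440002), (nat_lit 102544532604), (nat_lit 2859556800)], [(nat_lit 0), (nat_lit 0), (nat_lit 0)], [(nat_lit 18930822854), (nat_lit 20490193624), (nat_lit 20622560243), (nat_lit 21971883543), (nat_lit 20288270735), (nat_lit 21752305286), (nat_lit 21827583880), (nat_lit 23084798430)], (nat_lit 0), (nat_lit 0), (nat_lit 0), (nat_lit 0), (nat_lit 0), (nat_lit 0), [], [(nat_lit 4), (nat_lit 51), (nat_lit 345), (nat_lit 125), (nat_lit 10)]⟩,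
 ⟨⟨[(nat_lit 80), (nat_lit 120), (nat_lit 160)], [(nat_lit 0), (nat_lit 0), (nat_lit 2132)], [((nat_lit 0), (nat_lit 0), (nat_lit 0)), ((nat_lit 0), (nat_lit 0), (nat_lit 0)), ((nat_lit 858), (nat_lit 1000), (nat_lit 713))], ((nat_lit 100), (nat_lit 85), (nat_lit 73))⟩, (nat_lit 7536), (nat_lit 540), (nat_lit 540), (nat_lit 0), (nat_lit 537463), [(nat_lit 131264000), (nat_lit 223104000), (nat_lit 332416000)], [], [(nat_lit 1063798820), (nat_lit 1030847018), (nat_lit 962383658), (nat_lit 1032937722), (nat_lit 1607934321), (nat_lit 1337493513), (nat_lit 1965714076), (nat_lit 1701742934)], (nat_lit 1271251), (nat_lit 1271251), (nat_lit 780000), (nat_lit 1435001), (nat_lit 0), (nat_lit 2754376), [(nat_lit 1100000), (nat_lit 1785001), (nat_lit 1271251)], [(nat_lit 18), (nat_lit 59), (nat_lit 456), (nat_lit 225), (nat_lit 12)]⟩,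
 ⟨⟨[(nat_lit 140), (nat_lit 180), (nat_lit 200)], [(nat_lit 0), (nat_lit 0), (nat_lit 2835)], [((nat_lit 0), (nat_lit 0), (nat_lit 0)), ((nat_lit 0), (nat_lit 0), (nat_lit 0)), ((nat_lit 363), (nat_lit 1000), (nat_lit 798))], ((nat_lit 0), (nat_lit 0), (nat_lit 0))⟩, (nat_lit 4952), (nat_lit 300), (nat_lit 1330), (nat_lit 1405806), (nat_lit 1902230), [(nat_lit 177156000), (nat_lit 253044000), (nat_lit 295200000)], [], [(nat_lit 1261567162), (nat_lit 1223356468), (nat_lit 1234716076), (nat_lit 1196427920), (nat_lit 1254375244), (nat_lit 1367816433), (nat_lit 1058131787), (nat_lit 1174013489)], (nat_lit 780000), (nat_lit 1100000), (nat_lit 1271251), (nat_lit 1271251), (nat_lit 0), (nat_lit 2754376), [(nat_lit 1977501), (nat_lit 1271251), (nat_lit 1271251)], [(nat_lit 32), (nat_lit 67), (nat_lit 432), (nat_lit 200), (nat_lit 9)]⟩⟩) (.trX (nat_lit 5) (nat_lit 1) (nat_lit 2) (nat_lit 94) (nat_lit 59) (nat_lit 100) (nat_lit 370) (.leaf ⟨(nat_lit 923),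 (nat_lit 55), (nat_lit 0), (nat_lit 22), (nat_lit 0), (nat_lit 3256), (nat_lit 817), (nat_lit 243), (nat_lit 0), (nat_lit 0), (nat_lit 230750), [((nat_lit 360), [((nat_lit 22), (nat_lit 0), (nat_lit 923))])], ⟨(nat_lit 7), false, false, false, (nat_lit 219), (nat_lit 3162), (nat_lit 3873), [(nat_lit 1457950), (nat_lit 1466533), (nat_lit 1501479), (nat_lit 1510785), (nat_lit 1587058), (nat_lit 1588504), (nat_lit 1630587), (nat_lit 1632757)]⟩, ⟨(nat_lit 5), false, false, true, (nat_lit 186), (nat_lit 3162), (nat_lit 3873), [(nat_lit 1412825), (nat_lit 1411379), (nat_lit 1456412), (nat_lit 1455689), (nat_lit 1477347), (nat_lit 1472332), (nat_lit 1520934), (nat_lit 1516642)]⟩, (nat_lit 4934817), (nat_lit 42013188), (nat_lit 14088166), (nat_lit 10898646), (nat_lit 5), (nat_lit 0), [⟨(nat_lit 0), (nat_lit 80), (nat_lit 60), (nat_lit 100), (nat_lit 101244250)⟩], [], [], [],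
 ⟨⟨[(nat_lit 40), (nat_lit 80), (nat_lit 120)], [(nat_lit 0), (nat_lit 795), (nat_lit 2800)], [((nat_lit 0), (nat_lit 0), (nat_lit 0)), ((nat_lit 1000), (nat_lit 814), (nat_lit 310)), ((nat_lit 1000), (nat_lit 719), (nat_lit 783))], ((nat_lit 71), (nat_lit 100), (nat_lit 71))⟩, (nat_lit 0), (nat_lit 52), (nat_lit 52), (nat_lit 0), (nat_lit 0), [(nat_lit 1585710002), (nat_lit 103567713343), (nat_lit 3117081200)], [(nat_lit 0), (nat_lit 0), (nat_lit 0)], [(nat_lit 18936718754), (nat_lit 20500468532), (nat_lit 20627159806), (nat_lit 21979254690), (nat_lit 20295155046), (nat_lit 21763171848), (nat_lit 21832772406), (nat_lit 23092840616)], (nat_lit 0), (nat_lit 0), (nat_lit 0), (nat_lit 0), (nat_lit 0), (nat_lit 0), [], [(nat_lit 4), (nat_lit 51), (nat_lit 345), (nat_lit 125), (nat_lit 10)]⟩,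
 ⟨⟨[(nat_lit 60), (nat_lit 100), (nat_lit 140)], [(nat_lit 0), (nat_lit 0), (nat_lit 2047)], [((nat_lit 0), (nat_lit 0), (nat_lit 0)), ((nat_lit 0), (nat_lit 0), (nat_lit 0)), ((nat_lit 1000), (nat_lit 993), (nat_lit 781))], ((nat_lit 99), (nat_lit 100), (nat_lit 77))⟩, (nat_lit 0), (nat_lit 506), (nat_lit 506), (nat_lit 0), (nat_lit 649134), [(nat_lit 252714000), (nat_lit 481250000), (nat_lit 757834000)], [], [(nat_lit 2692216860), (nat_lit 2660674980), (nat_lit 2384831482), (nat_lit 2684003420), (nat_lit 2931395804), (nat_lit 2785119355), (nat_lit 3861824029), (nat_lit 3164616348)], (nat_lit 1271251), (nat_lit 1271251), (nat_lit 780000), (nat_lit 1435001), (nat_lit 0), (nat_lit 2613125), [(nat_lit 780000), (nat_lit 1435001), (nat_lit 1271251)], [(nat_lit 11), (nat_lit 55), (nat_lit 373), (nat_lit 150), (nat_lit 11)]⟩,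
 ⟨⟨[(nat_lit 140), (nat_lit 180), (nat_lit 200)], [(nat_lit 0), (nat_lit 0), (nat_lit 2835)], [((nat_lit 0), (nat_lit 0), (nat_lit 0)), ((nat_lit 0), (nat_lit 0), (nat_lit 0)), ((nat_lit 363), (nat_lit 1000), (nat_lit 798))], ((nat_lit 0), (nat_lit 0), (nat_lit 0))⟩, (nat_lit 6053), (nat_lit 300), (nat_lit 1811), (nat_lit 1718200), (nat_lit 2929926), [(nat_lit 216524000), (nat_lit 309276000), (nat_lit 360800000)], [], [(nat_lit 1647040400), (nat_lit 1610511787), (nat_lit 1614964224), (nat_lit 1578592381), (nat_lit 1451079685), (nat_lit 1576391935), (nat_lit 1301592617), (nat_lit 1363869360)], (nat_lit 780000), (nat_lit 1100000), (nat_lit 1271251), (nat_lit 1271251), (nat_lit 0), (nat_lit 2613125), [(nat_lit 1977501), (nat_lit 1271251), (nat_lit 1271251)], [(nat_lit 32), (nat_lit 67), (nat_lit 549), (nat_lit 200), (nat_lit 12)]⟩⟩))))) (.spl (nat_lit 1) (nat_lit 280) (.leaf ⟨(nat_lit 960), (nat_lit 16), (nat_lit 0), (nat_lit 24), (nat_lit 1265), (nat_lit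 3195), (nat_lit 447), (nat_lit 285), (nat_lit 0), (nat_lit 0), (nat_lit 240000), [((nat_lit 360), [((nat_lit 22), (nat_lit 0), (nat_lit 960))])], ⟨(nat_lit 6), false, false, false, (nat_lit 201), (nat_lit 3162), (nat_lit 3873), [(nat_lit 1414421), (nat_lit 1422280), (nat_lit 1457950), (nat_lit 1466533), (nat_lit 1543529), (nat_lit 1544252), (nat_lit 1587058), (nat_lit 1588504)]⟩, ⟨(nat_lit 5), false, false, true, (nat_lit 199), (nat_lit 3162), (nat_lit 3873), [(nat_lit 1456412), (nat_lit 1455689), (nat_lit 1478205), (nat_lit 1477844), (nat_lit 1520934), (nat_lit 1516642), (nat_lit 1542727), (nat_lit 1538797)]⟩, (nat_lit 4914879), (nat_lit 42394844), (nat_lit 12393554), (nat_lit 12211602), (nat_lit 5), (nat_lit 0), [], [], [], [],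
 ⟨⟨[(nat_lit 40), (nat_lit 80), (nat_lit 120)], [(nat_lit 0), (nat_lit 795), (nat_lit 2800)], [((nat_lit 0), (nat_lit 0), (nat_lit 0)), ((nat_lit 1000), (nat_lit 814), (nat_lit 310)), ((nat_lit 1000), (nat_lit 719), (nat_lit 783))], ((nat_lit 71), (nat_lit 100), (nat_lit 71))⟩, (nat_lit 0), (nat_lit 52), (nat_lit 52), (nat_lit 0), (nat_lit 0), [(nat_lit 1577200026), (nat_lit 102643423227), (nat_lit 2922624000)], [(nat_lit 0), (nat_lit 0), (nat_lit 0)], [(nat_lit 18951624498), (nat_lit 20460172759), (nat_lit 20647713875), (nat_lit 21987732574), (nat_lit 20305754144), (nat_lit 21715824685), (nat_lit 21850760281), (nat_lit 23099607656)], (nat_lit 0), (nat_lit 0), (nat_lit 0), (nat_lit 0), (nat_lit 0), (nat_lit 0), [], [(nat_lit 4), (nat_lit 51), (nat_lit 345), (nat_lit 125), (nat_lit 10)]⟩,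
 ⟨⟨[(nat_lit 80), (nat_lit 120), (nat_lit 160)], [(nat_lit 0), (nat_lit 0), (nat_lit 2132)], [((nat_lit 0), (nat_lit 0), (nat_lit 0)), ((nat_lit 0), (nat_lit 0), (nat_lit 0)), ((nat_lit 858), (nat_lit 1000), (nat_lit 713))], ((nat_lit 100), (nat_lit 85), (nat_lit 73))⟩, (nat_lit 346), (nat_lit 436), (nat_lit 436), (nat_lit 0), (nat_lit 381822), [(nat_lit 187520000), (nat_lit 318720000), (nat_lit 474880000)], [], [(nat_lit 1518289460), (nat_lit 1496090654), (nat_lit 1387781832), (nat_lit 1496607646), (nat_lit 2334760766), (nat_lit 1952192240), (nat_lit 2845565662), (nat_lit 2472118171)], (nat_lit 1271251), (nat_lit 1271251), (nat_lit 780000), (nat_lit 1435001), (nat_lit 0), (nat_lit 2825001), [(nat_lit 1100000), (nat_lit 1785001), (nat_lit 1271251)], [(nat_lit 18), (nat_lit 59), (nat_lit 456), (nat_lit 225), (nat_lit 12)]⟩,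
 ⟨⟨[(nat_lit 120), (nat_lit 160), (nat_lit 200)], [(nat_lit 0), (nat_lit 0), (nat_lit 3198)], [((nat_lit 0), (nat_lit 0), (nat_lit 0)), ((nat_lit 0), (nat_lit 0), (nat_lit 0)), ((nat_lit 572), (nat_lit 1000), (nat_lit 714))], ((nat_lit 0), (nat_lit 0), (nat_lit 0))⟩, (nat_lit 11707), (nat_lit 300), (nat_lit 965), (nat_lit 1780806), (nat_lit 1161561), [(nat_lit 191232000), (nat_lit 284928000), (nat_lit 393600000)], [], [(nat_lit 1593127848), (nat_lit 1575966458), (nat_lit 1559262864), (nat_lit 1542297213), (nat_lit 1538520054), (nat_lit 1625166480), (nat_lit 1285341444), (nat_lit 1373557365)], (nat_lit 1100000), (nat_lit 1271251), (nat_lit 1271251), (nat_lit 1271251), (nat_lit 0), (nat_lit 2825001), [(nat_lit 1695001), (nat_lit 1271251), (nat_lit 1271251)], [(nat_lit 29), (nat_lit 66), (nat_lit 456), (nat_lit 225), (nat_lit 10)]⟩⟩) (.trX (nat_lit 5) (nat_lit 1) (nat_lit 2) (nat_lit 92) (nat_lit 49) (nat_lit 100) (nat_lit 380) (.leaf ⟨(nat_lit 912),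 (nat_lit 62), (nat_lit 0), (nat_lit 26), (nat_lit 0), (nat_lit 3259), (nat_lit 1011), (nat_lit 276), (nat_lit 0), (nat_lit 0), (nat_lit 228000), [((nat_lit 360), [((nat_lit 22), (nat_lit 0), (nat_lit 912))])], ⟨(nat_lit 7), false, false, false, (nat_lit 219), (nat_lit 3162), (nat_lit 3873), [(nat_lit 1457950), (nat_lit 1466533), (nat_lit 1501479), (nat_lit 1510785), (nat_lit 1587058), (nat_lit 1588504), (nat_lit 1630587), (nat_lit 1632757)]⟩, ⟨(nat_lit 5), false, false, true, (nat_lit 199), (nat_lit 3162), (nat_lit 3873), [(nat_lit 1456412), (nat_lit 1455689), (nat_lit 1478205), (nat_lit 1477844), (nat_lit 1520934), (nat_lit 1516642), (nat_lit 1542727), (nat_lit 1538797)]⟩, (nat_lit 5035761), (nat_lit 41119871), (nat_lit 13897748), (nat_lit 11982381), (nat_lit 5), (nat_lit 0), [⟨(nat_lit 0), (nat_lit 80), (nat_lit 60), (nat_lit 100), (nat_lit 88258127)⟩], [], [], [],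
 ⟨⟨[(nat_lit 40), (nat_lit 80), (nat_lit 120)], [(nat_lit 0), (nat_lit 795), (nat_lit 2800)], [((nat_lit 0), (nat_lit 0), (nat_lit 0)), ((nat_lit 1000), (nat_lit 814), (nat_lit 310)), ((nat_lit 1000), (nat_lit 719), (nat_lit 783))], ((nat_lit 71), (nat_lit 100), (nat_lit 71))⟩, (nat_lit 0), (nat_lit 52), (nat_lit 52), (nat_lit 0), (nat_lit 0), [(nat_lit 1588240004), (nat_lit 102785001007), (nat_lit 3174892800)], [(nat_lit 0), (nat_lit 0), (nat_lit 0)], [(nat_lit 18938097164), (nat_lit 20502670298), (nat_lit 20628260429), (nat_lit 21980949224), (nat_lit 20296745258), (nat_lit 21765500397), (nat_lit 21833999235), (nat_lit 23094626174)], (nat_lit 0), (nat_lit 0), (nat_lit 0), (nat_lit 0), (nat_lit 0), (nat_lit 0), [], [(nat_lit 4), (nat_lit 51), (nat_lit 345), (nat_lit 125), (nat_lit 10)]⟩,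
 ⟨⟨[(nat_lit 60), (nat_lit 100), (nat_lit 140)], [(nat_lit 0), (nat_lit 0), (nat_lit 2047)], [((nat_lit 0), (nat_lit 0), (nat_lit 0)), ((nat_lit 0), (nat_lit 0), (nat_lit 0)), ((nat_lit 1000), (nat_lit 993), (nat_lit 781))], ((nat_lit 99), (nat_lit 100), (nat_lit 77))⟩, (nat_lit 0), (nat_lit 459), (nat_lit 459), (nat_lit 0), (nat_lit 517837), [(nat_lit 288816000), (nat_lit 550000000), (nat_lit 866096000)], [], [(nat_lit 3114097260), (nat_lit 3082337054), (nat_lit 2736253047), (nat_lit 3097039246), (nat_lit 3372940140), (nat_lit 3312915532), (nat_lit 4510648803), (nat_lit 3650531201)], (nat_lit 1271251), (nat_lit 1271251), (nat_lit 780000), (nat_lit 1435001), (nat_lit 0), (nat_lit 2683751), [(nat_lit 780000), (nat_lit 1435001), (nat_lit 1271251)], [(nat_lit 11), (nat_lit 55), (nat_lit 373), (nat_lit 150), (nat_lit 11)]⟩,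
 ⟨⟨[(nat_lit 120), (nat_lit 160), (nat_lit 200)], [(nat_lit 0), (nat_lit 0), (nat_lit 3198)], [((nat_lit 0), (nat_lit 0), (nat_lit 0)), ((nat_lit 0), (nat_lit 0), (nat_lit 0)), ((nat_lit 572), (nat_lit 1000), (nat_lit 714))], ((nat_lit 0), (nat_lit 0), (nat_lit 0))⟩, (nat_lit 12683), (nat_lit 300), (nat_lit 1410), (nat_lit 1929200), (nat_lit 2117295), [(nat_lit 207168000), (nat_lit 308672000), (nat_lit 426400000)], [], [(nat_lit 1849001348), (nat_lit 1830863426), (nat_lit 1812820896), (nat_lit 1794635278), (nat_lit 1576874806), (nat_lit 1661893429), (nat_lit 1435541102), (nat_lit 1417382969)], (nat_lit 1100000), (nat_lit 1271251), (nat_lit 1271251), (nat_lit 1271251), (nat_lit 0), (nat_lit 2683751), [(nat_lit 1695001), (nat_lit 1271251), (nat_lit 1271251)], [(nat_lit 29), (nat_lit 66), (nat_lit 453), (nat_lit 200), (nat_lit 10)]⟩⟩)))))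
noncomputable def c8_62 : Tr Lf :=
 (.spl (nat_lit 1) (nat_lit 280) (.spl (nat_lit 1) (nat_lit 260) (.leaf ⟨(nat_lit 837), (nat_lit 122), (nat_lit 0), (nat_lit 41), (nat_lit 624), (nat_lit 4182), (nat_lit 1645), (nat_lit 362), (nat_lit 0), (nat_lit 0), (nat_lit 209250), [((nat_lit 360), [((nat_lit 22), (nat_lit 0), (nat_lit 837))])], ⟨(nat_lit 6), false, true, false, (nat_lit 247), (nat_lit 3162), (nat_lit 3873), [(nat_lit 1543529), (nat_lit 1544252), (nat_lit 1565293), (nat_lit 1566378), (nat_lit 1672628), (nat_lit 1666215), (nat_lit 1694401), (nat_lit 1688349)]⟩, ⟨(nat_lit 3), false, false, true, (nat_lit 165), (nat_lit 3162), (nat_lit 3873), [(nat_lit 1283782), (nat_lit 1289472), (nat_lit 1349127), (nat_lit 1355902), (nat_lit 1477347), (nat_lit 1472332), (nat_lit 1542727), (nat_lit 1538797)]⟩, (nat_lit 4923899), (nat_lit 41132170), (nat_lit 16926317), (nat_lit 8941513), (nat_lit 3), (nat_lit 0), [], [], [], [],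
 ⟨⟨[(nat_lit 40), (nat_lit 80), (nat_lit 120)], [(nat_lit 0), (nat_lit 795), (nat_lit 2800)], [((nat_lit 0), (nat_lit 0), (nat_lit 0)), ((nat_lit 1000), (nat_lit 814), (nat_lit 310)), ((nat_lit 1000), (nat_lit 719), (nat_lit 783))], ((nat_lit 71), (nat_lit 100), (nat_lit 71))⟩, (nat_lit 0), (nat_lit 63), (nat_lit 63), (nat_lit 0), (nat_lit 0), [(nat_lit 1681983875), (nat_lit 2413703603), (nat_lit 3569062800)], [(nat_lit 0), (nat_lit 0), (nat_lit 0)], [(nat_lit 20097080986), (nat_lit 21660324957), (nat_lit 23278374630), (nat_lit 24607698018), (nat_lit 22671226414), (nat_lit 23956720581), (nat_lit 25241463408), (nat_lit 26353341312)], (nat_lit 0), (nat_lit 0), (nat_lit 0), (nat_lit 0), (nat_lit 0), (nat_lit 0), [], [(nat_lit 4), (nat_lit 51), (nat_lit 373), (nat_lit 150), (nat_lit 11)]⟩,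
 ⟨⟨[(nat_lit 80), (nat_lit 120), (nat_lit 160)], [(nat_lit 0), (nat_lit 0), (nat_lit 2132)], [((nat_lit 0), (nat_lit 0), (nat_lit 0)), ((nat_lit 0), (nat_lit 0), (nat_lit 0)), ((nat_lit 858), (nat_lit 1000), (nat_lit 713))], ((nat_lit 100), (nat_lit 85), (nat_lit 73))⟩, (nat_lit 264594), (nat_lit 486), (nat_lit 486), (nat_lit 0), (nat_lit 468392), [(nat_lit 764144000), (nat_lit 1298784000), (nat_lit 1935136000)], [], [(nat_lit 5568649620), (nat_lit 5618320220), (nat_lit 5774970086), (nat_lit 5864283380), (nat_lit 7115482998), (nat_lit 6393877428), (nat_lit 5778807630), (nat_lit 5839302180)], (nat_lit 1271251), (nat_lit 1271251), (nat_lit 1271251), (nat_lit 1271251), (nat_lit 0), (nat_lit 2825001), [(nat_lit 1100000), (nat_lit 1785001), (nat_lit 1271251)], [(nat_lit 18), (nat_lit 59), (nat_lit 483), (nat_lit 250), (nat_lit 12)]⟩,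
 ⟨⟨[(nat_lit 140), (nat_lit 180), (nat_lit 200)], [(nat_lit 0), (nat_lit 0), (nat_lit 2835)], [((nat_lit 0), (nat_lit 0), (nat_lit 0)), ((nat_lit 0), (nat_lit 0), (nat_lit 0)), ((nat_lit 363), (nat_lit 1000), (nat_lit 798))], ((nat_lit 0), (nat_lit 0), (nat_lit 0))⟩, (nat_lit 11280), (nat_lit 300), (nat_lit 1529), (nat_lit 3202106), (nat_lit 2246397), [(nat_lit 403522000), (nat_lit 576378000), (nat_lit 672400000)], [], [(nat_lit 3992253256), (nat_lit 3915305721), (nat_lit 3843810396), (nat_lit 3767508072), (nat_lit 3513446417), (nat_lit 3438147291), (nat_lit 3367497737), (nat_lit 3493332158)], (nat_lit 780000), (nat_lit 1271251), (nat_lit 780000), (nat_lit 1762501), (nat_lit 0), (nat_lit 2825001), [(nat_lit 1977501), (nat_lit 1271251), (nat_lit 1271251)], [(nat_lit 32), (nat_lit 67), (nat_lit 485), (nat_lit 225), (nat_lit 11)]⟩⟩) (.trX (nat_lit 5) (nat_lit 1) (nat_lit 2) (nat_lit 96) (nat_lit 40) (nat_lit 100) (nat_lit 390) (.leaf ⟨(nat_lit 824),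 (nat_lit 141), (nat_lit 0), (nat_lit 35), (nat_lit 13), (nat_lit 4299), (nat_lit 1433), (nat_lit 316), (nat_lit 0), (nat_lit 0), (nat_lit 206000), [((nat_lit 360), [((nat_lit 22), (nat_lit 0), (nat_lit 824))])], ⟨(nat_lit 6), false, true, false, (nat_lit 256), (nat_lit 3162), (nat_lit 3873), [(nat_lit 1565293), (nat_lit 1566378), (nat_lit 1587058), (nat_lit 1588504), (nat_lit 1694401), (nat_lit 1688349), (nat_lit 1716165), (nat_lit 1710475)]⟩, ⟨(nat_lit 3), false, false, true, (nat_lit 165), (nat_lit 3162), (nat_lit 3873), [(nat_lit 1283782), (nat_lit 1289472), (nat_lit 1349127), (nat_lit 1355902), (nat_lit 1477347), (nat_lit 1472332), (nat_lit 1542727), (nat_lit 1538797)]⟩, (nat_lit 4966260), (nat_lit 40433696), (nat_lit 17721569), (nat_lit 8844735), (nat_lit 3), (nat_lit 0), [], [], [⟨(nat_lit 1), (nat_lit 59), (nat_lit 97), (nat_lit 100), (nat_lit 1407644)⟩], [],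
 ⟨⟨[(nat_lit 40), (nat_lit 80), (nat_lit 120)], [(nat_lit 0), (nat_lit 795), (nat_lit 2800)], [((nat_lit 0), (nat_lit 0), (nat_lit 0)), ((nat_lit 1000), (nat_lit 814), (nat_lit 310)), ((nat_lit 1000), (nat_lit 719), (nat_lit 783))], ((nat_lit 71), (nat_lit 100), (nat_lit 71))⟩, (nat_lit 0), (nat_lit 63), (nat_lit 63), (nat_lit 0), (nat_lit 0), [(nat_lit 1707014371), (nat_lit 2449027234), (nat_lit 3637385600)], [(nat_lit 0), (nat_lit 0), (nat_lit 0)], [(nat_lit 20055957578), (nat_lit 21642992387), (nat_lit 23263390689), (nat_lit 24627729758), (nat_lit 22620023924), (nat_lit 23923526555), (nat_lit 25204531057), (nat_lit 26438133084)], (nat_lit 0), (nat_lit 0), (nat_lit 0), (nat_lit 0), (nat_lit 0), (nat_lit 0), [], [(nat_lit 4), (nat_lit 51), (nat_lit 373), (nat_lit 150), (nat_lit 11)]⟩,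
 ⟨⟨[(nat_lit 80), (nat_lit 120), (nat_lit 160)], [(nat_lit 0), (nat_lit 528), (nat_lit 2577)], [((nat_lit 0), (nat_lit 0), (nat_lit 0)), ((nat_lit 1000), (nat_lit 959), (nat_lit 206)), ((nat_lit 929), (nat_lit 1000), (nat_lit 742))], ((nat_lit 100), (nat_lit 92), (nat_lit 75))⟩, (nat_lit 424627), (nat_lit 507), (nat_lit 507), (nat_lit 0), (nat_lit 525178), [(nat_lit 825088000), (nat_lit 1402368000), (nat_lit 2089472000)], [], [(nat_lit 5795497810), (nat_lit 5913402681), (nat_lit 6068034174), (nat_lit 6160444498), (nat_lit 6699161776), (nat_lit 6068526509), (nat_lit 5855401484), (nat_lit 5927383834)], (nat_lit 1271251), (nat_lit 1271251), (nat_lit 1271251), (nat_lit 1271251), (nat_lit 0), (nat_lit 2754376), [(nat_lit 1100000), (nat_lit 1785001), (nat_lit 1271251)], [(nat_lit 18), (nat_lit 59), (nat_lit 483), (nat_lit 250), (nat_lit 12)]⟩,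
 ⟨⟨[(nat_lit 140), (nat_lit 180), (nat_lit 200)], [(nat_lit 0), (nat_lit 0), (nat_lit 2835)], [((nat_lit 0), (nat_lit 0), (nat_lit 0)), ((nat_lit 0), (nat_lit 0), (nat_lit 0)), ((nat_lit 363), (nat_lit 1000), (nat_lit 798))], ((nat_lit 0), (nat_lit 0), (nat_lit 0))⟩, (nat_lit 9630), (nat_lit 300), (nat_lit 1862), (nat_lit 2733500), (nat_lit 2951389), [(nat_lit 344470000), (nat_lit 492030000), (nat_lit 574000000)], [], [(nat_lit 3564927370), (nat_lit 3499804095), (nat_lit 3438344395), (nat_lit 3373868004), (nat_lit 3161658147), (nat_lit 3098406090), (nat_lit 3038353354), (nat_lit 2975743994)], (nat_lit 780000), (nat_lit 1271251), (nat_lit 780000), (nat_lit 1762501), (nat_lit 0), (nat_lit 2754376), [(nat_lit 1977501), (nat_lit 1271251), (nat_lit 1271251)], [(nat_lit 32), (nat_lit 67), (nat_lit 567), (nat_lit 225), (nat_lit 12)]⟩⟩))) (.trX (nat_lit 5) (nat_lit 1) (nat_lit 2) (nat_lit 92) (nat_lit 49) (nat_lit 100) (nat_lit 380) (.stt (nat_lit 2) (.leaf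 ⟨(nat_lit 0), (nat_lit 1000), (nat_lit 0), (nat_lit 0), (nat_lit 4391), (nat_lit 6373), (nat_lit 11497), (nat_lit 0), (nat_lit 0), (nat_lit 0), (nat_lit 0), [], Pd.none, Pd.none, (nat_lit 0), (nat_lit 1), (nat_lit 0), (nat_lit 0), (nat_lit 3), (nat_lit 0), [], [], [⟨(nat_lit 1), (nat_lit 49), (nat_lit 92), (nat_lit 100), (nat_lit 230682829)⟩], [],
 ⟨⟨[(nat_lit 40), (nat_lit 80), (nat_lit 120)], [(nat_lit 0), (nat_lit 795), (nat_lit 2800)], [((nat_lit 0), (nat_lit 0), (nat_lit 0)), ((nat_lit 1000), (nat_lit 814), (nat_lit 310)), ((nat_lit 1000), (nat_lit 719), (nat_lit 783))], ((nat_lit 71), (nat_lit 100), (nat_lit 71))⟩, (nat_lit 0), (nat_lit 63), (nat_lit 63), (nat_lit 0), (nat_lit 0), [(nat_lit 2690142668), (nat_lit 4688000008), (nat_lit 7968000000)], [], [(nat_lit 20939792233), (nat_lit 22948555239), (nat_lit 24640213083), (nat_lit 26630886066), (nat_lit 23325191775), (nat_lit 24948035378), (nat_lit 26330358217), (nat_lit 27941194068)], (nat_lit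 0), (nat_lit 0), (nat_lit 0), (nat_lit 0), (nat_lit 0), (nat_lit 0), [], [(nat_lit 4), (nat_lit 51), (nat_lit 373), (nat_lit 150), (nat_lit 11)]⟩,
 ⟨⟨[(nat_lit 60), (nat_lit 100), (nat_lit 140)], [(nat_lit 0), (nat_lit 0), (nat_lit 2047)], [((nat_lit 0), (nat_lit 0), (nat_lit 0)), ((nat_lit 0), (nat_lit 0), (nat_lit 0)), ((nat_lit 1000), (nat_lit 993), (nat_lit 781))], ((nat_lit 99), (nat_lit 100), (nat_lit 77))⟩, (nat_lit 0), (nat_lit 183), (nat_lit 183), (nat_lit 0), (nat_lit 0), [(nat_lit 3282000000), (nat_lit 6250000000), (nat_lit 9842000000)], [], [(nat_lit 31094945941), (nat_lit 35196831754), (nat_lit 35936966660), (nat_lit 39151682524), (nat_lit 33509657084), (nat_lit 36116576997), (nat_lit 36037305967), (nat_lit 38038554242)], (nat_lit 0), (nat_lit 0), (nat_lit 0), (nat_lit 0), (nat_lit 0), (nat_lit 0), [], [(nat_lit 11), (nat_lit 55), (nat_lit 401), (nat_lit 175), (nat_lit 11)]⟩,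
 Rw.none⟩) (.spl (nat_lit 1) (nat_lit 300) (.leaf ⟨(nat_lit 741), (nat_lit 201), (nat_lit 0), (nat_lit 58), (nat_lit 0), (nat_lit 4430), (nat_lit 1941), (nat_lit 508), (nat_lit 0), (nat_lit 0), (nat_lit 185250), [((nat_lit 360), [((nat_lit 22), (nat_lit 0), (nat_lit 741))])], ⟨(nat_lit 7), false, true, false, (nat_lit 265), (nat_lit 3162), (nat_lit 3873), [(nat_lit 1587058), (nat_lit 1588504), (nat_lit 1608822), (nat_lit 1610630), (nat_lit 1716165), (nat_lit 1710475), (nat_lit 1737930), (nat_lit 1732601)]⟩, ⟨(nat_lit 3), false, false, true, (nat_lit 165), (nat_lit 3162), (nat_lit 3873), [(nat_lit 1283782), (nat_lit 1289472), (nat_lit 1349127), (nat_lit 1355902), (nat_lit 1477347), (nat_lit 1472332), (nat_lit 1542727), (nat_lit 1538797)]⟩, (nat_lit 5004092), (nat_lit 39739645), (nat_lit 18514945), (nat_lit 8745410), (nat_lit 3), (nat_lit 0), [], [], [], [],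
 ⟨⟨[(nat_lit 40), (nat_lit 80), (nat_lit 120)], [(nat_lit 0), (nat_lit 795), (nat_lit 2800)], [((nat_lit 0), (nat_lit 0), (nat_lit 0)), ((nat_lit 1000), (nat_lit 814), (nat_lit 310)), ((nat_lit 1000), (nat_lit 719), (nat_lit 783))], ((nat_lit 71), (nat_lit 100), (nat_lit 71))⟩, (nat_lit 0), (nat_lit 63), (nat_lit 63), (nat_lit 0), (nat_lit 0), [(nat_lit 1774412517), (nat_lit 2674554801), (nat_lit 4073600400)], [(nat_lit 0), (nat_lit 0), (nat_lit 0)], [(nat_lit 20195890596), (nat_lit 21809563011), (nat_lit 23432590974), (nat_lit 24801845276), (nat_lit 22748671816), (nat_lit 24072337771), (nat_lit 25349156626), (nat_lit 26533070880)], (nat_lit 0), (nat_lit 0), (nat_lit 0), (nat_lit 0), (nat_lit 0), (nat_lit 0), [], [(nat_lit 4), (nat_lit 51), (nat_lit 373), (nat_lit 150), (nat_lit 11)]⟩,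
 ⟨⟨[(nat_lit 60), (nat_lit 100), (nat_lit 140)], [(nat_lit 0), (nat_lit 0), (nat_lit 2047)], [((nat_lit 0), (nat_lit 0), (nat_lit 0)), ((nat_lit 0), (nat_lit 0), (nat_lit 0)), ((nat_lit 1000), (nat_lit 993), (nat_lit 781))], ((nat_lit 99), (nat_lit 100), (nat_lit 77))⟩, (nat_lit 558047), (nat_lit 457), (nat_lit 457), (nat_lit 0), (nat_lit 582044), [(nat_lit 850038000), (nat_lit 1618750000), (nat_lit 2549078000)], [], [(nat_lit 7838573936), (nat_lit 8075772196), (nat_lit 8421484237), (nat_lit 8612823128), (nat_lit 9056518737), (nat_lit 8270738184), (nat_lit 8381056483), (nat_lit 8558858321)], (nat_lit 1271251), (nat_lit 1271251), (nat_lit 1271251), (nat_lit 1271251), (nat_lit 0), (nat_lit 2683751), [(nat_lit 780000), (nat_lit 1435001), (nat_lit 1271251)], [(nat_lit 11), (nat_lit 55), (nat_lit 401), (nat_lit 175), (nat_lit 11)]⟩,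
 ⟨⟨[(nat_lit 140), (nat_lit 180), (nat_lit 200)], [(nat_lit 0), (nat_lit 0), (nat_lit 2835)], [((nat_lit 0), (nat_lit 0), (nat_lit 0)), ((nat_lit 0), (nat_lit 0), (nat_lit 0)), ((nat_lit 363), (nat_lit 1000), (nat_lit 798))], ((nat_lit 0), (nat_lit 0), (nat_lit 0))⟩, (nat_lit 15958), (nat_lit 300), (nat_lit 1596), (nat_lit 4529800), (nat_lit 2386053), [(nat_lit 570836000), (nat_lit 815364000), (nat_lit 951200000)], [], [(nat_lit 5779077086), (nat_lit 5671591176), (nat_lit 5571330721), (nat_lit 5464815053), (nat_lit 5127887771), (nat_lit 5023171217), (nat_lit 4924675388), (nat_lit 4827633364)], (nat_lit 780000), (nat_lit 1271251), (nat_lit 780000), (nat_lit 1762501), (nat_lit 0), (nat_lit 2683751), [(nat_lit 1977501), (nat_lit 1271251), (nat_lit 1271251)], [(nat_lit 32), (nat_lit 67), (nat_lit 499), (nat_lit 200), (nat_lit 11)]⟩⟩) (.trX (nat_lit 5) (nat_lit 1) (nat_lit 2) (nat_lit 87) (nat_lit 59) (nat_lit 100) (nat_lit 370) (.leaf ⟨(nat_lit 0),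 (nat_lit 861), (nat_lit 0), (nat_lit 139), (nat_lit 0), (nat_lit 6373), (nat_lit 6200), (nat_lit 1327), (nat_lit 0), (nat_lit 0), (nat_lit 0), [], Pd.none, Pd.none, (nat_lit 0), (nat_lit 1), (nat_lit 0), (nat_lit 0), (nat_lit 3), (nat_lit 0), [⟨(nat_lit 0), (nat_lit 80), (nat_lit 60), (nat_lit 100), (nat_lit 2221070)⟩], [], [⟨(nat_lit 1), (nat_lit 77), (nat_lit 86), (nat_lit 100), (nat_lit 107420902)⟩], [],
 ⟨⟨[(nat_lit 40), (nat_lit 80), (nat_lit 120)], [(nat_lit 0), (nat_lit 795), (nat_lit 2800)], [((nat_lit 0), (nat_lit 0), (nat_lit 0)), ((nat_lit 1000), (nat_lit 814), (nat_lit 310)), ((nat_lit 1000), (nat_lit 719), (nat_lit 783))], ((nat_lit 71), (nat_lit 100), (nat_lit 71))⟩, (nat_lit 0), (nat_lit 63), (nat_lit 63), (nat_lit 0), (nat_lit 0), [(nat_lit 2686049533), (nat_lit 4688000037), (nat_lit 7968000000)], [], [(nat_lit 20939792262), (nat_lit 22948555268), (nat_lit 24640213083), (nat_lit 26630886066), (nat_lit 23325191804), (nat_lit 24948035378),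 (nat_lit 26330358217), (nat_lit 27941194068)], (nat_lit 0), (nat_lit 0), (nat_lit 0), (nat_lit 0), (nat_lit 0), (nat_lit 0), [], [(nat_lit 4), (nat_lit 51), (nat_lit 373), (nat_lit 150), (nat_lit 11)]⟩,
 ⟨⟨[(nat_lit 60), (nat_lit 100), (nat_lit 140)], [(nat_lit 0), (nat_lit 609), (nat_lit 2558)], [((nat_lit 0), (nat_lit 0), (nat_lit 0)), ((nat_lit 1000), (nat_lit 905), (nat_lit 238)), ((nat_lit 1000), (nat_lit 904), (nat_lit 760))], ((nat_lit 90), (nat_lit 100), (nat_lit 74))⟩, (nat_lit 3115041), (nat_lit 478), (nat_lit 478), (nat_lit 0), (nat_lit 636928), [(nat_lit 3282000000), (nat_lit 6250000000), (nat_lit 9842000000)], [], [(nat_lit 27235670893), (nat_lit 28039054493), (nat_lit 29244442193), (nat_lit 29908668493), (nat_lit 29538947456), (nat_lit 29830457893), (nat_lit 31070429650), (nat_lit 31891163650)], (nat_lit 1271251), (nat_lit 1271251), (nat_lit 1271251), (nat_lit 1271251), (nat_lit 0), (nat_lit 2613125), [(nat_lit 780000), (nat_lit 1435001),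 (nat_lit 1271251)], [(nat_lit 11), (nat_lit 55), (nat_lit 401), (nat_lit 175), (nat_lit 11)]⟩,
 ⟨⟨[(nat_lit 140), (nat_lit 180), (nat_lit 200)], [(nat_lit 0), (nat_lit 0), (nat_lit 2835)], [((nat_lit 0), (nat_lit 0), (nat_lit 0)), ((nat_lit 0), (nat_lit 0), (nat_lit 0)), ((nat_lit 363), (nat_lit 1000), (nat_lit 798))], ((nat_lit 0), (nat_lit 0), (nat_lit 0))⟩, (nat_lit 38243), (nat_lit 300), (nat_lit 1852), (nat_lit 10855906), (nat_lit 2929926), [(nat_lit 1368038000), (nat_lit 1954062000), (nat_lit 2279600000)], [], [(nat_lit 13290630372), (nat_lit 13012986900), (nat_lit 12750772955), (nat_lit 12475934300), (nat_lit 11628002643), (nat_lit 11358690597), (nat_lit 11102930607), (nat_lit 11776161491)], (nat_lit 780000), (nat_lit 1271251), (nat_lit 780000), (nat_lit 1762501), (nat_lit 0), (nat_lit 2613125), [(nat_lit 1977501), (nat_lit 1271251), (nat_lit 1271251)], [(nat_lit 32), (nat_lit 67), (nat_lit 562), (nat_lit 200), (nat_lit 12)]⟩⟩))))))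
noncomputable def c8_63 : Tr Lf :=
 (.spl (nat_lit 1) (nat_lit 280) (.spl (nat_lit 5) (nat_lit 120) (.spl (nat_lit 3) (nat_lit 200) (.leaf ⟨(nat_lit 0), (nat_lit 944), (nat_lit 0), (nat_lit 56), (nat_lit 2435), (nat_lit 5160), (nat_lit 8434), (nat_lit 826), (nat_lit 0), (nat_lit 0), (nat_lit 0), [], Pd.none, Pd.none, (nat_lit 0), (nat_lit 1), (nat_lit 0), (nat_lit 0), (nat_lit 3), (nat_lit 0), [], [], [], [],
 ⟨⟨[(nat_lit 40), (nat_lit 80), (nat_lit 120)], [(nat_lit 0), (nat_lit 795), (nat_lit 2800)], [((nat_lit 0), (nat_lit 0), (nat_lit 0)), ((nat_lit 1000), (nat_lit 814), (nat_lit 310)), ((nat_lit 1000), (nat_lit 719), (nat_lit 783))], ((nat_lit 71), (nat_lit 100), (nat_lit 71))⟩, (nat_lit 2393786), (nat_lit 193), (nat_lit 193), (nat_lit 0), (nat_lit 305468), [(nat_lit 2183307268), (nat_lit 4688000013), (nat_lit 7968000000)], [], [(nat_lit 20037494381), (nat_lit 21478530583), (nat_lit 21113035013), (nat_lit 22395347763), (nat_lit 22050045703),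 (nat_lit 23241647423), (nat_lit 22759874563), (nat_lit 24226074760)], (nat_lit 1271251), (nat_lit 1271251), (nat_lit 780000), (nat_lit 1435001), (nat_lit 780000), (nat_lit 1762501), [(nat_lit 490000), (nat_lit 1100000), (nat_lit 1785001)], [(nat_lit 4), (nat_lit 51), (nat_lit 345), (nat_lit 125), (nat_lit 11)]⟩,
 ⟨⟨[(nat_lit 80), (nat_lit 120), (nat_lit 160)], [(nat_lit 0), (nat_lit 0), (nat_lit 2132)], [((nat_lit 0), (nat_lit 0), (nat_lit 0)), ((nat_lit 0), (nat_lit 0), (nat_lit 0)), ((nat_lit 858), (nat_lit 1000), (nat_lit 713))], ((nat_lit 100), (nat_lit 85), (nat_lit 73))⟩, (nat_lit 0), (nat_lit 362), (nat_lit 362), (nat_lit 0), (nat_lit 190352), [(nat_lit 4688000000), (nat_lit 7968000000), (nat_lit 11872000000)], [], [(nat_lit 36656960920), (nat_lit 38995966332), (nat_lit 37117524368), (nat_lit 39125699944), (nat_lit 32926600226), (nat_lit 33439025461), (nat_lit 41847502248), (nat_lit 34156508129)], (nat_lit 1271251), (nat_lit 1271251), (nat_lit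 780000), (nat_lit 1435001), (nat_lit 0), (nat_lit 780000), [(nat_lit 1100000), (nat_lit 1785001), (nat_lit 1271251)], [(nat_lit 18), (nat_lit 59), (nat_lit 373), (nat_lit 150), (nat_lit 10)]⟩,
 ⟨⟨[(nat_lit 140), (nat_lit 180), (nat_lit 200)], [(nat_lit 0), (nat_lit 0), (nat_lit 2835)], [((nat_lit 0), (nat_lit 0), (nat_lit 0)), ((nat_lit 0), (nat_lit 0), (nat_lit 0)), ((nat_lit 363), (nat_lit 1000), (nat_lit 798))], ((nat_lit 0), (nat_lit 0), (nat_lit 0))⟩, (nat_lit 15407), (nat_lit 300), (nat_lit 765), (nat_lit 4373606), (nat_lit 553310), [(nat_lit 551152000), (nat_lit 787248000), (nat_lit 918400000)], [], [(nat_lit 4215411675), (nat_lit 3828284973), (nat_lit 3676952232), (nat_lit 3488455424), (nat_lit 3297737452), (nat_lit 3122758057), (nat_lit 3187457868), (nat_lit 3760464484)], (nat_lit 780000), (nat_lit 1271251), (nat_lit 780000), (nat_lit 1762501), (nat_lit 0), (nat_lit 780000), [(nat_lit 1977501), (nat_lit 1271251), (nat_lit 1271251)], [(nat_lit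 32), (nat_lit 67), (nat_lit 373), (nat_lit 150), (nat_lit 8)]⟩⟩) (.leaf ⟨(nat_lit 0), (nat_lit 1000), (nat_lit 0), (nat_lit 0), (nat_lit 0), (nat_lit 7575), (nat_lit 11448), (nat_lit 0), (nat_lit 0), (nat_lit 0), (nat_lit 0), [], Pd.none, Pd.none, (nat_lit 0), (nat_lit 1), (nat_lit 0), (nat_lit 0), (nat_lit 3), (nat_lit 0), [], [], [⟨(nat_lit 0), (nat_lit 100), (nat_lit 92), (nat_lit 31), (nat_lit 119280704)⟩], [⟨(nat_lit 0), (nat_lit 100), (nat_lit 98), (nat_lit 10), (nat_lit 54963420)⟩],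
 ⟨⟨[(nat_lit 40), (nat_lit 80), (nat_lit 120)], [(nat_lit 0), (nat_lit 795), (nat_lit 2800)], [((nat_lit 0), (nat_lit 0), (nat_lit 0)), ((nat_lit 1000), (nat_lit 814), (nat_lit 310)), ((nat_lit 1000), (nat_lit 719), (nat_lit 783))], ((nat_lit 71), (nat_lit 100), (nat_lit 71))⟩, (nat_lit 1223378), (nat_lit 187), (nat_lit 187), (nat_lit 0), (nat_lit 305468), [(nat_lit 2760928110), (nat_lit 5249786464), (nat_lit 7968000000)], [], [(nat_lit 22602138082), (nat_lit 24520306338), (nat_lit 25794644588), (nat_lit 27791828150), (nat_lit 24118723525), (nat_lit 25663825050), (nat_lit 27020701675), (nat_lit 28812302700)], (nat_lit 1271251), (nat_lit 1271251), (nat_lit 1271251), (nat_lit 1271251), (nat_lit 780000), (nat_lit 1762501), [(nat_lit 490000), (nat_lit 1100000), (nat_lit 1785001)], [(nat_lit 4), (nat_lit 51), (nat_lit 373), (nat_lit 150), (nat_lit 11)]⟩,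
 ⟨⟨[(nat_lit 80), (nat_lit 120), (nat_lit 160)], [(nat_lit 0), (nat_lit 0), (nat_lit 2132)], [((nat_lit 0), (nat_lit 0), (nat_lit 0)), ((nat_lit 0), (nat_lit 0), (nat_lit 0)), ((nat_lit 858), (nat_lit 1000), (nat_lit 713))], ((nat_lit 100), (nat_lit 85), (nat_lit 73))⟩, (nat_lit 4740867), (nat_lit 337), (nat_lit 337), (nat_lit 0), (nat_lit 190352), [(nat_lit 4688000000), (nat_lit 7968000000), (nat_lit 11872000000)], [], [(nat_lit 24365970452), (nat_lit 27438985544), (nat_lit 28635499572), (nat_lit 31654550640), (nat_lit 17158065176), (nat_lit 19888170444), (nat_lit 20907410144), (nat_lit 23045970684)], (nat_lit 1271251), (nat_lit 1271251), (nat_lit 1271251), (nat_lit 1271251), (nat_lit 0), (nat_lit 780000), [(nat_lit 1100000), (nat_lit 1785001), (nat_lit 1271251)], [(nat_lit 18), (nat_lit 59), (nat_lit 401), (nat_lit 175), (nat_lit 10)]⟩,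
 Rw.none⟩)) (.stt (nat_lit 2) (.spl (nat_lit 0) (nat_lit 350) (.leaf ⟨(nat_lit 688), (nat_lit 176), (nat_lit 0), (nat_lit 136), (nat_lit 0), (nat_lit 3764), (nat_lit 2755), (nat_lit 1422), (nat_lit 0), (nat_lit 0), (nat_lit 360650), [((nat_lit 350), [((nat_lit 22), (nat_lit 0), (nat_lit 149)), ((nat_lit 39), (nat_lit 2), (nat_lit 539))])], ⟨(nat_lit 6), true, false, false, (nat_lit 226), (nat_lit 3535), (nat_lit 3873), [(nat_lit 1414519), (nat_lit 1418358), (nat_lit 1458093), (nat_lit 1462251), (nat_lit 1672628), (nat_lit 1669426), (nat_lit 1716203), (nat_lit 1713320)]⟩, ⟨(nat_lit 3), false, false, true, (nat_lit 165), (nat_lit 3535), (nat_lit 3873), [(nat_lit 1283782), (nat_lit 1286665), (nat_lit 1349157), (nat_lit 1352518), (nat_lit 1477347), (nat_lit 1474949), (nat_lit 1542727), (nat_lit 1540807)]⟩, (nat_lit 4803989), (nat_lit 42805875), (nat_lit 15041103), (nat_lit 9153022), (nat_lit 3), (nat_lit 0), [⟨(nat_lit 0), (nat_lit 96), (nat_lit 69),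 (nat_lit 100), (nat_lit 69214146)⟩], [], [], [],
 ⟨⟨[(nat_lit 40), (nat_lit 80), (nat_lit 120)], [(nat_lit 0), (nat_lit 795), (nat_lit 2800)], [((nat_lit 0), (nat_lit 0), (nat_lit 0)), ((nat_lit 1000), (nat_lit 814), (nat_lit 310)), ((nat_lit 1000), (nat_lit 719), (nat_lit 783))], ((nat_lit 71), (nat_lit 100), (nat_lit 71))⟩, (nat_lit 1198154), (nat_lit 167), (nat_lit 167), (nat_lit 0), (nat_lit 241492), [(nat_lit 1501977607), (nat_lit 2254822465), (nat_lit 2703567445)], [(nat_lit 0), (nat_lit 0), (nat_lit 0)], [(nat_lit 18236589347), (nat_lit 18960470750), (nat_lit 22638973110), (nat_lit 23374988699), (nat_lit 20743895461), (nat_lit 21352008585), (nat_lit 24831933856), (nat_lit 25441171940)], (nat_lit 1271251), (nat_lit 1271251), (nat_lit 780000), (nat_lit 2090001), (nat_lit 780000), (nat_lit 1762501), [(nat_lit 490000), (nat_lit 1100000), (nat_lit 1785001)], [(nat_lit 4), (nat_lit 51), (nat_lit 373), (nat_lit 150), (nat_lit 12)]⟩,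
 ⟨⟨[(nat_lit 80), (nat_lit 120), (nat_lit 160)], [(nat_lit 0), (nat_lit 0), (nat_lit 2132)], [((nat_lit 0), (nat_lit 0), (nat_lit 0)), ((nat_lit 0), (nat_lit 0), (nat_lit 0)), ((nat_lit 858), (nat_lit 1000), (nat_lit 713))], ((nat_lit 100), (nat_lit 85), (nat_lit 73))⟩, (nat_lit 994782), (nat_lit 165), (nat_lit 165), (nat_lit 0), (nat_lit 0), [(nat_lit 1462656000), (nat_lit 2486016000), (nat_lit 3704064000)], [], [(nat_lit 5989442212), (nat_lit 6959392378), (nat_lit 7488821702), (nat_lit 8150528008), (nat_lit 10212322188), (nat_lit 10596348652), (nat_lit 10508979366), (nat_lit 11005130759)], (nat_lit 0), (nat_lit 0), (nat_lit 0), (nat_lit 0), (nat_lit 0), (nat_lit 0), [], [(nat_lit 18), (nat_lit 59), (nat_lit 483), (nat_lit 250), (nat_lit 12)]⟩,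
 ⟨⟨[(nat_lit 140), (nat_lit 180), (nat_lit 200)], [(nat_lit 0), (nat_lit 0), (nat_lit 2835)], [((nat_lit 0), (nat_lit 0), (nat_lit 0)), ((nat_lit 0), (nat_lit 0), (nat_lit 0)), ((nat_lit 363), (nat_lit 1000), (nat_lit 798))], ((nat_lit 0), (nat_lit 0), (nat_lit 0))⟩, (nat_lit 37418), (nat_lit 300), (nat_lit 973), (nat_lit 10621600), (nat_lit 1218867), [(nat_lit 1338512000), (nat_lit 1911888000), (nat_lit 2230400000)], [], [(nat_lit 9739083863), (nat_lit 9432893952), (nat_lit 9160594219), (nat_lit 8853625755), (nat_lit 8836993467), (nat_lit 8514881755), (nat_lit 8222162673), (nat_lit 9023246354)], (nat_lit 780000), (nat_lit 1271251), (nat_lit 780000), (nat_lit 1762501), (nat_lit 780000), (nat_lit 3072501), [(nat_lit 1977501), (nat_lit 1271251), (nat_lit 1271251)], [(nat_lit 32), (nat_lit 67), (nat_lit 456), (nat_lit 225), (nat_lit 10)]⟩⟩) (.leaf ⟨(nat_lit 832), (nat_lit 90), (nat_lit 0), (nat_lit 78), (nat_lit 0), (nat_lit 4150), (nat_lit 1483),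 (nat_lit 839), (nat_lit 0), (nat_lit 0), (nat_lit 208000), [((nat_lit 360), [((nat_lit 22), (nat_lit 0), (nat_lit 832))])], ⟨(nat_lit 6), true, false, false, (nat_lit 226), (nat_lit 3162), (nat_lit 3536), [(nat_lit 1418344), (nat_lit 1422365), (nat_lit 1462233), (nat_lit 1466658), (nat_lit 1669427), (nat_lit 1666215), (nat_lit 1713320), (nat_lit 1710513)]⟩, ⟨(nat_lit 3), false, false, true, (nat_lit 166), (nat_lit 3162), (nat_lit 3536), [(nat_lit 1286665), (nat_lit 1289472), (nat_lit 1352511), (nat_lit 1355925), (nat_lit 1474949), (nat_lit 1472332), (nat_lit 1540807), (nat_lit 1538797)]⟩, (nat_lit 4806958), (nat_lit 42777321), (nat_lit 15058055), (nat_lit 9164624), (nat_lit 3), (nat_lit 0), [⟨(nat_lit 0), (nat_lit 94), (nat_lit 62), (nat_lit 100), (nat_lit 1241657)⟩], [], [], [],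
 ⟨⟨[(nat_lit 40), (nat_lit 80), (nat_lit 100)], [(nat_lit 0), (nat_lit 1195), (nat_lit 2166)], [((nat_lit 0), (nat_lit 0), (nat_lit 0)), ((nat_lit 1000), (nat_lit 720), (nat_lit 465)), ((nat_lit 1000), (nat_lit 662), (nat_lit 740))], ((nat_lit 66), (nat_lit 100), (nat_lit 72))⟩, (nat_lit 827144), (nat_lit 168), (nat_lit 168), (nat_lit 0), (nat_lit 301965), [(nat_lit 1606640109), (nat_lit 2427289712), (nat_lit 2989225600)], [(nat_lit 0), (nat_lit 0), (nat_lit 0)], [(nat_lit 19581440931), (nat_lit 20233531262), (nat_lit 23709437338), (nat_lit 24483819300), (nat_lit 21824293962), (nat_lit 22457252096), (nat_lit 25691887625), (nat_lit 26330150400)], (nat_lit 1271251), (nat_lit 1271251), (nat_lit 780000), (nat_lit 2090001), (nat_lit 780000), (nat_lit 1762501), [(nat_lit 490000), (nat_lit 1100000), (nat_lit 1442501)], [(nat_lit 3), (nat_lit 50), (nat_lit 373), (nat_lit 150), (nat_lit 13)]⟩,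
 ⟨⟨[(nat_lit 80), (nat_lit 120), (nat_lit 160)], [(nat_lit 0), (nat_lit 0), (nat_lit 2132)], [((nat_lit 0), (nat_lit 0), (nat_lit 0)), ((nat_lit 0), (nat_lit 0), (nat_lit 0)), ((nat_lit 858), (nat_lit 1000), (nat_lit 713))], ((nat_lit 100), (nat_lit 85), (nat_lit 73))⟩, (nat_lit 544003), (nat_lit 165), (nat_lit 165), (nat_lit 0), (nat_lit 0), [(nat_lit 787584000), (nat_lit 1338624000), (nat_lit 1994496000)], [], [(nat_lit 3207581840), (nat_lit 3729764582), (nat_lit 4014903042), (nat_lit 4371152048), (nat_lit 5481128392), (nat_lit 5705750044), (nat_lit 5658207894), (nat_lit 5925337487)], (nat_lit 0), (nat_lit 0), (nat_lit 0), (nat_lit 0), (nat_lit 0), (nat_lit 0), [], [(nat_lit 18), (nat_lit 59), (nat_lit 483), (nat_lit 250), (nat_lit 12)]⟩,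
 ⟨⟨[(nat_lit 140), (nat_lit 180), (nat_lit 200)], [(nat_lit 0), (nat_lit 0), (nat_lit 2835)], [((nat_lit 0), (nat_lit 0), (nat_lit 0)), ((nat_lit 0), (nat_lit 0), (nat_lit 0)), ((nat_lit 363), (nat_lit 1000), (nat_lit 798))], ((nat_lit 0), (nat_lit 0), (nat_lit 0))⟩, (nat_lit 21460), (nat_lit 300), (nat_lit 1151), (nat_lit 6091805), (nat_lit 1602470), [(nat_lit 767676000), (nat_lit 1096524000), (nat_lit 1279200000)], [], [(nat_lit 5587193452), (nat_lit 5401646009), (nat_lit 5233142534), (nat_lit 5047796199), (nat_lit 5018843156), (nat_lit 4824888623), (nat_lit 4647800576), (nat_lit 5233589449)], (nat_lit 780000), (nat_lit 1271251), (nat_lit 780000), (nat_lit 1762501), (nat_lit 780000), (nat_lit 3072501), [(nat_lit 1977501), (nat_lit 1271251), (nat_lit 1271251)], [(nat_lit 32), (nat_lit 67), (nat_lit 456), (nat_lit 225), (nat_lit 10)]⟩⟩)) (.leaf ⟨(nat_lit 214), (nat_lit 470), (nat_lit 0), (nat_lit 316), (nat_lit 10), (nat_lit 4248), (nat_lit 2149),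 (nat_lit 2857), (nat_lit 0), (nat_lit 0), (nat_lit 214000), [((nat_lit 360), [((nat_lit 22), (nat_lit 2), (nat_lit 214))])], ⟨(nat_lit 6), false, false, false, (nat_lit 226), (nat_lit 3162), (nat_lit 3873), [(nat_lit 1414421), (nat_lit 1422280), (nat_lit 1457950), (nat_lit 1466533), (nat_lit 1672628), (nat_lit 1666215), (nat_lit 1716165), (nat_lit 1710475)]⟩, ⟨(nat_lit 3), false, false, true, (nat_lit 165), (nat_lit 3162), (nat_lit 3873), [(nat_lit 1283782), (nat_lit 1289472), (nat_lit 1349127), (nat_lit 1355902), (nat_lit 1477347), (nat_lit 1472332), (nat_lit 1542727), (nat_lit 1538797)]⟩, (nat_lit 4805288), (nat_lit 42793389), (nat_lit 15048511), (nat_lit 9158100), (nat_lit 3), (nat_lit 0), [], [], [], [],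
 ⟨⟨[(nat_lit 40), (nat_lit 80), (nat_lit 120)], [(nat_lit 0), (nat_lit 795), (nat_lit 2800)], [((nat_lit 0), (nat_lit 0), (nat_lit 0)), ((nat_lit 1000), (nat_lit 814), (nat_lit 310)), ((nat_lit 1000), (nat_lit 719), (nat_lit 783))], ((nat_lit 71), (nat_lit 100), (nat_lit 71))⟩, (nat_lit 2112274), (nat_lit 157), (nat_lit 157), (nat_lit 0), (nat_lit 187133), [(nat_lit 1833655607), (nat_lit 3596315603), (nat_lit 5434582400)], [(nat_lit 0), (nat_lit 0), (nat_lit 0)], [(nat_lit 18186447364), (nat_lit 19729639131), (nat_lit 23010226520), (nat_lit 24578471816), (nat_lit 21047682671), (nat_lit 22533145384), (nat_lit 25109909092), (nat_lit 26401172568)], (nat_lit 1271251), (nat_lit 1271251), (nat_lit 780000), (nat_lit 2090001), (nat_lit 780000), (nat_lit 1762501), [(nat_lit 490000), (nat_lit 1100000), (nat_lit 1785001)], [(nat_lit 4), (nat_lit 51), (nat_lit 373), (nat_lit 150), (nat_lit 12)]⟩,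
 ⟨⟨[(nat_lit 80), (nat_lit 120), (nat_lit 160)], [(nat_lit 0), (nat_lit 0), (nat_lit 2132)], [((nat_lit 0), (nat_lit 0), (nat_lit 0)), ((nat_lit 0), (nat_lit 0), (nat_lit 0)), ((nat_lit 858), (nat_lit 1000), (nat_lit 713))], ((nat_lit 100), (nat_lit 85), (nat_lit 73))⟩, (nat_lit 0), (nat_lit 263), (nat_lit 263), (nat_lit 0), (nat_lit 283498), [(nat_lit 3684768000), (nat_lit 6262848000), (nat_lit 9331392000)], [], [(nat_lit 27544982375), (nat_lit 28783937582), (nat_lit 30566486225), (nat_lit 31534651541), (nat_lit 35371046344), (nat_lit 34802699997), (nat_lit 43111644174), (nat_lit 41272405332)], (nat_lit 1271251), (nat_lit 1271251), (nat_lit 780000), (nat_lit 2090001), (nat_lit 780000), (nat_lit 3072501), [(nat_lit 1100000), (nat_lit 1785001), (nat_lit 1271251)], [(nat_lit 18), (nat_lit 59), (nat_lit 483), (nat_lit 250), (nat_lit 12)]⟩,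
 ⟨⟨[(nat_lit 140), (nat_lit 180), (nat_lit 200)], [(nat_lit 0), (nat_lit 0), (nat_lit 2835)], [((nat_lit 0), (nat_lit 0), (nat_lit 0)), ((nat_lit 0), (nat_lit 0), (nat_lit 0)), ((nat_lit 363), (nat_lit 1000), (nat_lit 798))], ((nat_lit 0), (nat_lit 0), (nat_lit 0))⟩, (nat_lit 86942), (nat_lit 300), (nat_lit 665), (nat_lit 24679600), (nat_lit 553310), [(nat_lit 3110072000), (nat_lit 4442328000), (nat_lit 5182400000)], [], [(nat_lit 22124211482), (nat_lit 21612902548), (nat_lit 21204195750), (nat_lit 20677003796), (nat_lit 21293533494), (nat_lit 20692707031), (nat_lit 20177250937), (nat_lit 19850241799)], (nat_lit 780000), (nat_lit 1271251), (nat_lit 780000), (nat_lit 1762501), (nat_lit 780000), (nat_lit 3072501), [(nat_lit 1977501), (nat_lit 1271251), (nat_lit 1271251)], [(nat_lit 32), (nat_lit 67), (nat_lit 456), (nat_lit 225), (nat_lit 10)]⟩⟩))) (.trX (nat_lit 5) (nat_lit 1) (nat_lit 2) (nat_lit 92) (nat_lit 49) (nat_lit 100) (nat_lit 380) (.spl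 (nat_lit 5) (nat_lit 200) (.leaf ⟨(nat_lit 0), (nat_lit 907), (nat_lit 0), (nat_lit 93), (nat_lit 0), (nat_lit 5054), (nat_lit 5940), (nat_lit 959), (nat_lit 0), (nat_lit 0), (nat_lit 0), [], Pd.none, Pd.none, (nat_lit 0), (nat_lit 1), (nat_lit 0), (nat_lit 0), (nat_lit 3), (nat_lit 0), [], [], [], [],
 ⟨⟨[(nat_lit 40), (nat_lit 80), (nat_lit 120)], [(nat_lit 0), (nat_lit 795), (nat_lit 2800)], [((nat_lit 0), (nat_lit 0), (nat_lit 0)), ((nat_lit 1000), (nat_lit 814), (nat_lit 310)), ((nat_lit 1000), (nat_lit 719), (nat_lit 783))], ((nat_lit 71), (nat_lit 100), (nat_lit 71))⟩, (nat_lit 2052080), (nat_lit 293), (nat_lit 293), (nat_lit 0), (nat_lit 493170), [(nat_lit 2032000007), (nat_lit 4688000002), (nat_lit 7968000000)], [], [(nat_lit 21526769670), (nat_lit 22846552233), (nat_lit 24934449971), (nat_lit 26018210602), (nat_lit 23449074261), (nat_lit 24628119804), (nat_lit 26346970155), (nat_lit 26985293664)], (nat_lit 1271251), (nat_lit 1271251),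 (nat_lit 780000), (nat_lit 2090001), (nat_lit 780000), (nat_lit 1762501), [(nat_lit 490000), (nat_lit 1100000), (nat_lit 1785001)], [(nat_lit 4), (nat_lit 51), (nat_lit 373), (nat_lit 150), (nat_lit 12)]⟩,
 ⟨⟨[(nat_lit 60), (nat_lit 100), (nat_lit 140)], [(nat_lit 0), (nat_lit 0), (nat_lit 2047)], [((nat_lit 0), (nat_lit 0), (nat_lit 0)), ((nat_lit 0), (nat_lit 0), (nat_lit 0)), ((nat_lit 1000), (nat_lit 993), (nat_lit 781))], ((nat_lit 99), (nat_lit 100), (nat_lit 77))⟩, (nat_lit 0), (nat_lit 359), (nat_lit 359), (nat_lit 0), (nat_lit 350107), [(nat_lit 3282000000), (nat_lit 6250000000), (nat_lit 9842000000)], [], [(nat_lit 32886744900), (nat_lit 35255798000), (nat_lit 36747588180), (nat_lit 38507791560), (nat_lit 31421394190), (nat_lit 33052573140), (nat_lit 46392754660), (nat_lit 41180541280)], (nat_lit 1271251), (nat_lit 1271251), (nat_lit 780000), (nat_lit 2090001), (nat_lit 0), (nat_lit 1412501), [(nat_lit 780000), (nat_lit 1435001), (nat_lit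 1271251)], [(nat_lit 11), (nat_lit 55), (nat_lit 345), (nat_lit 125), (nat_lit 10)]⟩,
 ⟨⟨[(nat_lit 140), (nat_lit 180), (nat_lit 200)], [(nat_lit 0), (nat_lit 0), (nat_lit 2835)], [((nat_lit 0), (nat_lit 0), (nat_lit 0)), ((nat_lit 0), (nat_lit 0), (nat_lit 0)), ((nat_lit 363), (nat_lit 1000), (nat_lit 798))], ((nat_lit 0), (nat_lit 0), (nat_lit 0))⟩, (nat_lit 25587), (nat_lit 300), (nat_lit 1739), (nat_lit 7263305), (nat_lit 2698350), [(nat_lit 915306000), (nat_lit 1307394000), (nat_lit 1525200000)], [], [(nat_lit 7948430537), (nat_lit 7741667243), (nat_lit 7546991710), (nat_lit 7342294163), (nat_lit 7138638198), (nat_lit 6938086583), (nat_lit 6748684102), (nat_lit 6633711146)], (nat_lit 780000), (nat_lit 1271251), (nat_lit 780000), (nat_lit 1762501), (nat_lit 0), (nat_lit 1412501), [(nat_lit 1977501), (nat_lit 1271251), (nat_lit 1271251)], [(nat_lit 32), (nat_lit 67), (nat_lit 513), (nat_lit 175), (nat_lit 11)]⟩⟩) (.leaf ⟨(nat_lit 0), (nat_lit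 853), (nat_lit 0), (nat_lit 147), (nat_lit 0), (nat_lit 5253), (nat_lit 8347), (nat_lit 1692), (nat_lit 0), (nat_lit 0), (nat_lit 0), [], Pd.none, Pd.none, (nat_lit 0), (nat_lit 1), (nat_lit 0), (nat_lit 0), (nat_lit 5), (nat_lit 0), [⟨(nat_lit 0), (nat_lit 88), (nat_lit 67), (nat_lit 100), (nat_lit 475998007)⟩], [], [⟨(nat_lit 1), (nat_lit 72), (nat_lit 89), (nat_lit 100), (nat_lit 380538124)⟩], [],
 ⟨⟨[(nat_lit 40), (nat_lit 80), (nat_lit 120)], [(nat_lit 0), (nat_lit 795), (nat_lit 2800)], [((nat_lit 0), (nat_lit 0), (nat_lit 0)), ((nat_lit 1000), (nat_lit 814), (nat_lit 310)), ((nat_lit 1000), (nat_lit 719), (nat_lit 783))], ((nat_lit 71), (nat_lit 100), (nat_lit 71))⟩, (nat_lit 2542775), (nat_lit 293), (nat_lit 293), (nat_lit 0), (nat_lit 493170), [(nat_lit 2067713425), (nat_lit 4688000121), (nat_lit 7968000000)], [], [(nat_lit 19354699214), (nat_lit 20820446001), (nat_lit 23781114283), (nat_lit 25549143026), (nat_lit 21365359604), (nat_lit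 23313209299), (nat_lit 25687109737), (nat_lit 27129512148)], (nat_lit 1271251), (nat_lit 1271251), (nat_lit 780000), (nat_lit 2090001), (nat_lit 780000), (nat_lit 1762501), [(nat_lit 490000), (nat_lit 1100000), (nat_lit 1785001)], [(nat_lit 4), (nat_lit 51), (nat_lit 373), (nat_lit 150), (nat_lit 12)]⟩,
 ⟨⟨[(nat_lit 60), (nat_lit 100), (nat_lit 140)], [(nat_lit 0), (nat_lit 0), (nat_lit 2047)], [((nat_lit 0), (nat_lit 0), (nat_lit 0)), ((nat_lit 0), (nat_lit 0), (nat_lit 0)), ((nat_lit 1000), (nat_lit 993), (nat_lit 781))], ((nat_lit 99), (nat_lit 100), (nat_lit 77))⟩, (nat_lit 1782061), (nat_lit 265), (nat_lit 265), (nat_lit 0), (nat_lit 350107), [(nat_lit 3282000000), (nat_lit 6250000000), (nat_lit 9842000000)], [], [(nat_lit 22889046809), (nat_lit 25136008117), (nat_lit 25582446040), (nat_lit 27113132711), (nat_lit 31889836338), (nat_lit 33478423856), (nat_lit 33024033292), (nat_lit 34768583342)], (nat_lit 1271251), (nat_lit 1271251), (nat_lit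 780000), (nat_lit 2090001), (nat_lit 1271251), (nat_lit 1271251), [(nat_lit 780000), (nat_lit 1435001), (nat_lit 1271251)], [(nat_lit 11), (nat_lit 55), (nat_lit 401), (nat_lit 175), (nat_lit 11)]⟩,
 ⟨⟨[(nat_lit 140), (nat_lit 180), (nat_lit 200)], [(nat_lit 0), (nat_lit 0), (nat_lit 2835)], [((nat_lit 0), (nat_lit 0), (nat_lit 0)), ((nat_lit 0), (nat_lit 0), (nat_lit 0)), ((nat_lit 363), (nat_lit 1000), (nat_lit 798))], ((nat_lit 0), (nat_lit 0), (nat_lit 0))⟩, (nat_lit 40444), (nat_lit 300), (nat_lit 1623), (nat_lit 11480707), (nat_lit 2698350), [(nat_lit 1446774000), (nat_lit 2066526000), (nat_lit 2410800000)], [], [(nat_lit 9458724688), (nat_lit 9077123361), (nat_lit 8732794324), (nat_lit 8351899636), (nat_lit 8919743984), (nat_lit 8526011297), (nat_lit 8174675186), (nat_lit 7781926705)], (nat_lit 780000), (nat_lit 1271251), (nat_lit 780000), (nat_lit 1762501), (nat_lit 1271251), (nat_lit 1271251), [(nat_lit 1977501), (nat_lit 1271251), (nat_lit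 1271251)], [(nat_lit 32), (nat_lit 67), (nat_lit 506), (nat_lit 200), (nat_lit 11)]⟩⟩))))
noncomputable def c8_64 : Tr Lf :=
 (.spl (nat_lit 1) (nat_lit 280) (.spl (nat_lit 5) (nat_lit 120) (.leaf ⟨(nat_lit 877), (nat_lit 108), (nat_lit 0), (nat_lit 15), (nat_lit 3123), (nat_lit 4157), (nat_lit 1385), (nat_lit 226), (nat_lit 0), (nat_lit 0), (nat_lit 219250), [((nat_lit 360), [((nat_lit 22), (nat_lit 0), (nat_lit 877))])], ⟨(nat_lit 6), false, false, false, (nat_lit 201), (nat_lit 3162), (nat_lit 3873), [(nat_lit 1414421), (nat_lit 1422280), (nat_lit 1457950), (nat_lit 1466533), (nat_lit 1543529), (nat_lit 1544252), (nat_lit 1587058), (nat_lit 1588504)]⟩, ⟨(nat_lit 6), false, false, true, (nat_lit 213), (nat_lit 3162), (nat_lit 3873), [(nat_lit 1477347), (nat_lit 1472332), (nat_lit 1499140), (nat_lit 1494487), (nat_lit 1574129), (nat_lit 1563762), (nat_lit 1595923), (nat_lit 1585917)]⟩, (nat_lit 5012604), (nat_lit 41399798), (nat_lit 12213138),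 (nat_lit 13387064), (nat_lit 6), (nat_lit 0), [⟨(nat_lit 0), (nat_lit 100), (nat_lit 69), (nat_lit 96), (nat_lit 78049955)⟩], [⟨(nat_lit 1), (nat_lit 100), (nat_lit 71), (nat_lit 100), (nat_lit 7060831)⟩, ⟨(nat_lit 1), (nat_lit 92), (nat_lit 75), (nat_lit 100), (nat_lit 308937232)⟩], [], [],
 ⟨⟨[(nat_lit 40), (nat_lit 80), (nat_lit 120)], [(nat_lit 0), (nat_lit 795), (nat_lit 2800)], [((nat_lit 0), (nat_lit 0), (nat_lit 0)), ((nat_lit 1000), (nat_lit 814), (nat_lit 310)), ((nat_lit 1000), (nat_lit 719), (nat_lit 783))], ((nat_lit 71), (nat_lit 100), (nat_lit 71))⟩, (nat_lit 0), (nat_lit 68), (nat_lit 68), (nat_lit 0), (nat_lit 0), [(nat_lit 1661627857), (nat_lit 2305015604), (nat_lit 3358838800)], [(nat_lit 0), (nat_lit 0), (nat_lit 0)], [(nat_lit 21293622101), (nat_lit 22738872479), (nat_lit 22581026903), (nat_lit 23862673107), (nat_lit 24123843118), (nat_lit 25504613926), (nat_lit 25083754876), (nat_lit 26326007871)], (nat_lit 0), (nat_lit 0),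 (nat_lit 0), (nat_lit 0), (nat_lit 0), (nat_lit 0), [], [(nat_lit 4), (nat_lit 51), (nat_lit 260), (nat_lit 50), (nat_lit 7)]⟩,
 ⟨⟨[(nat_lit 80), (nat_lit 120), (nat_lit 160)], [(nat_lit 0), (nat_lit 0), (nat_lit 2132)], [((nat_lit 0), (nat_lit 0), (nat_lit 0)), ((nat_lit 0), (nat_lit 0), (nat_lit 0)), ((nat_lit 858), (nat_lit 1000), (nat_lit 713))], ((nat_lit 100), (nat_lit 85), (nat_lit 73))⟩, (nat_lit 467960), (nat_lit 505), (nat_lit 505), (nat_lit 0), (nat_lit 447581), [(nat_lit 576624000), (nat_lit 980064000), (nat_lit 1460256000)], [], [(nat_lit 4673709220), (nat_lit 3599148085), (nat_lit 4208077846), (nat_lit 3610949619), (nat_lit 3647600169), (nat_lit 2754794658), (nat_lit 5004570616), (nat_lit 3741584269)], (nat_lit 1271251), (nat_lit 1271251), (nat_lit 780000), (nat_lit 1435001), (nat_lit 0), (nat_lit 780000), [(nat_lit 1100000), (nat_lit 1785001), (nat_lit 1271251)], [(nat_lit 18), (nat_lit 59), (nat_lit 373), (nat_lit 150), (nat_lit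 10)]⟩,
 ⟨⟨[(nat_lit 140), (nat_lit 180), (nat_lit 200)], [(nat_lit 0), (nat_lit 0), (nat_lit 2835)], [((nat_lit 0), (nat_lit 0), (nat_lit 0)), ((nat_lit 0), (nat_lit 0), (nat_lit 0)), ((nat_lit 363), (nat_lit 1000), (nat_lit 798))], ((nat_lit 0), (nat_lit 0), (nat_lit 0))⟩, (nat_lit 4127), (nat_lit 300), (nat_lit 1312), (nat_lit 1171500), (nat_lit 1902230), [(nat_lit 147630000), (nat_lit 210870000), (nat_lit 246000000)], [], [(nat_lit 979144648), (nat_lit 959923724), (nat_lit 993074696), (nat_lit 974342132), (nat_lit 787744534), (nat_lit 769199356), (nat_lit 785136952), (nat_lit 767891876)], (nat_lit 780000), (nat_lit 936250), (nat_lit 1271251), (nat_lit 1271251), (nat_lit 0), (nat_lit 780000), [(nat_lit 1977501), (nat_lit 1271251), (nat_lit 1271251)], [(nat_lit 32), (nat_lit 67), (nat_lit 398), (nat_lit 150), (nat_lit 9)]⟩⟩) (.spl (nat_lit 0) (nat_lit 350) (.leaf ⟨(nat_lit 932), (nat_lit 40), (nat_lit 0), (nat_lit 28), (nat_lit 4), (nat_lit 4112),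 (nat_lit 620), (nat_lit 342), (nat_lit 0), (nat_lit 0), (nat_lit 233000), [((nat_lit 350), [((nat_lit 22), (nat_lit 0), (nat_lit 932))])], ⟨(nat_lit 6), false, false, false, (nat_lit 201), (nat_lit 3535), (nat_lit 3873), [(nat_lit 1414519), (nat_lit 1418358), (nat_lit 1458093), (nat_lit 1462251), (nat_lit 1543574), (nat_lit 1543892), (nat_lit 1587148), (nat_lit 1587785)]⟩, ⟨(nat_lit 6), false, false, true, (nat_lit 214), (nat_lit 3535), (nat_lit 3873), [(nat_lit 1477347), (nat_lit 1474949), (nat_lit 1499140), (nat_lit 1496902), (nat_lit 1574129), (nat_lit 1569092), (nat_lit 1595923), (nat_lit 1591044)]⟩, (nat_lit 5014530), (nat_lit 41374650), (nat_lit 12165568), (nat_lit 13459782), (nat_lit 6), (nat_lit 0), [], [⟨(nat_lit 1), (nat_lit 98), (nat_lit 74), (nat_lit 100), (nat_lit 255998931)⟩], [], [],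
 ⟨⟨[(nat_lit 40), (nat_lit 80), (nat_lit 120)], [(nat_lit 0), (nat_lit 795), (nat_lit 2800)], [((nat_lit 0), (nat_lit 0), (nat_lit 0)), ((nat_lit 1000), (nat_lit 814), (nat_lit 310)), ((nat_lit 1000), (nat_lit 719), (nat_lit 783))], ((nat_lit 71), (nat_lit 100), (nat_lit 71))⟩, (nat_lit 0), (nat_lit 63), (nat_lit 63), (nat_lit 0), (nat_lit 0), [(nat_lit 1630247754), (nat_lit 2155569666), (nat_lit 3069780800)], [(nat_lit 0), (nat_lit 0), (nat_lit 0)], [(nat_lit 21171289810), (nat_lit 21889799738), (nat_lit 22464860242), (nat_lit 23102220178), (nat_lit 23989904638), (nat_lit 24723394173), (nat_lit 24985705223), (nat_lit 25637367549)], (nat_lit 0), (nat_lit 0), (nat_lit 0), (nat_lit 0), (nat_lit 0), (nat_lit 0), [], [(nat_lit 4), (nat_lit 51), (nat_lit 260), (nat_lit 50), (nat_lit 7)]⟩,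
 ⟨⟨[(nat_lit 80), (nat_lit 120), (nat_lit 160)], [(nat_lit 0), (nat_lit 0), (nat_lit 2132)], [((nat_lit 0), (nat_lit 0), (nat_lit 0)), ((nat_lit 0), (nat_lit 0), (nat_lit 0)), ((nat_lit 858), (nat_lit 1000), (nat_lit 713))], ((nat_lit 100), (nat_lit 85), (nat_lit 73))⟩, (nat_lit 0), (nat_lit 357), (nat_lit 357), (nat_lit 0), (nat_lit 405978), [(nat_lit 318784000), (nat_lit 541824000), (nat_lit 807296000)], [], [(nat_lit 2856814580), (nat_lit 2205817060), (nat_lit 2079670912), (nat_lit 2204631318), (nat_lit 3249934536), (nat_lit 2688255921), (nat_lit 3929140058), (nat_lit 3381686413)], (nat_lit 1271251), (nat_lit 1271251), (nat_lit 780000), (nat_lit 1435001), (nat_lit 780000), (nat_lit 2908751), [(nat_lit 1100000), (nat_lit 1785001), (nat_lit 1271251)], [(nat_lit 18), (nat_lit 59), (nat_lit 456), (nat_lit 225), (nat_lit 11)]⟩,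
 ⟨⟨[(nat_lit 140), (nat_lit 180), (nat_lit 200)], [(nat_lit 0), (nat_lit 0), (nat_lit 2835)], [((nat_lit 0), (nat_lit 0), (nat_lit 0)), ((nat_lit 0), (nat_lit 0), (nat_lit 0)), ((nat_lit 363), (nat_lit 1000), (nat_lit 798))], ((nat_lit 0), (nat_lit 0), (nat_lit 0))⟩, (nat_lit 7704), (nat_lit 300), (nat_lit 1369), (nat_lit 2186800), (nat_lit 2213077), [(nat_lit 275576000), (nat_lit 393624000), (nat_lit 459200000)], [], [(nat_lit 1672706164), (nat_lit 1644766058), (nat_lit 1639731787), (nat_lit 1611328489), (nat_lit 1495618250), (nat_lit 1466714164), (nat_lit 1464626653), (nat_lit 1435454159)], (nat_lit 780000), (nat_lit 936250), (nat_lit 1271251), (nat_lit 1271251), (nat_lit 780000), (nat_lit 2908751), [(nat_lit 1977501), (nat_lit 1271251), (nat_lit 1271251)], [(nat_lit 32), (nat_lit 67), (nat_lit 456), (nat_lit 225), (nat_lit 9)]⟩⟩) (.trX (nat_lit 4) (nat_lit 0) (nat_lit 2) (nat_lit 69) (nat_lit 96) (nat_lit 100) (nat_lit 290) (.leaf ⟨(nat_lit 952),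 (nat_lit 28), (nat_lit 0), (nat_lit 20), (nat_lit 0), (nat_lit 4039), (nat_lit 438), (nat_lit 248), (nat_lit 0), (nat_lit 0), (nat_lit 238000), [((nat_lit 360), [((nat_lit 22), (nat_lit 0), (nat_lit 952))])], ⟨(nat_lit 6), false, false, false, (nat_lit 202), (nat_lit 3162), (nat_lit 3536), [(nat_lit 1418344), (nat_lit 1422365), (nat_lit 1462233), (nat_lit 1466658), (nat_lit 1543888), (nat_lit 1544293), (nat_lit 1587777), (nat_lit 1588586)]⟩, ⟨(nat_lit 6), false, false, true, (nat_lit 209), (nat_lit 3162), (nat_lit 3536), [(nat_lit 1474949), (nat_lit 1472332), (nat_lit 1496902), (nat_lit 1494487), (nat_lit 1553401), (nat_lit 1548524), (nat_lit 1575354), (nat_lit 1570679)]⟩, (nat_lit 4990180), (nat_lit 41641892), (nat_lit 12304497), (nat_lit 13053611), (nat_lit 6), (nat_lit 0), [], [⟨(nat_lit 1), (nat_lit 96), (nat_lit 69), (nat_lit 100), (nat_lit 275425871)⟩], [], [],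
 ⟨⟨[(nat_lit 40), (nat_lit 80), (nat_lit 100)], [(nat_lit 0), (nat_lit 1195), (nat_lit 2166)], [((nat_lit 0), (nat_lit 0), (nat_lit 0)), ((nat_lit 1000), (nat_lit 720), (nat_lit 465)), ((nat_lit 1000), (nat_lit 662), (nat_lit 740))], ((nat_lit 66), (nat_lit 100), (nat_lit 72))⟩, (nat_lit 0), (nat_lit 66), (nat_lit 66), (nat_lit 0), (nat_lit 0), [(nat_lit 1627509669), (nat_lit 2101225607), (nat_lit 2518921600)], [(nat_lit 0), (nat_lit 0), (nat_lit 0)], [(nat_lit 21872764173), (nat_lit 22584598232), (nat_lit 23096244478), (nat_lit 23727986388), (nat_lit 24132990540), (nat_lit 24878032764), (nat_lit 25122397694), (nat_lit 25784014665)], (nat_lit 0), (nat_lit 0), (nat_lit 0), (nat_lit 0), (nat_lit 0), (nat_lit 0), [], [(nat_lit 3), (nat_lit 50), (nat_lit 260), (nat_lit 50), (nat_lit 8)]⟩,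
 ⟨⟨[(nat_lit 80), (nat_lit 120), (nat_lit 160)], [(nat_lit 0), (nat_lit 0), (nat_lit 2132)], [((nat_lit 0), (nat_lit 0), (nat_lit 0)), ((nat_lit 0), (nat_lit 0), (nat_lit 0)), ((nat_lit 858), (nat_lit 1000), (nat_lit 713))], ((nat_lit 100), (nat_lit 85), (nat_lit 73))⟩, (nat_lit 0), (nat_lit 411), (nat_lit 411), (nat_lit 0), (nat_lit 535251), [(nat_lit 225024000), (nat_lit 382464000), (nat_lit 569856000)], [], [(nat_lit 2017118634), (nat_lit 1557220386), (nat_lit 1467387924), (nat_lit 1555627563), (nat_lit 2294291196), (nat_lit 1897492433), (nat_lit 2774015613), (nat_lit 2387266103)], (nat_lit 1271251), (nat_lit 1271251), (nat_lit 780000), (nat_lit 1435001), (nat_lit 780000), (nat_lit 2908751), [(nat_lit 1100000), (nat_lit 1785001), (nat_lit 1271251)], [(nat_lit 18), (nat_lit 59), (nat_lit 456), (nat_lit 225), (nat_lit 11)]⟩,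
 ⟨⟨[(nat_lit 140), (nat_lit 180), (nat_lit 200)], [(nat_lit 0), (nat_lit 0), (nat_lit 2835)], [((nat_lit 0), (nat_lit 0), (nat_lit 0)), ((nat_lit 0), (nat_lit 0), (nat_lit 0)), ((nat_lit 363), (nat_lit 1000), (nat_lit 798))], ((nat_lit 0), (nat_lit 0), (nat_lit 0))⟩, (nat_lit 5503), (nat_lit 300), (nat_lit 1723), (nat_lit 1562000), (nat_lit 2951389), [(nat_lit 196840000), (nat_lit 281160000), (nat_lit 328000000)], [], [(nat_lit 1180627256), (nat_lit 1160291288), (nat_lit 1160479321), (nat_lit 1139864948), (nat_lit 1057451888), (nat_lit 1036414192), (nat_lit 1041737713), (nat_lit 1021082078)], (nat_lit 780000), (nat_lit 936250), (nat_lit 1271251), (nat_lit 1271251), (nat_lit 780000), (nat_lit 2908751), [(nat_lit 1977501), (nat_lit 1271251), (nat_lit 1271251)], [(nat_lit 32), (nat_lit 67), (nat_lit 532), (nat_lit 225), (nat_lit 11)]⟩⟩)))) (.trX (nat_lit 5) (nat_lit 1) (nat_lit 2) (nat_lit 96) (nat_lit 69) (nat_lit 100) (nat_lit 360) (.stt (nat_lit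 2) (.spl (nat_lit 5) (nat_lit 200) (.leaf ⟨(nat_lit 0), (nat_lit 1000), (nat_lit 0), (nat_lit 0), (nat_lit 12411), (nat_lit 6189), (nat_lit 8995), (nat_lit 0), (nat_lit 0), (nat_lit 0), (nat_lit 0), [], Pd.none, Pd.none, (nat_lit 0), (nat_lit 1), (nat_lit 0), (nat_lit 0), (nat_lit 6), (nat_lit 0), [⟨(nat_lit 0), (nat_lit 88), (nat_lit 67), (nat_lit 100), (nat_lit 709086380)⟩], [⟨(nat_lit 1), (nat_lit 92), (nat_lit 75), (nat_lit 100), (nat_lit 642840531)⟩], [], [],
 ⟨⟨[(nat_lit 40), (nat_lit 80), (nat_lit 120)], [(nat_lit 0), (nat_lit 795), (nat_lit 2800)], [((nat_lit 0), (nat_lit 0), (nat_lit 0)), ((nat_lit 1000), (nat_lit 814), (nat_lit 310)), ((nat_lit 1000), (nat_lit 719), (nat_lit 783))], ((nat_lit 71), (nat_lit 100), (nat_lit 71))⟩, (nat_lit 0), (nat_lit 68), (nat_lit 68), (nat_lit 0), (nat_lit 0), [(nat_lit 2496776009), (nat_lit 4688000123), (nat_lit 7968000000)], [], [(nat_lit 22452274804), (nat_lit 24269178998), (nat_lit 23461267158), (nat_lit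 25055675754), (nat_lit 25808575686), (nat_lit 27659898414), (nat_lit 26377359557), (nat_lit 27995769835)], (nat_lit 0), (nat_lit 0), (nat_lit 0), (nat_lit 0), (nat_lit 0), (nat_lit 0), [], [(nat_lit 4), (nat_lit 51), (nat_lit 260), (nat_lit 50), (nat_lit 7)]⟩,
 ⟨⟨[(nat_lit 60), (nat_lit 100), (nat_lit 140)], [(nat_lit 0), (nat_lit 0), (nat_lit 2047)], [((nat_lit 0), (nat_lit 0), (nat_lit 0)), ((nat_lit 0), (nat_lit 0), (nat_lit 0)), ((nat_lit 1000), (nat_lit 993), (nat_lit 781))], ((nat_lit 99), (nat_lit 100), (nat_lit 77))⟩, (nat_lit 3668806), (nat_lit 186), (nat_lit 186), (nat_lit 0), (nat_lit 0), [(nat_lit 3282000000), (nat_lit 6250000000), (nat_lit 9842000000)], [], [(nat_lit 22097531413), (nat_lit 26175389028), (nat_lit 23237489853), (nat_lit 26728314708), (nat_lit 16753778538), (nat_lit 19856697693), (nat_lit 17487152291), (nat_lit 20427488040)], (nat_lit 0), (nat_lit 0), (nat_lit 0), (nat_lit 0), (nat_lit 0), (nat_lit 0), [], [(nat_lit 11),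 (nat_lit 55), (nat_lit 317), (nat_lit 100), (nat_lit 9)]⟩,
 Rw.none⟩) (.leaf ⟨(nat_lit 0), (nat_lit 1000), (nat_lit 0), (nat_lit 0), (nat_lit 4545), (nat_lit 6189), (nat_lit 7780), (nat_lit 0), (nat_lit 0), (nat_lit 0), (nat_lit 0), [], Pd.none, Pd.none, (nat_lit 0), (nat_lit 1), (nat_lit 0), (nat_lit 0), (nat_lit 6), (nat_lit 0), [⟨(nat_lit 0), (nat_lit 99), (nat_lit 77), (nat_lit 100), (nat_lit 210520324)⟩], [⟨(nat_lit 1), (nat_lit 92), (nat_lit 75), (nat_lit 100), (nat_lit 246484512)⟩], [], [⟨(nat_lit 2), (nat_lit 54), (nat_lit 96), (nat_lit 100), (nat_lit 550494639)⟩],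
 ⟨⟨[(nat_lit 40), (nat_lit 80), (nat_lit 120)], [(nat_lit 0), (nat_lit 795), (nat_lit 2800)], [((nat_lit 0), (nat_lit 0), (nat_lit 0)), ((nat_lit 1000), (nat_lit 814), (nat_lit 310)), ((nat_lit 1000), (nat_lit 719), (nat_lit 783))], ((nat_lit 71), (nat_lit 100), (nat_lit 71))⟩, (nat_lit 0), (nat_lit 68), (nat_lit 68), (nat_lit 0), (nat_lit 0), [(nat_lit 2434876540), (nat_lit 4688000001), (nat_lit 7968000000)], [], [(nat_lit 22452274682), (nat_lit 24269178876), (nat_lit 23461267036), (nat_lit 25055675632), (nat_lit 25808575686), (nat_lit 27659898414), (nat_lit 26377359435), (nat_lit 27995769835)], (nat_lit 0), (nat_lit 0), (nat_lit 0), (nat_lit 0), (nat_lit 0), (nat_lit 0), [], [(nat_lit 4), (nat_lit 51), (nat_lit 260), (nat_lit 50), (nat_lit 7)]⟩,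
 ⟨⟨[(nat_lit 60), (nat_lit 100), (nat_lit 140)], [(nat_lit 0), (nat_lit 0), (nat_lit 2047)], [((nat_lit 0), (nat_lit 0), (nat_lit 0)), ((nat_lit 0), (nat_lit 0), (nat_lit 0)), ((nat_lit 1000), (nat_lit 993), (nat_lit 781))], ((nat_lit 99), (nat_lit 100), (nat_lit 77))⟩, (nat_lit 0), (nat_lit 86), (nat_lit 86), (nat_lit 0), (nat_lit 0), [(nat_lit 3282000000), (nat_lit 6250000000), (nat_lit 9842000000)], [], [(nat_lit 16920078770), (nat_lit 20461994560), (nat_lit 18534412060), (nat_lit 21572270760), (nat_lit 27990389280), (nat_lit 30705027780), (nat_lit 28130585650), (nat_lit 30475709220)], (nat_lit 0), (nat_lit 0), (nat_lit 0), (nat_lit 0), (nat_lit 0), (nat_lit 0), [], [(nat_lit 11), (nat_lit 55), (nat_lit 373), (nat_lit 150), (nat_lit 10)]⟩,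
 Rw.none⟩)) (.spl (nat_lit 5) (nat_lit 200) (.leaf ⟨(nat_lit 715), (nat_lit 240), (nat_lit 0), (nat_lit 45), (nat_lit 0), (nat_lit 4596), (nat_lit 2624), (nat_lit 631), (nat_lit 0), (nat_lit 0), (nat_lit 178750), [((nat_lit 360), [((nat_lit 22), (nat_lit 0), (nat_lit 715))])], ⟨(nat_lit 7), false, false, false, (nat_lit 219), (nat_lit 3162), (nat_lit 3873), [(nat_lit 1457950), (nat_lit 1466533), (nat_lit 1501479), (nat_lit 1510785), (nat_lit 1587058), (nat_lit 1588504), (nat_lit 1630587), (nat_lit 1632757)]⟩, ⟨(nat_lit 6), false, false, true, (nat_lit 213), (nat_lit 3162), (nat_lit 3873), [(nat_lit 1477347), (nat_lit 1472332), (nat_lit 1499140), (nat_lit 1494487), (nat_lit 1574129), (nat_lit 1563762), (nat_lit 1595923), (nat_lit 1585917)]⟩, (nat_lit 5130343), (nat_lit 40181943), (nat_lit 13688702), (nat_lit 13129355), (nat_lit 6), (nat_lit 0), [⟨(nat_lit 0), (nat_lit 88), (nat_lit 67), (nat_lit 100), (nat_lit 215539894)⟩], [⟨(nat_lit 1), (nat_lit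 100), (nat_lit 71), (nat_lit 100), (nat_lit 353700389)⟩], [], [],
 ⟨⟨[(nat_lit 40), (nat_lit 80), (nat_lit 120)], [(nat_lit 0), (nat_lit 795), (nat_lit 2800)], [((nat_lit 0), (nat_lit 0), (nat_lit 0)), ((nat_lit 1000), (nat_lit 814), (nat_lit 310)), ((nat_lit 1000), (nat_lit 719), (nat_lit 783))], ((nat_lit 71), (nat_lit 100), (nat_lit 71))⟩, (nat_lit 0), (nat_lit 68), (nat_lit 68), (nat_lit 0), (nat_lit 0), [(nat_lit 1803386418), (nat_lit 2745202068), (nat_lit 4210246000)], [(nat_lit 0), (nat_lit 0), (nat_lit 0)], [(nat_lit 21469299870), (nat_lit 22994843568), (nat_lit 22696555526), (nat_lit 24045771952), (nat_lit 24413706654), (nat_lit 25970248714), (nat_lit 25307913522), (nat_lit 26686748767)], (nat_lit 0), (nat_lit 0), (nat_lit 0), (nat_lit 0), (nat_lit 0), (nat_lit 0), [], [(nat_lit 4), (nat_lit 51), (nat_lit 260), (nat_lit 50), (nat_lit 7)]⟩,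
 ⟨⟨[(nat_lit 60), (nat_lit 100), (nat_lit 140)], [(nat_lit 0), (nat_lit 0), (nat_lit 2047)], [((nat_lit 0), (nat_lit 0), (nat_lit 0)), ((nat_lit 0), (nat_lit 0), (nat_lit 0)), ((nat_lit 1000), (nat_lit 993), (nat_lit 781))], ((nat_lit 99), (nat_lit 100), (nat_lit 77))⟩, (nat_lit 667097), (nat_lit 505), (nat_lit 505), (nat_lit 0), (nat_lit 646787), [(nat_lit 935370000), (nat_lit 1781250000), (nat_lit 2804970000)], [], [(nat_lit 7793887464), (nat_lit 8267299043), (nat_lit 7735455211), (nat_lit 8415532939), (nat_lit 7247193184), (nat_lit 6693002156), (nat_lit 10082262452), (nat_lit 7720348884)], (nat_lit 1271251), (nat_lit 1271251), (nat_lit 780000), (nat_lit 1435001), (nat_lit 0), (nat_lit 1412501), [(nat_lit 780000), (nat_lit 1435001), (nat_lit 1271251)], [(nat_lit 11), (nat_lit 55), (nat_lit 317), (nat_lit 100), (nat_lit 9)]⟩,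
 ⟨⟨[(nat_lit 140), (nat_lit 180), (nat_lit 200)], [(nat_lit 0), (nat_lit 0), (nat_lit 2835)], [((nat_lit 0), (nat_lit 0), (nat_lit 0)), ((nat_lit 0), (nat_lit 0), (nat_lit 0)), ((nat_lit 363), (nat_lit 1000), (nat_lit 798))], ((nat_lit 0), (nat_lit 0), (nat_lit 0))⟩, (nat_lit 12381), (nat_lit 300), (nat_lit 1788), (nat_lit 3514500), (nat_lit 2929926), [(nat_lit 442890000), (nat_lit 632610000), (nat_lit 738000000)], [], [(nat_lit 2994351508), (nat_lit 2940370332), (nat_lit 2966789119), (nat_lit 2915371060), (nat_lit 2282387988), (nat_lit 2231467731), (nat_lit 2245555062), (nat_lit 2193185454)], (nat_lit 780000), (nat_lit 936250), (nat_lit 1271251), (nat_lit 1271251), (nat_lit 0), (nat_lit 1412501), [(nat_lit 1977501), (nat_lit 1271251), (nat_lit 1271251)], [(nat_lit 32), (nat_lit 67), (nat_lit 527), (nat_lit 175), (nat_lit 11)]⟩⟩) (.leaf ⟨(nat_lit 0), (nat_lit 827), (nat_lit 0), (nat_lit 173), (nat_lit 0), (nat_lit 6373), (nat_lit 7927), (nat_lit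 1988), (nat_lit 0), (nat_lit 0), (nat_lit 0), [], Pd.none, Pd.none, (nat_lit 0), (nat_lit 1), (nat_lit 0), (nat_lit 0), (nat_lit 6), (nat_lit 0), [⟨(nat_lit 0), (nat_lit 88), (nat_lit 67), (nat_lit 100), (nat_lit 777653113)⟩], [⟨(nat_lit 1), (nat_lit 100), (nat_lit 71), (nat_lit 100), (nat_lit 535937765)⟩], [⟨(nat_lit 1), (nat_lit 82), (nat_lit 92), (nat_lit 100), (nat_lit 250113488)⟩], [],
 ⟨⟨[(nat_lit 40), (nat_lit 80), (nat_lit 120)], [(nat_lit 0), (nat_lit 795), (nat_lit 2800)], [((nat_lit 0), (nat_lit 0), (nat_lit 0)), ((nat_lit 1000), (nat_lit 814), (nat_lit 310)), ((nat_lit 1000), (nat_lit 719), (nat_lit 783))], ((nat_lit 71), (nat_lit 100), (nat_lit 71))⟩, (nat_lit 0), (nat_lit 68), (nat_lit 68), (nat_lit 0), (nat_lit 0), [(nat_lit 2693917359), (nat_lit 4688000006), (nat_lit 7968000000)], [], [(nat_lit 22341409995), (nat_lit 24191967881), (nat_lit 23325191773), (nat_lit 24948035378), (nat_lit 25969690502), (nat_lit 27855061970), (nat_lit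 26490897296), (nat_lit 28146968753)], (nat_lit 0), (nat_lit 0), (nat_lit 0), (nat_lit 0), (nat_lit 0), (nat_lit 0), [], [(nat_lit 4), (nat_lit 51), (nat_lit 260), (nat_lit 50), (nat_lit 7)]⟩,
 ⟨⟨[(nat_lit 60), (nat_lit 100), (nat_lit 140)], [(nat_lit 0), (nat_lit 0), (nat_lit 2047)], [((nat_lit 0), (nat_lit 0), (nat_lit 0)), ((nat_lit 0), (nat_lit 0), (nat_lit 0)), ((nat_lit 1000), (nat_lit 993), (nat_lit 781))], ((nat_lit 99), (nat_lit 100), (nat_lit 77))⟩, (nat_lit 2407035), (nat_lit 374), (nat_lit 374), (nat_lit 0), (nat_lit 646787), [(nat_lit 3282000000), (nat_lit 6250000000), (nat_lit 9842000000)], [], [(nat_lit 24630339703), (nat_lit 26274391583), (nat_lit 24744329888), (nat_lit 26143109769), (nat_lit 29737718951), (nat_lit 30969811873), (nat_lit 29338751649), (nat_lit 30607604823)], (nat_lit 1271251), (nat_lit 1271251), (nat_lit 780000), (nat_lit 1435001), (nat_lit 1271251), (nat_lit 1271251), [(nat_lit 780000), (nat_lit 1435001), (nat_lit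 1271251)], [(nat_lit 11), (nat_lit 55), (nat_lit 373), (nat_lit 150), (nat_lit 10)]⟩,
 ⟨⟨[(nat_lit 140), (nat_lit 180), (nat_lit 200)], [(nat_lit 0), (nat_lit 0), (nat_lit 2835)], [((nat_lit 0), (nat_lit 0), (nat_lit 0)), ((nat_lit 0), (nat_lit 0), (nat_lit 0)), ((nat_lit 363), (nat_lit 1000), (nat_lit 798))], ((nat_lit 0), (nat_lit 0), (nat_lit 0))⟩, (nat_lit 47598), (nat_lit 300), (nat_lit 1672), (nat_lit 13511300), (nat_lit 2929926), [(nat_lit 1702666000), (nat_lit 2432034000), (nat_lit 2837200000)], [], [(nat_lit 10296757956), (nat_lit 10136421481), (nat_lit 10039231838), (nat_lit 9877607423), (nat_lit 9664745884), (nat_lit 9499487598), (nat_lit 9430782315), (nat_lit 9264252551)], (nat_lit 780000), (nat_lit 936250), (nat_lit 1271251), (nat_lit 1271251), (nat_lit 1271251), (nat_lit 1271251), [(nat_lit 1977501), (nat_lit 1271251), (nat_lit 1271251)], [(nat_lit 32), (nat_lit 67), (nat_lit 518), (nat_lit 200), (nat_lit 10)]⟩⟩)))))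
noncomputable def c8_65 : Tr Lf :=
 (.spl (nat_lit 1) (nat_lit 280) (.leaf ⟨(nat_lit 823), (nat_lit 145), (nat_lit 0), (nat_lit 32), (nat_lit 0), (nat_lit 4205), (nat_lit 1735), (nat_lit 356), (nat_lit 0), (nat_lit 0), (nat_lit 205750), [((nat_lit 360), [((nat_lit 22), (nat_lit 0), (nat_lit 823))])], ⟨(nat_lit 6), false, true, false, (nat_lit 251), (nat_lit 3162), (nat_lit 3873), [(nat_lit 1543529), (nat_lit 1544252), (nat_lit 1587058), (nat_lit 1588504), (nat_lit 1672628), (nat_lit 1666215), (nat_lit 1716165), (nat_lit 1710475)]⟩, ⟨(nat_lit 6), false, false, true, (nat_lit 213), (nat_lit 3162), (nat_lit 3873), [(nat_lit 1477347), (nat_lit 1472332), (nat_lit 1499140), (nat_lit 1494487), (nat_lit 1574129), (nat_lit 1563762), (nat_lit 1595923), (nat_lit 1585917)]⟩, (nat_lit 5302173), (nat_lit 37924312), (nat_lit 16461094), (nat_lit 12614594), (nat_lit 6), (nat_lit 0), [], [⟨(nat_lit 1), (nat_lit 100), (nat_lit 71), (nat_lit 100), (nat_lit 280321074)⟩],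 [], [],
 ⟨⟨[(nat_lit 40), (nat_lit 80), (nat_lit 120)], [(nat_lit 0), (nat_lit 795), (nat_lit 2800)], [((nat_lit 0), (nat_lit 0), (nat_lit 0)), ((nat_lit 1000), (nat_lit 814), (nat_lit 310)), ((nat_lit 1000), (nat_lit 719), (nat_lit 783))], ((nat_lit 71), (nat_lit 100), (nat_lit 71))⟩, (nat_lit 0), (nat_lit 56), (nat_lit 56), (nat_lit 0), (nat_lit 0), [(nat_lit 1689637940), (nat_lit 2451744467), (nat_lit 3642641200)], [(nat_lit 0), (nat_lit 0), (nat_lit 0)], [(nat_lit 22692257870), (nat_lit 23981292162), (nat_lit 25265300105), (nat_lit 26370009780), (nat_lit 25204750357), (nat_lit 26365451067), (nat_lit 27513390299), (nat_lit 28639357650)], (nat_lit 0), (nat_lit 0), (nat_lit 0), (nat_lit 0), (nat_lit 0), (nat_lit 0), [], [(nat_lit 4), (nat_lit 51), (nat_lit 289), (nat_lit 75), (nat_lit 8)]⟩,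
 ⟨⟨[(nat_lit 80), (nat_lit 120), (nat_lit 160)], [(nat_lit 0), (nat_lit 0), (nat_lit 2132)], [((nat_lit 0), (nat_lit 0), (nat_lit 0)), ((nat_lit 0), (nat_lit 0), (nat_lit 0)), ((nat_lit 858), (nat_lit 1000), (nat_lit 713))], ((nat_lit 100), (nat_lit 85), (nat_lit 73))⟩, (nat_lit 264920), (nat_lit 511), (nat_lit 511), (nat_lit 0), (nat_lit 534752), [(nat_lit 829776000), (nat_lit 1410336000), (nat_lit 2101344000)], [], [(nat_lit 6121653250), (nat_lit 6373669094), (nat_lit 6419406906), (nat_lit 6611640255), (nat_lit 7427538225), (nat_lit 6137414328), (nat_lit 6126398645), (nat_lit 6279961319)], (nat_lit 1271251), (nat_lit 1271251), (nat_lit 1271251), (nat_lit 1271251), (nat_lit 0), (nat_lit 2683751), [(nat_lit 1100000), (nat_lit 1785001), (nat_lit 1271251)], [(nat_lit 18), (nat_lit 59), (nat_lit 483), (nat_lit 250), (nat_lit 12)]⟩,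
 ⟨⟨[(nat_lit 140), (nat_lit 180), (nat_lit 200)], [(nat_lit 0), (nat_lit 0), (nat_lit 2835)], [((nat_lit 0), (nat_lit 0), (nat_lit 0)), ((nat_lit 0), (nat_lit 0), (nat_lit 0)), ((nat_lit 363), (nat_lit 1000), (nat_lit 798))], ((nat_lit 0), (nat_lit 0), (nat_lit 0))⟩, (nat_lit 8804), (nat_lit 300), (nat_lit 1802), (nat_lit 2499204), (nat_lit 2951389), [(nat_lit 314944000), (nat_lit 449856000), (nat_lit 524800000)], [], [(nat_lit 2332577920), (nat_lit 2302777152), (nat_lit 2288053756), (nat_lit 2257993716), (nat_lit 1850450259), (nat_lit 1918348626), (nat_lit 1794291575), (nat_lit 1765925840)], (nat_lit 780000), (nat_lit 936250), (nat_lit 1271251), (nat_lit 1271251), (nat_lit 0), (nat_lit 2683751), [(nat_lit 1977501), (nat_lit 1271251), (nat_lit 1271251)], [(nat_lit 32), (nat_lit 67), (nat_lit 553), (nat_lit 225), (nat_lit 12)]⟩⟩) (.trX (nat_lit 5) (nat_lit 1) (nat_lit 2) (nat_lit 96) (nat_lit 69) (nat_lit 100) (nat_lit 360) (.stt (nat_lit 2) (.leaf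 ⟨(nat_lit 0), (nat_lit 1000), (nat_lit 0), (nat_lit 0), (nat_lit 4373), (nat_lit 6196), (nat_lit 12032), (nat_lit 0), (nat_lit 0), (nat_lit 0), (nat_lit 0), [], Pd.none, Pd.none, (nat_lit 0), (nat_lit 1), (nat_lit 0), (nat_lit 0), (nat_lit 6), (nat_lit 0), [], [⟨(nat_lit 1), (nat_lit 92), (nat_lit 75), (nat_lit 100), (nat_lit 602011890)⟩], [⟨(nat_lit 1), (nat_lit 82), (nat_lit 92), (nat_lit 100), (nat_lit 175751912)⟩], [],
 ⟨⟨[(nat_lit 40), (nat_lit 80), (nat_lit 120)], [(nat_lit 0), (nat_lit 795), (nat_lit 2800)], [((nat_lit 0), (nat_lit 0), (nat_lit 0)), ((nat_lit 1000), (nat_lit 814), (nat_lit 310)), ((nat_lit 1000), (nat_lit 719), (nat_lit 783))], ((nat_lit 71), (nat_lit 100), (nat_lit 71))⟩, (nat_lit 0), (nat_lit 56), (nat_lit 56), (nat_lit 0), (nat_lit 0), [(nat_lit 2476385409), (nat_lit 4688000030), (nat_lit 7968000000)], [], [(nat_lit 23456090288), (nat_lit 25051576314), (nat_lit 26271968820), (nat_lit 27812919336), (nat_lit 26373606679),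 (nat_lit 28001521967), (nat_lit 29013648121), (nat_lit 30382338780)], (nat_lit 0), (nat_lit 0), (nat_lit 0), (nat_lit 0), (nat_lit 0), (nat_lit 0), [], [(nat_lit 4), (nat_lit 51), (nat_lit 289), (nat_lit 75), (nat_lit 8)]⟩,
 ⟨⟨[(nat_lit 60), (nat_lit 100), (nat_lit 140)], [(nat_lit 0), (nat_lit 0), (nat_lit 2047)], [((nat_lit 0), (nat_lit 0), (nat_lit 0)), ((nat_lit 0), (nat_lit 0), (nat_lit 0)), ((nat_lit 1000), (nat_lit 993), (nat_lit 781))], ((nat_lit 99), (nat_lit 100), (nat_lit 77))⟩, (nat_lit 0), (nat_lit 183), (nat_lit 183), (nat_lit 0), (nat_lit 0), [(nat_lit 3282000000), (nat_lit 6250000000), (nat_lit 9842000000)], [], [(nat_lit 31169232296), (nat_lit 35401780624), (nat_lit 36129983960), (nat_lit 39438705744), (nat_lit 31588414940), (nat_lit 34290811968), (nat_lit 34341686144), (nat_lit 36641010376)], (nat_lit 0), (nat_lit 0), (nat_lit 0), (nat_lit 0), (nat_lit 0), (nat_lit 0), [], [(nat_lit 11), (nat_lit 55), (nat_lit 401), (nat_lit 175),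 (nat_lit 11)]⟩,
 Rw.none⟩) (.leaf ⟨(nat_lit 391), (nat_lit 514), (nat_lit 0), (nat_lit 95), (nat_lit 0), (nat_lit 5473), (nat_lit 4786), (nat_lit 1057), (nat_lit 0), (nat_lit 0), (nat_lit 97750), [((nat_lit 360), [((nat_lit 22), (nat_lit 0), (nat_lit 391))])], ⟨(nat_lit 7), false, true, false, (nat_lit 269), (nat_lit 3162), (nat_lit 3873), [(nat_lit 1587058), (nat_lit 1588504), (nat_lit 1630587), (nat_lit 1632757), (nat_lit 1716165), (nat_lit 1710475), (nat_lit 1759694), (nat_lit 1754728)]⟩, ⟨(nat_lit 6), false, false, true, (nat_lit 213), (nat_lit 3162), (nat_lit 3873), [(nat_lit 1477347), (nat_lit 1472332), (nat_lit 1499140), (nat_lit 1494487), (nat_lit 1574129), (nat_lit 1563762), (nat_lit 1595923), (nat_lit 1585917)]⟩, (nat_lit 5370512), (nat_lit 36724857), (nat_lit 17951911), (nat_lit 12323232), (nat_lit 6), (nat_lit 0), [], [⟨(nat_lit 1), (nat_lit 100), (nat_lit 71), (nat_lit 100), (nat_lit 421655807)⟩], [⟨(nat_lit 1), (nat_lit 82), (nat_lit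 92), (nat_lit 100), (nat_lit 15621954)⟩], [],
 ⟨⟨[(nat_lit 40), (nat_lit 80), (nat_lit 120)], [(nat_lit 0), (nat_lit 795), (nat_lit 2800)], [((nat_lit 0), (nat_lit 0), (nat_lit 0)), ((nat_lit 1000), (nat_lit 814), (nat_lit 310)), ((nat_lit 1000), (nat_lit 719), (nat_lit 783))], ((nat_lit 71), (nat_lit 100), (nat_lit 71))⟩, (nat_lit 0), (nat_lit 56), (nat_lit 56), (nat_lit 0), (nat_lit 0), [(nat_lit 2253733889), (nat_lit 3625574861), (nat_lit 5913060400)], [(nat_lit 0), (nat_lit 0), (nat_lit 0)], [(nat_lit 22928352178), (nat_lit 24412555128), (nat_lit 25813462117), (nat_lit 27288949668), (nat_lit 25891749633), (nat_lit 27407408828), (nat_lit 28468853342), (nat_lit 29749402890)], (nat_lit 0), (nat_lit 0), (nat_lit 0), (nat_lit 0), (nat_lit 0), (nat_lit 0), [], [(nat_lit 4), (nat_lit 51), (nat_lit 289), (nat_lit 75), (nat_lit 8)]⟩,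
 ⟨⟨[(nat_lit 60), (nat_lit 100), (nat_lit 140)], [(nat_lit 0), (nat_lit 0), (nat_lit 2047)], [((nat_lit 0), (nat_lit 0), (nat_lit 0)), ((nat_lit 0), (nat_lit 0), (nat_lit 0)), ((nat_lit 1000), (nat_lit 993), (nat_lit 781))], ((nat_lit 99), (nat_lit 100), (nat_lit 77))⟩, (nat_lit 1369588), (nat_lit 481), (nat_lit 481), (nat_lit 0), (nat_lit 646787), [(nat_lit 1998738000), (nat_lit 3806250000), (nat_lit 5993778000)], [], [(nat_lit 17870382279), (nat_lit 19009900258), (nat_lit 19252781520), (nat_lit 20167987682), (nat_lit 20136469183), (nat_lit 18613591480), (nat_lit 18816871296), (nat_lit 19961801205)], (nat_lit 1271251), (nat_lit 1271251), (nat_lit 1271251), (nat_lit 1271251), (nat_lit 0), (nat_lit 2542501), [(nat_lit 780000), (nat_lit 1435001), (nat_lit 1271251)], [(nat_lit 11), (nat_lit 55), (nat_lit 401), (nat_lit 175), (nat_lit 11)]⟩,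
 ⟨⟨[(nat_lit 140), (nat_lit 180), (nat_lit 200)], [(nat_lit 0), (nat_lit 0), (nat_lit 2835)], [((nat_lit 0), (nat_lit 0), (nat_lit 0)), ((nat_lit 0), (nat_lit 0), (nat_lit 0)), ((nat_lit 363), (nat_lit 1000), (nat_lit 798))], ((nat_lit 0), (nat_lit 0), (nat_lit 0))⟩, (nat_lit 26138), (nat_lit 300), (nat_lit 1788), (nat_lit 7419500), (nat_lit 2929926), [(nat_lit 934990000), (nat_lit 1335510000), (nat_lit 1558000000)], [], [(nat_lit 6924234872), (nat_lit 6835750868), (nat_lit 6792029342), (nat_lit 6702775586), (nat_lit 5505366830), (nat_lit 5505015341), (nat_lit 5344231806), (nat_lit 5256148526)], (nat_lit 780000), (nat_lit 936250), (nat_lit 1271251), (nat_lit 1271251), (nat_lit 0), (nat_lit 2542501), [(nat_lit 1977501), (nat_lit 1271251), (nat_lit 1271251)], [(nat_lit 32), (nat_lit 67), (nat_lit 547), (nat_lit 200), (nat_lit 12)]⟩⟩))))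
def l011 : List St := [⟨⟨(nat_lit 340), (nat_lit 360), (nat_lit 240), (nat_lit 320), (nat_lit 120), (nat_lit 220), (nat_lit 120), (nat_lit 280), (nat_lit 120), (nat_lit 240), (nat_lit 0), (nat_lit 400), (nat_lit 0), (nat_lit 32)⟩, (nat_lit 3), (nat_lit 1), (nat_lit 0), false, false, false⟩,
  ⟨⟨(nat_lit 340), (nat_lit 360), (nat_lit 240), (nat_lit 320), (nat_lit 120), (nat_lit 180), (nat_lit 120), (nat_lit 280), (nat_lit 240), (nat_lit 360), (nat_lit 0), (nat_lit 400), (nat_lit 0), (nat_lit 32)⟩, (nat_lit 3), (nat_lit 1), (nat_lit 0), false, false, false⟩,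
  ⟨⟨(nat_lit 340), (nat_lit 360), (nat_lit 240), (nat_lit 320), (nat_lit 180), (nat_lit 220), (nat_lit 120), (nat_lit 280), (nat_lit 240), (nat_lit 360), (nat_lit 0), (nat_lit 400), (nat_lit 0), (nat_lit 32)⟩, (nat_lit 3), (nat_lit 1), (nat_lit 0), false, false, false⟩,
  ⟨⟨(nat_lit 340), (nat_lit 360), (nat_lit 240), (nat_lit 320), (nat_lit 120), (nat_lit 220), (nat_lit 280), (nat_lit 400), (nat_lit 120), (nat_lit 360), (nat_lit 0), (nat_lit 400), (nat_lit 0), (nat_lit 32)⟩, (nat_lit 3), (nat_lit 1), (nat_lit 0), false, false, false⟩,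
  ⟨⟨(nat_lit 340), (nat_lit 360), (nat_lit 240), (nat_lit 320), (nat_lit 120), (nat_lit 180), (nat_lit 120), (nat_lit 280), (nat_lit 120), (nat_lit 240), (nat_lit 0), (nat_lit 400), (nat_lit 0), (nat_lit 32)⟩, (nat_lit 3), (nat_lit 0), (nat_lit 1), false, false, false⟩,
  ⟨⟨(nat_lit 340), (nat_lit 360), (nat_lit 240), (nat_lit 320), (nat_lit 120), (nat_lit 180), (nat_lit 120), (nat_lit 280), (nat_lit 120), (nat_lit 240), (nat_lit 0), (nat_lit 400), (nat_lit 0), (nat_lit 32)⟩, (nat_lit 3), (nat_lit 1), (nat_lit 1), false, false, false⟩,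
  ⟨⟨(nat_lit 340), (nat_lit 360), (nat_lit 240), (nat_lit 280), (nat_lit 120), (nat_lit 180), (nat_lit 120), (nat_lit 280), (nat_lit 240), (nat_lit 330), (nat_lit 0), (nat_lit 400), (nat_lit 0), (nat_lit 32)⟩, (nat_lit 3), (nat_lit 0), (nat_lit 1), false, false, false⟩,
  ⟨⟨(nat_lit 340), (nat_lit 360), (nat_lit 280), (nat_lit 320), (nat_lit 120), (nat_lit 180), (nat_lit 120), (nat_lit 280), (nat_lit 240), (nat_lit 330), (nat_lit 0), (nat_lit 400), (nat_lit 0), (nat_lit 32)⟩, (nat_lit 3), (nat_lit 0), (nat_lit 1), false, false, false⟩,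
  ⟨⟨(nat_lit 340), (nat_lit 360), (nat_lit 240), (nat_lit 320), (nat_lit 120), (nat_lit 140), (nat_lit 120), (nat_lit 200), (nat_lit 240), (nat_lit 320), (nat_lit 0), (nat_lit 390), (nat_lit 0), (nat_lit 32)⟩, (nat_lit 0), (nat_lit 1), (nat_lit 1), false, false, false⟩,
  ⟨⟨(nat_lit 340), (nat_lit 360), (nat_lit 240), (nat_lit 320), (nat_lit 140), (nat_lit 160), (nat_lit 120), (nat_lit 200), (nat_lit 240), (nat_lit 320), (nat_lit 0), (nat_lit 390), (nat_lit 0), (nat_lit 32)⟩, (nat_lit 0), (nat_lit 1), (nat_lit 1), false, false, false⟩,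
  ⟨⟨(nat_lit 340), (nat_lit 360), (nat_lit 240), (nat_lit 320), (nat_lit 120), (nat_lit 160), (nat_lit 200), (nat_lit 280), (nat_lit 240), (nat_lit 320), (nat_lit 0), (nat_lit 390), (nat_lit 0), (nat_lit 32)⟩, (nat_lit 0), (nat_lit 1), (nat_lit 1), false, false, false⟩,
  ⟨⟨(nat_lit 340), (nat_lit 360), (nat_lit 240), (nat_lit 280), (nat_lit 160), (nat_lit 180), (nat_lit 120), (nat_lit 280), (nat_lit 240), (nat_lit 330), (nat_lit 0), (nat_lit 400), (nat_lit 0), (nat_lit 32)⟩, (nat_lit 0), (nat_lit 1), (nat_lit 1), false, false, false⟩,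
  ⟨⟨(nat_lit 340), (nat_lit 360), (nat_lit 280), (nat_lit 320), (nat_lit 160), (nat_lit 180), (nat_lit 120), (nat_lit 280), (nat_lit 240), (nat_lit 330), (nat_lit 0), (nat_lit 400), (nat_lit 0), (nat_lit 32)⟩, (nat_lit 0), (nat_lit 1), (nat_lit 1), false, false, false⟩,
  ⟨⟨(nat_lit 340), (nat_lit 360), (nat_lit 240), (nat_lit 320), (nat_lit 120), (nat_lit 180), (nat_lit 120), (nat_lit 280), (nat_lit 240), (nat_lit 330), (nat_lit 0), (nat_lit 400), (nat_lit 0), (nat_lit 32)⟩, (nat_lit 1), (nat_lit 1), (nat_lit 1), false, false, false⟩,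
  ⟨⟨(nat_lit 340), (nat_lit 360), (nat_lit 240), (nat_lit 320), (nat_lit 180), (nat_lit 220), (nat_lit 120), (nat_lit 280), (nat_lit 120), (nat_lit 240), (nat_lit 0), (nat_lit 400), (nat_lit 0), (nat_lit 32)⟩, (nat_lit 3), (nat_lit 3), (nat_lit 1), false, false, false⟩,
  ⟨⟨(nat_lit 340), (nat_lit 360), (nat_lit 240), (nat_lit 320), (nat_lit 180), (nat_lit 220), (nat_lit 120), (nat_lit 280), (nat_lit 240), (nat_lit 360), (nat_lit 0), (nat_lit 400), (nat_lit 0), (nat_lit 32)⟩, (nat_lit 3), (nat_lit 0), (nat_lit 1), false, false, false⟩,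
  ⟨⟨(nat_lit 340), (nat_lit 360), (nat_lit 240), (nat_lit 280), (nat_lit 180), (nat_lit 220), (nat_lit 120), (nat_lit 200), (nat_lit 240), (nat_lit 320), (nat_lit 0), (nat_lit 400), (nat_lit 0), (nat_lit 32)⟩, (nat_lit 3), (nat_lit 1), (nat_lit 1), false, false, false⟩,
  ⟨⟨(nat_lit 340), (nat_lit 360), (nat_lit 240), (nat_lit 280), (nat_lit 180), (nat_lit 220), (nat_lit 120), (nat_lit 200), (nat_lit 320), (nat_lit 360), (nat_lit 0), (nat_lit 400), (nat_lit 0), (nat_lit 32)⟩, (nat_lit 3), (nat_lit 1), (nat_lit 1), false, false, false⟩,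
  ⟨⟨(nat_lit 340), (nat_lit 360), (nat_lit 280), (nat_lit 320), (nat_lit 180), (nat_lit 220), (nat_lit 120), (nat_lit 200), (nat_lit 240), (nat_lit 360), (nat_lit 0), (nat_lit 400), (nat_lit 0), (nat_lit 32)⟩, (nat_lit 3), (nat_lit 1), (nat_lit 1), false, false, false⟩,
  ⟨⟨(nat_lit 340), (nat_lit 360), (nat_lit 240), (nat_lit 320), (nat_lit 180), (nat_lit 220), (nat_lit 200), (nat_lit 280), (nat_lit 240), (nat_lit 360), (nat_lit 0), (nat_lit 400), (nat_lit 0), (nat_lit 32)⟩, (nat_lit 3), (nat_lit 1), (nat_lit 1), false, false, false⟩,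
  ⟨⟨(nat_lit 340), (nat_lit 360), (nat_lit 240), (nat_lit 320), (nat_lit 120), (nat_lit 180), (nat_lit 280), (nat_lit 400), (nat_lit 120), (nat_lit 330), (nat_lit 0), (nat_lit 400), (nat_lit 0), (nat_lit 32)⟩, (nat_lit 3), (nat_lit 0), (nat_lit 1), false, false, false⟩,
  ⟨⟨(nat_lit 340), (nat_lit 360), (nat_lit 240), (nat_lit 280), (nat_lit 120), (nat_lit 180), (nat_lit 280), (nat_lit 400), (nat_lit 120), (nat_lit 240), (nat_lit 0), (nat_lit 400), (nat_lit 0), (nat_lit 32)⟩, (nat_lit 3), (nat_lit 1), (nat_lit 1), false, false, false⟩,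
  ⟨⟨(nat_lit 340), (nat_lit 360), (nat_lit 280), (nat_lit 320), (nat_lit 120), (nat_lit 180), (nat_lit 280), (nat_lit 360), (nat_lit 120), (nat_lit 240), (nat_lit 0), (nat_lit 380), (nat_lit 0), (nat_lit 32)⟩, (nat_lit 3), (nat_lit 1), (nat_lit 1), false, false, false⟩,
  ⟨⟨(nat_lit 340), (nat_lit 360), (nat_lit 280), (nat_lit 320), (nat_lit 120), (nat_lit 180), (nat_lit 360), (nat_lit 400), (nat_lit 120), (nat_lit 240), (nat_lit 0), (nat_lit 380), (nat_lit 0), (nat_lit 32)⟩, (nat_lit 3), (nat_lit 1), (nat_lit 1), false, false, false⟩,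
  ⟨⟨(nat_lit 340), (nat_lit 360), (nat_lit 240), (nat_lit 280), (nat_lit 120), (nat_lit 160), (nat_lit 280), (nat_lit 400), (nat_lit 240), (nat_lit 320), (nat_lit 30), (nat_lit 390), (nat_lit 0), (nat_lit 32)⟩, (nat_lit 3), (nat_lit 1), (nat_lit 1), false, false, false⟩,
  ⟨⟨(nat_lit 340), (nat_lit 360), (nat_lit 280), (nat_lit 320), (nat_lit 120), (nat_lit 160), (nat_lit 280), (nat_lit 400), (nat_lit 240), (nat_lit 320), (nat_lit 30), (nat_lit 390), (nat_lit 0), (nat_lit 32)⟩, (nat_lit 3), (nat_lit 1), (nat_lit 1), false, false, false⟩,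
  ⟨⟨(nat_lit 340), (nat_lit 360), (nat_lit 240), (nat_lit 320), (nat_lit 160), (nat_lit 180), (nat_lit 280), (nat_lit 400), (nat_lit 240), (nat_lit 330), (nat_lit 30), (nat_lit 400), (nat_lit 0), (nat_lit 32)⟩, (nat_lit 3), (nat_lit 1), (nat_lit 1), false, false, false⟩,
  ⟨⟨(nat_lit 340), (nat_lit 360), (nat_lit 240), (nat_lit 320), (nat_lit 180), (nat_lit 220), (nat_lit 280), (nat_lit 400), (nat_lit 120), (nat_lit 360), (nat_lit 0), (nat_lit 400), (nat_lit 0), (nat_lit 32)⟩, (nat_lit 3), (nat_lit 3), (nat_lit 1), false, false, false⟩,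
  ⟨⟨(nat_lit 340), (nat_lit 360), (nat_lit 240), (nat_lit 320), (nat_lit 120), (nat_lit 180), (nat_lit 120), (nat_lit 200), (nat_lit 120), (nat_lit 240), (nat_lit 0), (nat_lit 400), (nat_lit 32), (nat_lit 60)⟩, (nat_lit 0), (nat_lit 3), (nat_lit 3), false, false, false⟩,
  ⟨⟨(nat_lit 340), (nat_lit 360), (nat_lit 240), (nat_lit 320), (nat_lit 120), (nat_lit 180), (nat_lit 200), (nat_lit 280), (nat_lit 120), (nat_lit 240), (nat_lit 0), (nat_lit 400), (nat_lit 32), (nat_lit 60)⟩, (nat_lit 0), (nat_lit 3), (nat_lit 3), false, false, false⟩,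
  ⟨⟨(nat_lit 340), (nat_lit 360), (nat_lit 240), (nat_lit 320), (nat_lit 120), (nat_lit 180), (nat_lit 120), (nat_lit 280), (nat_lit 120), (nat_lit 240), (nat_lit 0), (nat_lit 400), (nat_lit 32), (nat_lit 60)⟩, (nat_lit 1), (nat_lit 3), (nat_lit 3), false, false, false⟩,
  ⟨⟨(nat_lit 340), (nat_lit 360), (nat_lit 240), (nat_lit 320), (nat_lit 120), (nat_lit 140), (nat_lit 120), (nat_lit 200), (nat_lit 240), (nat_lit 300), (nat_lit 0), (nat_lit 380), (nat_lit 32), (nat_lit 60)⟩, (nat_lit 0), (nat_lit 3), (nat_lit 3), false, false, false⟩,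
  ⟨⟨(nat_lit 340), (nat_lit 360), (nat_lit 240), (nat_lit 320), (nat_lit 120), (nat_lit 140), (nat_lit 200), (nat_lit 280), (nat_lit 240), (nat_lit 300), (nat_lit 0), (nat_lit 380), (nat_lit 32), (nat_lit 60)⟩, (nat_lit 0), (nat_lit 3), (nat_lit 3), false, false, false⟩]
theorem t011 (h : EC env Ei) : ∀ τ ∈ l011, Dead τ :=
  List.forall_mem_cons.mpr ⟨chkT_sound0 h (T := c8_33) (by decide +kernel),
  List.forall_mem_cons.mpr ⟨chkT_sound0 h (T := c8_34) (by decide +kernel),
  List.forall_mem_cons.mpr ⟨chkT_sound0 h (T := c8_35) (by decide +kernel),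
  List.forall_mem_cons.mpr ⟨chkT_sound0 h (T := c8_36) (by decide +kernel),
  List.forall_mem_cons.mpr ⟨chkT_sound0 h (T := c8_37) (by decide +kernel),
  List.forall_mem_cons.mpr ⟨chkT_sound0 h (T := c8_38) (by decide +kernel),
  List.forall_mem_cons.mpr ⟨chkT_sound0 h (T := c8_39) (by decide +kernel),
  List.forall_mem_cons.mpr ⟨chkT_sound0 h (T := c8_40) (by decide +kernel),
  List.forall_mem_cons.mpr ⟨chkT_sound0 h (T := c8_41) (by decide +kernel),
  List.forall_mem_cons.mpr ⟨chkT_sound0 h (T := c8_42) (by decide +kernel),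
  List.forall_mem_cons.mpr ⟨chkT_sound0 h (T := c8_43) (by decide +kernel),
  List.forall_mem_cons.mpr ⟨chkT_sound0 h (T := c8_44) (by decide +kernel),
  List.forall_mem_cons.mpr ⟨chkT_sound0 h (T := c8_45) (by decide +kernel),
  List.forall_mem_cons.mpr ⟨chkT_sound0 h (T := c8_46) (by decide +kernel),
  List.forall_mem_cons.mpr ⟨chkT_sound0 h (T := c8_47) (by decide +kernel),
  List.forall_mem_cons.mpr ⟨chkT_sound0 h (T := c8_48) (by decide +kernel),
  List.forall_mem_cons.mpr ⟨chkT_sound0 h (T := c8_49) (by decide +kernel),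
  List.forall_mem_cons.mpr ⟨chkT_sound0 h (T := c8_50) (by decide +kernel),
  List.forall_mem_cons.mpr ⟨chkT_sound0 h (T := c8_51) (by decide +kernel),
  List.forall_mem_cons.mpr ⟨chkT_sound0 h (T := c8_52) (by decide +kernel),
  List.forall_mem_cons.mpr ⟨chkT_sound0 h (T := c8_53) (by decide +kernel),
  List.forall_mem_cons.mpr ⟨chkT_sound0 h (T := c8_54) (by decide +kernel),
  List.forall_mem_cons.mpr ⟨chkT_sound0 h (T := c8_55) (by decide +kernel),
  List.forall_mem_cons.mpr ⟨chkT_sound0 h (T := c8_56) (by decide +kernel),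
  List.forall_mem_cons.mpr ⟨chkT_sound0 h (T := c8_57) (by decide +kernel),
  List.forall_mem_cons.mpr ⟨chkT_sound0 h (T := c8_58) (by decide +kernel),
  List.forall_mem_cons.mpr ⟨chkT_sound0 h (T := c8_59) (by decide +kernel),
  List.forall_mem_cons.mpr ⟨chkT_sound0 h (T := c8_60) (by decide +kernel),
  List.forall_mem_cons.mpr ⟨chkT_sound0 h (T := c8_61) (by decide +kernel),
  List.forall_mem_cons.mpr ⟨chkT_sound0 h (T := c8_62) (by decide +kernel),
  List.forall_mem_cons.mpr ⟨chkT_sound0 h (T := c8_63) (by decide +kernel),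
  List.forall_mem_cons.mpr ⟨chkT_sound0 h (T := c8_64) (by decide +kernel),
  List.forall_mem_cons.mpr ⟨chkT_sound0 h (T := c8_65) (by decide +kernel),
  List.forall_mem_nil _⟩⟩⟩⟩⟩⟩⟩⟩⟩⟩⟩⟩⟩⟩⟩⟩⟩⟩⟩⟩⟩⟩⟩⟩⟩⟩⟩⟩⟩⟩⟩⟩⟩
end TC
end Pool.Agent.Lib.MP_6947cd_al
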