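import Pool.Agent.Lib.MP_6947cd_al.C.LeafF
import Pool.Agent.Lib.MP_6947cd_al.TC.E
import Pool.Agent.Lib.MP_6947cd_al.TC.F

/-!
Problem MP_6947cd_al (Chollet).  CASE C, tables and certificates.  Trees of leaves (part 12 of root 8).
-/

set_option autoImplicit false
set_option linter.all false
set_option maxRecDepth 100000
set_option maxHeartbeats 4000000
namespace Pool.Agent.Lib.MP_6947cd_al
namespace TC
open C1
noncomputable def c8_66 : Tr Lf :=
 (.spl (nat_lit 3) (nat_lit 200) (.spl (nat_lit 5) (nat_lit 120) (.spl (nat_lit 1) (nat_lit 260) (.leaf ⟨(nat_lit 941), (nat_lit 46), (nat_lit 0), (nat_lit 13), (nat_lit 5259), (nat_lit 3833), (nat_lit 430), (nat_lit 181), (nat_lit 0), (nat_lit 0), (nat_lit 235250), [((nat_lit 360), [((nat_lit 22), (nat_lit 0), (nat_lit 941))])], ⟨(nat_lit 6), false, false, false, (nat_lit 197), (nat_lit 3162), (nat_lit 3873), [(nat_lit 1414421), (nat_lit 1422280), (nat_lit 1436185), (nat_lit 1444407), (nat_lit 1543529),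 (nat_lit 1544252), (nat_lit 1565293), (nat_lit 1566378)]⟩, ⟨(nat_lit 6), false, false, true, (nat_lit 228), (nat_lit 3162), (nat_lit 3873), [(nat_lit 1499140), (nat_lit 1494487), (nat_lit 1520934), (nat_lit 1516642), (nat_lit 1628183), (nat_lit 1616394), (nat_lit 1649977), (nat_lit 1638549)]⟩, (nat_lit 5074799), (nat_lit 40601091), (nat_lit 11647164), (nat_lit 14751745), (nat_lit 6), (nat_lit 0), [], [⟨(nat_lit 1), (nat_lit 92), (nat_lit 68), (nat_lit 100), (nat_lit 311627752)⟩], [⟨(nat_lit 0), (nat_lit 100), (nat_lit 97), (nat_lit 11), (nat_lit 5273295)⟩], [],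
 ⟨⟨[(nat_lit 40), (nat_lit 80), (nat_lit 120)], [(nat_lit 0), (nat_lit 795), (nat_lit 2800)], [((nat_lit 0), (nat_lit 0), (nat_lit 0)), ((nat_lit 1000), (nat_lit 814), (nat_lit 310)), ((nat_lit 1000), (nat_lit 719), (nat_lit 783))], ((nat_lit 71), (nat_lit 100), (nat_lit 71))⟩, (nat_lit 0), (nat_lit 73), (nat_lit 73), (nat_lit 0), (nat_lit 0), [(nat_lit 1584861516), (nat_lit 2131114831), (nat_lit 3022480400)], [(nat_lit 0), (nat_lit 0), (nat_lit 0)], [(nat_lit 21324138139), (nat_lit 22700930206), (nat_lit 22659396391), (nat_lit 23878513538), (nat_lit 24976757642), (nat_lit 26144265333), (nat_lit 25895826932), (nat_lit 26934267417)], (nat_lit 0), (nat_lit 0), (nat_lit 0), (nat_lit 0), (nat_lit 0), (nat_lit 0), [], [(nat_lit 4), (nat_lit 51), (nat_lit 260), (nat_lit 50), (nat_lit 7)]⟩,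
 ⟨⟨[(nat_lit 80), (nat_lit 120), (nat_lit 160)], [(nat_lit 0), (nat_lit 0), (nat_lit 2132)], [((nat_lit 0), (nat_lit 0), (nat_lit 0)), ((nat_lit 0), (nat_lit 0), (nat_lit 0)), ((nat_lit 858), (nat_lit 1000), (nat_lit 713))], ((nat_lit 100), (nat_lit 85), (nat_lit 73))⟩, (nat_lit 171930), (nat_lit 400), (nat_lit 400), (nat_lit 0), (nat_lit 296784), [(nat_lit 276592000), (nat_lit 470112000), (nat_lit 700448000)], [], [(nat_lit 2130689760), (nat_lit 1909107007), (nat_lit 2184529168), (nat_lit 1980477613), (nat_lit 2020924102), (nat_lit 1819585095), (nat_lit 2496750028), (nat_lit 2300690776)], (nat_lit 1271251), (nat_lit 1271251), (nat_lit 780000), (nat_lit 1435001), (nat_lit 0), (nat_lit 780000), [(nat_lit 1100000), (nat_lit 1785001), (nat_lit 1271251)], [(nat_lit 18), (nat_lit 59), (nat_lit 373), (nat_lit 150), (nat_lit 10)]⟩,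
 ⟨⟨[(nat_lit 140), (nat_lit 180), (nat_lit 200)], [(nat_lit 0), (nat_lit 608), (nat_lit 3317)], [((nat_lit 0), (nat_lit 0), (nat_lit 0)), ((nat_lit 913), (nat_lit 1000), (nat_lit 217)), ((nat_lit 385), (nat_lit 1000), (nat_lit 814))], ((nat_lit 0), (nat_lit 0), (nat_lit 0))⟩, (nat_lit 30020), (nat_lit 300), (nat_lit 842), (nat_lit 913900), (nat_lit 862969), [(nat_lit 127946000), (nat_lit 182754000), (nat_lit 213200000)], [], [(nat_lit 790298504), (nat_lit 774887976), (nat_lit 805730862), (nat_lit 790744116), (nat_lit 639310306), (nat_lit 624740660), (nat_lit 641299999), (nat_lit 627506086)], (nat_lit 936250), (nat_lit 1100000), (nat_lit 1271251), (nat_lit 1271251), (nat_lit 0), (nat_lit 780000), [(nat_lit 1977501), (nat_lit 1271251), (nat_lit 1271251)], [(nat_lit 32), (nat_lit 67), (nat_lit 373), (nat_lit 150), (nat_lit 8)]⟩⟩) (.leaf ⟨(nat_lit 0), (nat_lit 850), (nat_lit 0), (nat_lit 150), (nat_lit 3085), (nat_lit 6035), (nat_lit 7123), (nat_lit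 2123), (nat_lit 0), (nat_lit 0), (nat_lit 0), [], Pd.none, Pd.none, (nat_lit 0), (nat_lit 1), (nat_lit 0), (nat_lit 0), (nat_lit 6), (nat_lit 0), [⟨(nat_lit 0), (nat_lit 100), (nat_lit 71), (nat_lit 100), (nat_lit 260302744)⟩], [⟨(nat_lit 1), (nat_lit 92), (nat_lit 68), (nat_lit 100), (nat_lit 552608829)⟩], [], [],
 ⟨⟨[(nat_lit 40), (nat_lit 80), (nat_lit 120)], [(nat_lit 0), (nat_lit 795), (nat_lit 2800)], [((nat_lit 0), (nat_lit 0), (nat_lit 0)), ((nat_lit 1000), (nat_lit 814), (nat_lit 310)), ((nat_lit 1000), (nat_lit 719), (nat_lit 783))], ((nat_lit 71), (nat_lit 100), (nat_lit 71))⟩, (nat_lit 0), (nat_lit 73), (nat_lit 73), (nat_lit 0), (nat_lit 0), [(nat_lit 2539375604), (nat_lit 4688000001), (nat_lit 7968000000)], [], [(nat_lit 22545063609), (nat_lit 24333801126), (nat_lit 23575156119), (nat_lit 25145861266), (nat_lit 26966775346), (nat_lit 28688678535), (nat_lit 27421508896), (nat_lit 28910009715)], (nat_lit 0), (nat_lit 0), (nat_lit 0),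 (nat_lit 0), (nat_lit 0), (nat_lit 0), [], [(nat_lit 4), (nat_lit 51), (nat_lit 260), (nat_lit 50), (nat_lit 7)]⟩,
 ⟨⟨[(nat_lit 80), (nat_lit 120), (nat_lit 160)], [(nat_lit 0), (nat_lit 528), (nat_lit 2577)], [((nat_lit 0), (nat_lit 0), (nat_lit 0)), ((nat_lit 1000), (nat_lit 959), (nat_lit 206)), ((nat_lit 929), (nat_lit 1000), (nat_lit 742))], ((nat_lit 100), (nat_lit 92), (nat_lit 75))⟩, (nat_lit 2631262), (nat_lit 425), (nat_lit 425), (nat_lit 0), (nat_lit 353533), [(nat_lit 4688000000), (nat_lit 7968000000), (nat_lit 11872000000)], [], [(nat_lit 30962905661), (nat_lit 31579407071), (nat_lit 32373461039), (nat_lit 31958525458), (nat_lit 29719586741), (nat_lit 27736507157), (nat_lit 37748522705), (nat_lit 34500778390)], (nat_lit 1271251), (nat_lit 1271251), (nat_lit 780000), (nat_lit 1435001), (nat_lit 0), (nat_lit 780000), [(nat_lit 1100000), (nat_lit 1785001), (nat_lit 1271251)], [(nat_lit 18), (nat_lit 59), (nat_lit 373), (nat_lit 150), (nat_lit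 10)]⟩,
 ⟨⟨[(nat_lit 140), (nat_lit 180), (nat_lit 200)], [(nat_lit 0), (nat_lit 608), (nat_lit 3317)], [((nat_lit 0), (nat_lit 0), (nat_lit 0)), ((nat_lit 913), (nat_lit 1000), (nat_lit 217)), ((nat_lit 385), (nat_lit 1000), (nat_lit 814))], ((nat_lit 0), (nat_lit 0), (nat_lit 0))⟩, (nat_lit 297443), (nat_lit 300), (nat_lit 969), (nat_lit 10710304), (nat_lit 1167843), [(nat_lit 1476300000), (nat_lit 2108700000), (nat_lit 2460000000)], [], [(nat_lit 9172504866), (nat_lit 9010089608), (nat_lit 9368369554), (nat_lit 9191755956), (nat_lit 7397986838), (nat_lit 7226384114), (nat_lit 7435812401), (nat_lit 7273211732)], (nat_lit 936250), (nat_lit 1100000), (nat_lit 1271251), (nat_lit 1271251), (nat_lit 0), (nat_lit 780000), [(nat_lit 1977501), (nat_lit 1271251), (nat_lit 1271251)], [(nat_lit 32), (nat_lit 67), (nat_lit 373), (nat_lit 150), (nat_lit 8)]⟩⟩)) (.spl (nat_lit 3) (nat_lit 160) (.leaf ⟨(nat_lit 914), (nat_lit 35), (nat_lit 0), (nat_lit 51), (nat_lit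 0), (nat_lit 3971), (nat_lit 1320), (nat_lit 544), (nat_lit 0), (nat_lit 0), (nat_lit 228500), [((nat_lit 360), [((nat_lit 22), (nat_lit 0), (nat_lit 914))])], ⟨(nat_lit 6), false, false, false, (nat_lit 189), (nat_lit 3162), (nat_lit 3873), [(nat_lit 1414421), (nat_lit 1422280), (nat_lit 1457950), (nat_lit 1466533), (nat_lit 1478975), (nat_lit 1483267), (nat_lit 1522504), (nat_lit 1527519)]⟩, ⟨(nat_lit 6), false, false, true, (nat_lit 228), (nat_lit 3162), (nat_lit 3873), [(nat_lit 1499140), (nat_lit 1494487), (nat_lit 1520934), (nat_lit 1516642), (nat_lit 1628183), (nat_lit 1616394), (nat_lit 1649977), (nat_lit 1638549)]⟩, (nat_lit 5013278), (nat_lit 41136241), (nat_lit 10984843), (nat_lit 14878916), (nat_lit 6), (nat_lit 0), [⟨(nat_lit 0), (nat_lit 100), (nat_lit 69), (nat_lit 96), (nat_lit 51235658)⟩], [⟨(nat_lit 1), (nat_lit 92), (nat_lit 68), (nat_lit 100), (nat_lit 272554816)⟩], [], [],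
 ⟨⟨[(nat_lit 40), (nat_lit 80), (nat_lit 120)], [(nat_lit 0), (nat_lit 795), (nat_lit 2800)], [((nat_lit 0), (nat_lit 0), (nat_lit 0)), ((nat_lit 1000), (nat_lit 814), (nat_lit 310)), ((nat_lit 1000), (nat_lit 719), (nat_lit 783))], ((nat_lit 71), (nat_lit 100), (nat_lit 71))⟩, (nat_lit 0), (nat_lit 73), (nat_lit 73), (nat_lit 0), (nat_lit 0), [(nat_lit 1606155357), (nat_lit 2204479214), (nat_lit 3164381600)], [(nat_lit 0), (nat_lit 0), (nat_lit 0)], [(nat_lit 21305155454), (nat_lit 22716386339), (nat_lit 21597724665), (nat_lit 22936221408), (nat_lit 25014596271), (nat_lit 26303724471), (nat_lit 25122402423), (nat_lit 26275515626)], (nat_lit 0), (nat_lit 0), (nat_lit 0), (nat_lit 0), (nat_lit 0), (nat_lit 0), [], [(nat_lit 4), (nat_lit 51), (nat_lit 249), (nat_lit 40), (nat_lit 7)]⟩,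
 ⟨⟨[(nat_lit 80), (nat_lit 120), (nat_lit 160)], [(nat_lit 0), (nat_lit 0), (nat_lit 2132)], [((nat_lit 0), (nat_lit 0), (nat_lit 0)), ((nat_lit 0), (nat_lit 0), (nat_lit 0)), ((nat_lit 858), (nat_lit 1000), (nat_lit 713))], ((nat_lit 100), (nat_lit 85), (nat_lit 73))⟩, (nat_lit 0), (nat_lit 374), (nat_lit 374), (nat_lit 0), (nat_lit 445775), [(nat_lit 403168000), (nat_lit 685248000), (nat_lit 1020992000)], [], [(nat_lit 1868429278), (nat_lit 2254964956), (nat_lit 1773749672), (nat_lit 2133474872), (nat_lit 4599474952), (nat_lit 3522782688), (nat_lit 5191822232), (nat_lit 4015371902)], (nat_lit 1271251), (nat_lit 1271251), (nat_lit 780000), (nat_lit 1100000), (nat_lit 780000), (nat_lit 2990626), [(nat_lit 1100000), (nat_lit 1785001), (nat_lit 1271251)], [(nat_lit 18), (nat_lit 59), (nat_lit 456), (nat_lit 225), (nat_lit 11)]⟩,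
 ⟨⟨[(nat_lit 140), (nat_lit 180), (nat_lit 200)], [(nat_lit 0), (nat_lit 608), (nat_lit 3317)], [((nat_lit 0), (nat_lit 0), (nat_lit 0)), ((nat_lit 913), (nat_lit 1000), (nat_lit 217)), ((nat_lit 385), (nat_lit 1000), (nat_lit 814))], ((nat_lit 0), (nat_lit 0), (nat_lit 0))⟩, (nat_lit 117770), (nat_lit 300), (nat_lit 1163), (nat_lit 3585300), (nat_lit 1790136), [(nat_lit 501942000), (nat_lit 716958000), (nat_lit 836400000)], [], [(nat_lit 3005945678), (nat_lit 2962579936), (nat_lit 2923170434), (nat_lit 2879294692), (nat_lit 2674120791), (nat_lit 2629508235), (nat_lit 2613137495), (nat_lit 2567431035)], (nat_lit 936250), (nat_lit 1100000), (nat_lit 1271251), (nat_lit 1271251), (nat_lit 780000), (nat_lit 2990626), [(nat_lit 1977501), (nat_lit 1271251), (nat_lit 1271251)], [(nat_lit 32), (nat_lit 67), (nat_lit 456), (nat_lit 225), (nat_lit 9)]⟩⟩) (.leaf ⟨(nat_lit 945), (nat_lit 9), (nat_lit 0), (nat_lit 46), (nat_lit 0), (nat_lit 3895), (nat_lit 667),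 (nat_lit 473), (nat_lit 0), (nat_lit 0), (nat_lit 236250), [((nat_lit 360), [((nat_lit 22), (nat_lit 0), (nat_lit 945))])], ⟨(nat_lit 6), false, false, false, (nat_lit 214), (nat_lit 3162), (nat_lit 3873), [(nat_lit 1478975), (nat_lit 1483267), (nat_lit 1522504), (nat_lit 1527519), (nat_lit 1543529), (nat_lit 1544252), (nat_lit 1587058), (nat_lit 1588504)]⟩, ⟨(nat_lit 6), false, false, true, (nat_lit 228), (nat_lit 3162), (nat_lit 3873), [(nat_lit 1499140), (nat_lit 1494487), (nat_lit 1520934), (nat_lit 1516642), (nat_lit 1628183), (nat_lit 1616394), (nat_lit 1649977), (nat_lit 1638549)]⟩, (nat_lit 5190145), (nat_lit 39486355), (nat_lit 13036815), (nat_lit 14476830), (nat_lit 6), (nat_lit 0), [], [⟨(nat_lit 1), (nat_lit 92), (nat_lit 68), (nat_lit 100), (nat_lit 237303953)⟩], [], [],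
 ⟨⟨[(nat_lit 40), (nat_lit 80), (nat_lit 120)], [(nat_lit 0), (nat_lit 795), (nat_lit 2800)], [((nat_lit 0), (nat_lit 0), (nat_lit 0)), ((nat_lit 1000), (nat_lit 814), (nat_lit 310)), ((nat_lit 1000), (nat_lit 719), (nat_lit 783))], ((nat_lit 71), (nat_lit 100), (nat_lit 71))⟩, (nat_lit 0), (nat_lit 61), (nat_lit 61), (nat_lit 0), (nat_lit 0), [(nat_lit 1594885153), (nat_lit 2120246002), (nat_lit 3001458000)], [(nat_lit 0), (nat_lit 0), (nat_lit 0)], [(nat_lit 21579585175), (nat_lit 22895869532), (nat_lit 22590016650), (nat_lit 23831336207), (nat_lit 25071109207), (nat_lit 26203938370), (nat_lit 25855923317), (nat_lit 26989896855)], (nat_lit 0), (nat_lit 0), (nat_lit 0), (nat_lit 0), (nat_lit 0), (nat_lit 0), [], [(nat_lit 4), (nat_lit 51), (nat_lit 260), (nat_lit 50), (nat_lit 7)]⟩,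
 ⟨⟨[(nat_lit 80), (nat_lit 120), (nat_lit 160)], [(nat_lit 0), (nat_lit 0), (nat_lit 2132)], [((nat_lit 0), (nat_lit 0), (nat_lit 0)), ((nat_lit 0), (nat_lit 0), (nat_lit 0)), ((nat_lit 858), (nat_lit 1000), (nat_lit 713))], ((nat_lit 100), (nat_lit 85), (nat_lit 73))⟩, (nat_lit 0), (nat_lit 355), (nat_lit 355), (nat_lit 0), (nat_lit 445775), [(nat_lit 257840000), (nat_lit 438240000), (nat_lit 652960000)], [], [(nat_lit 1854653660), (nat_lit 1482678534), (nat_lit 1393617668), (nat_lit 1529472947), (nat_lit 3128185541), (nat_lit 2533721625), (nat_lit 3522864513), (nat_lit 2935797209)], (nat_lit 1271251), (nat_lit 1271251), (nat_lit 1100000), (nat_lit 1442501), (nat_lit 780000), (nat_lit 2990626), [(nat_lit 1100000), (nat_lit 1785001), (nat_lit 1271251)], [(nat_lit 18), (nat_lit 59), (nat_lit 456), (nat_lit 225), (nat_lit 11)]⟩,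
 ⟨⟨[(nat_lit 140), (nat_lit 180), (nat_lit 200)], [(nat_lit 0), (nat_lit 608), (nat_lit 3317)], [((nat_lit 0), (nat_lit 0), (nat_lit 0)), ((nat_lit 913), (nat_lit 1000), (nat_lit 217)), ((nat_lit 385), (nat_lit 1000), (nat_lit 814))], ((nat_lit 0), (nat_lit 0), (nat_lit 0))⟩, (nat_lit 106224), (nat_lit 300), (nat_lit 1163), (nat_lit 3233800), (nat_lit 1790136), [(nat_lit 452732000), (nat_lit 646668000), (nat_lit 754400000)], [], [(nat_lit 2811229692), (nat_lit 2773885446), (nat_lit 2736128247), (nat_lit 2698307594), (nat_lit 2495696858), (nat_lit 2457029475), (nat_lit 2421042156), (nat_lit 2381873532)], (nat_lit 936250), (nat_lit 1100000), (nat_lit 1271251), (nat_lit 1271251), (nat_lit 780000), (nat_lit 2990626), [(nat_lit 1977501), (nat_lit 1271251), (nat_lit 1271251)], [(nat_lit 32), (nat_lit 67), (nat_lit 456), (nat_lit 225), (nat_lit 9)]⟩⟩))) (.spl (nat_lit 0) (nat_lit 350) (.leaf ⟨(nat_lit 691), (nat_lit 223), (nat_lit 0), (nat_lit 86), (nat_lit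 0), (nat_lit 4447), (nat_lit 3002), (nat_lit 887), (nat_lit 0), (nat_lit 0), (nat_lit 172750), [((nat_lit 350), [((nat_lit 22), (nat_lit 0), (nat_lit 691))])], ⟨(nat_lit 6), false, true, false, (nat_lit 252), (nat_lit 3535), (nat_lit 3873), [(nat_lit 1543574), (nat_lit 1543892), (nat_lit 1587148), (nat_lit 1587785), (nat_lit 1672628), (nat_lit 1669426), (nat_lit 1716203), (nat_lit 1713320)]⟩, ⟨(nat_lit 6), false, false, true, (nat_lit 229), (nat_lit 3535), (nat_lit 3873), [(nat_lit 1499140), (nat_lit 1496902), (nat_lit 1520934), (nat_lit 1518855), (nat_lit 1628183), (nat_lit 1622425), (nat_lit 1649977), (nat_lit 1644378)]⟩, (nat_lit 5394437), (nat_lit 36945166), (nat_lit 16171128), (nat_lit 13883706), (nat_lit 6), (nat_lit 0), [], [⟨(nat_lit 1), (nat_lit 90), (nat_lit 71), (nat_lit 100), (nat_lit 218319778)⟩], [], [],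
 ⟨⟨[(nat_lit 40), (nat_lit 80), (nat_lit 120)], [(nat_lit 0), (nat_lit 795), (nat_lit 2800)], [((nat_lit 0), (nat_lit 0), (nat_lit 0)), ((nat_lit 1000), (nat_lit 814), (nat_lit 310)), ((nat_lit 1000), (nat_lit 719), (nat_lit 783))], ((nat_lit 71), (nat_lit 100), (nat_lit 71))⟩, (nat_lit 0), (nat_lit 56), (nat_lit 56), (nat_lit 0), (nat_lit 0), [(nat_lit 1756023348), (nat_lit 2810414803), (nat_lit 4336380400)], [(nat_lit 0), (nat_lit 0), (nat_lit 0)], [(nat_lit 22871959647), (nat_lit 23535100932), (nat_lit 25474517896), (nat_lit 26041400095), (nat_lit 26287588862), (nat_lit 26842045093), (nat_lit 28519589250), (nat_lit 29069703923)], (nat_lit 0), (nat_lit 0), (nat_lit 0), (nat_lit 0), (nat_lit 0), (nat_lit 0), [], [(nat_lit 4), (nat_lit 51), (nat_lit 289), (nat_lit 75), (nat_lit 8)]⟩,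
 ⟨⟨[(nat_lit 80), (nat_lit 120), (nat_lit 160)], [(nat_lit 0), (nat_lit 0), (nat_lit 2132)], [((nat_lit 0), (nat_lit 0), (nat_lit 0)), ((nat_lit 0), (nat_lit 0), (nat_lit 0)), ((nat_lit 858), (nat_lit 1000), (nat_lit 713))], ((nat_lit 100), (nat_lit 85), (nat_lit 73))⟩, (nat_lit 392599), (nat_lit 387), (nat_lit 387), (nat_lit 0), (nat_lit 319157), [(nat_lit 1448592000), (nat_lit 2462112000), (nat_lit 3668448000)], [], [(nat_lit 10501285120), (nat_lit 10949967639), (nat_lit 11155868386), (nat_lit 11676229956), (nat_lit 13229995648), (nat_lit 11076599103), (nat_lit 11042936616), (nat_lit 11292386560)], (nat_lit 1271251), (nat_lit 1271251), (nat_lit 1271251), (nat_lit 1271251), (nat_lit 0), (nat_lit 2754376), [(nat_lit 1100000), (nat_lit 1785001), (nat_lit 1271251)], [(nat_lit 18), (nat_lit 59), (nat_lit 483), (nat_lit 250), (nat_lit 12)]⟩,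
 ⟨⟨[(nat_lit 140), (nat_lit 180), (nat_lit 200)], [(nat_lit 0), (nat_lit 608), (nat_lit 3317)], [((nat_lit 0), (nat_lit 0), (nat_lit 0)), ((nat_lit 913), (nat_lit 1000), (nat_lit 217)), ((nat_lit 385), (nat_lit 1000), (nat_lit 814))], ((nat_lit 0), (nat_lit 0), (nat_lit 0))⟩, (nat_lit 198592), (nat_lit 300), (nat_lit 1019), (nat_lit 6045801), (nat_lit 1256923), [(nat_lit 846412000), (nat_lit 1208988000), (nat_lit 1410400000)], [], [(nat_lit 5856569112), (nat_lit 5783719040), (nat_lit 5715798654), (nat_lit 5641560476), (nat_lit 5194493644), (nat_lit 5448771221), (nat_lit 4512564507), (nat_lit 4439055819)], (nat_lit 936250), (nat_lit 1100000), (nat_lit 1271251), (nat_lit 1271251), (nat_lit 0), (nat_lit 2754376), [(nat_lit 1977501), (nat_lit 1271251), (nat_lit 1271251)], [(nat_lit 32), (nat_lit 67), (nat_lit 456), (nat_lit 225), (nat_lit 10)]⟩⟩) (.trX (nat_lit 4) (nat_lit 0) (nat_lit 2) (nat_lit 68) (nat_lit 89) (nat_lit 100) (nat_lit 300) (.leaf ⟨(nat_lit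 799), (nat_lit 156), (nat_lit 0), (nat_lit 45), (nat_lit 0), (nat_lit 4032), (nat_lit 1622), (nat_lit 472), (nat_lit 0), (nat_lit 0), (nat_lit 199750), [((nat_lit 360), [((nat_lit 22), (nat_lit 0), (nat_lit 799))])], ⟨(nat_lit 6), false, true, false, (nat_lit 251), (nat_lit 3162), (nat_lit 3536), [(nat_lit 1543888), (nat_lit 1544293), (nat_lit 1587777), (nat_lit 1588586), (nat_lit 1669427), (nat_lit 1666215), (nat_lit 1713320), (nat_lit 1710513)]⟩, ⟨(nat_lit 6), false, false, true, (nat_lit 221), (nat_lit 3162), (nat_lit 3536), [(nat_lit 1496902), (nat_lit 1494487), (nat_lit 1518855), (nat_lit 1516642), (nat_lit 1591044), (nat_lit 1585917), (nat_lit 1612997), (nat_lit 1608072)]⟩, (nat_lit 5349264), (nat_lit 37450131), (nat_lit 16283462), (nat_lit 13266407), (nat_lit 6), (nat_lit 0), [], [⟨(nat_lit 1), (nat_lit 94), (nat_lit 65), (nat_lit 100), (nat_lit 251965284)⟩], [], [],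
 ⟨⟨[(nat_lit 40), (nat_lit 80), (nat_lit 100)], [(nat_lit 0), (nat_lit 1195), (nat_lit 2166)], [((nat_lit 0), (nat_lit 0), (nat_lit 0)), ((nat_lit 1000), (nat_lit 720), (nat_lit 465)), ((nat_lit 1000), (nat_lit 662), (nat_lit 740))], ((nat_lit 66), (nat_lit 100), (nat_lit 72))⟩, (nat_lit 0), (nat_lit 56), (nat_lit 56), (nat_lit 0), (nat_lit 0), [(nat_lit 1665035341), (nat_lit 2516957201), (nat_lit 3118559200)], [(nat_lit 0), (nat_lit 0), (nat_lit 0)], [(nat_lit 23516614133), (nat_lit 24147817329), (nat_lit 25979122289), (nat_lit 26520891697), (nat_lit 25918228906), (nat_lit 26473747323), (nat_lit 28008694511), (nat_lit 28487908260)], (nat_lit 0), (nat_lit 0), (nat_lit 0), (nat_lit 0), (nat_lit 0), (nat_lit 0), [], [(nat_lit 3), (nat_lit 50), (nat_lit 203), (nat_lit 0), (nat_lit 6)]⟩,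
 ⟨⟨[(nat_lit 80), (nat_lit 120), (nat_lit 160)], [(nat_lit 0), (nat_lit 0), (nat_lit 2132)], [((nat_lit 0), (nat_lit 0), (nat_lit 0)), ((nat_lit 0), (nat_lit 0), (nat_lit 0)), ((nat_lit 858), (nat_lit 1000), (nat_lit 713))], ((nat_lit 100), (nat_lit 85), (nat_lit 73))⟩, (nat_lit 203304), (nat_lit 436), (nat_lit 436), (nat_lit 0), (nat_lit 447182), [(nat_lit 942288000), (nat_lit 1601568000), (nat_lit 2386272000)], [], [(nat_lit 7091422650), (nat_lit 7486844399), (nat_lit 7629507198), (nat_lit 7944479710), (nat_lit 8627982085), (nat_lit 7578388708), (nat_lit 7553155107), (nat_lit 7654350690)], (nat_lit 1271251), (nat_lit 1271251), (nat_lit 1271251), (nat_lit 1271251), (nat_lit 0), (nat_lit 2754376), [(nat_lit 1100000), (nat_lit 1785001), (nat_lit 1271251)], [(nat_lit 18), (nat_lit 59), (nat_lit 483), (nat_lit 250), (nat_lit 12)]⟩,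
 ⟨⟨[(nat_lit 140), (nat_lit 180), (nat_lit 200)], [(nat_lit 0), (nat_lit 608), (nat_lit 3317)], [((nat_lit 0), (nat_lit 0), (nat_lit 0)), ((nat_lit 913), (nat_lit 1000), (nat_lit 217)), ((nat_lit 385), (nat_lit 1000), (nat_lit 814))], ((nat_lit 0), (nat_lit 0), (nat_lit 0))⟩, (nat_lit 103914), (nat_lit 300), (nat_lit 1253), (nat_lit 3163502), (nat_lit 1790136), [(nat_lit 442890000), (nat_lit 632610000), (nat_lit 738000000)], [], [(nat_lit 3026263028), (nat_lit 2987326744), (nat_lit 2978468189), (nat_lit 2939006125), (nat_lit 2723368474), (nat_lit 2858177472), (nat_lit 2344811617), (nat_lit 2305578480)], (nat_lit 936250), (nat_lit 1100000), (nat_lit 1271251), (nat_lit 1271251), (nat_lit 0), (nat_lit 2754376), [(nat_lit 1977501), (nat_lit 1271251), (nat_lit 1271251)], [(nat_lit 32), (nat_lit 67), (nat_lit 456), (nat_lit 225), (nat_lit 10)]⟩⟩))))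
noncomputable def c8_67 : Tr Lf :=
 (.trX (nat_lit 5) (nat_lit 1) (nat_lit 2) (nat_lit 94) (nat_lit 59) (nat_lit 100) (nat_lit 370) (.spl (nat_lit 5) (nat_lit 120) (.leaf ⟨(nat_lit 0), (nat_lit 854), (nat_lit 0), (nat_lit 146), (nat_lit 0), (nat_lit 5835), (nat_lit 7749), (nat_lit 1858), (nat_lit 0), (nat_lit 0), (nat_lit 0), [], Pd.none, Pd.none, (nat_lit 0), (nat_lit 1), (nat_lit 0), (nat_lit 0), (nat_lit 6), (nat_lit 0), [⟨(nat_lit 0), (nat_lit 88), (nat_lit 67), (nat_lit 100), (nat_lit 233158112)⟩], [⟨(nat_lit 1), (nat_lit 92), (nat_lit 68), (nat_lit 100), (nat_lit 508939188)⟩], [], [],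
 ⟨⟨[(nat_lit 40), (nat_lit 80), (nat_lit 120)], [(nat_lit 0), (nat_lit 795), (nat_lit 2800)], [((nat_lit 0), (nat_lit 0), (nat_lit 0)), ((nat_lit 1000), (nat_lit 814), (nat_lit 310)), ((nat_lit 1000), (nat_lit 719), (nat_lit 783))], ((nat_lit 71), (nat_lit 100), (nat_lit 71))⟩, (nat_lit 0), (nat_lit 73), (nat_lit 73), (nat_lit 0), (nat_lit 0), [(nat_lit 2467647904), (nat_lit 4688000024), (nat_lit 7968000000)], [], [(nat_lit 22665568732), (nat_lit 24417726149), (nat_lit 26494912487), (nat_lit 27796660279), (nat_lit 27018261969), (nat_lit 28457578335), (nat_lit 29648380250), (nat_lit 30904645780)], (nat_lit 0), (nat_lit 0), (nat_lit 0), (nat_lit 0), (nat_lit 0), (nat_lit 0), [], [(nat_lit 4), (nat_lit 51), (nat_lit 289), (nat_lit 75), (nat_lit 8)]⟩,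
 ⟨⟨[(nat_lit 60), (nat_lit 100), (nat_lit 140)], [(nat_lit 0), (nat_lit 0), (nat_lit 2047)], [((nat_lit 0), (nat_lit 0), (nat_lit 0)), ((nat_lit 0), (nat_lit 0), (nat_lit 0)), ((nat_lit 1000), (nat_lit 993), (nat_lit 781))], ((nat_lit 99), (nat_lit 100), (nat_lit 77))⟩, (nat_lit 3249113), (nat_lit 442), (nat_lit 442), (nat_lit 0), (nat_lit 470727), [(nat_lit 3282000000), (nat_lit 6250000000), (nat_lit 9842000000)], [], [(nat_lit 28163009939), (nat_lit 29165346079), (nat_lit 31676252774), (nat_lit 32388881998), (nat_lit 22990380089), (nat_lit 25277853319), (nat_lit 37677761044), (nat_lit 30702735038)], (nat_lit 1271251), (nat_lit 1271251), (nat_lit 780000), (nat_lit 2090001), (nat_lit 0), (nat_lit 780000), [(nat_lit 780000), (nat_lit 1435001), (nat_lit 1271251)], [(nat_lit 11), (nat_lit 55), (nat_lit 317), (nat_lit 100), (nat_lit 9)]⟩,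
 ⟨⟨[(nat_lit 140), (nat_lit 180), (nat_lit 200)], [(nat_lit 0), (nat_lit 608), (nat_lit 3317)], [((nat_lit 0), (nat_lit 0), (nat_lit 0)), ((nat_lit 913), (nat_lit 1000), (nat_lit 217)), ((nat_lit 385), (nat_lit 1000), (nat_lit 814))], ((nat_lit 0), (nat_lit 0), (nat_lit 0))⟩, (nat_lit 337145), (nat_lit 300), (nat_lit 1307), (nat_lit 10263800), (nat_lit 1915454), [(nat_lit 1436932000), (nat_lit 2052468000), (nat_lit 2394400000)], [], [(nat_lit 9105928720), (nat_lit 8950953032), (nat_lit 9021888492), (nat_lit 8872245704), (nat_lit 7573892788), (nat_lit 7427931528), (nat_lit 7469698118), (nat_lit 7317331340)], (nat_lit 936250), (nat_lit 1100000), (nat_lit 1271251), (nat_lit 1271251), (nat_lit 0), (nat_lit 780000), [(nat_lit 1977501), (nat_lit 1271251), (nat_lit 1271251)], [(nat_lit 32), (nat_lit 67), (nat_lit 402), (nat_lit 150), (nat_lit 9)]⟩⟩) (.stt (nat_lit 2) (.leaf ⟨(nat_lit 0), (nat_lit 889), (nat_lit 0), (nat_lit 111), (nat_lit 0), (nat_lit 6035),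 (nat_lit 7193), (nat_lit 1140), (nat_lit 0), (nat_lit 0), (nat_lit 0), [], Pd.none, Pd.none, (nat_lit 0), (nat_lit 1), (nat_lit 0), (nat_lit 0), (nat_lit 6), (nat_lit 0), [⟨(nat_lit 0), (nat_lit 88), (nat_lit 67), (nat_lit 100), (nat_lit 476157826)⟩], [⟨(nat_lit 1), (nat_lit 92), (nat_lit 68), (nat_lit 100), (nat_lit 590028851)⟩], [⟨(nat_lit 1), (nat_lit 72), (nat_lit 89), (nat_lit 100), (nat_lit 319424004)⟩], [],
 ⟨⟨[(nat_lit 40), (nat_lit 80), (nat_lit 120)], [(nat_lit 0), (nat_lit 795), (nat_lit 2800)], [((nat_lit 0), (nat_lit 0), (nat_lit 0)), ((nat_lit 1000), (nat_lit 814), (nat_lit 310)), ((nat_lit 1000), (nat_lit 719), (nat_lit 783))], ((nat_lit 71), (nat_lit 100), (nat_lit 71))⟩, (nat_lit 0), (nat_lit 73), (nat_lit 73), (nat_lit 0), (nat_lit 0), [(nat_lit 2474820732), (nat_lit 4688000005), (nat_lit 7968000000)], [], [(nat_lit 22545063613), (nat_lit 24333801130), (nat_lit 26371397968), (nat_lit 27697350860), (nat_lit 26966775350), (nat_lit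 28688678535), (nat_lit 29811030250), (nat_lit 31089779380)], (nat_lit 0), (nat_lit 0), (nat_lit 0), (nat_lit 0), (nat_lit 0), (nat_lit 0), [], [(nat_lit 4), (nat_lit 51), (nat_lit 289), (nat_lit 75), (nat_lit 8)]⟩,
 ⟨⟨[(nat_lit 60), (nat_lit 100), (nat_lit 140)], [(nat_lit 0), (nat_lit 0), (nat_lit 2047)], [((nat_lit 0), (nat_lit 0), (nat_lit 0)), ((nat_lit 0), (nat_lit 0), (nat_lit 0)), ((nat_lit 1000), (nat_lit 993), (nat_lit 781))], ((nat_lit 99), (nat_lit 100), (nat_lit 77))⟩, (nat_lit 0), (nat_lit 91), (nat_lit 91), (nat_lit 0), (nat_lit 0), [(nat_lit 3282000000), (nat_lit 6250000000), (nat_lit 9842000000)], [], [(nat_lit 15480631124), (nat_lit 19406744923), (nat_lit 22074991136), (nat_lit 24805211612), (nat_lit 29023225620), (nat_lit 30987271440), (nat_lit 31134352648), (nat_lit 32866167511)], (nat_lit 0), (nat_lit 0), (nat_lit 0), (nat_lit 0), (nat_lit 0), (nat_lit 0), [], [(nat_lit 11), (nat_lit 55), (nat_lit 401), (nat_lit 175), (nat_lit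 11)]⟩,
 ⟨⟨[(nat_lit 140), (nat_lit 180), (nat_lit 200)], [(nat_lit 0), (nat_lit 608), (nat_lit 3317)], [((nat_lit 0), (nat_lit 0), (nat_lit 0)), ((nat_lit 913), (nat_lit 1000), (nat_lit 217)), ((nat_lit 385), (nat_lit 1000), (nat_lit 814))], ((nat_lit 0), (nat_lit 0), (nat_lit 0))⟩, (nat_lit 256322), (nat_lit 300), (nat_lit 1776), (nat_lit 7803302), (nat_lit 3086777), [(nat_lit 1092462000), (nat_lit 1560438000), (nat_lit 1820400000)], [], [(nat_lit 6861884825), (nat_lit 6776947028), (nat_lit 6624289808), (nat_lit 6539341214), (nat_lit 6054383868), (nat_lit 5962882304), (nat_lit 5868035688), (nat_lit 5774285424)], (nat_lit 936250), (nat_lit 1100000), (nat_lit 1271251), (nat_lit 1271251), (nat_lit 780000), (nat_lit 2826876), [(nat_lit 1977501), (nat_lit 1271251), (nat_lit 1271251)], [(nat_lit 32), (nat_lit 67), (nat_lit 551), (nat_lit 225), (nat_lit 11)]⟩⟩) (.spl (nat_lit 1) (nat_lit 300) (.leaf ⟨(nat_lit 0), (nat_lit 707), (nat_lit 0), (nat_lit 293),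 (nat_lit 0), (nat_lit 5835), (nat_lit 7719), (nat_lit 3026), (nat_lit 0), (nat_lit 0), (nat_lit 0), [], Pd.none, Pd.none, (nat_lit 0), (nat_lit 1), (nat_lit 0), (nat_lit 0), (nat_lit 6), (nat_lit 0), [], [⟨(nat_lit 1), (nat_lit 92), (nat_lit 68), (nat_lit 100), (nat_lit 361587727)⟩], [], [],
 ⟨⟨[(nat_lit 40), (nat_lit 80), (nat_lit 120)], [(nat_lit 0), (nat_lit 795), (nat_lit 2800)], [((nat_lit 0), (nat_lit 0), (nat_lit 0)), ((nat_lit 1000), (nat_lit 814), (nat_lit 310)), ((nat_lit 1000), (nat_lit 719), (nat_lit 783))], ((nat_lit 71), (nat_lit 100), (nat_lit 71))⟩, (nat_lit 0), (nat_lit 73), (nat_lit 73), (nat_lit 0), (nat_lit 0), [(nat_lit 2558633599), (nat_lit 4688000001), (nat_lit 7968000000)], [], [(nat_lit 22665568709), (nat_lit 24417726126), (nat_lit 26494912464), (nat_lit 27796660256), (nat_lit 27018261946), (nat_lit 28457578335), (nat_lit 29648380250), (nat_lit 30904645780)], (nat_lit 0), (nat_lit 0), (nat_lit 0), (nat_lit 0), (nat_lit 0),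 (nat_lit 0), [], [(nat_lit 4), (nat_lit 51), (nat_lit 289), (nat_lit 75), (nat_lit 8)]⟩,
 ⟨⟨[(nat_lit 60), (nat_lit 100), (nat_lit 140)], [(nat_lit 0), (nat_lit 0), (nat_lit 2047)], [((nat_lit 0), (nat_lit 0), (nat_lit 0)), ((nat_lit 0), (nat_lit 0), (nat_lit 0)), ((nat_lit 1000), (nat_lit 993), (nat_lit 781))], ((nat_lit 99), (nat_lit 100), (nat_lit 77))⟩, (nat_lit 2582373), (nat_lit 331), (nat_lit 331), (nat_lit 0), (nat_lit 497641), [(nat_lit 3282000000), (nat_lit 6250000000), (nat_lit 9842000000)], [], [(nat_lit 30348719733), (nat_lit 26296260171), (nat_lit 25099197310), (nat_lit 25970637747), (nat_lit 29725089701), (nat_lit 30410792681), (nat_lit 44176761846), (nat_lit 40757944863)], (nat_lit 1271251), (nat_lit 1271251), (nat_lit 780000), (nat_lit 2090001), (nat_lit 780000), (nat_lit 2826876), [(nat_lit 780000), (nat_lit 1435001), (nat_lit 1271251)], [(nat_lit 11), (nat_lit 55), (nat_lit 401), (nat_lit 175), (nat_lit 11)]⟩,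
 ⟨⟨[(nat_lit 140), (nat_lit 180), (nat_lit 200)], [(nat_lit 0), (nat_lit 608), (nat_lit 3317)], [((nat_lit 0), (nat_lit 0), (nat_lit 0)), ((nat_lit 913), (nat_lit 1000), (nat_lit 217)), ((nat_lit 385), (nat_lit 1000), (nat_lit 814))], ((nat_lit 0), (nat_lit 0), (nat_lit 0))⟩, (nat_lit 676599), (nat_lit 300), (nat_lit 1045), (nat_lit 20597900), (nat_lit 1518641), [(nat_lit 2883706000), (nat_lit 4118994000), (nat_lit 4805200000)], [], [(nat_lit 17831630018), (nat_lit 17592441388), (nat_lit 17349879868), (nat_lit 17107651098), (nat_lit 15870560934), (nat_lit 15627349933), (nat_lit 15404594528), (nat_lit 15155385208)], (nat_lit 936250), (nat_lit 1100000), (nat_lit 1271251), (nat_lit 1271251), (nat_lit 780000), (nat_lit 2826876), [(nat_lit 1977501), (nat_lit 1271251), (nat_lit 1271251)], [(nat_lit 32), (nat_lit 67), (nat_lit 456), (nat_lit 225), (nat_lit 9)]⟩⟩) (.trZ (nat_lit 0) (nat_lit 1) (nat_lit 3) (nat_lit 90) (nat_lit 74) (nat_lit 100) (nat_lit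 140) (.trX (nat_lit 5) (nat_lit 1) (nat_lit 2) (nat_lit 88) (nat_lit 68) (nat_lit 100) (nat_lit 350) (.leaf ⟨(nat_lit 0), (nat_lit 789), (nat_lit 0), (nat_lit 211), (nat_lit 0), (nat_lit 5886), (nat_lit 6529), (nat_lit 2201), (nat_lit 0), (nat_lit 0), (nat_lit 0), [], Pd.none, Pd.none, (nat_lit 0), (nat_lit 1), (nat_lit 0), (nat_lit 0), (nat_lit 6), (nat_lit 0), [⟨(nat_lit 0), (nat_lit 80), (nat_lit 60), (nat_lit 100), (nat_lit 65503450)⟩], [⟨(nat_lit 1), (nat_lit 92), (nat_lit 68), (nat_lit 100), (nat_lit 443154701)⟩], [⟨(nat_lit 1), (nat_lit 77), (nat_lit 86), (nat_lit 100), (nat_lit 166642489)⟩], [],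
 ⟨⟨[(nat_lit 40), (nat_lit 80), (nat_lit 120)], [(nat_lit 0), (nat_lit 795), (nat_lit 2800)], [((nat_lit 0), (nat_lit 0), (nat_lit 0)), ((nat_lit 1000), (nat_lit 814), (nat_lit 310)), ((nat_lit 1000), (nat_lit 719), (nat_lit 783))], ((nat_lit 71), (nat_lit 100), (nat_lit 71))⟩, (nat_lit 0), (nat_lit 67), (nat_lit 67), (nat_lit 0), (nat_lit 0), [(nat_lit 2526958030), (nat_lit 4688000003), (nat_lit 7968000000)], [], [(nat_lit 22642676240), (nat_lit 24355186630), (nat_lit 26463416268), (nat_lit 27771336361), (nat_lit 26890527431), (nat_lit 28298058367), (nat_lit 29689856000), (nat_lit 30951854848)], (nat_lit 0), (nat_lit 0), (nat_lit 0), (nat_lit 0), (nat_lit 0), (nat_lit 0), [], [(nat_lit 4), (nat_lit 51), (nat_lit 289), (nat_lit 75), (nat_lit 8)]⟩,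
 ⟨⟨[(nat_lit 60), (nat_lit 100), (nat_lit 140)], [(nat_lit 0), (nat_lit 609), (nat_lit 2558)], [((nat_lit 0), (nat_lit 0), (nat_lit 0)), ((nat_lit 1000), (nat_lit 905), (nat_lit 238)), ((nat_lit 1000), (nat_lit 904), (nat_lit 760))], ((nat_lit 90), (nat_lit 100), (nat_lit 74))⟩, (nat_lit 2761917), (nat_lit 351), (nat_lit 351), (nat_lit 0), (nat_lit 559523), [(nat_lit 3282000000), (nat_lit 6250000000), (nat_lit 9842000000)], [], [(nat_lit 22935827365), (nat_lit 22374948308), (nat_lit 24499500366), (nat_lit 25314233435), (nat_lit 27322600040), (nat_lit 28092907847), (nat_lit 37663572577), (nat_lit 34753347950)], (nat_lit 1271251), (nat_lit 1271251), (nat_lit 936250), (nat_lit 2108751), (nat_lit 780000), (nat_lit 2663126), [(nat_lit 780000), (nat_lit 1435001), (nat_lit 1271251)], [(nat_lit 11), (nat_lit 55), (nat_lit 401), (nat_lit 175), (nat_lit 11)]⟩,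
 ⟨⟨[(nat_lit 140), (nat_lit 180), (nat_lit 200)], [(nat_lit 0), (nat_lit 608), (nat_lit 3317)], [((nat_lit 0), (nat_lit 0), (nat_lit 0)), ((nat_lit 913), (nat_lit 1000), (nat_lit 217)), ((nat_lit 385), (nat_lit 1000), (nat_lit 814))], ((nat_lit 0), (nat_lit 0), (nat_lit 0))⟩, (nat_lit 487243), (nat_lit 300), (nat_lit 1227), (nat_lit 14833302), (nat_lit 1915454), [(nat_lit 2076662000), (nat_lit 2966238000), (nat_lit 3460400000)], [], [(nat_lit 12732482410), (nat_lit 12559710144), (nat_lit 12364916285), (nat_lit 12188278408), (nat_lit 11351220742), (nat_lit 11173372761), (nat_lit 11020543125), (nat_lit 10840008453)], (nat_lit 936250), (nat_lit 1100000), (nat_lit 1271251), (nat_lit 1271251), (nat_lit 780000), (nat_lit 2663126), [(nat_lit 1977501), (nat_lit 1271251), (nat_lit 1271251)], [(nat_lit 32), (nat_lit 67), (nat_lit 456), (nat_lit 225), (nat_lit 9)]⟩⟩)))))))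
noncomputable def c8_68 : Tr Lf :=
 (.spl (nat_lit 3) (nat_lit 200) (.spl (nat_lit 5) (nat_lit 120) (.spl (nat_lit 1) (nat_lit 260) (.spl (nat_lit 6) (nat_lit 52) (.spl (nat_lit 6) (nat_lit 44) (.leaf ⟨(nat_lit 696), (nat_lit 167), (nat_lit 0), (nat_lit 137), (nat_lit 0), (nat_lit 4283), (nat_lit 3624), (nat_lit 1794), (nat_lit 0), (nat_lit 0), (nat_lit 174000), [((nat_lit 360), [((nat_lit 22), (nat_lit 0), (nat_lit 696))])], ⟨(nat_lit 6), false, false, false, (nat_lit 197), (nat_lit 3162), (nat_lit 3873), [(nat_lit 1414421), (nat_lit 1422280), (nat_lit 1436185), (nat_lit 1444407), (nat_lit 1543529), (nat_lit 1544252), (nat_lit 1565293), (nat_lit 1566378)]⟩, ⟨(nat_lit 6), false, false, true, (nat_lit 240), (nat_lit 3162), (nat_lit 3873), [(nat_lit 1520934), (nat_lit 1516642), (nat_lit 1542727), (nat_lit 1538797), (nat_lit 1666107), (nat_lit 1653787), (nat_lit 1687900), (nat_lit 1675942)]⟩, (nat_lit 5140069), (nat_lit 39730786), (nat_lit 11481729),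 (nat_lit 15787485), (nat_lit 6), (nat_lit 0), [], [⟨(nat_lit 1), (nat_lit 85), (nat_lit 67), (nat_lit 100), (nat_lit 148195208)⟩], [⟨(nat_lit 0), (nat_lit 100), (nat_lit 98), (nat_lit 10), (nat_lit 3443267)⟩], [⟨(nat_lit 0), (nat_lit 92), (nat_lit 100), (nat_lit 24), (nat_lit 257907362)⟩],
 ⟨⟨[(nat_lit 40), (nat_lit 80), (nat_lit 100)], [(nat_lit 0), (nat_lit 795), (nat_lit 1829)], [((nat_lit 0), (nat_lit 0), (nat_lit 0)), ((nat_lit 1000), (nat_lit 814), (nat_lit 310)), ((nat_lit 1000), (nat_lit 714), (nat_lit 692))], ((nat_lit 72), (nat_lit 100), (nat_lit 63))⟩, (nat_lit 0), (nat_lit 77), (nat_lit 77), (nat_lit 0), (nat_lit 0), [(nat_lit 1766029432), (nat_lit 2796828816), (nat_lit 3522236800)], [(nat_lit 0), (nat_lit 0), (nat_lit 0)], [(nat_lit 21709517100), (nat_lit 23177812941), (nat_lit 22979658138), (nat_lit 24280698073), (nat_lit 26107379795), (nat_lit 27299570467), (nat_lit 26869123057), (nat_lit 27932347811)], (nat_lit 0), (nat_lit 0), (nat_lit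 0), (nat_lit 0), (nat_lit 0), (nat_lit 0), [], [(nat_lit 3), (nat_lit 50), (nat_lit 260), (nat_lit 50), (nat_lit 8)]⟩,
 ⟨⟨[(nat_lit 80), (nat_lit 120), (nat_lit 160)], [(nat_lit 0), (nat_lit 0), (nat_lit 2132)], [((nat_lit 0), (nat_lit 0), (nat_lit 0)), ((nat_lit 0), (nat_lit 0), (nat_lit 0)), ((nat_lit 858), (nat_lit 1000), (nat_lit 713))], ((nat_lit 100), (nat_lit 91), (nat_lit 64))⟩, (nat_lit 180959), (nat_lit 375), (nat_lit 375), (nat_lit 0), (nat_lit 233314), [(nat_lit 1425152000), (nat_lit 2422272000), (nat_lit 3609088000)], [], [(nat_lit 11646589280), (nat_lit 10425185028), (nat_lit 10258121488), (nat_lit 10541649276), (nat_lit 8782650728), (nat_lit 7843558450), (nat_lit 12286560736), (nat_lit 10634191594)], (nat_lit 1271251), (nat_lit 1271251), (nat_lit 780000), (nat_lit 1435001), (nat_lit 0), (nat_lit 780000), [(nat_lit 1100000), (nat_lit 1785001), (nat_lit 1271251)], [(nat_lit 18), (nat_lit 59), (nat_lit 373), (nat_lit 150), (nat_lit 10)]⟩,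
 ⟨⟨[(nat_lit 120), (nat_lit 160), (nat_lit 180)], [(nat_lit 0), (nat_lit 0), (nat_lit 1613)], [((nat_lit 0), (nat_lit 0), (nat_lit 0)), ((nat_lit 0), (nat_lit 0), (nat_lit 0)), ((nat_lit 620), (nat_lit 1000), (nat_lit 670))], ((nat_lit 100), (nat_lit 65), (nat_lit 64))⟩, (nat_lit 59624), (nat_lit 300), (nat_lit 603), (nat_lit 10165403), (nat_lit 534610), [(nat_lit 1091616000), (nat_lit 1626464000), (nat_lit 1925946000)], [], [(nat_lit 7442097292), (nat_lit 7376259777), (nat_lit 7519471541), (nat_lit 7438652641), (nat_lit 6044386442), (nat_lit 5979401793), (nat_lit 6093796346), (nat_lit 6014671853)], (nat_lit 1100000), (nat_lit 1271251), (nat_lit 1271251), (nat_lit 1271251), (nat_lit 0), (nat_lit 780000), [(nat_lit 1695001), (nat_lit 1271251), (nat_lit 1271251)], [(nat_lit 28), (nat_lit 65), (nat_lit 401), (nat_lit 175), (nat_lit 9)]⟩⟩) (.leaf ⟨(nat_lit 0), (nat_lit 620), (nat_lit 0), (nat_lit 380), (nat_lit 5916), (nat_lit 5753), (nat_lit 8529),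 (nat_lit 3918), (nat_lit 0), (nat_lit 0), (nat_lit 0), [], Pd.none, Pd.none, (nat_lit 0), (nat_lit 1), (nat_lit 0), (nat_lit 0), (nat_lit 6), (nat_lit 0), [⟨(nat_lit 0), (nat_lit 100), (nat_lit 63), (nat_lit 99), (nat_lit 126623156)⟩], [⟨(nat_lit 1), (nat_lit 85), (nat_lit 67), (nat_lit 100), (nat_lit 214714902)⟩], [⟨(nat_lit 0), (nat_lit 100), (nat_lit 98), (nat_lit 10), (nat_lit 559463991)⟩], [],
 ⟨⟨[(nat_lit 40), (nat_lit 80), (nat_lit 100)], [(nat_lit 0), (nat_lit 795), (nat_lit 1829)], [((nat_lit 0), (nat_lit 0), (nat_lit 0)), ((nat_lit 1000), (nat_lit 814), (nat_lit 310)), ((nat_lit 1000), (nat_lit 714), (nat_lit 692))], ((nat_lit 71), (nat_lit 100), (nat_lit 67))⟩, (nat_lit 0), (nat_lit 77), (nat_lit 77), (nat_lit 0), (nat_lit 0), [(nat_lit 2593852978), (nat_lit 4688000004), (nat_lit 6250000000)], [], [(nat_lit 22714975803), (nat_lit 24452135379), (nat_lit 23783706261), (nat_lit 25311006391), (nat_lit 27714306179), (nat_lit 29103362617), (nat_lit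 28150529884), (nat_lit 29377995993)], (nat_lit 0), (nat_lit 0), (nat_lit 0), (nat_lit 0), (nat_lit 0), (nat_lit 0), [], [(nat_lit 3), (nat_lit 50), (nat_lit 260), (nat_lit 50), (nat_lit 8)]⟩,
 ⟨⟨[(nat_lit 80), (nat_lit 120), (nat_lit 160)], [(nat_lit 0), (nat_lit 0), (nat_lit 2132)], [((nat_lit 0), (nat_lit 0), (nat_lit 0)), ((nat_lit 0), (nat_lit 0), (nat_lit 0)), ((nat_lit 858), (nat_lit 1000), (nat_lit 713))], ((nat_lit 100), (nat_lit 88), (nat_lit 69))⟩, (nat_lit 0), (nat_lit 247), (nat_lit 247), (nat_lit 0), (nat_lit 85191), [(nat_lit 4688000000), (nat_lit 7968000000), (nat_lit 11872000000)], [], [(nat_lit 36702027020), (nat_lit 37759074325), (nat_lit 37034185808), (nat_lit 38043606136), (nat_lit 31205504275), (nat_lit 32252580777), (nat_lit 31609234526), (nat_lit 32501130880)], (nat_lit 1271251), (nat_lit 1271251), (nat_lit 780000), (nat_lit 1435001), (nat_lit 0), (nat_lit 780000), [(nat_lit 1100000), (nat_lit 1785001), (nat_lit 1271251)],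 [(nat_lit 18), (nat_lit 59), (nat_lit 373), (nat_lit 150), (nat_lit 10)]⟩,
 ⟨⟨[(nat_lit 120), (nat_lit 160), (nat_lit 200)], [(nat_lit 0), (nat_lit 0), (nat_lit 3198)], [((nat_lit 0), (nat_lit 0), (nat_lit 0)), ((nat_lit 0), (nat_lit 0), (nat_lit 0)), ((nat_lit 572), (nat_lit 1000), (nat_lit 714))], ((nat_lit 0), (nat_lit 0), (nat_lit 0))⟩, (nat_lit 185366), (nat_lit 300), (nat_lit 491), (nat_lit 28196000), (nat_lit 195235), [(nat_lit 3027840000), (nat_lit 4511360000), (nat_lit 6232000000)], [], [(nat_lit 23409099008), (nat_lit 23288711801), (nat_lit 23777244918), (nat_lit 23641365818), (nat_lit 20264864394), (nat_lit 20148604272), (nat_lit 20570627595), (nat_lit 20419853377)], (nat_lit 1100000), (nat_lit 1271251), (nat_lit 1271251), (nat_lit 1271251), (nat_lit 0), (nat_lit 780000), [(nat_lit 1695001), (nat_lit 1271251), (nat_lit 1271251)], [(nat_lit 29), (nat_lit 66), (nat_lit 401), (nat_lit 175), (nat_lit 9)]⟩⟩)) (.dle (nat_lit 0))) (.leaf ⟨(nat_lit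 0), (nat_lit 779), (nat_lit 0), (nat_lit 221), (nat_lit 6183), (nat_lit 5753), (nat_lit 7123), (nat_lit 2827), (nat_lit 0), (nat_lit 0), (nat_lit 0), [], Pd.none, Pd.none, (nat_lit 0), (nat_lit 1), (nat_lit 0), (nat_lit 0), (nat_lit 6), (nat_lit 0), [⟨(nat_lit 0), (nat_lit 100), (nat_lit 71), (nat_lit 100), (nat_lit 409733815)⟩], [⟨(nat_lit 1), (nat_lit 85), (nat_lit 67), (nat_lit 100), (nat_lit 415804589)⟩], [], [],
 ⟨⟨[(nat_lit 40), (nat_lit 80), (nat_lit 120)], [(nat_lit 0), (nat_lit 795), (nat_lit 2800)], [((nat_lit 0), (nat_lit 0), (nat_lit 0)), ((nat_lit 1000), (nat_lit 814), (nat_lit 310)), ((nat_lit 1000), (nat_lit 719), (nat_lit 783))], ((nat_lit 71), (nat_lit 100), (nat_lit 71))⟩, (nat_lit 0), (nat_lit 77), (nat_lit 77), (nat_lit 0), (nat_lit 0), [(nat_lit 2471641392), (nat_lit 4688000199), (nat_lit 7968000000)], [], [(nat_lit 22714975998), (nat_lit 24452135574), (nat_lit 23783706456), (nat_lit 25311006586), (nat_lit 27714306374), (nat_lit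 29103362617), (nat_lit 28150530079), (nat_lit 29377996188)], (nat_lit 0), (nat_lit 0), (nat_lit 0), (nat_lit 0), (nat_lit 0), (nat_lit 0), [], [(nat_lit 4), (nat_lit 51), (nat_lit 260), (nat_lit 50), (nat_lit 7)]⟩,
 ⟨⟨[(nat_lit 80), (nat_lit 120), (nat_lit 160)], [(nat_lit 0), (nat_lit 528), (nat_lit 2577)], [((nat_lit 0), (nat_lit 0), (nat_lit 0)), ((nat_lit 1000), (nat_lit 959), (nat_lit 206)), ((nat_lit 929), (nat_lit 1000), (nat_lit 742))], ((nat_lit 100), (nat_lit 92), (nat_lit 75))⟩, (nat_lit 2709876), (nat_lit 402), (nat_lit 402), (nat_lit 0), (nat_lit 293703), [(nat_lit 4688000000), (nat_lit 7968000000), (nat_lit 11872000000)], [], [(nat_lit 30921397469), (nat_lit 31335310601), (nat_lit 32331952847), (nat_lit 31714428988), (nat_lit 29678078549), (nat_lit 27492410687), (nat_lit 37707014513), (nat_lit 34459270198)], (nat_lit 1271251), (nat_lit 1271251), (nat_lit 780000), (nat_lit 1435001), (nat_lit 0), (nat_lit 780000), [(nat_lit 1100000),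 (nat_lit 1785001), (nat_lit 1271251)], [(nat_lit 18), (nat_lit 59), (nat_lit 373), (nat_lit 150), (nat_lit 10)]⟩,
 ⟨⟨[(nat_lit 120), (nat_lit 160), (nat_lit 200)], [(nat_lit 0), (nat_lit 0), (nat_lit 3198)], [((nat_lit 0), (nat_lit 0), (nat_lit 0)), ((nat_lit 0), (nat_lit 0), (nat_lit 0)), ((nat_lit 572), (nat_lit 1000), (nat_lit 714))], ((nat_lit 0), (nat_lit 0), (nat_lit 0))⟩, (nat_lit 107805), (nat_lit 300), (nat_lit 762), (nat_lit 16398200), (nat_lit 765881), [(nat_lit 1760928000), (nat_lit 2623712000), (nat_lit 3624400000)], [], [(nat_lit 14045467556), (nat_lit 13897784586), (nat_lit 13908333177), (nat_lit 13744379868), (nat_lit 11726526720), (nat_lit 11584343311), (nat_lit 11571687006), (nat_lit 11413750206)], (nat_lit 1100000), (nat_lit 1271251), (nat_lit 1271251), (nat_lit 1271251), (nat_lit 0), (nat_lit 780000), [(nat_lit 1695001), (nat_lit 1271251), (nat_lit 1271251)], [(nat_lit 29), (nat_lit 66), (nat_lit 401), (nat_lit 175), (nat_lit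 9)]⟩⟩)) (.spl (nat_lit 3) (nat_lit 160) (.trX (nat_lit 5) (nat_lit 4) (nat_lit 3) (nat_lit 100) (nat_lit 40) (nat_lit 100) (nat_lit 390) (.leaf ⟨(nat_lit 577), (nat_lit 0), (nat_lit 0), (nat_lit 423), (nat_lit 0), (nat_lit 4613), (nat_lit 9642), (nat_lit 4543), (nat_lit 0), (nat_lit 0), (nat_lit 144250), [((nat_lit 360), [((nat_lit 22), (nat_lit 0), (nat_lit 577))])], ⟨(nat_lit 6), false, false, false, (nat_lit 189), (nat_lit 3162), (nat_lit 3873), [(nat_lit 1414421), (nat_lit 1422280), (nat_lit 1457950), (nat_lit 1466533), (nat_lit 1478975), (nat_lit 1483267), (nat_lit 1522504), (nat_lit 1527519)]⟩, ⟨(nat_lit 6), false, false, true, (nat_lit 240), (nat_lit 3162), (nat_lit 3873), [(nat_lit 1520934), (nat_lit 1516642), (nat_lit 1542727), (nat_lit 1538797), (nat_lit 1666107), (nat_lit 1653787), (nat_lit 1687900), (nat_lit 1675942)]⟩, (nat_lit 5079674), (nat_lit 40243239), (nat_lit 10830511), (nat_lit 15926250), (nat_lit 0), (nat_lit 0), [⟨(nat_lit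 0), (nat_lit 94), (nat_lit 62), (nat_lit 100), (nat_lit 666041698)⟩], [], [], [],
 ⟨⟨[(nat_lit 40), (nat_lit 80), (nat_lit 120)], [(nat_lit 0), (nat_lit 795), (nat_lit 2800)], [((nat_lit 0), (nat_lit 0), (nat_lit 0)), ((nat_lit 1000), (nat_lit 814), (nat_lit 310)), ((nat_lit 1000), (nat_lit 719), (nat_lit 783))], ((nat_lit 71), (nat_lit 100), (nat_lit 71))⟩, (nat_lit 0), (nat_lit 77), (nat_lit 77), (nat_lit 0), (nat_lit 0), [(nat_lit 2008493787), (nat_lit 3120175974), (nat_lit 4935518800)], [(nat_lit 0), (nat_lit 0), (nat_lit 0)], [(nat_lit 21834030843), (nat_lit 23362683849), (nat_lit 22033771027), (nat_lit 23481236356), (nat_lit 26366916895), (nat_lit 27704087002), (nat_lit 26331939199), (nat_lit 27506985534)], (nat_lit 0), (nat_lit 0), (nat_lit 0), (nat_lit 0), (nat_lit 0), (nat_lit 0), [], [(nat_lit 4), (nat_lit 51), (nat_lit 249), (nat_lit 40), (nat_lit 7)]⟩,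
 ⟨⟨[(nat_lit 80), (nat_lit 120), (nat_lit 160)], [(nat_lit 0), (nat_lit 0), (nat_lit 2132)], [((nat_lit 0), (nat_lit 0), (nat_lit 0)), ((nat_lit 0), (nat_lit 0), (nat_lit 0)), ((nat_lit 858), (nat_lit 1000), (nat_lit 713))], ((nat_lit 100), (nat_lit 85), (nat_lit 73))⟩, (nat_lit 1524419), (nat_lit 347), (nat_lit 347), (nat_lit 0), (nat_lit 381822), [(nat_lit 1983024000), (nat_lit 3370464000), (nat_lit 5021856000)], [], [(nat_lit 7029543582), (nat_lit 6448379150), (nat_lit 3000658556), (nat_lit 5382366326), (nat_lit 24888042834), (nat_lit 21308152497), (nat_lit 28952226102), (nat_lit 20358791192)], (nat_lit 1271251), (nat_lit 1271251), (nat_lit 780000), (nat_lit 1100000), (nat_lit 780000), (nat_lit 2990626), [(nat_lit 1100000), (nat_lit 1785001), (nat_lit 1271251)], [(nat_lit 18), (nat_lit 59), (nat_lit 456), (nat_lit 225), (nat_lit 11)]⟩,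
 ⟨⟨[(nat_lit 120), (nat_lit 160), (nat_lit 200)], [(nat_lit 0), (nat_lit 0), (nat_lit 3198)], [((nat_lit 0), (nat_lit 0), (nat_lit 0)), ((nat_lit 0), (nat_lit 0), (nat_lit 0)), ((nat_lit 572), (nat_lit 1000), (nat_lit 714))], ((nat_lit 0), (nat_lit 0), (nat_lit 0))⟩, (nat_lit 206342), (nat_lit 300), (nat_lit 864), (nat_lit 31386600), (nat_lit 1161561), [(nat_lit 3370464000), (nat_lit 5021856000), (nat_lit 6937200000)], [], [(nat_lit 25611046462), (nat_lit 25353255488), (nat_lit 25048553237), (nat_lit 24775877769), (nat_lit 22958301974), (nat_lit 22669851830), (nat_lit 22165213630), (nat_lit 21885788264)], (nat_lit 1100000), (nat_lit 1271251), (nat_lit 1271251), (nat_lit 1271251), (nat_lit 780000), (nat_lit 2990626), [(nat_lit 1695001), (nat_lit 1271251), (nat_lit 1271251)], [(nat_lit 29), (nat_lit 66), (nat_lit 456), (nat_lit 225), (nat_lit 9)]⟩⟩)) (.leaf ⟨(nat_lit 931), (nat_lit 0), (nat_lit 0), (nat_lit 69), (nat_lit 0), (nat_lit 3798), (nat_lit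 814), (nat_lit 737), (nat_lit 0), (nat_lit 0), (nat_lit 232750), [((nat_lit 360), [((nat_lit 22), (nat_lit 0), (nat_lit 931))])], ⟨(nat_lit 6), false, false, false, (nat_lit 214), (nat_lit 3162), (nat_lit 3873), [(nat_lit 1478975), (nat_lit 1483267), (nat_lit 1522504), (nat_lit 1527519), (nat_lit 1543529), (nat_lit 1544252), (nat_lit 1587058), (nat_lit 1588504)]⟩, ⟨(nat_lit 6), false, false, true, (nat_lit 240), (nat_lit 3162), (nat_lit 3873), [(nat_lit 1520934), (nat_lit 1516642), (nat_lit 1542727), (nat_lit 1538797), (nat_lit 1666107), (nat_lit 1653787), (nat_lit 1687900), (nat_lit 1675942)]⟩, (nat_lit 5253392), (nat_lit 38662930), (nat_lit 12848194), (nat_lit 15488876), (nat_lit 0), (nat_lit 0), [], [⟨(nat_lit 1), (nat_lit 85), (nat_lit 67), (nat_lit 100), (nat_lit 212383134)⟩], [], [],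
 ⟨⟨[(nat_lit 40), (nat_lit 80), (nat_lit 120)], [(nat_lit 0), (nat_lit 795), (nat_lit 2800)], [((nat_lit 0), (nat_lit 0), (nat_lit 0)), ((nat_lit 1000), (nat_lit 814), (nat_lit 310)), ((nat_lit 1000), (nat_lit 719), (nat_lit 783))], ((nat_lit 71), (nat_lit 100), (nat_lit 71))⟩, (nat_lit 0), (nat_lit 65), (nat_lit 65), (nat_lit 0), (nat_lit 0), [(nat_lit 1592587618), (nat_lit 2158286803), (nat_lit 3075036400)], [(nat_lit 0), (nat_lit 0), (nat_lit 0)], [(nat_lit 21758163269), (nat_lit 22991128829), (nat_lit 22745600282), (nat_lit 23926182245), (nat_lit 25674907094), (nat_lit 26748554463), (nat_lit 26431761802), (nat_lit 27440798082)], (nat_lit 0), (nat_lit 0), (nat_lit 0), (nat_lit 0), (nat_lit 0), (nat_lit 0), [], [(nat_lit 4), (nat_lit 51), (nat_lit 260), (nat_lit 50), (nat_lit 7)]⟩,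
 ⟨⟨[(nat_lit 80), (nat_lit 120), (nat_lit 160)], [(nat_lit 0), (nat_lit 0), (nat_lit 2132)], [((nat_lit 0), (nat_lit 0), (nat_lit 0)), ((nat_lit 0), (nat_lit 0), (nat_lit 0)), ((nat_lit 858), (nat_lit 1000), (nat_lit 713))], ((nat_lit 100), (nat_lit 85), (nat_lit 73))⟩, (nat_lit 197459), (nat_lit 329), (nat_lit 329), (nat_lit 0), (nat_lit 381822), [(nat_lit 323472000), (nat_lit 549792000), (nat_lit 819168000)], [], [(nat_lit 2315940080), (nat_lit 1475996833), (nat_lit 1701443046), (nat_lit 1511089049), (nat_lit 4003419060), (nat_lit 3280305416), (nat_lit 4490018948), (nat_lit 3775870700)], (nat_lit 1271251), (nat_lit 1271251), (nat_lit 1100000), (nat_lit 1442501), (nat_lit 780000), (nat_lit 3072501), [(nat_lit 1100000), (nat_lit 1785001), (nat_lit 1271251)], [(nat_lit 18), (nat_lit 59), (nat_lit 456), (nat_lit 225), (nat_lit 11)]⟩,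
 ⟨⟨[(nat_lit 120), (nat_lit 160), (nat_lit 200)], [(nat_lit 0), (nat_lit 0), (nat_lit 3198)], [((nat_lit 0), (nat_lit 0), (nat_lit 0)), ((nat_lit 0), (nat_lit 0), (nat_lit 0)), ((nat_lit 572), (nat_lit 1000), (nat_lit 714))], ((nat_lit 0), (nat_lit 0), (nat_lit 0))⟩, (nat_lit 33659), (nat_lit 300), (nat_lit 864), (nat_lit 5119800), (nat_lit 1161561), [(nat_lit 549792000), (nat_lit 819168000), (nat_lit 1131600000)], [], [(nat_lit 4193984426), (nat_lit 4152263069), (nat_lit 4103224370), (nat_lit 4059084682), (nat_lit 3759912448), (nat_lit 3712909810), (nat_lit 3629835043), (nat_lit 3583579075)], (nat_lit 1100000), (nat_lit 1271251), (nat_lit 1271251), (nat_lit 1271251), (nat_lit 780000), (nat_lit 3072501), [(nat_lit 1695001), (nat_lit 1271251), (nat_lit 1271251)], [(nat_lit 29), (nat_lit 66), (nat_lit 483), (nat_lit 250), (nat_lit 10)]⟩⟩))) (.spl (nat_lit 0) (nat_lit 350) (.spl (nat_lit 6) (nat_lit 52) (.leaf ⟨(nat_lit 0), (nat_lit 640), (nat_lit 0),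 (nat_lit 360), (nat_lit 1725), (nat_lit 5889), (nat_lit 10831), (nat_lit 4464), (nat_lit 0), (nat_lit 0), (nat_lit 0), [], Pd.none, Pd.none, (nat_lit 0), (nat_lit 1), (nat_lit 0), (nat_lit 0), (nat_lit 6), (nat_lit 0), [], [⟨(nat_lit 1), (nat_lit 83), (nat_lit 70), (nat_lit 100), (nat_lit 205851858)⟩], [], [⟨(nat_lit 0), (nat_lit 92), (nat_lit 100), (nat_lit 61), (nat_lit 148318)⟩],
 ⟨⟨[(nat_lit 40), (nat_lit 80), (nat_lit 100)], [(nat_lit 0), (nat_lit 795), (nat_lit 1829)], [((nat_lit 0), (nat_lit 0), (nat_lit 0)), ((nat_lit 1000), (nat_lit 814), (nat_lit 310)), ((nat_lit 1000), (nat_lit 714), (nat_lit 692))], ((nat_lit 71), (nat_lit 100), (nat_lit 67))⟩, (nat_lit 0), (nat_lit 58), (nat_lit 58), (nat_lit 0), (nat_lit 0), [(nat_lit 2524449476), (nat_lit 4688000045), (nat_lit 6250000000)], [], [(nat_lit 23683128930), (nat_lit 24457245453), (nat_lit 26461563593), (nat_lit 27115705178), (nat_lit 28094116352), (nat_lit 28715682341), (nat_lit 30288426458),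 (nat_lit 30902075837)], (nat_lit 0), (nat_lit 0), (nat_lit 0), (nat_lit 0), (nat_lit 0), (nat_lit 0), [], [(nat_lit 3), (nat_lit 50), (nat_lit 203), (nat_lit 0), (nat_lit 6)]⟩,
 ⟨⟨[(nat_lit 80), (nat_lit 120), (nat_lit 160)], [(nat_lit 0), (nat_lit 0), (nat_lit 2132)], [((nat_lit 0), (nat_lit 0), (nat_lit 0)), ((nat_lit 0), (nat_lit 0), (nat_lit 0)), ((nat_lit 858), (nat_lit 1000), (nat_lit 713))], ((nat_lit 100), (nat_lit 88), (nat_lit 69))⟩, (nat_lit 3307054), (nat_lit 362), (nat_lit 362), (nat_lit 0), (nat_lit 255055), [(nat_lit 4688000000), (nat_lit 7968000000), (nat_lit 11872000000)], [], [(nat_lit 34514049780), (nat_lit 30241666926), (nat_lit 31430816674), (nat_lit 34072824469), (nat_lit 43646475786), (nat_lit 35394284431), (nat_lit 35734500190), (nat_lit 37449797507)], (nat_lit 1271251), (nat_lit 1271251), (nat_lit 1271251), (nat_lit 1271251), (nat_lit 0), (nat_lit 2825001), [(nat_lit 1100000), (nat_lit 1785001), (nat_lit 1271251)], [(nat_lit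 18), (nat_lit 59), (nat_lit 483), (nat_lit 250), (nat_lit 12)]⟩,
 ⟨⟨[(nat_lit 120), (nat_lit 160), (nat_lit 200)], [(nat_lit 0), (nat_lit 0), (nat_lit 3198)], [((nat_lit 0), (nat_lit 0), (nat_lit 0)), ((nat_lit 0), (nat_lit 0), (nat_lit 0)), ((nat_lit 572), (nat_lit 1000), (nat_lit 714))], ((nat_lit 0), (nat_lit 0), (nat_lit 0))⟩, (nat_lit 175610), (nat_lit 300), (nat_lit 760), (nat_lit 26712000), (nat_lit 762689), [(nat_lit 2868480000), (nat_lit 4273920000), (nat_lit 5904000000)], [], [(nat_lit 23080389984), (nat_lit 22850688168), (nat_lit 22881453408), (nat_lit 22625108370), (nat_lit 19362801600), (nat_lit 20733639120), (nat_lit 17539053408), (nat_lit 17282708370)], (nat_lit 1100000), (nat_lit 1271251), (nat_lit 1271251), (nat_lit 1271251), (nat_lit 0), (nat_lit 2825001), [(nat_lit 1695001), (nat_lit 1271251), (nat_lit 1271251)], [(nat_lit 29), (nat_lit 66), (nat_lit 483), (nat_lit 250), (nat_lit 10)]⟩⟩) (.dle (nat_lit 0))) (.trX (nat_lit 4) (nat_lit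 0) (nat_lit 2) (nat_lit 66) (nat_lit 82) (nat_lit 100) (nat_lit 320) (.leaf ⟨(nat_lit 545), (nat_lit 302), (nat_lit 0), (nat_lit 153), (nat_lit 0), (nat_lit 4694), (nat_lit 4928), (nat_lit 1707), (nat_lit 0), (nat_lit 0), (nat_lit 136250), [((nat_lit 360), [((nat_lit 22), (nat_lit 0), (nat_lit 545))])], ⟨(nat_lit 6), false, true, false, (nat_lit 251), (nat_lit 3162), (nat_lit 3536), [(nat_lit 1543888), (nat_lit 1544293), (nat_lit 1587777), (nat_lit 1588586), (nat_lit 1669427), (nat_lit 1666215), (nat_lit 1713320), (nat_lit 1710513)]⟩, ⟨(nat_lit 6), false, false, true, (nat_lit 236), (nat_lit 3162), (nat_lit 3536), [(nat_lit 1518855), (nat_lit 1516642), (nat_lit 1540807), (nat_lit 1538797), (nat_lit 1644378), (nat_lit 1638549), (nat_lit 1666330), (nat_lit 1660704)]⟩, (nat_lit 5429320), (nat_lit 36540577), (nat_lit 15985425), (nat_lit 14473998), (nat_lit 6), (nat_lit 0), [], [⟨(nat_lit 1), (nat_lit 87), (nat_lit 64), (nat_lit 100), (nat_lit 237770837)⟩],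 [], [],
 ⟨⟨[(nat_lit 40), (nat_lit 80), (nat_lit 100)], [(nat_lit 0), (nat_lit 1195), (nat_lit 2166)], [((nat_lit 0), (nat_lit 0), (nat_lit 0)), ((nat_lit 1000), (nat_lit 720), (nat_lit 465)), ((nat_lit 1000), (nat_lit 662), (nat_lit 740))], ((nat_lit 66), (nat_lit 100), (nat_lit 72))⟩, (nat_lit 0), (nat_lit 59), (nat_lit 59), (nat_lit 0), (nat_lit 0), [(nat_lit 1912602855), (nat_lit 3207126001), (nat_lit 4114036000)], [(nat_lit 0), (nat_lit 0), (nat_lit 0)], [(nat_lit 23768154808), (nat_lit 24450305027), (nat_lit 26300517535), (nat_lit 26882346383), (nat_lit 27137468630), (nat_lit 27706798806), (nat_lit 29284460296), (nat_lit 29848458592)], (nat_lit 0), (nat_lit 0), (nat_lit 0), (nat_lit 0), (nat_lit 0), (nat_lit 0), [], [(nat_lit 3), (nat_lit 50), (nat_lit 203), (nat_lit 0), (nat_lit 6)]⟩,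
 ⟨⟨[(nat_lit 80), (nat_lit 120), (nat_lit 160)], [(nat_lit 0), (nat_lit 0), (nat_lit 2132)], [((nat_lit 0), (nat_lit 0), (nat_lit 0)), ((nat_lit 0), (nat_lit 0), (nat_lit 0)), ((nat_lit 858), (nat_lit 1000), (nat_lit 713))], ((nat_lit 100), (nat_lit 85), (nat_lit 73))⟩, (nat_lit 1528342), (nat_lit 411), (nat_lit 411), (nat_lit 0), (nat_lit 381822), [(nat_lit 2133040000), (nat_lit 3625440000), (nat_lit 5401760000)], [], [(nat_lit 15703842840), (nat_lit 13709530973), (nat_lit 14250592732), (nat_lit 15452691742), (nat_lit 19859147448), (nat_lit 16104285848), (nat_lit 16259089910), (nat_lit 17039543626)], (nat_lit 1271251), (nat_lit 1271251), (nat_lit 1271251), (nat_lit 1271251), (nat_lit 0), (nat_lit 2825001), [(nat_lit 1100000), (nat_lit 1785001), (nat_lit 1271251)], [(nat_lit 18), (nat_lit 59), (nat_lit 483), (nat_lit 250), (nat_lit 12)]⟩,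
 ⟨⟨[(nat_lit 120), (nat_lit 160), (nat_lit 200)], [(nat_lit 0), (nat_lit 0), (nat_lit 3198)], [((nat_lit 0), (nat_lit 0), (nat_lit 0)), ((nat_lit 0), (nat_lit 0), (nat_lit 0)), ((nat_lit 572), (nat_lit 1000), (nat_lit 714))], ((nat_lit 0), (nat_lit 0), (nat_lit 0))⟩, (nat_lit 74634), (nat_lit 300), (nat_lit 946), (nat_lit 11352603), (nat_lit 1161561), [(nat_lit 1219104000), (nat_lit 1816416000), (nat_lit 2509200000)], [], [(nat_lit 10286937852), (nat_lit 10185286350), (nat_lit 10077625764), (nat_lit 9970956963), (nat_lit 8145985788), (nat_lit 8680690815), (nat_lit 7807105164), (nat_lit 7700436363)], (nat_lit 1100000), (nat_lit 1271251), (nat_lit 1271251), (nat_lit 1271251), (nat_lit 0), (nat_lit 2825001), [(nat_lit 1695001), (nat_lit 1271251), (nat_lit 1271251)], [(nat_lit 29), (nat_lit 66), (nat_lit 456), (nat_lit 225), (nat_lit 10)]⟩⟩))))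
noncomputable def c8_69 : Tr Lf :=
 (.trX (nat_lit 5) (nat_lit 1) (nat_lit 2) (nat_lit 92) (nat_lit 49) (nat_lit 100) (nat_lit 380) (.spl (nat_lit 5) (nat_lit 120) (.leaf ⟨(nat_lit 0), (nat_lit 788), (nat_lit 0), (nat_lit 212), (nat_lit 0), (nat_lit 5753), (nat_lit 8998), (nat_lit 2720), (nat_lit 0), (nat_lit 0), (nat_lit 0), [], Pd.none, Pd.none, (nat_lit 0), (nat_lit 1), (nat_lit 0), (nat_lit 0), (nat_lit 6), (nat_lit 0), [⟨(nat_lit 0), (nat_lit 88), (nat_lit 67), (nat_lit 100), (nat_lit 363969134)⟩], [⟨(nat_lit 1), (nat_lit 85), (nat_lit 67), (nat_lit 100), (nat_lit 433085844)⟩], [], [],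
 ⟨⟨[(nat_lit 40), (nat_lit 80), (nat_lit 120)], [(nat_lit 0), (nat_lit 795), (nat_lit 2800)], [((nat_lit 0), (nat_lit 0), (nat_lit 0)), ((nat_lit 1000), (nat_lit 814), (nat_lit 310)), ((nat_lit 1000), (nat_lit 719), (nat_lit 783))], ((nat_lit 71), (nat_lit 100), (nat_lit 71))⟩, (nat_lit 0), (nat_lit 77), (nat_lit 77), (nat_lit 0), (nat_lit 0), [(nat_lit 2427962908), (nat_lit 4688000242), (nat_lit 7968000000)], [], [(nat_lit 22714976041), (nat_lit 24452135617), (nat_lit 26545553650), (nat_lit 27837377351), (nat_lit 27714306417), (nat_lit 29103362617), (nat_lit 30170838784), (nat_lit 31383507444)], (nat_lit 0), (nat_lit 0), (nat_lit 0), (nat_lit 0), (nat_lit 0), (nat_lit 0), [], [(nat_lit 4), (nat_lit 51), (nat_lit 289), (nat_lit 75), (nat_lit 8)]⟩,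
 ⟨⟨[(nat_lit 60), (nat_lit 100), (nat_lit 140)], [(nat_lit 0), (nat_lit 0), (nat_lit 2047)], [((nat_lit 0), (nat_lit 0), (nat_lit 0)), ((nat_lit 0), (nat_lit 0), (nat_lit 0)), ((nat_lit 1000), (nat_lit 993), (nat_lit 781))], ((nat_lit 99), (nat_lit 100), (nat_lit 77))⟩, (nat_lit 2465498), (nat_lit 422), (nat_lit 422), (nat_lit 0), (nat_lit 414907), [(nat_lit 3282000000), (nat_lit 6250000000), (nat_lit 9842000000)], [], [(nat_lit 27463958378), (nat_lit 28641247374), (nat_lit 30027230548), (nat_lit 32764114610), (nat_lit 21326088643), (nat_lit 23373403658), (nat_lit 36493186337), (nat_lit 28393911076)], (nat_lit 1271251), (nat_lit 1271251), (nat_lit 780000), (nat_lit 2090001), (nat_lit 0), (nat_lit 780000), [(nat_lit 780000), (nat_lit 1435001), (nat_lit 1271251)], [(nat_lit 11), (nat_lit 55), (nat_lit 317), (nat_lit 100), (nat_lit 9)]⟩,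
 ⟨⟨[(nat_lit 120), (nat_lit 160), (nat_lit 200)], [(nat_lit 0), (nat_lit 0), (nat_lit 3198)], [((nat_lit 0), (nat_lit 0), (nat_lit 0)), ((nat_lit 0), (nat_lit 0), (nat_lit 0)), ((nat_lit 572), (nat_lit 1000), (nat_lit 714))], ((nat_lit 0), (nat_lit 0), (nat_lit 0))⟩, (nat_lit 103415), (nat_lit 300), (nat_lit 1036), (nat_lit 15730400), (nat_lit 1329461), [(nat_lit 1689216000), (nat_lit 2516864000), (nat_lit 3476800000)], [], [(nat_lit 13461906928), (nat_lit 13319612124), (nat_lit 13328948696), (nat_lit 13184580771), (nat_lit 11229836008), (nat_lit 11092838962), (nat_lit 11079879842), (nat_lit 10927734253)], (nat_lit 1100000), (nat_lit 1271251), (nat_lit 1271251), (nat_lit 1271251), (nat_lit 0), (nat_lit 780000), [(nat_lit 1695001), (nat_lit 1271251), (nat_lit 1271251)], [(nat_lit 29), (nat_lit 66), (nat_lit 401), (nat_lit 175), (nat_lit 9)]⟩⟩) (.spl (nat_lit 5) (nat_lit 240) (.leaf ⟨(nat_lit 0), (nat_lit 760), (nat_lit 0), (nat_lit 240), (nat_lit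 0), (nat_lit 5753), (nat_lit 9231), (nat_lit 2757), (nat_lit 0), (nat_lit 0), (nat_lit 0), [], Pd.none, Pd.none, (nat_lit 0), (nat_lit 1), (nat_lit 0), (nat_lit 0), (nat_lit 6), (nat_lit 0), [⟨(nat_lit 0), (nat_lit 80), (nat_lit 60), (nat_lit 100), (nat_lit 97731803)⟩], [⟨(nat_lit 1), (nat_lit 85), (nat_lit 67), (nat_lit 100), (nat_lit 438038588)⟩], [], [],
 ⟨⟨[(nat_lit 40), (nat_lit 80), (nat_lit 120)], [(nat_lit 0), (nat_lit 795), (nat_lit 2800)], [((nat_lit 0), (nat_lit 0), (nat_lit 0)), ((nat_lit 1000), (nat_lit 814), (nat_lit 310)), ((nat_lit 1000), (nat_lit 719), (nat_lit 783))], ((nat_lit 71), (nat_lit 100), (nat_lit 71))⟩, (nat_lit 0), (nat_lit 77), (nat_lit 77), (nat_lit 0), (nat_lit 0), [(nat_lit 2597460171), (nat_lit 4688000008), (nat_lit 7968000000)], [], [(nat_lit 22714975807), (nat_lit 24452135383), (nat_lit 26545553416), (nat_lit 27837377117), (nat_lit 27714306183), (nat_lit 29103362617), (nat_lit 30170838784), (nat_lit 31383507444)],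 (nat_lit 0), (nat_lit 0), (nat_lit 0), (nat_lit 0), (nat_lit 0), (nat_lit 0), [], [(nat_lit 4), (nat_lit 51), (nat_lit 289), (nat_lit 75), (nat_lit 8)]⟩,
 ⟨⟨[(nat_lit 60), (nat_lit 100), (nat_lit 140)], [(nat_lit 0), (nat_lit 0), (nat_lit 2047)], [((nat_lit 0), (nat_lit 0), (nat_lit 0)), ((nat_lit 0), (nat_lit 0), (nat_lit 0)), ((nat_lit 1000), (nat_lit 993), (nat_lit 781))], ((nat_lit 99), (nat_lit 100), (nat_lit 77))⟩, (nat_lit 3284358), (nat_lit 343), (nat_lit 343), (nat_lit 0), (nat_lit 517837), [(nat_lit 3282000000), (nat_lit 6250000000), (nat_lit 9842000000)], [], [(nat_lit 17564876807), (nat_lit 20349189132), (nat_lit 23337506395), (nat_lit 24273635753), (nat_lit 19175062557), (nat_lit 21582939524), (nat_lit 38397811722), (nat_lit 30196086684)], (nat_lit 1271251), (nat_lit 1271251), (nat_lit 780000), (nat_lit 2090001), (nat_lit 780000), (nat_lit 1762501), [(nat_lit 780000), (nat_lit 1435001), (nat_lit 1271251)], [(nat_lit 11), (nat_lit 55),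 (nat_lit 373), (nat_lit 150), (nat_lit 10)]⟩,
 ⟨⟨[(nat_lit 120), (nat_lit 160), (nat_lit 200)], [(nat_lit 0), (nat_lit 0), (nat_lit 3198)], [((nat_lit 0), (nat_lit 0), (nat_lit 0)), ((nat_lit 0), (nat_lit 0), (nat_lit 0)), ((nat_lit 572), (nat_lit 1000), (nat_lit 714))], ((nat_lit 0), (nat_lit 0), (nat_lit 0))⟩, (nat_lit 117073), (nat_lit 300), (nat_lit 1302), (nat_lit 17808003), (nat_lit 2117295), [(nat_lit 1912320000), (nat_lit 2849280000), (nat_lit 3936000000)], [], [(nat_lit 13810393620), (nat_lit 13649550182), (nat_lit 13447281400), (nat_lit 13277566656), (nat_lit 12676837776), (nat_lit 12512095368), (nat_lit 12269900924), (nat_lit 12116130775)], (nat_lit 1100000), (nat_lit 1271251), (nat_lit 1271251), (nat_lit 1271251), (nat_lit 780000), (nat_lit 1762501), [(nat_lit 1695001), (nat_lit 1271251), (nat_lit 1271251)], [(nat_lit 29), (nat_lit 66), (nat_lit 428), (nat_lit 200), (nat_lit 9)]⟩⟩) (.spl (nat_lit 0) (nat_lit 350) (.leaf ⟨(nat_lit 0),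 (nat_lit 779), (nat_lit 0), (nat_lit 221), (nat_lit 0), (nat_lit 5846), (nat_lit 7401), (nat_lit 2333), (nat_lit 0), (nat_lit 0), (nat_lit 0), [], Pd.none, Pd.none, (nat_lit 0), (nat_lit 1), (nat_lit 0), (nat_lit 0), (nat_lit 6), (nat_lit 0), [⟨(nat_lit 0), (nat_lit 80), (nat_lit 66), (nat_lit 100), (nat_lit 577902391)⟩], [⟨(nat_lit 1), (nat_lit 83), (nat_lit 70), (nat_lit 100), (nat_lit 380200074)⟩], [⟨(nat_lit 1), (nat_lit 63), (nat_lit 88), (nat_lit 100), (nat_lit 318398112)⟩], [],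
 ⟨⟨[(nat_lit 40), (nat_lit 80), (nat_lit 120)], [(nat_lit 0), (nat_lit 795), (nat_lit 2800)], [((nat_lit 0), (nat_lit 0), (nat_lit 0)), ((nat_lit 1000), (nat_lit 814), (nat_lit 310)), ((nat_lit 1000), (nat_lit 719), (nat_lit 783))], ((nat_lit 71), (nat_lit 100), (nat_lit 71))⟩, (nat_lit 0), (nat_lit 73), (nat_lit 73), (nat_lit 0), (nat_lit 0), [(nat_lit 2497011237), (nat_lit 4688000060), (nat_lit 7968000000)], [], [(nat_lit 22658940987), (nat_lit 23536025649), (nat_lit 26488119225), (nat_lit 27139658762), (nat_lit 27696323400), (nat_lit 28397035766), (nat_lit 30251248002), (nat_lit 30862584535)], (nat_lit 0), (nat_lit 0), (nat_lit 0), (nat_lit 0), (nat_lit 0), (nat_lit 0), [], [(nat_lit 4), (nat_lit 51), (nat_lit 289), (nat_lit 75), (nat_lit 8)]⟩,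
 ⟨⟨[(nat_lit 60), (nat_lit 100), (nat_lit 140)], [(nat_lit 0), (nat_lit 0), (nat_lit 2047)], [((nat_lit 0), (nat_lit 0), (nat_lit 0)), ((nat_lit 0), (nat_lit 0), (nat_lit 0)), ((nat_lit 1000), (nat_lit 993), (nat_lit 781))], ((nat_lit 99), (nat_lit 100), (nat_lit 77))⟩, (nat_lit 2430574), (nat_lit 304), (nat_lit 304), (nat_lit 0), (nat_lit 430428), [(nat_lit 3282000000), (nat_lit 6250000000), (nat_lit 9842000000)], [], [(nat_lit 24244221215), (nat_lit 26168128656), (nat_lit 26585870498), (nat_lit 27913294474), (nat_lit 31051418787), (nat_lit 32223264907), (nat_lit 32119094895), (nat_lit 33786553986)], (nat_lit 1271251), (nat_lit 1271251), (nat_lit 780000), (nat_lit 2090001), (nat_lit 1271251), (nat_lit 1271251), [(nat_lit 780000), (nat_lit 1435001), (nat_lit 1271251)], [(nat_lit 11), (nat_lit 55), (nat_lit 401), (nat_lit 175), (nat_lit 11)]⟩,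
 ⟨⟨[(nat_lit 120), (nat_lit 160), (nat_lit 200)], [(nat_lit 0), (nat_lit 0), (nat_lit 3198)], [((nat_lit 0), (nat_lit 0), (nat_lit 0)), ((nat_lit 0), (nat_lit 0), (nat_lit 0)), ((nat_lit 572), (nat_lit 1000), (nat_lit 714))], ((nat_lit 0), (nat_lit 0), (nat_lit 0))⟩, (nat_lit 107805), (nat_lit 300), (nat_lit 1072), (nat_lit 16398200), (nat_lit 1749224), [(nat_lit 1760928000), (nat_lit 2623712000), (nat_lit 3624400000)], [], [(nat_lit 12862685236), (nat_lit 12717267085), (nat_lit 12434757798), (nat_lit 12285404243), (nat_lit 12279446425), (nat_lit 12127157318), (nat_lit 11813715702), (nat_lit 11662436653)], (nat_lit 1100000), (nat_lit 1271251), (nat_lit 1271251), (nat_lit 1271251), (nat_lit 1271251), (nat_lit 1271251), [(nat_lit 1695001), (nat_lit 1271251), (nat_lit 1271251)], [(nat_lit 29), (nat_lit 66), (nat_lit 456), (nat_lit 225), (nat_lit 9)]⟩⟩) (.trZ (nat_lit 0) (nat_lit 1) (nat_lit 3) (nat_lit 96) (nat_lit 69) (nat_lit 100) (nat_lit 130) (.trX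 (nat_lit 4) (nat_lit 0) (nat_lit 2) (nat_lit 66) (nat_lit 82) (nat_lit 100) (nat_lit 320) (.leaf ⟨(nat_lit 0), (nat_lit 802), (nat_lit 0), (nat_lit 198), (nat_lit 0), (nat_lit 5860), (nat_lit 7328), (nat_lit 2127), (nat_lit 0), (nat_lit 0), (nat_lit 0), [], Pd.none, Pd.none, (nat_lit 0), (nat_lit 1), (nat_lit 0), (nat_lit 0), (nat_lit 6), (nat_lit 0), [⟨(nat_lit 0), (nat_lit 80), (nat_lit 60), (nat_lit 100), (nat_lit 605426502)⟩], [⟨(nat_lit 1), (nat_lit 87), (nat_lit 64), (nat_lit 100), (nat_lit 425772842)⟩], [⟨(nat_lit 1), (nat_lit 63), (nat_lit 88), (nat_lit 100), (nat_lit 338286491)⟩], [],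
 ⟨⟨[(nat_lit 40), (nat_lit 80), (nat_lit 100)], [(nat_lit 0), (nat_lit 1195), (nat_lit 2166)], [((nat_lit 0), (nat_lit 0), (nat_lit 0)), ((nat_lit 1000), (nat_lit 720), (nat_lit 465)), ((nat_lit 1000), (nat_lit 662), (nat_lit 740))], ((nat_lit 66), (nat_lit 100), (nat_lit 72))⟩, (nat_lit 0), (nat_lit 70), (nat_lit 70), (nat_lit 0), (nat_lit 0), [(nat_lit 2472606873), (nat_lit 4688000019), (nat_lit 6250000000)], [], [(nat_lit 23521527633), (nat_lit 24387691654), (nat_lit 27131859884), (nat_lit 27784246599), (nat_lit 27667246817), (nat_lit 28378826289), (nat_lit 30298249490), (nat_lit 30927787480)], (nat_lit 0), (nat_lit 0), (nat_lit 0), (nat_lit 0), (nat_lit 0), (nat_lit 0), [], [(nat_lit 3), (nat_lit 50), (nat_lit 289), (nat_lit 75), (nat_lit 9)]⟩,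
 ⟨⟨[(nat_lit 60), (nat_lit 100), (nat_lit 140)], [(nat_lit 0), (nat_lit 0), (nat_lit 2047)], [((nat_lit 0), (nat_lit 0), (nat_lit 0)), ((nat_lit 0), (nat_lit 0), (nat_lit 0)), ((nat_lit 1000), (nat_lit 993), (nat_lit 781))], ((nat_lit 99), (nat_lit 100), (nat_lit 77))⟩, (nat_lit 2418366), (nat_lit 329), (nat_lit 329), (nat_lit 0), (nat_lit 516897), [(nat_lit 3282000000), (nat_lit 6250000000), (nat_lit 9842000000)], [], [(nat_lit 24331770616), (nat_lit 26216741554), (nat_lit 26754299726), (nat_lit 28077812654), (nat_lit 31006294714), (nat_lit 32155760418), (nat_lit 32049263496), (nat_lit 33710773708)], (nat_lit 1271251), (nat_lit 1271251), (nat_lit 857188), (nat_lit 2099376), (nat_lit 1271251), (nat_lit 1271251), [(nat_lit 780000), (nat_lit 1435001), (nat_lit 1271251)], [(nat_lit 11), (nat_lit 55), (nat_lit 401), (nat_lit 175), (nat_lit 11)]⟩,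
 ⟨⟨[(nat_lit 120), (nat_lit 160), (nat_lit 200)], [(nat_lit 0), (nat_lit 0), (nat_lit 3198)], [((nat_lit 0), (nat_lit 0), (nat_lit 0)), ((nat_lit 0), (nat_lit 0), (nat_lit 0)), ((nat_lit 572), (nat_lit 1000), (nat_lit 714))], ((nat_lit 0), (nat_lit 0), (nat_lit 0))⟩, (nat_lit 96585), (nat_lit 300), (nat_lit 1245), (nat_lit 14691606), (nat_lit 2117295), [(nat_lit 1577664000), (nat_lit 2350656000), (nat_lit 3247200000)], [], [(nat_lit 11343614844), (nat_lit 11206313991), (nat_lit 10931465532), (nat_lit 10792409742), (nat_lit 10758892875), (nat_lit 10624690368), (nat_lit 10416455169), (nat_lit 10278399057)], (nat_lit 1100000), (nat_lit 1271251), (nat_lit 1271251), (nat_lit 1271251), (nat_lit 1271251), (nat_lit 1271251), [(nat_lit 1695001), (nat_lit 1271251), (nat_lit 1271251)], [(nat_lit 29), (nat_lit 66), (nat_lit 456), (nat_lit 225), (nat_lit 9)]⟩⟩)))))))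
noncomputable def c8_70 : Tr Lf :=
 (.spl (nat_lit 1) (nat_lit 260) (.spl (nat_lit 2) (nat_lit 160) (.trX (nat_lit 4) (nat_lit 0) (nat_lit 2) (nat_lit 73) (nat_lit 85) (nat_lit 100) (nat_lit 320) (.spl (nat_lit 0) (nat_lit 350) (.spl (nat_lit 0) (nat_lit 345) (.spl (nat_lit 6) (nat_lit 48) (.leaf ⟨(nat_lit 0), (nat_lit 848), (nat_lit 0), (nat_lit 152), (nat_lit 13187), (nat_lit 4644), (nat_lit 7826), (nat_lit 2011), (nat_lit 0), (nat_lit 0), (nat_lit 0), [], Pd.none, Pd.none, (nat_lit 0), (nat_lit 1), (nat_lit 0), (nat_lit 0), (nat_lit 6), (nat_lit 0), [], [⟨(nat_lit 1), (nat_lit 93), (nat_lit 74), (nat_lit 100), (nat_lit 431977957)⟩], [], [],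
 ⟨⟨[(nat_lit 40), (nat_lit 80), (nat_lit 100)], [(nat_lit 0), (nat_lit 795), (nat_lit 1829)], [((nat_lit 0), (nat_lit 0), (nat_lit 0)), ((nat_lit 1000), (nat_lit 814), (nat_lit 310)), ((nat_lit 1000), (nat_lit 714), (nat_lit 692))], ((nat_lit 72), (nat_lit 100), (nat_lit 65))⟩, (nat_lit 2107000), (nat_lit 116), (nat_lit 116), (nat_lit 0), (nat_lit 123976), [(nat_lit 2117487885), (nat_lit 4688000015), (nat_lit 6250000000)], [], [(nat_lit 21997479308), (nat_lit 22356088497), (nat_lit 25555376325), (nat_lit 25844777931), (nat_lit 25669611132), (nat_lit 25968464588), (nat_lit 28679799500), (nat_lit 28960393423)], (nat_lit 1271251), (nat_lit 1271251), (nat_lit 780000), (nat_lit 2090001), (nat_lit 1271251), (nat_lit 1271251), [(nat_lit 490000), (nat_lit 1100000), (nat_lit 1442501)], [(nat_lit 3), (nat_lit 50), (nat_lit 289), (nat_lit 75), (nat_lit 10)]⟩,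
 ⟨⟨[(nat_lit 80), (nat_lit 120), (nat_lit 160)], [(nat_lit 0), (nat_lit 0), (nat_lit 2132)], [((nat_lit 0), (nat_lit 0), (nat_lit 0)), ((nat_lit 0), (nat_lit 0), (nat_lit 0)), ((nat_lit 858), (nat_lit 1000), (nat_lit 713))], ((nat_lit 100), (nat_lit 89), (nat_lit 66))⟩, (nat_lit 507425), (nat_lit 245), (nat_lit 245), (nat_lit 0), (nat_lit 80838), [(nat_lit 4688000000), (nat_lit 7968000000), (nat_lit 11872000000)], [], [(nat_lit 36368537880), (nat_lit 37132489450), (nat_lit 44914045616), (nat_lit 41299044044), (nat_lit 33630366914), (nat_lit 32291734053), (nat_lit 50948048890), (nat_lit 47470771223)], (nat_lit 1271251), (nat_lit 1271251), (nat_lit 780000), (nat_lit 2090001), (nat_lit 0), (nat_lit 780000), [(nat_lit 1100000), (nat_lit 1785001), (nat_lit 1271251)], [(nat_lit 18), (nat_lit 59), (nat_lit 401), (nat_lit 175), (nat_lit 10)]⟩,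
 ⟨⟨[(nat_lit 140), (nat_lit 180), (nat_lit 200)], [(nat_lit 0), (nat_lit 0), (nat_lit 2835)], [((nat_lit 0), (nat_lit 0), (nat_lit 0)), ((nat_lit 0), (nat_lit 0), (nat_lit 0)), ((nat_lit 363), (nat_lit 1000), (nat_lit 798))], ((nat_lit 0), (nat_lit 0), (nat_lit 0))⟩, (nat_lit 41820), (nat_lit 300), (nat_lit 535), (nat_lit 11871202), (nat_lit 215415), [(nat_lit 1495984000), (nat_lit 2136816000), (nat_lit 2492800000)], [], [(nat_lit 9824859552), (nat_lit 9525466056), (nat_lit 10042751520), (nat_lit 9714791428), (nat_lit 8137501338), (nat_lit 7840563227), (nat_lit 8214551378), (nat_lit 7912963952)], (nat_lit 780000), (nat_lit 1100000), (nat_lit 1271251), (nat_lit 1271251), (nat_lit 0), (nat_lit 780000), [(nat_lit 1977501), (nat_lit 1271251), (nat_lit 1271251)], [(nat_lit 32), (nat_lit 67), (nat_lit 373), (nat_lit 150), (nat_lit 8)]⟩⟩) (.dle (nat_lit 0))) (.trX (nat_lit 4) (nat_lit 0) (nat_lit 2) (nat_lit 70) (nat_lit 87) (nat_lit 100) (nat_lit 310)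 (.leaf ⟨(nat_lit 0), (nat_lit 869), (nat_lit 0), (nat_lit 131), (nat_lit 11737), (nat_lit 4373), (nat_lit 9290), (nat_lit 1733), (nat_lit 0), (nat_lit 0), (nat_lit 0), [], Pd.none, Pd.none, (nat_lit 0), (nat_lit 1), (nat_lit 0), (nat_lit 0), (nat_lit 6), (nat_lit 0), [], [⟨(nat_lit 1), (nat_lit 95), (nat_lit 71), (nat_lit 100), (nat_lit 468450545)⟩], [], [],
 ⟨⟨[(nat_lit 40), (nat_lit 80), (nat_lit 100)], [(nat_lit 0), (nat_lit 994), (nat_lit 1992)], [((nat_lit 0), (nat_lit 0), (nat_lit 0)), ((nat_lit 1000), (nat_lit 767), (nat_lit 387)), ((nat_lit 1000), (nat_lit 689), (nat_lit 725))], ((nat_lit 69), (nat_lit 100), (nat_lit 71))⟩, (nat_lit 2129263), (nat_lit 126), (nat_lit 126), (nat_lit 0), (nat_lit 160150), [(nat_lit 2032000035), (nat_lit 4718187104), (nat_lit 6250000000)], [], [(nat_lit 22145648051), (nat_lit 22472607509), (nat_lit 25592705268), (nat_lit 25873907396), (nat_lit 25216179040), (nat_lit 25513248338), (nat_lit 28329490020), (nat_lit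 28609284856)], (nat_lit 1271251), (nat_lit 1271251), (nat_lit 780000), (nat_lit 2090001), (nat_lit 1271251), (nat_lit 1271251), [(nat_lit 490000), (nat_lit 1100000), (nat_lit 1442501)], [(nat_lit 3), (nat_lit 50), (nat_lit 289), (nat_lit 75), (nat_lit 10)]⟩,
 ⟨⟨[(nat_lit 80), (nat_lit 120), (nat_lit 160)], [(nat_lit 0), (nat_lit 0), (nat_lit 2132)], [((nat_lit 0), (nat_lit 0), (nat_lit 0)), ((nat_lit 0), (nat_lit 0), (nat_lit 0)), ((nat_lit 858), (nat_lit 1000), (nat_lit 713))], ((nat_lit 100), (nat_lit 85), (nat_lit 73))⟩, (nat_lit 0), (nat_lit 325), (nat_lit 325), (nat_lit 0), (nat_lit 107895), [(nat_lit 4688000000), (nat_lit 7968000000), (nat_lit 11872000000)], [], [(nat_lit 37063030200), (nat_lit 37266269750), (nat_lit 44933686640), (nat_lit 40642431260), (nat_lit 31935770810), (nat_lit 31089940768), (nat_lit 51512808850), (nat_lit 47385041213)], (nat_lit 1271251), (nat_lit 1271251), (nat_lit 780000), (nat_lit 2090001), (nat_lit 0), (nat_lit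 780000), [(nat_lit 1100000), (nat_lit 1785001), (nat_lit 1271251)], [(nat_lit 18), (nat_lit 59), (nat_lit 401), (nat_lit 175), (nat_lit 10)]⟩,
 ⟨⟨[(nat_lit 140), (nat_lit 180), (nat_lit 200)], [(nat_lit 0), (nat_lit 0), (nat_lit 2835)], [((nat_lit 0), (nat_lit 0), (nat_lit 0)), ((nat_lit 0), (nat_lit 0), (nat_lit 0)), ((nat_lit 363), (nat_lit 1000), (nat_lit 798))], ((nat_lit 0), (nat_lit 0), (nat_lit 0))⟩, (nat_lit 36042), (nat_lit 300), (nat_lit 571), (nat_lit 10231105), (nat_lit 290091), [(nat_lit 1289302000), (nat_lit 1841598000), (nat_lit 2148400000)], [], [(nat_lit 8467585830), (nat_lit 8209434968), (nat_lit 8631750272), (nat_lit 8352212845), (nat_lit 7038996037), (nat_lit 6777835103), (nat_lit 7059562968), (nat_lit 6802650315)], (nat_lit 780000), (nat_lit 1100000), (nat_lit 1271251), (nat_lit 1271251), (nat_lit 0), (nat_lit 780000), [(nat_lit 1977501), (nat_lit 1271251), (nat_lit 1271251)], [(nat_lit 32), (nat_lit 67), (nat_lit 373), (nat_lit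 150), (nat_lit 8)]⟩⟩))) (.trX (nat_lit 4) (nat_lit 0) (nat_lit 2) (nat_lit 68) (nat_lit 89) (nat_lit 100) (nat_lit 300) (.spl (nat_lit 6) (nat_lit 48) (.leaf ⟨(nat_lit 244), (nat_lit 598), (nat_lit 0), (nat_lit 158), (nat_lit 2312), (nat_lit 3974), (nat_lit 6369), (nat_lit 2363), (nat_lit 0), (nat_lit 0), (nat_lit 61000), [((nat_lit 360), [((nat_lit 22), (nat_lit 0), (nat_lit 244))])], ⟨(nat_lit 6), false, false, false, (nat_lit 222), (nat_lit 3162), (nat_lit 3536), [(nat_lit 1418344), (nat_lit 1422365), (nat_lit 1440289), (nat_lit 1444512), (nat_lit 1669427), (nat_lit 1666215), (nat_lit 1691376), (nat_lit 1688367)]⟩, ⟨(nat_lit 6), false, false, true, (nat_lit 217), (nat_lit 3162), (nat_lit 3536), [(nat_lit 1474949), (nat_lit 1472332), (nat_lit 1518855), (nat_lit 1516642), (nat_lit 1569092), (nat_lit 1563762), (nat_lit 1612997), (nat_lit 1608072)]⟩, (nat_lit 5173486), (nat_lit 39707675), (nat_lit 13905718), (nat_lit 13386607), (nat_lit 6), (nat_lit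 0), [], [⟨(nat_lit 1), (nat_lit 89), (nat_lit 68), (nat_lit 100), (nat_lit 335632709)⟩], [], [],
 ⟨⟨[(nat_lit 40), (nat_lit 80), (nat_lit 100)], [(nat_lit 0), (nat_lit 1195), (nat_lit 2166)], [((nat_lit 0), (nat_lit 0), (nat_lit 0)), ((nat_lit 1000), (nat_lit 720), (nat_lit 465)), ((nat_lit 1000), (nat_lit 662), (nat_lit 740))], ((nat_lit 67), (nat_lit 100), (nat_lit 66))⟩, (nat_lit 1792715), (nat_lit 148), (nat_lit 148), (nat_lit 0), (nat_lit 227438), [(nat_lit 1826943663), (nat_lit 4025004005), (nat_lit 5293715200)], [(nat_lit 0), (nat_lit 0), (nat_lit 0)], [(nat_lit 22180213255), (nat_lit 22803436003), (nat_lit 25660096308), (nat_lit 26202600384), (nat_lit 24610695103), (nat_lit 25310511041), (nat_lit 27888230279), (nat_lit 28437133320)], (nat_lit 1271251), (nat_lit 1271251), (nat_lit 780000), (nat_lit 2090001), (nat_lit 1271251), (nat_lit 1271251), [(nat_lit 490000), (nat_lit 1100000), (nat_lit 1442501)], [(nat_lit 3), (nat_lit 50), (nat_lit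 289), (nat_lit 75), (nat_lit 10)]⟩,
 ⟨⟨[(nat_lit 80), (nat_lit 120), (nat_lit 160)], [(nat_lit 0), (nat_lit 0), (nat_lit 2132)], [((nat_lit 0), (nat_lit 0), (nat_lit 0)), ((nat_lit 0), (nat_lit 0), (nat_lit 0)), ((nat_lit 858), (nat_lit 1000), (nat_lit 713))], ((nat_lit 100), (nat_lit 89), (nat_lit 66))⟩, (nat_lit 0), (nat_lit 345), (nat_lit 345), (nat_lit 0), (nat_lit 158116), [(nat_lit 3544128000), (nat_lit 6023808000), (nat_lit 8975232000)], [], [(nat_lit 27709292460), (nat_lit 28596969399), (nat_lit 33961089816), (nat_lit 31019108598), (nat_lit 24900732729), (nat_lit 24503529517), (nat_lit 38691300597), (nat_lit 35861402634)], (nat_lit 1271251), (nat_lit 1271251), (nat_lit 780000), (nat_lit 2090001), (nat_lit 0), (nat_lit 780000), [(nat_lit 1100000), (nat_lit 1785001), (nat_lit 1271251)], [(nat_lit 18), (nat_lit 59), (nat_lit 401), (nat_lit 175), (nat_lit 10)]⟩,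
 ⟨⟨[(nat_lit 140), (nat_lit 180), (nat_lit 200)], [(nat_lit 0), (nat_lit 0), (nat_lit 2835)], [((nat_lit 0), (nat_lit 0), (nat_lit 0)), ((nat_lit 0), (nat_lit 0), (nat_lit 0)), ((nat_lit 363), (nat_lit 1000), (nat_lit 798))], ((nat_lit 0), (nat_lit 0), (nat_lit 0))⟩, (nat_lit 43471), (nat_lit 300), (nat_lit 652), (nat_lit 12339800), (nat_lit 423801), [(nat_lit 1555036000), (nat_lit 2221164000), (nat_lit 2591200000)], [], [(nat_lit 10334890036), (nat_lit 9924778248), (nat_lit 10455683376), (nat_lit 10064745897), (nat_lit 8335325130), (nat_lit 7948184866), (nat_lit 8283400340), (nat_lit 7923547384)], (nat_lit 780000), (nat_lit 1100000), (nat_lit 1271251), (nat_lit 1271251), (nat_lit 0), (nat_lit 780000), [(nat_lit 1977501), (nat_lit 1271251), (nat_lit 1271251)], [(nat_lit 32), (nat_lit 67), (nat_lit 373), (nat_lit 150), (nat_lit 8)]⟩⟩) (.leaf ⟨(nat_lit 0), (nat_lit 866), (nat_lit 0), (nat_lit 134), (nat_lit 12105), (nat_lit 4757), (nat_lit 8552), (nat_lit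 1775), (nat_lit 0), (nat_lit 0), (nat_lit 0), [], Pd.none, Pd.none, (nat_lit 0), (nat_lit 1), (nat_lit 0), (nat_lit 0), (nat_lit 6), (nat_lit 0), [], [⟨(nat_lit 1), (nat_lit 97), (nat_lit 66), (nat_lit 100), (nat_lit 495932026)⟩], [], [],
 ⟨⟨[(nat_lit 40), (nat_lit 80), (nat_lit 100)], [(nat_lit 0), (nat_lit 1195), (nat_lit 2166)], [((nat_lit 0), (nat_lit 0), (nat_lit 0)), ((nat_lit 1000), (nat_lit 720), (nat_lit 465)), ((nat_lit 1000), (nat_lit 662), (nat_lit 740))], ((nat_lit 66), (nat_lit 100), (nat_lit 72))⟩, (nat_lit 1703365), (nat_lit 115), (nat_lit 115), (nat_lit 0), (nat_lit 113474), [(nat_lit 2179558251), (nat_lit 4879860386), (nat_lit 6250000000)], [], [(nat_lit 22818267143), (nat_lit 23544891302), (nat_lit 26149946720), (nat_lit 26770053012), (nat_lit 25506037982), (nat_lit 26141016826), (nat_lit 28525964106), (nat_lit 29122595010)], (nat_lit 1271251), (nat_lit 1271251), (nat_lit 780000), (nat_lit 2090001), (nat_lit 1271251), (nat_lit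 1271251), [(nat_lit 490000), (nat_lit 1100000), (nat_lit 1442501)], [(nat_lit 3), (nat_lit 50), (nat_lit 289), (nat_lit 75), (nat_lit 10)]⟩,
 ⟨⟨[(nat_lit 80), (nat_lit 120), (nat_lit 160)], [(nat_lit 0), (nat_lit 0), (nat_lit 2132)], [((nat_lit 0), (nat_lit 0), (nat_lit 0)), ((nat_lit 0), (nat_lit 0), (nat_lit 0)), ((nat_lit 858), (nat_lit 1000), (nat_lit 713))], ((nat_lit 100), (nat_lit 85), (nat_lit 73))⟩, (nat_lit 0), (nat_lit 245), (nat_lit 245), (nat_lit 0), (nat_lit 81794), [(nat_lit 4688000000), (nat_lit 7968000000), (nat_lit 11872000000)], [], [(nat_lit 36712937760), (nat_lit 37744180100), (nat_lit 44923785632), (nat_lit 40973428688), (nat_lit 32790013928), (nat_lit 32217441854), (nat_lit 51228114280), (nat_lit 47428257570)], (nat_lit 1271251), (nat_lit 1271251), (nat_lit 780000), (nat_lit 2090001), (nat_lit 0), (nat_lit 780000), [(nat_lit 1100000), (nat_lit 1785001), (nat_lit 1271251)], [(nat_lit 18), (nat_lit 59), (nat_lit 401), (nat_lit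 175), (nat_lit 10)]⟩,
 ⟨⟨[(nat_lit 140), (nat_lit 180), (nat_lit 200)], [(nat_lit 0), (nat_lit 0), (nat_lit 2835)], [((nat_lit 0), (nat_lit 0), (nat_lit 0)), ((nat_lit 0), (nat_lit 0), (nat_lit 0)), ((nat_lit 363), (nat_lit 1000), (nat_lit 798))], ((nat_lit 0), (nat_lit 0), (nat_lit 0))⟩, (nat_lit 36868), (nat_lit 300), (nat_lit 541), (nat_lit 10465400), (nat_lit 227371), [(nat_lit 1318828000), (nat_lit 1883772000), (nat_lit 2197600000)], [], [(nat_lit 8662005360), (nat_lit 8397633000), (nat_lit 8806030704), (nat_lit 8522751909), (nat_lit 7174182375), (nat_lit 6911091451), (nat_lit 7198803398), (nat_lit 6938596474)], (nat_lit 780000), (nat_lit 1100000), (nat_lit 1271251), (nat_lit 1271251), (nat_lit 0), (nat_lit 780000), [(nat_lit 1977501), (nat_lit 1271251), (nat_lit 1271251)], [(nat_lit 32), (nat_lit 67), (nat_lit 373), (nat_lit 150), (nat_lit 8)]⟩⟩))))) (.spl (nat_lit 6) (nat_lit 52) (.leaf ⟨(nat_lit 0), (nat_lit 526), (nat_lit 0), (nat_lit 474),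 (nat_lit 1977), (nat_lit 4501), (nat_lit 8424), (nat_lit 4890), (nat_lit 0), (nat_lit 0), (nat_lit 0), [], Pd.none, Pd.none, (nat_lit 0), (nat_lit 1), (nat_lit 0), (nat_lit 0), (nat_lit 6), (nat_lit 0), [], [⟨(nat_lit 1), (nat_lit 85), (nat_lit 67), (nat_lit 100), (nat_lit 14805628)⟩], [], [],
 ⟨⟨[(nat_lit 40), (nat_lit 80), (nat_lit 100)], [(nat_lit 0), (nat_lit 795), (nat_lit 1829)], [((nat_lit 0), (nat_lit 0), (nat_lit 0)), ((nat_lit 1000), (nat_lit 814), (nat_lit 310)), ((nat_lit 1000), (nat_lit 714), (nat_lit 692))], ((nat_lit 71), (nat_lit 100), (nat_lit 67))⟩, (nat_lit 2026686), (nat_lit 133), (nat_lit 133), (nat_lit 0), (nat_lit 147679), [(nat_lit 2058452617), (nat_lit 4688004987), (nat_lit 6250000000)], [], [(nat_lit 22233021888), (nat_lit 23643652862), (nat_lit 25765977785), (nat_lit 26847843570), (nat_lit 26420282677), (nat_lit 27566614310), (nat_lit 29088340491), (nat_lit 30166326190)], (nat_lit 1271251), (nat_lit 1271251), (nat_lit 780000),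 (nat_lit 2090001), (nat_lit 1271251), (nat_lit 1271251), [(nat_lit 490000), (nat_lit 1100000), (nat_lit 1442501)], [(nat_lit 3), (nat_lit 50), (nat_lit 289), (nat_lit 75), (nat_lit 10)]⟩,
 ⟨⟨[(nat_lit 80), (nat_lit 120), (nat_lit 160)], [(nat_lit 0), (nat_lit 0), (nat_lit 2132)], [((nat_lit 0), (nat_lit 0), (nat_lit 0)), ((nat_lit 0), (nat_lit 0), (nat_lit 0)), ((nat_lit 858), (nat_lit 1000), (nat_lit 713))], ((nat_lit 100), (nat_lit 88), (nat_lit 69))⟩, (nat_lit 0), (nat_lit 321), (nat_lit 321), (nat_lit 0), (nat_lit 96738), [(nat_lit 4688000000), (nat_lit 7968000000), (nat_lit 11872000000)], [], [(nat_lit 36652426048), (nat_lit 37827069700), (nat_lit 44922068384), (nat_lit 41030837456), (nat_lit 32938175336), (nat_lit 32412997598), (nat_lit 51178736360), (nat_lit 47435753090)], (nat_lit 1271251), (nat_lit 1271251), (nat_lit 780000), (nat_lit 2090001), (nat_lit 0), (nat_lit 780000), [(nat_lit 1100000), (nat_lit 1785001), (nat_lit 1271251)], [(nat_lit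 18), (nat_lit 59), (nat_lit 401), (nat_lit 175), (nat_lit 10)]⟩,
 ⟨⟨[(nat_lit 120), (nat_lit 160), (nat_lit 200)], [(nat_lit 0), (nat_lit 0), (nat_lit 3198)], [((nat_lit 0), (nat_lit 0), (nat_lit 0)), ((nat_lit 0), (nat_lit 0), (nat_lit 0)), ((nat_lit 572), (nat_lit 1000), (nat_lit 714))], ((nat_lit 0), (nat_lit 0), (nat_lit 0))⟩, (nat_lit 231220), (nat_lit 300), (nat_lit 484), (nat_lit 35170800), (nat_lit 178843), [(nat_lit 3776832000), (nat_lit 5627328000), (nat_lit 7773600000)], [], [(nat_lit 29170576249), (nat_lit 29023155194), (nat_lit 29659155291), (nat_lit 29489467829), (nat_lit 25229391399), (nat_lit 25087185795), (nat_lit 25636230344), (nat_lit 25450163425)], (nat_lit 1100000), (nat_lit 1271251), (nat_lit 1271251), (nat_lit 1271251), (nat_lit 0), (nat_lit 780000), [(nat_lit 1695001), (nat_lit 1271251), (nat_lit 1271251)], [(nat_lit 29), (nat_lit 66), (nat_lit 401), (nat_lit 175), (nat_lit 9)]⟩⟩) (.dle (nat_lit 0)))) (.leaf ⟨(nat_lit 0),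 (nat_lit 798), (nat_lit 0), (nat_lit 202), (nat_lit 8839), (nat_lit 4865), (nat_lit 9529), (nat_lit 2979), (nat_lit 0), (nat_lit 0), (nat_lit 0), [], Pd.none, Pd.none, (nat_lit 0), (nat_lit 1), (nat_lit 0), (nat_lit 0), (nat_lit 6), (nat_lit 0), [⟨(nat_lit 0), (nat_lit 100), (nat_lit 71), (nat_lit 100), (nat_lit 67508167)⟩], [⟨(nat_lit 1), (nat_lit 92), (nat_lit 68), (nat_lit 100), (nat_lit 366586476)⟩], [], [],
 ⟨⟨[(nat_lit 40), (nat_lit 80), (nat_lit 120)], [(nat_lit 0), (nat_lit 795), (nat_lit 2800)], [((nat_lit 0), (nat_lit 0), (nat_lit 0)), ((nat_lit 1000), (nat_lit 814), (nat_lit 310)), ((nat_lit 1000), (nat_lit 719), (nat_lit 783))], ((nat_lit 71), (nat_lit 100), (nat_lit 71))⟩, (nat_lit 2223724), (nat_lit 195), (nat_lit 195), (nat_lit 0), (nat_lit 305578), [(nat_lit 2032001400), (nat_lit 4688000139), (nat_lit 7968000000)], [], [(nat_lit 23136214009), (nat_lit 24292846854), (nat_lit 25804607929), (nat_lit 26848322340), (nat_lit 26533854339),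 (nat_lit 28013400559), (nat_lit 29403060442), (nat_lit 30520203168)], (nat_lit 1271251), (nat_lit 1271251), (nat_lit 780000), (nat_lit 2090001), (nat_lit 1271251), (nat_lit 1271251), [(nat_lit 490000), (nat_lit 1100000), (nat_lit 1785001)], [(nat_lit 4), (nat_lit 51), (nat_lit 289), (nat_lit 75), (nat_lit 8)]⟩,
 ⟨⟨[(nat_lit 80), (nat_lit 120), (nat_lit 160)], [(nat_lit 0), (nat_lit 528), (nat_lit 2577)], [((nat_lit 0), (nat_lit 0), (nat_lit 0)), ((nat_lit 1000), (nat_lit 959), (nat_lit 206)), ((nat_lit 929), (nat_lit 1000), (nat_lit 742))], ((nat_lit 100), (nat_lit 92), (nat_lit 75))⟩, (nat_lit 2280970), (nat_lit 360), (nat_lit 360), (nat_lit 0), (nat_lit 186091), [(nat_lit 4688000000), (nat_lit 7968000000), (nat_lit 11872000000)], [], [(nat_lit 31045233110), (nat_lit 31284255792), (nat_lit 39330886166), (nat_lit 34929231428), (nat_lit 25993007469), (nat_lit 24750211929), (nat_lit 46166693512), (nat_lit 41932732498)], (nat_lit 1271251), (nat_lit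 1271251), (nat_lit 780000), (nat_lit 2090001), (nat_lit 0), (nat_lit 780000), [(nat_lit 1100000), (nat_lit 1785001), (nat_lit 1271251)], [(nat_lit 18), (nat_lit 59), (nat_lit 401), (nat_lit 175), (nat_lit 10)]⟩,
 ⟨⟨[(nat_lit 140), (nat_lit 180), (nat_lit 200)], [(nat_lit 0), (nat_lit 0), (nat_lit 2835)], [((nat_lit 0), (nat_lit 0), (nat_lit 0)), ((nat_lit 0), (nat_lit 0), (nat_lit 0)), ((nat_lit 363), (nat_lit 1000), (nat_lit 798))], ((nat_lit 0), (nat_lit 0), (nat_lit 0))⟩, (nat_lit 55577), (nat_lit 300), (nat_lit 707), (nat_lit 15776200), (nat_lit 553310), [(nat_lit 1988084000), (nat_lit 2839716000), (nat_lit 3312800000)], [], [(nat_lit 13263884500), (nat_lit 12583335750), (nat_lit 13517491245), (nat_lit 12874297042), (nat_lit 10747090178), (nat_lit 10101324231), (nat_lit 10762099657), (nat_lit 10166010669)], (nat_lit 780000), (nat_lit 1271251), (nat_lit 1271251), (nat_lit 1271251), (nat_lit 0), (nat_lit 780000), [(nat_lit 1977501), (nat_lit 1271251),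 (nat_lit 1271251)], [(nat_lit 32), (nat_lit 67), (nat_lit 401), (nat_lit 175), (nat_lit 9)]⟩⟩))
noncomputable def c8_71 : Tr Lf :=
 (.stt (nat_lit 2) (.spl (nat_lit 0) (nat_lit 350) (.leaf ⟨(nat_lit 681), (nat_lit 171), (nat_lit 0), (nat_lit 148), (nat_lit 0), (nat_lit 3948), (nat_lit 2817), (nat_lit 1631), (nat_lit 0), (nat_lit 0), (nat_lit 681000), [((nat_lit 350), [((nat_lit 22), (nat_lit 2), (nat_lit 681))])], ⟨(nat_lit 6), true, false, false, (nat_lit 226), (nat_lit 3535), (nat_lit 3873), [(nat_lit 1414519), (nat_lit 1418358), (nat_lit 1458093), (nat_lit 1462251), (nat_lit 1672628), (nat_lit 1669426), (nat_lit 1716203), (nat_lit 1713320)]⟩, ⟨(nat_lit 6), false, false, true, (nat_lit 232), (nat_lit 3535), (nat_lit 3873), [(nat_lit 1477347), (nat_lit 1474949), (nat_lit 1542727), (nat_lit 1540807), (nat_lit 1622521), (nat_lit 1616163), (nat_lit 1687900), (nat_lit 1682021)]⟩, (nat_lit 5286248), (nat_lit 38400202), (nat_lit 13999692), (nat_lit 14600106),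 (nat_lit 6), (nat_lit 0), [⟨(nat_lit 0), (nat_lit 96), (nat_lit 69), (nat_lit 100), (nat_lit 61769818)⟩], [⟨(nat_lit 1), (nat_lit 90), (nat_lit 71), (nat_lit 100), (nat_lit 293012453)⟩], [], [],
 ⟨⟨[(nat_lit 40), (nat_lit 80), (nat_lit 120)], [(nat_lit 0), (nat_lit 795), (nat_lit 2800)], [((nat_lit 0), (nat_lit 0), (nat_lit 0)), ((nat_lit 1000), (nat_lit 814), (nat_lit 310)), ((nat_lit 1000), (nat_lit 719), (nat_lit 783))], ((nat_lit 71), (nat_lit 100), (nat_lit 71))⟩, (nat_lit 122365), (nat_lit 174), (nat_lit 174), (nat_lit 0), (nat_lit 241492), [(nat_lit 1525928317), (nat_lit 1429316612), (nat_lit 0)], [(nat_lit 0), (nat_lit 0), (nat_lit 58644604)], [(nat_lit 20979733850), (nat_lit 21474009095), (nat_lit 24937610392), (nat_lit 25560684080), (nat_lit 25559004835), (nat_lit 26223423864), (nat_lit 28610208257), (nat_lit 29119456827)], (nat_lit 1271251), (nat_lit 1271251), (nat_lit 780000), (nat_lit 2090001), (nat_lit 1271251), (nat_lit 1271251), [(nat_lit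 490000), (nat_lit 1100000), (nat_lit 1785001)], [(nat_lit 4), (nat_lit 51), (nat_lit 289), (nat_lit 75), (nat_lit 8)]⟩,
 ⟨⟨[(nat_lit 80), (nat_lit 120), (nat_lit 160)], [(nat_lit 0), (nat_lit 0), (nat_lit 2132)], [((nat_lit 0), (nat_lit 0), (nat_lit 0)), ((nat_lit 0), (nat_lit 0), (nat_lit 0)), ((nat_lit 858), (nat_lit 1000), (nat_lit 713))], ((nat_lit 100), (nat_lit 85), (nat_lit 73))⟩, (nat_lit 1019726), (nat_lit 165), (nat_lit 165), (nat_lit 0), (nat_lit 0), [(nat_lit 1495472000), (nat_lit 2541792000), (nat_lit 3787168000)], [], [(nat_lit 6118100023), (nat_lit 7109852092), (nat_lit 7651134591), (nat_lit 8327709156), (nat_lit 10435851892), (nat_lit 10834241807), (nat_lit 10744951672), (nat_lit 11252246487)], (nat_lit 0), (nat_lit 0), (nat_lit 0), (nat_lit 0), (nat_lit 0), (nat_lit 0), [], [(nat_lit 18), (nat_lit 59), (nat_lit 483), (nat_lit 250), (nat_lit 12)]⟩,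
 ⟨⟨[(nat_lit 140), (nat_lit 180), (nat_lit 200)], [(nat_lit 0), (nat_lit 0), (nat_lit 2835)], [((nat_lit 0), (nat_lit 0), (nat_lit 0)), ((nat_lit 0), (nat_lit 0), (nat_lit 0)), ((nat_lit 363), (nat_lit 1000), (nat_lit 798))], ((nat_lit 0), (nat_lit 0), (nat_lit 0))⟩, (nat_lit 40720), (nat_lit 300), (nat_lit 915), (nat_lit 11558800), (nat_lit 1218867), [(nat_lit 1456616000), (nat_lit 2080584000), (nat_lit 2427200000)], [], [(nat_lit 9515790370), (nat_lit 9162377229), (nat_lit 9315579165), (nat_lit 8950097782), (nat_lit 8550044552), (nat_lit 8172474054), (nat_lit 8260605642), (nat_lit 7875878525)], (nat_lit 780000), (nat_lit 1271251), (nat_lit 1271251), (nat_lit 1271251), (nat_lit 780000), (nat_lit 3072501), [(nat_lit 1977501), (nat_lit 1271251), (nat_lit 1271251)], [(nat_lit 32), (nat_lit 67), (nat_lit 483), (nat_lit 250), (nat_lit 10)]⟩⟩) (.trX (nat_lit 4) (nat_lit 0) (nat_lit 2) (nat_lit 66) (nat_lit 82) (nat_lit 100) (nat_lit 320) (.spl (nat_lit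 0) (nat_lit 355) (.leaf ⟨(nat_lit 755), (nat_lit 134), (nat_lit 0), (nat_lit 111), (nat_lit 0), (nat_lit 4139), (nat_lit 2163), (nat_lit 1239), (nat_lit 0), (nat_lit 0), (nat_lit 188750), [((nat_lit 355), [((nat_lit 22), (nat_lit 0), (nat_lit 755))])], ⟨(nat_lit 6), true, false, false, (nat_lit 226), (nat_lit 3354), (nat_lit 3536), [(nat_lit 1418374), (nat_lit 1420356), (nat_lit 1462275), (nat_lit 1464447), (nat_lit 1669427), (nat_lit 1667824), (nat_lit 1713329), (nat_lit 1711917)]⟩, ⟨(nat_lit 6), false, false, true, (nat_lit 228), (nat_lit 3354), (nat_lit 3536), [(nat_lit 1474949), (nat_lit 1473673), (nat_lit 1540807), (nat_lit 1539816), (nat_lit 1600472), (nat_lit 1597404), (nat_lit 1666330), (nat_lit 1663546)]⟩, (nat_lit 5263402), (nat_lit 38679452), (nat_lit 14087484), (nat_lit 14233064), (nat_lit 6), (nat_lit 0), [⟨(nat_lit 0), (nat_lit 95), (nat_lit 66), (nat_lit 100), (nat_lit 29139501)⟩], [⟨(nat_lit 1), (nat_lit 93), (nat_lit 67), (nat_lit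 100), (nat_lit 320064160)⟩], [], [],
 ⟨⟨[(nat_lit 40), (nat_lit 80), (nat_lit 100)], [(nat_lit 0), (nat_lit 1195), (nat_lit 2166)], [((nat_lit 0), (nat_lit 0), (nat_lit 0)), ((nat_lit 1000), (nat_lit 720), (nat_lit 465)), ((nat_lit 1000), (nat_lit 662), (nat_lit 740))], ((nat_lit 66), (nat_lit 100), (nat_lit 72))⟩, (nat_lit 1012910), (nat_lit 163), (nat_lit 163), (nat_lit 0), (nat_lit 271382), [(nat_lit 1624350002), (nat_lit 2636514002), (nat_lit 3291004000)], [(nat_lit 0), (nat_lit 0), (nat_lit 0)], [(nat_lit 21753176486), (nat_lit 22024596183), (nat_lit 25684742878), (nat_lit 26003460701), (nat_lit 25799161907), (nat_lit 26148505273), (nat_lit 28801910551), (nat_lit 29068311702)], (nat_lit 1271251), (nat_lit 1271251), (nat_lit 780000), (nat_lit 2090001), (nat_lit 1271251), (nat_lit 1271251), [(nat_lit 490000), (nat_lit 1100000), (nat_lit 1442501)], [(nat_lit 3), (nat_lit 50), (nat_lit 289), (nat_lit 75), (nat_lit 10)]⟩,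
 ⟨⟨[(nat_lit 80), (nat_lit 120), (nat_lit 160)], [(nat_lit 0), (nat_lit 0), (nat_lit 2132)], [((nat_lit 0), (nat_lit 0), (nat_lit 0)), ((nat_lit 0), (nat_lit 0), (nat_lit 0)), ((nat_lit 858), (nat_lit 1000), (nat_lit 713))], ((nat_lit 100), (nat_lit 85), (nat_lit 73))⟩, (nat_lit 781159), (nat_lit 165), (nat_lit 165), (nat_lit 0), (nat_lit 0), [(nat_lit 1148560000), (nat_lit 1952160000), (nat_lit 2908640000)], [], [(nat_lit 4703497529), (nat_lit 5465076032), (nat_lit 5880864321), (nat_lit 6400428492), (nat_lit 8019283352), (nat_lit 8320870411), (nat_lit 8251852280), (nat_lit 8641434501)], (nat_lit 0), (nat_lit 0), (nat_lit 0), (nat_lit 0), (nat_lit 0), (nat_lit 0), [], [(nat_lit 18), (nat_lit 59), (nat_lit 483), (nat_lit 250), (nat_lit 12)]⟩,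
 ⟨⟨[(nat_lit 140), (nat_lit 180), (nat_lit 200)], [(nat_lit 0), (nat_lit 0), (nat_lit 2835)], [((nat_lit 0), (nat_lit 0), (nat_lit 0)), ((nat_lit 0), (nat_lit 0), (nat_lit 0)), ((nat_lit 363), (nat_lit 1000), (nat_lit 798))], ((nat_lit 0), (nat_lit 0), (nat_lit 0))⟩, (nat_lit 30540), (nat_lit 300), (nat_lit 1009), (nat_lit 8669100), (nat_lit 1409857), [(nat_lit 1092462000), (nat_lit 1560438000), (nat_lit 1820400000)], [], [(nat_lit 7196774130), (nat_lit 6919016573), (nat_lit 6991685994), (nat_lit 6709545614), (nat_lit 6337695336), (nat_lit 6049894302), (nat_lit 6133607112), (nat_lit 5844288411)], (nat_lit 780000), (nat_lit 1271251), (nat_lit 1271251), (nat_lit 1271251), (nat_lit 780000), (nat_lit 3072501), [(nat_lit 1977501), (nat_lit 1271251), (nat_lit 1271251)], [(nat_lit 32), (nat_lit 67), (nat_lit 456), (nat_lit 225), (nat_lit 9)]⟩⟩) (.leaf ⟨(nat_lit 789), (nat_lit 115), (nat_lit 0), (nat_lit 96), (nat_lit 0), (nat_lit 4003), (nat_lit 1863),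 (nat_lit 1069), (nat_lit 0), (nat_lit 0), (nat_lit 197250), [((nat_lit 360), [((nat_lit 22), (nat_lit 0), (nat_lit 789))])], ⟨(nat_lit 6), true, false, false, (nat_lit 227), (nat_lit 3162), (nat_lit 3355), [(nat_lit 1420353), (nat_lit 1422392), (nat_lit 1464444), (nat_lit 1466697), (nat_lit 1667824), (nat_lit 1666215), (nat_lit 1711917), (nat_lit 1710523)]⟩, ⟨(nat_lit 6), false, false, true, (nat_lit 227), (nat_lit 3162), (nat_lit 3355), [(nat_lit 1473673), (nat_lit 1472332), (nat_lit 1539816), (nat_lit 1538797), (nat_lit 1597404), (nat_lit 1594239), (nat_lit 1663546), (nat_lit 1660704)]⟩, (nat_lit 5259489), (nat_lit 38726073), (nat_lit 14111545), (nat_lit 14162382), (nat_lit 6), (nat_lit 0), [⟨(nat_lit 0), (nat_lit 94), (nat_lit 62), (nat_lit 100), (nat_lit 13473445)⟩], [⟨(nat_lit 1), (nat_lit 95), (nat_lit 64), (nat_lit 100), (nat_lit 333942763)⟩], [], [],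
 ⟨⟨[(nat_lit 40), (nat_lit 80), (nat_lit 100)], [(nat_lit 0), (nat_lit 1399), (nat_lit 2349)], [((nat_lit 0), (nat_lit 0), (nat_lit 0)), ((nat_lit 1000), (nat_lit 672), (nat_lit 546)), ((nat_lit 1000), (nat_lit 633), (nat_lit 742))], ((nat_lit 63), (nat_lit 100), (nat_lit 72))⟩, (nat_lit 911370), (nat_lit 173), (nat_lit 173), (nat_lit 0), (nat_lit 300959), [(nat_lit 1616530017), (nat_lit 2544129216), (nat_lit 3157751200)], [(nat_lit 0), (nat_lit 0), (nat_lit 0)], [(nat_lit 22077560604), (nat_lit 22343553139), (nat_lit 25910012483), (nat_lit 26223617148), (nat_lit 25997181524), (nat_lit 26340700503), (nat_lit 28946243066), (nat_lit 29208822004)], (nat_lit 1271251), (nat_lit 1271251), (nat_lit 780000), (nat_lit 2090001), (nat_lit 1271251), (nat_lit 1271251), [(nat_lit 490000), (nat_lit 1100000), (nat_lit 1442501)], [(nat_lit 3), (nat_lit 50), (nat_lit 289), (nat_lit 75), (nat_lit 9)]⟩,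
 ⟨⟨[(nat_lit 80), (nat_lit 120), (nat_lit 160)], [(nat_lit 0), (nat_lit 0), (nat_lit 2132)], [((nat_lit 0), (nat_lit 0), (nat_lit 0)), ((nat_lit 0), (nat_lit 0), (nat_lit 0)), ((nat_lit 858), (nat_lit 1000), (nat_lit 713))], ((nat_lit 100), (nat_lit 85), (nat_lit 73))⟩, (nat_lit 676771), (nat_lit 165), (nat_lit 165), (nat_lit 0), (nat_lit 0), [(nat_lit 989168000), (nat_lit 1681248000), (nat_lit 2504992000)], [], [(nat_lit 4042089183), (nat_lit 4698015684), (nat_lit 5056080035), (nat_lit 5503561625), (nat_lit 6897840984), (nat_lit 7166128517), (nat_lit 7106873068), (nat_lit 7442401533)], (nat_lit 0), (nat_lit 0), (nat_lit 0), (nat_lit 0), (nat_lit 0), (nat_lit 0), [], [(nat_lit 18), (nat_lit 59), (nat_lit 483), (nat_lit 250), (nat_lit 12)]⟩,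
 ⟨⟨[(nat_lit 140), (nat_lit 180), (nat_lit 200)], [(nat_lit 0), (nat_lit 0), (nat_lit 2835)], [((nat_lit 0), (nat_lit 0), (nat_lit 0)), ((nat_lit 0), (nat_lit 0), (nat_lit 0)), ((nat_lit 363), (nat_lit 1000), (nat_lit 798))], ((nat_lit 0), (nat_lit 0), (nat_lit 0))⟩, (nat_lit 26413), (nat_lit 300), (nat_lit 1092), (nat_lit 7497600), (nat_lit 1602470), [(nat_lit 944832000), (nat_lit 1349568000), (nat_lit 1574400000)], [], [(nat_lit 6238511010), (nat_lit 5999017380), (nat_lit 6061795344), (nat_lit 5818516024), (nat_lit 5493450136), (nat_lit 5245294802), (nat_lit 5315093020), (nat_lit 5063430011)], (nat_lit 780000), (nat_lit 1271251), (nat_lit 1271251), (nat_lit 1271251), (nat_lit 780000), (nat_lit 3072501), [(nat_lit 1977501), (nat_lit 1271251), (nat_lit 1271251)], [(nat_lit 32), (nat_lit 67), (nat_lit 456), (nat_lit 225), (nat_lit 9)]⟩⟩)))) (.leaf ⟨(nat_lit 0), (nat_lit 480), (nat_lit 0), (nat_lit 520), (nat_lit 0), (nat_lit 4642), (nat_lit 3889),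 (nat_lit 7006), (nat_lit 0), (nat_lit 0), (nat_lit 0), [], Pd.none, Pd.none, (nat_lit 0), (nat_lit 1), (nat_lit 0), (nat_lit 0), (nat_lit 6), (nat_lit 0), [], [⟨(nat_lit 1), (nat_lit 92), (nat_lit 68), (nat_lit 100), (nat_lit 134678421)⟩], [], [],
 ⟨⟨[(nat_lit 40), (nat_lit 80), (nat_lit 120)], [(nat_lit 0), (nat_lit 795), (nat_lit 2800)], [((nat_lit 0), (nat_lit 0), (nat_lit 0)), ((nat_lit 1000), (nat_lit 814), (nat_lit 310)), ((nat_lit 1000), (nat_lit 719), (nat_lit 783))], ((nat_lit 71), (nat_lit 100), (nat_lit 71))⟩, (nat_lit 2615661), (nat_lit 162), (nat_lit 162), (nat_lit 0), (nat_lit 187133), [(nat_lit 2073563429), (nat_lit 4688000077), (nat_lit 7968000000)], [], [(nat_lit 21510098690), (nat_lit 22838961486), (nat_lit 25336194718), (nat_lit 26686710672), (nat_lit 26296719028), (nat_lit 27739682610), (nat_lit 29210251241), (nat_lit 30303404909)], (nat_lit 1271251), (nat_lit 1271251), (nat_lit 780000), (nat_lit 2090001), (nat_lit 1271251), (nat_lit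 1271251), [(nat_lit 490000), (nat_lit 1100000), (nat_lit 1785001)], [(nat_lit 4), (nat_lit 51), (nat_lit 289), (nat_lit 75), (nat_lit 8)]⟩,
 ⟨⟨[(nat_lit 80), (nat_lit 120), (nat_lit 160)], [(nat_lit 0), (nat_lit 0), (nat_lit 2132)], [((nat_lit 0), (nat_lit 0), (nat_lit 0)), ((nat_lit 0), (nat_lit 0), (nat_lit 0)), ((nat_lit 858), (nat_lit 1000), (nat_lit 713))], ((nat_lit 100), (nat_lit 85), (nat_lit 73))⟩, (nat_lit 1559363), (nat_lit 263), (nat_lit 263), (nat_lit 0), (nat_lit 283498), [(nat_lit 4688000000), (nat_lit 7968000000), (nat_lit 11872000000)], [], [(nat_lit 33958278367), (nat_lit 31601539486), (nat_lit 37606267277), (nat_lit 35369230516), (nat_lit 45943418192), (nat_lit 42443462085), (nat_lit 57737997238), (nat_lit 54409565476)], (nat_lit 1271251), (nat_lit 1271251), (nat_lit 780000), (nat_lit 2090001), (nat_lit 780000), (nat_lit 3072501), [(nat_lit 1100000), (nat_lit 1785001), (nat_lit 1271251)], [(nat_lit 18), (nat_lit 59), (nat_lit 483),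 (nat_lit 250), (nat_lit 12)]⟩,
 ⟨⟨[(nat_lit 140), (nat_lit 180), (nat_lit 200)], [(nat_lit 0), (nat_lit 0), (nat_lit 2835)], [((nat_lit 0), (nat_lit 0), (nat_lit 0)), ((nat_lit 0), (nat_lit 0), (nat_lit 0)), ((nat_lit 363), (nat_lit 1000), (nat_lit 798))], ((nat_lit 0), (nat_lit 0), (nat_lit 0))⟩, (nat_lit 143069), (nat_lit 300), (nat_lit 607), (nat_lit 40612000), (nat_lit 553310), [(nat_lit 5117840000), (nat_lit 7310160000), (nat_lit 8528000000)], [], [(nat_lit 29092601484), (nat_lit 27613465856), (nat_lit 28722316453), (nat_lit 27148481028), (nat_lit 26824806408), (nat_lit 25263311782), (nat_lit 26498446342), (nat_lit 25025325106)], (nat_lit 780000), (nat_lit 1271251), (nat_lit 1271251), (nat_lit 1271251), (nat_lit 780000), (nat_lit 3072501), [(nat_lit 1977501), (nat_lit 1271251), (nat_lit 1271251)], [(nat_lit 32), (nat_lit 67), (nat_lit 483), (nat_lit 250), (nat_lit 10)]⟩⟩))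
noncomputable def c8_72 : Tr Lf :=
 (.trX (nat_lit 5) (nat_lit 1) (nat_lit 2) (nat_lit 92) (nat_lit 49) (nat_lit 100) (nat_lit 380) (.spl (nat_lit 5) (nat_lit 200) (.spl (nat_lit 1) (nat_lit 300) (.leaf ⟨(nat_lit 0), (nat_lit 883), (nat_lit 0), (nat_lit 117), (nat_lit 475), (nat_lit 5141), (nat_lit 7431), (nat_lit 1551), (nat_lit 0), (nat_lit 0), (nat_lit 0), [], Pd.none, Pd.none, (nat_lit 0), (nat_lit 1), (nat_lit 0), (nat_lit 0), (nat_lit 6), (nat_lit 0), [], [⟨(nat_lit 1), (nat_lit 92), (nat_lit 68), (nat_lit 100), (nat_lit 462472152)⟩], [], [],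
 ⟨⟨[(nat_lit 40), (nat_lit 80), (nat_lit 120)], [(nat_lit 0), (nat_lit 795), (nat_lit 2800)], [((nat_lit 0), (nat_lit 0), (nat_lit 0)), ((nat_lit 1000), (nat_lit 814), (nat_lit 310)), ((nat_lit 1000), (nat_lit 719), (nat_lit 783))], ((nat_lit 71), (nat_lit 100), (nat_lit 71))⟩, (nat_lit 1939441), (nat_lit 250), (nat_lit 250), (nat_lit 0), (nat_lit 392103), [(nat_lit 2057203250), (nat_lit 4688000317), (nat_lit 7968000000)], [], [(nat_lit 23713994721), (nat_lit 24903345805), (nat_lit 26337428060), (nat_lit 27246432189), (nat_lit 27174640616), (nat_lit 28352172550), (nat_lit 29641694251), (nat_lit 30788527470)], (nat_lit 1271251), (nat_lit 1271251), (nat_lit 780000), (nat_lit 2090001), (nat_lit 1271251), (nat_lit 1271251), [(nat_lit 490000), (nat_lit 1100000), (nat_lit 1785001)], [(nat_lit 4), (nat_lit 51), (nat_lit 289), (nat_lit 75), (nat_lit 8)]⟩,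
 ⟨⟨[(nat_lit 60), (nat_lit 100), (nat_lit 140)], [(nat_lit 0), (nat_lit 0), (nat_lit 2047)], [((nat_lit 0), (nat_lit 0), (nat_lit 0)), ((nat_lit 0), (nat_lit 0), (nat_lit 0)), ((nat_lit 1000), (nat_lit 993), (nat_lit 781))], ((nat_lit 99), (nat_lit 100), (nat_lit 77))⟩, (nat_lit 0), (nat_lit 339), (nat_lit 339), (nat_lit 0), (nat_lit 308520), [(nat_lit 3282000000), (nat_lit 6250000000), (nat_lit 9842000000)], [], [(nat_lit 33430308540), (nat_lit 32909940538), (nat_lit 35491416207), (nat_lit 36458649701), (nat_lit 28686473019), (nat_lit 29261602497), (nat_lit 46100502259), (nat_lit 42840236466)], (nat_lit 1271251), (nat_lit 1271251), (nat_lit 780000), (nat_lit 2090001), (nat_lit 0), (nat_lit 1412501), [(nat_lit 780000), (nat_lit 1435001), (nat_lit 1271251)], [(nat_lit 11), (nat_lit 55), (nat_lit 345), (nat_lit 125), (nat_lit 10)]⟩,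
 ⟨⟨[(nat_lit 140), (nat_lit 180), (nat_lit 200)], [(nat_lit 0), (nat_lit 0), (nat_lit 2835)], [((nat_lit 0), (nat_lit 0), (nat_lit 0)), ((nat_lit 0), (nat_lit 0), (nat_lit 0)), ((nat_lit 363), (nat_lit 1000), (nat_lit 798))], ((nat_lit 0), (nat_lit 0), (nat_lit 0))⟩, (nat_lit 32191), (nat_lit 300), (nat_lit 1407), (nat_lit 9137700), (nat_lit 2103542), [(nat_lit 1151514000), (nat_lit 1644786000), (nat_lit 1918800000)], [], [(nat_lit 7893820596), (nat_lit 7549839126), (nat_lit 7824623817), (nat_lit 7458677805), (nat_lit 6160448052), (nat_lit 5831822474), (nat_lit 6053593120), (nat_lit 5705818117)], (nat_lit 780000), (nat_lit 1271251), (nat_lit 1271251), (nat_lit 1271251), (nat_lit 0), (nat_lit 1412501), [(nat_lit 1977501), (nat_lit 1271251), (nat_lit 1271251)], [(nat_lit 32), (nat_lit 67), (nat_lit 441), (nat_lit 200), (nat_lit 9)]⟩⟩) (.trZ (nat_lit 0) (nat_lit 1) (nat_lit 3) (nat_lit 90) (nat_lit 74) (nat_lit 100) (nat_lit 140) (.leaf ⟨(nat_lit 0),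 (nat_lit 908), (nat_lit 0), (nat_lit 92), (nat_lit 0), (nat_lit 5287), (nat_lit 7002), (nat_lit 1220), (nat_lit 0), (nat_lit 0), (nat_lit 0), [], Pd.none, Pd.none, (nat_lit 0), (nat_lit 1), (nat_lit 0), (nat_lit 0), (nat_lit 6), (nat_lit 0), [⟨(nat_lit 0), (nat_lit 84), (nat_lit 67), (nat_lit 100), (nat_lit 433736423)⟩], [⟨(nat_lit 1), (nat_lit 77), (nat_lit 72), (nat_lit 100), (nat_lit 437033109)⟩], [⟨(nat_lit 0), (nat_lit 100), (nat_lit 86), (nat_lit 33), (nat_lit 18210908)⟩], [],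
 ⟨⟨[(nat_lit 40), (nat_lit 80), (nat_lit 120)], [(nat_lit 0), (nat_lit 795), (nat_lit 2800)], [((nat_lit 0), (nat_lit 0), (nat_lit 0)), ((nat_lit 1000), (nat_lit 814), (nat_lit 310)), ((nat_lit 1000), (nat_lit 719), (nat_lit 783))], ((nat_lit 71), (nat_lit 100), (nat_lit 71))⟩, (nat_lit 2008598), (nat_lit 274), (nat_lit 274), (nat_lit 0), (nat_lit 492863), [(nat_lit 2032000400), (nat_lit 4688000019), (nat_lit 7968000000)], [], [(nat_lit 23977328448), (nat_lit 24971476033), (nat_lit 26140312091), (nat_lit 27154152492), (nat_lit 26850212396), (nat_lit 28359133983), (nat_lit 29767928077), (nat_lit 30930467137)], (nat_lit 1271251), (nat_lit 1271251), (nat_lit 936250), (nat_lit 2108751), (nat_lit 1271251), (nat_lit 1271251), [(nat_lit 490000), (nat_lit 1100000), (nat_lit 1785001)], [(nat_lit 4), (nat_lit 51), (nat_lit 289), (nat_lit 75), (nat_lit 8)]⟩,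
 ⟨⟨[(nat_lit 60), (nat_lit 100), (nat_lit 140)], [(nat_lit 0), (nat_lit 609), (nat_lit 2558)], [((nat_lit 0), (nat_lit 0), (nat_lit 0)), ((nat_lit 1000), (nat_lit 905), (nat_lit 238)), ((nat_lit 1000), (nat_lit 904), (nat_lit 760))], ((nat_lit 90), (nat_lit 100), (nat_lit 74))⟩, (nat_lit 174358), (nat_lit 349), (nat_lit 349), (nat_lit 0), (nat_lit 341733), [(nat_lit 3282000000), (nat_lit 6250000000), (nat_lit 9842000000)], [], [(nat_lit 32776185192), (nat_lit 33904289522), (nat_lit 36242821585), (nat_lit 37184984962), (nat_lit 29349461331), (nat_lit 30346735472), (nat_lit 33922738656), (nat_lit 32699038802)], (nat_lit 1271251), (nat_lit 1271251), (nat_lit 936250), (nat_lit 2108751), (nat_lit 0), (nat_lit 1412501), [(nat_lit 780000), (nat_lit 1435001), (nat_lit 1271251)], [(nat_lit 11), (nat_lit 55), (nat_lit 345), (nat_lit 125), (nat_lit 10)]⟩,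
 ⟨⟨[(nat_lit 140), (nat_lit 180), (nat_lit 200)], [(nat_lit 0), (nat_lit 0), (nat_lit 2835)], [((nat_lit 0), (nat_lit 0), (nat_lit 0)), ((nat_lit 0), (nat_lit 0), (nat_lit 0)), ((nat_lit 363), (nat_lit 1000), (nat_lit 798))], ((nat_lit 0), (nat_lit 0), (nat_lit 0))⟩, (nat_lit 25312), (nat_lit 300), (nat_lit 1680), (nat_lit 7185203), (nat_lit 2698350), [(nat_lit 905464000), (nat_lit 1293336000), (nat_lit 1508800000)], [], [(nat_lit 6206611768), (nat_lit 5936011584), (nat_lit 6152132100), (nat_lit 5864774728), (nat_lit 4843078904), (nat_lit 4584559050), (nat_lit 4758981173), (nat_lit 4485399703)], (nat_lit 780000), (nat_lit 1271251), (nat_lit 1271251), (nat_lit 1271251), (nat_lit 0), (nat_lit 1412501), [(nat_lit 1977501), (nat_lit 1271251), (nat_lit 1271251)], [(nat_lit 32), (nat_lit 67), (nat_lit 509), (nat_lit 200), (nat_lit 11)]⟩⟩))) (.stt (nat_lit 2) (.leaf ⟨(nat_lit 0), (nat_lit 828), (nat_lit 0), (nat_lit 172), (nat_lit 0), (nat_lit 6171), (nat_lit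 7048), (nat_lit 1931), (nat_lit 0), (nat_lit 0), (nat_lit 0), [], Pd.none, Pd.none, (nat_lit 0), (nat_lit 1), (nat_lit 0), (nat_lit 0), (nat_lit 6), (nat_lit 0), [⟨(nat_lit 0), (nat_lit 88), (nat_lit 67), (nat_lit 100), (nat_lit 521685235)⟩], [⟨(nat_lit 1), (nat_lit 92), (nat_lit 68), (nat_lit 100), (nat_lit 476730192)⟩], [⟨(nat_lit 1), (nat_lit 72), (nat_lit 89), (nat_lit 100), (nat_lit 361316012)⟩], [],
 ⟨⟨[(nat_lit 40), (nat_lit 80), (nat_lit 120)], [(nat_lit 0), (nat_lit 795), (nat_lit 2800)], [((nat_lit 0), (nat_lit 0), (nat_lit 0)), ((nat_lit 1000), (nat_lit 814), (nat_lit 310)), ((nat_lit 1000), (nat_lit 719), (nat_lit 783))], ((nat_lit 71), (nat_lit 100), (nat_lit 71))⟩, (nat_lit 1574850), (nat_lit 281), (nat_lit 281), (nat_lit 0), (nat_lit 493170), [(nat_lit 2238719415), (nat_lit 4688000219), (nat_lit 7968000000)], [], [(nat_lit 23637452603), (nat_lit 25107367098), (nat_lit 26493722795), (nat_lit 27794801436), (nat_lit 27922666107), (nat_lit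 29616430343), (nat_lit 30532247958), (nat_lit 31789882655)], (nat_lit 1271251), (nat_lit 1271251), (nat_lit 780000), (nat_lit 2090001), (nat_lit 1271251), (nat_lit 1271251), [(nat_lit 490000), (nat_lit 1100000), (nat_lit 1785001)], [(nat_lit 4), (nat_lit 51), (nat_lit 289), (nat_lit 75), (nat_lit 8)]⟩,
 ⟨⟨[(nat_lit 60), (nat_lit 100), (nat_lit 140)], [(nat_lit 0), (nat_lit 0), (nat_lit 2047)], [((nat_lit 0), (nat_lit 0), (nat_lit 0)), ((nat_lit 0), (nat_lit 0), (nat_lit 0)), ((nat_lit 1000), (nat_lit 993), (nat_lit 781))], ((nat_lit 99), (nat_lit 100), (nat_lit 77))⟩, (nat_lit 0), (nat_lit 96), (nat_lit 96), (nat_lit 0), (nat_lit 0), [(nat_lit 3282000000), (nat_lit 6250000000), (nat_lit 9842000000)], [], [(nat_lit 17743947332), (nat_lit 21076799896), (nat_lit 23179578920), (nat_lit 25506564632), (nat_lit 29892348856), (nat_lit 31754902212), (nat_lit 31781417036), (nat_lit 33420109628)], (nat_lit 0), (nat_lit 0), (nat_lit 0), (nat_lit 0), (nat_lit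 0), (nat_lit 0), [], [(nat_lit 11), (nat_lit 55), (nat_lit 401), (nat_lit 175), (nat_lit 11)]⟩,
 ⟨⟨[(nat_lit 140), (nat_lit 180), (nat_lit 200)], [(nat_lit 0), (nat_lit 0), (nat_lit 2835)], [((nat_lit 0), (nat_lit 0), (nat_lit 0)), ((nat_lit 0), (nat_lit 0), (nat_lit 0)), ((nat_lit 363), (nat_lit 1000), (nat_lit 798))], ((nat_lit 0), (nat_lit 0), (nat_lit 0))⟩, (nat_lit 47323), (nat_lit 300), (nat_lit 1557), (nat_lit 13433200), (nat_lit 2698350), [(nat_lit 1692824000), (nat_lit 2417976000), (nat_lit 2820800000)], [], [(nat_lit 10554136238), (nat_lit 10128423867), (nat_lit 10152658275), (nat_lit 9713251295), (nat_lit 9794640100), (nat_lit 9349336112), (nat_lit 9462046182), (nat_lit 9013664805)], (nat_lit 780000), (nat_lit 1271251), (nat_lit 1271251), (nat_lit 1271251), (nat_lit 1271251), (nat_lit 1271251), [(nat_lit 1977501), (nat_lit 1271251), (nat_lit 1271251)], [(nat_lit 32), (nat_lit 67), (nat_lit 501), (nat_lit 225), (nat_lit 10)]⟩⟩) (.leaf ⟨(nat_lit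 0), (nat_lit 276), (nat_lit 0), (nat_lit 724), (nat_lit 0), (nat_lit 5020), (nat_lit 9303), (nat_lit 7816), (nat_lit 0), (nat_lit 0), (nat_lit 0), [], Pd.none, Pd.none, (nat_lit 0), (nat_lit 1), (nat_lit 0), (nat_lit 0), (nat_lit 6), (nat_lit 0), [⟨(nat_lit 0), (nat_lit 80), (nat_lit 60), (nat_lit 100), (nat_lit 481857859)⟩], [], [], [],
 ⟨⟨[(nat_lit 40), (nat_lit 80), (nat_lit 120)], [(nat_lit 0), (nat_lit 795), (nat_lit 2800)], [((nat_lit 0), (nat_lit 0), (nat_lit 0)), ((nat_lit 1000), (nat_lit 814), (nat_lit 310)), ((nat_lit 1000), (nat_lit 719), (nat_lit 783))], ((nat_lit 71), (nat_lit 100), (nat_lit 71))⟩, (nat_lit 2482141), (nat_lit 190), (nat_lit 190), (nat_lit 0), (nat_lit 285397), [(nat_lit 2078778789), (nat_lit 4688000001), (nat_lit 7968000000)], [], [(nat_lit 21957724276), (nat_lit 23132742366), (nat_lit 25553291080), (nat_lit 26960653320), (nat_lit 26698528775), (nat_lit 28203652945), (nat_lit 29537075805), (nat_lit 30670892540)], (nat_lit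 1271251), (nat_lit 1271251), (nat_lit 780000), (nat_lit 2090001), (nat_lit 1271251), (nat_lit 1271251), [(nat_lit 490000), (nat_lit 1100000), (nat_lit 1785001)], [(nat_lit 4), (nat_lit 51), (nat_lit 289), (nat_lit 75), (nat_lit 8)]⟩,
 ⟨⟨[(nat_lit 60), (nat_lit 100), (nat_lit 140)], [(nat_lit 0), (nat_lit 0), (nat_lit 2047)], [((nat_lit 0), (nat_lit 0), (nat_lit 0)), ((nat_lit 0), (nat_lit 0), (nat_lit 0)), ((nat_lit 1000), (nat_lit 993), (nat_lit 781))], ((nat_lit 99), (nat_lit 100), (nat_lit 77))⟩, (nat_lit 2583187), (nat_lit 265), (nat_lit 265), (nat_lit 0), (nat_lit 350107), [(nat_lit 3282000000), (nat_lit 6250000000), (nat_lit 9842000000)], [], [(nat_lit 19511006261), (nat_lit 21892004027), (nat_lit 22662062201), (nat_lit 24805723733), (nat_lit 32033929345), (nat_lit 34746850870), (nat_lit 33938537634), (nat_lit 35760993558)], (nat_lit 1271251), (nat_lit 1271251), (nat_lit 780000), (nat_lit 2090001), (nat_lit 1271251), (nat_lit 1271251), [(nat_lit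 780000), (nat_lit 1435001), (nat_lit 1271251)], [(nat_lit 11), (nat_lit 55), (nat_lit 401), (nat_lit 175), (nat_lit 11)]⟩,
 ⟨⟨[(nat_lit 140), (nat_lit 180), (nat_lit 200)], [(nat_lit 0), (nat_lit 0), (nat_lit 2835)], [((nat_lit 0), (nat_lit 0), (nat_lit 0)), ((nat_lit 0), (nat_lit 0), (nat_lit 0)), ((nat_lit 363), (nat_lit 1000), (nat_lit 798))], ((nat_lit 0), (nat_lit 0), (nat_lit 0))⟩, (nat_lit 199196), (nat_lit 300), (nat_lit 696), (nat_lit 56544400), (nat_lit 845740), [(nat_lit 7125608000), (nat_lit 10177992000), (nat_lit 11873600000)], [], [(nat_lit 43175363174), (nat_lit 41585630921), (nat_lit 42537691098), (nat_lit 40867199138), (nat_lit 41672321573), (nat_lit 39945448900), (nat_lit 40814377083), (nat_lit 39020539173)], (nat_lit 780000), (nat_lit 1271251), (nat_lit 1271251), (nat_lit 1271251), (nat_lit 1271251), (nat_lit 1271251), [(nat_lit 1977501), (nat_lit 1271251), (nat_lit 1271251)], [(nat_lit 32), (nat_lit 67), (nat_lit 456), (nat_lit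 225), (nat_lit 9)]⟩⟩))))
noncomputable def c8_73 : Tr Lf :=
 (.spl (nat_lit 5) (nat_lit 120) (.spl (nat_lit 1) (nat_lit 280) (.leaf ⟨(nat_lit 0), (nat_lit 763), (nat_lit 0), (nat_lit 237), (nat_lit 704), (nat_lit 4543), (nat_lit 7472), (nat_lit 3468), (nat_lit 0), (nat_lit 0), (nat_lit 0), [], Pd.none, Pd.none, (nat_lit 0), (nat_lit 1), (nat_lit 0), (nat_lit 0), (nat_lit 4), (nat_lit 0), [], [], [], [],
 ⟨⟨[(nat_lit 40), (nat_lit 80), (nat_lit 120)], [(nat_lit 0), (nat_lit 795), (nat_lit 2800)], [((nat_lit 0), (nat_lit 0), (nat_lit 0)), ((nat_lit 1000), (nat_lit 814), (nat_lit 310)), ((nat_lit 1000), (nat_lit 719), (nat_lit 783))], ((nat_lit 71), (nat_lit 100), (nat_lit 71))⟩, (nat_lit 2764619), (nat_lit 159), (nat_lit 159), (nat_lit 0), (nat_lit 193592), [(nat_lit 2032206463), (nat_lit 4688000013), (nat_lit 7968000000)], [], [(nat_lit 18758220087), (nat_lit 20359400321), (nat_lit 23236507008), (nat_lit 24863395206), (nat_lit 21423992378), (nat_lit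 22762119369), (nat_lit 25279336147), (nat_lit 26614963788)], (nat_lit 1271251), (nat_lit 1271251), (nat_lit 780000), (nat_lit 2090001), (nat_lit 780000), (nat_lit 1762501), [(nat_lit 490000), (nat_lit 1100000), (nat_lit 1785001)], [(nat_lit 4), (nat_lit 51), (nat_lit 373), (nat_lit 150), (nat_lit 12)]⟩,
 ⟨⟨[(nat_lit 80), (nat_lit 120), (nat_lit 160)], [(nat_lit 0), (nat_lit 0), (nat_lit 2132)], [((nat_lit 0), (nat_lit 0), (nat_lit 0)), ((nat_lit 0), (nat_lit 0), (nat_lit 0)), ((nat_lit 858), (nat_lit 1000), (nat_lit 713))], ((nat_lit 100), (nat_lit 85), (nat_lit 73))⟩, (nat_lit 404612), (nat_lit 391), (nat_lit 391), (nat_lit 0), (nat_lit 265736), [(nat_lit 4688000000), (nat_lit 7968000000), (nat_lit 11872000000)], [], [(nat_lit 36478691904), (nat_lit 38686196872), (nat_lit 44909296352), (nat_lit 41249160928), (nat_lit 34040125808), (nat_lit 34197141672), (nat_lit 50811488080), (nat_lit 44171513960)], (nat_lit 1271251), (nat_lit 1271251), (nat_lit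 780000), (nat_lit 2090001), (nat_lit 0), (nat_lit 780000), [(nat_lit 1100000), (nat_lit 1785001), (nat_lit 1271251)], [(nat_lit 18), (nat_lit 59), (nat_lit 401), (nat_lit 175), (nat_lit 10)]⟩,
 ⟨⟨[(nat_lit 120), (nat_lit 160), (nat_lit 180)], [(nat_lit 0), (nat_lit 533), (nat_lit 2066)], [((nat_lit 0), (nat_lit 0), (nat_lit 0)), ((nat_lit 960), (nat_lit 1000), (nat_lit 200)), ((nat_lit 615), (nat_lit 1000), (nat_lit 729))], ((nat_lit 100), (nat_lit 63), (nat_lit 72))⟩, (nat_lit 113459), (nat_lit 300), (nat_lit 652), (nat_lit 17207443), (nat_lit 544998), [(nat_lit 1888416000), (nat_lit 2813664000), (nat_lit 3331746000)], [], [(nat_lit 13104227502), (nat_lit 12822173919), (nat_lit 11964689055), (nat_lit 11820068298), (nat_lit 10267056057), (nat_lit 10039254079), (nat_lit 13157839386), (nat_lit 9866440350)], (nat_lit 1271251), (nat_lit 1271251), (nat_lit 780000), (nat_lit 1762501), (nat_lit 0), (nat_lit 780000), [(nat_lit 1695001), (nat_lit 1271251),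 (nat_lit 1271251)], [(nat_lit 28), (nat_lit 65), (nat_lit 373), (nat_lit 150), (nat_lit 9)]⟩⟩) (.leaf ⟨(nat_lit 0), (nat_lit 779), (nat_lit 0), (nat_lit 221), (nat_lit 0), (nat_lit 5085), (nat_lit 7123), (nat_lit 2647), (nat_lit 0), (nat_lit 0), (nat_lit 0), [], Pd.none, Pd.none, (nat_lit 0), (nat_lit 1), (nat_lit 0), (nat_lit 0), (nat_lit 4), (nat_lit 0), [⟨(nat_lit 0), (nat_lit 88), (nat_lit 67), (nat_lit 100), (nat_lit 232947089)⟩], [], [], [],
 ⟨⟨[(nat_lit 40), (nat_lit 80), (nat_lit 120)], [(nat_lit 0), (nat_lit 795), (nat_lit 2800)], [((nat_lit 0), (nat_lit 0), (nat_lit 0)), ((nat_lit 1000), (nat_lit 814), (nat_lit 310)), ((nat_lit 1000), (nat_lit 719), (nat_lit 783))], ((nat_lit 71), (nat_lit 100), (nat_lit 71))⟩, (nat_lit 2441085), (nat_lit 250), (nat_lit 250), (nat_lit 0), (nat_lit 363272), [(nat_lit 2057016865), (nat_lit 4688000002), (nat_lit 7968000000)], [], [(nat_lit 19967960951), (nat_lit 21407256180), (nat_lit 23652249463), (nat_lit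 25386881570), (nat_lit 22000710150), (nat_lit 23183427782), (nat_lit 25685180279), (nat_lit 27007759860)], (nat_lit 1271251), (nat_lit 1271251), (nat_lit 780000), (nat_lit 2090001), (nat_lit 780000), (nat_lit 1762501), [(nat_lit 490000), (nat_lit 1100000), (nat_lit 1785001)], [(nat_lit 4), (nat_lit 51), (nat_lit 373), (nat_lit 150), (nat_lit 12)]⟩,
 ⟨⟨[(nat_lit 60), (nat_lit 100), (nat_lit 140)], [(nat_lit 0), (nat_lit 0), (nat_lit 2047)], [((nat_lit 0), (nat_lit 0), (nat_lit 0)), ((nat_lit 0), (nat_lit 0), (nat_lit 0)), ((nat_lit 1000), (nat_lit 993), (nat_lit 781))], ((nat_lit 99), (nat_lit 100), (nat_lit 77))⟩, (nat_lit 1595577), (nat_lit 368), (nat_lit 368), (nat_lit 0), (nat_lit 375924), [(nat_lit 3282000000), (nat_lit 6250000000), (nat_lit 9842000000)], [], [(nat_lit 28513448289), (nat_lit 31233123381), (nat_lit 32502744298), (nat_lit 34383229883), (nat_lit 24595413270), (nat_lit 27004343495), (nat_lit 38271471025), (nat_lit 31859919826)],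 (nat_lit 1271251), (nat_lit 1271251), (nat_lit 780000), (nat_lit 2090001), (nat_lit 0), (nat_lit 780000), [(nat_lit 780000), (nat_lit 1435001), (nat_lit 1271251)], [(nat_lit 11), (nat_lit 55), (nat_lit 317), (nat_lit 100), (nat_lit 9)]⟩,
 ⟨⟨[(nat_lit 120), (nat_lit 160), (nat_lit 180)], [(nat_lit 0), (nat_lit 533), (nat_lit 2066)], [((nat_lit 0), (nat_lit 0), (nat_lit 0)), ((nat_lit 960), (nat_lit 1000), (nat_lit 200)), ((nat_lit 615), (nat_lit 1000), (nat_lit 729))], ((nat_lit 100), (nat_lit 63), (nat_lit 72))⟩, (nat_lit 517463), (nat_lit 300), (nat_lit 855), (nat_lit 14674402), (nat_lit 978546), [(nat_lit 1760928000), (nat_lit 2623712000), (nat_lit 3106818000)], [], [(nat_lit 12152005753), (nat_lit 11970135279), (nat_lit 11368910826), (nat_lit 11187638326), (nat_lit 10204353719), (nat_lit 9971296474), (nat_lit 11760706345), (nat_lit 9248499526)], (nat_lit 1271251), (nat_lit 1271251), (nat_lit 780000), (nat_lit 1762501), (nat_lit 0), (nat_lit 780000),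 [(nat_lit 1695001), (nat_lit 1271251), (nat_lit 1271251)], [(nat_lit 28), (nat_lit 65), (nat_lit 373), (nat_lit 150), (nat_lit 9)]⟩⟩)) (.spl (nat_lit 1) (nat_lit 280) (.leaf ⟨(nat_lit 819), (nat_lit 12), (nat_lit 0), (nat_lit 169), (nat_lit 706), (nat_lit 3612), (nat_lit 1392), (nat_lit 1403), (nat_lit 0), (nat_lit 0), (nat_lit 470400), [((nat_lit 360), [((nat_lit 22), (nat_lit 0), (nat_lit 60)), ((nat_lit 39), (nat_lit 2), (nat_lit 759))])], ⟨(nat_lit 6), false, false, false, (nat_lit 226), (nat_lit 3162), (nat_lit 3873), [(nat_lit 1414421), (nat_lit 1422280), (nat_lit 1457950), (nat_lit 1466533), (nat_lit 1672628), (nat_lit 1666215), (nat_lit 1716165), (nat_lit 1710475)]⟩, ⟨(nat_lit 4), false, false, false, (nat_lit 187), (nat_lit 3162), (nat_lit 3873), [(nat_lit 1349127), (nat_lit 1355902), (nat_lit 1392656), (nat_lit 1400154), (nat_lit 1542727), (nat_lit 1538797), (nat_lit 1586313), (nat_lit 1583107)]⟩, (nat_lit 4992363), (nat_lit 41358659),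 (nat_lit 14732503), (nat_lit 10908838), (nat_lit 4), (nat_lit 0), [], [], [], [],
 ⟨⟨[(nat_lit 40), (nat_lit 80), (nat_lit 120)], [(nat_lit 0), (nat_lit 795), (nat_lit 2800)], [((nat_lit 0), (nat_lit 0), (nat_lit 0)), ((nat_lit 1000), (nat_lit 814), (nat_lit 310)), ((nat_lit 1000), (nat_lit 719), (nat_lit 783))], ((nat_lit 71), (nat_lit 100), (nat_lit 71))⟩, (nat_lit 904494), (nat_lit 159), (nat_lit 159), (nat_lit 0), (nat_lit 193592), [(nat_lit 1417991232), (nat_lit 1767165199), (nat_lit 1331104801)], [(nat_lit 0), (nat_lit 0), (nat_lit 0)], [(nat_lit 17755974667), (nat_lit 19173896382), (nat_lit 22522381130), (nat_lit 23964196304), (nat_lit 20627715129), (nat_lit 22039492996), (nat_lit 24744635848), (nat_lit 25940253192)], (nat_lit 1271251), (nat_lit 1271251), (nat_lit 780000), (nat_lit 2090001), (nat_lit 780000), (nat_lit 1762501), [(nat_lit 490000), (nat_lit 1100000), (nat_lit 1785001)], [(nat_lit 4), (nat_lit 51), (nat_lit 373), (nat_lit 150),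 (nat_lit 12)]⟩,
 ⟨⟨[(nat_lit 80), (nat_lit 120), (nat_lit 160)], [(nat_lit 0), (nat_lit 0), (nat_lit 2132)], [((nat_lit 0), (nat_lit 0), (nat_lit 0)), ((nat_lit 0), (nat_lit 0), (nat_lit 0)), ((nat_lit 858), (nat_lit 1000), (nat_lit 713))], ((nat_lit 100), (nat_lit 85), (nat_lit 73))⟩, (nat_lit 0), (nat_lit 331), (nat_lit 331), (nat_lit 0), (nat_lit 343201), [(nat_lit 848528000), (nat_lit 1442208000), (nat_lit 2148832000)], [], [(nat_lit 7206317016), (nat_lit 6249858834), (nat_lit 6588260668), (nat_lit 6657107426), (nat_lit 8877053788), (nat_lit 7624305292), (nat_lit 12171590800), (nat_lit 10980236464)], (nat_lit 1271251), (nat_lit 1271251), (nat_lit 780000), (nat_lit 2090001), (nat_lit 780000), (nat_lit 3072501), [(nat_lit 1100000), (nat_lit 1785001), (nat_lit 1271251)], [(nat_lit 18), (nat_lit 59), (nat_lit 483), (nat_lit 250), (nat_lit 12)]⟩,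
 ⟨⟨[(nat_lit 120), (nat_lit 160), (nat_lit 180)], [(nat_lit 0), (nat_lit 533), (nat_lit 2066)], [((nat_lit 0), (nat_lit 0), (nat_lit 0)), ((nat_lit 960), (nat_lit 1000), (nat_lit 200)), ((nat_lit 615), (nat_lit 1000), (nat_lit 729))], ((nat_lit 100), (nat_lit 63), (nat_lit 72))⟩, (nat_lit 395707), (nat_lit 300), (nat_lit 678), (nat_lit 11221602), (nat_lit 818736), [(nat_lit 1346592000), (nat_lit 2006368000), (nat_lit 2375802000)], [], [(nat_lit 9561025955), (nat_lit 9485221377), (nat_lit 9209322385), (nat_lit 9119661873), (nat_lit 9341074789), (nat_lit 9218332690), (nat_lit 9524734486), (nat_lit 8744378180)], (nat_lit 1271251), (nat_lit 1271251), (nat_lit 780000), (nat_lit 1762501), (nat_lit 780000), (nat_lit 3072501), [(nat_lit 1695001), (nat_lit 1271251), (nat_lit 1271251)], [(nat_lit 28), (nat_lit 65), (nat_lit 456), (nat_lit 225), (nat_lit 10)]⟩⟩) (.leaf ⟨(nat_lit 0), (nat_lit 627), (nat_lit 0), (nat_lit 373), (nat_lit 0), (nat_lit 4926), (nat_lit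 7198), (nat_lit 3148), (nat_lit 0), (nat_lit 0), (nat_lit 0), [], Pd.none, Pd.none, (nat_lit 0), (nat_lit 1), (nat_lit 0), (nat_lit 0), (nat_lit 4), (nat_lit 0), [⟨(nat_lit 0), (nat_lit 80), (nat_lit 60), (nat_lit 100), (nat_lit 136881142)⟩], [], [⟨(nat_lit 1), (nat_lit 50), (nat_lit 87), (nat_lit 100), (nat_lit 40023281)⟩], [],
 ⟨⟨[(nat_lit 40), (nat_lit 80), (nat_lit 120)], [(nat_lit 0), (nat_lit 795), (nat_lit 2800)], [((nat_lit 0), (nat_lit 0), (nat_lit 0)), ((nat_lit 1000), (nat_lit 814), (nat_lit 310)), ((nat_lit 1000), (nat_lit 719), (nat_lit 783))], ((nat_lit 71), (nat_lit 100), (nat_lit 71))⟩, (nat_lit 2732007), (nat_lit 250), (nat_lit 250), (nat_lit 0), (nat_lit 363272), [(nat_lit 2032000056), (nat_lit 4688000018), (nat_lit 7968000000)], [], [(nat_lit 19281104474), (nat_lit 20570860917), (nat_lit 23530288115), (nat_lit 25233312692), (nat_lit 21573712748), (nat_lit 23059397458), (nat_lit 25547852898), (nat_lit 26892530016)], (nat_lit 1271251),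 (nat_lit 1271251), (nat_lit 780000), (nat_lit 2090001), (nat_lit 780000), (nat_lit 1762501), [(nat_lit 490000), (nat_lit 1100000), (nat_lit 1785001)], [(nat_lit 4), (nat_lit 51), (nat_lit 373), (nat_lit 150), (nat_lit 12)]⟩,
 ⟨⟨[(nat_lit 60), (nat_lit 100), (nat_lit 140)], [(nat_lit 0), (nat_lit 0), (nat_lit 2047)], [((nat_lit 0), (nat_lit 0), (nat_lit 0)), ((nat_lit 0), (nat_lit 0), (nat_lit 0)), ((nat_lit 1000), (nat_lit 993), (nat_lit 781))], ((nat_lit 99), (nat_lit 100), (nat_lit 77))⟩, (nat_lit 2247258), (nat_lit 329), (nat_lit 329), (nat_lit 0), (nat_lit 481425), [(nat_lit 3282000000), (nat_lit 6250000000), (nat_lit 9842000000)], [], [(nat_lit 30093269786), (nat_lit 25556563838), (nat_lit 26681141675), (nat_lit 28374367862), (nat_lit 32817750838), (nat_lit 33875320176), (nat_lit 47234671852), (nat_lit 40919636116)], (nat_lit 1271251), (nat_lit 1271251), (nat_lit 780000), (nat_lit 2090001), (nat_lit 780000), (nat_lit 3072501), [(nat_lit 780000),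 (nat_lit 1435001), (nat_lit 1271251)], [(nat_lit 11), (nat_lit 55), (nat_lit 401), (nat_lit 175), (nat_lit 11)]⟩,
 ⟨⟨[(nat_lit 120), (nat_lit 160), (nat_lit 180)], [(nat_lit 0), (nat_lit 533), (nat_lit 2066)], [((nat_lit 0), (nat_lit 0), (nat_lit 0)), ((nat_lit 960), (nat_lit 1000), (nat_lit 200)), ((nat_lit 615), (nat_lit 1000), (nat_lit 729))], ((nat_lit 100), (nat_lit 63), (nat_lit 72))⟩, (nat_lit 873366), (nat_lit 300), (nat_lit 1026), (nat_lit 24767200), (nat_lit 1541611), [(nat_lit 2972064000), (nat_lit 4428256000), (nat_lit 5243634000)], [], [(nat_lit 23885051092), (nat_lit 23585931814), (nat_lit 22817076995), (nat_lit 22507070622), (nat_lit 22305902874), (nat_lit 21963743651), (nat_lit 21140430040), (nat_lit 20788648211)], (nat_lit 1271251), (nat_lit 1271251), (nat_lit 780000), (nat_lit 1762501), (nat_lit 780000), (nat_lit 3072501), [(nat_lit 1695001), (nat_lit 1271251), (nat_lit 1271251)], [(nat_lit 28), (nat_lit 65), (nat_lit 456), (nat_lit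 225), (nat_lit 10)]⟩⟩)))
noncomputable def c8_74 : Tr Lf :=
 (.stt (nat_lit 2) (.spl (nat_lit 1) (nat_lit 280) (.leaf ⟨(nat_lit 0), (nat_lit 608), (nat_lit 0), (nat_lit 392), (nat_lit 2955), (nat_lit 4583), (nat_lit 7000), (nat_lit 4082), (nat_lit 0), (nat_lit 0), (nat_lit 0), [], Pd.none, Pd.none, (nat_lit 0), (nat_lit 1), (nat_lit 0), (nat_lit 0), (nat_lit 6), (nat_lit 0), [⟨(nat_lit 0), (nat_lit 100), (nat_lit 69), (nat_lit 96), (nat_lit 368175335)⟩], [⟨(nat_lit 1), (nat_lit 75), (nat_lit 66), (nat_lit 100), (nat_lit 73580951)⟩], [], [],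
 ⟨⟨[(nat_lit 40), (nat_lit 80), (nat_lit 120)], [(nat_lit 0), (nat_lit 795), (nat_lit 2800)], [((nat_lit 0), (nat_lit 0), (nat_lit 0)), ((nat_lit 1000), (nat_lit 814), (nat_lit 310)), ((nat_lit 1000), (nat_lit 719), (nat_lit 783))], ((nat_lit 71), (nat_lit 100), (nat_lit 71))⟩, (nat_lit 2210220), (nat_lit 172), (nat_lit 172), (nat_lit 0), (nat_lit 193592), [(nat_lit 2032000181), (nat_lit 4688000101), (nat_lit 7968000000)], [], [(nat_lit 23824575332), (nat_lit 24880926462), (nat_lit 26440138580), (nat_lit 27308978976), (nat_lit 28324500286), (nat_lit 29636382588), (nat_lit 30746382013), (nat_lit 31747054582)], (nat_lit 1271251), (nat_lit 1271251), (nat_lit 780000), (nat_lit 2090001), (nat_lit 1271251), (nat_lit 1271251), [(nat_lit 490000), (nat_lit 1100000), (nat_lit 1785001)], [(nat_lit 4), (nat_lit 51), (nat_lit 289), (nat_lit 75), (nat_lit 8)]⟩,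
 ⟨⟨[(nat_lit 80), (nat_lit 120), (nat_lit 160)], [(nat_lit 0), (nat_lit 0), (nat_lit 2132)], [((nat_lit 0), (nat_lit 0), (nat_lit 0)), ((nat_lit 0), (nat_lit 0), (nat_lit 0)), ((nat_lit 858), (nat_lit 1000), (nat_lit 713))], ((nat_lit 100), (nat_lit 85), (nat_lit 73))⟩, (nat_lit 4779685), (nat_lit 220), (nat_lit 220), (nat_lit 0), (nat_lit 0), [(nat_lit 4688000000), (nat_lit 7968000000), (nat_lit 11872000000)], [], [(nat_lit 21680101580), (nat_lit 24687552580), (nat_lit 27715512000), (nat_lit 30226809000), (nat_lit 32527274000), (nat_lit 34057215000), (nat_lit 34045148000), (nat_lit 35092943000)], (nat_lit 0), (nat_lit 0), (nat_lit 0), (nat_lit 0), (nat_lit 0), (nat_lit 0), [], [(nat_lit 18), (nat_lit 59), (nat_lit 483), (nat_lit 250), (nat_lit 12)]⟩,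
 ⟨⟨[(nat_lit 120), (nat_lit 160), (nat_lit 180)], [(nat_lit 0), (nat_lit 533), (nat_lit 2066)], [((nat_lit 0), (nat_lit 0), (nat_lit 0)), ((nat_lit 960), (nat_lit 1000), (nat_lit 200)), ((nat_lit 615), (nat_lit 1000), (nat_lit 729))], ((nat_lit 100), (nat_lit 63), (nat_lit 72))⟩, (nat_lit 917854), (nat_lit 300), (nat_lit 735), (nat_lit 26028800), (nat_lit 818736), [(nat_lit 3123456000), (nat_lit 4653824000), (nat_lit 5510736000)], [], [(nat_lit 21816670372), (nat_lit 21451426572), (nat_lit 21692904099), (nat_lit 21347548897), (nat_lit 22039798530), (nat_lit 18503488454), (nat_lit 17396641522), (nat_lit 17012234630)], (nat_lit 1271251), (nat_lit 1271251), (nat_lit 1271251), (nat_lit 1271251), (nat_lit 0), (nat_lit 2825001), [(nat_lit 1695001), (nat_lit 1271251), (nat_lit 1271251)], [(nat_lit 28), (nat_lit 65), (nat_lit 483), (nat_lit 250), (nat_lit 11)]⟩⟩) (.leaf ⟨(nat_lit 0), (nat_lit 681), (nat_lit 0), (nat_lit 319), (nat_lit 0), (nat_lit 4848),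 (nat_lit 5027), (nat_lit 2856), (nat_lit 0), (nat_lit 0), (nat_lit 0), [], Pd.none, Pd.none, (nat_lit 0), (nat_lit 1), (nat_lit 0), (nat_lit 0), (nat_lit 6), (nat_lit 0), [⟨(nat_lit 0), (nat_lit 80), (nat_lit 60), (nat_lit 100), (nat_lit 617983222)⟩], [⟨(nat_lit 1), (nat_lit 75), (nat_lit 66), (nat_lit 100), (nat_lit 297905567)⟩], [], [],
 ⟨⟨[(nat_lit 40), (nat_lit 80), (nat_lit 120)], [(nat_lit 0), (nat_lit 795), (nat_lit 2800)], [((nat_lit 0), (nat_lit 0), (nat_lit 0)), ((nat_lit 1000), (nat_lit 814), (nat_lit 310)), ((nat_lit 1000), (nat_lit 719), (nat_lit 783))], ((nat_lit 71), (nat_lit 100), (nat_lit 71))⟩, (nat_lit 2205457), (nat_lit 248), (nat_lit 248), (nat_lit 0), (nat_lit 363272), [(nat_lit 2032000013), (nat_lit 4688000023), (nat_lit 7968000000)], [], [(nat_lit 23474824118), (nat_lit 24492699430), (nat_lit 25942355746), (nat_lit 26836002168), (nat_lit 28667969488), (nat_lit 30018840128), (nat_lit 31016340428), (nat_lit 32041669392)], (nat_lit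 1271251), (nat_lit 1271251), (nat_lit 780000), (nat_lit 2090001), (nat_lit 1271251), (nat_lit 1271251), [(nat_lit 490000), (nat_lit 1100000), (nat_lit 1785001)], [(nat_lit 4), (nat_lit 51), (nat_lit 289), (nat_lit 75), (nat_lit 8)]⟩,
 ⟨⟨[(nat_lit 60), (nat_lit 100), (nat_lit 140)], [(nat_lit 0), (nat_lit 0), (nat_lit 2047)], [((nat_lit 0), (nat_lit 0), (nat_lit 0)), ((nat_lit 0), (nat_lit 0), (nat_lit 0)), ((nat_lit 1000), (nat_lit 993), (nat_lit 781))], ((nat_lit 99), (nat_lit 100), (nat_lit 77))⟩, (nat_lit 2579538), (nat_lit 186), (nat_lit 186), (nat_lit 0), (nat_lit 0), [(nat_lit 3282000000), (nat_lit 6250000000), (nat_lit 9842000000)], [], [(nat_lit 23715318791), (nat_lit 26326780258), (nat_lit 28373663541), (nat_lit 30400264998), (nat_lit 31874867712), (nat_lit 33128091264), (nat_lit 33606660651), (nat_lit 34697502260)], (nat_lit 0), (nat_lit 0), (nat_lit 0), (nat_lit 0), (nat_lit 0), (nat_lit 0), [], [(nat_lit 11), (nat_lit 55), (nat_lit 401),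 (nat_lit 175), (nat_lit 12)]⟩,
 ⟨⟨[(nat_lit 120), (nat_lit 160), (nat_lit 180)], [(nat_lit 0), (nat_lit 533), (nat_lit 2066)], [((nat_lit 0), (nat_lit 0), (nat_lit 0)), ((nat_lit 960), (nat_lit 1000), (nat_lit 200)), ((nat_lit 615), (nat_lit 1000), (nat_lit 729))], ((nat_lit 100), (nat_lit 63), (nat_lit 72))⟩, (nat_lit 746927), (nat_lit 300), (nat_lit 1051), (nat_lit 21181600), (nat_lit 1541611), [(nat_lit 2541792000), (nat_lit 3787168000), (nat_lit 4484502000)], [], [(nat_lit 20225184056), (nat_lit 19926602812), (nat_lit 19791710186), (nat_lit 19472324940), (nat_lit 17614348220), (nat_lit 16526567439), (nat_lit 16254681356), (nat_lit 15917419634)], (nat_lit 1271251), (nat_lit 1271251), (nat_lit 1271251), (nat_lit 1271251), (nat_lit 0), (nat_lit 2825001), [(nat_lit 1695001), (nat_lit 1271251), (nat_lit 1271251)], [(nat_lit 28), (nat_lit 65), (nat_lit 483), (nat_lit 250), (nat_lit 11)]⟩⟩)) (.spl (nat_lit 1) (nat_lit 280) (.spl (nat_lit 5) (nat_lit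 120) (.spl (nat_lit 1) (nat_lit 260) (.spl (nat_lit 6) (nat_lit 52) (.leaf ⟨(nat_lit 0), (nat_lit 387), (nat_lit 0), (nat_lit 613), (nat_lit 0), (nat_lit 4546), (nat_lit 10522), (nat_lit 6574), (nat_lit 0), (nat_lit 0), (nat_lit 0), [], Pd.none, Pd.none, (nat_lit 0), (nat_lit 1), (nat_lit 0), (nat_lit 0), (nat_lit 6), (nat_lit 0), [], [], [⟨(nat_lit 0), (nat_lit 100), (nat_lit 98), (nat_lit 10), (nat_lit 555580240)⟩], [],
 ⟨⟨[(nat_lit 40), (nat_lit 80), (nat_lit 100)], [(nat_lit 0), (nat_lit 795), (nat_lit 1829)], [((nat_lit 0), (nat_lit 0), (nat_lit 0)), ((nat_lit 1000), (nat_lit 814), (nat_lit 310)), ((nat_lit 1000), (nat_lit 714), (nat_lit 692))], ((nat_lit 71), (nat_lit 100), (nat_lit 67))⟩, (nat_lit 2293447), (nat_lit 126), (nat_lit 126), (nat_lit 0), (nat_lit 88934), [(nat_lit 2032000044), (nat_lit 4688000129), (nat_lit 6250000000)], [], [(nat_lit 21792122120), (nat_lit 23135342013), (nat_lit 25467673179), (nat_lit 26617137936), (nat_lit 28275560201),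 (nat_lit 29582982856), (nat_lit 30708689706), (nat_lit 31705919684)], (nat_lit 1271251), (nat_lit 1271251), (nat_lit 780000), (nat_lit 2090001), (nat_lit 1271251), (nat_lit 1271251), [(nat_lit 490000), (nat_lit 1100000), (nat_lit 1442501)], [(nat_lit 3), (nat_lit 50), (nat_lit 289), (nat_lit 75), (nat_lit 10)]⟩,
 ⟨⟨[(nat_lit 80), (nat_lit 120), (nat_lit 160)], [(nat_lit 0), (nat_lit 0), (nat_lit 2132)], [((nat_lit 0), (nat_lit 0), (nat_lit 0)), ((nat_lit 0), (nat_lit 0), (nat_lit 0)), ((nat_lit 858), (nat_lit 1000), (nat_lit 713))], ((nat_lit 100), (nat_lit 88), (nat_lit 69))⟩, (nat_lit 0), (nat_lit 361), (nat_lit 361), (nat_lit 0), (nat_lit 198015), [(nat_lit 4688000000), (nat_lit 7968000000), (nat_lit 11872000000)], [], [(nat_lit 37647466360), (nat_lit 36468457350), (nat_lit 44950215152), (nat_lit 40089871868), (nat_lit 30509717258), (nat_lit 29207716732), (nat_lit 51988071330), (nat_lit 47312896833)], (nat_lit 1271251), (nat_lit 1271251), (nat_lit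 780000), (nat_lit 2090001), (nat_lit 0), (nat_lit 780000), [(nat_lit 1100000), (nat_lit 1785001), (nat_lit 1271251)], [(nat_lit 18), (nat_lit 59), (nat_lit 401), (nat_lit 175), (nat_lit 10)]⟩,
 ⟨⟨[(nat_lit 120), (nat_lit 160), (nat_lit 180)], [(nat_lit 0), (nat_lit 533), (nat_lit 2066)], [((nat_lit 0), (nat_lit 0), (nat_lit 0)), ((nat_lit 960), (nat_lit 1000), (nat_lit 200)), ((nat_lit 615), (nat_lit 1000), (nat_lit 729))], ((nat_lit 100), (nat_lit 67), (nat_lit 68))⟩, (nat_lit 1435317), (nat_lit 300), (nat_lit 500), (nat_lit 40703201), (nat_lit 369760), [(nat_lit 4884384000), (nat_lit 7277536000), (nat_lit 8617554000)], [], [(nat_lit 31095946871), (nat_lit 30801296970), (nat_lit 32804628768), (nat_lit 32471088591), (nat_lit 26198404211), (nat_lit 25898923177), (nat_lit 27294029729), (nat_lit 26956965581)], (nat_lit 1271251), (nat_lit 1271251), (nat_lit 1271251), (nat_lit 1271251), (nat_lit 0), (nat_lit 780000), [(nat_lit 1695001), (nat_lit 1271251),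 (nat_lit 1271251)], [(nat_lit 28), (nat_lit 65), (nat_lit 401), (nat_lit 175), (nat_lit 9)]⟩⟩) (.dle (nat_lit 0))) (.leaf ⟨(nat_lit 0), (nat_lit 442), (nat_lit 0), (nat_lit 558), (nat_lit 3736), (nat_lit 4365), (nat_lit 9958), (nat_lit 6448), (nat_lit 0), (nat_lit 0), (nat_lit 0), [], Pd.none, Pd.none, (nat_lit 0), (nat_lit 1), (nat_lit 0), (nat_lit 0), (nat_lit 6), (nat_lit 0), [⟨(nat_lit 0), (nat_lit 100), (nat_lit 71), (nat_lit 100), (nat_lit 278097394)⟩], [], [⟨(nat_lit 0), (nat_lit 100), (nat_lit 96), (nat_lit 20), (nat_lit 165424898)⟩], [],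
 ⟨⟨[(nat_lit 40), (nat_lit 80), (nat_lit 120)], [(nat_lit 0), (nat_lit 795), (nat_lit 2800)], [((nat_lit 0), (nat_lit 0), (nat_lit 0)), ((nat_lit 1000), (nat_lit 814), (nat_lit 310)), ((nat_lit 1000), (nat_lit 719), (nat_lit 783))], ((nat_lit 71), (nat_lit 100), (nat_lit 71))⟩, (nat_lit 2489899), (nat_lit 154), (nat_lit 154), (nat_lit 0), (nat_lit 125976), [(nat_lit 2032000091), (nat_lit 4688000713), (nat_lit 7968000000)], [], [(nat_lit 22020771151), (nat_lit 23308518960), (nat_lit 25621141168), (nat_lit 26622202055), (nat_lit 28040374503), (nat_lit 29321757140), (nat_lit 30524303015), (nat_lit 31504692210)], (nat_lit 1271251), (nat_lit 1271251), (nat_lit 780000), (nat_lit 2090001), (nat_lit 1271251), (nat_lit 1271251), [(nat_lit 490000), (nat_lit 1100000), (nat_lit 1785001)], [(nat_lit 4), (nat_lit 51), (nat_lit 289), (nat_lit 75), (nat_lit 8)]⟩,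
 ⟨⟨[(nat_lit 80), (nat_lit 120), (nat_lit 160)], [(nat_lit 0), (nat_lit 528), (nat_lit 2577)], [((nat_lit 0), (nat_lit 0), (nat_lit 0)), ((nat_lit 1000), (nat_lit 959), (nat_lit 206)), ((nat_lit 929), (nat_lit 1000), (nat_lit 742))], ((nat_lit 100), (nat_lit 92), (nat_lit 75))⟩, (nat_lit 2956529), (nat_lit 387), (nat_lit 387), (nat_lit 0), (nat_lit 256602), [(nat_lit 4688000000), (nat_lit 7968000000), (nat_lit 11872000000)], [], [(nat_lit 30670239177), (nat_lit 28940097939), (nat_lit 38781781940), (nat_lit 34181962664), (nat_lit 24938869321), (nat_lit 22023243862), (nat_lit 45784876656), (nat_lit 41360300753)], (nat_lit 1271251), (nat_lit 1271251), (nat_lit 780000), (nat_lit 2090001), (nat_lit 0), (nat_lit 780000), [(nat_lit 1100000), (nat_lit 1785001), (nat_lit 1271251)], [(nat_lit 18), (nat_lit 59), (nat_lit 401), (nat_lit 175), (nat_lit 10)]⟩,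
 ⟨⟨[(nat_lit 120), (nat_lit 160), (nat_lit 180)], [(nat_lit 0), (nat_lit 533), (nat_lit 2066)], [((nat_lit 0), (nat_lit 0), (nat_lit 0)), ((nat_lit 960), (nat_lit 1000), (nat_lit 200)), ((nat_lit 615), (nat_lit 1000), (nat_lit 729))], ((nat_lit 100), (nat_lit 63), (nat_lit 72))⟩, (nat_lit 1306536), (nat_lit 300), (nat_lit 600), (nat_lit 37051202), (nat_lit 544161), [(nat_lit 4446144000), (nat_lit 6624576000), (nat_lit 7844364000)], [], [(nat_lit 29087227362), (nat_lit 28659210486), (nat_lit 29785590526), (nat_lit 29425224001), (nat_lit 24166396699), (nat_lit 23742905017), (nat_lit 24710934097), (nat_lit 24143424506)], (nat_lit 1271251), (nat_lit 1271251), (nat_lit 1271251), (nat_lit 1271251), (nat_lit 0), (nat_lit 780000), [(nat_lit 1695001), (nat_lit 1271251), (nat_lit 1271251)], [(nat_lit 28), (nat_lit 65), (nat_lit 401), (nat_lit 175), (nat_lit 9)]⟩⟩)) (.leaf ⟨(nat_lit 0), (nat_lit 0), (nat_lit 0), (nat_lit 1000), (nat_lit 0), (nat_lit 4642),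 (nat_lit 9116), (nat_lit 12418), (nat_lit 0), (nat_lit 0), (nat_lit 0), [], Pd.none, Pd.none, (nat_lit 0), (nat_lit 1), (nat_lit 0), (nat_lit 0), (nat_lit 0), (nat_lit 0), [⟨(nat_lit 0), (nat_lit 94), (nat_lit 62), (nat_lit 100), (nat_lit 329987434)⟩], [], [], [],
 ⟨⟨[(nat_lit 40), (nat_lit 80), (nat_lit 120)], [(nat_lit 0), (nat_lit 795), (nat_lit 2800)], [((nat_lit 0), (nat_lit 0), (nat_lit 0)), ((nat_lit 1000), (nat_lit 814), (nat_lit 310)), ((nat_lit 1000), (nat_lit 719), (nat_lit 783))], ((nat_lit 71), (nat_lit 100), (nat_lit 71))⟩, (nat_lit 2615661), (nat_lit 154), (nat_lit 154), (nat_lit 0), (nat_lit 125976), [(nat_lit 2055182742), (nat_lit 4688000009), (nat_lit 7968000000)], [], [(nat_lit 21510098690), (nat_lit 22838961486), (nat_lit 25336194718), (nat_lit 26686710672), (nat_lit 28400299577), (nat_lit 29721533512), (nat_lit 30806485962), (nat_lit 31812648068)], (nat_lit 1271251), (nat_lit 1271251), (nat_lit 780000), (nat_lit 2090001), (nat_lit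 1271251), (nat_lit 1271251), [(nat_lit 490000), (nat_lit 1100000), (nat_lit 1785001)], [(nat_lit 4), (nat_lit 51), (nat_lit 289), (nat_lit 75), (nat_lit 8)]⟩,
 ⟨⟨[(nat_lit 80), (nat_lit 120), (nat_lit 160)], [(nat_lit 0), (nat_lit 0), (nat_lit 2132)], [((nat_lit 0), (nat_lit 0), (nat_lit 0)), ((nat_lit 0), (nat_lit 0), (nat_lit 0)), ((nat_lit 858), (nat_lit 1000), (nat_lit 713))], ((nat_lit 100), (nat_lit 85), (nat_lit 73))⟩, (nat_lit 0), (nat_lit 331), (nat_lit 331), (nat_lit 0), (nat_lit 343201), [(nat_lit 4688000000), (nat_lit 7968000000), (nat_lit 11872000000)], [], [(nat_lit 42009442148), (nat_lit 32438508614), (nat_lit 35946658188), (nat_lit 34459056152), (nat_lit 50207228448), (nat_lit 42003165740), (nat_lit 70811466472), (nat_lit 63009464944)], (nat_lit 1271251), (nat_lit 1271251), (nat_lit 780000), (nat_lit 2090001), (nat_lit 780000), (nat_lit 3072501), [(nat_lit 1100000), (nat_lit 1785001), (nat_lit 1271251)], [(nat_lit 18), (nat_lit 59),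 (nat_lit 483), (nat_lit 250), (nat_lit 12)]⟩,
 ⟨⟨[(nat_lit 120), (nat_lit 160), (nat_lit 180)], [(nat_lit 0), (nat_lit 533), (nat_lit 2066)], [((nat_lit 0), (nat_lit 0), (nat_lit 0)), ((nat_lit 960), (nat_lit 1000), (nat_lit 200)), ((nat_lit 615), (nat_lit 1000), (nat_lit 729))], ((nat_lit 100), (nat_lit 63), (nat_lit 72))⟩, (nat_lit 2341463), (nat_lit 300), (nat_lit 476), (nat_lit 66400002), (nat_lit 544998), [(nat_lit 7968000000), (nat_lit 11872000000), (nat_lit 14058000000)], [], [(nat_lit 38688339554), (nat_lit 38343046776), (nat_lit 42541447107), (nat_lit 41822040505), (nat_lit 40373783580), (nat_lit 39348798580), (nat_lit 43264681929), (nat_lit 42941609947)], (nat_lit 1271251), (nat_lit 1271251), (nat_lit 1271251), (nat_lit 1271251), (nat_lit 780000), (nat_lit 3072501), [(nat_lit 1695001), (nat_lit 1271251), (nat_lit 1271251)], [(nat_lit 28), (nat_lit 65), (nat_lit 483), (nat_lit 250), (nat_lit 11)]⟩⟩)) (.spl (nat_lit 1) (nat_lit 300) (.leaf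 ⟨(nat_lit 0), (nat_lit 577), (nat_lit 0), (nat_lit 423), (nat_lit 0), (nat_lit 4678), (nat_lit 4904), (nat_lit 4022), (nat_lit 0), (nat_lit 0), (nat_lit 0), [], Pd.none, Pd.none, (nat_lit 0), (nat_lit 1), (nat_lit 0), (nat_lit 0), (nat_lit 6), (nat_lit 0), [⟨(nat_lit 0), (nat_lit 92), (nat_lit 68), (nat_lit 100), (nat_lit 356871083)⟩, ⟨(nat_lit 0), (nat_lit 87), (nat_lit 60), (nat_lit 100), (nat_lit 187439118)⟩], [⟨(nat_lit 1), (nat_lit 75), (nat_lit 66), (nat_lit 100), (nat_lit 154814093)⟩], [], [],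
 ⟨⟨[(nat_lit 40), (nat_lit 80), (nat_lit 120)], [(nat_lit 0), (nat_lit 795), (nat_lit 2800)], [((nat_lit 0), (nat_lit 0), (nat_lit 0)), ((nat_lit 1000), (nat_lit 814), (nat_lit 310)), ((nat_lit 1000), (nat_lit 719), (nat_lit 783))], ((nat_lit 71), (nat_lit 100), (nat_lit 71))⟩, (nat_lit 2450233), (nat_lit 166), (nat_lit 166), (nat_lit 0), (nat_lit 169518), [(nat_lit 2032000017), (nat_lit 4688000011), (nat_lit 7968000000)], [], [(nat_lit 22746187593), (nat_lit 23812856673), (nat_lit 25778592142), (nat_lit 26713614707), (nat_lit 28447076843), (nat_lit 29773490008), (nat_lit 30843159558), (nat_lit 31852671212)], (nat_lit 1271251), (nat_lit 1271251), (nat_lit 780000), (nat_lit 2090001), (nat_lit 1271251), (nat_lit 1271251), [(nat_lit 490000), (nat_lit 1100000), (nat_lit 1785001)], [(nat_lit 4), (nat_lit 51), (nat_lit 289), (nat_lit 75), (nat_lit 8)]⟩,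
 ⟨⟨[(nat_lit 60), (nat_lit 100), (nat_lit 140)], [(nat_lit 0), (nat_lit 0), (nat_lit 2047)], [((nat_lit 0), (nat_lit 0), (nat_lit 0)), ((nat_lit 0), (nat_lit 0), (nat_lit 0)), ((nat_lit 1000), (nat_lit 993), (nat_lit 781))], ((nat_lit 99), (nat_lit 100), (nat_lit 77))⟩, (nat_lit 0), (nat_lit 373), (nat_lit 373), (nat_lit 0), (nat_lit 401879), [(nat_lit 3282000000), (nat_lit 6250000000), (nat_lit 9842000000)], [], [(nat_lit 37085685912), (nat_lit 36989024536), (nat_lit 39372938288), (nat_lit 40038158480), (nat_lit 41735613296), (nat_lit 42148749112), (nat_lit 49724352352), (nat_lit 47625788536)], (nat_lit 1271251), (nat_lit 1271251), (nat_lit 780000), (nat_lit 2090001), (nat_lit 0), (nat_lit 2825001), [(nat_lit 780000), (nat_lit 1435001), (nat_lit 1271251)], [(nat_lit 11), (nat_lit 55), (nat_lit 401), (nat_lit 175), (nat_lit 12)]⟩,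
 ⟨⟨[(nat_lit 120), (nat_lit 160), (nat_lit 180)], [(nat_lit 0), (nat_lit 533), (nat_lit 2066)], [((nat_lit 0), (nat_lit 0), (nat_lit 0)), ((nat_lit 960), (nat_lit 1000), (nat_lit 200)), ((nat_lit 615), (nat_lit 1000), (nat_lit 729))], ((nat_lit 100), (nat_lit 63), (nat_lit 72))⟩, (nat_lit 990439), (nat_lit 300), (nat_lit 688), (nat_lit 28087201), (nat_lit 748301), [(nat_lit 3370464000), (nat_lit 5021856000), (nat_lit 5946534000)], [], [(nat_lit 23960968819), (nat_lit 23658557285), (nat_lit 24065211212), (nat_lit 23748545828), (nat_lit 23518868090), (nat_lit 20034537094), (nat_lit 19790223692), (nat_lit 19365600967)], (nat_lit 1271251), (nat_lit 1271251), (nat_lit 1271251), (nat_lit 1271251), (nat_lit 0), (nat_lit 2825001), [(nat_lit 1695001), (nat_lit 1271251), (nat_lit 1271251)], [(nat_lit 28), (nat_lit 65), (nat_lit 483), (nat_lit 250), (nat_lit 11)]⟩⟩) (.trZ (nat_lit 0) (nat_lit 1) (nat_lit 3) (nat_lit 90) (nat_lit 74) (nat_lit 100) (nat_lit 140)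 (.trZ (nat_lit 1) (nat_lit 2) (nat_lit 5) (nat_lit 100) (nat_lit 87) (nat_lit 41) (nat_lit 10) (.trX (nat_lit 5) (nat_lit 1) (nat_lit 2) (nat_lit 87) (nat_lit 41) (nat_lit 100) (nat_lit 390) (.leaf ⟨(nat_lit 0), (nat_lit 534), (nat_lit 0), (nat_lit 466), (nat_lit 0), (nat_lit 4695), (nat_lit 7509), (nat_lit 4192), (nat_lit 0), (nat_lit 0), (nat_lit 0), [], Pd.none, Pd.none, (nat_lit 0), (nat_lit 1), (nat_lit 0), (nat_lit 0), (nat_lit 6), (nat_lit 0), [⟨(nat_lit 0), (nat_lit 80), (nat_lit 60), (nat_lit 100), (nat_lit 587420304)⟩], [⟨(nat_lit 1), (nat_lit 75), (nat_lit 66), (nat_lit 100), (nat_lit 92085191)⟩], [], [],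
 ⟨⟨[(nat_lit 40), (nat_lit 80), (nat_lit 120)], [(nat_lit 0), (nat_lit 795), (nat_lit 2800)], [((nat_lit 0), (nat_lit 0), (nat_lit 0)), ((nat_lit 1000), (nat_lit 814), (nat_lit 310)), ((nat_lit 1000), (nat_lit 719), (nat_lit 783))], ((nat_lit 71), (nat_lit 100), (nat_lit 71))⟩, (nat_lit 2419845), (nat_lit 173), (nat_lit 173), (nat_lit 0), (nat_lit 220714), [(nat_lit 2032000004), (nat_lit 4688000003), (nat_lit 7968000000)], [], [(nat_lit 22865528022), (nat_lit 23906946862), (nat_lit 25787174143), (nat_lit 26725120620), (nat_lit 28345595343), (nat_lit 29642345503), (nat_lit 30860477645), (nat_lit 31871571030)], (nat_lit 1271251), (nat_lit 1271251), (nat_lit 936250), (nat_lit 2108751), (nat_lit 1271251), (nat_lit 1271251), [(nat_lit 490000), (nat_lit 1100000), (nat_lit 1785001)], [(nat_lit 4), (nat_lit 51), (nat_lit 289), (nat_lit 75), (nat_lit 8)]⟩,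
 ⟨⟨[(nat_lit 60), (nat_lit 100), (nat_lit 140)], [(nat_lit 0), (nat_lit 609), (nat_lit 2558)], [((nat_lit 0), (nat_lit 0), (nat_lit 0)), ((nat_lit 1000), (nat_lit 905), (nat_lit 238)), ((nat_lit 1000), (nat_lit 904), (nat_lit 760))], ((nat_lit 90), (nat_lit 100), (nat_lit 74))⟩, (nat_lit 1655774), (nat_lit 425), (nat_lit 425), (nat_lit 0), (nat_lit 468097), [(nat_lit 3282000000), (nat_lit 6250000000), (nat_lit 9842000000)], [], [(nat_lit 30175161795), (nat_lit 29332002184), (nat_lit 30908979105), (nat_lit 32129781350), (nat_lit 32440961882), (nat_lit 33147349846), (nat_lit 45773833772), (nat_lit 42589480409)], (nat_lit 1271251), (nat_lit 1271251), (nat_lit 936250), (nat_lit 2108751), (nat_lit 54688), (nat_lit 2774063), [(nat_lit 780000), (nat_lit 1435001), (nat_lit 1271251)], [(nat_lit 11), (nat_lit 55), (nat_lit 401), (nat_lit 175), (nat_lit 11)]⟩,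
 ⟨⟨[(nat_lit 120), (nat_lit 160), (nat_lit 180)], [(nat_lit 0), (nat_lit 533), (nat_lit 2066)], [((nat_lit 0), (nat_lit 0), (nat_lit 0)), ((nat_lit 960), (nat_lit 1000), (nat_lit 200)), ((nat_lit 615), (nat_lit 1000), (nat_lit 729))], ((nat_lit 100), (nat_lit 63), (nat_lit 72))⟩, (nat_lit 1091122), (nat_lit 300), (nat_lit 794), (nat_lit 30942400), (nat_lit 978013), [(nat_lit 3713088000), (nat_lit 5532352000), (nat_lit 6551028000)], [], [(nat_lit 27970325409), (nat_lit 27608630077), (nat_lit 27803079964), (nat_lit 27385352623), (nat_lit 25721168976), (nat_lit 23299218715), (nat_lit 23151129214), (nat_lit 22680469688)], (nat_lit 1271251), (nat_lit 1271251), (nat_lit 1271251), (nat_lit 1271251), (nat_lit 54688), (nat_lit 2774063), [(nat_lit 1695001), (nat_lit 1271251), (nat_lit 1271251)], [(nat_lit 28), (nat_lit 65), (nat_lit 483), (nat_lit 250), (nat_lit 11)]⟩⟩)))))))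
noncomputable def c8_75 : Tr Lf :=
 (.trX (nat_lit 3) (nat_lit 0) (nat_lit 1) (nat_lit 78) (nat_lit 39) (nat_lit 100) (nat_lit 390) (.spl (nat_lit 5) (nat_lit 200) (.spl (nat_lit 1) (nat_lit 260) (.trX (nat_lit 3) (nat_lit 0) (nat_lit 1) (nat_lit 75) (nat_lit 48) (nat_lit 100) (nat_lit 380) (.leaf ⟨(nat_lit 0), (nat_lit 947), (nat_lit 0), (nat_lit 53), (nat_lit 0), (nat_lit 4566), (nat_lit 9052), (nat_lit 622), (nat_lit 0), (nat_lit 0), (nat_lit 0), [], Pd.none, Pd.none, (nat_lit 0), (nat_lit 1), (nat_lit 0), (nat_lit 0), (nat_lit 3), (nat_lit 0), [], [⟨(nat_lit 1), (nat_lit 92), (nat_lit 68), (nat_lit 100), (nat_lit 321917615)⟩], [], [⟨(nat_lit 0), (nat_lit 100), (nat_lit 77), (nat_lit 75), (nat_lit 43114528)⟩],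
 ⟨⟨[(nat_lit 40), (nat_lit 80), (nat_lit 120)], [(nat_lit 0), (nat_lit 795), (nat_lit 2800)], [((nat_lit 0), (nat_lit 0), (nat_lit 0)), ((nat_lit 1000), (nat_lit 814), (nat_lit 310)), ((nat_lit 1000), (nat_lit 719), (nat_lit 783))], ((nat_lit 71), (nat_lit 100), (nat_lit 71))⟩, (nat_lit 2067223), (nat_lit 189), (nat_lit 189), (nat_lit 0), (nat_lit 233488), [(nat_lit 2032000204), (nat_lit 4688000009), (nat_lit 7968000000)], [], [(nat_lit 25740563649), (nat_lit 26714033104), (nat_lit 29760328108), (nat_lit 30922147581), (nat_lit 29380400823), (nat_lit 30229518507), (nat_lit 33391871212), (nat_lit 34229097319)], (nat_lit 1271251), (nat_lit 1271251), (nat_lit 1271251), (nat_lit 1271251), (nat_lit 780000), (nat_lit 2499376), [(nat_lit 490000), (nat_lit 1100000), (nat_lit 1785001)], [(nat_lit 4), (nat_lit 51), (nat_lit 317), (nat_lit 100), (nat_lit 9)]⟩,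
 ⟨⟨[(nat_lit 80), (nat_lit 120), (nat_lit 160)], [(nat_lit 0), (nat_lit 0), (nat_lit 2132)], [((nat_lit 0), (nat_lit 0), (nat_lit 0)), ((nat_lit 0), (nat_lit 0), (nat_lit 0)), ((nat_lit 858), (nat_lit 1000), (nat_lit 713))], ((nat_lit 100), (nat_lit 85), (nat_lit 73))⟩, (nat_lit 2801794), (nat_lit 467), (nat_lit 467), (nat_lit 0), (nat_lit 468392), [(nat_lit 4688000000), (nat_lit 7968000000), (nat_lit 11872000000)], [], [(nat_lit 34958061720), (nat_lit 35492788194), (nat_lit 39865356200), (nat_lit 40632182682), (nat_lit 28401033460), (nat_lit 28918389515), (nat_lit 32183876222), (nat_lit 32497133629)], (nat_lit 1271251), (nat_lit 1271251), (nat_lit 1271251), (nat_lit 1271251), (nat_lit 0), (nat_lit 1412501), [(nat_lit 1100000), (nat_lit 1785001), (nat_lit 1271251)], [(nat_lit 18), (nat_lit 59), (nat_lit 456), (nat_lit 225), (nat_lit 11)]⟩,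
 ⟨⟨[(nat_lit 140), (nat_lit 180), (nat_lit 200)], [(nat_lit 0), (nat_lit 0), (nat_lit 2835)], [((nat_lit 0), (nat_lit 0), (nat_lit 0)), ((nat_lit 0), (nat_lit 0), (nat_lit 0)), ((nat_lit 363), (nat_lit 1000), (nat_lit 798))], ((nat_lit 0), (nat_lit 0), (nat_lit 0))⟩, (nat_lit 14582), (nat_lit 300), (nat_lit 1529), (nat_lit 4139301), (nat_lit 2246397), [(nat_lit 521626000), (nat_lit 745074000), (nat_lit 869200000)], [], [(nat_lit 4003016538), (nat_lit 3860344126), (nat_lit 3657510801), (nat_lit 3678078028), (nat_lit 3345799762), (nat_lit 3204816344), (nat_lit 4168121149), (nat_lit 4668055924)], (nat_lit 780000), (nat_lit 1271251), (nat_lit 780000), (nat_lit 2499376), (nat_lit 0), (nat_lit 1412501), [(nat_lit 1977501), (nat_lit 1271251), (nat_lit 1271251)], [(nat_lit 32), (nat_lit 67), (nat_lit 471), (nat_lit 200), (nat_lit 10)]⟩⟩)) (.leaf ⟨(nat_lit 0), (nat_lit 889), (nat_lit 0), (nat_lit 111), (nat_lit 0), (nat_lit 4575), (nat_lit 7476), (nat_lit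 1300), (nat_lit 0), (nat_lit 0), (nat_lit 0), [], Pd.none, Pd.none, (nat_lit 0), (nat_lit 1), (nat_lit 0), (nat_lit 0), (nat_lit 3), (nat_lit 0), [], [⟨(nat_lit 1), (nat_lit 92), (nat_lit 68), (nat_lit 100), (nat_lit 269544516)⟩], [], [],
 ⟨⟨[(nat_lit 40), (nat_lit 80), (nat_lit 120)], [(nat_lit 0), (nat_lit 795), (nat_lit 2800)], [((nat_lit 0), (nat_lit 0), (nat_lit 0)), ((nat_lit 1000), (nat_lit 814), (nat_lit 310)), ((nat_lit 1000), (nat_lit 719), (nat_lit 783))], ((nat_lit 71), (nat_lit 100), (nat_lit 71))⟩, (nat_lit 2066548), (nat_lit 231), (nat_lit 231), (nat_lit 0), (nat_lit 305578), [(nat_lit 2032000024), (nat_lit 4688000028), (nat_lit 7968000000)], [], [(nat_lit 25723328880), (nat_lit 26697653942), (nat_lit 30400984994), (nat_lit 31592228919), (nat_lit 29367727542), (nat_lit 30238268213), (nat_lit 33871716666), (nat_lit 34684447323)], (nat_lit 1271251), (nat_lit 1271251), (nat_lit 1271251), (nat_lit 1271251), (nat_lit 780000), (nat_lit 2499376),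 [(nat_lit 490000), (nat_lit 1100000), (nat_lit 1785001)], [(nat_lit 4), (nat_lit 51), (nat_lit 317), (nat_lit 100), (nat_lit 9)]⟩,
 ⟨⟨[(nat_lit 80), (nat_lit 120), (nat_lit 160)], [(nat_lit 0), (nat_lit 528), (nat_lit 2577)], [((nat_lit 0), (nat_lit 0), (nat_lit 0)), ((nat_lit 1000), (nat_lit 959), (nat_lit 206)), ((nat_lit 929), (nat_lit 1000), (nat_lit 742))], ((nat_lit 100), (nat_lit 92), (nat_lit 75))⟩, (nat_lit 3071344), (nat_lit 496), (nat_lit 496), (nat_lit 0), (nat_lit 525178), [(nat_lit 4688000000), (nat_lit 7968000000), (nat_lit 11872000000)], [], [(nat_lit 33384705574), (nat_lit 33902687836), (nat_lit 38074273605), (nat_lit 38633522252), (nat_lit 29138927412), (nat_lit 29539293420), (nat_lit 32599237626), (nat_lit 32908481063)], (nat_lit 1271251), (nat_lit 1271251), (nat_lit 1271251), (nat_lit 1271251), (nat_lit 0), (nat_lit 1412501), [(nat_lit 1100000), (nat_lit 1785001), (nat_lit 1271251)], [(nat_lit 18), (nat_lit 59), (nat_lit 456),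 (nat_lit 225), (nat_lit 11)]⟩,
 ⟨⟨[(nat_lit 140), (nat_lit 180), (nat_lit 200)], [(nat_lit 0), (nat_lit 0), (nat_lit 2835)], [((nat_lit 0), (nat_lit 0), (nat_lit 0)), ((nat_lit 0), (nat_lit 0), (nat_lit 0)), ((nat_lit 363), (nat_lit 1000), (nat_lit 798))], ((nat_lit 0), (nat_lit 0), (nat_lit 0))⟩, (nat_lit 30540), (nat_lit 300), (nat_lit 1862), (nat_lit 8669100), (nat_lit 2951389), [(nat_lit 1092462000), (nat_lit 1560438000), (nat_lit 1820400000)], [], [(nat_lit 8390038594), (nat_lit 8092033677), (nat_lit 7668607053), (nat_lit 7698411716), (nat_lit 7021686144), (nat_lit 6727180531), (nat_lit 8723458866), (nat_lit 9768787223)], (nat_lit 780000), (nat_lit 1271251), (nat_lit 780000), (nat_lit 2499376), (nat_lit 0), (nat_lit 1412501), [(nat_lit 1977501), (nat_lit 1271251), (nat_lit 1271251)], [(nat_lit 32), (nat_lit 67), (nat_lit 555), (nat_lit 200), (nat_lit 12)]⟩⟩)) (.stt (nat_lit 2) (.leaf ⟨(nat_lit 0), (nat_lit 892), (nat_lit 0), (nat_lit 108), (nat_lit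 0), (nat_lit 4656), (nat_lit 7499), (nat_lit 1197), (nat_lit 0), (nat_lit 0), (nat_lit 0), [], Pd.none, Pd.none, (nat_lit 0), (nat_lit 1), (nat_lit 0), (nat_lit 0), (nat_lit 5), (nat_lit 0), [], [⟨(nat_lit 1), (nat_lit 92), (nat_lit 68), (nat_lit 100), (nat_lit 281508827)⟩], [⟨(nat_lit 1), (nat_lit 55), (nat_lit 99), (nat_lit 100), (nat_lit 318828667)⟩], [],
 ⟨⟨[(nat_lit 40), (nat_lit 80), (nat_lit 120)], [(nat_lit 0), (nat_lit 795), (nat_lit 2800)], [((nat_lit 0), (nat_lit 0), (nat_lit 0)), ((nat_lit 1000), (nat_lit 814), (nat_lit 310)), ((nat_lit 1000), (nat_lit 719), (nat_lit 783))], ((nat_lit 71), (nat_lit 100), (nat_lit 71))⟩, (nat_lit 2060198), (nat_lit 231), (nat_lit 231), (nat_lit 0), (nat_lit 305468), [(nat_lit 2049475627), (nat_lit 4688000003), (nat_lit 7968000000)], [], [(nat_lit 25586681606), (nat_lit 26568707136), (nat_lit 30525380602), (nat_lit 31726610936), (nat_lit 29254656442), (nat_lit 30317015562), (nat_lit 33971876711), (nat_lit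 34789614106)], (nat_lit 1271251), (nat_lit 1271251), (nat_lit 1271251), (nat_lit 1271251), (nat_lit 780000), (nat_lit 2499376), [(nat_lit 490000), (nat_lit 1100000), (nat_lit 1785001)], [(nat_lit 4), (nat_lit 51), (nat_lit 317), (nat_lit 100), (nat_lit 9)]⟩,
 ⟨⟨[(nat_lit 80), (nat_lit 120), (nat_lit 160)], [(nat_lit 0), (nat_lit 0), (nat_lit 2132)], [((nat_lit 0), (nat_lit 0), (nat_lit 0)), ((nat_lit 0), (nat_lit 0), (nat_lit 0)), ((nat_lit 858), (nat_lit 1000), (nat_lit 713))], ((nat_lit 100), (nat_lit 85), (nat_lit 73))⟩, (nat_lit 0), (nat_lit 107), (nat_lit 107), (nat_lit 0), (nat_lit 0), [(nat_lit 4688000000), (nat_lit 7968000000), (nat_lit 11872000000)], [], [(nat_lit 23862726591), (nat_lit 25793882916), (nat_lit 31440397284), (nat_lit 32852737178), (nat_lit 33844164772), (nat_lit 34901180793), (nat_lit 38287388364), (nat_lit 39183865408)], (nat_lit 0), (nat_lit 0), (nat_lit 0), (nat_lit 0), (nat_lit 0), (nat_lit 0), [], [(nat_lit 18), (nat_lit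 59), (nat_lit 538), (nat_lit 300), (nat_lit 13)]⟩,
 ⟨⟨[(nat_lit 140), (nat_lit 180), (nat_lit 200)], [(nat_lit 0), (nat_lit 0), (nat_lit 2835)], [((nat_lit 0), (nat_lit 0), (nat_lit 0)), ((nat_lit 0), (nat_lit 0), (nat_lit 0)), ((nat_lit 363), (nat_lit 1000), (nat_lit 798))], ((nat_lit 0), (nat_lit 0), (nat_lit 0))⟩, (nat_lit 29714), (nat_lit 300), (nat_lit 1741), (nat_lit 8434805), (nat_lit 2951389), [(nat_lit 1062936000), (nat_lit 1518264000), (nat_lit 1771200000)], [], [(nat_lit 7319007701), (nat_lit 7059197101), (nat_lit 6532742699), (nat_lit 6277785012), (nat_lit 6737074052), (nat_lit 6458293495), (nat_lit 5993714133), (nat_lit 5710951764)], (nat_lit 780000), (nat_lit 1271251), (nat_lit 780000), (nat_lit 2499376), (nat_lit 1271251), (nat_lit 1271251), [(nat_lit 1977501), (nat_lit 1271251), (nat_lit 1271251)], [(nat_lit 32), (nat_lit 67), (nat_lit 549), (nat_lit 250), (nat_lit 11)]⟩⟩) (.leaf ⟨(nat_lit 0), (nat_lit 810), (nat_lit 0), (nat_lit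 190), (nat_lit 0), (nat_lit 4431), (nat_lit 7971), (nat_lit 2163), (nat_lit 0), (nat_lit 0), (nat_lit 0), [], Pd.none, Pd.none, (nat_lit 0), (nat_lit 1), (nat_lit 0), (nat_lit 0), (nat_lit 5), (nat_lit 0), [], [⟨(nat_lit 1), (nat_lit 92), (nat_lit 68), (nat_lit 100), (nat_lit 199065479)⟩], [⟨(nat_lit 1), (nat_lit 55), (nat_lit 99), (nat_lit 100), (nat_lit 219341654)⟩], [],
 ⟨⟨[(nat_lit 40), (nat_lit 80), (nat_lit 120)], [(nat_lit 0), (nat_lit 795), (nat_lit 2800)], [((nat_lit 0), (nat_lit 0), (nat_lit 0)), ((nat_lit 1000), (nat_lit 814), (nat_lit 310)), ((nat_lit 1000), (nat_lit 719), (nat_lit 783))], ((nat_lit 71), (nat_lit 100), (nat_lit 71))⟩, (nat_lit 2277350), (nat_lit 179), (nat_lit 179), (nat_lit 0), (nat_lit 187133), [(nat_lit 2032000001), (nat_lit 4688000001), (nat_lit 7968000000)], [], [(nat_lit 25280075376), (nat_lit 26240710718), (nat_lit 30179837246), (nat_lit 31353327555), (nat_lit 29340216245), (nat_lit 30099604561), (nat_lit 33693654363),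 (nat_lit 34497484154)], (nat_lit 1271251), (nat_lit 1271251), (nat_lit 1271251), (nat_lit 1271251), (nat_lit 780000), (nat_lit 2499376), [(nat_lit 490000), (nat_lit 1100000), (nat_lit 1785001)], [(nat_lit 4), (nat_lit 51), (nat_lit 317), (nat_lit 100), (nat_lit 9)]⟩,
 ⟨⟨[(nat_lit 80), (nat_lit 120), (nat_lit 160)], [(nat_lit 0), (nat_lit 0), (nat_lit 2132)], [((nat_lit 0), (nat_lit 0), (nat_lit 0)), ((nat_lit 0), (nat_lit 0), (nat_lit 0)), ((nat_lit 858), (nat_lit 1000), (nat_lit 713))], ((nat_lit 100), (nat_lit 85), (nat_lit 73))⟩, (nat_lit 2376219), (nat_lit 364), (nat_lit 364), (nat_lit 0), (nat_lit 540727), [(nat_lit 4688000000), (nat_lit 7968000000), (nat_lit 11872000000)], [], [(nat_lit 29655883752), (nat_lit 30823689048), (nat_lit 34258071828), (nat_lit 34958769813), (nat_lit 35233928840), (nat_lit 35703500720), (nat_lit 38954506792), (nat_lit 39848602832)], (nat_lit 1271251), (nat_lit 1271251), (nat_lit 1271251), (nat_lit 1271251), (nat_lit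 1271251), (nat_lit 1271251), [(nat_lit 1100000), (nat_lit 1785001), (nat_lit 1271251)], [(nat_lit 18), (nat_lit 59), (nat_lit 538), (nat_lit 300), (nat_lit 13)]⟩,
 ⟨⟨[(nat_lit 140), (nat_lit 180), (nat_lit 200)], [(nat_lit 0), (nat_lit 0), (nat_lit 2835)], [((nat_lit 0), (nat_lit 0), (nat_lit 0)), ((nat_lit 0), (nat_lit 0), (nat_lit 0)), ((nat_lit 363), (nat_lit 1000), (nat_lit 798))], ((nat_lit 0), (nat_lit 0), (nat_lit 0))⟩, (nat_lit 52275), (nat_lit 300), (nat_lit 1251), (nat_lit 14839002), (nat_lit 1902230), [(nat_lit 1869980000), (nat_lit 2671020000), (nat_lit 3116000000)], [], [(nat_lit 12356448277), (nat_lit 11868235605), (nat_lit 11028956252), (nat_lit 10535069293), (nat_lit 11607912488), (nat_lit 11101036046), (nat_lit 10356961760), (nat_lit 9846372970)], (nat_lit 780000), (nat_lit 1271251), (nat_lit 780000), (nat_lit 2499376), (nat_lit 1271251), (nat_lit 1271251), [(nat_lit 1977501), (nat_lit 1271251), (nat_lit 1271251)], [(nat_lit 32),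 (nat_lit 67), (nat_lit 483), (nat_lit 250), (nat_lit 10)]⟩⟩))))
noncomputable def c8_76 : Tr Lf :=
 (.trX (nat_lit 5) (nat_lit 1) (nat_lit 2) (nat_lit 92) (nat_lit 49) (nat_lit 100) (nat_lit 380) (.spl (nat_lit 2) (nat_lit 160) (.trX (nat_lit 4) (nat_lit 0) (nat_lit 2) (nat_lit 73) (nat_lit 85) (nat_lit 100) (nat_lit 320) (.trX (nat_lit 5) (nat_lit 1) (nat_lit 2) (nat_lit 94) (nat_lit 59) (nat_lit 100) (nat_lit 370) (.stt (nat_lit 2) (.spl (nat_lit 2) (nat_lit 140) (.trX (nat_lit 4) (nat_lit 0) (nat_lit 2) (nat_lit 75) (nat_lit 92) (nat_lit 100) (nat_lit 300) (.trX (nat_lit 5) (nat_lit 1) (nat_lit 2) (nat_lit 96) (nat_lit 69) (nat_lit 100) (nat_lit 360) (.leaf ⟨(nat_lit 0), (nat_lit 1000), (nat_lit 0), (nat_lit 0), (nat_lit 0), (nat_lit 4896), (nat_lit 7490), (nat_lit 0), (nat_lit 0), (nat_lit 0), (nat_lit 0), [], Pd.none, Pd.none, (nat_lit 0), (nat_lit 1), (nat_lit 0), (nat_lit 0), (nat_lit 3), (nat_lit 0), [], [⟨(nat_lit 1), (nat_lit 100), (nat_lit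 71), (nat_lit 100), (nat_lit 368625815)⟩], [⟨(nat_lit 1), (nat_lit 82), (nat_lit 92), (nat_lit 100), (nat_lit 145556012)⟩], [],
 ⟨⟨[(nat_lit 40), (nat_lit 80), (nat_lit 120)], [(nat_lit 0), (nat_lit 795), (nat_lit 2800)], [((nat_lit 0), (nat_lit 0), (nat_lit 0)), ((nat_lit 1000), (nat_lit 814), (nat_lit 310)), ((nat_lit 1000), (nat_lit 719), (nat_lit 783))], ((nat_lit 71), (nat_lit 100), (nat_lit 71))⟩, (nat_lit 2048367), (nat_lit 293), (nat_lit 293), (nat_lit 0), (nat_lit 490008), [(nat_lit 2032000005), (nat_lit 4688000002), (nat_lit 7968000000)], [], [(nat_lit 26222582867), (nat_lit 27076518767), (nat_lit 31615167184), (nat_lit 32803668016), (nat_lit 28536951182), (nat_lit 29257053516), (nat_lit 33802210326), (nat_lit 34670428244)], (nat_lit 1271251), (nat_lit 1271251), (nat_lit 1271251), (nat_lit 1271251), (nat_lit 780000), (nat_lit 2253751), [(nat_lit 490000), (nat_lit 1100000), (nat_lit 1785001)], [(nat_lit 4), (nat_lit 51), (nat_lit 289), (nat_lit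 75), (nat_lit 8)]⟩,
 ⟨⟨[(nat_lit 60), (nat_lit 100), (nat_lit 140)], [(nat_lit 0), (nat_lit 0), (nat_lit 2047)], [((nat_lit 0), (nat_lit 0), (nat_lit 0)), ((nat_lit 0), (nat_lit 0), (nat_lit 0)), ((nat_lit 1000), (nat_lit 993), (nat_lit 781))], ((nat_lit 99), (nat_lit 100), (nat_lit 77))⟩, (nat_lit 957315), (nat_lit 219), (nat_lit 219), (nat_lit 0), (nat_lit 0), [(nat_lit 3282000000), (nat_lit 6250000000), (nat_lit 9842000000)], [], [(nat_lit 33482084725), (nat_lit 35423447455), (nat_lit 41492327595), (nat_lit 43005528355), (nat_lit 33448139080), (nat_lit 34581979185), (nat_lit 37965892505), (nat_lit 38589305275)], (nat_lit 0), (nat_lit 0), (nat_lit 0), (nat_lit 0), (nat_lit 0), (nat_lit 0), [], [(nat_lit 11), (nat_lit 55), (nat_lit 317), (nat_lit 100), (nat_lit 9)]⟩,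
 Rw.none⟩))) (.leaf ⟨(nat_lit 0), (nat_lit 903), (nat_lit 0), (nat_lit 97), (nat_lit 0), (nat_lit 4911), (nat_lit 7400), (nat_lit 766), (nat_lit 0), (nat_lit 0), (nat_lit 0), [], Pd.none, Pd.none, (nat_lit 0), (nat_lit 1), (nat_lit 0), (nat_lit 0), (nat_lit 3), (nat_lit 0), [], [⟨(nat_lit 1), (nat_lit 92), (nat_lit 68), (nat_lit 100), (nat_lit 304335122)⟩], [⟨(nat_lit 1), (nat_lit 72), (nat_lit 89), (nat_lit 100), (nat_lit 72496869)⟩], [],
 ⟨⟨[(nat_lit 40), (nat_lit 80), (nat_lit 120)], [(nat_lit 0), (nat_lit 795), (nat_lit 2800)], [((nat_lit 0), (nat_lit 0), (nat_lit 0)), ((nat_lit 1000), (nat_lit 814), (nat_lit 310)), ((nat_lit 1000), (nat_lit 719), (nat_lit 783))], ((nat_lit 71), (nat_lit 100), (nat_lit 71))⟩, (nat_lit 1974322), (nat_lit 277), (nat_lit 277), (nat_lit 0), (nat_lit 433537), [(nat_lit 2032000004), (nat_lit 4688000003), (nat_lit 7968000000)], [], [(nat_lit 26501099495), (nat_lit 27356132176), (nat_lit 31639385307), (nat_lit 32829632581),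 (nat_lit 29170931955), (nat_lit 30049328548), (nat_lit 34377445015), (nat_lit 35205910418)], (nat_lit 1271251), (nat_lit 1271251), (nat_lit 1271251), (nat_lit 1271251), (nat_lit 780000), (nat_lit 2417500), [(nat_lit 490000), (nat_lit 1100000), (nat_lit 1785001)], [(nat_lit 4), (nat_lit 51), (nat_lit 317), (nat_lit 100), (nat_lit 9)]⟩,
 ⟨⟨[(nat_lit 60), (nat_lit 100), (nat_lit 140)], [(nat_lit 0), (nat_lit 0), (nat_lit 2047)], [((nat_lit 0), (nat_lit 0), (nat_lit 0)), ((nat_lit 0), (nat_lit 0), (nat_lit 0)), ((nat_lit 1000), (nat_lit 993), (nat_lit 781))], ((nat_lit 99), (nat_lit 100), (nat_lit 77))⟩, (nat_lit 1044476), (nat_lit 219), (nat_lit 219), (nat_lit 0), (nat_lit 0), [(nat_lit 3282000000), (nat_lit 6250000000), (nat_lit 9842000000)], [], [(nat_lit 33379491428), (nat_lit 35310335228), (nat_lit 41218233628), (nat_lit 42725735228), (nat_lit 33847375453), (nat_lit 34925866828), (nat_lit 38182719728), (nat_lit 38961188800)], (nat_lit 0), (nat_lit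 0), (nat_lit 0), (nat_lit 0), (nat_lit 0), (nat_lit 0), [], [(nat_lit 11), (nat_lit 55), (nat_lit 317), (nat_lit 100), (nat_lit 9)]⟩,
 ⟨⟨[(nat_lit 140), (nat_lit 180), (nat_lit 200)], [(nat_lit 0), (nat_lit 608), (nat_lit 3317)], [((nat_lit 0), (nat_lit 0), (nat_lit 0)), ((nat_lit 913), (nat_lit 1000), (nat_lit 217)), ((nat_lit 385), (nat_lit 1000), (nat_lit 814))], ((nat_lit 0), (nat_lit 0), (nat_lit 0))⟩, (nat_lit 223993), (nat_lit 300), (nat_lit 1915), (nat_lit 6819102), (nat_lit 3086777), [(nat_lit 954674000), (nat_lit 1363626000), (nat_lit 1590800000)], [], [(nat_lit 9808691398), (nat_lit 9756006185), (nat_lit 9365922710), (nat_lit 9313873679), (nat_lit 8906310972), (nat_lit 8855332088), (nat_lit 8470699828), (nat_lit 8428840627)], (nat_lit 936250), (nat_lit 1100000), (nat_lit 780000), (nat_lit 2417500), (nat_lit 0), (nat_lit 2613125), [(nat_lit 1977501), (nat_lit 1271251), (nat_lit 1271251)], [(nat_lit 32), (nat_lit 67), (nat_lit 585), (nat_lit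 225), (nat_lit 13)]⟩⟩)) (.spl (nat_lit 5) (nat_lit 200) (.leaf ⟨(nat_lit 0), (nat_lit 883), (nat_lit 0), (nat_lit 117), (nat_lit 0), (nat_lit 4622), (nat_lit 7039), (nat_lit 1386), (nat_lit 0), (nat_lit 0), (nat_lit 0), [], Pd.none, Pd.none, (nat_lit 0), (nat_lit 1), (nat_lit 0), (nat_lit 0), (nat_lit 3), (nat_lit 0), [], [⟨(nat_lit 1), (nat_lit 96), (nat_lit 69), (nat_lit 100), (nat_lit 242861101)⟩], [], [],
 ⟨⟨[(nat_lit 40), (nat_lit 80), (nat_lit 120)], [(nat_lit 0), (nat_lit 795), (nat_lit 2800)], [((nat_lit 0), (nat_lit 0), (nat_lit 0)), ((nat_lit 1000), (nat_lit 814), (nat_lit 310)), ((nat_lit 1000), (nat_lit 719), (nat_lit 783))], ((nat_lit 71), (nat_lit 100), (nat_lit 71))⟩, (nat_lit 2036416), (nat_lit 220), (nat_lit 220), (nat_lit 0), (nat_lit 283612), [(nat_lit 2032001520), (nat_lit 4688000475), (nat_lit 7968000000)], [], [(nat_lit 25728980032), (nat_lit 26707773267), (nat_lit 31172782813), (nat_lit 32329381962), (nat_lit 29047567150),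 (nat_lit 29781810496), (nat_lit 34015945030), (nat_lit 34826789236)], (nat_lit 1271251), (nat_lit 1271251), (nat_lit 1271251), (nat_lit 1271251), (nat_lit 780000), (nat_lit 2417500), [(nat_lit 490000), (nat_lit 1100000), (nat_lit 1785001)], [(nat_lit 4), (nat_lit 51), (nat_lit 317), (nat_lit 100), (nat_lit 9)]⟩,
 ⟨⟨[(nat_lit 60), (nat_lit 100), (nat_lit 140)], [(nat_lit 0), (nat_lit 0), (nat_lit 2047)], [((nat_lit 0), (nat_lit 0), (nat_lit 0)), ((nat_lit 0), (nat_lit 0), (nat_lit 0)), ((nat_lit 1000), (nat_lit 993), (nat_lit 781))], ((nat_lit 99), (nat_lit 100), (nat_lit 77))⟩, (nat_lit 2213214), (nat_lit 481), (nat_lit 481), (nat_lit 0), (nat_lit 649134), [(nat_lit 3282000000), (nat_lit 6250000000), (nat_lit 9842000000)], [], [(nat_lit 35470391183), (nat_lit 36559772076), (nat_lit 39697321740), (nat_lit 40967143704), (nat_lit 31605405331), (nat_lit 32404977051), (nat_lit 35193472206), (nat_lit 35810899938)], (nat_lit 1271251), (nat_lit 1271251),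 (nat_lit 1271251), (nat_lit 1271251), (nat_lit 0), (nat_lit 1412501), [(nat_lit 780000), (nat_lit 1435001), (nat_lit 1271251)], [(nat_lit 11), (nat_lit 55), (nat_lit 260), (nat_lit 50), (nat_lit 7)]⟩,
 ⟨⟨[(nat_lit 140), (nat_lit 180), (nat_lit 200)], [(nat_lit 0), (nat_lit 0), (nat_lit 2835)], [((nat_lit 0), (nat_lit 0), (nat_lit 0)), ((nat_lit 0), (nat_lit 0), (nat_lit 0)), ((nat_lit 363), (nat_lit 1000), (nat_lit 798))], ((nat_lit 0), (nat_lit 0), (nat_lit 0))⟩, (nat_lit 32191), (nat_lit 300), (nat_lit 1852), (nat_lit 9137700), (nat_lit 2929926), [(nat_lit 1151514000), (nat_lit 1644786000), (nat_lit 1918800000)], [], [(nat_lit 8806190706), (nat_lit 8569714320), (nat_lit 8039058984), (nat_lit 7802529948), (nat_lit 7316417718), (nat_lit 7089854949), (nat_lit 9045863100), (nat_lit 9730405656)], (nat_lit 780000), (nat_lit 1100000), (nat_lit 780000), (nat_lit 2417500), (nat_lit 0), (nat_lit 1412501), [(nat_lit 1977501), (nat_lit 1271251), (nat_lit 1271251)],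 [(nat_lit 32), (nat_lit 67), (nat_lit 548), (nat_lit 175), (nat_lit 12)]⟩⟩) (.leaf ⟨(nat_lit 0), (nat_lit 866), (nat_lit 0), (nat_lit 134), (nat_lit 0), (nat_lit 4622), (nat_lit 6946), (nat_lit 1519), (nat_lit 0), (nat_lit 0), (nat_lit 0), [], Pd.none, Pd.none, (nat_lit 0), (nat_lit 1), (nat_lit 0), (nat_lit 0), (nat_lit 5), (nat_lit 0), [], [⟨(nat_lit 1), (nat_lit 96), (nat_lit 69), (nat_lit 100), (nat_lit 231318654)⟩], [⟨(nat_lit 1), (nat_lit 77), (nat_lit 91), (nat_lit 100), (nat_lit 245061117)⟩], [],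
 ⟨⟨[(nat_lit 40), (nat_lit 80), (nat_lit 120)], [(nat_lit 0), (nat_lit 795), (nat_lit 2800)], [((nat_lit 0), (nat_lit 0), (nat_lit 0)), ((nat_lit 1000), (nat_lit 814), (nat_lit 310)), ((nat_lit 1000), (nat_lit 719), (nat_lit 783))], ((nat_lit 71), (nat_lit 100), (nat_lit 71))⟩, (nat_lit 2036413), (nat_lit 220), (nat_lit 220), (nat_lit 0), (nat_lit 283612), [(nat_lit 2044792559), (nat_lit 4688000007), (nat_lit 7968000000)], [], [(nat_lit 25741781388), (nat_lit 26720574623), (nat_lit 31172782813), (nat_lit 32329381962), (nat_lit 29047577467), (nat_lit 29781810496), (nat_lit 34015945030), (nat_lit 34826789236)], (nat_lit 1271251), (nat_lit 1271251), (nat_lit 1271251), (nat_lit 1271251), (nat_lit 780000), (nat_lit 2417500), [(nat_lit 490000), (nat_lit 1100000), (nat_lit 1785001)], [(nat_lit 4), (nat_lit 51), (nat_lit 317), (nat_lit 100), (nat_lit 9)]⟩,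
 ⟨⟨[(nat_lit 60), (nat_lit 100), (nat_lit 140)], [(nat_lit 0), (nat_lit 0), (nat_lit 2047)], [((nat_lit 0), (nat_lit 0), (nat_lit 0)), ((nat_lit 0), (nat_lit 0), (nat_lit 0)), ((nat_lit 1000), (nat_lit 993), (nat_lit 781))], ((nat_lit 99), (nat_lit 100), (nat_lit 77))⟩, (nat_lit 2017806), (nat_lit 356), (nat_lit 356), (nat_lit 0), (nat_lit 649134), [(nat_lit 3282000000), (nat_lit 6250000000), (nat_lit 9842000000)], [], [(nat_lit 30048464393), (nat_lit 31130879910), (nat_lit 34138578942), (nat_lit 34800581174), (nat_lit 33698239137), (nat_lit 34292155381), (nat_lit 37345147854), (nat_lit 38351773477)], (nat_lit 1271251), (nat_lit 1271251), (nat_lit 1271251), (nat_lit 1271251), (nat_lit 1271251), (nat_lit 1271251), [(nat_lit 780000), (nat_lit 1435001), (nat_lit 1271251)], [(nat_lit 11), (nat_lit 55), (nat_lit 317), (nat_lit 100), (nat_lit 8)]⟩,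
 ⟨⟨[(nat_lit 140), (nat_lit 180), (nat_lit 200)], [(nat_lit 0), (nat_lit 0), (nat_lit 2835)], [((nat_lit 0), (nat_lit 0), (nat_lit 0)), ((nat_lit 0), (nat_lit 0), (nat_lit 0)), ((nat_lit 363), (nat_lit 1000), (nat_lit 798))], ((nat_lit 0), (nat_lit 0), (nat_lit 0))⟩, (nat_lit 36868), (nat_lit 300), (nat_lit 1731), (nat_lit 10465400), (nat_lit 2929926), [(nat_lit 1318828000), (nat_lit 1883772000), (nat_lit 2197600000)], [], [(nat_lit 8760921833), (nat_lit 8517607155), (nat_lit 7838731774), (nat_lit 7591840756), (nat_lit 8234814107), (nat_lit 7980388368), (nat_lit 7328993306), (nat_lit 7072370154)], (nat_lit 780000), (nat_lit 1100000), (nat_lit 780000), (nat_lit 2417500), (nat_lit 1271251), (nat_lit 1271251), [(nat_lit 1977501), (nat_lit 1271251), (nat_lit 1271251)], [(nat_lit 32), (nat_lit 67), (nat_lit 539), (nat_lit 225), (nat_lit 11)]⟩⟩))))) (.spl (nat_lit 1) (nat_lit 300) (.leaf ⟨(nat_lit 0), (nat_lit 756), (nat_lit 0), (nat_lit 244), (nat_lit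 0), (nat_lit 4508), (nat_lit 6942), (nat_lit 1879), (nat_lit 0), (nat_lit 0), (nat_lit 0), [], Pd.none, Pd.none, (nat_lit 0), (nat_lit 1), (nat_lit 0), (nat_lit 0), (nat_lit 4), (nat_lit 0), [], [⟨(nat_lit 1), (nat_lit 85), (nat_lit 67), (nat_lit 100), (nat_lit 98351090)⟩], [], [],
 ⟨⟨[(nat_lit 40), (nat_lit 80), (nat_lit 120)], [(nat_lit 0), (nat_lit 795), (nat_lit 2800)], [((nat_lit 0), (nat_lit 0), (nat_lit 0)), ((nat_lit 1000), (nat_lit 814), (nat_lit 310)), ((nat_lit 1000), (nat_lit 719), (nat_lit 783))], ((nat_lit 71), (nat_lit 100), (nat_lit 71))⟩, (nat_lit 2131056), (nat_lit 230), (nat_lit 230), (nat_lit 0), (nat_lit 296593), [(nat_lit 2032001944), (nat_lit 4688000563), (nat_lit 7968000000)], [], [(nat_lit 25637792035), (nat_lit 26605747575), (nat_lit 30988725082), (nat_lit 32132051268), (nat_lit 29403524182), (nat_lit 30174281517), (nat_lit 34255181578), (nat_lit 35038963378)], (nat_lit 1271251), (nat_lit 1271251), (nat_lit 1271251), (nat_lit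 1271251), (nat_lit 780000), (nat_lit 2499376), [(nat_lit 490000), (nat_lit 1100000), (nat_lit 1785001)], [(nat_lit 4), (nat_lit 51), (nat_lit 317), (nat_lit 100), (nat_lit 9)]⟩,
 ⟨⟨[(nat_lit 60), (nat_lit 100), (nat_lit 140)], [(nat_lit 0), (nat_lit 0), (nat_lit 2047)], [((nat_lit 0), (nat_lit 0), (nat_lit 0)), ((nat_lit 0), (nat_lit 0), (nat_lit 0)), ((nat_lit 1000), (nat_lit 993), (nat_lit 781))], ((nat_lit 99), (nat_lit 100), (nat_lit 77))⟩, (nat_lit 2033364), (nat_lit 393), (nat_lit 393), (nat_lit 0), (nat_lit 439230), [(nat_lit 3282000000), (nat_lit 6250000000), (nat_lit 9842000000)], [], [(nat_lit 33836893128), (nat_lit 34556507152), (nat_lit 39120096196), (nat_lit 39570932790), (nat_lit 33995108910), (nat_lit 34276776218), (nat_lit 37869614036), (nat_lit 38346084499)], (nat_lit 1271251), (nat_lit 1271251), (nat_lit 1271251), (nat_lit 1271251), (nat_lit 0), (nat_lit 2683751), [(nat_lit 780000), (nat_lit 1435001), (nat_lit 1271251)], [(nat_lit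 11), (nat_lit 55), (nat_lit 317), (nat_lit 100), (nat_lit 9)]⟩,
 ⟨⟨[(nat_lit 120), (nat_lit 160), (nat_lit 200)], [(nat_lit 0), (nat_lit 0), (nat_lit 3198)], [((nat_lit 0), (nat_lit 0), (nat_lit 0)), ((nat_lit 0), (nat_lit 0), (nat_lit 0)), ((nat_lit 572), (nat_lit 1000), (nat_lit 714))], ((nat_lit 0), (nat_lit 0), (nat_lit 0))⟩, (nat_lit 119025), (nat_lit 300), (nat_lit 1221), (nat_lit 18104800), (nat_lit 1602879), [(nat_lit 1944192000), (nat_lit 2896768000), (nat_lit 4001600000)], [], [(nat_lit 22659095776), (nat_lit 22550044935), (nat_lit 21596182894), (nat_lit 21483981159), (nat_lit 20335298043), (nat_lit 20224075288), (nat_lit 19238586533), (nat_lit 19667992277)], (nat_lit 1100000), (nat_lit 1271251), (nat_lit 780000), (nat_lit 2499376), (nat_lit 0), (nat_lit 2683751), [(nat_lit 1695001), (nat_lit 1271251), (nat_lit 1271251)], [(nat_lit 29), (nat_lit 66), (nat_lit 456), (nat_lit 225), (nat_lit 10)]⟩⟩) (.trZ (nat_lit 1) (nat_lit 2) (nat_lit 5)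 (nat_lit 100) (nat_lit 88) (nat_lit 32) (nat_lit 10) (.trX (nat_lit 5) (nat_lit 1) (nat_lit 2) (nat_lit 87) (nat_lit 59) (nat_lit 100) (nat_lit 370) (.leaf ⟨(nat_lit 0), (nat_lit 818), (nat_lit 0), (nat_lit 182), (nat_lit 0), (nat_lit 4616), (nat_lit 5903), (nat_lit 1447), (nat_lit 0), (nat_lit 0), (nat_lit 0), [], Pd.none, Pd.none, (nat_lit 0), (nat_lit 1), (nat_lit 0), (nat_lit 0), (nat_lit 4), (nat_lit 0), [], [⟨(nat_lit 1), (nat_lit 85), (nat_lit 67), (nat_lit 100), (nat_lit 219380563)⟩], [⟨(nat_lit 1), (nat_lit 68), (nat_lit 84), (nat_lit 100), (nat_lit 50454124)⟩], [],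
 ⟨⟨[(nat_lit 40), (nat_lit 80), (nat_lit 120)], [(nat_lit 0), (nat_lit 795), (nat_lit 2800)], [((nat_lit 0), (nat_lit 0), (nat_lit 0)), ((nat_lit 1000), (nat_lit 814), (nat_lit 310)), ((nat_lit 1000), (nat_lit 719), (nat_lit 783))], ((nat_lit 71), (nat_lit 100), (nat_lit 71))⟩, (nat_lit 1993653), (nat_lit 264), (nat_lit 264), (nat_lit 0), (nat_lit 390924), [(nat_lit 2032000173), (nat_lit 4688000006), (nat_lit 7968000000)], [], [(nat_lit 26195372965), (nat_lit 27115145233), (nat_lit 31163095564), (nat_lit 32318996136), (nat_lit 29632794852), (nat_lit 30278127982), (nat_lit 34393203256), (nat_lit 35183205856)], (nat_lit 1271251), (nat_lit 1271251), (nat_lit 1271251), (nat_lit 1271251), (nat_lit 780000), (nat_lit 2499376), [(nat_lit 490000), (nat_lit 1100000), (nat_lit 1785001)], [(nat_lit 4), (nat_lit 51), (nat_lit 317), (nat_lit 100), (nat_lit 9)]⟩,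
 ⟨⟨[(nat_lit 60), (nat_lit 100), (nat_lit 140)], [(nat_lit 0), (nat_lit 609), (nat_lit 2558)], [((nat_lit 0), (nat_lit 0), (nat_lit 0)), ((nat_lit 1000), (nat_lit 905), (nat_lit 238)), ((nat_lit 1000), (nat_lit 904), (nat_lit 760))], ((nat_lit 90), (nat_lit 100), (nat_lit 74))⟩, (nat_lit 2394874), (nat_lit 425), (nat_lit 425), (nat_lit 0), (nat_lit 504503), [(nat_lit 3282000000), (nat_lit 6250000000), (nat_lit 9842000000)], [], [(nat_lit 31439875566), (nat_lit 32044632693), (nat_lit 36088559262), (nat_lit 37134717720), (nat_lit 32524886793), (nat_lit 32873132115), (nat_lit 36452405948), (nat_lit 36951729024)], (nat_lit 1271251), (nat_lit 1271251), (nat_lit 1271251), (nat_lit 1271251), (nat_lit 54688), (nat_lit 2630938), [(nat_lit 780000), (nat_lit 1435001), (nat_lit 1271251)], [(nat_lit 11), (nat_lit 55), (nat_lit 317), (nat_lit 100), (nat_lit 8)]⟩,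
 ⟨⟨[(nat_lit 120), (nat_lit 160), (nat_lit 200)], [(nat_lit 0), (nat_lit 0), (nat_lit 3198)], [((nat_lit 0), (nat_lit 0), (nat_lit 0)), ((nat_lit 0), (nat_lit 0), (nat_lit 0)), ((nat_lit 572), (nat_lit 1000), (nat_lit 714))], ((nat_lit 0), (nat_lit 0), (nat_lit 0))⟩, (nat_lit 88781), (nat_lit 300), (nat_lit 1443), (nat_lit 13504400), (nat_lit 2117295), [(nat_lit 1450176000), (nat_lit 2160704000), (nat_lit 2984800000)], [], [(nat_lit 17449022351), (nat_lit 17362024011), (nat_lit 16588976073), (nat_lit 16500934696), (nat_lit 15744192324), (nat_lit 15657215046), (nat_lit 14878063135), (nat_lit 14797435406)], (nat_lit 1100000), (nat_lit 1271251), (nat_lit 780000), (nat_lit 2499376), (nat_lit 54688), (nat_lit 2630938), [(nat_lit 1695001), (nat_lit 1271251), (nat_lit 1271251)], [(nat_lit 29), (nat_lit 66), (nat_lit 471), (nat_lit 225), (nat_lit 10)]⟩⟩))))))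
noncomputable def c8_77 : Tr Lf :=
 (.spl (nat_lit 5) (nat_lit 120) (.trX (nat_lit 4) (nat_lit 3) (nat_lit 5) (nat_lit 100) (nat_lit 80) (nat_lit 100) (nat_lit 340) (.leaf ⟨(nat_lit 0), (nat_lit 728), (nat_lit 0), (nat_lit 272), (nat_lit 0), (nat_lit 4831), (nat_lit 8854), (nat_lit 3290), (nat_lit 0), (nat_lit 0), (nat_lit 0), [], Pd.none, Pd.none, (nat_lit 0), (nat_lit 1), (nat_lit 0), (nat_lit 0), (nat_lit 4), (nat_lit 0), [], [], [], [⟨(nat_lit 0), (nat_lit 100), (nat_lit 72), (nat_lit 81), (nat_lit 272402170)⟩],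
 ⟨⟨[(nat_lit 40), (nat_lit 80), (nat_lit 120)], [(nat_lit 0), (nat_lit 795), (nat_lit 2800)], [((nat_lit 0), (nat_lit 0), (nat_lit 0)), ((nat_lit 1000), (nat_lit 814), (nat_lit 310)), ((nat_lit 1000), (nat_lit 719), (nat_lit 783))], ((nat_lit 71), (nat_lit 100), (nat_lit 71))⟩, (nat_lit 2321069), (nat_lit 256), (nat_lit 256), (nat_lit 0), (nat_lit 362690), [(nat_lit 2032000006), (nat_lit 4688000004), (nat_lit 7968000000)], [], [(nat_lit 24414684129), (nat_lit 25366398201), (nat_lit 31510221987), (nat_lit 32691154901), (nat_lit 29915449796), (nat_lit 30999022341), (nat_lit 35058561452), (nat_lit 35839747089)], (nat_lit 1271251), (nat_lit 1271251), (nat_lit 1271251), (nat_lit 1271251), (nat_lit 780000), (nat_lit 2581251), [(nat_lit 490000), (nat_lit 1100000), (nat_lit 1785001)], [(nat_lit 4), (nat_lit 51), (nat_lit 317), (nat_lit 100), (nat_lit 9)]⟩,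
 ⟨⟨[(nat_lit 80), (nat_lit 120), (nat_lit 160)], [(nat_lit 0), (nat_lit 0), (nat_lit 2132)], [((nat_lit 0), (nat_lit 0), (nat_lit 0)), ((nat_lit 0), (nat_lit 0), (nat_lit 0)), ((nat_lit 858), (nat_lit 1000), (nat_lit 713))], ((nat_lit 100), (nat_lit 85), (nat_lit 73))⟩, (nat_lit 2830427), (nat_lit 428), (nat_lit 428), (nat_lit 0), (nat_lit 411033), [(nat_lit 4688000000), (nat_lit 7968000000), (nat_lit 11872000000)], [], [(nat_lit 35285657692), (nat_lit 37416148984), (nat_lit 41377902700), (nat_lit 46045034544), (nat_lit 29734001464), (nat_lit 31864471828), (nat_lit 34732745904), (nat_lit 36356193648)], (nat_lit 1271251), (nat_lit 1271251), (nat_lit 1271251), (nat_lit 1271251), (nat_lit 0), (nat_lit 780000), [(nat_lit 1100000), (nat_lit 1785001), (nat_lit 1271251)], [(nat_lit 18), (nat_lit 59), (nat_lit 456), (nat_lit 225), (nat_lit 11)]⟩,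
 ⟨⟨[(nat_lit 120), (nat_lit 160), (nat_lit 180)], [(nat_lit 0), (nat_lit 533), (nat_lit 2066)], [((nat_lit 0), (nat_lit 0), (nat_lit 0)), ((nat_lit 960), (nat_lit 1000), (nat_lit 200)), ((nat_lit 615), (nat_lit 1000), (nat_lit 729))], ((nat_lit 100), (nat_lit 63), (nat_lit 72))⟩, (nat_lit 630320), (nat_lit 300), (nat_lit 856), (nat_lit 18082647), (nat_lit 979383), [(nat_lit 2167296000), (nat_lit 3229184000), (nat_lit 3823776000)], [], [(nat_lit 14887276447), (nat_lit 14702952885), (nat_lit 16626602695), (nat_lit 14050732407), (nat_lit 12462691638), (nat_lit 12171407390), (nat_lit 18454823334), (nat_lit 15435018696)], (nat_lit 1271251), (nat_lit 1271251), (nat_lit 780000), (nat_lit 2581251), (nat_lit 0), (nat_lit 780000), [(nat_lit 1695001), (nat_lit 1271251), (nat_lit 1271251)], [(nat_lit 28), (nat_lit 65), (nat_lit 401), (nat_lit 175), (nat_lit 10)]⟩⟩)) (.leaf ⟨(nat_lit 0), (nat_lit 580), (nat_lit 0), (nat_lit 420), (nat_lit 0), (nat_lit 4461),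 (nat_lit 7649), (nat_lit 2978), (nat_lit 0), (nat_lit 0), (nat_lit 0), [], Pd.none, Pd.none, (nat_lit 0), (nat_lit 1), (nat_lit 0), (nat_lit 0), (nat_lit 4), (nat_lit 0), [], [], [], [],
 ⟨⟨[(nat_lit 40), (nat_lit 80), (nat_lit 120)], [(nat_lit 0), (nat_lit 795), (nat_lit 2800)], [((nat_lit 0), (nat_lit 0), (nat_lit 0)), ((nat_lit 1000), (nat_lit 814), (nat_lit 310)), ((nat_lit 1000), (nat_lit 719), (nat_lit 783))], ((nat_lit 71), (nat_lit 100), (nat_lit 71))⟩, (nat_lit 2326917), (nat_lit 256), (nat_lit 256), (nat_lit 0), (nat_lit 362690), [(nat_lit 2032000013), (nat_lit 4688000030), (nat_lit 7968000000)], [], [(nat_lit 25432462249), (nat_lit 26338807952), (nat_lit 30912841632), (nat_lit 32050695631), (nat_lit 30622099271), (nat_lit 31611420594), (nat_lit 35336799059), (nat_lit 36058014800)], (nat_lit 1271251), (nat_lit 1271251), (nat_lit 1271251), (nat_lit 1271251), (nat_lit 780000), (nat_lit 2745001), [(nat_lit 490000), (nat_lit 1100000), (nat_lit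 1785001)], [(nat_lit 4), (nat_lit 51), (nat_lit 317), (nat_lit 100), (nat_lit 9)]⟩,
 ⟨⟨[(nat_lit 80), (nat_lit 120), (nat_lit 160)], [(nat_lit 0), (nat_lit 0), (nat_lit 2132)], [((nat_lit 0), (nat_lit 0), (nat_lit 0)), ((nat_lit 0), (nat_lit 0), (nat_lit 0)), ((nat_lit 858), (nat_lit 1000), (nat_lit 713))], ((nat_lit 100), (nat_lit 85), (nat_lit 73))⟩, (nat_lit 2306600), (nat_lit 391), (nat_lit 391), (nat_lit 0), (nat_lit 530276), [(nat_lit 4688000000), (nat_lit 7968000000), (nat_lit 11872000000)], [], [(nat_lit 30564812562), (nat_lit 33294518144), (nat_lit 36293103884), (nat_lit 37905045020), (nat_lit 35948629612), (nat_lit 36962300812), (nat_lit 39113384632), (nat_lit 40788541816)], (nat_lit 1271251), (nat_lit 1271251), (nat_lit 1271251), (nat_lit 1271251), (nat_lit 780000), (nat_lit 3072501), [(nat_lit 1100000), (nat_lit 1785001), (nat_lit 1271251)], [(nat_lit 18), (nat_lit 59), (nat_lit 538), (nat_lit 300), (nat_lit 13)]⟩,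
 ⟨⟨[(nat_lit 120), (nat_lit 160), (nat_lit 180)], [(nat_lit 0), (nat_lit 533), (nat_lit 2066)], [((nat_lit 0), (nat_lit 0), (nat_lit 0)), ((nat_lit 960), (nat_lit 1000), (nat_lit 200)), ((nat_lit 615), (nat_lit 1000), (nat_lit 729))], ((nat_lit 100), (nat_lit 63), (nat_lit 72))⟩, (nat_lit 983415), (nat_lit 300), (nat_lit 1026), (nat_lit 27888000), (nat_lit 1542965), [(nat_lit 3346560000), (nat_lit 4986240000), (nat_lit 5904360000)], [], [(nat_lit 30393005510), (nat_lit 30142685136), (nat_lit 29167890597), (nat_lit 28882766102), (nat_lit 29130745941), (nat_lit 28836645034), (nat_lit 27622499229), (nat_lit 27306996544)], (nat_lit 1271251), (nat_lit 1271251), (nat_lit 780000), (nat_lit 2745001), (nat_lit 780000), (nat_lit 3072501), [(nat_lit 1695001), (nat_lit 1271251), (nat_lit 1271251)], [(nat_lit 28), (nat_lit 65), (nat_lit 483), (nat_lit 250), (nat_lit 11)]⟩⟩))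
noncomputable def c8_78 : Tr Lf :=
 (.spl (nat_lit 1) (nat_lit 280) (.ord (.trX (nat_lit 3) (nat_lit 0) (nat_lit 1) (nat_lit 78) (nat_lit 39) (nat_lit 100) (nat_lit 390) (.trX (nat_lit 4) (nat_lit 0) (nat_lit 2) (nat_lit 78) (nat_lit 39) (nat_lit 100) (nat_lit 390) (.spl (nat_lit 1) (nat_lit 260) (.ord (.trX (nat_lit 3) (nat_lit 0) (nat_lit 1) (nat_lit 75) (nat_lit 48) (nat_lit 100) (nat_lit 380) (.trX (nat_lit 4) (nat_lit 0) (nat_lit 2) (nat_lit 75) (nat_lit 48) (nat_lit 100) (nat_lit 380) (.leaf ⟨(nat_lit 0), (nat_lit 590), (nat_lit 0), (nat_lit 410), (nat_lit 0), (nat_lit 4691), (nat_lit 7928), (nat_lit 3692), (nat_lit 0), (nat_lit 26550), (nat_lit 0), [], Pd.none, Pd.none, (nat_lit 0), (nat_lit 1), (nat_lit 0), (nat_lit 0), (nat_lit 5), (nat_lit 0), [⟨(nat_lit 0), (nat_lit 100), (nat_lit 63), (nat_lit 99), (nat_lit 187013572)⟩], [], [], [],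
 ⟨⟨[(nat_lit 40), (nat_lit 60), (nat_lit 80)], [(nat_lit 0), (nat_lit 398), (nat_lit 992)], [((nat_lit 0), (nat_lit 0), (nat_lit 0)), ((nat_lit 1000), (nat_lit 814), (nat_lit 310)), ((nat_lit 1000), (nat_lit 752), (nat_lit 464))], ((nat_lit 73), (nat_lit 100), (nat_lit 55))⟩, (nat_lit 5090143), (nat_lit 266), (nat_lit 266), (nat_lit 0), (nat_lit 550960), [(nat_lit 2032000005), (nat_lit 3282000051), (nat_lit 4688000000)], [], [(nat_lit 22312194015), (nat_lit 19989664780), (nat_lit 29874077405), (nat_lit 31120535519), (nat_lit 30189984120), (nat_lit 31495137771), (nat_lit 39291191575), (nat_lit 37354538612)], (nat_lit 1271251), (nat_lit 1271251), (nat_lit 490000), (nat_lit 2833751), (nat_lit 780000), (nat_lit 2908751), [(nat_lit 490000), (nat_lit 780000), (nat_lit 1100000)], [(nat_lit 2), (nat_lit 44), (nat_lit 428), (nat_lit 200), (nat_lit 20)]⟩,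
 ⟨⟨[(nat_lit 80), (nat_lit 120), (nat_lit 140)], [(nat_lit 0), (nat_lit 0), (nat_lit 1164)], [((nat_lit 0), (nat_lit 0), (nat_lit 0)), ((nat_lit 0), (nat_lit 0), (nat_lit 0)), ((nat_lit 941), (nat_lit 1000), (nat_lit 576))], ((nat_lit 100), (nat_lit 95), (nat_lit 55))⟩, (nat_lit 5008974), (nat_lit 217), (nat_lit 217), (nat_lit 0), (nat_lit 0), [(nat_lit 4688000000), (nat_lit 7968000000), (nat_lit 9842000000)], [], [(nat_lit 19864936576), (nat_lit 21747272792), (nat_lit 36930509256), (nat_lit 37905662170), (nat_lit 33176325088), (nat_lit 34023681784), (nat_lit 38267695240), (nat_lit 38744808082)], (nat_lit 0), (nat_lit 0), (nat_lit 0), (nat_lit 0), (nat_lit 0), (nat_lit 0), [], [(nat_lit 17), (nat_lit 58), (nat_lit 538), (nat_lit 300), (nat_lit 16)]⟩,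
 ⟨⟨[(nat_lit 100), (nat_lit 140), (nat_lit 160)], [(nat_lit 0), (nat_lit 508), (nat_lit 1689)], [((nat_lit 0), (nat_lit 0), (nat_lit 0)), ((nat_lit 1000), (nat_lit 1000), (nat_lit 198)), ((nat_lit 811), (nat_lit 1000), (nat_lit 671))], ((nat_lit 100), (nat_lit 89), (nat_lit 55))⟩, (nat_lit 881339), (nat_lit 300), (nat_lit 940), (nat_lit 25625000), (nat_lit 1363498), [(nat_lit 2562500000), (nat_lit 4035220000), (nat_lit 4867520000)], [], [(nat_lit 22211612074), (nat_lit 22017175359), (nat_lit 21025092812), (nat_lit 20782996371), (nat_lit 25204257936), (nat_lit 21837510214), (nat_lit 17030264598), (nat_lit 16834467771)], (nat_lit 1271251), (nat_lit 1271251), (nat_lit 1271251), (nat_lit 1271251), (nat_lit 0), (nat_lit 2825001), [(nat_lit 1412501), (nat_lit 1271251), (nat_lit 1271251)], [(nat_lit 23), (nat_lit 62), (nat_lit 538), (nat_lit 300), (nat_lit 14)]⟩⟩)))) (.trZ (nat_lit 0) (nat_lit 1) (nat_lit 3) (nat_lit 100) (nat_lit 75) (nat_lit 92) (nat_lit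 100) (.trZ (nat_lit 1) (nat_lit 2) (nat_lit 5) (nat_lit 100) (nat_lit 96) (nat_lit 40) (nat_lit 10) (.leaf ⟨(nat_lit 0), (nat_lit 630), (nat_lit 0), (nat_lit 370), (nat_lit 0), (nat_lit 4135), (nat_lit 6496), (nat_lit 3148), (nat_lit 0), (nat_lit 80344), (nat_lit 0), [], Pd.none, Pd.none, (nat_lit 0), (nat_lit 1), (nat_lit 0), (nat_lit 0), (nat_lit 5), (nat_lit 0), [⟨(nat_lit 0), (nat_lit 100), (nat_lit 71), (nat_lit 100), (nat_lit 158109466)⟩], [], [], [],
 ⟨⟨[(nat_lit 40), (nat_lit 60), (nat_lit 80)], [(nat_lit 0), (nat_lit 398), (nat_lit 992)], [((nat_lit 0), (nat_lit 0), (nat_lit 0)), ((nat_lit 1000), (nat_lit 814), (nat_lit 310)), ((nat_lit 1000), (nat_lit 752), (nat_lit 464))], ((nat_lit 73), (nat_lit 100), (nat_lit 55))⟩, (nat_lit 3113486), (nat_lit 293), (nat_lit 293), (nat_lit 0), (nat_lit 661325), [(nat_lit 2032000011), (nat_lit 3282000022), (nat_lit 4688000000)], [], [(nat_lit 26085326662), (nat_lit 23930934289), (nat_lit 30183959641),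 (nat_lit 31013009773), (nat_lit 30147103629), (nat_lit 30996500755), (nat_lit 40294187564), (nat_lit 38577135857)], (nat_lit 1271251), (nat_lit 1271251), (nat_lit 631250), (nat_lit 2951251), (nat_lit 780000), (nat_lit 2990626), [(nat_lit 490000), (nat_lit 780000), (nat_lit 1100000)], [(nat_lit 2), (nat_lit 44), (nat_lit 428), (nat_lit 200), (nat_lit 19)]⟩,
 ⟨⟨[(nat_lit 80), (nat_lit 120), (nat_lit 140)], [(nat_lit 0), (nat_lit 528), (nat_lit 1572)], [((nat_lit 0), (nat_lit 0), (nat_lit 0)), ((nat_lit 1000), (nat_lit 959), (nat_lit 206)), ((nat_lit 966), (nat_lit 1000), (nat_lit 679))], ((nat_lit 99), (nat_lit 100), (nat_lit 56))⟩, (nat_lit 6175044), (nat_lit 215), (nat_lit 215), (nat_lit 0), (nat_lit 0), [(nat_lit 4688000000), (nat_lit 7968000000), (nat_lit 9842000000)], [], [(nat_lit 19840918202), (nat_lit 21444966994), (nat_lit 34273435361), (nat_lit 35424555321), (nat_lit 30340857206), (nat_lit 31108855648), (nat_lit 37320530043), (nat_lit 37771298382)],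 (nat_lit 0), (nat_lit 0), (nat_lit 0), (nat_lit 0), (nat_lit 0), (nat_lit 0), [], [(nat_lit 17), (nat_lit 58), (nat_lit 538), (nat_lit 300), (nat_lit 16)]⟩,
 ⟨⟨[(nat_lit 100), (nat_lit 140), (nat_lit 160)], [(nat_lit 0), (nat_lit 508), (nat_lit 1689)], [((nat_lit 0), (nat_lit 0), (nat_lit 0)), ((nat_lit 1000), (nat_lit 1000), (nat_lit 198)), ((nat_lit 811), (nat_lit 1000), (nat_lit 671))], ((nat_lit 100), (nat_lit 89), (nat_lit 55))⟩, (nat_lit 795354), (nat_lit 300), (nat_lit 1028), (nat_lit 23125002), (nat_lit 1558975), [(nat_lit 2312500000), (nat_lit 3641540000), (nat_lit 4392640000)], [], [(nat_lit 21457513481), (nat_lit 21207829506), (nat_lit 20139565064), (nat_lit 19792042155), (nat_lit 22665604584), (nat_lit 18378390604), (nat_lit 16754835500), (nat_lit 16341601582)], (nat_lit 1271251), (nat_lit 1271251), (nat_lit 1271251), (nat_lit 1271251), (nat_lit 54688), (nat_lit 2845626), [(nat_lit 1412501), (nat_lit 1271251), (nat_lit 1271251)], [(nat_lit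 23), (nat_lit 62), (nat_lit 538), (nat_lit 300), (nat_lit 14)]⟩⟩))))))) (.trZ (nat_lit 0) (nat_lit 1) (nat_lit 3) (nat_lit 99) (nat_lit 77) (nat_lit 100) (nat_lit 120) (.trZ (nat_lit 1) (nat_lit 2) (nat_lit 5) (nat_lit 100) (nat_lit 92) (nat_lit 49) (nat_lit 20) (.spl (nat_lit 6) (nat_lit 16) (.spl (nat_lit 0) (nat_lit 350) (.leaf ⟨(nat_lit 0), (nat_lit 564), (nat_lit 0), (nat_lit 436), (nat_lit 0), (nat_lit 6414), (nat_lit 5262), (nat_lit 3574), (nat_lit 0), (nat_lit 58348), (nat_lit 0), [], Pd.none, Pd.none, (nat_lit 0), (nat_lit 1), (nat_lit 0), (nat_lit 0), (nat_lit 5), (nat_lit 0), [⟨(nat_lit 0), (nat_lit 80), (nat_lit 66), (nat_lit 100), (nat_lit 170955461)⟩], [], [], [],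
 ⟨⟨[(nat_lit 40), (nat_lit 60), (nat_lit 80)], [(nat_lit 0), (nat_lit 398), (nat_lit 992)], [((nat_lit 0), (nat_lit 0), (nat_lit 0)), ((nat_lit 1000), (nat_lit 814), (nat_lit 310)), ((nat_lit 1000), (nat_lit 752), (nat_lit 464))], ((nat_lit 77), (nat_lit 100), (nat_lit 42))⟩, (nat_lit 4122587), (nat_lit 300), (nat_lit 377), (nat_lit 50800001), (nat_lit 933493), [(nat_lit 2032000006), (nat_lit 3525080926), (nat_lit 4688000000)], [], [(nat_lit 23693061570), (nat_lit 24053552457), (nat_lit 34066041181), (nat_lit 34748661588), (nat_lit 34066041181), (nat_lit 34748661588), (nat_lit 39725603022), (nat_lit 40079495245)], (nat_lit 1271251), (nat_lit 1271251), (nat_lit 780000), (nat_lit 3072501), (nat_lit 780000), (nat_lit 3072501), [(nat_lit 490000), (nat_lit 780000), (nat_lit 1100000)], [(nat_lit 2), (nat_lit 44), (nat_lit 428), (nat_lit 200), (nat_lit 19)]⟩,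
 ⟨⟨[(nat_lit 60), (nat_lit 80), (nat_lit 100)], [(nat_lit 0), (nat_lit 0), (nat_lit 534)], [((nat_lit 0), (nat_lit 0), (nat_lit 0)), ((nat_lit 0), (nat_lit 0), (nat_lit 0)), ((nat_lit 1000), (nat_lit 917), (nat_lit 393))], ((nat_lit 92), (nat_lit 100), (nat_lit 39))⟩, (nat_lit 4698233), (nat_lit 159), (nat_lit 159), (nat_lit 0), (nat_lit 0), [(nat_lit 3282000000), (nat_lit 4688000000), (nat_lit 6250000000)], [], [(nat_lit 18361099414), (nat_lit 21449642256), (nat_lit 32863824676), (nat_lit 34857394374), (nat_lit 29849560622), (nat_lit 31243001232), (nat_lit 36501328112), (nat_lit 37366099408)], (nat_lit 0), (nat_lit 0), (nat_lit 0), (nat_lit 0), (nat_lit 0), (nat_lit 0), [], [(nat_lit 9), (nat_lit 50), (nat_lit 428), (nat_lit 200), (nat_lit 17)]⟩,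
 ⟨⟨[(nat_lit 100), (nat_lit 120), (nat_lit 140)], [(nat_lit 0), (nat_lit 254), (nat_lit 778)], [((nat_lit 0), (nat_lit 0), (nat_lit 0)), ((nat_lit 1000), (nat_lit 1000), (nat_lit 198)), ((nat_lit 960), (nat_lit 1000), (nat_lit 392))], ((nat_lit 100), (nat_lit 96), (nat_lit 39))⟩, (nat_lit 1340027), (nat_lit 300), (nat_lit 1096), (nat_lit 27250000), (nat_lit 1892379), [(nat_lit 2725000000), (nat_lit 3474048000), (nat_lit 4291112000)], [], [(nat_lit 23702510229), (nat_lit 23377980078), (nat_lit 22473562276), (nat_lit 21942146647), (nat_lit 26755499812), (nat_lit 20410387984), (nat_lit 19206904196), (nat_lit 18533394481)], (nat_lit 1271251), (nat_lit 1271251), (nat_lit 1271251), (nat_lit 1271251), (nat_lit 111251), (nat_lit 2866250), [(nat_lit 1412501), (nat_lit 1271251), (nat_lit 1271251)], [(nat_lit 22), (nat_lit 58), (nat_lit 538), (nat_lit 300), (nat_lit 16)]⟩⟩) (.trZ (nat_lit 0) (nat_lit 1) (nat_lit 3) (nat_lit 96) (nat_lit 69) (nat_lit 100) (nat_lit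 130) (.leaf ⟨(nat_lit 0), (nat_lit 592), (nat_lit 0), (nat_lit 408), (nat_lit 0), (nat_lit 4955), (nat_lit 5262), (nat_lit 3232), (nat_lit 0), (nat_lit 4233), (nat_lit 0), [], Pd.none, Pd.none, (nat_lit 0), (nat_lit 1), (nat_lit 0), (nat_lit 0), (nat_lit 5), (nat_lit 0), [⟨(nat_lit 0), (nat_lit 80), (nat_lit 60), (nat_lit 100), (nat_lit 214074272)⟩], [], [], [],
 ⟨⟨[(nat_lit 40), (nat_lit 60)], [(nat_lit 0), (nat_lit 600)], [((nat_lit 0), (nat_lit 0), (nat_lit 0)), ((nat_lit 1000), (nat_lit 725), (nat_lit 454))], ((nat_lit 73), (nat_lit 100), (nat_lit 43))⟩, (nat_lit 3839117), (nat_lit 300), (nat_lit 339), (nat_lit 50800001), (nat_lit 930856), [(nat_lit 2032000002), (nat_lit 3282000000)], [], [(nat_lit 24805886655), (nat_lit 25397965614), (nat_lit 32443744153), (nat_lit 32905795305), (nat_lit 32408266282), (nat_lit 32779367279), (nat_lit 38276549612), (nat_lit 38242316710)], (nat_lit 1271251), (nat_lit 1271251), (nat_lit 857188), (nat_lit 3093126),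 (nat_lit 780000), (nat_lit 3072501), [(nat_lit 490000), (nat_lit 780000)], [(nat_lit 1), (nat_lit 38), (nat_lit 230), (nat_lit 0), (nat_lit 12)]⟩,
 ⟨⟨[(nat_lit 60), (nat_lit 80), (nat_lit 100)], [(nat_lit 0), (nat_lit 0), (nat_lit 534)], [((nat_lit 0), (nat_lit 0), (nat_lit 0)), ((nat_lit 0), (nat_lit 0), (nat_lit 0)), ((nat_lit 1000), (nat_lit 917), (nat_lit 393))], ((nat_lit 92), (nat_lit 100), (nat_lit 39))⟩, (nat_lit 4200099), (nat_lit 159), (nat_lit 159), (nat_lit 0), (nat_lit 0), [(nat_lit 3282000000), (nat_lit 4688000000), (nat_lit 6250000000)], [], [(nat_lit 18519118436), (nat_lit 21561421885), (nat_lit 32863824676), (nat_lit 34857394374), (nat_lit 29816755791), (nat_lit 31161301757), (nat_lit 36501328112), (nat_lit 37366099408)], (nat_lit 0), (nat_lit 0), (nat_lit 0), (nat_lit 0), (nat_lit 0), (nat_lit 0), [], [(nat_lit 9), (nat_lit 50), (nat_lit 428), (nat_lit 200), (nat_lit 16)]⟩,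
 ⟨⟨[(nat_lit 100), (nat_lit 120), (nat_lit 140)], [(nat_lit 0), (nat_lit 254), (nat_lit 778)], [((nat_lit 0), (nat_lit 0), (nat_lit 0)), ((nat_lit 1000), (nat_lit 1000), (nat_lit 198)), ((nat_lit 960), (nat_lit 1000), (nat_lit 392))], ((nat_lit 100), (nat_lit 96), (nat_lit 39))⟩, (nat_lit 1176340), (nat_lit 300), (nat_lit 1183), (nat_lit 25500000), (nat_lit 2069783), [(nat_lit 2550000000), (nat_lit 3250944000), (nat_lit 4015536000)], [], [(nat_lit 23756680922), (nat_lit 23403953719), (nat_lit 22515380254), (nat_lit 22003681972), (nat_lit 24792320576), (nat_lit 20657983983), (nat_lit 19540323344), (nat_lit 18918992587)], (nat_lit 1271251), (nat_lit 1271251), (nat_lit 1271251), (nat_lit 1271251), (nat_lit 111251), (nat_lit 2866250), [(nat_lit 1412501), (nat_lit 1271251), (nat_lit 1271251)], [(nat_lit 22), (nat_lit 58), (nat_lit 538), (nat_lit 300), (nat_lit 16)]⟩⟩))) (.leaf ⟨(nat_lit 0), (nat_lit 590), (nat_lit 0), (nat_lit 410), (nat_lit 0), (nat_lit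 5850), (nat_lit 5437), (nat_lit 3507), (nat_lit 0), (nat_lit 8540), (nat_lit 0), [], Pd.none, Pd.none, (nat_lit 0), (nat_lit 1), (nat_lit 0), (nat_lit 0), (nat_lit 5), (nat_lit 0), [⟨(nat_lit 0), (nat_lit 80), (nat_lit 60), (nat_lit 100), (nat_lit 242939844)⟩], [], [], [],
 ⟨⟨[(nat_lit 40), (nat_lit 60), (nat_lit 80)], [(nat_lit 0), (nat_lit 398), (nat_lit 992)], [((nat_lit 0), (nat_lit 0), (nat_lit 0)), ((nat_lit 1000), (nat_lit 814), (nat_lit 310)), ((nat_lit 1000), (nat_lit 752), (nat_lit 464))], ((nat_lit 73), (nat_lit 100), (nat_lit 55))⟩, (nat_lit 629032), (nat_lit 300), (nat_lit 306), (nat_lit 50800004), (nat_lit 712220), [(nat_lit 2032000006), (nat_lit 3286029448), (nat_lit 4688000000)], [], [(nat_lit 24864077681), (nat_lit 25085029309), (nat_lit 33155439775), (nat_lit 34455014350), (nat_lit 33155439775), (nat_lit 34455014350), (nat_lit 40695181874), (nat_lit 39586393700)], (nat_lit 1271251), (nat_lit 1271251), (nat_lit 780000), (nat_lit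 3072501), (nat_lit 780000), (nat_lit 3072501), [(nat_lit 490000), (nat_lit 780000), (nat_lit 1100000)], [(nat_lit 2), (nat_lit 44), (nat_lit 428), (nat_lit 200), (nat_lit 19)]⟩,
 ⟨⟨[(nat_lit 60), (nat_lit 100), (nat_lit 120)], [(nat_lit 0), (nat_lit 0), (nat_lit 1164)], [((nat_lit 0), (nat_lit 0), (nat_lit 0)), ((nat_lit 0), (nat_lit 0), (nat_lit 0)), ((nat_lit 1000), (nat_lit 933), (nat_lit 572))], ((nat_lit 93), (nat_lit 100), (nat_lit 55))⟩, (nat_lit 2092661), (nat_lit 185), (nat_lit 185), (nat_lit 0), (nat_lit 0), [(nat_lit 3282000000), (nat_lit 6250000000), (nat_lit 7968000000)], [], [(nat_lit 21192993518), (nat_lit 24178050638), (nat_lit 34816022674), (nat_lit 36344107587), (nat_lit 31702114680), (nat_lit 33153196384), (nat_lit 37681844366), (nat_lit 38390138360)], (nat_lit 0), (nat_lit 0), (nat_lit 0), (nat_lit 0), (nat_lit 0), (nat_lit 0), [], [(nat_lit 10), (nat_lit 54), (nat_lit 428), (nat_lit 200), (nat_lit 14)]⟩,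
 ⟨⟨[(nat_lit 100), (nat_lit 140), (nat_lit 160)], [(nat_lit 0), (nat_lit 508), (nat_lit 1689)], [((nat_lit 0), (nat_lit 0), (nat_lit 0)), ((nat_lit 1000), (nat_lit 1000), (nat_lit 198)), ((nat_lit 811), (nat_lit 1000), (nat_lit 671))], ((nat_lit 100), (nat_lit 89), (nat_lit 55))⟩, (nat_lit 881339), (nat_lit 300), (nat_lit 997), (nat_lit 25625000), (nat_lit 1504053), [(nat_lit 2562500000), (nat_lit 4035220000), (nat_lit 4867520000)], [], [(nat_lit 23395234010), (nat_lit 23004380740), (nat_lit 21968007499), (nat_lit 21371785602), (nat_lit 25478205538), (nat_lit 19687307063), (nat_lit 18368383968), (nat_lit 17642958788)], (nat_lit 1271251), (nat_lit 1271251), (nat_lit 1271251), (nat_lit 1271251), (nat_lit 111251), (nat_lit 2866250), [(nat_lit 1412501), (nat_lit 1271251), (nat_lit 1271251)], [(nat_lit 23), (nat_lit 62), (nat_lit 538), (nat_lit 300), (nat_lit 14)]⟩⟩)))))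
noncomputable def c8_79 : Tr Lf :=
 (.spl (nat_lit 1) (nat_lit 280) (.ord (.trX (nat_lit 3) (nat_lit 0) (nat_lit 1) (nat_lit 78) (nat_lit 39) (nat_lit 100) (nat_lit 390) (.trX (nat_lit 4) (nat_lit 0) (nat_lit 2) (nat_lit 78) (nat_lit 39) (nat_lit 100) (nat_lit 390) (.spl (nat_lit 6) (nat_lit 48) (.leaf ⟨(nat_lit 0), (nat_lit 562), (nat_lit 0), (nat_lit 438), (nat_lit 7414), (nat_lit 6577), (nat_lit 6931), (nat_lit 4282), (nat_lit 0), (nat_lit 210333), (nat_lit 0), [], Pd.none, Pd.none, (nat_lit 0), (nat_lit 1), (nat_lit 0), (nat_lit 0), (nat_lit 5), (nat_lit 0), [⟨(nat_lit 0), (nat_lit 100), (nat_lit 69), (nat_lit 96), (nat_lit 245763655)⟩], [], [], [],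
 ⟨⟨[(nat_lit 40), (nat_lit 80), (nat_lit 100)], [(nat_lit 0), (nat_lit 795), (nat_lit 1829)], [((nat_lit 0), (nat_lit 0), (nat_lit 0)), ((nat_lit 1000), (nat_lit 814), (nat_lit 310)), ((nat_lit 1000), (nat_lit 714), (nat_lit 692))], ((nat_lit 72), (nat_lit 100), (nat_lit 65))⟩, (nat_lit 0), (nat_lit 217), (nat_lit 217), (nat_lit 0), (nat_lit 289470), [(nat_lit 2032000049), (nat_lit 4688000035), (nat_lit 6250000000)], [], [(nat_lit 26439501438), (nat_lit 25180012814), (nat_lit 33661830012), (nat_lit 34913621494), (nat_lit 34310266476), (nat_lit 35789080709), (nat_lit 42409787100), (nat_lit 39841106594)], (nat_lit 1271251), (nat_lit 1271251), (nat_lit 490000), (nat_lit 2911876), (nat_lit 780000), (nat_lit 2990626), [(nat_lit 490000), (nat_lit 1100000), (nat_lit 1442501)], [(nat_lit 3), (nat_lit 50), (nat_lit 428), (nat_lit 200), (nat_lit 16)]⟩,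
 ⟨⟨[(nat_lit 80), (nat_lit 120), (nat_lit 160)], [(nat_lit 0), (nat_lit 0), (nat_lit 2132)], [((nat_lit 0), (nat_lit 0), (nat_lit 0)), ((nat_lit 0), (nat_lit 0), (nat_lit 0)), ((nat_lit 858), (nat_lit 1000), (nat_lit 713))], ((nat_lit 100), (nat_lit 89), (nat_lit 66))⟩, (nat_lit 4944357), (nat_lit 248), (nat_lit 248), (nat_lit 0), (nat_lit 0), [(nat_lit 4688000000), (nat_lit 7968000000), (nat_lit 11872000000)], [], [(nat_lit 21407024024), (nat_lit 24583867676), (nat_lit 37099496773), (nat_lit 38855713292), (nat_lit 33107436376), (nat_lit 34720331960), (nat_lit 38292010595), (nat_lit 38917757033)], (nat_lit 0), (nat_lit 0), (nat_lit 0), (nat_lit 0), (nat_lit 0), (nat_lit 0), [], [(nat_lit 18), (nat_lit 59), (nat_lit 538), (nat_lit 300), (nat_lit 14)]⟩,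
 ⟨⟨[(nat_lit 100), (nat_lit 140), (nat_lit 160)], [(nat_lit 0), (nat_lit 508), (nat_lit 1689)], [((nat_lit 0), (nat_lit 0), (nat_lit 0)), ((nat_lit 1000), (nat_lit 1000), (nat_lit 198)), ((nat_lit 811), (nat_lit 1000), (nat_lit 671))], ((nat_lit 100), (nat_lit 83), (nat_lit 65))⟩, (nat_lit 941527), (nat_lit 300), (nat_lit 562), (nat_lit 27375003), (nat_lit 559359), [(nat_lit 2737500000), (nat_lit 4310796000), (nat_lit 5199936000)], [], [(nat_lit 20517332398), (nat_lit 20748671284), (nat_lit 21181361169), (nat_lit 21100563510), (nat_lit 27605527836), (nat_lit 21773936266), (nat_lit 18235578451), (nat_lit 18567266877)], (nat_lit 1271251), (nat_lit 1271251), (nat_lit 1271251), (nat_lit 1271251), (nat_lit 0), (nat_lit 2825001), [(nat_lit 1412501), (nat_lit 1271251), (nat_lit 1271251)], [(nat_lit 23), (nat_lit 62), (nat_lit 538), (nat_lit 300), (nat_lit 14)]⟩⟩) (.spl (nat_lit 0) (nat_lit 350) (.leaf ⟨(nat_lit 0), (nat_lit 389), (nat_lit 0), (nat_lit 611),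 (nat_lit 32574), (nat_lit 7088), (nat_lit 6931), (nat_lit 5096), (nat_lit 0), (nat_lit 257027606842), (nat_lit 0), [], Pd.none, Pd.none, (nat_lit 0), (nat_lit 1), (nat_lit 0), (nat_lit 0), (nat_lit 5), (nat_lit 0), [⟨(nat_lit 0), (nat_lit 100), (nat_lit 72), (nat_lit 94), (nat_lit 265098343)⟩], [], [⟨(nat_lit 0), (nat_lit 100), (nat_lit 99), (nat_lit 55), (nat_lit 205003691)⟩], [],
 ⟨⟨[(nat_lit 40), (nat_lit 80), (nat_lit 120)], [(nat_lit 0), (nat_lit 795), (nat_lit 2800)], [((nat_lit 0), (nat_lit 0), (nat_lit 0)), ((nat_lit 1000), (nat_lit 814), (nat_lit 310)), ((nat_lit 1000), (nat_lit 719), (nat_lit 783))], ((nat_lit 71), (nat_lit 100), (nat_lit 71))⟩, (nat_lit 786940), (nat_lit 165), (nat_lit 165), (nat_lit 0), (nat_lit 91565), [(nat_lit 2032000007), (nat_lit 4688823858), (nat_lit 7968000000)], [], [(nat_lit 25793704925), (nat_lit 24385317792), (nat_lit 34260320346), (nat_lit 35010854937), (nat_lit 35186356436), (nat_lit 35975107498), (nat_lit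 47018098835), (nat_lit 45546458871)], (nat_lit 1271251), (nat_lit 1271251), (nat_lit 490000), (nat_lit 2911876), (nat_lit 780000), (nat_lit 2990626), [(nat_lit 490000), (nat_lit 1100000), (nat_lit 1785001)], [(nat_lit 4), (nat_lit 51), (nat_lit 428), (nat_lit 200), (nat_lit 14)]⟩,
 ⟨⟨[(nat_lit 80), (nat_lit 120), (nat_lit 160)], [(nat_lit 0), (nat_lit 0), (nat_lit 2132)], [((nat_lit 0), (nat_lit 0), (nat_lit 0)), ((nat_lit 0), (nat_lit 0), (nat_lit 0)), ((nat_lit 858), (nat_lit 1000), (nat_lit 713))], ((nat_lit 100), (nat_lit 85), (nat_lit 73))⟩, (nat_lit 4944357), (nat_lit 248), (nat_lit 248), (nat_lit 0), (nat_lit 0), [(nat_lit 4688000000), (nat_lit 7968000000), (nat_lit 11872000000)], [], [(nat_lit 21407024024), (nat_lit 24583867676), (nat_lit 37099496773), (nat_lit 38855713292), (nat_lit 33107436376), (nat_lit 34720331960), (nat_lit 38292010595), (nat_lit 38917757033)], (nat_lit 0), (nat_lit 0), (nat_lit 0), (nat_lit 0), (nat_lit 0), (nat_lit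 0), [], [(nat_lit 18), (nat_lit 59), (nat_lit 538), (nat_lit 300), (nat_lit 14)]⟩,
 ⟨⟨[(nat_lit 100), (nat_lit 140), (nat_lit 180)], [(nat_lit 0), (nat_lit 508), (nat_lit 2854)], [((nat_lit 0), (nat_lit 0), (nat_lit 0)), ((nat_lit 1000), (nat_lit 1000), (nat_lit 198)), ((nat_lit 777), (nat_lit 1000), (nat_lit 712))], ((nat_lit 100), (nat_lit 77), (nat_lit 72))⟩, (nat_lit 389777), (nat_lit 300), (nat_lit 425), (nat_lit 41538970), (nat_lit 158241), [(nat_lit 3818750000), (nat_lit 6013462000), (nat_lit 8589438000)], [], [(nat_lit 32284699153), (nat_lit 32947795100), (nat_lit 34069628034), (nat_lit 34086089933), (nat_lit 36743391828), (nat_lit 30276473760), (nat_lit 29513030351), (nat_lit 29178890715)], (nat_lit 1271251), (nat_lit 1271251), (nat_lit 1271251), (nat_lit 1271251), (nat_lit 0), (nat_lit 2825001), [(nat_lit 1412501), (nat_lit 1271251), (nat_lit 1271251)], [(nat_lit 24), (nat_lit 63), (nat_lit 538), (nat_lit 300), (nat_lit 13)]⟩⟩) (.trZ (nat_lit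 0) (nat_lit 1) (nat_lit 3) (nat_lit 100) (nat_lit 68) (nat_lit 89) (nat_lit 100) (.leaf ⟨(nat_lit 0), (nat_lit 482), (nat_lit 0), (nat_lit 518), (nat_lit 18431), (nat_lit 5291), (nat_lit 6569), (nat_lit 5114), (nat_lit 0), (nat_lit 422), (nat_lit 0), [], Pd.none, Pd.none, (nat_lit 0), (nat_lit 1), (nat_lit 0), (nat_lit 0), (nat_lit 5), (nat_lit 0), [⟨(nat_lit 0), (nat_lit 100), (nat_lit 66), (nat_lit 97), (nat_lit 194496510)⟩], [], [⟨(nat_lit 0), (nat_lit 100), (nat_lit 99), (nat_lit 55), (nat_lit 102623728)⟩], [],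
 ⟨⟨[(nat_lit 40), (nat_lit 80), (nat_lit 100)], [(nat_lit 0), (nat_lit 1195), (nat_lit 2166)], [((nat_lit 0), (nat_lit 0), (nat_lit 0)), ((nat_lit 1000), (nat_lit 720), (nat_lit 465)), ((nat_lit 1000), (nat_lit 662), (nat_lit 740))], ((nat_lit 66), (nat_lit 100), (nat_lit 72))⟩, (nat_lit 1850320), (nat_lit 158), (nat_lit 158), (nat_lit 0), (nat_lit 145214), [(nat_lit 2032000001), (nat_lit 4688000001), (nat_lit 6250000000)], [], [(nat_lit 20209544177), (nat_lit 20621233975), (nat_lit 32140340166), (nat_lit 32780099590), (nat_lit 32402981035), (nat_lit 33058010583), (nat_lit 39899264380), (nat_lit 38800725010)], (nat_lit 1271251), (nat_lit 1271251), (nat_lit 631250), (nat_lit 2951251), (nat_lit 780000), (nat_lit 2990626), [(nat_lit 490000), (nat_lit 1100000), (nat_lit 1442501)], [(nat_lit 3), (nat_lit 50), (nat_lit 428), (nat_lit 200), (nat_lit 16)]⟩,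
 ⟨⟨[(nat_lit 80), (nat_lit 120), (nat_lit 160)], [(nat_lit 0), (nat_lit 0), (nat_lit 2132)], [((nat_lit 0), (nat_lit 0), (nat_lit 0)), ((nat_lit 0), (nat_lit 0), (nat_lit 0)), ((nat_lit 858), (nat_lit 1000), (nat_lit 713))], ((nat_lit 100), (nat_lit 85), (nat_lit 73))⟩, (nat_lit 4552729), (nat_lit 248), (nat_lit 248), (nat_lit 0), (nat_lit 0), [(nat_lit 4688000000), (nat_lit 7968000000), (nat_lit 11872000000)], [], [(nat_lit 22490561075), (nat_lit 25038937196), (nat_lit 36790318727), (nat_lit 38511705959), (nat_lit 32831630290), (nat_lit 34372547974), (nat_lit 38357805905), (nat_lit 38994658593)], (nat_lit 0), (nat_lit 0), (nat_lit 0), (nat_lit 0), (nat_lit 0), (nat_lit 0), [], [(nat_lit 18), (nat_lit 59), (nat_lit 538), (nat_lit 300), (nat_lit 14)]⟩,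
 ⟨⟨[(nat_lit 100), (nat_lit 140), (nat_lit 180)], [(nat_lit 0), (nat_lit 508), (nat_lit 2854)], [((nat_lit 0), (nat_lit 0), (nat_lit 0)), ((nat_lit 1000), (nat_lit 1000), (nat_lit 198)), ((nat_lit 777), (nat_lit 1000), (nat_lit 712))], ((nat_lit 100), (nat_lit 77), (nat_lit 72))⟩, (nat_lit 330449), (nat_lit 300), (nat_lit 471), (nat_lit 35216348), (nat_lit 268096), [(nat_lit 3237500000), (nat_lit 5098156000), (nat_lit 7282044000)], [], [(nat_lit 27079020924), (nat_lit 27479529380), (nat_lit 28531439245), (nat_lit 28539224457), (nat_lit 32748064092), (nat_lit 25783384202), (nat_lit 23532039707), (nat_lit 23116553835)], (nat_lit 1271251), (nat_lit 1271251), (nat_lit 1271251), (nat_lit 1271251), (nat_lit 0), (nat_lit 2825001), [(nat_lit 1412501), (nat_lit 1271251), (nat_lit 1271251)], [(nat_lit 24), (nat_lit 63), (nat_lit 538), (nat_lit 300), (nat_lit 13)]⟩⟩))))))) (.trZ (nat_lit 0) (nat_lit 1) (nat_lit 3) (nat_lit 99) (nat_lit 77) (nat_lit 100) (nat_lit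 120) (.trZ (nat_lit 1) (nat_lit 2) (nat_lit 5) (nat_lit 100) (nat_lit 92) (nat_lit 49) (nat_lit 20) (.spl (nat_lit 0) (nat_lit 350) (.leaf ⟨(nat_lit 0), (nat_lit 605), (nat_lit 0), (nat_lit 395), (nat_lit 0), (nat_lit 4159), (nat_lit 5224), (nat_lit 3653), (nat_lit 0), (nat_lit 31021), (nat_lit 0), [], Pd.none, Pd.none, (nat_lit 0), (nat_lit 1), (nat_lit 0), (nat_lit 0), (nat_lit 5), (nat_lit 0), [⟨(nat_lit 0), (nat_lit 80), (nat_lit 66), (nat_lit 100), (nat_lit 135553933)⟩], [], [⟨(nat_lit 0), (nat_lit 100), (nat_lit 92), (nat_lit 82), (nat_lit 239368)⟩], [],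
 ⟨⟨[(nat_lit 40), (nat_lit 80), (nat_lit 120)], [(nat_lit 0), (nat_lit 795), (nat_lit 2800)], [((nat_lit 0), (nat_lit 0), (nat_lit 0)), ((nat_lit 1000), (nat_lit 814), (nat_lit 310)), ((nat_lit 1000), (nat_lit 719), (nat_lit 783))], ((nat_lit 71), (nat_lit 100), (nat_lit 71))⟩, (nat_lit 2024944), (nat_lit 299), (nat_lit 299), (nat_lit 0), (nat_lit 514400), [(nat_lit 2032000016), (nat_lit 4688000007), (nat_lit 7968000000)], [], [(nat_lit 27300863022), (nat_lit 26209501404), (nat_lit 32573695210), (nat_lit 32880712396), (nat_lit 32573695210), (nat_lit 32880712396), (nat_lit 44210663489), (nat_lit 43352341546)], (nat_lit 1271251), (nat_lit 1271251), (nat_lit 780000), (nat_lit 3072501), (nat_lit 780000), (nat_lit 3072501), [(nat_lit 490000), (nat_lit 1100000), (nat_lit 1785001)], [(nat_lit 4), (nat_lit 51), (nat_lit 428), (nat_lit 200), (nat_lit 13)]⟩,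
 ⟨⟨[(nat_lit 60), (nat_lit 100), (nat_lit 140)], [(nat_lit 0), (nat_lit 0), (nat_lit 2047)], [((nat_lit 0), (nat_lit 0), (nat_lit 0)), ((nat_lit 0), (nat_lit 0), (nat_lit 0)), ((nat_lit 1000), (nat_lit 993), (nat_lit 781))], ((nat_lit 99), (nat_lit 100), (nat_lit 77))⟩, (nat_lit 2626692), (nat_lit 205), (nat_lit 205), (nat_lit 0), (nat_lit 0), [(nat_lit 3282000000), (nat_lit 6250000000), (nat_lit 9842000000)], [], [(nat_lit 22843744428), (nat_lit 25468795896), (nat_lit 34786282432), (nat_lit 36145650460), (nat_lit 31899593456), (nat_lit 33165527264), (nat_lit 37700052032), (nat_lit 38413934720)], (nat_lit 0), (nat_lit 0), (nat_lit 0), (nat_lit 0), (nat_lit 0), (nat_lit 0), [], [(nat_lit 11), (nat_lit 55), (nat_lit 428), (nat_lit 200), (nat_lit 12)]⟩,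
 ⟨⟨[(nat_lit 100), (nat_lit 140), (nat_lit 180)], [(nat_lit 0), (nat_lit 508), (nat_lit 2854)], [((nat_lit 0), (nat_lit 0), (nat_lit 0)), ((nat_lit 1000), (nat_lit 1000), (nat_lit 198)), ((nat_lit 777), (nat_lit 1000), (nat_lit 712))], ((nat_lit 100), (nat_lit 77), (nat_lit 72))⟩, (nat_lit 849094), (nat_lit 300), (nat_lit 778), (nat_lit 24687502), (nat_lit 881195), [(nat_lit 2468750000), (nat_lit 3887590000), (nat_lit 5552910000)], [], [(nat_lit 22679400641), (nat_lit 22451585013), (nat_lit 21525576782), (nat_lit 20984782722), (nat_lit 25143417182), (nat_lit 18868486194), (nat_lit 17685234022), (nat_lit 17287484320)], (nat_lit 1271251), (nat_lit 1271251), (nat_lit 1271251), (nat_lit 1271251), (nat_lit 111251), (nat_lit 2866250), [(nat_lit 1412501), (nat_lit 1271251), (nat_lit 1271251)], [(nat_lit 24), (nat_lit 63), (nat_lit 538), (nat_lit 300), (nat_lit 12)]⟩⟩) (.trZ (nat_lit 0) (nat_lit 1) (nat_lit 3) (nat_lit 96) (nat_lit 69) (nat_lit 100) (nat_lit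 130) (.leaf ⟨(nat_lit 0), (nat_lit 600), (nat_lit 0), (nat_lit 400), (nat_lit 0), (nat_lit 5000), (nat_lit 5253), (nat_lit 3524), (nat_lit 0), (nat_lit 139343), (nat_lit 0), [], Pd.none, Pd.none, (nat_lit 0), (nat_lit 1), (nat_lit 0), (nat_lit 0), (nat_lit 5), (nat_lit 0), [⟨(nat_lit 0), (nat_lit 80), (nat_lit 60), (nat_lit 100), (nat_lit 244254299)⟩], [], [], [],
 ⟨⟨[(nat_lit 40), (nat_lit 80), (nat_lit 100)], [(nat_lit 0), (nat_lit 1195), (nat_lit 2166)], [((nat_lit 0), (nat_lit 0), (nat_lit 0)), ((nat_lit 1000), (nat_lit 720), (nat_lit 465)), ((nat_lit 1000), (nat_lit 662), (nat_lit 740))], ((nat_lit 66), (nat_lit 100), (nat_lit 72))⟩, (nat_lit 793852), (nat_lit 277), (nat_lit 277), (nat_lit 0), (nat_lit 534734), [(nat_lit 2032000052), (nat_lit 4688000161), (nat_lit 6250000000)], [], [(nat_lit 26510597917), (nat_lit 25208886620), (nat_lit 33099390089), (nat_lit 33524221589), (nat_lit 33023831714), (nat_lit 33443565089), (nat_lit 39125256573),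 (nat_lit 38309896000)], (nat_lit 1271251), (nat_lit 1271251), (nat_lit 857188), (nat_lit 3093126), (nat_lit 780000), (nat_lit 3072501), [(nat_lit 490000), (nat_lit 1100000), (nat_lit 1442501)], [(nat_lit 3), (nat_lit 50), (nat_lit 428), (nat_lit 200), (nat_lit 16)]⟩,
 ⟨⟨[(nat_lit 60), (nat_lit 100), (nat_lit 140)], [(nat_lit 0), (nat_lit 0), (nat_lit 2047)], [((nat_lit 0), (nat_lit 0), (nat_lit 0)), ((nat_lit 0), (nat_lit 0), (nat_lit 0)), ((nat_lit 1000), (nat_lit 993), (nat_lit 781))], ((nat_lit 99), (nat_lit 100), (nat_lit 77))⟩, (nat_lit 3097545), (nat_lit 205), (nat_lit 205), (nat_lit 0), (nat_lit 0), [(nat_lit 3282000000), (nat_lit 6250000000), (nat_lit 9842000000)], [], [(nat_lit 21920745604), (nat_lit 24522789208), (nat_lit 34521743246), (nat_lit 36172664582), (nat_lit 31802741890), (nat_lit 33053928413), (nat_lit 37697573054), (nat_lit 38410694840)], (nat_lit 0), (nat_lit 0), (nat_lit 0), (nat_lit 0), (nat_lit 0), (nat_lit 0), [], [(nat_lit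 11), (nat_lit 55), (nat_lit 428), (nat_lit 200), (nat_lit 12)]⟩,
 ⟨⟨[(nat_lit 100), (nat_lit 140), (nat_lit 180)], [(nat_lit 0), (nat_lit 508), (nat_lit 2854)], [((nat_lit 0), (nat_lit 0), (nat_lit 0)), ((nat_lit 1000), (nat_lit 1000), (nat_lit 198)), ((nat_lit 777), (nat_lit 1000), (nat_lit 712))], ((nat_lit 100), (nat_lit 77), (nat_lit 72))⟩, (nat_lit 859843), (nat_lit 300), (nat_lit 844), (nat_lit 25000000), (nat_lit 1050417), [(nat_lit 2500000000), (nat_lit 3936800000), (nat_lit 5623200000)], [], [(nat_lit 23481653580), (nat_lit 23292721010), (nat_lit 22450404135), (nat_lit 21935129392), (nat_lit 25080075096), (nat_lit 19933382392), (nat_lit 18663346188), (nat_lit 17950059792)], (nat_lit 1271251), (nat_lit 1271251), (nat_lit 1271251), (nat_lit 1271251), (nat_lit 111251), (nat_lit 2866250), [(nat_lit 1412501), (nat_lit 1271251), (nat_lit 1271251)], [(nat_lit 24), (nat_lit 63), (nat_lit 538), (nat_lit 300), (nat_lit 12)]⟩⟩))))))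
noncomputable def c8_80 : Tr Lf :=
 (.spl (nat_lit 5) (nat_lit 120) (.spl (nat_lit 3) (nat_lit 120) (.spl (nat_lit 6) (nat_lit 32) (.leaf ⟨(nat_lit 699), (nat_lit 175), (nat_lit 0), (nat_lit 126), (nat_lit 0), (nat_lit 3840), (nat_lit 4304), (nat_lit 1461), (nat_lit 0), (nat_lit 6970799651772), (nat_lit 367950), [((nat_lit 360), [((nat_lit 21), (nat_lit 0), (nat_lit 147)), ((nat_lit 39), (nat_lit 2), (nat_lit 552))])], ⟨(nat_lit 6), false, false, false, (nat_lit 164), (nat_lit 3162), (nat_lit 3873), [(nat_lit 1349867), (nat_lit 1361295), (nat_lit 1393396), (nat_lit 1405548), (nat_lit 1414421), (nat_lit 1422280), (nat_lit 1457950), (nat_lit 1466533)]⟩, ⟨(nat_lit 5), false, false, false, (nat_lit 209), (nat_lit 3162), (nat_lit 3873), [(nat_lit 1392656), (nat_lit 1400154), (nat_lit 1457950), (nat_lit 1466533), (nat_lit 1586313), (nat_lit 1583107), (nat_lit 1651611), (nat_lit 1649490)]⟩, (nat_lit 4669937), (nat_lit 44289703), (nat_lit 9167679), (nat_lit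 13542618), (nat_lit 5), (nat_lit 0), [⟨(nat_lit 0), (nat_lit 100), (nat_lit 69), (nat_lit 96), (nat_lit 224446993)⟩], [], [⟨(nat_lit 0), (nat_lit 100), (nat_lit 99), (nat_lit 55), (nat_lit 22894735)⟩], [],
 ⟨⟨[(nat_lit 40), (nat_lit 60), (nat_lit 80)], [(nat_lit 0), (nat_lit 398), (nat_lit 992)], [((nat_lit 0), (nat_lit 0), (nat_lit 0)), ((nat_lit 1000), (nat_lit 814), (nat_lit 310)), ((nat_lit 1000), (nat_lit 752), (nat_lit 464))], ((nat_lit 73), (nat_lit 100), (nat_lit 55))⟩, (nat_lit 1680780), (nat_lit 199), (nat_lit 199), (nat_lit 0), (nat_lit 442035), [(nat_lit 1494826083), (nat_lit 1862923945), (nat_lit 2179270255)], [(nat_lit 0), (nat_lit 0), (nat_lit 0)], [(nat_lit 16995117080), (nat_lit 19101346240), (nat_lit 17405347346), (nat_lit 19371520740), (nat_lit 20321578640), (nat_lit 22034086560), (nat_lit 20588337480), (nat_lit 22216462720)], (nat_lit 1271251), (nat_lit 1271251), (nat_lit 490000), (nat_lit 780000), (nat_lit 780000), (nat_lit 1762501),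 [(nat_lit 490000), (nat_lit 780000), (nat_lit 1100000)], [(nat_lit 2), (nat_lit 44), (nat_lit 317), (nat_lit 100), (nat_lit 14)]⟩,
 ⟨⟨[(nat_lit 80), (nat_lit 120), (nat_lit 140)], [(nat_lit 0), (nat_lit 0), (nat_lit 1164)], [((nat_lit 0), (nat_lit 0), (nat_lit 0)), ((nat_lit 0), (nat_lit 0), (nat_lit 0)), ((nat_lit 941), (nat_lit 1000), (nat_lit 576))], ((nat_lit 100), (nat_lit 95), (nat_lit 55))⟩, (nat_lit 0), (nat_lit 373), (nat_lit 373), (nat_lit 0), (nat_lit 333078), [(nat_lit 1411088000), (nat_lit 2398368000), (nat_lit 2962442000)], [], [(nat_lit 9988547916), (nat_lit 9636256992), (nat_lit 11189701932), (nat_lit 9292074063), (nat_lit 12045847116), (nat_lit 8069622540), (nat_lit 13411422540), (nat_lit 9486589876)], (nat_lit 1271251), (nat_lit 1271251), (nat_lit 490000), (nat_lit 780000), (nat_lit 0), (nat_lit 780000), [(nat_lit 1100000), (nat_lit 1785001), (nat_lit 1271251)], [(nat_lit 17), (nat_lit 58), (nat_lit 373), (nat_lit 150), (nat_lit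 11)]⟩,
 ⟨⟨[(nat_lit 100), (nat_lit 140), (nat_lit 160)], [(nat_lit 0), (nat_lit 508), (nat_lit 1689)], [((nat_lit 0), (nat_lit 0), (nat_lit 0)), ((nat_lit 1000), (nat_lit 1000), (nat_lit 198)), ((nat_lit 811), (nat_lit 1000), (nat_lit 671))], ((nat_lit 100), (nat_lit 89), (nat_lit 55))⟩, (nat_lit 270851), (nat_lit 300), (nat_lit 802), (nat_lit 7875000), (nat_lit 1038532), [(nat_lit 787500000), (nat_lit 1240092000), (nat_lit 1495872000)], [], [(nat_lit 5566730972), (nat_lit 5593692183), (nat_lit 5223507201), (nat_lit 5274441174), (nat_lit 4564149984), (nat_lit 4538304435), (nat_lit 4180293239), (nat_lit 4211777280)], (nat_lit 1271251), (nat_lit 1271251), (nat_lit 780000), (nat_lit 1762501), (nat_lit 0), (nat_lit 780000), [(nat_lit 1412501), (nat_lit 1271251), (nat_lit 1271251)], [(nat_lit 23), (nat_lit 62), (nat_lit 401), (nat_lit 175), (nat_lit 10)]⟩⟩) (.spl (nat_lit 6) (nat_lit 48) (.leaf ⟨(nat_lit 0), (nat_lit 611), (nat_lit 0), (nat_lit 389),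 (nat_lit 0), (nat_lit 6649), (nat_lit 13184), (nat_lit 4839), (nat_lit 0), (nat_lit 4719714877010), (nat_lit 0), [], Pd.none, Pd.none, (nat_lit 0), (nat_lit 1), (nat_lit 0), (nat_lit 0), (nat_lit 5), (nat_lit 0), [⟨(nat_lit 0), (nat_lit 100), (nat_lit 69), (nat_lit 96), (nat_lit 583276010)⟩], [], [⟨(nat_lit 0), (nat_lit 100), (nat_lit 99), (nat_lit 55), (nat_lit 110658489)⟩], [],
 ⟨⟨[(nat_lit 40), (nat_lit 80), (nat_lit 100)], [(nat_lit 0), (nat_lit 795), (nat_lit 1829)], [((nat_lit 0), (nat_lit 0), (nat_lit 0)), ((nat_lit 1000), (nat_lit 814), (nat_lit 310)), ((nat_lit 1000), (nat_lit 714), (nat_lit 692))], ((nat_lit 72), (nat_lit 100), (nat_lit 65))⟩, (nat_lit 1320562), (nat_lit 146), (nat_lit 146), (nat_lit 0), (nat_lit 196515), [(nat_lit 2636094325), (nat_lit 5282848142), (nat_lit 6250000000)], [], [(nat_lit 19582605604), (nat_lit 22028004014), (nat_lit 19610119712), (nat_lit 21806446783), (nat_lit 22350887605), (nat_lit 24727170366), (nat_lit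 22192938820), (nat_lit 24396760767)], (nat_lit 1271251), (nat_lit 1271251), (nat_lit 490000), (nat_lit 780000), (nat_lit 780000), (nat_lit 1762501), [(nat_lit 490000), (nat_lit 1100000), (nat_lit 1442501)], [(nat_lit 3), (nat_lit 50), (nat_lit 317), (nat_lit 100), (nat_lit 11)]⟩,
 ⟨⟨[(nat_lit 80), (nat_lit 120), (nat_lit 160)], [(nat_lit 0), (nat_lit 0), (nat_lit 2132)], [((nat_lit 0), (nat_lit 0), (nat_lit 0)), ((nat_lit 0), (nat_lit 0), (nat_lit 0)), ((nat_lit 858), (nat_lit 1000), (nat_lit 713))], ((nat_lit 100), (nat_lit 89), (nat_lit 66))⟩, (nat_lit 0), (nat_lit 363), (nat_lit 363), (nat_lit 0), (nat_lit 146854), [(nat_lit 4688000000), (nat_lit 7968000000), (nat_lit 11872000000)], [], [(nat_lit 34916742272), (nat_lit 39744953200), (nat_lit 37831190880), (nat_lit 38391979392), (nat_lit 40606568544), (nat_lit 28426609248), (nat_lit 44880049248), (nat_lit 32857513504)], (nat_lit 1271251), (nat_lit 1271251), (nat_lit 490000), (nat_lit 780000), (nat_lit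 0), (nat_lit 780000), [(nat_lit 1100000), (nat_lit 1785001), (nat_lit 1271251)], [(nat_lit 18), (nat_lit 59), (nat_lit 373), (nat_lit 150), (nat_lit 10)]⟩,
 ⟨⟨[(nat_lit 100), (nat_lit 140), (nat_lit 160)], [(nat_lit 0), (nat_lit 508), (nat_lit 1689)], [((nat_lit 0), (nat_lit 0), (nat_lit 0)), ((nat_lit 1000), (nat_lit 1000), (nat_lit 198)), ((nat_lit 811), (nat_lit 1000), (nat_lit 671))], ((nat_lit 100), (nat_lit 83), (nat_lit 65))⟩, (nat_lit 218991), (nat_lit 300), (nat_lit 482), (nat_lit 26552077), (nat_lit 377612), [(nat_lit 2431250000), (nat_lit 3828538000), (nat_lit 4618208000)], [], [(nat_lit 17517041079), (nat_lit 17840714552), (nat_lit 16587885209), (nat_lit 16723125136), (nat_lit 14001462607), (nat_lit 14255202086), (nat_lit 13078980046), (nat_lit 13159069060)], (nat_lit 1271251), (nat_lit 1271251), (nat_lit 780000), (nat_lit 1762501), (nat_lit 0), (nat_lit 780000), [(nat_lit 1412501), (nat_lit 1271251), (nat_lit 1271251)], [(nat_lit 23),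 (nat_lit 62), (nat_lit 401), (nat_lit 175), (nat_lit 10)]⟩⟩) (.leaf ⟨(nat_lit 0), (nat_lit 541), (nat_lit 0), (nat_lit 459), (nat_lit 32610), (nat_lit 4583), (nat_lit 17314), (nat_lit 6346), (nat_lit 0), (nat_lit 12668517660964), (nat_lit 0), [], Pd.none, Pd.none, (nat_lit 0), (nat_lit 1), (nat_lit 0), (nat_lit 0), (nat_lit 5), (nat_lit 0), [⟨(nat_lit 0), (nat_lit 100), (nat_lit 69), (nat_lit 96), (nat_lit 1391459408)⟩], [], [⟨(nat_lit 0), (nat_lit 100), (nat_lit 99), (nat_lit 55), (nat_lit 206124565)⟩], [],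
 ⟨⟨[(nat_lit 40), (nat_lit 80), (nat_lit 120)], [(nat_lit 0), (nat_lit 795), (nat_lit 2800)], [((nat_lit 0), (nat_lit 0), (nat_lit 0)), ((nat_lit 1000), (nat_lit 814), (nat_lit 310)), ((nat_lit 1000), (nat_lit 719), (nat_lit 783))], ((nat_lit 71), (nat_lit 100), (nat_lit 71))⟩, (nat_lit 2883803), (nat_lit 143), (nat_lit 143), (nat_lit 0), (nat_lit 100878), [(nat_lit 2108400578), (nat_lit 4688000117), (nat_lit 7968000000)], [], [(nat_lit 18187095980), (nat_lit 19882045777), (nat_lit 18406189107), (nat_lit 20015533451), (nat_lit 20923229376), (nat_lit 22746425922), (nat_lit 21127307366), (nat_lit 22793166689)], (nat_lit 1271251), (nat_lit 1271251), (nat_lit 490000), (nat_lit 780000), (nat_lit 780000), (nat_lit 1762501), [(nat_lit 490000), (nat_lit 1100000), (nat_lit 1785001)], [(nat_lit 4), (nat_lit 51), (nat_lit 317), (nat_lit 100), (nat_lit 10)]⟩,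
 ⟨⟨[(nat_lit 80), (nat_lit 120), (nat_lit 160)], [(nat_lit 0), (nat_lit 0), (nat_lit 2132)], [((nat_lit 0), (nat_lit 0), (nat_lit 0)), ((nat_lit 0), (nat_lit 0), (nat_lit 0)), ((nat_lit 858), (nat_lit 1000), (nat_lit 713))], ((nat_lit 100), (nat_lit 85), (nat_lit 73))⟩, (nat_lit 0), (nat_lit 336), (nat_lit 336), (nat_lit 0), (nat_lit 77891), [(nat_lit 4688000000), (nat_lit 7968000000), (nat_lit 11872000000)], [], [(nat_lit 36877286312), (nat_lit 42796197200), (nat_lit 35400974980), (nat_lit 40738905582), (nat_lit 38431776624), (nat_lit 27056405174), (nat_lit 43680581608), (nat_lit 27891884409)], (nat_lit 1271251), (nat_lit 1271251), (nat_lit 490000), (nat_lit 780000), (nat_lit 0), (nat_lit 780000), [(nat_lit 1100000), (nat_lit 1785001), (nat_lit 1271251)], [(nat_lit 18), (nat_lit 59), (nat_lit 373), (nat_lit 150), (nat_lit 10)]⟩,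
 ⟨⟨[(nat_lit 100), (nat_lit 140), (nat_lit 180)], [(nat_lit 0), (nat_lit 508), (nat_lit 2854)], [((nat_lit 0), (nat_lit 0), (nat_lit 0)), ((nat_lit 1000), (nat_lit 1000), (nat_lit 198)), ((nat_lit 777), (nat_lit 1000), (nat_lit 712))], ((nat_lit 100), (nat_lit 77), (nat_lit 72))⟩, (nat_lit 292811), (nat_lit 300), (nat_lit 437), (nat_lit 31205219), (nat_lit 185954), [(nat_lit 2868750000), (nat_lit 4517478000), (nat_lit 6452622000)], [], [(nat_lit 23506356963), (nat_lit 24164430845), (nat_lit 22271278966), (nat_lit 22631375860), (nat_lit 18156237750), (nat_lit 18722633298), (nat_lit 16995764732), (nat_lit 17283705833)], (nat_lit 1271251), (nat_lit 1271251), (nat_lit 780000), (nat_lit 1762501), (nat_lit 0), (nat_lit 780000), [(nat_lit 1412501), (nat_lit 1271251), (nat_lit 1271251)], [(nat_lit 24), (nat_lit 63), (nat_lit 401), (nat_lit 175), (nat_lit 9)]⟩⟩))) (.stt (nat_lit 1) (.leaf ⟨(nat_lit 904), (nat_lit 15), (nat_lit 0), (nat_lit 81), (nat_lit 0),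 (nat_lit 3153), (nat_lit 1069), (nat_lit 1058), (nat_lit 0), (nat_lit 1033665131171), (nat_lit 226000), [((nat_lit 360), [((nat_lit 22), (nat_lit 0), (nat_lit 904))])], ⟨(nat_lit 6), false, false, false, (nat_lit 214), (nat_lit 3162), (nat_lit 3873), [(nat_lit 1414421), (nat_lit 1422280), (nat_lit 1457950), (nat_lit 1466533), (nat_lit 1608082), (nat_lit 1605237), (nat_lit 1651611), (nat_lit 1649490)]⟩, ⟨(nat_lit 5), false, false, false, (nat_lit 209), (nat_lit 3162), (nat_lit 3873), [(nat_lit 1392656), (nat_lit 1400154), (nat_lit 1457950), (nat_lit 1466533), (nat_lit 1586313), (nat_lit 1583107), (nat_lit 1651611), (nat_lit 1649490)]⟩, (nat_lit 5073735), (nat_lit 40789526), (nat_lit 13322330), (nat_lit 12888144), (nat_lit 5), (nat_lit 0), [], [], [⟨(nat_lit 0), (nat_lit 100), (nat_lit 99), (nat_lit 55), (nat_lit 70430345)⟩], [],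
 ⟨⟨[(nat_lit 40), (nat_lit 80), (nat_lit 120)], [(nat_lit 0), (nat_lit 795), (nat_lit 2800)], [((nat_lit 0), (nat_lit 0), (nat_lit 0)), ((nat_lit 1000), (nat_lit 814), (nat_lit 310)), ((nat_lit 1000), (nat_lit 719), (nat_lit 783))], ((nat_lit 71), (nat_lit 100), (nat_lit 71))⟩, (nat_lit 0), (nat_lit 58), (nat_lit 58), (nat_lit 0), (nat_lit 0), [(nat_lit 1590080006), (nat_lit 103155357347), (nat_lit 3216937600)], [(nat_lit 0), (nat_lit 0), (nat_lit 0)], [(nat_lit 17062811601), (nat_lit 18776047346), (nat_lit 20331791191), (nat_lit 21725036013), (nat_lit 20331791191), (nat_lit 21725036013), (nat_lit 22990993956), (nat_lit 24150153202)], (nat_lit 0), (nat_lit 0), (nat_lit 0), (nat_lit 0), (nat_lit 0), (nat_lit 0), [], [(nat_lit 4), (nat_lit 51), (nat_lit 345), (nat_lit 125), (nat_lit 11)]⟩,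
 ⟨⟨[(nat_lit 80), (nat_lit 120), (nat_lit 160)], [(nat_lit 0), (nat_lit 0), (nat_lit 2132)], [((nat_lit 0), (nat_lit 0), (nat_lit 0)), ((nat_lit 0), (nat_lit 0), (nat_lit 0)), ((nat_lit 858), (nat_lit 1000), (nat_lit 713))], ((nat_lit 100), (nat_lit 85), (nat_lit 73))⟩, (nat_lit 304932), (nat_lit 725), (nat_lit 725), (nat_lit 0), (nat_lit 924775), [(nat_lit 450048000), (nat_lit 764928000), (nat_lit 1139712000)], [], [(nat_lit 3642092060), (nat_lit 2958191517), (nat_lit 3790560148), (nat_lit 3056494014), (nat_lit 2860769349), (nat_lit 2337076637), (nat_lit 4449482224), (nat_lit 3487421777)], (nat_lit 1271251), (nat_lit 1271251), (nat_lit 780000), (nat_lit 1762501), (nat_lit 0), (nat_lit 780000), [(nat_lit 1100000), (nat_lit 1785001), (nat_lit 1271251)], [(nat_lit 18), (nat_lit 59), (nat_lit 401), (nat_lit 175), (nat_lit 10)]⟩,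
 ⟨⟨[(nat_lit 100), (nat_lit 140), (nat_lit 180)], [(nat_lit 0), (nat_lit 508), (nat_lit 2854)], [((nat_lit 0), (nat_lit 0), (nat_lit 0)), ((nat_lit 1000), (nat_lit 1000), (nat_lit 198)), ((nat_lit 777), (nat_lit 1000), (nat_lit 712))], ((nat_lit 100), (nat_lit 77), (nat_lit 72))⟩, (nat_lit 174118), (nat_lit 300), (nat_lit 864), (nat_lit 5062501), (nat_lit 1059035), [(nat_lit 506250000), (nat_lit 797202000), (nat_lit 1138698000)], [], [(nat_lit 4103794354), (nat_lit 4105215403), (nat_lit 3794104034), (nat_lit 3859986356), (nat_lit 3268391806), (nat_lit 3248396584), (nat_lit 2953759330), (nat_lit 2975806063)], (nat_lit 1271251), (nat_lit 1271251), (nat_lit 780000), (nat_lit 1762501), (nat_lit 0), (nat_lit 780000), [(nat_lit 1412501), (nat_lit 1271251), (nat_lit 1271251)], [(nat_lit 24), (nat_lit 63), (nat_lit 401), (nat_lit 175), (nat_lit 9)]⟩⟩) (.leaf ⟨(nat_lit 49), (nat_lit 677), (nat_lit 0), (nat_lit 274), (nat_lit 3), (nat_lit 5306), (nat_lit 7109),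 (nat_lit 5048), (nat_lit 0), (nat_lit 913509), (nat_lit 196000), [((nat_lit 360), [((nat_lit 39), (nat_lit 5), (nat_lit 49))])], ⟨(nat_lit 6), false, false, false, (nat_lit 214), (nat_lit 3162), (nat_lit 3873), [(nat_lit 1414421), (nat_lit 1422280), (nat_lit 1457950), (nat_lit 1466533), (nat_lit 1608082), (nat_lit 1605237), (nat_lit 1651611), (nat_lit 1649490)]⟩, ⟨(nat_lit 5), false, false, false, (nat_lit 209), (nat_lit 3162), (nat_lit 3873), [(nat_lit 1392656), (nat_lit 1400154), (nat_lit 1457950), (nat_lit 1466533), (nat_lit 1586313), (nat_lit 1583107), (nat_lit 1651611), (nat_lit 1649490)]⟩, (nat_lit 5073735), (nat_lit 40789526), (nat_lit 13322330), (nat_lit 12888144), (nat_lit 5), (nat_lit 0), [], [], [⟨(nat_lit 0), (nat_lit 100), (nat_lit 98), (nat_lit 30), (nat_lit 344684686)⟩], [],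
 ⟨⟨[(nat_lit 40), (nat_lit 80), (nat_lit 120)], [(nat_lit 0), (nat_lit 795), (nat_lit 2800)], [((nat_lit 0), (nat_lit 0), (nat_lit 0)), ((nat_lit 1000), (nat_lit 814), (nat_lit 310)), ((nat_lit 1000), (nat_lit 719), (nat_lit 783))], ((nat_lit 71), (nat_lit 100), (nat_lit 71))⟩, (nat_lit 1953467), (nat_lit 279), (nat_lit 279), (nat_lit 0), (nat_lit 450277), [(nat_lit 2038554261), (nat_lit 3973109613), (nat_lit 6102589600)], [(nat_lit 0), (nat_lit 0), (nat_lit 0)], [(nat_lit 18814821434), (nat_lit 20642210691), (nat_lit 21394504807), (nat_lit 23354346998), (nat_lit 21394504807), (nat_lit 23354346998), (nat_lit 23765659468), (nat_lit 25356840440)], (nat_lit 1271251), (nat_lit 1271251), (nat_lit 780000), (nat_lit 1762501), (nat_lit 780000), (nat_lit 1762501), [(nat_lit 490000), (nat_lit 1100000), (nat_lit 1785001)], [(nat_lit 4), (nat_lit 51), (nat_lit 345), (nat_lit 125), (nat_lit 11)]⟩,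
 ⟨⟨[(nat_lit 80), (nat_lit 120), (nat_lit 160)], [(nat_lit 0), (nat_lit 0), (nat_lit 2132)], [((nat_lit 0), (nat_lit 0), (nat_lit 0)), ((nat_lit 0), (nat_lit 0), (nat_lit 0)), ((nat_lit 858), (nat_lit 1000), (nat_lit 713))], ((nat_lit 100), (nat_lit 85), (nat_lit 73))⟩, (nat_lit 505872), (nat_lit 424), (nat_lit 424), (nat_lit 0), (nat_lit 349892), [(nat_lit 4458288000), (nat_lit 7577568000), (nat_lit 11290272000)], [], [(nat_lit 34428261460), (nat_lit 36530620231), (nat_lit 38804974568), (nat_lit 37517384532), (nat_lit 32368538949), (nat_lit 32255736736), (nat_lit 44162168804), (nat_lit 37764331837)], (nat_lit 1271251), (nat_lit 1271251), (nat_lit 780000), (nat_lit 1762501), (nat_lit 0), (nat_lit 780000), [(nat_lit 1100000), (nat_lit 1785001), (nat_lit 1271251)], [(nat_lit 18), (nat_lit 59), (nat_lit 401), (nat_lit 175), (nat_lit 10)]⟩,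
 ⟨⟨[(nat_lit 100), (nat_lit 140), (nat_lit 180)], [(nat_lit 0), (nat_lit 508), (nat_lit 2854)], [((nat_lit 0), (nat_lit 0), (nat_lit 0)), ((nat_lit 1000), (nat_lit 1000), (nat_lit 198)), ((nat_lit 777), (nat_lit 1000), (nat_lit 712))], ((nat_lit 100), (nat_lit 77), (nat_lit 72))⟩, (nat_lit 191712), (nat_lit 300), (nat_lit 565), (nat_lit 18566560), (nat_lit 384392), [(nat_lit 1712500000), (nat_lit 2696708000), (nat_lit 3851892000)], [], [(nat_lit 13990070852), (nat_lit 14385489994), (nat_lit 12787679956), (nat_lit 13261645264), (nat_lit 9570422271), (nat_lit 9899132362), (nat_lit 8435813576), (nat_lit 8551440954)], (nat_lit 1271251), (nat_lit 1271251), (nat_lit 780000), (nat_lit 1762501), (nat_lit 0), (nat_lit 780000), [(nat_lit 1412501), (nat_lit 1271251), (nat_lit 1271251)], [(nat_lit 24), (nat_lit 63), (nat_lit 401), (nat_lit 175), (nat_lit 9)]⟩⟩))) (.spl (nat_lit 3) (nat_lit 160) (.leaf ⟨(nat_lit 825), (nat_lit 0), (nat_lit 0), (nat_lit 175),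 (nat_lit 0), (nat_lit 3921), (nat_lit 1701), (nat_lit 2014), (nat_lit 0), (nat_lit 1822473548458), (nat_lit 492550), [((nat_lit 360), [((nat_lit 22), (nat_lit 0), (nat_lit 7)), ((nat_lit 39), (nat_lit 2), (nat_lit 818))])], ⟨(nat_lit 6), false, false, false, (nat_lit 176), (nat_lit 3162), (nat_lit 3873), [(nat_lit 1349867), (nat_lit 1361295), (nat_lit 1393396), (nat_lit 1405548), (nat_lit 1478975), (nat_lit 1483267), (nat_lit 1522504), (nat_lit 1527519)]⟩, ⟨(nat_lit 5), false, false, false, (nat_lit 209), (nat_lit 3162), (nat_lit 3873), [(nat_lit 1392656), (nat_lit 1400154), (nat_lit 1457950), (nat_lit 1466533), (nat_lit 1586313), (nat_lit 1583107), (nat_lit 1651611), (nat_lit 1649490)]⟩, (nat_lit 4785256), (nat_lit 43424311), (nat_lit 10182298), (nat_lit 13393391), (nat_lit 0), (nat_lit 0), [⟨(nat_lit 0), (nat_lit 100), (nat_lit 69), (nat_lit 96), (nat_lit 116159263)⟩], [], [], [],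
 ⟨⟨[(nat_lit 40), (nat_lit 80), (nat_lit 120)], [(nat_lit 0), (nat_lit 795), (nat_lit 2800)], [((nat_lit 0), (nat_lit 0), (nat_lit 0)), ((nat_lit 1000), (nat_lit 814), (nat_lit 310)), ((nat_lit 1000), (nat_lit 719), (nat_lit 783))], ((nat_lit 71), (nat_lit 100), (nat_lit 71))⟩, (nat_lit 719186), (nat_lit 291), (nat_lit 291), (nat_lit 0), (nat_lit 450277), [(nat_lit 1414986801), (nat_lit 1627635620), (nat_lit 1143500380)], [(nat_lit 0), (nat_lit 0), (nat_lit 0)], [(nat_lit 17978657284), (nat_lit 19186183779), (nat_lit 18651710272), (nat_lit 19742965388), (nat_lit 20379633041), (nat_lit 22111744014), (nat_lit 20887435318), (nat_lit 22446923072)], (nat_lit 1271251), (nat_lit 1271251), (nat_lit 490000), (nat_lit 1100000), (nat_lit 780000), (nat_lit 1762501), [(nat_lit 490000), (nat_lit 1100000), (nat_lit 1785001)], [(nat_lit 4), (nat_lit 51), (nat_lit 317), (nat_lit 100), (nat_lit 10)]⟩,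
 ⟨⟨[(nat_lit 80), (nat_lit 120), (nat_lit 160)], [(nat_lit 0), (nat_lit 0), (nat_lit 2132)], [((nat_lit 0), (nat_lit 0), (nat_lit 0)), ((nat_lit 0), (nat_lit 0), (nat_lit 0)), ((nat_lit 858), (nat_lit 1000), (nat_lit 713))], ((nat_lit 100), (nat_lit 85), (nat_lit 73))⟩, (nat_lit 376897), (nat_lit 871), (nat_lit 871), (nat_lit 0), (nat_lit 1371905), [(nat_lit 820400000), (nat_lit 1394400000), (nat_lit 2077600000)], [], [(nat_lit 5947727380), (nat_lit 5990659521), (nat_lit 5589104178), (nat_lit 5646975733), (nat_lit 8246925008), (nat_lit 6696327428), (nat_lit 9723169848), (nat_lit 8212093302)], (nat_lit 1271251), (nat_lit 1271251), (nat_lit 490000), (nat_lit 1100000), (nat_lit 780000), (nat_lit 3072501), [(nat_lit 1100000), (nat_lit 1785001), (nat_lit 1271251)], [(nat_lit 18), (nat_lit 59), (nat_lit 456), (nat_lit 225), (nat_lit 12)]⟩,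
 ⟨⟨[(nat_lit 100), (nat_lit 140), (nat_lit 180)], [(nat_lit 0), (nat_lit 508), (nat_lit 2854)], [((nat_lit 0), (nat_lit 0), (nat_lit 0)), ((nat_lit 1000), (nat_lit 1000), (nat_lit 198)), ((nat_lit 777), (nat_lit 1000), (nat_lit 712))], ((nat_lit 100), (nat_lit 77), (nat_lit 72))⟩, (nat_lit 376181), (nat_lit 300), (nat_lit 782), (nat_lit 10937501), (nat_lit 1059035), [(nat_lit 1093750000), (nat_lit 1722350000), (nat_lit 2460150000)], [], [(nat_lit 7702146480), (nat_lit 7642629009), (nat_lit 7099416919), (nat_lit 7033490491), (nat_lit 9505469956), (nat_lit 7514393944), (nat_lit 12658322418), (nat_lit 10018993544)], (nat_lit 1271251), (nat_lit 1271251), (nat_lit 780000), (nat_lit 1762501), (nat_lit 780000), (nat_lit 3072501), [(nat_lit 1412501), (nat_lit 1271251), (nat_lit 1271251)], [(nat_lit 24), (nat_lit 63), (nat_lit 483), (nat_lit 250), (nat_lit 11)]⟩⟩) (.leaf ⟨(nat_lit 793), (nat_lit 0), (nat_lit 0), (nat_lit 207), (nat_lit 0), (nat_lit 3843),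 (nat_lit 1736), (nat_lit 2067), (nat_lit 0), (nat_lit 550718343342), (nat_lit 711800), [((nat_lit 360), [((nat_lit 39), (nat_lit 2), (nat_lit 203)), ((nat_lit 22), (nat_lit 2), (nat_lit 590))])], ⟨(nat_lit 6), false, false, false, (nat_lit 226), (nat_lit 3162), (nat_lit 3873), [(nat_lit 1478975), (nat_lit 1483267), (nat_lit 1522504), (nat_lit 1527519), (nat_lit 1608082), (nat_lit 1605237), (nat_lit 1651611), (nat_lit 1649490)]⟩, ⟨(nat_lit 5), false, false, false, (nat_lit 209), (nat_lit 3162), (nat_lit 3873), [(nat_lit 1392656), (nat_lit 1400154), (nat_lit 1457950), (nat_lit 1466533), (nat_lit 1586313), (nat_lit 1583107), (nat_lit 1651611), (nat_lit 1649490)]⟩, (nat_lit 5151049), (nat_lit 39907514), (nat_lit 14389091), (nat_lit 12703395), (nat_lit 0), (nat_lit 0), [], [], [], [],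
 ⟨⟨[(nat_lit 40), (nat_lit 80), (nat_lit 120)], [(nat_lit 0), (nat_lit 795), (nat_lit 2800)], [((nat_lit 0), (nat_lit 0), (nat_lit 0)), ((nat_lit 1000), (nat_lit 814), (nat_lit 310)), ((nat_lit 1000), (nat_lit 719), (nat_lit 783))], ((nat_lit 71), (nat_lit 100), (nat_lit 71))⟩, (nat_lit 91864), (nat_lit 266), (nat_lit 266), (nat_lit 0), (nat_lit 450277), [(nat_lit 1446711088), (nat_lit 1122733160), (nat_lit 0)], [(nat_lit 0), (nat_lit 0), (nat_lit 665981320)], [(nat_lit 18532441421), (nat_lit 19643770223), (nat_lit 20589987209), (nat_lit 22218791269), (nat_lit 20930538656), (nat_lit 22400619776), (nat_lit 23143624054), (nat_lit 24483809820)], (nat_lit 1271251), (nat_lit 1271251), (nat_lit 1100000), (nat_lit 1785001), (nat_lit 780000), (nat_lit 1762501), [(nat_lit 490000), (nat_lit 1100000), (nat_lit 1785001)], [(nat_lit 4), (nat_lit 51), (nat_lit 345), (nat_lit 125), (nat_lit 10)]⟩,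
 ⟨⟨[(nat_lit 80), (nat_lit 120), (nat_lit 160)], [(nat_lit 0), (nat_lit 0), (nat_lit 2132)], [((nat_lit 0), (nat_lit 0), (nat_lit 0)), ((nat_lit 0), (nat_lit 0), (nat_lit 0)), ((nat_lit 858), (nat_lit 1000), (nat_lit 713))], ((nat_lit 100), (nat_lit 85), (nat_lit 73))⟩, (nat_lit 493292), (nat_lit 833), (nat_lit 833), (nat_lit 0), (nat_lit 1371905), [(nat_lit 970416000), (nat_lit 1649376000), (nat_lit 2457504000)], [], [(nat_lit 7573006866), (nat_lit 7673621948), (nat_lit 7545789272), (nat_lit 7655649148), (nat_lit 12505211464), (nat_lit 10963042808), (nat_lit 9420874152), (nat_lit 7916946104)], (nat_lit 1271251), (nat_lit 1271251), (nat_lit 1271251), (nat_lit 1271251), (nat_lit 780000), (nat_lit 3072501), [(nat_lit 1100000), (nat_lit 1785001), (nat_lit 1271251)], [(nat_lit 18), (nat_lit 59), (nat_lit 483), (nat_lit 250), (nat_lit 12)]⟩,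
 ⟨⟨[(nat_lit 100), (nat_lit 140), (nat_lit 180)], [(nat_lit 0), (nat_lit 508), (nat_lit 2854)], [((nat_lit 0), (nat_lit 0), (nat_lit 0)), ((nat_lit 1000), (nat_lit 1000), (nat_lit 198)), ((nat_lit 777), (nat_lit 1000), (nat_lit 712))], ((nat_lit 100), (nat_lit 77), (nat_lit 72))⟩, (nat_lit 444969), (nat_lit 300), (nat_lit 782), (nat_lit 12937500), (nat_lit 1059035), [(nat_lit 1293750000), (nat_lit 2037294000), (nat_lit 2910006000)], [], [(nat_lit 10254661259), (nat_lit 10129621971), (nat_lit 9589775975), (nat_lit 9432856821), (nat_lit 10916467410), (nat_lit 9407364567), (nat_lit 14259951099), (nat_lit 11551166202)], (nat_lit 1271251), (nat_lit 1271251), (nat_lit 780000), (nat_lit 1762501), (nat_lit 780000), (nat_lit 3072501), [(nat_lit 1412501), (nat_lit 1271251), (nat_lit 1271251)], [(nat_lit 24), (nat_lit 63), (nat_lit 483), (nat_lit 250), (nat_lit 11)]⟩⟩)))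
noncomputable def c8_81 : Tr Lf :=
 (.spl (nat_lit 6) (nat_lit 32) (.spl (nat_lit 5) (nat_lit 120) (.spl (nat_lit 6) (nat_lit 16) (.leaf ⟨(nat_lit 0), (nat_lit 0), (nat_lit 0), (nat_lit 1000), (nat_lit 0), (nat_lit 4484), (nat_lit 11768), (nat_lit 10419), (nat_lit 0), (nat_lit 1133727), (nat_lit 0), [], Pd.none, Pd.none, (nat_lit 0), (nat_lit 1), (nat_lit 0), (nat_lit 0), (nat_lit 0), (nat_lit 0), [⟨(nat_lit 0), (nat_lit 100), (nat_lit 69), (nat_lit 96), (nat_lit 420494481)⟩], [], [⟨(nat_lit 0), (nat_lit 100), (nat_lit 98), (nat_lit 30), (nat_lit 571636806)⟩], [],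
 ⟨⟨[(nat_lit 40), (nat_lit 60), (nat_lit 80)], [(nat_lit 0), (nat_lit 398), (nat_lit 992)], [((nat_lit 0), (nat_lit 0), (nat_lit 0)), ((nat_lit 1000), (nat_lit 814), (nat_lit 310)), ((nat_lit 1000), (nat_lit 752), (nat_lit 464))], ((nat_lit 77), (nat_lit 100), (nat_lit 42))⟩, (nat_lit 14189437), (nat_lit 234), (nat_lit 234), (nat_lit 0), (nat_lit 439022), [(nat_lit 2032000036), (nat_lit 3929142509), (nat_lit 4688000000)], [], [(nat_lit 21296357700), (nat_lit 22651511256), (nat_lit 23960074472), (nat_lit 25028025052), (nat_lit 30562286836), (nat_lit 31796497455), (nat_lit 31068846897), (nat_lit 32054573953)], (nat_lit 1271251), (nat_lit 1271251), (nat_lit 490000), (nat_lit 1740001), (nat_lit 1271251), (nat_lit 1271251), [(nat_lit 490000), (nat_lit 780000), (nat_lit 1100000)], [(nat_lit 2), (nat_lit 44), (nat_lit 272), (nat_lit 60), (nat_lit 11)]⟩,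
 ⟨⟨[(nat_lit 80), (nat_lit 100), (nat_lit 120)], [(nat_lit 0), (nat_lit 0), (nat_lit 511)], [((nat_lit 0), (nat_lit 0), (nat_lit 0)), ((nat_lit 0), (nat_lit 0), (nat_lit 0)), ((nat_lit 1000), (nat_lit 997), (nat_lit 383))], ((nat_lit 100), (nat_lit 100), (nat_lit 40))⟩, (nat_lit 6809705), (nat_lit 573), (nat_lit 573), (nat_lit 0), (nat_lit 901845), [(nat_lit 4688000000), (nat_lit 6250000000), (nat_lit 7968000000)], [], [(nat_lit 27295839552), (nat_lit 21808338416), (nat_lit 37951901504), (nat_lit 26935782560), (nat_lit 25269367760), (nat_lit 14100629624), (nat_lit 45028350176), (nat_lit 34437585592)], (nat_lit 1271251), (nat_lit 1271251), (nat_lit 490000), (nat_lit 1740001), (nat_lit 0), (nat_lit 780000), [(nat_lit 1100000), (nat_lit 1442501), (nat_lit 1271251)], [(nat_lit 16), (nat_lit 54), (nat_lit 317), (nat_lit 100), (nat_lit 11)]⟩,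
 ⟨⟨[(nat_lit 100), (nat_lit 120), (nat_lit 140)], [(nat_lit 0), (nat_lit 254), (nat_lit 778)], [((nat_lit 0), (nat_lit 0), (nat_lit 0)), ((nat_lit 1000), (nat_lit 1000), (nat_lit 198)), ((nat_lit 960), (nat_lit 1000), (nat_lit 392))], ((nat_lit 100), (nat_lit 96), (nat_lit 39))⟩, (nat_lit 4516271), (nat_lit 300), (nat_lit 662), (nat_lit 62500000), (nat_lit 1031123), [(nat_lit 6250000000), (nat_lit 7968000000), (nat_lit 9842000000)], [], [(nat_lit 37262074081), (nat_lit 37689028042), (nat_lit 42632971483), (nat_lit 46103745038), (nat_lit 30795928723), (nat_lit 31081022371), (nat_lit 33984560066), (nat_lit 34731145749)], (nat_lit 1271251), (nat_lit 1271251), (nat_lit 1271251), (nat_lit 1271251), (nat_lit 0), (nat_lit 780000), [(nat_lit 1412501), (nat_lit 1271251), (nat_lit 1271251)], [(nat_lit 22), (nat_lit 58), (nat_lit 428), (nat_lit 200), (nat_lit 12)]⟩⟩) (.leaf ⟨(nat_lit 469), (nat_lit 0), (nat_lit 0), (nat_lit 531), (nat_lit 0), (nat_lit 4650),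 (nat_lit 3319), (nat_lit 5330), (nat_lit 0), (nat_lit 10908), (nat_lit 281400), [((nat_lit 360), [((nat_lit 39), (nat_lit 2), (nat_lit 469))])], ⟨(nat_lit 6), false, false, false, (nat_lit 201), (nat_lit 3162), (nat_lit 3873), [(nat_lit 1349867), (nat_lit 1361295), (nat_lit 1393396), (nat_lit 1405548), (nat_lit 1608082), (nat_lit 1605237), (nat_lit 1651611), (nat_lit 1649490)]⟩, ⟨(nat_lit 6), false, true, true, (nat_lit 294), (nat_lit 3162), (nat_lit 3873), [(nat_lit 1586313), (nat_lit 1583107), (nat_lit 1651611), (nat_lit 1649490), (nat_lit 1828269), (nat_lit 1811682), (nat_lit 1893649), (nat_lit 1878147)]⟩, (nat_lit 5366623), (nat_lit 35647425), (nat_lit 11002502), (nat_lit 20350073), (nat_lit 0), (nat_lit 0), [⟨(nat_lit 0), (nat_lit 100), (nat_lit 69), (nat_lit 96), (nat_lit 461173252)⟩], [], [⟨(nat_lit 0), (nat_lit 100), (nat_lit 98), (nat_lit 30), (nat_lit 390245973)⟩], [],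
 ⟨⟨[(nat_lit 40), (nat_lit 60), (nat_lit 80)], [(nat_lit 0), (nat_lit 398), (nat_lit 992)], [((nat_lit 0), (nat_lit 0), (nat_lit 0)), ((nat_lit 1000), (nat_lit 814), (nat_lit 310)), ((nat_lit 1000), (nat_lit 752), (nat_lit 464))], ((nat_lit 73), (nat_lit 100), (nat_lit 55))⟩, (nat_lit 243242), (nat_lit 193), (nat_lit 193), (nat_lit 0), (nat_lit 304388), [(nat_lit 1647649206), (nat_lit 2279278003), (nat_lit 2892970197)], [(nat_lit 0), (nat_lit 0), (nat_lit 0)], [(nat_lit 21600743163), (nat_lit 22810661100), (nat_lit 23700675613), (nat_lit 24965379000), (nat_lit 30857062394), (nat_lit 32113157188), (nat_lit 31257792932), (nat_lit 32258745363)], (nat_lit 1271251), (nat_lit 1271251), (nat_lit 490000), (nat_lit 1740001), (nat_lit 1271251), (nat_lit 1271251), [(nat_lit 490000), (nat_lit 780000), (nat_lit 1100000)], [(nat_lit 2), (nat_lit 44), (nat_lit 272), (nat_lit 60), (nat_lit 11)]⟩,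
 ⟨⟨[(nat_lit 80), (nat_lit 120), (nat_lit 140)], [(nat_lit 0), (nat_lit 0), (nat_lit 1164)], [((nat_lit 0), (nat_lit 0), (nat_lit 0)), ((nat_lit 0), (nat_lit 0), (nat_lit 0)), ((nat_lit 941), (nat_lit 1000), (nat_lit 576))], ((nat_lit 100), (nat_lit 95), (nat_lit 55))⟩, (nat_lit 0), (nat_lit 509), (nat_lit 509), (nat_lit 0), (nat_lit 591246), [(nat_lit 2489328000), (nat_lit 4231008000), (nat_lit 5226102000)], [], [(nat_lit 22398168064), (nat_lit 23161548452), (nat_lit 22861410368), (nat_lit 23428278398), (nat_lit 20991437524), (nat_lit 21664505461), (nat_lit 24327657844), (nat_lit 21846585895)], (nat_lit 1271251), (nat_lit 1271251), (nat_lit 490000), (nat_lit 1740001), (nat_lit 0), (nat_lit 780000), [(nat_lit 1100000), (nat_lit 1785001), (nat_lit 1271251)], [(nat_lit 17), (nat_lit 58), (nat_lit 401), (nat_lit 175), (nat_lit 12)]⟩,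
 ⟨⟨[(nat_lit 100), (nat_lit 140), (nat_lit 160)], [(nat_lit 0), (nat_lit 508), (nat_lit 1689)], [((nat_lit 0), (nat_lit 0), (nat_lit 0)), ((nat_lit 1000), (nat_lit 1000), (nat_lit 198)), ((nat_lit 811), (nat_lit 1000), (nat_lit 671))], ((nat_lit 100), (nat_lit 89), (nat_lit 55))⟩, (nat_lit 1141441), (nat_lit 300), (nat_lit 568), (nat_lit 33187500), (nat_lit 670076), [(nat_lit 3318750000), (nat_lit 5226102000), (nat_lit 6304032000)], [], [(nat_lit 23558733509), (nat_lit 23828654930), (nat_lit 25424891043), (nat_lit 25517336179), (nat_lit 19998453116), (nat_lit 20063639732), (nat_lit 21459669999), (nat_lit 21316603376)], (nat_lit 1271251), (nat_lit 1271251), (nat_lit 1271251), (nat_lit 1271251), (nat_lit 0), (nat_lit 780000), [(nat_lit 1412501), (nat_lit 1271251), (nat_lit 1271251)], [(nat_lit 23), (nat_lit 62), (nat_lit 428), (nat_lit 200), (nat_lit 11)]⟩⟩)) (.leaf ⟨(nat_lit 0), (nat_lit 0), (nat_lit 0), (nat_lit 1000), (nat_lit 0), (nat_lit 4484),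 (nat_lit 8607), (nat_lit 11610), (nat_lit 0), (nat_lit 46850133), (nat_lit 0), [], Pd.none, Pd.none, (nat_lit 0), (nat_lit 1), (nat_lit 0), (nat_lit 0), (nat_lit 0), (nat_lit 0), [⟨(nat_lit 0), (nat_lit 100), (nat_lit 69), (nat_lit 96), (nat_lit 366312774)⟩], [], [], [],
 ⟨⟨[(nat_lit 40), (nat_lit 60), (nat_lit 80)], [(nat_lit 0), (nat_lit 398), (nat_lit 992)], [((nat_lit 0), (nat_lit 0), (nat_lit 0)), ((nat_lit 1000), (nat_lit 814), (nat_lit 310)), ((nat_lit 1000), (nat_lit 752), (nat_lit 464))], ((nat_lit 73), (nat_lit 100), (nat_lit 55))⟩, (nat_lit 12636840), (nat_lit 236), (nat_lit 236), (nat_lit 0), (nat_lit 442035), [(nat_lit 2032000032), (nat_lit 4068172085), (nat_lit 4688000000)], [], [(nat_lit 21296357680), (nat_lit 22651511256), (nat_lit 23960074452), (nat_lit 25028025032), (nat_lit 30562286836), (nat_lit 31796497455), (nat_lit 31068846897), (nat_lit 32054573953)], (nat_lit 1271251), (nat_lit 1271251), (nat_lit 490000), (nat_lit 1740001),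 (nat_lit 1271251), (nat_lit 1271251), [(nat_lit 490000), (nat_lit 780000), (nat_lit 1100000)], [(nat_lit 2), (nat_lit 44), (nat_lit 272), (nat_lit 60), (nat_lit 11)]⟩,
 ⟨⟨[(nat_lit 80), (nat_lit 120), (nat_lit 140)], [(nat_lit 0), (nat_lit 0), (nat_lit 1164)], [((nat_lit 0), (nat_lit 0), (nat_lit 0)), ((nat_lit 0), (nat_lit 0), (nat_lit 0)), ((nat_lit 941), (nat_lit 1000), (nat_lit 576))], ((nat_lit 100), (nat_lit 95), (nat_lit 55))⟩, (nat_lit 5091181), (nat_lit 792), (nat_lit 792), (nat_lit 0), (nat_lit 1355091), [(nat_lit 4688000000), (nat_lit 7968000000), (nat_lit 9842000000)], [], [(nat_lit 39820858132), (nat_lit 40290598347), (nat_lit 37933906910), (nat_lit 38181483499), (nat_lit 46493871956), (nat_lit 40626871258), (nat_lit 63544984220), (nat_lit 56088585194)], (nat_lit 1271251), (nat_lit 1271251), (nat_lit 490000), (nat_lit 1740001), (nat_lit 780000), (nat_lit 3072501), [(nat_lit 1100000), (nat_lit 1785001), (nat_lit 1271251)], [(nat_lit 17),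 (nat_lit 58), (nat_lit 483), (nat_lit 250), (nat_lit 14)]⟩,
 ⟨⟨[(nat_lit 100), (nat_lit 140), (nat_lit 160)], [(nat_lit 0), (nat_lit 508), (nat_lit 1689)], [((nat_lit 0), (nat_lit 0), (nat_lit 0)), ((nat_lit 1000), (nat_lit 1000), (nat_lit 198)), ((nat_lit 811), (nat_lit 1000), (nat_lit 671))], ((nat_lit 100), (nat_lit 89), (nat_lit 55))⟩, (nat_lit 5187668), (nat_lit 300), (nat_lit 656), (nat_lit 62500000), (nat_lit 1038532), [(nat_lit 6250000000), (nat_lit 9842000000), (nat_lit 11872000000)], [], [(nat_lit 33117910415), (nat_lit 33385502480), (nat_lit 37371430482), (nat_lit 37657380845), (nat_lit 34861341090), (nat_lit 36533356900), (nat_lit 44329407442), (nat_lit 44973559370)], (nat_lit 1271251), (nat_lit 1271251), (nat_lit 1271251), (nat_lit 1271251), (nat_lit 780000), (nat_lit 3072501), [(nat_lit 1412501), (nat_lit 1271251), (nat_lit 1271251)], [(nat_lit 23), (nat_lit 62), (nat_lit 538), (nat_lit 300), (nat_lit 13)]⟩⟩)) (.spl (nat_lit 0) (nat_lit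 350) (.leaf ⟨(nat_lit 0), (nat_lit 0), (nat_lit 0), (nat_lit 1000), (nat_lit 15990), (nat_lit 5326), (nat_lit 7169), (nat_lit 10517), (nat_lit 0), (nat_lit 5438936300760), (nat_lit 0), [], Pd.none, Pd.none, (nat_lit 0), (nat_lit 1), (nat_lit 0), (nat_lit 0), (nat_lit 0), (nat_lit 0), [⟨(nat_lit 0), (nat_lit 100), (nat_lit 72), (nat_lit 94), (nat_lit 834657608)⟩], [], [⟨(nat_lit 0), (nat_lit 100), (nat_lit 99), (nat_lit 55), (nat_lit 284664169)⟩], [],
 ⟨⟨[(nat_lit 40), (nat_lit 80), (nat_lit 120)], [(nat_lit 0), (nat_lit 795), (nat_lit 2800)], [((nat_lit 0), (nat_lit 0), (nat_lit 0)), ((nat_lit 1000), (nat_lit 814), (nat_lit 310)), ((nat_lit 1000), (nat_lit 719), (nat_lit 783))], ((nat_lit 71), (nat_lit 100), (nat_lit 71))⟩, (nat_lit 2431216), (nat_lit 184), (nat_lit 184), (nat_lit 0), (nat_lit 164005), [(nat_lit 2207514179), (nat_lit 4688000011), (nat_lit 7968000000)], [], [(nat_lit 21668732100), (nat_lit 22422695665), (nat_lit 23774163028), (nat_lit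 24571469134), (nat_lit 32057473704), (nat_lit 32730080443), (nat_lit 32027235820), (nat_lit 32558713100)], (nat_lit 1271251), (nat_lit 1271251), (nat_lit 490000), (nat_lit 1740001), (nat_lit 1271251), (nat_lit 1271251), [(nat_lit 490000), (nat_lit 1100000), (nat_lit 1785001)], [(nat_lit 4), (nat_lit 51), (nat_lit 272), (nat_lit 60), (nat_lit 8)]⟩,
 ⟨⟨[(nat_lit 80), (nat_lit 120), (nat_lit 160)], [(nat_lit 0), (nat_lit 0), (nat_lit 2132)], [((nat_lit 0), (nat_lit 0), (nat_lit 0)), ((nat_lit 0), (nat_lit 0), (nat_lit 0)), ((nat_lit 858), (nat_lit 1000), (nat_lit 713))], ((nat_lit 100), (nat_lit 85), (nat_lit 73))⟩, (nat_lit 0), (nat_lit 506), (nat_lit 506), (nat_lit 0), (nat_lit 401925), [(nat_lit 4688000000), (nat_lit 7968000000), (nat_lit 11872000000)], [], [(nat_lit 43582817388), (nat_lit 44908903046), (nat_lit 43658037696), (nat_lit 44627506716), (nat_lit 52415034064), (nat_lit 46204400322), (nat_lit 68717482732), (nat_lit 62799415880)], (nat_lit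 1271251), (nat_lit 1271251), (nat_lit 490000), (nat_lit 1740001), (nat_lit 0), (nat_lit 2825001), [(nat_lit 1100000), (nat_lit 1785001), (nat_lit 1271251)], [(nat_lit 18), (nat_lit 59), (nat_lit 483), (nat_lit 250), (nat_lit 13)]⟩,
 ⟨⟨[(nat_lit 100), (nat_lit 140), (nat_lit 180)], [(nat_lit 0), (nat_lit 508), (nat_lit 2854)], [((nat_lit 0), (nat_lit 0), (nat_lit 0)), ((nat_lit 1000), (nat_lit 1000), (nat_lit 198)), ((nat_lit 777), (nat_lit 1000), (nat_lit 712))], ((nat_lit 100), (nat_lit 77), (nat_lit 72))⟩, (nat_lit 637934), (nat_lit 300), (nat_lit 443), (nat_lit 67985211), (nat_lit 286416), [(nat_lit 6250000000), (nat_lit 9842000000), (nat_lit 14058000000)], [], [(nat_lit 49795284280), (nat_lit 50704699598), (nat_lit 54933964210), (nat_lit 54873868298), (nat_lit 43153512050), (nat_lit 42746209634), (nat_lit 44429194157), (nat_lit 44111986870)], (nat_lit 1271251), (nat_lit 1271251), (nat_lit 1271251), (nat_lit 1271251), (nat_lit 0), (nat_lit 2825001),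 [(nat_lit 1412501), (nat_lit 1271251), (nat_lit 1271251)], [(nat_lit 24), (nat_lit 63), (nat_lit 538), (nat_lit 300), (nat_lit 12)]⟩⟩) (.trZ (nat_lit 0) (nat_lit 1) (nat_lit 3) (nat_lit 100) (nat_lit 68) (nat_lit 89) (nat_lit 100) (.leaf ⟨(nat_lit 0), (nat_lit 0), (nat_lit 0), (nat_lit 1000), (nat_lit 0), (nat_lit 5568), (nat_lit 8329), (nat_lit 10376), (nat_lit 0), (nat_lit 6593131127345), (nat_lit 0), [], Pd.none, Pd.none, (nat_lit 0), (nat_lit 1), (nat_lit 0), (nat_lit 0), (nat_lit 0), (nat_lit 0), [⟨(nat_lit 0), (nat_lit 100), (nat_lit 66), (nat_lit 97), (nat_lit 881739203)⟩], [], [⟨(nat_lit 0), (nat_lit 100), (nat_lit 99), (nat_lit 55), (nat_lit 213117844)⟩], [],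
 ⟨⟨[(nat_lit 40), (nat_lit 80), (nat_lit 100)], [(nat_lit 0), (nat_lit 1195), (nat_lit 2166)], [((nat_lit 0), (nat_lit 0), (nat_lit 0)), ((nat_lit 1000), (nat_lit 720), (nat_lit 465)), ((nat_lit 1000), (nat_lit 662), (nat_lit 740))], ((nat_lit 66), (nat_lit 100), (nat_lit 72))⟩, (nat_lit 1515847), (nat_lit 172), (nat_lit 172), (nat_lit 0), (nat_lit 195987), [(nat_lit 2335936723), (nat_lit 4714913810), (nat_lit 6250000000)], [], [(nat_lit 22808184231), (nat_lit 23624242928), (nat_lit 24695121212), (nat_lit 25513186320), (nat_lit 32879291580), (nat_lit 33551988284), (nat_lit 32845262562), (nat_lit 33387837856)], (nat_lit 1271251), (nat_lit 1271251), (nat_lit 631250), (nat_lit 1751251), (nat_lit 1271251), (nat_lit 1271251), [(nat_lit 490000), (nat_lit 1100000), (nat_lit 1442501)], [(nat_lit 3), (nat_lit 50), (nat_lit 272), (nat_lit 60), (nat_lit 9)]⟩,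
 ⟨⟨[(nat_lit 80), (nat_lit 120), (nat_lit 160)], [(nat_lit 0), (nat_lit 0), (nat_lit 2132)], [((nat_lit 0), (nat_lit 0), (nat_lit 0)), ((nat_lit 0), (nat_lit 0), (nat_lit 0)), ((nat_lit 858), (nat_lit 1000), (nat_lit 713))], ((nat_lit 100), (nat_lit 85), (nat_lit 73))⟩, (nat_lit 0), (nat_lit 538), (nat_lit 538), (nat_lit 0), (nat_lit 507311), [(nat_lit 4688000000), (nat_lit 7968000000), (nat_lit 11872000000)], [], [(nat_lit 40977860402), (nat_lit 42626511541), (nat_lit 41139387168), (nat_lit 42350616956), (nat_lit 54515986713), (nat_lit 47343984761), (nat_lit 71403960212), (nat_lit 64528304080)], (nat_lit 1271251), (nat_lit 1271251), (nat_lit 631250), (nat_lit 1751251), (nat_lit 0), (nat_lit 2825001), [(nat_lit 1100000), (nat_lit 1785001), (nat_lit 1271251)], [(nat_lit 18), (nat_lit 59), (nat_lit 483), (nat_lit 250), (nat_lit 13)]⟩,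
 ⟨⟨[(nat_lit 100), (nat_lit 140), (nat_lit 180)], [(nat_lit 0), (nat_lit 508), (nat_lit 2854)], [((nat_lit 0), (nat_lit 0), (nat_lit 0)), ((nat_lit 1000), (nat_lit 1000), (nat_lit 198)), ((nat_lit 777), (nat_lit 1000), (nat_lit 712))], ((nat_lit 100), (nat_lit 77), (nat_lit 72))⟩, (nat_lit 637933), (nat_lit 300), (nat_lit 477), (nat_lit 67985218), (nat_lit 381375), [(nat_lit 6250000000), (nat_lit 9842000000), (nat_lit 14058000000)], [], [(nat_lit 49849577440), (nat_lit 50764314944), (nat_lit 54965918264), (nat_lit 54922260044), (nat_lit 43393388000), (nat_lit 43005663152), (nat_lit 44490522488), (nat_lit 44152636040)], (nat_lit 1271251), (nat_lit 1271251), (nat_lit 1271251), (nat_lit 1271251), (nat_lit 0), (nat_lit 2825001), [(nat_lit 1412501), (nat_lit 1271251), (nat_lit 1271251)], [(nat_lit 24), (nat_lit 63), (nat_lit 538), (nat_lit 300), (nat_lit 12)]⟩⟩))))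
noncomputable def c8_82 : Tr Lf :=
 (.spl (nat_lit 5) (nat_lit 120) (.trX (nat_lit 4) (nat_lit 3) (nat_lit 5) (nat_lit 100) (nat_lit 59) (nat_lit 94) (nat_lit 370) (.spl (nat_lit 6) (nat_lit 32) (.leaf ⟨(nat_lit 0), (nat_lit 321), (nat_lit 0), (nat_lit 679), (nat_lit 0), (nat_lit 4548), (nat_lit 9391), (nat_lit 7871), (nat_lit 0), (nat_lit 380299), (nat_lit 0), [], Pd.none, Pd.none, (nat_lit 0), (nat_lit 1), (nat_lit 0), (nat_lit 0), (nat_lit 5), (nat_lit 0), [], [], [⟨(nat_lit 0), (nat_lit 100), (nat_lit 99), (nat_lit 55), (nat_lit 185503441)⟩, ⟨(nat_lit 0), (nat_lit 100), (nat_lit 98), (nat_lit 30), (nat_lit 554071249)⟩], [],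
 ⟨⟨[(nat_lit 40), (nat_lit 60), (nat_lit 80)], [(nat_lit 0), (nat_lit 398), (nat_lit 992)], [((nat_lit 0), (nat_lit 0), (nat_lit 0)), ((nat_lit 1000), (nat_lit 814), (nat_lit 310)), ((nat_lit 1000), (nat_lit 752), (nat_lit 464))], ((nat_lit 73), (nat_lit 100), (nat_lit 55))⟩, (nat_lit 8270807), (nat_lit 216), (nat_lit 216), (nat_lit 0), (nat_lit 442035), [(nat_lit 2032000038), (nat_lit 3733699548), (nat_lit 4688000000)], [], [(nat_lit 21467733978), (nat_lit 22766000284), (nat_lit 30359519791), (nat_lit 31547434913), (nat_lit 29992935698), (nat_lit 31047397091), (nat_lit 35418609368), (nat_lit 36145982902)], (nat_lit 1271251), (nat_lit 1271251), (nat_lit 1271251), (nat_lit 1271251), (nat_lit 780000), (nat_lit 2826876), [(nat_lit 490000), (nat_lit 780000), (nat_lit 1100000)], [(nat_lit 2), (nat_lit 44), (nat_lit 317), (nat_lit 100), (nat_lit 13)]⟩,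
 ⟨⟨[(nat_lit 80), (nat_lit 120), (nat_lit 140)], [(nat_lit 0), (nat_lit 0), (nat_lit 1164)], [((nat_lit 0), (nat_lit 0), (nat_lit 0)), ((nat_lit 0), (nat_lit 0), (nat_lit 0)), ((nat_lit 941), (nat_lit 1000), (nat_lit 576))], ((nat_lit 100), (nat_lit 95), (nat_lit 55))⟩, (nat_lit 5618237), (nat_lit 606), (nat_lit 606), (nat_lit 0), (nat_lit 907961), [(nat_lit 4688000000), (nat_lit 7968000000), (nat_lit 9842000000)], [], [(nat_lit 34484252140), (nat_lit 35554260370), (nat_lit 40714532478), (nat_lit 43494370582), (nat_lit 29301774262), (nat_lit 30207222406), (nat_lit 33573499482), (nat_lit 33961843846)], (nat_lit 1271251), (nat_lit 1271251), (nat_lit 1271251), (nat_lit 1271251), (nat_lit 0), (nat_lit 780000), [(nat_lit 1100000), (nat_lit 1785001), (nat_lit 1271251)], [(nat_lit 17), (nat_lit 58), (nat_lit 428), (nat_lit 200), (nat_lit 12)]⟩,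
 ⟨⟨[(nat_lit 100), (nat_lit 140), (nat_lit 160)], [(nat_lit 0), (nat_lit 508), (nat_lit 1689)], [((nat_lit 0), (nat_lit 0), (nat_lit 0)), ((nat_lit 1000), (nat_lit 1000), (nat_lit 198)), ((nat_lit 811), (nat_lit 1000), (nat_lit 671))], ((nat_lit 100), (nat_lit 89), (nat_lit 55))⟩, (nat_lit 2527277), (nat_lit 300), (nat_lit 802), (nat_lit 42437500), (nat_lit 1038532), [(nat_lit 4243750000), (nat_lit 6682718000), (nat_lit 8061088000)], [], [(nat_lit 29997253777), (nat_lit 30147108338), (nat_lit 31087281788), (nat_lit 31471162960), (nat_lit 24603468683), (nat_lit 24464421415), (nat_lit 34030583928), (nat_lit 24949395194)], (nat_lit 1271251), (nat_lit 1271251), (nat_lit 780000), (nat_lit 2826876), (nat_lit 0), (nat_lit 780000), [(nat_lit 1412501), (nat_lit 1271251), (nat_lit 1271251)], [(nat_lit 23), (nat_lit 62), (nat_lit 428), (nat_lit 200), (nat_lit 11)]⟩⟩) (.leaf ⟨(nat_lit 0), (nat_lit 489), (nat_lit 0), (nat_lit 511), (nat_lit 2505), (nat_lit 4835),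 (nat_lit 8361), (nat_lit 7642), (nat_lit 0), (nat_lit 269828), (nat_lit 0), [], Pd.none, Pd.none, (nat_lit 0), (nat_lit 1), (nat_lit 0), (nat_lit 0), (nat_lit 5), (nat_lit 0), [], [], [⟨(nat_lit 0), (nat_lit 100), (nat_lit 99), (nat_lit 55), (nat_lit 512743637)⟩], [],
 ⟨⟨[(nat_lit 40), (nat_lit 80), (nat_lit 120)], [(nat_lit 0), (nat_lit 795), (nat_lit 2800)], [((nat_lit 0), (nat_lit 0), (nat_lit 0)), ((nat_lit 1000), (nat_lit 814), (nat_lit 310)), ((nat_lit 1000), (nat_lit 719), (nat_lit 783))], ((nat_lit 71), (nat_lit 100), (nat_lit 71))⟩, (nat_lit 2476760), (nat_lit 182), (nat_lit 182), (nat_lit 0), (nat_lit 197973), [(nat_lit 2032000366), (nat_lit 4688000154), (nat_lit 7968000000)], [], [(nat_lit 22294614070), (nat_lit 23428178834), (nat_lit 30800279539), (nat_lit 32023578604), (nat_lit 30285598029), (nat_lit 31369457227), (nat_lit 35806972409), (nat_lit 36548076136)], (nat_lit 1271251), (nat_lit 1271251), (nat_lit 1271251), (nat_lit 1271251),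 (nat_lit 780000), (nat_lit 2826876), [(nat_lit 490000), (nat_lit 1100000), (nat_lit 1785001)], [(nat_lit 4), (nat_lit 51), (nat_lit 317), (nat_lit 100), (nat_lit 9)]⟩,
 ⟨⟨[(nat_lit 80), (nat_lit 120), (nat_lit 160)], [(nat_lit 0), (nat_lit 0), (nat_lit 2132)], [((nat_lit 0), (nat_lit 0), (nat_lit 0)), ((nat_lit 0), (nat_lit 0), (nat_lit 0)), ((nat_lit 858), (nat_lit 1000), (nat_lit 713))], ((nat_lit 100), (nat_lit 85), (nat_lit 73))⟩, (nat_lit 3070147), (nat_lit 407), (nat_lit 407), (nat_lit 0), (nat_lit 350933), [(nat_lit 4688000000), (nat_lit 7968000000), (nat_lit 11872000000)], [], [(nat_lit 31530806644), (nat_lit 33338068026), (nat_lit 39466885706), (nat_lit 40879919522), (nat_lit 26141195270), (nat_lit 27738590214), (nat_lit 33481110288), (nat_lit 34647291838)], (nat_lit 1271251), (nat_lit 1271251), (nat_lit 1271251), (nat_lit 1271251), (nat_lit 0), (nat_lit 780000), [(nat_lit 1100000), (nat_lit 1785001), (nat_lit 1271251)], [(nat_lit 18), (nat_lit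 59), (nat_lit 428), (nat_lit 200), (nat_lit 11)]⟩,
 ⟨⟨[(nat_lit 100), (nat_lit 140), (nat_lit 180)], [(nat_lit 0), (nat_lit 508), (nat_lit 2854)], [((nat_lit 0), (nat_lit 0), (nat_lit 0)), ((nat_lit 1000), (nat_lit 1000), (nat_lit 198)), ((nat_lit 777), (nat_lit 1000), (nat_lit 712))], ((nat_lit 100), (nat_lit 77), (nat_lit 72))⟩, (nat_lit 325984), (nat_lit 300), (nat_lit 564), (nat_lit 34740444), (nat_lit 381375), [(nat_lit 3193750000), (nat_lit 5029262000), (nat_lit 7183638000)], [], [(nat_lit 26160055265), (nat_lit 26894057321), (nat_lit 28004364475), (nat_lit 28729983520), (nat_lit 20009826342), (nat_lit 20268718798), (nat_lit 26904250605), (nat_lit 21217037291)], (nat_lit 1271251), (nat_lit 1271251), (nat_lit 780000), (nat_lit 2826876), (nat_lit 0), (nat_lit 780000), [(nat_lit 1412501), (nat_lit 1271251), (nat_lit 1271251)], [(nat_lit 24), (nat_lit 63), (nat_lit 428), (nat_lit 200), (nat_lit 10)]⟩⟩))) (.leaf ⟨(nat_lit 0), (nat_lit 0), (nat_lit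 0), (nat_lit 1000), (nat_lit 0), (nat_lit 4548), (nat_lit 8484), (nat_lit 10167), (nat_lit 0), (nat_lit 4524949), (nat_lit 0), [], Pd.none, Pd.none, (nat_lit 0), (nat_lit 1), (nat_lit 0), (nat_lit 0), (nat_lit 0), (nat_lit 0), [], [⟨(nat_lit 0), (nat_lit 100), (nat_lit 68), (nat_lit 92), (nat_lit 101842948)⟩], [], [],
 ⟨⟨[(nat_lit 40), (nat_lit 80), (nat_lit 120)], [(nat_lit 0), (nat_lit 795), (nat_lit 2800)], [((nat_lit 0), (nat_lit 0), (nat_lit 0)), ((nat_lit 1000), (nat_lit 814), (nat_lit 310)), ((nat_lit 1000), (nat_lit 719), (nat_lit 783))], ((nat_lit 71), (nat_lit 100), (nat_lit 71))⟩, (nat_lit 6598870), (nat_lit 280), (nat_lit 280), (nat_lit 0), (nat_lit 450277), [(nat_lit 2032000018), (nat_lit 5678875415), (nat_lit 7968000000)], [], [(nat_lit 21467733878), (nat_lit 22766000284), (nat_lit 30359519791), (nat_lit 31547434913), (nat_lit 31141693561), (nat_lit 32133290641), (nat_lit 36208749060), (nat_lit 36894278489)], (nat_lit 1271251), (nat_lit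 1271251), (nat_lit 1271251), (nat_lit 1271251), (nat_lit 780000), (nat_lit 2990626), [(nat_lit 490000), (nat_lit 1100000), (nat_lit 1785001)], [(nat_lit 4), (nat_lit 51), (nat_lit 317), (nat_lit 100), (nat_lit 9)]⟩,
 ⟨⟨[(nat_lit 80), (nat_lit 120), (nat_lit 160)], [(nat_lit 0), (nat_lit 0), (nat_lit 2132)], [((nat_lit 0), (nat_lit 0), (nat_lit 0)), ((nat_lit 0), (nat_lit 0), (nat_lit 0)), ((nat_lit 858), (nat_lit 1000), (nat_lit 713))], ((nat_lit 100), (nat_lit 85), (nat_lit 73))⟩, (nat_lit 4205795), (nat_lit 806), (nat_lit 806), (nat_lit 0), (nat_lit 1371905), [(nat_lit 4688000000), (nat_lit 7968000000), (nat_lit 11872000000)], [], [(nat_lit 35975801624), (nat_lit 36504278748), (nat_lit 38651033624), (nat_lit 38824703572), (nat_lit 45520486640), (nat_lit 38170644728), (nat_lit 39679574066), (nat_lit 40571082278)], (nat_lit 1271251), (nat_lit 1271251), (nat_lit 1271251), (nat_lit 1271251), (nat_lit 780000), (nat_lit 3072501), [(nat_lit 1100000),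 (nat_lit 1785001), (nat_lit 1271251)], [(nat_lit 18), (nat_lit 59), (nat_lit 538), (nat_lit 300), (nat_lit 13)]⟩,
 ⟨⟨[(nat_lit 100), (nat_lit 140), (nat_lit 180)], [(nat_lit 0), (nat_lit 508), (nat_lit 2854)], [((nat_lit 0), (nat_lit 0), (nat_lit 0)), ((nat_lit 1000), (nat_lit 1000), (nat_lit 198)), ((nat_lit 777), (nat_lit 1000), (nat_lit 712))], ((nat_lit 100), (nat_lit 77), (nat_lit 72))⟩, (nat_lit 2539789), (nat_lit 300), (nat_lit 782), (nat_lit 62500000), (nat_lit 1059035), [(nat_lit 6250000000), (nat_lit 9842000000), (nat_lit 14058000000)], [], [(nat_lit 48880793341), (nat_lit 48248687655), (nat_lit 45496944029), (nat_lit 44783762996), (nat_lit 74868083886), (nat_lit 61021799091), (nat_lit 42905320368), (nat_lit 42941321864)], (nat_lit 1271251), (nat_lit 1271251), (nat_lit 1271251), (nat_lit 1271251), (nat_lit 780000), (nat_lit 3072501), [(nat_lit 1412501), (nat_lit 1271251), (nat_lit 1271251)], [(nat_lit 24), (nat_lit 63), (nat_lit 538), (nat_lit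 300), (nat_lit 12)]⟩⟩))
noncomputable def c8_83 : Tr Lf :=
 (.trZ (nat_lit 0) (nat_lit 1) (nat_lit 3) (nat_lit 99) (nat_lit 77) (nat_lit 100) (nat_lit 120) (.trZ (nat_lit 1) (nat_lit 2) (nat_lit 5) (nat_lit 100) (nat_lit 92) (nat_lit 49) (nat_lit 20) (.stt (nat_lit 3) (.leaf ⟨(nat_lit 0), (nat_lit 0), (nat_lit 0), (nat_lit 1000), (nat_lit 0), (nat_lit 7985), (nat_lit 7807), (nat_lit 8908), (nat_lit 0), (nat_lit 4967331085577), (nat_lit 0), [], Pd.none, Pd.none, (nat_lit 0), (nat_lit 1), (nat_lit 0), (nat_lit 0), (nat_lit 0), (nat_lit 0), [⟨(nat_lit 0), (nat_lit 99), (nat_lit 77), (nat_lit 100), (nat_lit 512523677)⟩], [⟨(nat_lit 0), (nat_lit 100), (nat_lit 71), (nat_lit 100), (nat_lit 153690320)⟩], [⟨(nat_lit 0), (nat_lit 100), (nat_lit 92), (nat_lit 82), (nat_lit 348390187)⟩], [],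
 ⟨⟨[(nat_lit 40), (nat_lit 80), (nat_lit 120)], [(nat_lit 0), (nat_lit 795), (nat_lit 2800)], [((nat_lit 0), (nat_lit 0), (nat_lit 0)), ((nat_lit 1000), (nat_lit 814), (nat_lit 310)), ((nat_lit 1000), (nat_lit 719), (nat_lit 783))], ((nat_lit 71), (nat_lit 100), (nat_lit 71))⟩, (nat_lit 1887341), (nat_lit 300), (nat_lit 367), (nat_lit 50800001), (nat_lit 619586), [(nat_lit 2032000004), (nat_lit 4688000015), (nat_lit 7968000000)], [], [(nat_lit 31294814345), (nat_lit 29574244063), (nat_lit 36602485878), (nat_lit 38150637435), (nat_lit 36602485878), (nat_lit 38150637435), (nat_lit 45243156878), (nat_lit 42792655570)], (nat_lit 1271251), (nat_lit 1271251), (nat_lit 780000), (nat_lit 3072501), (nat_lit 780000), (nat_lit 3072501), [(nat_lit 490000), (nat_lit 1100000), (nat_lit 1785001)], [(nat_lit 4), (nat_lit 51), (nat_lit 428), (nat_lit 200), (nat_lit 13)]⟩,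
 ⟨⟨[(nat_lit 60), (nat_lit 100), (nat_lit 140)], [(nat_lit 0), (nat_lit 0), (nat_lit 2047)], [((nat_lit 0), (nat_lit 0), (nat_lit 0)), ((nat_lit 0), (nat_lit 0), (nat_lit 0)), ((nat_lit 1000), (nat_lit 993), (nat_lit 781))], ((nat_lit 99), (nat_lit 100), (nat_lit 77))⟩, (nat_lit 2135364), (nat_lit 860), (nat_lit 860), (nat_lit 0), (nat_lit 1403573), [(nat_lit 3282000000), (nat_lit 6250000000), (nat_lit 9842000000)], [], [(nat_lit 37458526135), (nat_lit 38232336695), (nat_lit 39692953250), (nat_lit 41301784839), (nat_lit 51469024583), (nat_lit 44443013442), (nat_lit 40179301032), (nat_lit 41015079688)], (nat_lit 1271251), (nat_lit 1271251), (nat_lit 1271251), (nat_lit 1271251), (nat_lit 111251), (nat_lit 2866250), [(nat_lit 780000), (nat_lit 1435001), (nat_lit 1271251)], [(nat_lit 11), (nat_lit 55), (nat_lit 428), (nat_lit 200), (nat_lit 12)]⟩,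
 ⟨⟨[(nat_lit 100), (nat_lit 140), (nat_lit 180)], [(nat_lit 0), (nat_lit 508), (nat_lit 2854)], [((nat_lit 0), (nat_lit 0), (nat_lit 0)), ((nat_lit 1000), (nat_lit 1000), (nat_lit 198)), ((nat_lit 777), (nat_lit 1000), (nat_lit 712))], ((nat_lit 100), (nat_lit 77), (nat_lit 72))⟩, (nat_lit 5396226), (nat_lit 280), (nat_lit 280), (nat_lit 0), (nat_lit 0), [(nat_lit 6250000000), (nat_lit 9842000000), (nat_lit 14058000000)], [], [(nat_lit 22234438939), (nat_lit 29294204650), (nat_lit 38706832806), (nat_lit 44089711716), (nat_lit 32645287866), (nat_lit 36437091696), (nat_lit 41054686220), (nat_lit 42593675872)], (nat_lit 0), (nat_lit 0), (nat_lit 0), (nat_lit 0), (nat_lit 0), (nat_lit 0), [], [(nat_lit 24), (nat_lit 63), (nat_lit 538), (nat_lit 300), (nat_lit 12)]⟩⟩) (.spl (nat_lit 6) (nat_lit 32) (.spl (nat_lit 6) (nat_lit 16) (.spl (nat_lit 0) (nat_lit 350) (.spl (nat_lit 0) (nat_lit 345) (.leaf ⟨(nat_lit 0), (nat_lit 408), (nat_lit 0), (nat_lit 592),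 (nat_lit 0), (nat_lit 4987), (nat_lit 5144), (nat_lit 4732), (nat_lit 0), (nat_lit 102676), (nat_lit 0), [], Pd.none, Pd.none, (nat_lit 0), (nat_lit 1), (nat_lit 0), (nat_lit 0), (nat_lit 5), (nat_lit 0), [⟨(nat_lit 0), (nat_lit 99), (nat_lit 77), (nat_lit 100), (nat_lit 305643517)⟩], [], [], [],
 ⟨⟨[(nat_lit 40), (nat_lit 60), (nat_lit 80)], [(nat_lit 0), (nat_lit 398), (nat_lit 992)], [((nat_lit 0), (nat_lit 0), (nat_lit 0)), ((nat_lit 1000), (nat_lit 814), (nat_lit 310)), ((nat_lit 1000), (nat_lit 752), (nat_lit 464))], ((nat_lit 77), (nat_lit 100), (nat_lit 42))⟩, (nat_lit 10995301), (nat_lit 173), (nat_lit 173), (nat_lit 0), (nat_lit 277535), [(nat_lit 2032000022), (nat_lit 3282000026), (nat_lit 4688000000)], [], [(nat_lit 20764314027), (nat_lit 20128566568), (nat_lit 31762090461), (nat_lit 32061864440), (nat_lit 31762090461), (nat_lit 32061864440), (nat_lit 37631090951), (nat_lit 37795911487)], (nat_lit 1271251), (nat_lit 1271251), (nat_lit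 780000), (nat_lit 3072501), (nat_lit 780000), (nat_lit 3072501), [(nat_lit 490000), (nat_lit 780000), (nat_lit 1100000)], [(nat_lit 2), (nat_lit 44), (nat_lit 428), (nat_lit 200), (nat_lit 19)]⟩,
 ⟨⟨[(nat_lit 60), (nat_lit 80), (nat_lit 100)], [(nat_lit 0), (nat_lit 0), (nat_lit 534)], [((nat_lit 0), (nat_lit 0), (nat_lit 0)), ((nat_lit 0), (nat_lit 0), (nat_lit 0)), ((nat_lit 1000), (nat_lit 917), (nat_lit 393))], ((nat_lit 92), (nat_lit 100), (nat_lit 39))⟩, (nat_lit 0), (nat_lit 430), (nat_lit 430), (nat_lit 0), (nat_lit 796017), [(nat_lit 3282000000), (nat_lit 4688000000), (nat_lit 6250000000)], [], [(nat_lit 34598768920), (nat_lit 35193334220), (nat_lit 40792125068), (nat_lit 41626831248), (nat_lit 52515501680), (nat_lit 48002505872), (nat_lit 42182105072), (nat_lit 42527847488)], (nat_lit 1271251), (nat_lit 1271251), (nat_lit 1271251), (nat_lit 1271251), (nat_lit 111251), (nat_lit 2866250), [(nat_lit 780000), (nat_lit 1100000), (nat_lit 1442501)],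 [(nat_lit 9), (nat_lit 50), (nat_lit 428), (nat_lit 200), (nat_lit 17)]⟩,
 ⟨⟨[(nat_lit 100), (nat_lit 120), (nat_lit 140)], [(nat_lit 0), (nat_lit 254), (nat_lit 778)], [((nat_lit 0), (nat_lit 0), (nat_lit 0)), ((nat_lit 1000), (nat_lit 1000), (nat_lit 198)), ((nat_lit 960), (nat_lit 1000), (nat_lit 392))], ((nat_lit 100), (nat_lit 96), (nat_lit 39))⟩, (nat_lit 1090772), (nat_lit 300), (nat_lit 744), (nat_lit 37000000), (nat_lit 1127841), [(nat_lit 3700000000), (nat_lit 4717056000), (nat_lit 5826464000)], [], [(nat_lit 29168487243), (nat_lit 29482186005), (nat_lit 29234139017), (nat_lit 28963777146), (nat_lit 36065571880), (nat_lit 26697218457), (nat_lit 25614964364), (nat_lit 24962534744)], (nat_lit 1271251), (nat_lit 1271251), (nat_lit 1271251), (nat_lit 1271251), (nat_lit 111251), (nat_lit 2866250), [(nat_lit 1412501), (nat_lit 1271251), (nat_lit 1271251)], [(nat_lit 22), (nat_lit 58), (nat_lit 538), (nat_lit 300), (nat_lit 16)]⟩⟩) (.trZ (nat_lit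 0) (nat_lit 1) (nat_lit 3) (nat_lit 98) (nat_lit 73) (nat_lit 100) (nat_lit 130) (.leaf ⟨(nat_lit 0), (nat_lit 413), (nat_lit 0), (nat_lit 587), (nat_lit 0), (nat_lit 4564), (nat_lit 5433), (nat_lit 4796), (nat_lit 0), (nat_lit 6967), (nat_lit 0), [], Pd.none, Pd.none, (nat_lit 0), (nat_lit 1), (nat_lit 0), (nat_lit 0), (nat_lit 5), (nat_lit 0), [⟨(nat_lit 0), (nat_lit 89), (nat_lit 69), (nat_lit 100), (nat_lit 328964481)⟩], [], [], [],
 ⟨⟨[(nat_lit 40), (nat_lit 60), (nat_lit 80)], [(nat_lit 0), (nat_lit 499), (nat_lit 1089)], [((nat_lit 0), (nat_lit 0), (nat_lit 0)), ((nat_lit 1000), (nat_lit 767), (nat_lit 387)), ((nat_lit 1000), (nat_lit 738), (nat_lit 461))], ((nat_lit 75), (nat_lit 100), (nat_lit 43))⟩, (nat_lit 7841021), (nat_lit 175), (nat_lit 175), (nat_lit 0), (nat_lit 279212), [(nat_lit 2032000002), (nat_lit 3282000002), (nat_lit 4688000000)], [], [(nat_lit 19465681782), (nat_lit 18943217015), (nat_lit 31366600966), (nat_lit 31654062525),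 (nat_lit 31274740906), (nat_lit 31558940695), (nat_lit 37334182691), (nat_lit 37332675370)], (nat_lit 1271251), (nat_lit 1271251), (nat_lit 857188), (nat_lit 3093126), (nat_lit 780000), (nat_lit 3072501), [(nat_lit 490000), (nat_lit 780000), (nat_lit 1100000)], [(nat_lit 2), (nat_lit 44), (nat_lit 428), (nat_lit 200), (nat_lit 19)]⟩,
 ⟨⟨[(nat_lit 60), (nat_lit 80), (nat_lit 100)], [(nat_lit 0), (nat_lit 0), (nat_lit 534)], [((nat_lit 0), (nat_lit 0), (nat_lit 0)), ((nat_lit 0), (nat_lit 0), (nat_lit 0)), ((nat_lit 1000), (nat_lit 917), (nat_lit 393))], ((nat_lit 92), (nat_lit 100), (nat_lit 39))⟩, (nat_lit 3141522), (nat_lit 441), (nat_lit 441), (nat_lit 0), (nat_lit 829268), [(nat_lit 3282000000), (nat_lit 4688000000), (nat_lit 6250000000)], [], [(nat_lit 33455218575), (nat_lit 34021768333), (nat_lit 39248408757), (nat_lit 40031874096), (nat_lit 49943520573), (nat_lit 45191935583), (nat_lit 40372410206), (nat_lit 40706362108)], (nat_lit 1271251),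 (nat_lit 1271251), (nat_lit 1271251), (nat_lit 1271251), (nat_lit 111251), (nat_lit 2866250), [(nat_lit 780000), (nat_lit 1100000), (nat_lit 1442501)], [(nat_lit 9), (nat_lit 50), (nat_lit 428), (nat_lit 200), (nat_lit 16)]⟩,
 ⟨⟨[(nat_lit 100), (nat_lit 120), (nat_lit 140)], [(nat_lit 0), (nat_lit 254), (nat_lit 778)], [((nat_lit 0), (nat_lit 0), (nat_lit 0)), ((nat_lit 1000), (nat_lit 1000), (nat_lit 198)), ((nat_lit 960), (nat_lit 1000), (nat_lit 392))], ((nat_lit 100), (nat_lit 96), (nat_lit 39))⟩, (nat_lit 1081559), (nat_lit 300), (nat_lit 768), (nat_lit 36687501), (nat_lit 1185370), [(nat_lit 3668750000), (nat_lit 4677216000), (nat_lit 5777254000)], [], [(nat_lit 28651517835), (nat_lit 28884069799), (nat_lit 28518611158), (nat_lit 28190992119), (nat_lit 35987366456), (nat_lit 25905220758), (nat_lit 24738516759), (nat_lit 24381665000)], (nat_lit 1271251), (nat_lit 1271251), (nat_lit 1271251), (nat_lit 1271251), (nat_lit 111251), (nat_lit 2866250),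 [(nat_lit 1412501), (nat_lit 1271251), (nat_lit 1271251)], [(nat_lit 22), (nat_lit 58), (nat_lit 538), (nat_lit 300), (nat_lit 16)]⟩⟩))) (.trZ (nat_lit 0) (nat_lit 1) (nat_lit 3) (nat_lit 96) (nat_lit 69) (nat_lit 100) (nat_lit 130) (.leaf ⟨(nat_lit 0), (nat_lit 469), (nat_lit 0), (nat_lit 531), (nat_lit 0), (nat_lit 4368), (nat_lit 5203), (nat_lit 4207), (nat_lit 0), (nat_lit 28086), (nat_lit 0), [], Pd.none, Pd.none, (nat_lit 0), (nat_lit 1), (nat_lit 0), (nat_lit 0), (nat_lit 5), (nat_lit 0), [⟨(nat_lit 0), (nat_lit 88), (nat_lit 64), (nat_lit 100), (nat_lit 331259592)⟩], [], [], [],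
 ⟨⟨[(nat_lit 40), (nat_lit 60)], [(nat_lit 0), (nat_lit 600)], [((nat_lit 0), (nat_lit 0), (nat_lit 0)), ((nat_lit 1000), (nat_lit 725), (nat_lit 454))], ((nat_lit 73), (nat_lit 100), (nat_lit 43))⟩, (nat_lit 2448155), (nat_lit 153), (nat_lit 153), (nat_lit 0), (nat_lit 282938), [(nat_lit 2032000008), (nat_lit 3282000000)], [], [(nat_lit 19195938270), (nat_lit 19874067962), (nat_lit 31326202300), (nat_lit 31889715328), (nat_lit 31243305737), (nat_lit 31800492976), (nat_lit 39304645168), (nat_lit 38392464808)], (nat_lit 1271251), (nat_lit 1271251), (nat_lit 857188), (nat_lit 3093126), (nat_lit 780000), (nat_lit 3072501), [(nat_lit 490000), (nat_lit 780000)], [(nat_lit 1), (nat_lit 38), (nat_lit 203), (nat_lit 0), (nat_lit 10)]⟩,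
 ⟨⟨[(nat_lit 60), (nat_lit 80), (nat_lit 100)], [(nat_lit 0), (nat_lit 0), (nat_lit 534)], [((nat_lit 0), (nat_lit 0), (nat_lit 0)), ((nat_lit 0), (nat_lit 0), (nat_lit 0)), ((nat_lit 1000), (nat_lit 917), (nat_lit 393))], ((nat_lit 92), (nat_lit 100), (nat_lit 39))⟩, (nat_lit 6467645), (nat_lit 465), (nat_lit 465), (nat_lit 0), (nat_lit 899007), [(nat_lit 3282000000), (nat_lit 4688000000), (nat_lit 6250000000)], [], [(nat_lit 33282531096), (nat_lit 34507214934), (nat_lit 40136780110), (nat_lit 40981026578), (nat_lit 47981269381), (nat_lit 43430837446), (nat_lit 41537134346), (nat_lit 41884772628)], (nat_lit 1271251), (nat_lit 1271251), (nat_lit 1271251), (nat_lit 1271251), (nat_lit 111251), (nat_lit 2866250), [(nat_lit 780000), (nat_lit 1100000), (nat_lit 1442501)], [(nat_lit 9), (nat_lit 50), (nat_lit 428), (nat_lit 200), (nat_lit 16)]⟩,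
 ⟨⟨[(nat_lit 100), (nat_lit 120), (nat_lit 140)], [(nat_lit 0), (nat_lit 254), (nat_lit 778)], [((nat_lit 0), (nat_lit 0), (nat_lit 0)), ((nat_lit 1000), (nat_lit 1000), (nat_lit 198)), ((nat_lit 960), (nat_lit 1000), (nat_lit 392))], ((nat_lit 100), (nat_lit 96), (nat_lit 39))⟩, (nat_lit 978378), (nat_lit 300), (nat_lit 822), (nat_lit 33187500), (nat_lit 1307858), [(nat_lit 3318750000), (nat_lit 4231008000), (nat_lit 5226102000)], [], [(nat_lit 27067209491), (nat_lit 27169004197), (nat_lit 26732879291), (nat_lit 26397879156), (nat_lit 32267885114), (nat_lit 24456452318), (nat_lit 23390013106), (nat_lit 22763217713)], (nat_lit 1271251), (nat_lit 1271251), (nat_lit 1271251), (nat_lit 1271251), (nat_lit 111251), (nat_lit 2866250), [(nat_lit 1412501), (nat_lit 1271251), (nat_lit 1271251)], [(nat_lit 22), (nat_lit 58), (nat_lit 538), (nat_lit 300), (nat_lit 16)]⟩⟩))) (.spl (nat_lit 1) (nat_lit 300) (.ord (.leaf ⟨(nat_lit 0), (nat_lit 452), (nat_lit 0),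 (nat_lit 548), (nat_lit 0), (nat_lit 5224), (nat_lit 5792), (nat_lit 5083), (nat_lit 0), (nat_lit 15752), (nat_lit 0), [], Pd.none, Pd.none, (nat_lit 0), (nat_lit 1), (nat_lit 0), (nat_lit 0), (nat_lit 5), (nat_lit 0), [⟨(nat_lit 0), (nat_lit 99), (nat_lit 77), (nat_lit 100), (nat_lit 333862335)⟩], [], [], [],
 ⟨⟨[(nat_lit 40), (nat_lit 60), (nat_lit 80)], [(nat_lit 0), (nat_lit 398), (nat_lit 992)], [((nat_lit 0), (nat_lit 0), (nat_lit 0)), ((nat_lit 1000), (nat_lit 814), (nat_lit 310)), ((nat_lit 1000), (nat_lit 752), (nat_lit 464))], ((nat_lit 73), (nat_lit 100), (nat_lit 55))⟩, (nat_lit 0), (nat_lit 148), (nat_lit 148), (nat_lit 0), (nat_lit 189369), [(nat_lit 2032000004), (nat_lit 3282000004), (nat_lit 4688000000)], [], [(nat_lit 25132193874), (nat_lit 22607961588), (nat_lit 32303890492), (nat_lit 33371426504), (nat_lit 32303890492), (nat_lit 33371426504), (nat_lit 41068798628), (nat_lit 38886916668)], (nat_lit 1271251), (nat_lit 1271251), (nat_lit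 780000), (nat_lit 3072501), (nat_lit 780000), (nat_lit 3072501), [(nat_lit 490000), (nat_lit 780000), (nat_lit 1100000)], [(nat_lit 2), (nat_lit 44), (nat_lit 428), (nat_lit 200), (nat_lit 19)]⟩,
 ⟨⟨[(nat_lit 60), (nat_lit 100), (nat_lit 120)], [(nat_lit 0), (nat_lit 0), (nat_lit 1164)], [((nat_lit 0), (nat_lit 0), (nat_lit 0)), ((nat_lit 0), (nat_lit 0), (nat_lit 0)), ((nat_lit 1000), (nat_lit 933), (nat_lit 572))], ((nat_lit 93), (nat_lit 100), (nat_lit 55))⟩, (nat_lit 0), (nat_lit 400), (nat_lit 400), (nat_lit 0), (nat_lit 589379), [(nat_lit 3282000000), (nat_lit 6250000000), (nat_lit 7968000000)], [], [(nat_lit 35412686560), (nat_lit 35788955869), (nat_lit 41873914444), (nat_lit 42267057234), (nat_lit 49462550048), (nat_lit 46856257200), (nat_lit 42315709568), (nat_lit 42495507632)], (nat_lit 1271251), (nat_lit 1271251), (nat_lit 1271251), (nat_lit 1271251), (nat_lit 111251), (nat_lit 2866250), [(nat_lit 780000), (nat_lit 1435001), (nat_lit 1271251)],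 [(nat_lit 10), (nat_lit 54), (nat_lit 428), (nat_lit 200), (nat_lit 14)]⟩,
 ⟨⟨[(nat_lit 100), (nat_lit 140), (nat_lit 160)], [(nat_lit 0), (nat_lit 508), (nat_lit 1689)], [((nat_lit 0), (nat_lit 0), (nat_lit 0)), ((nat_lit 1000), (nat_lit 1000), (nat_lit 198)), ((nat_lit 811), (nat_lit 1000), (nat_lit 671))], ((nat_lit 100), (nat_lit 89), (nat_lit 55))⟩, (nat_lit 1177984), (nat_lit 300), (nat_lit 670), (nat_lit 34250001), (nat_lit 799794), [(nat_lit 3425000000), (nat_lit 5393416000), (nat_lit 6505856000)], [], [(nat_lit 27137763195), (nat_lit 27218188287), (nat_lit 26739077506), (nat_lit 26359147839), (nat_lit 34915265970), (nat_lit 25705548551), (nat_lit 22803307655), (nat_lit 23405702000)], (nat_lit 1271251), (nat_lit 1271251), (nat_lit 1271251), (nat_lit 1271251), (nat_lit 111251), (nat_lit 2866250), [(nat_lit 1412501), (nat_lit 1271251), (nat_lit 1271251)], [(nat_lit 23), (nat_lit 62), (nat_lit 538), (nat_lit 300), (nat_lit 14)]⟩⟩)) (.trZ (nat_lit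 0) (nat_lit 1) (nat_lit 3) (nat_lit 90) (nat_lit 74) (nat_lit 100) (nat_lit 140) (.trZ (nat_lit 1) (nat_lit 2) (nat_lit 5) (nat_lit 100) (nat_lit 87) (nat_lit 59) (nat_lit 30) (.leaf ⟨(nat_lit 0), (nat_lit 530), (nat_lit 0), (nat_lit 470), (nat_lit 0), (nat_lit 4219), (nat_lit 3832), (nat_lit 3848), (nat_lit 0), (nat_lit 152883), (nat_lit 0), [], Pd.none, Pd.none, (nat_lit 0), (nat_lit 1), (nat_lit 0), (nat_lit 0), (nat_lit 5), (nat_lit 0), [⟨(nat_lit 0), (nat_lit 80), (nat_lit 60), (nat_lit 100), (nat_lit 185875064)⟩], [], [], [],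
 ⟨⟨[(nat_lit 40), (nat_lit 60), (nat_lit 80)], [(nat_lit 0), (nat_lit 398), (nat_lit 992)], [((nat_lit 0), (nat_lit 0), (nat_lit 0)), ((nat_lit 1000), (nat_lit 814), (nat_lit 310)), ((nat_lit 1000), (nat_lit 752), (nat_lit 464))], ((nat_lit 73), (nat_lit 100), (nat_lit 55))⟩, (nat_lit 2770215), (nat_lit 163), (nat_lit 163), (nat_lit 0), (nat_lit 224951), [(nat_lit 2032000113), (nat_lit 3282000128), (nat_lit 4688000000)], [], [(nat_lit 21866474798), (nat_lit 20710670906), (nat_lit 30522122589), (nat_lit 31631800649), (nat_lit 30387267774), (nat_lit 31472244005), (nat_lit 41031746105), (nat_lit 39269617470)], (nat_lit 1271251), (nat_lit 1271251), (nat_lit 936250), (nat_lit 3113751), (nat_lit 780000), (nat_lit 3072501), [(nat_lit 490000), (nat_lit 780000), (nat_lit 1100000)], [(nat_lit 2), (nat_lit 44), (nat_lit 428), (nat_lit 200), (nat_lit 19)]⟩,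
 ⟨⟨[(nat_lit 60), (nat_lit 100), (nat_lit 120)], [(nat_lit 0), (nat_lit 609), (nat_lit 1609)], [((nat_lit 0), (nat_lit 0), (nat_lit 0)), ((nat_lit 1000), (nat_lit 905), (nat_lit 238)), ((nat_lit 1000), (nat_lit 882), (nat_lit 668))], ((nat_lit 87), (nat_lit 100), (nat_lit 54))⟩, (nat_lit 2747723), (nat_lit 406), (nat_lit 406), (nat_lit 0), (nat_lit 628261), [(nat_lit 3282000000), (nat_lit 6250000000), (nat_lit 7968000000)], [], [(nat_lit 33503964560), (nat_lit 33311255736), (nat_lit 39899126939), (nat_lit 40371552866), (nat_lit 39162214240), (nat_lit 39587644674), (nat_lit 49070624728), (nat_lit 47470132448)], (nat_lit 1271251), (nat_lit 1271251), (nat_lit 936250), (nat_lit 3113751), (nat_lit 169688), (nat_lit 2886876), [(nat_lit 780000), (nat_lit 1435001), (nat_lit 1271251)], [(nat_lit 10), (nat_lit 54), (nat_lit 428), (nat_lit 200), (nat_lit 14)]⟩,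
 ⟨⟨[(nat_lit 100), (nat_lit 140), (nat_lit 160)], [(nat_lit 0), (nat_lit 508), (nat_lit 1689)], [((nat_lit 0), (nat_lit 0), (nat_lit 0)), ((nat_lit 1000), (nat_lit 1000), (nat_lit 198)), ((nat_lit 811), (nat_lit 1000), (nat_lit 671))], ((nat_lit 100), (nat_lit 89), (nat_lit 55))⟩, (nat_lit 1010315), (nat_lit 300), (nat_lit 727), (nat_lit 29375000), (nat_lit 952791), [(nat_lit 2937500000), (nat_lit 4625740000), (nat_lit 5579840000)], [], [(nat_lit 25082458839), (nat_lit 25158496958), (nat_lit 24675872886), (nat_lit 24322514281), (nat_lit 29187941184), (nat_lit 22562068933), (nat_lit 21483058541), (nat_lit 20856346528)], (nat_lit 1271251), (nat_lit 1271251), (nat_lit 1271251), (nat_lit 1271251), (nat_lit 169688), (nat_lit 2886876), [(nat_lit 1412501), (nat_lit 1271251), (nat_lit 1271251)], [(nat_lit 23), (nat_lit 62), (nat_lit 538), (nat_lit 300), (nat_lit 14)]⟩⟩))))) (.spl (nat_lit 3) (nat_lit 280) (.leaf ⟨(nat_lit 0), (nat_lit 440), (nat_lit 0),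 (nat_lit 560), (nat_lit 0), (nat_lit 5177), (nat_lit 6283), (nat_lit 5420), (nat_lit 0), (nat_lit 4506113699), (nat_lit 0), [], Pd.none, Pd.none, (nat_lit 0), (nat_lit 1), (nat_lit 0), (nat_lit 0), (nat_lit 5), (nat_lit 0), [⟨(nat_lit 0), (nat_lit 88), (nat_lit 67), (nat_lit 100), (nat_lit 531796070)⟩], [⟨(nat_lit 0), (nat_lit 100), (nat_lit 71), (nat_lit 100), (nat_lit 45883654)⟩], [], [],
 ⟨⟨[(nat_lit 40), (nat_lit 80), (nat_lit 120)], [(nat_lit 0), (nat_lit 795), (nat_lit 2800)], [((nat_lit 0), (nat_lit 0), (nat_lit 0)), ((nat_lit 1000), (nat_lit 814), (nat_lit 310)), ((nat_lit 1000), (nat_lit 719), (nat_lit 783))], ((nat_lit 71), (nat_lit 100), (nat_lit 71))⟩, (nat_lit 2651165), (nat_lit 179), (nat_lit 179), (nat_lit 0), (nat_lit 177178), [(nat_lit 2032000238), (nat_lit 4688000019), (nat_lit 7968000000)], [], [(nat_lit 19077085629), (nat_lit 20530866235), (nat_lit 23722818293), (nat_lit 25475739034), (nat_lit 32068853346), (nat_lit 33290070867),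 (nat_lit 33592937939), (nat_lit 34519316680)], (nat_lit 1271251), (nat_lit 1271251), (nat_lit 780000), (nat_lit 2090001), (nat_lit 780000), (nat_lit 3072501), [(nat_lit 490000), (nat_lit 1100000), (nat_lit 1785001)], [(nat_lit 4), (nat_lit 51), (nat_lit 401), (nat_lit 175), (nat_lit 12)]⟩,
 ⟨⟨[(nat_lit 60), (nat_lit 100), (nat_lit 140)], [(nat_lit 0), (nat_lit 0), (nat_lit 2047)], [((nat_lit 0), (nat_lit 0), (nat_lit 0)), ((nat_lit 0), (nat_lit 0), (nat_lit 0)), ((nat_lit 1000), (nat_lit 993), (nat_lit 781))], ((nat_lit 99), (nat_lit 100), (nat_lit 77))⟩, (nat_lit 0), (nat_lit 432), (nat_lit 432), (nat_lit 0), (nat_lit 485223), [(nat_lit 3282000000), (nat_lit 6250000000), (nat_lit 9842000000)], [], [(nat_lit 35911201315), (nat_lit 37623509656), (nat_lit 38539786642), (nat_lit 39912428440), (nat_lit 40552265650), (nat_lit 41347333182), (nat_lit 51746920372), (nat_lit 46369564558)], (nat_lit 1271251), (nat_lit 1271251), (nat_lit 780000), (nat_lit 2090001),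 (nat_lit 111251), (nat_lit 2866250), [(nat_lit 780000), (nat_lit 1435001), (nat_lit 1271251)], [(nat_lit 11), (nat_lit 55), (nat_lit 401), (nat_lit 175), (nat_lit 11)]⟩,
 ⟨⟨[(nat_lit 100), (nat_lit 140), (nat_lit 180)], [(nat_lit 0), (nat_lit 508), (nat_lit 2854)], [((nat_lit 0), (nat_lit 0), (nat_lit 0)), ((nat_lit 1000), (nat_lit 1000), (nat_lit 198)), ((nat_lit 777), (nat_lit 1000), (nat_lit 712))], ((nat_lit 100), (nat_lit 77), (nat_lit 72))⟩, (nat_lit 1203780), (nat_lit 300), (nat_lit 667), (nat_lit 35000000), (nat_lit 683148), [(nat_lit 3500000000), (nat_lit 5511520000), (nat_lit 7872480000)], [], [(nat_lit 29984902600), (nat_lit 30287965540), (nat_lit 29690710525), (nat_lit 29214876480), (nat_lit 36171316040), (nat_lit 25815677800), (nat_lit 24622594480), (nat_lit 24471164960)], (nat_lit 1271251), (nat_lit 1271251), (nat_lit 1271251), (nat_lit 1271251), (nat_lit 111251), (nat_lit 2866250), [(nat_lit 1412501), (nat_lit 1271251), (nat_lit 1271251)],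 [(nat_lit 24), (nat_lit 63), (nat_lit 538), (nat_lit 300), (nat_lit 12)]⟩⟩) (.leaf ⟨(nat_lit 0), (nat_lit 475), (nat_lit 0), (nat_lit 525), (nat_lit 0), (nat_lit 4381), (nat_lit 6838), (nat_lit 4547), (nat_lit 0), (nat_lit 36576), (nat_lit 0), [], Pd.none, Pd.none, (nat_lit 0), (nat_lit 1), (nat_lit 0), (nat_lit 0), (nat_lit 5), (nat_lit 0), [], [⟨(nat_lit 0), (nat_lit 100), (nat_lit 71), (nat_lit 100), (nat_lit 38336217)⟩], [⟨(nat_lit 0), (nat_lit 100), (nat_lit 92), (nat_lit 82), (nat_lit 98403286)⟩], [],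
 ⟨⟨[(nat_lit 40), (nat_lit 80), (nat_lit 120)], [(nat_lit 0), (nat_lit 795), (nat_lit 2800)], [((nat_lit 0), (nat_lit 0), (nat_lit 0)), ((nat_lit 1000), (nat_lit 814), (nat_lit 310)), ((nat_lit 1000), (nat_lit 719), (nat_lit 783))], ((nat_lit 71), (nat_lit 100), (nat_lit 71))⟩, (nat_lit 2360059), (nat_lit 179), (nat_lit 179), (nat_lit 0), (nat_lit 177178), [(nat_lit 2032000019), (nat_lit 4688000012), (nat_lit 7968000000)], [], [(nat_lit 25091965625), (nat_lit 26047847592), (nat_lit 30783678312), (nat_lit 31912217951), (nat_lit 32615290032), (nat_lit 33486236040), (nat_lit 36741620513), (nat_lit 37380305322)], (nat_lit 1271251), (nat_lit 1271251), (nat_lit 1271251), (nat_lit 1271251), (nat_lit 780000), (nat_lit 3072501), [(nat_lit 490000), (nat_lit 1100000), (nat_lit 1785001)], [(nat_lit 4), (nat_lit 51), (nat_lit 317), (nat_lit 100), (nat_lit 9)]⟩,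
 ⟨⟨[(nat_lit 60), (nat_lit 100), (nat_lit 140)], [(nat_lit 0), (nat_lit 0), (nat_lit 2047)], [((nat_lit 0), (nat_lit 0), (nat_lit 0)), ((nat_lit 0), (nat_lit 0), (nat_lit 0)), ((nat_lit 1000), (nat_lit 993), (nat_lit 781))], ((nat_lit 99), (nat_lit 100), (nat_lit 77))⟩, (nat_lit 2595754), (nat_lit 397), (nat_lit 397), (nat_lit 0), (nat_lit 485223), [(nat_lit 3282000000), (nat_lit 6250000000), (nat_lit 9842000000)], [], [(nat_lit 32057711274), (nat_lit 33467667109), (nat_lit 37737152587), (nat_lit 38849448346), (nat_lit 34949457318), (nat_lit 35614437116), (nat_lit 38778925488), (nat_lit 39625742992)], (nat_lit 1271251), (nat_lit 1271251), (nat_lit 1271251), (nat_lit 1271251), (nat_lit 111251), (nat_lit 2866250), [(nat_lit 780000), (nat_lit 1435001), (nat_lit 1271251)], [(nat_lit 11), (nat_lit 55), (nat_lit 317), (nat_lit 100), (nat_lit 8)]⟩,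
 ⟨⟨[(nat_lit 100), (nat_lit 140), (nat_lit 180)], [(nat_lit 0), (nat_lit 508), (nat_lit 2854)], [((nat_lit 0), (nat_lit 0), (nat_lit 0)), ((nat_lit 1000), (nat_lit 1000), (nat_lit 198)), ((nat_lit 777), (nat_lit 1000), (nat_lit 712))], ((nat_lit 100), (nat_lit 77), (nat_lit 72))⟩, (nat_lit 1128543), (nat_lit 300), (nat_lit 667), (nat_lit 32812502), (nat_lit 683148), [(nat_lit 3281250000), (nat_lit 5167050000), (nat_lit 7380450000)], [], [(nat_lit 29236735878), (nat_lit 29252167566), (nat_lit 28923312252), (nat_lit 28599561918), (nat_lit 32747197138), (nat_lit 25824653226), (nat_lit 24595229428), (nat_lit 23865634952)], (nat_lit 1271251), (nat_lit 1271251), (nat_lit 1271251), (nat_lit 1271251), (nat_lit 111251), (nat_lit 2866250), [(nat_lit 1412501), (nat_lit 1271251), (nat_lit 1271251)], [(nat_lit 24), (nat_lit 63), (nat_lit 538), (nat_lit 300), (nat_lit 12)]⟩⟩))))))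
noncomputable def c8_84 : Tr Lf :=
 (.spl (nat_lit 6) (nat_lit 68) (.leaf ⟨(nat_lit 1000), (nat_lit 0), (nat_lit 0), (nat_lit 0), (nat_lit 12459), (nat_lit 4064), (nat_lit 0), (nat_lit 0), (nat_lit 0), (nat_lit 0), (nat_lit 250000), [((nat_lit 350), [((nat_lit 22), (nat_lit 0), (nat_lit 1000))])], ⟨(nat_lit 6), false, false, false, (nat_lit 201), (nat_lit 3535), (nat_lit 3873), [(nat_lit 1349991), (nat_lit 1355590), (nat_lit 1393565), (nat_lit 1399483), (nat_lit 1608101), (nat_lit 1606659), (nat_lit 1651675), (nat_lit 1650552)]⟩, ⟨(nat_lit 3), false, false, true, (nat_lit 165), (nat_lit 3535), (nat_lit 3873), [(nat_lit 1283782), (nat_lit 1286665), (nat_lit 1349157), (nat_lit 1352518), (nat_lit 1477347), (nat_lit 1474949), (nat_lit 1542727), (nat_lit 1540807)]⟩, (nat_lit 4620646), (nat_lit 44857877), (nat_lit 12750832), (nat_lit 9391291), (nat_lit 0), (nat_lit 0), [⟨(nat_lit 0), (nat_lit 96), (nat_lit 69), (nat_lit 100), (nat_lit 1895797)⟩], [], [],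 [],
 ⟨⟨[(nat_lit 40), (nat_lit 80), (nat_lit 120)], [(nat_lit 0), (nat_lit 795), (nat_lit 2800)], [((nat_lit 0), (nat_lit 0), (nat_lit 0)), ((nat_lit 1000), (nat_lit 814), (nat_lit 310)), ((nat_lit 1000), (nat_lit 719), (nat_lit 783))], ((nat_lit 72), (nat_lit 100), (nat_lit 75))⟩, (nat_lit 0), (nat_lit 122), (nat_lit 122), (nat_lit 0), (nat_lit 36713), [(nat_lit 1638075325), (nat_lit 1970800016), (nat_lit 2712400000)], [(nat_lit 0), (nat_lit 0), (nat_lit 0)], [(nat_lit 17596164756), (nat_lit 18515731862), (nat_lit 21015441384), (nat_lit 21729561700), (nat_lit 20736319368), (nat_lit 21487419044), (nat_lit 23336613576), (nat_lit 23926804404)], (nat_lit 1271251), (nat_lit 1271251), (nat_lit 490000), (nat_lit 1740001), (nat_lit 780000), (nat_lit 1762501), [(nat_lit 490000), (nat_lit 1100000), (nat_lit 1785001)], [(nat_lit 4), (nat_lit 51), (nat_lit 345), (nat_lit 125), (nat_lit 11)]⟩,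
 Rw.none,
 Rw.none⟩) (.dle (nat_lit 0)))
noncomputable def c8_85 : Tr Lf :=
 (.trZ (nat_lit 0) (nat_lit 1) (nat_lit 3) (nat_lit 100) (nat_lit 68) (nat_lit 89) (nat_lit 100) (.spl (nat_lit 2) (nat_lit 160) (.trX (nat_lit 5) (nat_lit 1) (nat_lit 2) (nat_lit 100) (nat_lit 40) (nat_lit 100) (nat_lit 390) (.spl (nat_lit 3) (nat_lit 120) (.leaf ⟨(nat_lit 1000), (nat_lit 0), (nat_lit 0), (nat_lit 0), (nat_lit 23343), (nat_lit 3650), (nat_lit 0), (nat_lit 0), (nat_lit 0), (nat_lit 0), (nat_lit 250000), [((nat_lit 360), [((nat_lit 22), (nat_lit 0), (nat_lit 1000))])], ⟨(nat_lit 6), false, false, false, (nat_lit 171), (nat_lit 3162), (nat_lit 3536), [(nat_lit 1386958), (nat_lit 1391883), (nat_lit 1430847), (nat_lit 1436176), (nat_lit 1418344), (nat_lit 1422365), (nat_lit 1462233), (nat_lit 1466658)]⟩, ⟨(nat_lit 3), false, false, true, (nat_lit 161), (nat_lit 3162), (nat_lit 3536), [(nat_lit 1286665), (nat_lit 1289472), (nat_lit 1330567), (nat_lit 1333779),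 (nat_lit 1474949), (nat_lit 1472332), (nat_lit 1518855), (nat_lit 1516642)]⟩, (nat_lit 4305769), (nat_lit 47585147), (nat_lit 10147453), (nat_lit 9267400), (nat_lit 0), (nat_lit 0), [⟨(nat_lit 0), (nat_lit 100), (nat_lit 66), (nat_lit 97), (nat_lit 1201046373)⟩], [], [], [],
 ⟨⟨[(nat_lit 40), (nat_lit 80), (nat_lit 120)], [(nat_lit 0), (nat_lit 1195), (nat_lit 3135)], [((nat_lit 0), (nat_lit 0), (nat_lit 0)), ((nat_lit 1000), (nat_lit 720), (nat_lit 465)), ((nat_lit 1000), (nat_lit 661), (nat_lit 757))], ((nat_lit 66), (nat_lit 100), (nat_lit 80))⟩, (nat_lit 1039040), (nat_lit 127), (nat_lit 127), (nat_lit 0), (nat_lit 65825), [(nat_lit 1568000051), (nat_lit 2355076493), (nat_lit 2712400000)], [(nat_lit 0), (nat_lit 0), (nat_lit 0)], [(nat_lit 18975723039), (nat_lit 19679753050), (nat_lit 19155003014), (nat_lit 19826092451), (nat_lit 21390410664), (nat_lit 21979566350), (nat_lit 21510851101), (nat_lit 22068987950)], (nat_lit 1271251), (nat_lit 1271251),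 (nat_lit 631250), (nat_lit 780000), (nat_lit 780000), (nat_lit 1762501), [(nat_lit 490000), (nat_lit 1100000), (nat_lit 1785001)], [(nat_lit 4), (nat_lit 51), (nat_lit 317), (nat_lit 100), (nat_lit 10)]⟩,
 Rw.none,
 Rw.none⟩) (.spl (nat_lit 6) (nat_lit 72) (.spl (nat_lit 4) (nat_lit 200) (.spl (nat_lit 0) (nat_lit 355) (.leaf ⟨(nat_lit 959), (nat_lit 21), (nat_lit 0), (nat_lit 20), (nat_lit 5572), (nat_lit 4213), (nat_lit 474), (nat_lit 252), (nat_lit 0), (nat_lit 0), (nat_lit 239750), [((nat_lit 355), [((nat_lit 22), (nat_lit 0), (nat_lit 959))])], ⟨(nat_lit 6), false, false, false, (nat_lit 214), (nat_lit 3354), (nat_lit 3536), [(nat_lit 1418374), (nat_lit 1420356), (nat_lit 1462275), (nat_lit 1464447), (nat_lit 1606664), (nat_lit 1605958), (nat_lit 1650566), (nat_lit 1650050)]⟩, ⟨(nat_lit 3), false, false, true, (nat_lit 149), (nat_lit 3354), (nat_lit 3536), [(nat_lit 1286665), (nat_lit 1288078), (nat_lit 1330570), (nat_lit 1332173), (nat_lit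 1412188), (nat_lit 1411808), (nat_lit 1456093), (nat_lit 1455903)]⟩, (nat_lit 4555478), (nat_lit 44916829), (nat_lit 14123419), (nat_lit 7959752), (nat_lit 3), (nat_lit 0), [], [], [], [],
 ⟨⟨[(nat_lit 40), (nat_lit 80), (nat_lit 120)], [(nat_lit 0), (nat_lit 1195), (nat_lit 3135)], [((nat_lit 0), (nat_lit 0), (nat_lit 0)), ((nat_lit 1000), (nat_lit 720), (nat_lit 465)), ((nat_lit 1000), (nat_lit 661), (nat_lit 757))], ((nat_lit 66), (nat_lit 100), (nat_lit 77))⟩, (nat_lit 0), (nat_lit 100), (nat_lit 100), (nat_lit 0), (nat_lit 68625), [(nat_lit 1644247334), (nat_lit 2082205252), (nat_lit 2927879600)], [(nat_lit 0), (nat_lit 0), (nat_lit 0)], [(nat_lit 18937011749), (nat_lit 19382157809), (nat_lit 21764816724), (nat_lit 22128689926), (nat_lit 20530101200), (nat_lit 20922488082), (nat_lit 22961935159), (nat_lit 23284501569)], (nat_lit 1271251), (nat_lit 1271251), (nat_lit 780000), (nat_lit 1762501), (nat_lit 780000), (nat_lit 1435001), [(nat_lit 490000),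 (nat_lit 1100000), (nat_lit 1785001)], [(nat_lit 4), (nat_lit 51), (nat_lit 345), (nat_lit 125), (nat_lit 11)]⟩,
 ⟨⟨[(nat_lit 80), (nat_lit 140), (nat_lit 180)], [(nat_lit 0), (nat_lit 0), (nat_lit 3656)], [((nat_lit 0), (nat_lit 0), (nat_lit 0)), ((nat_lit 0), (nat_lit 0), (nat_lit 0)), ((nat_lit 637), (nat_lit 1000), (nat_lit 908))], ((nat_lit 100), (nat_lit 80), (nat_lit 78))⟩, (nat_lit 0), (nat_lit 407), (nat_lit 407), (nat_lit 0), (nat_lit 119823), [(nat_lit 192208000), (nat_lit 403522000), (nat_lit 576378000)], [], [(nat_lit 2439768764), (nat_lit 1934521262), (nat_lit 1817728344), (nat_lit 1878473824), (nat_lit 1946020085), (nat_lit 1831659497), (nat_lit 2707794398), (nat_lit 2300909480)], (nat_lit 1271251), (nat_lit 1271251), (nat_lit 780000), (nat_lit 1762501), (nat_lit 0), (nat_lit 2754376), [(nat_lit 1100000), (nat_lit 2127501), (nat_lit 1271251)], [(nat_lit 19), (nat_lit 63), (nat_lit 483), (nat_lit 250), (nat_lit 11)]⟩,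
 ⟨⟨[(nat_lit 140), (nat_lit 180), (nat_lit 200)], [(nat_lit 0), (nat_lit 0), (nat_lit 2835)], [((nat_lit 0), (nat_lit 0), (nat_lit 0)), ((nat_lit 0), (nat_lit 0), (nat_lit 0)), ((nat_lit 363), (nat_lit 1000), (nat_lit 798))], ((nat_lit 0), (nat_lit 0), (nat_lit 0))⟩, (nat_lit 5503), (nat_lit 300), (nat_lit 824), (nat_lit 1562000), (nat_lit 650082), [(nat_lit 196840000), (nat_lit 281160000), (nat_lit 328000000)], [], [(nat_lit 1469518896), (nat_lit 1425851360), (nat_lit 1390013608), (nat_lit 1347889280), (nat_lit 1314289635), (nat_lit 1436380813), (nat_lit 1577663422), (nat_lit 1705420820)], (nat_lit 780000), (nat_lit 1100000), (nat_lit 780000), (nat_lit 1435001), (nat_lit 0), (nat_lit 2754376), [(nat_lit 1977501), (nat_lit 1271251), (nat_lit 1271251)], [(nat_lit 32), (nat_lit 67), (nat_lit 428), (nat_lit 200), (nat_lit 9)]⟩⟩) (.spl (nat_lit 3) (nat_lit 200) (.leaf ⟨(nat_lit 1000), (nat_lit 0), (nat_lit 0), (nat_lit 0), (nat_lit 1107), (nat_lit 5122),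 (nat_lit 0), (nat_lit 0), (nat_lit 0), (nat_lit 0), (nat_lit 250000), [((nat_lit 360), [((nat_lit 22), (nat_lit 0), (nat_lit 1000))])], ⟨(nat_lit 6), false, false, false, (nat_lit 202), (nat_lit 3162), (nat_lit 3355), [(nat_lit 1420353), (nat_lit 1422392), (nat_lit 1464444), (nat_lit 1466697), (nat_lit 1544090), (nat_lit 1544305), (nat_lit 1588181), (nat_lit 1588610)]⟩, ⟨(nat_lit 3), false, false, true, (nat_lit 149), (nat_lit 3162), (nat_lit 3355), [(nat_lit 1288078), (nat_lit 1289472), (nat_lit 1332172), (nat_lit 1333781), (nat_lit 1411808), (nat_lit 1411379), (nat_lit 1455903), (nat_lit 1455689)]⟩, (nat_lit 4463575), (nat_lit 45912261), (nat_lit 13021735), (nat_lit 8066004), (nat_lit 0), (nat_lit 0), [⟨(nat_lit 0), (nat_lit 94), (nat_lit 62), (nat_lit 100), (nat_lit 14889206)⟩], [], [], [],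
 ⟨⟨[(nat_lit 40), (nat_lit 80), (nat_lit 100)], [(nat_lit 0), (nat_lit 1399), (nat_lit 2349)], [((nat_lit 0), (nat_lit 0), (nat_lit 0)), ((nat_lit 1000), (nat_lit 672), (nat_lit 546)), ((nat_lit 1000), (nat_lit 633), (nat_lit 742))], ((nat_lit 63), (nat_lit 100), (nat_lit 77))⟩, (nat_lit 0), (nat_lit 107), (nat_lit 107), (nat_lit 0), (nat_lit 104076), [(nat_lit 1800439014), (nat_lit 2362632856), (nat_lit 2330800000)], [(nat_lit 0), (nat_lit 0), (nat_lit 0)], [(nat_lit 20352382546), (nat_lit 20817659118), (nat_lit 21638044740), (nat_lit 22047016353), (nat_lit 21638044740), (nat_lit 22047016353), (nat_lit 22680893867), (nat_lit 23041384473)], (nat_lit 1271251), (nat_lit 1271251), (nat_lit 780000), (nat_lit 1435001), (nat_lit 780000), (nat_lit 1435001), [(nat_lit 490000), (nat_lit 1100000), (nat_lit 1442501)], [(nat_lit 3), (nat_lit 50), (nat_lit 317), (nat_lit 100), (nat_lit 11)]⟩,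
 Rw.none,
 Rw.none⟩) (.leaf ⟨(nat_lit 864), (nat_lit 104), (nat_lit 0), (nat_lit 32), (nat_lit 3180), (nat_lit 4385), (nat_lit 1601), (nat_lit 404), (nat_lit 0), (nat_lit 0), (nat_lit 216000), [((nat_lit 360), [((nat_lit 22), (nat_lit 0), (nat_lit 864))])], ⟨(nat_lit 6), false, true, false, (nat_lit 239), (nat_lit 3162), (nat_lit 3355), [(nat_lit 1544090), (nat_lit 1544305), (nat_lit 1588181), (nat_lit 1588610), (nat_lit 1605958), (nat_lit 1605261), (nat_lit 1650049), (nat_lit 1649567)]⟩, ⟨(nat_lit 3), false, false, true, (nat_lit 149), (nat_lit 3162), (nat_lit 3355), [(nat_lit 1288078), (nat_lit 1289472), (nat_lit 1332172), (nat_lit 1333781), (nat_lit 1411808), (nat_lit 1411379), (nat_lit 1455903), (nat_lit 1455689)]⟩, (nat_lit 4723363), (nat_lit 42805515), (nat_lit 16421042), (nat_lit 7773443), (nat_lit 3), (nat_lit 0), [], [], [], [],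
 ⟨⟨[(nat_lit 40), (nat_lit 80), (nat_lit 100)], [(nat_lit 0), (nat_lit 1399), (nat_lit 2349)], [((nat_lit 0), (nat_lit 0), (nat_lit 0)), ((nat_lit 1000), (nat_lit 672), (nat_lit 546)), ((nat_lit 1000), (nat_lit 633), (nat_lit 742))], ((nat_lit 63), (nat_lit 100), (nat_lit 77))⟩, (nat_lit 0), (nat_lit 80), (nat_lit 80), (nat_lit 0), (nat_lit 104076), [(nat_lit 1711219616), (nat_lit 2340339213), (nat_lit 2863811200)], [(nat_lit 0), (nat_lit 0), (nat_lit 0)], [(nat_lit 21094469285), (nat_lit 21495599808), (nat_lit 22306783665), (nat_lit 22678521588), (nat_lit 22382794476), (nat_lit 22737203768), (nat_lit 23435290223), (nat_lit 23764805610)], (nat_lit 1271251), (nat_lit 1271251), (nat_lit 1271251), (nat_lit 1271251), (nat_lit 780000), (nat_lit 1435001), [(nat_lit 490000), (nat_lit 1100000), (nat_lit 1442501)], [(nat_lit 3), (nat_lit 50), (nat_lit 260), (nat_lit 50), (nat_lit 9)]⟩,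
 ⟨⟨[(nat_lit 80), (nat_lit 140), (nat_lit 180)], [(nat_lit 0), (nat_lit 0), (nat_lit 3656)], [((nat_lit 0), (nat_lit 0), (nat_lit 0)), ((nat_lit 0), (nat_lit 0), (nat_lit 0)), ((nat_lit 637), (nat_lit 1000), (nat_lit 908))], ((nat_lit 100), (nat_lit 80), (nat_lit 78))⟩, (nat_lit 56019), (nat_lit 403), (nat_lit 403), (nat_lit 0), (nat_lit 190184), [(nat_lit 637568000), (nat_lit 1338512000), (nat_lit 1911888000)], [], [(nat_lit 6511403136), (nat_lit 5995123191), (nat_lit 5806556592), (nat_lit 6009583282), (nat_lit 7020786805), (nat_lit 5629179594), (nat_lit 5611881989), (nat_lit 5467572697)], (nat_lit 1271251), (nat_lit 1271251), (nat_lit 1271251), (nat_lit 1271251), (nat_lit 0), (nat_lit 2754376), [(nat_lit 1100000), (nat_lit 2127501), (nat_lit 1271251)], [(nat_lit 19), (nat_lit 63), (nat_lit 483), (nat_lit 250), (nat_lit 11)]⟩,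
 ⟨⟨[(nat_lit 140), (nat_lit 180), (nat_lit 200)], [(nat_lit 0), (nat_lit 0), (nat_lit 2835)], [((nat_lit 0), (nat_lit 0), (nat_lit 0)), ((nat_lit 0), (nat_lit 0), (nat_lit 0)), ((nat_lit 363), (nat_lit 1000), (nat_lit 798))], ((nat_lit 0), (nat_lit 0), (nat_lit 0))⟩, (nat_lit 8804), (nat_lit 300), (nat_lit 975), (nat_lit 2499204), (nat_lit 1015309), [(nat_lit 314944000), (nat_lit 449856000), (nat_lit 524800000)], [], [(nat_lit 2349333160), (nat_lit 2279292960), (nat_lit 2222340080), (nat_lit 2155605592), (nat_lit 2103807729), (nat_lit 2299459935), (nat_lit 2525875546), (nat_lit 2730611692)], (nat_lit 780000), (nat_lit 1100000), (nat_lit 780000), (nat_lit 1435001), (nat_lit 0), (nat_lit 2754376), [(nat_lit 1977501), (nat_lit 1271251), (nat_lit 1271251)], [(nat_lit 32), (nat_lit 67), (nat_lit 428), (nat_lit 200), (nat_lit 9)]⟩⟩))) (.spl (nat_lit 1) (nat_lit 260) (.leaf ⟨(nat_lit 944), (nat_lit 28), (nat_lit 0), (nat_lit 28), (nat_lit 6102), (nat_lit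 4201), (nat_lit 183), (nat_lit 424), (nat_lit 0), (nat_lit 0), (nat_lit 236000), [((nat_lit 360), [((nat_lit 22), (nat_lit 0), (nat_lit 944))])], ⟨(nat_lit 6), false, false, false, (nat_lit 210), (nat_lit 3162), (nat_lit 3536), [(nat_lit 1418344), (nat_lit 1422365), (nat_lit 1440289), (nat_lit 1444512), (nat_lit 1606660), (nat_lit 1605256), (nat_lit 1628604), (nat_lit 1627403)]⟩, ⟨(nat_lit 5), false, false, true, (nat_lit 186), (nat_lit 3162), (nat_lit 3536), [(nat_lit 1412188), (nat_lit 1411379), (nat_lit 1456093), (nat_lit 1455689), (nat_lit 1474949), (nat_lit 1472332), (nat_lit 1518855), (nat_lit 1516642)]⟩, (nat_lit 4870499), (nat_lit 42722327), (nat_lit 13294485), (nat_lit 10983188), (nat_lit 5), (nat_lit 0), [], [], [], [],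
 ⟨⟨[(nat_lit 40), (nat_lit 80), (nat_lit 120)], [(nat_lit 0), (nat_lit 1195), (nat_lit 3135)], [((nat_lit 0), (nat_lit 0), (nat_lit 0)), ((nat_lit 1000), (nat_lit 720), (nat_lit 465)), ((nat_lit 1000), (nat_lit 661), (nat_lit 757))], ((nat_lit 66), (nat_lit 100), (nat_lit 77))⟩, (nat_lit 0), (nat_lit 62), (nat_lit 62), (nat_lit 0), (nat_lit 35416), [(nat_lit 1700672333), (nat_lit 2122963213), (nat_lit 3006713600)], [(nat_lit 0), (nat_lit 0), (nat_lit 0)], [(nat_lit 20577479840), (nat_lit 21361033560), (nat_lit 23010644083), (nat_lit 23655291386), (nat_lit 21811707588), (nat_lit 22538356588), (nat_lit 23996640259), (nat_lit 24697442740)], (nat_lit 1271251), (nat_lit 1271251), (nat_lit 780000), (nat_lit 1762501), (nat_lit 1271251), (nat_lit 1271251), [(nat_lit 490000), (nat_lit 1100000), (nat_lit 1785001)], [(nat_lit 4), (nat_lit 51), (nat_lit 345), (nat_lit 125), (nat_lit 10)]⟩,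
 ⟨⟨[(nat_lit 80), (nat_lit 140), (nat_lit 180)], [(nat_lit 0), (nat_lit 0), (nat_lit 3656)], [((nat_lit 0), (nat_lit 0), (nat_lit 0)), ((nat_lit 0), (nat_lit 0), (nat_lit 0)), ((nat_lit 637), (nat_lit 1000), (nat_lit 908))], ((nat_lit 100), (nat_lit 80), (nat_lit 78))⟩, (nat_lit 63472), (nat_lit 388), (nat_lit 388), (nat_lit 0), (nat_lit 74402), [(nat_lit 262528000), (nat_lit 551152000), (nat_lit 787248000)], [], [(nat_lit 2121997598), (nat_lit 2025462106), (nat_lit 2126561276), (nat_lit 2167160410), (nat_lit 2548659511), (nat_lit 2467096102), (nat_lit 3000633995), (nat_lit 2922089755)], (nat_lit 1271251), (nat_lit 1271251), (nat_lit 780000), (nat_lit 1762501), (nat_lit 0), (nat_lit 2754376), [(nat_lit 1100000), (nat_lit 2127501), (nat_lit 1271251)], [(nat_lit 19), (nat_lit 63), (nat_lit 456), (nat_lit 225), (nat_lit 11)]⟩,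
 ⟨⟨[(nat_lit 140), (nat_lit 180), (nat_lit 200)], [(nat_lit 0), (nat_lit 0), (nat_lit 2835)], [((nat_lit 0), (nat_lit 0), (nat_lit 0)), ((nat_lit 0), (nat_lit 0), (nat_lit 0)), ((nat_lit 363), (nat_lit 1000), (nat_lit 798))], ((nat_lit 0), (nat_lit 0), (nat_lit 0))⟩, (nat_lit 7704), (nat_lit 300), (nat_lit 636), (nat_lit 2186800), (nat_lit 349043), [(nat_lit 275576000), (nat_lit 393624000), (nat_lit 459200000)], [], [(nat_lit 1869677008), (nat_lit 1796295608), (nat_lit 1825241568), (nat_lit 1759269504), (nat_lit 2056321092), (nat_lit 2264044968), (nat_lit 1683194520), (nat_lit 1895558652)], (nat_lit 780000), (nat_lit 1100000), (nat_lit 1271251), (nat_lit 1271251), (nat_lit 0), (nat_lit 2754376), [(nat_lit 1977501), (nat_lit 1271251), (nat_lit 1271251)], [(nat_lit 32), (nat_lit 67), (nat_lit 428), (nat_lit 200), (nat_lit 9)]⟩⟩) (.trX (nat_lit 5) (nat_lit 1) (nat_lit 2) (nat_lit 97) (nat_lit 49) (nat_lit 100) (nat_lit 380) (.leaf ⟨(nat_lit 857), (nat_lit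 108), (nat_lit 0), (nat_lit 35), (nat_lit 889), (nat_lit 4307), (nat_lit 992), (nat_lit 436), (nat_lit 0), (nat_lit 0), (nat_lit 214250), [((nat_lit 360), [((nat_lit 22), (nat_lit 0), (nat_lit 857))])], ⟨(nat_lit 6), false, false, false, (nat_lit 218), (nat_lit 3162), (nat_lit 3536), [(nat_lit 1440289), (nat_lit 1444512), (nat_lit 1462233), (nat_lit 1466658), (nat_lit 1628604), (nat_lit 1627403), (nat_lit 1650549), (nat_lit 1649550)]⟩, ⟨(nat_lit 5), false, false, true, (nat_lit 186), (nat_lit 3162), (nat_lit 3536), [(nat_lit 1412188), (nat_lit 1411379), (nat_lit 1456093), (nat_lit 1455689), (nat_lit 1474949), (nat_lit 1472332), (nat_lit 1518855), (nat_lit 1516642)]⟩, (nat_lit 4930712), (nat_lit 42053727), (nat_lit 14066301), (nat_lit 10879972), (nat_lit 5), (nat_lit 0), [⟨(nat_lit 0), (nat_lit 94), (nat_lit 62), (nat_lit 100), (nat_lit 10722719)⟩], [], [], [],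
 ⟨⟨[(nat_lit 40), (nat_lit 80), (nat_lit 120)], [(nat_lit 0), (nat_lit 1195), (nat_lit 3135)], [((nat_lit 0), (nat_lit 0), (nat_lit 0)), ((nat_lit 1000), (nat_lit 720), (nat_lit 465)), ((nat_lit 1000), (nat_lit 661), (nat_lit 757))], ((nat_lit 66), (nat_lit 100), (nat_lit 77))⟩, (nat_lit 0), (nat_lit 80), (nat_lit 80), (nat_lit 0), (nat_lit 104847), [(nat_lit 1679903578), (nat_lit 2359359601), (nat_lit 3463950800)], [(nat_lit 0), (nat_lit 0), (nat_lit 0)], [(nat_lit 20755393564), (nat_lit 21549724330), (nat_lit 23176806965), (nat_lit 23829173954), (nat_lit 21993930000), (nat_lit 22730272726), (nat_lit 24154277345), (nat_lit 24761247809)], (nat_lit 1271251), (nat_lit 1271251), (nat_lit 780000), (nat_lit 1762501), (nat_lit 1271251), (nat_lit 1271251), [(nat_lit 490000), (nat_lit 1100000), (nat_lit 1785001)], [(nat_lit 4), (nat_lit 51), (nat_lit 345), (nat_lit 125), (nat_lit 10)]⟩,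
 ⟨⟨[(nat_lit 80), (nat_lit 120), (nat_lit 160)], [(nat_lit 0), (nat_lit 528), (nat_lit 2577)], [((nat_lit 0), (nat_lit 0), (nat_lit 0)), ((nat_lit 1000), (nat_lit 959), (nat_lit 206)), ((nat_lit 929), (nat_lit 1000), (nat_lit 742))], ((nat_lit 100), (nat_lit 88), (nat_lit 81))⟩, (nat_lit 0), (nat_lit 359), (nat_lit 359), (nat_lit 0), (nat_lit 183565), [(nat_lit 670384000), (nat_lit 1139424000), (nat_lit 1697696000)], [], [(nat_lit 6257452104), (nat_lit 5728754296), (nat_lit 5756985031), (nat_lit 5864498998), (nat_lit 5950056553), (nat_lit 6014231979), (nat_lit 7328773116), (nat_lit 6906861628)], (nat_lit 1271251), (nat_lit 1271251), (nat_lit 780000), (nat_lit 1762501), (nat_lit 0), (nat_lit 2683751), [(nat_lit 1100000), (nat_lit 1785001), (nat_lit 1271251)], [(nat_lit 18), (nat_lit 59), (nat_lit 456), (nat_lit 225), (nat_lit 12)]⟩,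
 ⟨⟨[(nat_lit 140), (nat_lit 180), (nat_lit 200)], [(nat_lit 0), (nat_lit 0), (nat_lit 2835)], [((nat_lit 0), (nat_lit 0), (nat_lit 0)), ((nat_lit 0), (nat_lit 0), (nat_lit 0)), ((nat_lit 363), (nat_lit 1000), (nat_lit 798))], ((nat_lit 0), (nat_lit 0), (nat_lit 0))⟩, (nat_lit 9630), (nat_lit 300), (nat_lit 934), (nat_lit 2733500), (nat_lit 1015309), [(nat_lit 344470000), (nat_lit 492030000), (nat_lit 574000000)], [], [(nat_lit 2446405544), (nat_lit 2371598354), (nat_lit 2395276608), (nat_lit 2322978596), (nat_lit 2406106828), (nat_lit 2626438248), (nat_lit 2021187280), (nat_lit 2246322548)], (nat_lit 780000), (nat_lit 1100000), (nat_lit 1271251), (nat_lit 1271251), (nat_lit 0), (nat_lit 2683751), [(nat_lit 1977501), (nat_lit 1271251), (nat_lit 1271251)], [(nat_lit 32), (nat_lit 67), (nat_lit 428), (nat_lit 200), (nat_lit 9)]⟩⟩)))) (.spl (nat_lit 1) (nat_lit 260) (.dle (nat_lit 0)) (.trX (nat_lit 5) (nat_lit 1) (nat_lit 2) (nat_lit 97) (nat_lit 49)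 (nat_lit 100) (nat_lit 380) (.leaf ⟨(nat_lit 730), (nat_lit 205), (nat_lit 0), (nat_lit 65), (nat_lit 11542), (nat_lit 4722), (nat_lit 1872), (nat_lit 470), (nat_lit 0), (nat_lit 0), (nat_lit 182500), [((nat_lit 360), [((nat_lit 22), (nat_lit 0), (nat_lit 730))])], ⟨(nat_lit 6), false, false, false, (nat_lit 218), (nat_lit 3162), (nat_lit 3536), [(nat_lit 1440289), (nat_lit 1444512), (nat_lit 1462233), (nat_lit 1466658), (nat_lit 1628604), (nat_lit 1627403), (nat_lit 1650549), (nat_lit 1649550)]⟩, ⟨(nat_lit 3), false, false, true, (nat_lit 161), (nat_lit 3162), (nat_lit 3536), [(nat_lit 1286665), (nat_lit 1289472), (nat_lit 1330567), (nat_lit 1333779), (nat_lit 1474949), (nat_lit 1472332), (nat_lit 1518855), (nat_lit 1516642)]⟩, (nat_lit 4712723), (nat_lit 43711338), (nat_lit 14393893), (nat_lit 8894769), (nat_lit 3), (nat_lit 0), [⟨(nat_lit 0), (nat_lit 94), (nat_lit 62), (nat_lit 100), (nat_lit 34543599)⟩], [], [], [],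
 ⟨⟨[(nat_lit 40), (nat_lit 80), (nat_lit 120)], [(nat_lit 0), (nat_lit 1195), (nat_lit 3135)], [((nat_lit 0), (nat_lit 0), (nat_lit 0)), ((nat_lit 1000), (nat_lit 720), (nat_lit 465)), ((nat_lit 1000), (nat_lit 661), (nat_lit 757))], ((nat_lit 66), (nat_lit 100), (nat_lit 80))⟩, (nat_lit 0), (nat_lit 97), (nat_lit 97), (nat_lit 0), (nat_lit 34579), [(nat_lit 1875274439), (nat_lit 2704444020), (nat_lit 4131412000)], [(nat_lit 0), (nat_lit 0), (nat_lit 0)], [(nat_lit 19325652666), (nat_lit 20277242827), (nat_lit 22126918190), (nat_lit 22901212770), (nat_lit 22126918190), (nat_lit 22901212770), (nat_lit 24262849898), (nat_lit 25008344280)], (nat_lit 1271251), (nat_lit 1271251), (nat_lit 780000), (nat_lit 1762501), (nat_lit 780000), (nat_lit 1762501), [(nat_lit 490000), (nat_lit 1100000), (nat_lit 1785001)], [(nat_lit 4), (nat_lit 51), (nat_lit 345), (nat_lit 125), (nat_lit 11)]⟩,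
 ⟨⟨[(nat_lit 80), (nat_lit 120), (nat_lit 160)], [(nat_lit 0), (nat_lit 528), (nat_lit 2577)], [((nat_lit 0), (nat_lit 0), (nat_lit 0)), ((nat_lit 1000), (nat_lit 959), (nat_lit 206)), ((nat_lit 929), (nat_lit 1000), (nat_lit 742))], ((nat_lit 100), (nat_lit 85), (nat_lit 84))⟩, (nat_lit 0), (nat_lit 247), (nat_lit 247), (nat_lit 0), (nat_lit 64625), [(nat_lit 1265760000), (nat_lit 2151360000), (nat_lit 3205440000)], [], [(nat_lit 11812681944), (nat_lit 10815285474), (nat_lit 10871725374), (nat_lit 11073627180), (nat_lit 11235777885), (nat_lit 11356945965), (nat_lit 13837102920), (nat_lit 13040915112)], (nat_lit 1271251), (nat_lit 1271251), (nat_lit 780000), (nat_lit 1762501), (nat_lit 0), (nat_lit 2683751), [(nat_lit 1100000), (nat_lit 1785001), (nat_lit 1271251)], [(nat_lit 18), (nat_lit 59), (nat_lit 456), (nat_lit 225), (nat_lit 12)]⟩,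
 ⟨⟨[(nat_lit 140), (nat_lit 180), (nat_lit 200)], [(nat_lit 0), (nat_lit 0), (nat_lit 2835)], [((nat_lit 0), (nat_lit 0), (nat_lit 0)), ((nat_lit 0), (nat_lit 0), (nat_lit 0)), ((nat_lit 363), (nat_lit 1000), (nat_lit 798))], ((nat_lit 0), (nat_lit 0), (nat_lit 0))⟩, (nat_lit 17884), (nat_lit 300), (nat_lit 664), (nat_lit 5076500), (nat_lit 316029), [(nat_lit 639730000), (nat_lit 913770000), (nat_lit 1066000000)], [], [(nat_lit 5157448544), (nat_lit 5095476086), (nat_lit 5021423420), (nat_lit 4958584053), (nat_lit 4719121121), (nat_lit 4653304590), (nat_lit 4662442540), (nat_lit 4940040650)], (nat_lit 780000), (nat_lit 1100000), (nat_lit 780000), (nat_lit 1762501), (nat_lit 0), (nat_lit 2683751), [(nat_lit 1977501), (nat_lit 1271251), (nat_lit 1271251)], [(nat_lit 32), (nat_lit 67), (nat_lit 428), (nat_lit 200), (nat_lit 9)]⟩⟩)))))) (.spl (nat_lit 6) (nat_lit 64) (.leaf ⟨(nat_lit 931), (nat_lit 5), (nat_lit 0), (nat_lit 64), (nat_lit 21815), (nat_lit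 4139), (nat_lit 716), (nat_lit 710), (nat_lit 0), (nat_lit 0), (nat_lit 232750), [((nat_lit 360), [((nat_lit 22), (nat_lit 0), (nat_lit 931))])], ⟨(nat_lit 6), false, false, false, (nat_lit 208), (nat_lit 3162), (nat_lit 3536), [(nat_lit 1386958), (nat_lit 1391883), (nat_lit 1430847), (nat_lit 1436176), (nat_lit 1606660), (nat_lit 1605256), (nat_lit 1650549), (nat_lit 1649550)]⟩, ⟨(nat_lit 4), false, false, true, (nat_lit 174), (nat_lit 3162), (nat_lit 3536), [(nat_lit 1330567), (nat_lit 1333779), (nat_lit 1352511), (nat_lit 1355925), (nat_lit 1518855), (nat_lit 1516642), (nat_lit 1540807), (nat_lit 1538797)]⟩, (nat_lit 4758973), (nat_lit 43661281), (nat_lit 13281839), (nat_lit 10056880), (nat_lit 4), (nat_lit 0), [⟨(nat_lit 0), (nat_lit 94), (nat_lit 62), (nat_lit 100), (nat_lit 35550084)⟩], [], [], [],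
 ⟨⟨[(nat_lit 40), (nat_lit 80), (nat_lit 100)], [(nat_lit 0), (nat_lit 1195), (nat_lit 2166)], [((nat_lit 0), (nat_lit 0), (nat_lit 0)), ((nat_lit 1000), (nat_lit 720), (nat_lit 465)), ((nat_lit 1000), (nat_lit 662), (nat_lit 740))], ((nat_lit 66), (nat_lit 100), (nat_lit 73))⟩, (nat_lit 0), (nat_lit 107), (nat_lit 107), (nat_lit 0), (nat_lit 34719), [(nat_lit 1723142879), (nat_lit 2158286803), (nat_lit 2601224800)], [(nat_lit 0), (nat_lit 0), (nat_lit 0)], [(nat_lit 18862930371), (nat_lit 19768240378), (nat_lit 21878717844), (nat_lit 22599696928), (nat_lit 21763315663), (nat_lit 22503031318), (nat_lit 24064573091), (nat_lit 24660444860)], (nat_lit 1271251), (nat_lit 1271251), (nat_lit 631250), (nat_lit 1751251), (nat_lit 780000), (nat_lit 1762501), [(nat_lit 490000), (nat_lit 1100000), (nat_lit 1442501)], [(nat_lit 3), (nat_lit 50), (nat_lit 345), (nat_lit 125), (nat_lit 12)]⟩,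
 ⟨⟨[(nat_lit 80), (nat_lit 120), (nat_lit 160)], [(nat_lit 0), (nat_lit 0), (nat_lit 2132)], [((nat_lit 0), (nat_lit 0), (nat_lit 0)), ((nat_lit 0), (nat_lit 0), (nat_lit 0)), ((nat_lit 858), (nat_lit 1000), (nat_lit 713))], ((nat_lit 100), (nat_lit 83), (nat_lit 75))⟩, (nat_lit 0), (nat_lit 326), (nat_lit 326), (nat_lit 0), (nat_lit 74815), [(nat_lit 323472000), (nat_lit 549792000), (nat_lit 819168000)], [], [(nat_lit 2968649568), (nat_lit 2644345449), (nat_lit 2708008772), (nat_lit 2641934532), (nat_lit 3833566240), (nat_lit 3217027232), (nat_lit 5209333912), (nat_lit 4618270184)], (nat_lit 1271251), (nat_lit 1271251), (nat_lit 631250), (nat_lit 1751251), (nat_lit 0), (nat_lit 2825001), [(nat_lit 1100000), (nat_lit 1785001), (nat_lit 1271251)], [(nat_lit 18), (nat_lit 59), (nat_lit 483), (nat_lit 250), (nat_lit 13)]⟩,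
 ⟨⟨[(nat_lit 120), (nat_lit 160), (nat_lit 200)], [(nat_lit 0), (nat_lit 0), (nat_lit 3198)], [((nat_lit 0), (nat_lit 0), (nat_lit 0)), ((nat_lit 0), (nat_lit 0), (nat_lit 0)), ((nat_lit 572), (nat_lit 1000), (nat_lit 714))], ((nat_lit 0), (nat_lit 0), (nat_lit 0))⟩, (nat_lit 31220), (nat_lit 300), (nat_lit 533), (nat_lit 4748800), (nat_lit 176667), [(nat_lit 509952000), (nat_lit 759808000), (nat_lit 1049600000)], [], [(nat_lit 4115575749), (nat_lit 4093596291), (nat_lit 3904726575), (nat_lit 3881039512), (nat_lit 3793464208), (nat_lit 4004170439), (nat_lit 4926614184), (nat_lit 5149264390)], (nat_lit 1100000), (nat_lit 1271251), (nat_lit 780000), (nat_lit 1762501), (nat_lit 0), (nat_lit 2825001), [(nat_lit 1695001), (nat_lit 1271251), (nat_lit 1271251)], [(nat_lit 29), (nat_lit 66), (nat_lit 456), (nat_lit 225), (nat_lit 10)]⟩⟩) (.dle (nat_lit 0)))))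
noncomputable def c8_86 : Tr Lf :=
 (.trZ (nat_lit 0) (nat_lit 1) (nat_lit 3) (nat_lit 99) (nat_lit 77) (nat_lit 100) (nat_lit 120) (.spl (nat_lit 5) (nat_lit 200) (.spl (nat_lit 6) (nat_lit 88) (.stt (nat_lit 1) (.leaf ⟨(nat_lit 0), (nat_lit 1000), (nat_lit 0), (nat_lit 0), (nat_lit 1971), (nat_lit 3704), (nat_lit 10361), (nat_lit 0), (nat_lit 0), (nat_lit 0), (nat_lit 0), [], Pd.none, Pd.none, (nat_lit 0), (nat_lit 1), (nat_lit 0), (nat_lit 0), (nat_lit 3), (nat_lit 0), [⟨(nat_lit 0), (nat_lit 88), (nat_lit 67), (nat_lit 100), (nat_lit 581935422)⟩], [], [], [],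
 ⟨⟨[(nat_lit 40), (nat_lit 80), (nat_lit 120)], [(nat_lit 0), (nat_lit 795), (nat_lit 2800)], [((nat_lit 0), (nat_lit 0), (nat_lit 0)), ((nat_lit 1000), (nat_lit 814), (nat_lit 310)), ((nat_lit 1000), (nat_lit 719), (nat_lit 783))], ((nat_lit 73), (nat_lit 100), (nat_lit 85))⟩, (nat_lit 0), (nat_lit 58), (nat_lit 58), (nat_lit 0), (nat_lit 0), [(nat_lit 2032000011), (nat_lit 103917963498), (nat_lit 7968000000)], [], [(nat_lit 17323929221), (nat_lit 19253639544), (nat_lit 20601103007), (nat_lit 22110901832), (nat_lit 20601103007), (nat_lit 22110901832), (nat_lit 23206535611), (nat_lit 24453844939)], (nat_lit 0), (nat_lit 0), (nat_lit 0), (nat_lit 0), (nat_lit 0), (nat_lit 0), [], [(nat_lit 4), (nat_lit 51), (nat_lit 345), (nat_lit 125), (nat_lit 11)]⟩,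
 ⟨⟨[(nat_lit 60), (nat_lit 120), (nat_lit 160)], [(nat_lit 0), (nat_lit 0), (nat_lit 3243)], [((nat_lit 0), (nat_lit 0), (nat_lit 0)), ((nat_lit 0), (nat_lit 0), (nat_lit 0)), ((nat_lit 878), (nat_lit 1000), (nat_lit 945))], ((nat_lit 100), (nat_lit 92), (nat_lit 90))⟩, (nat_lit 293203), (nat_lit 484), (nat_lit 484), (nat_lit 0), (nat_lit 392218), [(nat_lit 3282000000), (nat_lit 7968000000), (nat_lit 11872000000)], [], [(nat_lit 37935162289), (nat_lit 39682045961), (nat_lit 37411276875), (nat_lit 40285041419), (nat_lit 30476618296), (nat_lit 31724674735), (nat_lit 32867778609), (nat_lit 30957226751)], (nat_lit 1271251), (nat_lit 1271251), (nat_lit 780000), (nat_lit 1762501), (nat_lit 0), (nat_lit 1412501), [(nat_lit 780000), (nat_lit 1762501), (nat_lit 1271251)], [(nat_lit 12), (nat_lit 59), (nat_lit 428), (nat_lit 200), (nat_lit 11)]⟩,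
 Rw.none⟩) (.leaf ⟨(nat_lit 0), (nat_lit 1000), (nat_lit 0), (nat_lit 0), (nat_lit 10832), (nat_lit 7275), (nat_lit 10270), (nat_lit 0), (nat_lit 0), (nat_lit 0), (nat_lit 0), [], Pd.none, Pd.none, (nat_lit 0), (nat_lit 1), (nat_lit 0), (nat_lit 0), (nat_lit 3), (nat_lit 0), [⟨(nat_lit 0), (nat_lit 88), (nat_lit 67), (nat_lit 100), (nat_lit 645453440)⟩], [], [], [],
 ⟨⟨[(nat_lit 40), (nat_lit 80), (nat_lit 120)], [(nat_lit 0), (nat_lit 795), (nat_lit 2800)], [((nat_lit 0), (nat_lit 0), (nat_lit 0)), ((nat_lit 1000), (nat_lit 814), (nat_lit 310)), ((nat_lit 1000), (nat_lit 719), (nat_lit 783))], ((nat_lit 73), (nat_lit 100), (nat_lit 85))⟩, (nat_lit 1408403), (nat_lit 189), (nat_lit 189), (nat_lit 0), (nat_lit 292638), [(nat_lit 2749201803), (nat_lit 5217231488), (nat_lit 7968000000)], [], [(nat_lit 21304657113), (nat_lit 23443881525), (nat_lit 23385911725), (nat_lit 25107131050), (nat_lit 23385911725), (nat_lit 25107131050), (nat_lit 24612786050),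 (nat_lit 26531821500)], (nat_lit 1271251), (nat_lit 1271251), (nat_lit 780000), (nat_lit 1762501), (nat_lit 780000), (nat_lit 1762501), [(nat_lit 490000), (nat_lit 1100000), (nat_lit 1785001)], [(nat_lit 4), (nat_lit 51), (nat_lit 345), (nat_lit 125), (nat_lit 11)]⟩,
 ⟨⟨[(nat_lit 60), (nat_lit 120), (nat_lit 160)], [(nat_lit 0), (nat_lit 0), (nat_lit 3243)], [((nat_lit 0), (nat_lit 0), (nat_lit 0)), ((nat_lit 0), (nat_lit 0), (nat_lit 0)), ((nat_lit 878), (nat_lit 1000), (nat_lit 945))], ((nat_lit 100), (nat_lit 92), (nat_lit 90))⟩, (nat_lit 120371), (nat_lit 379), (nat_lit 379), (nat_lit 0), (nat_lit 220535), [(nat_lit 3282000000), (nat_lit 7968000000), (nat_lit 11872000000)], [], [(nat_lit 37550450307), (nat_lit 40168784727), (nat_lit 37982532947), (nat_lit 40791457207), (nat_lit 30127911822), (nat_lit 32071003417), (nat_lit 32962803630), (nat_lit 31577118447)], (nat_lit 1271251), (nat_lit 1271251), (nat_lit 780000), (nat_lit 1762501), (nat_lit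 0), (nat_lit 1412501), [(nat_lit 780000), (nat_lit 1762501), (nat_lit 1271251)], [(nat_lit 12), (nat_lit 59), (nat_lit 428), (nat_lit 200), (nat_lit 11)]⟩,
 Rw.none⟩)) (.leaf ⟨(nat_lit 0), (nat_lit 1000), (nat_lit 0), (nat_lit 0), (nat_lit 27461), (nat_lit 10422), (nat_lit 8065), (nat_lit 0), (nat_lit 0), (nat_lit 0), (nat_lit 0), [], Pd.none, Pd.none, (nat_lit 0), (nat_lit 1), (nat_lit 0), (nat_lit 0), (nat_lit 3), (nat_lit 0), [⟨(nat_lit 0), (nat_lit 80), (nat_lit 60), (nat_lit 100), (nat_lit 1019313288)⟩], [], [], [],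
 ⟨⟨[(nat_lit 40), (nat_lit 100), (nat_lit 140)], [(nat_lit 0), (nat_lit 1192), (nat_lit 4003)], [((nat_lit 0), (nat_lit 0), (nat_lit 0)), ((nat_lit 1000), (nat_lit 814), (nat_lit 310)), ((nat_lit 992), (nat_lit 771), (nat_lit 1000))], ((nat_lit 76), (nat_lit 100), (nat_lit 97))⟩, (nat_lit 688665), (nat_lit 173), (nat_lit 173), (nat_lit 0), (nat_lit 123364), [(nat_lit 3790849628), (nat_lit 8702786714), (nat_lit 9842000000)], [], [(nat_lit 25801535480), (nat_lit 28286348572), (nat_lit 26812932782), (nat_lit 28789710783), (nat_lit 26812932782), (nat_lit 28789710783), (nat_lit 26835888119), (nat_lit 28409762280)], (nat_lit 1271251), (nat_lit 1271251), (nat_lit 780000), (nat_lit 1762501), (nat_lit 780000), (nat_lit 1762501), [(nat_lit 490000), (nat_lit 1427501), (nat_lit 1271251)], [(nat_lit 5), (nat_lit 55), (nat_lit 345), (nat_lit 125), (nat_lit 9)]⟩,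
 ⟨⟨[(nat_lit 60), (nat_lit 120), (nat_lit 180)], [(nat_lit 0), (nat_lit 0), (nat_lit 4796)], [((nat_lit 0), (nat_lit 0), (nat_lit 0)), ((nat_lit 0), (nat_lit 0), (nat_lit 0)), ((nat_lit 802), (nat_lit 1000), (nat_lit 999))], ((nat_lit 100), (nat_lit 82), (nat_lit 99))⟩, (nat_lit 2253838), (nat_lit 419), (nat_lit 419), (nat_lit 0), (nat_lit 165228), [(nat_lit 3282000000), (nat_lit 7968000000), (nat_lit 14058000000)], [], [(nat_lit 35140112100), (nat_lit 35728982052), (nat_lit 34047145422), (nat_lit 35553499492), (nat_lit 28001826522), (nat_lit 29484526377), (nat_lit 27891322627), (nat_lit 29302931550)], (nat_lit 1271251), (nat_lit 1271251), (nat_lit 780000), (nat_lit 1762501), (nat_lit 0), (nat_lit 1412501), [(nat_lit 780000), (nat_lit 1762501), (nat_lit 1271251)], [(nat_lit 13), (nat_lit 60), (nat_lit 428), (nat_lit 200), (nat_lit 10)]⟩,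
 Rw.none⟩)) (.stt (nat_lit 1) (.spl (nat_lit 1) (nat_lit 300) (.spl (nat_lit 6) (nat_lit 96) (.leaf ⟨(nat_lit 0), (nat_lit 793), (nat_lit 0), (nat_lit 207), (nat_lit 6), (nat_lit 3704), (nat_lit 8865), (nat_lit 2350), (nat_lit 0), (nat_lit 0), (nat_lit 0), [], Pd.none, Pd.none, (nat_lit 0), (nat_lit 1), (nat_lit 0), (nat_lit 0), (nat_lit 5), (nat_lit 0), [⟨(nat_lit 0), (nat_lit 92), (nat_lit 68), (nat_lit 100), (nat_lit 603052068)⟩], [], [⟨(nat_lit 1), (nat_lit 59), (nat_lit 90), (nat_lit 100), (nat_lit 284032325)⟩], [],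
 ⟨⟨[(nat_lit 40), (nat_lit 100), (nat_lit 140)], [(nat_lit 0), (nat_lit 1192), (nat_lit 4003)], [((nat_lit 0), (nat_lit 0), (nat_lit 0)), ((nat_lit 1000), (nat_lit 814), (nat_lit 310)), ((nat_lit 992), (nat_lit 771), (nat_lit 1000))], ((nat_lit 74), (nat_lit 100), (nat_lit 88))⟩, (nat_lit 0), (nat_lit 72), (nat_lit 72), (nat_lit 0), (nat_lit 0), [(nat_lit 2032000020), (nat_lit 107515744540), (nat_lit 9842000000)], [], [(nat_lit 17323929230), (nat_lit 19253639544), (nat_lit 20601103016), (nat_lit 22110901832), (nat_lit 20601103016), (nat_lit 22110901832), (nat_lit 23206535620), (nat_lit 24453844948)], (nat_lit 0), (nat_lit 0), (nat_lit 0), (nat_lit 0), (nat_lit 0), (nat_lit 0), [], [(nat_lit 5), (nat_lit 55), (nat_lit 345), (nat_lit 125), (nat_lit 9)]⟩,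
 ⟨⟨[(nat_lit 60), (nat_lit 120), (nat_lit 160)], [(nat_lit 0), (nat_lit 0), (nat_lit 3243)], [((nat_lit 0), (nat_lit 0), (nat_lit 0)), ((nat_lit 0), (nat_lit 0), (nat_lit 0)), ((nat_lit 878), (nat_lit 1000), (nat_lit 945))], ((nat_lit 100), (nat_lit 89), (nat_lit 93))⟩, (nat_lit 1907715), (nat_lit 265), (nat_lit 265), (nat_lit 0), (nat_lit 289825), [(nat_lit 3282000000), (nat_lit 7968000000), (nat_lit 11872000000)], [], [(nat_lit 26651501768), (nat_lit 27558769869), (nat_lit 26831710155), (nat_lit 27519911330), (nat_lit 34575496600), (nat_lit 35191366483), (nat_lit 33718386850), (nat_lit 34635491095)], (nat_lit 1271251), (nat_lit 1271251), (nat_lit 780000), (nat_lit 1762501), (nat_lit 1271251), (nat_lit 1271251), [(nat_lit 780000), (nat_lit 1762501), (nat_lit 1271251)], [(nat_lit 12), (nat_lit 59), (nat_lit 483), (nat_lit 250), (nat_lit 12)]⟩,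
 ⟨⟨[(nat_lit 140), (nat_lit 180), (nat_lit 200)], [(nat_lit 0), (nat_lit 0), (nat_lit 2835)], [((nat_lit 0), (nat_lit 0), (nat_lit 0)), ((nat_lit 0), (nat_lit 0), (nat_lit 0)), ((nat_lit 363), (nat_lit 1000), (nat_lit 798))], ((nat_lit 0), (nat_lit 0), (nat_lit 0))⟩, (nat_lit 56952), (nat_lit 300), (nat_lit 1220), (nat_lit 16166706), (nat_lit 1831725), [(nat_lit 2037294000), (nat_lit 2910006000), (nat_lit 3394800000)], [], [(nat_lit 13508744391), (nat_lit 12671680030), (nat_lit 12490987986), (nat_lit 11665398559), (nat_lit 12673832416), (nat_lit 11820436533), (nat_lit 11631582064), (nat_lit 10779469191)], (nat_lit 780000), (nat_lit 1598751), (nat_lit 780000), (nat_lit 1762501), (nat_lit 1271251), (nat_lit 1271251), [(nat_lit 1977501), (nat_lit 1271251), (nat_lit 1271251)], [(nat_lit 32), (nat_lit 67), (nat_lit 456), (nat_lit 225), (nat_lit 10)]⟩⟩) (.dle (nat_lit 0))) (.trZ (nat_lit 0) (nat_lit 1) (nat_lit 3) (nat_lit 90) (nat_lit 74) (nat_lit 100)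 (nat_lit 140) (.trX (nat_lit 5) (nat_lit 1) (nat_lit 2) (nat_lit 87) (nat_lit 41) (nat_lit 100) (nat_lit 390) (.leaf ⟨(nat_lit 0), (nat_lit 903), (nat_lit 0), (nat_lit 97), (nat_lit 12146), (nat_lit 3767), (nat_lit 7488), (nat_lit 1107), (nat_lit 0), (nat_lit 0), (nat_lit 0), [], Pd.none, Pd.none, (nat_lit 0), (nat_lit 1), (nat_lit 0), (nat_lit 0), (nat_lit 5), (nat_lit 0), [⟨(nat_lit 0), (nat_lit 84), (nat_lit 67), (nat_lit 100), (nat_lit 583198769)⟩], [], [⟨(nat_lit 1), (nat_lit 68), (nat_lit 84), (nat_lit 100), (nat_lit 385171321)⟩], [],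
 ⟨⟨[(nat_lit 40), (nat_lit 100), (nat_lit 140)], [(nat_lit 0), (nat_lit 1192), (nat_lit 4003)], [((nat_lit 0), (nat_lit 0), (nat_lit 0)), ((nat_lit 1000), (nat_lit 814), (nat_lit 310)), ((nat_lit 992), (nat_lit 771), (nat_lit 1000))], ((nat_lit 76), (nat_lit 100), (nat_lit 97))⟩, (nat_lit 0), (nat_lit 66), (nat_lit 66), (nat_lit 0), (nat_lit 0), [(nat_lit 2032000021), (nat_lit 107447457426), (nat_lit 9842000000)], [], [(nat_lit 17547798796), (nat_lit 19449725131), (nat_lit 20581367417), (nat_lit 22159801361), (nat_lit 20757446297), (nat_lit 22257652553), (nat_lit 23180652071), (nat_lit 24438457580)], (nat_lit 0), (nat_lit 0), (nat_lit 0), (nat_lit 0), (nat_lit 0), (nat_lit 0), [], [(nat_lit 5), (nat_lit 55), (nat_lit 345), (nat_lit 125), (nat_lit 9)]⟩,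
 ⟨⟨[(nat_lit 60), (nat_lit 120), (nat_lit 160)], [(nat_lit 0), (nat_lit 913), (nat_lit 3885)], [((nat_lit 0), (nat_lit 0), (nat_lit 0)), ((nat_lit 1000), (nat_lit 905), (nat_lit 238)), ((nat_lit 886), (nat_lit 948), (nat_lit 1000))], ((nat_lit 95), (nat_lit 90), (nat_lit 100))⟩, (nat_lit 2013469), (nat_lit 322), (nat_lit 322), (nat_lit 0), (nat_lit 382248), [(nat_lit 3282000000), (nat_lit 7968000000), (nat_lit 11872000000)], [], [(nat_lit 26048707082), (nat_lit 26866041266), (nat_lit 26635104178), (nat_lit 27288474138), (nat_lit 32374790591), (nat_lit 32982629163), (nat_lit 32321932161), (nat_lit 33226835880)], (nat_lit 1271251), (nat_lit 1271251), (nat_lit 936250), (nat_lit 1773751), (nat_lit 1271251), (nat_lit 1271251), [(nat_lit 780000), (nat_lit 1762501), (nat_lit 1271251)], [(nat_lit 12), (nat_lit 59), (nat_lit 483), (nat_lit 250), (nat_lit 12)]⟩,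
 ⟨⟨[(nat_lit 140), (nat_lit 180), (nat_lit 200)], [(nat_lit 0), (nat_lit 0), (nat_lit 2835)], [((nat_lit 0), (nat_lit 0), (nat_lit 0)), ((nat_lit 0), (nat_lit 0), (nat_lit 0)), ((nat_lit 363), (nat_lit 1000), (nat_lit 798))], ((nat_lit 0), (nat_lit 0), (nat_lit 0))⟩, (nat_lit 26688), (nat_lit 300), (nat_lit 1669), (nat_lit 7575700), (nat_lit 2796503), [(nat_lit 954674000), (nat_lit 1363626000), (nat_lit 1590800000)], [], [(nat_lit 6292638363), (nat_lit 5904087457), (nat_lit 5818821134), (nat_lit 5429387273), (nat_lit 5919938264), (nat_lit 5519617308), (nat_lit 5430953101), (nat_lit 5030466849)], (nat_lit 780000), (nat_lit 1598751), (nat_lit 780000), (nat_lit 1762501), (nat_lit 1271251), (nat_lit 1271251), [(nat_lit 1977501), (nat_lit 1271251), (nat_lit 1271251)], [(nat_lit 32), (nat_lit 67), (nat_lit 524), (nat_lit 225), (nat_lit 11)]⟩⟩)))) (.spl (nat_lit 1) (nat_lit 300) (.spl (nat_lit 6) (nat_lit 96) (.leaf ⟨(nat_lit 0), (nat_lit 667), (nat_lit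 0), (nat_lit 333), (nat_lit 0), (nat_lit 5811), (nat_lit 8590), (nat_lit 3856), (nat_lit 0), (nat_lit 0), (nat_lit 0), [], Pd.none, Pd.none, (nat_lit 0), (nat_lit 1), (nat_lit 0), (nat_lit 0), (nat_lit 5), (nat_lit 0), [⟨(nat_lit 0), (nat_lit 92), (nat_lit 68), (nat_lit 100), (nat_lit 593850749)⟩, ⟨(nat_lit 0), (nat_lit 87), (nat_lit 60), (nat_lit 100), (nat_lit 13988924)⟩], [], [⟨(nat_lit 1), (nat_lit 59), (nat_lit 90), (nat_lit 100), (nat_lit 199903102)⟩], [],
 ⟨⟨[(nat_lit 40), (nat_lit 100), (nat_lit 140)], [(nat_lit 0), (nat_lit 1192), (nat_lit 4003)], [((nat_lit 0), (nat_lit 0), (nat_lit 0)), ((nat_lit 1000), (nat_lit 814), (nat_lit 310)), ((nat_lit 992), (nat_lit 771), (nat_lit 1000))], ((nat_lit 74), (nat_lit 100), (nat_lit 88))⟩, (nat_lit 2525614), (nat_lit 199), (nat_lit 199), (nat_lit 0), (nat_lit 196226), [(nat_lit 2421828267), (nat_lit 6250000515), (nat_lit 9842000000)], [], [(nat_lit 19809558371), (nat_lit 21493976792), (nat_lit 22117206629),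 (nat_lit 23746319413), (nat_lit 22117206629), (nat_lit 23746319413), (nat_lit 23980374358), (nat_lit 25658194140)], (nat_lit 1271251), (nat_lit 1271251), (nat_lit 780000), (nat_lit 1762501), (nat_lit 780000), (nat_lit 1762501), [(nat_lit 490000), (nat_lit 1427501), (nat_lit 1271251)], [(nat_lit 5), (nat_lit 55), (nat_lit 345), (nat_lit 125), (nat_lit 9)]⟩,
 ⟨⟨[(nat_lit 60), (nat_lit 120), (nat_lit 160)], [(nat_lit 0), (nat_lit 0), (nat_lit 3243)], [((nat_lit 0), (nat_lit 0), (nat_lit 0)), ((nat_lit 0), (nat_lit 0), (nat_lit 0)), ((nat_lit 878), (nat_lit 1000), (nat_lit 945))], ((nat_lit 100), (nat_lit 89), (nat_lit 93))⟩, (nat_lit 2023338), (nat_lit 222), (nat_lit 222), (nat_lit 0), (nat_lit 161999), [(nat_lit 3282000000), (nat_lit 7968000000), (nat_lit 11872000000)], [], [(nat_lit 23308600931), (nat_lit 24619145379), (nat_lit 24476677306), (nat_lit 25489521686), (nat_lit 34186095576), (nat_lit 34797814235), (nat_lit 33436377100), (nat_lit 34341707770)],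 (nat_lit 1271251), (nat_lit 1271251), (nat_lit 780000), (nat_lit 1762501), (nat_lit 1271251), (nat_lit 1271251), [(nat_lit 780000), (nat_lit 1762501), (nat_lit 1271251)], [(nat_lit 12), (nat_lit 59), (nat_lit 483), (nat_lit 250), (nat_lit 12)]⟩,
 ⟨⟨[(nat_lit 140), (nat_lit 180), (nat_lit 200)], [(nat_lit 0), (nat_lit 0), (nat_lit 2835)], [((nat_lit 0), (nat_lit 0), (nat_lit 0)), ((nat_lit 0), (nat_lit 0), (nat_lit 0)), ((nat_lit 363), (nat_lit 1000), (nat_lit 798))], ((nat_lit 0), (nat_lit 0), (nat_lit 0))⟩, (nat_lit 91619), (nat_lit 300), (nat_lit 858), (nat_lit 26007301), (nat_lit 1045272), [(nat_lit 3277386000), (nat_lit 4681314000), (nat_lit 5461200000)], [], [(nat_lit 21135815267), (nat_lit 19848915919), (nat_lit 19558802426), (nat_lit 18254491545), (nat_lit 20073171430), (nat_lit 18738413983), (nat_lit 18433674928), (nat_lit 17083459635)], (nat_lit 780000), (nat_lit 1598751), (nat_lit 780000), (nat_lit 1762501), (nat_lit 1271251), (nat_lit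 1271251), [(nat_lit 1977501), (nat_lit 1271251), (nat_lit 1271251)], [(nat_lit 32), (nat_lit 67), (nat_lit 456), (nat_lit 225), (nat_lit 10)]⟩⟩) (.dle (nat_lit 0))) (.trZ (nat_lit 0) (nat_lit 1) (nat_lit 3) (nat_lit 90) (nat_lit 74) (nat_lit 100) (nat_lit 140) (.trX (nat_lit 5) (nat_lit 1) (nat_lit 2) (nat_lit 87) (nat_lit 41) (nat_lit 100) (nat_lit 390) (.leaf ⟨(nat_lit 0), (nat_lit 722), (nat_lit 0), (nat_lit 278), (nat_lit 0), (nat_lit 6584), (nat_lit 6982), (nat_lit 3201), (nat_lit 0), (nat_lit 0), (nat_lit 0), [], Pd.none, Pd.none, (nat_lit 0), (nat_lit 1), (nat_lit 0), (nat_lit 0), (nat_lit 5), (nat_lit 0), [⟨(nat_lit 0), (nat_lit 84), (nat_lit 67), (nat_lit 100), (nat_lit 615889888)⟩], [], [⟨(nat_lit 1), (nat_lit 68), (nat_lit 84), (nat_lit 100), (nat_lit 241428290)⟩], [],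
 ⟨⟨[(nat_lit 40), (nat_lit 100), (nat_lit 140)], [(nat_lit 0), (nat_lit 1192), (nat_lit 4003)], [((nat_lit 0), (nat_lit 0), (nat_lit 0)), ((nat_lit 1000), (nat_lit 814), (nat_lit 310)), ((nat_lit 992), (nat_lit 771), (nat_lit 1000))], ((nat_lit 76), (nat_lit 100), (nat_lit 97))⟩, (nat_lit 2121285), (nat_lit 226), (nat_lit 226), (nat_lit 0), (nat_lit 296433), [(nat_lit 2556353759), (nat_lit 6260618975), (nat_lit 9842000000)], [], [(nat_lit 21397390697), (nat_lit 22867165541), (nat_lit 22871830789), (nat_lit 24346308872), (nat_lit 22701526087), (nat_lit 24187036980), (nat_lit 24309036952), (nat_lit 26119474160)], (nat_lit 1271251), (nat_lit 1271251), (nat_lit 936250), (nat_lit 1773751), (nat_lit 780000), (nat_lit 1762501), [(nat_lit 490000), (nat_lit 1427501), (nat_lit 1271251)], [(nat_lit 5), (nat_lit 55), (nat_lit 345), (nat_lit 125), (nat_lit 9)]⟩,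
 ⟨⟨[(nat_lit 60), (nat_lit 120), (nat_lit 160)], [(nat_lit 0), (nat_lit 913), (nat_lit 3885)], [((nat_lit 0), (nat_lit 0), (nat_lit 0)), ((nat_lit 1000), (nat_lit 905), (nat_lit 238)), ((nat_lit 886), (nat_lit 948), (nat_lit 1000))], ((nat_lit 95), (nat_lit 90), (nat_lit 100))⟩, (nat_lit 2180439), (nat_lit 229), (nat_lit 229), (nat_lit 0), (nat_lit 216227), [(nat_lit 3282000000), (nat_lit 7968000000), (nat_lit 11872000000)], [], [(nat_lit 23346640148), (nat_lit 24485477683), (nat_lit 24720035321), (nat_lit 25642619445), (nat_lit 31770235562), (nat_lit 32549350599), (nat_lit 32069993753), (nat_lit 32697301820)], (nat_lit 1271251), (nat_lit 1271251), (nat_lit 936250), (nat_lit 1773751), (nat_lit 1271251), (nat_lit 1271251), [(nat_lit 780000), (nat_lit 1762501), (nat_lit 1271251)], [(nat_lit 12), (nat_lit 59), (nat_lit 483), (nat_lit 250), (nat_lit 12)]⟩,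
 ⟨⟨[(nat_lit 140), (nat_lit 180), (nat_lit 200)], [(nat_lit 0), (nat_lit 0), (nat_lit 2835)], [((nat_lit 0), (nat_lit 0), (nat_lit 0)), ((nat_lit 0), (nat_lit 0), (nat_lit 0)), ((nat_lit 363), (nat_lit 1000), (nat_lit 798))], ((nat_lit 0), (nat_lit 0), (nat_lit 0))⟩, (nat_lit 76487), (nat_lit 300), (nat_lit 1122), (nat_lit 21711800), (nat_lit 1630483), [(nat_lit 2736076000), (nat_lit 3908124000), (nat_lit 4559200000)], [], [(nat_lit 17881642437), (nat_lit 16755268309), (nat_lit 16508157358), (nat_lit 15379326452), (nat_lit 16848332669), (nat_lit 15687770530), (nat_lit 15430805432), (nat_lit 14320983021)], (nat_lit 780000), (nat_lit 1598751), (nat_lit 780000), (nat_lit 1762501), (nat_lit 1271251), (nat_lit 1271251), [(nat_lit 1977501), (nat_lit 1271251), (nat_lit 1271251)], [(nat_lit 32), (nat_lit 67), (nat_lit 456), (nat_lit 225), (nat_lit 10)]⟩⟩)))))))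
noncomputable def c8_87 : Tr Lf :=
 (.spl (nat_lit 6) (nat_lit 80) (.spl (nat_lit 3) (nat_lit 120) (.trX (nat_lit 5) (nat_lit 4) (nat_lit 3) (nat_lit 100) (nat_lit 59) (nat_lit 94) (nat_lit 370) (.leaf ⟨(nat_lit 1000), (nat_lit 0), (nat_lit 0), (nat_lit 0), (nat_lit 38510), (nat_lit 3300), (nat_lit 0), (nat_lit 0), (nat_lit 0), (nat_lit 0), (nat_lit 668800), [((nat_lit 360), [((nat_lit 39), (nat_lit 2), (nat_lit 828)), ((nat_lit 22), (nat_lit 2), (nat_lit 172))])], ⟨(nat_lit 6), false, false, false, (nat_lit 164), (nat_lit 3162), (nat_lit 3873), [(nat_lit 1349867), (nat_lit 1361295), (nat_lit 1393396), (nat_lit 1405548), (nat_lit 1414421), (nat_lit 1422280), (nat_lit 1457950), (nat_lit 1466533)]⟩, ⟨(nat_lit 6), false, false, true, (nat_lit 231), (nat_lit 3162), (nat_lit 3873), [(nat_lit 1477347), (nat_lit 1472332), (nat_lit 1542727), (nat_lit 1538797), (nat_lit 1622521), (nat_lit 1609477), (nat_lit 1687900), (nat_lit 1675942)]⟩, (nat_lit 4819015),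 (nat_lit 42510963), (nat_lit 8958875), (nat_lit 15530162), (nat_lit 0), (nat_lit 0), [⟨(nat_lit 0), (nat_lit 100), (nat_lit 69), (nat_lit 96), (nat_lit 1619806780)⟩], [⟨(nat_lit 1), (nat_lit 92), (nat_lit 68), (nat_lit 100), (nat_lit 322907686)⟩], [], [],
 ⟨⟨[(nat_lit 40), (nat_lit 80), (nat_lit 120)], [(nat_lit 0), (nat_lit 795), (nat_lit 2800)], [((nat_lit 0), (nat_lit 0), (nat_lit 0)), ((nat_lit 1000), (nat_lit 814), (nat_lit 310)), ((nat_lit 1000), (nat_lit 719), (nat_lit 783))], ((nat_lit 72), (nat_lit 100), (nat_lit 81))⟩, (nat_lit 0), (nat_lit 142), (nat_lit 142), (nat_lit 0), (nat_lit 67159), [(nat_lit 1305084809), (nat_lit 952626830), (nat_lit 0)], [(nat_lit 0), (nat_lit 0), (nat_lit 964451200)], [(nat_lit 20409978109), (nat_lit 21558744400), (nat_lit 20729737309), (nat_lit 21797323900), (nat_lit 24723591213), (nat_lit 26002447025), (nat_lit 24870188125), (nat_lit 26092465175)], (nat_lit 1271251), (nat_lit 1271251), (nat_lit 490000), (nat_lit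 780000), (nat_lit 1271251), (nat_lit 1271251), [(nat_lit 490000), (nat_lit 1100000), (nat_lit 1785001)], [(nat_lit 4), (nat_lit 51), (nat_lit 238), (nat_lit 30), (nat_lit 7)]⟩,
 Rw.none,
 Rw.none⟩)) (.spl (nat_lit 2) (nat_lit 160) (.trX (nat_lit 4) (nat_lit 0) (nat_lit 2) (nat_lit 73) (nat_lit 85) (nat_lit 100) (nat_lit 320) (.trX (nat_lit 5) (nat_lit 1) (nat_lit 2) (nat_lit 100) (nat_lit 40) (nat_lit 100) (nat_lit 390) (.spl (nat_lit 0) (nat_lit 350) (.spl (nat_lit 6) (nat_lit 68) (.spl (nat_lit 1) (nat_lit 260) (.dle (nat_lit 0)) (.trX (nat_lit 5) (nat_lit 1) (nat_lit 2) (nat_lit 97) (nat_lit 49) (nat_lit 100) (nat_lit 380) (.leaf ⟨(nat_lit 621), (nat_lit 294), (nat_lit 0), (nat_lit 85), (nat_lit 18796), (nat_lit 4592), (nat_lit 2628), (nat_lit 839), (nat_lit 0), (nat_lit 0), (nat_lit 155250), [((nat_lit 350), [((nat_lit 22), (nat_lit 0), (nat_lit 621))])], ⟨(nat_lit 6), false, false, false, (nat_lit 218), (nat_lit 3535), (nat_lit 3873), [(nat_lit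 1436306), (nat_lit 1440305), (nat_lit 1458093), (nat_lit 1462251), (nat_lit 1629888), (nat_lit 1628606), (nat_lit 1651675), (nat_lit 1650552)]⟩, ⟨(nat_lit 6), false, false, true, (nat_lit 225), (nat_lit 3535), (nat_lit 3873), [(nat_lit 1477347), (nat_lit 1474949), (nat_lit 1520934), (nat_lit 1518855), (nat_lit 1606390), (nat_lit 1600472), (nat_lit 1649977), (nat_lit 1644378)]⟩, (nat_lit 5195368), (nat_lit 39458223), (nat_lit 13432524), (nat_lit 14109253), (nat_lit 6), (nat_lit 0), [⟨(nat_lit 0), (nat_lit 96), (nat_lit 69), (nat_lit 100), (nat_lit 54801571)⟩], [⟨(nat_lit 1), (nat_lit 94), (nat_lit 72), (nat_lit 100), (nat_lit 320633364)⟩], [], [],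
 ⟨⟨[(nat_lit 40), (nat_lit 80), (nat_lit 120)], [(nat_lit 0), (nat_lit 795), (nat_lit 2800)], [((nat_lit 0), (nat_lit 0), (nat_lit 0)), ((nat_lit 1000), (nat_lit 814), (nat_lit 310)), ((nat_lit 1000), (nat_lit 719), (nat_lit 783))], ((nat_lit 72), (nat_lit 100), (nat_lit 75))⟩, (nat_lit 0), (nat_lit 78), (nat_lit 78), (nat_lit 0), (nat_lit 35791), [(nat_lit 1926770791), (nat_lit 3000618801), (nat_lit 4704272400)], [(nat_lit 0), (nat_lit 0), (nat_lit 0)], [(nat_lit 21727126705), (nat_lit 22489532753), (nat_lit 23979957481), (nat_lit 24606607765), (nat_lit 25650869965), (nat_lit 26283803164), (nat_lit 27170390281), (nat_lit 27761527912)], (nat_lit 1271251), (nat_lit 1271251), (nat_lit 780000), (nat_lit 1762501), (nat_lit 1271251), (nat_lit 1271251), [(nat_lit 490000), (nat_lit 1100000), (nat_lit 1785001)], [(nat_lit 4), (nat_lit 51), (nat_lit 272), (nat_lit 60), (nat_lit 8)]⟩,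
 ⟨⟨[(nat_lit 80), (nat_lit 120), (nat_lit 160)], [(nat_lit 0), (nat_lit 528), (nat_lit 2577)], [((nat_lit 0), (nat_lit 0), (nat_lit 0)), ((nat_lit 1000), (nat_lit 959), (nat_lit 206)), ((nat_lit 929), (nat_lit 1000), (nat_lit 742))], ((nat_lit 100), (nat_lit 90), (nat_lit 79))⟩, (nat_lit 0), (nat_lit 247), (nat_lit 247), (nat_lit 0), (nat_lit 62782), [(nat_lit 1776752000), (nat_lit 3019872000), (nat_lit 4499488000)], [], [(nat_lit 16582058266), (nat_lit 15181435444), (nat_lit 15260179747), (nat_lit 15543880454), (nat_lit 15771330868), (nat_lit 15941415561), (nat_lit 19423309328), (nat_lit 18305584136)], (nat_lit 1271251), (nat_lit 1271251), (nat_lit 780000), (nat_lit 1762501), (nat_lit 0), (nat_lit 2683751), [(nat_lit 1100000), (nat_lit 1785001), (nat_lit 1271251)], [(nat_lit 18), (nat_lit 59), (nat_lit 456), (nat_lit 225), (nat_lit 12)]⟩,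
 ⟨⟨[(nat_lit 140), (nat_lit 180), (nat_lit 200)], [(nat_lit 0), (nat_lit 0), (nat_lit 2835)], [((nat_lit 0), (nat_lit 0), (nat_lit 0)), ((nat_lit 0), (nat_lit 0), (nat_lit 0)), ((nat_lit 363), (nat_lit 1000), (nat_lit 798))], ((nat_lit 0), (nat_lit 0), (nat_lit 0))⟩, (nat_lit 23386), (nat_lit 300), (nat_lit 575), (nat_lit 6638504), (nat_lit 299630), [(nat_lit 836570000), (nat_lit 1194930000), (nat_lit 1394000000)], [], [(nat_lit 5837623279), (nat_lit 5716270901), (nat_lit 5851071481), (nat_lit 5722137774), (nat_lit 4947041995), (nat_lit 5272217497), (nat_lit 4881145600), (nat_lit 4747678691)], (nat_lit 780000), (nat_lit 1100000), (nat_lit 1271251), (nat_lit 1271251), (nat_lit 0), (nat_lit 2683751), [(nat_lit 1977501), (nat_lit 1271251), (nat_lit 1271251)], [(nat_lit 32), (nat_lit 67), (nat_lit 456), (nat_lit 225), (nat_lit 10)]⟩⟩))) (.dle (nat_lit 0))) (.trX (nat_lit 4) (nat_lit 0) (nat_lit 2) (nat_lit 68) (nat_lit 89) (nat_lit 100) (nat_lit 300)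 (.spl (nat_lit 1) (nat_lit 260) (.spl (nat_lit 6) (nat_lit 68) (.leaf ⟨(nat_lit 944), (nat_lit 29), (nat_lit 0), (nat_lit 27), (nat_lit 17326), (nat_lit 3920), (nat_lit 185), (nat_lit 389), (nat_lit 0), (nat_lit 0), (nat_lit 236000), [((nat_lit 360), [((nat_lit 22), (nat_lit 0), (nat_lit 944))])], ⟨(nat_lit 6), false, false, false, (nat_lit 210), (nat_lit 3162), (nat_lit 3536), [(nat_lit 1418344), (nat_lit 1422365), (nat_lit 1440289), (nat_lit 1444512), (nat_lit 1606660), (nat_lit 1605256), (nat_lit 1628604), (nat_lit 1627403)]⟩, ⟨(nat_lit 6), false, false, true, (nat_lit 217), (nat_lit 3162), (nat_lit 3536), [(nat_lit 1474949), (nat_lit 1472332), (nat_lit 1518855), (nat_lit 1516642), (nat_lit 1569092), (nat_lit 1563762), (nat_lit 1612997), (nat_lit 1608072)]⟩, (nat_lit 5095279), (nat_lit 40555576), (nat_lit 12867342), (nat_lit 13577082), (nat_lit 6), (nat_lit 0), [], [⟨(nat_lit 1), (nat_lit 97), (nat_lit 66), (nat_lit 100), (nat_lit 289228664)⟩],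 [], [],
 ⟨⟨[(nat_lit 40), (nat_lit 80), (nat_lit 120)], [(nat_lit 0), (nat_lit 1195), (nat_lit 3135)], [((nat_lit 0), (nat_lit 0), (nat_lit 0)), ((nat_lit 1000), (nat_lit 720), (nat_lit 465)), ((nat_lit 1000), (nat_lit 661), (nat_lit 757))], ((nat_lit 66), (nat_lit 100), (nat_lit 75))⟩, (nat_lit 0), (nat_lit 77), (nat_lit 77), (nat_lit 0), (nat_lit 35407), [(nat_lit 1652386187), (nat_lit 2122963244), (nat_lit 3006713600)], [(nat_lit 0), (nat_lit 0), (nat_lit 0)], [(nat_lit 21955319764), (nat_lit 22656271244), (nat_lit 24174426384), (nat_lit 24754673724), (nat_lit 24638127102), (nat_lit 25253234780), (nat_lit 26387215785), (nat_lit 26980319180)], (nat_lit 1271251), (nat_lit 1271251), (nat_lit 780000), (nat_lit 1762501), (nat_lit 1271251), (nat_lit 1271251), [(nat_lit 490000), (nat_lit 1100000), (nat_lit 1785001)], [(nat_lit 4), (nat_lit 51), (nat_lit 272), (nat_lit 60), (nat_lit 8)]⟩,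
 ⟨⟨[(nat_lit 80), (nat_lit 140), (nat_lit 180)], [(nat_lit 0), (nat_lit 0), (nat_lit 3656)], [((nat_lit 0), (nat_lit 0), (nat_lit 0)), ((nat_lit 0), (nat_lit 0), (nat_lit 0)), ((nat_lit 637), (nat_lit 1000), (nat_lit 908))], ((nat_lit 100), (nat_lit 81), (nat_lit 77))⟩, (nat_lit 62065), (nat_lit 387), (nat_lit 387), (nat_lit 0), (nat_lit 74011), [(nat_lit 262528000), (nat_lit 551152000), (nat_lit 787248000)], [], [(nat_lit 2127210050), (nat_lit 2029499434), (nat_lit 2122483524), (nat_lit 2163205974), (nat_lit 2549130294), (nat_lit 2466675482), (nat_lit 3003639141), (nat_lit 2924236494)], (nat_lit 1271251), (nat_lit 1271251), (nat_lit 780000), (nat_lit 1762501), (nat_lit 0), (nat_lit 2754376), [(nat_lit 1100000), (nat_lit 2127501), (nat_lit 1271251)], [(nat_lit 19), (nat_lit 63), (nat_lit 456), (nat_lit 225), (nat_lit 11)]⟩,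
 ⟨⟨[(nat_lit 140), (nat_lit 180), (nat_lit 200)], [(nat_lit 0), (nat_lit 0), (nat_lit 2835)], [((nat_lit 0), (nat_lit 0), (nat_lit 0)), ((nat_lit 0), (nat_lit 0), (nat_lit 0)), ((nat_lit 363), (nat_lit 1000), (nat_lit 798))], ((nat_lit 0), (nat_lit 0), (nat_lit 0))⟩, (nat_lit 7429), (nat_lit 300), (nat_lit 620), (nat_lit 2108700), (nat_lit 348973), [(nat_lit 265734000), (nat_lit 379566000), (nat_lit 442800000)], [], [(nat_lit 1784016380), (nat_lit 1717022812), (nat_lit 1782759496), (nat_lit 1719073669), (nat_lit 1613497909), (nat_lit 1810010474), (nat_lit 1342632928), (nat_lit 1315194888)], (nat_lit 780000), (nat_lit 1100000), (nat_lit 1271251), (nat_lit 1271251), (nat_lit 0), (nat_lit 2754376), [(nat_lit 1977501), (nat_lit 1271251), (nat_lit 1271251)], [(nat_lit 32), (nat_lit 67), (nat_lit 456), (nat_lit 225), (nat_lit 10)]⟩⟩) (.dle (nat_lit 0))) (.trX (nat_lit 5) (nat_lit 1) (nat_lit 2) (nat_lit 97) (nat_lit 49) (nat_lit 100) (nat_lit 380) (.spl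 (nat_lit 5) (nat_lit 120) (.leaf ⟨(nat_lit 0), (nat_lit 984), (nat_lit 0), (nat_lit 16), (nat_lit 13326), (nat_lit 9620), (nat_lit 10450), (nat_lit 338), (nat_lit 0), (nat_lit 0), (nat_lit 0), [], Pd.none, Pd.none, (nat_lit 0), (nat_lit 1), (nat_lit 0), (nat_lit 0), (nat_lit 6), (nat_lit 0), [], [⟨(nat_lit 1), (nat_lit 97), (nat_lit 66), (nat_lit 100), (nat_lit 747576838)⟩], [], [],
 ⟨⟨[(nat_lit 40), (nat_lit 80), (nat_lit 120)], [(nat_lit 0), (nat_lit 1195), (nat_lit 3135)], [((nat_lit 0), (nat_lit 0), (nat_lit 0)), ((nat_lit 1000), (nat_lit 720), (nat_lit 465)), ((nat_lit 1000), (nat_lit 661), (nat_lit 757))], ((nat_lit 66), (nat_lit 100), (nat_lit 80))⟩, (nat_lit 0), (nat_lit 132), (nat_lit 132), (nat_lit 0), (nat_lit 105070), [(nat_lit 3683088555), (nat_lit 6818182126), (nat_lit 7968000000)], [], [(nat_lit 27024857980), (nat_lit 28060220560), (nat_lit 27570569860), (nat_lit 28397139760), (nat_lit 30358330383), (nat_lit 31299062330), (nat_lit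 30484400010), (nat_lit 31475931980)], (nat_lit 1271251), (nat_lit 1271251), (nat_lit 780000), (nat_lit 1762501), (nat_lit 1271251), (nat_lit 1271251), [(nat_lit 490000), (nat_lit 1100000), (nat_lit 1785001)], [(nat_lit 4), (nat_lit 51), (nat_lit 272), (nat_lit 60), (nat_lit 8)]⟩,
 ⟨⟨[(nat_lit 80), (nat_lit 120), (nat_lit 160)], [(nat_lit 0), (nat_lit 528), (nat_lit 2577)], [((nat_lit 0), (nat_lit 0), (nat_lit 0)), ((nat_lit 1000), (nat_lit 959), (nat_lit 206)), ((nat_lit 929), (nat_lit 1000), (nat_lit 742))], ((nat_lit 100), (nat_lit 85), (nat_lit 84))⟩, (nat_lit 1893092), (nat_lit 347), (nat_lit 347), (nat_lit 0), (nat_lit 153654), [(nat_lit 4688000000), (nat_lit 7968000000), (nat_lit 11872000000)], [], [(nat_lit 31210747899), (nat_lit 31959850266), (nat_lit 33841360924), (nat_lit 33441435816), (nat_lit 24700499362), (nat_lit 24603435265), (nat_lit 40663550349), (nat_lit 35961243674)], (nat_lit 1271251), (nat_lit 1271251), (nat_lit 780000), (nat_lit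 1762501), (nat_lit 0), (nat_lit 780000), [(nat_lit 1100000), (nat_lit 1785001), (nat_lit 1271251)], [(nat_lit 18), (nat_lit 59), (nat_lit 401), (nat_lit 175), (nat_lit 10)]⟩,
 ⟨⟨[(nat_lit 140), (nat_lit 180), (nat_lit 200)], [(nat_lit 0), (nat_lit 0), (nat_lit 2835)], [((nat_lit 0), (nat_lit 0), (nat_lit 0)), ((nat_lit 0), (nat_lit 0), (nat_lit 0)), ((nat_lit 363), (nat_lit 1000), (nat_lit 798))], ((nat_lit 0), (nat_lit 0), (nat_lit 0))⟩, (nat_lit 4402), (nat_lit 300), (nat_lit 755), (nat_lit 1249602), (nat_lit 667464), [(nat_lit 157472000), (nat_lit 224928000), (nat_lit 262400000)], [], [(nat_lit 1070518816), (nat_lit 1013480848), (nat_lit 1085283424), (nat_lit 1028093246), (nat_lit 752509816), (nat_lit 699933164), (nat_lit 764000047), (nat_lit 708174203)], (nat_lit 780000), (nat_lit 1100000), (nat_lit 1271251), (nat_lit 1271251), (nat_lit 0), (nat_lit 780000), [(nat_lit 1977501), (nat_lit 1271251), (nat_lit 1271251)], [(nat_lit 32), (nat_lit 67),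 (nat_lit 373), (nat_lit 150), (nat_lit 8)]⟩⟩) (.spl (nat_lit 5) (nat_lit 240) (.leaf ⟨(nat_lit 0), (nat_lit 485), (nat_lit 0), (nat_lit 515), (nat_lit 0), (nat_lit 6545), (nat_lit 46618), (nat_lit 8140), (nat_lit 0), (nat_lit 0), (nat_lit 0), [], Pd.none, Pd.none, (nat_lit 0), (nat_lit 1), (nat_lit 0), (nat_lit 0), (nat_lit 6), (nat_lit 0), [⟨(nat_lit 0), (nat_lit 94), (nat_lit 62), (nat_lit 100), (nat_lit 165764893)⟩], [⟨(nat_lit 1), (nat_lit 97), (nat_lit 66), (nat_lit 100), (nat_lit 197283984)⟩], [], [],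
 ⟨⟨[(nat_lit 40), (nat_lit 80), (nat_lit 120)], [(nat_lit 0), (nat_lit 1195), (nat_lit 3135)], [((nat_lit 0), (nat_lit 0), (nat_lit 0)), ((nat_lit 1000), (nat_lit 720), (nat_lit 465)), ((nat_lit 1000), (nat_lit 661), (nat_lit 757))], ((nat_lit 66), (nat_lit 100), (nat_lit 80))⟩, (nat_lit 1608480), (nat_lit 132), (nat_lit 132), (nat_lit 0), (nat_lit 105070), [(nat_lit 2677006642), (nat_lit 5733554347), (nat_lit 7968000000)], [], [(nat_lit 23510189943), (nat_lit 24316398910), (nat_lit 25194328155), (nat_lit 26096201300), (nat_lit 27078897649), (nat_lit 28037497468), (nat_lit 28274076942), (nat_lit 29050667180)], (nat_lit 1271251), (nat_lit 1271251), (nat_lit 780000), (nat_lit 1762501), (nat_lit 1271251), (nat_lit 1271251), [(nat_lit 490000), (nat_lit 1100000), (nat_lit 1785001)], [(nat_lit 4), (nat_lit 51), (nat_lit 272), (nat_lit 60), (nat_lit 8)]⟩,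
 ⟨⟨[(nat_lit 80), (nat_lit 120), (nat_lit 160)], [(nat_lit 0), (nat_lit 528), (nat_lit 2577)], [((nat_lit 0), (nat_lit 0), (nat_lit 0)), ((nat_lit 1000), (nat_lit 959), (nat_lit 206)), ((nat_lit 929), (nat_lit 1000), (nat_lit 742))], ((nat_lit 100), (nat_lit 85), (nat_lit 84))⟩, (nat_lit 2203855), (nat_lit 195), (nat_lit 195), (nat_lit 0), (nat_lit 183996), [(nat_lit 4688000000), (nat_lit 7968000000), (nat_lit 11872000000)], [], [(nat_lit 1141407591), (nat_lit 6712401165), (nat_lit 5930630998), (nat_lit 14888658348), (nat_lit 5930630998), (nat_lit 14888658348), (nat_lit 38503653156), (nat_lit 19565087704)], (nat_lit 1271251), (nat_lit 1271251), (nat_lit 780000), (nat_lit 1762501), (nat_lit 780000), (nat_lit 1762501), [(nat_lit 1100000), (nat_lit 1785001), (nat_lit 1271251)], [(nat_lit 18), (nat_lit 59), (nat_lit 428), (nat_lit 200), (nat_lit 11)]⟩,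
 ⟨⟨[(nat_lit 140), (nat_lit 180), (nat_lit 200)], [(nat_lit 0), (nat_lit 0), (nat_lit 2835)], [((nat_lit 0), (nat_lit 0), (nat_lit 0)), ((nat_lit 0), (nat_lit 0), (nat_lit 0)), ((nat_lit 363), (nat_lit 1000), (nat_lit 798))], ((nat_lit 0), (nat_lit 0), (nat_lit 0))⟩, (nat_lit 141693), (nat_lit 300), (nat_lit 828), (nat_lit 40221502), (nat_lit 1017106), [(nat_lit 5068630000), (nat_lit 7239870000), (nat_lit 8446000000)], [], [(nat_lit 26226319250), (nat_lit 25048449560), (nat_lit 26667805673), (nat_lit 25408886218), (nat_lit 23696762620), (nat_lit 22477796920), (nat_lit 23849862505), (nat_lit 22562395420)], (nat_lit 780000), (nat_lit 1100000), (nat_lit 1271251), (nat_lit 1271251), (nat_lit 780000), (nat_lit 1762501), [(nat_lit 1977501), (nat_lit 1271251), (nat_lit 1271251)], [(nat_lit 32), (nat_lit 67), (nat_lit 401), (nat_lit 175), (nat_lit 8)]⟩⟩) (.leaf ⟨(nat_lit 0), (nat_lit 195), (nat_lit 0), (nat_lit 805), (nat_lit 0), (nat_lit 9333), (nat_lit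 15296), (nat_lit 8691), (nat_lit 0), (nat_lit 0), (nat_lit 0), [], Pd.none, Pd.none, (nat_lit 0), (nat_lit 1), (nat_lit 0), (nat_lit 0), (nat_lit 6), (nat_lit 0), [⟨(nat_lit 0), (nat_lit 94), (nat_lit 62), (nat_lit 100), (nat_lit 703876579)⟩], [], [], [],
 ⟨⟨[(nat_lit 40), (nat_lit 80), (nat_lit 120)], [(nat_lit 0), (nat_lit 1195), (nat_lit 3135)], [((nat_lit 0), (nat_lit 0), (nat_lit 0)), ((nat_lit 1000), (nat_lit 720), (nat_lit 465)), ((nat_lit 1000), (nat_lit 661), (nat_lit 757))], ((nat_lit 66), (nat_lit 100), (nat_lit 80))⟩, (nat_lit 542654), (nat_lit 132), (nat_lit 132), (nat_lit 0), (nat_lit 105070), [(nat_lit 3634302462), (nat_lit 7166707981), (nat_lit 7968000000)], [], [(nat_lit 25466243255), (nat_lit 26480218164), (nat_lit 26618881847), (nat_lit 27759912420), (nat_lit 29778093576), (nat_lit 30994649610), (nat_lit 30278103191), (nat_lit 31249573932)], (nat_lit 1271251), (nat_lit 1271251), (nat_lit 780000), (nat_lit 1762501), (nat_lit 1271251),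 (nat_lit 1271251), [(nat_lit 490000), (nat_lit 1100000), (nat_lit 1785001)], [(nat_lit 4), (nat_lit 51), (nat_lit 272), (nat_lit 60), (nat_lit 8)]⟩,
 ⟨⟨[(nat_lit 80), (nat_lit 120), (nat_lit 160)], [(nat_lit 0), (nat_lit 528), (nat_lit 2577)], [((nat_lit 0), (nat_lit 0), (nat_lit 0)), ((nat_lit 1000), (nat_lit 959), (nat_lit 206)), ((nat_lit 929), (nat_lit 1000), (nat_lit 742))], ((nat_lit 100), (nat_lit 85), (nat_lit 84))⟩, (nat_lit 0), (nat_lit 222), (nat_lit 222), (nat_lit 0), (nat_lit 183996), [(nat_lit 4688000000), (nat_lit 7968000000), (nat_lit 11872000000)], [], [(nat_lit 25408934300), (nat_lit 27084361208), (nat_lit 25201147304), (nat_lit 26427470480), (nat_lit 38196589871), (nat_lit 39035720306), (nat_lit 35991966190), (nat_lit 37360573988)], (nat_lit 1271251), (nat_lit 1271251), (nat_lit 780000), (nat_lit 1762501), (nat_lit 1271251), (nat_lit 1271251), [(nat_lit 1100000), (nat_lit 1785001), (nat_lit 1271251)], [(nat_lit 18), (nat_lit 59),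 (nat_lit 456), (nat_lit 225), (nat_lit 11)]⟩,
 ⟨⟨[(nat_lit 140), (nat_lit 180), (nat_lit 200)], [(nat_lit 0), (nat_lit 0), (nat_lit 2835)], [((nat_lit 0), (nat_lit 0), (nat_lit 0)), ((nat_lit 0), (nat_lit 0), (nat_lit 0)), ((nat_lit 363), (nat_lit 1000), (nat_lit 798))], ((nat_lit 0), (nat_lit 0), (nat_lit 0))⟩, (nat_lit 221481), (nat_lit 300), (nat_lit 754), (nat_lit 62870507), (nat_lit 1017106), [(nat_lit 7922810000), (nat_lit 11316690000), (nat_lit 13202000000)], [], [(nat_lit 47458280896), (nat_lit 46121625595), (nat_lit 46744175206), (nat_lit 45380953718), (nat_lit 46332561611), (nat_lit 44921475233), (nat_lit 45630517949), (nat_lit 44182336009)], (nat_lit 780000), (nat_lit 1100000), (nat_lit 1271251), (nat_lit 1271251), (nat_lit 1271251), (nat_lit 1271251), [(nat_lit 1977501), (nat_lit 1271251), (nat_lit 1271251)], [(nat_lit 32), (nat_lit 67), (nat_lit 456), (nat_lit 225), (nat_lit 9)]⟩⟩))))))))) (.spl (nat_lit 6) (nat_lit 64) (.spl (nat_lit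 0) (nat_lit 350) (.dle (nat_lit 0)) (.trX (nat_lit 4) (nat_lit 0) (nat_lit 2) (nat_lit 66) (nat_lit 82) (nat_lit 100) (nat_lit 320) (.leaf ⟨(nat_lit 0), (nat_lit 632), (nat_lit 0), (nat_lit 368), (nat_lit 105898), (nat_lit 7344), (nat_lit 6934), (nat_lit 3848), (nat_lit 0), (nat_lit 0), (nat_lit 0), [], Pd.none, Pd.none, (nat_lit 0), (nat_lit 1), (nat_lit 0), (nat_lit 0), (nat_lit 6), (nat_lit 0), [⟨(nat_lit 0), (nat_lit 94), (nat_lit 62), (nat_lit 100), (nat_lit 782912388)⟩], [⟨(nat_lit 1), (nat_lit 87), (nat_lit 64), (nat_lit 100), (nat_lit 242570634)⟩], [], [],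
 ⟨⟨[(nat_lit 40), (nat_lit 80), (nat_lit 100)], [(nat_lit 0), (nat_lit 1195), (nat_lit 2166)], [((nat_lit 0), (nat_lit 0), (nat_lit 0)), ((nat_lit 1000), (nat_lit 720), (nat_lit 465)), ((nat_lit 1000), (nat_lit 662), (nat_lit 740))], ((nat_lit 66), (nat_lit 100), (nat_lit 73))⟩, (nat_lit 0), (nat_lit 86), (nat_lit 86), (nat_lit 0), (nat_lit 34719), [(nat_lit 2894083089), (nat_lit 5214529582), (nat_lit 6250000000)], [], [(nat_lit 25119361986), (nat_lit 26061320264), (nat_lit 26525198300), (nat_lit 27285014864), (nat_lit 29433219078), (nat_lit 30201229344), (nat_lit 29930340584), (nat_lit 30716790048)], (nat_lit 1271251), (nat_lit 1271251), (nat_lit 780000), (nat_lit 1762501), (nat_lit 1271251), (nat_lit 1271251), [(nat_lit 490000), (nat_lit 1100000), (nat_lit 1442501)], [(nat_lit 3), (nat_lit 50), (nat_lit 272), (nat_lit 60), (nat_lit 9)]⟩,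
 ⟨⟨[(nat_lit 80), (nat_lit 120), (nat_lit 160)], [(nat_lit 0), (nat_lit 0), (nat_lit 2132)], [((nat_lit 0), (nat_lit 0), (nat_lit 0)), ((nat_lit 0), (nat_lit 0), (nat_lit 0)), ((nat_lit 858), (nat_lit 1000), (nat_lit 713))], ((nat_lit 100), (nat_lit 83), (nat_lit 75))⟩, (nat_lit 0), (nat_lit 252), (nat_lit 252), (nat_lit 0), (nat_lit 74815), [(nat_lit 4688000000), (nat_lit 7968000000), (nat_lit 11872000000)], [], [(nat_lit 47447611084), (nat_lit 40056501002), (nat_lit 39565509832), (nat_lit 41012906420), (nat_lit 42670371332), (nat_lit 42970163832), (nat_lit 55677133880), (nat_lit 49815144148)], (nat_lit 1271251), (nat_lit 1271251), (nat_lit 780000), (nat_lit 1762501), (nat_lit 0), (nat_lit 2825001), [(nat_lit 1100000), (nat_lit 1785001), (nat_lit 1271251)], [(nat_lit 18), (nat_lit 59), (nat_lit 483), (nat_lit 250), (nat_lit 12)]⟩,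
 ⟨⟨[(nat_lit 120), (nat_lit 160), (nat_lit 200)], [(nat_lit 0), (nat_lit 0), (nat_lit 3198)], [((nat_lit 0), (nat_lit 0), (nat_lit 0)), ((nat_lit 0), (nat_lit 0), (nat_lit 0)), ((nat_lit 572), (nat_lit 1000), (nat_lit 714))], ((nat_lit 0), (nat_lit 0), (nat_lit 0))⟩, (nat_lit 179512), (nat_lit 300), (nat_lit 483), (nat_lit 27305604), (nat_lit 176667), [(nat_lit 2932224000), (nat_lit 4368896000), (nat_lit 6035200000)], [], [(nat_lit 22607449720), (nat_lit 22489982042), (nat_lit 22896770080), (nat_lit 22767380808), (nat_lit 19480214688), (nat_lit 20701395720), (nat_lit 19032096640), (nat_lit 18831845280)], (nat_lit 1100000), (nat_lit 1271251), (nat_lit 1271251), (nat_lit 1271251), (nat_lit 0), (nat_lit 2825001), [(nat_lit 1695001), (nat_lit 1271251), (nat_lit 1271251)], [(nat_lit 29), (nat_lit 66), (nat_lit 456), (nat_lit 225), (nat_lit 10)]⟩⟩))) (.dle (nat_lit 0))))) (.dle (nat_lit 0)))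
noncomputable def c8_88 : Tr Lf :=
 (.spl (nat_lit 6) (nat_lit 96) (.spl (nat_lit 5) (nat_lit 200) (.stt (nat_lit 1) (.spl (nat_lit 0) (nat_lit 350) (.spl (nat_lit 6) (nat_lit 80) (.leaf ⟨(nat_lit 0), (nat_lit 935), (nat_lit 0), (nat_lit 65), (nat_lit 27758), (nat_lit 5846), (nat_lit 5799), (nat_lit 874), (nat_lit 0), (nat_lit 0), (nat_lit 0), [], Pd.none, Pd.none, (nat_lit 0), (nat_lit 1), (nat_lit 0), (nat_lit 0), (nat_lit 6), (nat_lit 0), [⟨(nat_lit 0), (nat_lit 93), (nat_lit 72), (nat_lit 100), (nat_lit 542795801)⟩], [⟨(nat_lit 1), (nat_lit 90), (nat_lit 71), (nat_lit 100), (nat_lit 629568596)⟩], [], [],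
 ⟨⟨[(nat_lit 40), (nat_lit 80), (nat_lit 120)], [(nat_lit 0), (nat_lit 795), (nat_lit 2800)], [((nat_lit 0), (nat_lit 0), (nat_lit 0)), ((nat_lit 1000), (nat_lit 814), (nat_lit 310)), ((nat_lit 1000), (nat_lit 719), (nat_lit 783))], ((nat_lit 72), (nat_lit 100), (nat_lit 81))⟩, (nat_lit 0), (nat_lit 73), (nat_lit 73), (nat_lit 0), (nat_lit 0), [(nat_lit 2396113750), (nat_lit 4688000010), (nat_lit 7968000000)], [], [(nat_lit 22658940937), (nat_lit 23536025599), (nat_lit 24749460850), (nat_lit 25462702342), (nat_lit 27696323350), (nat_lit 28397035766), (nat_lit 28785355894), (nat_lit 29381880822)], (nat_lit 0), (nat_lit 0), (nat_lit 0), (nat_lit 0), (nat_lit 0), (nat_lit 0), [], [(nat_lit 4), (nat_lit 51), (nat_lit 272), (nat_lit 60), (nat_lit 8)]⟩,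
 ⟨⟨[(nat_lit 60), (nat_lit 120), (nat_lit 160)], [(nat_lit 0), (nat_lit 0), (nat_lit 3243)], [((nat_lit 0), (nat_lit 0), (nat_lit 0)), ((nat_lit 0), (nat_lit 0), (nat_lit 0)), ((nat_lit 878), (nat_lit 1000), (nat_lit 945))], ((nat_lit 100), (nat_lit 95), (nat_lit 87))⟩, (nat_lit 2091096), (nat_lit 360), (nat_lit 360), (nat_lit 0), (nat_lit 176988), [(nat_lit 3282000000), (nat_lit 7968000000), (nat_lit 11872000000)], [], [(nat_lit 34047129660), (nat_lit 34712233801), (nat_lit 35129687042), (nat_lit 35914105311), (nat_lit 31352363851), (nat_lit 32038201808), (nat_lit 32631076178), (nat_lit 33311175868)], (nat_lit 1271251), (nat_lit 1271251), (nat_lit 780000), (nat_lit 1762501), (nat_lit 0), (nat_lit 1412501), [(nat_lit 780000), (nat_lit 1762501), (nat_lit 1271251)], [(nat_lit 12), (nat_lit 59), (nat_lit 428), (nat_lit 200), (nat_lit 11)]⟩,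
 ⟨⟨[(nat_lit 140), (nat_lit 180), (nat_lit 200)], [(nat_lit 0), (nat_lit 0), (nat_lit 2835)], [((nat_lit 0), (nat_lit 0), (nat_lit 0)), ((nat_lit 0), (nat_lit 0), (nat_lit 0)), ((nat_lit 363), (nat_lit 1000), (nat_lit 798))], ((nat_lit 0), (nat_lit 0), (nat_lit 0))⟩, (nat_lit 17884), (nat_lit 300), (nat_lit 962), (nat_lit 5076500), (nat_lit 1125035), [(nat_lit 639730000), (nat_lit 913770000), (nat_lit 1066000000)], [], [(nat_lit 4370520072), (nat_lit 4175840973), (nat_lit 4330017368), (nat_lit 4143481483), (nat_lit 3391329572), (nat_lit 3205350232), (nat_lit 3329709554), (nat_lit 3132972925)], (nat_lit 780000), (nat_lit 1271251), (nat_lit 1271251), (nat_lit 1271251), (nat_lit 0), (nat_lit 1412501), [(nat_lit 1977501), (nat_lit 1271251), (nat_lit 1271251)], [(nat_lit 32), (nat_lit 67), (nat_lit 428), (nat_lit 200), (nat_lit 9)]⟩⟩) (.dle (nat_lit 0))) (.trZ (nat_lit 0) (nat_lit 1) (nat_lit 3) (nat_lit 96) (nat_lit 69) (nat_lit 100) (nat_lit 130) (.trX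 (nat_lit 4) (nat_lit 0) (nat_lit 2) (nat_lit 66) (nat_lit 82) (nat_lit 100) (nat_lit 320) (.leaf ⟨(nat_lit 0), (nat_lit 913), (nat_lit 0), (nat_lit 87), (nat_lit 12145), (nat_lit 5860), (nat_lit 7889), (nat_lit 1190), (nat_lit 0), (nat_lit 0), (nat_lit 0), [], Pd.none, Pd.none, (nat_lit 0), (nat_lit 1), (nat_lit 0), (nat_lit 0), (nat_lit 6), (nat_lit 0), [⟨(nat_lit 0), (nat_lit 91), (nat_lit 65), (nat_lit 100), (nat_lit 624841116)⟩], [⟨(nat_lit 1), (nat_lit 94), (nat_lit 65), (nat_lit 100), (nat_lit 616887015)⟩], [], [],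
 ⟨⟨[(nat_lit 40), (nat_lit 80), (nat_lit 120)], [(nat_lit 0), (nat_lit 1195), (nat_lit 3135)], [((nat_lit 0), (nat_lit 0), (nat_lit 0)), ((nat_lit 1000), (nat_lit 720), (nat_lit 465)), ((nat_lit 1000), (nat_lit 661), (nat_lit 757))], ((nat_lit 67), (nat_lit 100), (nat_lit 87))⟩, (nat_lit 0), (nat_lit 70), (nat_lit 70), (nat_lit 0), (nat_lit 0), [(nat_lit 2429772359), (nat_lit 4688000462), (nat_lit 7968000000)], [], [(nat_lit 23521528076), (nat_lit 24387692097), (nat_lit 25453422082), (nat_lit 26167630302), (nat_lit 27667247260), (nat_lit 28378826732), (nat_lit 28810298572), (nat_lit 29451395120)], (nat_lit 0), (nat_lit 0), (nat_lit 0), (nat_lit 0), (nat_lit 0), (nat_lit 0), [], [(nat_lit 4), (nat_lit 51), (nat_lit 272), (nat_lit 60), (nat_lit 8)]⟩,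
 ⟨⟨[(nat_lit 60), (nat_lit 120), (nat_lit 160)], [(nat_lit 0), (nat_lit 0), (nat_lit 3243)], [((nat_lit 0), (nat_lit 0), (nat_lit 0)), ((nat_lit 0), (nat_lit 0), (nat_lit 0)), ((nat_lit 878), (nat_lit 1000), (nat_lit 945))], ((nat_lit 100), (nat_lit 89), (nat_lit 93))⟩, (nat_lit 970593), (nat_lit 397), (nat_lit 397), (nat_lit 0), (nat_lit 286018), [(nat_lit 3282000000), (nat_lit 7968000000), (nat_lit 11872000000)], [], [(nat_lit 36041272187), (nat_lit 37159345544), (nat_lit 37109514971), (nat_lit 37991183030), (nat_lit 31176232830), (nat_lit 32024815277), (nat_lit 35649120141), (nat_lit 32394117096)], (nat_lit 1271251), (nat_lit 1271251), (nat_lit 857188), (nat_lit 1768126), (nat_lit 0), (nat_lit 1412501), [(nat_lit 780000), (nat_lit 1762501), (nat_lit 1271251)], [(nat_lit 12), (nat_lit 59), (nat_lit 428), (nat_lit 200), (nat_lit 11)]⟩,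
 ⟨⟨[(nat_lit 140), (nat_lit 180), (nat_lit 200)], [(nat_lit 0), (nat_lit 0), (nat_lit 2835)], [((nat_lit 0), (nat_lit 0), (nat_lit 0)), ((nat_lit 0), (nat_lit 0), (nat_lit 0)), ((nat_lit 363), (nat_lit 1000), (nat_lit 798))], ((nat_lit 0), (nat_lit 0), (nat_lit 0))⟩, (nat_lit 23937), (nat_lit 300), (nat_lit 1282), (nat_lit 6794700), (nat_lit 1831725), [(nat_lit 856254000), (nat_lit 1223046000), (nat_lit 1426800000)], [], [(nat_lit 5825329208), (nat_lit 5558902539), (nat_lit 5759084752), (nat_lit 5512528106), (nat_lit 4488198204), (nat_lit 4263351075), (nat_lit 4398434302), (nat_lit 4131443715)], (nat_lit 780000), (nat_lit 1271251), (nat_lit 1271251), (nat_lit 1271251), (nat_lit 0), (nat_lit 1412501), [(nat_lit 1977501), (nat_lit 1271251), (nat_lit 1271251)], [(nat_lit 32), (nat_lit 67), (nat_lit 408), (nat_lit 175), (nat_lit 9)]⟩⟩)))) (.spl (nat_lit 0) (nat_lit 350) (.spl (nat_lit 6) (nat_lit 80) (.leaf ⟨(nat_lit 0), (nat_lit 934), (nat_lit 0), (nat_lit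 66), (nat_lit 29171), (nat_lit 4364), (nat_lit 6942), (nat_lit 999), (nat_lit 0), (nat_lit 0), (nat_lit 0), [], Pd.none, Pd.none, (nat_lit 0), (nat_lit 1), (nat_lit 0), (nat_lit 0), (nat_lit 6), (nat_lit 0), [⟨(nat_lit 0), (nat_lit 93), (nat_lit 72), (nat_lit 100), (nat_lit 574266906)⟩], [⟨(nat_lit 1), (nat_lit 90), (nat_lit 71), (nat_lit 100), (nat_lit 549977026)⟩], [⟨(nat_lit 0), (nat_lit 100), (nat_lit 92), (nat_lit 22), (nat_lit 45758884)⟩], [],
 ⟨⟨[(nat_lit 40), (nat_lit 80), (nat_lit 120)], [(nat_lit 0), (nat_lit 795), (nat_lit 2800)], [((nat_lit 0), (nat_lit 0), (nat_lit 0)), ((nat_lit 1000), (nat_lit 814), (nat_lit 310)), ((nat_lit 1000), (nat_lit 719), (nat_lit 783))], ((nat_lit 72), (nat_lit 100), (nat_lit 81))⟩, (nat_lit 2370160), (nat_lit 141), (nat_lit 141), (nat_lit 0), (nat_lit 124333), [(nat_lit 2045637849), (nat_lit 4688001212), (nat_lit 7968000000)], [], [(nat_lit 22370989485), (nat_lit 23000029656), (nat_lit 24176483241), (nat_lit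 24702920892), (nat_lit 26174439316), (nat_lit 26700139707), (nat_lit 27576210368), (nat_lit 28130097944)], (nat_lit 1271251), (nat_lit 1271251), (nat_lit 780000), (nat_lit 1762501), (nat_lit 1271251), (nat_lit 1271251), [(nat_lit 490000), (nat_lit 1100000), (nat_lit 1785001)], [(nat_lit 4), (nat_lit 51), (nat_lit 272), (nat_lit 60), (nat_lit 8)]⟩,
 ⟨⟨[(nat_lit 60), (nat_lit 120), (nat_lit 160)], [(nat_lit 0), (nat_lit 0), (nat_lit 3243)], [((nat_lit 0), (nat_lit 0), (nat_lit 0)), ((nat_lit 0), (nat_lit 0), (nat_lit 0)), ((nat_lit 878), (nat_lit 1000), (nat_lit 945))], ((nat_lit 100), (nat_lit 95), (nat_lit 87))⟩, (nat_lit 1759962), (nat_lit 330), (nat_lit 330), (nat_lit 0), (nat_lit 98531), [(nat_lit 3282000000), (nat_lit 7968000000), (nat_lit 11872000000)], [], [(nat_lit 34598444280), (nat_lit 35212510816), (nat_lit 35299018694), (nat_lit 36136621896), (nat_lit 30305936769), (nat_lit 31125229063), (nat_lit 30975226554), (nat_lit 31614785444)], (nat_lit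 1271251), (nat_lit 1271251), (nat_lit 780000), (nat_lit 1762501), (nat_lit 0), (nat_lit 1412501), [(nat_lit 780000), (nat_lit 1762501), (nat_lit 1271251)], [(nat_lit 12), (nat_lit 59), (nat_lit 428), (nat_lit 200), (nat_lit 11)]⟩,
 ⟨⟨[(nat_lit 140), (nat_lit 180), (nat_lit 200)], [(nat_lit 0), (nat_lit 0), (nat_lit 2835)], [((nat_lit 0), (nat_lit 0), (nat_lit 0)), ((nat_lit 0), (nat_lit 0), (nat_lit 0)), ((nat_lit 363), (nat_lit 1000), (nat_lit 798))], ((nat_lit 0), (nat_lit 0), (nat_lit 0))⟩, (nat_lit 18159), (nat_lit 300), (nat_lit 747), (nat_lit 5154600), (nat_lit 647541), [(nat_lit 649572000), (nat_lit 927828000), (nat_lit 1082400000)], [], [(nat_lit 4302665796), (nat_lit 4112036622), (nat_lit 4423701779), (nat_lit 4206222266), (nat_lit 3161831304), (nat_lit 3231451706), (nat_lit 3223584224), (nat_lit 3018632651)], (nat_lit 780000), (nat_lit 1271251), (nat_lit 1271251), (nat_lit 1271251), (nat_lit 0), (nat_lit 1412501), [(nat_lit 1977501), (nat_lit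 1271251), (nat_lit 1271251)], [(nat_lit 32), (nat_lit 67), (nat_lit 428), (nat_lit 200), (nat_lit 9)]⟩⟩) (.dle (nat_lit 0))) (.trZ (nat_lit 0) (nat_lit 1) (nat_lit 3) (nat_lit 96) (nat_lit 69) (nat_lit 100) (nat_lit 130) (.trX (nat_lit 4) (nat_lit 0) (nat_lit 2) (nat_lit 66) (nat_lit 82) (nat_lit 100) (nat_lit 320) (.leaf ⟨(nat_lit 0), (nat_lit 904), (nat_lit 0), (nat_lit 96), (nat_lit 17951), (nat_lit 7666), (nat_lit 9993), (nat_lit 1438), (nat_lit 0), (nat_lit 0), (nat_lit 0), [], Pd.none, Pd.none, (nat_lit 0), (nat_lit 1), (nat_lit 0), (nat_lit 0), (nat_lit 6), (nat_lit 0), [⟨(nat_lit 0), (nat_lit 91), (nat_lit 65), (nat_lit 100), (nat_lit 724937230)⟩], [⟨(nat_lit 1), (nat_lit 94), (nat_lit 65), (nat_lit 100), (nat_lit 619062705)⟩], [⟨(nat_lit 0), (nat_lit 100), (nat_lit 92), (nat_lit 22), (nat_lit 167279286)⟩], [],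
 ⟨⟨[(nat_lit 40), (nat_lit 80), (nat_lit 120)], [(nat_lit 0), (nat_lit 1195), (nat_lit 3135)], [((nat_lit 0), (nat_lit 0), (nat_lit 0)), ((nat_lit 1000), (nat_lit 720), (nat_lit 465)), ((nat_lit 1000), (nat_lit 661), (nat_lit 757))], ((nat_lit 67), (nat_lit 100), (nat_lit 87))⟩, (nat_lit 756594), (nat_lit 157), (nat_lit 157), (nat_lit 0), (nat_lit 190085), [(nat_lit 2706562308), (nat_lit 6126749948), (nat_lit 7968000000)], [], [(nat_lit 25508956508), (nat_lit 26385996217), (nat_lit 26599757508), (nat_lit 27317303978), (nat_lit 29430435281), (nat_lit 30368847699), (nat_lit 30184104276), (nat_lit 30991356872)], (nat_lit 1271251), (nat_lit 1271251), (nat_lit 857188), (nat_lit 1768126), (nat_lit 1271251), (nat_lit 1271251), [(nat_lit 490000), (nat_lit 1100000), (nat_lit 1785001)], [(nat_lit 4), (nat_lit 51), (nat_lit 272), (nat_lit 60), (nat_lit 8)]⟩,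
 ⟨⟨[(nat_lit 60), (nat_lit 120), (nat_lit 160)], [(nat_lit 0), (nat_lit 0), (nat_lit 3243)], [((nat_lit 0), (nat_lit 0), (nat_lit 0)), ((nat_lit 0), (nat_lit 0), (nat_lit 0)), ((nat_lit 878), (nat_lit 1000), (nat_lit 945))], ((nat_lit 100), (nat_lit 89), (nat_lit 93))⟩, (nat_lit 1396555), (nat_lit 348), (nat_lit 348), (nat_lit 0), (nat_lit 158069), [(nat_lit 3282000000), (nat_lit 7968000000), (nat_lit 11872000000)], [], [(nat_lit 33447510693), (nat_lit 34632137626), (nat_lit 34063077725), (nat_lit 35042672400), (nat_lit 26236928039), (nat_lit 27178798295), (nat_lit 26339952915), (nat_lit 27056686850)], (nat_lit 1271251), (nat_lit 1271251), (nat_lit 857188), (nat_lit 1768126), (nat_lit 0), (nat_lit 1412501), [(nat_lit 780000), (nat_lit 1762501), (nat_lit 1271251)], [(nat_lit 12), (nat_lit 59), (nat_lit 428), (nat_lit 200), (nat_lit 11)]⟩,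
 ⟨⟨[(nat_lit 140), (nat_lit 180), (nat_lit 200)], [(nat_lit 0), (nat_lit 0), (nat_lit 2835)], [((nat_lit 0), (nat_lit 0), (nat_lit 0)), ((nat_lit 0), (nat_lit 0), (nat_lit 0)), ((nat_lit 363), (nat_lit 1000), (nat_lit 798))], ((nat_lit 0), (nat_lit 0), (nat_lit 0))⟩, (nat_lit 26413), (nat_lit 300), (nat_lit 929), (nat_lit 7497600), (nat_lit 1045272), [(nat_lit 944832000), (nat_lit 1349568000), (nat_lit 1574400000)], [], [(nat_lit 6276698248), (nat_lit 5980762136), (nat_lit 6386748800), (nat_lit 6080250862), (nat_lit 4637131776), (nat_lit 4700734731), (nat_lit 4674008056), (nat_lit 4384577608)], (nat_lit 780000), (nat_lit 1271251), (nat_lit 1271251), (nat_lit 1271251), (nat_lit 0), (nat_lit 1412501), [(nat_lit 1977501), (nat_lit 1271251), (nat_lit 1271251)], [(nat_lit 32), (nat_lit 67), (nat_lit 401), (nat_lit 175), (nat_lit 9)]⟩⟩))))) (.stt (nat_lit 2) (.leaf ⟨(nat_lit 0), (nat_lit 764), (nat_lit 0), (nat_lit 236), (nat_lit 0), (nat_lit 5479), (nat_lit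 9061), (nat_lit 2633), (nat_lit 0), (nat_lit 0), (nat_lit 0), [], Pd.none, Pd.none, (nat_lit 0), (nat_lit 1), (nat_lit 0), (nat_lit 0), (nat_lit 6), (nat_lit 0), [⟨(nat_lit 0), (nat_lit 92), (nat_lit 68), (nat_lit 100), (nat_lit 653792928)⟩], [⟨(nat_lit 1), (nat_lit 92), (nat_lit 68), (nat_lit 100), (nat_lit 368328067)⟩], [⟨(nat_lit 1), (nat_lit 68), (nat_lit 92), (nat_lit 100), (nat_lit 336833000)⟩], [],
 ⟨⟨[(nat_lit 40), (nat_lit 100), (nat_lit 140)], [(nat_lit 0), (nat_lit 1192), (nat_lit 4003)], [((nat_lit 0), (nat_lit 0), (nat_lit 0)), ((nat_lit 1000), (nat_lit 814), (nat_lit 310)), ((nat_lit 992), (nat_lit 771), (nat_lit 1000))], ((nat_lit 74), (nat_lit 100), (nat_lit 88))⟩, (nat_lit 2076315), (nat_lit 192), (nat_lit 192), (nat_lit 0), (nat_lit 193395), [(nat_lit 2337308075), (nat_lit 6250001293), (nat_lit 9842000000)], [], [(nat_lit 23568263582), (nat_lit 24897777976), (nat_lit 24816423028), (nat_lit 26033570737), (nat_lit 27398329416), (nat_lit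 28767045496), (nat_lit 28424141486), (nat_lit 29719641325)], (nat_lit 1271251), (nat_lit 1271251), (nat_lit 780000), (nat_lit 1762501), (nat_lit 1271251), (nat_lit 1271251), [(nat_lit 490000), (nat_lit 1427501), (nat_lit 1271251)], [(nat_lit 5), (nat_lit 55), (nat_lit 373), (nat_lit 150), (nat_lit 10)]⟩,
 ⟨⟨[(nat_lit 60), (nat_lit 120), (nat_lit 160)], [(nat_lit 0), (nat_lit 0), (nat_lit 3243)], [((nat_lit 0), (nat_lit 0), (nat_lit 0)), ((nat_lit 0), (nat_lit 0), (nat_lit 0)), ((nat_lit 878), (nat_lit 1000), (nat_lit 945))], ((nat_lit 100), (nat_lit 89), (nat_lit 93))⟩, (nat_lit 0), (nat_lit 109), (nat_lit 109), (nat_lit 0), (nat_lit 0), [(nat_lit 3282000000), (nat_lit 7968000000), (nat_lit 11872000000)], [], [(nat_lit 19468883459), (nat_lit 21229723651), (nat_lit 21978163833), (nat_lit 23336826853), (nat_lit 32153952484), (nat_lit 33089063205), (nat_lit 31904306783), (nat_lit 32939962464)], (nat_lit 0), (nat_lit 0), (nat_lit 0), (nat_lit 0), (nat_lit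 0), (nat_lit 0), [], [(nat_lit 12), (nat_lit 59), (nat_lit 483), (nat_lit 250), (nat_lit 12)]⟩,
 ⟨⟨[(nat_lit 140), (nat_lit 180), (nat_lit 200)], [(nat_lit 0), (nat_lit 0), (nat_lit 2835)], [((nat_lit 0), (nat_lit 0), (nat_lit 0)), ((nat_lit 0), (nat_lit 0), (nat_lit 0)), ((nat_lit 363), (nat_lit 1000), (nat_lit 798))], ((nat_lit 0), (nat_lit 0), (nat_lit 0))⟩, (nat_lit 64931), (nat_lit 300), (nat_lit 1151), (nat_lit 18431604), (nat_lit 1831725), [(nat_lit 2322712000), (nat_lit 3317688000), (nat_lit 3870400000)], [], [(nat_lit 14515435750), (nat_lit 13927440403), (nat_lit 14033151885), (nat_lit 13434933185), (nat_lit 13516958780), (nat_lit 12910782344), (nat_lit 13059932282), (nat_lit 12441470781)], (nat_lit 780000), (nat_lit 1271251), (nat_lit 1271251), (nat_lit 1271251), (nat_lit 1271251), (nat_lit 1271251), [(nat_lit 1977501), (nat_lit 1271251), (nat_lit 1271251)], [(nat_lit 32), (nat_lit 67), (nat_lit 456), (nat_lit 225), (nat_lit 9)]⟩⟩) (.leaf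 ⟨(nat_lit 0), (nat_lit 634), (nat_lit 0), (nat_lit 366), (nat_lit 0), (nat_lit 5903), (nat_lit 11033), (nat_lit 4103), (nat_lit 0), (nat_lit 0), (nat_lit 0), [], Pd.none, Pd.none, (nat_lit 0), (nat_lit 1), (nat_lit 0), (nat_lit 0), (nat_lit 6), (nat_lit 0), [⟨(nat_lit 0), (nat_lit 87), (nat_lit 60), (nat_lit 100), (nat_lit 807918583)⟩], [⟨(nat_lit 1), (nat_lit 92), (nat_lit 68), (nat_lit 100), (nat_lit 288662262)⟩], [⟨(nat_lit 1), (nat_lit 68), (nat_lit 92), (nat_lit 100), (nat_lit 207369274)⟩], [],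
 ⟨⟨[(nat_lit 40), (nat_lit 100), (nat_lit 140)], [(nat_lit 0), (nat_lit 1192), (nat_lit 4003)], [((nat_lit 0), (nat_lit 0), (nat_lit 0)), ((nat_lit 1000), (nat_lit 814), (nat_lit 310)), ((nat_lit 992), (nat_lit 771), (nat_lit 1000))], ((nat_lit 74), (nat_lit 100), (nat_lit 88))⟩, (nat_lit 2112036), (nat_lit 168), (nat_lit 168), (nat_lit 0), (nat_lit 118941), [(nat_lit 2635728434), (nat_lit 6250000037), (nat_lit 9842000000)], [], [(nat_lit 23227117503), (nat_lit 24612152789), (nat_lit 24373696807), (nat_lit 25713094220), (nat_lit 27637147842), (nat_lit 29287477830), (nat_lit 28756018953), (nat_lit 30104033683)], (nat_lit 1271251), (nat_lit 1271251), (nat_lit 780000), (nat_lit 1762501), (nat_lit 1271251), (nat_lit 1271251), [(nat_lit 490000), (nat_lit 1427501), (nat_lit 1271251)], [(nat_lit 5), (nat_lit 55), (nat_lit 373), (nat_lit 150), (nat_lit 10)]⟩,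
 ⟨⟨[(nat_lit 60), (nat_lit 120), (nat_lit 160)], [(nat_lit 0), (nat_lit 0), (nat_lit 3243)], [((nat_lit 0), (nat_lit 0), (nat_lit 0)), ((nat_lit 0), (nat_lit 0), (nat_lit 0)), ((nat_lit 878), (nat_lit 1000), (nat_lit 945))], ((nat_lit 100), (nat_lit 89), (nat_lit 93))⟩, (nat_lit 1364813), (nat_lit 259), (nat_lit 259), (nat_lit 0), (nat_lit 285750), [(nat_lit 3282000000), (nat_lit 7968000000), (nat_lit 11872000000)], [], [(nat_lit 24832315094), (nat_lit 25838767569), (nat_lit 24743417969), (nat_lit 25893392825), (nat_lit 34804137517), (nat_lit 35545483977), (nat_lit 33630009899), (nat_lit 34770971366)], (nat_lit 1271251), (nat_lit 1271251), (nat_lit 780000), (nat_lit 1762501), (nat_lit 1271251), (nat_lit 1271251), [(nat_lit 780000), (nat_lit 1762501), (nat_lit 1271251)], [(nat_lit 12), (nat_lit 59), (nat_lit 483), (nat_lit 250), (nat_lit 12)]⟩,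
 ⟨⟨[(nat_lit 140), (nat_lit 180), (nat_lit 200)], [(nat_lit 0), (nat_lit 0), (nat_lit 2835)], [((nat_lit 0), (nat_lit 0), (nat_lit 0)), ((nat_lit 0), (nat_lit 0), (nat_lit 0)), ((nat_lit 363), (nat_lit 1000), (nat_lit 798))], ((nat_lit 0), (nat_lit 0), (nat_lit 0))⟩, (nat_lit 100698), (nat_lit 300), (nat_lit 856), (nat_lit 28584606), (nat_lit 1176347), [(nat_lit 3602172000), (nat_lit 5145228000), (nat_lit 6002400000)], [], [(nat_lit 22064046894), (nat_lit 21170941431), (nat_lit 21511756903), (nat_lit 20589846630), (nat_lit 20870303360), (nat_lit 19924486742), (nat_lit 20156028093), (nat_lit 19200948547)], (nat_lit 780000), (nat_lit 1271251), (nat_lit 1271251), (nat_lit 1271251), (nat_lit 1271251), (nat_lit 1271251), [(nat_lit 1977501), (nat_lit 1271251), (nat_lit 1271251)], [(nat_lit 32), (nat_lit 67), (nat_lit 456), (nat_lit 225), (nat_lit 9)]⟩⟩))) (.dle (nat_lit 0)))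
noncomputable def c8_89 : Tr Lf :=
 (.trZ (nat_lit 0) (nat_lit 1) (nat_lit 3) (nat_lit 90) (nat_lit 74) (nat_lit 100) (nat_lit 140) (.trX (nat_lit 5) (nat_lit 1) (nat_lit 2) (nat_lit 87) (nat_lit 59) (nat_lit 100) (nat_lit 370) (.spl (nat_lit 5) (nat_lit 200) (.spl (nat_lit 0) (nat_lit 350) (.spl (nat_lit 6) (nat_lit 100) (.leaf ⟨(nat_lit 0), (nat_lit 920), (nat_lit 0), (nat_lit 80), (nat_lit 16207), (nat_lit 5623), (nat_lit 8203), (nat_lit 1078), (nat_lit 0), (nat_lit 0), (nat_lit 0), [], Pd.none, Pd.none, (nat_lit 0), (nat_lit 1), (nat_lit 0), (nat_lit 0), (nat_lit 6), (nat_lit 0), [⟨(nat_lit 0), (nat_lit 85), (nat_lit 70), (nat_lit 100), (nat_lit 323833266)⟩], [⟨(nat_lit 1), (nat_lit 90), (nat_lit 71), (nat_lit 100), (nat_lit 509821974)⟩], [], [],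
 ⟨⟨[(nat_lit 40), (nat_lit 100), (nat_lit 140)], [(nat_lit 0), (nat_lit 1192), (nat_lit 4003)], [((nat_lit 0), (nat_lit 0), (nat_lit 0)), ((nat_lit 1000), (nat_lit 814), (nat_lit 310)), ((nat_lit 992), (nat_lit 771), (nat_lit 1000))], ((nat_lit 74), (nat_lit 100), (nat_lit 90))⟩, (nat_lit 1996097), (nat_lit 193), (nat_lit 193), (nat_lit 0), (nat_lit 232213), [(nat_lit 2353003707), (nat_lit 6250000016), (nat_lit 9842000000)], [], [(nat_lit 23734740852), (nat_lit 24391130418), (nat_lit 25034545010), (nat_lit 25587788363), (nat_lit 27423454821), (nat_lit 27953606620), (nat_lit 28536854588), (nat_lit 29193522130)], (nat_lit 1271251), (nat_lit 1271251), (nat_lit 936250), (nat_lit 1773751), (nat_lit 1271251), (nat_lit 1271251), [(nat_lit 490000), (nat_lit 1427501), (nat_lit 1271251)], [(nat_lit 5), (nat_lit 55), (nat_lit 373), (nat_lit 150), (nat_lit 10)]⟩,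
 ⟨⟨[(nat_lit 60), (nat_lit 120), (nat_lit 160)], [(nat_lit 0), (nat_lit 913), (nat_lit 3885)], [((nat_lit 0), (nat_lit 0), (nat_lit 0)), ((nat_lit 1000), (nat_lit 905), (nat_lit 238)), ((nat_lit 886), (nat_lit 948), (nat_lit 1000))], ((nat_lit 100), (nat_lit 100), (nat_lit 100))⟩, (nat_lit 2823988), (nat_lit 395), (nat_lit 395), (nat_lit 0), (nat_lit 285853), [(nat_lit 3282000000), (nat_lit 7968000000), (nat_lit 11872000000)], [], [(nat_lit 26435200385), (nat_lit 27557957087), (nat_lit 27991336526), (nat_lit 29155498216), (nat_lit 21803447585), (nat_lit 22897792639), (nat_lit 29265864819), (nat_lit 25574666574)], (nat_lit 1271251), (nat_lit 1271251), (nat_lit 936250), (nat_lit 1773751), (nat_lit 0), (nat_lit 1412501), [(nat_lit 780000), (nat_lit 1762501), (nat_lit 1271251)], [(nat_lit 12), (nat_lit 59), (nat_lit 428), (nat_lit 200), (nat_lit 11)]⟩,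
 ⟨⟨[(nat_lit 140), (nat_lit 180), (nat_lit 200)], [(nat_lit 0), (nat_lit 0), (nat_lit 2835)], [((nat_lit 0), (nat_lit 0), (nat_lit 0)), ((nat_lit 0), (nat_lit 0), (nat_lit 0)), ((nat_lit 363), (nat_lit 1000), (nat_lit 798))], ((nat_lit 0), (nat_lit 0), (nat_lit 0))⟩, (nat_lit 22011), (nat_lit 300), (nat_lit 1408), (nat_lit 6248000), (nat_lit 2105768), [(nat_lit 787360000), (nat_lit 1124640000), (nat_lit 1312000000)], [], [(nat_lit 5376306984), (nat_lit 5136032406), (nat_lit 5326072046), (nat_lit 5099648725), (nat_lit 4168117184), (nat_lit 3938581568), (nat_lit 4091855009), (nat_lit 3849057440)], (nat_lit 780000), (nat_lit 1271251), (nat_lit 1271251), (nat_lit 1271251), (nat_lit 0), (nat_lit 1412501), [(nat_lit 1977501), (nat_lit 1271251), (nat_lit 1271251)], [(nat_lit 32), (nat_lit 67), (nat_lit 441), (nat_lit 200), (nat_lit 9)]⟩⟩) (.dle (nat_lit 0))) (.trZ (nat_lit 0) (nat_lit 1) (nat_lit 3) (nat_lit 88) (nat_lit 67) (nat_lit 100) (nat_lit 160)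 (.trX (nat_lit 4) (nat_lit 0) (nat_lit 2) (nat_lit 66) (nat_lit 82) (nat_lit 100) (nat_lit 320) (.leaf ⟨(nat_lit 0), (nat_lit 921), (nat_lit 0), (nat_lit 79), (nat_lit 9992), (nat_lit 10002), (nat_lit 8245), (nat_lit 1084), (nat_lit 0), (nat_lit 0), (nat_lit 0), [], Pd.none, Pd.none, (nat_lit 0), (nat_lit 1), (nat_lit 0), (nat_lit 0), (nat_lit 6), (nat_lit 0), [⟨(nat_lit 0), (nat_lit 84), (nat_lit 64), (nat_lit 100), (nat_lit 131532452)⟩], [⟨(nat_lit 1), (nat_lit 94), (nat_lit 65), (nat_lit 100), (nat_lit 616632443)⟩], [], [],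
 ⟨⟨[(nat_lit 40), (nat_lit 100), (nat_lit 140)], [(nat_lit 0), (nat_lit 1790), (nat_lit 4440)], [((nat_lit 0), (nat_lit 0), (nat_lit 0)), ((nat_lit 1000), (nat_lit 720), (nat_lit 465)), ((nat_lit 969), (nat_lit 697), (nat_lit 1000))], ((nat_lit 69), (nat_lit 100), (nat_lit 95))⟩, (nat_lit 557019), (nat_lit 204), (nat_lit 204), (nat_lit 0), (nat_lit 289235), [(nat_lit 3651906962), (nat_lit 7282489757), (nat_lit 9842000000)], [], [(nat_lit 27265961815), (nat_lit 28169934020), (nat_lit 28186197549), (nat_lit 28952555884), (nat_lit 30965544793), (nat_lit 31955547612), (nat_lit 32025073172), (nat_lit 32983245384)], (nat_lit 1271251), (nat_lit 1271251), (nat_lit 1100000), (nat_lit 1785001), (nat_lit 1271251), (nat_lit 1271251), [(nat_lit 490000), (nat_lit 1427501), (nat_lit 1271251)], [(nat_lit 5), (nat_lit 55), (nat_lit 373), (nat_lit 150), (nat_lit 9)]⟩,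
 ⟨⟨[(nat_lit 60), (nat_lit 120), (nat_lit 160)], [(nat_lit 0), (nat_lit 913), (nat_lit 3885)], [((nat_lit 0), (nat_lit 0), (nat_lit 0)), ((nat_lit 1000), (nat_lit 905), (nat_lit 238)), ((nat_lit 886), (nat_lit 948), (nat_lit 1000))], ((nat_lit 95), (nat_lit 90), (nat_lit 100))⟩, (nat_lit 2778881), (nat_lit 420), (nat_lit 420), (nat_lit 0), (nat_lit 377605), [(nat_lit 3282000000), (nat_lit 7968000000), (nat_lit 11872000000)], [], [(nat_lit 26320797037), (nat_lit 27409822875), (nat_lit 28033438104), (nat_lit 29200717454), (nat_lit 21621644837), (nat_lit 22681787674), (nat_lit 29662205585), (nat_lit 25952108117)], (nat_lit 1271251), (nat_lit 1271251), (nat_lit 1100000), (nat_lit 1785001), (nat_lit 0), (nat_lit 1412501), [(nat_lit 780000), (nat_lit 1762501), (nat_lit 1271251)], [(nat_lit 12), (nat_lit 59), (nat_lit 428), (nat_lit 200), (nat_lit 11)]⟩,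
 ⟨⟨[(nat_lit 140), (nat_lit 180), (nat_lit 200)], [(nat_lit 0), (nat_lit 0), (nat_lit 2835)], [((nat_lit 0), (nat_lit 0), (nat_lit 0)), ((nat_lit 0), (nat_lit 0), (nat_lit 0)), ((nat_lit 363), (nat_lit 1000), (nat_lit 798))], ((nat_lit 0), (nat_lit 0), (nat_lit 0))⟩, (nat_lit 21735), (nat_lit 300), (nat_lit 1725), (nat_lit 6169907), (nat_lit 2796503), [(nat_lit 777518000), (nat_lit 1110582000), (nat_lit 1295600000)], [], [(nat_lit 5285522888), (nat_lit 5042601441), (nat_lit 5229751528), (nat_lit 5005562144), (nat_lit 4066845700), (nat_lit 3871218618), (nat_lit 3984742834), (nat_lit 3746252248)], (nat_lit 780000), (nat_lit 1271251), (nat_lit 1271251), (nat_lit 1271251), (nat_lit 0), (nat_lit 1412501), [(nat_lit 1977501), (nat_lit 1271251), (nat_lit 1271251)], [(nat_lit 32), (nat_lit 67), (nat_lit 519), (nat_lit 175), (nat_lit 11)]⟩⟩)))) (.stt (nat_lit 2) (.spl (nat_lit 0) (nat_lit 350) (.spl (nat_lit 6) (nat_lit 100) (.leaf ⟨(nat_lit 0), (nat_lit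 805), (nat_lit 0), (nat_lit 195), (nat_lit 0), (nat_lit 5654), (nat_lit 9043), (nat_lit 2183), (nat_lit 0), (nat_lit 0), (nat_lit 0), [], Pd.none, Pd.none, (nat_lit 0), (nat_lit 1), (nat_lit 0), (nat_lit 0), (nat_lit 6), (nat_lit 0), [⟨(nat_lit 0), (nat_lit 85), (nat_lit 70), (nat_lit 100), (nat_lit 603061772)⟩], [⟨(nat_lit 1), (nat_lit 90), (nat_lit 71), (nat_lit 100), (nat_lit 387058549)⟩], [⟨(nat_lit 1), (nat_lit 77), (nat_lit 86), (nat_lit 100), (nat_lit 370264892)⟩], [],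
 ⟨⟨[(nat_lit 40), (nat_lit 100), (nat_lit 140)], [(nat_lit 0), (nat_lit 1192), (nat_lit 4003)], [((nat_lit 0), (nat_lit 0), (nat_lit 0)), ((nat_lit 1000), (nat_lit 814), (nat_lit 310)), ((nat_lit 992), (nat_lit 771), (nat_lit 1000))], ((nat_lit 74), (nat_lit 100), (nat_lit 90))⟩, (nat_lit 2030028), (nat_lit 193), (nat_lit 193), (nat_lit 0), (nat_lit 232213), [(nat_lit 2322406493), (nat_lit 6250000032), (nat_lit 9842000000)], [], [(nat_lit 23581750956), (nat_lit 24240094688), (nat_lit 24876547614), (nat_lit 25431299659), (nat_lit 27277779081), (nat_lit 27985622956), (nat_lit 28561119214), (nat_lit 29219706522)], (nat_lit 1271251), (nat_lit 1271251), (nat_lit 936250), (nat_lit 1773751), (nat_lit 1271251), (nat_lit 1271251), [(nat_lit 490000), (nat_lit 1427501), (nat_lit 1271251)], [(nat_lit 5), (nat_lit 55), (nat_lit 373), (nat_lit 150), (nat_lit 10)]⟩,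
 ⟨⟨[(nat_lit 60), (nat_lit 120), (nat_lit 160)], [(nat_lit 0), (nat_lit 913), (nat_lit 3885)], [((nat_lit 0), (nat_lit 0), (nat_lit 0)), ((nat_lit 1000), (nat_lit 905), (nat_lit 238)), ((nat_lit 886), (nat_lit 948), (nat_lit 1000))], ((nat_lit 100), (nat_lit 100), (nat_lit 100))⟩, (nat_lit 0), (nat_lit 99), (nat_lit 99), (nat_lit 0), (nat_lit 0), [(nat_lit 3282000000), (nat_lit 7968000000), (nat_lit 11872000000)], [], [(nat_lit 21099000342), (nat_lit 22800523008), (nat_lit 23354175208), (nat_lit 24711280336), (nat_lit 31744652901), (nat_lit 32695443944), (nat_lit 31972049587), (nat_lit 33061728814)], (nat_lit 0), (nat_lit 0), (nat_lit 0), (nat_lit 0), (nat_lit 0), (nat_lit 0), [], [(nat_lit 12), (nat_lit 59), (nat_lit 483), (nat_lit 250), (nat_lit 12)]⟩,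
 ⟨⟨[(nat_lit 140), (nat_lit 180), (nat_lit 200)], [(nat_lit 0), (nat_lit 0), (nat_lit 2835)], [((nat_lit 0), (nat_lit 0), (nat_lit 0)), ((nat_lit 0), (nat_lit 0), (nat_lit 0)), ((nat_lit 363), (nat_lit 1000), (nat_lit 798))], ((nat_lit 0), (nat_lit 0), (nat_lit 0))⟩, (nat_lit 53651), (nat_lit 300), (nat_lit 1282), (nat_lit 15229500), (nat_lit 2105768), [(nat_lit 1919190000), (nat_lit 2741310000), (nat_lit 3198000000)], [], [(nat_lit 12003550182), (nat_lit 11515649856), (nat_lit 11548959523), (nat_lit 11052559443), (nat_lit 11148767873), (nat_lit 10647949132), (nat_lit 10774723450), (nat_lit 10263404381)], (nat_lit 780000), (nat_lit 1271251), (nat_lit 1271251), (nat_lit 1271251), (nat_lit 1271251), (nat_lit 1271251), [(nat_lit 1977501), (nat_lit 1271251), (nat_lit 1271251)], [(nat_lit 32), (nat_lit 67), (nat_lit 456), (nat_lit 225), (nat_lit 9)]⟩⟩) (.dle (nat_lit 0))) (.trZ (nat_lit 0) (nat_lit 1) (nat_lit 3) (nat_lit 88) (nat_lit 67) (nat_lit 100)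 (nat_lit 160) (.trX (nat_lit 4) (nat_lit 0) (nat_lit 2) (nat_lit 66) (nat_lit 82) (nat_lit 100) (nat_lit 320) (.leaf ⟨(nat_lit 0), (nat_lit 919), (nat_lit 0), (nat_lit 81), (nat_lit 16230), (nat_lit 5650), (nat_lit 4633), (nat_lit 914), (nat_lit 0), (nat_lit 0), (nat_lit 0), [], Pd.none, Pd.none, (nat_lit 0), (nat_lit 1), (nat_lit 0), (nat_lit 0), (nat_lit 6), (nat_lit 0), [⟨(nat_lit 0), (nat_lit 84), (nat_lit 64), (nat_lit 100), (nat_lit 497654329)⟩], [⟨(nat_lit 1), (nat_lit 94), (nat_lit 65), (nat_lit 100), (nat_lit 521329631)⟩], [⟨(nat_lit 1), (nat_lit 77), (nat_lit 86), (nat_lit 100), (nat_lit 449719789)⟩], [],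
 ⟨⟨[(nat_lit 40), (nat_lit 100), (nat_lit 140)], [(nat_lit 0), (nat_lit 1790), (nat_lit 4440)], [((nat_lit 0), (nat_lit 0), (nat_lit 0)), ((nat_lit 1000), (nat_lit 720), (nat_lit 465)), ((nat_lit 969), (nat_lit 697), (nat_lit 1000))], ((nat_lit 69), (nat_lit 100), (nat_lit 95))⟩, (nat_lit 1811411), (nat_lit 204), (nat_lit 204), (nat_lit 0), (nat_lit 289235), [(nat_lit 2296327926), (nat_lit 6250000125), (nat_lit 9842000000)], [], [(nat_lit 24218064535), (nat_lit 24858294660), (nat_lit 25517503085), (nat_lit 26072060460), (nat_lit 27197439385), (nat_lit 27856807900), (nat_lit 28595322900), (nat_lit 29272329800)], (nat_lit 1271251), (nat_lit 1271251), (nat_lit 1100000), (nat_lit 1785001), (nat_lit 1271251), (nat_lit 1271251), [(nat_lit 490000), (nat_lit 1427501), (nat_lit 1271251)], [(nat_lit 5), (nat_lit 55), (nat_lit 373), (nat_lit 150), (nat_lit 9)]⟩,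
 ⟨⟨[(nat_lit 60), (nat_lit 120), (nat_lit 160)], [(nat_lit 0), (nat_lit 913), (nat_lit 3885)], [((nat_lit 0), (nat_lit 0), (nat_lit 0)), ((nat_lit 1000), (nat_lit 905), (nat_lit 238)), ((nat_lit 886), (nat_lit 948), (nat_lit 1000))], ((nat_lit 95), (nat_lit 90), (nat_lit 100))⟩, (nat_lit 0), (nat_lit 90), (nat_lit 90), (nat_lit 0), (nat_lit 0), [(nat_lit 3282000000), (nat_lit 7968000000), (nat_lit 11872000000)], [], [(nat_lit 17315828735), (nat_lit 18747332452), (nat_lit 20177168727), (nat_lit 21392560034), (nat_lit 26711827266), (nat_lit 27603029461), (nat_lit 28214771680), (nat_lit 29016444634)], (nat_lit 0), (nat_lit 0), (nat_lit 0), (nat_lit 0), (nat_lit 0), (nat_lit 0), [], [(nat_lit 12), (nat_lit 59), (nat_lit 483), (nat_lit 250), (nat_lit 12)]⟩,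
 ⟨⟨[(nat_lit 140), (nat_lit 180), (nat_lit 200)], [(nat_lit 0), (nat_lit 0), (nat_lit 2835)], [((nat_lit 0), (nat_lit 0), (nat_lit 0)), ((nat_lit 0), (nat_lit 0), (nat_lit 0)), ((nat_lit 363), (nat_lit 1000), (nat_lit 798))], ((nat_lit 0), (nat_lit 0), (nat_lit 0))⟩, (nat_lit 22286), (nat_lit 300), (nat_lit 1610), (nat_lit 6326100), (nat_lit 2796503), [(nat_lit 797202000), (nat_lit 1138698000), (nat_lit 1328400000)], [], [(nat_lit 4930585614), (nat_lit 4733254320), (nat_lit 4764381714), (nat_lit 4556721092), (nat_lit 4597173701), (nat_lit 4387039507), (nat_lit 4449765094), (nat_lit 4235968461)], (nat_lit 780000), (nat_lit 1271251), (nat_lit 1271251), (nat_lit 1271251), (nat_lit 1271251), (nat_lit 1271251), [(nat_lit 1977501), (nat_lit 1271251), (nat_lit 1271251)], [(nat_lit 32), (nat_lit 67), (nat_lit 512), (nat_lit 225), (nat_lit 10)]⟩⟩)))) (.spl (nat_lit 0) (nat_lit 350) (.spl (nat_lit 6) (nat_lit 100) (.leaf ⟨(nat_lit 0), (nat_lit 686), (nat_lit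 0), (nat_lit 314), (nat_lit 0), (nat_lit 5999), (nat_lit 7464), (nat_lit 3540), (nat_lit 0), (nat_lit 0), (nat_lit 0), [], Pd.none, Pd.none, (nat_lit 0), (nat_lit 1), (nat_lit 0), (nat_lit 0), (nat_lit 6), (nat_lit 0), [⟨(nat_lit 0), (nat_lit 80), (nat_lit 66), (nat_lit 100), (nat_lit 633951637)⟩], [⟨(nat_lit 1), (nat_lit 90), (nat_lit 71), (nat_lit 100), (nat_lit 341832924)⟩], [⟨(nat_lit 1), (nat_lit 77), (nat_lit 86), (nat_lit 100), (nat_lit 206812392)⟩], [],
 ⟨⟨[(nat_lit 40), (nat_lit 100), (nat_lit 140)], [(nat_lit 0), (nat_lit 1192), (nat_lit 4003)], [((nat_lit 0), (nat_lit 0), (nat_lit 0)), ((nat_lit 1000), (nat_lit 814), (nat_lit 310)), ((nat_lit 992), (nat_lit 771), (nat_lit 1000))], ((nat_lit 74), (nat_lit 100), (nat_lit 90))⟩, (nat_lit 2161532), (nat_lit 163), (nat_lit 163), (nat_lit 0), (nat_lit 138521), [(nat_lit 2564119034), (nat_lit 6250000010), (nat_lit 9842000000)], [], [(nat_lit 22864320585), (nat_lit 23544412298), (nat_lit 24239692172),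 (nat_lit 24915344541), (nat_lit 27532742037), (nat_lit 28343980720), (nat_lit 28831161021), (nat_lit 29511113468)], (nat_lit 1271251), (nat_lit 1271251), (nat_lit 936250), (nat_lit 1773751), (nat_lit 1271251), (nat_lit 1271251), [(nat_lit 490000), (nat_lit 1427501), (nat_lit 1271251)], [(nat_lit 5), (nat_lit 55), (nat_lit 373), (nat_lit 150), (nat_lit 10)]⟩,
 ⟨⟨[(nat_lit 60), (nat_lit 120), (nat_lit 160)], [(nat_lit 0), (nat_lit 913), (nat_lit 3885)], [((nat_lit 0), (nat_lit 0), (nat_lit 0)), ((nat_lit 1000), (nat_lit 905), (nat_lit 238)), ((nat_lit 886), (nat_lit 948), (nat_lit 1000))], ((nat_lit 100), (nat_lit 100), (nat_lit 100))⟩, (nat_lit 2257131), (nat_lit 248), (nat_lit 248), (nat_lit 0), (nat_lit 285853), [(nat_lit 3282000000), (nat_lit 7968000000), (nat_lit 11872000000)], [], [(nat_lit 22769194327), (nat_lit 23947126461), (nat_lit 24080420237), (nat_lit 25030059985), (nat_lit 30233070399), (nat_lit 31024994786), (nat_lit 30616314265), (nat_lit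 31613315272)], (nat_lit 1271251), (nat_lit 1271251), (nat_lit 936250), (nat_lit 1773751), (nat_lit 1271251), (nat_lit 1271251), [(nat_lit 780000), (nat_lit 1762501), (nat_lit 1271251)], [(nat_lit 12), (nat_lit 59), (nat_lit 483), (nat_lit 250), (nat_lit 12)]⟩,
 ⟨⟨[(nat_lit 140), (nat_lit 180), (nat_lit 200)], [(nat_lit 0), (nat_lit 0), (nat_lit 2835)], [((nat_lit 0), (nat_lit 0), (nat_lit 0)), ((nat_lit 0), (nat_lit 0), (nat_lit 0)), ((nat_lit 363), (nat_lit 1000), (nat_lit 798))], ((nat_lit 0), (nat_lit 0), (nat_lit 0))⟩, (nat_lit 86392), (nat_lit 300), (nat_lit 914), (nat_lit 24523400), (nat_lit 1312548), [(nat_lit 3090388000), (nat_lit 4414212000), (nat_lit 5149600000)], [], [(nat_lit 18845593612), (nat_lit 18073720612), (nat_lit 18366804189), (nat_lit 17570125404), (nat_lit 17835970818), (nat_lit 17022297166), (nat_lit 17227164439), (nat_lit 16409354901)], (nat_lit 780000), (nat_lit 1271251), (nat_lit 1271251), (nat_lit 1271251), (nat_lit 1271251),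 (nat_lit 1271251), [(nat_lit 1977501), (nat_lit 1271251), (nat_lit 1271251)], [(nat_lit 32), (nat_lit 67), (nat_lit 456), (nat_lit 225), (nat_lit 9)]⟩⟩) (.dle (nat_lit 0))) (.trZ (nat_lit 0) (nat_lit 1) (nat_lit 3) (nat_lit 88) (nat_lit 67) (nat_lit 100) (nat_lit 160) (.trX (nat_lit 4) (nat_lit 0) (nat_lit 2) (nat_lit 66) (nat_lit 82) (nat_lit 100) (nat_lit 320) (.leaf ⟨(nat_lit 0), (nat_lit 729), (nat_lit 0), (nat_lit 271), (nat_lit 0), (nat_lit 4478), (nat_lit 9558), (nat_lit 3070), (nat_lit 0), (nat_lit 0), (nat_lit 0), [], Pd.none, Pd.none, (nat_lit 0), (nat_lit 1), (nat_lit 0), (nat_lit 0), (nat_lit 6), (nat_lit 0), [⟨(nat_lit 0), (nat_lit 84), (nat_lit 64), (nat_lit 100), (nat_lit 499408757)⟩], [⟨(nat_lit 1), (nat_lit 94), (nat_lit 65), (nat_lit 100), (nat_lit 330286621)⟩], [⟨(nat_lit 1), (nat_lit 77), (nat_lit 86), (nat_lit 100), (nat_lit 260621608)⟩], [],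
 ⟨⟨[(nat_lit 40), (nat_lit 100), (nat_lit 140)], [(nat_lit 0), (nat_lit 1790), (nat_lit 4440)], [((nat_lit 0), (nat_lit 0), (nat_lit 0)), ((nat_lit 1000), (nat_lit 720), (nat_lit 465)), ((nat_lit 969), (nat_lit 697), (nat_lit 1000))], ((nat_lit 69), (nat_lit 100), (nat_lit 95))⟩, (nat_lit 2276469), (nat_lit 167), (nat_lit 167), (nat_lit 0), (nat_lit 173649), [(nat_lit 2066653094), (nat_lit 6250000046), (nat_lit 9842000000)], [], [(nat_lit 22832278465), (nat_lit 23401482460), (nat_lit 24510041386), (nat_lit 25090357504), (nat_lit 26061597567), (nat_lit 26753011268), (nat_lit 27671686108), (nat_lit 28272974776)], (nat_lit 1271251), (nat_lit 1271251), (nat_lit 1100000), (nat_lit 1785001), (nat_lit 1271251), (nat_lit 1271251), [(nat_lit 490000), (nat_lit 1427501), (nat_lit 1271251)], [(nat_lit 5), (nat_lit 55), (nat_lit 373), (nat_lit 150), (nat_lit 9)]⟩,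
 ⟨⟨[(nat_lit 60), (nat_lit 120), (nat_lit 160)], [(nat_lit 0), (nat_lit 913), (nat_lit 3885)], [((nat_lit 0), (nat_lit 0), (nat_lit 0)), ((nat_lit 1000), (nat_lit 905), (nat_lit 238)), ((nat_lit 886), (nat_lit 948), (nat_lit 1000))], ((nat_lit 95), (nat_lit 90), (nat_lit 100))⟩, (nat_lit 1555522), (nat_lit 271), (nat_lit 271), (nat_lit 0), (nat_lit 377605), [(nat_lit 3282000000), (nat_lit 7968000000), (nat_lit 11872000000)], [], [(nat_lit 24334418343), (nat_lit 25208319602), (nat_lit 25321835114), (nat_lit 26389015270), (nat_lit 31936971888), (nat_lit 32633825309), (nat_lit 32414230518), (nat_lit 33534137284)], (nat_lit 1271251), (nat_lit 1271251), (nat_lit 1100000), (nat_lit 1785001), (nat_lit 1271251), (nat_lit 1271251), [(nat_lit 780000), (nat_lit 1762501), (nat_lit 1271251)], [(nat_lit 12), (nat_lit 59), (nat_lit 483), (nat_lit 250), (nat_lit 12)]⟩,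
 ⟨⟨[(nat_lit 140), (nat_lit 180), (nat_lit 200)], [(nat_lit 0), (nat_lit 0), (nat_lit 2835)], [((nat_lit 0), (nat_lit 0), (nat_lit 0)), ((nat_lit 0), (nat_lit 0), (nat_lit 0)), ((nat_lit 363), (nat_lit 1000), (nat_lit 798))], ((nat_lit 0), (nat_lit 0), (nat_lit 0))⟩, (nat_lit 74561), (nat_lit 300), (nat_lit 1120), (nat_lit 21165100), (nat_lit 1760040), [(nat_lit 2667182000), (nat_lit 3809718000), (nat_lit 4444400000)], [], [(nat_lit 16391857368), (nat_lit 15703549457), (nat_lit 15865401230), (nat_lit 15167219173), (nat_lit 15324134587), (nat_lit 14617583119), (nat_lit 14828345617), (nat_lit 14122202895)], (nat_lit 780000), (nat_lit 1271251), (nat_lit 1271251), (nat_lit 1271251), (nat_lit 1271251), (nat_lit 1271251), [(nat_lit 1977501), (nat_lit 1271251), (nat_lit 1271251)], [(nat_lit 32), (nat_lit 67), (nat_lit 456), (nat_lit 225), (nat_lit 9)]⟩⟩))))))))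
noncomputable def c8_90 : Tr Lf :=
 (.spl (nat_lit 6) (nat_lit 84) (.spl (nat_lit 1) (nat_lit 280) (.dle (nat_lit 0)) (.trZ (nat_lit 0) (nat_lit 1) (nat_lit 3) (nat_lit 99) (nat_lit 77) (nat_lit 100) (nat_lit 120) (.spl (nat_lit 1) (nat_lit 300) (.spl (nat_lit 6) (nat_lit 68) (.leaf ⟨(nat_lit 0), (nat_lit 228), (nat_lit 0), (nat_lit 772), (nat_lit 19363), (nat_lit 9980), (nat_lit 9993), (nat_lit 7543), (nat_lit 0), (nat_lit 0), (nat_lit 0), [], Pd.none, Pd.none, (nat_lit 0), (nat_lit 1), (nat_lit 0), (nat_lit 0), (nat_lit 6), (nat_lit 0), [⟨(nat_lit 0), (nat_lit 87), (nat_lit 60), (nat_lit 100), (nat_lit 1093113225)⟩], [], [⟨(nat_lit 0), (nat_lit 100), (nat_lit 92), (nat_lit 31), (nat_lit 243201224)⟩], [],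
 ⟨⟨[(nat_lit 40), (nat_lit 80), (nat_lit 120)], [(nat_lit 0), (nat_lit 795), (nat_lit 2800)], [((nat_lit 0), (nat_lit 0), (nat_lit 0)), ((nat_lit 1000), (nat_lit 814), (nat_lit 310)), ((nat_lit 1000), (nat_lit 719), (nat_lit 783))], ((nat_lit 72), (nat_lit 100), (nat_lit 75))⟩, (nat_lit 4726), (nat_lit 134), (nat_lit 134), (nat_lit 0), (nat_lit 51671), [(nat_lit 4139063482), (nat_lit 7102154506), (nat_lit 7968000000)], [], [(nat_lit 25770556800), (nat_lit 27894937440), (nat_lit 26452544040), (nat_lit 28146003200), (nat_lit 35336328630), (nat_lit 37425527280), (nat_lit 34635881410), (nat_lit 36307276660)], (nat_lit 1271251), (nat_lit 1271251), (nat_lit 780000), (nat_lit 1762501), (nat_lit 1271251), (nat_lit 1271251), [(nat_lit 490000), (nat_lit 1100000), (nat_lit 1785001)], [(nat_lit 4), (nat_lit 51), (nat_lit 272), (nat_lit 60), (nat_lit 8)]⟩,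
 ⟨⟨[(nat_lit 60), (nat_lit 120), (nat_lit 160)], [(nat_lit 0), (nat_lit 0), (nat_lit 3243)], [((nat_lit 0), (nat_lit 0), (nat_lit 0)), ((nat_lit 0), (nat_lit 0), (nat_lit 0)), ((nat_lit 878), (nat_lit 1000), (nat_lit 945))], ((nat_lit 100), (nat_lit 99), (nat_lit 82))⟩, (nat_lit 689214), (nat_lit 322), (nat_lit 322), (nat_lit 0), (nat_lit 76819), [(nat_lit 3282000000), (nat_lit 7968000000), (nat_lit 11872000000)], [], [(nat_lit 36070063620), (nat_lit 37153866301), (nat_lit 36356984588), (nat_lit 37336579263), (nat_lit 38585852815), (nat_lit 39219425014), (nat_lit 51729640018), (nat_lit 47505608911)], (nat_lit 1271251), (nat_lit 1271251), (nat_lit 780000), (nat_lit 1762501), (nat_lit 0), (nat_lit 2825001), [(nat_lit 780000), (nat_lit 1762501), (nat_lit 1271251)], [(nat_lit 12), (nat_lit 59), (nat_lit 483), (nat_lit 250), (nat_lit 12)]⟩,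
 ⟨⟨[(nat_lit 120), (nat_lit 160), (nat_lit 200)], [(nat_lit 0), (nat_lit 533), (nat_lit 3597)], [((nat_lit 0), (nat_lit 0), (nat_lit 0)), ((nat_lit 960), (nat_lit 1000), (nat_lit 200)), ((nat_lit 612), (nat_lit 1000), (nat_lit 732))], ((nat_lit 0), (nat_lit 0), (nat_lit 0))⟩, (nat_lit 410926), (nat_lit 300), (nat_lit 494), (nat_lit 55913503), (nat_lit 218882), [(nat_lit 6151296000), (nat_lit 9165184000), (nat_lit 12660800000)], [], [(nat_lit 47022085848), (nat_lit 46583345953), (nat_lit 48266372569), (nat_lit 47701688450), (nat_lit 43062985935), (nat_lit 39372594513), (nat_lit 40162034843), (nat_lit 39356028184)], (nat_lit 1271251), (nat_lit 1271251), (nat_lit 1271251), (nat_lit 1271251), (nat_lit 0), (nat_lit 2825001), [(nat_lit 1695001), (nat_lit 1271251), (nat_lit 1271251)], [(nat_lit 29), (nat_lit 66), (nat_lit 483), (nat_lit 250), (nat_lit 10)]⟩⟩) (.dle (nat_lit 0))) (.trZ (nat_lit 0) (nat_lit 1) (nat_lit 3) (nat_lit 90) (nat_lit 74) (nat_lit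 100) (nat_lit 140) (.trZ (nat_lit 1) (nat_lit 2) (nat_lit 5) (nat_lit 100) (nat_lit 87) (nat_lit 41) (nat_lit 10) (.trX (nat_lit 5) (nat_lit 1) (nat_lit 2) (nat_lit 87) (nat_lit 41) (nat_lit 100) (nat_lit 390) (.leaf ⟨(nat_lit 0), (nat_lit 465), (nat_lit 0), (nat_lit 535), (nat_lit 0), (nat_lit 8420), (nat_lit 8724), (nat_lit 5264), (nat_lit 0), (nat_lit 0), (nat_lit 0), [], Pd.none, Pd.none, (nat_lit 0), (nat_lit 1), (nat_lit 0), (nat_lit 0), (nat_lit 6), (nat_lit 0), [⟨(nat_lit 0), (nat_lit 80), (nat_lit 60), (nat_lit 100), (nat_lit 835073499)⟩], [⟨(nat_lit 1), (nat_lit 75), (nat_lit 66), (nat_lit 100), (nat_lit 67027720)⟩], [], [],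
 ⟨⟨[(nat_lit 40), (nat_lit 80), (nat_lit 120)], [(nat_lit 0), (nat_lit 795), (nat_lit 2800)], [((nat_lit 0), (nat_lit 0), (nat_lit 0)), ((nat_lit 1000), (nat_lit 814), (nat_lit 310)), ((nat_lit 1000), (nat_lit 719), (nat_lit 783))], ((nat_lit 73), (nat_lit 100), (nat_lit 83))⟩, (nat_lit 0), (nat_lit 151), (nat_lit 151), (nat_lit 0), (nat_lit 141410), [(nat_lit 2977053400), (nat_lit 6573311936), (nat_lit 7968000000)], [], [(nat_lit 26410288600), (nat_lit 28247206720), (nat_lit 27671410360), (nat_lit 29190642160), (nat_lit 33419067048), (nat_lit 34734325255), (nat_lit 33336963110), (nat_lit 34640780140)], (nat_lit 1271251), (nat_lit 1271251), (nat_lit 936250), (nat_lit 1773751), (nat_lit 1271251), (nat_lit 1271251), [(nat_lit 490000), (nat_lit 1100000), (nat_lit 1785001)], [(nat_lit 4), (nat_lit 51), (nat_lit 272), (nat_lit 60), (nat_lit 8)]⟩,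
 ⟨⟨[(nat_lit 60), (nat_lit 120), (nat_lit 160)], [(nat_lit 0), (nat_lit 913), (nat_lit 3885)], [((nat_lit 0), (nat_lit 0), (nat_lit 0)), ((nat_lit 1000), (nat_lit 905), (nat_lit 238)), ((nat_lit 886), (nat_lit 948), (nat_lit 1000))], ((nat_lit 95), (nat_lit 100), (nat_lit 90))⟩, (nat_lit 3130451), (nat_lit 347), (nat_lit 347), (nat_lit 0), (nat_lit 182387), [(nat_lit 3282000000), (nat_lit 7968000000), (nat_lit 11872000000)], [], [(nat_lit 24452715225), (nat_lit 25947144104), (nat_lit 26302524423), (nat_lit 27496104262), (nat_lit 33249837507), (nat_lit 34455894758), (nat_lit 45191595805), (nat_lit 41492563099)], (nat_lit 1271251), (nat_lit 1271251), (nat_lit 936250), (nat_lit 1773751), (nat_lit 54688), (nat_lit 2774063), [(nat_lit 780000), (nat_lit 1762501), (nat_lit 1271251)], [(nat_lit 12), (nat_lit 59), (nat_lit 483), (nat_lit 250), (nat_lit 12)]⟩,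
 ⟨⟨[(nat_lit 120), (nat_lit 160), (nat_lit 200)], [(nat_lit 0), (nat_lit 533), (nat_lit 3597)], [((nat_lit 0), (nat_lit 0), (nat_lit 0)), ((nat_lit 960), (nat_lit 1000), (nat_lit 200)), ((nat_lit 612), (nat_lit 1000), (nat_lit 732))], ((nat_lit 0), (nat_lit 0), (nat_lit 0))⟩, (nat_lit 284774), (nat_lit 300), (nat_lit 677), (nat_lit 38748347), (nat_lit 591500), [(nat_lit 4262880000), (nat_lit 6351520000), (nat_lit 8774000000)], [], [(nat_lit 35039155852), (nat_lit 34570347029), (nat_lit 35111288224), (nat_lit 34549745366), (nat_lit 29848401896), (nat_lit 28779966408), (nat_lit 28746626902), (nat_lit 28106415794)], (nat_lit 1271251), (nat_lit 1271251), (nat_lit 1271251), (nat_lit 1271251), (nat_lit 54688), (nat_lit 2774063), [(nat_lit 1695001), (nat_lit 1271251), (nat_lit 1271251)], [(nat_lit 29), (nat_lit 66), (nat_lit 483), (nat_lit 250), (nat_lit 10)]⟩⟩))))))) (.dle (nat_lit 0)))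
noncomputable def c8_91 : Tr Lf :=
 (.spl (nat_lit 6) (nat_lit 100) (.spl (nat_lit 1) (nat_lit 280) (.ord (.trX (nat_lit 4) (nat_lit 0) (nat_lit 2) (nat_lit 78) (nat_lit 39) (nat_lit 100) (nat_lit 390) (.spl (nat_lit 6) (nat_lit 68) (.spl (nat_lit 1) (nat_lit 260) (.ord (.trX (nat_lit 4) (nat_lit 0) (nat_lit 2) (nat_lit 75) (nat_lit 48) (nat_lit 100) (nat_lit 380) (.dle (nat_lit 0)))) (.trZ (nat_lit 0) (nat_lit 1) (nat_lit 3) (nat_lit 100) (nat_lit 75) (nat_lit 92) (nat_lit 100) (.trZ (nat_lit 1) (nat_lit 2) (nat_lit 5) (nat_lit 100) (nat_lit 96) (nat_lit 40) (nat_lit 10) (.leaf ⟨(nat_lit 0), (nat_lit 0), (nat_lit 0), (nat_lit 1000), (nat_lit 134260), (nat_lit 4505), (nat_lit 5852), (nat_lit 7760), (nat_lit 0), (nat_lit 185519), (nat_lit 0), [], Pd.none, Pd.none, (nat_lit 0), (nat_lit 1), (nat_lit 0), (nat_lit 0), (nat_lit 0), (nat_lit 0), [⟨(nat_lit 0), (nat_lit 94), (nat_lit 62), (nat_lit 100), (nat_lit 1111032424)⟩], [⟨(nat_lit 0), (nat_lit 94),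 (nat_lit 62), (nat_lit 100), (nat_lit 554264625)⟩], [⟨(nat_lit 0), (nat_lit 100), (nat_lit 97), (nat_lit 59), (nat_lit 395565062)⟩], [],
 ⟨⟨[(nat_lit 40), (nat_lit 80), (nat_lit 120)], [(nat_lit 0), (nat_lit 795), (nat_lit 2800)], [((nat_lit 0), (nat_lit 0), (nat_lit 0)), ((nat_lit 1000), (nat_lit 814), (nat_lit 310)), ((nat_lit 1000), (nat_lit 719), (nat_lit 783))], ((nat_lit 72), (nat_lit 100), (nat_lit 75))⟩, (nat_lit 2886025), (nat_lit 149), (nat_lit 149), (nat_lit 0), (nat_lit 49510), [(nat_lit 2032000265), (nat_lit 4688000481), (nat_lit 7968000000)], [], [(nat_lit 18320496105), (nat_lit 19957120238), (nat_lit 21403560176), (nat_lit 22733520626), (nat_lit 30446530168), (nat_lit 31656326565), (nat_lit 31092749709), (nat_lit 32080402867)], (nat_lit 1271251), (nat_lit 1271251), (nat_lit 631250), (nat_lit 1751251), (nat_lit 780000), (nat_lit 2990626), [(nat_lit 490000), (nat_lit 1100000), (nat_lit 1785001)], [(nat_lit 4), (nat_lit 51), (nat_lit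 401), (nat_lit 175), (nat_lit 13)]⟩,
 ⟨⟨[(nat_lit 80), (nat_lit 120), (nat_lit 160)], [(nat_lit 0), (nat_lit 528), (nat_lit 2577)], [((nat_lit 0), (nat_lit 0), (nat_lit 0)), ((nat_lit 1000), (nat_lit 959), (nat_lit 206)), ((nat_lit 929), (nat_lit 1000), (nat_lit 742))], ((nat_lit 100), (nat_lit 90), (nat_lit 79))⟩, (nat_lit 0), (nat_lit 254), (nat_lit 254), (nat_lit 0), (nat_lit 84946), [(nat_lit 4688000000), (nat_lit 7968000000), (nat_lit 11872000000)], [], [(nat_lit 43092057084), (nat_lit 41531475657), (nat_lit 41962866721), (nat_lit 42622245269), (nat_lit 44897335984), (nat_lit 45251406396), (nat_lit 52384054092), (nat_lit 49910419544)], (nat_lit 1271251), (nat_lit 1271251), (nat_lit 631250), (nat_lit 1751251), (nat_lit 54688), (nat_lit 2845626), [(nat_lit 1100000), (nat_lit 1785001), (nat_lit 1271251)], [(nat_lit 18), (nat_lit 59), (nat_lit 483), (nat_lit 250), (nat_lit 12)]⟩,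
 ⟨⟨[(nat_lit 100), (nat_lit 140), (nat_lit 180)], [(nat_lit 0), (nat_lit 508), (nat_lit 2854)], [((nat_lit 0), (nat_lit 0), (nat_lit 0)), ((nat_lit 1000), (nat_lit 1000), (nat_lit 198)), ((nat_lit 777), (nat_lit 1000), (nat_lit 712))], ((nat_lit 100), (nat_lit 74), (nat_lit 76))⟩, (nat_lit 637933), (nat_lit 300), (nat_lit 391), (nat_lit 67985218), (nat_lit 101877), [(nat_lit 6250000000), (nat_lit 9842000000), (nat_lit 14058000000)], [], [(nat_lit 51609333627), (nat_lit 52871666371), (nat_lit 55300969610), (nat_lit 55487176067), (nat_lit 59690986080), (nat_lit 50291821150), (nat_lit 49576365260), (nat_lit 49114901877)], (nat_lit 1271251), (nat_lit 1271251), (nat_lit 1271251), (nat_lit 1271251), (nat_lit 54688), (nat_lit 2845626), [(nat_lit 1412501), (nat_lit 1271251), (nat_lit 1271251)], [(nat_lit 24), (nat_lit 63), (nat_lit 538), (nat_lit 300), (nat_lit 12)]⟩⟩)))) (.dle (nat_lit 0))))) (.trZ (nat_lit 0) (nat_lit 1) (nat_lit 3) (nat_lit 99) (nat_lit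 77) (nat_lit 100) (nat_lit 120) (.trZ (nat_lit 1) (nat_lit 2) (nat_lit 5) (nat_lit 100) (nat_lit 92) (nat_lit 49) (nat_lit 20) (.spl (nat_lit 1) (nat_lit 300) (.ord (.spl (nat_lit 6) (nat_lit 84) (.leaf ⟨(nat_lit 0), (nat_lit 59), (nat_lit 0), (nat_lit 941), (nat_lit 25407), (nat_lit 5919), (nat_lit 11050), (nat_lit 9517), (nat_lit 0), (nat_lit 594163), (nat_lit 0), [], Pd.none, Pd.none, (nat_lit 0), (nat_lit 1), (nat_lit 0), (nat_lit 0), (nat_lit 5), (nat_lit 0), [⟨(nat_lit 0), (nat_lit 92), (nat_lit 68), (nat_lit 100), (nat_lit 350066837)⟩, ⟨(nat_lit 0), (nat_lit 87), (nat_lit 60), (nat_lit 100), (nat_lit 646707911)⟩], [], [⟨(nat_lit 0), (nat_lit 100), (nat_lit 94), (nat_lit 73), (nat_lit 73583414)⟩], [],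
 ⟨⟨[(nat_lit 40), (nat_lit 80), (nat_lit 120)], [(nat_lit 0), (nat_lit 795), (nat_lit 2800)], [((nat_lit 0), (nat_lit 0), (nat_lit 0)), ((nat_lit 1000), (nat_lit 814), (nat_lit 310)), ((nat_lit 1000), (nat_lit 719), (nat_lit 783))], ((nat_lit 73), (nat_lit 100), (nat_lit 83))⟩, (nat_lit 2068927), (nat_lit 173), (nat_lit 173), (nat_lit 0), (nat_lit 156912), [(nat_lit 2501785852), (nat_lit 4688006715), (nat_lit 7968000000)], [], [(nat_lit 20076290084), (nat_lit 21948266593), (nat_lit 22311269705), (nat_lit 23830386722), (nat_lit 33266843139), (nat_lit 34574451349), (nat_lit 33357816201), (nat_lit 34436384798)], (nat_lit 1271251), (nat_lit 1271251), (nat_lit 780000), (nat_lit 1762501), (nat_lit 780000), (nat_lit 3072501), [(nat_lit 490000), (nat_lit 1100000), (nat_lit 1785001)], [(nat_lit 4), (nat_lit 51), (nat_lit 401), (nat_lit 175), (nat_lit 12)]⟩,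
 ⟨⟨[(nat_lit 60), (nat_lit 120), (nat_lit 160)], [(nat_lit 0), (nat_lit 0), (nat_lit 3243)], [((nat_lit 0), (nat_lit 0), (nat_lit 0)), ((nat_lit 0), (nat_lit 0), (nat_lit 0)), ((nat_lit 878), (nat_lit 1000), (nat_lit 945))], ((nat_lit 100), (nat_lit 94), (nat_lit 89))⟩, (nat_lit 1504488), (nat_lit 363), (nat_lit 363), (nat_lit 0), (nat_lit 230145), [(nat_lit 3282000000), (nat_lit 7968000000), (nat_lit 11872000000)], [], [(nat_lit 30865418666), (nat_lit 32211134966), (nat_lit 31682598666), (nat_lit 33198970191), (nat_lit 36988952050), (nat_lit 38317499825), (nat_lit 53970915100), (nat_lit 49300091150)], (nat_lit 1271251), (nat_lit 1271251), (nat_lit 780000), (nat_lit 1762501), (nat_lit 111251), (nat_lit 2866250), [(nat_lit 780000), (nat_lit 1762501), (nat_lit 1271251)], [(nat_lit 12), (nat_lit 59), (nat_lit 483), (nat_lit 250), (nat_lit 12)]⟩,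
 ⟨⟨[(nat_lit 100), (nat_lit 140), (nat_lit 180)], [(nat_lit 0), (nat_lit 508), (nat_lit 2854)], [((nat_lit 0), (nat_lit 0), (nat_lit 0)), ((nat_lit 1000), (nat_lit 1000), (nat_lit 198)), ((nat_lit 777), (nat_lit 1000), (nat_lit 712))], ((nat_lit 100), (nat_lit 66), (nat_lit 82))⟩, (nat_lit 600295), (nat_lit 300), (nat_lit 449), (nat_lit 63974090), (nat_lit 261384), [(nat_lit 5881250000), (nat_lit 9261322000), (nat_lit 13228578000)], [], [(nat_lit 47322936362), (nat_lit 48582565322), (nat_lit 50561709191), (nat_lit 50602938036), (nat_lit 61672400814), (nat_lit 44428867334), (nat_lit 42468325698), (nat_lit 41943080159)], (nat_lit 1271251), (nat_lit 1271251), (nat_lit 1271251), (nat_lit 1271251), (nat_lit 111251), (nat_lit 2866250), [(nat_lit 1412501), (nat_lit 1271251), (nat_lit 1271251)], [(nat_lit 24), (nat_lit 63), (nat_lit 538), (nat_lit 300), (nat_lit 12)]⟩⟩) (.dle (nat_lit 0)))) (.trZ (nat_lit 0) (nat_lit 1) (nat_lit 3) (nat_lit 90) (nat_lit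 74) (nat_lit 100) (nat_lit 140) (.trZ (nat_lit 1) (nat_lit 2) (nat_lit 5) (nat_lit 100) (nat_lit 87) (nat_lit 59) (nat_lit 30) (.leaf ⟨(nat_lit 0), (nat_lit 342), (nat_lit 0), (nat_lit 658), (nat_lit 16731), (nat_lit 6594), (nat_lit 8691), (nat_lit 6758), (nat_lit 0), (nat_lit 111911), (nat_lit 0), [], Pd.none, Pd.none, (nat_lit 0), (nat_lit 1), (nat_lit 0), (nat_lit 0), (nat_lit 5), (nat_lit 0), [⟨(nat_lit 0), (nat_lit 84), (nat_lit 67), (nat_lit 100), (nat_lit 676064565)⟩], [⟨(nat_lit 0), (nat_lit 100), (nat_lit 71), (nat_lit 100), (nat_lit 123980872)⟩], [], [],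
 ⟨⟨[(nat_lit 40), (nat_lit 100), (nat_lit 140)], [(nat_lit 0), (nat_lit 1192), (nat_lit 4003)], [((nat_lit 0), (nat_lit 0), (nat_lit 0)), ((nat_lit 1000), (nat_lit 814), (nat_lit 310)), ((nat_lit 992), (nat_lit 771), (nat_lit 1000))], ((nat_lit 74), (nat_lit 100), (nat_lit 90))⟩, (nat_lit 2353033), (nat_lit 227), (nat_lit 227), (nat_lit 0), (nat_lit 279443), [(nat_lit 2917116317), (nat_lit 6250000149), (nat_lit 9842000000)], [], [(nat_lit 20168220111), (nat_lit 21937400175), (nat_lit 22102788243), (nat_lit 24354070702), (nat_lit 33930320680), (nat_lit 35282232067), (nat_lit 34166114526), (nat_lit 35302978148)], (nat_lit 1271251), (nat_lit 1271251), (nat_lit 936250), (nat_lit 1773751), (nat_lit 780000), (nat_lit 3072501), [(nat_lit 490000), (nat_lit 1427501), (nat_lit 1271251)], [(nat_lit 5), (nat_lit 55), (nat_lit 401), (nat_lit 175), (nat_lit 11)]⟩,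
 ⟨⟨[(nat_lit 60), (nat_lit 120), (nat_lit 160)], [(nat_lit 0), (nat_lit 913), (nat_lit 3885)], [((nat_lit 0), (nat_lit 0), (nat_lit 0)), ((nat_lit 1000), (nat_lit 905), (nat_lit 238)), ((nat_lit 886), (nat_lit 948), (nat_lit 1000))], ((nat_lit 100), (nat_lit 100), (nat_lit 100))⟩, (nat_lit 2949199), (nat_lit 398), (nat_lit 398), (nat_lit 0), (nat_lit 359715), [(nat_lit 3282000000), (nat_lit 7968000000), (nat_lit 11872000000)], [], [(nat_lit 23573330305), (nat_lit 25049424177), (nat_lit 25414441486), (nat_lit 26587138101), (nat_lit 34333526145), (nat_lit 35471048838), (nat_lit 47886229170), (nat_lit 44212552161)], (nat_lit 1271251), (nat_lit 1271251), (nat_lit 936250), (nat_lit 1773751), (nat_lit 169688), (nat_lit 2886876), [(nat_lit 780000), (nat_lit 1762501), (nat_lit 1271251)], [(nat_lit 12), (nat_lit 59), (nat_lit 483), (nat_lit 250), (nat_lit 12)]⟩,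
 ⟨⟨[(nat_lit 100), (nat_lit 160), (nat_lit 200)], [(nat_lit 0), (nat_lit 761), (nat_lit 5273)], [((nat_lit 0), (nat_lit 0), (nat_lit 0)), ((nat_lit 1000), (nat_lit 1000), (nat_lit 198)), ((nat_lit 518), (nat_lit 1000), (nat_lit 909))], ((nat_lit 0), (nat_lit 0), (nat_lit 0))⟩, (nat_lit 237515), (nat_lit 300), (nat_lit 629), (nat_lit 47693920), (nat_lit 418332), [(nat_lit 4112500000), (nat_lit 7811776000), (nat_lit 10791200000)], [], [(nat_lit 43410148560), (nat_lit 42980497184), (nat_lit 41122173237), (nat_lit 39994628325), (nat_lit 43961342244), (nat_lit 36133146080), (nat_lit 33397606032), (nat_lit 32015838016)], (nat_lit 1271251), (nat_lit 1271251), (nat_lit 1271251), (nat_lit 1271251), (nat_lit 169688), (nat_lit 2886876), [(nat_lit 1412501), (nat_lit 1271251), (nat_lit 1271251)], [(nat_lit 25), (nat_lit 66), (nat_lit 538), (nat_lit 300), (nat_lit 11)]⟩⟩))))))) (.dle (nat_lit 0)))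
noncomputable def c8_92 : Tr Lf :=
 (.trX (nat_lit 4) (nat_lit 0) (nat_lit 2) (nat_lit 72) (nat_lit 77) (nat_lit 100) (nat_lit 330) (.spl (nat_lit 1) (nat_lit 280) (.trX (nat_lit 3) (nat_lit 0) (nat_lit 1) (nat_lit 78) (nat_lit 39) (nat_lit 100) (nat_lit 390) (.spl (nat_lit 6) (nat_lit 80) (.spl (nat_lit 5) (nat_lit 120) (.leaf ⟨(nat_lit 0), (nat_lit 1000), (nat_lit 0), (nat_lit 0), (nat_lit 13555), (nat_lit 7970), (nat_lit 10168), (nat_lit 0), (nat_lit 0), (nat_lit 0), (nat_lit 0), [], Pd.none, Pd.none, (nat_lit 0), (nat_lit 1), (nat_lit 0), (nat_lit 0), (nat_lit 3), (nat_lit 0), [], [⟨(nat_lit 1), (nat_lit 92), (nat_lit 68), (nat_lit 100), (nat_lit 290966349)⟩], [], [⟨(nat_lit 0), (nat_lit 100), (nat_lit 82), (nat_lit 68), (nat_lit 216553441)⟩],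
 ⟨⟨[(nat_lit 40), (nat_lit 80), (nat_lit 120)], [(nat_lit 0), (nat_lit 795), (nat_lit 2800)], [((nat_lit 0), (nat_lit 0), (nat_lit 0)), ((nat_lit 1000), (nat_lit 814), (nat_lit 310)), ((nat_lit 1000), (nat_lit 719), (nat_lit 783))], ((nat_lit 72), (nat_lit 100), (nat_lit 81))⟩, (nat_lit 370984), (nat_lit 157), (nat_lit 157), (nat_lit 0), (nat_lit 106835), [(nat_lit 2696320577), (nat_lit 6318618928), (nat_lit 7968000000)], [], [(nat_lit 25893558450), (nat_lit 27718362660), (nat_lit 35614850303), (nat_lit 37224660383), (nat_lit 30815006812), (nat_lit 31978002718), (nat_lit 38069782750), (nat_lit 39092363715)], (nat_lit 1271251), (nat_lit 1271251), (nat_lit 1271251), (nat_lit 1271251), (nat_lit 780000), (nat_lit 2499376), [(nat_lit 490000), (nat_lit 1100000), (nat_lit 1785001)], [(nat_lit 4), (nat_lit 51), (nat_lit 317), (nat_lit 100), (nat_lit 9)]⟩,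
 ⟨⟨[(nat_lit 80), (nat_lit 140), (nat_lit 180)], [(nat_lit 0), (nat_lit 0), (nat_lit 3656)], [((nat_lit 0), (nat_lit 0), (nat_lit 0)), ((nat_lit 0), (nat_lit 0), (nat_lit 0)), ((nat_lit 637), (nat_lit 1000), (nat_lit 908))], ((nat_lit 100), (nat_lit 76), (nat_lit 82))⟩, (nat_lit 2372167), (nat_lit 391), (nat_lit 391), (nat_lit 0), (nat_lit 158701), [(nat_lit 4688000000), (nat_lit 9842000000), (nat_lit 14058000000)], [], [(nat_lit 36544149256), (nat_lit 37962533096), (nat_lit 44460180280), (nat_lit 45466631236), (nat_lit 29011717912), (nat_lit 30418233592), (nat_lit 36522215592), (nat_lit 37399306494)], (nat_lit 1271251), (nat_lit 1271251), (nat_lit 1271251), (nat_lit 1271251), (nat_lit 0), (nat_lit 780000), [(nat_lit 1100000), (nat_lit 2127501), (nat_lit 1271251)], [(nat_lit 19), (nat_lit 63), (nat_lit 428), (nat_lit 200), (nat_lit 10)]⟩,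
 Rw.none⟩) (.leaf ⟨(nat_lit 0), (nat_lit 619), (nat_lit 0), (nat_lit 381), (nat_lit 0), (nat_lit 4157), (nat_lit 9408), (nat_lit 3464), (nat_lit 0), (nat_lit 0), (nat_lit 0), [], Pd.none, Pd.none, (nat_lit 0), (nat_lit 1), (nat_lit 0), (nat_lit 0), (nat_lit 3), (nat_lit 0), [], [⟨(nat_lit 1), (nat_lit 92), (nat_lit 68), (nat_lit 100), (nat_lit 40387591)⟩], [], [],
 ⟨⟨[(nat_lit 40), (nat_lit 80), (nat_lit 120)], [(nat_lit 0), (nat_lit 795), (nat_lit 2800)], [((nat_lit 0), (nat_lit 0), (nat_lit 0)), ((nat_lit 1000), (nat_lit 814), (nat_lit 310)), ((nat_lit 1000), (nat_lit 719), (nat_lit 783))], ((nat_lit 72), (nat_lit 100), (nat_lit 81))⟩, (nat_lit 2090486), (nat_lit 157), (nat_lit 157), (nat_lit 0), (nat_lit 106835), [(nat_lit 2032000027), (nat_lit 4688000018), (nat_lit 7968000000)], [], [(nat_lit 23411893695), (nat_lit 24597211191), (nat_lit 30023127020), (nat_lit 30899274718), (nat_lit 28205148522), (nat_lit 29066332510), (nat_lit 33354841372),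 (nat_lit 34141734789)], (nat_lit 1271251), (nat_lit 1271251), (nat_lit 1271251), (nat_lit 1271251), (nat_lit 780000), (nat_lit 2499376), [(nat_lit 490000), (nat_lit 1100000), (nat_lit 1785001)], [(nat_lit 4), (nat_lit 51), (nat_lit 317), (nat_lit 100), (nat_lit 9)]⟩,
 ⟨⟨[(nat_lit 80), (nat_lit 140), (nat_lit 180)], [(nat_lit 0), (nat_lit 0), (nat_lit 3656)], [((nat_lit 0), (nat_lit 0), (nat_lit 0)), ((nat_lit 0), (nat_lit 0), (nat_lit 0)), ((nat_lit 637), (nat_lit 1000), (nat_lit 908))], ((nat_lit 100), (nat_lit 76), (nat_lit 82))⟩, (nat_lit 1955608), (nat_lit 267), (nat_lit 267), (nat_lit 0), (nat_lit 192139), [(nat_lit 4688000000), (nat_lit 9842000000), (nat_lit 14058000000)], [], [(nat_lit 29151007040), (nat_lit 29026586056), (nat_lit 36183271140), (nat_lit 37258514131), (nat_lit 36490833344), (nat_lit 35840494640), (nat_lit 40985543192), (nat_lit 41872390286)], (nat_lit 1271251), (nat_lit 1271251), (nat_lit 1271251), (nat_lit 1271251), (nat_lit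 780000), (nat_lit 3072501), [(nat_lit 1100000), (nat_lit 2127501), (nat_lit 1271251)], [(nat_lit 19), (nat_lit 63), (nat_lit 538), (nat_lit 300), (nat_lit 12)]⟩,
 ⟨⟨[(nat_lit 140), (nat_lit 180), (nat_lit 200)], [(nat_lit 0), (nat_lit 0), (nat_lit 2835)], [((nat_lit 0), (nat_lit 0), (nat_lit 0)), ((nat_lit 0), (nat_lit 0), (nat_lit 0)), ((nat_lit 363), (nat_lit 1000), (nat_lit 798))], ((nat_lit 0), (nat_lit 0), (nat_lit 0))⟩, (nat_lit 104825), (nat_lit 300), (nat_lit 887), (nat_lit 29756106), (nat_lit 1017106), [(nat_lit 3749802000), (nat_lit 5356098000), (nat_lit 6248400000)], [], [(nat_lit 29200735147), (nat_lit 28499974169), (nat_lit 27477524071), (nat_lit 26747505443), (nat_lit 27365839532), (nat_lit 26610763190), (nat_lit 25352622448), (nat_lit 28182508234)], (nat_lit 780000), (nat_lit 1271251), (nat_lit 780000), (nat_lit 2499376), (nat_lit 780000), (nat_lit 3072501), [(nat_lit 1977501), (nat_lit 1271251), (nat_lit 1271251)], [(nat_lit 32),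 (nat_lit 67), (nat_lit 483), (nat_lit 250), (nat_lit 10)]⟩⟩)) (.dle (nat_lit 0)))) (.trX (nat_lit 5) (nat_lit 1) (nat_lit 2) (nat_lit 92) (nat_lit 49) (nat_lit 100) (nat_lit 380) (.spl (nat_lit 5) (nat_lit 200) (.spl (nat_lit 1) (nat_lit 300) (.spl (nat_lit 6) (nat_lit 96) (.leaf ⟨(nat_lit 0), (nat_lit 900), (nat_lit 0), (nat_lit 100), (nat_lit 8466), (nat_lit 5793), (nat_lit 7779), (nat_lit 1174), (nat_lit 0), (nat_lit 0), (nat_lit 0), [], Pd.none, Pd.none, (nat_lit 0), (nat_lit 1), (nat_lit 0), (nat_lit 0), (nat_lit 3), (nat_lit 0), [], [⟨(nat_lit 1), (nat_lit 92), (nat_lit 68), (nat_lit 100), (nat_lit 256003980)⟩], [], [⟨(nat_lit 0), (nat_lit 100), (nat_lit 81), (nat_lit 70), (nat_lit 8091056)⟩],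
 ⟨⟨[(nat_lit 40), (nat_lit 100), (nat_lit 140)], [(nat_lit 0), (nat_lit 1192), (nat_lit 4003)], [((nat_lit 0), (nat_lit 0), (nat_lit 0)), ((nat_lit 1000), (nat_lit 814), (nat_lit 310)), ((nat_lit 992), (nat_lit 771), (nat_lit 1000))], ((nat_lit 74), (nat_lit 100), (nat_lit 88))⟩, (nat_lit 1687660), (nat_lit 210), (nat_lit 210), (nat_lit 0), (nat_lit 193395), [(nat_lit 2402790096), (nat_lit 6250000297), (nat_lit 9842000000)], [], [(nat_lit 26189916156), (nat_lit 27276598753), (nat_lit 33063410910), (nat_lit 34356349003), (nat_lit 29398333565), (nat_lit 30126736239), (nat_lit 35897383951), (nat_lit 36755181751)], (nat_lit 1271251), (nat_lit 1271251), (nat_lit 1271251), (nat_lit 1271251), (nat_lit 780000), (nat_lit 2499376), [(nat_lit 490000), (nat_lit 1427501), (nat_lit 1271251)], [(nat_lit 5), (nat_lit 55), (nat_lit 428), (nat_lit 200), (nat_lit 11)]⟩,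
 ⟨⟨[(nat_lit 60), (nat_lit 120), (nat_lit 160)], [(nat_lit 0), (nat_lit 0), (nat_lit 3243)], [((nat_lit 0), (nat_lit 0), (nat_lit 0)), ((nat_lit 0), (nat_lit 0), (nat_lit 0)), ((nat_lit 878), (nat_lit 1000), (nat_lit 945))], ((nat_lit 100), (nat_lit 89), (nat_lit 93))⟩, (nat_lit 1809775), (nat_lit 383), (nat_lit 383), (nat_lit 0), (nat_lit 285750), [(nat_lit 3282000000), (nat_lit 7968000000), (nat_lit 11872000000)], [], [(nat_lit 34475098445), (nat_lit 35351648094), (nat_lit 41858668569), (nat_lit 42310572917), (nat_lit 29218746015), (nat_lit 29879476820), (nat_lit 35285329612), (nat_lit 35742782389)], (nat_lit 1271251), (nat_lit 1271251), (nat_lit 1271251), (nat_lit 1271251), (nat_lit 0), (nat_lit 1412501), [(nat_lit 780000), (nat_lit 1762501), (nat_lit 1271251)], [(nat_lit 12), (nat_lit 59), (nat_lit 456), (nat_lit 225), (nat_lit 11)]⟩,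
 ⟨⟨[(nat_lit 140), (nat_lit 180), (nat_lit 200)], [(nat_lit 0), (nat_lit 0), (nat_lit 2835)], [((nat_lit 0), (nat_lit 0), (nat_lit 0)), ((nat_lit 0), (nat_lit 0), (nat_lit 0)), ((nat_lit 363), (nat_lit 1000), (nat_lit 798))], ((nat_lit 0), (nat_lit 0), (nat_lit 0))⟩, (nat_lit 27513), (nat_lit 300), (nat_lit 1340), (nat_lit 7810004), (nat_lit 1831725), [(nat_lit 984200000), (nat_lit 1405800000), (nat_lit 1640000000)], [], [(nat_lit 7551877092), (nat_lit 7282559985), (nat_lit 6899642531), (nat_lit 6940503120), (nat_lit 6310593550), (nat_lit 6044469114), (nat_lit 7865309477), (nat_lit 8808846769)], (nat_lit 780000), (nat_lit 1271251), (nat_lit 780000), (nat_lit 2499376), (nat_lit 0), (nat_lit 1412501), [(nat_lit 1977501), (nat_lit 1271251), (nat_lit 1271251)], [(nat_lit 32), (nat_lit 67), (nat_lit 428), (nat_lit 200), (nat_lit 9)]⟩⟩) (.dle (nat_lit 0))) (.spl (nat_lit 0) (nat_lit 350) (.spl (nat_lit 6) (nat_lit 100) (.leaf ⟨(nat_lit 0), (nat_lit 922),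 (nat_lit 0), (nat_lit 78), (nat_lit 14499), (nat_lit 5974), (nat_lit 6497), (nat_lit 854), (nat_lit 0), (nat_lit 0), (nat_lit 0), [], Pd.none, Pd.none, (nat_lit 0), (nat_lit 1), (nat_lit 0), (nat_lit 0), (nat_lit 3), (nat_lit 0), [], [⟨(nat_lit 1), (nat_lit 90), (nat_lit 71), (nat_lit 100), (nat_lit 284918118)⟩], [], [],
 ⟨⟨[(nat_lit 40), (nat_lit 100), (nat_lit 140)], [(nat_lit 0), (nat_lit 1192), (nat_lit 4003)], [((nat_lit 0), (nat_lit 0), (nat_lit 0)), ((nat_lit 1000), (nat_lit 814), (nat_lit 310)), ((nat_lit 992), (nat_lit 771), (nat_lit 1000))], ((nat_lit 74), (nat_lit 100), (nat_lit 90))⟩, (nat_lit 1572937), (nat_lit 219), (nat_lit 219), (nat_lit 0), (nat_lit 232213), [(nat_lit 2410416724), (nat_lit 6250000018), (nat_lit 9842000000)], [], [(nat_lit 26495896965), (nat_lit 27047720738), (nat_lit 33355642921), (nat_lit 34012648838), (nat_lit 29667136114), (nat_lit 30035426762), (nat_lit 36128698059), (nat_lit 36562809759)], (nat_lit 1271251),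 (nat_lit 1271251), (nat_lit 1271251), (nat_lit 1271251), (nat_lit 780000), (nat_lit 2499376), [(nat_lit 490000), (nat_lit 1427501), (nat_lit 1271251)], [(nat_lit 5), (nat_lit 55), (nat_lit 428), (nat_lit 200), (nat_lit 11)]⟩,
 ⟨⟨[(nat_lit 60), (nat_lit 120), (nat_lit 160)], [(nat_lit 0), (nat_lit 913), (nat_lit 3885)], [((nat_lit 0), (nat_lit 0), (nat_lit 0)), ((nat_lit 1000), (nat_lit 905), (nat_lit 238)), ((nat_lit 886), (nat_lit 948), (nat_lit 1000))], ((nat_lit 100), (nat_lit 100), (nat_lit 100))⟩, (nat_lit 2159207), (nat_lit 381), (nat_lit 381), (nat_lit 0), (nat_lit 285853), [(nat_lit 3282000000), (nat_lit 7968000000), (nat_lit 11872000000)], [], [(nat_lit 31815756831), (nat_lit 32632653738), (nat_lit 38861142384), (nat_lit 39450770792), (nat_lit 27799176049), (nat_lit 28427478664), (nat_lit 33892818745), (nat_lit 34345960156)], (nat_lit 1271251), (nat_lit 1271251), (nat_lit 1271251), (nat_lit 1271251), (nat_lit 0), (nat_lit 1412501), [(nat_lit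 780000), (nat_lit 1762501), (nat_lit 1271251)], [(nat_lit 12), (nat_lit 59), (nat_lit 483), (nat_lit 250), (nat_lit 12)]⟩,
 ⟨⟨[(nat_lit 140), (nat_lit 180), (nat_lit 200)], [(nat_lit 0), (nat_lit 0), (nat_lit 2835)], [((nat_lit 0), (nat_lit 0), (nat_lit 0)), ((nat_lit 0), (nat_lit 0), (nat_lit 0)), ((nat_lit 363), (nat_lit 1000), (nat_lit 798))], ((nat_lit 0), (nat_lit 0), (nat_lit 0))⟩, (nat_lit 21460), (nat_lit 300), (nat_lit 1467), (nat_lit 6091805), (nat_lit 2105768), [(nat_lit 767676000), (nat_lit 1096524000), (nat_lit 1279200000)], [], [(nat_lit 6147701344), (nat_lit 5952254293), (nat_lit 5600033877), (nat_lit 5398923923), (nat_lit 5355096734), (nat_lit 5166345839), (nat_lit 5996667885), (nat_lit 6693353449)], (nat_lit 780000), (nat_lit 1271251), (nat_lit 780000), (nat_lit 2499376), (nat_lit 0), (nat_lit 1412501), [(nat_lit 1977501), (nat_lit 1271251), (nat_lit 1271251)], [(nat_lit 32), (nat_lit 67), (nat_lit 456), (nat_lit 200), (nat_lit 10)]⟩⟩)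 (.dle (nat_lit 0))) (.trX (nat_lit 4) (nat_lit 0) (nat_lit 2) (nat_lit 66) (nat_lit 82) (nat_lit 100) (nat_lit 320) (.leaf ⟨(nat_lit 0), (nat_lit 915), (nat_lit 0), (nat_lit 85), (nat_lit 10109), (nat_lit 4868), (nat_lit 7204), (nat_lit 948), (nat_lit 0), (nat_lit 0), (nat_lit 0), [], Pd.none, Pd.none, (nat_lit 0), (nat_lit 1), (nat_lit 0), (nat_lit 0), (nat_lit 3), (nat_lit 0), [], [⟨(nat_lit 1), (nat_lit 94), (nat_lit 65), (nat_lit 100), (nat_lit 296038628)⟩], [], [],
 ⟨⟨[(nat_lit 40), (nat_lit 100), (nat_lit 140)], [(nat_lit 0), (nat_lit 1790), (nat_lit 4440)], [((nat_lit 0), (nat_lit 0), (nat_lit 0)), ((nat_lit 1000), (nat_lit 720), (nat_lit 465)), ((nat_lit 969), (nat_lit 697), (nat_lit 1000))], ((nat_lit 69), (nat_lit 100), (nat_lit 95))⟩, (nat_lit 1859267), (nat_lit 238), (nat_lit 238), (nat_lit 0), (nat_lit 289235), [(nat_lit 2090895799), (nat_lit 6250000023), (nat_lit 9842000000)], [], [(nat_lit 25356137033), (nat_lit 25856128669), (nat_lit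 32162580425), (nat_lit 32755200828), (nat_lit 28271151611), (nat_lit 28697202528), (nat_lit 34736579602), (nat_lit 35149501384)], (nat_lit 1271251), (nat_lit 1271251), (nat_lit 1271251), (nat_lit 1271251), (nat_lit 780000), (nat_lit 2417500), [(nat_lit 490000), (nat_lit 1427501), (nat_lit 1271251)], [(nat_lit 5), (nat_lit 55), (nat_lit 428), (nat_lit 200), (nat_lit 11)]⟩,
 ⟨⟨[(nat_lit 60), (nat_lit 120), (nat_lit 160)], [(nat_lit 0), (nat_lit 913), (nat_lit 3885)], [((nat_lit 0), (nat_lit 0), (nat_lit 0)), ((nat_lit 1000), (nat_lit 905), (nat_lit 238)), ((nat_lit 886), (nat_lit 948), (nat_lit 1000))], ((nat_lit 95), (nat_lit 90), (nat_lit 100))⟩, (nat_lit 1899052), (nat_lit 412), (nat_lit 412), (nat_lit 0), (nat_lit 377605), [(nat_lit 3282000000), (nat_lit 7968000000), (nat_lit 11872000000)], [], [(nat_lit 34298139628), (nat_lit 34882957772), (nat_lit 40284684980), (nat_lit 41428770144), (nat_lit 29566569298), (nat_lit 30007831340), (nat_lit 34011530176),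 (nat_lit 34306433332)], (nat_lit 1271251), (nat_lit 1271251), (nat_lit 1271251), (nat_lit 1271251), (nat_lit 0), (nat_lit 1412501), [(nat_lit 780000), (nat_lit 1762501), (nat_lit 1271251)], [(nat_lit 12), (nat_lit 59), (nat_lit 483), (nat_lit 250), (nat_lit 12)]⟩,
 ⟨⟨[(nat_lit 140), (nat_lit 180), (nat_lit 200)], [(nat_lit 0), (nat_lit 0), (nat_lit 2835)], [((nat_lit 0), (nat_lit 0), (nat_lit 0)), ((nat_lit 0), (nat_lit 0), (nat_lit 0)), ((nat_lit 363), (nat_lit 1000), (nat_lit 798))], ((nat_lit 0), (nat_lit 0), (nat_lit 0))⟩, (nat_lit 23386), (nat_lit 300), (nat_lit 1784), (nat_lit 6638504), (nat_lit 2796503), [(nat_lit 836570000), (nat_lit 1194930000), (nat_lit 1394000000)], [], [(nat_lit 6602923408), (nat_lit 6381992296), (nat_lit 6027093640), (nat_lit 5805779178), (nat_lit 5697625648), (nat_lit 5491595351), (nat_lit 6445982708), (nat_lit 7212318480)], (nat_lit 780000), (nat_lit 1271251), (nat_lit 780000), (nat_lit 2417500), (nat_lit 0), (nat_lit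 1412501), [(nat_lit 1977501), (nat_lit 1271251), (nat_lit 1271251)], [(nat_lit 32), (nat_lit 67), (nat_lit 534), (nat_lit 175), (nat_lit 12)]⟩⟩)))) (.stt (nat_lit 2) (.leaf ⟨(nat_lit 0), (nat_lit 923), (nat_lit 0), (nat_lit 77), (nat_lit 10355), (nat_lit 6128), (nat_lit 7927), (nat_lit 862), (nat_lit 0), (nat_lit 0), (nat_lit 0), [], Pd.none, Pd.none, (nat_lit 0), (nat_lit 1), (nat_lit 0), (nat_lit 0), (nat_lit 5), (nat_lit 0), [], [⟨(nat_lit 1), (nat_lit 92), (nat_lit 68), (nat_lit 100), (nat_lit 295396449)⟩], [⟨(nat_lit 1), (nat_lit 72), (nat_lit 89), (nat_lit 100), (nat_lit 375269131)⟩], [],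
 ⟨⟨[(nat_lit 40), (nat_lit 100), (nat_lit 140)], [(nat_lit 0), (nat_lit 1192), (nat_lit 4003)], [((nat_lit 0), (nat_lit 0), (nat_lit 0)), ((nat_lit 1000), (nat_lit 814), (nat_lit 310)), ((nat_lit 992), (nat_lit 771), (nat_lit 1000))], ((nat_lit 76), (nat_lit 100), (nat_lit 97))⟩, (nat_lit 1332791), (nat_lit 239), (nat_lit 239), (nat_lit 0), (nat_lit 292641), [(nat_lit 2563197030), (nat_lit 6250000958), (nat_lit 9842000000)], [], [(nat_lit 27496711877), (nat_lit 28614793689), (nat_lit 34021478563), (nat_lit 34936224288), (nat_lit 30636318694), (nat_lit 31380026635), (nat_lit 36325506748), (nat_lit 37202600548)], (nat_lit 1271251), (nat_lit 1271251), (nat_lit 1271251), (nat_lit 1271251), (nat_lit 780000), (nat_lit 2499376), [(nat_lit 490000), (nat_lit 1427501), (nat_lit 1271251)], [(nat_lit 5), (nat_lit 55), (nat_lit 428), (nat_lit 200), (nat_lit 11)]⟩,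
 ⟨⟨[(nat_lit 60), (nat_lit 120), (nat_lit 180)], [(nat_lit 0), (nat_lit 0), (nat_lit 4796)], [((nat_lit 0), (nat_lit 0), (nat_lit 0)), ((nat_lit 0), (nat_lit 0), (nat_lit 0)), ((nat_lit 802), (nat_lit 1000), (nat_lit 999))], ((nat_lit 100), (nat_lit 82), (nat_lit 99))⟩, (nat_lit 0), (nat_lit 103), (nat_lit 103), (nat_lit 0), (nat_lit 0), [(nat_lit 3282000000), (nat_lit 7968000000), (nat_lit 14058000000)], [], [(nat_lit 23169257331), (nat_lit 25690289104), (nat_lit 33409764282), (nat_lit 34773048784), (nat_lit 32342602770), (nat_lit 33704348213), (nat_lit 39220549416), (nat_lit 40174773797)], (nat_lit 0), (nat_lit 0), (nat_lit 0), (nat_lit 0), (nat_lit 0), (nat_lit 0), [], [(nat_lit 13), (nat_lit 60), (nat_lit 538), (nat_lit 300), (nat_lit 11)]⟩,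
 ⟨⟨[(nat_lit 140), (nat_lit 180), (nat_lit 200)], [(nat_lit 0), (nat_lit 0), (nat_lit 2835)], [((nat_lit 0), (nat_lit 0), (nat_lit 0)), ((nat_lit 0), (nat_lit 0), (nat_lit 0)), ((nat_lit 363), (nat_lit 1000), (nat_lit 798))], ((nat_lit 0), (nat_lit 0), (nat_lit 0))⟩, (nat_lit 21185), (nat_lit 300), (nat_lit 1669), (nat_lit 6013703), (nat_lit 2796503), [(nat_lit 757834000), (nat_lit 1082466000), (nat_lit 1262800000)], [], [(nat_lit 5127214698), (nat_lit 4939731160), (nat_lit 4560393290), (nat_lit 4373607689), (nat_lit 4772927674), (nat_lit 4573845999), (nat_lit 4246464811), (nat_lit 4043815764)], (nat_lit 780000), (nat_lit 1271251), (nat_lit 780000), (nat_lit 2499376), (nat_lit 1271251), (nat_lit 1271251), [(nat_lit 1977501), (nat_lit 1271251), (nat_lit 1271251)], [(nat_lit 32), (nat_lit 67), (nat_lit 529), (nat_lit 225), (nat_lit 11)]⟩⟩) (.spl (nat_lit 1) (nat_lit 300) (.spl (nat_lit 6) (nat_lit 96) (.leaf ⟨(nat_lit 0), (nat_lit 744), (nat_lit 0),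 (nat_lit 256), (nat_lit 0), (nat_lit 4725), (nat_lit 8057), (nat_lit 2871), (nat_lit 0), (nat_lit 0), (nat_lit 0), [], Pd.none, Pd.none, (nat_lit 0), (nat_lit 1), (nat_lit 0), (nat_lit 0), (nat_lit 5), (nat_lit 0), [], [⟨(nat_lit 1), (nat_lit 92), (nat_lit 68), (nat_lit 100), (nat_lit 102344808)⟩], [⟨(nat_lit 1), (nat_lit 68), (nat_lit 92), (nat_lit 100), (nat_lit 222486030)⟩], [],
 ⟨⟨[(nat_lit 40), (nat_lit 100), (nat_lit 140)], [(nat_lit 0), (nat_lit 1192), (nat_lit 4003)], [((nat_lit 0), (nat_lit 0), (nat_lit 0)), ((nat_lit 1000), (nat_lit 814), (nat_lit 310)), ((nat_lit 992), (nat_lit 771), (nat_lit 1000))], ((nat_lit 74), (nat_lit 100), (nat_lit 88))⟩, (nat_lit 1833407), (nat_lit 188), (nat_lit 188), (nat_lit 0), (nat_lit 118941), [(nat_lit 2153123812), (nat_lit 6250000008), (nat_lit 9842000000)], [], [(nat_lit 24893003567), (nat_lit 26123785054), (nat_lit 31884228417), (nat_lit 32842104914), (nat_lit 29239271179), (nat_lit 30075598692), (nat_lit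 34576387236), (nat_lit 35328783913)], (nat_lit 1271251), (nat_lit 1271251), (nat_lit 1271251), (nat_lit 1271251), (nat_lit 780000), (nat_lit 2499376), [(nat_lit 490000), (nat_lit 1427501), (nat_lit 1271251)], [(nat_lit 5), (nat_lit 55), (nat_lit 428), (nat_lit 200), (nat_lit 11)]⟩,
 ⟨⟨[(nat_lit 60), (nat_lit 120), (nat_lit 160)], [(nat_lit 0), (nat_lit 0), (nat_lit 3243)], [((nat_lit 0), (nat_lit 0), (nat_lit 0)), ((nat_lit 0), (nat_lit 0), (nat_lit 0)), ((nat_lit 878), (nat_lit 1000), (nat_lit 945))], ((nat_lit 100), (nat_lit 89), (nat_lit 93))⟩, (nat_lit 1884641), (nat_lit 237), (nat_lit 237), (nat_lit 0), (nat_lit 285750), [(nat_lit 3282000000), (nat_lit 7968000000), (nat_lit 11872000000)], [], [(nat_lit 25334208149), (nat_lit 26317134173), (nat_lit 33545062690), (nat_lit 34053176545), (nat_lit 32453778272), (nat_lit 32961718829), (nat_lit 39398845456), (nat_lit 39876042342)], (nat_lit 1271251), (nat_lit 1271251), (nat_lit 1271251), (nat_lit 1271251),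 (nat_lit 1271251), (nat_lit 1271251), [(nat_lit 780000), (nat_lit 1762501), (nat_lit 1271251)], [(nat_lit 12), (nat_lit 59), (nat_lit 538), (nat_lit 300), (nat_lit 13)]⟩,
 ⟨⟨[(nat_lit 140), (nat_lit 180), (nat_lit 200)], [(nat_lit 0), (nat_lit 0), (nat_lit 2835)], [((nat_lit 0), (nat_lit 0), (nat_lit 0)), ((nat_lit 0), (nat_lit 0), (nat_lit 0)), ((nat_lit 363), (nat_lit 1000), (nat_lit 798))], ((nat_lit 0), (nat_lit 0), (nat_lit 0))⟩, (nat_lit 70434), (nat_lit 300), (nat_lit 914), (nat_lit 19993600), (nat_lit 1176347), [(nat_lit 2519552000), (nat_lit 3598848000), (nat_lit 4198400000)], [], [(nat_lit 16589589932), (nat_lit 15969003794), (nat_lit 15041394852), (nat_lit 14396232083), (nat_lit 15847159967), (nat_lit 15183765783), (nat_lit 14092665914), (nat_lit 13426220428)], (nat_lit 780000), (nat_lit 1271251), (nat_lit 780000), (nat_lit 2499376), (nat_lit 1271251), (nat_lit 1271251), [(nat_lit 1977501), (nat_lit 1271251), (nat_lit 1271251)], [(nat_lit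 32), (nat_lit 67), (nat_lit 456), (nat_lit 225), (nat_lit 10)]⟩⟩) (.dle (nat_lit 0))) (.trX (nat_lit 5) (nat_lit 1) (nat_lit 2) (nat_lit 87) (nat_lit 59) (nat_lit 100) (nat_lit 370) (.leaf ⟨(nat_lit 0), (nat_lit 793), (nat_lit 0), (nat_lit 207), (nat_lit 0), (nat_lit 5904), (nat_lit 7736), (nat_lit 2323), (nat_lit 0), (nat_lit 0), (nat_lit 0), [], Pd.none, Pd.none, (nat_lit 0), (nat_lit 1), (nat_lit 0), (nat_lit 0), (nat_lit 5), (nat_lit 0), [], [⟨(nat_lit 1), (nat_lit 92), (nat_lit 68), (nat_lit 100), (nat_lit 149074070)⟩], [⟨(nat_lit 1), (nat_lit 77), (nat_lit 86), (nat_lit 100), (nat_lit 223826135)⟩], [],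
 ⟨⟨[(nat_lit 40), (nat_lit 100), (nat_lit 140)], [(nat_lit 0), (nat_lit 1192), (nat_lit 4003)], [((nat_lit 0), (nat_lit 0), (nat_lit 0)), ((nat_lit 1000), (nat_lit 814), (nat_lit 310)), ((nat_lit 992), (nat_lit 771), (nat_lit 1000))], ((nat_lit 76), (nat_lit 100), (nat_lit 97))⟩, (nat_lit 1723469), (nat_lit 204), (nat_lit 204), (nat_lit 0), (nat_lit 176056), [(nat_lit 2331918574), (nat_lit 6250000002), (nat_lit 9842000000)], [], [(nat_lit 25826039799), (nat_lit 26923126315), (nat_lit 33242625016), (nat_lit 34548486784), (nat_lit 29011657280), (nat_lit 30104940268), (nat_lit 36039239564), (nat_lit 36903430964)], (nat_lit 1271251), (nat_lit 1271251), (nat_lit 1271251), (nat_lit 1271251), (nat_lit 780000), (nat_lit 2499376), [(nat_lit 490000), (nat_lit 1427501), (nat_lit 1271251)], [(nat_lit 5), (nat_lit 55), (nat_lit 428), (nat_lit 200), (nat_lit 11)]⟩,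
 ⟨⟨[(nat_lit 60), (nat_lit 120), (nat_lit 160)], [(nat_lit 0), (nat_lit 913), (nat_lit 3885)], [((nat_lit 0), (nat_lit 0), (nat_lit 0)), ((nat_lit 1000), (nat_lit 905), (nat_lit 238)), ((nat_lit 886), (nat_lit 948), (nat_lit 1000))], ((nat_lit 95), (nat_lit 90), (nat_lit 100))⟩, (nat_lit 1379340), (nat_lit 268), (nat_lit 268), (nat_lit 0), (nat_lit 377842), [(nat_lit 3282000000), (nat_lit 7968000000), (nat_lit 11872000000)], [], [(nat_lit 29211354360), (nat_lit 29870997480), (nat_lit 34889840360), (nat_lit 35395893876), (nat_lit 33345251897), (nat_lit 33878192872), (nat_lit 38905875073), (nat_lit 39412209832)], (nat_lit 1271251), (nat_lit 1271251), (nat_lit 1271251), (nat_lit 1271251), (nat_lit 1271251), (nat_lit 1271251), [(nat_lit 780000), (nat_lit 1762501), (nat_lit 1271251)], [(nat_lit 12), (nat_lit 59), (nat_lit 538), (nat_lit 300), (nat_lit 13)]⟩,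
 ⟨⟨[(nat_lit 140), (nat_lit 180), (nat_lit 200)], [(nat_lit 0), (nat_lit 0), (nat_lit 2835)], [((nat_lit 0), (nat_lit 0), (nat_lit 0)), ((nat_lit 0), (nat_lit 0), (nat_lit 0)), ((nat_lit 363), (nat_lit 1000), (nat_lit 798))], ((nat_lit 0), (nat_lit 0), (nat_lit 0))⟩, (nat_lit 56952), (nat_lit 300), (nat_lit 1178), (nat_lit 16166706), (nat_lit 1760040), [(nat_lit 2037294000), (nat_lit 2910006000), (nat_lit 3394800000)], [], [(nat_lit 13640870403), (nat_lit 13120457557), (nat_lit 12224437449), (nat_lit 11695882052), (nat_lit 12824859067), (nat_lit 12287057518), (nat_lit 11409651128), (nat_lit 10865201286)], (nat_lit 780000), (nat_lit 1271251), (nat_lit 780000), (nat_lit 2499376), (nat_lit 1271251), (nat_lit 1271251), [(nat_lit 1977501), (nat_lit 1271251), (nat_lit 1271251)], [(nat_lit 32), (nat_lit 67), (nat_lit 456), (nat_lit 225), (nat_lit 10)]⟩⟩))))))))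
noncomputable def c8_93 : Tr Lf :=
 (.spl (nat_lit 6) (nat_lit 84) (.spl (nat_lit 1) (nat_lit 280) (.trX (nat_lit 3) (nat_lit 0) (nat_lit 1) (nat_lit 78) (nat_lit 39) (nat_lit 100) (nat_lit 390) (.dle (nat_lit 0))) (.leaf ⟨(nat_lit 0), (nat_lit 626), (nat_lit 0), (nat_lit 374), (nat_lit 302), (nat_lit 5932), (nat_lit 8017), (nat_lit 2744), (nat_lit 0), (nat_lit 0), (nat_lit 0), [], Pd.none, Pd.none, (nat_lit 0), (nat_lit 1), (nat_lit 0), (nat_lit 0), (nat_lit 4), (nat_lit 0), [], [⟨(nat_lit 1), (nat_lit 75), (nat_lit 66), (nat_lit 100), (nat_lit 436122)⟩], [], [],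
 ⟨⟨[(nat_lit 40), (nat_lit 80), (nat_lit 120)], [(nat_lit 0), (nat_lit 795), (nat_lit 2800)], [((nat_lit 0), (nat_lit 0), (nat_lit 0)), ((nat_lit 1000), (nat_lit 814), (nat_lit 310)), ((nat_lit 1000), (nat_lit 719), (nat_lit 783))], ((nat_lit 73), (nat_lit 100), (nat_lit 83))⟩, (nat_lit 1149152), (nat_lit 169), (nat_lit 169), (nat_lit 0), (nat_lit 141410), [(nat_lit 2494656767), (nat_lit 4688000818), (nat_lit 7968000000)], [], [(nat_lit 25282055500), (nat_lit 26565104094), (nat_lit 33331626106), (nat_lit 34596953972), (nat_lit 31276268706), (nat_lit 32196832492), (nat_lit 37336357308), (nat_lit 38127417600)], (nat_lit 1271251), (nat_lit 1271251), (nat_lit 1271251), (nat_lit 1271251), (nat_lit 780000), (nat_lit 2745001), [(nat_lit 490000), (nat_lit 1100000), (nat_lit 1785001)], [(nat_lit 4), (nat_lit 51), (nat_lit 317), (nat_lit 100), (nat_lit 9)]⟩,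
 ⟨⟨[(nat_lit 60), (nat_lit 120), (nat_lit 160)], [(nat_lit 0), (nat_lit 0), (nat_lit 3243)], [((nat_lit 0), (nat_lit 0), (nat_lit 0)), ((nat_lit 0), (nat_lit 0), (nat_lit 0)), ((nat_lit 878), (nat_lit 1000), (nat_lit 945))], ((nat_lit 100), (nat_lit 94), (nat_lit 89))⟩, (nat_lit 1669430), (nat_lit 351), (nat_lit 351), (nat_lit 0), (nat_lit 188646), [(nat_lit 3282000000), (nat_lit 7968000000), (nat_lit 11872000000)], [], [(nat_lit 34741891220), (nat_lit 36517139274), (nat_lit 42385615078), (nat_lit 43703329512), (nat_lit 34931543284), (nat_lit 35744696492), (nat_lit 40482787992), (nat_lit 41316174328)], (nat_lit 1271251), (nat_lit 1271251), (nat_lit 1271251), (nat_lit 1271251), (nat_lit 0), (nat_lit 2825001), [(nat_lit 780000), (nat_lit 1762501), (nat_lit 1271251)], [(nat_lit 12), (nat_lit 59), (nat_lit 538), (nat_lit 300), (nat_lit 13)]⟩,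
 ⟨⟨[(nat_lit 120), (nat_lit 160), (nat_lit 200)], [(nat_lit 0), (nat_lit 533), (nat_lit 3597)], [((nat_lit 0), (nat_lit 0), (nat_lit 0)), ((nat_lit 960), (nat_lit 1000), (nat_lit 200)), ((nat_lit 612), (nat_lit 1000), (nat_lit 732))], ((nat_lit 0), (nat_lit 0), (nat_lit 0))⟩, (nat_lit 199075), (nat_lit 300), (nat_lit 738), (nat_lit 27087637), (nat_lit 591500), [(nat_lit 2980032000), (nat_lit 4440128000), (nat_lit 6133600000)], [], [(nat_lit 28317428264), (nat_lit 28115563582), (nat_lit 27476744826), (nat_lit 27218339388), (nat_lit 25641046555), (nat_lit 25377446269), (nat_lit 31583510844), (nat_lit 29291027812)], (nat_lit 1271251), (nat_lit 1271251), (nat_lit 780000), (nat_lit 2745001), (nat_lit 0), (nat_lit 2825001), [(nat_lit 1695001), (nat_lit 1271251), (nat_lit 1271251)], [(nat_lit 29), (nat_lit 66), (nat_lit 483), (nat_lit 250), (nat_lit 10)]⟩⟩)) (.dle (nat_lit 0)))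
noncomputable def c8_94 : Tr Lf :=
 (.spl (nat_lit 6) (nat_lit 100) (.spl (nat_lit 1) (nat_lit 280) (.ord (.trX (nat_lit 3) (nat_lit 0) (nat_lit 1) (nat_lit 78) (nat_lit 39) (nat_lit 100) (nat_lit 390) (.trX (nat_lit 4) (nat_lit 0) (nat_lit 2) (nat_lit 78) (nat_lit 39) (nat_lit 100) (nat_lit 390) (.spl (nat_lit 6) (nat_lit 68) (.leaf ⟨(nat_lit 0), (nat_lit 0), (nat_lit 0), (nat_lit 1000), (nat_lit 81711), (nat_lit 4642), (nat_lit 10506), (nat_lit 6349), (nat_lit 0), (nat_lit 462342), (nat_lit 0), [], Pd.none, Pd.none, (nat_lit 0), (nat_lit 1), (nat_lit 0), (nat_lit 0), (nat_lit 0), (nat_lit 0), [], [], [⟨(nat_lit 0), (nat_lit 100), (nat_lit 99), (nat_lit 55), (nat_lit 501567425)⟩], [],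
 ⟨⟨[(nat_lit 40), (nat_lit 80), (nat_lit 120)], [(nat_lit 0), (nat_lit 795), (nat_lit 2800)], [((nat_lit 0), (nat_lit 0), (nat_lit 0)), ((nat_lit 1000), (nat_lit 814), (nat_lit 310)), ((nat_lit 1000), (nat_lit 719), (nat_lit 783))], ((nat_lit 72), (nat_lit 100), (nat_lit 75))⟩, (nat_lit 2615660), (nat_lit 142), (nat_lit 142), (nat_lit 0), (nat_lit 49510), [(nat_lit 2063356479), (nat_lit 4688001208), (nat_lit 7968000000)], [], [(nat_lit 21510101490), (nat_lit 22838961486), (nat_lit 30503880127), (nat_lit 31703384415), (nat_lit 31248687099), (nat_lit 32248905777), (nat_lit 36341430071), (nat_lit 37030799850)], (nat_lit 1271251), (nat_lit 1271251), (nat_lit 1271251), (nat_lit 1271251), (nat_lit 780000), (nat_lit 2990626), [(nat_lit 490000), (nat_lit 1100000), (nat_lit 1785001)], [(nat_lit 4), (nat_lit 51), (nat_lit 317), (nat_lit 100), (nat_lit 9)]⟩,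
 ⟨⟨[(nat_lit 80), (nat_lit 140), (nat_lit 180)], [(nat_lit 0), (nat_lit 0), (nat_lit 3656)], [((nat_lit 0), (nat_lit 0), (nat_lit 0)), ((nat_lit 0), (nat_lit 0), (nat_lit 0)), ((nat_lit 637), (nat_lit 1000), (nat_lit 908))], ((nat_lit 100), (nat_lit 81), (nat_lit 77))⟩, (nat_lit 2510836), (nat_lit 365), (nat_lit 365), (nat_lit 0), (nat_lit 86195), [(nat_lit 4688000000), (nat_lit 9842000000), (nat_lit 14058000000)], [], [(nat_lit 35823172720), (nat_lit 37256895000), (nat_lit 44302595385), (nat_lit 46324577312), (nat_lit 42795808656), (nat_lit 35401215940), (nat_lit 42537441569), (nat_lit 43418749802)], (nat_lit 1271251), (nat_lit 1271251), (nat_lit 1271251), (nat_lit 1271251), (nat_lit 0), (nat_lit 2825001), [(nat_lit 1100000), (nat_lit 2127501), (nat_lit 1271251)], [(nat_lit 19), (nat_lit 63), (nat_lit 538), (nat_lit 300), (nat_lit 12)]⟩,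
 ⟨⟨[(nat_lit 100), (nat_lit 140), (nat_lit 180)], [(nat_lit 0), (nat_lit 508), (nat_lit 2854)], [((nat_lit 0), (nat_lit 0), (nat_lit 0)), ((nat_lit 1000), (nat_lit 1000), (nat_lit 198)), ((nat_lit 777), (nat_lit 1000), (nat_lit 712))], ((nat_lit 100), (nat_lit 74), (nat_lit 76))⟩, (nat_lit 637933), (nat_lit 300), (nat_lit 401), (nat_lit 67985218), (nat_lit 101877), [(nat_lit 6250000000), (nat_lit 9842000000), (nat_lit 14058000000)], [], [(nat_lit 53084367950), (nat_lit 54326350651), (nat_lit 57000263473), (nat_lit 57337052039), (nat_lit 56128425642), (nat_lit 52917644552), (nat_lit 52922700637), (nat_lit 52705874020)], (nat_lit 1271251), (nat_lit 1271251), (nat_lit 1271251), (nat_lit 1271251), (nat_lit 0), (nat_lit 2825001), [(nat_lit 1412501), (nat_lit 1271251), (nat_lit 1271251)], [(nat_lit 24), (nat_lit 63), (nat_lit 538), (nat_lit 300), (nat_lit 13)]⟩⟩) (.dle (nat_lit 0)))))) (.trZ (nat_lit 1) (nat_lit 2) (nat_lit 5) (nat_lit 100) (nat_lit 92)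 (nat_lit 49) (nat_lit 20) (.leaf ⟨(nat_lit 0), (nat_lit 502), (nat_lit 0), (nat_lit 498), (nat_lit 6996), (nat_lit 5690), (nat_lit 7787), (nat_lit 6426), (nat_lit 0), (nat_lit 475961), (nat_lit 0), [], Pd.none, Pd.none, (nat_lit 0), (nat_lit 1), (nat_lit 0), (nat_lit 0), (nat_lit 5), (nat_lit 0), [], [⟨(nat_lit 0), (nat_lit 100), (nat_lit 71), (nat_lit 100), (nat_lit 14905563)⟩], [⟨(nat_lit 0), (nat_lit 100), (nat_lit 92), (nat_lit 82), (nat_lit 97648062)⟩], [],
 ⟨⟨[(nat_lit 40), (nat_lit 100), (nat_lit 140)], [(nat_lit 0), (nat_lit 1192), (nat_lit 4003)], [((nat_lit 0), (nat_lit 0), (nat_lit 0)), ((nat_lit 1000), (nat_lit 814), (nat_lit 310)), ((nat_lit 992), (nat_lit 771), (nat_lit 1000))], ((nat_lit 74), (nat_lit 100), (nat_lit 90))⟩, (nat_lit 2037093), (nat_lit 235), (nat_lit 235), (nat_lit 0), (nat_lit 279677), [(nat_lit 2356454242), (nat_lit 6250000509), (nat_lit 9842000000)], [], [(nat_lit 24539642344), (nat_lit 25616676646), (nat_lit 32897113135),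 (nat_lit 34178058990), (nat_lit 33083593510), (nat_lit 34142384980), (nat_lit 38662935370), (nat_lit 39346111780)], (nat_lit 1271251), (nat_lit 1271251), (nat_lit 1271251), (nat_lit 1271251), (nat_lit 780000), (nat_lit 3072501), [(nat_lit 490000), (nat_lit 1427501), (nat_lit 1271251)], [(nat_lit 5), (nat_lit 55), (nat_lit 428), (nat_lit 200), (nat_lit 11)]⟩,
 ⟨⟨[(nat_lit 60), (nat_lit 120), (nat_lit 160)], [(nat_lit 0), (nat_lit 0), (nat_lit 3243)], [((nat_lit 0), (nat_lit 0), (nat_lit 0)), ((nat_lit 0), (nat_lit 0), (nat_lit 0)), ((nat_lit 878), (nat_lit 1000), (nat_lit 945))], ((nat_lit 100), (nat_lit 88), (nat_lit 94))⟩, (nat_lit 1754873), (nat_lit 395), (nat_lit 395), (nat_lit 0), (nat_lit 367126), [(nat_lit 3282000000), (nat_lit 7968000000), (nat_lit 11872000000)], [], [(nat_lit 33512775829), (nat_lit 35242338074), (nat_lit 40798764599), (nat_lit 41692292984), (nat_lit 35384831114), (nat_lit 36142671012), (nat_lit 40150397512), (nat_lit 40986404008)],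 (nat_lit 1271251), (nat_lit 1271251), (nat_lit 1271251), (nat_lit 1271251), (nat_lit 111251), (nat_lit 2866250), [(nat_lit 780000), (nat_lit 1762501), (nat_lit 1271251)], [(nat_lit 12), (nat_lit 59), (nat_lit 538), (nat_lit 300), (nat_lit 13)]⟩,
 ⟨⟨[(nat_lit 100), (nat_lit 160), (nat_lit 200)], [(nat_lit 0), (nat_lit 761), (nat_lit 5273)], [((nat_lit 0), (nat_lit 0), (nat_lit 0)), ((nat_lit 1000), (nat_lit 1000), (nat_lit 198)), ((nat_lit 518), (nat_lit 1000), (nat_lit 909))], ((nat_lit 0), (nat_lit 0), (nat_lit 0))⟩, (nat_lit 327252), (nat_lit 300), (nat_lit 634), (nat_lit 35395108), (nat_lit 408657), [(nat_lit 3112500000), (nat_lit 5912256000), (nat_lit 8167200000)], [], [(nat_lit 31146846750), (nat_lit 30511638132), (nat_lit 29823189765), (nat_lit 29188155460), (nat_lit 35664102492), (nat_lit 24478416832), (nat_lit 23461725150), (nat_lit 24064616928)], (nat_lit 1271251), (nat_lit 1271251), (nat_lit 1271251), (nat_lit 1271251), (nat_lit 111251),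 (nat_lit 2866250), [(nat_lit 1412501), (nat_lit 1271251), (nat_lit 1271251)], [(nat_lit 25), (nat_lit 66), (nat_lit 538), (nat_lit 300), (nat_lit 11)]⟩⟩))) (.dle (nat_lit 0)))
def l012 : List St := [⟨⟨(nat_lit 340), (nat_lit 360), (nat_lit 240), (nat_lit 280), (nat_lit 140), (nat_lit 160), (nat_lit 120), (nat_lit 280), (nat_lit 240), (nat_lit 320), (nat_lit 0), (nat_lit 390), (nat_lit 32), (nat_lit 60)⟩, (nat_lit 0), (nat_lit 3), (nat_lit 3), false, false, false⟩,
  ⟨⟨(nat_lit 340), (nat_lit 360), (nat_lit 280), (nat_lit 320), (nat_lit 140), (nat_lit 160), (nat_lit 120), (nat_lit 280), (nat_lit 240), (nat_lit 320), (nat_lit 0), (nat_lit 390), (nat_lit 32), (nat_lit 60)⟩, (nat_lit 0), (nat_lit 3), (nat_lit 3), false, false, false⟩,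
  ⟨⟨(nat_lit 340), (nat_lit 360), (nat_lit 240), (nat_lit 280), (nat_lit 160), (nat_lit 180), (nat_lit 120), (nat_lit 280), (nat_lit 240), (nat_lit 330), (nat_lit 0), (nat_lit 400), (nat_lit 32), (nat_lit 60)⟩, (nat_lit 0), (nat_lit 3), (nat_lit 3), false, false, false⟩,
  ⟨⟨(nat_lit 340), (nat_lit 360), (nat_lit 280), (nat_lit 320), (nat_lit 160), (nat_lit 180), (nat_lit 120), (nat_lit 280), (nat_lit 240), (nat_lit 330), (nat_lit 0), (nat_lit 400), (nat_lit 32), (nat_lit 60)⟩, (nat_lit 0), (nat_lit 3), (nat_lit 3), false, false, false⟩,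
  ⟨⟨(nat_lit 340), (nat_lit 360), (nat_lit 240), (nat_lit 280), (nat_lit 120), (nat_lit 180), (nat_lit 120), (nat_lit 280), (nat_lit 240), (nat_lit 330), (nat_lit 0), (nat_lit 120), (nat_lit 32), (nat_lit 60)⟩, (nat_lit 1), (nat_lit 3), (nat_lit 3), false, false, true⟩,
  ⟨⟨(nat_lit 340), (nat_lit 360), (nat_lit 240), (nat_lit 280), (nat_lit 120), (nat_lit 180), (nat_lit 120), (nat_lit 280), (nat_lit 240), (nat_lit 330), (nat_lit 120), (nat_lit 400), (nat_lit 32), (nat_lit 60)⟩, (nat_lit 1), (nat_lit 3), (nat_lit 3), false, false, false⟩,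
  ⟨⟨(nat_lit 340), (nat_lit 360), (nat_lit 280), (nat_lit 320), (nat_lit 120), (nat_lit 180), (nat_lit 120), (nat_lit 280), (nat_lit 240), (nat_lit 330), (nat_lit 0), (nat_lit 400), (nat_lit 32), (nat_lit 60)⟩, (nat_lit 1), (nat_lit 3), (nat_lit 3), false, false, false⟩,
  ⟨⟨(nat_lit 340), (nat_lit 360), (nat_lit 240), (nat_lit 320), (nat_lit 180), (nat_lit 220), (nat_lit 120), (nat_lit 280), (nat_lit 120), (nat_lit 240), (nat_lit 0), (nat_lit 400), (nat_lit 32), (nat_lit 60)⟩, (nat_lit 3), (nat_lit 3), (nat_lit 3), false, false, false⟩,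
  ⟨⟨(nat_lit 340), (nat_lit 360), (nat_lit 240), (nat_lit 320), (nat_lit 180), (nat_lit 220), (nat_lit 120), (nat_lit 280), (nat_lit 240), (nat_lit 360), (nat_lit 0), (nat_lit 400), (nat_lit 32), (nat_lit 60)⟩, (nat_lit 3), (nat_lit 3), (nat_lit 3), false, false, false⟩,
  ⟨⟨(nat_lit 340), (nat_lit 360), (nat_lit 240), (nat_lit 280), (nat_lit 120), (nat_lit 180), (nat_lit 280), (nat_lit 400), (nat_lit 120), (nat_lit 330), (nat_lit 0), (nat_lit 400), (nat_lit 32), (nat_lit 60)⟩, (nat_lit 3), (nat_lit 3), (nat_lit 3), false, false, false⟩,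
  ⟨⟨(nat_lit 340), (nat_lit 360), (nat_lit 280), (nat_lit 320), (nat_lit 120), (nat_lit 180), (nat_lit 280), (nat_lit 400), (nat_lit 120), (nat_lit 330), (nat_lit 0), (nat_lit 400), (nat_lit 32), (nat_lit 60)⟩, (nat_lit 3), (nat_lit 3), (nat_lit 3), false, false, false⟩,
  ⟨⟨(nat_lit 340), (nat_lit 360), (nat_lit 240), (nat_lit 320), (nat_lit 180), (nat_lit 220), (nat_lit 280), (nat_lit 400), (nat_lit 120), (nat_lit 360), (nat_lit 0), (nat_lit 400), (nat_lit 32), (nat_lit 60)⟩, (nat_lit 3), (nat_lit 3), (nat_lit 3), false, false, false⟩,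
  ⟨⟨(nat_lit 340), (nat_lit 360), (nat_lit 240), (nat_lit 320), (nat_lit 220), (nat_lit 320), (nat_lit 80), (nat_lit 400), (nat_lit 120), (nat_lit 400), (nat_lit 0), (nat_lit 400), (nat_lit 0), (nat_lit 32)⟩, (nat_lit 3), (nat_lit 0), (nat_lit 3), false, false, false⟩,
  ⟨⟨(nat_lit 340), (nat_lit 360), (nat_lit 240), (nat_lit 320), (nat_lit 220), (nat_lit 320), (nat_lit 80), (nat_lit 400), (nat_lit 120), (nat_lit 400), (nat_lit 0), (nat_lit 400), (nat_lit 32), (nat_lit 60)⟩, (nat_lit 3), (nat_lit 0), (nat_lit 3), false, false, false⟩,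
  ⟨⟨(nat_lit 340), (nat_lit 360), (nat_lit 240), (nat_lit 280), (nat_lit 220), (nat_lit 280), (nat_lit 80), (nat_lit 240), (nat_lit 120), (nat_lit 240), (nat_lit 0), (nat_lit 400), (nat_lit 0), (nat_lit 60)⟩, (nat_lit 3), (nat_lit 1), (nat_lit 3), false, false, false⟩,
  ⟨⟨(nat_lit 340), (nat_lit 360), (nat_lit 240), (nat_lit 280), (nat_lit 220), (nat_lit 280), (nat_lit 80), (nat_lit 240), (nat_lit 240), (nat_lit 390), (nat_lit 0), (nat_lit 400), (nat_lit 0), (nat_lit 60)⟩, (nat_lit 3), (nat_lit 1), (nat_lit 3), false, false, false⟩,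
  ⟨⟨(nat_lit 340), (nat_lit 360), (nat_lit 240), (nat_lit 280), (nat_lit 220), (nat_lit 280), (nat_lit 240), (nat_lit 390), (nat_lit 120), (nat_lit 390), (nat_lit 0), (nat_lit 400), (nat_lit 0), (nat_lit 60)⟩, (nat_lit 3), (nat_lit 1), (nat_lit 3), false, false, false⟩,
  ⟨⟨(nat_lit 340), (nat_lit 360), (nat_lit 280), (nat_lit 320), (nat_lit 220), (nat_lit 320), (nat_lit 80), (nat_lit 400), (nat_lit 120), (nat_lit 400), (nat_lit 0), (nat_lit 400), (nat_lit 0), (nat_lit 60)⟩, (nat_lit 3), (nat_lit 1), (nat_lit 3), false, false, false⟩,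
  ⟨⟨(nat_lit 340), (nat_lit 350), (nat_lit 240), (nat_lit 280), (nat_lit 120), (nat_lit 180), (nat_lit 80), (nat_lit 240), (nat_lit 120), (nat_lit 240), (nat_lit 0), (nat_lit 400), (nat_lit 60), (nat_lit 80)⟩, (nat_lit 3), (nat_lit 3), (nat_lit 3), false, false, false⟩,
  ⟨⟨(nat_lit 350), (nat_lit 360), (nat_lit 240), (nat_lit 280), (nat_lit 120), (nat_lit 180), (nat_lit 80), (nat_lit 240), (nat_lit 120), (nat_lit 240), (nat_lit 0), (nat_lit 400), (nat_lit 60), (nat_lit 80)⟩, (nat_lit 3), (nat_lit 3), (nat_lit 3), false, false, false⟩,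
  ⟨⟨(nat_lit 340), (nat_lit 360), (nat_lit 280), (nat_lit 320), (nat_lit 120), (nat_lit 220), (nat_lit 80), (nat_lit 240), (nat_lit 120), (nat_lit 240), (nat_lit 0), (nat_lit 400), (nat_lit 60), (nat_lit 116)⟩, (nat_lit 3), (nat_lit 3), (nat_lit 3), false, false, false⟩,
  ⟨⟨(nat_lit 340), (nat_lit 360), (nat_lit 240), (nat_lit 280), (nat_lit 120), (nat_lit 180), (nat_lit 80), (nat_lit 240), (nat_lit 240), (nat_lit 330), (nat_lit 0), (nat_lit 400), (nat_lit 60), (nat_lit 116)⟩, (nat_lit 3), (nat_lit 3), (nat_lit 3), false, false, false⟩,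
  ⟨⟨(nat_lit 340), (nat_lit 360), (nat_lit 280), (nat_lit 300), (nat_lit 120), (nat_lit 180), (nat_lit 120), (nat_lit 240), (nat_lit 240), (nat_lit 330), (nat_lit 0), (nat_lit 380), (nat_lit 60), (nat_lit 116)⟩, (nat_lit 3), (nat_lit 3), (nat_lit 3), false, false, false⟩,
  ⟨⟨(nat_lit 340), (nat_lit 360), (nat_lit 300), (nat_lit 320), (nat_lit 120), (nat_lit 180), (nat_lit 120), (nat_lit 240), (nat_lit 240), (nat_lit 330), (nat_lit 0), (nat_lit 380), (nat_lit 60), (nat_lit 116)⟩, (nat_lit 3), (nat_lit 3), (nat_lit 3), false, false, false⟩,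
  ⟨⟨(nat_lit 340), (nat_lit 360), (nat_lit 240), (nat_lit 320), (nat_lit 180), (nat_lit 220), (nat_lit 80), (nat_lit 240), (nat_lit 240), (nat_lit 360), (nat_lit 0), (nat_lit 400), (nat_lit 60), (nat_lit 116)⟩, (nat_lit 3), (nat_lit 3), (nat_lit 3), false, false, false⟩,
  ⟨⟨(nat_lit 340), (nat_lit 360), (nat_lit 240), (nat_lit 320), (nat_lit 220), (nat_lit 320), (nat_lit 80), (nat_lit 240), (nat_lit 120), (nat_lit 400), (nat_lit 0), (nat_lit 400), (nat_lit 60), (nat_lit 116)⟩, (nat_lit 3), (nat_lit 3), (nat_lit 3), false, false, false⟩,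
  ⟨⟨(nat_lit 340), (nat_lit 360), (nat_lit 240), (nat_lit 320), (nat_lit 120), (nat_lit 180), (nat_lit 240), (nat_lit 400), (nat_lit 120), (nat_lit 360), (nat_lit 0), (nat_lit 400), (nat_lit 60), (nat_lit 116)⟩, (nat_lit 3), (nat_lit 3), (nat_lit 3), false, false, false⟩,
  ⟨⟨(nat_lit 340), (nat_lit 360), (nat_lit 240), (nat_lit 320), (nat_lit 180), (nat_lit 220), (nat_lit 240), (nat_lit 400), (nat_lit 120), (nat_lit 360), (nat_lit 0), (nat_lit 400), (nat_lit 60), (nat_lit 116)⟩, (nat_lit 3), (nat_lit 3), (nat_lit 3), false, false, false⟩,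
  ⟨⟨(nat_lit 340), (nat_lit 360), (nat_lit 240), (nat_lit 320), (nat_lit 220), (nat_lit 320), (nat_lit 240), (nat_lit 400), (nat_lit 120), (nat_lit 400), (nat_lit 0), (nat_lit 400), (nat_lit 60), (nat_lit 116)⟩, (nat_lit 3), (nat_lit 3), (nat_lit 3), false, false, false⟩]
theorem t012 (h : EC env Ei) : ∀ τ ∈ l012, Dead τ :=
  List.forall_mem_cons.mpr ⟨chkT_sound0 h (T := c8_66) (by decide +kernel),
  List.forall_mem_cons.mpr ⟨chkT_sound0 h (T := c8_67) (by decide +kernel),
  List.forall_mem_cons.mpr ⟨chkT_sound0 h (T := c8_68) (by decide +kernel),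
  List.forall_mem_cons.mpr ⟨chkT_sound0 h (T := c8_69) (by decide +kernel),
  List.forall_mem_cons.mpr ⟨chkT_sound0 h (T := c8_70) (by decide +kernel),
  List.forall_mem_cons.mpr ⟨chkT_sound0 h (T := c8_71) (by decide +kernel),
  List.forall_mem_cons.mpr ⟨chkT_sound0 h (T := c8_72) (by decide +kernel),
  List.forall_mem_cons.mpr ⟨chkT_sound0 h (T := c8_73) (by decide +kernel),
  List.forall_mem_cons.mpr ⟨chkT_sound0 h (T := c8_74) (by decide +kernel),
  List.forall_mem_cons.mpr ⟨chkT_sound0 h (T := c8_75) (by decide +kernel),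
  List.forall_mem_cons.mpr ⟨chkT_sound0 h (T := c8_76) (by decide +kernel),
  List.forall_mem_cons.mpr ⟨chkT_sound0 h (T := c8_77) (by decide +kernel),
  List.forall_mem_cons.mpr ⟨chkT_sound0 h (T := c8_78) (by decide +kernel),
  List.forall_mem_cons.mpr ⟨chkT_sound0 h (T := c8_79) (by decide +kernel),
  List.forall_mem_cons.mpr ⟨chkT_sound0 h (T := c8_80) (by decide +kernel),
  List.forall_mem_cons.mpr ⟨chkT_sound0 h (T := c8_81) (by decide +kernel),
  List.forall_mem_cons.mpr ⟨chkT_sound0 h (T := c8_82) (by decide +kernel),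
  List.forall_mem_cons.mpr ⟨chkT_sound0 h (T := c8_83) (by decide +kernel),
  List.forall_mem_cons.mpr ⟨chkT_sound0 h (T := c8_84) (by decide +kernel),
  List.forall_mem_cons.mpr ⟨chkT_sound0 h (T := c8_85) (by decide +kernel),
  List.forall_mem_cons.mpr ⟨chkT_sound0 h (T := c8_86) (by decide +kernel),
  List.forall_mem_cons.mpr ⟨chkT_sound0 h (T := c8_87) (by decide +kernel),
  List.forall_mem_cons.mpr ⟨chkT_sound0 h (T := c8_88) (by decide +kernel),
  List.forall_mem_cons.mpr ⟨chkT_sound0 h (T := c8_89) (by decide +kernel),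
  List.forall_mem_cons.mpr ⟨chkT_sound0 h (T := c8_90) (by decide +kernel),
  List.forall_mem_cons.mpr ⟨chkT_sound0 h (T := c8_91) (by decide +kernel),
  List.forall_mem_cons.mpr ⟨chkT_sound0 h (T := c8_92) (by decide +kernel),
  List.forall_mem_cons.mpr ⟨chkT_sound0 h (T := c8_93) (by decide +kernel),
  List.forall_mem_cons.mpr ⟨chkT_sound0 h (T := c8_94) (by decide +kernel),
  List.forall_mem_nil _⟩⟩⟩⟩⟩⟩⟩⟩⟩⟩⟩⟩⟩⟩⟩⟩⟩⟩⟩⟩⟩⟩⟩⟩⟩⟩⟩⟩⟩
end TC
end Pool.Agent.Lib.MP_6947cd_al
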