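import Pool.Agent.Lib.MP_6947cd_al.C.LeafF
import Pool.Agent.Lib.MP_6947cd_al.TC.E
import Pool.Agent.Lib.MP_6947cd_al.TC.F

/-!
Problem MP_6947cd_al (Chollet).  CASE C, tables and certificates.  Trees of leaves (part 13 of root 9).
-/

set_option autoImplicit false
set_option linter.all false
set_option maxRecDepth 100000
set_option maxHeartbeats 4000000
namespace Pool.Agent.Lib.MP_6947cd_al
namespace TC
open C1
noncomputable def c9_0 : Tr Lf :=
 (.spl (nat_lit 4) (nat_lit 200) (.spl (nat_lit 6) (nat_lit 24) (.spl (nat_lit 0) (nat_lit 350) (.ord (.leaf ⟨(nat_lit 0), (nat_lit 949), (nat_lit 0), (nat_lit 51), (nat_lit 0), (nat_lit 5430), (nat_lit 7058), (nat_lit 2215), (nat_lit 1982621033669), (nat_lit 0), (nat_lit 0), [], Pd.none, Pd.none, (nat_lit 0), (nat_lit 1), (nat_lit 0), (nat_lit 0), (nat_lit 3), (nat_lit 0), [], [], [⟨(nat_lit 0), (nat_lit 100), (nat_lit 74), (nat_lit 60), (nat_lit 142248951)⟩], [],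
 ⟨⟨[(nat_lit 40), (nat_lit 60), (nat_lit 80)], [(nat_lit 0), (nat_lit 398), (nat_lit 992)], [((nat_lit 0), (nat_lit 0), (nat_lit 0)), ((nat_lit 1000), (nat_lit 814), (nat_lit 310)), ((nat_lit 1000), (nat_lit 752), (nat_lit 464))], ((nat_lit 74), (nat_lit 100), (nat_lit 49))⟩, (nat_lit 2044090), (nat_lit 300), (nat_lit 457), (nat_lit 50800001), (nat_lit 991520), [(nat_lit 2032000001), (nat_lit 3577812907), (nat_lit 4688000000)], [], [(nat_lit 31380950653), (nat_lit 31862418910), (nat_lit 37495529945), (nat_lit 37899999870), (nat_lit 30540534666), (nat_lit 30923466357), (nat_lit 35253360131), (nat_lit 35486646026)], (nat_lit 1271251), (nat_lit 1271251), (nat_lit 1100000), (nat_lit 3155001), (nat_lit 54688), (nat_lit 1414376), [(nat_lit 490000), (nat_lit 780000), (nat_lit 1100000)], [(nat_lit 2), (nat_lit 44), (nat_lit 260), (nat_lit 50), (nat_lit 11)]⟩,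
 ⟨⟨[(nat_lit 40), (nat_lit 80), (nat_lit 100)], [(nat_lit 0), (nat_lit 0), (nat_lit 1280)], [((nat_lit 0), (nat_lit 0), (nat_lit 0)), ((nat_lit 0), (nat_lit 0), (nat_lit 0)), ((nat_lit 1000), (nat_lit 800), (nat_lit 600))], ((nat_lit 81), (nat_lit 100), (nat_lit 48))⟩, (nat_lit 2744389), (nat_lit 456), (nat_lit 456), (nat_lit 0), (nat_lit 829396), [(nat_lit 2032000000), (nat_lit 4688000000), (nat_lit 6250000000)], [], [(nat_lit 26662695544), (nat_lit 28539965590), (nat_lit 41020300688), (nat_lit 43370649398), (nat_lit 24048412200), (nat_lit 25699961420), (nat_lit 33808025760), (nat_lit 35825916613)], (nat_lit 1271251), (nat_lit 1271251), (nat_lit 1100000), (nat_lit 3155001), (nat_lit 0), (nat_lit 780000), [(nat_lit 490000), (nat_lit 1100000), (nat_lit 1442501)], [(nat_lit 3), (nat_lit 50), (nat_lit 373), (nat_lit 150), (nat_lit 14)]⟩,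
 ⟨⟨[(nat_lit 140), (nat_lit 160), (nat_lit 180)], [(nat_lit 0), (nat_lit 0), (nat_lit 799)], [((nat_lit 0), (nat_lit 0), (nat_lit 0)), ((nat_lit 0), (nat_lit 0), (nat_lit 0)), ((nat_lit 728), (nat_lit 1000), (nat_lit 454))], ((nat_lit 100), (nat_lit 67), (nat_lit 52))⟩, (nat_lit 1855701), (nat_lit 300), (nat_lit 507), (nat_lit 3784200), (nat_lit 0), [(nat_lit 501942000), (nat_lit 605472000), (nat_lit 716958000)], [], [(nat_lit 5290875927), (nat_lit 4721286954), (nat_lit 2663854846), (nat_lit 2084142600), (nat_lit 2957433889), (nat_lit 2442732711), (nat_lit 611791041), (nat_lit 52026430)], (nat_lit 0), (nat_lit 0), (nat_lit 0), (nat_lit 0), (nat_lit 0), (nat_lit 0), [], [(nat_lit 31), (nat_lit 65), (nat_lit 373), (nat_lit 150), (nat_lit 9)]⟩⟩)) (.trZ (nat_lit 0) (nat_lit 1) (nat_lit 3) (nat_lit 80) (nat_lit 66) (nat_lit 100) (nat_lit 180) (.leaf ⟨(nat_lit 0), (nat_lit 949), (nat_lit 0), (nat_lit 51), (nat_lit 0), (nat_lit 5515), (nat_lit 6895),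 (nat_lit 2215), (nat_lit 74459591286), (nat_lit 0), (nat_lit 0), [], Pd.none, Pd.none, (nat_lit 0), (nat_lit 1), (nat_lit 0), (nat_lit 0), (nat_lit 3), (nat_lit 0), [], [], [⟨(nat_lit 0), (nat_lit 100), (nat_lit 72), (nat_lit 63), (nat_lit 152064842)⟩], [],
 ⟨⟨[(nat_lit 40), (nat_lit 60), (nat_lit 80)], [(nat_lit 0), (nat_lit 600), (nat_lit 1195)], [((nat_lit 0), (nat_lit 0), (nat_lit 0)), ((nat_lit 1000), (nat_lit 725), (nat_lit 454)), ((nat_lit 1000), (nat_lit 720), (nat_lit 465))], ((nat_lit 70), (nat_lit 100), (nat_lit 51))⟩, (nat_lit 2180385), (nat_lit 300), (nat_lit 492), (nat_lit 50800001), (nat_lit 1072064), [(nat_lit 2032000004), (nat_lit 3755948376), (nat_lit 4688000000)], [], [(nat_lit 33268379141), (nat_lit 33699987681), (nat_lit 38395486770), (nat_lit 38823673514), (nat_lit 32052721659), (nat_lit 32396072743), (nat_lit 35992951148), (nat_lit 36207982910)], (nat_lit 1271251), (nat_lit 1271251), (nat_lit 1271251), (nat_lit 1271251),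 (nat_lit 54688), (nat_lit 1414376), [(nat_lit 490000), (nat_lit 780000), (nat_lit 1100000)], [(nat_lit 2), (nat_lit 44), (nat_lit 260), (nat_lit 50), (nat_lit 11)]⟩,
 ⟨⟨[(nat_lit 40), (nat_lit 80), (nat_lit 100)], [(nat_lit 0), (nat_lit 0), (nat_lit 1280)], [((nat_lit 0), (nat_lit 0), (nat_lit 0)), ((nat_lit 0), (nat_lit 0), (nat_lit 0)), ((nat_lit 1000), (nat_lit 800), (nat_lit 600))], ((nat_lit 81), (nat_lit 100), (nat_lit 48))⟩, (nat_lit 2456803), (nat_lit 480), (nat_lit 480), (nat_lit 0), (nat_lit 904418), [(nat_lit 2032000000), (nat_lit 4688000000), (nat_lit 6250000000)], [], [(nat_lit 27641553865), (nat_lit 30027655855), (nat_lit 40564269720), (nat_lit 43655906420), (nat_lit 25070514513), (nat_lit 27171940833), (nat_lit 33421392240), (nat_lit 36263879045)], (nat_lit 1271251), (nat_lit 1271251), (nat_lit 1271251), (nat_lit 1271251), (nat_lit 0), (nat_lit 780000), [(nat_lit 490000), (nat_lit 1100000), (nat_lit 1442501)], [(nat_lit 3), (nat_lit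 50), (nat_lit 373), (nat_lit 150), (nat_lit 14)]⟩,
 ⟨⟨[(nat_lit 140), (nat_lit 160), (nat_lit 180)], [(nat_lit 0), (nat_lit 0), (nat_lit 799)], [((nat_lit 0), (nat_lit 0), (nat_lit 0)), ((nat_lit 0), (nat_lit 0), (nat_lit 0)), ((nat_lit 728), (nat_lit 1000), (nat_lit 454))], ((nat_lit 100), (nat_lit 67), (nat_lit 52))⟩, (nat_lit 1532960), (nat_lit 300), (nat_lit 507), (nat_lit 3784200), (nat_lit 0), [(nat_lit 501942000), (nat_lit 605472000), (nat_lit 716958000)], [], [(nat_lit 5290875927), (nat_lit 4721286954), (nat_lit 2663854846), (nat_lit 2084142600), (nat_lit 2957433889), (nat_lit 2442732711), (nat_lit 611791041), (nat_lit 52026430)], (nat_lit 0), (nat_lit 0), (nat_lit 0), (nat_lit 0), (nat_lit 0), (nat_lit 0), [], [(nat_lit 31), (nat_lit 65), (nat_lit 373), (nat_lit 150), (nat_lit 9)]⟩⟩))) (.leaf ⟨(nat_lit 0), (nat_lit 943), (nat_lit 0), (nat_lit 57), (nat_lit 0), (nat_lit 5905), (nat_lit 6974), (nat_lit 873), (nat_lit 58055377518), (nat_lit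 0), (nat_lit 0), [], Pd.none, Pd.none, (nat_lit 0), (nat_lit 1), (nat_lit 0), (nat_lit 0), (nat_lit 3), (nat_lit 0), [⟨(nat_lit 0), (nat_lit 63), (nat_lit 63), (nat_lit 100), (nat_lit 22690459)⟩], [], [⟨(nat_lit 0), (nat_lit 100), (nat_lit 61), (nat_lit 92), (nat_lit 153092419)⟩], [],
 ⟨⟨[(nat_lit 40), (nat_lit 80), (nat_lit 100)], [(nat_lit 0), (nat_lit 795), (nat_lit 1829)], [((nat_lit 0), (nat_lit 0), (nat_lit 0)), ((nat_lit 1000), (nat_lit 814), (nat_lit 310)), ((nat_lit 1000), (nat_lit 714), (nat_lit 692))], ((nat_lit 72), (nat_lit 100), (nat_lit 63))⟩, (nat_lit 784906), (nat_lit 300), (nat_lit 445), (nat_lit 50800001), (nat_lit 813026), [(nat_lit 2032000001), (nat_lit 4688000002), (nat_lit 6250000000)], [], [(nat_lit 33885528509), (nat_lit 34823137026), (nat_lit 39412722990), (nat_lit 39963413122), (nat_lit 32019831332), (nat_lit 32763317301), (nat_lit 36209296413), (nat_lit 36646136270)], (nat_lit 1271251), (nat_lit 1271251), (nat_lit 1100000),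 (nat_lit 3155001), (nat_lit 54688), (nat_lit 1414376), [(nat_lit 490000), (nat_lit 1100000), (nat_lit 1442501)], [(nat_lit 3), (nat_lit 50), (nat_lit 373), (nat_lit 150), (nat_lit 14)]⟩,
 ⟨⟨[(nat_lit 40), (nat_lit 80), (nat_lit 120)], [(nat_lit 0), (nat_lit 0), (nat_lit 2151)], [((nat_lit 0), (nat_lit 0), (nat_lit 0)), ((nat_lit 0), (nat_lit 0), (nat_lit 0)), ((nat_lit 1000), (nat_lit 815), (nat_lit 753))], ((nat_lit 80), (nat_lit 100), (nat_lit 63))⟩, (nat_lit 2163202), (nat_lit 448), (nat_lit 448), (nat_lit 0), (nat_lit 687812), [(nat_lit 2032000000), (nat_lit 4688000000), (nat_lit 7968000000)], [], [(nat_lit 25594183522), (nat_lit 28200755196), (nat_lit 40785290864), (nat_lit 43897361704), (nat_lit 22615013186), (nat_lit 24889895542), (nat_lit 39309640910), (nat_lit 36400625754)], (nat_lit 1271251), (nat_lit 1271251), (nat_lit 1100000), (nat_lit 3155001), (nat_lit 0), (nat_lit 780000), [(nat_lit 490000), (nat_lit 1100000), (nat_lit 1785001)],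 [(nat_lit 4), (nat_lit 51), (nat_lit 373), (nat_lit 150), (nat_lit 12)]⟩,
 ⟨⟨[(nat_lit 140), (nat_lit 180), (nat_lit 200)], [(nat_lit 0), (nat_lit 0), (nat_lit 2835)], [((nat_lit 0), (nat_lit 0), (nat_lit 0)), ((nat_lit 0), (nat_lit 0), (nat_lit 0)), ((nat_lit 363), (nat_lit 1000), (nat_lit 798))], ((nat_lit 0), (nat_lit 0), (nat_lit 0))⟩, (nat_lit 15683), (nat_lit 300), (nat_lit 629), (nat_lit 4451700), (nat_lit 0), [(nat_lit 560994000), (nat_lit 801306000), (nat_lit 934800000)], [], [(nat_lit 4815253854), (nat_lit 4555720350), (nat_lit 3795660264), (nat_lit 3520913730), (nat_lit 3989699739), (nat_lit 3669880396), (nat_lit 3051178455), (nat_lit 2739623274)], (nat_lit 0), (nat_lit 0), (nat_lit 0), (nat_lit 0), (nat_lit 0), (nat_lit 0), [], [(nat_lit 32), (nat_lit 67), (nat_lit 373), (nat_lit 150), (nat_lit 9)]⟩⟩)) (.trX (nat_lit 3) (nat_lit 4) (nat_lit 5) (nat_lit 100) (nat_lit 40) (nat_lit 92) (nat_lit 390) (.spl (nat_lit 6) (nat_lit 24) (.leaf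 ⟨(nat_lit 0), (nat_lit 0), (nat_lit 0), (nat_lit 1000), (nat_lit 0), (nat_lit 7092), (nat_lit 7019), (nat_lit 23158), (nat_lit 2525886), (nat_lit 0), (nat_lit 0), [], Pd.none, Pd.none, (nat_lit 0), (nat_lit 1), (nat_lit 0), (nat_lit 0), (nat_lit 0), (nat_lit 0), [], [], [⟨(nat_lit 0), (nat_lit 100), (nat_lit 87), (nat_lit 25), (nat_lit 1969179844)⟩], [],
 ⟨⟨[(nat_lit 40), (nat_lit 60), (nat_lit 80)], [(nat_lit 0), (nat_lit 398), (nat_lit 992)], [((nat_lit 0), (nat_lit 0), (nat_lit 0)), ((nat_lit 1000), (nat_lit 814), (nat_lit 310)), ((nat_lit 1000), (nat_lit 752), (nat_lit 464))], ((nat_lit 74), (nat_lit 100), (nat_lit 49))⟩, (nat_lit 629039), (nat_lit 300), (nat_lit 415), (nat_lit 50800001), (nat_lit 1076001), [(nat_lit 2032000022), (nat_lit 3290587014), (nat_lit 4688000000)], [], [(nat_lit 22304105831), (nat_lit 23252698860), (nat_lit 33688407836), (nat_lit 35013420714), (nat_lit 31646830562), (nat_lit 33178942357), (nat_lit 38861102667), (nat_lit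 39710182155)], (nat_lit 1271251), (nat_lit 1271251), (nat_lit 1100000), (nat_lit 3069376), (nat_lit 1271251), (nat_lit 1271251), [(nat_lit 490000), (nat_lit 780000), (nat_lit 1100000)], [(nat_lit 2), (nat_lit 44), (nat_lit 244), (nat_lit 0), (nat_lit 9)]⟩,
 ⟨⟨[(nat_lit 40), (nat_lit 80), (nat_lit 100)], [(nat_lit 0), (nat_lit 0), (nat_lit 1280)], [((nat_lit 0), (nat_lit 0), (nat_lit 0)), ((nat_lit 0), (nat_lit 0), (nat_lit 0)), ((nat_lit 1000), (nat_lit 800), (nat_lit 600))], ((nat_lit 81), (nat_lit 100), (nat_lit 48))⟩, (nat_lit 1711709), (nat_lit 482), (nat_lit 482), (nat_lit 0), (nat_lit 904947), [(nat_lit 2032000000), (nat_lit 4688000000), (nat_lit 6250000000)], [], [(nat_lit 26801924556), (nat_lit 29297020296), (nat_lit 39866853174), (nat_lit 43122267802), (nat_lit 24212762100), (nat_lit 26408213443), (nat_lit 33979375086), (nat_lit 35646915958)], (nat_lit 1271251), (nat_lit 1271251), (nat_lit 1100000), (nat_lit 3069376), (nat_lit 0), (nat_lit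 780000), [(nat_lit 490000), (nat_lit 1100000), (nat_lit 1442501)], [(nat_lit 3), (nat_lit 50), (nat_lit 373), (nat_lit 150), (nat_lit 14)]⟩,
 ⟨⟨[(nat_lit 140), (nat_lit 160), (nat_lit 180)], [(nat_lit 0), (nat_lit 0), (nat_lit 799)], [((nat_lit 0), (nat_lit 0), (nat_lit 0)), ((nat_lit 0), (nat_lit 0), (nat_lit 0)), ((nat_lit 728), (nat_lit 1000), (nat_lit 454))], ((nat_lit 100), (nat_lit 67), (nat_lit 52))⟩, (nat_lit 6130176), (nat_lit 300), (nat_lit 373), (nat_lit 74200000), (nat_lit 0), [(nat_lit 9842000000), (nat_lit 11872000000), (nat_lit 14058000000)], [], [(nat_lit 52683530500), (nat_lit 47734116776), (nat_lit 65960647962), (nat_lit 66653042240), (nat_lit 32076759368), (nat_lit 27333382324), (nat_lit 41867009130), (nat_lit 40210404271)], (nat_lit 0), (nat_lit 0), (nat_lit 0), (nat_lit 0), (nat_lit 0), (nat_lit 0), [], [(nat_lit 31), (nat_lit 65), (nat_lit 428), (nat_lit 200), (nat_lit 10)]⟩⟩) (.leaf ⟨(nat_lit 0), (nat_lit 808), (nat_lit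 0), (nat_lit 192), (nat_lit 0), (nat_lit 6018), (nat_lit 6917), (nat_lit 2621), (nat_lit 3690318255221), (nat_lit 0), (nat_lit 0), [], Pd.none, Pd.none, (nat_lit 0), (nat_lit 1), (nat_lit 0), (nat_lit 0), (nat_lit 5), (nat_lit 0), [], [⟨(nat_lit 1), (nat_lit 82), (nat_lit 66), (nat_lit 100), (nat_lit 310676121)⟩], [⟨(nat_lit 0), (nat_lit 100), (nat_lit 72), (nat_lit 63), (nat_lit 314869661)⟩], [],
 ⟨⟨[(nat_lit 40), (nat_lit 80), (nat_lit 100)], [(nat_lit 0), (nat_lit 795), (nat_lit 1829)], [((nat_lit 0), (nat_lit 0), (nat_lit 0)), ((nat_lit 1000), (nat_lit 814), (nat_lit 310)), ((nat_lit 1000), (nat_lit 714), (nat_lit 692))], ((nat_lit 72), (nat_lit 100), (nat_lit 63))⟩, (nat_lit 784906), (nat_lit 300), (nat_lit 357), (nat_lit 50800001), (nat_lit 813026), [(nat_lit 2032000012), (nat_lit 4688000059), (nat_lit 6250000000)], [], [(nat_lit 29051097848), (nat_lit 29978305806), (nat_lit 34130989065), (nat_lit 34689609788), (nat_lit 33357011473), (nat_lit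 33991287913), (nat_lit 37407785921), (nat_lit 38205484829)], (nat_lit 1271251), (nat_lit 1271251), (nat_lit 1100000), (nat_lit 3069376), (nat_lit 1271251), (nat_lit 1271251), [(nat_lit 490000), (nat_lit 1100000), (nat_lit 1442501)], [(nat_lit 3), (nat_lit 50), (nat_lit 317), (nat_lit 100), (nat_lit 11)]⟩,
 ⟨⟨[(nat_lit 40), (nat_lit 80), (nat_lit 120)], [(nat_lit 0), (nat_lit 0), (nat_lit 2151)], [((nat_lit 0), (nat_lit 0), (nat_lit 0)), ((nat_lit 0), (nat_lit 0), (nat_lit 0)), ((nat_lit 1000), (nat_lit 815), (nat_lit 753))], ((nat_lit 80), (nat_lit 100), (nat_lit 63))⟩, (nat_lit 2268742), (nat_lit 448), (nat_lit 448), (nat_lit 0), (nat_lit 687812), [(nat_lit 2032000000), (nat_lit 4688000000), (nat_lit 7968000000)], [], [(nat_lit 25524397150), (nat_lit 28091545818), (nat_lit 39591326082), (nat_lit 42818734315), (nat_lit 22585415462), (nat_lit 25074596461), (nat_lit 37913763365), (nat_lit 35477694159)], (nat_lit 1271251), (nat_lit 1271251), (nat_lit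 1100000), (nat_lit 3069376), (nat_lit 0), (nat_lit 780000), [(nat_lit 490000), (nat_lit 1100000), (nat_lit 1785001)], [(nat_lit 4), (nat_lit 51), (nat_lit 373), (nat_lit 150), (nat_lit 12)]⟩,
 ⟨⟨[(nat_lit 140), (nat_lit 180), (nat_lit 200)], [(nat_lit 0), (nat_lit 0), (nat_lit 2835)], [((nat_lit 0), (nat_lit 0), (nat_lit 0)), ((nat_lit 0), (nat_lit 0), (nat_lit 0)), ((nat_lit 363), (nat_lit 1000), (nat_lit 798))], ((nat_lit 0), (nat_lit 0), (nat_lit 0))⟩, (nat_lit 52825), (nat_lit 300), (nat_lit 448), (nat_lit 14995206), (nat_lit 0), [(nat_lit 1889664000), (nat_lit 2699136000), (nat_lit 3148800000)], [], [(nat_lit 12559589984), (nat_lit 11871065968), (nat_lit 13123572453), (nat_lit 12144473275), (nat_lit 10244708376), (nat_lit 9559013331), (nat_lit 10684000726), (nat_lit 9771168052)], (nat_lit 0), (nat_lit 0), (nat_lit 0), (nat_lit 0), (nat_lit 0), (nat_lit 0), [], [(nat_lit 32), (nat_lit 67), (nat_lit 428), (nat_lit 200), (nat_lit 9)]⟩⟩))))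
noncomputable def c9_1 : Tr Lf :=
 (.spl (nat_lit 6) (nat_lit 24) (.stt (nat_lit 1) (.leaf ⟨(nat_lit 0), (nat_lit 636), (nat_lit 0), (nat_lit 364), (nat_lit 0), (nat_lit 3873), (nat_lit 5920), (nat_lit 4683), (nat_lit 15367), (nat_lit 0), (nat_lit 0), [], Pd.none, Pd.none, (nat_lit 0), (nat_lit 1), (nat_lit 0), (nat_lit 0), (nat_lit 3), (nat_lit 0), [⟨(nat_lit 0), (nat_lit 72), (nat_lit 66), (nat_lit 100), (nat_lit 214985738)⟩], [⟨(nat_lit 0), (nat_lit 100), (nat_lit 78), (nat_lit 39), (nat_lit 5045430)⟩], [], [],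
 ⟨⟨[(nat_lit 40), (nat_lit 60), (nat_lit 80)], [(nat_lit 0), (nat_lit 398), (nat_lit 992)], [((nat_lit 0), (nat_lit 0), (nat_lit 0)), ((nat_lit 1000), (nat_lit 814), (nat_lit 310)), ((nat_lit 1000), (nat_lit 752), (nat_lit 464))], ((nat_lit 74), (nat_lit 100), (nat_lit 49))⟩, (nat_lit 4042925), (nat_lit 162), (nat_lit 162), (nat_lit 0), (nat_lit 0), [(nat_lit 2032000002), (nat_lit 3321153104), (nat_lit 4688000000)], [], [(nat_lit 20282633434), (nat_lit 21901488930), (nat_lit 32874966775), (nat_lit 34025077526), (nat_lit 28589701356), (nat_lit 29501463593), (nat_lit 34902137573), (nat_lit 35577464857)], (nat_lit 0), (nat_lit 0), (nat_lit 0), (nat_lit 0), (nat_lit 0), (nat_lit 0), [], [(nat_lit 2), (nat_lit 44), (nat_lit 317), (nat_lit 100), (nat_lit 14)]⟩,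
 ⟨⟨[(nat_lit 40), (nat_lit 80), (nat_lit 100)], [(nat_lit 0), (nat_lit 0), (nat_lit 1280)], [((nat_lit 0), (nat_lit 0), (nat_lit 0)), ((nat_lit 0), (nat_lit 0), (nat_lit 0)), ((nat_lit 1000), (nat_lit 800), (nat_lit 600))], ((nat_lit 81), (nat_lit 100), (nat_lit 48))⟩, (nat_lit 1863123), (nat_lit 491), (nat_lit 491), (nat_lit 0), (nat_lit 1089726), [(nat_lit 2032000000), (nat_lit 4688000000), (nat_lit 6250000000)], [], [(nat_lit 29412060960), (nat_lit 31152106040), (nat_lit 35449082560), (nat_lit 36643205000), (nat_lit 34749909400), (nat_lit 35914636500), (nat_lit 37865815580), (nat_lit 39296271780)], (nat_lit 1271251), (nat_lit 1271251), (nat_lit 1271251), (nat_lit 1271251), (nat_lit 780000), (nat_lit 2990626), [(nat_lit 490000), (nat_lit 1100000), (nat_lit 1442501)], [(nat_lit 3), (nat_lit 50), (nat_lit 428), (nat_lit 200), (nat_lit 16)]⟩,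
 ⟨⟨[(nat_lit 140), (nat_lit 160), (nat_lit 180)], [(nat_lit 0), (nat_lit 0), (nat_lit 799)], [((nat_lit 0), (nat_lit 0), (nat_lit 0)), ((nat_lit 0), (nat_lit 0), (nat_lit 0)), ((nat_lit 728), (nat_lit 1000), (nat_lit 454))], ((nat_lit 100), (nat_lit 67), (nat_lit 52))⟩, (nat_lit 1144780), (nat_lit 300), (nat_lit 379), (nat_lit 27008800), (nat_lit 0), [(nat_lit 3582488000), (nat_lit 4321408000), (nat_lit 5117112000)], [], [(nat_lit 19583108902), (nat_lit 19084825267), (nat_lit 17285763674), (nat_lit 16047270572), (nat_lit 21444798848), (nat_lit 20034122700), (nat_lit 16672652438), (nat_lit 15739532337)], (nat_lit 0), (nat_lit 0), (nat_lit 0), (nat_lit 0), (nat_lit 0), (nat_lit 0), [], [(nat_lit 31), (nat_lit 65), (nat_lit 483), (nat_lit 250), (nat_lit 12)]⟩⟩) (.leaf ⟨(nat_lit 0), (nat_lit 534), (nat_lit 0), (nat_lit 466), (nat_lit 0), (nat_lit 5494), (nat_lit 6536), (nat_lit 5521), (nat_lit 17645225508417), (nat_lit 0), (nat_lit 0), [], Pd.none,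 Pd.none, (nat_lit 0), (nat_lit 1), (nat_lit 0), (nat_lit 0), (nat_lit 3), (nat_lit 0), [⟨(nat_lit 0), (nat_lit 63), (nat_lit 63), (nat_lit 100), (nat_lit 414940964)⟩], [⟨(nat_lit 0), (nat_lit 100), (nat_lit 78), (nat_lit 39), (nat_lit 177329565)⟩], [], [],
 ⟨⟨[(nat_lit 40), (nat_lit 60), (nat_lit 80)], [(nat_lit 0), (nat_lit 398), (nat_lit 992)], [((nat_lit 0), (nat_lit 0), (nat_lit 0)), ((nat_lit 1000), (nat_lit 814), (nat_lit 310)), ((nat_lit 1000), (nat_lit 752), (nat_lit 464))], ((nat_lit 74), (nat_lit 100), (nat_lit 49))⟩, (nat_lit 3848151), (nat_lit 300), (nat_lit 493), (nat_lit 50800001), (nat_lit 1076001), [(nat_lit 2032000010), (nat_lit 3282000843), (nat_lit 4688000000)], [], [(nat_lit 32667605841), (nat_lit 33555409350), (nat_lit 38226193966), (nat_lit 38763961558), (nat_lit 35015371938), (nat_lit 35512134029), (nat_lit 39212241735), (nat_lit 37896371007)], (nat_lit 1271251), (nat_lit 1271251), (nat_lit 1100000), (nat_lit 3155001), (nat_lit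 54688), (nat_lit 2630938), [(nat_lit 490000), (nat_lit 780000), (nat_lit 1100000)], [(nat_lit 2), (nat_lit 44), (nat_lit 317), (nat_lit 100), (nat_lit 14)]⟩,
 ⟨⟨[(nat_lit 40), (nat_lit 80), (nat_lit 100)], [(nat_lit 0), (nat_lit 0), (nat_lit 1280)], [((nat_lit 0), (nat_lit 0), (nat_lit 0)), ((nat_lit 0), (nat_lit 0), (nat_lit 0)), ((nat_lit 1000), (nat_lit 800), (nat_lit 600))], ((nat_lit 81), (nat_lit 100), (nat_lit 48))⟩, (nat_lit 1920996), (nat_lit 302), (nat_lit 302), (nat_lit 0), (nat_lit 580527), [(nat_lit 2032000000), (nat_lit 4688000000), (nat_lit 6250000000)], [], [(nat_lit 21337001248), (nat_lit 24387466768), (nat_lit 32883570032), (nat_lit 35642460456), (nat_lit 31257739052), (nat_lit 33980332362), (nat_lit 38728966960), (nat_lit 40206733024)], (nat_lit 1271251), (nat_lit 1271251), (nat_lit 1271251), (nat_lit 1271251), (nat_lit 780000), (nat_lit 2990626), [(nat_lit 490000), (nat_lit 1100000), (nat_lit 1442501)], [(nat_lit 3), (nat_lit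 50), (nat_lit 428), (nat_lit 200), (nat_lit 16)]⟩,
 ⟨⟨[(nat_lit 140), (nat_lit 160), (nat_lit 180)], [(nat_lit 0), (nat_lit 0), (nat_lit 799)], [((nat_lit 0), (nat_lit 0), (nat_lit 0)), ((nat_lit 0), (nat_lit 0), (nat_lit 0)), ((nat_lit 728), (nat_lit 1000), (nat_lit 454))], ((nat_lit 100), (nat_lit 67), (nat_lit 52))⟩, (nat_lit 409444), (nat_lit 300), (nat_lit 379), (nat_lit 34577200), (nat_lit 0), [(nat_lit 4586372000), (nat_lit 5532352000), (nat_lit 6551028000)], [], [(nat_lit 25071463033), (nat_lit 24576970687), (nat_lit 22549918308), (nat_lit 21167801819), (nat_lit 27416350286), (nat_lit 25832407476), (nat_lit 22014851255), (nat_lit 20353022086)], (nat_lit 0), (nat_lit 0), (nat_lit 0), (nat_lit 0), (nat_lit 0), (nat_lit 0), [], [(nat_lit 31), (nat_lit 65), (nat_lit 483), (nat_lit 250), (nat_lit 12)]⟩⟩)) (.spl (nat_lit 5) (nat_lit 240) (.spl (nat_lit 0) (nat_lit 350) (.ord (.leaf ⟨(nat_lit 0), (nat_lit 756), (nat_lit 0), (nat_lit 244), (nat_lit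 0), (nat_lit 6868), (nat_lit 6868), (nat_lit 3984), (nat_lit 5628464136083), (nat_lit 0), (nat_lit 0), [], Pd.none, Pd.none, (nat_lit 0), (nat_lit 1), (nat_lit 0), (nat_lit 0), (nat_lit 3), (nat_lit 0), [], [], [], [],
 ⟨⟨[(nat_lit 40), (nat_lit 80), (nat_lit 100)], [(nat_lit 0), (nat_lit 795), (nat_lit 1829)], [((nat_lit 0), (nat_lit 0), (nat_lit 0)), ((nat_lit 1000), (nat_lit 814), (nat_lit 310)), ((nat_lit 1000), (nat_lit 714), (nat_lit 692))], ((nat_lit 72), (nat_lit 100), (nat_lit 63))⟩, (nat_lit 784906), (nat_lit 300), (nat_lit 413), (nat_lit 50800001), (nat_lit 716229), [(nat_lit 2032000001), (nat_lit 4688000003), (nat_lit 6250000000)], [], [(nat_lit 31169361796), (nat_lit 30919300144), (nat_lit 41242046986), (nat_lit 42009870108), (nat_lit 31389441934), (nat_lit 32141215494), (nat_lit 44956598570), (nat_lit 43559522029)], (nat_lit 1271251), (nat_lit 1271251), (nat_lit 1100000), (nat_lit 3155001), (nat_lit 54688), (nat_lit 2630938), [(nat_lit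 490000), (nat_lit 1100000), (nat_lit 1442501)], [(nat_lit 3), (nat_lit 50), (nat_lit 428), (nat_lit 200), (nat_lit 16)]⟩,
 ⟨⟨[(nat_lit 40), (nat_lit 80), (nat_lit 120)], [(nat_lit 0), (nat_lit 0), (nat_lit 2151)], [((nat_lit 0), (nat_lit 0), (nat_lit 0)), ((nat_lit 0), (nat_lit 0), (nat_lit 0)), ((nat_lit 1000), (nat_lit 815), (nat_lit 753))], ((nat_lit 80), (nat_lit 100), (nat_lit 63))⟩, (nat_lit 2206742), (nat_lit 387), (nat_lit 387), (nat_lit 0), (nat_lit 725864), [(nat_lit 2032000000), (nat_lit 4688000000), (nat_lit 7968000000)], [], [(nat_lit 22888488374), (nat_lit 24580494329), (nat_lit 33380943216), (nat_lit 35508092925), (nat_lit 24241407392), (nat_lit 25839089192), (nat_lit 36827509238), (nat_lit 35074487314)], (nat_lit 1271251), (nat_lit 1271251), (nat_lit 1100000), (nat_lit 3155001), (nat_lit 780000), (nat_lit 1762501), [(nat_lit 490000), (nat_lit 1100000), (nat_lit 1785001)], [(nat_lit 4), (nat_lit 51), (nat_lit 401), (nat_lit 175),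 (nat_lit 12)]⟩,
 ⟨⟨[(nat_lit 140), (nat_lit 180), (nat_lit 200)], [(nat_lit 0), (nat_lit 0), (nat_lit 2835)], [((nat_lit 0), (nat_lit 0), (nat_lit 0)), ((nat_lit 0), (nat_lit 0), (nat_lit 0)), ((nat_lit 363), (nat_lit 1000), (nat_lit 798))], ((nat_lit 0), (nat_lit 0), (nat_lit 0))⟩, (nat_lit 67132), (nat_lit 300), (nat_lit 479), (nat_lit 19056404), (nat_lit 0), [(nat_lit 2401448000), (nat_lit 3430152000), (nat_lit 4001600000)], [], [(nat_lit 16842780809), (nat_lit 15764448717), (nat_lit 13115460901), (nat_lit 11676558589), (nat_lit 15619933348), (nat_lit 14413776520), (nat_lit 11526643406), (nat_lit 10460880610)], (nat_lit 0), (nat_lit 0), (nat_lit 0), (nat_lit 0), (nat_lit 0), (nat_lit 0), [], [(nat_lit 32), (nat_lit 67), (nat_lit 456), (nat_lit 225), (nat_lit 10)]⟩⟩)) (.trZ (nat_lit 0) (nat_lit 1) (nat_lit 3) (nat_lit 80) (nat_lit 66) (nat_lit 100) (nat_lit 180) (.trX (nat_lit 4) (nat_lit 0) (nat_lit 2) (nat_lit 68) (nat_lit 61) (nat_lit 100)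 (nat_lit 360) (.leaf ⟨(nat_lit 0), (nat_lit 794), (nat_lit 0), (nat_lit 206), (nat_lit 0), (nat_lit 6340), (nat_lit 6340), (nat_lit 2904), (nat_lit 1641999767228), (nat_lit 0), (nat_lit 0), [], Pd.none, Pd.none, (nat_lit 0), (nat_lit 1), (nat_lit 0), (nat_lit 0), (nat_lit 3), (nat_lit 0), [⟨(nat_lit 0), (nat_lit 63), (nat_lit 63), (nat_lit 100), (nat_lit 235341723)⟩], [], [], [],
 ⟨⟨[(nat_lit 40), (nat_lit 80), (nat_lit 100)], [(nat_lit 0), (nat_lit 1195), (nat_lit 2166)], [((nat_lit 0), (nat_lit 0), (nat_lit 0)), ((nat_lit 1000), (nat_lit 720), (nat_lit 465)), ((nat_lit 1000), (nat_lit 662), (nat_lit 740))], ((nat_lit 67), (nat_lit 100), (nat_lit 64))⟩, (nat_lit 540167), (nat_lit 300), (nat_lit 444), (nat_lit 50800001), (nat_lit 809130), [(nat_lit 2032000018), (nat_lit 4700266518), (nat_lit 6250000000)], [], [(nat_lit 33118338107), (nat_lit 33588388163), (nat_lit 40500821787), (nat_lit 41234661145), (nat_lit 33539118953), (nat_lit 33797811942),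 (nat_lit 38296175730), (nat_lit 38701392000)], (nat_lit 1271251), (nat_lit 1271251), (nat_lit 1271251), (nat_lit 1271251), (nat_lit 54688), (nat_lit 2559376), [(nat_lit 490000), (nat_lit 1100000), (nat_lit 1442501)], [(nat_lit 3), (nat_lit 50), (nat_lit 428), (nat_lit 200), (nat_lit 16)]⟩,
 ⟨⟨[(nat_lit 40), (nat_lit 80), (nat_lit 120)], [(nat_lit 0), (nat_lit 0), (nat_lit 2151)], [((nat_lit 0), (nat_lit 0), (nat_lit 0)), ((nat_lit 0), (nat_lit 0), (nat_lit 0)), ((nat_lit 1000), (nat_lit 815), (nat_lit 753))], ((nat_lit 80), (nat_lit 100), (nat_lit 63))⟩, (nat_lit 1977060), (nat_lit 421), (nat_lit 421), (nat_lit 0), (nat_lit 826014), [(nat_lit 2032000000), (nat_lit 4688000000), (nat_lit 7968000000)], [], [(nat_lit 25549479210), (nat_lit 27639908745), (nat_lit 32612546000), (nat_lit 35303190140), (nat_lit 26632171160), (nat_lit 28421696650), (nat_lit 32747027440), (nat_lit 34976882280)], (nat_lit 1271251), (nat_lit 1271251), (nat_lit 1271251), (nat_lit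 1271251), (nat_lit 780000), (nat_lit 1762501), [(nat_lit 490000), (nat_lit 1100000), (nat_lit 1785001)], [(nat_lit 4), (nat_lit 51), (nat_lit 401), (nat_lit 175), (nat_lit 12)]⟩,
 ⟨⟨[(nat_lit 140), (nat_lit 180), (nat_lit 200)], [(nat_lit 0), (nat_lit 0), (nat_lit 2835)], [((nat_lit 0), (nat_lit 0), (nat_lit 0)), ((nat_lit 0), (nat_lit 0), (nat_lit 0)), ((nat_lit 363), (nat_lit 1000), (nat_lit 798))], ((nat_lit 0), (nat_lit 0), (nat_lit 0))⟩, (nat_lit 56677), (nat_lit 300), (nat_lit 479), (nat_lit 16088604), (nat_lit 0), [(nat_lit 2027452000), (nat_lit 2895948000), (nat_lit 3378400000)], [], [(nat_lit 13926989453), (nat_lit 13207383724), (nat_lit 11317614306), (nat_lit 10315090046), (nat_lit 13101239350), (nat_lit 12284937388), (nat_lit 10236396792), (nat_lit 9180735232)], (nat_lit 0), (nat_lit 0), (nat_lit 0), (nat_lit 0), (nat_lit 0), (nat_lit 0), [], [(nat_lit 32), (nat_lit 67), (nat_lit 456), (nat_lit 225), (nat_lit 10)]⟩⟩)))) (.spl (nat_lit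 3) (nat_lit 280) (.leaf ⟨(nat_lit 0), (nat_lit 223), (nat_lit 0), (nat_lit 777), (nat_lit 0), (nat_lit 7218), (nat_lit 7331), (nat_lit 10039), (nat_lit 269639779125), (nat_lit 0), (nat_lit 0), [], Pd.none, Pd.none, (nat_lit 0), (nat_lit 1), (nat_lit 0), (nat_lit 0), (nat_lit 6), (nat_lit 0), [⟨(nat_lit 0), (nat_lit 72), (nat_lit 66), (nat_lit 100), (nat_lit 604098880)⟩], [⟨(nat_lit 0), (nat_lit 100), (nat_lit 78), (nat_lit 39), (nat_lit 460387251)⟩], [], [],
 ⟨⟨[(nat_lit 40), (nat_lit 80), (nat_lit 100)], [(nat_lit 0), (nat_lit 795), (nat_lit 1829)], [((nat_lit 0), (nat_lit 0), (nat_lit 0)), ((nat_lit 1000), (nat_lit 814), (nat_lit 310)), ((nat_lit 1000), (nat_lit 714), (nat_lit 692))], ((nat_lit 72), (nat_lit 100), (nat_lit 63))⟩, (nat_lit 784906), (nat_lit 300), (nat_lit 442), (nat_lit 50800001), (nat_lit 813026), [(nat_lit 2032000001), (nat_lit 4688000001), (nat_lit 6250000000)], [], [(nat_lit 29448295176), (nat_lit 30491417667), (nat_lit 31405523411),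 (nat_lit 33586901621), (nat_lit 31791611665), (nat_lit 33339791091), (nat_lit 39034231695), (nat_lit 36027611690)], (nat_lit 1271251), (nat_lit 1271251), (nat_lit 1100000), (nat_lit 2127501), (nat_lit 54688), (nat_lit 2630938), [(nat_lit 490000), (nat_lit 1100000), (nat_lit 1442501)], [(nat_lit 3), (nat_lit 50), (nat_lit 401), (nat_lit 175), (nat_lit 15)]⟩,
 ⟨⟨[(nat_lit 40), (nat_lit 80), (nat_lit 120)], [(nat_lit 0), (nat_lit 0), (nat_lit 2151)], [((nat_lit 0), (nat_lit 0), (nat_lit 0)), ((nat_lit 0), (nat_lit 0), (nat_lit 0)), ((nat_lit 1000), (nat_lit 815), (nat_lit 753))], ((nat_lit 80), (nat_lit 100), (nat_lit 63))⟩, (nat_lit 1930310), (nat_lit 403), (nat_lit 403), (nat_lit 0), (nat_lit 826769), [(nat_lit 2032000000), (nat_lit 4688000000), (nat_lit 7968000000)], [], [(nat_lit 22883980854), (nat_lit 24785987764), (nat_lit 25125658802), (nat_lit 28635471996), (nat_lit 32196629680), (nat_lit 35101668534), (nat_lit 34426109395), (nat_lit 36686686674)],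 (nat_lit 1271251), (nat_lit 1271251), (nat_lit 1100000), (nat_lit 2127501), (nat_lit 1271251), (nat_lit 1271251), [(nat_lit 490000), (nat_lit 1100000), (nat_lit 1785001)], [(nat_lit 4), (nat_lit 51), (nat_lit 289), (nat_lit 75), (nat_lit 8)]⟩,
 ⟨⟨[(nat_lit 140), (nat_lit 180), (nat_lit 200)], [(nat_lit 0), (nat_lit 0), (nat_lit 2835)], [((nat_lit 0), (nat_lit 0), (nat_lit 0)), ((nat_lit 0), (nat_lit 0), (nat_lit 0)), ((nat_lit 363), (nat_lit 1000), (nat_lit 798))], ((nat_lit 0), (nat_lit 0), (nat_lit 0))⟩, (nat_lit 213778), (nat_lit 300), (nat_lit 427), (nat_lit 60683700), (nat_lit 0), [(nat_lit 7647234000), (nat_lit 10923066000), (nat_lit 12742800000)], [], [(nat_lit 49315037520), (nat_lit 46567555820), (nat_lit 39953472277), (nat_lit 36361910403), (nat_lit 52650047515), (nat_lit 48848542618), (nat_lit 40403862585), (nat_lit 36831485261)], (nat_lit 0), (nat_lit 0), (nat_lit 0), (nat_lit 0), (nat_lit 0), (nat_lit 0), [], [(nat_lit 32), (nat_lit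 67), (nat_lit 483), (nat_lit 250), (nat_lit 10)]⟩⟩) (.trZ (nat_lit 5) (nat_lit 3) (nat_lit 4) (nat_lit 94) (nat_lit 100) (nat_lit 59) (nat_lit 30) (.leaf ⟨(nat_lit 0), (nat_lit 0), (nat_lit 0), (nat_lit 1000), (nat_lit 0), (nat_lit 6860), (nat_lit 6860), (nat_lit 22487), (nat_lit 2830241734568), (nat_lit 0), (nat_lit 0), [], Pd.none, Pd.none, (nat_lit 0), (nat_lit 1), (nat_lit 0), (nat_lit 0), (nat_lit 0), (nat_lit 0), [], [], [], [⟨(nat_lit 1), (nat_lit 83), (nat_lit 73), (nat_lit 100), (nat_lit 256008552)⟩],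
 ⟨⟨[(nat_lit 40), (nat_lit 80), (nat_lit 100)], [(nat_lit 0), (nat_lit 795), (nat_lit 1829)], [((nat_lit 0), (nat_lit 0), (nat_lit 0)), ((nat_lit 1000), (nat_lit 814), (nat_lit 310)), ((nat_lit 1000), (nat_lit 714), (nat_lit 692))], ((nat_lit 72), (nat_lit 100), (nat_lit 63))⟩, (nat_lit 784906), (nat_lit 300), (nat_lit 433), (nat_lit 50800001), (nat_lit 813026), [(nat_lit 2032000001), (nat_lit 4688000001), (nat_lit 6250000000)], [], [(nat_lit 31793189555), (nat_lit 32599523467), (nat_lit 39643811048), (nat_lit 41165076745), (nat_lit 33711993325), (nat_lit 34884784180), (nat_lit 39043411450), (nat_lit 39850489330)], (nat_lit 1271251), (nat_lit 1271251), (nat_lit 1271251), (nat_lit 1271251), (nat_lit 169688), (nat_lit 2666563), [(nat_lit 490000), (nat_lit 1100000), (nat_lit 1442501)], [(nat_lit 3), (nat_lit 50), (nat_lit 317), (nat_lit 100), (nat_lit 11)]⟩,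
 ⟨⟨[(nat_lit 40), (nat_lit 80), (nat_lit 120)], [(nat_lit 0), (nat_lit 0), (nat_lit 2151)], [((nat_lit 0), (nat_lit 0), (nat_lit 0)), ((nat_lit 0), (nat_lit 0), (nat_lit 0)), ((nat_lit 1000), (nat_lit 815), (nat_lit 753))], ((nat_lit 80), (nat_lit 100), (nat_lit 63))⟩, (nat_lit 1735147), (nat_lit 385), (nat_lit 385), (nat_lit 0), (nat_lit 826769), [(nat_lit 2032000000), (nat_lit 4688000000), (nat_lit 7968000000)], [], [(nat_lit 26835612243), (nat_lit 28294130760), (nat_lit 33324807760), (nat_lit 35644480120), (nat_lit 33910696450), (nat_lit 36097315660), (nat_lit 39183635350), (nat_lit 40685611990)], (nat_lit 1271251), (nat_lit 1271251), (nat_lit 1271251), (nat_lit 1271251), (nat_lit 1271251), (nat_lit 1271251), [(nat_lit 490000), (nat_lit 1100000), (nat_lit 1785001)], [(nat_lit 4), (nat_lit 51), (nat_lit 240), (nat_lit 0), (nat_lit 6)]⟩,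
 ⟨⟨[(nat_lit 140), (nat_lit 180), (nat_lit 200)], [(nat_lit 0), (nat_lit 0), (nat_lit 2835)], [((nat_lit 0), (nat_lit 0), (nat_lit 0)), ((nat_lit 0), (nat_lit 0), (nat_lit 0)), ((nat_lit 363), (nat_lit 1000), (nat_lit 798))], ((nat_lit 0), (nat_lit 0), (nat_lit 0))⟩, (nat_lit 275132), (nat_lit 300), (nat_lit 407), (nat_lit 78100004), (nat_lit 0), [(nat_lit 9842000000), (nat_lit 14058000000), (nat_lit 16400000000)], [], [(nat_lit 60911502933), (nat_lit 53393526115), (nat_lit 48309453714), (nat_lit 41426190401), (nat_lit 75153786193), (nat_lit 67915257147), (nat_lit 61902411559), (nat_lit 55515805530)], (nat_lit 0), (nat_lit 0), (nat_lit 0), (nat_lit 0), (nat_lit 0), (nat_lit 0), [], [(nat_lit 32), (nat_lit 67), (nat_lit 483), (nat_lit 250), (nat_lit 10)]⟩⟩)))))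
noncomputable def c9_2 : Tr Lf :=
 (.spl (nat_lit 4) (nat_lit 200) (.spl (nat_lit 1) (nat_lit 340) (.leaf ⟨(nat_lit 0), (nat_lit 970), (nat_lit 0), (nat_lit 30), (nat_lit 0), (nat_lit 7120), (nat_lit 7313), (nat_lit 724), (nat_lit 0), (nat_lit 0), (nat_lit 0), [], Pd.none, Pd.none, (nat_lit 0), (nat_lit 1), (nat_lit 0), (nat_lit 0), (nat_lit 3), (nat_lit 0), [], [], [⟨(nat_lit 0), (nat_lit 100), (nat_lit 73), (nat_lit 85), (nat_lit 120785333)⟩], [],
 ⟨⟨[(nat_lit 40), (nat_lit 80), (nat_lit 120)], [(nat_lit 0), (nat_lit 795), (nat_lit 2800)], [((nat_lit 0), (nat_lit 0), (nat_lit 0)), ((nat_lit 1000), (nat_lit 814), (nat_lit 310)), ((nat_lit 1000), (nat_lit 719), (nat_lit 783))], ((nat_lit 73), (nat_lit 100), (nat_lit 85))⟩, (nat_lit 784906), (nat_lit 300), (nat_lit 385), (nat_lit 50800001), (nat_lit 521313), [(nat_lit 2032000001), (nat_lit 4688000001), (nat_lit 7968000000)], [], [(nat_lit 33682945195), (nat_lit 34829797210), (nat_lit 41946055070),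 (nat_lit 43514140360), (nat_lit 30095849680), (nat_lit 30997345480), (nat_lit 40685895491), (nat_lit 37639041011)], (nat_lit 1271251), (nat_lit 1271251), (nat_lit 1100000), (nat_lit 3155001), (nat_lit 54688), (nat_lit 1414376), [(nat_lit 490000), (nat_lit 1100000), (nat_lit 1785001)], [(nat_lit 4), (nat_lit 51), (nat_lit 373), (nat_lit 150), (nat_lit 12)]⟩,
 ⟨⟨[(nat_lit 40), (nat_lit 100), (nat_lit 140)], [(nat_lit 0), (nat_lit 0), (nat_lit 3243)], [((nat_lit 0), (nat_lit 0), (nat_lit 0)), ((nat_lit 0), (nat_lit 0), (nat_lit 0)), ((nat_lit 1000), (nat_lit 870), (nat_lit 941))], ((nat_lit 85), (nat_lit 100), (nat_lit 88))⟩, (nat_lit 1798030), (nat_lit 438), (nat_lit 438), (nat_lit 0), (nat_lit 492524), [(nat_lit 2032000000), (nat_lit 6250000000), (nat_lit 9842000000)], [], [(nat_lit 31692969460), (nat_lit 31664296454), (nat_lit 41733723368), (nat_lit 43333601658), (nat_lit 26498545310), (nat_lit 27613657099), (nat_lit 37163375278), (nat_lit 35517513990)],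 (nat_lit 1271251), (nat_lit 1271251), (nat_lit 1100000), (nat_lit 3155001), (nat_lit 0), (nat_lit 780000), [(nat_lit 490000), (nat_lit 1427501), (nat_lit 1271251)], [(nat_lit 5), (nat_lit 55), (nat_lit 373), (nat_lit 150), (nat_lit 10)]⟩,
 ⟨⟨[(nat_lit 140), (nat_lit 180), (nat_lit 200)], [(nat_lit 0), (nat_lit 0), (nat_lit 2835)], [((nat_lit 0), (nat_lit 0), (nat_lit 0)), ((nat_lit 0), (nat_lit 0), (nat_lit 0)), ((nat_lit 363), (nat_lit 1000), (nat_lit 798))], ((nat_lit 0), (nat_lit 0), (nat_lit 0))⟩, (nat_lit 8254), (nat_lit 300), (nat_lit 629), (nat_lit 2343000), (nat_lit 0), [(nat_lit 295260000), (nat_lit 421740000), (nat_lit 492000000)], [], [(nat_lit 3010764361), (nat_lit 2753905612), (nat_lit 2086773988), (nat_lit 1853284478), (nat_lit 2220088021), (nat_lit 1990199442), (nat_lit 1395447760), (nat_lit 1168132566)], (nat_lit 0), (nat_lit 0), (nat_lit 0), (nat_lit 0), (nat_lit 0), (nat_lit 0), [], [(nat_lit 32), (nat_lit 67), (nat_lit 373),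 (nat_lit 150), (nat_lit 9)]⟩⟩) (.trZ (nat_lit 0) (nat_lit 1) (nat_lit 3) (nat_lit 71) (nat_lit 71) (nat_lit 100) (nat_lit 190) (.trZ (nat_lit 1) (nat_lit 2) (nat_lit 5) (nat_lit 100) (nat_lit 78) (nat_lit 39) (nat_lit 10) (.leaf ⟨(nat_lit 0), (nat_lit 970), (nat_lit 0), (nat_lit 30), (nat_lit 0), (nat_lit 6462), (nat_lit 5766), (nat_lit 466), (nat_lit 8938993250802), (nat_lit 0), (nat_lit 0), [], Pd.none, Pd.none, (nat_lit 0), (nat_lit 1), (nat_lit 0), (nat_lit 0), (nat_lit 3), (nat_lit 0), [], [], [⟨(nat_lit 0), (nat_lit 100), (nat_lit 66), (nat_lit 68), (nat_lit 163106105)⟩], [],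
 ⟨⟨[(nat_lit 40), (nat_lit 80), (nat_lit 120)], [(nat_lit 0), (nat_lit 795), (nat_lit 2800)], [((nat_lit 0), (nat_lit 0), (nat_lit 0)), ((nat_lit 1000), (nat_lit 814), (nat_lit 310)), ((nat_lit 1000), (nat_lit 719), (nat_lit 783))], ((nat_lit 73), (nat_lit 100), (nat_lit 85))⟩, (nat_lit 784906), (nat_lit 300), (nat_lit 422), (nat_lit 50800001), (nat_lit 649110), [(nat_lit 2032000001), (nat_lit 4688000001), (nat_lit 7968000000)], [], [(nat_lit 35526808689), (nat_lit 36434439299), (nat_lit 40976068076), (nat_lit 41592047940), (nat_lit 32548952980), (nat_lit 33265838025), (nat_lit 36538036674), (nat_lit 37026170208)], (nat_lit 1271251), (nat_lit 1271251), (nat_lit 1271251), (nat_lit 1271251), (nat_lit 54688), (nat_lit 1414376), [(nat_lit 490000), (nat_lit 1100000), (nat_lit 1785001)], [(nat_lit 4), (nat_lit 51), (nat_lit 373), (nat_lit 150), (nat_lit 12)]⟩,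
 ⟨⟨[(nat_lit 40), (nat_lit 80), (nat_lit 120)], [(nat_lit 0), (nat_lit 795), (nat_lit 2800)], [((nat_lit 0), (nat_lit 0), (nat_lit 0)), ((nat_lit 1000), (nat_lit 814), (nat_lit 310)), ((nat_lit 1000), (nat_lit 719), (nat_lit 783))], ((nat_lit 73), (nat_lit 100), (nat_lit 85))⟩, (nat_lit 2307698), (nat_lit 391), (nat_lit 391), (nat_lit 0), (nat_lit 543531), [(nat_lit 2032000000), (nat_lit 4688000000), (nat_lit 7968000000)], [], [(nat_lit 23784477705), (nat_lit 26321555625), (nat_lit 38163408458), (nat_lit 39557198236), (nat_lit 20984535999), (nat_lit 22001128055), (nat_lit 33019818289), (nat_lit 34309612786)], (nat_lit 1271251), (nat_lit 1271251), (nat_lit 1271251), (nat_lit 1271251), (nat_lit 54688), (nat_lit 780000), [(nat_lit 490000), (nat_lit 1100000), (nat_lit 1785001)], [(nat_lit 4), (nat_lit 51), (nat_lit 373), (nat_lit 150), (nat_lit 12)]⟩,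
 ⟨⟨[(nat_lit 140), (nat_lit 180), (nat_lit 200)], [(nat_lit 0), (nat_lit 0), (nat_lit 2835)], [((nat_lit 0), (nat_lit 0), (nat_lit 0)), ((nat_lit 0), (nat_lit 0), (nat_lit 0)), ((nat_lit 363), (nat_lit 1000), (nat_lit 798))], ((nat_lit 0), (nat_lit 0), (nat_lit 0))⟩, (nat_lit 8254), (nat_lit 300), (nat_lit 619), (nat_lit 2343000), (nat_lit 0), [(nat_lit 295260000), (nat_lit 421740000), (nat_lit 492000000)], [], [(nat_lit 2495886492), (nat_lit 2358488623), (nat_lit 1951946719), (nat_lit 1810934570), (nat_lit 2094850875), (nat_lit 1932963819), (nat_lit 1592767454), (nat_lit 1435152504)], (nat_lit 0), (nat_lit 0), (nat_lit 0), (nat_lit 0), (nat_lit 0), (nat_lit 0), [], [(nat_lit 32), (nat_lit 67), (nat_lit 373), (nat_lit 150), (nat_lit 9)]⟩⟩)))) (.trX (nat_lit 3) (nat_lit 4) (nat_lit 5) (nat_lit 100) (nat_lit 40) (nat_lit 92) (nat_lit 390) (.spl (nat_lit 1) (nat_lit 340) (.leaf ⟨(nat_lit 0), (nat_lit 699), (nat_lit 0), (nat_lit 301), (nat_lit 0),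 (nat_lit 5860), (nat_lit 6630), (nat_lit 4091), (nat_lit 0), (nat_lit 0), (nat_lit 0), [], Pd.none, Pd.none, (nat_lit 0), (nat_lit 1), (nat_lit 0), (nat_lit 0), (nat_lit 5), (nat_lit 0), [⟨(nat_lit 0), (nat_lit 72), (nat_lit 61), (nat_lit 100), (nat_lit 202223788)⟩], [⟨(nat_lit 1), (nat_lit 82), (nat_lit 66), (nat_lit 100), (nat_lit 308006064)⟩], [⟨(nat_lit 0), (nat_lit 100), (nat_lit 76), (nat_lit 57), (nat_lit 124611812)⟩, ⟨(nat_lit 0), (nat_lit 100), (nat_lit 87), (nat_lit 25), (nat_lit 253384697)⟩], [],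
 ⟨⟨[(nat_lit 40), (nat_lit 80), (nat_lit 120)], [(nat_lit 0), (nat_lit 795), (nat_lit 2800)], [((nat_lit 0), (nat_lit 0), (nat_lit 0)), ((nat_lit 1000), (nat_lit 814), (nat_lit 310)), ((nat_lit 1000), (nat_lit 719), (nat_lit 783))], ((nat_lit 73), (nat_lit 100), (nat_lit 85))⟩, (nat_lit 1692305), (nat_lit 283), (nat_lit 283), (nat_lit 0), (nat_lit 521313), [(nat_lit 2142241984), (nat_lit 4688000007), (nat_lit 7968000000)], [], [(nat_lit 23087681304), (nat_lit 24181216624), (nat_lit 32189082778), (nat_lit 33386913370), (nat_lit 30231193108), (nat_lit 31606199185), (nat_lit 37193983271), (nat_lit 37984123397)], (nat_lit 1271251), (nat_lit 1271251), (nat_lit 1100000), (nat_lit 3069376), (nat_lit 1271251), (nat_lit 1271251), [(nat_lit 490000), (nat_lit 1100000), (nat_lit 1785001)], [(nat_lit 4), (nat_lit 51), (nat_lit 428), (nat_lit 200), (nat_lit 13)]⟩,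
 ⟨⟨[(nat_lit 40), (nat_lit 100), (nat_lit 140)], [(nat_lit 0), (nat_lit 0), (nat_lit 3243)], [((nat_lit 0), (nat_lit 0), (nat_lit 0)), ((nat_lit 0), (nat_lit 0), (nat_lit 0)), ((nat_lit 1000), (nat_lit 870), (nat_lit 941))], ((nat_lit 85), (nat_lit 100), (nat_lit 88))⟩, (nat_lit 1877823), (nat_lit 438), (nat_lit 438), (nat_lit 0), (nat_lit 492524), [(nat_lit 2032000000), (nat_lit 6250000000), (nat_lit 9842000000)], [], [(nat_lit 31413624411), (nat_lit 32605237770), (nat_lit 39570548380), (nat_lit 40390957240), (nat_lit 28154464680), (nat_lit 29403579490), (nat_lit 37302446060), (nat_lit 36296288387)], (nat_lit 1271251), (nat_lit 1271251), (nat_lit 1100000), (nat_lit 3069376), (nat_lit 0), (nat_lit 780000), [(nat_lit 490000), (nat_lit 1427501), (nat_lit 1271251)], [(nat_lit 5), (nat_lit 55), (nat_lit 373), (nat_lit 150), (nat_lit 10)]⟩,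
 ⟨⟨[(nat_lit 140), (nat_lit 180), (nat_lit 200)], [(nat_lit 0), (nat_lit 0), (nat_lit 2835)], [((nat_lit 0), (nat_lit 0), (nat_lit 0)), ((nat_lit 0), (nat_lit 0), (nat_lit 0)), ((nat_lit 363), (nat_lit 1000), (nat_lit 798))], ((nat_lit 0), (nat_lit 0), (nat_lit 0))⟩, (nat_lit 82815), (nat_lit 300), (nat_lit 448), (nat_lit 23508100), (nat_lit 0), [(nat_lit 2962442000), (nat_lit 4231458000), (nat_lit 4936400000)], [], [(nat_lit 19682746617), (nat_lit 18610991562), (nat_lit 20567909357), (nat_lit 19042377762), (nat_lit 16078787879), (nat_lit 15004332660), (nat_lit 16762102998), (nat_lit 15339923308)], (nat_lit 0), (nat_lit 0), (nat_lit 0), (nat_lit 0), (nat_lit 0), (nat_lit 0), [], [(nat_lit 32), (nat_lit 67), (nat_lit 428), (nat_lit 200), (nat_lit 9)]⟩⟩) (.trZ (nat_lit 0) (nat_lit 1) (nat_lit 3) (nat_lit 71) (nat_lit 71) (nat_lit 100) (nat_lit 190) (.trZ (nat_lit 1) (nat_lit 2) (nat_lit 5) (nat_lit 100) (nat_lit 78) (nat_lit 39) (nat_lit 10) (.leaf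 ⟨(nat_lit 0), (nat_lit 610), (nat_lit 0), (nat_lit 390), (nat_lit 0), (nat_lit 5798), (nat_lit 5236), (nat_lit 5338), (nat_lit 6866118602518), (nat_lit 0), (nat_lit 0), [], Pd.none, Pd.none, (nat_lit 0), (nat_lit 1), (nat_lit 0), (nat_lit 0), (nat_lit 5), (nat_lit 0), [⟨(nat_lit 0), (nat_lit 63), (nat_lit 63), (nat_lit 100), (nat_lit 94920840)⟩], [⟨(nat_lit 1), (nat_lit 82), (nat_lit 66), (nat_lit 100), (nat_lit 62074788)⟩], [⟨(nat_lit 0), (nat_lit 100), (nat_lit 78), (nat_lit 39), (nat_lit 513120651)⟩], [],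
 ⟨⟨[(nat_lit 40), (nat_lit 80), (nat_lit 120)], [(nat_lit 0), (nat_lit 795), (nat_lit 2800)], [((nat_lit 0), (nat_lit 0), (nat_lit 0)), ((nat_lit 1000), (nat_lit 814), (nat_lit 310)), ((nat_lit 1000), (nat_lit 719), (nat_lit 783))], ((nat_lit 73), (nat_lit 100), (nat_lit 85))⟩, (nat_lit 784906), (nat_lit 300), (nat_lit 316), (nat_lit 50800001), (nat_lit 649110), [(nat_lit 2032000001), (nat_lit 4688000001), (nat_lit 7968000000)], [], [(nat_lit 31178911252), (nat_lit 32086599055), (nat_lit 36037399700), (nat_lit 36612626145), (nat_lit 35341009387), (nat_lit 35961428892), (nat_lit 38273745035), (nat_lit 38671114068)], (nat_lit 1271251), (nat_lit 1271251), (nat_lit 1271251), (nat_lit 1271251), (nat_lit 1271251), (nat_lit 1271251), [(nat_lit 490000), (nat_lit 1100000), (nat_lit 1785001)], [(nat_lit 4), (nat_lit 51), (nat_lit 428), (nat_lit 200), (nat_lit 13)]⟩,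
 ⟨⟨[(nat_lit 40), (nat_lit 80), (nat_lit 120)], [(nat_lit 0), (nat_lit 795), (nat_lit 2800)], [((nat_lit 0), (nat_lit 0), (nat_lit 0)), ((nat_lit 1000), (nat_lit 814), (nat_lit 310)), ((nat_lit 1000), (nat_lit 719), (nat_lit 783))], ((nat_lit 73), (nat_lit 100), (nat_lit 85))⟩, (nat_lit 2348299), (nat_lit 390), (nat_lit 390), (nat_lit 0), (nat_lit 543531), [(nat_lit 2032000000), (nat_lit 4688000000), (nat_lit 7968000000)], [], [(nat_lit 24383041283), (nat_lit 25360701086), (nat_lit 35866482254), (nat_lit 37243211014), (nat_lit 22880283731), (nat_lit 23881482993), (nat_lit 31416114587), (nat_lit 32688852541)], (nat_lit 1271251), (nat_lit 1271251), (nat_lit 1271251), (nat_lit 1271251), (nat_lit 54688), (nat_lit 780000), [(nat_lit 490000), (nat_lit 1100000), (nat_lit 1785001)], [(nat_lit 4), (nat_lit 51), (nat_lit 373), (nat_lit 150), (nat_lit 12)]⟩,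
 ⟨⟨[(nat_lit 140), (nat_lit 180), (nat_lit 200)], [(nat_lit 0), (nat_lit 0), (nat_lit 2835)], [((nat_lit 0), (nat_lit 0), (nat_lit 0)), ((nat_lit 0), (nat_lit 0), (nat_lit 0)), ((nat_lit 363), (nat_lit 1000), (nat_lit 798))], ((nat_lit 0), (nat_lit 0), (nat_lit 0))⟩, (nat_lit 107302), (nat_lit 300), (nat_lit 436), (nat_lit 30459000), (nat_lit 0), [(nat_lit 3838380000), (nat_lit 5482620000), (nat_lit 6396000000)], [], [(nat_lit 25026940000), (nat_lit 23637698810), (nat_lit 26168417448), (nat_lit 24189087326), (nat_lit 20772770447), (nat_lit 19402154472), (nat_lit 21691899813), (nat_lit 19830744788)], (nat_lit 0), (nat_lit 0), (nat_lit 0), (nat_lit 0), (nat_lit 0), (nat_lit 0), [], [(nat_lit 32), (nat_lit 67), (nat_lit 428), (nat_lit 200), (nat_lit 9)]⟩⟩))))))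
noncomputable def c9_3 : Tr Lf :=
 (.stt (nat_lit 1) (.spl (nat_lit 0) (nat_lit 350) (.ord (.leaf ⟨(nat_lit 0), (nat_lit 674), (nat_lit 0), (nat_lit 326), (nat_lit 0), (nat_lit 4488), (nat_lit 6399), (nat_lit 4212), (nat_lit 291853306321), (nat_lit 0), (nat_lit 0), [], Pd.none, Pd.none, (nat_lit 0), (nat_lit 1), (nat_lit 0), (nat_lit 0), (nat_lit 3), (nat_lit 0), [⟨(nat_lit 0), (nat_lit 67), (nat_lit 67), (nat_lit 100), (nat_lit 200114674)⟩], [], [], [],
 ⟨⟨[(nat_lit 40), (nat_lit 80), (nat_lit 120)], [(nat_lit 0), (nat_lit 795), (nat_lit 2800)], [((nat_lit 0), (nat_lit 0), (nat_lit 0)), ((nat_lit 1000), (nat_lit 814), (nat_lit 310)), ((nat_lit 1000), (nat_lit 719), (nat_lit 783))], ((nat_lit 73), (nat_lit 100), (nat_lit 85))⟩, (nat_lit 2610934), (nat_lit 189), (nat_lit 189), (nat_lit 0), (nat_lit 0), [(nat_lit 2032000083), (nat_lit 4688000077), (nat_lit 7968000000)], [], [(nat_lit 22077401055), (nat_lit 22742753674), (nat_lit 34593081743), (nat_lit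 35207720479), (nat_lit 28654687761), (nat_lit 29254711480), (nat_lit 35754793560), (nat_lit 36106020412)], (nat_lit 0), (nat_lit 0), (nat_lit 0), (nat_lit 0), (nat_lit 0), (nat_lit 0), [], [(nat_lit 4), (nat_lit 51), (nat_lit 428), (nat_lit 200), (nat_lit 14)]⟩,
 ⟨⟨[(nat_lit 40), (nat_lit 100), (nat_lit 140)], [(nat_lit 0), (nat_lit 0), (nat_lit 3243)], [((nat_lit 0), (nat_lit 0), (nat_lit 0)), ((nat_lit 0), (nat_lit 0), (nat_lit 0)), ((nat_lit 1000), (nat_lit 870), (nat_lit 941))], ((nat_lit 85), (nat_lit 100), (nat_lit 88))⟩, (nat_lit 1333425), (nat_lit 352), (nat_lit 352), (nat_lit 0), (nat_lit 555647), [(nat_lit 2032000000), (nat_lit 6250000000), (nat_lit 9842000000)], [], [(nat_lit 30423520525), (nat_lit 31983694791), (nat_lit 36735512971), (nat_lit 37627216124), (nat_lit 35777451063), (nat_lit 36648633287), (nat_lit 39070191848), (nat_lit 39638615139)], (nat_lit 1271251), (nat_lit 1271251), (nat_lit 1271251), (nat_lit 1271251), (nat_lit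 780000), (nat_lit 2990626), [(nat_lit 490000), (nat_lit 1427501), (nat_lit 1271251)], [(nat_lit 5), (nat_lit 55), (nat_lit 428), (nat_lit 200), (nat_lit 12)]⟩,
 ⟨⟨[(nat_lit 140), (nat_lit 180), (nat_lit 200)], [(nat_lit 0), (nat_lit 0), (nat_lit 2835)], [((nat_lit 0), (nat_lit 0), (nat_lit 0)), ((nat_lit 0), (nat_lit 0), (nat_lit 0)), ((nat_lit 363), (nat_lit 1000), (nat_lit 798))], ((nat_lit 0), (nat_lit 0), (nat_lit 0))⟩, (nat_lit 89693), (nat_lit 300), (nat_lit 479), (nat_lit 25460602), (nat_lit 0), [(nat_lit 3208492000), (nat_lit 4582908000), (nat_lit 5346400000)], [], [(nat_lit 22041605184), (nat_lit 20884330666), (nat_lit 18309101872), (nat_lit 16876901107), (nat_lit 22089985515), (nat_lit 20495010040), (nat_lit 16951925130), (nat_lit 15453105110)], (nat_lit 0), (nat_lit 0), (nat_lit 0), (nat_lit 0), (nat_lit 0), (nat_lit 0), [], [(nat_lit 32), (nat_lit 67), (nat_lit 483), (nat_lit 250), (nat_lit 11)]⟩⟩)) (.trZ (nat_lit 0) (nat_lit 1) (nat_lit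 3) (nat_lit 80) (nat_lit 66) (nat_lit 100) (nat_lit 180) (.trX (nat_lit 4) (nat_lit 0) (nat_lit 2) (nat_lit 68) (nat_lit 61) (nat_lit 100) (nat_lit 360) (.leaf ⟨(nat_lit 0), (nat_lit 675), (nat_lit 0), (nat_lit 325), (nat_lit 0), (nat_lit 3987), (nat_lit 6358), (nat_lit 4262), (nat_lit 200362673978), (nat_lit 0), (nat_lit 0), [], Pd.none, Pd.none, (nat_lit 0), (nat_lit 1), (nat_lit 0), (nat_lit 0), (nat_lit 3), (nat_lit 0), [⟨(nat_lit 0), (nat_lit 63), (nat_lit 63), (nat_lit 100), (nat_lit 207241503)⟩], [], [⟨(nat_lit 1), (nat_lit 77), (nat_lit 72), (nat_lit 100), (nat_lit 6083915)⟩], [],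
 ⟨⟨[(nat_lit 40), (nat_lit 80), (nat_lit 120)], [(nat_lit 0), (nat_lit 1195), (nat_lit 3135)], [((nat_lit 0), (nat_lit 0), (nat_lit 0)), ((nat_lit 1000), (nat_lit 720), (nat_lit 465)), ((nat_lit 1000), (nat_lit 661), (nat_lit 757))], ((nat_lit 67), (nat_lit 100), (nat_lit 84))⟩, (nat_lit 2583002), (nat_lit 191), (nat_lit 191), (nat_lit 0), (nat_lit 0), [(nat_lit 2032000019), (nat_lit 4688000033), (nat_lit 7968000000)], [], [(nat_lit 22157349151), (nat_lit 22765415534), (nat_lit 33775839402), (nat_lit 34358232180), (nat_lit 28668274165), (nat_lit 29127621811), (nat_lit 35041836727), (nat_lit 35391191600)], (nat_lit 0), (nat_lit 0), (nat_lit 0), (nat_lit 0), (nat_lit 0), (nat_lit 0), [], [(nat_lit 4), (nat_lit 51), (nat_lit 428), (nat_lit 200), (nat_lit 14)]⟩,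
 ⟨⟨[(nat_lit 40), (nat_lit 100), (nat_lit 140)], [(nat_lit 0), (nat_lit 0), (nat_lit 3243)], [((nat_lit 0), (nat_lit 0), (nat_lit 0)), ((nat_lit 0), (nat_lit 0), (nat_lit 0)), ((nat_lit 1000), (nat_lit 870), (nat_lit 941))], ((nat_lit 85), (nat_lit 100), (nat_lit 88))⟩, (nat_lit 1148406), (nat_lit 424), (nat_lit 424), (nat_lit 0), (nat_lit 663296), [(nat_lit 2032000000), (nat_lit 6250000000), (nat_lit 9842000000)], [], [(nat_lit 31412799898), (nat_lit 33416991455), (nat_lit 37437154074), (nat_lit 38623973428), (nat_lit 36499257717), (nat_lit 37618488339), (nat_lit 39183858095), (nat_lit 39943645197)], (nat_lit 1271251), (nat_lit 1271251), (nat_lit 1271251), (nat_lit 1271251), (nat_lit 780000), (nat_lit 2990626), [(nat_lit 490000), (nat_lit 1427501), (nat_lit 1271251)], [(nat_lit 5), (nat_lit 55), (nat_lit 428), (nat_lit 200), (nat_lit 12)]⟩,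
 ⟨⟨[(nat_lit 140), (nat_lit 180), (nat_lit 200)], [(nat_lit 0), (nat_lit 0), (nat_lit 2835)], [((nat_lit 0), (nat_lit 0), (nat_lit 0)), ((nat_lit 0), (nat_lit 0), (nat_lit 0)), ((nat_lit 363), (nat_lit 1000), (nat_lit 798))], ((nat_lit 0), (nat_lit 0), (nat_lit 0))⟩, (nat_lit 89418), (nat_lit 300), (nat_lit 479), (nat_lit 25382500), (nat_lit 0), [(nat_lit 3198650000), (nat_lit 4568850000), (nat_lit 5330000000)], [], [(nat_lit 21973695355), (nat_lit 20791942375), (nat_lit 18085339819), (nat_lit 16659445143), (nat_lit 22038795013), (nat_lit 20415061865), (nat_lit 16774556548), (nat_lit 15284507259)], (nat_lit 0), (nat_lit 0), (nat_lit 0), (nat_lit 0), (nat_lit 0), (nat_lit 0), [], [(nat_lit 32), (nat_lit 67), (nat_lit 483), (nat_lit 250), (nat_lit 11)]⟩⟩)))) (.spl (nat_lit 5) (nat_lit 240) (.spl (nat_lit 0) (nat_lit 350) (.ord (.leaf ⟨(nat_lit 0), (nat_lit 758), (nat_lit 0), (nat_lit 242), (nat_lit 0), (nat_lit 5736), (nat_lit 8948), (nat_lit 3632),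 (nat_lit 6222834), (nat_lit 0), (nat_lit 0), [], Pd.none, Pd.none, (nat_lit 0), (nat_lit 1), (nat_lit 0), (nat_lit 0), (nat_lit 3), (nat_lit 0), [], [], [], [],
 ⟨⟨[(nat_lit 40), (nat_lit 80), (nat_lit 120)], [(nat_lit 0), (nat_lit 795), (nat_lit 2800)], [((nat_lit 0), (nat_lit 0), (nat_lit 0)), ((nat_lit 1000), (nat_lit 814), (nat_lit 310)), ((nat_lit 1000), (nat_lit 719), (nat_lit 783))], ((nat_lit 73), (nat_lit 100), (nat_lit 85))⟩, (nat_lit 784906), (nat_lit 300), (nat_lit 391), (nat_lit 50800002), (nat_lit 545300), [(nat_lit 2032000056), (nat_lit 4688000076), (nat_lit 7968000000)], [], [(nat_lit 36737409450), (nat_lit 37220205440), (nat_lit 42312674764), (nat_lit 42593909922), (nat_lit 37941245508), (nat_lit 38205051858), (nat_lit 45251993642), (nat_lit 44085186560)], (nat_lit 1271251), (nat_lit 1271251), (nat_lit 1100000), (nat_lit 3155001), (nat_lit 54688), (nat_lit 2630938), [(nat_lit 490000), (nat_lit 1100000), (nat_lit 1785001)], [(nat_lit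 4), (nat_lit 51), (nat_lit 428), (nat_lit 200), (nat_lit 14)]⟩,
 ⟨⟨[(nat_lit 40), (nat_lit 100), (nat_lit 140)], [(nat_lit 0), (nat_lit 0), (nat_lit 3243)], [((nat_lit 0), (nat_lit 0), (nat_lit 0)), ((nat_lit 0), (nat_lit 0), (nat_lit 0)), ((nat_lit 1000), (nat_lit 870), (nat_lit 941))], ((nat_lit 85), (nat_lit 100), (nat_lit 88))⟩, (nat_lit 2047697), (nat_lit 256), (nat_lit 256), (nat_lit 0), (nat_lit 315803), [(nat_lit 2032000000), (nat_lit 6250000000), (nat_lit 9842000000)], [], [(nat_lit 21172801632), (nat_lit 22822581720), (nat_lit 36497016176), (nat_lit 38987425925), (nat_lit 21653843088), (nat_lit 24121536020), (nat_lit 39251539648), (nat_lit 37655061154)], (nat_lit 1271251), (nat_lit 1271251), (nat_lit 1100000), (nat_lit 3155001), (nat_lit 780000), (nat_lit 1762501), [(nat_lit 490000), (nat_lit 1427501), (nat_lit 1271251)], [(nat_lit 5), (nat_lit 55), (nat_lit 401), (nat_lit 175), (nat_lit 11)]⟩,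
 ⟨⟨[(nat_lit 140), (nat_lit 180), (nat_lit 200)], [(nat_lit 0), (nat_lit 0), (nat_lit 2835)], [((nat_lit 0), (nat_lit 0), (nat_lit 0)), ((nat_lit 0), (nat_lit 0), (nat_lit 0)), ((nat_lit 363), (nat_lit 1000), (nat_lit 798))], ((nat_lit 0), (nat_lit 0), (nat_lit 0))⟩, (nat_lit 66582), (nat_lit 300), (nat_lit 479), (nat_lit 18900201), (nat_lit 0), [(nat_lit 2381764000), (nat_lit 3402036000), (nat_lit 3968800000)], [], [(nat_lit 16501176165), (nat_lit 15564386289), (nat_lit 13233902381), (nat_lit 11921068309), (nat_lit 15432080034), (nat_lit 14376191080), (nat_lit 11823628630), (nat_lit 10450123044)], (nat_lit 0), (nat_lit 0), (nat_lit 0), (nat_lit 0), (nat_lit 0), (nat_lit 0), [], [(nat_lit 32), (nat_lit 67), (nat_lit 456), (nat_lit 225), (nat_lit 10)]⟩⟩)) (.trZ (nat_lit 0) (nat_lit 1) (nat_lit 3) (nat_lit 80) (nat_lit 66) (nat_lit 100) (nat_lit 180) (.trX (nat_lit 4) (nat_lit 0) (nat_lit 2) (nat_lit 68) (nat_lit 61) (nat_lit 100) (nat_lit 360)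 (.leaf ⟨(nat_lit 0), (nat_lit 803), (nat_lit 0), (nat_lit 197), (nat_lit 0), (nat_lit 6462), (nat_lit 8546), (nat_lit 2777), (nat_lit 3875415056472), (nat_lit 0), (nat_lit 0), [], Pd.none, Pd.none, (nat_lit 0), (nat_lit 1), (nat_lit 0), (nat_lit 0), (nat_lit 3), (nat_lit 0), [⟨(nat_lit 0), (nat_lit 63), (nat_lit 63), (nat_lit 100), (nat_lit 7608917)⟩], [], [], [],
 ⟨⟨[(nat_lit 40), (nat_lit 80), (nat_lit 120)], [(nat_lit 0), (nat_lit 1195), (nat_lit 3135)], [((nat_lit 0), (nat_lit 0), (nat_lit 0)), ((nat_lit 1000), (nat_lit 720), (nat_lit 465)), ((nat_lit 1000), (nat_lit 661), (nat_lit 757))], ((nat_lit 67), (nat_lit 100), (nat_lit 84))⟩, (nat_lit 597129), (nat_lit 300), (nat_lit 421), (nat_lit 50800005), (nat_lit 645284), [(nat_lit 2032000001), (nat_lit 4747953802), (nat_lit 7968000000)], [], [(nat_lit 35886399868), (nat_lit 36349295048), (nat_lit 41284059448), (nat_lit 41592049380), (nat_lit 35651391105), (nat_lit 35938787991), (nat_lit 38464908989),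 (nat_lit 38873021600)], (nat_lit 1271251), (nat_lit 1271251), (nat_lit 1271251), (nat_lit 1271251), (nat_lit 54688), (nat_lit 2559376), [(nat_lit 490000), (nat_lit 1100000), (nat_lit 1785001)], [(nat_lit 4), (nat_lit 51), (nat_lit 428), (nat_lit 200), (nat_lit 14)]⟩,
 ⟨⟨[(nat_lit 40), (nat_lit 100), (nat_lit 140)], [(nat_lit 0), (nat_lit 0), (nat_lit 3243)], [((nat_lit 0), (nat_lit 0), (nat_lit 0)), ((nat_lit 0), (nat_lit 0), (nat_lit 0)), ((nat_lit 1000), (nat_lit 870), (nat_lit 941))], ((nat_lit 85), (nat_lit 100), (nat_lit 88))⟩, (nat_lit 1832057), (nat_lit 294), (nat_lit 294), (nat_lit 0), (nat_lit 373982), [(nat_lit 2032000000), (nat_lit 6250000000), (nat_lit 9842000000)], [], [(nat_lit 22132791835), (nat_lit 25167071061), (nat_lit 35894775152), (nat_lit 39121712166), (nat_lit 22891215249), (nat_lit 25716922814), (nat_lit 35198149336), (nat_lit 37809037732)], (nat_lit 1271251), (nat_lit 1271251), (nat_lit 1271251), (nat_lit 1271251), (nat_lit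 780000), (nat_lit 1762501), [(nat_lit 490000), (nat_lit 1427501), (nat_lit 1271251)], [(nat_lit 5), (nat_lit 55), (nat_lit 401), (nat_lit 175), (nat_lit 11)]⟩,
 ⟨⟨[(nat_lit 140), (nat_lit 180), (nat_lit 200)], [(nat_lit 0), (nat_lit 0), (nat_lit 2835)], [((nat_lit 0), (nat_lit 0), (nat_lit 0)), ((nat_lit 0), (nat_lit 0), (nat_lit 0)), ((nat_lit 363), (nat_lit 1000), (nat_lit 798))], ((nat_lit 0), (nat_lit 0), (nat_lit 0))⟩, (nat_lit 54201), (nat_lit 300), (nat_lit 479), (nat_lit 15385701), (nat_lit 0), [(nat_lit 1938874000), (nat_lit 2769426000), (nat_lit 3230800000)], [], [(nat_lit 13318527991), (nat_lit 12630332975), (nat_lit 10823245095), (nat_lit 9864581958), (nat_lit 12528830334), (nat_lit 11748247533), (nat_lit 9789329992), (nat_lit 8779852528)], (nat_lit 0), (nat_lit 0), (nat_lit 0), (nat_lit 0), (nat_lit 0), (nat_lit 0), [], [(nat_lit 32), (nat_lit 67), (nat_lit 456), (nat_lit 225), (nat_lit 10)]⟩⟩)))) (.spl (nat_lit 0) (nat_lit 350) (.ord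 (.leaf ⟨(nat_lit 0), (nat_lit 188), (nat_lit 0), (nat_lit 812), (nat_lit 0), (nat_lit 6228), (nat_lit 8482), (nat_lit 10783), (nat_lit 19732665308103), (nat_lit 0), (nat_lit 0), [], Pd.none, Pd.none, (nat_lit 0), (nat_lit 1), (nat_lit 0), (nat_lit 0), (nat_lit 6), (nat_lit 0), [⟨(nat_lit 0), (nat_lit 67), (nat_lit 67), (nat_lit 100), (nat_lit 274329553)⟩], [⟨(nat_lit 0), (nat_lit 100), (nat_lit 78), (nat_lit 39), (nat_lit 552107528)⟩], [], [],
 ⟨⟨[(nat_lit 40), (nat_lit 80), (nat_lit 120)], [(nat_lit 0), (nat_lit 795), (nat_lit 2800)], [((nat_lit 0), (nat_lit 0), (nat_lit 0)), ((nat_lit 1000), (nat_lit 814), (nat_lit 310)), ((nat_lit 1000), (nat_lit 719), (nat_lit 783))], ((nat_lit 73), (nat_lit 100), (nat_lit 85))⟩, (nat_lit 784906), (nat_lit 300), (nat_lit 391), (nat_lit 50800001), (nat_lit 545300), [(nat_lit 2032000004), (nat_lit 4688000011), (nat_lit 7968000000)], [], [(nat_lit 35616340555), (nat_lit 36118531143), (nat_lit 41394424069), (nat_lit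 41699208976), (nat_lit 36363431657), (nat_lit 36632226944), (nat_lit 45123606267), (nat_lit 43856717406)], (nat_lit 1271251), (nat_lit 1271251), (nat_lit 1100000), (nat_lit 3155001), (nat_lit 54688), (nat_lit 2630938), [(nat_lit 490000), (nat_lit 1100000), (nat_lit 1785001)], [(nat_lit 4), (nat_lit 51), (nat_lit 428), (nat_lit 200), (nat_lit 14)]⟩,
 ⟨⟨[(nat_lit 40), (nat_lit 100), (nat_lit 140)], [(nat_lit 0), (nat_lit 0), (nat_lit 3243)], [((nat_lit 0), (nat_lit 0), (nat_lit 0)), ((nat_lit 0), (nat_lit 0), (nat_lit 0)), ((nat_lit 1000), (nat_lit 870), (nat_lit 941))], ((nat_lit 85), (nat_lit 100), (nat_lit 88))⟩, (nat_lit 1789085), (nat_lit 226), (nat_lit 226), (nat_lit 0), (nat_lit 315803), [(nat_lit 2032000000), (nat_lit 6250000000), (nat_lit 9842000000)], [], [(nat_lit 22925597137), (nat_lit 24817830520), (nat_lit 35127037912), (nat_lit 37076913361), (nat_lit 33555954349), (nat_lit 35932841811), (nat_lit 41459783895), (nat_lit 42677168121)],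 (nat_lit 1271251), (nat_lit 1271251), (nat_lit 1100000), (nat_lit 3155001), (nat_lit 1271251), (nat_lit 1271251), [(nat_lit 490000), (nat_lit 1427501), (nat_lit 1271251)], [(nat_lit 5), (nat_lit 55), (nat_lit 428), (nat_lit 200), (nat_lit 11)]⟩,
 ⟨⟨[(nat_lit 140), (nat_lit 180), (nat_lit 200)], [(nat_lit 0), (nat_lit 0), (nat_lit 2835)], [((nat_lit 0), (nat_lit 0), (nat_lit 0)), ((nat_lit 0), (nat_lit 0), (nat_lit 0)), ((nat_lit 363), (nat_lit 1000), (nat_lit 798))], ((nat_lit 0), (nat_lit 0), (nat_lit 0))⟩, (nat_lit 223407), (nat_lit 300), (nat_lit 427), (nat_lit 63417206), (nat_lit 0), [(nat_lit 7991704000), (nat_lit 11415096000), (nat_lit 13316800000)], [], [(nat_lit 51524480704), (nat_lit 48591584864), (nat_lit 41395129286), (nat_lit 37494593681), (nat_lit 55098521668), (nat_lit 50969724764), (nat_lit 42315176896), (nat_lit 38432257717)], (nat_lit 0), (nat_lit 0), (nat_lit 0), (nat_lit 0), (nat_lit 0), (nat_lit 0), [], [(nat_lit 32), (nat_lit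 67), (nat_lit 483), (nat_lit 250), (nat_lit 10)]⟩⟩)) (.trZ (nat_lit 0) (nat_lit 1) (nat_lit 3) (nat_lit 80) (nat_lit 66) (nat_lit 100) (nat_lit 180) (.trX (nat_lit 4) (nat_lit 0) (nat_lit 2) (nat_lit 68) (nat_lit 61) (nat_lit 100) (nat_lit 360) (.leaf ⟨(nat_lit 0), (nat_lit 196), (nat_lit 0), (nat_lit 804), (nat_lit 0), (nat_lit 6302), (nat_lit 8244), (nat_lit 10707), (nat_lit 18614606217786), (nat_lit 0), (nat_lit 0), [], Pd.none, Pd.none, (nat_lit 0), (nat_lit 1), (nat_lit 0), (nat_lit 0), (nat_lit 6), (nat_lit 0), [⟨(nat_lit 0), (nat_lit 63), (nat_lit 63), (nat_lit 100), (nat_lit 265164189)⟩], [⟨(nat_lit 0), (nat_lit 100), (nat_lit 72), (nat_lit 46), (nat_lit 716121403)⟩], [], [],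
 ⟨⟨[(nat_lit 40), (nat_lit 80), (nat_lit 120)], [(nat_lit 0), (nat_lit 1195), (nat_lit 3135)], [((nat_lit 0), (nat_lit 0), (nat_lit 0)), ((nat_lit 1000), (nat_lit 720), (nat_lit 465)), ((nat_lit 1000), (nat_lit 661), (nat_lit 757))], ((nat_lit 67), (nat_lit 100), (nat_lit 84))⟩, (nat_lit 597129), (nat_lit 300), (nat_lit 421), (nat_lit 50800005), (nat_lit 645284), [(nat_lit 2032000003), (nat_lit 4750540547), (nat_lit 7968000000)], [], [(nat_lit 36308025760), (nat_lit 36765541145), (nat_lit 41567923358), (nat_lit 41873721820), (nat_lit 36112368965), (nat_lit 36397855111), (nat_lit 38491942009), (nat_lit 38652950860)], (nat_lit 1271251), (nat_lit 1271251), (nat_lit 1271251), (nat_lit 1271251), (nat_lit 54688), (nat_lit 2559376), [(nat_lit 490000), (nat_lit 1100000), (nat_lit 1785001)], [(nat_lit 4), (nat_lit 51), (nat_lit 428), (nat_lit 200), (nat_lit 14)]⟩,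
 ⟨⟨[(nat_lit 40), (nat_lit 100), (nat_lit 140)], [(nat_lit 0), (nat_lit 0), (nat_lit 3243)], [((nat_lit 0), (nat_lit 0), (nat_lit 0)), ((nat_lit 0), (nat_lit 0), (nat_lit 0)), ((nat_lit 1000), (nat_lit 870), (nat_lit 941))], ((nat_lit 85), (nat_lit 100), (nat_lit 88))⟩, (nat_lit 1712989), (nat_lit 244), (nat_lit 244), (nat_lit 0), (nat_lit 373982), [(nat_lit 2032000000), (nat_lit 6250000000), (nat_lit 9842000000)], [], [(nat_lit 23844101073), (nat_lit 26239732828), (nat_lit 34862592304), (nat_lit 37421317448), (nat_lit 33460657604), (nat_lit 36461876361), (nat_lit 41125799090), (nat_lit 42731193746)], (nat_lit 1271251), (nat_lit 1271251), (nat_lit 1271251), (nat_lit 1271251), (nat_lit 1271251), (nat_lit 1271251), [(nat_lit 490000), (nat_lit 1427501), (nat_lit 1271251)], [(nat_lit 5), (nat_lit 55), (nat_lit 428), (nat_lit 200), (nat_lit 11)]⟩,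
 ⟨⟨[(nat_lit 140), (nat_lit 180), (nat_lit 200)], [(nat_lit 0), (nat_lit 0), (nat_lit 2835)], [((nat_lit 0), (nat_lit 0), (nat_lit 0)), ((nat_lit 0), (nat_lit 0), (nat_lit 0)), ((nat_lit 363), (nat_lit 1000), (nat_lit 798))], ((nat_lit 0), (nat_lit 0), (nat_lit 0))⟩, (nat_lit 221206), (nat_lit 300), (nat_lit 427), (nat_lit 62792405), (nat_lit 0), [(nat_lit 7912968000), (nat_lit 11302632000), (nat_lit 13185600000)], [], [(nat_lit 51015610881), (nat_lit 48105221866), (nat_lit 40724562140), (nat_lit 36917206544), (nat_lit 54563641935), (nat_lit 50459352144), (nat_lit 41544835113), (nat_lit 37777441305)], (nat_lit 0), (nat_lit 0), (nat_lit 0), (nat_lit 0), (nat_lit 0), (nat_lit 0), [], [(nat_lit 32), (nat_lit 67), (nat_lit 483), (nat_lit 250), (nat_lit 10)]⟩⟩))))))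
noncomputable def c9_4 : Tr Lf :=
 (.spl (nat_lit 6) (nat_lit 44) (.spl (nat_lit 3) (nat_lit 280) (.leaf ⟨(nat_lit 0), (nat_lit 1000), (nat_lit 0), (nat_lit 0), (nat_lit 0), (nat_lit 7799), (nat_lit 7346), (nat_lit 0), (nat_lit 24369), (nat_lit 0), (nat_lit 0), [], Pd.none, Pd.none, (nat_lit 0), (nat_lit 1), (nat_lit 0), (nat_lit 0), (nat_lit 3), (nat_lit 0), [⟨(nat_lit 0), (nat_lit 72), (nat_lit 66), (nat_lit 100), (nat_lit 465168465)⟩], [⟨(nat_lit 0), (nat_lit 100), (nat_lit 61), (nat_lit 92), (nat_lit 16101461)⟩], [], [],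
 ⟨⟨[(nat_lit 40), (nat_lit 80), (nat_lit 100)], [(nat_lit 0), (nat_lit 795), (nat_lit 1829)], [((nat_lit 0), (nat_lit 0), (nat_lit 0)), ((nat_lit 1000), (nat_lit 814), (nat_lit 310)), ((nat_lit 1000), (nat_lit 714), (nat_lit 692))], ((nat_lit 72), (nat_lit 100), (nat_lit 63))⟩, (nat_lit 1039626), (nat_lit 300), (nat_lit 474), (nat_lit 50800001), (nat_lit 901376), [(nat_lit 2032000001), (nat_lit 4817311385), (nat_lit 6250000000)], [], [(nat_lit 27586379943), (nat_lit 28904071623), (nat_lit 32277198003), (nat_lit 34790340502), (nat_lit 24126697199), (nat_lit 25055538808), (nat_lit 26159710575), (nat_lit 28144763783)], (nat_lit 1271251), (nat_lit 1271251), (nat_lit 1100000), (nat_lit 2127501), (nat_lit 54688), (nat_lit 1414376), [(nat_lit 490000), (nat_lit 1100000), (nat_lit 1442501)], [(nat_lit 3), (nat_lit 50), (nat_lit 345), (nat_lit 125), (nat_lit 13)]⟩,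
 ⟨⟨[(nat_lit 40), (nat_lit 80), (nat_lit 120)], [(nat_lit 0), (nat_lit 0), (nat_lit 2151)], [((nat_lit 0), (nat_lit 0), (nat_lit 0)), ((nat_lit 0), (nat_lit 0), (nat_lit 0)), ((nat_lit 1000), (nat_lit 815), (nat_lit 753))], ((nat_lit 80), (nat_lit 100), (nat_lit 63))⟩, (nat_lit 5503410), (nat_lit 547), (nat_lit 547), (nat_lit 0), (nat_lit 910980), [(nat_lit 2032000000), (nat_lit 4688000000), (nat_lit 7968000000)], [], [(nat_lit 25634612728), (nat_lit 28913490084), (nat_lit 29809295748), (nat_lit 34663151316), (nat_lit 23323680188), (nat_lit 25301708730), (nat_lit 25367547722), (nat_lit 27806727255)], (nat_lit 1271251), (nat_lit 1271251), (nat_lit 1100000), (nat_lit 2127501), (nat_lit 0), (nat_lit 1412501), [(nat_lit 490000), (nat_lit 1100000), (nat_lit 1785001)], [(nat_lit 4), (nat_lit 51), (nat_lit 345), (nat_lit 125), (nat_lit 11)]⟩,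
 Rw.none⟩) (.leaf ⟨(nat_lit 0), (nat_lit 1000), (nat_lit 0), (nat_lit 0), (nat_lit 0), (nat_lit 6493), (nat_lit 6462), (nat_lit 0), (nat_lit 53262), (nat_lit 0), (nat_lit 0), [], Pd.none, Pd.none, (nat_lit 0), (nat_lit 1), (nat_lit 0), (nat_lit 0), (nat_lit 3), (nat_lit 0), [], [], [], [],
 ⟨⟨[(nat_lit 40), (nat_lit 80), (nat_lit 100)], [(nat_lit 0), (nat_lit 795), (nat_lit 1829)], [((nat_lit 0), (nat_lit 0), (nat_lit 0)), ((nat_lit 1000), (nat_lit 814), (nat_lit 310)), ((nat_lit 1000), (nat_lit 714), (nat_lit 692))], ((nat_lit 72), (nat_lit 100), (nat_lit 63))⟩, (nat_lit 2019860), (nat_lit 300), (nat_lit 474), (nat_lit 50800001), (nat_lit 901376), [(nat_lit 2032000003), (nat_lit 5326179332), (nat_lit 6250000000)], [], [(nat_lit 34012384184), (nat_lit 34742290400), (nat_lit 40194415908), (nat_lit 41681789761), (nat_lit 31073048300), (nat_lit 31646669238), (nat_lit 33715307025), (nat_lit 34922848013)], (nat_lit 1271251), (nat_lit 1271251), (nat_lit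 1271251), (nat_lit 1271251), (nat_lit 54688), (nat_lit 1414376), [(nat_lit 490000), (nat_lit 1100000), (nat_lit 1442501)], [(nat_lit 3), (nat_lit 50), (nat_lit 260), (nat_lit 50), (nat_lit 9)]⟩,
 ⟨⟨[(nat_lit 40), (nat_lit 80), (nat_lit 120)], [(nat_lit 0), (nat_lit 0), (nat_lit 2151)], [((nat_lit 0), (nat_lit 0), (nat_lit 0)), ((nat_lit 0), (nat_lit 0), (nat_lit 0)), ((nat_lit 1000), (nat_lit 815), (nat_lit 753))], ((nat_lit 80), (nat_lit 100), (nat_lit 63))⟩, (nat_lit 3118301), (nat_lit 531), (nat_lit 531), (nat_lit 0), (nat_lit 910980), [(nat_lit 2032000000), (nat_lit 4688000000), (nat_lit 7968000000)], [], [(nat_lit 31713571480), (nat_lit 33608404620), (nat_lit 39352850032), (nat_lit 42332486952), (nat_lit 29258865334), (nat_lit 30738986944), (nat_lit 32955942428), (nat_lit 34880048142)], (nat_lit 1271251), (nat_lit 1271251), (nat_lit 1271251), (nat_lit 1271251), (nat_lit 0), (nat_lit 1412501), [(nat_lit 490000), (nat_lit 1100000), (nat_lit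 1785001)], [(nat_lit 4), (nat_lit 51), (nat_lit 260), (nat_lit 50), (nat_lit 8)]⟩,
 Rw.none⟩)) (.spl (nat_lit 3) (nat_lit 280) (.leaf ⟨(nat_lit 0), (nat_lit 1000), (nat_lit 0), (nat_lit 0), (nat_lit 0), (nat_lit 8447), (nat_lit 8268), (nat_lit 0), (nat_lit 477431), (nat_lit 0), (nat_lit 0), [], Pd.none, Pd.none, (nat_lit 0), (nat_lit 1), (nat_lit 0), (nat_lit 0), (nat_lit 3), (nat_lit 0), [⟨(nat_lit 0), (nat_lit 63), (nat_lit 63), (nat_lit 100), (nat_lit 488018979)⟩], [], [], [],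
 ⟨⟨[(nat_lit 40), (nat_lit 80), (nat_lit 120)], [(nat_lit 0), (nat_lit 795), (nat_lit 2800)], [((nat_lit 0), (nat_lit 0), (nat_lit 0)), ((nat_lit 1000), (nat_lit 814), (nat_lit 310)), ((nat_lit 1000), (nat_lit 719), (nat_lit 783))], ((nat_lit 73), (nat_lit 100), (nat_lit 85))⟩, (nat_lit 784906), (nat_lit 300), (nat_lit 390), (nat_lit 50800001), (nat_lit 543795), [(nat_lit 2032000005), (nat_lit 4688000050), (nat_lit 7968000000)], [], [(nat_lit 31153009577), (nat_lit 32414920952), (nat_lit 33474675800), (nat_lit 36132558049), (nat_lit 26308423815), (nat_lit 27288978957), (nat_lit 29375167381), (nat_lit 28628312723)], (nat_lit 1271251), (nat_lit 1271251), (nat_lit 1100000), (nat_lit 2127501), (nat_lit 54688), (nat_lit 1414376), [(nat_lit 490000), (nat_lit 1100000), (nat_lit 1785001)], [(nat_lit 4), (nat_lit 51), (nat_lit 345), (nat_lit 125), (nat_lit 11)]⟩,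
 ⟨⟨[(nat_lit 40), (nat_lit 100), (nat_lit 140)], [(nat_lit 0), (nat_lit 0), (nat_lit 3243)], [((nat_lit 0), (nat_lit 0), (nat_lit 0)), ((nat_lit 0), (nat_lit 0), (nat_lit 0)), ((nat_lit 1000), (nat_lit 870), (nat_lit 941))], ((nat_lit 85), (nat_lit 100), (nat_lit 88))⟩, (nat_lit 1281640), (nat_lit 464), (nat_lit 464), (nat_lit 0), (nat_lit 553518), [(nat_lit 2032000000), (nat_lit 6250000000), (nat_lit 9842000000)], [], [(nat_lit 32138400560), (nat_lit 33104577696), (nat_lit 33262991336), (nat_lit 36692822448), (nat_lit 25595355224), (nat_lit 27681357684), (nat_lit 29221511164), (nat_lit 29344940040)], (nat_lit 1271251), (nat_lit 1271251), (nat_lit 1100000), (nat_lit 2127501), (nat_lit 0), (nat_lit 1412501), [(nat_lit 490000), (nat_lit 1427501), (nat_lit 1271251)], [(nat_lit 5), (nat_lit 55), (nat_lit 345), (nat_lit 125), (nat_lit 10)]⟩,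
 Rw.none⟩) (.leaf ⟨(nat_lit 0), (nat_lit 1000), (nat_lit 0), (nat_lit 0), (nat_lit 0), (nat_lit 7050), (nat_lit 7050), (nat_lit 0), (nat_lit 1022969437154), (nat_lit 0), (nat_lit 0), [], Pd.none, Pd.none, (nat_lit 0), (nat_lit 1), (nat_lit 0), (nat_lit 0), (nat_lit 3), (nat_lit 0), [], [], [], [],
 ⟨⟨[(nat_lit 40), (nat_lit 80), (nat_lit 120)], [(nat_lit 0), (nat_lit 795), (nat_lit 2800)], [((nat_lit 0), (nat_lit 0), (nat_lit 0)), ((nat_lit 1000), (nat_lit 814), (nat_lit 310)), ((nat_lit 1000), (nat_lit 719), (nat_lit 783))], ((nat_lit 73), (nat_lit 100), (nat_lit 85))⟩, (nat_lit 784906), (nat_lit 300), (nat_lit 391), (nat_lit 50800001), (nat_lit 543795), [(nat_lit 2032000001), (nat_lit 4688000001), (nat_lit 7968000000)], [], [(nat_lit 35793114895), (nat_lit 36689344704), (nat_lit 41750497269), (nat_lit 43309571713), (nat_lit 31631182473), (nat_lit 32336158635), (nat_lit 34835686710), (nat_lit 35691865050)], (nat_lit 1271251), (nat_lit 1271251),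 (nat_lit 1271251), (nat_lit 1271251), (nat_lit 54688), (nat_lit 1414376), [(nat_lit 490000), (nat_lit 1100000), (nat_lit 1785001)], [(nat_lit 4), (nat_lit 51), (nat_lit 260), (nat_lit 50), (nat_lit 8)]⟩,
 ⟨⟨[(nat_lit 40), (nat_lit 100), (nat_lit 140)], [(nat_lit 0), (nat_lit 0), (nat_lit 3243)], [((nat_lit 0), (nat_lit 0), (nat_lit 0)), ((nat_lit 0), (nat_lit 0), (nat_lit 0)), ((nat_lit 1000), (nat_lit 870), (nat_lit 941))], ((nat_lit 85), (nat_lit 100), (nat_lit 88))⟩, (nat_lit 1329064), (nat_lit 448), (nat_lit 448), (nat_lit 0), (nat_lit 553518), [(nat_lit 2032000000), (nat_lit 6250000000), (nat_lit 9842000000)], [], [(nat_lit 36747584748), (nat_lit 38263894248), (nat_lit 40997918800), (nat_lit 44129647800), (nat_lit 32581612398), (nat_lit 33757283323), (nat_lit 35769559100), (nat_lit 36761388950)], (nat_lit 1271251), (nat_lit 1271251), (nat_lit 1271251), (nat_lit 1271251), (nat_lit 0), (nat_lit 1412501), [(nat_lit 490000), (nat_lit 1427501),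 (nat_lit 1271251)], [(nat_lit 5), (nat_lit 55), (nat_lit 260), (nat_lit 50), (nat_lit 7)]⟩,
 Rw.none⟩)))
noncomputable def c9_5 : Tr Lf :=
 (.spl (nat_lit 2) (nat_lit 180) (.trX (nat_lit 5) (nat_lit 1) (nat_lit 2) (nat_lit 80) (nat_lit 68) (nat_lit 100) (nat_lit 350) (.spl (nat_lit 3) (nat_lit 280) (.stt (nat_lit 2) (.spl (nat_lit 6) (nat_lit 24) (.leaf ⟨(nat_lit 0), (nat_lit 1000), (nat_lit 0), (nat_lit 0), (nat_lit 0), (nat_lit 6960), (nat_lit 5701), (nat_lit 0), (nat_lit 12677), (nat_lit 0), (nat_lit 0), [], Pd.none, Pd.none, (nat_lit 0), (nat_lit 1), (nat_lit 0), (nat_lit 0), (nat_lit 5), (nat_lit 0), [⟨(nat_lit 0), (nat_lit 72), (nat_lit 66), (nat_lit 100), (nat_lit 392918393)⟩], [], [⟨(nat_lit 1), (nat_lit 88), (nat_lit 74), (nat_lit 100), (nat_lit 544213901)⟩, ⟨(nat_lit 1), (nat_lit 68), (nat_lit 80), (nat_lit 100), (nat_lit 43879430)⟩], [],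
 ⟨⟨[(nat_lit 40), (nat_lit 60), (nat_lit 80)], [(nat_lit 0), (nat_lit 398), (nat_lit 992)], [((nat_lit 0), (nat_lit 0), (nat_lit 0)), ((nat_lit 1000), (nat_lit 814), (nat_lit 310)), ((nat_lit 1000), (nat_lit 752), (nat_lit 464))], ((nat_lit 74), (nat_lit 100), (nat_lit 49))⟩, (nat_lit 5021766), (nat_lit 300), (nat_lit 413), (nat_lit 50800001), (nat_lit 896287), [(nat_lit 2032000001), (nat_lit 3860877676), (nat_lit 4688000000)], [], [(nat_lit 24850301881), (nat_lit 27407314920), (nat_lit 30726759930), (nat_lit 33052500190), (nat_lit 22885846147), (nat_lit 23823350291), (nat_lit 25674327470), (nat_lit 27518687300)], (nat_lit 1271251), (nat_lit 1271251), (nat_lit 1100000), (nat_lit 2127501), (nat_lit 54688), (nat_lit 1414376), [(nat_lit 490000), (nat_lit 780000), (nat_lit 1100000)], [(nat_lit 2), (nat_lit 44), (nat_lit 260), (nat_lit 50), (nat_lit 11)]⟩,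
 ⟨⟨[(nat_lit 40), (nat_lit 80), (nat_lit 100)], [(nat_lit 0), (nat_lit 0), (nat_lit 1280)], [((nat_lit 0), (nat_lit 0), (nat_lit 0)), ((nat_lit 0), (nat_lit 0), (nat_lit 0)), ((nat_lit 1000), (nat_lit 800), (nat_lit 600))], ((nat_lit 81), (nat_lit 100), (nat_lit 48))⟩, (nat_lit 262982), (nat_lit 72), (nat_lit 72), (nat_lit 0), (nat_lit 0), [(nat_lit 2032000000), (nat_lit 4688000000), (nat_lit 6250000000)], [], [(nat_lit 19734760176), (nat_lit 23268660407), (nat_lit 24312915488), (nat_lit 27087168920), (nat_lit 27528760519), (nat_lit 30003870044), (nat_lit 30200781662), (nat_lit 32437648233)], (nat_lit 0), (nat_lit 0), (nat_lit 0), (nat_lit 0), (nat_lit 0), (nat_lit 0), [], [(nat_lit 3), (nat_lit 50), (nat_lit 289), (nat_lit 75), (nat_lit 10)]⟩,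
 Rw.none⟩) (.leaf ⟨(nat_lit 0), (nat_lit 1000), (nat_lit 0), (nat_lit 0), (nat_lit 0), (nat_lit 7230), (nat_lit 5701), (nat_lit 0), (nat_lit 166353), (nat_lit 0), (nat_lit 0), [], Pd.none, Pd.none, (nat_lit 0), (nat_lit 1), (nat_lit 0), (nat_lit 0), (nat_lit 5), (nat_lit 0), [⟨(nat_lit 0), (nat_lit 72), (nat_lit 66), (nat_lit 100), (nat_lit 516679787)⟩], [], [⟨(nat_lit 1), (nat_lit 88), (nat_lit 74), (nat_lit 100), (nat_lit 102609792)⟩, ⟨(nat_lit 1), (nat_lit 68), (nat_lit 80), (nat_lit 100), (nat_lit 440936427)⟩], [],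
 ⟨⟨[(nat_lit 40), (nat_lit 80), (nat_lit 100)], [(nat_lit 0), (nat_lit 795), (nat_lit 1829)], [((nat_lit 0), (nat_lit 0), (nat_lit 0)), ((nat_lit 1000), (nat_lit 814), (nat_lit 310)), ((nat_lit 1000), (nat_lit 714), (nat_lit 692))], ((nat_lit 72), (nat_lit 100), (nat_lit 63))⟩, (nat_lit 784906), (nat_lit 300), (nat_lit 379), (nat_lit 50800001), (nat_lit 679047), [(nat_lit 2032000003), (nat_lit 4688000015), (nat_lit 6250000000)], [], [(nat_lit 27776129294), (nat_lit 29030983958), (nat_lit 31225709012), (nat_lit 33611757502), (nat_lit 24999543886), (nat_lit 25961611229), (nat_lit 26859081995), (nat_lit 27765654310)], (nat_lit 1271251), (nat_lit 1271251), (nat_lit 1100000), (nat_lit 2127501), (nat_lit 54688), (nat_lit 1414376), [(nat_lit 490000), (nat_lit 1100000), (nat_lit 1442501)], [(nat_lit 3), (nat_lit 50), (nat_lit 345), (nat_lit 125), (nat_lit 13)]⟩,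
 ⟨⟨[(nat_lit 40), (nat_lit 80), (nat_lit 120)], [(nat_lit 0), (nat_lit 0), (nat_lit 2151)], [((nat_lit 0), (nat_lit 0), (nat_lit 0)), ((nat_lit 0), (nat_lit 0), (nat_lit 0)), ((nat_lit 1000), (nat_lit 815), (nat_lit 753))], ((nat_lit 80), (nat_lit 100), (nat_lit 63))⟩, (nat_lit 0), (nat_lit 72), (nat_lit 72), (nat_lit 0), (nat_lit 0), [(nat_lit 2032000000), (nat_lit 4688000000), (nat_lit 7968000000)], [], [(nat_lit 19734760176), (nat_lit 23268660407), (nat_lit 24312915488), (nat_lit 27087168920), (nat_lit 27528760519), (nat_lit 30003870044), (nat_lit 30200781662), (nat_lit 32437648233)], (nat_lit 0), (nat_lit 0), (nat_lit 0), (nat_lit 0), (nat_lit 0), (nat_lit 0), [], [(nat_lit 4), (nat_lit 51), (nat_lit 401), (nat_lit 175), (nat_lit 12)]⟩,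
 Rw.none⟩)) (.spl (nat_lit 0) (nat_lit 350) (.ord (.leaf ⟨(nat_lit 0), (nat_lit 1000), (nat_lit 0), (nat_lit 0), (nat_lit 0), (nat_lit 4742), (nat_lit 6518), (nat_lit 0), (nat_lit 21480), (nat_lit 0), (nat_lit 0), [], Pd.none, Pd.none, (nat_lit 0), (nat_lit 1), (nat_lit 0), (nat_lit 0), (nat_lit 5), (nat_lit 0), [⟨(nat_lit 0), (nat_lit 81), (nat_lit 72), (nat_lit 100), (nat_lit 356691294)⟩], [], [⟨(nat_lit 1), (nat_lit 68), (nat_lit 80), (nat_lit 100), (nat_lit 449217814)⟩], [],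
 ⟨⟨[(nat_lit 40), (nat_lit 80), (nat_lit 100)], [(nat_lit 0), (nat_lit 795), (nat_lit 1829)], [((nat_lit 0), (nat_lit 0), (nat_lit 0)), ((nat_lit 1000), (nat_lit 814), (nat_lit 310)), ((nat_lit 1000), (nat_lit 714), (nat_lit 692))], ((nat_lit 72), (nat_lit 100), (nat_lit 63))⟩, (nat_lit 4551869), (nat_lit 258), (nat_lit 258), (nat_lit 0), (nat_lit 367511), [(nat_lit 2032000006), (nat_lit 4709382640), (nat_lit 6250000000)], [], [(nat_lit 21080264382), (nat_lit 22265359158), (nat_lit 26627985621), (nat_lit 27543145283), (nat_lit 20053666239), (nat_lit 20728608728), (nat_lit 25336591804), (nat_lit 25127367121)], (nat_lit 1271251), (nat_lit 1271251), (nat_lit 1100000), (nat_lit 2127501), (nat_lit 54688), (nat_lit 1414376), [(nat_lit 490000), (nat_lit 1100000), (nat_lit 1442501)], [(nat_lit 3), (nat_lit 50), (nat_lit 345), (nat_lit 125), (nat_lit 13)]⟩,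
 ⟨⟨[(nat_lit 40), (nat_lit 80), (nat_lit 120)], [(nat_lit 0), (nat_lit 0), (nat_lit 2151)], [((nat_lit 0), (nat_lit 0), (nat_lit 0)), ((nat_lit 0), (nat_lit 0), (nat_lit 0)), ((nat_lit 1000), (nat_lit 815), (nat_lit 753))], ((nat_lit 80), (nat_lit 100), (nat_lit 63))⟩, (nat_lit 1957426), (nat_lit 405), (nat_lit 405), (nat_lit 0), (nat_lit 835223), [(nat_lit 2032000000), (nat_lit 4688000000), (nat_lit 7968000000)], [], [(nat_lit 25179895466), (nat_lit 26631155311), (nat_lit 27334354658), (nat_lit 28666289175), (nat_lit 29458648088), (nat_lit 30660082303), (nat_lit 30870353512), (nat_lit 32698545767)], (nat_lit 1271251), (nat_lit 1271251), (nat_lit 1100000), (nat_lit 2127501), (nat_lit 1271251), (nat_lit 1271251), [(nat_lit 490000), (nat_lit 1100000), (nat_lit 1785001)], [(nat_lit 4), (nat_lit 51), (nat_lit 401), (nat_lit 175), (nat_lit 12)]⟩,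
 Rw.none⟩)) (.trZ (nat_lit 0) (nat_lit 1) (nat_lit 3) (nat_lit 80) (nat_lit 66) (nat_lit 100) (nat_lit 180) (.leaf ⟨(nat_lit 424), (nat_lit 576), (nat_lit 0), (nat_lit 0), (nat_lit 0), (nat_lit 4136), (nat_lit 3754), (nat_lit 0), (nat_lit 5029), (nat_lit 0), (nat_lit 130450), [((nat_lit 360), [((nat_lit 22), (nat_lit 0), (nat_lit 261)), ((nat_lit 22), (nat_lit 1), (nat_lit 163))])], ⟨(nat_lit 8), false, true, false, (nat_lit 280), (nat_lit 3162), (nat_lit 3536), [(nat_lit 1600279), (nat_lit 1602397), (nat_lit 1644168), (nat_lit 1646690), (nat_lit 1757209), (nat_lit 1754807), (nat_lit 1801098), (nat_lit 1799100)]⟩, ⟨(nat_lit 3), false, false, false, (nat_lit 119), (nat_lit 3162), (nat_lit 3536), [(nat_lit 1114056), (nat_lit 1121835), (nat_lit 1179889), (nat_lit 1188275), (nat_lit 1412188), (nat_lit 1411379), (nat_lit 1478046), (nat_lit 1477844)]⟩, (nat_lit 4612053), (nat_lit 40855084), (nat_lit 20782979), (nat_lit 5361937), (nat_lit 5), (nat_lit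 0), [⟨(nat_lit 0), (nat_lit 80), (nat_lit 66), (nat_lit 100), (nat_lit 202818474)⟩], [], [⟨(nat_lit 1), (nat_lit 68), (nat_lit 80), (nat_lit 100), (nat_lit 251479291)⟩], [],
 ⟨⟨[(nat_lit 40), (nat_lit 80), (nat_lit 100)], [(nat_lit 0), (nat_lit 1195), (nat_lit 2166)], [((nat_lit 0), (nat_lit 0), (nat_lit 0)), ((nat_lit 1000), (nat_lit 720), (nat_lit 465)), ((nat_lit 1000), (nat_lit 662), (nat_lit 740))], ((nat_lit 67), (nat_lit 100), (nat_lit 64))⟩, (nat_lit 2015821), (nat_lit 270), (nat_lit 270), (nat_lit 0), (nat_lit 396328), [(nat_lit 1672014942), (nat_lit 3456689209), (nat_lit 4448731200)], [(nat_lit 0), (nat_lit 0), (nat_lit 0)], [(nat_lit 21983093603), (nat_lit 23034104412), (nat_lit 26355602553), (nat_lit 27203082979), (nat_lit 21350366584), (nat_lit 21899986448), (nat_lit 24725969916), (nat_lit 25411369080)], (nat_lit 1271251), (nat_lit 1271251), (nat_lit 1271251), (nat_lit 1271251), (nat_lit 54688), (nat_lit 1414376), [(nat_lit 490000),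 (nat_lit 1100000), (nat_lit 1442501)], [(nat_lit 3), (nat_lit 50), (nat_lit 345), (nat_lit 125), (nat_lit 13)]⟩,
 ⟨⟨[(nat_lit 40), (nat_lit 80), (nat_lit 120)], [(nat_lit 0), (nat_lit 0), (nat_lit 2151)], [((nat_lit 0), (nat_lit 0), (nat_lit 0)), ((nat_lit 0), (nat_lit 0), (nat_lit 0)), ((nat_lit 1000), (nat_lit 815), (nat_lit 753))], ((nat_lit 80), (nat_lit 100), (nat_lit 63))⟩, (nat_lit 1029672), (nat_lit 430), (nat_lit 430), (nat_lit 0), (nat_lit 910433), [(nat_lit 1170432000), (nat_lit 2700288000), (nat_lit 4589568000)], [], [(nat_lit 14869101077), (nat_lit 15946478113), (nat_lit 15920352594), (nat_lit 16806517828), (nat_lit 17059410662), (nat_lit 17966775153), (nat_lit 17781631847), (nat_lit 19184983269)], (nat_lit 1271251), (nat_lit 1271251), (nat_lit 1271251), (nat_lit 1271251), (nat_lit 1271251), (nat_lit 1271251), [(nat_lit 490000), (nat_lit 1100000), (nat_lit 1785001)], [(nat_lit 4), (nat_lit 51), (nat_lit 401), (nat_lit 175), (nat_lit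 12)]⟩,
 Rw.none⟩)))) (.spl (nat_lit 6) (nat_lit 24) (.leaf ⟨(nat_lit 0), (nat_lit 1000), (nat_lit 0), (nat_lit 0), (nat_lit 0), (nat_lit 6496), (nat_lit 5821), (nat_lit 0), (nat_lit 4846), (nat_lit 0), (nat_lit 0), [], Pd.none, Pd.none, (nat_lit 0), (nat_lit 1), (nat_lit 0), (nat_lit 0), (nat_lit 5), (nat_lit 0), [], [], [⟨(nat_lit 1), (nat_lit 88), (nat_lit 74), (nat_lit 100), (nat_lit 146526543)⟩, ⟨(nat_lit 1), (nat_lit 68), (nat_lit 80), (nat_lit 100), (nat_lit 219734432)⟩], [⟨(nat_lit 1), (nat_lit 100), (nat_lit 77), (nat_lit 99), (nat_lit 42016395)⟩],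
 ⟨⟨[(nat_lit 40), (nat_lit 60), (nat_lit 80)], [(nat_lit 0), (nat_lit 398), (nat_lit 992)], [((nat_lit 0), (nat_lit 0), (nat_lit 0)), ((nat_lit 1000), (nat_lit 814), (nat_lit 310)), ((nat_lit 1000), (nat_lit 752), (nat_lit 464))], ((nat_lit 74), (nat_lit 100), (nat_lit 49))⟩, (nat_lit 2473596), (nat_lit 300), (nat_lit 429), (nat_lit 50800001), (nat_lit 896287), [(nat_lit 2032000001), (nat_lit 3637421468), (nat_lit 4688000000)], [], [(nat_lit 29869306693), (nat_lit 32091406144), (nat_lit 40202796956), (nat_lit 41690556988), (nat_lit 26826783728), (nat_lit 27527258275), (nat_lit 33709287128), (nat_lit 34926989936)], (nat_lit 1271251), (nat_lit 1271251), (nat_lit 1271251), (nat_lit 1271251), (nat_lit 54688), (nat_lit 1414376), [(nat_lit 490000), (nat_lit 780000), (nat_lit 1100000)], [(nat_lit 2), (nat_lit 44), (nat_lit 260), (nat_lit 50), (nat_lit 11)]⟩,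
 ⟨⟨[(nat_lit 40), (nat_lit 80), (nat_lit 100)], [(nat_lit 0), (nat_lit 0), (nat_lit 1280)], [((nat_lit 0), (nat_lit 0), (nat_lit 0)), ((nat_lit 0), (nat_lit 0), (nat_lit 0)), ((nat_lit 1000), (nat_lit 800), (nat_lit 600))], ((nat_lit 81), (nat_lit 100), (nat_lit 48))⟩, (nat_lit 3208098), (nat_lit 383), (nat_lit 383), (nat_lit 0), (nat_lit 904947), [(nat_lit 2032000000), (nat_lit 4688000000), (nat_lit 6250000000)], [], [(nat_lit 29820741151), (nat_lit 31508563147), (nat_lit 34093895166), (nat_lit 35338648389), (nat_lit 33311591492), (nat_lit 34536893240), (nat_lit 36334427271), (nat_lit 37578367850)], (nat_lit 1271251), (nat_lit 1271251), (nat_lit 1271251), (nat_lit 1271251), (nat_lit 1271251), (nat_lit 1271251), [(nat_lit 490000), (nat_lit 1100000), (nat_lit 1442501)], [(nat_lit 3), (nat_lit 50), (nat_lit 235), (nat_lit 0), (nat_lit 7)]⟩,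
 Rw.none⟩) (.leaf ⟨(nat_lit 0), (nat_lit 1000), (nat_lit 0), (nat_lit 0), (nat_lit 0), (nat_lit 6774), (nat_lit 6039), (nat_lit 0), (nat_lit 52508), (nat_lit 0), (nat_lit 0), [], Pd.none, Pd.none, (nat_lit 0), (nat_lit 1), (nat_lit 0), (nat_lit 0), (nat_lit 5), (nat_lit 0), [], [], [⟨(nat_lit 1), (nat_lit 88), (nat_lit 74), (nat_lit 100), (nat_lit 416925618)⟩], [⟨(nat_lit 1), (nat_lit 100), (nat_lit 77), (nat_lit 99), (nat_lit 53691075)⟩],
 ⟨⟨[(nat_lit 40), (nat_lit 80), (nat_lit 100)], [(nat_lit 0), (nat_lit 795), (nat_lit 1829)], [((nat_lit 0), (nat_lit 0), (nat_lit 0)), ((nat_lit 1000), (nat_lit 814), (nat_lit 310)), ((nat_lit 1000), (nat_lit 714), (nat_lit 692))], ((nat_lit 72), (nat_lit 100), (nat_lit 63))⟩, (nat_lit 784906), (nat_lit 300), (nat_lit 402), (nat_lit 50800001), (nat_lit 679047), [(nat_lit 2032000001), (nat_lit 4688000003), (nat_lit 6250000000)], [], [(nat_lit 32714474522), (nat_lit 33585092651), (nat_lit 40979440796), (nat_lit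 42502986760), (nat_lit 29451278434), (nat_lit 30135551298), (nat_lit 34066039107), (nat_lit 35310808134)], (nat_lit 1271251), (nat_lit 1271251), (nat_lit 1271251), (nat_lit 1271251), (nat_lit 54688), (nat_lit 1414376), [(nat_lit 490000), (nat_lit 1100000), (nat_lit 1442501)], [(nat_lit 3), (nat_lit 50), (nat_lit 260), (nat_lit 50), (nat_lit 9)]⟩,
 ⟨⟨[(nat_lit 40), (nat_lit 80), (nat_lit 120)], [(nat_lit 0), (nat_lit 0), (nat_lit 2151)], [((nat_lit 0), (nat_lit 0), (nat_lit 0)), ((nat_lit 0), (nat_lit 0), (nat_lit 0)), ((nat_lit 1000), (nat_lit 815), (nat_lit 753))], ((nat_lit 80), (nat_lit 100), (nat_lit 63))⟩, (nat_lit 1747066), (nat_lit 338), (nat_lit 338), (nat_lit 0), (nat_lit 687812), [(nat_lit 2032000000), (nat_lit 4688000000), (nat_lit 7968000000)], [], [(nat_lit 27791904352), (nat_lit 29562086749), (nat_lit 32254494584), (nat_lit 34296036999), (nat_lit 31333929227), (nat_lit 32798766329), (nat_lit 36237042209), (nat_lit 37879874821)],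 (nat_lit 1271251), (nat_lit 1271251), (nat_lit 1271251), (nat_lit 1271251), (nat_lit 1271251), (nat_lit 1271251), [(nat_lit 490000), (nat_lit 1100000), (nat_lit 1785001)], [(nat_lit 4), (nat_lit 51), (nat_lit 317), (nat_lit 100), (nat_lit 9)]⟩,
 Rw.none⟩)))) (.trZ (nat_lit 0) (nat_lit 2) (nat_lit 4) (nat_lit 100) (nat_lit 72) (nat_lit 63) (nat_lit 40) (.spl (nat_lit 3) (nat_lit 280) (.leaf ⟨(nat_lit 0), (nat_lit 846), (nat_lit 0), (nat_lit 154), (nat_lit 0), (nat_lit 7496), (nat_lit 6226), (nat_lit 1554), (nat_lit 53729), (nat_lit 0), (nat_lit 0), [], Pd.none, Pd.none, (nat_lit 0), (nat_lit 1), (nat_lit 0), (nat_lit 0), (nat_lit 5), (nat_lit 0), [⟨(nat_lit 0), (nat_lit 72), (nat_lit 66), (nat_lit 100), (nat_lit 408592593)⟩], [⟨(nat_lit 0), (nat_lit 100), (nat_lit 66), (nat_lit 78), (nat_lit 57267465)⟩], [⟨(nat_lit 1), (nat_lit 66), (nat_lit 72), (nat_lit 100), (nat_lit 361644069)⟩], [],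
 ⟨⟨[(nat_lit 40), (nat_lit 80), (nat_lit 100)], [(nat_lit 0), (nat_lit 795), (nat_lit 1829)], [((nat_lit 0), (nat_lit 0), (nat_lit 0)), ((nat_lit 1000), (nat_lit 814), (nat_lit 310)), ((nat_lit 1000), (nat_lit 714), (nat_lit 692))], ((nat_lit 72), (nat_lit 100), (nat_lit 63))⟩, (nat_lit 2200373), (nat_lit 300), (nat_lit 382), (nat_lit 50800001), (nat_lit 740679), [(nat_lit 2032000002), (nat_lit 5339548599), (nat_lit 6250000000)], [], [(nat_lit 25949856030), (nat_lit 27162131797), (nat_lit 29271175526), (nat_lit 31671038428), (nat_lit 24152478930), (nat_lit 25145338188), (nat_lit 26104093264), (nat_lit 27918659880)], (nat_lit 1271251), (nat_lit 1271251), (nat_lit 1100000), (nat_lit 2127501), (nat_lit 230000), (nat_lit 1420001), [(nat_lit 490000), (nat_lit 1100000), (nat_lit 1442501)], [(nat_lit 3), (nat_lit 50), (nat_lit 345), (nat_lit 125), (nat_lit 13)]⟩,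
 ⟨⟨[(nat_lit 40), (nat_lit 80), (nat_lit 120)], [(nat_lit 0), (nat_lit 0), (nat_lit 2151)], [((nat_lit 0), (nat_lit 0), (nat_lit 0)), ((nat_lit 0), (nat_lit 0), (nat_lit 0)), ((nat_lit 1000), (nat_lit 815), (nat_lit 753))], ((nat_lit 80), (nat_lit 100), (nat_lit 63))⟩, (nat_lit 3277340), (nat_lit 378), (nat_lit 378), (nat_lit 0), (nat_lit 749196), [(nat_lit 2032000000), (nat_lit 4688000000), (nat_lit 7968000000)], [], [(nat_lit 25744825956), (nat_lit 27924544964), (nat_lit 28375997206), (nat_lit 30115005329), (nat_lit 32139468856), (nat_lit 33543253983), (nat_lit 33245362155), (nat_lit 35303979731)], (nat_lit 1271251), (nat_lit 1271251), (nat_lit 1100000), (nat_lit 2127501), (nat_lit 1271251), (nat_lit 1271251), [(nat_lit 490000), (nat_lit 1100000), (nat_lit 1785001)], [(nat_lit 4), (nat_lit 51), (nat_lit 401), (nat_lit 175), (nat_lit 12)]⟩,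
 ⟨⟨[(nat_lit 120), (nat_lit 160), (nat_lit 180)], [(nat_lit 0), (nat_lit 533), (nat_lit 2066)], [((nat_lit 0), (nat_lit 0), (nat_lit 0)), ((nat_lit 960), (nat_lit 1000), (nat_lit 200)), ((nat_lit 615), (nat_lit 1000), (nat_lit 729))], ((nat_lit 100), (nat_lit 72), (nat_lit 63))⟩, (nat_lit 720233), (nat_lit 300), (nat_lit 2260), (nat_lit 10225600), (nat_lit 4050042), [(nat_lit 1227072000), (nat_lit 1828288000), (nat_lit 2164932000)], [], [(nat_lit 8641552099), (nat_lit 8372692204), (nat_lit 7798258721), (nat_lit 7532922432), (nat_lit 8284729606), (nat_lit 8038685232), (nat_lit 7172101349), (nat_lit 6924142768)], (nat_lit 1271251), (nat_lit 1271251), (nat_lit 230000), (nat_lit 1420001), (nat_lit 1271251), (nat_lit 1271251), [(nat_lit 1695001), (nat_lit 1271251), (nat_lit 1271251)], [(nat_lit 28), (nat_lit 65), (nat_lit 669), (nat_lit 225), (nat_lit 15)]⟩⟩) (.leaf ⟨(nat_lit 0), (nat_lit 857), (nat_lit 0), (nat_lit 143), (nat_lit 0), (nat_lit 7377),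 (nat_lit 6032), (nat_lit 1460), (nat_lit 5573574454151), (nat_lit 0), (nat_lit 0), [], Pd.none, Pd.none, (nat_lit 0), (nat_lit 1), (nat_lit 0), (nat_lit 0), (nat_lit 5), (nat_lit 0), [], [], [⟨(nat_lit 1), (nat_lit 66), (nat_lit 72), (nat_lit 100), (nat_lit 168108273)⟩], [⟨(nat_lit 1), (nat_lit 92), (nat_lit 75), (nat_lit 100), (nat_lit 181351708)⟩],
 ⟨⟨[(nat_lit 40), (nat_lit 80), (nat_lit 100)], [(nat_lit 0), (nat_lit 795), (nat_lit 1829)], [((nat_lit 0), (nat_lit 0), (nat_lit 0)), ((nat_lit 1000), (nat_lit 814), (nat_lit 310)), ((nat_lit 1000), (nat_lit 714), (nat_lit 692))], ((nat_lit 72), (nat_lit 100), (nat_lit 63))⟩, (nat_lit 2811732), (nat_lit 300), (nat_lit 403), (nat_lit 50800001), (nat_lit 740679), [(nat_lit 2032000001), (nat_lit 5518675655), (nat_lit 6250000000)], [], [(nat_lit 29676500585), (nat_lit 31470826224), (nat_lit 40093324630), (nat_lit 41673530273), (nat_lit 27120453185), (nat_lit 27830306476), (nat_lit 34839857249), (nat_lit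 36143334657)], (nat_lit 1271251), (nat_lit 1271251), (nat_lit 1271251), (nat_lit 1271251), (nat_lit 230000), (nat_lit 1420001), [(nat_lit 490000), (nat_lit 1100000), (nat_lit 1442501)], [(nat_lit 3), (nat_lit 50), (nat_lit 260), (nat_lit 50), (nat_lit 9)]⟩,
 ⟨⟨[(nat_lit 40), (nat_lit 80), (nat_lit 120)], [(nat_lit 0), (nat_lit 0), (nat_lit 2151)], [((nat_lit 0), (nat_lit 0), (nat_lit 0)), ((nat_lit 0), (nat_lit 0), (nat_lit 0)), ((nat_lit 1000), (nat_lit 815), (nat_lit 753))], ((nat_lit 80), (nat_lit 100), (nat_lit 63))⟩, (nat_lit 2169476), (nat_lit 370), (nat_lit 370), (nat_lit 0), (nat_lit 749196), [(nat_lit 2032000000), (nat_lit 4688000000), (nat_lit 7968000000)], [], [(nat_lit 29068047392), (nat_lit 30782536728), (nat_lit 33397056272), (nat_lit 34655643288), (nat_lit 33910400460), (nat_lit 35061223942), (nat_lit 38021705020), (nat_lit 39461810188)], (nat_lit 1271251), (nat_lit 1271251), (nat_lit 1271251), (nat_lit 1271251), (nat_lit 1271251),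 (nat_lit 1271251), [(nat_lit 490000), (nat_lit 1100000), (nat_lit 1785001)], [(nat_lit 4), (nat_lit 51), (nat_lit 317), (nat_lit 100), (nat_lit 9)]⟩,
 ⟨⟨[(nat_lit 120), (nat_lit 160), (nat_lit 180)], [(nat_lit 0), (nat_lit 533), (nat_lit 2066)], [((nat_lit 0), (nat_lit 0), (nat_lit 0)), ((nat_lit 960), (nat_lit 1000), (nat_lit 200)), ((nat_lit 615), (nat_lit 1000), (nat_lit 729))], ((nat_lit 100), (nat_lit 72), (nat_lit 63))⟩, (nat_lit 904244), (nat_lit 300), (nat_lit 2260), (nat_lit 9495200), (nat_lit 4050042), [(nat_lit 1139424000), (nat_lit 1697696000), (nat_lit 2010294000)], [], [(nat_lit 7902415351), (nat_lit 7672926401), (nat_lit 6968061875), (nat_lit 6704859792), (nat_lit 7629928063), (nat_lit 7414590009), (nat_lit 6581442270), (nat_lit 6347168852)], (nat_lit 1271251), (nat_lit 1271251), (nat_lit 230000), (nat_lit 1420001), (nat_lit 1271251), (nat_lit 1271251), [(nat_lit 1695001), (nat_lit 1271251), (nat_lit 1271251)], [(nat_lit 28), (nat_lit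 65), (nat_lit 669), (nat_lit 225), (nat_lit 15)]⟩⟩))))
noncomputable def c9_6 : Tr Lf :=
 (.spl (nat_lit 2) (nat_lit 180) (.trX (nat_lit 5) (nat_lit 1) (nat_lit 2) (nat_lit 80) (nat_lit 68) (nat_lit 100) (nat_lit 350) (.spl (nat_lit 3) (nat_lit 280) (.spl (nat_lit 1) (nat_lit 340) (.leaf ⟨(nat_lit 0), (nat_lit 1000), (nat_lit 0), (nat_lit 0), (nat_lit 0), (nat_lit 8595), (nat_lit 7278), (nat_lit 0), (nat_lit 0), (nat_lit 0), (nat_lit 0), [], Pd.none, Pd.none, (nat_lit 0), (nat_lit 1), (nat_lit 0), (nat_lit 0), (nat_lit 5), (nat_lit 0), [⟨(nat_lit 0), (nat_lit 72), (nat_lit 61), (nat_lit 100), (nat_lit 246429692)⟩], [], [⟨(nat_lit 1), (nat_lit 68), (nat_lit 80), (nat_lit 100), (nat_lit 478567437)⟩], [],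
 ⟨⟨[(nat_lit 40), (nat_lit 80), (nat_lit 120)], [(nat_lit 0), (nat_lit 795), (nat_lit 2800)], [((nat_lit 0), (nat_lit 0), (nat_lit 0)), ((nat_lit 1000), (nat_lit 814), (nat_lit 310)), ((nat_lit 1000), (nat_lit 719), (nat_lit 783))], ((nat_lit 73), (nat_lit 100), (nat_lit 85))⟩, (nat_lit 784906), (nat_lit 300), (nat_lit 322), (nat_lit 50800001), (nat_lit 433893), [(nat_lit 2032000001), (nat_lit 4688000001), (nat_lit 7968000000)], [], [(nat_lit 28148500163), (nat_lit 30324117315), (nat_lit 33748173815), (nat_lit 36439113909), (nat_lit 23573594970), (nat_lit 24791202863), (nat_lit 29141723450), (nat_lit 28738752913)], (nat_lit 1271251), (nat_lit 1271251), (nat_lit 1100000), (nat_lit 2127501), (nat_lit 54688), (nat_lit 1414376), [(nat_lit 490000), (nat_lit 1100000), (nat_lit 1785001)], [(nat_lit 4), (nat_lit 51), (nat_lit 345), (nat_lit 125), (nat_lit 11)]⟩,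
 ⟨⟨[(nat_lit 40), (nat_lit 100), (nat_lit 140)], [(nat_lit 0), (nat_lit 0), (nat_lit 3243)], [((nat_lit 0), (nat_lit 0), (nat_lit 0)), ((nat_lit 0), (nat_lit 0), (nat_lit 0)), ((nat_lit 1000), (nat_lit 870), (nat_lit 941))], ((nat_lit 85), (nat_lit 100), (nat_lit 88))⟩, (nat_lit 1583981), (nat_lit 306), (nat_lit 306), (nat_lit 0), (nat_lit 492524), [(nat_lit 2032000000), (nat_lit 6250000000), (nat_lit 9842000000)], [], [(nat_lit 25115551325), (nat_lit 26367546855), (nat_lit 27603309349), (nat_lit 28584331067), (nat_lit 30046682061), (nat_lit 31086190668), (nat_lit 31716930088), (nat_lit 32824331119)], (nat_lit 1271251), (nat_lit 1271251), (nat_lit 1100000), (nat_lit 2127501), (nat_lit 1271251), (nat_lit 1271251), [(nat_lit 490000), (nat_lit 1427501), (nat_lit 1271251)], [(nat_lit 5), (nat_lit 55), (nat_lit 401), (nat_lit 175), (nat_lit 11)]⟩,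
 Rw.none⟩) (.trZ (nat_lit 0) (nat_lit 1) (nat_lit 3) (nat_lit 71) (nat_lit 71) (nat_lit 100) (nat_lit 190) (.trX (nat_lit 5) (nat_lit 1) (nat_lit 2) (nat_lit 72) (nat_lit 77) (nat_lit 100) (nat_lit 330) (.leaf ⟨(nat_lit 0), (nat_lit 1000), (nat_lit 0), (nat_lit 0), (nat_lit 0), (nat_lit 7971), (nat_lit 5393), (nat_lit 0), (nat_lit 149368), (nat_lit 0), (nat_lit 0), [], Pd.none, Pd.none, (nat_lit 0), (nat_lit 1), (nat_lit 0), (nat_lit 0), (nat_lit 5), (nat_lit 0), [⟨(nat_lit 0), (nat_lit 67), (nat_lit 67), (nat_lit 100), (nat_lit 370301896)⟩, ⟨(nat_lit 0), (nat_lit 63), (nat_lit 63), (nat_lit 100), (nat_lit 199939132)⟩], [], [⟨(nat_lit 1), (nat_lit 77), (nat_lit 72), (nat_lit 100), (nat_lit 506065966)⟩], [],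
 ⟨⟨[(nat_lit 40), (nat_lit 80), (nat_lit 120)], [(nat_lit 0), (nat_lit 795), (nat_lit 2800)], [((nat_lit 0), (nat_lit 0), (nat_lit 0)), ((nat_lit 1000), (nat_lit 814), (nat_lit 310)), ((nat_lit 1000), (nat_lit 719), (nat_lit 783))], ((nat_lit 73), (nat_lit 100), (nat_lit 85))⟩, (nat_lit 784906), (nat_lit 300), (nat_lit 385), (nat_lit 50800001), (nat_lit 543531), [(nat_lit 2032000002), (nat_lit 4688000003), (nat_lit 7968000000)], [], [(nat_lit 32364297355), (nat_lit 33519165700), (nat_lit 33963766614), (nat_lit 35146608123), (nat_lit 27820739964), (nat_lit 28721300307), (nat_lit 28872439565), (nat_lit 29611919381)], (nat_lit 1271251), (nat_lit 1271251), (nat_lit 1271251), (nat_lit 1271251), (nat_lit 54688), (nat_lit 1414376), [(nat_lit 490000), (nat_lit 1100000), (nat_lit 1785001)], [(nat_lit 4), (nat_lit 51), (nat_lit 345), (nat_lit 125), (nat_lit 11)]⟩,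
 ⟨⟨[(nat_lit 40), (nat_lit 80), (nat_lit 120)], [(nat_lit 0), (nat_lit 795), (nat_lit 2800)], [((nat_lit 0), (nat_lit 0), (nat_lit 0)), ((nat_lit 1000), (nat_lit 814), (nat_lit 310)), ((nat_lit 1000), (nat_lit 719), (nat_lit 783))], ((nat_lit 73), (nat_lit 100), (nat_lit 85))⟩, (nat_lit 1824634), (nat_lit 277), (nat_lit 277), (nat_lit 0), (nat_lit 543531), [(nat_lit 2032000000), (nat_lit 4688000000), (nat_lit 7968000000)], [], [(nat_lit 24244055510), (nat_lit 25242646039), (nat_lit 26172328654), (nat_lit 27014995902), (nat_lit 27564528395), (nat_lit 28799264687), (nat_lit 29859577294), (nat_lit 31033519224)], (nat_lit 1271251), (nat_lit 1271251), (nat_lit 1271251), (nat_lit 1271251), (nat_lit 1271251), (nat_lit 1271251), [(nat_lit 490000), (nat_lit 1100000), (nat_lit 1785001)], [(nat_lit 4), (nat_lit 51), (nat_lit 401), (nat_lit 175), (nat_lit 12)]⟩,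
 Rw.none⟩)))) (.leaf ⟨(nat_lit 0), (nat_lit 1000), (nat_lit 0), (nat_lit 0), (nat_lit 0), (nat_lit 7326), (nat_lit 7326), (nat_lit 0), (nat_lit 446375), (nat_lit 0), (nat_lit 0), [], Pd.none, Pd.none, (nat_lit 0), (nat_lit 1), (nat_lit 0), (nat_lit 0), (nat_lit 5), (nat_lit 0), [], [], [⟨(nat_lit 1), (nat_lit 88), (nat_lit 74), (nat_lit 100), (nat_lit 357800040)⟩], [⟨(nat_lit 1), (nat_lit 100), (nat_lit 77), (nat_lit 99), (nat_lit 65720393)⟩],
 ⟨⟨[(nat_lit 40), (nat_lit 80), (nat_lit 120)], [(nat_lit 0), (nat_lit 795), (nat_lit 2800)], [((nat_lit 0), (nat_lit 0), (nat_lit 0)), ((nat_lit 1000), (nat_lit 814), (nat_lit 310)), ((nat_lit 1000), (nat_lit 719), (nat_lit 783))], ((nat_lit 73), (nat_lit 100), (nat_lit 85))⟩, (nat_lit 784906), (nat_lit 300), (nat_lit 391), (nat_lit 50800001), (nat_lit 543795), [(nat_lit 2032000035), (nat_lit 4688000120), (nat_lit 7968000000)], [], [(nat_lit 35244906290), (nat_lit 36157235852), (nat_lit 42521553743), (nat_lit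 44116156666), (nat_lit 30804458214), (nat_lit 31519774233), (nat_lit 34774409943), (nat_lit 36072921966)], (nat_lit 1271251), (nat_lit 1271251), (nat_lit 1271251), (nat_lit 1271251), (nat_lit 54688), (nat_lit 1414376), [(nat_lit 490000), (nat_lit 1100000), (nat_lit 1785001)], [(nat_lit 4), (nat_lit 51), (nat_lit 260), (nat_lit 50), (nat_lit 8)]⟩,
 ⟨⟨[(nat_lit 40), (nat_lit 100), (nat_lit 140)], [(nat_lit 0), (nat_lit 0), (nat_lit 3243)], [((nat_lit 0), (nat_lit 0), (nat_lit 0)), ((nat_lit 0), (nat_lit 0), (nat_lit 0)), ((nat_lit 1000), (nat_lit 870), (nat_lit 941))], ((nat_lit 85), (nat_lit 100), (nat_lit 88))⟩, (nat_lit 1145776), (nat_lit 324), (nat_lit 324), (nat_lit 0), (nat_lit 553518), [(nat_lit 2032000000), (nat_lit 6250000000), (nat_lit 9842000000)], [], [(nat_lit 30430714984), (nat_lit 31967451980), (nat_lit 34159272168), (nat_lit 36072921966), (nat_lit 32998498251), (nat_lit 34168651045), (nat_lit 37886141589), (nat_lit 39659872397)],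 (nat_lit 1271251), (nat_lit 1271251), (nat_lit 1271251), (nat_lit 1271251), (nat_lit 1271251), (nat_lit 1271251), [(nat_lit 490000), (nat_lit 1427501), (nat_lit 1271251)], [(nat_lit 5), (nat_lit 55), (nat_lit 317), (nat_lit 100), (nat_lit 8)]⟩,
 Rw.none⟩))) (.trZ (nat_lit 0) (nat_lit 2) (nat_lit 4) (nat_lit 100) (nat_lit 72) (nat_lit 63) (nat_lit 40) (.spl (nat_lit 0) (nat_lit 350) (.ord (.leaf ⟨(nat_lit 0), (nat_lit 800), (nat_lit 0), (nat_lit 200), (nat_lit 0), (nat_lit 6510), (nat_lit 7359), (nat_lit 2023), (nat_lit 882240), (nat_lit 0), (nat_lit 0), [], Pd.none, Pd.none, (nat_lit 0), (nat_lit 1), (nat_lit 0), (nat_lit 0), (nat_lit 5), (nat_lit 0), [], [⟨(nat_lit 0), (nat_lit 100), (nat_lit 69), (nat_lit 76), (nat_lit 79729123)⟩], [⟨(nat_lit 1), (nat_lit 64), (nat_lit 74), (nat_lit 100), (nat_lit 314065444)⟩], [⟨(nat_lit 1), (nat_lit 80), (nat_lit 100), (nat_lit 100), (nat_lit 2009470)⟩],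
 ⟨⟨[(nat_lit 40), (nat_lit 80), (nat_lit 120)], [(nat_lit 0), (nat_lit 795), (nat_lit 2800)], [((nat_lit 0), (nat_lit 0), (nat_lit 0)), ((nat_lit 1000), (nat_lit 814), (nat_lit 310)), ((nat_lit 1000), (nat_lit 719), (nat_lit 783))], ((nat_lit 73), (nat_lit 100), (nat_lit 85))⟩, (nat_lit 1075783), (nat_lit 278), (nat_lit 278), (nat_lit 0), (nat_lit 302434), [(nat_lit 2032000090), (nat_lit 4688000038), (nat_lit 7968000000)], [], [(nat_lit 25587111848), (nat_lit 25739412935), (nat_lit 38018131085), (nat_lit 38753216038), (nat_lit 24054087546), (nat_lit 24631880356), (nat_lit 35042847786), (nat_lit 34336785983)], (nat_lit 1271251), (nat_lit 1271251), (nat_lit 1100000), (nat_lit 3155001), (nat_lit 230000), (nat_lit 1420001), [(nat_lit 490000), (nat_lit 1100000), (nat_lit 1785001)], [(nat_lit 4), (nat_lit 51), (nat_lit 373), (nat_lit 150), (nat_lit 12)]⟩,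
 ⟨⟨[(nat_lit 40), (nat_lit 100), (nat_lit 140)], [(nat_lit 0), (nat_lit 0), (nat_lit 3243)], [((nat_lit 0), (nat_lit 0), (nat_lit 0)), ((nat_lit 0), (nat_lit 0), (nat_lit 0)), ((nat_lit 1000), (nat_lit 870), (nat_lit 941))], ((nat_lit 85), (nat_lit 100), (nat_lit 88))⟩, (nat_lit 1238745), (nat_lit 224), (nat_lit 224), (nat_lit 0), (nat_lit 308404), [(nat_lit 2032000000), (nat_lit 6250000000), (nat_lit 9842000000)], [], [(nat_lit 26087017739), (nat_lit 27976782562), (nat_lit 33634457489), (nat_lit 35467620660), (nat_lit 32950168600), (nat_lit 34413541830), (nat_lit 39883880803), (nat_lit 41038328740)], (nat_lit 1271251), (nat_lit 1271251), (nat_lit 1100000), (nat_lit 3155001), (nat_lit 1271251), (nat_lit 1271251), [(nat_lit 490000), (nat_lit 1427501), (nat_lit 1271251)], [(nat_lit 5), (nat_lit 55), (nat_lit 428), (nat_lit 200), (nat_lit 11)]⟩,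
 ⟨⟨[(nat_lit 120), (nat_lit 160), (nat_lit 200)], [(nat_lit 0), (nat_lit 533), (nat_lit 3597)], [((nat_lit 0), (nat_lit 0), (nat_lit 0)), ((nat_lit 960), (nat_lit 1000), (nat_lit 200)), ((nat_lit 612), (nat_lit 1000), (nat_lit 732))], ((nat_lit 0), (nat_lit 0), (nat_lit 0))⟩, (nat_lit 468293), (nat_lit 300), (nat_lit 1100), (nat_lit 13280000), (nat_lit 1537700), [(nat_lit 1593600000), (nat_lit 2374400000), (nat_lit 3280000000)], [], [(nat_lit 12465428856), (nat_lit 12093520791), (nat_lit 11003889694), (nat_lit 10635782041), (nat_lit 11891361932), (nat_lit 11550971521), (nat_lit 10347263631), (nat_lit 9972937791)], (nat_lit 1271251), (nat_lit 1271251), (nat_lit 230000), (nat_lit 1420001), (nat_lit 1271251), (nat_lit 1271251), [(nat_lit 1695001), (nat_lit 1271251), (nat_lit 1271251)], [(nat_lit 29), (nat_lit 66), (nat_lit 456), (nat_lit 225), (nat_lit 10)]⟩⟩)) (.trZ (nat_lit 0) (nat_lit 1) (nat_lit 3) (nat_lit 80) (nat_lit 66) (nat_lit 100) (nat_lit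 180) (.trZ (nat_lit 0) (nat_lit 2) (nat_lit 4) (nat_lit 100) (nat_lit 66) (nat_lit 68) (nat_lit 50) (.leaf ⟨(nat_lit 0), (nat_lit 820), (nat_lit 0), (nat_lit 180), (nat_lit 0), (nat_lit 4958), (nat_lit 7078), (nat_lit 1826), (nat_lit 5555), (nat_lit 0), (nat_lit 0), [], Pd.none, Pd.none, (nat_lit 0), (nat_lit 1), (nat_lit 0), (nat_lit 0), (nat_lit 5), (nat_lit 0), [], [], [⟨(nat_lit 1), (nat_lit 66), (nat_lit 72), (nat_lit 100), (nat_lit 319756985)⟩], [⟨(nat_lit 1), (nat_lit 81), (nat_lit 96), (nat_lit 100), (nat_lit 20644723)⟩],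
 ⟨⟨[(nat_lit 40), (nat_lit 80), (nat_lit 120)], [(nat_lit 0), (nat_lit 1195), (nat_lit 3135)], [((nat_lit 0), (nat_lit 0), (nat_lit 0)), ((nat_lit 1000), (nat_lit 720), (nat_lit 465)), ((nat_lit 1000), (nat_lit 661), (nat_lit 757))], ((nat_lit 67), (nat_lit 100), (nat_lit 84))⟩, (nat_lit 2267621), (nat_lit 296), (nat_lit 296), (nat_lit 0), (nat_lit 381343), [(nat_lit 2032000001), (nat_lit 4688000002), (nat_lit 7968000000)], [], [(nat_lit 21719835176), (nat_lit 22548091492), (nat_lit 34402953448), (nat_lit 35036788336), (nat_lit 21758768325), (nat_lit 22366510695), (nat_lit 32269582899), (nat_lit 32803564078)], (nat_lit 1271251), (nat_lit 1271251), (nat_lit 1271251), (nat_lit 1271251), (nat_lit 292188), (nat_lit 1421875), [(nat_lit 490000), (nat_lit 1100000), (nat_lit 1785001)], [(nat_lit 4), (nat_lit 51), (nat_lit 373), (nat_lit 150), (nat_lit 12)]⟩,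
 ⟨⟨[(nat_lit 40), (nat_lit 100), (nat_lit 140)], [(nat_lit 0), (nat_lit 0), (nat_lit 3243)], [((nat_lit 0), (nat_lit 0), (nat_lit 0)), ((nat_lit 0), (nat_lit 0), (nat_lit 0)), ((nat_lit 1000), (nat_lit 870), (nat_lit 941))], ((nat_lit 85), (nat_lit 100), (nat_lit 88))⟩, (nat_lit 1234022), (nat_lit 264), (nat_lit 264), (nat_lit 0), (nat_lit 391815), [(nat_lit 2032000000), (nat_lit 6250000000), (nat_lit 9842000000)], [], [(nat_lit 26922945293), (nat_lit 29302310063), (nat_lit 33872859426), (nat_lit 35730522998), (nat_lit 33412754879), (nat_lit 34952205939), (nat_lit 39489554205), (nat_lit 41007820677)], (nat_lit 1271251), (nat_lit 1271251), (nat_lit 1271251), (nat_lit 1271251), (nat_lit 1271251), (nat_lit 1271251), [(nat_lit 490000), (nat_lit 1427501), (nat_lit 1271251)], [(nat_lit 5), (nat_lit 55), (nat_lit 428), (nat_lit 200), (nat_lit 11)]⟩,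
 ⟨⟨[(nat_lit 120), (nat_lit 160), (nat_lit 200)], [(nat_lit 0), (nat_lit 533), (nat_lit 3597)], [((nat_lit 0), (nat_lit 0), (nat_lit 0)), ((nat_lit 960), (nat_lit 1000), (nat_lit 200)), ((nat_lit 612), (nat_lit 1000), (nat_lit 732))], ((nat_lit 0), (nat_lit 0), (nat_lit 0))⟩, (nat_lit 421463), (nat_lit 300), (nat_lit 1324), (nat_lit 11952002), (nat_lit 2052281), [(nat_lit 1434240000), (nat_lit 2136960000), (nat_lit 2952000000)], [], [(nat_lit 11072677093), (nat_lit 10737747865), (nat_lit 9871408458), (nat_lit 9538788102), (nat_lit 10552770890), (nat_lit 10242542720), (nat_lit 9286814835), (nat_lit 8948750626)], (nat_lit 1271251), (nat_lit 1271251), (nat_lit 292188), (nat_lit 1421875), (nat_lit 1271251), (nat_lit 1271251), [(nat_lit 1695001), (nat_lit 1271251), (nat_lit 1271251)], [(nat_lit 29), (nat_lit 66), (nat_lit 456), (nat_lit 225), (nat_lit 10)]⟩⟩))))))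
noncomputable def c9_7 : Tr Lf :=
 (.spl (nat_lit 2) (nat_lit 180) (.trX (nat_lit 4) (nat_lit 0) (nat_lit 2) (nat_lit 72) (nat_lit 77) (nat_lit 100) (nat_lit 330) (.spl (nat_lit 0) (nat_lit 350) (.ord (.leaf ⟨(nat_lit 0), (nat_lit 1000), (nat_lit 0), (nat_lit 0), (nat_lit 0), (nat_lit 5859), (nat_lit 7177), (nat_lit 0), (nat_lit 18718689062040), (nat_lit 0), (nat_lit 0), [], Pd.none, Pd.none, (nat_lit 0), (nat_lit 1), (nat_lit 0), (nat_lit 0), (nat_lit 5), (nat_lit 0), [], [⟨(nat_lit 1), (nat_lit 77), (nat_lit 72), (nat_lit 100), (nat_lit 390685221)⟩], [], [],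
 ⟨⟨[(nat_lit 40), (nat_lit 80), (nat_lit 100)], [(nat_lit 0), (nat_lit 795), (nat_lit 1829)], [((nat_lit 0), (nat_lit 0), (nat_lit 0)), ((nat_lit 1000), (nat_lit 814), (nat_lit 310)), ((nat_lit 1000), (nat_lit 714), (nat_lit 692))], ((nat_lit 72), (nat_lit 100), (nat_lit 63))⟩, (nat_lit 1554040), (nat_lit 300), (nat_lit 357), (nat_lit 50800001), (nat_lit 828445), [(nat_lit 2032000001), (nat_lit 5081788811), (nat_lit 6250000000)], [], [(nat_lit 29593139971), (nat_lit 30050983369), (nat_lit 34982531780), (nat_lit 35251736077), (nat_lit 32517835455), (nat_lit 32867274881), (nat_lit 36209155379), (nat_lit 36412530232)], (nat_lit 1271251), (nat_lit 1271251), (nat_lit 1100000), (nat_lit 3155001), (nat_lit 1271251), (nat_lit 1271251), [(nat_lit 490000), (nat_lit 1100000), (nat_lit 1442501)], [(nat_lit 3), (nat_lit 50), (nat_lit 317), (nat_lit 100), (nat_lit 11)]⟩,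
 ⟨⟨[(nat_lit 40), (nat_lit 80), (nat_lit 120)], [(nat_lit 0), (nat_lit 0), (nat_lit 2151)], [((nat_lit 0), (nat_lit 0), (nat_lit 0)), ((nat_lit 0), (nat_lit 0), (nat_lit 0)), ((nat_lit 1000), (nat_lit 815), (nat_lit 753))], ((nat_lit 80), (nat_lit 100), (nat_lit 63))⟩, (nat_lit 3260800), (nat_lit 195), (nat_lit 195), (nat_lit 0), (nat_lit 0), [(nat_lit 2032000000), (nat_lit 4688000000), (nat_lit 7968000000)], [], [(nat_lit 22283666424), (nat_lit 27013187000), (nat_lit 41353231272), (nat_lit 43726665387), (nat_lit 19286635690), (nat_lit 21841531063), (nat_lit 33299195840), (nat_lit 35225203803)], (nat_lit 0), (nat_lit 0), (nat_lit 0), (nat_lit 0), (nat_lit 0), (nat_lit 0), [], [(nat_lit 4), (nat_lit 51), (nat_lit 373), (nat_lit 150), (nat_lit 12)]⟩,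
 Rw.none⟩)) (.trZ (nat_lit 0) (nat_lit 1) (nat_lit 3) (nat_lit 80) (nat_lit 66) (nat_lit 100) (nat_lit 180) (.trX (nat_lit 4) (nat_lit 0) (nat_lit 2) (nat_lit 66) (nat_lit 82) (nat_lit 100) (nat_lit 320) (.leaf ⟨(nat_lit 0), (nat_lit 1000), (nat_lit 0), (nat_lit 0), (nat_lit 0), (nat_lit 5860), (nat_lit 6881), (nat_lit 0), (nat_lit 20798810257637), (nat_lit 0), (nat_lit 0), [], Pd.none, Pd.none, (nat_lit 0), (nat_lit 1), (nat_lit 0), (nat_lit 0), (nat_lit 5), (nat_lit 0), [], [⟨(nat_lit 1), (nat_lit 82), (nat_lit 66), (nat_lit 100), (nat_lit 407830841)⟩], [], [],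
 ⟨⟨[(nat_lit 40), (nat_lit 80), (nat_lit 100)], [(nat_lit 0), (nat_lit 1195), (nat_lit 2166)], [((nat_lit 0), (nat_lit 0), (nat_lit 0)), ((nat_lit 1000), (nat_lit 720), (nat_lit 465)), ((nat_lit 1000), (nat_lit 662), (nat_lit 740))], ((nat_lit 67), (nat_lit 100), (nat_lit 64))⟩, (nat_lit 1960306), (nat_lit 300), (nat_lit 380), (nat_lit 50800001), (nat_lit 898659), [(nat_lit 2032000001), (nat_lit 5323310177), (nat_lit 6250000000)], [], [(nat_lit 30663345913), (nat_lit 31083678540), (nat_lit 35358979935), (nat_lit 35615042120), (nat_lit 32894217760), (nat_lit 33223497240), (nat_lit 36255562100), (nat_lit 36453178780)], (nat_lit 1271251), (nat_lit 1271251), (nat_lit 1271251), (nat_lit 1271251), (nat_lit 1271251), (nat_lit 1271251), [(nat_lit 490000), (nat_lit 1100000), (nat_lit 1442501)], [(nat_lit 3), (nat_lit 50), (nat_lit 317), (nat_lit 100), (nat_lit 11)]⟩,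
 ⟨⟨[(nat_lit 40), (nat_lit 80), (nat_lit 120)], [(nat_lit 0), (nat_lit 0), (nat_lit 2151)], [((nat_lit 0), (nat_lit 0), (nat_lit 0)), ((nat_lit 0), (nat_lit 0), (nat_lit 0)), ((nat_lit 1000), (nat_lit 815), (nat_lit 753))], ((nat_lit 80), (nat_lit 100), (nat_lit 63))⟩, (nat_lit 2664226), (nat_lit 197), (nat_lit 197), (nat_lit 0), (nat_lit 0), [(nat_lit 2032000000), (nat_lit 4688000000), (nat_lit 7968000000)], [], [(nat_lit 22898897319), (nat_lit 28736529155), (nat_lit 40525101416), (nat_lit 43613116876), (nat_lit 20405890366), (nat_lit 23606459222), (nat_lit 32948163520), (nat_lit 35458536721)], (nat_lit 0), (nat_lit 0), (nat_lit 0), (nat_lit 0), (nat_lit 0), (nat_lit 0), [], [(nat_lit 4), (nat_lit 51), (nat_lit 373), (nat_lit 150), (nat_lit 12)]⟩,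
 Rw.none⟩))))) (.trZ (nat_lit 1) (nat_lit 2) (nat_lit 5) (nat_lit 100) (nat_lit 80) (nat_lit 52) (nat_lit 20) (.leaf ⟨(nat_lit 0), (nat_lit 870), (nat_lit 0), (nat_lit 130), (nat_lit 0), (nat_lit 6096), (nat_lit 5547), (nat_lit 1326), (nat_lit 18689956514056), (nat_lit 0), (nat_lit 0), [], Pd.none, Pd.none, (nat_lit 0), (nat_lit 1), (nat_lit 0), (nat_lit 0), (nat_lit 5), (nat_lit 0), [⟨(nat_lit 0), (nat_lit 63), (nat_lit 63), (nat_lit 100), (nat_lit 134710598)⟩], [⟨(nat_lit 1), (nat_lit 72), (nat_lit 66), (nat_lit 100), (nat_lit 401517194)⟩], [], [],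
 ⟨⟨[(nat_lit 40), (nat_lit 80), (nat_lit 100)], [(nat_lit 0), (nat_lit 795), (nat_lit 1829)], [((nat_lit 0), (nat_lit 0), (nat_lit 0)), ((nat_lit 1000), (nat_lit 814), (nat_lit 310)), ((nat_lit 1000), (nat_lit 714), (nat_lit 692))], ((nat_lit 72), (nat_lit 100), (nat_lit 63))⟩, (nat_lit 1250381), (nat_lit 300), (nat_lit 333), (nat_lit 50800001), (nat_lit 740679), [(nat_lit 2032000003), (nat_lit 4924076161), (nat_lit 6250000000)], [], [(nat_lit 28401035217), (nat_lit 29384554976), (nat_lit 34133296268), (nat_lit 34705017933), (nat_lit 32970215483), (nat_lit 33640345569), (nat_lit 37984177020), (nat_lit 38757556388)], (nat_lit 1271251), (nat_lit 1271251), (nat_lit 1100000), (nat_lit 3155001), (nat_lit 1271251), (nat_lit 1271251), [(nat_lit 490000), (nat_lit 1100000), (nat_lit 1442501)], [(nat_lit 3), (nat_lit 50), (nat_lit 317), (nat_lit 100), (nat_lit 11)]⟩,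
 ⟨⟨[(nat_lit 40), (nat_lit 80), (nat_lit 120)], [(nat_lit 0), (nat_lit 0), (nat_lit 2151)], [((nat_lit 0), (nat_lit 0), (nat_lit 0)), ((nat_lit 0), (nat_lit 0), (nat_lit 0)), ((nat_lit 1000), (nat_lit 815), (nat_lit 753))], ((nat_lit 80), (nat_lit 100), (nat_lit 63))⟩, (nat_lit 2917838), (nat_lit 185), (nat_lit 185), (nat_lit 0), (nat_lit 0), [(nat_lit 2032000000), (nat_lit 4688000000), (nat_lit 7968000000)], [], [(nat_lit 22516867866), (nat_lit 26196316823), (nat_lit 35579064819), (nat_lit 38298496608), (nat_lit 22404874590), (nat_lit 25321534594), (nat_lit 32129487938), (nat_lit 33810680239)], (nat_lit 0), (nat_lit 0), (nat_lit 0), (nat_lit 0), (nat_lit 0), (nat_lit 0), [], [(nat_lit 4), (nat_lit 51), (nat_lit 373), (nat_lit 150), (nat_lit 12)]⟩,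
 ⟨⟨[(nat_lit 120), (nat_lit 160), (nat_lit 180)], [(nat_lit 0), (nat_lit 533), (nat_lit 2066)], [((nat_lit 0), (nat_lit 0), (nat_lit 0)), ((nat_lit 960), (nat_lit 1000), (nat_lit 200)), ((nat_lit 615), (nat_lit 1000), (nat_lit 729))], ((nat_lit 100), (nat_lit 72), (nat_lit 63))⟩, (nat_lit 418682), (nat_lit 300), (nat_lit 2272), (nat_lit 8632000), (nat_lit 4050042), [(nat_lit 1035840000), (nat_lit 1543360000), (nat_lit 1827540000)], [], [(nat_lit 7353689382), (nat_lit 7149861498), (nat_lit 7110715676), (nat_lit 6903642061), (nat_lit 6346746198), (nat_lit 6120103627), (nat_lit 5984144862), (nat_lit 5776308870)], (nat_lit 1271251), (nat_lit 1271251), (nat_lit 1271251), (nat_lit 1271251), (nat_lit 111251), (nat_lit 1416250), [(nat_lit 1695001), (nat_lit 1271251), (nat_lit 1271251)], [(nat_lit 28), (nat_lit 65), (nat_lit 670), (nat_lit 225), (nat_lit 15)]⟩⟩)))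
noncomputable def c9_8 : Tr Lf :=
 (.spl (nat_lit 2) (nat_lit 180) (.trX (nat_lit 4) (nat_lit 0) (nat_lit 2) (nat_lit 72) (nat_lit 77) (nat_lit 100) (nat_lit 330) (.spl (nat_lit 3) (nat_lit 280) (.spl (nat_lit 6) (nat_lit 24) (.leaf ⟨(nat_lit 0), (nat_lit 1000), (nat_lit 0), (nat_lit 0), (nat_lit 0), (nat_lit 5960), (nat_lit 3707), (nat_lit 0), (nat_lit 13756854300834), (nat_lit 0), (nat_lit 0), [], Pd.none, Pd.none, (nat_lit 0), (nat_lit 1), (nat_lit 0), (nat_lit 0), (nat_lit 5), (nat_lit 0), [⟨(nat_lit 0), (nat_lit 72), (nat_lit 66), (nat_lit 100), (nat_lit 503085162)⟩], [⟨(nat_lit 1), (nat_lit 77), (nat_lit 72), (nat_lit 100), (nat_lit 444519752)⟩], [], [],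
 ⟨⟨[(nat_lit 40), (nat_lit 60), (nat_lit 80)], [(nat_lit 0), (nat_lit 398), (nat_lit 992)], [((nat_lit 0), (nat_lit 0), (nat_lit 0)), ((nat_lit 1000), (nat_lit 814), (nat_lit 310)), ((nat_lit 1000), (nat_lit 752), (nat_lit 464))], ((nat_lit 74), (nat_lit 100), (nat_lit 49))⟩, (nat_lit 4338368), (nat_lit 300), (nat_lit 342), (nat_lit 50800001), (nat_lit 896287), [(nat_lit 2032000004), (nat_lit 3629504189), (nat_lit 4688000000)], [], [(nat_lit 25538076670), (nat_lit 26559453680), (nat_lit 27839094397), (nat_lit 28657393159), (nat_lit 28937141832), (nat_lit 29717131037), (nat_lit 30350637040), (nat_lit 31584750670)], (nat_lit 1271251), (nat_lit 1271251), (nat_lit 1100000), (nat_lit 2127501), (nat_lit 1271251), (nat_lit 1271251), [(nat_lit 490000), (nat_lit 780000), (nat_lit 1100000)], [(nat_lit 2), (nat_lit 44), (nat_lit 207), (nat_lit 0), (nat_lit 7)]⟩,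
 ⟨⟨[(nat_lit 40), (nat_lit 80), (nat_lit 100)], [(nat_lit 0), (nat_lit 0), (nat_lit 1280)], [((nat_lit 0), (nat_lit 0), (nat_lit 0)), ((nat_lit 0), (nat_lit 0), (nat_lit 0)), ((nat_lit 1000), (nat_lit 800), (nat_lit 600))], ((nat_lit 81), (nat_lit 100), (nat_lit 48))⟩, (nat_lit 206640), (nat_lit 53), (nat_lit 53), (nat_lit 0), (nat_lit 0), [(nat_lit 2032000000), (nat_lit 4688000000), (nat_lit 6250000000)], [], [(nat_lit 18091218092), (nat_lit 21176743609), (nat_lit 22621946233), (nat_lit 25091241773), (nat_lit 21543628308), (nat_lit 24173382333), (nat_lit 25289749232), (nat_lit 27471962744)], (nat_lit 0), (nat_lit 0), (nat_lit 0), (nat_lit 0), (nat_lit 0), (nat_lit 0), [], [(nat_lit 3), (nat_lit 50), (nat_lit 289), (nat_lit 75), (nat_lit 10)]⟩,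
 Rw.none⟩) (.leaf ⟨(nat_lit 0), (nat_lit 1000), (nat_lit 0), (nat_lit 0), (nat_lit 0), (nat_lit 6528), (nat_lit 3707), (nat_lit 0), (nat_lit 13686157689018), (nat_lit 0), (nat_lit 0), [], Pd.none, Pd.none, (nat_lit 0), (nat_lit 1), (nat_lit 0), (nat_lit 0), (nat_lit 5), (nat_lit 0), [⟨(nat_lit 0), (nat_lit 72), (nat_lit 66), (nat_lit 100), (nat_lit 522281754)⟩], [⟨(nat_lit 1), (nat_lit 77), (nat_lit 72), (nat_lit 100), (nat_lit 438459805)⟩], [], [],
 ⟨⟨[(nat_lit 40), (nat_lit 80), (nat_lit 100)], [(nat_lit 0), (nat_lit 795), (nat_lit 1829)], [((nat_lit 0), (nat_lit 0), (nat_lit 0)), ((nat_lit 1000), (nat_lit 814), (nat_lit 310)), ((nat_lit 1000), (nat_lit 714), (nat_lit 692))], ((nat_lit 72), (nat_lit 100), (nat_lit 63))⟩, (nat_lit 784906), (nat_lit 300), (nat_lit 306), (nat_lit 50800001), (nat_lit 679047), [(nat_lit 2032000001), (nat_lit 4688000005), (nat_lit 6250000000)], [], [(nat_lit 26736264924), (nat_lit 27813841371), (nat_lit 28884614744),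 (nat_lit 29739051533), (nat_lit 30088173022), (nat_lit 30899481276), (nat_lit 31282705807), (nat_lit 32136954306)], (nat_lit 1271251), (nat_lit 1271251), (nat_lit 1100000), (nat_lit 2127501), (nat_lit 1271251), (nat_lit 1271251), [(nat_lit 490000), (nat_lit 1100000), (nat_lit 1442501)], [(nat_lit 3), (nat_lit 50), (nat_lit 289), (nat_lit 75), (nat_lit 10)]⟩,
 ⟨⟨[(nat_lit 40), (nat_lit 80), (nat_lit 120)], [(nat_lit 0), (nat_lit 0), (nat_lit 2151)], [((nat_lit 0), (nat_lit 0), (nat_lit 0)), ((nat_lit 0), (nat_lit 0), (nat_lit 0)), ((nat_lit 1000), (nat_lit 815), (nat_lit 753))], ((nat_lit 80), (nat_lit 100), (nat_lit 63))⟩, (nat_lit 0), (nat_lit 53), (nat_lit 53), (nat_lit 0), (nat_lit 0), [(nat_lit 2032000000), (nat_lit 4688000000), (nat_lit 7968000000)], [], [(nat_lit 18091218092), (nat_lit 21176743609), (nat_lit 22621946233), (nat_lit 25091241773), (nat_lit 21543628308), (nat_lit 24173382333), (nat_lit 25289749232), (nat_lit 27471962744)], (nat_lit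 0), (nat_lit 0), (nat_lit 0), (nat_lit 0), (nat_lit 0), (nat_lit 0), [], [(nat_lit 4), (nat_lit 51), (nat_lit 373), (nat_lit 150), (nat_lit 11)]⟩,
 Rw.none⟩)) (.spl (nat_lit 1) (nat_lit 340) (.leaf ⟨(nat_lit 0), (nat_lit 1000), (nat_lit 0), (nat_lit 0), (nat_lit 0), (nat_lit 5926), (nat_lit 6013), (nat_lit 0), (nat_lit 0), (nat_lit 0), (nat_lit 0), [], Pd.none, Pd.none, (nat_lit 0), (nat_lit 1), (nat_lit 0), (nat_lit 0), (nat_lit 5), (nat_lit 0), [], [⟨(nat_lit 1), (nat_lit 77), (nat_lit 72), (nat_lit 100), (nat_lit 383718548)⟩], [], [],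
 ⟨⟨[(nat_lit 40), (nat_lit 80), (nat_lit 100)], [(nat_lit 0), (nat_lit 795), (nat_lit 1829)], [((nat_lit 0), (nat_lit 0), (nat_lit 0)), ((nat_lit 1000), (nat_lit 814), (nat_lit 310)), ((nat_lit 1000), (nat_lit 714), (nat_lit 692))], ((nat_lit 72), (nat_lit 100), (nat_lit 63))⟩, (nat_lit 3701546), (nat_lit 300), (nat_lit 343), (nat_lit 50800001), (nat_lit 784001), [(nat_lit 2032000010), (nat_lit 6049768363), (nat_lit 6250000000)], [], [(nat_lit 31093965093), (nat_lit 31853418027), (nat_lit 34695241456), (nat_lit 35251228751), (nat_lit 33300648258), (nat_lit 33877663445), (nat_lit 36067355091), (nat_lit 36932813691)], (nat_lit 1271251), (nat_lit 1271251), (nat_lit 1271251), (nat_lit 1271251), (nat_lit 1271251), (nat_lit 1271251), [(nat_lit 490000), (nat_lit 1100000), (nat_lit 1442501)], [(nat_lit 3), (nat_lit 50), (nat_lit 222), (nat_lit 0), (nat_lit 6)]⟩,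
 ⟨⟨[(nat_lit 40), (nat_lit 80), (nat_lit 120)], [(nat_lit 0), (nat_lit 0), (nat_lit 2151)], [((nat_lit 0), (nat_lit 0), (nat_lit 0)), ((nat_lit 0), (nat_lit 0), (nat_lit 0)), ((nat_lit 1000), (nat_lit 815), (nat_lit 753))], ((nat_lit 80), (nat_lit 100), (nat_lit 63))⟩, (nat_lit 205496), (nat_lit 78), (nat_lit 78), (nat_lit 0), (nat_lit 0), [(nat_lit 2032000000), (nat_lit 4688000000), (nat_lit 7968000000)], [], [(nat_lit 24082312544), (nat_lit 25511618774), (nat_lit 31918784960), (nat_lit 33089462647), (nat_lit 26749289217), (nat_lit 27958369264), (nat_lit 33621966552), (nat_lit 34613138736)], (nat_lit 0), (nat_lit 0), (nat_lit 0), (nat_lit 0), (nat_lit 0), (nat_lit 0), [], [(nat_lit 4), (nat_lit 51), (nat_lit 289), (nat_lit 75), (nat_lit 8)]⟩,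
 Rw.none⟩) (.leaf ⟨(nat_lit 0), (nat_lit 1000), (nat_lit 0), (nat_lit 0), (nat_lit 0), (nat_lit 6133), (nat_lit 3827), (nat_lit 0), (nat_lit 20445006531167), (nat_lit 0), (nat_lit 0), [], Pd.none, Pd.none, (nat_lit 0), (nat_lit 1), (nat_lit 0), (nat_lit 0), (nat_lit 5), (nat_lit 0), [], [⟨(nat_lit 1), (nat_lit 92), (nat_lit 68), (nat_lit 100), (nat_lit 430324168)⟩], [], [],
 ⟨⟨[(nat_lit 40), (nat_lit 80), (nat_lit 100)], [(nat_lit 0), (nat_lit 795), (nat_lit 1829)], [((nat_lit 0), (nat_lit 0), (nat_lit 0)), ((nat_lit 1000), (nat_lit 814), (nat_lit 310)), ((nat_lit 1000), (nat_lit 714), (nat_lit 692))], ((nat_lit 72), (nat_lit 100), (nat_lit 63))⟩, (nat_lit 1174447), (nat_lit 300), (nat_lit 381), (nat_lit 50800001), (nat_lit 901127), [(nat_lit 2032000008), (nat_lit 4879812470), (nat_lit 6250000000)], [], [(nat_lit 30832516779), (nat_lit 31538729639), (nat_lit 34159806067), (nat_lit 34675248196), (nat_lit 32802251650), (nat_lit 33336938381), (nat_lit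 36331896641), (nat_lit 37209278441)], (nat_lit 1271251), (nat_lit 1271251), (nat_lit 1271251), (nat_lit 1271251), (nat_lit 1271251), (nat_lit 1271251), [(nat_lit 490000), (nat_lit 1100000), (nat_lit 1442501)], [(nat_lit 3), (nat_lit 50), (nat_lit 232), (nat_lit 0), (nat_lit 7)]⟩,
 ⟨⟨[(nat_lit 40), (nat_lit 80), (nat_lit 100)], [(nat_lit 0), (nat_lit 795), (nat_lit 1829)], [((nat_lit 0), (nat_lit 0), (nat_lit 0)), ((nat_lit 1000), (nat_lit 814), (nat_lit 310)), ((nat_lit 1000), (nat_lit 714), (nat_lit 692))], ((nat_lit 72), (nat_lit 100), (nat_lit 63))⟩, (nat_lit 3799751), (nat_lit 87), (nat_lit 87), (nat_lit 0), (nat_lit 0), [(nat_lit 2032000000), (nat_lit 4688000000), (nat_lit 6250000000)], [], [(nat_lit 24197439977), (nat_lit 25313933016), (nat_lit 30284211474), (nat_lit 31242059107), (nat_lit 26552672367), (nat_lit 27571589705), (nat_lit 31937098744), (nat_lit 32767232680)], (nat_lit 0), (nat_lit 0), (nat_lit 0), (nat_lit 0), (nat_lit 0), (nat_lit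 0), [], [(nat_lit 3), (nat_lit 50), (nat_lit 203), (nat_lit 0), (nat_lit 6)]⟩,
 Rw.none⟩)))) (.spl (nat_lit 0) (nat_lit 350) (.ord (.leaf ⟨(nat_lit 0), (nat_lit 846), (nat_lit 0), (nat_lit 154), (nat_lit 0), (nat_lit 6608), (nat_lit 6323), (nat_lit 1523), (nat_lit 20000059122851), (nat_lit 0), (nat_lit 0), [], Pd.none, Pd.none, (nat_lit 0), (nat_lit 1), (nat_lit 0), (nat_lit 0), (nat_lit 5), (nat_lit 0), [⟨(nat_lit 0), (nat_lit 67), (nat_lit 67), (nat_lit 100), (nat_lit 68263256)⟩], [⟨(nat_lit 1), (nat_lit 69), (nat_lit 69), (nat_lit 100), (nat_lit 364754234)⟩], [], [],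
 ⟨⟨[(nat_lit 40), (nat_lit 80), (nat_lit 100)], [(nat_lit 0), (nat_lit 795), (nat_lit 1829)], [((nat_lit 0), (nat_lit 0), (nat_lit 0)), ((nat_lit 1000), (nat_lit 814), (nat_lit 310)), ((nat_lit 1000), (nat_lit 714), (nat_lit 692))], ((nat_lit 72), (nat_lit 100), (nat_lit 63))⟩, (nat_lit 3722954), (nat_lit 300), (nat_lit 310), (nat_lit 50800001), (nat_lit 674523), [(nat_lit 2032000014), (nat_lit 5823535135), (nat_lit 6250000000)], [], [(nat_lit 26549711564), (nat_lit 27087442224), (nat_lit 33853014544), (nat_lit 34467318136), (nat_lit 31458532767), (nat_lit 31827421021), (nat_lit 38694030460), (nat_lit 39092011792)], (nat_lit 1271251), (nat_lit 1271251), (nat_lit 1100000), (nat_lit 3155001), (nat_lit 1271251), (nat_lit 1271251), [(nat_lit 490000), (nat_lit 1100000), (nat_lit 1442501)], [(nat_lit 3), (nat_lit 50), (nat_lit 317), (nat_lit 100), (nat_lit 11)]⟩,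
 ⟨⟨[(nat_lit 40), (nat_lit 80), (nat_lit 120)], [(nat_lit 0), (nat_lit 0), (nat_lit 2151)], [((nat_lit 0), (nat_lit 0), (nat_lit 0)), ((nat_lit 0), (nat_lit 0), (nat_lit 0)), ((nat_lit 1000), (nat_lit 815), (nat_lit 753))], ((nat_lit 80), (nat_lit 100), (nat_lit 63))⟩, (nat_lit 162398), (nat_lit 80), (nat_lit 80), (nat_lit 0), (nat_lit 0), [(nat_lit 2032000000), (nat_lit 4688000000), (nat_lit 7968000000)], [], [(nat_lit 19127051248), (nat_lit 21953594633), (nat_lit 32286420160), (nat_lit 34087709323), (nat_lit 22873646802), (nat_lit 25246080534), (nat_lit 33978622792), (nat_lit 35499636688)], (nat_lit 0), (nat_lit 0), (nat_lit 0), (nat_lit 0), (nat_lit 0), (nat_lit 0), [], [(nat_lit 4), (nat_lit 51), (nat_lit 401), (nat_lit 175), (nat_lit 12)]⟩,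
 ⟨⟨[(nat_lit 120), (nat_lit 160), (nat_lit 180)], [(nat_lit 0), (nat_lit 533), (nat_lit 2066)], [((nat_lit 0), (nat_lit 0), (nat_lit 0)), ((nat_lit 960), (nat_lit 1000), (nat_lit 200)), ((nat_lit 615), (nat_lit 1000), (nat_lit 729))], ((nat_lit 100), (nat_lit 72), (nat_lit 63))⟩, (nat_lit 1249669), (nat_lit 300), (nat_lit 1887), (nat_lit 10225600), (nat_lit 3501476), [(nat_lit 1227072000), (nat_lit 1828288000), (nat_lit 2164932000)], [], [(nat_lit 8037122157), (nat_lit 7770499282), (nat_lit 7405501095), (nat_lit 7136759526), (nat_lit 7710202280), (nat_lit 7443144080), (nat_lit 7074212337), (nat_lit 6823548679)], (nat_lit 1271251), (nat_lit 1271251), (nat_lit 1271251), (nat_lit 1271251), (nat_lit 1271251), (nat_lit 1271251), [(nat_lit 1695001), (nat_lit 1271251), (nat_lit 1271251)], [(nat_lit 28), (nat_lit 65), (nat_lit 583), (nat_lit 225), (nat_lit 13)]⟩⟩)) (.trZ (nat_lit 0) (nat_lit 1) (nat_lit 3) (nat_lit 80) (nat_lit 66) (nat_lit 100) (nat_lit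 180) (.trX (nat_lit 4) (nat_lit 0) (nat_lit 2) (nat_lit 68) (nat_lit 61) (nat_lit 100) (nat_lit 360) (.leaf ⟨(nat_lit 0), (nat_lit 861), (nat_lit 0), (nat_lit 139), (nat_lit 0), (nat_lit 6519), (nat_lit 5220), (nat_lit 1394), (nat_lit 17661317307773), (nat_lit 0), (nat_lit 0), [], Pd.none, Pd.none, (nat_lit 0), (nat_lit 1), (nat_lit 0), (nat_lit 0), (nat_lit 5), (nat_lit 0), [⟨(nat_lit 0), (nat_lit 63), (nat_lit 63), (nat_lit 100), (nat_lit 140404053)⟩], [⟨(nat_lit 1), (nat_lit 74), (nat_lit 63), (nat_lit 100), (nat_lit 385050391)⟩], [], [],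
 ⟨⟨[(nat_lit 40), (nat_lit 80), (nat_lit 100)], [(nat_lit 0), (nat_lit 1195), (nat_lit 2166)], [((nat_lit 0), (nat_lit 0), (nat_lit 0)), ((nat_lit 1000), (nat_lit 720), (nat_lit 465)), ((nat_lit 1000), (nat_lit 662), (nat_lit 740))], ((nat_lit 67), (nat_lit 100), (nat_lit 64))⟩, (nat_lit 1919041), (nat_lit 300), (nat_lit 329), (nat_lit 50800001), (nat_lit 738245), [(nat_lit 2032000004), (nat_lit 5359869096), (nat_lit 6250000000)], [], [(nat_lit 27770347875), (nat_lit 28265986617), (nat_lit 34348773630), (nat_lit 34958744679), (nat_lit 31735913376), (nat_lit 32100856604), (nat_lit 38543743381), (nat_lit 38953209200)], (nat_lit 1271251), (nat_lit 1271251), (nat_lit 1271251), (nat_lit 1271251), (nat_lit 1271251), (nat_lit 1271251), [(nat_lit 490000), (nat_lit 1100000), (nat_lit 1442501)], [(nat_lit 3), (nat_lit 50), (nat_lit 317), (nat_lit 100), (nat_lit 11)]⟩,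
 ⟨⟨[(nat_lit 40), (nat_lit 80), (nat_lit 120)], [(nat_lit 0), (nat_lit 0), (nat_lit 2151)], [((nat_lit 0), (nat_lit 0), (nat_lit 0)), ((nat_lit 0), (nat_lit 0), (nat_lit 0)), ((nat_lit 1000), (nat_lit 815), (nat_lit 753))], ((nat_lit 80), (nat_lit 100), (nat_lit 63))⟩, (nat_lit 2602730), (nat_lit 88), (nat_lit 88), (nat_lit 0), (nat_lit 0), [(nat_lit 2032000000), (nat_lit 4688000000), (nat_lit 7968000000)], [], [(nat_lit 20927242060), (nat_lit 24073548000), (nat_lit 31399990920), (nat_lit 33301488300), (nat_lit 24178941320), (nat_lit 26917924105), (nat_lit 32946543840), (nat_lit 34575123800)], (nat_lit 0), (nat_lit 0), (nat_lit 0), (nat_lit 0), (nat_lit 0), (nat_lit 0), [], [(nat_lit 4), (nat_lit 51), (nat_lit 401), (nat_lit 175), (nat_lit 12)]⟩,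
 ⟨⟨[(nat_lit 120), (nat_lit 160), (nat_lit 180)], [(nat_lit 0), (nat_lit 533), (nat_lit 2066)], [((nat_lit 0), (nat_lit 0), (nat_lit 0)), ((nat_lit 960), (nat_lit 1000), (nat_lit 200)), ((nat_lit 615), (nat_lit 1000), (nat_lit 729))], ((nat_lit 100), (nat_lit 72), (nat_lit 63))⟩, (nat_lit 462222), (nat_lit 300), (nat_lit 2175), (nat_lit 9229600), (nat_lit 4050042), [(nat_lit 1107552000), (nat_lit 1650208000), (nat_lit 1954062000)], [], [(nat_lit 7148065426), (nat_lit 6907996848), (nat_lit 6591962655), (nat_lit 6351544516), (nat_lit 6849615852), (nat_lit 6609721102), (nat_lit 6292055444), (nat_lit 6063663822)], (nat_lit 1271251), (nat_lit 1271251), (nat_lit 1271251), (nat_lit 1271251), (nat_lit 1271251), (nat_lit 1271251), [(nat_lit 1695001), (nat_lit 1271251), (nat_lit 1271251)], [(nat_lit 28), (nat_lit 65), (nat_lit 654), (nat_lit 225), (nat_lit 14)]⟩⟩)))))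
noncomputable def c9_9 : Tr Lf :=
 (.trX (nat_lit 4) (nat_lit 0) (nat_lit 2) (nat_lit 72) (nat_lit 77) (nat_lit 100) (nat_lit 330) (.trX (nat_lit 5) (nat_lit 1) (nat_lit 2) (nat_lit 80) (nat_lit 68) (nat_lit 100) (nat_lit 350) (.spl (nat_lit 6) (nat_lit 24) (.spl (nat_lit 6) (nat_lit 12) (.spl (nat_lit 1) (nat_lit 340) (.leaf ⟨(nat_lit 0), (nat_lit 1000), (nat_lit 0), (nat_lit 0), (nat_lit 0), (nat_lit 4747), (nat_lit 4711), (nat_lit 0), (nat_lit 0), (nat_lit 0), (nat_lit 0), [], Pd.none, Pd.none, (nat_lit 0), (nat_lit 1), (nat_lit 0), (nat_lit 0), (nat_lit 7), (nat_lit 0), [⟨(nat_lit 0), (nat_lit 81), (nat_lit 72), (nat_lit 100), (nat_lit 92972454)⟩], [⟨(nat_lit 1), (nat_lit 77), (nat_lit 72), (nat_lit 100), (nat_lit 459979272)⟩], [⟨(nat_lit 1), (nat_lit 68), (nat_lit 80), (nat_lit 100), (nat_lit 620518305)⟩], [],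
 ⟨⟨[(nat_lit 40), (nat_lit 60)], [(nat_lit 0), (nat_lit 398)], [((nat_lit 0), (nat_lit 0), (nat_lit 0)), ((nat_lit 1000), (nat_lit 814), (nat_lit 310))], ((nat_lit 78), (nat_lit 100), (nat_lit 37))⟩, (nat_lit 2728634), (nat_lit 273), (nat_lit 273), (nat_lit 0), (nat_lit 777056), [(nat_lit 2032000122), (nat_lit 3282000000)], [], [(nat_lit 22075888531), (nat_lit 23191351521), (nat_lit 31464829534), (nat_lit 32512248827), (nat_lit 26254966840), (nat_lit 27642159407), (nat_lit 34560618440), (nat_lit 35358166640)], (nat_lit 1271251), (nat_lit 1271251), (nat_lit 1100000), (nat_lit 3155001), (nat_lit 1271251), (nat_lit 1271251), [(nat_lit 490000), (nat_lit 780000)], [(nat_lit 1), (nat_lit 38), (nat_lit 205), (nat_lit 0), (nat_lit 9)]⟩,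
 ⟨⟨[(nat_lit 40), (nat_lit 60), (nat_lit 80)], [(nat_lit 0), (nat_lit 0), (nat_lit 615)], [((nat_lit 0), (nat_lit 0), (nat_lit 0)), ((nat_lit 0), (nat_lit 0), (nat_lit 0)), ((nat_lit 1000), (nat_lit 819), (nat_lit 426))], ((nat_lit 84), (nat_lit 100), (nat_lit 36))⟩, (nat_lit 2576909), (nat_lit 77), (nat_lit 77), (nat_lit 0), (nat_lit 0), [(nat_lit 2032000000), (nat_lit 3282000000), (nat_lit 4688000000)], [], [(nat_lit 22481124879), (nat_lit 23821985495), (nat_lit 32124010344), (nat_lit 33019266792), (nat_lit 26309255509), (nat_lit 27567544687), (nat_lit 34535407417), (nat_lit 35289289611)], (nat_lit 0), (nat_lit 0), (nat_lit 0), (nat_lit 0), (nat_lit 0), (nat_lit 0), [], [(nat_lit 2), (nat_lit 44), (nat_lit 203), (nat_lit 0), (nat_lit 7)]⟩,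
 Rw.none⟩) (.trZ (nat_lit 0) (nat_lit 1) (nat_lit 3) (nat_lit 71) (nat_lit 71) (nat_lit 100) (nat_lit 190) (.trX (nat_lit 5) (nat_lit 1) (nat_lit 2) (nat_lit 72) (nat_lit 77) (nat_lit 100) (nat_lit 330) (.leaf ⟨(nat_lit 0), (nat_lit 1000), (nat_lit 0), (nat_lit 0), (nat_lit 0), (nat_lit 5457), (nat_lit 3862), (nat_lit 0), (nat_lit 5679291930830), (nat_lit 0), (nat_lit 0), [], Pd.none, Pd.none, (nat_lit 0), (nat_lit 1), (nat_lit 0), (nat_lit 0), (nat_lit 7), (nat_lit 0), [⟨(nat_lit 0), (nat_lit 71), (nat_lit 71), (nat_lit 100), (nat_lit 54712969)⟩], [⟨(nat_lit 1), (nat_lit 77), (nat_lit 72), (nat_lit 100), (nat_lit 458479500)⟩], [⟨(nat_lit 1), (nat_lit 77), (nat_lit 72), (nat_lit 100), (nat_lit 606334907)⟩], [],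
 ⟨⟨[(nat_lit 40), (nat_lit 60)], [(nat_lit 0), (nat_lit 398)], [((nat_lit 0), (nat_lit 0), (nat_lit 0)), ((nat_lit 1000), (nat_lit 814), (nat_lit 310))], ((nat_lit 78), (nat_lit 100), (nat_lit 37))⟩, (nat_lit 1058192), (nat_lit 300), (nat_lit 311), (nat_lit 50800001), (nat_lit 894160), [(nat_lit 2032000001), (nat_lit 3282000000)], [], [(nat_lit 23711769209), (nat_lit 24773449189), (nat_lit 32375958689), (nat_lit 33492503937), (nat_lit 27441661749), (nat_lit 28861373155), (nat_lit 35467983175), (nat_lit 36306427375)], (nat_lit 1271251), (nat_lit 1271251), (nat_lit 1271251), (nat_lit 1271251), (nat_lit 1271251), (nat_lit 1271251), [(nat_lit 490000), (nat_lit 780000)], [(nat_lit 1), (nat_lit 38), (nat_lit 214), (nat_lit 0), (nat_lit 10)]⟩,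
 ⟨⟨[(nat_lit 40), (nat_lit 60)], [(nat_lit 0), (nat_lit 398)], [((nat_lit 0), (nat_lit 0), (nat_lit 0)), ((nat_lit 1000), (nat_lit 814), (nat_lit 310))], ((nat_lit 78), (nat_lit 100), (nat_lit 37))⟩, (nat_lit 4281915), (nat_lit 69), (nat_lit 69), (nat_lit 0), (nat_lit 0), [(nat_lit 2032000000), (nat_lit 3282000000)], [], [(nat_lit 23852958195), (nat_lit 25059442181), (nat_lit 31979944764), (nat_lit 32812657080), (nat_lit 26120476595), (nat_lit 27313513679), (nat_lit 33429607467), (nat_lit 34176179667)], (nat_lit 0), (nat_lit 0), (nat_lit 0), (nat_lit 0), (nat_lit 0), (nat_lit 0), [], [(nat_lit 1), (nat_lit 38), (nat_lit 203), (nat_lit 0), (nat_lit 8)]⟩,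
 Rw.none⟩)))) (.spl (nat_lit 1) (nat_lit 340) (.leaf ⟨(nat_lit 0), (nat_lit 1000), (nat_lit 0), (nat_lit 0), (nat_lit 0), (nat_lit 4576), (nat_lit 5981), (nat_lit 0), (nat_lit 0), (nat_lit 0), (nat_lit 0), [], Pd.none, Pd.none, (nat_lit 0), (nat_lit 1), (nat_lit 0), (nat_lit 0), (nat_lit 7), (nat_lit 0), [⟨(nat_lit 0), (nat_lit 81), (nat_lit 72), (nat_lit 100), (nat_lit 69797340)⟩], [⟨(nat_lit 1), (nat_lit 77), (nat_lit 72), (nat_lit 100), (nat_lit 456087636)⟩], [⟨(nat_lit 1), (nat_lit 68), (nat_lit 80), (nat_lit 100), (nat_lit 659734016)⟩], [],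
 ⟨⟨[(nat_lit 40), (nat_lit 60), (nat_lit 80)], [(nat_lit 0), (nat_lit 398), (nat_lit 992)], [((nat_lit 0), (nat_lit 0), (nat_lit 0)), ((nat_lit 1000), (nat_lit 814), (nat_lit 310)), ((nat_lit 1000), (nat_lit 752), (nat_lit 464))], ((nat_lit 74), (nat_lit 100), (nat_lit 49))⟩, (nat_lit 3015508), (nat_lit 269), (nat_lit 269), (nat_lit 0), (nat_lit 660066), [(nat_lit 2032000001), (nat_lit 3282000001), (nat_lit 4688000000)], [], [(nat_lit 21994171829), (nat_lit 23054560429), (nat_lit 31245388568), (nat_lit 32276159216), (nat_lit 26110580234), (nat_lit 27469661404), (nat_lit 34342084116), (nat_lit 35129782716)], (nat_lit 1271251), (nat_lit 1271251), (nat_lit 1100000), (nat_lit 3155001), (nat_lit 1271251), (nat_lit 1271251), [(nat_lit 490000), (nat_lit 780000), (nat_lit 1100000)], [(nat_lit 2), (nat_lit 44), (nat_lit 204), (nat_lit 0), (nat_lit 7)]⟩,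
 ⟨⟨[(nat_lit 40), (nat_lit 80), (nat_lit 100)], [(nat_lit 0), (nat_lit 0), (nat_lit 1280)], [((nat_lit 0), (nat_lit 0), (nat_lit 0)), ((nat_lit 0), (nat_lit 0), (nat_lit 0)), ((nat_lit 1000), (nat_lit 800), (nat_lit 600))], ((nat_lit 81), (nat_lit 100), (nat_lit 48))⟩, (nat_lit 0), (nat_lit 79), (nat_lit 79), (nat_lit 0), (nat_lit 0), [(nat_lit 2032000000), (nat_lit 4688000000), (nat_lit 6250000000)], [], [(nat_lit 23126598894), (nat_lit 24657141630), (nat_lit 33585150424), (nat_lit 34573965232), (nat_lit 27425459699), (nat_lit 28840557921), (nat_lit 36162723822), (nat_lit 36981190596)], (nat_lit 0), (nat_lit 0), (nat_lit 0), (nat_lit 0), (nat_lit 0), (nat_lit 0), [], [(nat_lit 3), (nat_lit 50), (nat_lit 317), (nat_lit 100), (nat_lit 10)]⟩,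
 Rw.none⟩) (.trZ (nat_lit 0) (nat_lit 1) (nat_lit 3) (nat_lit 71) (nat_lit 71) (nat_lit 100) (nat_lit 190) (.trX (nat_lit 5) (nat_lit 1) (nat_lit 2) (nat_lit 72) (nat_lit 77) (nat_lit 100) (nat_lit 330) (.leaf ⟨(nat_lit 0), (nat_lit 1000), (nat_lit 0), (nat_lit 0), (nat_lit 0), (nat_lit 5928), (nat_lit 3894), (nat_lit 0), (nat_lit 7674017620288), (nat_lit 0), (nat_lit 0), [], Pd.none, Pd.none, (nat_lit 0), (nat_lit 1), (nat_lit 0), (nat_lit 0), (nat_lit 7), (nat_lit 0), [⟨(nat_lit 0), (nat_lit 67), (nat_lit 67), (nat_lit 100), (nat_lit 74086226)⟩], [⟨(nat_lit 1), (nat_lit 77), (nat_lit 72), (nat_lit 100), (nat_lit 445006626)⟩], [⟨(nat_lit 1), (nat_lit 77), (nat_lit 72), (nat_lit 100), (nat_lit 579608150)⟩], [],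
 ⟨⟨[(nat_lit 40), (nat_lit 60), (nat_lit 80)], [(nat_lit 0), (nat_lit 398), (nat_lit 992)], [((nat_lit 0), (nat_lit 0), (nat_lit 0)), ((nat_lit 1000), (nat_lit 814), (nat_lit 310)), ((nat_lit 1000), (nat_lit 752), (nat_lit 464))], ((nat_lit 74), (nat_lit 100), (nat_lit 49))⟩, (nat_lit 629033), (nat_lit 300), (nat_lit 303), (nat_lit 50800002), (nat_lit 775482), [(nat_lit 2032000050), (nat_lit 3290673979), (nat_lit 4688000000)], [], [(nat_lit 24871651065), (nat_lit 25933491022), (nat_lit 32980383804), (nat_lit 34142785848), (nat_lit 28407762545), (nat_lit 29318452661), (nat_lit 36069911048), (nat_lit 36935484848)], (nat_lit 1271251), (nat_lit 1271251), (nat_lit 1271251), (nat_lit 1271251), (nat_lit 1271251), (nat_lit 1271251), [(nat_lit 490000), (nat_lit 780000), (nat_lit 1100000)], [(nat_lit 2), (nat_lit 44), (nat_lit 212), (nat_lit 0), (nat_lit 8)]⟩,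
 ⟨⟨[(nat_lit 40), (nat_lit 60), (nat_lit 80)], [(nat_lit 0), (nat_lit 398), (nat_lit 992)], [((nat_lit 0), (nat_lit 0), (nat_lit 0)), ((nat_lit 1000), (nat_lit 814), (nat_lit 310)), ((nat_lit 1000), (nat_lit 752), (nat_lit 464))], ((nat_lit 74), (nat_lit 100), (nat_lit 49))⟩, (nat_lit 2846983), (nat_lit 78), (nat_lit 78), (nat_lit 0), (nat_lit 0), [(nat_lit 2032000000), (nat_lit 3282000000), (nat_lit 4688000000)], [], [(nat_lit 24084712538), (nat_lit 25182181774), (nat_lit 32019118268), (nat_lit 32854187960), (nat_lit 26146983131), (nat_lit 27344567913), (nat_lit 33470502779), (nat_lit 34218918179)], (nat_lit 0), (nat_lit 0), (nat_lit 0), (nat_lit 0), (nat_lit 0), (nat_lit 0), [], [(nat_lit 2), (nat_lit 44), (nat_lit 203), (nat_lit 0), (nat_lit 7)]⟩,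
 Rw.none⟩))))) (.spl (nat_lit 2) (nat_lit 160) (.trX (nat_lit 4) (nat_lit 0) (nat_lit 2) (nat_lit 73) (nat_lit 85) (nat_lit 100) (nat_lit 320) (.trX (nat_lit 5) (nat_lit 1) (nat_lit 2) (nat_lit 82) (nat_lit 76) (nat_lit 100) (nat_lit 340) (.spl (nat_lit 0) (nat_lit 350) (.ord (.leaf ⟨(nat_lit 0), (nat_lit 1000), (nat_lit 0), (nat_lit 0), (nat_lit 0), (nat_lit 4701), (nat_lit 5972), (nat_lit 0), (nat_lit 7164), (nat_lit 0), (nat_lit 0), [], Pd.none, Pd.none, (nat_lit 0), (nat_lit 1), (nat_lit 0), (nat_lit 0), (nat_lit 7), (nat_lit 0), [⟨(nat_lit 0), (nat_lit 74), (nat_lit 69), (nat_lit 100), (nat_lit 69169808)⟩], [⟨(nat_lit 1), (nat_lit 85), (nat_lit 73), (nat_lit 100), (nat_lit 440352403)⟩], [⟨(nat_lit 1), (nat_lit 91), (nat_lit 77), (nat_lit 100), (nat_lit 93172007)⟩, ⟨(nat_lit 1), (nat_lit 76), (nat_lit 82), (nat_lit 100), (nat_lit 537755115)⟩], [],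
 ⟨⟨[(nat_lit 40), (nat_lit 80), (nat_lit 100)], [(nat_lit 0), (nat_lit 795), (nat_lit 1829)], [((nat_lit 0), (nat_lit 0), (nat_lit 0)), ((nat_lit 1000), (nat_lit 814), (nat_lit 310)), ((nat_lit 1000), (nat_lit 714), (nat_lit 692))], ((nat_lit 72), (nat_lit 100), (nat_lit 63))⟩, (nat_lit 3003544), (nat_lit 273), (nat_lit 273), (nat_lit 0), (nat_lit 596433), [(nat_lit 2032000001), (nat_lit 4688000001), (nat_lit 6250000000)], [], [(nat_lit 21954361739), (nat_lit 22499203311), (nat_lit 31405798631), (nat_lit 31927268986), (nat_lit 25544647247), (nat_lit 26253840627), (nat_lit 34114763365), (nat_lit 34522593902)], (nat_lit 1271251), (nat_lit 1271251), (nat_lit 1100000), (nat_lit 3155001), (nat_lit 1271251), (nat_lit 1271251), [(nat_lit 490000), (nat_lit 1100000), (nat_lit 1442501)], [(nat_lit 3), (nat_lit 50), (nat_lit 317), (nat_lit 100), (nat_lit 11)]⟩,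
 ⟨⟨[(nat_lit 40), (nat_lit 80), (nat_lit 120)], [(nat_lit 0), (nat_lit 0), (nat_lit 2151)], [((nat_lit 0), (nat_lit 0), (nat_lit 0)), ((nat_lit 0), (nat_lit 0), (nat_lit 0)), ((nat_lit 1000), (nat_lit 815), (nat_lit 753))], ((nat_lit 80), (nat_lit 100), (nat_lit 63))⟩, (nat_lit 0), (nat_lit 79), (nat_lit 79), (nat_lit 0), (nat_lit 0), [(nat_lit 2032000000), (nat_lit 4688000000), (nat_lit 7968000000)], [], [(nat_lit 23133255528), (nat_lit 25427053326), (nat_lit 33574795888), (nat_lit 35057023582), (nat_lit 26738647788), (nat_lit 28831536567), (nat_lit 35704612780), (nat_lit 36969200746)], (nat_lit 0), (nat_lit 0), (nat_lit 0), (nat_lit 0), (nat_lit 0), (nat_lit 0), [], [(nat_lit 4), (nat_lit 51), (nat_lit 317), (nat_lit 100), (nat_lit 9)]⟩,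
 Rw.none⟩)) (.trZ (nat_lit 0) (nat_lit 1) (nat_lit 3) (nat_lit 80) (nat_lit 66) (nat_lit 100) (nat_lit 180) (.trX (nat_lit 4) (nat_lit 0) (nat_lit 2) (nat_lit 68) (nat_lit 89) (nat_lit 100) (nat_lit 300) (.leaf ⟨(nat_lit 0), (nat_lit 1000), (nat_lit 0), (nat_lit 0), (nat_lit 0), (nat_lit 6710), (nat_lit 5755), (nat_lit 0), (nat_lit 1469119531406), (nat_lit 0), (nat_lit 0), [], Pd.none, Pd.none, (nat_lit 0), (nat_lit 1), (nat_lit 0), (nat_lit 0), (nat_lit 7), (nat_lit 0), [⟨(nat_lit 0), (nat_lit 63), (nat_lit 63), (nat_lit 100), (nat_lit 98068092)⟩], [⟨(nat_lit 1), (nat_lit 89), (nat_lit 68), (nat_lit 100), (nat_lit 425474682)⟩], [⟨(nat_lit 1), (nat_lit 92), (nat_lit 75), (nat_lit 100), (nat_lit 657950750)⟩], [],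
 ⟨⟨[(nat_lit 40), (nat_lit 80), (nat_lit 100)], [(nat_lit 0), (nat_lit 1195), (nat_lit 2166)], [((nat_lit 0), (nat_lit 0), (nat_lit 0)), ((nat_lit 1000), (nat_lit 720), (nat_lit 465)), ((nat_lit 1000), (nat_lit 662), (nat_lit 740))], ((nat_lit 67), (nat_lit 100), (nat_lit 64))⟩, (nat_lit 540166), (nat_lit 300), (nat_lit 309), (nat_lit 50800005), (nat_lit 676694), [(nat_lit 2032000005), (nat_lit 4696297711), (nat_lit 6250000000)], [], [(nat_lit 27032868790), (nat_lit 27557629919), (nat_lit 34603178133), (nat_lit 35222447110), (nat_lit 29177879823), (nat_lit 29602907826), (nat_lit 36542237538), (nat_lit 37037406190)], (nat_lit 1271251), (nat_lit 1271251), (nat_lit 1271251), (nat_lit 1271251), (nat_lit 1271251), (nat_lit 1271251), [(nat_lit 490000), (nat_lit 1100000), (nat_lit 1442501)], [(nat_lit 3), (nat_lit 50), (nat_lit 317), (nat_lit 100), (nat_lit 11)]⟩,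
 ⟨⟨[(nat_lit 40), (nat_lit 80), (nat_lit 120)], [(nat_lit 0), (nat_lit 0), (nat_lit 2151)], [((nat_lit 0), (nat_lit 0), (nat_lit 0)), ((nat_lit 0), (nat_lit 0), (nat_lit 0)), ((nat_lit 1000), (nat_lit 815), (nat_lit 753))], ((nat_lit 80), (nat_lit 100), (nat_lit 63))⟩, (nat_lit 0), (nat_lit 80), (nat_lit 80), (nat_lit 0), (nat_lit 0), [(nat_lit 2032000000), (nat_lit 4688000000), (nat_lit 7968000000)], [], [(nat_lit 23783378905), (nat_lit 26674594202), (nat_lit 33325136520), (nat_lit 35269468200), (nat_lit 27192666940), (nat_lit 29666578265), (nat_lit 35433175075), (nat_lit 37095757845)], (nat_lit 0), (nat_lit 0), (nat_lit 0), (nat_lit 0), (nat_lit 0), (nat_lit 0), [], [(nat_lit 4), (nat_lit 51), (nat_lit 317), (nat_lit 100), (nat_lit 9)]⟩,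
 Rw.none⟩)))))) (.leaf ⟨(nat_lit 0), (nat_lit 911), (nat_lit 0), (nat_lit 89), (nat_lit 0), (nat_lit 4998), (nat_lit 5701), (nat_lit 977), (nat_lit 28565), (nat_lit 0), (nat_lit 0), [], Pd.none, Pd.none, (nat_lit 0), (nat_lit 1), (nat_lit 0), (nat_lit 0), (nat_lit 7), (nat_lit 0), [⟨(nat_lit 0), (nat_lit 72), (nat_lit 66), (nat_lit 100), (nat_lit 89497835)⟩], [⟨(nat_lit 1), (nat_lit 85), (nat_lit 67), (nat_lit 100), (nat_lit 408805408)⟩], [⟨(nat_lit 1), (nat_lit 81), (nat_lit 72), (nat_lit 100), (nat_lit 442316645)⟩, ⟨(nat_lit 1), (nat_lit 68), (nat_lit 80), (nat_lit 100), (nat_lit 123200990)⟩], [],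
 ⟨⟨[(nat_lit 40), (nat_lit 80), (nat_lit 100)], [(nat_lit 0), (nat_lit 795), (nat_lit 1829)], [((nat_lit 0), (nat_lit 0), (nat_lit 0)), ((nat_lit 1000), (nat_lit 814), (nat_lit 310)), ((nat_lit 1000), (nat_lit 714), (nat_lit 692))], ((nat_lit 72), (nat_lit 100), (nat_lit 63))⟩, (nat_lit 1831316), (nat_lit 263), (nat_lit 263), (nat_lit 0), (nat_lit 558955), [(nat_lit 2032000042), (nat_lit 4688000008), (nat_lit 6250000000)], [], [(nat_lit 23138783728), (nat_lit 24193386534), (nat_lit 31786932939), (nat_lit 32858789718), (nat_lit 26914843351), (nat_lit 27895358230), (nat_lit 34881391043), (nat_lit 35693396843)], (nat_lit 1271251), (nat_lit 1271251), (nat_lit 1100000), (nat_lit 3155001), (nat_lit 1271251), (nat_lit 1271251), [(nat_lit 490000), (nat_lit 1100000), (nat_lit 1442501)], [(nat_lit 3), (nat_lit 50), (nat_lit 317), (nat_lit 100), (nat_lit 11)]⟩,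
 ⟨⟨[(nat_lit 40), (nat_lit 80), (nat_lit 120)], [(nat_lit 0), (nat_lit 0), (nat_lit 2151)], [((nat_lit 0), (nat_lit 0), (nat_lit 0)), ((nat_lit 0), (nat_lit 0), (nat_lit 0)), ((nat_lit 1000), (nat_lit 815), (nat_lit 753))], ((nat_lit 80), (nat_lit 100), (nat_lit 63))⟩, (nat_lit 2154022), (nat_lit 82), (nat_lit 82), (nat_lit 0), (nat_lit 0), [(nat_lit 2032000000), (nat_lit 4688000000), (nat_lit 7968000000)], [], [(nat_lit 23938835480), (nat_lit 26509896231), (nat_lit 33263009304), (nat_lit 35199384840), (nat_lit 27528760519), (nat_lit 30003870044), (nat_lit 35803945402), (nat_lit 37412400710)], (nat_lit 0), (nat_lit 0), (nat_lit 0), (nat_lit 0), (nat_lit 0), (nat_lit 0), [], [(nat_lit 4), (nat_lit 51), (nat_lit 317), (nat_lit 100), (nat_lit 9)]⟩,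
 ⟨⟨[(nat_lit 120), (nat_lit 160), (nat_lit 180)], [(nat_lit 0), (nat_lit 0), (nat_lit 1613)], [((nat_lit 0), (nat_lit 0), (nat_lit 0)), ((nat_lit 0), (nat_lit 0), (nat_lit 0)), ((nat_lit 620), (nat_lit 1000), (nat_lit 670))], ((nat_lit 100), (nat_lit 65), (nat_lit 64))⟩, (nat_lit 38734), (nat_lit 300), (nat_lit 2000), (nat_lit 6603801), (nat_lit 3768229), [(nat_lit 709152000), (nat_lit 1056608000), (nat_lit 1251162000)], [], [(nat_lit 4489788863), (nat_lit 4431644193), (nat_lit 4176553227), (nat_lit 4123555467), (nat_lit 4344048097), (nat_lit 4287501012), (nat_lit 4115142478), (nat_lit 4059196085)], (nat_lit 1100000), (nat_lit 1271251), (nat_lit 1271251), (nat_lit 1271251), (nat_lit 1271251), (nat_lit 1271251), [(nat_lit 1695001), (nat_lit 1271251), (nat_lit 1271251)], [(nat_lit 28), (nat_lit 65), (nat_lit 608), (nat_lit 225), (nat_lit 13)]⟩⟩)))))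
noncomputable def c9_10 : Tr Lf :=
 (.spl (nat_lit 6) (nat_lit 24) (.leaf ⟨(nat_lit 0), (nat_lit 858), (nat_lit 0), (nat_lit 142), (nat_lit 0), (nat_lit 4425), (nat_lit 5220), (nat_lit 1391), (nat_lit 1856183), (nat_lit 0), (nat_lit 0), [], Pd.none, Pd.none, (nat_lit 0), (nat_lit 1), (nat_lit 0), (nat_lit 0), (nat_lit 7), (nat_lit 0), [⟨(nat_lit 0), (nat_lit 72), (nat_lit 66), (nat_lit 100), (nat_lit 187334588)⟩], [⟨(nat_lit 1), (nat_lit 72), (nat_lit 66), (nat_lit 100), (nat_lit 386330845)⟩], [⟨(nat_lit 1), (nat_lit 66), (nat_lit 72), (nat_lit 100), (nat_lit 534124478)⟩], [],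
 ⟨⟨[(nat_lit 40), (nat_lit 60), (nat_lit 80)], [(nat_lit 0), (nat_lit 398), (nat_lit 992)], [((nat_lit 0), (nat_lit 0), (nat_lit 0)), ((nat_lit 1000), (nat_lit 814), (nat_lit 310)), ((nat_lit 1000), (nat_lit 752), (nat_lit 464))], ((nat_lit 74), (nat_lit 100), (nat_lit 49))⟩, (nat_lit 2720269), (nat_lit 291), (nat_lit 291), (nat_lit 0), (nat_lit 735742), [(nat_lit 2032000052), (nat_lit 3282000143), (nat_lit 4688000000)], [], [(nat_lit 23009193266), (nat_lit 24052598141), (nat_lit 31051613213), (nat_lit 32067682425), (nat_lit 28582297210), (nat_lit 29774310832), (nat_lit 35667448313), (nat_lit 36367123213)], (nat_lit 1271251), (nat_lit 1271251), (nat_lit 1100000), (nat_lit 3155001), (nat_lit 1271251), (nat_lit 1271251), [(nat_lit 490000), (nat_lit 780000), (nat_lit 1100000)], [(nat_lit 2), (nat_lit 44), (nat_lit 214), (nat_lit 0), (nat_lit 8)]⟩,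
 ⟨⟨[(nat_lit 40), (nat_lit 80), (nat_lit 100)], [(nat_lit 0), (nat_lit 0), (nat_lit 1280)], [((nat_lit 0), (nat_lit 0), (nat_lit 0)), ((nat_lit 0), (nat_lit 0), (nat_lit 0)), ((nat_lit 1000), (nat_lit 800), (nat_lit 600))], ((nat_lit 81), (nat_lit 100), (nat_lit 48))⟩, (nat_lit 1500990), (nat_lit 94), (nat_lit 94), (nat_lit 0), (nat_lit 0), [(nat_lit 2032000000), (nat_lit 4688000000), (nat_lit 6250000000)], [], [(nat_lit 24124949760), (nat_lit 26774535920), (nat_lit 32946543840), (nat_lit 34575123800), (nat_lit 30272761330), (nat_lit 32370216490), (nat_lit 36882227450), (nat_lit 38261656730)], (nat_lit 0), (nat_lit 0), (nat_lit 0), (nat_lit 0), (nat_lit 0), (nat_lit 0), [], [(nat_lit 3), (nat_lit 50), (nat_lit 317), (nat_lit 100), (nat_lit 10)]⟩,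
 ⟨⟨[(nat_lit 120), (nat_lit 140), (nat_lit 160)], [(nat_lit 0), (nat_lit 266), (nat_lit 862)], [((nat_lit 0), (nat_lit 0), (nat_lit 0)), ((nat_lit 960), (nat_lit 1000), (nat_lit 200)), ((nat_lit 874), (nat_lit 1000), (nat_lit 406))], ((nat_lit 100), (nat_lit 83), (nat_lit 48))⟩, (nat_lit 291474), (nat_lit 300), (nat_lit 2070), (nat_lit 9428800), (nat_lit 4032757), [(nat_lit 1131456000), (nat_lit 1397564000), (nat_lit 1685824000)], [], [(nat_lit 6761052695), (nat_lit 6533649363), (nat_lit 6213846877), (nat_lit 5984655362), (nat_lit 6443112283), (nat_lit 6213768386), (nat_lit 5887464381), (nat_lit 5734944688)], (nat_lit 1271251), (nat_lit 1271251), (nat_lit 1271251), (nat_lit 1271251), (nat_lit 1271251), (nat_lit 1271251), [(nat_lit 1695001), (nat_lit 1271251), (nat_lit 1271251)], [(nat_lit 27), (nat_lit 62), (nat_lit 643), (nat_lit 250), (nat_lit 16)]⟩⟩) (.leaf ⟨(nat_lit 0), (nat_lit 829), (nat_lit 0), (nat_lit 171), (nat_lit 0), (nat_lit 4690),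 (nat_lit 5220), (nat_lit 1641), (nat_lit 90751), (nat_lit 0), (nat_lit 0), [], Pd.none, Pd.none, (nat_lit 0), (nat_lit 1), (nat_lit 0), (nat_lit 0), (nat_lit 7), (nat_lit 0), [⟨(nat_lit 0), (nat_lit 72), (nat_lit 66), (nat_lit 100), (nat_lit 191856328)⟩], [⟨(nat_lit 1), (nat_lit 72), (nat_lit 66), (nat_lit 100), (nat_lit 356518037)⟩], [⟨(nat_lit 1), (nat_lit 66), (nat_lit 72), (nat_lit 100), (nat_lit 490224663)⟩], [],
 ⟨⟨[(nat_lit 40), (nat_lit 80), (nat_lit 100)], [(nat_lit 0), (nat_lit 795), (nat_lit 1829)], [((nat_lit 0), (nat_lit 0), (nat_lit 0)), ((nat_lit 1000), (nat_lit 814), (nat_lit 310)), ((nat_lit 1000), (nat_lit 714), (nat_lit 692))], ((nat_lit 72), (nat_lit 100), (nat_lit 63))⟩, (nat_lit 1841222), (nat_lit 252), (nat_lit 252), (nat_lit 0), (nat_lit 519377), [(nat_lit 2032000010), (nat_lit 4688000012), (nat_lit 6250000000)], [], [(nat_lit 23606388509), (nat_lit 24699937634), (nat_lit 31391682545), (nat_lit 32433552290), (nat_lit 29219262156),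 (nat_lit 30112603803), (nat_lit 36034852925), (nat_lit 36746216445)], (nat_lit 1271251), (nat_lit 1271251), (nat_lit 1100000), (nat_lit 3155001), (nat_lit 1271251), (nat_lit 1271251), [(nat_lit 490000), (nat_lit 1100000), (nat_lit 1442501)], [(nat_lit 3), (nat_lit 50), (nat_lit 317), (nat_lit 100), (nat_lit 11)]⟩,
 ⟨⟨[(nat_lit 40), (nat_lit 80), (nat_lit 120)], [(nat_lit 0), (nat_lit 0), (nat_lit 2151)], [((nat_lit 0), (nat_lit 0), (nat_lit 0)), ((nat_lit 0), (nat_lit 0), (nat_lit 0)), ((nat_lit 1000), (nat_lit 815), (nat_lit 753))], ((nat_lit 80), (nat_lit 100), (nat_lit 63))⟩, (nat_lit 2015601), (nat_lit 98), (nat_lit 98), (nat_lit 0), (nat_lit 0), [(nat_lit 2032000000), (nat_lit 4688000000), (nat_lit 7968000000)], [], [(nat_lit 24591844689), (nat_lit 27046478909), (nat_lit 32946543840), (nat_lit 34575123800), (nat_lit 30272761330), (nat_lit 32370216490), (nat_lit 36882227450), (nat_lit 38261656730)], (nat_lit 0), (nat_lit 0), (nat_lit 0), (nat_lit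 0), (nat_lit 0), (nat_lit 0), [], [(nat_lit 4), (nat_lit 51), (nat_lit 317), (nat_lit 100), (nat_lit 9)]⟩,
 ⟨⟨[(nat_lit 120), (nat_lit 160), (nat_lit 180)], [(nat_lit 0), (nat_lit 533), (nat_lit 2066)], [((nat_lit 0), (nat_lit 0), (nat_lit 0)), ((nat_lit 960), (nat_lit 1000), (nat_lit 200)), ((nat_lit 615), (nat_lit 1000), (nat_lit 729))], ((nat_lit 100), (nat_lit 72), (nat_lit 63))⟩, (nat_lit 400390), (nat_lit 300), (nat_lit 1512), (nat_lit 11354401), (nat_lit 2814993), [(nat_lit 1362528000), (nat_lit 2030112000), (nat_lit 2403918000)], [], [(nat_lit 8972228810), (nat_lit 8683487112), (nat_lit 8324069776), (nat_lit 8029582883), (nat_lit 8620179998), (nat_lit 8324480277), (nat_lit 7965533279), (nat_lit 7685062843)], (nat_lit 1271251), (nat_lit 1271251), (nat_lit 1271251), (nat_lit 1271251), (nat_lit 1271251), (nat_lit 1271251), [(nat_lit 1695001), (nat_lit 1271251), (nat_lit 1271251)], [(nat_lit 28), (nat_lit 65), (nat_lit 503), (nat_lit 250),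 (nat_lit 11)]⟩⟩))
noncomputable def c9_11 : Tr Lf :=
 (.spl (nat_lit 3) (nat_lit 280) (.leaf ⟨(nat_lit 0), (nat_lit 1000), (nat_lit 0), (nat_lit 0), (nat_lit 0), (nat_lit 4294), (nat_lit 6917), (nat_lit 0), (nat_lit 124147), (nat_lit 0), (nat_lit 0), [], Pd.none, Pd.none, (nat_lit 0), (nat_lit 1), (nat_lit 0), (nat_lit 0), (nat_lit 5), (nat_lit 0), [⟨(nat_lit 0), (nat_lit 72), (nat_lit 66), (nat_lit 100), (nat_lit 489509432)⟩], [⟨(nat_lit 1), (nat_lit 92), (nat_lit 68), (nat_lit 100), (nat_lit 567360124)⟩], [], [],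
 ⟨⟨[(nat_lit 40), (nat_lit 80), (nat_lit 100)], [(nat_lit 0), (nat_lit 795), (nat_lit 1829)], [((nat_lit 0), (nat_lit 0), (nat_lit 0)), ((nat_lit 1000), (nat_lit 814), (nat_lit 310)), ((nat_lit 1000), (nat_lit 714), (nat_lit 692))], ((nat_lit 72), (nat_lit 100), (nat_lit 63))⟩, (nat_lit 3013444), (nat_lit 205), (nat_lit 205), (nat_lit 0), (nat_lit 397616), [(nat_lit 2032000026), (nat_lit 4688000047), (nat_lit 6250000000)], [], [(nat_lit 21798075102), (nat_lit 22989102664), (nat_lit 25031783130), (nat_lit 26031424249), (nat_lit 26230423760), (nat_lit 27185191014), (nat_lit 28909365134), (nat_lit 29965082963)], (nat_lit 1271251), (nat_lit 1271251), (nat_lit 1100000), (nat_lit 2127501), (nat_lit 1271251), (nat_lit 1271251), [(nat_lit 490000), (nat_lit 1100000), (nat_lit 1442501)], [(nat_lit 3), (nat_lit 50), (nat_lit 289), (nat_lit 75), (nat_lit 10)]⟩,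
 ⟨⟨[(nat_lit 40), (nat_lit 80), (nat_lit 120)], [(nat_lit 0), (nat_lit 0), (nat_lit 2151)], [((nat_lit 0), (nat_lit 0), (nat_lit 0)), ((nat_lit 0), (nat_lit 0), (nat_lit 0)), ((nat_lit 1000), (nat_lit 815), (nat_lit 753))], ((nat_lit 80), (nat_lit 100), (nat_lit 63))⟩, (nat_lit 3168911), (nat_lit 547), (nat_lit 547), (nat_lit 0), (nat_lit 910980), [(nat_lit 2032000000), (nat_lit 4688000000), (nat_lit 7968000000)], [], [(nat_lit 27166027756), (nat_lit 29640415128), (nat_lit 30110397180), (nat_lit 33718945482), (nat_lit 24584541928), (nat_lit 26640842582), (nat_lit 26904057448), (nat_lit 28537165628)], (nat_lit 1271251), (nat_lit 1271251), (nat_lit 1100000), (nat_lit 2127501), (nat_lit 0), (nat_lit 1100000), [(nat_lit 490000), (nat_lit 1100000), (nat_lit 1785001)], [(nat_lit 4), (nat_lit 51), (nat_lit 345), (nat_lit 125), (nat_lit 11)]⟩,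
 Rw.none⟩) (.trZ (nat_lit 3) (nat_lit 4) (nat_lit 5) (nat_lit 100) (nat_lit 92) (nat_lit 40) (nat_lit 10) (.leaf ⟨(nat_lit 0), (nat_lit 1000), (nat_lit 0), (nat_lit 0), (nat_lit 0), (nat_lit 4093), (nat_lit 6091), (nat_lit 0), (nat_lit 247613), (nat_lit 0), (nat_lit 0), [], Pd.none, Pd.none, (nat_lit 0), (nat_lit 1), (nat_lit 0), (nat_lit 0), (nat_lit 5), (nat_lit 0), [], [⟨(nat_lit 1), (nat_lit 92), (nat_lit 68), (nat_lit 100), (nat_lit 510705936)⟩], [], [],
 ⟨⟨[(nat_lit 40), (nat_lit 80), (nat_lit 100)], [(nat_lit 0), (nat_lit 795), (nat_lit 1829)], [((nat_lit 0), (nat_lit 0), (nat_lit 0)), ((nat_lit 1000), (nat_lit 814), (nat_lit 310)), ((nat_lit 1000), (nat_lit 714), (nat_lit 692))], ((nat_lit 72), (nat_lit 100), (nat_lit 63))⟩, (nat_lit 3227070), (nat_lit 215), (nat_lit 215), (nat_lit 0), (nat_lit 397616), [(nat_lit 2032000038), (nat_lit 4688000028), (nat_lit 6250000000)], [], [(nat_lit 25827436004), (nat_lit 26715752310), (nat_lit 30625564087),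 (nat_lit 31609309613), (nat_lit 29069509363), (nat_lit 29769672874), (nat_lit 33724820501), (nat_lit 34484698301)], (nat_lit 1271251), (nat_lit 1271251), (nat_lit 1271251), (nat_lit 1271251), (nat_lit 1271251), (nat_lit 1271251), [(nat_lit 490000), (nat_lit 1100000), (nat_lit 1442501)], [(nat_lit 3), (nat_lit 50), (nat_lit 203), (nat_lit 0), (nat_lit 6)]⟩,
 ⟨⟨[(nat_lit 40), (nat_lit 80), (nat_lit 120)], [(nat_lit 0), (nat_lit 0), (nat_lit 2151)], [((nat_lit 0), (nat_lit 0), (nat_lit 0)), ((nat_lit 0), (nat_lit 0), (nat_lit 0)), ((nat_lit 1000), (nat_lit 815), (nat_lit 753))], ((nat_lit 80), (nat_lit 100), (nat_lit 63))⟩, (nat_lit 1802189), (nat_lit 525), (nat_lit 525), (nat_lit 0), (nat_lit 910980), [(nat_lit 2032000000), (nat_lit 4688000000), (nat_lit 7968000000)], [], [(nat_lit 33185230820), (nat_lit 34773958642), (nat_lit 37635729542), (nat_lit 40506981242), (nat_lit 30693894531), (nat_lit 32039501444), (nat_lit 34392876372), (nat_lit 35533163648)],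 (nat_lit 1271251), (nat_lit 1271251), (nat_lit 1271251), (nat_lit 1271251), (nat_lit 54688), (nat_lit 1100000), [(nat_lit 490000), (nat_lit 1100000), (nat_lit 1785001)], [(nat_lit 4), (nat_lit 51), (nat_lit 249), (nat_lit 40), (nat_lit 7)]⟩,
 Rw.none⟩)))
noncomputable def c9_12 : Tr Lf :=
 (.spl (nat_lit 5) (nat_lit 240) (.leaf ⟨(nat_lit 0), (nat_lit 1000), (nat_lit 0), (nat_lit 0), (nat_lit 0), (nat_lit 4195), (nat_lit 7245), (nat_lit 0), (nat_lit 27019), (nat_lit 0), (nat_lit 0), [], Pd.none, Pd.none, (nat_lit 0), (nat_lit 1), (nat_lit 0), (nat_lit 0), (nat_lit 5), (nat_lit 0), [⟨(nat_lit 0), (nat_lit 72), (nat_lit 66), (nat_lit 100), (nat_lit 476992839)⟩], [⟨(nat_lit 1), (nat_lit 96), (nat_lit 69), (nat_lit 100), (nat_lit 551799272)⟩], [], [],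
 ⟨⟨[(nat_lit 40), (nat_lit 80), (nat_lit 100)], [(nat_lit 0), (nat_lit 795), (nat_lit 1829)], [((nat_lit 0), (nat_lit 0), (nat_lit 0)), ((nat_lit 1000), (nat_lit 814), (nat_lit 310)), ((nat_lit 1000), (nat_lit 714), (nat_lit 692))], ((nat_lit 72), (nat_lit 100), (nat_lit 63))⟩, (nat_lit 3840236), (nat_lit 202), (nat_lit 202), (nat_lit 0), (nat_lit 397616), [(nat_lit 2032000004), (nat_lit 4688000153), (nat_lit 6250000000)], [], [(nat_lit 21224393445), (nat_lit 22445772495), (nat_lit 24636237995), (nat_lit 25724134721), (nat_lit 25420498271), (nat_lit 26486480170), (nat_lit 28314650250), (nat_lit 29386550260)], (nat_lit 1271251), (nat_lit 1271251), (nat_lit 1100000), (nat_lit 2127501), (nat_lit 1271251), (nat_lit 1271251), [(nat_lit 490000), (nat_lit 1100000), (nat_lit 1442501)], [(nat_lit 3), (nat_lit 50), (nat_lit 289), (nat_lit 75), (nat_lit 10)]⟩,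
 ⟨⟨[(nat_lit 40), (nat_lit 80), (nat_lit 120)], [(nat_lit 0), (nat_lit 0), (nat_lit 2151)], [((nat_lit 0), (nat_lit 0), (nat_lit 0)), ((nat_lit 0), (nat_lit 0), (nat_lit 0)), ((nat_lit 1000), (nat_lit 815), (nat_lit 753))], ((nat_lit 80), (nat_lit 100), (nat_lit 63))⟩, (nat_lit 2074032), (nat_lit 440), (nat_lit 440), (nat_lit 0), (nat_lit 910980), [(nat_lit 2032000000), (nat_lit 4688000000), (nat_lit 7968000000)], [], [(nat_lit 21707467448), (nat_lit 23899273948), (nat_lit 24266702300), (nat_lit 26889572155), (nat_lit 22888722448), (nat_lit 25080516780), (nat_lit 25215197890), (nat_lit 28573146420)], (nat_lit 1271251), (nat_lit 1271251), (nat_lit 1100000), (nat_lit 2127501), (nat_lit 1100000), (nat_lit 1785001), [(nat_lit 490000), (nat_lit 1100000), (nat_lit 1785001)], [(nat_lit 4), (nat_lit 51), (nat_lit 373), (nat_lit 150), (nat_lit 11)]⟩,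
 Rw.none⟩) (.spl (nat_lit 6) (nat_lit 24) (.spl (nat_lit 2) (nat_lit 140) (.trX (nat_lit 4) (nat_lit 0) (nat_lit 2) (nat_lit 75) (nat_lit 92) (nat_lit 100) (nat_lit 300) (.trX (nat_lit 5) (nat_lit 1) (nat_lit 2) (nat_lit 84) (nat_lit 85) (nat_lit 100) (nat_lit 320) (.spl (nat_lit 6) (nat_lit 12) (.leaf ⟨(nat_lit 0), (nat_lit 1000), (nat_lit 0), (nat_lit 0), (nat_lit 0), (nat_lit 4285), (nat_lit 5679), (nat_lit 0), (nat_lit 10718), (nat_lit 0), (nat_lit 0), [], Pd.none, Pd.none, (nat_lit 0), (nat_lit 1), (nat_lit 0), (nat_lit 0), (nat_lit 6), (nat_lit 0), [⟨(nat_lit 0), (nat_lit 72), (nat_lit 66), (nat_lit 100), (nat_lit 441672900)⟩], [⟨(nat_lit 1), (nat_lit 100), (nat_lit 71), (nat_lit 100), (nat_lit 537080296)⟩], [⟨(nat_lit 1), (nat_lit 85), (nat_lit 84), (nat_lit 100), (nat_lit 453507333)⟩], [],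
 ⟨⟨[(nat_lit 40), (nat_lit 60)], [(nat_lit 0), (nat_lit 398)], [((nat_lit 0), (nat_lit 0), (nat_lit 0)), ((nat_lit 1000), (nat_lit 814), (nat_lit 310))], ((nat_lit 78), (nat_lit 100), (nat_lit 37))⟩, (nat_lit 4120907), (nat_lit 142), (nat_lit 142), (nat_lit 0), (nat_lit 390637), [(nat_lit 2032000003), (nat_lit 3282000000)], [], [(nat_lit 20598515712), (nat_lit 21969094252), (nat_lit 24418467645), (nat_lit 25522555488), (nat_lit 24368178661), (nat_lit 25594183313), (nat_lit 27573671879), (nat_lit 28709392050)], (nat_lit 1271251), (nat_lit 1271251), (nat_lit 1100000), (nat_lit 2127501), (nat_lit 1271251), (nat_lit 1271251), [(nat_lit 490000), (nat_lit 780000)], [(nat_lit 1), (nat_lit 38), (nat_lit 203), (nat_lit 0), (nat_lit 9)]⟩,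
 ⟨⟨[(nat_lit 40), (nat_lit 60), (nat_lit 80)], [(nat_lit 0), (nat_lit 0), (nat_lit 615)], [((nat_lit 0), (nat_lit 0), (nat_lit 0)), ((nat_lit 0), (nat_lit 0), (nat_lit 0)), ((nat_lit 1000), (nat_lit 819), (nat_lit 426))], ((nat_lit 84), (nat_lit 100), (nat_lit 36))⟩, (nat_lit 3138610), (nat_lit 342), (nat_lit 342), (nat_lit 0), (nat_lit 902638), [(nat_lit 2032000000), (nat_lit 3282000000), (nat_lit 4688000000)], [], [(nat_lit 23471323988), (nat_lit 25483533862), (nat_lit 26090018608), (nat_lit 27712594890), (nat_lit 26188583288), (nat_lit 27889514862), (nat_lit 28282784928), (nat_lit 30760241572)], (nat_lit 1271251), (nat_lit 1271251), (nat_lit 1100000), (nat_lit 2127501), (nat_lit 1271251), (nat_lit 1271251), [(nat_lit 490000), (nat_lit 780000), (nat_lit 1100000)], [(nat_lit 2), (nat_lit 44), (nat_lit 206), (nat_lit 0), (nat_lit 7)]⟩,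
 Rw.none⟩) (.spl (nat_lit 0) (nat_lit 350) (.ord (.leaf ⟨(nat_lit 0), (nat_lit 889), (nat_lit 0), (nat_lit 111), (nat_lit 0), (nat_lit 4777), (nat_lit 6502), (nat_lit 1241), (nat_lit 2203), (nat_lit 0), (nat_lit 0), [], Pd.none, Pd.none, (nat_lit 0), (nat_lit 1), (nat_lit 0), (nat_lit 0), (nat_lit 6), (nat_lit 0), [⟨(nat_lit 0), (nat_lit 74), (nat_lit 69), (nat_lit 100), (nat_lit 373691535)⟩], [⟨(nat_lit 1), (nat_lit 98), (nat_lit 74), (nat_lit 100), (nat_lit 385878685)⟩], [⟨(nat_lit 1), (nat_lit 95), (nat_lit 79), (nat_lit 100), (nat_lit 407389520)⟩], [],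
 ⟨⟨[(nat_lit 40), (nat_lit 60), (nat_lit 80)], [(nat_lit 0), (nat_lit 398), (nat_lit 992)], [((nat_lit 0), (nat_lit 0), (nat_lit 0)), ((nat_lit 1000), (nat_lit 814), (nat_lit 310)), ((nat_lit 1000), (nat_lit 752), (nat_lit 464))], ((nat_lit 74), (nat_lit 100), (nat_lit 49))⟩, (nat_lit 1713489), (nat_lit 132), (nat_lit 132), (nat_lit 0), (nat_lit 313243), [(nat_lit 2032000002), (nat_lit 3282000001), (nat_lit 4688000000)], [], [(nat_lit 21177322868), (nat_lit 21842996427), (nat_lit 24678368132), (nat_lit 25217415286), (nat_lit 24694049551), (nat_lit 25260660232), (nat_lit 27944403596), (nat_lit 28542253603)], (nat_lit 1271251), (nat_lit 1271251), (nat_lit 1100000), (nat_lit 2127501), (nat_lit 1271251), (nat_lit 1271251), [(nat_lit 490000), (nat_lit 780000), (nat_lit 1100000)], [(nat_lit 2), (nat_lit 44), (nat_lit 203), (nat_lit 0), (nat_lit 7)]⟩,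
 ⟨⟨[(nat_lit 40), (nat_lit 80), (nat_lit 100)], [(nat_lit 0), (nat_lit 0), (nat_lit 1280)], [((nat_lit 0), (nat_lit 0), (nat_lit 0)), ((nat_lit 0), (nat_lit 0), (nat_lit 0)), ((nat_lit 1000), (nat_lit 800), (nat_lit 600))], ((nat_lit 81), (nat_lit 100), (nat_lit 48))⟩, (nat_lit 1508761), (nat_lit 310), (nat_lit 310), (nat_lit 0), (nat_lit 702494), [(nat_lit 2032000000), (nat_lit 4688000000), (nat_lit 6250000000)], [], [(nat_lit 23828389064), (nat_lit 25563631031), (nat_lit 26502001208), (nat_lit 27974321096), (nat_lit 26806971432), (nat_lit 28352489029), (nat_lit 28929588056), (nat_lit 30856442168)], (nat_lit 1271251), (nat_lit 1271251), (nat_lit 1100000), (nat_lit 2127501), (nat_lit 1271251), (nat_lit 1271251), [(nat_lit 490000), (nat_lit 1100000), (nat_lit 1442501)], [(nat_lit 3), (nat_lit 50), (nat_lit 289), (nat_lit 75), (nat_lit 9)]⟩,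
 ⟨⟨[(nat_lit 140), (nat_lit 160), (nat_lit 180)], [(nat_lit 0), (nat_lit 0), (nat_lit 799)], [((nat_lit 0), (nat_lit 0), (nat_lit 0)), ((nat_lit 0), (nat_lit 0), (nat_lit 0)), ((nat_lit 728), (nat_lit 1000), (nat_lit 454))], ((nat_lit 100), (nat_lit 67), (nat_lit 52))⟩, (nat_lit 97524), (nat_lit 300), (nat_lit 2380), (nat_lit 8236202), (nat_lit 4408586), [(nat_lit 1092462000), (nat_lit 1317792000), (nat_lit 1560438000)], [], [(nat_lit 5709684196), (nat_lit 5631004184), (nat_lit 5394304686), (nat_lit 5301466416), (nat_lit 5493787676), (nat_lit 5400755309), (nat_lit 5260485094), (nat_lit 5166577977)], (nat_lit 780000), (nat_lit 936250), (nat_lit 1271251), (nat_lit 1271251), (nat_lit 1271251), (nat_lit 1271251), [(nat_lit 1977501), (nat_lit 1271251), (nat_lit 1271251)], [(nat_lit 31), (nat_lit 65), (nat_lit 690), (nat_lit 200), (nat_lit 15)]⟩⟩)) (.trZ (nat_lit 0) (nat_lit 1) (nat_lit 3) (nat_lit 80) (nat_lit 66) (nat_lit 100) (nat_lit 180) (.trX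 (nat_lit 4) (nat_lit 0) (nat_lit 2) (nat_lit 69) (nat_lit 96) (nat_lit 100) (nat_lit 290) (.leaf ⟨(nat_lit 186), (nat_lit 814), (nat_lit 0), (nat_lit 0), (nat_lit 0), (nat_lit 4056), (nat_lit 5561), (nat_lit 0), (nat_lit 1236181), (nat_lit 0), (nat_lit 46500), [((nat_lit 360), [((nat_lit 21), (nat_lit 0), (nat_lit 186))])], ⟨(nat_lit 8), false, true, false, (nat_lit 280), (nat_lit 3162), (nat_lit 3536), [(nat_lit 1600279), (nat_lit 1602397), (nat_lit 1644168), (nat_lit 1646690), (nat_lit 1757209), (nat_lit 1754807), (nat_lit 1801098), (nat_lit 1799100)]⟩, ⟨(nat_lit 5), false, false, true, (nat_lit 197), (nat_lit 3162), (nat_lit 3536), [(nat_lit 1412188), (nat_lit 1411379), (nat_lit 1434141), (nat_lit 1433534), (nat_lit 1553401), (nat_lit 1548524), (nat_lit 1575354), (nat_lit 1570679)]⟩, (nat_lit 5302123), (nat_lit 36836676), (nat_lit 19264377), (nat_lit 10898947), (nat_lit 6), (nat_lit 0), [⟨(nat_lit 0), (nat_lit 80), (nat_lit 66), (nat_lit 100),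 (nat_lit 325303424)⟩], [⟨(nat_lit 1), (nat_lit 100), (nat_lit 67), (nat_lit 99), (nat_lit 474493758)⟩], [⟨(nat_lit 1), (nat_lit 85), (nat_lit 84), (nat_lit 100), (nat_lit 362464509)⟩], [],
 ⟨⟨[(nat_lit 40), (nat_lit 60), (nat_lit 80)], [(nat_lit 0), (nat_lit 600), (nat_lit 1195)], [((nat_lit 0), (nat_lit 0), (nat_lit 0)), ((nat_lit 1000), (nat_lit 725), (nat_lit 454)), ((nat_lit 1000), (nat_lit 720), (nat_lit 465))], ((nat_lit 70), (nat_lit 100), (nat_lit 51))⟩, (nat_lit 1855831), (nat_lit 142), (nat_lit 142), (nat_lit 0), (nat_lit 345988), [(nat_lit 1875686426), (nat_lit 2968331204), (nat_lit 4181261600)], [(nat_lit 0), (nat_lit 0), (nat_lit 0)], [(nat_lit 22014686945), (nat_lit 22607469379), (nat_lit 24865135360), (nat_lit 25383361027), (nat_lit 24834935872), (nat_lit 25358848483), (nat_lit 27567653100), (nat_lit 28134436666)], (nat_lit 1271251), (nat_lit 1271251), (nat_lit 1271251), (nat_lit 1271251), (nat_lit 1271251), (nat_lit 1271251), [(nat_lit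 490000), (nat_lit 780000), (nat_lit 1100000)], [(nat_lit 2), (nat_lit 44), (nat_lit 203), (nat_lit 0), (nat_lit 7)]⟩,
 ⟨⟨[(nat_lit 40), (nat_lit 80), (nat_lit 100)], [(nat_lit 0), (nat_lit 0), (nat_lit 1280)], [((nat_lit 0), (nat_lit 0), (nat_lit 0)), ((nat_lit 0), (nat_lit 0), (nat_lit 0)), ((nat_lit 1000), (nat_lit 800), (nat_lit 600))], ((nat_lit 81), (nat_lit 100), (nat_lit 48))⟩, (nat_lit 1124982), (nat_lit 336), (nat_lit 336), (nat_lit 0), (nat_lit 783620), [(nat_lit 1654048000), (nat_lit 3816032000), (nat_lit 5087500000)], [], [(nat_lit 20252742567), (nat_lit 21813401254), (nat_lit 21740046054), (nat_lit 23110658989), (nat_lit 22193658565), (nat_lit 23847993840), (nat_lit 23679773392), (nat_lit 25907385370)], (nat_lit 1271251), (nat_lit 1271251), (nat_lit 1271251), (nat_lit 1271251), (nat_lit 1271251), (nat_lit 1271251), [(nat_lit 490000), (nat_lit 1100000), (nat_lit 1442501)], [(nat_lit 3), (nat_lit 50), (nat_lit 289), (nat_lit 75), (nat_lit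 9)]⟩,
 Rw.none⟩))))))) (.leaf ⟨(nat_lit 0), (nat_lit 845), (nat_lit 0), (nat_lit 155), (nat_lit 0), (nat_lit 4285), (nat_lit 6591), (nat_lit 1646), (nat_lit 424326), (nat_lit 0), (nat_lit 0), [], Pd.none, Pd.none, (nat_lit 0), (nat_lit 1), (nat_lit 0), (nat_lit 0), (nat_lit 6), (nat_lit 0), [⟨(nat_lit 0), (nat_lit 72), (nat_lit 66), (nat_lit 100), (nat_lit 452571859)⟩], [⟨(nat_lit 1), (nat_lit 92), (nat_lit 68), (nat_lit 100), (nat_lit 383530156)⟩], [⟨(nat_lit 1), (nat_lit 88), (nat_lit 74), (nat_lit 100), (nat_lit 387948775)⟩], [],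
 ⟨⟨[(nat_lit 40), (nat_lit 60), (nat_lit 80)], [(nat_lit 0), (nat_lit 398), (nat_lit 992)], [((nat_lit 0), (nat_lit 0), (nat_lit 0)), ((nat_lit 1000), (nat_lit 814), (nat_lit 310)), ((nat_lit 1000), (nat_lit 752), (nat_lit 464))], ((nat_lit 74), (nat_lit 100), (nat_lit 49))⟩, (nat_lit 4634963), (nat_lit 164), (nat_lit 164), (nat_lit 0), (nat_lit 363069), [(nat_lit 2032000053), (nat_lit 3386789923), (nat_lit 4688000000)], [], [(nat_lit 20598515912), (nat_lit 21969094452), (nat_lit 24418467845), (nat_lit 25522555488), (nat_lit 25220384277), (nat_lit 26571242710), (nat_lit 28387842750), (nat_lit 29469860380)], (nat_lit 1271251), (nat_lit 1271251), (nat_lit 1100000), (nat_lit 2127501), (nat_lit 1271251), (nat_lit 1271251), [(nat_lit 490000), (nat_lit 780000), (nat_lit 1100000)], [(nat_lit 2), (nat_lit 44), (nat_lit 203), (nat_lit 0), (nat_lit 7)]⟩,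
 ⟨⟨[(nat_lit 40), (nat_lit 80), (nat_lit 100)], [(nat_lit 0), (nat_lit 0), (nat_lit 1280)], [((nat_lit 0), (nat_lit 0), (nat_lit 0)), ((nat_lit 0), (nat_lit 0), (nat_lit 0)), ((nat_lit 1000), (nat_lit 800), (nat_lit 600))], ((nat_lit 81), (nat_lit 100), (nat_lit 48))⟩, (nat_lit 2257141), (nat_lit 360), (nat_lit 360), (nat_lit 0), (nat_lit 837173), [(nat_lit 2032000000), (nat_lit 4688000000), (nat_lit 6250000000)], [], [(nat_lit 25235298904), (nat_lit 27320307204), (nat_lit 27576842902), (nat_lit 29233973293), (nat_lit 28777434496), (nat_lit 30430876673), (nat_lit 30267453485), (nat_lit 32791953701)], (nat_lit 1271251), (nat_lit 1271251), (nat_lit 1100000), (nat_lit 2127501), (nat_lit 1271251), (nat_lit 1271251), [(nat_lit 490000), (nat_lit 1100000), (nat_lit 1442501)], [(nat_lit 3), (nat_lit 50), (nat_lit 289), (nat_lit 75), (nat_lit 9)]⟩,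
 ⟨⟨[(nat_lit 140), (nat_lit 160), (nat_lit 180)], [(nat_lit 0), (nat_lit 304), (nat_lit 1085)], [((nat_lit 0), (nat_lit 0), (nat_lit 0)), ((nat_lit 913), (nat_lit 1000), (nat_lit 217)), ((nat_lit 759), (nat_lit 1000), (nat_lit 463))], ((nat_lit 100), (nat_lit 73), (nat_lit 50))⟩, (nat_lit 550326), (nat_lit 300), (nat_lit 2240), (nat_lit 10896500), (nat_lit 4171123), [(nat_lit 1525510000), (nat_lit 1840160000), (nat_lit 2178990000)], [], [(nat_lit 7837677297), (nat_lit 7732134049), (nat_lit 7330766130), (nat_lit 7211340374), (nat_lit 7492183186), (nat_lit 7369507569), (nat_lit 7136708239), (nat_lit 7011766136)], (nat_lit 936250), (nat_lit 1100000), (nat_lit 1271251), (nat_lit 1271251), (nat_lit 1271251), (nat_lit 1271251), [(nat_lit 1977501), (nat_lit 1271251), (nat_lit 1271251)], [(nat_lit 31), (nat_lit 65), (nat_lit 663), (nat_lit 225), (nat_lit 15)]⟩⟩)) (.spl (nat_lit 1) (nat_lit 340) (.leaf ⟨(nat_lit 0), (nat_lit 885), (nat_lit 0), (nat_lit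 115), (nat_lit 0), (nat_lit 5078), (nat_lit 6444), (nat_lit 1313), (nat_lit 0), (nat_lit 0), (nat_lit 0), [], Pd.none, Pd.none, (nat_lit 0), (nat_lit 1), (nat_lit 0), (nat_lit 0), (nat_lit 6), (nat_lit 0), [⟨(nat_lit 0), (nat_lit 72), (nat_lit 61), (nat_lit 100), (nat_lit 499013715)⟩], [⟨(nat_lit 1), (nat_lit 96), (nat_lit 69), (nat_lit 100), (nat_lit 419139960)⟩], [⟨(nat_lit 1), (nat_lit 89), (nat_lit 80), (nat_lit 100), (nat_lit 393628721)⟩], [],
 ⟨⟨[(nat_lit 40), (nat_lit 80), (nat_lit 100)], [(nat_lit 0), (nat_lit 795), (nat_lit 1829)], [((nat_lit 0), (nat_lit 0), (nat_lit 0)), ((nat_lit 1000), (nat_lit 814), (nat_lit 310)), ((nat_lit 1000), (nat_lit 714), (nat_lit 692))], ((nat_lit 72), (nat_lit 100), (nat_lit 63))⟩, (nat_lit 1990259), (nat_lit 150), (nat_lit 150), (nat_lit 0), (nat_lit 267218), [(nat_lit 2064782269), (nat_lit 4688000021), (nat_lit 6250000000)], [], [(nat_lit 21862540084), (nat_lit 23146145493), (nat_lit 25050163113), (nat_lit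 26115369666), (nat_lit 25895415452), (nat_lit 27318094868), (nat_lit 29032750000), (nat_lit 30203915104)], (nat_lit 1271251), (nat_lit 1271251), (nat_lit 1100000), (nat_lit 2127501), (nat_lit 1271251), (nat_lit 1271251), [(nat_lit 490000), (nat_lit 1100000), (nat_lit 1442501)], [(nat_lit 3), (nat_lit 50), (nat_lit 289), (nat_lit 75), (nat_lit 10)]⟩,
 ⟨⟨[(nat_lit 40), (nat_lit 80), (nat_lit 120)], [(nat_lit 0), (nat_lit 0), (nat_lit 2151)], [((nat_lit 0), (nat_lit 0), (nat_lit 0)), ((nat_lit 0), (nat_lit 0), (nat_lit 0)), ((nat_lit 1000), (nat_lit 815), (nat_lit 753))], ((nat_lit 80), (nat_lit 100), (nat_lit 63))⟩, (nat_lit 1952301), (nat_lit 311), (nat_lit 311), (nat_lit 0), (nat_lit 643005), [(nat_lit 2032000000), (nat_lit 4688000000), (nat_lit 7968000000)], [], [(nat_lit 24387763541), (nat_lit 25453937969), (nat_lit 26716066229), (nat_lit 27637108600), (nat_lit 27981480329), (nat_lit 28954732170), (nat_lit 30143649500), (nat_lit 31392926342)],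 (nat_lit 1271251), (nat_lit 1271251), (nat_lit 1100000), (nat_lit 2127501), (nat_lit 1271251), (nat_lit 1271251), [(nat_lit 490000), (nat_lit 1100000), (nat_lit 1785001)], [(nat_lit 4), (nat_lit 51), (nat_lit 289), (nat_lit 75), (nat_lit 8)]⟩,
 ⟨⟨[(nat_lit 140), (nat_lit 180), (nat_lit 200)], [(nat_lit 0), (nat_lit 0), (nat_lit 2835)], [((nat_lit 0), (nat_lit 0), (nat_lit 0)), ((nat_lit 0), (nat_lit 0), (nat_lit 0)), ((nat_lit 363), (nat_lit 1000), (nat_lit 798))], ((nat_lit 0), (nat_lit 0), (nat_lit 0))⟩, (nat_lit 31640), (nat_lit 300), (nat_lit 2162), (nat_lit 8981503), (nat_lit 3903473), [(nat_lit 1131830000), (nat_lit 1616670000), (nat_lit 1886000000)], [], [(nat_lit 6912337609), (nat_lit 6732274463), (nat_lit 6501920368), (nat_lit 6287178468), (nat_lit 6645128061), (nat_lit 6428995138), (nat_lit 6278804910), (nat_lit 6059282934)], (nat_lit 780000), (nat_lit 1100000), (nat_lit 1271251), (nat_lit 1271251), (nat_lit 1271251), (nat_lit 1271251),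 [(nat_lit 1977501), (nat_lit 1271251), (nat_lit 1271251)], [(nat_lit 32), (nat_lit 67), (nat_lit 643), (nat_lit 225), (nat_lit 13)]⟩⟩) (.trZ (nat_lit 0) (nat_lit 1) (nat_lit 3) (nat_lit 71) (nat_lit 71) (nat_lit 100) (nat_lit 190) (.trX (nat_lit 5) (nat_lit 1) (nat_lit 2) (nat_lit 73) (nat_lit 85) (nat_lit 100) (nat_lit 320) (.leaf ⟨(nat_lit 0), (nat_lit 1000), (nat_lit 0), (nat_lit 0), (nat_lit 0), (nat_lit 5760), (nat_lit 4974), (nat_lit 0), (nat_lit 9080), (nat_lit 0), (nat_lit 0), [], Pd.none, Pd.none, (nat_lit 0), (nat_lit 1), (nat_lit 0), (nat_lit 0), (nat_lit 6), (nat_lit 0), [⟨(nat_lit 0), (nat_lit 67), (nat_lit 67), (nat_lit 100), (nat_lit 337351766)⟩], [⟨(nat_lit 1), (nat_lit 96), (nat_lit 69), (nat_lit 100), (nat_lit 108681402)⟩, ⟨(nat_lit 1), (nat_lit 85), (nat_lit 73), (nat_lit 100), (nat_lit 401281470)⟩], [⟨(nat_lit 1), (nat_lit 85), (nat_lit 73), (nat_lit 100), (nat_lit 511773815)⟩], [],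
 ⟨⟨[(nat_lit 40), (nat_lit 80), (nat_lit 100)], [(nat_lit 0), (nat_lit 795), (nat_lit 1829)], [((nat_lit 0), (nat_lit 0), (nat_lit 0)), ((nat_lit 1000), (nat_lit 814), (nat_lit 310)), ((nat_lit 1000), (nat_lit 714), (nat_lit 692))], ((nat_lit 72), (nat_lit 100), (nat_lit 63))⟩, (nat_lit 1313150), (nat_lit 160), (nat_lit 160), (nat_lit 0), (nat_lit 310713), [(nat_lit 2256257507), (nat_lit 4688000002), (nat_lit 6250000000)], [], [(nat_lit 23072946590), (nat_lit 24394141497), (nat_lit 25658945512), (nat_lit 26762913582), (nat_lit 27001274665), (nat_lit 28487551320), (nat_lit 29587386500), (nat_lit 30835220680)], (nat_lit 1271251), (nat_lit 1271251), (nat_lit 1271251), (nat_lit 1271251), (nat_lit 1271251), (nat_lit 1271251), [(nat_lit 490000), (nat_lit 1100000), (nat_lit 1442501)], [(nat_lit 3), (nat_lit 50), (nat_lit 289), (nat_lit 75), (nat_lit 9)]⟩,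
 ⟨⟨[(nat_lit 40), (nat_lit 80), (nat_lit 100)], [(nat_lit 0), (nat_lit 795), (nat_lit 1829)], [((nat_lit 0), (nat_lit 0), (nat_lit 0)), ((nat_lit 1000), (nat_lit 814), (nat_lit 310)), ((nat_lit 1000), (nat_lit 714), (nat_lit 692))], ((nat_lit 72), (nat_lit 100), (nat_lit 63))⟩, (nat_lit 2156574), (nat_lit 296), (nat_lit 296), (nat_lit 0), (nat_lit 678799), [(nat_lit 2032000000), (nat_lit 4688000000), (nat_lit 6250000000)], [], [(nat_lit 23808940498), (nat_lit 24805636803), (nat_lit 25917319645), (nat_lit 26927316384), (nat_lit 26386404798), (nat_lit 27773558156), (nat_lit 28948172000), (nat_lit 30107645632)], (nat_lit 1271251), (nat_lit 1271251), (nat_lit 1271251), (nat_lit 1271251), (nat_lit 1271251), (nat_lit 1271251), [(nat_lit 490000), (nat_lit 1100000), (nat_lit 1442501)], [(nat_lit 3), (nat_lit 50), (nat_lit 289), (nat_lit 75), (nat_lit 9)]⟩,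
 Rw.none⟩))))))
noncomputable def c9_13 : Tr Lf :=
 (.spl (nat_lit 4) (nat_lit 280) (.spl (nat_lit 5) (nat_lit 240) (.leaf ⟨(nat_lit 0), (nat_lit 1000), (nat_lit 0), (nat_lit 0), (nat_lit 0), (nat_lit 4256), (nat_lit 6090), (nat_lit 0), (nat_lit 47275), (nat_lit 0), (nat_lit 0), [], Pd.none, Pd.none, (nat_lit 0), (nat_lit 1), (nat_lit 0), (nat_lit 0), (nat_lit 5), (nat_lit 0), [], [⟨(nat_lit 1), (nat_lit 96), (nat_lit 69), (nat_lit 100), (nat_lit 169329886)⟩], [], [],
 ⟨⟨[(nat_lit 40), (nat_lit 80), (nat_lit 100)], [(nat_lit 0), (nat_lit 795), (nat_lit 1829)], [((nat_lit 0), (nat_lit 0), (nat_lit 0)), ((nat_lit 1000), (nat_lit 814), (nat_lit 310)), ((nat_lit 1000), (nat_lit 714), (nat_lit 692))], ((nat_lit 72), (nat_lit 100), (nat_lit 63))⟩, (nat_lit 3242919), (nat_lit 215), (nat_lit 215), (nat_lit 0), (nat_lit 397616), [(nat_lit 2032000006), (nat_lit 4688000006), (nat_lit 6250000000)], [], [(nat_lit 25325640938), (nat_lit 26228519990), (nat_lit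 30834738808), (nat_lit 31834354096), (nat_lit 27138895788), (nat_lit 27924993152), (nat_lit 32462268532), (nat_lit 33324006040)], (nat_lit 1271251), (nat_lit 1271251), (nat_lit 1271251), (nat_lit 1271251), (nat_lit 1271251), (nat_lit 1271251), [(nat_lit 490000), (nat_lit 1100000), (nat_lit 1442501)], [(nat_lit 3), (nat_lit 50), (nat_lit 203), (nat_lit 0), (nat_lit 6)]⟩,
 ⟨⟨[(nat_lit 40), (nat_lit 80), (nat_lit 120)], [(nat_lit 0), (nat_lit 0), (nat_lit 2151)], [((nat_lit 0), (nat_lit 0), (nat_lit 0)), ((nat_lit 0), (nat_lit 0), (nat_lit 0)), ((nat_lit 1000), (nat_lit 815), (nat_lit 753))], ((nat_lit 80), (nat_lit 100), (nat_lit 63))⟩, (nat_lit 1788024), (nat_lit 430), (nat_lit 430), (nat_lit 0), (nat_lit 910980), [(nat_lit 2032000000), (nat_lit 4688000000), (nat_lit 7968000000)], [], [(nat_lit 28819953356), (nat_lit 30421572446), (nat_lit 33001373440), (nat_lit 34352783580), (nat_lit 29595433736), (nat_lit 30987612070), (nat_lit 33409642840),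 (nat_lit 34655921780)], (nat_lit 1271251), (nat_lit 1271251), (nat_lit 1271251), (nat_lit 1271251), (nat_lit 1100000), (nat_lit 1785001), [(nat_lit 490000), (nat_lit 1100000), (nat_lit 1785001)], [(nat_lit 4), (nat_lit 51), (nat_lit 272), (nat_lit 60), (nat_lit 7)]⟩,
 Rw.none⟩) (.spl (nat_lit 5) (nat_lit 280) (.leaf ⟨(nat_lit 0), (nat_lit 1000), (nat_lit 0), (nat_lit 0), (nat_lit 0), (nat_lit 4245), (nat_lit 6051), (nat_lit 0), (nat_lit 602980), (nat_lit 0), (nat_lit 0), [], Pd.none, Pd.none, (nat_lit 0), (nat_lit 1), (nat_lit 0), (nat_lit 0), (nat_lit 6), (nat_lit 0), [], [⟨(nat_lit 1), (nat_lit 96), (nat_lit 69), (nat_lit 100), (nat_lit 195906302)⟩], [], [],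
 ⟨⟨[(nat_lit 40), (nat_lit 80), (nat_lit 100)], [(nat_lit 0), (nat_lit 795), (nat_lit 1829)], [((nat_lit 0), (nat_lit 0), (nat_lit 0)), ((nat_lit 1000), (nat_lit 814), (nat_lit 310)), ((nat_lit 1000), (nat_lit 714), (nat_lit 692))], ((nat_lit 72), (nat_lit 100), (nat_lit 63))⟩, (nat_lit 3266167), (nat_lit 215), (nat_lit 215), (nat_lit 0), (nat_lit 397616), [(nat_lit 2032000077), (nat_lit 4688000077), (nat_lit 6250000000)], [], [(nat_lit 25320839758), (nat_lit 26222736048), (nat_lit 30820622723), (nat_lit 31819167045), (nat_lit 27133905133), (nat_lit 27917678048), (nat_lit 32448802640), (nat_lit 33309729800)], (nat_lit 1271251), (nat_lit 1271251), (nat_lit 1271251), (nat_lit 1271251), (nat_lit 1271251), (nat_lit 1271251), [(nat_lit 490000), (nat_lit 1100000), (nat_lit 1442501)], [(nat_lit 3), (nat_lit 50), (nat_lit 203), (nat_lit 0), (nat_lit 6)]⟩,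
 ⟨⟨[(nat_lit 40), (nat_lit 80), (nat_lit 120)], [(nat_lit 0), (nat_lit 0), (nat_lit 2151)], [((nat_lit 0), (nat_lit 0), (nat_lit 0)), ((nat_lit 0), (nat_lit 0), (nat_lit 0)), ((nat_lit 1000), (nat_lit 815), (nat_lit 753))], ((nat_lit 80), (nat_lit 100), (nat_lit 63))⟩, (nat_lit 1725843), (nat_lit 411), (nat_lit 411), (nat_lit 0), (nat_lit 910980), [(nat_lit 2032000000), (nat_lit 4688000000), (nat_lit 7968000000)], [], [(nat_lit 29874729011), (nat_lit 31263609126), (nat_lit 33541756276), (nat_lit 34713008556), (nat_lit 30700431654), (nat_lit 31982265781), (nat_lit 34180220894), (nat_lit 35653628840)], (nat_lit 1271251), (nat_lit 1271251), (nat_lit 1271251), (nat_lit 1271251), (nat_lit 1271251), (nat_lit 1271251), [(nat_lit 490000), (nat_lit 1100000), (nat_lit 1785001)], [(nat_lit 4), (nat_lit 51), (nat_lit 233), (nat_lit 0), (nat_lit 6)]⟩,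
 Rw.none⟩) (.spl (nat_lit 0) (nat_lit 350) (.ord (.leaf ⟨(nat_lit 0), (nat_lit 1000), (nat_lit 0), (nat_lit 0), (nat_lit 0), (nat_lit 4215), (nat_lit 6123), (nat_lit 0), (nat_lit 515813), (nat_lit 0), (nat_lit 0), [], Pd.none, Pd.none, (nat_lit 0), (nat_lit 1), (nat_lit 0), (nat_lit 0), (nat_lit 7), (nat_lit 0), [], [], [⟨(nat_lit 1), (nat_lit 76), (nat_lit 82), (nat_lit 100), (nat_lit 484226535)⟩], [],
 ⟨⟨[(nat_lit 40), (nat_lit 80), (nat_lit 100)], [(nat_lit 0), (nat_lit 795), (nat_lit 1829)], [((nat_lit 0), (nat_lit 0), (nat_lit 0)), ((nat_lit 1000), (nat_lit 814), (nat_lit 310)), ((nat_lit 1000), (nat_lit 714), (nat_lit 692))], ((nat_lit 72), (nat_lit 100), (nat_lit 63))⟩, (nat_lit 3667297), (nat_lit 204), (nat_lit 204), (nat_lit 0), (nat_lit 367511), [(nat_lit 2032000091), (nat_lit 4730282257), (nat_lit 6250000000)], [], [(nat_lit 24763116065), (nat_lit 25258820335), (nat_lit 30782124308), (nat_lit 31279936062), (nat_lit 26828510154), (nat_lit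 27301604792), (nat_lit 32412077480), (nat_lit 32841436040)], (nat_lit 1271251), (nat_lit 1271251), (nat_lit 1271251), (nat_lit 1271251), (nat_lit 1271251), (nat_lit 1271251), [(nat_lit 490000), (nat_lit 1100000), (nat_lit 1442501)], [(nat_lit 3), (nat_lit 50), (nat_lit 203), (nat_lit 0), (nat_lit 6)]⟩,
 ⟨⟨[(nat_lit 40), (nat_lit 80), (nat_lit 120)], [(nat_lit 0), (nat_lit 0), (nat_lit 2151)], [((nat_lit 0), (nat_lit 0), (nat_lit 0)), ((nat_lit 0), (nat_lit 0), (nat_lit 0)), ((nat_lit 1000), (nat_lit 815), (nat_lit 753))], ((nat_lit 80), (nat_lit 100), (nat_lit 63))⟩, (nat_lit 2046089), (nat_lit 382), (nat_lit 382), (nat_lit 0), (nat_lit 835223), [(nat_lit 2032000000), (nat_lit 4688000000), (nat_lit 7968000000)], [], [(nat_lit 30255457696), (nat_lit 31361942057), (nat_lit 33934786862), (nat_lit 35247435488), (nat_lit 31916762705), (nat_lit 32875366751), (nat_lit 35893493395), (nat_lit 37170363777)], (nat_lit 1271251), (nat_lit 1271251), (nat_lit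 1271251), (nat_lit 1271251), (nat_lit 1271251), (nat_lit 1271251), [(nat_lit 490000), (nat_lit 1100000), (nat_lit 1785001)], [(nat_lit 4), (nat_lit 51), (nat_lit 232), (nat_lit 0), (nat_lit 6)]⟩,
 Rw.none⟩)) (.leaf ⟨(nat_lit 89), (nat_lit 911), (nat_lit 0), (nat_lit 0), (nat_lit 0), (nat_lit 4022), (nat_lit 5541), (nat_lit 0), (nat_lit 809938), (nat_lit 0), (nat_lit 356000), [((nat_lit 360), [((nat_lit 39), (nat_lit 5), (nat_lit 89))])], ⟨(nat_lit 8), false, true, true, (nat_lit 348), (nat_lit 3162), (nat_lit 3536), [(nat_lit 1757209), (nat_lit 1754807), (nat_lit 1801098), (nat_lit 1799100), (nat_lit 1945521), (nat_lit 1937695), (nat_lit 1989413), (nat_lit 1981991)]⟩, ⟨(nat_lit 5), false, false, true, (nat_lit 198), (nat_lit 3162), (nat_lit 3536), [(nat_lit 1412188), (nat_lit 1411379), (nat_lit 1456093), (nat_lit 1455689), (nat_lit 1537711), (nat_lit 1533286), (nat_lit 1581616), (nat_lit 1577595)]⟩, (nat_lit 5405427), (nat_lit 32153242), (nat_lit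 24927856), (nat_lit 9918902), (nat_lit 7), (nat_lit 0), [], [], [⟨(nat_lit 1), (nat_lit 76), (nat_lit 82), (nat_lit 100), (nat_lit 440898929)⟩], [],
 ⟨⟨[(nat_lit 40), (nat_lit 80), (nat_lit 100)], [(nat_lit 0), (nat_lit 1195), (nat_lit 2166)], [((nat_lit 0), (nat_lit 0), (nat_lit 0)), ((nat_lit 1000), (nat_lit 720), (nat_lit 465)), ((nat_lit 1000), (nat_lit 662), (nat_lit 740))], ((nat_lit 67), (nat_lit 100), (nat_lit 64))⟩, (nat_lit 1959111), (nat_lit 215), (nat_lit 215), (nat_lit 0), (nat_lit 396328), [(nat_lit 1915516869), (nat_lit 3818343004), (nat_lit 4008659600)], [(nat_lit 0), (nat_lit 0), (nat_lit 0)], [(nat_lit 25112076270), (nat_lit 25647535394), (nat_lit 31022867637), (nat_lit 31511284102), (nat_lit 27268383018), (nat_lit 27732190978), (nat_lit 32598061882), (nat_lit 33020311480)], (nat_lit 1271251), (nat_lit 1271251), (nat_lit 1271251), (nat_lit 1271251), (nat_lit 1271251), (nat_lit 1271251), [(nat_lit 490000), (nat_lit 1100000), (nat_lit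 1442501)], [(nat_lit 3), (nat_lit 50), (nat_lit 203), (nat_lit 0), (nat_lit 5)]⟩,
 ⟨⟨[(nat_lit 40), (nat_lit 80), (nat_lit 120)], [(nat_lit 0), (nat_lit 0), (nat_lit 2151)], [((nat_lit 0), (nat_lit 0), (nat_lit 0)), ((nat_lit 0), (nat_lit 0), (nat_lit 0)), ((nat_lit 1000), (nat_lit 815), (nat_lit 753))], ((nat_lit 80), (nat_lit 100), (nat_lit 63))⟩, (nat_lit 1932950), (nat_lit 407), (nat_lit 407), (nat_lit 0), (nat_lit 910433), [(nat_lit 1851152000), (nat_lit 4270768000), (nat_lit 7258848000)], [], [(nat_lit 27695625440), (nat_lit 29036157556), (nat_lit 31040897320), (nat_lit 32517494929), (nat_lit 29206751710), (nat_lit 30368613180), (nat_lit 32652624182), (nat_lit 34199577526)], (nat_lit 1271251), (nat_lit 1271251), (nat_lit 1271251), (nat_lit 1271251), (nat_lit 1271251), (nat_lit 1271251), [(nat_lit 490000), (nat_lit 1100000), (nat_lit 1785001)], [(nat_lit 4), (nat_lit 51), (nat_lit 240), (nat_lit 0), (nat_lit 6)]⟩,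
 Rw.none⟩)))) (.stt (nat_lit 1) (.spl (nat_lit 3) (nat_lit 360) (.spl (nat_lit 1) (nat_lit 340) (.leaf ⟨(nat_lit 218), (nat_lit 782), (nat_lit 0), (nat_lit 0), (nat_lit 0), (nat_lit 3569), (nat_lit 4853), (nat_lit 0), (nat_lit 0), (nat_lit 0), (nat_lit 281000), [((nat_lit 360), [((nat_lit 22), (nat_lit 2), (nat_lit 197)), ((nat_lit 39), (nat_lit 5), (nat_lit 21))])], ⟨(nat_lit 8), false, true, false, (nat_lit 332), (nat_lit 3162), (nat_lit 3873), [(nat_lit 1759694), (nat_lit 1754728), (nat_lit 1781459), (nat_lit 1776854), (nat_lit 1888802), (nat_lit 1876699), (nat_lit 1910567), (nat_lit 1898826)]⟩, ⟨(nat_lit 7), false, false, true, (nat_lit 236), (nat_lit 3162), (nat_lit 3873), [(nat_lit 1541869), (nat_lit 1533286), (nat_lit 1585455), (nat_lit 1577595), (nat_lit 1606390), (nat_lit 1594239), (nat_lit 1649977), (nat_lit 1638549)]⟩, (nat_lit 5619308), (nat_lit 31533370), (nat_lit 22578331), (nat_lit 12888299), (nat_lit 7), (nat_lit 0), [], [⟨(nat_lit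 1), (nat_lit 96), (nat_lit 69), (nat_lit 100), (nat_lit 506467819)⟩], [⟨(nat_lit 1), (nat_lit 76), (nat_lit 82), (nat_lit 100), (nat_lit 271170061)⟩], [],
 ⟨⟨[(nat_lit 40), (nat_lit 80), (nat_lit 100)], [(nat_lit 0), (nat_lit 795), (nat_lit 1829)], [((nat_lit 0), (nat_lit 0), (nat_lit 0)), ((nat_lit 1000), (nat_lit 814), (nat_lit 310)), ((nat_lit 1000), (nat_lit 714), (nat_lit 692))], ((nat_lit 72), (nat_lit 100), (nat_lit 63))⟩, (nat_lit 2321787), (nat_lit 70), (nat_lit 70), (nat_lit 0), (nat_lit 0), [(nat_lit 1819886801), (nat_lit 3460474007), (nat_lit 4108108400)], [(nat_lit 0), (nat_lit 0), (nat_lit 0)], [(nat_lit 26454992046), (nat_lit 27358086248), (nat_lit 29713409059), (nat_lit 30619736026), (nat_lit 27805555750), (nat_lit 28807082092), (nat_lit 30948570783), (nat_lit 31780855129)], (nat_lit 0), (nat_lit 0), (nat_lit 0), (nat_lit 0), (nat_lit 0), (nat_lit 0), [], [(nat_lit 3), (nat_lit 50), (nat_lit 203), (nat_lit 0), (nat_lit 5)]⟩,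
 ⟨⟨[(nat_lit 40), (nat_lit 80), (nat_lit 120)], [(nat_lit 0), (nat_lit 0), (nat_lit 2151)], [((nat_lit 0), (nat_lit 0), (nat_lit 0)), ((nat_lit 0), (nat_lit 0), (nat_lit 0)), ((nat_lit 1000), (nat_lit 815), (nat_lit 753))], ((nat_lit 80), (nat_lit 100), (nat_lit 63))⟩, (nat_lit 1415284), (nat_lit 420), (nat_lit 420), (nat_lit 0), (nat_lit 891017), [(nat_lit 1589024000), (nat_lit 3666016000), (nat_lit 6230976000)], [], [(nat_lit 22173294738), (nat_lit 22804548196), (nat_lit 24190142912), (nat_lit 24787422955), (nat_lit 24730493205), (nat_lit 25232452016), (nat_lit 26422483019), (nat_lit 27188903495)], (nat_lit 1271251), (nat_lit 1271251), (nat_lit 1271251), (nat_lit 1271251), (nat_lit 1100000), (nat_lit 2641251), [(nat_lit 490000), (nat_lit 1100000), (nat_lit 1785001)], [(nat_lit 4), (nat_lit 51), (nat_lit 317), (nat_lit 100), (nat_lit 9)]⟩,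
 Rw.none⟩) (.trX (nat_lit 5) (nat_lit 1) (nat_lit 2) (nat_lit 73) (nat_lit 85) (nat_lit 100) (nat_lit 320) (.leaf ⟨(nat_lit 0), (nat_lit 1000), (nat_lit 0), (nat_lit 0), (nat_lit 0), (nat_lit 5009), (nat_lit 4548), (nat_lit 0), (nat_lit 262530), (nat_lit 0), (nat_lit 0), [], Pd.none, Pd.none, (nat_lit 0), (nat_lit 1), (nat_lit 0), (nat_lit 0), (nat_lit 7), (nat_lit 0), [], [⟨(nat_lit 1), (nat_lit 96), (nat_lit 69), (nat_lit 100), (nat_lit 553949322)⟩], [⟨(nat_lit 1), (nat_lit 85), (nat_lit 73), (nat_lit 100), (nat_lit 384561403)⟩], [],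
 ⟨⟨[(nat_lit 40), (nat_lit 80), (nat_lit 100)], [(nat_lit 0), (nat_lit 795), (nat_lit 1829)], [((nat_lit 0), (nat_lit 0), (nat_lit 0)), ((nat_lit 1000), (nat_lit 814), (nat_lit 310)), ((nat_lit 1000), (nat_lit 714), (nat_lit 692))], ((nat_lit 72), (nat_lit 100), (nat_lit 63))⟩, (nat_lit 715797), (nat_lit 70), (nat_lit 70), (nat_lit 0), (nat_lit 0), [(nat_lit 2249827687), (nat_lit 4688000104), (nat_lit 6250000000)], [], [(nat_lit 27918803973), (nat_lit 29021553076), (nat_lit 31308091006), (nat_lit 32220661786), (nat_lit 29401639109), (nat_lit 30405356585), (nat_lit 32499367983), (nat_lit 33444402169)], (nat_lit 0), (nat_lit 0), (nat_lit 0), (nat_lit 0), (nat_lit 0), (nat_lit 0), [], [(nat_lit 3), (nat_lit 50), (nat_lit 203), (nat_lit 0), (nat_lit 5)]⟩,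
 ⟨⟨[(nat_lit 40), (nat_lit 80), (nat_lit 100)], [(nat_lit 0), (nat_lit 795), (nat_lit 1829)], [((nat_lit 0), (nat_lit 0), (nat_lit 0)), ((nat_lit 1000), (nat_lit 814), (nat_lit 310)), ((nat_lit 1000), (nat_lit 714), (nat_lit 692))], ((nat_lit 72), (nat_lit 100), (nat_lit 63))⟩, (nat_lit 3250945), (nat_lit 389), (nat_lit 389), (nat_lit 0), (nat_lit 901127), [(nat_lit 2032000000), (nat_lit 4688000000), (nat_lit 6250000000)], [], [(nat_lit 25895615976), (nat_lit 26708365350), (nat_lit 28495325172), (nat_lit 29308851404), (nat_lit 28926995022), (nat_lit 29713311064), (nat_lit 32002897490), (nat_lit 32911836068)], (nat_lit 1271251), (nat_lit 1271251), (nat_lit 1271251), (nat_lit 1271251), (nat_lit 1100000), (nat_lit 2470001), [(nat_lit 490000), (nat_lit 1100000), (nat_lit 1442501)], [(nat_lit 3), (nat_lit 50), (nat_lit 317), (nat_lit 100), (nat_lit 10)]⟩,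
 Rw.none⟩))) (.leaf ⟨(nat_lit 0), (nat_lit 1000), (nat_lit 0), (nat_lit 0), (nat_lit 0), (nat_lit 3664), (nat_lit 5952), (nat_lit 0), (nat_lit 111543), (nat_lit 0), (nat_lit 0), [], Pd.none, Pd.none, (nat_lit 0), (nat_lit 1), (nat_lit 0), (nat_lit 0), (nat_lit 7), (nat_lit 0), [], [⟨(nat_lit 1), (nat_lit 96), (nat_lit 69), (nat_lit 100), (nat_lit 514357259)⟩], [⟨(nat_lit 1), (nat_lit 76), (nat_lit 82), (nat_lit 100), (nat_lit 318758510)⟩], [],
 ⟨⟨[(nat_lit 40), (nat_lit 80), (nat_lit 100)], [(nat_lit 0), (nat_lit 795), (nat_lit 1829)], [((nat_lit 0), (nat_lit 0), (nat_lit 0)), ((nat_lit 1000), (nat_lit 814), (nat_lit 310)), ((nat_lit 1000), (nat_lit 714), (nat_lit 692))], ((nat_lit 72), (nat_lit 100), (nat_lit 63))⟩, (nat_lit 3276972), (nat_lit 78), (nat_lit 78), (nat_lit 0), (nat_lit 0), [(nat_lit 2032000029), (nat_lit 4704965307), (nat_lit 6250000000)], [], [(nat_lit 29937729800), (nat_lit 30725411638), (nat_lit 31737558708), (nat_lit 32555684760),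 (nat_lit 31050880320), (nat_lit 31890603024), (nat_lit 32817616360), (nat_lit 33570048432)], (nat_lit 0), (nat_lit 0), (nat_lit 0), (nat_lit 0), (nat_lit 0), (nat_lit 0), [], [(nat_lit 3), (nat_lit 50), (nat_lit 203), (nat_lit 0), (nat_lit 5)]⟩,
 ⟨⟨[(nat_lit 40), (nat_lit 80), (nat_lit 120)], [(nat_lit 0), (nat_lit 0), (nat_lit 2151)], [((nat_lit 0), (nat_lit 0), (nat_lit 0)), ((nat_lit 0), (nat_lit 0), (nat_lit 0)), ((nat_lit 1000), (nat_lit 815), (nat_lit 753))], ((nat_lit 80), (nat_lit 100), (nat_lit 63))⟩, (nat_lit 1891302), (nat_lit 430), (nat_lit 430), (nat_lit 0), (nat_lit 910980), [(nat_lit 2032000000), (nat_lit 4688000000), (nat_lit 7968000000)], [], [(nat_lit 31781202752), (nat_lit 33283704088), (nat_lit 33445400032), (nat_lit 34786205424), (nat_lit 34489830012), (nat_lit 35528255294), (nat_lit 35679595480), (nat_lit 37363543688)], (nat_lit 1271251), (nat_lit 1271251), (nat_lit 1271251), (nat_lit 1271251), (nat_lit 1100000), (nat_lit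 2641251), [(nat_lit 490000), (nat_lit 1100000), (nat_lit 1785001)], [(nat_lit 4), (nat_lit 51), (nat_lit 317), (nat_lit 100), (nat_lit 9)]⟩,
 Rw.none⟩)) (.leaf ⟨(nat_lit 0), (nat_lit 586), (nat_lit 0), (nat_lit 414), (nat_lit 0), (nat_lit 4511), (nat_lit 5646), (nat_lit 4842), (nat_lit 24438309692951), (nat_lit 0), (nat_lit 0), [], Pd.none, Pd.none, (nat_lit 0), (nat_lit 1), (nat_lit 0), (nat_lit 0), (nat_lit 7), (nat_lit 0), [], [⟨(nat_lit 1), (nat_lit 96), (nat_lit 69), (nat_lit 100), (nat_lit 1654142477)⟩], [], [],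
 ⟨⟨[(nat_lit 40), (nat_lit 80), (nat_lit 100)], [(nat_lit 0), (nat_lit 795), (nat_lit 1829)], [((nat_lit 0), (nat_lit 0), (nat_lit 0)), ((nat_lit 1000), (nat_lit 814), (nat_lit 310)), ((nat_lit 1000), (nat_lit 714), (nat_lit 692))], ((nat_lit 72), (nat_lit 100), (nat_lit 63))⟩, (nat_lit 1897126), (nat_lit 206), (nat_lit 206), (nat_lit 0), (nat_lit 397616), [(nat_lit 2032000050), (nat_lit 4688000081), (nat_lit 6250000000)], [], [(nat_lit 28537505791), (nat_lit 29339584028), (nat_lit 32774432392), (nat_lit 33654955240), (nat_lit 29647037057), (nat_lit 30385244740), (nat_lit 33877099015), (nat_lit 34681175218)], (nat_lit 1271251), (nat_lit 1271251), (nat_lit 1271251), (nat_lit 1271251), (nat_lit 1271251), (nat_lit 1271251), [(nat_lit 490000), (nat_lit 1100000), (nat_lit 1442501)], [(nat_lit 3), (nat_lit 50), (nat_lit 203), (nat_lit 0), (nat_lit 5)]⟩,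
 ⟨⟨[(nat_lit 40), (nat_lit 80), (nat_lit 120)], [(nat_lit 0), (nat_lit 0), (nat_lit 2151)], [((nat_lit 0), (nat_lit 0), (nat_lit 0)), ((nat_lit 0), (nat_lit 0), (nat_lit 0)), ((nat_lit 1000), (nat_lit 815), (nat_lit 753))], ((nat_lit 80), (nat_lit 100), (nat_lit 63))⟩, (nat_lit 1780022), (nat_lit 252), (nat_lit 252), (nat_lit 0), (nat_lit 401781), [(nat_lit 2032000000), (nat_lit 4688000000), (nat_lit 7968000000)], [], [(nat_lit 26345225522), (nat_lit 28515066326), (nat_lit 31845380246), (nat_lit 33422261982), (nat_lit 30796676313), (nat_lit 32315995762), (nat_lit 35296830790), (nat_lit 36947592074)], (nat_lit 1271251), (nat_lit 1271251), (nat_lit 1271251), (nat_lit 1271251), (nat_lit 1100000), (nat_lit 2641251), [(nat_lit 490000), (nat_lit 1100000), (nat_lit 1785001)], [(nat_lit 4), (nat_lit 51), (nat_lit 317), (nat_lit 100), (nat_lit 9)]⟩,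
 ⟨⟨[(nat_lit 140), (nat_lit 180), (nat_lit 200)], [(nat_lit 0), (nat_lit 0), (nat_lit 2835)], [((nat_lit 0), (nat_lit 0), (nat_lit 0)), ((nat_lit 0), (nat_lit 0), (nat_lit 0)), ((nat_lit 363), (nat_lit 1000), (nat_lit 798))], ((nat_lit 0), (nat_lit 0), (nat_lit 0))⟩, (nat_lit 113905), (nat_lit 300), (nat_lit 979), (nat_lit 32333400), (nat_lit 1453042), [(nat_lit 4074588000), (nat_lit 5820012000), (nat_lit 6789600000)], [], [(nat_lit 24373658232), (nat_lit 23587834608), (nat_lit 24065565408), (nat_lit 23271130944), (nat_lit 22424227146), (nat_lit 21624076179), (nat_lit 22178299734), (nat_lit 21366906876)], (nat_lit 780000), (nat_lit 1100000), (nat_lit 1271251), (nat_lit 1271251), (nat_lit 1100000), (nat_lit 2641251), [(nat_lit 1977501), (nat_lit 1271251), (nat_lit 1271251)], [(nat_lit 32), (nat_lit 67), (nat_lit 456), (nat_lit 225), (nat_lit 9)]⟩⟩)))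
noncomputable def c9_14 : Tr Lf :=
 (.leaf ⟨(nat_lit 0), (nat_lit 823), (nat_lit 0), (nat_lit 177), (nat_lit 0), (nat_lit 4157), (nat_lit 6546), (nat_lit 1918), (nat_lit 12080), (nat_lit 0), (nat_lit 0), [], Pd.none, Pd.none, (nat_lit 0), (nat_lit 1), (nat_lit 0), (nat_lit 0), (nat_lit 5), (nat_lit 0), [⟨(nat_lit 0), (nat_lit 72), (nat_lit 66), (nat_lit 100), (nat_lit 144091945)⟩], [⟨(nat_lit 1), (nat_lit 85), (nat_lit 67), (nat_lit 100), (nat_lit 307069793)⟩], [⟨(nat_lit 1), (nat_lit 81), (nat_lit 72), (nat_lit 100), (nat_lit 265063196)⟩], [],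
 ⟨⟨[(nat_lit 40), (nat_lit 80), (nat_lit 100)], [(nat_lit 0), (nat_lit 795), (nat_lit 1829)], [((nat_lit 0), (nat_lit 0), (nat_lit 0)), ((nat_lit 1000), (nat_lit 814), (nat_lit 310)), ((nat_lit 1000), (nat_lit 714), (nat_lit 692))], ((nat_lit 72), (nat_lit 100), (nat_lit 63))⟩, (nat_lit 3887809), (nat_lit 198), (nat_lit 198), (nat_lit 0), (nat_lit 344845), [(nat_lit 2032000002), (nat_lit 4737818824), (nat_lit 6250000000)], [], [(nat_lit 21341871215), (nat_lit 22557695045), (nat_lit 30707694039), (nat_lit 31697670637), (nat_lit 26011036667), (nat_lit 27047572123), (nat_lit 33806611125), (nat_lit 34570175325)], (nat_lit 1271251), (nat_lit 1271251), (nat_lit 1100000), (nat_lit 3155001), (nat_lit 1271251), (nat_lit 1271251), [(nat_lit 490000), (nat_lit 1100000), (nat_lit 1442501)], [(nat_lit 3), (nat_lit 50), (nat_lit 317), (nat_lit 100), (nat_lit 11)]⟩,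
 ⟨⟨[(nat_lit 40), (nat_lit 80), (nat_lit 120)], [(nat_lit 0), (nat_lit 0), (nat_lit 2151)], [((nat_lit 0), (nat_lit 0), (nat_lit 0)), ((nat_lit 0), (nat_lit 0), (nat_lit 0)), ((nat_lit 1000), (nat_lit 815), (nat_lit 753))], ((nat_lit 80), (nat_lit 100), (nat_lit 63))⟩, (nat_lit 2170044), (nat_lit 398), (nat_lit 398), (nat_lit 0), (nat_lit 789586), [(nat_lit 2032000000), (nat_lit 4688000000), (nat_lit 7968000000)], [], [(nat_lit 24008996780), (nat_lit 26201429664), (nat_lit 32125843304), (nat_lit 34750690240), (nat_lit 29364333336), (nat_lit 30969425138), (nat_lit 36886687419), (nat_lit 38581085987)], (nat_lit 1271251), (nat_lit 1271251), (nat_lit 1271251), (nat_lit 1271251), (nat_lit 1100000), (nat_lit 2726876), [(nat_lit 490000), (nat_lit 1100000), (nat_lit 1785001)], [(nat_lit 4), (nat_lit 51), (nat_lit 428), (nat_lit 200), (nat_lit 13)]⟩,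
 ⟨⟨[(nat_lit 120), (nat_lit 160), (nat_lit 180)], [(nat_lit 0), (nat_lit 0), (nat_lit 1613)], [((nat_lit 0), (nat_lit 0), (nat_lit 0)), ((nat_lit 0), (nat_lit 0), (nat_lit 0)), ((nat_lit 620), (nat_lit 1000), (nat_lit 670))], ((nat_lit 100), (nat_lit 65), (nat_lit 64))⟩, (nat_lit 116949), (nat_lit 300), (nat_lit 1718), (nat_lit 13133400), (nat_lit 3109890), [(nat_lit 1410336000), (nat_lit 2101344000), (nat_lit 2488266000)], [], [(nat_lit 9745098110), (nat_lit 9628982424), (nat_lit 9099524715), (nat_lit 8982265332), (nat_lit 8791362876), (nat_lit 8680889633), (nat_lit 8305761226), (nat_lit 8196503443)], (nat_lit 1100000), (nat_lit 1271251), (nat_lit 1271251), (nat_lit 1271251), (nat_lit 1100000), (nat_lit 2726876), [(nat_lit 1695001), (nat_lit 1271251), (nat_lit 1271251)], [(nat_lit 28), (nat_lit 65), (nat_lit 537), (nat_lit 225), (nat_lit 12)]⟩⟩)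
noncomputable def c9_15 : Tr Lf :=
 (.trZ (nat_lit 1) (nat_lit 2) (nat_lit 5) (nat_lit 100) (nat_lit 80) (nat_lit 52) (nat_lit 20) (.spl (nat_lit 4) (nat_lit 280) (.leaf ⟨(nat_lit 0), (nat_lit 727), (nat_lit 0), (nat_lit 273), (nat_lit 0), (nat_lit 3910), (nat_lit 6237), (nat_lit 2457), (nat_lit 899289), (nat_lit 0), (nat_lit 0), [], Pd.none, Pd.none, (nat_lit 0), (nat_lit 1), (nat_lit 0), (nat_lit 0), (nat_lit 5), (nat_lit 0), [], [], [⟨(nat_lit 1), (nat_lit 66), (nat_lit 72), (nat_lit 100), (nat_lit 20794936)⟩], [],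
 ⟨⟨[(nat_lit 40), (nat_lit 80), (nat_lit 100)], [(nat_lit 0), (nat_lit 795), (nat_lit 1829)], [((nat_lit 0), (nat_lit 0), (nat_lit 0)), ((nat_lit 1000), (nat_lit 814), (nat_lit 310)), ((nat_lit 1000), (nat_lit 714), (nat_lit 692))], ((nat_lit 72), (nat_lit 100), (nat_lit 63))⟩, (nat_lit 3879479), (nat_lit 187), (nat_lit 187), (nat_lit 0), (nat_lit 327356), [(nat_lit 2032000144), (nat_lit 4688000784), (nat_lit 6250000000)], [], [(nat_lit 21984293611), (nat_lit 23164008511), (nat_lit 30560601446), (nat_lit 31358036236), (nat_lit 24547786581), (nat_lit 25567558851), (nat_lit 32072479391), (nat_lit 32874953400)], (nat_lit 1271251), (nat_lit 1271251), (nat_lit 1100000), (nat_lit 3155001), (nat_lit 1271251), (nat_lit 1271251), [(nat_lit 490000), (nat_lit 1100000), (nat_lit 1442501)], [(nat_lit 3), (nat_lit 50), (nat_lit 317), (nat_lit 100), (nat_lit 11)]⟩,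
 ⟨⟨[(nat_lit 40), (nat_lit 80), (nat_lit 120)], [(nat_lit 0), (nat_lit 0), (nat_lit 2151)], [((nat_lit 0), (nat_lit 0), (nat_lit 0)), ((nat_lit 0), (nat_lit 0), (nat_lit 0)), ((nat_lit 1000), (nat_lit 815), (nat_lit 753))], ((nat_lit 80), (nat_lit 100), (nat_lit 63))⟩, (nat_lit 2114377), (nat_lit 475), (nat_lit 475), (nat_lit 0), (nat_lit 749196), [(nat_lit 2032000000), (nat_lit 4688000000), (nat_lit 7968000000)], [], [(nat_lit 32951663706), (nat_lit 31363214075), (nat_lit 37326266949), (nat_lit 40222508133), (nat_lit 33433113590), (nat_lit 34615764663), (nat_lit 48631101520), (nat_lit 43466901383)], (nat_lit 1271251), (nat_lit 1271251), (nat_lit 1100000), (nat_lit 3155001), (nat_lit 111251), (nat_lit 2793751), [(nat_lit 490000), (nat_lit 1100000), (nat_lit 1785001)], [(nat_lit 4), (nat_lit 51), (nat_lit 428), (nat_lit 200), (nat_lit 14)]⟩,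
 ⟨⟨[(nat_lit 120), (nat_lit 160), (nat_lit 180)], [(nat_lit 0), (nat_lit 533), (nat_lit 2066)], [((nat_lit 0), (nat_lit 0), (nat_lit 0)), ((nat_lit 960), (nat_lit 1000), (nat_lit 200)), ((nat_lit 615), (nat_lit 1000), (nat_lit 729))], ((nat_lit 100), (nat_lit 72), (nat_lit 63))⟩, (nat_lit 639220), (nat_lit 300), (nat_lit 1456), (nat_lit 18127200), (nat_lit 2403404), [(nat_lit 2175264000), (nat_lit 3241056000), (nat_lit 3837834000)], [], [(nat_lit 18315608835), (nat_lit 17890422405), (nat_lit 17817936226), (nat_lit 17388253497), (nat_lit 17460409188), (nat_lit 15136262731), (nat_lit 15051289674), (nat_lit 14615512985)], (nat_lit 1271251), (nat_lit 1271251), (nat_lit 1271251), (nat_lit 1271251), (nat_lit 111251), (nat_lit 2793751), [(nat_lit 1695001), (nat_lit 1271251), (nat_lit 1271251)], [(nat_lit 28), (nat_lit 65), (nat_lit 483), (nat_lit 250), (nat_lit 11)]⟩⟩) (.leaf ⟨(nat_lit 0), (nat_lit 716), (nat_lit 0), (nat_lit 284), (nat_lit 0), (nat_lit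 3974), (nat_lit 6430), (nat_lit 2721), (nat_lit 5470), (nat_lit 0), (nat_lit 0), [], Pd.none, Pd.none, (nat_lit 0), (nat_lit 1), (nat_lit 0), (nat_lit 0), (nat_lit 7), (nat_lit 0), [], [⟨(nat_lit 1), (nat_lit 72), (nat_lit 66), (nat_lit 100), (nat_lit 322536465)⟩], [], [],
 ⟨⟨[(nat_lit 40), (nat_lit 80), (nat_lit 100)], [(nat_lit 0), (nat_lit 795), (nat_lit 1829)], [((nat_lit 0), (nat_lit 0), (nat_lit 0)), ((nat_lit 1000), (nat_lit 814), (nat_lit 310)), ((nat_lit 1000), (nat_lit 714), (nat_lit 692))], ((nat_lit 72), (nat_lit 100), (nat_lit 63))⟩, (nat_lit 3965429), (nat_lit 184), (nat_lit 184), (nat_lit 0), (nat_lit 327356), [(nat_lit 2032000001), (nat_lit 4709709817), (nat_lit 6250000000)], [], [(nat_lit 24333000903), (nat_lit 25386853626), (nat_lit 32117052028), (nat_lit 32958015160), (nat_lit 28392508914), (nat_lit 29313872325), (nat_lit 35042167255), (nat_lit 35721949447)], (nat_lit 1271251), (nat_lit 1271251), (nat_lit 1100000), (nat_lit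 3155001), (nat_lit 1271251), (nat_lit 1271251), [(nat_lit 490000), (nat_lit 1100000), (nat_lit 1442501)], [(nat_lit 3), (nat_lit 50), (nat_lit 317), (nat_lit 100), (nat_lit 10)]⟩,
 ⟨⟨[(nat_lit 40), (nat_lit 80), (nat_lit 120)], [(nat_lit 0), (nat_lit 0), (nat_lit 2151)], [((nat_lit 0), (nat_lit 0), (nat_lit 0)), ((nat_lit 0), (nat_lit 0), (nat_lit 0)), ((nat_lit 1000), (nat_lit 815), (nat_lit 753))], ((nat_lit 80), (nat_lit 100), (nat_lit 63))⟩, (nat_lit 2164433), (nat_lit 475), (nat_lit 475), (nat_lit 0), (nat_lit 749196), [(nat_lit 2032000000), (nat_lit 4688000000), (nat_lit 7968000000)], [], [(nat_lit 33144497340), (nat_lit 30686937250), (nat_lit 37814977110), (nat_lit 40760673675), (nat_lit 32631405100), (nat_lit 33830820873), (nat_lit 48739253605), (nat_lit 43415250578)], (nat_lit 1271251), (nat_lit 1271251), (nat_lit 1100000), (nat_lit 3155001), (nat_lit 111251), (nat_lit 2793751), [(nat_lit 490000), (nat_lit 1100000), (nat_lit 1785001)],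 [(nat_lit 4), (nat_lit 51), (nat_lit 428), (nat_lit 200), (nat_lit 14)]⟩,
 ⟨⟨[(nat_lit 120), (nat_lit 160), (nat_lit 180)], [(nat_lit 0), (nat_lit 533), (nat_lit 2066)], [((nat_lit 0), (nat_lit 0), (nat_lit 0)), ((nat_lit 960), (nat_lit 1000), (nat_lit 200)), ((nat_lit 615), (nat_lit 1000), (nat_lit 729))], ((nat_lit 100), (nat_lit 72), (nat_lit 63))⟩, (nat_lit 691468), (nat_lit 300), (nat_lit 1416), (nat_lit 18857600), (nat_lit 2403404), [(nat_lit 2262912000), (nat_lit 3371648000), (nat_lit 3992472000)], [], [(nat_lit 16798173662), (nat_lit 16319776032), (nat_lit 16388724494), (nat_lit 15896356360), (nat_lit 13680234662), (nat_lit 13187420844), (nat_lit 13251726783), (nat_lit 12780513219)], (nat_lit 1271251), (nat_lit 1271251), (nat_lit 1271251), (nat_lit 1271251), (nat_lit 111251), (nat_lit 2793751), [(nat_lit 1695001), (nat_lit 1271251), (nat_lit 1271251)], [(nat_lit 28), (nat_lit 65), (nat_lit 483), (nat_lit 250), (nat_lit 11)]⟩⟩)))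
noncomputable def c9_16 : Tr Lf :=
 (.trX (nat_lit 4) (nat_lit 0) (nat_lit 2) (nat_lit 72) (nat_lit 77) (nat_lit 100) (nat_lit 330) (.trX (nat_lit 5) (nat_lit 1) (nat_lit 2) (nat_lit 80) (nat_lit 68) (nat_lit 100) (nat_lit 350) (.spl (nat_lit 5) (nat_lit 160) (.spl (nat_lit 1) (nat_lit 340) (.leaf ⟨(nat_lit 0), (nat_lit 1000), (nat_lit 0), (nat_lit 0), (nat_lit 0), (nat_lit 5254), (nat_lit 8029), (nat_lit 0), (nat_lit 0), (nat_lit 0), (nat_lit 0), [], Pd.none, Pd.none, (nat_lit 0), (nat_lit 1), (nat_lit 0), (nat_lit 0), (nat_lit 5), (nat_lit 0), [], [⟨(nat_lit 1), (nat_lit 92), (nat_lit 68), (nat_lit 100), (nat_lit 496473457)⟩], [], [⟨(nat_lit 0), (nat_lit 100), (nat_lit 97), (nat_lit 71), (nat_lit 26209778)⟩],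
 ⟨⟨[(nat_lit 40), (nat_lit 80), (nat_lit 120)], [(nat_lit 0), (nat_lit 795), (nat_lit 2800)], [((nat_lit 0), (nat_lit 0), (nat_lit 0)), ((nat_lit 1000), (nat_lit 814), (nat_lit 310)), ((nat_lit 1000), (nat_lit 719), (nat_lit 783))], ((nat_lit 73), (nat_lit 100), (nat_lit 85))⟩, (nat_lit 1633984), (nat_lit 253), (nat_lit 253), (nat_lit 0), (nat_lit 433893), [(nat_lit 2104325304), (nat_lit 4688000045), (nat_lit 7968000000)], [], [(nat_lit 23744470776), (nat_lit 24970429633), (nat_lit 32115452747), (nat_lit 33212233814), (nat_lit 27917479929), (nat_lit 28849338318), (nat_lit 35208553539), (nat_lit 36035304939)], (nat_lit 1271251), (nat_lit 1271251), (nat_lit 1100000), (nat_lit 3155001), (nat_lit 1271251), (nat_lit 1271251), [(nat_lit 490000), (nat_lit 1100000), (nat_lit 1785001)], [(nat_lit 4), (nat_lit 51), (nat_lit 428), (nat_lit 200), (nat_lit 13)]⟩,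
 ⟨⟨[(nat_lit 40), (nat_lit 100), (nat_lit 140)], [(nat_lit 0), (nat_lit 0), (nat_lit 3243)], [((nat_lit 0), (nat_lit 0), (nat_lit 0)), ((nat_lit 0), (nat_lit 0), (nat_lit 0)), ((nat_lit 1000), (nat_lit 870), (nat_lit 941))], ((nat_lit 85), (nat_lit 100), (nat_lit 88))⟩, (nat_lit 1213365), (nat_lit 438), (nat_lit 438), (nat_lit 0), (nat_lit 492524), [(nat_lit 2032000000), (nat_lit 6250000000), (nat_lit 9842000000)], [], [(nat_lit 32026926180), (nat_lit 32302702457), (nat_lit 43736902344), (nat_lit 45429380914), (nat_lit 26063256213), (nat_lit 27169421838), (nat_lit 41033642340), (nat_lit 37555808729)], (nat_lit 1271251), (nat_lit 1271251), (nat_lit 1100000), (nat_lit 3155001), (nat_lit 0), (nat_lit 1100000), [(nat_lit 490000), (nat_lit 1427501), (nat_lit 1271251)], [(nat_lit 5), (nat_lit 55), (nat_lit 373), (nat_lit 150), (nat_lit 10)]⟩,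
 Rw.none⟩) (.trZ (nat_lit 0) (nat_lit 1) (nat_lit 3) (nat_lit 71) (nat_lit 71) (nat_lit 100) (nat_lit 190) (.trZ (nat_lit 1) (nat_lit 2) (nat_lit 5) (nat_lit 100) (nat_lit 78) (nat_lit 39) (nat_lit 10) (.leaf ⟨(nat_lit 0), (nat_lit 1000), (nat_lit 0), (nat_lit 0), (nat_lit 0), (nat_lit 6003), (nat_lit 6003), (nat_lit 0), (nat_lit 8658935668868), (nat_lit 0), (nat_lit 0), [], Pd.none, Pd.none, (nat_lit 0), (nat_lit 1), (nat_lit 0), (nat_lit 0), (nat_lit 5), (nat_lit 0), [], [⟨(nat_lit 1), (nat_lit 92), (nat_lit 68), (nat_lit 100), (nat_lit 427225640)⟩], [], [⟨(nat_lit 0), (nat_lit 100), (nat_lit 93), (nat_lit 78), (nat_lit 45632439)⟩],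
 ⟨⟨[(nat_lit 40), (nat_lit 80), (nat_lit 120)], [(nat_lit 0), (nat_lit 795), (nat_lit 2800)], [((nat_lit 0), (nat_lit 0), (nat_lit 0)), ((nat_lit 1000), (nat_lit 814), (nat_lit 310)), ((nat_lit 1000), (nat_lit 719), (nat_lit 783))], ((nat_lit 73), (nat_lit 100), (nat_lit 85))⟩, (nat_lit 818588), (nat_lit 286), (nat_lit 286), (nat_lit 0), (nat_lit 543531), [(nat_lit 2250965793), (nat_lit 4688000003), (nat_lit 7968000000)], [], [(nat_lit 27011632837), (nat_lit 28064033791), (nat_lit 33896700284), (nat_lit 34774817192), (nat_lit 30381921977), (nat_lit 31180953725), (nat_lit 36165759436), (nat_lit 37035653236)], (nat_lit 1271251), (nat_lit 1271251), (nat_lit 1271251), (nat_lit 1271251), (nat_lit 1271251), (nat_lit 1271251), [(nat_lit 490000), (nat_lit 1100000), (nat_lit 1785001)], [(nat_lit 4), (nat_lit 51), (nat_lit 428), (nat_lit 200), (nat_lit 13)]⟩,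
 ⟨⟨[(nat_lit 40), (nat_lit 80), (nat_lit 120)], [(nat_lit 0), (nat_lit 795), (nat_lit 2800)], [((nat_lit 0), (nat_lit 0), (nat_lit 0)), ((nat_lit 1000), (nat_lit 814), (nat_lit 310)), ((nat_lit 1000), (nat_lit 719), (nat_lit 783))], ((nat_lit 73), (nat_lit 100), (nat_lit 85))⟩, (nat_lit 2002159), (nat_lit 391), (nat_lit 391), (nat_lit 0), (nat_lit 543531), [(nat_lit 2032000000), (nat_lit 4688000000), (nat_lit 7968000000)], [], [(nat_lit 24460562689), (nat_lit 26751220769), (nat_lit 38825511299), (nat_lit 40249809228), (nat_lit 21661642919), (nat_lit 22609029114), (nat_lit 32694855246), (nat_lit 33948440320)], (nat_lit 1271251), (nat_lit 1271251), (nat_lit 1271251), (nat_lit 1271251), (nat_lit 54688), (nat_lit 1100000), [(nat_lit 490000), (nat_lit 1100000), (nat_lit 1785001)], [(nat_lit 4), (nat_lit 51), (nat_lit 373), (nat_lit 150), (nat_lit 12)]⟩,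
 Rw.none⟩)))) (.spl (nat_lit 2) (nat_lit 160) (.trX (nat_lit 4) (nat_lit 0) (nat_lit 2) (nat_lit 73) (nat_lit 85) (nat_lit 100) (nat_lit 320) (.trX (nat_lit 5) (nat_lit 1) (nat_lit 2) (nat_lit 82) (nat_lit 76) (nat_lit 100) (nat_lit 340) (.stt (nat_lit 2) (.spl (nat_lit 1) (nat_lit 340) (.leaf ⟨(nat_lit 0), (nat_lit 1000), (nat_lit 0), (nat_lit 0), (nat_lit 2576), (nat_lit 5188), (nat_lit 7751), (nat_lit 0), (nat_lit 0), (nat_lit 0), (nat_lit 0), [], Pd.none, Pd.none, (nat_lit 0), (nat_lit 1), (nat_lit 0), (nat_lit 0), (nat_lit 5), (nat_lit 0), [⟨(nat_lit 0), (nat_lit 81), (nat_lit 72), (nat_lit 100), (nat_lit 35171716)⟩], [⟨(nat_lit 1), (nat_lit 85), (nat_lit 73), (nat_lit 100), (nat_lit 501403261)⟩], [⟨(nat_lit 1), (nat_lit 76), (nat_lit 82), (nat_lit 100), (nat_lit 408045342)⟩], [],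
 ⟨⟨[(nat_lit 40), (nat_lit 80), (nat_lit 120)], [(nat_lit 0), (nat_lit 795), (nat_lit 2800)], [((nat_lit 0), (nat_lit 0), (nat_lit 0)), ((nat_lit 1000), (nat_lit 814), (nat_lit 310)), ((nat_lit 1000), (nat_lit 719), (nat_lit 783))], ((nat_lit 73), (nat_lit 100), (nat_lit 85))⟩, (nat_lit 2018665), (nat_lit 253), (nat_lit 253), (nat_lit 0), (nat_lit 433893), [(nat_lit 2044656598), (nat_lit 4688000061), (nat_lit 7968000000)], [], [(nat_lit 22477065182), (nat_lit 23695006082), (nat_lit 32030756234), (nat_lit 33121111508), (nat_lit 26185651010), (nat_lit 27421693528), (nat_lit 34723934620), (nat_lit 35569289544)], (nat_lit 1271251), (nat_lit 1271251), (nat_lit 1100000), (nat_lit 3155001), (nat_lit 1271251), (nat_lit 1271251), [(nat_lit 490000), (nat_lit 1100000), (nat_lit 1785001)], [(nat_lit 4), (nat_lit 51), (nat_lit 428), (nat_lit 200), (nat_lit 13)]⟩,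
 ⟨⟨[(nat_lit 40), (nat_lit 100), (nat_lit 140)], [(nat_lit 0), (nat_lit 0), (nat_lit 3243)], [((nat_lit 0), (nat_lit 0), (nat_lit 0)), ((nat_lit 0), (nat_lit 0), (nat_lit 0)), ((nat_lit 1000), (nat_lit 870), (nat_lit 941))], ((nat_lit 85), (nat_lit 100), (nat_lit 88))⟩, (nat_lit 0), (nat_lit 96), (nat_lit 96), (nat_lit 0), (nat_lit 0), [(nat_lit 2032000000), (nat_lit 6250000000), (nat_lit 9842000000)], [], [(nat_lit 18997590264), (nat_lit 21155948299), (nat_lit 33645015724), (nat_lit 35088010582), (nat_lit 27930950247), (nat_lit 29720106844), (nat_lit 37929901615), (nat_lit 38869430092)], (nat_lit 0), (nat_lit 0), (nat_lit 0), (nat_lit 0), (nat_lit 0), (nat_lit 0), [], [(nat_lit 5), (nat_lit 55), (nat_lit 428), (nat_lit 200), (nat_lit 11)]⟩,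
 Rw.none⟩) (.trZ (nat_lit 0) (nat_lit 1) (nat_lit 3) (nat_lit 71) (nat_lit 71) (nat_lit 100) (nat_lit 190) (.trX (nat_lit 5) (nat_lit 1) (nat_lit 2) (nat_lit 73) (nat_lit 85) (nat_lit 100) (nat_lit 320) (.leaf ⟨(nat_lit 0), (nat_lit 1000), (nat_lit 0), (nat_lit 0), (nat_lit 0), (nat_lit 5044), (nat_lit 8894), (nat_lit 0), (nat_lit 7299504258749), (nat_lit 0), (nat_lit 0), [], Pd.none, Pd.none, (nat_lit 0), (nat_lit 1), (nat_lit 0), (nat_lit 0), (nat_lit 5), (nat_lit 0), [], [⟨(nat_lit 1), (nat_lit 85), (nat_lit 73), (nat_lit 100), (nat_lit 447394178)⟩], [⟨(nat_lit 1), (nat_lit 85), (nat_lit 73), (nat_lit 100), (nat_lit 385770273)⟩], [],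
 ⟨⟨[(nat_lit 40), (nat_lit 80), (nat_lit 120)], [(nat_lit 0), (nat_lit 795), (nat_lit 2800)], [((nat_lit 0), (nat_lit 0), (nat_lit 0)), ((nat_lit 1000), (nat_lit 814), (nat_lit 310)), ((nat_lit 1000), (nat_lit 719), (nat_lit 783))], ((nat_lit 73), (nat_lit 100), (nat_lit 85))⟩, (nat_lit 2103106), (nat_lit 286), (nat_lit 286), (nat_lit 0), (nat_lit 543531), [(nat_lit 2032000667), (nat_lit 4688000045), (nat_lit 7968000000)], [], [(nat_lit 24129415279), (nat_lit 25037122202), (nat_lit 31845963842), (nat_lit 32922299204), (nat_lit 26891786741), (nat_lit 27837145333), (nat_lit 34543810060), (nat_lit 35380384872)], (nat_lit 1271251), (nat_lit 1271251), (nat_lit 1271251), (nat_lit 1271251), (nat_lit 1271251), (nat_lit 1271251), [(nat_lit 490000), (nat_lit 1100000), (nat_lit 1785001)], [(nat_lit 4), (nat_lit 51), (nat_lit 428), (nat_lit 200), (nat_lit 13)]⟩,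
 ⟨⟨[(nat_lit 40), (nat_lit 80), (nat_lit 120)], [(nat_lit 0), (nat_lit 795), (nat_lit 2800)], [((nat_lit 0), (nat_lit 0), (nat_lit 0)), ((nat_lit 1000), (nat_lit 814), (nat_lit 310)), ((nat_lit 1000), (nat_lit 719), (nat_lit 783))], ((nat_lit 73), (nat_lit 100), (nat_lit 85))⟩, (nat_lit 0), (nat_lit 109), (nat_lit 109), (nat_lit 0), (nat_lit 0), [(nat_lit 2032000000), (nat_lit 4688000000), (nat_lit 7968000000)], [], [(nat_lit 24476404169), (nat_lit 26527995849), (nat_lit 36652871308), (nat_lit 38219719360), (nat_lit 30253467567), (nat_lit 31666575895), (nat_lit 39359640310), (nat_lit 40430961172)], (nat_lit 0), (nat_lit 0), (nat_lit 0), (nat_lit 0), (nat_lit 0), (nat_lit 0), [], [(nat_lit 4), (nat_lit 51), (nat_lit 428), (nat_lit 200), (nat_lit 13)]⟩,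
 Rw.none⟩)))) (.spl (nat_lit 0) (nat_lit 350) (.ord (.leaf ⟨(nat_lit 0), (nat_lit 882), (nat_lit 0), (nat_lit 118), (nat_lit 0), (nat_lit 5976), (nat_lit 7742), (nat_lit 1353), (nat_lit 123116), (nat_lit 0), (nat_lit 0), [], Pd.none, Pd.none, (nat_lit 0), (nat_lit 1), (nat_lit 0), (nat_lit 0), (nat_lit 5), (nat_lit 0), [], [⟨(nat_lit 1), (nat_lit 94), (nat_lit 72), (nat_lit 100), (nat_lit 414800685)⟩], [⟨(nat_lit 1), (nat_lit 91), (nat_lit 77), (nat_lit 100), (nat_lit 297725493)⟩], [],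
 ⟨⟨[(nat_lit 40), (nat_lit 80), (nat_lit 120)], [(nat_lit 0), (nat_lit 795), (nat_lit 2800)], [((nat_lit 0), (nat_lit 0), (nat_lit 0)), ((nat_lit 1000), (nat_lit 814), (nat_lit 310)), ((nat_lit 1000), (nat_lit 719), (nat_lit 783))], ((nat_lit 73), (nat_lit 100), (nat_lit 85))⟩, (nat_lit 1673167), (nat_lit 167), (nat_lit 167), (nat_lit 0), (nat_lit 218831), [(nat_lit 2363690890), (nat_lit 4688000116), (nat_lit 7968000000)], [], [(nat_lit 22339316543), (nat_lit 22996423943), (nat_lit 33041981268), (nat_lit 33625518942), (nat_lit 26756495840), (nat_lit 27353089976), (nat_lit 35709616240), (nat_lit 36156317064)], (nat_lit 1271251), (nat_lit 1271251), (nat_lit 1100000), (nat_lit 3155001), (nat_lit 1271251), (nat_lit 1271251), [(nat_lit 490000), (nat_lit 1100000), (nat_lit 1785001)], [(nat_lit 4), (nat_lit 51), (nat_lit 428), (nat_lit 200), (nat_lit 13)]⟩,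
 ⟨⟨[(nat_lit 40), (nat_lit 100), (nat_lit 140)], [(nat_lit 0), (nat_lit 0), (nat_lit 3243)], [((nat_lit 0), (nat_lit 0), (nat_lit 0)), ((nat_lit 0), (nat_lit 0), (nat_lit 0)), ((nat_lit 1000), (nat_lit 870), (nat_lit 941))], ((nat_lit 85), (nat_lit 100), (nat_lit 88))⟩, (nat_lit 1514651), (nat_lit 304), (nat_lit 304), (nat_lit 0), (nat_lit 461858), [(nat_lit 2032000000), (nat_lit 6250000000), (nat_lit 9842000000)], [], [(nat_lit 23796428479), (nat_lit 25891098505), (nat_lit 33633669208), (nat_lit 35796698662), (nat_lit 29021096467), (nat_lit 30605975447), (nat_lit 37918643830), (nat_lit 39327204481)], (nat_lit 1271251), (nat_lit 1271251), (nat_lit 1271251), (nat_lit 1271251), (nat_lit 1100000), (nat_lit 2641251), [(nat_lit 490000), (nat_lit 1427501), (nat_lit 1271251)], [(nat_lit 5), (nat_lit 55), (nat_lit 428), (nat_lit 200), (nat_lit 11)]⟩,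
 ⟨⟨[(nat_lit 140), (nat_lit 180), (nat_lit 200)], [(nat_lit 0), (nat_lit 0), (nat_lit 2835)], [((nat_lit 0), (nat_lit 0), (nat_lit 0)), ((nat_lit 0), (nat_lit 0), (nat_lit 0)), ((nat_lit 363), (nat_lit 1000), (nat_lit 798))], ((nat_lit 0), (nat_lit 0), (nat_lit 0))⟩, (nat_lit 32466), (nat_lit 300), (nat_lit 1711), (nat_lit 9215800), (nat_lit 2931513), [(nat_lit 1161356000), (nat_lit 1658844000), (nat_lit 1935200000)], [], [(nat_lit 7381544582), (nat_lit 7163485108), (nat_lit 6983219192), (nat_lit 6762584184), (nat_lit 6792816944), (nat_lit 6569865779), (nat_lit 6414540121), (nat_lit 6188106329)], (nat_lit 780000), (nat_lit 1100000), (nat_lit 1271251), (nat_lit 1271251), (nat_lit 1100000), (nat_lit 2641251), [(nat_lit 1977501), (nat_lit 1271251), (nat_lit 1271251)], [(nat_lit 32), (nat_lit 67), (nat_lit 531), (nat_lit 225), (nat_lit 11)]⟩⟩)) (.trZ (nat_lit 0) (nat_lit 1) (nat_lit 3) (nat_lit 80) (nat_lit 66) (nat_lit 100) (nat_lit 180) (.trX (nat_lit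 4) (nat_lit 0) (nat_lit 2) (nat_lit 68) (nat_lit 89) (nat_lit 100) (nat_lit 300) (.leaf ⟨(nat_lit 0), (nat_lit 896), (nat_lit 0), (nat_lit 104), (nat_lit 0), (nat_lit 4316), (nat_lit 7659), (nat_lit 1204), (nat_lit 93494552723), (nat_lit 0), (nat_lit 0), [], Pd.none, Pd.none, (nat_lit 0), (nat_lit 1), (nat_lit 0), (nat_lit 0), (nat_lit 5), (nat_lit 0), [⟨(nat_lit 0), (nat_lit 63), (nat_lit 63), (nat_lit 100), (nat_lit 78251147)⟩], [⟨(nat_lit 1), (nat_lit 97), (nat_lit 66), (nat_lit 100), (nat_lit 353761606)⟩], [⟨(nat_lit 1), (nat_lit 92), (nat_lit 75), (nat_lit 100), (nat_lit 280064346)⟩], [],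
 ⟨⟨[(nat_lit 40), (nat_lit 80), (nat_lit 120)], [(nat_lit 0), (nat_lit 1195), (nat_lit 3135)], [((nat_lit 0), (nat_lit 0), (nat_lit 0)), ((nat_lit 1000), (nat_lit 720), (nat_lit 465)), ((nat_lit 1000), (nat_lit 661), (nat_lit 757))], ((nat_lit 67), (nat_lit 100), (nat_lit 84))⟩, (nat_lit 2200332), (nat_lit 179), (nat_lit 179), (nat_lit 0), (nat_lit 258201), [(nat_lit 2032000011), (nat_lit 4688000013), (nat_lit 7968000000)], [], [(nat_lit 23046568982), (nat_lit 23553114977), (nat_lit 31414464097), (nat_lit 31917192556), (nat_lit 25617782462), (nat_lit 26038672204), (nat_lit 33499035610), (nat_lit 33913621624)], (nat_lit 1271251), (nat_lit 1271251), (nat_lit 1271251), (nat_lit 1271251), (nat_lit 1271251), (nat_lit 1271251), [(nat_lit 490000), (nat_lit 1100000), (nat_lit 1785001)], [(nat_lit 4), (nat_lit 51), (nat_lit 401), (nat_lit 175), (nat_lit 12)]⟩,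
 ⟨⟨[(nat_lit 40), (nat_lit 100), (nat_lit 140)], [(nat_lit 0), (nat_lit 0), (nat_lit 3243)], [((nat_lit 0), (nat_lit 0), (nat_lit 0)), ((nat_lit 0), (nat_lit 0), (nat_lit 0)), ((nat_lit 1000), (nat_lit 870), (nat_lit 941))], ((nat_lit 85), (nat_lit 100), (nat_lit 88))⟩, (nat_lit 1347754), (nat_lit 335), (nat_lit 335), (nat_lit 0), (nat_lit 552953), [(nat_lit 2032000000), (nat_lit 6250000000), (nat_lit 9842000000)], [], [(nat_lit 26884849398), (nat_lit 28965464201), (nat_lit 33529029116), (nat_lit 36395080960), (nat_lit 30449915368), (nat_lit 31834289814), (nat_lit 37814822035), (nat_lit 39683901221)], (nat_lit 1271251), (nat_lit 1271251), (nat_lit 1271251), (nat_lit 1271251), (nat_lit 1100000), (nat_lit 2641251), [(nat_lit 490000), (nat_lit 1427501), (nat_lit 1271251)], [(nat_lit 5), (nat_lit 55), (nat_lit 428), (nat_lit 200), (nat_lit 11)]⟩,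
 ⟨⟨[(nat_lit 140), (nat_lit 180), (nat_lit 200)], [(nat_lit 0), (nat_lit 0), (nat_lit 2835)], [((nat_lit 0), (nat_lit 0), (nat_lit 0)), ((nat_lit 0), (nat_lit 0), (nat_lit 0)), ((nat_lit 363), (nat_lit 1000), (nat_lit 798))], ((nat_lit 0), (nat_lit 0), (nat_lit 0))⟩, (nat_lit 28614), (nat_lit 300), (nat_lit 2084), (nat_lit 8122400), (nat_lit 3674477), [(nat_lit 1023568000), (nat_lit 1462032000), (nat_lit 1705600000)], [], [(nat_lit 6441148536), (nat_lit 6246663024), (nat_lit 6136424288), (nat_lit 5940217436), (nat_lit 5935436958), (nat_lit 5736571532), (nat_lit 5644455019), (nat_lit 5443232206)], (nat_lit 780000), (nat_lit 1100000), (nat_lit 1271251), (nat_lit 1271251), (nat_lit 1100000), (nat_lit 2641251), [(nat_lit 1977501), (nat_lit 1271251), (nat_lit 1271251)], [(nat_lit 32), (nat_lit 67), (nat_lit 621), (nat_lit 200), (nat_lit 13)]⟩⟩))))))) (.spl (nat_lit 0) (nat_lit 350) (.ord (.leaf ⟨(nat_lit 0), (nat_lit 855), (nat_lit 0), (nat_lit 145),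 (nat_lit 0), (nat_lit 5106), (nat_lit 7746), (nat_lit 1542), (nat_lit 23201), (nat_lit 0), (nat_lit 0), [], Pd.none, Pd.none, (nat_lit 0), (nat_lit 1), (nat_lit 0), (nat_lit 0), (nat_lit 5), (nat_lit 0), [⟨(nat_lit 0), (nat_lit 67), (nat_lit 67), (nat_lit 100), (nat_lit 104784551)⟩], [⟨(nat_lit 1), (nat_lit 83), (nat_lit 70), (nat_lit 100), (nat_lit 335283927)⟩], [⟨(nat_lit 1), (nat_lit 79), (nat_lit 75), (nat_lit 100), (nat_lit 292867495)⟩], [],
 ⟨⟨[(nat_lit 40), (nat_lit 80), (nat_lit 120)], [(nat_lit 0), (nat_lit 795), (nat_lit 2800)], [((nat_lit 0), (nat_lit 0), (nat_lit 0)), ((nat_lit 1000), (nat_lit 814), (nat_lit 310)), ((nat_lit 1000), (nat_lit 719), (nat_lit 783))], ((nat_lit 73), (nat_lit 100), (nat_lit 85))⟩, (nat_lit 2020446), (nat_lit 200), (nat_lit 200), (nat_lit 0), (nat_lit 338878), [(nat_lit 2189919170), (nat_lit 4688000005), (nat_lit 7968000000)], [], [(nat_lit 22678460074), (nat_lit 23245138005), (nat_lit 31925527233), (nat_lit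 32466713090), (nat_lit 26758647862), (nat_lit 27283231742), (nat_lit 35019412721), (nat_lit 35428526021)], (nat_lit 1271251), (nat_lit 1271251), (nat_lit 1100000), (nat_lit 3155001), (nat_lit 1271251), (nat_lit 1271251), [(nat_lit 490000), (nat_lit 1100000), (nat_lit 1785001)], [(nat_lit 4), (nat_lit 51), (nat_lit 428), (nat_lit 200), (nat_lit 13)]⟩,
 ⟨⟨[(nat_lit 40), (nat_lit 100), (nat_lit 140)], [(nat_lit 0), (nat_lit 0), (nat_lit 3243)], [((nat_lit 0), (nat_lit 0), (nat_lit 0)), ((nat_lit 0), (nat_lit 0), (nat_lit 0)), ((nat_lit 1000), (nat_lit 870), (nat_lit 941))], ((nat_lit 85), (nat_lit 100), (nat_lit 88))⟩, (nat_lit 1422482), (nat_lit 237), (nat_lit 237), (nat_lit 0), (nat_lit 345121), [(nat_lit 2032000000), (nat_lit 6250000000), (nat_lit 9842000000)], [], [(nat_lit 24088116210), (nat_lit 26183431848), (nat_lit 33638712104), (nat_lit 35802391706), (nat_lit 29863769352), (nat_lit 31475601148), (nat_lit 38424309219), (nat_lit 39786645345)],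 (nat_lit 1271251), (nat_lit 1271251), (nat_lit 1271251), (nat_lit 1271251), (nat_lit 1100000), (nat_lit 2726876), [(nat_lit 490000), (nat_lit 1427501), (nat_lit 1271251)], [(nat_lit 5), (nat_lit 55), (nat_lit 428), (nat_lit 200), (nat_lit 11)]⟩,
 ⟨⟨[(nat_lit 120), (nat_lit 160), (nat_lit 200)], [(nat_lit 0), (nat_lit 0), (nat_lit 3198)], [((nat_lit 0), (nat_lit 0), (nat_lit 0)), ((nat_lit 0), (nat_lit 0), (nat_lit 0)), ((nat_lit 572), (nat_lit 1000), (nat_lit 714))], ((nat_lit 0), (nat_lit 0), (nat_lit 0))⟩, (nat_lit 70732), (nat_lit 300), (nat_lit 1309), (nat_lit 10759000), (nat_lit 2144348), [(nat_lit 1155360000), (nat_lit 1721440000), (nat_lit 2378000000)], [], [(nat_lit 9024954612), (nat_lit 8926420874), (nat_lit 8510752099), (nat_lit 8410250757), (nat_lit 8256995092), (nat_lit 8155845795), (nat_lit 7735705693), (nat_lit 7637087043)], (nat_lit 1100000), (nat_lit 1271251), (nat_lit 1271251), (nat_lit 1271251), (nat_lit 1100000), (nat_lit 2726876),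 [(nat_lit 1695001), (nat_lit 1271251), (nat_lit 1271251)], [(nat_lit 29), (nat_lit 66), (nat_lit 456), (nat_lit 225), (nat_lit 9)]⟩⟩)) (.trZ (nat_lit 0) (nat_lit 1) (nat_lit 3) (nat_lit 80) (nat_lit 66) (nat_lit 100) (nat_lit 180) (.trX (nat_lit 4) (nat_lit 0) (nat_lit 2) (nat_lit 66) (nat_lit 82) (nat_lit 100) (nat_lit 320) (.leaf ⟨(nat_lit 0), (nat_lit 881), (nat_lit 0), (nat_lit 119), (nat_lit 0), (nat_lit 4600), (nat_lit 7355), (nat_lit 1286), (nat_lit 7225), (nat_lit 0), (nat_lit 0), [], Pd.none, Pd.none, (nat_lit 0), (nat_lit 1), (nat_lit 0), (nat_lit 0), (nat_lit 5), (nat_lit 0), [⟨(nat_lit 0), (nat_lit 72), (nat_lit 63), (nat_lit 100), (nat_lit 81919575)⟩], [⟨(nat_lit 1), (nat_lit 87), (nat_lit 64), (nat_lit 100), (nat_lit 377684013)⟩], [⟨(nat_lit 1), (nat_lit 81), (nat_lit 72), (nat_lit 100), (nat_lit 325053293)⟩], [],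
 ⟨⟨[(nat_lit 40), (nat_lit 80), (nat_lit 120)], [(nat_lit 0), (nat_lit 1195), (nat_lit 3135)], [((nat_lit 0), (nat_lit 0), (nat_lit 0)), ((nat_lit 1000), (nat_lit 720), (nat_lit 465)), ((nat_lit 1000), (nat_lit 661), (nat_lit 757))], ((nat_lit 67), (nat_lit 100), (nat_lit 84))⟩, (nat_lit 1982060), (nat_lit 250), (nat_lit 250), (nat_lit 0), (nat_lit 420938), [(nat_lit 2032000004), (nat_lit 4688000007), (nat_lit 7968000000)], [], [(nat_lit 23710938490), (nat_lit 24200427515), (nat_lit 31792740950), (nat_lit 32309294600), (nat_lit 26736275300), (nat_lit 27245184500), (nat_lit 34393177400), (nat_lit 34797928800)], (nat_lit 1271251), (nat_lit 1271251), (nat_lit 1271251), (nat_lit 1271251), (nat_lit 1271251), (nat_lit 1271251), [(nat_lit 490000), (nat_lit 1100000), (nat_lit 1785001)], [(nat_lit 4), (nat_lit 51), (nat_lit 428), (nat_lit 200), (nat_lit 13)]⟩,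
 ⟨⟨[(nat_lit 40), (nat_lit 100), (nat_lit 140)], [(nat_lit 0), (nat_lit 0), (nat_lit 3243)], [((nat_lit 0), (nat_lit 0), (nat_lit 0)), ((nat_lit 0), (nat_lit 0), (nat_lit 0)), ((nat_lit 1000), (nat_lit 870), (nat_lit 941))], ((nat_lit 85), (nat_lit 100), (nat_lit 88))⟩, (nat_lit 1450829), (nat_lit 295), (nat_lit 295), (nat_lit 0), (nat_lit 431892), [(nat_lit 2032000000), (nat_lit 6250000000), (nat_lit 9842000000)], [], [(nat_lit 25054064158), (nat_lit 27668324543), (nat_lit 33145769020), (nat_lit 35945939200), (nat_lit 30429423803), (nat_lit 32123489418), (nat_lit 37923300783), (nat_lit 39699981123)], (nat_lit 1271251), (nat_lit 1271251), (nat_lit 1271251), (nat_lit 1271251), (nat_lit 1100000), (nat_lit 2726876), [(nat_lit 490000), (nat_lit 1427501), (nat_lit 1271251)], [(nat_lit 5), (nat_lit 55), (nat_lit 428), (nat_lit 200), (nat_lit 11)]⟩,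
 ⟨⟨[(nat_lit 120), (nat_lit 160), (nat_lit 200)], [(nat_lit 0), (nat_lit 0), (nat_lit 3198)], [((nat_lit 0), (nat_lit 0), (nat_lit 0)), ((nat_lit 0), (nat_lit 0), (nat_lit 0)), ((nat_lit 572), (nat_lit 1000), (nat_lit 714))], ((nat_lit 0), (nat_lit 0), (nat_lit 0))⟩, (nat_lit 58049), (nat_lit 300), (nat_lit 1636), (nat_lit 8829800), (nat_lit 2819699), [(nat_lit 948192000), (nat_lit 1412768000), (nat_lit 1951600000)], [], [(nat_lit 7272619698), (nat_lit 7189443586), (nat_lit 6844594092), (nat_lit 6762667087), (nat_lit 6630431206), (nat_lit 6547148470), (nat_lit 6256548082), (nat_lit 6174281458)], (nat_lit 1100000), (nat_lit 1271251), (nat_lit 1271251), (nat_lit 1271251), (nat_lit 1100000), (nat_lit 2726876), [(nat_lit 1695001), (nat_lit 1271251), (nat_lit 1271251)], [(nat_lit 29), (nat_lit 66), (nat_lit 516), (nat_lit 225), (nat_lit 11)]⟩⟩))))))))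
noncomputable def c9_17 : Tr Lf :=
 (.trZ (nat_lit 1) (nat_lit 2) (nat_lit 5) (nat_lit 100) (nat_lit 80) (nat_lit 52) (nat_lit 20) (.spl (nat_lit 5) (nat_lit 200) (.spl (nat_lit 0) (nat_lit 350) (.ord (.leaf ⟨(nat_lit 0), (nat_lit 799), (nat_lit 0), (nat_lit 201), (nat_lit 0), (nat_lit 4894), (nat_lit 8589), (nat_lit 2049), (nat_lit 64858), (nat_lit 0), (nat_lit 0), [], Pd.none, Pd.none, (nat_lit 0), (nat_lit 1), (nat_lit 0), (nat_lit 0), (nat_lit 5), (nat_lit 0), [], [⟨(nat_lit 1), (nat_lit 69), (nat_lit 69), (nat_lit 100), (nat_lit 207786664)⟩], [⟨(nat_lit 0), (nat_lit 100), (nat_lit 74), (nat_lit 71), (nat_lit 81535435)⟩], [⟨(nat_lit 0), (nat_lit 99), (nat_lit 100), (nat_lit 82), (nat_lit 90952776)⟩],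
 ⟨⟨[(nat_lit 40), (nat_lit 80), (nat_lit 120)], [(nat_lit 0), (nat_lit 795), (nat_lit 2800)], [((nat_lit 0), (nat_lit 0), (nat_lit 0)), ((nat_lit 1000), (nat_lit 814), (nat_lit 310)), ((nat_lit 1000), (nat_lit 719), (nat_lit 783))], ((nat_lit 73), (nat_lit 100), (nat_lit 85))⟩, (nat_lit 1885007), (nat_lit 190), (nat_lit 190), (nat_lit 0), (nat_lit 302434), [(nat_lit 2055860613), (nat_lit 4688000012), (nat_lit 7968000000)], [], [(nat_lit 23540065191), (nat_lit 24094879761), (nat_lit 31653471767), (nat_lit 32184337411), (nat_lit 29338591367), (nat_lit 29747115106), (nat_lit 36317685155), (nat_lit 36677865931)], (nat_lit 1271251), (nat_lit 1271251), (nat_lit 1100000), (nat_lit 3155001), (nat_lit 1271251), (nat_lit 1271251), [(nat_lit 490000), (nat_lit 1100000), (nat_lit 1785001)], [(nat_lit 4), (nat_lit 51), (nat_lit 428), (nat_lit 200), (nat_lit 13)]⟩,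
 ⟨⟨[(nat_lit 40), (nat_lit 100), (nat_lit 140)], [(nat_lit 0), (nat_lit 0), (nat_lit 3243)], [((nat_lit 0), (nat_lit 0), (nat_lit 0)), ((nat_lit 0), (nat_lit 0), (nat_lit 0)), ((nat_lit 1000), (nat_lit 870), (nat_lit 941))], ((nat_lit 85), (nat_lit 100), (nat_lit 88))⟩, (nat_lit 1623534), (nat_lit 332), (nat_lit 332), (nat_lit 0), (nat_lit 308404), [(nat_lit 2032000000), (nat_lit 6250000000), (nat_lit 9842000000)], [], [(nat_lit 27848312678), (nat_lit 29545858323), (nat_lit 43281947253), (nat_lit 45906145203), (nat_lit 23575501250), (nat_lit 25172226279), (nat_lit 39588889272), (nat_lit 37105932382)], (nat_lit 1271251), (nat_lit 1271251), (nat_lit 1100000), (nat_lit 3155001), (nat_lit 111251), (nat_lit 1416250), [(nat_lit 490000), (nat_lit 1427501), (nat_lit 1271251)], [(nat_lit 5), (nat_lit 55), (nat_lit 373), (nat_lit 150), (nat_lit 10)]⟩,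
 ⟨⟨[(nat_lit 120), (nat_lit 160), (nat_lit 200)], [(nat_lit 0), (nat_lit 533), (nat_lit 3597)], [((nat_lit 0), (nat_lit 0), (nat_lit 0)), ((nat_lit 960), (nat_lit 1000), (nat_lit 200)), ((nat_lit 612), (nat_lit 1000), (nat_lit 732))], ((nat_lit 0), (nat_lit 0), (nat_lit 0))⟩, (nat_lit 470634), (nat_lit 300), (nat_lit 1114), (nat_lit 13346401), (nat_lit 1537700), [(nat_lit 1601568000), (nat_lit 2386272000), (nat_lit 3296400000)], [], [(nat_lit 12712479142), (nat_lit 12347632576), (nat_lit 12196746976), (nat_lit 11859109050), (nat_lit 10962718176), (nat_lit 10588803325), (nat_lit 10345651226), (nat_lit 9970667438)], (nat_lit 1271251), (nat_lit 1271251), (nat_lit 1271251), (nat_lit 1271251), (nat_lit 111251), (nat_lit 1416250), [(nat_lit 1695001), (nat_lit 1271251), (nat_lit 1271251)], [(nat_lit 29), (nat_lit 66), (nat_lit 456), (nat_lit 225), (nat_lit 10)]⟩⟩)) (.trZ (nat_lit 0) (nat_lit 1) (nat_lit 3) (nat_lit 80) (nat_lit 66) (nat_lit 100) (nat_lit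 180) (.trX (nat_lit 4) (nat_lit 0) (nat_lit 2) (nat_lit 68) (nat_lit 61) (nat_lit 100) (nat_lit 360) (.leaf ⟨(nat_lit 0), (nat_lit 838), (nat_lit 0), (nat_lit 162), (nat_lit 0), (nat_lit 4491), (nat_lit 7821), (nat_lit 1657), (nat_lit 382972), (nat_lit 0), (nat_lit 0), [], Pd.none, Pd.none, (nat_lit 0), (nat_lit 1), (nat_lit 0), (nat_lit 0), (nat_lit 5), (nat_lit 0), [], [⟨(nat_lit 1), (nat_lit 74), (nat_lit 63), (nat_lit 100), (nat_lit 307443334)⟩], [⟨(nat_lit 0), (nat_lit 100), (nat_lit 61), (nat_lit 92), (nat_lit 94032982)⟩], [⟨(nat_lit 0), (nat_lit 100), (nat_lit 97), (nat_lit 84), (nat_lit 46146754)⟩],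
 ⟨⟨[(nat_lit 40), (nat_lit 80), (nat_lit 120)], [(nat_lit 0), (nat_lit 1195), (nat_lit 3135)], [((nat_lit 0), (nat_lit 0), (nat_lit 0)), ((nat_lit 1000), (nat_lit 720), (nat_lit 465)), ((nat_lit 1000), (nat_lit 661), (nat_lit 757))], ((nat_lit 67), (nat_lit 100), (nat_lit 84))⟩, (nat_lit 1844288), (nat_lit 234), (nat_lit 234), (nat_lit 0), (nat_lit 381343), [(nat_lit 2032000015), (nat_lit 4688000027), (nat_lit 7968000000)], [], [(nat_lit 24630961062), (nat_lit 25115165569), (nat_lit 31647557229), (nat_lit 32158804731), (nat_lit 29088044148), (nat_lit 29541385685), (nat_lit 35738898715), (nat_lit 36100218800)], (nat_lit 1271251), (nat_lit 1271251), (nat_lit 1271251), (nat_lit 1271251), (nat_lit 1271251), (nat_lit 1271251), [(nat_lit 490000), (nat_lit 1100000), (nat_lit 1785001)], [(nat_lit 4), (nat_lit 51), (nat_lit 428), (nat_lit 200), (nat_lit 13)]⟩,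
 ⟨⟨[(nat_lit 40), (nat_lit 100), (nat_lit 140)], [(nat_lit 0), (nat_lit 0), (nat_lit 3243)], [((nat_lit 0), (nat_lit 0), (nat_lit 0)), ((nat_lit 0), (nat_lit 0), (nat_lit 0)), ((nat_lit 1000), (nat_lit 870), (nat_lit 941))], ((nat_lit 85), (nat_lit 100), (nat_lit 88))⟩, (nat_lit 1594122), (nat_lit 358), (nat_lit 358), (nat_lit 0), (nat_lit 391815), [(nat_lit 2032000000), (nat_lit 6250000000), (nat_lit 9842000000)], [], [(nat_lit 29442882293), (nat_lit 31923735664), (nat_lit 41337235317), (nat_lit 44639369373), (nat_lit 26028999749), (nat_lit 27982837521), (nat_lit 34062928320), (nat_lit 36756339261)], (nat_lit 1271251), (nat_lit 1271251), (nat_lit 1271251), (nat_lit 1271251), (nat_lit 111251), (nat_lit 1416250), [(nat_lit 490000), (nat_lit 1427501), (nat_lit 1271251)], [(nat_lit 5), (nat_lit 55), (nat_lit 373), (nat_lit 150), (nat_lit 10)]⟩,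
 ⟨⟨[(nat_lit 120), (nat_lit 160), (nat_lit 200)], [(nat_lit 0), (nat_lit 533), (nat_lit 3597)], [((nat_lit 0), (nat_lit 0), (nat_lit 0)), ((nat_lit 960), (nat_lit 1000), (nat_lit 200)), ((nat_lit 612), (nat_lit 1000), (nat_lit 732))], ((nat_lit 0), (nat_lit 0), (nat_lit 0))⟩, (nat_lit 379317), (nat_lit 300), (nat_lit 1344), (nat_lit 10756801), (nat_lit 2052281), [(nat_lit 1290816000), (nat_lit 1923264000), (nat_lit 2656800000)], [], [(nat_lit 10217925160), (nat_lit 9932436976), (nat_lit 9811657329), (nat_lit 9534510443), (nat_lit 8801911713), (nat_lit 8499157323), (nat_lit 8321170812), (nat_lit 8019664421)], (nat_lit 1271251), (nat_lit 1271251), (nat_lit 1271251), (nat_lit 1271251), (nat_lit 111251), (nat_lit 1416250), [(nat_lit 1695001), (nat_lit 1271251), (nat_lit 1271251)], [(nat_lit 29), (nat_lit 66), (nat_lit 436), (nat_lit 200), (nat_lit 9)]⟩⟩)))) (.spl (nat_lit 1) (nat_lit 340) (.leaf ⟨(nat_lit 0), (nat_lit 486), (nat_lit 0), (nat_lit 514),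 (nat_lit 0), (nat_lit 4851), (nat_lit 7146), (nat_lit 4898), (nat_lit 0), (nat_lit 0), (nat_lit 0), [], Pd.none, Pd.none, (nat_lit 0), (nat_lit 1), (nat_lit 0), (nat_lit 0), (nat_lit 5), (nat_lit 0), [⟨(nat_lit 0), (nat_lit 72), (nat_lit 61), (nat_lit 100), (nat_lit 144080258)⟩], [⟨(nat_lit 1), (nat_lit 72), (nat_lit 66), (nat_lit 100), (nat_lit 677715)⟩], [], [],
 ⟨⟨[(nat_lit 40), (nat_lit 80), (nat_lit 120)], [(nat_lit 0), (nat_lit 795), (nat_lit 2800)], [((nat_lit 0), (nat_lit 0), (nat_lit 0)), ((nat_lit 1000), (nat_lit 814), (nat_lit 310)), ((nat_lit 1000), (nat_lit 719), (nat_lit 783))], ((nat_lit 73), (nat_lit 100), (nat_lit 85))⟩, (nat_lit 1855511), (nat_lit 188), (nat_lit 188), (nat_lit 0), (nat_lit 289947), [(nat_lit 2032000017), (nat_lit 4688000003), (nat_lit 7968000000)], [], [(nat_lit 23725434687), (nat_lit 24830469800), (nat_lit 31598290706), (nat_lit 32655835491), (nat_lit 29505178455), (nat_lit 30318132740), (nat_lit 36258068558),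 (nat_lit 36976533466)], (nat_lit 1271251), (nat_lit 1271251), (nat_lit 1100000), (nat_lit 3155001), (nat_lit 1271251), (nat_lit 1271251), [(nat_lit 490000), (nat_lit 1100000), (nat_lit 1785001)], [(nat_lit 4), (nat_lit 51), (nat_lit 428), (nat_lit 200), (nat_lit 13)]⟩,
 ⟨⟨[(nat_lit 40), (nat_lit 100), (nat_lit 140)], [(nat_lit 0), (nat_lit 0), (nat_lit 3243)], [((nat_lit 0), (nat_lit 0), (nat_lit 0)), ((nat_lit 0), (nat_lit 0), (nat_lit 0)), ((nat_lit 1000), (nat_lit 870), (nat_lit 941))], ((nat_lit 85), (nat_lit 100), (nat_lit 88))⟩, (nat_lit 1431697), (nat_lit 229), (nat_lit 229), (nat_lit 0), (nat_lit 329033), [(nat_lit 2032000000), (nat_lit 6250000000), (nat_lit 9842000000)], [], [(nat_lit 25850811785), (nat_lit 27090018495), (nat_lit 33262432320), (nat_lit 34543419453), (nat_lit 32646211819), (nat_lit 33409908556), (nat_lit 39584978435), (nat_lit 40346652287)], (nat_lit 1271251), (nat_lit 1271251), (nat_lit 1100000), (nat_lit 3155001), (nat_lit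 1271251), (nat_lit 1271251), [(nat_lit 490000), (nat_lit 1427501), (nat_lit 1271251)], [(nat_lit 5), (nat_lit 55), (nat_lit 428), (nat_lit 200), (nat_lit 11)]⟩,
 ⟨⟨[(nat_lit 120), (nat_lit 160), (nat_lit 200)], [(nat_lit 0), (nat_lit 533), (nat_lit 3597)], [((nat_lit 0), (nat_lit 0), (nat_lit 0)), ((nat_lit 960), (nat_lit 1000), (nat_lit 200)), ((nat_lit 612), (nat_lit 1000), (nat_lit 732))], ((nat_lit 0), (nat_lit 0), (nat_lit 0))⟩, (nat_lit 1203512), (nat_lit 300), (nat_lit 1019), (nat_lit 34129601), (nat_lit 1557587), [(nat_lit 4095552000), (nat_lit 6102208000), (nat_lit 8429600000)], [], [(nat_lit 30103375743), (nat_lit 29232529554), (nat_lit 28460935349), (nat_lit 27540897106), (nat_lit 28345970445), (nat_lit 27417928209), (nat_lit 26470764913), (nat_lit 25528000323)], (nat_lit 1271251), (nat_lit 1271251), (nat_lit 1271251), (nat_lit 1271251), (nat_lit 1271251), (nat_lit 1271251), [(nat_lit 1695001), (nat_lit 1271251), (nat_lit 1271251)],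 [(nat_lit 29), (nat_lit 66), (nat_lit 483), (nat_lit 250), (nat_lit 10)]⟩⟩) (.trZ (nat_lit 0) (nat_lit 1) (nat_lit 3) (nat_lit 71) (nat_lit 71) (nat_lit 100) (nat_lit 190) (.trX (nat_lit 5) (nat_lit 1) (nat_lit 2) (nat_lit 73) (nat_lit 55) (nat_lit 100) (nat_lit 370) (.leaf ⟨(nat_lit 0), (nat_lit 777), (nat_lit 0), (nat_lit 223), (nat_lit 0), (nat_lit 4859), (nat_lit 4859), (nat_lit 2137), (nat_lit 2898525851337), (nat_lit 0), (nat_lit 0), [], Pd.none, Pd.none, (nat_lit 0), (nat_lit 1), (nat_lit 0), (nat_lit 0), (nat_lit 5), (nat_lit 0), [⟨(nat_lit 0), (nat_lit 63), (nat_lit 63), (nat_lit 100), (nat_lit 166068952)⟩], [⟨(nat_lit 1), (nat_lit 72), (nat_lit 66), (nat_lit 100), (nat_lit 314211135)⟩], [⟨(nat_lit 1), (nat_lit 72), (nat_lit 66), (nat_lit 100), (nat_lit 314211132)⟩], [],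
 ⟨⟨[(nat_lit 40), (nat_lit 80), (nat_lit 120)], [(nat_lit 0), (nat_lit 795), (nat_lit 2800)], [((nat_lit 0), (nat_lit 0), (nat_lit 0)), ((nat_lit 1000), (nat_lit 814), (nat_lit 310)), ((nat_lit 1000), (nat_lit 719), (nat_lit 783))], ((nat_lit 73), (nat_lit 100), (nat_lit 85))⟩, (nat_lit 1807163), (nat_lit 235), (nat_lit 235), (nat_lit 0), (nat_lit 383500), [(nat_lit 2032000092), (nat_lit 4688000262), (nat_lit 7968000000)], [], [(nat_lit 24706962034), (nat_lit 25694979449), (nat_lit 31608556950), (nat_lit 32666880619), (nat_lit 29952961999), (nat_lit 30728861756), (nat_lit 36269160018), (nat_lit 36987977790)], (nat_lit 1271251), (nat_lit 1271251), (nat_lit 1271251), (nat_lit 1271251), (nat_lit 1271251), (nat_lit 1271251), [(nat_lit 490000), (nat_lit 1100000), (nat_lit 1785001)], [(nat_lit 4), (nat_lit 51), (nat_lit 428), (nat_lit 200), (nat_lit 13)]⟩,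
 ⟨⟨[(nat_lit 40), (nat_lit 80), (nat_lit 120)], [(nat_lit 0), (nat_lit 795), (nat_lit 2800)], [((nat_lit 0), (nat_lit 0), (nat_lit 0)), ((nat_lit 1000), (nat_lit 814), (nat_lit 310)), ((nat_lit 1000), (nat_lit 719), (nat_lit 783))], ((nat_lit 73), (nat_lit 100), (nat_lit 85))⟩, (nat_lit 1807163), (nat_lit 235), (nat_lit 235), (nat_lit 0), (nat_lit 383500), [(nat_lit 2032000000), (nat_lit 4688000000), (nat_lit 7968000000)], [], [(nat_lit 24706961588), (nat_lit 25694979003), (nat_lit 31608556950), (nat_lit 32666880619), (nat_lit 29952961737), (nat_lit 30728861756), (nat_lit 36269160018), (nat_lit 36987977790)], (nat_lit 1271251), (nat_lit 1271251), (nat_lit 1271251), (nat_lit 1271251), (nat_lit 1271251), (nat_lit 1271251), [(nat_lit 490000), (nat_lit 1100000), (nat_lit 1785001)], [(nat_lit 4), (nat_lit 51), (nat_lit 428), (nat_lit 200), (nat_lit 13)]⟩,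
 ⟨⟨[(nat_lit 120), (nat_lit 160), (nat_lit 200)], [(nat_lit 0), (nat_lit 533), (nat_lit 3597)], [((nat_lit 0), (nat_lit 0), (nat_lit 0)), ((nat_lit 960), (nat_lit 1000), (nat_lit 200)), ((nat_lit 612), (nat_lit 1000), (nat_lit 732))], ((nat_lit 0), (nat_lit 0), (nat_lit 0))⟩, (nat_lit 522146), (nat_lit 300), (nat_lit 1244), (nat_lit 14807202), (nat_lit 2052281), [(nat_lit 1776864000), (nat_lit 2647456000), (nat_lit 3657200000)], [], [(nat_lit 13166925907), (nat_lit 12769713675), (nat_lit 12338997339), (nat_lit 11929127885), (nat_lit 12338997339), (nat_lit 11929127885), (nat_lit 11460903970), (nat_lit 11052543607)], (nat_lit 1271251), (nat_lit 1271251), (nat_lit 1271251), (nat_lit 1271251), (nat_lit 1271251), (nat_lit 1271251), [(nat_lit 1695001), (nat_lit 1271251), (nat_lit 1271251)], [(nat_lit 29), (nat_lit 66), (nat_lit 483), (nat_lit 250), (nat_lit 10)]⟩⟩))))))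
noncomputable def c9_18 : Tr Lf :=
 (.spl (nat_lit 1) (nat_lit 340) (.spl (nat_lit 6) (nat_lit 124) (.spl (nat_lit 3) (nat_lit 280) (.spl (nat_lit 1) (nat_lit 330) (.spl (nat_lit 6) (nat_lit 112) (.leaf ⟨(nat_lit 0), (nat_lit 996), (nat_lit 0), (nat_lit 4), (nat_lit 23808), (nat_lit 6003), (nat_lit 7913), (nat_lit 54), (nat_lit 0), (nat_lit 0), (nat_lit 0), [], Pd.none, Pd.none, (nat_lit 0), (nat_lit 1), (nat_lit 0), (nat_lit 0), (nat_lit 3), (nat_lit 0), [], [⟨(nat_lit 1), (nat_lit 90), (nat_lit 71), (nat_lit 100), (nat_lit 279577458)⟩], [], [],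
 ⟨⟨[(nat_lit 40), (nat_lit 100), (nat_lit 140)], [(nat_lit 0), (nat_lit 1192), (nat_lit 4003)], [((nat_lit 0), (nat_lit 0), (nat_lit 0)), ((nat_lit 1000), (nat_lit 814), (nat_lit 310)), ((nat_lit 992), (nat_lit 771), (nat_lit 1000))], ((nat_lit 76), (nat_lit 100), (nat_lit 95))⟩, (nat_lit 1868074), (nat_lit 223), (nat_lit 223), (nat_lit 0), (nat_lit 112519), [(nat_lit 2453757183), (nat_lit 6250000185), (nat_lit 9842000000)], [], [(nat_lit 26453589437), (nat_lit 27164325285), (nat_lit 29645294880), (nat_lit 30349101973), (nat_lit 27620064215), (nat_lit 28119979528), (nat_lit 30386992596), (nat_lit 31006773708)], (nat_lit 1271251), (nat_lit 1271251), (nat_lit 1100000), (nat_lit 2127501), (nat_lit 54688), (nat_lit 2344688), [(nat_lit 490000), (nat_lit 1427501), (nat_lit 1271251)], [(nat_lit 5), (nat_lit 55), (nat_lit 401), (nat_lit 175), (nat_lit 11)]⟩,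
 ⟨⟨[(nat_lit 40), (nat_lit 100), (nat_lit 160)], [(nat_lit 0), (nat_lit 0), (nat_lit 4607)], [((nat_lit 0), (nat_lit 0), (nat_lit 0)), ((nat_lit 0), (nat_lit 0), (nat_lit 0)), ((nat_lit 846), (nat_lit 837), (nat_lit 1000))], ((nat_lit 89), (nat_lit 99), (nat_lit 100))⟩, (nat_lit 2553403), (nat_lit 329), (nat_lit 329), (nat_lit 0), (nat_lit 127773), [(nat_lit 2032000000), (nat_lit 6250000000), (nat_lit 11872000000)], [], [(nat_lit 26442477179), (nat_lit 27200733657), (nat_lit 30824575524), (nat_lit 32079415170), (nat_lit 21647905764), (nat_lit 22492272722), (nat_lit 30976548878), (nat_lit 29240966849)], (nat_lit 1271251), (nat_lit 1271251), (nat_lit 1100000), (nat_lit 2127501), (nat_lit 0), (nat_lit 1100000), [(nat_lit 490000), (nat_lit 1427501), (nat_lit 1271251)], [(nat_lit 6), (nat_lit 56), (nat_lit 345), (nat_lit 125), (nat_lit 9)]⟩,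
 ⟨⟨[(nat_lit 140), (nat_lit 180), (nat_lit 200)], [(nat_lit 0), (nat_lit 0), (nat_lit 2835)], [((nat_lit 0), (nat_lit 0), (nat_lit 0)), ((nat_lit 0), (nat_lit 0), (nat_lit 0)), ((nat_lit 363), (nat_lit 1000), (nat_lit 798))], ((nat_lit 0), (nat_lit 0), (nat_lit 0))⟩, (nat_lit 1101), (nat_lit 300), (nat_lit 1067), (nat_lit 312400), (nat_lit 1014053), [(nat_lit 39368000), (nat_lit 56232000), (nat_lit 65600000)], [], [(nat_lit 392772707), (nat_lit 347268737), (nat_lit 266293369), (nat_lit 254981536), (nat_lit 274980399), (nat_lit 263314795), (nat_lit 270433440), (nat_lit 311744148)], (nat_lit 780000), (nat_lit 1271251), (nat_lit 54688), (nat_lit 2344688), (nat_lit 0), (nat_lit 1100000), [(nat_lit 1977501), (nat_lit 1271251), (nat_lit 1271251)], [(nat_lit 32), (nat_lit 67), (nat_lit 401), (nat_lit 175), (nat_lit 9)]⟩⟩) (.dle (nat_lit 0))) (.trZ (nat_lit 0) (nat_lit 1) (nat_lit 3) (nat_lit 76) (nat_lit 72) (nat_lit 100) (nat_lit 180) (.leaf ⟨(nat_lit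 0), (nat_lit 940), (nat_lit 0), (nat_lit 60), (nat_lit 16315), (nat_lit 6578), (nat_lit 6507), (nat_lit 753), (nat_lit 0), (nat_lit 0), (nat_lit 0), [], Pd.none, Pd.none, (nat_lit 0), (nat_lit 1), (nat_lit 0), (nat_lit 0), (nat_lit 3), (nat_lit 0), [⟨(nat_lit 0), (nat_lit 72), (nat_lit 66), (nat_lit 100), (nat_lit 440719167)⟩], [⟨(nat_lit 1), (nat_lit 90), (nat_lit 71), (nat_lit 100), (nat_lit 129485932)⟩], [], [],
 ⟨⟨[(nat_lit 40), (nat_lit 100), (nat_lit 140)], [(nat_lit 0), (nat_lit 1192), (nat_lit 4003)], [((nat_lit 0), (nat_lit 0), (nat_lit 0)), ((nat_lit 1000), (nat_lit 814), (nat_lit 310)), ((nat_lit 992), (nat_lit 771), (nat_lit 1000))], ((nat_lit 77), (nat_lit 99), (nat_lit 100))⟩, (nat_lit 1395896), (nat_lit 285), (nat_lit 285), (nat_lit 0), (nat_lit 173931), [(nat_lit 2646419804), (nat_lit 6337720269), (nat_lit 9842000000)], [], [(nat_lit 28948878876), (nat_lit 29672145234), (nat_lit 31858556846), (nat_lit 32599906606), (nat_lit 29412891510),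 (nat_lit 29951342292), (nat_lit 30950029092), (nat_lit 31534855073)], (nat_lit 1271251), (nat_lit 1271251), (nat_lit 1271251), (nat_lit 1271251), (nat_lit 54688), (nat_lit 2344688), [(nat_lit 490000), (nat_lit 1427501), (nat_lit 1271251)], [(nat_lit 5), (nat_lit 55), (nat_lit 401), (nat_lit 175), (nat_lit 11)]⟩,
 ⟨⟨[(nat_lit 40), (nat_lit 100), (nat_lit 160)], [(nat_lit 0), (nat_lit 592), (nat_lit 4992)], [((nat_lit 0), (nat_lit 0), (nat_lit 0)), ((nat_lit 1000), (nat_lit 908), (nat_lit 154)), ((nat_lit 873), (nat_lit 792), (nat_lit 1000))], ((nat_lit 82), (nat_lit 96), (nat_lit 100))⟩, (nat_lit 2352503), (nat_lit 347), (nat_lit 347), (nat_lit 0), (nat_lit 185215), [(nat_lit 2032000000), (nat_lit 6250000000), (nat_lit 11872000000)], [], [(nat_lit 26937226586), (nat_lit 27589894255), (nat_lit 29878444532), (nat_lit 30578324294), (nat_lit 22820888372), (nat_lit 23543096825), (nat_lit 25833721943), (nat_lit 26423018019)], (nat_lit 1271251), (nat_lit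 1271251), (nat_lit 1271251), (nat_lit 1271251), (nat_lit 0), (nat_lit 1100000), [(nat_lit 490000), (nat_lit 1427501), (nat_lit 1271251)], [(nat_lit 6), (nat_lit 56), (nat_lit 345), (nat_lit 125), (nat_lit 9)]⟩,
 ⟨⟨[(nat_lit 140), (nat_lit 180), (nat_lit 200)], [(nat_lit 0), (nat_lit 0), (nat_lit 2835)], [((nat_lit 0), (nat_lit 0), (nat_lit 0)), ((nat_lit 0), (nat_lit 0), (nat_lit 0)), ((nat_lit 363), (nat_lit 1000), (nat_lit 798))], ((nat_lit 0), (nat_lit 0), (nat_lit 0))⟩, (nat_lit 16508), (nat_lit 300), (nat_lit 1302), (nat_lit 4686000), (nat_lit 1566804), [(nat_lit 590520000), (nat_lit 843480000), (nat_lit 984000000)], [], [(nat_lit 5670708230), (nat_lit 5039062588), (nat_lit 4071035421), (nat_lit 3896138005), (nat_lit 4213385513), (nat_lit 4039385137), (nat_lit 3984193680), (nat_lit 4568545230)], (nat_lit 780000), (nat_lit 1271251), (nat_lit 54688), (nat_lit 2344688), (nat_lit 0), (nat_lit 1100000), [(nat_lit 1977501), (nat_lit 1271251), (nat_lit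 1271251)], [(nat_lit 32), (nat_lit 67), (nat_lit 410), (nat_lit 175), (nat_lit 9)]⟩⟩))) (.leaf ⟨(nat_lit 0), (nat_lit 932), (nat_lit 0), (nat_lit 68), (nat_lit 14180), (nat_lit 6453), (nat_lit 6383), (nat_lit 739), (nat_lit 0), (nat_lit 0), (nat_lit 0), [], Pd.none, Pd.none, (nat_lit 0), (nat_lit 1), (nat_lit 0), (nat_lit 0), (nat_lit 3), (nat_lit 0), [], [⟨(nat_lit 1), (nat_lit 90), (nat_lit 71), (nat_lit 100), (nat_lit 34473427)⟩], [], [⟨(nat_lit 0), (nat_lit 100), (nat_lit 72), (nat_lit 59), (nat_lit 84898450)⟩],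
 ⟨⟨[(nat_lit 40), (nat_lit 100), (nat_lit 140)], [(nat_lit 0), (nat_lit 1192), (nat_lit 4003)], [((nat_lit 0), (nat_lit 0), (nat_lit 0)), ((nat_lit 1000), (nat_lit 814), (nat_lit 310)), ((nat_lit 992), (nat_lit 771), (nat_lit 1000))], ((nat_lit 77), (nat_lit 99), (nat_lit 100))⟩, (nat_lit 980348), (nat_lit 298), (nat_lit 298), (nat_lit 0), (nat_lit 173890), [(nat_lit 2475044045), (nat_lit 6285278987), (nat_lit 9842000000)], [], [(nat_lit 33792401039), (nat_lit 34374717371), (nat_lit 40313256721), (nat_lit 40823780992), (nat_lit 32687105078), (nat_lit 33117204846), (nat_lit 36740849761), (nat_lit 37188756661)], (nat_lit 1271251), (nat_lit 1271251), (nat_lit 1271251), (nat_lit 1271251), (nat_lit 54688), (nat_lit 2344688), [(nat_lit 490000), (nat_lit 1427501), (nat_lit 1271251)], [(nat_lit 5), (nat_lit 55), (nat_lit 317), (nat_lit 100), (nat_lit 8)]⟩,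
 ⟨⟨[(nat_lit 40), (nat_lit 100), (nat_lit 160)], [(nat_lit 0), (nat_lit 0), (nat_lit 4607)], [((nat_lit 0), (nat_lit 0), (nat_lit 0)), ((nat_lit 0), (nat_lit 0), (nat_lit 0)), ((nat_lit 846), (nat_lit 837), (nat_lit 1000))], ((nat_lit 86), (nat_lit 93), (nat_lit 100))⟩, (nat_lit 1938919), (nat_lit 347), (nat_lit 347), (nat_lit 0), (nat_lit 188366), [(nat_lit 2032000000), (nat_lit 6250000000), (nat_lit 11872000000)], [], [(nat_lit 33028239501), (nat_lit 34081546053), (nat_lit 39131828888), (nat_lit 40611430278), (nat_lit 28528060369), (nat_lit 29423811170), (nat_lit 34132288796), (nat_lit 34968581745)], (nat_lit 1271251), (nat_lit 1271251), (nat_lit 1271251), (nat_lit 1271251), (nat_lit 0), (nat_lit 1100000), [(nat_lit 490000), (nat_lit 1427501), (nat_lit 1271251)], [(nat_lit 6), (nat_lit 56), (nat_lit 373), (nat_lit 150), (nat_lit 9)]⟩,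
 ⟨⟨[(nat_lit 140), (nat_lit 180), (nat_lit 200)], [(nat_lit 0), (nat_lit 0), (nat_lit 2835)], [((nat_lit 0), (nat_lit 0), (nat_lit 0)), ((nat_lit 0), (nat_lit 0), (nat_lit 0)), ((nat_lit 363), (nat_lit 1000), (nat_lit 798))], ((nat_lit 0), (nat_lit 0), (nat_lit 0))⟩, (nat_lit 18709), (nat_lit 300), (nat_lit 1302), (nat_lit 5310800), (nat_lit 1566804), [(nat_lit 669256000), (nat_lit 955944000), (nat_lit 1115200000)], [], [(nat_lit 5983487871), (nat_lit 5695435281), (nat_lit 4910290020), (nat_lit 4738484559), (nat_lit 5214329138), (nat_lit 5044673861), (nat_lit 4370296240), (nat_lit 4961695420)], (nat_lit 780000), (nat_lit 1271251), (nat_lit 54688), (nat_lit 2344688), (nat_lit 0), (nat_lit 1100000), [(nat_lit 1977501), (nat_lit 1271251), (nat_lit 1271251)], [(nat_lit 32), (nat_lit 67), (nat_lit 410), (nat_lit 175), (nat_lit 9)]⟩⟩)) (.dle (nat_lit 0))) (.trZ (nat_lit 0) (nat_lit 1) (nat_lit 3) (nat_lit 71) (nat_lit 71) (nat_lit 100) (nat_lit 190)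 (.trZ (nat_lit 1) (nat_lit 2) (nat_lit 5) (nat_lit 100) (nat_lit 78) (nat_lit 39) (nat_lit 10) (.spl (nat_lit 4) (nat_lit 160) (.leaf ⟨(nat_lit 39), (nat_lit 961), (nat_lit 0), (nat_lit 0), (nat_lit 8835), (nat_lit 8249), (nat_lit 5721), (nat_lit 0), (nat_lit 3958886554044), (nat_lit 0), (nat_lit 156000), [((nat_lit 350), [((nat_lit 39), (nat_lit 5), (nat_lit 39))])], ⟨(nat_lit 8), false, true, false, (nat_lit 324), (nat_lit 3535), (nat_lit 3873), [(nat_lit 1636378), (nat_lit 1637933), (nat_lit 1647271), (nat_lit 1648906), (nat_lit 1975146), (nat_lit 1967461), (nat_lit 1986040), (nat_lit 1978435)]⟩, ⟨(nat_lit 3), false, false, false, (nat_lit 105), (nat_lit 3535), (nat_lit 3873), [(nat_lit 1106345), (nat_lit 1114069), (nat_lit 1171707), (nat_lit 1179909), (nat_lit 1348304), (nat_lit 1349427), (nat_lit 1413684), (nat_lit 1415284)]⟩, (nat_lit 4571230), (nat_lit 37695146), (nat_lit 25118790), (nat_lit 4186064), (nat_lit 3), (nat_lit 0), [], [⟨(nat_lit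 0), (nat_lit 100), (nat_lit 71), (nat_lit 55), (nat_lit 101580551)⟩], [], [],
 ⟨⟨[(nat_lit 40), (nat_lit 100), (nat_lit 160)], [(nat_lit 0), (nat_lit 1192), (nat_lit 5376)], [((nat_lit 0), (nat_lit 0), (nat_lit 0)), ((nat_lit 1000), (nat_lit 814), (nat_lit 310)), ((nat_lit 919), (nat_lit 747), (nat_lit 1000))], ((nat_lit 75), (nat_lit 92), (nat_lit 100))⟩, (nat_lit 260739), (nat_lit 300), (nat_lit 357), (nat_lit 49570388), (nat_lit 239477), [(nat_lit 1981821928), (nat_lit 5267839603), (nat_lit 9080146000)], [(nat_lit 0), (nat_lit 0), (nat_lit 0)], [(nat_lit 40705765714), (nat_lit 41251047281), (nat_lit 45657538723), (nat_lit 45956831720), (nat_lit 34354315170), (nat_lit 34816934950), (nat_lit 38438564237), (nat_lit 38690970374)], (nat_lit 1271251), (nat_lit 1271251), (nat_lit 1271251), (nat_lit 1271251), (nat_lit 54688), (nat_lit 1100000), [(nat_lit 490000), (nat_lit 1427501), (nat_lit 1271251)], [(nat_lit 6), (nat_lit 56), (nat_lit 373), (nat_lit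 150), (nat_lit 9)]⟩,
 ⟨⟨[(nat_lit 40), (nat_lit 100), (nat_lit 160)], [(nat_lit 0), (nat_lit 1192), (nat_lit 5376)], [((nat_lit 0), (nat_lit 0), (nat_lit 0)), ((nat_lit 1000), (nat_lit 814), (nat_lit 310)), ((nat_lit 919), (nat_lit 747), (nat_lit 1000))], ((nat_lit 75), (nat_lit 92), (nat_lit 100))⟩, (nat_lit 2212562), (nat_lit 357), (nat_lit 357), (nat_lit 0), (nat_lit 239477), [(nat_lit 1952752000), (nat_lit 6006250000), (nat_lit 11408992000)], [], [(nat_lit 25107719552), (nat_lit 25839875391), (nat_lit 37177546441), (nat_lit 37858839694), (nat_lit 21331376152), (nat_lit 21855034045), (nat_lit 31354200138), (nat_lit 31953953513)], (nat_lit 1271251), (nat_lit 1271251), (nat_lit 1271251), (nat_lit 1271251), (nat_lit 54688), (nat_lit 1100000), [(nat_lit 490000), (nat_lit 1427501), (nat_lit 1271251)], [(nat_lit 6), (nat_lit 56), (nat_lit 373), (nat_lit 150), (nat_lit 9)]⟩,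
 Rw.none⟩) (.leaf ⟨(nat_lit 0), (nat_lit 945), (nat_lit 0), (nat_lit 55), (nat_lit 25222), (nat_lit 5530), (nat_lit 5252), (nat_lit 601), (nat_lit 11080248314065), (nat_lit 0), (nat_lit 0), [], Pd.none, Pd.none, (nat_lit 0), (nat_lit 1), (nat_lit 0), (nat_lit 0), (nat_lit 4), (nat_lit 0), [], [⟨(nat_lit 1), (nat_lit 90), (nat_lit 71), (nat_lit 100), (nat_lit 385387475)⟩], [], [],
 ⟨⟨[(nat_lit 40), (nat_lit 100), (nat_lit 160)], [(nat_lit 0), (nat_lit 1192), (nat_lit 5376)], [((nat_lit 0), (nat_lit 0), (nat_lit 0)), ((nat_lit 1000), (nat_lit 814), (nat_lit 310)), ((nat_lit 919), (nat_lit 747), (nat_lit 1000))], ((nat_lit 75), (nat_lit 92), (nat_lit 100))⟩, (nat_lit 1932548), (nat_lit 226), (nat_lit 226), (nat_lit 0), (nat_lit 239477), [(nat_lit 2251271193), (nat_lit 6250000456), (nat_lit 11872000000)], [], [(nat_lit 25309342307), (nat_lit 25810301075), (nat_lit 32047279460), (nat_lit 32648445330), (nat_lit 28675162573), (nat_lit 29031903661), (nat_lit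 35561275605), (nat_lit 35982600105)], (nat_lit 1271251), (nat_lit 1271251), (nat_lit 1271251), (nat_lit 1271251), (nat_lit 1100000), (nat_lit 2555626), [(nat_lit 490000), (nat_lit 1427501), (nat_lit 1271251)], [(nat_lit 6), (nat_lit 56), (nat_lit 428), (nat_lit 200), (nat_lit 10)]⟩,
 ⟨⟨[(nat_lit 40), (nat_lit 100), (nat_lit 160)], [(nat_lit 0), (nat_lit 1192), (nat_lit 5376)], [((nat_lit 0), (nat_lit 0), (nat_lit 0)), ((nat_lit 1000), (nat_lit 814), (nat_lit 310)), ((nat_lit 919), (nat_lit 747), (nat_lit 1000))], ((nat_lit 75), (nat_lit 92), (nat_lit 100))⟩, (nat_lit 2266142), (nat_lit 357), (nat_lit 357), (nat_lit 0), (nat_lit 239477), [(nat_lit 2032000000), (nat_lit 6250000000), (nat_lit 11872000000)], [], [(nat_lit 26312693894), (nat_lit 26881859534), (nat_lit 36727455460), (nat_lit 37391267671), (nat_lit 23567246860), (nat_lit 24056426336), (nat_lit 31666674664), (nat_lit 32252778772)], (nat_lit 1271251), (nat_lit 1271251), (nat_lit 1271251),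 (nat_lit 1271251), (nat_lit 54688), (nat_lit 1100000), [(nat_lit 490000), (nat_lit 1427501), (nat_lit 1271251)], [(nat_lit 6), (nat_lit 56), (nat_lit 373), (nat_lit 150), (nat_lit 9)]⟩,
 ⟨⟨[(nat_lit 140), (nat_lit 180), (nat_lit 200)], [(nat_lit 0), (nat_lit 0), (nat_lit 2835)], [((nat_lit 0), (nat_lit 0), (nat_lit 0)), ((nat_lit 0), (nat_lit 0), (nat_lit 0)), ((nat_lit 363), (nat_lit 1000), (nat_lit 798))], ((nat_lit 0), (nat_lit 0), (nat_lit 0))⟩, (nat_lit 15132), (nat_lit 300), (nat_lit 1461), (nat_lit 4295504), (nat_lit 2157960), [(nat_lit 541310000), (nat_lit 773190000), (nat_lit 902000000)], [], [(nat_lit 4205955937), (nat_lit 4069667558), (nat_lit 3915155788), (nat_lit 3890142069), (nat_lit 3765468456), (nat_lit 3633228242), (nat_lit 4092459872), (nat_lit 4572828900)], (nat_lit 780000), (nat_lit 1271251), (nat_lit 1100000), (nat_lit 2555626), (nat_lit 54688), (nat_lit 1100000), [(nat_lit 1977501), (nat_lit 1271251), (nat_lit 1271251)],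 [(nat_lit 32), (nat_lit 67), (nat_lit 449), (nat_lit 175), (nat_lit 10)]⟩⟩)))))
noncomputable def c9_19 : Tr Lf :=
 (.spl (nat_lit 5) (nat_lit 240) (.spl (nat_lit 4) (nat_lit 160) (.leaf ⟨(nat_lit 0), (nat_lit 988), (nat_lit 0), (nat_lit 12), (nat_lit 565), (nat_lit 8107), (nat_lit 8373), (nat_lit 181), (nat_lit 253336), (nat_lit 0), (nat_lit 0), [], Pd.none, Pd.none, (nat_lit 0), (nat_lit 1), (nat_lit 0), (nat_lit 0), (nat_lit 4), (nat_lit 0), [], [⟨(nat_lit 0), (nat_lit 100), (nat_lit 71), (nat_lit 55), (nat_lit 61956614)⟩], [], [],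
 ⟨⟨[(nat_lit 40), (nat_lit 100), (nat_lit 140)], [(nat_lit 0), (nat_lit 1192), (nat_lit 4003)], [((nat_lit 0), (nat_lit 0), (nat_lit 0)), ((nat_lit 1000), (nat_lit 814), (nat_lit 310)), ((nat_lit 992), (nat_lit 771), (nat_lit 1000))], ((nat_lit 76), (nat_lit 100), (nat_lit 97))⟩, (nat_lit 467826), (nat_lit 300), (nat_lit 318), (nat_lit 56923519), (nat_lit 237477), [(nat_lit 2228048555), (nat_lit 6250000007), (nat_lit 9842000000)], [], [(nat_lit 37051694464), (nat_lit 37731696712), (nat_lit 44703420068), (nat_lit 45550989179), (nat_lit 31618445108), (nat_lit 32168588348), (nat_lit 37167717026), (nat_lit 37473481596)], (nat_lit 1271251), (nat_lit 1271251), (nat_lit 1100000), (nat_lit 3155001), (nat_lit 54688), (nat_lit 1100000), [(nat_lit 490000), (nat_lit 1427501), (nat_lit 1271251)], [(nat_lit 5), (nat_lit 55), (nat_lit 373), (nat_lit 150), (nat_lit 10)]⟩,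
 ⟨⟨[(nat_lit 40), (nat_lit 100), (nat_lit 160)], [(nat_lit 0), (nat_lit 0), (nat_lit 4607)], [((nat_lit 0), (nat_lit 0), (nat_lit 0)), ((nat_lit 0), (nat_lit 0), (nat_lit 0)), ((nat_lit 846), (nat_lit 837), (nat_lit 1000))], ((nat_lit 88), (nat_lit 97), (nat_lit 100))⟩, (nat_lit 2138227), (nat_lit 228), (nat_lit 228), (nat_lit 0), (nat_lit 245636), [(nat_lit 2032000000), (nat_lit 6250000000), (nat_lit 11872000000)], [], [(nat_lit 21942349703), (nat_lit 23915980135), (nat_lit 34429186052), (nat_lit 36694776353), (nat_lit 22939186999), (nat_lit 25010003483), (nat_lit 35005926268), (nat_lit 36941681367)], (nat_lit 1271251), (nat_lit 1271251), (nat_lit 1100000), (nat_lit 3155001), (nat_lit 1100000), (nat_lit 1785001), [(nat_lit 490000), (nat_lit 1427501), (nat_lit 1271251)], [(nat_lit 6), (nat_lit 56), (nat_lit 401), (nat_lit 175), (nat_lit 10)]⟩,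
 ⟨⟨[(nat_lit 140), (nat_lit 180), (nat_lit 200)], [(nat_lit 0), (nat_lit 0), (nat_lit 2835)], [((nat_lit 0), (nat_lit 0), (nat_lit 0)), ((nat_lit 0), (nat_lit 0), (nat_lit 0)), ((nat_lit 363), (nat_lit 1000), (nat_lit 798))], ((nat_lit 0), (nat_lit 0), (nat_lit 0))⟩, (nat_lit 3302), (nat_lit 300), (nat_lit 1454), (nat_lit 937200), (nat_lit 2142467), [(nat_lit 118104000), (nat_lit 168696000), (nat_lit 196800000)], [], [(nat_lit 805862224), (nat_lit 765444674), (nat_lit 632576704), (nat_lit 714694694), (nat_lit 768141776), (nat_lit 739208708), (nat_lit 778410896), (nat_lit 906864154)], (nat_lit 780000), (nat_lit 1271251), (nat_lit 54688), (nat_lit 1100000), (nat_lit 1100000), (nat_lit 1785001), [(nat_lit 1977501), (nat_lit 1271251), (nat_lit 1271251)], [(nat_lit 32), (nat_lit 67), (nat_lit 436), (nat_lit 150), (nat_lit 9)]⟩⟩) (.spl (nat_lit 0) (nat_lit 345) (.ord (.leaf ⟨(nat_lit 0), (nat_lit 849), (nat_lit 0), (nat_lit 151), (nat_lit 0), (nat_lit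 9933), (nat_lit 7889), (nat_lit 1569), (nat_lit 880292770447), (nat_lit 0), (nat_lit 0), [], Pd.none, Pd.none, (nat_lit 0), (nat_lit 1), (nat_lit 0), (nat_lit 0), (nat_lit 4), (nat_lit 0), [], [⟨(nat_lit 1), (nat_lit 89), (nat_lit 72), (nat_lit 100), (nat_lit 366529001)⟩], [], [],
 ⟨⟨[(nat_lit 40), (nat_lit 100), (nat_lit 140)], [(nat_lit 0), (nat_lit 1192), (nat_lit 4003)], [((nat_lit 0), (nat_lit 0), (nat_lit 0)), ((nat_lit 1000), (nat_lit 814), (nat_lit 310)), ((nat_lit 992), (nat_lit 771), (nat_lit 1000))], ((nat_lit 76), (nat_lit 100), (nat_lit 97))⟩, (nat_lit 0), (nat_lit 186), (nat_lit 186), (nat_lit 0), (nat_lit 176907), [(nat_lit 2032000198), (nat_lit 6250000155), (nat_lit 9842000000)], [], [(nat_lit 27222180914), (nat_lit 27752809421), (nat_lit 38184440673), (nat_lit 38495205510), (nat_lit 33422601100), (nat_lit 33773899692), (nat_lit 43725222843), (nat_lit 42665899744)], (nat_lit 1271251), (nat_lit 1271251), (nat_lit 1100000), (nat_lit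 3155001), (nat_lit 1100000), (nat_lit 2555626), [(nat_lit 490000), (nat_lit 1427501), (nat_lit 1271251)], [(nat_lit 5), (nat_lit 55), (nat_lit 428), (nat_lit 200), (nat_lit 11)]⟩,
 ⟨⟨[(nat_lit 40), (nat_lit 100), (nat_lit 160)], [(nat_lit 0), (nat_lit 0), (nat_lit 4607)], [((nat_lit 0), (nat_lit 0), (nat_lit 0)), ((nat_lit 0), (nat_lit 0), (nat_lit 0)), ((nat_lit 846), (nat_lit 837), (nat_lit 1000))], ((nat_lit 88), (nat_lit 97), (nat_lit 100))⟩, (nat_lit 1711414), (nat_lit 209), (nat_lit 209), (nat_lit 0), (nat_lit 182570), [(nat_lit 2032000000), (nat_lit 6250000000), (nat_lit 11872000000)], [], [(nat_lit 23579778102), (nat_lit 25614174766), (nat_lit 33818995636), (nat_lit 35641430964), (nat_lit 25106247354), (nat_lit 26846295958), (nat_lit 34854865128), (nat_lit 36029025758)], (nat_lit 1271251), (nat_lit 1271251), (nat_lit 1100000), (nat_lit 3155001), (nat_lit 1100000), (nat_lit 1785001), [(nat_lit 490000), (nat_lit 1427501), (nat_lit 1271251)],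 [(nat_lit 6), (nat_lit 56), (nat_lit 401), (nat_lit 175), (nat_lit 10)]⟩,
 ⟨⟨[(nat_lit 140), (nat_lit 180), (nat_lit 200)], [(nat_lit 0), (nat_lit 0), (nat_lit 2835)], [((nat_lit 0), (nat_lit 0), (nat_lit 0)), ((nat_lit 0), (nat_lit 0), (nat_lit 0)), ((nat_lit 363), (nat_lit 1000), (nat_lit 798))], ((nat_lit 0), (nat_lit 0), (nat_lit 0))⟩, (nat_lit 41545), (nat_lit 300), (nat_lit 1084), (nat_lit 11793100), (nat_lit 1552466), [(nat_lit 1486142000), (nat_lit 2122758000), (nat_lit 2476400000)], [], [(nat_lit 10597711217), (nat_lit 10256953642), (nat_lit 9925666451), (nat_lit 9578343662), (nat_lit 10213249082), (nat_lit 9871411712), (nat_lit 9526670266), (nat_lit 9180721954)], (nat_lit 780000), (nat_lit 1271251), (nat_lit 1100000), (nat_lit 2555626), (nat_lit 1100000), (nat_lit 1785001), [(nat_lit 1977501), (nat_lit 1271251), (nat_lit 1271251)], [(nat_lit 32), (nat_lit 67), (nat_lit 428), (nat_lit 200), (nat_lit 9)]⟩⟩)) (.trZ (nat_lit 0) (nat_lit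 1) (nat_lit 3) (nat_lit 81) (nat_lit 69) (nat_lit 100) (nat_lit 170) (.leaf ⟨(nat_lit 0), (nat_lit 891), (nat_lit 0), (nat_lit 109), (nat_lit 0), (nat_lit 9531), (nat_lit 8379), (nat_lit 1147), (nat_lit 1199077214858), (nat_lit 0), (nat_lit 0), [], Pd.none, Pd.none, (nat_lit 0), (nat_lit 1), (nat_lit 0), (nat_lit 0), (nat_lit 4), (nat_lit 0), [], [⟨(nat_lit 1), (nat_lit 91), (nat_lit 70), (nat_lit 100), (nat_lit 312470547)⟩], [], [],
 ⟨⟨[(nat_lit 40), (nat_lit 100), (nat_lit 140)], [(nat_lit 0), (nat_lit 1489), (nat_lit 4216)], [((nat_lit 0), (nat_lit 0), (nat_lit 0)), ((nat_lit 1000), (nat_lit 767), (nat_lit 387)), ((nat_lit 975), (nat_lit 733), (nat_lit 1000))], ((nat_lit 73), (nat_lit 100), (nat_lit 96))⟩, (nat_lit 101555), (nat_lit 205), (nat_lit 205), (nat_lit 0), (nat_lit 236666), [(nat_lit 2859567314), (nat_lit 7471415101), (nat_lit 9842000000)], [], [(nat_lit 28654294181), (nat_lit 28624685348), (nat_lit 38075451978), (nat_lit 38342912591),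 (nat_lit 33531770555), (nat_lit 33867866722), (nat_lit 40942744234), (nat_lit 41211020884)], (nat_lit 1271251), (nat_lit 1271251), (nat_lit 1184688), (nat_lit 3175626), (nat_lit 1100000), (nat_lit 2555626), [(nat_lit 490000), (nat_lit 1427501), (nat_lit 1271251)], [(nat_lit 5), (nat_lit 55), (nat_lit 428), (nat_lit 200), (nat_lit 11)]⟩,
 ⟨⟨[(nat_lit 40), (nat_lit 100), (nat_lit 160)], [(nat_lit 0), (nat_lit 0), (nat_lit 4607)], [((nat_lit 0), (nat_lit 0), (nat_lit 0)), ((nat_lit 0), (nat_lit 0), (nat_lit 0)), ((nat_lit 846), (nat_lit 837), (nat_lit 1000))], ((nat_lit 88), (nat_lit 97), (nat_lit 100))⟩, (nat_lit 1967703), (nat_lit 228), (nat_lit 228), (nat_lit 0), (nat_lit 245636), [(nat_lit 2032000000), (nat_lit 6250000000), (nat_lit 11872000000)], [], [(nat_lit 22842486221), (nat_lit 24801171038), (nat_lit 34436750396), (nat_lit 36703315919), (nat_lit 23789129603), (nat_lit 25879975308), (nat_lit 35378807108), (nat_lit 36949125330)], (nat_lit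 1271251), (nat_lit 1271251), (nat_lit 1184688), (nat_lit 3175626), (nat_lit 1100000), (nat_lit 1785001), [(nat_lit 490000), (nat_lit 1427501), (nat_lit 1271251)], [(nat_lit 6), (nat_lit 56), (nat_lit 401), (nat_lit 175), (nat_lit 9)]⟩,
 ⟨⟨[(nat_lit 140), (nat_lit 180), (nat_lit 200)], [(nat_lit 0), (nat_lit 0), (nat_lit 2835)], [((nat_lit 0), (nat_lit 0), (nat_lit 0)), ((nat_lit 0), (nat_lit 0), (nat_lit 0)), ((nat_lit 363), (nat_lit 1000), (nat_lit 798))], ((nat_lit 0), (nat_lit 0), (nat_lit 0))⟩, (nat_lit 29989), (nat_lit 300), (nat_lit 1353), (nat_lit 8512906), (nat_lit 2142467), [(nat_lit 1072778000), (nat_lit 1532322000), (nat_lit 1787600000)], [], [(nat_lit 7748814882), (nat_lit 7499912494), (nat_lit 7209078127), (nat_lit 6958834108), (nat_lit 7455908176), (nat_lit 7207362696), (nat_lit 6911606324), (nat_lit 6662078392)], (nat_lit 780000), (nat_lit 1271251), (nat_lit 1100000), (nat_lit 2555626), (nat_lit 1100000), (nat_lit 1785001), [(nat_lit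 1977501), (nat_lit 1271251), (nat_lit 1271251)], [(nat_lit 32), (nat_lit 67), (nat_lit 432), (nat_lit 200), (nat_lit 9)]⟩⟩)))) (.stt (nat_lit 2) (.leaf ⟨(nat_lit 0), (nat_lit 905), (nat_lit 0), (nat_lit 95), (nat_lit 6489), (nat_lit 9307), (nat_lit 6510), (nat_lit 1087), (nat_lit 1235795), (nat_lit 0), (nat_lit 0), [], Pd.none, Pd.none, (nat_lit 0), (nat_lit 1), (nat_lit 0), (nat_lit 0), (nat_lit 6), (nat_lit 0), [], [], [⟨(nat_lit 1), (nat_lit 87), (nat_lit 76), (nat_lit 100), (nat_lit 530899411)⟩], [],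
 ⟨⟨[(nat_lit 40), (nat_lit 100), (nat_lit 140)], [(nat_lit 0), (nat_lit 1192), (nat_lit 4003)], [((nat_lit 0), (nat_lit 0), (nat_lit 0)), ((nat_lit 1000), (nat_lit 814), (nat_lit 310)), ((nat_lit 992), (nat_lit 771), (nat_lit 1000))], ((nat_lit 76), (nat_lit 100), (nat_lit 97))⟩, (nat_lit 467826), (nat_lit 300), (nat_lit 318), (nat_lit 56923519), (nat_lit 237477), [(nat_lit 2211338464), (nat_lit 6250000075), (nat_lit 9842000000)], [], [(nat_lit 35977727704), (nat_lit 36716981332), (nat_lit 48055839518), (nat_lit 48980644454), (nat_lit 32195567669), (nat_lit 32607829227), (nat_lit 41165476739), (nat_lit 40918302500)], (nat_lit 1271251), (nat_lit 1271251), (nat_lit 1100000), (nat_lit 3155001), (nat_lit 54688), (nat_lit 2344688), [(nat_lit 490000), (nat_lit 1427501), (nat_lit 1271251)], [(nat_lit 5), (nat_lit 55), (nat_lit 428), (nat_lit 200), (nat_lit 12)]⟩,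
 ⟨⟨[(nat_lit 40), (nat_lit 100), (nat_lit 160)], [(nat_lit 0), (nat_lit 0), (nat_lit 4607)], [((nat_lit 0), (nat_lit 0), (nat_lit 0)), ((nat_lit 0), (nat_lit 0), (nat_lit 0)), ((nat_lit 846), (nat_lit 837), (nat_lit 1000))], ((nat_lit 88), (nat_lit 97), (nat_lit 100))⟩, (nat_lit 0), (nat_lit 90), (nat_lit 90), (nat_lit 0), (nat_lit 0), [(nat_lit 2032000000), (nat_lit 6250000000), (nat_lit 11872000000)], [], [(nat_lit 22910259360), (nat_lit 25381046325), (nat_lit 33262725320), (nat_lit 34630446410), (nat_lit 29224523205), (nat_lit 31085883717), (nat_lit 36840558765), (nat_lit 38108611575)], (nat_lit 0), (nat_lit 0), (nat_lit 0), (nat_lit 0), (nat_lit 0), (nat_lit 0), [], [(nat_lit 6), (nat_lit 56), (nat_lit 428), (nat_lit 200), (nat_lit 10)]⟩,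
 ⟨⟨[(nat_lit 140), (nat_lit 180), (nat_lit 200)], [(nat_lit 0), (nat_lit 0), (nat_lit 2835)], [((nat_lit 0), (nat_lit 0), (nat_lit 0)), ((nat_lit 0), (nat_lit 0), (nat_lit 0)), ((nat_lit 363), (nat_lit 1000), (nat_lit 798))], ((nat_lit 0), (nat_lit 0), (nat_lit 0))⟩, (nat_lit 26138), (nat_lit 300), (nat_lit 1417), (nat_lit 7419500), (nat_lit 2142467), [(nat_lit 934990000), (nat_lit 1335510000), (nat_lit 1558000000)], [], [(nat_lit 6709403502), (nat_lit 6456224434), (nat_lit 5352545577), (nat_lit 5931109707), (nat_lit 6557584690), (nat_lit 6299131586), (nat_lit 5162379638), (nat_lit 4913354798)], (nat_lit 780000), (nat_lit 1271251), (nat_lit 54688), (nat_lit 2344688), (nat_lit 1271251), (nat_lit 1271251), [(nat_lit 1977501), (nat_lit 1271251), (nat_lit 1271251)], [(nat_lit 32), (nat_lit 67), (nat_lit 462), (nat_lit 225), (nat_lit 10)]⟩⟩) (.spl (nat_lit 3) (nat_lit 280) (.leaf ⟨(nat_lit 0), (nat_lit 786), (nat_lit 0), (nat_lit 214), (nat_lit 2381),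 (nat_lit 6158), (nat_lit 6964), (nat_lit 2348), (nat_lit 91074), (nat_lit 0), (nat_lit 0), [], Pd.none, Pd.none, (nat_lit 0), (nat_lit 1), (nat_lit 0), (nat_lit 0), (nat_lit 6), (nat_lit 0), [⟨(nat_lit 0), (nat_lit 74), (nat_lit 69), (nat_lit 100), (nat_lit 408108960)⟩], [], [⟨(nat_lit 1), (nat_lit 87), (nat_lit 76), (nat_lit 100), (nat_lit 293127301)⟩], [],
 ⟨⟨[(nat_lit 40), (nat_lit 100), (nat_lit 140)], [(nat_lit 0), (nat_lit 1192), (nat_lit 4003)], [((nat_lit 0), (nat_lit 0), (nat_lit 0)), ((nat_lit 1000), (nat_lit 814), (nat_lit 310)), ((nat_lit 992), (nat_lit 771), (nat_lit 1000))], ((nat_lit 76), (nat_lit 100), (nat_lit 97))⟩, (nat_lit 1883009), (nat_lit 232), (nat_lit 232), (nat_lit 0), (nat_lit 139526), [(nat_lit 2500148359), (nat_lit 6250000068), (nat_lit 9842000000)], [], [(nat_lit 26259909901), (nat_lit 26981071340), (nat_lit 29672615609), (nat_lit 30386542899), (nat_lit 27462385704), (nat_lit 28263931981), (nat_lit 30521007960), (nat_lit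 31149126076)], (nat_lit 1271251), (nat_lit 1271251), (nat_lit 1100000), (nat_lit 2127501), (nat_lit 54688), (nat_lit 2344688), [(nat_lit 490000), (nat_lit 1427501), (nat_lit 1271251)], [(nat_lit 5), (nat_lit 55), (nat_lit 401), (nat_lit 175), (nat_lit 11)]⟩,
 ⟨⟨[(nat_lit 40), (nat_lit 100), (nat_lit 160)], [(nat_lit 0), (nat_lit 0), (nat_lit 4607)], [((nat_lit 0), (nat_lit 0), (nat_lit 0)), ((nat_lit 0), (nat_lit 0), (nat_lit 0)), ((nat_lit 846), (nat_lit 837), (nat_lit 1000))], ((nat_lit 88), (nat_lit 97), (nat_lit 100))⟩, (nat_lit 1907263), (nat_lit 218), (nat_lit 218), (nat_lit 0), (nat_lit 245636), [(nat_lit 2032000000), (nat_lit 6250000000), (nat_lit 11872000000)], [], [(nat_lit 24765568111), (nat_lit 26709399973), (nat_lit 27211642727), (nat_lit 28733956703), (nat_lit 29494585881), (nat_lit 30956483672), (nat_lit 31381830915), (nat_lit 33151810717)], (nat_lit 1271251), (nat_lit 1271251), (nat_lit 1100000), (nat_lit 2127501), (nat_lit 1271251),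 (nat_lit 1271251), [(nat_lit 490000), (nat_lit 1427501), (nat_lit 1271251)], [(nat_lit 6), (nat_lit 56), (nat_lit 401), (nat_lit 175), (nat_lit 9)]⟩,
 ⟨⟨[(nat_lit 140), (nat_lit 180), (nat_lit 200)], [(nat_lit 0), (nat_lit 0), (nat_lit 2835)], [((nat_lit 0), (nat_lit 0), (nat_lit 0)), ((nat_lit 0), (nat_lit 0), (nat_lit 0)), ((nat_lit 363), (nat_lit 1000), (nat_lit 798))], ((nat_lit 0), (nat_lit 0), (nat_lit 0))⟩, (nat_lit 58878), (nat_lit 300), (nat_lit 1045), (nat_lit 16713405), (nat_lit 1312455), [(nat_lit 2106188000), (nat_lit 3008412000), (nat_lit 3509600000)], [], [(nat_lit 15599352173), (nat_lit 15058467712), (nat_lit 12668927233), (nat_lit 13278830700), (nat_lit 15130442851), (nat_lit 14575781699), (nat_lit 12133756909), (nat_lit 11592795863)], (nat_lit 780000), (nat_lit 1271251), (nat_lit 54688), (nat_lit 2344688), (nat_lit 1271251), (nat_lit 1271251), [(nat_lit 1977501), (nat_lit 1271251), (nat_lit 1271251)], [(nat_lit 32), (nat_lit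 67), (nat_lit 456), (nat_lit 225), (nat_lit 10)]⟩⟩) (.trZ (nat_lit 5) (nat_lit 3) (nat_lit 4) (nat_lit 94) (nat_lit 100) (nat_lit 59) (nat_lit 30) (.leaf ⟨(nat_lit 0), (nat_lit 806), (nat_lit 0), (nat_lit 194), (nat_lit 0), (nat_lit 6010), (nat_lit 7814), (nat_lit 2059), (nat_lit 250772), (nat_lit 0), (nat_lit 0), [], Pd.none, Pd.none, (nat_lit 0), (nat_lit 1), (nat_lit 0), (nat_lit 0), (nat_lit 6), (nat_lit 0), [], [], [⟨(nat_lit 1), (nat_lit 87), (nat_lit 76), (nat_lit 100), (nat_lit 284340328)⟩], [],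
 ⟨⟨[(nat_lit 40), (nat_lit 100), (nat_lit 140)], [(nat_lit 0), (nat_lit 1192), (nat_lit 4003)], [((nat_lit 0), (nat_lit 0), (nat_lit 0)), ((nat_lit 1000), (nat_lit 814), (nat_lit 310)), ((nat_lit 992), (nat_lit 771), (nat_lit 1000))], ((nat_lit 76), (nat_lit 100), (nat_lit 97))⟩, (nat_lit 1240985), (nat_lit 252), (nat_lit 252), (nat_lit 0), (nat_lit 139526), [(nat_lit 2527477394), (nat_lit 6250000016), (nat_lit 9842000000)], [], [(nat_lit 31888120158), (nat_lit 32441635330), (nat_lit 37714068694), (nat_lit 38202848859), (nat_lit 32102520328), (nat_lit 32440497629), (nat_lit 36174705285), (nat_lit 36609853785)], (nat_lit 1271251), (nat_lit 1271251), (nat_lit 1271251), (nat_lit 1271251), (nat_lit 169688), (nat_lit 2372813), [(nat_lit 490000), (nat_lit 1427501), (nat_lit 1271251)], [(nat_lit 5), (nat_lit 55), (nat_lit 317), (nat_lit 100), (nat_lit 8)]⟩,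
 ⟨⟨[(nat_lit 40), (nat_lit 100), (nat_lit 160)], [(nat_lit 0), (nat_lit 0), (nat_lit 4607)], [((nat_lit 0), (nat_lit 0), (nat_lit 0)), ((nat_lit 0), (nat_lit 0), (nat_lit 0)), ((nat_lit 846), (nat_lit 837), (nat_lit 1000))], ((nat_lit 88), (nat_lit 97), (nat_lit 100))⟩, (nat_lit 1024414), (nat_lit 210), (nat_lit 210), (nat_lit 0), (nat_lit 245636), [(nat_lit 2032000000), (nat_lit 6250000000), (nat_lit 11872000000)], [], [(nat_lit 30726820770), (nat_lit 32339571771), (nat_lit 35930449718), (nat_lit 37037410061), (nat_lit 34381664935), (nat_lit 35575218506), (nat_lit 38511441121), (nat_lit 39878964355)], (nat_lit 1271251), (nat_lit 1271251), (nat_lit 1271251), (nat_lit 1271251), (nat_lit 1271251), (nat_lit 1271251), [(nat_lit 490000), (nat_lit 1427501), (nat_lit 1271251)], [(nat_lit 6), (nat_lit 56), (nat_lit 428), (nat_lit 200), (nat_lit 10)]⟩,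
 ⟨⟨[(nat_lit 140), (nat_lit 180), (nat_lit 200)], [(nat_lit 0), (nat_lit 0), (nat_lit 2835)], [((nat_lit 0), (nat_lit 0), (nat_lit 0)), ((nat_lit 0), (nat_lit 0), (nat_lit 0)), ((nat_lit 363), (nat_lit 1000), (nat_lit 798))], ((nat_lit 0), (nat_lit 0), (nat_lit 0))⟩, (nat_lit 53376), (nat_lit 300), (nat_lit 1030), (nat_lit 15151400), (nat_lit 1312455), [(nat_lit 1909348000), (nat_lit 2727252000), (nat_lit 3181600000)], [], [(nat_lit 14205809281), (nat_lit 13739366281), (nat_lit 11929667727), (nat_lit 12234743331), (nat_lit 13805248872), (nat_lit 13326569365), (nat_lit 11468612433), (nat_lit 10998061189)], (nat_lit 780000), (nat_lit 1271251), (nat_lit 169688), (nat_lit 2372813), (nat_lit 1271251), (nat_lit 1271251), [(nat_lit 1977501), (nat_lit 1271251), (nat_lit 1271251)], [(nat_lit 32), (nat_lit 67), (nat_lit 456), (nat_lit 225), (nat_lit 10)]⟩⟩)))))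
noncomputable def c9_20 : Tr Lf :=
 (.spl (nat_lit 4) (nat_lit 160) (.spl (nat_lit 0) (nat_lit 345) (.ord (.spl (nat_lit 6) (nat_lit 124) (.leaf ⟨(nat_lit 0), (nat_lit 984), (nat_lit 0), (nat_lit 16), (nat_lit 36960), (nat_lit 6657), (nat_lit 6654), (nat_lit 120), (nat_lit 744304840796), (nat_lit 0), (nat_lit 0), [], Pd.none, Pd.none, (nat_lit 0), (nat_lit 1), (nat_lit 0), (nat_lit 0), (nat_lit 4), (nat_lit 0), [], [], [⟨(nat_lit 1), (nat_lit 86), (nat_lit 77), (nat_lit 100), (nat_lit 471240792)⟩], [],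
 ⟨⟨[(nat_lit 40), (nat_lit 100), (nat_lit 140)], [(nat_lit 0), (nat_lit 1192), (nat_lit 4003)], [((nat_lit 0), (nat_lit 0), (nat_lit 0)), ((nat_lit 1000), (nat_lit 814), (nat_lit 310)), ((nat_lit 992), (nat_lit 771), (nat_lit 1000))], ((nat_lit 77), (nat_lit 99), (nat_lit 100))⟩, (nat_lit 1356524), (nat_lit 229), (nat_lit 229), (nat_lit 0), (nat_lit 42296), [(nat_lit 2645109755), (nat_lit 6250000021), (nat_lit 9842000000)], [], [(nat_lit 28621257785), (nat_lit 28998620342), (nat_lit 40652579899), (nat_lit 41029701144), (nat_lit 24898429167), (nat_lit 25218353796), (nat_lit 34277421548), (nat_lit 33921347676)], (nat_lit 1271251), (nat_lit 1271251), (nat_lit 1100000), (nat_lit 3155001), (nat_lit 54688), (nat_lit 1100000), [(nat_lit 490000), (nat_lit 1427501), (nat_lit 1271251)], [(nat_lit 5), (nat_lit 55), (nat_lit 373), (nat_lit 150), (nat_lit 10)]⟩,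
 ⟨⟨[(nat_lit 40), (nat_lit 100), (nat_lit 160)], [(nat_lit 0), (nat_lit 0), (nat_lit 4607)], [((nat_lit 0), (nat_lit 0), (nat_lit 0)), ((nat_lit 0), (nat_lit 0), (nat_lit 0)), ((nat_lit 846), (nat_lit 837), (nat_lit 1000))], ((nat_lit 86), (nat_lit 93), (nat_lit 100))⟩, (nat_lit 1754237), (nat_lit 168), (nat_lit 168), (nat_lit 0), (nat_lit 47136), [(nat_lit 2032000000), (nat_lit 6250000000), (nat_lit 11872000000)], [], [(nat_lit 24077056541), (nat_lit 25912341874), (nat_lit 32904224093), (nat_lit 33917446136), (nat_lit 30303198658), (nat_lit 31495977373), (nat_lit 37025073381), (nat_lit 38090937776)], (nat_lit 1271251), (nat_lit 1271251), (nat_lit 1271251), (nat_lit 1271251), (nat_lit 1100000), (nat_lit 2726876), [(nat_lit 490000), (nat_lit 1427501), (nat_lit 1271251)], [(nat_lit 6), (nat_lit 56), (nat_lit 428), (nat_lit 200), (nat_lit 10)]⟩,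
 ⟨⟨[(nat_lit 140), (nat_lit 180), (nat_lit 200)], [(nat_lit 0), (nat_lit 0), (nat_lit 2835)], [((nat_lit 0), (nat_lit 0), (nat_lit 0)), ((nat_lit 0), (nat_lit 0), (nat_lit 0)), ((nat_lit 363), (nat_lit 1000), (nat_lit 798))], ((nat_lit 0), (nat_lit 0), (nat_lit 0))⟩, (nat_lit 4402), (nat_lit 300), (nat_lit 640), (nat_lit 1249602), (nat_lit 342593), [(nat_lit 157472000), (nat_lit 224928000), (nat_lit 262400000)], [], [(nat_lit 1221022608), (nat_lit 1201252266), (nat_lit 1122946973), (nat_lit 1104239371), (nat_lit 1212630754), (nat_lit 1189709662), (nat_lit 1113873792), (nat_lit 1220666866)], (nat_lit 780000), (nat_lit 1271251), (nat_lit 54688), (nat_lit 1100000), (nat_lit 1100000), (nat_lit 2726876), [(nat_lit 1977501), (nat_lit 1271251), (nat_lit 1271251)], [(nat_lit 32), (nat_lit 67), (nat_lit 401), (nat_lit 175), (nat_lit 9)]⟩⟩) (.dle (nat_lit 0)))) (.trZ (nat_lit 0) (nat_lit 1) (nat_lit 3) (nat_lit 81) (nat_lit 69) (nat_lit 100) (nat_lit 170)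 (.leaf ⟨(nat_lit 0), (nat_lit 944), (nat_lit 0), (nat_lit 56), (nat_lit 32864), (nat_lit 5175), (nat_lit 5179), (nat_lit 543), (nat_lit 601260157828), (nat_lit 0), (nat_lit 0), [], Pd.none, Pd.none, (nat_lit 0), (nat_lit 1), (nat_lit 0), (nat_lit 0), (nat_lit 4), (nat_lit 0), [], [], [⟨(nat_lit 1), (nat_lit 87), (nat_lit 76), (nat_lit 100), (nat_lit 406083086)⟩], [],
 ⟨⟨[(nat_lit 40), (nat_lit 100), (nat_lit 160)], [(nat_lit 0), (nat_lit 1489), (nat_lit 5570)], [((nat_lit 0), (nat_lit 0), (nat_lit 0)), ((nat_lit 1000), (nat_lit 767), (nat_lit 387)), ((nat_lit 942), (nat_lit 722), (nat_lit 1000))], ((nat_lit 72), (nat_lit 94), (nat_lit 100))⟩, (nat_lit 2358572), (nat_lit 276), (nat_lit 276), (nat_lit 0), (nat_lit 89220), [(nat_lit 2083216086), (nat_lit 6250000001), (nat_lit 11872000000)], [], [(nat_lit 24808677699), (nat_lit 25173508015), (nat_lit 36841770001), (nat_lit 37171198124), (nat_lit 21892237482), (nat_lit 22143265897), (nat_lit 32893611839),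 (nat_lit 32340065376)], (nat_lit 1271251), (nat_lit 1271251), (nat_lit 1184688), (nat_lit 3175626), (nat_lit 54688), (nat_lit 1100000), [(nat_lit 490000), (nat_lit 1427501), (nat_lit 1271251)], [(nat_lit 6), (nat_lit 56), (nat_lit 373), (nat_lit 150), (nat_lit 9)]⟩,
 ⟨⟨[(nat_lit 40), (nat_lit 100), (nat_lit 160)], [(nat_lit 0), (nat_lit 0), (nat_lit 4607)], [((nat_lit 0), (nat_lit 0), (nat_lit 0)), ((nat_lit 0), (nat_lit 0), (nat_lit 0)), ((nat_lit 846), (nat_lit 837), (nat_lit 1000))], ((nat_lit 84), (nat_lit 85), (nat_lit 100))⟩, (nat_lit 1754185), (nat_lit 182), (nat_lit 182), (nat_lit 0), (nat_lit 91614), [(nat_lit 2032000000), (nat_lit 6250000000), (nat_lit 11872000000)], [], [(nat_lit 25112797727), (nat_lit 26998341264), (nat_lit 33115848857), (nat_lit 34225820532), (nat_lit 31771099057), (nat_lit 32150499137), (nat_lit 36680432678), (nat_lit 37643797737)], (nat_lit 1271251), (nat_lit 1271251), (nat_lit 1271251), (nat_lit 1271251), (nat_lit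 1100000), (nat_lit 2726876), [(nat_lit 490000), (nat_lit 1427501), (nat_lit 1271251)], [(nat_lit 6), (nat_lit 56), (nat_lit 428), (nat_lit 200), (nat_lit 10)]⟩,
 ⟨⟨[(nat_lit 140), (nat_lit 180), (nat_lit 200)], [(nat_lit 0), (nat_lit 0), (nat_lit 2835)], [((nat_lit 0), (nat_lit 0), (nat_lit 0)), ((nat_lit 0), (nat_lit 0), (nat_lit 0)), ((nat_lit 363), (nat_lit 1000), (nat_lit 798))], ((nat_lit 0), (nat_lit 0), (nat_lit 0))⟩, (nat_lit 15407), (nat_lit 300), (nat_lit 857), (nat_lit 4373606), (nat_lit 808037), [(nat_lit 551152000), (nat_lit 787248000), (nat_lit 918400000)], [], [(nat_lit 4397399013), (nat_lit 4281437387), (nat_lit 3946773745), (nat_lit 3835613633), (nat_lit 4209065034), (nat_lit 4086537831), (nat_lit 4187289456), (nat_lit 4638302051)], (nat_lit 780000), (nat_lit 1271251), (nat_lit 54688), (nat_lit 1100000), (nat_lit 1100000), (nat_lit 2726876), [(nat_lit 1977501), (nat_lit 1271251), (nat_lit 1271251)], [(nat_lit 32), (nat_lit 67),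 (nat_lit 401), (nat_lit 175), (nat_lit 9)]⟩⟩))) (.spl (nat_lit 0) (nat_lit 345) (.ord (.spl (nat_lit 6) (nat_lit 124) (.leaf ⟨(nat_lit 0), (nat_lit 465), (nat_lit 0), (nat_lit 535), (nat_lit 13705), (nat_lit 10328), (nat_lit 12116), (nat_lit 4034), (nat_lit 10634649169354), (nat_lit 0), (nat_lit 0), [], Pd.none, Pd.none, (nat_lit 0), (nat_lit 1), (nat_lit 0), (nat_lit 0), (nat_lit 4), (nat_lit 0), [], [], [], [],
 ⟨⟨[(nat_lit 40), (nat_lit 100), (nat_lit 140)], [(nat_lit 0), (nat_lit 1192), (nat_lit 4003)], [((nat_lit 0), (nat_lit 0), (nat_lit 0)), ((nat_lit 1000), (nat_lit 814), (nat_lit 310)), ((nat_lit 992), (nat_lit 771), (nat_lit 1000))], ((nat_lit 77), (nat_lit 99), (nat_lit 100))⟩, (nat_lit 0), (nat_lit 145), (nat_lit 145), (nat_lit 0), (nat_lit 42296), [(nat_lit 2048740021), (nat_lit 6267392758), (nat_lit 9842000000)], [], [(nat_lit 26979515824), (nat_lit 27524909628), (nat_lit 38616134896), (nat_lit 39046693252), (nat_lit 33257541363),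 (nat_lit 33617374103), (nat_lit 43829569530), (nat_lit 42728120928)], (nat_lit 1271251), (nat_lit 1271251), (nat_lit 1100000), (nat_lit 3155001), (nat_lit 1100000), (nat_lit 2555626), [(nat_lit 490000), (nat_lit 1427501), (nat_lit 1271251)], [(nat_lit 5), (nat_lit 55), (nat_lit 428), (nat_lit 200), (nat_lit 11)]⟩,
 ⟨⟨[(nat_lit 40), (nat_lit 100), (nat_lit 160)], [(nat_lit 0), (nat_lit 0), (nat_lit 4607)], [((nat_lit 0), (nat_lit 0), (nat_lit 0)), ((nat_lit 0), (nat_lit 0), (nat_lit 0)), ((nat_lit 846), (nat_lit 837), (nat_lit 1000))], ((nat_lit 86), (nat_lit 93), (nat_lit 100))⟩, (nat_lit 0), (nat_lit 168), (nat_lit 168), (nat_lit 0), (nat_lit 47136), [(nat_lit 2032000000), (nat_lit 6250000000), (nat_lit 11872000000)], [], [(nat_lit 29086997600), (nat_lit 31802887055), (nat_lit 40203223808), (nat_lit 41543285103), (nat_lit 36559215818), (nat_lit 38200491301), (nat_lit 44023815274), (nat_lit 45436885354)], (nat_lit 1271251), (nat_lit 1271251),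 (nat_lit 1271251), (nat_lit 1271251), (nat_lit 1100000), (nat_lit 2726876), [(nat_lit 490000), (nat_lit 1427501), (nat_lit 1271251)], [(nat_lit 6), (nat_lit 56), (nat_lit 428), (nat_lit 200), (nat_lit 10)]⟩,
 ⟨⟨[(nat_lit 140), (nat_lit 180), (nat_lit 200)], [(nat_lit 0), (nat_lit 0), (nat_lit 2835)], [((nat_lit 0), (nat_lit 0), (nat_lit 0)), ((nat_lit 0), (nat_lit 0), (nat_lit 0)), ((nat_lit 363), (nat_lit 1000), (nat_lit 798))], ((nat_lit 0), (nat_lit 0), (nat_lit 0))⟩, (nat_lit 147196), (nat_lit 300), (nat_lit 482), (nat_lit 41783500), (nat_lit 342593), [(nat_lit 5265470000), (nat_lit 7521030000), (nat_lit 8774000000)], [], [(nat_lit 32357495512), (nat_lit 31903596008), (nat_lit 32754546528), (nat_lit 32154723832), (nat_lit 32994455142), (nat_lit 32369024838), (nat_lit 32701644147), (nat_lit 36088866409)], (nat_lit 780000), (nat_lit 1271251), (nat_lit 1100000), (nat_lit 2555626), (nat_lit 1100000), (nat_lit 2726876), [(nat_lit 1977501), (nat_lit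 1271251), (nat_lit 1271251)], [(nat_lit 32), (nat_lit 67), (nat_lit 456), (nat_lit 225), (nat_lit 10)]⟩⟩) (.dle (nat_lit 0)))) (.trZ (nat_lit 0) (nat_lit 1) (nat_lit 3) (nat_lit 81) (nat_lit 69) (nat_lit 100) (nat_lit 170) (.leaf ⟨(nat_lit 0), (nat_lit 560), (nat_lit 0), (nat_lit 440), (nat_lit 0), (nat_lit 4215), (nat_lit 6160), (nat_lit 3887), (nat_lit 133642614496), (nat_lit 0), (nat_lit 0), [], Pd.none, Pd.none, (nat_lit 0), (nat_lit 1), (nat_lit 0), (nat_lit 0), (nat_lit 4), (nat_lit 0), [⟨(nat_lit 0), (nat_lit 67), (nat_lit 67), (nat_lit 100), (nat_lit 247495546)⟩], [], [], [],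
 ⟨⟨[(nat_lit 40), (nat_lit 100), (nat_lit 160)], [(nat_lit 0), (nat_lit 1489), (nat_lit 5570)], [((nat_lit 0), (nat_lit 0), (nat_lit 0)), ((nat_lit 1000), (nat_lit 767), (nat_lit 387)), ((nat_lit 942), (nat_lit 722), (nat_lit 1000))], ((nat_lit 72), (nat_lit 94), (nat_lit 100))⟩, (nat_lit 2046913), (nat_lit 182), (nat_lit 182), (nat_lit 0), (nat_lit 89220), [(nat_lit 2032000005), (nat_lit 6250000034), (nat_lit 11872000000)], [], [(nat_lit 24594688746), (nat_lit 24044456932), (nat_lit 30986785129), (nat_lit 31205249755), (nat_lit 28094489917), (nat_lit 28299921837), (nat_lit 34704157293), (nat_lit 34264186378)], (nat_lit 1271251), (nat_lit 1271251), (nat_lit 1184688), (nat_lit 3175626), (nat_lit 1100000), (nat_lit 2555626), [(nat_lit 490000), (nat_lit 1427501), (nat_lit 1271251)], [(nat_lit 6), (nat_lit 56), (nat_lit 428), (nat_lit 200), (nat_lit 10)]⟩,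
 ⟨⟨[(nat_lit 40), (nat_lit 100), (nat_lit 160)], [(nat_lit 0), (nat_lit 0), (nat_lit 4607)], [((nat_lit 0), (nat_lit 0), (nat_lit 0)), ((nat_lit 0), (nat_lit 0), (nat_lit 0)), ((nat_lit 846), (nat_lit 837), (nat_lit 1000))], ((nat_lit 84), (nat_lit 85), (nat_lit 100))⟩, (nat_lit 1713789), (nat_lit 182), (nat_lit 182), (nat_lit 0), (nat_lit 91614), [(nat_lit 2032000000), (nat_lit 6250000000), (nat_lit 11872000000)], [], [(nat_lit 24741702437), (nat_lit 26812434250), (nat_lit 33161364157), (nat_lit 34341758197), (nat_lit 30721278340), (nat_lit 32080655857), (nat_lit 36468902100), (nat_lit 37633440200)], (nat_lit 1271251), (nat_lit 1271251), (nat_lit 1271251), (nat_lit 1271251), (nat_lit 1100000), (nat_lit 2726876), [(nat_lit 490000), (nat_lit 1427501), (nat_lit 1271251)], [(nat_lit 6), (nat_lit 56), (nat_lit 428), (nat_lit 200), (nat_lit 10)]⟩,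
 ⟨⟨[(nat_lit 140), (nat_lit 180), (nat_lit 200)], [(nat_lit 0), (nat_lit 0), (nat_lit 2835)], [((nat_lit 0), (nat_lit 0), (nat_lit 0)), ((nat_lit 0), (nat_lit 0), (nat_lit 0)), ((nat_lit 363), (nat_lit 1000), (nat_lit 798))], ((nat_lit 0), (nat_lit 0), (nat_lit 0))⟩, (nat_lit 121058), (nat_lit 300), (nat_lit 730), (nat_lit 34364003), (nat_lit 808037), [(nat_lit 4330480000), (nat_lit 6185520000), (nat_lit 7216000000)], [], [(nat_lit 30583852672), (nat_lit 29874336442), (nat_lit 29682132337), (nat_lit 28912598368), (nat_lit 29709933547), (nat_lit 28928565240), (nat_lit 28483614029), (nat_lit 31599038468)], (nat_lit 780000), (nat_lit 1271251), (nat_lit 1100000), (nat_lit 2555626), (nat_lit 1100000), (nat_lit 2726876), [(nat_lit 1977501), (nat_lit 1271251), (nat_lit 1271251)], [(nat_lit 32), (nat_lit 67), (nat_lit 456), (nat_lit 225), (nat_lit 10)]⟩⟩))))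
noncomputable def c9_21 : Tr Lf :=
 (.spl (nat_lit 2) (nat_lit 140) (.trX (nat_lit 4) (nat_lit 0) (nat_lit 2) (nat_lit 69) (nat_lit 96) (nat_lit 100) (nat_lit 290) (.trX (nat_lit 5) (nat_lit 1) (nat_lit 2) (nat_lit 84) (nat_lit 85) (nat_lit 100) (nat_lit 320) (.spl (nat_lit 4) (nat_lit 160) (.spl (nat_lit 0) (nat_lit 355) (.leaf ⟨(nat_lit 0), (nat_lit 921), (nat_lit 0), (nat_lit 79), (nat_lit 28), (nat_lit 5120), (nat_lit 9240), (nat_lit 940), (nat_lit 0), (nat_lit 0), (nat_lit 0), [], Pd.none, Pd.none, (nat_lit 0), (nat_lit 1), (nat_lit 0), (nat_lit 0), (nat_lit 3), (nat_lit 0), [⟨(nat_lit 0), (nat_lit 76), (nat_lit 65), (nat_lit 100), (nat_lit 239267002)⟩], [], [], [],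
 ⟨⟨[(nat_lit 40), (nat_lit 100), (nat_lit 140)], [(nat_lit 0), (nat_lit 1790), (nat_lit 4440)], [((nat_lit 0), (nat_lit 0), (nat_lit 0)), ((nat_lit 1000), (nat_lit 720), (nat_lit 465)), ((nat_lit 969), (nat_lit 697), (nat_lit 1000))], ((nat_lit 69), (nat_lit 100), (nat_lit 95))⟩, (nat_lit 2249131), (nat_lit 295), (nat_lit 295), (nat_lit 0), (nat_lit 198050), [(nat_lit 2081250605), (nat_lit 6250000166), (nat_lit 9842000000)], [], [(nat_lit 24198316945), (nat_lit 24594027939), (nat_lit 28283889758), (nat_lit 28762577469), (nat_lit 21424763677), (nat_lit 21740627865), (nat_lit 24433562740), (nat_lit 24845866010)], (nat_lit 1271251), (nat_lit 1271251), (nat_lit 1271251), (nat_lit 1271251), (nat_lit 54688), (nat_lit 1100000), [(nat_lit 490000), (nat_lit 1427501), (nat_lit 1271251)], [(nat_lit 5), (nat_lit 55), (nat_lit 345), (nat_lit 125), (nat_lit 9)]⟩,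
 ⟨⟨[(nat_lit 40), (nat_lit 100), (nat_lit 160)], [(nat_lit 0), (nat_lit 0), (nat_lit 4607)], [((nat_lit 0), (nat_lit 0), (nat_lit 0)), ((nat_lit 0), (nat_lit 0), (nat_lit 0)), ((nat_lit 846), (nat_lit 837), (nat_lit 1000))], ((nat_lit 88), (nat_lit 97), (nat_lit 100))⟩, (nat_lit 1455406), (nat_lit 358), (nat_lit 358), (nat_lit 0), (nat_lit 221188), [(nat_lit 2032000000), (nat_lit 6250000000), (nat_lit 11872000000)], [], [(nat_lit 32556537478), (nat_lit 34617637068), (nat_lit 35945392238), (nat_lit 37584441058), (nat_lit 29025638200), (nat_lit 30216375508), (nat_lit 30778447680), (nat_lit 32417496500)], (nat_lit 1271251), (nat_lit 1271251), (nat_lit 1271251), (nat_lit 1271251), (nat_lit 0), (nat_lit 2260001), [(nat_lit 490000), (nat_lit 1427501), (nat_lit 1271251)], [(nat_lit 6), (nat_lit 56), (nat_lit 373), (nat_lit 150), (nat_lit 9)]⟩,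
 ⟨⟨[(nat_lit 140), (nat_lit 180), (nat_lit 200)], [(nat_lit 0), (nat_lit 0), (nat_lit 2835)], [((nat_lit 0), (nat_lit 0), (nat_lit 0)), ((nat_lit 0), (nat_lit 0), (nat_lit 0)), ((nat_lit 363), (nat_lit 1000), (nat_lit 798))], ((nat_lit 0), (nat_lit 0), (nat_lit 0))⟩, (nat_lit 21735), (nat_lit 300), (nat_lit 1439), (nat_lit 6169907), (nat_lit 1872177), [(nat_lit 777518000), (nat_lit 1110582000), (nat_lit 1295600000)], [], [(nat_lit 7267059201), (nat_lit 6993225904), (nat_lit 5755785528), (nat_lit 5676239740), (nat_lit 5346700437), (nat_lit 5266930913), (nat_lit 5046858268), (nat_lit 5258093748)], (nat_lit 780000), (nat_lit 936250), (nat_lit 54688), (nat_lit 1100000), (nat_lit 0), (nat_lit 2260001), [(nat_lit 1977501), (nat_lit 1271251), (nat_lit 1271251)], [(nat_lit 32), (nat_lit 67), (nat_lit 438), (nat_lit 175), (nat_lit 10)]⟩⟩) (.trZ (nat_lit 0) (nat_lit 1) (nat_lit 3) (nat_lit 80) (nat_lit 63) (nat_lit 100) (nat_lit 190) (.trZ (nat_lit 0) (nat_lit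 2) (nat_lit 4) (nat_lit 100) (nat_lit 69) (nat_lit 50) (nat_lit 20) (.leaf ⟨(nat_lit 0), (nat_lit 919), (nat_lit 0), (nat_lit 81), (nat_lit 1968), (nat_lit 4642), (nat_lit 7692), (nat_lit 893), (nat_lit 0), (nat_lit 0), (nat_lit 0), [], Pd.none, Pd.none, (nat_lit 0), (nat_lit 1), (nat_lit 0), (nat_lit 0), (nat_lit 3), (nat_lit 0), [⟨(nat_lit 0), (nat_lit 76), (nat_lit 62), (nat_lit 100), (nat_lit 201350018)⟩], [], [⟨(nat_lit 1), (nat_lit 93), (nat_lit 81), (nat_lit 100), (nat_lit 46078003)⟩], [],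
 ⟨⟨[(nat_lit 40), (nat_lit 100), (nat_lit 140)], [(nat_lit 0), (nat_lit 2098), (nat_lit 4667)], [((nat_lit 0), (nat_lit 0), (nat_lit 0)), ((nat_lit 1000), (nat_lit 672), (nat_lit 546)), ((nat_lit 997), (nat_lit 670), (nat_lit 1000))], ((nat_lit 65), (nat_lit 100), (nat_lit 94))⟩, (nat_lit 2297989), (nat_lit 297), (nat_lit 297), (nat_lit 0), (nat_lit 224483), [(nat_lit 2032000067), (nat_lit 6250000053), (nat_lit 9842000000)], [], [(nat_lit 23460577854), (nat_lit 23826378591), (nat_lit 27341257253), (nat_lit 27790551882), (nat_lit 21370425577), (nat_lit 21686791305), (nat_lit 24501003410), (nat_lit 24891199598)], (nat_lit 1271251), (nat_lit 1271251), (nat_lit 1271251), (nat_lit 1271251), (nat_lit 111251), (nat_lit 1100000), [(nat_lit 490000), (nat_lit 1427501), (nat_lit 1271251)], [(nat_lit 5), (nat_lit 55), (nat_lit 345), (nat_lit 125), (nat_lit 9)]⟩,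
 ⟨⟨[(nat_lit 40), (nat_lit 100), (nat_lit 160)], [(nat_lit 0), (nat_lit 0), (nat_lit 4607)], [((nat_lit 0), (nat_lit 0), (nat_lit 0)), ((nat_lit 0), (nat_lit 0), (nat_lit 0)), ((nat_lit 846), (nat_lit 837), (nat_lit 1000))], ((nat_lit 88), (nat_lit 97), (nat_lit 100))⟩, (nat_lit 1853843), (nat_lit 368), (nat_lit 368), (nat_lit 0), (nat_lit 257830), [(nat_lit 2032000000), (nat_lit 6250000000), (nat_lit 11872000000)], [], [(nat_lit 30298549545), (nat_lit 31782623062), (nat_lit 33024905043), (nat_lit 34489930799), (nat_lit 28006269433), (nat_lit 29065521952), (nat_lit 29693559744), (nat_lit 31158585500)], (nat_lit 1271251), (nat_lit 1271251), (nat_lit 1271251), (nat_lit 1271251), (nat_lit 0), (nat_lit 2260001), [(nat_lit 490000), (nat_lit 1427501), (nat_lit 1271251)], [(nat_lit 6), (nat_lit 56), (nat_lit 373), (nat_lit 150), (nat_lit 9)]⟩,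
 ⟨⟨[(nat_lit 140), (nat_lit 180), (nat_lit 200)], [(nat_lit 0), (nat_lit 0), (nat_lit 2835)], [((nat_lit 0), (nat_lit 0), (nat_lit 0)), ((nat_lit 0), (nat_lit 0), (nat_lit 0)), ((nat_lit 363), (nat_lit 1000), (nat_lit 798))], ((nat_lit 0), (nat_lit 0), (nat_lit 0))⟩, (nat_lit 22286), (nat_lit 300), (nat_lit 1566), (nat_lit 6326100), (nat_lit 2188295), [(nat_lit 797202000), (nat_lit 1138698000), (nat_lit 1328400000)], [], [(nat_lit 7012635537), (nat_lit 6810256598), (nat_lit 6186341144), (nat_lit 6112742268), (nat_lit 5677197343), (nat_lit 5602317444), (nat_lit 5092872464), (nat_lit 5297264920)], (nat_lit 780000), (nat_lit 936250), (nat_lit 111251), (nat_lit 1100000), (nat_lit 0), (nat_lit 2260001), [(nat_lit 1977501), (nat_lit 1271251), (nat_lit 1271251)], [(nat_lit 32), (nat_lit 67), (nat_lit 469), (nat_lit 175), (nat_lit 11)]⟩⟩)))) (.spl (nat_lit 0) (nat_lit 355) (.leaf ⟨(nat_lit 0), (nat_lit 879), (nat_lit 0), (nat_lit 121), (nat_lit 0), (nat_lit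 10280), (nat_lit 9306), (nat_lit 1083), (nat_lit 0), (nat_lit 0), (nat_lit 0), [], Pd.none, Pd.none, (nat_lit 0), (nat_lit 1), (nat_lit 0), (nat_lit 0), (nat_lit 4), (nat_lit 0), [⟨(nat_lit 0), (nat_lit 76), (nat_lit 65), (nat_lit 100), (nat_lit 268937007)⟩], [⟨(nat_lit 1), (nat_lit 100), (nat_lit 69), (nat_lit 100), (nat_lit 310354075)⟩], [], [],
 ⟨⟨[(nat_lit 40), (nat_lit 100), (nat_lit 140)], [(nat_lit 0), (nat_lit 1790), (nat_lit 4440)], [((nat_lit 0), (nat_lit 0), (nat_lit 0)), ((nat_lit 1000), (nat_lit 720), (nat_lit 465)), ((nat_lit 969), (nat_lit 697), (nat_lit 1000))], ((nat_lit 69), (nat_lit 100), (nat_lit 95))⟩, (nat_lit 608094), (nat_lit 168), (nat_lit 168), (nat_lit 0), (nat_lit 198050), [(nat_lit 3559750684), (nat_lit 8679765297), (nat_lit 9842000000)], [], [(nat_lit 25766727505), (nat_lit 26289529623), (nat_lit 28750906600), (nat_lit 29166264260), (nat_lit 29326281790), (nat_lit 29715022825), (nat_lit 32465834125), (nat_lit 32946303228)],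 (nat_lit 1271251), (nat_lit 1271251), (nat_lit 1271251), (nat_lit 1271251), (nat_lit 1100000), (nat_lit 2213126), [(nat_lit 490000), (nat_lit 1427501), (nat_lit 1271251)], [(nat_lit 5), (nat_lit 55), (nat_lit 373), (nat_lit 150), (nat_lit 10)]⟩,
 ⟨⟨[(nat_lit 40), (nat_lit 100), (nat_lit 160)], [(nat_lit 0), (nat_lit 0), (nat_lit 4607)], [((nat_lit 0), (nat_lit 0), (nat_lit 0)), ((nat_lit 0), (nat_lit 0), (nat_lit 0)), ((nat_lit 846), (nat_lit 837), (nat_lit 1000))], ((nat_lit 88), (nat_lit 97), (nat_lit 100))⟩, (nat_lit 1473549), (nat_lit 358), (nat_lit 358), (nat_lit 0), (nat_lit 221188), [(nat_lit 2032000000), (nat_lit 6250000000), (nat_lit 11872000000)], [], [(nat_lit 32513591055), (nat_lit 34584715864), (nat_lit 35908062349), (nat_lit 37554530757), (nat_lit 28910092330), (nat_lit 30105417537), (nat_lit 30824702592), (nat_lit 32471171000)], (nat_lit 1271251), (nat_lit 1271251), (nat_lit 1271251), (nat_lit 1271251), (nat_lit 0), (nat_lit 2260001),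 [(nat_lit 490000), (nat_lit 1427501), (nat_lit 1271251)], [(nat_lit 6), (nat_lit 56), (nat_lit 373), (nat_lit 150), (nat_lit 9)]⟩,
 ⟨⟨[(nat_lit 140), (nat_lit 180), (nat_lit 200)], [(nat_lit 0), (nat_lit 0), (nat_lit 2835)], [((nat_lit 0), (nat_lit 0), (nat_lit 0)), ((nat_lit 0), (nat_lit 0), (nat_lit 0)), ((nat_lit 363), (nat_lit 1000), (nat_lit 798))], ((nat_lit 0), (nat_lit 0), (nat_lit 0))⟩, (nat_lit 33291), (nat_lit 300), (nat_lit 1335), (nat_lit 9450101), (nat_lit 1872177), [(nat_lit 1190882000), (nat_lit 1701018000), (nat_lit 1984400000)], [], [(nat_lit 11035382832), (nat_lit 10952543146), (nat_lit 10641569072), (nat_lit 10558732690), (nat_lit 9738941464), (nat_lit 9658874998), (nat_lit 9542377137), (nat_lit 9824257051)], (nat_lit 780000), (nat_lit 936250), (nat_lit 1100000), (nat_lit 2213126), (nat_lit 0), (nat_lit 2260001), [(nat_lit 1977501), (nat_lit 1271251), (nat_lit 1271251)], [(nat_lit 32), (nat_lit 67), (nat_lit 428), (nat_lit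 200), (nat_lit 9)]⟩⟩) (.trZ (nat_lit 0) (nat_lit 1) (nat_lit 3) (nat_lit 80) (nat_lit 63) (nat_lit 100) (nat_lit 190) (.trX (nat_lit 4) (nat_lit 0) (nat_lit 2) (nat_lit 66) (nat_lit 97) (nat_lit 100) (nat_lit 280) (.leaf ⟨(nat_lit 0), (nat_lit 892), (nat_lit 0), (nat_lit 108), (nat_lit 0), (nat_lit 9699), (nat_lit 7771), (nat_lit 991), (nat_lit 0), (nat_lit 0), (nat_lit 0), [], Pd.none, Pd.none, (nat_lit 0), (nat_lit 1), (nat_lit 0), (nat_lit 0), (nat_lit 4), (nat_lit 0), [⟨(nat_lit 0), (nat_lit 76), (nat_lit 62), (nat_lit 100), (nat_lit 258424797)⟩], [⟨(nat_lit 1), (nat_lit 100), (nat_lit 65), (nat_lit 98), (nat_lit 356564773)⟩], [⟨(nat_lit 1), (nat_lit 93), (nat_lit 81), (nat_lit 100), (nat_lit 34813207)⟩], [],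
 ⟨⟨[(nat_lit 40), (nat_lit 100), (nat_lit 140)], [(nat_lit 0), (nat_lit 2098), (nat_lit 4667)], [((nat_lit 0), (nat_lit 0), (nat_lit 0)), ((nat_lit 1000), (nat_lit 672), (nat_lit 546)), ((nat_lit 997), (nat_lit 670), (nat_lit 1000))], ((nat_lit 65), (nat_lit 100), (nat_lit 94))⟩, (nat_lit 717869), (nat_lit 178), (nat_lit 178), (nat_lit 0), (nat_lit 224483), [(nat_lit 3203843651), (nat_lit 8494688042), (nat_lit 9842000000)], [], [(nat_lit 26116003591), (nat_lit 26608231319), (nat_lit 28789105398), (nat_lit 29189097351), (nat_lit 28987875113), (nat_lit 29365321420), (nat_lit 31941304247), (nat_lit 32416513208)], (nat_lit 1271251), (nat_lit 1271251), (nat_lit 1271251), (nat_lit 1271251), (nat_lit 1100000), (nat_lit 2127501), [(nat_lit 490000), (nat_lit 1427501), (nat_lit 1271251)], [(nat_lit 5), (nat_lit 55), (nat_lit 373), (nat_lit 150), (nat_lit 10)]⟩,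
 ⟨⟨[(nat_lit 40), (nat_lit 100), (nat_lit 160)], [(nat_lit 0), (nat_lit 0), (nat_lit 4607)], [((nat_lit 0), (nat_lit 0), (nat_lit 0)), ((nat_lit 0), (nat_lit 0), (nat_lit 0)), ((nat_lit 846), (nat_lit 837), (nat_lit 1000))], ((nat_lit 88), (nat_lit 97), (nat_lit 100))⟩, (nat_lit 1875554), (nat_lit 368), (nat_lit 368), (nat_lit 0), (nat_lit 257830), [(nat_lit 2032000000), (nat_lit 6250000000), (nat_lit 11872000000)], [], [(nat_lit 30148042058), (nat_lit 31742661963), (nat_lit 32980248194), (nat_lit 34454154972), (nat_lit 27866287827), (nat_lit 28931446589), (nat_lit 29748925472), (nat_lit 31222832250)], (nat_lit 1271251), (nat_lit 1271251), (nat_lit 1271251), (nat_lit 1271251), (nat_lit 0), (nat_lit 2260001), [(nat_lit 490000), (nat_lit 1427501), (nat_lit 1271251)], [(nat_lit 6), (nat_lit 56), (nat_lit 373), (nat_lit 150), (nat_lit 9)]⟩,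
 ⟨⟨[(nat_lit 140), (nat_lit 180), (nat_lit 200)], [(nat_lit 0), (nat_lit 0), (nat_lit 2835)], [((nat_lit 0), (nat_lit 0), (nat_lit 0)), ((nat_lit 0), (nat_lit 0), (nat_lit 0)), ((nat_lit 363), (nat_lit 1000), (nat_lit 798))], ((nat_lit 0), (nat_lit 0), (nat_lit 0))⟩, (nat_lit 29714), (nat_lit 300), (nat_lit 1481), (nat_lit 8434805), (nat_lit 2188295), [(nat_lit 1062936000), (nat_lit 1518264000), (nat_lit 1771200000)], [], [(nat_lit 9953687785), (nat_lit 9878440014), (nat_lit 9604890841), (nat_lit 9529901907), (nat_lit 8774704598), (nat_lit 8702088847), (nat_lit 8428653639), (nat_lit 8678997571)], (nat_lit 780000), (nat_lit 936250), (nat_lit 1100000), (nat_lit 2127501), (nat_lit 0), (nat_lit 2260001), [(nat_lit 1977501), (nat_lit 1271251), (nat_lit 1271251)], [(nat_lit 32), (nat_lit 67), (nat_lit 463), (nat_lit 200), (nat_lit 10)]⟩⟩))))))) (.trZ (nat_lit 0) (nat_lit 2) (nat_lit 4) (nat_lit 100) (nat_lit 69) (nat_lit 54) (nat_lit 20) (.trZ (nat_lit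 1) (nat_lit 2) (nat_lit 5) (nat_lit 100) (nat_lit 84) (nat_lit 35) (nat_lit 10) (.spl (nat_lit 1) (nat_lit 330) (.spl (nat_lit 6) (nat_lit 108) (.leaf ⟨(nat_lit 0), (nat_lit 806), (nat_lit 0), (nat_lit 194), (nat_lit 8729), (nat_lit 4965), (nat_lit 7881), (nat_lit 1404), (nat_lit 0), (nat_lit 0), (nat_lit 0), [], Pd.none, Pd.none, (nat_lit 0), (nat_lit 1), (nat_lit 0), (nat_lit 0), (nat_lit 3), (nat_lit 0), [⟨(nat_lit 0), (nat_lit 76), (nat_lit 60), (nat_lit 100), (nat_lit 312835774)⟩], [], [], [],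
 ⟨⟨[(nat_lit 40), (nat_lit 100), (nat_lit 140)], [(nat_lit 0), (nat_lit 1790), (nat_lit 4440)], [((nat_lit 0), (nat_lit 0), (nat_lit 0)), ((nat_lit 1000), (nat_lit 720), (nat_lit 465)), ((nat_lit 969), (nat_lit 697), (nat_lit 1000))], ((nat_lit 68), (nat_lit 100), (nat_lit 92))⟩, (nat_lit 2025655), (nat_lit 216), (nat_lit 216), (nat_lit 0), (nat_lit 101205), [(nat_lit 2137502606), (nat_lit 6250000002), (nat_lit 9842000000)], [], [(nat_lit 25027131817), (nat_lit 25642669340), (nat_lit 27790428831), (nat_lit 28422446654), (nat_lit 26106162578), (nat_lit 26582904484), (nat_lit 28695374880), (nat_lit 29304684450)], (nat_lit 1271251), (nat_lit 1271251), (nat_lit 1271251), (nat_lit 1271251), (nat_lit 111251), (nat_lit 2141250), [(nat_lit 490000), (nat_lit 1427501), (nat_lit 1271251)], [(nat_lit 5), (nat_lit 55), (nat_lit 373), (nat_lit 150), (nat_lit 10)]⟩,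
 ⟨⟨[(nat_lit 40), (nat_lit 100), (nat_lit 160)], [(nat_lit 0), (nat_lit 0), (nat_lit 4607)], [((nat_lit 0), (nat_lit 0), (nat_lit 0)), ((nat_lit 0), (nat_lit 0), (nat_lit 0)), ((nat_lit 846), (nat_lit 837), (nat_lit 1000))], ((nat_lit 89), (nat_lit 100), (nat_lit 99))⟩, (nat_lit 1902745), (nat_lit 247), (nat_lit 247), (nat_lit 0), (nat_lit 122143), [(nat_lit 2032000000), (nat_lit 6250000000), (nat_lit 11872000000)], [], [(nat_lit 29206825713), (nat_lit 29930432110), (nat_lit 32231438528), (nat_lit 32969860090), (nat_lit 28719123190), (nat_lit 29278586492), (nat_lit 31312289750), (nat_lit 32010740036)], (nat_lit 1271251), (nat_lit 1271251), (nat_lit 1271251), (nat_lit 1271251), (nat_lit 54688), (nat_lit 2416251), [(nat_lit 490000), (nat_lit 1427501), (nat_lit 1271251)], [(nat_lit 6), (nat_lit 56), (nat_lit 401), (nat_lit 175), (nat_lit 10)]⟩,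
 ⟨⟨[(nat_lit 140), (nat_lit 180), (nat_lit 200)], [(nat_lit 0), (nat_lit 608), (nat_lit 3317)], [((nat_lit 0), (nat_lit 0), (nat_lit 0)), ((nat_lit 913), (nat_lit 1000), (nat_lit 217)), ((nat_lit 385), (nat_lit 1000), (nat_lit 814))], ((nat_lit 0), (nat_lit 0), (nat_lit 0))⟩, (nat_lit 57287), (nat_lit 300), (nat_lit 907), (nat_lit 14957898), (nat_lit 715233), [(nat_lit 1909348000), (nat_lit 2727252000), (nat_lit 3181600000)], [], [(nat_lit 17878831316), (nat_lit 17774699239), (nat_lit 16478477170), (nat_lit 16376882932), (nat_lit 16355214163), (nat_lit 16252501630), (nat_lit 14963471424), (nat_lit 14863216768)], (nat_lit 936250), (nat_lit 1100000), (nat_lit 111251), (nat_lit 2141250), (nat_lit 54688), (nat_lit 2416251), [(nat_lit 1977501), (nat_lit 1271251), (nat_lit 1271251)], [(nat_lit 32), (nat_lit 67), (nat_lit 428), (nat_lit 200), (nat_lit 10)]⟩⟩) (.dle (nat_lit 0))) (.trZ (nat_lit 0) (nat_lit 1) (nat_lit 3) (nat_lit 76) (nat_lit 66) (nat_lit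 100) (nat_lit 190) (.trX (nat_lit 5) (nat_lit 1) (nat_lit 2) (nat_lit 78) (nat_lit 81) (nat_lit 100) (nat_lit 330) (.leaf ⟨(nat_lit 0), (nat_lit 810), (nat_lit 0), (nat_lit 190), (nat_lit 3331), (nat_lit 5192), (nat_lit 6873), (nat_lit 1500), (nat_lit 0), (nat_lit 0), (nat_lit 0), [], Pd.none, Pd.none, (nat_lit 0), (nat_lit 1), (nat_lit 0), (nat_lit 0), (nat_lit 3), (nat_lit 0), [⟨(nat_lit 0), (nat_lit 74), (nat_lit 63), (nat_lit 100), (nat_lit 276435868)⟩], [], [], [],
 ⟨⟨[(nat_lit 40), (nat_lit 100), (nat_lit 140)], [(nat_lit 0), (nat_lit 1790), (nat_lit 4440)], [((nat_lit 0), (nat_lit 0), (nat_lit 0)), ((nat_lit 1000), (nat_lit 720), (nat_lit 465)), ((nat_lit 969), (nat_lit 697), (nat_lit 1000))], ((nat_lit 69), (nat_lit 100), (nat_lit 95))⟩, (nat_lit 1941266), (nat_lit 233), (nat_lit 233), (nat_lit 0), (nat_lit 154590), [(nat_lit 2206383351), (nat_lit 6259572824), (nat_lit 9842000000)], [], [(nat_lit 25572851623), (nat_lit 26211994467), (nat_lit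 28283285508), (nat_lit 28930004348), (nat_lit 26465114760), (nat_lit 26975312973), (nat_lit 28880260676), (nat_lit 29503407060)], (nat_lit 1271251), (nat_lit 1271251), (nat_lit 1271251), (nat_lit 1271251), (nat_lit 111251), (nat_lit 2141250), [(nat_lit 490000), (nat_lit 1427501), (nat_lit 1271251)], [(nat_lit 5), (nat_lit 55), (nat_lit 373), (nat_lit 150), (nat_lit 10)]⟩,
 ⟨⟨[(nat_lit 40), (nat_lit 100), (nat_lit 160)], [(nat_lit 0), (nat_lit 592), (nat_lit 4992)], [((nat_lit 0), (nat_lit 0), (nat_lit 0)), ((nat_lit 1000), (nat_lit 908), (nat_lit 154)), ((nat_lit 873), (nat_lit 792), (nat_lit 1000))], ((nat_lit 84), (nat_lit 100), (nat_lit 100))⟩, (nat_lit 1971468), (nat_lit 334), (nat_lit 334), (nat_lit 0), (nat_lit 174999), [(nat_lit 2032000000), (nat_lit 6250000000), (nat_lit 11872000000)], [], [(nat_lit 28520776437), (nat_lit 29262999866), (nat_lit 31238791278), (nat_lit 31920994601), (nat_lit 28107518790), (nat_lit 28614575967), (nat_lit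 30472631954), (nat_lit 31139207864)], (nat_lit 1271251), (nat_lit 1271251), (nat_lit 1271251), (nat_lit 1271251), (nat_lit 54688), (nat_lit 2344688), [(nat_lit 490000), (nat_lit 1427501), (nat_lit 1271251)], [(nat_lit 6), (nat_lit 56), (nat_lit 401), (nat_lit 175), (nat_lit 10)]⟩,
 ⟨⟨[(nat_lit 140), (nat_lit 180), (nat_lit 200)], [(nat_lit 0), (nat_lit 608), (nat_lit 3317)], [((nat_lit 0), (nat_lit 0), (nat_lit 0)), ((nat_lit 913), (nat_lit 1000), (nat_lit 217)), ((nat_lit 385), (nat_lit 1000), (nat_lit 814))], ((nat_lit 0), (nat_lit 0), (nat_lit 0))⟩, (nat_lit 56106), (nat_lit 300), (nat_lit 1074), (nat_lit 14649487), (nat_lit 1095453), [(nat_lit 1869980000), (nat_lit 2671020000), (nat_lit 3116000000)], [], [(nat_lit 18124889236), (nat_lit 18008239901), (nat_lit 16547151916), (nat_lit 16434088753), (nat_lit 16390953842), (nat_lit 16277621558), (nat_lit 14850317521), (nat_lit 14742387000)], (nat_lit 936250), (nat_lit 1100000), (nat_lit 111251),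 (nat_lit 2141250), (nat_lit 54688), (nat_lit 2344688), [(nat_lit 1977501), (nat_lit 1271251), (nat_lit 1271251)], [(nat_lit 32), (nat_lit 67), (nat_lit 428), (nat_lit 200), (nat_lit 10)]⟩⟩)))))))
noncomputable def c9_22 : Tr Lf :=
 (.spl (nat_lit 4) (nat_lit 160) (.leaf ⟨(nat_lit 0), (nat_lit 955), (nat_lit 0), (nat_lit 45), (nat_lit 0), (nat_lit 7826), (nat_lit 7303), (nat_lit 489), (nat_lit 0), (nat_lit 0), (nat_lit 0), [], Pd.none, Pd.none, (nat_lit 0), (nat_lit 1), (nat_lit 0), (nat_lit 0), (nat_lit 3), (nat_lit 0), [], [], [], [⟨(nat_lit 1), (nat_lit 100), (nat_lit 73), (nat_lit 83), (nat_lit 113136610)⟩],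
 ⟨⟨[(nat_lit 40), (nat_lit 100), (nat_lit 140)], [(nat_lit 0), (nat_lit 1790), (nat_lit 4440)], [((nat_lit 0), (nat_lit 0), (nat_lit 0)), ((nat_lit 1000), (nat_lit 720), (nat_lit 465)), ((nat_lit 969), (nat_lit 697), (nat_lit 1000))], ((nat_lit 69), (nat_lit 100), (nat_lit 95))⟩, (nat_lit 653631), (nat_lit 300), (nat_lit 315), (nat_lit 50800006), (nat_lit 226440), [(nat_lit 2032000089), (nat_lit 6250000068), (nat_lit 9842000000)], [], [(nat_lit 38020043986), (nat_lit 38537633642), (nat_lit 44747878236), (nat_lit 45577361291), (nat_lit 32324980645), (nat_lit 32763546719), (nat_lit 36143637698), (nat_lit 36641813440)], (nat_lit 1271251), (nat_lit 1271251), (nat_lit 1271251), (nat_lit 1271251), (nat_lit 54688), (nat_lit 1100000), [(nat_lit 490000), (nat_lit 1427501), (nat_lit 1271251)], [(nat_lit 5), (nat_lit 55), (nat_lit 249), (nat_lit 40), (nat_lit 6)]⟩,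
 ⟨⟨[(nat_lit 40), (nat_lit 100), (nat_lit 160)], [(nat_lit 0), (nat_lit 0), (nat_lit 4607)], [((nat_lit 0), (nat_lit 0), (nat_lit 0)), ((nat_lit 0), (nat_lit 0), (nat_lit 0)), ((nat_lit 846), (nat_lit 837), (nat_lit 1000))], ((nat_lit 88), (nat_lit 97), (nat_lit 100))⟩, (nat_lit 1288672), (nat_lit 367), (nat_lit 367), (nat_lit 0), (nat_lit 259452), [(nat_lit 2032000000), (nat_lit 6250000000), (nat_lit 11872000000)], [], [(nat_lit 36276779552), (nat_lit 37164856661), (nat_lit 42330289372), (nat_lit 43304602191), (nat_lit 33273133122), (nat_lit 33801750177), (nat_lit 37369514095), (nat_lit 38284748876)], (nat_lit 1271251), (nat_lit 1271251), (nat_lit 1271251), (nat_lit 1271251), (nat_lit 0), (nat_lit 2401251), [(nat_lit 490000), (nat_lit 1427501), (nat_lit 1271251)], [(nat_lit 6), (nat_lit 56), (nat_lit 428), (nat_lit 200), (nat_lit 10)]⟩,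
 ⟨⟨[(nat_lit 140), (nat_lit 180), (nat_lit 200)], [(nat_lit 0), (nat_lit 0), (nat_lit 2835)], [((nat_lit 0), (nat_lit 0), (nat_lit 0)), ((nat_lit 0), (nat_lit 0), (nat_lit 0)), ((nat_lit 363), (nat_lit 1000), (nat_lit 798))], ((nat_lit 0), (nat_lit 0), (nat_lit 0))⟩, (nat_lit 12381), (nat_lit 300), (nat_lit 1573), (nat_lit 3514500), (nat_lit 2188295), [(nat_lit 442890000), (nat_lit 632610000), (nat_lit 738000000)], [], [(nat_lit 3959490130), (nat_lit 3801250002), (nat_lit 3491253108), (nat_lit 3412851864), (nat_lit 3212220452), (nat_lit 3134116003), (nat_lit 2902868880), (nat_lit 3146345115)], (nat_lit 780000), (nat_lit 1100000), (nat_lit 54688), (nat_lit 1100000), (nat_lit 0), (nat_lit 2401251), [(nat_lit 1977501), (nat_lit 1271251), (nat_lit 1271251)], [(nat_lit 32), (nat_lit 67), (nat_lit 476), (nat_lit 175), (nat_lit 11)]⟩⟩) (.spl (nat_lit 1) (nat_lit 330) (.leaf ⟨(nat_lit 0), (nat_lit 883), (nat_lit 0), (nat_lit 117), (nat_lit 5619), (nat_lit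 7257), (nat_lit 7136), (nat_lit 924), (nat_lit 0), (nat_lit 0), (nat_lit 0), [], Pd.none, Pd.none, (nat_lit 0), (nat_lit 1), (nat_lit 0), (nat_lit 0), (nat_lit 4), (nat_lit 0), [], [⟨(nat_lit 1), (nat_lit 97), (nat_lit 66), (nat_lit 100), (nat_lit 291576341)⟩], [⟨(nat_lit 1), (nat_lit 87), (nat_lit 82), (nat_lit 100), (nat_lit 11600893)⟩], [],
 ⟨⟨[(nat_lit 40), (nat_lit 100), (nat_lit 140)], [(nat_lit 0), (nat_lit 1790), (nat_lit 4440)], [((nat_lit 0), (nat_lit 0), (nat_lit 0)), ((nat_lit 1000), (nat_lit 720), (nat_lit 465)), ((nat_lit 969), (nat_lit 697), (nat_lit 1000))], ((nat_lit 69), (nat_lit 100), (nat_lit 95))⟩, (nat_lit 825411), (nat_lit 187), (nat_lit 187), (nat_lit 0), (nat_lit 171857), [(nat_lit 2668959196), (nat_lit 7532132627), (nat_lit 9842000000)], [], [(nat_lit 29287446484), (nat_lit 29958263242), (nat_lit 35333018722), (nat_lit 35801150080), (nat_lit 31936114038), (nat_lit 32433593978), (nat_lit 37237572314), (nat_lit 37751153123)],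 (nat_lit 1271251), (nat_lit 1271251), (nat_lit 1271251), (nat_lit 1271251), (nat_lit 1100000), (nat_lit 2298751), [(nat_lit 490000), (nat_lit 1427501), (nat_lit 1271251)], [(nat_lit 5), (nat_lit 55), (nat_lit 289), (nat_lit 75), (nat_lit 7)]⟩,
 ⟨⟨[(nat_lit 40), (nat_lit 100), (nat_lit 160)], [(nat_lit 0), (nat_lit 0), (nat_lit 4607)], [((nat_lit 0), (nat_lit 0), (nat_lit 0)), ((nat_lit 0), (nat_lit 0), (nat_lit 0)), ((nat_lit 846), (nat_lit 837), (nat_lit 1000))], ((nat_lit 88), (nat_lit 97), (nat_lit 100))⟩, (nat_lit 1212301), (nat_lit 352), (nat_lit 352), (nat_lit 0), (nat_lit 207574), [(nat_lit 2032000000), (nat_lit 6250000000), (nat_lit 11872000000)], [], [(nat_lit 35912446221), (nat_lit 36469566065), (nat_lit 42483418605), (nat_lit 42965483769), (nat_lit 33527436361), (nat_lit 33840306527), (nat_lit 37199477765), (nat_lit 37613709076)], (nat_lit 1271251), (nat_lit 1271251), (nat_lit 1271251), (nat_lit 1271251), (nat_lit 0), (nat_lit 2401251),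 [(nat_lit 490000), (nat_lit 1427501), (nat_lit 1271251)], [(nat_lit 6), (nat_lit 56), (nat_lit 428), (nat_lit 200), (nat_lit 10)]⟩,
 ⟨⟨[(nat_lit 140), (nat_lit 180), (nat_lit 200)], [(nat_lit 0), (nat_lit 0), (nat_lit 2835)], [((nat_lit 0), (nat_lit 0), (nat_lit 0)), ((nat_lit 0), (nat_lit 0), (nat_lit 0)), ((nat_lit 363), (nat_lit 1000), (nat_lit 798))], ((nat_lit 0), (nat_lit 0), (nat_lit 0))⟩, (nat_lit 32190), (nat_lit 300), (nat_lit 1243), (nat_lit 9137707), (nat_lit 1656576), [(nat_lit 1151514000), (nat_lit 1644786000), (nat_lit 1918800000)], [], [(nat_lit 11333941936), (nat_lit 11196030258), (nat_lit 11003180368), (nat_lit 10864721527), (nat_lit 10231178020), (nat_lit 10097230488), (nat_lit 9891701500), (nat_lit 9773940708)], (nat_lit 780000), (nat_lit 1100000), (nat_lit 1100000), (nat_lit 2298751), (nat_lit 0), (nat_lit 2401251), [(nat_lit 1977501), (nat_lit 1271251), (nat_lit 1271251)], [(nat_lit 32), (nat_lit 67), (nat_lit 428), (nat_lit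 200), (nat_lit 9)]⟩⟩) (.trX (nat_lit 5) (nat_lit 1) (nat_lit 2) (nat_lit 78) (nat_lit 81) (nat_lit 100) (nat_lit 330) (.leaf ⟨(nat_lit 0), (nat_lit 902), (nat_lit 0), (nat_lit 98), (nat_lit 2799), (nat_lit 7312), (nat_lit 6757), (nat_lit 825), (nat_lit 0), (nat_lit 0), (nat_lit 0), [], Pd.none, Pd.none, (nat_lit 0), (nat_lit 1), (nat_lit 0), (nat_lit 0), (nat_lit 4), (nat_lit 0), [], [⟨(nat_lit 1), (nat_lit 97), (nat_lit 66), (nat_lit 100), (nat_lit 273474281)⟩], [⟨(nat_lit 1), (nat_lit 91), (nat_lit 77), (nat_lit 100), (nat_lit 41085372)⟩], [],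
 ⟨⟨[(nat_lit 40), (nat_lit 100), (nat_lit 140)], [(nat_lit 0), (nat_lit 1790), (nat_lit 4440)], [((nat_lit 0), (nat_lit 0), (nat_lit 0)), ((nat_lit 1000), (nat_lit 720), (nat_lit 465)), ((nat_lit 969), (nat_lit 697), (nat_lit 1000))], ((nat_lit 69), (nat_lit 100), (nat_lit 95))⟩, (nat_lit 660814), (nat_lit 203), (nat_lit 203), (nat_lit 0), (nat_lit 226403), [(nat_lit 2939927426), (nat_lit 6637525212), (nat_lit 9842000000)], [], [(nat_lit 30153020812), (nat_lit 30681938408), (nat_lit 36058338724), (nat_lit 36527567936), (nat_lit 32635877606), (nat_lit 33135182016), (nat_lit 37307487145), (nat_lit 37822919268)], (nat_lit 1271251), (nat_lit 1271251), (nat_lit 1271251), (nat_lit 1271251), (nat_lit 1100000), (nat_lit 2298751), [(nat_lit 490000), (nat_lit 1427501), (nat_lit 1271251)], [(nat_lit 5), (nat_lit 55), (nat_lit 289), (nat_lit 75), (nat_lit 7)]⟩,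
 ⟨⟨[(nat_lit 40), (nat_lit 100), (nat_lit 160)], [(nat_lit 0), (nat_lit 592), (nat_lit 4992)], [((nat_lit 0), (nat_lit 0), (nat_lit 0)), ((nat_lit 1000), (nat_lit 908), (nat_lit 154)), ((nat_lit 873), (nat_lit 792), (nat_lit 1000))], ((nat_lit 84), (nat_lit 100), (nat_lit 100))⟩, (nat_lit 1372514), (nat_lit 366), (nat_lit 366), (nat_lit 0), (nat_lit 256390), [(nat_lit 2032000000), (nat_lit 6250000000), (nat_lit 11872000000)], [], [(nat_lit 35153148231), (nat_lit 35582057262), (nat_lit 41236441137), (nat_lit 41706951917), (nat_lit 32371097882), (nat_lit 32769346038), (nat_lit 36672693125), (nat_lit 37129355225)], (nat_lit 1271251), (nat_lit 1271251), (nat_lit 1271251), (nat_lit 1271251), (nat_lit 0), (nat_lit 2330625), [(nat_lit 490000), (nat_lit 1427501), (nat_lit 1271251)], [(nat_lit 6), (nat_lit 56), (nat_lit 428), (nat_lit 200), (nat_lit 10)]⟩,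
 ⟨⟨[(nat_lit 140), (nat_lit 180), (nat_lit 200)], [(nat_lit 0), (nat_lit 0), (nat_lit 2835)], [((nat_lit 0), (nat_lit 0), (nat_lit 0)), ((nat_lit 0), (nat_lit 0), (nat_lit 0)), ((nat_lit 363), (nat_lit 1000), (nat_lit 798))], ((nat_lit 0), (nat_lit 0), (nat_lit 0))⟩, (nat_lit 26963), (nat_lit 300), (nat_lit 1481), (nat_lit 7653800), (nat_lit 2188295), [(nat_lit 964516000), (nat_lit 1377684000), (nat_lit 1607200000)], [], [(nat_lit 9681922119), (nat_lit 9559512970), (nat_lit 9361912487), (nat_lit 9239772793), (nat_lit 8708309772), (nat_lit 8589983014), (nat_lit 8388496573), (nat_lit 8274355246)], (nat_lit 780000), (nat_lit 1100000), (nat_lit 1100000), (nat_lit 2298751), (nat_lit 0), (nat_lit 2330625), [(nat_lit 1977501), (nat_lit 1271251), (nat_lit 1271251)], [(nat_lit 32), (nat_lit 67), (nat_lit 469), (nat_lit 200), (nat_lit 10)]⟩⟩))))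
noncomputable def c9_23 : Tr Lf :=
 (.trZ (nat_lit 0) (nat_lit 2) (nat_lit 4) (nat_lit 100) (nat_lit 68) (nat_lit 61) (nat_lit 40) (.trZ (nat_lit 1) (nat_lit 2) (nat_lit 5) (nat_lit 100) (nat_lit 82) (nat_lit 44) (nat_lit 10) (.spl (nat_lit 6) (nat_lit 108) (.spl (nat_lit 0) (nat_lit 355) (.leaf ⟨(nat_lit 0), (nat_lit 778), (nat_lit 0), (nat_lit 222), (nat_lit 21512), (nat_lit 4926), (nat_lit 7279), (nat_lit 1473), (nat_lit 0), (nat_lit 0), (nat_lit 0), [], Pd.none, Pd.none, (nat_lit 0), (nat_lit 1), (nat_lit 0), (nat_lit 0), (nat_lit 4), (nat_lit 0), [⟨(nat_lit 0), (nat_lit 72), (nat_lit 63), (nat_lit 100), (nat_lit 10091302)⟩], [], [], [],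
 ⟨⟨[(nat_lit 40), (nat_lit 100), (nat_lit 140)], [(nat_lit 0), (nat_lit 1790), (nat_lit 4440)], [((nat_lit 0), (nat_lit 0), (nat_lit 0)), ((nat_lit 1000), (nat_lit 720), (nat_lit 465)), ((nat_lit 969), (nat_lit 697), (nat_lit 1000))], ((nat_lit 68), (nat_lit 100), (nat_lit 92))⟩, (nat_lit 1987352), (nat_lit 217), (nat_lit 217), (nat_lit 0), (nat_lit 68381), [(nat_lit 2083223622), (nat_lit 6250000224), (nat_lit 9842000000)], [], [(nat_lit 24677067403), (nat_lit 24979165800), (nat_lit 34861341898), (nat_lit 35178625836), (nat_lit 26967550038), (nat_lit 27194415999), (nat_lit 34810897989), (nat_lit 35018242989)], (nat_lit 1271251), (nat_lit 1271251), (nat_lit 1271251), (nat_lit 1271251), (nat_lit 230000), (nat_lit 2312501), [(nat_lit 490000), (nat_lit 1427501), (nat_lit 1271251)], [(nat_lit 5), (nat_lit 55), (nat_lit 428), (nat_lit 200), (nat_lit 12)]⟩,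
 ⟨⟨[(nat_lit 40), (nat_lit 100), (nat_lit 160)], [(nat_lit 0), (nat_lit 0), (nat_lit 4607)], [((nat_lit 0), (nat_lit 0), (nat_lit 0)), ((nat_lit 0), (nat_lit 0), (nat_lit 0)), ((nat_lit 846), (nat_lit 837), (nat_lit 1000))], ((nat_lit 89), (nat_lit 100), (nat_lit 99))⟩, (nat_lit 1736333), (nat_lit 259), (nat_lit 259), (nat_lit 0), (nat_lit 75948), [(nat_lit 2032000000), (nat_lit 6250000000), (nat_lit 11872000000)], [], [(nat_lit 30408630887), (nat_lit 31789585492), (nat_lit 40801697864), (nat_lit 42390250648), (nat_lit 30461185001), (nat_lit 31220084712), (nat_lit 37825918069), (nat_lit 38710393335)], (nat_lit 1271251), (nat_lit 1271251), (nat_lit 1271251), (nat_lit 1271251), (nat_lit 54688), (nat_lit 2487813), [(nat_lit 490000), (nat_lit 1427501), (nat_lit 1271251)], [(nat_lit 6), (nat_lit 56), (nat_lit 428), (nat_lit 200), (nat_lit 11)]⟩,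
 ⟨⟨[(nat_lit 120), (nat_lit 160), (nat_lit 200)], [(nat_lit 0), (nat_lit 0), (nat_lit 3198)], [((nat_lit 0), (nat_lit 0), (nat_lit 0)), ((nat_lit 0), (nat_lit 0), (nat_lit 0)), ((nat_lit 572), (nat_lit 1000), (nat_lit 714))], ((nat_lit 0), (nat_lit 0), (nat_lit 0))⟩, (nat_lit 108293), (nat_lit 300), (nat_lit 704), (nat_lit 16472400), (nat_lit 358927), [(nat_lit 1768896000), (nat_lit 2635584000), (nat_lit 3640800000)], [], [(nat_lit 17805896960), (nat_lit 17760290120), (nat_lit 16754793959), (nat_lit 16697499890), (nat_lit 16513780727), (nat_lit 16454126050), (nat_lit 15356953950), (nat_lit 15725824977)], (nat_lit 1100000), (nat_lit 1271251), (nat_lit 230000), (nat_lit 2312501), (nat_lit 54688), (nat_lit 2487813), [(nat_lit 1695001), (nat_lit 1271251), (nat_lit 1271251)], [(nat_lit 29), (nat_lit 66), (nat_lit 456), (nat_lit 225), (nat_lit 10)]⟩⟩) (.trZ (nat_lit 0) (nat_lit 1) (nat_lit 3) (nat_lit 80) (nat_lit 63) (nat_lit 100) (nat_lit 190) (.leaf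 ⟨(nat_lit 0), (nat_lit 778), (nat_lit 0), (nat_lit 222), (nat_lit 11668), (nat_lit 4455), (nat_lit 7228), (nat_lit 1549), (nat_lit 0), (nat_lit 0), (nat_lit 0), [], Pd.none, Pd.none, (nat_lit 0), (nat_lit 1), (nat_lit 0), (nat_lit 0), (nat_lit 4), (nat_lit 0), [], [], [], [],
 ⟨⟨[(nat_lit 40), (nat_lit 100), (nat_lit 140)], [(nat_lit 0), (nat_lit 2098), (nat_lit 4667)], [((nat_lit 0), (nat_lit 0), (nat_lit 0)), ((nat_lit 1000), (nat_lit 672), (nat_lit 546)), ((nat_lit 997), (nat_lit 670), (nat_lit 1000))], ((nat_lit 65), (nat_lit 100), (nat_lit 91))⟩, (nat_lit 1986030), (nat_lit 226), (nat_lit 226), (nat_lit 0), (nat_lit 97200), [(nat_lit 2032000035), (nat_lit 6250000019), (nat_lit 9842000000)], [], [(nat_lit 24574344462), (nat_lit 24840990729), (nat_lit 34006438657), (nat_lit 34308778295), (nat_lit 27074856744), (nat_lit 27302601270), (nat_lit 34407546862), (nat_lit 34607712290)], (nat_lit 1271251), (nat_lit 1271251), (nat_lit 1271251), (nat_lit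 1271251), (nat_lit 230000), (nat_lit 2312501), [(nat_lit 490000), (nat_lit 1427501), (nat_lit 1271251)], [(nat_lit 5), (nat_lit 55), (nat_lit 428), (nat_lit 200), (nat_lit 12)]⟩,
 ⟨⟨[(nat_lit 40), (nat_lit 100), (nat_lit 160)], [(nat_lit 0), (nat_lit 0), (nat_lit 4607)], [((nat_lit 0), (nat_lit 0), (nat_lit 0)), ((nat_lit 0), (nat_lit 0), (nat_lit 0)), ((nat_lit 846), (nat_lit 837), (nat_lit 1000))], ((nat_lit 89), (nat_lit 100), (nat_lit 99))⟩, (nat_lit 1694920), (nat_lit 304), (nat_lit 304), (nat_lit 0), (nat_lit 111962), [(nat_lit 2032000000), (nat_lit 6250000000), (nat_lit 11872000000)], [], [(nat_lit 30805403536), (nat_lit 32155544047), (nat_lit 40665785082), (nat_lit 42247772821), (nat_lit 30750735024), (nat_lit 31493263606), (nat_lit 37760569142), (nat_lit 38642450854)], (nat_lit 1271251), (nat_lit 1271251), (nat_lit 1271251), (nat_lit 1271251), (nat_lit 54688), (nat_lit 2487813), [(nat_lit 490000), (nat_lit 1427501), (nat_lit 1271251)],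 [(nat_lit 6), (nat_lit 56), (nat_lit 428), (nat_lit 200), (nat_lit 11)]⟩,
 ⟨⟨[(nat_lit 120), (nat_lit 160), (nat_lit 200)], [(nat_lit 0), (nat_lit 0), (nat_lit 3198)], [((nat_lit 0), (nat_lit 0), (nat_lit 0)), ((nat_lit 0), (nat_lit 0), (nat_lit 0)), ((nat_lit 572), (nat_lit 1000), (nat_lit 714))], ((nat_lit 0), (nat_lit 0), (nat_lit 0))⟩, (nat_lit 108293), (nat_lit 300), (nat_lit 802), (nat_lit 16472400), (nat_lit 526285), [(nat_lit 1768896000), (nat_lit 2635584000), (nat_lit 3640800000)], [], [(nat_lit 18975577246), (nat_lit 18908107616), (nat_lit 17671167266), (nat_lit 17596446831), (nat_lit 17380981527), (nat_lit 17304753234), (nat_lit 16026984948), (nat_lit 15946352763)], (nat_lit 1100000), (nat_lit 1271251), (nat_lit 230000), (nat_lit 2312501), (nat_lit 54688), (nat_lit 2487813), [(nat_lit 1695001), (nat_lit 1271251), (nat_lit 1271251)], [(nat_lit 29), (nat_lit 66), (nat_lit 456), (nat_lit 225), (nat_lit 10)]⟩⟩))) (.dle (nat_lit 0)))))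
noncomputable def c9_24 : Tr Lf :=
 (.spl (nat_lit 5) (nat_lit 160) (.spl (nat_lit 0) (nat_lit 355) (.spl (nat_lit 6) (nat_lit 132) (.leaf ⟨(nat_lit 0), (nat_lit 1000), (nat_lit 0), (nat_lit 0), (nat_lit 26617), (nat_lit 5045), (nat_lit 6748), (nat_lit 0), (nat_lit 0), (nat_lit 0), (nat_lit 0), [], Pd.none, Pd.none, (nat_lit 0), (nat_lit 1), (nat_lit 0), (nat_lit 0), (nat_lit 3), (nat_lit 0), [⟨(nat_lit 0), (nat_lit 72), (nat_lit 63), (nat_lit 100), (nat_lit 137725748)⟩], [⟨(nat_lit 1), (nat_lit 93), (nat_lit 67), (nat_lit 100), (nat_lit 233493921)⟩], [], [],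
 ⟨⟨[(nat_lit 40), (nat_lit 100), (nat_lit 140)], [(nat_lit 0), (nat_lit 1790), (nat_lit 4440)], [((nat_lit 0), (nat_lit 0), (nat_lit 0)), ((nat_lit 1000), (nat_lit 720), (nat_lit 465)), ((nat_lit 969), (nat_lit 697), (nat_lit 1000))], ((nat_lit 70), (nat_lit 99), (nat_lit 100))⟩, (nat_lit 1811031), (nat_lit 235), (nat_lit 235), (nat_lit 0), (nat_lit 58474), [(nat_lit 2190944980), (nat_lit 6250000014), (nat_lit 9842000000)], [], [(nat_lit 26621812003), (nat_lit 26934370618), (nat_lit 36799652136), (nat_lit 37124896651), (nat_lit 27729140835), (nat_lit 27926032394), (nat_lit 34963378818), (nat_lit 35172537764)], (nat_lit 1271251), (nat_lit 1271251), (nat_lit 1271251), (nat_lit 1271251), (nat_lit 54688), (nat_lit 2273126), [(nat_lit 490000), (nat_lit 1427501), (nat_lit 1271251)], [(nat_lit 5), (nat_lit 55), (nat_lit 428), (nat_lit 200), (nat_lit 12)]⟩,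
 ⟨⟨[(nat_lit 40), (nat_lit 100), (nat_lit 160)], [(nat_lit 0), (nat_lit 0), (nat_lit 4607)], [((nat_lit 0), (nat_lit 0), (nat_lit 0)), ((nat_lit 0), (nat_lit 0), (nat_lit 0)), ((nat_lit 846), (nat_lit 837), (nat_lit 1000))], ((nat_lit 85), (nat_lit 89), (nat_lit 100))⟩, (nat_lit 1490559), (nat_lit 269), (nat_lit 269), (nat_lit 0), (nat_lit 64862), [(nat_lit 2032000000), (nat_lit 6250000000), (nat_lit 11872000000)], [], [(nat_lit 32401899603), (nat_lit 33734010462), (nat_lit 40739805903), (nat_lit 41680278707), (nat_lit 27920653503), (nat_lit 29046315339), (nat_lit 34490553647), (nat_lit 35141549667)], (nat_lit 1271251), (nat_lit 1271251), (nat_lit 1271251), (nat_lit 1271251), (nat_lit 0), (nat_lit 1100000), [(nat_lit 490000), (nat_lit 1427501), (nat_lit 1271251)], [(nat_lit 6), (nat_lit 56), (nat_lit 373), (nat_lit 150), (nat_lit 9)]⟩,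
 Rw.none⟩) (.dle (nat_lit 0))) (.trZ (nat_lit 0) (nat_lit 1) (nat_lit 3) (nat_lit 80) (nat_lit 63) (nat_lit 100) (nat_lit 190) (.trZ (nat_lit 0) (nat_lit 2) (nat_lit 4) (nat_lit 100) (nat_lit 69) (nat_lit 50) (nat_lit 20) (.leaf ⟨(nat_lit 0), (nat_lit 1000), (nat_lit 0), (nat_lit 0), (nat_lit 27278), (nat_lit 4384), (nat_lit 6723), (nat_lit 0), (nat_lit 0), (nat_lit 0), (nat_lit 0), [], Pd.none, Pd.none, (nat_lit 0), (nat_lit 1), (nat_lit 0), (nat_lit 0), (nat_lit 3), (nat_lit 0), [], [⟨(nat_lit 1), (nat_lit 95), (nat_lit 64), (nat_lit 100), (nat_lit 340703364)⟩], [], [],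
 ⟨⟨[(nat_lit 40), (nat_lit 100), (nat_lit 140)], [(nat_lit 0), (nat_lit 2098), (nat_lit 4667)], [((nat_lit 0), (nat_lit 0), (nat_lit 0)), ((nat_lit 1000), (nat_lit 672), (nat_lit 546)), ((nat_lit 997), (nat_lit 670), (nat_lit 1000))], ((nat_lit 66), (nat_lit 97), (nat_lit 100))⟩, (nat_lit 1945625), (nat_lit 237), (nat_lit 237), (nat_lit 0), (nat_lit 88703), [(nat_lit 2032007737), (nat_lit 6250003545), (nat_lit 9842000000)], [], [(nat_lit 25423589914), (nat_lit 25708220309), (nat_lit 34752883956), (nat_lit 35055561240), (nat_lit 27347489686), (nat_lit 27522092689), (nat_lit 34315488634), (nat_lit 34514571792)], (nat_lit 1271251), (nat_lit 1271251), (nat_lit 1271251), (nat_lit 1271251), (nat_lit 111251), (nat_lit 2286250), [(nat_lit 490000), (nat_lit 1427501), (nat_lit 1271251)], [(nat_lit 5), (nat_lit 55), (nat_lit 428), (nat_lit 200), (nat_lit 12)]⟩,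
 ⟨⟨[(nat_lit 40), (nat_lit 100), (nat_lit 160)], [(nat_lit 0), (nat_lit 0), (nat_lit 4607)], [((nat_lit 0), (nat_lit 0), (nat_lit 0)), ((nat_lit 0), (nat_lit 0), (nat_lit 0)), ((nat_lit 846), (nat_lit 837), (nat_lit 1000))], ((nat_lit 84), (nat_lit 85), (nat_lit 100))⟩, (nat_lit 1499795), (nat_lit 321), (nat_lit 321), (nat_lit 0), (nat_lit 102205), [(nat_lit 2032000000), (nat_lit 6250000000), (nat_lit 11872000000)], [], [(nat_lit 32548887647), (nat_lit 33854266354), (nat_lit 40667508351), (nat_lit 41606632718), (nat_lit 28062608013), (nat_lit 29166150657), (nat_lit 34484577895), (nat_lit 35134821040)], (nat_lit 1271251), (nat_lit 1271251), (nat_lit 1271251), (nat_lit 1271251), (nat_lit 0), (nat_lit 1100000), [(nat_lit 490000), (nat_lit 1427501), (nat_lit 1271251)], [(nat_lit 6), (nat_lit 56), (nat_lit 373), (nat_lit 150), (nat_lit 9)]⟩,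
 Rw.none⟩)))) (.spl (nat_lit 4) (nat_lit 160) (.leaf ⟨(nat_lit 0), (nat_lit 942), (nat_lit 0), (nat_lit 58), (nat_lit 32274), (nat_lit 4684), (nat_lit 4578), (nat_lit 529), (nat_lit 0), (nat_lit 0), (nat_lit 0), [], Pd.none, Pd.none, (nat_lit 0), (nat_lit 1), (nat_lit 0), (nat_lit 0), (nat_lit 4), (nat_lit 0), [⟨(nat_lit 0), (nat_lit 72), (nat_lit 61), (nat_lit 100), (nat_lit 17578672)⟩], [], [⟨(nat_lit 1), (nat_lit 85), (nat_lit 78), (nat_lit 100), (nat_lit 394581063)⟩], [],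
 ⟨⟨[(nat_lit 40), (nat_lit 100), (nat_lit 160)], [(nat_lit 0), (nat_lit 1790), (nat_lit 5765)], [((nat_lit 0), (nat_lit 0), (nat_lit 0)), ((nat_lit 1000), (nat_lit 720), (nat_lit 465)), ((nat_lit 966), (nat_lit 696), (nat_lit 1000))], ((nat_lit 69), (nat_lit 96), (nat_lit 100))⟩, (nat_lit 2306773), (nat_lit 282), (nat_lit 282), (nat_lit 0), (nat_lit 89264), [(nat_lit 2032000802), (nat_lit 6250000405), (nat_lit 11872000000)], [], [(nat_lit 24846197700), (nat_lit 25526383883), (nat_lit 35767897507), (nat_lit 36395151427), (nat_lit 22264266200), (nat_lit 22736991130), (nat_lit 31444366524), (nat_lit 31999696960)], (nat_lit 1271251), (nat_lit 1271251), (nat_lit 1271251), (nat_lit 1271251), (nat_lit 54688), (nat_lit 1100000), [(nat_lit 490000), (nat_lit 1427501), (nat_lit 1271251)], [(nat_lit 6), (nat_lit 56), (nat_lit 373), (nat_lit 150), (nat_lit 9)]⟩,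
 ⟨⟨[(nat_lit 40), (nat_lit 100), (nat_lit 160)], [(nat_lit 0), (nat_lit 0), (nat_lit 4607)], [((nat_lit 0), (nat_lit 0), (nat_lit 0)), ((nat_lit 0), (nat_lit 0), (nat_lit 0)), ((nat_lit 846), (nat_lit 837), (nat_lit 1000))], ((nat_lit 84), (nat_lit 85), (nat_lit 100))⟩, (nat_lit 1780585), (nat_lit 184), (nat_lit 184), (nat_lit 0), (nat_lit 102205), [(nat_lit 2032000000), (nat_lit 6250000000), (nat_lit 11872000000)], [], [(nat_lit 25541857931), (nat_lit 26704176419), (nat_lit 33080354569), (nat_lit 33791560710), (nat_lit 31601644067), (nat_lit 31872313566), (nat_lit 36810024805), (nat_lit 37432068794)], (nat_lit 1271251), (nat_lit 1271251), (nat_lit 1271251), (nat_lit 1271251), (nat_lit 1100000), (nat_lit 2726876), [(nat_lit 490000), (nat_lit 1427501), (nat_lit 1271251)], [(nat_lit 6), (nat_lit 56), (nat_lit 428), (nat_lit 200), (nat_lit 10)]⟩,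
 ⟨⟨[(nat_lit 140), (nat_lit 180), (nat_lit 200)], [(nat_lit 0), (nat_lit 0), (nat_lit 2835)], [((nat_lit 0), (nat_lit 0), (nat_lit 0)), ((nat_lit 0), (nat_lit 0), (nat_lit 0)), ((nat_lit 363), (nat_lit 1000), (nat_lit 798))], ((nat_lit 0), (nat_lit 0), (nat_lit 0))⟩, (nat_lit 15957), (nat_lit 300), (nat_lit 876), (nat_lit 4529810), (nat_lit 853927), [(nat_lit 570836000), (nat_lit 815364000), (nat_lit 951200000)], [], [(nat_lit 4680635696), (nat_lit 4570073624), (nat_lit 4250057489), (nat_lit 4143999191), (nat_lit 4501799889), (nat_lit 4384956165), (nat_lit 4258448848), (nat_lit 4704600266)], (nat_lit 780000), (nat_lit 1271251), (nat_lit 54688), (nat_lit 1100000), (nat_lit 1100000), (nat_lit 2726876), [(nat_lit 1977501), (nat_lit 1271251), (nat_lit 1271251)], [(nat_lit 32), (nat_lit 67), (nat_lit 401), (nat_lit 175), (nat_lit 9)]⟩⟩) (.leaf ⟨(nat_lit 0), (nat_lit 570), (nat_lit 0), (nat_lit 430), (nat_lit 0), (nat_lit 4348), (nat_lit 12734), (nat_lit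 3900), (nat_lit 0), (nat_lit 0), (nat_lit 0), [], Pd.none, Pd.none, (nat_lit 0), (nat_lit 1), (nat_lit 0), (nat_lit 0), (nat_lit 4), (nat_lit 0), [⟨(nat_lit 0), (nat_lit 72), (nat_lit 61), (nat_lit 100), (nat_lit 3579913)⟩], [], [⟨(nat_lit 1), (nat_lit 85), (nat_lit 78), (nat_lit 100), (nat_lit 33879101)⟩], [],
 ⟨⟨[(nat_lit 40), (nat_lit 100), (nat_lit 160)], [(nat_lit 0), (nat_lit 1790), (nat_lit 5765)], [((nat_lit 0), (nat_lit 0), (nat_lit 0)), ((nat_lit 1000), (nat_lit 720), (nat_lit 465)), ((nat_lit 966), (nat_lit 696), (nat_lit 1000))], ((nat_lit 69), (nat_lit 96), (nat_lit 100))⟩, (nat_lit 2202839), (nat_lit 183), (nat_lit 183), (nat_lit 0), (nat_lit 89264), [(nat_lit 2032000318), (nat_lit 6250000767), (nat_lit 11872000000)], [], [(nat_lit 22878709268), (nat_lit 23445755597), (nat_lit 30966150828), (nat_lit 31503277120), (nat_lit 26670165406), (nat_lit 27099422431), (nat_lit 34070276822), (nat_lit 34467345624)], (nat_lit 1271251), (nat_lit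 1271251), (nat_lit 1271251), (nat_lit 1271251), (nat_lit 1100000), (nat_lit 2470001), [(nat_lit 490000), (nat_lit 1427501), (nat_lit 1271251)], [(nat_lit 6), (nat_lit 56), (nat_lit 428), (nat_lit 200), (nat_lit 10)]⟩,
 ⟨⟨[(nat_lit 40), (nat_lit 100), (nat_lit 160)], [(nat_lit 0), (nat_lit 0), (nat_lit 4607)], [((nat_lit 0), (nat_lit 0), (nat_lit 0)), ((nat_lit 0), (nat_lit 0), (nat_lit 0)), ((nat_lit 846), (nat_lit 837), (nat_lit 1000))], ((nat_lit 84), (nat_lit 85), (nat_lit 100))⟩, (nat_lit 0), (nat_lit 184), (nat_lit 184), (nat_lit 0), (nat_lit 102205), [(nat_lit 2032000000), (nat_lit 6250000000), (nat_lit 11872000000)], [], [(nat_lit 29066870078), (nat_lit 31230101042), (nat_lit 40114656992), (nat_lit 41910146188), (nat_lit 36193686953), (nat_lit 37490376544), (nat_lit 44815690501), (nat_lit 45977574337)], (nat_lit 1271251), (nat_lit 1271251), (nat_lit 1271251), (nat_lit 1271251), (nat_lit 1100000), (nat_lit 2726876), [(nat_lit 490000), (nat_lit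 1427501), (nat_lit 1271251)], [(nat_lit 6), (nat_lit 56), (nat_lit 428), (nat_lit 200), (nat_lit 10)]⟩,
 ⟨⟨[(nat_lit 140), (nat_lit 180), (nat_lit 200)], [(nat_lit 0), (nat_lit 0), (nat_lit 2835)], [((nat_lit 0), (nat_lit 0), (nat_lit 0)), ((nat_lit 0), (nat_lit 0), (nat_lit 0)), ((nat_lit 363), (nat_lit 1000), (nat_lit 798))], ((nat_lit 0), (nat_lit 0), (nat_lit 0))⟩, (nat_lit 118307), (nat_lit 300), (nat_lit 750), (nat_lit 33583000), (nat_lit 853927), [(nat_lit 4232060000), (nat_lit 6044940000), (nat_lit 7052000000)], [], [(nat_lit 29789537607), (nat_lit 29060563810), (nat_lit 28795168660), (nat_lit 28015817959), (nat_lit 28817014323), (nat_lit 28020921965), (nat_lit 27539979090), (nat_lit 30625502743)], (nat_lit 780000), (nat_lit 1271251), (nat_lit 1100000), (nat_lit 2470001), (nat_lit 1100000), (nat_lit 2726876), [(nat_lit 1977501), (nat_lit 1271251), (nat_lit 1271251)], [(nat_lit 32), (nat_lit 67), (nat_lit 456), (nat_lit 225), (nat_lit 10)]⟩⟩)))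
noncomputable def c9_25 : Tr Lf :=
 (.spl (nat_lit 4) (nat_lit 160) (.spl (nat_lit 2) (nat_lit 140) (.trX (nat_lit 5) (nat_lit 1) (nat_lit 2) (nat_lit 75) (nat_lit 92) (nat_lit 100) (nat_lit 300) (.leaf ⟨(nat_lit 0), (nat_lit 1000), (nat_lit 0), (nat_lit 0), (nat_lit 0), (nat_lit 7089), (nat_lit 6080), (nat_lit 0), (nat_lit 9829265), (nat_lit 0), (nat_lit 0), [], Pd.none, Pd.none, (nat_lit 0), (nat_lit 1), (nat_lit 0), (nat_lit 0), (nat_lit 3), (nat_lit 0), [⟨(nat_lit 0), (nat_lit 63), (nat_lit 63), (nat_lit 100), (nat_lit 78789407)⟩], [⟨(nat_lit 0), (nat_lit 100), (nat_lit 67), (nat_lit 54), (nat_lit 7739470)⟩], [⟨(nat_lit 1), (nat_lit 100), (nat_lit 71), (nat_lit 100), (nat_lit 154392679)⟩], [],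
 ⟨⟨[(nat_lit 40), (nat_lit 100), (nat_lit 140)], [(nat_lit 0), (nat_lit 1790), (nat_lit 4440)], [((nat_lit 0), (nat_lit 0), (nat_lit 0)), ((nat_lit 1000), (nat_lit 720), (nat_lit 465)), ((nat_lit 969), (nat_lit 697), (nat_lit 1000))], ((nat_lit 70), (nat_lit 99), (nat_lit 100))⟩, (nat_lit 653631), (nat_lit 300), (nat_lit 351), (nat_lit 50800006), (nat_lit 346039), [(nat_lit 2032000055), (nat_lit 6250000034), (nat_lit 9842000000)], [], [(nat_lit 37281962356), (nat_lit 37856419577), (nat_lit 43081075220), (nat_lit 43425138914), (nat_lit 32775848527), (nat_lit 33207597196), (nat_lit 37473935816), (nat_lit 37768335230)], (nat_lit 1271251), (nat_lit 1271251), (nat_lit 1271251), (nat_lit 1271251), (nat_lit 54688), (nat_lit 1100000), [(nat_lit 490000), (nat_lit 1427501), (nat_lit 1271251)], [(nat_lit 5), (nat_lit 55), (nat_lit 373), (nat_lit 150), (nat_lit 10)]⟩,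
 ⟨⟨[(nat_lit 40), (nat_lit 100), (nat_lit 160)], [(nat_lit 0), (nat_lit 1192), (nat_lit 5376)], [((nat_lit 0), (nat_lit 0), (nat_lit 0)), ((nat_lit 1000), (nat_lit 814), (nat_lit 310)), ((nat_lit 919), (nat_lit 747), (nat_lit 1000))], ((nat_lit 76), (nat_lit 96), (nat_lit 100))⟩, (nat_lit 1989538), (nat_lit 390), (nat_lit 390), (nat_lit 0), (nat_lit 348806), [(nat_lit 2032000000), (nat_lit 6250000000), (nat_lit 11872000000)], [], [(nat_lit 28293161862), (nat_lit 29778822209), (nat_lit 39040624880), (nat_lit 40474834740), (nat_lit 27140792432), (nat_lit 28100830375), (nat_lit 35267432230), (nat_lit 36215357620)], (nat_lit 1271251), (nat_lit 1271251), (nat_lit 1271251), (nat_lit 1271251), (nat_lit 54688), (nat_lit 2130001), [(nat_lit 490000), (nat_lit 1427501), (nat_lit 1271251)], [(nat_lit 6), (nat_lit 56), (nat_lit 401), (nat_lit 175), (nat_lit 10)]⟩,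
 Rw.none⟩)) (.trZ (nat_lit 0) (nat_lit 2) (nat_lit 4) (nat_lit 100) (nat_lit 69) (nat_lit 54) (nat_lit 20) (.trZ (nat_lit 1) (nat_lit 2) (nat_lit 5) (nat_lit 100) (nat_lit 75) (nat_lit 48) (nat_lit 20) (.spl (nat_lit 0) (nat_lit 355) (.ord (.leaf ⟨(nat_lit 0), (nat_lit 897), (nat_lit 0), (nat_lit 103), (nat_lit 2310), (nat_lit 8384), (nat_lit 5599), (nat_lit 1217), (nat_lit 38392078), (nat_lit 0), (nat_lit 0), [], Pd.none, Pd.none, (nat_lit 0), (nat_lit 1), (nat_lit 0), (nat_lit 0), (nat_lit 3), (nat_lit 0), [], [⟨(nat_lit 0), (nat_lit 100), (nat_lit 67), (nat_lit 60), (nat_lit 53958915)⟩], [], [⟨(nat_lit 1), (nat_lit 100), (nat_lit 94), (nat_lit 92), (nat_lit 52451980)⟩],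
 ⟨⟨[(nat_lit 40), (nat_lit 100), (nat_lit 140)], [(nat_lit 0), (nat_lit 1790), (nat_lit 4440)], [((nat_lit 0), (nat_lit 0), (nat_lit 0)), ((nat_lit 1000), (nat_lit 720), (nat_lit 465)), ((nat_lit 969), (nat_lit 697), (nat_lit 1000))], ((nat_lit 70), (nat_lit 99), (nat_lit 100))⟩, (nat_lit 653631), (nat_lit 300), (nat_lit 305), (nat_lit 50800007), (nat_lit 216751), [(nat_lit 2032000279), (nat_lit 6250000071), (nat_lit 9842000000)], [], [(nat_lit 35461389592), (nat_lit 35774099991), (nat_lit 45347651172), (nat_lit 45778451206), (nat_lit 30111282554), (nat_lit 30377157790), (nat_lit 36710432224), (nat_lit 37088328592)], (nat_lit 1271251), (nat_lit 1271251), (nat_lit 1271251), (nat_lit 1271251), (nat_lit 111251), (nat_lit 1100000), [(nat_lit 490000), (nat_lit 1427501), (nat_lit 1271251)], [(nat_lit 5), (nat_lit 55), (nat_lit 373), (nat_lit 150), (nat_lit 10)]⟩,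
 ⟨⟨[(nat_lit 40), (nat_lit 100), (nat_lit 160)], [(nat_lit 0), (nat_lit 1192), (nat_lit 5376)], [((nat_lit 0), (nat_lit 0), (nat_lit 0)), ((nat_lit 1000), (nat_lit 814), (nat_lit 310)), ((nat_lit 919), (nat_lit 747), (nat_lit 1000))], ((nat_lit 76), (nat_lit 96), (nat_lit 100))⟩, (nat_lit 1941599), (nat_lit 343), (nat_lit 343), (nat_lit 0), (nat_lit 218613), [(nat_lit 2032000000), (nat_lit 6250000000), (nat_lit 11872000000)], [], [(nat_lit 28170669625), (nat_lit 29015623459), (nat_lit 37077116301), (nat_lit 38101900009), (nat_lit 28272619008), (nat_lit 28915336978), (nat_lit 35238040135), (nat_lit 35890851256)], (nat_lit 1271251), (nat_lit 1271251), (nat_lit 1271251), (nat_lit 1271251), (nat_lit 111251), (nat_lit 2286250), [(nat_lit 490000), (nat_lit 1427501), (nat_lit 1271251)], [(nat_lit 6), (nat_lit 56), (nat_lit 428), (nat_lit 200), (nat_lit 10)]⟩,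
 ⟨⟨[(nat_lit 140), (nat_lit 180), (nat_lit 200)], [(nat_lit 0), (nat_lit 608), (nat_lit 3317)], [((nat_lit 0), (nat_lit 0), (nat_lit 0)), ((nat_lit 913), (nat_lit 1000), (nat_lit 217)), ((nat_lit 385), (nat_lit 1000), (nat_lit 814))], ((nat_lit 0), (nat_lit 0), (nat_lit 0))⟩, (nat_lit 30415), (nat_lit 300), (nat_lit 1240), (nat_lit 7941568), (nat_lit 1495852), [(nat_lit 1013726000), (nat_lit 1447974000), (nat_lit 1689200000)], [], [(nat_lit 8396186551), (nat_lit 8093612511), (nat_lit 7162705998), (nat_lit 7060962465), (nat_lit 6723554167), (nat_lit 6619218138), (nat_lit 6982712528), (nat_lit 7296245192)], (nat_lit 936250), (nat_lit 1100000), (nat_lit 111251), (nat_lit 1100000), (nat_lit 111251), (nat_lit 2286250), [(nat_lit 1977501), (nat_lit 1271251), (nat_lit 1271251)], [(nat_lit 32), (nat_lit 67), (nat_lit 401), (nat_lit 175), (nat_lit 9)]⟩⟩)) (.trZ (nat_lit 0) (nat_lit 2) (nat_lit 4) (nat_lit 100) (nat_lit 66) (nat_lit 58) (nat_lit 30) (.leaf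 ⟨(nat_lit 0), (nat_lit 919), (nat_lit 0), (nat_lit 81), (nat_lit 7), (nat_lit 7838), (nat_lit 5990), (nat_lit 1098), (nat_lit 209129), (nat_lit 0), (nat_lit 0), [], Pd.none, Pd.none, (nat_lit 0), (nat_lit 1), (nat_lit 0), (nat_lit 0), (nat_lit 3), (nat_lit 0), [], [⟨(nat_lit 0), (nat_lit 100), (nat_lit 64), (nat_lit 63), (nat_lit 23894730)⟩], [⟨(nat_lit 1), (nat_lit 92), (nat_lit 68), (nat_lit 100), (nat_lit 58594988)⟩], [⟨(nat_lit 1), (nat_lit 100), (nat_lit 95), (nat_lit 95), (nat_lit 9642640)⟩],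
 ⟨⟨[(nat_lit 40), (nat_lit 100), (nat_lit 140)], [(nat_lit 0), (nat_lit 2098), (nat_lit 4667)], [((nat_lit 0), (nat_lit 0), (nat_lit 0)), ((nat_lit 1000), (nat_lit 672), (nat_lit 546)), ((nat_lit 997), (nat_lit 670), (nat_lit 1000))], ((nat_lit 67), (nat_lit 100), (nat_lit 100))⟩, (nat_lit 584958), (nat_lit 300), (nat_lit 315), (nat_lit 50800008), (nat_lit 271510), [(nat_lit 2032000004), (nat_lit 6289587275), (nat_lit 9842000000)], [], [(nat_lit 35735342589), (nat_lit 36034184991), (nat_lit 43349620059), (nat_lit 43761114909), (nat_lit 31412786777), (nat_lit 31669478382), (nat_lit 36452186837), (nat_lit 36694530618)], (nat_lit 1271251), (nat_lit 1271251), (nat_lit 1271251), (nat_lit 1271251), (nat_lit 169688), (nat_lit 1100000), [(nat_lit 490000), (nat_lit 1427501), (nat_lit 1271251)], [(nat_lit 5), (nat_lit 55), (nat_lit 373), (nat_lit 150), (nat_lit 10)]⟩,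
 ⟨⟨[(nat_lit 40), (nat_lit 100), (nat_lit 160)], [(nat_lit 0), (nat_lit 1192), (nat_lit 5376)], [((nat_lit 0), (nat_lit 0), (nat_lit 0)), ((nat_lit 1000), (nat_lit 814), (nat_lit 310)), ((nat_lit 919), (nat_lit 747), (nat_lit 1000))], ((nat_lit 76), (nat_lit 96), (nat_lit 100))⟩, (nat_lit 1928902), (nat_lit 360), (nat_lit 360), (nat_lit 0), (nat_lit 274900), [(nat_lit 2032000000), (nat_lit 6250000000), (nat_lit 11872000000)], [], [(nat_lit 28361438930), (nat_lit 29524582345), (nat_lit 38117293503), (nat_lit 39533767775), (nat_lit 28135493023), (nat_lit 29042786403), (nat_lit 35727128350), (nat_lit 36621383620)], (nat_lit 1271251), (nat_lit 1271251), (nat_lit 1271251), (nat_lit 1271251), (nat_lit 111251), (nat_lit 2286250), [(nat_lit 490000), (nat_lit 1427501), (nat_lit 1271251)], [(nat_lit 6), (nat_lit 56), (nat_lit 428), (nat_lit 200), (nat_lit 10)]⟩,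
 ⟨⟨[(nat_lit 140), (nat_lit 180), (nat_lit 200)], [(nat_lit 0), (nat_lit 608), (nat_lit 3317)], [((nat_lit 0), (nat_lit 0), (nat_lit 0)), ((nat_lit 913), (nat_lit 1000), (nat_lit 217)), ((nat_lit 385), (nat_lit 1000), (nat_lit 814))], ((nat_lit 0), (nat_lit 0), (nat_lit 0))⟩, (nat_lit 23919), (nat_lit 300), (nat_lit 1425), (nat_lit 6245307), (nat_lit 1931387), [(nat_lit 797202000), (nat_lit 1138698000), (nat_lit 1328400000)], [], [(nat_lit 6827750438), (nat_lit 6512536660), (nat_lit 5333762876), (nat_lit 5243217264), (nat_lit 4963305153), (nat_lit 4868131244), (nat_lit 5693081184), (nat_lit 5968143000)], (nat_lit 936250), (nat_lit 1100000), (nat_lit 169688), (nat_lit 1100000), (nat_lit 111251), (nat_lit 2286250), [(nat_lit 1977501), (nat_lit 1271251), (nat_lit 1271251)], [(nat_lit 32), (nat_lit 67), (nat_lit 437), (nat_lit 175), (nat_lit 10)]⟩⟩)))))) (.spl (nat_lit 4) (nat_lit 240) (.leaf ⟨(nat_lit 0), (nat_lit 924), (nat_lit 0), (nat_lit 76),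 (nat_lit 0), (nat_lit 7517), (nat_lit 5996), (nat_lit 773), (nat_lit 73750), (nat_lit 0), (nat_lit 0), [], Pd.none, Pd.none, (nat_lit 0), (nat_lit 1), (nat_lit 0), (nat_lit 0), (nat_lit 4), (nat_lit 0), [], [], [⟨(nat_lit 1), (nat_lit 96), (nat_lit 69), (nat_lit 100), (nat_lit 87628030)⟩], [],
 ⟨⟨[(nat_lit 40), (nat_lit 100), (nat_lit 140)], [(nat_lit 0), (nat_lit 1790), (nat_lit 4440)], [((nat_lit 0), (nat_lit 0), (nat_lit 0)), ((nat_lit 1000), (nat_lit 720), (nat_lit 465)), ((nat_lit 969), (nat_lit 697), (nat_lit 1000))], ((nat_lit 70), (nat_lit 99), (nat_lit 100))⟩, (nat_lit 719891), (nat_lit 240), (nat_lit 240), (nat_lit 0), (nat_lit 347345), [(nat_lit 2746943056), (nat_lit 6440096748), (nat_lit 9842000000)], [], [(nat_lit 27572049250), (nat_lit 28197489123), (nat_lit 35775571592), (nat_lit 36250825446), (nat_lit 28693125972), (nat_lit 29379028843), (nat_lit 35879675979), (nat_lit 36487964314)], (nat_lit 1271251), (nat_lit 1271251), (nat_lit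 1271251), (nat_lit 1271251), (nat_lit 1100000), (nat_lit 1785001), [(nat_lit 490000), (nat_lit 1427501), (nat_lit 1271251)], [(nat_lit 5), (nat_lit 55), (nat_lit 401), (nat_lit 175), (nat_lit 10)]⟩,
 ⟨⟨[(nat_lit 40), (nat_lit 100), (nat_lit 160)], [(nat_lit 0), (nat_lit 1192), (nat_lit 5376)], [((nat_lit 0), (nat_lit 0), (nat_lit 0)), ((nat_lit 1000), (nat_lit 814), (nat_lit 310)), ((nat_lit 919), (nat_lit 747), (nat_lit 1000))], ((nat_lit 76), (nat_lit 96), (nat_lit 100))⟩, (nat_lit 1936364), (nat_lit 391), (nat_lit 391), (nat_lit 0), (nat_lit 350252), [(nat_lit 2032000000), (nat_lit 6250000000), (nat_lit 11872000000)], [], [(nat_lit 28656122376), (nat_lit 29999347123), (nat_lit 38805955519), (nat_lit 40229352363), (nat_lit 28092508231), (nat_lit 29048103061), (nat_lit 35734633540), (nat_lit 36629254648)], (nat_lit 1271251), (nat_lit 1271251), (nat_lit 1271251), (nat_lit 1271251), (nat_lit 54688), (nat_lit 2273126), [(nat_lit 490000), (nat_lit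 1427501), (nat_lit 1271251)], [(nat_lit 6), (nat_lit 56), (nat_lit 428), (nat_lit 200), (nat_lit 10)]⟩,
 ⟨⟨[(nat_lit 140), (nat_lit 180), (nat_lit 200)], [(nat_lit 0), (nat_lit 0), (nat_lit 2835)], [((nat_lit 0), (nat_lit 0), (nat_lit 0)), ((nat_lit 0), (nat_lit 0), (nat_lit 0)), ((nat_lit 363), (nat_lit 1000), (nat_lit 798))], ((nat_lit 0), (nat_lit 0), (nat_lit 0))⟩, (nat_lit 20910), (nat_lit 300), (nat_lit 2035), (nat_lit 5935601), (nat_lit 3361939), [(nat_lit 747992000), (nat_lit 1068408000), (nat_lit 1246400000)], [], [(nat_lit 6701146980), (nat_lit 6591192932), (nat_lit 6506015346), (nat_lit 6396753025), (nat_lit 5870623975), (nat_lit 5764237138), (nat_lit 5683313252), (nat_lit 6087712336)], (nat_lit 780000), (nat_lit 1100000), (nat_lit 1100000), (nat_lit 1785001), (nat_lit 54688), (nat_lit 2273126), [(nat_lit 1977501), (nat_lit 1271251), (nat_lit 1271251)], [(nat_lit 32), (nat_lit 67), (nat_lit 599), (nat_lit 200), (nat_lit 13)]⟩⟩) (.spl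 (nat_lit 0) (nat_lit 355) (.ord (.leaf ⟨(nat_lit 0), (nat_lit 909), (nat_lit 0), (nat_lit 91), (nat_lit 0), (nat_lit 9445), (nat_lit 5983), (nat_lit 1046), (nat_lit 526700), (nat_lit 0), (nat_lit 0), [], Pd.none, Pd.none, (nat_lit 0), (nat_lit 1), (nat_lit 0), (nat_lit 0), (nat_lit 6), (nat_lit 0), [], [⟨(nat_lit 1), (nat_lit 97), (nat_lit 68), (nat_lit 100), (nat_lit 456038234)⟩], [⟨(nat_lit 1), (nat_lit 95), (nat_lit 71), (nat_lit 100), (nat_lit 55456919)⟩], [],
 ⟨⟨[(nat_lit 40), (nat_lit 100), (nat_lit 140)], [(nat_lit 0), (nat_lit 1790), (nat_lit 4440)], [((nat_lit 0), (nat_lit 0), (nat_lit 0)), ((nat_lit 1000), (nat_lit 720), (nat_lit 465)), ((nat_lit 969), (nat_lit 697), (nat_lit 1000))], ((nat_lit 70), (nat_lit 99), (nat_lit 100))⟩, (nat_lit 0), (nat_lit 205), (nat_lit 205), (nat_lit 0), (nat_lit 292837), [(nat_lit 3300474351), (nat_lit 6880143760), (nat_lit 9842000000)], [], [(nat_lit 30667339447), (nat_lit 31061520855), (nat_lit 38272072293),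 (nat_lit 38617440557), (nat_lit 33046643025), (nat_lit 33383820161), (nat_lit 40018911419), (nat_lit 40312526137)], (nat_lit 1271251), (nat_lit 1271251), (nat_lit 1271251), (nat_lit 1271251), (nat_lit 1271251), (nat_lit 1271251), [(nat_lit 490000), (nat_lit 1427501), (nat_lit 1271251)], [(nat_lit 5), (nat_lit 55), (nat_lit 401), (nat_lit 175), (nat_lit 10)]⟩,
 ⟨⟨[(nat_lit 40), (nat_lit 100), (nat_lit 160)], [(nat_lit 0), (nat_lit 1192), (nat_lit 5376)], [((nat_lit 0), (nat_lit 0), (nat_lit 0)), ((nat_lit 1000), (nat_lit 814), (nat_lit 310)), ((nat_lit 919), (nat_lit 747), (nat_lit 1000))], ((nat_lit 76), (nat_lit 96), (nat_lit 100))⟩, (nat_lit 1919630), (nat_lit 372), (nat_lit 372), (nat_lit 0), (nat_lit 294878), [(nat_lit 2032000000), (nat_lit 6250000000), (nat_lit 11872000000)], [], [(nat_lit 28809513549), (nat_lit 29711163416), (nat_lit 38769637642), (nat_lit 39835930193), (nat_lit 28188686555), (nat_lit 28868717890), (nat_lit 35718372295),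 (nat_lit 36388743640)], (nat_lit 1271251), (nat_lit 1271251), (nat_lit 1271251), (nat_lit 1271251), (nat_lit 54688), (nat_lit 2273126), [(nat_lit 490000), (nat_lit 1427501), (nat_lit 1271251)], [(nat_lit 6), (nat_lit 56), (nat_lit 428), (nat_lit 200), (nat_lit 10)]⟩,
 ⟨⟨[(nat_lit 140), (nat_lit 180), (nat_lit 200)], [(nat_lit 0), (nat_lit 0), (nat_lit 2835)], [((nat_lit 0), (nat_lit 0), (nat_lit 0)), ((nat_lit 0), (nat_lit 0), (nat_lit 0)), ((nat_lit 363), (nat_lit 1000), (nat_lit 798))], ((nat_lit 0), (nat_lit 0), (nat_lit 0))⟩, (nat_lit 25037), (nat_lit 300), (nat_lit 1699), (nat_lit 7107101), (nat_lit 2754568), [(nat_lit 895622000), (nat_lit 1279278000), (nat_lit 1492400000)], [], [(nat_lit 6405558338), (nat_lit 6230143388), (nat_lit 6310086313), (nat_lit 6131720097), (nat_lit 5112772728), (nat_lit 5259199756), (nat_lit 4993761816), (nat_lit 4820383016)], (nat_lit 780000), (nat_lit 1100000), (nat_lit 1271251), (nat_lit 1271251), (nat_lit 54688),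 (nat_lit 2273126), [(nat_lit 1977501), (nat_lit 1271251), (nat_lit 1271251)], [(nat_lit 32), (nat_lit 67), (nat_lit 523), (nat_lit 200), (nat_lit 11)]⟩⟩)) (.leaf ⟨(nat_lit 0), (nat_lit 920), (nat_lit 0), (nat_lit 80), (nat_lit 0), (nat_lit 8452), (nat_lit 5990), (nat_lit 908), (nat_lit 6150), (nat_lit 0), (nat_lit 0), [], Pd.none, Pd.none, (nat_lit 0), (nat_lit 1), (nat_lit 0), (nat_lit 0), (nat_lit 6), (nat_lit 0), [], [⟨(nat_lit 1), (nat_lit 98), (nat_lit 65), (nat_lit 100), (nat_lit 488091828)⟩], [⟨(nat_lit 1), (nat_lit 96), (nat_lit 69), (nat_lit 100), (nat_lit 67797163)⟩], [],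
 ⟨⟨[(nat_lit 40), (nat_lit 100), (nat_lit 140)], [(nat_lit 0), (nat_lit 2098), (nat_lit 4667)], [((nat_lit 0), (nat_lit 0), (nat_lit 0)), ((nat_lit 1000), (nat_lit 672), (nat_lit 546)), ((nat_lit 997), (nat_lit 670), (nat_lit 1000))], ((nat_lit 67), (nat_lit 100), (nat_lit 100))⟩, (nat_lit 341621), (nat_lit 222), (nat_lit 222), (nat_lit 0), (nat_lit 346536), [(nat_lit 2842555481), (nat_lit 6769731002), (nat_lit 9842000000)], [], [(nat_lit 30070223617), (nat_lit 30438019463), (nat_lit 37364025065), (nat_lit 37688356584), (nat_lit 32303291027), (nat_lit 32619284726), (nat_lit 39033533324), (nat_lit 39310435728)], (nat_lit 1271251), (nat_lit 1271251), (nat_lit 1271251), (nat_lit 1271251), (nat_lit 1271251), (nat_lit 1271251), [(nat_lit 490000), (nat_lit 1427501), (nat_lit 1271251)], [(nat_lit 5), (nat_lit 55), (nat_lit 401), (nat_lit 175), (nat_lit 10)]⟩,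
 ⟨⟨[(nat_lit 40), (nat_lit 100), (nat_lit 160)], [(nat_lit 0), (nat_lit 1192), (nat_lit 5376)], [((nat_lit 0), (nat_lit 0), (nat_lit 0)), ((nat_lit 1000), (nat_lit 814), (nat_lit 310)), ((nat_lit 919), (nat_lit 747), (nat_lit 1000))], ((nat_lit 76), (nat_lit 96), (nat_lit 100))⟩, (nat_lit 1928902), (nat_lit 391), (nat_lit 391), (nat_lit 0), (nat_lit 350173), [(nat_lit 2032000000), (nat_lit 6250000000), (nat_lit 11872000000)], [], [(nat_lit 28724889958), (nat_lit 30034795798), (nat_lit 38789193422), (nat_lit 40211817908), (nat_lit 28135493023), (nat_lit 29042786403), (nat_lit 35727128350), (nat_lit 36621383620)], (nat_lit 1271251), (nat_lit 1271251), (nat_lit 1271251), (nat_lit 1271251), (nat_lit 54688), (nat_lit 2273126), [(nat_lit 490000), (nat_lit 1427501), (nat_lit 1271251)], [(nat_lit 6), (nat_lit 56), (nat_lit 428), (nat_lit 200), (nat_lit 10)]⟩,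
 ⟨⟨[(nat_lit 140), (nat_lit 180), (nat_lit 200)], [(nat_lit 0), (nat_lit 0), (nat_lit 2835)], [((nat_lit 0), (nat_lit 0), (nat_lit 0)), ((nat_lit 0), (nat_lit 0), (nat_lit 0)), ((nat_lit 363), (nat_lit 1000), (nat_lit 798))], ((nat_lit 0), (nat_lit 0), (nat_lit 0))⟩, (nat_lit 22011), (nat_lit 300), (nat_lit 1995), (nat_lit 6248000), (nat_lit 3361939), [(nat_lit 787360000), (nat_lit 1124640000), (nat_lit 1312000000)], [], [(nat_lit 5685583018), (nat_lit 5533439376), (nat_lit 5584245586), (nat_lit 5429908653), (nat_lit 4555226672), (nat_lit 4617808160), (nat_lit 4445336280), (nat_lit 4295286484)], (nat_lit 780000), (nat_lit 1100000), (nat_lit 1271251), (nat_lit 1271251), (nat_lit 54688), (nat_lit 2273126), [(nat_lit 1977501), (nat_lit 1271251), (nat_lit 1271251)], [(nat_lit 32), (nat_lit 67), (nat_lit 597), (nat_lit 200), (nat_lit 13)]⟩⟩))))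
noncomputable def c9_26 : Tr Lf :=
 (.spl (nat_lit 5) (nat_lit 160) (.spl (nat_lit 4) (nat_lit 160) (.leaf ⟨(nat_lit 0), (nat_lit 1000), (nat_lit 0), (nat_lit 0), (nat_lit 11896), (nat_lit 8101), (nat_lit 6438), (nat_lit 0), (nat_lit 2753531050523), (nat_lit 0), (nat_lit 0), [], Pd.none, Pd.none, (nat_lit 0), (nat_lit 1), (nat_lit 0), (nat_lit 0), (nat_lit 3), (nat_lit 0), [⟨(nat_lit 0), (nat_lit 63), (nat_lit 63), (nat_lit 100), (nat_lit 179341720)⟩], [⟨(nat_lit 0), (nat_lit 100), (nat_lit 66), (nat_lit 58), (nat_lit 96897949)⟩], [], [],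
 ⟨⟨[(nat_lit 40), (nat_lit 100), (nat_lit 160)], [(nat_lit 0), (nat_lit 1790), (nat_lit 5765)], [((nat_lit 0), (nat_lit 0), (nat_lit 0)), ((nat_lit 1000), (nat_lit 720), (nat_lit 465)), ((nat_lit 966), (nat_lit 696), (nat_lit 1000))], ((nat_lit 68), (nat_lit 89), (nat_lit 100))⟩, (nat_lit 653631), (nat_lit 300), (nat_lit 326), (nat_lit 50800006), (nat_lit 137776), [(nat_lit 2032000001), (nat_lit 6250000001), (nat_lit 11872000000)], [], [(nat_lit 41765761212), (nat_lit 42285026258), (nat_lit 46420616863), (nat_lit 46717280993), (nat_lit 35457534974), (nat_lit 35898362761), (nat_lit 39321890232), (nat_lit 39573484070)], (nat_lit 1271251), (nat_lit 1271251), (nat_lit 1271251), (nat_lit 1271251), (nat_lit 54688), (nat_lit 1100000), [(nat_lit 490000), (nat_lit 1427501), (nat_lit 1271251)], [(nat_lit 6), (nat_lit 56), (nat_lit 373), (nat_lit 150), (nat_lit 9)]⟩,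
 ⟨⟨[(nat_lit 40), (nat_lit 100), (nat_lit 160)], [(nat_lit 0), (nat_lit 1192), (nat_lit 5376)], [((nat_lit 0), (nat_lit 0), (nat_lit 0)), ((nat_lit 1000), (nat_lit 814), (nat_lit 310)), ((nat_lit 919), (nat_lit 747), (nat_lit 1000))], ((nat_lit 73), (nat_lit 85), (nat_lit 100))⟩, (nat_lit 1296074), (nat_lit 327), (nat_lit 327), (nat_lit 0), (nat_lit 140002), [(nat_lit 2032000000), (nat_lit 6250000000), (nat_lit 11872000000)], [], [(nat_lit 32249772963), (nat_lit 33785351180), (nat_lit 40603324482), (nat_lit 41521057252), (nat_lit 28275495931), (nat_lit 29316268282), (nat_lit 34849493018), (nat_lit 35649730516)], (nat_lit 1271251), (nat_lit 1271251), (nat_lit 1271251), (nat_lit 1271251), (nat_lit 54688), (nat_lit 1100000), [(nat_lit 490000), (nat_lit 1427501), (nat_lit 1271251)], [(nat_lit 6), (nat_lit 56), (nat_lit 373), (nat_lit 150), (nat_lit 9)]⟩,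
 Rw.none⟩) (.leaf ⟨(nat_lit 0), (nat_lit 964), (nat_lit 0), (nat_lit 36), (nat_lit 26829), (nat_lit 5996), (nat_lit 5996), (nat_lit 463), (nat_lit 7940787455297), (nat_lit 0), (nat_lit 0), [], Pd.none, Pd.none, (nat_lit 0), (nat_lit 1), (nat_lit 0), (nat_lit 0), (nat_lit 4), (nat_lit 0), [⟨(nat_lit 0), (nat_lit 63), (nat_lit 63), (nat_lit 100), (nat_lit 71112606)⟩], [⟨(nat_lit 1), (nat_lit 97), (nat_lit 66), (nat_lit 100), (nat_lit 426319673)⟩], [], [],
 ⟨⟨[(nat_lit 40), (nat_lit 100), (nat_lit 160)], [(nat_lit 0), (nat_lit 1790), (nat_lit 5765)], [((nat_lit 0), (nat_lit 0), (nat_lit 0)), ((nat_lit 1000), (nat_lit 720), (nat_lit 465)), ((nat_lit 966), (nat_lit 696), (nat_lit 1000))], ((nat_lit 68), (nat_lit 89), (nat_lit 100))⟩, (nat_lit 1509054), (nat_lit 198), (nat_lit 198), (nat_lit 0), (nat_lit 137776), [(nat_lit 2472362808), (nat_lit 7652371412), (nat_lit 11872000000)], [], [(nat_lit 26734859179), (nat_lit 27367760198), (nat_lit 33549214712),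 (nat_lit 33938753970), (nat_lit 29655842308), (nat_lit 30133020223), (nat_lit 35634615910), (nat_lit 36105751144)], (nat_lit 1271251), (nat_lit 1271251), (nat_lit 1271251), (nat_lit 1271251), (nat_lit 1100000), (nat_lit 2298751), [(nat_lit 490000), (nat_lit 1427501), (nat_lit 1271251)], [(nat_lit 6), (nat_lit 56), (nat_lit 401), (nat_lit 175), (nat_lit 9)]⟩,
 ⟨⟨[(nat_lit 40), (nat_lit 100), (nat_lit 160)], [(nat_lit 0), (nat_lit 1192), (nat_lit 5376)], [((nat_lit 0), (nat_lit 0), (nat_lit 0)), ((nat_lit 1000), (nat_lit 814), (nat_lit 310)), ((nat_lit 919), (nat_lit 747), (nat_lit 1000))], ((nat_lit 73), (nat_lit 85), (nat_lit 100))⟩, (nat_lit 1437329), (nat_lit 327), (nat_lit 327), (nat_lit 0), (nat_lit 140002), [(nat_lit 2032000000), (nat_lit 6250000000), (nat_lit 11872000000)], [], [(nat_lit 31607285711), (nat_lit 32782043225), (nat_lit 39339842348), (nat_lit 40230097076), (nat_lit 28073115424), (nat_lit 29078355616), (nat_lit 34132291060),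 (nat_lit 34911369576)], (nat_lit 1271251), (nat_lit 1271251), (nat_lit 1271251), (nat_lit 1271251), (nat_lit 54688), (nat_lit 1100000), [(nat_lit 490000), (nat_lit 1427501), (nat_lit 1271251)], [(nat_lit 6), (nat_lit 56), (nat_lit 373), (nat_lit 150), (nat_lit 9)]⟩,
 ⟨⟨[(nat_lit 140), (nat_lit 180), (nat_lit 200)], [(nat_lit 0), (nat_lit 0), (nat_lit 2835)], [((nat_lit 0), (nat_lit 0), (nat_lit 0)), ((nat_lit 0), (nat_lit 0), (nat_lit 0)), ((nat_lit 363), (nat_lit 1000), (nat_lit 798))], ((nat_lit 0), (nat_lit 0), (nat_lit 0))⟩, (nat_lit 9905), (nat_lit 300), (nat_lit 1084), (nat_lit 2811600), (nat_lit 1319667), [(nat_lit 354312000), (nat_lit 506088000), (nat_lit 590400000)], [], [(nat_lit 2497919191), (nat_lit 2422145277), (nat_lit 2391514186), (nat_lit 2374731300), (nat_lit 2086313040), (nat_lit 2010702240), (nat_lit 2631017135), (nat_lit 2847637166)], (nat_lit 780000), (nat_lit 1100000), (nat_lit 1100000), (nat_lit 2298751), (nat_lit 54688),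 (nat_lit 1100000), [(nat_lit 1977501), (nat_lit 1271251), (nat_lit 1271251)], [(nat_lit 32), (nat_lit 67), (nat_lit 401), (nat_lit 175), (nat_lit 9)]⟩⟩)) (.spl (nat_lit 4) (nat_lit 120) (.spl (nat_lit 0) (nat_lit 355) (.ord (.spl (nat_lit 6) (nat_lit 156) (.leaf ⟨(nat_lit 0), (nat_lit 951), (nat_lit 0), (nat_lit 49), (nat_lit 27574), (nat_lit 4585), (nat_lit 7705), (nat_lit 591), (nat_lit 891417739794), (nat_lit 0), (nat_lit 0), [], Pd.none, Pd.none, (nat_lit 0), (nat_lit 1), (nat_lit 0), (nat_lit 0), (nat_lit 4), (nat_lit 0), [], [], [⟨(nat_lit 1), (nat_lit 95), (nat_lit 71), (nat_lit 100), (nat_lit 394808293)⟩], [],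
 ⟨⟨[(nat_lit 40), (nat_lit 100), (nat_lit 160)], [(nat_lit 0), (nat_lit 1790), (nat_lit 5765)], [((nat_lit 0), (nat_lit 0), (nat_lit 0)), ((nat_lit 1000), (nat_lit 720), (nat_lit 465)), ((nat_lit 966), (nat_lit 696), (nat_lit 1000))], ((nat_lit 68), (nat_lit 90), (nat_lit 100))⟩, (nat_lit 1985764), (nat_lit 259), (nat_lit 259), (nat_lit 0), (nat_lit 68240), [(nat_lit 2032000012), (nat_lit 6250000007), (nat_lit 11872000000)], [], [(nat_lit 27472432705), (nat_lit 27730337062), (nat_lit 35484950947), (nat_lit 35795391929), (nat_lit 25369596362), (nat_lit 25590909286), (nat_lit 31689190407), (nat_lit 31977263221)], (nat_lit 1271251), (nat_lit 1271251), (nat_lit 1271251), (nat_lit 1271251), (nat_lit 54688), (nat_lit 780000), [(nat_lit 490000), (nat_lit 1427501), (nat_lit 1271251)], [(nat_lit 6), (nat_lit 56), (nat_lit 373), (nat_lit 150), (nat_lit 9)]⟩,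
 ⟨⟨[(nat_lit 40), (nat_lit 100), (nat_lit 160)], [(nat_lit 0), (nat_lit 1192), (nat_lit 5376)], [((nat_lit 0), (nat_lit 0), (nat_lit 0)), ((nat_lit 1000), (nat_lit 814), (nat_lit 310)), ((nat_lit 919), (nat_lit 747), (nat_lit 1000))], ((nat_lit 73), (nat_lit 86), (nat_lit 100))⟩, (nat_lit 1160425), (nat_lit 180), (nat_lit 180), (nat_lit 0), (nat_lit 80144), [(nat_lit 2032000000), (nat_lit 6250000000), (nat_lit 11872000000)], [], [(nat_lit 27747976508), (nat_lit 28842593892), (nat_lit 35457818295), (nat_lit 36103540603), (nat_lit 31446746675), (nat_lit 32211517845), (nat_lit 37872361825), (nat_lit 38621479799)], (nat_lit 1271251), (nat_lit 1271251), (nat_lit 1271251), (nat_lit 1271251), (nat_lit 1100000), (nat_lit 2470001), [(nat_lit 490000), (nat_lit 1427501), (nat_lit 1271251)], [(nat_lit 6), (nat_lit 56), (nat_lit 428), (nat_lit 200), (nat_lit 10)]⟩,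
 ⟨⟨[(nat_lit 140), (nat_lit 180), (nat_lit 200)], [(nat_lit 0), (nat_lit 0), (nat_lit 2835)], [((nat_lit 0), (nat_lit 0), (nat_lit 0)), ((nat_lit 0), (nat_lit 0), (nat_lit 0)), ((nat_lit 363), (nat_lit 1000), (nat_lit 798))], ((nat_lit 0), (nat_lit 0), (nat_lit 0))⟩, (nat_lit 0), (nat_lit 300), (nat_lit 694), (nat_lit 4018000), (nat_lit 467271), [(nat_lit 482258000), (nat_lit 688842000), (nat_lit 803600000)], [], [(nat_lit 3555328529), (nat_lit 3459386344), (nat_lit 3130065015), (nat_lit 3038765622), (nat_lit 3419333777), (nat_lit 3330763555), (nat_lit 3403815406), (nat_lit 3680648796)], (nat_lit 780000), (nat_lit 1100000), (nat_lit 54688), (nat_lit 780000), (nat_lit 1100000), (nat_lit 2470001), [(nat_lit 1977501), (nat_lit 1271251), (nat_lit 1271251)], [(nat_lit 32), (nat_lit 67), (nat_lit 373), (nat_lit 150), (nat_lit 8)]⟩⟩) (.dle (nat_lit 0)))) (.trZ (nat_lit 0) (nat_lit 2) (nat_lit 4) (nat_lit 100) (nat_lit 69) (nat_lit 50) (nat_lit 20) (.leaf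 ⟨(nat_lit 0), (nat_lit 910), (nat_lit 0), (nat_lit 90), (nat_lit 25025), (nat_lit 4397), (nat_lit 7515), (nat_lit 1205), (nat_lit 694904970299), (nat_lit 0), (nat_lit 0), [], Pd.none, Pd.none, (nat_lit 0), (nat_lit 1), (nat_lit 0), (nat_lit 0), (nat_lit 4), (nat_lit 0), [], [], [⟨(nat_lit 1), (nat_lit 96), (nat_lit 69), (nat_lit 100), (nat_lit 341847715)⟩], [],
 ⟨⟨[(nat_lit 40), (nat_lit 100), (nat_lit 160)], [(nat_lit 0), (nat_lit 2098), (nat_lit 5951)], [((nat_lit 0), (nat_lit 0), (nat_lit 0)), ((nat_lit 1000), (nat_lit 672), (nat_lit 546)), ((nat_lit 997), (nat_lit 670), (nat_lit 1000))], ((nat_lit 64), (nat_lit 90), (nat_lit 100))⟩, (nat_lit 2029123), (nat_lit 288), (nat_lit 288), (nat_lit 0), (nat_lit 117807), [(nat_lit 2032000007), (nat_lit 6250000010), (nat_lit 11872000000)], [], [(nat_lit 26441626262), (nat_lit 26752425008), (nat_lit 34788717050), (nat_lit 35091810733), (nat_lit 24652824923), (nat_lit 24870368668), (nat_lit 31657312860),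 (nat_lit 31939913487)], (nat_lit 1271251), (nat_lit 1271251), (nat_lit 1271251), (nat_lit 1271251), (nat_lit 111251), (nat_lit 780000), [(nat_lit 490000), (nat_lit 1427501), (nat_lit 1271251)], [(nat_lit 6), (nat_lit 56), (nat_lit 373), (nat_lit 150), (nat_lit 9)]⟩,
 ⟨⟨[(nat_lit 40), (nat_lit 100), (nat_lit 160)], [(nat_lit 0), (nat_lit 1192), (nat_lit 5376)], [((nat_lit 0), (nat_lit 0), (nat_lit 0)), ((nat_lit 1000), (nat_lit 814), (nat_lit 310)), ((nat_lit 919), (nat_lit 747), (nat_lit 1000))], ((nat_lit 73), (nat_lit 85), (nat_lit 100))⟩, (nat_lit 1187374), (nat_lit 198), (nat_lit 198), (nat_lit 0), (nat_lit 140002), [(nat_lit 2032000000), (nat_lit 6250000000), (nat_lit 11872000000)], [], [(nat_lit 27693733149), (nat_lit 29131689534), (nat_lit 35331074261), (nat_lit 36182868826), (nat_lit 31392723051), (nat_lit 32399951379), (nat_lit 37634697475), (nat_lit 38621936570)], (nat_lit 1271251), (nat_lit 1271251), (nat_lit 1271251), (nat_lit 1271251),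 (nat_lit 1100000), (nat_lit 2470001), [(nat_lit 490000), (nat_lit 1427501), (nat_lit 1271251)], [(nat_lit 6), (nat_lit 56), (nat_lit 428), (nat_lit 200), (nat_lit 10)]⟩,
 ⟨⟨[(nat_lit 140), (nat_lit 180), (nat_lit 200)], [(nat_lit 0), (nat_lit 0), (nat_lit 2835)], [((nat_lit 0), (nat_lit 0), (nat_lit 0)), ((nat_lit 0), (nat_lit 0), (nat_lit 0)), ((nat_lit 363), (nat_lit 1000), (nat_lit 798))], ((nat_lit 0), (nat_lit 0), (nat_lit 0))⟩, (nat_lit 0), (nat_lit 300), (nat_lit 858), (nat_lit 7380000), (nat_lit 830034), [(nat_lit 885780000), (nat_lit 1265220000), (nat_lit 1476000000)], [], [(nat_lit 6307902385), (nat_lit 6109834770), (nat_lit 5542598910), (nat_lit 5342585220), (nat_lit 6007718520), (nat_lit 6325791210), (nat_lit 6447682470), (nat_lit 6999441920)], (nat_lit 780000), (nat_lit 1100000), (nat_lit 111251), (nat_lit 780000), (nat_lit 1100000), (nat_lit 2470001), [(nat_lit 1977501), (nat_lit 1271251), (nat_lit 1271251)], [(nat_lit 32), (nat_lit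 67), (nat_lit 373), (nat_lit 150), (nat_lit 8)]⟩⟩))) (.spl (nat_lit 5) (nat_lit 240) (.leaf ⟨(nat_lit 0), (nat_lit 878), (nat_lit 0), (nat_lit 122), (nat_lit 0), (nat_lit 9101), (nat_lit 11994), (nat_lit 1430), (nat_lit 4688081265725), (nat_lit 0), (nat_lit 0), [], Pd.none, Pd.none, (nat_lit 0), (nat_lit 1), (nat_lit 0), (nat_lit 0), (nat_lit 4), (nat_lit 0), [], [⟨(nat_lit 1), (nat_lit 97), (nat_lit 66), (nat_lit 100), (nat_lit 160069733)⟩], [], [],
 ⟨⟨[(nat_lit 40), (nat_lit 100), (nat_lit 160)], [(nat_lit 0), (nat_lit 1790), (nat_lit 5765)], [((nat_lit 0), (nat_lit 0), (nat_lit 0)), ((nat_lit 1000), (nat_lit 720), (nat_lit 465)), ((nat_lit 966), (nat_lit 696), (nat_lit 1000))], ((nat_lit 68), (nat_lit 89), (nat_lit 100))⟩, (nat_lit 676128), (nat_lit 214), (nat_lit 214), (nat_lit 0), (nat_lit 137776), [(nat_lit 3172458905), (nat_lit 9518252782), (nat_lit 11872000000)], [], [(nat_lit 31160495482), (nat_lit 32018789334), (nat_lit 39590851031),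 (nat_lit 40082518282), (nat_lit 33010554586), (nat_lit 33599323775), (nat_lit 39581625929), (nat_lit 40157276239)], (nat_lit 1271251), (nat_lit 1271251), (nat_lit 1271251), (nat_lit 1271251), (nat_lit 780000), (nat_lit 2253751), [(nat_lit 490000), (nat_lit 1427501), (nat_lit 1271251)], [(nat_lit 6), (nat_lit 56), (nat_lit 401), (nat_lit 175), (nat_lit 9)]⟩,
 ⟨⟨[(nat_lit 40), (nat_lit 100), (nat_lit 160)], [(nat_lit 0), (nat_lit 1192), (nat_lit 5376)], [((nat_lit 0), (nat_lit 0), (nat_lit 0)), ((nat_lit 1000), (nat_lit 814), (nat_lit 310)), ((nat_lit 919), (nat_lit 747), (nat_lit 1000))], ((nat_lit 73), (nat_lit 85), (nat_lit 100))⟩, (nat_lit 0), (nat_lit 198), (nat_lit 198), (nat_lit 0), (nat_lit 140002), [(nat_lit 2032000000), (nat_lit 6250000000), (nat_lit 11872000000)], [], [(nat_lit 31940467516), (nat_lit 33886046887), (nat_lit 41286916646), (nat_lit 42799783360), (nat_lit 32566723913), (nat_lit 34205321123), (nat_lit 40632501126), (nat_lit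 42235724948)], (nat_lit 1271251), (nat_lit 1271251), (nat_lit 1271251), (nat_lit 1271251), (nat_lit 1100000), (nat_lit 1785001), [(nat_lit 490000), (nat_lit 1427501), (nat_lit 1271251)], [(nat_lit 6), (nat_lit 56), (nat_lit 401), (nat_lit 175), (nat_lit 9)]⟩,
 ⟨⟨[(nat_lit 140), (nat_lit 180), (nat_lit 200)], [(nat_lit 0), (nat_lit 0), (nat_lit 2835)], [((nat_lit 0), (nat_lit 0), (nat_lit 0)), ((nat_lit 0), (nat_lit 0), (nat_lit 0)), ((nat_lit 363), (nat_lit 1000), (nat_lit 798))], ((nat_lit 0), (nat_lit 0), (nat_lit 0))⟩, (nat_lit 33566), (nat_lit 300), (nat_lit 1006), (nat_lit 9528202), (nat_lit 1319667), [(nat_lit 1200724000), (nat_lit 1715076000), (nat_lit 2000800000)], [], [(nat_lit 7891696952), (nat_lit 7658579624), (nat_lit 7124024308), (nat_lit 6890545464), (nat_lit 7530734324), (nat_lit 7297477812), (nat_lit 6776950824), (nat_lit 6545167044)], (nat_lit 780000), (nat_lit 1100000), (nat_lit 780000), (nat_lit 2253751), (nat_lit 1100000),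 (nat_lit 1785001), [(nat_lit 1977501), (nat_lit 1271251), (nat_lit 1271251)], [(nat_lit 32), (nat_lit 67), (nat_lit 401), (nat_lit 175), (nat_lit 9)]⟩⟩) (.spl (nat_lit 0) (nat_lit 355) (.ord (.spl (nat_lit 6) (nat_lit 156) (.leaf ⟨(nat_lit 0), (nat_lit 677), (nat_lit 0), (nat_lit 323), (nat_lit 0), (nat_lit 4116), (nat_lit 12512), (nat_lit 3638), (nat_lit 994522950185), (nat_lit 0), (nat_lit 0), [], Pd.none, Pd.none, (nat_lit 0), (nat_lit 1), (nat_lit 0), (nat_lit 0), (nat_lit 6), (nat_lit 0), [], [⟨(nat_lit 1), (nat_lit 97), (nat_lit 68), (nat_lit 100), (nat_lit 619714)⟩], [⟨(nat_lit 1), (nat_lit 95), (nat_lit 71), (nat_lit 100), (nat_lit 234265356)⟩], [],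
 ⟨⟨[(nat_lit 40), (nat_lit 100), (nat_lit 160)], [(nat_lit 0), (nat_lit 1790), (nat_lit 5765)], [((nat_lit 0), (nat_lit 0), (nat_lit 0)), ((nat_lit 1000), (nat_lit 720), (nat_lit 465)), ((nat_lit 966), (nat_lit 696), (nat_lit 1000))], ((nat_lit 68), (nat_lit 90), (nat_lit 100))⟩, (nat_lit 1970752), (nat_lit 197), (nat_lit 197), (nat_lit 0), (nat_lit 79414), [(nat_lit 2032000009), (nat_lit 6512454163), (nat_lit 11872000000)], [], [(nat_lit 24873427524), (nat_lit 25135538195), (nat_lit 31316777686), (nat_lit 31496806819), (nat_lit 27870339969), (nat_lit 28075146061), (nat_lit 33244799860), (nat_lit 33448726842)], (nat_lit 1271251), (nat_lit 1271251), (nat_lit 1271251), (nat_lit 1271251), (nat_lit 780000), (nat_lit 2253751), [(nat_lit 490000), (nat_lit 1427501), (nat_lit 1271251)], [(nat_lit 6), (nat_lit 56), (nat_lit 401), (nat_lit 175), (nat_lit 9)]⟩,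
 ⟨⟨[(nat_lit 40), (nat_lit 100), (nat_lit 160)], [(nat_lit 0), (nat_lit 1192), (nat_lit 5376)], [((nat_lit 0), (nat_lit 0), (nat_lit 0)), ((nat_lit 1000), (nat_lit 814), (nat_lit 310)), ((nat_lit 919), (nat_lit 747), (nat_lit 1000))], ((nat_lit 73), (nat_lit 86), (nat_lit 100))⟩, (nat_lit 0), (nat_lit 162), (nat_lit 162), (nat_lit 0), (nat_lit 80144), [(nat_lit 2032000000), (nat_lit 6250000000), (nat_lit 11872000000)], [], [(nat_lit 32269680050), (nat_lit 33533854516), (nat_lit 41252795248), (nat_lit 42488765140), (nat_lit 35386580215), (nat_lit 36387904456), (nat_lit 43885269880), (nat_lit 44854210762)], (nat_lit 1271251), (nat_lit 1271251), (nat_lit 1271251), (nat_lit 1271251), (nat_lit 1271251), (nat_lit 1271251), [(nat_lit 490000), (nat_lit 1427501), (nat_lit 1271251)], [(nat_lit 6), (nat_lit 56), (nat_lit 428), (nat_lit 200), (nat_lit 10)]⟩,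
 ⟨⟨[(nat_lit 140), (nat_lit 180), (nat_lit 200)], [(nat_lit 0), (nat_lit 0), (nat_lit 2835)], [((nat_lit 0), (nat_lit 0), (nat_lit 0)), ((nat_lit 0), (nat_lit 0), (nat_lit 0)), ((nat_lit 363), (nat_lit 1000), (nat_lit 798))], ((nat_lit 0), (nat_lit 0), (nat_lit 0))⟩, (nat_lit 88868), (nat_lit 300), (nat_lit 692), (nat_lit 25226300), (nat_lit 743214), [(nat_lit 3178966000), (nat_lit 4540734000), (nat_lit 5297200000)], [], [(nat_lit 19750097660), (nat_lit 19191458708), (nat_lit 18116935889), (nat_lit 17543628040), (nat_lit 19483674754), (nat_lit 18904428005), (nat_lit 17812577543), (nat_lit 17220200643)], (nat_lit 780000), (nat_lit 1100000), (nat_lit 780000), (nat_lit 2253751), (nat_lit 1271251), (nat_lit 1271251), [(nat_lit 1977501), (nat_lit 1271251), (nat_lit 1271251)], [(nat_lit 32), (nat_lit 67), (nat_lit 428), (nat_lit 200), (nat_lit 9)]⟩⟩) (.dle (nat_lit 0)))) (.leaf ⟨(nat_lit 0), (nat_lit 810), (nat_lit 0), (nat_lit 190), (nat_lit 85), (nat_lit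 4062), (nat_lit 12477), (nat_lit 2309), (nat_lit 121689), (nat_lit 0), (nat_lit 0), [], Pd.none, Pd.none, (nat_lit 0), (nat_lit 1), (nat_lit 0), (nat_lit 0), (nat_lit 6), (nat_lit 0), [], [⟨(nat_lit 1), (nat_lit 98), (nat_lit 65), (nat_lit 100), (nat_lit 159004582)⟩], [⟨(nat_lit 1), (nat_lit 96), (nat_lit 69), (nat_lit 100), (nat_lit 369652564)⟩], [],
 ⟨⟨[(nat_lit 40), (nat_lit 100), (nat_lit 160)], [(nat_lit 0), (nat_lit 2098), (nat_lit 5951)], [((nat_lit 0), (nat_lit 0), (nat_lit 0)), ((nat_lit 1000), (nat_lit 672), (nat_lit 546)), ((nat_lit 997), (nat_lit 670), (nat_lit 1000))], ((nat_lit 64), (nat_lit 90), (nat_lit 100))⟩, (nat_lit 1960785), (nat_lit 214), (nat_lit 214), (nat_lit 0), (nat_lit 137109), [(nat_lit 2032000617), (nat_lit 6679474960), (nat_lit 11872000000)], [], [(nat_lit 24880468921), (nat_lit 25140829901), (nat_lit 31180067283), (nat_lit 31360038202), (nat_lit 27792096510), (nat_lit 27995932243), (nat_lit 33379174363), (nat_lit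 33582192518)], (nat_lit 1271251), (nat_lit 1271251), (nat_lit 1271251), (nat_lit 1271251), (nat_lit 780000), (nat_lit 2253751), [(nat_lit 490000), (nat_lit 1427501), (nat_lit 1271251)], [(nat_lit 6), (nat_lit 56), (nat_lit 401), (nat_lit 175), (nat_lit 9)]⟩,
 ⟨⟨[(nat_lit 40), (nat_lit 100), (nat_lit 160)], [(nat_lit 0), (nat_lit 1192), (nat_lit 5376)], [((nat_lit 0), (nat_lit 0), (nat_lit 0)), ((nat_lit 1000), (nat_lit 814), (nat_lit 310)), ((nat_lit 919), (nat_lit 747), (nat_lit 1000))], ((nat_lit 73), (nat_lit 85), (nat_lit 100))⟩, (nat_lit 0), (nat_lit 180), (nat_lit 180), (nat_lit 0), (nat_lit 140002), [(nat_lit 2032000000), (nat_lit 6250000000), (nat_lit 11872000000)], [], [(nat_lit 32289750582), (nat_lit 33972142972), (nat_lit 41210883483), (nat_lit 42855820634), (nat_lit 35403316515), (nat_lit 36736119030), (nat_lit 43841489605), (nat_lit 45131276726)], (nat_lit 1271251), (nat_lit 1271251), (nat_lit 1271251), (nat_lit 1271251), (nat_lit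 1271251), (nat_lit 1271251), [(nat_lit 490000), (nat_lit 1427501), (nat_lit 1271251)], [(nat_lit 6), (nat_lit 56), (nat_lit 428), (nat_lit 200), (nat_lit 10)]⟩,
 ⟨⟨[(nat_lit 140), (nat_lit 180), (nat_lit 200)], [(nat_lit 0), (nat_lit 0), (nat_lit 2835)], [((nat_lit 0), (nat_lit 0), (nat_lit 0)), ((nat_lit 0), (nat_lit 0), (nat_lit 0)), ((nat_lit 363), (nat_lit 1000), (nat_lit 798))], ((nat_lit 0), (nat_lit 0), (nat_lit 0))⟩, (nat_lit 52275), (nat_lit 300), (nat_lit 958), (nat_lit 14839002), (nat_lit 1319667), [(nat_lit 1869980000), (nat_lit 2671020000), (nat_lit 3116000000)], [], [(nat_lit 11395175198), (nat_lit 11018377080), (nat_lit 10182739302), (nat_lit 9810452228), (nat_lit 11099461260), (nat_lit 10714308764), (nat_lit 9970051392), (nat_lit 9586341330)], (nat_lit 780000), (nat_lit 1100000), (nat_lit 780000), (nat_lit 2253751), (nat_lit 1271251), (nat_lit 1271251), [(nat_lit 1977501), (nat_lit 1271251), (nat_lit 1271251)], [(nat_lit 32), (nat_lit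 67), (nat_lit 428), (nat_lit 200), (nat_lit 9)]⟩⟩)))))
noncomputable def c9_27 : Tr Lf :=
 (.trZ (nat_lit 0) (nat_lit 2) (nat_lit 4) (nat_lit 100) (nat_lit 68) (nat_lit 61) (nat_lit 40) (.trZ (nat_lit 1) (nat_lit 2) (nat_lit 5) (nat_lit 100) (nat_lit 73) (nat_lit 55) (nat_lit 30) (.spl (nat_lit 6) (nat_lit 132) (.leaf ⟨(nat_lit 0), (nat_lit 774), (nat_lit 0), (nat_lit 226), (nat_lit 2356), (nat_lit 5522), (nat_lit 5569), (nat_lit 1767), (nat_lit 18181), (nat_lit 0), (nat_lit 0), [], Pd.none, Pd.none, (nat_lit 0), (nat_lit 1), (nat_lit 0), (nat_lit 0), (nat_lit 4), (nat_lit 0), [⟨(nat_lit 0), (nat_lit 63), (nat_lit 63), (nat_lit 100), (nat_lit 10286005)⟩], [], [], [],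
 ⟨⟨[(nat_lit 40), (nat_lit 100), (nat_lit 140)], [(nat_lit 0), (nat_lit 1790), (nat_lit 4440)], [((nat_lit 0), (nat_lit 0), (nat_lit 0)), ((nat_lit 1000), (nat_lit 720), (nat_lit 465)), ((nat_lit 969), (nat_lit 697), (nat_lit 1000))], ((nat_lit 70), (nat_lit 99), (nat_lit 100))⟩, (nat_lit 1426627), (nat_lit 290), (nat_lit 290), (nat_lit 0), (nat_lit 211755), [(nat_lit 2129582553), (nat_lit 6250000002), (nat_lit 9842000000)], [], [(nat_lit 28147855334), (nat_lit 28755950314), (nat_lit 36325708683), (nat_lit 36998097378), (nat_lit 29554665465), (nat_lit 29977435614), (nat_lit 35574583483), (nat_lit 36007443436)], (nat_lit 1271251), (nat_lit 1271251), (nat_lit 1271251), (nat_lit 1271251), (nat_lit 230000), (nat_lit 2312501), [(nat_lit 490000), (nat_lit 1427501), (nat_lit 1271251)], [(nat_lit 5), (nat_lit 55), (nat_lit 428), (nat_lit 200), (nat_lit 12)]⟩,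
 ⟨⟨[(nat_lit 40), (nat_lit 100), (nat_lit 160)], [(nat_lit 0), (nat_lit 1192), (nat_lit 5376)], [((nat_lit 0), (nat_lit 0), (nat_lit 0)), ((nat_lit 1000), (nat_lit 814), (nat_lit 310)), ((nat_lit 919), (nat_lit 747), (nat_lit 1000))], ((nat_lit 76), (nat_lit 96), (nat_lit 100))⟩, (nat_lit 1921288), (nat_lit 335), (nat_lit 335), (nat_lit 0), (nat_lit 214385), [(nat_lit 2032000000), (nat_lit 6250000000), (nat_lit 11872000000)], [], [(nat_lit 27948016361), (nat_lit 29063757476), (nat_lit 36381561685), (nat_lit 37738200192), (nat_lit 28794718627), (nat_lit 29651469814), (nat_lit 35611116767), (nat_lit 36456012167)], (nat_lit 1271251), (nat_lit 1271251), (nat_lit 1271251), (nat_lit 1271251), (nat_lit 169688), (nat_lit 2372813), [(nat_lit 490000), (nat_lit 1427501), (nat_lit 1271251)], [(nat_lit 6), (nat_lit 56), (nat_lit 428), (nat_lit 200), (nat_lit 10)]⟩,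
 ⟨⟨[(nat_lit 120), (nat_lit 160), (nat_lit 200)], [(nat_lit 0), (nat_lit 0), (nat_lit 3198)], [((nat_lit 0), (nat_lit 0), (nat_lit 0)), ((nat_lit 0), (nat_lit 0), (nat_lit 0)), ((nat_lit 572), (nat_lit 1000), (nat_lit 714))], ((nat_lit 0), (nat_lit 0), (nat_lit 0))⟩, (nat_lit 110244), (nat_lit 300), (nat_lit 1048), (nat_lit 16769200), (nat_lit 1142877), [(nat_lit 1800768000), (nat_lit 2683072000), (nat_lit 3706400000)], [], [(nat_lit 20159915632), (nat_lit 20061947785), (nat_lit 18502547066), (nat_lit 18401535445), (nat_lit 18381115876), (nat_lit 18279896249), (nat_lit 16722782654), (nat_lit 16619916835)], (nat_lit 1100000), (nat_lit 1271251), (nat_lit 230000), (nat_lit 2312501), (nat_lit 169688), (nat_lit 2372813), [(nat_lit 1695001), (nat_lit 1271251), (nat_lit 1271251)], [(nat_lit 29), (nat_lit 66), (nat_lit 456), (nat_lit 225), (nat_lit 10)]⟩⟩) (.dle (nat_lit 0)))))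
noncomputable def c9_28 : Tr Lf :=
 (.trZ (nat_lit 0) (nat_lit 2) (nat_lit 4) (nat_lit 100) (nat_lit 72) (nat_lit 63) (nat_lit 40) (.trZ (nat_lit 1) (nat_lit 2) (nat_lit 5) (nat_lit 100) (nat_lit 80) (nat_lit 52) (nat_lit 20) (.spl (nat_lit 6) (nat_lit 120) (.spl (nat_lit 5) (nat_lit 120) (.spl (nat_lit 0) (nat_lit 350) (.ord (.spl (nat_lit 6) (nat_lit 100) (.leaf ⟨(nat_lit 0), (nat_lit 748), (nat_lit 0), (nat_lit 252), (nat_lit 17072), (nat_lit 7896), (nat_lit 7826), (nat_lit 3037), (nat_lit 12945626726123), (nat_lit 0), (nat_lit 0), [], Pd.none, Pd.none, (nat_lit 0), (nat_lit 1), (nat_lit 0), (nat_lit 0), (nat_lit 4), (nat_lit 0), [], [], [⟨(nat_lit 0), (nat_lit 100), (nat_lit 74), (nat_lit 71), (nat_lit 307974667)⟩], [],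
 ⟨⟨[(nat_lit 40), (nat_lit 100), (nat_lit 140)], [(nat_lit 0), (nat_lit 1192), (nat_lit 4003)], [((nat_lit 0), (nat_lit 0), (nat_lit 0)), ((nat_lit 1000), (nat_lit 814), (nat_lit 310)), ((nat_lit 992), (nat_lit 771), (nat_lit 1000))], ((nat_lit 74), (nat_lit 100), (nat_lit 90))⟩, (nat_lit 598337), (nat_lit 212), (nat_lit 212), (nat_lit 0), (nat_lit 53099), [(nat_lit 2032000026), (nat_lit 6250000034), (nat_lit 9842000000)], [], [(nat_lit 29904121835), (nat_lit 30722723863), (nat_lit 41335568516), (nat_lit 42158605910), (nat_lit 34263723100), (nat_lit 34805051426), (nat_lit 46748746635), (nat_lit 45123747368)], (nat_lit 1271251), (nat_lit 1271251), (nat_lit 1100000), (nat_lit 3155001), (nat_lit 230000), (nat_lit 2684376), [(nat_lit 490000), (nat_lit 1427501), (nat_lit 1271251)], [(nat_lit 5), (nat_lit 55), (nat_lit 428), (nat_lit 200), (nat_lit 12)]⟩,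
 ⟨⟨[(nat_lit 40), (nat_lit 100), (nat_lit 140)], [(nat_lit 0), (nat_lit 0), (nat_lit 3243)], [((nat_lit 0), (nat_lit 0), (nat_lit 0)), ((nat_lit 0), (nat_lit 0), (nat_lit 0)), ((nat_lit 1000), (nat_lit 870), (nat_lit 941))], ((nat_lit 87), (nat_lit 100), (nat_lit 94))⟩, (nat_lit 532849), (nat_lit 223), (nat_lit 223), (nat_lit 0), (nat_lit 42507), [(nat_lit 2032000000), (nat_lit 6250000000), (nat_lit 9842000000)], [], [(nat_lit 30841512025), (nat_lit 33322114413), (nat_lit 42154775509), (nat_lit 43827545336), (nat_lit 27165417553), (nat_lit 29401451632), (nat_lit 36766213756), (nat_lit 38301795070)], (nat_lit 1271251), (nat_lit 1271251), (nat_lit 1100000), (nat_lit 3155001), (nat_lit 111251), (nat_lit 780000), [(nat_lit 490000), (nat_lit 1427501), (nat_lit 1271251)], [(nat_lit 5), (nat_lit 55), (nat_lit 373), (nat_lit 150), (nat_lit 10)]⟩,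
 ⟨⟨[(nat_lit 120), (nat_lit 160), (nat_lit 200)], [(nat_lit 0), (nat_lit 533), (nat_lit 3597)], [((nat_lit 0), (nat_lit 0), (nat_lit 0)), ((nat_lit 960), (nat_lit 1000), (nat_lit 200)), ((nat_lit 612), (nat_lit 1000), (nat_lit 732))], ((nat_lit 0), (nat_lit 0), (nat_lit 0))⟩, (nat_lit 134136), (nat_lit 300), (nat_lit 602), (nat_lit 18251565), (nat_lit 133541), [(nat_lit 2007936000), (nat_lit 2991744000), (nat_lit 4132800000)], [], [(nat_lit 18167193134), (nat_lit 17730679520), (nat_lit 15318890932), (nat_lit 14908055779), (nat_lit 16028968963), (nat_lit 15609827566), (nat_lit 16343944815), (nat_lit 12774900678)], (nat_lit 1271251), (nat_lit 1271251), (nat_lit 230000), (nat_lit 2684376), (nat_lit 111251), (nat_lit 780000), [(nat_lit 1695001), (nat_lit 1271251), (nat_lit 1271251)], [(nat_lit 29), (nat_lit 66), (nat_lit 428), (nat_lit 200), (nat_lit 9)]⟩⟩) (.dle (nat_lit 0)))) (.trZ (nat_lit 0) (nat_lit 1) (nat_lit 3) (nat_lit 80) (nat_lit 66) (nat_lit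 100) (nat_lit 180) (.trZ (nat_lit 0) (nat_lit 2) (nat_lit 4) (nat_lit 100) (nat_lit 66) (nat_lit 68) (nat_lit 50) (.trX (nat_lit 4) (nat_lit 0) (nat_lit 2) (nat_lit 68) (nat_lit 61) (nat_lit 100) (nat_lit 360) (.leaf ⟨(nat_lit 0), (nat_lit 745), (nat_lit 0), (nat_lit 255), (nat_lit 13598), (nat_lit 4736), (nat_lit 6494), (nat_lit 2380), (nat_lit 332201), (nat_lit 0), (nat_lit 0), [], Pd.none, Pd.none, (nat_lit 0), (nat_lit 1), (nat_lit 0), (nat_lit 0), (nat_lit 4), (nat_lit 0), [⟨(nat_lit 0), (nat_lit 72), (nat_lit 63), (nat_lit 100), (nat_lit 96052178)⟩], [⟨(nat_lit 1), (nat_lit 74), (nat_lit 63), (nat_lit 100), (nat_lit 509298)⟩], [⟨(nat_lit 0), (nat_lit 100), (nat_lit 72), (nat_lit 74), (nat_lit 361121733)⟩], [],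
 ⟨⟨[(nat_lit 40), (nat_lit 100), (nat_lit 140)], [(nat_lit 0), (nat_lit 1790), (nat_lit 4440)], [((nat_lit 0), (nat_lit 0), (nat_lit 0)), ((nat_lit 1000), (nat_lit 720), (nat_lit 465)), ((nat_lit 969), (nat_lit 697), (nat_lit 1000))], ((nat_lit 69), (nat_lit 100), (nat_lit 96))⟩, (nat_lit 1851643), (nat_lit 239), (nat_lit 239), (nat_lit 0), (nat_lit 165509), [(nat_lit 2155351495), (nat_lit 6250000072), (nat_lit 9842000000)], [], [(nat_lit 25415274004), (nat_lit 26003338438), (nat_lit 33887179446), (nat_lit 34506993716), (nat_lit 29425320986), (nat_lit 29828516524), (nat_lit 36077748292), (nat_lit 36444884800)], (nat_lit 1271251), (nat_lit 1271251), (nat_lit 1271251), (nat_lit 1271251), (nat_lit 292188), (nat_lit 2626875), [(nat_lit 490000), (nat_lit 1427501), (nat_lit 1271251)], [(nat_lit 5), (nat_lit 55), (nat_lit 428), (nat_lit 200), (nat_lit 12)]⟩,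
 ⟨⟨[(nat_lit 40), (nat_lit 100), (nat_lit 160)], [(nat_lit 0), (nat_lit 0), (nat_lit 4607)], [((nat_lit 0), (nat_lit 0), (nat_lit 0)), ((nat_lit 0), (nat_lit 0), (nat_lit 0)), ((nat_lit 846), (nat_lit 837), (nat_lit 1000))], ((nat_lit 87), (nat_lit 95), (nat_lit 100))⟩, (nat_lit 2003615), (nat_lit 322), (nat_lit 322), (nat_lit 0), (nat_lit 137525), [(nat_lit 2032000000), (nat_lit 6250000000), (nat_lit 11872000000)], [], [(nat_lit 29290890061), (nat_lit 31861327259), (nat_lit 38015426118), (nat_lit 40939132715), (nat_lit 26277113903), (nat_lit 28609731265), (nat_lit 34529891296), (nat_lit 36307492504)], (nat_lit 1271251), (nat_lit 1271251), (nat_lit 1271251), (nat_lit 1271251), (nat_lit 111251), (nat_lit 780000), [(nat_lit 490000), (nat_lit 1427501), (nat_lit 1271251)], [(nat_lit 6), (nat_lit 56), (nat_lit 373), (nat_lit 150), (nat_lit 9)]⟩,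
 ⟨⟨[(nat_lit 120), (nat_lit 160), (nat_lit 200)], [(nat_lit 0), (nat_lit 533), (nat_lit 3597)], [((nat_lit 0), (nat_lit 0), (nat_lit 0)), ((nat_lit 960), (nat_lit 1000), (nat_lit 200)), ((nat_lit 612), (nat_lit 1000), (nat_lit 732))], ((nat_lit 0), (nat_lit 0), (nat_lit 0))⟩, (nat_lit 135733), (nat_lit 300), (nat_lit 710), (nat_lit 18468842), (nat_lit 439723), [(nat_lit 2031840000), (nat_lit 3027360000), (nat_lit 4182000000)], [], [(nat_lit 18672096118), (nat_lit 18355428460), (nat_lit 16783263108), (nat_lit 16416113833), (nat_lit 17182369278), (nat_lit 16874918125), (nat_lit 15423846955), (nat_lit 14980047666)], (nat_lit 1271251), (nat_lit 1271251), (nat_lit 292188), (nat_lit 2626875), (nat_lit 111251), (nat_lit 780000), [(nat_lit 1695001), (nat_lit 1271251), (nat_lit 1271251)], [(nat_lit 29), (nat_lit 66), (nat_lit 428), (nat_lit 200), (nat_lit 9)]⟩⟩))))) (.spl (nat_lit 0) (nat_lit 350) (.ord (.spl (nat_lit 6) (nat_lit 100) (.leaf ⟨(nat_lit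 0), (nat_lit 533), (nat_lit 0), (nat_lit 467), (nat_lit 19970), (nat_lit 6294), (nat_lit 6360), (nat_lit 1503), (nat_lit 14148157859512), (nat_lit 0), (nat_lit 0), [], Pd.none, Pd.none, (nat_lit 0), (nat_lit 1), (nat_lit 0), (nat_lit 0), (nat_lit 4), (nat_lit 0), [⟨(nat_lit 0), (nat_lit 67), (nat_lit 67), (nat_lit 100), (nat_lit 33982770)⟩], [], [], [],
 ⟨⟨[(nat_lit 40), (nat_lit 100), (nat_lit 140)], [(nat_lit 0), (nat_lit 1192), (nat_lit 4003)], [((nat_lit 0), (nat_lit 0), (nat_lit 0)), ((nat_lit 1000), (nat_lit 814), (nat_lit 310)), ((nat_lit 992), (nat_lit 771), (nat_lit 1000))], ((nat_lit 74), (nat_lit 100), (nat_lit 90))⟩, (nat_lit 2021815), (nat_lit 212), (nat_lit 212), (nat_lit 0), (nat_lit 53099), [(nat_lit 2032000091), (nat_lit 6250000061), (nat_lit 9842000000)], [], [(nat_lit 25827572850), (nat_lit 24863052115), (nat_lit 37501127849), (nat_lit 38222505928), (nat_lit 30729883575), (nat_lit 31445058643), (nat_lit 44850005087), (nat_lit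 43554697920)], (nat_lit 1271251), (nat_lit 1271251), (nat_lit 1100000), (nat_lit 3155001), (nat_lit 230000), (nat_lit 2684376), [(nat_lit 490000), (nat_lit 1427501), (nat_lit 1271251)], [(nat_lit 5), (nat_lit 55), (nat_lit 428), (nat_lit 200), (nat_lit 12)]⟩,
 ⟨⟨[(nat_lit 40), (nat_lit 100), (nat_lit 140)], [(nat_lit 0), (nat_lit 0), (nat_lit 3243)], [((nat_lit 0), (nat_lit 0), (nat_lit 0)), ((nat_lit 0), (nat_lit 0), (nat_lit 0)), ((nat_lit 1000), (nat_lit 870), (nat_lit 941))], ((nat_lit 87), (nat_lit 100), (nat_lit 94))⟩, (nat_lit 943549), (nat_lit 166), (nat_lit 166), (nat_lit 0), (nat_lit 53589), [(nat_lit 2032000000), (nat_lit 6250000000), (nat_lit 9842000000)], [], [(nat_lit 24850964913), (nat_lit 27372705963), (nat_lit 35389327473), (nat_lit 36783463383), (nat_lit 34140224253), (nat_lit 35509815491), (nat_lit 38829969353), (nat_lit 39581162911)], (nat_lit 1271251), (nat_lit 1271251), (nat_lit 1271251), (nat_lit 1271251), (nat_lit 780000),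 (nat_lit 2990626), [(nat_lit 490000), (nat_lit 1427501), (nat_lit 1271251)], [(nat_lit 5), (nat_lit 55), (nat_lit 428), (nat_lit 200), (nat_lit 12)]⟩,
 ⟨⟨[(nat_lit 120), (nat_lit 160), (nat_lit 200)], [(nat_lit 0), (nat_lit 533), (nat_lit 3597)], [((nat_lit 0), (nat_lit 0), (nat_lit 0)), ((nat_lit 960), (nat_lit 1000), (nat_lit 200)), ((nat_lit 612), (nat_lit 1000), (nat_lit 732))], ((nat_lit 0), (nat_lit 0), (nat_lit 0))⟩, (nat_lit 248578), (nat_lit 300), (nat_lit 501), (nat_lit 33823325), (nat_lit 211630), [(nat_lit 3721056000), (nat_lit 5544224000), (nat_lit 7658800000)], [], [(nat_lit 30794642618), (nat_lit 31041200267), (nat_lit 31699028738), (nat_lit 31806197016), (nat_lit 32325555416), (nat_lit 32421051531), (nat_lit 32535845807), (nat_lit 32547363904)], (nat_lit 1271251), (nat_lit 1271251), (nat_lit 230000), (nat_lit 2684376), (nat_lit 780000), (nat_lit 2990626), [(nat_lit 1695001), (nat_lit 1271251), (nat_lit 1271251)], [(nat_lit 29),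 (nat_lit 66), (nat_lit 483), (nat_lit 250), (nat_lit 10)]⟩⟩) (.dle (nat_lit 0)))) (.trZ (nat_lit 0) (nat_lit 1) (nat_lit 3) (nat_lit 80) (nat_lit 66) (nat_lit 100) (nat_lit 180) (.trZ (nat_lit 0) (nat_lit 2) (nat_lit 4) (nat_lit 100) (nat_lit 66) (nat_lit 68) (nat_lit 50) (.trX (nat_lit 4) (nat_lit 0) (nat_lit 2) (nat_lit 68) (nat_lit 61) (nat_lit 100) (nat_lit 360) (.leaf ⟨(nat_lit 0), (nat_lit 581), (nat_lit 0), (nat_lit 419), (nat_lit 3899), (nat_lit 4511), (nat_lit 8126), (nat_lit 2218), (nat_lit 4726), (nat_lit 0), (nat_lit 0), [], Pd.none, Pd.none, (nat_lit 0), (nat_lit 1), (nat_lit 0), (nat_lit 0), (nat_lit 4), (nat_lit 0), [⟨(nat_lit 0), (nat_lit 72), (nat_lit 63), (nat_lit 100), (nat_lit 122864263)⟩], [], [], [],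
 ⟨⟨[(nat_lit 40), (nat_lit 100), (nat_lit 140)], [(nat_lit 0), (nat_lit 1790), (nat_lit 4440)], [((nat_lit 0), (nat_lit 0), (nat_lit 0)), ((nat_lit 1000), (nat_lit 720), (nat_lit 465)), ((nat_lit 969), (nat_lit 697), (nat_lit 1000))], ((nat_lit 69), (nat_lit 100), (nat_lit 96))⟩, (nat_lit 2038436), (nat_lit 239), (nat_lit 239), (nat_lit 0), (nat_lit 165509), [(nat_lit 2032000001), (nat_lit 6250000001), (nat_lit 9842000000)], [], [(nat_lit 24524588646), (nat_lit 25065662451), (nat_lit 33364435526), (nat_lit 33970039710), (nat_lit 29104192337), (nat_lit 29564302624), (nat_lit 35766559905), (nat_lit 36128354800)], (nat_lit 1271251), (nat_lit 1271251), (nat_lit 1271251), (nat_lit 1271251), (nat_lit 292188), (nat_lit 2626875), [(nat_lit 490000), (nat_lit 1427501), (nat_lit 1271251)], [(nat_lit 5), (nat_lit 55), (nat_lit 428), (nat_lit 200), (nat_lit 12)]⟩,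
 ⟨⟨[(nat_lit 40), (nat_lit 100), (nat_lit 160)], [(nat_lit 0), (nat_lit 0), (nat_lit 4607)], [((nat_lit 0), (nat_lit 0), (nat_lit 0)), ((nat_lit 0), (nat_lit 0), (nat_lit 0)), ((nat_lit 846), (nat_lit 837), (nat_lit 1000))], ((nat_lit 87), (nat_lit 95), (nat_lit 100))⟩, (nat_lit 1235228), (nat_lit 225), (nat_lit 225), (nat_lit 0), (nat_lit 173325), [(nat_lit 2032000000), (nat_lit 6250000000), (nat_lit 11872000000)], [], [(nat_lit 27323184236), (nat_lit 29966497270), (nat_lit 36241718752), (nat_lit 38394704346), (nat_lit 34469344169), (nat_lit 36300764899), (nat_lit 40960209985), (nat_lit 42556787209)], (nat_lit 1271251), (nat_lit 1271251), (nat_lit 1271251), (nat_lit 1271251), (nat_lit 780000), (nat_lit 2990626), [(nat_lit 490000), (nat_lit 1427501), (nat_lit 1271251)], [(nat_lit 6), (nat_lit 56), (nat_lit 428), (nat_lit 200), (nat_lit 10)]⟩,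
 ⟨⟨[(nat_lit 120), (nat_lit 160), (nat_lit 200)], [(nat_lit 0), (nat_lit 533), (nat_lit 3597)], [((nat_lit 0), (nat_lit 0), (nat_lit 0)), ((nat_lit 960), (nat_lit 1000), (nat_lit 200)), ((nat_lit 612), (nat_lit 1000), (nat_lit 732))], ((nat_lit 0), (nat_lit 0), (nat_lit 0))⟩, (nat_lit 223028), (nat_lit 300), (nat_lit 738), (nat_lit 30346842), (nat_lit 697578), [(nat_lit 3338592000), (nat_lit 4974368000), (nat_lit 6871600000)], [], [(nat_lit 33053864434), (nat_lit 32919942073), (nat_lit 32103696864), (nat_lit 31893295789), (nat_lit 32915991076), (nat_lit 32689334812), (nat_lit 32913206573), (nat_lit 31286570804)], (nat_lit 1271251), (nat_lit 1271251), (nat_lit 292188), (nat_lit 2626875), (nat_lit 780000), (nat_lit 2990626), [(nat_lit 1695001), (nat_lit 1271251), (nat_lit 1271251)], [(nat_lit 29), (nat_lit 66), (nat_lit 483), (nat_lit 250), (nat_lit 10)]⟩⟩)))))) (.dle (nat_lit 0)))))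
noncomputable def c9_29 : Tr Lf :=
 (.trZ (nat_lit 0) (nat_lit 2) (nat_lit 4) (nat_lit 100) (nat_lit 73) (nat_lit 85) (nat_lit 80) (.trZ (nat_lit 1) (nat_lit 2) (nat_lit 5) (nat_lit 100) (nat_lit 82) (nat_lit 76) (nat_lit 60) (.spl (nat_lit 6) (nat_lit 136) (.spl (nat_lit 2) (nat_lit 300) (.spl (nat_lit 6) (nat_lit 112) (.spl (nat_lit 6) (nat_lit 56) (.spl (nat_lit 5) (nat_lit 120) (.leaf ⟨(nat_lit 0), (nat_lit 434), (nat_lit 0), (nat_lit 566), (nat_lit 0), (nat_lit 7645), (nat_lit 7084), (nat_lit 5141), (nat_lit 10746), (nat_lit 0), (nat_lit 0), [], Pd.none, Pd.none, (nat_lit 0), (nat_lit 1), (nat_lit 0), (nat_lit 0), (nat_lit 6), (nat_lit 0), [], [], [⟨(nat_lit 0), (nat_lit 100), (nat_lit 82), (nat_lit 76), (nat_lit 591656591)⟩], [],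
 ⟨⟨[(nat_lit 40), (nat_lit 80), (nat_lit 100)], [(nat_lit 0), (nat_lit 795), (nat_lit 1829)], [((nat_lit 0), (nat_lit 0), (nat_lit 0)), ((nat_lit 1000), (nat_lit 814), (nat_lit 310)), ((nat_lit 1000), (nat_lit 714), (nat_lit 692))], ((nat_lit 71), (nat_lit 100), (nat_lit 69))⟩, (nat_lit 6208506), (nat_lit 300), (nat_lit 509), (nat_lit 50800001), (nat_lit 1083380), [(nat_lit 2032000001), (nat_lit 4689401751), (nat_lit 6250000000)], [], [(nat_lit 26519481141), (nat_lit 27359514741), (nat_lit 37164195645), (nat_lit 38749817790), (nat_lit 34942887890), (nat_lit 36374396800), (nat_lit 41727200633), (nat_lit 42282056490)], (nat_lit 1271251), (nat_lit 1271251), (nat_lit 1100000), (nat_lit 3155001), (nat_lit 490000), (nat_lit 2990001), [(nat_lit 490000), (nat_lit 1100000), (nat_lit 1442501)], [(nat_lit 3), (nat_lit 50), (nat_lit 428), (nat_lit 200), (nat_lit 16)]⟩,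
 ⟨⟨[(nat_lit 40), (nat_lit 80), (nat_lit 120)], [(nat_lit 0), (nat_lit 0), (nat_lit 2151)], [((nat_lit 0), (nat_lit 0), (nat_lit 0)), ((nat_lit 0), (nat_lit 0), (nat_lit 0)), ((nat_lit 1000), (nat_lit 815), (nat_lit 753))], ((nat_lit 81), (nat_lit 100), (nat_lit 70))⟩, (nat_lit 2164368), (nat_lit 430), (nat_lit 430), (nat_lit 0), (nat_lit 764430), [(nat_lit 2032000000), (nat_lit 4688000000), (nat_lit 7968000000)], [], [(nat_lit 26363162248), (nat_lit 25568835252), (nat_lit 36226978956), (nat_lit 39285775442), (nat_lit 22231521440), (nat_lit 24533455172), (nat_lit 33811157800), (nat_lit 36591032564)], (nat_lit 1271251), (nat_lit 1271251), (nat_lit 1100000), (nat_lit 3155001), (nat_lit 356250), (nat_lit 780000), [(nat_lit 490000), (nat_lit 1100000), (nat_lit 1785001)], [(nat_lit 4), (nat_lit 51), (nat_lit 373), (nat_lit 150), (nat_lit 12)]⟩,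
 ⟨⟨[(nat_lit 80), (nat_lit 120), (nat_lit 160)], [(nat_lit 0), (nat_lit 0), (nat_lit 2132)], [((nat_lit 0), (nat_lit 0), (nat_lit 0)), ((nat_lit 0), (nat_lit 0), (nat_lit 0)), ((nat_lit 858), (nat_lit 1000), (nat_lit 713))], ((nat_lit 100), (nat_lit 86), (nat_lit 71))⟩, (nat_lit 332675), (nat_lit 300), (nat_lit 909), (nat_lit 37582400), (nat_lit 1383259), [(nat_lit 2653408000), (nat_lit 4509888000), (nat_lit 6719552000)], [], [(nat_lit 30663447644), (nat_lit 30615942667), (nat_lit 33072693121), (nat_lit 28152103352), (nat_lit 29384370419), (nat_lit 29263972856), (nat_lit 36008823890), (nat_lit 29408874923)], (nat_lit 1271251), (nat_lit 1271251), (nat_lit 490000), (nat_lit 2990001), (nat_lit 356250), (nat_lit 780000), [(nat_lit 1100000), (nat_lit 1785001), (nat_lit 1271251)], [(nat_lit 18), (nat_lit 59), (nat_lit 456), (nat_lit 225), (nat_lit 12)]⟩⟩) (.stt (nat_lit 1) (.spl (nat_lit 0) (nat_lit 350) (.ord (.leaf ⟨(nat_lit 0), (nat_lit 520), (nat_lit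 0), (nat_lit 480), (nat_lit 0), (nat_lit 3772), (nat_lit 6819), (nat_lit 3759), (nat_lit 2078618), (nat_lit 0), (nat_lit 0), [], Pd.none, Pd.none, (nat_lit 0), (nat_lit 1), (nat_lit 0), (nat_lit 0), (nat_lit 6), (nat_lit 0), [⟨(nat_lit 0), (nat_lit 67), (nat_lit 67), (nat_lit 100), (nat_lit 116865626)⟩], [], [], [],
 ⟨⟨[(nat_lit 40), (nat_lit 80), (nat_lit 100)], [(nat_lit 0), (nat_lit 795), (nat_lit 1829)], [((nat_lit 0), (nat_lit 0), (nat_lit 0)), ((nat_lit 1000), (nat_lit 814), (nat_lit 310)), ((nat_lit 1000), (nat_lit 714), (nat_lit 692))], ((nat_lit 71), (nat_lit 100), (nat_lit 69))⟩, (nat_lit 5448964), (nat_lit 127), (nat_lit 127), (nat_lit 0), (nat_lit 0), [(nat_lit 2032000029), (nat_lit 5031515070), (nat_lit 6250000000)], [], [(nat_lit 18541821383), (nat_lit 19357420711), (nat_lit 29960411772), (nat_lit 30512126658), (nat_lit 29706091231), (nat_lit 30146352492), (nat_lit 35847746756), (nat_lit 36156739510)], (nat_lit 0), (nat_lit 0), (nat_lit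 0), (nat_lit 0), (nat_lit 0), (nat_lit 0), [], [(nat_lit 3), (nat_lit 50), (nat_lit 428), (nat_lit 200), (nat_lit 16)]⟩,
 ⟨⟨[(nat_lit 40), (nat_lit 80), (nat_lit 120)], [(nat_lit 0), (nat_lit 0), (nat_lit 2151)], [((nat_lit 0), (nat_lit 0), (nat_lit 0)), ((nat_lit 0), (nat_lit 0), (nat_lit 0)), ((nat_lit 1000), (nat_lit 815), (nat_lit 753))], ((nat_lit 81), (nat_lit 100), (nat_lit 70))⟩, (nat_lit 3093349), (nat_lit 530), (nat_lit 530), (nat_lit 0), (nat_lit 1052502), [(nat_lit 2032000000), (nat_lit 4688000000), (nat_lit 7968000000)], [], [(nat_lit 25055582100), (nat_lit 26676731058), (nat_lit 33307535728), (nat_lit 35426127869), (nat_lit 32470020956), (nat_lit 34483028759), (nat_lit 39598501096), (nat_lit 40680826083)], (nat_lit 1271251), (nat_lit 1271251), (nat_lit 1271251), (nat_lit 1271251), (nat_lit 780000), (nat_lit 3072501), [(nat_lit 490000), (nat_lit 1100000), (nat_lit 1785001)], [(nat_lit 4), (nat_lit 51), (nat_lit 428), (nat_lit 200),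 (nat_lit 13)]⟩,
 ⟨⟨[(nat_lit 80), (nat_lit 120), (nat_lit 160)], [(nat_lit 0), (nat_lit 0), (nat_lit 2132)], [((nat_lit 0), (nat_lit 0), (nat_lit 0)), ((nat_lit 0), (nat_lit 0), (nat_lit 0)), ((nat_lit 858), (nat_lit 1000), (nat_lit 713))], ((nat_lit 100), (nat_lit 86), (nat_lit 71))⟩, (nat_lit 434056), (nat_lit 300), (nat_lit 1159), (nat_lit 31872000), (nat_lit 1976581), [(nat_lit 2250240000), (nat_lit 3824640000), (nat_lit 5698560000)], [], [(nat_lit 31569637518), (nat_lit 31297352210), (nat_lit 30527208468), (nat_lit 28921846883), (nat_lit 29815328397), (nat_lit 29443637786), (nat_lit 27160479378), (nat_lit 26718229662)], (nat_lit 1271251), (nat_lit 1271251), (nat_lit 490000), (nat_lit 2990001), (nat_lit 1271251), (nat_lit 1271251), [(nat_lit 1100000), (nat_lit 1785001), (nat_lit 1271251)], [(nat_lit 18), (nat_lit 59), (nat_lit 538), (nat_lit 300), (nat_lit 14)]⟩⟩)) (.trZ (nat_lit 0) (nat_lit 1) (nat_lit 3) (nat_lit 80) (nat_lit 66) (nat_lit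 100) (nat_lit 180) (.trZ (nat_lit 0) (nat_lit 2) (nat_lit 4) (nat_lit 100) (nat_lit 68) (nat_lit 89) (nat_lit 100) (.trX (nat_lit 4) (nat_lit 0) (nat_lit 2) (nat_lit 76) (nat_lit 37) (nat_lit 100) (nat_lit 390) (.leaf ⟨(nat_lit 0), (nat_lit 543), (nat_lit 0), (nat_lit 457), (nat_lit 0), (nat_lit 3781), (nat_lit 6856), (nat_lit 3605), (nat_lit 1403719), (nat_lit 0), (nat_lit 0), [], Pd.none, Pd.none, (nat_lit 0), (nat_lit 1), (nat_lit 0), (nat_lit 0), (nat_lit 6), (nat_lit 0), [⟨(nat_lit 0), (nat_lit 63), (nat_lit 63), (nat_lit 100), (nat_lit 182263974)⟩], [], [], [],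
 ⟨⟨[(nat_lit 40), (nat_lit 80), (nat_lit 100)], [(nat_lit 0), (nat_lit 1195), (nat_lit 2166)], [((nat_lit 0), (nat_lit 0), (nat_lit 0)), ((nat_lit 1000), (nat_lit 720), (nat_lit 465)), ((nat_lit 1000), (nat_lit 662), (nat_lit 740))], ((nat_lit 66), (nat_lit 100), (nat_lit 70))⟩, (nat_lit 5055453), (nat_lit 123), (nat_lit 123), (nat_lit 0), (nat_lit 0), [(nat_lit 2032000034), (nat_lit 5799477467), (nat_lit 6250000000)], [], [(nat_lit 20245525664), (nat_lit 21015318478), (nat_lit 30436860652), (nat_lit 30977668707), (nat_lit 29928979432), (nat_lit 30368651417), (nat_lit 35816808431), (nat_lit 36134783792)], (nat_lit 0), (nat_lit 0), (nat_lit 0), (nat_lit 0), (nat_lit 0), (nat_lit 0), [], [(nat_lit 3), (nat_lit 50), (nat_lit 428), (nat_lit 200), (nat_lit 15)]⟩,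
 ⟨⟨[(nat_lit 40), (nat_lit 80), (nat_lit 120)], [(nat_lit 0), (nat_lit 0), (nat_lit 2151)], [((nat_lit 0), (nat_lit 0), (nat_lit 0)), ((nat_lit 0), (nat_lit 0), (nat_lit 0)), ((nat_lit 1000), (nat_lit 815), (nat_lit 753))], ((nat_lit 81), (nat_lit 100), (nat_lit 70))⟩, (nat_lit 3167281), (nat_lit 555), (nat_lit 555), (nat_lit 0), (nat_lit 1130253), [(nat_lit 2032000000), (nat_lit 4688000000), (nat_lit 7968000000)], [], [(nat_lit 27372705424), (nat_lit 29113635472), (nat_lit 33362965872), (nat_lit 36196371176), (nat_lit 32717591632), (nat_lit 35316358668), (nat_lit 39651551104), (nat_lit 41097166272)], (nat_lit 1271251), (nat_lit 1271251), (nat_lit 1271251), (nat_lit 1271251), (nat_lit 780000), (nat_lit 3072501), [(nat_lit 490000), (nat_lit 1100000), (nat_lit 1785001)], [(nat_lit 4), (nat_lit 51), (nat_lit 428), (nat_lit 200), (nat_lit 13)]⟩,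
 ⟨⟨[(nat_lit 80), (nat_lit 120), (nat_lit 160)], [(nat_lit 0), (nat_lit 0), (nat_lit 2132)], [((nat_lit 0), (nat_lit 0), (nat_lit 0)), ((nat_lit 0), (nat_lit 0), (nat_lit 0)), ((nat_lit 858), (nat_lit 1000), (nat_lit 713))], ((nat_lit 100), (nat_lit 86), (nat_lit 71))⟩, (nat_lit 539492), (nat_lit 300), (nat_lit 1281), (nat_lit 30344800), (nat_lit 2250006), [(nat_lit 2142416000), (nat_lit 3641376000), (nat_lit 5425504000)], [], [(nat_lit 30861660785), (nat_lit 30537701700), (nat_lit 29331460857), (nat_lit 28356142522), (nat_lit 28962134846), (nat_lit 28565575754), (nat_lit 26590915445), (nat_lit 26145830682)], (nat_lit 1271251), (nat_lit 1271251), (nat_lit 631250), (nat_lit 2951251), (nat_lit 1271251), (nat_lit 1271251), [(nat_lit 1100000), (nat_lit 1785001), (nat_lit 1271251)], [(nat_lit 18), (nat_lit 59), (nat_lit 538), (nat_lit 300), (nat_lit 14)]⟩⟩))))) (.leaf ⟨(nat_lit 0), (nat_lit 405), (nat_lit 0), (nat_lit 595), (nat_lit 0), (nat_lit 6945),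 (nat_lit 7750), (nat_lit 5149), (nat_lit 16877414338149), (nat_lit 0), (nat_lit 0), [], Pd.none, Pd.none, (nat_lit 0), (nat_lit 1), (nat_lit 0), (nat_lit 0), (nat_lit 6), (nat_lit 0), [], [], [], [],
 ⟨⟨[(nat_lit 40), (nat_lit 80), (nat_lit 100)], [(nat_lit 0), (nat_lit 795), (nat_lit 1829)], [((nat_lit 0), (nat_lit 0), (nat_lit 0)), ((nat_lit 1000), (nat_lit 814), (nat_lit 310)), ((nat_lit 1000), (nat_lit 714), (nat_lit 692))], ((nat_lit 71), (nat_lit 100), (nat_lit 69))⟩, (nat_lit 4553778), (nat_lit 300), (nat_lit 509), (nat_lit 50800001), (nat_lit 1083380), [(nat_lit 2032000002), (nat_lit 4904783403), (nat_lit 6250000000)], [], [(nat_lit 29593377500), (nat_lit 30397520323), (nat_lit 35862194945), (nat_lit 37360666390), (nat_lit 33984530490), (nat_lit 35340188800), (nat_lit 43089202047), (nat_lit 41230823090)], (nat_lit 1271251), (nat_lit 1271251), (nat_lit 1100000), (nat_lit 3155001), (nat_lit 490000), (nat_lit 2990001), [(nat_lit 490000),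 (nat_lit 1100000), (nat_lit 1442501)], [(nat_lit 3), (nat_lit 50), (nat_lit 428), (nat_lit 200), (nat_lit 16)]⟩,
 ⟨⟨[(nat_lit 40), (nat_lit 80), (nat_lit 120)], [(nat_lit 0), (nat_lit 0), (nat_lit 2151)], [((nat_lit 0), (nat_lit 0), (nat_lit 0)), ((nat_lit 0), (nat_lit 0), (nat_lit 0)), ((nat_lit 1000), (nat_lit 815), (nat_lit 753))], ((nat_lit 81), (nat_lit 100), (nat_lit 70))⟩, (nat_lit 3108738), (nat_lit 378), (nat_lit 378), (nat_lit 0), (nat_lit 691134), [(nat_lit 2032000000), (nat_lit 4688000000), (nat_lit 7968000000)], [], [(nat_lit 19569390000), (nat_lit 22375370750), (nat_lit 34702278000), (nat_lit 37743859250), (nat_lit 33643755000), (nat_lit 36529528000), (nat_lit 40933354000), (nat_lit 42439741500)], (nat_lit 1271251), (nat_lit 1271251), (nat_lit 1271251), (nat_lit 1271251), (nat_lit 780000), (nat_lit 3072501), [(nat_lit 490000), (nat_lit 1100000), (nat_lit 1785001)], [(nat_lit 4), (nat_lit 51), (nat_lit 428), (nat_lit 200), (nat_lit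 13)]⟩,
 ⟨⟨[(nat_lit 80), (nat_lit 120), (nat_lit 160)], [(nat_lit 0), (nat_lit 0), (nat_lit 2132)], [((nat_lit 0), (nat_lit 0), (nat_lit 0)), ((nat_lit 0), (nat_lit 0), (nat_lit 0)), ((nat_lit 858), (nat_lit 1000), (nat_lit 713))], ((nat_lit 100), (nat_lit 86), (nat_lit 71))⟩, (nat_lit 485917), (nat_lit 300), (nat_lit 876), (nat_lit 39508000), (nat_lit 1383259), [(nat_lit 2789360000), (nat_lit 4740960000), (nat_lit 7063840000)], [], [(nat_lit 32290223171), (nat_lit 32158105228), (nat_lit 39040422388), (nat_lit 32089558158), (nat_lit 30710714708), (nat_lit 30380373233), (nat_lit 27523744860), (nat_lit 27004080969)], (nat_lit 1271251), (nat_lit 1271251), (nat_lit 490000), (nat_lit 2990001), (nat_lit 1271251), (nat_lit 1271251), [(nat_lit 1100000), (nat_lit 1785001), (nat_lit 1271251)], [(nat_lit 18), (nat_lit 59), (nat_lit 538), (nat_lit 300), (nat_lit 14)]⟩⟩))) (.spl (nat_lit 5) (nat_lit 120) (.leaf ⟨(nat_lit 0), (nat_lit 275), (nat_lit 0), (nat_lit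 725), (nat_lit 9447), (nat_lit 9110), (nat_lit 8428), (nat_lit 6764), (nat_lit 236480), (nat_lit 0), (nat_lit 0), [], Pd.none, Pd.none, (nat_lit 0), (nat_lit 1), (nat_lit 0), (nat_lit 0), (nat_lit 6), (nat_lit 0), [], [], [⟨(nat_lit 0), (nat_lit 100), (nat_lit 76), (nat_lit 97), (nat_lit 1093996761)⟩], [],
 ⟨⟨[(nat_lit 40), (nat_lit 100), (nat_lit 140)], [(nat_lit 0), (nat_lit 1192), (nat_lit 4003)], [((nat_lit 0), (nat_lit 0), (nat_lit 0)), ((nat_lit 1000), (nat_lit 814), (nat_lit 310)), ((nat_lit 992), (nat_lit 771), (nat_lit 1000))], ((nat_lit 76), (nat_lit 100), (nat_lit 95))⟩, (nat_lit 467826), (nat_lit 300), (nat_lit 326), (nat_lit 56923519), (nat_lit 422617), [(nat_lit 2032000021), (nat_lit 6250000073), (nat_lit 9842000000)], [], [(nat_lit 33166187222), (nat_lit 32723519460), (nat_lit 39889097110), (nat_lit 41657113220), (nat_lit 36948593020), (nat_lit 38538846400), (nat_lit 47026307432), (nat_lit 44482137820)], (nat_lit 1271251), (nat_lit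 1271251), (nat_lit 1100000), (nat_lit 3155001), (nat_lit 490000), (nat_lit 2990001), [(nat_lit 490000), (nat_lit 1427501), (nat_lit 1271251)], [(nat_lit 5), (nat_lit 55), (nat_lit 428), (nat_lit 200), (nat_lit 12)]⟩,
 ⟨⟨[(nat_lit 40), (nat_lit 100), (nat_lit 160)], [(nat_lit 0), (nat_lit 0), (nat_lit 4607)], [((nat_lit 0), (nat_lit 0), (nat_lit 0)), ((nat_lit 0), (nat_lit 0), (nat_lit 0)), ((nat_lit 846), (nat_lit 837), (nat_lit 1000))], ((nat_lit 89), (nat_lit 99), (nat_lit 100))⟩, (nat_lit 2354439), (nat_lit 349), (nat_lit 349), (nat_lit 0), (nat_lit 304528), [(nat_lit 2032000000), (nat_lit 6250000000), (nat_lit 11872000000)], [], [(nat_lit 23257841851), (nat_lit 26824401131), (nat_lit 38916402252), (nat_lit 42313102514), (nat_lit 21425373799), (nat_lit 24558985564), (nat_lit 35717997936), (nat_lit 38917457588)], (nat_lit 1271251), (nat_lit 1271251), (nat_lit 1100000), (nat_lit 3155001), (nat_lit 356250), (nat_lit 780000), [(nat_lit 490000),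 (nat_lit 1427501), (nat_lit 1271251)], [(nat_lit 6), (nat_lit 56), (nat_lit 373), (nat_lit 150), (nat_lit 9)]⟩,
 ⟨⟨[(nat_lit 80), (nat_lit 140), (nat_lit 180)], [(nat_lit 0), (nat_lit 0), (nat_lit 3656)], [((nat_lit 0), (nat_lit 0), (nat_lit 0)), ((nat_lit 0), (nat_lit 0), (nat_lit 0)), ((nat_lit 637), (nat_lit 1000), (nat_lit 908))], ((nat_lit 100), (nat_lit 62), (nat_lit 92))⟩, (nat_lit 278419), (nat_lit 300), (nat_lit 588), (nat_lit 50967501), (nat_lit 532796), [(nat_lit 3398800000), (nat_lit 7135450000), (nat_lit 10192050000)], [], [(nat_lit 41312896197), (nat_lit 41641930412), (nat_lit 48217459324), (nat_lit 39480840184), (nat_lit 39360245710), (nat_lit 39634890643), (nat_lit 52156547372), (nat_lit 43577830430)], (nat_lit 1271251), (nat_lit 1271251), (nat_lit 490000), (nat_lit 2990001), (nat_lit 356250), (nat_lit 780000), [(nat_lit 1100000), (nat_lit 2127501), (nat_lit 1271251)], [(nat_lit 19), (nat_lit 63), (nat_lit 456), (nat_lit 225),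 (nat_lit 11)]⟩⟩) (.leaf ⟨(nat_lit 0), (nat_lit 449), (nat_lit 0), (nat_lit 551), (nat_lit 0), (nat_lit 8596), (nat_lit 7285), (nat_lit 4323), (nat_lit 14852475828), (nat_lit 0), (nat_lit 0), [], Pd.none, Pd.none, (nat_lit 0), (nat_lit 1), (nat_lit 0), (nat_lit 0), (nat_lit 6), (nat_lit 0), [⟨(nat_lit 0), (nat_lit 63), (nat_lit 63), (nat_lit 100), (nat_lit 154909541)⟩], [], [⟨(nat_lit 0), (nat_lit 100), (nat_lit 76), (nat_lit 97), (nat_lit 43089231)⟩], [],
 ⟨⟨[(nat_lit 40), (nat_lit 100), (nat_lit 140)], [(nat_lit 0), (nat_lit 1192), (nat_lit 4003)], [((nat_lit 0), (nat_lit 0), (nat_lit 0)), ((nat_lit 1000), (nat_lit 814), (nat_lit 310)), ((nat_lit 992), (nat_lit 771), (nat_lit 1000))], ((nat_lit 76), (nat_lit 100), (nat_lit 95))⟩, (nat_lit 829304), (nat_lit 300), (nat_lit 326), (nat_lit 52614697), (nat_lit 422617), [(nat_lit 2032000018), (nat_lit 6250000005), (nat_lit 9842000000)], [], [(nat_lit 32652630284), (nat_lit 32169893836), (nat_lit 38933056596),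 (nat_lit 40637079192), (nat_lit 36244884872), (nat_lit 37779442240), (nat_lit 46376120803), (nat_lit 43710232152)], (nat_lit 1271251), (nat_lit 1271251), (nat_lit 1100000), (nat_lit 3155001), (nat_lit 490000), (nat_lit 2990001), [(nat_lit 490000), (nat_lit 1427501), (nat_lit 1271251)], [(nat_lit 5), (nat_lit 55), (nat_lit 428), (nat_lit 200), (nat_lit 12)]⟩,
 ⟨⟨[(nat_lit 40), (nat_lit 100), (nat_lit 160)], [(nat_lit 0), (nat_lit 0), (nat_lit 4607)], [((nat_lit 0), (nat_lit 0), (nat_lit 0)), ((nat_lit 0), (nat_lit 0), (nat_lit 0)), ((nat_lit 846), (nat_lit 837), (nat_lit 1000))], ((nat_lit 89), (nat_lit 99), (nat_lit 100))⟩, (nat_lit 2227282), (nat_lit 361), (nat_lit 361), (nat_lit 0), (nat_lit 433453), [(nat_lit 2032000000), (nat_lit 6250000000), (nat_lit 11872000000)], [], [(nat_lit 23736517166), (nat_lit 26310046705), (nat_lit 34005655920), (nat_lit 36938957735), (nat_lit 33673688320), (nat_lit 35842518400), (nat_lit 40266644440), (nat_lit 41741422170)],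 (nat_lit 1271251), (nat_lit 1271251), (nat_lit 1271251), (nat_lit 1271251), (nat_lit 780000), (nat_lit 3072501), [(nat_lit 490000), (nat_lit 1427501), (nat_lit 1271251)], [(nat_lit 6), (nat_lit 56), (nat_lit 428), (nat_lit 200), (nat_lit 10)]⟩,
 ⟨⟨[(nat_lit 80), (nat_lit 140), (nat_lit 180)], [(nat_lit 0), (nat_lit 0), (nat_lit 3656)], [((nat_lit 0), (nat_lit 0), (nat_lit 0)), ((nat_lit 0), (nat_lit 0), (nat_lit 0)), ((nat_lit 637), (nat_lit 1000), (nat_lit 908))], ((nat_lit 100), (nat_lit 62), (nat_lit 92))⟩, (nat_lit 211598), (nat_lit 300), (nat_lit 673), (nat_lit 38735310), (nat_lit 835524), [(nat_lit 2583088000), (nat_lit 5422942000), (nat_lit 7745958000)], [], [(nat_lit 33047227213), (nat_lit 33174013666), (nat_lit 38856552936), (nat_lit 33095087655), (nat_lit 32481662257), (nat_lit 32308500632), (nat_lit 30129599497), (nat_lit 29758447116)], (nat_lit 1271251), (nat_lit 1271251), (nat_lit 490000), (nat_lit 2990001), (nat_lit 1271251), (nat_lit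 1271251), [(nat_lit 1100000), (nat_lit 2127501), (nat_lit 1271251)], [(nat_lit 19), (nat_lit 63), (nat_lit 538), (nat_lit 300), (nat_lit 12)]⟩⟩))) (.dle (nat_lit 0))) (.trZ (nat_lit 0) (nat_lit 2) (nat_lit 4) (nat_lit 90) (nat_lit 74) (nat_lit 100) (nat_lit 140) (.trZ (nat_lit 1) (nat_lit 2) (nat_lit 5) (nat_lit 94) (nat_lit 87) (nat_lit 100) (nat_lit 120) (.leaf ⟨(nat_lit 0), (nat_lit 31), (nat_lit 0), (nat_lit 969), (nat_lit 0), (nat_lit 9861), (nat_lit 9624), (nat_lit 7723), (nat_lit 215776), (nat_lit 106337), (nat_lit 0), [], Pd.none, Pd.none, (nat_lit 0), (nat_lit 1), (nat_lit 0), (nat_lit 0), (nat_lit 7), (nat_lit 0), [], [⟨(nat_lit 0), (nat_lit 90), (nat_lit 74), (nat_lit 100), (nat_lit 483878913)⟩], [⟨(nat_lit 0), (nat_lit 76), (nat_lit 72), (nat_lit 100), (nat_lit 477695201)⟩], [],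
 ⟨⟨[(nat_lit 40), (nat_lit 100), (nat_lit 160)], [(nat_lit 0), (nat_lit 1192), (nat_lit 5376)], [((nat_lit 0), (nat_lit 0), (nat_lit 0)), ((nat_lit 1000), (nat_lit 814), (nat_lit 310)), ((nat_lit 919), (nat_lit 747), (nat_lit 1000))], ((nat_lit 75), (nat_lit 94), (nat_lit 100))⟩, (nat_lit 2603755), (nat_lit 300), (nat_lit 808), (nat_lit 50800001), (nat_lit 1382910), [(nat_lit 2032000006), (nat_lit 7672226671), (nat_lit 11872000000)], [], [(nat_lit 33918800769), (nat_lit 34529478682), (nat_lit 38804069667), (nat_lit 40523171436), (nat_lit 37976773602), (nat_lit 39648403840), (nat_lit 44785016553), (nat_lit 45609961082)], (nat_lit 1271251), (nat_lit 1271251), (nat_lit 1271251), (nat_lit 1271251), (nat_lit 936250), (nat_lit 3113751), [(nat_lit 490000), (nat_lit 1427501), (nat_lit 1271251)], [(nat_lit 6), (nat_lit 56), (nat_lit 428), (nat_lit 200), (nat_lit 10)]⟩,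
 ⟨⟨[(nat_lit 40), (nat_lit 100), (nat_lit 160)], [(nat_lit 0), (nat_lit 0), (nat_lit 4607)], [((nat_lit 0), (nat_lit 0), (nat_lit 0)), ((nat_lit 0), (nat_lit 0), (nat_lit 0)), ((nat_lit 846), (nat_lit 837), (nat_lit 1000))], ((nat_lit 84), (nat_lit 87), (nat_lit 100))⟩, (nat_lit 2683178), (nat_lit 859), (nat_lit 859), (nat_lit 0), (nat_lit 1488496), [(nat_lit 2032000000), (nat_lit 6250000000), (nat_lit 11872000000)], [], [(nat_lit 23604647920), (nat_lit 24598418680), (nat_lit 37509739888), (nat_lit 40987698904), (nat_lit 36006351776), (nat_lit 39298250560), (nat_lit 43620265216), (nat_lit 45254043488)], (nat_lit 1271251), (nat_lit 1271251), (nat_lit 1271251), (nat_lit 1271251), (nat_lit 780000), (nat_lit 3072501), [(nat_lit 490000), (nat_lit 1427501), (nat_lit 1271251)], [(nat_lit 6), (nat_lit 56), (nat_lit 428), (nat_lit 200), (nat_lit 10)]⟩,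
 ⟨⟨[(nat_lit 60), (nat_lit 120), (nat_lit 180)], [(nat_lit 0), (nat_lit 913), (nat_lit 5370)], [((nat_lit 0), (nat_lit 0), (nat_lit 0)), ((nat_lit 1000), (nat_lit 905), (nat_lit 238)), ((nat_lit 862), (nat_lit 939), (nat_lit 1000))], ((nat_lit 91), (nat_lit 79), (nat_lit 100))⟩, (nat_lit 1708181), (nat_lit 300), (nat_lit 997), (nat_lit 53004300), (nat_lit 1628534), [(nat_lit 3180258000), (nat_lit 7720992000), (nat_lit 13622202000)], [], [(nat_lit 50661757821), (nat_lit 50504695013), (nat_lit 47596587644), (nat_lit 47135576484), (nat_lit 46995948974), (nat_lit 46526395346), (nat_lit 43019317866), (nat_lit 42601937032)], (nat_lit 1271251), (nat_lit 1271251), (nat_lit 1271251), (nat_lit 1271251), (nat_lit 780000), (nat_lit 3072501), [(nat_lit 780000), (nat_lit 1762501), (nat_lit 1271251)], [(nat_lit 13), (nat_lit 60), (nat_lit 538), (nat_lit 300), (nat_lit 12)]⟩⟩)))) (.dle (nat_lit 0)))))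
def l013 : List St := [⟨⟨(nat_lit 340), (nat_lit 360), (nat_lit 320), (nat_lit 360), (nat_lit 120), (nat_lit 240), (nat_lit 160), (nat_lit 400), (nat_lit 10), (nat_lit 370), (nat_lit 0), (nat_lit 120), (nat_lit 0), (nat_lit 44)⟩, (nat_lit 3), (nat_lit 3), (nat_lit 0), false, false, true⟩,
  ⟨⟨(nat_lit 340), (nat_lit 360), (nat_lit 320), (nat_lit 360), (nat_lit 120), (nat_lit 240), (nat_lit 160), (nat_lit 400), (nat_lit 10), (nat_lit 370), (nat_lit 120), (nat_lit 390), (nat_lit 0), (nat_lit 44)⟩, (nat_lit 3), (nat_lit 3), (nat_lit 0), false, false, false⟩,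
  ⟨⟨(nat_lit 340), (nat_lit 360), (nat_lit 320), (nat_lit 360), (nat_lit 120), (nat_lit 240), (nat_lit 160), (nat_lit 400), (nat_lit 10), (nat_lit 370), (nat_lit 0), (nat_lit 120), (nat_lit 44), (nat_lit 88)⟩, (nat_lit 3), (nat_lit 3), (nat_lit 0), false, false, true⟩,
  ⟨⟨(nat_lit 340), (nat_lit 360), (nat_lit 320), (nat_lit 360), (nat_lit 120), (nat_lit 240), (nat_lit 160), (nat_lit 400), (nat_lit 10), (nat_lit 370), (nat_lit 120), (nat_lit 390), (nat_lit 44), (nat_lit 88)⟩, (nat_lit 3), (nat_lit 3), (nat_lit 0), false, false, false⟩,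
  ⟨⟨(nat_lit 340), (nat_lit 360), (nat_lit 320), (nat_lit 360), (nat_lit 120), (nat_lit 240), (nat_lit 160), (nat_lit 400), (nat_lit 10), (nat_lit 200), (nat_lit 0), (nat_lit 200), (nat_lit 0), (nat_lit 88)⟩, (nat_lit 3), (nat_lit 3), (nat_lit 1), false, false, false⟩,
  ⟨⟨(nat_lit 340), (nat_lit 360), (nat_lit 320), (nat_lit 360), (nat_lit 120), (nat_lit 240), (nat_lit 160), (nat_lit 400), (nat_lit 10), (nat_lit 200), (nat_lit 200), (nat_lit 390), (nat_lit 0), (nat_lit 44)⟩, (nat_lit 3), (nat_lit 3), (nat_lit 1), false, false, false⟩,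
  ⟨⟨(nat_lit 340), (nat_lit 360), (nat_lit 320), (nat_lit 360), (nat_lit 120), (nat_lit 240), (nat_lit 160), (nat_lit 400), (nat_lit 10), (nat_lit 200), (nat_lit 200), (nat_lit 390), (nat_lit 44), (nat_lit 88)⟩, (nat_lit 3), (nat_lit 3), (nat_lit 1), false, false, false⟩,
  ⟨⟨(nat_lit 340), (nat_lit 360), (nat_lit 320), (nat_lit 360), (nat_lit 120), (nat_lit 240), (nat_lit 160), (nat_lit 400), (nat_lit 200), (nat_lit 370), (nat_lit 0), (nat_lit 200), (nat_lit 0), (nat_lit 44)⟩, (nat_lit 3), (nat_lit 0), (nat_lit 1), false, false, false⟩,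
  ⟨⟨(nat_lit 340), (nat_lit 360), (nat_lit 320), (nat_lit 360), (nat_lit 120), (nat_lit 240), (nat_lit 160), (nat_lit 400), (nat_lit 200), (nat_lit 370), (nat_lit 200), (nat_lit 280), (nat_lit 0), (nat_lit 44)⟩, (nat_lit 3), (nat_lit 0), (nat_lit 1), false, false, false⟩,
  ⟨⟨(nat_lit 340), (nat_lit 360), (nat_lit 320), (nat_lit 360), (nat_lit 120), (nat_lit 180), (nat_lit 160), (nat_lit 400), (nat_lit 200), (nat_lit 370), (nat_lit 280), (nat_lit 390), (nat_lit 0), (nat_lit 44)⟩, (nat_lit 3), (nat_lit 0), (nat_lit 1), false, false, false⟩,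
  ⟨⟨(nat_lit 340), (nat_lit 360), (nat_lit 320), (nat_lit 360), (nat_lit 180), (nat_lit 240), (nat_lit 160), (nat_lit 400), (nat_lit 200), (nat_lit 370), (nat_lit 280), (nat_lit 390), (nat_lit 0), (nat_lit 44)⟩, (nat_lit 3), (nat_lit 0), (nat_lit 1), false, false, false⟩,
  ⟨⟨(nat_lit 340), (nat_lit 360), (nat_lit 320), (nat_lit 360), (nat_lit 120), (nat_lit 180), (nat_lit 160), (nat_lit 400), (nat_lit 200), (nat_lit 330), (nat_lit 0), (nat_lit 160), (nat_lit 0), (nat_lit 44)⟩, (nat_lit 3), (nat_lit 1), (nat_lit 1), false, false, false⟩,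
  ⟨⟨(nat_lit 340), (nat_lit 360), (nat_lit 320), (nat_lit 360), (nat_lit 120), (nat_lit 160), (nat_lit 160), (nat_lit 280), (nat_lit 200), (nat_lit 320), (nat_lit 160), (nat_lit 340), (nat_lit 0), (nat_lit 44)⟩, (nat_lit 3), (nat_lit 1), (nat_lit 1), false, false, false⟩,
  ⟨⟨(nat_lit 340), (nat_lit 360), (nat_lit 320), (nat_lit 360), (nat_lit 120), (nat_lit 160), (nat_lit 280), (nat_lit 400), (nat_lit 200), (nat_lit 320), (nat_lit 160), (nat_lit 340), (nat_lit 0), (nat_lit 44)⟩, (nat_lit 3), (nat_lit 1), (nat_lit 1), false, false, false⟩,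
  ⟨⟨(nat_lit 340), (nat_lit 360), (nat_lit 320), (nat_lit 360), (nat_lit 160), (nat_lit 180), (nat_lit 160), (nat_lit 400), (nat_lit 200), (nat_lit 330), (nat_lit 160), (nat_lit 350), (nat_lit 0), (nat_lit 44)⟩, (nat_lit 3), (nat_lit 1), (nat_lit 1), false, false, false⟩,
  ⟨⟨(nat_lit 340), (nat_lit 360), (nat_lit 320), (nat_lit 360), (nat_lit 180), (nat_lit 240), (nat_lit 160), (nat_lit 400), (nat_lit 200), (nat_lit 370), (nat_lit 0), (nat_lit 390), (nat_lit 0), (nat_lit 44)⟩, (nat_lit 3), (nat_lit 1), (nat_lit 1), false, false, false⟩,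
  ⟨⟨(nat_lit 340), (nat_lit 360), (nat_lit 320), (nat_lit 360), (nat_lit 120), (nat_lit 180), (nat_lit 160), (nat_lit 400), (nat_lit 200), (nat_lit 370), (nat_lit 0), (nat_lit 390), (nat_lit 44), (nat_lit 88)⟩, (nat_lit 3), (nat_lit 3), (nat_lit 1), false, false, false⟩,
  ⟨⟨(nat_lit 340), (nat_lit 360), (nat_lit 320), (nat_lit 360), (nat_lit 180), (nat_lit 240), (nat_lit 160), (nat_lit 400), (nat_lit 200), (nat_lit 370), (nat_lit 0), (nat_lit 390), (nat_lit 44), (nat_lit 88)⟩, (nat_lit 3), (nat_lit 3), (nat_lit 1), false, false, false⟩,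
  ⟨⟨(nat_lit 340), (nat_lit 350), (nat_lit 320), (nat_lit 350), (nat_lit 120), (nat_lit 180), (nat_lit 160), (nat_lit 400), (nat_lit 10), (nat_lit 330), (nat_lit 0), (nat_lit 160), (nat_lit 88), (nat_lit 140)⟩, (nat_lit 3), (nat_lit 3), (nat_lit 3), false, false, false⟩,
  ⟨⟨(nat_lit 340), (nat_lit 350), (nat_lit 320), (nat_lit 350), (nat_lit 120), (nat_lit 180), (nat_lit 160), (nat_lit 400), (nat_lit 10), (nat_lit 330), (nat_lit 160), (nat_lit 350), (nat_lit 88), (nat_lit 116)⟩, (nat_lit 3), (nat_lit 3), (nat_lit 3), false, false, false⟩,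
  ⟨⟨(nat_lit 340), (nat_lit 350), (nat_lit 320), (nat_lit 350), (nat_lit 120), (nat_lit 180), (nat_lit 160), (nat_lit 400), (nat_lit 10), (nat_lit 330), (nat_lit 160), (nat_lit 350), (nat_lit 116), (nat_lit 140)⟩, (nat_lit 3), (nat_lit 3), (nat_lit 3), false, false, false⟩,
  ⟨⟨(nat_lit 350), (nat_lit 360), (nat_lit 320), (nat_lit 340), (nat_lit 120), (nat_lit 160), (nat_lit 180), (nat_lit 280), (nat_lit 10), (nat_lit 300), (nat_lit 0), (nat_lit 340), (nat_lit 88), (nat_lit 116)⟩, (nat_lit 3), (nat_lit 3), (nat_lit 3), false, false, false⟩,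
  ⟨⟨(nat_lit 350), (nat_lit 360), (nat_lit 320), (nat_lit 340), (nat_lit 120), (nat_lit 160), (nat_lit 280), (nat_lit 400), (nat_lit 10), (nat_lit 300), (nat_lit 0), (nat_lit 340), (nat_lit 88), (nat_lit 116)⟩, (nat_lit 3), (nat_lit 3), (nat_lit 3), false, false, false⟩,
  ⟨⟨(nat_lit 350), (nat_lit 360), (nat_lit 320), (nat_lit 340), (nat_lit 160), (nat_lit 180), (nat_lit 180), (nat_lit 400), (nat_lit 10), (nat_lit 320), (nat_lit 0), (nat_lit 350), (nat_lit 88), (nat_lit 116)⟩, (nat_lit 3), (nat_lit 3), (nat_lit 3), false, false, false⟩,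
  ⟨⟨(nat_lit 350), (nat_lit 360), (nat_lit 320), (nat_lit 340), (nat_lit 120), (nat_lit 180), (nat_lit 180), (nat_lit 400), (nat_lit 10), (nat_lit 320), (nat_lit 0), (nat_lit 350), (nat_lit 116), (nat_lit 140)⟩, (nat_lit 3), (nat_lit 3), (nat_lit 3), false, false, false⟩,
  ⟨⟨(nat_lit 350), (nat_lit 360), (nat_lit 340), (nat_lit 360), (nat_lit 120), (nat_lit 160), (nat_lit 210), (nat_lit 400), (nat_lit 10), (nat_lit 300), (nat_lit 10), (nat_lit 320), (nat_lit 88), (nat_lit 132)⟩, (nat_lit 3), (nat_lit 3), (nat_lit 3), false, false, false⟩,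
  ⟨⟨(nat_lit 350), (nat_lit 360), (nat_lit 340), (nat_lit 360), (nat_lit 120), (nat_lit 160), (nat_lit 210), (nat_lit 400), (nat_lit 10), (nat_lit 300), (nat_lit 10), (nat_lit 320), (nat_lit 132), (nat_lit 172)⟩, (nat_lit 3), (nat_lit 3), (nat_lit 3), false, false, false⟩,
  ⟨⟨(nat_lit 350), (nat_lit 360), (nat_lit 340), (nat_lit 360), (nat_lit 160), (nat_lit 180), (nat_lit 210), (nat_lit 400), (nat_lit 10), (nat_lit 320), (nat_lit 10), (nat_lit 330), (nat_lit 88), (nat_lit 172)⟩, (nat_lit 3), (nat_lit 3), (nat_lit 3), false, false, false⟩,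
  ⟨⟨(nat_lit 340), (nat_lit 360), (nat_lit 320), (nat_lit 360), (nat_lit 180), (nat_lit 240), (nat_lit 160), (nat_lit 400), (nat_lit 10), (nat_lit 370), (nat_lit 0), (nat_lit 390), (nat_lit 88), (nat_lit 172)⟩, (nat_lit 3), (nat_lit 3), (nat_lit 3), false, false, false⟩,
  ⟨⟨(nat_lit 340), (nat_lit 360), (nat_lit 320), (nat_lit 360), (nat_lit 240), (nat_lit 360), (nat_lit 160), (nat_lit 400), (nat_lit 10), (nat_lit 400), (nat_lit 0), (nat_lit 400), (nat_lit 0), (nat_lit 172)⟩, (nat_lit 3), (nat_lit 3), (nat_lit 3), false, false, false⟩]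
theorem t013 (h : EC env Ei) : ∀ τ ∈ l013, Dead τ :=
  List.forall_mem_cons.mpr ⟨chkT_sound0 h (T := c9_0) (by decide +kernel),
  List.forall_mem_cons.mpr ⟨chkT_sound0 h (T := c9_1) (by decide +kernel),
  List.forall_mem_cons.mpr ⟨chkT_sound0 h (T := c9_2) (by decide +kernel),
  List.forall_mem_cons.mpr ⟨chkT_sound0 h (T := c9_3) (by decide +kernel),
  List.forall_mem_cons.mpr ⟨chkT_sound0 h (T := c9_4) (by decide +kernel),
  List.forall_mem_cons.mpr ⟨chkT_sound0 h (T := c9_5) (by decide +kernel),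
  List.forall_mem_cons.mpr ⟨chkT_sound0 h (T := c9_6) (by decide +kernel),
  List.forall_mem_cons.mpr ⟨chkT_sound0 h (T := c9_7) (by decide +kernel),
  List.forall_mem_cons.mpr ⟨chkT_sound0 h (T := c9_8) (by decide +kernel),
  List.forall_mem_cons.mpr ⟨chkT_sound0 h (T := c9_9) (by decide +kernel),
  List.forall_mem_cons.mpr ⟨chkT_sound0 h (T := c9_10) (by decide +kernel),
  List.forall_mem_cons.mpr ⟨chkT_sound0 h (T := c9_11) (by decide +kernel),
  List.forall_mem_cons.mpr ⟨chkT_sound0 h (T := c9_12) (by decide +kernel),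
  List.forall_mem_cons.mpr ⟨chkT_sound0 h (T := c9_13) (by decide +kernel),
  List.forall_mem_cons.mpr ⟨chkT_sound0 h (T := c9_14) (by decide +kernel),
  List.forall_mem_cons.mpr ⟨chkT_sound0 h (T := c9_15) (by decide +kernel),
  List.forall_mem_cons.mpr ⟨chkT_sound0 h (T := c9_16) (by decide +kernel),
  List.forall_mem_cons.mpr ⟨chkT_sound0 h (T := c9_17) (by decide +kernel),
  List.forall_mem_cons.mpr ⟨chkT_sound0 h (T := c9_18) (by decide +kernel),
  List.forall_mem_cons.mpr ⟨chkT_sound0 h (T := c9_19) (by decide +kernel),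
  List.forall_mem_cons.mpr ⟨chkT_sound0 h (T := c9_20) (by decide +kernel),
  List.forall_mem_cons.mpr ⟨chkT_sound0 h (T := c9_21) (by decide +kernel),
  List.forall_mem_cons.mpr ⟨chkT_sound0 h (T := c9_22) (by decide +kernel),
  List.forall_mem_cons.mpr ⟨chkT_sound0 h (T := c9_23) (by decide +kernel),
  List.forall_mem_cons.mpr ⟨chkT_sound0 h (T := c9_24) (by decide +kernel),
  List.forall_mem_cons.mpr ⟨chkT_sound0 h (T := c9_25) (by decide +kernel),
  List.forall_mem_cons.mpr ⟨chkT_sound0 h (T := c9_26) (by decide +kernel),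
  List.forall_mem_cons.mpr ⟨chkT_sound0 h (T := c9_27) (by decide +kernel),
  List.forall_mem_cons.mpr ⟨chkT_sound0 h (T := c9_28) (by decide +kernel),
  List.forall_mem_cons.mpr ⟨chkT_sound0 h (T := c9_29) (by decide +kernel),
  List.forall_mem_nil _⟩⟩⟩⟩⟩⟩⟩⟩⟩⟩⟩⟩⟩⟩⟩⟩⟩⟩⟩⟩⟩⟩⟩⟩⟩⟩⟩⟩⟩⟩
end TC
end Pool.Agent.Lib.MP_6947cd_al
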