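import Pool.Agent.Lib.MP_6947cd_al.C.LeafF
import Pool.Agent.Lib.MP_6947cd_al.TC.E
import Pool.Agent.Lib.MP_6947cd_al.TC.F

/-!
Problem MP_6947cd_al (Chollet).  CASE C, tables and certificates.  Trees of leaves (part 14 of root 10).
-/

set_option autoImplicit false
set_option linter.all false
set_option maxRecDepth 100000
set_option maxHeartbeats 4000000
namespace Pool.Agent.Lib.MP_6947cd_al
namespace TC
open C1
noncomputable def c10_0 : Tr Lf :=
 (.spl (nat_lit 3) (nat_lit 80) (.spl (nat_lit 3) (nat_lit 40) (.leaf ⟨(nat_lit 1000), (nat_lit 0), (nat_lit 0), (nat_lit 0), (nat_lit 7526), (nat_lit 3344), (nat_lit 0), (nat_lit 0), (nat_lit 0), (nat_lit 25197), (nat_lit 1090000), [((nat_lit 340), [((nat_lit 18), (nat_lit 2), (nat_lit 970)), ((nat_lit 37), (nat_lit 5), (nat_lit 30))])], ⟨(nat_lit 3), false, false, false, (nat_lit 72), (nat_lit 3872), (nat_lit 4473), [(nat_lit 1073842), (nat_lit 1090218), (nat_lit 1203168), (nat_lit 1220904), (nat_lit 1141820),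 (nat_lit 1154739), (nat_lit 1271153), (nat_lit 1285433)]⟩, ⟨(nat_lit 3), false, false, false, (nat_lit 86), (nat_lit 3872), (nat_lit 4473), [(nat_lit 1073842), (nat_lit 1090218), (nat_lit 1138518), (nat_lit 1155575), (nat_lit 1277776), (nat_lit 1283782), (nat_lit 1342475), (nat_lit 1349162)]⟩, (nat_lit 1890381), (nat_lit 61093319), (nat_lit 2570661), (nat_lit 3336020), (nat_lit 0), (nat_lit 0), [⟨(nat_lit 0), (nat_lit 100), (nat_lit 76), (nat_lit 57), (nat_lit 550239647)⟩], [⟨(nat_lit 0), (nat_lit 100), (nat_lit 72), (nat_lit 63), (nat_lit 65022355)⟩], [], [],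
 ⟨⟨[(nat_lit 40), (nat_lit 80), (nat_lit 100)], [(nat_lit 0), (nat_lit 0), (nat_lit 1280)], [((nat_lit 0), (nat_lit 0), (nat_lit 0)), ((nat_lit 0), (nat_lit 0), (nat_lit 0)), ((nat_lit 1000), (nat_lit 800), (nat_lit 600))], ((nat_lit 80), (nat_lit 100), (nat_lit 57))⟩, (nat_lit 0), (nat_lit 265), (nat_lit 265), (nat_lit 0), (nat_lit 154974), [(nat_lit 1902311998), (nat_lit 754936005), (nat_lit 0)], [(nat_lit 0), (nat_lit 0), (nat_lit 799180000)], [(nat_lit 19861720192), (nat_lit 22108095576), (nat_lit 18817002317), (nat_lit 20408551112), (nat_lit 18963155165), (nat_lit 20280783907), (nat_lit 18652426806), (nat_lit 19927798543)], (nat_lit 1271251), (nat_lit 1271251), (nat_lit 0), (nat_lit 230000), (nat_lit 0), (nat_lit 780000), [(nat_lit 490000), (nat_lit 1100000), (nat_lit 1442501)], [(nat_lit 3), (nat_lit 50), (nat_lit 249), (nat_lit 40), (nat_lit 10)]⟩,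
 Rw.none,
 Rw.none⟩) (.spl (nat_lit 0) (nat_lit 330) (.spl (nat_lit 6) (nat_lit 28) (.leaf ⟨(nat_lit 1000), (nat_lit 0), (nat_lit 0), (nat_lit 0), (nat_lit 6838), (nat_lit 3466), (nat_lit 0), (nat_lit 0), (nat_lit 0), (nat_lit 4305), (nat_lit 1108000), [((nat_lit 330), [((nat_lit 18), (nat_lit 2), (nat_lit 964)), ((nat_lit 37), (nat_lit 5), (nat_lit 36))])], ⟨(nat_lit 3), false, false, false, (nat_lit 97), (nat_lit 4183), (nat_lit 4473), [(nat_lit 1141820), (nat_lit 1148309), (nat_lit 1271208), (nat_lit 1278299), (nat_lit 1209798), (nat_lit 1214565), (nat_lit 1339187), (nat_lit 1344555)]⟩, ⟨(nat_lit 3), false, false, false, (nat_lit 84), (nat_lit 4183), (nat_lit 4473), [(nat_lit 1073842), (nat_lit 1082054), (nat_lit 1138540), (nat_lit 1147053), (nat_lit 1277776), (nat_lit 1280820), (nat_lit 1342476), (nat_lit 1345821)]⟩, (nat_lit 2280966), (nat_lit 59405854), (nat_lit 4208581), (nat_lit 3385565), (nat_lit 0), (nat_lit 0), [⟨(nat_lit 0), (nat_lit 100),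 (nat_lit 78), (nat_lit 81), (nat_lit 324040002)⟩], [⟨(nat_lit 0), (nat_lit 100), (nat_lit 76), (nat_lit 57), (nat_lit 69137640)⟩], [], [],
 ⟨⟨[(nat_lit 40), (nat_lit 80), (nat_lit 100)], [(nat_lit 0), (nat_lit 0), (nat_lit 1280)], [((nat_lit 0), (nat_lit 0), (nat_lit 0)), ((nat_lit 0), (nat_lit 0), (nat_lit 0)), ((nat_lit 1000), (nat_lit 800), (nat_lit 600))], ((nat_lit 80), (nat_lit 100), (nat_lit 51))⟩, (nat_lit 0), (nat_lit 220), (nat_lit 220), (nat_lit 0), (nat_lit 122267), [(nat_lit 1914614396), (nat_lit 724643207), (nat_lit 0)], [(nat_lit 0), (nat_lit 0), (nat_lit 870376000)], [(nat_lit 18489118008), (nat_lit 19612482951), (nat_lit 17021868050), (nat_lit 17853527125), (nat_lit 17169973880), (nat_lit 17877784880), (nat_lit 16730069430), (nat_lit 17399575667)], (nat_lit 1271251), (nat_lit 1271251), (nat_lit 230000), (nat_lit 490000), (nat_lit 0), (nat_lit 780000), [(nat_lit 490000), (nat_lit 1100000), (nat_lit 1442501)], [(nat_lit 3), (nat_lit 50),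 (nat_lit 260), (nat_lit 50), (nat_lit 10)]⟩,
 Rw.none,
 Rw.none⟩) (.dle (nat_lit 0))) (.leaf ⟨(nat_lit 1000), (nat_lit 0), (nat_lit 0), (nat_lit 0), (nat_lit 4428), (nat_lit 3628), (nat_lit 0), (nat_lit 0), (nat_lit 0), (nat_lit 34711), (nat_lit 400000), [((nat_lit 340), [((nat_lit 18), (nat_lit 1), (nat_lit 1000))])], ⟨(nat_lit 3), false, false, false, (nat_lit 100), (nat_lit 3872), (nat_lit 4184), [(nat_lit 1148309), (nat_lit 1154739), (nat_lit 1278288), (nat_lit 1285478), (nat_lit 1214565), (nat_lit 1219261), (nat_lit 1344547), (nat_lit 1350002)]⟩, ⟨(nat_lit 3), false, false, false, (nat_lit 87), (nat_lit 3872), (nat_lit 4184), [(nat_lit 1082054), (nat_lit 1090218), (nat_lit 1147044), (nat_lit 1155588), (nat_lit 1280820), (nat_lit 1283782), (nat_lit 1345820), (nat_lit 1349161)]⟩, (nat_lit 2355652), (nat_lit 59064793), (nat_lit 4389320), (nat_lit 3545887), (nat_lit 0), (nat_lit 0), [⟨(nat_lit 0), (nat_lit 100), (nat_lit 73), (nat_lit 85), (nat_lit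 321964412)⟩], [⟨(nat_lit 0), (nat_lit 100), (nat_lit 72), (nat_lit 63), (nat_lit 81499632)⟩], [], [],
 ⟨⟨[(nat_lit 40), (nat_lit 80), (nat_lit 100)], [(nat_lit 0), (nat_lit 395), (nat_lit 1536)], [((nat_lit 0), (nat_lit 0), (nat_lit 0)), ((nat_lit 1000), (nat_lit 908), (nat_lit 154)), ((nat_lit 1000), (nat_lit 760), (nat_lit 642))], ((nat_lit 76), (nat_lit 100), (nat_lit 58))⟩, (nat_lit 1069320), (nat_lit 237), (nat_lit 237), (nat_lit 0), (nat_lit 153053), [(nat_lit 1443200023), (nat_lit 1921600006), (nat_lit 1960800000)], [(nat_lit 0), (nat_lit 0), (nat_lit 0)], [(nat_lit 20017349179), (nat_lit 21170455094), (nat_lit 18615843283), (nat_lit 19382967943), (nat_lit 18634795645), (nat_lit 19340794995), (nat_lit 18119493822), (nat_lit 18802474449)], (nat_lit 1271251), (nat_lit 1271251), (nat_lit 230000), (nat_lit 490000), (nat_lit 0), (nat_lit 780000), [(nat_lit 490000), (nat_lit 1100000), (nat_lit 1442501)], [(nat_lit 3), (nat_lit 50), (nat_lit 260), (nat_lit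 50), (nat_lit 10)]⟩,
 Rw.none,
 Rw.none⟩))) (.leaf ⟨(nat_lit 1000), (nat_lit 0), (nat_lit 0), (nat_lit 0), (nat_lit 4342), (nat_lit 3696), (nat_lit 0), (nat_lit 0), (nat_lit 0), (nat_lit 18384), (nat_lit 846800), [((nat_lit 340), [((nat_lit 37), (nat_lit 2), (nat_lit 383)), ((nat_lit 18), (nat_lit 2), (nat_lit 617))])], ⟨(nat_lit 3), false, false, false, (nat_lit 125), (nat_lit 3872), (nat_lit 4473), [(nat_lit 1209798), (nat_lit 1219261), (nat_lit 1339140), (nat_lit 1349963), (nat_lit 1277776), (nat_lit 1283782), (nat_lit 1407125), (nat_lit 1414492)]⟩, ⟨(nat_lit 3), false, false, false, (nat_lit 86), (nat_lit 3872), (nat_lit 4473), [(nat_lit 1073842), (nat_lit 1090218), (nat_lit 1138518), (nat_lit 1155575), (nat_lit 1277776), (nat_lit 1283782), (nat_lit 1342475), (nat_lit 1349162)]⟩, (nat_lit 2727106), (nat_lit 57104370), (nat_lit 6345079), (nat_lit 3550551), (nat_lit 0), (nat_lit 0), [], [⟨(nat_lit 0), (nat_lit 100), (nat_lit 72), (nat_lit 63), (nat_lit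 96086905)⟩], [], [],
 ⟨⟨[(nat_lit 40), (nat_lit 80), (nat_lit 100)], [(nat_lit 0), (nat_lit 0), (nat_lit 1280)], [((nat_lit 0), (nat_lit 0), (nat_lit 0)), ((nat_lit 0), (nat_lit 0), (nat_lit 0)), ((nat_lit 1000), (nat_lit 800), (nat_lit 600))], ((nat_lit 80), (nat_lit 100), (nat_lit 57))⟩, (nat_lit 0), (nat_lit 206), (nat_lit 206), (nat_lit 0), (nat_lit 154974), [(nat_lit 1739688054), (nat_lit 1165001590), (nat_lit 166536000)], [(nat_lit 0), (nat_lit 0), (nat_lit 0)], [(nat_lit 17605751436), (nat_lit 19416427032), (nat_lit 18111365228), (nat_lit 19640129700), (nat_lit 17040696268), (nat_lit 18334086584), (nat_lit 17525660004), (nat_lit 18762733296)], (nat_lit 1271251), (nat_lit 1271251), (nat_lit 490000), (nat_lit 780000), (nat_lit 0), (nat_lit 780000), [(nat_lit 490000), (nat_lit 1100000), (nat_lit 1442501)], [(nat_lit 3), (nat_lit 50), (nat_lit 272), (nat_lit 60), (nat_lit 10)]⟩,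
 Rw.none,
 Rw.none⟩))
noncomputable def c10_1 : Tr Lf :=
 (.ord (.trZ (nat_lit 0) (nat_lit 1) (nat_lit 3) (nat_lit 100) (nat_lit 80) (nat_lit 52) (nat_lit 20) (.trZ (nat_lit 0) (nat_lit 2) (nat_lit 4) (nat_lit 100) (nat_lit 80) (nat_lit 52) (nat_lit 20) (.spl (nat_lit 4) (nat_lit 80) (.spl (nat_lit 3) (nat_lit 80) (.spl (nat_lit 6) (nat_lit 20) (.spl (nat_lit 1) (nat_lit 220) (.ord (.leaf ⟨(nat_lit 1000), (nat_lit 0), (nat_lit 0), (nat_lit 0), (nat_lit 5826), (nat_lit 4092), (nat_lit 0), (nat_lit 0), (nat_lit 0), (nat_lit 466566087329), (nat_lit 1126000), [((nat_lit 340), [((nat_lit 18), (nat_lit 2), (nat_lit 958)), ((nat_lit 37), (nat_lit 5), (nat_lit 42))])], ⟨(nat_lit 4), false, false, false, (nat_lit 101), (nat_lit 3872), (nat_lit 4473), [(nat_lit 1172511), (nat_lit 1187839), (nat_lit 1215612), (nat_lit 1231393), (nat_lit 1274489), (nat_lit 1284632), (nat_lit 1317591), (nat_lit 1328187)]⟩, ⟨(nat_lit 4), false, false, false, (nat_lit 101), (nat_lit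 3872), (nat_lit 4473), [(nat_lit 1172511), (nat_lit 1187839), (nat_lit 1215612), (nat_lit 1231393), (nat_lit 1274489), (nat_lit 1284632), (nat_lit 1317591), (nat_lit 1328187)]⟩, (nat_lit 2588669), (nat_lit 57983746), (nat_lit 4508127), (nat_lit 4508127), (nat_lit 0), (nat_lit 0), [⟨(nat_lit 0), (nat_lit 100), (nat_lit 76), (nat_lit 65), (nat_lit 381905183)⟩], [⟨(nat_lit 0), (nat_lit 100), (nat_lit 76), (nat_lit 65), (nat_lit 375835906)⟩], [], [],
 ⟨⟨[(nat_lit 40), (nat_lit 80), (nat_lit 100)], [(nat_lit 0), (nat_lit 0), (nat_lit 1280)], [((nat_lit 0), (nat_lit 0), (nat_lit 0)), ((nat_lit 0), (nat_lit 0), (nat_lit 0)), ((nat_lit 1000), (nat_lit 800), (nat_lit 600))], ((nat_lit 82), (nat_lit 100), (nat_lit 44))⟩, (nat_lit 0), (nat_lit 223), (nat_lit 223), (nat_lit 0), (nat_lit 104781), [(nat_lit 1925426312), (nat_lit 695841140), (nat_lit 0)], [(nat_lit 0), (nat_lit 0), (nat_lit 941572000)], [(nat_lit 20005075400), (nat_lit 22480385519), (nat_lit 16975285472),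 (nat_lit 19371302674), (nat_lit 16975285472), (nat_lit 19371302674), (nat_lit 14706801328), (nat_lit 16848385804)], (nat_lit 1271251), (nat_lit 1271251), (nat_lit 111251), (nat_lit 490000), (nat_lit 111251), (nat_lit 490000), [(nat_lit 490000), (nat_lit 1100000), (nat_lit 1442501)], [(nat_lit 3), (nat_lit 50), (nat_lit 249), (nat_lit 40), (nat_lit 10)]⟩,
 Rw.none,
 Rw.none⟩)) (.trZ (nat_lit 0) (nat_lit 1) (nat_lit 3) (nat_lit 100) (nat_lit 80) (nat_lit 68) (nat_lit 50) (.leaf ⟨(nat_lit 1000), (nat_lit 0), (nat_lit 0), (nat_lit 0), (nat_lit 2552), (nat_lit 4331), (nat_lit 0), (nat_lit 0), (nat_lit 0), (nat_lit 33403372661), (nat_lit 942000), [((nat_lit 340), [((nat_lit 37), (nat_lit 2), (nat_lit 145)), ((nat_lit 18), (nat_lit 2), (nat_lit 855))])], ⟨(nat_lit 5), false, false, false, (nat_lit 124), (nat_lit 3872), (nat_lit 4473), [(nat_lit 1266601), (nat_lit 1279790), (nat_lit 1288150), (nat_lit 1301566), (nat_lit 1317591), (nat_lit 1328187), (nat_lit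 1339140), (nat_lit 1349963)]⟩, ⟨(nat_lit 4), false, false, false, (nat_lit 105), (nat_lit 3872), (nat_lit 4473), [(nat_lit 1172511), (nat_lit 1187839), (nat_lit 1237161), (nat_lit 1253169), (nat_lit 1274489), (nat_lit 1284632), (nat_lit 1339140), (nat_lit 1349963)]⟩, (nat_lit 3000971), (nat_lit 55838174), (nat_lit 6276192), (nat_lit 4885634), (nat_lit 0), (nat_lit 0), [⟨(nat_lit 0), (nat_lit 100), (nat_lit 77), (nat_lit 77), (nat_lit 393868690)⟩], [⟨(nat_lit 0), (nat_lit 100), (nat_lit 76), (nat_lit 69), (nat_lit 413097802)⟩], [], [],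
 ⟨⟨[(nat_lit 40), (nat_lit 80), (nat_lit 100)], [(nat_lit 0), (nat_lit 0), (nat_lit 1280)], [((nat_lit 0), (nat_lit 0), (nat_lit 0)), ((nat_lit 0), (nat_lit 0), (nat_lit 0)), ((nat_lit 1000), (nat_lit 800), (nat_lit 600))], ((nat_lit 82), (nat_lit 100), (nat_lit 44))⟩, (nat_lit 0), (nat_lit 208), (nat_lit 208), (nat_lit 0), (nat_lit 130425), [(nat_lit 1802453280), (nat_lit 1004370786), (nat_lit 0)], [(nat_lit 0), (nat_lit 0), (nat_lit 212360000)], [(nat_lit 18932767030), (nat_lit 21454619102), (nat_lit 17303675296), (nat_lit 19784377607), (nat_lit 15988490668), (nat_lit 18422048027), (nat_lit 14674187662), (nat_lit 17059718447)], (nat_lit 1271251), (nat_lit 1271251), (nat_lit 292188), (nat_lit 490000), (nat_lit 111251), (nat_lit 490000), [(nat_lit 490000), (nat_lit 1100000), (nat_lit 1442501)], [(nat_lit 3), (nat_lit 50), (nat_lit 249), (nat_lit 40), (nat_lit 10)]⟩,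
 Rw.none,
 Rw.none⟩))) (.leaf ⟨(nat_lit 1000), (nat_lit 0), (nat_lit 0), (nat_lit 0), (nat_lit 9692), (nat_lit 4630), (nat_lit 0), (nat_lit 0), (nat_lit 0), (nat_lit 399759377196), (nat_lit 780400), [((nat_lit 340), [((nat_lit 37), (nat_lit 2), (nat_lit 549)), ((nat_lit 18), (nat_lit 2), (nat_lit 451))])], ⟨(nat_lit 4), false, false, false, (nat_lit 105), (nat_lit 3872), (nat_lit 4473), [(nat_lit 1172511), (nat_lit 1187839), (nat_lit 1237161), (nat_lit 1253169), (nat_lit 1274489), (nat_lit 1284632), (nat_lit 1339140), (nat_lit 1349963)]⟩, ⟨(nat_lit 4), false, false, false, (nat_lit 105), (nat_lit 3872), (nat_lit 4473), [(nat_lit 1172511), (nat_lit 1187839), (nat_lit 1237161), (nat_lit 1253169), (nat_lit 1274489), (nat_lit 1284632), (nat_lit 1339140), (nat_lit 1349963)]⟩, (nat_lit 2722819), (nat_lit 57322334), (nat_lit 4838833), (nat_lit 4838833), (nat_lit 0), (nat_lit 0), [⟨(nat_lit 0), (nat_lit 100), (nat_lit 76), (nat_lit 69), (nat_lit 446745882)⟩],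 [⟨(nat_lit 0), (nat_lit 100), (nat_lit 76), (nat_lit 69), (nat_lit 435749060)⟩], [], [],
 ⟨⟨[(nat_lit 40), (nat_lit 80), (nat_lit 100)], [(nat_lit 0), (nat_lit 0), (nat_lit 1280)], [((nat_lit 0), (nat_lit 0), (nat_lit 0)), ((nat_lit 0), (nat_lit 0), (nat_lit 0)), ((nat_lit 1000), (nat_lit 800), (nat_lit 600))], ((nat_lit 80), (nat_lit 100), (nat_lit 57))⟩, (nat_lit 0), (nat_lit 212), (nat_lit 212), (nat_lit 0), (nat_lit 37196), [(nat_lit 1696107946), (nat_lit 1277003493), (nat_lit 430808000)], [(nat_lit 0), (nat_lit 0), (nat_lit 0)], [(nat_lit 21258420375), (nat_lit 23931128579), (nat_lit 17714506080), (nat_lit 20301153360), (nat_lit 17714506080), (nat_lit 20301153360), (nat_lit 14837000519), (nat_lit 17324105310)], (nat_lit 1271251), (nat_lit 1271251), (nat_lit 111251), (nat_lit 490000), (nat_lit 111251), (nat_lit 490000), [(nat_lit 490000), (nat_lit 1100000), (nat_lit 1442501)], [(nat_lit 3), (nat_lit 50), (nat_lit 249), (nat_lit 40), (nat_lit 10)]⟩,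
 Rw.none,
 Rw.none⟩)) (.leaf ⟨(nat_lit 1000), (nat_lit 0), (nat_lit 0), (nat_lit 0), (nat_lit 3039), (nat_lit 4630), (nat_lit 0), (nat_lit 0), (nat_lit 0), (nat_lit 78454), (nat_lit 780400), [((nat_lit 340), [((nat_lit 37), (nat_lit 2), (nat_lit 549)), ((nat_lit 18), (nat_lit 2), (nat_lit 451))])], ⟨(nat_lit 4), false, false, false, (nat_lit 138), (nat_lit 3872), (nat_lit 4473), [(nat_lit 1274489), (nat_lit 1284632), (nat_lit 1339140), (nat_lit 1349963), (nat_lit 1342475), (nat_lit 1349162), (nat_lit 1407125), (nat_lit 1414492)]⟩, ⟨(nat_lit 4), false, false, false, (nat_lit 105), (nat_lit 3872), (nat_lit 4473), [(nat_lit 1172511), (nat_lit 1187839), (nat_lit 1237161), (nat_lit 1253169), (nat_lit 1274489), (nat_lit 1284632), (nat_lit 1339140), (nat_lit 1349963)]⟩, (nat_lit 3205770), (nat_lit 54614319), (nat_lit 7480828), (nat_lit 4904853), (nat_lit 0), (nat_lit 0), [], [⟨(nat_lit 0), (nat_lit 100), (nat_lit 76), (nat_lit 69), (nat_lit 309787989)⟩, ⟨(nat_lit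 0), (nat_lit 100), (nat_lit 73), (nat_lit 85), (nat_lit 100485893)⟩], [], [],
 ⟨⟨[(nat_lit 40), (nat_lit 80), (nat_lit 100)], [(nat_lit 0), (nat_lit 0), (nat_lit 1280)], [((nat_lit 0), (nat_lit 0), (nat_lit 0)), ((nat_lit 0), (nat_lit 0), (nat_lit 0)), ((nat_lit 1000), (nat_lit 800), (nat_lit 600))], ((nat_lit 80), (nat_lit 100), (nat_lit 57))⟩, (nat_lit 0), (nat_lit 190), (nat_lit 190), (nat_lit 0), (nat_lit 132922), [(nat_lit 1696107898), (nat_lit 1277003514), (nat_lit 430808000)], [(nat_lit 0), (nat_lit 0), (nat_lit 0)], [(nat_lit 17714506080), (nat_lit 20301153360), (nat_lit 17933338710), (nat_lit 20386504015), (nat_lit 14837000492), (nat_lit 17324105310), (nat_lit 15262124132), (nat_lit 17567106310)], (nat_lit 1271251), (nat_lit 1271251), (nat_lit 490000), (nat_lit 780000), (nat_lit 111251), (nat_lit 490000), [(nat_lit 490000), (nat_lit 1100000), (nat_lit 1442501)], [(nat_lit 3), (nat_lit 50), (nat_lit 260), (nat_lit 50), (nat_lit 10)]⟩,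
 Rw.none,
 Rw.none⟩)) (.spl (nat_lit 3) (nat_lit 80) (.leaf ⟨(nat_lit 1000), (nat_lit 0), (nat_lit 0), (nat_lit 0), (nat_lit 3418), (nat_lit 4630), (nat_lit 0), (nat_lit 0), (nat_lit 0), (nat_lit 5383669218725), (nat_lit 780400), [((nat_lit 340), [((nat_lit 37), (nat_lit 2), (nat_lit 549)), ((nat_lit 18), (nat_lit 2), (nat_lit 451))])], ⟨(nat_lit 4), false, false, false, (nat_lit 105), (nat_lit 3872), (nat_lit 4473), [(nat_lit 1172511), (nat_lit 1187839), (nat_lit 1237161), (nat_lit 1253169), (nat_lit 1274489), (nat_lit 1284632), (nat_lit 1339140), (nat_lit 1349963)]⟩, ⟨(nat_lit 4), false, false, false, (nat_lit 138), (nat_lit 3872), (nat_lit 4473), [(nat_lit 1274489), (nat_lit 1284632), (nat_lit 1339140), (nat_lit 1349963), (nat_lit 1342475), (nat_lit 1349162), (nat_lit 1407125), (nat_lit 1414492)]⟩, (nat_lit 3205770), (nat_lit 54614319), (nat_lit 4904853), (nat_lit 7480828), (nat_lit 0), (nat_lit 0), [⟨(nat_lit 0), (nat_lit 100), (nat_lit 73), (nat_lit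 85), (nat_lit 423004873)⟩], [], [], [],
 ⟨⟨[(nat_lit 40), (nat_lit 80), (nat_lit 100)], [(nat_lit 0), (nat_lit 0), (nat_lit 1280)], [((nat_lit 0), (nat_lit 0), (nat_lit 0)), ((nat_lit 0), (nat_lit 0), (nat_lit 0)), ((nat_lit 1000), (nat_lit 800), (nat_lit 600))], ((nat_lit 80), (nat_lit 100), (nat_lit 57))⟩, (nat_lit 0), (nat_lit 190), (nat_lit 190), (nat_lit 0), (nat_lit 132922), [(nat_lit 1696107836), (nat_lit 1277003573), (nat_lit 430808000)], [(nat_lit 0), (nat_lit 0), (nat_lit 0)], [(nat_lit 17714506080), (nat_lit 20301153360), (nat_lit 14837000489), (nat_lit 17324105310), (nat_lit 17933338710), (nat_lit 20386504015), (nat_lit 15262124129), (nat_lit 17567106310)], (nat_lit 1271251), (nat_lit 1271251), (nat_lit 111251), (nat_lit 490000), (nat_lit 490000), (nat_lit 780000), [(nat_lit 490000), (nat_lit 1100000), (nat_lit 1442501)], [(nat_lit 3), (nat_lit 50), (nat_lit 260), (nat_lit 50), (nat_lit 10)]⟩,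
 Rw.none,
 Rw.none⟩) (.leaf ⟨(nat_lit 1000), (nat_lit 0), (nat_lit 0), (nat_lit 0), (nat_lit 3059), (nat_lit 3886), (nat_lit 0), (nat_lit 0), (nat_lit 0), (nat_lit 1451280161752), (nat_lit 849200), [((nat_lit 340), [((nat_lit 37), (nat_lit 2), (nat_lit 377)), ((nat_lit 18), (nat_lit 2), (nat_lit 623))])], ⟨(nat_lit 4), false, false, false, (nat_lit 138), (nat_lit 3872), (nat_lit 4473), [(nat_lit 1274489), (nat_lit 1284632), (nat_lit 1339140), (nat_lit 1349963), (nat_lit 1342475), (nat_lit 1349162), (nat_lit 1407125), (nat_lit 1414492)]⟩, ⟨(nat_lit 4), false, false, false, (nat_lit 138), (nat_lit 3872), (nat_lit 4473), [(nat_lit 1274489), (nat_lit 1284632), (nat_lit 1339140), (nat_lit 1349963), (nat_lit 1342475), (nat_lit 1349162), (nat_lit 1407125), (nat_lit 1414492)]⟩, (nat_lit 3661223), (nat_lit 52054368), (nat_lit 7472816), (nat_lit 7472816), (nat_lit 0), (nat_lit 0), [⟨(nat_lit 0), (nat_lit 100), (nat_lit 73), (nat_lit 85), (nat_lit 14706756)⟩],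 [⟨(nat_lit 0), (nat_lit 100), (nat_lit 73), (nat_lit 85), (nat_lit 14706513)⟩], [], [],
 ⟨⟨[(nat_lit 40), (nat_lit 80), (nat_lit 100)], [(nat_lit 0), (nat_lit 0), (nat_lit 1280)], [((nat_lit 0), (nat_lit 0), (nat_lit 0)), ((nat_lit 0), (nat_lit 0), (nat_lit 0)), ((nat_lit 1000), (nat_lit 800), (nat_lit 600))], ((nat_lit 80), (nat_lit 100), (nat_lit 57))⟩, (nat_lit 0), (nat_lit 160), (nat_lit 160), (nat_lit 0), (nat_lit 132922), [(nat_lit 1567839741), (nat_lit 1334382791), (nat_lit 156984000)], [(nat_lit 0), (nat_lit 0), (nat_lit 0)], [(nat_lit 14902851064), (nat_lit 16666232982), (nat_lit 15429834109), (nat_lit 17077035321), (nat_lit 15429834109), (nat_lit 17077035321), (nat_lit 15944358847), (nat_lit 17488348952)], (nat_lit 1271251), (nat_lit 1271251), (nat_lit 490000), (nat_lit 780000), (nat_lit 490000), (nat_lit 780000), [(nat_lit 490000), (nat_lit 1100000), (nat_lit 1442501)], [(nat_lit 3), (nat_lit 50), (nat_lit 272), (nat_lit 60), (nat_lit 10)]⟩,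
 Rw.none,
 Rw.none⟩))))))
noncomputable def c10_2 : Tr Lf :=
 (.spl (nat_lit 2) (nat_lit 180) (.spl (nat_lit 1) (nat_lit 180) (.spl (nat_lit 6) (nat_lit 28) (.leaf ⟨(nat_lit 1000), (nat_lit 0), (nat_lit 0), (nat_lit 0), (nat_lit 3861), (nat_lit 3523), (nat_lit 0), (nat_lit 0), (nat_lit 0), (nat_lit 1453388257518), (nat_lit 954800), [((nat_lit 340), [((nat_lit 37), (nat_lit 2), (nat_lit 113)), ((nat_lit 18), (nat_lit 2), (nat_lit 887))])], ⟨(nat_lit 3), false, false, false, (nat_lit 86), (nat_lit 3872), (nat_lit 4473), [(nat_lit 1073842), (nat_lit 1090218), (nat_lit 1138518), (nat_lit 1155575), (nat_lit 1277776), (nat_lit 1283782), (nat_lit 1342475), (nat_lit 1349162)]⟩, ⟨(nat_lit 3), false, false, true, (nat_lit 152), (nat_lit 3872), (nat_lit 4473), [(nat_lit 1277776), (nat_lit 1283782), (nat_lit 1342475), (nat_lit 1349162), (nat_lit 1413733), (nat_lit 1412825), (nat_lit 1478432), (nat_lit 1478205)]⟩, (nat_lit 3104142), (nat_lit 54742048), (nat_lit 3591377),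 (nat_lit 8666575), (nat_lit 0), (nat_lit 0), [⟨(nat_lit 0), (nat_lit 100), (nat_lit 72), (nat_lit 63), (nat_lit 80670693)⟩], [], [], [],
 ⟨⟨[(nat_lit 40), (nat_lit 80), (nat_lit 100)], [(nat_lit 0), (nat_lit 0), (nat_lit 1280)], [((nat_lit 0), (nat_lit 0), (nat_lit 0)), ((nat_lit 0), (nat_lit 0), (nat_lit 0)), ((nat_lit 1000), (nat_lit 800), (nat_lit 600))], ((nat_lit 80), (nat_lit 100), (nat_lit 51))⟩, (nat_lit 0), (nat_lit 209), (nat_lit 209), (nat_lit 0), (nat_lit 197091), [(nat_lit 1810970325), (nat_lit 982697442), (nat_lit 0)], [(nat_lit 0), (nat_lit 0), (nat_lit 263304000)], [(nat_lit 17928561769), (nat_lit 19364908118), (nat_lit 17570510006), (nat_lit 18851284747), (nat_lit 19754903353), (nat_lit 21031118792), (nat_lit 19260656490), (nat_lit 20402017692)], (nat_lit 1271251), (nat_lit 1271251), (nat_lit 0), (nat_lit 780000), (nat_lit 780000), (nat_lit 1435001), [(nat_lit 490000), (nat_lit 1100000), (nat_lit 1442501)], [(nat_lit 3), (nat_lit 50),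 (nat_lit 317), (nat_lit 100), (nat_lit 12)]⟩,
 Rw.none,
 Rw.none⟩) (.dle (nat_lit 0))) (.trZ (nat_lit 0) (nat_lit 1) (nat_lit 3) (nat_lit 100) (nat_lit 80) (nat_lit 52) (nat_lit 20) (.leaf ⟨(nat_lit 1000), (nat_lit 0), (nat_lit 0), (nat_lit 0), (nat_lit 1968), (nat_lit 4347), (nat_lit 0), (nat_lit 0), (nat_lit 0), (nat_lit 0), (nat_lit 818000), [((nat_lit 340), [((nat_lit 37), (nat_lit 2), (nat_lit 455)), ((nat_lit 18), (nat_lit 2), (nat_lit 545))])], ⟨(nat_lit 4), false, false, false, (nat_lit 118), (nat_lit 3872), (nat_lit 4473), [(nat_lit 1172511), (nat_lit 1187839), (nat_lit 1237161), (nat_lit 1253169), (nat_lit 1342475), (nat_lit 1349162), (nat_lit 1407125), (nat_lit 1414492)]⟩, ⟨(nat_lit 3), false, false, true, (nat_lit 152), (nat_lit 3872), (nat_lit 4473), [(nat_lit 1277776), (nat_lit 1283782), (nat_lit 1342475), (nat_lit 1349162), (nat_lit 1413733), (nat_lit 1412825), (nat_lit 1478432), (nat_lit 1478205)]⟩, (nat_lit 3572416), (nat_lit 52447804),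 (nat_lit 5884918), (nat_lit 8667278), (nat_lit 0), (nat_lit 0), [⟨(nat_lit 0), (nat_lit 100), (nat_lit 73), (nat_lit 85), (nat_lit 230715476)⟩], [], [], [],
 ⟨⟨[(nat_lit 40), (nat_lit 80), (nat_lit 100)], [(nat_lit 0), (nat_lit 0), (nat_lit 1280)], [((nat_lit 0), (nat_lit 0), (nat_lit 0)), ((nat_lit 0), (nat_lit 0), (nat_lit 0)), ((nat_lit 1000), (nat_lit 800), (nat_lit 600))], ((nat_lit 80), (nat_lit 100), (nat_lit 57))⟩, (nat_lit 0), (nat_lit 203), (nat_lit 203), (nat_lit 0), (nat_lit 225105), [(nat_lit 1720680467), (nat_lit 1213615862), (nat_lit 281160000)], [(nat_lit 0), (nat_lit 0), (nat_lit 0)], [(nat_lit 17592983949), (nat_lit 19952098166), (nat_lit 16132170099), (nat_lit 17661541978), (nat_lit 19525776490), (nat_lit 21595550586), (nat_lit 17624895800), (nat_lit 19414010857)], (nat_lit 1271251), (nat_lit 1271251), (nat_lit 111251), (nat_lit 780000), (nat_lit 780000), (nat_lit 1435001), [(nat_lit 490000), (nat_lit 1100000), (nat_lit 1442501)],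 [(nat_lit 3), (nat_lit 50), (nat_lit 317), (nat_lit 100), (nat_lit 12)]⟩,
 Rw.none,
 Rw.none⟩))) (.ord (.trZ (nat_lit 0) (nat_lit 1) (nat_lit 3) (nat_lit 100) (nat_lit 80) (nat_lit 52) (nat_lit 20) (.spl (nat_lit 3) (nat_lit 80) (.spl (nat_lit 6) (nat_lit 20) (.leaf ⟨(nat_lit 970), (nat_lit 0), (nat_lit 0), (nat_lit 30), (nat_lit 0), (nat_lit 4217), (nat_lit 399), (nat_lit 623), (nat_lit 0), (nat_lit 3977342954449), (nat_lit 935600), [((nat_lit 340), [((nat_lit 37), (nat_lit 2), (nat_lit 86)), ((nat_lit 18), (nat_lit 2), (nat_lit 884))])], ⟨(nat_lit 4), false, false, false, (nat_lit 105), (nat_lit 3872), (nat_lit 4473), [(nat_lit 1172511), (nat_lit 1187839), (nat_lit 1237161), (nat_lit 1253169), (nat_lit 1274489), (nat_lit 1284632), (nat_lit 1339140), (nat_lit 1349963)]⟩, ⟨(nat_lit 4), false, false, false, (nat_lit 178), (nat_lit 3872), (nat_lit 4473), [(nat_lit 1342475), (nat_lit 1349162), (nat_lit 1407125), (nat_lit 1414492), (nat_lit 1478432), (nat_lit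 1478205), (nat_lit 1543097), (nat_lit 1543551)]⟩, (nat_lit 3697951), (nat_lit 51058380), (nat_lit 4883742), (nat_lit 11057878), (nat_lit 0), (nat_lit 0), [⟨(nat_lit 0), (nat_lit 100), (nat_lit 76), (nat_lit 69), (nat_lit 431866260)⟩], [], [], [],
 ⟨⟨[(nat_lit 40), (nat_lit 80), (nat_lit 100)], [(nat_lit 0), (nat_lit 0), (nat_lit 1280)], [((nat_lit 0), (nat_lit 0), (nat_lit 0)), ((nat_lit 0), (nat_lit 0), (nat_lit 0)), ((nat_lit 1000), (nat_lit 800), (nat_lit 600))], ((nat_lit 82), (nat_lit 100), (nat_lit 44))⟩, (nat_lit 0), (nat_lit 210), (nat_lit 210), (nat_lit 0), (nat_lit 246135), [(nat_lit 1820322024), (nat_lit 1076745199), (nat_lit 0)], [(nat_lit 0), (nat_lit 0), (nat_lit 105492000)], [(nat_lit 17436637239), (nat_lit 19752547776), (nat_lit 15618741612), (nat_lit 17268079029), (nat_lit 19379049390), (nat_lit 21412198245), (nat_lit 17374939830), (nat_lit 19084512543)], (nat_lit 1271251), (nat_lit 1271251), (nat_lit 111251), (nat_lit 490000), (nat_lit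 780000), (nat_lit 1435001), [(nat_lit 490000), (nat_lit 1100000), (nat_lit 1442501)], [(nat_lit 3), (nat_lit 50), (nat_lit 289), (nat_lit 75), (nat_lit 11)]⟩,
 ⟨⟨[(nat_lit 120), (nat_lit 140), (nat_lit 160)], [(nat_lit 0), (nat_lit 266), (nat_lit 862)], [((nat_lit 0), (nat_lit 0), (nat_lit 0)), ((nat_lit 960), (nat_lit 1000), (nat_lit 200)), ((nat_lit 874), (nat_lit 1000), (nat_lit 406))], ((nat_lit 100), (nat_lit 86), (nat_lit 44))⟩, (nat_lit 287568), (nat_lit 687), (nat_lit 687), (nat_lit 0), (nat_lit 602290), [(nat_lit 239040000), (nat_lit 295260000), (nat_lit 356160000)], [], [(nat_lit 2119601973), (nat_lit 1476737262), (nat_lit 1476737262), (nat_lit 849040500), (nat_lit 1739756310), (nat_lit 1465904121), (nat_lit 1833098958), (nat_lit 1287518328)], (nat_lit 1271251), (nat_lit 1271251), (nat_lit 111251), (nat_lit 490000), (nat_lit 0), (nat_lit 2825001), [(nat_lit 1695001), (nat_lit 1271251), (nat_lit 1271251)], [(nat_lit 27), (nat_lit 62), (nat_lit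 428), (nat_lit 200), (nat_lit 12)]⟩,
 ⟨⟨[(nat_lit 120), (nat_lit 140), (nat_lit 160)], [(nat_lit 0), (nat_lit 266), (nat_lit 862)], [((nat_lit 0), (nat_lit 0), (nat_lit 0)), ((nat_lit 960), (nat_lit 1000), (nat_lit 200)), ((nat_lit 874), (nat_lit 1000), (nat_lit 406))], ((nat_lit 100), (nat_lit 86), (nat_lit 44))⟩, (nat_lit 61579), (nat_lit 300), (nat_lit 847), (nat_lit 1992000), (nat_lit 1110932), [(nat_lit 239040000), (nat_lit 295260000), (nat_lit 356160000)], [], [(nat_lit 1095894127), (nat_lit 1123936192), (nat_lit 1382059167), (nat_lit 1034762920), (nat_lit 2281984242), (nat_lit 1440968818), (nat_lit 2878542512), (nat_lit 2058675758)], (nat_lit 1271251), (nat_lit 1271251), (nat_lit 780000), (nat_lit 1435001), (nat_lit 0), (nat_lit 2825001), [(nat_lit 1695001), (nat_lit 1271251), (nat_lit 1271251)], [(nat_lit 27), (nat_lit 62), (nat_lit 456), (nat_lit 225), (nat_lit 12)]⟩⟩) (.leaf ⟨(nat_lit 970), (nat_lit 0), (nat_lit 0), (nat_lit 30), (nat_lit 10419),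 (nat_lit 3946), (nat_lit 451), (nat_lit 733), (nat_lit 0), (nat_lit 5821549360911), (nat_lit 816400), [((nat_lit 340), [((nat_lit 37), (nat_lit 2), (nat_lit 384)), ((nat_lit 18), (nat_lit 2), (nat_lit 586))])], ⟨(nat_lit 4), false, false, false, (nat_lit 105), (nat_lit 3872), (nat_lit 4473), [(nat_lit 1172511), (nat_lit 1187839), (nat_lit 1237161), (nat_lit 1253169), (nat_lit 1274489), (nat_lit 1284632), (nat_lit 1339140), (nat_lit 1349963)]⟩, ⟨(nat_lit 4), false, false, false, (nat_lit 178), (nat_lit 3872), (nat_lit 4473), [(nat_lit 1342475), (nat_lit 1349162), (nat_lit 1407125), (nat_lit 1414492), (nat_lit 1478432), (nat_lit 1478205), (nat_lit 1543097), (nat_lit 1543551)]⟩, (nat_lit 3697951), (nat_lit 51058380), (nat_lit 4883742), (nat_lit 11057878), (nat_lit 0), (nat_lit 0), [⟨(nat_lit 0), (nat_lit 100), (nat_lit 73), (nat_lit 85), (nat_lit 573998299)⟩], [], [⟨(nat_lit 0), (nat_lit 100), (nat_lit 100), (nat_lit 40), (nat_lit 4408579)⟩], [],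
 ⟨⟨[(nat_lit 40), (nat_lit 80), (nat_lit 100)], [(nat_lit 0), (nat_lit 0), (nat_lit 1280)], [((nat_lit 0), (nat_lit 0), (nat_lit 0)), ((nat_lit 0), (nat_lit 0), (nat_lit 0)), ((nat_lit 1000), (nat_lit 800), (nat_lit 600))], ((nat_lit 80), (nat_lit 100), (nat_lit 57))⟩, (nat_lit 0), (nat_lit 165), (nat_lit 165), (nat_lit 0), (nat_lit 68105), [(nat_lit 1586222360), (nat_lit 1433382517), (nat_lit 368924000)], [(nat_lit 0), (nat_lit 0), (nat_lit 0)], [(nat_lit 17110714482), (nat_lit 19336561963), (nat_lit 15575886008), (nat_lit 17263521731), (nat_lit 19073179820), (nat_lit 21029979134), (nat_lit 17418309984), (nat_lit 18911435056)], (nat_lit 1271251), (nat_lit 1271251), (nat_lit 111251), (nat_lit 490000), (nat_lit 780000), (nat_lit 1435001), [(nat_lit 490000), (nat_lit 1100000), (nat_lit 1442501)], [(nat_lit 3), (nat_lit 50), (nat_lit 289), (nat_lit 75), (nat_lit 11)]⟩,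
 ⟨⟨[(nat_lit 120), (nat_lit 160), (nat_lit 180)], [(nat_lit 0), (nat_lit 533), (nat_lit 2066)], [((nat_lit 0), (nat_lit 0), (nat_lit 0)), ((nat_lit 960), (nat_lit 1000), (nat_lit 200)), ((nat_lit 615), (nat_lit 1000), (nat_lit 729))], ((nat_lit 100), (nat_lit 76), (nat_lit 58))⟩, (nat_lit 479199), (nat_lit 556), (nat_lit 556), (nat_lit 0), (nat_lit 129825), [(nat_lit 239040000), (nat_lit 356160000), (nat_lit 421740000)], [], [(nat_lit 2255339016), (nat_lit 1528692438), (nat_lit 1528692438), (nat_lit 818694864), (nat_lit 1792873790), (nat_lit 1582307109), (nat_lit 1892458102), (nat_lit 1275774232)], (nat_lit 1271251), (nat_lit 1271251), (nat_lit 111251), (nat_lit 490000), (nat_lit 0), (nat_lit 2825001), [(nat_lit 1695001), (nat_lit 1271251), (nat_lit 1271251)], [(nat_lit 28), (nat_lit 65), (nat_lit 428), (nat_lit 200), (nat_lit 10)]⟩,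
 ⟨⟨[(nat_lit 120), (nat_lit 160), (nat_lit 180)], [(nat_lit 0), (nat_lit 533), (nat_lit 2066)], [((nat_lit 0), (nat_lit 0), (nat_lit 0)), ((nat_lit 960), (nat_lit 1000), (nat_lit 200)), ((nat_lit 615), (nat_lit 1000), (nat_lit 729))], ((nat_lit 100), (nat_lit 76), (nat_lit 58))⟩, (nat_lit 70244), (nat_lit 300), (nat_lit 480), (nat_lit 1992000), (nat_lit 225955), [(nat_lit 239040000), (nat_lit 356160000), (nat_lit 421740000)], [], [(nat_lit 1800396835), (nat_lit 1503405686), (nat_lit 1422673972), (nat_lit 1334674556), (nat_lit 2435516797), (nat_lit 1523290790), (nat_lit 3123528352), (nat_lit 2158901818)], (nat_lit 1271251), (nat_lit 1271251), (nat_lit 780000), (nat_lit 1435001), (nat_lit 0), (nat_lit 2825001), [(nat_lit 1695001), (nat_lit 1271251), (nat_lit 1271251)], [(nat_lit 28), (nat_lit 65), (nat_lit 456), (nat_lit 225), (nat_lit 11)]⟩⟩)) (.spl (nat_lit 0) (nat_lit 330) (.spl (nat_lit 6) (nat_lit 24) (.leaf ⟨(nat_lit 918), (nat_lit 25), (nat_lit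 0), (nat_lit 57), (nat_lit 439), (nat_lit 4130), (nat_lit 1228), (nat_lit 879), (nat_lit 0), (nat_lit 1803923189457), (nat_lit 948000), [((nat_lit 330), [((nat_lit 18), (nat_lit 2), (nat_lit 908)), ((nat_lit 37), (nat_lit 5), (nat_lit 10))])], ⟨(nat_lit 4), false, false, false, (nat_lit 137), (nat_lit 4183), (nat_lit 4473), [(nat_lit 1274498), (nat_lit 1279565), (nat_lit 1339187), (nat_lit 1344555), (nat_lit 1342476), (nat_lit 1345821), (nat_lit 1407167), (nat_lit 1410812)]⟩, ⟨(nat_lit 4), false, false, false, (nat_lit 177), (nat_lit 4183), (nat_lit 4473), [(nat_lit 1342476), (nat_lit 1345821), (nat_lit 1407167), (nat_lit 1410812), (nat_lit 1478432), (nat_lit 1478332), (nat_lit 1543125), (nat_lit 1543325)]⟩, (nat_lit 4105669), (nat_lit 48828493), (nat_lit 7285537), (nat_lit 10885970), (nat_lit 4), (nat_lit 0), [], [], [⟨(nat_lit 0), (nat_lit 100), (nat_lit 100), (nat_lit 40), (nat_lit 110534)⟩], [],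
 ⟨⟨[(nat_lit 40), (nat_lit 80), (nat_lit 100)], [(nat_lit 0), (nat_lit 0), (nat_lit 1280)], [((nat_lit 0), (nat_lit 0), (nat_lit 0)), ((nat_lit 0), (nat_lit 0), (nat_lit 0)), ((nat_lit 1000), (nat_lit 800), (nat_lit 600))], ((nat_lit 81), (nat_lit 100), (nat_lit 48))⟩, (nat_lit 0), (nat_lit 145), (nat_lit 145), (nat_lit 0), (nat_lit 206577), [(nat_lit 1708105532), (nat_lit 1322088737), (nat_lit 0)], [(nat_lit 0), (nat_lit 0), (nat_lit 13017600)], [(nat_lit 15072713009), (nat_lit 16105885125), (nat_lit 15628209439), (nat_lit 16495562232), (nat_lit 17098153860), (nat_lit 18063481065), (nat_lit 17534338279), (nat_lit 18393089148)], (nat_lit 1271251), (nat_lit 1271251), (nat_lit 490000), (nat_lit 780000), (nat_lit 780000), (nat_lit 1435001), [(nat_lit 490000), (nat_lit 1100000), (nat_lit 1442501)], [(nat_lit 3), (nat_lit 50), (nat_lit 317), (nat_lit 100), (nat_lit 12)]⟩,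
 ⟨⟨[(nat_lit 120), (nat_lit 140), (nat_lit 160)], [(nat_lit 0), (nat_lit 266), (nat_lit 862)], [((nat_lit 0), (nat_lit 0), (nat_lit 0)), ((nat_lit 960), (nat_lit 1000), (nat_lit 200)), ((nat_lit 874), (nat_lit 1000), (nat_lit 406))], ((nat_lit 100), (nat_lit 83), (nat_lit 48))⟩, (nat_lit 802856), (nat_lit 543), (nat_lit 543), (nat_lit 0), (nat_lit 447623), [(nat_lit 653376000), (nat_lit 807044000), (nat_lit 973504000)], [], [(nat_lit 4173696744), (nat_lit 2240851296), (nat_lit 2894375554), (nat_lit 2131698036), (nat_lit 5167315608), (nat_lit 3488185248), (nat_lit 5574628206), (nat_lit 3916896360)], (nat_lit 1271251), (nat_lit 1271251), (nat_lit 490000), (nat_lit 780000), (nat_lit 0), (nat_lit 2825001), [(nat_lit 1695001), (nat_lit 1271251), (nat_lit 1271251)], [(nat_lit 27), (nat_lit 62), (nat_lit 428), (nat_lit 200), (nat_lit 11)]⟩,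
 ⟨⟨[(nat_lit 120), (nat_lit 140), (nat_lit 160)], [(nat_lit 0), (nat_lit 266), (nat_lit 862)], [((nat_lit 0), (nat_lit 0), (nat_lit 0)), ((nat_lit 960), (nat_lit 1000), (nat_lit 200)), ((nat_lit 874), (nat_lit 1000), (nat_lit 406))], ((nat_lit 100), (nat_lit 83), (nat_lit 48))⟩, (nat_lit 63747), (nat_lit 300), (nat_lit 704), (nat_lit 3885981), (nat_lit 812743), [(nat_lit 454176000), (nat_lit 560994000), (nat_lit 676704000)], [], [(nat_lit 2330779452), (nat_lit 2299003098), (nat_lit 2513409407), (nat_lit 2197311252), (nat_lit 3910484882), (nat_lit 2723883666), (nat_lit 4790619996), (nat_lit 3633857754)], (nat_lit 1271251), (nat_lit 1271251), (nat_lit 780000), (nat_lit 1435001), (nat_lit 0), (nat_lit 2825001), [(nat_lit 1695001), (nat_lit 1271251), (nat_lit 1271251)], [(nat_lit 27), (nat_lit 62), (nat_lit 456), (nat_lit 225), (nat_lit 12)]⟩⟩) (.dle (nat_lit 0))) (.leaf ⟨(nat_lit 970), (nat_lit 0), (nat_lit 0), (nat_lit 30), (nat_lit 23), (nat_lit 4181),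 (nat_lit 467), (nat_lit 733), (nat_lit 0), (nat_lit 388105093114), (nat_lit 242500), [((nat_lit 340), [((nat_lit 18), (nat_lit 0), (nat_lit 970))])], ⟨(nat_lit 4), false, false, false, (nat_lit 139), (nat_lit 3872), (nat_lit 4184), [(nat_lit 1279562), (nat_lit 1284637), (nat_lit 1344547), (nat_lit 1350002), (nat_lit 1345820), (nat_lit 1349161), (nat_lit 1410806), (nat_lit 1414527)]⟩, ⟨(nat_lit 4), false, false, false, (nat_lit 178), (nat_lit 3872), (nat_lit 4184), [(nat_lit 1345820), (nat_lit 1349161), (nat_lit 1410806), (nat_lit 1414527), (nat_lit 1478332), (nat_lit 1478205), (nat_lit 1543323), (nat_lit 1543576)]⟩, (nat_lit 4133560), (nat_lit 48639912), (nat_lit 7419909), (nat_lit 10940179), (nat_lit 0), (nat_lit 0), [], [], [⟨(nat_lit 0), (nat_lit 100), (nat_lit 100), (nat_lit 40), (nat_lit 4697918)⟩], [],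
 ⟨⟨[(nat_lit 40), (nat_lit 80), (nat_lit 100)], [(nat_lit 0), (nat_lit 395), (nat_lit 1536)], [((nat_lit 0), (nat_lit 0), (nat_lit 0)), ((nat_lit 1000), (nat_lit 908), (nat_lit 154)), ((nat_lit 1000), (nat_lit 760), (nat_lit 642))], ((nat_lit 76), (nat_lit 100), (nat_lit 58))⟩, (nat_lit 1362698), (nat_lit 145), (nat_lit 145), (nat_lit 0), (nat_lit 245933), [(nat_lit 1603568414), (nat_lit 2243600087), (nat_lit 2672640000)], [(nat_lit 0), (nat_lit 0), (nat_lit 0)], [(nat_lit 16502851777), (nat_lit 17374440376), (nat_lit 16902029213), (nat_lit 17729293962), (nat_lit 18238505366), (nat_lit 19061532719), (nat_lit 18607844839), (nat_lit 19389365154)], (nat_lit 1271251), (nat_lit 1271251), (nat_lit 490000), (nat_lit 780000), (nat_lit 780000), (nat_lit 1435001), [(nat_lit 490000), (nat_lit 1100000), (nat_lit 1442501)], [(nat_lit 3), (nat_lit 50), (nat_lit 317), (nat_lit 100), (nat_lit 12)]⟩,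
 ⟨⟨[(nat_lit 120), (nat_lit 160), (nat_lit 180)], [(nat_lit 0), (nat_lit 533), (nat_lit 2066)], [((nat_lit 0), (nat_lit 0), (nat_lit 0)), ((nat_lit 960), (nat_lit 1000), (nat_lit 200)), ((nat_lit 615), (nat_lit 1000), (nat_lit 729))], ((nat_lit 100), (nat_lit 76), (nat_lit 58))⟩, (nat_lit 457102), (nat_lit 723), (nat_lit 723), (nat_lit 0), (nat_lit 611130), [(nat_lit 239040000), (nat_lit 356160000), (nat_lit 421740000)], [], [(nat_lit 1544678646), (nat_lit 838154688), (nat_lit 1058161549), (nat_lit 795186146), (nat_lit 1910722454), (nat_lit 1272160664), (nat_lit 2064247164), (nat_lit 1433823082)], (nat_lit 1271251), (nat_lit 1271251), (nat_lit 490000), (nat_lit 780000), (nat_lit 0), (nat_lit 2825001), [(nat_lit 1695001), (nat_lit 1271251), (nat_lit 1271251)], [(nat_lit 28), (nat_lit 65), (nat_lit 428), (nat_lit 200), (nat_lit 10)]⟩,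
 ⟨⟨[(nat_lit 120), (nat_lit 160), (nat_lit 180)], [(nat_lit 0), (nat_lit 533), (nat_lit 2066)], [((nat_lit 0), (nat_lit 0), (nat_lit 0)), ((nat_lit 960), (nat_lit 1000), (nat_lit 200)), ((nat_lit 615), (nat_lit 1000), (nat_lit 729))], ((nat_lit 100), (nat_lit 76), (nat_lit 58))⟩, (nat_lit 70244), (nat_lit 300), (nat_lit 929), (nat_lit 1992000), (nat_lit 1120220), [(nat_lit 239040000), (nat_lit 356160000), (nat_lit 421740000)], [], [(nat_lit 1800396835), (nat_lit 1503405686), (nat_lit 1422673972), (nat_lit 1334674556), (nat_lit 2435516797), (nat_lit 1523290790), (nat_lit 3123528352), (nat_lit 2158901818)], (nat_lit 1271251), (nat_lit 1271251), (nat_lit 780000), (nat_lit 1435001), (nat_lit 0), (nat_lit 2825001), [(nat_lit 1695001), (nat_lit 1271251), (nat_lit 1271251)], [(nat_lit 28), (nat_lit 65), (nat_lit 456), (nat_lit 225), (nat_lit 11)]⟩⟩))))))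
noncomputable def c10_3 : Tr Lf :=
 (.spl (nat_lit 2) (nat_lit 180) (.spl (nat_lit 6) (nat_lit 20) (.spl (nat_lit 0) (nat_lit 330) (.leaf ⟨(nat_lit 1000), (nat_lit 0), (nat_lit 0), (nat_lit 0), (nat_lit 1114), (nat_lit 3674), (nat_lit 0), (nat_lit 0), (nat_lit 0), (nat_lit 483396), (nat_lit 1000000), [((nat_lit 330), [((nat_lit 18), (nat_lit 2), (nat_lit 1000))])], ⟨(nat_lit 3), false, false, false, (nat_lit 165), (nat_lit 4183), (nat_lit 4473), [(nat_lit 1277776), (nat_lit 1280820), (nat_lit 1407167), (nat_lit 1410812), (nat_lit 1413733), (nat_lit 1413332), (nat_lit 1543125), (nat_lit 1543325)]⟩, ⟨(nat_lit 3), false, false, false, (nat_lit 84), (nat_lit 4183), (nat_lit 4473), [(nat_lit 1073842), (nat_lit 1082054), (nat_lit 1138540), (nat_lit 1147053), (nat_lit 1277776), (nat_lit 1280820), (nat_lit 1342476), (nat_lit 1345821)]⟩, (nat_lit 3250239), (nat_lit 53641032), (nat_lit 9836423), (nat_lit 3522545), (nat_lit 0), (nat_lit 0), [], [⟨(nat_lit 0), (nat_lit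 100), (nat_lit 76), (nat_lit 57), (nat_lit 90493224)⟩], [], [],
 ⟨⟨[(nat_lit 40), (nat_lit 80), (nat_lit 100)], [(nat_lit 0), (nat_lit 0), (nat_lit 1280)], [((nat_lit 0), (nat_lit 0), (nat_lit 0)), ((nat_lit 0), (nat_lit 0), (nat_lit 0)), ((nat_lit 1000), (nat_lit 800), (nat_lit 600))], ((nat_lit 82), (nat_lit 100), (nat_lit 44))⟩, (nat_lit 0), (nat_lit 212), (nat_lit 212), (nat_lit 0), (nat_lit 230727), [(nat_lit 1840801785), (nat_lit 906399444), (nat_lit 0)], [(nat_lit 0), (nat_lit 0), (nat_lit 443200000)], [(nat_lit 17557359953), (nat_lit 18519022195), (nat_lit 19378601364), (nat_lit 20330726921), (nat_lit 17087737159), (nat_lit 17741471174), (nat_lit 18770047951), (nat_lit 19385605225)], (nat_lit 1271251), (nat_lit 1271251), (nat_lit 780000), (nat_lit 1435001), (nat_lit 0), (nat_lit 780000), [(nat_lit 490000), (nat_lit 1100000), (nat_lit 1442501)], [(nat_lit 3), (nat_lit 50), (nat_lit 317), (nat_lit 100), (nat_lit 12)]⟩,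
 Rw.none,
 Rw.none⟩) (.leaf ⟨(nat_lit 1000), (nat_lit 0), (nat_lit 0), (nat_lit 0), (nat_lit 0), (nat_lit 3241), (nat_lit 0), (nat_lit 0), (nat_lit 0), (nat_lit 25180), (nat_lit 386200), [((nat_lit 340), [((nat_lit 18), (nat_lit 0), (nat_lit 92)), ((nat_lit 18), (nat_lit 1), (nat_lit 908))])], ⟨(nat_lit 3), false, false, false, (nat_lit 165), (nat_lit 3872), (nat_lit 4184), [(nat_lit 1280820), (nat_lit 1283782), (nat_lit 1410806), (nat_lit 1414527), (nat_lit 1413332), (nat_lit 1412825), (nat_lit 1543323), (nat_lit 1543576)]⟩, ⟨(nat_lit 3), false, false, false, (nat_lit 87), (nat_lit 3872), (nat_lit 4184), [(nat_lit 1082054), (nat_lit 1090218), (nat_lit 1147044), (nat_lit 1155588), (nat_lit 1280820), (nat_lit 1283782), (nat_lit 1345820), (nat_lit 1349161)]⟩, (nat_lit 3292125), (nat_lit 53433417), (nat_lit 9896723), (nat_lit 3669860), (nat_lit 0), (nat_lit 0), [], [⟨(nat_lit 0), (nat_lit 100), (nat_lit 72), (nat_lit 63), (nat_lit 55396848)⟩], [], [],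
 ⟨⟨[(nat_lit 40), (nat_lit 60), (nat_lit 80)], [(nat_lit 0), (nat_lit 197), (nat_lit 800)], [((nat_lit 0), (nat_lit 0), (nat_lit 0)), ((nat_lit 1000), (nat_lit 908), (nat_lit 154)), ((nat_lit 1000), (nat_lit 781), (nat_lit 471))], ((nat_lit 79), (nat_lit 100), (nat_lit 45))⟩, (nat_lit 1522614), (nat_lit 189), (nat_lit 189), (nat_lit 0), (nat_lit 283205), [(nat_lit 1351927469), (nat_lit 1689723210), (nat_lit 1945409590)], [(nat_lit 0), (nat_lit 0), (nat_lit 0)], [(nat_lit 17978357999), (nat_lit 18818706825), (nat_lit 19889276539), (nat_lit 20561668332), (nat_lit 17949656961), (nat_lit 18623202766), (nat_lit 19815142563), (nat_lit 20415072200)], (nat_lit 1271251), (nat_lit 1271251), (nat_lit 780000), (nat_lit 1435001), (nat_lit 0), (nat_lit 780000), [(nat_lit 490000), (nat_lit 780000), (nat_lit 1100000)], [(nat_lit 2), (nat_lit 44), (nat_lit 317), (nat_lit 100), (nat_lit 15)]⟩,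
 Rw.none,
 Rw.none⟩)) (.leaf ⟨(nat_lit 1000), (nat_lit 0), (nat_lit 0), (nat_lit 0), (nat_lit 6078), (nat_lit 3449), (nat_lit 0), (nat_lit 0), (nat_lit 0), (nat_lit 2746), (nat_lit 769600), [((nat_lit 340), [((nat_lit 37), (nat_lit 2), (nat_lit 576)), ((nat_lit 18), (nat_lit 2), (nat_lit 424))])], ⟨(nat_lit 3), false, false, false, (nat_lit 165), (nat_lit 3872), (nat_lit 4473), [(nat_lit 1277776), (nat_lit 1283782), (nat_lit 1407125), (nat_lit 1414492), (nat_lit 1413733), (nat_lit 1412825), (nat_lit 1543097), (nat_lit 1543551)]⟩, ⟨(nat_lit 3), false, false, false, (nat_lit 86), (nat_lit 3872), (nat_lit 4473), [(nat_lit 1073842), (nat_lit 1090218), (nat_lit 1138518), (nat_lit 1155575), (nat_lit 1277776), (nat_lit 1283782), (nat_lit 1342475), (nat_lit 1349162)]⟩, (nat_lit 3271054), (nat_lit 53538406), (nat_lit 9865903), (nat_lit 3595691), (nat_lit 0), (nat_lit 0), [], [⟨(nat_lit 0), (nat_lit 100), (nat_lit 78), (nat_lit 45), (nat_lit 70256986)⟩], [], [],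
 ⟨⟨[(nat_lit 40), (nat_lit 80), (nat_lit 100)], [(nat_lit 0), (nat_lit 0), (nat_lit 1280)], [((nat_lit 0), (nat_lit 0), (nat_lit 0)), ((nat_lit 0), (nat_lit 0), (nat_lit 0)), ((nat_lit 1000), (nat_lit 800), (nat_lit 600))], ((nat_lit 80), (nat_lit 100), (nat_lit 57))⟩, (nat_lit 0), (nat_lit 177), (nat_lit 177), (nat_lit 0), (nat_lit 102290), [(nat_lit 1472089601), (nat_lit 1511961602), (nat_lit 473792000)], [(nat_lit 0), (nat_lit 0), (nat_lit 0)], [(nat_lit 17597884992), (nat_lit 19262661717), (nat_lit 19510024478), (nat_lit 20908161211), (nat_lit 17229241512), (nat_lit 18634130401), (nat_lit 19111659310), (nat_lit 20360593363)], (nat_lit 1271251), (nat_lit 1271251), (nat_lit 780000), (nat_lit 1435001), (nat_lit 0), (nat_lit 780000), [(nat_lit 490000), (nat_lit 1100000), (nat_lit 1442501)], [(nat_lit 3), (nat_lit 50), (nat_lit 317), (nat_lit 100), (nat_lit 12)]⟩,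
 Rw.none,
 Rw.none⟩)) (.ord (.trZ (nat_lit 0) (nat_lit 2) (nat_lit 4) (nat_lit 100) (nat_lit 80) (nat_lit 52) (nat_lit 20) (.spl (nat_lit 6) (nat_lit 20) (.spl (nat_lit 4) (nat_lit 80) (.leaf ⟨(nat_lit 958), (nat_lit 15), (nat_lit 0), (nat_lit 27), (nat_lit 0), (nat_lit 4157), (nat_lit 570), (nat_lit 276), (nat_lit 0), (nat_lit 18371), (nat_lit 923600), [((nat_lit 340), [((nat_lit 37), (nat_lit 2), (nat_lit 86)), ((nat_lit 18), (nat_lit 2), (nat_lit 872))])], ⟨(nat_lit 4), false, false, false, (nat_lit 178), (nat_lit 3872), (nat_lit 4473), [(nat_lit 1342475), (nat_lit 1349162), (nat_lit 1407125), (nat_lit 1414492), (nat_lit 1478432), (nat_lit 1478205), (nat_lit 1543097), (nat_lit 1543551)]⟩, ⟨(nat_lit 4), false, false, false, (nat_lit 105), (nat_lit 3872), (nat_lit 4473), [(nat_lit 1172511), (nat_lit 1187839), (nat_lit 1237161), (nat_lit 1253169), (nat_lit 1274489), (nat_lit 1284632), (nat_lit 1339140), (nat_lit 1349963)]⟩, (nat_lit 3697951), (nat_lit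 51058380), (nat_lit 11057878), (nat_lit 4883742), (nat_lit 4), (nat_lit 0), [], [⟨(nat_lit 0), (nat_lit 100), (nat_lit 76), (nat_lit 69), (nat_lit 348911458)⟩], [], [],
 ⟨⟨[(nat_lit 40), (nat_lit 80), (nat_lit 100)], [(nat_lit 0), (nat_lit 0), (nat_lit 1280)], [((nat_lit 0), (nat_lit 0), (nat_lit 0)), ((nat_lit 0), (nat_lit 0), (nat_lit 0)), ((nat_lit 1000), (nat_lit 800), (nat_lit 600))], ((nat_lit 82), (nat_lit 100), (nat_lit 44))⟩, (nat_lit 0), (nat_lit 210), (nat_lit 210), (nat_lit 0), (nat_lit 246135), [(nat_lit 1821212414), (nat_lit 1121656400), (nat_lit 0)], [(nat_lit 0), (nat_lit 0), (nat_lit 25173600)], [(nat_lit 17364477219), (nat_lit 19660447596), (nat_lit 19311329190), (nat_lit 21327574088), (nat_lit 15846970204), (nat_lit 17313298893), (nat_lit 17605415182), (nat_lit 19046095803)], (nat_lit 1271251), (nat_lit 1271251), (nat_lit 780000), (nat_lit 1435001), (nat_lit 111251), (nat_lit 490000), [(nat_lit 490000), (nat_lit 1100000), (nat_lit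 1442501)], [(nat_lit 3), (nat_lit 50), (nat_lit 289), (nat_lit 75), (nat_lit 11)]⟩,
 ⟨⟨[(nat_lit 120), (nat_lit 140), (nat_lit 160)], [(nat_lit 0), (nat_lit 266), (nat_lit 862)], [((nat_lit 0), (nat_lit 0), (nat_lit 0)), ((nat_lit 960), (nat_lit 1000), (nat_lit 200)), ((nat_lit 874), (nat_lit 1000), (nat_lit 406))], ((nat_lit 100), (nat_lit 86), (nat_lit 44))⟩, (nat_lit 401817), (nat_lit 847), (nat_lit 847), (nat_lit 0), (nat_lit 1110932), [(nat_lit 334656000), (nat_lit 413364000), (nat_lit 498624000)], [], [(nat_lit 1485000615), (nat_lit 1125135744), (nat_lit 1823302887), (nat_lit 1103310648), (nat_lit 2772982137), (nat_lit 2003513772), (nat_lit 3356916600), (nat_lit 2606797740)], (nat_lit 1271251), (nat_lit 1271251), (nat_lit 780000), (nat_lit 1435001), (nat_lit 0), (nat_lit 2825001), [(nat_lit 1695001), (nat_lit 1271251), (nat_lit 1271251)], [(nat_lit 27), (nat_lit 62), (nat_lit 456), (nat_lit 225), (nat_lit 12)]⟩,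
 ⟨⟨[(nat_lit 120), (nat_lit 140), (nat_lit 160)], [(nat_lit 0), (nat_lit 266), (nat_lit 862)], [((nat_lit 0), (nat_lit 0), (nat_lit 0)), ((nat_lit 960), (nat_lit 1000), (nat_lit 200)), ((nat_lit 874), (nat_lit 1000), (nat_lit 406))], ((nat_lit 100), (nat_lit 86), (nat_lit 44))⟩, (nat_lit 55421), (nat_lit 300), (nat_lit 687), (nat_lit 1792801), (nat_lit 602290), [(nat_lit 215136000), (nat_lit 265734000), (nat_lit 320544000)], [], [(nat_lit 1690723539), (nat_lit 1515354250), (nat_lit 1412851405), (nat_lit 1395072076), (nat_lit 1480894860), (nat_lit 1292529198), (nat_lit 1554928584), (nat_lit 1177534464)], (nat_lit 1271251), (nat_lit 1271251), (nat_lit 111251), (nat_lit 490000), (nat_lit 0), (nat_lit 2825001), [(nat_lit 1695001), (nat_lit 1271251), (nat_lit 1271251)], [(nat_lit 27), (nat_lit 62), (nat_lit 428), (nat_lit 200), (nat_lit 12)]⟩⟩) (.leaf ⟨(nat_lit 923), (nat_lit 17), (nat_lit 0), (nat_lit 60), (nat_lit 0), (nat_lit 3948), (nat_lit 966), (nat_lit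 1163), (nat_lit 0), (nat_lit 1122607534691), (nat_lit 896600), [((nat_lit 340), [((nat_lit 37), (nat_lit 2), (nat_lit 66)), ((nat_lit 18), (nat_lit 2), (nat_lit 857))])], ⟨(nat_lit 4), false, false, false, (nat_lit 178), (nat_lit 3872), (nat_lit 4473), [(nat_lit 1342475), (nat_lit 1349162), (nat_lit 1407125), (nat_lit 1414492), (nat_lit 1478432), (nat_lit 1478205), (nat_lit 1543097), (nat_lit 1543551)]⟩, ⟨(nat_lit 4), false, false, false, (nat_lit 138), (nat_lit 3872), (nat_lit 4473), [(nat_lit 1274489), (nat_lit 1284632), (nat_lit 1339140), (nat_lit 1349963), (nat_lit 1342475), (nat_lit 1349162), (nat_lit 1407125), (nat_lit 1414492)]⟩, (nat_lit 4119553), (nat_lit 48734883), (nat_lit 10912794), (nat_lit 7352323), (nat_lit 4), (nat_lit 0), [], [⟨(nat_lit 0), (nat_lit 100), (nat_lit 73), (nat_lit 85), (nat_lit 45065349)⟩], [], [],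
 ⟨⟨[(nat_lit 40), (nat_lit 80), (nat_lit 100)], [(nat_lit 0), (nat_lit 0), (nat_lit 1280)], [((nat_lit 0), (nat_lit 0), (nat_lit 0)), ((nat_lit 0), (nat_lit 0), (nat_lit 0)), ((nat_lit 1000), (nat_lit 800), (nat_lit 600))], ((nat_lit 82), (nat_lit 100), (nat_lit 44))⟩, (nat_lit 0), (nat_lit 148), (nat_lit 148), (nat_lit 0), (nat_lit 246135), [(nat_lit 1673054217), (nat_lit 1395178592), (nat_lit 177248400)], [(nat_lit 0), (nat_lit 0), (nat_lit 0)], [(nat_lit 15468233241), (nat_lit 17073313076), (nat_lit 17388599457), (nat_lit 18912277492), (nat_lit 15976358525), (nat_lit 17559276512), (nat_lit 17859522405), (nat_lit 19283744519)], (nat_lit 1271251), (nat_lit 1271251), (nat_lit 780000), (nat_lit 1435001), (nat_lit 490000), (nat_lit 780000), [(nat_lit 490000), (nat_lit 1100000), (nat_lit 1442501)], [(nat_lit 3), (nat_lit 50), (nat_lit 317), (nat_lit 100), (nat_lit 12)]⟩,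
 ⟨⟨[(nat_lit 120), (nat_lit 140), (nat_lit 160)], [(nat_lit 0), (nat_lit 266), (nat_lit 862)], [((nat_lit 0), (nat_lit 0), (nat_lit 0)), ((nat_lit 960), (nat_lit 1000), (nat_lit 200)), ((nat_lit 874), (nat_lit 1000), (nat_lit 406))], ((nat_lit 100), (nat_lit 86), (nat_lit 44))⟩, (nat_lit 1005095), (nat_lit 847), (nat_lit 847), (nat_lit 0), (nat_lit 1110932), [(nat_lit 613536000), (nat_lit 757834000), (nat_lit 914144000)], [], [(nat_lit 2725870833), (nat_lit 1959520990), (nat_lit 3313553145), (nat_lit 1955174396), (nat_lit 4973536295), (nat_lit 3669489908), (nat_lit 5978402724), (nat_lit 4707148656)], (nat_lit 1271251), (nat_lit 1271251), (nat_lit 780000), (nat_lit 1435001), (nat_lit 0), (nat_lit 2825001), [(nat_lit 1695001), (nat_lit 1271251), (nat_lit 1271251)], [(nat_lit 27), (nat_lit 62), (nat_lit 456), (nat_lit 225), (nat_lit 12)]⟩,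
 ⟨⟨[(nat_lit 120), (nat_lit 140), (nat_lit 160)], [(nat_lit 0), (nat_lit 266), (nat_lit 862)], [((nat_lit 0), (nat_lit 0), (nat_lit 0)), ((nat_lit 960), (nat_lit 1000), (nat_lit 200)), ((nat_lit 874), (nat_lit 1000), (nat_lit 406))], ((nat_lit 100), (nat_lit 86), (nat_lit 44))⟩, (nat_lit 123074), (nat_lit 300), (nat_lit 613), (nat_lit 3984160), (nat_lit 602290), [(nat_lit 478080000), (nat_lit 590520000), (nat_lit 712320000)], [], [(nat_lit 3318159894), (nat_lit 2443713420), (nat_lit 2225425902), (nat_lit 2283526932), (nat_lit 4082853446), (nat_lit 2873064120), (nat_lit 4448121192), (nat_lit 2878135738)], (nat_lit 1271251), (nat_lit 1271251), (nat_lit 490000), (nat_lit 780000), (nat_lit 0), (nat_lit 2825001), [(nat_lit 1695001), (nat_lit 1271251), (nat_lit 1271251)], [(nat_lit 27), (nat_lit 62), (nat_lit 428), (nat_lit 200), (nat_lit 11)]⟩⟩)) (.spl (nat_lit 2) (nat_lit 220) (.spl (nat_lit 6) (nat_lit 28) (.leaf ⟨(nat_lit 950), (nat_lit 15), (nat_lit 0),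 (nat_lit 35), (nat_lit 6510), (nat_lit 3771), (nat_lit 629), (nat_lit 337), (nat_lit 0), (nat_lit 69836), (nat_lit 766000), [((nat_lit 340), [((nat_lit 37), (nat_lit 2), (nat_lit 460)), ((nat_lit 18), (nat_lit 2), (nat_lit 490))])], ⟨(nat_lit 4), false, false, false, (nat_lit 178), (nat_lit 3872), (nat_lit 4473), [(nat_lit 1342475), (nat_lit 1349162), (nat_lit 1407125), (nat_lit 1414492), (nat_lit 1478432), (nat_lit 1478205), (nat_lit 1543097), (nat_lit 1543551)]⟩, ⟨(nat_lit 4), false, false, false, (nat_lit 114), (nat_lit 3872), (nat_lit 4473), [(nat_lit 1172511), (nat_lit 1187839), (nat_lit 1215612), (nat_lit 1231393), (nat_lit 1342475), (nat_lit 1349162), (nat_lit 1385576), (nat_lit 1392716)]⟩, (nat_lit 3817239), (nat_lit 50453257), (nat_lit 11027580), (nat_lit 5519163), (nat_lit 4), (nat_lit 0), [], [⟨(nat_lit 0), (nat_lit 100), (nat_lit 72), (nat_lit 77), (nat_lit 219817512)⟩], [], [],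
 ⟨⟨[(nat_lit 40), (nat_lit 80), (nat_lit 100)], [(nat_lit 0), (nat_lit 0), (nat_lit 1280)], [((nat_lit 0), (nat_lit 0), (nat_lit 0)), ((nat_lit 0), (nat_lit 0), (nat_lit 0)), ((nat_lit 1000), (nat_lit 800), (nat_lit 600))], ((nat_lit 80), (nat_lit 100), (nat_lit 51))⟩, (nat_lit 0), (nat_lit 163), (nat_lit 163), (nat_lit 0), (nat_lit 43290), [(nat_lit 1510229584), (nat_lit 1616962449), (nat_lit 623780000)], [(nat_lit 0), (nat_lit 0), (nat_lit 0)], [(nat_lit 17341950238), (nat_lit 19067936438), (nat_lit 19164079807), (nat_lit 20783158674), (nat_lit 16526933525), (nat_lit 18001850690), (nat_lit 18283406198), (nat_lit 19588719141)], (nat_lit 1271251), (nat_lit 1271251), (nat_lit 780000), (nat_lit 1435001), (nat_lit 111251), (nat_lit 780000), [(nat_lit 490000), (nat_lit 1100000), (nat_lit 1442501)], [(nat_lit 3), (nat_lit 50), (nat_lit 317), (nat_lit 100), (nat_lit 12)]⟩,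
 ⟨⟨[(nat_lit 120), (nat_lit 140), (nat_lit 160)], [(nat_lit 0), (nat_lit 266), (nat_lit 862)], [((nat_lit 0), (nat_lit 0), (nat_lit 0)), ((nat_lit 960), (nat_lit 1000), (nat_lit 200)), ((nat_lit 874), (nat_lit 1000), (nat_lit 406))], ((nat_lit 100), (nat_lit 81), (nat_lit 51))⟩, (nat_lit 24038), (nat_lit 339), (nat_lit 339), (nat_lit 0), (nat_lit 137019), [(nat_lit 398400000), (nat_lit 492100000), (nat_lit 593600000)], [], [(nat_lit 1769972320), (nat_lit 1662318788), (nat_lit 2152295640), (nat_lit 1693850354), (nat_lit 3231979865), (nat_lit 2382864774), (nat_lit 3885926576), (nat_lit 3058163834)], (nat_lit 1271251), (nat_lit 1271251), (nat_lit 780000), (nat_lit 1435001), (nat_lit 0), (nat_lit 2825001), [(nat_lit 1695001), (nat_lit 1271251), (nat_lit 1271251)], [(nat_lit 27), (nat_lit 62), (nat_lit 456), (nat_lit 225), (nat_lit 12)]⟩,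
 ⟨⟨[(nat_lit 120), (nat_lit 140), (nat_lit 160)], [(nat_lit 0), (nat_lit 266), (nat_lit 862)], [((nat_lit 0), (nat_lit 0), (nat_lit 0)), ((nat_lit 960), (nat_lit 1000), (nat_lit 200)), ((nat_lit 874), (nat_lit 1000), (nat_lit 406))], ((nat_lit 100), (nat_lit 81), (nat_lit 51))⟩, (nat_lit 39140), (nat_lit 300), (nat_lit 412), (nat_lit 2386134), (nat_lit 90483), [(nat_lit 278880000), (nat_lit 344470000), (nat_lit 415520000)], [], [(nat_lit 2137441852), (nat_lit 1776244411), (nat_lit 1559215888), (nat_lit 1574167464), (nat_lit 1898454230), (nat_lit 1696637348), (nat_lit 2118204879), (nat_lit 1814917348)], (nat_lit 1271251), (nat_lit 1271251), (nat_lit 111251), (nat_lit 780000), (nat_lit 0), (nat_lit 2825001), [(nat_lit 1695001), (nat_lit 1271251), (nat_lit 1271251)], [(nat_lit 27), (nat_lit 62), (nat_lit 428), (nat_lit 200), (nat_lit 12)]⟩⟩) (.dle (nat_lit 0))) (.ord (.trZ (nat_lit 0) (nat_lit 2) (nat_lit 4) (nat_lit 100) (nat_lit 80) (nat_lit 68) (nat_lit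 50) (.leaf ⟨(nat_lit 853), (nat_lit 84), (nat_lit 0), (nat_lit 63), (nat_lit 7105), (nat_lit 4046), (nat_lit 1321), (nat_lit 750), (nat_lit 0), (nat_lit 2136231478917), (nat_lit 832200), [((nat_lit 340), [((nat_lit 37), (nat_lit 2), (nat_lit 52)), ((nat_lit 18), (nat_lit 2), (nat_lit 801))])], ⟨(nat_lit 5), false, false, false, (nat_lit 186), (nat_lit 3872), (nat_lit 4473), [(nat_lit 1385576), (nat_lit 1392716), (nat_lit 1407125), (nat_lit 1414492), (nat_lit 1521548), (nat_lit 1521775), (nat_lit 1543097), (nat_lit 1543551)]⟩, ⟨(nat_lit 5), false, false, false, (nat_lit 137), (nat_lit 3872), (nat_lit 4473), [(nat_lit 1266601), (nat_lit 1279790), (nat_lit 1288150), (nat_lit 1301566), (nat_lit 1385576), (nat_lit 1392716), (nat_lit 1407125), (nat_lit 1414492)]⟩, (nat_lit 4190477), (nat_lit 48080721), (nat_lit 11706751), (nat_lit 7212528), (nat_lit 5), (nat_lit 0), [], [⟨(nat_lit 0), (nat_lit 100), (nat_lit 73), (nat_lit 85), (nat_lit 233765344)⟩], [], [],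
 ⟨⟨[(nat_lit 40), (nat_lit 80), (nat_lit 100)], [(nat_lit 0), (nat_lit 0), (nat_lit 1280)], [((nat_lit 0), (nat_lit 0), (nat_lit 0)), ((nat_lit 0), (nat_lit 0), (nat_lit 0)), ((nat_lit 1000), (nat_lit 800), (nat_lit 600))], ((nat_lit 80), (nat_lit 100), (nat_lit 57))⟩, (nat_lit 0), (nat_lit 150), (nat_lit 150), (nat_lit 0), (nat_lit 68105), [(nat_lit 1692855571), (nat_lit 1636796655), (nat_lit 623484400)], [(nat_lit 0), (nat_lit 0), (nat_lit 0)], [(nat_lit 16549312636), (nat_lit 18317165483), (nat_lit 18369720827), (nat_lit 20073022115), (nat_lit 16294638437), (nat_lit 17848418590), (nat_lit 18036580935), (nat_lit 19409035554)], (nat_lit 1271251), (nat_lit 1271251), (nat_lit 780000), (nat_lit 1435001), (nat_lit 292188), (nat_lit 780000), [(nat_lit 490000), (nat_lit 1100000), (nat_lit 1442501)], [(nat_lit 3), (nat_lit 50), (nat_lit 317), (nat_lit 100), (nat_lit 12)]⟩,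
 ⟨⟨[(nat_lit 100), (nat_lit 140), (nat_lit 160)], [(nat_lit 0), (nat_lit 508), (nat_lit 1689)], [((nat_lit 0), (nat_lit 0), (nat_lit 0)), ((nat_lit 1000), (nat_lit 1000), (nat_lit 198)), ((nat_lit 811), (nat_lit 1000), (nat_lit 671))], ((nat_lit 100), (nat_lit 88), (nat_lit 58))⟩, (nat_lit 238056), (nat_lit 371), (nat_lit 371), (nat_lit 0), (nat_lit 207562), [(nat_lit 918750000), (nat_lit 1446774000), (nat_lit 1745184000)], [], [(nat_lit 6108204002), (nat_lit 5405021508), (nat_lit 5348842113), (nat_lit 5410633018), (nat_lit 6146554166), (nat_lit 5641868764), (nat_lit 7599244392), (nat_lit 7004818830)], (nat_lit 1271251), (nat_lit 1271251), (nat_lit 780000), (nat_lit 1435001), (nat_lit 0), (nat_lit 2825001), [(nat_lit 1412501), (nat_lit 1271251), (nat_lit 1271251)], [(nat_lit 23), (nat_lit 62), (nat_lit 456), (nat_lit 225), (nat_lit 12)]⟩,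
 ⟨⟨[(nat_lit 100), (nat_lit 140), (nat_lit 160)], [(nat_lit 0), (nat_lit 508), (nat_lit 1689)], [((nat_lit 0), (nat_lit 0), (nat_lit 0)), ((nat_lit 1000), (nat_lit 1000), (nat_lit 198)), ((nat_lit 811), (nat_lit 1000), (nat_lit 671))], ((nat_lit 100), (nat_lit 88), (nat_lit 58))⟩, (nat_lit 135425), (nat_lit 300), (nat_lit 386), (nat_lit 3937501), (nat_lit 119977), [(nat_lit 393750000), (nat_lit 620046000), (nat_lit 747936000)], [], [(nat_lit 2796226128), (nat_lit 2816256404), (nat_lit 2512402723), (nat_lit 2526504386), (nat_lit 3852973844), (nat_lit 3520847406), (nat_lit 4296921780), (nat_lit 3972000780)], (nat_lit 1271251), (nat_lit 1271251), (nat_lit 292188), (nat_lit 780000), (nat_lit 0), (nat_lit 2825001), [(nat_lit 1412501), (nat_lit 1271251), (nat_lit 1271251)], [(nat_lit 23), (nat_lit 62), (nat_lit 428), (nat_lit 200), (nat_lit 11)]⟩⟩))))))))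
noncomputable def c10_4 : Tr Lf :=
 (.spl (nat_lit 2) (nat_lit 180) (.spl (nat_lit 1) (nat_lit 180) (.spl (nat_lit 6) (nat_lit 28) (.leaf ⟨(nat_lit 1000), (nat_lit 0), (nat_lit 0), (nat_lit 0), (nat_lit 591), (nat_lit 3922), (nat_lit 0), (nat_lit 0), (nat_lit 0), (nat_lit 447763550634), (nat_lit 761200), [((nat_lit 340), [((nat_lit 37), (nat_lit 2), (nat_lit 597)), ((nat_lit 18), (nat_lit 2), (nat_lit 403))])], ⟨(nat_lit 3), false, false, true, (nat_lit 152), (nat_lit 3872), (nat_lit 4473), [(nat_lit 1277776), (nat_lit 1283782), (nat_lit 1342475), (nat_lit 1349162), (nat_lit 1413733), (nat_lit 1412825), (nat_lit 1478432), (nat_lit 1478205)]⟩, ⟨(nat_lit 3), false, false, true, (nat_lit 152), (nat_lit 3872), (nat_lit 4473), [(nat_lit 1277776), (nat_lit 1283782), (nat_lit 1342475), (nat_lit 1349162), (nat_lit 1413733), (nat_lit 1412825), (nat_lit 1478432), (nat_lit 1478205)]⟩, (nat_lit 3996752), (nat_lit 49840708), (nat_lit 8579646), (nat_lit 8579646),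 (nat_lit 0), (nat_lit 0), [], [], [], [],
 ⟨⟨[(nat_lit 40), (nat_lit 80), (nat_lit 100)], [(nat_lit 0), (nat_lit 0), (nat_lit 1280)], [((nat_lit 0), (nat_lit 0), (nat_lit 0)), ((nat_lit 0), (nat_lit 0), (nat_lit 0)), ((nat_lit 1000), (nat_lit 800), (nat_lit 600))], ((nat_lit 80), (nat_lit 100), (nat_lit 51))⟩, (nat_lit 0), (nat_lit 139), (nat_lit 139), (nat_lit 0), (nat_lit 258993), [(nat_lit 1548322379), (nat_lit 1444364022), (nat_lit 507224000)], [(nat_lit 0), (nat_lit 0), (nat_lit 0)], [(nat_lit 16220803241), (nat_lit 17801208830), (nat_lit 17969297527), (nat_lit 19373200799), (nat_lit 17969297527), (nat_lit 19373200799), (nat_lit 19465113021), (nat_lit 20777276644)], (nat_lit 1271251), (nat_lit 1271251), (nat_lit 780000), (nat_lit 1435001), (nat_lit 780000), (nat_lit 1435001), [(nat_lit 490000), (nat_lit 1100000), (nat_lit 1442501)], [(nat_lit 3), (nat_lit 50), (nat_lit 317), (nat_lit 100), (nat_lit 11)]⟩,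
 Rw.none,
 Rw.none⟩) (.dle (nat_lit 0))) (.leaf ⟨(nat_lit 1000), (nat_lit 0), (nat_lit 0), (nat_lit 0), (nat_lit 0), (nat_lit 4042), (nat_lit 0), (nat_lit 0), (nat_lit 0), (nat_lit 0), (nat_lit 834400), [((nat_lit 340), [((nat_lit 37), (nat_lit 2), (nat_lit 414)), ((nat_lit 18), (nat_lit 2), (nat_lit 586))])], ⟨(nat_lit 4), false, false, false, (nat_lit 178), (nat_lit 3872), (nat_lit 4473), [(nat_lit 1342475), (nat_lit 1349162), (nat_lit 1407125), (nat_lit 1414492), (nat_lit 1478432), (nat_lit 1478205), (nat_lit 1543097), (nat_lit 1543551)]⟩, ⟨(nat_lit 3), false, false, true, (nat_lit 152), (nat_lit 3872), (nat_lit 4473), [(nat_lit 1277776), (nat_lit 1283782), (nat_lit 1342475), (nat_lit 1349162), (nat_lit 1413733), (nat_lit 1412825), (nat_lit 1478432), (nat_lit 1478205)]⟩, (nat_lit 4275910), (nat_lit 47720294), (nat_lit 10826857), (nat_lit 8452849), (nat_lit 0), (nat_lit 0), [], [], [], [],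
 ⟨⟨[(nat_lit 40), (nat_lit 80), (nat_lit 100)], [(nat_lit 0), (nat_lit 0), (nat_lit 1280)], [((nat_lit 0), (nat_lit 0), (nat_lit 0)), ((nat_lit 0), (nat_lit 0), (nat_lit 0)), ((nat_lit 1000), (nat_lit 800), (nat_lit 600))], ((nat_lit 80), (nat_lit 100), (nat_lit 57))⟩, (nat_lit 828), (nat_lit 172), (nat_lit 172), (nat_lit 0), (nat_lit 359747), [(nat_lit 1731504030), (nat_lit 1185932796), (nat_lit 215888000)], [(nat_lit 0), (nat_lit 0), (nat_lit 0)], [(nat_lit 16769416206), (nat_lit 18056200472), (nat_lit 18323349396), (nat_lit 19541950254), (nat_lit 18323349396), (nat_lit 19541950254), (nat_lit 19736550920), (nat_lit 20821848892)], (nat_lit 1271251), (nat_lit 1271251), (nat_lit 780000), (nat_lit 1435001), (nat_lit 780000), (nat_lit 1435001), [(nat_lit 490000), (nat_lit 1100000), (nat_lit 1442501)], [(nat_lit 3), (nat_lit 50), (nat_lit 317), (nat_lit 100), (nat_lit 11)]⟩,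
 Rw.none,
 Rw.none⟩)) (.ord (.spl (nat_lit 6) (nat_lit 20) (.leaf ⟨(nat_lit 903), (nat_lit 0), (nat_lit 0), (nat_lit 97), (nat_lit 0), (nat_lit 4001), (nat_lit 1243), (nat_lit 1265), (nat_lit 0), (nat_lit 46721282329), (nat_lit 1416000), [((nat_lit 340), [((nat_lit 18), (nat_lit 2), (nat_lit 732)), ((nat_lit 37), (nat_lit 5), (nat_lit 171))])], ⟨(nat_lit 4), false, false, false, (nat_lit 178), (nat_lit 3872), (nat_lit 4473), [(nat_lit 1342475), (nat_lit 1349162), (nat_lit 1407125), (nat_lit 1414492), (nat_lit 1478432), (nat_lit 1478205), (nat_lit 1543097), (nat_lit 1543551)]⟩, ⟨(nat_lit 4), false, false, false, (nat_lit 178), (nat_lit 3872), (nat_lit 4473), [(nat_lit 1342475), (nat_lit 1349162), (nat_lit 1407125), (nat_lit 1414492), (nat_lit 1478432), (nat_lit 1478205), (nat_lit 1543097), (nat_lit 1543551)]⟩, (nat_lit 4539248), (nat_lit 45748464), (nat_lit 10625768), (nat_lit 10625768), (nat_lit 0), (nat_lit 0), [], [], [], [],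
 ⟨⟨[(nat_lit 40), (nat_lit 80), (nat_lit 100)], [(nat_lit 0), (nat_lit 0), (nat_lit 1280)], [((nat_lit 0), (nat_lit 0), (nat_lit 0)), ((nat_lit 0), (nat_lit 0), (nat_lit 0)), ((nat_lit 1000), (nat_lit 800), (nat_lit 600))], ((nat_lit 82), (nat_lit 100), (nat_lit 44))⟩, (nat_lit 0), (nat_lit 173), (nat_lit 173), (nat_lit 0), (nat_lit 361828), [(nat_lit 1763667485), (nat_lit 841035799), (nat_lit 0)], [(nat_lit 0), (nat_lit 0), (nat_lit 1823045600)], [(nat_lit 16100254922), (nat_lit 17465528949), (nat_lit 17792815563), (nat_lit 19247155990), (nat_lit 17792815563), (nat_lit 19247155990), (nat_lit 19483430815), (nat_lit 20806735200)], (nat_lit 1271251), (nat_lit 1271251), (nat_lit 780000), (nat_lit 1435001), (nat_lit 780000), (nat_lit 1435001), [(nat_lit 490000), (nat_lit 1100000), (nat_lit 1442501)], [(nat_lit 3), (nat_lit 50), (nat_lit 317), (nat_lit 100), (nat_lit 11)]⟩,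
 ⟨⟨[(nat_lit 120), (nat_lit 140), (nat_lit 160)], [(nat_lit 0), (nat_lit 266), (nat_lit 862)], [((nat_lit 0), (nat_lit 0), (nat_lit 0)), ((nat_lit 960), (nat_lit 1000), (nat_lit 200)), ((nat_lit 874), (nat_lit 1000), (nat_lit 406))], ((nat_lit 100), (nat_lit 86), (nat_lit 44))⟩, (nat_lit 1423787), (nat_lit 847), (nat_lit 847), (nat_lit 0), (nat_lit 1110932), [(nat_lit 772896000), (nat_lit 954674000), (nat_lit 1151584000)], [], [(nat_lit 3432776337), (nat_lit 2363625532), (nat_lit 4183849729), (nat_lit 2354303430), (nat_lit 6301780304), (nat_lit 4623799290), (nat_lit 7589342812), (nat_lit 5953557298)], (nat_lit 1271251), (nat_lit 1271251), (nat_lit 780000), (nat_lit 1435001), (nat_lit 0), (nat_lit 2825001), [(nat_lit 1695001), (nat_lit 1271251), (nat_lit 1271251)], [(nat_lit 27), (nat_lit 62), (nat_lit 456), (nat_lit 225), (nat_lit 12)]⟩,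
 ⟨⟨[(nat_lit 120), (nat_lit 140), (nat_lit 160)], [(nat_lit 0), (nat_lit 266), (nat_lit 862)], [((nat_lit 0), (nat_lit 0), (nat_lit 0)), ((nat_lit 960), (nat_lit 1000), (nat_lit 200)), ((nat_lit 874), (nat_lit 1000), (nat_lit 406))], ((nat_lit 100), (nat_lit 86), (nat_lit 44))⟩, (nat_lit 199105), (nat_lit 300), (nat_lit 847), (nat_lit 6440801), (nat_lit 1110932), [(nat_lit 772896000), (nat_lit 954674000), (nat_lit 1151584000)], [], [(nat_lit 4212309452), (nat_lit 4184570678), (nat_lit 4191972690), (nat_lit 3963123578), (nat_lit 6332486815), (nat_lit 4624807022), (nat_lit 7638339980), (nat_lit 5973602510)], (nat_lit 1271251), (nat_lit 1271251), (nat_lit 780000), (nat_lit 1435001), (nat_lit 0), (nat_lit 2825001), [(nat_lit 1695001), (nat_lit 1271251), (nat_lit 1271251)], [(nat_lit 27), (nat_lit 62), (nat_lit 456), (nat_lit 225), (nat_lit 12)]⟩⟩) (.leaf ⟨(nat_lit 929), (nat_lit 6), (nat_lit 0), (nat_lit 65), (nat_lit 18), (nat_lit 4845), (nat_lit 1372),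 (nat_lit 809), (nat_lit 0), (nat_lit 1247105434616), (nat_lit 232250), [((nat_lit 340), [((nat_lit 18), (nat_lit 0), (nat_lit 929))])], ⟨(nat_lit 4), false, false, false, (nat_lit 178), (nat_lit 3872), (nat_lit 4473), [(nat_lit 1342475), (nat_lit 1349162), (nat_lit 1407125), (nat_lit 1414492), (nat_lit 1478432), (nat_lit 1478205), (nat_lit 1543097), (nat_lit 1543551)]⟩, ⟨(nat_lit 4), false, false, false, (nat_lit 178), (nat_lit 3872), (nat_lit 4473), [(nat_lit 1342475), (nat_lit 1349162), (nat_lit 1407125), (nat_lit 1414492), (nat_lit 1478432), (nat_lit 1478205), (nat_lit 1543097), (nat_lit 1543551)]⟩, (nat_lit 4539248), (nat_lit 45748464), (nat_lit 10625768), (nat_lit 10625768), (nat_lit 4), (nat_lit 0), [], [], [], [],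
 ⟨⟨[(nat_lit 40), (nat_lit 80), (nat_lit 100)], [(nat_lit 0), (nat_lit 0), (nat_lit 1280)], [((nat_lit 0), (nat_lit 0), (nat_lit 0)), ((nat_lit 0), (nat_lit 0), (nat_lit 0)), ((nat_lit 1000), (nat_lit 800), (nat_lit 600))], ((nat_lit 80), (nat_lit 100), (nat_lit 57))⟩, (nat_lit 0), (nat_lit 117), (nat_lit 117), (nat_lit 0), (nat_lit 99013), [(nat_lit 1807661756), (nat_lit 2346920020), (nat_lit 2823848000)], [(nat_lit 0), (nat_lit 0), (nat_lit 0)], [(nat_lit 16012471120), (nat_lit 17945276824), (nat_lit 17899038790), (nat_lit 19654166128), (nat_lit 17899038790), (nat_lit 19654166128), (nat_lit 19478299375), (nat_lit 21113302805)], (nat_lit 1271251), (nat_lit 1271251), (nat_lit 780000), (nat_lit 1435001), (nat_lit 780000), (nat_lit 1435001), [(nat_lit 490000), (nat_lit 1100000), (nat_lit 1442501)], [(nat_lit 3), (nat_lit 50), (nat_lit 317), (nat_lit 100), (nat_lit 11)]⟩,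
 ⟨⟨[(nat_lit 120), (nat_lit 160), (nat_lit 180)], [(nat_lit 0), (nat_lit 533), (nat_lit 2066)], [((nat_lit 0), (nat_lit 0), (nat_lit 0)), ((nat_lit 960), (nat_lit 1000), (nat_lit 200)), ((nat_lit 615), (nat_lit 1000), (nat_lit 729))], ((nat_lit 100), (nat_lit 76), (nat_lit 58))⟩, (nat_lit 630464), (nat_lit 480), (nat_lit 480), (nat_lit 0), (nat_lit 225955), [(nat_lit 565728000), (nat_lit 842912000), (nat_lit 998118000)], [], [(nat_lit 2492936866), (nat_lit 2209063090), (nat_lit 3233052362), (nat_lit 2200685418), (nat_lit 5257724662), (nat_lit 3405600808), (nat_lit 6584416828), (nat_lit 4778867572)], (nat_lit 1271251), (nat_lit 1271251), (nat_lit 780000), (nat_lit 1435001), (nat_lit 0), (nat_lit 2825001), [(nat_lit 1695001), (nat_lit 1271251), (nat_lit 1271251)], [(nat_lit 28), (nat_lit 65), (nat_lit 456), (nat_lit 225), (nat_lit 11)]⟩,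
 ⟨⟨[(nat_lit 120), (nat_lit 160), (nat_lit 180)], [(nat_lit 0), (nat_lit 533), (nat_lit 2066)], [((nat_lit 0), (nat_lit 0), (nat_lit 0)), ((nat_lit 960), (nat_lit 1000), (nat_lit 200)), ((nat_lit 615), (nat_lit 1000), (nat_lit 729))], ((nat_lit 100), (nat_lit 76), (nat_lit 58))⟩, (nat_lit 152195), (nat_lit 300), (nat_lit 480), (nat_lit 4316001), (nat_lit 225955), [(nat_lit 517920000), (nat_lit 771680000), (nat_lit 913770000)], [], [(nat_lit 3377513046), (nat_lit 3295432288), (nat_lit 3169248946), (nat_lit 3158759548), (nat_lit 4189430795), (nat_lit 3097325694), (nat_lit 5032328396), (nat_lit 3967686014)], (nat_lit 1271251), (nat_lit 1271251), (nat_lit 780000), (nat_lit 1435001), (nat_lit 0), (nat_lit 2825001), [(nat_lit 1695001), (nat_lit 1271251), (nat_lit 1271251)], [(nat_lit 28), (nat_lit 65), (nat_lit 456), (nat_lit 225), (nat_lit 11)]⟩⟩))))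
noncomputable def c10_5 : Tr Lf :=
 (.spl (nat_lit 6) (nat_lit 20) (.spl (nat_lit 1) (nat_lit 180) (.leaf ⟨(nat_lit 1000), (nat_lit 0), (nat_lit 0), (nat_lit 0), (nat_lit 2476), (nat_lit 3445), (nat_lit 0), (nat_lit 0), (nat_lit 0), (nat_lit 690036728832), (nat_lit 887600), [((nat_lit 340), [((nat_lit 37), (nat_lit 2), (nat_lit 281)), ((nat_lit 18), (nat_lit 2), (nat_lit 719))])], ⟨(nat_lit 3), false, false, false, (nat_lit 72), (nat_lit 3872), (nat_lit 4473), [(nat_lit 1073842), (nat_lit 1090218), (nat_lit 1138518), (nat_lit 1155575), (nat_lit 1209798), (nat_lit 1219261), (nat_lit 1274489), (nat_lit 1284632)]⟩, ⟨(nat_lit 5), false, false, true, (nat_lit 205), (nat_lit 3872), (nat_lit 4473), [(nat_lit 1413733), (nat_lit 1412825), (nat_lit 1478432), (nat_lit 1478205), (nat_lit 1549689), (nat_lit 1541869), (nat_lit 1614388), (nat_lit 1607248)]⟩, (nat_lit 3523348), (nat_lit 50432640), (nat_lit 2762777), (nat_lit 13804583), (nat_lit 0), (nat_lit 0), [⟨(nat_lit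 0), (nat_lit 100), (nat_lit 72), (nat_lit 63), (nat_lit 147536980)⟩], [], [], [],
 ⟨⟨[(nat_lit 40), (nat_lit 80), (nat_lit 100)], [(nat_lit 0), (nat_lit 0), (nat_lit 1280)], [((nat_lit 0), (nat_lit 0), (nat_lit 0)), ((nat_lit 0), (nat_lit 0), (nat_lit 0)), ((nat_lit 1000), (nat_lit 800), (nat_lit 600))], ((nat_lit 82), (nat_lit 100), (nat_lit 44))⟩, (nat_lit 0), (nat_lit 208), (nat_lit 208), (nat_lit 0), (nat_lit 195686), [(nat_lit 1510557583), (nat_lit 1352189693), (nat_lit 4152000)], [(nat_lit 0), (nat_lit 0), (nat_lit 0)], [(nat_lit 20324941929), (nat_lit 21587122759), (nat_lit 19414342649), (nat_lit 20599747774), (nat_lit 23253213559), (nat_lit 24527683690), (nat_lit 22200311162), (nat_lit 23262657095)], (nat_lit 1271251), (nat_lit 1271251), (nat_lit 0), (nat_lit 490000), (nat_lit 1271251), (nat_lit 1271251), [(nat_lit 490000), (nat_lit 1100000), (nat_lit 1442501)], [(nat_lit 3), (nat_lit 50), (nat_lit 226), (nat_lit 20), (nat_lit 8)]⟩,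
 Rw.none,
 Rw.none⟩) (.trZ (nat_lit 0) (nat_lit 1) (nat_lit 3) (nat_lit 100) (nat_lit 80) (nat_lit 52) (nat_lit 20) (.spl (nat_lit 1) (nat_lit 220) (.leaf ⟨(nat_lit 984), (nat_lit 0), (nat_lit 10), (nat_lit 6), (nat_lit 1796), (nat_lit 3866), (nat_lit 65), (nat_lit 330), (nat_lit 0), (nat_lit 0), (nat_lit 897200), [((nat_lit 340), [((nat_lit 37), (nat_lit 2), (nat_lit 217)), ((nat_lit 18), (nat_lit 2), (nat_lit 767))])], ⟨(nat_lit 4), false, false, false, (nat_lit 101), (nat_lit 3872), (nat_lit 4473), [(nat_lit 1172511), (nat_lit 1187839), (nat_lit 1215612), (nat_lit 1231393), (nat_lit 1274489), (nat_lit 1284632), (nat_lit 1317591), (nat_lit 1328187)]⟩, ⟨(nat_lit 5), false, false, true, (nat_lit 205), (nat_lit 3872), (nat_lit 4473), [(nat_lit 1413733), (nat_lit 1412825), (nat_lit 1478432), (nat_lit 1478205), (nat_lit 1549689), (nat_lit 1541869), (nat_lit 1614388), (nat_lit 1607248)]⟩, (nat_lit 3912133), (nat_lit 48809659), (nat_lit 4522985), (nat_lit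 13667356), (nat_lit 0), (nat_lit 4), [⟨(nat_lit 0), (nat_lit 100), (nat_lit 76), (nat_lit 65), (nat_lit 316458735)⟩], [], [], [],
 ⟨⟨[(nat_lit 40), (nat_lit 80), (nat_lit 100)], [(nat_lit 0), (nat_lit 0), (nat_lit 1280)], [((nat_lit 0), (nat_lit 0), (nat_lit 0)), ((nat_lit 0), (nat_lit 0), (nat_lit 0)), ((nat_lit 1000), (nat_lit 800), (nat_lit 600))], ((nat_lit 82), (nat_lit 100), (nat_lit 44))⟩, (nat_lit 0), (nat_lit 177), (nat_lit 177), (nat_lit 0), (nat_lit 191220), [(nat_lit 1784408948), (nat_lit 1113090274), (nat_lit 9355200)], [(nat_lit 0), (nat_lit 0), (nat_lit 0)], [(nat_lit 19115590028), (nat_lit 20917146924), (nat_lit 18229327880), (nat_lit 19482061430), (nat_lit 23033705331), (nat_lit 24658748716), (nat_lit 21099192884), (nat_lit 22556202745)], (nat_lit 1271251), (nat_lit 1271251), (nat_lit 111251), (nat_lit 490000), (nat_lit 1271251), (nat_lit 1271251), [(nat_lit 490000), (nat_lit 1100000), (nat_lit 1442501)], [(nat_lit 3), (nat_lit 50),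 (nat_lit 226), (nat_lit 20), (nat_lit 8)]⟩,
 ⟨⟨[(nat_lit 120), (nat_lit 140), (nat_lit 160)], [(nat_lit 0), (nat_lit 266), (nat_lit 862)], [((nat_lit 0), (nat_lit 0), (nat_lit 0)), ((nat_lit 960), (nat_lit 1000), (nat_lit 200)), ((nat_lit 874), (nat_lit 1000), (nat_lit 406))], ((nat_lit 100), (nat_lit 86), (nat_lit 44))⟩, (nat_lit 36732), (nat_lit 586), (nat_lit 586), (nat_lit 0), (nat_lit 412085), [(nat_lit 47808000), (nat_lit 59052000), (nat_lit 71232000)], [], [(nat_lit 385287544), (nat_lit 315469322), (nat_lit 280560210), (nat_lit 212341670), (nat_lit 314298944), (nat_lit 253018975), (nat_lit 329943706), (nat_lit 269893846)], (nat_lit 1271251), (nat_lit 1271251), (nat_lit 111251), (nat_lit 490000), (nat_lit 0), (nat_lit 2542501), [(nat_lit 1695001), (nat_lit 1271251), (nat_lit 1271251)], [(nat_lit 27), (nat_lit 62), (nat_lit 401), (nat_lit 175), (nat_lit 11)]⟩,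
 ⟨⟨[(nat_lit 140), (nat_lit 160), (nat_lit 180)], [(nat_lit 0), (nat_lit 0), (nat_lit 799)], [((nat_lit 0), (nat_lit 0), (nat_lit 0)), ((nat_lit 0), (nat_lit 0), (nat_lit 0)), ((nat_lit 728), (nat_lit 1000), (nat_lit 454))], ((nat_lit 100), (nat_lit 71), (nat_lit 48))⟩, (nat_lit 14058), (nat_lit 300), (nat_lit 1571), (nat_lit 1187200), (nat_lit 2563663), [(nat_lit 157472000), (nat_lit 189952000), (nat_lit 224928000)], [], [(nat_lit 901281438), (nat_lit 795271092), (nat_lit 864228964), (nat_lit 807062619), (nat_lit 1221227356), (nat_lit 1466744525), (nat_lit 656000926), (nat_lit 898246843)], (nat_lit 780000), (nat_lit 1271251), (nat_lit 1271251), (nat_lit 1271251), (nat_lit 0), (nat_lit 2542501), [(nat_lit 1977501), (nat_lit 1271251), (nat_lit 1271251)], [(nat_lit 31), (nat_lit 65), (nat_lit 496), (nat_lit 225), (nat_lit 12)]⟩⟩) (.trZ (nat_lit 0) (nat_lit 1) (nat_lit 3) (nat_lit 100) (nat_lit 80) (nat_lit 68) (nat_lit 50) (.leaf ⟨(nat_lit 977), (nat_lit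 0), (nat_lit 0), (nat_lit 23), (nat_lit 1023), (nat_lit 4026), (nat_lit 465), (nat_lit 325), (nat_lit 0), (nat_lit 0), (nat_lit 761800), [((nat_lit 340), [((nat_lit 37), (nat_lit 2), (nat_lit 538)), ((nat_lit 18), (nat_lit 2), (nat_lit 439))])], ⟨(nat_lit 5), false, false, false, (nat_lit 124), (nat_lit 3872), (nat_lit 4473), [(nat_lit 1266601), (nat_lit 1279790), (nat_lit 1288150), (nat_lit 1301566), (nat_lit 1317591), (nat_lit 1328187), (nat_lit 1339140), (nat_lit 1349963)]⟩, ⟨(nat_lit 5), false, false, true, (nat_lit 205), (nat_lit 3872), (nat_lit 4473), [(nat_lit 1413733), (nat_lit 1412825), (nat_lit 1478432), (nat_lit 1478205), (nat_lit 1549689), (nat_lit 1541869), (nat_lit 1614388), (nat_lit 1607248)]⟩, (nat_lit 4200989), (nat_lit 47364071), (nat_lit 6127417), (nat_lit 13508512), (nat_lit 0), (nat_lit 0), [⟨(nat_lit 0), (nat_lit 100), (nat_lit 77), (nat_lit 77), (nat_lit 386167209)⟩], [], [], [],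
 ⟨⟨[(nat_lit 40), (nat_lit 80), (nat_lit 100)], [(nat_lit 0), (nat_lit 0), (nat_lit 1280)], [((nat_lit 0), (nat_lit 0), (nat_lit 0)), ((nat_lit 0), (nat_lit 0), (nat_lit 0)), ((nat_lit 1000), (nat_lit 800), (nat_lit 600))], ((nat_lit 82), (nat_lit 100), (nat_lit 44))⟩, (nat_lit 0), (nat_lit 166), (nat_lit 166), (nat_lit 0), (nat_lit 221526), [(nat_lit 1700476283), (nat_lit 1355736892), (nat_lit 567239600)], [(nat_lit 0), (nat_lit 0), (nat_lit 0)], [(nat_lit 18952205060), (nat_lit 20181433689), (nat_lit 18456115679), (nat_lit 19655975428), (nat_lit 22190208346), (nat_lit 23821176501), (nat_lit 21159804335), (nat_lit 22708423945)], (nat_lit 1271251), (nat_lit 1271251), (nat_lit 292188), (nat_lit 490000), (nat_lit 1271251), (nat_lit 1271251), [(nat_lit 490000), (nat_lit 1100000), (nat_lit 1442501)], [(nat_lit 3), (nat_lit 50), (nat_lit 226), (nat_lit 20), (nat_lit 8)]⟩,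
 ⟨⟨[(nat_lit 100), (nat_lit 120), (nat_lit 140)], [(nat_lit 0), (nat_lit 254), (nat_lit 778)], [((nat_lit 0), (nat_lit 0), (nat_lit 0)), ((nat_lit 1000), (nat_lit 1000), (nat_lit 198)), ((nat_lit 960), (nat_lit 1000), (nat_lit 392))], ((nat_lit 100), (nat_lit 94), (nat_lit 44))⟩, (nat_lit 194327), (nat_lit 439), (nat_lit 439), (nat_lit 0), (nat_lit 371154), [(nat_lit 143750000), (nat_lit 183264000), (nat_lit 226366000)], [], [(nat_lit 562788628), (nat_lit 613918883), (nat_lit 459091173), (nat_lit 454382846), (nat_lit 1427503438), (nat_lit 1218901154), (nat_lit 1501742285), (nat_lit 1295166500)], (nat_lit 1271251), (nat_lit 1271251), (nat_lit 292188), (nat_lit 490000), (nat_lit 0), (nat_lit 2542501), [(nat_lit 1412501), (nat_lit 1271251), (nat_lit 1271251)], [(nat_lit 22), (nat_lit 58), (nat_lit 401), (nat_lit 175), (nat_lit 12)]⟩,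
 ⟨⟨[(nat_lit 140), (nat_lit 160), (nat_lit 180)], [(nat_lit 0), (nat_lit 0), (nat_lit 799)], [((nat_lit 0), (nat_lit 0), (nat_lit 0)), ((nat_lit 0), (nat_lit 0), (nat_lit 0)), ((nat_lit 728), (nat_lit 1000), (nat_lit 454))], ((nat_lit 100), (nat_lit 71), (nat_lit 48))⟩, (nat_lit 20208), (nat_lit 300), (nat_lit 1820), (nat_lit 1706600), (nat_lit 3074626), [(nat_lit 226366000), (nat_lit 273056000), (nat_lit 323334000)], [], [(nat_lit 1279940674), (nat_lit 1222272613), (nat_lit 1263721592), (nat_lit 1201735005), (nat_lit 1579033438), (nat_lit 1835062043), (nat_lit 1008673388), (nat_lit 1275177962)], (nat_lit 780000), (nat_lit 1271251), (nat_lit 1271251), (nat_lit 1271251), (nat_lit 0), (nat_lit 2542501), [(nat_lit 1977501), (nat_lit 1271251), (nat_lit 1271251)], [(nat_lit 31), (nat_lit 65), (nat_lit 558), (nat_lit 225), (nat_lit 13)]⟩⟩))))) (.spl (nat_lit 0) (nat_lit 330) (.spl (nat_lit 6) (nat_lit 28) (.leaf ⟨(nat_lit 1000), (nat_lit 0), (nat_lit 0), (nat_lit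 0), (nat_lit 12753), (nat_lit 3775), (nat_lit 0), (nat_lit 0), (nat_lit 0), (nat_lit 55190), (nat_lit 721200), [((nat_lit 330), [((nat_lit 37), (nat_lit 2), (nat_lit 697)), ((nat_lit 18), (nat_lit 2), (nat_lit 303))])], ⟨(nat_lit 3), false, false, false, (nat_lit 84), (nat_lit 4183), (nat_lit 4473), [(nat_lit 1073842), (nat_lit 1082054), (nat_lit 1203229), (nat_lit 1212042), (nat_lit 1209798), (nat_lit 1214565), (nat_lit 1339187), (nat_lit 1344555)]⟩, ⟨(nat_lit 5), false, false, true, (nat_lit 205), (nat_lit 4183), (nat_lit 4473), [(nat_lit 1413733), (nat_lit 1413332), (nat_lit 1478432), (nat_lit 1478332), (nat_lit 1549689), (nat_lit 1545843), (nat_lit 1614388), (nat_lit 1610843)]⟩, (nat_lit 3690926), (nat_lit 49749770), (nat_lit 3453532), (nat_lit 13796698), (nat_lit 0), (nat_lit 0), [⟨(nat_lit 0), (nat_lit 100), (nat_lit 78), (nat_lit 81), (nat_lit 257573891)⟩], [], [], [],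
 ⟨⟨[(nat_lit 40), (nat_lit 80), (nat_lit 100)], [(nat_lit 0), (nat_lit 0), (nat_lit 1280)], [((nat_lit 0), (nat_lit 0), (nat_lit 0)), ((nat_lit 0), (nat_lit 0), (nat_lit 0)), ((nat_lit 1000), (nat_lit 800), (nat_lit 600))], ((nat_lit 80), (nat_lit 100), (nat_lit 51))⟩, (nat_lit 453), (nat_lit 140), (nat_lit 140), (nat_lit 0), (nat_lit 28235), [(nat_lit 1483515395), (nat_lit 1550291102), (nat_lit 666424000)], [(nat_lit 0), (nat_lit 0), (nat_lit 0)], [(nat_lit 19662065510), (nat_lit 20484665894), (nat_lit 17943552992), (nat_lit 18629651499), (nat_lit 23555981950), (nat_lit 24367879750), (nat_lit 21105359392), (nat_lit 21695605469)], (nat_lit 1271251), (nat_lit 1271251), (nat_lit 0), (nat_lit 490000), (nat_lit 1271251), (nat_lit 1271251), [(nat_lit 490000), (nat_lit 1100000), (nat_lit 1442501)], [(nat_lit 3), (nat_lit 50), (nat_lit 226), (nat_lit 20), (nat_lit 8)]⟩,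
 Rw.none,
 Rw.none⟩) (.dle (nat_lit 0))) (.leaf ⟨(nat_lit 1000), (nat_lit 0), (nat_lit 0), (nat_lit 0), (nat_lit 6581), (nat_lit 4026), (nat_lit 0), (nat_lit 0), (nat_lit 0), (nat_lit 5046), (nat_lit 331550), [((nat_lit 340), [((nat_lit 18), (nat_lit 0), (nat_lit 767)), ((nat_lit 37), (nat_lit 2), (nat_lit 233))])], ⟨(nat_lit 3), false, false, false, (nat_lit 87), (nat_lit 3872), (nat_lit 4184), [(nat_lit 1082054), (nat_lit 1090218), (nat_lit 1212030), (nat_lit 1220954), (nat_lit 1214565), (nat_lit 1219261), (nat_lit 1344547), (nat_lit 1350002)]⟩, ⟨(nat_lit 5), false, false, true, (nat_lit 204), (nat_lit 3872), (nat_lit 4184), [(nat_lit 1413332), (nat_lit 1412825), (nat_lit 1478332), (nat_lit 1478205), (nat_lit 1545843), (nat_lit 1541869), (nat_lit 1610843), (nat_lit 1607248)]⟩, (nat_lit 3720812), (nat_lit 49672899), (nat_lit 3623421), (nat_lit 13703680), (nat_lit 0), (nat_lit 0), [⟨(nat_lit 0), (nat_lit 100), (nat_lit 73), (nat_lit 85), (nat_lit 386824242)⟩],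 [], [], [],
 ⟨⟨[(nat_lit 40), (nat_lit 80), (nat_lit 100)], [(nat_lit 0), (nat_lit 395), (nat_lit 1536)], [((nat_lit 0), (nat_lit 0), (nat_lit 0)), ((nat_lit 1000), (nat_lit 908), (nat_lit 154)), ((nat_lit 1000), (nat_lit 760), (nat_lit 642))], ((nat_lit 76), (nat_lit 100), (nat_lit 58))⟩, (nat_lit 849166), (nat_lit 159), (nat_lit 159), (nat_lit 0), (nat_lit 80501), [(nat_lit 1485794946), (nat_lit 2012542455), (nat_lit 2238443945)], [(nat_lit 0), (nat_lit 0), (nat_lit 0)], [(nat_lit 21027952933), (nat_lit 21869675373), (nat_lit 19529634579), (nat_lit 20129564453), (nat_lit 24835640840), (nat_lit 25675764092), (nat_lit 22160377394), (nat_lit 22709486869)], (nat_lit 1271251), (nat_lit 1271251), (nat_lit 0), (nat_lit 490000), (nat_lit 1271251), (nat_lit 1271251), [(nat_lit 490000), (nat_lit 1100000), (nat_lit 1442501)], [(nat_lit 3), (nat_lit 50), (nat_lit 226), (nat_lit 20), (nat_lit 8)]⟩,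
 Rw.none,
 Rw.none⟩)))
noncomputable def c10_6 : Tr Lf :=
 (.stt (nat_lit 3) (.leaf ⟨(nat_lit 746), (nat_lit 0), (nat_lit 254), (nat_lit 0), (nat_lit 3639), (nat_lit 3494), (nat_lit 0), (nat_lit 4229), (nat_lit 0), (nat_lit 158248), (nat_lit 1157000), [((nat_lit 340), [((nat_lit 18), (nat_lit 2), (nat_lit 609)), ((nat_lit 37), (nat_lit 5), (nat_lit 137))])], ⟨(nat_lit 3), false, false, false, (nat_lit 72), (nat_lit 3872), (nat_lit 4473), [(nat_lit 1073842), (nat_lit 1090218), (nat_lit 1138518), (nat_lit 1155575), (nat_lit 1209798), (nat_lit 1219261), (nat_lit 1274489), (nat_lit 1284632)]⟩, ⟨(nat_lit 7), true, false, true, (nat_lit 255), (nat_lit 3872), (nat_lit 4473), [(nat_lit 1549689), (nat_lit 1541869), (nat_lit 1614388), (nat_lit 1607248), (nat_lit 1668651), (nat_lit 1654781), (nat_lit 1733350), (nat_lit 1720161)]⟩, (nat_lit 3917835), (nat_lit 45468553), (nat_lit 2658422), (nat_lit 18873025), (nat_lit 0), (nat_lit 3), [⟨(nat_lit 0), (nat_lit 100),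 (nat_lit 72), (nat_lit 63), (nat_lit 73449896)⟩], [⟨(nat_lit 1), (nat_lit 85), (nat_lit 78), (nat_lit 100), (nat_lit 172226266)⟩], [], [],
 ⟨⟨[(nat_lit 40), (nat_lit 80), (nat_lit 100)], [(nat_lit 0), (nat_lit 0), (nat_lit 1280)], [((nat_lit 0), (nat_lit 0), (nat_lit 0)), ((nat_lit 0), (nat_lit 0), (nat_lit 0)), ((nat_lit 1000), (nat_lit 800), (nat_lit 600))], ((nat_lit 82), (nat_lit 100), (nat_lit 44))⟩, (nat_lit 0), (nat_lit 226), (nat_lit 226), (nat_lit 0), (nat_lit 195686), [(nat_lit 1805720870), (nat_lit 1500165546), (nat_lit 0)], [(nat_lit 0), (nat_lit 0), (nat_lit 368769200)], [(nat_lit 24492617924), (nat_lit 25524875711), (nat_lit 23581313492), (nat_lit 24552810210), (nat_lit 27528126784), (nat_lit 28823125117), (nat_lit 26442473114), (nat_lit 27281374655)], (nat_lit 1271251), (nat_lit 1271251), (nat_lit 0), (nat_lit 490000), (nat_lit 1271251), (nat_lit 1271251), [(nat_lit 490000), (nat_lit 1100000), (nat_lit 1442501)], [(nat_lit 3), (nat_lit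 50), (nat_lit 226), (nat_lit 20), (nat_lit 8)]⟩,
 Rw.none,
 ⟨⟨[(nat_lit 140), (nat_lit 160), (nat_lit 180)], [(nat_lit 0), (nat_lit 0), (nat_lit 799)], [((nat_lit 0), (nat_lit 0), (nat_lit 0)), ((nat_lit 0), (nat_lit 0), (nat_lit 0)), ((nat_lit 728), (nat_lit 1000), (nat_lit 454))], ((nat_lit 100), (nat_lit 71), (nat_lit 48))⟩, (nat_lit 223164), (nat_lit 300), (nat_lit 368), (nat_lit 18846800), (nat_lit 0), [(nat_lit 2499868000), (nat_lit 3015488000), (nat_lit 3570732000)], [], [(nat_lit 13770031426), (nat_lit 13093209748), (nat_lit 14708763970), (nat_lit 14092623150), (nat_lit 9233279059), (nat_lit 8641254796), (nat_lit 10419778816), (nat_lit 9730966511)], (nat_lit 0), (nat_lit 0), (nat_lit 0), (nat_lit 0), (nat_lit 0), (nat_lit 0), [], [(nat_lit 31), (nat_lit 65), (nat_lit 456), (nat_lit 225), (nat_lit 11)]⟩⟩) (.spl (nat_lit 6) (nat_lit 12) (.spl (nat_lit 0) (nat_lit 330) (.leaf ⟨(nat_lit 971), (nat_lit 0), (nat_lit 29), (nat_lit 0), (nat_lit 4956),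 (nat_lit 2929), (nat_lit 0), (nat_lit 367), (nat_lit 0), (nat_lit 108451945794), (nat_lit 1020800), [((nat_lit 330), [((nat_lit 37), (nat_lit 2), (nat_lit 468)), ((nat_lit 18), (nat_lit 2), (nat_lit 424)), ((nat_lit 37), (nat_lit 5), (nat_lit 79))])], ⟨(nat_lit 3), false, false, false, (nat_lit 71), (nat_lit 4183), (nat_lit 4473), [(nat_lit 1073842), (nat_lit 1082054), (nat_lit 1138540), (nat_lit 1147053), (nat_lit 1209798), (nat_lit 1214565), (nat_lit 1274498), (nat_lit 1279565)]⟩, ⟨(nat_lit 7), false, false, true, (nat_lit 256), (nat_lit 4183), (nat_lit 4473), [(nat_lit 1549689), (nat_lit 1545843), (nat_lit 1614388), (nat_lit 1610843), (nat_lit 1668651), (nat_lit 1661790), (nat_lit 1733350), (nat_lit 1726790)]⟩, (nat_lit 3906832), (nat_lit 45422204), (nat_lit 2583925), (nat_lit 18993871), (nat_lit 0), (nat_lit 3), [⟨(nat_lit 0), (nat_lit 100), (nat_lit 76), (nat_lit 57), (nat_lit 111093299)⟩], [⟨(nat_lit 1), (nat_lit 68), (nat_lit 80), (nat_lit 100),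 (nat_lit 193471190)⟩], [], [],
 ⟨⟨[(nat_lit 40), (nat_lit 60), (nat_lit 80)], [(nat_lit 0), (nat_lit 0), (nat_lit 615)], [((nat_lit 0), (nat_lit 0), (nat_lit 0)), ((nat_lit 0), (nat_lit 0), (nat_lit 0)), ((nat_lit 1000), (nat_lit 819), (nat_lit 426))], ((nat_lit 84), (nat_lit 100), (nat_lit 36))⟩, (nat_lit 0), (nat_lit 163), (nat_lit 163), (nat_lit 0), (nat_lit 89587), [(nat_lit 1571660516), (nat_lit 1406848094), (nat_lit 931953306)], [(nat_lit 0), (nat_lit 0), (nat_lit 0)], [(nat_lit 23109396456), (nat_lit 23644130741), (nat_lit 22402744884), (nat_lit 22907428706), (nat_lit 26283582435), (nat_lit 26819715433), (nat_lit 25403661812), (nat_lit 25861105942)], (nat_lit 1271251), (nat_lit 1271251), (nat_lit 0), (nat_lit 490000), (nat_lit 1271251), (nat_lit 1271251), [(nat_lit 490000), (nat_lit 780000), (nat_lit 1100000)], [(nat_lit 2), (nat_lit 44), (nat_lit 226), (nat_lit 20), (nat_lit 9)]⟩,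
 Rw.none,
 ⟨⟨[(nat_lit 140), (nat_lit 160), (nat_lit 180)], [(nat_lit 0), (nat_lit 0), (nat_lit 799)], [((nat_lit 0), (nat_lit 0), (nat_lit 0)), ((nat_lit 0), (nat_lit 0), (nat_lit 0)), ((nat_lit 728), (nat_lit 1000), (nat_lit 454))], ((nat_lit 100), (nat_lit 79), (nat_lit 37))⟩, (nat_lit 25479), (nat_lit 300), (nat_lit 1028), (nat_lit 2151802), (nat_lit 1446822), [(nat_lit 285418000), (nat_lit 344288000), (nat_lit 407682000)], [], [(nat_lit 1653786752), (nat_lit 1586114300), (nat_lit 1683521095), (nat_lit 1609108370), (nat_lit 1240960730), (nat_lit 1404247098), (nat_lit 1265511732), (nat_lit 1197192415)], (nat_lit 780000), (nat_lit 1271251), (nat_lit 1271251), (nat_lit 1271251), (nat_lit 0), (nat_lit 2118750), [(nat_lit 1977501), (nat_lit 1271251), (nat_lit 1271251)], [(nat_lit 31), (nat_lit 65), (nat_lit 456), (nat_lit 225), (nat_lit 11)]⟩⟩) (.trX (nat_lit 4) (nat_lit 0) (nat_lit 2) (nat_lit 76) (nat_lit 73) (nat_lit 100) (nat_lit 340) (.leaf ⟨(nat_lit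 972), (nat_lit 0), (nat_lit 28), (nat_lit 0), (nat_lit 2007), (nat_lit 3041), (nat_lit 0), (nat_lit 361), (nat_lit 0), (nat_lit 73763139118), (nat_lit 361050), [((nat_lit 340), [((nat_lit 18), (nat_lit 0), (nat_lit 185)), ((nat_lit 18), (nat_lit 1), (nat_lit 787))])], ⟨(nat_lit 3), false, false, false, (nat_lit 74), (nat_lit 3872), (nat_lit 4184), [(nat_lit 1082054), (nat_lit 1090218), (nat_lit 1147044), (nat_lit 1155588), (nat_lit 1214565), (nat_lit 1219261), (nat_lit 1279562), (nat_lit 1284637)]⟩, ⟨(nat_lit 7), false, false, true, (nat_lit 250), (nat_lit 3872), (nat_lit 4184), [(nat_lit 1545843), (nat_lit 1541869), (nat_lit 1610843), (nat_lit 1607248), (nat_lit 1645226), (nat_lit 1638651), (nat_lit 1710226), (nat_lit 1704031)]⟩, (nat_lit 3908324), (nat_lit 45835286), (nat_lit 2743223), (nat_lit 18421491), (nat_lit 0), (nat_lit 3), [⟨(nat_lit 0), (nat_lit 100), (nat_lit 72), (nat_lit 63), (nat_lit 123211728)⟩], [⟨(nat_lit 1), (nat_lit 73), (nat_lit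 76), (nat_lit 100), (nat_lit 203148088)⟩], [], [],
 ⟨⟨[(nat_lit 40), (nat_lit 60), (nat_lit 80)], [(nat_lit 0), (nat_lit 197), (nat_lit 800)], [((nat_lit 0), (nat_lit 0), (nat_lit 0)), ((nat_lit 1000), (nat_lit 908), (nat_lit 154)), ((nat_lit 1000), (nat_lit 781), (nat_lit 471))], ((nat_lit 81), (nat_lit 100), (nat_lit 36))⟩, (nat_lit 948302), (nat_lit 174), (nat_lit 174), (nat_lit 0), (nat_lit 130925), [(nat_lit 1370944806), (nat_lit 1741914832), (nat_lit 2045845168)], [(nat_lit 0), (nat_lit 0), (nat_lit 0)], [(nat_lit 23801779405), (nat_lit 24344899438), (nat_lit 22989402890), (nat_lit 23501800796), (nat_lit 26445100145), (nat_lit 27071396654), (nat_lit 25494203822), (nat_lit 25961564064)], (nat_lit 1271251), (nat_lit 1271251), (nat_lit 0), (nat_lit 490000), (nat_lit 1271251), (nat_lit 1271251), [(nat_lit 490000), (nat_lit 780000), (nat_lit 1100000)], [(nat_lit 2), (nat_lit 44), (nat_lit 226), (nat_lit 20), (nat_lit 9)]⟩,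
 Rw.none,
 ⟨⟨[(nat_lit 140), (nat_lit 160), (nat_lit 180)], [(nat_lit 0), (nat_lit 0), (nat_lit 799)], [((nat_lit 0), (nat_lit 0), (nat_lit 0)), ((nat_lit 0), (nat_lit 0), (nat_lit 0)), ((nat_lit 728), (nat_lit 1000), (nat_lit 454))], ((nat_lit 100), (nat_lit 79), (nat_lit 37))⟩, (nat_lit 24601), (nat_lit 300), (nat_lit 1386), (nat_lit 2077600), (nat_lit 2239270), [(nat_lit 275576000), (nat_lit 332416000), (nat_lit 393624000)], [], [(nat_lit 1587363260), (nat_lit 1520290435), (nat_lit 1608686255), (nat_lit 1536773144), (nat_lit 1178943757), (nat_lit 1353822873), (nat_lit 1202937844), (nat_lit 1136477250)], (nat_lit 780000), (nat_lit 1271251), (nat_lit 1271251), (nat_lit 1271251), (nat_lit 0), (nat_lit 2118750), [(nat_lit 1977501), (nat_lit 1271251), (nat_lit 1271251)], [(nat_lit 31), (nat_lit 65), (nat_lit 456), (nat_lit 225), (nat_lit 11)]⟩⟩))) (.spl (nat_lit 0) (nat_lit 330) (.leaf ⟨(nat_lit 986), (nat_lit 0), (nat_lit 14), (nat_lit 0), (nat_lit 29730),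 (nat_lit 3110), (nat_lit 0), (nat_lit 178), (nat_lit 0), (nat_lit 1752632592684), (nat_lit 838400), [((nat_lit 330), [((nat_lit 37), (nat_lit 2), (nat_lit 369)), ((nat_lit 18), (nat_lit 2), (nat_lit 617))])], ⟨(nat_lit 3), false, false, false, (nat_lit 71), (nat_lit 4183), (nat_lit 4473), [(nat_lit 1073842), (nat_lit 1082054), (nat_lit 1138540), (nat_lit 1147053), (nat_lit 1209798), (nat_lit 1214565), (nat_lit 1274498), (nat_lit 1279565)]⟩, ⟨(nat_lit 7), false, false, true, (nat_lit 256), (nat_lit 4183), (nat_lit 4473), [(nat_lit 1549689), (nat_lit 1545843), (nat_lit 1614388), (nat_lit 1610843), (nat_lit 1668651), (nat_lit 1661790), (nat_lit 1733350), (nat_lit 1726790)]⟩, (nat_lit 3906832), (nat_lit 45422204), (nat_lit 2583925), (nat_lit 18993871), (nat_lit 0), (nat_lit 3), [⟨(nat_lit 0), (nat_lit 100), (nat_lit 81), (nat_lit 42), (nat_lit 99563500)⟩], [⟨(nat_lit 1), (nat_lit 83), (nat_lit 81), (nat_lit 100), (nat_lit 214300223)⟩], [], [],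
 ⟨⟨[(nat_lit 40), (nat_lit 80), (nat_lit 100)], [(nat_lit 0), (nat_lit 0), (nat_lit 1280)], [((nat_lit 0), (nat_lit 0), (nat_lit 0)), ((nat_lit 0), (nat_lit 0), (nat_lit 0)), ((nat_lit 1000), (nat_lit 800), (nat_lit 600))], ((nat_lit 82), (nat_lit 100), (nat_lit 44))⟩, (nat_lit 0), (nat_lit 161), (nat_lit 161), (nat_lit 0), (nat_lit 20590), [(nat_lit 1744422793), (nat_lit 1207945208), (nat_lit 237952800)], [(nat_lit 0), (nat_lit 0), (nat_lit 0)], [(nat_lit 23689612029), (nat_lit 24210640817), (nat_lit 22858956189), (nat_lit 23350718267), (nat_lit 26762127114), (nat_lit 27254086767), (nat_lit 25769465919), (nat_lit 26194541621)], (nat_lit 1271251), (nat_lit 1271251), (nat_lit 0), (nat_lit 490000), (nat_lit 1271251), (nat_lit 1271251), [(nat_lit 490000), (nat_lit 1100000), (nat_lit 1442501)], [(nat_lit 3), (nat_lit 50), (nat_lit 226), (nat_lit 20), (nat_lit 8)]⟩,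
 Rw.none,
 ⟨⟨[(nat_lit 140), (nat_lit 160), (nat_lit 180)], [(nat_lit 0), (nat_lit 0), (nat_lit 799)], [((nat_lit 0), (nat_lit 0), (nat_lit 0)), ((nat_lit 0), (nat_lit 0), (nat_lit 0)), ((nat_lit 728), (nat_lit 1000), (nat_lit 454))], ((nat_lit 100), (nat_lit 71), (nat_lit 48))⟩, (nat_lit 12300), (nat_lit 300), (nat_lit 506), (nat_lit 1038802), (nat_lit 326961), [(nat_lit 137788000), (nat_lit 166208000), (nat_lit 196812000)], [], [(nat_lit 761728596), (nat_lit 737010709), (nat_lit 806922992), (nat_lit 776427776), (nat_lit 588034075), (nat_lit 677663450), (nat_lit 609754465), (nat_lit 576555967)], (nat_lit 780000), (nat_lit 1271251), (nat_lit 1271251), (nat_lit 1271251), (nat_lit 0), (nat_lit 2118750), [(nat_lit 1977501), (nat_lit 1271251), (nat_lit 1271251)], [(nat_lit 31), (nat_lit 65), (nat_lit 456), (nat_lit 225), (nat_lit 11)]⟩⟩) (.trX (nat_lit 4) (nat_lit 0) (nat_lit 2) (nat_lit 76) (nat_lit 73) (nat_lit 100) (nat_lit 340) (.leaf ⟨(nat_lit 973),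 (nat_lit 0), (nat_lit 27), (nat_lit 0), (nat_lit 6769), (nat_lit 2905), (nat_lit 0), (nat_lit 348), (nat_lit 0), (nat_lit 674203663851), (nat_lit 361450), [((nat_lit 340), [((nat_lit 18), (nat_lit 0), (nat_lit 185)), ((nat_lit 18), (nat_lit 1), (nat_lit 788))])], ⟨(nat_lit 3), false, false, false, (nat_lit 74), (nat_lit 3872), (nat_lit 4184), [(nat_lit 1082054), (nat_lit 1090218), (nat_lit 1147044), (nat_lit 1155588), (nat_lit 1214565), (nat_lit 1219261), (nat_lit 1279562), (nat_lit 1284637)]⟩, ⟨(nat_lit 7), false, false, true, (nat_lit 250), (nat_lit 3872), (nat_lit 4184), [(nat_lit 1545843), (nat_lit 1541869), (nat_lit 1610843), (nat_lit 1607248), (nat_lit 1645226), (nat_lit 1638651), (nat_lit 1710226), (nat_lit 1704031)]⟩, (nat_lit 3908324), (nat_lit 45835286), (nat_lit 2743223), (nat_lit 18421491), (nat_lit 0), (nat_lit 3), [⟨(nat_lit 0), (nat_lit 100), (nat_lit 72), (nat_lit 63), (nat_lit 109321256)⟩], [⟨(nat_lit 1), (nat_lit 73), (nat_lit 76),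 (nat_lit 100), (nat_lit 202436682)⟩], [], [],
 ⟨⟨[(nat_lit 40), (nat_lit 60), (nat_lit 80)], [(nat_lit 0), (nat_lit 197), (nat_lit 800)], [((nat_lit 0), (nat_lit 0), (nat_lit 0)), ((nat_lit 1000), (nat_lit 908), (nat_lit 154)), ((nat_lit 1000), (nat_lit 781), (nat_lit 471))], ((nat_lit 79), (nat_lit 100), (nat_lit 45))⟩, (nat_lit 1256781), (nat_lit 154), (nat_lit 154), (nat_lit 0), (nat_lit 66901), [(nat_lit 1370395203), (nat_lit 1740315204), (nat_lit 2043117796)], [(nat_lit 0), (nat_lit 0), (nat_lit 0)], [(nat_lit 23665587185), (nat_lit 24198524524), (nat_lit 22945101110), (nat_lit 23448131914), (nat_lit 26267182579), (nat_lit 26745559218), (nat_lit 25412924781), (nat_lit 25857696600)], (nat_lit 1271251), (nat_lit 1271251), (nat_lit 0), (nat_lit 490000), (nat_lit 1271251), (nat_lit 1271251), [(nat_lit 490000), (nat_lit 780000), (nat_lit 1100000)], [(nat_lit 2), (nat_lit 44), (nat_lit 226), (nat_lit 20), (nat_lit 9)]⟩,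
 Rw.none,
 ⟨⟨[(nat_lit 140), (nat_lit 160), (nat_lit 180)], [(nat_lit 0), (nat_lit 0), (nat_lit 799)], [((nat_lit 0), (nat_lit 0), (nat_lit 0)), ((nat_lit 0), (nat_lit 0), (nat_lit 0)), ((nat_lit 728), (nat_lit 1000), (nat_lit 454))], ((nat_lit 100), (nat_lit 71), (nat_lit 48))⟩, (nat_lit 23722), (nat_lit 300), (nat_lit 879), (nat_lit 2003401), (nat_lit 1121104), [(nat_lit 265734000), (nat_lit 320544000), (nat_lit 379566000)], [], [(nat_lit 1530823512), (nat_lit 1466174060), (nat_lit 1551388575), (nat_lit 1481911297), (nat_lit 1137148656), (nat_lit 1305504285), (nat_lit 1160130257), (nat_lit 1096071002)], (nat_lit 780000), (nat_lit 1271251), (nat_lit 1271251), (nat_lit 1271251), (nat_lit 0), (nat_lit 2118750), [(nat_lit 1977501), (nat_lit 1271251), (nat_lit 1271251)], [(nat_lit 31), (nat_lit 65), (nat_lit 456), (nat_lit 225), (nat_lit 11)]⟩⟩)))))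
noncomputable def c10_7 : Tr Lf :=
 (.trX (nat_lit 4) (nat_lit 0) (nat_lit 2) (nat_lit 82) (nat_lit 76) (nat_lit 100) (nat_lit 340) (.spl (nat_lit 1) (nat_lit 220) (.spl (nat_lit 1) (nat_lit 200) (.leaf ⟨(nat_lit 979), (nat_lit 0), (nat_lit 21), (nat_lit 0), (nat_lit 2009), (nat_lit 3169), (nat_lit 0), (nat_lit 359), (nat_lit 0), (nat_lit 0), (nat_lit 787000), [((nat_lit 340), [((nat_lit 37), (nat_lit 2), (nat_lit 480)), ((nat_lit 18), (nat_lit 2), (nat_lit 499))])], ⟨(nat_lit 4), false, false, false, (nat_lit 96), (nat_lit 3872), (nat_lit 4473), [(nat_lit 1172511), (nat_lit 1187839), (nat_lit 1194062), (nat_lit 1209617), (nat_lit 1274489), (nat_lit 1284632), (nat_lit 1296041), (nat_lit 1306411)]⟩, ⟨(nat_lit 7), false, false, true, (nat_lit 247), (nat_lit 3872), (nat_lit 4473), [(nat_lit 1549689), (nat_lit 1541869), (nat_lit 1592822), (nat_lit 1585455), (nat_lit 1651656), (nat_lit 1638651), (nat_lit 1694789), (nat_lit 1682237)]⟩, (nat_lit 4179380), (nat_lit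 45054803), (nat_lit 4088924), (nat_lit 17856273), (nat_lit 0), (nat_lit 4), [⟨(nat_lit 0), (nat_lit 100), (nat_lit 76), (nat_lit 61), (nat_lit 163612713)⟩], [⟨(nat_lit 1), (nat_lit 76), (nat_lit 82), (nat_lit 100), (nat_lit 211282880)⟩], [], [],
 ⟨⟨[(nat_lit 40), (nat_lit 60), (nat_lit 80)], [(nat_lit 0), (nat_lit 0), (nat_lit 615)], [((nat_lit 0), (nat_lit 0), (nat_lit 0)), ((nat_lit 0), (nat_lit 0), (nat_lit 0)), ((nat_lit 1000), (nat_lit 819), (nat_lit 426))], ((nat_lit 84), (nat_lit 100), (nat_lit 36))⟩, (nat_lit 0), (nat_lit 171), (nat_lit 171), (nat_lit 0), (nat_lit 167443), [(nat_lit 1351319683), (nat_lit 1655014525), (nat_lit 1186096000)], [(nat_lit 0), (nat_lit 0), (nat_lit 0)], [(nat_lit 22845544175), (nat_lit 23935206793), (nat_lit 22195015256), (nat_lit 23237443260), (nat_lit 25563487002), (nat_lit 26825762229), (nat_lit 24796601982), (nat_lit 25761159168)], (nat_lit 1271251), (nat_lit 1271251), (nat_lit 111251), (nat_lit 490000), (nat_lit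 1271251), (nat_lit 1271251), [(nat_lit 490000), (nat_lit 780000), (nat_lit 1100000)], [(nat_lit 2), (nat_lit 44), (nat_lit 226), (nat_lit 20), (nat_lit 9)]⟩,
 Rw.none,
 ⟨⟨[(nat_lit 140), (nat_lit 160), (nat_lit 180)], [(nat_lit 0), (nat_lit 0), (nat_lit 799)], [((nat_lit 0), (nat_lit 0), (nat_lit 0)), ((nat_lit 0), (nat_lit 0), (nat_lit 0)), ((nat_lit 728), (nat_lit 1000), (nat_lit 454))], ((nat_lit 100), (nat_lit 79), (nat_lit 37))⟩, (nat_lit 18451), (nat_lit 300), (nat_lit 1366), (nat_lit 1558200), (nat_lit 2192425), [(nat_lit 206682000), (nat_lit 249312000), (nat_lit 295218000)], [], [(nat_lit 1138000094), (nat_lit 1088746604), (nat_lit 1201539992), (nat_lit 1146489197), (nat_lit 755778549), (nat_lit 883109728), (nat_lit 841901927), (nat_lit 793407315)], (nat_lit 780000), (nat_lit 1100000), (nat_lit 1271251), (nat_lit 1271251), (nat_lit 0), (nat_lit 2118750), [(nat_lit 1977501), (nat_lit 1271251), (nat_lit 1271251)], [(nat_lit 31), (nat_lit 65), (nat_lit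 442), (nat_lit 200), (nat_lit 10)]⟩⟩) (.trZ (nat_lit 0) (nat_lit 1) (nat_lit 3) (nat_lit 100) (nat_lit 80) (nat_lit 60) (nat_lit 40) (.spl (nat_lit 0) (nat_lit 330) (.leaf ⟨(nat_lit 972), (nat_lit 0), (nat_lit 0), (nat_lit 28), (nat_lit 2731), (nat_lit 3264), (nat_lit 622), (nat_lit 367), (nat_lit 0), (nat_lit 0), (nat_lit 795600), [((nat_lit 330), [((nat_lit 37), (nat_lit 2), (nat_lit 441)), ((nat_lit 18), (nat_lit 2), (nat_lit 531))])], ⟨(nat_lit 5), false, false, false, (nat_lit 110), (nat_lit 4183), (nat_lit 4473), [(nat_lit 1228083), (nat_lit 1234973), (nat_lit 1249646), (nat_lit 1256636), (nat_lit 1296062), (nat_lit 1301229), (nat_lit 1317625), (nat_lit 1322893)]⟩, ⟨(nat_lit 7), false, false, true, (nat_lit 248), (nat_lit 4183), (nat_lit 4473), [(nat_lit 1549689), (nat_lit 1545843), (nat_lit 1592822), (nat_lit 1589176), (nat_lit 1651656), (nat_lit 1645226), (nat_lit 1694789), (nat_lit 1688560)]⟩, (nat_lit 4356745), (nat_lit 44216989), (nat_lit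 4988685), (nat_lit 17794326), (nat_lit 0), (nat_lit 0), [⟨(nat_lit 0), (nat_lit 100), (nat_lit 78), (nat_lit 66), (nat_lit 247761639)⟩], [⟨(nat_lit 1), (nat_lit 76), (nat_lit 82), (nat_lit 100), (nat_lit 195712918)⟩], [], [],
 ⟨⟨[(nat_lit 40), (nat_lit 60), (nat_lit 80)], [(nat_lit 0), (nat_lit 0), (nat_lit 615)], [((nat_lit 0), (nat_lit 0), (nat_lit 0)), ((nat_lit 0), (nat_lit 0), (nat_lit 0)), ((nat_lit 1000), (nat_lit 819), (nat_lit 426))], ((nat_lit 84), (nat_lit 100), (nat_lit 36))⟩, (nat_lit 0), (nat_lit 137), (nat_lit 137), (nat_lit 0), (nat_lit 141020), [(nat_lit 1377434261), (nat_lit 1642446546), (nat_lit 1184214254)], [(nat_lit 0), (nat_lit 0), (nat_lit 0)], [(nat_lit 22478336525), (nat_lit 23022123452), (nat_lit 22012841349), (nat_lit 22540598547), (nat_lit 25185894380), (nat_lit 25818747751), (nat_lit 24641526097), (nat_lit 25129496591)], (nat_lit 1271251), (nat_lit 1271251), (nat_lit 230000), (nat_lit 490000), (nat_lit 1271251), (nat_lit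 1271251), [(nat_lit 490000), (nat_lit 780000), (nat_lit 1100000)], [(nat_lit 2), (nat_lit 44), (nat_lit 226), (nat_lit 20), (nat_lit 9)]⟩,
 ⟨⟨[(nat_lit 100), (nat_lit 120), (nat_lit 140)], [(nat_lit 0), (nat_lit 0), (nat_lit 533)], [((nat_lit 0), (nat_lit 0), (nat_lit 0)), ((nat_lit 0), (nat_lit 0), (nat_lit 0)), ((nat_lit 924), (nat_lit 1000), (nat_lit 383))], ((nat_lit 100), (nat_lit 94), (nat_lit 34))⟩, (nat_lit 324315), (nat_lit 369), (nat_lit 369), (nat_lit 0), (nat_lit 259828), [(nat_lit 175000000), (nat_lit 223104000), (nat_lit 275576000)], [], [(nat_lit 771108422), (nat_lit 787532012), (nat_lit 813388076), (nat_lit 501190726), (nat_lit 1773437478), (nat_lit 1487977809), (nat_lit 1878518139), (nat_lit 1596822270)], (nat_lit 1271251), (nat_lit 1271251), (nat_lit 230000), (nat_lit 490000), (nat_lit 0), (nat_lit 2118750), [(nat_lit 1412501), (nat_lit 1271251), (nat_lit 1271251)], [(nat_lit 22), (nat_lit 58), (nat_lit 373), (nat_lit 150), (nat_lit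 11)]⟩,
 ⟨⟨[(nat_lit 140), (nat_lit 160), (nat_lit 180)], [(nat_lit 0), (nat_lit 0), (nat_lit 799)], [((nat_lit 0), (nat_lit 0), (nat_lit 0)), ((nat_lit 0), (nat_lit 0), (nat_lit 0)), ((nat_lit 728), (nat_lit 1000), (nat_lit 454))], ((nat_lit 100), (nat_lit 79), (nat_lit 37))⟩, (nat_lit 24601), (nat_lit 300), (nat_lit 1194), (nat_lit 2077600), (nat_lit 1815017), [(nat_lit 275576000), (nat_lit 332416000), (nat_lit 393624000)], [], [(nat_lit 1578892868), (nat_lit 1525100816), (nat_lit 1600014065), (nat_lit 1545760601), (nat_lit 1161612112), (nat_lit 1239476524), (nat_lit 1194307203), (nat_lit 1140931377)], (nat_lit 780000), (nat_lit 1100000), (nat_lit 1271251), (nat_lit 1271251), (nat_lit 0), (nat_lit 2118750), [(nat_lit 1977501), (nat_lit 1271251), (nat_lit 1271251)], [(nat_lit 31), (nat_lit 65), (nat_lit 428), (nat_lit 200), (nat_lit 10)]⟩⟩) (.trX (nat_lit 4) (nat_lit 0) (nat_lit 2) (nat_lit 78) (nat_lit 81) (nat_lit 100) (nat_lit 330) (.leaf ⟨(nat_lit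 973), (nat_lit 0), (nat_lit 0), (nat_lit 27), (nat_lit 0), (nat_lit 3160), (nat_lit 580), (nat_lit 362), (nat_lit 0), (nat_lit 0), (nat_lit 361450), [((nat_lit 340), [((nat_lit 18), (nat_lit 0), (nat_lit 185)), ((nat_lit 18), (nat_lit 1), (nat_lit 788))])], ⟨(nat_lit 5), false, false, false, (nat_lit 113), (nat_lit 3872), (nat_lit 4184), [(nat_lit 1234965), (nat_lit 1241901), (nat_lit 1256627), (nat_lit 1263690), (nat_lit 1301224), (nat_lit 1306426), (nat_lit 1322885), (nat_lit 1328214)]⟩, ⟨(nat_lit 7), false, false, true, (nat_lit 243), (nat_lit 3872), (nat_lit 4184), [(nat_lit 1545843), (nat_lit 1541869), (nat_lit 1589176), (nat_lit 1585455), (nat_lit 1628662), (nat_lit 1622521), (nat_lit 1671996), (nat_lit 1666107)]⟩, (nat_lit 4353345), (nat_lit 44571479), (nat_lit 5179990), (nat_lit 17248531), (nat_lit 0), (nat_lit 0), [⟨(nat_lit 0), (nat_lit 100), (nat_lit 74), (nat_lit 71), (nat_lit 247099115)⟩], [⟨(nat_lit 1), (nat_lit 81), (nat_lit 78), (nat_lit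 100), (nat_lit 201285128)⟩], [], [],
 ⟨⟨[(nat_lit 40), (nat_lit 60), (nat_lit 80)], [(nat_lit 0), (nat_lit 197), (nat_lit 800)], [((nat_lit 0), (nat_lit 0), (nat_lit 0)), ((nat_lit 1000), (nat_lit 908), (nat_lit 154)), ((nat_lit 1000), (nat_lit 781), (nat_lit 471))], ((nat_lit 81), (nat_lit 100), (nat_lit 36))⟩, (nat_lit 1282594), (nat_lit 160), (nat_lit 160), (nat_lit 0), (nat_lit 186225), [(nat_lit 1370395202), (nat_lit 1740315202), (nat_lit 2043117798)], [(nat_lit 0), (nat_lit 0), (nat_lit 0)], [(nat_lit 22863015149), (nat_lit 23399327154), (nat_lit 22416624824), (nat_lit 22937218944), (nat_lit 24991948133), (nat_lit 25632711595), (nat_lit 24484696390), (nat_lit 24977460290)], (nat_lit 1271251), (nat_lit 1271251), (nat_lit 230000), (nat_lit 490000), (nat_lit 1271251), (nat_lit 1271251), [(nat_lit 490000), (nat_lit 780000), (nat_lit 1100000)], [(nat_lit 2), (nat_lit 44), (nat_lit 226), (nat_lit 20), (nat_lit 9)]⟩,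
 ⟨⟨[(nat_lit 100), (nat_lit 120), (nat_lit 140)], [(nat_lit 0), (nat_lit 0), (nat_lit 533)], [((nat_lit 0), (nat_lit 0), (nat_lit 0)), ((nat_lit 0), (nat_lit 0), (nat_lit 0)), ((nat_lit 924), (nat_lit 1000), (nat_lit 383))], ((nat_lit 100), (nat_lit 94), (nat_lit 34))⟩, (nat_lit 273779), (nat_lit 447), (nat_lit 447), (nat_lit 0), (nat_lit 364337), [(nat_lit 168750000), (nat_lit 215136000), (nat_lit 265734000)], [], [(nat_lit 754475572), (nat_lit 770820674), (nat_lit 794826632), (nat_lit 504185641), (nat_lit 1696671717), (nat_lit 1430487460), (nat_lit 1795583202), (nat_lit 1532908597)], (nat_lit 1271251), (nat_lit 1271251), (nat_lit 230000), (nat_lit 490000), (nat_lit 0), (nat_lit 2118750), [(nat_lit 1412501), (nat_lit 1271251), (nat_lit 1271251)], [(nat_lit 22), (nat_lit 58), (nat_lit 373), (nat_lit 150), (nat_lit 11)]⟩,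
 ⟨⟨[(nat_lit 140), (nat_lit 160), (nat_lit 180)], [(nat_lit 0), (nat_lit 0), (nat_lit 799)], [((nat_lit 0), (nat_lit 0), (nat_lit 0)), ((nat_lit 0), (nat_lit 0), (nat_lit 0)), ((nat_lit 728), (nat_lit 1000), (nat_lit 454))], ((nat_lit 100), (nat_lit 79), (nat_lit 37))⟩, (nat_lit 23722), (nat_lit 300), (nat_lit 1534), (nat_lit 2003401), (nat_lit 2554814), [(nat_lit 265734000), (nat_lit 320544000), (nat_lit 379566000)], [], [(nat_lit 1511059264), (nat_lit 1457612620), (nat_lit 1524166525), (nat_lit 1473695471), (nat_lit 1107192068), (nat_lit 1190708452), (nat_lit 1130772551), (nat_lit 1078513950)], (nat_lit 780000), (nat_lit 1100000), (nat_lit 1271251), (nat_lit 1271251), (nat_lit 0), (nat_lit 2118750), [(nat_lit 1977501), (nat_lit 1271251), (nat_lit 1271251)], [(nat_lit 31), (nat_lit 65), (nat_lit 483), (nat_lit 200), (nat_lit 11)]⟩⟩))))) (.trZ (nat_lit 0) (nat_lit 1) (nat_lit 3) (nat_lit 100) (nat_lit 80) (nat_lit 68) (nat_lit 50) (.stt (nat_lit 1) (.leaf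 ⟨(nat_lit 960), (nat_lit 15), (nat_lit 0), (nat_lit 25), (nat_lit 1618), (nat_lit 3072), (nat_lit 613), (nat_lit 326), (nat_lit 0), (nat_lit 0), (nat_lit 743600), [((nat_lit 340), [((nat_lit 18), (nat_lit 1), (nat_lit 98)), ((nat_lit 37), (nat_lit 2), (nat_lit 394)), ((nat_lit 18), (nat_lit 2), (nat_lit 468))])], ⟨(nat_lit 5), false, false, false, (nat_lit 124), (nat_lit 3872), (nat_lit 4473), [(nat_lit 1266601), (nat_lit 1279790), (nat_lit 1288150), (nat_lit 1301566), (nat_lit 1317591), (nat_lit 1328187), (nat_lit 1339140), (nat_lit 1349963)]⟩, ⟨(nat_lit 7), false, false, true, (nat_lit 247), (nat_lit 3872), (nat_lit 4473), [(nat_lit 1549689), (nat_lit 1541869), (nat_lit 1592822), (nat_lit 1585455), (nat_lit 1651656), (nat_lit 1638651), (nat_lit 1694789), (nat_lit 1682237)]⟩, (nat_lit 4502363), (nat_lit 43586493), (nat_lit 5886473), (nat_lit 17527034), (nat_lit 7), (nat_lit 0), [⟨(nat_lit 0), (nat_lit 100), (nat_lit 77), (nat_lit 77), (nat_lit 270190084)⟩],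 [⟨(nat_lit 1), (nat_lit 76), (nat_lit 82), (nat_lit 100), (nat_lit 227940610)⟩], [], [],
 ⟨⟨[(nat_lit 40), (nat_lit 60), (nat_lit 80)], [(nat_lit 0), (nat_lit 0), (nat_lit 615)], [((nat_lit 0), (nat_lit 0), (nat_lit 0)), ((nat_lit 0), (nat_lit 0), (nat_lit 0)), ((nat_lit 1000), (nat_lit 819), (nat_lit 426))], ((nat_lit 84), (nat_lit 100), (nat_lit 36))⟩, (nat_lit 114195), (nat_lit 103), (nat_lit 103), (nat_lit 0), (nat_lit 0), [(nat_lit 1340628814), (nat_lit 1715492798), (nat_lit 1307758400)], [(nat_lit 0), (nat_lit 0), (nat_lit 0)], [(nat_lit 21711291747), (nat_lit 22875324615), (nat_lit 21315657801), (nat_lit 22455029653), (nat_lit 24601890597), (nat_lit 25828036686), (nat_lit 24150728217), (nat_lit 25191435730)], (nat_lit 0), (nat_lit 0), (nat_lit 0), (nat_lit 0), (nat_lit 0), (nat_lit 0), [], [(nat_lit 2), (nat_lit 44), (nat_lit 226), (nat_lit 20), (nat_lit 9)]⟩,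
 ⟨⟨[(nat_lit 100), (nat_lit 120), (nat_lit 140)], [(nat_lit 0), (nat_lit 254), (nat_lit 778)], [((nat_lit 0), (nat_lit 0), (nat_lit 0)), ((nat_lit 1000), (nat_lit 1000), (nat_lit 198)), ((nat_lit 960), (nat_lit 1000), (nat_lit 392))], ((nat_lit 100), (nat_lit 97), (nat_lit 34))⟩, (nat_lit 475748), (nat_lit 436), (nat_lit 436), (nat_lit 0), (nat_lit 365970), [(nat_lit 250000000), (nat_lit 318720000), (nat_lit 393680000)], [], [(nat_lit 948661107), (nat_lit 876605496), (nat_lit 1000379497), (nat_lit 692699472), (nat_lit 2087818340), (nat_lit 1807416451), (nat_lit 2185291453), (nat_lit 1907671568)], (nat_lit 1271251), (nat_lit 1271251), (nat_lit 292188), (nat_lit 490000), (nat_lit 0), (nat_lit 2118750), [(nat_lit 1412501), (nat_lit 1271251), (nat_lit 1271251)], [(nat_lit 22), (nat_lit 58), (nat_lit 401), (nat_lit 175), (nat_lit 12)]⟩,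
 ⟨⟨[(nat_lit 140), (nat_lit 160), (nat_lit 180)], [(nat_lit 0), (nat_lit 0), (nat_lit 799)], [((nat_lit 0), (nat_lit 0), (nat_lit 0)), ((nat_lit 0), (nat_lit 0), (nat_lit 0)), ((nat_lit 728), (nat_lit 1000), (nat_lit 454))], ((nat_lit 100), (nat_lit 79), (nat_lit 37))⟩, (nat_lit 21965), (nat_lit 300), (nat_lit 1776), (nat_lit 1855000), (nat_lit 3065732), [(nat_lit 246050000), (nat_lit 296800000), (nat_lit 351450000)], [], [(nat_lit 1412095468), (nat_lit 1364393104), (nat_lit 1431010135), (nat_lit 1380400566), (nat_lit 1042002405), (nat_lit 1107607404), (nat_lit 1068760241), (nat_lit 1021427746)], (nat_lit 780000), (nat_lit 1100000), (nat_lit 1271251), (nat_lit 1271251), (nat_lit 0), (nat_lit 2118750), [(nat_lit 1977501), (nat_lit 1271251), (nat_lit 1271251)], [(nat_lit 31), (nat_lit 65), (nat_lit 544), (nat_lit 200), (nat_lit 12)]⟩⟩) (.leaf ⟨(nat_lit 916), (nat_lit 26), (nat_lit 0), (nat_lit 58), (nat_lit 29), (nat_lit 3379), (nat_lit 1635), (nat_lit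 756), (nat_lit 0), (nat_lit 0), (nat_lit 807200), [((nat_lit 340), [((nat_lit 37), (nat_lit 2), (nat_lit 272)), ((nat_lit 18), (nat_lit 2), (nat_lit 644))])], ⟨(nat_lit 5), false, false, false, (nat_lit 124), (nat_lit 3872), (nat_lit 4473), [(nat_lit 1266601), (nat_lit 1279790), (nat_lit 1288150), (nat_lit 1301566), (nat_lit 1317591), (nat_lit 1328187), (nat_lit 1339140), (nat_lit 1349963)]⟩, ⟨(nat_lit 7), false, false, true, (nat_lit 247), (nat_lit 3872), (nat_lit 4473), [(nat_lit 1549689), (nat_lit 1541869), (nat_lit 1592822), (nat_lit 1585455), (nat_lit 1651656), (nat_lit 1638651), (nat_lit 1694789), (nat_lit 1682237)]⟩, (nat_lit 4502363), (nat_lit 43586493), (nat_lit 5886473), (nat_lit 17527034), (nat_lit 7), (nat_lit 0), [⟨(nat_lit 0), (nat_lit 100), (nat_lit 77), (nat_lit 77), (nat_lit 332816248)⟩], [⟨(nat_lit 1), (nat_lit 76), (nat_lit 82), (nat_lit 100), (nat_lit 182566494)⟩], [], [],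
 ⟨⟨[(nat_lit 40), (nat_lit 60), (nat_lit 80)], [(nat_lit 0), (nat_lit 0), (nat_lit 615)], [((nat_lit 0), (nat_lit 0), (nat_lit 0)), ((nat_lit 0), (nat_lit 0), (nat_lit 0)), ((nat_lit 1000), (nat_lit 819), (nat_lit 426))], ((nat_lit 84), (nat_lit 100), (nat_lit 36))⟩, (nat_lit 0), (nat_lit 166), (nat_lit 166), (nat_lit 0), (nat_lit 218958), [(nat_lit 1420739193), (nat_lit 1718268009), (nat_lit 1275993600)], [(nat_lit 0), (nat_lit 0), (nat_lit 0)], [(nat_lit 22367100985), (nat_lit 23463018638), (nat_lit 21989100170), (nat_lit 23060455989), (nat_lit 25085706015), (nat_lit 26363761539), (nat_lit 24650609319), (nat_lit 25637287251)], (nat_lit 1271251), (nat_lit 1271251), (nat_lit 292188), (nat_lit 490000), (nat_lit 1271251), (nat_lit 1271251), [(nat_lit 490000), (nat_lit 780000), (nat_lit 1100000)], [(nat_lit 2), (nat_lit 44), (nat_lit 226), (nat_lit 20), (nat_lit 9)]⟩,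
 ⟨⟨[(nat_lit 100), (nat_lit 120), (nat_lit 140)], [(nat_lit 0), (nat_lit 254), (nat_lit 778)], [((nat_lit 0), (nat_lit 0), (nat_lit 0)), ((nat_lit 1000), (nat_lit 1000), (nat_lit 198)), ((nat_lit 960), (nat_lit 1000), (nat_lit 392))], ((nat_lit 100), (nat_lit 97), (nat_lit 34))⟩, (nat_lit 753549), (nat_lit 436), (nat_lit 436), (nat_lit 0), (nat_lit 365970), [(nat_lit 525000000), (nat_lit 669312000), (nat_lit 826728000)], [], [(nat_lit 1999166228), (nat_lit 2180439371), (nat_lit 1741966719), (nat_lit 1621555314), (nat_lit 4468062779), (nat_lit 3720171933), (nat_lit 4710091918), (nat_lit 3969621264)], (nat_lit 1271251), (nat_lit 1271251), (nat_lit 292188), (nat_lit 490000), (nat_lit 0), (nat_lit 2118750), [(nat_lit 1412501), (nat_lit 1271251), (nat_lit 1271251)], [(nat_lit 22), (nat_lit 58), (nat_lit 401), (nat_lit 175), (nat_lit 12)]⟩,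
 ⟨⟨[(nat_lit 140), (nat_lit 160), (nat_lit 180)], [(nat_lit 0), (nat_lit 0), (nat_lit 799)], [((nat_lit 0), (nat_lit 0), (nat_lit 0)), ((nat_lit 0), (nat_lit 0), (nat_lit 0)), ((nat_lit 728), (nat_lit 1000), (nat_lit 454))], ((nat_lit 100), (nat_lit 79), (nat_lit 37))⟩, (nat_lit 50959), (nat_lit 300), (nat_lit 1086), (nat_lit 4303600), (nat_lit 1560079), [(nat_lit 570836000), (nat_lit 688576000), (nat_lit 815364000)], [], [(nat_lit 3276513240), (nat_lit 3165905952), (nat_lit 3320406030), (nat_lit 3202733092), (nat_lit 2418369934), (nat_lit 2569826840), (nat_lit 2479984060), (nat_lit 2370234531)], (nat_lit 780000), (nat_lit 1100000), (nat_lit 1271251), (nat_lit 1271251), (nat_lit 0), (nat_lit 2118750), [(nat_lit 1977501), (nat_lit 1271251), (nat_lit 1271251)], [(nat_lit 31), (nat_lit 65), (nat_lit 428), (nat_lit 200), (nat_lit 10)]⟩⟩)))))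
noncomputable def c10_8 : Tr Lf :=
 (.spl (nat_lit 1) (nat_lit 220) (.spl (nat_lit 1) (nat_lit 200) (.spl (nat_lit 0) (nat_lit 330) (.leaf ⟨(nat_lit 898), (nat_lit 0), (nat_lit 102), (nat_lit 0), (nat_lit 1356), (nat_lit 3093), (nat_lit 0), (nat_lit 1248), (nat_lit 0), (nat_lit 0), (nat_lit 1042000), [((nat_lit 330), [((nat_lit 18), (nat_lit 2), (nat_lit 850)), ((nat_lit 37), (nat_lit 5), (nat_lit 48))])], ⟨(nat_lit 4), false, false, false, (nat_lit 95), (nat_lit 4183), (nat_lit 4473), [(nat_lit 1172530), (nat_lit 1180181), (nat_lit 1194094), (nat_lit 1201845), (nat_lit 1274498), (nat_lit 1279565), (nat_lit 1296062), (nat_lit 1301229)]⟩, ⟨(nat_lit 7), false, false, true, (nat_lit 264), (nat_lit 4183), (nat_lit 4473), [(nat_lit 1592822), (nat_lit 1589176), (nat_lit 1614388), (nat_lit 1610843), (nat_lit 1711784), (nat_lit 1705124), (nat_lit 1733350), (nat_lit 1726790)]⟩, (nat_lit 4261950), (nat_lit 43478296), (nat_lit 3932651), (nat_lit 19589053), (nat_lit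 0), (nat_lit 4), [⟨(nat_lit 0), (nat_lit 100), (nat_lit 76), (nat_lit 65), (nat_lit 137024667)⟩], [⟨(nat_lit 1), (nat_lit 74), (nat_lit 79), (nat_lit 100), (nat_lit 160613094)⟩], [], [],
 ⟨⟨[(nat_lit 40), (nat_lit 60), (nat_lit 80)], [(nat_lit 0), (nat_lit 0), (nat_lit 615)], [((nat_lit 0), (nat_lit 0), (nat_lit 0)), ((nat_lit 0), (nat_lit 0), (nat_lit 0)), ((nat_lit 1000), (nat_lit 819), (nat_lit 426))], ((nat_lit 84), (nat_lit 100), (nat_lit 36))⟩, (nat_lit 0), (nat_lit 139), (nat_lit 139), (nat_lit 0), (nat_lit 83091), [(nat_lit 1635185185), (nat_lit 1497941621), (nat_lit 1044156379)], [(nat_lit 0), (nat_lit 0), (nat_lit 0)], [(nat_lit 22947297084), (nat_lit 23486552007), (nat_lit 22334939241), (nat_lit 22850918686), (nat_lit 26137738385), (nat_lit 26680435079), (nat_lit 25390609005), (nat_lit 25857474750)], (nat_lit 1271251), (nat_lit 1271251), (nat_lit 111251), (nat_lit 490000), (nat_lit 1271251), (nat_lit 1271251), [(nat_lit 490000), (nat_lit 780000),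 (nat_lit 1100000)], [(nat_lit 2), (nat_lit 44), (nat_lit 226), (nat_lit 20), (nat_lit 9)]⟩,
 Rw.none,
 ⟨⟨[(nat_lit 120), (nat_lit 140), (nat_lit 160)], [(nat_lit 0), (nat_lit 0), (nat_lit 609)], [((nat_lit 0), (nat_lit 0), (nat_lit 0)), ((nat_lit 0), (nat_lit 0), (nat_lit 0)), ((nat_lit 840), (nat_lit 1000), (nat_lit 400))], ((nat_lit 100), (nat_lit 87), (nat_lit 35))⟩, (nat_lit 104512), (nat_lit 300), (nat_lit 532), (nat_lit 7170602), (nat_lit 549717), [(nat_lit 812736000), (nat_lit 1003884000), (nat_lit 1210944000)], [], [(nat_lit 4630287720), (nat_lit 4604047173), (nat_lit 4833522528), (nat_lit 4795014923), (nat_lit 3466260120), (nat_lit 3709024908), (nat_lit 3653423932), (nat_lit 3617943916)], (nat_lit 1100000), (nat_lit 1271251), (nat_lit 1271251), (nat_lit 1271251), (nat_lit 0), (nat_lit 2118750), [(nat_lit 1695001), (nat_lit 1271251), (nat_lit 1271251)], [(nat_lit 27), (nat_lit 62), (nat_lit 456), (nat_lit 225), (nat_lit 12)]⟩⟩) (.trZ (nat_lit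 0) (nat_lit 1) (nat_lit 3) (nat_lit 100) (nat_lit 76) (nat_lit 57) (nat_lit 30) (.trX (nat_lit 4) (nat_lit 0) (nat_lit 2) (nat_lit 76) (nat_lit 73) (nat_lit 100) (nat_lit 340) (.leaf ⟨(nat_lit 949), (nat_lit 0), (nat_lit 51), (nat_lit 0), (nat_lit 0), (nat_lit 3097), (nat_lit 0), (nat_lit 637), (nat_lit 0), (nat_lit 0), (nat_lit 350500), [((nat_lit 340), [((nat_lit 18), (nat_lit 0), (nat_lit 194)), ((nat_lit 18), (nat_lit 1), (nat_lit 755))])], ⟨(nat_lit 4), false, false, false, (nat_lit 101), (nat_lit 3872), (nat_lit 4184), [(nat_lit 1196739), (nat_lit 1203982), (nat_lit 1218401), (nat_lit 1225770), (nat_lit 1279562), (nat_lit 1284637), (nat_lit 1301224), (nat_lit 1306426)]⟩, ⟨(nat_lit 7), false, false, true, (nat_lit 259), (nat_lit 3872), (nat_lit 4184), [(nat_lit 1589176), (nat_lit 1585455), (nat_lit 1610843), (nat_lit 1607248), (nat_lit 1688560), (nat_lit 1682237), (nat_lit 1710226), (nat_lit 1704031)]⟩, (nat_lit 4305002), (nat_lit 43691607), (nat_lit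 4318485), (nat_lit 18989908), (nat_lit 0), (nat_lit 4), [⟨(nat_lit 0), (nat_lit 100), (nat_lit 74), (nat_lit 64), (nat_lit 150605103)⟩], [⟨(nat_lit 1), (nat_lit 73), (nat_lit 76), (nat_lit 100), (nat_lit 192854805)⟩], [], [],
 ⟨⟨[(nat_lit 40), (nat_lit 60), (nat_lit 80)], [(nat_lit 0), (nat_lit 197), (nat_lit 800)], [((nat_lit 0), (nat_lit 0), (nat_lit 0)), ((nat_lit 1000), (nat_lit 908), (nat_lit 154)), ((nat_lit 1000), (nat_lit 781), (nat_lit 471))], ((nat_lit 81), (nat_lit 100), (nat_lit 36))⟩, (nat_lit 1303005), (nat_lit 152), (nat_lit 152), (nat_lit 0), (nat_lit 134791), [(nat_lit 1385023073), (nat_lit 1779422004), (nat_lit 2110904596)], [(nat_lit 0), (nat_lit 0), (nat_lit 0)], [(nat_lit 23173386657), (nat_lit 23709052829), (nat_lit 22642003060), (nat_lit 23158258008), (nat_lit 25785059129), (nat_lit 26405223497), (nat_lit 25162029923), (nat_lit 25639938710)], (nat_lit 1271251), (nat_lit 1271251), (nat_lit 169688), (nat_lit 490000), (nat_lit 1271251),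 (nat_lit 1271251), [(nat_lit 490000), (nat_lit 780000), (nat_lit 1100000)], [(nat_lit 2), (nat_lit 44), (nat_lit 226), (nat_lit 20), (nat_lit 9)]⟩,
 Rw.none,
 ⟨⟨[(nat_lit 120), (nat_lit 140), (nat_lit 160)], [(nat_lit 0), (nat_lit 0), (nat_lit 609)], [((nat_lit 0), (nat_lit 0), (nat_lit 0)), ((nat_lit 0), (nat_lit 0), (nat_lit 0)), ((nat_lit 840), (nat_lit 1000), (nat_lit 400))], ((nat_lit 100), (nat_lit 87), (nat_lit 35))⟩, (nat_lit 52256), (nat_lit 300), (nat_lit 720), (nat_lit 3585301), (nat_lit 957781), [(nat_lit 406368000), (nat_lit 501942000), (nat_lit 605472000)], [], [(nat_lit 2292636570), (nat_lit 2278853310), (nat_lit 2374527954), (nat_lit 2356069168), (nat_lit 1693453540), (nat_lit 1844038259), (nat_lit 1783109104), (nat_lit 1765631734)], (nat_lit 1100000), (nat_lit 1271251), (nat_lit 1271251), (nat_lit 1271251), (nat_lit 0), (nat_lit 2118750), [(nat_lit 1695001), (nat_lit 1271251), (nat_lit 1271251)], [(nat_lit 27), (nat_lit 62), (nat_lit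 456), (nat_lit 225), (nat_lit 12)]⟩⟩)))) (.trZ (nat_lit 0) (nat_lit 1) (nat_lit 3) (nat_lit 100) (nat_lit 80) (nat_lit 60) (nat_lit 40) (.spl (nat_lit 0) (nat_lit 330) (.leaf ⟨(nat_lit 929), (nat_lit 0), (nat_lit 0), (nat_lit 71), (nat_lit 2801), (nat_lit 3179), (nat_lit 1381), (nat_lit 869), (nat_lit 0), (nat_lit 0), (nat_lit 1007000), [((nat_lit 330), [((nat_lit 18), (nat_lit 2), (nat_lit 903)), ((nat_lit 37), (nat_lit 5), (nat_lit 26))])], ⟨(nat_lit 5), false, false, false, (nat_lit 110), (nat_lit 4183), (nat_lit 4473), [(nat_lit 1228083), (nat_lit 1234973), (nat_lit 1249646), (nat_lit 1256636), (nat_lit 1296062), (nat_lit 1301229), (nat_lit 1317625), (nat_lit 1322893)]⟩, ⟨(nat_lit 7), false, false, true, (nat_lit 264), (nat_lit 4183), (nat_lit 4473), [(nat_lit 1592822), (nat_lit 1589176), (nat_lit 1614388), (nat_lit 1610843), (nat_lit 1711784), (nat_lit 1705124), (nat_lit 1733350), (nat_lit 1726790)]⟩, (nat_lit 4444489), (nat_lit 42724057), (nat_lit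 4895507), (nat_lit 19380436), (nat_lit 0), (nat_lit 0), [⟨(nat_lit 0), (nat_lit 100), (nat_lit 78), (nat_lit 66), (nat_lit 229703560)⟩], [⟨(nat_lit 1), (nat_lit 74), (nat_lit 79), (nat_lit 100), (nat_lit 161028884)⟩], [], [],
 ⟨⟨[(nat_lit 40), (nat_lit 60), (nat_lit 80)], [(nat_lit 0), (nat_lit 0), (nat_lit 615)], [((nat_lit 0), (nat_lit 0), (nat_lit 0)), ((nat_lit 0), (nat_lit 0), (nat_lit 0)), ((nat_lit 1000), (nat_lit 819), (nat_lit 426))], ((nat_lit 84), (nat_lit 100), (nat_lit 36))⟩, (nat_lit 0), (nat_lit 133), (nat_lit 133), (nat_lit 0), (nat_lit 106370), [(nat_lit 1597770753), (nat_lit 1475118285), (nat_lit 1035854715)], [(nat_lit 0), (nat_lit 0), (nat_lit 0)], [(nat_lit 22527959007), (nat_lit 23065636623), (nat_lit 22090924721), (nat_lit 22612827481), (nat_lit 25700633337), (nat_lit 26309176443), (nat_lit 25175860825), (nat_lit 25643660655)], (nat_lit 1271251), (nat_lit 1271251), (nat_lit 230000), (nat_lit 490000), (nat_lit 1271251), (nat_lit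 1271251), [(nat_lit 490000), (nat_lit 780000), (nat_lit 1100000)], [(nat_lit 2), (nat_lit 44), (nat_lit 226), (nat_lit 20), (nat_lit 9)]⟩,
 ⟨⟨[(nat_lit 100), (nat_lit 120), (nat_lit 140)], [(nat_lit 0), (nat_lit 0), (nat_lit 533)], [((nat_lit 0), (nat_lit 0), (nat_lit 0)), ((nat_lit 0), (nat_lit 0), (nat_lit 0)), ((nat_lit 924), (nat_lit 1000), (nat_lit 383))], ((nat_lit 100), (nat_lit 94), (nat_lit 34))⟩, (nat_lit 1015834), (nat_lit 342), (nat_lit 342), (nat_lit 0), (nat_lit 201472), [(nat_lit 443750000), (nat_lit 565728000), (nat_lit 698782000)], [], [(nat_lit 2063472393), (nat_lit 1801142932), (nat_lit 2166530210), (nat_lit 1473371785), (nat_lit 4363758689), (nat_lit 3729964793), (nat_lit 4606250897), (nat_lit 3980813605)], (nat_lit 1271251), (nat_lit 1271251), (nat_lit 230000), (nat_lit 490000), (nat_lit 0), (nat_lit 2118750), [(nat_lit 1412501), (nat_lit 1271251), (nat_lit 1271251)], [(nat_lit 22), (nat_lit 58), (nat_lit 373), (nat_lit 150), (nat_lit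 11)]⟩,
 ⟨⟨[(nat_lit 120), (nat_lit 140), (nat_lit 160)], [(nat_lit 0), (nat_lit 0), (nat_lit 609)], [((nat_lit 0), (nat_lit 0), (nat_lit 0)), ((nat_lit 0), (nat_lit 0), (nat_lit 0)), ((nat_lit 840), (nat_lit 1000), (nat_lit 400))], ((nat_lit 100), (nat_lit 87), (nat_lit 35))⟩, (nat_lit 72749), (nat_lit 300), (nat_lit 610), (nat_lit 4991300), (nat_lit 736718), [(nat_lit 565728000), (nat_lit 698782000), (nat_lit 842912000)], [], [(nat_lit 3222533530), (nat_lit 3204253052), (nat_lit 3364012629), (nat_lit 3337353727), (nat_lit 2411890580), (nat_lit 2581535268), (nat_lit 2542573836), (nat_lit 2517860085)], (nat_lit 1100000), (nat_lit 1271251), (nat_lit 1271251), (nat_lit 1271251), (nat_lit 0), (nat_lit 2118750), [(nat_lit 1695001), (nat_lit 1271251), (nat_lit 1271251)], [(nat_lit 27), (nat_lit 62), (nat_lit 456), (nat_lit 225), (nat_lit 12)]⟩⟩) (.trX (nat_lit 4) (nat_lit 0) (nat_lit 2) (nat_lit 76) (nat_lit 73) (nat_lit 100) (nat_lit 340) (.leaf ⟨(nat_lit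 946), (nat_lit 0), (nat_lit 0), (nat_lit 54), (nat_lit 0), (nat_lit 3126), (nat_lit 973), (nat_lit 674), (nat_lit 0), (nat_lit 0), (nat_lit 349000), [((nat_lit 340), [((nat_lit 18), (nat_lit 0), (nat_lit 196)), ((nat_lit 18), (nat_lit 1), (nat_lit 750))])], ⟨(nat_lit 5), false, false, false, (nat_lit 113), (nat_lit 3872), (nat_lit 4184), [(nat_lit 1234965), (nat_lit 1241901), (nat_lit 1256627), (nat_lit 1263690), (nat_lit 1301224), (nat_lit 1306426), (nat_lit 1322885), (nat_lit 1328214)]⟩, ⟨(nat_lit 7), false, false, true, (nat_lit 259), (nat_lit 3872), (nat_lit 4184), [(nat_lit 1589176), (nat_lit 1585455), (nat_lit 1610843), (nat_lit 1607248), (nat_lit 1688560), (nat_lit 1682237), (nat_lit 1710226), (nat_lit 1704031)]⟩, (nat_lit 4445970), (nat_lit 43082983), (nat_lit 5086155), (nat_lit 18830862), (nat_lit 0), (nat_lit 0), [⟨(nat_lit 0), (nat_lit 100), (nat_lit 74), (nat_lit 71), (nat_lit 223831011)⟩], [⟨(nat_lit 1), (nat_lit 73), (nat_lit 76), (nat_lit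 100), (nat_lit 190530307)⟩], [], [],
 ⟨⟨[(nat_lit 40), (nat_lit 60), (nat_lit 80)], [(nat_lit 0), (nat_lit 197), (nat_lit 800)], [((nat_lit 0), (nat_lit 0), (nat_lit 0)), ((nat_lit 1000), (nat_lit 908), (nat_lit 154)), ((nat_lit 1000), (nat_lit 781), (nat_lit 471))], ((nat_lit 81), (nat_lit 100), (nat_lit 36))⟩, (nat_lit 1467763), (nat_lit 149), (nat_lit 149), (nat_lit 0), (nat_lit 153930), [(nat_lit 1386968063), (nat_lit 1784380040), (nat_lit 2119604360)], [(nat_lit 0), (nat_lit 0), (nat_lit 0)], [(nat_lit 22871071709), (nat_lit 23404939989), (nat_lit 22436167689), (nat_lit 22954420033), (nat_lit 25571892083), (nat_lit 26192823746), (nat_lit 25063020226), (nat_lit 25542722484)], (nat_lit 1271251), (nat_lit 1271251), (nat_lit 230000), (nat_lit 490000), (nat_lit 1271251), (nat_lit 1271251), [(nat_lit 490000), (nat_lit 780000), (nat_lit 1100000)], [(nat_lit 2), (nat_lit 44), (nat_lit 226), (nat_lit 20), (nat_lit 9)]⟩,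
 ⟨⟨[(nat_lit 100), (nat_lit 120), (nat_lit 140)], [(nat_lit 0), (nat_lit 0), (nat_lit 533)], [((nat_lit 0), (nat_lit 0), (nat_lit 0)), ((nat_lit 0), (nat_lit 0), (nat_lit 0)), ((nat_lit 924), (nat_lit 1000), (nat_lit 383))], ((nat_lit 100), (nat_lit 94), (nat_lit 34))⟩, (nat_lit 590256), (nat_lit 423), (nat_lit 423), (nat_lit 0), (nat_lit 309557), [(nat_lit 337500000), (nat_lit 430272000), (nat_lit 531468000)], [], [(nat_lit 1612033585), (nat_lit 1430539371), (nat_lit 1688779346), (nat_lit 1200406321), (nat_lit 3266425179), (nat_lit 2819878140), (nat_lit 3441411101), (nat_lit 3000751807)], (nat_lit 1271251), (nat_lit 1271251), (nat_lit 230000), (nat_lit 490000), (nat_lit 0), (nat_lit 2118750), [(nat_lit 1412501), (nat_lit 1271251), (nat_lit 1271251)], [(nat_lit 22), (nat_lit 58), (nat_lit 373), (nat_lit 150), (nat_lit 11)]⟩,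
 ⟨⟨[(nat_lit 120), (nat_lit 140), (nat_lit 160)], [(nat_lit 0), (nat_lit 0), (nat_lit 609)], [((nat_lit 0), (nat_lit 0), (nat_lit 0)), ((nat_lit 0), (nat_lit 0), (nat_lit 0)), ((nat_lit 840), (nat_lit 1000), (nat_lit 400))], ((nat_lit 100), (nat_lit 87), (nat_lit 35))⟩, (nat_lit 55330), (nat_lit 300), (nat_lit 807), (nat_lit 3796201), (nat_lit 1135676), [(nat_lit 430272000), (nat_lit 531468000), (nat_lit 641088000)], [], [(nat_lit 2428312260), (nat_lit 2413742219), (nat_lit 2515008660), (nat_lit 2494856627), (nat_lit 1794504680), (nat_lit 1952890254), (nat_lit 1888797972), (nat_lit 1870318877)], (nat_lit 1100000), (nat_lit 1271251), (nat_lit 1271251), (nat_lit 1271251), (nat_lit 0), (nat_lit 2118750), [(nat_lit 1695001), (nat_lit 1271251), (nat_lit 1271251)], [(nat_lit 27), (nat_lit 62), (nat_lit 456), (nat_lit 225), (nat_lit 12)]⟩⟩))))) (.trZ (nat_lit 0) (nat_lit 1) (nat_lit 3) (nat_lit 100) (nat_lit 80) (nat_lit 68) (nat_lit 50) (.spl (nat_lit 0) (nat_lit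 330) (.leaf ⟨(nat_lit 806), (nat_lit 50), (nat_lit 0), (nat_lit 144), (nat_lit 0), (nat_lit 3475), (nat_lit 3759), (nat_lit 1621), (nat_lit 0), (nat_lit 0), (nat_lit 1136400), [((nat_lit 330), [((nat_lit 37), (nat_lit 2), (nat_lit 614)), ((nat_lit 37), (nat_lit 5), (nat_lit 192))])], ⟨(nat_lit 5), false, false, false, (nat_lit 122), (nat_lit 4183), (nat_lit 4473), [(nat_lit 1266640), (nat_lit 1273200), (nat_lit 1288203), (nat_lit 1294863), (nat_lit 1317625), (nat_lit 1322893), (nat_lit 1339187), (nat_lit 1344555)]⟩, ⟨(nat_lit 7), false, false, true, (nat_lit 264), (nat_lit 4183), (nat_lit 4473), [(nat_lit 1592822), (nat_lit 1589176), (nat_lit 1614388), (nat_lit 1610843), (nat_lit 1711784), (nat_lit 1705124), (nat_lit 1733350), (nat_lit 1726790)]⟩, (nat_lit 4579376), (nat_lit 42109634), (nat_lit 5686706), (nat_lit 19203660), (nat_lit 7), (nat_lit 0), [⟨(nat_lit 0), (nat_lit 100), (nat_lit 79), (nat_lit 74), (nat_lit 710484737)⟩], [⟨(nat_lit 1), (nat_lit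 74), (nat_lit 79), (nat_lit 100), (nat_lit 132250276)⟩], [], [],
 ⟨⟨[(nat_lit 40), (nat_lit 60), (nat_lit 80)], [(nat_lit 0), (nat_lit 0), (nat_lit 615)], [((nat_lit 0), (nat_lit 0), (nat_lit 0)), ((nat_lit 0), (nat_lit 0), (nat_lit 0)), ((nat_lit 1000), (nat_lit 819), (nat_lit 426))], ((nat_lit 84), (nat_lit 100), (nat_lit 36))⟩, (nat_lit 0), (nat_lit 136), (nat_lit 136), (nat_lit 0), (nat_lit 140776), [(nat_lit 1704476694), (nat_lit 1608004512), (nat_lit 1051884688)], [(nat_lit 0), (nat_lit 0), (nat_lit 0)], [(nat_lit 22144694957), (nat_lit 22704996011), (nat_lit 21742586094), (nat_lit 22289398843), (nat_lit 25919445194), (nat_lit 26549200818), (nat_lit 25077294281), (nat_lit 25602973750)], (nat_lit 1271251), (nat_lit 1271251), (nat_lit 292188), (nat_lit 490000), (nat_lit 1271251), (nat_lit 1271251), [(nat_lit 490000), (nat_lit 780000), (nat_lit 1100000)], [(nat_lit 2), (nat_lit 44), (nat_lit 226), (nat_lit 20), (nat_lit 9)]⟩,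
 ⟨⟨[(nat_lit 100), (nat_lit 120), (nat_lit 140)], [(nat_lit 0), (nat_lit 254), (nat_lit 778)], [((nat_lit 0), (nat_lit 0), (nat_lit 0)), ((nat_lit 1000), (nat_lit 1000), (nat_lit 198)), ((nat_lit 960), (nat_lit 1000), (nat_lit 392))], ((nat_lit 100), (nat_lit 97), (nat_lit 34))⟩, (nat_lit 1752485), (nat_lit 346), (nat_lit 346), (nat_lit 0), (nat_lit 231320), [(nat_lit 1212500000), (nat_lit 1545792000), (nat_lit 1909348000)], [], [(nat_lit 4601699759), (nat_lit 5019033709), (nat_lit 4040731515), (nat_lit 3734538338), (nat_lit 10314990591), (nat_lit 8595527784), (nat_lit 10872129541), (nat_lit 9169726368)], (nat_lit 1271251), (nat_lit 1271251), (nat_lit 292188), (nat_lit 490000), (nat_lit 0), (nat_lit 2118750), [(nat_lit 1412501), (nat_lit 1271251), (nat_lit 1271251)], [(nat_lit 22), (nat_lit 58), (nat_lit 401), (nat_lit 175), (nat_lit 12)]⟩,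
 ⟨⟨[(nat_lit 120), (nat_lit 140), (nat_lit 160)], [(nat_lit 0), (nat_lit 0), (nat_lit 609)], [((nat_lit 0), (nat_lit 0), (nat_lit 0)), ((nat_lit 0), (nat_lit 0), (nat_lit 0)), ((nat_lit 840), (nat_lit 1000), (nat_lit 400))], ((nat_lit 100), (nat_lit 87), (nat_lit 35))⟩, (nat_lit 147547), (nat_lit 300), (nat_lit 739), (nat_lit 10123200), (nat_lit 1005074), [(nat_lit 1147392000), (nat_lit 1417248000), (nat_lit 1709568000)], [], [(nat_lit 6962685174), (nat_lit 6906922983), (nat_lit 7062115512), (nat_lit 7016099677), (nat_lit 5350039914), (nat_lit 5349780410), (nat_lit 5438987414), (nat_lit 5375386146)], (nat_lit 1100000), (nat_lit 1271251), (nat_lit 1271251), (nat_lit 1271251), (nat_lit 0), (nat_lit 2118750), [(nat_lit 1695001), (nat_lit 1271251), (nat_lit 1271251)], [(nat_lit 27), (nat_lit 62), (nat_lit 456), (nat_lit 225), (nat_lit 12)]⟩⟩) (.trZ (nat_lit 0) (nat_lit 1) (nat_lit 3) (nat_lit 100) (nat_lit 76) (nat_lit 73) (nat_lit 60) (.trX (nat_lit 4)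 (nat_lit 0) (nat_lit 2) (nat_lit 76) (nat_lit 73) (nat_lit 100) (nat_lit 340) (.leaf ⟨(nat_lit 917), (nat_lit 17), (nat_lit 0), (nat_lit 66), (nat_lit 0), (nat_lit 3300), (nat_lit 1812), (nat_lit 745), (nat_lit 0), (nat_lit 0), (nat_lit 335750), [((nat_lit 340), [((nat_lit 18), (nat_lit 0), (nat_lit 207)), ((nat_lit 18), (nat_lit 1), (nat_lit 710))])], ⟨(nat_lit 5), false, false, false, (nat_lit 128), (nat_lit 3872), (nat_lit 4184), [(nat_lit 1289756), (nat_lit 1295952), (nat_lit 1311418), (nat_lit 1317740), (nat_lit 1322885), (nat_lit 1328214), (nat_lit 1344547), (nat_lit 1350002)]⟩, ⟨(nat_lit 7), false, false, true, (nat_lit 259), (nat_lit 3872), (nat_lit 4184), [(nat_lit 1589176), (nat_lit 1585455), (nat_lit 1610843), (nat_lit 1607248), (nat_lit 1688560), (nat_lit 1682237), (nat_lit 1710226), (nat_lit 1704031)]⟩, (nat_lit 4615361), (nat_lit 42277754), (nat_lit 6110894), (nat_lit 18611352), (nat_lit 7), (nat_lit 0), [⟨(nat_lit 0), (nat_lit 100), (nat_lit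 75), (nat_lit 79), (nat_lit 489330068)⟩], [⟨(nat_lit 1), (nat_lit 79), (nat_lit 75), (nat_lit 100), (nat_lit 194534064)⟩], [], [],
 ⟨⟨[(nat_lit 40), (nat_lit 60), (nat_lit 80)], [(nat_lit 0), (nat_lit 197), (nat_lit 800)], [((nat_lit 0), (nat_lit 0), (nat_lit 0)), ((nat_lit 1000), (nat_lit 908), (nat_lit 154)), ((nat_lit 1000), (nat_lit 781), (nat_lit 471))], ((nat_lit 81), (nat_lit 100), (nat_lit 36))⟩, (nat_lit 1918346), (nat_lit 140), (nat_lit 140), (nat_lit 0), (nat_lit 183622), [(nat_lit 1404646578), (nat_lit 1831644007), (nat_lit 2201545793)], [(nat_lit 0), (nat_lit 0), (nat_lit 0)], [(nat_lit 22257580681), (nat_lit 22824558693), (nat_lit 22010365018), (nat_lit 22568753968), (nat_lit 25303368047), (nat_lit 25932699744), (nat_lit 24723591213), (nat_lit 25346291225)], (nat_lit 1271251), (nat_lit 1271251), (nat_lit 356250), (nat_lit 490000), (nat_lit 1271251), (nat_lit 1271251), [(nat_lit 490000), (nat_lit 780000), (nat_lit 1100000)], [(nat_lit 2),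 (nat_lit 44), (nat_lit 226), (nat_lit 20), (nat_lit 9)]⟩,
 ⟨⟨[(nat_lit 100), (nat_lit 120), (nat_lit 140)], [(nat_lit 0), (nat_lit 254), (nat_lit 778)], [((nat_lit 0), (nat_lit 0), (nat_lit 0)), ((nat_lit 1000), (nat_lit 1000), (nat_lit 198)), ((nat_lit 960), (nat_lit 1000), (nat_lit 392))], ((nat_lit 100), (nat_lit 97), (nat_lit 34))⟩, (nat_lit 700635), (nat_lit 374), (nat_lit 374), (nat_lit 0), (nat_lit 315365), [(nat_lit 518750000), (nat_lit 661344000), (nat_lit 816886000)], [], [(nat_lit 1869820717), (nat_lit 2064659768), (nat_lit 1518475716), (nat_lit 1648326538), (nat_lit 4534666834), (nat_lit 3708552817), (nat_lit 4722377817), (nat_lit 3901746120)], (nat_lit 1271251), (nat_lit 1271251), (nat_lit 356250), (nat_lit 490000), (nat_lit 0), (nat_lit 2118750), [(nat_lit 1412501), (nat_lit 1271251), (nat_lit 1271251)], [(nat_lit 22), (nat_lit 58), (nat_lit 401), (nat_lit 175), (nat_lit 12)]⟩,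
 ⟨⟨[(nat_lit 120), (nat_lit 140), (nat_lit 160)], [(nat_lit 0), (nat_lit 0), (nat_lit 609)], [((nat_lit 0), (nat_lit 0), (nat_lit 0)), ((nat_lit 0), (nat_lit 0), (nat_lit 0)), ((nat_lit 840), (nat_lit 1000), (nat_lit 400))], ((nat_lit 100), (nat_lit 87), (nat_lit 35))⟩, (nat_lit 67626), (nat_lit 300), (nat_lit 916), (nat_lit 4639800), (nat_lit 1394872), [(nat_lit 525888000), (nat_lit 649572000), (nat_lit 783552000)], [], [(nat_lit 3184957002), (nat_lit 3159271275), (nat_lit 3218488802), (nat_lit 3188766065), (nat_lit 2443036602), (nat_lit 2450337702), (nat_lit 2473505768), (nat_lit 2444994959)], (nat_lit 1100000), (nat_lit 1271251), (nat_lit 1271251), (nat_lit 1271251), (nat_lit 0), (nat_lit 2118750), [(nat_lit 1695001), (nat_lit 1271251), (nat_lit 1271251)], [(nat_lit 27), (nat_lit 62), (nat_lit 456), (nat_lit 225), (nat_lit 12)]⟩⟩))))))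
noncomputable def c10_9 : Tr Lf :=
 (.spl (nat_lit 1) (nat_lit 220) (.spl (nat_lit 2) (nat_lit 160) (.trX (nat_lit 4) (nat_lit 0) (nat_lit 2) (nat_lit 82) (nat_lit 76) (nat_lit 100) (nat_lit 340) (.leaf ⟨(nat_lit 971), (nat_lit 0), (nat_lit 29), (nat_lit 0), (nat_lit 8753), (nat_lit 3524), (nat_lit 0), (nat_lit 496), (nat_lit 0), (nat_lit 0), (nat_lit 650200), [((nat_lit 330), [((nat_lit 37), (nat_lit 2), (nat_lit 802)), ((nat_lit 18), (nat_lit 2), (nat_lit 169))])], ⟨(nat_lit 4), false, false, false, (nat_lit 99), (nat_lit 4183), (nat_lit 4473), [(nat_lit 1172530), (nat_lit 1180181), (nat_lit 1215656), (nat_lit 1223508), (nat_lit 1274498), (nat_lit 1279565), (nat_lit 1317625), (nat_lit 1322893)]⟩, ⟨(nat_lit 7), false, false, true, (nat_lit 248), (nat_lit 4183), (nat_lit 4473), [(nat_lit 1549689), (nat_lit 1545843), (nat_lit 1592822), (nat_lit 1589176), (nat_lit 1651656), (nat_lit 1645226), (nat_lit 1694789), (nat_lit 1688560)]⟩, (nat_lit 4223496), (nat_lit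 44800100), (nat_lit 4275540), (nat_lit 17924360), (nat_lit 0), (nat_lit 4), [⟨(nat_lit 0), (nat_lit 100), (nat_lit 76), (nat_lit 73), (nat_lit 273401345)⟩], [⟨(nat_lit 1), (nat_lit 76), (nat_lit 82), (nat_lit 100), (nat_lit 230950082)⟩], [], [],
 ⟨⟨[(nat_lit 40), (nat_lit 80), (nat_lit 100)], [(nat_lit 0), (nat_lit 0), (nat_lit 1280)], [((nat_lit 0), (nat_lit 0), (nat_lit 0)), ((nat_lit 0), (nat_lit 0), (nat_lit 0)), ((nat_lit 1000), (nat_lit 800), (nat_lit 600))], ((nat_lit 82), (nat_lit 100), (nat_lit 44))⟩, (nat_lit 0), (nat_lit 150), (nat_lit 150), (nat_lit 0), (nat_lit 44413), [(nat_lit 1455547559), (nat_lit 1732122082), (nat_lit 1027686800)], [(nat_lit 0), (nat_lit 0), (nat_lit 0)], [(nat_lit 22851286692), (nat_lit 23478551514), (nat_lit 21702527280), (nat_lit 22273161042), (nat_lit 26259502842), (nat_lit 26921689277), (nat_lit 24527824356), (nat_lit 25027638193)], (nat_lit 1271251), (nat_lit 1271251), (nat_lit 111251), (nat_lit 490000), (nat_lit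 1271251), (nat_lit 1271251), [(nat_lit 490000), (nat_lit 1100000), (nat_lit 1442501)], [(nat_lit 3), (nat_lit 50), (nat_lit 226), (nat_lit 20), (nat_lit 7)]⟩,
 Rw.none,
 ⟨⟨[(nat_lit 140), (nat_lit 160), (nat_lit 180)], [(nat_lit 0), (nat_lit 0), (nat_lit 799)], [((nat_lit 0), (nat_lit 0), (nat_lit 0)), ((nat_lit 0), (nat_lit 0), (nat_lit 0)), ((nat_lit 728), (nat_lit 1000), (nat_lit 454))], ((nat_lit 100), (nat_lit 71), (nat_lit 48))⟩, (nat_lit 25479), (nat_lit 300), (nat_lit 628), (nat_lit 2151802), (nat_lit 560385), [(nat_lit 285418000), (nat_lit 344288000), (nat_lit 407682000)], [], [(nat_lit 1571512776), (nat_lit 1503453116), (nat_lit 1659280088), (nat_lit 1583324472), (nat_lit 1043637794), (nat_lit 1219400292), (nat_lit 1162605601), (nat_lit 1095594389)], (nat_lit 780000), (nat_lit 1100000), (nat_lit 1271251), (nat_lit 1271251), (nat_lit 0), (nat_lit 2118750), [(nat_lit 1977501), (nat_lit 1271251), (nat_lit 1271251)], [(nat_lit 31), (nat_lit 65),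 (nat_lit 428), (nat_lit 200), (nat_lit 10)]⟩⟩)) (.spl (nat_lit 0) (nat_lit 325) (.dle (nat_lit 0)) (.trZ (nat_lit 0) (nat_lit 1) (nat_lit 3) (nat_lit 100) (nat_lit 78) (nat_lit 55) (nat_lit 30) (.leaf ⟨(nat_lit 964), (nat_lit 0), (nat_lit 36), (nat_lit 0), (nat_lit 130880), (nat_lit 3106), (nat_lit 0), (nat_lit 449), (nat_lit 0), (nat_lit 0), (nat_lit 357400), [((nat_lit 330), [((nat_lit 18), (nat_lit 0), (nat_lit 188)), ((nat_lit 18), (nat_lit 1), (nat_lit 776))])], ⟨(nat_lit 4), false, false, false, (nat_lit 103), (nat_lit 4183), (nat_lit 4331), [(nat_lit 1193135), (nat_lit 1196745), (nat_lit 1236360), (nat_lit 1240077), (nat_lit 1277032), (nat_lit 1279565), (nat_lit 1320258), (nat_lit 1322897)]⟩, ⟨(nat_lit 7), false, false, true, (nat_lit 264), (nat_lit 4183), (nat_lit 4331), [(nat_lit 1591006), (nat_lit 1589176), (nat_lit 1612620), (nat_lit 1610843), (nat_lit 1708462), (nat_lit 1705124), (nat_lit 1730076), (nat_lit 1726790)]⟩, (nat_lit 4359439),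 (nat_lit 43122333), (nat_lit 4448598), (nat_lit 19429069), (nat_lit 0), (nat_lit 4), [⟨(nat_lit 0), (nat_lit 100), (nat_lit 76), (nat_lit 73), (nat_lit 181359682)⟩], [⟨(nat_lit 1), (nat_lit 75), (nat_lit 78), (nat_lit 100), (nat_lit 233218398)⟩], [], [],
 ⟨⟨[(nat_lit 40), (nat_lit 60), (nat_lit 80)], [(nat_lit 0), (nat_lit 96), (nat_lit 704)], [((nat_lit 0), (nat_lit 0), (nat_lit 0)), ((nat_lit 1000), (nat_lit 955), (nat_lit 75)), ((nat_lit 1000), (nat_lit 800), (nat_lit 450))], ((nat_lit 80), (nat_lit 100), (nat_lit 45))⟩, (nat_lit 602982), (nat_lit 120), (nat_lit 120), (nat_lit 0), (nat_lit 23176), [(nat_lit 1375826673), (nat_lit 1786296812), (nat_lit 2037094400)], [(nat_lit 0), (nat_lit 0), (nat_lit 0)], [(nat_lit 22657226555), (nat_lit 22953772209), (nat_lit 21973484068), (nat_lit 22257711494), (nat_lit 26174660796), (nat_lit 26440127822), (nat_lit 25301702914), (nat_lit 25546539882)], (nat_lit 1271251), (nat_lit 1271251), (nat_lit 169688), (nat_lit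 490000), (nat_lit 1271251), (nat_lit 1271251), [(nat_lit 490000), (nat_lit 780000), (nat_lit 1100000)], [(nat_lit 2), (nat_lit 44), (nat_lit 226), (nat_lit 20), (nat_lit 9)]⟩,
 Rw.none,
 ⟨⟨[(nat_lit 120), (nat_lit 160), (nat_lit 180)], [(nat_lit 0), (nat_lit 0), (nat_lit 1613)], [((nat_lit 0), (nat_lit 0), (nat_lit 0)), ((nat_lit 0), (nat_lit 0), (nat_lit 0)), ((nat_lit 620), (nat_lit 1000), (nat_lit 670))], ((nat_lit 100), (nat_lit 81), (nat_lit 44))⟩, (nat_lit 15668), (nat_lit 300), (nat_lit 410), (nat_lit 2671200), (nat_lit 148750), [(nat_lit 286848000), (nat_lit 427392000), (nat_lit 506088000)], [], [(nat_lit 1904741264), (nat_lit 1897594396), (nat_lit 2010899269), (nat_lit 1998159819), (nat_lit 1465436060), (nat_lit 1451256668), (nat_lit 1515207561), (nat_lit 1497305615)], (nat_lit 1100000), (nat_lit 1271251), (nat_lit 1271251), (nat_lit 1271251), (nat_lit 0), (nat_lit 2118750), [(nat_lit 1695001), (nat_lit 1271251), (nat_lit 1271251)], [(nat_lit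 28), (nat_lit 65), (nat_lit 456), (nat_lit 225), (nat_lit 10)]⟩⟩)))) (.trZ (nat_lit 0) (nat_lit 1) (nat_lit 3) (nat_lit 100) (nat_lit 80) (nat_lit 68) (nat_lit 50) (.spl (nat_lit 5) (nat_lit 120) (.leaf ⟨(nat_lit 54), (nat_lit 824), (nat_lit 0), (nat_lit 122), (nat_lit 40753), (nat_lit 4521), (nat_lit 11425), (nat_lit 1545), (nat_lit 0), (nat_lit 0), (nat_lit 216000), [((nat_lit 330), [((nat_lit 37), (nat_lit 5), (nat_lit 54))])], ⟨(nat_lit 5), false, false, false, (nat_lit 122), (nat_lit 4183), (nat_lit 4473), [(nat_lit 1266640), (nat_lit 1273200), (nat_lit 1288203), (nat_lit 1294863), (nat_lit 1317625), (nat_lit 1322893), (nat_lit 1339187), (nat_lit 1344555)]⟩, ⟨(nat_lit 7), false, false, true, (nat_lit 256), (nat_lit 4183), (nat_lit 4473), [(nat_lit 1549689), (nat_lit 1545843), (nat_lit 1614388), (nat_lit 1610843), (nat_lit 1668651), (nat_lit 1661790), (nat_lit 1733350), (nat_lit 1726790)]⟩, (nat_lit 4536768), (nat_lit 42876045), (nat_lit 5746512),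 (nat_lit 18377443), (nat_lit 7), (nat_lit 0), [⟨(nat_lit 0), (nat_lit 100), (nat_lit 79), (nat_lit 74), (nat_lit 1809710752)⟩], [⟨(nat_lit 1), (nat_lit 83), (nat_lit 81), (nat_lit 100), (nat_lit 503840327)⟩], [], [],
 ⟨⟨[(nat_lit 40), (nat_lit 80), (nat_lit 100)], [(nat_lit 0), (nat_lit 0), (nat_lit 1280)], [((nat_lit 0), (nat_lit 0), (nat_lit 0)), ((nat_lit 0), (nat_lit 0), (nat_lit 0)), ((nat_lit 1000), (nat_lit 800), (nat_lit 600))], ((nat_lit 82), (nat_lit 100), (nat_lit 44))⟩, (nat_lit 1499042), (nat_lit 145), (nat_lit 145), (nat_lit 0), (nat_lit 83099), [(nat_lit 2036295244), (nat_lit 4169405633), (nat_lit 5247803200)], [(nat_lit 0), (nat_lit 0), (nat_lit 0)], [(nat_lit 24354747599), (nat_lit 25050188172), (nat_lit 23429358941), (nat_lit 24073459639), (nat_lit 28529496147), (nat_lit 29149412377), (nat_lit 27486350342), (nat_lit 28094688200)], (nat_lit 1271251), (nat_lit 1271251), (nat_lit 292188), (nat_lit 490000), (nat_lit 1271251), (nat_lit 1271251),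 [(nat_lit 490000), (nat_lit 1100000), (nat_lit 1442501)], [(nat_lit 3), (nat_lit 50), (nat_lit 226), (nat_lit 20), (nat_lit 7)]⟩,
 ⟨⟨[(nat_lit 100), (nat_lit 120), (nat_lit 140)], [(nat_lit 0), (nat_lit 254), (nat_lit 778)], [((nat_lit 0), (nat_lit 0), (nat_lit 0)), ((nat_lit 1000), (nat_lit 1000), (nat_lit 198)), ((nat_lit 960), (nat_lit 1000), (nat_lit 392))], ((nat_lit 100), (nat_lit 94), (nat_lit 44))⟩, (nat_lit 13552400), (nat_lit 261), (nat_lit 261), (nat_lit 0), (nat_lit 84575), [(nat_lit 5912500000), (nat_lit 7537728000), (nat_lit 9310532000)], [], [(nat_lit 16128040823), (nat_lit 17724591313), (nat_lit 12392674488), (nat_lit 13897608364), (nat_lit 11955202281), (nat_lit 9462749552), (nat_lit 12814815305), (nat_lit 7010601510)], (nat_lit 1271251), (nat_lit 1271251), (nat_lit 292188), (nat_lit 490000), (nat_lit 0), (nat_lit 780000), [(nat_lit 1412501), (nat_lit 1271251), (nat_lit 1271251)], [(nat_lit 22), (nat_lit 58), (nat_lit 345), (nat_lit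 125), (nat_lit 10)]⟩,
 ⟨⟨[(nat_lit 140), (nat_lit 160), (nat_lit 180)], [(nat_lit 0), (nat_lit 0), (nat_lit 799)], [((nat_lit 0), (nat_lit 0), (nat_lit 0)), ((nat_lit 0), (nat_lit 0), (nat_lit 0)), ((nat_lit 728), (nat_lit 1000), (nat_lit 454))], ((nat_lit 100), (nat_lit 71), (nat_lit 48))⟩, (nat_lit 107189), (nat_lit 300), (nat_lit 686), (nat_lit 9052400), (nat_lit 697015), [(nat_lit 1200724000), (nat_lit 1448384000), (nat_lit 1715076000)], [], [(nat_lit 6955796148), (nat_lit 6670826638), (nat_lit 7080853740), (nat_lit 6767512312), (nat_lit 5736229295), (nat_lit 5464372475), (nat_lit 5837195229), (nat_lit 5539041665)], (nat_lit 780000), (nat_lit 1271251), (nat_lit 1271251), (nat_lit 1271251), (nat_lit 0), (nat_lit 780000), [(nat_lit 1977501), (nat_lit 1271251), (nat_lit 1271251)], [(nat_lit 31), (nat_lit 65), (nat_lit 401), (nat_lit 175), (nat_lit 9)]⟩⟩) (.leaf ⟨(nat_lit 0), (nat_lit 104), (nat_lit 0), (nat_lit 896), (nat_lit 0), (nat_lit 6083), (nat_lit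 33822), (nat_lit 10516), (nat_lit 0), (nat_lit 0), (nat_lit 0), [], Pd.none, Pd.none, (nat_lit 0), (nat_lit 1), (nat_lit 0), (nat_lit 0), (nat_lit 7), (nat_lit 0), [⟨(nat_lit 0), (nat_lit 100), (nat_lit 78), (nat_lit 81), (nat_lit 4336528559)⟩], [], [], [],
 ⟨⟨[(nat_lit 40), (nat_lit 80), (nat_lit 100)], [(nat_lit 0), (nat_lit 0), (nat_lit 1280)], [((nat_lit 0), (nat_lit 0), (nat_lit 0)), ((nat_lit 0), (nat_lit 0), (nat_lit 0)), ((nat_lit 1000), (nat_lit 800), (nat_lit 600))], ((nat_lit 82), (nat_lit 100), (nat_lit 44))⟩, (nat_lit 1864715), (nat_lit 145), (nat_lit 145), (nat_lit 0), (nat_lit 83099), [(nat_lit 2423203133), (nat_lit 4688000006), (nat_lit 6250000000)], [], [(nat_lit 24658220857), (nat_lit 25529689598), (nat_lit 23207293600), (nat_lit 24011108660), (nat_lit 30266315502), (nat_lit 31110110196), (nat_lit 28312663460), (nat_lit 29142886762)], (nat_lit 1271251), (nat_lit 1271251), (nat_lit 292188), (nat_lit 490000), (nat_lit 1271251), (nat_lit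 1271251), [(nat_lit 490000), (nat_lit 1100000), (nat_lit 1442501)], [(nat_lit 3), (nat_lit 50), (nat_lit 226), (nat_lit 20), (nat_lit 7)]⟩,
 ⟨⟨[(nat_lit 100), (nat_lit 120), (nat_lit 140)], [(nat_lit 0), (nat_lit 254), (nat_lit 778)], [((nat_lit 0), (nat_lit 0), (nat_lit 0)), ((nat_lit 1000), (nat_lit 1000), (nat_lit 198)), ((nat_lit 960), (nat_lit 1000), (nat_lit 392))], ((nat_lit 100), (nat_lit 94), (nat_lit 44))⟩, (nat_lit 0), (nat_lit 205), (nat_lit 205), (nat_lit 0), (nat_lit 136660), [(nat_lit 6250000000), (nat_lit 7968000000), (nat_lit 9842000000)], [], [(nat_lit 22515815195), (nat_lit 7463306088), (nat_lit 0), (nat_lit 0), (nat_lit 34990141240), (nat_lit 37764826597), (nat_lit 34219864299), (nat_lit 25659471424)], (nat_lit 1271251), (nat_lit 1271251), (nat_lit 292188), (nat_lit 490000), (nat_lit 780000), (nat_lit 2253751), [(nat_lit 1412501), (nat_lit 1271251), (nat_lit 1271251)], [(nat_lit 22), (nat_lit 58), (nat_lit 401), (nat_lit 175), (nat_lit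 12)]⟩,
 ⟨⟨[(nat_lit 140), (nat_lit 160), (nat_lit 180)], [(nat_lit 0), (nat_lit 0), (nat_lit 799)], [((nat_lit 0), (nat_lit 0), (nat_lit 0)), ((nat_lit 0), (nat_lit 0), (nat_lit 0)), ((nat_lit 728), (nat_lit 1000), (nat_lit 454))], ((nat_lit 100), (nat_lit 71), (nat_lit 48))⟩, (nat_lit 787224), (nat_lit 300), (nat_lit 770), (nat_lit 66483201), (nat_lit 1065221), [(nat_lit 8818432000), (nat_lit 10637312000), (nat_lit 12595968000)], [], [(nat_lit 45251718396), (nat_lit 43206617894), (nat_lit 45044556248), (nat_lit 42889841286), (nat_lit 40719014842), (nat_lit 38720920227), (nat_lit 40864703084), (nat_lit 38730844919)], (nat_lit 780000), (nat_lit 1271251), (nat_lit 1271251), (nat_lit 1271251), (nat_lit 780000), (nat_lit 2253751), [(nat_lit 1977501), (nat_lit 1271251), (nat_lit 1271251)], [(nat_lit 31), (nat_lit 65), (nat_lit 456), (nat_lit 225), (nat_lit 10)]⟩⟩))))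
noncomputable def c10_10 : Tr Lf :=
 (.trZ (nat_lit 0) (nat_lit 1) (nat_lit 3) (nat_lit 100) (nat_lit 76) (nat_lit 57) (nat_lit 30) (.trX (nat_lit 4) (nat_lit 0) (nat_lit 2) (nat_lit 76) (nat_lit 73) (nat_lit 100) (nat_lit 340) (.spl (nat_lit 1) (nat_lit 220) (.spl (nat_lit 3) (nat_lit 60) (.trX (nat_lit 5) (nat_lit 4) (nat_lit 3) (nat_lit 99) (nat_lit 100) (nat_lit 77) (nat_lit 280) (.spl (nat_lit 1) (nat_lit 200) (.leaf ⟨(nat_lit 963), (nat_lit 0), (nat_lit 37), (nat_lit 0), (nat_lit 6835), (nat_lit 3187), (nat_lit 0), (nat_lit 533), (nat_lit 0), (nat_lit 0), (nat_lit 357000), [((nat_lit 340), [((nat_lit 18), (nat_lit 0), (nat_lit 188)), ((nat_lit 18), (nat_lit 1), (nat_lit 775))])], ⟨(nat_lit 4), false, false, false, (nat_lit 94), (nat_lit 3872), (nat_lit 4184), [(nat_lit 1196739), (nat_lit 1203982), (nat_lit 1218401), (nat_lit 1225770), (nat_lit 1246433), (nat_lit 1252375), (nat_lit 1268094), (nat_lit 1274163)]⟩, ⟨(nat_lit 7), false, false, true,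 (nat_lit 250), (nat_lit 3872), (nat_lit 4184), [(nat_lit 1545843), (nat_lit 1541869), (nat_lit 1610843), (nat_lit 1607248), (nat_lit 1645226), (nat_lit 1638651), (nat_lit 1710226), (nat_lit 1704031)]⟩, (nat_lit 4175120), (nat_lit 44838589), (nat_lit 3951808), (nat_lit 18209603), (nat_lit 0), (nat_lit 4), [⟨(nat_lit 0), (nat_lit 100), (nat_lit 71), (nat_lit 70), (nat_lit 258732750)⟩], [⟨(nat_lit 1), (nat_lit 73), (nat_lit 76), (nat_lit 100), (nat_lit 219642998)⟩], [], [],
 ⟨⟨[(nat_lit 40), (nat_lit 60), (nat_lit 80)], [(nat_lit 0), (nat_lit 197), (nat_lit 800)], [((nat_lit 0), (nat_lit 0), (nat_lit 0)), ((nat_lit 1000), (nat_lit 908), (nat_lit 154)), ((nat_lit 1000), (nat_lit 781), (nat_lit 471))], ((nat_lit 79), (nat_lit 100), (nat_lit 45))⟩, (nat_lit 1229461), (nat_lit 131), (nat_lit 131), (nat_lit 0), (nat_lit 74511), [(nat_lit 1376430907), (nat_lit 1756550126), (nat_lit 2071168074)], [(nat_lit 0), (nat_lit 0), (nat_lit 0)], [(nat_lit 23036077713),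 (nat_lit 23578280034), (nat_lit 22694443861), (nat_lit 23224797048), (nat_lit 25956249655), (nat_lit 26585706316), (nat_lit 25274094380), (nat_lit 25750219907)], (nat_lit 1271251), (nat_lit 1271251), (nat_lit 169688), (nat_lit 356250), (nat_lit 1271251), (nat_lit 1271251), [(nat_lit 490000), (nat_lit 780000), (nat_lit 1100000)], [(nat_lit 2), (nat_lit 44), (nat_lit 226), (nat_lit 20), (nat_lit 9)]⟩,
 Rw.none,
 ⟨⟨[(nat_lit 140), (nat_lit 160), (nat_lit 180)], [(nat_lit 0), (nat_lit 0), (nat_lit 799)], [((nat_lit 0), (nat_lit 0), (nat_lit 0)), ((nat_lit 0), (nat_lit 0), (nat_lit 0)), ((nat_lit 728), (nat_lit 1000), (nat_lit 454))], ((nat_lit 100), (nat_lit 71), (nat_lit 48))⟩, (nat_lit 32508), (nat_lit 300), (nat_lit 811), (nat_lit 2745401), (nat_lit 956482), [(nat_lit 364154000), (nat_lit 439264000), (nat_lit 520146000)], [], [(nat_lit 2018581132), (nat_lit 1930394059), (nat_lit 2112879904), (nat_lit 2018958658), (nat_lit 1452893157), (nat_lit 1682476427),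 (nat_lit 1503645531), (nat_lit 1403950338)], (nat_lit 780000), (nat_lit 1271251), (nat_lit 1271251), (nat_lit 1271251), (nat_lit 0), (nat_lit 1977501), [(nat_lit 1977501), (nat_lit 1271251), (nat_lit 1271251)], [(nat_lit 31), (nat_lit 65), (nat_lit 428), (nat_lit 200), (nat_lit 10)]⟩⟩) (.trZ (nat_lit 0) (nat_lit 1) (nat_lit 3) (nat_lit 100) (nat_lit 76) (nat_lit 65) (nat_lit 40) (.leaf ⟨(nat_lit 969), (nat_lit 0), (nat_lit 0), (nat_lit 31), (nat_lit 7672), (nat_lit 3222), (nat_lit 732), (nat_lit 403), (nat_lit 0), (nat_lit 0), (nat_lit 359700), [((nat_lit 340), [((nat_lit 18), (nat_lit 0), (nat_lit 186)), ((nat_lit 18), (nat_lit 1), (nat_lit 783))])], ⟨(nat_lit 5), false, false, false, (nat_lit 106), (nat_lit 3872), (nat_lit 4184), [(nat_lit 1234965), (nat_lit 1241901), (nat_lit 1256627), (nat_lit 1263690), (nat_lit 1268094), (nat_lit 1274163), (nat_lit 1289756), (nat_lit 1295952)]⟩, ⟨(nat_lit 7), false, false, true, (nat_lit 250), (nat_lit 3872), (nat_lit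 4184), [(nat_lit 1545843), (nat_lit 1541869), (nat_lit 1610843), (nat_lit 1607248), (nat_lit 1645226), (nat_lit 1638651), (nat_lit 1710226), (nat_lit 1704031)]⟩, (nat_lit 4321545), (nat_lit 44221883), (nat_lit 4708232), (nat_lit 18069885), (nat_lit 0), (nat_lit 0), [⟨(nat_lit 0), (nat_lit 100), (nat_lit 74), (nat_lit 71), (nat_lit 557316007)⟩], [⟨(nat_lit 1), (nat_lit 73), (nat_lit 76), (nat_lit 100), (nat_lit 213872230)⟩], [], [],
 ⟨⟨[(nat_lit 40), (nat_lit 60), (nat_lit 80)], [(nat_lit 0), (nat_lit 197), (nat_lit 800)], [((nat_lit 0), (nat_lit 0), (nat_lit 0)), ((nat_lit 1000), (nat_lit 908), (nat_lit 154)), ((nat_lit 1000), (nat_lit 781), (nat_lit 471))], ((nat_lit 79), (nat_lit 100), (nat_lit 45))⟩, (nat_lit 1235174), (nat_lit 131), (nat_lit 131), (nat_lit 0), (nat_lit 97381), [(nat_lit 1372761201), (nat_lit 1746793205), (nat_lit 2054286195)], [(nat_lit 0), (nat_lit 0), (nat_lit 0)], [(nat_lit 22829015904), (nat_lit 23369784112), (nat_lit 22595347934),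 (nat_lit 23128164246), (nat_lit 25743617765), (nat_lit 26372842790), (nat_lit 25184726954), (nat_lit 25806740211)], (nat_lit 1271251), (nat_lit 1271251), (nat_lit 230000), (nat_lit 356250), (nat_lit 1271251), (nat_lit 1271251), [(nat_lit 490000), (nat_lit 780000), (nat_lit 1100000)], [(nat_lit 2), (nat_lit 44), (nat_lit 226), (nat_lit 20), (nat_lit 9)]⟩,
 ⟨⟨[(nat_lit 100), (nat_lit 140), (nat_lit 160)], [(nat_lit 0), (nat_lit 0), (nat_lit 1280)], [((nat_lit 0), (nat_lit 0), (nat_lit 0)), ((nat_lit 0), (nat_lit 0), (nat_lit 0)), ((nat_lit 800), (nat_lit 1000), (nat_lit 600))], ((nat_lit 100), (nat_lit 90), (nat_lit 44))⟩, (nat_lit 342862), (nat_lit 434), (nat_lit 434), (nat_lit 0), (nat_lit 189787), [(nat_lit 193750000), (nat_lit 305102000), (nat_lit 368032000)], [], [(nat_lit 1033491300), (nat_lit 1089026885), (nat_lit 880319994), (nat_lit 914609646), (nat_lit 1899972070), (nat_lit 1561783495), (nat_lit 1947098495), (nat_lit 1611155605)], (nat_lit 1271251),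 (nat_lit 1271251), (nat_lit 230000), (nat_lit 356250), (nat_lit 0), (nat_lit 1977501), [(nat_lit 1412501), (nat_lit 1271251), (nat_lit 1271251)], [(nat_lit 23), (nat_lit 62), (nat_lit 373), (nat_lit 150), (nat_lit 10)]⟩,
 ⟨⟨[(nat_lit 140), (nat_lit 160), (nat_lit 180)], [(nat_lit 0), (nat_lit 0), (nat_lit 799)], [((nat_lit 0), (nat_lit 0), (nat_lit 0)), ((nat_lit 0), (nat_lit 0), (nat_lit 0)), ((nat_lit 728), (nat_lit 1000), (nat_lit 454))], ((nat_lit 100), (nat_lit 71), (nat_lit 48))⟩, (nat_lit 27237), (nat_lit 300), (nat_lit 965), (nat_lit 2300200), (nat_lit 1295877), [(nat_lit 305102000), (nat_lit 368032000), (nat_lit 435798000)], [], [(nat_lit 1752748928), (nat_lit 1677624381), (nat_lit 1776244820), (nat_lit 1700728417), (nat_lit 1298681109), (nat_lit 1428368602), (nat_lit 1321722402), (nat_lit 1249296598)], (nat_lit 780000), (nat_lit 1271251), (nat_lit 1271251), (nat_lit 1271251), (nat_lit 0), (nat_lit 1977501), [(nat_lit 1977501), (nat_lit 1271251),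 (nat_lit 1271251)], [(nat_lit 31), (nat_lit 65), (nat_lit 428), (nat_lit 200), (nat_lit 10)]⟩⟩)))) (.spl (nat_lit 0) (nat_lit 335) (.leaf ⟨(nat_lit 959), (nat_lit 0), (nat_lit 36), (nat_lit 5), (nat_lit 5758), (nat_lit 3177), (nat_lit 57), (nat_lit 583), (nat_lit 0), (nat_lit 0), (nat_lit 355250), [((nat_lit 335), [((nat_lit 18), (nat_lit 0), (nat_lit 189)), ((nat_lit 18), (nat_lit 1), (nat_lit 770))])], ⟨(nat_lit 4), false, false, false, (nat_lit 114), (nat_lit 4031), (nat_lit 4184), [(nat_lit 1246436), (nat_lit 1249404), (nat_lit 1289768), (nat_lit 1292855), (nat_lit 1279564), (nat_lit 1282099), (nat_lit 1322896), (nat_lit 1325550)]⟩, ⟨(nat_lit 7), false, false, true, (nat_lit 251), (nat_lit 4031), (nat_lit 4184), [(nat_lit 1545843), (nat_lit 1543875), (nat_lit 1610843), (nat_lit 1609054), (nat_lit 1645226), (nat_lit 1641961), (nat_lit 1710226), (nat_lit 1707140)]⟩, (nat_lit 4420632), (nat_lit 43740053), (nat_lit 5242901), (nat_lit 18017046), (nat_lit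 0), (nat_lit 4), [⟨(nat_lit 0), (nat_lit 100), (nat_lit 74), (nat_lit 75), (nat_lit 170318608)⟩], [⟨(nat_lit 1), (nat_lit 73), (nat_lit 76), (nat_lit 100), (nat_lit 252047039)⟩], [], [],
 ⟨⟨[(nat_lit 40), (nat_lit 60), (nat_lit 80)], [(nat_lit 0), (nat_lit 197), (nat_lit 800)], [((nat_lit 0), (nat_lit 0), (nat_lit 0)), ((nat_lit 1000), (nat_lit 908), (nat_lit 154)), ((nat_lit 1000), (nat_lit 781), (nat_lit 471))], ((nat_lit 79), (nat_lit 100), (nat_lit 45))⟩, (nat_lit 798541), (nat_lit 111), (nat_lit 111), (nat_lit 0), (nat_lit 71471), [(nat_lit 1378869754), (nat_lit 1793956168), (nat_lit 2051408432)], [(nat_lit 0), (nat_lit 0), (nat_lit 0)], [(nat_lit 22284643201), (nat_lit 22576038513), (nat_lit 22050107372), (nat_lit 22337109864), (nat_lit 25115564963), (nat_lit 25424652391), (nat_lit 24842470908), (nat_lit 25094158507)], (nat_lit 1271251), (nat_lit 1271251), (nat_lit 356250), (nat_lit 490000), (nat_lit 1271251), (nat_lit 1271251), [(nat_lit 490000),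 (nat_lit 780000), (nat_lit 1100000)], [(nat_lit 2), (nat_lit 44), (nat_lit 226), (nat_lit 20), (nat_lit 9)]⟩,
 ⟨⟨[(nat_lit 120), (nat_lit 140), (nat_lit 160)], [(nat_lit 0), (nat_lit 266), (nat_lit 862)], [((nat_lit 0), (nat_lit 0), (nat_lit 0)), ((nat_lit 960), (nat_lit 1000), (nat_lit 200)), ((nat_lit 874), (nat_lit 1000), (nat_lit 406))], ((nat_lit 100), (nat_lit 86), (nat_lit 44))⟩, (nat_lit 0), (nat_lit 391), (nat_lit 391), (nat_lit 0), (nat_lit 145424), [(nat_lit 39840000), (nat_lit 49210000), (nat_lit 59360000)], [], [(nat_lit 267243672), (nat_lit 206995093), (nat_lit 236631066), (nat_lit 198078433), (nat_lit 247029008), (nat_lit 192926190), (nat_lit 252772553), (nat_lit 199044781)], (nat_lit 1271251), (nat_lit 1271251), (nat_lit 356250), (nat_lit 490000), (nat_lit 0), (nat_lit 2118750), [(nat_lit 1695001), (nat_lit 1271251), (nat_lit 1271251)], [(nat_lit 27), (nat_lit 62), (nat_lit 373), (nat_lit 150), (nat_lit 10)]⟩,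
 ⟨⟨[(nat_lit 140), (nat_lit 160), (nat_lit 180)], [(nat_lit 0), (nat_lit 0), (nat_lit 799)], [((nat_lit 0), (nat_lit 0), (nat_lit 0)), ((nat_lit 0), (nat_lit 0), (nat_lit 0)), ((nat_lit 728), (nat_lit 1000), (nat_lit 454))], ((nat_lit 100), (nat_lit 71), (nat_lit 48))⟩, (nat_lit 36023), (nat_lit 300), (nat_lit 797), (nat_lit 3042200), (nat_lit 922486), [(nat_lit 403522000), (nat_lit 486752000), (nat_lit 576378000)], [], [(nat_lit 2247565208), (nat_lit 2141206590), (nat_lit 2340983480), (nat_lit 2238828025), (nat_lit 1633479579), (nat_lit 1966021836), (nat_lit 1683203825), (nat_lit 1571800562)], (nat_lit 780000), (nat_lit 1271251), (nat_lit 1271251), (nat_lit 1271251), (nat_lit 0), (nat_lit 2118750), [(nat_lit 1977501), (nat_lit 1271251), (nat_lit 1271251)], [(nat_lit 31), (nat_lit 65), (nat_lit 456), (nat_lit 225), (nat_lit 11)]⟩⟩) (.leaf ⟨(nat_lit 966), (nat_lit 0), (nat_lit 0), (nat_lit 34), (nat_lit 4197), (nat_lit 3146), (nat_lit 397), (nat_lit 479),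 (nat_lit 0), (nat_lit 0), (nat_lit 358350), [((nat_lit 340), [((nat_lit 18), (nat_lit 0), (nat_lit 187)), ((nat_lit 18), (nat_lit 1), (nat_lit 779))])], ⟨(nat_lit 4), false, false, false, (nat_lit 116), (nat_lit 3872), (nat_lit 4032), [(nat_lit 1249403), (nat_lit 1252378), (nat_lit 1292854), (nat_lit 1295963), (nat_lit 1282099), (nat_lit 1284639), (nat_lit 1325549), (nat_lit 1328224)]⟩, ⟨(nat_lit 7), false, false, true, (nat_lit 250), (nat_lit 3872), (nat_lit 4032), [(nat_lit 1543875), (nat_lit 1541869), (nat_lit 1609054), (nat_lit 1607248), (nat_lit 1641961), (nat_lit 1638651), (nat_lit 1707140), (nat_lit 1704031)]⟩, (nat_lit 4427869), (nat_lit 43771618), (nat_lit 5324325), (nat_lit 17904057), (nat_lit 0), (nat_lit 0), [⟨(nat_lit 0), (nat_lit 100), (nat_lit 72), (nat_lit 77), (nat_lit 253015668)⟩], [⟨(nat_lit 1), (nat_lit 75), (nat_lit 74), (nat_lit 100), (nat_lit 249175803)⟩], [], [],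
 ⟨⟨[(nat_lit 40), (nat_lit 60), (nat_lit 80)], [(nat_lit 0), (nat_lit 297), (nat_lit 895)], [((nat_lit 0), (nat_lit 0), (nat_lit 0)), ((nat_lit 1000), (nat_lit 861), (nat_lit 231)), ((nat_lit 1000), (nat_lit 767), (nat_lit 466))], ((nat_lit 77), (nat_lit 100), (nat_lit 45))⟩, (nat_lit 662332), (nat_lit 119), (nat_lit 119), (nat_lit 0), (nat_lit 96764), [(nat_lit 1374596010), (nat_lit 1783201211), (nat_lit 2031197600)], [(nat_lit 0), (nat_lit 0), (nat_lit 0)], [(nat_lit 22615693622), (nat_lit 22907665217), (nat_lit 22330378473), (nat_lit 22616143615), (nat_lit 25403556462), (nat_lit 25684010409), (nat_lit 25078033594), (nat_lit 25330053350)], (nat_lit 1271251), (nat_lit 1271251), (nat_lit 356250), (nat_lit 490000), (nat_lit 1271251), (nat_lit 1271251), [(nat_lit 490000), (nat_lit 780000), (nat_lit 1100000)], [(nat_lit 2), (nat_lit 44), (nat_lit 226), (nat_lit 20), (nat_lit 9)]⟩,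
 ⟨⟨[(nat_lit 120), (nat_lit 140), (nat_lit 160)], [(nat_lit 0), (nat_lit 266), (nat_lit 862)], [((nat_lit 0), (nat_lit 0), (nat_lit 0)), ((nat_lit 960), (nat_lit 1000), (nat_lit 200)), ((nat_lit 874), (nat_lit 1000), (nat_lit 406))], ((nat_lit 100), (nat_lit 86), (nat_lit 44))⟩, (nat_lit 0), (nat_lit 417), (nat_lit 417), (nat_lit 0), (nat_lit 197305), [(nat_lit 270912000), (nat_lit 334628000), (nat_lit 403648000)], [], [(nat_lit 1831697257), (nat_lit 1411782615), (nat_lit 1618483146), (nat_lit 1332670372), (nat_lit 1685441169), (nat_lit 1308619785), (nat_lit 1725003316), (nat_lit 1350794094)], (nat_lit 1271251), (nat_lit 1271251), (nat_lit 356250), (nat_lit 490000), (nat_lit 0), (nat_lit 2118750), [(nat_lit 1695001), (nat_lit 1271251), (nat_lit 1271251)], [(nat_lit 27), (nat_lit 62), (nat_lit 373), (nat_lit 150), (nat_lit 10)]⟩,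
 ⟨⟨[(nat_lit 140), (nat_lit 160), (nat_lit 180)], [(nat_lit 0), (nat_lit 0), (nat_lit 799)], [((nat_lit 0), (nat_lit 0), (nat_lit 0)), ((nat_lit 0), (nat_lit 0), (nat_lit 0)), ((nat_lit 728), (nat_lit 1000), (nat_lit 454))], ((nat_lit 100), (nat_lit 71), (nat_lit 48))⟩, (nat_lit 29872), (nat_lit 300), (nat_lit 965), (nat_lit 2522802), (nat_lit 1295877), [(nat_lit 334628000), (nat_lit 403648000), (nat_lit 477972000)], [], [(nat_lit 1870136788), (nat_lit 1778102328), (nat_lit 1941119344), (nat_lit 1857529136), (nat_lit 1361002744), (nat_lit 1631702190), (nat_lit 1402248638), (nat_lit 1311021322)], (nat_lit 780000), (nat_lit 1271251), (nat_lit 1271251), (nat_lit 1271251), (nat_lit 0), (nat_lit 2118750), [(nat_lit 1977501), (nat_lit 1271251), (nat_lit 1271251)], [(nat_lit 31), (nat_lit 65), (nat_lit 456), (nat_lit 225), (nat_lit 11)]⟩⟩))) (.trZ (nat_lit 0) (nat_lit 1) (nat_lit 3) (nat_lit 100) (nat_lit 76) (nat_lit 73) (nat_lit 60) (.spl (nat_lit 0) (nat_lit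 335) (.leaf ⟨(nat_lit 936), (nat_lit 15), (nat_lit 0), (nat_lit 49), (nat_lit 1654), (nat_lit 3281), (nat_lit 1402), (nat_lit 600), (nat_lit 0), (nat_lit 0), (nat_lit 344550), [((nat_lit 335), [((nat_lit 18), (nat_lit 0), (nat_lit 199)), ((nat_lit 18), (nat_lit 1), (nat_lit 737))])], ⟨(nat_lit 5), false, false, false, (nat_lit 127), (nat_lit 4031), (nat_lit 4184), [(nat_lit 1289768), (nat_lit 1292855), (nat_lit 1311434), (nat_lit 1314580), (nat_lit 1322896), (nat_lit 1325550), (nat_lit 1344562), (nat_lit 1347276)]⟩, ⟨(nat_lit 7), false, false, true, (nat_lit 251), (nat_lit 4031), (nat_lit 4184), [(nat_lit 1545843), (nat_lit 1543875), (nat_lit 1610843), (nat_lit 1609054), (nat_lit 1645226), (nat_lit 1641961), (nat_lit 1710226), (nat_lit 1707140)]⟩, (nat_lit 4566853), (nat_lit 43027883), (nat_lit 6130215), (nat_lit 17841902), (nat_lit 7), (nat_lit 0), [⟨(nat_lit 0), (nat_lit 100), (nat_lit 76), (nat_lit 78), (nat_lit 392263501)⟩], [⟨(nat_lit 1), (nat_lit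 86), (nat_lit 77), (nat_lit 100), (nat_lit 123613919)⟩, ⟨(nat_lit 1), (nat_lit 73), (nat_lit 76), (nat_lit 100), (nat_lit 91035417)⟩], [], [],
 ⟨⟨[(nat_lit 40), (nat_lit 60), (nat_lit 80)], [(nat_lit 0), (nat_lit 197), (nat_lit 800)], [((nat_lit 0), (nat_lit 0), (nat_lit 0)), ((nat_lit 1000), (nat_lit 908), (nat_lit 154)), ((nat_lit 1000), (nat_lit 781), (nat_lit 471))], ((nat_lit 79), (nat_lit 100), (nat_lit 45))⟩, (nat_lit 710700), (nat_lit 120), (nat_lit 120), (nat_lit 0), (nat_lit 106233), [(nat_lit 1392988805), (nat_lit 1845541641), (nat_lit 2118792800)], [(nat_lit 0), (nat_lit 0), (nat_lit 0)], [(nat_lit 22329067301), (nat_lit 22626545550), (nat_lit 22017454867), (nat_lit 22310657360), (nat_lit 25274310705), (nat_lit 25588161956), (nat_lit 24848829992), (nat_lit 25118871158)], (nat_lit 1271251), (nat_lit 1271251), (nat_lit 356250), (nat_lit 490000), (nat_lit 1271251), (nat_lit 1271251), [(nat_lit 490000), (nat_lit 780000), (nat_lit 1100000)], [(nat_lit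 2), (nat_lit 44), (nat_lit 226), (nat_lit 20), (nat_lit 9)]⟩,
 ⟨⟨[(nat_lit 100), (nat_lit 120), (nat_lit 140)], [(nat_lit 0), (nat_lit 254), (nat_lit 778)], [((nat_lit 0), (nat_lit 0), (nat_lit 0)), ((nat_lit 1000), (nat_lit 1000), (nat_lit 198)), ((nat_lit 960), (nat_lit 1000), (nat_lit 392))], ((nat_lit 100), (nat_lit 94), (nat_lit 44))⟩, (nat_lit 522882), (nat_lit 311), (nat_lit 311), (nat_lit 0), (nat_lit 179009), [(nat_lit 400000000), (nat_lit 509952000), (nat_lit 629888000)], [], [(nat_lit 1456390831), (nat_lit 1606887950), (nat_lit 1165924162), (nat_lit 1284800196), (nat_lit 3497899784), (nat_lit 2858710021), (nat_lit 3643020021), (nat_lit 3008072096)], (nat_lit 1271251), (nat_lit 1271251), (nat_lit 356250), (nat_lit 490000), (nat_lit 0), (nat_lit 2118750), [(nat_lit 1412501), (nat_lit 1271251), (nat_lit 1271251)], [(nat_lit 22), (nat_lit 58), (nat_lit 401), (nat_lit 175), (nat_lit 12)]⟩,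
 ⟨⟨[(nat_lit 140), (nat_lit 160), (nat_lit 180)], [(nat_lit 0), (nat_lit 0), (nat_lit 799)], [((nat_lit 0), (nat_lit 0), (nat_lit 0)), ((nat_lit 0), (nat_lit 0), (nat_lit 0)), ((nat_lit 728), (nat_lit 1000), (nat_lit 454))], ((nat_lit 100), (nat_lit 71), (nat_lit 48))⟩, (nat_lit 43051), (nat_lit 300), (nat_lit 1018), (nat_lit 3635802), (nat_lit 1422397), [(nat_lit 482258000), (nat_lit 581728000), (nat_lit 688842000)], [], [(nat_lit 2822709276), (nat_lit 2713603819), (nat_lit 2861092365), (nat_lit 2742700856), (nat_lit 2154865942), (nat_lit 2378740594), (nat_lit 2155494843), (nat_lit 2042728594)], (nat_lit 780000), (nat_lit 1271251), (nat_lit 1271251), (nat_lit 1271251), (nat_lit 0), (nat_lit 2118750), [(nat_lit 1977501), (nat_lit 1271251), (nat_lit 1271251)], [(nat_lit 31), (nat_lit 65), (nat_lit 456), (nat_lit 225), (nat_lit 11)]⟩⟩) (.leaf ⟨(nat_lit 952), (nat_lit 7), (nat_lit 0), (nat_lit 41), (nat_lit 0), (nat_lit 3725), (nat_lit 1129), (nat_lit 528),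 (nat_lit 0), (nat_lit 0), (nat_lit 291700), [((nat_lit 340), [((nat_lit 18), (nat_lit 0), (nat_lit 594)), ((nat_lit 18), (nat_lit 1), (nat_lit 358))])], ⟨(nat_lit 5), false, false, false, (nat_lit 129), (nat_lit 3872), (nat_lit 4032), [(nat_lit 1292854), (nat_lit 1295963), (nat_lit 1314579), (nat_lit 1317755), (nat_lit 1325549), (nat_lit 1328224), (nat_lit 1347275), (nat_lit 1350016)]⟩, ⟨(nat_lit 7), false, false, true, (nat_lit 250), (nat_lit 3872), (nat_lit 4032), [(nat_lit 1543875), (nat_lit 1541869), (nat_lit 1609054), (nat_lit 1607248), (nat_lit 1641961), (nat_lit 1638651), (nat_lit 1707140), (nat_lit 1704031)]⟩, (nat_lit 4573975), (nat_lit 43052486), (nat_lit 6218658), (nat_lit 17728856), (nat_lit 7), (nat_lit 0), [⟨(nat_lit 0), (nat_lit 100), (nat_lit 74), (nat_lit 75), (nat_lit 467657748)⟩], [⟨(nat_lit 1), (nat_lit 75), (nat_lit 74), (nat_lit 100), (nat_lit 229114573)⟩], [], [],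
 ⟨⟨[(nat_lit 40), (nat_lit 60), (nat_lit 80)], [(nat_lit 0), (nat_lit 297), (nat_lit 895)], [((nat_lit 0), (nat_lit 0), (nat_lit 0)), ((nat_lit 1000), (nat_lit 861), (nat_lit 231)), ((nat_lit 1000), (nat_lit 767), (nat_lit 466))], ((nat_lit 77), (nat_lit 100), (nat_lit 45))⟩, (nat_lit 192098), (nat_lit 127), (nat_lit 127), (nat_lit 0), (nat_lit 128664), [(nat_lit 1446435338), (nat_lit 1825988899), (nat_lit 2186716701)], [(nat_lit 0), (nat_lit 0), (nat_lit 0)], [(nat_lit 23260527554), (nat_lit 23544635022), (nat_lit 22937541701), (nat_lit 23217296160), (nat_lit 26286222024), (nat_lit 26619017715), (nat_lit 25593535168), (nat_lit 25921967857)], (nat_lit 1271251), (nat_lit 1271251), (nat_lit 356250), (nat_lit 490000), (nat_lit 1271251), (nat_lit 1271251), [(nat_lit 490000), (nat_lit 780000), (nat_lit 1100000)], [(nat_lit 2), (nat_lit 44), (nat_lit 226), (nat_lit 20), (nat_lit 9)]⟩,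
 ⟨⟨[(nat_lit 100), (nat_lit 120), (nat_lit 140)], [(nat_lit 0), (nat_lit 254), (nat_lit 778)], [((nat_lit 0), (nat_lit 0), (nat_lit 0)), ((nat_lit 1000), (nat_lit 1000), (nat_lit 198)), ((nat_lit 960), (nat_lit 1000), (nat_lit 392))], ((nat_lit 100), (nat_lit 94), (nat_lit 44))⟩, (nat_lit 461873), (nat_lit 330), (nat_lit 330), (nat_lit 0), (nat_lit 220807), [(nat_lit 300000000), (nat_lit 382464000), (nat_lit 472416000)], [], [(nat_lit 1055766471), (nat_lit 1260089251), (nat_lit 794674455), (nat_lit 914053970), (nat_lit 2644261183), (nat_lit 2129535618), (nat_lit 2759230618), (nat_lit 2247920912)], (nat_lit 1271251), (nat_lit 1271251), (nat_lit 356250), (nat_lit 490000), (nat_lit 0), (nat_lit 2118750), [(nat_lit 1412501), (nat_lit 1271251), (nat_lit 1271251)], [(nat_lit 22), (nat_lit 58), (nat_lit 401), (nat_lit 175), (nat_lit 12)]⟩,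
 ⟨⟨[(nat_lit 140), (nat_lit 160), (nat_lit 180)], [(nat_lit 0), (nat_lit 0), (nat_lit 799)], [((nat_lit 0), (nat_lit 0), (nat_lit 0)), ((nat_lit 0), (nat_lit 0), (nat_lit 0)), ((nat_lit 728), (nat_lit 1000), (nat_lit 454))], ((nat_lit 100), (nat_lit 71), (nat_lit 48))⟩, (nat_lit 36023), (nat_lit 300), (nat_lit 1179), (nat_lit 3042200), (nat_lit 1781276), [(nat_lit 403522000), (nat_lit 486752000), (nat_lit 576378000)], [], [(nat_lit 2325210468), (nat_lit 2227154871), (nat_lit 2356453845), (nat_lit 2250402734), (nat_lit 1728064298), (nat_lit 1982566124), (nat_lit 1762318039), (nat_lit 1665157971)], (nat_lit 780000), (nat_lit 1271251), (nat_lit 1271251), (nat_lit 1271251), (nat_lit 0), (nat_lit 2118750), [(nat_lit 1977501), (nat_lit 1271251), (nat_lit 1271251)], [(nat_lit 31), (nat_lit 65), (nat_lit 456), (nat_lit 225), (nat_lit 11)]⟩⟩))))))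
noncomputable def c10_11 : Tr Lf :=
 (.spl (nat_lit 1) (nat_lit 180) (.spl (nat_lit 6) (nat_lit 28) (.leaf ⟨(nat_lit 1000), (nat_lit 0), (nat_lit 0), (nat_lit 0), (nat_lit 25170), (nat_lit 3098), (nat_lit 0), (nat_lit 0), (nat_lit 0), (nat_lit 2363084730930), (nat_lit 752000), [((nat_lit 340), [((nat_lit 37), (nat_lit 2), (nat_lit 620)), ((nat_lit 18), (nat_lit 2), (nat_lit 380))])], ⟨(nat_lit 3), false, false, false, (nat_lit 72), (nat_lit 3872), (nat_lit 4473), [(nat_lit 1073842), (nat_lit 1090218), (nat_lit 1138518), (nat_lit 1155575), (nat_lit 1209798), (nat_lit 1219261), (nat_lit 1274489), (nat_lit 1284632)]⟩, ⟨(nat_lit 7), false, false, true, (nat_lit 255), (nat_lit 3872), (nat_lit 4473), [(nat_lit 1549689), (nat_lit 1541869), (nat_lit 1614388), (nat_lit 1607248), (nat_lit 1668651), (nat_lit 1654781), (nat_lit 1733350), (nat_lit 1720161)]⟩, (nat_lit 3917835), (nat_lit 45468553), (nat_lit 2658422), (nat_lit 18873025), (nat_lit 0), (nat_lit 0), [⟨(nat_lit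 0), (nat_lit 100), (nat_lit 72), (nat_lit 63), (nat_lit 111079972)⟩], [⟨(nat_lit 1), (nat_lit 85), (nat_lit 78), (nat_lit 100), (nat_lit 234656503)⟩], [], [],
 ⟨⟨[(nat_lit 40), (nat_lit 80), (nat_lit 100)], [(nat_lit 0), (nat_lit 0), (nat_lit 1280)], [((nat_lit 0), (nat_lit 0), (nat_lit 0)), ((nat_lit 0), (nat_lit 0), (nat_lit 0)), ((nat_lit 1000), (nat_lit 800), (nat_lit 600))], ((nat_lit 80), (nat_lit 100), (nat_lit 51))⟩, (nat_lit 0), (nat_lit 170), (nat_lit 170), (nat_lit 0), (nat_lit 44546), [(nat_lit 1677120048), (nat_lit 1325023993), (nat_lit 543840000)], [(nat_lit 0), (nat_lit 0), (nat_lit 0)], [(nat_lit 23932470513), (nat_lit 24914456295), (nat_lit 23084081257), (nat_lit 24033368427), (nat_lit 26942458713), (nat_lit 27839303806), (nat_lit 25958108412), (nat_lit 26807095677)], (nat_lit 1271251), (nat_lit 1271251), (nat_lit 0), (nat_lit 490000), (nat_lit 1271251), (nat_lit 1271251), [(nat_lit 490000), (nat_lit 1100000), (nat_lit 1442501)], [(nat_lit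 3), (nat_lit 50), (nat_lit 226), (nat_lit 20), (nat_lit 8)]⟩,
 Rw.none,
 Rw.none⟩) (.dle (nat_lit 0))) (.trZ (nat_lit 0) (nat_lit 1) (nat_lit 3) (nat_lit 100) (nat_lit 80) (nat_lit 52) (nat_lit 20) (.spl (nat_lit 1) (nat_lit 220) (.spl (nat_lit 6) (nat_lit 28) (.spl (nat_lit 2) (nat_lit 160) (.trX (nat_lit 4) (nat_lit 0) (nat_lit 2) (nat_lit 82) (nat_lit 76) (nat_lit 100) (nat_lit 340) (.leaf ⟨(nat_lit 1000), (nat_lit 0), (nat_lit 0), (nat_lit 0), (nat_lit 22415), (nat_lit 3865), (nat_lit 0), (nat_lit 0), (nat_lit 0), (nat_lit 0), (nat_lit 729200), [((nat_lit 340), [((nat_lit 37), (nat_lit 2), (nat_lit 677)), ((nat_lit 18), (nat_lit 2), (nat_lit 323))])], ⟨(nat_lit 4), false, false, false, (nat_lit 101), (nat_lit 3872), (nat_lit 4473), [(nat_lit 1172511), (nat_lit 1187839), (nat_lit 1215612), (nat_lit 1231393), (nat_lit 1274489), (nat_lit 1284632), (nat_lit 1317591), (nat_lit 1328187)]⟩, ⟨(nat_lit 7), false, false, true, (nat_lit 247), (nat_lit 3872),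 (nat_lit 4473), [(nat_lit 1549689), (nat_lit 1541869), (nat_lit 1592822), (nat_lit 1585455), (nat_lit 1651656), (nat_lit 1638651), (nat_lit 1694789), (nat_lit 1682237)]⟩, (nat_lit 4233060), (nat_lit 44829849), (nat_lit 4362036), (nat_lit 17808115), (nat_lit 0), (nat_lit 0), [⟨(nat_lit 0), (nat_lit 100), (nat_lit 72), (nat_lit 77), (nat_lit 325149585)⟩], [⟨(nat_lit 1), (nat_lit 89), (nat_lit 80), (nat_lit 100), (nat_lit 340092476)⟩], [], [],
 ⟨⟨[(nat_lit 40), (nat_lit 80), (nat_lit 100)], [(nat_lit 0), (nat_lit 0), (nat_lit 1280)], [((nat_lit 0), (nat_lit 0), (nat_lit 0)), ((nat_lit 0), (nat_lit 0), (nat_lit 0)), ((nat_lit 1000), (nat_lit 800), (nat_lit 600))], ((nat_lit 80), (nat_lit 100), (nat_lit 51))⟩, (nat_lit 0), (nat_lit 155), (nat_lit 155), (nat_lit 0), (nat_lit 46139), [(nat_lit 1662071995), (nat_lit 1363510430), (nat_lit 634584000)], [(nat_lit 0), (nat_lit 0), (nat_lit 0)], [(nat_lit 23032207278), (nat_lit 24657028839), (nat_lit 21543071505),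 (nat_lit 22559168648), (nat_lit 26928070170), (nat_lit 28312091761), (nat_lit 24771006060), (nat_lit 26111602512)], (nat_lit 1271251), (nat_lit 1271251), (nat_lit 111251), (nat_lit 490000), (nat_lit 1271251), (nat_lit 1271251), [(nat_lit 490000), (nat_lit 1100000), (nat_lit 1442501)], [(nat_lit 3), (nat_lit 50), (nat_lit 226), (nat_lit 20), (nat_lit 7)]⟩,
 Rw.none,
 Rw.none⟩)) (.dle (nat_lit 0))) (.dle (nat_lit 0))) (.trZ (nat_lit 0) (nat_lit 1) (nat_lit 3) (nat_lit 100) (nat_lit 80) (nat_lit 68) (nat_lit 50) (.spl (nat_lit 2) (nat_lit 160) (.trX (nat_lit 4) (nat_lit 0) (nat_lit 2) (nat_lit 82) (nat_lit 76) (nat_lit 100) (nat_lit 340) (.spl (nat_lit 0) (nat_lit 330) (.spl (nat_lit 6) (nat_lit 28) (.leaf ⟨(nat_lit 960), (nat_lit 19), (nat_lit 0), (nat_lit 21), (nat_lit 19821), (nat_lit 3548), (nat_lit 665), (nat_lit 299), (nat_lit 0), (nat_lit 0), (nat_lit 697600), [((nat_lit 330), [((nat_lit 37), (nat_lit 2), (nat_lit 656)), ((nat_lit 18), (nat_lit 2),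 (nat_lit 304))])], ⟨(nat_lit 5), false, false, false, (nat_lit 122), (nat_lit 4183), (nat_lit 4473), [(nat_lit 1266640), (nat_lit 1273200), (nat_lit 1288203), (nat_lit 1294863), (nat_lit 1317625), (nat_lit 1322893), (nat_lit 1339187), (nat_lit 1344555)]⟩, ⟨(nat_lit 7), false, false, true, (nat_lit 248), (nat_lit 4183), (nat_lit 4473), [(nat_lit 1549689), (nat_lit 1545843), (nat_lit 1592822), (nat_lit 1589176), (nat_lit 1651656), (nat_lit 1645226), (nat_lit 1694789), (nat_lit 1688560)]⟩, (nat_lit 4494928), (nat_lit 43560898), (nat_lit 5797626), (nat_lit 17641476), (nat_lit 7), (nat_lit 0), [⟨(nat_lit 0), (nat_lit 100), (nat_lit 78), (nat_lit 81), (nat_lit 374065817)⟩], [⟨(nat_lit 1), (nat_lit 87), (nat_lit 82), (nat_lit 100), (nat_lit 263889959)⟩], [], [],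
 ⟨⟨[(nat_lit 40), (nat_lit 80), (nat_lit 100)], [(nat_lit 0), (nat_lit 0), (nat_lit 1280)], [((nat_lit 0), (nat_lit 0), (nat_lit 0)), ((nat_lit 0), (nat_lit 0), (nat_lit 0)), ((nat_lit 1000), (nat_lit 800), (nat_lit 600))], ((nat_lit 80), (nat_lit 100), (nat_lit 51))⟩, (nat_lit 2392), (nat_lit 125), (nat_lit 125), (nat_lit 0), (nat_lit 28121), [(nat_lit 1461833858), (nat_lit 1743097799), (nat_lit 868880000)], [(nat_lit 0), (nat_lit 0), (nat_lit 0)], [(nat_lit 22035220282), (nat_lit 22652186215), (nat_lit 21410008218), (nat_lit 21981742012), (nat_lit 25350793773), (nat_lit 26004732868), (nat_lit 24479859939), (nat_lit 25038622792)], (nat_lit 1271251), (nat_lit 1271251), (nat_lit 292188), (nat_lit 490000), (nat_lit 1271251), (nat_lit 1271251), [(nat_lit 490000), (nat_lit 1100000), (nat_lit 1442501)], [(nat_lit 3), (nat_lit 50), (nat_lit 226), (nat_lit 20), (nat_lit 7)]⟩,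
 ⟨⟨[(nat_lit 100), (nat_lit 140), (nat_lit 160)], [(nat_lit 0), (nat_lit 508), (nat_lit 1689)], [((nat_lit 0), (nat_lit 0), (nat_lit 0)), ((nat_lit 1000), (nat_lit 1000), (nat_lit 198)), ((nat_lit 811), (nat_lit 1000), (nat_lit 671))], ((nat_lit 100), (nat_lit 91), (nat_lit 51))⟩, (nat_lit 359434), (nat_lit 351), (nat_lit 351), (nat_lit 0), (nat_lit 45996), [(nat_lit 250000000), (nat_lit 393680000), (nat_lit 474880000)], [], [(nat_lit 1028210627), (nat_lit 1086361526), (nat_lit 946714925), (nat_lit 862074036), (nat_lit 2100327692), (nat_lit 1796139672), (nat_lit 2203384502), (nat_lit 1902214480)], (nat_lit 1271251), (nat_lit 1271251), (nat_lit 292188), (nat_lit 490000), (nat_lit 0), (nat_lit 2118750), [(nat_lit 1412501), (nat_lit 1271251), (nat_lit 1271251)], [(nat_lit 23), (nat_lit 62), (nat_lit 401), (nat_lit 175), (nat_lit 11)]⟩,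
 ⟨⟨[(nat_lit 140), (nat_lit 180), (nat_lit 200)], [(nat_lit 0), (nat_lit 0), (nat_lit 2835)], [((nat_lit 0), (nat_lit 0), (nat_lit 0)), ((nat_lit 0), (nat_lit 0), (nat_lit 0)), ((nat_lit 363), (nat_lit 1000), (nat_lit 798))], ((nat_lit 0), (nat_lit 0), (nat_lit 0))⟩, (nat_lit 5778), (nat_lit 300), (nat_lit 619), (nat_lit 1640100), (nat_lit 366350), [(nat_lit 206682000), (nat_lit 295218000), (nat_lit 344400000)], [], [(nat_lit 1382935278), (nat_lit 1330559232), (nat_lit 1411624978), (nat_lit 1360363855), (nat_lit 1013531749), (nat_lit 966079716), (nat_lit 1023028571), (nat_lit 973116100)], (nat_lit 780000), (nat_lit 1100000), (nat_lit 1271251), (nat_lit 1271251), (nat_lit 0), (nat_lit 2118750), [(nat_lit 1977501), (nat_lit 1271251), (nat_lit 1271251)], [(nat_lit 32), (nat_lit 67), (nat_lit 428), (nat_lit 200), (nat_lit 9)]⟩⟩) (.dle (nat_lit 0))) (.trZ (nat_lit 0) (nat_lit 1) (nat_lit 3) (nat_lit 100) (nat_lit 76) (nat_lit 73) (nat_lit 60) (.trX (nat_lit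 4) (nat_lit 0) (nat_lit 2) (nat_lit 78) (nat_lit 81) (nat_lit 100) (nat_lit 330) (.leaf ⟨(nat_lit 951), (nat_lit 23), (nat_lit 0), (nat_lit 26), (nat_lit 8613), (nat_lit 3661), (nat_lit 819), (nat_lit 350), (nat_lit 0), (nat_lit 0), (nat_lit 300700), [((nat_lit 340), [((nat_lit 18), (nat_lit 0), (nat_lit 742)), ((nat_lit 18), (nat_lit 1), (nat_lit 51)), ((nat_lit 37), (nat_lit 2), (nat_lit 158))])], ⟨(nat_lit 5), false, false, false, (nat_lit 128), (nat_lit 3872), (nat_lit 4184), [(nat_lit 1289756), (nat_lit 1295952), (nat_lit 1311418), (nat_lit 1317740), (nat_lit 1322885), (nat_lit 1328214), (nat_lit 1344547), (nat_lit 1350002)]⟩, ⟨(nat_lit 7), false, false, true, (nat_lit 243), (nat_lit 3872), (nat_lit 4184), [(nat_lit 1545843), (nat_lit 1541869), (nat_lit 1589176), (nat_lit 1585455), (nat_lit 1628662), (nat_lit 1622521), (nat_lit 1671996), (nat_lit 1666107)]⟩, (nat_lit 4526981), (nat_lit 43712758), (nat_lit 6227544), (nat_lit 17059698), (nat_lit 7),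 (nat_lit 0), [⟨(nat_lit 0), (nat_lit 100), (nat_lit 75), (nat_lit 79), (nat_lit 419116740)⟩], [⟨(nat_lit 1), (nat_lit 81), (nat_lit 78), (nat_lit 100), (nat_lit 249476349)⟩], [], [],
 ⟨⟨[(nat_lit 40), (nat_lit 80), (nat_lit 100)], [(nat_lit 0), (nat_lit 395), (nat_lit 1536)], [((nat_lit 0), (nat_lit 0), (nat_lit 0)), ((nat_lit 1000), (nat_lit 908), (nat_lit 154)), ((nat_lit 1000), (nat_lit 760), (nat_lit 642))], ((nat_lit 76), (nat_lit 100), (nat_lit 58))⟩, (nat_lit 918443), (nat_lit 132), (nat_lit 132), (nat_lit 0), (nat_lit 79523), [(nat_lit 1479689975), (nat_lit 2171496810), (nat_lit 2488765200)], [(nat_lit 0), (nat_lit 0), (nat_lit 0)], [(nat_lit 22621491620), (nat_lit 23243397142), (nat_lit 22150902413), (nat_lit 22764368935), (nat_lit 25176973828), (nat_lit 25855535203), (nat_lit 24521759550), (nat_lit 25182165407)], (nat_lit 1271251), (nat_lit 1271251), (nat_lit 356250), (nat_lit 490000), (nat_lit 1271251), (nat_lit 1271251), [(nat_lit 490000),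 (nat_lit 1100000), (nat_lit 1442501)], [(nat_lit 3), (nat_lit 50), (nat_lit 226), (nat_lit 20), (nat_lit 7)]⟩,
 ⟨⟨[(nat_lit 100), (nat_lit 140), (nat_lit 160)], [(nat_lit 0), (nat_lit 508), (nat_lit 1689)], [((nat_lit 0), (nat_lit 0), (nat_lit 0)), ((nat_lit 1000), (nat_lit 1000), (nat_lit 198)), ((nat_lit 811), (nat_lit 1000), (nat_lit 671))], ((nat_lit 100), (nat_lit 88), (nat_lit 58))⟩, (nat_lit 434621), (nat_lit 382), (nat_lit 382), (nat_lit 0), (nat_lit 136868), [(nat_lit 306250000), (nat_lit 482258000), (nat_lit 581728000)], [], [(nat_lit 1177319438), (nat_lit 1248971518), (nat_lit 1155210735), (nat_lit 1058962391), (nat_lit 2609680860), (nat_lit 2236288266), (nat_lit 2700668266), (nat_lit 2329753608)], (nat_lit 1271251), (nat_lit 1271251), (nat_lit 356250), (nat_lit 490000), (nat_lit 0), (nat_lit 2118750), [(nat_lit 1412501), (nat_lit 1271251), (nat_lit 1271251)], [(nat_lit 23), (nat_lit 62), (nat_lit 401), (nat_lit 175), (nat_lit 11)]⟩,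
 ⟨⟨[(nat_lit 140), (nat_lit 180), (nat_lit 200)], [(nat_lit 0), (nat_lit 0), (nat_lit 2835)], [((nat_lit 0), (nat_lit 0), (nat_lit 0)), ((nat_lit 0), (nat_lit 0), (nat_lit 0)), ((nat_lit 363), (nat_lit 1000), (nat_lit 798))], ((nat_lit 0), (nat_lit 0), (nat_lit 0))⟩, (nat_lit 7153), (nat_lit 300), (nat_lit 931), (nat_lit 2030607), (nat_lit 1081983), [(nat_lit 255892000), (nat_lit 365508000), (nat_lit 426400000)], [], [(nat_lit 1738281300), (nat_lit 1677790216), (nat_lit 1731459930), (nat_lit 1672406899), (nat_lit 1280849565), (nat_lit 1226174756), (nat_lit 1287992323), (nat_lit 1230994031)], (nat_lit 780000), (nat_lit 1100000), (nat_lit 1271251), (nat_lit 1271251), (nat_lit 0), (nat_lit 2118750), [(nat_lit 1977501), (nat_lit 1271251), (nat_lit 1271251)], [(nat_lit 32), (nat_lit 67), (nat_lit 428), (nat_lit 200), (nat_lit 9)]⟩⟩))))) (.spl (nat_lit 6) (nat_lit 28) (.leaf ⟨(nat_lit 158), (nat_lit 208), (nat_lit 0), (nat_lit 634), (nat_lit 56825), (nat_lit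 4801), (nat_lit 18386), (nat_lit 7882), (nat_lit 0), (nat_lit 0), (nat_lit 632000), [((nat_lit 340), [((nat_lit 37), (nat_lit 5), (nat_lit 158))])], ⟨(nat_lit 5), false, false, false, (nat_lit 124), (nat_lit 3872), (nat_lit 4473), [(nat_lit 1266601), (nat_lit 1279790), (nat_lit 1288150), (nat_lit 1301566), (nat_lit 1317591), (nat_lit 1328187), (nat_lit 1339140), (nat_lit 1349963)]⟩, ⟨(nat_lit 7), false, false, true, (nat_lit 263), (nat_lit 3872), (nat_lit 4473), [(nat_lit 1592822), (nat_lit 1585455), (nat_lit 1614388), (nat_lit 1607248), (nat_lit 1711784), (nat_lit 1698368), (nat_lit 1733350), (nat_lit 1720161)]⟩, (nat_lit 4587539), (nat_lit 42138788), (nat_lit 5774311), (nat_lit 19086901), (nat_lit 7), (nat_lit 0), [⟨(nat_lit 0), (nat_lit 100), (nat_lit 77), (nat_lit 77), (nat_lit 2507973788)⟩], [], [], [],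
 ⟨⟨[(nat_lit 40), (nat_lit 80), (nat_lit 100)], [(nat_lit 0), (nat_lit 0), (nat_lit 1280)], [((nat_lit 0), (nat_lit 0), (nat_lit 0)), ((nat_lit 0), (nat_lit 0), (nat_lit 0)), ((nat_lit 1000), (nat_lit 800), (nat_lit 600))], ((nat_lit 80), (nat_lit 100), (nat_lit 51))⟩, (nat_lit 688462), (nat_lit 134), (nat_lit 134), (nat_lit 0), (nat_lit 31899), [(nat_lit 2270278925), (nat_lit 3245612582), (nat_lit 3317646400)], [(nat_lit 0), (nat_lit 0), (nat_lit 0)], [(nat_lit 23420785319), (nat_lit 24861367673), (nat_lit 22447810852), (nat_lit 23777277528), (nat_lit 28129548733), (nat_lit 29606710139), (nat_lit 26674754620), (nat_lit 28128596828)], (nat_lit 1271251), (nat_lit 1271251), (nat_lit 292188), (nat_lit 490000), (nat_lit 1271251), (nat_lit 1271251), [(nat_lit 490000), (nat_lit 1100000), (nat_lit 1442501)], [(nat_lit 3), (nat_lit 50), (nat_lit 226), (nat_lit 20), (nat_lit 7)]⟩,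
 ⟨⟨[(nat_lit 100), (nat_lit 140), (nat_lit 160)], [(nat_lit 0), (nat_lit 508), (nat_lit 1689)], [((nat_lit 0), (nat_lit 0), (nat_lit 0)), ((nat_lit 1000), (nat_lit 1000), (nat_lit 198)), ((nat_lit 811), (nat_lit 1000), (nat_lit 671))], ((nat_lit 100), (nat_lit 91), (nat_lit 51))⟩, (nat_lit 9582715), (nat_lit 355), (nat_lit 355), (nat_lit 0), (nat_lit 55213), [(nat_lit 5262500000), (nat_lit 8286964000), (nat_lit 9996224000)], [], [(nat_lit 21748519402), (nat_lit 23806842133), (nat_lit 15400471686), (nat_lit 17383550996), (nat_lit 45267434659), (nat_lit 36857207692), (nat_lit 47907931747), (nat_lit 39581146768)], (nat_lit 1271251), (nat_lit 1271251), (nat_lit 292188), (nat_lit 490000), (nat_lit 0), (nat_lit 2118750), [(nat_lit 1412501), (nat_lit 1271251), (nat_lit 1271251)], [(nat_lit 23), (nat_lit 62), (nat_lit 401), (nat_lit 175), (nat_lit 11)]⟩,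
 ⟨⟨[(nat_lit 120), (nat_lit 160), (nat_lit 180)], [(nat_lit 0), (nat_lit 0), (nat_lit 1613)], [((nat_lit 0), (nat_lit 0), (nat_lit 0)), ((nat_lit 0), (nat_lit 0), (nat_lit 0)), ((nat_lit 620), (nat_lit 1000), (nat_lit 670))], ((nat_lit 100), (nat_lit 76), (nat_lit 52))⟩, (nat_lit 275926), (nat_lit 300), (nat_lit 447), (nat_lit 47042800), (nat_lit 236159), [(nat_lit 5051712000), (nat_lit 7526848000), (nat_lit 8912772000)], [], [(nat_lit 33550826266), (nat_lit 33425813413), (nat_lit 35417432301), (nat_lit 35194572589), (nat_lit 25849085861), (nat_lit 25600886790), (nat_lit 26725723622), (nat_lit 26412145611)], (nat_lit 1100000), (nat_lit 1271251), (nat_lit 1271251), (nat_lit 1271251), (nat_lit 0), (nat_lit 2118750), [(nat_lit 1695001), (nat_lit 1271251), (nat_lit 1271251)], [(nat_lit 28), (nat_lit 65), (nat_lit 456), (nat_lit 225), (nat_lit 10)]⟩⟩) (.dle (nat_lit 0))))))))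
noncomputable def c10_12 : Tr Lf :=
 (.spl (nat_lit 2) (nat_lit 160) (.leaf ⟨(nat_lit 1000), (nat_lit 0), (nat_lit 0), (nat_lit 0), (nat_lit 1296), (nat_lit 3729), (nat_lit 0), (nat_lit 0), (nat_lit 0), (nat_lit 22052), (nat_lit 697600), [((nat_lit 340), [((nat_lit 37), (nat_lit 2), (nat_lit 756)), ((nat_lit 18), (nat_lit 2), (nat_lit 244))])], ⟨(nat_lit 3), false, false, false, (nat_lit 125), (nat_lit 3872), (nat_lit 4473), [(nat_lit 1209798), (nat_lit 1219261), (nat_lit 1339140), (nat_lit 1349963), (nat_lit 1277776), (nat_lit 1283782), (nat_lit 1407125), (nat_lit 1414492)]⟩, ⟨(nat_lit 5), false, false, true, (nat_lit 200), (nat_lit 3872), (nat_lit 4473), [(nat_lit 1413733), (nat_lit 1412825), (nat_lit 1456866), (nat_lit 1456412), (nat_lit 1549689), (nat_lit 1541869), (nat_lit 1592822), (nat_lit 1585455)]⟩, (nat_lit 4181183), (nat_lit 47653738), (nat_lit 6258913), (nat_lit 13087349), (nat_lit 0), (nat_lit 0), [], [], [], [],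
 ⟨⟨[(nat_lit 40), (nat_lit 80), (nat_lit 100)], [(nat_lit 0), (nat_lit 0), (nat_lit 1280)], [((nat_lit 0), (nat_lit 0), (nat_lit 0)), ((nat_lit 0), (nat_lit 0), (nat_lit 0)), ((nat_lit 1000), (nat_lit 800), (nat_lit 600))], ((nat_lit 80), (nat_lit 100), (nat_lit 57))⟩, (nat_lit 0), (nat_lit 145), (nat_lit 145), (nat_lit 0), (nat_lit 224295), [(nat_lit 1452210776), (nat_lit 1605856494), (nat_lit 760352000)], [(nat_lit 0), (nat_lit 0), (nat_lit 0)], [(nat_lit 18034536802), (nat_lit 19412460760), (nat_lit 18541338872), (nat_lit 19838589795), (nat_lit 21188262400), (nat_lit 22426330078), (nat_lit 21537666047), (nat_lit 22665308121)], (nat_lit 1271251), (nat_lit 1271251), (nat_lit 490000), (nat_lit 780000), (nat_lit 1271251), (nat_lit 1271251), [(nat_lit 490000), (nat_lit 1100000), (nat_lit 1442501)], [(nat_lit 3), (nat_lit 50), (nat_lit 238), (nat_lit 30), (nat_lit 8)]⟩,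
 Rw.none,
 Rw.none⟩) (.ord (.spl (nat_lit 6) (nat_lit 28) (.leaf ⟨(nat_lit 973), (nat_lit 0), (nat_lit 18), (nat_lit 9), (nat_lit 520), (nat_lit 3766), (nat_lit 178), (nat_lit 558), (nat_lit 0), (nat_lit 23549), (nat_lit 708600), [((nat_lit 340), [((nat_lit 37), (nat_lit 2), (nat_lit 661)), ((nat_lit 18), (nat_lit 2), (nat_lit 312))])], ⟨(nat_lit 4), false, false, false, (nat_lit 134), (nat_lit 3872), (nat_lit 4473), [(nat_lit 1252931), (nat_lit 1262847), (nat_lit 1339140), (nat_lit 1349963), (nat_lit 1320909), (nat_lit 1327369), (nat_lit 1407125), (nat_lit 1414492)]⟩, ⟨(nat_lit 5), false, false, true, (nat_lit 213), (nat_lit 3872), (nat_lit 4473), [(nat_lit 1456866), (nat_lit 1456412), (nat_lit 1478432), (nat_lit 1478205), (nat_lit 1592822), (nat_lit 1585455), (nat_lit 1614388), (nat_lit 1607248)]⟩, (nat_lit 4390640), (nat_lit 45932108), (nat_lit 6830843), (nat_lit 14237049), (nat_lit 0), (nat_lit 4), [], [], [], [],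
 ⟨⟨[(nat_lit 40), (nat_lit 80), (nat_lit 100)], [(nat_lit 0), (nat_lit 0), (nat_lit 1280)], [((nat_lit 0), (nat_lit 0), (nat_lit 0)), ((nat_lit 0), (nat_lit 0), (nat_lit 0)), ((nat_lit 1000), (nat_lit 800), (nat_lit 600))], ((nat_lit 80), (nat_lit 100), (nat_lit 51))⟩, (nat_lit 0), (nat_lit 134), (nat_lit 134), (nat_lit 0), (nat_lit 188142), [(nat_lit 1473042169), (nat_lit 1649014736), (nat_lit 789828400)], [(nat_lit 0), (nat_lit 0), (nat_lit 0)], [(nat_lit 18040509498), (nat_lit 19422965613), (nat_lit 18543642278), (nat_lit 19847277930), (nat_lit 21200704000), (nat_lit 22461064495), (nat_lit 21548352728), (nat_lit 22692557131)], (nat_lit 1271251), (nat_lit 1271251), (nat_lit 490000), (nat_lit 780000), (nat_lit 1271251), (nat_lit 1271251), [(nat_lit 490000), (nat_lit 1100000), (nat_lit 1442501)], [(nat_lit 3), (nat_lit 50), (nat_lit 238), (nat_lit 30), (nat_lit 8)]⟩,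
 ⟨⟨[(nat_lit 120), (nat_lit 160), (nat_lit 180)], [(nat_lit 0), (nat_lit 0), (nat_lit 1613)], [((nat_lit 0), (nat_lit 0), (nat_lit 0)), ((nat_lit 0), (nat_lit 0), (nat_lit 0)), ((nat_lit 620), (nat_lit 1000), (nat_lit 670))], ((nat_lit 100), (nat_lit 76), (nat_lit 52))⟩, (nat_lit 43680), (nat_lit 645), (nat_lit 645), (nat_lit 0), (nat_lit 459998), [(nat_lit 71712000), (nat_lit 106848000), (nat_lit 126522000)], [], [(nat_lit 594677848), (nat_lit 388486020), (nat_lit 407864000), (nat_lit 395037680), (nat_lit 558344598), (nat_lit 745111370), (nat_lit 612457610), (nat_lit 803388826)], (nat_lit 1100000), (nat_lit 1785001), (nat_lit 490000), (nat_lit 780000), (nat_lit 0), (nat_lit 2754376), [(nat_lit 1695001), (nat_lit 1271251), (nat_lit 1271251)], [(nat_lit 28), (nat_lit 65), (nat_lit 428), (nat_lit 200), (nat_lit 10)]⟩,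
 ⟨⟨[(nat_lit 120), (nat_lit 160), (nat_lit 180)], [(nat_lit 0), (nat_lit 0), (nat_lit 1613)], [((nat_lit 0), (nat_lit 0), (nat_lit 0)), ((nat_lit 0), (nat_lit 0), (nat_lit 0)), ((nat_lit 620), (nat_lit 1000), (nat_lit 670))], ((nat_lit 100), (nat_lit 76), (nat_lit 52))⟩, (nat_lit 11751), (nat_lit 300), (nat_lit 1018), (nat_lit 2003400), (nat_lit 1403723), [(nat_lit 215136000), (nat_lit 320544000), (nat_lit 379566000)], [], [(nat_lit 1351729152), (nat_lit 1341763956), (nat_lit 1377615348), (nat_lit 1362000867), (nat_lit 2005830599), (nat_lit 2160993055), (nat_lit 1187502624), (nat_lit 1187226486)], (nat_lit 1100000), (nat_lit 1271251), (nat_lit 1271251), (nat_lit 1271251), (nat_lit 0), (nat_lit 2754376), [(nat_lit 1695001), (nat_lit 1271251), (nat_lit 1271251)], [(nat_lit 28), (nat_lit 65), (nat_lit 456), (nat_lit 225), (nat_lit 11)]⟩⟩) (.dle (nat_lit 0)))))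
noncomputable def c10_13 : Tr Lf :=
 (.spl (nat_lit 1) (nat_lit 180) (.leaf ⟨(nat_lit 971), (nat_lit 0), (nat_lit 29), (nat_lit 0), (nat_lit 2096), (nat_lit 3501), (nat_lit 0), (nat_lit 466), (nat_lit 0), (nat_lit 1383618921), (nat_lit 813000), [((nat_lit 340), [((nat_lit 37), (nat_lit 2), (nat_lit 395)), ((nat_lit 18), (nat_lit 2), (nat_lit 576))])], ⟨(nat_lit 3), false, false, false, (nat_lit 112), (nat_lit 3872), (nat_lit 4473), [(nat_lit 1209798), (nat_lit 1219261), (nat_lit 1274489), (nat_lit 1284632), (nat_lit 1277776), (nat_lit 1283782), (nat_lit 1342475), (nat_lit 1349162)]⟩, ⟨(nat_lit 7), false, false, true, (nat_lit 255), (nat_lit 3872), (nat_lit 4473), [(nat_lit 1549689), (nat_lit 1541869), (nat_lit 1614388), (nat_lit 1607248), (nat_lit 1668651), (nat_lit 1654781), (nat_lit 1733350), (nat_lit 1720161)]⟩, (nat_lit 4414356), (nat_lit 43519669), (nat_lit 5064226), (nat_lit 18416105), (nat_lit 0), (nat_lit 3), [], [⟨(nat_lit 1), (nat_lit 68),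 (nat_lit 80), (nat_lit 100), (nat_lit 174437013)⟩], [], [],
 ⟨⟨[(nat_lit 40), (nat_lit 80), (nat_lit 100)], [(nat_lit 0), (nat_lit 0), (nat_lit 1280)], [((nat_lit 0), (nat_lit 0), (nat_lit 0)), ((nat_lit 0), (nat_lit 0), (nat_lit 0)), ((nat_lit 1000), (nat_lit 800), (nat_lit 600))], ((nat_lit 82), (nat_lit 100), (nat_lit 44))⟩, (nat_lit 0), (nat_lit 159), (nat_lit 159), (nat_lit 0), (nat_lit 195686), [(nat_lit 1738511313), (nat_lit 1281799889), (nat_lit 379742800)], [(nat_lit 0), (nat_lit 0), (nat_lit 0)], [(nat_lit 22168048409), (nat_lit 23201194570), (nat_lit 22503359653), (nat_lit 23489779009), (nat_lit 25201384534), (nat_lit 26258185591), (nat_lit 25429722455), (nat_lit 26420322630)], (nat_lit 1271251), (nat_lit 1271251), (nat_lit 490000), (nat_lit 780000), (nat_lit 1271251), (nat_lit 1271251), [(nat_lit 490000), (nat_lit 1100000), (nat_lit 1442501)], [(nat_lit 3), (nat_lit 50), (nat_lit 238), (nat_lit 30), (nat_lit 8)]⟩,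
 Rw.none,
 ⟨⟨[(nat_lit 140), (nat_lit 160), (nat_lit 180)], [(nat_lit 0), (nat_lit 0), (nat_lit 799)], [((nat_lit 0), (nat_lit 0), (nat_lit 0)), ((nat_lit 0), (nat_lit 0), (nat_lit 0)), ((nat_lit 728), (nat_lit 1000), (nat_lit 454))], ((nat_lit 100), (nat_lit 71), (nat_lit 48))⟩, (nat_lit 25479), (nat_lit 300), (nat_lit 1390), (nat_lit 2151802), (nat_lit 2248535), [(nat_lit 285418000), (nat_lit 344288000), (nat_lit 407682000)], [], [(nat_lit 1573010076), (nat_lit 1499582212), (nat_lit 1678187306), (nat_lit 1590610357), (nat_lit 1161774600), (nat_lit 1532425540), (nat_lit 1256513592), (nat_lit 1172936849)], (nat_lit 780000), (nat_lit 1271251), (nat_lit 1271251), (nat_lit 1271251), (nat_lit 0), (nat_lit 2401251), [(nat_lit 1977501), (nat_lit 1271251), (nat_lit 1271251)], [(nat_lit 31), (nat_lit 65), (nat_lit 457), (nat_lit 225), (nat_lit 11)]⟩⟩) (.stt (nat_lit 3) (.spl (nat_lit 0) (nat_lit 330) (.leaf ⟨(nat_lit 783), (nat_lit 0), (nat_lit 121), (nat_lit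 96), (nat_lit 1518), (nat_lit 3782), (nat_lit 1174), (nat_lit 3484), (nat_lit 0), (nat_lit 0), (nat_lit 693800), [((nat_lit 330), [((nat_lit 37), (nat_lit 2), (nat_lit 223)), ((nat_lit 18), (nat_lit 2), (nat_lit 560))])], ⟨(nat_lit 4), false, false, false, (nat_lit 137), (nat_lit 4183), (nat_lit 4473), [(nat_lit 1274498), (nat_lit 1279565), (nat_lit 1339187), (nat_lit 1344555), (nat_lit 1342476), (nat_lit 1345821), (nat_lit 1407167), (nat_lit 1410812)]⟩, ⟨(nat_lit 7), true, false, true, (nat_lit 256), (nat_lit 4183), (nat_lit 4473), [(nat_lit 1549689), (nat_lit 1545843), (nat_lit 1614388), (nat_lit 1610843), (nat_lit 1668651), (nat_lit 1661790), (nat_lit 1733350), (nat_lit 1726790)]⟩, (nat_lit 4695532), (nat_lit 42062939), (nat_lit 6778497), (nat_lit 18158564), (nat_lit 0), (nat_lit 4), [], [⟨(nat_lit 1), (nat_lit 83), (nat_lit 81), (nat_lit 100), (nat_lit 160587481)⟩], [], [],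
 ⟨⟨[(nat_lit 40), (nat_lit 80), (nat_lit 100)], [(nat_lit 0), (nat_lit 0), (nat_lit 1280)], [((nat_lit 0), (nat_lit 0), (nat_lit 0)), ((nat_lit 0), (nat_lit 0), (nat_lit 0)), ((nat_lit 1000), (nat_lit 800), (nat_lit 600))], ((nat_lit 82), (nat_lit 100), (nat_lit 44))⟩, (nat_lit 0), (nat_lit 150), (nat_lit 150), (nat_lit 0), (nat_lit 178297), [(nat_lit 1614859460), (nat_lit 2052283791), (nat_lit 1364240400)], [(nat_lit 0), (nat_lit 0), (nat_lit 0)], [(nat_lit 21856897151), (nat_lit 22446542417), (nat_lit 22203198269), (nat_lit 22765222905), (nat_lit 25374262198), (nat_lit 26017671007), (nat_lit 25487643028), (nat_lit 26033318714)], (nat_lit 1271251), (nat_lit 1271251), (nat_lit 490000), (nat_lit 780000), (nat_lit 1271251), (nat_lit 1271251), [(nat_lit 490000), (nat_lit 1100000), (nat_lit 1442501)], [(nat_lit 3), (nat_lit 50), (nat_lit 238), (nat_lit 30), (nat_lit 8)]⟩,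
 ⟨⟨[(nat_lit 120), (nat_lit 140), (nat_lit 160)], [(nat_lit 0), (nat_lit 266), (nat_lit 862)], [((nat_lit 0), (nat_lit 0), (nat_lit 0)), ((nat_lit 960), (nat_lit 1000), (nat_lit 200)), ((nat_lit 874), (nat_lit 1000), (nat_lit 406))], ((nat_lit 100), (nat_lit 86), (nat_lit 44))⟩, (nat_lit 900992), (nat_lit 483), (nat_lit 483), (nat_lit 0), (nat_lit 315725), [(nat_lit 764928000), (nat_lit 944832000), (nat_lit 1139712000)], [], [(nat_lit 4622847852), (nat_lit 2781775976), (nat_lit 3399783457), (nat_lit 2675819580), (nat_lit 5233605940), (nat_lit 3595918204), (nat_lit 5622118137), (nat_lit 4005742463)], (nat_lit 1271251), (nat_lit 1271251), (nat_lit 490000), (nat_lit 780000), (nat_lit 0), (nat_lit 2401251), [(nat_lit 1695001), (nat_lit 1271251), (nat_lit 1271251)], [(nat_lit 27), (nat_lit 62), (nat_lit 401), (nat_lit 175), (nat_lit 11)]⟩,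
 ⟨⟨[(nat_lit 140), (nat_lit 160), (nat_lit 180)], [(nat_lit 0), (nat_lit 0), (nat_lit 799)], [((nat_lit 0), (nat_lit 0), (nat_lit 0)), ((nat_lit 0), (nat_lit 0), (nat_lit 0)), ((nat_lit 728), (nat_lit 1000), (nat_lit 454))], ((nat_lit 100), (nat_lit 71), (nat_lit 48))⟩, (nat_lit 190656), (nat_lit 300), (nat_lit 368), (nat_lit 16101400), (nat_lit 0), [(nat_lit 2135714000), (nat_lit 2576224000), (nat_lit 3050586000)], [], [(nat_lit 11770597328), (nat_lit 11221831867), (nat_lit 12557260766), (nat_lit 11898912344), (nat_lit 8528553984), (nat_lit 8021712726), (nat_lit 9402107637), (nat_lit 8777457572)], (nat_lit 0), (nat_lit 0), (nat_lit 0), (nat_lit 0), (nat_lit 0), (nat_lit 0), [], [(nat_lit 31), (nat_lit 65), (nat_lit 456), (nat_lit 225), (nat_lit 11)]⟩⟩) (.trX (nat_lit 4) (nat_lit 0) (nat_lit 2) (nat_lit 76) (nat_lit 73) (nat_lit 100) (nat_lit 340) (.leaf ⟨(nat_lit 805), (nat_lit 0), (nat_lit 113), (nat_lit 82), (nat_lit 0), (nat_lit 3717), (nat_lit 1092),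 (nat_lit 3253), (nat_lit 0), (nat_lit 0), (nat_lit 284200), [((nat_lit 340), [((nat_lit 18), (nat_lit 0), (nat_lit 252)), ((nat_lit 18), (nat_lit 1), (nat_lit 553))])], ⟨(nat_lit 4), false, false, false, (nat_lit 139), (nat_lit 3872), (nat_lit 4184), [(nat_lit 1279562), (nat_lit 1284637), (nat_lit 1344547), (nat_lit 1350002), (nat_lit 1345820), (nat_lit 1349161), (nat_lit 1410806), (nat_lit 1414527)]⟩, ⟨(nat_lit 7), true, false, true, (nat_lit 250), (nat_lit 3872), (nat_lit 4184), [(nat_lit 1545843), (nat_lit 1541869), (nat_lit 1610843), (nat_lit 1607248), (nat_lit 1645226), (nat_lit 1638651), (nat_lit 1710226), (nat_lit 1704031)]⟩, (nat_lit 4686039), (nat_lit 42424519), (nat_lit 6947393), (nat_lit 17628088), (nat_lit 0), (nat_lit 4), [], [⟨(nat_lit 1), (nat_lit 87), (nat_lit 76), (nat_lit 100), (nat_lit 158678784)⟩], [], [],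
 ⟨⟨[(nat_lit 40), (nat_lit 60), (nat_lit 80)], [(nat_lit 0), (nat_lit 197), (nat_lit 800)], [((nat_lit 0), (nat_lit 0), (nat_lit 0)), ((nat_lit 1000), (nat_lit 908), (nat_lit 154)), ((nat_lit 1000), (nat_lit 781), (nat_lit 471))], ((nat_lit 79), (nat_lit 100), (nat_lit 45))⟩, (nat_lit 854582), (nat_lit 137), (nat_lit 137), (nat_lit 0), (nat_lit 219008), [(nat_lit 1473317468), (nat_lit 2025546206), (nat_lit 2507495594)], [(nat_lit 0), (nat_lit 0), (nat_lit 0)], [(nat_lit 22597740391), (nat_lit 23156698304), (nat_lit 22909271246), (nat_lit 23442322749), (nat_lit 25286340061), (nat_lit 25911131591), (nat_lit 25472970030), (nat_lit 25941764194)], (nat_lit 1271251), (nat_lit 1271251), (nat_lit 490000), (nat_lit 780000), (nat_lit 1271251), (nat_lit 1271251), [(nat_lit 490000), (nat_lit 780000), (nat_lit 1100000)], [(nat_lit 2), (nat_lit 44), (nat_lit 238), (nat_lit 30), (nat_lit 9)]⟩,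
 ⟨⟨[(nat_lit 120), (nat_lit 140), (nat_lit 160)], [(nat_lit 0), (nat_lit 266), (nat_lit 862)], [((nat_lit 0), (nat_lit 0), (nat_lit 0)), ((nat_lit 960), (nat_lit 1000), (nat_lit 200)), ((nat_lit 874), (nat_lit 1000), (nat_lit 406))], ((nat_lit 100), (nat_lit 86), (nat_lit 44))⟩, (nat_lit 786019), (nat_lit 533), (nat_lit 533), (nat_lit 0), (nat_lit 424687), [(nat_lit 653376000), (nat_lit 807044000), (nat_lit 973504000)], [], [(nat_lit 4037813976), (nat_lit 2318738576), (nat_lit 2900176566), (nat_lit 2207458664), (nat_lit 4545439304), (nat_lit 3022138616), (nat_lit 4898353341), (nat_lit 3394876138)], (nat_lit 1271251), (nat_lit 1271251), (nat_lit 490000), (nat_lit 780000), (nat_lit 0), (nat_lit 2401251), [(nat_lit 1695001), (nat_lit 1271251), (nat_lit 1271251)], [(nat_lit 27), (nat_lit 62), (nat_lit 401), (nat_lit 175), (nat_lit 11)]⟩,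
 ⟨⟨[(nat_lit 140), (nat_lit 160), (nat_lit 180)], [(nat_lit 0), (nat_lit 0), (nat_lit 799)], [((nat_lit 0), (nat_lit 0), (nat_lit 0)), ((nat_lit 0), (nat_lit 0), (nat_lit 0)), ((nat_lit 728), (nat_lit 1000), (nat_lit 454))], ((nat_lit 100), (nat_lit 71), (nat_lit 48))⟩, (nat_lit 171327), (nat_lit 300), (nat_lit 365), (nat_lit 14469000), (nat_lit 0), [(nat_lit 1919190000), (nat_lit 2315040000), (nat_lit 2741310000)], [], [(nat_lit 10571165050), (nat_lit 10050112401), (nat_lit 11153822056), (nat_lit 10558125464), (nat_lit 7649809153), (nat_lit 7167748845), (nat_lit 8301462495), (nat_lit 7727234701)], (nat_lit 0), (nat_lit 0), (nat_lit 0), (nat_lit 0), (nat_lit 0), (nat_lit 0), [], [(nat_lit 31), (nat_lit 65), (nat_lit 456), (nat_lit 225), (nat_lit 11)]⟩⟩))) (.spl (nat_lit 5) (nat_lit 120) (.spl (nat_lit 1) (nat_lit 220) (.spl (nat_lit 0) (nat_lit 330) (.leaf ⟨(nat_lit 958), (nat_lit 0), (nat_lit 0), (nat_lit 42), (nat_lit 3136), (nat_lit 3535), (nat_lit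 778), (nat_lit 537), (nat_lit 0), (nat_lit 0), (nat_lit 652400), [((nat_lit 330), [((nat_lit 37), (nat_lit 2), (nat_lit 764)), ((nat_lit 18), (nat_lit 2), (nat_lit 194))])], ⟨(nat_lit 4), false, false, false, (nat_lit 133), (nat_lit 4183), (nat_lit 4473), [(nat_lit 1274498), (nat_lit 1279565), (nat_lit 1317625), (nat_lit 1322893), (nat_lit 1342476), (nat_lit 1345821), (nat_lit 1385603), (nat_lit 1389149)]⟩, ⟨(nat_lit 7), false, false, true, (nat_lit 256), (nat_lit 4183), (nat_lit 4473), [(nat_lit 1549689), (nat_lit 1545843), (nat_lit 1614388), (nat_lit 1610843), (nat_lit 1668651), (nat_lit 1661790), (nat_lit 1733350), (nat_lit 1726790)]⟩, (nat_lit 4650501), (nat_lit 42302324), (nat_lit 6473645), (nat_lit 18224031), (nat_lit 0), (nat_lit 0), [], [⟨(nat_lit 1), (nat_lit 68), (nat_lit 80), (nat_lit 100), (nat_lit 208516376)⟩], [], [⟨(nat_lit 0), (nat_lit 94), (nat_lit 100), (nat_lit 10), (nat_lit 79859092)⟩],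
 ⟨⟨[(nat_lit 40), (nat_lit 80), (nat_lit 100)], [(nat_lit 0), (nat_lit 0), (nat_lit 1280)], [((nat_lit 0), (nat_lit 0), (nat_lit 0)), ((nat_lit 0), (nat_lit 0), (nat_lit 0)), ((nat_lit 1000), (nat_lit 800), (nat_lit 600))], ((nat_lit 82), (nat_lit 100), (nat_lit 44))⟩, (nat_lit 0), (nat_lit 127), (nat_lit 127), (nat_lit 0), (nat_lit 96914), [(nat_lit 1466298001), (nat_lit 1755364400), (nat_lit 1054202400)], [(nat_lit 0), (nat_lit 0), (nat_lit 0)], [(nat_lit 21726617102), (nat_lit 22298061432), (nat_lit 22104052817), (nat_lit 22649140262), (nat_lit 25079344550), (nat_lit 25682195870), (nat_lit 25302405544), (nat_lit 25769490985)], (nat_lit 1271251), (nat_lit 1271251), (nat_lit 490000), (nat_lit 780000), (nat_lit 1271251), (nat_lit 1271251), [(nat_lit 490000), (nat_lit 1100000), (nat_lit 1442501)], [(nat_lit 3), (nat_lit 50), (nat_lit 238), (nat_lit 30), (nat_lit 8)]⟩,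
 ⟨⟨[(nat_lit 120), (nat_lit 140), (nat_lit 160)], [(nat_lit 0), (nat_lit 266), (nat_lit 862)], [((nat_lit 0), (nat_lit 0), (nat_lit 0)), ((nat_lit 960), (nat_lit 1000), (nat_lit 200)), ((nat_lit 874), (nat_lit 1000), (nat_lit 406))], ((nat_lit 100), (nat_lit 86), (nat_lit 44))⟩, (nat_lit 42936), (nat_lit 375), (nat_lit 375), (nat_lit 0), (nat_lit 163774), [(nat_lit 334656000), (nat_lit 413364000), (nat_lit 498624000)], [], [(nat_lit 2286643044), (nat_lit 1470197686), (nat_lit 1476128479), (nat_lit 1396277568), (nat_lit 1358898511), (nat_lit 857257567), (nat_lit 1534437957), (nat_lit 775713967)], (nat_lit 1271251), (nat_lit 1271251), (nat_lit 490000), (nat_lit 780000), (nat_lit 0), (nat_lit 780000), [(nat_lit 1695001), (nat_lit 1271251), (nat_lit 1271251)], [(nat_lit 27), (nat_lit 62), (nat_lit 345), (nat_lit 125), (nat_lit 9)]⟩,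
 ⟨⟨[(nat_lit 140), (nat_lit 160), (nat_lit 180)], [(nat_lit 0), (nat_lit 0), (nat_lit 799)], [((nat_lit 0), (nat_lit 0), (nat_lit 0)), ((nat_lit 0), (nat_lit 0), (nat_lit 0)), ((nat_lit 728), (nat_lit 1000), (nat_lit 454))], ((nat_lit 100), (nat_lit 71), (nat_lit 48))⟩, (nat_lit 36901), (nat_lit 300), (nat_lit 933), (nat_lit 3116401), (nat_lit 1218946), [(nat_lit 413364000), (nat_lit 498624000), (nat_lit 590436000)], [], [(nat_lit 2387398224), (nat_lit 2287961394), (nat_lit 2430299096), (nat_lit 2328719311), (nat_lit 1962895947), (nat_lit 1868028891), (nat_lit 1997447001), (nat_lit 1893454781)], (nat_lit 780000), (nat_lit 1271251), (nat_lit 1271251), (nat_lit 1271251), (nat_lit 0), (nat_lit 780000), [(nat_lit 1977501), (nat_lit 1271251), (nat_lit 1271251)], [(nat_lit 31), (nat_lit 65), (nat_lit 401), (nat_lit 175), (nat_lit 9)]⟩⟩) (.trX (nat_lit 4) (nat_lit 0) (nat_lit 2) (nat_lit 76) (nat_lit 73) (nat_lit 100) (nat_lit 340) (.leaf ⟨(nat_lit 963), (nat_lit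 0), (nat_lit 0), (nat_lit 37), (nat_lit 2101), (nat_lit 3275), (nat_lit 686), (nat_lit 476), (nat_lit 0), (nat_lit 0), (nat_lit 357000), [((nat_lit 340), [((nat_lit 18), (nat_lit 0), (nat_lit 188)), ((nat_lit 18), (nat_lit 1), (nat_lit 775))])], ⟨(nat_lit 4), false, false, false, (nat_lit 135), (nat_lit 3872), (nat_lit 4184), [(nat_lit 1279562), (nat_lit 1284637), (nat_lit 1322885), (nat_lit 1328214), (nat_lit 1345820), (nat_lit 1349161), (nat_lit 1389144), (nat_lit 1392739)]⟩, ⟨(nat_lit 7), false, false, true, (nat_lit 250), (nat_lit 3872), (nat_lit 4184), [(nat_lit 1545843), (nat_lit 1541869), (nat_lit 1610843), (nat_lit 1607248), (nat_lit 1645226), (nat_lit 1638651), (nat_lit 1710226), (nat_lit 1704031)]⟩, (nat_lit 4640815), (nat_lit 42671131), (nat_lit 6637266), (nat_lit 17691603), (nat_lit 0), (nat_lit 0), [], [⟨(nat_lit 1), (nat_lit 73), (nat_lit 76), (nat_lit 100), (nat_lit 232726389)⟩], [], [⟨(nat_lit 0), (nat_lit 96), (nat_lit 100), (nat_lit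 7), (nat_lit 69012903)⟩],
 ⟨⟨[(nat_lit 40), (nat_lit 60), (nat_lit 80)], [(nat_lit 0), (nat_lit 197), (nat_lit 800)], [((nat_lit 0), (nat_lit 0), (nat_lit 0)), ((nat_lit 1000), (nat_lit 908), (nat_lit 154)), ((nat_lit 1000), (nat_lit 781), (nat_lit 471))], ((nat_lit 79), (nat_lit 100), (nat_lit 45))⟩, (nat_lit 807686), (nat_lit 115), (nat_lit 115), (nat_lit 0), (nat_lit 129061), [(nat_lit 1376430801), (nat_lit 1787818202), (nat_lit 2039900000)], [(nat_lit 0), (nat_lit 0), (nat_lit 0)], [(nat_lit 21869082637), (nat_lit 22450910862), (nat_lit 22282732466), (nat_lit 22837903994), (nat_lit 24693055069), (nat_lit 25312427894), (nat_lit 24978930467), (nat_lit 25466326197)], (nat_lit 1271251), (nat_lit 1271251), (nat_lit 490000), (nat_lit 780000), (nat_lit 1271251), (nat_lit 1271251), [(nat_lit 490000), (nat_lit 780000), (nat_lit 1100000)], [(nat_lit 2), (nat_lit 44), (nat_lit 238), (nat_lit 30), (nat_lit 9)]⟩,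
 ⟨⟨[(nat_lit 120), (nat_lit 140), (nat_lit 160)], [(nat_lit 0), (nat_lit 266), (nat_lit 862)], [((nat_lit 0), (nat_lit 0), (nat_lit 0)), ((nat_lit 960), (nat_lit 1000), (nat_lit 200)), ((nat_lit 874), (nat_lit 1000), (nat_lit 406))], ((nat_lit 100), (nat_lit 86), (nat_lit 44))⟩, (nat_lit 37824), (nat_lit 410), (nat_lit 410), (nat_lit 0), (nat_lit 231784), [(nat_lit 294816000), (nat_lit 364154000), (nat_lit 439264000)], [], [(nat_lit 2015042148), (nat_lit 1295284224), (nat_lit 1300372493), (nat_lit 1230226077), (nat_lit 1196944873), (nat_lit 754373709), (nat_lit 1351687675), (nat_lit 682446227)], (nat_lit 1271251), (nat_lit 1271251), (nat_lit 490000), (nat_lit 780000), (nat_lit 0), (nat_lit 780000), [(nat_lit 1695001), (nat_lit 1271251), (nat_lit 1271251)], [(nat_lit 27), (nat_lit 62), (nat_lit 345), (nat_lit 125), (nat_lit 9)]⟩,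
 ⟨⟨[(nat_lit 140), (nat_lit 160), (nat_lit 180)], [(nat_lit 0), (nat_lit 0), (nat_lit 799)], [((nat_lit 0), (nat_lit 0), (nat_lit 0)), ((nat_lit 0), (nat_lit 0), (nat_lit 0)), ((nat_lit 728), (nat_lit 1000), (nat_lit 454))], ((nat_lit 100), (nat_lit 71), (nat_lit 48))⟩, (nat_lit 32508), (nat_lit 300), (nat_lit 1157), (nat_lit 2745401), (nat_lit 1727908), [(nat_lit 364154000), (nat_lit 439264000), (nat_lit 520146000)], [], [(nat_lit 2099049856), (nat_lit 2010687749), (nat_lit 2127261505), (nat_lit 2031595591), (nat_lit 1722420301), (nat_lit 1638115765), (nat_lit 1744629834), (nat_lit 1653545618)], (nat_lit 780000), (nat_lit 1271251), (nat_lit 1271251), (nat_lit 1271251), (nat_lit 0), (nat_lit 780000), [(nat_lit 1977501), (nat_lit 1271251), (nat_lit 1271251)], [(nat_lit 31), (nat_lit 65), (nat_lit 401), (nat_lit 175), (nat_lit 9)]⟩⟩))) (.leaf ⟨(nat_lit 661), (nat_lit 249), (nat_lit 0), (nat_lit 90), (nat_lit 0), (nat_lit 3962), (nat_lit 8291), (nat_lit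 1121), (nat_lit 0), (nat_lit 0), (nat_lit 715000), [((nat_lit 340), [((nat_lit 18), (nat_lit 2), (nat_lit 643)), ((nat_lit 37), (nat_lit 5), (nat_lit 18))])], ⟨(nat_lit 5), false, false, false, (nat_lit 147), (nat_lit 3872), (nat_lit 4473), [(nat_lit 1317591), (nat_lit 1328187), (nat_lit 1339140), (nat_lit 1349963), (nat_lit 1385576), (nat_lit 1392716), (nat_lit 1407125), (nat_lit 1414492)]⟩, ⟨(nat_lit 7), false, false, true, (nat_lit 255), (nat_lit 3872), (nat_lit 4473), [(nat_lit 1549689), (nat_lit 1541869), (nat_lit 1614388), (nat_lit 1607248), (nat_lit 1668651), (nat_lit 1654781), (nat_lit 1733350), (nat_lit 1720161)]⟩, (nat_lit 4786170), (nat_lit 41616750), (nat_lit 7472326), (nat_lit 17910924), (nat_lit 7), (nat_lit 0), [], [⟨(nat_lit 1), (nat_lit 85), (nat_lit 78), (nat_lit 100), (nat_lit 303522342)⟩], [], [],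
 ⟨⟨[(nat_lit 40), (nat_lit 80), (nat_lit 100)], [(nat_lit 0), (nat_lit 0), (nat_lit 1280)], [((nat_lit 0), (nat_lit 0), (nat_lit 0)), ((nat_lit 0), (nat_lit 0), (nat_lit 0)), ((nat_lit 1000), (nat_lit 800), (nat_lit 600))], ((nat_lit 82), (nat_lit 100), (nat_lit 44))⟩, (nat_lit 0), (nat_lit 146), (nat_lit 146), (nat_lit 0), (nat_lit 151311), [(nat_lit 1714886204), (nat_lit 2272237799), (nat_lit 1612206800)], [(nat_lit 0), (nat_lit 0), (nat_lit 0)], [(nat_lit 21938940247), (nat_lit 23207246586), (nat_lit 22262552185), (nat_lit 23411287242), (nat_lit 25606429517), (nat_lit 26921462191), (nat_lit 25673780166), (nat_lit 26869114891)], (nat_lit 1271251), (nat_lit 1271251), (nat_lit 490000), (nat_lit 780000), (nat_lit 1271251), (nat_lit 1271251), [(nat_lit 490000), (nat_lit 1100000), (nat_lit 1442501)], [(nat_lit 3), (nat_lit 50), (nat_lit 238), (nat_lit 30), (nat_lit 8)]⟩,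
 ⟨⟨[(nat_lit 100), (nat_lit 120), (nat_lit 140)], [(nat_lit 0), (nat_lit 254), (nat_lit 778)], [((nat_lit 0), (nat_lit 0), (nat_lit 0)), ((nat_lit 1000), (nat_lit 1000), (nat_lit 198)), ((nat_lit 960), (nat_lit 1000), (nat_lit 392))], ((nat_lit 100), (nat_lit 94), (nat_lit 44))⟩, (nat_lit 3143121), (nat_lit 312), (nat_lit 312), (nat_lit 0), (nat_lit 231399), [(nat_lit 2118750000), (nat_lit 2701152000), (nat_lit 3336438000)], [], [(nat_lit 5699219221), (nat_lit 6567256576), (nat_lit 7146960361), (nat_lit 6032288658), (nat_lit 7992036378), (nat_lit 4003082894), (nat_lit 10186311653), (nat_lit 6251152250)], (nat_lit 1271251), (nat_lit 1271251), (nat_lit 490000), (nat_lit 780000), (nat_lit 0), (nat_lit 780000), [(nat_lit 1412501), (nat_lit 1271251), (nat_lit 1271251)], [(nat_lit 22), (nat_lit 58), (nat_lit 345), (nat_lit 125), (nat_lit 10)]⟩,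
 ⟨⟨[(nat_lit 140), (nat_lit 160), (nat_lit 180)], [(nat_lit 0), (nat_lit 0), (nat_lit 799)], [((nat_lit 0), (nat_lit 0), (nat_lit 0)), ((nat_lit 0), (nat_lit 0), (nat_lit 0)), ((nat_lit 728), (nat_lit 1000), (nat_lit 454))], ((nat_lit 100), (nat_lit 71), (nat_lit 48))⟩, (nat_lit 79074), (nat_lit 300), (nat_lit 1287), (nat_lit 6678000), (nat_lit 2011812), [(nat_lit 885780000), (nat_lit 1068480000), (nat_lit 1265220000)], [], [(nat_lit 5157800788), (nat_lit 4952463478), (nat_lit 5250612776), (nat_lit 5024631121), (nat_lit 4299371877), (nat_lit 4079307663), (nat_lit 4350420101), (nat_lit 4135417781)], (nat_lit 780000), (nat_lit 1271251), (nat_lit 1271251), (nat_lit 1271251), (nat_lit 0), (nat_lit 780000), [(nat_lit 1977501), (nat_lit 1271251), (nat_lit 1271251)], [(nat_lit 31), (nat_lit 65), (nat_lit 403), (nat_lit 175), (nat_lit 9)]⟩⟩)) (.leaf ⟨(nat_lit 961), (nat_lit 0), (nat_lit 0), (nat_lit 39), (nat_lit 0), (nat_lit 3635), (nat_lit 1462), (nat_lit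 435), (nat_lit 0), (nat_lit 0), (nat_lit 621800), [((nat_lit 340), [((nat_lit 37), (nat_lit 2), (nat_lit 848)), ((nat_lit 18), (nat_lit 2), (nat_lit 113))])], ⟨(nat_lit 4), false, false, false, (nat_lit 138), (nat_lit 3872), (nat_lit 4473), [(nat_lit 1274489), (nat_lit 1284632), (nat_lit 1339140), (nat_lit 1349963), (nat_lit 1342475), (nat_lit 1349162), (nat_lit 1407125), (nat_lit 1414492)]⟩, ⟨(nat_lit 7), false, false, true, (nat_lit 255), (nat_lit 3872), (nat_lit 4473), [(nat_lit 1549689), (nat_lit 1541869), (nat_lit 1614388), (nat_lit 1607248), (nat_lit 1668651), (nat_lit 1654781), (nat_lit 1733350), (nat_lit 1720161)]⟩, (nat_lit 4699186), (nat_lit 42105222), (nat_lit 6849041), (nat_lit 18045737), (nat_lit 0), (nat_lit 0), [], [⟨(nat_lit 1), (nat_lit 85), (nat_lit 78), (nat_lit 100), (nat_lit 236510868)⟩], [], [⟨(nat_lit 2), (nat_lit 100), (nat_lit 90), (nat_lit 95), (nat_lit 10647511)⟩],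
 ⟨⟨[(nat_lit 40), (nat_lit 80), (nat_lit 100)], [(nat_lit 0), (nat_lit 0), (nat_lit 1280)], [((nat_lit 0), (nat_lit 0), (nat_lit 0)), ((nat_lit 0), (nat_lit 0), (nat_lit 0)), ((nat_lit 1000), (nat_lit 800), (nat_lit 600))], ((nat_lit 82), (nat_lit 100), (nat_lit 44))⟩, (nat_lit 0), (nat_lit 146), (nat_lit 146), (nat_lit 0), (nat_lit 151481), [(nat_lit 1454006999), (nat_lit 1790745822), (nat_lit 1167850800)], [(nat_lit 0), (nat_lit 0), (nat_lit 0)], [(nat_lit 21639038800), (nat_lit 22862068705), (nat_lit 21914489135), (nat_lit 23078062725), (nat_lit 25185049700), (nat_lit 26450981826), (nat_lit 25294780420), (nat_lit 26469986784)], (nat_lit 1271251), (nat_lit 1271251), (nat_lit 490000), (nat_lit 780000), (nat_lit 1271251), (nat_lit 1271251), [(nat_lit 490000), (nat_lit 1100000), (nat_lit 1442501)], [(nat_lit 3), (nat_lit 50), (nat_lit 238), (nat_lit 30), (nat_lit 8)]⟩,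
 ⟨⟨[(nat_lit 120), (nat_lit 140), (nat_lit 160)], [(nat_lit 0), (nat_lit 266), (nat_lit 862)], [((nat_lit 0), (nat_lit 0), (nat_lit 0)), ((nat_lit 960), (nat_lit 1000), (nat_lit 200)), ((nat_lit 874), (nat_lit 1000), (nat_lit 406))], ((nat_lit 100), (nat_lit 86), (nat_lit 44))⟩, (nat_lit 0), (nat_lit 267), (nat_lit 267), (nat_lit 0), (nat_lit 242259), [(nat_lit 310752000), (nat_lit 383838000), (nat_lit 463008000)], [], [(nat_lit 1046782861), (nat_lit 437615494), (nat_lit 1330339095), (nat_lit 281928595), (nat_lit 4035788716), (nat_lit 1996351348), (nat_lit 4426170549), (nat_lit 2413273415)], (nat_lit 1271251), (nat_lit 1271251), (nat_lit 490000), (nat_lit 780000), (nat_lit 780000), (nat_lit 2581251), [(nat_lit 1695001), (nat_lit 1271251), (nat_lit 1271251)], [(nat_lit 27), (nat_lit 62), (nat_lit 401), (nat_lit 175), (nat_lit 10)]⟩,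
 ⟨⟨[(nat_lit 140), (nat_lit 160), (nat_lit 180)], [(nat_lit 0), (nat_lit 0), (nat_lit 799)], [((nat_lit 0), (nat_lit 0), (nat_lit 0)), ((nat_lit 0), (nat_lit 0), (nat_lit 0)), ((nat_lit 728), (nat_lit 1000), (nat_lit 454))], ((nat_lit 100), (nat_lit 71), (nat_lit 48))⟩, (nat_lit 34265), (nat_lit 300), (nat_lit 1709), (nat_lit 2893802), (nat_lit 3074584), [(nat_lit 383838000), (nat_lit 463008000), (nat_lit 548262000)], [], [(nat_lit 2081889720), (nat_lit 1993585203), (nat_lit 2050371429), (nat_lit 1962097598), (nat_lit 1863127656), (nat_lit 1773097391), (nat_lit 1847461076), (nat_lit 1757868683)], (nat_lit 780000), (nat_lit 1271251), (nat_lit 1271251), (nat_lit 1271251), (nat_lit 780000), (nat_lit 2581251), [(nat_lit 1977501), (nat_lit 1271251), (nat_lit 1271251)], [(nat_lit 31), (nat_lit 65), (nat_lit 536), (nat_lit 225), (nat_lit 12)]⟩⟩))))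
noncomputable def c10_14 : Tr Lf :=
 (.spl (nat_lit 1) (nat_lit 180) (.spl (nat_lit 6) (nat_lit 28) (.leaf ⟨(nat_lit 1000), (nat_lit 0), (nat_lit 0), (nat_lit 0), (nat_lit 30954), (nat_lit 3457), (nat_lit 0), (nat_lit 0), (nat_lit 0), (nat_lit 2113595104465), (nat_lit 640000), [((nat_lit 340), [((nat_lit 37), (nat_lit 2), (nat_lit 900)), ((nat_lit 18), (nat_lit 2), (nat_lit 100))])], ⟨(nat_lit 3), false, false, false, (nat_lit 112), (nat_lit 3872), (nat_lit 4473), [(nat_lit 1209798), (nat_lit 1219261), (nat_lit 1274489), (nat_lit 1284632), (nat_lit 1277776), (nat_lit 1283782), (nat_lit 1342475), (nat_lit 1349162)]⟩, ⟨(nat_lit 7), false, false, true, (nat_lit 255), (nat_lit 3872), (nat_lit 4473), [(nat_lit 1549689), (nat_lit 1541869), (nat_lit 1614388), (nat_lit 1607248), (nat_lit 1668651), (nat_lit 1654781), (nat_lit 1733350), (nat_lit 1720161)]⟩, (nat_lit 4414356), (nat_lit 43519669), (nat_lit 5064226), (nat_lit 18416105), (nat_lit 0), (nat_lit 0),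 [], [⟨(nat_lit 1), (nat_lit 85), (nat_lit 78), (nat_lit 100), (nat_lit 284140598)⟩], [], [],
 ⟨⟨[(nat_lit 40), (nat_lit 80), (nat_lit 100)], [(nat_lit 0), (nat_lit 0), (nat_lit 1280)], [((nat_lit 0), (nat_lit 0), (nat_lit 0)), ((nat_lit 0), (nat_lit 0), (nat_lit 0)), ((nat_lit 1000), (nat_lit 800), (nat_lit 600))], ((nat_lit 80), (nat_lit 100), (nat_lit 51))⟩, (nat_lit 0), (nat_lit 116), (nat_lit 116), (nat_lit 0), (nat_lit 44546), [(nat_lit 1394169778), (nat_lit 1794450674), (nat_lit 989600000)], [(nat_lit 0), (nat_lit 0), (nat_lit 0)], [(nat_lit 21576218608), (nat_lit 22737804771), (nat_lit 21905057967), (nat_lit 22983430095), (nat_lit 25118642819), (nat_lit 26195198381), (nat_lit 25290868149), (nat_lit 26320383900)], (nat_lit 1271251), (nat_lit 1271251), (nat_lit 490000), (nat_lit 780000), (nat_lit 1271251), (nat_lit 1271251), [(nat_lit 490000), (nat_lit 1100000), (nat_lit 1442501)], [(nat_lit 3), (nat_lit 50), (nat_lit 238), (nat_lit 30), (nat_lit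 8)]⟩,
 Rw.none,
 Rw.none⟩) (.dle (nat_lit 0))) (.spl (nat_lit 2) (nat_lit 160) (.trX (nat_lit 4) (nat_lit 0) (nat_lit 2) (nat_lit 82) (nat_lit 76) (nat_lit 100) (nat_lit 340) (.spl (nat_lit 2) (nat_lit 140) (.trX (nat_lit 4) (nat_lit 0) (nat_lit 2) (nat_lit 84) (nat_lit 85) (nat_lit 100) (nat_lit 320) (.leaf ⟨(nat_lit 1000), (nat_lit 0), (nat_lit 0), (nat_lit 0), (nat_lit 5766), (nat_lit 3554), (nat_lit 0), (nat_lit 0), (nat_lit 0), (nat_lit 0), (nat_lit 654400), [((nat_lit 340), [((nat_lit 37), (nat_lit 2), (nat_lit 864)), ((nat_lit 18), (nat_lit 2), (nat_lit 136))])], ⟨(nat_lit 4), false, false, false, (nat_lit 138), (nat_lit 3872), (nat_lit 4473), [(nat_lit 1274489), (nat_lit 1284632), (nat_lit 1339140), (nat_lit 1349963), (nat_lit 1342475), (nat_lit 1349162), (nat_lit 1407125), (nat_lit 1414492)]⟩, ⟨(nat_lit 7), false, false, true, (nat_lit 236), (nat_lit 3872), (nat_lit 4473), [(nat_lit 1549689), (nat_lit 1541869), (nat_lit 1571255), (nat_lit 1563662),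 (nat_lit 1617667), (nat_lit 1606390), (nat_lit 1639234), (nat_lit 1628183)]⟩, (nat_lit 4594781), (nat_lit 43706925), (nat_lit 6996656), (nat_lit 16296419), (nat_lit 0), (nat_lit 0), [⟨(nat_lit 0), (nat_lit 100), (nat_lit 73), (nat_lit 85), (nat_lit 37616645)⟩], [⟨(nat_lit 1), (nat_lit 93), (nat_lit 81), (nat_lit 100), (nat_lit 243516081)⟩], [], [],
 ⟨⟨[(nat_lit 40), (nat_lit 80), (nat_lit 100)], [(nat_lit 0), (nat_lit 0), (nat_lit 1280)], [((nat_lit 0), (nat_lit 0), (nat_lit 0)), ((nat_lit 0), (nat_lit 0), (nat_lit 0)), ((nat_lit 1000), (nat_lit 800), (nat_lit 600))], ((nat_lit 80), (nat_lit 100), (nat_lit 57))⟩, (nat_lit 360), (nat_lit 114), (nat_lit 114), (nat_lit 0), (nat_lit 79594), [(nat_lit 1436942809), (nat_lit 1665533996), (nat_lit 932288000)], [(nat_lit 0), (nat_lit 0), (nat_lit 0)], [(nat_lit 21443867269), (nat_lit 22650612162), (nat_lit 21758921667), (nat_lit 22880007470), (nat_lit 23296302080), (nat_lit 24402146376), (nat_lit 23495151840),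 (nat_lit 24583000614)], (nat_lit 1271251), (nat_lit 1271251), (nat_lit 490000), (nat_lit 780000), (nat_lit 1271251), (nat_lit 1271251), [(nat_lit 490000), (nat_lit 1100000), (nat_lit 1442501)], [(nat_lit 3), (nat_lit 50), (nat_lit 238), (nat_lit 30), (nat_lit 8)]⟩,
 Rw.none,
 Rw.none⟩)) (.spl (nat_lit 0) (nat_lit 330) (.dle (nat_lit 0)) (.trX (nat_lit 4) (nat_lit 0) (nat_lit 2) (nat_lit 78) (nat_lit 81) (nat_lit 100) (nat_lit 330) (.leaf ⟨(nat_lit 966), (nat_lit 0), (nat_lit 0), (nat_lit 34), (nat_lit 7358), (nat_lit 3585), (nat_lit 511), (nat_lit 480), (nat_lit 0), (nat_lit 0), (nat_lit 302050), [((nat_lit 340), [((nat_lit 18), (nat_lit 0), (nat_lit 793)), ((nat_lit 37), (nat_lit 2), (nat_lit 173))])], ⟨(nat_lit 4), false, false, false, (nat_lit 139), (nat_lit 3872), (nat_lit 4184), [(nat_lit 1279562), (nat_lit 1284637), (nat_lit 1344547), (nat_lit 1350002), (nat_lit 1345820), (nat_lit 1349161), (nat_lit 1410806), (nat_lit 1414527)]⟩, ⟨(nat_lit 7),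 false, false, true, (nat_lit 247), (nat_lit 3872), (nat_lit 4184), [(nat_lit 1567510), (nat_lit 1563662), (nat_lit 1589176), (nat_lit 1585455), (nat_lit 1650329), (nat_lit 1644314), (nat_lit 1671996), (nat_lit 1666107)]⟩, (nat_lit 4668450), (nat_lit 42704767), (nat_lit 6974036), (nat_lit 17321197), (nat_lit 0), (nat_lit 0), [⟨(nat_lit 0), (nat_lit 100), (nat_lit 73), (nat_lit 85), (nat_lit 79548528)⟩], [⟨(nat_lit 1), (nat_lit 87), (nat_lit 76), (nat_lit 100), (nat_lit 241490457)⟩], [], [],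
 ⟨⟨[(nat_lit 40), (nat_lit 80), (nat_lit 100)], [(nat_lit 0), (nat_lit 395), (nat_lit 1536)], [((nat_lit 0), (nat_lit 0), (nat_lit 0)), ((nat_lit 1000), (nat_lit 908), (nat_lit 154)), ((nat_lit 1000), (nat_lit 760), (nat_lit 642))], ((nat_lit 76), (nat_lit 100), (nat_lit 58))⟩, (nat_lit 879976), (nat_lit 109), (nat_lit 109), (nat_lit 0), (nat_lit 50160), [(nat_lit 1486394961), (nat_lit 2138254425), (nat_lit 2442908400)], [(nat_lit 0), (nat_lit 0), (nat_lit 0)], [(nat_lit 22193060642), (nat_lit 22800648019), (nat_lit 22473757726), (nat_lit 23024914439), (nat_lit 24543755573), (nat_lit 25085623471), (nat_lit 24688461302), (nat_lit 25236182825)], (nat_lit 1271251), (nat_lit 1271251), (nat_lit 490000), (nat_lit 780000), (nat_lit 1271251), (nat_lit 1271251), [(nat_lit 490000), (nat_lit 1100000), (nat_lit 1442501)], [(nat_lit 3), (nat_lit 50), (nat_lit 238), (nat_lit 30), (nat_lit 8)]⟩,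
 ⟨⟨[(nat_lit 120), (nat_lit 160), (nat_lit 180)], [(nat_lit 0), (nat_lit 533), (nat_lit 2066)], [((nat_lit 0), (nat_lit 0), (nat_lit 0)), ((nat_lit 960), (nat_lit 1000), (nat_lit 200)), ((nat_lit 615), (nat_lit 1000), (nat_lit 729))], ((nat_lit 100), (nat_lit 76), (nat_lit 58))⟩, (nat_lit 543084), (nat_lit 439), (nat_lit 439), (nat_lit 0), (nat_lit 93929), [(nat_lit 270912000), (nat_lit 403648000), (nat_lit 477972000)], [], [(nat_lit 1732384878), (nat_lit 927930864), (nat_lit 1200028911), (nat_lit 881955524), (nat_lit 1933685250), (nat_lit 1220858646), (nat_lit 2093759639), (nat_lit 1390209410)], (nat_lit 1271251), (nat_lit 1271251), (nat_lit 490000), (nat_lit 780000), (nat_lit 0), (nat_lit 2401251), [(nat_lit 1695001), (nat_lit 1271251), (nat_lit 1271251)], [(nat_lit 28), (nat_lit 65), (nat_lit 401), (nat_lit 175), (nat_lit 10)]⟩,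
 ⟨⟨[(nat_lit 140), (nat_lit 160), (nat_lit 180)], [(nat_lit 0), (nat_lit 304), (nat_lit 1085)], [((nat_lit 0), (nat_lit 0), (nat_lit 0)), ((nat_lit 913), (nat_lit 1000), (nat_lit 217)), ((nat_lit 759), (nat_lit 1000), (nat_lit 463))], ((nat_lit 100), (nat_lit 64), (nat_lit 60))⟩, (nat_lit 32125), (nat_lit 300), (nat_lit 591), (nat_lit 2461763), (nat_lit 495746), [(nat_lit 334628000), (nat_lit 403648000), (nat_lit 477972000)], [], [(nat_lit 1799765640), (nat_lit 1764068336), (nat_lit 1863441938), (nat_lit 1829493912), (nat_lit 1522155664), (nat_lit 1650860144), (nat_lit 1380899605), (nat_lit 1348528390)], (nat_lit 936250), (nat_lit 1100000), (nat_lit 1271251), (nat_lit 1271251), (nat_lit 0), (nat_lit 2401251), [(nat_lit 1977501), (nat_lit 1271251), (nat_lit 1271251)], [(nat_lit 31), (nat_lit 65), (nat_lit 456), (nat_lit 225), (nat_lit 10)]⟩⟩))))) (.spl (nat_lit 6) (nat_lit 28) (.spl (nat_lit 0) (nat_lit 330) (.dle (nat_lit 0)) (.trX (nat_lit 4) (nat_lit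 0) (nat_lit 2) (nat_lit 76) (nat_lit 73) (nat_lit 100) (nat_lit 340) (.leaf ⟨(nat_lit 901), (nat_lit 0), (nat_lit 0), (nat_lit 99), (nat_lit 8643), (nat_lit 3601), (nat_lit 1482), (nat_lit 1124), (nat_lit 0), (nat_lit 0), (nat_lit 320200), [((nat_lit 340), [((nat_lit 18), (nat_lit 0), (nat_lit 268)), ((nat_lit 18), (nat_lit 1), (nat_lit 633))])], ⟨(nat_lit 4), false, false, false, (nat_lit 139), (nat_lit 3872), (nat_lit 4184), [(nat_lit 1279562), (nat_lit 1284637), (nat_lit 1344547), (nat_lit 1350002), (nat_lit 1345820), (nat_lit 1349161), (nat_lit 1410806), (nat_lit 1414527)]⟩, ⟨(nat_lit 7), false, false, true, (nat_lit 259), (nat_lit 3872), (nat_lit 4184), [(nat_lit 1589176), (nat_lit 1585455), (nat_lit 1610843), (nat_lit 1607248), (nat_lit 1688560), (nat_lit 1682237), (nat_lit 1710226), (nat_lit 1704031)]⟩, (nat_lit 4729540), (nat_lit 41682509), (nat_lit 6874754), (nat_lit 18442737), (nat_lit 0), (nat_lit 0), [⟨(nat_lit 0), (nat_lit 100), (nat_lit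 73), (nat_lit 85), (nat_lit 3327751)⟩], [⟨(nat_lit 1), (nat_lit 79), (nat_lit 75), (nat_lit 100), (nat_lit 182572476)⟩], [], [⟨(nat_lit 0), (nat_lit 96), (nat_lit 100), (nat_lit 7), (nat_lit 15012866)⟩],
 ⟨⟨[(nat_lit 40), (nat_lit 80), (nat_lit 100)], [(nat_lit 0), (nat_lit 395), (nat_lit 1536)], [((nat_lit 0), (nat_lit 0), (nat_lit 0)), ((nat_lit 1000), (nat_lit 908), (nat_lit 154)), ((nat_lit 1000), (nat_lit 760), (nat_lit 642))], ((nat_lit 77), (nat_lit 100), (nat_lit 52))⟩, (nat_lit 857705), (nat_lit 109), (nat_lit 109), (nat_lit 0), (nat_lit 31739), [(nat_lit 1535829675), (nat_lit 2236766415), (nat_lit 2549716985)], [(nat_lit 0), (nat_lit 0), (nat_lit 0)], [(nat_lit 22361756498), (nat_lit 22937165025), (nat_lit 22643662187), (nat_lit 23192601317), (nat_lit 25225208611), (nat_lit 25754639358), (nat_lit 25342927863), (nat_lit 25877455871)], (nat_lit 1271251), (nat_lit 1271251), (nat_lit 490000), (nat_lit 780000), (nat_lit 1271251), (nat_lit 1271251),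 [(nat_lit 490000), (nat_lit 1100000), (nat_lit 1442501)], [(nat_lit 3), (nat_lit 50), (nat_lit 238), (nat_lit 30), (nat_lit 8)]⟩,
 ⟨⟨[(nat_lit 120), (nat_lit 140), (nat_lit 160)], [(nat_lit 0), (nat_lit 266), (nat_lit 862)], [((nat_lit 0), (nat_lit 0), (nat_lit 0)), ((nat_lit 960), (nat_lit 1000), (nat_lit 200)), ((nat_lit 874), (nat_lit 1000), (nat_lit 406))], ((nat_lit 100), (nat_lit 81), (nat_lit 51))⟩, (nat_lit 969302), (nat_lit 323), (nat_lit 323), (nat_lit 0), (nat_lit 63978), [(nat_lit 788832000), (nat_lit 974358000), (nat_lit 1175328000)], [], [(nat_lit 5038390476), (nat_lit 2705316408), (nat_lit 3494453991), (nat_lit 2573445778), (nat_lit 5625461796), (nat_lit 3558125148), (nat_lit 6090165132), (nat_lit 4049731785)], (nat_lit 1271251), (nat_lit 1271251), (nat_lit 490000), (nat_lit 780000), (nat_lit 0), (nat_lit 2401251), [(nat_lit 1695001), (nat_lit 1271251), (nat_lit 1271251)], [(nat_lit 27), (nat_lit 62), (nat_lit 401), (nat_lit 175), (nat_lit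 11)]⟩,
 ⟨⟨[(nat_lit 120), (nat_lit 160), (nat_lit 180)], [(nat_lit 0), (nat_lit 0), (nat_lit 1613)], [((nat_lit 0), (nat_lit 0), (nat_lit 0)), ((nat_lit 0), (nat_lit 0), (nat_lit 0)), ((nat_lit 620), (nat_lit 1000), (nat_lit 670))], ((nat_lit 100), (nat_lit 76), (nat_lit 52))⟩, (nat_lit 43086), (nat_lit 300), (nat_lit 445), (nat_lit 7345802), (nat_lit 236159), [(nat_lit 788832000), (nat_lit 1175328000), (nat_lit 1391742000)], [], [(nat_lit 5343029755), (nat_lit 5317714574), (nat_lit 5500995476), (nat_lit 5466019243), (nat_lit 4300950956), (nat_lit 4262858927), (nat_lit 4383516219), (nat_lit 4338191976)], (nat_lit 1100000), (nat_lit 1271251), (nat_lit 1271251), (nat_lit 1271251), (nat_lit 0), (nat_lit 2401251), [(nat_lit 1695001), (nat_lit 1271251), (nat_lit 1271251)], [(nat_lit 28), (nat_lit 65), (nat_lit 456), (nat_lit 225), (nat_lit 10)]⟩⟩))) (.dle (nat_lit 0)))))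
noncomputable def c10_15 : Tr Lf :=
 (.spl (nat_lit 6) (nat_lit 28) (.spl (nat_lit 2) (nat_lit 160) (.trX (nat_lit 4) (nat_lit 0) (nat_lit 2) (nat_lit 82) (nat_lit 76) (nat_lit 100) (nat_lit 340) (.leaf ⟨(nat_lit 1000), (nat_lit 0), (nat_lit 0), (nat_lit 0), (nat_lit 2140), (nat_lit 3536), (nat_lit 0), (nat_lit 0), (nat_lit 0), (nat_lit 868647), (nat_lit 786000), [((nat_lit 340), [((nat_lit 37), (nat_lit 2), (nat_lit 535)), ((nat_lit 18), (nat_lit 2), (nat_lit 465))])], ⟨(nat_lit 3), false, false, true, (nat_lit 152), (nat_lit 3872), (nat_lit 4473), [(nat_lit 1277776), (nat_lit 1283782), (nat_lit 1342475), (nat_lit 1349162), (nat_lit 1413733), (nat_lit 1412825), (nat_lit 1478432), (nat_lit 1478205)]⟩, ⟨(nat_lit 5), false, false, true, (nat_lit 220), (nat_lit 3872), (nat_lit 4473), [(nat_lit 1413733), (nat_lit 1412825), (nat_lit 1456866), (nat_lit 1456412), (nat_lit 1651656), (nat_lit 1638651), (nat_lit 1694789), (nat_lit 1682237)]⟩, (nat_lit 4634097),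 (nat_lit 44170054), (nat_lit 8151191), (nat_lit 14678755), (nat_lit 0), (nat_lit 0), [], [⟨(nat_lit 1), (nat_lit 89), (nat_lit 80), (nat_lit 100), (nat_lit 169253400)⟩, ⟨(nat_lit 1), (nat_lit 76), (nat_lit 82), (nat_lit 100), (nat_lit 173955)⟩], [], [],
 ⟨⟨[(nat_lit 40), (nat_lit 80), (nat_lit 100)], [(nat_lit 0), (nat_lit 0), (nat_lit 1280)], [((nat_lit 0), (nat_lit 0), (nat_lit 0)), ((nat_lit 0), (nat_lit 0), (nat_lit 0)), ((nat_lit 1000), (nat_lit 800), (nat_lit 600))], ((nat_lit 80), (nat_lit 100), (nat_lit 51))⟩, (nat_lit 0), (nat_lit 160), (nat_lit 160), (nat_lit 0), (nat_lit 257947), [(nat_lit 1699552003), (nat_lit 1267640223), (nat_lit 408520000)], [(nat_lit 0), (nat_lit 0), (nat_lit 0)], [(nat_lit 19762283298), (nat_lit 20838308590), (nat_lit 21146792633), (nat_lit 22168931305), (nat_lit 24806558013), (nat_lit 25735506850), (nat_lit 25797996313), (nat_lit 26740877894)], (nat_lit 1271251), (nat_lit 1271251), (nat_lit 780000), (nat_lit 1435001),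 (nat_lit 1271251), (nat_lit 1271251), [(nat_lit 490000), (nat_lit 1100000), (nat_lit 1442501)], [(nat_lit 3), (nat_lit 50), (nat_lit 260), (nat_lit 50), (nat_lit 9)]⟩,
 Rw.none,
 Rw.none⟩)) (.ord (.spl (nat_lit 6) (nat_lit 16) (.leaf ⟨(nat_lit 927), (nat_lit 0), (nat_lit 0), (nat_lit 73), (nat_lit 0), (nat_lit 3465), (nat_lit 881), (nat_lit 893), (nat_lit 0), (nat_lit 1818873202569), (nat_lit 769400), [((nat_lit 340), [((nat_lit 37), (nat_lit 2), (nat_lit 394)), ((nat_lit 18), (nat_lit 2), (nat_lit 533))])], ⟨(nat_lit 4), false, false, false, (nat_lit 160), (nat_lit 3872), (nat_lit 4473), [(nat_lit 1320909), (nat_lit 1327369), (nat_lit 1342475), (nat_lit 1349162), (nat_lit 1456866), (nat_lit 1456412), (nat_lit 1478432), (nat_lit 1478205)]⟩, ⟨(nat_lit 5), false, false, true, (nat_lit 237), (nat_lit 3872), (nat_lit 4473), [(nat_lit 1456866), (nat_lit 1456412), (nat_lit 1478432), (nat_lit 1478205), (nat_lit 1711784), (nat_lit 1698368), (nat_lit 1733350),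 (nat_lit 1720161)]⟩, (nat_lit 4822248), (nat_lit 42271674), (nat_lit 8668841), (nat_lit 16059485), (nat_lit 0), (nat_lit 0), [], [⟨(nat_lit 1), (nat_lit 77), (nat_lit 77), (nat_lit 100), (nat_lit 102559220)⟩], [], [],
 ⟨⟨[(nat_lit 40), (nat_lit 60), (nat_lit 80)], [(nat_lit 0), (nat_lit 0), (nat_lit 615)], [((nat_lit 0), (nat_lit 0), (nat_lit 0)), ((nat_lit 0), (nat_lit 0), (nat_lit 0)), ((nat_lit 1000), (nat_lit 819), (nat_lit 426))], ((nat_lit 82), (nat_lit 100), (nat_lit 40))⟩, (nat_lit 424), (nat_lit 120), (nat_lit 120), (nat_lit 0), (nat_lit 180489), [(nat_lit 1408554229), (nat_lit 1713731190), (nat_lit 1325827200)], [(nat_lit 0), (nat_lit 0), (nat_lit 0)], [(nat_lit 19407409134), (nat_lit 20602400159), (nat_lit 20969885304), (nat_lit 22037270766), (nat_lit 25254486023), (nat_lit 26262488992), (nat_lit 26242225667), (nat_lit 27093367274)], (nat_lit 1271251), (nat_lit 1271251), (nat_lit 780000), (nat_lit 1435001), (nat_lit 1271251), (nat_lit 1271251),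 [(nat_lit 490000), (nat_lit 780000), (nat_lit 1100000)], [(nat_lit 2), (nat_lit 44), (nat_lit 260), (nat_lit 50), (nat_lit 10)]⟩,
 ⟨⟨[(nat_lit 120), (nat_lit 140), (nat_lit 160)], [(nat_lit 0), (nat_lit 0), (nat_lit 609)], [((nat_lit 0), (nat_lit 0), (nat_lit 0)), ((nat_lit 0), (nat_lit 0), (nat_lit 0)), ((nat_lit 840), (nat_lit 1000), (nat_lit 400))], ((nat_lit 100), (nat_lit 84), (nat_lit 40))⟩, (nat_lit 413378), (nat_lit 732), (nat_lit 732), (nat_lit 0), (nat_lit 861965), [(nat_lit 581664000), (nat_lit 718466000), (nat_lit 866656000)], [], [(nat_lit 3041259700), (nat_lit 2807513306), (nat_lit 2917361570), (nat_lit 3128564754), (nat_lit 4409513164), (nat_lit 4666573279), (nat_lit 5323262174), (nat_lit 5590291244)], (nat_lit 1100000), (nat_lit 1271251), (nat_lit 780000), (nat_lit 1435001), (nat_lit 0), (nat_lit 2825001), [(nat_lit 1695001), (nat_lit 1271251), (nat_lit 1271251)], [(nat_lit 27), (nat_lit 62), (nat_lit 428), (nat_lit 200), (nat_lit 11)]⟩,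
 ⟨⟨[(nat_lit 120), (nat_lit 140), (nat_lit 160)], [(nat_lit 0), (nat_lit 0), (nat_lit 609)], [((nat_lit 0), (nat_lit 0), (nat_lit 0)), ((nat_lit 0), (nat_lit 0), (nat_lit 0)), ((nat_lit 840), (nat_lit 1000), (nat_lit 400))], ((nat_lit 100), (nat_lit 84), (nat_lit 40))⟩, (nat_lit 74798), (nat_lit 300), (nat_lit 698), (nat_lit 5131901), (nat_lit 861965), [(nat_lit 581664000), (nat_lit 718466000), (nat_lit 866656000)], [], [(nat_lit 3353966116), (nat_lit 3326509232), (nat_lit 3459584013), (nat_lit 3432035138), (nat_lit 4714301846), (nat_lit 4984286972), (nat_lit 3079752349), (nat_lit 3071395485)], (nat_lit 1100000), (nat_lit 1271251), (nat_lit 1271251), (nat_lit 1271251), (nat_lit 0), (nat_lit 2825001), [(nat_lit 1695001), (nat_lit 1271251), (nat_lit 1271251)], [(nat_lit 27), (nat_lit 62), (nat_lit 483), (nat_lit 250), (nat_lit 12)]⟩⟩) (.dle (nat_lit 0))))) (.dle (nat_lit 0)))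
noncomputable def c10_16 : Tr Lf :=
 (.spl (nat_lit 4) (nat_lit 280) (.leaf ⟨(nat_lit 964), (nat_lit 0), (nat_lit 0), (nat_lit 36), (nat_lit 0), (nat_lit 3676), (nat_lit 537), (nat_lit 421), (nat_lit 0), (nat_lit 0), (nat_lit 1168000), [((nat_lit 340), [((nat_lit 18), (nat_lit 2), (nat_lit 896)), ((nat_lit 37), (nat_lit 5), (nat_lit 68))])], ⟨(nat_lit 4), false, false, false, (nat_lit 178), (nat_lit 3872), (nat_lit 4473), [(nat_lit 1342475), (nat_lit 1349162), (nat_lit 1407125), (nat_lit 1414492), (nat_lit 1478432), (nat_lit 1478205), (nat_lit 1543097), (nat_lit 1543551)]⟩, ⟨(nat_lit 5), false, false, true, (nat_lit 205), (nat_lit 3872), (nat_lit 4473), [(nat_lit 1413733), (nat_lit 1412825), (nat_lit 1478432), (nat_lit 1478205), (nat_lit 1549689), (nat_lit 1541869), (nat_lit 1614388), (nat_lit 1607248)]⟩, (nat_lit 4766392), (nat_lit 43661043), (nat_lit 10369511), (nat_lit 12969446), (nat_lit 0), (nat_lit 0), [], [], [], [],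
 ⟨⟨[(nat_lit 40), (nat_lit 80), (nat_lit 100)], [(nat_lit 0), (nat_lit 0), (nat_lit 1280)], [((nat_lit 0), (nat_lit 0), (nat_lit 0)), ((nat_lit 0), (nat_lit 0), (nat_lit 0)), ((nat_lit 1000), (nat_lit 800), (nat_lit 600))], ((nat_lit 82), (nat_lit 100), (nat_lit 44))⟩, (nat_lit 0), (nat_lit 173), (nat_lit 173), (nat_lit 0), (nat_lit 356509), [(nat_lit 1631993827), (nat_lit 1048719778), (nat_lit 0)], [(nat_lit 0), (nat_lit 0), (nat_lit 1009132800)], [(nat_lit 18841008555), (nat_lit 20005139829), (nat_lit 20287581227), (nat_lit 21327194804), (nat_lit 21535105295), (nat_lit 22571472490), (nat_lit 22718450424), (nat_lit 23774703734)], (nat_lit 1271251), (nat_lit 1271251), (nat_lit 780000), (nat_lit 1435001), (nat_lit 1271251), (nat_lit 1271251), [(nat_lit 490000), (nat_lit 1100000), (nat_lit 1442501)], [(nat_lit 3), (nat_lit 50), (nat_lit 260), (nat_lit 50), (nat_lit 9)]⟩,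
 ⟨⟨[(nat_lit 120), (nat_lit 140), (nat_lit 160)], [(nat_lit 0), (nat_lit 266), (nat_lit 862)], [((nat_lit 0), (nat_lit 0), (nat_lit 0)), ((nat_lit 960), (nat_lit 1000), (nat_lit 200)), ((nat_lit 874), (nat_lit 1000), (nat_lit 406))], ((nat_lit 100), (nat_lit 86), (nat_lit 44))⟩, (nat_lit 767567), (nat_lit 753), (nat_lit 753), (nat_lit 0), (nat_lit 926942), [(nat_lit 286848000), (nat_lit 354312000), (nat_lit 427392000)], [], [(nat_lit 1270791974), (nat_lit 701778842), (nat_lit 1580712110), (nat_lit 771937752), (nat_lit 2444436035), (nat_lit 1719515838), (nat_lit 2985214488), (nat_lit 2278523562)], (nat_lit 1271251), (nat_lit 1271251), (nat_lit 780000), (nat_lit 1435001), (nat_lit 0), (nat_lit 2825001), [(nat_lit 1695001), (nat_lit 1271251), (nat_lit 1271251)], [(nat_lit 27), (nat_lit 62), (nat_lit 456), (nat_lit 225), (nat_lit 12)]⟩,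
 ⟨⟨[(nat_lit 140), (nat_lit 160), (nat_lit 180)], [(nat_lit 0), (nat_lit 0), (nat_lit 799)], [((nat_lit 0), (nat_lit 0), (nat_lit 0)), ((nat_lit 0), (nat_lit 0), (nat_lit 0)), ((nat_lit 728), (nat_lit 1000), (nat_lit 454))], ((nat_lit 100), (nat_lit 71), (nat_lit 48))⟩, (nat_lit 31630), (nat_lit 300), (nat_lit 1820), (nat_lit 2671200), (nat_lit 3074584), [(nat_lit 354312000), (nat_lit 427392000), (nat_lit 506088000)], [], [(nat_lit 2180418028), (nat_lit 2099303096), (nat_lit 2132070896), (nat_lit 2047209165), (nat_lit 2510273860), (nat_lit 2861085517), (nat_lit 1780717908), (nat_lit 2144748334)], (nat_lit 780000), (nat_lit 1271251), (nat_lit 1271251), (nat_lit 1271251), (nat_lit 0), (nat_lit 2825001), [(nat_lit 1977501), (nat_lit 1271251), (nat_lit 1271251)], [(nat_lit 31), (nat_lit 65), (nat_lit 563), (nat_lit 225), (nat_lit 13)]⟩⟩) (.trX (nat_lit 5) (nat_lit 4) (nat_lit 3) (nat_lit 92) (nat_lit 40) (nat_lit 100) (nat_lit 390) (.stt (nat_lit 1) (.spl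 (nat_lit 5) (nat_lit 120) (.spl (nat_lit 0) (nat_lit 330) (.leaf ⟨(nat_lit 929), (nat_lit 13), (nat_lit 0), (nat_lit 58), (nat_lit 395), (nat_lit 3817), (nat_lit 1152), (nat_lit 735), (nat_lit 0), (nat_lit 0), (nat_lit 401000), [((nat_lit 330), [((nat_lit 18), (nat_lit 1), (nat_lit 880)), ((nat_lit 18), (nat_lit 2), (nat_lit 49))])], ⟨(nat_lit 4), false, false, false, (nat_lit 177), (nat_lit 4183), (nat_lit 4473), [(nat_lit 1342476), (nat_lit 1345821), (nat_lit 1407167), (nat_lit 1410812), (nat_lit 1478432), (nat_lit 1478332), (nat_lit 1543125), (nat_lit 1543325)]⟩, ⟨(nat_lit 7), false, false, true, (nat_lit 256), (nat_lit 4183), (nat_lit 4473), [(nat_lit 1549689), (nat_lit 1545843), (nat_lit 1614388), (nat_lit 1610843), (nat_lit 1668651), (nat_lit 1661790), (nat_lit 1733350), (nat_lit 1726790)]⟩, (nat_lit 5066128), (nat_lit 39754815), (nat_lit 9758859), (nat_lit 17486326), (nat_lit 7), (nat_lit 0), [], [⟨(nat_lit 1), (nat_lit 83), (nat_lit 81), (nat_lit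 100), (nat_lit 150070129)⟩, ⟨(nat_lit 1), (nat_lit 68), (nat_lit 80), (nat_lit 100), (nat_lit 30450630)⟩], [], [⟨(nat_lit 0), (nat_lit 84), (nat_lit 100), (nat_lit 41), (nat_lit 102277146)⟩],
 ⟨⟨[(nat_lit 40), (nat_lit 80), (nat_lit 100)], [(nat_lit 0), (nat_lit 0), (nat_lit 1280)], [((nat_lit 0), (nat_lit 0), (nat_lit 0)), ((nat_lit 0), (nat_lit 0), (nat_lit 0)), ((nat_lit 1000), (nat_lit 800), (nat_lit 600))], ((nat_lit 82), (nat_lit 100), (nat_lit 44))⟩, (nat_lit 0), (nat_lit 73), (nat_lit 73), (nat_lit 0), (nat_lit 0), [(nat_lit 1616387110), (nat_lit 2025431632), (nat_lit 2166718168)], [(nat_lit 0), (nat_lit 0), (nat_lit 0)], [(nat_lit 21812090035), (nat_lit 22411768035), (nat_lit 23083238599), (nat_lit 23618354206), (nat_lit 25454670771), (nat_lit 26073401125), (nat_lit 26321263132), (nat_lit 26874832201)], (nat_lit 0), (nat_lit 0), (nat_lit 0), (nat_lit 0), (nat_lit 0), (nat_lit 0), [], [(nat_lit 3), (nat_lit 50), (nat_lit 260), (nat_lit 50), (nat_lit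 8)]⟩,
 ⟨⟨[(nat_lit 120), (nat_lit 140), (nat_lit 160)], [(nat_lit 0), (nat_lit 266), (nat_lit 862)], [((nat_lit 0), (nat_lit 0), (nat_lit 0)), ((nat_lit 960), (nat_lit 1000), (nat_lit 200)), ((nat_lit 874), (nat_lit 1000), (nat_lit 406))], ((nat_lit 100), (nat_lit 86), (nat_lit 44))⟩, (nat_lit 1161883), (nat_lit 546), (nat_lit 546), (nat_lit 0), (nat_lit 500721), [(nat_lit 565728000), (nat_lit 698782000), (nat_lit 842912000)], [], [(nat_lit 2502320856), (nat_lit 1472136476), (nat_lit 3151822752), (nat_lit 1572070298), (nat_lit 2614781924), (nat_lit 904198436), (nat_lit 3554105376), (nat_lit 1891031520)], (nat_lit 1271251), (nat_lit 1271251), (nat_lit 780000), (nat_lit 1435001), (nat_lit 0), (nat_lit 780000), [(nat_lit 1695001), (nat_lit 1271251), (nat_lit 1271251)], [(nat_lit 27), (nat_lit 62), (nat_lit 373), (nat_lit 150), (nat_lit 10)]⟩,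
 ⟨⟨[(nat_lit 140), (nat_lit 160), (nat_lit 180)], [(nat_lit 0), (nat_lit 0), (nat_lit 799)], [((nat_lit 0), (nat_lit 0), (nat_lit 0)), ((nat_lit 0), (nat_lit 0), (nat_lit 0)), ((nat_lit 728), (nat_lit 1000), (nat_lit 454))], ((nat_lit 100), (nat_lit 71), (nat_lit 48))⟩, (nat_lit 50959), (nat_lit 300), (nat_lit 1061), (nat_lit 4303600), (nat_lit 1526266), [(nat_lit 570836000), (nat_lit 688576000), (nat_lit 815364000)], [], [(nat_lit 3306159612), (nat_lit 3170554172), (nat_lit 3365598631), (nat_lit 3217081501), (nat_lit 2725918285), (nat_lit 2596552090), (nat_lit 2773898511), (nat_lit 2632023645)], (nat_lit 780000), (nat_lit 1271251), (nat_lit 1271251), (nat_lit 1271251), (nat_lit 0), (nat_lit 780000), [(nat_lit 1977501), (nat_lit 1271251), (nat_lit 1271251)], [(nat_lit 31), (nat_lit 65), (nat_lit 401), (nat_lit 175), (nat_lit 9)]⟩⟩) (.trX (nat_lit 4) (nat_lit 0) (nat_lit 2) (nat_lit 76) (nat_lit 73) (nat_lit 100) (nat_lit 340) (.leaf ⟨(nat_lit 934), (nat_lit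 19), (nat_lit 0), (nat_lit 47), (nat_lit 0), (nat_lit 3410), (nat_lit 1070), (nat_lit 605), (nat_lit 0), (nat_lit 0), (nat_lit 284350), [((nat_lit 340), [((nat_lit 18), (nat_lit 0), (nat_lit 595)), ((nat_lit 18), (nat_lit 1), (nat_lit 339))])], ⟨(nat_lit 4), false, false, false, (nat_lit 178), (nat_lit 3872), (nat_lit 4184), [(nat_lit 1345820), (nat_lit 1349161), (nat_lit 1410806), (nat_lit 1414527), (nat_lit 1478332), (nat_lit 1478205), (nat_lit 1543323), (nat_lit 1543576)]⟩, ⟨(nat_lit 7), false, false, true, (nat_lit 250), (nat_lit 3872), (nat_lit 4184), [(nat_lit 1545843), (nat_lit 1541869), (nat_lit 1610843), (nat_lit 1607248), (nat_lit 1645226), (nat_lit 1638651), (nat_lit 1710226), (nat_lit 1704031)]⟩, (nat_lit 5047230), (nat_lit 40124299), (nat_lit 9880459), (nat_lit 16995242), (nat_lit 7), (nat_lit 0), [], [⟨(nat_lit 1), (nat_lit 73), (nat_lit 76), (nat_lit 100), (nat_lit 192660551)⟩], [], [⟨(nat_lit 0), (nat_lit 85), (nat_lit 100), (nat_lit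 38), (nat_lit 74341122)⟩],
 ⟨⟨[(nat_lit 40), (nat_lit 60), (nat_lit 80)], [(nat_lit 0), (nat_lit 197), (nat_lit 800)], [((nat_lit 0), (nat_lit 0), (nat_lit 0)), ((nat_lit 1000), (nat_lit 908), (nat_lit 154)), ((nat_lit 1000), (nat_lit 781), (nat_lit 471))], ((nat_lit 79), (nat_lit 100), (nat_lit 45))⟩, (nat_lit 912323), (nat_lit 63), (nat_lit 63), (nat_lit 0), (nat_lit 0), [(nat_lit 1456468006), (nat_lit 1901081442), (nat_lit 2237501600)], [(nat_lit 0), (nat_lit 0), (nat_lit 0)], [(nat_lit 22244994880), (nat_lit 22814227664), (nat_lit 23511827163), (nat_lit 24021510509), (nat_lit 24987116888), (nat_lit 25591237120), (nat_lit 25963455315), (nat_lit 26499405153)], (nat_lit 0), (nat_lit 0), (nat_lit 0), (nat_lit 0), (nat_lit 0), (nat_lit 0), [], [(nat_lit 2), (nat_lit 44), (nat_lit 260), (nat_lit 50), (nat_lit 10)]⟩,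
 ⟨⟨[(nat_lit 120), (nat_lit 140), (nat_lit 160)], [(nat_lit 0), (nat_lit 266), (nat_lit 862)], [((nat_lit 0), (nat_lit 0), (nat_lit 0)), ((nat_lit 960), (nat_lit 1000), (nat_lit 200)), ((nat_lit 874), (nat_lit 1000), (nat_lit 406))], ((nat_lit 100), (nat_lit 86), (nat_lit 44))⟩, (nat_lit 1080060), (nat_lit 670), (nat_lit 670), (nat_lit 0), (nat_lit 733803), [(nat_lit 525888000), (nat_lit 649572000), (nat_lit 783552000)], [], [(nat_lit 2326138325), (nat_lit 1368685408), (nat_lit 2929540981), (nat_lit 1461453208), (nat_lit 2430753927), (nat_lit 841930722), (nat_lit 3303356821), (nat_lit 1758661486)], (nat_lit 1271251), (nat_lit 1271251), (nat_lit 780000), (nat_lit 1435001), (nat_lit 0), (nat_lit 780000), [(nat_lit 1695001), (nat_lit 1271251), (nat_lit 1271251)], [(nat_lit 27), (nat_lit 62), (nat_lit 373), (nat_lit 150), (nat_lit 10)]⟩,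
 ⟨⟨[(nat_lit 140), (nat_lit 160), (nat_lit 180)], [(nat_lit 0), (nat_lit 0), (nat_lit 799)], [((nat_lit 0), (nat_lit 0), (nat_lit 0)), ((nat_lit 0), (nat_lit 0), (nat_lit 0)), ((nat_lit 728), (nat_lit 1000), (nat_lit 454))], ((nat_lit 100), (nat_lit 71), (nat_lit 48))⟩, (nat_lit 41294), (nat_lit 300), (nat_lit 1287), (nat_lit 3487401), (nat_lit 2011770), [(nat_lit 462574000), (nat_lit 557984000), (nat_lit 660726000)], [], [(nat_lit 2665864468), (nat_lit 2553529171), (nat_lit 2701689070), (nat_lit 2580071493), (nat_lit 2187123620), (nat_lit 2079946352), (nat_lit 2215320848), (nat_lit 2099527406)], (nat_lit 780000), (nat_lit 1271251), (nat_lit 1271251), (nat_lit 1271251), (nat_lit 0), (nat_lit 780000), [(nat_lit 1977501), (nat_lit 1271251), (nat_lit 1271251)], [(nat_lit 31), (nat_lit 65), (nat_lit 402), (nat_lit 175), (nat_lit 9)]⟩⟩))) (.spl (nat_lit 0) (nat_lit 330) (.leaf ⟨(nat_lit 958), (nat_lit 0), (nat_lit 0), (nat_lit 42), (nat_lit 0), (nat_lit 3785),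 (nat_lit 375), (nat_lit 494), (nat_lit 0), (nat_lit 0), (nat_lit 390250), [((nat_lit 330), [((nat_lit 18), (nat_lit 0), (nat_lit 757)), ((nat_lit 18), (nat_lit 2), (nat_lit 201))])], ⟨(nat_lit 4), false, false, false, (nat_lit 177), (nat_lit 4183), (nat_lit 4473), [(nat_lit 1342476), (nat_lit 1345821), (nat_lit 1407167), (nat_lit 1410812), (nat_lit 1478432), (nat_lit 1478332), (nat_lit 1543125), (nat_lit 1543325)]⟩, ⟨(nat_lit 7), false, false, true, (nat_lit 256), (nat_lit 4183), (nat_lit 4473), [(nat_lit 1549689), (nat_lit 1545843), (nat_lit 1614388), (nat_lit 1610843), (nat_lit 1668651), (nat_lit 1661790), (nat_lit 1733350), (nat_lit 1726790)]⟩, (nat_lit 5066128), (nat_lit 39754815), (nat_lit 9758859), (nat_lit 17486326), (nat_lit 0), (nat_lit 0), [], [⟨(nat_lit 1), (nat_lit 83), (nat_lit 81), (nat_lit 100), (nat_lit 244289602)⟩], [], [],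
 ⟨⟨[(nat_lit 40), (nat_lit 80), (nat_lit 100)], [(nat_lit 0), (nat_lit 0), (nat_lit 1280)], [((nat_lit 0), (nat_lit 0), (nat_lit 0)), ((nat_lit 0), (nat_lit 0), (nat_lit 0)), ((nat_lit 1000), (nat_lit 800), (nat_lit 600))], ((nat_lit 82), (nat_lit 100), (nat_lit 44))⟩, (nat_lit 0), (nat_lit 73), (nat_lit 73), (nat_lit 0), (nat_lit 0), [(nat_lit 1592984571), (nat_lit 1986191013), (nat_lit 2130463787)], [(nat_lit 0), (nat_lit 0), (nat_lit 0)], [(nat_lit 21792012349), (nat_lit 22389189524), (nat_lit 23067503569), (nat_lit 23600619588), (nat_lit 25420986636), (nat_lit 26036754349), (nat_lit 26294860532), (nat_lit 26846402083)], (nat_lit 0), (nat_lit 0), (nat_lit 0), (nat_lit 0), (nat_lit 0), (nat_lit 0), [], [(nat_lit 3), (nat_lit 50), (nat_lit 260), (nat_lit 50), (nat_lit 8)]⟩,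
 ⟨⟨[(nat_lit 120), (nat_lit 140), (nat_lit 160)], [(nat_lit 0), (nat_lit 266), (nat_lit 862)], [((nat_lit 0), (nat_lit 0), (nat_lit 0)), ((nat_lit 960), (nat_lit 1000), (nat_lit 200)), ((nat_lit 874), (nat_lit 1000), (nat_lit 406))], ((nat_lit 100), (nat_lit 86), (nat_lit 44))⟩, (nat_lit 25635), (nat_lit 506), (nat_lit 506), (nat_lit 0), (nat_lit 625224), [(nat_lit 334656000), (nat_lit 413364000), (nat_lit 498624000)], [], [(nat_lit 2361369087), (nat_lit 1753203699), (nat_lit 1715075499), (nat_lit 1711582038), (nat_lit 1889563528), (nat_lit 1808211614), (nat_lit 2317713689), (nat_lit 1828782360)], (nat_lit 1271251), (nat_lit 1271251), (nat_lit 780000), (nat_lit 1435001), (nat_lit 780000), (nat_lit 2990626), [(nat_lit 1695001), (nat_lit 1271251), (nat_lit 1271251)], [(nat_lit 27), (nat_lit 62), (nat_lit 456), (nat_lit 225), (nat_lit 12)]⟩,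
 ⟨⟨[(nat_lit 140), (nat_lit 160), (nat_lit 180)], [(nat_lit 0), (nat_lit 0), (nat_lit 799)], [((nat_lit 0), (nat_lit 0), (nat_lit 0)), ((nat_lit 0), (nat_lit 0), (nat_lit 0)), ((nat_lit 728), (nat_lit 1000), (nat_lit 454))], ((nat_lit 100), (nat_lit 71), (nat_lit 48))⟩, (nat_lit 36901), (nat_lit 300), (nat_lit 1360), (nat_lit 3116401), (nat_lit 2348979), [(nat_lit 413364000), (nat_lit 498624000), (nat_lit 590436000)], [], [(nat_lit 2117135496), (nat_lit 2020991293), (nat_lit 2107300674), (nat_lit 2006352697), (nat_lit 1938937515), (nat_lit 1844108902), (nat_lit 1971253931), (nat_lit 1868996996)], (nat_lit 780000), (nat_lit 1271251), (nat_lit 1271251), (nat_lit 1271251), (nat_lit 780000), (nat_lit 2990626), [(nat_lit 1977501), (nat_lit 1271251), (nat_lit 1271251)], [(nat_lit 31), (nat_lit 65), (nat_lit 483), (nat_lit 250), (nat_lit 11)]⟩⟩) (.trX (nat_lit 4) (nat_lit 0) (nat_lit 2) (nat_lit 76) (nat_lit 73) (nat_lit 100) (nat_lit 340) (.leaf ⟨(nat_lit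 969), (nat_lit 0), (nat_lit 0), (nat_lit 31), (nat_lit 0), (nat_lit 3384), (nat_lit 299), (nat_lit 368), (nat_lit 0), (nat_lit 0), (nat_lit 298800), [((nat_lit 340), [((nat_lit 18), (nat_lit 0), (nat_lit 592)), ((nat_lit 18), (nat_lit 1), (nat_lit 377))])], ⟨(nat_lit 4), false, false, false, (nat_lit 178), (nat_lit 3872), (nat_lit 4184), [(nat_lit 1345820), (nat_lit 1349161), (nat_lit 1410806), (nat_lit 1414527), (nat_lit 1478332), (nat_lit 1478205), (nat_lit 1543323), (nat_lit 1543576)]⟩, ⟨(nat_lit 7), false, false, true, (nat_lit 250), (nat_lit 3872), (nat_lit 4184), [(nat_lit 1545843), (nat_lit 1541869), (nat_lit 1610843), (nat_lit 1607248), (nat_lit 1645226), (nat_lit 1638651), (nat_lit 1710226), (nat_lit 1704031)]⟩, (nat_lit 5047230), (nat_lit 40124299), (nat_lit 9880459), (nat_lit 16995242), (nat_lit 0), (nat_lit 0), [], [⟨(nat_lit 1), (nat_lit 73), (nat_lit 76), (nat_lit 100), (nat_lit 247552594)⟩], [], [],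
 ⟨⟨[(nat_lit 40), (nat_lit 60), (nat_lit 80)], [(nat_lit 0), (nat_lit 197), (nat_lit 800)], [((nat_lit 0), (nat_lit 0), (nat_lit 0)), ((nat_lit 1000), (nat_lit 908), (nat_lit 154)), ((nat_lit 1000), (nat_lit 781), (nat_lit 471))], ((nat_lit 79), (nat_lit 100), (nat_lit 45))⟩, (nat_lit 828835), (nat_lit 63), (nat_lit 63), (nat_lit 0), (nat_lit 0), [(nat_lit 1436736897), (nat_lit 1850535586), (nat_lit 2138448800)], [(nat_lit 0), (nat_lit 0), (nat_lit 0)], [(nat_lit 22225648339), (nat_lit 22792943645), (nat_lit 23496321842), (nat_lit 24004380523), (nat_lit 24959939523), (nat_lit 25561550788), (nat_lit 25941787371), (nat_lit 26476382016)], (nat_lit 0), (nat_lit 0), (nat_lit 0), (nat_lit 0), (nat_lit 0), (nat_lit 0), [], [(nat_lit 2), (nat_lit 44), (nat_lit 260), (nat_lit 50), (nat_lit 10)]⟩,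
 ⟨⟨[(nat_lit 120), (nat_lit 140), (nat_lit 160)], [(nat_lit 0), (nat_lit 266), (nat_lit 862)], [((nat_lit 0), (nat_lit 0), (nat_lit 0)), ((nat_lit 960), (nat_lit 1000), (nat_lit 200)), ((nat_lit 874), (nat_lit 1000), (nat_lit 406))], ((nat_lit 100), (nat_lit 86), (nat_lit 44))⟩, (nat_lit 0), (nat_lit 664), (nat_lit 664), (nat_lit 0), (nat_lit 921329), [(nat_lit 247008000), (nat_lit 305102000), (nat_lit 368032000)], [], [(nat_lit 1813213802), (nat_lit 1327559837), (nat_lit 1243034183), (nat_lit 1227761909), (nat_lit 1392817612), (nat_lit 1297153328), (nat_lit 1727677436), (nat_lit 1337836190)], (nat_lit 1271251), (nat_lit 1271251), (nat_lit 780000), (nat_lit 1435001), (nat_lit 780000), (nat_lit 2990626), [(nat_lit 1695001), (nat_lit 1271251), (nat_lit 1271251)], [(nat_lit 27), (nat_lit 62), (nat_lit 456), (nat_lit 225), (nat_lit 12)]⟩,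
 ⟨⟨[(nat_lit 140), (nat_lit 160), (nat_lit 180)], [(nat_lit 0), (nat_lit 0), (nat_lit 799)], [((nat_lit 0), (nat_lit 0), (nat_lit 0)), ((nat_lit 0), (nat_lit 0), (nat_lit 0)), ((nat_lit 728), (nat_lit 1000), (nat_lit 454))], ((nat_lit 100), (nat_lit 71), (nat_lit 48))⟩, (nat_lit 27237), (nat_lit 300), (nat_lit 1709), (nat_lit 2300200), (nat_lit 3074584), [(nat_lit 305102000), (nat_lit 368032000), (nat_lit 435798000)], [], [(nat_lit 1549793145), (nat_lit 1477938214), (nat_lit 1540862980), (nat_lit 1466280107), (nat_lit 1425826534), (nat_lit 1355598956), (nat_lit 1443563283), (nat_lit 1368143589)], (nat_lit 780000), (nat_lit 1271251), (nat_lit 1271251), (nat_lit 1271251), (nat_lit 780000), (nat_lit 2990626), [(nat_lit 1977501), (nat_lit 1271251), (nat_lit 1271251)], [(nat_lit 31), (nat_lit 65), (nat_lit 541), (nat_lit 250), (nat_lit 12)]⟩⟩)))) (.spl (nat_lit 5) (nat_lit 120) (.leaf ⟨(nat_lit 787), (nat_lit 0), (nat_lit 0), (nat_lit 213), (nat_lit 0), (nat_lit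 4266), (nat_lit 3345), (nat_lit 3010), (nat_lit 0), (nat_lit 0), (nat_lit 783400), [((nat_lit 340), [((nat_lit 37), (nat_lit 2), (nat_lit 9)), ((nat_lit 18), (nat_lit 2), (nat_lit 778))])], ⟨(nat_lit 4), false, false, false, (nat_lit 178), (nat_lit 3872), (nat_lit 4473), [(nat_lit 1342475), (nat_lit 1349162), (nat_lit 1407125), (nat_lit 1414492), (nat_lit 1478432), (nat_lit 1478205), (nat_lit 1543097), (nat_lit 1543551)]⟩, ⟨(nat_lit 7), false, false, true, (nat_lit 255), (nat_lit 3872), (nat_lit 4473), [(nat_lit 1549689), (nat_lit 1541869), (nat_lit 1614388), (nat_lit 1607248), (nat_lit 1668651), (nat_lit 1654781), (nat_lit 1733350), (nat_lit 1720161)]⟩, (nat_lit 5064236), (nat_lit 39815328), (nat_lit 9799119), (nat_lit 17385553), (nat_lit 0), (nat_lit 0), [], [⟨(nat_lit 1), (nat_lit 85), (nat_lit 78), (nat_lit 100), (nat_lit 191735719)⟩], [], [],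
 ⟨⟨[(nat_lit 40), (nat_lit 80), (nat_lit 100)], [(nat_lit 0), (nat_lit 0), (nat_lit 1280)], [((nat_lit 0), (nat_lit 0), (nat_lit 0)), ((nat_lit 0), (nat_lit 0), (nat_lit 0)), ((nat_lit 1000), (nat_lit 800), (nat_lit 600))], ((nat_lit 82), (nat_lit 100), (nat_lit 44))⟩, (nat_lit 0), (nat_lit 206), (nat_lit 206), (nat_lit 0), (nat_lit 356509), [(nat_lit 1826699444), (nat_lit 1737179757), (nat_lit 996779600)], [(nat_lit 0), (nat_lit 0), (nat_lit 0)], [(nat_lit 21773072450), (nat_lit 23024033465), (nat_lit 22937982453), (nat_lit 24115779100), (nat_lit 25935032635), (nat_lit 27240169767), (nat_lit 26691724613), (nat_lit 27855759975)], (nat_lit 1271251), (nat_lit 1271251), (nat_lit 780000), (nat_lit 1435001), (nat_lit 1271251), (nat_lit 1271251), [(nat_lit 490000), (nat_lit 1100000), (nat_lit 1442501)], [(nat_lit 3), (nat_lit 50), (nat_lit 260), (nat_lit 50), (nat_lit 8)]⟩,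
 ⟨⟨[(nat_lit 120), (nat_lit 140), (nat_lit 160)], [(nat_lit 0), (nat_lit 266), (nat_lit 862)], [((nat_lit 0), (nat_lit 0), (nat_lit 0)), ((nat_lit 960), (nat_lit 1000), (nat_lit 200)), ((nat_lit 874), (nat_lit 1000), (nat_lit 406))], ((nat_lit 100), (nat_lit 86), (nat_lit 44))⟩, (nat_lit 1306105), (nat_lit 393), (nat_lit 393), (nat_lit 0), (nat_lit 242259), [(nat_lit 1697184000), (nat_lit 2096346000), (nat_lit 2528736000)], [], [(nat_lit 7511697218), (nat_lit 6259586460), (nat_lit 9414484226), (nat_lit 6320013290), (nat_lit 7858528409), (nat_lit 3702959028), (nat_lit 10603914866), (nat_lit 5774937393)], (nat_lit 1271251), (nat_lit 1271251), (nat_lit 780000), (nat_lit 1435001), (nat_lit 0), (nat_lit 780000), [(nat_lit 1695001), (nat_lit 1271251), (nat_lit 1271251)], [(nat_lit 27), (nat_lit 62), (nat_lit 373), (nat_lit 150), (nat_lit 10)]⟩,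
 ⟨⟨[(nat_lit 140), (nat_lit 160), (nat_lit 180)], [(nat_lit 0), (nat_lit 0), (nat_lit 799)], [((nat_lit 0), (nat_lit 0), (nat_lit 0)), ((nat_lit 0), (nat_lit 0), (nat_lit 0)), ((nat_lit 728), (nat_lit 1000), (nat_lit 454))], ((nat_lit 100), (nat_lit 71), (nat_lit 48))⟩, (nat_lit 187141), (nat_lit 300), (nat_lit 605), (nat_lit 15804602), (nat_lit 506118), [(nat_lit 2096346000), (nat_lit 2528736000), (nat_lit 2994354000)], [], [(nat_lit 11702855012), (nat_lit 11129051332), (nat_lit 12297550106), (nat_lit 11756214128), (nat_lit 9289347015), (nat_lit 8736669252), (nat_lit 9634197181), (nat_lit 9131058345)], (nat_lit 780000), (nat_lit 1271251), (nat_lit 1271251), (nat_lit 1271251), (nat_lit 0), (nat_lit 780000), [(nat_lit 1977501), (nat_lit 1271251), (nat_lit 1271251)], [(nat_lit 31), (nat_lit 65), (nat_lit 401), (nat_lit 175), (nat_lit 9)]⟩⟩) (.leaf ⟨(nat_lit 910), (nat_lit 0), (nat_lit 0), (nat_lit 90), (nat_lit 0), (nat_lit 3926), (nat_lit 533), (nat_lit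 1124), (nat_lit 0), (nat_lit 0), (nat_lit 973000), [((nat_lit 340), [((nat_lit 18), (nat_lit 2), (nat_lit 889)), ((nat_lit 37), (nat_lit 5), (nat_lit 21))])], ⟨(nat_lit 4), false, false, false, (nat_lit 178), (nat_lit 3872), (nat_lit 4473), [(nat_lit 1342475), (nat_lit 1349162), (nat_lit 1407125), (nat_lit 1414492), (nat_lit 1478432), (nat_lit 1478205), (nat_lit 1543097), (nat_lit 1543551)]⟩, ⟨(nat_lit 7), false, false, true, (nat_lit 255), (nat_lit 3872), (nat_lit 4473), [(nat_lit 1549689), (nat_lit 1541869), (nat_lit 1614388), (nat_lit 1607248), (nat_lit 1668651), (nat_lit 1654781), (nat_lit 1733350), (nat_lit 1720161)]⟩, (nat_lit 5064236), (nat_lit 39815328), (nat_lit 9799119), (nat_lit 17385553), (nat_lit 0), (nat_lit 0), [], [⟨(nat_lit 1), (nat_lit 85), (nat_lit 78), (nat_lit 100), (nat_lit 270091840)⟩], [], [],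
 ⟨⟨[(nat_lit 40), (nat_lit 80), (nat_lit 100)], [(nat_lit 0), (nat_lit 0), (nat_lit 1280)], [((nat_lit 0), (nat_lit 0), (nat_lit 0)), ((nat_lit 0), (nat_lit 0), (nat_lit 0)), ((nat_lit 1000), (nat_lit 800), (nat_lit 600))], ((nat_lit 82), (nat_lit 100), (nat_lit 44))⟩, (nat_lit 0), (nat_lit 206), (nat_lit 206), (nat_lit 0), (nat_lit 356509), [(nat_lit 1606823213), (nat_lit 1420922655), (nat_lit 0)], [(nat_lit 0), (nat_lit 0), (nat_lit 89998000)], [(nat_lit 21689289712), (nat_lit 22763763569), (nat_lit 22896908298), (nat_lit 23919080345), (nat_lit 25571284230), (nat_lit 26825174182), (nat_lit 26411196988), (nat_lit 27532147592)], (nat_lit 1271251), (nat_lit 1271251), (nat_lit 780000), (nat_lit 1435001), (nat_lit 1271251), (nat_lit 1271251), [(nat_lit 490000), (nat_lit 1100000), (nat_lit 1442501)], [(nat_lit 3), (nat_lit 50), (nat_lit 260), (nat_lit 50), (nat_lit 8)]⟩,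
 ⟨⟨[(nat_lit 120), (nat_lit 140), (nat_lit 160)], [(nat_lit 0), (nat_lit 266), (nat_lit 862)], [((nat_lit 0), (nat_lit 0), (nat_lit 0)), ((nat_lit 960), (nat_lit 1000), (nat_lit 200)), ((nat_lit 874), (nat_lit 1000), (nat_lit 406))], ((nat_lit 100), (nat_lit 86), (nat_lit 44))⟩, (nat_lit 750225), (nat_lit 374), (nat_lit 374), (nat_lit 0), (nat_lit 427331), [(nat_lit 717120000), (nat_lit 885780000), (nat_lit 1068480000)], [], [(nat_lit 4203836079), (nat_lit 3338105099), (nat_lit 3290740474), (nat_lit 3372862735), (nat_lit 3948076859), (nat_lit 3819637114), (nat_lit 4636017555), (nat_lit 3941083160)], (nat_lit 1271251), (nat_lit 1271251), (nat_lit 780000), (nat_lit 1435001), (nat_lit 780000), (nat_lit 2990626), [(nat_lit 1695001), (nat_lit 1271251), (nat_lit 1271251)], [(nat_lit 27), (nat_lit 62), (nat_lit 456), (nat_lit 225), (nat_lit 12)]⟩,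
 ⟨⟨[(nat_lit 140), (nat_lit 160), (nat_lit 180)], [(nat_lit 0), (nat_lit 0), (nat_lit 799)], [((nat_lit 0), (nat_lit 0), (nat_lit 0)), ((nat_lit 0), (nat_lit 0), (nat_lit 0)), ((nat_lit 728), (nat_lit 1000), (nat_lit 454))], ((nat_lit 100), (nat_lit 71), (nat_lit 48))⟩, (nat_lit 79074), (nat_lit 300), (nat_lit 999), (nat_lit 6678000), (nat_lit 1568930), [(nat_lit 885780000), (nat_lit 1068480000), (nat_lit 1265220000)], [], [(nat_lit 4287966258), (nat_lit 4071595235), (nat_lit 4343334854), (nat_lit 4127541182), (nat_lit 4063586375), (nat_lit 3844667631), (nat_lit 4169807526), (nat_lit 3960153191)], (nat_lit 780000), (nat_lit 1271251), (nat_lit 1271251), (nat_lit 1271251), (nat_lit 780000), (nat_lit 2990626), [(nat_lit 1977501), (nat_lit 1271251), (nat_lit 1271251)], [(nat_lit 31), (nat_lit 65), (nat_lit 483), (nat_lit 250), (nat_lit 11)]⟩⟩)))))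
noncomputable def c10_17 : Tr Lf :=
 (.spl (nat_lit 2) (nat_lit 160) (.trX (nat_lit 4) (nat_lit 0) (nat_lit 2) (nat_lit 82) (nat_lit 76) (nat_lit 100) (nat_lit 340) (.spl (nat_lit 4) (nat_lit 280) (.leaf ⟨(nat_lit 992), (nat_lit 0), (nat_lit 0), (nat_lit 8), (nat_lit 3213), (nat_lit 3687), (nat_lit 143), (nat_lit 115), (nat_lit 0), (nat_lit 0), (nat_lit 682800), [((nat_lit 340), [((nat_lit 37), (nat_lit 2), (nat_lit 773)), ((nat_lit 18), (nat_lit 2), (nat_lit 219))])], ⟨(nat_lit 4), false, false, false, (nat_lit 178), (nat_lit 3872), (nat_lit 4473), [(nat_lit 1342475), (nat_lit 1349162), (nat_lit 1407125), (nat_lit 1414492), (nat_lit 1478432), (nat_lit 1478205), (nat_lit 1543097), (nat_lit 1543551)]⟩, ⟨(nat_lit 5), false, false, true, (nat_lit 200), (nat_lit 3872), (nat_lit 4473), [(nat_lit 1413733), (nat_lit 1412825), (nat_lit 1456866), (nat_lit 1456412), (nat_lit 1549689), (nat_lit 1541869), (nat_lit 1592822), (nat_lit 1585455)]⟩, (nat_lit 4733079),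 (nat_lit 43997748), (nat_lit 10413613), (nat_lit 12588639), (nat_lit 0), (nat_lit 0), [], [], [], [⟨(nat_lit 0), (nat_lit 92), (nat_lit 100), (nat_lit 40), (nat_lit 2038058)⟩],
 ⟨⟨[(nat_lit 40), (nat_lit 80), (nat_lit 100)], [(nat_lit 0), (nat_lit 0), (nat_lit 1280)], [((nat_lit 0), (nat_lit 0), (nat_lit 0)), ((nat_lit 0), (nat_lit 0), (nat_lit 0)), ((nat_lit 1000), (nat_lit 800), (nat_lit 600))], ((nat_lit 80), (nat_lit 100), (nat_lit 57))⟩, (nat_lit 0), (nat_lit 103), (nat_lit 103), (nat_lit 0), (nat_lit 127015), [(nat_lit 1549978534), (nat_lit 1545613671), (nat_lit 840961600)], [(nat_lit 0), (nat_lit 0), (nat_lit 0)], [(nat_lit 18671424292), (nat_lit 19961245504), (nat_lit 20189017941), (nat_lit 21337820413), (nat_lit 21601286033), (nat_lit 22726798785), (nat_lit 22777418471), (nat_lit 23781560892)], (nat_lit 1271251), (nat_lit 1271251), (nat_lit 780000), (nat_lit 1435001), (nat_lit 1271251), (nat_lit 1271251), [(nat_lit 490000), (nat_lit 1100000),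 (nat_lit 1442501)], [(nat_lit 3), (nat_lit 50), (nat_lit 260), (nat_lit 50), (nat_lit 9)]⟩,
 ⟨⟨[(nat_lit 120), (nat_lit 160), (nat_lit 180)], [(nat_lit 0), (nat_lit 533), (nat_lit 2066)], [((nat_lit 0), (nat_lit 0), (nat_lit 0)), ((nat_lit 960), (nat_lit 1000), (nat_lit 200)), ((nat_lit 615), (nat_lit 1000), (nat_lit 729))], ((nat_lit 100), (nat_lit 76), (nat_lit 58))⟩, (nat_lit 52629), (nat_lit 544), (nat_lit 544), (nat_lit 0), (nat_lit 300945), [(nat_lit 63744000), (nat_lit 94976000), (nat_lit 112464000)], [], [(nat_lit 281388727), (nat_lit 273504986), (nat_lit 360007695), (nat_lit 255477352), (nat_lit 576240770), (nat_lit 383198706), (nat_lit 716090072), (nat_lit 527902358)], (nat_lit 1271251), (nat_lit 1271251), (nat_lit 780000), (nat_lit 1435001), (nat_lit 0), (nat_lit 2825001), [(nat_lit 1695001), (nat_lit 1271251), (nat_lit 1271251)], [(nat_lit 28), (nat_lit 65), (nat_lit 456), (nat_lit 225), (nat_lit 11)]⟩,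
 ⟨⟨[(nat_lit 140), (nat_lit 180), (nat_lit 200)], [(nat_lit 0), (nat_lit 0), (nat_lit 2835)], [((nat_lit 0), (nat_lit 0), (nat_lit 0)), ((nat_lit 0), (nat_lit 0), (nat_lit 0)), ((nat_lit 363), (nat_lit 1000), (nat_lit 798))], ((nat_lit 0), (nat_lit 0), (nat_lit 0))⟩, (nat_lit 2201), (nat_lit 300), (nat_lit 961), (nat_lit 624801), (nat_lit 1081983), [(nat_lit 78736000), (nat_lit 112464000), (nat_lit 131200000)], [], [(nat_lit 540717524), (nat_lit 521057418), (nat_lit 525418830), (nat_lit 506934982), (nat_lit 588353308), (nat_lit 645533778), (nat_lit 400458630), (nat_lit 448686438)], (nat_lit 780000), (nat_lit 1100000), (nat_lit 1271251), (nat_lit 1271251), (nat_lit 0), (nat_lit 2825001), [(nat_lit 1977501), (nat_lit 1271251), (nat_lit 1271251)], [(nat_lit 32), (nat_lit 67), (nat_lit 456), (nat_lit 225), (nat_lit 10)]⟩⟩) (.trX (nat_lit 5) (nat_lit 4) (nat_lit 3) (nat_lit 92) (nat_lit 40) (nat_lit 100) (nat_lit 390) (.spl (nat_lit 0) (nat_lit 330) (.spl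 (nat_lit 6) (nat_lit 28) (.leaf ⟨(nat_lit 879), (nat_lit 52), (nat_lit 0), (nat_lit 69), (nat_lit 9363), (nat_lit 4178), (nat_lit 1522), (nat_lit 911), (nat_lit 0), (nat_lit 0), (nat_lit 219750), [((nat_lit 330), [((nat_lit 18), (nat_lit 0), (nat_lit 879))])], ⟨(nat_lit 4), false, false, false, (nat_lit 177), (nat_lit 4183), (nat_lit 4473), [(nat_lit 1342476), (nat_lit 1345821), (nat_lit 1407167), (nat_lit 1410812), (nat_lit 1478432), (nat_lit 1478332), (nat_lit 1543125), (nat_lit 1543325)]⟩, ⟨(nat_lit 7), false, false, true, (nat_lit 248), (nat_lit 4183), (nat_lit 4473), [(nat_lit 1549689), (nat_lit 1545843), (nat_lit 1592822), (nat_lit 1589176), (nat_lit 1651656), (nat_lit 1645226), (nat_lit 1694789), (nat_lit 1688560)]⟩, (nat_lit 5030302), (nat_lit 40344622), (nat_lit 9853687), (nat_lit 16801691), (nat_lit 7), (nat_lit 0), [], [⟨(nat_lit 1), (nat_lit 87), (nat_lit 82), (nat_lit 100), (nat_lit 229116660)⟩], [], [],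
 ⟨⟨[(nat_lit 40), (nat_lit 80), (nat_lit 100)], [(nat_lit 0), (nat_lit 0), (nat_lit 1280)], [((nat_lit 0), (nat_lit 0), (nat_lit 0)), ((nat_lit 0), (nat_lit 0), (nat_lit 0)), ((nat_lit 1000), (nat_lit 800), (nat_lit 600))], ((nat_lit 80), (nat_lit 100), (nat_lit 51))⟩, (nat_lit 0), (nat_lit 80), (nat_lit 80), (nat_lit 0), (nat_lit 44769), [(nat_lit 1709796916), (nat_lit 2472920324), (nat_lit 3008248000)], [(nat_lit 0), (nat_lit 0), (nat_lit 0)], [(nat_lit 22010631926), (nat_lit 22674971597), (nat_lit 23223503388), (nat_lit 23814118990), (nat_lit 25229748750), (nat_lit 25803774503), (nat_lit 26076067890), (nat_lit 26588769162)], (nat_lit 1271251), (nat_lit 1271251), (nat_lit 780000), (nat_lit 1435001), (nat_lit 1271251), (nat_lit 1271251), [(nat_lit 490000), (nat_lit 1100000), (nat_lit 1442501)], [(nat_lit 3), (nat_lit 50), (nat_lit 260), (nat_lit 50), (nat_lit 8)]⟩,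
 ⟨⟨[(nat_lit 120), (nat_lit 140), (nat_lit 160)], [(nat_lit 0), (nat_lit 266), (nat_lit 862)], [((nat_lit 0), (nat_lit 0), (nat_lit 0)), ((nat_lit 960), (nat_lit 1000), (nat_lit 200)), ((nat_lit 874), (nat_lit 1000), (nat_lit 406))], ((nat_lit 100), (nat_lit 81), (nat_lit 51))⟩, (nat_lit 1054963), (nat_lit 329), (nat_lit 329), (nat_lit 0), (nat_lit 116956), [(nat_lit 964128000), (nat_lit 1190882000), (nat_lit 1436512000)], [], [(nat_lit 4283340691), (nat_lit 3163519336), (nat_lit 5208488987), (nat_lit 3239845624), (nat_lit 7706243499), (nat_lit 5644812930), (nat_lit 9279677076), (nat_lit 7270269798)], (nat_lit 1271251), (nat_lit 1271251), (nat_lit 780000), (nat_lit 1435001), (nat_lit 0), (nat_lit 2754376), [(nat_lit 1695001), (nat_lit 1271251), (nat_lit 1271251)], [(nat_lit 27), (nat_lit 62), (nat_lit 456), (nat_lit 225), (nat_lit 12)]⟩,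
 ⟨⟨[(nat_lit 140), (nat_lit 180), (nat_lit 200)], [(nat_lit 0), (nat_lit 0), (nat_lit 2835)], [((nat_lit 0), (nat_lit 0), (nat_lit 0)), ((nat_lit 0), (nat_lit 0), (nat_lit 0)), ((nat_lit 363), (nat_lit 1000), (nat_lit 798))], ((nat_lit 0), (nat_lit 0), (nat_lit 0))⟩, (nat_lit 18985), (nat_lit 300), (nat_lit 619), (nat_lit 5388900), (nat_lit 366350), [(nat_lit 679098000), (nat_lit 970002000), (nat_lit 1131600000)], [], [(nat_lit 4636164342), (nat_lit 4479480048), (nat_lit 4626692634), (nat_lit 4464524095), (nat_lit 3541987701), (nat_lit 3778333610), (nat_lit 3537038194), (nat_lit 3376227249)], (nat_lit 780000), (nat_lit 1100000), (nat_lit 1271251), (nat_lit 1271251), (nat_lit 0), (nat_lit 2754376), [(nat_lit 1977501), (nat_lit 1271251), (nat_lit 1271251)], [(nat_lit 32), (nat_lit 67), (nat_lit 456), (nat_lit 225), (nat_lit 10)]⟩⟩) (.dle (nat_lit 0))) (.trX (nat_lit 4) (nat_lit 0) (nat_lit 2) (nat_lit 78) (nat_lit 81) (nat_lit 100) (nat_lit 330) (.leaf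 ⟨(nat_lit 969), (nat_lit 0), (nat_lit 0), (nat_lit 31), (nat_lit 6176), (nat_lit 3608), (nat_lit 617), (nat_lit 435), (nat_lit 0), (nat_lit 0), (nat_lit 309800), [((nat_lit 340), [((nat_lit 18), (nat_lit 0), (nat_lit 752)), ((nat_lit 18), (nat_lit 1), (nat_lit 42)), ((nat_lit 37), (nat_lit 2), (nat_lit 175))])], ⟨(nat_lit 4), false, false, false, (nat_lit 178), (nat_lit 3872), (nat_lit 4184), [(nat_lit 1345820), (nat_lit 1349161), (nat_lit 1410806), (nat_lit 1414527), (nat_lit 1478332), (nat_lit 1478205), (nat_lit 1543323), (nat_lit 1543576)]⟩, ⟨(nat_lit 7), false, false, true, (nat_lit 243), (nat_lit 3872), (nat_lit 4184), [(nat_lit 1545843), (nat_lit 1541869), (nat_lit 1589176), (nat_lit 1585455), (nat_lit 1628662), (nat_lit 1622521), (nat_lit 1671996), (nat_lit 1666107)]⟩, (nat_lit 5009388), (nat_lit 40709825), (nat_lit 9973661), (nat_lit 16316514), (nat_lit 0), (nat_lit 0), [], [⟨(nat_lit 1), (nat_lit 91), (nat_lit 77), (nat_lit 100), (nat_lit 243906627)⟩],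 [], [⟨(nat_lit 0), (nat_lit 87), (nat_lit 100), (nat_lit 35), (nat_lit 10226669)⟩],
 ⟨⟨[(nat_lit 40), (nat_lit 80), (nat_lit 100)], [(nat_lit 0), (nat_lit 395), (nat_lit 1536)], [((nat_lit 0), (nat_lit 0), (nat_lit 0)), ((nat_lit 1000), (nat_lit 908), (nat_lit 154)), ((nat_lit 1000), (nat_lit 760), (nat_lit 642))], ((nat_lit 76), (nat_lit 100), (nat_lit 58))⟩, (nat_lit 917814), (nat_lit 118), (nat_lit 118), (nat_lit 0), (nat_lit 125283), [(nat_lit 1474724205), (nat_lit 2118461256), (nat_lit 2404141344)], [(nat_lit 0), (nat_lit 0), (nat_lit 0)], [(nat_lit 22336014296), (nat_lit 22917247080), (nat_lit 23500493296), (nat_lit 24031974106), (nat_lit 24646001299), (nat_lit 25197588660), (nat_lit 25614308903), (nat_lit 26119995550)], (nat_lit 1271251), (nat_lit 1271251), (nat_lit 780000), (nat_lit 1435001), (nat_lit 1271251), (nat_lit 1271251), [(nat_lit 490000), (nat_lit 1100000), (nat_lit 1442501)], [(nat_lit 3), (nat_lit 50), (nat_lit 260), (nat_lit 50),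 (nat_lit 8)]⟩,
 ⟨⟨[(nat_lit 120), (nat_lit 160), (nat_lit 180)], [(nat_lit 0), (nat_lit 533), (nat_lit 2066)], [((nat_lit 0), (nat_lit 0), (nat_lit 0)), ((nat_lit 960), (nat_lit 1000), (nat_lit 200)), ((nat_lit 615), (nat_lit 1000), (nat_lit 729))], ((nat_lit 100), (nat_lit 76), (nat_lit 58))⟩, (nat_lit 249618), (nat_lit 544), (nat_lit 544), (nat_lit 0), (nat_lit 300945), [(nat_lit 247008000), (nat_lit 368032000), (nat_lit 435798000)], [], [(nat_lit 1087699414), (nat_lit 984165666), (nat_lit 1418244870), (nat_lit 978363386), (nat_lit 2279212821), (nat_lit 1443534331), (nat_lit 2869767293), (nat_lit 2055178403)], (nat_lit 1271251), (nat_lit 1271251), (nat_lit 780000), (nat_lit 1435001), (nat_lit 0), (nat_lit 2754376), [(nat_lit 1695001), (nat_lit 1271251), (nat_lit 1271251)], [(nat_lit 28), (nat_lit 65), (nat_lit 456), (nat_lit 225), (nat_lit 11)]⟩,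
 ⟨⟨[(nat_lit 140), (nat_lit 180), (nat_lit 200)], [(nat_lit 0), (nat_lit 0), (nat_lit 2835)], [((nat_lit 0), (nat_lit 0), (nat_lit 0)), ((nat_lit 0), (nat_lit 0), (nat_lit 0)), ((nat_lit 363), (nat_lit 1000), (nat_lit 798))], ((nat_lit 0), (nat_lit 0), (nat_lit 0))⟩, (nat_lit 8529), (nat_lit 300), (nat_lit 931), (nat_lit 2421102), (nat_lit 1081983), [(nat_lit 305102000), (nat_lit 435798000), (nat_lit 508400000)], [], [(nat_lit 2049716670), (nat_lit 1973776136), (nat_lit 2068336536), (nat_lit 1995096517), (nat_lit 1558064565), (nat_lit 1698820604), (nat_lit 1565436105), (nat_lit 1493518194)], (nat_lit 780000), (nat_lit 1100000), (nat_lit 1271251), (nat_lit 1271251), (nat_lit 0), (nat_lit 2754376), [(nat_lit 1977501), (nat_lit 1271251), (nat_lit 1271251)], [(nat_lit 32), (nat_lit 67), (nat_lit 456), (nat_lit 225), (nat_lit 10)]⟩⟩)))))) (.spl (nat_lit 6) (nat_lit 28) (.leaf ⟨(nat_lit 703), (nat_lit 37), (nat_lit 0), (nat_lit 260), (nat_lit 6590), (nat_lit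 3942), (nat_lit 3736), (nat_lit 2938), (nat_lit 0), (nat_lit 0), (nat_lit 646600), [((nat_lit 340), [((nat_lit 37), (nat_lit 2), (nat_lit 141)), ((nat_lit 18), (nat_lit 2), (nat_lit 562))])], ⟨(nat_lit 4), false, false, false, (nat_lit 178), (nat_lit 3872), (nat_lit 4473), [(nat_lit 1342475), (nat_lit 1349162), (nat_lit 1407125), (nat_lit 1414492), (nat_lit 1478432), (nat_lit 1478205), (nat_lit 1543097), (nat_lit 1543551)]⟩, ⟨(nat_lit 5), false, false, true, (nat_lit 237), (nat_lit 3872), (nat_lit 4473), [(nat_lit 1456866), (nat_lit 1456412), (nat_lit 1478432), (nat_lit 1478205), (nat_lit 1711784), (nat_lit 1698368), (nat_lit 1733350), (nat_lit 1720161)]⟩, (nat_lit 4974701), (nat_lit 41187935), (nat_lit 10015989), (nat_lit 15796076), (nat_lit 5), (nat_lit 0), [], [], [], [],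
 ⟨⟨[(nat_lit 40), (nat_lit 80), (nat_lit 100)], [(nat_lit 0), (nat_lit 0), (nat_lit 1280)], [((nat_lit 0), (nat_lit 0), (nat_lit 0)), ((nat_lit 0), (nat_lit 0), (nat_lit 0)), ((nat_lit 1000), (nat_lit 800), (nat_lit 600))], ((nat_lit 80), (nat_lit 100), (nat_lit 51))⟩, (nat_lit 4705), (nat_lit 104), (nat_lit 104), (nat_lit 0), (nat_lit 48940), [(nat_lit 1636919638), (nat_lit 2350443492), (nat_lit 1769152400)], [(nat_lit 0), (nat_lit 0), (nat_lit 0)], [(nat_lit 19282589466), (nat_lit 20616035058), (nat_lit 20776551500), (nat_lit 21962032853), (nat_lit 25811947154), (nat_lit 26844742380), (nat_lit 26589159889), (nat_lit 27564338284)], (nat_lit 1271251), (nat_lit 1271251), (nat_lit 780000), (nat_lit 1435001), (nat_lit 1271251), (nat_lit 1271251), [(nat_lit 490000), (nat_lit 1100000), (nat_lit 1442501)], [(nat_lit 3), (nat_lit 50), (nat_lit 260), (nat_lit 50), (nat_lit 9)]⟩,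
 ⟨⟨[(nat_lit 120), (nat_lit 140), (nat_lit 160)], [(nat_lit 0), (nat_lit 266), (nat_lit 862)], [((nat_lit 0), (nat_lit 0), (nat_lit 0)), ((nat_lit 960), (nat_lit 1000), (nat_lit 200)), ((nat_lit 874), (nat_lit 1000), (nat_lit 406))], ((nat_lit 100), (nat_lit 81), (nat_lit 51))⟩, (nat_lit 0), (nat_lit 332), (nat_lit 332), (nat_lit 0), (nat_lit 123141), [(nat_lit 2366496000), (nat_lit 2923074000), (nat_lit 3525984000)], [], [(nat_lit 10513646668), (nat_lit 9997170746), (nat_lit 12784540100), (nat_lit 10184496990), (nat_lit 19197597500), (nat_lit 14154204848), (nat_lit 23081824804), (nat_lit 18165256276)], (nat_lit 1271251), (nat_lit 1271251), (nat_lit 780000), (nat_lit 1435001), (nat_lit 0), (nat_lit 2825001), [(nat_lit 1695001), (nat_lit 1271251), (nat_lit 1271251)], [(nat_lit 27), (nat_lit 62), (nat_lit 456), (nat_lit 225), (nat_lit 12)]⟩,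
 ⟨⟨[(nat_lit 120), (nat_lit 160), (nat_lit 180)], [(nat_lit 0), (nat_lit 0), (nat_lit 1613)], [((nat_lit 0), (nat_lit 0), (nat_lit 0)), ((nat_lit 0), (nat_lit 0), (nat_lit 0)), ((nat_lit 620), (nat_lit 1000), (nat_lit 670))], ((nat_lit 100), (nat_lit 76), (nat_lit 52))⟩, (nat_lit 113156), (nat_lit 300), (nat_lit 453), (nat_lit 19292000), (nat_lit 236159), [(nat_lit 2071680000), (nat_lit 3086720000), (nat_lit 3655080000)], [], [(nat_lit 13926846764), (nat_lit 13885441376), (nat_lit 14562392744), (nat_lit 14488271236), (nat_lit 16469092588), (nat_lit 17370934672), (nat_lit 11975142140), (nat_lit 11832896732)], (nat_lit 1100000), (nat_lit 1271251), (nat_lit 1271251), (nat_lit 1271251), (nat_lit 0), (nat_lit 2825001), [(nat_lit 1695001), (nat_lit 1271251), (nat_lit 1271251)], [(nat_lit 28), (nat_lit 65), (nat_lit 483), (nat_lit 250), (nat_lit 11)]⟩⟩) (.dle (nat_lit 0))))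
noncomputable def c10_18 : Tr Lf :=
 (.spl (nat_lit 3) (nat_lit 80) (.trX (nat_lit 5) (nat_lit 4) (nat_lit 3) (nat_lit 100) (nat_lit 60) (nat_lit 80) (nat_lit 360) (.spl (nat_lit 6) (nat_lit 16) (.leaf ⟨(nat_lit 930), (nat_lit 0), (nat_lit 50), (nat_lit 20), (nat_lit 0), (nat_lit 3776), (nat_lit 243), (nat_lit 906), (nat_lit 0), (nat_lit 1148112), (nat_lit 741200), [((nat_lit 340), [((nat_lit 37), (nat_lit 2), (nat_lit 472)), ((nat_lit 18), (nat_lit 2), (nat_lit 458))])], ⟨(nat_lit 4), false, false, false, (nat_lit 105), (nat_lit 3872), (nat_lit 4473), [(nat_lit 1172511), (nat_lit 1187839), (nat_lit 1237161), (nat_lit 1253169), (nat_lit 1274489), (nat_lit 1284632), (nat_lit 1339140), (nat_lit 1349963)]⟩, ⟨(nat_lit 5), false, true, true, (nat_lit 226), (nat_lit 3872), (nat_lit 4473), [(nat_lit 1478432), (nat_lit 1478205), (nat_lit 1521548), (nat_lit 1521775), (nat_lit 1614388), (nat_lit 1607248), (nat_lit 1657518), (nat_lit 1650831)]⟩, (nat_lit 4147881),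 (nat_lit 46507452), (nat_lit 4733827), (nat_lit 15758721), (nat_lit 0), (nat_lit 4), [⟨(nat_lit 0), (nat_lit 100), (nat_lit 76), (nat_lit 69), (nat_lit 341750765)⟩], [], [], [],
 ⟨⟨[(nat_lit 40), (nat_lit 60), (nat_lit 80)], [(nat_lit 0), (nat_lit 0), (nat_lit 615)], [((nat_lit 0), (nat_lit 0), (nat_lit 0)), ((nat_lit 0), (nat_lit 0), (nat_lit 0)), ((nat_lit 1000), (nat_lit 819), (nat_lit 426))], ((nat_lit 82), (nat_lit 100), (nat_lit 40))⟩, (nat_lit 0), (nat_lit 166), (nat_lit 166), (nat_lit 0), (nat_lit 214201), [(nat_lit 1390074693), (nat_lit 1731013737), (nat_lit 1373625600)], [(nat_lit 0), (nat_lit 0), (nat_lit 0)], [(nat_lit 19075642930), (nat_lit 20790210687), (nat_lit 18238320046), (nat_lit 19546875770), (nat_lit 22898880516), (nat_lit 24503959774), (nat_lit 21258771422), (nat_lit 22470578320)], (nat_lit 1271251), (nat_lit 1271251), (nat_lit 111251), (nat_lit 490000), (nat_lit 1271251), (nat_lit 1271251), [(nat_lit 490000), (nat_lit 780000),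 (nat_lit 1100000)], [(nat_lit 2), (nat_lit 44), (nat_lit 226), (nat_lit 20), (nat_lit 9)]⟩,
 ⟨⟨[(nat_lit 120), (nat_lit 140), (nat_lit 160)], [(nat_lit 0), (nat_lit 266), (nat_lit 862)], [((nat_lit 0), (nat_lit 0), (nat_lit 0)), ((nat_lit 960), (nat_lit 1000), (nat_lit 200)), ((nat_lit 874), (nat_lit 1000), (nat_lit 406))], ((nat_lit 100), (nat_lit 88), (nat_lit 39))⟩, (nat_lit 184901), (nat_lit 617), (nat_lit 617), (nat_lit 0), (nat_lit 483636), [(nat_lit 159360000), (nat_lit 196840000), (nat_lit 237440000)], [], [(nat_lit 1353030444), (nat_lit 961511334), (nat_lit 961511334), (nat_lit 583588904), (nat_lit 1069800396), (nat_lit 770470682), (nat_lit 1124605134), (nat_lit 787863996)], (nat_lit 1271251), (nat_lit 1271251), (nat_lit 111251), (nat_lit 490000), (nat_lit 0), (nat_lit 2542501), [(nat_lit 1695001), (nat_lit 1271251), (nat_lit 1271251)], [(nat_lit 27), (nat_lit 62), (nat_lit 401), (nat_lit 175), (nat_lit 11)]⟩,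
 ⟨⟨[(nat_lit 120), (nat_lit 140), (nat_lit 160)], [(nat_lit 0), (nat_lit 266), (nat_lit 862)], [((nat_lit 0), (nat_lit 0), (nat_lit 0)), ((nat_lit 960), (nat_lit 1000), (nat_lit 200)), ((nat_lit 874), (nat_lit 1000), (nat_lit 406))], ((nat_lit 100), (nat_lit 88), (nat_lit 39))⟩, (nat_lit 143684), (nat_lit 300), (nat_lit 800), (nat_lit 4648001), (nat_lit 1083096), [(nat_lit 557760000), (nat_lit 688940000), (nat_lit 831040000)], [], [(nat_lit 2908935850), (nat_lit 2884666886), (nat_lit 2940322331), (nat_lit 2901688548), (nat_lit 4564947221), (nat_lit 3759832586), (nat_lit 2964707733), (nat_lit 2332770964)], (nat_lit 1271251), (nat_lit 1271251), (nat_lit 1271251), (nat_lit 1271251), (nat_lit 0), (nat_lit 2542501), [(nat_lit 1695001), (nat_lit 1271251), (nat_lit 1271251)], [(nat_lit 27), (nat_lit 62), (nat_lit 456), (nat_lit 225), (nat_lit 12)]⟩⟩) (.leaf ⟨(nat_lit 880), (nat_lit 0), (nat_lit 78), (nat_lit 42), (nat_lit 6145), (nat_lit 3879), (nat_lit 479),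 (nat_lit 1332), (nat_lit 0), (nat_lit 22165), (nat_lit 731600), [((nat_lit 340), [((nat_lit 37), (nat_lit 2), (nat_lit 371)), ((nat_lit 18), (nat_lit 2), (nat_lit 509))])], ⟨(nat_lit 4), false, false, false, (nat_lit 105), (nat_lit 3872), (nat_lit 4473), [(nat_lit 1172511), (nat_lit 1187839), (nat_lit 1237161), (nat_lit 1253169), (nat_lit 1274489), (nat_lit 1284632), (nat_lit 1339140), (nat_lit 1349963)]⟩, ⟨(nat_lit 5), false, true, true, (nat_lit 226), (nat_lit 3872), (nat_lit 4473), [(nat_lit 1478432), (nat_lit 1478205), (nat_lit 1521548), (nat_lit 1521775), (nat_lit 1614388), (nat_lit 1607248), (nat_lit 1657518), (nat_lit 1650831)]⟩, (nat_lit 4147881), (nat_lit 46507452), (nat_lit 4733827), (nat_lit 15758721), (nat_lit 0), (nat_lit 4), [⟨(nat_lit 0), (nat_lit 100), (nat_lit 76), (nat_lit 69), (nat_lit 420668740)⟩], [], [], [],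
 ⟨⟨[(nat_lit 40), (nat_lit 80), (nat_lit 100)], [(nat_lit 0), (nat_lit 0), (nat_lit 1280)], [((nat_lit 0), (nat_lit 0), (nat_lit 0)), ((nat_lit 0), (nat_lit 0), (nat_lit 0)), ((nat_lit 1000), (nat_lit 800), (nat_lit 600))], ((nat_lit 80), (nat_lit 100), (nat_lit 51))⟩, (nat_lit 1890), (nat_lit 144), (nat_lit 144), (nat_lit 0), (nat_lit 72196), [(nat_lit 1569377492), (nat_lit 1788393712), (nat_lit 950616000)], [(nat_lit 0), (nat_lit 0), (nat_lit 0)], [(nat_lit 19478252969), (nat_lit 21022052224), (nat_lit 18131752052), (nat_lit 19523393885), (nat_lit 23053180027), (nat_lit 24681107118), (nat_lit 21319917876), (nat_lit 22568570718)], (nat_lit 1271251), (nat_lit 1271251), (nat_lit 111251), (nat_lit 490000), (nat_lit 1271251), (nat_lit 1271251), [(nat_lit 490000), (nat_lit 1100000), (nat_lit 1442501)], [(nat_lit 3), (nat_lit 50), (nat_lit 226), (nat_lit 20), (nat_lit 8)]⟩,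
 ⟨⟨[(nat_lit 120), (nat_lit 140), (nat_lit 160)], [(nat_lit 0), (nat_lit 266), (nat_lit 862)], [((nat_lit 0), (nat_lit 0), (nat_lit 0)), ((nat_lit 960), (nat_lit 1000), (nat_lit 200)), ((nat_lit 874), (nat_lit 1000), (nat_lit 406))], ((nat_lit 100), (nat_lit 81), (nat_lit 51))⟩, (nat_lit 289208), (nat_lit 435), (nat_lit 435), (nat_lit 0), (nat_lit 137689), [(nat_lit 334656000), (nat_lit 413364000), (nat_lit 498624000)], [], [(nat_lit 2759660673), (nat_lit 1987900782), (nat_lit 1987900782), (nat_lit 1350514396), (nat_lit 2220268325), (nat_lit 1593145062), (nat_lit 2332201894), (nat_lit 1668419980)], (nat_lit 1271251), (nat_lit 1271251), (nat_lit 111251), (nat_lit 490000), (nat_lit 0), (nat_lit 2542501), [(nat_lit 1695001), (nat_lit 1271251), (nat_lit 1271251)], [(nat_lit 27), (nat_lit 62), (nat_lit 401), (nat_lit 175), (nat_lit 11)]⟩,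
 ⟨⟨[(nat_lit 120), (nat_lit 140), (nat_lit 160)], [(nat_lit 0), (nat_lit 266), (nat_lit 862)], [((nat_lit 0), (nat_lit 0), (nat_lit 0)), ((nat_lit 960), (nat_lit 1000), (nat_lit 200)), ((nat_lit 874), (nat_lit 1000), (nat_lit 406))], ((nat_lit 100), (nat_lit 81), (nat_lit 51))⟩, (nat_lit 230665), (nat_lit 300), (nat_lit 396), (nat_lit 7997737), (nat_lit 305329), [(nat_lit 956160000), (nat_lit 1181040000), (nat_lit 1424640000)], [], [(nat_lit 4931825384), (nat_lit 4959622414), (nat_lit 5127398784), (nat_lit 5120759006), (nat_lit 7530077601), (nat_lit 6346399131), (nat_lit 5177407626), (nat_lit 4300586996)], (nat_lit 1271251), (nat_lit 1271251), (nat_lit 1271251), (nat_lit 1271251), (nat_lit 0), (nat_lit 2542501), [(nat_lit 1695001), (nat_lit 1271251), (nat_lit 1271251)], [(nat_lit 27), (nat_lit 62), (nat_lit 456), (nat_lit 225), (nat_lit 12)]⟩⟩))) (.leaf ⟨(nat_lit 924), (nat_lit 0), (nat_lit 0), (nat_lit 76), (nat_lit 616), (nat_lit 3829), (nat_lit 1010),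 (nat_lit 982), (nat_lit 0), (nat_lit 1464307), (nat_lit 723200), [((nat_lit 340), [((nat_lit 37), (nat_lit 2), (nat_lit 502)), ((nat_lit 18), (nat_lit 2), (nat_lit 422))])], ⟨(nat_lit 4), false, false, false, (nat_lit 138), (nat_lit 3872), (nat_lit 4473), [(nat_lit 1274489), (nat_lit 1284632), (nat_lit 1339140), (nat_lit 1349963), (nat_lit 1342475), (nat_lit 1349162), (nat_lit 1407125), (nat_lit 1414492)]⟩, ⟨(nat_lit 5), false, true, true, (nat_lit 226), (nat_lit 3872), (nat_lit 4473), [(nat_lit 1478432), (nat_lit 1478205), (nat_lit 1521548), (nat_lit 1521775), (nat_lit 1614388), (nat_lit 1607248), (nat_lit 1657518), (nat_lit 1650831)]⟩, (nat_lit 4533468), (nat_lit 44521333), (nat_lit 7065937), (nat_lit 15412730), (nat_lit 0), (nat_lit 0), [], [], [⟨(nat_lit 0), (nat_lit 100), (nat_lit 100), (nat_lit 5), (nat_lit 31831384)⟩], [],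
 ⟨⟨[(nat_lit 40), (nat_lit 80), (nat_lit 100)], [(nat_lit 0), (nat_lit 0), (nat_lit 1280)], [((nat_lit 0), (nat_lit 0), (nat_lit 0)), ((nat_lit 0), (nat_lit 0), (nat_lit 0)), ((nat_lit 1000), (nat_lit 800), (nat_lit 600))], ((nat_lit 80), (nat_lit 100), (nat_lit 51))⟩, (nat_lit 971), (nat_lit 143), (nat_lit 143), (nat_lit 0), (nat_lit 215999), [(nat_lit 1515621820), (nat_lit 1728077612), (nat_lit 864667200)], [(nat_lit 0), (nat_lit 0), (nat_lit 0)], [(nat_lit 18070476408), (nat_lit 19464258630), (nat_lit 18567361478), (nat_lit 19881868426), (nat_lit 21245969432), (nat_lit 22521582346), (nat_lit 21586346153), (nat_lit 22744531314)], (nat_lit 1271251), (nat_lit 1271251), (nat_lit 490000), (nat_lit 780000), (nat_lit 1271251), (nat_lit 1271251), [(nat_lit 490000), (nat_lit 1100000), (nat_lit 1442501)], [(nat_lit 3), (nat_lit 50), (nat_lit 238), (nat_lit 30), (nat_lit 8)]⟩,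
 ⟨⟨[(nat_lit 120), (nat_lit 140), (nat_lit 160)], [(nat_lit 0), (nat_lit 266), (nat_lit 862)], [((nat_lit 0), (nat_lit 0), (nat_lit 0)), ((nat_lit 960), (nat_lit 1000), (nat_lit 200)), ((nat_lit 874), (nat_lit 1000), (nat_lit 406))], ((nat_lit 100), (nat_lit 81), (nat_lit 51))⟩, (nat_lit 720697), (nat_lit 562), (nat_lit 562), (nat_lit 0), (nat_lit 489699), [(nat_lit 605568000), (nat_lit 747992000), (nat_lit 902272000)], [], [(nat_lit 3740268420), (nat_lit 2158795872), (nat_lit 2688057995), (nat_lit 2056000144), (nat_lit 4570961416), (nat_lit 3185272726), (nat_lit 4912836383), (nat_lit 3544869974)], (nat_lit 1271251), (nat_lit 1271251), (nat_lit 490000), (nat_lit 780000), (nat_lit 0), (nat_lit 2754376), [(nat_lit 1695001), (nat_lit 1271251), (nat_lit 1271251)], [(nat_lit 27), (nat_lit 62), (nat_lit 428), (nat_lit 200), (nat_lit 11)]⟩,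
 ⟨⟨[(nat_lit 120), (nat_lit 140), (nat_lit 160)], [(nat_lit 0), (nat_lit 266), (nat_lit 862)], [((nat_lit 0), (nat_lit 0), (nat_lit 0)), ((nat_lit 960), (nat_lit 1000), (nat_lit 200)), ((nat_lit 874), (nat_lit 1000), (nat_lit 406))], ((nat_lit 100), (nat_lit 81), (nat_lit 51))⟩, (nat_lit 156000), (nat_lit 300), (nat_lit 803), (nat_lit 5046400), (nat_lit 1088722), [(nat_lit 605568000), (nat_lit 747992000), (nat_lit 902272000)], [], [(nat_lit 3161077323), (nat_lit 3134871089), (nat_lit 3195303012), (nat_lit 3151430381), (nat_lit 5192012907), (nat_lit 4327694928), (nat_lit 3473991694), (nat_lit 2766891614)], (nat_lit 1271251), (nat_lit 1271251), (nat_lit 1271251), (nat_lit 1271251), (nat_lit 0), (nat_lit 2754376), [(nat_lit 1695001), (nat_lit 1271251), (nat_lit 1271251)], [(nat_lit 27), (nat_lit 62), (nat_lit 456), (nat_lit 225), (nat_lit 12)]⟩⟩))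
noncomputable def c10_19 : Tr Lf :=
 (.trX (nat_lit 5) (nat_lit 4) (nat_lit 3) (nat_lit 100) (nat_lit 95) (nat_lit 87) (nat_lit 300) (.spl (nat_lit 6) (nat_lit 16) (.spl (nat_lit 2) (nat_lit 200) (.trX (nat_lit 4) (nat_lit 0) (nat_lit 2) (nat_lit 80) (nat_lit 60) (nat_lit 100) (nat_lit 360) (.spl (nat_lit 5) (nat_lit 120) (.spl (nat_lit 6) (nat_lit 8) (.spl (nat_lit 0) (nat_lit 330) (.leaf ⟨(nat_lit 207), (nat_lit 0), (nat_lit 530), (nat_lit 263), (nat_lit 0), (nat_lit 4399), (nat_lit 2552), (nat_lit 9202), (nat_lit 0), (nat_lit 3924), (nat_lit 828000), [((nat_lit 330), [((nat_lit 37), (nat_lit 5), (nat_lit 207))])], ⟨(nat_lit 4), false, false, false, (nat_lit 104), (nat_lit 4183), (nat_lit 4473), [(nat_lit 1172530), (nat_lit 1180181), (nat_lit 1237219), (nat_lit 1245170), (nat_lit 1274498), (nat_lit 1279565), (nat_lit 1339187), (nat_lit 1344555)]⟩, ⟨(nat_lit 7), false, true, true, (nat_lit 276), (nat_lit 4183), (nat_lit 4473), [(nat_lit 1614388), (nat_lit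 1610843), (nat_lit 1635955), (nat_lit 1632510), (nat_lit 1750345), (nat_lit 1743354), (nat_lit 1771911), (nat_lit 1765021)]⟩, (nat_lit 4421024), (nat_lit 41957757), (nat_lit 4401221), (nat_lit 20641022), (nat_lit 0), (nat_lit 4), [⟨(nat_lit 0), (nat_lit 100), (nat_lit 78), (nat_lit 66), (nat_lit 900983330)⟩, ⟨(nat_lit 0), (nat_lit 100), (nat_lit 78), (nat_lit 81), (nat_lit 6668554)⟩], [], [], [],
 ⟨⟨[(nat_lit 40), (nat_lit 60), (nat_lit 80)], [(nat_lit 0), (nat_lit 0), (nat_lit 615)], [((nat_lit 0), (nat_lit 0), (nat_lit 0)), ((nat_lit 0), (nat_lit 0), (nat_lit 0)), ((nat_lit 1000), (nat_lit 819), (nat_lit 426))], ((nat_lit 85), (nat_lit 100), (nat_lit 30))⟩, (nat_lit 4009831), (nat_lit 170), (nat_lit 170), (nat_lit 0), (nat_lit 149215), [(nat_lit 2089554079), (nat_lit 2578232123), (nat_lit 2827574877)], [(nat_lit 0), (nat_lit 0), (nat_lit 0)], [(nat_lit 23832167847), (nat_lit 24703805535), (nat_lit 22246380106), (nat_lit 22875986550), (nat_lit 29540731769),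 (nat_lit 30235313746), (nat_lit 26917949204), (nat_lit 27591721091)], (nat_lit 1271251), (nat_lit 1271251), (nat_lit 111251), (nat_lit 490000), (nat_lit 1271251), (nat_lit 1271251), [(nat_lit 490000), (nat_lit 780000), (nat_lit 1100000)], [(nat_lit 2), (nat_lit 44), (nat_lit 226), (nat_lit 20), (nat_lit 9)]⟩,
 ⟨⟨[(nat_lit 120), (nat_lit 140)], [(nat_lit 0), (nat_lit 266)], [((nat_lit 0), (nat_lit 0), (nat_lit 0)), ((nat_lit 960), (nat_lit 1000), (nat_lit 200))], ((nat_lit 100), (nat_lit 93), (nat_lit 28))⟩, (nat_lit 5053520), (nat_lit 333), (nat_lit 333), (nat_lit 0), (nat_lit 131137), [(nat_lit 2095584000), (nat_lit 2588446000)], [], [(nat_lit 16112734938), (nat_lit 12000978696), (nat_lit 12000978696), (nat_lit 7983685924), (nat_lit 8848818508), (nat_lit 7547348922), (nat_lit 9183829944), (nat_lit 6582836842)], (nat_lit 1271251), (nat_lit 1271251), (nat_lit 111251), (nat_lit 490000), (nat_lit 0), (nat_lit 780000), [(nat_lit 1695001), (nat_lit 1271251)],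 [(nat_lit 26), (nat_lit 58), (nat_lit 345), (nat_lit 125), (nat_lit 11)]⟩,
 ⟨⟨[(nat_lit 120), (nat_lit 140)], [(nat_lit 0), (nat_lit 266)], [((nat_lit 0), (nat_lit 0), (nat_lit 0)), ((nat_lit 960), (nat_lit 1000), (nat_lit 200))], ((nat_lit 100), (nat_lit 93), (nat_lit 28))⟩, (nat_lit 2674649), (nat_lit 300), (nat_lit 450), (nat_lit 52655200), (nat_lit 517159), [(nat_lit 6318624000), (nat_lit 7804706000)], [], [(nat_lit 28748008793), (nat_lit 28757720599), (nat_lit 31585370502), (nat_lit 31611813841), (nat_lit 22562950710), (nat_lit 22542970222), (nat_lit 25016649138), (nat_lit 24870919380)], (nat_lit 1271251), (nat_lit 1271251), (nat_lit 1271251), (nat_lit 1271251), (nat_lit 0), (nat_lit 780000), [(nat_lit 1695001), (nat_lit 1271251)], [(nat_lit 26), (nat_lit 58), (nat_lit 317), (nat_lit 100), (nat_lit 9)]⟩⟩) (.trZ (nat_lit 0) (nat_lit 1) (nat_lit 3) (nat_lit 100) (nat_lit 76) (nat_lit 57) (nat_lit 30) (.leaf ⟨(nat_lit 880), (nat_lit 0), (nat_lit 83),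 (nat_lit 37), (nat_lit 0), (nat_lit 3221), (nat_lit 486), (nat_lit 1247), (nat_lit 0), (nat_lit 986), (nat_lit 329800), [((nat_lit 340), [((nat_lit 18), (nat_lit 0), (nat_lit 148)), ((nat_lit 18), (nat_lit 1), (nat_lit 732))])], ⟨(nat_lit 4), false, false, false, (nat_lit 110), (nat_lit 3872), (nat_lit 4184), [(nat_lit 1196739), (nat_lit 1203982), (nat_lit 1261724), (nat_lit 1269347), (nat_lit 1279562), (nat_lit 1284637), (nat_lit 1344547), (nat_lit 1350002)]⟩, ⟨(nat_lit 7), false, true, true, (nat_lit 274), (nat_lit 3872), (nat_lit 4184), [(nat_lit 1610843), (nat_lit 1607248), (nat_lit 1632510), (nat_lit 1629042), (nat_lit 1743354), (nat_lit 1736292), (nat_lit 1765021), (nat_lit 1758085)]⟩, (nat_lit 4479990), (nat_lit 41868335), (nat_lit 4782497), (nat_lit 20349168), (nat_lit 0), (nat_lit 4), [⟨(nat_lit 0), (nat_lit 100), (nat_lit 74), (nat_lit 71), (nat_lit 384176233)⟩], [⟨(nat_lit 1), (nat_lit 71), (nat_lit 74), (nat_lit 100), (nat_lit 208497780)⟩],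 [], [],
 ⟨⟨[(nat_lit 40), (nat_lit 60)], [(nat_lit 0), (nat_lit 197)], [((nat_lit 0), (nat_lit 0), (nat_lit 0)), ((nat_lit 1000), (nat_lit 908), (nat_lit 154))], ((nat_lit 83), (nat_lit 100), (nat_lit 31))⟩, (nat_lit 3692210), (nat_lit 151), (nat_lit 151), (nat_lit 0), (nat_lit 191087), [(nat_lit 1425677867), (nat_lit 1886132800)], [(nat_lit 0), (nat_lit 0)], [(nat_lit 22732000800), (nat_lit 23298510082), (nat_lit 22258959851), (nat_lit 22781977652), (nat_lit 27320900944), (nat_lit 27918712960), (nat_lit 25997223577), (nat_lit 26472908660)], (nat_lit 1271251), (nat_lit 1271251), (nat_lit 169688), (nat_lit 490000), (nat_lit 1271251), (nat_lit 1271251), [(nat_lit 490000), (nat_lit 780000)], [(nat_lit 1), (nat_lit 38), (nat_lit 226), (nat_lit 20), (nat_lit 11)]⟩,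
 ⟨⟨[(nat_lit 120), (nat_lit 140)], [(nat_lit 0), (nat_lit 266)], [((nat_lit 0), (nat_lit 0), (nat_lit 0)), ((nat_lit 960), (nat_lit 1000), (nat_lit 200))], ((nat_lit 100), (nat_lit 93), (nat_lit 28))⟩, (nat_lit 0), (nat_lit 343), (nat_lit 343), (nat_lit 0), (nat_lit 177041), [(nat_lit 294816000), (nat_lit 364154000)], [], [(nat_lit 2467746397), (nat_lit 1687698354), (nat_lit 1815214548), (nat_lit 1050117384), (nat_lit 1208647929), (nat_lit 909862711), (nat_lit 1255100573), (nat_lit 742709788)], (nat_lit 1271251), (nat_lit 1271251), (nat_lit 169688), (nat_lit 490000), (nat_lit 0), (nat_lit 780000), [(nat_lit 1695001), (nat_lit 1271251)], [(nat_lit 26), (nat_lit 58), (nat_lit 345), (nat_lit 125), (nat_lit 11)]⟩,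
 ⟨⟨[(nat_lit 120), (nat_lit 140)], [(nat_lit 0), (nat_lit 266)], [((nat_lit 0), (nat_lit 0), (nat_lit 0)), ((nat_lit 960), (nat_lit 1000), (nat_lit 200))], ((nat_lit 100), (nat_lit 93), (nat_lit 28))⟩, (nat_lit 246316), (nat_lit 300), (nat_lit 530), (nat_lit 7968000), (nat_lit 723077), [(nat_lit 956160000), (nat_lit 1181040000)], [], [(nat_lit 4627880115), (nat_lit 4634208991), (nat_lit 5035762723), (nat_lit 5022667746), (nat_lit 3854026760), (nat_lit 3840862528), (nat_lit 4166309435), (nat_lit 4151088516)], (nat_lit 1271251), (nat_lit 1271251), (nat_lit 1271251), (nat_lit 1271251), (nat_lit 0), (nat_lit 780000), [(nat_lit 1695001), (nat_lit 1271251)], [(nat_lit 26), (nat_lit 58), (nat_lit 317), (nat_lit 100), (nat_lit 9)]⟩⟩))) (.spl (nat_lit 1) (nat_lit 220) (.leaf ⟨(nat_lit 376), (nat_lit 0), (nat_lit 507), (nat_lit 117), (nat_lit 0), (nat_lit 3988), (nat_lit 1361), (nat_lit 6280), (nat_lit 0), (nat_lit 11405), (nat_lit 922000), [((nat_lit 340), [((nat_lit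 18), (nat_lit 2), (nat_lit 194)), ((nat_lit 37), (nat_lit 5), (nat_lit 182))])], ⟨(nat_lit 4), false, false, false, (nat_lit 101), (nat_lit 3872), (nat_lit 4473), [(nat_lit 1172511), (nat_lit 1187839), (nat_lit 1215612), (nat_lit 1231393), (nat_lit 1274489), (nat_lit 1284632), (nat_lit 1317591), (nat_lit 1328187)]⟩, ⟨(nat_lit 7), false, true, true, (nat_lit 275), (nat_lit 3872), (nat_lit 4473), [(nat_lit 1614388), (nat_lit 1607248), (nat_lit 1635955), (nat_lit 1629042), (nat_lit 1750345), (nat_lit 1736292), (nat_lit 1771911), (nat_lit 1758085)]⟩, (nat_lit 4380972), (nat_lit 42195803), (nat_lit 4220217), (nat_lit 20583980), (nat_lit 0), (nat_lit 4), [⟨(nat_lit 0), (nat_lit 100), (nat_lit 72), (nat_lit 77), (nat_lit 578367929)⟩], [], [], [],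
 ⟨⟨[(nat_lit 40), (nat_lit 60), (nat_lit 80)], [(nat_lit 0), (nat_lit 0), (nat_lit 615)], [((nat_lit 0), (nat_lit 0), (nat_lit 0)), ((nat_lit 0), (nat_lit 0), (nat_lit 0)), ((nat_lit 1000), (nat_lit 819), (nat_lit 426))], ((nat_lit 82), (nat_lit 100), (nat_lit 40))⟩, (nat_lit 7266), (nat_lit 157), (nat_lit 157), (nat_lit 0), (nat_lit 90834), [(nat_lit 1843375100), (nat_lit 2441031305), (nat_lit 2173456800)], [(nat_lit 0), (nat_lit 0), (nat_lit 0)], [(nat_lit 23846757999), (nat_lit 25056606410), (nat_lit 22784885511), (nat_lit 23940131993), (nat_lit 28656616928), (nat_lit 29980299179), (nat_lit 26678102287), (nat_lit 27640731950)], (nat_lit 1271251), (nat_lit 1271251), (nat_lit 111251), (nat_lit 490000), (nat_lit 1271251), (nat_lit 1271251), [(nat_lit 490000), (nat_lit 780000), (nat_lit 1100000)], [(nat_lit 2), (nat_lit 44), (nat_lit 226), (nat_lit 20), (nat_lit 9)]⟩,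
 ⟨⟨[(nat_lit 120), (nat_lit 140), (nat_lit 160)], [(nat_lit 0), (nat_lit 266), (nat_lit 862)], [((nat_lit 0), (nat_lit 0), (nat_lit 0)), ((nat_lit 960), (nat_lit 1000), (nat_lit 200)), ((nat_lit 874), (nat_lit 1000), (nat_lit 406))], ((nat_lit 100), (nat_lit 88), (nat_lit 39))⟩, (nat_lit 405865), (nat_lit 413), (nat_lit 413), (nat_lit 0), (nat_lit 91299), [(nat_lit 932256000), (nat_lit 1151514000), (nat_lit 1389024000)], [], [(nat_lit 7757172748), (nat_lit 6295286582), (nat_lit 5564343498), (nat_lit 4135952222), (nat_lit 3876528030), (nat_lit 3811206419), (nat_lit 4019953546), (nat_lit 3235955665)], (nat_lit 1271251), (nat_lit 1271251), (nat_lit 111251), (nat_lit 490000), (nat_lit 0), (nat_lit 780000), [(nat_lit 1695001), (nat_lit 1271251), (nat_lit 1271251)], [(nat_lit 27), (nat_lit 62), (nat_lit 345), (nat_lit 125), (nat_lit 9)]⟩,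
 ⟨⟨[(nat_lit 120), (nat_lit 140), (nat_lit 160)], [(nat_lit 0), (nat_lit 266), (nat_lit 862)], [((nat_lit 0), (nat_lit 0), (nat_lit 0)), ((nat_lit 960), (nat_lit 1000), (nat_lit 200)), ((nat_lit 874), (nat_lit 1000), (nat_lit 406))], ((nat_lit 100), (nat_lit 88), (nat_lit 39))⟩, (nat_lit 1280842), (nat_lit 300), (nat_lit 418), (nat_lit 41433601), (nat_lit 326612), [(nat_lit 4972032000), (nat_lit 6141408000), (nat_lit 7408128000)], [], [(nat_lit 27567686702), (nat_lit 27554792418), (nat_lit 29456518368), (nat_lit 29415601136), (nat_lit 23149456034), (nat_lit 23123209962), (nat_lit 24801431875), (nat_lit 24692306566)], (nat_lit 1271251), (nat_lit 1271251), (nat_lit 1271251), (nat_lit 1271251), (nat_lit 0), (nat_lit 780000), [(nat_lit 1695001), (nat_lit 1271251), (nat_lit 1271251)], [(nat_lit 27), (nat_lit 62), (nat_lit 401), (nat_lit 175), (nat_lit 10)]⟩⟩) (.trZ (nat_lit 0) (nat_lit 1) (nat_lit 3) (nat_lit 100) (nat_lit 80) (nat_lit 68) (nat_lit 50) (.leaf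 ⟨(nat_lit 0), (nat_lit 0), (nat_lit 0), (nat_lit 1000), (nat_lit 0), (nat_lit 5447), (nat_lit 12490), (nat_lit 13456), (nat_lit 0), (nat_lit 0), (nat_lit 0), [], Pd.none, Pd.none, (nat_lit 0), (nat_lit 1), (nat_lit 0), (nat_lit 0), (nat_lit 0), (nat_lit 0), [⟨(nat_lit 0), (nat_lit 100), (nat_lit 77), (nat_lit 77), (nat_lit 2372275356)⟩], [], [], [],
 ⟨⟨[(nat_lit 40), (nat_lit 60), (nat_lit 80)], [(nat_lit 0), (nat_lit 0), (nat_lit 615)], [((nat_lit 0), (nat_lit 0), (nat_lit 0)), ((nat_lit 0), (nat_lit 0), (nat_lit 0)), ((nat_lit 1000), (nat_lit 819), (nat_lit 426))], ((nat_lit 82), (nat_lit 100), (nat_lit 40))⟩, (nat_lit 1795166), (nat_lit 138), (nat_lit 138), (nat_lit 0), (nat_lit 119286), [(nat_lit 2215643156), (nat_lit 3282000031), (nat_lit 4688000000)], [], [(nat_lit 23779492758), (nat_lit 25719106464), (nat_lit 22613384161), (nat_lit 24060338478), (nat_lit 30073991835), (nat_lit 31606435970), (nat_lit 28352866612), (nat_lit 29861620558)], (nat_lit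 1271251), (nat_lit 1271251), (nat_lit 292188), (nat_lit 490000), (nat_lit 1271251), (nat_lit 1271251), [(nat_lit 490000), (nat_lit 780000), (nat_lit 1100000)], [(nat_lit 2), (nat_lit 44), (nat_lit 226), (nat_lit 20), (nat_lit 9)]⟩,
 ⟨⟨[(nat_lit 100), (nat_lit 120), (nat_lit 140)], [(nat_lit 0), (nat_lit 254), (nat_lit 778)], [((nat_lit 0), (nat_lit 0), (nat_lit 0)), ((nat_lit 1000), (nat_lit 1000), (nat_lit 198)), ((nat_lit 960), (nat_lit 1000), (nat_lit 392))], ((nat_lit 100), (nat_lit 96), (nat_lit 39))⟩, (nat_lit 15303949), (nat_lit 289), (nat_lit 289), (nat_lit 0), (nat_lit 105667), [(nat_lit 6250000000), (nat_lit 7968000000), (nat_lit 9842000000)], [], [(nat_lit 16532278565), (nat_lit 19139832845), (nat_lit 12331426994), (nat_lit 14297664514), (nat_lit 12001279289), (nat_lit 9046817024), (nat_lit 12913975365), (nat_lit 6456214460)], (nat_lit 1271251), (nat_lit 1271251), (nat_lit 292188), (nat_lit 490000), (nat_lit 0), (nat_lit 780000), [(nat_lit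 1412501), (nat_lit 1271251), (nat_lit 1271251)], [(nat_lit 22), (nat_lit 58), (nat_lit 345), (nat_lit 125), (nat_lit 10)]⟩,
 ⟨⟨[(nat_lit 120), (nat_lit 140), (nat_lit 160)], [(nat_lit 0), (nat_lit 266), (nat_lit 862)], [((nat_lit 0), (nat_lit 0), (nat_lit 0)), ((nat_lit 960), (nat_lit 1000), (nat_lit 200)), ((nat_lit 874), (nat_lit 1000), (nat_lit 406))], ((nat_lit 100), (nat_lit 88), (nat_lit 39))⟩, (nat_lit 2052632), (nat_lit 300), (nat_lit 483), (nat_lit 66400000), (nat_lit 439560), [(nat_lit 7968000000), (nat_lit 9842000000), (nat_lit 11872000000)], [], [(nat_lit 41090008476), (nat_lit 41112350984), (nat_lit 46043653524), (nat_lit 45820028792), (nat_lit 31087949880), (nat_lit 30756201456), (nat_lit 34848202120), (nat_lit 34620824280)], (nat_lit 1271251), (nat_lit 1271251), (nat_lit 1271251), (nat_lit 1271251), (nat_lit 0), (nat_lit 780000), [(nat_lit 1695001), (nat_lit 1271251), (nat_lit 1271251)], [(nat_lit 27), (nat_lit 62), (nat_lit 401), (nat_lit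 175), (nat_lit 10)]⟩⟩)))) (.leaf ⟨(nat_lit 0), (nat_lit 0), (nat_lit 0), (nat_lit 1000), (nat_lit 0), (nat_lit 4667), (nat_lit 14234), (nat_lit 11922), (nat_lit 0), (nat_lit 17335559313731), (nat_lit 0), [], Pd.none, Pd.none, (nat_lit 0), (nat_lit 1), (nat_lit 0), (nat_lit 0), (nat_lit 0), (nat_lit 0), [⟨(nat_lit 0), (nat_lit 100), (nat_lit 76), (nat_lit 69), (nat_lit 974127192)⟩], [], [], [],
 ⟨⟨[(nat_lit 40), (nat_lit 60), (nat_lit 80)], [(nat_lit 0), (nat_lit 0), (nat_lit 615)], [((nat_lit 0), (nat_lit 0), (nat_lit 0)), ((nat_lit 0), (nat_lit 0), (nat_lit 0)), ((nat_lit 1000), (nat_lit 819), (nat_lit 426))], ((nat_lit 82), (nat_lit 100), (nat_lit 40))⟩, (nat_lit 6014311), (nat_lit 185), (nat_lit 185), (nat_lit 0), (nat_lit 194296), [(nat_lit 2032000009), (nat_lit 3282000006), (nat_lit 4688000000)], [], [(nat_lit 24687512042), (nat_lit 26036584975), (nat_lit 23470676730), (nat_lit 24708037008), (nat_lit 30117234877), (nat_lit 31549097360), (nat_lit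 27616480572), (nat_lit 28739693085)], (nat_lit 1271251), (nat_lit 1271251), (nat_lit 111251), (nat_lit 490000), (nat_lit 1271251), (nat_lit 1271251), [(nat_lit 490000), (nat_lit 780000), (nat_lit 1100000)], [(nat_lit 2), (nat_lit 44), (nat_lit 226), (nat_lit 20), (nat_lit 9)]⟩,
 ⟨⟨[(nat_lit 120), (nat_lit 140), (nat_lit 160)], [(nat_lit 0), (nat_lit 266), (nat_lit 862)], [((nat_lit 0), (nat_lit 0), (nat_lit 0)), ((nat_lit 960), (nat_lit 1000), (nat_lit 200)), ((nat_lit 874), (nat_lit 1000), (nat_lit 406))], ((nat_lit 100), (nat_lit 88), (nat_lit 39))⟩, (nat_lit 18709849), (nat_lit 483), (nat_lit 483), (nat_lit 0), (nat_lit 404324), [(nat_lit 7968000000), (nat_lit 9842000000), (nat_lit 11872000000)], [], [(nat_lit 32440915135), (nat_lit 18910663153), (nat_lit 33602110831), (nat_lit 13104419668), (nat_lit 58102374242), (nat_lit 37555629048), (nat_lit 60635078112), (nat_lit 40509785644)], (nat_lit 1271251), (nat_lit 1271251), (nat_lit 111251), (nat_lit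 490000), (nat_lit 780000), (nat_lit 2253751), [(nat_lit 1695001), (nat_lit 1271251), (nat_lit 1271251)], [(nat_lit 27), (nat_lit 62), (nat_lit 401), (nat_lit 175), (nat_lit 11)]⟩,
 ⟨⟨[(nat_lit 120), (nat_lit 140), (nat_lit 160)], [(nat_lit 0), (nat_lit 266), (nat_lit 862)], [((nat_lit 0), (nat_lit 0), (nat_lit 0)), ((nat_lit 960), (nat_lit 1000), (nat_lit 200)), ((nat_lit 874), (nat_lit 1000), (nat_lit 406))], ((nat_lit 100), (nat_lit 88), (nat_lit 39))⟩, (nat_lit 8586197), (nat_lit 300), (nat_lit 677), (nat_lit 66400000), (nat_lit 1072160), [(nat_lit 7968000000), (nat_lit 9842000000), (nat_lit 11872000000)], [], [(nat_lit 35145794060), (nat_lit 34892055672), (nat_lit 37045520845), (nat_lit 36686922860), (nat_lit 32725993925), (nat_lit 32519644504), (nat_lit 35165126240), (nat_lit 34816266453)], (nat_lit 1271251), (nat_lit 1271251), (nat_lit 1271251), (nat_lit 1271251), (nat_lit 780000), (nat_lit 2253751), [(nat_lit 1695001), (nat_lit 1271251), (nat_lit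 1271251)], [(nat_lit 27), (nat_lit 62), (nat_lit 456), (nat_lit 225), (nat_lit 11)]⟩⟩))) (.ord (.trZ (nat_lit 0) (nat_lit 1) (nat_lit 3) (nat_lit 100) (nat_lit 80) (nat_lit 60) (nat_lit 40) (.leaf ⟨(nat_lit 613), (nat_lit 0), (nat_lit 0), (nat_lit 387), (nat_lit 0), (nat_lit 3710), (nat_lit 7176), (nat_lit 4215), (nat_lit 0), (nat_lit 788322463309), (nat_lit 2452000), [((nat_lit 340), [((nat_lit 37), (nat_lit 5), (nat_lit 613))])], ⟨(nat_lit 5), false, false, false, (nat_lit 116), (nat_lit 3872), (nat_lit 4473), [(nat_lit 1228056), (nat_lit 1241882), (nat_lit 1271153), (nat_lit 1285433), (nat_lit 1296041), (nat_lit 1306411), (nat_lit 1339140), (nat_lit 1349963)]⟩, ⟨(nat_lit 7), false, true, true, (nat_lit 290), (nat_lit 3872), (nat_lit 4473), [(nat_lit 1635955), (nat_lit 1629042), (nat_lit 1657518), (nat_lit 1650831), (nat_lit 1805900), (nat_lit 1790346), (nat_lit 1827467), (nat_lit 1812139)]⟩, (nat_lit 4611721), (nat_lit 40119734), (nat_lit 5079431),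 (nat_lit 21800835), (nat_lit 0), (nat_lit 0), [⟨(nat_lit 0), (nat_lit 100), (nat_lit 76), (nat_lit 73), (nat_lit 564121638)⟩], [], [], [],
 ⟨⟨[(nat_lit 40), (nat_lit 60), (nat_lit 80)], [(nat_lit 0), (nat_lit 0), (nat_lit 615)], [((nat_lit 0), (nat_lit 0), (nat_lit 0)), ((nat_lit 0), (nat_lit 0), (nat_lit 0)), ((nat_lit 1000), (nat_lit 819), (nat_lit 426))], ((nat_lit 82), (nat_lit 100), (nat_lit 40))⟩, (nat_lit 0), (nat_lit 185), (nat_lit 185), (nat_lit 0), (nat_lit 214173), [(nat_lit 1693065479), (nat_lit 1783760322), (nat_lit 0)], [(nat_lit 0), (nat_lit 0), (nat_lit 1199006800)], [(nat_lit 22777335932), (nat_lit 23919548342), (nat_lit 22263378602), (nat_lit 23369788742), (nat_lit 28782678420), (nat_lit 29973471389), (nat_lit 27361977080), (nat_lit 28530611093)], (nat_lit 1271251), (nat_lit 1271251), (nat_lit 230000), (nat_lit 490000), (nat_lit 1271251), (nat_lit 1271251), [(nat_lit 490000), (nat_lit 780000), (nat_lit 1100000)], [(nat_lit 2), (nat_lit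 44), (nat_lit 226), (nat_lit 20), (nat_lit 9)]⟩,
 ⟨⟨[(nat_lit 100), (nat_lit 120), (nat_lit 140)], [(nat_lit 0), (nat_lit 0), (nat_lit 533)], [((nat_lit 0), (nat_lit 0), (nat_lit 0)), ((nat_lit 0), (nat_lit 0), (nat_lit 0)), ((nat_lit 924), (nat_lit 1000), (nat_lit 383))], ((nat_lit 100), (nat_lit 92), (nat_lit 39))⟩, (nat_lit 4889175), (nat_lit 467), (nat_lit 467), (nat_lit 0), (nat_lit 410131), [(nat_lit 2418750000), (nat_lit 3083616000), (nat_lit 3808854000)], [], [(nat_lit 11441096904), (nat_lit 10802950485), (nat_lit 11995399536), (nat_lit 7544213541), (nat_lit 23547044898), (nat_lit 16960361340), (nat_lit 24825881340), (nat_lit 18326043528)], (nat_lit 1271251), (nat_lit 1271251), (nat_lit 230000), (nat_lit 490000), (nat_lit 0), (nat_lit 2118750), [(nat_lit 1412501), (nat_lit 1271251), (nat_lit 1271251)], [(nat_lit 22), (nat_lit 58), (nat_lit 401), (nat_lit 175), (nat_lit 12)]⟩,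
 ⟨⟨[(nat_lit 100), (nat_lit 120), (nat_lit 140)], [(nat_lit 0), (nat_lit 0), (nat_lit 533)], [((nat_lit 0), (nat_lit 0), (nat_lit 0)), ((nat_lit 0), (nat_lit 0), (nat_lit 0)), ((nat_lit 924), (nat_lit 1000), (nat_lit 383))], ((nat_lit 100), (nat_lit 92), (nat_lit 39))⟩, (nat_lit 628808), (nat_lit 300), (nat_lit 608), (nat_lit 25696800), (nat_lit 894000), [(nat_lit 2418750000), (nat_lit 3083616000), (nat_lit 3808854000)], [], [(nat_lit 14971571550), (nat_lit 14906788965), (nat_lit 16236116504), (nat_lit 16214804444), (nat_lit 11556757373), (nat_lit 11480719212), (nat_lit 13243512657), (nat_lit 13324511755)], (nat_lit 1271251), (nat_lit 1271251), (nat_lit 1271251), (nat_lit 1271251), (nat_lit 0), (nat_lit 2118750), [(nat_lit 1412501), (nat_lit 1271251), (nat_lit 1271251)], [(nat_lit 22), (nat_lit 58), (nat_lit 373), (nat_lit 150), (nat_lit 10)]⟩⟩)))) (.spl (nat_lit 1) (nat_lit 220) (.leaf ⟨(nat_lit 95), (nat_lit 0), (nat_lit 826), (nat_lit 79), (nat_lit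 12329), (nat_lit 5041), (nat_lit 922), (nat_lit 10399), (nat_lit 0), (nat_lit 37930), (nat_lit 380000), [((nat_lit 340), [((nat_lit 37), (nat_lit 5), (nat_lit 95))])], ⟨(nat_lit 4), false, false, false, (nat_lit 101), (nat_lit 3872), (nat_lit 4473), [(nat_lit 1172511), (nat_lit 1187839), (nat_lit 1215612), (nat_lit 1231393), (nat_lit 1274489), (nat_lit 1284632), (nat_lit 1317591), (nat_lit 1328187)]⟩, ⟨(nat_lit 7), false, true, true, (nat_lit 286), (nat_lit 3872), (nat_lit 4473), [(nat_lit 1614388), (nat_lit 1607248), (nat_lit 1657518), (nat_lit 1650831), (nat_lit 1784334), (nat_lit 1768552), (nat_lit 1827467), (nat_lit 1812139)]⟩, (nat_lit 4424711), (nat_lit 41195042), (nat_lit 4160074), (nat_lit 21644884), (nat_lit 0), (nat_lit 4), [⟨(nat_lit 0), (nat_lit 100), (nat_lit 72), (nat_lit 77), (nat_lit 485620229)⟩], [⟨(nat_lit 1), (nat_lit 65), (nat_lit 76), (nat_lit 100), (nat_lit 91257429)⟩], [], [],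
 ⟨⟨[(nat_lit 40), (nat_lit 80), (nat_lit 100)], [(nat_lit 0), (nat_lit 0), (nat_lit 1280)], [((nat_lit 0), (nat_lit 0), (nat_lit 0)), ((nat_lit 0), (nat_lit 0), (nat_lit 0)), ((nat_lit 1000), (nat_lit 800), (nat_lit 600))], ((nat_lit 80), (nat_lit 100), (nat_lit 51))⟩, (nat_lit 1108904), (nat_lit 169), (nat_lit 169), (nat_lit 0), (nat_lit 44738), [(nat_lit 2212506531), (nat_lit 3777227832), (nat_lit 4514839168)], [(nat_lit 0), (nat_lit 0), (nat_lit 0)], [(nat_lit 26194076177), (nat_lit 27475827178), (nat_lit 24430264083), (nat_lit 25581782918), (nat_lit 32609770564), (nat_lit 34002938075), (nat_lit 29772063887), (nat_lit 30782298570)], (nat_lit 1271251), (nat_lit 1271251), (nat_lit 111251), (nat_lit 490000), (nat_lit 1271251), (nat_lit 1271251), [(nat_lit 490000), (nat_lit 1100000), (nat_lit 1442501)], [(nat_lit 3), (nat_lit 50), (nat_lit 226), (nat_lit 20), (nat_lit 7)]⟩,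
 ⟨⟨[(nat_lit 120), (nat_lit 140), (nat_lit 160)], [(nat_lit 0), (nat_lit 266), (nat_lit 862)], [((nat_lit 0), (nat_lit 0), (nat_lit 0)), ((nat_lit 960), (nat_lit 1000), (nat_lit 200)), ((nat_lit 874), (nat_lit 1000), (nat_lit 406))], ((nat_lit 100), (nat_lit 81), (nat_lit 51))⟩, (nat_lit 59837), (nat_lit 414), (nat_lit 414), (nat_lit 0), (nat_lit 93584), [(nat_lit 629472000), (nat_lit 777518000), (nat_lit 937888000)], [], [(nat_lit 5245669346), (nat_lit 4255324713), (nat_lit 3760152396), (nat_lit 3029508512), (nat_lit 3822201114), (nat_lit 3061280316), (nat_lit 4007807300), (nat_lit 3138737015)], (nat_lit 1271251), (nat_lit 1271251), (nat_lit 111251), (nat_lit 490000), (nat_lit 0), (nat_lit 2118750), [(nat_lit 1695001), (nat_lit 1271251), (nat_lit 1271251)], [(nat_lit 27), (nat_lit 62), (nat_lit 373), (nat_lit 150), (nat_lit 10)]⟩,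
 ⟨⟨[(nat_lit 120), (nat_lit 140), (nat_lit 160)], [(nat_lit 0), (nat_lit 266), (nat_lit 862)], [((nat_lit 0), (nat_lit 0), (nat_lit 0)), ((nat_lit 960), (nat_lit 1000), (nat_lit 200)), ((nat_lit 874), (nat_lit 1000), (nat_lit 406))], ((nat_lit 100), (nat_lit 81), (nat_lit 51))⟩, (nat_lit 1012043), (nat_lit 300), (nat_lit 360), (nat_lit 61698619), (nat_lit 168731), [(nat_lit 7211040000), (nat_lit 8907010000), (nat_lit 10744160000)], [], [(nat_lit 38738802613), (nat_lit 38842540942), (nat_lit 44017712674), (nat_lit 43676084864), (nat_lit 33451504688), (nat_lit 30492825736), (nat_lit 33720604460), (nat_lit 33286670674)], (nat_lit 1271251), (nat_lit 1271251), (nat_lit 1271251), (nat_lit 1271251), (nat_lit 0), (nat_lit 2118750), [(nat_lit 1695001), (nat_lit 1271251), (nat_lit 1271251)], [(nat_lit 27), (nat_lit 62), (nat_lit 456), (nat_lit 225), (nat_lit 11)]⟩⟩) (.trZ (nat_lit 0) (nat_lit 1) (nat_lit 3) (nat_lit 100) (nat_lit 80) (nat_lit 68) (nat_lit 50)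 (.leaf ⟨(nat_lit 0), (nat_lit 0), (nat_lit 0), (nat_lit 1000), (nat_lit 40623), (nat_lit 7040), (nat_lit 21253), (nat_lit 11432), (nat_lit 0), (nat_lit 0), (nat_lit 0), [], Pd.none, Pd.none, (nat_lit 0), (nat_lit 1), (nat_lit 0), (nat_lit 0), (nat_lit 0), (nat_lit 0), [⟨(nat_lit 0), (nat_lit 100), (nat_lit 77), (nat_lit 77), (nat_lit 3128195045)⟩], [], [⟨(nat_lit 0), (nat_lit 100), (nat_lit 99), (nat_lit 15), (nat_lit 172657184)⟩], [],
 ⟨⟨[(nat_lit 40), (nat_lit 80), (nat_lit 100)], [(nat_lit 0), (nat_lit 0), (nat_lit 1280)], [((nat_lit 0), (nat_lit 0), (nat_lit 0)), ((nat_lit 0), (nat_lit 0), (nat_lit 0)), ((nat_lit 1000), (nat_lit 800), (nat_lit 600))], ((nat_lit 80), (nat_lit 100), (nat_lit 51))⟩, (nat_lit 1043846), (nat_lit 156), (nat_lit 156), (nat_lit 0), (nat_lit 72196), [(nat_lit 2759620361), (nat_lit 4688000947), (nat_lit 6250000000)], [], [(nat_lit 25567612030), (nat_lit 27846764755), (nat_lit 24098874627), (nat_lit 25575890800), (nat_lit 34911016415),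 (nat_lit 36567275772), (nat_lit 32531295920), (nat_lit 34163345220)], (nat_lit 1271251), (nat_lit 1271251), (nat_lit 292188), (nat_lit 490000), (nat_lit 1271251), (nat_lit 1271251), [(nat_lit 490000), (nat_lit 1100000), (nat_lit 1442501)], [(nat_lit 3), (nat_lit 50), (nat_lit 226), (nat_lit 20), (nat_lit 7)]⟩,
 ⟨⟨[(nat_lit 100), (nat_lit 140), (nat_lit 160)], [(nat_lit 0), (nat_lit 508), (nat_lit 1689)], [((nat_lit 0), (nat_lit 0), (nat_lit 0)), ((nat_lit 1000), (nat_lit 1000), (nat_lit 198)), ((nat_lit 811), (nat_lit 1000), (nat_lit 671))], ((nat_lit 100), (nat_lit 91), (nat_lit 51))⟩, (nat_lit 10742981), (nat_lit 390), (nat_lit 390), (nat_lit 0), (nat_lit 126707), [(nat_lit 6250000000), (nat_lit 9842000000), (nat_lit 11872000000)], [], [(nat_lit 26440475358), (nat_lit 28243689252), (nat_lit 18891726217), (nat_lit 20934326176), (nat_lit 53621524655), (nat_lit 43899858511), (nat_lit 56694893893), (nat_lit 47069681168)], (nat_lit 1271251), (nat_lit 1271251),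 (nat_lit 292188), (nat_lit 490000), (nat_lit 0), (nat_lit 2118750), [(nat_lit 1412501), (nat_lit 1271251), (nat_lit 1271251)], [(nat_lit 23), (nat_lit 62), (nat_lit 401), (nat_lit 175), (nat_lit 11)]⟩,
 ⟨⟨[(nat_lit 120), (nat_lit 140), (nat_lit 160)], [(nat_lit 0), (nat_lit 266), (nat_lit 862)], [((nat_lit 0), (nat_lit 0), (nat_lit 0)), ((nat_lit 960), (nat_lit 1000), (nat_lit 200)), ((nat_lit 874), (nat_lit 1000), (nat_lit 406))], ((nat_lit 100), (nat_lit 81), (nat_lit 51))⟩, (nat_lit 2052629), (nat_lit 300), (nat_lit 415), (nat_lit 66400005), (nat_lit 307763), [(nat_lit 7968000000), (nat_lit 9842000000), (nat_lit 11872000000)], [], [(nat_lit 42219872680), (nat_lit 42388137016), (nat_lit 48086130946), (nat_lit 47714608390), (nat_lit 37010209289), (nat_lit 33236008823), (nat_lit 36791715113), (nat_lit 36078302670)], (nat_lit 1271251), (nat_lit 1271251), (nat_lit 1271251), (nat_lit 1271251), (nat_lit 0), (nat_lit 2118750), [(nat_lit 1695001), (nat_lit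 1271251), (nat_lit 1271251)], [(nat_lit 27), (nat_lit 62), (nat_lit 456), (nat_lit 225), (nat_lit 11)]⟩⟩)))))
noncomputable def c10_20 : Tr Lf :=
 (.spl (nat_lit 6) (nat_lit 16) (.spl (nat_lit 5) (nat_lit 120) (.spl (nat_lit 0) (nat_lit 330) (.leaf ⟨(nat_lit 838), (nat_lit 0), (nat_lit 32), (nat_lit 130), (nat_lit 1343), (nat_lit 3423), (nat_lit 1594), (nat_lit 1802), (nat_lit 0), (nat_lit 81343), (nat_lit 772800), [((nat_lit 330), [((nat_lit 37), (nat_lit 2), (nat_lit 163)), ((nat_lit 18), (nat_lit 2), (nat_lit 675))])], ⟨(nat_lit 4), false, false, false, (nat_lit 137), (nat_lit 4183), (nat_lit 4473), [(nat_lit 1274498), (nat_lit 1279565), (nat_lit 1339187), (nat_lit 1344555), (nat_lit 1342476), (nat_lit 1345821), (nat_lit 1407167), (nat_lit 1410812)]⟩, ⟨(nat_lit 7), false, true, true, (nat_lit 287), (nat_lit 4183), (nat_lit 4473), [(nat_lit 1614388), (nat_lit 1610843), (nat_lit 1657520), (nat_lit 1654175), (nat_lit 1784334), (nat_lit 1776482), (nat_lit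 1827466), (nat_lit 1819815)]⟩, (nat_lit 4822832), (nat_lit 39385948), (nat_lit 6503570), (nat_lit 21110482), (nat_lit 0), (nat_lit 4), [], [⟨(nat_lit 1), (nat_lit 63), (nat_lit 78), (nat_lit 100), (nat_lit 54551694)⟩], [], [⟨(nat_lit 0), (nat_lit 88), (nat_lit 100), (nat_lit 21), (nat_lit 207517578)⟩],
 ⟨⟨[(nat_lit 40), (nat_lit 60), (nat_lit 80)], [(nat_lit 0), (nat_lit 0), (nat_lit 615)], [((nat_lit 0), (nat_lit 0), (nat_lit 0)), ((nat_lit 0), (nat_lit 0), (nat_lit 0)), ((nat_lit 1000), (nat_lit 819), (nat_lit 426))], ((nat_lit 82), (nat_lit 100), (nat_lit 40))⟩, (nat_lit 348), (nat_lit 137), (nat_lit 137), (nat_lit 0), (nat_lit 171865), [(nat_lit 1476291597), (nat_lit 1838146424), (nat_lit 1500886400)], [(nat_lit 0), (nat_lit 0), (nat_lit 0)], [(nat_lit 22299431817), (nat_lit 22838140260), (nat_lit 22674193852), (nat_lit 23188419359), (nat_lit 26954023196), (nat_lit 27480800213), (nat_lit 27136589964), (nat_lit 27568291354)], (nat_lit 1271251), (nat_lit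 1271251), (nat_lit 490000), (nat_lit 780000), (nat_lit 1271251), (nat_lit 1271251), [(nat_lit 490000), (nat_lit 780000), (nat_lit 1100000)], [(nat_lit 2), (nat_lit 44), (nat_lit 238), (nat_lit 30), (nat_lit 9)]⟩,
 ⟨⟨[(nat_lit 120), (nat_lit 140), (nat_lit 160)], [(nat_lit 0), (nat_lit 266), (nat_lit 862)], [((nat_lit 0), (nat_lit 0), (nat_lit 0)), ((nat_lit 960), (nat_lit 1000), (nat_lit 200)), ((nat_lit 874), (nat_lit 1000), (nat_lit 406))], ((nat_lit 100), (nat_lit 88), (nat_lit 39))⟩, (nat_lit 1229135), (nat_lit 366), (nat_lit 366), (nat_lit 0), (nat_lit 146703), [(nat_lit 1035840000), (nat_lit 1279460000), (nat_lit 1543360000)], [], [(nat_lit 6264311172), (nat_lit 3754957144), (nat_lit 4603693927), (nat_lit 3611033764), (nat_lit 4442835831), (nat_lit 2725365448), (nat_lit 4853468989), (nat_lit 2587273264)], (nat_lit 1271251), (nat_lit 1271251), (nat_lit 490000), (nat_lit 780000), (nat_lit 0), (nat_lit 780000), [(nat_lit 1695001), (nat_lit 1271251),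 (nat_lit 1271251)], [(nat_lit 27), (nat_lit 62), (nat_lit 345), (nat_lit 125), (nat_lit 9)]⟩,
 ⟨⟨[(nat_lit 120), (nat_lit 140), (nat_lit 160)], [(nat_lit 0), (nat_lit 266), (nat_lit 862)], [((nat_lit 0), (nat_lit 0), (nat_lit 0)), ((nat_lit 960), (nat_lit 1000), (nat_lit 200)), ((nat_lit 874), (nat_lit 1000), (nat_lit 406))], ((nat_lit 100), (nat_lit 88), (nat_lit 39))⟩, (nat_lit 332526), (nat_lit 300), (nat_lit 520), (nat_lit 10756801), (nat_lit 527986), [(nat_lit 1290816000), (nat_lit 1594404000), (nat_lit 1923264000)], [], [(nat_lit 7330074077), (nat_lit 7265093391), (nat_lit 7803478795), (nat_lit 7748380912), (nat_lit 6035821826), (nat_lit 5966767942), (nat_lit 6442409669), (nat_lit 6325915995)], (nat_lit 1271251), (nat_lit 1271251), (nat_lit 1271251), (nat_lit 1271251), (nat_lit 0), (nat_lit 780000), [(nat_lit 1695001), (nat_lit 1271251), (nat_lit 1271251)], [(nat_lit 27), (nat_lit 62), (nat_lit 428), (nat_lit 200), (nat_lit 11)]⟩⟩) (.trX (nat_lit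 4) (nat_lit 0) (nat_lit 2) (nat_lit 76) (nat_lit 57) (nat_lit 100) (nat_lit 370) (.leaf ⟨(nat_lit 882), (nat_lit 0), (nat_lit 0), (nat_lit 118), (nat_lit 0), (nat_lit 3243), (nat_lit 1349), (nat_lit 1304), (nat_lit 0), (nat_lit 4687301), (nat_lit 319650), [((nat_lit 340), [((nat_lit 18), (nat_lit 0), (nat_lit 221)), ((nat_lit 18), (nat_lit 1), (nat_lit 661))])], ⟨(nat_lit 4), false, false, false, (nat_lit 139), (nat_lit 3872), (nat_lit 4184), [(nat_lit 1279562), (nat_lit 1284637), (nat_lit 1344547), (nat_lit 1350002), (nat_lit 1345820), (nat_lit 1349161), (nat_lit 1410806), (nat_lit 1414527)]⟩, ⟨(nat_lit 7), false, true, true, (nat_lit 282), (nat_lit 3872), (nat_lit 4184), [(nat_lit 1610843), (nat_lit 1607248), (nat_lit 1654176), (nat_lit 1650835), (nat_lit 1759918), (nat_lit 1752422), (nat_lit 1803252), (nat_lit 1796008)]⟩, (nat_lit 4822170), (nat_lit 39758367), (nat_lit 6673002), (nat_lit 20568631), (nat_lit 0), (nat_lit 0), [], [⟨(nat_lit 1), (nat_lit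 67), (nat_lit 74), (nat_lit 100), (nat_lit 126406375)⟩], [], [⟨(nat_lit 0), (nat_lit 90), (nat_lit 100), (nat_lit 17), (nat_lit 175870933)⟩],
 ⟨⟨[(nat_lit 40), (nat_lit 60), (nat_lit 80)], [(nat_lit 0), (nat_lit 197), (nat_lit 800)], [((nat_lit 0), (nat_lit 0), (nat_lit 0)), ((nat_lit 1000), (nat_lit 908), (nat_lit 154)), ((nat_lit 1000), (nat_lit 781), (nat_lit 471))], ((nat_lit 80), (nat_lit 100), (nat_lit 41))⟩, (nat_lit 1632254), (nat_lit 152), (nat_lit 152), (nat_lit 0), (nat_lit 211919), [(nat_lit 1426105101), (nat_lit 1888744429), (nat_lit 2300627971)], [(nat_lit 0), (nat_lit 0), (nat_lit 0)], [(nat_lit 22366025927), (nat_lit 22920149455), (nat_lit 22768202285), (nat_lit 23297200076), (nat_lit 26554717646), (nat_lit 27122777037), (nat_lit 26770550920), (nat_lit 27204470436)], (nat_lit 1271251), (nat_lit 1271251), (nat_lit 490000), (nat_lit 780000), (nat_lit 1271251), (nat_lit 1271251), [(nat_lit 490000), (nat_lit 780000), (nat_lit 1100000)], [(nat_lit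 2), (nat_lit 44), (nat_lit 238), (nat_lit 30), (nat_lit 9)]⟩,
 ⟨⟨[(nat_lit 120), (nat_lit 140), (nat_lit 160)], [(nat_lit 0), (nat_lit 266), (nat_lit 862)], [((nat_lit 0), (nat_lit 0), (nat_lit 0)), ((nat_lit 960), (nat_lit 1000), (nat_lit 200)), ((nat_lit 874), (nat_lit 1000), (nat_lit 406))], ((nat_lit 100), (nat_lit 88), (nat_lit 39))⟩, (nat_lit 914504), (nat_lit 396), (nat_lit 396), (nat_lit 0), (nat_lit 204729), [(nat_lit 940224000), (nat_lit 1161356000), (nat_lit 1400896000)], [], [(nat_lit 5588289882), (nat_lit 3678355068), (nat_lit 4182911800), (nat_lit 3562899366), (nat_lit 4061183940), (nat_lit 2822541616), (nat_lit 4417960383), (nat_lit 2711509240)], (nat_lit 1271251), (nat_lit 1271251), (nat_lit 490000), (nat_lit 780000), (nat_lit 0), (nat_lit 780000), [(nat_lit 1695001), (nat_lit 1271251), (nat_lit 1271251)], [(nat_lit 27), (nat_lit 62), (nat_lit 345), (nat_lit 125), (nat_lit 9)]⟩,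
 ⟨⟨[(nat_lit 120), (nat_lit 140), (nat_lit 160)], [(nat_lit 0), (nat_lit 266), (nat_lit 862)], [((nat_lit 0), (nat_lit 0), (nat_lit 0)), ((nat_lit 960), (nat_lit 1000), (nat_lit 200)), ((nat_lit 874), (nat_lit 1000), (nat_lit 406))], ((nat_lit 100), (nat_lit 88), (nat_lit 39))⟩, (nat_lit 242211), (nat_lit 300), (nat_lit 603), (nat_lit 7835200), (nat_lit 734170), [(nat_lit 940224000), (nat_lit 1161356000), (nat_lit 1400896000)], [], [(nat_lit 5354460229), (nat_lit 5308002527), (nat_lit 5655859164), (nat_lit 5575575271), (nat_lit 4419126874), (nat_lit 4369699790), (nat_lit 4677935238), (nat_lit 4597760369)], (nat_lit 1271251), (nat_lit 1271251), (nat_lit 1271251), (nat_lit 1271251), (nat_lit 0), (nat_lit 780000), [(nat_lit 1695001), (nat_lit 1271251), (nat_lit 1271251)], [(nat_lit 27), (nat_lit 62), (nat_lit 428), (nat_lit 200), (nat_lit 11)]⟩⟩))) (.leaf ⟨(nat_lit 0), (nat_lit 0), (nat_lit 0), (nat_lit 1000), (nat_lit 0), (nat_lit 5148), (nat_lit 11084),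 (nat_lit 11922), (nat_lit 0), (nat_lit 2316889315856), (nat_lit 0), [], Pd.none, Pd.none, (nat_lit 0), (nat_lit 1), (nat_lit 0), (nat_lit 0), (nat_lit 0), (nat_lit 0), [], [], [], [],
 ⟨⟨[(nat_lit 40), (nat_lit 60), (nat_lit 80)], [(nat_lit 0), (nat_lit 0), (nat_lit 615)], [((nat_lit 0), (nat_lit 0), (nat_lit 0)), ((nat_lit 0), (nat_lit 0), (nat_lit 0)), ((nat_lit 1000), (nat_lit 819), (nat_lit 426))], ((nat_lit 82), (nat_lit 100), (nat_lit 40))⟩, (nat_lit 7693843), (nat_lit 161), (nat_lit 161), (nat_lit 0), (nat_lit 214201), [(nat_lit 2159224789), (nat_lit 3282000066), (nat_lit 4688000000)], [], [(nat_lit 22291409884), (nat_lit 23776706868), (nat_lit 22455066824), (nat_lit 23865432175), (nat_lit 29594253504), (nat_lit 30963004989), (nat_lit 29233969862), (nat_lit 30539905840)], (nat_lit 1271251), (nat_lit 1271251), (nat_lit 490000), (nat_lit 780000), (nat_lit 1271251), (nat_lit 1271251), [(nat_lit 490000), (nat_lit 780000), (nat_lit 1100000)], [(nat_lit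 2), (nat_lit 44), (nat_lit 238), (nat_lit 30), (nat_lit 9)]⟩,
 ⟨⟨[(nat_lit 120), (nat_lit 140), (nat_lit 160)], [(nat_lit 0), (nat_lit 266), (nat_lit 862)], [((nat_lit 0), (nat_lit 0), (nat_lit 0)), ((nat_lit 960), (nat_lit 1000), (nat_lit 200)), ((nat_lit 874), (nat_lit 1000), (nat_lit 406))], ((nat_lit 100), (nat_lit 88), (nat_lit 39))⟩, (nat_lit 17978944), (nat_lit 427), (nat_lit 427), (nat_lit 0), (nat_lit 483636), [(nat_lit 7968000000), (nat_lit 9842000000), (nat_lit 11872000000)], [], [(nat_lit 34518063106), (nat_lit 21395843368), (nat_lit 37484832694), (nat_lit 21026406148), (nat_lit 62253566824), (nat_lit 46791785848), (nat_lit 66030223510), (nat_lit 50769654542)], (nat_lit 1271251), (nat_lit 1271251), (nat_lit 490000), (nat_lit 780000), (nat_lit 780000), (nat_lit 2581251), [(nat_lit 1695001), (nat_lit 1271251), (nat_lit 1271251)], [(nat_lit 27), (nat_lit 62), (nat_lit 401), (nat_lit 175), (nat_lit 10)]⟩,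
 ⟨⟨[(nat_lit 120), (nat_lit 140), (nat_lit 160)], [(nat_lit 0), (nat_lit 266), (nat_lit 862)], [((nat_lit 0), (nat_lit 0), (nat_lit 0)), ((nat_lit 960), (nat_lit 1000), (nat_lit 200)), ((nat_lit 874), (nat_lit 1000), (nat_lit 406))], ((nat_lit 100), (nat_lit 88), (nat_lit 39))⟩, (nat_lit 9451648), (nat_lit 300), (nat_lit 682), (nat_lit 66400000), (nat_lit 1083096), [(nat_lit 7968000000), (nat_lit 9842000000), (nat_lit 11872000000)], [], [(nat_lit 35145794060), (nat_lit 34638317284), (nat_lit 38068885238), (nat_lit 37649832283), (nat_lit 34048543247), (nat_lit 33486584284), (nat_lit 38428926232), (nat_lit 38492113823)], (nat_lit 1271251), (nat_lit 1271251), (nat_lit 1271251), (nat_lit 1271251), (nat_lit 780000), (nat_lit 2581251), [(nat_lit 1695001), (nat_lit 1271251), (nat_lit 1271251)], [(nat_lit 27), (nat_lit 62), (nat_lit 483), (nat_lit 250), (nat_lit 12)]⟩⟩)) (.leaf ⟨(nat_lit 186), (nat_lit 0), (nat_lit 412), (nat_lit 402), (nat_lit 23213), (nat_lit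 4318), (nat_lit 4928), (nat_lit 9306), (nat_lit 0), (nat_lit 0), (nat_lit 744000), [((nat_lit 340), [((nat_lit 37), (nat_lit 5), (nat_lit 186))])], ⟨(nat_lit 4), false, false, false, (nat_lit 138), (nat_lit 3872), (nat_lit 4473), [(nat_lit 1274489), (nat_lit 1284632), (nat_lit 1339140), (nat_lit 1349963), (nat_lit 1342475), (nat_lit 1349162), (nat_lit 1407125), (nat_lit 1414492)]⟩, ⟨(nat_lit 7), false, true, true, (nat_lit 286), (nat_lit 3872), (nat_lit 4473), [(nat_lit 1614388), (nat_lit 1607248), (nat_lit 1657518), (nat_lit 1650831), (nat_lit 1784334), (nat_lit 1768552), (nat_lit 1827467), (nat_lit 1812139)]⟩, (nat_lit 4827881), (nat_lit 39437048), (nat_lit 6572873), (nat_lit 20990079), (nat_lit 0), (nat_lit 4), [], [], [], [],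
 ⟨⟨[(nat_lit 40), (nat_lit 80), (nat_lit 100)], [(nat_lit 0), (nat_lit 0), (nat_lit 1280)], [((nat_lit 0), (nat_lit 0), (nat_lit 0)), ((nat_lit 0), (nat_lit 0), (nat_lit 0)), ((nat_lit 1000), (nat_lit 800), (nat_lit 600))], ((nat_lit 80), (nat_lit 100), (nat_lit 51))⟩, (nat_lit 62818), (nat_lit 136), (nat_lit 136), (nat_lit 0), (nat_lit 72196), [(nat_lit 2081027655), (nat_lit 3215692236), (nat_lit 2797988800)], [(nat_lit 0), (nat_lit 0), (nat_lit 0)], [(nat_lit 22949411835), (nat_lit 24204647814), (nat_lit 23224996888), (nat_lit 24422554942), (nat_lit 28500625326), (nat_lit 29559050237), (nat_lit 28399647812), (nat_lit 29434452677)], (nat_lit 1271251), (nat_lit 1271251), (nat_lit 490000), (nat_lit 780000), (nat_lit 1271251), (nat_lit 1271251), [(nat_lit 490000), (nat_lit 1100000), (nat_lit 1442501)], [(nat_lit 3), (nat_lit 50), (nat_lit 238), (nat_lit 30), (nat_lit 8)]⟩,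
 ⟨⟨[(nat_lit 120), (nat_lit 140), (nat_lit 160)], [(nat_lit 0), (nat_lit 266), (nat_lit 862)], [((nat_lit 0), (nat_lit 0), (nat_lit 0)), ((nat_lit 960), (nat_lit 1000), (nat_lit 200)), ((nat_lit 874), (nat_lit 1000), (nat_lit 406))], ((nat_lit 100), (nat_lit 81), (nat_lit 51))⟩, (nat_lit 3800866), (nat_lit 361), (nat_lit 361), (nat_lit 0), (nat_lit 137689), [(nat_lit 3203136000), (nat_lit 3956484000), (nat_lit 4772544000)], [], [(nat_lit 19370040144), (nat_lit 11612342336), (nat_lit 14236086704), (nat_lit 11168498916), (nat_lit 21925717520), (nat_lit 15051334928), (nat_lit 23555415736), (nat_lit 16770492976)], (nat_lit 1271251), (nat_lit 1271251), (nat_lit 490000), (nat_lit 780000), (nat_lit 0), (nat_lit 2401251), [(nat_lit 1695001), (nat_lit 1271251), (nat_lit 1271251)], [(nat_lit 27), (nat_lit 62), (nat_lit 401), (nat_lit 175), (nat_lit 11)]⟩,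
 ⟨⟨[(nat_lit 120), (nat_lit 140), (nat_lit 160)], [(nat_lit 0), (nat_lit 266), (nat_lit 862)], [((nat_lit 0), (nat_lit 0), (nat_lit 0)), ((nat_lit 960), (nat_lit 1000), (nat_lit 200)), ((nat_lit 874), (nat_lit 1000), (nat_lit 406))], ((nat_lit 100), (nat_lit 81), (nat_lit 51))⟩, (nat_lit 1670842), (nat_lit 300), (nat_lit 414), (nat_lit 54049601), (nat_lit 305329), [(nat_lit 6485952000), (nat_lit 8011388000), (nat_lit 9663808000)], [], [(nat_lit 34366778832), (nat_lit 34503724608), (nat_lit 39142014358), (nat_lit 38839559161), (nat_lit 33343218739), (nat_lit 27997940216), (nat_lit 30951807219), (nat_lit 30888310385)], (nat_lit 1271251), (nat_lit 1271251), (nat_lit 1271251), (nat_lit 1271251), (nat_lit 0), (nat_lit 2401251), [(nat_lit 1695001), (nat_lit 1271251), (nat_lit 1271251)], [(nat_lit 27), (nat_lit 62), (nat_lit 483), (nat_lit 250), (nat_lit 12)]⟩⟩))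
noncomputable def c10_21 : Tr Lf :=
 (.ord (.trZ (nat_lit 0) (nat_lit 1) (nat_lit 3) (nat_lit 100) (nat_lit 80) (nat_lit 68) (nat_lit 50) (.spl (nat_lit 4) (nat_lit 280) (.leaf ⟨(nat_lit 788), (nat_lit 0), (nat_lit 0), (nat_lit 212), (nat_lit 4), (nat_lit 4809), (nat_lit 3422), (nat_lit 2633), (nat_lit 0), (nat_lit 10076926), (nat_lit 721200), [((nat_lit 340), [((nat_lit 37), (nat_lit 2), (nat_lit 167)), ((nat_lit 18), (nat_lit 2), (nat_lit 621))])], ⟨(nat_lit 5), false, false, false, (nat_lit 137), (nat_lit 3872), (nat_lit 4473), [(nat_lit 1266601), (nat_lit 1279790), (nat_lit 1288150), (nat_lit 1301566), (nat_lit 1385576), (nat_lit 1392716), (nat_lit 1407125), (nat_lit 1414492)]⟩, ⟨(nat_lit 5), false, true, true, (nat_lit 239), (nat_lit 3872), (nat_lit 4473), [(nat_lit 1521548), (nat_lit 1521775), (nat_lit 1543097), (nat_lit 1543551), (nat_lit 1657518), (nat_lit 1650831), (nat_lit 1679069), (nat_lit 1672609)]⟩, (nat_lit 4603304), (nat_lit 43470986),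 (nat_lit 6876743), (nat_lit 16652271), (nat_lit 0), (nat_lit 0), [⟨(nat_lit 0), (nat_lit 100), (nat_lit 77), (nat_lit 77), (nat_lit 352503588)⟩], [], [⟨(nat_lit 0), (nat_lit 100), (nat_lit 100), (nat_lit 30), (nat_lit 15180816)⟩], [],
 ⟨⟨[(nat_lit 40), (nat_lit 80), (nat_lit 100)], [(nat_lit 0), (nat_lit 0), (nat_lit 1280)], [((nat_lit 0), (nat_lit 0), (nat_lit 0)), ((nat_lit 0), (nat_lit 0), (nat_lit 0)), ((nat_lit 1000), (nat_lit 800), (nat_lit 600))], ((nat_lit 80), (nat_lit 100), (nat_lit 57))⟩, (nat_lit 0), (nat_lit 173), (nat_lit 173), (nat_lit 0), (nat_lit 248239), [(nat_lit 1813218406), (nat_lit 1812330940), (nat_lit 1241622400)], [(nat_lit 0), (nat_lit 0), (nat_lit 0)], [(nat_lit 18698683864), (nat_lit 20855357155), (nat_lit 18150481711), (nat_lit 19636805506), (nat_lit 23065936491), (nat_lit 24866974644), (nat_lit 21760776767), (nat_lit 23440542973)], (nat_lit 1271251), (nat_lit 1271251), (nat_lit 292188), (nat_lit 780000), (nat_lit 1271251),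 (nat_lit 1271251), [(nat_lit 490000), (nat_lit 1100000), (nat_lit 1442501)], [(nat_lit 3), (nat_lit 50), (nat_lit 238), (nat_lit 30), (nat_lit 8)]⟩,
 ⟨⟨[(nat_lit 100), (nat_lit 140), (nat_lit 160)], [(nat_lit 0), (nat_lit 508), (nat_lit 1689)], [((nat_lit 0), (nat_lit 0), (nat_lit 0)), ((nat_lit 1000), (nat_lit 1000), (nat_lit 198)), ((nat_lit 811), (nat_lit 1000), (nat_lit 671))], ((nat_lit 100), (nat_lit 88), (nat_lit 58))⟩, (nat_lit 1867643), (nat_lit 566), (nat_lit 566), (nat_lit 0), (nat_lit 453230), [(nat_lit 1325000000), (nat_lit 2086504000), (nat_lit 2516864000)], [], [(nat_lit 5430599255), (nat_lit 5733043417), (nat_lit 5976190485), (nat_lit 4370307196), (nat_lit 13442825774), (nat_lit 11922505763), (nat_lit 15304532909), (nat_lit 13817312460)], (nat_lit 1271251), (nat_lit 1271251), (nat_lit 292188), (nat_lit 780000), (nat_lit 0), (nat_lit 2754376), [(nat_lit 1412501), (nat_lit 1271251), (nat_lit 1271251)], [(nat_lit 23), (nat_lit 62), (nat_lit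 428), (nat_lit 200), (nat_lit 11)]⟩,
 ⟨⟨[(nat_lit 100), (nat_lit 140), (nat_lit 160)], [(nat_lit 0), (nat_lit 508), (nat_lit 1689)], [((nat_lit 0), (nat_lit 0), (nat_lit 0)), ((nat_lit 1000), (nat_lit 1000), (nat_lit 198)), ((nat_lit 811), (nat_lit 1000), (nat_lit 671))], ((nat_lit 100), (nat_lit 88), (nat_lit 58))⟩, (nat_lit 455717), (nat_lit 300), (nat_lit 655), (nat_lit 13250000), (nat_lit 804707), [(nat_lit 1325000000), (nat_lit 2086504000), (nat_lit 2516864000)], [], [(nat_lit 8536786845), (nat_lit 8504818590), (nat_lit 8592677299), (nat_lit 8603521078), (nat_lit 9511514802), (nat_lit 8322783595), (nat_lit 7614668285), (nat_lit 7653986834)], (nat_lit 1271251), (nat_lit 1271251), (nat_lit 1271251), (nat_lit 1271251), (nat_lit 0), (nat_lit 2754376), [(nat_lit 1412501), (nat_lit 1271251), (nat_lit 1271251)], [(nat_lit 23), (nat_lit 62), (nat_lit 483), (nat_lit 250), (nat_lit 12)]⟩⟩) (.trX (nat_lit 5) (nat_lit 4) (nat_lit 3) (nat_lit 100) (nat_lit 80)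 (nat_lit 100) (nat_lit 340) (.leaf ⟨(nat_lit 136), (nat_lit 0), (nat_lit 0), (nat_lit 864), (nat_lit 0), (nat_lit 5336), (nat_lit 13602), (nat_lit 8386), (nat_lit 0), (nat_lit 668798), (nat_lit 544000), [((nat_lit 340), [((nat_lit 37), (nat_lit 5), (nat_lit 136))])], ⟨(nat_lit 5), false, false, false, (nat_lit 137), (nat_lit 3872), (nat_lit 4473), [(nat_lit 1266601), (nat_lit 1279790), (nat_lit 1288150), (nat_lit 1301566), (nat_lit 1385576), (nat_lit 1392716), (nat_lit 1407125), (nat_lit 1414492)]⟩, ⟨(nat_lit 7), false, true, true, (nat_lit 302), (nat_lit 3872), (nat_lit 4473), [(nat_lit 1657518), (nat_lit 1650831), (nat_lit 1679069), (nat_lit 1672609), (nat_lit 1844461), (nat_lit 1828269), (nat_lit 1866022), (nat_lit 1850057)]⟩, (nat_lit 4859886), (nat_lit 38153720), (nat_lit 6336815), (nat_lit 22509465), (nat_lit 0), (nat_lit 0), [⟨(nat_lit 0), (nat_lit 100), (nat_lit 77), (nat_lit 77), (nat_lit 711540859)⟩], [], [⟨(nat_lit 0), (nat_lit 100), (nat_lit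 100), (nat_lit 30), (nat_lit 158698196)⟩], [],
 ⟨⟨[(nat_lit 40), (nat_lit 80), (nat_lit 100)], [(nat_lit 0), (nat_lit 0), (nat_lit 1280)], [((nat_lit 0), (nat_lit 0), (nat_lit 0)), ((nat_lit 0), (nat_lit 0), (nat_lit 0)), ((nat_lit 1000), (nat_lit 800), (nat_lit 600))], ((nat_lit 80), (nat_lit 100), (nat_lit 57))⟩, (nat_lit 735517), (nat_lit 221), (nat_lit 221), (nat_lit 0), (nat_lit 248239), [(nat_lit 2183765555), (nat_lit 3453368884), (nat_lit 3725948800)], [(nat_lit 0), (nat_lit 0), (nat_lit 0)], [(nat_lit 24279720782), (nat_lit 25571446694), (nat_lit 23298809574), (nat_lit 24524258874), (nat_lit 32450683224), (nat_lit 33816011059), (nat_lit 30284622558), (nat_lit 31569689412)], (nat_lit 1271251), (nat_lit 1271251), (nat_lit 292188), (nat_lit 780000), (nat_lit 1271251), (nat_lit 1271251), [(nat_lit 490000), (nat_lit 1100000), (nat_lit 1442501)], [(nat_lit 3), (nat_lit 50), (nat_lit 238), (nat_lit 30), (nat_lit 8)]⟩,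
 ⟨⟨[(nat_lit 100), (nat_lit 140), (nat_lit 160)], [(nat_lit 0), (nat_lit 508), (nat_lit 1689)], [((nat_lit 0), (nat_lit 0), (nat_lit 0)), ((nat_lit 1000), (nat_lit 1000), (nat_lit 198)), ((nat_lit 811), (nat_lit 1000), (nat_lit 671))], ((nat_lit 100), (nat_lit 88), (nat_lit 58))⟩, (nat_lit 9752979), (nat_lit 566), (nat_lit 566), (nat_lit 0), (nat_lit 453230), [(nat_lit 5400000000), (nat_lit 8503488000), (nat_lit 10257408000)], [], [(nat_lit 20513543122), (nat_lit 22129334991), (nat_lit 24650023467), (nat_lit 17918971752), (nat_lit 49245803787), (nat_lit 43104596426), (nat_lit 56356323308), (nat_lit 50351125320)], (nat_lit 1271251), (nat_lit 1271251), (nat_lit 292188), (nat_lit 780000), (nat_lit 0), (nat_lit 2401251), [(nat_lit 1412501), (nat_lit 1271251), (nat_lit 1271251)], [(nat_lit 23), (nat_lit 62), (nat_lit 401), (nat_lit 175), (nat_lit 11)]⟩,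
 ⟨⟨[(nat_lit 100), (nat_lit 140), (nat_lit 160)], [(nat_lit 0), (nat_lit 508), (nat_lit 1689)], [((nat_lit 0), (nat_lit 0), (nat_lit 0)), ((nat_lit 1000), (nat_lit 1000), (nat_lit 198)), ((nat_lit 811), (nat_lit 1000), (nat_lit 671))], ((nat_lit 100), (nat_lit 88), (nat_lit 58))⟩, (nat_lit 1857260), (nat_lit 300), (nat_lit 620), (nat_lit 54000000), (nat_lit 804707), [(nat_lit 5400000000), (nat_lit 8503488000), (nat_lit 10257408000)], [], [(nat_lit 39437446214), (nat_lit 39326601604), (nat_lit 41893401170), (nat_lit 41644473380), (nat_lit 32498409886), (nat_lit 32229260676), (nat_lit 33658410864), (nat_lit 33387494497)], (nat_lit 1271251), (nat_lit 1271251), (nat_lit 1271251), (nat_lit 1271251), (nat_lit 0), (nat_lit 2401251), [(nat_lit 1412501), (nat_lit 1271251), (nat_lit 1271251)], [(nat_lit 23), (nat_lit 62), (nat_lit 483), (nat_lit 250), (nat_lit 12)]⟩⟩)))))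
noncomputable def c10_22 : Tr Lf :=
 (.spl (nat_lit 2) (nat_lit 220) (.trX (nat_lit 4) (nat_lit 0) (nat_lit 2) (nat_lit 80) (nat_lit 52) (nat_lit 100) (nat_lit 380) (.spl (nat_lit 6) (nat_lit 28) (.spl (nat_lit 5) (nat_lit 120) (.spl (nat_lit 0) (nat_lit 330) (.spl (nat_lit 6) (nat_lit 20) (.leaf ⟨(nat_lit 545), (nat_lit 0), (nat_lit 12), (nat_lit 443), (nat_lit 924), (nat_lit 5029), (nat_lit 5563), (nat_lit 5777), (nat_lit 0), (nat_lit 59467), (nat_lit 953000), [((nat_lit 330), [((nat_lit 18), (nat_lit 2), (nat_lit 409)), ((nat_lit 37), (nat_lit 5), (nat_lit 136))])], ⟨(nat_lit 4), false, false, false, (nat_lit 177), (nat_lit 4183), (nat_lit 4473), [(nat_lit 1342476), (nat_lit 1345821), (nat_lit 1407167), (nat_lit 1410812), (nat_lit 1478432), (nat_lit 1478332), (nat_lit 1543125), (nat_lit 1543325)]⟩, ⟨(nat_lit 5), false, true, true, (nat_lit 260), (nat_lit 4183), (nat_lit 4473), [(nat_lit 1478432), (nat_lit 1478332), (nat_lit 1521562), (nat_lit 1521662),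 (nat_lit 1784334), (nat_lit 1776482), (nat_lit 1827466), (nat_lit 1819815)]⟩, (nat_lit 5086954), (nat_lit 39384863), (nat_lit 9698128), (nat_lit 17917009), (nat_lit 0), (nat_lit 4), [], [], [], [],
 ⟨⟨[(nat_lit 40), (nat_lit 80), (nat_lit 100)], [(nat_lit 0), (nat_lit 0), (nat_lit 1280)], [((nat_lit 0), (nat_lit 0), (nat_lit 0)), ((nat_lit 0), (nat_lit 0), (nat_lit 0)), ((nat_lit 1000), (nat_lit 800), (nat_lit 600))], ((nat_lit 82), (nat_lit 100), (nat_lit 44))⟩, (nat_lit 0), (nat_lit 171), (nat_lit 171), (nat_lit 0), (nat_lit 257219), [(nat_lit 2153415433), (nat_lit 1922646198), (nat_lit 988430000)], [(nat_lit 0), (nat_lit 0), (nat_lit 0)], [(nat_lit 17814303292), (nat_lit 18713491175), (nat_lit 19373377689), (nat_lit 20276843795), (nat_lit 29076079889), (nat_lit 29721304042), (nat_lit 29379608451), (nat_lit 29954215463)], (nat_lit 1271251), (nat_lit 1271251), (nat_lit 780000), (nat_lit 1435001), (nat_lit 1271251), (nat_lit 1271251), [(nat_lit 490000),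 (nat_lit 1100000), (nat_lit 1442501)], [(nat_lit 3), (nat_lit 50), (nat_lit 260), (nat_lit 50), (nat_lit 9)]⟩,
 ⟨⟨[(nat_lit 120), (nat_lit 140), (nat_lit 160)], [(nat_lit 0), (nat_lit 266), (nat_lit 862)], [((nat_lit 0), (nat_lit 0), (nat_lit 0)), ((nat_lit 960), (nat_lit 1000), (nat_lit 200)), ((nat_lit 874), (nat_lit 1000), (nat_lit 406))], ((nat_lit 100), (nat_lit 86), (nat_lit 44))⟩, (nat_lit 3147993), (nat_lit 510), (nat_lit 510), (nat_lit 0), (nat_lit 421315), [(nat_lit 3529824000), (nat_lit 4360006000), (nat_lit 5259296000)], [], [(nat_lit 15682378737), (nat_lit 13366541450), (nat_lit 19065669265), (nat_lit 13085847970), (nat_lit 16522373182), (nat_lit 9659661630), (nat_lit 21320730721), (nat_lit 13289758619)], (nat_lit 1271251), (nat_lit 1271251), (nat_lit 780000), (nat_lit 1435001), (nat_lit 0), (nat_lit 780000), [(nat_lit 1695001), (nat_lit 1271251), (nat_lit 1271251)], [(nat_lit 27), (nat_lit 62), (nat_lit 373), (nat_lit 150), (nat_lit 10)]⟩,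
 ⟨⟨[(nat_lit 120), (nat_lit 140), (nat_lit 160)], [(nat_lit 0), (nat_lit 266), (nat_lit 862)], [((nat_lit 0), (nat_lit 0), (nat_lit 0)), ((nat_lit 960), (nat_lit 1000), (nat_lit 200)), ((nat_lit 874), (nat_lit 1000), (nat_lit 406))], ((nat_lit 100), (nat_lit 86), (nat_lit 44))⟩, (nat_lit 933947), (nat_lit 300), (nat_lit 528), (nat_lit 30212001), (nat_lit 529094), [(nat_lit 3625440000), (nat_lit 4478110000), (nat_lit 5401760000)], [], [(nat_lit 19097635065), (nat_lit 18949546687), (nat_lit 21723476835), (nat_lit 21639109234), (nat_lit 17849616818), (nat_lit 14764084524), (nat_lit 16884209239), (nat_lit 16658616317)], (nat_lit 1271251), (nat_lit 1271251), (nat_lit 1271251), (nat_lit 1271251), (nat_lit 0), (nat_lit 780000), [(nat_lit 1695001), (nat_lit 1271251), (nat_lit 1271251)], [(nat_lit 27), (nat_lit 62), (nat_lit 428), (nat_lit 200), (nat_lit 11)]⟩⟩) (.dle (nat_lit 0))) (.trX (nat_lit 4) (nat_lit 0) (nat_lit 2) (nat_lit 76) (nat_lit 57) (nat_lit 100)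 (nat_lit 370) (.leaf ⟨(nat_lit 844), (nat_lit 0), (nat_lit 0), (nat_lit 156), (nat_lit 0), (nat_lit 3697), (nat_lit 1920), (nat_lit 1804), (nat_lit 0), (nat_lit 226021), (nat_lit 562000), [((nat_lit 340), [((nat_lit 37), (nat_lit 2), (nat_lit 705)), ((nat_lit 18), (nat_lit 2), (nat_lit 139))])], ⟨(nat_lit 4), false, false, false, (nat_lit 178), (nat_lit 3872), (nat_lit 4184), [(nat_lit 1345820), (nat_lit 1349161), (nat_lit 1410806), (nat_lit 1414527), (nat_lit 1478332), (nat_lit 1478205), (nat_lit 1543323), (nat_lit 1543576)]⟩, ⟨(nat_lit 5), false, true, true, (nat_lit 256), (nat_lit 3872), (nat_lit 4184), [(nat_lit 1478332), (nat_lit 1478205), (nat_lit 1521662), (nat_lit 1521788), (nat_lit 1759918), (nat_lit 1752422), (nat_lit 1803252), (nat_lit 1796008)]⟩, (nat_lit 5071936), (nat_lit 39712067), (nat_lit 9813352), (nat_lit 17474581), (nat_lit 0), (nat_lit 0), [], [], [], [⟨(nat_lit 0), (nat_lit 92), (nat_lit 100), (nat_lit 24), (nat_lit 169954459)⟩],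
 ⟨⟨[(nat_lit 40), (nat_lit 80), (nat_lit 100)], [(nat_lit 0), (nat_lit 395), (nat_lit 1536)], [((nat_lit 0), (nat_lit 0), (nat_lit 0)), ((nat_lit 1000), (nat_lit 908), (nat_lit 154)), ((nat_lit 1000), (nat_lit 760), (nat_lit 642))], ((nat_lit 77), (nat_lit 100), (nat_lit 52))⟩, (nat_lit 572892), (nat_lit 199), (nat_lit 199), (nat_lit 0), (nat_lit 317294), [(nat_lit 1663967232), (nat_lit 1968549588), (nat_lit 1723299200)], [(nat_lit 0), (nat_lit 0), (nat_lit 0)], [(nat_lit 20792528076), (nat_lit 21376156365), (nat_lit 22174675128), (nat_lit 22695792534), (nat_lit 27241418612), (nat_lit 27799130240), (nat_lit 28011627894), (nat_lit 28435465084)], (nat_lit 1271251), (nat_lit 1271251), (nat_lit 780000), (nat_lit 1435001), (nat_lit 1271251), (nat_lit 1271251), [(nat_lit 490000), (nat_lit 1100000), (nat_lit 1442501)], [(nat_lit 3), (nat_lit 50), (nat_lit 260), (nat_lit 50), (nat_lit 9)]⟩,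
 ⟨⟨[(nat_lit 120), (nat_lit 140), (nat_lit 160)], [(nat_lit 0), (nat_lit 266), (nat_lit 862)], [((nat_lit 0), (nat_lit 0), (nat_lit 0)), ((nat_lit 960), (nat_lit 1000), (nat_lit 200)), ((nat_lit 874), (nat_lit 1000), (nat_lit 406))], ((nat_lit 100), (nat_lit 81), (nat_lit 51))⟩, (nat_lit 1275559), (nat_lit 610), (nat_lit 610), (nat_lit 0), (nat_lit 642534), [(nat_lit 1243008000), (nat_lit 1535352000), (nat_lit 1852032000)], [], [(nat_lit 5524125600), (nat_lit 4642359150), (nat_lit 6699477696), (nat_lit 4470797454), (nat_lit 5823242832), (nat_lit 3368660286), (nat_lit 7487468736), (nat_lit 4715678976)], (nat_lit 1271251), (nat_lit 1271251), (nat_lit 780000), (nat_lit 1435001), (nat_lit 0), (nat_lit 780000), [(nat_lit 1695001), (nat_lit 1271251), (nat_lit 1271251)], [(nat_lit 27), (nat_lit 62), (nat_lit 373), (nat_lit 150), (nat_lit 10)]⟩,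
 ⟨⟨[(nat_lit 120), (nat_lit 140), (nat_lit 160)], [(nat_lit 0), (nat_lit 266), (nat_lit 862)], [((nat_lit 0), (nat_lit 0), (nat_lit 0)), ((nat_lit 960), (nat_lit 1000), (nat_lit 200)), ((nat_lit 874), (nat_lit 1000), (nat_lit 406))], ((nat_lit 100), (nat_lit 81), (nat_lit 51))⟩, (nat_lit 320211), (nat_lit 300), (nat_lit 628), (nat_lit 10358400), (nat_lit 739833), [(nat_lit 1243008000), (nat_lit 1535352000), (nat_lit 1852032000)], [], [(nat_lit 6847255352), (nat_lit 6811258416), (nat_lit 7389902107), (nat_lit 7338741312), (nat_lit 6142636786), (nat_lit 5535848493), (nat_lit 5975182235), (nat_lit 5862260231)], (nat_lit 1271251), (nat_lit 1271251), (nat_lit 1271251), (nat_lit 1271251), (nat_lit 0), (nat_lit 780000), [(nat_lit 1695001), (nat_lit 1271251), (nat_lit 1271251)], [(nat_lit 27), (nat_lit 62), (nat_lit 428), (nat_lit 200), (nat_lit 11)]⟩⟩))) (.leaf ⟨(nat_lit 596), (nat_lit 0), (nat_lit 0), (nat_lit 404), (nat_lit 0), (nat_lit 4428), (nat_lit 3132),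 (nat_lit 4204), (nat_lit 0), (nat_lit 20782), (nat_lit 1500000), [((nat_lit 340), [((nat_lit 37), (nat_lit 2), (nat_lit 260)), ((nat_lit 37), (nat_lit 5), (nat_lit 336))])], ⟨(nat_lit 4), false, false, false, (nat_lit 178), (nat_lit 3872), (nat_lit 4473), [(nat_lit 1342475), (nat_lit 1349162), (nat_lit 1407125), (nat_lit 1414492), (nat_lit 1478432), (nat_lit 1478205), (nat_lit 1543097), (nat_lit 1543551)]⟩, ⟨(nat_lit 5), false, true, true, (nat_lit 260), (nat_lit 3872), (nat_lit 4473), [(nat_lit 1478432), (nat_lit 1478205), (nat_lit 1521548), (nat_lit 1521775), (nat_lit 1784334), (nat_lit 1768552), (nat_lit 1827467), (nat_lit 1812139)]⟩, (nat_lit 5086511), (nat_lit 39424214), (nat_lit 9734839), (nat_lit 17840947), (nat_lit 0), (nat_lit 0), [], [], [], [],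
 ⟨⟨[(nat_lit 40), (nat_lit 80), (nat_lit 100)], [(nat_lit 0), (nat_lit 0), (nat_lit 1280)], [((nat_lit 0), (nat_lit 0), (nat_lit 0)), ((nat_lit 0), (nat_lit 0), (nat_lit 0)), ((nat_lit 1000), (nat_lit 800), (nat_lit 600))], ((nat_lit 80), (nat_lit 100), (nat_lit 51))⟩, (nat_lit 0), (nat_lit 204), (nat_lit 204), (nat_lit 0), (nat_lit 321065), [(nat_lit 1961938755), (nat_lit 1507858956), (nat_lit 0)], [(nat_lit 0), (nat_lit 0), (nat_lit 1312203200)], [(nat_lit 18543695305), (nat_lit 19868827631), (nat_lit 20061131157), (nat_lit 21237512850), (nat_lit 28278669182), (nat_lit 29490898240), (nat_lit 28753616166), (nat_lit 29837258535)], (nat_lit 1271251), (nat_lit 1271251), (nat_lit 780000), (nat_lit 1435001), (nat_lit 1271251), (nat_lit 1271251), [(nat_lit 490000), (nat_lit 1100000), (nat_lit 1442501)], [(nat_lit 3), (nat_lit 50), (nat_lit 260), (nat_lit 50), (nat_lit 9)]⟩,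
 ⟨⟨[(nat_lit 120), (nat_lit 140), (nat_lit 160)], [(nat_lit 0), (nat_lit 266), (nat_lit 862)], [((nat_lit 0), (nat_lit 0), (nat_lit 0)), ((nat_lit 960), (nat_lit 1000), (nat_lit 200)), ((nat_lit 874), (nat_lit 1000), (nat_lit 406))], ((nat_lit 100), (nat_lit 81), (nat_lit 51))⟩, (nat_lit 3829949), (nat_lit 664), (nat_lit 664), (nat_lit 0), (nat_lit 920978), [(nat_lit 3219072000), (nat_lit 3976168000), (nat_lit 4796288000)], [], [(nat_lit 21210501825), (nat_lit 16123317156), (nat_lit 15855129229), (nat_lit 15945825700), (nat_lit 17818763042), (nat_lit 17156323032), (nat_lit 21552063486), (nat_lit 17481453198)], (nat_lit 1271251), (nat_lit 1271251), (nat_lit 780000), (nat_lit 1435001), (nat_lit 780000), (nat_lit 3072501), [(nat_lit 1695001), (nat_lit 1271251), (nat_lit 1271251)], [(nat_lit 27), (nat_lit 62), (nat_lit 456), (nat_lit 225), (nat_lit 12)]⟩,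
 ⟨⟨[(nat_lit 120), (nat_lit 140), (nat_lit 160)], [(nat_lit 0), (nat_lit 266), (nat_lit 862)], [((nat_lit 0), (nat_lit 0), (nat_lit 0)), ((nat_lit 960), (nat_lit 1000), (nat_lit 200)), ((nat_lit 874), (nat_lit 1000), (nat_lit 406))], ((nat_lit 100), (nat_lit 81), (nat_lit 51))⟩, (nat_lit 829263), (nat_lit 300), (nat_lit 705), (nat_lit 26825601), (nat_lit 1088722), [(nat_lit 3219072000), (nat_lit 3976168000), (nat_lit 4796288000)], [], [(nat_lit 16800117128), (nat_lit 16574204656), (nat_lit 16995375511), (nat_lit 16649212337), (nat_lit 19688091866), (nat_lit 15833219454), (nat_lit 16989773699), (nat_lit 16884487673)], (nat_lit 1271251), (nat_lit 1271251), (nat_lit 1271251), (nat_lit 1271251), (nat_lit 780000), (nat_lit 3072501), [(nat_lit 1695001), (nat_lit 1271251), (nat_lit 1271251)], [(nat_lit 27), (nat_lit 62), (nat_lit 483), (nat_lit 250), (nat_lit 12)]⟩⟩)) (.dle (nat_lit 0)))) (.ord (.spl (nat_lit 4) (nat_lit 280) (.leaf ⟨(nat_lit 806), (nat_lit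 0), (nat_lit 0), (nat_lit 194), (nat_lit 0), (nat_lit 4401), (nat_lit 1783), (nat_lit 2224), (nat_lit 0), (nat_lit 415655), (nat_lit 875000), [((nat_lit 340), [((nat_lit 18), (nat_lit 2), (nat_lit 783)), ((nat_lit 37), (nat_lit 5), (nat_lit 23))])], ⟨(nat_lit 5), false, false, false, (nat_lit 186), (nat_lit 3872), (nat_lit 4473), [(nat_lit 1385576), (nat_lit 1392716), (nat_lit 1407125), (nat_lit 1414492), (nat_lit 1521548), (nat_lit 1521775), (nat_lit 1543097), (nat_lit 1543551)]⟩, ⟨(nat_lit 5), false, true, true, (nat_lit 239), (nat_lit 3872), (nat_lit 4473), [(nat_lit 1521548), (nat_lit 1521775), (nat_lit 1543097), (nat_lit 1543551), (nat_lit 1657518), (nat_lit 1650831), (nat_lit 1679069), (nat_lit 1672609)]⟩, (nat_lit 5059543), (nat_lit 40427895), (nat_lit 10666018), (nat_lit 15906087), (nat_lit 0), (nat_lit 0), [], [], [⟨(nat_lit 0), (nat_lit 100), (nat_lit 100), (nat_lit 30), (nat_lit 105517497)⟩], [],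
 ⟨⟨[(nat_lit 40), (nat_lit 80), (nat_lit 100)], [(nat_lit 0), (nat_lit 0), (nat_lit 1280)], [((nat_lit 0), (nat_lit 0), (nat_lit 0)), ((nat_lit 0), (nat_lit 0), (nat_lit 0)), ((nat_lit 1000), (nat_lit 800), (nat_lit 600))], ((nat_lit 80), (nat_lit 100), (nat_lit 57))⟩, (nat_lit 0), (nat_lit 175), (nat_lit 175), (nat_lit 0), (nat_lit 363726), [(nat_lit 1902355400), (nat_lit 1516341605), (nat_lit 582362800)], [(nat_lit 0), (nat_lit 0), (nat_lit 0)], [(nat_lit 18280475357), (nat_lit 19552504031), (nat_lit 19660943979), (nat_lit 20951611769), (nat_lit 21528925463), (nat_lit 23127585553), (nat_lit 22778643434), (nat_lit 24193880076)], (nat_lit 1271251), (nat_lit 1271251), (nat_lit 780000), (nat_lit 1435001), (nat_lit 1271251), (nat_lit 1271251), [(nat_lit 490000), (nat_lit 1100000), (nat_lit 1442501)], [(nat_lit 3), (nat_lit 50), (nat_lit 260), (nat_lit 50), (nat_lit 9)]⟩,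
 ⟨⟨[(nat_lit 100), (nat_lit 140), (nat_lit 160)], [(nat_lit 0), (nat_lit 508), (nat_lit 1689)], [((nat_lit 0), (nat_lit 0), (nat_lit 0)), ((nat_lit 1000), (nat_lit 1000), (nat_lit 198)), ((nat_lit 811), (nat_lit 1000), (nat_lit 671))], ((nat_lit 100), (nat_lit 88), (nat_lit 58))⟩, (nat_lit 632983), (nat_lit 688), (nat_lit 688), (nat_lit 0), (nat_lit 804707), [(nat_lit 1212500000), (nat_lit 1909348000), (nat_lit 2303168000)], [], [(nat_lit 8101097655), (nat_lit 7150827300), (nat_lit 7014753910), (nat_lit 7057168424), (nat_lit 8113667946), (nat_lit 7290061020), (nat_lit 10062857885), (nat_lit 9260540870)], (nat_lit 1271251), (nat_lit 1271251), (nat_lit 780000), (nat_lit 1435001), (nat_lit 0), (nat_lit 2825001), [(nat_lit 1412501), (nat_lit 1271251), (nat_lit 1271251)], [(nat_lit 23), (nat_lit 62), (nat_lit 456), (nat_lit 225), (nat_lit 12)]⟩,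
 ⟨⟨[(nat_lit 100), (nat_lit 140), (nat_lit 160)], [(nat_lit 0), (nat_lit 508), (nat_lit 1689)], [((nat_lit 0), (nat_lit 0), (nat_lit 0)), ((nat_lit 1000), (nat_lit 1000), (nat_lit 198)), ((nat_lit 811), (nat_lit 1000), (nat_lit 671))], ((nat_lit 100), (nat_lit 88), (nat_lit 58))⟩, (nat_lit 417024), (nat_lit 300), (nat_lit 655), (nat_lit 12125000), (nat_lit 804707), [(nat_lit 1212500000), (nat_lit 1909348000), (nat_lit 2303168000)], [], [(nat_lit 8185981452), (nat_lit 8121650060), (nat_lit 8212546357), (nat_lit 8170269716), (nat_lit 8856471936), (nat_lit 7855713080), (nat_lit 7028852746), (nat_lit 7058408852)], (nat_lit 1271251), (nat_lit 1271251), (nat_lit 1271251), (nat_lit 1271251), (nat_lit 0), (nat_lit 2825001), [(nat_lit 1412501), (nat_lit 1271251), (nat_lit 1271251)], [(nat_lit 23), (nat_lit 62), (nat_lit 483), (nat_lit 250), (nat_lit 12)]⟩⟩) (.trX (nat_lit 5) (nat_lit 4) (nat_lit 3) (nat_lit 92) (nat_lit 40) (nat_lit 100) (nat_lit 390) (.leaf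 ⟨(nat_lit 415), (nat_lit 0), (nat_lit 0), (nat_lit 585), (nat_lit 0), (nat_lit 4788), (nat_lit 3791), (nat_lit 5678), (nat_lit 0), (nat_lit 10510661), (nat_lit 1015000), [((nat_lit 340), [((nat_lit 18), (nat_lit 2), (nat_lit 215)), ((nat_lit 37), (nat_lit 5), (nat_lit 200))])], ⟨(nat_lit 5), false, false, false, (nat_lit 186), (nat_lit 3872), (nat_lit 4473), [(nat_lit 1385576), (nat_lit 1392716), (nat_lit 1407125), (nat_lit 1414492), (nat_lit 1521548), (nat_lit 1521775), (nat_lit 1543097), (nat_lit 1543551)]⟩, ⟨(nat_lit 7), false, true, true, (nat_lit 302), (nat_lit 3872), (nat_lit 4473), [(nat_lit 1657518), (nat_lit 1650831), (nat_lit 1679069), (nat_lit 1672609), (nat_lit 1844461), (nat_lit 1828269), (nat_lit 1866022), (nat_lit 1850057)]⟩, (nat_lit 5282267), (nat_lit 35798823), (nat_lit 9793960), (nat_lit 21407217), (nat_lit 0), (nat_lit 0), [], [], [⟨(nat_lit 0), (nat_lit 100), (nat_lit 100), (nat_lit 20), (nat_lit 329352430)⟩], [],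
 ⟨⟨[(nat_lit 40), (nat_lit 80), (nat_lit 100)], [(nat_lit 0), (nat_lit 0), (nat_lit 1280)], [((nat_lit 0), (nat_lit 0), (nat_lit 0)), ((nat_lit 0), (nat_lit 0), (nat_lit 0)), ((nat_lit 1000), (nat_lit 800), (nat_lit 600))], ((nat_lit 80), (nat_lit 100), (nat_lit 57))⟩, (nat_lit 0), (nat_lit 220), (nat_lit 220), (nat_lit 0), (nat_lit 363726), [(nat_lit 2043334428), (nat_lit 2337013708), (nat_lit 1099122000)], [(nat_lit 0), (nat_lit 0), (nat_lit 0)], [(nat_lit 22357168940), (nat_lit 23424434870), (nat_lit 23296656728), (nat_lit 24417769541), (nat_lit 29510594889), (nat_lit 30728099371), (nat_lit 29797309773), (nat_lit 30884475260)], (nat_lit 1271251), (nat_lit 1271251), (nat_lit 780000), (nat_lit 1435001), (nat_lit 1271251), (nat_lit 1271251), [(nat_lit 490000), (nat_lit 1100000), (nat_lit 1442501)], [(nat_lit 3), (nat_lit 50), (nat_lit 260), (nat_lit 50), (nat_lit 8)]⟩,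
 ⟨⟨[(nat_lit 100), (nat_lit 140), (nat_lit 160)], [(nat_lit 0), (nat_lit 508), (nat_lit 1689)], [((nat_lit 0), (nat_lit 0), (nat_lit 0)), ((nat_lit 1000), (nat_lit 1000), (nat_lit 198)), ((nat_lit 811), (nat_lit 1000), (nat_lit 671))], ((nat_lit 100), (nat_lit 88), (nat_lit 58))⟩, (nat_lit 6036725), (nat_lit 688), (nat_lit 688), (nat_lit 0), (nat_lit 804707), [(nat_lit 3656250000), (nat_lit 5757570000), (nat_lit 6945120000)], [], [(nat_lit 22831355027), (nat_lit 21540564830), (nat_lit 21546454247), (nat_lit 21699036388), (nat_lit 24036245869), (nat_lit 22977512227), (nat_lit 28609643915), (nat_lit 26898105744)], (nat_lit 1271251), (nat_lit 1271251), (nat_lit 780000), (nat_lit 1435001), (nat_lit 0), (nat_lit 2754376), [(nat_lit 1412501), (nat_lit 1271251), (nat_lit 1271251)], [(nat_lit 23), (nat_lit 62), (nat_lit 456), (nat_lit 225), (nat_lit 12)]⟩,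
 ⟨⟨[(nat_lit 100), (nat_lit 140), (nat_lit 160)], [(nat_lit 0), (nat_lit 508), (nat_lit 1689)], [((nat_lit 0), (nat_lit 0), (nat_lit 0)), ((nat_lit 1000), (nat_lit 1000), (nat_lit 198)), ((nat_lit 811), (nat_lit 1000), (nat_lit 671))], ((nat_lit 100), (nat_lit 88), (nat_lit 58))⟩, (nat_lit 1257520), (nat_lit 300), (nat_lit 620), (nat_lit 36562500), (nat_lit 804707), [(nat_lit 3656250000), (nat_lit 5757570000), (nat_lit 6945120000)], [], [(nat_lit 26702504695), (nat_lit 26627426822), (nat_lit 28365361813), (nat_lit 28196818303), (nat_lit 22527870048), (nat_lit 22314111955), (nat_lit 23847847636), (nat_lit 23794504595)], (nat_lit 1271251), (nat_lit 1271251), (nat_lit 1271251), (nat_lit 1271251), (nat_lit 0), (nat_lit 2754376), [(nat_lit 1412501), (nat_lit 1271251), (nat_lit 1271251)], [(nat_lit 23), (nat_lit 62), (nat_lit 538), (nat_lit 300), (nat_lit 13)]⟩⟩)))))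
noncomputable def c10_23 : Tr Lf :=
 (.trX (nat_lit 5) (nat_lit 3) (nat_lit 4) (nat_lit 100) (nat_lit 40) (nat_lit 92) (nat_lit 390) (.spl (nat_lit 3) (nat_lit 280) (.leaf ⟨(nat_lit 1000), (nat_lit 0), (nat_lit 0), (nat_lit 0), (nat_lit 2513), (nat_lit 3545), (nat_lit 0), (nat_lit 0), (nat_lit 0), (nat_lit 81953897752), (nat_lit 724400), [((nat_lit 340), [((nat_lit 37), (nat_lit 2), (nat_lit 689)), ((nat_lit 18), (nat_lit 2), (nat_lit 311))])], ⟨(nat_lit 5), false, false, true, (nat_lit 205), (nat_lit 3872), (nat_lit 4473), [(nat_lit 1413733), (nat_lit 1412825), (nat_lit 1478432), (nat_lit 1478205), (nat_lit 1549689), (nat_lit 1541869), (nat_lit 1614388), (nat_lit 1607248)]⟩, ⟨(nat_lit 3), false, false, false, (nat_lit 86), (nat_lit 3872), (nat_lit 4473), [(nat_lit 1073842), (nat_lit 1090218), (nat_lit 1138518), (nat_lit 1155575), (nat_lit 1277776), (nat_lit 1283782), (nat_lit 1342475), (nat_lit 1349162)]⟩, (nat_lit 3709203), (nat_lit 49698431), (nat_lit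 13748249), (nat_lit 3553320), (nat_lit 0), (nat_lit 0), [], [⟨(nat_lit 0), (nat_lit 100), (nat_lit 72), (nat_lit 63), (nat_lit 107982953)⟩], [], [],
 ⟨⟨[(nat_lit 40), (nat_lit 80), (nat_lit 100)], [(nat_lit 0), (nat_lit 0), (nat_lit 1280)], [((nat_lit 0), (nat_lit 0), (nat_lit 0)), ((nat_lit 0), (nat_lit 0), (nat_lit 0)), ((nat_lit 1000), (nat_lit 800), (nat_lit 600))], ((nat_lit 80), (nat_lit 100), (nat_lit 51))⟩, (nat_lit 0), (nat_lit 208), (nat_lit 208), (nat_lit 0), (nat_lit 197091), [(nat_lit 1549781924), (nat_lit 1480734887), (nat_lit 653688000)], [(nat_lit 0), (nat_lit 0), (nat_lit 0)], [(nat_lit 20646448211), (nat_lit 21848344626), (nat_lit 23402954488), (nat_lit 24725287890), (nat_lit 20048833901), (nat_lit 21126077485), (nat_lit 22613040988), (nat_lit 23604645986)], (nat_lit 1271251), (nat_lit 1271251), (nat_lit 1271251), (nat_lit 1271251), (nat_lit 0), (nat_lit 780000), [(nat_lit 490000), (nat_lit 1100000), (nat_lit 1442501)], [(nat_lit 3),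 (nat_lit 50), (nat_lit 238), (nat_lit 30), (nat_lit 8)]⟩,
 Rw.none,
 Rw.none⟩) (.trX (nat_lit 5) (nat_lit 3) (nat_lit 4) (nat_lit 100) (nat_lit 80) (nat_lit 100) (nat_lit 340) (.spl (nat_lit 6) (nat_lit 16) (.spl (nat_lit 1) (nat_lit 160) (.ord (.trX (nat_lit 3) (nat_lit 0) (nat_lit 1) (nat_lit 82) (nat_lit 76) (nat_lit 100) (nat_lit 340) (.leaf ⟨(nat_lit 971), (nat_lit 29), (nat_lit 0), (nat_lit 0), (nat_lit 2361), (nat_lit 3149), (nat_lit 381), (nat_lit 0), (nat_lit 0), (nat_lit 647320381125), (nat_lit 777400), [((nat_lit 340), [((nat_lit 37), (nat_lit 2), (nat_lit 484)), ((nat_lit 18), (nat_lit 2), (nat_lit 487))])], ⟨(nat_lit 7), false, false, true, (nat_lit 247), (nat_lit 3872), (nat_lit 4473), [(nat_lit 1549689), (nat_lit 1541869), (nat_lit 1592822), (nat_lit 1585455), (nat_lit 1651656), (nat_lit 1638651), (nat_lit 1694789), (nat_lit 1682237)]⟩, ⟨(nat_lit 3), false, false, false, (nat_lit 81), (nat_lit 3872), (nat_lit 4473), [(nat_lit 1073842),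 (nat_lit 1090218), (nat_lit 1116965), (nat_lit 1133794), (nat_lit 1277776), (nat_lit 1283782), (nat_lit 1320909), (nat_lit 1327369)]⟩, (nat_lit 3986783), (nat_lit 45806718), (nat_lit 18010915), (nat_lit 3182367), (nat_lit 3), (nat_lit 0), [⟨(nat_lit 1), (nat_lit 76), (nat_lit 82), (nat_lit 100), (nat_lit 163467057)⟩], [⟨(nat_lit 0), (nat_lit 100), (nat_lit 73), (nat_lit 55), (nat_lit 64274507)⟩], [], [⟨(nat_lit 1), (nat_lit 100), (nat_lit 84), (nat_lit 42), (nat_lit 3028313)⟩],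
 ⟨⟨[(nat_lit 40), (nat_lit 60), (nat_lit 80)], [(nat_lit 0), (nat_lit 0), (nat_lit 615)], [((nat_lit 0), (nat_lit 0), (nat_lit 0)), ((nat_lit 0), (nat_lit 0), (nat_lit 0)), ((nat_lit 1000), (nat_lit 819), (nat_lit 426))], ((nat_lit 82), (nat_lit 100), (nat_lit 40))⟩, (nat_lit 0), (nat_lit 189), (nat_lit 189), (nat_lit 0), (nat_lit 193959), [(nat_lit 1333477720), (nat_lit 1691990892), (nat_lit 1220771200)], [(nat_lit 0), (nat_lit 0), (nat_lit 0)], [(nat_lit 23623110740), (nat_lit 24662783714), (nat_lit 26219044053), (nat_lit 27330149912), (nat_lit 23344196444), (nat_lit 24280059493), (nat_lit 25712828812), (nat_lit 26583127575)], (nat_lit 1271251), (nat_lit 1271251), (nat_lit 1271251), (nat_lit 1271251), (nat_lit 0), (nat_lit 780000), [(nat_lit 490000), (nat_lit 780000), (nat_lit 1100000)], [(nat_lit 2), (nat_lit 44), (nat_lit 238), (nat_lit 30), (nat_lit 10)]⟩,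
 ⟨⟨[(nat_lit 140), (nat_lit 160), (nat_lit 180)], [(nat_lit 0), (nat_lit 0), (nat_lit 799)], [((nat_lit 0), (nat_lit 0), (nat_lit 0)), ((nat_lit 0), (nat_lit 0), (nat_lit 0)), ((nat_lit 728), (nat_lit 1000), (nat_lit 454))], ((nat_lit 100), (nat_lit 75), (nat_lit 43))⟩, (nat_lit 175547), (nat_lit 1386), (nat_lit 1386), (nat_lit 0), (nat_lit 2238072), [(nat_lit 285418000), (nat_lit 344288000), (nat_lit 407682000)], [], [(nat_lit 1370115976), (nat_lit 1325421970), (nat_lit 1422330697), (nat_lit 1372471618), (nat_lit 1221722040), (nat_lit 1416376777), (nat_lit 1115384022), (nat_lit 1069571558)], (nat_lit 780000), (nat_lit 1100000), (nat_lit 1271251), (nat_lit 1271251), (nat_lit 0), (nat_lit 2401251), [(nat_lit 1977501), (nat_lit 1271251), (nat_lit 1271251)], [(nat_lit 31), (nat_lit 65), (nat_lit 456), (nat_lit 225), (nat_lit 11)]⟩,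
 Rw.none⟩))) (.spl (nat_lit 0) (nat_lit 330) (.leaf ⟨(nat_lit 859), (nat_lit 141), (nat_lit 0), (nat_lit 0), (nat_lit 1967), (nat_lit 3126), (nat_lit 1498), (nat_lit 0), (nat_lit 0), (nat_lit 2464303407216), (nat_lit 820200), [((nat_lit 330), [((nat_lit 37), (nat_lit 2), (nat_lit 97)), ((nat_lit 18), (nat_lit 2), (nat_lit 762))])], ⟨(nat_lit 7), false, false, true, (nat_lit 264), (nat_lit 4183), (nat_lit 4473), [(nat_lit 1592822), (nat_lit 1589176), (nat_lit 1614388), (nat_lit 1610843), (nat_lit 1711784), (nat_lit 1705124), (nat_lit 1733350), (nat_lit 1726790)]⟩, ⟨(nat_lit 3), false, false, false, (nat_lit 84), (nat_lit 4183), (nat_lit 4473), [(nat_lit 1073842), (nat_lit 1082054), (nat_lit 1138540), (nat_lit 1147053), (nat_lit 1277776), (nat_lit 1280820), (nat_lit 1342476), (nat_lit 1345821)]⟩, (nat_lit 4130258), (nat_lit 43973345), (nat_lit 19720726), (nat_lit 3305929), (nat_lit 3), (nat_lit 0), [⟨(nat_lit 1), (nat_lit 74), (nat_lit 79), (nat_lit 100),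 (nat_lit 37427269)⟩], [⟨(nat_lit 0), (nat_lit 100), (nat_lit 76), (nat_lit 57), (nat_lit 17482130)⟩], [], [⟨(nat_lit 1), (nat_lit 100), (nat_lit 83), (nat_lit 45), (nat_lit 28757064)⟩],
 ⟨⟨[(nat_lit 40), (nat_lit 60), (nat_lit 80)], [(nat_lit 0), (nat_lit 0), (nat_lit 615)], [((nat_lit 0), (nat_lit 0), (nat_lit 0)), ((nat_lit 0), (nat_lit 0), (nat_lit 0)), ((nat_lit 1000), (nat_lit 819), (nat_lit 426))], ((nat_lit 82), (nat_lit 100), (nat_lit 40))⟩, (nat_lit 0), (nat_lit 170), (nat_lit 170), (nat_lit 0), (nat_lit 115389), [(nat_lit 1450183552), (nat_lit 1809853138), (nat_lit 1367417600)], [(nat_lit 0), (nat_lit 0), (nat_lit 0)], [(nat_lit 23556353050), (nat_lit 24105837267), (nat_lit 26796881523), (nat_lit 27292484233), (nat_lit 23130244552), (nat_lit 23625451961), (nat_lit 26152821749), (nat_lit 26595094073)], (nat_lit 1271251), (nat_lit 1271251), (nat_lit 1271251), (nat_lit 1271251), (nat_lit 0), (nat_lit 780000), [(nat_lit 490000), (nat_lit 780000),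 (nat_lit 1100000)], [(nat_lit 2), (nat_lit 44), (nat_lit 238), (nat_lit 30), (nat_lit 10)]⟩,
 ⟨⟨[(nat_lit 120), (nat_lit 140), (nat_lit 160)], [(nat_lit 0), (nat_lit 0), (nat_lit 609)], [((nat_lit 0), (nat_lit 0), (nat_lit 0)), ((nat_lit 0), (nat_lit 0), (nat_lit 0)), ((nat_lit 840), (nat_lit 1000), (nat_lit 400))], ((nat_lit 100), (nat_lit 84), (nat_lit 40))⟩, (nat_lit 751594), (nat_lit 569), (nat_lit 569), (nat_lit 0), (nat_lit 640785), [(nat_lit 1123488000), (nat_lit 1387722000), (nat_lit 1673952000)], [], [(nat_lit 5660368490), (nat_lit 5655295628), (nat_lit 6033542776), (nat_lit 6017498141), (nat_lit 5369739616), (nat_lit 5839360511), (nat_lit 4938760869), (nat_lit 4922714818)], (nat_lit 1100000), (nat_lit 1271251), (nat_lit 1271251), (nat_lit 1271251), (nat_lit 0), (nat_lit 2401251), [(nat_lit 1695001), (nat_lit 1271251), (nat_lit 1271251)], [(nat_lit 27), (nat_lit 62), (nat_lit 456), (nat_lit 225), (nat_lit 12)]⟩,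
 Rw.none⟩) (.trX (nat_lit 3) (nat_lit 0) (nat_lit 1) (nat_lit 76) (nat_lit 73) (nat_lit 100) (nat_lit 340) (.leaf ⟨(nat_lit 926), (nat_lit 74), (nat_lit 0), (nat_lit 0), (nat_lit 0), (nat_lit 3111), (nat_lit 845), (nat_lit 0), (nat_lit 0), (nat_lit 1503737573846), (nat_lit 339950), [((nat_lit 340), [((nat_lit 18), (nat_lit 0), (nat_lit 203)), ((nat_lit 18), (nat_lit 1), (nat_lit 723))])], ⟨(nat_lit 7), false, false, true, (nat_lit 259), (nat_lit 3872), (nat_lit 4184), [(nat_lit 1589176), (nat_lit 1585455), (nat_lit 1610843), (nat_lit 1607248), (nat_lit 1688560), (nat_lit 1682237), (nat_lit 1710226), (nat_lit 1704031)]⟩, ⟨(nat_lit 3), false, false, false, (nat_lit 87), (nat_lit 3872), (nat_lit 4184), [(nat_lit 1082054), (nat_lit 1090218), (nat_lit 1147044), (nat_lit 1155588), (nat_lit 1280820), (nat_lit 1283782), (nat_lit 1345820), (nat_lit 1349161)]⟩, (nat_lit 4130427), (nat_lit 44377613), (nat_lit 19161723), (nat_lit 3460664), (nat_lit 3), (nat_lit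 0), [⟨(nat_lit 1), (nat_lit 73), (nat_lit 76), (nat_lit 100), (nat_lit 90429301)⟩], [⟨(nat_lit 0), (nat_lit 100), (nat_lit 72), (nat_lit 63), (nat_lit 49786989)⟩], [], [⟨(nat_lit 1), (nat_lit 100), (nat_lit 85), (nat_lit 73), (nat_lit 10920113)⟩],
 ⟨⟨[(nat_lit 40), (nat_lit 60), (nat_lit 80)], [(nat_lit 0), (nat_lit 197), (nat_lit 800)], [((nat_lit 0), (nat_lit 0), (nat_lit 0)), ((nat_lit 1000), (nat_lit 908), (nat_lit 154)), ((nat_lit 1000), (nat_lit 781), (nat_lit 471))], ((nat_lit 80), (nat_lit 100), (nat_lit 41))⟩, (nat_lit 1361763), (nat_lit 185), (nat_lit 185), (nat_lit 0), (nat_lit 176468), [(nat_lit 1399119875), (nat_lit 1816929360), (nat_lit 2175963840)], [(nat_lit 0), (nat_lit 0), (nat_lit 0)], [(nat_lit 24071603160), (nat_lit 24588822368), (nat_lit 26606613228), (nat_lit 27239107099), (nat_lit 23769232036), (nat_lit 24234938864), (nat_lit 26083055999), (nat_lit 26516267618)], (nat_lit 1271251), (nat_lit 1271251), (nat_lit 1271251), (nat_lit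 1271251), (nat_lit 0), (nat_lit 780000), [(nat_lit 490000), (nat_lit 780000), (nat_lit 1100000)], [(nat_lit 2), (nat_lit 44), (nat_lit 238), (nat_lit 30), (nat_lit 10)]⟩,
 ⟨⟨[(nat_lit 120), (nat_lit 140), (nat_lit 160)], [(nat_lit 0), (nat_lit 0), (nat_lit 609)], [((nat_lit 0), (nat_lit 0), (nat_lit 0)), ((nat_lit 0), (nat_lit 0), (nat_lit 0)), ((nat_lit 840), (nat_lit 1000), (nat_lit 400))], ((nat_lit 100), (nat_lit 84), (nat_lit 40))⟩, (nat_lit 398425), (nat_lit 768), (nat_lit 768), (nat_lit 0), (nat_lit 1073932), [(nat_lit 589632000), (nat_lit 728308000), (nat_lit 878528000)], [], [(nat_lit 2952598672), (nat_lit 2927782312), (nat_lit 3034216734), (nat_lit 3013470559), (nat_lit 2770646444), (nat_lit 3031760542), (nat_lit 2525180058), (nat_lit 2515885139)], (nat_lit 1100000), (nat_lit 1271251), (nat_lit 1271251), (nat_lit 1271251), (nat_lit 0), (nat_lit 2401251), [(nat_lit 1695001), (nat_lit 1271251), (nat_lit 1271251)], [(nat_lit 27), (nat_lit 62),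 (nat_lit 456), (nat_lit 225), (nat_lit 12)]⟩,
 Rw.none⟩)))) (.spl (nat_lit 1) (nat_lit 160) (.ord (.trX (nat_lit 3) (nat_lit 0) (nat_lit 1) (nat_lit 82) (nat_lit 76) (nat_lit 100) (nat_lit 340) (.leaf ⟨(nat_lit 1000), (nat_lit 0), (nat_lit 0), (nat_lit 0), (nat_lit 9329), (nat_lit 3098), (nat_lit 0), (nat_lit 0), (nat_lit 0), (nat_lit 190577), (nat_lit 815200), [((nat_lit 340), [((nat_lit 37), (nat_lit 2), (nat_lit 462)), ((nat_lit 18), (nat_lit 2), (nat_lit 538))])], ⟨(nat_lit 7), false, false, true, (nat_lit 247), (nat_lit 3872), (nat_lit 4473), [(nat_lit 1549689), (nat_lit 1541869), (nat_lit 1592822), (nat_lit 1585455), (nat_lit 1651656), (nat_lit 1638651), (nat_lit 1694789), (nat_lit 1682237)]⟩, ⟨(nat_lit 3), false, false, false, (nat_lit 81), (nat_lit 3872), (nat_lit 4473), [(nat_lit 1073842), (nat_lit 1090218), (nat_lit 1116965), (nat_lit 1133794), (nat_lit 1277776), (nat_lit 1283782), (nat_lit 1320909), (nat_lit 1327369)]⟩, (nat_lit 3986783),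 (nat_lit 45806718), (nat_lit 18010915), (nat_lit 3182367), (nat_lit 0), (nat_lit 0), [⟨(nat_lit 1), (nat_lit 89), (nat_lit 80), (nat_lit 100), (nat_lit 224920131)⟩], [⟨(nat_lit 0), (nat_lit 100), (nat_lit 73), (nat_lit 55), (nat_lit 70233211)⟩], [], [],
 ⟨⟨[(nat_lit 40), (nat_lit 80), (nat_lit 100)], [(nat_lit 0), (nat_lit 0), (nat_lit 1280)], [((nat_lit 0), (nat_lit 0), (nat_lit 0)), ((nat_lit 0), (nat_lit 0), (nat_lit 0)), ((nat_lit 1000), (nat_lit 800), (nat_lit 600))], ((nat_lit 80), (nat_lit 100), (nat_lit 51))⟩, (nat_lit 0), (nat_lit 174), (nat_lit 174), (nat_lit 0), (nat_lit 71068), [(nat_lit 1718831995), (nat_lit 1218342417), (nat_lit 292304000)], [(nat_lit 0), (nat_lit 0), (nat_lit 0)], [(nat_lit 23702404505), (nat_lit 24742805090), (nat_lit 26292037703), (nat_lit 27208169847), (nat_lit 23267721905), (nat_lit 24206645494), (nat_lit 25613437281), (nat_lit 26445005358)], (nat_lit 1271251), (nat_lit 1271251), (nat_lit 1271251), (nat_lit 1271251),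 (nat_lit 0), (nat_lit 780000), [(nat_lit 490000), (nat_lit 1100000), (nat_lit 1442501)], [(nat_lit 3), (nat_lit 50), (nat_lit 238), (nat_lit 30), (nat_lit 8)]⟩,
 Rw.none,
 Rw.none⟩))) (.leaf ⟨(nat_lit 832), (nat_lit 168), (nat_lit 0), (nat_lit 0), (nat_lit 15615), (nat_lit 3239), (nat_lit 2078), (nat_lit 0), (nat_lit 0), (nat_lit 493907), (nat_lit 871000), [((nat_lit 340), [((nat_lit 18), (nat_lit 2), (nat_lit 819)), ((nat_lit 37), (nat_lit 5), (nat_lit 13))])], ⟨(nat_lit 7), false, false, true, (nat_lit 263), (nat_lit 3872), (nat_lit 4473), [(nat_lit 1592822), (nat_lit 1585455), (nat_lit 1614388), (nat_lit 1607248), (nat_lit 1711784), (nat_lit 1698368), (nat_lit 1733350), (nat_lit 1720161)]⟩, ⟨(nat_lit 3), false, false, false, (nat_lit 86), (nat_lit 3872), (nat_lit 4473), [(nat_lit 1073842), (nat_lit 1090218), (nat_lit 1138518), (nat_lit 1155575), (nat_lit 1277776), (nat_lit 1283782), (nat_lit 1342475), (nat_lit 1349162)]⟩, (nat_lit 4139272), (nat_lit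 44019922), (nat_lit 19603668), (nat_lit 3376410), (nat_lit 3), (nat_lit 0), [⟨(nat_lit 1), (nat_lit 77), (nat_lit 77), (nat_lit 100), (nat_lit 81337251)⟩], [⟨(nat_lit 0), (nat_lit 100), (nat_lit 72), (nat_lit 63), (nat_lit 26573948)⟩], [], [⟨(nat_lit 1), (nat_lit 100), (nat_lit 83), (nat_lit 73), (nat_lit 9573253)⟩],
 ⟨⟨[(nat_lit 40), (nat_lit 80), (nat_lit 100)], [(nat_lit 0), (nat_lit 0), (nat_lit 1280)], [((nat_lit 0), (nat_lit 0), (nat_lit 0)), ((nat_lit 0), (nat_lit 0), (nat_lit 0)), ((nat_lit 1000), (nat_lit 800), (nat_lit 600))], ((nat_lit 80), (nat_lit 100), (nat_lit 51))⟩, (nat_lit 0), (nat_lit 169), (nat_lit 169), (nat_lit 0), (nat_lit 38960), [(nat_lit 1879920556), (nat_lit 1469522665), (nat_lit 526999600)], [(nat_lit 0), (nat_lit 0), (nat_lit 0)], [(nat_lit 24159184504), (nat_lit 25219054722), (nat_lit 27275904471), (nat_lit 28189603818), (nat_lit 23612449204), (nat_lit 24567990419), (nat_lit 26432542549), (nat_lit 27258796427)], (nat_lit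 1271251), (nat_lit 1271251), (nat_lit 1271251), (nat_lit 1271251), (nat_lit 0), (nat_lit 780000), [(nat_lit 490000), (nat_lit 1100000), (nat_lit 1442501)], [(nat_lit 3), (nat_lit 50), (nat_lit 238), (nat_lit 30), (nat_lit 8)]⟩,
 ⟨⟨[(nat_lit 120), (nat_lit 160), (nat_lit 180)], [(nat_lit 0), (nat_lit 0), (nat_lit 1613)], [((nat_lit 0), (nat_lit 0), (nat_lit 0)), ((nat_lit 0), (nat_lit 0), (nat_lit 0)), ((nat_lit 620), (nat_lit 1000), (nat_lit 670))], ((nat_lit 100), (nat_lit 76), (nat_lit 52))⟩, (nat_lit 472464), (nat_lit 442), (nat_lit 442), (nat_lit 0), (nat_lit 226469), [(nat_lit 1338624000), (nat_lit 1994496000), (nat_lit 2361744000)], [], [(nat_lit 7546263476), (nat_lit 7533364588), (nat_lit 8140434858), (nat_lit 8098254753), (nat_lit 6161164328), (nat_lit 6793713236), (nat_lit 6360739837), (nat_lit 6317816458)], (nat_lit 1100000), (nat_lit 1271251), (nat_lit 1271251), (nat_lit 1271251), (nat_lit 0), (nat_lit 2401251), [(nat_lit 1695001), (nat_lit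 1271251), (nat_lit 1271251)], [(nat_lit 28), (nat_lit 65), (nat_lit 456), (nat_lit 225), (nat_lit 10)]⟩,
 Rw.none⟩))))))
noncomputable def c10_24 : Tr Lf :=
 (.spl (nat_lit 2) (nat_lit 160) (.spl (nat_lit 0) (nat_lit 330) (.spl (nat_lit 6) (nat_lit 20) (.leaf ⟨(nat_lit 950), (nat_lit 35), (nat_lit 0), (nat_lit 15), (nat_lit 2379), (nat_lit 3571), (nat_lit 610), (nat_lit 197), (nat_lit 0), (nat_lit 396470), (nat_lit 632000), [((nat_lit 330), [((nat_lit 37), (nat_lit 2), (nat_lit 795)), ((nat_lit 18), (nat_lit 2), (nat_lit 155))])], ⟨(nat_lit 5), false, false, true, (nat_lit 229), (nat_lit 4183), (nat_lit 4473), [(nat_lit 1413733), (nat_lit 1413332), (nat_lit 1478432), (nat_lit 1478332), (nat_lit 1668651), (nat_lit 1661790), (nat_lit 1733350), (nat_lit 1726790)]⟩, ⟨(nat_lit 3), false, false, true, (nat_lit 147), (nat_lit 4183), (nat_lit 4473), [(nat_lit 1277776), (nat_lit 1280820), (nat_lit 1320909), (nat_lit 1324154), (nat_lit 1413733), (nat_lit 1413332),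 (nat_lit 1456866), (nat_lit 1456665)]⟩, (nat_lit 4643955), (nat_lit 43760065), (nat_lit 15508525), (nat_lit 7731410), (nat_lit 3), (nat_lit 0), [⟨(nat_lit 1), (nat_lit 83), (nat_lit 81), (nat_lit 100), (nat_lit 356432)⟩, ⟨(nat_lit 1), (nat_lit 68), (nat_lit 80), (nat_lit 100), (nat_lit 73460278)⟩], [], [], [],
 ⟨⟨[(nat_lit 40), (nat_lit 80), (nat_lit 100)], [(nat_lit 0), (nat_lit 0), (nat_lit 1280)], [((nat_lit 0), (nat_lit 0), (nat_lit 0)), ((nat_lit 0), (nat_lit 0), (nat_lit 0)), ((nat_lit 1000), (nat_lit 800), (nat_lit 600))], ((nat_lit 82), (nat_lit 100), (nat_lit 44))⟩, (nat_lit 482), (nat_lit 136), (nat_lit 136), (nat_lit 0), (nat_lit 174579), [(nat_lit 1470024103), (nat_lit 1794920018), (nat_lit 1157100000)], [(nat_lit 0), (nat_lit 0), (nat_lit 0)], [(nat_lit 19118401598), (nat_lit 19753394800), (nat_lit 25299696692), (nat_lit 25791679035), (nat_lit 20745212685), (nat_lit 21311229835), (nat_lit 26234142520), (nat_lit 26656275669)], (nat_lit 1271251),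 (nat_lit 1271251), (nat_lit 1271251), (nat_lit 1271251), (nat_lit 780000), (nat_lit 1435001), [(nat_lit 490000), (nat_lit 1100000), (nat_lit 1442501)], [(nat_lit 3), (nat_lit 50), (nat_lit 260), (nat_lit 50), (nat_lit 9)]⟩,
 ⟨⟨[(nat_lit 140), (nat_lit 160), (nat_lit 180)], [(nat_lit 0), (nat_lit 0), (nat_lit 799)], [((nat_lit 0), (nat_lit 0), (nat_lit 0)), ((nat_lit 0), (nat_lit 0), (nat_lit 0)), ((nat_lit 728), (nat_lit 1000), (nat_lit 454))], ((nat_lit 100), (nat_lit 71), (nat_lit 48))⟩, (nat_lit 239645), (nat_lit 1057), (nat_lit 1057), (nat_lit 0), (nat_lit 1447954), [(nat_lit 492100000), (nat_lit 593600000), (nat_lit 702900000)], [], [(nat_lit 2507975660), (nat_lit 2408109680), (nat_lit 2545029495), (nat_lit 2447799905), (nat_lit 3522460840), (nat_lit 4026515370), (nat_lit 2190148915), (nat_lit 2101430972)], (nat_lit 780000), (nat_lit 1271251), (nat_lit 1271251), (nat_lit 1271251), (nat_lit 0), (nat_lit 2825001), [(nat_lit 1977501), (nat_lit 1271251),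 (nat_lit 1271251)], [(nat_lit 31), (nat_lit 65), (nat_lit 483), (nat_lit 250), (nat_lit 11)]⟩,
 ⟨⟨[(nat_lit 140), (nat_lit 160), (nat_lit 180)], [(nat_lit 0), (nat_lit 0), (nat_lit 799)], [((nat_lit 0), (nat_lit 0), (nat_lit 0)), ((nat_lit 0), (nat_lit 0), (nat_lit 0)), ((nat_lit 728), (nat_lit 1000), (nat_lit 454))], ((nat_lit 100), (nat_lit 71), (nat_lit 48))⟩, (nat_lit 13179), (nat_lit 300), (nat_lit 1108), (nat_lit 1113000), (nat_lit 1450716), [(nat_lit 147630000), (nat_lit 178080000), (nat_lit 210870000)], [], [(nat_lit 912542312), (nat_lit 872585360), (nat_lit 853509746), (nat_lit 826343694), (nat_lit 1010147112), (nat_lit 1105358774), (nat_lit 1215519748), (nat_lit 1315130814)], (nat_lit 780000), (nat_lit 1100000), (nat_lit 780000), (nat_lit 1435001), (nat_lit 0), (nat_lit 2825001), [(nat_lit 1977501), (nat_lit 1271251), (nat_lit 1271251)], [(nat_lit 31), (nat_lit 65), (nat_lit 428), (nat_lit 200), (nat_lit 10)]⟩⟩) (.dle (nat_lit 0))) (.trX (nat_lit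 3) (nat_lit 0) (nat_lit 1) (nat_lit 76) (nat_lit 73) (nat_lit 100) (nat_lit 340) (.leaf ⟨(nat_lit 1000), (nat_lit 0), (nat_lit 0), (nat_lit 0), (nat_lit 1009), (nat_lit 3600), (nat_lit 0), (nat_lit 0), (nat_lit 0), (nat_lit 5825), (nat_lit 729600), [((nat_lit 340), [((nat_lit 37), (nat_lit 2), (nat_lit 676)), ((nat_lit 18), (nat_lit 2), (nat_lit 324))])], ⟨(nat_lit 5), false, false, true, (nat_lit 224), (nat_lit 3872), (nat_lit 4184), [(nat_lit 1413332), (nat_lit 1412825), (nat_lit 1478332), (nat_lit 1478205), (nat_lit 1645226), (nat_lit 1638651), (nat_lit 1710226), (nat_lit 1704031)]⟩, ⟨(nat_lit 3), false, false, true, (nat_lit 148), (nat_lit 3872), (nat_lit 4184), [(nat_lit 1280820), (nat_lit 1283782), (nat_lit 1324154), (nat_lit 1327369), (nat_lit 1413332), (nat_lit 1412825), (nat_lit 1456665), (nat_lit 1456412)]⟩, (nat_lit 4618403), (nat_lit 44120952), (nat_lit 15067716), (nat_lit 7811332), (nat_lit 0), (nat_lit 0), [⟨(nat_lit 1), (nat_lit 73), (nat_lit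 76), (nat_lit 100), (nat_lit 165675416)⟩], [], [], [],
 ⟨⟨[(nat_lit 40), (nat_lit 80), (nat_lit 100)], [(nat_lit 0), (nat_lit 395), (nat_lit 1536)], [((nat_lit 0), (nat_lit 0), (nat_lit 0)), ((nat_lit 1000), (nat_lit 908), (nat_lit 154)), ((nat_lit 1000), (nat_lit 760), (nat_lit 642))], ((nat_lit 77), (nat_lit 100), (nat_lit 52))⟩, (nat_lit 0), (nat_lit 159), (nat_lit 159), (nat_lit 0), (nat_lit 253270), [(nat_lit 1662336001), (nat_lit 1362835202), (nat_lit 632992000)], [(nat_lit 0), (nat_lit 0), (nat_lit 0)], [(nat_lit 20431046753), (nat_lit 20973391103), (nat_lit 25269571555), (nat_lit 25808175700), (nat_lit 21707257103), (nat_lit 22192697003), (nat_lit 26113441875), (nat_lit 26667651150)], (nat_lit 1271251), (nat_lit 1271251), (nat_lit 1271251), (nat_lit 1271251), (nat_lit 780000), (nat_lit 1435001), [(nat_lit 490000), (nat_lit 1100000), (nat_lit 1442501)], [(nat_lit 3), (nat_lit 50), (nat_lit 260), (nat_lit 50), (nat_lit 9)]⟩,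
 Rw.none,
 Rw.none⟩))) (.ord (.spl (nat_lit 6) (nat_lit 16) (.leaf ⟨(nat_lit 919), (nat_lit 27), (nat_lit 0), (nat_lit 54), (nat_lit 0), (nat_lit 3471), (nat_lit 935), (nat_lit 749), (nat_lit 0), (nat_lit 2650926066999), (nat_lit 772200), [((nat_lit 340), [((nat_lit 37), (nat_lit 2), (nat_lit 367)), ((nat_lit 18), (nat_lit 2), (nat_lit 552))])], ⟨(nat_lit 5), false, false, true, (nat_lit 237), (nat_lit 3872), (nat_lit 4473), [(nat_lit 1456866), (nat_lit 1456412), (nat_lit 1478432), (nat_lit 1478205), (nat_lit 1711784), (nat_lit 1698368), (nat_lit 1733350), (nat_lit 1720161)]⟩, ⟨(nat_lit 4), false, false, false, (nat_lit 160), (nat_lit 3872), (nat_lit 4473), [(nat_lit 1320909), (nat_lit 1327369), (nat_lit 1342475), (nat_lit 1349162), (nat_lit 1456866), (nat_lit 1456412), (nat_lit 1478432), (nat_lit 1478205)]⟩, (nat_lit 4822248), (nat_lit 42271674), (nat_lit 16059485), (nat_lit 8668841), (nat_lit 4), (nat_lit 0), [⟨(nat_lit 1), (nat_lit 77), (nat_lit 77),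 (nat_lit 100), (nat_lit 37641322)⟩], [], [], [],
 ⟨⟨[(nat_lit 40), (nat_lit 60), (nat_lit 80)], [(nat_lit 0), (nat_lit 0), (nat_lit 615)], [((nat_lit 0), (nat_lit 0), (nat_lit 0)), ((nat_lit 0), (nat_lit 0), (nat_lit 0)), ((nat_lit 1000), (nat_lit 819), (nat_lit 426))], ((nat_lit 82), (nat_lit 100), (nat_lit 40))⟩, (nat_lit 3496), (nat_lit 120), (nat_lit 120), (nat_lit 0), (nat_lit 180489), [(nat_lit 1415957306), (nat_lit 1723131295), (nat_lit 1337853305)], [(nat_lit 0), (nat_lit 0), (nat_lit 0)], [(nat_lit 19420122151), (nat_lit 20616081186), (nat_lit 25270307161), (nat_lit 26269812443), (nat_lit 20982146749), (nat_lit 22050345710), (nat_lit 26256915287), (nat_lit 27099078080)], (nat_lit 1271251), (nat_lit 1271251), (nat_lit 1271251), (nat_lit 1271251), (nat_lit 780000), (nat_lit 1435001), [(nat_lit 490000), (nat_lit 780000), (nat_lit 1100000)], [(nat_lit 2), (nat_lit 44), (nat_lit 260), (nat_lit 50), (nat_lit 10)]⟩,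
 ⟨⟨[(nat_lit 120), (nat_lit 140), (nat_lit 160)], [(nat_lit 0), (nat_lit 0), (nat_lit 609)], [((nat_lit 0), (nat_lit 0), (nat_lit 0)), ((nat_lit 0), (nat_lit 0), (nat_lit 0)), ((nat_lit 840), (nat_lit 1000), (nat_lit 400))], ((nat_lit 100), (nat_lit 84), (nat_lit 40))⟩, (nat_lit 483272), (nat_lit 698), (nat_lit 698), (nat_lit 0), (nat_lit 861965), [(nat_lit 645408000), (nat_lit 797202000), (nat_lit 961632000)], [], [(nat_lit 3127466424), (nat_lit 3119688592), (nat_lit 3335120761), (nat_lit 3323814398), (nat_lit 5156874146), (nat_lit 5442685500), (nat_lit 3337751807), (nat_lit 3331029275)], (nat_lit 1100000), (nat_lit 1271251), (nat_lit 1271251), (nat_lit 1271251), (nat_lit 0), (nat_lit 2825001), [(nat_lit 1695001), (nat_lit 1271251), (nat_lit 1271251)], [(nat_lit 27), (nat_lit 62), (nat_lit 483), (nat_lit 250), (nat_lit 12)]⟩,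
 ⟨⟨[(nat_lit 120), (nat_lit 140), (nat_lit 160)], [(nat_lit 0), (nat_lit 0), (nat_lit 609)], [((nat_lit 0), (nat_lit 0), (nat_lit 0)), ((nat_lit 0), (nat_lit 0), (nat_lit 0)), ((nat_lit 840), (nat_lit 1000), (nat_lit 400))], ((nat_lit 100), (nat_lit 84), (nat_lit 40))⟩, (nat_lit 55330), (nat_lit 300), (nat_lit 732), (nat_lit 3796201), (nat_lit 861965), [(nat_lit 430272000), (nat_lit 531468000), (nat_lit 641088000)], [], [(nat_lit 2389212350), (nat_lit 2382362224), (nat_lit 2271877452), (nat_lit 2350206924), (nat_lit 3374772080), (nat_lit 3587794149), (nat_lit 4130490718), (nat_lit 4351988096)], (nat_lit 1100000), (nat_lit 1271251), (nat_lit 780000), (nat_lit 1435001), (nat_lit 0), (nat_lit 2825001), [(nat_lit 1695001), (nat_lit 1271251), (nat_lit 1271251)], [(nat_lit 27), (nat_lit 62), (nat_lit 428), (nat_lit 200), (nat_lit 11)]⟩⟩) (.dle (nat_lit 0)))))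
noncomputable def c10_25 : Tr Lf :=
 (.trX (nat_lit 5) (nat_lit 3) (nat_lit 4) (nat_lit 100) (nat_lit 40) (nat_lit 92) (nat_lit 390) (.spl (nat_lit 5) (nat_lit 200) (.spl (nat_lit 1) (nat_lit 220) (.ord (.spl (nat_lit 6) (nat_lit 28) (.spl (nat_lit 4) (nat_lit 80) (.leaf ⟨(nat_lit 911), (nat_lit 89), (nat_lit 0), (nat_lit 0), (nat_lit 2346), (nat_lit 4132), (nat_lit 1020), (nat_lit 0), (nat_lit 0), (nat_lit 78067), (nat_lit 838200), [((nat_lit 340), [((nat_lit 37), (nat_lit 2), (nat_lit 182)), ((nat_lit 18), (nat_lit 2), (nat_lit 729))])], ⟨(nat_lit 5), false, true, true, (nat_lit 226), (nat_lit 3872), (nat_lit 4473), [(nat_lit 1478432), (nat_lit 1478205), (nat_lit 1521548), (nat_lit 1521775), (nat_lit 1614388), (nat_lit 1607248), (nat_lit 1657518), (nat_lit 1650831)]⟩, ⟨(nat_lit 3), false, false, false, (nat_lit 81), (nat_lit 3872), (nat_lit 4473), [(nat_lit 1073842), (nat_lit 1090218), (nat_lit 1181619), (nat_lit 1199128), (nat_lit 1209798), (nat_lit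 1219261), (nat_lit 1317591), (nat_lit 1328187)]⟩, (nat_lit 3835871), (nat_lit 47821222), (nat_lit 15952816), (nat_lit 3225962), (nat_lit 3), (nat_lit 0), [], [⟨(nat_lit 0), (nat_lit 100), (nat_lit 77), (nat_lit 53), (nat_lit 83283295)⟩, ⟨(nat_lit 0), (nat_lit 100), (nat_lit 72), (nat_lit 77), (nat_lit 203021318)⟩], [], [],
 ⟨⟨[(nat_lit 40), (nat_lit 80), (nat_lit 100)], [(nat_lit 0), (nat_lit 0), (nat_lit 1280)], [((nat_lit 0), (nat_lit 0), (nat_lit 0)), ((nat_lit 0), (nat_lit 0), (nat_lit 0)), ((nat_lit 1000), (nat_lit 800), (nat_lit 600))], ((nat_lit 80), (nat_lit 100), (nat_lit 51))⟩, (nat_lit 0), (nat_lit 221), (nat_lit 221), (nat_lit 0), (nat_lit 238057), [(nat_lit 1732214717), (nat_lit 1429518889), (nat_lit 442238800)], [(nat_lit 0), (nat_lit 0), (nat_lit 0)], [(nat_lit 20011184552), (nat_lit 22046389086), (nat_lit 24181138216), (nat_lit 25885224544), (nat_lit 18190376863), (nat_lit 19489166580), (nat_lit 21221605312), (nat_lit 22809270490)], (nat_lit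 1271251), (nat_lit 1271251), (nat_lit 1271251), (nat_lit 1271251), (nat_lit 0), (nat_lit 490000), [(nat_lit 490000), (nat_lit 1100000), (nat_lit 1442501)], [(nat_lit 3), (nat_lit 50), (nat_lit 226), (nat_lit 20), (nat_lit 8)]⟩,
 ⟨⟨[(nat_lit 120), (nat_lit 140), (nat_lit 160)], [(nat_lit 0), (nat_lit 266), (nat_lit 862)], [((nat_lit 0), (nat_lit 0), (nat_lit 0)), ((nat_lit 960), (nat_lit 1000), (nat_lit 200)), ((nat_lit 874), (nat_lit 1000), (nat_lit 406))], ((nat_lit 100), (nat_lit 81), (nat_lit 51))⟩, (nat_lit 664896), (nat_lit 715), (nat_lit 715), (nat_lit 0), (nat_lit 915272), [(nat_lit 709152000), (nat_lit 875938000), (nat_lit 1056608000)], [], [(nat_lit 3067908994), (nat_lit 2734917081), (nat_lit 2865989464), (nat_lit 2869021739), (nat_lit 4361305505), (nat_lit 3406115795), (nat_lit 2463450155), (nat_lit 2055439731)], (nat_lit 1271251), (nat_lit 1271251), (nat_lit 1271251), (nat_lit 1271251), (nat_lit 0), (nat_lit 1412501), [(nat_lit 1695001), (nat_lit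 1271251), (nat_lit 1271251)], [(nat_lit 27), (nat_lit 62), (nat_lit 401), (nat_lit 175), (nat_lit 10)]⟩,
 Rw.none⟩) (.leaf ⟨(nat_lit 889), (nat_lit 111), (nat_lit 0), (nat_lit 0), (nat_lit 365), (nat_lit 4012), (nat_lit 1226), (nat_lit 0), (nat_lit 0), (nat_lit 6111254121289), (nat_lit 739400), [((nat_lit 340), [((nat_lit 37), (nat_lit 2), (nat_lit 374)), ((nat_lit 18), (nat_lit 2), (nat_lit 515))])], ⟨(nat_lit 5), false, true, true, (nat_lit 226), (nat_lit 3872), (nat_lit 4473), [(nat_lit 1478432), (nat_lit 1478205), (nat_lit 1521548), (nat_lit 1521775), (nat_lit 1614388), (nat_lit 1607248), (nat_lit 1657518), (nat_lit 1650831)]⟩, ⟨(nat_lit 3), false, false, false, (nat_lit 121), (nat_lit 3872), (nat_lit 4473), [(nat_lit 1209798), (nat_lit 1219261), (nat_lit 1317591), (nat_lit 1328187), (nat_lit 1277776), (nat_lit 1283782), (nat_lit 1385576), (nat_lit 1392716)]⟩, (nat_lit 4338870), (nat_lit 45581166), (nat_lit 15604798), (nat_lit 5814036), (nat_lit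 3), (nat_lit 0), [], [], [], [],
 ⟨⟨[(nat_lit 40), (nat_lit 80), (nat_lit 100)], [(nat_lit 0), (nat_lit 0), (nat_lit 1280)], [((nat_lit 0), (nat_lit 0), (nat_lit 0)), ((nat_lit 0), (nat_lit 0), (nat_lit 0)), ((nat_lit 1000), (nat_lit 800), (nat_lit 600))], ((nat_lit 80), (nat_lit 100), (nat_lit 51))⟩, (nat_lit 0), (nat_lit 149), (nat_lit 149), (nat_lit 0), (nat_lit 238057), [(nat_lit 1547914202), (nat_lit 1776739404), (nat_lit 895153200)], [(nat_lit 0), (nat_lit 0), (nat_lit 0)], [(nat_lit 17897593648), (nat_lit 19402155266), (nat_lit 21192770400), (nat_lit 22695104590), (nat_lit 18272480336), (nat_lit 19702206481), (nat_lit 21412555512), (nat_lit 22829202130)], (nat_lit 1271251), (nat_lit 1271251), (nat_lit 1271251), (nat_lit 1271251), (nat_lit 490000), (nat_lit 780000), [(nat_lit 490000), (nat_lit 1100000), (nat_lit 1442501)], [(nat_lit 3), (nat_lit 50), (nat_lit 238), (nat_lit 30), (nat_lit 8)]⟩,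
 ⟨⟨[(nat_lit 120), (nat_lit 140), (nat_lit 160)], [(nat_lit 0), (nat_lit 266), (nat_lit 862)], [((nat_lit 0), (nat_lit 0), (nat_lit 0)), ((nat_lit 960), (nat_lit 1000), (nat_lit 200)), ((nat_lit 874), (nat_lit 1000), (nat_lit 406))], ((nat_lit 100), (nat_lit 81), (nat_lit 51))⟩, (nat_lit 653609), (nat_lit 715), (nat_lit 715), (nat_lit 0), (nat_lit 915272), [(nat_lit 884448000), (nat_lit 1092462000), (nat_lit 1317792000)], [], [(nat_lit 3839452679), (nat_lit 3728124007), (nat_lit 3814891740), (nat_lit 3809498127), (nat_lit 5416808600), (nat_lit 4268708027), (nat_lit 3135660895), (nat_lit 2828823712)], (nat_lit 1271251), (nat_lit 1271251), (nat_lit 1271251), (nat_lit 1271251), (nat_lit 0), (nat_lit 1412501), [(nat_lit 1695001), (nat_lit 1271251), (nat_lit 1271251)], [(nat_lit 27), (nat_lit 62), (nat_lit 401), (nat_lit 175), (nat_lit 10)]⟩,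
 Rw.none⟩)) (.dle (nat_lit 0)))) (.spl (nat_lit 2) (nat_lit 180) (.leaf ⟨(nat_lit 556), (nat_lit 444), (nat_lit 0), (nat_lit 0), (nat_lit 0), (nat_lit 4475), (nat_lit 3622), (nat_lit 0), (nat_lit 0), (nat_lit 0), (nat_lit 829000), [((nat_lit 340), [((nat_lit 18), (nat_lit 2), (nat_lit 465)), ((nat_lit 37), (nat_lit 5), (nat_lit 91))])], ⟨(nat_lit 5), false, true, true, (nat_lit 239), (nat_lit 3872), (nat_lit 4473), [(nat_lit 1521548), (nat_lit 1521775), (nat_lit 1543097), (nat_lit 1543551), (nat_lit 1657518), (nat_lit 1650831), (nat_lit 1679069), (nat_lit 1672609)]⟩, ⟨(nat_lit 3), false, false, false, (nat_lit 86), (nat_lit 3872), (nat_lit 4473), [(nat_lit 1073842), (nat_lit 1090218), (nat_lit 1138518), (nat_lit 1155575), (nat_lit 1277776), (nat_lit 1283782), (nat_lit 1342475), (nat_lit 1349162)]⟩, (nat_lit 3993895), (nat_lit 46310589), (nat_lit 17228183), (nat_lit 3461228), (nat_lit 3), (nat_lit 0), [], [⟨(nat_lit 0), (nat_lit 100), (nat_lit 72), (nat_lit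 63), (nat_lit 11114981)⟩], [], [],
 ⟨⟨[(nat_lit 40), (nat_lit 80), (nat_lit 100)], [(nat_lit 0), (nat_lit 0), (nat_lit 1280)], [((nat_lit 0), (nat_lit 0), (nat_lit 0)), ((nat_lit 0), (nat_lit 0), (nat_lit 0)), ((nat_lit 1000), (nat_lit 800), (nat_lit 600))], ((nat_lit 80), (nat_lit 100), (nat_lit 57))⟩, (nat_lit 0), (nat_lit 236), (nat_lit 236), (nat_lit 0), (nat_lit 288941), [(nat_lit 1828856022), (nat_lit 2340148801), (nat_lit 1448774800)], [(nat_lit 0), (nat_lit 0), (nat_lit 0)], [(nat_lit 21236183545), (nat_lit 22618207988), (nat_lit 24781778550), (nat_lit 26563006950), (nat_lit 20157385296), (nat_lit 21357534634), (nat_lit 22832319371), (nat_lit 23865889996)], (nat_lit 1271251), (nat_lit 1271251), (nat_lit 1271251), (nat_lit 1271251), (nat_lit 0), (nat_lit 780000), [(nat_lit 490000), (nat_lit 1100000), (nat_lit 1442501)], [(nat_lit 3), (nat_lit 50), (nat_lit 238), (nat_lit 30), (nat_lit 8)]⟩,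
 ⟨⟨[(nat_lit 100), (nat_lit 140), (nat_lit 160)], [(nat_lit 0), (nat_lit 508), (nat_lit 1689)], [((nat_lit 0), (nat_lit 0), (nat_lit 0)), ((nat_lit 1000), (nat_lit 1000), (nat_lit 198)), ((nat_lit 811), (nat_lit 1000), (nat_lit 671))], ((nat_lit 100), (nat_lit 88), (nat_lit 58))⟩, (nat_lit 2633599), (nat_lit 617), (nat_lit 617), (nat_lit 0), (nat_lit 757268), [(nat_lit 2775000000), (nat_lit 4369848000), (nat_lit 5271168000)], [], [(nat_lit 16000108503), (nat_lit 16017827464), (nat_lit 16272083047), (nat_lit 16257470000), (nat_lit 13764130559), (nat_lit 13746683016), (nat_lit 13875330429), (nat_lit 13832801148)], (nat_lit 1271251), (nat_lit 1271251), (nat_lit 1271251), (nat_lit 1271251), (nat_lit 0), (nat_lit 1412501), [(nat_lit 1412501), (nat_lit 1271251), (nat_lit 1271251)], [(nat_lit 23), (nat_lit 62), (nat_lit 428), (nat_lit 200), (nat_lit 11)]⟩,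
 Rw.none⟩) (.trZ (nat_lit 0) (nat_lit 2) (nat_lit 4) (nat_lit 100) (nat_lit 80) (nat_lit 52) (nat_lit 20) (.leaf ⟨(nat_lit 644), (nat_lit 302), (nat_lit 0), (nat_lit 54), (nat_lit 0), (nat_lit 4724), (nat_lit 3178), (nat_lit 687), (nat_lit 0), (nat_lit 2559296245540), (nat_lit 881000), [((nat_lit 340), [((nat_lit 18), (nat_lit 2), (nat_lit 565)), ((nat_lit 37), (nat_lit 5), (nat_lit 79))])], ⟨(nat_lit 5), false, true, true, (nat_lit 239), (nat_lit 3872), (nat_lit 4473), [(nat_lit 1521548), (nat_lit 1521775), (nat_lit 1543097), (nat_lit 1543551), (nat_lit 1657518), (nat_lit 1650831), (nat_lit 1679069), (nat_lit 1672609)]⟩, ⟨(nat_lit 4), false, false, false, (nat_lit 118), (nat_lit 3872), (nat_lit 4473), [(nat_lit 1172511), (nat_lit 1187839), (nat_lit 1237161), (nat_lit 1253169), (nat_lit 1342475), (nat_lit 1349162), (nat_lit 1407125), (nat_lit 1414492)]⟩, (nat_lit 4397094), (nat_lit 44550128), (nat_lit 16886165), (nat_lit 5563707), (nat_lit 4), (nat_lit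 0), [], [⟨(nat_lit 0), (nat_lit 100), (nat_lit 76), (nat_lit 69), (nat_lit 265798774)⟩], [], [],
 ⟨⟨[(nat_lit 40), (nat_lit 80), (nat_lit 100)], [(nat_lit 0), (nat_lit 0), (nat_lit 1280)], [((nat_lit 0), (nat_lit 0), (nat_lit 0)), ((nat_lit 0), (nat_lit 0), (nat_lit 0)), ((nat_lit 1000), (nat_lit 800), (nat_lit 600))], ((nat_lit 80), (nat_lit 100), (nat_lit 57))⟩, (nat_lit 1937), (nat_lit 210), (nat_lit 210), (nat_lit 0), (nat_lit 248575), [(nat_lit 2021042855), (nat_lit 1848064357), (nat_lit 1002165200)], [(nat_lit 0), (nat_lit 0), (nat_lit 0)], [(nat_lit 19951285080), (nat_lit 22127272376), (nat_lit 24319035234), (nat_lit 26134403289), (nat_lit 18359022500), (nat_lit 19595868452), (nat_lit 21712474412), (nat_lit 23375343510)], (nat_lit 1271251), (nat_lit 1271251), (nat_lit 1271251), (nat_lit 1271251), (nat_lit 111251), (nat_lit 780000), [(nat_lit 490000), (nat_lit 1100000), (nat_lit 1442501)], [(nat_lit 3), (nat_lit 50), (nat_lit 238), (nat_lit 30),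 (nat_lit 8)]⟩,
 ⟨⟨[(nat_lit 100), (nat_lit 140), (nat_lit 160)], [(nat_lit 0), (nat_lit 508), (nat_lit 1689)], [((nat_lit 0), (nat_lit 0), (nat_lit 0)), ((nat_lit 1000), (nat_lit 1000), (nat_lit 198)), ((nat_lit 811), (nat_lit 1000), (nat_lit 671))], ((nat_lit 100), (nat_lit 88), (nat_lit 58))⟩, (nat_lit 3286272), (nat_lit 655), (nat_lit 655), (nat_lit 0), (nat_lit 805678), [(nat_lit 2225000000), (nat_lit 3503752000), (nat_lit 4226432000)], [], [(nat_lit 9991452577), (nat_lit 10027896572), (nat_lit 10371613223), (nat_lit 10407805024), (nat_lit 10811176041), (nat_lit 9281879538), (nat_lit 8572347214), (nat_lit 8603593980)], (nat_lit 1271251), (nat_lit 1271251), (nat_lit 1271251), (nat_lit 1271251), (nat_lit 0), (nat_lit 1412501), [(nat_lit 1412501), (nat_lit 1271251), (nat_lit 1271251)], [(nat_lit 23), (nat_lit 62), (nat_lit 428), (nat_lit 200), (nat_lit 11)]⟩,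
 ⟨⟨[(nat_lit 120), (nat_lit 160), (nat_lit 180)], [(nat_lit 0), (nat_lit 533), (nat_lit 2066)], [((nat_lit 0), (nat_lit 0), (nat_lit 0)), ((nat_lit 960), (nat_lit 1000), (nat_lit 200)), ((nat_lit 615), (nat_lit 1000), (nat_lit 729))], ((nat_lit 100), (nat_lit 76), (nat_lit 58))⟩, (nat_lit 126439), (nat_lit 300), (nat_lit 775), (nat_lit 3585601), (nat_lit 608394), [(nat_lit 430272000), (nat_lit 641088000), (nat_lit 759132000)], [], [(nat_lit 3733841325), (nat_lit 3395513260), (nat_lit 2913674699), (nat_lit 2852880486), (nat_lit 2650058752), (nat_lit 2582196971), (nat_lit 2536903487), (nat_lit 2155690128)], (nat_lit 1271251), (nat_lit 1271251), (nat_lit 111251), (nat_lit 780000), (nat_lit 0), (nat_lit 1412501), [(nat_lit 1695001), (nat_lit 1271251), (nat_lit 1271251)], [(nat_lit 28), (nat_lit 65), (nat_lit 373), (nat_lit 150), (nat_lit 9)]⟩⟩)))) (.spl (nat_lit 1) (nat_lit 220) (.ord (.spl (nat_lit 6) (nat_lit 28) (.leaf ⟨(nat_lit 844), (nat_lit 68), (nat_lit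 0), (nat_lit 88), (nat_lit 0), (nat_lit 3677), (nat_lit 1701), (nat_lit 1110), (nat_lit 0), (nat_lit 618388), (nat_lit 768000), [((nat_lit 340), [((nat_lit 37), (nat_lit 2), (nat_lit 190)), ((nat_lit 18), (nat_lit 2), (nat_lit 654))])], ⟨(nat_lit 5), false, true, true, (nat_lit 226), (nat_lit 3872), (nat_lit 4473), [(nat_lit 1478432), (nat_lit 1478205), (nat_lit 1521548), (nat_lit 1521775), (nat_lit 1614388), (nat_lit 1607248), (nat_lit 1657518), (nat_lit 1650831)]⟩, ⟨(nat_lit 3), false, false, false, (nat_lit 94), (nat_lit 3872), (nat_lit 4473), [(nat_lit 1073842), (nat_lit 1090218), (nat_lit 1181619), (nat_lit 1199128), (nat_lit 1277776), (nat_lit 1283782), (nat_lit 1385576), (nat_lit 1392716)]⟩, (nat_lit 4011438), (nat_lit 47110108), (nat_lit 15851422), (nat_lit 4038470), (nat_lit 5), (nat_lit 0), [], [⟨(nat_lit 0), (nat_lit 100), (nat_lit 77), (nat_lit 53), (nat_lit 171319346)⟩, ⟨(nat_lit 0), (nat_lit 100), (nat_lit 72), (nat_lit 77), (nat_lit 4293402)⟩],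 [], [⟨(nat_lit 1), (nat_lit 90), (nat_lit 100), (nat_lit 65), (nat_lit 12711808)⟩],
 ⟨⟨[(nat_lit 40), (nat_lit 80), (nat_lit 100)], [(nat_lit 0), (nat_lit 0), (nat_lit 1280)], [((nat_lit 0), (nat_lit 0), (nat_lit 0)), ((nat_lit 0), (nat_lit 0), (nat_lit 0)), ((nat_lit 1000), (nat_lit 800), (nat_lit 600))], ((nat_lit 80), (nat_lit 100), (nat_lit 51))⟩, (nat_lit 0), (nat_lit 221), (nat_lit 221), (nat_lit 0), (nat_lit 238057), [(nat_lit 1695579615), (nat_lit 1725169239), (nat_lit 903419200)], [(nat_lit 0), (nat_lit 0), (nat_lit 0)], [(nat_lit 21065036894), (nat_lit 22287866793), (nat_lit 23845607682), (nat_lit 24986125434), (nat_lit 20366981408), (nat_lit 21462093271), (nat_lit 22949329567), (nat_lit 23956491491)], (nat_lit 1271251), (nat_lit 1271251), (nat_lit 1271251), (nat_lit 1271251), (nat_lit 0), (nat_lit 780000), [(nat_lit 490000), (nat_lit 1100000), (nat_lit 1442501)], [(nat_lit 3), (nat_lit 50), (nat_lit 238), (nat_lit 30), (nat_lit 8)]⟩,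
 ⟨⟨[(nat_lit 120), (nat_lit 140), (nat_lit 160)], [(nat_lit 0), (nat_lit 266), (nat_lit 862)], [((nat_lit 0), (nat_lit 0), (nat_lit 0)), ((nat_lit 960), (nat_lit 1000), (nat_lit 200)), ((nat_lit 874), (nat_lit 1000), (nat_lit 406))], ((nat_lit 100), (nat_lit 81), (nat_lit 51))⟩, (nat_lit 1473284), (nat_lit 576), (nat_lit 576), (nat_lit 0), (nat_lit 915272), [(nat_lit 1243008000), (nat_lit 1535352000), (nat_lit 1852032000)], [], [(nat_lit 3503988353), (nat_lit 3490934846), (nat_lit 3622941287), (nat_lit 3607350143), (nat_lit 4761768603), (nat_lit 4897741803), (nat_lit 5303810007), (nat_lit 5372898558)], (nat_lit 1271251), (nat_lit 1271251), (nat_lit 1271251), (nat_lit 1271251), (nat_lit 1271251), (nat_lit 1271251), [(nat_lit 1695001), (nat_lit 1271251), (nat_lit 1271251)], [(nat_lit 27), (nat_lit 62), (nat_lit 456), (nat_lit 225), (nat_lit 11)]⟩,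
 ⟨⟨[(nat_lit 140), (nat_lit 180), (nat_lit 200)], [(nat_lit 0), (nat_lit 0), (nat_lit 2835)], [((nat_lit 0), (nat_lit 0), (nat_lit 0)), ((nat_lit 0), (nat_lit 0), (nat_lit 0)), ((nat_lit 363), (nat_lit 1000), (nat_lit 798))], ((nat_lit 0), (nat_lit 0), (nat_lit 0))⟩, (nat_lit 24212), (nat_lit 300), (nat_lit 1060), (nat_lit 6872800), (nat_lit 1286831), [(nat_lit 866096000), (nat_lit 1237104000), (nat_lit 1443200000)], [], [(nat_lit 6112728260), (nat_lit 5761664302), (nat_lit 5253080480), (nat_lit 4898211866), (nat_lit 6058113697), (nat_lit 5694058009), (nat_lit 5081019855), (nat_lit 4689856007)], (nat_lit 780000), (nat_lit 1598751), (nat_lit 0), (nat_lit 780000), (nat_lit 1271251), (nat_lit 1271251), [(nat_lit 1977501), (nat_lit 1271251), (nat_lit 1271251)], [(nat_lit 32), (nat_lit 67), (nat_lit 428), (nat_lit 200), (nat_lit 9)]⟩⟩) (.dle (nat_lit 0)))) (.leaf ⟨(nat_lit 545), (nat_lit 308), (nat_lit 0), (nat_lit 147), (nat_lit 0), (nat_lit 4813), (nat_lit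 3812), (nat_lit 1842), (nat_lit 0), (nat_lit 247423), (nat_lit 1040000), [((nat_lit 340), [((nat_lit 18), (nat_lit 2), (nat_lit 380)), ((nat_lit 37), (nat_lit 5), (nat_lit 165))])], ⟨(nat_lit 5), false, true, true, (nat_lit 239), (nat_lit 3872), (nat_lit 4473), [(nat_lit 1521548), (nat_lit 1521775), (nat_lit 1543097), (nat_lit 1543551), (nat_lit 1657518), (nat_lit 1650831), (nat_lit 1679069), (nat_lit 1672609)]⟩, ⟨(nat_lit 3), false, false, false, (nat_lit 99), (nat_lit 3872), (nat_lit 4473), [(nat_lit 1073842), (nat_lit 1090218), (nat_lit 1203168), (nat_lit 1220904), (nat_lit 1277776), (nat_lit 1283782), (nat_lit 1407125), (nat_lit 1414492)]⟩, (nat_lit 4160342), (nat_lit 45633158), (nat_lit 17102686), (nat_lit 4264156), (nat_lit 5), (nat_lit 0), [], [⟨(nat_lit 0), (nat_lit 100), (nat_lit 76), (nat_lit 57), (nat_lit 288526227)⟩], [], [⟨(nat_lit 1), (nat_lit 85), (nat_lit 100), (nat_lit 73), (nat_lit 33070884)⟩, ⟨(nat_lit 1), (nat_lit 90), (nat_lit 100),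 (nat_lit 65), (nat_lit 22294004)⟩],
 ⟨⟨[(nat_lit 40), (nat_lit 80), (nat_lit 100)], [(nat_lit 0), (nat_lit 0), (nat_lit 1280)], [((nat_lit 0), (nat_lit 0), (nat_lit 0)), ((nat_lit 0), (nat_lit 0), (nat_lit 0)), ((nat_lit 1000), (nat_lit 800), (nat_lit 600))], ((nat_lit 80), (nat_lit 100), (nat_lit 57))⟩, (nat_lit 0), (nat_lit 236), (nat_lit 236), (nat_lit 0), (nat_lit 288941), [(nat_lit 2015105824), (nat_lit 1974002234), (nat_lit 644316000)], [(nat_lit 0), (nat_lit 0), (nat_lit 0)], [(nat_lit 20951772218), (nat_lit 23181691337), (nat_lit 25373663194), (nat_lit 27230909146), (nat_lit 18775498018), (nat_lit 20021590513), (nat_lit 21763049819), (nat_lit 23443611183)], (nat_lit 1271251), (nat_lit 1271251), (nat_lit 1271251), (nat_lit 1271251), (nat_lit 0), (nat_lit 780000), [(nat_lit 490000), (nat_lit 1100000), (nat_lit 1442501)], [(nat_lit 3), (nat_lit 50), (nat_lit 238), (nat_lit 30), (nat_lit 8)]⟩,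
 ⟨⟨[(nat_lit 100), (nat_lit 140), (nat_lit 160)], [(nat_lit 0), (nat_lit 508), (nat_lit 1689)], [((nat_lit 0), (nat_lit 0), (nat_lit 0)), ((nat_lit 1000), (nat_lit 1000), (nat_lit 198)), ((nat_lit 811), (nat_lit 1000), (nat_lit 671))], ((nat_lit 100), (nat_lit 88), (nat_lit 58))⟩, (nat_lit 4480465), (nat_lit 519), (nat_lit 519), (nat_lit 0), (nat_lit 813976), [(nat_lit 2843750000), (nat_lit 4478110000), (nat_lit 5401760000)], [], [(nat_lit 10704765579), (nat_lit 10804786712), (nat_lit 11331352083), (nat_lit 11431730578), (nat_lit 13264631389), (nat_lit 13470014128), (nat_lit 14551554962), (nat_lit 14679580012)], (nat_lit 1271251), (nat_lit 1271251), (nat_lit 1271251), (nat_lit 1271251), (nat_lit 1271251), (nat_lit 1271251), [(nat_lit 1412501), (nat_lit 1271251), (nat_lit 1271251)], [(nat_lit 23), (nat_lit 62), (nat_lit 483), (nat_lit 250), (nat_lit 12)]⟩,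
 ⟨⟨[(nat_lit 140), (nat_lit 180), (nat_lit 200)], [(nat_lit 0), (nat_lit 0), (nat_lit 2835)], [((nat_lit 0), (nat_lit 0), (nat_lit 0)), ((nat_lit 0), (nat_lit 0), (nat_lit 0)), ((nat_lit 363), (nat_lit 1000), (nat_lit 798))], ((nat_lit 0), (nat_lit 0), (nat_lit 0))⟩, (nat_lit 40445), (nat_lit 300), (nat_lit 1203), (nat_lit 11480700), (nat_lit 1604096), [(nat_lit 1446774000), (nat_lit 2066526000), (nat_lit 2410800000)], [], [(nat_lit 10244918748), (nat_lit 9550581666), (nat_lit 8819608389), (nat_lit 8615320224), (nat_lit 10115354963), (nat_lit 9420867963), (nat_lit 8516509409), (nat_lit 7759558456)], (nat_lit 780000), (nat_lit 1762501), (nat_lit 0), (nat_lit 780000), (nat_lit 1271251), (nat_lit 1271251), [(nat_lit 1977501), (nat_lit 1271251), (nat_lit 1271251)], [(nat_lit 32), (nat_lit 67), (nat_lit 428), (nat_lit 200), (nat_lit 9)]⟩⟩))))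
noncomputable def c10_26 : Tr Lf :=
 (.spl (nat_lit 2) (nat_lit 180) (.spl (nat_lit 1) (nat_lit 220) (.spl (nat_lit 6) (nat_lit 28) (.leaf ⟨(nat_lit 949), (nat_lit 27), (nat_lit 0), (nat_lit 24), (nat_lit 0), (nat_lit 3993), (nat_lit 608), (nat_lit 304), (nat_lit 0), (nat_lit 0), (nat_lit 777000), [((nat_lit 340), [((nat_lit 37), (nat_lit 2), (nat_lit 430)), ((nat_lit 18), (nat_lit 2), (nat_lit 519))])], ⟨(nat_lit 5), false, true, true, (nat_lit 226), (nat_lit 3872), (nat_lit 4473), [(nat_lit 1478432), (nat_lit 1478205), (nat_lit 1521548), (nat_lit 1521775), (nat_lit 1614388), (nat_lit 1607248), (nat_lit 1657518), (nat_lit 1650831)]⟩, ⟨(nat_lit 3), false, false, true, (nat_lit 152), (nat_lit 3872), (nat_lit 4473), [(nat_lit 1277776), (nat_lit 1283782), (nat_lit 1342475), (nat_lit 1349162), (nat_lit 1413733), (nat_lit 1412825), (nat_lit 1478432), (nat_lit 1478205)]⟩, (nat_lit 4675779), (nat_lit 43656277), (nat_lit 15244172), (nat_lit 8099551), (nat_lit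 3), (nat_lit 0), [], [], [], [],
 ⟨⟨[(nat_lit 40), (nat_lit 80), (nat_lit 100)], [(nat_lit 0), (nat_lit 0), (nat_lit 1280)], [((nat_lit 0), (nat_lit 0), (nat_lit 0)), ((nat_lit 0), (nat_lit 0), (nat_lit 0)), ((nat_lit 1000), (nat_lit 800), (nat_lit 600))], ((nat_lit 80), (nat_lit 100), (nat_lit 51))⟩, (nat_lit 0), (nat_lit 156), (nat_lit 156), (nat_lit 0), (nat_lit 298786), [(nat_lit 1731064505), (nat_lit 1387608598), (nat_lit 582713200)], [(nat_lit 0), (nat_lit 0), (nat_lit 0)], [(nat_lit 18973792289), (nat_lit 20111679729), (nat_lit 21595394767), (nat_lit 22814628133), (nat_lit 20263297318), (nat_lit 21342479073), (nat_lit 22682529554), (nat_lit 23957841570)], (nat_lit 1271251), (nat_lit 1271251), (nat_lit 1271251), (nat_lit 1271251), (nat_lit 780000), (nat_lit 1435001), [(nat_lit 490000), (nat_lit 1100000), (nat_lit 1442501)], [(nat_lit 3), (nat_lit 50), (nat_lit 260), (nat_lit 50), (nat_lit 9)]⟩,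
 ⟨⟨[(nat_lit 120), (nat_lit 140), (nat_lit 160)], [(nat_lit 0), (nat_lit 266), (nat_lit 862)], [((nat_lit 0), (nat_lit 0), (nat_lit 0)), ((nat_lit 960), (nat_lit 1000), (nat_lit 200)), ((nat_lit 874), (nat_lit 1000), (nat_lit 406))], ((nat_lit 100), (nat_lit 81), (nat_lit 51))⟩, (nat_lit 408232), (nat_lit 708), (nat_lit 708), (nat_lit 0), (nat_lit 900026), [(nat_lit 406368000), (nat_lit 501942000), (nat_lit 605472000)], [], [(nat_lit 1751297960), (nat_lit 1499498344), (nat_lit 1576761600), (nat_lit 1604175075), (nat_lit 3457212612), (nat_lit 2923794756), (nat_lit 2396904996), (nat_lit 1876543332)], (nat_lit 1271251), (nat_lit 1271251), (nat_lit 1271251), (nat_lit 1271251), (nat_lit 0), (nat_lit 2825001), [(nat_lit 1695001), (nat_lit 1271251), (nat_lit 1271251)], [(nat_lit 27), (nat_lit 62), (nat_lit 456), (nat_lit 225), (nat_lit 12)]⟩,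
 ⟨⟨[(nat_lit 140), (nat_lit 180), (nat_lit 200)], [(nat_lit 0), (nat_lit 0), (nat_lit 2835)], [((nat_lit 0), (nat_lit 0), (nat_lit 0)), ((nat_lit 0), (nat_lit 0), (nat_lit 0)), ((nat_lit 363), (nat_lit 1000), (nat_lit 798))], ((nat_lit 0), (nat_lit 0), (nat_lit 0))⟩, (nat_lit 6603), (nat_lit 300), (nat_lit 1682), (nat_lit 1874403), (nat_lit 2573055), [(nat_lit 236208000), (nat_lit 337392000), (nat_lit 393600000)], [], [(nat_lit 1759624528), (nat_lit 1688764892), (nat_lit 1665693096), (nat_lit 1600104016), (nat_lit 1602403872), (nat_lit 1841747904), (nat_lit 1921558400), (nat_lit 2170955408)], (nat_lit 780000), (nat_lit 1271251), (nat_lit 780000), (nat_lit 1435001), (nat_lit 0), (nat_lit 2825001), [(nat_lit 1977501), (nat_lit 1271251), (nat_lit 1271251)], [(nat_lit 32), (nat_lit 67), (nat_lit 518), (nat_lit 200), (nat_lit 11)]⟩⟩) (.dle (nat_lit 0))) (.leaf ⟨(nat_lit 836), (nat_lit 113), (nat_lit 0), (nat_lit 51), (nat_lit 0), (nat_lit 4460), (nat_lit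 1793), (nat_lit 552), (nat_lit 0), (nat_lit 0), (nat_lit 804000), [((nat_lit 340), [((nat_lit 37), (nat_lit 2), (nat_lit 80)), ((nat_lit 18), (nat_lit 2), (nat_lit 756))])], ⟨(nat_lit 5), false, true, true, (nat_lit 239), (nat_lit 3872), (nat_lit 4473), [(nat_lit 1521548), (nat_lit 1521775), (nat_lit 1543097), (nat_lit 1543551), (nat_lit 1657518), (nat_lit 1650831), (nat_lit 1679069), (nat_lit 1672609)]⟩, ⟨(nat_lit 3), false, false, true, (nat_lit 152), (nat_lit 3872), (nat_lit 4473), [(nat_lit 1277776), (nat_lit 1283782), (nat_lit 1342475), (nat_lit 1349162), (nat_lit 1413733), (nat_lit 1412825), (nat_lit 1478432), (nat_lit 1478205)]⟩, (nat_lit 4755981), (nat_lit 42571103), (nat_lit 16444340), (nat_lit 7984557), (nat_lit 3), (nat_lit 0), [], [], [], [],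
 ⟨⟨[(nat_lit 40), (nat_lit 80), (nat_lit 100)], [(nat_lit 0), (nat_lit 0), (nat_lit 1280)], [((nat_lit 0), (nat_lit 0), (nat_lit 0)), ((nat_lit 0), (nat_lit 0), (nat_lit 0)), ((nat_lit 1000), (nat_lit 800), (nat_lit 600))], ((nat_lit 80), (nat_lit 100), (nat_lit 57))⟩, (nat_lit 1221), (nat_lit 174), (nat_lit 174), (nat_lit 0), (nat_lit 359155), [(nat_lit 1831848271), (nat_lit 1574202944), (nat_lit 781844800)], [(nat_lit 0), (nat_lit 0), (nat_lit 0)], [(nat_lit 18320194055), (nat_lit 19521297300), (nat_lit 21562452980), (nat_lit 23172841650), (nat_lit 19557052899), (nat_lit 20973097740), (nat_lit 22802882640), (nat_lit 24228013095)], (nat_lit 1271251), (nat_lit 1271251), (nat_lit 1271251), (nat_lit 1271251), (nat_lit 780000), (nat_lit 1435001), [(nat_lit 490000), (nat_lit 1100000), (nat_lit 1442501)], [(nat_lit 3), (nat_lit 50), (nat_lit 260), (nat_lit 50), (nat_lit 9)]⟩,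
 ⟨⟨[(nat_lit 100), (nat_lit 140), (nat_lit 160)], [(nat_lit 0), (nat_lit 508), (nat_lit 1689)], [((nat_lit 0), (nat_lit 0), (nat_lit 0)), ((nat_lit 1000), (nat_lit 1000), (nat_lit 198)), ((nat_lit 811), (nat_lit 1000), (nat_lit 671))], ((nat_lit 100), (nat_lit 88), (nat_lit 58))⟩, (nat_lit 480940), (nat_lit 617), (nat_lit 617), (nat_lit 0), (nat_lit 757268), [(nat_lit 1025000000), (nat_lit 1614088000), (nat_lit 1947008000)], [], [(nat_lit 5517051994), (nat_lit 5530417272), (nat_lit 5702433027), (nat_lit 5708718902), (nat_lit 7469429000), (nat_lit 6662612170), (nat_lit 5850171406), (nat_lit 5877600122)], (nat_lit 1271251), (nat_lit 1271251), (nat_lit 1271251), (nat_lit 1271251), (nat_lit 0), (nat_lit 2825001), [(nat_lit 1412501), (nat_lit 1271251), (nat_lit 1271251)], [(nat_lit 23), (nat_lit 62), (nat_lit 483), (nat_lit 250), (nat_lit 12)]⟩,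
 ⟨⟨[(nat_lit 140), (nat_lit 180), (nat_lit 200)], [(nat_lit 0), (nat_lit 0), (nat_lit 2835)], [((nat_lit 0), (nat_lit 0), (nat_lit 0)), ((nat_lit 0), (nat_lit 0), (nat_lit 0)), ((nat_lit 363), (nat_lit 1000), (nat_lit 798))], ((nat_lit 0), (nat_lit 0), (nat_lit 0))⟩, (nat_lit 14032), (nat_lit 300), (nat_lit 1930), (nat_lit 3983100), (nat_lit 3096540), [(nat_lit 501942000), (nat_lit 716958000), (nat_lit 836400000)], [], [(nat_lit 4117422692), (nat_lit 4000408753), (nat_lit 3960766894), (nat_lit 3844667041), (nat_lit 3378326965), (nat_lit 3738203136), (nat_lit 3887982984), (nat_lit 4355417844)], (nat_lit 780000), (nat_lit 1271251), (nat_lit 780000), (nat_lit 1435001), (nat_lit 0), (nat_lit 2825001), [(nat_lit 1977501), (nat_lit 1271251), (nat_lit 1271251)], [(nat_lit 32), (nat_lit 67), (nat_lit 580), (nat_lit 200), (nat_lit 12)]⟩⟩)) (.spl (nat_lit 1) (nat_lit 220) (.ord (.spl (nat_lit 6) (nat_lit 24) (.leaf ⟨(nat_lit 883), (nat_lit 6), (nat_lit 0), (nat_lit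 111), (nat_lit 0), (nat_lit 4032), (nat_lit 1383), (nat_lit 1395), (nat_lit 0), (nat_lit 9928), (nat_lit 793400), [((nat_lit 340), [((nat_lit 37), (nat_lit 2), (nat_lit 224)), ((nat_lit 18), (nat_lit 2), (nat_lit 659))])], ⟨(nat_lit 5), false, true, true, (nat_lit 226), (nat_lit 3872), (nat_lit 4473), [(nat_lit 1478432), (nat_lit 1478205), (nat_lit 1521548), (nat_lit 1521775), (nat_lit 1614388), (nat_lit 1607248), (nat_lit 1657518), (nat_lit 1650831)]⟩, ⟨(nat_lit 4), false, false, false, (nat_lit 173), (nat_lit 3872), (nat_lit 4473), [(nat_lit 1342475), (nat_lit 1349162), (nat_lit 1385576), (nat_lit 1392716), (nat_lit 1478432), (nat_lit 1478205), (nat_lit 1521548), (nat_lit 1521775)]⟩, (nat_lit 4877914), (nat_lit 42259547), (nat_lit 14951290), (nat_lit 9789163), (nat_lit 4), (nat_lit 0), [], [], [], [],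
 ⟨⟨[(nat_lit 40), (nat_lit 80), (nat_lit 100)], [(nat_lit 0), (nat_lit 0), (nat_lit 1280)], [((nat_lit 0), (nat_lit 0), (nat_lit 0)), ((nat_lit 0), (nat_lit 0), (nat_lit 0)), ((nat_lit 1000), (nat_lit 800), (nat_lit 600))], ((nat_lit 81), (nat_lit 100), (nat_lit 48))⟩, (nat_lit 0), (nat_lit 149), (nat_lit 149), (nat_lit 0), (nat_lit 275309), [(nat_lit 1573386714), (nat_lit 1712487688), (nat_lit 696512400)], [(nat_lit 0), (nat_lit 0), (nat_lit 0)], [(nat_lit 18214569524), (nat_lit 19564106202), (nat_lit 21336483976), (nat_lit 22844543180), (nat_lit 19811322028), (nat_lit 21010303092), (nat_lit 22627045688), (nat_lit 23980404074)], (nat_lit 1271251), (nat_lit 1271251), (nat_lit 1271251), (nat_lit 1271251), (nat_lit 780000), (nat_lit 1435001), [(nat_lit 490000), (nat_lit 1100000), (nat_lit 1442501)], [(nat_lit 3), (nat_lit 50), (nat_lit 260), (nat_lit 50), (nat_lit 9)]⟩,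
 ⟨⟨[(nat_lit 120), (nat_lit 140), (nat_lit 160)], [(nat_lit 0), (nat_lit 266), (nat_lit 862)], [((nat_lit 0), (nat_lit 0), (nat_lit 0)), ((nat_lit 960), (nat_lit 1000), (nat_lit 200)), ((nat_lit 874), (nat_lit 1000), (nat_lit 406))], ((nat_lit 100), (nat_lit 83), (nat_lit 48))⟩, (nat_lit 1688359), (nat_lit 705), (nat_lit 705), (nat_lit 0), (nat_lit 893218), [(nat_lit 932256000), (nat_lit 1151514000), (nat_lit 1389024000)], [], [(nat_lit 4021062419), (nat_lit 3108138246), (nat_lit 3254333711), (nat_lit 3290332882), (nat_lit 7912664172), (nat_lit 6699314016), (nat_lit 5500813131), (nat_lit 4317161517)], (nat_lit 1271251), (nat_lit 1271251), (nat_lit 1271251), (nat_lit 1271251), (nat_lit 0), (nat_lit 2825001), [(nat_lit 1695001), (nat_lit 1271251), (nat_lit 1271251)], [(nat_lit 27), (nat_lit 62), (nat_lit 456), (nat_lit 225), (nat_lit 12)]⟩,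
 ⟨⟨[(nat_lit 120), (nat_lit 140), (nat_lit 160)], [(nat_lit 0), (nat_lit 266), (nat_lit 862)], [((nat_lit 0), (nat_lit 0), (nat_lit 0)), ((nat_lit 960), (nat_lit 1000), (nat_lit 200)), ((nat_lit 874), (nat_lit 1000), (nat_lit 406))], ((nat_lit 100), (nat_lit 83), (nat_lit 48))⟩, (nat_lit 227842), (nat_lit 300), (nat_lit 739), (nat_lit 7370401), (nat_lit 893218), [(nat_lit 884448000), (nat_lit 1092462000), (nat_lit 1317792000)], [], [(nat_lit 4957785229), (nat_lit 4880880463), (nat_lit 4777586789), (nat_lit 4648352832), (nat_lit 7173069164), (nat_lit 5917620779), (nat_lit 8623683540), (nat_lit 7399805400)], (nat_lit 1271251), (nat_lit 1271251), (nat_lit 780000), (nat_lit 1435001), (nat_lit 0), (nat_lit 2825001), [(nat_lit 1695001), (nat_lit 1271251), (nat_lit 1271251)], [(nat_lit 27), (nat_lit 62), (nat_lit 456), (nat_lit 225), (nat_lit 12)]⟩⟩) (.dle (nat_lit 0)))) (.leaf ⟨(nat_lit 742), (nat_lit 96), (nat_lit 0), (nat_lit 162), (nat_lit 0), (nat_lit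 4876), (nat_lit 2474), (nat_lit 1905), (nat_lit 0), (nat_lit 521737), (nat_lit 676400), [((nat_lit 340), [((nat_lit 37), (nat_lit 2), (nat_lit 164)), ((nat_lit 18), (nat_lit 2), (nat_lit 578))])], ⟨(nat_lit 5), false, true, true, (nat_lit 239), (nat_lit 3872), (nat_lit 4473), [(nat_lit 1521548), (nat_lit 1521775), (nat_lit 1543097), (nat_lit 1543551), (nat_lit 1657518), (nat_lit 1650831), (nat_lit 1679069), (nat_lit 1672609)]⟩, ⟨(nat_lit 4), false, false, false, (nat_lit 178), (nat_lit 3872), (nat_lit 4473), [(nat_lit 1342475), (nat_lit 1349162), (nat_lit 1407125), (nat_lit 1414492), (nat_lit 1478432), (nat_lit 1478205), (nat_lit 1543097), (nat_lit 1543551)]⟩, (nat_lit 4990125), (nat_lit 40969902), (nat_lit 16047625), (nat_lit 9982473), (nat_lit 4), (nat_lit 0), [], [], [], [],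
 ⟨⟨[(nat_lit 40), (nat_lit 80), (nat_lit 100)], [(nat_lit 0), (nat_lit 0), (nat_lit 1280)], [((nat_lit 0), (nat_lit 0), (nat_lit 0)), ((nat_lit 0), (nat_lit 0), (nat_lit 0)), ((nat_lit 1000), (nat_lit 800), (nat_lit 600))], ((nat_lit 80), (nat_lit 100), (nat_lit 57))⟩, (nat_lit 0), (nat_lit 176), (nat_lit 176), (nat_lit 0), (nat_lit 364246), [(nat_lit 1856335663), (nat_lit 1969494432), (nat_lit 1544733600)], [(nat_lit 0), (nat_lit 0), (nat_lit 0)], [(nat_lit 18490224676), (nat_lit 19832082014), (nat_lit 21798850388), (nat_lit 23491935490), (nat_lit 19711119480), (nat_lit 21124592044), (nat_lit 22973789584), (nat_lit 24468679807)], (nat_lit 1271251), (nat_lit 1271251), (nat_lit 1271251), (nat_lit 1271251), (nat_lit 780000), (nat_lit 1435001), [(nat_lit 490000), (nat_lit 1100000), (nat_lit 1442501)], [(nat_lit 3), (nat_lit 50), (nat_lit 260), (nat_lit 50), (nat_lit 9)]⟩,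
 ⟨⟨[(nat_lit 100), (nat_lit 140), (nat_lit 160)], [(nat_lit 0), (nat_lit 508), (nat_lit 1689)], [((nat_lit 0), (nat_lit 0), (nat_lit 0)), ((nat_lit 1000), (nat_lit 1000), (nat_lit 198)), ((nat_lit 811), (nat_lit 1000), (nat_lit 671))], ((nat_lit 100), (nat_lit 88), (nat_lit 58))⟩, (nat_lit 2910625), (nat_lit 655), (nat_lit 655), (nat_lit 0), (nat_lit 805678), [(nat_lit 1612500000), (nat_lit 2539236000), (nat_lit 3062976000)], [], [(nat_lit 6271781253), (nat_lit 6358134924), (nat_lit 6766582803), (nat_lit 6872647924), (nat_lit 11681073651), (nat_lit 10567819420), (nat_lit 8838059345), (nat_lit 8890936104)], (nat_lit 1271251), (nat_lit 1271251), (nat_lit 1271251), (nat_lit 1271251), (nat_lit 0), (nat_lit 2825001), [(nat_lit 1412501), (nat_lit 1271251), (nat_lit 1271251)], [(nat_lit 23), (nat_lit 62), (nat_lit 483), (nat_lit 250), (nat_lit 12)]⟩,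
 ⟨⟨[(nat_lit 120), (nat_lit 160), (nat_lit 180)], [(nat_lit 0), (nat_lit 533), (nat_lit 2066)], [((nat_lit 0), (nat_lit 0), (nat_lit 0)), ((nat_lit 960), (nat_lit 1000), (nat_lit 200)), ((nat_lit 615), (nat_lit 1000), (nat_lit 729))], ((nat_lit 100), (nat_lit 76), (nat_lit 58))⟩, (nat_lit 379317), (nat_lit 300), (nat_lit 927), (nat_lit 10756801), (nat_lit 1115028), [(nat_lit 1290816000), (nat_lit 1923264000), (nat_lit 2277396000)], [], [(nat_lit 9000997163), (nat_lit 8768171154), (nat_lit 8505614120), (nat_lit 8326908270), (nat_lit 10286035775), (nat_lit 7714391502), (nat_lit 12294281040), (nat_lit 9787304850)], (nat_lit 1271251), (nat_lit 1271251), (nat_lit 780000), (nat_lit 1435001), (nat_lit 0), (nat_lit 2825001), [(nat_lit 1695001), (nat_lit 1271251), (nat_lit 1271251)], [(nat_lit 28), (nat_lit 65), (nat_lit 456), (nat_lit 225), (nat_lit 11)]⟩⟩)))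
noncomputable def c10_27 : Tr Lf :=
 (.trX (nat_lit 5) (nat_lit 3) (nat_lit 4) (nat_lit 100) (nat_lit 80) (nat_lit 100) (nat_lit 340) (.spl (nat_lit 6) (nat_lit 16) (.spl (nat_lit 5) (nat_lit 120) (.spl (nat_lit 0) (nat_lit 330) (.leaf ⟨(nat_lit 0), (nat_lit 1000), (nat_lit 0), (nat_lit 0), (nat_lit 0), (nat_lit 4849), (nat_lit 9580), (nat_lit 0), (nat_lit 0), (nat_lit 10504764631617), (nat_lit 0), [], Pd.none, Pd.none, (nat_lit 0), (nat_lit 1), (nat_lit 0), (nat_lit 0), (nat_lit 3), (nat_lit 0), [], [], [], [],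
 ⟨⟨[(nat_lit 40), (nat_lit 60), (nat_lit 80)], [(nat_lit 0), (nat_lit 0), (nat_lit 615)], [((nat_lit 0), (nat_lit 0), (nat_lit 0)), ((nat_lit 0), (nat_lit 0), (nat_lit 0)), ((nat_lit 1000), (nat_lit 819), (nat_lit 426))], ((nat_lit 82), (nat_lit 100), (nat_lit 40))⟩, (nat_lit 4586811), (nat_lit 196), (nat_lit 196), (nat_lit 0), (nat_lit 176732), [(nat_lit 2032000028), (nat_lit 3282000007), (nat_lit 4688000000)], [], [(nat_lit 26008865839), (nat_lit 26651207275), (nat_lit 33170196844), (nat_lit 33859388411), (nat_lit 24524609733), (nat_lit 25096573775), (nat_lit 29390818399), (nat_lit 29846035447)], (nat_lit 1271251), (nat_lit 1271251), (nat_lit 1271251), (nat_lit 1271251), (nat_lit 0), (nat_lit 780000), [(nat_lit 490000), (nat_lit 780000), (nat_lit 1100000)], [(nat_lit 2), (nat_lit 44), (nat_lit 238), (nat_lit 30), (nat_lit 10)]⟩,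
 ⟨⟨[(nat_lit 120), (nat_lit 140), (nat_lit 160)], [(nat_lit 0), (nat_lit 266), (nat_lit 862)], [((nat_lit 0), (nat_lit 0), (nat_lit 0)), ((nat_lit 960), (nat_lit 1000), (nat_lit 200)), ((nat_lit 874), (nat_lit 1000), (nat_lit 406))], ((nat_lit 100), (nat_lit 88), (nat_lit 39))⟩, (nat_lit 12276666), (nat_lit 486), (nat_lit 486), (nat_lit 0), (nat_lit 442387), [(nat_lit 7968000000), (nat_lit 9842000000), (nat_lit 11872000000)], [], [(nat_lit 34637542540), (nat_lit 34853938580), (nat_lit 38691326425), (nat_lit 38920104015), (nat_lit 29281630870), (nat_lit 29409643810), (nat_lit 32795209690), (nat_lit 32603356410)], (nat_lit 1271251), (nat_lit 1271251), (nat_lit 1271251), (nat_lit 1271251), (nat_lit 0), (nat_lit 780000), [(nat_lit 1695001), (nat_lit 1271251), (nat_lit 1271251)], [(nat_lit 27), (nat_lit 62), (nat_lit 428), (nat_lit 200), (nat_lit 11)]⟩,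
 Rw.none⟩) (.trX (nat_lit 3) (nat_lit 0) (nat_lit 1) (nat_lit 76) (nat_lit 57) (nat_lit 100) (nat_lit 370) (.leaf ⟨(nat_lit 639), (nat_lit 361), (nat_lit 0), (nat_lit 0), (nat_lit 0), (nat_lit 3173), (nat_lit 3570), (nat_lit 0), (nat_lit 0), (nat_lit 6364874307995), (nat_lit 271400), [((nat_lit 340), [((nat_lit 18), (nat_lit 1), (nat_lit 560)), ((nat_lit 37), (nat_lit 2), (nat_lit 79))])], ⟨(nat_lit 7), false, true, true, (nat_lit 282), (nat_lit 3872), (nat_lit 4184), [(nat_lit 1610843), (nat_lit 1607248), (nat_lit 1654176), (nat_lit 1650835), (nat_lit 1759918), (nat_lit 1752422), (nat_lit 1803252), (nat_lit 1796008)]⟩, ⟨(nat_lit 3), false, false, false, (nat_lit 95), (nat_lit 3872), (nat_lit 4184), [(nat_lit 1082054), (nat_lit 1090218), (nat_lit 1190368), (nat_lit 1199165), (nat_lit 1280820), (nat_lit 1283782), (nat_lit 1389144), (nat_lit 1392739)]⟩, (nat_lit 4346674), (nat_lit 41827385), (nat_lit 21300311), (nat_lit 3872304), (nat_lit 3), (nat_lit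 0), [⟨(nat_lit 1), (nat_lit 67), (nat_lit 74), (nat_lit 100), (nat_lit 112674987)⟩], [], [], [],
 ⟨⟨[(nat_lit 40), (nat_lit 60), (nat_lit 80)], [(nat_lit 0), (nat_lit 197), (nat_lit 800)], [((nat_lit 0), (nat_lit 0), (nat_lit 0)), ((nat_lit 1000), (nat_lit 908), (nat_lit 154)), ((nat_lit 1000), (nat_lit 781), (nat_lit 471))], ((nat_lit 80), (nat_lit 100), (nat_lit 41))⟩, (nat_lit 5018962), (nat_lit 209), (nat_lit 209), (nat_lit 0), (nat_lit 233026), [(nat_lit 1565524405), (nat_lit 2276943669), (nat_lit 2865075200)], [(nat_lit 0), (nat_lit 0), (nat_lit 0)], [(nat_lit 24466351005), (nat_lit 25006003492), (nat_lit 28716495023), (nat_lit 29301599527), (nat_lit 24295529912), (nat_lit 24779986851), (nat_lit 28127950940), (nat_lit 28546032923)], (nat_lit 1271251), (nat_lit 1271251), (nat_lit 1271251), (nat_lit 1271251), (nat_lit 0), (nat_lit 780000), [(nat_lit 490000), (nat_lit 780000), (nat_lit 1100000)], [(nat_lit 2), (nat_lit 44), (nat_lit 238), (nat_lit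 30), (nat_lit 10)]⟩,
 ⟨⟨[(nat_lit 120), (nat_lit 140), (nat_lit 160)], [(nat_lit 0), (nat_lit 266), (nat_lit 862)], [((nat_lit 0), (nat_lit 0), (nat_lit 0)), ((nat_lit 960), (nat_lit 1000), (nat_lit 200)), ((nat_lit 874), (nat_lit 1000), (nat_lit 406))], ((nat_lit 100), (nat_lit 88), (nat_lit 39))⟩, (nat_lit 3965240), (nat_lit 593), (nat_lit 593), (nat_lit 0), (nat_lit 711568), [(nat_lit 2876448000), (nat_lit 3552962000), (nat_lit 4285792000)], [], [(nat_lit 12164251875), (nat_lit 12235839736), (nat_lit 13478947186), (nat_lit 13665465227), (nat_lit 10148176050), (nat_lit 10187227517), (nat_lit 11284492836), (nat_lit 11217217278)], (nat_lit 1271251), (nat_lit 1271251), (nat_lit 1271251), (nat_lit 1271251), (nat_lit 0), (nat_lit 780000), [(nat_lit 1695001), (nat_lit 1271251), (nat_lit 1271251)], [(nat_lit 27), (nat_lit 62), (nat_lit 428), (nat_lit 200), (nat_lit 11)]⟩,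
 Rw.none⟩))) (.spl (nat_lit 2) (nat_lit 180) (.spl (nat_lit 0) (nat_lit 330) (.leaf ⟨(nat_lit 369), (nat_lit 508), (nat_lit 0), (nat_lit 123), (nat_lit 0), (nat_lit 4150), (nat_lit 6182), (nat_lit 1592), (nat_lit 0), (nat_lit 0), (nat_lit 1476000), [((nat_lit 330), [((nat_lit 37), (nat_lit 5), (nat_lit 369))])], ⟨(nat_lit 7), false, true, true, (nat_lit 287), (nat_lit 4183), (nat_lit 4473), [(nat_lit 1614388), (nat_lit 1610843), (nat_lit 1657520), (nat_lit 1654175), (nat_lit 1784334), (nat_lit 1776482), (nat_lit 1827466), (nat_lit 1819815)]⟩, ⟨(nat_lit 3), false, false, false, (nat_lit 84), (nat_lit 4183), (nat_lit 4473), [(nat_lit 1073842), (nat_lit 1082054), (nat_lit 1138540), (nat_lit 1147053), (nat_lit 1277776), (nat_lit 1280820), (nat_lit 1342476), (nat_lit 1345821)]⟩, (nat_lit 4235315), (nat_lit 41786405), (nat_lit 22001187), (nat_lit 3212408), (nat_lit 3), (nat_lit 0), [], [], [], [⟨(nat_lit 1), (nat_lit 100), (nat_lit 76), (nat_lit 72), (nat_lit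 2074535)⟩, ⟨(nat_lit 1), (nat_lit 100), (nat_lit 77), (nat_lit 77), (nat_lit 195485471)⟩],
 ⟨⟨[(nat_lit 40), (nat_lit 60), (nat_lit 80)], [(nat_lit 0), (nat_lit 0), (nat_lit 615)], [((nat_lit 0), (nat_lit 0), (nat_lit 0)), ((nat_lit 0), (nat_lit 0), (nat_lit 0)), ((nat_lit 1000), (nat_lit 819), (nat_lit 426))], ((nat_lit 82), (nat_lit 100), (nat_lit 40))⟩, (nat_lit 0), (nat_lit 196), (nat_lit 196), (nat_lit 0), (nat_lit 176732), [(nat_lit 2152117941), (nat_lit 2040457482), (nat_lit 1389111518)], [(nat_lit 0), (nat_lit 0), (nat_lit 0)], [(nat_lit 24212658700), (nat_lit 25066726000), (nat_lit 31349472400), (nat_lit 31987901713), (nat_lit 22909512787), (nat_lit 23440015556), (nat_lit 28019360114), (nat_lit 28498692333)], (nat_lit 1271251), (nat_lit 1271251), (nat_lit 1271251), (nat_lit 1271251), (nat_lit 0), (nat_lit 780000), [(nat_lit 490000), (nat_lit 780000), (nat_lit 1100000)], [(nat_lit 2), (nat_lit 44), (nat_lit 238), (nat_lit 30), (nat_lit 10)]⟩,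
 ⟨⟨[(nat_lit 120), (nat_lit 140), (nat_lit 160)], [(nat_lit 0), (nat_lit 266), (nat_lit 862)], [((nat_lit 0), (nat_lit 0), (nat_lit 0)), ((nat_lit 960), (nat_lit 1000), (nat_lit 200)), ((nat_lit 874), (nat_lit 1000), (nat_lit 406))], ((nat_lit 100), (nat_lit 88), (nat_lit 39))⟩, (nat_lit 7607417), (nat_lit 424), (nat_lit 424), (nat_lit 0), (nat_lit 558174), [(nat_lit 5027808000), (nat_lit 6210302000), (nat_lit 7491232000)], [], [(nat_lit 16372095716), (nat_lit 16680398626), (nat_lit 19687749432), (nat_lit 19714024855), (nat_lit 18348922379), (nat_lit 18272346326), (nat_lit 22657756286), (nat_lit 22793774463)], (nat_lit 1271251), (nat_lit 1271251), (nat_lit 1271251), (nat_lit 1271251), (nat_lit 780000), (nat_lit 2581251), [(nat_lit 1695001), (nat_lit 1271251), (nat_lit 1271251)], [(nat_lit 27), (nat_lit 62), (nat_lit 483), (nat_lit 250), (nat_lit 12)]⟩,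
 ⟨⟨[(nat_lit 140), (nat_lit 160), (nat_lit 180)], [(nat_lit 0), (nat_lit 0), (nat_lit 799)], [((nat_lit 0), (nat_lit 0), (nat_lit 0)), ((nat_lit 0), (nat_lit 0), (nat_lit 0)), ((nat_lit 728), (nat_lit 1000), (nat_lit 454))], ((nat_lit 100), (nat_lit 75), (nat_lit 43))⟩, (nat_lit 108068), (nat_lit 300), (nat_lit 857), (nat_lit 9126600), (nat_lit 915486), [(nat_lit 1210566000), (nat_lit 1460256000), (nat_lit 1729134000)], [], [(nat_lit 7454574677), (nat_lit 7140822055), (nat_lit 6256786835), (nat_lit 5955472427), (nat_lit 7870814572), (nat_lit 8989754600), (nat_lit 8759420856), (nat_lit 9965916705)], (nat_lit 780000), (nat_lit 1271251), (nat_lit 0), (nat_lit 780000), (nat_lit 780000), (nat_lit 2581251), [(nat_lit 1977501), (nat_lit 1271251), (nat_lit 1271251)], [(nat_lit 31), (nat_lit 65), (nat_lit 401), (nat_lit 175), (nat_lit 10)]⟩⟩) (.trX (nat_lit 3) (nat_lit 0) (nat_lit 1) (nat_lit 76) (nat_lit 57) (nat_lit 100) (nat_lit 370) (.leaf ⟨(nat_lit 815),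 (nat_lit 144), (nat_lit 0), (nat_lit 41), (nat_lit 0), (nat_lit 3152), (nat_lit 1873), (nat_lit 546), (nat_lit 0), (nat_lit 0), (nat_lit 461400), [((nat_lit 340), [((nat_lit 18), (nat_lit 1), (nat_lit 138)), ((nat_lit 37), (nat_lit 2), (nat_lit 677))])], ⟨(nat_lit 7), false, true, true, (nat_lit 282), (nat_lit 3872), (nat_lit 4184), [(nat_lit 1610843), (nat_lit 1607248), (nat_lit 1654176), (nat_lit 1650835), (nat_lit 1759918), (nat_lit 1752422), (nat_lit 1803252), (nat_lit 1796008)]⟩, ⟨(nat_lit 3), false, false, false, (nat_lit 87), (nat_lit 3872), (nat_lit 4184), [(nat_lit 1082054), (nat_lit 1090218), (nat_lit 1147044), (nat_lit 1155588), (nat_lit 1280820), (nat_lit 1283782), (nat_lit 1345820), (nat_lit 1349161)]⟩, (nat_lit 4241549), (nat_lit 42206707), (nat_lit 21426899), (nat_lit 3366394), (nat_lit 3), (nat_lit 0), [⟨(nat_lit 1), (nat_lit 67), (nat_lit 74), (nat_lit 100), (nat_lit 140972178)⟩], [], [], [⟨(nat_lit 1), (nat_lit 100), (nat_lit 79), (nat_lit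 72), (nat_lit 74606144)⟩],
 ⟨⟨[(nat_lit 40), (nat_lit 60), (nat_lit 80)], [(nat_lit 0), (nat_lit 197), (nat_lit 800)], [((nat_lit 0), (nat_lit 0), (nat_lit 0)), ((nat_lit 1000), (nat_lit 908), (nat_lit 154)), ((nat_lit 1000), (nat_lit 781), (nat_lit 471))], ((nat_lit 80), (nat_lit 100), (nat_lit 41))⟩, (nat_lit 3484208), (nat_lit 209), (nat_lit 209), (nat_lit 0), (nat_lit 233026), [(nat_lit 1440730802), (nat_lit 1982735400), (nat_lit 2143092800)], [(nat_lit 0), (nat_lit 0), (nat_lit 0)], [(nat_lit 24024768134), (nat_lit 24562882828), (nat_lit 28662212850), (nat_lit 29245708767), (nat_lit 23868772795), (nat_lit 24351924206), (nat_lit 27556044625), (nat_lit 27973137110)], (nat_lit 1271251), (nat_lit 1271251), (nat_lit 1271251), (nat_lit 1271251), (nat_lit 0), (nat_lit 780000), [(nat_lit 490000), (nat_lit 780000), (nat_lit 1100000)], [(nat_lit 2), (nat_lit 44), (nat_lit 238), (nat_lit 30), (nat_lit 10)]⟩,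
 ⟨⟨[(nat_lit 120), (nat_lit 140), (nat_lit 160)], [(nat_lit 0), (nat_lit 266), (nat_lit 862)], [((nat_lit 0), (nat_lit 0), (nat_lit 0)), ((nat_lit 960), (nat_lit 1000), (nat_lit 200)), ((nat_lit 874), (nat_lit 1000), (nat_lit 406))], ((nat_lit 100), (nat_lit 88), (nat_lit 39))⟩, (nat_lit 1853553), (nat_lit 582), (nat_lit 582), (nat_lit 0), (nat_lit 890569), [(nat_lit 1474080000), (nat_lit 1820770000), (nat_lit 2196320000)], [], [(nat_lit 5035942796), (nat_lit 5053164076), (nat_lit 5623637520), (nat_lit 5585274785), (nat_lit 5219130950), (nat_lit 5279993871), (nat_lit 6524612555), (nat_lit 6575315067)], (nat_lit 1271251), (nat_lit 1271251), (nat_lit 1271251), (nat_lit 1271251), (nat_lit 780000), (nat_lit 2581251), [(nat_lit 1695001), (nat_lit 1271251), (nat_lit 1271251)], [(nat_lit 27), (nat_lit 62), (nat_lit 483), (nat_lit 250), (nat_lit 12)]⟩,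
 ⟨⟨[(nat_lit 140), (nat_lit 160), (nat_lit 180)], [(nat_lit 0), (nat_lit 0), (nat_lit 799)], [((nat_lit 0), (nat_lit 0), (nat_lit 0)), ((nat_lit 0), (nat_lit 0), (nat_lit 0)), ((nat_lit 728), (nat_lit 1000), (nat_lit 454))], ((nat_lit 100), (nat_lit 75), (nat_lit 43))⟩, (nat_lit 36023), (nat_lit 300), (nat_lit 1019), (nat_lit 3042200), (nat_lit 1267271), [(nat_lit 403522000), (nat_lit 486752000), (nat_lit 576378000)], [], [(nat_lit 2503384220), (nat_lit 2356423362), (nat_lit 2035997139), (nat_lit 1931980023), (nat_lit 2643698470), (nat_lit 3025127652), (nat_lit 2944762987), (nat_lit 3356220736)], (nat_lit 780000), (nat_lit 1271251), (nat_lit 0), (nat_lit 780000), (nat_lit 780000), (nat_lit 2581251), [(nat_lit 1977501), (nat_lit 1271251), (nat_lit 1271251)], [(nat_lit 31), (nat_lit 65), (nat_lit 401), (nat_lit 175), (nat_lit 10)]⟩⟩))) (.trZ (nat_lit 0) (nat_lit 2) (nat_lit 4) (nat_lit 100) (nat_lit 80) (nat_lit 52) (nat_lit 20) (.leaf ⟨(nat_lit 0), (nat_lit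 0), (nat_lit 0), (nat_lit 1000), (nat_lit 0), (nat_lit 4987), (nat_lit 9113), (nat_lit 15278), (nat_lit 0), (nat_lit 1010045803708), (nat_lit 0), [], Pd.none, Pd.none, (nat_lit 0), (nat_lit 1), (nat_lit 0), (nat_lit 0), (nat_lit 0), (nat_lit 0), [], [⟨(nat_lit 0), (nat_lit 100), (nat_lit 76), (nat_lit 65), (nat_lit 313477822)⟩], [], [],
 ⟨⟨[(nat_lit 40), (nat_lit 60), (nat_lit 80)], [(nat_lit 0), (nat_lit 0), (nat_lit 615)], [((nat_lit 0), (nat_lit 0), (nat_lit 0)), ((nat_lit 0), (nat_lit 0), (nat_lit 0)), ((nat_lit 1000), (nat_lit 819), (nat_lit 426))], ((nat_lit 82), (nat_lit 100), (nat_lit 40))⟩, (nat_lit 6986947), (nat_lit 190), (nat_lit 190), (nat_lit 0), (nat_lit 189259), [(nat_lit 2032001564), (nat_lit 3282000009), (nat_lit 4688000000)], [], [(nat_lit 25269593964), (nat_lit 26586847371), (nat_lit 32483321248), (nat_lit 33868727727), (nat_lit 24131851683), (nat_lit 25292150740), (nat_lit 29128647355), (nat_lit 30305336085)], (nat_lit 1271251),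 (nat_lit 1271251), (nat_lit 1271251), (nat_lit 1271251), (nat_lit 111251), (nat_lit 780000), [(nat_lit 490000), (nat_lit 780000), (nat_lit 1100000)], [(nat_lit 2), (nat_lit 44), (nat_lit 238), (nat_lit 30), (nat_lit 10)]⟩,
 ⟨⟨[(nat_lit 120), (nat_lit 140), (nat_lit 160)], [(nat_lit 0), (nat_lit 266), (nat_lit 862)], [((nat_lit 0), (nat_lit 0), (nat_lit 0)), ((nat_lit 960), (nat_lit 1000), (nat_lit 200)), ((nat_lit 874), (nat_lit 1000), (nat_lit 406))], ((nat_lit 100), (nat_lit 88), (nat_lit 39))⟩, (nat_lit 15808974), (nat_lit 582), (nat_lit 582), (nat_lit 0), (nat_lit 890133), [(nat_lit 7968000000), (nat_lit 9842000000), (nat_lit 11872000000)], [], [(nat_lit 31049271870), (nat_lit 31207246129), (nat_lit 34496091172), (nat_lit 34347326114), (nat_lit 32342979763), (nat_lit 32074801288), (nat_lit 35095925541), (nat_lit 35360545117)], (nat_lit 1271251), (nat_lit 1271251), (nat_lit 1271251), (nat_lit 1271251), (nat_lit 780000), (nat_lit 2581251), [(nat_lit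 1695001), (nat_lit 1271251), (nat_lit 1271251)], [(nat_lit 27), (nat_lit 62), (nat_lit 483), (nat_lit 250), (nat_lit 12)]⟩,
 ⟨⟨[(nat_lit 120), (nat_lit 140), (nat_lit 160)], [(nat_lit 0), (nat_lit 266), (nat_lit 862)], [((nat_lit 0), (nat_lit 0), (nat_lit 0)), ((nat_lit 960), (nat_lit 1000), (nat_lit 200)), ((nat_lit 874), (nat_lit 1000), (nat_lit 406))], ((nat_lit 100), (nat_lit 88), (nat_lit 39))⟩, (nat_lit 3796812), (nat_lit 300), (nat_lit 514), (nat_lit 66400000), (nat_lit 471229), [(nat_lit 7968000000), (nat_lit 9842000000), (nat_lit 11872000000)], [], [(nat_lit 37892630979), (nat_lit 37533705023), (nat_lit 36948959023), (nat_lit 28396825379), (nat_lit 65893351390), (nat_lit 51392006610), (nat_lit 73569194868), (nat_lit 59545919716)], (nat_lit 1271251), (nat_lit 1271251), (nat_lit 111251), (nat_lit 780000), (nat_lit 780000), (nat_lit 2581251), [(nat_lit 1695001), (nat_lit 1271251), (nat_lit 1271251)], [(nat_lit 27), (nat_lit 62), (nat_lit 401),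 (nat_lit 175), (nat_lit 11)]⟩⟩)))) (.spl (nat_lit 4) (nat_lit 80) (.trX (nat_lit 5) (nat_lit 3) (nat_lit 4) (nat_lit 100) (nat_lit 95) (nat_lit 87) (nat_lit 300) (.leaf ⟨(nat_lit 192), (nat_lit 802), (nat_lit 0), (nat_lit 6), (nat_lit 10303), (nat_lit 5163), (nat_lit 8196), (nat_lit 62), (nat_lit 0), (nat_lit 11060253045), (nat_lit 768000), [((nat_lit 340), [((nat_lit 37), (nat_lit 5), (nat_lit 192))])], ⟨(nat_lit 7), false, true, true, (nat_lit 286), (nat_lit 3872), (nat_lit 4473), [(nat_lit 1614388), (nat_lit 1607248), (nat_lit 1657518), (nat_lit 1650831), (nat_lit 1784334), (nat_lit 1768552), (nat_lit 1827467), (nat_lit 1812139)]⟩, ⟨(nat_lit 3), false, false, false, (nat_lit 81), (nat_lit 3872), (nat_lit 4473), [(nat_lit 1073842), (nat_lit 1090218), (nat_lit 1181619), (nat_lit 1199128), (nat_lit 1209798), (nat_lit 1219261), (nat_lit 1317591), (nat_lit 1328187)]⟩, (nat_lit 4188503), (nat_lit 42033904), (nat_lit 21939659), (nat_lit 3026437), (nat_lit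 3), (nat_lit 0), [], [⟨(nat_lit 0), (nat_lit 100), (nat_lit 72), (nat_lit 77), (nat_lit 192324171)⟩], [], [⟨(nat_lit 1), (nat_lit 100), (nat_lit 76), (nat_lit 60), (nat_lit 36382932)⟩],
 ⟨⟨[(nat_lit 40), (nat_lit 80), (nat_lit 100)], [(nat_lit 0), (nat_lit 0), (nat_lit 1280)], [((nat_lit 0), (nat_lit 0), (nat_lit 0)), ((nat_lit 0), (nat_lit 0), (nat_lit 0)), ((nat_lit 1000), (nat_lit 800), (nat_lit 600))], ((nat_lit 80), (nat_lit 100), (nat_lit 51))⟩, (nat_lit 312860), (nat_lit 206), (nat_lit 206), (nat_lit 0), (nat_lit 87913), [(nat_lit 2294430398), (nat_lit 2961051206), (nat_lit 2686633600)], [(nat_lit 0), (nat_lit 0), (nat_lit 0)], [(nat_lit 25986561494), (nat_lit 27922523846), (nat_lit 33988090228), (nat_lit 35412079506), (nat_lit 22623465100), (nat_lit 23790145848), (nat_lit 29617538724), (nat_lit 30988377666)], (nat_lit 1271251), (nat_lit 1271251), (nat_lit 1271251), (nat_lit 1271251), (nat_lit 0), (nat_lit 490000), [(nat_lit 490000), (nat_lit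 1100000), (nat_lit 1442501)], [(nat_lit 3), (nat_lit 50), (nat_lit 226), (nat_lit 20), (nat_lit 8)]⟩,
 ⟨⟨[(nat_lit 120), (nat_lit 140), (nat_lit 160)], [(nat_lit 0), (nat_lit 266), (nat_lit 862)], [((nat_lit 0), (nat_lit 0), (nat_lit 0)), ((nat_lit 960), (nat_lit 1000), (nat_lit 200)), ((nat_lit 874), (nat_lit 1000), (nat_lit 406))], ((nat_lit 100), (nat_lit 81), (nat_lit 51))⟩, (nat_lit 0), (nat_lit 411), (nat_lit 411), (nat_lit 0), (nat_lit 297429), [(nat_lit 6438144000), (nat_lit 7952336000), (nat_lit 9592576000)], [], [(nat_lit 33473087948), (nat_lit 33619142720), (nat_lit 38309492942), (nat_lit 38240470946), (nat_lit 30743035603), (nat_lit 28317620720), (nat_lit 31278890330), (nat_lit 30913761592)], (nat_lit 1271251), (nat_lit 1271251), (nat_lit 1271251), (nat_lit 1271251), (nat_lit 0), (nat_lit 2118750), [(nat_lit 1695001), (nat_lit 1271251), (nat_lit 1271251)], [(nat_lit 27), (nat_lit 62), (nat_lit 456), (nat_lit 225), (nat_lit 11)]⟩,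
 ⟨⟨[(nat_lit 140), (nat_lit 180), (nat_lit 200)], [(nat_lit 0), (nat_lit 0), (nat_lit 2835)], [((nat_lit 0), (nat_lit 0), (nat_lit 0)), ((nat_lit 0), (nat_lit 0), (nat_lit 0)), ((nat_lit 363), (nat_lit 1000), (nat_lit 798))], ((nat_lit 0), (nat_lit 0), (nat_lit 0))⟩, (nat_lit 1651), (nat_lit 300), (nat_lit 849), (nat_lit 468600), (nat_lit 477664), [(nat_lit 59052000), (nat_lit 84348000), (nat_lit 98400000)], [], [(nat_lit 526893742), (nat_lit 502560522), (nat_lit 485740169), (nat_lit 464872455), (nat_lit 443206789), (nat_lit 421653639), (nat_lit 408559436), (nat_lit 391379540)], (nat_lit 780000), (nat_lit 1598751), (nat_lit 0), (nat_lit 490000), (nat_lit 0), (nat_lit 2118750), [(nat_lit 1977501), (nat_lit 1271251), (nat_lit 1271251)], [(nat_lit 32), (nat_lit 67), (nat_lit 373), (nat_lit 150), (nat_lit 9)]⟩⟩)) (.leaf ⟨(nat_lit 451), (nat_lit 476), (nat_lit 0), (nat_lit 73), (nat_lit 8010), (nat_lit 4048), (nat_lit 4798), (nat_lit 611), (nat_lit 0), (nat_lit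 1451958287186), (nat_lit 676000), [((nat_lit 340), [((nat_lit 18), (nat_lit 2), (nat_lit 376)), ((nat_lit 37), (nat_lit 5), (nat_lit 75))])], ⟨(nat_lit 7), false, true, true, (nat_lit 286), (nat_lit 3872), (nat_lit 4473), [(nat_lit 1614388), (nat_lit 1607248), (nat_lit 1657518), (nat_lit 1650831), (nat_lit 1784334), (nat_lit 1768552), (nat_lit 1827467), (nat_lit 1812139)]⟩, ⟨(nat_lit 3), false, false, false, (nat_lit 121), (nat_lit 3872), (nat_lit 4473), [(nat_lit 1209798), (nat_lit 1219261), (nat_lit 1317591), (nat_lit 1328187), (nat_lit 1277776), (nat_lit 1283782), (nat_lit 1385576), (nat_lit 1392716)]⟩, (nat_lit 4649608), (nat_lit 40272274), (nat_lit 21307168), (nat_lit 5420558), (nat_lit 3), (nat_lit 0), [], [], [], [],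
 ⟨⟨[(nat_lit 40), (nat_lit 80), (nat_lit 100)], [(nat_lit 0), (nat_lit 0), (nat_lit 1280)], [((nat_lit 0), (nat_lit 0), (nat_lit 0)), ((nat_lit 0), (nat_lit 0), (nat_lit 0)), ((nat_lit 1000), (nat_lit 800), (nat_lit 600))], ((nat_lit 80), (nat_lit 100), (nat_lit 51))⟩, (nat_lit 3579), (nat_lit 140), (nat_lit 140), (nat_lit 0), (nat_lit 87913), [(nat_lit 1835556932), (nat_lit 2832961771), (nat_lit 2341416800)], [(nat_lit 0), (nat_lit 0), (nat_lit 0)], [(nat_lit 22649843732), (nat_lit 23905791924), (nat_lit 28083797256), (nat_lit 29102342064), (nat_lit 22894694308), (nat_lit 24053455920), (nat_lit 28036461452), (nat_lit 29017437038)], (nat_lit 1271251), (nat_lit 1271251), (nat_lit 1271251), (nat_lit 1271251), (nat_lit 490000), (nat_lit 780000), [(nat_lit 490000), (nat_lit 1100000), (nat_lit 1442501)], [(nat_lit 3), (nat_lit 50), (nat_lit 238), (nat_lit 30), (nat_lit 8)]⟩,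
 ⟨⟨[(nat_lit 120), (nat_lit 140), (nat_lit 160)], [(nat_lit 0), (nat_lit 266), (nat_lit 862)], [((nat_lit 0), (nat_lit 0), (nat_lit 0)), ((nat_lit 960), (nat_lit 1000), (nat_lit 200)), ((nat_lit 874), (nat_lit 1000), (nat_lit 406))], ((nat_lit 100), (nat_lit 81), (nat_lit 51))⟩, (nat_lit 0), (nat_lit 411), (nat_lit 411), (nat_lit 0), (nat_lit 297429), [(nat_lit 4374432000), (nat_lit 5403258000), (nat_lit 6517728000)], [], [(nat_lit 24173262339), (nat_lit 24279372737), (nat_lit 26385308156), (nat_lit 26300110117), (nat_lit 23314428416), (nat_lit 21672836145), (nat_lit 23066417442), (nat_lit 22852784302)], (nat_lit 1271251), (nat_lit 1271251), (nat_lit 1271251), (nat_lit 1271251), (nat_lit 0), (nat_lit 2401251), [(nat_lit 1695001), (nat_lit 1271251), (nat_lit 1271251)], [(nat_lit 27), (nat_lit 62), (nat_lit 483), (nat_lit 250), (nat_lit 12)]⟩,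
 ⟨⟨[(nat_lit 140), (nat_lit 180), (nat_lit 200)], [(nat_lit 0), (nat_lit 0), (nat_lit 2835)], [((nat_lit 0), (nat_lit 0), (nat_lit 0)), ((nat_lit 0), (nat_lit 0), (nat_lit 0)), ((nat_lit 363), (nat_lit 1000), (nat_lit 798))], ((nat_lit 0), (nat_lit 0), (nat_lit 0))⟩, (nat_lit 20085), (nat_lit 300), (nat_lit 758), (nat_lit 5701300), (nat_lit 477664), [(nat_lit 718466000), (nat_lit 1026234000), (nat_lit 1197200000)], [], [(nat_lit 5996412088), (nat_lit 5825021406), (nat_lit 5893269637), (nat_lit 5722193291), (nat_lit 5310095921), (nat_lit 5127397669), (nat_lit 5209422271), (nat_lit 5027121455)], (nat_lit 780000), (nat_lit 1598751), (nat_lit 490000), (nat_lit 780000), (nat_lit 0), (nat_lit 2401251), [(nat_lit 1977501), (nat_lit 1271251), (nat_lit 1271251)], [(nat_lit 32), (nat_lit 67), (nat_lit 401), (nat_lit 175), (nat_lit 9)]⟩⟩))))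
noncomputable def c10_28 : Tr Lf :=
 (.spl (nat_lit 2) (nat_lit 180) (.spl (nat_lit 5) (nat_lit 200) (.leaf ⟨(nat_lit 828), (nat_lit 162), (nat_lit 0), (nat_lit 10), (nat_lit 1057), (nat_lit 3775), (nat_lit 1671), (nat_lit 152), (nat_lit 0), (nat_lit 0), (nat_lit 713200), [((nat_lit 340), [((nat_lit 37), (nat_lit 2), (nat_lit 287)), ((nat_lit 18), (nat_lit 2), (nat_lit 541))])], ⟨(nat_lit 7), false, true, true, (nat_lit 286), (nat_lit 3872), (nat_lit 4473), [(nat_lit 1614388), (nat_lit 1607248), (nat_lit 1657518), (nat_lit 1650831), (nat_lit 1784334), (nat_lit 1768552), (nat_lit 1827467), (nat_lit 1812139)]⟩, ⟨(nat_lit 3), false, false, true, (nat_lit 152), (nat_lit 3872), (nat_lit 4473), [(nat_lit 1277776), (nat_lit 1283782), (nat_lit 1342475), (nat_lit 1349162), (nat_lit 1413733), (nat_lit 1412825), (nat_lit 1478432), (nat_lit 1478205)]⟩, (nat_lit 4958452), (nat_lit 38754144), (nat_lit 20723216), (nat_lit 7522640), (nat_lit 3), (nat_lit 0), [⟨(nat_lit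 1), (nat_lit 65), (nat_lit 76), (nat_lit 100), (nat_lit 147030619)⟩], [], [], [⟨(nat_lit 0), (nat_lit 100), (nat_lit 78), (nat_lit 49), (nat_lit 10293804)⟩],
 ⟨⟨[(nat_lit 40), (nat_lit 80), (nat_lit 100)], [(nat_lit 0), (nat_lit 0), (nat_lit 1280)], [((nat_lit 0), (nat_lit 0), (nat_lit 0)), ((nat_lit 0), (nat_lit 0), (nat_lit 0)), ((nat_lit 1000), (nat_lit 800), (nat_lit 600))], ((nat_lit 80), (nat_lit 100), (nat_lit 51))⟩, (nat_lit 0), (nat_lit 193), (nat_lit 193), (nat_lit 0), (nat_lit 298786), [(nat_lit 1705613343), (nat_lit 1816090668), (nat_lit 1164934400)], [(nat_lit 0), (nat_lit 0), (nat_lit 0)], [(nat_lit 23021559411), (nat_lit 23981510374), (nat_lit 27412264538), (nat_lit 28539506625), (nat_lit 24038981954), (nat_lit 24951776179), (nat_lit 28073461488), (nat_lit 29085858782)], (nat_lit 1271251), (nat_lit 1271251), (nat_lit 1271251), (nat_lit 1271251), (nat_lit 780000), (nat_lit 1435001), [(nat_lit 490000), (nat_lit 1100000), (nat_lit 1442501)],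 [(nat_lit 3), (nat_lit 50), (nat_lit 260), (nat_lit 50), (nat_lit 8)]⟩,
 ⟨⟨[(nat_lit 120), (nat_lit 140), (nat_lit 160)], [(nat_lit 0), (nat_lit 266), (nat_lit 862)], [((nat_lit 0), (nat_lit 0), (nat_lit 0)), ((nat_lit 960), (nat_lit 1000), (nat_lit 200)), ((nat_lit 874), (nat_lit 1000), (nat_lit 406))], ((nat_lit 100), (nat_lit 81), (nat_lit 51))⟩, (nat_lit 1382854), (nat_lit 689), (nat_lit 689), (nat_lit 0), (nat_lit 900026), [(nat_lit 1370496000), (nat_lit 1692824000), (nat_lit 2041984000)], [], [(nat_lit 6260657964), (nat_lit 6209476428), (nat_lit 6800012167), (nat_lit 6820534858), (nat_lit 5172560126), (nat_lit 5035791585), (nat_lit 5402865520), (nat_lit 5330427260)], (nat_lit 1271251), (nat_lit 1271251), (nat_lit 1271251), (nat_lit 1271251), (nat_lit 0), (nat_lit 1412501), [(nat_lit 1695001), (nat_lit 1271251), (nat_lit 1271251)], [(nat_lit 27), (nat_lit 62), (nat_lit 428), (nat_lit 200), (nat_lit 11)]⟩,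
 ⟨⟨[(nat_lit 140), (nat_lit 180), (nat_lit 200)], [(nat_lit 0), (nat_lit 0), (nat_lit 2835)], [((nat_lit 0), (nat_lit 0), (nat_lit 0)), ((nat_lit 0), (nat_lit 0), (nat_lit 0)), ((nat_lit 363), (nat_lit 1000), (nat_lit 798))], ((nat_lit 0), (nat_lit 0), (nat_lit 0))⟩, (nat_lit 2751), (nat_lit 300), (nat_lit 1682), (nat_lit 781005), (nat_lit 2573055), [(nat_lit 98420000), (nat_lit 140580000), (nat_lit 164000000)], [], [(nat_lit 761439870), (nat_lit 679298277), (nat_lit 667137952), (nat_lit 632500274), (nat_lit 537624488), (nat_lit 593599106), (nat_lit 627578912), (nat_lit 735222094)], (nat_lit 780000), (nat_lit 1271251), (nat_lit 780000), (nat_lit 1435001), (nat_lit 0), (nat_lit 1412501), [(nat_lit 1977501), (nat_lit 1271251), (nat_lit 1271251)], [(nat_lit 32), (nat_lit 67), (nat_lit 493), (nat_lit 150), (nat_lit 11)]⟩⟩) (.leaf ⟨(nat_lit 787), (nat_lit 158), (nat_lit 0), (nat_lit 55), (nat_lit 0), (nat_lit 3810), (nat_lit 1809), (nat_lit 645), (nat_lit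 0), (nat_lit 0), (nat_lit 728200), [((nat_lit 340), [((nat_lit 37), (nat_lit 2), (nat_lit 147)), ((nat_lit 18), (nat_lit 2), (nat_lit 640))])], ⟨(nat_lit 7), false, true, true, (nat_lit 286), (nat_lit 3872), (nat_lit 4473), [(nat_lit 1614388), (nat_lit 1607248), (nat_lit 1657518), (nat_lit 1650831), (nat_lit 1784334), (nat_lit 1768552), (nat_lit 1827467), (nat_lit 1812139)]⟩, ⟨(nat_lit 3), false, false, true, (nat_lit 152), (nat_lit 3872), (nat_lit 4473), [(nat_lit 1277776), (nat_lit 1283782), (nat_lit 1342475), (nat_lit 1349162), (nat_lit 1413733), (nat_lit 1412825), (nat_lit 1478432), (nat_lit 1478205)]⟩, (nat_lit 4958452), (nat_lit 38754144), (nat_lit 20723216), (nat_lit 7522640), (nat_lit 5), (nat_lit 0), [⟨(nat_lit 1), (nat_lit 65), (nat_lit 76), (nat_lit 100), (nat_lit 98644872)⟩], [], [], [⟨(nat_lit 1), (nat_lit 81), (nat_lit 78), (nat_lit 100), (nat_lit 22264439)⟩],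
 ⟨⟨[(nat_lit 40), (nat_lit 80), (nat_lit 100)], [(nat_lit 0), (nat_lit 0), (nat_lit 1280)], [((nat_lit 0), (nat_lit 0), (nat_lit 0)), ((nat_lit 0), (nat_lit 0), (nat_lit 0)), ((nat_lit 1000), (nat_lit 800), (nat_lit 600))], ((nat_lit 80), (nat_lit 100), (nat_lit 51))⟩, (nat_lit 0), (nat_lit 193), (nat_lit 193), (nat_lit 0), (nat_lit 298786), [(nat_lit 1754343065), (nat_lit 1866281748), (nat_lit 1216475600)], [(nat_lit 0), (nat_lit 0), (nat_lit 0)], [(nat_lit 23091697813), (nat_lit 24055386198), (nat_lit 27458702765), (nat_lit 28590500050), (nat_lit 24103814571), (nat_lit 25052684293), (nat_lit 28186087858), (nat_lit 29126132888)], (nat_lit 1271251), (nat_lit 1271251), (nat_lit 1271251), (nat_lit 1271251), (nat_lit 780000), (nat_lit 1435001), [(nat_lit 490000), (nat_lit 1100000), (nat_lit 1442501)], [(nat_lit 3), (nat_lit 50), (nat_lit 260), (nat_lit 50), (nat_lit 8)]⟩,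
 ⟨⟨[(nat_lit 120), (nat_lit 140), (nat_lit 160)], [(nat_lit 0), (nat_lit 266), (nat_lit 862)], [((nat_lit 0), (nat_lit 0), (nat_lit 0)), ((nat_lit 960), (nat_lit 1000), (nat_lit 200)), ((nat_lit 874), (nat_lit 1000), (nat_lit 406))], ((nat_lit 100), (nat_lit 81), (nat_lit 51))⟩, (nat_lit 1500659), (nat_lit 553), (nat_lit 553), (nat_lit 0), (nat_lit 900026), [(nat_lit 1697184000), (nat_lit 2096346000), (nat_lit 2528736000)], [], [(nat_lit 7342408812), (nat_lit 7307921292), (nat_lit 7770363584), (nat_lit 7692160746), (nat_lit 7768535868), (nat_lit 7675352429), (nat_lit 8164190784), (nat_lit 8165507902)], (nat_lit 1271251), (nat_lit 1271251), (nat_lit 1271251), (nat_lit 1271251), (nat_lit 1271251), (nat_lit 1271251), [(nat_lit 1695001), (nat_lit 1271251), (nat_lit 1271251)], [(nat_lit 27), (nat_lit 62), (nat_lit 483), (nat_lit 250), (nat_lit 12)]⟩,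
 ⟨⟨[(nat_lit 140), (nat_lit 180), (nat_lit 200)], [(nat_lit 0), (nat_lit 0), (nat_lit 2835)], [((nat_lit 0), (nat_lit 0), (nat_lit 0)), ((nat_lit 0), (nat_lit 0), (nat_lit 0)), ((nat_lit 363), (nat_lit 1000), (nat_lit 798))], ((nat_lit 0), (nat_lit 0), (nat_lit 0))⟩, (nat_lit 15132), (nat_lit 300), (nat_lit 1558), (nat_lit 4295504), (nat_lit 2573055), [(nat_lit 541310000), (nat_lit 773190000), (nat_lit 902000000)], [], [(nat_lit 3474602845), (nat_lit 3328433373), (nat_lit 3278237160), (nat_lit 3132600253), (nat_lit 3291065160), (nat_lit 3144438955), (nat_lit 3093382649), (nat_lit 2946900842)], (nat_lit 780000), (nat_lit 1271251), (nat_lit 780000), (nat_lit 1435001), (nat_lit 1271251), (nat_lit 1271251), [(nat_lit 1977501), (nat_lit 1271251), (nat_lit 1271251)], [(nat_lit 32), (nat_lit 67), (nat_lit 486), (nat_lit 200), (nat_lit 10)]⟩⟩)) (.spl (nat_lit 0) (nat_lit 330) (.spl (nat_lit 6) (nat_lit 16) (.leaf ⟨(nat_lit 0), (nat_lit 382), (nat_lit 0), (nat_lit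 618), (nat_lit 0), (nat_lit 5314), (nat_lit 9779), (nat_lit 7423), (nat_lit 0), (nat_lit 16420897358708), (nat_lit 0), [], Pd.none, Pd.none, (nat_lit 0), (nat_lit 1), (nat_lit 0), (nat_lit 0), (nat_lit 4), (nat_lit 0), [], [], [], [],
 ⟨⟨[(nat_lit 40), (nat_lit 60), (nat_lit 80)], [(nat_lit 0), (nat_lit 0), (nat_lit 615)], [((nat_lit 0), (nat_lit 0), (nat_lit 0)), ((nat_lit 0), (nat_lit 0), (nat_lit 0)), ((nat_lit 1000), (nat_lit 819), (nat_lit 426))], ((nat_lit 82), (nat_lit 100), (nat_lit 40))⟩, (nat_lit 3945396), (nat_lit 134), (nat_lit 134), (nat_lit 0), (nat_lit 206756), [(nat_lit 2170018439), (nat_lit 3282000507), (nat_lit 4688000000)], [], [(nat_lit 22220522820), (nat_lit 22938249348), (nat_lit 29454219741), (nat_lit 30117990056), (nat_lit 23330075256), (nat_lit 23964438788), (nat_lit 29676460033), (nat_lit 30266614401)], (nat_lit 1271251), (nat_lit 1271251), (nat_lit 1271251), (nat_lit 1271251), (nat_lit 780000), (nat_lit 1435001), [(nat_lit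 490000), (nat_lit 780000), (nat_lit 1100000)], [(nat_lit 2), (nat_lit 44), (nat_lit 260), (nat_lit 50), (nat_lit 10)]⟩,
 ⟨⟨[(nat_lit 120), (nat_lit 140), (nat_lit 160)], [(nat_lit 0), (nat_lit 266), (nat_lit 862)], [((nat_lit 0), (nat_lit 0), (nat_lit 0)), ((nat_lit 960), (nat_lit 1000), (nat_lit 200)), ((nat_lit 874), (nat_lit 1000), (nat_lit 406))], ((nat_lit 100), (nat_lit 88), (nat_lit 39))⟩, (nat_lit 11109541), (nat_lit 542), (nat_lit 542), (nat_lit 0), (nat_lit 583875), [(nat_lit 7968000000), (nat_lit 9842000000), (nat_lit 11872000000)], [], [(nat_lit 34031555302), (nat_lit 34236307454), (nat_lit 38238705893), (nat_lit 39366451414), (nat_lit 46452859310), (nat_lit 38057174647), (nat_lit 40225598215), (nat_lit 40100885912)], (nat_lit 1271251), (nat_lit 1271251), (nat_lit 1271251), (nat_lit 1271251), (nat_lit 0), (nat_lit 2754376), [(nat_lit 1695001), (nat_lit 1271251), (nat_lit 1271251)], [(nat_lit 27), (nat_lit 62), (nat_lit 483), (nat_lit 250),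 (nat_lit 12)]⟩,
 ⟨⟨[(nat_lit 120), (nat_lit 140), (nat_lit 160)], [(nat_lit 0), (nat_lit 266), (nat_lit 862)], [((nat_lit 0), (nat_lit 0), (nat_lit 0)), ((nat_lit 960), (nat_lit 1000), (nat_lit 200)), ((nat_lit 874), (nat_lit 1000), (nat_lit 406))], ((nat_lit 100), (nat_lit 88), (nat_lit 39))⟩, (nat_lit 1472462), (nat_lit 300), (nat_lit 584), (nat_lit 41035200), (nat_lit 583875), [(nat_lit 4924224000), (nat_lit 6082356000), (nat_lit 7336896000)], [], [(nat_lit 27743055248), (nat_lit 27673647964), (nat_lit 26656064422), (nat_lit 26491456457), (nat_lit 38888510282), (nat_lit 32185926350), (nat_lit 46635369460), (nat_lit 40101935285)], (nat_lit 1271251), (nat_lit 1271251), (nat_lit 780000), (nat_lit 1435001), (nat_lit 0), (nat_lit 2754376), [(nat_lit 1695001), (nat_lit 1271251), (nat_lit 1271251)], [(nat_lit 27), (nat_lit 62), (nat_lit 456), (nat_lit 225), (nat_lit 12)]⟩⟩) (.dle (nat_lit 0))) (.trX (nat_lit 3) (nat_lit 0) (nat_lit 1) (nat_lit 76) (nat_lit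 57) (nat_lit 100) (nat_lit 370) (.leaf ⟨(nat_lit 823), (nat_lit 67), (nat_lit 0), (nat_lit 110), (nat_lit 0), (nat_lit 3683), (nat_lit 1691), (nat_lit 1433), (nat_lit 0), (nat_lit 3486956526636), (nat_lit 772600), [((nat_lit 340), [((nat_lit 37), (nat_lit 2), (nat_lit 126)), ((nat_lit 18), (nat_lit 2), (nat_lit 697))])], ⟨(nat_lit 7), false, true, true, (nat_lit 282), (nat_lit 3872), (nat_lit 4184), [(nat_lit 1610843), (nat_lit 1607248), (nat_lit 1654176), (nat_lit 1650835), (nat_lit 1759918), (nat_lit 1752422), (nat_lit 1803252), (nat_lit 1796008)]⟩, ⟨(nat_lit 4), false, false, false, (nat_lit 174), (nat_lit 3872), (nat_lit 4184), [(nat_lit 1345820), (nat_lit 1349161), (nat_lit 1389144), (nat_lit 1392739), (nat_lit 1478332), (nat_lit 1478205), (nat_lit 1521662), (nat_lit 1521788)]⟩, (nat_lit 5134493), (nat_lit 37962320), (nat_lit 19882404), (nat_lit 9155276), (nat_lit 4), (nat_lit 0), [⟨(nat_lit 1), (nat_lit 67), (nat_lit 74), (nat_lit 100), (nat_lit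 128430789)⟩], [], [], [],
 ⟨⟨[(nat_lit 40), (nat_lit 80), (nat_lit 100)], [(nat_lit 0), (nat_lit 395), (nat_lit 1536)], [((nat_lit 0), (nat_lit 0), (nat_lit 0)), ((nat_lit 1000), (nat_lit 908), (nat_lit 154)), ((nat_lit 1000), (nat_lit 760), (nat_lit 642))], ((nat_lit 77), (nat_lit 100), (nat_lit 52))⟩, (nat_lit 0), (nat_lit 174), (nat_lit 174), (nat_lit 0), (nat_lit 272078), [(nat_lit 1820669403), (nat_lit 1653915402), (nat_lit 942088400)], [(nat_lit 0), (nat_lit 0), (nat_lit 0)], [(nat_lit 23437793966), (nat_lit 23926218110), (nat_lit 27206194887), (nat_lit 27779835976), (nat_lit 24503105649), (nat_lit 24954989747), (nat_lit 27907811732), (nat_lit 28420283584)], (nat_lit 1271251), (nat_lit 1271251), (nat_lit 1271251), (nat_lit 1271251), (nat_lit 780000), (nat_lit 1435001), [(nat_lit 490000), (nat_lit 1100000), (nat_lit 1442501)], [(nat_lit 3), (nat_lit 50), (nat_lit 260), (nat_lit 50), (nat_lit 8)]⟩,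
 ⟨⟨[(nat_lit 120), (nat_lit 140), (nat_lit 160)], [(nat_lit 0), (nat_lit 266), (nat_lit 862)], [((nat_lit 0), (nat_lit 0), (nat_lit 0)), ((nat_lit 960), (nat_lit 1000), (nat_lit 200)), ((nat_lit 874), (nat_lit 1000), (nat_lit 406))], ((nat_lit 100), (nat_lit 81), (nat_lit 51))⟩, (nat_lit 1457197), (nat_lit 687), (nat_lit 687), (nat_lit 0), (nat_lit 896566), [(nat_lit 1410336000), (nat_lit 1742034000), (nat_lit 2101344000)], [], [(nat_lit 6536807101), (nat_lit 6492834430), (nat_lit 6903170921), (nat_lit 6889612453), (nat_lit 8231580137), (nat_lit 6779785192), (nat_lit 6915693358), (nat_lit 6909044193)], (nat_lit 1271251), (nat_lit 1271251), (nat_lit 1271251), (nat_lit 1271251), (nat_lit 0), (nat_lit 2754376), [(nat_lit 1695001), (nat_lit 1271251), (nat_lit 1271251)], [(nat_lit 27), (nat_lit 62), (nat_lit 483), (nat_lit 250), (nat_lit 12)]⟩,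
 ⟨⟨[(nat_lit 120), (nat_lit 140), (nat_lit 160)], [(nat_lit 0), (nat_lit 266), (nat_lit 862)], [((nat_lit 0), (nat_lit 0), (nat_lit 0)), ((nat_lit 960), (nat_lit 1000), (nat_lit 200)), ((nat_lit 874), (nat_lit 1000), (nat_lit 406))], ((nat_lit 100), (nat_lit 81), (nat_lit 51))⟩, (nat_lit 225789), (nat_lit 300), (nat_lit 740), (nat_lit 7304001), (nat_lit 896566), [(nat_lit 876480000), (nat_lit 1082620000), (nat_lit 1305920000)], [], [(nat_lit 4779031920), (nat_lit 4758177860), (nat_lit 4753216302), (nat_lit 4516531176), (nat_lit 7071957398), (nat_lit 5778032735), (nat_lit 8543101308), (nat_lit 7281830774)], (nat_lit 1271251), (nat_lit 1271251), (nat_lit 780000), (nat_lit 1435001), (nat_lit 0), (nat_lit 2754376), [(nat_lit 1695001), (nat_lit 1271251), (nat_lit 1271251)], [(nat_lit 27), (nat_lit 62), (nat_lit 456), (nat_lit 225), (nat_lit 12)]⟩⟩))))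
noncomputable def c10_29 : Tr Lf :=
 (.spl (nat_lit 5) (nat_lit 200) (.spl (nat_lit 2) (nat_lit 180) (.leaf ⟨(nat_lit 204), (nat_lit 796), (nat_lit 0), (nat_lit 0), (nat_lit 0), (nat_lit 5119), (nat_lit 6486), (nat_lit 0), (nat_lit 0), (nat_lit 0), (nat_lit 816000), [((nat_lit 340), [((nat_lit 37), (nat_lit 5), (nat_lit 204))])], ⟨(nat_lit 7), false, true, true, (nat_lit 302), (nat_lit 3872), (nat_lit 4473), [(nat_lit 1657518), (nat_lit 1650831), (nat_lit 1679069), (nat_lit 1672609), (nat_lit 1844461), (nat_lit 1828269), (nat_lit 1866022), (nat_lit 1850057)]⟩, ⟨(nat_lit 3), false, false, false, (nat_lit 112), (nat_lit 3872), (nat_lit 4473), [(nat_lit 1073842), (nat_lit 1090218), (nat_lit 1138518), (nat_lit 1155575), (nat_lit 1413733), (nat_lit 1412825), (nat_lit 1478432), (nat_lit 1478205)]⟩, (nat_lit 4604568), (nat_lit 39248434), (nat_lit 22995488), (nat_lit 4756078), (nat_lit 3), (nat_lit 0), [⟨(nat_lit 1), (nat_lit 53), (nat_lit 77), (nat_lit 100),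 (nat_lit 22645720)⟩], [], [], [],
 ⟨⟨[(nat_lit 40), (nat_lit 80), (nat_lit 100)], [(nat_lit 0), (nat_lit 0), (nat_lit 1280)], [((nat_lit 0), (nat_lit 0), (nat_lit 0)), ((nat_lit 0), (nat_lit 0), (nat_lit 0)), ((nat_lit 1000), (nat_lit 800), (nat_lit 600))], ((nat_lit 80), (nat_lit 100), (nat_lit 57))⟩, (nat_lit 283331), (nat_lit 290), (nat_lit 290), (nat_lit 0), (nat_lit 359155), [(nat_lit 2316554870), (nat_lit 2857144332), (nat_lit 2463923200)], [(nat_lit 0), (nat_lit 0), (nat_lit 0)], [(nat_lit 25909511422), (nat_lit 27835577998), (nat_lit 34734485774), (nat_lit 36101349213), (nat_lit 24490113966), (nat_lit 25374988936), (nat_lit 30165961768), (nat_lit 31287297171)], (nat_lit 1271251), (nat_lit 1271251), (nat_lit 1271251), (nat_lit 1271251), (nat_lit 0), (nat_lit 1412501), [(nat_lit 490000), (nat_lit 1100000), (nat_lit 1442501)], [(nat_lit 3), (nat_lit 50), (nat_lit 260), (nat_lit 50), (nat_lit 9)]⟩,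
 ⟨⟨[(nat_lit 100), (nat_lit 140), (nat_lit 160)], [(nat_lit 0), (nat_lit 508), (nat_lit 1689)], [((nat_lit 0), (nat_lit 0), (nat_lit 0)), ((nat_lit 1000), (nat_lit 1000), (nat_lit 198)), ((nat_lit 811), (nat_lit 1000), (nat_lit 671))], ((nat_lit 100), (nat_lit 88), (nat_lit 58))⟩, (nat_lit 7220018), (nat_lit 600), (nat_lit 600), (nat_lit 0), (nat_lit 757268), [(nat_lit 4975000000), (nat_lit 7834232000), (nat_lit 9450112000)], [], [(nat_lit 25706679622), (nat_lit 25807473520), (nat_lit 29636396639), (nat_lit 30058978206), (nat_lit 22152118339), (nat_lit 22240856964), (nat_lit 24658938746), (nat_lit 24633368679)], (nat_lit 1271251), (nat_lit 1271251), (nat_lit 1271251), (nat_lit 1271251), (nat_lit 0), (nat_lit 1412501), [(nat_lit 1412501), (nat_lit 1271251), (nat_lit 1271251)], [(nat_lit 23), (nat_lit 62), (nat_lit 456), (nat_lit 225), (nat_lit 11)]⟩,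
 Rw.none⟩) (.trZ (nat_lit 0) (nat_lit 2) (nat_lit 4) (nat_lit 100) (nat_lit 80) (nat_lit 52) (nat_lit 20) (.spl (nat_lit 0) (nat_lit 330) (.spl (nat_lit 6) (nat_lit 24) (.leaf ⟨(nat_lit 49), (nat_lit 825), (nat_lit 0), (nat_lit 126), (nat_lit 0), (nat_lit 5245), (nat_lit 7297), (nat_lit 1820), (nat_lit 0), (nat_lit 12847593326606), (nat_lit 196000), [((nat_lit 330), [((nat_lit 37), (nat_lit 5), (nat_lit 49))])], ⟨(nat_lit 7), false, true, true, (nat_lit 304), (nat_lit 4183), (nat_lit 4473), [(nat_lit 1657520), (nat_lit 1654175), (nat_lit 1679082), (nat_lit 1675838), (nat_lit 1844461), (nat_lit 1836379), (nat_lit 1866025), (nat_lit 1858043)]⟩, ⟨(nat_lit 4), false, false, false, (nat_lit 144), (nat_lit 4183), (nat_lit 4473), [(nat_lit 1172530), (nat_lit 1180181), (nat_lit 1237219), (nat_lit 1245170), (nat_lit 1478432), (nat_lit 1478332), (nat_lit 1543125), (nat_lit 1543325)]⟩, (nat_lit 4930398), (nat_lit 37736491), (nat_lit 22463391), (nat_lit 6800118),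 (nat_lit 4), (nat_lit 0), [], [⟨(nat_lit 0), (nat_lit 100), (nat_lit 78), (nat_lit 81), (nat_lit 49983453)⟩], [⟨(nat_lit 0), (nat_lit 100), (nat_lit 99), (nat_lit 20), (nat_lit 392238)⟩, ⟨(nat_lit 0), (nat_lit 100), (nat_lit 100), (nat_lit 40), (nat_lit 33854336)⟩], [],
 ⟨⟨[(nat_lit 40), (nat_lit 80), (nat_lit 100)], [(nat_lit 0), (nat_lit 0), (nat_lit 1280)], [((nat_lit 0), (nat_lit 0), (nat_lit 0)), ((nat_lit 0), (nat_lit 0), (nat_lit 0)), ((nat_lit 1000), (nat_lit 800), (nat_lit 600))], ((nat_lit 81), (nat_lit 100), (nat_lit 48))⟩, (nat_lit 1403856), (nat_lit 254), (nat_lit 254), (nat_lit 0), (nat_lit 304406), [(nat_lit 2015035213), (nat_lit 4217423698), (nat_lit 5340599200)], [(nat_lit 0), (nat_lit 0), (nat_lit 0)], [(nat_lit 28666702892), (nat_lit 29259044470), (nat_lit 34190326502), (nat_lit 34636785120), (nat_lit 27855383807), (nat_lit 28302578438), (nat_lit 32253971014), (nat_lit 32617214258)], (nat_lit 1271251), (nat_lit 1271251), (nat_lit 1271251),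 (nat_lit 1271251), (nat_lit 111251), (nat_lit 1416250), [(nat_lit 490000), (nat_lit 1100000), (nat_lit 1442501)], [(nat_lit 3), (nat_lit 50), (nat_lit 260), (nat_lit 50), (nat_lit 9)]⟩,
 ⟨⟨[(nat_lit 100), (nat_lit 120), (nat_lit 140)], [(nat_lit 0), (nat_lit 254), (nat_lit 778)], [((nat_lit 0), (nat_lit 0), (nat_lit 0)), ((nat_lit 1000), (nat_lit 1000), (nat_lit 198)), ((nat_lit 960), (nat_lit 1000), (nat_lit 392))], ((nat_lit 100), (nat_lit 93), (nat_lit 48))⟩, (nat_lit 9693286), (nat_lit 482), (nat_lit 482), (nat_lit 0), (nat_lit 612389), [(nat_lit 5943750000), (nat_lit 7577568000), (nat_lit 9359742000)], [], [(nat_lit 29580619584), (nat_lit 29936640278), (nat_lit 34694248563), (nat_lit 34838563097), (nat_lit 26310252538), (nat_lit 26533800688), (nat_lit 30206289618), (nat_lit 30264042499)], (nat_lit 1271251), (nat_lit 1271251), (nat_lit 1271251), (nat_lit 1271251), (nat_lit 0), (nat_lit 1412501), [(nat_lit 1412501), (nat_lit 1271251), (nat_lit 1271251)],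 [(nat_lit 22), (nat_lit 58), (nat_lit 345), (nat_lit 125), (nat_lit 10)]⟩,
 ⟨⟨[(nat_lit 120), (nat_lit 140), (nat_lit 160)], [(nat_lit 0), (nat_lit 266), (nat_lit 862)], [((nat_lit 0), (nat_lit 0), (nat_lit 0)), ((nat_lit 960), (nat_lit 1000), (nat_lit 200)), ((nat_lit 874), (nat_lit 1000), (nat_lit 406))], ((nat_lit 100), (nat_lit 83), (nat_lit 48))⟩, (nat_lit 262307), (nat_lit 300), (nat_lit 773), (nat_lit 8366400), (nat_lit 807711), [(nat_lit 1003968000), (nat_lit 1240092000), (nat_lit 1495872000)], [], [(nat_lit 9278737545), (nat_lit 6346849376), (nat_lit 5364565682), (nat_lit 4865961016), (nat_lit 5294097620), (nat_lit 4565883182), (nat_lit 7487048541), (nat_lit 4930511376)], (nat_lit 1271251), (nat_lit 1271251), (nat_lit 111251), (nat_lit 1416250), (nat_lit 0), (nat_lit 1412501), [(nat_lit 1695001), (nat_lit 1271251), (nat_lit 1271251)], [(nat_lit 27), (nat_lit 62), (nat_lit 401), (nat_lit 175), (nat_lit 11)]⟩⟩) (.dle (nat_lit 0))) (.trX (nat_lit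 3) (nat_lit 0) (nat_lit 1) (nat_lit 78) (nat_lit 49) (nat_lit 100) (nat_lit 380) (.trZ (nat_lit 0) (nat_lit 2) (nat_lit 4) (nat_lit 100) (nat_lit 76) (nat_lit 57) (nat_lit 30) (.leaf ⟨(nat_lit 0), (nat_lit 934), (nat_lit 0), (nat_lit 66), (nat_lit 0), (nat_lit 4668), (nat_lit 8141), (nat_lit 902), (nat_lit 0), (nat_lit 18623420423470), (nat_lit 0), [], Pd.none, Pd.none, (nat_lit 0), (nat_lit 1), (nat_lit 0), (nat_lit 0), (nat_lit 4), (nat_lit 0), [], [], [], [⟨(nat_lit 0), (nat_lit 100), (nat_lit 84), (nat_lit 29), (nat_lit 25769526)⟩],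
 ⟨⟨[(nat_lit 40), (nat_lit 80), (nat_lit 100)], [(nat_lit 0), (nat_lit 395), (nat_lit 1536)], [((nat_lit 0), (nat_lit 0), (nat_lit 0)), ((nat_lit 1000), (nat_lit 908), (nat_lit 154)), ((nat_lit 1000), (nat_lit 760), (nat_lit 642))], ((nat_lit 76), (nat_lit 100), (nat_lit 58))⟩, (nat_lit 6481943), (nat_lit 263), (nat_lit 263), (nat_lit 0), (nat_lit 360166), [(nat_lit 2032000005), (nat_lit 4688000005), (nat_lit 6250000000)], [], [(nat_lit 24688892996), (nat_lit 25584943727), (nat_lit 31921778045), (nat_lit 32588423661), (nat_lit 23924464689), (nat_lit 24349882994), (nat_lit 29558510141), (nat_lit 30113423835)], (nat_lit 1271251), (nat_lit 1271251), (nat_lit 1271251), (nat_lit 1271251), (nat_lit 169688), (nat_lit 1418125), [(nat_lit 490000), (nat_lit 1100000), (nat_lit 1442501)], [(nat_lit 3), (nat_lit 50), (nat_lit 260), (nat_lit 50), (nat_lit 9)]⟩,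
 ⟨⟨[(nat_lit 100), (nat_lit 140), (nat_lit 160)], [(nat_lit 0), (nat_lit 508), (nat_lit 1689)], [((nat_lit 0), (nat_lit 0), (nat_lit 0)), ((nat_lit 1000), (nat_lit 1000), (nat_lit 198)), ((nat_lit 811), (nat_lit 1000), (nat_lit 671))], ((nat_lit 100), (nat_lit 88), (nat_lit 58))⟩, (nat_lit 9204015), (nat_lit 620), (nat_lit 620), (nat_lit 0), (nat_lit 805196), [(nat_lit 6250000000), (nat_lit 9842000000), (nat_lit 11872000000)], [], [(nat_lit 32255593336), (nat_lit 32382437868), (nat_lit 35703435642), (nat_lit 36292206104), (nat_lit 27864161789), (nat_lit 27975862938), (nat_lit 30689397535), (nat_lit 30671022161)], (nat_lit 1271251), (nat_lit 1271251), (nat_lit 1271251), (nat_lit 1271251), (nat_lit 0), (nat_lit 1412501), [(nat_lit 1412501), (nat_lit 1271251), (nat_lit 1271251)], [(nat_lit 23), (nat_lit 62), (nat_lit 456), (nat_lit 225), (nat_lit 11)]⟩,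
 ⟨⟨[(nat_lit 120), (nat_lit 160), (nat_lit 180)], [(nat_lit 0), (nat_lit 533), (nat_lit 2066)], [((nat_lit 0), (nat_lit 0), (nat_lit 0)), ((nat_lit 960), (nat_lit 1000), (nat_lit 200)), ((nat_lit 615), (nat_lit 1000), (nat_lit 729))], ((nat_lit 100), (nat_lit 76), (nat_lit 58))⟩, (nat_lit 154537), (nat_lit 300), (nat_lit 986), (nat_lit 4382400), (nat_lit 1109955), [(nat_lit 525888000), (nat_lit 783552000), (nat_lit 927828000)], [], [(nat_lit 4484078745), (nat_lit 4117235986), (nat_lit 3275411007), (nat_lit 3180189936), (nat_lit 3063948690), (nat_lit 2970193067), (nat_lit 3874158305), (nat_lit 2607127248)], (nat_lit 1271251), (nat_lit 1271251), (nat_lit 169688), (nat_lit 1418125), (nat_lit 0), (nat_lit 1412501), [(nat_lit 1695001), (nat_lit 1271251), (nat_lit 1271251)], [(nat_lit 28), (nat_lit 65), (nat_lit 401), (nat_lit 175), (nat_lit 10)]⟩⟩)))))) (.trZ (nat_lit 5) (nat_lit 3) (nat_lit 4) (nat_lit 92) (nat_lit 100) (nat_lit 40) (nat_lit 10) (.spl (nat_lit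 2) (nat_lit 180) (.leaf ⟨(nat_lit 419), (nat_lit 488), (nat_lit 0), (nat_lit 93), (nat_lit 0), (nat_lit 4968), (nat_lit 4335), (nat_lit 1070), (nat_lit 0), (nat_lit 0), (nat_lit 800000), [((nat_lit 340), [((nat_lit 18), (nat_lit 2), (nat_lit 292)), ((nat_lit 37), (nat_lit 5), (nat_lit 127))])], ⟨(nat_lit 7), false, true, true, (nat_lit 302), (nat_lit 3872), (nat_lit 4473), [(nat_lit 1657518), (nat_lit 1650831), (nat_lit 1679069), (nat_lit 1672609), (nat_lit 1844461), (nat_lit 1828269), (nat_lit 1866022), (nat_lit 1850057)]⟩, ⟨(nat_lit 3), false, false, false, (nat_lit 115), (nat_lit 3872), (nat_lit 4473), [(nat_lit 1090836), (nat_lit 1106348), (nat_lit 1155515), (nat_lit 1171707), (nat_lit 1413733), (nat_lit 1412825), (nat_lit 1478432), (nat_lit 1478205)]⟩, (nat_lit 4640417), (nat_lit 39105880), (nat_lit 22933226), (nat_lit 4960894), (nat_lit 5), (nat_lit 0), [], [], [], [⟨(nat_lit 1), (nat_lit 93), (nat_lit 78), (nat_lit 100), (nat_lit 153770434)⟩],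
 ⟨⟨[(nat_lit 40), (nat_lit 80), (nat_lit 100)], [(nat_lit 0), (nat_lit 0), (nat_lit 1280)], [((nat_lit 0), (nat_lit 0), (nat_lit 0)), ((nat_lit 0), (nat_lit 0), (nat_lit 0)), ((nat_lit 1000), (nat_lit 800), (nat_lit 600))], ((nat_lit 80), (nat_lit 100), (nat_lit 57))⟩, (nat_lit 0), (nat_lit 278), (nat_lit 278), (nat_lit 0), (nat_lit 359155), [(nat_lit 2115372952), (nat_lit 2468591346), (nat_lit 1938567200)], [(nat_lit 0), (nat_lit 0), (nat_lit 0)], [(nat_lit 25164824936), (nat_lit 27045624482), (nat_lit 33801239854), (nat_lit 35141358603), (nat_lit 23619555474), (nat_lit 24522861322), (nat_lit 29997785178), (nat_lit 31103532492)], (nat_lit 1271251), (nat_lit 1271251), (nat_lit 1271251), (nat_lit 1271251), (nat_lit 54688), (nat_lit 1414376), [(nat_lit 490000), (nat_lit 1100000), (nat_lit 1442501)], [(nat_lit 3), (nat_lit 50), (nat_lit 260), (nat_lit 50), (nat_lit 9)]⟩,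
 ⟨⟨[(nat_lit 100), (nat_lit 140), (nat_lit 160)], [(nat_lit 0), (nat_lit 508), (nat_lit 1689)], [((nat_lit 0), (nat_lit 0), (nat_lit 0)), ((nat_lit 1000), (nat_lit 1000), (nat_lit 198)), ((nat_lit 811), (nat_lit 1000), (nat_lit 671))], ((nat_lit 100), (nat_lit 88), (nat_lit 58))⟩, (nat_lit 4911655), (nat_lit 467), (nat_lit 467), (nat_lit 0), (nat_lit 757268), [(nat_lit 3631250000), (nat_lit 5718202000), (nat_lit 6897632000)], [], [(nat_lit 17170772796), (nat_lit 17208827460), (nat_lit 18928983470), (nat_lit 18949461633), (nat_lit 19323118566), (nat_lit 19323060109), (nat_lit 21831164874), (nat_lit 21848311223)], (nat_lit 1271251), (nat_lit 1271251), (nat_lit 1271251), (nat_lit 1271251), (nat_lit 1271251), (nat_lit 1271251), [(nat_lit 1412501), (nat_lit 1271251), (nat_lit 1271251)], [(nat_lit 23), (nat_lit 62), (nat_lit 538), (nat_lit 300), (nat_lit 13)]⟩,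
 ⟨⟨[(nat_lit 140), (nat_lit 180), (nat_lit 200)], [(nat_lit 0), (nat_lit 0), (nat_lit 2835)], [((nat_lit 0), (nat_lit 0), (nat_lit 0)), ((nat_lit 0), (nat_lit 0), (nat_lit 0)), ((nat_lit 363), (nat_lit 1000), (nat_lit 798))], ((nat_lit 0), (nat_lit 0), (nat_lit 0))⟩, (nat_lit 25589), (nat_lit 300), (nat_lit 1884), (nat_lit 7263300), (nat_lit 3096540), [(nat_lit 915306000), (nat_lit 1307394000), (nat_lit 1525200000)], [], [(nat_lit 6677546691), (nat_lit 6428360186), (nat_lit 5662335450), (nat_lit 5554132308), (nat_lit 6421032154), (nat_lit 6166970137), (nat_lit 5303358839), (nat_lit 5054363996)], (nat_lit 780000), (nat_lit 1271251), (nat_lit 54688), (nat_lit 1414376), (nat_lit 1271251), (nat_lit 1271251), [(nat_lit 1977501), (nat_lit 1271251), (nat_lit 1271251)], [(nat_lit 32), (nat_lit 67), (nat_lit 568), (nat_lit 200), (nat_lit 12)]⟩⟩) (.trZ (nat_lit 0) (nat_lit 2) (nat_lit 4) (nat_lit 100) (nat_lit 80) (nat_lit 52) (nat_lit 20) (.leaf ⟨(nat_lit 0),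 (nat_lit 448), (nat_lit 0), (nat_lit 552), (nat_lit 0), (nat_lit 5650), (nat_lit 9055), (nat_lit 5928), (nat_lit 0), (nat_lit 524951), (nat_lit 0), [], Pd.none, Pd.none, (nat_lit 0), (nat_lit 1), (nat_lit 0), (nat_lit 0), (nat_lit 5), (nat_lit 0), [], [⟨(nat_lit 0), (nat_lit 100), (nat_lit 76), (nat_lit 69), (nat_lit 355252854)⟩], [], [⟨(nat_lit 1), (nat_lit 100), (nat_lit 79), (nat_lit 96), (nat_lit 118113779)⟩],
 ⟨⟨[(nat_lit 40), (nat_lit 80), (nat_lit 100)], [(nat_lit 0), (nat_lit 0), (nat_lit 1280)], [((nat_lit 0), (nat_lit 0), (nat_lit 0)), ((nat_lit 0), (nat_lit 0), (nat_lit 0)), ((nat_lit 1000), (nat_lit 800), (nat_lit 600))], ((nat_lit 80), (nat_lit 100), (nat_lit 57))⟩, (nat_lit 2596977), (nat_lit 273), (nat_lit 273), (nat_lit 0), (nat_lit 364246), [(nat_lit 2165792914), (nat_lit 4688000033), (nat_lit 6250000000)], [], [(nat_lit 29306751174), (nat_lit 30538500343), (nat_lit 35025484749), (nat_lit 36364662071), (nat_lit 28141302449), (nat_lit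 29128352099), (nat_lit 32709136999), (nat_lit 33455564446)], (nat_lit 1271251), (nat_lit 1271251), (nat_lit 1271251), (nat_lit 1271251), (nat_lit 111251), (nat_lit 1416250), [(nat_lit 490000), (nat_lit 1100000), (nat_lit 1442501)], [(nat_lit 3), (nat_lit 50), (nat_lit 260), (nat_lit 50), (nat_lit 9)]⟩,
 ⟨⟨[(nat_lit 100), (nat_lit 140), (nat_lit 160)], [(nat_lit 0), (nat_lit 508), (nat_lit 1689)], [((nat_lit 0), (nat_lit 0), (nat_lit 0)), ((nat_lit 1000), (nat_lit 1000), (nat_lit 198)), ((nat_lit 811), (nat_lit 1000), (nat_lit 671))], ((nat_lit 100), (nat_lit 88), (nat_lit 58))⟩, (nat_lit 10598272), (nat_lit 499), (nat_lit 499), (nat_lit 0), (nat_lit 805678), [(nat_lit 6250000000), (nat_lit 9842000000), (nat_lit 11872000000)], [], [(nat_lit 22252208989), (nat_lit 22458942170), (nat_lit 29752621543), (nat_lit 30201357440), (nat_lit 32640833545), (nat_lit 32906143058), (nat_lit 39840311950), (nat_lit 39784130170)], (nat_lit 1271251), (nat_lit 1271251),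 (nat_lit 1271251), (nat_lit 1271251), (nat_lit 1271251), (nat_lit 1271251), [(nat_lit 1412501), (nat_lit 1271251), (nat_lit 1271251)], [(nat_lit 23), (nat_lit 62), (nat_lit 538), (nat_lit 300), (nat_lit 13)]⟩,
 ⟨⟨[(nat_lit 120), (nat_lit 160), (nat_lit 180)], [(nat_lit 0), (nat_lit 533), (nat_lit 2066)], [((nat_lit 0), (nat_lit 0), (nat_lit 0)), ((nat_lit 960), (nat_lit 1000), (nat_lit 200)), ((nat_lit 615), (nat_lit 1000), (nat_lit 729))], ((nat_lit 100), (nat_lit 76), (nat_lit 58))⟩, (nat_lit 1419773), (nat_lit 300), (nat_lit 859), (nat_lit 36652800), (nat_lit 1115028), [(nat_lit 4398336000), (nat_lit 6553344000), (nat_lit 7760016000)], [], [(nat_lit 29844940452), (nat_lit 29067973044), (nat_lit 26952196206), (nat_lit 24184198920), (nat_lit 29680717668), (nat_lit 28859317626), (nat_lit 24384517739), (nat_lit 23548702962)], (nat_lit 1271251), (nat_lit 1271251), (nat_lit 111251), (nat_lit 1416250), (nat_lit 1271251), (nat_lit 1271251), [(nat_lit 1695001),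 (nat_lit 1271251), (nat_lit 1271251)], [(nat_lit 28), (nat_lit 65), (nat_lit 456), (nat_lit 225), (nat_lit 11)]⟩⟩)))))
noncomputable def c10_30 : Tr Lf :=
 (.trX (nat_lit 3) (nat_lit 0) (nat_lit 1) (nat_lit 80) (nat_lit 68) (nat_lit 100) (nat_lit 350) (.spl (nat_lit 6) (nat_lit 28) (.spl (nat_lit 6) (nat_lit 16) (.spl (nat_lit 5) (nat_lit 120) (.spl (nat_lit 0) (nat_lit 330) (.leaf ⟨(nat_lit 935), (nat_lit 0), (nat_lit 0), (nat_lit 65), (nat_lit 101), (nat_lit 3364), (nat_lit 854), (nat_lit 859), (nat_lit 0), (nat_lit 27668), (nat_lit 649800), [((nat_lit 330), [((nat_lit 37), (nat_lit 2), (nat_lit 713)), ((nat_lit 18), (nat_lit 2), (nat_lit 222))])], ⟨(nat_lit 5), false, false, true, (nat_lit 229), (nat_lit 4183), (nat_lit 4473), [(nat_lit 1413733), (nat_lit 1413332), (nat_lit 1478432), (nat_lit 1478332), (nat_lit 1668651), (nat_lit 1661790), (nat_lit 1733350), (nat_lit 1726790)]⟩, ⟨(nat_lit 5), false, false, true, (nat_lit 229), (nat_lit 4183), (nat_lit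 4473), [(nat_lit 1413733), (nat_lit 1413332), (nat_lit 1478432), (nat_lit 1478332), (nat_lit 1668651), (nat_lit 1661790), (nat_lit 1733350), (nat_lit 1726790)]⟩, (nat_lit 5281093), (nat_lit 38469134), (nat_lit 14265433), (nat_lit 14265433), (nat_lit 0), (nat_lit 0), [], [⟨(nat_lit 1), (nat_lit 83), (nat_lit 81), (nat_lit 100), (nat_lit 5772606)⟩], [], [⟨(nat_lit 0), (nat_lit 100), (nat_lit 100), (nat_lit 75), (nat_lit 99630793)⟩],
 ⟨⟨[(nat_lit 40), (nat_lit 60), (nat_lit 80)], [(nat_lit 0), (nat_lit 0), (nat_lit 615)], [((nat_lit 0), (nat_lit 0), (nat_lit 0)), ((nat_lit 0), (nat_lit 0), (nat_lit 0)), ((nat_lit 1000), (nat_lit 819), (nat_lit 426))], ((nat_lit 82), (nat_lit 100), (nat_lit 40))⟩, (nat_lit 0), (nat_lit 110), (nat_lit 110), (nat_lit 0), (nat_lit 174999), [(nat_lit 1357015869), (nat_lit 1770424736), (nat_lit 1538182400)], [(nat_lit 0), (nat_lit 0), (nat_lit 0)], [(nat_lit 20324786850), (nat_lit 20905656239), (nat_lit 26014238852), (nat_lit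 26472368343), (nat_lit 26014238852), (nat_lit 26472368343), (nat_lit 30717535948), (nat_lit 31107531421)], (nat_lit 1271251), (nat_lit 1271251), (nat_lit 1271251), (nat_lit 1271251), (nat_lit 1271251), (nat_lit 1271251), [(nat_lit 490000), (nat_lit 780000), (nat_lit 1100000)], [(nat_lit 2), (nat_lit 44), (nat_lit 203), (nat_lit 0), (nat_lit 7)]⟩,
 ⟨⟨[(nat_lit 140), (nat_lit 160), (nat_lit 180)], [(nat_lit 0), (nat_lit 0), (nat_lit 799)], [((nat_lit 0), (nat_lit 0), (nat_lit 0)), ((nat_lit 0), (nat_lit 0), (nat_lit 0)), ((nat_lit 728), (nat_lit 1000), (nat_lit 454))], ((nat_lit 100), (nat_lit 75), (nat_lit 43))⟩, (nat_lit 339983), (nat_lit 924), (nat_lit 924), (nat_lit 0), (nat_lit 1132585), [(nat_lit 639730000), (nat_lit 771680000), (nat_lit 913770000)], [], [(nat_lit 3083211668), (nat_lit 2949485922), (nat_lit 3273977355), (nat_lit 3142913693), (nat_lit 2644307902), (nat_lit 3234067445), (nat_lit 2558646260), (nat_lit 2422291432)], (nat_lit 780000),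 (nat_lit 1271251), (nat_lit 1271251), (nat_lit 1271251), (nat_lit 0), (nat_lit 780000), [(nat_lit 1977501), (nat_lit 1271251), (nat_lit 1271251)], [(nat_lit 31), (nat_lit 65), (nat_lit 401), (nat_lit 175), (nat_lit 10)]⟩,
 ⟨⟨[(nat_lit 140), (nat_lit 160), (nat_lit 180)], [(nat_lit 0), (nat_lit 0), (nat_lit 799)], [((nat_lit 0), (nat_lit 0), (nat_lit 0)), ((nat_lit 0), (nat_lit 0), (nat_lit 0)), ((nat_lit 728), (nat_lit 1000), (nat_lit 454))], ((nat_lit 100), (nat_lit 75), (nat_lit 43))⟩, (nat_lit 57109), (nat_lit 300), (nat_lit 924), (nat_lit 4823000), (nat_lit 1132585), [(nat_lit 639730000), (nat_lit 771680000), (nat_lit 913770000)], [], [(nat_lit 3691850542), (nat_lit 3543658432), (nat_lit 3748669592), (nat_lit 3598735840), (nat_lit 3028084811), (nat_lit 3235163779), (nat_lit 3025325914), (nat_lit 2857018465)], (nat_lit 780000), (nat_lit 1271251), (nat_lit 1271251), (nat_lit 1271251), (nat_lit 0), (nat_lit 780000), [(nat_lit 1977501), (nat_lit 1271251),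 (nat_lit 1271251)], [(nat_lit 31), (nat_lit 65), (nat_lit 401), (nat_lit 175), (nat_lit 10)]⟩⟩) (.trX (nat_lit 3) (nat_lit 0) (nat_lit 1) (nat_lit 76) (nat_lit 73) (nat_lit 100) (nat_lit 340) (.trX (nat_lit 4) (nat_lit 0) (nat_lit 2) (nat_lit 76) (nat_lit 73) (nat_lit 100) (nat_lit 340) (.leaf ⟨(nat_lit 954), (nat_lit 0), (nat_lit 0), (nat_lit 46), (nat_lit 0), (nat_lit 3281), (nat_lit 617), (nat_lit 618), (nat_lit 0), (nat_lit 671846), (nat_lit 352800), [((nat_lit 340), [((nat_lit 18), (nat_lit 0), (nat_lit 192)), ((nat_lit 18), (nat_lit 1), (nat_lit 762))])], ⟨(nat_lit 5), false, false, true, (nat_lit 224), (nat_lit 3872), (nat_lit 4184), [(nat_lit 1413332), (nat_lit 1412825), (nat_lit 1478332), (nat_lit 1478205), (nat_lit 1645226), (nat_lit 1638651), (nat_lit 1710226), (nat_lit 1704031)]⟩, ⟨(nat_lit 5), false, false, true, (nat_lit 224), (nat_lit 3872), (nat_lit 4184), [(nat_lit 1413332), (nat_lit 1412825), (nat_lit 1478332), (nat_lit 1478205), (nat_lit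 1645226), (nat_lit 1638651), (nat_lit 1710226), (nat_lit 1704031)]⟩, (nat_lit 5228406), (nat_lit 39089214), (nat_lit 13955393), (nat_lit 13955393), (nat_lit 0), (nat_lit 0), [], [⟨(nat_lit 1), (nat_lit 87), (nat_lit 76), (nat_lit 100), (nat_lit 3229760)⟩], [], [⟨(nat_lit 0), (nat_lit 100), (nat_lit 100), (nat_lit 70), (nat_lit 15042888)⟩, ⟨(nat_lit 0), (nat_lit 71), (nat_lit 71), (nat_lit 100), (nat_lit 112593438)⟩],
 ⟨⟨[(nat_lit 40), (nat_lit 60), (nat_lit 80)], [(nat_lit 0), (nat_lit 197), (nat_lit 800)], [((nat_lit 0), (nat_lit 0), (nat_lit 0)), ((nat_lit 1000), (nat_lit 908), (nat_lit 154)), ((nat_lit 1000), (nat_lit 781), (nat_lit 471))], ((nat_lit 80), (nat_lit 100), (nat_lit 41))⟩, (nat_lit 1779138), (nat_lit 127), (nat_lit 127), (nat_lit 0), (nat_lit 252157), [(nat_lit 1381957763), (nat_lit 1771264819), (nat_lit 2096749981)], [(nat_lit 0), (nat_lit 0), (nat_lit 0)], [(nat_lit 21121148687), (nat_lit 21670172567), (nat_lit 25964211263), (nat_lit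 26385896469), (nat_lit 25964211263), (nat_lit 26385896469), (nat_lit 30194264403), (nat_lit 30600179324)], (nat_lit 1271251), (nat_lit 1271251), (nat_lit 1271251), (nat_lit 1271251), (nat_lit 1271251), (nat_lit 1271251), [(nat_lit 490000), (nat_lit 780000), (nat_lit 1100000)], [(nat_lit 2), (nat_lit 44), (nat_lit 203), (nat_lit 0), (nat_lit 7)]⟩,
 ⟨⟨[(nat_lit 140), (nat_lit 160), (nat_lit 180)], [(nat_lit 0), (nat_lit 0), (nat_lit 799)], [((nat_lit 0), (nat_lit 0), (nat_lit 0)), ((nat_lit 0), (nat_lit 0), (nat_lit 0)), ((nat_lit 728), (nat_lit 1000), (nat_lit 454))], ((nat_lit 100), (nat_lit 75), (nat_lit 43))⟩, (nat_lit 249244), (nat_lit 1202), (nat_lit 1202), (nat_lit 0), (nat_lit 1763588), [(nat_lit 452732000), (nat_lit 546112000), (nat_lit 646668000)], [], [(nat_lit 2147370034), (nat_lit 2049838582), (nat_lit 2276451199), (nat_lit 2184268954), (nat_lit 1867292323), (nat_lit 2291494161), (nat_lit 1762710843), (nat_lit 1665535128)], (nat_lit 780000),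 (nat_lit 1271251), (nat_lit 1271251), (nat_lit 1271251), (nat_lit 0), (nat_lit 780000), [(nat_lit 1977501), (nat_lit 1271251), (nat_lit 1271251)], [(nat_lit 31), (nat_lit 65), (nat_lit 401), (nat_lit 175), (nat_lit 10)]⟩,
 ⟨⟨[(nat_lit 140), (nat_lit 160), (nat_lit 180)], [(nat_lit 0), (nat_lit 0), (nat_lit 799)], [((nat_lit 0), (nat_lit 0), (nat_lit 0)), ((nat_lit 0), (nat_lit 0), (nat_lit 0)), ((nat_lit 728), (nat_lit 1000), (nat_lit 454))], ((nat_lit 100), (nat_lit 75), (nat_lit 43))⟩, (nat_lit 40416), (nat_lit 300), (nat_lit 1202), (nat_lit 3413200), (nat_lit 1763588), [(nat_lit 452732000), (nat_lit 546112000), (nat_lit 646668000)], [], [(nat_lit 2600031492), (nat_lit 2492648713), (nat_lit 2624975120), (nat_lit 2519452537), (nat_lit 2111773984), (nat_lit 2291713428), (nat_lit 2107036712), (nat_lit 1987109940)], (nat_lit 780000), (nat_lit 1271251), (nat_lit 1271251), (nat_lit 1271251), (nat_lit 0), (nat_lit 780000), [(nat_lit 1977501), (nat_lit 1271251),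 (nat_lit 1271251)], [(nat_lit 31), (nat_lit 65), (nat_lit 401), (nat_lit 175), (nat_lit 10)]⟩⟩)))) (.spl (nat_lit 1) (nat_lit 160) (.ord (.trX (nat_lit 3) (nat_lit 0) (nat_lit 1) (nat_lit 82) (nat_lit 76) (nat_lit 100) (nat_lit 340) (.trX (nat_lit 4) (nat_lit 0) (nat_lit 2) (nat_lit 82) (nat_lit 76) (nat_lit 100) (nat_lit 340) (.leaf ⟨(nat_lit 962), (nat_lit 0), (nat_lit 0), (nat_lit 38), (nat_lit 0), (nat_lit 3253), (nat_lit 489), (nat_lit 496), (nat_lit 0), (nat_lit 7586400), (nat_lit 757200), [((nat_lit 340), [((nat_lit 37), (nat_lit 2), (nat_lit 512)), ((nat_lit 18), (nat_lit 2), (nat_lit 450))])], ⟨(nat_lit 5), false, false, true, (nat_lit 220), (nat_lit 3872), (nat_lit 4473), [(nat_lit 1413733), (nat_lit 1412825), (nat_lit 1456866), (nat_lit 1456412), (nat_lit 1651656), (nat_lit 1638651), (nat_lit 1694789), (nat_lit 1682237)]⟩, ⟨(nat_lit 5), false, false, true, (nat_lit 220), (nat_lit 3872), (nat_lit 4473), [(nat_lit 1413733), (nat_lit 1412825),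 (nat_lit 1456866), (nat_lit 1456412), (nat_lit 1651656), (nat_lit 1638651), (nat_lit 1694789), (nat_lit 1682237)]⟩, (nat_lit 5184931), (nat_lit 39584656), (nat_lit 13707672), (nat_lit 13707672), (nat_lit 0), (nat_lit 0), [⟨(nat_lit 1), (nat_lit 89), (nat_lit 80), (nat_lit 100), (nat_lit 88957209)⟩], [⟨(nat_lit 1), (nat_lit 89), (nat_lit 80), (nat_lit 100), (nat_lit 100380243)⟩], [], [],
 ⟨⟨[(nat_lit 40), (nat_lit 60), (nat_lit 80)], [(nat_lit 0), (nat_lit 0), (nat_lit 615)], [((nat_lit 0), (nat_lit 0), (nat_lit 0)), ((nat_lit 0), (nat_lit 0), (nat_lit 0)), ((nat_lit 1000), (nat_lit 819), (nat_lit 426))], ((nat_lit 82), (nat_lit 100), (nat_lit 40))⟩, (nat_lit 0), (nat_lit 127), (nat_lit 127), (nat_lit 0), (nat_lit 254896), [(nat_lit 1408626452), (nat_lit 1640135639), (nat_lit 1305571961)], [(nat_lit 0), (nat_lit 0), (nat_lit 0)], [(nat_lit 21395010021), (nat_lit 22433651834), (nat_lit 26102179823), (nat_lit 26903834221), (nat_lit 26102179823), (nat_lit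 26903834221), (nat_lit 29760630007), (nat_lit 30570254074)], (nat_lit 1271251), (nat_lit 1271251), (nat_lit 1271251), (nat_lit 1271251), (nat_lit 1271251), (nat_lit 1271251), [(nat_lit 490000), (nat_lit 780000), (nat_lit 1100000)], [(nat_lit 2), (nat_lit 44), (nat_lit 203), (nat_lit 0), (nat_lit 7)]⟩,
 ⟨⟨[(nat_lit 140), (nat_lit 160), (nat_lit 180)], [(nat_lit 0), (nat_lit 0), (nat_lit 799)], [((nat_lit 0), (nat_lit 0), (nat_lit 0)), ((nat_lit 0), (nat_lit 0), (nat_lit 0)), ((nat_lit 728), (nat_lit 1000), (nat_lit 454))], ((nat_lit 100), (nat_lit 75), (nat_lit 43))⟩, (nat_lit 163247), (nat_lit 1342), (nat_lit 1342), (nat_lit 0), (nat_lit 2238072), [(nat_lit 373996000), (nat_lit 451136000), (nat_lit 534204000)], [], [(nat_lit 1887205687), (nat_lit 1432527939), (nat_lit 1506059711), (nat_lit 1445664591), (nat_lit 1835965706), (nat_lit 2043254910), (nat_lit 1665325456), (nat_lit 1599578826)], (nat_lit 780000), (nat_lit 1100000), (nat_lit 1271251), (nat_lit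 1271251), (nat_lit 780000), (nat_lit 3072501), [(nat_lit 1977501), (nat_lit 1271251), (nat_lit 1271251)], [(nat_lit 31), (nat_lit 65), (nat_lit 456), (nat_lit 225), (nat_lit 10)]⟩,
 ⟨⟨[(nat_lit 140), (nat_lit 160), (nat_lit 180)], [(nat_lit 0), (nat_lit 0), (nat_lit 799)], [((nat_lit 0), (nat_lit 0), (nat_lit 0)), ((nat_lit 0), (nat_lit 0), (nat_lit 0)), ((nat_lit 728), (nat_lit 1000), (nat_lit 454))], ((nat_lit 100), (nat_lit 75), (nat_lit 43))⟩, (nat_lit 33387), (nat_lit 300), (nat_lit 1342), (nat_lit 2819600), (nat_lit 2238072), [(nat_lit 373996000), (nat_lit 451136000), (nat_lit 534204000)], [], [(nat_lit 1897987808), (nat_lit 1720434474), (nat_lit 1774917588), (nat_lit 1701849788), (nat_lit 1842486696), (nat_lit 2052046952), (nat_lit 1768939611), (nat_lit 1692142385)], (nat_lit 780000), (nat_lit 1100000), (nat_lit 1271251), (nat_lit 1271251), (nat_lit 780000), (nat_lit 3072501), [(nat_lit 1977501), (nat_lit 1271251), (nat_lit 1271251)], [(nat_lit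 31), (nat_lit 65), (nat_lit 456), (nat_lit 225), (nat_lit 10)]⟩⟩)))) (.spl (nat_lit 0) (nat_lit 330) (.leaf ⟨(nat_lit 866), (nat_lit 46), (nat_lit 0), (nat_lit 88), (nat_lit 0), (nat_lit 3435), (nat_lit 1680), (nat_lit 1040), (nat_lit 0), (nat_lit 256783), (nat_lit 676400), [((nat_lit 330), [((nat_lit 37), (nat_lit 2), (nat_lit 474)), ((nat_lit 18), (nat_lit 2), (nat_lit 392))])], ⟨(nat_lit 5), false, false, true, (nat_lit 237), (nat_lit 4183), (nat_lit 4473), [(nat_lit 1456866), (nat_lit 1456665), (nat_lit 1478432), (nat_lit 1478332), (nat_lit 1711784), (nat_lit 1705124), (nat_lit 1733350), (nat_lit 1726790)]⟩, ⟨(nat_lit 5), false, false, true, (nat_lit 229), (nat_lit 4183), (nat_lit 4473), [(nat_lit 1413733), (nat_lit 1413332), (nat_lit 1478432), (nat_lit 1478332), (nat_lit 1668651), (nat_lit 1661790), (nat_lit 1733350), (nat_lit 1726790)]⟩, (nat_lit 5326437), (nat_lit 37901606), (nat_lit 14984142), (nat_lit 14114252), (nat_lit 5), (nat_lit 0), [],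 [⟨(nat_lit 1), (nat_lit 83), (nat_lit 81), (nat_lit 100), (nat_lit 104004513)⟩], [], [],
 ⟨⟨[(nat_lit 40), (nat_lit 60), (nat_lit 80)], [(nat_lit 0), (nat_lit 0), (nat_lit 615)], [((nat_lit 0), (nat_lit 0), (nat_lit 0)), ((nat_lit 0), (nat_lit 0), (nat_lit 0)), ((nat_lit 1000), (nat_lit 819), (nat_lit 426))], ((nat_lit 82), (nat_lit 100), (nat_lit 40))⟩, (nat_lit 686), (nat_lit 104), (nat_lit 104), (nat_lit 0), (nat_lit 148261), [(nat_lit 1408589782), (nat_lit 1863317998), (nat_lit 1628083200)], [(nat_lit 0), (nat_lit 0), (nat_lit 0)], [(nat_lit 20362908602), (nat_lit 20949367439), (nat_lit 26087679057), (nat_lit 26535950134), (nat_lit 26087679057), (nat_lit 26535950134), (nat_lit 30793845101), (nat_lit 31186350919)], (nat_lit 1271251), (nat_lit 1271251), (nat_lit 1271251), (nat_lit 1271251), (nat_lit 1271251), (nat_lit 1271251), [(nat_lit 490000), (nat_lit 780000), (nat_lit 1100000)], [(nat_lit 2), (nat_lit 44), (nat_lit 203), (nat_lit 0), (nat_lit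 7)]⟩,
 ⟨⟨[(nat_lit 120), (nat_lit 140), (nat_lit 160)], [(nat_lit 0), (nat_lit 0), (nat_lit 609)], [((nat_lit 0), (nat_lit 0), (nat_lit 0)), ((nat_lit 0), (nat_lit 0), (nat_lit 0)), ((nat_lit 840), (nat_lit 1000), (nat_lit 400))], ((nat_lit 100), (nat_lit 84), (nat_lit 40))⟩, (nat_lit 874507), (nat_lit 488), (nat_lit 488), (nat_lit 0), (nat_lit 640785), [(nat_lit 1067712000), (nat_lit 1318828000), (nat_lit 1590848000)], [], [(nat_lit 6335426400), (nat_lit 5453429760), (nat_lit 4080914840), (nat_lit 4053405043), (nat_lit 6453846568), (nat_lit 6899219144), (nat_lit 5711305288), (nat_lit 5694103015)], (nat_lit 1100000), (nat_lit 1271251), (nat_lit 1271251), (nat_lit 1271251), (nat_lit 780000), (nat_lit 3072501), [(nat_lit 1695001), (nat_lit 1271251), (nat_lit 1271251)], [(nat_lit 27), (nat_lit 62), (nat_lit 483), (nat_lit 250), (nat_lit 12)]⟩,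
 ⟨⟨[(nat_lit 140), (nat_lit 160), (nat_lit 180)], [(nat_lit 0), (nat_lit 0), (nat_lit 799)], [((nat_lit 0), (nat_lit 0), (nat_lit 0)), ((nat_lit 0), (nat_lit 0), (nat_lit 0)), ((nat_lit 728), (nat_lit 1000), (nat_lit 454))], ((nat_lit 100), (nat_lit 75), (nat_lit 43))⟩, (nat_lit 77317), (nat_lit 300), (nat_lit 860), (nat_lit 6529600), (nat_lit 1213380), [(nat_lit 866096000), (nat_lit 1044736000), (nat_lit 1237104000)], [], [(nat_lit 4539621520), (nat_lit 4345688324), (nat_lit 4395888394), (nat_lit 4190782833), (nat_lit 4198340512), (nat_lit 4901483648), (nat_lit 4146526140), (nat_lit 3927651462)], (nat_lit 780000), (nat_lit 1271251), (nat_lit 1271251), (nat_lit 1271251), (nat_lit 780000), (nat_lit 3072501), [(nat_lit 1977501), (nat_lit 1271251), (nat_lit 1271251)], [(nat_lit 31), (nat_lit 65), (nat_lit 483), (nat_lit 250), (nat_lit 11)]⟩⟩) (.trX (nat_lit 3) (nat_lit 0) (nat_lit 1) (nat_lit 76) (nat_lit 73) (nat_lit 100) (nat_lit 340) (.trX (nat_lit 4)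 (nat_lit 0) (nat_lit 2) (nat_lit 76) (nat_lit 73) (nat_lit 100) (nat_lit 340) (.leaf ⟨(nat_lit 934), (nat_lit 19), (nat_lit 0), (nat_lit 47), (nat_lit 0), (nat_lit 3085), (nat_lit 855), (nat_lit 557), (nat_lit 0), (nat_lit 646043), (nat_lit 343600), [((nat_lit 340), [((nat_lit 18), (nat_lit 0), (nat_lit 200)), ((nat_lit 18), (nat_lit 1), (nat_lit 734))])], ⟨(nat_lit 5), false, false, true, (nat_lit 233), (nat_lit 3872), (nat_lit 4184), [(nat_lit 1456665), (nat_lit 1456412), (nat_lit 1478332), (nat_lit 1478205), (nat_lit 1688560), (nat_lit 1682237), (nat_lit 1710226), (nat_lit 1704031)]⟩, ⟨(nat_lit 5), false, false, true, (nat_lit 224), (nat_lit 3872), (nat_lit 4184), [(nat_lit 1413332), (nat_lit 1412825), (nat_lit 1478332), (nat_lit 1478205), (nat_lit 1645226), (nat_lit 1638651), (nat_lit 1710226), (nat_lit 1704031)]⟩, (nat_lit 5276541), (nat_lit 38508814), (nat_lit 14681559), (nat_lit 13809627), (nat_lit 5), (nat_lit 0), [⟨(nat_lit 1), (nat_lit 79),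 (nat_lit 75), (nat_lit 100), (nat_lit 22825421)⟩], [⟨(nat_lit 1), (nat_lit 87), (nat_lit 76), (nat_lit 100), (nat_lit 95025817)⟩], [], [⟨(nat_lit 0), (nat_lit 71), (nat_lit 71), (nat_lit 100), (nat_lit 6713521)⟩],
 ⟨⟨[(nat_lit 40), (nat_lit 60), (nat_lit 80)], [(nat_lit 0), (nat_lit 197), (nat_lit 800)], [((nat_lit 0), (nat_lit 0), (nat_lit 0)), ((nat_lit 1000), (nat_lit 908), (nat_lit 154)), ((nat_lit 1000), (nat_lit 781), (nat_lit 471))], ((nat_lit 80), (nat_lit 100), (nat_lit 41))⟩, (nat_lit 1809274), (nat_lit 120), (nat_lit 120), (nat_lit 0), (nat_lit 225352), [(nat_lit 1394219673), (nat_lit 1803893751), (nat_lit 2153368249)], [(nat_lit 0), (nat_lit 0), (nat_lit 0)], [(nat_lit 21637262143), (nat_lit 22171868336), (nat_lit 26406756964), (nat_lit 26819372013), (nat_lit 26406756964), (nat_lit 26819372013), (nat_lit 29992507865), (nat_lit 30390702573)], (nat_lit 1271251), (nat_lit 1271251), (nat_lit 1271251), (nat_lit 1271251), (nat_lit 1271251), (nat_lit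 1271251), [(nat_lit 490000), (nat_lit 780000), (nat_lit 1100000)], [(nat_lit 2), (nat_lit 44), (nat_lit 203), (nat_lit 0), (nat_lit 7)]⟩,
 ⟨⟨[(nat_lit 120), (nat_lit 140), (nat_lit 160)], [(nat_lit 0), (nat_lit 0), (nat_lit 609)], [((nat_lit 0), (nat_lit 0), (nat_lit 0)), ((nat_lit 0), (nat_lit 0), (nat_lit 0)), ((nat_lit 840), (nat_lit 1000), (nat_lit 400))], ((nat_lit 100), (nat_lit 84), (nat_lit 40))⟩, (nat_lit 445362), (nat_lit 705), (nat_lit 705), (nat_lit 0), (nat_lit 1073932), [(nat_lit 525888000), (nat_lit 649572000), (nat_lit 783552000)], [], [(nat_lit 3162849705), (nat_lit 2713976415), (nat_lit 1904304209), (nat_lit 1901053135), (nat_lit 3208543782), (nat_lit 3433702049), (nat_lit 2785998006), (nat_lit 2778913618)], (nat_lit 1100000), (nat_lit 1271251), (nat_lit 1271251), (nat_lit 1271251), (nat_lit 780000), (nat_lit 3072501), [(nat_lit 1695001), (nat_lit 1271251), (nat_lit 1271251)], [(nat_lit 27), (nat_lit 62), (nat_lit 483), (nat_lit 250),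 (nat_lit 12)]⟩,
 ⟨⟨[(nat_lit 140), (nat_lit 160), (nat_lit 180)], [(nat_lit 0), (nat_lit 0), (nat_lit 799)], [((nat_lit 0), (nat_lit 0), (nat_lit 0)), ((nat_lit 0), (nat_lit 0), (nat_lit 0)), ((nat_lit 728), (nat_lit 1000), (nat_lit 454))], ((nat_lit 100), (nat_lit 75), (nat_lit 43))⟩, (nat_lit 41295), (nat_lit 300), (nat_lit 1219), (nat_lit 3487400), (nat_lit 1981612), [(nat_lit 462574000), (nat_lit 557984000), (nat_lit 660726000)], [], [(nat_lit 2425726593), (nat_lit 2315063305), (nat_lit 2339803048), (nat_lit 2226265716), (nat_lit 2238086582), (nat_lit 2620114108), (nat_lit 2202993747), (nat_lit 2087144051)], (nat_lit 780000), (nat_lit 1271251), (nat_lit 1271251), (nat_lit 1271251), (nat_lit 780000), (nat_lit 3072501), [(nat_lit 1977501), (nat_lit 1271251), (nat_lit 1271251)], [(nat_lit 31), (nat_lit 65), (nat_lit 483), (nat_lit 250), (nat_lit 11)]⟩⟩)))))) (.spl (nat_lit 5) (nat_lit 120) (.leaf ⟨(nat_lit 954), (nat_lit 0), (nat_lit 0), (nat_lit 46),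 (nat_lit 6132), (nat_lit 3302), (nat_lit 745), (nat_lit 745), (nat_lit 0), (nat_lit 118207192448), (nat_lit 555950), [((nat_lit 340), [((nat_lit 18), (nat_lit 0), (nat_lit 47)), ((nat_lit 37), (nat_lit 2), (nat_lit 907))])], ⟨(nat_lit 5), false, false, true, (nat_lit 228), (nat_lit 3872), (nat_lit 4473), [(nat_lit 1413733), (nat_lit 1412825), (nat_lit 1478432), (nat_lit 1478205), (nat_lit 1668651), (nat_lit 1654781), (nat_lit 1733350), (nat_lit 1720161)]⟩, ⟨(nat_lit 5), false, false, true, (nat_lit 228), (nat_lit 3872), (nat_lit 4473), [(nat_lit 1413733), (nat_lit 1412825), (nat_lit 1478432), (nat_lit 1478205), (nat_lit 1668651), (nat_lit 1654781), (nat_lit 1733350), (nat_lit 1720161)]⟩, (nat_lit 5273239), (nat_lit 38563022), (nat_lit 14218489), (nat_lit 14218489), (nat_lit 0), (nat_lit 0), [⟨(nat_lit 1), (nat_lit 85), (nat_lit 78), (nat_lit 100), (nat_lit 14503942)⟩], [⟨(nat_lit 1), (nat_lit 85), (nat_lit 78), (nat_lit 100), (nat_lit 12561759)⟩], [],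 [⟨(nat_lit 0), (nat_lit 100), (nat_lit 100), (nat_lit 75), (nat_lit 96966132)⟩],
 ⟨⟨[(nat_lit 40), (nat_lit 80), (nat_lit 100)], [(nat_lit 0), (nat_lit 0), (nat_lit 1280)], [((nat_lit 0), (nat_lit 0), (nat_lit 0)), ((nat_lit 0), (nat_lit 0), (nat_lit 0)), ((nat_lit 1000), (nat_lit 800), (nat_lit 600))], ((nat_lit 80), (nat_lit 100), (nat_lit 51))⟩, (nat_lit 0), (nat_lit 105), (nat_lit 105), (nat_lit 0), (nat_lit 94054), [(nat_lit 1401811769), (nat_lit 2003376704), (nat_lit 1449875600)], [(nat_lit 0), (nat_lit 0), (nat_lit 0)], [(nat_lit 21286262191), (nat_lit 22379686744), (nat_lit 26597263599), (nat_lit 27416163451), (nat_lit 26597263599), (nat_lit 27416163451), (nat_lit 30737846220), (nat_lit 31426506468)], (nat_lit 1271251), (nat_lit 1271251), (nat_lit 1271251), (nat_lit 1271251), (nat_lit 1271251), (nat_lit 1271251), [(nat_lit 490000), (nat_lit 1100000), (nat_lit 1442501)], [(nat_lit 3), (nat_lit 50), (nat_lit 203), (nat_lit 0), (nat_lit 6)]⟩,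
 ⟨⟨[(nat_lit 140), (nat_lit 180), (nat_lit 200)], [(nat_lit 0), (nat_lit 0), (nat_lit 2835)], [((nat_lit 0), (nat_lit 0), (nat_lit 0)), ((nat_lit 0), (nat_lit 0), (nat_lit 0)), ((nat_lit 363), (nat_lit 1000), (nat_lit 798))], ((nat_lit 0), (nat_lit 0), (nat_lit 0))⟩, (nat_lit 93640), (nat_lit 759), (nat_lit 759), (nat_lit 0), (nat_lit 636636), [(nat_lit 452732000), (nat_lit 646668000), (nat_lit 754400000)], [], [(nat_lit 2561875138), (nat_lit 2440987367), (nat_lit 2802525876), (nat_lit 2675451973), (nat_lit 1934036868), (nat_lit 2319560305), (nat_lit 2056646779), (nat_lit 1925082353)], (nat_lit 780000), (nat_lit 1271251), (nat_lit 1271251), (nat_lit 1271251), (nat_lit 0), (nat_lit 780000), [(nat_lit 1977501), (nat_lit 1271251), (nat_lit 1271251)], [(nat_lit 32), (nat_lit 67), (nat_lit 401), (nat_lit 175), (nat_lit 9)]⟩,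
 ⟨⟨[(nat_lit 140), (nat_lit 180), (nat_lit 200)], [(nat_lit 0), (nat_lit 0), (nat_lit 2835)], [((nat_lit 0), (nat_lit 0), (nat_lit 0)), ((nat_lit 0), (nat_lit 0), (nat_lit 0)), ((nat_lit 363), (nat_lit 1000), (nat_lit 798))], ((nat_lit 0), (nat_lit 0), (nat_lit 0))⟩, (nat_lit 12656), (nat_lit 300), (nat_lit 759), (nat_lit 3592602), (nat_lit 636636), [(nat_lit 452732000), (nat_lit 646668000), (nat_lit 754400000)], [], [(nat_lit 3055350116), (nat_lit 2914561650), (nat_lit 3140040505), (nat_lit 2968879947), (nat_lit 2381015739), (nat_lit 2319560305), (nat_lit 2438688057), (nat_lit 2279851852)], (nat_lit 780000), (nat_lit 1271251), (nat_lit 1271251), (nat_lit 1271251), (nat_lit 0), (nat_lit 780000), [(nat_lit 1977501), (nat_lit 1271251), (nat_lit 1271251)], [(nat_lit 32), (nat_lit 67), (nat_lit 401), (nat_lit 175), (nat_lit 9)]⟩⟩) (.leaf ⟨(nat_lit 929), (nat_lit 0), (nat_lit 0), (nat_lit 71), (nat_lit 4335), (nat_lit 3381), (nat_lit 973), (nat_lit 974),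 (nat_lit 0), (nat_lit 54111313019), (nat_lit 586600), [((nat_lit 340), [((nat_lit 37), (nat_lit 2), (nat_lit 856)), ((nat_lit 18), (nat_lit 2), (nat_lit 73))])], ⟨(nat_lit 5), false, false, true, (nat_lit 228), (nat_lit 3872), (nat_lit 4473), [(nat_lit 1413733), (nat_lit 1412825), (nat_lit 1478432), (nat_lit 1478205), (nat_lit 1668651), (nat_lit 1654781), (nat_lit 1733350), (nat_lit 1720161)]⟩, ⟨(nat_lit 5), false, false, true, (nat_lit 228), (nat_lit 3872), (nat_lit 4473), [(nat_lit 1413733), (nat_lit 1412825), (nat_lit 1478432), (nat_lit 1478205), (nat_lit 1668651), (nat_lit 1654781), (nat_lit 1733350), (nat_lit 1720161)]⟩, (nat_lit 5273239), (nat_lit 38563022), (nat_lit 14218489), (nat_lit 14218489), (nat_lit 0), (nat_lit 0), [⟨(nat_lit 1), (nat_lit 85), (nat_lit 78), (nat_lit 100), (nat_lit 106993647)⟩], [⟨(nat_lit 1), (nat_lit 85), (nat_lit 78), (nat_lit 100), (nat_lit 111672619)⟩], [], [],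
 ⟨⟨[(nat_lit 40), (nat_lit 80), (nat_lit 100)], [(nat_lit 0), (nat_lit 0), (nat_lit 1280)], [((nat_lit 0), (nat_lit 0), (nat_lit 0)), ((nat_lit 0), (nat_lit 0), (nat_lit 0)), ((nat_lit 1000), (nat_lit 800), (nat_lit 600))], ((nat_lit 80), (nat_lit 100), (nat_lit 51))⟩, (nat_lit 16605), (nat_lit 105), (nat_lit 105), (nat_lit 0), (nat_lit 94054), [(nat_lit 1461421852), (nat_lit 1920373269), (nat_lit 1394769200)], [(nat_lit 0), (nat_lit 0), (nat_lit 0)], [(nat_lit 21138905593), (nat_lit 22243693407), (nat_lit 26482821660), (nat_lit 27308428314), (nat_lit 26482821660), (nat_lit 27308428314), (nat_lit 30735807154), (nat_lit 31517000236)], (nat_lit 1271251), (nat_lit 1271251), (nat_lit 1271251), (nat_lit 1271251), (nat_lit 1271251), (nat_lit 1271251), [(nat_lit 490000), (nat_lit 1100000), (nat_lit 1442501)], [(nat_lit 3), (nat_lit 50), (nat_lit 203), (nat_lit 0), (nat_lit 6)]⟩,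
 ⟨⟨[(nat_lit 140), (nat_lit 180), (nat_lit 200)], [(nat_lit 0), (nat_lit 0), (nat_lit 2835)], [((nat_lit 0), (nat_lit 0), (nat_lit 0)), ((nat_lit 0), (nat_lit 0), (nat_lit 0)), ((nat_lit 363), (nat_lit 1000), (nat_lit 798))], ((nat_lit 0), (nat_lit 0), (nat_lit 0))⟩, (nat_lit 115134), (nat_lit 738), (nat_lit 738), (nat_lit 0), (nat_lit 809849), [(nat_lit 698782000), (nat_lit 998118000), (nat_lit 1164400000)], [], [(nat_lit 3617499659), (nat_lit 3204884568), (nat_lit 3372141910), (nat_lit 3179143057), (nat_lit 3485638302), (nat_lit 4151836540), (nat_lit 3412439553), (nat_lit 3206807803)], (nat_lit 780000), (nat_lit 1271251), (nat_lit 1271251), (nat_lit 1271251), (nat_lit 780000), (nat_lit 3072501), [(nat_lit 1977501), (nat_lit 1271251), (nat_lit 1271251)], [(nat_lit 32), (nat_lit 67), (nat_lit 483), (nat_lit 250), (nat_lit 10)]⟩,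
 ⟨⟨[(nat_lit 140), (nat_lit 180), (nat_lit 200)], [(nat_lit 0), (nat_lit 0), (nat_lit 2835)], [((nat_lit 0), (nat_lit 0), (nat_lit 0)), ((nat_lit 0), (nat_lit 0), (nat_lit 0)), ((nat_lit 363), (nat_lit 1000), (nat_lit 798))], ((nat_lit 0), (nat_lit 0), (nat_lit 0))⟩, (nat_lit 19534), (nat_lit 300), (nat_lit 738), (nat_lit 5545106), (nat_lit 809849), [(nat_lit 698782000), (nat_lit 998118000), (nat_lit 1164400000)], [], [(nat_lit 4028536710), (nat_lit 3824661136), (nat_lit 3892682540), (nat_lit 3695701280), (nat_lit 3739359172), (nat_lit 4153309408), (nat_lit 3683771383), (nat_lit 3470985123)], (nat_lit 780000), (nat_lit 1271251), (nat_lit 1271251), (nat_lit 1271251), (nat_lit 780000), (nat_lit 3072501), [(nat_lit 1977501), (nat_lit 1271251), (nat_lit 1271251)], [(nat_lit 32), (nat_lit 67), (nat_lit 483), (nat_lit 250), (nat_lit 10)]⟩⟩))) (.dle (nat_lit 0))))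
noncomputable def c10_31 : Tr Lf :=
 (.spl (nat_lit 5) (nat_lit 120) (.spl (nat_lit 1) (nat_lit 220) (.spl (nat_lit 6) (nat_lit 28) (.spl (nat_lit 1) (nat_lit 200) (.leaf ⟨(nat_lit 882), (nat_lit 57), (nat_lit 0), (nat_lit 61), (nat_lit 1757), (nat_lit 3678), (nat_lit 1435), (nat_lit 785), (nat_lit 0), (nat_lit 0), (nat_lit 624800), [((nat_lit 340), [((nat_lit 37), (nat_lit 2), (nat_lit 643)), ((nat_lit 18), (nat_lit 2), (nat_lit 239))])], ⟨(nat_lit 5), false, true, true, (nat_lit 222), (nat_lit 3872), (nat_lit 4473), [(nat_lit 1478432), (nat_lit 1478205), (nat_lit 1499999), (nat_lit 1499999), (nat_lit 1614388), (nat_lit 1607248), (nat_lit 1635955), (nat_lit 1629042)]⟩, ⟨(nat_lit 5), false, false, true, (nat_lit 228), (nat_lit 3872), (nat_lit 4473), [(nat_lit 1413733), (nat_lit 1412825), (nat_lit 1478432), (nat_lit 1478205), (nat_lit 1668651), (nat_lit 1654781), (nat_lit 1733350), (nat_lit 1720161)]⟩, (nat_lit 5239999), (nat_lit 38948090), (nat_lit 13733526),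 (nat_lit 14318384), (nat_lit 5), (nat_lit 0), [], [⟨(nat_lit 1), (nat_lit 85), (nat_lit 78), (nat_lit 100), (nat_lit 102102912)⟩], [], [⟨(nat_lit 0), (nat_lit 95), (nat_lit 100), (nat_lit 56), (nat_lit 48266168)⟩],
 ⟨⟨[(nat_lit 40), (nat_lit 80), (nat_lit 100)], [(nat_lit 0), (nat_lit 0), (nat_lit 1280)], [((nat_lit 0), (nat_lit 0), (nat_lit 0)), ((nat_lit 0), (nat_lit 0), (nat_lit 0)), ((nat_lit 1000), (nat_lit 800), (nat_lit 600))], ((nat_lit 80), (nat_lit 100), (nat_lit 51))⟩, (nat_lit 0), (nat_lit 145), (nat_lit 145), (nat_lit 0), (nat_lit 256279), [(nat_lit 1516435978), (nat_lit 1945548024), (nat_lit 1370253600)], [(nat_lit 0), (nat_lit 0), (nat_lit 0)], [(nat_lit 20743055678), (nat_lit 21890628597), (nat_lit 23379898756), (nat_lit 24372950398), (nat_lit 26292537963), (nat_lit 27296100913), (nat_lit 28401089952), (nat_lit 29341886419)], (nat_lit 1271251), (nat_lit 1271251), (nat_lit 1271251), (nat_lit 1271251), (nat_lit 1271251), (nat_lit 1271251),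 [(nat_lit 490000), (nat_lit 1100000), (nat_lit 1442501)], [(nat_lit 3), (nat_lit 50), (nat_lit 203), (nat_lit 0), (nat_lit 6)]⟩,
 ⟨⟨[(nat_lit 120), (nat_lit 140), (nat_lit 160)], [(nat_lit 0), (nat_lit 266), (nat_lit 862)], [((nat_lit 0), (nat_lit 0), (nat_lit 0)), ((nat_lit 960), (nat_lit 1000), (nat_lit 200)), ((nat_lit 874), (nat_lit 1000), (nat_lit 406))], ((nat_lit 100), (nat_lit 81), (nat_lit 51))⟩, (nat_lit 947431), (nat_lit 606), (nat_lit 606), (nat_lit 0), (nat_lit 706646), [(nat_lit 940224000), (nat_lit 1161356000), (nat_lit 1400896000)], [], [(nat_lit 4043948201), (nat_lit 3393813293), (nat_lit 3625806252), (nat_lit 3648283702), (nat_lit 4637276921), (nat_lit 3946735548), (nat_lit 2615196318), (nat_lit 2612371359)], (nat_lit 1271251), (nat_lit 1271251), (nat_lit 1271251), (nat_lit 1271251), (nat_lit 0), (nat_lit 780000), [(nat_lit 1695001), (nat_lit 1271251), (nat_lit 1271251)], [(nat_lit 27), (nat_lit 62), (nat_lit 373), (nat_lit 150), (nat_lit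 10)]⟩,
 ⟨⟨[(nat_lit 140), (nat_lit 180), (nat_lit 200)], [(nat_lit 0), (nat_lit 0), (nat_lit 2835)], [((nat_lit 0), (nat_lit 0), (nat_lit 0)), ((nat_lit 0), (nat_lit 0), (nat_lit 0)), ((nat_lit 363), (nat_lit 1000), (nat_lit 798))], ((nat_lit 0), (nat_lit 0), (nat_lit 0))⟩, (nat_lit 16783), (nat_lit 300), (nat_lit 1164), (nat_lit 4764101), (nat_lit 1535788), [(nat_lit 600362000), (nat_lit 857538000), (nat_lit 1000400000)], [], [(nat_lit 4220535088), (nat_lit 4050271232), (nat_lit 4124871633), (nat_lit 3937907489), (nat_lit 3584479015), (nat_lit 3407873920), (nat_lit 3465021529), (nat_lit 3287898489)], (nat_lit 780000), (nat_lit 1271251), (nat_lit 1271251), (nat_lit 1271251), (nat_lit 0), (nat_lit 780000), [(nat_lit 1977501), (nat_lit 1271251), (nat_lit 1271251)], [(nat_lit 32), (nat_lit 67), (nat_lit 401), (nat_lit 175), (nat_lit 9)]⟩⟩) (.leaf ⟨(nat_lit 868), (nat_lit 75), (nat_lit 0), (nat_lit 57), (nat_lit 24), (nat_lit 3795), (nat_lit 2181), (nat_lit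 773), (nat_lit 0), (nat_lit 0), (nat_lit 744000), [((nat_lit 340), [((nat_lit 37), (nat_lit 2), (nat_lit 310)), ((nat_lit 18), (nat_lit 2), (nat_lit 558))])], ⟨(nat_lit 5), false, true, true, (nat_lit 231), (nat_lit 3872), (nat_lit 4473), [(nat_lit 1499999), (nat_lit 1499999), (nat_lit 1521548), (nat_lit 1521775), (nat_lit 1635955), (nat_lit 1629042), (nat_lit 1657518), (nat_lit 1650831)]⟩, ⟨(nat_lit 5), false, false, true, (nat_lit 228), (nat_lit 3872), (nat_lit 4473), [(nat_lit 1413733), (nat_lit 1412825), (nat_lit 1478432), (nat_lit 1478205), (nat_lit 1668651), (nat_lit 1654781), (nat_lit 1733350), (nat_lit 1720161)]⟩, (nat_lit 5288637), (nat_lit 38376891), (nat_lit 14453424), (nat_lit 14169685), (nat_lit 5), (nat_lit 0), [], [⟨(nat_lit 1), (nat_lit 85), (nat_lit 78), (nat_lit 100), (nat_lit 55086435)⟩], [], [⟨(nat_lit 0), (nat_lit 95), (nat_lit 100), (nat_lit 56), (nat_lit 127009691)⟩],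
 ⟨⟨[(nat_lit 40), (nat_lit 80), (nat_lit 100)], [(nat_lit 0), (nat_lit 0), (nat_lit 1280)], [((nat_lit 0), (nat_lit 0), (nat_lit 0)), ((nat_lit 0), (nat_lit 0), (nat_lit 0)), ((nat_lit 1000), (nat_lit 800), (nat_lit 600))], ((nat_lit 80), (nat_lit 100), (nat_lit 51))⟩, (nat_lit 0), (nat_lit 158), (nat_lit 158), (nat_lit 0), (nat_lit 298513), [(nat_lit 1768754442), (nat_lit 1609735220), (nat_lit 933822400)], [(nat_lit 0), (nat_lit 0), (nat_lit 0)], [(nat_lit 21378728737), (nat_lit 22371686779), (nat_lit 23641252577), (nat_lit 24556008982), (nat_lit 26303111344), (nat_lit 27407461645), (nat_lit 28502816655), (nat_lit 29455065872)], (nat_lit 1271251), (nat_lit 1271251), (nat_lit 1271251), (nat_lit 1271251), (nat_lit 1271251), (nat_lit 1271251), [(nat_lit 490000), (nat_lit 1100000), (nat_lit 1442501)], [(nat_lit 3), (nat_lit 50), (nat_lit 203), (nat_lit 0), (nat_lit 6)]⟩,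
 ⟨⟨[(nat_lit 100), (nat_lit 140), (nat_lit 160)], [(nat_lit 0), (nat_lit 0), (nat_lit 1280)], [((nat_lit 0), (nat_lit 0), (nat_lit 0)), ((nat_lit 0), (nat_lit 0), (nat_lit 0)), ((nat_lit 800), (nat_lit 1000), (nat_lit 600))], ((nat_lit 100), (nat_lit 86), (nat_lit 51))⟩, (nat_lit 630264), (nat_lit 569), (nat_lit 569), (nat_lit 0), (nat_lit 635535), [(nat_lit 825000000), (nat_lit 1299144000), (nat_lit 1567104000)], [], [(nat_lit 3639777699), (nat_lit 3689231534), (nat_lit 4424509350), (nat_lit 4507917306), (nat_lit 2640882624), (nat_lit 2094135263), (nat_lit 2525829614), (nat_lit 2600583514)], (nat_lit 1271251), (nat_lit 1271251), (nat_lit 1271251), (nat_lit 1271251), (nat_lit 0), (nat_lit 780000), [(nat_lit 1412501), (nat_lit 1271251), (nat_lit 1271251)], [(nat_lit 23), (nat_lit 62), (nat_lit 401), (nat_lit 175), (nat_lit 10)]⟩,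
 ⟨⟨[(nat_lit 140), (nat_lit 180), (nat_lit 200)], [(nat_lit 0), (nat_lit 0), (nat_lit 2835)], [((nat_lit 0), (nat_lit 0), (nat_lit 0)), ((nat_lit 0), (nat_lit 0), (nat_lit 0)), ((nat_lit 363), (nat_lit 1000), (nat_lit 798))], ((nat_lit 0), (nat_lit 0), (nat_lit 0))⟩, (nat_lit 15683), (nat_lit 300), (nat_lit 1260), (nat_lit 4451700), (nat_lit 1737300), [(nat_lit 560994000), (nat_lit 801306000), (nat_lit 934800000)], [], [(nat_lit 3901856664), (nat_lit 3731368640), (nat_lit 3844997800), (nat_lit 3676782779), (nat_lit 3252148555), (nat_lit 3090929670), (nat_lit 3145547297), (nat_lit 2975959306)], (nat_lit 780000), (nat_lit 1271251), (nat_lit 1271251), (nat_lit 1271251), (nat_lit 0), (nat_lit 780000), [(nat_lit 1977501), (nat_lit 1271251), (nat_lit 1271251)], [(nat_lit 32), (nat_lit 67), (nat_lit 401), (nat_lit 175), (nat_lit 9)]⟩⟩)) (.dle (nat_lit 0))) (.leaf ⟨(nat_lit 167), (nat_lit 644), (nat_lit 0), (nat_lit 189), (nat_lit 0), (nat_lit 5320), (nat_lit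 8214), (nat_lit 2549), (nat_lit 0), (nat_lit 0), (nat_lit 668000), [((nat_lit 340), [((nat_lit 37), (nat_lit 5), (nat_lit 167))])], ⟨(nat_lit 5), false, true, true, (nat_lit 239), (nat_lit 3872), (nat_lit 4473), [(nat_lit 1521548), (nat_lit 1521775), (nat_lit 1543097), (nat_lit 1543551), (nat_lit 1657518), (nat_lit 1650831), (nat_lit 1679069), (nat_lit 1672609)]⟩, ⟨(nat_lit 5), false, false, true, (nat_lit 228), (nat_lit 3872), (nat_lit 4473), [(nat_lit 1413733), (nat_lit 1412825), (nat_lit 1478432), (nat_lit 1478205), (nat_lit 1668651), (nat_lit 1654781), (nat_lit 1733350), (nat_lit 1720161)]⟩, (nat_lit 5333127), (nat_lit 37806960), (nat_lit 15174852), (nat_lit 14018188), (nat_lit 5), (nat_lit 0), [], [⟨(nat_lit 1), (nat_lit 85), (nat_lit 78), (nat_lit 100), (nat_lit 132275535)⟩], [], [⟨(nat_lit 0), (nat_lit 95), (nat_lit 100), (nat_lit 56), (nat_lit 163845973)⟩],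
 ⟨⟨[(nat_lit 40), (nat_lit 80), (nat_lit 100)], [(nat_lit 0), (nat_lit 0), (nat_lit 1280)], [((nat_lit 0), (nat_lit 0), (nat_lit 0)), ((nat_lit 0), (nat_lit 0), (nat_lit 0)), ((nat_lit 1000), (nat_lit 800), (nat_lit 600))], ((nat_lit 80), (nat_lit 100), (nat_lit 57))⟩, (nat_lit 0), (nat_lit 175), (nat_lit 175), (nat_lit 0), (nat_lit 359155), [(nat_lit 2246903900), (nat_lit 3180210046), (nat_lit 3150613600)], [(nat_lit 0), (nat_lit 0), (nat_lit 0)], [(nat_lit 21755493346), (nat_lit 22921131816), (nat_lit 24189585926), (nat_lit 25250991916), (nat_lit 27561360250), (nat_lit 28858958360), (nat_lit 29828741630), (nat_lit 30930268140)], (nat_lit 1271251), (nat_lit 1271251), (nat_lit 1271251), (nat_lit 1271251), (nat_lit 1271251), (nat_lit 1271251), [(nat_lit 490000), (nat_lit 1100000), (nat_lit 1442501)], [(nat_lit 3), (nat_lit 50), (nat_lit 203), (nat_lit 0), (nat_lit 6)]⟩,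
 ⟨⟨[(nat_lit 100), (nat_lit 140), (nat_lit 160)], [(nat_lit 0), (nat_lit 508), (nat_lit 1689)], [((nat_lit 0), (nat_lit 0), (nat_lit 0)), ((nat_lit 1000), (nat_lit 1000), (nat_lit 198)), ((nat_lit 811), (nat_lit 1000), (nat_lit 671))], ((nat_lit 100), (nat_lit 88), (nat_lit 58))⟩, (nat_lit 10210399), (nat_lit 556), (nat_lit 556), (nat_lit 0), (nat_lit 617512), [(nat_lit 5206250000), (nat_lit 8198386000), (nat_lit 9889376000)], [], [(nat_lit 18228341690), (nat_lit 18692278160), (nat_lit 21172227426), (nat_lit 21818504352), (nat_lit 17692833309), (nat_lit 14510038831), (nat_lit 16129499249), (nat_lit 16366365514)], (nat_lit 1271251), (nat_lit 1271251), (nat_lit 1271251), (nat_lit 1271251), (nat_lit 0), (nat_lit 780000), [(nat_lit 1412501), (nat_lit 1271251), (nat_lit 1271251)], [(nat_lit 23), (nat_lit 62), (nat_lit 401), (nat_lit 175), (nat_lit 10)]⟩,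
 ⟨⟨[(nat_lit 140), (nat_lit 180), (nat_lit 200)], [(nat_lit 0), (nat_lit 0), (nat_lit 2835)], [((nat_lit 0), (nat_lit 0), (nat_lit 0)), ((nat_lit 0), (nat_lit 0), (nat_lit 0)), ((nat_lit 363), (nat_lit 1000), (nat_lit 798))], ((nat_lit 0), (nat_lit 0), (nat_lit 0))⟩, (nat_lit 52000), (nat_lit 300), (nat_lit 1391), (nat_lit 14760900), (nat_lit 2033727), [(nat_lit 1860138000), (nat_lit 2656962000), (nat_lit 3099600000)], [], [(nat_lit 12952714536), (nat_lit 12391481636), (nat_lit 12744889426), (nat_lit 12191245458), (nat_lit 10811787307), (nat_lit 10281092637), (nat_lit 10462938443), (nat_lit 9881832541)], (nat_lit 780000), (nat_lit 1271251), (nat_lit 1271251), (nat_lit 1271251), (nat_lit 0), (nat_lit 780000), [(nat_lit 1977501), (nat_lit 1271251), (nat_lit 1271251)], [(nat_lit 32), (nat_lit 67), (nat_lit 429), (nat_lit 175), (nat_lit 9)]⟩⟩)) (.spl (nat_lit 6) (nat_lit 20) (.stt (nat_lit 2) (.leaf ⟨(nat_lit 621), (nat_lit 313), (nat_lit 0), (nat_lit 66),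 (nat_lit 0), (nat_lit 4042), (nat_lit 3488), (nat_lit 697), (nat_lit 0), (nat_lit 0), (nat_lit 1088400), [((nat_lit 340), [((nat_lit 37), (nat_lit 2), (nat_lit 99)), ((nat_lit 18), (nat_lit 2), (nat_lit 353)), ((nat_lit 37), (nat_lit 5), (nat_lit 169))])], ⟨(nat_lit 5), true, false, true, (nat_lit 231), (nat_lit 3872), (nat_lit 4473), [(nat_lit 1478432), (nat_lit 1478205), (nat_lit 1543097), (nat_lit 1543551), (nat_lit 1614388), (nat_lit 1607248), (nat_lit 1679069), (nat_lit 1672609)]⟩, ⟨(nat_lit 5), false, false, true, (nat_lit 228), (nat_lit 3872), (nat_lit 4473), [(nat_lit 1413733), (nat_lit 1412825), (nat_lit 1478432), (nat_lit 1478205), (nat_lit 1668651), (nat_lit 1654781), (nat_lit 1733350), (nat_lit 1720161)]⟩, (nat_lit 5288619), (nat_lit 38377115), (nat_lit 14453141), (nat_lit 14169744), (nat_lit 5), (nat_lit 0), [], [⟨(nat_lit 1), (nat_lit 85), (nat_lit 78), (nat_lit 100), (nat_lit 243636206)⟩], [⟨(nat_lit 1), (nat_lit 30), (nat_lit 100), (nat_lit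 97), (nat_lit 123332315)⟩], [],
 ⟨⟨[(nat_lit 40), (nat_lit 80), (nat_lit 100)], [(nat_lit 0), (nat_lit 0), (nat_lit 1280)], [((nat_lit 0), (nat_lit 0), (nat_lit 0)), ((nat_lit 0), (nat_lit 0), (nat_lit 0)), ((nat_lit 1000), (nat_lit 800), (nat_lit 600))], ((nat_lit 82), (nat_lit 100), (nat_lit 44))⟩, (nat_lit 309), (nat_lit 174), (nat_lit 174), (nat_lit 0), (nat_lit 356509), [(nat_lit 1858660036), (nat_lit 1869223893), (nat_lit 245776800)], [(nat_lit 0), (nat_lit 0), (nat_lit 0)], [(nat_lit 21230289120), (nat_lit 22354850645), (nat_lit 23781784269), (nat_lit 24755044071), (nat_lit 26611281947), (nat_lit 27642556523), (nat_lit 28717573028), (nat_lit 29694000272)], (nat_lit 1271251), (nat_lit 1271251), (nat_lit 1271251), (nat_lit 1271251), (nat_lit 1271251), (nat_lit 1271251), [(nat_lit 490000), (nat_lit 1100000), (nat_lit 1442501)], [(nat_lit 3), (nat_lit 50), (nat_lit 203), (nat_lit 0), (nat_lit 6)]⟩,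
 ⟨⟨[(nat_lit 120), (nat_lit 140), (nat_lit 160)], [(nat_lit 0), (nat_lit 266), (nat_lit 862)], [((nat_lit 0), (nat_lit 0), (nat_lit 0)), ((nat_lit 960), (nat_lit 1000), (nat_lit 200)), ((nat_lit 874), (nat_lit 1000), (nat_lit 406))], ((nat_lit 100), (nat_lit 86), (nat_lit 44))⟩, (nat_lit 0), (nat_lit 113), (nat_lit 113), (nat_lit 0), (nat_lit 0), [(nat_lit 3019872000), (nat_lit 3730118000), (nat_lit 4499488000)], [], [(nat_lit 4667400391), (nat_lit 5976615816), (nat_lit 7007139464), (nat_lit 7959926844), (nat_lit 11713552569), (nat_lit 11963198936), (nat_lit 12665361445), (nat_lit 12910700542)], (nat_lit 0), (nat_lit 0), (nat_lit 0), (nat_lit 0), (nat_lit 0), (nat_lit 0), [], [(nat_lit 27), (nat_lit 62), (nat_lit 483), (nat_lit 250), (nat_lit 12)]⟩,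
 ⟨⟨[(nat_lit 140), (nat_lit 160), (nat_lit 180)], [(nat_lit 0), (nat_lit 0), (nat_lit 799)], [((nat_lit 0), (nat_lit 0), (nat_lit 0)), ((nat_lit 0), (nat_lit 0), (nat_lit 0)), ((nat_lit 728), (nat_lit 1000), (nat_lit 454))], ((nat_lit 100), (nat_lit 71), (nat_lit 48))⟩, (nat_lit 58373), (nat_lit 300), (nat_lit 1742), (nat_lit 4897200), (nat_lit 3074584), [(nat_lit 649572000), (nat_lit 783552000), (nat_lit 927828000)], [], [(nat_lit 4055238211), (nat_lit 3917115346), (nat_lit 3793445020), (nat_lit 3654672432), (nat_lit 3537625105), (nat_lit 3553864692), (nat_lit 3278235905), (nat_lit 3128414265)], (nat_lit 780000), (nat_lit 1271251), (nat_lit 1271251), (nat_lit 1271251), (nat_lit 780000), (nat_lit 3072501), [(nat_lit 1977501), (nat_lit 1271251), (nat_lit 1271251)], [(nat_lit 31), (nat_lit 65), (nat_lit 552), (nat_lit 250), (nat_lit 13)]⟩⟩) (.leaf ⟨(nat_lit 895), (nat_lit 44), (nat_lit 0), (nat_lit 61), (nat_lit 0), (nat_lit 3723), (nat_lit 1170), (nat_lit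 677), (nat_lit 0), (nat_lit 0), (nat_lit 627800), [((nat_lit 340), [((nat_lit 37), (nat_lit 2), (nat_lit 668)), ((nat_lit 18), (nat_lit 2), (nat_lit 227))])], ⟨(nat_lit 5), false, true, true, (nat_lit 231), (nat_lit 3872), (nat_lit 4473), [(nat_lit 1478432), (nat_lit 1478205), (nat_lit 1543097), (nat_lit 1543551), (nat_lit 1614388), (nat_lit 1607248), (nat_lit 1679069), (nat_lit 1672609)]⟩, ⟨(nat_lit 5), false, false, true, (nat_lit 228), (nat_lit 3872), (nat_lit 4473), [(nat_lit 1413733), (nat_lit 1412825), (nat_lit 1478432), (nat_lit 1478205), (nat_lit 1668651), (nat_lit 1654781), (nat_lit 1733350), (nat_lit 1720161)]⟩, (nat_lit 5288619), (nat_lit 38377115), (nat_lit 14453141), (nat_lit 14169744), (nat_lit 5), (nat_lit 0), [], [⟨(nat_lit 1), (nat_lit 85), (nat_lit 78), (nat_lit 100), (nat_lit 149451320)⟩], [], [],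
 ⟨⟨[(nat_lit 40), (nat_lit 80), (nat_lit 100)], [(nat_lit 0), (nat_lit 0), (nat_lit 1280)], [((nat_lit 0), (nat_lit 0), (nat_lit 0)), ((nat_lit 0), (nat_lit 0), (nat_lit 0)), ((nat_lit 1000), (nat_lit 800), (nat_lit 600))], ((nat_lit 82), (nat_lit 100), (nat_lit 44))⟩, (nat_lit 0), (nat_lit 136), (nat_lit 136), (nat_lit 0), (nat_lit 221867), [(nat_lit 1506900633), (nat_lit 1915747397), (nat_lit 1323042000)], [(nat_lit 0), (nat_lit 0), (nat_lit 0)], [(nat_lit 20590890956), (nat_lit 21744998809), (nat_lit 23235082579), (nat_lit 24233300851), (nat_lit 26244269453), (nat_lit 27338931964), (nat_lit 28440215607), (nat_lit 29385416978)], (nat_lit 1271251), (nat_lit 1271251), (nat_lit 1271251), (nat_lit 1271251), (nat_lit 1271251), (nat_lit 1271251), [(nat_lit 490000), (nat_lit 1100000), (nat_lit 1442501)], [(nat_lit 3), (nat_lit 50), (nat_lit 203), (nat_lit 0), (nat_lit 6)]⟩,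
 ⟨⟨[(nat_lit 120), (nat_lit 140), (nat_lit 160)], [(nat_lit 0), (nat_lit 266), (nat_lit 862)], [((nat_lit 0), (nat_lit 0), (nat_lit 0)), ((nat_lit 960), (nat_lit 1000), (nat_lit 200)), ((nat_lit 874), (nat_lit 1000), (nat_lit 406))], ((nat_lit 100), (nat_lit 86), (nat_lit 44))⟩, (nat_lit 1048075), (nat_lit 615), (nat_lit 615), (nat_lit 0), (nat_lit 926942), [(nat_lit 836640000), (nat_lit 1033410000), (nat_lit 1246560000)], [], [(nat_lit 4124551050), (nat_lit 2392057600), (nat_lit 2458508395), (nat_lit 2457932210), (nat_lit 5216927415), (nat_lit 3551297280), (nat_lit 3734874240), (nat_lit 3785702190)], (nat_lit 1271251), (nat_lit 1271251), (nat_lit 1271251), (nat_lit 1271251), (nat_lit 780000), (nat_lit 3072501), [(nat_lit 1695001), (nat_lit 1271251), (nat_lit 1271251)], [(nat_lit 27), (nat_lit 62), (nat_lit 483), (nat_lit 250), (nat_lit 12)]⟩,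
 ⟨⟨[(nat_lit 140), (nat_lit 160), (nat_lit 180)], [(nat_lit 0), (nat_lit 0), (nat_lit 799)], [((nat_lit 0), (nat_lit 0), (nat_lit 0)), ((nat_lit 0), (nat_lit 0), (nat_lit 0)), ((nat_lit 728), (nat_lit 1000), (nat_lit 454))], ((nat_lit 100), (nat_lit 71), (nat_lit 48))⟩, (nat_lit 53596), (nat_lit 300), (nat_lit 1232), (nat_lit 4526200), (nat_lit 2011770), [(nat_lit 600362000), (nat_lit 724192000), (nat_lit 857538000)], [], [(nat_lit 3402397427), (nat_lit 3263802541), (nat_lit 3225674028), (nat_lit 3083984975), (nat_lit 3043047144), (nat_lit 3332947052), (nat_lit 2936174318), (nat_lit 2797038090)], (nat_lit 780000), (nat_lit 1271251), (nat_lit 1271251), (nat_lit 1271251), (nat_lit 780000), (nat_lit 3072501), [(nat_lit 1977501), (nat_lit 1271251), (nat_lit 1271251)], [(nat_lit 31), (nat_lit 65), (nat_lit 483), (nat_lit 250), (nat_lit 11)]⟩⟩)) (.leaf ⟨(nat_lit 459), (nat_lit 277), (nat_lit 0), (nat_lit 264), (nat_lit 1111), (nat_lit 5960), (nat_lit 6144),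 (nat_lit 3150), (nat_lit 0), (nat_lit 0), (nat_lit 114750), [((nat_lit 340), [((nat_lit 18), (nat_lit 0), (nat_lit 459))])], ⟨(nat_lit 5), false, true, true, (nat_lit 231), (nat_lit 3872), (nat_lit 4473), [(nat_lit 1478432), (nat_lit 1478205), (nat_lit 1543097), (nat_lit 1543551), (nat_lit 1614388), (nat_lit 1607248), (nat_lit 1679069), (nat_lit 1672609)]⟩, ⟨(nat_lit 5), false, false, true, (nat_lit 228), (nat_lit 3872), (nat_lit 4473), [(nat_lit 1413733), (nat_lit 1412825), (nat_lit 1478432), (nat_lit 1478205), (nat_lit 1668651), (nat_lit 1654781), (nat_lit 1733350), (nat_lit 1720161)]⟩, (nat_lit 5288619), (nat_lit 38377115), (nat_lit 14453141), (nat_lit 14169744), (nat_lit 5), (nat_lit 0), [], [⟨(nat_lit 1), (nat_lit 85), (nat_lit 78), (nat_lit 100), (nat_lit 97178022)⟩], [], [],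
 ⟨⟨[(nat_lit 40), (nat_lit 80), (nat_lit 100)], [(nat_lit 0), (nat_lit 0), (nat_lit 1280)], [((nat_lit 0), (nat_lit 0), (nat_lit 0)), ((nat_lit 0), (nat_lit 0), (nat_lit 0)), ((nat_lit 1000), (nat_lit 800), (nat_lit 600))], ((nat_lit 80), (nat_lit 100), (nat_lit 57))⟩, (nat_lit 0), (nat_lit 109), (nat_lit 109), (nat_lit 0), (nat_lit 128106), [(nat_lit 2366344502), (nat_lit 4010009216), (nat_lit 4557208000)], [(nat_lit 0), (nat_lit 0), (nat_lit 0)], [(nat_lit 21594297320), (nat_lit 23166842980), (nat_lit 24664143640), (nat_lit 25991819330), (nat_lit 28362895500), (nat_lit 29468111080), (nat_lit 30385195390), (nat_lit 31549369420)], (nat_lit 1271251), (nat_lit 1271251), (nat_lit 1271251), (nat_lit 1271251), (nat_lit 1271251), (nat_lit 1271251), [(nat_lit 490000), (nat_lit 1100000), (nat_lit 1442501)], [(nat_lit 3), (nat_lit 50), (nat_lit 203), (nat_lit 0), (nat_lit 6)]⟩,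
 ⟨⟨[(nat_lit 120), (nat_lit 160), (nat_lit 180)], [(nat_lit 0), (nat_lit 533), (nat_lit 2066)], [((nat_lit 0), (nat_lit 0), (nat_lit 0)), ((nat_lit 960), (nat_lit 1000), (nat_lit 200)), ((nat_lit 615), (nat_lit 1000), (nat_lit 729))], ((nat_lit 100), (nat_lit 76), (nat_lit 58))⟩, (nat_lit 1682125), (nat_lit 365), (nat_lit 365), (nat_lit 0), (nat_lit 305216), [(nat_lit 4310688000), (nat_lit 6422752000), (nat_lit 7605378000)], [], [(nat_lit 21368743560), (nat_lit 13971374337), (nat_lit 15176364802), (nat_lit 15748812199), (nat_lit 27029104408), (nat_lit 19509271179), (nat_lit 20170246243), (nat_lit 19905407035)], (nat_lit 1271251), (nat_lit 1271251), (nat_lit 1271251), (nat_lit 1271251), (nat_lit 780000), (nat_lit 3072501), [(nat_lit 1695001), (nat_lit 1271251), (nat_lit 1271251)], [(nat_lit 28), (nat_lit 65), (nat_lit 483), (nat_lit 250), (nat_lit 11)]⟩,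
 ⟨⟨[(nat_lit 140), (nat_lit 180), (nat_lit 200)], [(nat_lit 0), (nat_lit 0), (nat_lit 2835)], [((nat_lit 0), (nat_lit 0), (nat_lit 0)), ((nat_lit 0), (nat_lit 0), (nat_lit 0)), ((nat_lit 363), (nat_lit 1000), (nat_lit 798))], ((nat_lit 0), (nat_lit 0), (nat_lit 0))⟩, (nat_lit 72635), (nat_lit 300), (nat_lit 873), (nat_lit 20618400), (nat_lit 1081983), [(nat_lit 2598288000), (nat_lit 3711312000), (nat_lit 4329600000)], [], [(nat_lit 16416678480), (nat_lit 15722798681), (nat_lit 15607717827), (nat_lit 14879576612), (nat_lit 14714247060), (nat_lit 14748636984), (nat_lit 14072332482), (nat_lit 13338542044)], (nat_lit 780000), (nat_lit 1271251), (nat_lit 1271251), (nat_lit 1271251), (nat_lit 780000), (nat_lit 3072501), [(nat_lit 1977501), (nat_lit 1271251), (nat_lit 1271251)], [(nat_lit 32), (nat_lit 67), (nat_lit 483), (nat_lit 250), (nat_lit 10)]⟩⟩)))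
noncomputable def c10_32 : Tr Lf :=
 (.trZ (nat_lit 3) (nat_lit 4) (nat_lit 5) (nat_lit 100) (nat_lit 92) (nat_lit 40) (nat_lit 10) (.spl (nat_lit 5) (nat_lit 120) (.trX (nat_lit 4) (nat_lit 3) (nat_lit 5) (nat_lit 100) (nat_lit 80) (nat_lit 100) (nat_lit 340) (.spl (nat_lit 0) (nat_lit 330) (.spl (nat_lit 6) (nat_lit 28) (.leaf ⟨(nat_lit 156), (nat_lit 707), (nat_lit 0), (nat_lit 137), (nat_lit 0), (nat_lit 5468), (nat_lit 9360), (nat_lit 2404), (nat_lit 0), (nat_lit 0), (nat_lit 624000), [((nat_lit 330), [((nat_lit 37), (nat_lit 5), (nat_lit 156))])], ⟨(nat_lit 7), false, true, true, (nat_lit 295), (nat_lit 4183), (nat_lit 4473), [(nat_lit 1614388), (nat_lit 1610843), (nat_lit 1679082), (nat_lit 1675838), (nat_lit 1801328), (nat_lit 1793046), (nat_lit 1866025), (nat_lit 1858043)]⟩, ⟨(nat_lit 5), false, false, true, (nat_lit 225), (nat_lit 4183), (nat_lit 4473), [(nat_lit 1413733), (nat_lit 1413332), (nat_lit 1478432), (nat_lit 1478332), (nat_lit 1651656),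 (nat_lit 1645226), (nat_lit 1716356), (nat_lit 1710226)]⟩, (nat_lit 5512198), (nat_lit 34358404), (nat_lit 19841448), (nat_lit 12800148), (nat_lit 5), (nat_lit 0), [], [], [], [⟨(nat_lit 0), (nat_lit 100), (nat_lit 79), (nat_lit 95), (nat_lit 386783931)⟩],
 ⟨⟨[(nat_lit 40), (nat_lit 80), (nat_lit 100)], [(nat_lit 0), (nat_lit 0), (nat_lit 1280)], [((nat_lit 0), (nat_lit 0), (nat_lit 0)), ((nat_lit 0), (nat_lit 0), (nat_lit 0)), ((nat_lit 1000), (nat_lit 800), (nat_lit 600))], ((nat_lit 80), (nat_lit 100), (nat_lit 51))⟩, (nat_lit 572046), (nat_lit 164), (nat_lit 164), (nat_lit 0), (nat_lit 288653), [(nat_lit 2401785735), (nat_lit 3218042121), (nat_lit 3400099479)], [(nat_lit 0), (nat_lit 0), (nat_lit 0)], [(nat_lit 23477111383), (nat_lit 24014774055), (nat_lit 30554661303), (nat_lit 31133343054), (nat_lit 29349917500), (nat_lit 29924423437), (nat_lit 34554053763), (nat_lit 34975950248)], (nat_lit 1271251), (nat_lit 1271251), (nat_lit 1271251), (nat_lit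 1271251), (nat_lit 1271251), (nat_lit 1271251), [(nat_lit 490000), (nat_lit 1100000), (nat_lit 1442501)], [(nat_lit 3), (nat_lit 50), (nat_lit 203), (nat_lit 0), (nat_lit 6)]⟩,
 ⟨⟨[(nat_lit 120), (nat_lit 140), (nat_lit 160)], [(nat_lit 0), (nat_lit 266), (nat_lit 862)], [((nat_lit 0), (nat_lit 0), (nat_lit 0)), ((nat_lit 960), (nat_lit 1000), (nat_lit 200)), ((nat_lit 874), (nat_lit 1000), (nat_lit 406))], ((nat_lit 100), (nat_lit 81), (nat_lit 51))⟩, (nat_lit 9229863), (nat_lit 503), (nat_lit 503), (nat_lit 0), (nat_lit 504423), [(nat_lit 6724992000), (nat_lit 8306648000), (nat_lit 10019968000)], [], [(nat_lit 24787007627), (nat_lit 25385491573), (nat_lit 35311572160), (nat_lit 36654737700), (nat_lit 19889664118), (nat_lit 19929078280), (nat_lit 26219966269), (nat_lit 27638260810)], (nat_lit 1271251), (nat_lit 1271251), (nat_lit 1271251), (nat_lit 1271251), (nat_lit 54688), (nat_lit 780000), [(nat_lit 1695001), (nat_lit 1271251), (nat_lit 1271251)],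 [(nat_lit 27), (nat_lit 62), (nat_lit 428), (nat_lit 200), (nat_lit 11)]⟩,
 ⟨⟨[(nat_lit 140), (nat_lit 180), (nat_lit 200)], [(nat_lit 0), (nat_lit 0), (nat_lit 2835)], [((nat_lit 0), (nat_lit 0), (nat_lit 0)), ((nat_lit 0), (nat_lit 0), (nat_lit 0)), ((nat_lit 363), (nat_lit 1000), (nat_lit 798))], ((nat_lit 0), (nat_lit 0), (nat_lit 0))⟩, (nat_lit 37693), (nat_lit 300), (nat_lit 1155), (nat_lit 10699702), (nat_lit 1533140), [(nat_lit 1348354000), (nat_lit 1925946000), (nat_lit 2246800000)], [], [(nat_lit 8947145634), (nat_lit 8484776102), (nat_lit 9115761325), (nat_lit 8565581041), (nat_lit 6940423188), (nat_lit 6948862939), (nat_lit 7068540389), (nat_lit 6553166977)], (nat_lit 780000), (nat_lit 1271251), (nat_lit 1271251), (nat_lit 1271251), (nat_lit 54688), (nat_lit 780000), [(nat_lit 1977501), (nat_lit 1271251), (nat_lit 1271251)], [(nat_lit 32), (nat_lit 67), (nat_lit 401), (nat_lit 175), (nat_lit 9)]⟩⟩) (.dle (nat_lit 0))) (.trX (nat_lit 3) (nat_lit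 0) (nat_lit 1) (nat_lit 78) (nat_lit 49) (nat_lit 100) (nat_lit 380) (.leaf ⟨(nat_lit 776), (nat_lit 160), (nat_lit 0), (nat_lit 64), (nat_lit 411), (nat_lit 4039), (nat_lit 2405), (nat_lit 873), (nat_lit 0), (nat_lit 0), (nat_lit 237350), [((nat_lit 340), [((nat_lit 18), (nat_lit 0), (nat_lit 487)), ((nat_lit 18), (nat_lit 1), (nat_lit 289))])], ⟨(nat_lit 7), false, true, true, (nat_lit 289), (nat_lit 3872), (nat_lit 4184), [(nat_lit 1610843), (nat_lit 1607248), (nat_lit 1675840), (nat_lit 1672625), (nat_lit 1776482), (nat_lit 1768552), (nat_lit 1841482), (nat_lit 1833932)]⟩, ⟨(nat_lit 5), false, false, true, (nat_lit 224), (nat_lit 3872), (nat_lit 4184), [(nat_lit 1413332), (nat_lit 1412825), (nat_lit 1478332), (nat_lit 1478205), (nat_lit 1645226), (nat_lit 1638651), (nat_lit 1710226), (nat_lit 1704031)]⟩, (nat_lit 5492314), (nat_lit 34784722), (nat_lit 19412251), (nat_lit 12803027), (nat_lit 5), (nat_lit 0), [], [], [], [⟨(nat_lit 0), (nat_lit 100),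 (nat_lit 81), (nat_lit 93), (nat_lit 166175088)⟩],
 ⟨⟨[(nat_lit 40), (nat_lit 80), (nat_lit 100)], [(nat_lit 0), (nat_lit 395), (nat_lit 1536)], [((nat_lit 0), (nat_lit 0), (nat_lit 0)), ((nat_lit 1000), (nat_lit 908), (nat_lit 154)), ((nat_lit 1000), (nat_lit 760), (nat_lit 642))], ((nat_lit 76), (nat_lit 100), (nat_lit 58))⟩, (nat_lit 785149), (nat_lit 184), (nat_lit 184), (nat_lit 0), (nat_lit 354882), [(nat_lit 1526273178), (nat_lit 2649941776), (nat_lit 3214365200)], [(nat_lit 0), (nat_lit 0), (nat_lit 0)], [(nat_lit 25019962173), (nat_lit 25462290166), (nat_lit 28889437246), (nat_lit 29389640612), (nat_lit 28807799589), (nat_lit 29189993240), (nat_lit 32762048753), (nat_lit 33153385259)], (nat_lit 1271251), (nat_lit 1271251), (nat_lit 1271251), (nat_lit 1271251), (nat_lit 1271251), (nat_lit 1271251), [(nat_lit 490000), (nat_lit 1100000), (nat_lit 1442501)], [(nat_lit 3), (nat_lit 50), (nat_lit 203), (nat_lit 0), (nat_lit 6)]⟩,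
 ⟨⟨[(nat_lit 120), (nat_lit 160), (nat_lit 180)], [(nat_lit 0), (nat_lit 533), (nat_lit 2066)], [((nat_lit 0), (nat_lit 0), (nat_lit 0)), ((nat_lit 960), (nat_lit 1000), (nat_lit 200)), ((nat_lit 615), (nat_lit 1000), (nat_lit 729))], ((nat_lit 100), (nat_lit 76), (nat_lit 58))⟩, (nat_lit 2359346), (nat_lit 670), (nat_lit 670), (nat_lit 0), (nat_lit 744716), [(nat_lit 1784832000), (nat_lit 2659328000), (nat_lit 3148992000)], [], [(nat_lit 7395276465), (nat_lit 7466250685), (nat_lit 9047367065), (nat_lit 9153155335), (nat_lit 5778781517), (nat_lit 5831077756), (nat_lit 7104411062), (nat_lit 7204023536)], (nat_lit 1271251), (nat_lit 1271251), (nat_lit 1271251), (nat_lit 1271251), (nat_lit 54688), (nat_lit 780000), [(nat_lit 1695001), (nat_lit 1271251), (nat_lit 1271251)], [(nat_lit 28), (nat_lit 65), (nat_lit 428), (nat_lit 200), (nat_lit 10)]⟩,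
 ⟨⟨[(nat_lit 140), (nat_lit 180), (nat_lit 200)], [(nat_lit 0), (nat_lit 0), (nat_lit 2835)], [((nat_lit 0), (nat_lit 0), (nat_lit 0)), ((nat_lit 0), (nat_lit 0), (nat_lit 0)), ((nat_lit 363), (nat_lit 1000), (nat_lit 798))], ((nat_lit 0), (nat_lit 0), (nat_lit 0))⟩, (nat_lit 17608), (nat_lit 300), (nat_lit 1379), (nat_lit 4998407), (nat_lit 2033727), [(nat_lit 629888000), (nat_lit 899712000), (nat_lit 1049600000)], [], [(nat_lit 4303759157), (nat_lit 4112104930), (nat_lit 4210779031), (nat_lit 4025475464), (nat_lit 3641349883), (nat_lit 3458939950), (nat_lit 3515079169), (nat_lit 3316599676)], (nat_lit 780000), (nat_lit 1271251), (nat_lit 1271251), (nat_lit 1271251), (nat_lit 54688), (nat_lit 780000), [(nat_lit 1977501), (nat_lit 1271251), (nat_lit 1271251)], [(nat_lit 32), (nat_lit 67), (nat_lit 425), (nat_lit 175), (nat_lit 9)]⟩⟩)))) (.spl (nat_lit 6) (nat_lit 20) (.stt (nat_lit 2) (.spl (nat_lit 0) (nat_lit 330) (.leaf ⟨(nat_lit 224), (nat_lit 635),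 (nat_lit 0), (nat_lit 141), (nat_lit 0), (nat_lit 4459), (nat_lit 6339), (nat_lit 1469), (nat_lit 0), (nat_lit 0), (nat_lit 896000), [((nat_lit 330), [((nat_lit 37), (nat_lit 5), (nat_lit 224))])], ⟨(nat_lit 7), true, false, true, (nat_lit 295), (nat_lit 4183), (nat_lit 4473), [(nat_lit 1614388), (nat_lit 1610843), (nat_lit 1679082), (nat_lit 1675838), (nat_lit 1801328), (nat_lit 1793046), (nat_lit 1866025), (nat_lit 1858043)]⟩, ⟨(nat_lit 5), false, false, true, (nat_lit 229), (nat_lit 4183), (nat_lit 4473), [(nat_lit 1413733), (nat_lit 1413332), (nat_lit 1478432), (nat_lit 1478332), (nat_lit 1668651), (nat_lit 1661790), (nat_lit 1733350), (nat_lit 1726790)]⟩, (nat_lit 5529933), (nat_lit 34186439), (nat_lit 19759515), (nat_lit 13054046), (nat_lit 5), (nat_lit 0), [], [⟨(nat_lit 1), (nat_lit 83), (nat_lit 81), (nat_lit 100), (nat_lit 251282881)⟩], [⟨(nat_lit 1), (nat_lit 30), (nat_lit 100), (nat_lit 97), (nat_lit 112282803)⟩], [],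
 ⟨⟨[(nat_lit 40), (nat_lit 80), (nat_lit 100)], [(nat_lit 0), (nat_lit 0), (nat_lit 1280)], [((nat_lit 0), (nat_lit 0), (nat_lit 0)), ((nat_lit 0), (nat_lit 0), (nat_lit 0)), ((nat_lit 1000), (nat_lit 800), (nat_lit 600))], ((nat_lit 82), (nat_lit 100), (nat_lit 44))⟩, (nat_lit 0), (nat_lit 164), (nat_lit 164), (nat_lit 0), (nat_lit 287667), [(nat_lit 2357668847), (nat_lit 2679726390), (nat_lit 2092739200)], [(nat_lit 0), (nat_lit 0), (nat_lit 0)], [(nat_lit 24800571501), (nat_lit 25261483077), (nat_lit 29430885283), (nat_lit 29957486301), (nat_lit 29226328513), (nat_lit 29589311670), (nat_lit 33748888783), (nat_lit 34131057846)], (nat_lit 1271251), (nat_lit 1271251), (nat_lit 1271251), (nat_lit 1271251), (nat_lit 1271251), (nat_lit 1271251), [(nat_lit 490000), (nat_lit 1100000), (nat_lit 1442501)], [(nat_lit 3), (nat_lit 50), (nat_lit 203), (nat_lit 0), (nat_lit 6)]⟩,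
 ⟨⟨[(nat_lit 120), (nat_lit 140), (nat_lit 160)], [(nat_lit 0), (nat_lit 266), (nat_lit 862)], [((nat_lit 0), (nat_lit 0), (nat_lit 0)), ((nat_lit 960), (nat_lit 1000), (nat_lit 200)), ((nat_lit 874), (nat_lit 1000), (nat_lit 406))], ((nat_lit 100), (nat_lit 86), (nat_lit 44))⟩, (nat_lit 3925787), (nat_lit 167), (nat_lit 167), (nat_lit 0), (nat_lit 0), [(nat_lit 6183168000), (nat_lit 7637392000), (nat_lit 9212672000)], [], [(nat_lit 22749983666), (nat_lit 23471472188), (nat_lit 27486624051), (nat_lit 27639972489), (nat_lit 27817237958), (nat_lit 27735846296), (nat_lit 30581115206), (nat_lit 30445657752)], (nat_lit 0), (nat_lit 0), (nat_lit 0), (nat_lit 0), (nat_lit 0), (nat_lit 0), [], [(nat_lit 27), (nat_lit 62), (nat_lit 538), (nat_lit 300), (nat_lit 13)]⟩,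
 ⟨⟨[(nat_lit 140), (nat_lit 160), (nat_lit 180)], [(nat_lit 0), (nat_lit 0), (nat_lit 799)], [((nat_lit 0), (nat_lit 0), (nat_lit 0)), ((nat_lit 0), (nat_lit 0), (nat_lit 0)), ((nat_lit 728), (nat_lit 1000), (nat_lit 454))], ((nat_lit 100), (nat_lit 71), (nat_lit 48))⟩, (nat_lit 123882), (nat_lit 300), (nat_lit 1392), (nat_lit 10462202), (nat_lit 2348979), [(nat_lit 1387722000), (nat_lit 1673952000), (nat_lit 1982178000)], [], [(nat_lit 8640522274), (nat_lit 8344253676), (nat_lit 8154914718), (nat_lit 7849504253), (nat_lit 7634693072), (nat_lit 7562822988), (nat_lit 7099445911), (nat_lit 6786724552)], (nat_lit 780000), (nat_lit 1271251), (nat_lit 1271251), (nat_lit 1271251), (nat_lit 780000), (nat_lit 3072501), [(nat_lit 1977501), (nat_lit 1271251), (nat_lit 1271251)], [(nat_lit 31), (nat_lit 65), (nat_lit 483), (nat_lit 250), (nat_lit 11)]⟩⟩) (.trX (nat_lit 3) (nat_lit 0) (nat_lit 1) (nat_lit 78) (nat_lit 49) (nat_lit 100) (nat_lit 380) (.trX (nat_lit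 4) (nat_lit 0) (nat_lit 2) (nat_lit 76) (nat_lit 73) (nat_lit 100) (nat_lit 340) (.leaf ⟨(nat_lit 0), (nat_lit 889), (nat_lit 0), (nat_lit 111), (nat_lit 0), (nat_lit 4438), (nat_lit 7829), (nat_lit 1177), (nat_lit 0), (nat_lit 0), (nat_lit 0), [], Pd.none, Pd.none, (nat_lit 0), (nat_lit 1), (nat_lit 0), (nat_lit 0), (nat_lit 5), (nat_lit 0), [], [⟨(nat_lit 1), (nat_lit 87), (nat_lit 76), (nat_lit 100), (nat_lit 360092357)⟩], [⟨(nat_lit 1), (nat_lit 30), (nat_lit 100), (nat_lit 97), (nat_lit 273650782)⟩], [],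
 ⟨⟨[(nat_lit 40), (nat_lit 60), (nat_lit 80)], [(nat_lit 0), (nat_lit 197), (nat_lit 800)], [((nat_lit 0), (nat_lit 0), (nat_lit 0)), ((nat_lit 1000), (nat_lit 908), (nat_lit 154)), ((nat_lit 1000), (nat_lit 781), (nat_lit 471))], ((nat_lit 79), (nat_lit 100), (nat_lit 45))⟩, (nat_lit 2441566), (nat_lit 168), (nat_lit 168), (nat_lit 0), (nat_lit 351943), [(nat_lit 2032000027), (nat_lit 3282000028), (nat_lit 4688000000)], [], [(nat_lit 24854401966), (nat_lit 25370262199), (nat_lit 29306398717), (nat_lit 29848765423), (nat_lit 29034870494), (nat_lit 29555469459), (nat_lit 33238897256), (nat_lit 33642684669)], (nat_lit 1271251), (nat_lit 1271251), (nat_lit 1271251), (nat_lit 1271251), (nat_lit 1271251), (nat_lit 1271251), [(nat_lit 490000), (nat_lit 780000), (nat_lit 1100000)], [(nat_lit 2), (nat_lit 44), (nat_lit 203), (nat_lit 0), (nat_lit 7)]⟩,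
 ⟨⟨[(nat_lit 120), (nat_lit 140), (nat_lit 160)], [(nat_lit 0), (nat_lit 266), (nat_lit 862)], [((nat_lit 0), (nat_lit 0), (nat_lit 0)), ((nat_lit 960), (nat_lit 1000), (nat_lit 200)), ((nat_lit 874), (nat_lit 1000), (nat_lit 406))], ((nat_lit 100), (nat_lit 86), (nat_lit 44))⟩, (nat_lit 0), (nat_lit 134), (nat_lit 134), (nat_lit 0), (nat_lit 0), [(nat_lit 7968000000), (nat_lit 9842000000), (nat_lit 11872000000)], [], [(nat_lit 19909206612), (nat_lit 22290450129), (nat_lit 29388506180), (nat_lit 30620460049), (nat_lit 33307330615), (nat_lit 33711250012), (nat_lit 38106280643), (nat_lit 38132044945)], (nat_lit 0), (nat_lit 0), (nat_lit 0), (nat_lit 0), (nat_lit 0), (nat_lit 0), [], [(nat_lit 27), (nat_lit 62), (nat_lit 538), (nat_lit 300), (nat_lit 13)]⟩,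
 ⟨⟨[(nat_lit 140), (nat_lit 160), (nat_lit 180)], [(nat_lit 0), (nat_lit 0), (nat_lit 799)], [((nat_lit 0), (nat_lit 0), (nat_lit 0)), ((nat_lit 0), (nat_lit 0), (nat_lit 0)), ((nat_lit 728), (nat_lit 1000), (nat_lit 454))], ((nat_lit 100), (nat_lit 71), (nat_lit 48))⟩, (nat_lit 97524), (nat_lit 300), (nat_lit 1742), (nat_lit 8236202), (nat_lit 3074584), [(nat_lit 1092462000), (nat_lit 1317792000), (nat_lit 1560438000)], [], [(nat_lit 6761472879), (nat_lit 6528012346), (nat_lit 6342227317), (nat_lit 6107876815), (nat_lit 5886330351), (nat_lit 5983983852), (nat_lit 5496570010), (nat_lit 5242381366)], (nat_lit 780000), (nat_lit 1271251), (nat_lit 1271251), (nat_lit 1271251), (nat_lit 780000), (nat_lit 3072501), [(nat_lit 1977501), (nat_lit 1271251), (nat_lit 1271251)], [(nat_lit 31), (nat_lit 65), (nat_lit 551), (nat_lit 250), (nat_lit 13)]⟩⟩)))) (.spl (nat_lit 1) (nat_lit 220) (.trX (nat_lit 3) (nat_lit 0) (nat_lit 1) (nat_lit 80) (nat_lit 52) (nat_lit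 100) (nat_lit 380) (.leaf ⟨(nat_lit 688), (nat_lit 180), (nat_lit 0), (nat_lit 132), (nat_lit 0), (nat_lit 3540), (nat_lit 2845), (nat_lit 1454), (nat_lit 0), (nat_lit 0), (nat_lit 1776200), [((nat_lit 340), [((nat_lit 37), (nat_lit 2), (nat_lit 287)), ((nat_lit 37), (nat_lit 5), (nat_lit 401))])], ⟨(nat_lit 7), false, true, true, (nat_lit 286), (nat_lit 3872), (nat_lit 4473), [(nat_lit 1614388), (nat_lit 1607248), (nat_lit 1657518), (nat_lit 1650831), (nat_lit 1784334), (nat_lit 1768552), (nat_lit 1827467), (nat_lit 1812139)]⟩, ⟨(nat_lit 5), false, false, true, (nat_lit 228), (nat_lit 3872), (nat_lit 4473), [(nat_lit 1413733), (nat_lit 1412825), (nat_lit 1478432), (nat_lit 1478205), (nat_lit 1668651), (nat_lit 1654781), (nat_lit 1733350), (nat_lit 1720161)]⟩, (nat_lit 5505500), (nat_lit 34782489), (nat_lit 19051588), (nat_lit 13165923), (nat_lit 5), (nat_lit 0), [⟨(nat_lit 1), (nat_lit 65), (nat_lit 76), (nat_lit 100), (nat_lit 112335259)⟩], [⟨(nat_lit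 1), (nat_lit 85), (nat_lit 78), (nat_lit 100), (nat_lit 116639676)⟩], [], [],
 ⟨⟨[(nat_lit 40), (nat_lit 80), (nat_lit 100)], [(nat_lit 0), (nat_lit 0), (nat_lit 1280)], [((nat_lit 0), (nat_lit 0), (nat_lit 0)), ((nat_lit 0), (nat_lit 0), (nat_lit 0)), ((nat_lit 1000), (nat_lit 800), (nat_lit 600))], ((nat_lit 82), (nat_lit 100), (nat_lit 44))⟩, (nat_lit 0), (nat_lit 136), (nat_lit 136), (nat_lit 0), (nat_lit 191220), [(nat_lit 1762516640), (nat_lit 1601717381), (nat_lit 0)], [(nat_lit 0), (nat_lit 0), (nat_lit 2656283600)], [(nat_lit 23822460341), (nat_lit 24799667651), (nat_lit 28033323831), (nat_lit 28816356096), (nat_lit 28505316161), (nat_lit 29279070910), (nat_lit 32183645553), (nat_lit 32917219487)], (nat_lit 1271251), (nat_lit 1271251), (nat_lit 1271251), (nat_lit 1271251), (nat_lit 1271251), (nat_lit 1271251), [(nat_lit 490000), (nat_lit 1100000), (nat_lit 1442501)], [(nat_lit 3), (nat_lit 50), (nat_lit 203), (nat_lit 0), (nat_lit 6)]⟩,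
 ⟨⟨[(nat_lit 120), (nat_lit 140), (nat_lit 160)], [(nat_lit 0), (nat_lit 266), (nat_lit 862)], [((nat_lit 0), (nat_lit 0), (nat_lit 0)), ((nat_lit 960), (nat_lit 1000), (nat_lit 200)), ((nat_lit 874), (nat_lit 1000), (nat_lit 406))], ((nat_lit 100), (nat_lit 86), (nat_lit 44))⟩, (nat_lit 3118097), (nat_lit 584), (nat_lit 584), (nat_lit 0), (nat_lit 895584), [(nat_lit 2486016000), (nat_lit 3070704000), (nat_lit 3704064000)], [], [(nat_lit 9683316488), (nat_lit 9729947691), (nat_lit 10756428546), (nat_lit 10709852936), (nat_lit 10607637768), (nat_lit 10533210540), (nat_lit 12505522489), (nat_lit 12467509327)], (nat_lit 1271251), (nat_lit 1271251), (nat_lit 1271251), (nat_lit 1271251), (nat_lit 780000), (nat_lit 3072501), [(nat_lit 1695001), (nat_lit 1271251), (nat_lit 1271251)], [(nat_lit 27), (nat_lit 62), (nat_lit 483), (nat_lit 250), (nat_lit 12)]⟩,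
 ⟨⟨[(nat_lit 140), (nat_lit 160), (nat_lit 180)], [(nat_lit 0), (nat_lit 0), (nat_lit 799)], [((nat_lit 0), (nat_lit 0), (nat_lit 0)), ((nat_lit 0), (nat_lit 0), (nat_lit 0)), ((nat_lit 728), (nat_lit 1000), (nat_lit 454))], ((nat_lit 100), (nat_lit 71), (nat_lit 48))⟩, (nat_lit 115975), (nat_lit 300), (nat_lit 1108), (nat_lit 9794400), (nat_lit 1727908), [(nat_lit 1299144000), (nat_lit 1567104000), (nat_lit 1855656000)], [], [(nat_lit 7435738304), (nat_lit 7138732348), (nat_lit 7040784886), (nat_lit 6737169128), (nat_lit 6632686308), (nat_lit 7196101464), (nat_lit 6369167060), (nat_lit 6071233133)], (nat_lit 780000), (nat_lit 1271251), (nat_lit 1271251), (nat_lit 1271251), (nat_lit 780000), (nat_lit 3072501), [(nat_lit 1977501), (nat_lit 1271251), (nat_lit 1271251)], [(nat_lit 31), (nat_lit 65), (nat_lit 483), (nat_lit 250), (nat_lit 11)]⟩⟩)) (.leaf ⟨(nat_lit 241), (nat_lit 554), (nat_lit 0), (nat_lit 205), (nat_lit 0), (nat_lit 4283), (nat_lit 5498),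 (nat_lit 2133), (nat_lit 0), (nat_lit 0), (nat_lit 964000), [((nat_lit 340), [((nat_lit 37), (nat_lit 5), (nat_lit 241))])], ⟨(nat_lit 7), false, true, true, (nat_lit 302), (nat_lit 3872), (nat_lit 4473), [(nat_lit 1657518), (nat_lit 1650831), (nat_lit 1679069), (nat_lit 1672609), (nat_lit 1844461), (nat_lit 1828269), (nat_lit 1866022), (nat_lit 1850057)]⟩, ⟨(nat_lit 5), false, false, true, (nat_lit 228), (nat_lit 3872), (nat_lit 4473), [(nat_lit 1413733), (nat_lit 1412825), (nat_lit 1478432), (nat_lit 1478205), (nat_lit 1668651), (nat_lit 1654781), (nat_lit 1733350), (nat_lit 1720161)]⟩, (nat_lit 5541119), (nat_lit 33749489), (nat_lit 20392769), (nat_lit 12857742), (nat_lit 5), (nat_lit 0), [], [⟨(nat_lit 1), (nat_lit 85), (nat_lit 78), (nat_lit 100), (nat_lit 197450728)⟩], [⟨(nat_lit 1), (nat_lit 40), (nat_lit 100), (nat_lit 98), (nat_lit 59247107)⟩], [],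
 ⟨⟨[(nat_lit 40), (nat_lit 80), (nat_lit 100)], [(nat_lit 0), (nat_lit 0), (nat_lit 1280)], [((nat_lit 0), (nat_lit 0), (nat_lit 0)), ((nat_lit 0), (nat_lit 0), (nat_lit 0)), ((nat_lit 1000), (nat_lit 800), (nat_lit 600))], ((nat_lit 82), (nat_lit 100), (nat_lit 44))⟩, (nat_lit 548246), (nat_lit 148), (nat_lit 148), (nat_lit 0), (nat_lit 221526), [(nat_lit 2390894118), (nat_lit 2530642749), (nat_lit 1777232800)], [(nat_lit 0), (nat_lit 0), (nat_lit 0)], [(nat_lit 24930113559), (nat_lit 25892747156), (nat_lit 29472274563), (nat_lit 30269898024), (nat_lit 29347838546), (nat_lit 30112136056), (nat_lit 33530642348), (nat_lit 34285331101)], (nat_lit 1271251), (nat_lit 1271251), (nat_lit 1271251), (nat_lit 1271251), (nat_lit 1271251), (nat_lit 1271251), [(nat_lit 490000), (nat_lit 1100000), (nat_lit 1442501)], [(nat_lit 3), (nat_lit 50), (nat_lit 203), (nat_lit 0), (nat_lit 6)]⟩,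
 ⟨⟨[(nat_lit 100), (nat_lit 120), (nat_lit 140)], [(nat_lit 0), (nat_lit 254), (nat_lit 778)], [((nat_lit 0), (nat_lit 0), (nat_lit 0)), ((nat_lit 1000), (nat_lit 1000), (nat_lit 198)), ((nat_lit 960), (nat_lit 1000), (nat_lit 392))], ((nat_lit 100), (nat_lit 94), (nat_lit 44))⟩, (nat_lit 8761549), (nat_lit 454), (nat_lit 454), (nat_lit 0), (nat_lit 750605), [(nat_lit 4743750000), (nat_lit 6047712000), (nat_lit 7470078000)], [], [(nat_lit 22124662110), (nat_lit 22365811622), (nat_lit 25615229412), (nat_lit 25713225028), (nat_lit 26128374386), (nat_lit 26125791978), (nat_lit 28774341858), (nat_lit 28786296854)], (nat_lit 1271251), (nat_lit 1271251), (nat_lit 1271251), (nat_lit 1271251), (nat_lit 780000), (nat_lit 3072501), [(nat_lit 1412501), (nat_lit 1271251), (nat_lit 1271251)], [(nat_lit 22), (nat_lit 58), (nat_lit 401), (nat_lit 175), (nat_lit 11)]⟩,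
 ⟨⟨[(nat_lit 140), (nat_lit 160), (nat_lit 180)], [(nat_lit 0), (nat_lit 0), (nat_lit 799)], [((nat_lit 0), (nat_lit 0), (nat_lit 0)), ((nat_lit 0), (nat_lit 0), (nat_lit 0)), ((nat_lit 728), (nat_lit 1000), (nat_lit 454))], ((nat_lit 100), (nat_lit 71), (nat_lit 48))⟩, (nat_lit 353640), (nat_lit 300), (nat_lit 1232), (nat_lit 15211000), (nat_lit 2011812), [(nat_lit 2017610000), (nat_lit 2433760000), (nat_lit 2881890000)], [], [(nat_lit 12390680121), (nat_lit 11962172992), (nat_lit 11770600402), (nat_lit 11326617439), (nat_lit 11054381472), (nat_lit 10991498924), (nat_lit 10335193519), (nat_lit 9872122964)], (nat_lit 780000), (nat_lit 1271251), (nat_lit 1271251), (nat_lit 1271251), (nat_lit 780000), (nat_lit 3072501), [(nat_lit 1977501), (nat_lit 1271251), (nat_lit 1271251)], [(nat_lit 31), (nat_lit 65), (nat_lit 483), (nat_lit 250), (nat_lit 11)]⟩⟩))) (.leaf ⟨(nat_lit 0), (nat_lit 665), (nat_lit 0), (nat_lit 335), (nat_lit 0), (nat_lit 5145), (nat_lit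 10269), (nat_lit 3774), (nat_lit 0), (nat_lit 0), (nat_lit 0), [], Pd.none, Pd.none, (nat_lit 0), (nat_lit 1), (nat_lit 0), (nat_lit 0), (nat_lit 5), (nat_lit 0), [], [⟨(nat_lit 1), (nat_lit 85), (nat_lit 78), (nat_lit 100), (nat_lit 141570223)⟩], [], [],
 ⟨⟨[(nat_lit 40), (nat_lit 80), (nat_lit 100)], [(nat_lit 0), (nat_lit 0), (nat_lit 1280)], [((nat_lit 0), (nat_lit 0), (nat_lit 0)), ((nat_lit 0), (nat_lit 0), (nat_lit 0)), ((nat_lit 1000), (nat_lit 800), (nat_lit 600))], ((nat_lit 80), (nat_lit 100), (nat_lit 57))⟩, (nat_lit 1409002), (nat_lit 122), (nat_lit 122), (nat_lit 0), (nat_lit 128106), [(nat_lit 2281185329), (nat_lit 4688000002), (nat_lit 6250000000)], [], [(nat_lit 25190409745), (nat_lit 26418195775), (nat_lit 30881450419), (nat_lit 31797503830), (nat_lit 30476751109), (nat_lit 31357803655), (nat_lit 34698213636), (nat_lit 35401878850)], (nat_lit 1271251), (nat_lit 1271251), (nat_lit 1271251), (nat_lit 1271251), (nat_lit 1271251), (nat_lit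 1271251), [(nat_lit 490000), (nat_lit 1100000), (nat_lit 1442501)], [(nat_lit 3), (nat_lit 50), (nat_lit 203), (nat_lit 0), (nat_lit 6)]⟩,
 ⟨⟨[(nat_lit 120), (nat_lit 160), (nat_lit 180)], [(nat_lit 0), (nat_lit 533), (nat_lit 2066)], [((nat_lit 0), (nat_lit 0), (nat_lit 0)), ((nat_lit 960), (nat_lit 1000), (nat_lit 200)), ((nat_lit 615), (nat_lit 1000), (nat_lit 729))], ((nat_lit 100), (nat_lit 76), (nat_lit 58))⟩, (nat_lit 3120664), (nat_lit 374), (nat_lit 374), (nat_lit 0), (nat_lit 305216), [(nat_lit 7968000000), (nat_lit 11872000000), (nat_lit 14058000000)], [], [(nat_lit 34446027193), (nat_lit 34668448240), (nat_lit 39850093996), (nat_lit 39398304798), (nat_lit 38487798926), (nat_lit 37597704374), (nat_lit 42669337102), (nat_lit 42202468969)], (nat_lit 1271251), (nat_lit 1271251), (nat_lit 1271251), (nat_lit 1271251), (nat_lit 780000), (nat_lit 3072501), [(nat_lit 1695001), (nat_lit 1271251), (nat_lit 1271251)], [(nat_lit 28), (nat_lit 65), (nat_lit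 538), (nat_lit 300), (nat_lit 12)]⟩,
 ⟨⟨[(nat_lit 140), (nat_lit 180), (nat_lit 200)], [(nat_lit 0), (nat_lit 0), (nat_lit 2835)], [((nat_lit 0), (nat_lit 0), (nat_lit 0)), ((nat_lit 0), (nat_lit 0), (nat_lit 0)), ((nat_lit 363), (nat_lit 1000), (nat_lit 798))], ((nat_lit 0), (nat_lit 0), (nat_lit 0))⟩, (nat_lit 92169), (nat_lit 300), (nat_lit 873), (nat_lit 26163505), (nat_lit 1081983), [(nat_lit 3297070000), (nat_lit 4709430000), (nat_lit 5494000000)], [], [(nat_lit 21646846553), (nat_lit 20829902649), (nat_lit 20718298829), (nat_lit 19858357286), (nat_lit 19446762340), (nat_lit 18569350344), (nat_lit 18359679671), (nat_lit 17462109585)], (nat_lit 780000), (nat_lit 1271251), (nat_lit 1271251), (nat_lit 1271251), (nat_lit 780000), (nat_lit 3072501), [(nat_lit 1977501), (nat_lit 1271251), (nat_lit 1271251)], [(nat_lit 32), (nat_lit 67), (nat_lit 483), (nat_lit 250), (nat_lit 10)]⟩⟩))))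
def l014 : List St := [⟨⟨(nat_lit 320), (nat_lit 340), (nat_lit 120), (nat_lit 240), (nat_lit 120), (nat_lit 180), (nat_lit 0), (nat_lit 120), (nat_lit 0), (nat_lit 120), (nat_lit 0), (nat_lit 400), (nat_lit 0), (nat_lit 36)⟩, (nat_lit 3), (nat_lit 3), (nat_lit 3), true, true, false⟩,
  ⟨⟨(nat_lit 320), (nat_lit 340), (nat_lit 120), (nat_lit 240), (nat_lit 180), (nat_lit 240), (nat_lit 0), (nat_lit 120), (nat_lit 0), (nat_lit 120), (nat_lit 0), (nat_lit 400), (nat_lit 0), (nat_lit 36)⟩, (nat_lit 3), (nat_lit 3), (nat_lit 3), true, true, false⟩,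
  ⟨⟨(nat_lit 320), (nat_lit 340), (nat_lit 120), (nat_lit 240), (nat_lit 120), (nat_lit 240), (nat_lit 0), (nat_lit 120), (nat_lit 120), (nat_lit 200), (nat_lit 0), (nat_lit 400), (nat_lit 0), (nat_lit 36)⟩, (nat_lit 3), (nat_lit 3), (nat_lit 3), true, false, false⟩,
  ⟨⟨(nat_lit 320), (nat_lit 340), (nat_lit 120), (nat_lit 240), (nat_lit 120), (nat_lit 240), (nat_lit 120), (nat_lit 200), (nat_lit 0), (nat_lit 120), (nat_lit 0), (nat_lit 400), (nat_lit 0), (nat_lit 36)⟩, (nat_lit 3), (nat_lit 3), (nat_lit 3), false, true, false⟩,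
  ⟨⟨(nat_lit 320), (nat_lit 340), (nat_lit 120), (nat_lit 240), (nat_lit 120), (nat_lit 240), (nat_lit 120), (nat_lit 200), (nat_lit 120), (nat_lit 200), (nat_lit 0), (nat_lit 400), (nat_lit 0), (nat_lit 36)⟩, (nat_lit 3), (nat_lit 3), (nat_lit 3), false, false, false⟩,
  ⟨⟨(nat_lit 320), (nat_lit 340), (nat_lit 120), (nat_lit 240), (nat_lit 120), (nat_lit 180), (nat_lit 0), (nat_lit 80), (nat_lit 200), (nat_lit 280), (nat_lit 0), (nat_lit 360), (nat_lit 0), (nat_lit 36)⟩, (nat_lit 3), (nat_lit 3), (nat_lit 3), true, false, false⟩,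
  ⟨⟨(nat_lit 320), (nat_lit 340), (nat_lit 120), (nat_lit 180), (nat_lit 120), (nat_lit 180), (nat_lit 0), (nat_lit 80), (nat_lit 280), (nat_lit 350), (nat_lit 0), (nat_lit 300), (nat_lit 0), (nat_lit 20)⟩, (nat_lit 3), (nat_lit 3), (nat_lit 3), true, false, false⟩,
  ⟨⟨(nat_lit 320), (nat_lit 340), (nat_lit 180), (nat_lit 240), (nat_lit 120), (nat_lit 160), (nat_lit 20), (nat_lit 80), (nat_lit 280), (nat_lit 350), (nat_lit 0), (nat_lit 300), (nat_lit 0), (nat_lit 12)⟩, (nat_lit 3), (nat_lit 3), (nat_lit 3), true, false, false⟩,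
  ⟨⟨(nat_lit 320), (nat_lit 340), (nat_lit 180), (nat_lit 240), (nat_lit 160), (nat_lit 180), (nat_lit 20), (nat_lit 80), (nat_lit 280), (nat_lit 350), (nat_lit 0), (nat_lit 300), (nat_lit 0), (nat_lit 12)⟩, (nat_lit 3), (nat_lit 3), (nat_lit 3), true, false, false⟩,
  ⟨⟨(nat_lit 320), (nat_lit 330), (nat_lit 180), (nat_lit 240), (nat_lit 120), (nat_lit 180), (nat_lit 20), (nat_lit 80), (nat_lit 280), (nat_lit 350), (nat_lit 0), (nat_lit 300), (nat_lit 12), (nat_lit 20)⟩, (nat_lit 3), (nat_lit 3), (nat_lit 3), true, false, false⟩,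
  ⟨⟨(nat_lit 330), (nat_lit 340), (nat_lit 180), (nat_lit 240), (nat_lit 120), (nat_lit 180), (nat_lit 20), (nat_lit 80), (nat_lit 280), (nat_lit 350), (nat_lit 0), (nat_lit 300), (nat_lit 12), (nat_lit 20)⟩, (nat_lit 3), (nat_lit 3), (nat_lit 3), true, false, false⟩,
  ⟨⟨(nat_lit 320), (nat_lit 340), (nat_lit 120), (nat_lit 240), (nat_lit 120), (nat_lit 180), (nat_lit 0), (nat_lit 80), (nat_lit 280), (nat_lit 350), (nat_lit 0), (nat_lit 300), (nat_lit 20), (nat_lit 36)⟩, (nat_lit 3), (nat_lit 3), (nat_lit 3), true, false, false⟩,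
  ⟨⟨(nat_lit 320), (nat_lit 340), (nat_lit 120), (nat_lit 240), (nat_lit 120), (nat_lit 180), (nat_lit 80), (nat_lit 120), (nat_lit 200), (nat_lit 280), (nat_lit 0), (nat_lit 390), (nat_lit 0), (nat_lit 36)⟩, (nat_lit 3), (nat_lit 3), (nat_lit 3), true, false, false⟩,
  ⟨⟨(nat_lit 320), (nat_lit 340), (nat_lit 120), (nat_lit 240), (nat_lit 120), (nat_lit 180), (nat_lit 80), (nat_lit 120), (nat_lit 280), (nat_lit 350), (nat_lit 0), (nat_lit 340), (nat_lit 0), (nat_lit 20)⟩, (nat_lit 3), (nat_lit 3), (nat_lit 3), true, false, false⟩,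
  ⟨⟨(nat_lit 320), (nat_lit 340), (nat_lit 120), (nat_lit 240), (nat_lit 120), (nat_lit 180), (nat_lit 80), (nat_lit 120), (nat_lit 280), (nat_lit 350), (nat_lit 0), (nat_lit 340), (nat_lit 20), (nat_lit 36)⟩, (nat_lit 3), (nat_lit 3), (nat_lit 3), true, false, false⟩,
  ⟨⟨(nat_lit 320), (nat_lit 340), (nat_lit 120), (nat_lit 180), (nat_lit 120), (nat_lit 180), (nat_lit 120), (nat_lit 200), (nat_lit 200), (nat_lit 350), (nat_lit 0), (nat_lit 400), (nat_lit 0), (nat_lit 36)⟩, (nat_lit 3), (nat_lit 3), (nat_lit 3), false, false, false⟩,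
  ⟨⟨(nat_lit 320), (nat_lit 340), (nat_lit 180), (nat_lit 240), (nat_lit 120), (nat_lit 180), (nat_lit 120), (nat_lit 200), (nat_lit 200), (nat_lit 350), (nat_lit 0), (nat_lit 400), (nat_lit 0), (nat_lit 20)⟩, (nat_lit 3), (nat_lit 3), (nat_lit 3), false, false, false⟩,
  ⟨⟨(nat_lit 320), (nat_lit 340), (nat_lit 180), (nat_lit 240), (nat_lit 120), (nat_lit 180), (nat_lit 120), (nat_lit 200), (nat_lit 200), (nat_lit 350), (nat_lit 0), (nat_lit 400), (nat_lit 20), (nat_lit 36)⟩, (nat_lit 3), (nat_lit 3), (nat_lit 3), false, false, false⟩,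
  ⟨⟨(nat_lit 320), (nat_lit 340), (nat_lit 180), (nat_lit 240), (nat_lit 180), (nat_lit 220), (nat_lit 20), (nat_lit 120), (nat_lit 200), (nat_lit 280), (nat_lit 0), (nat_lit 390), (nat_lit 0), (nat_lit 28)⟩, (nat_lit 3), (nat_lit 3), (nat_lit 3), true, false, false⟩,
  ⟨⟨(nat_lit 320), (nat_lit 340), (nat_lit 180), (nat_lit 240), (nat_lit 180), (nat_lit 220), (nat_lit 20), (nat_lit 80), (nat_lit 280), (nat_lit 380), (nat_lit 0), (nat_lit 340), (nat_lit 0), (nat_lit 28)⟩, (nat_lit 3), (nat_lit 3), (nat_lit 3), true, false, false⟩,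
  ⟨⟨(nat_lit 320), (nat_lit 340), (nat_lit 180), (nat_lit 240), (nat_lit 180), (nat_lit 220), (nat_lit 80), (nat_lit 120), (nat_lit 280), (nat_lit 380), (nat_lit 0), (nat_lit 340), (nat_lit 0), (nat_lit 28)⟩, (nat_lit 3), (nat_lit 3), (nat_lit 3), true, false, false⟩,
  ⟨⟨(nat_lit 320), (nat_lit 340), (nat_lit 180), (nat_lit 240), (nat_lit 220), (nat_lit 240), (nat_lit 20), (nat_lit 120), (nat_lit 200), (nat_lit 390), (nat_lit 0), (nat_lit 390), (nat_lit 0), (nat_lit 36)⟩, (nat_lit 3), (nat_lit 3), (nat_lit 3), true, false, false⟩,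
  ⟨⟨(nat_lit 320), (nat_lit 340), (nat_lit 180), (nat_lit 240), (nat_lit 180), (nat_lit 240), (nat_lit 120), (nat_lit 200), (nat_lit 200), (nat_lit 390), (nat_lit 0), (nat_lit 400), (nat_lit 0), (nat_lit 36)⟩, (nat_lit 3), (nat_lit 3), (nat_lit 3), false, false, false⟩,
  ⟨⟨(nat_lit 320), (nat_lit 340), (nat_lit 120), (nat_lit 180), (nat_lit 120), (nat_lit 180), (nat_lit 200), (nat_lit 350), (nat_lit 0), (nat_lit 120), (nat_lit 0), (nat_lit 400), (nat_lit 0), (nat_lit 28)⟩, (nat_lit 3), (nat_lit 3), (nat_lit 3), false, true, false⟩,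
  ⟨⟨(nat_lit 320), (nat_lit 340), (nat_lit 120), (nat_lit 180), (nat_lit 120), (nat_lit 180), (nat_lit 200), (nat_lit 350), (nat_lit 120), (nat_lit 200), (nat_lit 0), (nat_lit 400), (nat_lit 0), (nat_lit 28)⟩, (nat_lit 3), (nat_lit 3), (nat_lit 3), false, false, false⟩,
  ⟨⟨(nat_lit 320), (nat_lit 340), (nat_lit 180), (nat_lit 240), (nat_lit 120), (nat_lit 240), (nat_lit 200), (nat_lit 280), (nat_lit 0), (nat_lit 120), (nat_lit 0), (nat_lit 400), (nat_lit 0), (nat_lit 36)⟩, (nat_lit 3), (nat_lit 3), (nat_lit 3), false, true, false⟩,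
  ⟨⟨(nat_lit 320), (nat_lit 340), (nat_lit 180), (nat_lit 240), (nat_lit 120), (nat_lit 240), (nat_lit 200), (nat_lit 280), (nat_lit 120), (nat_lit 200), (nat_lit 0), (nat_lit 400), (nat_lit 0), (nat_lit 36)⟩, (nat_lit 3), (nat_lit 3), (nat_lit 3), false, false, false⟩,
  ⟨⟨(nat_lit 320), (nat_lit 340), (nat_lit 180), (nat_lit 220), (nat_lit 120), (nat_lit 220), (nat_lit 280), (nat_lit 380), (nat_lit 0), (nat_lit 120), (nat_lit 0), (nat_lit 390), (nat_lit 0), (nat_lit 28)⟩, (nat_lit 3), (nat_lit 3), (nat_lit 3), false, true, false⟩,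
  ⟨⟨(nat_lit 320), (nat_lit 340), (nat_lit 180), (nat_lit 220), (nat_lit 120), (nat_lit 220), (nat_lit 280), (nat_lit 380), (nat_lit 120), (nat_lit 200), (nat_lit 0), (nat_lit 390), (nat_lit 0), (nat_lit 28)⟩, (nat_lit 3), (nat_lit 3), (nat_lit 3), false, false, false⟩,
  ⟨⟨(nat_lit 320), (nat_lit 340), (nat_lit 220), (nat_lit 240), (nat_lit 120), (nat_lit 240), (nat_lit 280), (nat_lit 390), (nat_lit 0), (nat_lit 200), (nat_lit 0), (nat_lit 390), (nat_lit 0), (nat_lit 36)⟩, (nat_lit 3), (nat_lit 3), (nat_lit 3), false, false, false⟩,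
  ⟨⟨(nat_lit 320), (nat_lit 340), (nat_lit 120), (nat_lit 180), (nat_lit 120), (nat_lit 180), (nat_lit 200), (nat_lit 390), (nat_lit 200), (nat_lit 350), (nat_lit 0), (nat_lit 400), (nat_lit 0), (nat_lit 36)⟩, (nat_lit 3), (nat_lit 3), (nat_lit 3), false, false, false⟩,
  ⟨⟨(nat_lit 320), (nat_lit 340), (nat_lit 180), (nat_lit 240), (nat_lit 120), (nat_lit 180), (nat_lit 200), (nat_lit 280), (nat_lit 200), (nat_lit 350), (nat_lit 0), (nat_lit 400), (nat_lit 0), (nat_lit 36)⟩, (nat_lit 3), (nat_lit 3), (nat_lit 3), false, false, false⟩,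
  ⟨⟨(nat_lit 320), (nat_lit 340), (nat_lit 180), (nat_lit 240), (nat_lit 120), (nat_lit 180), (nat_lit 280), (nat_lit 390), (nat_lit 200), (nat_lit 350), (nat_lit 0), (nat_lit 400), (nat_lit 0), (nat_lit 36)⟩, (nat_lit 3), (nat_lit 3), (nat_lit 3), false, false, false⟩]
theorem t014 (h : EC env Ei) : ∀ τ ∈ l014, Dead τ :=
  List.forall_mem_cons.mpr ⟨chkT_sound0 h (T := c10_0) (by decide +kernel),
  List.forall_mem_cons.mpr ⟨chkT_sound0 h (T := c10_1) (by decide +kernel),
  List.forall_mem_cons.mpr ⟨chkT_sound0 h (T := c10_2) (by decide +kernel),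
  List.forall_mem_cons.mpr ⟨chkT_sound0 h (T := c10_3) (by decide +kernel),
  List.forall_mem_cons.mpr ⟨chkT_sound0 h (T := c10_4) (by decide +kernel),
  List.forall_mem_cons.mpr ⟨chkT_sound0 h (T := c10_5) (by decide +kernel),
  List.forall_mem_cons.mpr ⟨chkT_sound0 h (T := c10_6) (by decide +kernel),
  List.forall_mem_cons.mpr ⟨chkT_sound0 h (T := c10_7) (by decide +kernel),
  List.forall_mem_cons.mpr ⟨chkT_sound0 h (T := c10_8) (by decide +kernel),
  List.forall_mem_cons.mpr ⟨chkT_sound0 h (T := c10_9) (by decide +kernel),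
  List.forall_mem_cons.mpr ⟨chkT_sound0 h (T := c10_10) (by decide +kernel),
  List.forall_mem_cons.mpr ⟨chkT_sound0 h (T := c10_11) (by decide +kernel),
  List.forall_mem_cons.mpr ⟨chkT_sound0 h (T := c10_12) (by decide +kernel),
  List.forall_mem_cons.mpr ⟨chkT_sound0 h (T := c10_13) (by decide +kernel),
  List.forall_mem_cons.mpr ⟨chkT_sound0 h (T := c10_14) (by decide +kernel),
  List.forall_mem_cons.mpr ⟨chkT_sound0 h (T := c10_15) (by decide +kernel),
  List.forall_mem_cons.mpr ⟨chkT_sound0 h (T := c10_16) (by decide +kernel),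
  List.forall_mem_cons.mpr ⟨chkT_sound0 h (T := c10_17) (by decide +kernel),
  List.forall_mem_cons.mpr ⟨chkT_sound0 h (T := c10_18) (by decide +kernel),
  List.forall_mem_cons.mpr ⟨chkT_sound0 h (T := c10_19) (by decide +kernel),
  List.forall_mem_cons.mpr ⟨chkT_sound0 h (T := c10_20) (by decide +kernel),
  List.forall_mem_cons.mpr ⟨chkT_sound0 h (T := c10_21) (by decide +kernel),
  List.forall_mem_cons.mpr ⟨chkT_sound0 h (T := c10_22) (by decide +kernel),
  List.forall_mem_cons.mpr ⟨chkT_sound0 h (T := c10_23) (by decide +kernel),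
  List.forall_mem_cons.mpr ⟨chkT_sound0 h (T := c10_24) (by decide +kernel),
  List.forall_mem_cons.mpr ⟨chkT_sound0 h (T := c10_25) (by decide +kernel),
  List.forall_mem_cons.mpr ⟨chkT_sound0 h (T := c10_26) (by decide +kernel),
  List.forall_mem_cons.mpr ⟨chkT_sound0 h (T := c10_27) (by decide +kernel),
  List.forall_mem_cons.mpr ⟨chkT_sound0 h (T := c10_28) (by decide +kernel),
  List.forall_mem_cons.mpr ⟨chkT_sound0 h (T := c10_29) (by decide +kernel),
  List.forall_mem_cons.mpr ⟨chkT_sound0 h (T := c10_30) (by decide +kernel),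
  List.forall_mem_cons.mpr ⟨chkT_sound0 h (T := c10_31) (by decide +kernel),
  List.forall_mem_cons.mpr ⟨chkT_sound0 h (T := c10_32) (by decide +kernel),
  List.forall_mem_nil _⟩⟩⟩⟩⟩⟩⟩⟩⟩⟩⟩⟩⟩⟩⟩⟩⟩⟩⟩⟩⟩⟩⟩⟩⟩⟩⟩⟩⟩⟩⟩⟩⟩
end TC
end Pool.Agent.Lib.MP_6947cd_al
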