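import Pool.Agent.Lib.MP_6947cd_al.C.LeafF
import Pool.Agent.Lib.MP_6947cd_al.TC.E
import Pool.Agent.Lib.MP_6947cd_al.TC.F

/-!
Problem MP_6947cd_al (Chollet).  CASE C, tables and certificates.  Trees of leaves (part 15 of root 10).
-/

set_option autoImplicit false
set_option linter.all false
set_option maxRecDepth 100000
set_option maxHeartbeats 4000000
namespace Pool.Agent.Lib.MP_6947cd_al
namespace TC
open C1
noncomputable def c10_33 : Tr Lf :=
 (.ord (.spl (nat_lit 1) (nat_lit 220) (.ord (.trX (nat_lit 3) (nat_lit 0) (nat_lit 1) (nat_lit 80) (nat_lit 52) (nat_lit 100) (nat_lit 380) (.trX (nat_lit 4) (nat_lit 0) (nat_lit 2) (nat_lit 80) (nat_lit 52) (nat_lit 100) (nat_lit 380) (.spl (nat_lit 6) (nat_lit 24) (.spl (nat_lit 0) (nat_lit 330) (.spl (nat_lit 6) (nat_lit 16) (.leaf ⟨(nat_lit 0), (nat_lit 0), (nat_lit 0), (nat_lit 1000), (nat_lit 0), (nat_lit 5636), (nat_lit 11081), (nat_lit 11500), (nat_lit 0), (nat_lit 11877554730406), (nat_lit 0), [], Pd.none,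 Pd.none, (nat_lit 0), (nat_lit 1), (nat_lit 0), (nat_lit 0), (nat_lit 0), (nat_lit 0), [], [], [], [],
 ⟨⟨[(nat_lit 40), (nat_lit 60), (nat_lit 80)], [(nat_lit 0), (nat_lit 0), (nat_lit 615)], [((nat_lit 0), (nat_lit 0), (nat_lit 0)), ((nat_lit 0), (nat_lit 0), (nat_lit 0)), ((nat_lit 1000), (nat_lit 819), (nat_lit 426))], ((nat_lit 82), (nat_lit 100), (nat_lit 40))⟩, (nat_lit 4418852), (nat_lit 127), (nat_lit 127), (nat_lit 0), (nat_lit 206756), [(nat_lit 2248700831), (nat_lit 3282000214), (nat_lit 4688000000)], [], [(nat_lit 19661359068), (nat_lit 20433888500), (nat_lit 30011850242), (nat_lit 30619570394), (nat_lit 30011850242), (nat_lit 30619570394), (nat_lit 36096264709), (nat_lit 36486379643)], (nat_lit 1271251), (nat_lit 1271251), (nat_lit 1271251), (nat_lit 1271251), (nat_lit 1271251), (nat_lit 1271251), [(nat_lit 490000), (nat_lit 780000), (nat_lit 1100000)], [(nat_lit 2), (nat_lit 44), (nat_lit 203), (nat_lit 0), (nat_lit 7)]⟩,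
 ⟨⟨[(nat_lit 120), (nat_lit 140), (nat_lit 160)], [(nat_lit 0), (nat_lit 266), (nat_lit 862)], [((nat_lit 0), (nat_lit 0), (nat_lit 0)), ((nat_lit 960), (nat_lit 1000), (nat_lit 200)), ((nat_lit 874), (nat_lit 1000), (nat_lit 406))], ((nat_lit 100), (nat_lit 88), (nat_lit 39))⟩, (nat_lit 12116870), (nat_lit 552), (nat_lit 552), (nat_lit 0), (nat_lit 583875), [(nat_lit 7968000000), (nat_lit 9842000000), (nat_lit 11872000000)], [], [(nat_lit 34579388766), (nat_lit 28659797497), (nat_lit 41063880848), (nat_lit 42286774592), (nat_lit 66466987664), (nat_lit 56745271772), (nat_lit 43088018630), (nat_lit 42754640614)], (nat_lit 1271251), (nat_lit 1271251), (nat_lit 1271251), (nat_lit 1271251), (nat_lit 0), (nat_lit 2825001), [(nat_lit 1695001), (nat_lit 1271251), (nat_lit 1271251)], [(nat_lit 27), (nat_lit 62), (nat_lit 483), (nat_lit 250), (nat_lit 12)]⟩,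
 ⟨⟨[(nat_lit 120), (nat_lit 140), (nat_lit 160)], [(nat_lit 0), (nat_lit 266), (nat_lit 862)], [((nat_lit 0), (nat_lit 0), (nat_lit 0)), ((nat_lit 960), (nat_lit 1000), (nat_lit 200)), ((nat_lit 874), (nat_lit 1000), (nat_lit 406))], ((nat_lit 100), (nat_lit 88), (nat_lit 39))⟩, (nat_lit 2564969), (nat_lit 300), (nat_lit 552), (nat_lit 66400000), (nat_lit 583875), [(nat_lit 7968000000), (nat_lit 9842000000), (nat_lit 11872000000)], [], [(nat_lit 43998186750), (nat_lit 43775932250), (nat_lit 48067728750), (nat_lit 47689283250), (nat_lit 67125716000), (nat_lit 57036398000), (nat_lit 43729884625), (nat_lit 43351339875)], (nat_lit 1271251), (nat_lit 1271251), (nat_lit 1271251), (nat_lit 1271251), (nat_lit 0), (nat_lit 2825001), [(nat_lit 1695001), (nat_lit 1271251), (nat_lit 1271251)], [(nat_lit 27), (nat_lit 62), (nat_lit 483), (nat_lit 250), (nat_lit 12)]⟩⟩) (.dle (nat_lit 0))) (.trX (nat_lit 3) (nat_lit 0) (nat_lit 1) (nat_lit 76) (nat_lit 57) (nat_lit 100) (nat_lit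 370) (.trX (nat_lit 4) (nat_lit 0) (nat_lit 2) (nat_lit 76) (nat_lit 57) (nat_lit 100) (nat_lit 370) (.leaf ⟨(nat_lit 712), (nat_lit 24), (nat_lit 0), (nat_lit 264), (nat_lit 0), (nat_lit 3280), (nat_lit 2823), (nat_lit 2830), (nat_lit 0), (nat_lit 20575), (nat_lit 250600), [((nat_lit 340), [((nat_lit 18), (nat_lit 0), (nat_lit 228)), ((nat_lit 18), (nat_lit 1), (nat_lit 484))])], ⟨(nat_lit 5), false, true, true, (nat_lit 256), (nat_lit 3872), (nat_lit 4184), [(nat_lit 1478332), (nat_lit 1478205), (nat_lit 1521662), (nat_lit 1521788), (nat_lit 1759918), (nat_lit 1752422), (nat_lit 1803252), (nat_lit 1796008)]⟩, ⟨(nat_lit 5), false, true, true, (nat_lit 256), (nat_lit 3872), (nat_lit 4184), [(nat_lit 1478332), (nat_lit 1478205), (nat_lit 1521662), (nat_lit 1521788), (nat_lit 1759918), (nat_lit 1752422), (nat_lit 1803252), (nat_lit 1796008)]⟩, (nat_lit 5533152), (nat_lit 35114228), (nat_lit 15942886), (nat_lit 15942886), (nat_lit 5), (nat_lit 0), [], [], [], [⟨(nat_lit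 0), (nat_lit 100), (nat_lit 100), (nat_lit 85), (nat_lit 9558643)⟩],
 ⟨⟨[(nat_lit 40), (nat_lit 60), (nat_lit 80)], [(nat_lit 0), (nat_lit 197), (nat_lit 800)], [((nat_lit 0), (nat_lit 0), (nat_lit 0)), ((nat_lit 1000), (nat_lit 908), (nat_lit 154)), ((nat_lit 1000), (nat_lit 781), (nat_lit 471))], ((nat_lit 78), (nat_lit 100), (nat_lit 49))⟩, (nat_lit 4609687), (nat_lit 140), (nat_lit 140), (nat_lit 0), (nat_lit 271717), [(nat_lit 1528964275), (nat_lit 2161237332), (nat_lit 2766093868)], [(nat_lit 0), (nat_lit 0), (nat_lit 0)], [(nat_lit 20935162221), (nat_lit 21486735103), (nat_lit 27555780802), (nat_lit 27983273255), (nat_lit 27555780802), (nat_lit 27983273255), (nat_lit 32597463494), (nat_lit 32948360132)], (nat_lit 1271251), (nat_lit 1271251), (nat_lit 1271251), (nat_lit 1271251), (nat_lit 1271251), (nat_lit 1271251), [(nat_lit 490000), (nat_lit 780000), (nat_lit 1100000)], [(nat_lit 2), (nat_lit 44), (nat_lit 203), (nat_lit 0), (nat_lit 7)]⟩,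
 ⟨⟨[(nat_lit 120), (nat_lit 140), (nat_lit 160)], [(nat_lit 0), (nat_lit 266), (nat_lit 862)], [((nat_lit 0), (nat_lit 0), (nat_lit 0)), ((nat_lit 960), (nat_lit 1000), (nat_lit 200)), ((nat_lit 874), (nat_lit 1000), (nat_lit 406))], ((nat_lit 100), (nat_lit 83), (nat_lit 48))⟩, (nat_lit 3288514), (nat_lit 706), (nat_lit 706), (nat_lit 0), (nat_lit 895290), [(nat_lit 2294784000), (nat_lit 2834496000), (nat_lit 3419136000)], [], [(nat_lit 10064122715), (nat_lit 10023986421), (nat_lit 10944609026), (nat_lit 10849220218), (nat_lit 18563427792), (nat_lit 16086719556), (nat_lit 11614359971), (nat_lit 11576146815)], (nat_lit 1271251), (nat_lit 1271251), (nat_lit 1271251), (nat_lit 1271251), (nat_lit 0), (nat_lit 2825001), [(nat_lit 1695001), (nat_lit 1271251), (nat_lit 1271251)], [(nat_lit 27), (nat_lit 62), (nat_lit 483), (nat_lit 250), (nat_lit 12)]⟩,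
 ⟨⟨[(nat_lit 120), (nat_lit 140), (nat_lit 160)], [(nat_lit 0), (nat_lit 266), (nat_lit 862)], [((nat_lit 0), (nat_lit 0), (nat_lit 0)), ((nat_lit 960), (nat_lit 1000), (nat_lit 200)), ((nat_lit 874), (nat_lit 1000), (nat_lit 406))], ((nat_lit 100), (nat_lit 83), (nat_lit 48))⟩, (nat_lit 541895), (nat_lit 300), (nat_lit 706), (nat_lit 17529600), (nat_lit 895290), [(nat_lit 2103552000), (nat_lit 2598288000), (nat_lit 3134208000)], [], [(nat_lit 12556881004), (nat_lit 12404542076), (nat_lit 12804614501), (nat_lit 12635358218), (nat_lit 17397327360), (nat_lit 14914477800), (nat_lit 11005140528), (nat_lit 10945330172)], (nat_lit 1271251), (nat_lit 1271251), (nat_lit 1271251), (nat_lit 1271251), (nat_lit 0), (nat_lit 2825001), [(nat_lit 1695001), (nat_lit 1271251), (nat_lit 1271251)], [(nat_lit 27), (nat_lit 62), (nat_lit 483), (nat_lit 250), (nat_lit 12)]⟩⟩)))) (.dle (nat_lit 0)))))) (.spl (nat_lit 0) (nat_lit 330) (.spl (nat_lit 6) (nat_lit 24) (.leaf ⟨(nat_lit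 0), (nat_lit 390), (nat_lit 0), (nat_lit 610), (nat_lit 0), (nat_lit 6828), (nat_lit 8258), (nat_lit 6111), (nat_lit 0), (nat_lit 74418), (nat_lit 0), [], Pd.none, Pd.none, (nat_lit 0), (nat_lit 1), (nat_lit 0), (nat_lit 0), (nat_lit 5), (nat_lit 0), [], [], [], [],
 ⟨⟨[(nat_lit 40), (nat_lit 80), (nat_lit 100)], [(nat_lit 0), (nat_lit 0), (nat_lit 1280)], [((nat_lit 0), (nat_lit 0), (nat_lit 0)), ((nat_lit 0), (nat_lit 0), (nat_lit 0)), ((nat_lit 1000), (nat_lit 800), (nat_lit 600))], ((nat_lit 81), (nat_lit 100), (nat_lit 48))⟩, (nat_lit 1786394), (nat_lit 171), (nat_lit 171), (nat_lit 0), (nat_lit 304406), [(nat_lit 2412958007), (nat_lit 4688000026), (nat_lit 6250000000)], [], [(nat_lit 21111589650), (nat_lit 21826505682), (nat_lit 32069364363), (nat_lit 32718244129), (nat_lit 32069364363), (nat_lit 32718244129), (nat_lit 38648290944), (nat_lit 39037630127)], (nat_lit 1271251), (nat_lit 1271251), (nat_lit 1271251), (nat_lit 1271251), (nat_lit 1271251), (nat_lit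 1271251), [(nat_lit 490000), (nat_lit 1100000), (nat_lit 1442501)], [(nat_lit 3), (nat_lit 50), (nat_lit 203), (nat_lit 0), (nat_lit 6)]⟩,
 ⟨⟨[(nat_lit 100), (nat_lit 120), (nat_lit 140)], [(nat_lit 0), (nat_lit 254), (nat_lit 778)], [((nat_lit 0), (nat_lit 0), (nat_lit 0)), ((nat_lit 1000), (nat_lit 1000), (nat_lit 198)), ((nat_lit 960), (nat_lit 1000), (nat_lit 392))], ((nat_lit 100), (nat_lit 93), (nat_lit 48))⟩, (nat_lit 11061985), (nat_lit 482), (nat_lit 482), (nat_lit 0), (nat_lit 612389), [(nat_lit 6250000000), (nat_lit 7968000000), (nat_lit 9842000000)], [], [(nat_lit 26744646257), (nat_lit 27195047198), (nat_lit 37492730713), (nat_lit 38023251864), (nat_lit 45008196207), (nat_lit 41292248980), (nat_lit 39401853055), (nat_lit 39360148717)], (nat_lit 1271251), (nat_lit 1271251), (nat_lit 1271251), (nat_lit 1271251), (nat_lit 0), (nat_lit 2825001), [(nat_lit 1412501), (nat_lit 1271251), (nat_lit 1271251)], [(nat_lit 22), (nat_lit 58), (nat_lit 538), (nat_lit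 300), (nat_lit 15)]⟩,
 ⟨⟨[(nat_lit 120), (nat_lit 140), (nat_lit 160)], [(nat_lit 0), (nat_lit 266), (nat_lit 862)], [((nat_lit 0), (nat_lit 0), (nat_lit 0)), ((nat_lit 960), (nat_lit 1000), (nat_lit 200)), ((nat_lit 874), (nat_lit 1000), (nat_lit 406))], ((nat_lit 100), (nat_lit 83), (nat_lit 48))⟩, (nat_lit 1252105), (nat_lit 300), (nat_lit 669), (nat_lit 40504001), (nat_lit 807711), [(nat_lit 4860480000), (nat_lit 6003620000), (nat_lit 7241920000)], [], [(nat_lit 30302738029), (nat_lit 29830758822), (nat_lit 30944774851), (nat_lit 30183265556), (nat_lit 39525468584), (nat_lit 31483404806), (nat_lit 25785903739), (nat_lit 25527130732)], (nat_lit 1271251), (nat_lit 1271251), (nat_lit 1271251), (nat_lit 1271251), (nat_lit 0), (nat_lit 2825001), [(nat_lit 1695001), (nat_lit 1271251), (nat_lit 1271251)], [(nat_lit 27), (nat_lit 62), (nat_lit 538), (nat_lit 300), (nat_lit 14)]⟩⟩) (.dle (nat_lit 0))) (.trX (nat_lit 3) (nat_lit 0) (nat_lit 1) (nat_lit 78) (nat_lit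 49) (nat_lit 100) (nat_lit 380) (.trX (nat_lit 4) (nat_lit 0) (nat_lit 2) (nat_lit 78) (nat_lit 49) (nat_lit 100) (nat_lit 380) (.leaf ⟨(nat_lit 49), (nat_lit 392), (nat_lit 0), (nat_lit 559), (nat_lit 0), (nat_lit 5030), (nat_lit 8460), (nat_lit 5954), (nat_lit 0), (nat_lit 18161), (nat_lit 196000), [((nat_lit 340), [((nat_lit 37), (nat_lit 5), (nat_lit 49))])], ⟨(nat_lit 5), false, true, true, (nat_lit 272), (nat_lit 3872), (nat_lit 4184), [(nat_lit 1521662), (nat_lit 1521788), (nat_lit 1543323), (nat_lit 1543576), (nat_lit 1819815), (nat_lit 1812139), (nat_lit 1841482), (nat_lit 1833932)]⟩, ⟨(nat_lit 5), false, true, true, (nat_lit 263), (nat_lit 3872), (nat_lit 4184), [(nat_lit 1478332), (nat_lit 1478205), (nat_lit 1543323), (nat_lit 1543576), (nat_lit 1776482), (nat_lit 1768552), (nat_lit 1841482), (nat_lit 1833932)]⟩, (nat_lit 5620006), (nat_lit 33728189), (nat_lit 17077659), (nat_lit 16194152), (nat_lit 5), (nat_lit 0), [], [], [], [],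
 ⟨⟨[(nat_lit 40), (nat_lit 80), (nat_lit 100)], [(nat_lit 0), (nat_lit 395), (nat_lit 1536)], [((nat_lit 0), (nat_lit 0), (nat_lit 0)), ((nat_lit 1000), (nat_lit 908), (nat_lit 154)), ((nat_lit 1000), (nat_lit 760), (nat_lit 642))], ((nat_lit 76), (nat_lit 100), (nat_lit 58))⟩, (nat_lit 4597076), (nat_lit 188), (nat_lit 188), (nat_lit 0), (nat_lit 360166), [(nat_lit 2015034407), (nat_lit 4217423602), (nat_lit 5340599200)], [(nat_lit 0), (nat_lit 0), (nat_lit 0)], [(nat_lit 20558779078), (nat_lit 21180674070), (nat_lit 29955311599), (nat_lit 30529973163), (nat_lit 29955311599), (nat_lit 30529973163), (nat_lit 35682123505), (nat_lit 36057706501)], (nat_lit 1271251), (nat_lit 1271251), (nat_lit 1271251), (nat_lit 1271251), (nat_lit 1271251), (nat_lit 1271251), [(nat_lit 490000), (nat_lit 1100000), (nat_lit 1442501)], [(nat_lit 3), (nat_lit 50), (nat_lit 203), (nat_lit 0), (nat_lit 6)]⟩,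
 ⟨⟨[(nat_lit 100), (nat_lit 140), (nat_lit 160)], [(nat_lit 0), (nat_lit 508), (nat_lit 1689)], [((nat_lit 0), (nat_lit 0), (nat_lit 0)), ((nat_lit 1000), (nat_lit 1000), (nat_lit 198)), ((nat_lit 811), (nat_lit 1000), (nat_lit 671))], ((nat_lit 100), (nat_lit 88), (nat_lit 58))⟩, (nat_lit 10036162), (nat_lit 655), (nat_lit 655), (nat_lit 0), (nat_lit 805196), [(nat_lit 5943750000), (nat_lit 9359742000), (nat_lit 11290272000)], [], [(nat_lit 25881110729), (nat_lit 26082478964), (nat_lit 35553799369), (nat_lit 36126989325), (nat_lit 42924603150), (nat_lit 39117759660), (nat_lit 37700332523), (nat_lit 37653813510)], (nat_lit 1271251), (nat_lit 1271251), (nat_lit 1271251), (nat_lit 1271251), (nat_lit 0), (nat_lit 2825001), [(nat_lit 1412501), (nat_lit 1271251), (nat_lit 1271251)], [(nat_lit 23), (nat_lit 62), (nat_lit 538), (nat_lit 300), (nat_lit 14)]⟩,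
 ⟨⟨[(nat_lit 120), (nat_lit 160), (nat_lit 180)], [(nat_lit 0), (nat_lit 533), (nat_lit 2066)], [((nat_lit 0), (nat_lit 0), (nat_lit 0)), ((nat_lit 960), (nat_lit 1000), (nat_lit 200)), ((nat_lit 615), (nat_lit 1000), (nat_lit 729))], ((nat_lit 100), (nat_lit 76), (nat_lit 58))⟩, (nat_lit 1308878), (nat_lit 300), (nat_lit 873), (nat_lit 37117601), (nat_lit 1109955), [(nat_lit 4454112000), (nat_lit 6636448000), (nat_lit 7858422000)], [], [(nat_lit 31205448682), (nat_lit 30423409684), (nat_lit 30946941747), (nat_lit 30137809878), (nat_lit 36777292916), (nat_lit 28941840824), (nat_lit 24774264284), (nat_lit 23884164924)], (nat_lit 1271251), (nat_lit 1271251), (nat_lit 1271251), (nat_lit 1271251), (nat_lit 0), (nat_lit 2825001), [(nat_lit 1695001), (nat_lit 1271251), (nat_lit 1271251)], [(nat_lit 28), (nat_lit 65), (nat_lit 538), (nat_lit 300), (nat_lit 12)]⟩⟩))))))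
def l015 : List St := [⟨⟨(nat_lit 320), (nat_lit 340), (nat_lit 120), (nat_lit 240), (nat_lit 180), (nat_lit 240), (nat_lit 200), (nat_lit 390), (nat_lit 200), (nat_lit 390), (nat_lit 0), (nat_lit 400), (nat_lit 0), (nat_lit 36)⟩, (nat_lit 3), (nat_lit 3), (nat_lit 3), false, false, false⟩]
theorem t015 (h : EC env Ei) : ∀ τ ∈ l015, Dead τ :=
  List.forall_mem_cons.mpr ⟨chkT_sound0 h (T := c10_33) (by decide +kernel),
  List.forall_mem_nil _⟩
end TC
end Pool.Agent.Lib.MP_6947cd_al
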