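import Pool.Agent.Lib.MP_6947cd_al.C.LeafF
import Pool.Agent.Lib.MP_6947cd_al.TC.E
import Pool.Agent.Lib.MP_6947cd_al.TC.F

/-!
Problem MP_6947cd_al (Chollet).  CASE C, tables and certificates.  Trees of leaves (part 16 of root 11).
-/

set_option autoImplicit false
set_option linter.all false
set_option maxRecDepth 100000
set_option maxHeartbeats 4000000
namespace Pool.Agent.Lib.MP_6947cd_al
namespace TC
open C1
noncomputable def c11_0 : Tr Lf :=
 (.spl (nat_lit 5) (nat_lit 200) (.spl (nat_lit 5) (nat_lit 120) (.spl (nat_lit 1) (nat_lit 260) (.leaf ⟨(nat_lit 855), (nat_lit 145), (nat_lit 0), (nat_lit 0), (nat_lit 2869), (nat_lit 4085), (nat_lit 2913), (nat_lit 0), (nat_lit 0), (nat_lit 0), (nat_lit 918000), [((nat_lit 340), [((nat_lit 18), (nat_lit 2), (nat_lit 834)), ((nat_lit 37), (nat_lit 5), (nat_lit 21))])], ⟨(nat_lit 6), false, false, false, (nat_lit 149), (nat_lit 3872), (nat_lit 4473), [(nat_lit 1305146), (nat_lit 1317698), (nat_lit 1326695),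 (nat_lit 1339474), (nat_lit 1407125), (nat_lit 1414492), (nat_lit 1428674), (nat_lit 1436268)]⟩, ⟨(nat_lit 3), false, false, false, (nat_lit 77), (nat_lit 3872), (nat_lit 4473), [(nat_lit 1073842), (nat_lit 1090218), (nat_lit 1160070), (nat_lit 1177353), (nat_lit 1209798), (nat_lit 1219261), (nat_lit 1296041), (nat_lit 1306411)]⟩, (nat_lit 2928001), (nat_lit 55594122), (nat_lit 8375525), (nat_lit 3030353), (nat_lit 3), (nat_lit 0), [⟨(nat_lit 0), (nat_lit 100), (nat_lit 78), (nat_lit 85), (nat_lit 91611250)⟩], [⟨(nat_lit 0), (nat_lit 100), (nat_lit 71), (nat_lit 70), (nat_lit 233639134)⟩], [], [],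
 ⟨⟨[(nat_lit 40), (nat_lit 80), (nat_lit 100)], [(nat_lit 0), (nat_lit 0), (nat_lit 1280)], [((nat_lit 0), (nat_lit 0), (nat_lit 0)), ((nat_lit 0), (nat_lit 0), (nat_lit 0)), ((nat_lit 1000), (nat_lit 800), (nat_lit 600))], ((nat_lit 81), (nat_lit 100), (nat_lit 48))⟩, (nat_lit 799), (nat_lit 230), (nat_lit 230), (nat_lit 0), (nat_lit 178668), [(nat_lit 1817886896), (nat_lit 1419782709), (nat_lit 278128000)], [(nat_lit 0), (nat_lit 0), (nat_lit 0)], [(nat_lit 18848465830), (nat_lit 21297341794), (nat_lit 18041045600), (nat_lit 20342401125), (nat_lit 16460867760), (nat_lit 17942279856), (nat_lit 16604928125), (nat_lit 18113947972)], (nat_lit 1271251), (nat_lit 1271251), (nat_lit 356250), (nat_lit 780000), (nat_lit 0), (nat_lit 490000), [(nat_lit 490000), (nat_lit 1100000), (nat_lit 1442501)], [(nat_lit 3), (nat_lit 50), (nat_lit 260), (nat_lit 50), (nat_lit 10)]⟩,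
 ⟨⟨[(nat_lit 80), (nat_lit 120), (nat_lit 140)], [(nat_lit 0), (nat_lit 0), (nat_lit 1164)], [((nat_lit 0), (nat_lit 0), (nat_lit 0)), ((nat_lit 0), (nat_lit 0), (nat_lit 0)), ((nat_lit 941), (nat_lit 1000), (nat_lit 576))], ((nat_lit 100), (nat_lit 98), (nat_lit 48))⟩, (nat_lit 0), (nat_lit 350), (nat_lit 350), (nat_lit 0), (nat_lit 248771), [(nat_lit 679760000), (nat_lit 1155360000), (nat_lit 1427090000)], [], [(nat_lit 5063974686), (nat_lit 5062308896), (nat_lit 4896315950), (nat_lit 4139508470), (nat_lit 5106973999), (nat_lit 3752207247), (nat_lit 6216795776), (nat_lit 4888608329)], (nat_lit 1271251), (nat_lit 1271251), (nat_lit 356250), (nat_lit 780000), (nat_lit 0), (nat_lit 780000), [(nat_lit 1100000), (nat_lit 1785001), (nat_lit 1271251)], [(nat_lit 17), (nat_lit 58), (nat_lit 345), (nat_lit 125), (nat_lit 10)]⟩,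
 Rw.none⟩) (.trZ (nat_lit 0) (nat_lit 1) (nat_lit 3) (nat_lit 100) (nat_lit 84) (nat_lit 85) (nat_lit 80) (.leaf ⟨(nat_lit 0), (nat_lit 1000), (nat_lit 0), (nat_lit 0), (nat_lit 0), (nat_lit 6589), (nat_lit 12543), (nat_lit 0), (nat_lit 0), (nat_lit 0), (nat_lit 0), [], Pd.none, Pd.none, (nat_lit 0), (nat_lit 1), (nat_lit 0), (nat_lit 0), (nat_lit 3), (nat_lit 0), [⟨(nat_lit 0), (nat_lit 100), (nat_lit 81), (nat_lit 93), (nat_lit 419823350)⟩], [⟨(nat_lit 0), (nat_lit 100), (nat_lit 71), (nat_lit 70), (nat_lit 200346395)⟩], [], [],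
 ⟨⟨[(nat_lit 40), (nat_lit 80), (nat_lit 100)], [(nat_lit 0), (nat_lit 0), (nat_lit 1280)], [((nat_lit 0), (nat_lit 0), (nat_lit 0)), ((nat_lit 0), (nat_lit 0), (nat_lit 0)), ((nat_lit 1000), (nat_lit 800), (nat_lit 600))], ((nat_lit 81), (nat_lit 100), (nat_lit 48))⟩, (nat_lit 2213975), (nat_lit 224), (nat_lit 224), (nat_lit 0), (nat_lit 210380), [(nat_lit 2360291255), (nat_lit 4688000002), (nat_lit 6250000000)], [], [(nat_lit 21907086312), (nat_lit 25230538313), (nat_lit 21891525046), (nat_lit 24862934925), (nat_lit 18285112530), (nat_lit 20386931883), (nat_lit 18483784808), (nat_lit 20553456520)], (nat_lit 1271251), (nat_lit 1271251), (nat_lit 490000), (nat_lit 780000), (nat_lit 0), (nat_lit 490000), [(nat_lit 490000), (nat_lit 1100000), (nat_lit 1442501)], [(nat_lit 3), (nat_lit 50), (nat_lit 260), (nat_lit 50), (nat_lit 10)]⟩,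
 ⟨⟨[(nat_lit 80), (nat_lit 100), (nat_lit 120)], [(nat_lit 0), (nat_lit 265), (nat_lit 768)], [((nat_lit 0), (nat_lit 0), (nat_lit 0)), ((nat_lit 1000), (nat_lit 959), (nat_lit 206)), ((nat_lit 1000), (nat_lit 958), (nat_lit 392))], ((nat_lit 97), (nat_lit 100), (nat_lit 48))⟩, (nat_lit 5115547), (nat_lit 268), (nat_lit 268), (nat_lit 0), (nat_lit 267793), [(nat_lit 4688000000), (nat_lit 6250000000), (nat_lit 7968000000)], [], [(nat_lit 18089472552), (nat_lit 22637520216), (nat_lit 17574409906), (nat_lit 21869187564), (nat_lit 15545458195), (nat_lit 10925717910), (nat_lit 19430189764), (nat_lit 13557177738)], (nat_lit 1271251), (nat_lit 1271251), (nat_lit 490000), (nat_lit 780000), (nat_lit 0), (nat_lit 780000), [(nat_lit 1100000), (nat_lit 1442501), (nat_lit 1271251)], [(nat_lit 16), (nat_lit 54), (nat_lit 272), (nat_lit 60), (nat_lit 9)]⟩,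
 Rw.none⟩))) (.spl (nat_lit 0) (nat_lit 330) (.spl (nat_lit 0) (nat_lit 325) (.leaf ⟨(nat_lit 899), (nat_lit 89), (nat_lit 0), (nat_lit 12), (nat_lit 447), (nat_lit 3858), (nat_lit 2558), (nat_lit 151), (nat_lit 0), (nat_lit 0), (nat_lit 935000), [((nat_lit 325), [((nat_lit 18), (nat_lit 2), (nat_lit 887)), ((nat_lit 37), (nat_lit 5), (nat_lit 12))])], ⟨(nat_lit 6), false, false, false, (nat_lit 152), (nat_lit 4330), (nat_lit 4473), [(nat_lit 1305206), (nat_lit 1308312), (nat_lit 1348338), (nat_lit 1351538), (nat_lit 1407174), (nat_lit 1408989), (nat_lit 1450305), (nat_lit 1452215)]⟩, ⟨(nat_lit 3), false, false, false, (nat_lit 75), (nat_lit 4330), (nat_lit 4473), [(nat_lit 1073842), (nat_lit 1077956), (nat_lit 1160107), (nat_lit 1164410), (nat_lit 1209798), (nat_lit 1212191), (nat_lit 1296064), (nat_lit 1298645)]⟩, (nat_lit 2935824), (nat_lit 55458268), (nat_lit 8628993), (nat_lit 2912739), (nat_lit 3), (nat_lit 0), [⟨(nat_lit 0), (nat_lit 100),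 (nat_lit 83), (nat_lit 86), (nat_lit 78393007)⟩], [⟨(nat_lit 0), (nat_lit 100), (nat_lit 78), (nat_lit 62), (nat_lit 185995449)⟩], [], [],
 ⟨⟨[(nat_lit 40), (nat_lit 80), (nat_lit 100)], [(nat_lit 0), (nat_lit 0), (nat_lit 1280)], [((nat_lit 0), (nat_lit 0), (nat_lit 0)), ((nat_lit 0), (nat_lit 0), (nat_lit 0)), ((nat_lit 1000), (nat_lit 800), (nat_lit 600))], ((nat_lit 81), (nat_lit 100), (nat_lit 48))⟩, (nat_lit 1689), (nat_lit 217), (nat_lit 217), (nat_lit 0), (nat_lit 175277), [(nat_lit 1872898924), (nat_lit 1223817085), (nat_lit 90421200)], [(nat_lit 0), (nat_lit 0), (nat_lit 0)], [(nat_lit 18398325284), (nat_lit 18989930363), (nat_lit 17964141621), (nat_lit 18316529951), (nat_lit 16584665239), (nat_lit 16937898668), (nat_lit 16788265154), (nat_lit 17140664972)], (nat_lit 1271251), (nat_lit 1271251), (nat_lit 356250), (nat_lit 780000), (nat_lit 0), (nat_lit 490000), [(nat_lit 490000), (nat_lit 1100000), (nat_lit 1442501)], [(nat_lit 3), (nat_lit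 50), (nat_lit 260), (nat_lit 50), (nat_lit 10)]⟩,
 ⟨⟨[(nat_lit 80), (nat_lit 120), (nat_lit 140)], [(nat_lit 0), (nat_lit 0), (nat_lit 1164)], [((nat_lit 0), (nat_lit 0), (nat_lit 0)), ((nat_lit 0), (nat_lit 0), (nat_lit 0)), ((nat_lit 941), (nat_lit 1000), (nat_lit 576))], ((nat_lit 100), (nat_lit 98), (nat_lit 48))⟩, (nat_lit 0), (nat_lit 298), (nat_lit 298), (nat_lit 0), (nat_lit 338137), [(nat_lit 473488000), (nat_lit 804768000), (nat_lit 994042000)], [], [(nat_lit 1001544579), (nat_lit 1868324474), (nat_lit 1350680710), (nat_lit 1132853377), (nat_lit 2596396863), (nat_lit 1857081941), (nat_lit 3526339428), (nat_lit 1193690275)], (nat_lit 1271251), (nat_lit 1271251), (nat_lit 356250), (nat_lit 780000), (nat_lit 780000), (nat_lit 1435001), [(nat_lit 1100000), (nat_lit 1785001), (nat_lit 1271251)], [(nat_lit 17), (nat_lit 58), (nat_lit 373), (nat_lit 150), (nat_lit 11)]⟩,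
 ⟨⟨[(nat_lit 140), (nat_lit 160), (nat_lit 180)], [(nat_lit 0), (nat_lit 0), (nat_lit 799)], [((nat_lit 0), (nat_lit 0), (nat_lit 0)), ((nat_lit 0), (nat_lit 0), (nat_lit 0)), ((nat_lit 728), (nat_lit 1000), (nat_lit 454))], ((nat_lit 100), (nat_lit 67), (nat_lit 52))⟩, (nat_lit 10543), (nat_lit 300), (nat_lit 1321), (nat_lit 890401), (nat_lit 1928733), [(nat_lit 118104000), (nat_lit 142464000), (nat_lit 168696000)], [], [(nat_lit 737470284), (nat_lit 701095503), (nat_lit 649003954), (nat_lit 614019350), (nat_lit 697693684), (nat_lit 661923673), (nat_lit 610849928), (nat_lit 690750719)], (nat_lit 780000), (nat_lit 1435001), (nat_lit 0), (nat_lit 490000), (nat_lit 780000), (nat_lit 1435001), [(nat_lit 1977501), (nat_lit 1271251), (nat_lit 1271251)], [(nat_lit 31), (nat_lit 65), (nat_lit 391), (nat_lit 125), (nat_lit 10)]⟩⟩) (.trZ (nat_lit 0) (nat_lit 1) (nat_lit 3) (nat_lit 100) (nat_lit 80) (nat_lit 78) (nat_lit 70) (.leaf ⟨(nat_lit 871), (nat_lit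 113), (nat_lit 0), (nat_lit 16), (nat_lit 0), (nat_lit 4181), (nat_lit 3139), (nat_lit 201), (nat_lit 0), (nat_lit 0), (nat_lit 937000), [((nat_lit 330), [((nat_lit 18), (nat_lit 2), (nat_lit 849)), ((nat_lit 37), (nat_lit 5), (nat_lit 22))])], ⟨(nat_lit 6), false, false, false, (nat_lit 156), (nat_lit 4183), (nat_lit 4331), [(nat_lit 1325091), (nat_lit 1327999), (nat_lit 1368316), (nat_lit 1371330), (nat_lit 1408988), (nat_lit 1410819), (nat_lit 1452214), (nat_lit 1454150)]⟩, ⟨(nat_lit 3), false, false, false, (nat_lit 76), (nat_lit 4183), (nat_lit 4331), [(nat_lit 1077956), (nat_lit 1082054), (nat_lit 1164409), (nat_lit 1168719), (nat_lit 1212191), (nat_lit 1214565), (nat_lit 1298645), (nat_lit 1301231)]⟩, (nat_lit 3014233), (nat_lit 54971578), (nat_lit 9031524), (nat_lit 2996898), (nat_lit 3), (nat_lit 0), [⟨(nat_lit 0), (nat_lit 100), (nat_lit 81), (nat_lit 88), (nat_lit 49887981)⟩], [⟨(nat_lit 0), (nat_lit 100), (nat_lit 76), (nat_lit 65), (nat_lit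 271505532)⟩], [], [],
 ⟨⟨[(nat_lit 40), (nat_lit 80), (nat_lit 100)], [(nat_lit 0), (nat_lit 192), (nat_lit 1404)], [((nat_lit 0), (nat_lit 0), (nat_lit 0)), ((nat_lit 1000), (nat_lit 955), (nat_lit 75)), ((nat_lit 1000), (nat_lit 781), (nat_lit 625))], ((nat_lit 79), (nat_lit 100), (nat_lit 48))⟩, (nat_lit 2765), (nat_lit 217), (nat_lit 217), (nat_lit 0), (nat_lit 186685), [(nat_lit 1895480595), (nat_lit 1278121824), (nat_lit 159170800)], [(nat_lit 0), (nat_lit 0), (nat_lit 0)], [(nat_lit 19103616619), (nat_lit 19721364495), (nat_lit 18765419802), (nat_lit 19348850643), (nat_lit 16273026230), (nat_lit 16638497445), (nat_lit 16545830056), (nat_lit 16913542264)], (nat_lit 1271251), (nat_lit 1271251), (nat_lit 422188), (nat_lit 780000), (nat_lit 0), (nat_lit 490000), [(nat_lit 490000), (nat_lit 1100000), (nat_lit 1442501)], [(nat_lit 3), (nat_lit 50), (nat_lit 260), (nat_lit 50), (nat_lit 10)]⟩,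
 ⟨⟨[(nat_lit 80), (nat_lit 120), (nat_lit 140)], [(nat_lit 0), (nat_lit 0), (nat_lit 1164)], [((nat_lit 0), (nat_lit 0), (nat_lit 0)), ((nat_lit 0), (nat_lit 0), (nat_lit 0)), ((nat_lit 941), (nat_lit 1000), (nat_lit 576))], ((nat_lit 100), (nat_lit 98), (nat_lit 48))⟩, (nat_lit 0), (nat_lit 300), (nat_lit 300), (nat_lit 0), (nat_lit 365622), [(nat_lit 604752000), (nat_lit 1027872000), (nat_lit 1269618000)], [], [(nat_lit 1065186218), (nat_lit 2127546357), (nat_lit 1873460163), (nat_lit 1540261140), (nat_lit 3523950244), (nat_lit 2131497353), (nat_lit 4556534216), (nat_lit 1694069130)], (nat_lit 1271251), (nat_lit 1271251), (nat_lit 422188), (nat_lit 780000), (nat_lit 780000), (nat_lit 1435001), [(nat_lit 1100000), (nat_lit 1785001), (nat_lit 1271251)], [(nat_lit 17), (nat_lit 58), (nat_lit 373), (nat_lit 150), (nat_lit 11)]⟩,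
 ⟨⟨[(nat_lit 140), (nat_lit 160), (nat_lit 180)], [(nat_lit 0), (nat_lit 0), (nat_lit 799)], [((nat_lit 0), (nat_lit 0), (nat_lit 0)), ((nat_lit 0), (nat_lit 0), (nat_lit 0)), ((nat_lit 728), (nat_lit 1000), (nat_lit 454))], ((nat_lit 100), (nat_lit 67), (nat_lit 52))⟩, (nat_lit 14058), (nat_lit 300), (nat_lit 1393), (nat_lit 1187200), (nat_lit 2095502), [(nat_lit 157472000), (nat_lit 189952000), (nat_lit 224928000)], [], [(nat_lit 984083332), (nat_lit 935695769), (nat_lit 866346998), (nat_lit 819809358), (nat_lit 931167068), (nat_lit 882297447), (nat_lit 815590040), (nat_lit 920721793)], (nat_lit 780000), (nat_lit 1435001), (nat_lit 0), (nat_lit 490000), (nat_lit 780000), (nat_lit 1435001), [(nat_lit 1977501), (nat_lit 1271251), (nat_lit 1271251)], [(nat_lit 31), (nat_lit 65), (nat_lit 409), (nat_lit 125), (nat_lit 10)]⟩⟩))) (.trZ (nat_lit 0) (nat_lit 1) (nat_lit 3) (nat_lit 100) (nat_lit 78) (nat_lit 81) (nat_lit 70) (.leaf ⟨(nat_lit 902), (nat_lit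 85), (nat_lit 0), (nat_lit 13), (nat_lit 0), (nat_lit 3836), (nat_lit 1771), (nat_lit 163), (nat_lit 0), (nat_lit 0), (nat_lit 328850), [((nat_lit 340), [((nat_lit 18), (nat_lit 0), (nat_lit 213)), ((nat_lit 18), (nat_lit 1), (nat_lit 689))])], ⟨(nat_lit 6), false, false, false, (nat_lit 157), (nat_lit 3872), (nat_lit 4184), [(nat_lit 1327983), (nat_lit 1333871), (nat_lit 1371306), (nat_lit 1377448), (nat_lit 1410806), (nat_lit 1414527), (nat_lit 1454130), (nat_lit 1458104)]⟩, ⟨(nat_lit 3), false, false, false, (nat_lit 78), (nat_lit 3872), (nat_lit 4184), [(nat_lit 1082054), (nat_lit 1090218), (nat_lit 1168707), (nat_lit 1177377), (nat_lit 1214565), (nat_lit 1219261), (nat_lit 1301224), (nat_lit 1306426)]⟩, (nat_lit 3063774), (nat_lit 54710435), (nat_lit 9170000), (nat_lit 3119565), (nat_lit 3), (nat_lit 0), [⟨(nat_lit 0), (nat_lit 100), (nat_lit 77), (nat_lit 91), (nat_lit 62933365)⟩, ⟨(nat_lit 0), (nat_lit 100), (nat_lit 78), (nat_lit 81), (nat_lit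 370132)⟩], [⟨(nat_lit 0), (nat_lit 100), (nat_lit 71), (nat_lit 70), (nat_lit 238354693)⟩], [], [],
 ⟨⟨[(nat_lit 40), (nat_lit 60), (nat_lit 80)], [(nat_lit 0), (nat_lit 197), (nat_lit 800)], [((nat_lit 0), (nat_lit 0), (nat_lit 0)), ((nat_lit 1000), (nat_lit 908), (nat_lit 154)), ((nat_lit 1000), (nat_lit 781), (nat_lit 471))], ((nat_lit 78), (nat_lit 100), (nat_lit 49))⟩, (nat_lit 718788), (nat_lit 206), (nat_lit 206), (nat_lit 0), (nat_lit 209183), [(nat_lit 1413842947), (nat_lit 1871717911), (nat_lit 2228407289)], [(nat_lit 0), (nat_lit 0), (nat_lit 0)], [(nat_lit 19032282044), (nat_lit 20205457879), (nat_lit 18784174480), (nat_lit 19892875200), (nat_lit 16835121443), (nat_lit 17625269317), (nat_lit 17257424264), (nat_lit 18001330073)], (nat_lit 1271251), (nat_lit 1271251), (nat_lit 422188), (nat_lit 780000), (nat_lit 0), (nat_lit 490000), [(nat_lit 490000), (nat_lit 780000), (nat_lit 1100000)], [(nat_lit 2), (nat_lit 44), (nat_lit 260), (nat_lit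 50), (nat_lit 12)]⟩,
 ⟨⟨[(nat_lit 80), (nat_lit 120), (nat_lit 140)], [(nat_lit 0), (nat_lit 0), (nat_lit 1164)], [((nat_lit 0), (nat_lit 0), (nat_lit 0)), ((nat_lit 0), (nat_lit 0), (nat_lit 0)), ((nat_lit 941), (nat_lit 1000), (nat_lit 576))], ((nat_lit 100), (nat_lit 98), (nat_lit 48))⟩, (nat_lit 0), (nat_lit 327), (nat_lit 327), (nat_lit 0), (nat_lit 422257), [(nat_lit 459424000), (nat_lit 780864000), (nat_lit 964516000)], [], [(nat_lit 1571412845), (nat_lit 1921507267), (nat_lit 2133574723), (nat_lit 1617144508), (nat_lit 3094748162), (nat_lit 1974068979), (nat_lit 3713419108), (nat_lit 2098438010)], (nat_lit 1271251), (nat_lit 1271251), (nat_lit 422188), (nat_lit 780000), (nat_lit 780000), (nat_lit 1435001), [(nat_lit 1100000), (nat_lit 1785001), (nat_lit 1271251)], [(nat_lit 17), (nat_lit 58), (nat_lit 373), (nat_lit 150), (nat_lit 11)]⟩,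
 ⟨⟨[(nat_lit 140), (nat_lit 160), (nat_lit 180)], [(nat_lit 0), (nat_lit 0), (nat_lit 799)], [((nat_lit 0), (nat_lit 0), (nat_lit 0)), ((nat_lit 0), (nat_lit 0), (nat_lit 0)), ((nat_lit 728), (nat_lit 1000), (nat_lit 454))], ((nat_lit 100), (nat_lit 67), (nat_lit 52))⟩, (nat_lit 11422), (nat_lit 300), (nat_lit 1553), (nat_lit 964600), (nat_lit 2436825), [(nat_lit 127946000), (nat_lit 154336000), (nat_lit 182754000)], [], [(nat_lit 800308876), (nat_lit 761099117), (nat_lit 704853204), (nat_lit 667143089), (nat_lit 757426164), (nat_lit 717377537), (nat_lit 663721060), (nat_lit 747824739)], (nat_lit 780000), (nat_lit 1435001), (nat_lit 0), (nat_lit 490000), (nat_lit 780000), (nat_lit 1435001), [(nat_lit 1977501), (nat_lit 1271251), (nat_lit 1271251)], [(nat_lit 31), (nat_lit 65), (nat_lit 449), (nat_lit 125), (nat_lit 11)]⟩⟩)))) (.leaf ⟨(nat_lit 890), (nat_lit 61), (nat_lit 0), (nat_lit 49), (nat_lit 0), (nat_lit 3923), (nat_lit 1024), (nat_lit 545),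 (nat_lit 0), (nat_lit 0), (nat_lit 890000), [((nat_lit 340), [((nat_lit 18), (nat_lit 2), (nat_lit 890))])], ⟨(nat_lit 6), false, false, false, (nat_lit 153), (nat_lit 3872), (nat_lit 4473), [(nat_lit 1305146), (nat_lit 1317698), (nat_lit 1348244), (nat_lit 1361249), (nat_lit 1407125), (nat_lit 1414492), (nat_lit 1450223), (nat_lit 1458043)]⟩, ⟨(nat_lit 3), false, false, false, (nat_lit 77), (nat_lit 3872), (nat_lit 4473), [(nat_lit 1073842), (nat_lit 1090218), (nat_lit 1160070), (nat_lit 1177353), (nat_lit 1209798), (nat_lit 1219261), (nat_lit 1296041), (nat_lit 1306411)]⟩, (nat_lit 2986590), (nat_lit 55194305), (nat_lit 8771059), (nat_lit 3034636), (nat_lit 5), (nat_lit 0), [⟨(nat_lit 0), (nat_lit 100), (nat_lit 80), (nat_lit 89), (nat_lit 278395515)⟩], [⟨(nat_lit 0), (nat_lit 100), (nat_lit 78), (nat_lit 49), (nat_lit 199326259)⟩], [], [],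
 ⟨⟨[(nat_lit 40), (nat_lit 80), (nat_lit 100)], [(nat_lit 0), (nat_lit 0), (nat_lit 1280)], [((nat_lit 0), (nat_lit 0), (nat_lit 0)), ((nat_lit 0), (nat_lit 0), (nat_lit 0)), ((nat_lit 1000), (nat_lit 800), (nat_lit 600))], ((nat_lit 81), (nat_lit 100), (nat_lit 48))⟩, (nat_lit 26872), (nat_lit 240), (nat_lit 240), (nat_lit 0), (nat_lit 210483), [(nat_lit 1770820371), (nat_lit 1396227936), (nat_lit 293052000)], [(nat_lit 0), (nat_lit 0), (nat_lit 0)], [(nat_lit 18527220154), (nat_lit 20917251117), (nat_lit 18100158989), (nat_lit 20049938475), (nat_lit 16695509472), (nat_lit 18144918200), (nat_lit 16882051259), (nat_lit 18358552234)], (nat_lit 1271251), (nat_lit 1271251), (nat_lit 356250), (nat_lit 780000), (nat_lit 0), (nat_lit 490000), [(nat_lit 490000), (nat_lit 1100000), (nat_lit 1442501)], [(nat_lit 3), (nat_lit 50), (nat_lit 260), (nat_lit 50), (nat_lit 10)]⟩,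
 ⟨⟨[(nat_lit 80), (nat_lit 120), (nat_lit 140)], [(nat_lit 0), (nat_lit 0), (nat_lit 1164)], [((nat_lit 0), (nat_lit 0), (nat_lit 0)), ((nat_lit 0), (nat_lit 0), (nat_lit 0)), ((nat_lit 941), (nat_lit 1000), (nat_lit 576))], ((nat_lit 100), (nat_lit 98), (nat_lit 48))⟩, (nat_lit 266221), (nat_lit 346), (nat_lit 346), (nat_lit 0), (nat_lit 423004), [(nat_lit 515680000), (nat_lit 876480000), (nat_lit 1082620000)], [], [(nat_lit 2698550769), (nat_lit 2954464882), (nat_lit 2505256548), (nat_lit 2740974145), (nat_lit 3922460422), (nat_lit 4192240659), (nat_lit 3613225876), (nat_lit 3807689604)], (nat_lit 1271251), (nat_lit 1271251), (nat_lit 356250), (nat_lit 780000), (nat_lit 1271251), (nat_lit 1271251), [(nat_lit 1100000), (nat_lit 1785001), (nat_lit 1271251)], [(nat_lit 17), (nat_lit 58), (nat_lit 428), (nat_lit 200), (nat_lit 12)]⟩,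
 ⟨⟨[(nat_lit 140), (nat_lit 160), (nat_lit 180)], [(nat_lit 0), (nat_lit 0), (nat_lit 799)], [((nat_lit 0), (nat_lit 0), (nat_lit 0)), ((nat_lit 0), (nat_lit 0), (nat_lit 0)), ((nat_lit 728), (nat_lit 1000), (nat_lit 454))], ((nat_lit 100), (nat_lit 67), (nat_lit 52))⟩, (nat_lit 43052), (nat_lit 300), (nat_lit 1514), (nat_lit 3635800), (nat_lit 2436825), [(nat_lit 482258000), (nat_lit 581728000), (nat_lit 688842000)], [], [(nat_lit 3083780838), (nat_lit 2943351680), (nat_lit 2812789434), (nat_lit 2669627719), (nat_lit 3014002444), (nat_lit 2874066820), (nat_lit 2687371528), (nat_lit 2542584126)], (nat_lit 780000), (nat_lit 1435001), (nat_lit 0), (nat_lit 490000), (nat_lit 1271251), (nat_lit 1271251), [(nat_lit 1977501), (nat_lit 1271251), (nat_lit 1271251)], [(nat_lit 31), (nat_lit 65), (nat_lit 464), (nat_lit 175), (nat_lit 11)]⟩⟩))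
noncomputable def c11_1 : Tr Lf :=
 (.spl (nat_lit 5) (nat_lit 200) (.spl (nat_lit 2) (nat_lit 160) (.leaf ⟨(nat_lit 782), (nat_lit 218), (nat_lit 0), (nat_lit 0), (nat_lit 10081), (nat_lit 3937), (nat_lit 1730), (nat_lit 0), (nat_lit 0), (nat_lit 0), (nat_lit 935000), [((nat_lit 340), [((nat_lit 19), (nat_lit 2), (nat_lit 731)), ((nat_lit 37), (nat_lit 5), (nat_lit 51))])], ⟨(nat_lit 6), false, false, false, (nat_lit 153), (nat_lit 3872), (nat_lit 4473), [(nat_lit 1305146), (nat_lit 1317698), (nat_lit 1348244), (nat_lit 1361249), (nat_lit 1407125), (nat_lit 1414492), (nat_lit 1450223), (nat_lit 1458043)]⟩, ⟨(nat_lit 3), false, false, false, (nat_lit 68), (nat_lit 3872), (nat_lit 4473), [(nat_lit 1073842), (nat_lit 1090218), (nat_lit 1116965), (nat_lit 1133794), (nat_lit 1209798), (nat_lit 1219261), (nat_lit 1252931), (nat_lit 1262847)]⟩, (nat_lit 2853965), (nat_lit 55721460), (nat_lit 8753628), (nat_lit 2524912), (nat_lit 3), (nat_lit 0), [⟨(nat_lit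 0), (nat_lit 100), (nat_lit 80), (nat_lit 89), (nat_lit 360440868)⟩], [⟨(nat_lit 0), (nat_lit 100), (nat_lit 80), (nat_lit 41), (nat_lit 107197736)⟩], [], [],
 ⟨⟨[(nat_lit 40), (nat_lit 80), (nat_lit 120)], [(nat_lit 0), (nat_lit 0), (nat_lit 2151)], [((nat_lit 0), (nat_lit 0), (nat_lit 0)), ((nat_lit 0), (nat_lit 0), (nat_lit 0)), ((nat_lit 1000), (nat_lit 815), (nat_lit 753))], ((nat_lit 80), (nat_lit 100), (nat_lit 63))⟩, (nat_lit 0), (nat_lit 257), (nat_lit 257), (nat_lit 0), (nat_lit 105160), [(nat_lit 1786572979), (nat_lit 1641525480), (nat_lit 0)], [(nat_lit 0), (nat_lit 0), (nat_lit 821278360)], [(nat_lit 18751878507), (nat_lit 20950098459), (nat_lit 18753058557), (nat_lit 20075504943), (nat_lit 17365996015), (nat_lit 18692113994), (nat_lit 17454506465), (nat_lit 18780881508)], (nat_lit 1271251), (nat_lit 1271251), (nat_lit 356250), (nat_lit 780000), (nat_lit 0), (nat_lit 490000), [(nat_lit 490000), (nat_lit 1100000), (nat_lit 1785001)],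 [(nat_lit 4), (nat_lit 51), (nat_lit 260), (nat_lit 50), (nat_lit 9)]⟩,
 ⟨⟨[(nat_lit 80), (nat_lit 120), (nat_lit 160)], [(nat_lit 0), (nat_lit 0), (nat_lit 2132)], [((nat_lit 0), (nat_lit 0), (nat_lit 0)), ((nat_lit 0), (nat_lit 0), (nat_lit 0)), ((nat_lit 858), (nat_lit 1000), (nat_lit 713))], ((nat_lit 100), (nat_lit 91), (nat_lit 64))⟩, (nat_lit 0), (nat_lit 406), (nat_lit 406), (nat_lit 0), (nat_lit 208938), [(nat_lit 1021984000), (nat_lit 1737024000), (nat_lit 2588096000)], [], [(nat_lit 10691572250), (nat_lit 8967169407), (nat_lit 8066907600), (nat_lit 8563540194), (nat_lit 8109354621), (nat_lit 7856614288), (nat_lit 8992012896), (nat_lit 7493217393)], (nat_lit 1271251), (nat_lit 1271251), (nat_lit 356250), (nat_lit 780000), (nat_lit 0), (nat_lit 1412501), [(nat_lit 1100000), (nat_lit 1785001), (nat_lit 1271251)], [(nat_lit 18), (nat_lit 59), (nat_lit 373), (nat_lit 150), (nat_lit 10)]⟩,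
 Rw.none⟩) (.trZ (nat_lit 0) (nat_lit 2) (nat_lit 4) (nat_lit 100) (nat_lit 82) (nat_lit 44) (nat_lit 10) (.spl (nat_lit 0) (nat_lit 330) (.spl (nat_lit 6) (nat_lit 36) (.leaf ⟨(nat_lit 49), (nat_lit 951), (nat_lit 0), (nat_lit 0), (nat_lit 79684), (nat_lit 4738), (nat_lit 6318), (nat_lit 0), (nat_lit 0), (nat_lit 0), (nat_lit 196000), [((nat_lit 330), [((nat_lit 37), (nat_lit 5), (nat_lit 49))])], ⟨(nat_lit 6), false, false, false, (nat_lit 152), (nat_lit 4183), (nat_lit 4473), [(nat_lit 1305197), (nat_lit 1311427), (nat_lit 1348323), (nat_lit 1354753), (nat_lit 1407167), (nat_lit 1410812), (nat_lit 1450291), (nat_lit 1454137)]⟩, ⟨(nat_lit 4), false, false, false, (nat_lit 87), (nat_lit 4183), (nat_lit 4473), [(nat_lit 1133969), (nat_lit 1141951), (nat_lit 1177099), (nat_lit 1185281), (nat_lit 1252931), (nat_lit 1257898), (nat_lit 1296062), (nat_lit 1301229)]⟩, (nat_lit 3134174), (nat_lit 54600403), (nat_lit 8694552), (nat_lit 3705045), (nat_lit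 4), (nat_lit 0), [⟨(nat_lit 0), (nat_lit 100), (nat_lit 82), (nat_lit 87), (nat_lit 792358611)⟩], [⟨(nat_lit 0), (nat_lit 100), (nat_lit 78), (nat_lit 55), (nat_lit 73487102)⟩], [], [],
 ⟨⟨[(nat_lit 40), (nat_lit 80), (nat_lit 100)], [(nat_lit 0), (nat_lit 0), (nat_lit 1280)], [((nat_lit 0), (nat_lit 0), (nat_lit 0)), ((nat_lit 0), (nat_lit 0), (nat_lit 0)), ((nat_lit 1000), (nat_lit 800), (nat_lit 600))], ((nat_lit 80), (nat_lit 100), (nat_lit 57))⟩, (nat_lit 1900115), (nat_lit 197), (nat_lit 197), (nat_lit 0), (nat_lit 34522), [(nat_lit 2015035039), (nat_lit 4217423620), (nat_lit 5340599200)], [(nat_lit 0), (nat_lit 0), (nat_lit 0)], [(nat_lit 20464166275), (nat_lit 21520842627), (nat_lit 19935805115), (nat_lit 20927923276), (nat_lit 17883504138), (nat_lit 18887484238), (nat_lit 17649843430), (nat_lit 18530083022)], (nat_lit 1271251), (nat_lit 1271251), (nat_lit 356250), (nat_lit 780000), (nat_lit 54688), (nat_lit 490000), [(nat_lit 490000), (nat_lit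 1100000), (nat_lit 1442501)], [(nat_lit 3), (nat_lit 50), (nat_lit 260), (nat_lit 50), (nat_lit 10)]⟩,
 ⟨⟨[(nat_lit 80), (nat_lit 120), (nat_lit 140)], [(nat_lit 0), (nat_lit 0), (nat_lit 1164)], [((nat_lit 0), (nat_lit 0), (nat_lit 0)), ((nat_lit 0), (nat_lit 0), (nat_lit 0)), ((nat_lit 941), (nat_lit 1000), (nat_lit 576))], ((nat_lit 100), (nat_lit 94), (nat_lit 58))⟩, (nat_lit 0), (nat_lit 281), (nat_lit 281), (nat_lit 0), (nat_lit 72929), [(nat_lit 4458288000), (nat_lit 7577568000), (nat_lit 9359742000)], [], [(nat_lit 44102949438), (nat_lit 37420277637), (nat_lit 34053026880), (nat_lit 34578119784), (nat_lit 35027003331), (nat_lit 32980623454), (nat_lit 38269210302), (nat_lit 32352652863)], (nat_lit 1271251), (nat_lit 1271251), (nat_lit 356250), (nat_lit 780000), (nat_lit 0), (nat_lit 1412501), [(nat_lit 1100000), (nat_lit 1785001), (nat_lit 1271251)], [(nat_lit 17), (nat_lit 58), (nat_lit 373), (nat_lit 150), (nat_lit 11)]⟩,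
 Rw.none⟩) (.dle (nat_lit 0))) (.trZ (nat_lit 0) (nat_lit 1) (nat_lit 3) (nat_lit 100) (nat_lit 78) (nat_lit 81) (nat_lit 70) (.trZ (nat_lit 0) (nat_lit 2) (nat_lit 4) (nat_lit 100) (nat_lit 78) (nat_lit 49) (nat_lit 20) (.leaf ⟨(nat_lit 815), (nat_lit 185), (nat_lit 0), (nat_lit 0), (nat_lit 8787), (nat_lit 3865), (nat_lit 1531), (nat_lit 0), (nat_lit 0), (nat_lit 0), (nat_lit 267350), [((nat_lit 340), [((nat_lit 19), (nat_lit 0), (nat_lit 391)), ((nat_lit 19), (nat_lit 1), (nat_lit 424))])], ⟨(nat_lit 6), false, false, false, (nat_lit 157), (nat_lit 3872), (nat_lit 4184), [(nat_lit 1327983), (nat_lit 1333871), (nat_lit 1371306), (nat_lit 1377448), (nat_lit 1410806), (nat_lit 1414527), (nat_lit 1454130), (nat_lit 1458104)]⟩, ⟨(nat_lit 4), false, false, false, (nat_lit 93), (nat_lit 3872), (nat_lit 4184), [(nat_lit 1158512), (nat_lit 1166062), (nat_lit 1201836), (nat_lit 1209639), (nat_lit 1257898), (nat_lit 1262847), (nat_lit 1301224), (nat_lit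 1306426)]⟩, (nat_lit 3290135), (nat_lit 53722510), (nat_lit 9180581), (nat_lit 4096909), (nat_lit 4), (nat_lit 0), [⟨(nat_lit 0), (nat_lit 100), (nat_lit 77), (nat_lit 91), (nat_lit 239913032)⟩], [⟨(nat_lit 0), (nat_lit 100), (nat_lit 71), (nat_lit 70), (nat_lit 220811414)⟩], [], [],
 ⟨⟨[(nat_lit 40), (nat_lit 80), (nat_lit 100)], [(nat_lit 0), (nat_lit 395), (nat_lit 1536)], [((nat_lit 0), (nat_lit 0), (nat_lit 0)), ((nat_lit 1000), (nat_lit 908), (nat_lit 154)), ((nat_lit 1000), (nat_lit 760), (nat_lit 642))], ((nat_lit 76), (nat_lit 100), (nat_lit 63))⟩, (nat_lit 1332063), (nat_lit 184), (nat_lit 184), (nat_lit 0), (nat_lit 62977), [(nat_lit 1491574420), (nat_lit 2527348175), (nat_lit 2976840000)], [(nat_lit 0), (nat_lit 0), (nat_lit 0)], [(nat_lit 18431130900), (nat_lit 19460518092), (nat_lit 18518775040), (nat_lit 19391069036), (nat_lit 16825236423), (nat_lit 17710691052), (nat_lit 17026040025), (nat_lit 17859751310)], (nat_lit 1271251), (nat_lit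 1271251), (nat_lit 422188), (nat_lit 780000), (nat_lit 111251), (nat_lit 490000), [(nat_lit 490000), (nat_lit 1100000), (nat_lit 1442501)], [(nat_lit 3), (nat_lit 50), (nat_lit 260), (nat_lit 50), (nat_lit 10)]⟩,
 ⟨⟨[(nat_lit 80), (nat_lit 120), (nat_lit 160)], [(nat_lit 0), (nat_lit 0), (nat_lit 2132)], [((nat_lit 0), (nat_lit 0), (nat_lit 0)), ((nat_lit 0), (nat_lit 0), (nat_lit 0)), ((nat_lit 858), (nat_lit 1000), (nat_lit 713))], ((nat_lit 100), (nat_lit 91), (nat_lit 64))⟩, (nat_lit 24307), (nat_lit 370), (nat_lit 370), (nat_lit 0), (nat_lit 140256), [(nat_lit 867280000), (nat_lit 1474080000), (nat_lit 2196320000)], [], [(nat_lit 8788713984), (nat_lit 7412606500), (nat_lit 6767643180), (nat_lit 7179264269), (nat_lit 6921012170), (nat_lit 6420477985), (nat_lit 7599369352), (nat_lit 6203271354)], (nat_lit 1271251), (nat_lit 1271251), (nat_lit 422188), (nat_lit 780000), (nat_lit 0), (nat_lit 1412501), [(nat_lit 1100000), (nat_lit 1785001), (nat_lit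 1271251)], [(nat_lit 18), (nat_lit 59), (nat_lit 373), (nat_lit 150), (nat_lit 10)]⟩,
 Rw.none⟩)))))) (.spl (nat_lit 1) (nat_lit 260) (.spl (nat_lit 0) (nat_lit 330) (.spl (nat_lit 6) (nat_lit 36) (.leaf ⟨(nat_lit 790), (nat_lit 135), (nat_lit 0), (nat_lit 75), (nat_lit 7472), (nat_lit 3581), (nat_lit 1840), (nat_lit 915), (nat_lit 0), (nat_lit 0), (nat_lit 826000), [((nat_lit 330), [((nat_lit 18), (nat_lit 2), (nat_lit 778)), ((nat_lit 37), (nat_lit 5), (nat_lit 12))])], ⟨(nat_lit 6), false, false, false, (nat_lit 148), (nat_lit 4183), (nat_lit 4473), [(nat_lit 1305197), (nat_lit 1311427), (nat_lit 1326760), (nat_lit 1333090), (nat_lit 1407167), (nat_lit 1410812), (nat_lit 1428729), (nat_lit 1432475)]⟩, ⟨(nat_lit 3), false, false, false, (nat_lit 75), (nat_lit 4183), (nat_lit 4473), [(nat_lit 1073842), (nat_lit 1082054), (nat_lit 1160104), (nat_lit 1168717), (nat_lit 1209798), (nat_lit 1214565), (nat_lit 1296062), (nat_lit 1301229)]⟩, (nat_lit 2893948),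 (nat_lit 55769009), (nat_lit 8282306), (nat_lit 2948685), (nat_lit 5), (nat_lit 0), [⟨(nat_lit 0), (nat_lit 100), (nat_lit 80), (nat_lit 89), (nat_lit 316115036)⟩], [⟨(nat_lit 0), (nat_lit 100), (nat_lit 80), (nat_lit 47), (nat_lit 195199806)⟩], [⟨(nat_lit 1), (nat_lit 45), (nat_lit 99), (nat_lit 100), (nat_lit 37326848)⟩], [],
 ⟨⟨[(nat_lit 40), (nat_lit 80), (nat_lit 100)], [(nat_lit 0), (nat_lit 0), (nat_lit 1280)], [((nat_lit 0), (nat_lit 0), (nat_lit 0)), ((nat_lit 0), (nat_lit 0), (nat_lit 0)), ((nat_lit 1000), (nat_lit 800), (nat_lit 600))], ((nat_lit 80), (nat_lit 100), (nat_lit 57))⟩, (nat_lit 3441), (nat_lit 202), (nat_lit 202), (nat_lit 0), (nat_lit 35657), [(nat_lit 1651858001), (nat_lit 1860889232), (nat_lit 819980000)], [(nat_lit 0), (nat_lit 0), (nat_lit 0)], [(nat_lit 18076806223), (nat_lit 18982304054), (nat_lit 18007951372), (nat_lit 18813091781), (nat_lit 16620283883), (nat_lit 17427029462), (nat_lit 17025216668), (nat_lit 17778580797)],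 (nat_lit 1271251), (nat_lit 1271251), (nat_lit 356250), (nat_lit 780000), (nat_lit 0), (nat_lit 490000), [(nat_lit 490000), (nat_lit 1100000), (nat_lit 1442501)], [(nat_lit 3), (nat_lit 50), (nat_lit 260), (nat_lit 50), (nat_lit 10)]⟩,
 ⟨⟨[(nat_lit 80), (nat_lit 120), (nat_lit 140)], [(nat_lit 0), (nat_lit 0), (nat_lit 1164)], [((nat_lit 0), (nat_lit 0), (nat_lit 0)), ((nat_lit 0), (nat_lit 0), (nat_lit 0)), ((nat_lit 941), (nat_lit 1000), (nat_lit 576))], ((nat_lit 100), (nat_lit 94), (nat_lit 58))⟩, (nat_lit 579339), (nat_lit 201), (nat_lit 201), (nat_lit 0), (nat_lit 76804), [(nat_lit 984480000), (nat_lit 1673280000), (nat_lit 2066820000)], [], [(nat_lit 4149707384), (nat_lit 4495734272), (nat_lit 4400389400), (nat_lit 4140391064), (nat_lit 7365876874), (nat_lit 7529305639), (nat_lit 6806623564), (nat_lit 6958831984)], (nat_lit 1271251), (nat_lit 1271251), (nat_lit 356250), (nat_lit 780000), (nat_lit 1271251), (nat_lit 1271251), [(nat_lit 1100000),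 (nat_lit 1785001), (nat_lit 1271251)], [(nat_lit 17), (nat_lit 58), (nat_lit 428), (nat_lit 200), (nat_lit 12)]⟩,
 ⟨⟨[(nat_lit 140), (nat_lit 180), (nat_lit 200)], [(nat_lit 0), (nat_lit 0), (nat_lit 2835)], [((nat_lit 0), (nat_lit 0), (nat_lit 0)), ((nat_lit 0), (nat_lit 0), (nat_lit 0)), ((nat_lit 363), (nat_lit 1000), (nat_lit 798))], ((nat_lit 0), (nat_lit 0), (nat_lit 0))⟩, (nat_lit 20635), (nat_lit 300), (nat_lit 645), (nat_lit 5857500), (nat_lit 369276), [(nat_lit 738150000), (nat_lit 1054350000), (nat_lit 1230000000)], [], [(nat_lit 5242454040), (nat_lit 5002350060), (nat_lit 4646686590), (nat_lit 4418908950), (nat_lit 5182826280), (nat_lit 4926844890), (nat_lit 4587043680), (nat_lit 4318226940)], (nat_lit 780000), (nat_lit 1435001), (nat_lit 0), (nat_lit 490000), (nat_lit 1271251), (nat_lit 1271251), [(nat_lit 1977501), (nat_lit 1271251), (nat_lit 1271251)], [(nat_lit 32), (nat_lit 67), (nat_lit 401), (nat_lit 175), (nat_lit 9)]⟩⟩) (.dle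 (nat_lit 0))) (.trZ (nat_lit 0) (nat_lit 1) (nat_lit 3) (nat_lit 100) (nat_lit 78) (nat_lit 81) (nat_lit 70) (.leaf ⟨(nat_lit 898), (nat_lit 54), (nat_lit 0), (nat_lit 48), (nat_lit 5154), (nat_lit 3980), (nat_lit 917), (nat_lit 587), (nat_lit 0), (nat_lit 0), (nat_lit 287500), [((nat_lit 340), [((nat_lit 19), (nat_lit 0), (nat_lit 478)), ((nat_lit 19), (nat_lit 1), (nat_lit 420))])], ⟨(nat_lit 6), false, false, false, (nat_lit 153), (nat_lit 3872), (nat_lit 4184), [(nat_lit 1327983), (nat_lit 1333871), (nat_lit 1349645), (nat_lit 1355660), (nat_lit 1410806), (nat_lit 1414527), (nat_lit 1432468), (nat_lit 1436316)]⟩, ⟨(nat_lit 3), false, false, false, (nat_lit 78), (nat_lit 3872), (nat_lit 4184), [(nat_lit 1082054), (nat_lit 1090218), (nat_lit 1168707), (nat_lit 1177377), (nat_lit 1214565), (nat_lit 1219261), (nat_lit 1301224), (nat_lit 1306426)]⟩, (nat_lit 3006355), (nat_lit 55114585), (nat_lit 8769005), (nat_lit 3116410), (nat_lit 5), (nat_lit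 0), [⟨(nat_lit 0), (nat_lit 100), (nat_lit 75), (nat_lit 92), (nat_lit 248884140)⟩], [⟨(nat_lit 0), (nat_lit 100), (nat_lit 75), (nat_lit 52), (nat_lit 222293361)⟩], [], [],
 ⟨⟨[(nat_lit 40), (nat_lit 80), (nat_lit 100)], [(nat_lit 0), (nat_lit 395), (nat_lit 1536)], [((nat_lit 0), (nat_lit 0), (nat_lit 0)), ((nat_lit 1000), (nat_lit 908), (nat_lit 154)), ((nat_lit 1000), (nat_lit 760), (nat_lit 642))], ((nat_lit 76), (nat_lit 100), (nat_lit 63))⟩, (nat_lit 1269087), (nat_lit 195), (nat_lit 195), (nat_lit 0), (nat_lit 68971), [(nat_lit 1460091104), (nat_lit 2318042707), (nat_lit 2671808000)], [(nat_lit 0), (nat_lit 0), (nat_lit 0)], [(nat_lit 19319899067), (nat_lit 20519086693), (nat_lit 19419995685), (nat_lit 20182443580), (nat_lit 17708782311), (nat_lit 18420863717), (nat_lit 17998092974), (nat_lit 18714460778)], (nat_lit 1271251), (nat_lit 1271251), (nat_lit 422188), (nat_lit 780000), (nat_lit 0), (nat_lit 490000), [(nat_lit 490000), (nat_lit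 1100000), (nat_lit 1442501)], [(nat_lit 3), (nat_lit 50), (nat_lit 260), (nat_lit 50), (nat_lit 10)]⟩,
 ⟨⟨[(nat_lit 80), (nat_lit 120), (nat_lit 160)], [(nat_lit 0), (nat_lit 0), (nat_lit 2132)], [((nat_lit 0), (nat_lit 0), (nat_lit 0)), ((nat_lit 0), (nat_lit 0), (nat_lit 0)), ((nat_lit 858), (nat_lit 1000), (nat_lit 713))], ((nat_lit 100), (nat_lit 91), (nat_lit 64))⟩, (nat_lit 336502), (nat_lit 245), (nat_lit 245), (nat_lit 0), (nat_lit 154170), [(nat_lit 478176000), (nat_lit 812736000), (nat_lit 1210944000)], [], [(nat_lit 2150817296), (nat_lit 2297657273), (nat_lit 2098499503), (nat_lit 2168408040), (nat_lit 3523050169), (nat_lit 3590635114), (nat_lit 3314926468), (nat_lit 3377953688)], (nat_lit 1271251), (nat_lit 1271251), (nat_lit 422188), (nat_lit 780000), (nat_lit 1271251), (nat_lit 1271251), [(nat_lit 1100000), (nat_lit 1785001), (nat_lit 1271251)], [(nat_lit 18), (nat_lit 59), (nat_lit 428), (nat_lit 200), (nat_lit 11)]⟩,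
 ⟨⟨[(nat_lit 140), (nat_lit 180), (nat_lit 200)], [(nat_lit 0), (nat_lit 0), (nat_lit 2835)], [((nat_lit 0), (nat_lit 0), (nat_lit 0)), ((nat_lit 0), (nat_lit 0), (nat_lit 0)), ((nat_lit 363), (nat_lit 1000), (nat_lit 798))], ((nat_lit 0), (nat_lit 0), (nat_lit 0))⟩, (nat_lit 13206), (nat_lit 300), (nat_lit 821), (nat_lit 3748805), (nat_lit 742267), [(nat_lit 472416000), (nat_lit 674784000), (nat_lit 787200000)], [], [(nat_lit 3385455618), (nat_lit 3213712381), (nat_lit 3039074654), (nat_lit 2873652195), (nat_lit 3317541660), (nat_lit 3153170600), (nat_lit 2932714412), (nat_lit 2760133530)], (nat_lit 780000), (nat_lit 1435001), (nat_lit 0), (nat_lit 490000), (nat_lit 1271251), (nat_lit 1271251), [(nat_lit 1977501), (nat_lit 1271251), (nat_lit 1271251)], [(nat_lit 32), (nat_lit 67), (nat_lit 401), (nat_lit 175), (nat_lit 9)]⟩⟩))) (.trZ (nat_lit 0) (nat_lit 1) (nat_lit 3) (nat_lit 100) (nat_lit 84) (nat_lit 85) (nat_lit 80) (.spl (nat_lit 0) (nat_lit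 330) (.leaf ⟨(nat_lit 273), (nat_lit 624), (nat_lit 0), (nat_lit 103), (nat_lit 17654), (nat_lit 4738), (nat_lit 5539), (nat_lit 1256), (nat_lit 0), (nat_lit 0), (nat_lit 1092000), [((nat_lit 330), [((nat_lit 37), (nat_lit 5), (nat_lit 273))])], ⟨(nat_lit 6), false, false, false, (nat_lit 163), (nat_lit 4183), (nat_lit 4473), [(nat_lit 1360749), (nat_lit 1366218), (nat_lit 1382312), (nat_lit 1387880), (nat_lit 1428729), (nat_lit 1432475), (nat_lit 1450291), (nat_lit 1454137)]⟩, ⟨(nat_lit 3), false, false, false, (nat_lit 75), (nat_lit 4183), (nat_lit 4473), [(nat_lit 1073842), (nat_lit 1082054), (nat_lit 1160104), (nat_lit 1168717), (nat_lit 1209798), (nat_lit 1214565), (nat_lit 1296062), (nat_lit 1301229)]⟩, (nat_lit 3097463), (nat_lit 54335437), (nat_lit 9703948), (nat_lit 2960615), (nat_lit 5), (nat_lit 0), [⟨(nat_lit 0), (nat_lit 100), (nat_lit 83), (nat_lit 92), (nat_lit 600363424)⟩], [⟨(nat_lit 0), (nat_lit 100), (nat_lit 80), (nat_lit 47),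 (nat_lit 206837501)⟩], [⟨(nat_lit 1), (nat_lit 54), (nat_lit 96), (nat_lit 100), (nat_lit 292031423)⟩], [],
 ⟨⟨[(nat_lit 40), (nat_lit 80), (nat_lit 120)], [(nat_lit 0), (nat_lit 0), (nat_lit 2151)], [((nat_lit 0), (nat_lit 0), (nat_lit 0)), ((nat_lit 0), (nat_lit 0), (nat_lit 0)), ((nat_lit 1000), (nat_lit 815), (nat_lit 753))], ((nat_lit 80), (nat_lit 100), (nat_lit 63))⟩, (nat_lit 0), (nat_lit 195), (nat_lit 195), (nat_lit 0), (nat_lit 75146), [(nat_lit 2200376358), (nat_lit 2503074384), (nat_lit 0)], [(nat_lit 0), (nat_lit 0), (nat_lit 107608661)], [(nat_lit 19226199137), (nat_lit 20181366625), (nat_lit 19532437573), (nat_lit 20261361887), (nat_lit 17378015041), (nat_lit 18097227798), (nat_lit 17706574365), (nat_lit 18445639841)], (nat_lit 1271251), (nat_lit 1271251), (nat_lit 490000), (nat_lit 780000), (nat_lit 0), (nat_lit 490000), [(nat_lit 490000), (nat_lit 1100000), (nat_lit 1785001)], [(nat_lit 4), (nat_lit 51), (nat_lit 260), (nat_lit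 50), (nat_lit 8)]⟩,
 ⟨⟨[(nat_lit 80), (nat_lit 120), (nat_lit 140)], [(nat_lit 0), (nat_lit 528), (nat_lit 1572)], [((nat_lit 0), (nat_lit 0), (nat_lit 0)), ((nat_lit 1000), (nat_lit 959), (nat_lit 206)), ((nat_lit 966), (nat_lit 1000), (nat_lit 679))], ((nat_lit 100), (nat_lit 98), (nat_lit 66))⟩, (nat_lit 2204549), (nat_lit 209), (nat_lit 209), (nat_lit 0), (nat_lit 144231), [(nat_lit 3408176000), (nat_lit 5792736000), (nat_lit 7155134000)], [], [(nat_lit 14344016003), (nat_lit 15245513585), (nat_lit 14275248653), (nat_lit 15123038557), (nat_lit 23605906003), (nat_lit 24153284102), (nat_lit 22999872480), (nat_lit 23572342833)], (nat_lit 1271251), (nat_lit 1271251), (nat_lit 490000), (nat_lit 780000), (nat_lit 1271251), (nat_lit 1271251), [(nat_lit 1100000), (nat_lit 1785001), (nat_lit 1271251)], [(nat_lit 17), (nat_lit 58), (nat_lit 428), (nat_lit 200), (nat_lit 12)]⟩,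
 ⟨⟨[(nat_lit 140), (nat_lit 180), (nat_lit 200)], [(nat_lit 0), (nat_lit 0), (nat_lit 2835)], [((nat_lit 0), (nat_lit 0), (nat_lit 0)), ((nat_lit 0), (nat_lit 0), (nat_lit 0)), ((nat_lit 363), (nat_lit 1000), (nat_lit 798))], ((nat_lit 0), (nat_lit 0), (nat_lit 0))⟩, (nat_lit 28339), (nat_lit 300), (nat_lit 851), (nat_lit 8044300), (nat_lit 816511), [(nat_lit 1013726000), (nat_lit 1447974000), (nat_lit 1689200000)], [], [(nat_lit 7274621344), (nat_lit 6907457350), (nat_lit 6533706096), (nat_lit 6180061734), (nat_lit 7117852208), (nat_lit 6766205514), (nat_lit 6300824220), (nat_lit 5931879874)], (nat_lit 780000), (nat_lit 1435001), (nat_lit 0), (nat_lit 490000), (nat_lit 1271251), (nat_lit 1271251), [(nat_lit 1977501), (nat_lit 1271251), (nat_lit 1271251)], [(nat_lit 32), (nat_lit 67), (nat_lit 401), (nat_lit 175), (nat_lit 9)]⟩⟩) (.trZ (nat_lit 0) (nat_lit 1) (nat_lit 3) (nat_lit 100) (nat_lit 80) (nat_lit 89) (nat_lit 90) (.leaf ⟨(nat_lit 0), (nat_lit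 772), (nat_lit 0), (nat_lit 228), (nat_lit 0), (nat_lit 5516), (nat_lit 7639), (nat_lit 2634), (nat_lit 0), (nat_lit 0), (nat_lit 0), [], Pd.none, Pd.none, (nat_lit 0), (nat_lit 1), (nat_lit 0), (nat_lit 0), (nat_lit 5), (nat_lit 0), [⟨(nat_lit 0), (nat_lit 100), (nat_lit 79), (nat_lit 95), (nat_lit 824457733)⟩], [⟨(nat_lit 0), (nat_lit 100), (nat_lit 75), (nat_lit 52), (nat_lit 410422030)⟩], [⟨(nat_lit 1), (nat_lit 54), (nat_lit 96), (nat_lit 100), (nat_lit 300924352)⟩], [],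
 ⟨⟨[(nat_lit 40), (nat_lit 80), (nat_lit 100)], [(nat_lit 0), (nat_lit 395), (nat_lit 1536)], [((nat_lit 0), (nat_lit 0), (nat_lit 0)), ((nat_lit 1000), (nat_lit 908), (nat_lit 154)), ((nat_lit 1000), (nat_lit 760), (nat_lit 642))], ((nat_lit 76), (nat_lit 100), (nat_lit 63))⟩, (nat_lit 2359719), (nat_lit 187), (nat_lit 187), (nat_lit 0), (nat_lit 104021), [(nat_lit 2143552910), (nat_lit 4688000027), (nat_lit 6250000000)], [], [(nat_lit 21887929414), (nat_lit 23037039279), (nat_lit 22046469333), (nat_lit 22965548610), (nat_lit 19152085405), (nat_lit 20048956881), (nat_lit 19350466669), (nat_lit 20233014926)], (nat_lit 1271251), (nat_lit 1271251), (nat_lit 559688), (nat_lit 780000), (nat_lit 0), (nat_lit 490000), [(nat_lit 490000), (nat_lit 1100000), (nat_lit 1442501)], [(nat_lit 3), (nat_lit 50), (nat_lit 260), (nat_lit 50), (nat_lit 10)]⟩,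
 ⟨⟨[(nat_lit 80), (nat_lit 120), (nat_lit 140)], [(nat_lit 0), (nat_lit 528), (nat_lit 1572)], [((nat_lit 0), (nat_lit 0), (nat_lit 0)), ((nat_lit 1000), (nat_lit 959), (nat_lit 206)), ((nat_lit 966), (nat_lit 1000), (nat_lit 679))], ((nat_lit 100), (nat_lit 98), (nat_lit 66))⟩, (nat_lit 3033140), (nat_lit 226), (nat_lit 226), (nat_lit 0), (nat_lit 205002), [(nat_lit 4688000000), (nat_lit 7968000000), (nat_lit 9842000000)], [], [(nat_lit 19669921149), (nat_lit 20893199851), (nat_lit 19597148629), (nat_lit 20764903127), (nat_lit 32262845188), (nat_lit 33025196308), (nat_lit 31634536618), (nat_lit 32422701228)], (nat_lit 1271251), (nat_lit 1271251), (nat_lit 559688), (nat_lit 780000), (nat_lit 1271251), (nat_lit 1271251), [(nat_lit 1100000), (nat_lit 1785001), (nat_lit 1271251)], [(nat_lit 17), (nat_lit 58), (nat_lit 428), (nat_lit 200), (nat_lit 12)]⟩,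
 ⟨⟨[(nat_lit 140), (nat_lit 180), (nat_lit 200)], [(nat_lit 0), (nat_lit 0), (nat_lit 2835)], [((nat_lit 0), (nat_lit 0), (nat_lit 0)), ((nat_lit 0), (nat_lit 0), (nat_lit 0)), ((nat_lit 363), (nat_lit 1000), (nat_lit 798))], ((nat_lit 0), (nat_lit 0), (nat_lit 0))⟩, (nat_lit 62730), (nat_lit 300), (nat_lit 1014), (nat_lit 17806803), (nat_lit 1178401), [(nat_lit 2243976000), (nat_lit 3205224000), (nat_lit 3739200000)], [], [(nat_lit 16509148956), (nat_lit 15751931598), (nat_lit 15084975360), (nat_lit 14320344018), (nat_lit 15964247400), (nat_lit 15166809876), (nat_lit 14261224080), (nat_lit 13500071292)], (nat_lit 780000), (nat_lit 1435001), (nat_lit 0), (nat_lit 490000), (nat_lit 1271251), (nat_lit 1271251), [(nat_lit 1977501), (nat_lit 1271251), (nat_lit 1271251)], [(nat_lit 32), (nat_lit 67), (nat_lit 401), (nat_lit 175), (nat_lit 9)]⟩⟩))))))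
noncomputable def c11_2 : Tr Lf :=
 (.spl (nat_lit 6) (nat_lit 24) (.leaf ⟨(nat_lit 994), (nat_lit 0), (nat_lit 0), (nat_lit 6), (nat_lit 0), (nat_lit 4286), (nat_lit 78), (nat_lit 90), (nat_lit 0), (nat_lit 0), (nat_lit 596400), [((nat_lit 340), [((nat_lit 37), (nat_lit 2), (nat_lit 994))])], ⟨(nat_lit 6), false, false, false, (nat_lit 153), (nat_lit 3872), (nat_lit 4473), [(nat_lit 1305146), (nat_lit 1317698), (nat_lit 1348244), (nat_lit 1361249), (nat_lit 1407125), (nat_lit 1414492), (nat_lit 1450223), (nat_lit 1458043)]⟩, ⟨(nat_lit 3), false, false, false, (nat_lit 116), (nat_lit 3872), (nat_lit 4473), [(nat_lit 1209798), (nat_lit 1219261), (nat_lit 1296041), (nat_lit 1306411), (nat_lit 1277776), (nat_lit 1283782), (nat_lit 1364028), (nat_lit 1370941)]⟩, (nat_lit 3564052), (nat_lit 52468790), (nat_lit 8782806), (nat_lit 5748404), (nat_lit 0), (nat_lit 0), [⟨(nat_lit 0), (nat_lit 100), (nat_lit 80), (nat_lit 89), (nat_lit 182354655)⟩], [], [⟨(nat_lit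 0), (nat_lit 100), (nat_lit 92), (nat_lit 40), (nat_lit 552527)⟩], [],
 ⟨⟨[(nat_lit 40), (nat_lit 80), (nat_lit 100)], [(nat_lit 0), (nat_lit 0), (nat_lit 1280)], [((nat_lit 0), (nat_lit 0), (nat_lit 0)), ((nat_lit 0), (nat_lit 0), (nat_lit 0)), ((nat_lit 1000), (nat_lit 800), (nat_lit 600))], ((nat_lit 81), (nat_lit 100), (nat_lit 48))⟩, (nat_lit 684272), (nat_lit 176), (nat_lit 176), (nat_lit 0), (nat_lit 210483), [(nat_lit 1599329481), (nat_lit 1593171783), (nat_lit 1179407200)], [(nat_lit 0), (nat_lit 0), (nat_lit 0)], [(nat_lit 15513140352), (nat_lit 17915485852), (nat_lit 15286032076), (nat_lit 17318037582), (nat_lit 15886572266), (nat_lit 18164846049), (nat_lit 15717246786), (nat_lit 17626814480)], (nat_lit 1271251), (nat_lit 1271251), (nat_lit 356250), (nat_lit 780000), (nat_lit 490000), (nat_lit 780000), [(nat_lit 490000), (nat_lit 1100000), (nat_lit 1442501)], [(nat_lit 3), (nat_lit 50), (nat_lit 272), (nat_lit 60), (nat_lit 10)]⟩,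
 ⟨⟨[(nat_lit 80), (nat_lit 120), (nat_lit 140)], [(nat_lit 0), (nat_lit 0), (nat_lit 1164)], [((nat_lit 0), (nat_lit 0), (nat_lit 0)), ((nat_lit 0), (nat_lit 0), (nat_lit 0)), ((nat_lit 941), (nat_lit 1000), (nat_lit 576))], ((nat_lit 100), (nat_lit 98), (nat_lit 48))⟩, (nat_lit 22891), (nat_lit 456), (nat_lit 456), (nat_lit 0), (nat_lit 423004), [(nat_lit 28128000), (nat_lit 47808000), (nat_lit 59052000)], [], [(nat_lit 357010998), (nat_lit 274508877), (nat_lit 232937880), (nat_lit 156722868), (nat_lit 317401374), (nat_lit 269737215), (nat_lit 357563076), (nat_lit 290806152)], (nat_lit 1271251), (nat_lit 1271251), (nat_lit 356250), (nat_lit 780000), (nat_lit 0), (nat_lit 2825001), [(nat_lit 1100000), (nat_lit 1785001), (nat_lit 1271251)], [(nat_lit 17), (nat_lit 58), (nat_lit 428), (nat_lit 200), (nat_lit 13)]⟩,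
 ⟨⟨[(nat_lit 140), (nat_lit 160), (nat_lit 180)], [(nat_lit 0), (nat_lit 0), (nat_lit 799)], [((nat_lit 0), (nat_lit 0), (nat_lit 0)), ((nat_lit 0), (nat_lit 0), (nat_lit 0)), ((nat_lit 728), (nat_lit 1000), (nat_lit 454))], ((nat_lit 100), (nat_lit 67), (nat_lit 52))⟩, (nat_lit 5272), (nat_lit 300), (nat_lit 1573), (nat_lit 445200), (nat_lit 2436825), [(nat_lit 59052000), (nat_lit 71232000), (nat_lit 84348000)], [], [(nat_lit 412615206), (nat_lit 358281324), (nat_lit 378548955), (nat_lit 329995218), (nat_lit 387513072), (nat_lit 477576876), (nat_lit 417890352), (nat_lit 509976996)], (nat_lit 780000), (nat_lit 1435001), (nat_lit 490000), (nat_lit 780000), (nat_lit 0), (nat_lit 2825001), [(nat_lit 1977501), (nat_lit 1271251), (nat_lit 1271251)], [(nat_lit 31), (nat_lit 65), (nat_lit 484), (nat_lit 200), (nat_lit 12)]⟩⟩) (.spl (nat_lit 0) (nat_lit 330) (.leaf ⟨(nat_lit 1000), (nat_lit 0), (nat_lit 0), (nat_lit 0), (nat_lit 8971), (nat_lit 4345), (nat_lit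 0), (nat_lit 0), (nat_lit 0), (nat_lit 0), (nat_lit 871000), [((nat_lit 330), [((nat_lit 19), (nat_lit 1), (nat_lit 139)), ((nat_lit 37), (nat_lit 2), (nat_lit 114)), ((nat_lit 19), (nat_lit 2), (nat_lit 747))])], ⟨(nat_lit 6), false, false, false, (nat_lit 152), (nat_lit 4183), (nat_lit 4473), [(nat_lit 1305197), (nat_lit 1311427), (nat_lit 1348323), (nat_lit 1354753), (nat_lit 1407167), (nat_lit 1410812), (nat_lit 1450291), (nat_lit 1454137)]⟩, ⟨(nat_lit 3), false, false, false, (nat_lit 116), (nat_lit 4183), (nat_lit 4473), [(nat_lit 1209798), (nat_lit 1214565), (nat_lit 1296062), (nat_lit 1301229), (nat_lit 1277776), (nat_lit 1280820), (nat_lit 1364041), (nat_lit 1367486)]⟩, (nat_lit 3540383), (nat_lit 52616265), (nat_lit 8695388), (nat_lit 5688347), (nat_lit 0), (nat_lit 0), [⟨(nat_lit 0), (nat_lit 100), (nat_lit 83), (nat_lit 98), (nat_lit 152603116)⟩], [], [], [],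
 ⟨⟨[(nat_lit 40), (nat_lit 80), (nat_lit 120)], [(nat_lit 0), (nat_lit 0), (nat_lit 2151)], [((nat_lit 0), (nat_lit 0), (nat_lit 0)), ((nat_lit 0), (nat_lit 0), (nat_lit 0)), ((nat_lit 1000), (nat_lit 815), (nat_lit 753))], ((nat_lit 80), (nat_lit 100), (nat_lit 63))⟩, (nat_lit 0), (nat_lit 165), (nat_lit 165), (nat_lit 0), (nat_lit 75146), [(nat_lit 1597888128), (nat_lit 1604340236), (nat_lit 0)], [(nat_lit 0), (nat_lit 0), (nat_lit 1254558745)], [(nat_lit 15733329015), (nat_lit 16772924853), (nat_lit 15469006385), (nat_lit 16291374367), (nat_lit 16069027208), (nat_lit 17074857338), (nat_lit 15805071835), (nat_lit 16586190001)], (nat_lit 1271251), (nat_lit 1271251), (nat_lit 356250), (nat_lit 780000), (nat_lit 490000), (nat_lit 780000), [(nat_lit 490000), (nat_lit 1100000), (nat_lit 1785001)], [(nat_lit 4), (nat_lit 51), (nat_lit 272), (nat_lit 60), (nat_lit 9)]⟩,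
 Rw.none,
 Rw.none⟩) (.trZ (nat_lit 0) (nat_lit 1) (nat_lit 3) (nat_lit 100) (nat_lit 78) (nat_lit 81) (nat_lit 70) (.leaf ⟨(nat_lit 1000), (nat_lit 0), (nat_lit 0), (nat_lit 0), (nat_lit 851), (nat_lit 6009), (nat_lit 0), (nat_lit 0), (nat_lit 0), (nat_lit 0), (nat_lit 250000), [((nat_lit 340), [((nat_lit 19), (nat_lit 0), (nat_lit 1000))])], ⟨(nat_lit 6), false, false, false, (nat_lit 157), (nat_lit 3872), (nat_lit 4184), [(nat_lit 1327983), (nat_lit 1333871), (nat_lit 1371306), (nat_lit 1377448), (nat_lit 1410806), (nat_lit 1414527), (nat_lit 1454130), (nat_lit 1458104)]⟩, ⟨(nat_lit 3), false, false, false, (nat_lit 117), (nat_lit 3872), (nat_lit 4184), [(nat_lit 1214565), (nat_lit 1219261), (nat_lit 1301224), (nat_lit 1306426), (nat_lit 1280820), (nat_lit 1283782), (nat_lit 1367482), (nat_lit 1370950)]⟩, (nat_lit 3627988), (nat_lit 52033264), (nat_lit 9161397), (nat_lit 5805339), (nat_lit 0), (nat_lit 0), [⟨(nat_lit 0), (nat_lit 99), (nat_lit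 77), (nat_lit 100), (nat_lit 194614653)⟩], [], [], [],
 ⟨⟨[(nat_lit 40), (nat_lit 80), (nat_lit 100)], [(nat_lit 0), (nat_lit 395), (nat_lit 1536)], [((nat_lit 0), (nat_lit 0), (nat_lit 0)), ((nat_lit 1000), (nat_lit 908), (nat_lit 154)), ((nat_lit 1000), (nat_lit 760), (nat_lit 642))], ((nat_lit 76), (nat_lit 100), (nat_lit 63))⟩, (nat_lit 0), (nat_lit 157), (nat_lit 157), (nat_lit 0), (nat_lit 103995), [(nat_lit 2132395715), (nat_lit 2626385203), (nat_lit 2546000000)], [(nat_lit 0), (nat_lit 0), (nat_lit 0)], [(nat_lit 17779209729), (nat_lit 19233647423), (nat_lit 17478905048), (nat_lit 18565553333), (nat_lit 17956330647), (nat_lit 19221839970), (nat_lit 17649903755), (nat_lit 18677818010)], (nat_lit 1271251), (nat_lit 1271251), (nat_lit 422188), (nat_lit 780000), (nat_lit 490000), (nat_lit 780000), [(nat_lit 490000), (nat_lit 1100000), (nat_lit 1442501)], [(nat_lit 3), (nat_lit 50), (nat_lit 272), (nat_lit 60), (nat_lit 10)]⟩,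
 Rw.none,
 Rw.none⟩))))
noncomputable def c11_3 : Tr Lf :=
 (.spl (nat_lit 1) (nat_lit 260) (.ord (.spl (nat_lit 6) (nat_lit 24) (.spl (nat_lit 4) (nat_lit 80) (.spl (nat_lit 0) (nat_lit 330) (.leaf ⟨(nat_lit 814), (nat_lit 169), (nat_lit 0), (nat_lit 17), (nat_lit 1845), (nat_lit 4289), (nat_lit 3286), (nat_lit 393), (nat_lit 0), (nat_lit 188508561820), (nat_lit 916000), [((nat_lit 330), [((nat_lit 18), (nat_lit 2), (nat_lit 780)), ((nat_lit 37), (nat_lit 5), (nat_lit 34))])], ⟨(nat_lit 6), false, false, false, (nat_lit 148), (nat_lit 4183), (nat_lit 4473), [(nat_lit 1305197), (nat_lit 1311427), (nat_lit 1326760), (nat_lit 1333090), (nat_lit 1407167), (nat_lit 1410812), (nat_lit 1428729), (nat_lit 1432475)]⟩, ⟨(nat_lit 5), false, false, false, (nat_lit 119), (nat_lit 4183), (nat_lit 4473), [(nat_lit 1228083), (nat_lit 1234973), (nat_lit 1292771), (nat_lit 1299961), (nat_lit 1296062), (nat_lit 1301229), (nat_lit 1360749), (nat_lit 1366218)]⟩, (nat_lit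 3532567), (nat_lit 52735023), (nat_lit 8315376), (nat_lit 5949601), (nat_lit 5), (nat_lit 0), [⟨(nat_lit 0), (nat_lit 100), (nat_lit 82), (nat_lit 76), (nat_lit 127572221)⟩], [⟨(nat_lit 0), (nat_lit 100), (nat_lit 79), (nat_lit 74), (nat_lit 405449325)⟩], [], [],
 ⟨⟨[(nat_lit 40), (nat_lit 80), (nat_lit 100)], [(nat_lit 0), (nat_lit 0), (nat_lit 1280)], [((nat_lit 0), (nat_lit 0), (nat_lit 0)), ((nat_lit 0), (nat_lit 0), (nat_lit 0)), ((nat_lit 1000), (nat_lit 800), (nat_lit 600))], ((nat_lit 81), (nat_lit 100), (nat_lit 48))⟩, (nat_lit 4061), (nat_lit 191), (nat_lit 191), (nat_lit 0), (nat_lit 145067), [(nat_lit 1661398809), (nat_lit 1693780482), (nat_lit 398291200)], [(nat_lit 0), (nat_lit 0), (nat_lit 0)], [(nat_lit 17384300735), (nat_lit 18615889661), (nat_lit 16705908286), (nat_lit 17860678423), (nat_lit 15515604048), (nat_lit 16717293361), (nat_lit 15373608034), (nat_lit 16268306029)], (nat_lit 1271251), (nat_lit 1271251), (nat_lit 356250),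 (nat_lit 780000), (nat_lit 230000), (nat_lit 490000), [(nat_lit 490000), (nat_lit 1100000), (nat_lit 1442501)], [(nat_lit 3), (nat_lit 50), (nat_lit 260), (nat_lit 50), (nat_lit 10)]⟩,
 ⟨⟨[(nat_lit 80), (nat_lit 120), (nat_lit 140)], [(nat_lit 0), (nat_lit 0), (nat_lit 1164)], [((nat_lit 0), (nat_lit 0), (nat_lit 0)), ((nat_lit 0), (nat_lit 0), (nat_lit 0)), ((nat_lit 941), (nat_lit 1000), (nat_lit 576))], ((nat_lit 100), (nat_lit 98), (nat_lit 48))⟩, (nat_lit 0), (nat_lit 327), (nat_lit 327), (nat_lit 0), (nat_lit 196039), [(nat_lit 871968000), (nat_lit 1482048000), (nat_lit 1830612000)], [], [(nat_lit 6518561332), (nat_lit 6282575243), (nat_lit 6545982692), (nat_lit 5270194370), (nat_lit 6815582159), (nat_lit 5287342013), (nat_lit 8105537264), (nat_lit 6607279814)], (nat_lit 1271251), (nat_lit 1271251), (nat_lit 356250), (nat_lit 780000), (nat_lit 0), (nat_lit 780000), [(nat_lit 1100000), (nat_lit 1785001), (nat_lit 1271251)], [(nat_lit 17), (nat_lit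 58), (nat_lit 345), (nat_lit 125), (nat_lit 10)]⟩,
 ⟨⟨[(nat_lit 100), (nat_lit 140), (nat_lit 160)], [(nat_lit 0), (nat_lit 0), (nat_lit 1280)], [((nat_lit 0), (nat_lit 0), (nat_lit 0)), ((nat_lit 0), (nat_lit 0), (nat_lit 0)), ((nat_lit 800), (nat_lit 1000), (nat_lit 600))], ((nat_lit 100), (nat_lit 88), (nat_lit 47))⟩, (nat_lit 8288), (nat_lit 300), (nat_lit 443), (nat_lit 1195100), (nat_lit 208692), [(nat_lit 106250000), (nat_lit 167314000), (nat_lit 201824000)], [], [(nat_lit 842001231), (nat_lit 914079734), (nat_lit 684958916), (nat_lit 726495293), (nat_lit 565985591), (nat_lit 528762648), (nat_lit 608827023), (nat_lit 390050591)], (nat_lit 1271251), (nat_lit 1271251), (nat_lit 230000), (nat_lit 490000), (nat_lit 0), (nat_lit 780000), [(nat_lit 1412501), (nat_lit 1271251), (nat_lit 1271251)], [(nat_lit 23), (nat_lit 62), (nat_lit 345), (nat_lit 125), (nat_lit 9)]⟩⟩) (.trZ (nat_lit 0) (nat_lit 1) (nat_lit 3) (nat_lit 100) (nat_lit 78) (nat_lit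 81) (nat_lit 70) (.leaf ⟨(nat_lit 794), (nat_lit 167), (nat_lit 0), (nat_lit 39), (nat_lit 0), (nat_lit 4414), (nat_lit 3290), (nat_lit 861), (nat_lit 0), (nat_lit 5922), (nat_lit 221150), [((nat_lit 340), [((nat_lit 18), (nat_lit 0), (nat_lit 643)), ((nat_lit 18), (nat_lit 1), (nat_lit 151))])], ⟨(nat_lit 6), false, false, false, (nat_lit 153), (nat_lit 3872), (nat_lit 4184), [(nat_lit 1327983), (nat_lit 1333871), (nat_lit 1349645), (nat_lit 1355660), (nat_lit 1410806), (nat_lit 1414527), (nat_lit 1432468), (nat_lit 1436316)]⟩, ⟨(nat_lit 5), false, false, false, (nat_lit 121), (nat_lit 3872), (nat_lit 4184), [(nat_lit 1234965), (nat_lit 1241901), (nat_lit 1299951), (nat_lit 1307267), (nat_lit 1301224), (nat_lit 1306426), (nat_lit 1366209), (nat_lit 1371791)]⟩, (nat_lit 3632186), (nat_lit 52094794), (nat_lit 8771286), (nat_lit 6133920), (nat_lit 5), (nat_lit 0), [⟨(nat_lit 0), (nat_lit 100), (nat_lit 78), (nat_lit 81), (nat_lit 86232754)⟩], [⟨(nat_lit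 0), (nat_lit 100), (nat_lit 75), (nat_lit 79), (nat_lit 374143418)⟩, ⟨(nat_lit 0), (nat_lit 100), (nat_lit 76), (nat_lit 65), (nat_lit 51088570)⟩], [], [],
 ⟨⟨[(nat_lit 40), (nat_lit 60), (nat_lit 80)], [(nat_lit 0), (nat_lit 197), (nat_lit 800)], [((nat_lit 0), (nat_lit 0), (nat_lit 0)), ((nat_lit 1000), (nat_lit 908), (nat_lit 154)), ((nat_lit 1000), (nat_lit 781), (nat_lit 471))], ((nat_lit 78), (nat_lit 100), (nat_lit 49))⟩, (nat_lit 843040), (nat_lit 182), (nat_lit 182), (nat_lit 0), (nat_lit 161313), [(nat_lit 1545634404), (nat_lit 2066247964), (nat_lit 2646705236)], [(nat_lit 0), (nat_lit 0), (nat_lit 0)], [(nat_lit 18285194843), (nat_lit 19531612962), (nat_lit 17998294360), (nat_lit 19173533684), (nat_lit 16383644869), (nat_lit 17598896833), (nat_lit 16636052159), (nat_lit 17495408537)], (nat_lit 1271251), (nat_lit 1271251), (nat_lit 422188), (nat_lit 780000), (nat_lit 230000), (nat_lit 490000), [(nat_lit 490000), (nat_lit 780000), (nat_lit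 1100000)], [(nat_lit 2), (nat_lit 44), (nat_lit 260), (nat_lit 50), (nat_lit 12)]⟩,
 ⟨⟨[(nat_lit 80), (nat_lit 120), (nat_lit 140)], [(nat_lit 0), (nat_lit 0), (nat_lit 1164)], [((nat_lit 0), (nat_lit 0), (nat_lit 0)), ((nat_lit 0), (nat_lit 0), (nat_lit 0)), ((nat_lit 941), (nat_lit 1000), (nat_lit 576))], ((nat_lit 100), (nat_lit 98), (nat_lit 48))⟩, (nat_lit 0), (nat_lit 329), (nat_lit 329), (nat_lit 0), (nat_lit 226129), [(nat_lit 965728000), (nat_lit 1641408000), (nat_lit 2027452000)], [], [(nat_lit 6430768674), (nat_lit 6421704117), (nat_lit 7455410012), (nat_lit 5894178347), (nat_lit 7894976177), (nat_lit 6370064261), (nat_lit 9078556592), (nat_lit 7578475335)], (nat_lit 1271251), (nat_lit 1271251), (nat_lit 422188), (nat_lit 780000), (nat_lit 0), (nat_lit 780000), [(nat_lit 1100000), (nat_lit 1785001), (nat_lit 1271251)], [(nat_lit 17), (nat_lit 58), (nat_lit 345), (nat_lit 125), (nat_lit 10)]⟩,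
 ⟨⟨[(nat_lit 100), (nat_lit 140), (nat_lit 160)], [(nat_lit 0), (nat_lit 0), (nat_lit 1280)], [((nat_lit 0), (nat_lit 0), (nat_lit 0)), ((nat_lit 0), (nat_lit 0), (nat_lit 0)), ((nat_lit 800), (nat_lit 1000), (nat_lit 600))], ((nat_lit 100), (nat_lit 88), (nat_lit 47))⟩, (nat_lit 19012), (nat_lit 300), (nat_lit 495), (nat_lit 2741704), (nat_lit 257302), [(nat_lit 243750000), (nat_lit 383838000), (nat_lit 463008000)], [], [(nat_lit 1924186337), (nat_lit 2051944393), (nat_lit 1581149072), (nat_lit 1674801281), (nat_lit 1315313187), (nat_lit 1243948761), (nat_lit 1410997851), (nat_lit 941045492)], (nat_lit 1271251), (nat_lit 1271251), (nat_lit 230000), (nat_lit 490000), (nat_lit 0), (nat_lit 780000), [(nat_lit 1412501), (nat_lit 1271251), (nat_lit 1271251)], [(nat_lit 23), (nat_lit 62), (nat_lit 345), (nat_lit 125), (nat_lit 9)]⟩⟩))) (.leaf ⟨(nat_lit 775), (nat_lit 194), (nat_lit 0), (nat_lit 31), (nat_lit 1061), (nat_lit 4162), (nat_lit 3012), (nat_lit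 721), (nat_lit 0), (nat_lit 7514610584507), (nat_lit 916000), [((nat_lit 340), [((nat_lit 18), (nat_lit 2), (nat_lit 728)), ((nat_lit 37), (nat_lit 5), (nat_lit 47))])], ⟨(nat_lit 6), false, false, false, (nat_lit 149), (nat_lit 3872), (nat_lit 4473), [(nat_lit 1305146), (nat_lit 1317698), (nat_lit 1326695), (nat_lit 1339474), (nat_lit 1407125), (nat_lit 1414492), (nat_lit 1428674), (nat_lit 1436268)]⟩, ⟨(nat_lit 5), false, false, false, (nat_lit 147), (nat_lit 3872), (nat_lit 4473), [(nat_lit 1296041), (nat_lit 1306411), (nat_lit 1360688), (nat_lit 1371739), (nat_lit 1364028), (nat_lit 1370941), (nat_lit 1428674), (nat_lit 1436268)]⟩, (nat_lit 3901112), (nat_lit 50492441), (nat_lit 8342315), (nat_lit 8165244), (nat_lit 5), (nat_lit 0), [⟨(nat_lit 0), (nat_lit 100), (nat_lit 78), (nat_lit 85), (nat_lit 163630730)⟩], [], [], [],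
 ⟨⟨[(nat_lit 40), (nat_lit 80), (nat_lit 100)], [(nat_lit 0), (nat_lit 0), (nat_lit 1280)], [((nat_lit 0), (nat_lit 0), (nat_lit 0)), ((nat_lit 0), (nat_lit 0), (nat_lit 0)), ((nat_lit 1000), (nat_lit 800), (nat_lit 600))], ((nat_lit 81), (nat_lit 100), (nat_lit 48))⟩, (nat_lit 1356), (nat_lit 172), (nat_lit 172), (nat_lit 0), (nat_lit 162419), [(nat_lit 1697804516), (nat_lit 1767250919), (nat_lit 505068000)], [(nat_lit 0), (nat_lit 0), (nat_lit 0)], [(nat_lit 15666851082), (nat_lit 17770950584), (nat_lit 15567587732), (nat_lit 17348078089), (nat_lit 16115453503), (nat_lit 18041545533), (nat_lit 16013406893), (nat_lit 17761312823)], (nat_lit 1271251), (nat_lit 1271251), (nat_lit 356250), (nat_lit 780000), (nat_lit 490000), (nat_lit 780000), [(nat_lit 490000), (nat_lit 1100000), (nat_lit 1442501)], [(nat_lit 3), (nat_lit 50), (nat_lit 272), (nat_lit 60), (nat_lit 10)]⟩,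
 ⟨⟨[(nat_lit 80), (nat_lit 120), (nat_lit 140)], [(nat_lit 0), (nat_lit 0), (nat_lit 1164)], [((nat_lit 0), (nat_lit 0), (nat_lit 0)), ((nat_lit 0), (nat_lit 0), (nat_lit 0)), ((nat_lit 941), (nat_lit 1000), (nat_lit 576))], ((nat_lit 100), (nat_lit 98), (nat_lit 48))⟩, (nat_lit 0), (nat_lit 340), (nat_lit 340), (nat_lit 0), (nat_lit 226203), [(nat_lit 1054800000), (nat_lit 1792800000), (nat_lit 2214450000)], [], [(nat_lit 7933870464), (nat_lit 7148819590), (nat_lit 8485185540), (nat_lit 7055875578), (nat_lit 8809980654), (nat_lit 7409171366), (nat_lit 10084767564), (nat_lit 8711440893)], (nat_lit 1271251), (nat_lit 1271251), (nat_lit 356250), (nat_lit 780000), (nat_lit 0), (nat_lit 780000), [(nat_lit 1100000), (nat_lit 1785001), (nat_lit 1271251)], [(nat_lit 17), (nat_lit 58), (nat_lit 345), (nat_lit 125), (nat_lit 10)]⟩,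
 ⟨⟨[(nat_lit 100), (nat_lit 140), (nat_lit 160)], [(nat_lit 0), (nat_lit 0), (nat_lit 1280)], [((nat_lit 0), (nat_lit 0), (nat_lit 0)), ((nat_lit 0), (nat_lit 0), (nat_lit 0)), ((nat_lit 800), (nat_lit 1000), (nat_lit 600))], ((nat_lit 100), (nat_lit 88), (nat_lit 47))⟩, (nat_lit 15113), (nat_lit 300), (nat_lit 420), (nat_lit 2179300), (nat_lit 258014), [(nat_lit 193750000), (nat_lit 305102000), (nat_lit 368032000)], [], [(nat_lit 1247994776), (nat_lit 1327398487), (nat_lit 1148892343), (nat_lit 1239771425), (nat_lit 1108682823), (nat_lit 706311554), (nat_lit 1296586003), (nat_lit 606685753)], (nat_lit 1271251), (nat_lit 1271251), (nat_lit 490000), (nat_lit 780000), (nat_lit 0), (nat_lit 780000), [(nat_lit 1412501), (nat_lit 1271251), (nat_lit 1271251)], [(nat_lit 23), (nat_lit 62), (nat_lit 345), (nat_lit 125), (nat_lit 9)]⟩⟩)) (.spl (nat_lit 1) (nat_lit 250) (.ord (.spl (nat_lit 6) (nat_lit 36) (.leaf ⟨(nat_lit 0), (nat_lit 992), (nat_lit 0), (nat_lit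 8), (nat_lit 14294), (nat_lit 5745), (nat_lit 7541), (nat_lit 188), (nat_lit 0), (nat_lit 19633423539201), (nat_lit 0), [], Pd.none, Pd.none, (nat_lit 0), (nat_lit 1), (nat_lit 0), (nat_lit 0), (nat_lit 5), (nat_lit 0), [⟨(nat_lit 0), (nat_lit 100), (nat_lit 78), (nat_lit 83), (nat_lit 1004385037)⟩], [], [], [],
 ⟨⟨[(nat_lit 40), (nat_lit 80), (nat_lit 100)], [(nat_lit 0), (nat_lit 0), (nat_lit 1280)], [((nat_lit 0), (nat_lit 0), (nat_lit 0)), ((nat_lit 0), (nat_lit 0), (nat_lit 0)), ((nat_lit 1000), (nat_lit 800), (nat_lit 600))], ((nat_lit 80), (nat_lit 100), (nat_lit 57))⟩, (nat_lit 2159301), (nat_lit 182), (nat_lit 182), (nat_lit 0), (nat_lit 38089), [(nat_lit 2396496888), (nat_lit 4688000089), (nat_lit 6250000000)], [], [(nat_lit 20059653810), (nat_lit 22404102292), (nat_lit 19270304385), (nat_lit 21448065392), (nat_lit 18388432738), (nat_lit 20532787185), (nat_lit 17767050915), (nat_lit 19764929968)], (nat_lit 1271251), (nat_lit 1271251), (nat_lit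 356250), (nat_lit 780000), (nat_lit 230000), (nat_lit 780000), [(nat_lit 490000), (nat_lit 1100000), (nat_lit 1442501)], [(nat_lit 3), (nat_lit 50), (nat_lit 272), (nat_lit 60), (nat_lit 10)]⟩,
 ⟨⟨[(nat_lit 80), (nat_lit 120), (nat_lit 140)], [(nat_lit 0), (nat_lit 0), (nat_lit 1164)], [((nat_lit 0), (nat_lit 0), (nat_lit 0)), ((nat_lit 0), (nat_lit 0), (nat_lit 0)), ((nat_lit 941), (nat_lit 1000), (nat_lit 576))], ((nat_lit 100), (nat_lit 94), (nat_lit 58))⟩, (nat_lit 1678235), (nat_lit 244), (nat_lit 244), (nat_lit 0), (nat_lit 56194), [(nat_lit 4688000000), (nat_lit 7968000000), (nat_lit 9842000000)], [], [(nat_lit 25129084837), (nat_lit 26104476120), (nat_lit 23812794222), (nat_lit 24576259299), (nat_lit 20852472828), (nat_lit 21580879118), (nat_lit 21137170085), (nat_lit 20676514295)], (nat_lit 1271251), (nat_lit 1271251), (nat_lit 356250), (nat_lit 780000), (nat_lit 0), (nat_lit 780000), [(nat_lit 1100000), (nat_lit 1785001), (nat_lit 1271251)],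 [(nat_lit 17), (nat_lit 58), (nat_lit 345), (nat_lit 125), (nat_lit 10)]⟩,
 ⟨⟨[(nat_lit 100), (nat_lit 140), (nat_lit 160)], [(nat_lit 0), (nat_lit 0), (nat_lit 1280)], [((nat_lit 0), (nat_lit 0), (nat_lit 0)), ((nat_lit 0), (nat_lit 0), (nat_lit 0)), ((nat_lit 800), (nat_lit 1000), (nat_lit 600))], ((nat_lit 100), (nat_lit 82), (nat_lit 57))⟩, (nat_lit 3900), (nat_lit 300), (nat_lit 371), (nat_lit 562400), (nat_lit 59364), [(nat_lit 50000000), (nat_lit 78736000), (nat_lit 94976000)], [], [(nat_lit 396798440), (nat_lit 418152229), (nat_lit 295689464), (nat_lit 306685737), (nat_lit 265074372), (nat_lit 240394667), (nat_lit 334329910), (nat_lit 148637938)], (nat_lit 1271251), (nat_lit 1271251), (nat_lit 230000), (nat_lit 780000), (nat_lit 0), (nat_lit 780000), [(nat_lit 1412501), (nat_lit 1271251), (nat_lit 1271251)], [(nat_lit 23), (nat_lit 62), (nat_lit 345), (nat_lit 125), (nat_lit 9)]⟩⟩) (.dle (nat_lit 0)))) (.trZ (nat_lit 0) (nat_lit 1) (nat_lit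 3) (nat_lit 100) (nat_lit 83) (nat_lit 81) (nat_lit 70) (.leaf ⟨(nat_lit 0), (nat_lit 1000), (nat_lit 0), (nat_lit 0), (nat_lit 22373), (nat_lit 6104), (nat_lit 11027), (nat_lit 0), (nat_lit 0), (nat_lit 17122554126448), (nat_lit 0), [], Pd.none, Pd.none, (nat_lit 0), (nat_lit 1), (nat_lit 0), (nat_lit 0), (nat_lit 5), (nat_lit 0), [⟨(nat_lit 0), (nat_lit 100), (nat_lit 79), (nat_lit 87), (nat_lit 970937367)⟩], [], [⟨(nat_lit 0), (nat_lit 100), (nat_lit 100), (nat_lit 60), (nat_lit 192965280)⟩], [],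
 ⟨⟨[(nat_lit 40), (nat_lit 80), (nat_lit 120)], [(nat_lit 0), (nat_lit 0), (nat_lit 2151)], [((nat_lit 0), (nat_lit 0), (nat_lit 0)), ((nat_lit 0), (nat_lit 0), (nat_lit 0)), ((nat_lit 1000), (nat_lit 815), (nat_lit 753))], ((nat_lit 80), (nat_lit 100), (nat_lit 63))⟩, (nat_lit 2895154), (nat_lit 179), (nat_lit 179), (nat_lit 0), (nat_lit 57108), [(nat_lit 2469261598), (nat_lit 4688000092), (nat_lit 7968000000)], [], [(nat_lit 19975028166), (nat_lit 22238063356), (nat_lit 19487694026), (nat_lit 21565825338), (nat_lit 18028378628), (nat_lit 20059802091), (nat_lit 17648297802), (nat_lit 19556938564)], (nat_lit 1271251), (nat_lit 1271251), (nat_lit 422188), (nat_lit 780000), (nat_lit 230000), (nat_lit 780000), [(nat_lit 490000), (nat_lit 1100000), (nat_lit 1785001)], [(nat_lit 4), (nat_lit 51), (nat_lit 272), (nat_lit 60), (nat_lit 9)]⟩,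
 ⟨⟨[(nat_lit 80), (nat_lit 120), (nat_lit 160)], [(nat_lit 0), (nat_lit 264), (nat_lit 2353)], [((nat_lit 0), (nat_lit 0), (nat_lit 0)), ((nat_lit 1000), (nat_lit 979), (nat_lit 103)), ((nat_lit 893), (nat_lit 1000), (nat_lit 726))], ((nat_lit 100), (nat_lit 94), (nat_lit 65))⟩, (nat_lit 7005426), (nat_lit 343), (nat_lit 343), (nat_lit 0), (nat_lit 79916), [(nat_lit 4688000000), (nat_lit 7968000000), (nat_lit 11872000000)], [], [(nat_lit 19705451204), (nat_lit 20775160257), (nat_lit 18047338871), (nat_lit 19384112133), (nat_lit 11462314211), (nat_lit 12731601430), (nat_lit 10797059815), (nat_lit 11716677247)], (nat_lit 1271251), (nat_lit 1271251), (nat_lit 422188), (nat_lit 780000), (nat_lit 0), (nat_lit 780000), [(nat_lit 1100000), (nat_lit 1785001), (nat_lit 1271251)], [(nat_lit 18), (nat_lit 59), (nat_lit 345), (nat_lit 125), (nat_lit 9)]⟩,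
 Rw.none⟩))))) (.trZ (nat_lit 0) (nat_lit 1) (nat_lit 3) (nat_lit 100) (nat_lit 84) (nat_lit 85) (nat_lit 80) (.leaf ⟨(nat_lit 0), (nat_lit 808), (nat_lit 0), (nat_lit 192), (nat_lit 13), (nat_lit 7235), (nat_lit 14013), (nat_lit 3488), (nat_lit 0), (nat_lit 840), (nat_lit 0), [], Pd.none, Pd.none, (nat_lit 0), (nat_lit 1), (nat_lit 0), (nat_lit 0), (nat_lit 5), (nat_lit 0), [⟨(nat_lit 0), (nat_lit 100), (nat_lit 81), (nat_lit 93), (nat_lit 120017747)⟩], [⟨(nat_lit 0), (nat_lit 100), (nat_lit 78), (nat_lit 81), (nat_lit 289758554)⟩], [], [],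
 ⟨⟨[(nat_lit 40), (nat_lit 80), (nat_lit 120)], [(nat_lit 0), (nat_lit 0), (nat_lit 2151)], [((nat_lit 0), (nat_lit 0), (nat_lit 0)), ((nat_lit 0), (nat_lit 0), (nat_lit 0)), ((nat_lit 1000), (nat_lit 815), (nat_lit 753))], ((nat_lit 80), (nat_lit 100), (nat_lit 63))⟩, (nat_lit 2879568), (nat_lit 243), (nat_lit 243), (nat_lit 0), (nat_lit 203509), [(nat_lit 2701320324), (nat_lit 4688000001), (nat_lit 7968000000)], [], [(nat_lit 19635197393), (nat_lit 23078179095), (nat_lit 19607812173), (nat_lit 22741198785), (nat_lit 17627760223), (nat_lit 19624049535), (nat_lit 17602132767), (nat_lit 19683036919)], (nat_lit 1271251), (nat_lit 1271251), (nat_lit 490000), (nat_lit 780000), (nat_lit 230000), (nat_lit 780000), [(nat_lit 490000), (nat_lit 1100000), (nat_lit 1785001)], [(nat_lit 4), (nat_lit 51), (nat_lit 272), (nat_lit 60), (nat_lit 9)]⟩,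
 ⟨⟨[(nat_lit 80), (nat_lit 120), (nat_lit 140)], [(nat_lit 0), (nat_lit 528), (nat_lit 1572)], [((nat_lit 0), (nat_lit 0), (nat_lit 0)), ((nat_lit 1000), (nat_lit 959), (nat_lit 206)), ((nat_lit 966), (nat_lit 1000), (nat_lit 679))], ((nat_lit 100), (nat_lit 98), (nat_lit 66))⟩, (nat_lit 4894632), (nat_lit 341), (nat_lit 341), (nat_lit 0), (nat_lit 260318), [(nat_lit 4688000000), (nat_lit 7968000000), (nat_lit 9842000000)], [], [(nat_lit 21500146317), (nat_lit 24210290856), (nat_lit 25524943018), (nat_lit 23226803124), (nat_lit 28528386030), (nat_lit 22055473044), (nat_lit 33081301172), (nat_lit 26692049299)], (nat_lit 1271251), (nat_lit 1271251), (nat_lit 490000), (nat_lit 780000), (nat_lit 0), (nat_lit 780000), [(nat_lit 1100000), (nat_lit 1785001), (nat_lit 1271251)], [(nat_lit 17), (nat_lit 58), (nat_lit 373), (nat_lit 150), (nat_lit 11)]⟩,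
 ⟨⟨[(nat_lit 100), (nat_lit 140), (nat_lit 180)], [(nat_lit 0), (nat_lit 0), (nat_lit 2434)], [((nat_lit 0), (nat_lit 0), (nat_lit 0)), ((nat_lit 0), (nat_lit 0), (nat_lit 0)), ((nat_lit 726), (nat_lit 1000), (nat_lit 688))], ((nat_lit 100), (nat_lit 78), (nat_lit 63))⟩, (nat_lit 110751), (nat_lit 300), (nat_lit 605), (nat_lit 13497601), (nat_lit 325201), [(nat_lit 1200000000), (nat_lit 1889664000), (nat_lit 2699136000)], [], [(nat_lit 12015213000), (nat_lit 12301230568), (nat_lit 10008369768), (nat_lit 10256507080), (nat_lit 8746060984), (nat_lit 8992064872), (nat_lit 8168315664), (nat_lit 7161210744)], (nat_lit 1271251), (nat_lit 1271251), (nat_lit 230000), (nat_lit 780000), (nat_lit 0), (nat_lit 780000), [(nat_lit 1412501), (nat_lit 1271251), (nat_lit 1271251)], [(nat_lit 24), (nat_lit 63), (nat_lit 373), (nat_lit 150), (nat_lit 9)]⟩⟩)))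
noncomputable def c11_4 : Tr Lf :=
 (.spl (nat_lit 6) (nat_lit 24) (.spl (nat_lit 1) (nat_lit 260) (.ord (.leaf ⟨(nat_lit 777), (nat_lit 64), (nat_lit 0), (nat_lit 159), (nat_lit 779), (nat_lit 4143), (nat_lit 1490), (nat_lit 2238), (nat_lit 0), (nat_lit 147309), (nat_lit 984000), [((nat_lit 340), [((nat_lit 18), (nat_lit 2), (nat_lit 708)), ((nat_lit 37), (nat_lit 5), (nat_lit 69))])], ⟨(nat_lit 6), false, false, false, (nat_lit 149), (nat_lit 3872), (nat_lit 4473), [(nat_lit 1305146), (nat_lit 1317698), (nat_lit 1326695), (nat_lit 1339474), (nat_lit 1407125), (nat_lit 1414492), (nat_lit 1428674), (nat_lit 1436268)]⟩, ⟨(nat_lit 5), false, false, false, (nat_lit 133), (nat_lit 3872), (nat_lit 4473), [(nat_lit 1228056), (nat_lit 1241882), (nat_lit 1292702), (nat_lit 1307209), (nat_lit 1364028), (nat_lit 1370941), (nat_lit 1428674), (nat_lit 1436268)]⟩, (nat_lit 3736736), (nat_lit 51540173), (nat_lit 8378245), (nat_lit 7081582), (nat_lit 5), (nat_lit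 0), [⟨(nat_lit 0), (nat_lit 100), (nat_lit 78), (nat_lit 85), (nat_lit 29417316)⟩, ⟨(nat_lit 0), (nat_lit 100), (nat_lit 82), (nat_lit 76), (nat_lit 335007510)⟩], [⟨(nat_lit 0), (nat_lit 100), (nat_lit 80), (nat_lit 60), (nat_lit 123768030)⟩], [], [],
 ⟨⟨[(nat_lit 40), (nat_lit 80), (nat_lit 100)], [(nat_lit 0), (nat_lit 0), (nat_lit 1280)], [((nat_lit 0), (nat_lit 0), (nat_lit 0)), ((nat_lit 0), (nat_lit 0), (nat_lit 0)), ((nat_lit 1000), (nat_lit 800), (nat_lit 600))], ((nat_lit 81), (nat_lit 100), (nat_lit 48))⟩, (nat_lit 0), (nat_lit 192), (nat_lit 192), (nat_lit 0), (nat_lit 162419), [(nat_lit 1998824016), (nat_lit 1392632855), (nat_lit 230629600)], [(nat_lit 0), (nat_lit 0), (nat_lit 0)], [(nat_lit 17179591945), (nat_lit 19591113847), (nat_lit 17261633228), (nat_lit 18830805133), (nat_lit 16928019474), (nat_lit 18416878680), (nat_lit 17100054703), (nat_lit 18490431029)], (nat_lit 1271251), (nat_lit 1271251), (nat_lit 356250), (nat_lit 780000),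 (nat_lit 230000), (nat_lit 780000), [(nat_lit 490000), (nat_lit 1100000), (nat_lit 1442501)], [(nat_lit 3), (nat_lit 50), (nat_lit 272), (nat_lit 60), (nat_lit 10)]⟩,
 ⟨⟨[(nat_lit 80), (nat_lit 120), (nat_lit 140)], [(nat_lit 0), (nat_lit 0), (nat_lit 1164)], [((nat_lit 0), (nat_lit 0), (nat_lit 0)), ((nat_lit 0), (nat_lit 0), (nat_lit 0)), ((nat_lit 941), (nat_lit 1000), (nat_lit 576))], ((nat_lit 100), (nat_lit 98), (nat_lit 48))⟩, (nat_lit 0), (nat_lit 377), (nat_lit 377), (nat_lit 0), (nat_lit 507622), [(nat_lit 1045424000), (nat_lit 1776864000), (nat_lit 2194766000)], [], [(nat_lit 8051795755), (nat_lit 7749079062), (nat_lit 7408225893), (nat_lit 7569687109), (nat_lit 10328274364), (nat_lit 9662129262), (nat_lit 11229046724), (nat_lit 10575434384)], (nat_lit 1271251), (nat_lit 1271251), (nat_lit 356250), (nat_lit 780000), (nat_lit 780000), (nat_lit 3072501), [(nat_lit 1100000), (nat_lit 1785001), (nat_lit 1271251)], [(nat_lit 17), (nat_lit 58),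 (nat_lit 428), (nat_lit 200), (nat_lit 12)]⟩,
 ⟨⟨[(nat_lit 100), (nat_lit 140), (nat_lit 160)], [(nat_lit 0), (nat_lit 0), (nat_lit 1280)], [((nat_lit 0), (nat_lit 0), (nat_lit 0)), ((nat_lit 0), (nat_lit 0), (nat_lit 0)), ((nat_lit 800), (nat_lit 1000), (nat_lit 600))], ((nat_lit 100), (nat_lit 88), (nat_lit 47))⟩, (nat_lit 77513), (nat_lit 300), (nat_lit 564), (nat_lit 11177700), (nat_lit 633651), [(nat_lit 993750000), (nat_lit 1564878000), (nat_lit 1887648000)], [], [(nat_lit 6265329245), (nat_lit 6292608714), (nat_lit 5290344866), (nat_lit 5297542175), (nat_lit 9011882190), (nat_lit 7756067093), (nat_lit 10093684992), (nat_lit 7019063523)], (nat_lit 1271251), (nat_lit 1271251), (nat_lit 230000), (nat_lit 780000), (nat_lit 780000), (nat_lit 3072501), [(nat_lit 1412501), (nat_lit 1271251), (nat_lit 1271251)], [(nat_lit 23), (nat_lit 62), (nat_lit 428), (nat_lit 200), (nat_lit 11)]⟩⟩)) (.trZ (nat_lit 0) (nat_lit 1) (nat_lit 3) (nat_lit 100) (nat_lit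 84) (nat_lit 85) (nat_lit 80) (.leaf ⟨(nat_lit 138), (nat_lit 462), (nat_lit 0), (nat_lit 400), (nat_lit 0), (nat_lit 5871), (nat_lit 5572), (nat_lit 4309), (nat_lit 0), (nat_lit 128308), (nat_lit 552000), [((nat_lit 340), [((nat_lit 37), (nat_lit 5), (nat_lit 138))])], ⟨(nat_lit 6), false, false, false, (nat_lit 164), (nat_lit 3872), (nat_lit 4473), [(nat_lit 1360688), (nat_lit 1371739), (nat_lit 1382237), (nat_lit 1393514), (nat_lit 1428674), (nat_lit 1436268), (nat_lit 1450223), (nat_lit 1458043)]⟩, ⟨(nat_lit 5), false, false, false, (nat_lit 138), (nat_lit 3872), (nat_lit 4473), [(nat_lit 1228056), (nat_lit 1241882), (nat_lit 1314251), (nat_lit 1328984), (nat_lit 1364028), (nat_lit 1370941), (nat_lit 1450223), (nat_lit 1458043)]⟩, (nat_lit 3969771), (nat_lit 49923882), (nat_lit 9689424), (nat_lit 7386694), (nat_lit 5), (nat_lit 0), [⟨(nat_lit 0), (nat_lit 100), (nat_lit 81), (nat_lit 93), (nat_lit 1024878537)⟩], [⟨(nat_lit 0), (nat_lit 100),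 (nat_lit 78), (nat_lit 81), (nat_lit 167672413)⟩], [], [],
 ⟨⟨[(nat_lit 40), (nat_lit 80), (nat_lit 100)], [(nat_lit 0), (nat_lit 0), (nat_lit 1280)], [((nat_lit 0), (nat_lit 0), (nat_lit 0)), ((nat_lit 0), (nat_lit 0), (nat_lit 0)), ((nat_lit 1000), (nat_lit 800), (nat_lit 600))], ((nat_lit 81), (nat_lit 100), (nat_lit 48))⟩, (nat_lit 1351718), (nat_lit 185), (nat_lit 185), (nat_lit 0), (nat_lit 198136), [(nat_lit 2408492974), (nat_lit 3362703288), (nat_lit 3749383512)], [(nat_lit 0), (nat_lit 0), (nat_lit 0)], [(nat_lit 18117226504), (nat_lit 21104502467), (nat_lit 18444487845), (nat_lit 21016173901), (nat_lit 17014485696), (nat_lit 18935857231), (nat_lit 17331993505), (nat_lit 19150210694)], (nat_lit 1271251), (nat_lit 1271251), (nat_lit 490000), (nat_lit 780000), (nat_lit 230000), (nat_lit 780000), [(nat_lit 490000), (nat_lit 1100000), (nat_lit 1442501)], [(nat_lit 3), (nat_lit 50), (nat_lit 272), (nat_lit 60), (nat_lit 10)]⟩,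
 ⟨⟨[(nat_lit 80), (nat_lit 100), (nat_lit 120)], [(nat_lit 0), (nat_lit 265), (nat_lit 768)], [((nat_lit 0), (nat_lit 0), (nat_lit 0)), ((nat_lit 1000), (nat_lit 959), (nat_lit 206)), ((nat_lit 1000), (nat_lit 958), (nat_lit 392))], ((nat_lit 97), (nat_lit 100), (nat_lit 48))⟩, (nat_lit 2610174), (nat_lit 336), (nat_lit 336), (nat_lit 0), (nat_lit 570960), [(nat_lit 4041056000), (nat_lit 5387500000), (nat_lit 6868416000)], [], [(nat_lit 25084475606), (nat_lit 23941481956), (nat_lit 23215441146), (nat_lit 23908078033), (nat_lit 30650087014), (nat_lit 29991486016), (nat_lit 33000060824), (nat_lit 30459950398)], (nat_lit 1271251), (nat_lit 1271251), (nat_lit 490000), (nat_lit 780000), (nat_lit 780000), (nat_lit 3072501), [(nat_lit 1100000), (nat_lit 1442501), (nat_lit 1271251)], [(nat_lit 16), (nat_lit 54), (nat_lit 373), (nat_lit 150), (nat_lit 12)]⟩,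
 ⟨⟨[(nat_lit 100), (nat_lit 140), (nat_lit 160)], [(nat_lit 0), (nat_lit 0), (nat_lit 1280)], [((nat_lit 0), (nat_lit 0), (nat_lit 0)), ((nat_lit 0), (nat_lit 0), (nat_lit 0)), ((nat_lit 800), (nat_lit 1000), (nat_lit 600))], ((nat_lit 100), (nat_lit 88), (nat_lit 47))⟩, (nat_lit 195000), (nat_lit 300), (nat_lit 659), (nat_lit 28120000), (nat_lit 799549), [(nat_lit 2500000000), (nat_lit 3936800000), (nat_lit 4748800000)], [], [(nat_lit 19511530943), (nat_lit 19395364844), (nat_lit 17782387274), (nat_lit 17619702975), (nat_lit 21122311973), (nat_lit 18846405138), (nat_lit 23411695384), (nat_lit 16810584997)], (nat_lit 1271251), (nat_lit 1271251), (nat_lit 230000), (nat_lit 780000), (nat_lit 780000), (nat_lit 3072501), [(nat_lit 1412501), (nat_lit 1271251), (nat_lit 1271251)], [(nat_lit 23), (nat_lit 62), (nat_lit 428), (nat_lit 200), (nat_lit 11)]⟩⟩))) (.leaf ⟨(nat_lit 276), (nat_lit 144), (nat_lit 0), (nat_lit 580), (nat_lit 36664), (nat_lit 4985),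 (nat_lit 5568), (nat_lit 6708), (nat_lit 0), (nat_lit 28725), (nat_lit 1104000), [((nat_lit 340), [((nat_lit 37), (nat_lit 5), (nat_lit 276))])], ⟨(nat_lit 6), false, false, false, (nat_lit 153), (nat_lit 3872), (nat_lit 4473), [(nat_lit 1305146), (nat_lit 1317698), (nat_lit 1348244), (nat_lit 1361249), (nat_lit 1407125), (nat_lit 1414492), (nat_lit 1450223), (nat_lit 1458043)]⟩, ⟨(nat_lit 5), false, false, false, (nat_lit 138), (nat_lit 3872), (nat_lit 4473), [(nat_lit 1228056), (nat_lit 1241882), (nat_lit 1314251), (nat_lit 1328984), (nat_lit 1364028), (nat_lit 1370941), (nat_lit 1450223), (nat_lit 1458043)]⟩, (nat_lit 3843689), (nat_lit 50842034), (nat_lit 8737599), (nat_lit 7420367), (nat_lit 5), (nat_lit 0), [⟨(nat_lit 0), (nat_lit 100), (nat_lit 80), (nat_lit 89), (nat_lit 1016546484)⟩], [⟨(nat_lit 0), (nat_lit 100), (nat_lit 78), (nat_lit 81), (nat_lit 608129078)⟩, ⟨(nat_lit 0), (nat_lit 100), (nat_lit 80), (nat_lit 60), (nat_lit 333036824)⟩],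 [], [],
 ⟨⟨[(nat_lit 40), (nat_lit 80), (nat_lit 120)], [(nat_lit 0), (nat_lit 0), (nat_lit 2151)], [((nat_lit 0), (nat_lit 0), (nat_lit 0)), ((nat_lit 0), (nat_lit 0), (nat_lit 0)), ((nat_lit 1000), (nat_lit 815), (nat_lit 753))], ((nat_lit 80), (nat_lit 100), (nat_lit 63))⟩, (nat_lit 9893), (nat_lit 187), (nat_lit 187), (nat_lit 0), (nat_lit 97138), [(nat_lit 2298122129), (nat_lit 2384882698), (nat_lit 0)], [(nat_lit 0), (nat_lit 0), (nat_lit 129561098)], [(nat_lit 18360851496), (nat_lit 21069600907), (nat_lit 18101514746), (nat_lit 19895666535), (nat_lit 17604397931), (nat_lit 19070288934), (nat_lit 17376388940), (nat_lit 18915611289)], (nat_lit 1271251), (nat_lit 1271251), (nat_lit 356250), (nat_lit 780000), (nat_lit 230000), (nat_lit 780000), [(nat_lit 490000), (nat_lit 1100000), (nat_lit 1785001)], [(nat_lit 4), (nat_lit 51), (nat_lit 272), (nat_lit 60), (nat_lit 9)]⟩,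
 ⟨⟨[(nat_lit 80), (nat_lit 120), (nat_lit 160)], [(nat_lit 0), (nat_lit 0), (nat_lit 2132)], [((nat_lit 0), (nat_lit 0), (nat_lit 0)), ((nat_lit 0), (nat_lit 0), (nat_lit 0)), ((nat_lit 858), (nat_lit 1000), (nat_lit 713))], ((nat_lit 100), (nat_lit 91), (nat_lit 64))⟩, (nat_lit 203673), (nat_lit 337), (nat_lit 337), (nat_lit 0), (nat_lit 266490), [(nat_lit 3394112000), (nat_lit 5768832000), (nat_lit 8595328000)], [], [(nat_lit 26877130432), (nat_lit 25661241694), (nat_lit 23375629196), (nat_lit 24565204500), (nat_lit 33769523264), (nat_lit 31501489242), (nat_lit 36950314016), (nat_lit 32065329440)], (nat_lit 1271251), (nat_lit 1271251), (nat_lit 356250), (nat_lit 780000), (nat_lit 780000), (nat_lit 3072501), [(nat_lit 1100000), (nat_lit 1785001), (nat_lit 1271251)], [(nat_lit 18), (nat_lit 59), (nat_lit 428), (nat_lit 200), (nat_lit 11)]⟩,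
 ⟨⟨[(nat_lit 100), (nat_lit 140), (nat_lit 180)], [(nat_lit 0), (nat_lit 0), (nat_lit 2434)], [((nat_lit 0), (nat_lit 0), (nat_lit 0)), ((nat_lit 0), (nat_lit 0), (nat_lit 0)), ((nat_lit 726), (nat_lit 1000), (nat_lit 688))], ((nat_lit 100), (nat_lit 78), (nat_lit 63))⟩, (nat_lit 334560), (nat_lit 300), (nat_lit 444), (nat_lit 40774006), (nat_lit 285714), [(nat_lit 3625000000), (nat_lit 5708360000), (nat_lit 8153640000)], [], [(nat_lit 27859034721), (nat_lit 28713983398), (nat_lit 24829563114), (nat_lit 25447768006), (nat_lit 31166642356), (nat_lit 30003119740), (nat_lit 34636688288), (nat_lit 26489622768)], (nat_lit 1271251), (nat_lit 1271251), (nat_lit 230000), (nat_lit 780000), (nat_lit 780000), (nat_lit 3072501), [(nat_lit 1412501), (nat_lit 1271251), (nat_lit 1271251)], [(nat_lit 24), (nat_lit 63), (nat_lit 428), (nat_lit 200), (nat_lit 10)]⟩⟩))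
noncomputable def c11_5 : Tr Lf :=
 (.trZ (nat_lit 0) (nat_lit 1) (nat_lit 3) (nat_lit 100) (nat_lit 87) (nat_lit 95) (nat_lit 100) (.spl (nat_lit 2) (nat_lit 220) (.spl (nat_lit 2) (nat_lit 180) (.trX (nat_lit 5) (nat_lit 1) (nat_lit 2) (nat_lit 92) (nat_lit 49) (nat_lit 100) (nat_lit 380) (.spl (nat_lit 5) (nat_lit 200) (.leaf ⟨(nat_lit 0), (nat_lit 1000), (nat_lit 0), (nat_lit 0), (nat_lit 0), (nat_lit 6322), (nat_lit 13881), (nat_lit 0), (nat_lit 0), (nat_lit 0), (nat_lit 0), [], Pd.none, Pd.none, (nat_lit 0), (nat_lit 1), (nat_lit 0), (nat_lit 0), (nat_lit 3), (nat_lit 0), [⟨(nat_lit 0), (nat_lit 92), (nat_lit 81), (nat_lit 100), (nat_lit 1825892882)⟩], [], [], [],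
 ⟨⟨[(nat_lit 40), (nat_lit 80), (nat_lit 120)], [(nat_lit 0), (nat_lit 0), (nat_lit 2151)], [((nat_lit 0), (nat_lit 0), (nat_lit 0)), ((nat_lit 0), (nat_lit 0), (nat_lit 0)), ((nat_lit 1000), (nat_lit 815), (nat_lit 753))], ((nat_lit 80), (nat_lit 100), (nat_lit 63))⟩, (nat_lit 3228048), (nat_lit 293), (nat_lit 293), (nat_lit 0), (nat_lit 292967), [(nat_lit 2238645428), (nat_lit 4688000004), (nat_lit 7968000000)], [], [(nat_lit 21981391278), (nat_lit 24537428512), (nat_lit 22106536484), (nat_lit 24380913150), (nat_lit 19059279567), (nat_lit 21019083438), (nat_lit 19195501286), (nat_lit 21100574648)], (nat_lit 1271251), (nat_lit 1271251), (nat_lit 631250), (nat_lit 780000), (nat_lit 0), (nat_lit 780000), [(nat_lit 490000), (nat_lit 1100000), (nat_lit 1785001)], [(nat_lit 4), (nat_lit 51), (nat_lit 272), (nat_lit 60), (nat_lit 9)]⟩,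
 ⟨⟨[(nat_lit 60), (nat_lit 100), (nat_lit 140)], [(nat_lit 0), (nat_lit 0), (nat_lit 2047)], [((nat_lit 0), (nat_lit 0), (nat_lit 0)), ((nat_lit 0), (nat_lit 0), (nat_lit 0)), ((nat_lit 1000), (nat_lit 993), (nat_lit 781))], ((nat_lit 95), (nat_lit 100), (nat_lit 65))⟩, (nat_lit 3821561), (nat_lit 451), (nat_lit 451), (nat_lit 0), (nat_lit 475012), [(nat_lit 3282000000), (nat_lit 6250000000), (nat_lit 9842000000)], [], [(nat_lit 23586978630), (nat_lit 33182501204), (nat_lit 23104894788), (nat_lit 32423140960), (nat_lit 14414238850), (nat_lit 20220969600), (nat_lit 16855325094), (nat_lit 19724974717)], (nat_lit 1271251), (nat_lit 1271251), (nat_lit 631250), (nat_lit 780000), (nat_lit 0), (nat_lit 1412501), [(nat_lit 780000), (nat_lit 1435001), (nat_lit 1271251)], [(nat_lit 11), (nat_lit 55), (nat_lit 317), (nat_lit 100), (nat_lit 9)]⟩,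
 Rw.none⟩) (.leaf ⟨(nat_lit 131), (nat_lit 772), (nat_lit 0), (nat_lit 97), (nat_lit 2772), (nat_lit 5738), (nat_lit 6752), (nat_lit 1202), (nat_lit 0), (nat_lit 0), (nat_lit 524000), [((nat_lit 340), [((nat_lit 37), (nat_lit 5), (nat_lit 131))])], ⟨(nat_lit 7), false, false, false, (nat_lit 184), (nat_lit 3872), (nat_lit 4473), [(nat_lit 1416230), (nat_lit 1425778), (nat_lit 1459327), (nat_lit 1469330), (nat_lit 1450223), (nat_lit 1458043), (nat_lit 1493321), (nat_lit 1501595)]⟩, ⟨(nat_lit 3), false, false, false, (nat_lit 86), (nat_lit 3872), (nat_lit 4473), [(nat_lit 1073842), (nat_lit 1090218), (nat_lit 1138518), (nat_lit 1155575), (nat_lit 1277776), (nat_lit 1283782), (nat_lit 1342475), (nat_lit 1349162)]⟩, (nat_lit 3492349), (nat_lit 51745710), (nat_lit 11668807), (nat_lit 3585483), (nat_lit 5), (nat_lit 0), [⟨(nat_lit 0), (nat_lit 100), (nat_lit 87), (nat_lit 95), (nat_lit 666751585)⟩], [⟨(nat_lit 0), (nat_lit 100), (nat_lit 78), (nat_lit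 45), (nat_lit 152519893)⟩], [⟨(nat_lit 1), (nat_lit 49), (nat_lit 92), (nat_lit 100), (nat_lit 333544029)⟩], [],
 ⟨⟨[(nat_lit 40), (nat_lit 80), (nat_lit 120)], [(nat_lit 0), (nat_lit 0), (nat_lit 2151)], [((nat_lit 0), (nat_lit 0), (nat_lit 0)), ((nat_lit 0), (nat_lit 0), (nat_lit 0)), ((nat_lit 1000), (nat_lit 815), (nat_lit 753))], ((nat_lit 80), (nat_lit 100), (nat_lit 63))⟩, (nat_lit 1574929), (nat_lit 293), (nat_lit 293), (nat_lit 0), (nat_lit 292967), [(nat_lit 2174984115), (nat_lit 3496959317), (nat_lit 4140530283)], [(nat_lit 0), (nat_lit 0), (nat_lit 0)], [(nat_lit 20485251592), (nat_lit 23423436248), (nat_lit 20551414933), (nat_lit 23326603350), (nat_lit 17754441330), (nat_lit 19510469183), (nat_lit 17832635847), (nat_lit 19625220580)], (nat_lit 1271251), (nat_lit 1271251), (nat_lit 631250), (nat_lit 780000), (nat_lit 0), (nat_lit 780000), [(nat_lit 490000), (nat_lit 1100000), (nat_lit 1785001)], [(nat_lit 4), (nat_lit 51), (nat_lit 272),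 (nat_lit 60), (nat_lit 9)]⟩,
 ⟨⟨[(nat_lit 60), (nat_lit 100), (nat_lit 140)], [(nat_lit 0), (nat_lit 0), (nat_lit 2047)], [((nat_lit 0), (nat_lit 0), (nat_lit 0)), ((nat_lit 0), (nat_lit 0), (nat_lit 0)), ((nat_lit 1000), (nat_lit 993), (nat_lit 781))], ((nat_lit 95), (nat_lit 100), (nat_lit 65))⟩, (nat_lit 2278701), (nat_lit 327), (nat_lit 327), (nat_lit 0), (nat_lit 475012), [(nat_lit 2852058000), (nat_lit 5431250000), (nat_lit 8552698000)], [], [(nat_lit 19421229337), (nat_lit 21363790770), (nat_lit 19307959595), (nat_lit 21190249885), (nat_lit 26644673915), (nat_lit 28840778584), (nat_lit 26286517662), (nat_lit 28427299818)], (nat_lit 1271251), (nat_lit 1271251), (nat_lit 631250), (nat_lit 780000), (nat_lit 1271251), (nat_lit 1271251), [(nat_lit 780000), (nat_lit 1435001), (nat_lit 1271251)], [(nat_lit 11), (nat_lit 55), (nat_lit 345), (nat_lit 125), (nat_lit 9)]⟩,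
 ⟨⟨[(nat_lit 140), (nat_lit 180), (nat_lit 200)], [(nat_lit 0), (nat_lit 0), (nat_lit 2835)], [((nat_lit 0), (nat_lit 0), (nat_lit 0)), ((nat_lit 0), (nat_lit 0), (nat_lit 0)), ((nat_lit 363), (nat_lit 1000), (nat_lit 798))], ((nat_lit 0), (nat_lit 0), (nat_lit 0))⟩, (nat_lit 26688), (nat_lit 300), (nat_lit 2203), (nat_lit 7575700), (nat_lit 3718580), [(nat_lit 954674000), (nat_lit 1363626000), (nat_lit 1590800000)], [], [(nat_lit 6797648188), (nat_lit 6518135995), (nat_lit 5868937559), (nat_lit 5601284976), (nat_lit 6655001424), (nat_lit 6364181057), (nat_lit 5643249373), (nat_lit 5367900261)], (nat_lit 780000), (nat_lit 1271251), (nat_lit 0), (nat_lit 780000), (nat_lit 1271251), (nat_lit 1271251), [(nat_lit 1977501), (nat_lit 1271251), (nat_lit 1271251)], [(nat_lit 32), (nat_lit 67), (nat_lit 636), (nat_lit 175), (nat_lit 13)]⟩⟩))) (.trZ (nat_lit 0) (nat_lit 2) (nat_lit 4) (nat_lit 100) (nat_lit 80) (nat_lit 52) (nat_lit 20) (.spl (nat_lit 5) (nat_lit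 200) (.leaf ⟨(nat_lit 0), (nat_lit 894), (nat_lit 0), (nat_lit 106), (nat_lit 0), (nat_lit 6595), (nat_lit 10057), (nat_lit 1533), (nat_lit 0), (nat_lit 0), (nat_lit 0), [], Pd.none, Pd.none, (nat_lit 0), (nat_lit 1), (nat_lit 0), (nat_lit 0), (nat_lit 4), (nat_lit 0), [⟨(nat_lit 0), (nat_lit 92), (nat_lit 81), (nat_lit 100), (nat_lit 13876913)⟩, ⟨(nat_lit 0), (nat_lit 100), (nat_lit 87), (nat_lit 95), (nat_lit 821063330)⟩], [⟨(nat_lit 0), (nat_lit 100), (nat_lit 76), (nat_lit 65), (nat_lit 168174756)⟩, ⟨(nat_lit 0), (nat_lit 100), (nat_lit 72), (nat_lit 77), (nat_lit 18847939)⟩], [], [],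
 ⟨⟨[(nat_lit 40), (nat_lit 80), (nat_lit 120)], [(nat_lit 0), (nat_lit 0), (nat_lit 2151)], [((nat_lit 0), (nat_lit 0), (nat_lit 0)), ((nat_lit 0), (nat_lit 0), (nat_lit 0)), ((nat_lit 1000), (nat_lit 815), (nat_lit 753))], ((nat_lit 80), (nat_lit 100), (nat_lit 63))⟩, (nat_lit 2845784), (nat_lit 261), (nat_lit 261), (nat_lit 0), (nat_lit 233664), [(nat_lit 2598584702), (nat_lit 4688000010), (nat_lit 7968000000)], [], [(nat_lit 21270834184), (nat_lit 23550070063), (nat_lit 21289138581), (nat_lit 23402784910), (nat_lit 18693021774), (nat_lit 20610767485), (nat_lit 18719107691), (nat_lit 20676710697)], (nat_lit 1271251), (nat_lit 1271251), (nat_lit 631250), (nat_lit 780000), (nat_lit 111251), (nat_lit 780000), [(nat_lit 490000), (nat_lit 1100000), (nat_lit 1785001)], [(nat_lit 4), (nat_lit 51), (nat_lit 272), (nat_lit 60), (nat_lit 9)]⟩,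
 ⟨⟨[(nat_lit 60), (nat_lit 100), (nat_lit 140)], [(nat_lit 0), (nat_lit 0), (nat_lit 2047)], [((nat_lit 0), (nat_lit 0), (nat_lit 0)), ((nat_lit 0), (nat_lit 0), (nat_lit 0)), ((nat_lit 1000), (nat_lit 993), (nat_lit 781))], ((nat_lit 95), (nat_lit 100), (nat_lit 65))⟩, (nat_lit 3638132), (nat_lit 444), (nat_lit 444), (nat_lit 0), (nat_lit 454001), [(nat_lit 3282000000), (nat_lit 6250000000), (nat_lit 9842000000)], [], [(nat_lit 22676347169), (nat_lit 27219799188), (nat_lit 22413226833), (nat_lit 26809341422), (nat_lit 21937118526), (nat_lit 19831019668), (nat_lit 23869636670), (nat_lit 19534333569)], (nat_lit 1271251), (nat_lit 1271251), (nat_lit 631250), (nat_lit 780000), (nat_lit 0), (nat_lit 1412501), [(nat_lit 780000), (nat_lit 1435001), (nat_lit 1271251)], [(nat_lit 11), (nat_lit 55), (nat_lit 317), (nat_lit 100), (nat_lit 9)]⟩,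
 ⟨⟨[(nat_lit 120), (nat_lit 160), (nat_lit 180)], [(nat_lit 0), (nat_lit 533), (nat_lit 2066)], [((nat_lit 0), (nat_lit 0), (nat_lit 0)), ((nat_lit 960), (nat_lit 1000), (nat_lit 200)), ((nat_lit 615), (nat_lit 1000), (nat_lit 729))], ((nat_lit 100), (nat_lit 72), (nat_lit 63))⟩, (nat_lit 248195), (nat_lit 300), (nat_lit 1150), (nat_lit 7038401), (nat_lit 1461902), [(nat_lit 844608000), (nat_lit 1258432000), (nat_lit 1490148000)], [], [(nat_lit 7810852681), (nat_lit 7149305848), (nat_lit 5651486357), (nat_lit 5402867967), (nat_lit 4892680232), (nat_lit 4827472169), (nat_lit 5060290724), (nat_lit 3811243306)], (nat_lit 1271251), (nat_lit 1271251), (nat_lit 111251), (nat_lit 780000), (nat_lit 0), (nat_lit 1412501), [(nat_lit 1695001), (nat_lit 1271251), (nat_lit 1271251)], [(nat_lit 28), (nat_lit 65), (nat_lit 373), (nat_lit 150), (nat_lit 9)]⟩⟩) (.leaf ⟨(nat_lit 0), (nat_lit 468), (nat_lit 0), (nat_lit 532), (nat_lit 0), (nat_lit 6832), (nat_lit 7432),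 (nat_lit 5676), (nat_lit 0), (nat_lit 0), (nat_lit 0), [], Pd.none, Pd.none, (nat_lit 0), (nat_lit 1), (nat_lit 0), (nat_lit 0), (nat_lit 5), (nat_lit 0), [⟨(nat_lit 0), (nat_lit 92), (nat_lit 81), (nat_lit 100), (nat_lit 1796724531)⟩], [⟨(nat_lit 0), (nat_lit 100), (nat_lit 80), (nat_lit 52), (nat_lit 664672247)⟩], [], [],
 ⟨⟨[(nat_lit 40), (nat_lit 80), (nat_lit 120)], [(nat_lit 0), (nat_lit 0), (nat_lit 2151)], [((nat_lit 0), (nat_lit 0), (nat_lit 0)), ((nat_lit 0), (nat_lit 0), (nat_lit 0)), ((nat_lit 1000), (nat_lit 815), (nat_lit 753))], ((nat_lit 80), (nat_lit 100), (nat_lit 63))⟩, (nat_lit 2991844), (nat_lit 261), (nat_lit 261), (nat_lit 0), (nat_lit 233664), [(nat_lit 2343930530), (nat_lit 4688000114), (nat_lit 7968000000)], [], [(nat_lit 20742780592), (nat_lit 23936777038), (nat_lit 20745917780), (nat_lit 23766580621), (nat_lit 18194707132), (nat_lit 20256295591), (nat_lit 18305448996), (nat_lit 20308741090)], (nat_lit 1271251), (nat_lit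 1271251), (nat_lit 631250), (nat_lit 780000), (nat_lit 111251), (nat_lit 780000), [(nat_lit 490000), (nat_lit 1100000), (nat_lit 1785001)], [(nat_lit 4), (nat_lit 51), (nat_lit 272), (nat_lit 60), (nat_lit 9)]⟩,
 ⟨⟨[(nat_lit 60), (nat_lit 100), (nat_lit 140)], [(nat_lit 0), (nat_lit 0), (nat_lit 2047)], [((nat_lit 0), (nat_lit 0), (nat_lit 0)), ((nat_lit 0), (nat_lit 0), (nat_lit 0)), ((nat_lit 1000), (nat_lit 993), (nat_lit 781))], ((nat_lit 95), (nat_lit 100), (nat_lit 65))⟩, (nat_lit 3462027), (nat_lit 325), (nat_lit 325), (nat_lit 0), (nat_lit 454001), [(nat_lit 3282000000), (nat_lit 6250000000), (nat_lit 9842000000)], [], [(nat_lit 21221033929), (nat_lit 23797308068), (nat_lit 21113748559), (nat_lit 23726557560), (nat_lit 32490649516), (nat_lit 34717395192), (nat_lit 32056094872), (nat_lit 34225878384)], (nat_lit 1271251), (nat_lit 1271251), (nat_lit 631250), (nat_lit 780000), (nat_lit 1271251), (nat_lit 1271251), [(nat_lit 780000), (nat_lit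 1435001), (nat_lit 1271251)], [(nat_lit 11), (nat_lit 55), (nat_lit 373), (nat_lit 150), (nat_lit 10)]⟩,
 ⟨⟨[(nat_lit 120), (nat_lit 160), (nat_lit 180)], [(nat_lit 0), (nat_lit 533), (nat_lit 2066)], [((nat_lit 0), (nat_lit 0), (nat_lit 0)), ((nat_lit 960), (nat_lit 1000), (nat_lit 200)), ((nat_lit 615), (nat_lit 1000), (nat_lit 729))], ((nat_lit 100), (nat_lit 72), (nat_lit 63))⟩, (nat_lit 1245659), (nat_lit 300), (nat_lit 1020), (nat_lit 35324800), (nat_lit 1461902), [(nat_lit 4238976000), (nat_lit 6315904000), (nat_lit 7478856000)], [], [(nat_lit 28914369540), (nat_lit 28387139300), (nat_lit 25824342790), (nat_lit 25237490690), (nat_lit 28788154080), (nat_lit 28253065232), (nat_lit 25192107488), (nat_lit 24670051328)], (nat_lit 1271251), (nat_lit 1271251), (nat_lit 111251), (nat_lit 780000), (nat_lit 1271251), (nat_lit 1271251), [(nat_lit 1695001), (nat_lit 1271251), (nat_lit 1271251)], [(nat_lit 28), (nat_lit 65), (nat_lit 428), (nat_lit 200),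 (nat_lit 10)]⟩⟩)))) (.trZ (nat_lit 0) (nat_lit 2) (nat_lit 4) (nat_lit 100) (nat_lit 80) (nat_lit 68) (nat_lit 50) (.trZ (nat_lit 1) (nat_lit 2) (nat_lit 5) (nat_lit 100) (nat_lit 92) (nat_lit 49) (nat_lit 20) (.leaf ⟨(nat_lit 43), (nat_lit 535), (nat_lit 0), (nat_lit 422), (nat_lit 0), (nat_lit 7209), (nat_lit 9191), (nat_lit 3975), (nat_lit 0), (nat_lit 670584), (nat_lit 172000), [((nat_lit 340), [((nat_lit 37), (nat_lit 5), (nat_lit 43))])], ⟨(nat_lit 7), false, false, false, (nat_lit 184), (nat_lit 3872), (nat_lit 4473), [(nat_lit 1416230), (nat_lit 1425778), (nat_lit 1459327), (nat_lit 1469330), (nat_lit 1450223), (nat_lit 1458043), (nat_lit 1493321), (nat_lit 1501595)]⟩, ⟨(nat_lit 5), false, false, false, (nat_lit 154), (nat_lit 3872), (nat_lit 4473), [(nat_lit 1266601), (nat_lit 1279790), (nat_lit 1374345), (nat_lit 1388668), (nat_lit 1385576), (nat_lit 1392716), (nat_lit 1493321), (nat_lit 1501595)]⟩, (nat_lit 4357428), (nat_lit 47064674),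 (nat_lit 11330338), (nat_lit 8604988), (nat_lit 5), (nat_lit 0), [⟨(nat_lit 0), (nat_lit 100), (nat_lit 87), (nat_lit 95), (nat_lit 633421187)⟩], [⟨(nat_lit 0), (nat_lit 100), (nat_lit 81), (nat_lit 93), (nat_lit 768444068)⟩], [], [],
 ⟨⟨[(nat_lit 40), (nat_lit 80), (nat_lit 120)], [(nat_lit 0), (nat_lit 0), (nat_lit 2151)], [((nat_lit 0), (nat_lit 0), (nat_lit 0)), ((nat_lit 0), (nat_lit 0), (nat_lit 0)), ((nat_lit 1000), (nat_lit 815), (nat_lit 753))], ((nat_lit 80), (nat_lit 100), (nat_lit 63))⟩, (nat_lit 2468419), (nat_lit 255), (nat_lit 255), (nat_lit 0), (nat_lit 283891), [(nat_lit 2902804470), (nat_lit 4275045479), (nat_lit 6673596800)], [(nat_lit 0), (nat_lit 0), (nat_lit 0)], [(nat_lit 18697950275), (nat_lit 22035696823), (nat_lit 18646176098), (nat_lit 21889837243), (nat_lit 16832800885), (nat_lit 19362642807), (nat_lit 16821598949), (nat_lit 19290887880)], (nat_lit 1271251), (nat_lit 1271251), (nat_lit 631250), (nat_lit 780000), (nat_lit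 292188), (nat_lit 780000), [(nat_lit 490000), (nat_lit 1100000), (nat_lit 1785001)], [(nat_lit 4), (nat_lit 51), (nat_lit 272), (nat_lit 60), (nat_lit 9)]⟩,
 ⟨⟨[(nat_lit 60), (nat_lit 100), (nat_lit 140)], [(nat_lit 0), (nat_lit 0), (nat_lit 2047)], [((nat_lit 0), (nat_lit 0), (nat_lit 0)), ((nat_lit 0), (nat_lit 0), (nat_lit 0)), ((nat_lit 1000), (nat_lit 993), (nat_lit 781))], ((nat_lit 95), (nat_lit 100), (nat_lit 65))⟩, (nat_lit 1373335), (nat_lit 567), (nat_lit 567), (nat_lit 0), (nat_lit 747357), [(nat_lit 3140874000), (nat_lit 5981250000), (nat_lit 9418794000)], [], [(nat_lit 25992907527), (nat_lit 28385889364), (nat_lit 25709892785), (nat_lit 28061902607), (nat_lit 39424435576), (nat_lit 36585201347), (nat_lit 41480697028), (nat_lit 35868105262)], (nat_lit 1271251), (nat_lit 1271251), (nat_lit 631250), (nat_lit 780000), (nat_lit 111251), (nat_lit 2866250), [(nat_lit 780000), (nat_lit 1435001), (nat_lit 1271251)], [(nat_lit 11), (nat_lit 55),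 (nat_lit 373), (nat_lit 150), (nat_lit 11)]⟩,
 ⟨⟨[(nat_lit 100), (nat_lit 140), (nat_lit 160)], [(nat_lit 0), (nat_lit 508), (nat_lit 1689)], [((nat_lit 0), (nat_lit 0), (nat_lit 0)), ((nat_lit 1000), (nat_lit 1000), (nat_lit 198)), ((nat_lit 811), (nat_lit 1000), (nat_lit 671))], ((nat_lit 100), (nat_lit 84), (nat_lit 63))⟩, (nat_lit 907134), (nat_lit 300), (nat_lit 838), (nat_lit 26375000), (nat_lit 1054167), [(nat_lit 2637500000), (nat_lit 4153324000), (nat_lit 5009984000)], [], [(nat_lit 23049254608), (nat_lit 22620092532), (nat_lit 21476862929), (nat_lit 21260610254), (nat_lit 19604742325), (nat_lit 19305473209), (nat_lit 18379405694), (nat_lit 17800567366)], (nat_lit 1271251), (nat_lit 1271251), (nat_lit 292188), (nat_lit 780000), (nat_lit 111251), (nat_lit 2866250), [(nat_lit 1412501), (nat_lit 1271251), (nat_lit 1271251)], [(nat_lit 23), (nat_lit 62), (nat_lit 456), (nat_lit 225), (nat_lit 12)]⟩⟩)))))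
noncomputable def c11_6 : Tr Lf :=
 (.spl (nat_lit 1) (nat_lit 280) (.ord (.spl (nat_lit 6) (nat_lit 56) (.spl (nat_lit 2) (nat_lit 200) (.spl (nat_lit 5) (nat_lit 200) (.leaf ⟨(nat_lit 130), (nat_lit 870), (nat_lit 0), (nat_lit 0), (nat_lit 86232), (nat_lit 5419), (nat_lit 7987), (nat_lit 0), (nat_lit 0), (nat_lit 0), (nat_lit 520000), [((nat_lit 340), [((nat_lit 37), (nat_lit 5), (nat_lit 130))])], ⟨(nat_lit 6), false, false, false, (nat_lit 153), (nat_lit 3872), (nat_lit 4473), [(nat_lit 1305146), (nat_lit 1317698), (nat_lit 1348244), (nat_lit 1361249), (nat_lit 1407125), (nat_lit 1414492), (nat_lit 1450223), (nat_lit 1458043)]⟩, ⟨(nat_lit 3), false, false, false, (nat_lit 90), (nat_lit 3872), (nat_lit 4473), [(nat_lit 1073842), (nat_lit 1090218), (nat_lit 1160070), (nat_lit 1177353), (nat_lit 1277776), (nat_lit 1283782), (nat_lit 1364028), (nat_lit 1370941)]⟩, (nat_lit 3185785), (nat_lit 54337227), (nat_lit 8788128), (nat_lit 3874645), (nat_lit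 3), (nat_lit 0), [⟨(nat_lit 0), (nat_lit 100), (nat_lit 80), (nat_lit 89), (nat_lit 1268919542)⟩], [], [], [],
 ⟨⟨[(nat_lit 40), (nat_lit 80), (nat_lit 120)], [(nat_lit 0), (nat_lit 0), (nat_lit 2151)], [((nat_lit 0), (nat_lit 0), (nat_lit 0)), ((nat_lit 0), (nat_lit 0), (nat_lit 0)), ((nat_lit 1000), (nat_lit 815), (nat_lit 753))], ((nat_lit 81), (nat_lit 100), (nat_lit 70))⟩, (nat_lit 1465842), (nat_lit 202), (nat_lit 202), (nat_lit 0), (nat_lit 32079), [(nat_lit 2224816691), (nat_lit 3494707030), (nat_lit 4179900970)], [(nat_lit 0), (nat_lit 0), (nat_lit 0)], [(nat_lit 21700402437), (nat_lit 24427224287), (nat_lit 21073730364), (nat_lit 22750704675), (nat_lit 19090748319), (nat_lit 20689490438), (nat_lit 18624935971), (nat_lit 20116819417)], (nat_lit 1271251), (nat_lit 1271251), (nat_lit 356250), (nat_lit 780000), (nat_lit 0), (nat_lit 780000), [(nat_lit 490000), (nat_lit 1100000), (nat_lit 1785001)], [(nat_lit 4), (nat_lit 51), (nat_lit 272),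 (nat_lit 60), (nat_lit 9)]⟩,
 ⟨⟨[(nat_lit 80), (nat_lit 120), (nat_lit 160)], [(nat_lit 0), (nat_lit 0), (nat_lit 2132)], [((nat_lit 0), (nat_lit 0), (nat_lit 0)), ((nat_lit 0), (nat_lit 0), (nat_lit 0)), ((nat_lit 858), (nat_lit 1000), (nat_lit 713))], ((nat_lit 100), (nat_lit 86), (nat_lit 71))⟩, (nat_lit 0), (nat_lit 351), (nat_lit 351), (nat_lit 0), (nat_lit 64203), [(nat_lit 4078560000), (nat_lit 6932160000), (nat_lit 10328640000)], [], [(nat_lit 44904397007), (nat_lit 36456391361), (nat_lit 32199627860), (nat_lit 33553267736), (nat_lit 31499922832), (nat_lit 29935590598), (nat_lit 35343656804), (nat_lit 28116078818)], (nat_lit 1271251), (nat_lit 1271251), (nat_lit 356250), (nat_lit 780000), (nat_lit 0), (nat_lit 1412501), [(nat_lit 1100000), (nat_lit 1785001), (nat_lit 1271251)], [(nat_lit 18), (nat_lit 59), (nat_lit 373), (nat_lit 150), (nat_lit 10)]⟩,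
 Rw.none⟩) (.spl (nat_lit 1) (nat_lit 260) (.dle (nat_lit 0)) (.trZ (nat_lit 0) (nat_lit 1) (nat_lit 3) (nat_lit 100) (nat_lit 84) (nat_lit 85) (nat_lit 80) (.leaf ⟨(nat_lit 0), (nat_lit 807), (nat_lit 0), (nat_lit 193), (nat_lit 24817), (nat_lit 4115), (nat_lit 7584), (nat_lit 2354), (nat_lit 0), (nat_lit 0), (nat_lit 0), [], Pd.none, Pd.none, (nat_lit 0), (nat_lit 1), (nat_lit 0), (nat_lit 0), (nat_lit 5), (nat_lit 0), [⟨(nat_lit 0), (nat_lit 99), (nat_lit 77), (nat_lit 100), (nat_lit 864975445)⟩], [⟨(nat_lit 0), (nat_lit 100), (nat_lit 78), (nat_lit 49), (nat_lit 159391234)⟩], [⟨(nat_lit 1), (nat_lit 54), (nat_lit 96), (nat_lit 100), (nat_lit 315870195)⟩], [],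
 ⟨⟨[(nat_lit 40), (nat_lit 80), (nat_lit 120)], [(nat_lit 0), (nat_lit 0), (nat_lit 2151)], [((nat_lit 0), (nat_lit 0), (nat_lit 0)), ((nat_lit 0), (nat_lit 0), (nat_lit 0)), ((nat_lit 1000), (nat_lit 815), (nat_lit 753))], ((nat_lit 81), (nat_lit 100), (nat_lit 70))⟩, (nat_lit 2861416), (nat_lit 192), (nat_lit 192), (nat_lit 0), (nat_lit 32079), [(nat_lit 2032000001), (nat_lit 4688000001), (nat_lit 7968000000)], [], [(nat_lit 20552709604), (nat_lit 22331771099), (nat_lit 20862306324), (nat_lit 22553218053), (nat_lit 19478029113), (nat_lit 21101873183), (nat_lit 20054367583), (nat_lit 21595469622)], (nat_lit 1271251), (nat_lit 1271251), (nat_lit 490000), (nat_lit 780000), (nat_lit 0), (nat_lit 780000), [(nat_lit 490000), (nat_lit 1100000), (nat_lit 1785001)], [(nat_lit 4), (nat_lit 51), (nat_lit 272), (nat_lit 60), (nat_lit 9)]⟩,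
 ⟨⟨[(nat_lit 80), (nat_lit 120), (nat_lit 160)], [(nat_lit 0), (nat_lit 528), (nat_lit 2577)], [((nat_lit 0), (nat_lit 0), (nat_lit 0)), ((nat_lit 1000), (nat_lit 959), (nat_lit 206)), ((nat_lit 929), (nat_lit 1000), (nat_lit 742))], ((nat_lit 100), (nat_lit 94), (nat_lit 73))⟩, (nat_lit 3341637), (nat_lit 205), (nat_lit 205), (nat_lit 0), (nat_lit 62277), [(nat_lit 4688000000), (nat_lit 7968000000), (nat_lit 11872000000)], [], [(nat_lit 20897056827), (nat_lit 22196693147), (nat_lit 20620242169), (nat_lit 21845231095), (nat_lit 32411171331), (nat_lit 33166751920), (nat_lit 31487943279), (nat_lit 32263334864)], (nat_lit 1271251), (nat_lit 1271251), (nat_lit 490000), (nat_lit 780000), (nat_lit 1271251), (nat_lit 1271251), [(nat_lit 1100000), (nat_lit 1785001), (nat_lit 1271251)], [(nat_lit 18), (nat_lit 59), (nat_lit 428), (nat_lit 200), (nat_lit 11)]⟩,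
 ⟨⟨[(nat_lit 140), (nat_lit 180), (nat_lit 200)], [(nat_lit 0), (nat_lit 0), (nat_lit 2835)], [((nat_lit 0), (nat_lit 0), (nat_lit 0)), ((nat_lit 0), (nat_lit 0), (nat_lit 0)), ((nat_lit 363), (nat_lit 1000), (nat_lit 798))], ((nat_lit 0), (nat_lit 0), (nat_lit 0))⟩, (nat_lit 53101), (nat_lit 300), (nat_lit 638), (nat_lit 15073300), (nat_lit 354189), [(nat_lit 1899506000), (nat_lit 2713194000), (nat_lit 3165200000)], [], [(nat_lit 13491218908), (nat_lit 12873569980), (nat_lit 11540917418), (nat_lit 10955434130), (nat_lit 13336912124), (nat_lit 12678419382), (nat_lit 11350998954), (nat_lit 10663454592)], (nat_lit 780000), (nat_lit 1435001), (nat_lit 0), (nat_lit 780000), (nat_lit 1271251), (nat_lit 1271251), [(nat_lit 1977501), (nat_lit 1271251), (nat_lit 1271251)], [(nat_lit 32), (nat_lit 67), (nat_lit 428), (nat_lit 200), (nat_lit 9)]⟩⟩)))) (.trZ (nat_lit 0) (nat_lit 2) (nat_lit 4) (nat_lit 100) (nat_lit 80) (nat_lit 60) (nat_lit 40) (.spl (nat_lit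 2) (nat_lit 240) (.dle (nat_lit 0)) (.trZ (nat_lit 0) (nat_lit 2) (nat_lit 4) (nat_lit 100) (nat_lit 82) (nat_lit 76) (nat_lit 60) (.trZ (nat_lit 1) (nat_lit 2) (nat_lit 5) (nat_lit 100) (nat_lit 100) (nat_lit 40) (nat_lit 10) (.leaf ⟨(nat_lit 0), (nat_lit 0), (nat_lit 0), (nat_lit 1000), (nat_lit 204840), (nat_lit 6883), (nat_lit 7700), (nat_lit 9971), (nat_lit 0), (nat_lit 2897469772318), (nat_lit 0), [], Pd.none, Pd.none, (nat_lit 0), (nat_lit 1), (nat_lit 0), (nat_lit 0), (nat_lit 0), (nat_lit 0), [⟨(nat_lit 0), (nat_lit 99), (nat_lit 77), (nat_lit 100), (nat_lit 2799688618)⟩], [⟨(nat_lit 0), (nat_lit 99), (nat_lit 77), (nat_lit 100), (nat_lit 2469198341)⟩], [⟨(nat_lit 0), (nat_lit 100), (nat_lit 100), (nat_lit 60), (nat_lit 266786743)⟩], [],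
 ⟨⟨[(nat_lit 40), (nat_lit 80), (nat_lit 120)], [(nat_lit 0), (nat_lit 0), (nat_lit 2151)], [((nat_lit 0), (nat_lit 0), (nat_lit 0)), ((nat_lit 0), (nat_lit 0), (nat_lit 0)), ((nat_lit 1000), (nat_lit 815), (nat_lit 753))], ((nat_lit 81), (nat_lit 100), (nat_lit 70))⟩, (nat_lit 2939144), (nat_lit 171), (nat_lit 171), (nat_lit 0), (nat_lit 25684), [(nat_lit 3591294317), (nat_lit 4688000303), (nat_lit 7968000000)], [], [(nat_lit 19416836334), (nat_lit 22672454878), (nat_lit 18176931990), (nat_lit 20747196372), (nat_lit 18176931990), (nat_lit 20747196372), (nat_lit 17043558068), (nat_lit 19105614804)], (nat_lit 1271251), (nat_lit 1271251), (nat_lit 356250), (nat_lit 780000), (nat_lit 356250), (nat_lit 780000), [(nat_lit 490000), (nat_lit 1100000), (nat_lit 1785001)], [(nat_lit 4), (nat_lit 51), (nat_lit 272), (nat_lit 60), (nat_lit 9)]⟩,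
 ⟨⟨[(nat_lit 80), (nat_lit 120), (nat_lit 160)], [(nat_lit 0), (nat_lit 0), (nat_lit 2132)], [((nat_lit 0), (nat_lit 0), (nat_lit 0)), ((nat_lit 0), (nat_lit 0), (nat_lit 0)), ((nat_lit 858), (nat_lit 1000), (nat_lit 713))], ((nat_lit 100), (nat_lit 86), (nat_lit 71))⟩, (nat_lit 1082183), (nat_lit 343), (nat_lit 343), (nat_lit 0), (nat_lit 68836), [(nat_lit 4688000000), (nat_lit 7968000000), (nat_lit 11872000000)], [], [(nat_lit 46520899663), (nat_lit 38406656988), (nat_lit 34318238344), (nat_lit 36546427144), (nat_lit 52098845300), (nat_lit 45385792800), (nat_lit 56754564600), (nat_lit 50164458000)], (nat_lit 1271251), (nat_lit 1271251), (nat_lit 356250), (nat_lit 780000), (nat_lit 54688), (nat_lit 2845626), [(nat_lit 1100000), (nat_lit 1785001), (nat_lit 1271251)], [(nat_lit 18), (nat_lit 59), (nat_lit 428), (nat_lit 200), (nat_lit 11)]⟩,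
 ⟨⟨[(nat_lit 80), (nat_lit 120), (nat_lit 160)], [(nat_lit 0), (nat_lit 0), (nat_lit 2132)], [((nat_lit 0), (nat_lit 0), (nat_lit 0)), ((nat_lit 0), (nat_lit 0), (nat_lit 0)), ((nat_lit 858), (nat_lit 1000), (nat_lit 713))], ((nat_lit 100), (nat_lit 86), (nat_lit 71))⟩, (nat_lit 585366), (nat_lit 300), (nat_lit 343), (nat_lit 66400000), (nat_lit 68836), [(nat_lit 4688000000), (nat_lit 7968000000), (nat_lit 11872000000)], [], [(nat_lit 50610132948), (nat_lit 46154595503), (nat_lit 41429846409), (nat_lit 43225336387), (nat_lit 52937137259), (nat_lit 44819607697), (nat_lit 58466076498), (nat_lit 49932316380)], (nat_lit 1271251), (nat_lit 1271251), (nat_lit 356250), (nat_lit 780000), (nat_lit 54688), (nat_lit 2845626), [(nat_lit 1100000), (nat_lit 1785001), (nat_lit 1271251)], [(nat_lit 18), (nat_lit 59), (nat_lit 428), (nat_lit 200), (nat_lit 11)]⟩⟩)))))) (.dle (nat_lit 0)))) (.trZ (nat_lit 0) (nat_lit 1) (nat_lit 3) (nat_lit 100) (nat_lit 87) (nat_lit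 95) (nat_lit 100) (.spl (nat_lit 2) (nat_lit 220) (.spl (nat_lit 5) (nat_lit 200) (.leaf ⟨(nat_lit 206), (nat_lit 794), (nat_lit 0), (nat_lit 0), (nat_lit 58698), (nat_lit 5663), (nat_lit 11724), (nat_lit 0), (nat_lit 0), (nat_lit 0), (nat_lit 824000), [((nat_lit 340), [((nat_lit 37), (nat_lit 5), (nat_lit 206))])], ⟨(nat_lit 7), false, false, false, (nat_lit 184), (nat_lit 3872), (nat_lit 4473), [(nat_lit 1416230), (nat_lit 1425778), (nat_lit 1459327), (nat_lit 1469330), (nat_lit 1450223), (nat_lit 1458043), (nat_lit 1493321), (nat_lit 1501595)]⟩, ⟨(nat_lit 3), false, false, false, (nat_lit 94), (nat_lit 3872), (nat_lit 4473), [(nat_lit 1073842), (nat_lit 1090218), (nat_lit 1181619), (nat_lit 1199128), (nat_lit 1277776), (nat_lit 1283782), (nat_lit 1385576), (nat_lit 1392716)]⟩, (nat_lit 3614569), (nat_lit 51207683), (nat_lit 11646826), (nat_lit 4145491), (nat_lit 3), (nat_lit 0), [⟨(nat_lit 0), (nat_lit 92), (nat_lit 81), (nat_lit 100), (nat_lit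 3393936567)⟩], [], [], [],
 ⟨⟨[(nat_lit 40), (nat_lit 100), (nat_lit 140)], [(nat_lit 0), (nat_lit 0), (nat_lit 3243)], [((nat_lit 0), (nat_lit 0), (nat_lit 0)), ((nat_lit 0), (nat_lit 0), (nat_lit 0)), ((nat_lit 1000), (nat_lit 870), (nat_lit 941))], ((nat_lit 85), (nat_lit 100), (nat_lit 88))⟩, (nat_lit 478063), (nat_lit 298), (nat_lit 298), (nat_lit 0), (nat_lit 125368), [(nat_lit 2707325145), (nat_lit 2710825120), (nat_lit 825362027)], [(nat_lit 0), (nat_lit 0), (nat_lit 0)], [(nat_lit 21356487955), (nat_lit 23280372173), (nat_lit 21326768338), (nat_lit 23191203975), (nat_lit 18837176423), (nat_lit 20322089717), (nat_lit 18944440368), (nat_lit 20389756259)], (nat_lit 1271251), (nat_lit 1271251), (nat_lit 631250), (nat_lit 780000), (nat_lit 0), (nat_lit 780000), [(nat_lit 490000), (nat_lit 1427501), (nat_lit 1271251)], [(nat_lit 5), (nat_lit 55), (nat_lit 272), (nat_lit 60), (nat_lit 8)]⟩,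
 ⟨⟨[(nat_lit 60), (nat_lit 120), (nat_lit 160)], [(nat_lit 0), (nat_lit 0), (nat_lit 3243)], [((nat_lit 0), (nat_lit 0), (nat_lit 0)), ((nat_lit 0), (nat_lit 0), (nat_lit 0)), ((nat_lit 878), (nat_lit 1000), (nat_lit 945))], ((nat_lit 100), (nat_lit 92), (nat_lit 90))⟩, (nat_lit 0), (nat_lit 384), (nat_lit 384), (nat_lit 0), (nat_lit 207130), [(nat_lit 2605908000), (nat_lit 6326592000), (nat_lit 9426368000)], [], [(nat_lit 31841135064), (nat_lit 35878063726), (nat_lit 31196915412), (nat_lit 35105499060), (nat_lit 24062078479), (nat_lit 24463413283), (nat_lit 26233787970), (nat_lit 23774186162)], (nat_lit 1271251), (nat_lit 1271251), (nat_lit 631250), (nat_lit 780000), (nat_lit 0), (nat_lit 1412501), [(nat_lit 780000), (nat_lit 1762501), (nat_lit 1271251)], [(nat_lit 12), (nat_lit 59), (nat_lit 401), (nat_lit 175), (nat_lit 10)]⟩,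
 Rw.none⟩) (.spl (nat_lit 0) (nat_lit 330) (.spl (nat_lit 6) (nat_lit 76) (.spl (nat_lit 0) (nat_lit 325) (.leaf ⟨(nat_lit 267), (nat_lit 670), (nat_lit 0), (nat_lit 63), (nat_lit 63226), (nat_lit 5262), (nat_lit 4024), (nat_lit 770), (nat_lit 0), (nat_lit 0), (nat_lit 1068000), [((nat_lit 325), [((nat_lit 37), (nat_lit 5), (nat_lit 267))])], ⟨(nat_lit 7), false, false, false, (nat_lit 182), (nat_lit 4330), (nat_lit 4473), [(nat_lit 1416316), (nat_lit 1418656), (nat_lit 1459447), (nat_lit 1461882), (nat_lit 1450305), (nat_lit 1452215), (nat_lit 1493436), (nat_lit 1495440)]⟩, ⟨(nat_lit 3), false, false, false, (nat_lit 92), (nat_lit 4330), (nat_lit 4473), [(nat_lit 1073842), (nat_lit 1077956), (nat_lit 1181673), (nat_lit 1186023), (nat_lit 1277776), (nat_lit 1279309), (nat_lit 1385608), (nat_lit 1387376)]⟩, (nat_lit 3575768), (nat_lit 51442269), (nat_lit 11525968), (nat_lit 4031763), (nat_lit 5), (nat_lit 0), [⟨(nat_lit 0), (nat_lit 94), (nat_lit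 85), (nat_lit 100), (nat_lit 2508439191)⟩], [⟨(nat_lit 0), (nat_lit 100), (nat_lit 80), (nat_lit 49), (nat_lit 82563970)⟩], [⟨(nat_lit 1), (nat_lit 63), (nat_lit 88), (nat_lit 100), (nat_lit 305855843)⟩], [],
 ⟨⟨[(nat_lit 40), (nat_lit 100), (nat_lit 140)], [(nat_lit 0), (nat_lit 0), (nat_lit 3243)], [((nat_lit 0), (nat_lit 0), (nat_lit 0)), ((nat_lit 0), (nat_lit 0), (nat_lit 0)), ((nat_lit 1000), (nat_lit 870), (nat_lit 941))], ((nat_lit 83), (nat_lit 100), (nat_lit 81))⟩, (nat_lit 406), (nat_lit 225), (nat_lit 225), (nat_lit 0), (nat_lit 84643), [(nat_lit 2976217629), (nat_lit 1697649396), (nat_lit 0)], [(nat_lit 0), (nat_lit 0), (nat_lit 1833126998)], [(nat_lit 19997498682), (nat_lit 20452066070), (nat_lit 20002336581), (nat_lit 20444083184), (nat_lit 18001711696), (nat_lit 18357690692), (nat_lit 18131079363), (nat_lit 18477707325)], (nat_lit 1271251), (nat_lit 1271251), (nat_lit 631250), (nat_lit 780000), (nat_lit 0), (nat_lit 780000), [(nat_lit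 490000), (nat_lit 1427501), (nat_lit 1271251)], [(nat_lit 5), (nat_lit 55), (nat_lit 272), (nat_lit 60), (nat_lit 8)]⟩,
 ⟨⟨[(nat_lit 60), (nat_lit 120), (nat_lit 160)], [(nat_lit 0), (nat_lit 0), (nat_lit 3243)], [((nat_lit 0), (nat_lit 0), (nat_lit 0)), ((nat_lit 0), (nat_lit 0), (nat_lit 0)), ((nat_lit 878), (nat_lit 1000), (nat_lit 945))], ((nat_lit 100), (nat_lit 96), (nat_lit 86))⟩, (nat_lit 1458031), (nat_lit 223), (nat_lit 223), (nat_lit 0), (nat_lit 135810), [(nat_lit 2405706000), (nat_lit 5840544000), (nat_lit 8702176000)], [], [(nat_lit 18635945738), (nat_lit 20077262455), (nat_lit 18643296081), (nat_lit 20025758940), (nat_lit 25204661029), (nat_lit 26224038680), (nat_lit 25021176240), (nat_lit 26062204768)], (nat_lit 1271251), (nat_lit 1271251), (nat_lit 631250), (nat_lit 780000), (nat_lit 1271251), (nat_lit 1271251), [(nat_lit 780000), (nat_lit 1762501), (nat_lit 1271251)], [(nat_lit 12), (nat_lit 59), (nat_lit 456), (nat_lit 225), (nat_lit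 11)]⟩,
 ⟨⟨[(nat_lit 140), (nat_lit 180), (nat_lit 200)], [(nat_lit 0), (nat_lit 0), (nat_lit 2835)], [((nat_lit 0), (nat_lit 0), (nat_lit 0)), ((nat_lit 0), (nat_lit 0), (nat_lit 0)), ((nat_lit 363), (nat_lit 1000), (nat_lit 798))], ((nat_lit 0), (nat_lit 0), (nat_lit 0))⟩, (nat_lit 17333), (nat_lit 300), (nat_lit 913), (nat_lit 4920305), (nat_lit 964268), [(nat_lit 620046000), (nat_lit 885654000), (nat_lit 1033200000)], [], [(nat_lit 4444623900), (nat_lit 4172504493), (nat_lit 3850797625), (nat_lit 3589259858), (nat_lit 4354106916), (nat_lit 4099467573), (nat_lit 3701460662), (nat_lit 3430115378)], (nat_lit 780000), (nat_lit 1598751), (nat_lit 0), (nat_lit 780000), (nat_lit 1271251), (nat_lit 1271251), [(nat_lit 1977501), (nat_lit 1271251), (nat_lit 1271251)], [(nat_lit 32), (nat_lit 67), (nat_lit 428), (nat_lit 200), (nat_lit 9)]⟩⟩) (.leaf ⟨(nat_lit 211), (nat_lit 682), (nat_lit 0), (nat_lit 107), (nat_lit 51554), (nat_lit 5585), (nat_lit 6596),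 (nat_lit 1305), (nat_lit 0), (nat_lit 0), (nat_lit 844000), [((nat_lit 330), [((nat_lit 37), (nat_lit 5), (nat_lit 211))])], ⟨(nat_lit 7), false, false, false, (nat_lit 183), (nat_lit 4183), (nat_lit 4331), [(nat_lit 1418655), (nat_lit 1421023), (nat_lit 1461880), (nat_lit 1464353), (nat_lit 1452214), (nat_lit 1454150), (nat_lit 1495439), (nat_lit 1497481)]⟩, ⟨(nat_lit 3), false, false, false, (nat_lit 94), (nat_lit 4183), (nat_lit 4331), [(nat_lit 1077956), (nat_lit 1082054), (nat_lit 1186022), (nat_lit 1190385), (nat_lit 1279309), (nat_lit 1280820), (nat_lit 1387376), (nat_lit 1389153)]⟩, (nat_lit 3601791), (nat_lit 51285223), (nat_lit 11606894), (nat_lit 4107883), (nat_lit 5), (nat_lit 0), [⟨(nat_lit 0), (nat_lit 92), (nat_lit 82), (nat_lit 100), (nat_lit 2457502629)⟩], [⟨(nat_lit 0), (nat_lit 100), (nat_lit 78), (nat_lit 52), (nat_lit 149049486)⟩], [⟨(nat_lit 1), (nat_lit 63), (nat_lit 88), (nat_lit 100), (nat_lit 316132353)⟩], [],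
 ⟨⟨[(nat_lit 40), (nat_lit 100), (nat_lit 140)], [(nat_lit 0), (nat_lit 288), (nat_lit 3421)], [((nat_lit 0), (nat_lit 0), (nat_lit 0)), ((nat_lit 1000), (nat_lit 955), (nat_lit 75)), ((nat_lit 1000), (nat_lit 851), (nat_lit 964))], ((nat_lit 80), (nat_lit 100), (nat_lit 81))⟩, (nat_lit 553214), (nat_lit 283), (nat_lit 283), (nat_lit 0), (nat_lit 97597), [(nat_lit 2743245840), (nat_lit 2620837735), (nat_lit 611949465)], [(nat_lit 0), (nat_lit 0), (nat_lit 0)], [(nat_lit 21223543947), (nat_lit 21694738608), (nat_lit 21187716321), (nat_lit 21646837113), (nat_lit 18922073729), (nat_lit 19290335849), (nat_lit 19023844456), (nat_lit 19382313880)], (nat_lit 1271251), (nat_lit 1271251), (nat_lit 631250), (nat_lit 780000), (nat_lit 0), (nat_lit 780000), [(nat_lit 490000), (nat_lit 1427501), (nat_lit 1271251)], [(nat_lit 5), (nat_lit 55), (nat_lit 272), (nat_lit 60), (nat_lit 8)]⟩,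
 ⟨⟨[(nat_lit 60), (nat_lit 120), (nat_lit 160)], [(nat_lit 0), (nat_lit 0), (nat_lit 3243)], [((nat_lit 0), (nat_lit 0), (nat_lit 0)), ((nat_lit 0), (nat_lit 0), (nat_lit 0)), ((nat_lit 878), (nat_lit 1000), (nat_lit 945))], ((nat_lit 100), (nat_lit 96), (nat_lit 86))⟩, (nat_lit 1641938), (nat_lit 230), (nat_lit 230), (nat_lit 0), (nat_lit 159307), [(nat_lit 2589498000), (nat_lit 6286752000), (nat_lit 9367008000)], [], [(nat_lit 18535129764), (nat_lit 20636012150), (nat_lit 18348643240), (nat_lit 20385809251), (nat_lit 27261761066), (nat_lit 28575772553), (nat_lit 26815724851), (nat_lit 28101063742)], (nat_lit 1271251), (nat_lit 1271251), (nat_lit 631250), (nat_lit 780000), (nat_lit 1271251), (nat_lit 1271251), [(nat_lit 780000), (nat_lit 1762501), (nat_lit 1271251)], [(nat_lit 12), (nat_lit 59), (nat_lit 456), (nat_lit 225), (nat_lit 11)]⟩,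
 ⟨⟨[(nat_lit 140), (nat_lit 180), (nat_lit 200)], [(nat_lit 0), (nat_lit 0), (nat_lit 2835)], [((nat_lit 0), (nat_lit 0), (nat_lit 0)), ((nat_lit 0), (nat_lit 0), (nat_lit 0)), ((nat_lit 363), (nat_lit 1000), (nat_lit 798))], ((nat_lit 0), (nat_lit 0), (nat_lit 0))⟩, (nat_lit 29439), (nat_lit 300), (nat_lit 989), (nat_lit 8356703), (nat_lit 1135371), [(nat_lit 1053094000), (nat_lit 1504206000), (nat_lit 1754800000)], [], [(nat_lit 7556513350), (nat_lit 7095628515), (nat_lit 6550384825), (nat_lit 6107425564), (nat_lit 7394015024), (nat_lit 6962828747), (nat_lit 6293202668), (nat_lit 5833637880)], (nat_lit 780000), (nat_lit 1598751), (nat_lit 0), (nat_lit 780000), (nat_lit 1271251), (nat_lit 1271251), [(nat_lit 1977501), (nat_lit 1271251), (nat_lit 1271251)], [(nat_lit 32), (nat_lit 67), (nat_lit 428), (nat_lit 200), (nat_lit 9)]⟩⟩)) (.dle (nat_lit 0))) (.trZ (nat_lit 0) (nat_lit 1) (nat_lit 3) (nat_lit 100) (nat_lit 83) (nat_lit 98) (nat_lit 110)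 (.leaf ⟨(nat_lit 169), (nat_lit 664), (nat_lit 0), (nat_lit 167), (nat_lit 26988), (nat_lit 5651), (nat_lit 7258), (nat_lit 2037), (nat_lit 0), (nat_lit 0), (nat_lit 676000), [((nat_lit 340), [((nat_lit 37), (nat_lit 5), (nat_lit 169))])], ⟨(nat_lit 7), false, false, false, (nat_lit 188), (nat_lit 3872), (nat_lit 4184), [(nat_lit 1437565), (nat_lit 1441972), (nat_lit 1480889), (nat_lit 1485550), (nat_lit 1454130), (nat_lit 1458104), (nat_lit 1497453), (nat_lit 1501681)]⟩, ⟨(nat_lit 3), false, false, false, (nat_lit 95), (nat_lit 3872), (nat_lit 4184), [(nat_lit 1082054), (nat_lit 1090218), (nat_lit 1190368), (nat_lit 1199165), (nat_lit 1280820), (nat_lit 1283782), (nat_lit 1389144), (nat_lit 1392739)]⟩, (nat_lit 3675512), (nat_lit 50737925), (nat_lit 12045133), (nat_lit 4216942), (nat_lit 5), (nat_lit 0), [⟨(nat_lit 0), (nat_lit 100), (nat_lit 83), (nat_lit 98), (nat_lit 2202664524)⟩], [⟨(nat_lit 0), (nat_lit 100), (nat_lit 75), (nat_lit 56), (nat_lit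 232224789)⟩, ⟨(nat_lit 0), (nat_lit 100), (nat_lit 83), (nat_lit 32), (nat_lit 5464334)⟩], [⟨(nat_lit 1), (nat_lit 63), (nat_lit 88), (nat_lit 100), (nat_lit 286003085)⟩], [],
 ⟨⟨[(nat_lit 40), (nat_lit 100), (nat_lit 140)], [(nat_lit 0), (nat_lit 592), (nat_lit 3606)], [((nat_lit 0), (nat_lit 0), (nat_lit 0)), ((nat_lit 1000), (nat_lit 908), (nat_lit 154)), ((nat_lit 1000), (nat_lit 825), (nat_lit 971))], ((nat_lit 79), (nat_lit 100), (nat_lit 86))⟩, (nat_lit 1031818), (nat_lit 294), (nat_lit 294), (nat_lit 0), (nat_lit 124024), [(nat_lit 2805865623), (nat_lit 3195668928), (nat_lit 2565719872)], [(nat_lit 0), (nat_lit 0), (nat_lit 0)], [(nat_lit 21841190484), (nat_lit 23213510998), (nat_lit 21814195786), (nat_lit 23169540075), (nat_lit 19496946583), (nat_lit 20228607610), (nat_lit 19541026343), (nat_lit 20262804427)], (nat_lit 1271251), (nat_lit 1271251), (nat_lit 704688), (nat_lit 780000), (nat_lit 0), (nat_lit 780000), [(nat_lit 490000), (nat_lit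 1427501), (nat_lit 1271251)], [(nat_lit 5), (nat_lit 55), (nat_lit 272), (nat_lit 60), (nat_lit 8)]⟩,
 ⟨⟨[(nat_lit 60), (nat_lit 120), (nat_lit 160)], [(nat_lit 0), (nat_lit 0), (nat_lit 3243)], [((nat_lit 0), (nat_lit 0), (nat_lit 0)), ((nat_lit 0), (nat_lit 0), (nat_lit 0)), ((nat_lit 878), (nat_lit 1000), (nat_lit 945))], ((nat_lit 100), (nat_lit 92), (nat_lit 90))⟩, (nat_lit 1739306), (nat_lit 242), (nat_lit 242), (nat_lit 0), (nat_lit 207130), [(nat_lit 2727342000), (nat_lit 6621408000), (nat_lit 9865632000)], [], [(nat_lit 19222217628), (nat_lit 21455481764), (nat_lit 19111865808), (nat_lit 21310352213), (nat_lit 28479030781), (nat_lit 30331113269), (nat_lit 28227092077), (nat_lit 30062674106)], (nat_lit 1271251), (nat_lit 1271251), (nat_lit 704688), (nat_lit 780000), (nat_lit 1271251), (nat_lit 1271251), [(nat_lit 780000), (nat_lit 1762501), (nat_lit 1271251)], [(nat_lit 12), (nat_lit 59), (nat_lit 456), (nat_lit 225), (nat_lit 11)]⟩,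
 ⟨⟨[(nat_lit 140), (nat_lit 180), (nat_lit 200)], [(nat_lit 0), (nat_lit 0), (nat_lit 2835)], [((nat_lit 0), (nat_lit 0), (nat_lit 0)), ((nat_lit 0), (nat_lit 0), (nat_lit 0)), ((nat_lit 363), (nat_lit 1000), (nat_lit 798))], ((nat_lit 0), (nat_lit 0), (nat_lit 0))⟩, (nat_lit 45947), (nat_lit 300), (nat_lit 1146), (nat_lit 13042702), (nat_lit 1494229), [(nat_lit 1643614000), (nat_lit 2347686000), (nat_lit 2738800000)], [], [(nat_lit 11793185678), (nat_lit 11073756889), (nat_lit 10222676429), (nat_lit 9531228686), (nat_lit 11540275648), (nat_lit 10867197991), (nat_lit 9821566964), (nat_lit 9104198010)], (nat_lit 780000), (nat_lit 1598751), (nat_lit 0), (nat_lit 780000), (nat_lit 1271251), (nat_lit 1271251), [(nat_lit 1977501), (nat_lit 1271251), (nat_lit 1271251)], [(nat_lit 32), (nat_lit 67), (nat_lit 428), (nat_lit 200), (nat_lit 9)]⟩⟩)))) (.trZ (nat_lit 0) (nat_lit 2) (nat_lit 4) (nat_lit 100) (nat_lit 80) (nat_lit 68) (nat_lit 50) (.trZ (nat_lit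 1) (nat_lit 2) (nat_lit 5) (nat_lit 100) (nat_lit 92) (nat_lit 49) (nat_lit 20) (.spl (nat_lit 1) (nat_lit 300) (.ord (.spl (nat_lit 6) (nat_lit 68) (.leaf ⟨(nat_lit 0), (nat_lit 238), (nat_lit 0), (nat_lit 762), (nat_lit 119807), (nat_lit 9358), (nat_lit 11238), (nat_lit 7699), (nat_lit 0), (nat_lit 708281), (nat_lit 0), [], Pd.none, Pd.none, (nat_lit 0), (nat_lit 1), (nat_lit 0), (nat_lit 0), (nat_lit 5), (nat_lit 0), [⟨(nat_lit 0), (nat_lit 97), (nat_lit 82), (nat_lit 100), (nat_lit 3135984448)⟩], [⟨(nat_lit 0), (nat_lit 100), (nat_lit 80), (nat_lit 89), (nat_lit 1631372613)⟩], [⟨(nat_lit 0), (nat_lit 100), (nat_lit 94), (nat_lit 73), (nat_lit 270447692)⟩], [],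
 ⟨⟨[(nat_lit 40), (nat_lit 100), (nat_lit 140)], [(nat_lit 0), (nat_lit 0), (nat_lit 3243)], [((nat_lit 0), (nat_lit 0), (nat_lit 0)), ((nat_lit 0), (nat_lit 0), (nat_lit 0)), ((nat_lit 1000), (nat_lit 870), (nat_lit 941))], ((nat_lit 82), (nat_lit 100), (nat_lit 77))⟩, (nat_lit 2714897), (nat_lit 189), (nat_lit 189), (nat_lit 0), (nat_lit 72516), [(nat_lit 4126463729), (nat_lit 6250000530), (nat_lit 9842000000)], [], [(nat_lit 21109466950), (nat_lit 24652976817), (nat_lit 20826731721), (nat_lit 24317175723), (nat_lit 18022440228), (nat_lit 20752336905), (nat_lit 17767860827), (nat_lit 20516894400)], (nat_lit 1271251), (nat_lit 1271251), (nat_lit 631250), (nat_lit 780000), (nat_lit 292188), (nat_lit 780000), [(nat_lit 490000), (nat_lit 1427501), (nat_lit 1271251)], [(nat_lit 5), (nat_lit 55), (nat_lit 272), (nat_lit 60), (nat_lit 8)]⟩,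
 ⟨⟨[(nat_lit 60), (nat_lit 120), (nat_lit 160)], [(nat_lit 0), (nat_lit 0), (nat_lit 3243)], [((nat_lit 0), (nat_lit 0), (nat_lit 0)), ((nat_lit 0), (nat_lit 0), (nat_lit 0)), ((nat_lit 878), (nat_lit 1000), (nat_lit 945))], ((nat_lit 100), (nat_lit 99), (nat_lit 82))⟩, (nat_lit 1462446), (nat_lit 350), (nat_lit 350), (nat_lit 0), (nat_lit 173853), [(nat_lit 3282000000), (nat_lit 7968000000), (nat_lit 11872000000)], [], [(nat_lit 36714001957), (nat_lit 32981104177), (nat_lit 30858936332), (nat_lit 32436437918), (nat_lit 44942826259), (nat_lit 40163161575), (nat_lit 47473420046), (nat_lit 42722403833)], (nat_lit 1271251), (nat_lit 1271251), (nat_lit 631250), (nat_lit 780000), (nat_lit 111251), (nat_lit 2866250), [(nat_lit 780000), (nat_lit 1762501), (nat_lit 1271251)], [(nat_lit 12), (nat_lit 59), (nat_lit 456), (nat_lit 225), (nat_lit 12)]⟩,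
 ⟨⟨[(nat_lit 100), (nat_lit 140), (nat_lit 180)], [(nat_lit 0), (nat_lit 508), (nat_lit 2854)], [((nat_lit 0), (nat_lit 0), (nat_lit 0)), ((nat_lit 1000), (nat_lit 1000), (nat_lit 198)), ((nat_lit 777), (nat_lit 1000), (nat_lit 712))], ((nat_lit 100), (nat_lit 74), (nat_lit 76))⟩, (nat_lit 486105), (nat_lit 300), (nat_lit 474), (nat_lit 51804736), (nat_lit 197747), [(nat_lit 4762500000), (nat_lit 7499604000), (nat_lit 10712196000)], [], [(nat_lit 42844098723), (nat_lit 42659102730), (nat_lit 38485854421), (nat_lit 39343046062), (nat_lit 38971637169), (nat_lit 39011883812), (nat_lit 35729700511), (nat_lit 35718026414)], (nat_lit 1271251), (nat_lit 1271251), (nat_lit 292188), (nat_lit 780000), (nat_lit 111251), (nat_lit 2866250), [(nat_lit 1412501), (nat_lit 1271251), (nat_lit 1271251)], [(nat_lit 24), (nat_lit 63), (nat_lit 456), (nat_lit 225), (nat_lit 11)]⟩⟩) (.dle (nat_lit 0)))) (.emL (nat_lit 0) (nat_lit 1) (nat_lit 3) (nat_lit 94) (nat_lit 87)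 (nat_lit 100))))))))
noncomputable def c11_7 : Tr Lf :=
 (.spl (nat_lit 5) (nat_lit 200) (.leaf ⟨(nat_lit 59), (nat_lit 908), (nat_lit 0), (nat_lit 33), (nat_lit 0), (nat_lit 6469), (nat_lit 7252), (nat_lit 395), (nat_lit 0), (nat_lit 0), (nat_lit 236000), [((nat_lit 340), [((nat_lit 37), (nat_lit 5), (nat_lit 59))])], ⟨(nat_lit 6), true, false, false, (nat_lit 274), (nat_lit 3872), (nat_lit 4473), [(nat_lit 1407125), (nat_lit 1414492), (nat_lit 1493321), (nat_lit 1501595), (nat_lit 1883018), (nat_lit 1866188), (nat_lit 1969223), (nat_lit 1953301)]⟩, ⟨(nat_lit 3), false, false, false, (nat_lit 94), (nat_lit 3872), (nat_lit 4473), [(nat_lit 1073842), (nat_lit 1090218), (nat_lit 1181619), (nat_lit 1199128), (nat_lit 1277776), (nat_lit 1283782), (nat_lit 1385576), (nat_lit 1392716)]⟩, (nat_lit 4301460), (nat_lit 42559461), (nat_lit 20602374), (nat_lit 3838165), (nat_lit 3), (nat_lit 0), [], [⟨(nat_lit 0), (nat_lit 100), (nat_lit 72), (nat_lit 77), (nat_lit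 11505898)⟩], [], [],
 ⟨⟨[(nat_lit 40), (nat_lit 80), (nat_lit 100)], [(nat_lit 0), (nat_lit 0), (nat_lit 1280)], [((nat_lit 0), (nat_lit 0), (nat_lit 0)), ((nat_lit 0), (nat_lit 0), (nat_lit 0)), ((nat_lit 1000), (nat_lit 800), (nat_lit 600))], ((nat_lit 81), (nat_lit 100), (nat_lit 48))⟩, (nat_lit 1351948), (nat_lit 300), (nat_lit 380), (nat_lit 51517346), (nat_lit 628457), [(nat_lit 2059682220), (nat_lit 4121387619), (nat_lit 5158569781)], [(nat_lit 0), (nat_lit 0), (nat_lit 0)], [(nat_lit 29419968564), (nat_lit 30652099967), (nat_lit 39372434184), (nat_lit 40863157954), (nat_lit 26770917040), (nat_lit 27860985490), (nat_lit 37541740912), (nat_lit 34806883831)], (nat_lit 1271251), (nat_lit 1271251), (nat_lit 780000), (nat_lit 3072501), (nat_lit 0), (nat_lit 780000), [(nat_lit 490000), (nat_lit 1100000), (nat_lit 1442501)], [(nat_lit 3), (nat_lit 50), (nat_lit 373), (nat_lit 150), (nat_lit 14)]⟩,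
 ⟨⟨[(nat_lit 80), (nat_lit 120), (nat_lit 140)], [(nat_lit 0), (nat_lit 0), (nat_lit 1164)], [((nat_lit 0), (nat_lit 0), (nat_lit 0)), ((nat_lit 0), (nat_lit 0), (nat_lit 0)), ((nat_lit 941), (nat_lit 1000), (nat_lit 576))], ((nat_lit 100), (nat_lit 98), (nat_lit 48))⟩, (nat_lit 4149912), (nat_lit 230), (nat_lit 230), (nat_lit 0), (nat_lit 0), [(nat_lit 4411408000), (nat_lit 7497888000), (nat_lit 9261322000)], [], [(nat_lit 19267568436), (nat_lit 26517016722), (nat_lit 36476480972), (nat_lit 40307902552), (nat_lit 17639638029), (nat_lit 22593664242), (nat_lit 30234070496), (nat_lit 32779362140)], (nat_lit 0), (nat_lit 0), (nat_lit 0), (nat_lit 0), (nat_lit 0), (nat_lit 0), [], [(nat_lit 17), (nat_lit 58), (nat_lit 483), (nat_lit 250), (nat_lit 14)]⟩,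
 ⟨⟨[(nat_lit 140), (nat_lit 160), (nat_lit 180)], [(nat_lit 0), (nat_lit 0), (nat_lit 799)], [((nat_lit 0), (nat_lit 0), (nat_lit 0)), ((nat_lit 0), (nat_lit 0), (nat_lit 0)), ((nat_lit 728), (nat_lit 1000), (nat_lit 454))], ((nat_lit 100), (nat_lit 67), (nat_lit 52))⟩, (nat_lit 283472), (nat_lit 300), (nat_lit 2234), (nat_lit 2448600), (nat_lit 3679345), [(nat_lit 324786000), (nat_lit 391776000), (nat_lit 463914000)], [], [(nat_lit 2570001073), (nat_lit 2276346158), (nat_lit 2076069036), (nat_lit 1965153412), (nat_lit 1973924948), (nat_lit 1860096445), (nat_lit 1684462715), (nat_lit 2066052317)], (nat_lit 780000), (nat_lit 1598751), (nat_lit 0), (nat_lit 780000), (nat_lit 0), (nat_lit 1412501), [(nat_lit 1977501), (nat_lit 1271251), (nat_lit 1271251)], [(nat_lit 31), (nat_lit 65), (nat_lit 626), (nat_lit 150), (nat_lit 15)]⟩⟩) (.trX (nat_lit 3) (nat_lit 5) (nat_lit 4) (nat_lit 100) (nat_lit 40) (nat_lit 92) (nat_lit 390) (.spl (nat_lit 5) (nat_lit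 320) (.leaf ⟨(nat_lit 65), (nat_lit 853), (nat_lit 0), (nat_lit 82), (nat_lit 0), (nat_lit 6059), (nat_lit 5840), (nat_lit 1029), (nat_lit 0), (nat_lit 0), (nat_lit 260000), [((nat_lit 340), [((nat_lit 37), (nat_lit 5), (nat_lit 65))])], ⟨(nat_lit 6), true, false, false, (nat_lit 271), (nat_lit 3872), (nat_lit 4473), [(nat_lit 1407125), (nat_lit 1414492), (nat_lit 1493321), (nat_lit 1501595), (nat_lit 1866022), (nat_lit 1850057), (nat_lit 1952226), (nat_lit 1937168)]⟩, ⟨(nat_lit 3), false, false, false, (nat_lit 94), (nat_lit 3872), (nat_lit 4473), [(nat_lit 1073842), (nat_lit 1090218), (nat_lit 1181619), (nat_lit 1199128), (nat_lit 1277776), (nat_lit 1283782), (nat_lit 1385576), (nat_lit 1392716)]⟩, (nat_lit 4286298), (nat_lit 42868757), (nat_lit 20277233), (nat_lit 3854010), (nat_lit 5), (nat_lit 0), [⟨(nat_lit 0), (nat_lit 81), (nat_lit 72), (nat_lit 100), (nat_lit 217500639)⟩], [⟨(nat_lit 0), (nat_lit 100), (nat_lit 77), (nat_lit 53), (nat_lit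 98097003)⟩], [], [],
 ⟨⟨[(nat_lit 40), (nat_lit 80), (nat_lit 100)], [(nat_lit 0), (nat_lit 0), (nat_lit 1280)], [((nat_lit 0), (nat_lit 0), (nat_lit 0)), ((nat_lit 0), (nat_lit 0), (nat_lit 0)), ((nat_lit 1000), (nat_lit 800), (nat_lit 600))], ((nat_lit 81), (nat_lit 100), (nat_lit 48))⟩, (nat_lit 3239565), (nat_lit 300), (nat_lit 378), (nat_lit 51008434), (nat_lit 628457), [(nat_lit 2040337334), (nat_lit 4080674667), (nat_lit 5043652000)], [(nat_lit 0), (nat_lit 0), (nat_lit 0)], [(nat_lit 30306365509), (nat_lit 31500961283), (nat_lit 37273657014), (nat_lit 38769569528), (nat_lit 27941834532), (nat_lit 29000653697), (nat_lit 34362392693), (nat_lit 34541076863)], (nat_lit 1271251), (nat_lit 1271251), (nat_lit 780000), (nat_lit 2990626), (nat_lit 0), (nat_lit 780000), [(nat_lit 490000), (nat_lit 1100000), (nat_lit 1442501)], [(nat_lit 3), (nat_lit 50), (nat_lit 373), (nat_lit 150), (nat_lit 14)]⟩,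
 ⟨⟨[(nat_lit 80), (nat_lit 120), (nat_lit 140)], [(nat_lit 0), (nat_lit 0), (nat_lit 1164)], [((nat_lit 0), (nat_lit 0), (nat_lit 0)), ((nat_lit 0), (nat_lit 0), (nat_lit 0)), ((nat_lit 941), (nat_lit 1000), (nat_lit 576))], ((nat_lit 100), (nat_lit 98), (nat_lit 48))⟩, (nat_lit 155719), (nat_lit 93), (nat_lit 93), (nat_lit 0), (nat_lit 0), [(nat_lit 4383280000), (nat_lit 7450080000), (nat_lit 9202270000)], [], [(nat_lit 11507585045), (nat_lit 17802253765), (nat_lit 25922397952), (nat_lit 29378773980), (nat_lit 19252219980), (nat_lit 23764415780), (nat_lit 29851800415), (nat_lit 32304732428)], (nat_lit 0), (nat_lit 0), (nat_lit 0), (nat_lit 0), (nat_lit 0), (nat_lit 0), [], [(nat_lit 17), (nat_lit 58), (nat_lit 538), (nat_lit 300), (nat_lit 15)]⟩,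
 ⟨⟨[(nat_lit 140), (nat_lit 160), (nat_lit 180)], [(nat_lit 0), (nat_lit 0), (nat_lit 799)], [((nat_lit 0), (nat_lit 0), (nat_lit 0)), ((nat_lit 0), (nat_lit 0), (nat_lit 0)), ((nat_lit 728), (nat_lit 1000), (nat_lit 454))], ((nat_lit 100), (nat_lit 67), (nat_lit 52))⟩, (nat_lit 586571), (nat_lit 300), (nat_lit 2119), (nat_lit 6084400), (nat_lit 3679345), [(nat_lit 807044000), (nat_lit 973504000), (nat_lit 1152756000)], [], [(nat_lit 4775301740), (nat_lit 4484932111), (nat_lit 4015682981), (nat_lit 4561090224), (nat_lit 4710051752), (nat_lit 4422654511), (nat_lit 3891881160), (nat_lit 3615950202)], (nat_lit 780000), (nat_lit 1598751), (nat_lit 0), (nat_lit 780000), (nat_lit 1271251), (nat_lit 1271251), [(nat_lit 1977501), (nat_lit 1271251), (nat_lit 1271251)], [(nat_lit 31), (nat_lit 65), (nat_lit 613), (nat_lit 175), (nat_lit 14)]⟩⟩) (.trX (nat_lit 3) (nat_lit 5) (nat_lit 4) (nat_lit 87) (nat_lit 95) (nat_lit 100) (nat_lit 300) (.spl (nat_lit 2)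 (nat_lit 180) (.spl (nat_lit 6) (nat_lit 12) (.leaf ⟨(nat_lit 0), (nat_lit 882), (nat_lit 0), (nat_lit 118), (nat_lit 0), (nat_lit 6840), (nat_lit 7382), (nat_lit 1297), (nat_lit 0), (nat_lit 0), (nat_lit 0), [], Pd.none, Pd.none, (nat_lit 0), (nat_lit 1), (nat_lit 0), (nat_lit 0), (nat_lit 8), (nat_lit 0), [], [⟨(nat_lit 0), (nat_lit 100), (nat_lit 72), (nat_lit 63), (nat_lit 123495238)⟩], [⟨(nat_lit 1), (nat_lit 64), (nat_lit 95), (nat_lit 100), (nat_lit 604305860)⟩], [⟨(nat_lit 1), (nat_lit 60), (nat_lit 100), (nat_lit 83), (nat_lit 55561568)⟩],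
 ⟨⟨[(nat_lit 40), (nat_lit 60), (nat_lit 80)], [(nat_lit 0), (nat_lit 0), (nat_lit 615)], [((nat_lit 0), (nat_lit 0), (nat_lit 0)), ((nat_lit 0), (nat_lit 0), (nat_lit 0)), ((nat_lit 1000), (nat_lit 819), (nat_lit 426))], ((nat_lit 84), (nat_lit 100), (nat_lit 36))⟩, (nat_lit 786943), (nat_lit 300), (nat_lit 317), (nat_lit 54700001), (nat_lit 626316), [(nat_lit 2139082351), (nat_lit 3282000001), (nat_lit 4688000000)], [], [(nat_lit 23733209705), (nat_lit 25316330537), (nat_lit 30558550680), (nat_lit 32742177960), (nat_lit 21174651998), (nat_lit 22568395591), (nat_lit 25206928372), (nat_lit 26378606910)], (nat_lit 1271251), (nat_lit 1271251), (nat_lit 780000), (nat_lit 2253751), (nat_lit 0), (nat_lit 780000), [(nat_lit 490000), (nat_lit 780000), (nat_lit 1100000)], [(nat_lit 2), (nat_lit 44), (nat_lit 345), (nat_lit 125), (nat_lit 16)]⟩,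
 ⟨⟨[(nat_lit 80), (nat_lit 100), (nat_lit 120)], [(nat_lit 0), (nat_lit 0), (nat_lit 511)], [((nat_lit 0), (nat_lit 0), (nat_lit 0)), ((nat_lit 0), (nat_lit 0), (nat_lit 0)), ((nat_lit 1000), (nat_lit 997), (nat_lit 383))], ((nat_lit 99), (nat_lit 100), (nat_lit 34))⟩, (nat_lit 6033893), (nat_lit 122), (nat_lit 122), (nat_lit 0), (nat_lit 0), [(nat_lit 4688000000), (nat_lit 6250000000), (nat_lit 7968000000)], [], [(nat_lit 22623344888), (nat_lit 27114305120), (nat_lit 27058129938), (nat_lit 30417665548), (nat_lit 29824874860), (nat_lit 34150972784), (nat_lit 33051197746), (nat_lit 35843104636)], (nat_lit 0), (nat_lit 0), (nat_lit 0), (nat_lit 0), (nat_lit 0), (nat_lit 0), [], [(nat_lit 16), (nat_lit 54), (nat_lit 289), (nat_lit 75), (nat_lit 8)]⟩,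
 ⟨⟨[(nat_lit 140), (nat_lit 160), (nat_lit 180)], [(nat_lit 0), (nat_lit 0), (nat_lit 799)], [((nat_lit 0), (nat_lit 0), (nat_lit 0)), ((nat_lit 0), (nat_lit 0), (nat_lit 0)), ((nat_lit 728), (nat_lit 1000), (nat_lit 454))], ((nat_lit 100), (nat_lit 79), (nat_lit 37))⟩, (nat_lit 219510), (nat_lit 300), (nat_lit 2061), (nat_lit 8755600), (nat_lit 3664797), [(nat_lit 1161356000), (nat_lit 1400896000), (nat_lit 1658844000)], [], [(nat_lit 7214624812), (nat_lit 6940181030), (nat_lit 6328208578), (nat_lit 6064972252), (nat_lit 7280171804), (nat_lit 7011754078), (nat_lit 6306517744), (nat_lit 6035401758)], (nat_lit 780000), (nat_lit 1271251), (nat_lit 0), (nat_lit 780000), (nat_lit 1271251), (nat_lit 1271251), [(nat_lit 1977501), (nat_lit 1271251), (nat_lit 1271251)], [(nat_lit 31), (nat_lit 65), (nat_lit 603), (nat_lit 175), (nat_lit 14)]⟩⟩) (.spl (nat_lit 0) (nat_lit 330) (.leaf ⟨(nat_lit 60), (nat_lit 810), (nat_lit 0), (nat_lit 130), (nat_lit 0), (nat_lit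 8182), (nat_lit 8353), (nat_lit 1520), (nat_lit 0), (nat_lit 0), (nat_lit 240000), [((nat_lit 330), [((nat_lit 37), (nat_lit 5), (nat_lit 60))])], ⟨(nat_lit 6), true, false, false, (nat_lit 241), (nat_lit 4183), (nat_lit 4473), [(nat_lit 1407167), (nat_lit 1410812), (nat_lit 1493417), (nat_lit 1497463), (nat_lit 1713072), (nat_lit 1708966), (nat_lit 1799322), (nat_lit 1795617)]⟩, ⟨(nat_lit 3), false, false, false, (nat_lit 84), (nat_lit 4183), (nat_lit 4473), [(nat_lit 1073842), (nat_lit 1082054), (nat_lit 1138540), (nat_lit 1147053), (nat_lit 1277776), (nat_lit 1280820), (nat_lit 1342476), (nat_lit 1345821)]⟩, (nat_lit 3991251), (nat_lit 46193822), (nat_lit 17419167), (nat_lit 3387011), (nat_lit 8), (nat_lit 0), [⟨(nat_lit 0), (nat_lit 100), (nat_lit 85), (nat_lit 97), (nat_lit 1406281)⟩], [⟨(nat_lit 0), (nat_lit 100), (nat_lit 81), (nat_lit 42), (nat_lit 262382274)⟩], [⟨(nat_lit 1), (nat_lit 64), (nat_lit 95), (nat_lit 100), (nat_lit 609163324)⟩],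 [],
 ⟨⟨[(nat_lit 40), (nat_lit 80), (nat_lit 100)], [(nat_lit 0), (nat_lit 0), (nat_lit 1280)], [((nat_lit 0), (nat_lit 0), (nat_lit 0)), ((nat_lit 0), (nat_lit 0), (nat_lit 0)), ((nat_lit 1000), (nat_lit 800), (nat_lit 600))], ((nat_lit 81), (nat_lit 100), (nat_lit 48))⟩, (nat_lit 0), (nat_lit 300), (nat_lit 308), (nat_lit 51421858), (nat_lit 462814), [(nat_lit 2056874283), (nat_lit 4113748581), (nat_lit 5138767419)], [(nat_lit 0), (nat_lit 0), (nat_lit 0)], [(nat_lit 25045332764), (nat_lit 25897457385), (nat_lit 33092886814), (nat_lit 34324900536), (nat_lit 20830032130), (nat_lit 21577880514), (nat_lit 25333571923), (nat_lit 26443633121)], (nat_lit 1271251), (nat_lit 1271251), (nat_lit 780000), (nat_lit 2253751), (nat_lit 0), (nat_lit 780000), [(nat_lit 490000), (nat_lit 1100000), (nat_lit 1442501)], [(nat_lit 3), (nat_lit 50), (nat_lit 345), (nat_lit 125), (nat_lit 13)]⟩,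
 ⟨⟨[(nat_lit 80), (nat_lit 120), (nat_lit 140)], [(nat_lit 0), (nat_lit 0), (nat_lit 1164)], [((nat_lit 0), (nat_lit 0), (nat_lit 0)), ((nat_lit 0), (nat_lit 0), (nat_lit 0)), ((nat_lit 941), (nat_lit 1000), (nat_lit 576))], ((nat_lit 100), (nat_lit 98), (nat_lit 48))⟩, (nat_lit 2824386), (nat_lit 143), (nat_lit 143), (nat_lit 0), (nat_lit 0), [(nat_lit 4406720000), (nat_lit 7489920000), (nat_lit 9251480000)], [], [(nat_lit 23513464820), (nat_lit 27523926322), (nat_lit 26812639773), (nat_lit 29658862482), (nat_lit 30355296212), (nat_lit 34220124936), (nat_lit 32578620859), (nat_lit 35347084714)], (nat_lit 0), (nat_lit 0), (nat_lit 0), (nat_lit 0), (nat_lit 0), (nat_lit 0), [], [(nat_lit 17), (nat_lit 58), (nat_lit 401), (nat_lit 175), (nat_lit 11)]⟩,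
 ⟨⟨[(nat_lit 140), (nat_lit 160), (nat_lit 180)], [(nat_lit 0), (nat_lit 0), (nat_lit 799)], [((nat_lit 0), (nat_lit 0), (nat_lit 0)), ((nat_lit 0), (nat_lit 0), (nat_lit 0)), ((nat_lit 728), (nat_lit 1000), (nat_lit 454))], ((nat_lit 100), (nat_lit 67), (nat_lit 52))⟩, (nat_lit 114218), (nat_lit 300), (nat_lit 1542), (nat_lit 9646000), (nat_lit 2605635), [(nat_lit 1279460000), (nat_lit 1543360000), (nat_lit 1827540000)], [], [(nat_lit 7658890440), (nat_lit 7343946550), (nat_lit 6541256140), (nat_lit 6238002015), (nat_lit 7891020640), (nat_lit 7569038480), (nat_lit 6659410080), (nat_lit 6353936535)], (nat_lit 780000), (nat_lit 1271251), (nat_lit 0), (nat_lit 780000), (nat_lit 1271251), (nat_lit 1271251), [(nat_lit 1977501), (nat_lit 1271251), (nat_lit 1271251)], [(nat_lit 31), (nat_lit 65), (nat_lit 473), (nat_lit 175), (nat_lit 11)]⟩⟩) (.leaf ⟨(nat_lit 0), (nat_lit 882), (nat_lit 0), (nat_lit 118), (nat_lit 0), (nat_lit 5881), (nat_lit 8986), (nat_lit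 1300), (nat_lit 0), (nat_lit 0), (nat_lit 0), [], Pd.none, Pd.none, (nat_lit 0), (nat_lit 1), (nat_lit 0), (nat_lit 0), (nat_lit 8), (nat_lit 0), [], [], [⟨(nat_lit 1), (nat_lit 64), (nat_lit 95), (nat_lit 100), (nat_lit 537807671)⟩], [⟨(nat_lit 1), (nat_lit 60), (nat_lit 100), (nat_lit 83), (nat_lit 130721406)⟩],
 ⟨⟨[(nat_lit 40), (nat_lit 60), (nat_lit 80)], [(nat_lit 0), (nat_lit 197), (nat_lit 800)], [((nat_lit 0), (nat_lit 0), (nat_lit 0)), ((nat_lit 1000), (nat_lit 908), (nat_lit 154)), ((nat_lit 1000), (nat_lit 781), (nat_lit 471))], ((nat_lit 78), (nat_lit 100), (nat_lit 49))⟩, (nat_lit 0), (nat_lit 270), (nat_lit 270), (nat_lit 0), (nat_lit 495384), [(nat_lit 2032000129), (nat_lit 3282000037), (nat_lit 4688000000)], [], [(nat_lit 22726756616), (nat_lit 23585553073), (nat_lit 29739127188), (nat_lit 30730753139), (nat_lit 21079932936), (nat_lit 21783089956), (nat_lit 25752136830), (nat_lit 26295419559)], (nat_lit 1271251), (nat_lit 1271251),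 (nat_lit 780000), (nat_lit 2253751), (nat_lit 0), (nat_lit 780000), [(nat_lit 490000), (nat_lit 780000), (nat_lit 1100000)], [(nat_lit 2), (nat_lit 44), (nat_lit 345), (nat_lit 125), (nat_lit 16)]⟩,
 ⟨⟨[(nat_lit 80), (nat_lit 120), (nat_lit 140)], [(nat_lit 0), (nat_lit 0), (nat_lit 1164)], [((nat_lit 0), (nat_lit 0), (nat_lit 0)), ((nat_lit 0), (nat_lit 0), (nat_lit 0)), ((nat_lit 941), (nat_lit 1000), (nat_lit 576))], ((nat_lit 100), (nat_lit 98), (nat_lit 48))⟩, (nat_lit 2857847), (nat_lit 143), (nat_lit 143), (nat_lit 0), (nat_lit 0), [(nat_lit 4688000000), (nat_lit 7968000000), (nat_lit 9842000000)], [], [(nat_lit 25125494180), (nat_lit 29415591664), (nat_lit 28449727746), (nat_lit 31627264404), (nat_lit 32280461864), (nat_lit 36553944432), (nat_lit 34764755758), (nat_lit 37720102228)], (nat_lit 0), (nat_lit 0), (nat_lit 0), (nat_lit 0), (nat_lit 0), (nat_lit 0), [], [(nat_lit 17), (nat_lit 58), (nat_lit 401), (nat_lit 175), (nat_lit 11)]⟩,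
 ⟨⟨[(nat_lit 140), (nat_lit 160), (nat_lit 180)], [(nat_lit 0), (nat_lit 0), (nat_lit 799)], [((nat_lit 0), (nat_lit 0), (nat_lit 0)), ((nat_lit 0), (nat_lit 0), (nat_lit 0)), ((nat_lit 728), (nat_lit 1000), (nat_lit 454))], ((nat_lit 100), (nat_lit 67), (nat_lit 52))⟩, (nat_lit 103675), (nat_lit 300), (nat_lit 1699), (nat_lit 8755600), (nat_lit 2932617), [(nat_lit 1161356000), (nat_lit 1400896000), (nat_lit 1658844000)], [], [(nat_lit 7200603496), (nat_lit 6930235586), (nat_lit 6311808376), (nat_lit 6044668177), (nat_lit 7275907088), (nat_lit 7006624360), (nat_lit 6294602944), (nat_lit 6022651023)], (nat_lit 780000), (nat_lit 1271251), (nat_lit 0), (nat_lit 780000), (nat_lit 1271251), (nat_lit 1271251), [(nat_lit 1977501), (nat_lit 1271251), (nat_lit 1271251)], [(nat_lit 31), (nat_lit 65), (nat_lit 513), (nat_lit 175), (nat_lit 12)]⟩⟩))) (.trZ (nat_lit 0) (nat_lit 2) (nat_lit 4) (nat_lit 100) (nat_lit 80) (nat_lit 52) (nat_lit 20) (.leaf ⟨(nat_lit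 59), (nat_lit 624), (nat_lit 0), (nat_lit 317), (nat_lit 0), (nat_lit 8156), (nat_lit 7866), (nat_lit 3127), (nat_lit 0), (nat_lit 0), (nat_lit 236000), [((nat_lit 340), [((nat_lit 37), (nat_lit 5), (nat_lit 59))])], ⟨(nat_lit 6), true, false, false, (nat_lit 241), (nat_lit 3872), (nat_lit 4473), [(nat_lit 1407125), (nat_lit 1414492), (nat_lit 1493321), (nat_lit 1501595), (nat_lit 1713062), (nat_lit 1704874), (nat_lit 1799258), (nat_lit 1791977)]⟩, ⟨(nat_lit 4), false, false, false, (nat_lit 114), (nat_lit 3872), (nat_lit 4473), [(nat_lit 1172511), (nat_lit 1187839), (nat_lit 1215612), (nat_lit 1231393), (nat_lit 1342475), (nat_lit 1349162), (nat_lit 1385576), (nat_lit 1392716)]⟩, (nat_lit 4357807), (nat_lit 44631042), (nat_lit 17110048), (nat_lit 5258910), (nat_lit 8), (nat_lit 0), [⟨(nat_lit 0), (nat_lit 81), (nat_lit 72), (nat_lit 100), (nat_lit 705750310)⟩], [⟨(nat_lit 0), (nat_lit 100), (nat_lit 76), (nat_lit 65), (nat_lit 48259917)⟩], [⟨(nat_lit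 1), (nat_lit 40), (nat_lit 92), (nat_lit 100), (nat_lit 1527640)⟩], [⟨(nat_lit 1), (nat_lit 69), (nat_lit 100), (nat_lit 76), (nat_lit 458108656)⟩, ⟨(nat_lit 1), (nat_lit 60), (nat_lit 100), (nat_lit 83), (nat_lit 168520)⟩],
 ⟨⟨[(nat_lit 40), (nat_lit 80), (nat_lit 100)], [(nat_lit 0), (nat_lit 0), (nat_lit 1280)], [((nat_lit 0), (nat_lit 0), (nat_lit 0)), ((nat_lit 0), (nat_lit 0), (nat_lit 0)), ((nat_lit 1000), (nat_lit 800), (nat_lit 600))], ((nat_lit 81), (nat_lit 100), (nat_lit 48))⟩, (nat_lit 5343), (nat_lit 300), (nat_lit 312), (nat_lit 51517346), (nat_lit 498593), [(nat_lit 2059879678), (nat_lit 4121387629), (nat_lit 5158569771)], [(nat_lit 0), (nat_lit 0), (nat_lit 0)], [(nat_lit 24128476548), (nat_lit 25799220765), (nat_lit 31259951053), (nat_lit 33689030340), (nat_lit 20931884319), (nat_lit 22421372401), (nat_lit 25315616934), (nat_lit 27530928094)], (nat_lit 1271251), (nat_lit 1271251), (nat_lit 780000), (nat_lit 2253751), (nat_lit 111251),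 (nat_lit 780000), [(nat_lit 490000), (nat_lit 1100000), (nat_lit 1442501)], [(nat_lit 3), (nat_lit 50), (nat_lit 345), (nat_lit 125), (nat_lit 13)]⟩,
 ⟨⟨[(nat_lit 80), (nat_lit 120), (nat_lit 140)], [(nat_lit 0), (nat_lit 0), (nat_lit 1164)], [((nat_lit 0), (nat_lit 0), (nat_lit 0)), ((nat_lit 0), (nat_lit 0), (nat_lit 0)), ((nat_lit 941), (nat_lit 1000), (nat_lit 576))], ((nat_lit 100), (nat_lit 98), (nat_lit 48))⟩, (nat_lit 2798655), (nat_lit 143), (nat_lit 143), (nat_lit 0), (nat_lit 0), [(nat_lit 4411408000), (nat_lit 7497888000), (nat_lit 9261322000)], [], [(nat_lit 23868612188), (nat_lit 27765899070), (nat_lit 27210519217), (nat_lit 29991727803), (nat_lit 30449215830), (nat_lit 33514296056), (nat_lit 32105680820), (nat_lit 34804402991)], (nat_lit 0), (nat_lit 0), (nat_lit 0), (nat_lit 0), (nat_lit 0), (nat_lit 0), [], [(nat_lit 17), (nat_lit 58), (nat_lit 401), (nat_lit 175), (nat_lit 11)]⟩,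
 ⟨⟨[(nat_lit 120), (nat_lit 140), (nat_lit 160)], [(nat_lit 0), (nat_lit 266), (nat_lit 862)], [((nat_lit 0), (nat_lit 0), (nat_lit 0)), ((nat_lit 960), (nat_lit 1000), (nat_lit 200)), ((nat_lit 874), (nat_lit 1000), (nat_lit 406))], ((nat_lit 100), (nat_lit 83), (nat_lit 48))⟩, (nat_lit 650685), (nat_lit 300), (nat_lit 907), (nat_lit 21048800), (nat_lit 1448799), [(nat_lit 2525856000), (nat_lit 3119914000), (nat_lit 3763424000)], [], [(nat_lit 15725853975), (nat_lit 15457589693), (nat_lit 14115046442), (nat_lit 13847088925), (nat_lit 15866710133), (nat_lit 15605288975), (nat_lit 14216145638), (nat_lit 13916306886)], (nat_lit 1271251), (nat_lit 1271251), (nat_lit 111251), (nat_lit 780000), (nat_lit 1271251), (nat_lit 1271251), [(nat_lit 1695001), (nat_lit 1271251), (nat_lit 1271251)], [(nat_lit 27), (nat_lit 62), (nat_lit 320), (nat_lit 100), (nat_lit 8)]⟩⟩)))))))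
noncomputable def c11_8 : Tr Lf :=
 (.spl (nat_lit 5) (nat_lit 200) (.leaf ⟨(nat_lit 0), (nat_lit 989), (nat_lit 0), (nat_lit 11), (nat_lit 0), (nat_lit 8018), (nat_lit 7681), (nat_lit 131), (nat_lit 0), (nat_lit 0), (nat_lit 0), [], Pd.none, Pd.none, (nat_lit 0), (nat_lit 1), (nat_lit 0), (nat_lit 0), (nat_lit 3), (nat_lit 0), [], [⟨(nat_lit 0), (nat_lit 100), (nat_lit 72), (nat_lit 77), (nat_lit 91847913)⟩], [], [],
 ⟨⟨[(nat_lit 40), (nat_lit 80), (nat_lit 120)], [(nat_lit 0), (nat_lit 0), (nat_lit 2151)], [((nat_lit 0), (nat_lit 0), (nat_lit 0)), ((nat_lit 0), (nat_lit 0), (nat_lit 0)), ((nat_lit 1000), (nat_lit 815), (nat_lit 753))], ((nat_lit 80), (nat_lit 100), (nat_lit 63))⟩, (nat_lit 435146), (nat_lit 300), (nat_lit 337), (nat_lit 58600008), (nat_lit 394705), [(nat_lit 2164302783), (nat_lit 4688000012), (nat_lit 7968000000)], [], [(nat_lit 32820224418), (nat_lit 33725935946), (nat_lit 43706127248), (nat_lit 45397183188), (nat_lit 27859339086),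 (nat_lit 29128899951), (nat_lit 39714440233), (nat_lit 36655765747)], (nat_lit 1271251), (nat_lit 1271251), (nat_lit 780000), (nat_lit 3072501), (nat_lit 0), (nat_lit 780000), [(nat_lit 490000), (nat_lit 1100000), (nat_lit 1785001)], [(nat_lit 4), (nat_lit 51), (nat_lit 373), (nat_lit 150), (nat_lit 12)]⟩,
 ⟨⟨[(nat_lit 80), (nat_lit 120), (nat_lit 160)], [(nat_lit 0), (nat_lit 0), (nat_lit 2132)], [((nat_lit 0), (nat_lit 0), (nat_lit 0)), ((nat_lit 0), (nat_lit 0), (nat_lit 0)), ((nat_lit 858), (nat_lit 1000), (nat_lit 713))], ((nat_lit 100), (nat_lit 91), (nat_lit 64))⟩, (nat_lit 4135947), (nat_lit 252), (nat_lit 252), (nat_lit 0), (nat_lit 0), [(nat_lit 4688000000), (nat_lit 7968000000), (nat_lit 11872000000)], [], [(nat_lit 23257459112), (nat_lit 29636519086), (nat_lit 38739379384), (nat_lit 42763290216), (nat_lit 19134458543), (nat_lit 24048731160), (nat_lit 32139433340), (nat_lit 34841783152)], (nat_lit 0), (nat_lit 0), (nat_lit 0), (nat_lit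 0), (nat_lit 0), (nat_lit 0), [], [(nat_lit 18), (nat_lit 59), (nat_lit 483), (nat_lit 250), (nat_lit 12)]⟩,
 ⟨⟨[(nat_lit 140), (nat_lit 180), (nat_lit 200)], [(nat_lit 0), (nat_lit 0), (nat_lit 2835)], [((nat_lit 0), (nat_lit 0), (nat_lit 0)), ((nat_lit 0), (nat_lit 0), (nat_lit 0)), ((nat_lit 363), (nat_lit 1000), (nat_lit 798))], ((nat_lit 0), (nat_lit 0), (nat_lit 0))⟩, (nat_lit 3026), (nat_lit 300), (nat_lit 1654), (nat_lit 859107), (nat_lit 2339932), [(nat_lit 108262000), (nat_lit 154638000), (nat_lit 180400000)], [], [(nat_lit 1036442233), (nat_lit 888259353), (nat_lit 826293592), (nat_lit 780517289), (nat_lit 785613314), (nat_lit 739695316), (nat_lit 684946977), (nat_lit 687912235)], (nat_lit 780000), (nat_lit 1598751), (nat_lit 0), (nat_lit 780000), (nat_lit 0), (nat_lit 1412501), [(nat_lit 1977501), (nat_lit 1271251), (nat_lit 1271251)], [(nat_lit 32), (nat_lit 67), (nat_lit 481), (nat_lit 150), (nat_lit 11)]⟩⟩) (.trX (nat_lit 3) (nat_lit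 5) (nat_lit 4) (nat_lit 100) (nat_lit 40) (nat_lit 92) (nat_lit 390) (.spl (nat_lit 1) (nat_lit 280) (.spl (nat_lit 1) (nat_lit 260) (.spl (nat_lit 0) (nat_lit 330) (.spl (nat_lit 6) (nat_lit 36) (.leaf ⟨(nat_lit 0), (nat_lit 743), (nat_lit 0), (nat_lit 257), (nat_lit 0), (nat_lit 7107), (nat_lit 9082), (nat_lit 3134), (nat_lit 0), (nat_lit 0), (nat_lit 0), [], Pd.none, Pd.none, (nat_lit 0), (nat_lit 1), (nat_lit 0), (nat_lit 0), (nat_lit 5), (nat_lit 0), [], [], [⟨(nat_lit 1), (nat_lit 40), (nat_lit 98), (nat_lit 100), (nat_lit 92568332)⟩], [⟨(nat_lit 1), (nat_lit 90), (nat_lit 100), (nat_lit 74), (nat_lit 349792818)⟩],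
 ⟨⟨[(nat_lit 40), (nat_lit 80), (nat_lit 100)], [(nat_lit 0), (nat_lit 0), (nat_lit 1280)], [((nat_lit 0), (nat_lit 0), (nat_lit 0)), ((nat_lit 0), (nat_lit 0), (nat_lit 0)), ((nat_lit 1000), (nat_lit 800), (nat_lit 600))], ((nat_lit 80), (nat_lit 100), (nat_lit 57))⟩, (nat_lit 941712), (nat_lit 201), (nat_lit 201), (nat_lit 0), (nat_lit 67957), [(nat_lit 2759870931), (nat_lit 4688000001), (nat_lit 6250000000)], [], [(nat_lit 23057238413), (nat_lit 24138500375), (nat_lit 40104562822), (nat_lit 40924457074), (nat_lit 19381836669), (nat_lit 20337078047), (nat_lit 33045204614), (nat_lit 33537793727)], (nat_lit 1271251), (nat_lit 1271251), (nat_lit 780000), (nat_lit 2990626), (nat_lit 0), (nat_lit 780000), [(nat_lit 490000), (nat_lit 1100000), (nat_lit 1442501)], [(nat_lit 3), (nat_lit 50), (nat_lit 373), (nat_lit 150), (nat_lit 14)]⟩,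
 ⟨⟨[(nat_lit 80), (nat_lit 120), (nat_lit 140)], [(nat_lit 0), (nat_lit 0), (nat_lit 1164)], [((nat_lit 0), (nat_lit 0), (nat_lit 0)), ((nat_lit 0), (nat_lit 0), (nat_lit 0)), ((nat_lit 941), (nat_lit 1000), (nat_lit 576))], ((nat_lit 100), (nat_lit 94), (nat_lit 58))⟩, (nat_lit 0), (nat_lit 113), (nat_lit 113), (nat_lit 0), (nat_lit 0), [(nat_lit 4688000000), (nat_lit 7968000000), (nat_lit 9842000000)], [], [(nat_lit 15920944150), (nat_lit 17684396154), (nat_lit 30743428503), (nat_lit 31494797652), (nat_lit 32268531368), (nat_lit 33109727691), (nat_lit 40524779193), (nat_lit 40969024994)], (nat_lit 0), (nat_lit 0), (nat_lit 0), (nat_lit 0), (nat_lit 0), (nat_lit 0), [], [(nat_lit 17), (nat_lit 58), (nat_lit 538), (nat_lit 300), (nat_lit 15)]⟩,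
 ⟨⟨[(nat_lit 140), (nat_lit 180), (nat_lit 200)], [(nat_lit 0), (nat_lit 0), (nat_lit 2835)], [((nat_lit 0), (nat_lit 0), (nat_lit 0)), ((nat_lit 0), (nat_lit 0), (nat_lit 0)), ((nat_lit 363), (nat_lit 1000), (nat_lit 798))], ((nat_lit 0), (nat_lit 0), (nat_lit 0))⟩, (nat_lit 70709), (nat_lit 300), (nat_lit 645), (nat_lit 20071700), (nat_lit 369276), [(nat_lit 2529394000), (nat_lit 3612906000), (nat_lit 4214800000)], [], [(nat_lit 17965629260), (nat_lit 16988480977), (nat_lit 15369165294), (nat_lit 14440756747), (nat_lit 17759939632), (nat_lit 16723839195), (nat_lit 15116488450), (nat_lit 14012878182)], (nat_lit 780000), (nat_lit 1598751), (nat_lit 0), (nat_lit 780000), (nat_lit 1271251), (nat_lit 1271251), [(nat_lit 1977501), (nat_lit 1271251), (nat_lit 1271251)], [(nat_lit 32), (nat_lit 67), (nat_lit 428), (nat_lit 200), (nat_lit 9)]⟩⟩) (.dle (nat_lit 0))) (.leaf ⟨(nat_lit 0), (nat_lit 768), (nat_lit 0), (nat_lit 232), (nat_lit 0), (nat_lit 5532),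 (nat_lit 9082), (nat_lit 2767), (nat_lit 0), (nat_lit 0), (nat_lit 0), [], Pd.none, Pd.none, (nat_lit 0), (nat_lit 1), (nat_lit 0), (nat_lit 0), (nat_lit 5), (nat_lit 0), [], [⟨(nat_lit 0), (nat_lit 100), (nat_lit 75), (nat_lit 56), (nat_lit 296341092)⟩], [⟨(nat_lit 1), (nat_lit 40), (nat_lit 98), (nat_lit 100), (nat_lit 297230074)⟩], [],
 ⟨⟨[(nat_lit 40), (nat_lit 80), (nat_lit 100)], [(nat_lit 0), (nat_lit 395), (nat_lit 1536)], [((nat_lit 0), (nat_lit 0), (nat_lit 0)), ((nat_lit 1000), (nat_lit 908), (nat_lit 154)), ((nat_lit 1000), (nat_lit 760), (nat_lit 642))], ((nat_lit 76), (nat_lit 100), (nat_lit 63))⟩, (nat_lit 2359823), (nat_lit 220), (nat_lit 220), (nat_lit 0), (nat_lit 129684), [(nat_lit 2066417452), (nat_lit 4688000075), (nat_lit 6250000000)], [], [(nat_lit 22033605377), (nat_lit 22954706400), (nat_lit 36561881702), (nat_lit 37273663032), (nat_lit 19586415358), (nat_lit 20462880667), (nat_lit 35256831009), (nat_lit 34083849067)], (nat_lit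 1271251), (nat_lit 1271251), (nat_lit 780000), (nat_lit 2990626), (nat_lit 0), (nat_lit 780000), [(nat_lit 490000), (nat_lit 1100000), (nat_lit 1442501)], [(nat_lit 3), (nat_lit 50), (nat_lit 373), (nat_lit 150), (nat_lit 14)]⟩,
 ⟨⟨[(nat_lit 80), (nat_lit 120), (nat_lit 160)], [(nat_lit 0), (nat_lit 0), (nat_lit 2132)], [((nat_lit 0), (nat_lit 0), (nat_lit 0)), ((nat_lit 0), (nat_lit 0), (nat_lit 0)), ((nat_lit 858), (nat_lit 1000), (nat_lit 713))], ((nat_lit 100), (nat_lit 91), (nat_lit 64))⟩, (nat_lit 3398782), (nat_lit 164), (nat_lit 164), (nat_lit 0), (nat_lit 0), [(nat_lit 4688000000), (nat_lit 7968000000), (nat_lit 11872000000)], [], [(nat_lit 19632548942), (nat_lit 20984935653), (nat_lit 30743428503), (nat_lit 31494797652), (nat_lit 32288549856), (nat_lit 33109727691), (nat_lit 40524779193), (nat_lit 40969024994)], (nat_lit 0), (nat_lit 0), (nat_lit 0), (nat_lit 0), (nat_lit 0), (nat_lit 0), [], [(nat_lit 18), (nat_lit 59), (nat_lit 538),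 (nat_lit 300), (nat_lit 13)]⟩,
 ⟨⟨[(nat_lit 140), (nat_lit 180), (nat_lit 200)], [(nat_lit 0), (nat_lit 0), (nat_lit 2835)], [((nat_lit 0), (nat_lit 0), (nat_lit 0)), ((nat_lit 0), (nat_lit 0), (nat_lit 0)), ((nat_lit 363), (nat_lit 1000), (nat_lit 798))], ((nat_lit 0), (nat_lit 0), (nat_lit 0))⟩, (nat_lit 63831), (nat_lit 300), (nat_lit 821), (nat_lit 18119200), (nat_lit 742267), [(nat_lit 2283344000), (nat_lit 3261456000), (nat_lit 3804800000)], [], [(nat_lit 16557823098), (nat_lit 15587476514), (nat_lit 14431094564), (nat_lit 13498569740), (nat_lit 16120772144), (nat_lit 15102445866), (nat_lit 13793607614), (nat_lit 12826241750)], (nat_lit 780000), (nat_lit 1598751), (nat_lit 0), (nat_lit 780000), (nat_lit 1271251), (nat_lit 1271251), [(nat_lit 1977501), (nat_lit 1271251), (nat_lit 1271251)], [(nat_lit 32), (nat_lit 67), (nat_lit 428), (nat_lit 200), (nat_lit 9)]⟩⟩)) (.leaf ⟨(nat_lit 42), (nat_lit 788), (nat_lit 0), (nat_lit 170), (nat_lit 0),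 (nat_lit 6818), (nat_lit 8459), (nat_lit 1955), (nat_lit 0), (nat_lit 0), (nat_lit 168000), [((nat_lit 340), [((nat_lit 37), (nat_lit 5), (nat_lit 42))])], ⟨(nat_lit 6), true, false, true, (nat_lit 267), (nat_lit 3872), (nat_lit 4473), [(nat_lit 1428674), (nat_lit 1436268), (nat_lit 1450223), (nat_lit 1458043), (nat_lit 1887575), (nat_lit 1871837), (nat_lit 1909129), (nat_lit 1893617)]⟩, ⟨(nat_lit 3), false, false, false, (nat_lit 94), (nat_lit 3872), (nat_lit 4473), [(nat_lit 1073842), (nat_lit 1090218), (nat_lit 1181619), (nat_lit 1199128), (nat_lit 1277776), (nat_lit 1283782), (nat_lit 1385576), (nat_lit 1392716)]⟩, (nat_lit 4265425), (nat_lit 43274745), (nat_lit 19850901), (nat_lit 3874354), (nat_lit 5), (nat_lit 0), [], [⟨(nat_lit 0), (nat_lit 100), (nat_lit 77), (nat_lit 53), (nat_lit 64034999)⟩], [⟨(nat_lit 1), (nat_lit 49), (nat_lit 95), (nat_lit 100), (nat_lit 290165469)⟩], [⟨(nat_lit 1), (nat_lit 90), (nat_lit 100), (nat_lit 74), (nat_lit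 156709142)⟩],
 ⟨⟨[(nat_lit 40), (nat_lit 80), (nat_lit 120)], [(nat_lit 0), (nat_lit 0), (nat_lit 2151)], [((nat_lit 0), (nat_lit 0), (nat_lit 0)), ((nat_lit 0), (nat_lit 0), (nat_lit 0)), ((nat_lit 1000), (nat_lit 815), (nat_lit 753))], ((nat_lit 80), (nat_lit 100), (nat_lit 63))⟩, (nat_lit 1698652), (nat_lit 273), (nat_lit 273), (nat_lit 0), (nat_lit 205276), [(nat_lit 2007455744), (nat_lit 4284648970), (nat_lit 6703699200)], [(nat_lit 0), (nat_lit 0), (nat_lit 0)], [(nat_lit 23464753848), (nat_lit 25276354350), (nat_lit 39323902728), (nat_lit 40924015506), (nat_lit 20327723706), (nat_lit 21755570126), (nat_lit 40665445363), (nat_lit 37808691006)], (nat_lit 1271251), (nat_lit 1271251), (nat_lit 780000), (nat_lit 2990626), (nat_lit 0), (nat_lit 780000), [(nat_lit 490000), (nat_lit 1100000), (nat_lit 1785001)], [(nat_lit 4), (nat_lit 51), (nat_lit 373), (nat_lit 150), (nat_lit 12)]⟩,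
 ⟨⟨[(nat_lit 80), (nat_lit 120), (nat_lit 140)], [(nat_lit 0), (nat_lit 528), (nat_lit 1572)], [((nat_lit 0), (nat_lit 0), (nat_lit 0)), ((nat_lit 1000), (nat_lit 959), (nat_lit 206)), ((nat_lit 966), (nat_lit 1000), (nat_lit 679))], ((nat_lit 100), (nat_lit 98), (nat_lit 66))⟩, (nat_lit 0), (nat_lit 116), (nat_lit 116), (nat_lit 0), (nat_lit 0), [(nat_lit 4491104000), (nat_lit 7633344000), (nat_lit 9428636000)], [], [(nat_lit 17213656374), (nat_lit 18873000591), (nat_lit 30271472153), (nat_lit 30984386679), (nat_lit 31739755315), (nat_lit 32536237966), (nat_lit 38907523219), (nat_lit 39333719961)], (nat_lit 0), (nat_lit 0), (nat_lit 0), (nat_lit 0), (nat_lit 0), (nat_lit 0), [], [(nat_lit 17), (nat_lit 58), (nat_lit 538), (nat_lit 300), (nat_lit 15)]⟩,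
 ⟨⟨[(nat_lit 140), (nat_lit 180), (nat_lit 200)], [(nat_lit 0), (nat_lit 0), (nat_lit 2835)], [((nat_lit 0), (nat_lit 0), (nat_lit 0)), ((nat_lit 0), (nat_lit 0), (nat_lit 0)), ((nat_lit 363), (nat_lit 1000), (nat_lit 798))], ((nat_lit 0), (nat_lit 0), (nat_lit 0))⟩, (nat_lit 46773), (nat_lit 300), (nat_lit 1014), (nat_lit 13277000), (nat_lit 1178401), [(nat_lit 1673140000), (nat_lit 2389860000), (nat_lit 2788000000)], [], [(nat_lit 12341468920), (nat_lit 11656852868), (nat_lit 10948007055), (nat_lit 10260320675), (nat_lit 11915902480), (nat_lit 11204991975), (nat_lit 10303708840), (nat_lit 9604581758)], (nat_lit 780000), (nat_lit 1598751), (nat_lit 0), (nat_lit 780000), (nat_lit 1271251), (nat_lit 1271251), [(nat_lit 1977501), (nat_lit 1271251), (nat_lit 1271251)], [(nat_lit 32), (nat_lit 67), (nat_lit 428), (nat_lit 200), (nat_lit 9)]⟩⟩)) (.spl (nat_lit 2) (nat_lit 180) (.trX (nat_lit 5) (nat_lit 1) (nat_lit 2) (nat_lit 92) (nat_lit 49) (nat_lit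 100) (nat_lit 380) (.spl (nat_lit 0) (nat_lit 330) (.leaf ⟨(nat_lit 59), (nat_lit 822), (nat_lit 0), (nat_lit 119), (nat_lit 0), (nat_lit 8585), (nat_lit 6524), (nat_lit 1499), (nat_lit 0), (nat_lit 0), (nat_lit 236000), [((nat_lit 330), [((nat_lit 37), (nat_lit 5), (nat_lit 59))])], ⟨(nat_lit 7), true, false, false, (nat_lit 280), (nat_lit 4183), (nat_lit 4473), [(nat_lit 1450291), (nat_lit 1454137), (nat_lit 1493417), (nat_lit 1497463), (nat_lit 1909150), (nat_lit 1901369), (nat_lit 1952275), (nat_lit 1944694)]⟩, ⟨(nat_lit 3), false, false, false, (nat_lit 84), (nat_lit 4183), (nat_lit 4473), [(nat_lit 1073842), (nat_lit 1082054), (nat_lit 1138540), (nat_lit 1147053), (nat_lit 1277776), (nat_lit 1280820), (nat_lit 1342476), (nat_lit 1345821)]⟩, (nat_lit 4206414), (nat_lit 42455604), (nat_lit 21302037), (nat_lit 3242359), (nat_lit 5), (nat_lit 0), [], [⟨(nat_lit 0), (nat_lit 100), (nat_lit 81), (nat_lit 42), (nat_lit 97746928)⟩], [⟨(nat_lit 1),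 (nat_lit 72), (nat_lit 89), (nat_lit 100), (nat_lit 369229154)⟩], [⟨(nat_lit 1), (nat_lit 93), (nat_lit 100), (nat_lit 71), (nat_lit 76668245)⟩],
 ⟨⟨[(nat_lit 40), (nat_lit 80), (nat_lit 120)], [(nat_lit 0), (nat_lit 0), (nat_lit 2151)], [((nat_lit 0), (nat_lit 0), (nat_lit 0)), ((nat_lit 0), (nat_lit 0), (nat_lit 0)), ((nat_lit 1000), (nat_lit 815), (nat_lit 753))], ((nat_lit 80), (nat_lit 100), (nat_lit 63))⟩, (nat_lit 6355), (nat_lit 300), (nat_lit 312), (nat_lit 51517353), (nat_lit 353570), [(nat_lit 2058355217), (nat_lit 4121387619), (nat_lit 6195751943)], [(nat_lit 0), (nat_lit 0), (nat_lit 0)], [(nat_lit 27796988448), (nat_lit 28635537298), (nat_lit 44097004410), (nat_lit 45018353201), (nat_lit 22857451128), (nat_lit 23597698616), (nat_lit 42598017994), (nat_lit 40799452714)], (nat_lit 1271251), (nat_lit 1271251), (nat_lit 780000), (nat_lit 2990626), (nat_lit 0), (nat_lit 780000), [(nat_lit 490000), (nat_lit 1100000), (nat_lit 1785001)], [(nat_lit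 4), (nat_lit 51), (nat_lit 373), (nat_lit 150), (nat_lit 12)]⟩,
 ⟨⟨[(nat_lit 60), (nat_lit 100), (nat_lit 140)], [(nat_lit 0), (nat_lit 0), (nat_lit 2047)], [((nat_lit 0), (nat_lit 0), (nat_lit 0)), ((nat_lit 0), (nat_lit 0), (nat_lit 0)), ((nat_lit 1000), (nat_lit 993), (nat_lit 781))], ((nat_lit 95), (nat_lit 100), (nat_lit 65))⟩, (nat_lit 0), (nat_lit 96), (nat_lit 96), (nat_lit 0), (nat_lit 0), [(nat_lit 3088362000), (nat_lit 5881250000), (nat_lit 9261322000)], [], [(nat_lit 16818797902), (nat_lit 19924118789), (nat_lit 28851706093), (nat_lit 30287642852), (nat_lit 28147738166), (nat_lit 29888036038), (nat_lit 35087790906), (nat_lit 36038802083)], (nat_lit 0), (nat_lit 0), (nat_lit 0), (nat_lit 0), (nat_lit 0), (nat_lit 0), [], [(nat_lit 11), (nat_lit 55), (nat_lit 428), (nat_lit 200), (nat_lit 12)]⟩,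
 ⟨⟨[(nat_lit 140), (nat_lit 180), (nat_lit 200)], [(nat_lit 0), (nat_lit 0), (nat_lit 2835)], [((nat_lit 0), (nat_lit 0), (nat_lit 0)), ((nat_lit 0), (nat_lit 0), (nat_lit 0)), ((nat_lit 363), (nat_lit 1000), (nat_lit 798))], ((nat_lit 0), (nat_lit 0), (nat_lit 0))⟩, (nat_lit 32741), (nat_lit 300), (nat_lit 1374), (nat_lit 9293900), (nat_lit 2004581), [(nat_lit 1171198000), (nat_lit 1672902000), (nat_lit 1951600000)], [], [(nat_lit 8271691506), (nat_lit 7945094096), (nat_lit 7110985333), (nat_lit 6775685101), (nat_lit 8141654664), (nat_lit 7806311617), (nat_lit 6865620006), (nat_lit 6520622918)], (nat_lit 780000), (nat_lit 1271251), (nat_lit 0), (nat_lit 780000), (nat_lit 1271251), (nat_lit 1271251), [(nat_lit 1977501), (nat_lit 1271251), (nat_lit 1271251)], [(nat_lit 32), (nat_lit 67), (nat_lit 429), (nat_lit 175), (nat_lit 9)]⟩⟩) (.leaf ⟨(nat_lit 0), (nat_lit 890), (nat_lit 0), (nat_lit 110), (nat_lit 0), (nat_lit 7847), (nat_lit 6933), (nat_lit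 1364), (nat_lit 0), (nat_lit 0), (nat_lit 0), [], Pd.none, Pd.none, (nat_lit 0), (nat_lit 1), (nat_lit 0), (nat_lit 0), (nat_lit 5), (nat_lit 0), [], [⟨(nat_lit 0), (nat_lit 100), (nat_lit 72), (nat_lit 63), (nat_lit 133429695)⟩], [⟨(nat_lit 1), (nat_lit 72), (nat_lit 89), (nat_lit 100), (nat_lit 411999922)⟩], [⟨(nat_lit 1), (nat_lit 90), (nat_lit 100), (nat_lit 74), (nat_lit 80758371)⟩],
 ⟨⟨[(nat_lit 40), (nat_lit 80), (nat_lit 100)], [(nat_lit 0), (nat_lit 395), (nat_lit 1536)], [((nat_lit 0), (nat_lit 0), (nat_lit 0)), ((nat_lit 1000), (nat_lit 908), (nat_lit 154)), ((nat_lit 1000), (nat_lit 760), (nat_lit 642))], ((nat_lit 76), (nat_lit 100), (nat_lit 63))⟩, (nat_lit 1579747), (nat_lit 300), (nat_lit 306), (nat_lit 50800001), (nat_lit 392420), [(nat_lit 2032000001), (nat_lit 4688000001), (nat_lit 6250000000)], [], [(nat_lit 26303955198), (nat_lit 27134033775), (nat_lit 42974175027), (nat_lit 43844865191), (nat_lit 22253418137), (nat_lit 22975057232),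 (nat_lit 34628630502), (nat_lit 35425953268)], (nat_lit 1271251), (nat_lit 1271251), (nat_lit 780000), (nat_lit 2990626), (nat_lit 0), (nat_lit 780000), [(nat_lit 490000), (nat_lit 1100000), (nat_lit 1442501)], [(nat_lit 3), (nat_lit 50), (nat_lit 373), (nat_lit 150), (nat_lit 14)]⟩,
 ⟨⟨[(nat_lit 60), (nat_lit 100), (nat_lit 140)], [(nat_lit 0), (nat_lit 0), (nat_lit 2047)], [((nat_lit 0), (nat_lit 0), (nat_lit 0)), ((nat_lit 0), (nat_lit 0), (nat_lit 0)), ((nat_lit 1000), (nat_lit 993), (nat_lit 781))], ((nat_lit 95), (nat_lit 100), (nat_lit 65))⟩, (nat_lit 0), (nat_lit 96), (nat_lit 96), (nat_lit 0), (nat_lit 0), [(nat_lit 3282000000), (nat_lit 6250000000), (nat_lit 9842000000)], [], [(nat_lit 17873380235), (nat_lit 21173388166), (nat_lit 30660704214), (nat_lit 32186669448), (nat_lit 29912589201), (nat_lit 31761996912), (nat_lit 37287702874), (nat_lit 38298341336)], (nat_lit 0), (nat_lit 0), (nat_lit 0), (nat_lit 0), (nat_lit 0), (nat_lit 0), [],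 [(nat_lit 11), (nat_lit 55), (nat_lit 428), (nat_lit 200), (nat_lit 12)]⟩,
 ⟨⟨[(nat_lit 140), (nat_lit 180), (nat_lit 200)], [(nat_lit 0), (nat_lit 0), (nat_lit 2835)], [((nat_lit 0), (nat_lit 0), (nat_lit 0)), ((nat_lit 0), (nat_lit 0), (nat_lit 0)), ((nat_lit 363), (nat_lit 1000), (nat_lit 798))], ((nat_lit 0), (nat_lit 0), (nat_lit 0))⟩, (nat_lit 30265), (nat_lit 300), (nat_lit 1530), (nat_lit 8591000), (nat_lit 2339932), [(nat_lit 1082620000), (nat_lit 1546380000), (nat_lit 1804000000)], [], [(nat_lit 7706154456), (nat_lit 7388913070), (nat_lit 6652182658), (nat_lit 6348400768), (nat_lit 7545629168), (nat_lit 7215551805), (nat_lit 6397420062), (nat_lit 6084900671)], (nat_lit 780000), (nat_lit 1271251), (nat_lit 0), (nat_lit 780000), (nat_lit 1271251), (nat_lit 1271251), [(nat_lit 1977501), (nat_lit 1271251), (nat_lit 1271251)], [(nat_lit 32), (nat_lit 67), (nat_lit 468), (nat_lit 175), (nat_lit 10)]⟩⟩))) (.trZ (nat_lit 0) (nat_lit 2) (nat_lit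 4) (nat_lit 100) (nat_lit 80) (nat_lit 52) (nat_lit 20) (.leaf ⟨(nat_lit 0), (nat_lit 400), (nat_lit 0), (nat_lit 600), (nat_lit 0), (nat_lit 7294), (nat_lit 6770), (nat_lit 6291), (nat_lit 0), (nat_lit 0), (nat_lit 0), [], Pd.none, Pd.none, (nat_lit 0), (nat_lit 1), (nat_lit 0), (nat_lit 0), (nat_lit 5), (nat_lit 0), [⟨(nat_lit 0), (nat_lit 81), (nat_lit 72), (nat_lit 100), (nat_lit 53611598)⟩], [⟨(nat_lit 0), (nat_lit 100), (nat_lit 80), (nat_lit 52), (nat_lit 759936370)⟩], [], [],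
 ⟨⟨[(nat_lit 40), (nat_lit 80), (nat_lit 120)], [(nat_lit 0), (nat_lit 0), (nat_lit 2151)], [((nat_lit 0), (nat_lit 0), (nat_lit 0)), ((nat_lit 0), (nat_lit 0), (nat_lit 0)), ((nat_lit 1000), (nat_lit 815), (nat_lit 753))], ((nat_lit 80), (nat_lit 100), (nat_lit 63))⟩, (nat_lit 2091078), (nat_lit 277), (nat_lit 277), (nat_lit 0), (nat_lit 266648), [(nat_lit 2032000096), (nat_lit 4688000125), (nat_lit 7968000000)], [], [(nat_lit 28440918394), (nat_lit 24697024898), (nat_lit 38944147532), (nat_lit 40594408205), (nat_lit 20357193366), (nat_lit 21844213726), (nat_lit 35467653917), (nat_lit 34576684486)], (nat_lit 1271251), (nat_lit 1271251), (nat_lit 780000), (nat_lit 2990626), (nat_lit 111251), (nat_lit 780000), [(nat_lit 490000), (nat_lit 1100000), (nat_lit 1785001)], [(nat_lit 4), (nat_lit 51), (nat_lit 373), (nat_lit 150), (nat_lit 12)]⟩,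
 ⟨⟨[(nat_lit 60), (nat_lit 100), (nat_lit 140)], [(nat_lit 0), (nat_lit 0), (nat_lit 2047)], [((nat_lit 0), (nat_lit 0), (nat_lit 0)), ((nat_lit 0), (nat_lit 0), (nat_lit 0)), ((nat_lit 1000), (nat_lit 993), (nat_lit 781))], ((nat_lit 95), (nat_lit 100), (nat_lit 65))⟩, (nat_lit 3540352), (nat_lit 143), (nat_lit 143), (nat_lit 0), (nat_lit 0), [(nat_lit 3282000000), (nat_lit 6250000000), (nat_lit 9842000000)], [], [(nat_lit 18835180776), (nat_lit 21470918906), (nat_lit 30718180785), (nat_lit 32232096448), (nat_lit 31566568360), (nat_lit 33234818640), (nat_lit 38157184090), (nat_lit 39057338575)], (nat_lit 0), (nat_lit 0), (nat_lit 0), (nat_lit 0), (nat_lit 0), (nat_lit 0), [], [(nat_lit 11), (nat_lit 55), (nat_lit 428), (nat_lit 200), (nat_lit 12)]⟩,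
 ⟨⟨[(nat_lit 120), (nat_lit 160), (nat_lit 180)], [(nat_lit 0), (nat_lit 533), (nat_lit 2066)], [((nat_lit 0), (nat_lit 0), (nat_lit 0)), ((nat_lit 960), (nat_lit 1000), (nat_lit 200)), ((nat_lit 615), (nat_lit 1000), (nat_lit 729))], ((nat_lit 100), (nat_lit 72), (nat_lit 63))⟩, (nat_lit 1404878), (nat_lit 300), (nat_lit 698), (nat_lit 39840001), (nat_lit 776191), [(nat_lit 4780800000), (nat_lit 7123200000), (nat_lit 8434800000)], [], [(nat_lit 31843833386), (nat_lit 31355565326), (nat_lit 28298919423), (nat_lit 27806970234), (nat_lit 32676070777), (nat_lit 32089456563), (nat_lit 28702593791), (nat_lit 28130250392)], (nat_lit 1271251), (nat_lit 1271251), (nat_lit 111251), (nat_lit 780000), (nat_lit 1271251), (nat_lit 1271251), [(nat_lit 1695001), (nat_lit 1271251), (nat_lit 1271251)], [(nat_lit 28), (nat_lit 65), (nat_lit 428), (nat_lit 200), (nat_lit 10)]⟩⟩))))))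
noncomputable def c11_9 : Tr Lf :=
 (.spl (nat_lit 1) (nat_lit 280) (.spl (nat_lit 5) (nat_lit 120) (.spl (nat_lit 6) (nat_lit 24) (.leaf ⟨(nat_lit 663), (nat_lit 337), (nat_lit 0), (nat_lit 0), (nat_lit 0), (nat_lit 4657), (nat_lit 2438), (nat_lit 0), (nat_lit 0), (nat_lit 0), (nat_lit 945000), [((nat_lit 340), [((nat_lit 18), (nat_lit 2), (nat_lit 569)), ((nat_lit 37), (nat_lit 5), (nat_lit 94))])], ⟨(nat_lit 6), false, false, false, (nat_lit 199), (nat_lit 3872), (nat_lit 4473), [(nat_lit 1407125), (nat_lit 1414492), (nat_lit 1450223), (nat_lit 1458043), (nat_lit 1543097), (nat_lit 1543551), (nat_lit 1586195), (nat_lit 1587102)]⟩, ⟨(nat_lit 3), false, false, false, (nat_lit 94), (nat_lit 3872), (nat_lit 4473), [(nat_lit 1073842), (nat_lit 1090218), (nat_lit 1181619), (nat_lit 1199128), (nat_lit 1277776), (nat_lit 1283782), (nat_lit 1385576), (nat_lit 1392716)]⟩, (nat_lit 3776716), (nat_lit 49703502), (nat_lit 13180694), (nat_lit 4115804), (nat_lit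 3), (nat_lit 0), [], [⟨(nat_lit 0), (nat_lit 100), (nat_lit 72), (nat_lit 77), (nat_lit 159527333)⟩], [], [],
 ⟨⟨[(nat_lit 40), (nat_lit 80), (nat_lit 100)], [(nat_lit 0), (nat_lit 0), (nat_lit 1280)], [((nat_lit 0), (nat_lit 0), (nat_lit 0)), ((nat_lit 0), (nat_lit 0), (nat_lit 0)), ((nat_lit 1000), (nat_lit 800), (nat_lit 600))], ((nat_lit 81), (nat_lit 100), (nat_lit 48))⟩, (nat_lit 1954), (nat_lit 213), (nat_lit 213), (nat_lit 0), (nat_lit 210483), [(nat_lit 2058542963), (nat_lit 1693069044), (nat_lit 697004400)], [(nat_lit 0), (nat_lit 0), (nat_lit 0)], [(nat_lit 18880833120), (nat_lit 21375047025), (nat_lit 20736307202), (nat_lit 22921622099), (nat_lit 16630581157), (nat_lit 18016428239), (nat_lit 18166488230), (nat_lit 19563505102)], (nat_lit 1271251), (nat_lit 1271251), (nat_lit 780000), (nat_lit 1435001), (nat_lit 0), (nat_lit 780000), [(nat_lit 490000), (nat_lit 1100000), (nat_lit 1442501)], [(nat_lit 3), (nat_lit 50), (nat_lit 317), (nat_lit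 100), (nat_lit 12)]⟩,
 ⟨⟨[(nat_lit 80), (nat_lit 120), (nat_lit 140)], [(nat_lit 0), (nat_lit 0), (nat_lit 1164)], [((nat_lit 0), (nat_lit 0), (nat_lit 0)), ((nat_lit 0), (nat_lit 0), (nat_lit 0)), ((nat_lit 941), (nat_lit 1000), (nat_lit 576))], ((nat_lit 100), (nat_lit 98), (nat_lit 48))⟩, (nat_lit 914123), (nat_lit 524), (nat_lit 524), (nat_lit 0), (nat_lit 669676), [(nat_lit 1579856000), (nat_lit 2685216000), (nat_lit 3316754000)], [], [(nat_lit 12175092632), (nat_lit 12654257809), (nat_lit 12490558184), (nat_lit 12739497739), (nat_lit 11564197358), (nat_lit 11513102093), (nat_lit 14268527060), (nat_lit 12045306327)], (nat_lit 1271251), (nat_lit 1271251), (nat_lit 780000), (nat_lit 1435001), (nat_lit 0), (nat_lit 780000), [(nat_lit 1100000), (nat_lit 1785001), (nat_lit 1271251)], [(nat_lit 17), (nat_lit 58), (nat_lit 373), (nat_lit 150), (nat_lit 11)]⟩,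
 Rw.none⟩) (.leaf ⟨(nat_lit 0), (nat_lit 1000), (nat_lit 0), (nat_lit 0), (nat_lit 2616), (nat_lit 7119), (nat_lit 7123), (nat_lit 0), (nat_lit 0), (nat_lit 0), (nat_lit 0), [], Pd.none, Pd.none, (nat_lit 0), (nat_lit 1), (nat_lit 0), (nat_lit 0), (nat_lit 3), (nat_lit 0), [], [⟨(nat_lit 0), (nat_lit 100), (nat_lit 72), (nat_lit 77), (nat_lit 150440613)⟩], [], [],
 ⟨⟨[(nat_lit 40), (nat_lit 80), (nat_lit 120)], [(nat_lit 0), (nat_lit 0), (nat_lit 2151)], [((nat_lit 0), (nat_lit 0), (nat_lit 0)), ((nat_lit 0), (nat_lit 0), (nat_lit 0)), ((nat_lit 1000), (nat_lit 815), (nat_lit 753))], ((nat_lit 80), (nat_lit 100), (nat_lit 63))⟩, (nat_lit 2573060), (nat_lit 188), (nat_lit 188), (nat_lit 0), (nat_lit 105160), [(nat_lit 2458601958), (nat_lit 4688000246), (nat_lit 7968000000)], [], [(nat_lit 22495443040), (nat_lit 25819757175), (nat_lit 24136787134), (nat_lit 27026048150), (nat_lit 18450688199), (nat_lit 20210236220), (nat_lit 19491870239), (nat_lit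 21143945493)], (nat_lit 1271251), (nat_lit 1271251), (nat_lit 780000), (nat_lit 1435001), (nat_lit 0), (nat_lit 780000), [(nat_lit 490000), (nat_lit 1100000), (nat_lit 1785001)], [(nat_lit 4), (nat_lit 51), (nat_lit 317), (nat_lit 100), (nat_lit 10)]⟩,
 ⟨⟨[(nat_lit 80), (nat_lit 120), (nat_lit 160)], [(nat_lit 0), (nat_lit 0), (nat_lit 2132)], [((nat_lit 0), (nat_lit 0), (nat_lit 0)), ((nat_lit 0), (nat_lit 0), (nat_lit 0)), ((nat_lit 858), (nat_lit 1000), (nat_lit 713))], ((nat_lit 100), (nat_lit 91), (nat_lit 64))⟩, (nat_lit 0), (nat_lit 414), (nat_lit 414), (nat_lit 0), (nat_lit 325167), [(nat_lit 4688000000), (nat_lit 7968000000), (nat_lit 11872000000)], [], [(nat_lit 37944342942), (nat_lit 39749475581), (nat_lit 38469362852), (nat_lit 40128593968), (nat_lit 34444097147), (nat_lit 35906575667), (nat_lit 42385573356), (nat_lit 36111852291)], (nat_lit 1271251), (nat_lit 1271251), (nat_lit 780000), (nat_lit 1435001), (nat_lit 0), (nat_lit 780000),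 [(nat_lit 1100000), (nat_lit 1785001), (nat_lit 1271251)], [(nat_lit 18), (nat_lit 59), (nat_lit 373), (nat_lit 150), (nat_lit 10)]⟩,
 Rw.none⟩)) (.spl (nat_lit 2) (nat_lit 180) (.leaf ⟨(nat_lit 705), (nat_lit 295), (nat_lit 0), (nat_lit 0), (nat_lit 15), (nat_lit 4304), (nat_lit 2780), (nat_lit 0), (nat_lit 0), (nat_lit 0), (nat_lit 897000), [((nat_lit 340), [((nat_lit 19), (nat_lit 2), (nat_lit 641)), ((nat_lit 37), (nat_lit 5), (nat_lit 64))])], ⟨(nat_lit 6), false, false, false, (nat_lit 199), (nat_lit 3872), (nat_lit 4473), [(nat_lit 1407125), (nat_lit 1414492), (nat_lit 1450223), (nat_lit 1458043), (nat_lit 1543097), (nat_lit 1543551), (nat_lit 1586195), (nat_lit 1587102)]⟩, ⟨(nat_lit 3), false, false, false, (nat_lit 86), (nat_lit 3872), (nat_lit 4473), [(nat_lit 1073842), (nat_lit 1090218), (nat_lit 1138518), (nat_lit 1155575), (nat_lit 1277776), (nat_lit 1283782), (nat_lit 1342475), (nat_lit 1349162)]⟩, (nat_lit 3657630), (nat_lit 50217362),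 (nat_lit 13219305), (nat_lit 3563333), (nat_lit 3), (nat_lit 0), [], [⟨(nat_lit 0), (nat_lit 100), (nat_lit 72), (nat_lit 63), (nat_lit 63773925)⟩], [], [],
 ⟨⟨[(nat_lit 40), (nat_lit 80), (nat_lit 120)], [(nat_lit 0), (nat_lit 0), (nat_lit 2151)], [((nat_lit 0), (nat_lit 0), (nat_lit 0)), ((nat_lit 0), (nat_lit 0), (nat_lit 0)), ((nat_lit 1000), (nat_lit 815), (nat_lit 753))], ((nat_lit 80), (nat_lit 100), (nat_lit 63))⟩, (nat_lit 0), (nat_lit 263), (nat_lit 263), (nat_lit 0), (nat_lit 216101), [(nat_lit 1844564054), (nat_lit 1838232748), (nat_lit 0)], [(nat_lit 0), (nat_lit 0), (nat_lit 297056748)], [(nat_lit 18977747590), (nat_lit 20737767300), (nat_lit 20410294582), (nat_lit 22333132092), (nat_lit 17784051262), (nat_lit 19019279692), (nat_lit 19102763438), (nat_lit 20360356184)], (nat_lit 1271251), (nat_lit 1271251), (nat_lit 780000), (nat_lit 1435001), (nat_lit 0), (nat_lit 780000), [(nat_lit 490000), (nat_lit 1100000), (nat_lit 1785001)], [(nat_lit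 4), (nat_lit 51), (nat_lit 317), (nat_lit 100), (nat_lit 10)]⟩,
 ⟨⟨[(nat_lit 80), (nat_lit 120), (nat_lit 160)], [(nat_lit 0), (nat_lit 0), (nat_lit 2132)], [((nat_lit 0), (nat_lit 0), (nat_lit 0)), ((nat_lit 0), (nat_lit 0), (nat_lit 0)), ((nat_lit 858), (nat_lit 1000), (nat_lit 713))], ((nat_lit 100), (nat_lit 91), (nat_lit 64))⟩, (nat_lit 931706), (nat_lit 574), (nat_lit 574), (nat_lit 0), (nat_lit 827727), [(nat_lit 1382960000), (nat_lit 2350560000), (nat_lit 3502240000)], [], [(nat_lit 7777740848), (nat_lit 8208026386), (nat_lit 7870035000), (nat_lit 8037602758), (nat_lit 7870035000), (nat_lit 8037602758), (nat_lit 10575453180), (nat_lit 7972092990)], (nat_lit 1271251), (nat_lit 1271251), (nat_lit 780000), (nat_lit 1435001), (nat_lit 780000), (nat_lit 1435001), [(nat_lit 1100000), (nat_lit 1785001), (nat_lit 1271251)], [(nat_lit 18), (nat_lit 59), (nat_lit 401), (nat_lit 175), (nat_lit 10)]⟩,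
 Rw.none⟩) (.trZ (nat_lit 0) (nat_lit 2) (nat_lit 4) (nat_lit 100) (nat_lit 80) (nat_lit 52) (nat_lit 20) (.leaf ⟨(nat_lit 588), (nat_lit 255), (nat_lit 0), (nat_lit 157), (nat_lit 0), (nat_lit 4160), (nat_lit 4211), (nat_lit 2343), (nat_lit 0), (nat_lit 0), (nat_lit 1119000), [((nat_lit 340), [((nat_lit 19), (nat_lit 2), (nat_lit 411)), ((nat_lit 37), (nat_lit 5), (nat_lit 177))])], ⟨(nat_lit 6), false, false, false, (nat_lit 199), (nat_lit 3872), (nat_lit 4473), [(nat_lit 1407125), (nat_lit 1414492), (nat_lit 1450223), (nat_lit 1458043), (nat_lit 1543097), (nat_lit 1543551), (nat_lit 1586195), (nat_lit 1587102)]⟩, ⟨(nat_lit 4), false, false, false, (nat_lit 114), (nat_lit 3872), (nat_lit 4473), [(nat_lit 1172511), (nat_lit 1187839), (nat_lit 1215612), (nat_lit 1231393), (nat_lit 1342475), (nat_lit 1349162), (nat_lit 1385576), (nat_lit 1392716)]⟩, (nat_lit 4034131), (nat_lit 48476057), (nat_lit 13070760), (nat_lit 5453183), (nat_lit 4), (nat_lit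 0), [], [⟨(nat_lit 0), (nat_lit 100), (nat_lit 76), (nat_lit 65), (nat_lit 239826279)⟩], [], [],
 ⟨⟨[(nat_lit 40), (nat_lit 80), (nat_lit 120)], [(nat_lit 0), (nat_lit 0), (nat_lit 2151)], [((nat_lit 0), (nat_lit 0), (nat_lit 0)), ((nat_lit 0), (nat_lit 0), (nat_lit 0)), ((nat_lit 1000), (nat_lit 815), (nat_lit 753))], ((nat_lit 80), (nat_lit 100), (nat_lit 63))⟩, (nat_lit 0), (nat_lit 192), (nat_lit 192), (nat_lit 0), (nat_lit 165737), [(nat_lit 2237743618), (nat_lit 1552247597), (nat_lit 0)], [(nat_lit 0), (nat_lit 0), (nat_lit 1125658797)], [(nat_lit 18114246012), (nat_lit 19665052605), (nat_lit 19904383632), (nat_lit 21331805295), (nat_lit 17617673052), (nat_lit 19011054582), (nat_lit 19274764332), (nat_lit 20510926422)], (nat_lit 1271251), (nat_lit 1271251), (nat_lit 780000), (nat_lit 1435001), (nat_lit 111251), (nat_lit 780000), [(nat_lit 490000), (nat_lit 1100000), (nat_lit 1785001)], [(nat_lit 4), (nat_lit 51), (nat_lit 317), (nat_lit 100),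 (nat_lit 10)]⟩,
 ⟨⟨[(nat_lit 80), (nat_lit 120), (nat_lit 160)], [(nat_lit 0), (nat_lit 0), (nat_lit 2132)], [((nat_lit 0), (nat_lit 0), (nat_lit 0)), ((nat_lit 0), (nat_lit 0), (nat_lit 0)), ((nat_lit 858), (nat_lit 1000), (nat_lit 713))], ((nat_lit 100), (nat_lit 91), (nat_lit 64))⟩, (nat_lit 1430426), (nat_lit 529), (nat_lit 529), (nat_lit 0), (nat_lit 717424), [(nat_lit 1931456000), (nat_lit 3282816000), (nat_lit 4891264000)], [], [(nat_lit 9746228006), (nat_lit 10365832836), (nat_lit 10658791641), (nat_lit 10295854685), (nat_lit 10658791641), (nat_lit 10295854685), (nat_lit 14665509939), (nat_lit 10722074774)], (nat_lit 1271251), (nat_lit 1271251), (nat_lit 780000), (nat_lit 1435001), (nat_lit 780000), (nat_lit 1435001), [(nat_lit 1100000), (nat_lit 1785001), (nat_lit 1271251)], [(nat_lit 18), (nat_lit 59), (nat_lit 401), (nat_lit 175), (nat_lit 10)]⟩,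
 ⟨⟨[(nat_lit 120), (nat_lit 160), (nat_lit 180)], [(nat_lit 0), (nat_lit 533), (nat_lit 2066)], [((nat_lit 0), (nat_lit 0), (nat_lit 0)), ((nat_lit 960), (nat_lit 1000), (nat_lit 200)), ((nat_lit 615), (nat_lit 1000), (nat_lit 729))], ((nat_lit 100), (nat_lit 72), (nat_lit 63))⟩, (nat_lit 367610), (nat_lit 300), (nat_lit 550), (nat_lit 10424800), (nat_lit 358723), [(nat_lit 1250976000), (nat_lit 1863904000), (nat_lit 2207106000)], [], [(nat_lit 7799287119), (nat_lit 7533831494), (nat_lit 6180359088), (nat_lit 6024264173), (nat_lit 7159379696), (nat_lit 7114280875), (nat_lit 7751545955), (nat_lit 5553563171)], (nat_lit 1271251), (nat_lit 1271251), (nat_lit 111251), (nat_lit 780000), (nat_lit 780000), (nat_lit 1435001), [(nat_lit 1695001), (nat_lit 1271251), (nat_lit 1271251)], [(nat_lit 28), (nat_lit 65), (nat_lit 373), (nat_lit 150), (nat_lit 9)]⟩⟩)))) (.spl (nat_lit 5) (nat_lit 120) (.leaf ⟨(nat_lit 135), (nat_lit 865), (nat_lit 0), (nat_lit 0),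 (nat_lit 0), (nat_lit 5905), (nat_lit 7346), (nat_lit 0), (nat_lit 0), (nat_lit 0), (nat_lit 540000), [((nat_lit 340), [((nat_lit 37), (nat_lit 5), (nat_lit 135))])], ⟨(nat_lit 7), false, false, false, (nat_lit 217), (nat_lit 3872), (nat_lit 4473), [(nat_lit 1450223), (nat_lit 1458043), (nat_lit 1493321), (nat_lit 1501595), (nat_lit 1586195), (nat_lit 1587102), (nat_lit 1629293), (nat_lit 1630654)]⟩, ⟨(nat_lit 3), false, false, false, (nat_lit 94), (nat_lit 3872), (nat_lit 4473), [(nat_lit 1073842), (nat_lit 1090218), (nat_lit 1181619), (nat_lit 1199128), (nat_lit 1277776), (nat_lit 1283782), (nat_lit 1385576), (nat_lit 1392716)]⟩, (nat_lit 3933462), (nat_lit 48040253), (nat_lit 14890051), (nat_lit 4069696), (nat_lit 3), (nat_lit 0), [⟨(nat_lit 0), (nat_lit 92), (nat_lit 81), (nat_lit 100), (nat_lit 226880175)⟩], [⟨(nat_lit 0), (nat_lit 100), (nat_lit 72), (nat_lit 77), (nat_lit 100289803)⟩], [⟨(nat_lit 0), (nat_lit 100), (nat_lit 88), (nat_lit 37),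 (nat_lit 25684500)⟩], [],
 ⟨⟨[(nat_lit 40), (nat_lit 80), (nat_lit 120)], [(nat_lit 0), (nat_lit 0), (nat_lit 2151)], [((nat_lit 0), (nat_lit 0), (nat_lit 0)), ((nat_lit 0), (nat_lit 0), (nat_lit 0)), ((nat_lit 1000), (nat_lit 815), (nat_lit 753))], ((nat_lit 80), (nat_lit 100), (nat_lit 63))⟩, (nat_lit 2022365), (nat_lit 287), (nat_lit 287), (nat_lit 0), (nat_lit 292967), [(nat_lit 2394710596), (nat_lit 3391514003), (nat_lit 4214279991)], [(nat_lit 0), (nat_lit 0), (nat_lit 0)], [(nat_lit 20713096800), (nat_lit 23628092625), (nat_lit 22460027330), (nat_lit 25002176003), (nat_lit 17564934788), (nat_lit 19155043205), (nat_lit 19502602396), (nat_lit 20538316501)], (nat_lit 1271251), (nat_lit 1271251), (nat_lit 780000), (nat_lit 1435001), (nat_lit 0), (nat_lit 780000), [(nat_lit 490000), (nat_lit 1100000), (nat_lit 1785001)], [(nat_lit 4), (nat_lit 51), (nat_lit 317), (nat_lit 100), (nat_lit 10)]⟩,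
 ⟨⟨[(nat_lit 60), (nat_lit 100), (nat_lit 140)], [(nat_lit 0), (nat_lit 0), (nat_lit 2047)], [((nat_lit 0), (nat_lit 0), (nat_lit 0)), ((nat_lit 0), (nat_lit 0), (nat_lit 0)), ((nat_lit 1000), (nat_lit 993), (nat_lit 781))], ((nat_lit 95), (nat_lit 100), (nat_lit 65))⟩, (nat_lit 2893003), (nat_lit 570), (nat_lit 570), (nat_lit 0), (nat_lit 737222), [(nat_lit 2838930000), (nat_lit 5406250000), (nat_lit 8513330000)], [], [(nat_lit 24001622860), (nat_lit 25830006792), (nat_lit 24436582386), (nat_lit 25993895784), (nat_lit 20620403034), (nat_lit 22205452326), (nat_lit 23868574811), (nat_lit 22261062730)], (nat_lit 1271251), (nat_lit 1271251), (nat_lit 780000), (nat_lit 1435001), (nat_lit 0), (nat_lit 780000), [(nat_lit 780000), (nat_lit 1435001), (nat_lit 1271251)], [(nat_lit 11), (nat_lit 55), (nat_lit 317), (nat_lit 100), (nat_lit 9)]⟩,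
 Rw.none⟩) (.leaf ⟨(nat_lit 451), (nat_lit 518), (nat_lit 0), (nat_lit 31), (nat_lit 0), (nat_lit 4722), (nat_lit 5315), (nat_lit 458), (nat_lit 0), (nat_lit 0), (nat_lit 1804000), [((nat_lit 340), [((nat_lit 37), (nat_lit 5), (nat_lit 451))])], ⟨(nat_lit 7), false, false, false, (nat_lit 217), (nat_lit 3872), (nat_lit 4473), [(nat_lit 1450223), (nat_lit 1458043), (nat_lit 1493321), (nat_lit 1501595), (nat_lit 1586195), (nat_lit 1587102), (nat_lit 1629293), (nat_lit 1630654)]⟩, ⟨(nat_lit 3), false, false, false, (nat_lit 94), (nat_lit 3872), (nat_lit 4473), [(nat_lit 1073842), (nat_lit 1090218), (nat_lit 1181619), (nat_lit 1199128), (nat_lit 1277776), (nat_lit 1283782), (nat_lit 1385576), (nat_lit 1392716)]⟩, (nat_lit 3933462), (nat_lit 48040253), (nat_lit 14890051), (nat_lit 4069696), (nat_lit 3), (nat_lit 0), [⟨(nat_lit 0), (nat_lit 92), (nat_lit 81), (nat_lit 100), (nat_lit 188519358)⟩], [⟨(nat_lit 0), (nat_lit 100), (nat_lit 72), (nat_lit 77),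 (nat_lit 141084440)⟩], [], [],
 ⟨⟨[(nat_lit 40), (nat_lit 80), (nat_lit 120)], [(nat_lit 0), (nat_lit 0), (nat_lit 2151)], [((nat_lit 0), (nat_lit 0), (nat_lit 0)), ((nat_lit 0), (nat_lit 0), (nat_lit 0)), ((nat_lit 1000), (nat_lit 815), (nat_lit 753))], ((nat_lit 80), (nat_lit 100), (nat_lit 63))⟩, (nat_lit 0), (nat_lit 287), (nat_lit 287), (nat_lit 0), (nat_lit 292967), [(nat_lit 2163283882), (nat_lit 1414221556), (nat_lit 0)], [(nat_lit 0), (nat_lit 0), (nat_lit 5434083585)], [(nat_lit 18976263520), (nat_lit 21492393150), (nat_lit 20826084292), (nat_lit 23029984281), (nat_lit 16661387392), (nat_lit 18054272815), (nat_lit 18227471864), (nat_lit 19594850669)], (nat_lit 1271251), (nat_lit 1271251), (nat_lit 780000), (nat_lit 1435001), (nat_lit 0), (nat_lit 780000), [(nat_lit 490000), (nat_lit 1100000), (nat_lit 1785001)], [(nat_lit 4), (nat_lit 51), (nat_lit 317), (nat_lit 100), (nat_lit 10)]⟩,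
 ⟨⟨[(nat_lit 60), (nat_lit 100), (nat_lit 140)], [(nat_lit 0), (nat_lit 0), (nat_lit 2047)], [((nat_lit 0), (nat_lit 0), (nat_lit 0)), ((nat_lit 0), (nat_lit 0), (nat_lit 0)), ((nat_lit 1000), (nat_lit 993), (nat_lit 781))], ((nat_lit 95), (nat_lit 100), (nat_lit 65))⟩, (nat_lit 1490585), (nat_lit 536), (nat_lit 536), (nat_lit 0), (nat_lit 895852), [(nat_lit 1801818000), (nat_lit 3431250000), (nat_lit 5403258000)], [], [(nat_lit 10976749603), (nat_lit 11827469664), (nat_lit 10841534698), (nat_lit 11745365007), (nat_lit 10841534698), (nat_lit 11745365007), (nat_lit 12381158997), (nat_lit 11834311614)], (nat_lit 1271251), (nat_lit 1271251), (nat_lit 780000), (nat_lit 1435001), (nat_lit 780000), (nat_lit 1435001), [(nat_lit 780000), (nat_lit 1435001), (nat_lit 1271251)], [(nat_lit 11), (nat_lit 55), (nat_lit 317), (nat_lit 100), (nat_lit 9)]⟩,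
 ⟨⟨[(nat_lit 140), (nat_lit 180), (nat_lit 200)], [(nat_lit 0), (nat_lit 0), (nat_lit 2835)], [((nat_lit 0), (nat_lit 0), (nat_lit 0)), ((nat_lit 0), (nat_lit 0), (nat_lit 0)), ((nat_lit 363), (nat_lit 1000), (nat_lit 798))], ((nat_lit 0), (nat_lit 0), (nat_lit 0))⟩, (nat_lit 8529), (nat_lit 300), (nat_lit 969), (nat_lit 2421102), (nat_lit 1001846), [(nat_lit 305102000), (nat_lit 435798000), (nat_lit 508400000)], [], [(nat_lit 2334978835), (nat_lit 2070566544), (nat_lit 1824302159), (nat_lit 1681307768), (nat_lit 2082137476), (nat_lit 1929674781), (nat_lit 1693155866), (nat_lit 2085505999)], (nat_lit 780000), (nat_lit 1598751), (nat_lit 0), (nat_lit 780000), (nat_lit 780000), (nat_lit 1435001), [(nat_lit 1977501), (nat_lit 1271251), (nat_lit 1271251)], [(nat_lit 32), (nat_lit 67), (nat_lit 373), (nat_lit 150), (nat_lit 8)]⟩⟩)))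
noncomputable def c11_10 : Tr Lf :=
 (.spl (nat_lit 1) (nat_lit 280) (.spl (nat_lit 6) (nat_lit 24) (.leaf ⟨(nat_lit 815), (nat_lit 72), (nat_lit 0), (nat_lit 113), (nat_lit 0), (nat_lit 3826), (nat_lit 1860), (nat_lit 1758), (nat_lit 0), (nat_lit 0), (nat_lit 938000), [((nat_lit 340), [((nat_lit 18), (nat_lit 2), (nat_lit 774)), ((nat_lit 37), (nat_lit 5), (nat_lit 41))])], ⟨(nat_lit 6), false, false, false, (nat_lit 199), (nat_lit 3872), (nat_lit 4473), [(nat_lit 1407125), (nat_lit 1414492), (nat_lit 1450223), (nat_lit 1458043), (nat_lit 1543097), (nat_lit 1543551), (nat_lit 1586195), (nat_lit 1587102)]⟩, ⟨(nat_lit 3), false, false, false, (nat_lit 94), (nat_lit 3872), (nat_lit 4473), [(nat_lit 1073842), (nat_lit 1090218), (nat_lit 1181619), (nat_lit 1199128), (nat_lit 1277776), (nat_lit 1283782), (nat_lit 1385576), (nat_lit 1392716)]⟩, (nat_lit 3776716), (nat_lit 49703502), (nat_lit 13180694), (nat_lit 4115804), (nat_lit 5), (nat_lit 0), [⟨(nat_lit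 0), (nat_lit 99), (nat_lit 77), (nat_lit 100), (nat_lit 70591248)⟩], [⟨(nat_lit 0), (nat_lit 100), (nat_lit 77), (nat_lit 53), (nat_lit 192527915)⟩], [], [],
 ⟨⟨[(nat_lit 40), (nat_lit 80), (nat_lit 100)], [(nat_lit 0), (nat_lit 0), (nat_lit 1280)], [((nat_lit 0), (nat_lit 0), (nat_lit 0)), ((nat_lit 0), (nat_lit 0), (nat_lit 0)), ((nat_lit 1000), (nat_lit 800), (nat_lit 600))], ((nat_lit 81), (nat_lit 100), (nat_lit 48))⟩, (nat_lit 6387), (nat_lit 213), (nat_lit 213), (nat_lit 0), (nat_lit 210483), [(nat_lit 1938593430), (nat_lit 1391780311), (nat_lit 308536000)], [(nat_lit 0), (nat_lit 0), (nat_lit 0)], [(nat_lit 18461450985), (nat_lit 19874821950), (nat_lit 20189994180), (nat_lit 21536253273), (nat_lit 17793898066), (nat_lit 19128236162), (nat_lit 19468321274), (nat_lit 20654776148)], (nat_lit 1271251), (nat_lit 1271251), (nat_lit 780000), (nat_lit 1435001), (nat_lit 0), (nat_lit 780000), [(nat_lit 490000), (nat_lit 1100000), (nat_lit 1442501)],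 [(nat_lit 3), (nat_lit 50), (nat_lit 317), (nat_lit 100), (nat_lit 12)]⟩,
 ⟨⟨[(nat_lit 80), (nat_lit 120), (nat_lit 140)], [(nat_lit 0), (nat_lit 0), (nat_lit 1164)], [((nat_lit 0), (nat_lit 0), (nat_lit 0)), ((nat_lit 0), (nat_lit 0), (nat_lit 0)), ((nat_lit 941), (nat_lit 1000), (nat_lit 576))], ((nat_lit 100), (nat_lit 98), (nat_lit 48))⟩, (nat_lit 499610), (nat_lit 478), (nat_lit 478), (nat_lit 0), (nat_lit 822399), [(nat_lit 867280000), (nat_lit 1474080000), (nat_lit 1820770000)], [], [(nat_lit 4441800440), (nat_lit 4710492753), (nat_lit 5255564780), (nat_lit 4629252525), (nat_lit 6124999950), (nat_lit 6591745810), (nat_lit 5993394320), (nat_lit 6392478700)], (nat_lit 1271251), (nat_lit 1271251), (nat_lit 780000), (nat_lit 1435001), (nat_lit 1271251), (nat_lit 1271251), [(nat_lit 1100000), (nat_lit 1785001), (nat_lit 1271251)], [(nat_lit 17), (nat_lit 58), (nat_lit 456), (nat_lit 225), (nat_lit 13)]⟩,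
 ⟨⟨[(nat_lit 140), (nat_lit 160), (nat_lit 180)], [(nat_lit 0), (nat_lit 0), (nat_lit 799)], [((nat_lit 0), (nat_lit 0), (nat_lit 0)), ((nat_lit 0), (nat_lit 0), (nat_lit 0)), ((nat_lit 728), (nat_lit 1000), (nat_lit 454))], ((nat_lit 100), (nat_lit 67), (nat_lit 52))⟩, (nat_lit 99282), (nat_lit 300), (nat_lit 731), (nat_lit 8384600), (nat_lit 706280), [(nat_lit 1112146000), (nat_lit 1341536000), (nat_lit 1588554000)], [], [(nat_lit 6086071458), (nat_lit 5707785772), (nat_lit 4668946820), (nat_lit 6486951716), (nat_lit 7177385974), (nat_lit 6800760134), (nat_lit 5363756336), (nat_lit 5037080299)], (nat_lit 780000), (nat_lit 1598751), (nat_lit 0), (nat_lit 780000), (nat_lit 1271251), (nat_lit 1271251), [(nat_lit 1977501), (nat_lit 1271251), (nat_lit 1271251)], [(nat_lit 31), (nat_lit 65), (nat_lit 428), (nat_lit 200), (nat_lit 10)]⟩⟩) (.spl (nat_lit 0) (nat_lit 330) (.leaf ⟨(nat_lit 50), (nat_lit 592), (nat_lit 0), (nat_lit 358), (nat_lit 4041), (nat_lit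 3895), (nat_lit 6255), (nat_lit 5427), (nat_lit 0), (nat_lit 0), (nat_lit 200000), [((nat_lit 330), [((nat_lit 37), (nat_lit 5), (nat_lit 50))])], ⟨(nat_lit 6), false, false, false, (nat_lit 199), (nat_lit 4183), (nat_lit 4473), [(nat_lit 1407167), (nat_lit 1410812), (nat_lit 1450291), (nat_lit 1454137), (nat_lit 1543125), (nat_lit 1543325), (nat_lit 1586250), (nat_lit 1586650)]⟩, ⟨(nat_lit 3), false, false, false, (nat_lit 93), (nat_lit 4183), (nat_lit 4473), [(nat_lit 1073842), (nat_lit 1082054), (nat_lit 1181666), (nat_lit 1190379), (nat_lit 1277776), (nat_lit 1280820), (nat_lit 1385603), (nat_lit 1389149)]⟩, (nat_lit 3756914), (nat_lit 49812577), (nat_lit 13146668), (nat_lit 4040755), (nat_lit 5), (nat_lit 0), [], [⟨(nat_lit 0), (nat_lit 100), (nat_lit 87), (nat_lit 25), (nat_lit 258582389)⟩], [], [⟨(nat_lit 1), (nat_lit 88), (nat_lit 100), (nat_lit 32), (nat_lit 199339378)⟩],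
 ⟨⟨[(nat_lit 40), (nat_lit 80), (nat_lit 120)], [(nat_lit 0), (nat_lit 0), (nat_lit 2151)], [((nat_lit 0), (nat_lit 0), (nat_lit 0)), ((nat_lit 0), (nat_lit 0), (nat_lit 0)), ((nat_lit 1000), (nat_lit 815), (nat_lit 753))], ((nat_lit 80), (nat_lit 100), (nat_lit 63))⟩, (nat_lit 2432403), (nat_lit 175), (nat_lit 175), (nat_lit 0), (nat_lit 75146), [(nat_lit 2015985158), (nat_lit 4208704961), (nat_lit 6462880000)], [(nat_lit 0), (nat_lit 0), (nat_lit 0)], [(nat_lit 20208793367), (nat_lit 21029087677), (nat_lit 22145456739), (nat_lit 22937322176), (nat_lit 19187423174), (nat_lit 19986809460), (nat_lit 21099599034), (nat_lit 21806733246)], (nat_lit 1271251), (nat_lit 1271251), (nat_lit 780000), (nat_lit 1435001), (nat_lit 0), (nat_lit 780000), [(nat_lit 490000), (nat_lit 1100000), (nat_lit 1785001)], [(nat_lit 4), (nat_lit 51), (nat_lit 317), (nat_lit 100), (nat_lit 10)]⟩,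
 ⟨⟨[(nat_lit 80), (nat_lit 120), (nat_lit 160)], [(nat_lit 0), (nat_lit 0), (nat_lit 2132)], [((nat_lit 0), (nat_lit 0), (nat_lit 0)), ((nat_lit 0), (nat_lit 0), (nat_lit 0)), ((nat_lit 858), (nat_lit 1000), (nat_lit 713))], ((nat_lit 100), (nat_lit 91), (nat_lit 64))⟩, (nat_lit 2925037), (nat_lit 262), (nat_lit 262), (nat_lit 0), (nat_lit 280457), [(nat_lit 4453600000), (nat_lit 7569600000), (nat_lit 11278400000)], [], [(nat_lit 23356579885), (nat_lit 24235085355), (nat_lit 30193746935), (nat_lit 25060132318), (nat_lit 31272148016), (nat_lit 32374804761), (nat_lit 31169595260), (nat_lit 32158498030)], (nat_lit 1271251), (nat_lit 1271251), (nat_lit 780000), (nat_lit 1435001), (nat_lit 1271251), (nat_lit 1271251), [(nat_lit 1100000), (nat_lit 1785001), (nat_lit 1271251)], [(nat_lit 18), (nat_lit 59), (nat_lit 456), (nat_lit 225), (nat_lit 11)]⟩,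
 ⟨⟨[(nat_lit 140), (nat_lit 180), (nat_lit 200)], [(nat_lit 0), (nat_lit 0), (nat_lit 2835)], [((nat_lit 0), (nat_lit 0), (nat_lit 0)), ((nat_lit 0), (nat_lit 0), (nat_lit 0)), ((nat_lit 363), (nat_lit 1000), (nat_lit 798))], ((nat_lit 0), (nat_lit 0), (nat_lit 0))⟩, (nat_lit 98497), (nat_lit 300), (nat_lit 603), (nat_lit 27959806), (nat_lit 270936), [(nat_lit 3523436000), (nat_lit 5032764000), (nat_lit 5871200000)], [], [(nat_lit 23898939556), (nat_lit 22287755228), (nat_lit 19276194505), (nat_lit 20467051567), (nat_lit 25141368781), (nat_lit 23682171320), (nat_lit 19971967854), (nat_lit 18166567156)], (nat_lit 780000), (nat_lit 1598751), (nat_lit 0), (nat_lit 780000), (nat_lit 1271251), (nat_lit 1271251), [(nat_lit 1977501), (nat_lit 1271251), (nat_lit 1271251)], [(nat_lit 32), (nat_lit 67), (nat_lit 428), (nat_lit 200), (nat_lit 9)]⟩⟩) (.leaf ⟨(nat_lit 723), (nat_lit 136), (nat_lit 0), (nat_lit 141), (nat_lit 0), (nat_lit 3520), (nat_lit 2513),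 (nat_lit 2138), (nat_lit 0), (nat_lit 0), (nat_lit 227250), [((nat_lit 340), [((nat_lit 19), (nat_lit 0), (nat_lit 413)), ((nat_lit 19), (nat_lit 1), (nat_lit 310))])], ⟨(nat_lit 6), false, false, false, (nat_lit 200), (nat_lit 3872), (nat_lit 4184), [(nat_lit 1410806), (nat_lit 1414527), (nat_lit 1454130), (nat_lit 1458104), (nat_lit 1543323), (nat_lit 1543576), (nat_lit 1586647), (nat_lit 1587153)]⟩, ⟨(nat_lit 3), false, false, false, (nat_lit 95), (nat_lit 3872), (nat_lit 4184), [(nat_lit 1082054), (nat_lit 1090218), (nat_lit 1190368), (nat_lit 1199165), (nat_lit 1280820), (nat_lit 1283782), (nat_lit 1389144), (nat_lit 1392739)]⟩, (nat_lit 3796782), (nat_lit 49591715), (nat_lit 13216239), (nat_lit 4192046), (nat_lit 5), (nat_lit 0), [⟨(nat_lit 0), (nat_lit 99), (nat_lit 77), (nat_lit 100), (nat_lit 34578554)⟩], [⟨(nat_lit 0), (nat_lit 100), (nat_lit 83), (nat_lit 32), (nat_lit 230088547)⟩], [], [],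
 ⟨⟨[(nat_lit 40), (nat_lit 80), (nat_lit 100)], [(nat_lit 0), (nat_lit 395), (nat_lit 1536)], [((nat_lit 0), (nat_lit 0), (nat_lit 0)), ((nat_lit 1000), (nat_lit 908), (nat_lit 154)), ((nat_lit 1000), (nat_lit 760), (nat_lit 642))], ((nat_lit 76), (nat_lit 100), (nat_lit 63))⟩, (nat_lit 1584782), (nat_lit 172), (nat_lit 172), (nat_lit 0), (nat_lit 103995), [(nat_lit 1545710406), (nat_lit 2779655334), (nat_lit 3386008000)], [(nat_lit 0), (nat_lit 0), (nat_lit 0)], [(nat_lit 18974878186), (nat_lit 19772342156), (nat_lit 20900821446), (nat_lit 21607040116), (nat_lit 18571103151), (nat_lit 19280808206), (nat_lit 20372854051), (nat_lit 21003446966)], (nat_lit 1271251), (nat_lit 1271251), (nat_lit 780000), (nat_lit 1435001), (nat_lit 0), (nat_lit 780000), [(nat_lit 490000), (nat_lit 1100000), (nat_lit 1442501)], [(nat_lit 3), (nat_lit 50), (nat_lit 317), (nat_lit 100), (nat_lit 12)]⟩,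
 ⟨⟨[(nat_lit 80), (nat_lit 120), (nat_lit 160)], [(nat_lit 0), (nat_lit 0), (nat_lit 2132)], [((nat_lit 0), (nat_lit 0), (nat_lit 0)), ((nat_lit 0), (nat_lit 0), (nat_lit 0)), ((nat_lit 858), (nat_lit 1000), (nat_lit 713))], ((nat_lit 100), (nat_lit 91), (nat_lit 64))⟩, (nat_lit 1055709), (nat_lit 345), (nat_lit 345), (nat_lit 0), (nat_lit 402044), [(nat_lit 1298576000), (nat_lit 2207136000), (nat_lit 3288544000)], [], [(nat_lit 6340648623), (nat_lit 6750716772), (nat_lit 8133637473), (nat_lit 6851300200), (nat_lit 9189065810), (nat_lit 9499816814), (nat_lit 8932236758), (nat_lit 9277274841)], (nat_lit 1271251), (nat_lit 1271251), (nat_lit 780000), (nat_lit 1435001), (nat_lit 1271251), (nat_lit 1271251), [(nat_lit 1100000), (nat_lit 1785001), (nat_lit 1271251)], [(nat_lit 18), (nat_lit 59), (nat_lit 456), (nat_lit 225), (nat_lit 11)]⟩,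
 ⟨⟨[(nat_lit 140), (nat_lit 180), (nat_lit 200)], [(nat_lit 0), (nat_lit 0), (nat_lit 2835)], [((nat_lit 0), (nat_lit 0), (nat_lit 0)), ((nat_lit 0), (nat_lit 0), (nat_lit 0)), ((nat_lit 363), (nat_lit 1000), (nat_lit 798))], ((nat_lit 0), (nat_lit 0), (nat_lit 0))⟩, (nat_lit 38794), (nat_lit 300), (nat_lit 654), (nat_lit 11012100), (nat_lit 390097), [(nat_lit 1387722000), (nat_lit 1982178000), (nat_lit 2312400000)], [], [(nat_lit 9412125036), (nat_lit 8778149786), (nat_lit 7590913426), (nat_lit 8061371659), (nat_lit 9903101698), (nat_lit 9328168450), (nat_lit 7865683664), (nat_lit 7154376329)], (nat_lit 780000), (nat_lit 1598751), (nat_lit 0), (nat_lit 780000), (nat_lit 1271251), (nat_lit 1271251), [(nat_lit 1977501), (nat_lit 1271251), (nat_lit 1271251)], [(nat_lit 32), (nat_lit 67), (nat_lit 428), (nat_lit 200), (nat_lit 9)]⟩⟩))) (.spl (nat_lit 6) (nat_lit 24) (.leaf ⟨(nat_lit 616), (nat_lit 220), (nat_lit 0), (nat_lit 164), (nat_lit 0), (nat_lit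 4049), (nat_lit 2945), (nat_lit 2209), (nat_lit 0), (nat_lit 0), (nat_lit 1123000), [((nat_lit 340), [((nat_lit 18), (nat_lit 2), (nat_lit 447)), ((nat_lit 37), (nat_lit 5), (nat_lit 169))])], ⟨(nat_lit 7), false, false, false, (nat_lit 217), (nat_lit 3872), (nat_lit 4473), [(nat_lit 1450223), (nat_lit 1458043), (nat_lit 1493321), (nat_lit 1501595), (nat_lit 1586195), (nat_lit 1587102), (nat_lit 1629293), (nat_lit 1630654)]⟩, ⟨(nat_lit 3), false, false, false, (nat_lit 94), (nat_lit 3872), (nat_lit 4473), [(nat_lit 1073842), (nat_lit 1090218), (nat_lit 1181619), (nat_lit 1199128), (nat_lit 1277776), (nat_lit 1283782), (nat_lit 1385576), (nat_lit 1392716)]⟩, (nat_lit 3933462), (nat_lit 48040253), (nat_lit 14890051), (nat_lit 4069696), (nat_lit 5), (nat_lit 0), [⟨(nat_lit 0), (nat_lit 92), (nat_lit 81), (nat_lit 100), (nat_lit 224016049)⟩], [⟨(nat_lit 0), (nat_lit 100), (nat_lit 77), (nat_lit 53), (nat_lit 195966138)⟩, ⟨(nat_lit 0), (nat_lit 100),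 (nat_lit 87), (nat_lit 25), (nat_lit 82261444)⟩], [], [⟨(nat_lit 1), (nat_lit 88), (nat_lit 100), (nat_lit 32), (nat_lit 128992)⟩],
 ⟨⟨[(nat_lit 40), (nat_lit 80), (nat_lit 100)], [(nat_lit 0), (nat_lit 0), (nat_lit 1280)], [((nat_lit 0), (nat_lit 0), (nat_lit 0)), ((nat_lit 0), (nat_lit 0), (nat_lit 0)), ((nat_lit 1000), (nat_lit 800), (nat_lit 600))], ((nat_lit 81), (nat_lit 100), (nat_lit 48))⟩, (nat_lit 0), (nat_lit 238), (nat_lit 238), (nat_lit 0), (nat_lit 287308), [(nat_lit 1967706766), (nat_lit 1738414932), (nat_lit 121634800)], [(nat_lit 0), (nat_lit 0), (nat_lit 0)], [(nat_lit 18731315910), (nat_lit 20277409425), (nat_lit 20536516502), (nat_lit 21908018915), (nat_lit 18055098766), (nat_lit 19481472444), (nat_lit 19863517777), (nat_lit 21128818510)], (nat_lit 1271251), (nat_lit 1271251), (nat_lit 780000), (nat_lit 1435001), (nat_lit 0), (nat_lit 780000), [(nat_lit 490000), (nat_lit 1100000), (nat_lit 1442501)], [(nat_lit 3), (nat_lit 50),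 (nat_lit 317), (nat_lit 100), (nat_lit 12)]⟩,
 ⟨⟨[(nat_lit 60), (nat_lit 100), (nat_lit 120)], [(nat_lit 0), (nat_lit 0), (nat_lit 1164)], [((nat_lit 0), (nat_lit 0), (nat_lit 0)), ((nat_lit 0), (nat_lit 0), (nat_lit 0)), ((nat_lit 1000), (nat_lit 933), (nat_lit 572))], ((nat_lit 92), (nat_lit 100), (nat_lit 48))⟩, (nat_lit 826196), (nat_lit 447), (nat_lit 447), (nat_lit 0), (nat_lit 888088), [(nat_lit 1260288000), (nat_lit 2400000000), (nat_lit 3059712000)], [], [(nat_lit 10462517285), (nat_lit 11036790837), (nat_lit 10538976577), (nat_lit 11028104288), (nat_lit 12895601059), (nat_lit 13279233280), (nat_lit 12609596482), (nat_lit 13011068032)], (nat_lit 1271251), (nat_lit 1271251), (nat_lit 780000), (nat_lit 1435001), (nat_lit 1271251), (nat_lit 1271251), [(nat_lit 780000), (nat_lit 1435001), (nat_lit 1271251)], [(nat_lit 10), (nat_lit 54), (nat_lit 373), (nat_lit 150), (nat_lit 11)]⟩,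
 ⟨⟨[(nat_lit 140), (nat_lit 160), (nat_lit 180)], [(nat_lit 0), (nat_lit 0), (nat_lit 799)], [((nat_lit 0), (nat_lit 0), (nat_lit 0)), ((nat_lit 0), (nat_lit 0), (nat_lit 0)), ((nat_lit 728), (nat_lit 1000), (nat_lit 454))], ((nat_lit 100), (nat_lit 67), (nat_lit 52))⟩, (nat_lit 144091), (nat_lit 300), (nat_lit 839), (nat_lit 12168800), (nat_lit 962587), [(nat_lit 1614088000), (nat_lit 1947008000), (nat_lit 2305512000)], [], [(nat_lit 9262531204), (nat_lit 8724473216), (nat_lit 7516617580), (nat_lit 9211694191), (nat_lit 9972110660), (nat_lit 9420197057), (nat_lit 7972004302), (nat_lit 7390418178)], (nat_lit 780000), (nat_lit 1598751), (nat_lit 0), (nat_lit 780000), (nat_lit 1271251), (nat_lit 1271251), [(nat_lit 1977501), (nat_lit 1271251), (nat_lit 1271251)], [(nat_lit 31), (nat_lit 65), (nat_lit 428), (nat_lit 200), (nat_lit 10)]⟩⟩) (.leaf ⟨(nat_lit 290), (nat_lit 465), (nat_lit 0), (nat_lit 245), (nat_lit 0), (nat_lit 4441), (nat_lit 5342), (nat_lit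 3713), (nat_lit 0), (nat_lit 0), (nat_lit 1160000), [((nat_lit 340), [((nat_lit 37), (nat_lit 5), (nat_lit 290))])], ⟨(nat_lit 7), false, false, false, (nat_lit 217), (nat_lit 3872), (nat_lit 4473), [(nat_lit 1450223), (nat_lit 1458043), (nat_lit 1493321), (nat_lit 1501595), (nat_lit 1586195), (nat_lit 1587102), (nat_lit 1629293), (nat_lit 1630654)]⟩, ⟨(nat_lit 3), false, false, false, (nat_lit 94), (nat_lit 3872), (nat_lit 4473), [(nat_lit 1073842), (nat_lit 1090218), (nat_lit 1181619), (nat_lit 1199128), (nat_lit 1277776), (nat_lit 1283782), (nat_lit 1385576), (nat_lit 1392716)]⟩, (nat_lit 3933462), (nat_lit 48040253), (nat_lit 14890051), (nat_lit 4069696), (nat_lit 5), (nat_lit 0), [⟨(nat_lit 0), (nat_lit 92), (nat_lit 81), (nat_lit 100), (nat_lit 480418427)⟩], [⟨(nat_lit 0), (nat_lit 100), (nat_lit 87), (nat_lit 25), (nat_lit 150341672)⟩], [], [⟨(nat_lit 1), (nat_lit 88), (nat_lit 100), (nat_lit 32), (nat_lit 188092971)⟩],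
 ⟨⟨[(nat_lit 40), (nat_lit 80), (nat_lit 120)], [(nat_lit 0), (nat_lit 0), (nat_lit 2151)], [((nat_lit 0), (nat_lit 0), (nat_lit 0)), ((nat_lit 0), (nat_lit 0), (nat_lit 0)), ((nat_lit 1000), (nat_lit 815), (nat_lit 753))], ((nat_lit 80), (nat_lit 100), (nat_lit 63))⟩, (nat_lit 0), (nat_lit 255), (nat_lit 255), (nat_lit 0), (nat_lit 188951), [(nat_lit 2457275279), (nat_lit 2130316776), (nat_lit 0)], [(nat_lit 0), (nat_lit 0), (nat_lit 394652776)], [(nat_lit 19578054073), (nat_lit 20985715501), (nat_lit 21149183679), (nat_lit 22584861733), (nat_lit 18323393830), (nat_lit 19766449627), (nat_lit 19965903458), (nat_lit 21243885092)], (nat_lit 1271251), (nat_lit 1271251), (nat_lit 780000), (nat_lit 1435001), (nat_lit 0), (nat_lit 780000), [(nat_lit 490000), (nat_lit 1100000), (nat_lit 1785001)], [(nat_lit 4), (nat_lit 51), (nat_lit 317), (nat_lit 100), (nat_lit 10)]⟩,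
 ⟨⟨[(nat_lit 60), (nat_lit 100), (nat_lit 140)], [(nat_lit 0), (nat_lit 0), (nat_lit 2047)], [((nat_lit 0), (nat_lit 0), (nat_lit 0)), ((nat_lit 0), (nat_lit 0), (nat_lit 0)), ((nat_lit 1000), (nat_lit 993), (nat_lit 781))], ((nat_lit 95), (nat_lit 100), (nat_lit 65))⟩, (nat_lit 1615737), (nat_lit 353), (nat_lit 353), (nat_lit 0), (nat_lit 564161), [(nat_lit 2330220000), (nat_lit 4437500000), (nat_lit 6987820000)], [], [(nat_lit 18472020181), (nat_lit 19614723169), (nat_lit 18604868314), (nat_lit 19580602035), (nat_lit 23338658550), (nat_lit 24398170404), (nat_lit 22937877486), (nat_lit 23934556720)], (nat_lit 1271251), (nat_lit 1271251), (nat_lit 780000), (nat_lit 1435001), (nat_lit 1271251), (nat_lit 1271251), [(nat_lit 780000), (nat_lit 1435001), (nat_lit 1271251)], [(nat_lit 11), (nat_lit 55), (nat_lit 373), (nat_lit 150), (nat_lit 10)]⟩,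
 ⟨⟨[(nat_lit 140), (nat_lit 180), (nat_lit 200)], [(nat_lit 0), (nat_lit 0), (nat_lit 2835)], [((nat_lit 0), (nat_lit 0), (nat_lit 0)), ((nat_lit 0), (nat_lit 0), (nat_lit 0)), ((nat_lit 363), (nat_lit 1000), (nat_lit 798))], ((nat_lit 0), (nat_lit 0), (nat_lit 0))⟩, (nat_lit 67407), (nat_lit 300), (nat_lit 804), (nat_lit 19134506), (nat_lit 701430), [(nat_lit 2411290000), (nat_lit 3444210000), (nat_lit 4018000000)], [], [(nat_lit 16356491528), (nat_lit 15252771237), (nat_lit 13193836767), (nat_lit 14006183327), (nat_lit 17205088776), (nat_lit 16205544350), (nat_lit 13668645182), (nat_lit 12433548505)], (nat_lit 780000), (nat_lit 1598751), (nat_lit 0), (nat_lit 780000), (nat_lit 1271251), (nat_lit 1271251), [(nat_lit 1977501), (nat_lit 1271251), (nat_lit 1271251)], [(nat_lit 32), (nat_lit 67), (nat_lit 428), (nat_lit 200), (nat_lit 9)]⟩⟩)))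
noncomputable def c11_11 : Tr Lf :=
 (.trX (nat_lit 5) (nat_lit 3) (nat_lit 4) (nat_lit 100) (nat_lit 40) (nat_lit 92) (nat_lit 390) (.spl (nat_lit 5) (nat_lit 200) (.spl (nat_lit 1) (nat_lit 280) (.spl (nat_lit 2) (nat_lit 180) (.leaf ⟨(nat_lit 501), (nat_lit 499), (nat_lit 0), (nat_lit 0), (nat_lit 0), (nat_lit 4174), (nat_lit 4832), (nat_lit 0), (nat_lit 0), (nat_lit 0), (nat_lit 1581000), [((nat_lit 340), [((nat_lit 19), (nat_lit 2), (nat_lit 141)), ((nat_lit 37), (nat_lit 5), (nat_lit 360))])], ⟨(nat_lit 6), false, true, false, (nat_lit 252), (nat_lit 3872), (nat_lit 4473), [(nat_lit 1543097), (nat_lit 1543551), (nat_lit 1586195), (nat_lit 1587102), (nat_lit 1679069), (nat_lit 1672609), (nat_lit 1722167), (nat_lit 1716161)]⟩, ⟨(nat_lit 3), false, false, false, (nat_lit 86), (nat_lit 3872), (nat_lit 4473), [(nat_lit 1073842), (nat_lit 1090218), (nat_lit 1138518), (nat_lit 1155575), (nat_lit 1277776), (nat_lit 1283782), (nat_lit 1342475), (nat_lit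 1349162)]⟩, (nat_lit 4078428), (nat_lit 45048772), (nat_lit 18534707), (nat_lit 3416521), (nat_lit 3), (nat_lit 0), [], [], [], [],
 ⟨⟨[(nat_lit 40), (nat_lit 80), (nat_lit 120)], [(nat_lit 0), (nat_lit 0), (nat_lit 2151)], [((nat_lit 0), (nat_lit 0), (nat_lit 0)), ((nat_lit 0), (nat_lit 0), (nat_lit 0)), ((nat_lit 1000), (nat_lit 815), (nat_lit 753))], ((nat_lit 80), (nat_lit 100), (nat_lit 63))⟩, (nat_lit 0), (nat_lit 253), (nat_lit 253), (nat_lit 0), (nat_lit 216101), [(nat_lit 2043724904), (nat_lit 1641764919), (nat_lit 0)], [(nat_lit 0), (nat_lit 0), (nat_lit 4163027106)], [(nat_lit 20348887367), (nat_lit 22116407727), (nat_lit 24254686012), (nat_lit 25968218308), (nat_lit 19641372553), (nat_lit 20926406661), (nat_lit 22569996513), (nat_lit 23675609932)], (nat_lit 1271251), (nat_lit 1271251), (nat_lit 1271251), (nat_lit 1271251), (nat_lit 0), (nat_lit 780000), [(nat_lit 490000), (nat_lit 1100000), (nat_lit 1785001)], [(nat_lit 4), (nat_lit 51),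 (nat_lit 317), (nat_lit 100), (nat_lit 10)]⟩,
 ⟨⟨[(nat_lit 80), (nat_lit 120), (nat_lit 160)], [(nat_lit 0), (nat_lit 0), (nat_lit 2132)], [((nat_lit 0), (nat_lit 0), (nat_lit 0)), ((nat_lit 0), (nat_lit 0), (nat_lit 0)), ((nat_lit 858), (nat_lit 1000), (nat_lit 713))], ((nat_lit 100), (nat_lit 91), (nat_lit 64))⟩, (nat_lit 1404231), (nat_lit 657), (nat_lit 657), (nat_lit 0), (nat_lit 827727), [(nat_lit 2339312000), (nat_lit 3976032000), (nat_lit 5924128000)], [], [(nat_lit 16950848120), (nat_lit 17179563561), (nat_lit 17284509634), (nat_lit 17744415860), (nat_lit 14377993852), (nat_lit 14026050058), (nat_lit 14020691605), (nat_lit 14322228216)], (nat_lit 1271251), (nat_lit 1271251), (nat_lit 1271251), (nat_lit 1271251), (nat_lit 0), (nat_lit 1412501), [(nat_lit 1100000), (nat_lit 1785001), (nat_lit 1271251)], [(nat_lit 18), (nat_lit 59), (nat_lit 428), (nat_lit 200), (nat_lit 11)]⟩,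
 Rw.none⟩) (.trZ (nat_lit 0) (nat_lit 2) (nat_lit 4) (nat_lit 100) (nat_lit 80) (nat_lit 52) (nat_lit 20) (.leaf ⟨(nat_lit 397), (nat_lit 579), (nat_lit 0), (nat_lit 24), (nat_lit 0), (nat_lit 4692), (nat_lit 4778), (nat_lit 347), (nat_lit 0), (nat_lit 0), (nat_lit 1492000), [((nat_lit 340), [((nat_lit 19), (nat_lit 2), (nat_lit 32)), ((nat_lit 37), (nat_lit 5), (nat_lit 365))])], ⟨(nat_lit 6), false, true, false, (nat_lit 252), (nat_lit 3872), (nat_lit 4473), [(nat_lit 1543097), (nat_lit 1543551), (nat_lit 1586195), (nat_lit 1587102), (nat_lit 1679069), (nat_lit 1672609), (nat_lit 1722167), (nat_lit 1716161)]⟩, ⟨(nat_lit 4), false, false, false, (nat_lit 114), (nat_lit 3872), (nat_lit 4473), [(nat_lit 1172511), (nat_lit 1187839), (nat_lit 1215612), (nat_lit 1231393), (nat_lit 1342475), (nat_lit 1349162), (nat_lit 1385576), (nat_lit 1392716)]⟩, (nat_lit 4424121), (nat_lit 43607553), (nat_lit 18197692), (nat_lit 5194755), (nat_lit 4), (nat_lit 0),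 [], [⟨(nat_lit 0), (nat_lit 100), (nat_lit 72), (nat_lit 77), (nat_lit 153170265)⟩], [], [],
 ⟨⟨[(nat_lit 40), (nat_lit 80), (nat_lit 120)], [(nat_lit 0), (nat_lit 0), (nat_lit 2151)], [((nat_lit 0), (nat_lit 0), (nat_lit 0)), ((nat_lit 0), (nat_lit 0), (nat_lit 0)), ((nat_lit 1000), (nat_lit 815), (nat_lit 753))], ((nat_lit 80), (nat_lit 100), (nat_lit 63))⟩, (nat_lit 420), (nat_lit 191), (nat_lit 191), (nat_lit 0), (nat_lit 165737), [(nat_lit 2279713540), (nat_lit 1674677665), (nat_lit 0)], [(nat_lit 0), (nat_lit 0), (nat_lit 3126514821)], [(nat_lit 19915167640), (nat_lit 22082139492), (nat_lit 24271097522), (nat_lit 26079367221), (nat_lit 18265614194), (nat_lit 19580950652), (nat_lit 21694289996), (nat_lit 23350797830)], (nat_lit 1271251), (nat_lit 1271251), (nat_lit 1271251), (nat_lit 1271251), (nat_lit 111251), (nat_lit 780000), [(nat_lit 490000), (nat_lit 1100000), (nat_lit 1785001)], [(nat_lit 4), (nat_lit 51), (nat_lit 317), (nat_lit 100),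 (nat_lit 10)]⟩,
 ⟨⟨[(nat_lit 80), (nat_lit 120), (nat_lit 160)], [(nat_lit 0), (nat_lit 0), (nat_lit 2132)], [((nat_lit 0), (nat_lit 0), (nat_lit 0)), ((nat_lit 0), (nat_lit 0), (nat_lit 0)), ((nat_lit 858), (nat_lit 1000), (nat_lit 713))], ((nat_lit 100), (nat_lit 91), (nat_lit 64))⟩, (nat_lit 1912805), (nat_lit 582), (nat_lit 582), (nat_lit 0), (nat_lit 717424), [(nat_lit 2826864000), (nat_lit 4804704000), (nat_lit 7158816000)], [], [(nat_lit 21018731780), (nat_lit 21718291946), (nat_lit 22000685220), (nat_lit 22831843423), (nat_lit 18729095342), (nat_lit 19215786272), (nat_lit 19299451063), (nat_lit 19827309849)], (nat_lit 1271251), (nat_lit 1271251), (nat_lit 1271251), (nat_lit 1271251), (nat_lit 0), (nat_lit 1412501), [(nat_lit 1100000), (nat_lit 1785001), (nat_lit 1271251)], [(nat_lit 18), (nat_lit 59), (nat_lit 428), (nat_lit 200), (nat_lit 11)]⟩,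
 ⟨⟨[(nat_lit 120), (nat_lit 160), (nat_lit 180)], [(nat_lit 0), (nat_lit 533), (nat_lit 2066)], [((nat_lit 0), (nat_lit 0), (nat_lit 0)), ((nat_lit 960), (nat_lit 1000), (nat_lit 200)), ((nat_lit 615), (nat_lit 1000), (nat_lit 729))], ((nat_lit 100), (nat_lit 72), (nat_lit 63))⟩, (nat_lit 56683), (nat_lit 300), (nat_lit 652), (nat_lit 1593600), (nat_lit 358723), [(nat_lit 191232000), (nat_lit 284928000), (nat_lit 337392000)], [], [(nat_lit 1768248690), (nat_lit 1618551874), (nat_lit 1279518384), (nat_lit 1223411964), (nat_lit 1107934728), (nat_lit 1093059173), (nat_lit 1145685057), (nat_lit 863160605)], (nat_lit 1271251), (nat_lit 1271251), (nat_lit 111251), (nat_lit 780000), (nat_lit 0), (nat_lit 1412501), [(nat_lit 1695001), (nat_lit 1271251), (nat_lit 1271251)], [(nat_lit 28), (nat_lit 65), (nat_lit 373), (nat_lit 150), (nat_lit 9)]⟩⟩))) (.leaf ⟨(nat_lit 191), (nat_lit 788), (nat_lit 0), (nat_lit 21), (nat_lit 0), (nat_lit 5683), (nat_lit 7002),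 (nat_lit 259), (nat_lit 0), (nat_lit 0), (nat_lit 764000), [((nat_lit 340), [((nat_lit 37), (nat_lit 5), (nat_lit 191))])], ⟨(nat_lit 7), false, true, false, (nat_lit 270), (nat_lit 3872), (nat_lit 4473), [(nat_lit 1586195), (nat_lit 1587102), (nat_lit 1629293), (nat_lit 1630654), (nat_lit 1722167), (nat_lit 1716161), (nat_lit 1765265), (nat_lit 1759713)]⟩, ⟨(nat_lit 3), false, false, false, (nat_lit 94), (nat_lit 3872), (nat_lit 4473), [(nat_lit 1073842), (nat_lit 1090218), (nat_lit 1181619), (nat_lit 1199128), (nat_lit 1277776), (nat_lit 1283782), (nat_lit 1385576), (nat_lit 1392716)]⟩, (nat_lit 4280289), (nat_lit 42987864), (nat_lit 20152103), (nat_lit 3860033), (nat_lit 3), (nat_lit 0), [], [⟨(nat_lit 0), (nat_lit 100), (nat_lit 72), (nat_lit 77), (nat_lit 143914943)⟩], [], [],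
 ⟨⟨[(nat_lit 40), (nat_lit 80), (nat_lit 120)], [(nat_lit 0), (nat_lit 0), (nat_lit 2151)], [((nat_lit 0), (nat_lit 0), (nat_lit 0)), ((nat_lit 0), (nat_lit 0), (nat_lit 0)), ((nat_lit 1000), (nat_lit 815), (nat_lit 753))], ((nat_lit 80), (nat_lit 100), (nat_lit 63))⟩, (nat_lit 1647959), (nat_lit 276), (nat_lit 276), (nat_lit 0), (nat_lit 292967), [(nat_lit 2293735136), (nat_lit 2969415625), (nat_lit 2440969975)], [(nat_lit 0), (nat_lit 0), (nat_lit 0)], [(nat_lit 22153404038), (nat_lit 24632077472), (nat_lit 26897153254), (nat_lit 28950065686), (nat_lit 18692750404), (nat_lit 20058282829), (nat_lit 22257438629), (nat_lit 24110946858)], (nat_lit 1271251), (nat_lit 1271251), (nat_lit 1271251), (nat_lit 1271251), (nat_lit 0), (nat_lit 780000), [(nat_lit 490000), (nat_lit 1100000), (nat_lit 1785001)], [(nat_lit 4), (nat_lit 51), (nat_lit 317), (nat_lit 100), (nat_lit 10)]⟩,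
 ⟨⟨[(nat_lit 60), (nat_lit 100), (nat_lit 140)], [(nat_lit 0), (nat_lit 0), (nat_lit 2047)], [((nat_lit 0), (nat_lit 0), (nat_lit 0)), ((nat_lit 0), (nat_lit 0), (nat_lit 0)), ((nat_lit 1000), (nat_lit 993), (nat_lit 781))], ((nat_lit 95), (nat_lit 100), (nat_lit 65))⟩, (nat_lit 3710160), (nat_lit 603), (nat_lit 603), (nat_lit 0), (nat_lit 895852), [(nat_lit 2655138000), (nat_lit 5056250000), (nat_lit 7962178000)], [], [(nat_lit 22456375394), (nat_lit 23925663000), (nat_lit 24223784086), (nat_lit 25970326000), (nat_lit 19095354027), (nat_lit 20167051520), (nat_lit 20287236847), (nat_lit 21131361275)], (nat_lit 1271251), (nat_lit 1271251), (nat_lit 1271251), (nat_lit 1271251), (nat_lit 0), (nat_lit 1412501), [(nat_lit 780000), (nat_lit 1435001), (nat_lit 1271251)], [(nat_lit 11), (nat_lit 55), (nat_lit 345), (nat_lit 125), (nat_lit 10)]⟩,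
 ⟨⟨[(nat_lit 140), (nat_lit 180), (nat_lit 200)], [(nat_lit 0), (nat_lit 0), (nat_lit 2835)], [((nat_lit 0), (nat_lit 0), (nat_lit 0)), ((nat_lit 0), (nat_lit 0), (nat_lit 0)), ((nat_lit 363), (nat_lit 1000), (nat_lit 798))], ((nat_lit 0), (nat_lit 0), (nat_lit 0))⟩, (nat_lit 611156), (nat_lit 300), (nat_lit 1070), (nat_lit 1640100), (nat_lit 1001846), [(nat_lit 206682000), (nat_lit 295218000), (nat_lit 344400000)], [], [(nat_lit 2014878143), (nat_lit 1694304269), (nat_lit 1556296756), (nat_lit 1464763479), (nat_lit 1475061826), (nat_lit 1383785578), (nat_lit 1275075543), (nat_lit 1323601995)], (nat_lit 780000), (nat_lit 1598751), (nat_lit 0), (nat_lit 780000), (nat_lit 0), (nat_lit 1412501), [(nat_lit 1977501), (nat_lit 1271251), (nat_lit 1271251)], [(nat_lit 32), (nat_lit 67), (nat_lit 373), (nat_lit 150), (nat_lit 9)]⟩⟩)) (.spl (nat_lit 1) (nat_lit 280) (.leaf ⟨(nat_lit 664), (nat_lit 222), (nat_lit 0), (nat_lit 114), (nat_lit 0), (nat_lit 3960),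 (nat_lit 2954), (nat_lit 1787), (nat_lit 0), (nat_lit 0), (nat_lit 1042000), [((nat_lit 340), [((nat_lit 19), (nat_lit 2), (nat_lit 538)), ((nat_lit 37), (nat_lit 5), (nat_lit 126))])], ⟨(nat_lit 6), false, true, false, (nat_lit 252), (nat_lit 3872), (nat_lit 4473), [(nat_lit 1543097), (nat_lit 1543551), (nat_lit 1586195), (nat_lit 1587102), (nat_lit 1679069), (nat_lit 1672609), (nat_lit 1722167), (nat_lit 1716161)]⟩, ⟨(nat_lit 3), false, false, false, (nat_lit 94), (nat_lit 3872), (nat_lit 4473), [(nat_lit 1073842), (nat_lit 1090218), (nat_lit 1181619), (nat_lit 1199128), (nat_lit 1277776), (nat_lit 1283782), (nat_lit 1385576), (nat_lit 1392716)]⟩, (nat_lit 4188048), (nat_lit 44623121), (nat_lit 18438827), (nat_lit 3938052), (nat_lit 5), (nat_lit 0), [], [⟨(nat_lit 0), (nat_lit 100), (nat_lit 77), (nat_lit 53), (nat_lit 125392473)⟩], [], [⟨(nat_lit 1), (nat_lit 90), (nat_lit 100), (nat_lit 65), (nat_lit 44939696)⟩],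
 ⟨⟨[(nat_lit 40), (nat_lit 80), (nat_lit 120)], [(nat_lit 0), (nat_lit 0), (nat_lit 2151)], [((nat_lit 0), (nat_lit 0), (nat_lit 0)), ((nat_lit 0), (nat_lit 0), (nat_lit 0)), ((nat_lit 1000), (nat_lit 815), (nat_lit 753))], ((nat_lit 80), (nat_lit 100), (nat_lit 63))⟩, (nat_lit 0), (nat_lit 253), (nat_lit 253), (nat_lit 0), (nat_lit 216101), [(nat_lit 1936243195), (nat_lit 1716894409), (nat_lit 0)], [(nat_lit 0), (nat_lit 0), (nat_lit 1097848009)], [(nat_lit 20612018893), (nat_lit 21964071614), (nat_lit 23879942480), (nat_lit 25545345320), (nat_lit 19999333874), (nat_lit 21250584444), (nat_lit 22884293274), (nat_lit 23963036264)], (nat_lit 1271251), (nat_lit 1271251), (nat_lit 1271251), (nat_lit 1271251), (nat_lit 0), (nat_lit 780000), [(nat_lit 490000), (nat_lit 1100000), (nat_lit 1785001)], [(nat_lit 4), (nat_lit 51), (nat_lit 317), (nat_lit 100), (nat_lit 10)]⟩,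
 ⟨⟨[(nat_lit 80), (nat_lit 120), (nat_lit 160)], [(nat_lit 0), (nat_lit 0), (nat_lit 2132)], [((nat_lit 0), (nat_lit 0), (nat_lit 0)), ((nat_lit 0), (nat_lit 0), (nat_lit 0)), ((nat_lit 858), (nat_lit 1000), (nat_lit 713))], ((nat_lit 100), (nat_lit 91), (nat_lit 64))⟩, (nat_lit 979278), (nat_lit 518), (nat_lit 518), (nat_lit 0), (nat_lit 832770), [(nat_lit 1575168000), (nat_lit 2677248000), (nat_lit 3988992000)], [], [(nat_lit 9358384452), (nat_lit 9690734515), (nat_lit 9811672668), (nat_lit 10157517657), (nat_lit 11210794704), (nat_lit 11409146842), (nat_lit 11343717473), (nat_lit 11538308534)], (nat_lit 1271251), (nat_lit 1271251), (nat_lit 1271251), (nat_lit 1271251), (nat_lit 1271251), (nat_lit 1271251), [(nat_lit 1100000), (nat_lit 1785001), (nat_lit 1271251)], [(nat_lit 18), (nat_lit 59), (nat_lit 483), (nat_lit 250), (nat_lit 12)]⟩,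
 ⟨⟨[(nat_lit 140), (nat_lit 180), (nat_lit 200)], [(nat_lit 0), (nat_lit 0), (nat_lit 2835)], [((nat_lit 0), (nat_lit 0), (nat_lit 0)), ((nat_lit 0), (nat_lit 0), (nat_lit 0)), ((nat_lit 363), (nat_lit 1000), (nat_lit 798))], ((nat_lit 0), (nat_lit 0), (nat_lit 0))⟩, (nat_lit 32304), (nat_lit 300), (nat_lit 822), (nat_lit 8903400), (nat_lit 745102), [(nat_lit 1121988000), (nat_lit 1602612000), (nat_lit 1869600000)], [], [(nat_lit 7548504188), (nat_lit 7098554022), (nat_lit 6019959169), (nat_lit 6552327153), (nat_lit 7975980648), (nat_lit 7512872624), (nat_lit 6273608421), (nat_lit 5683983917)], (nat_lit 780000), (nat_lit 1598751), (nat_lit 0), (nat_lit 780000), (nat_lit 1271251), (nat_lit 1271251), [(nat_lit 1977501), (nat_lit 1271251), (nat_lit 1271251)], [(nat_lit 32), (nat_lit 67), (nat_lit 428), (nat_lit 200), (nat_lit 9)]⟩⟩) (.leaf ⟨(nat_lit 380), (nat_lit 453), (nat_lit 0), (nat_lit 167), (nat_lit 0), (nat_lit 4340), (nat_lit 4769), (nat_lit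 2616), (nat_lit 0), (nat_lit 0), (nat_lit 1520000), [((nat_lit 340), [((nat_lit 37), (nat_lit 5), (nat_lit 380))])], ⟨(nat_lit 7), false, true, false, (nat_lit 270), (nat_lit 3872), (nat_lit 4473), [(nat_lit 1586195), (nat_lit 1587102), (nat_lit 1629293), (nat_lit 1630654), (nat_lit 1722167), (nat_lit 1716161), (nat_lit 1765265), (nat_lit 1759713)]⟩, ⟨(nat_lit 3), false, false, false, (nat_lit 94), (nat_lit 3872), (nat_lit 4473), [(nat_lit 1073842), (nat_lit 1090218), (nat_lit 1181619), (nat_lit 1199128), (nat_lit 1277776), (nat_lit 1283782), (nat_lit 1385576), (nat_lit 1392716)]⟩, (nat_lit 4280289), (nat_lit 42987864), (nat_lit 20152103), (nat_lit 3860033), (nat_lit 5), (nat_lit 0), [], [⟨(nat_lit 0), (nat_lit 100), (nat_lit 77), (nat_lit 53), (nat_lit 112150913)⟩], [], [⟨(nat_lit 1), (nat_lit 90), (nat_lit 100), (nat_lit 65), (nat_lit 132874936)⟩],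
 ⟨⟨[(nat_lit 40), (nat_lit 80), (nat_lit 120)], [(nat_lit 0), (nat_lit 0), (nat_lit 2151)], [((nat_lit 0), (nat_lit 0), (nat_lit 0)), ((nat_lit 0), (nat_lit 0), (nat_lit 0)), ((nat_lit 1000), (nat_lit 815), (nat_lit 753))], ((nat_lit 80), (nat_lit 100), (nat_lit 63))⟩, (nat_lit 0), (nat_lit 276), (nat_lit 276), (nat_lit 0), (nat_lit 292967), [(nat_lit 2202100244), (nat_lit 1772123759), (nat_lit 0)], [(nat_lit 0), (nat_lit 0), (nat_lit 3284006586)], [(nat_lit 21063062166), (nat_lit 22393148070), (nat_lit 24545374920), (nat_lit 26296241280), (nat_lit 20176056366), (nat_lit 21357855626), (nat_lit 22830003746), (nat_lit 23866294946)], (nat_lit 1271251), (nat_lit 1271251), (nat_lit 1271251), (nat_lit 1271251), (nat_lit 0), (nat_lit 780000), [(nat_lit 490000), (nat_lit 1100000), (nat_lit 1785001)], [(nat_lit 4), (nat_lit 51), (nat_lit 317), (nat_lit 100), (nat_lit 10)]⟩,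
 ⟨⟨[(nat_lit 60), (nat_lit 100), (nat_lit 140)], [(nat_lit 0), (nat_lit 0), (nat_lit 2047)], [((nat_lit 0), (nat_lit 0), (nat_lit 0)), ((nat_lit 0), (nat_lit 0), (nat_lit 0)), ((nat_lit 1000), (nat_lit 993), (nat_lit 781))], ((nat_lit 95), (nat_lit 100), (nat_lit 65))⟩, (nat_lit 1470036), (nat_lit 475), (nat_lit 475), (nat_lit 0), (nat_lit 895852), [(nat_lit 2034840000), (nat_lit 3875000000), (nat_lit 6102040000)], [], [(nat_lit 17120296582), (nat_lit 17751762784), (nat_lit 17884582684), (nat_lit 18516865881), (nat_lit 20082985598), (nat_lit 20479576161), (nat_lit 20593891142), (nat_lit 21589069160)], (nat_lit 1271251), (nat_lit 1271251), (nat_lit 1271251), (nat_lit 1271251), (nat_lit 1271251), (nat_lit 1271251), [(nat_lit 780000), (nat_lit 1435001), (nat_lit 1271251)], [(nat_lit 11), (nat_lit 55), (nat_lit 401), (nat_lit 175), (nat_lit 11)]⟩,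
 ⟨⟨[(nat_lit 140), (nat_lit 180), (nat_lit 200)], [(nat_lit 0), (nat_lit 0), (nat_lit 2835)], [((nat_lit 0), (nat_lit 0), (nat_lit 0)), ((nat_lit 0), (nat_lit 0), (nat_lit 0)), ((nat_lit 363), (nat_lit 1000), (nat_lit 798))], ((nat_lit 0), (nat_lit 0), (nat_lit 0))⟩, (nat_lit 46745), (nat_lit 300), (nat_lit 928), (nat_lit 13042700), (nat_lit 1001846), [(nat_lit 1643614000), (nat_lit 2347686000), (nat_lit 2738800000)], [], [(nat_lit 11058745292), (nat_lit 10398718119), (nat_lit 8822326052), (nat_lit 9597518502), (nat_lit 11682405227), (nat_lit 11004693175), (nat_lit 9191515700), (nat_lit 8328547497)], (nat_lit 780000), (nat_lit 1598751), (nat_lit 0), (nat_lit 780000), (nat_lit 1271251), (nat_lit 1271251), [(nat_lit 1977501), (nat_lit 1271251), (nat_lit 1271251)], [(nat_lit 32), (nat_lit 67), (nat_lit 428), (nat_lit 200), (nat_lit 9)]⟩⟩))))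
noncomputable def c11_12 : Tr Lf :=
 (.trX (nat_lit 5) (nat_lit 3) (nat_lit 4) (nat_lit 100) (nat_lit 80) (nat_lit 100) (nat_lit 340) (.spl (nat_lit 1) (nat_lit 280) (.spl (nat_lit 5) (nat_lit 120) (.leaf ⟨(nat_lit 104), (nat_lit 896), (nat_lit 0), (nat_lit 0), (nat_lit 0), (nat_lit 5136), (nat_lit 7022), (nat_lit 0), (nat_lit 0), (nat_lit 0), (nat_lit 416000), [((nat_lit 340), [((nat_lit 37), (nat_lit 5), (nat_lit 104))])], ⟨(nat_lit 7), false, true, true, (nat_lit 319), (nat_lit 3872), (nat_lit 4473), [(nat_lit 1679069), (nat_lit 1672609), (nat_lit 1722167), (nat_lit 1716161), (nat_lit 1883018), (nat_lit 1866188), (nat_lit 1926124), (nat_lit 1909748)]⟩, ⟨(nat_lit 3), false, false, false, (nat_lit 94), (nat_lit 3872), (nat_lit 4473), [(nat_lit 1073842), (nat_lit 1090218), (nat_lit 1181619), (nat_lit 1199128), (nat_lit 1277776), (nat_lit 1283782), (nat_lit 1385576), (nat_lit 1392716)]⟩, (nat_lit 4442379), (nat_lit 38540116), (nat_lit 24852645), (nat_lit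 3607239), (nat_lit 3), (nat_lit 0), [⟨(nat_lit 1), (nat_lit 41), (nat_lit 80), (nat_lit 100), (nat_lit 26560780)⟩], [⟨(nat_lit 0), (nat_lit 100), (nat_lit 72), (nat_lit 77), (nat_lit 120101666)⟩], [⟨(nat_lit 0), (nat_lit 100), (nat_lit 96), (nat_lit 16), (nat_lit 19735860)⟩], [],
 ⟨⟨[(nat_lit 40), (nat_lit 80), (nat_lit 120)], [(nat_lit 0), (nat_lit 0), (nat_lit 2151)], [((nat_lit 0), (nat_lit 0), (nat_lit 0)), ((nat_lit 0), (nat_lit 0), (nat_lit 0)), ((nat_lit 1000), (nat_lit 815), (nat_lit 753))], ((nat_lit 80), (nat_lit 100), (nat_lit 63))⟩, (nat_lit 1636461), (nat_lit 278), (nat_lit 278), (nat_lit 0), (nat_lit 216101), [(nat_lit 2256931204), (nat_lit 3689225602), (nat_lit 5022511994)], [(nat_lit 0), (nat_lit 0), (nat_lit 0)], [(nat_lit 27951565626), (nat_lit 29069146994), (nat_lit 35643052096), (nat_lit 36961378976), (nat_lit 26135449234), (nat_lit 27131623490), (nat_lit 31255640186), (nat_lit 32002657144)], (nat_lit 1271251), (nat_lit 1271251),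 (nat_lit 1271251), (nat_lit 1271251), (nat_lit 0), (nat_lit 780000), [(nat_lit 490000), (nat_lit 1100000), (nat_lit 1785001)], [(nat_lit 4), (nat_lit 51), (nat_lit 238), (nat_lit 30), (nat_lit 7)]⟩,
 ⟨⟨[(nat_lit 80), (nat_lit 120), (nat_lit 160)], [(nat_lit 0), (nat_lit 0), (nat_lit 2132)], [((nat_lit 0), (nat_lit 0), (nat_lit 0)), ((nat_lit 0), (nat_lit 0), (nat_lit 0)), ((nat_lit 858), (nat_lit 1000), (nat_lit 713))], ((nat_lit 100), (nat_lit 91), (nat_lit 64))⟩, (nat_lit 2942876), (nat_lit 554), (nat_lit 554), (nat_lit 0), (nat_lit 680048), [(nat_lit 4200448000), (nat_lit 7139328000), (nat_lit 10637312000)], [], [(nat_lit 32852032660), (nat_lit 34082694078), (nat_lit 37987235976), (nat_lit 38716397816), (nat_lit 29456425784), (nat_lit 30135659581), (nat_lit 33469959024), (nat_lit 34104460002)], (nat_lit 1271251), (nat_lit 1271251), (nat_lit 1271251), (nat_lit 1271251), (nat_lit 0), (nat_lit 780000), [(nat_lit 1100000), (nat_lit 1785001), (nat_lit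 1271251)], [(nat_lit 18), (nat_lit 59), (nat_lit 428), (nat_lit 200), (nat_lit 11)]⟩,
 Rw.none⟩) (.spl (nat_lit 2) (nat_lit 180) (.spl (nat_lit 0) (nat_lit 330) (.leaf ⟨(nat_lit 240), (nat_lit 690), (nat_lit 0), (nat_lit 70), (nat_lit 0), (nat_lit 5190), (nat_lit 6649), (nat_lit 756), (nat_lit 0), (nat_lit 0), (nat_lit 960000), [((nat_lit 330), [((nat_lit 37), (nat_lit 5), (nat_lit 240))])], ⟨(nat_lit 7), false, true, true, (nat_lit 320), (nat_lit 4183), (nat_lit 4473), [(nat_lit 1679082), (nat_lit 1675838), (nat_lit 1722208), (nat_lit 1719164), (nat_lit 1883020), (nat_lit 1874608), (nat_lit 1926145), (nat_lit 1917933)]⟩, ⟨(nat_lit 3), false, false, false, (nat_lit 84), (nat_lit 4183), (nat_lit 4473), [(nat_lit 1073842), (nat_lit 1082054), (nat_lit 1138540), (nat_lit 1147053), (nat_lit 1277776), (nat_lit 1280820), (nat_lit 1342476), (nat_lit 1345821)]⟩, (nat_lit 4330769), (nat_lit 38795877), (nat_lit 25138625), (nat_lit 3065498), (nat_lit 3), (nat_lit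 0), [], [], [], [⟨(nat_lit 1), (nat_lit 100), (nat_lit 72), (nat_lit 81), (nat_lit 236153993)⟩],
 ⟨⟨[(nat_lit 40), (nat_lit 80), (nat_lit 120)], [(nat_lit 0), (nat_lit 0), (nat_lit 2151)], [((nat_lit 0), (nat_lit 0), (nat_lit 0)), ((nat_lit 0), (nat_lit 0), (nat_lit 0)), ((nat_lit 1000), (nat_lit 815), (nat_lit 753))], ((nat_lit 80), (nat_lit 100), (nat_lit 63))⟩, (nat_lit 456849), (nat_lit 270), (nat_lit 270), (nat_lit 0), (nat_lit 191903), [(nat_lit 2232430433), (nat_lit 2695921572), (nat_lit 895662428)], [(nat_lit 0), (nat_lit 0), (nat_lit 0)], [(nat_lit 26033842220), (nat_lit 27004859600), (nat_lit 35794129840), (nat_lit 36456785190), (nat_lit 22300044100), (nat_lit 22855305350), (nat_lit 30867111280), (nat_lit 31478476833)], (nat_lit 1271251), (nat_lit 1271251), (nat_lit 1271251), (nat_lit 1271251), (nat_lit 0), (nat_lit 780000), [(nat_lit 490000), (nat_lit 1100000), (nat_lit 1785001)], [(nat_lit 4), (nat_lit 51), (nat_lit 238), (nat_lit 30),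 (nat_lit 7)]⟩,
 ⟨⟨[(nat_lit 80), (nat_lit 120), (nat_lit 160)], [(nat_lit 0), (nat_lit 0), (nat_lit 2132)], [((nat_lit 0), (nat_lit 0), (nat_lit 0)), ((nat_lit 0), (nat_lit 0), (nat_lit 0)), ((nat_lit 858), (nat_lit 1000), (nat_lit 713))], ((nat_lit 100), (nat_lit 91), (nat_lit 64))⟩, (nat_lit 2346657), (nat_lit 485), (nat_lit 485), (nat_lit 0), (nat_lit 705293), [(nat_lit 3562880000), (nat_lit 6055680000), (nat_lit 9022720000)], [], [(nat_lit 22560104033), (nat_lit 23499995726), (nat_lit 26603263944), (nat_lit 27132997863), (nat_lit 24417433584), (nat_lit 24857812092), (nat_lit 27927190751), (nat_lit 28851185928)], (nat_lit 1271251), (nat_lit 1271251), (nat_lit 1271251), (nat_lit 1271251), (nat_lit 780000), (nat_lit 2581251), [(nat_lit 1100000), (nat_lit 1785001), (nat_lit 1271251)], [(nat_lit 18), (nat_lit 59), (nat_lit 538), (nat_lit 300), (nat_lit 13)]⟩,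
 ⟨⟨[(nat_lit 140), (nat_lit 180), (nat_lit 200)], [(nat_lit 0), (nat_lit 0), (nat_lit 2835)], [((nat_lit 0), (nat_lit 0), (nat_lit 0)), ((nat_lit 0), (nat_lit 0), (nat_lit 0)), ((nat_lit 363), (nat_lit 1000), (nat_lit 798))], ((nat_lit 0), (nat_lit 0), (nat_lit 0))⟩, (nat_lit 156168), (nat_lit 300), (nat_lit 821), (nat_lit 5467000), (nat_lit 643478), [(nat_lit 688940000), (nat_lit 984060000), (nat_lit 1148000000)], [], [(nat_lit 5442609228), (nat_lit 5273723980), (nat_lit 4863712321), (nat_lit 4702199787), (nat_lit 5037125198), (nat_lit 4860416936), (nat_lit 4740874670), (nat_lit 5336583914)], (nat_lit 780000), (nat_lit 1271251), (nat_lit 0), (nat_lit 780000), (nat_lit 780000), (nat_lit 2581251), [(nat_lit 1977501), (nat_lit 1271251), (nat_lit 1271251)], [(nat_lit 32), (nat_lit 67), (nat_lit 401), (nat_lit 175), (nat_lit 9)]⟩⟩) (.leaf ⟨(nat_lit 308), (nat_lit 619), (nat_lit 0), (nat_lit 73), (nat_lit 0), (nat_lit 4273), (nat_lit 6024), (nat_lit 757),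 (nat_lit 0), (nat_lit 0), (nat_lit 175150), [((nat_lit 340), [((nat_lit 19), (nat_lit 0), (nat_lit 7)), ((nat_lit 19), (nat_lit 1), (nat_lit 36)), ((nat_lit 37), (nat_lit 2), (nat_lit 265))])], ⟨(nat_lit 7), false, true, true, (nat_lit 318), (nat_lit 3872), (nat_lit 4184), [(nat_lit 1675840), (nat_lit 1672625), (nat_lit 1719164), (nat_lit 1716202), (nat_lit 1874610), (nat_lit 1866193), (nat_lit 1917940), (nat_lit 1909776)]⟩, ⟨(nat_lit 3), false, false, false, (nat_lit 87), (nat_lit 3872), (nat_lit 4184), [(nat_lit 1082054), (nat_lit 1090218), (nat_lit 1147044), (nat_lit 1155588), (nat_lit 1280820), (nat_lit 1283782), (nat_lit 1345820), (nat_lit 1349161)]⟩, (nat_lit 4353091), (nat_lit 38916929), (nat_lit 24882950), (nat_lit 3200121), (nat_lit 3), (nat_lit 0), [], [], [], [⟨(nat_lit 1), (nat_lit 100), (nat_lit 72), (nat_lit 81), (nat_lit 195815150)⟩],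
 ⟨⟨[(nat_lit 40), (nat_lit 80), (nat_lit 100)], [(nat_lit 0), (nat_lit 395), (nat_lit 1536)], [((nat_lit 0), (nat_lit 0), (nat_lit 0)), ((nat_lit 1000), (nat_lit 908), (nat_lit 154)), ((nat_lit 1000), (nat_lit 760), (nat_lit 642))], ((nat_lit 76), (nat_lit 100), (nat_lit 63))⟩, (nat_lit 5799621), (nat_lit 247), (nat_lit 247), (nat_lit 0), (nat_lit 214355), [(nat_lit 1808584429), (nat_lit 3724767244), (nat_lit 4717310000)], [(nat_lit 0), (nat_lit 0), (nat_lit 0)], [(nat_lit 25295947570), (nat_lit 26163846466), (nat_lit 33831963473), (nat_lit 34435321018), (nat_lit 22505946509), (nat_lit 23029836694), (nat_lit 30051325203), (nat_lit 30609307830)], (nat_lit 1271251), (nat_lit 1271251), (nat_lit 1271251), (nat_lit 1271251), (nat_lit 0), (nat_lit 780000), [(nat_lit 490000), (nat_lit 1100000), (nat_lit 1442501)], [(nat_lit 3), (nat_lit 50), (nat_lit 238), (nat_lit 30), (nat_lit 8)]⟩,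
 ⟨⟨[(nat_lit 80), (nat_lit 120), (nat_lit 160)], [(nat_lit 0), (nat_lit 0), (nat_lit 2132)], [((nat_lit 0), (nat_lit 0), (nat_lit 0)), ((nat_lit 0), (nat_lit 0), (nat_lit 0)), ((nat_lit 858), (nat_lit 1000), (nat_lit 713))], ((nat_lit 100), (nat_lit 91), (nat_lit 64))⟩, (nat_lit 1965799), (nat_lit 530), (nat_lit 530), (nat_lit 0), (nat_lit 826261), [(nat_lit 3244096000), (nat_lit 5513856000), (nat_lit 8215424000)], [], [(nat_lit 20847435880), (nat_lit 21482365670), (nat_lit 24300555328), (nat_lit 24783259364), (nat_lit 22325444634), (nat_lit 22727080423), (nat_lit 25392410592), (nat_lit 26232929338)], (nat_lit 1271251), (nat_lit 1271251), (nat_lit 1271251), (nat_lit 1271251), (nat_lit 780000), (nat_lit 2581251), [(nat_lit 1100000), (nat_lit 1785001), (nat_lit 1271251)], [(nat_lit 18), (nat_lit 59), (nat_lit 538), (nat_lit 300), (nat_lit 13)]⟩,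
 ⟨⟨[(nat_lit 140), (nat_lit 180), (nat_lit 200)], [(nat_lit 0), (nat_lit 0), (nat_lit 2835)], [((nat_lit 0), (nat_lit 0), (nat_lit 0)), ((nat_lit 0), (nat_lit 0), (nat_lit 0)), ((nat_lit 363), (nat_lit 1000), (nat_lit 798))], ((nat_lit 0), (nat_lit 0), (nat_lit 0))⟩, (nat_lit 20085), (nat_lit 300), (nat_lit 863), (nat_lit 5701300), (nat_lit 745102), [(nat_lit 718466000), (nat_lit 1026234000), (nat_lit 1197200000)], [], [(nat_lit 5767338978), (nat_lit 5599816940), (nat_lit 5202274005), (nat_lit 5041952698), (nat_lit 5353631990), (nat_lit 5178859065), (nat_lit 4892949394), (nat_lit 5495159680)], (nat_lit 780000), (nat_lit 1271251), (nat_lit 0), (nat_lit 780000), (nat_lit 780000), (nat_lit 2581251), [(nat_lit 1977501), (nat_lit 1271251), (nat_lit 1271251)], [(nat_lit 32), (nat_lit 67), (nat_lit 401), (nat_lit 175), (nat_lit 9)]⟩⟩)) (.trZ (nat_lit 0) (nat_lit 2) (nat_lit 4) (nat_lit 100) (nat_lit 80) (nat_lit 52) (nat_lit 20) (.leaf ⟨(nat_lit 0), (nat_lit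 28), (nat_lit 0), (nat_lit 972), (nat_lit 0), (nat_lit 6028), (nat_lit 8151), (nat_lit 14117), (nat_lit 0), (nat_lit 0), (nat_lit 0), [], Pd.none, Pd.none, (nat_lit 0), (nat_lit 1), (nat_lit 0), (nat_lit 0), (nat_lit 4), (nat_lit 0), [], [⟨(nat_lit 0), (nat_lit 100), (nat_lit 76), (nat_lit 65), (nat_lit 933357989)⟩], [], [],
 ⟨⟨[(nat_lit 40), (nat_lit 80), (nat_lit 120)], [(nat_lit 0), (nat_lit 0), (nat_lit 2151)], [((nat_lit 0), (nat_lit 0), (nat_lit 0)), ((nat_lit 0), (nat_lit 0), (nat_lit 0)), ((nat_lit 1000), (nat_lit 815), (nat_lit 753))], ((nat_lit 80), (nat_lit 100), (nat_lit 63))⟩, (nat_lit 2935249), (nat_lit 251), (nat_lit 251), (nat_lit 0), (nat_lit 165737), [(nat_lit 2333659733), (nat_lit 4688000002), (nat_lit 7968000000)], [], [(nat_lit 26991946192), (nat_lit 28506363621), (nat_lit 36797041956), (nat_lit 38218384893), (nat_lit 24601479400), (nat_lit 25971983617), (nat_lit 32122529136), (nat_lit 33442828162)], (nat_lit 1271251), (nat_lit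 1271251), (nat_lit 1271251), (nat_lit 1271251), (nat_lit 111251), (nat_lit 780000), [(nat_lit 490000), (nat_lit 1100000), (nat_lit 1785001)], [(nat_lit 4), (nat_lit 51), (nat_lit 238), (nat_lit 30), (nat_lit 7)]⟩,
 ⟨⟨[(nat_lit 80), (nat_lit 120), (nat_lit 160)], [(nat_lit 0), (nat_lit 0), (nat_lit 2132)], [((nat_lit 0), (nat_lit 0), (nat_lit 0)), ((nat_lit 0), (nat_lit 0), (nat_lit 0)), ((nat_lit 858), (nat_lit 1000), (nat_lit 713))], ((nat_lit 100), (nat_lit 91), (nat_lit 64))⟩, (nat_lit 3048637), (nat_lit 489), (nat_lit 489), (nat_lit 0), (nat_lit 717424), [(nat_lit 4688000000), (nat_lit 7968000000), (nat_lit 11872000000)], [], [(nat_lit 31396678607), (nat_lit 32609403595), (nat_lit 36545377976), (nat_lit 37249693417), (nat_lit 33970126457), (nat_lit 34562673249), (nat_lit 36980126365), (nat_lit 37230423206)], (nat_lit 1271251), (nat_lit 1271251), (nat_lit 1271251), (nat_lit 1271251), (nat_lit 780000), (nat_lit 2581251), [(nat_lit 1100000), (nat_lit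 1785001), (nat_lit 1271251)], [(nat_lit 18), (nat_lit 59), (nat_lit 538), (nat_lit 300), (nat_lit 13)]⟩,
 ⟨⟨[(nat_lit 120), (nat_lit 160), (nat_lit 180)], [(nat_lit 0), (nat_lit 533), (nat_lit 2066)], [((nat_lit 0), (nat_lit 0), (nat_lit 0)), ((nat_lit 960), (nat_lit 1000), (nat_lit 200)), ((nat_lit 615), (nat_lit 1000), (nat_lit 729))], ((nat_lit 100), (nat_lit 72), (nat_lit 63))⟩, (nat_lit 2350285), (nat_lit 300), (nat_lit 550), (nat_lit 64540800), (nat_lit 358723), [(nat_lit 7744896000), (nat_lit 11539584000), (nat_lit 13664376000)], [], [(nat_lit 48133367188), (nat_lit 47210575042), (nat_lit 39071854868), (nat_lit 38149651396), (nat_lit 62970335755), (nat_lit 49570971685), (nat_lit 70191256834), (nat_lit 57233633105)], (nat_lit 1271251), (nat_lit 1271251), (nat_lit 111251), (nat_lit 780000), (nat_lit 780000), (nat_lit 2581251), [(nat_lit 1695001), (nat_lit 1271251), (nat_lit 1271251)], [(nat_lit 28), (nat_lit 65), (nat_lit 401), (nat_lit 175),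 (nat_lit 10)]⟩⟩)))) (.spl (nat_lit 5) (nat_lit 160) (.leaf ⟨(nat_lit 205), (nat_lit 795), (nat_lit 0), (nat_lit 0), (nat_lit 0), (nat_lit 4825), (nat_lit 5726), (nat_lit 0), (nat_lit 0), (nat_lit 0), (nat_lit 820000), [((nat_lit 340), [((nat_lit 37), (nat_lit 5), (nat_lit 205))])], ⟨(nat_lit 7), false, true, true, (nat_lit 336), (nat_lit 3872), (nat_lit 4473), [(nat_lit 1722167), (nat_lit 1716161), (nat_lit 1765265), (nat_lit 1759713), (nat_lit 1926124), (nat_lit 1909748), (nat_lit 1969223), (nat_lit 1953301)]⟩, ⟨(nat_lit 3), false, false, false, (nat_lit 94), (nat_lit 3872), (nat_lit 4473), [(nat_lit 1073842), (nat_lit 1090218), (nat_lit 1181619), (nat_lit 1199128), (nat_lit 1277776), (nat_lit 1283782), (nat_lit 1385576), (nat_lit 1392716)]⟩, (nat_lit 4469221), (nat_lit 37041273), (nat_lit 26448344), (nat_lit 3510383), (nat_lit 3), (nat_lit 0), [], [⟨(nat_lit 0), (nat_lit 100), (nat_lit 72), (nat_lit 77), (nat_lit 118446533)⟩], [], [],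
 ⟨⟨[(nat_lit 40), (nat_lit 80), (nat_lit 120)], [(nat_lit 0), (nat_lit 0), (nat_lit 2151)], [((nat_lit 0), (nat_lit 0), (nat_lit 0)), ((nat_lit 0), (nat_lit 0), (nat_lit 0)), ((nat_lit 1000), (nat_lit 815), (nat_lit 753))], ((nat_lit 80), (nat_lit 100), (nat_lit 63))⟩, (nat_lit 1246915), (nat_lit 299), (nat_lit 299), (nat_lit 0), (nat_lit 292967), [(nat_lit 2320123532), (nat_lit 2846762467), (nat_lit 2043965533)], [(nat_lit 0), (nat_lit 0), (nat_lit 0)], [(nat_lit 26231029883), (nat_lit 27314774296), (nat_lit 34772956200), (nat_lit 36051061450), (nat_lit 24642657858), (nat_lit 25610302996), (nat_lit 30320300400), (nat_lit 31500534738)], (nat_lit 1271251), (nat_lit 1271251), (nat_lit 1271251), (nat_lit 1271251), (nat_lit 0), (nat_lit 780000), [(nat_lit 490000), (nat_lit 1100000), (nat_lit 1785001)], [(nat_lit 4), (nat_lit 51), (nat_lit 238), (nat_lit 30), (nat_lit 7)]⟩,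
 ⟨⟨[(nat_lit 60), (nat_lit 100), (nat_lit 140)], [(nat_lit 0), (nat_lit 0), (nat_lit 2047)], [((nat_lit 0), (nat_lit 0), (nat_lit 0)), ((nat_lit 0), (nat_lit 0), (nat_lit 0)), ((nat_lit 1000), (nat_lit 993), (nat_lit 781))], ((nat_lit 95), (nat_lit 100), (nat_lit 65))⟩, (nat_lit 3175806), (nat_lit 591), (nat_lit 591), (nat_lit 0), (nat_lit 895852), [(nat_lit 2609190000), (nat_lit 4968750000), (nat_lit 7824390000)], [], [(nat_lit 29312605343), (nat_lit 30116604236), (nat_lit 32357787524), (nat_lit 32932570936), (nat_lit 26327719905), (nat_lit 26969743856), (nat_lit 28827839282), (nat_lit 29207873084)], (nat_lit 1271251), (nat_lit 1271251), (nat_lit 1271251), (nat_lit 1271251), (nat_lit 0), (nat_lit 1100000), [(nat_lit 780000), (nat_lit 1435001), (nat_lit 1271251)], [(nat_lit 11), (nat_lit 55), (nat_lit 258), (nat_lit 40), (nat_lit 7)]⟩,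
 Rw.none⟩) (.leaf ⟨(nat_lit 246), (nat_lit 614), (nat_lit 0), (nat_lit 140), (nat_lit 0), (nat_lit 5201), (nat_lit 5529), (nat_lit 1332), (nat_lit 0), (nat_lit 0), (nat_lit 984000), [((nat_lit 340), [((nat_lit 37), (nat_lit 5), (nat_lit 246))])], ⟨(nat_lit 7), false, true, true, (nat_lit 336), (nat_lit 3872), (nat_lit 4473), [(nat_lit 1722167), (nat_lit 1716161), (nat_lit 1765265), (nat_lit 1759713), (nat_lit 1926124), (nat_lit 1909748), (nat_lit 1969223), (nat_lit 1953301)]⟩, ⟨(nat_lit 3), false, false, false, (nat_lit 94), (nat_lit 3872), (nat_lit 4473), [(nat_lit 1073842), (nat_lit 1090218), (nat_lit 1181619), (nat_lit 1199128), (nat_lit 1277776), (nat_lit 1283782), (nat_lit 1385576), (nat_lit 1392716)]⟩, (nat_lit 4469221), (nat_lit 37041273), (nat_lit 26448344), (nat_lit 3510383), (nat_lit 4), (nat_lit 0), [], [], [], [⟨(nat_lit 1), (nat_lit 100), (nat_lit 71), (nat_lit 71), (nat_lit 215028903)⟩],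
 ⟨⟨[(nat_lit 40), (nat_lit 80), (nat_lit 120)], [(nat_lit 0), (nat_lit 0), (nat_lit 2151)], [((nat_lit 0), (nat_lit 0), (nat_lit 0)), ((nat_lit 0), (nat_lit 0), (nat_lit 0)), ((nat_lit 1000), (nat_lit 815), (nat_lit 753))], ((nat_lit 80), (nat_lit 100), (nat_lit 63))⟩, (nat_lit 993157), (nat_lit 299), (nat_lit 299), (nat_lit 0), (nat_lit 292967), [(nat_lit 2265615201), (nat_lit 2621845603), (nat_lit 747027997)], [(nat_lit 0), (nat_lit 0), (nat_lit 0)], [(nat_lit 26053104738), (nat_lit 27997613442), (nat_lit 35824904936), (nat_lit 37151638266), (nat_lit 22738966319), (nat_lit 23741227553), (nat_lit 30883590512), (nat_lit 32107602342)], (nat_lit 1271251), (nat_lit 1271251), (nat_lit 1271251), (nat_lit 1271251), (nat_lit 0), (nat_lit 780000), [(nat_lit 490000), (nat_lit 1100000), (nat_lit 1785001)], [(nat_lit 4), (nat_lit 51), (nat_lit 238), (nat_lit 30), (nat_lit 7)]⟩,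
 ⟨⟨[(nat_lit 60), (nat_lit 100), (nat_lit 140)], [(nat_lit 0), (nat_lit 0), (nat_lit 2047)], [((nat_lit 0), (nat_lit 0), (nat_lit 0)), ((nat_lit 0), (nat_lit 0), (nat_lit 0)), ((nat_lit 1000), (nat_lit 993), (nat_lit 781))], ((nat_lit 95), (nat_lit 100), (nat_lit 65))⟩, (nat_lit 2071629), (nat_lit 477), (nat_lit 477), (nat_lit 0), (nat_lit 895852), [(nat_lit 2474628000), (nat_lit 4712500000), (nat_lit 7420868000)], [], [(nat_lit 22583314688), (nat_lit 23420436446), (nat_lit 25719095086), (nat_lit 26234941324), (nat_lit 24692263837), (nat_lit 25168390887), (nat_lit 27316600133), (nat_lit 28204805623)], (nat_lit 1271251), (nat_lit 1271251), (nat_lit 1271251), (nat_lit 1271251), (nat_lit 1100000), (nat_lit 2641251), [(nat_lit 780000), (nat_lit 1435001), (nat_lit 1271251)], [(nat_lit 11), (nat_lit 55), (nat_lit 317), (nat_lit 100), (nat_lit 8)]⟩,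
 ⟨⟨[(nat_lit 140), (nat_lit 180), (nat_lit 200)], [(nat_lit 0), (nat_lit 0), (nat_lit 2835)], [((nat_lit 0), (nat_lit 0), (nat_lit 0)), ((nat_lit 0), (nat_lit 0), (nat_lit 0)), ((nat_lit 363), (nat_lit 1000), (nat_lit 798))], ((nat_lit 0), (nat_lit 0), (nat_lit 0))⟩, (nat_lit 448124), (nat_lit 300), (nat_lit 946), (nat_lit 10934000), (nat_lit 1001846), [(nat_lit 1377880000), (nat_lit 1968120000), (nat_lit 2296000000)], [], [(nat_lit 11321802484), (nat_lit 10882692991), (nat_lit 10387624097), (nat_lit 9963599113), (nat_lit 10820766091), (nat_lit 10381539160), (nat_lit 9893943231), (nat_lit 11361505617)], (nat_lit 780000), (nat_lit 1598751), (nat_lit 0), (nat_lit 780000), (nat_lit 1100000), (nat_lit 2641251), [(nat_lit 1977501), (nat_lit 1271251), (nat_lit 1271251)], [(nat_lit 32), (nat_lit 67), (nat_lit 401), (nat_lit 175), (nat_lit 9)]⟩⟩))))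
noncomputable def c11_13 : Tr Lf :=
 (.spl (nat_lit 5) (nat_lit 120) (.leaf ⟨(nat_lit 49), (nat_lit 730), (nat_lit 0), (nat_lit 221), (nat_lit 0), (nat_lit 9201), (nat_lit 6990), (nat_lit 3723), (nat_lit 0), (nat_lit 587164), (nat_lit 196000), [((nat_lit 340), [((nat_lit 37), (nat_lit 5), (nat_lit 49))])], ⟨(nat_lit 6), true, false, false, (nat_lit 274), (nat_lit 3872), (nat_lit 4473), [(nat_lit 1407125), (nat_lit 1414492), (nat_lit 1493321), (nat_lit 1501595), (nat_lit 1883018), (nat_lit 1866188), (nat_lit 1969223), (nat_lit 1953301)]⟩, ⟨(nat_lit 5), false, false, false, (nat_lit 154), (nat_lit 3872), (nat_lit 4473), [(nat_lit 1266601), (nat_lit 1279790), (nat_lit 1374345), (nat_lit 1388668), (nat_lit 1385576), (nat_lit 1392716), (nat_lit 1493321), (nat_lit 1501595)]⟩, (nat_lit 4940766), (nat_lit 39575953), (nat_lit 19614150), (nat_lit 7809897), (nat_lit 5), (nat_lit 0), [], [⟨(nat_lit 0), (nat_lit 100), (nat_lit 80), (nat_lit 68), (nat_lit 456990259)⟩],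 [⟨(nat_lit 0), (nat_lit 100), (nat_lit 98), (nat_lit 74), (nat_lit 348567983)⟩], [],
 ⟨⟨[(nat_lit 40), (nat_lit 80), (nat_lit 120)], [(nat_lit 0), (nat_lit 0), (nat_lit 2151)], [((nat_lit 0), (nat_lit 0), (nat_lit 0)), ((nat_lit 0), (nat_lit 0), (nat_lit 0)), ((nat_lit 1000), (nat_lit 815), (nat_lit 753))], ((nat_lit 80), (nat_lit 100), (nat_lit 63))⟩, (nat_lit 77568), (nat_lit 300), (nat_lit 394), (nat_lit 52717796), (nat_lit 616849), [(nat_lit 2091030833), (nat_lit 4217423679), (nat_lit 6492982400)], [(nat_lit 0), (nat_lit 0), (nat_lit 0)], [(nat_lit 27304936377), (nat_lit 28668785594), (nat_lit 41555325539), (nat_lit 43358936601), (nat_lit 24839388058), (nat_lit 26093297353), (nat_lit 37543330882), (nat_lit 38565768342)], (nat_lit 1271251), (nat_lit 1271251), (nat_lit 780000), (nat_lit 3072501), (nat_lit 292188), (nat_lit 780000), [(nat_lit 490000), (nat_lit 1100000), (nat_lit 1785001)], [(nat_lit 4), (nat_lit 51), (nat_lit 373), (nat_lit 150),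 (nat_lit 12)]⟩,
 ⟨⟨[(nat_lit 80), (nat_lit 120), (nat_lit 160)], [(nat_lit 0), (nat_lit 0), (nat_lit 2132)], [((nat_lit 0), (nat_lit 0), (nat_lit 0)), ((nat_lit 0), (nat_lit 0), (nat_lit 0)), ((nat_lit 858), (nat_lit 1000), (nat_lit 713))], ((nat_lit 100), (nat_lit 91), (nat_lit 64))⟩, (nat_lit 4815527), (nat_lit 252), (nat_lit 252), (nat_lit 0), (nat_lit 0), [(nat_lit 4458288000), (nat_lit 7577568000), (nat_lit 11290272000)], [], [(nat_lit 20135079026), (nat_lit 26689078590), (nat_lit 36545439444), (nat_lit 39787634520), (nat_lit 16788931842), (nat_lit 22451344062), (nat_lit 30892053666), (nat_lit 33850358376)], (nat_lit 0), (nat_lit 0), (nat_lit 0), (nat_lit 0), (nat_lit 0), (nat_lit 0), [], [(nat_lit 18), (nat_lit 59), (nat_lit 456), (nat_lit 225), (nat_lit 12)]⟩,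
 ⟨⟨[(nat_lit 100), (nat_lit 140), (nat_lit 160)], [(nat_lit 0), (nat_lit 508), (nat_lit 1689)], [((nat_lit 0), (nat_lit 0), (nat_lit 0)), ((nat_lit 1000), (nat_lit 1000), (nat_lit 198)), ((nat_lit 811), (nat_lit 1000), (nat_lit 671))], ((nat_lit 100), (nat_lit 84), (nat_lit 63))⟩, (nat_lit 475063), (nat_lit 300), (nat_lit 545), (nat_lit 13812500), (nat_lit 406866), [(nat_lit 1381250000), (nat_lit 2175082000), (nat_lit 2623712000)], [], [(nat_lit 9863848182), (nat_lit 11193472864), (nat_lit 8299640100), (nat_lit 9504479476), (nat_lit 6710341550), (nat_lit 7872743741), (nat_lit 7676175695), (nat_lit 6361684155)], (nat_lit 1271251), (nat_lit 1271251), (nat_lit 292188), (nat_lit 780000), (nat_lit 0), (nat_lit 780000), [(nat_lit 1412501), (nat_lit 1271251), (nat_lit 1271251)], [(nat_lit 23), (nat_lit 62), (nat_lit 373), (nat_lit 150), (nat_lit 10)]⟩⟩) (.leaf ⟨(nat_lit 0), (nat_lit 461), (nat_lit 0), (nat_lit 539), (nat_lit 0), (nat_lit 10089), (nat_lit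 8360), (nat_lit 4871), (nat_lit 0), (nat_lit 34151), (nat_lit 0), [], Pd.none, Pd.none, (nat_lit 0), (nat_lit 1), (nat_lit 0), (nat_lit 0), (nat_lit 5), (nat_lit 0), [], [⟨(nat_lit 0), (nat_lit 100), (nat_lit 80), (nat_lit 68), (nat_lit 484124033)⟩], [], [],
 ⟨⟨[(nat_lit 40), (nat_lit 80), (nat_lit 120)], [(nat_lit 0), (nat_lit 0), (nat_lit 2151)], [((nat_lit 0), (nat_lit 0), (nat_lit 0)), ((nat_lit 0), (nat_lit 0), (nat_lit 0)), ((nat_lit 1000), (nat_lit 815), (nat_lit 753))], ((nat_lit 80), (nat_lit 100), (nat_lit 63))⟩, (nat_lit 1083822), (nat_lit 300), (nat_lit 394), (nat_lit 58600001), (nat_lit 616849), [(nat_lit 2279272732), (nat_lit 4688000010), (nat_lit 7968000000)], [], [(nat_lit 27498914829), (nat_lit 28942932131), (nat_lit 43450174127), (nat_lit 45365950134), (nat_lit 24683611282), (nat_lit 26008955071), (nat_lit 38206361968), (nat_lit 39999481194)], (nat_lit 1271251), (nat_lit 1271251), (nat_lit 780000), (nat_lit 3072501), (nat_lit 292188),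 (nat_lit 780000), [(nat_lit 490000), (nat_lit 1100000), (nat_lit 1785001)], [(nat_lit 4), (nat_lit 51), (nat_lit 373), (nat_lit 150), (nat_lit 12)]⟩,
 ⟨⟨[(nat_lit 80), (nat_lit 120), (nat_lit 160)], [(nat_lit 0), (nat_lit 0), (nat_lit 2132)], [((nat_lit 0), (nat_lit 0), (nat_lit 0)), ((nat_lit 0), (nat_lit 0), (nat_lit 0)), ((nat_lit 858), (nat_lit 1000), (nat_lit 713))], ((nat_lit 100), (nat_lit 91), (nat_lit 64))⟩, (nat_lit 5118977), (nat_lit 168), (nat_lit 168), (nat_lit 0), (nat_lit 0), [(nat_lit 4688000000), (nat_lit 7968000000), (nat_lit 11872000000)], [], [(nat_lit 15525500840), (nat_lit 22398464040), (nat_lit 32358258640), (nat_lit 35616126320), (nat_lit 32358258640), (nat_lit 35616126320), (nat_lit 40149004480), (nat_lit 41807962240)], (nat_lit 0), (nat_lit 0), (nat_lit 0), (nat_lit 0), (nat_lit 0), (nat_lit 0), [], [(nat_lit 18), (nat_lit 59), (nat_lit 538), (nat_lit 300), (nat_lit 13)]⟩,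
 ⟨⟨[(nat_lit 100), (nat_lit 140), (nat_lit 160)], [(nat_lit 0), (nat_lit 508), (nat_lit 1689)], [((nat_lit 0), (nat_lit 0), (nat_lit 0)), ((nat_lit 1000), (nat_lit 1000), (nat_lit 198)), ((nat_lit 811), (nat_lit 1000), (nat_lit 671))], ((nat_lit 100), (nat_lit 84), (nat_lit 63))⟩, (nat_lit 1326931), (nat_lit 300), (nat_lit 761), (nat_lit 33687500), (nat_lit 1067920), [(nat_lit 3368750000), (nat_lit 5304838000), (nat_lit 6399008000)], [], [(nat_lit 26557720793), (nat_lit 26463164199), (nat_lit 25038620348), (nat_lit 24894707895), (nat_lit 25776083513), (nat_lit 25372982056), (nat_lit 27894567818), (nat_lit 23648826066)], (nat_lit 1271251), (nat_lit 1271251), (nat_lit 292188), (nat_lit 780000), (nat_lit 780000), (nat_lit 3072501), [(nat_lit 1412501), (nat_lit 1271251), (nat_lit 1271251)], [(nat_lit 23), (nat_lit 62), (nat_lit 456), (nat_lit 225), (nat_lit 12)]⟩⟩))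
noncomputable def c11_14 : Tr Lf :=
 (.spl (nat_lit 3) (nat_lit 280) (.spl (nat_lit 5) (nat_lit 120) (.spl (nat_lit 3) (nat_lit 200) (.spl (nat_lit 1) (nat_lit 280) (.ord (.spl (nat_lit 6) (nat_lit 24) (.leaf ⟨(nat_lit 322), (nat_lit 267), (nat_lit 197), (nat_lit 214), (nat_lit 0), (nat_lit 4884), (nat_lit 4152), (nat_lit 8076), (nat_lit 0), (nat_lit 1634367), (nat_lit 1027000), [((nat_lit 340), [((nat_lit 18), (nat_lit 2), (nat_lit 87)), ((nat_lit 37), (nat_lit 5), (nat_lit 235))])], ⟨(nat_lit 6), false, false, false, (nat_lit 199), (nat_lit 3872), (nat_lit 4473), [(nat_lit 1407125), (nat_lit 1414492), (nat_lit 1450223), (nat_lit 1458043), (nat_lit 1543097), (nat_lit 1543551), (nat_lit 1586195), (nat_lit 1587102)]⟩, ⟨(nat_lit 5), false, false, false, (nat_lit 145), (nat_lit 3872), (nat_lit 4473), [(nat_lit 1266601), (nat_lit 1279790), (nat_lit 1331248), (nat_lit 1345117), (nat_lit 1385576), (nat_lit 1392716), (nat_lit 1450223), (nat_lit 1458043)]⟩,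 (nat_lit 4405894), (nat_lit 46358834), (nat_lit 12828304), (nat_lit 7812862), (nat_lit 5), (nat_lit 6), [], [⟨(nat_lit 0), (nat_lit 100), (nat_lit 78), (nat_lit 85), (nat_lit 713034123)⟩], [⟨(nat_lit 0), (nat_lit 100), (nat_lit 99), (nat_lit 55), (nat_lit 45385425)⟩, ⟨(nat_lit 0), (nat_lit 100), (nat_lit 98), (nat_lit 30), (nat_lit 511534)⟩], [],
 ⟨⟨[(nat_lit 40), (nat_lit 80), (nat_lit 100)], [(nat_lit 0), (nat_lit 0), (nat_lit 1280)], [((nat_lit 0), (nat_lit 0), (nat_lit 0)), ((nat_lit 0), (nat_lit 0), (nat_lit 0)), ((nat_lit 1000), (nat_lit 800), (nat_lit 600))], ((nat_lit 81), (nat_lit 100), (nat_lit 48))⟩, (nat_lit 0), (nat_lit 160), (nat_lit 160), (nat_lit 0), (nat_lit 198133), [(nat_lit 2065651880), (nat_lit 2564716222), (nat_lit 1306279600)], [(nat_lit 0), (nat_lit 0), (nat_lit 0)], [(nat_lit 16944773767), (nat_lit 19263703243), (nat_lit 18781228510), (nat_lit 20932257716), (nat_lit 16300198710), (nat_lit 18140477859), (nat_lit 18151192878),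 (nat_lit 19789411368)], (nat_lit 1271251), (nat_lit 1271251), (nat_lit 780000), (nat_lit 1435001), (nat_lit 292188), (nat_lit 780000), [(nat_lit 490000), (nat_lit 1100000), (nat_lit 1442501)], [(nat_lit 3), (nat_lit 50), (nat_lit 317), (nat_lit 100), (nat_lit 12)]⟩,
 ⟨⟨[(nat_lit 80), (nat_lit 120), (nat_lit 140)], [(nat_lit 0), (nat_lit 0), (nat_lit 1164)], [((nat_lit 0), (nat_lit 0), (nat_lit 0)), ((nat_lit 0), (nat_lit 0), (nat_lit 0)), ((nat_lit 941), (nat_lit 1000), (nat_lit 576))], ((nat_lit 100), (nat_lit 98), (nat_lit 48))⟩, (nat_lit 1221042), (nat_lit 532), (nat_lit 532), (nat_lit 0), (nat_lit 689492), [(nat_lit 2254928000), (nat_lit 3832608000), (nat_lit 4734002000)], [], [(nat_lit 17677404940), (nat_lit 18271554607), (nat_lit 17548203606), (nat_lit 18114574329), (nat_lit 15727446416), (nat_lit 16051241591), (nat_lit 20089556956), (nat_lit 16303333624)], (nat_lit 1271251), (nat_lit 1271251), (nat_lit 780000), (nat_lit 1435001), (nat_lit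 0), (nat_lit 780000), [(nat_lit 1100000), (nat_lit 1785001), (nat_lit 1271251)], [(nat_lit 17), (nat_lit 58), (nat_lit 373), (nat_lit 150), (nat_lit 11)]⟩,
 ⟨⟨[(nat_lit 100), (nat_lit 120), (nat_lit 140)], [(nat_lit 0), (nat_lit 254), (nat_lit 778)], [((nat_lit 0), (nat_lit 0), (nat_lit 0)), ((nat_lit 1000), (nat_lit 1000), (nat_lit 198)), ((nat_lit 960), (nat_lit 1000), (nat_lit 392))], ((nat_lit 100), (nat_lit 93), (nat_lit 48))⟩, (nat_lit 757273), (nat_lit 300), (nat_lit 380), (nat_lit 25687506), (nat_lit 279282), [(nat_lit 2568750000), (nat_lit 3274848000), (nat_lit 4045062000)], [], [(nat_lit 12235408638), (nat_lit 16229806211), (nat_lit 10353635970), (nat_lit 12622388411), (nat_lit 10489704077), (nat_lit 8711239007), (nat_lit 13566239091), (nat_lit 5720445712)], (nat_lit 1271251), (nat_lit 1271251), (nat_lit 292188), (nat_lit 780000), (nat_lit 0), (nat_lit 780000), [(nat_lit 1412501), (nat_lit 1271251), (nat_lit 1271251)], [(nat_lit 22), (nat_lit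 58), (nat_lit 373), (nat_lit 150), (nat_lit 11)]⟩⟩) (.leaf ⟨(nat_lit 0), (nat_lit 707), (nat_lit 0), (nat_lit 293), (nat_lit 12301), (nat_lit 6638), (nat_lit 7123), (nat_lit 6102), (nat_lit 0), (nat_lit 2315258), (nat_lit 0), [], Pd.none, Pd.none, (nat_lit 0), (nat_lit 1), (nat_lit 0), (nat_lit 0), (nat_lit 5), (nat_lit 0), [], [⟨(nat_lit 0), (nat_lit 100), (nat_lit 78), (nat_lit 85), (nat_lit 697786710)⟩], [⟨(nat_lit 0), (nat_lit 100), (nat_lit 99), (nat_lit 55), (nat_lit 316038625)⟩], [],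
 ⟨⟨[(nat_lit 40), (nat_lit 80), (nat_lit 120)], [(nat_lit 0), (nat_lit 0), (nat_lit 2151)], [((nat_lit 0), (nat_lit 0), (nat_lit 0)), ((nat_lit 0), (nat_lit 0), (nat_lit 0)), ((nat_lit 1000), (nat_lit 815), (nat_lit 753))], ((nat_lit 80), (nat_lit 100), (nat_lit 63))⟩, (nat_lit 2925295), (nat_lit 152), (nat_lit 152), (nat_lit 0), (nat_lit 97138), [(nat_lit 2732308796), (nat_lit 4688000049), (nat_lit 7968000000)], [], [(nat_lit 18826263276), (nat_lit 21244881323), (nat_lit 20180758858), (nat_lit 22730705501), (nat_lit 17233782087), (nat_lit 19247558546), (nat_lit 18703994757), (nat_lit 20766642996)], (nat_lit 1271251), (nat_lit 1271251), (nat_lit 780000), (nat_lit 1435001), (nat_lit 292188), (nat_lit 780000), [(nat_lit 490000), (nat_lit 1100000), (nat_lit 1785001)], [(nat_lit 4), (nat_lit 51), (nat_lit 317), (nat_lit 100), (nat_lit 10)]⟩,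
 ⟨⟨[(nat_lit 80), (nat_lit 120), (nat_lit 160)], [(nat_lit 0), (nat_lit 0), (nat_lit 2132)], [((nat_lit 0), (nat_lit 0), (nat_lit 0)), ((nat_lit 0), (nat_lit 0), (nat_lit 0)), ((nat_lit 858), (nat_lit 1000), (nat_lit 713))], ((nat_lit 100), (nat_lit 91), (nat_lit 64))⟩, (nat_lit 895468), (nat_lit 403), (nat_lit 403), (nat_lit 0), (nat_lit 296601), [(nat_lit 4688000000), (nat_lit 7968000000), (nat_lit 11872000000)], [], [(nat_lit 36035205166), (nat_lit 37840337805), (nat_lit 37142905110), (nat_lit 38219456192), (nat_lit 34444097147), (nat_lit 33997437891), (nat_lit 42385573356), (nat_lit 35890084726)], (nat_lit 1271251), (nat_lit 1271251), (nat_lit 780000), (nat_lit 1435001), (nat_lit 0), (nat_lit 780000), [(nat_lit 1100000), (nat_lit 1785001), (nat_lit 1271251)], [(nat_lit 18), (nat_lit 59), (nat_lit 373), (nat_lit 150), (nat_lit 10)]⟩,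
 ⟨⟨[(nat_lit 100), (nat_lit 140), (nat_lit 160)], [(nat_lit 0), (nat_lit 508), (nat_lit 1689)], [((nat_lit 0), (nat_lit 0), (nat_lit 0)), ((nat_lit 1000), (nat_lit 1000), (nat_lit 198)), ((nat_lit 811), (nat_lit 1000), (nat_lit 671))], ((nat_lit 100), (nat_lit 84), (nat_lit 63))⟩, (nat_lit 629834), (nat_lit 300), (nat_lit 397), (nat_lit 18312503), (nat_lit 131360), [(nat_lit 1831250000), (nat_lit 2883706000), (nat_lit 3478496000)], [], [(nat_lit 13161288494), (nat_lit 14421761122), (nat_lit 10512845736), (nat_lit 11457451200), (nat_lit 7857815456), (nat_lit 8769083214), (nat_lit 9459123246), (nat_lit 6302191901)], (nat_lit 1271251), (nat_lit 1271251), (nat_lit 292188), (nat_lit 780000), (nat_lit 0), (nat_lit 780000), [(nat_lit 1412501), (nat_lit 1271251), (nat_lit 1271251)], [(nat_lit 23), (nat_lit 62), (nat_lit 373), (nat_lit 150), (nat_lit 10)]⟩⟩))) (.trZ (nat_lit 1) (nat_lit 2) (nat_lit 5) (nat_lit 100) (nat_lit 92) (nat_lit 49) (nat_lit 20) (.leaf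 ⟨(nat_lit 0), (nat_lit 550), (nat_lit 0), (nat_lit 450), (nat_lit 0), (nat_lit 6887), (nat_lit 10231), (nat_lit 14371), (nat_lit 0), (nat_lit 29159), (nat_lit 0), [], Pd.none, Pd.none, (nat_lit 0), (nat_lit 1), (nat_lit 0), (nat_lit 0), (nat_lit 5), (nat_lit 0), [⟨(nat_lit 0), (nat_lit 92), (nat_lit 81), (nat_lit 100), (nat_lit 83790901)⟩], [⟨(nat_lit 0), (nat_lit 100), (nat_lit 81), (nat_lit 93), (nat_lit 1068539683)⟩, ⟨(nat_lit 0), (nat_lit 100), (nat_lit 80), (nat_lit 68), (nat_lit 77191789)⟩], [⟨(nat_lit 0), (nat_lit 100), (nat_lit 92), (nat_lit 49), (nat_lit 565151662)⟩], [],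
 ⟨⟨[(nat_lit 40), (nat_lit 80), (nat_lit 120)], [(nat_lit 0), (nat_lit 0), (nat_lit 2151)], [((nat_lit 0), (nat_lit 0), (nat_lit 0)), ((nat_lit 0), (nat_lit 0), (nat_lit 0)), ((nat_lit 1000), (nat_lit 815), (nat_lit 753))], ((nat_lit 80), (nat_lit 100), (nat_lit 63))⟩, (nat_lit 3146429), (nat_lit 249), (nat_lit 249), (nat_lit 0), (nat_lit 283891), [(nat_lit 2419612123), (nat_lit 4688000013), (nat_lit 7968000000)], [], [(nat_lit 19339243956), (nat_lit 21527019537), (nat_lit 21026885128), (nat_lit 22986015364), (nat_lit 18209462739), (nat_lit 20223347050), (nat_lit 19763012389), (nat_lit 21523733899)], (nat_lit 1271251), (nat_lit 1271251), (nat_lit 780000), (nat_lit 1435001), (nat_lit 292188), (nat_lit 780000), [(nat_lit 490000), (nat_lit 1100000), (nat_lit 1785001)], [(nat_lit 4), (nat_lit 51), (nat_lit 317), (nat_lit 100), (nat_lit 10)]⟩,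
 ⟨⟨[(nat_lit 60), (nat_lit 100), (nat_lit 140)], [(nat_lit 0), (nat_lit 0), (nat_lit 2047)], [((nat_lit 0), (nat_lit 0), (nat_lit 0)), ((nat_lit 0), (nat_lit 0), (nat_lit 0)), ((nat_lit 1000), (nat_lit 993), (nat_lit 781))], ((nat_lit 95), (nat_lit 100), (nat_lit 65))⟩, (nat_lit 3838245), (nat_lit 569), (nat_lit 569), (nat_lit 0), (nat_lit 774133), [(nat_lit 3282000000), (nat_lit 6250000000), (nat_lit 9842000000)], [], [(nat_lit 21560824603), (nat_lit 24669476577), (nat_lit 21816984578), (nat_lit 26166870770), (nat_lit 17610803709), (nat_lit 19620119266), (nat_lit 24561260819), (nat_lit 19386425635)], (nat_lit 1271251), (nat_lit 1271251), (nat_lit 780000), (nat_lit 1435001), (nat_lit 111251), (nat_lit 780000), [(nat_lit 780000), (nat_lit 1435001), (nat_lit 1271251)], [(nat_lit 11), (nat_lit 55), (nat_lit 317), (nat_lit 100), (nat_lit 9)]⟩,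
 ⟨⟨[(nat_lit 100), (nat_lit 140), (nat_lit 160)], [(nat_lit 0), (nat_lit 508), (nat_lit 1689)], [((nat_lit 0), (nat_lit 0), (nat_lit 0)), ((nat_lit 1000), (nat_lit 1000), (nat_lit 198)), ((nat_lit 811), (nat_lit 1000), (nat_lit 671))], ((nat_lit 100), (nat_lit 84), (nat_lit 63))⟩, (nat_lit 1784276), (nat_lit 300), (nat_lit 525), (nat_lit 28125000), (nat_lit 402015), [(nat_lit 2812500000), (nat_lit 4428900000), (nat_lit 5342400000)], [], [(nat_lit 17844451100), (nat_lit 31523229643), (nat_lit 11471240055), (nat_lit 22847773182), (nat_lit 7615084689), (nat_lit 17341603815), (nat_lit 11449858869), (nat_lit 10355214993)], (nat_lit 1271251), (nat_lit 1271251), (nat_lit 292188), (nat_lit 780000), (nat_lit 111251), (nat_lit 780000), [(nat_lit 1412501), (nat_lit 1271251), (nat_lit 1271251)], [(nat_lit 23), (nat_lit 62), (nat_lit 373), (nat_lit 150), (nat_lit 10)]⟩⟩))) (.leaf ⟨(nat_lit 258), (nat_lit 196), (nat_lit 0), (nat_lit 546), (nat_lit 0), (nat_lit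 5313), (nat_lit 8806), (nat_lit 9575), (nat_lit 0), (nat_lit 63184), (nat_lit 1032000), [((nat_lit 340), [((nat_lit 37), (nat_lit 5), (nat_lit 258))])], ⟨(nat_lit 6), false, true, false, (nat_lit 261), (nat_lit 3872), (nat_lit 4473), [(nat_lit 1543097), (nat_lit 1543551), (nat_lit 1629293), (nat_lit 1630654), (nat_lit 1679069), (nat_lit 1672609), (nat_lit 1765265), (nat_lit 1759713)]⟩, ⟨(nat_lit 5), false, false, false, (nat_lit 154), (nat_lit 3872), (nat_lit 4473), [(nat_lit 1266601), (nat_lit 1279790), (nat_lit 1374345), (nat_lit 1388668), (nat_lit 1385576), (nat_lit 1392716), (nat_lit 1493321), (nat_lit 1501595)]⟩, (nat_lit 4887674), (nat_lit 40650486), (nat_lit 18402732), (nat_lit 7946782), (nat_lit 5), (nat_lit 0), [], [⟨(nat_lit 0), (nat_lit 100), (nat_lit 80), (nat_lit 68), (nat_lit 1076833921)⟩], [⟨(nat_lit 0), (nat_lit 100), (nat_lit 98), (nat_lit 30), (nat_lit 336037877)⟩], [],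
 ⟨⟨[(nat_lit 40), (nat_lit 80), (nat_lit 120)], [(nat_lit 0), (nat_lit 0), (nat_lit 2151)], [((nat_lit 0), (nat_lit 0), (nat_lit 0)), ((nat_lit 0), (nat_lit 0), (nat_lit 0)), ((nat_lit 1000), (nat_lit 815), (nat_lit 753))], ((nat_lit 80), (nat_lit 100), (nat_lit 63))⟩, (nat_lit 11162), (nat_lit 232), (nat_lit 232), (nat_lit 0), (nat_lit 284062), [(nat_lit 2263362531), (nat_lit 2542315923), (nat_lit 381136877)], [(nat_lit 0), (nat_lit 0), (nat_lit 0)], [(nat_lit 19263473724), (nat_lit 21372128925), (nat_lit 23629623573), (nat_lit 25540132069), (nat_lit 18471762138), (nat_lit 19879854214), (nat_lit 22047181319), (nat_lit 23827137433)], (nat_lit 1271251), (nat_lit 1271251), (nat_lit 1271251), (nat_lit 1271251), (nat_lit 292188), (nat_lit 780000), [(nat_lit 490000), (nat_lit 1100000), (nat_lit 1785001)], [(nat_lit 4), (nat_lit 51), (nat_lit 317), (nat_lit 100), (nat_lit 10)]⟩,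
 ⟨⟨[(nat_lit 80), (nat_lit 120), (nat_lit 160)], [(nat_lit 0), (nat_lit 0), (nat_lit 2132)], [((nat_lit 0), (nat_lit 0), (nat_lit 0)), ((nat_lit 0), (nat_lit 0), (nat_lit 0)), ((nat_lit 858), (nat_lit 1000), (nat_lit 713))], ((nat_lit 100), (nat_lit 91), (nat_lit 64))⟩, (nat_lit 2982171), (nat_lit 707), (nat_lit 707), (nat_lit 0), (nat_lit 956862), [(nat_lit 3478496000), (nat_lit 5912256000), (nat_lit 8809024000)], [], [(nat_lit 19603128916), (nat_lit 24284336288), (nat_lit 22521431760), (nat_lit 27994034740), (nat_lit 23751147616), (nat_lit 16746698250), (nat_lit 15394943060), (nat_lit 19122899978)], (nat_lit 1271251), (nat_lit 1271251), (nat_lit 1271251), (nat_lit 1271251), (nat_lit 0), (nat_lit 780000), [(nat_lit 1100000), (nat_lit 1785001), (nat_lit 1271251)], [(nat_lit 18), (nat_lit 59), (nat_lit 428), (nat_lit 200), (nat_lit 11)]⟩,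
 ⟨⟨[(nat_lit 100), (nat_lit 140), (nat_lit 160)], [(nat_lit 0), (nat_lit 508), (nat_lit 1689)], [((nat_lit 0), (nat_lit 0), (nat_lit 0)), ((nat_lit 1000), (nat_lit 1000), (nat_lit 198)), ((nat_lit 811), (nat_lit 1000), (nat_lit 671))], ((nat_lit 100), (nat_lit 84), (nat_lit 63))⟩, (nat_lit 1173685), (nat_lit 300), (nat_lit 545), (nat_lit 34125001), (nat_lit 406866), [(nat_lit 3412500000), (nat_lit 5373732000), (nat_lit 6482112000)], [], [(nat_lit 24396625862), (nat_lit 28177168633), (nat_lit 20346330795), (nat_lit 23388028085), (nat_lit 16242672425), (nat_lit 19176039001), (nat_lit 18732571670), (nat_lit 15264744574)], (nat_lit 1271251), (nat_lit 1271251), (nat_lit 292188), (nat_lit 780000), (nat_lit 0), (nat_lit 780000), [(nat_lit 1412501), (nat_lit 1271251), (nat_lit 1271251)], [(nat_lit 23), (nat_lit 62), (nat_lit 373), (nat_lit 150), (nat_lit 10)]⟩⟩)) (.leaf ⟨(nat_lit 75), (nat_lit 0), (nat_lit 0), (nat_lit 925), (nat_lit 0), (nat_lit 6259),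 (nat_lit 6707), (nat_lit 14759), (nat_lit 0), (nat_lit 159356), (nat_lit 300000), [((nat_lit 340), [((nat_lit 37), (nat_lit 5), (nat_lit 75))])], ⟨(nat_lit 6), false, false, false, (nat_lit 235), (nat_lit 3872), (nat_lit 4473), [(nat_lit 1407125), (nat_lit 1414492), (nat_lit 1493321), (nat_lit 1501595), (nat_lit 1679069), (nat_lit 1672609), (nat_lit 1765265), (nat_lit 1759713)]⟩, ⟨(nat_lit 5), false, false, false, (nat_lit 154), (nat_lit 3872), (nat_lit 4473), [(nat_lit 1266601), (nat_lit 1279790), (nat_lit 1374345), (nat_lit 1388668), (nat_lit 1385576), (nat_lit 1392716), (nat_lit 1493321), (nat_lit 1501595)]⟩, (nat_lit 4749941), (nat_lit 42831560), (nat_lit 15965286), (nat_lit 8203154), (nat_lit 0), (nat_lit 0), [], [⟨(nat_lit 0), (nat_lit 100), (nat_lit 81), (nat_lit 93), (nat_lit 989373413)⟩], [], [],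
 ⟨⟨[(nat_lit 40), (nat_lit 80), (nat_lit 120)], [(nat_lit 0), (nat_lit 0), (nat_lit 2151)], [((nat_lit 0), (nat_lit 0), (nat_lit 0)), ((nat_lit 0), (nat_lit 0), (nat_lit 0)), ((nat_lit 1000), (nat_lit 815), (nat_lit 753))], ((nat_lit 80), (nat_lit 100), (nat_lit 63))⟩, (nat_lit 2250912), (nat_lit 249), (nat_lit 249), (nat_lit 0), (nat_lit 284062), [(nat_lit 2419149479), (nat_lit 3967730281), (nat_lit 5778599157)], [(nat_lit 0), (nat_lit 0), (nat_lit 0)], [(nat_lit 18764034855), (nat_lit 20817027527), (nat_lit 24687655279), (nat_lit 26803637872), (nat_lit 17864909503), (nat_lit 19757849963), (nat_lit 22790278975), (nat_lit 24552769098)], (nat_lit 1271251), (nat_lit 1271251), (nat_lit 780000), (nat_lit 2090001), (nat_lit 292188), (nat_lit 780000), [(nat_lit 490000), (nat_lit 1100000), (nat_lit 1785001)], [(nat_lit 4), (nat_lit 51), (nat_lit 317), (nat_lit 100), (nat_lit 10)]⟩,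
 ⟨⟨[(nat_lit 80), (nat_lit 120), (nat_lit 160)], [(nat_lit 0), (nat_lit 0), (nat_lit 2132)], [((nat_lit 0), (nat_lit 0), (nat_lit 0)), ((nat_lit 0), (nat_lit 0), (nat_lit 0)), ((nat_lit 858), (nat_lit 1000), (nat_lit 713))], ((nat_lit 100), (nat_lit 91), (nat_lit 64))⟩, (nat_lit 1987971), (nat_lit 909), (nat_lit 909), (nat_lit 0), (nat_lit 1512552), [(nat_lit 4336400000), (nat_lit 7370400000), (nat_lit 10981600000)], [], [(nat_lit 43966817637), (nat_lit 44592255621), (nat_lit 43393491683), (nat_lit 43680588422), (nat_lit 45034310796), (nat_lit 44459580412), (nat_lit 61185386194), (nat_lit 49704906982)], (nat_lit 1271251), (nat_lit 1271251), (nat_lit 780000), (nat_lit 2090001), (nat_lit 780000), (nat_lit 3072501), [(nat_lit 1100000), (nat_lit 1785001), (nat_lit 1271251)], [(nat_lit 18), (nat_lit 59), (nat_lit 483), (nat_lit 250), (nat_lit 12)]⟩,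
 ⟨⟨[(nat_lit 100), (nat_lit 140), (nat_lit 160)], [(nat_lit 0), (nat_lit 508), (nat_lit 1689)], [((nat_lit 0), (nat_lit 0), (nat_lit 0)), ((nat_lit 1000), (nat_lit 1000), (nat_lit 198)), ((nat_lit 811), (nat_lit 1000), (nat_lit 671))], ((nat_lit 100), (nat_lit 84), (nat_lit 63))⟩, (nat_lit 1988860), (nat_lit 300), (nat_lit 421), (nat_lit 57812500), (nat_lit 406866), [(nat_lit 5781250000), (nat_lit 9103850000), (nat_lit 10981600000)], [], [(nat_lit 28819988294), (nat_lit 33550769505), (nat_lit 23377567762), (nat_lit 27615297083), (nat_lit 47886591993), (nat_lit 51771059109), (nat_lit 54511662186), (nat_lit 43470651758)], (nat_lit 1271251), (nat_lit 1271251), (nat_lit 292188), (nat_lit 780000), (nat_lit 780000), (nat_lit 3072501), [(nat_lit 1412501), (nat_lit 1271251), (nat_lit 1271251)], [(nat_lit 23), (nat_lit 62), (nat_lit 456), (nat_lit 225), (nat_lit 12)]⟩⟩)) (.trX (nat_lit 5) (nat_lit 3) (nat_lit 4) (nat_lit 100) (nat_lit 80) (nat_lit 100) (nat_lit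 340) (.spl (nat_lit 5) (nat_lit 120) (.leaf ⟨(nat_lit 0), (nat_lit 137), (nat_lit 0), (nat_lit 863), (nat_lit 0), (nat_lit 6361), (nat_lit 9363), (nat_lit 14080), (nat_lit 0), (nat_lit 24547), (nat_lit 0), [], Pd.none, Pd.none, (nat_lit 0), (nat_lit 1), (nat_lit 0), (nat_lit 0), (nat_lit 5), (nat_lit 0), [], [⟨(nat_lit 0), (nat_lit 100), (nat_lit 80), (nat_lit 68), (nat_lit 1431213853)⟩], [⟨(nat_lit 0), (nat_lit 100), (nat_lit 98), (nat_lit 30), (nat_lit 959752799)⟩], [],
 ⟨⟨[(nat_lit 40), (nat_lit 80), (nat_lit 120)], [(nat_lit 0), (nat_lit 0), (nat_lit 2151)], [((nat_lit 0), (nat_lit 0), (nat_lit 0)), ((nat_lit 0), (nat_lit 0), (nat_lit 0)), ((nat_lit 1000), (nat_lit 815), (nat_lit 753))], ((nat_lit 80), (nat_lit 100), (nat_lit 63))⟩, (nat_lit 2417518), (nat_lit 265), (nat_lit 265), (nat_lit 0), (nat_lit 284062), [(nat_lit 2436192920), (nat_lit 4688000002), (nat_lit 7968000000)], [], [(nat_lit 25412693248), (nat_lit 26939872113), (nat_lit 35495224199),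 (nat_lit 36940109536), (nat_lit 24067149931), (nat_lit 25480405604), (nat_lit 32621400432), (nat_lit 33980470482)], (nat_lit 1271251), (nat_lit 1271251), (nat_lit 1271251), (nat_lit 1271251), (nat_lit 292188), (nat_lit 780000), [(nat_lit 490000), (nat_lit 1100000), (nat_lit 1785001)], [(nat_lit 4), (nat_lit 51), (nat_lit 238), (nat_lit 30), (nat_lit 7)]⟩,
 ⟨⟨[(nat_lit 80), (nat_lit 120), (nat_lit 160)], [(nat_lit 0), (nat_lit 0), (nat_lit 2132)], [((nat_lit 0), (nat_lit 0), (nat_lit 0)), ((nat_lit 0), (nat_lit 0), (nat_lit 0)), ((nat_lit 858), (nat_lit 1000), (nat_lit 713))], ((nat_lit 100), (nat_lit 91), (nat_lit 64))⟩, (nat_lit 2692954), (nat_lit 688), (nat_lit 688), (nat_lit 0), (nat_lit 956862), [(nat_lit 4688000000), (nat_lit 7968000000), (nat_lit 11872000000)], [], [(nat_lit 35641982410), (nat_lit 37478959646), (nat_lit 42258073236), (nat_lit 47469082168), (nat_lit 30315899758), (nat_lit 31859286214), (nat_lit 34030057896), (nat_lit 37118732656)],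 (nat_lit 1271251), (nat_lit 1271251), (nat_lit 1271251), (nat_lit 1271251), (nat_lit 0), (nat_lit 780000), [(nat_lit 1100000), (nat_lit 1785001), (nat_lit 1271251)], [(nat_lit 18), (nat_lit 59), (nat_lit 456), (nat_lit 225), (nat_lit 11)]⟩,
 ⟨⟨[(nat_lit 100), (nat_lit 140), (nat_lit 160)], [(nat_lit 0), (nat_lit 508), (nat_lit 1689)], [((nat_lit 0), (nat_lit 0), (nat_lit 0)), ((nat_lit 1000), (nat_lit 1000), (nat_lit 198)), ((nat_lit 811), (nat_lit 1000), (nat_lit 671))], ((nat_lit 100), (nat_lit 84), (nat_lit 63))⟩, (nat_lit 1855212), (nat_lit 300), (nat_lit 545), (nat_lit 53937500), (nat_lit 406866), [(nat_lit 5393750000), (nat_lit 8493646000), (nat_lit 10245536000)], [], [(nat_lit 38485142645), (nat_lit 43584092256), (nat_lit 32602755983), (nat_lit 37228908858), (nat_lit 26611908323), (nat_lit 31076251368), (nat_lit 30257399328), (nat_lit 25392058297)], (nat_lit 1271251), (nat_lit 1271251), (nat_lit 292188), (nat_lit 780000), (nat_lit 0), (nat_lit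 780000), [(nat_lit 1412501), (nat_lit 1271251), (nat_lit 1271251)], [(nat_lit 23), (nat_lit 62), (nat_lit 373), (nat_lit 150), (nat_lit 10)]⟩⟩) (.leaf ⟨(nat_lit 0), (nat_lit 0), (nat_lit 0), (nat_lit 1000), (nat_lit 0), (nat_lit 6361), (nat_lit 8469), (nat_lit 17544), (nat_lit 0), (nat_lit 1844), (nat_lit 0), [], Pd.none, Pd.none, (nat_lit 0), (nat_lit 1), (nat_lit 0), (nat_lit 0), (nat_lit 0), (nat_lit 0), [], [⟨(nat_lit 0), (nat_lit 100), (nat_lit 81), (nat_lit 93), (nat_lit 1420640730)⟩], [], [],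
 ⟨⟨[(nat_lit 40), (nat_lit 80), (nat_lit 120)], [(nat_lit 0), (nat_lit 0), (nat_lit 2151)], [((nat_lit 0), (nat_lit 0), (nat_lit 0)), ((nat_lit 0), (nat_lit 0), (nat_lit 0)), ((nat_lit 1000), (nat_lit 815), (nat_lit 753))], ((nat_lit 80), (nat_lit 100), (nat_lit 63))⟩, (nat_lit 3007310), (nat_lit 265), (nat_lit 265), (nat_lit 0), (nat_lit 284062), [(nat_lit 2666826565), (nat_lit 4688000002), (nat_lit 7968000000)], [], [(nat_lit 25412693248), (nat_lit 26939872113), (nat_lit 35495224199), (nat_lit 36940109536), (nat_lit 24067149931), (nat_lit 25480405604), (nat_lit 32621400432), (nat_lit 33980470482)], (nat_lit 1271251), (nat_lit 1271251), (nat_lit 1271251), (nat_lit 1271251), (nat_lit 292188), (nat_lit 780000), [(nat_lit 490000), (nat_lit 1100000), (nat_lit 1785001)], [(nat_lit 4), (nat_lit 51), (nat_lit 238), (nat_lit 30), (nat_lit 7)]⟩,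
 ⟨⟨[(nat_lit 80), (nat_lit 120), (nat_lit 160)], [(nat_lit 0), (nat_lit 0), (nat_lit 2132)], [((nat_lit 0), (nat_lit 0), (nat_lit 0)), ((nat_lit 0), (nat_lit 0), (nat_lit 0)), ((nat_lit 858), (nat_lit 1000), (nat_lit 713))], ((nat_lit 100), (nat_lit 91), (nat_lit 64))⟩, (nat_lit 3299943), (nat_lit 854), (nat_lit 854), (nat_lit 0), (nat_lit 1512552), [(nat_lit 4688000000), (nat_lit 7968000000), (nat_lit 11872000000)], [], [(nat_lit 39004135033), (nat_lit 39373773952), (nat_lit 40461026526), (nat_lit 40391335486), (nat_lit 37753892749), (nat_lit 37571470022), (nat_lit 38257805176), (nat_lit 38828022685)], (nat_lit 1271251), (nat_lit 1271251), (nat_lit 1271251), (nat_lit 1271251), (nat_lit 780000), (nat_lit 2581251), [(nat_lit 1100000), (nat_lit 1785001), (nat_lit 1271251)], [(nat_lit 18), (nat_lit 59), (nat_lit 538), (nat_lit 300), (nat_lit 13)]⟩,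
 ⟨⟨[(nat_lit 100), (nat_lit 140), (nat_lit 160)], [(nat_lit 0), (nat_lit 508), (nat_lit 1689)], [((nat_lit 0), (nat_lit 0), (nat_lit 0)), ((nat_lit 1000), (nat_lit 1000), (nat_lit 198)), ((nat_lit 811), (nat_lit 1000), (nat_lit 671))], ((nat_lit 100), (nat_lit 84), (nat_lit 63))⟩, (nat_lit 2308676), (nat_lit 300), (nat_lit 421), (nat_lit 62500000), (nat_lit 406866), [(nat_lit 6250000000), (nat_lit 9842000000), (nat_lit 11872000000)], [], [(nat_lit 29741918796), (nat_lit 35115588280), (nat_lit 23152785338), (nat_lit 27948563928), (nat_lit 41524719589), (nat_lit 47371064469), (nat_lit 48618584387), (nat_lit 38293615852)], (nat_lit 1271251), (nat_lit 1271251), (nat_lit 292188), (nat_lit 780000), (nat_lit 780000), (nat_lit 2581251), [(nat_lit 1412501), (nat_lit 1271251), (nat_lit 1271251)], [(nat_lit 23), (nat_lit 62), (nat_lit 428), (nat_lit 200), (nat_lit 11)]⟩⟩))))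
noncomputable def c11_15 : Tr Lf :=
 (.spl (nat_lit 6) (nat_lit 56) (.spl (nat_lit 5) (nat_lit 200) (.spl (nat_lit 1) (nat_lit 260) (.dle (nat_lit 0)) (.leaf ⟨(nat_lit 0), (nat_lit 1000), (nat_lit 0), (nat_lit 0), (nat_lit 45347), (nat_lit 5375), (nat_lit 5172), (nat_lit 0), (nat_lit 0), (nat_lit 0), (nat_lit 0), [], Pd.none, Pd.none, (nat_lit 0), (nat_lit 1), (nat_lit 0), (nat_lit 0), (nat_lit 3), (nat_lit 0), [], [], [], [],
 ⟨⟨[(nat_lit 40), (nat_lit 80), (nat_lit 120)], [(nat_lit 0), (nat_lit 0), (nat_lit 2151)], [((nat_lit 0), (nat_lit 0), (nat_lit 0)), ((nat_lit 0), (nat_lit 0), (nat_lit 0)), ((nat_lit 1000), (nat_lit 815), (nat_lit 753))], ((nat_lit 81), (nat_lit 100), (nat_lit 70))⟩, (nat_lit 2853956), (nat_lit 176), (nat_lit 176), (nat_lit 0), (nat_lit 60868), [(nat_lit 2314963580), (nat_lit 4688000016), (nat_lit 7968000000)], [], [(nat_lit 21286134144), (nat_lit 23261589207), (nat_lit 26749163266), (nat_lit 28445550454), (nat_lit 18214290144),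 (nat_lit 19979325707), (nat_lit 23518295391), (nat_lit 25039705798)], (nat_lit 1271251), (nat_lit 1271251), (nat_lit 780000), (nat_lit 2090001), (nat_lit 0), (nat_lit 780000), [(nat_lit 490000), (nat_lit 1100000), (nat_lit 1785001)], [(nat_lit 4), (nat_lit 51), (nat_lit 317), (nat_lit 100), (nat_lit 10)]⟩,
 ⟨⟨[(nat_lit 80), (nat_lit 120), (nat_lit 160)], [(nat_lit 0), (nat_lit 528), (nat_lit 2577)], [((nat_lit 0), (nat_lit 0), (nat_lit 0)), ((nat_lit 1000), (nat_lit 959), (nat_lit 206)), ((nat_lit 929), (nat_lit 1000), (nat_lit 742))], ((nat_lit 100), (nat_lit 94), (nat_lit 73))⟩, (nat_lit 3261529), (nat_lit 332), (nat_lit 332), (nat_lit 0), (nat_lit 114568), [(nat_lit 4688000000), (nat_lit 7968000000), (nat_lit 11872000000)], [], [(nat_lit 40098963994), (nat_lit 37342487116), (nat_lit 34718767020), (nat_lit 35436415816), (nat_lit 30467454648), (nat_lit 31090916097), (nat_lit 43050066145), (nat_lit 40752023710)], (nat_lit 1271251), (nat_lit 1271251),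 (nat_lit 780000), (nat_lit 2090001), (nat_lit 0), (nat_lit 1412501), [(nat_lit 1100000), (nat_lit 1785001), (nat_lit 1271251)], [(nat_lit 18), (nat_lit 59), (nat_lit 428), (nat_lit 200), (nat_lit 11)]⟩,
 Rw.none⟩)) (.leaf ⟨(nat_lit 43), (nat_lit 703), (nat_lit 0), (nat_lit 254), (nat_lit 12462), (nat_lit 4085), (nat_lit 6671), (nat_lit 3098), (nat_lit 0), (nat_lit 0), (nat_lit 172000), [((nat_lit 340), [((nat_lit 37), (nat_lit 5), (nat_lit 43))])], ⟨(nat_lit 6), false, false, false, (nat_lit 226), (nat_lit 3872), (nat_lit 4473), [(nat_lit 1407125), (nat_lit 1414492), (nat_lit 1450223), (nat_lit 1458043), (nat_lit 1679069), (nat_lit 1672609), (nat_lit 1722167), (nat_lit 1716161)]⟩, ⟨(nat_lit 3), false, false, false, (nat_lit 94), (nat_lit 3872), (nat_lit 4473), [(nat_lit 1073842), (nat_lit 1090218), (nat_lit 1181619), (nat_lit 1199128), (nat_lit 1277776), (nat_lit 1283782), (nat_lit 1385576), (nat_lit 1392716)]⟩, (nat_lit 4007553), (nat_lit 47158422),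 (nat_lit 15801396), (nat_lit 4040182), (nat_lit 5), (nat_lit 0), [], [], [⟨(nat_lit 1), (nat_lit 44), (nat_lit 96), (nat_lit 100), (nat_lit 74882031)⟩], [⟨(nat_lit 1), (nat_lit 87), (nat_lit 100), (nat_lit 50), (nat_lit 241641004)⟩],
 ⟨⟨[(nat_lit 40), (nat_lit 80), (nat_lit 120)], [(nat_lit 0), (nat_lit 0), (nat_lit 2151)], [((nat_lit 0), (nat_lit 0), (nat_lit 0)), ((nat_lit 0), (nat_lit 0), (nat_lit 0)), ((nat_lit 1000), (nat_lit 815), (nat_lit 753))], ((nat_lit 81), (nat_lit 100), (nat_lit 70))⟩, (nat_lit 2449749), (nat_lit 176), (nat_lit 176), (nat_lit 0), (nat_lit 60868), [(nat_lit 2007560798), (nat_lit 4275045234), (nat_lit 6673596800)], [(nat_lit 0), (nat_lit 0), (nat_lit 0)], [(nat_lit 20443689761), (nat_lit 22127991780), (nat_lit 25823141944), (nat_lit 27280883647), (nat_lit 19658783650), (nat_lit 21193749962), (nat_lit 24604262195), (nat_lit 25769865872)], (nat_lit 1271251), (nat_lit 1271251), (nat_lit 780000), (nat_lit 2090001), (nat_lit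 0), (nat_lit 780000), [(nat_lit 490000), (nat_lit 1100000), (nat_lit 1785001)], [(nat_lit 4), (nat_lit 51), (nat_lit 317), (nat_lit 100), (nat_lit 10)]⟩,
 ⟨⟨[(nat_lit 80), (nat_lit 120), (nat_lit 160)], [(nat_lit 0), (nat_lit 0), (nat_lit 2132)], [((nat_lit 0), (nat_lit 0), (nat_lit 0)), ((nat_lit 0), (nat_lit 0), (nat_lit 0)), ((nat_lit 858), (nat_lit 1000), (nat_lit 713))], ((nat_lit 100), (nat_lit 86), (nat_lit 71))⟩, (nat_lit 2964623), (nat_lit 206), (nat_lit 206), (nat_lit 0), (nat_lit 118043), [(nat_lit 4486416000), (nat_lit 7625376000), (nat_lit 11361504000)], [], [(nat_lit 23031728961), (nat_lit 23490355382), (nat_lit 37547592088), (nat_lit 31464283840), (nat_lit 31471873736), (nat_lit 32594207256), (nat_lit 32592484252), (nat_lit 33594706655)], (nat_lit 1271251), (nat_lit 1271251), (nat_lit 780000), (nat_lit 2090001), (nat_lit 1271251), (nat_lit 1271251), [(nat_lit 1100000), (nat_lit 1785001), (nat_lit 1271251)], [(nat_lit 18), (nat_lit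 59), (nat_lit 483), (nat_lit 250), (nat_lit 12)]⟩,
 ⟨⟨[(nat_lit 140), (nat_lit 180), (nat_lit 200)], [(nat_lit 0), (nat_lit 0), (nat_lit 2835)], [((nat_lit 0), (nat_lit 0), (nat_lit 0)), ((nat_lit 0), (nat_lit 0), (nat_lit 0)), ((nat_lit 363), (nat_lit 1000), (nat_lit 798))], ((nat_lit 0), (nat_lit 0), (nat_lit 0))⟩, (nat_lit 69884), (nat_lit 300), (nat_lit 638), (nat_lit 19837400), (nat_lit 354189), [(nat_lit 2499868000), (nat_lit 3570732000), (nat_lit 4165600000)], [], [(nat_lit 17755293920), (nat_lit 16789295044), (nat_lit 15188585718), (nat_lit 14270768943), (nat_lit 17552201664), (nat_lit 16528568190), (nat_lit 14938645000), (nat_lit 13847645979)], (nat_lit 780000), (nat_lit 1598751), (nat_lit 0), (nat_lit 780000), (nat_lit 1271251), (nat_lit 1271251), [(nat_lit 1977501), (nat_lit 1271251), (nat_lit 1271251)], [(nat_lit 32), (nat_lit 67), (nat_lit 428), (nat_lit 200), (nat_lit 9)]⟩⟩)) (.dle (nat_lit 0)))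
noncomputable def c11_16 : Tr Lf :=
 (.spl (nat_lit 1) (nat_lit 300) (.spl (nat_lit 6) (nat_lit 68) (.leaf ⟨(nat_lit 172), (nat_lit 828), (nat_lit 0), (nat_lit 0), (nat_lit 20473), (nat_lit 5806), (nat_lit 7371), (nat_lit 0), (nat_lit 0), (nat_lit 0), (nat_lit 688000), [((nat_lit 340), [((nat_lit 37), (nat_lit 5), (nat_lit 172))])], ⟨(nat_lit 7), false, false, false, (nat_lit 239), (nat_lit 3872), (nat_lit 4473), [(nat_lit 1450223), (nat_lit 1458043), (nat_lit 1471772), (nat_lit 1479819), (nat_lit 1722167), (nat_lit 1716161), (nat_lit 1743716), (nat_lit 1737937)]⟩, ⟨(nat_lit 3), false, false, false, (nat_lit 94), (nat_lit 3872), (nat_lit 4473), [(nat_lit 1073842), (nat_lit 1090218), (nat_lit 1181619), (nat_lit 1199128), (nat_lit 1277776), (nat_lit 1283782), (nat_lit 1385576), (nat_lit 1392716)]⟩, (nat_lit 4102203), (nat_lit 45911467), (nat_lit 17095535), (nat_lit 3992998), (nat_lit 3), (nat_lit 0), [], [⟨(nat_lit 0), (nat_lit 100), (nat_lit 77),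 (nat_lit 53), (nat_lit 24394021)⟩], [], [],
 ⟨⟨[(nat_lit 40), (nat_lit 100), (nat_lit 140)], [(nat_lit 0), (nat_lit 0), (nat_lit 3243)], [((nat_lit 0), (nat_lit 0), (nat_lit 0)), ((nat_lit 0), (nat_lit 0), (nat_lit 0)), ((nat_lit 1000), (nat_lit 870), (nat_lit 941))], ((nat_lit 82), (nat_lit 100), (nat_lit 77))⟩, (nat_lit 726908), (nat_lit 298), (nat_lit 298), (nat_lit 0), (nat_lit 148417), [(nat_lit 2562134740), (nat_lit 3273203866), (nat_lit 2307923512)], [(nat_lit 0), (nat_lit 0), (nat_lit 0)], [(nat_lit 22473255734), (nat_lit 23958546519), (nat_lit 27112543228), (nat_lit 29193118852), (nat_lit 19587334118), (nat_lit 21053620029), (nat_lit 24510013286), (nat_lit 24635701681)], (nat_lit 1271251), (nat_lit 1271251), (nat_lit 780000), (nat_lit 2090001), (nat_lit 0), (nat_lit 780000), [(nat_lit 490000), (nat_lit 1427501), (nat_lit 1271251)], [(nat_lit 5), (nat_lit 55), (nat_lit 317), (nat_lit 100), (nat_lit 9)]⟩,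
 ⟨⟨[(nat_lit 60), (nat_lit 120), (nat_lit 160)], [(nat_lit 0), (nat_lit 0), (nat_lit 3243)], [((nat_lit 0), (nat_lit 0), (nat_lit 0)), ((nat_lit 0), (nat_lit 0), (nat_lit 0)), ((nat_lit 878), (nat_lit 1000), (nat_lit 945))], ((nat_lit 100), (nat_lit 99), (nat_lit 82))⟩, (nat_lit 1994418), (nat_lit 384), (nat_lit 384), (nat_lit 0), (nat_lit 239474), [(nat_lit 2717496000), (nat_lit 6597504000), (nat_lit 9830016000)], [], [(nat_lit 29430361260), (nat_lit 26599437873), (nat_lit 27660564783), (nat_lit 28548542381), (nat_lit 20671325672), (nat_lit 21423951822), (nat_lit 32666324945), (nat_lit 29391214584)], (nat_lit 1271251), (nat_lit 1271251), (nat_lit 780000), (nat_lit 2090001), (nat_lit 0), (nat_lit 1412501), [(nat_lit 780000), (nat_lit 1762501), (nat_lit 1271251)], [(nat_lit 12), (nat_lit 59), (nat_lit 428), (nat_lit 200), (nat_lit 11)]⟩,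
 Rw.none⟩) (.dle (nat_lit 0))) (.spl (nat_lit 0) (nat_lit 330) (.spl (nat_lit 6) (nat_lit 76) (.leaf ⟨(nat_lit 60), (nat_lit 940), (nat_lit 0), (nat_lit 0), (nat_lit 10749), (nat_lit 11348), (nat_lit 7332), (nat_lit 0), (nat_lit 0), (nat_lit 0), (nat_lit 240000), [((nat_lit 330), [((nat_lit 37), (nat_lit 5), (nat_lit 60))])], ⟨(nat_lit 7), false, false, false, (nat_lit 248), (nat_lit 4183), (nat_lit 4473), [(nat_lit 1471853), (nat_lit 1475800), (nat_lit 1493417), (nat_lit 1497463), (nat_lit 1743770), (nat_lit 1740826), (nat_lit 1765332), (nat_lit 1762489)]⟩, ⟨(nat_lit 3), false, false, false, (nat_lit 93), (nat_lit 4183), (nat_lit 4473), [(nat_lit 1073842), (nat_lit 1082054), (nat_lit 1181666), (nat_lit 1190379), (nat_lit 1277776), (nat_lit 1280820), (nat_lit 1385603), (nat_lit 1389149)]⟩, (nat_lit 4143330), (nat_lit 45153594), (nat_lit 17959599), (nat_lit 3886807), (nat_lit 3), (nat_lit 0), [⟨(nat_lit 0), (nat_lit 88), (nat_lit 82), (nat_lit 100),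 (nat_lit 336494273)⟩], [⟨(nat_lit 0), (nat_lit 100), (nat_lit 79), (nat_lit 51), (nat_lit 273940688)⟩], [], [],
 ⟨⟨[(nat_lit 40), (nat_lit 100), (nat_lit 140)], [(nat_lit 0), (nat_lit 0), (nat_lit 3243)], [((nat_lit 0), (nat_lit 0), (nat_lit 0)), ((nat_lit 0), (nat_lit 0), (nat_lit 0)), ((nat_lit 1000), (nat_lit 870), (nat_lit 941))], ((nat_lit 83), (nat_lit 100), (nat_lit 81))⟩, (nat_lit 0), (nat_lit 300), (nat_lit 311), (nat_lit 51421858), (nat_lit 198158), [(nat_lit 2056874298), (nat_lit 5142185769), (nat_lit 7186175411)], [(nat_lit 0), (nat_lit 0), (nat_lit 0)], [(nat_lit 32884838560), (nat_lit 33786210467), (nat_lit 36817350024), (nat_lit 38480846820), (nat_lit 24663253331), (nat_lit 25459115874), (nat_lit 26807858351), (nat_lit 27751971453)], (nat_lit 1271251), (nat_lit 1271251), (nat_lit 780000), (nat_lit 2090001), (nat_lit 0), (nat_lit 780000), [(nat_lit 490000), (nat_lit 1427501), (nat_lit 1271251)], [(nat_lit 5), (nat_lit 55), (nat_lit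 317), (nat_lit 100), (nat_lit 9)]⟩,
 ⟨⟨[(nat_lit 60), (nat_lit 100), (nat_lit 140)], [(nat_lit 0), (nat_lit 609), (nat_lit 2558)], [((nat_lit 0), (nat_lit 0), (nat_lit 0)), ((nat_lit 1000), (nat_lit 905), (nat_lit 238)), ((nat_lit 1000), (nat_lit 904), (nat_lit 760))], ((nat_lit 93), (nat_lit 100), (nat_lit 84))⟩, (nat_lit 944782), (nat_lit 329), (nat_lit 329), (nat_lit 0), (nat_lit 262653), [(nat_lit 3085080000), (nat_lit 5875000000), (nat_lit 9251480000)], [], [(nat_lit 34570573240), (nat_lit 30662899522), (nat_lit 31315821906), (nat_lit 32521422948), (nat_lit 23907459807), (nat_lit 24927486190), (nat_lit 29555777791), (nat_lit 26875030454)], (nat_lit 1271251), (nat_lit 1271251), (nat_lit 780000), (nat_lit 2090001), (nat_lit 0), (nat_lit 1412501), [(nat_lit 780000), (nat_lit 1435001), (nat_lit 1271251)], [(nat_lit 11), (nat_lit 55), (nat_lit 345), (nat_lit 125), (nat_lit 10)]⟩,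
 Rw.none⟩) (.dle (nat_lit 0))) (.trZ (nat_lit 0) (nat_lit 1) (nat_lit 3) (nat_lit 92) (nat_lit 81) (nat_lit 100) (nat_lit 130) (.leaf ⟨(nat_lit 0), (nat_lit 1000), (nat_lit 0), (nat_lit 0), (nat_lit 1733), (nat_lit 11065), (nat_lit 8562), (nat_lit 0), (nat_lit 0), (nat_lit 0), (nat_lit 0), [], Pd.none, Pd.none, (nat_lit 0), (nat_lit 1), (nat_lit 0), (nat_lit 0), (nat_lit 3), (nat_lit 0), [], [⟨(nat_lit 0), (nat_lit 100), (nat_lit 75), (nat_lit 56), (nat_lit 270339794)⟩], [], [],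
 ⟨⟨[(nat_lit 40), (nat_lit 100), (nat_lit 140)], [(nat_lit 0), (nat_lit 592), (nat_lit 3606)], [((nat_lit 0), (nat_lit 0), (nat_lit 0)), ((nat_lit 1000), (nat_lit 908), (nat_lit 154)), ((nat_lit 1000), (nat_lit 825), (nat_lit 971))], ((nat_lit 79), (nat_lit 100), (nat_lit 86))⟩, (nat_lit 393203), (nat_lit 300), (nat_lit 328), (nat_lit 60172241), (nat_lit 247429), [(nat_lit 2343245577), (nat_lit 6250000186), (nat_lit 9842000000)], [], [(nat_lit 36304827934), (nat_lit 37177467178), (nat_lit 38543587077), (nat_lit 39585146192), (nat_lit 28258543330), (nat_lit 29029364200), (nat_lit 29109503274), (nat_lit 30037417491)], (nat_lit 1271251), (nat_lit 1271251), (nat_lit 857188), (nat_lit 2099376), (nat_lit 0), (nat_lit 780000), [(nat_lit 490000), (nat_lit 1427501), (nat_lit 1271251)], [(nat_lit 5), (nat_lit 55), (nat_lit 317), (nat_lit 100), (nat_lit 9)]⟩,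
 ⟨⟨[(nat_lit 60), (nat_lit 120), (nat_lit 160)], [(nat_lit 0), (nat_lit 913), (nat_lit 3885)], [((nat_lit 0), (nat_lit 0), (nat_lit 0)), ((nat_lit 1000), (nat_lit 905), (nat_lit 238)), ((nat_lit 886), (nat_lit 948), (nat_lit 1000))], ((nat_lit 96), (nat_lit 100), (nat_lit 92))⟩, (nat_lit 2526703), (nat_lit 422), (nat_lit 422), (nat_lit 0), (nat_lit 346458), [(nat_lit 3282000000), (nat_lit 7968000000), (nat_lit 11872000000)], [], [(nat_lit 27817349925), (nat_lit 29162452244), (nat_lit 31195104384), (nat_lit 32359042429), (nat_lit 21941109344), (nat_lit 22911204265), (nat_lit 33911365497), (nat_lit 30107065549)], (nat_lit 1271251), (nat_lit 1271251), (nat_lit 857188), (nat_lit 2099376), (nat_lit 0), (nat_lit 1412501), [(nat_lit 780000), (nat_lit 1762501), (nat_lit 1271251)], [(nat_lit 12), (nat_lit 59), (nat_lit 428), (nat_lit 200), (nat_lit 11)]⟩,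
 Rw.none⟩))))
noncomputable def c11_17 : Tr Lf :=
 (.spl (nat_lit 6) (nat_lit 68) (.spl (nat_lit 6) (nat_lit 56) (.leaf ⟨(nat_lit 0), (nat_lit 826), (nat_lit 0), (nat_lit 174), (nat_lit 9461), (nat_lit 6686), (nat_lit 6296), (nat_lit 2122), (nat_lit 0), (nat_lit 0), (nat_lit 0), [], Pd.none, Pd.none, (nat_lit 0), (nat_lit 1), (nat_lit 0), (nat_lit 0), (nat_lit 5), (nat_lit 0), [⟨(nat_lit 0), (nat_lit 97), (nat_lit 82), (nat_lit 100), (nat_lit 274684256)⟩], [⟨(nat_lit 0), (nat_lit 100), (nat_lit 77), (nat_lit 53), (nat_lit 275427085)⟩], [⟨(nat_lit 1), (nat_lit 59), (nat_lit 90), (nat_lit 100), (nat_lit 350793678)⟩], [],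
 ⟨⟨[(nat_lit 40), (nat_lit 80), (nat_lit 120)], [(nat_lit 0), (nat_lit 0), (nat_lit 2151)], [((nat_lit 0), (nat_lit 0), (nat_lit 0)), ((nat_lit 0), (nat_lit 0), (nat_lit 0)), ((nat_lit 1000), (nat_lit 815), (nat_lit 753))], ((nat_lit 81), (nat_lit 100), (nat_lit 70))⟩, (nat_lit 2363523), (nat_lit 242), (nat_lit 242), (nat_lit 0), (nat_lit 147491), [(nat_lit 2447635630), (nat_lit 4688000328), (nat_lit 7968000000)], [], [(nat_lit 23129076119), (nat_lit 25038051450), (nat_lit 28653544668), (nat_lit 30932035812), (nat_lit 19607960077), (nat_lit 21299332356), (nat_lit 24430134775), (nat_lit 25000637925)], (nat_lit 1271251), (nat_lit 1271251), (nat_lit 780000), (nat_lit 2090001), (nat_lit 0), (nat_lit 780000), [(nat_lit 490000), (nat_lit 1100000), (nat_lit 1785001)], [(nat_lit 4), (nat_lit 51), (nat_lit 317), (nat_lit 100), (nat_lit 10)]⟩,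
 ⟨⟨[(nat_lit 60), (nat_lit 100), (nat_lit 140)], [(nat_lit 0), (nat_lit 0), (nat_lit 2047)], [((nat_lit 0), (nat_lit 0), (nat_lit 0)), ((nat_lit 0), (nat_lit 0), (nat_lit 0)), ((nat_lit 1000), (nat_lit 993), (nat_lit 781))], ((nat_lit 98), (nat_lit 100), (nat_lit 74))⟩, (nat_lit 2635137), (nat_lit 215), (nat_lit 215), (nat_lit 0), (nat_lit 238284), [(nat_lit 3282000000), (nat_lit 6250000000), (nat_lit 9842000000)], [], [(nat_lit 21075548497), (nat_lit 22343654909), (nat_lit 25003880125), (nat_lit 25901413895), (nat_lit 31733232465), (nat_lit 32393204300), (nat_lit 33183047928), (nat_lit 33755242204)], (nat_lit 1271251), (nat_lit 1271251), (nat_lit 780000), (nat_lit 2090001), (nat_lit 1271251), (nat_lit 1271251), [(nat_lit 780000), (nat_lit 1435001), (nat_lit 1271251)], [(nat_lit 11), (nat_lit 55), (nat_lit 401), (nat_lit 175), (nat_lit 11)]⟩,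
 ⟨⟨[(nat_lit 140), (nat_lit 180), (nat_lit 200)], [(nat_lit 0), (nat_lit 0), (nat_lit 2835)], [((nat_lit 0), (nat_lit 0), (nat_lit 0)), ((nat_lit 0), (nat_lit 0), (nat_lit 0)), ((nat_lit 363), (nat_lit 1000), (nat_lit 798))], ((nat_lit 0), (nat_lit 0), (nat_lit 0))⟩, (nat_lit 47873), (nat_lit 300), (nat_lit 870), (nat_lit 13589401), (nat_lit 862175), [(nat_lit 1712508000), (nat_lit 2446092000), (nat_lit 2853600000)], [], [(nat_lit 12288573948), (nat_lit 11539166913), (nat_lit 10652570714), (nat_lit 9932311180), (nat_lit 12024029400), (nat_lit 11322742398), (nat_lit 10234159072), (nat_lit 9486898939)], (nat_lit 780000), (nat_lit 1598751), (nat_lit 0), (nat_lit 780000), (nat_lit 1271251), (nat_lit 1271251), [(nat_lit 1977501), (nat_lit 1271251), (nat_lit 1271251)], [(nat_lit 32), (nat_lit 67), (nat_lit 428), (nat_lit 200), (nat_lit 9)]⟩⟩) (.spl (nat_lit 0) (nat_lit 330) (.spl (nat_lit 6) (nat_lit 60) (.leaf ⟨(nat_lit 0), (nat_lit 750), (nat_lit 0),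 (nat_lit 250), (nat_lit 33563), (nat_lit 3858), (nat_lit 10693), (nat_lit 2748), (nat_lit 0), (nat_lit 0), (nat_lit 0), [], Pd.none, Pd.none, (nat_lit 0), (nat_lit 1), (nat_lit 0), (nat_lit 0), (nat_lit 5), (nat_lit 0), [⟨(nat_lit 0), (nat_lit 92), (nat_lit 81), (nat_lit 100), (nat_lit 482654376)⟩], [], [⟨(nat_lit 1), (nat_lit 59), (nat_lit 90), (nat_lit 100), (nat_lit 251384966)⟩], [⟨(nat_lit 1), (nat_lit 87), (nat_lit 100), (nat_lit 50), (nat_lit 203663007)⟩],
 ⟨⟨[(nat_lit 40), (nat_lit 80), (nat_lit 120)], [(nat_lit 0), (nat_lit 0), (nat_lit 2151)], [((nat_lit 0), (nat_lit 0), (nat_lit 0)), ((nat_lit 0), (nat_lit 0), (nat_lit 0)), ((nat_lit 1000), (nat_lit 815), (nat_lit 753))], ((nat_lit 81), (nat_lit 100), (nat_lit 72))⟩, (nat_lit 2659362), (nat_lit 172), (nat_lit 172), (nat_lit 0), (nat_lit 32084), [(nat_lit 2032000077), (nat_lit 4688000264), (nat_lit 7968000000)], [], [(nat_lit 21258585347), (nat_lit 22029849108), (nat_lit 26550542186), (nat_lit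 27183104575), (nat_lit 20621903154), (nat_lit 21366172808), (nat_lit 25520920020), (nat_lit 26088156100)], (nat_lit 1271251), (nat_lit 1271251), (nat_lit 780000), (nat_lit 2090001), (nat_lit 0), (nat_lit 780000), [(nat_lit 490000), (nat_lit 1100000), (nat_lit 1785001)], [(nat_lit 4), (nat_lit 51), (nat_lit 317), (nat_lit 100), (nat_lit 10)]⟩,
 ⟨⟨[(nat_lit 60), (nat_lit 100), (nat_lit 140)], [(nat_lit 0), (nat_lit 0), (nat_lit 2047)], [((nat_lit 0), (nat_lit 0), (nat_lit 0)), ((nat_lit 0), (nat_lit 0), (nat_lit 0)), ((nat_lit 1000), (nat_lit 993), (nat_lit 781))], ((nat_lit 99), (nat_lit 100), (nat_lit 77))⟩, (nat_lit 0), (nat_lit 159), (nat_lit 159), (nat_lit 0), (nat_lit 57211), [(nat_lit 3282000000), (nat_lit 6250000000), (nat_lit 9842000000)], [], [(nat_lit 22876076188), (nat_lit 24605799447), (nat_lit 26818172625), (nat_lit 27970573004), (nat_lit 37030949282), (nat_lit 37806716185), (nat_lit 37299653921), (nat_lit 38152989597)], (nat_lit 1271251),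 (nat_lit 1271251), (nat_lit 780000), (nat_lit 2090001), (nat_lit 1271251), (nat_lit 1271251), [(nat_lit 780000), (nat_lit 1435001), (nat_lit 1271251)], [(nat_lit 11), (nat_lit 55), (nat_lit 401), (nat_lit 175), (nat_lit 11)]⟩,
 ⟨⟨[(nat_lit 140), (nat_lit 180), (nat_lit 200)], [(nat_lit 0), (nat_lit 0), (nat_lit 2835)], [((nat_lit 0), (nat_lit 0), (nat_lit 0)), ((nat_lit 0), (nat_lit 0), (nat_lit 0)), ((nat_lit 363), (nat_lit 1000), (nat_lit 798))], ((nat_lit 0), (nat_lit 0), (nat_lit 0))⟩, (nat_lit 68783), (nat_lit 300), (nat_lit 532), (nat_lit 19525001), (nat_lit 174445), [(nat_lit 2460500000), (nat_lit 3514500000), (nat_lit 4100000000)], [], [(nat_lit 16806607584), (nat_lit 16109235627), (nat_lit 14554342328), (nat_lit 13895370831), (nat_lit 17161578056), (nat_lit 16294643726), (nat_lit 14831568849), (nat_lit 13962867784)], (nat_lit 780000), (nat_lit 1598751), (nat_lit 0), (nat_lit 780000), (nat_lit 1271251), (nat_lit 1271251), [(nat_lit 1977501),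 (nat_lit 1271251), (nat_lit 1271251)], [(nat_lit 32), (nat_lit 67), (nat_lit 428), (nat_lit 200), (nat_lit 9)]⟩⟩) (.dle (nat_lit 0))) (.leaf ⟨(nat_lit 0), (nat_lit 766), (nat_lit 0), (nat_lit 234), (nat_lit 14389), (nat_lit 5468), (nat_lit 8584), (nat_lit 2854), (nat_lit 0), (nat_lit 0), (nat_lit 0), [], Pd.none, Pd.none, (nat_lit 0), (nat_lit 1), (nat_lit 0), (nat_lit 0), (nat_lit 5), (nat_lit 0), [⟨(nat_lit 0), (nat_lit 90), (nat_lit 74), (nat_lit 100), (nat_lit 458177018)⟩], [⟨(nat_lit 0), (nat_lit 100), (nat_lit 75), (nat_lit 56), (nat_lit 220672023)⟩], [⟨(nat_lit 1), (nat_lit 59), (nat_lit 90), (nat_lit 100), (nat_lit 241010899)⟩], [⟨(nat_lit 1), (nat_lit 87), (nat_lit 100), (nat_lit 50), (nat_lit 81784856)⟩],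
 ⟨⟨[(nat_lit 40), (nat_lit 80), (nat_lit 120)], [(nat_lit 0), (nat_lit 395), (nat_lit 2466)], [((nat_lit 0), (nat_lit 0), (nat_lit 0)), ((nat_lit 1000), (nat_lit 908), (nat_lit 154)), ((nat_lit 1000), (nat_lit 773), (nat_lit 792))], ((nat_lit 77), (nat_lit 100), (nat_lit 76))⟩, (nat_lit 2801827), (nat_lit 178), (nat_lit 178), (nat_lit 0), (nat_lit 68670), [(nat_lit 2135640756), (nat_lit 4688000002), (nat_lit 7968000000)], [], [(nat_lit 21996152054), (nat_lit 22839165600), (nat_lit 27522937620), (nat_lit 28525216656), (nat_lit 19413169433), (nat_lit 20213064737), (nat_lit 23935913089), (nat_lit 24585218027)], (nat_lit 1271251), (nat_lit 1271251), (nat_lit 780000), (nat_lit 2090001), (nat_lit 0), (nat_lit 780000), [(nat_lit 490000), (nat_lit 1100000), (nat_lit 1785001)], [(nat_lit 4), (nat_lit 51), (nat_lit 317), (nat_lit 100), (nat_lit 10)]⟩,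
 ⟨⟨[(nat_lit 60), (nat_lit 120), (nat_lit 160)], [(nat_lit 0), (nat_lit 0), (nat_lit 3243)], [((nat_lit 0), (nat_lit 0), (nat_lit 0)), ((nat_lit 0), (nat_lit 0), (nat_lit 0)), ((nat_lit 878), (nat_lit 1000), (nat_lit 945))], ((nat_lit 100), (nat_lit 99), (nat_lit 82))⟩, (nat_lit 2023186), (nat_lit 204), (nat_lit 204), (nat_lit 0), (nat_lit 111211), [(nat_lit 3282000000), (nat_lit 7968000000), (nat_lit 11872000000)], [], [(nat_lit 23312590946), (nat_lit 24622625122), (nat_lit 26262681262), (nat_lit 27153141820), (nat_lit 34186275498), (nat_lit 34797848924), (nat_lit 35005068248), (nat_lit 35792490292)], (nat_lit 1271251), (nat_lit 1271251), (nat_lit 780000), (nat_lit 2090001), (nat_lit 1271251), (nat_lit 1271251), [(nat_lit 780000), (nat_lit 1762501), (nat_lit 1271251)], [(nat_lit 12), (nat_lit 59), (nat_lit 483), (nat_lit 250), (nat_lit 12)]⟩,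
 ⟨⟨[(nat_lit 140), (nat_lit 180), (nat_lit 200)], [(nat_lit 0), (nat_lit 0), (nat_lit 2835)], [((nat_lit 0), (nat_lit 0), (nat_lit 0)), ((nat_lit 0), (nat_lit 0), (nat_lit 0)), ((nat_lit 363), (nat_lit 1000), (nat_lit 798))], ((nat_lit 0), (nat_lit 0), (nat_lit 0))⟩, (nat_lit 64381), (nat_lit 300), (nat_lit 662), (nat_lit 18275400), (nat_lit 409931), [(nat_lit 2303028000), (nat_lit 3289572000), (nat_lit 3837600000)], [], [(nat_lit 16357306176), (nat_lit 15467397940), (nat_lit 13992760682), (nat_lit 13147239460), (nat_lit 16170114656), (nat_lit 15227111642), (nat_lit 13762523368), (nat_lit 12757459069)], (nat_lit 780000), (nat_lit 1598751), (nat_lit 0), (nat_lit 780000), (nat_lit 1271251), (nat_lit 1271251), [(nat_lit 1977501), (nat_lit 1271251), (nat_lit 1271251)], [(nat_lit 32), (nat_lit 67), (nat_lit 428), (nat_lit 200), (nat_lit 9)]⟩⟩))) (.dle (nat_lit 0)))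
noncomputable def c11_18 : Tr Lf :=
 (.trX (nat_lit 5) (nat_lit 1) (nat_lit 2) (nat_lit 87) (nat_lit 41) (nat_lit 100) (nat_lit 390) (.spl (nat_lit 6) (nat_lit 68) (.stt (nat_lit 2) (.spl (nat_lit 2) (nat_lit 180) (.trX (nat_lit 5) (nat_lit 1) (nat_lit 2) (nat_lit 87) (nat_lit 59) (nat_lit 100) (nat_lit 370) (.spl (nat_lit 0) (nat_lit 330) (.leaf ⟨(nat_lit 60), (nat_lit 785), (nat_lit 0), (nat_lit 155), (nat_lit 393), (nat_lit 11348), (nat_lit 6762), (nat_lit 1972), (nat_lit 0), (nat_lit 0), (nat_lit 240000), [((nat_lit 330), [((nat_lit 37), (nat_lit 5), (nat_lit 60))])], ⟨(nat_lit 7), true, false, false, (nat_lit 248), (nat_lit 4183), (nat_lit 4473), [(nat_lit 1471853), (nat_lit 1475800), (nat_lit 1493417), (nat_lit 1497463), (nat_lit 1743770), (nat_lit 1740826), (nat_lit 1765332), (nat_lit 1762489)]⟩, ⟨(nat_lit 3), false, false, false, (nat_lit 84), (nat_lit 4183), (nat_lit 4473), [(nat_lit 1073842), (nat_lit 1082054), (nat_lit 1138540), (nat_lit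 1147053), (nat_lit 1277776), (nat_lit 1280820), (nat_lit 1342476), (nat_lit 1345821)]⟩, (nat_lit 4032755), (nat_lit 45584558), (nat_lit 18049174), (nat_lit 3366268), (nat_lit 5), (nat_lit 0), [⟨(nat_lit 0), (nat_lit 88), (nat_lit 82), (nat_lit 100), (nat_lit 285501462)⟩], [⟨(nat_lit 0), (nat_lit 100), (nat_lit 81), (nat_lit 42), (nat_lit 500953523)⟩], [⟨(nat_lit 1), (nat_lit 77), (nat_lit 86), (nat_lit 100), (nat_lit 395834182)⟩], [],
 ⟨⟨[(nat_lit 40), (nat_lit 100), (nat_lit 140)], [(nat_lit 0), (nat_lit 0), (nat_lit 3243)], [((nat_lit 0), (nat_lit 0), (nat_lit 0)), ((nat_lit 0), (nat_lit 0), (nat_lit 0)), ((nat_lit 1000), (nat_lit 870), (nat_lit 941))], ((nat_lit 82), (nat_lit 100), (nat_lit 77))⟩, (nat_lit 0), (nat_lit 300), (nat_lit 310), (nat_lit 51421858), (nat_lit 197527), [(nat_lit 2056874289), (nat_lit 5142185725), (nat_lit 7186175425)], [(nat_lit 0), (nat_lit 0), (nat_lit 0)], [(nat_lit 32884838560), (nat_lit 33786210481), (nat_lit 36817350024),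 (nat_lit 38480846820), (nat_lit 24663253331), (nat_lit 25459115874), (nat_lit 26807858365), (nat_lit 27751971467)], (nat_lit 1271251), (nat_lit 1271251), (nat_lit 780000), (nat_lit 2090001), (nat_lit 0), (nat_lit 780000), [(nat_lit 490000), (nat_lit 1427501), (nat_lit 1271251)], [(nat_lit 5), (nat_lit 55), (nat_lit 317), (nat_lit 100), (nat_lit 9)]⟩,
 ⟨⟨[(nat_lit 60), (nat_lit 100), (nat_lit 140)], [(nat_lit 0), (nat_lit 609), (nat_lit 2558)], [((nat_lit 0), (nat_lit 0), (nat_lit 0)), ((nat_lit 1000), (nat_lit 905), (nat_lit 238)), ((nat_lit 1000), (nat_lit 904), (nat_lit 760))], ((nat_lit 91), (nat_lit 100), (nat_lit 79))⟩, (nat_lit 0), (nat_lit 91), (nat_lit 91), (nat_lit 0), (nat_lit 0), [(nat_lit 3085080000), (nat_lit 5875000000), (nat_lit 9251480000)], [], [(nat_lit 18111239119), (nat_lit 19697226664), (nat_lit 22764014339), (nat_lit 23869186578), (nat_lit 28204824184), (nat_lit 29128517658), (nat_lit 30080787578), (nat_lit 30894766949)], (nat_lit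 0), (nat_lit 0), (nat_lit 0), (nat_lit 0), (nat_lit 0), (nat_lit 0), [], [(nat_lit 11), (nat_lit 55), (nat_lit 401), (nat_lit 175), (nat_lit 11)]⟩,
 ⟨⟨[(nat_lit 140), (nat_lit 180), (nat_lit 200)], [(nat_lit 0), (nat_lit 0), (nat_lit 2835)], [((nat_lit 0), (nat_lit 0), (nat_lit 0)), ((nat_lit 0), (nat_lit 0), (nat_lit 0)), ((nat_lit 363), (nat_lit 1000), (nat_lit 798))], ((nat_lit 0), (nat_lit 0), (nat_lit 0))⟩, (nat_lit 42646), (nat_lit 300), (nat_lit 984), (nat_lit 12105500), (nat_lit 1130976), [(nat_lit 1525510000), (nat_lit 2178990000), (nat_lit 2542000000)], [], [(nat_lit 10748385932), (nat_lit 10322289379), (nat_lit 9190908709), (nat_lit 8748614247), (nat_lit 10546314441), (nat_lit 10111374921), (nat_lit 8883545429), (nat_lit 8432298523)], (nat_lit 780000), (nat_lit 1271251), (nat_lit 0), (nat_lit 780000), (nat_lit 1271251), (nat_lit 1271251), [(nat_lit 1977501), (nat_lit 1271251), (nat_lit 1271251)], [(nat_lit 32), (nat_lit 67), (nat_lit 401),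 (nat_lit 175), (nat_lit 9)]⟩⟩) (.trZ (nat_lit 0) (nat_lit 1) (nat_lit 3) (nat_lit 92) (nat_lit 81) (nat_lit 100) (nat_lit 130) (.leaf ⟨(nat_lit 0), (nat_lit 919), (nat_lit 0), (nat_lit 81), (nat_lit 12307), (nat_lit 5538), (nat_lit 7407), (nat_lit 1018), (nat_lit 0), (nat_lit 0), (nat_lit 0), [], Pd.none, Pd.none, (nat_lit 0), (nat_lit 1), (nat_lit 0), (nat_lit 0), (nat_lit 5), (nat_lit 0), [⟨(nat_lit 0), (nat_lit 86), (nat_lit 76), (nat_lit 100), (nat_lit 313944503)⟩], [⟨(nat_lit 0), (nat_lit 100), (nat_lit 72), (nat_lit 63), (nat_lit 107979770)⟩], [⟨(nat_lit 1), (nat_lit 77), (nat_lit 86), (nat_lit 100), (nat_lit 470372161)⟩], [],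
 ⟨⟨[(nat_lit 40), (nat_lit 80), (nat_lit 120)], [(nat_lit 0), (nat_lit 395), (nat_lit 2466)], [((nat_lit 0), (nat_lit 0), (nat_lit 0)), ((nat_lit 1000), (nat_lit 908), (nat_lit 154)), ((nat_lit 1000), (nat_lit 773), (nat_lit 792))], ((nat_lit 77), (nat_lit 100), (nat_lit 76))⟩, (nat_lit 2761696), (nat_lit 269), (nat_lit 269), (nat_lit 0), (nat_lit 244989), [(nat_lit 2130400433), (nat_lit 4688000077), (nat_lit 7968000000)], [], [(nat_lit 22090557369), (nat_lit 22927804402), (nat_lit 27653388920), (nat_lit 28663539596), (nat_lit 19454140806), (nat_lit 20199156246), (nat_lit 23859788615), (nat_lit 24513586950)], (nat_lit 1271251), (nat_lit 1271251), (nat_lit 857188), (nat_lit 2099376), (nat_lit 0), (nat_lit 780000), [(nat_lit 490000), (nat_lit 1100000), (nat_lit 1785001)], [(nat_lit 4), (nat_lit 51), (nat_lit 317), (nat_lit 100), (nat_lit 10)]⟩,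
 ⟨⟨[(nat_lit 60), (nat_lit 100), (nat_lit 140)], [(nat_lit 0), (nat_lit 609), (nat_lit 2558)], [((nat_lit 0), (nat_lit 0), (nat_lit 0)), ((nat_lit 1000), (nat_lit 905), (nat_lit 238)), ((nat_lit 1000), (nat_lit 904), (nat_lit 760))], ((nat_lit 91), (nat_lit 100), (nat_lit 79))⟩, (nat_lit 0), (nat_lit 88), (nat_lit 88), (nat_lit 0), (nat_lit 0), [(nat_lit 3282000000), (nat_lit 6250000000), (nat_lit 9842000000)], [], [(nat_lit 19068936344), (nat_lit 20759698011), (nat_lit 24032348122), (nat_lit 25225973463), (nat_lit 29811662716), (nat_lit 31048594982), (nat_lit 32200646496), (nat_lit 33076289189)], (nat_lit 0), (nat_lit 0), (nat_lit 0), (nat_lit 0), (nat_lit 0), (nat_lit 0), [], [(nat_lit 11), (nat_lit 55), (nat_lit 401), (nat_lit 175), (nat_lit 11)]⟩,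
 ⟨⟨[(nat_lit 140), (nat_lit 180), (nat_lit 200)], [(nat_lit 0), (nat_lit 0), (nat_lit 2835)], [((nat_lit 0), (nat_lit 0), (nat_lit 0)), ((nat_lit 0), (nat_lit 0), (nat_lit 0)), ((nat_lit 363), (nat_lit 1000), (nat_lit 798))], ((nat_lit 0), (nat_lit 0), (nat_lit 0))⟩, (nat_lit 22286), (nat_lit 300), (nat_lit 1139), (nat_lit 6326100), (nat_lit 1476005), [(nat_lit 797202000), (nat_lit 1138698000), (nat_lit 1328400000)], [], [(nat_lit 5636773612), (nat_lit 5411148763), (nat_lit 4848752391), (nat_lit 4621185674), (nat_lit 5528494824), (nat_lit 5283554544), (nat_lit 4671842379), (nat_lit 4439708012)], (nat_lit 780000), (nat_lit 1271251), (nat_lit 0), (nat_lit 780000), (nat_lit 1271251), (nat_lit 1271251), [(nat_lit 1977501), (nat_lit 1271251), (nat_lit 1271251)], [(nat_lit 32), (nat_lit 67), (nat_lit 401), (nat_lit 175), (nat_lit 9)]⟩⟩)))) (.trZ (nat_lit 0) (nat_lit 2) (nat_lit 4) (nat_lit 100) (nat_lit 80) (nat_lit 52) (nat_lit 20) (.leaf ⟨(nat_lit 0),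 (nat_lit 158), (nat_lit 0), (nat_lit 842), (nat_lit 0), (nat_lit 8701), (nat_lit 9783), (nat_lit 9008), (nat_lit 0), (nat_lit 0), (nat_lit 0), [], Pd.none, Pd.none, (nat_lit 0), (nat_lit 1), (nat_lit 0), (nat_lit 0), (nat_lit 5), (nat_lit 0), [⟨(nat_lit 0), (nat_lit 87), (nat_lit 79), (nat_lit 100), (nat_lit 292749847)⟩], [⟨(nat_lit 0), (nat_lit 100), (nat_lit 76), (nat_lit 65), (nat_lit 1264348397)⟩], [], [],
 ⟨⟨[(nat_lit 40), (nat_lit 100), (nat_lit 140)], [(nat_lit 0), (nat_lit 0), (nat_lit 3243)], [((nat_lit 0), (nat_lit 0), (nat_lit 0)), ((nat_lit 0), (nat_lit 0), (nat_lit 0)), ((nat_lit 1000), (nat_lit 870), (nat_lit 941))], ((nat_lit 82), (nat_lit 100), (nat_lit 77))⟩, (nat_lit 2390820), (nat_lit 223), (nat_lit 223), (nat_lit 0), (nat_lit 118518), [(nat_lit 3096360601), (nat_lit 6250000004), (nat_lit 9842000000)], [], [(nat_lit 24442102051), (nat_lit 26635501228), (nat_lit 30276794004), (nat_lit 32974354615), (nat_lit 20487714476), (nat_lit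 22518689404), (nat_lit 24703432678), (nat_lit 26425911303)], (nat_lit 1271251), (nat_lit 1271251), (nat_lit 780000), (nat_lit 2090001), (nat_lit 111251), (nat_lit 780000), [(nat_lit 490000), (nat_lit 1427501), (nat_lit 1271251)], [(nat_lit 5), (nat_lit 55), (nat_lit 317), (nat_lit 100), (nat_lit 9)]⟩,
 ⟨⟨[(nat_lit 60), (nat_lit 100), (nat_lit 140)], [(nat_lit 0), (nat_lit 609), (nat_lit 2558)], [((nat_lit 0), (nat_lit 0), (nat_lit 0)), ((nat_lit 1000), (nat_lit 905), (nat_lit 238)), ((nat_lit 1000), (nat_lit 904), (nat_lit 760))], ((nat_lit 91), (nat_lit 100), (nat_lit 79))⟩, (nat_lit 0), (nat_lit 100), (nat_lit 100), (nat_lit 0), (nat_lit 0), [(nat_lit 3282000000), (nat_lit 6250000000), (nat_lit 9842000000)], [], [(nat_lit 16722687063), (nat_lit 18780152131), (nat_lit 23151729678), (nat_lit 24989752022), (nat_lit 35246526949), (nat_lit 36565828843), (nat_lit 36231480279), (nat_lit 37109320735)], (nat_lit 0), (nat_lit 0), (nat_lit 0), (nat_lit 0),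 (nat_lit 0), (nat_lit 0), [], [(nat_lit 11), (nat_lit 55), (nat_lit 401), (nat_lit 175), (nat_lit 11)]⟩,
 ⟨⟨[(nat_lit 120), (nat_lit 160), (nat_lit 200)], [(nat_lit 0), (nat_lit 533), (nat_lit 3597)], [((nat_lit 0), (nat_lit 0), (nat_lit 0)), ((nat_lit 960), (nat_lit 1000), (nat_lit 200)), ((nat_lit 612), (nat_lit 1000), (nat_lit 732))], ((nat_lit 0), (nat_lit 0), (nat_lit 0))⟩, (nat_lit 1753184), (nat_lit 300), (nat_lit 540), (nat_lit 56636106), (nat_lit 343582), [(nat_lit 6709056000), (nat_lit 9996224000), (nat_lit 13808800000)], [], [(nat_lit 47486927212), (nat_lit 47121087837), (nat_lit 41830783411), (nat_lit 41240230712), (nat_lit 50205545251), (nat_lit 49405877147), (nat_lit 43778156964), (nat_lit 43015463881)], (nat_lit 1271251), (nat_lit 1271251), (nat_lit 111251), (nat_lit 780000), (nat_lit 1271251), (nat_lit 1271251), [(nat_lit 1695001), (nat_lit 1271251), (nat_lit 1271251)], [(nat_lit 29), (nat_lit 66), (nat_lit 428), (nat_lit 200), (nat_lit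 9)]⟩⟩))) (.leaf ⟨(nat_lit 206), (nat_lit 557), (nat_lit 0), (nat_lit 237), (nat_lit 4601), (nat_lit 5556), (nat_lit 4973), (nat_lit 3076), (nat_lit 0), (nat_lit 0), (nat_lit 824000), [((nat_lit 340), [((nat_lit 37), (nat_lit 5), (nat_lit 206))])], ⟨(nat_lit 7), false, false, false, (nat_lit 248), (nat_lit 3872), (nat_lit 4473), [(nat_lit 1471772), (nat_lit 1479819), (nat_lit 1493321), (nat_lit 1501595), (nat_lit 1743716), (nat_lit 1737937), (nat_lit 1765265), (nat_lit 1759713)]⟩, ⟨(nat_lit 3), false, false, false, (nat_lit 94), (nat_lit 3872), (nat_lit 4473), [(nat_lit 1073842), (nat_lit 1090218), (nat_lit 1181619), (nat_lit 1199128), (nat_lit 1277776), (nat_lit 1283782), (nat_lit 1385576), (nat_lit 1392716)]⟩, (nat_lit 4158718), (nat_lit 45083740), (nat_lit 17957873), (nat_lit 3958387), (nat_lit 5), (nat_lit 0), [⟨(nat_lit 0), (nat_lit 87), (nat_lit 79), (nat_lit 100), (nat_lit 378575429)⟩], [⟨(nat_lit 0), (nat_lit 100), (nat_lit 87), (nat_lit 25),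 (nat_lit 101875969)⟩], [⟨(nat_lit 1), (nat_lit 68), (nat_lit 84), (nat_lit 100), (nat_lit 379547)⟩], [⟨(nat_lit 1), (nat_lit 88), (nat_lit 100), (nat_lit 47), (nat_lit 205885574)⟩],
 ⟨⟨[(nat_lit 40), (nat_lit 100), (nat_lit 140)], [(nat_lit 0), (nat_lit 0), (nat_lit 3243)], [((nat_lit 0), (nat_lit 0), (nat_lit 0)), ((nat_lit 0), (nat_lit 0), (nat_lit 0)), ((nat_lit 1000), (nat_lit 870), (nat_lit 941))], ((nat_lit 82), (nat_lit 100), (nat_lit 77))⟩, (nat_lit 509323), (nat_lit 289), (nat_lit 289), (nat_lit 0), (nat_lit 122775), [(nat_lit 2714455433), (nat_lit 2707260132), (nat_lit 826551068)], [(nat_lit 0), (nat_lit 0), (nat_lit 0)], [(nat_lit 21291653777), (nat_lit 22998269835), (nat_lit 26674758728), (nat_lit 28699108352), (nat_lit 19196357093), (nat_lit 20625982129), (nat_lit 24074004261), (nat_lit 24068453652)], (nat_lit 1271251), (nat_lit 1271251), (nat_lit 780000), (nat_lit 2090001), (nat_lit 0), (nat_lit 780000), [(nat_lit 490000), (nat_lit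 1427501), (nat_lit 1271251)], [(nat_lit 5), (nat_lit 55), (nat_lit 317), (nat_lit 100), (nat_lit 9)]⟩,
 ⟨⟨[(nat_lit 60), (nat_lit 100), (nat_lit 140)], [(nat_lit 0), (nat_lit 609), (nat_lit 2558)], [((nat_lit 0), (nat_lit 0), (nat_lit 0)), ((nat_lit 1000), (nat_lit 905), (nat_lit 238)), ((nat_lit 1000), (nat_lit 904), (nat_lit 760))], ((nat_lit 91), (nat_lit 100), (nat_lit 79))⟩, (nat_lit 1943475), (nat_lit 266), (nat_lit 266), (nat_lit 0), (nat_lit 343522), [(nat_lit 2605908000), (nat_lit 4962500000), (nat_lit 7814548000)], [], [(nat_lit 18755676473), (nat_lit 19475583019), (nat_lit 20781921973), (nat_lit 21332680281), (nat_lit 24538647891), (nat_lit 25086469409), (nat_lit 25810175141), (nat_lit 26406572239)], (nat_lit 1271251), (nat_lit 1271251), (nat_lit 780000), (nat_lit 2090001), (nat_lit 1271251), (nat_lit 1271251), [(nat_lit 780000), (nat_lit 1435001), (nat_lit 1271251)], [(nat_lit 11), (nat_lit 55), (nat_lit 401), (nat_lit 175), (nat_lit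 11)]⟩,
 ⟨⟨[(nat_lit 140), (nat_lit 180), (nat_lit 200)], [(nat_lit 0), (nat_lit 0), (nat_lit 2835)], [((nat_lit 0), (nat_lit 0), (nat_lit 0)), ((nat_lit 0), (nat_lit 0), (nat_lit 0)), ((nat_lit 363), (nat_lit 1000), (nat_lit 798))], ((nat_lit 0), (nat_lit 0), (nat_lit 0))⟩, (nat_lit 65206), (nat_lit 300), (nat_lit 696), (nat_lit 18509705), (nat_lit 489468), [(nat_lit 2332554000), (nat_lit 3331746000), (nat_lit 3886800000)], [], [(nat_lit 16370119212), (nat_lit 15387162979), (nat_lit 13799538872), (nat_lit 13243093297), (nat_lit 16347158067), (nat_lit 15326802329), (nat_lit 13479519642), (nat_lit 12530916831)], (nat_lit 780000), (nat_lit 1598751), (nat_lit 0), (nat_lit 780000), (nat_lit 1271251), (nat_lit 1271251), [(nat_lit 1977501), (nat_lit 1271251), (nat_lit 1271251)], [(nat_lit 32), (nat_lit 67), (nat_lit 428), (nat_lit 200), (nat_lit 9)]⟩⟩)) (.spl (nat_lit 0) (nat_lit 330) (.spl (nat_lit 6) (nat_lit 76) (.leaf ⟨(nat_lit 0), (nat_lit 818), (nat_lit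 0), (nat_lit 182), (nat_lit 33477), (nat_lit 4059), (nat_lit 8181), (nat_lit 2025), (nat_lit 0), (nat_lit 0), (nat_lit 0), [], Pd.none, Pd.none, (nat_lit 0), (nat_lit 1), (nat_lit 0), (nat_lit 0), (nat_lit 5), (nat_lit 0), [⟨(nat_lit 0), (nat_lit 82), (nat_lit 78), (nat_lit 100), (nat_lit 554737952)⟩], [], [⟨(nat_lit 1), (nat_lit 68), (nat_lit 84), (nat_lit 100), (nat_lit 303164077)⟩], [⟨(nat_lit 1), (nat_lit 88), (nat_lit 100), (nat_lit 47), (nat_lit 155300009)⟩],
 ⟨⟨[(nat_lit 40), (nat_lit 100), (nat_lit 140)], [(nat_lit 0), (nat_lit 0), (nat_lit 3243)], [((nat_lit 0), (nat_lit 0), (nat_lit 0)), ((nat_lit 0), (nat_lit 0), (nat_lit 0)), ((nat_lit 1000), (nat_lit 870), (nat_lit 941))], ((nat_lit 83), (nat_lit 100), (nat_lit 81))⟩, (nat_lit 1973034), (nat_lit 206), (nat_lit 206), (nat_lit 0), (nat_lit 37970), [(nat_lit 2032000002), (nat_lit 6250000003), (nat_lit 9842000000)], [], [(nat_lit 24632216000), (nat_lit 25398045736), (nat_lit 28778143217),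 (nat_lit 29387658406), (nat_lit 22948012430), (nat_lit 23663819521), (nat_lit 27513848266), (nat_lit 28060019503)], (nat_lit 1271251), (nat_lit 1271251), (nat_lit 780000), (nat_lit 2090001), (nat_lit 0), (nat_lit 780000), [(nat_lit 490000), (nat_lit 1427501), (nat_lit 1271251)], [(nat_lit 5), (nat_lit 55), (nat_lit 317), (nat_lit 100), (nat_lit 9)]⟩,
 ⟨⟨[(nat_lit 60), (nat_lit 100), (nat_lit 140)], [(nat_lit 0), (nat_lit 609), (nat_lit 2558)], [((nat_lit 0), (nat_lit 0), (nat_lit 0)), ((nat_lit 1000), (nat_lit 905), (nat_lit 238)), ((nat_lit 1000), (nat_lit 904), (nat_lit 760))], ((nat_lit 93), (nat_lit 100), (nat_lit 84))⟩, (nat_lit 1375484), (nat_lit 155), (nat_lit 155), (nat_lit 0), (nat_lit 52110), [(nat_lit 3282000000), (nat_lit 6250000000), (nat_lit 9842000000)], [], [(nat_lit 22876607719), (nat_lit 24342609913), (nat_lit 26351633584), (nat_lit 27358429022), (nat_lit 33553648832), (nat_lit 34303069125), (nat_lit 34536091088), (nat_lit 35356260145)],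 (nat_lit 1271251), (nat_lit 1271251), (nat_lit 780000), (nat_lit 2090001), (nat_lit 1271251), (nat_lit 1271251), [(nat_lit 780000), (nat_lit 1435001), (nat_lit 1271251)], [(nat_lit 11), (nat_lit 55), (nat_lit 401), (nat_lit 175), (nat_lit 11)]⟩,
 ⟨⟨[(nat_lit 140), (nat_lit 180), (nat_lit 200)], [(nat_lit 0), (nat_lit 0), (nat_lit 2835)], [((nat_lit 0), (nat_lit 0), (nat_lit 0)), ((nat_lit 0), (nat_lit 0), (nat_lit 0)), ((nat_lit 363), (nat_lit 1000), (nat_lit 798))], ((nat_lit 0), (nat_lit 0), (nat_lit 0))⟩, (nat_lit 50074), (nat_lit 300), (nat_lit 553), (nat_lit 14214202), (nat_lit 220006), [(nat_lit 1791244000), (nat_lit 2558556000), (nat_lit 2984800000)], [], [(nat_lit 12296568661), (nat_lit 11761763785), (nat_lit 10650140285), (nat_lit 10142943736), (nat_lit 12430616931), (nat_lit 11802404250), (nat_lit 10737115690), (nat_lit 10094888771)], (nat_lit 780000), (nat_lit 1598751), (nat_lit 0), (nat_lit 780000), (nat_lit 1271251), (nat_lit 1271251),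 [(nat_lit 1977501), (nat_lit 1271251), (nat_lit 1271251)], [(nat_lit 32), (nat_lit 67), (nat_lit 428), (nat_lit 200), (nat_lit 9)]⟩⟩) (.dle (nat_lit 0))) (.trZ (nat_lit 0) (nat_lit 1) (nat_lit 3) (nat_lit 92) (nat_lit 81) (nat_lit 100) (nat_lit 130) (.leaf ⟨(nat_lit 0), (nat_lit 871), (nat_lit 0), (nat_lit 129), (nat_lit 24977), (nat_lit 7105), (nat_lit 7196), (nat_lit 1595), (nat_lit 0), (nat_lit 0), (nat_lit 0), [], Pd.none, Pd.none, (nat_lit 0), (nat_lit 1), (nat_lit 0), (nat_lit 0), (nat_lit 5), (nat_lit 0), [⟨(nat_lit 0), (nat_lit 81), (nat_lit 72), (nat_lit 100), (nat_lit 378748454)⟩], [⟨(nat_lit 0), (nat_lit 100), (nat_lit 75), (nat_lit 56), (nat_lit 241689202)⟩], [⟨(nat_lit 1), (nat_lit 68), (nat_lit 84), (nat_lit 100), (nat_lit 398130755)⟩], [],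
 ⟨⟨[(nat_lit 40), (nat_lit 100), (nat_lit 140)], [(nat_lit 0), (nat_lit 592), (nat_lit 3606)], [((nat_lit 0), (nat_lit 0), (nat_lit 0)), ((nat_lit 1000), (nat_lit 908), (nat_lit 154)), ((nat_lit 1000), (nat_lit 825), (nat_lit 971))], ((nat_lit 79), (nat_lit 100), (nat_lit 86))⟩, (nat_lit 2362155), (nat_lit 228), (nat_lit 228), (nat_lit 0), (nat_lit 95014), [(nat_lit 2654121356), (nat_lit 6250000005), (nat_lit 9842000000)], [], [(nat_lit 25356503777), (nat_lit 26182963167), (nat_lit 30573634450), (nat_lit 31759997410), (nat_lit 21300762923), (nat_lit 22176004530), (nat_lit 25087395182), (nat_lit 25742247223)], (nat_lit 1271251), (nat_lit 1271251), (nat_lit 857188), (nat_lit 2099376), (nat_lit 0), (nat_lit 780000), [(nat_lit 490000), (nat_lit 1427501), (nat_lit 1271251)], [(nat_lit 5), (nat_lit 55), (nat_lit 317), (nat_lit 100), (nat_lit 9)]⟩,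
 ⟨⟨[(nat_lit 60), (nat_lit 120), (nat_lit 160)], [(nat_lit 0), (nat_lit 913), (nat_lit 3885)], [((nat_lit 0), (nat_lit 0), (nat_lit 0)), ((nat_lit 1000), (nat_lit 905), (nat_lit 238)), ((nat_lit 886), (nat_lit 948), (nat_lit 1000))], ((nat_lit 96), (nat_lit 100), (nat_lit 92))⟩, (nat_lit 2200447), (nat_lit 205), (nat_lit 205), (nat_lit 0), (nat_lit 133245), [(nat_lit 3282000000), (nat_lit 7968000000), (nat_lit 11872000000)], [], [(nat_lit 23235422861), (nat_lit 24409515989), (nat_lit 26043947072), (nat_lit 26873258249), (nat_lit 31893417392), (nat_lit 32693146428), (nat_lit 33493670144), (nat_lit 34278379570)], (nat_lit 1271251), (nat_lit 1271251), (nat_lit 857188), (nat_lit 2099376), (nat_lit 1271251), (nat_lit 1271251), [(nat_lit 780000), (nat_lit 1762501), (nat_lit 1271251)], [(nat_lit 12), (nat_lit 59), (nat_lit 483), (nat_lit 250), (nat_lit 12)]⟩,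
 ⟨⟨[(nat_lit 140), (nat_lit 180), (nat_lit 200)], [(nat_lit 0), (nat_lit 0), (nat_lit 2835)], [((nat_lit 0), (nat_lit 0), (nat_lit 0)), ((nat_lit 0), (nat_lit 0), (nat_lit 0)), ((nat_lit 363), (nat_lit 1000), (nat_lit 798))], ((nat_lit 0), (nat_lit 0), (nat_lit 0))⟩, (nat_lit 35492), (nat_lit 300), (nat_lit 733), (nat_lit 10074901), (nat_lit 576405), [(nat_lit 1269618000), (nat_lit 1813482000), (nat_lit 2115600000)], [], [(nat_lit 8994507912), (nat_lit 8494388606), (nat_lit 7670466421), (nat_lit 7195236293), (nat_lit 8869398851), (nat_lit 8350067478), (nat_lit 7524456860), (nat_lit 6965905686)], (nat_lit 780000), (nat_lit 1598751), (nat_lit 0), (nat_lit 780000), (nat_lit 1271251), (nat_lit 1271251), [(nat_lit 1977501), (nat_lit 1271251), (nat_lit 1271251)], [(nat_lit 32), (nat_lit 67), (nat_lit 428), (nat_lit 200), (nat_lit 9)]⟩⟩)))))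
noncomputable def c11_19 : Tr Lf :=
 (.trX (nat_lit 5) (nat_lit 3) (nat_lit 4) (nat_lit 100) (nat_lit 80) (nat_lit 100) (nat_lit 340) (.spl (nat_lit 1) (nat_lit 280) (.spl (nat_lit 6) (nat_lit 56) (.leaf ⟨(nat_lit 0), (nat_lit 927), (nat_lit 0), (nat_lit 73), (nat_lit 22832), (nat_lit 5032), (nat_lit 8651), (nat_lit 628), (nat_lit 0), (nat_lit 0), (nat_lit 0), [], Pd.none, Pd.none, (nat_lit 0), (nat_lit 1), (nat_lit 0), (nat_lit 0), (nat_lit 3), (nat_lit 0), [], [], [], [⟨(nat_lit 1), (nat_lit 100), (nat_lit 71), (nat_lit 71), (nat_lit 76796963)⟩],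
 ⟨⟨[(nat_lit 40), (nat_lit 80), (nat_lit 120)], [(nat_lit 0), (nat_lit 0), (nat_lit 2151)], [((nat_lit 0), (nat_lit 0), (nat_lit 0)), ((nat_lit 0), (nat_lit 0), (nat_lit 0)), ((nat_lit 1000), (nat_lit 815), (nat_lit 753))], ((nat_lit 81), (nat_lit 100), (nat_lit 70))⟩, (nat_lit 1908690), (nat_lit 226), (nat_lit 226), (nat_lit 0), (nat_lit 60868), [(nat_lit 2112228816), (nat_lit 4688000073), (nat_lit 7968000000)], [], [(nat_lit 29648666747), (nat_lit 30853231063), (nat_lit 35783964875), (nat_lit 36657229595), (nat_lit 27157950587), (nat_lit 28239429785), (nat_lit 32682299771), (nat_lit 33475912779)], (nat_lit 1271251), (nat_lit 1271251), (nat_lit 1271251), (nat_lit 1271251), (nat_lit 0), (nat_lit 780000), [(nat_lit 490000), (nat_lit 1100000), (nat_lit 1785001)], [(nat_lit 4), (nat_lit 51), (nat_lit 238), (nat_lit 30), (nat_lit 7)]⟩,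
 ⟨⟨[(nat_lit 80), (nat_lit 120), (nat_lit 160)], [(nat_lit 0), (nat_lit 0), (nat_lit 2132)], [((nat_lit 0), (nat_lit 0), (nat_lit 0)), ((nat_lit 0), (nat_lit 0), (nat_lit 0)), ((nat_lit 858), (nat_lit 1000), (nat_lit 713))], ((nat_lit 100), (nat_lit 86), (nat_lit 71))⟩, (nat_lit 2604418), (nat_lit 330), (nat_lit 330), (nat_lit 0), (nat_lit 118043), [(nat_lit 4688000000), (nat_lit 7968000000), (nat_lit 11872000000)], [], [(nat_lit 34101504954), (nat_lit 35709759270), (nat_lit 41634197340), (nat_lit 42976376928), (nat_lit 31127759693), (nat_lit 31810928354), (nat_lit 36629328829), (nat_lit 37842504472)], (nat_lit 1271251), (nat_lit 1271251), (nat_lit 1271251), (nat_lit 1271251), (nat_lit 0), (nat_lit 2401251), [(nat_lit 1100000), (nat_lit 1785001), (nat_lit 1271251)], [(nat_lit 18), (nat_lit 59), (nat_lit 538), (nat_lit 300), (nat_lit 13)]⟩,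
 ⟨⟨[(nat_lit 140), (nat_lit 180), (nat_lit 200)], [(nat_lit 0), (nat_lit 0), (nat_lit 2835)], [((nat_lit 0), (nat_lit 0), (nat_lit 0)), ((nat_lit 0), (nat_lit 0), (nat_lit 0)), ((nat_lit 363), (nat_lit 1000), (nat_lit 798))], ((nat_lit 0), (nat_lit 0), (nat_lit 0))⟩, (nat_lit 20085), (nat_lit 300), (nat_lit 791), (nat_lit 5701300), (nat_lit 354189), [(nat_lit 718466000), (nat_lit 1026234000), (nat_lit 1197200000)], [], [(nat_lit 6485766717), (nat_lit 6288186013), (nat_lit 5986997915), (nat_lit 5799893979), (nat_lit 5708285032), (nat_lit 5504773810), (nat_lit 5253186897), (nat_lit 5058991857)], (nat_lit 780000), (nat_lit 1598751), (nat_lit 0), (nat_lit 780000), (nat_lit 0), (nat_lit 2401251), [(nat_lit 1977501), (nat_lit 1271251), (nat_lit 1271251)], [(nat_lit 32), (nat_lit 67), (nat_lit 401), (nat_lit 175), (nat_lit 9)]⟩⟩) (.dle (nat_lit 0))) (.spl (nat_lit 1) (nat_lit 300) (.spl (nat_lit 6) (nat_lit 68) (.leaf ⟨(nat_lit 54), (nat_lit 890), (nat_lit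 0), (nat_lit 56), (nat_lit 10714), (nat_lit 5576), (nat_lit 7897), (nat_lit 587), (nat_lit 0), (nat_lit 0), (nat_lit 216000), [((nat_lit 340), [((nat_lit 37), (nat_lit 5), (nat_lit 54))])], ⟨(nat_lit 7), false, true, true, (nat_lit 332), (nat_lit 3872), (nat_lit 4473), [(nat_lit 1722167), (nat_lit 1716161), (nat_lit 1743716), (nat_lit 1737937), (nat_lit 1926124), (nat_lit 1909748), (nat_lit 1947674), (nat_lit 1931525)]⟩, ⟨(nat_lit 3), false, false, false, (nat_lit 94), (nat_lit 3872), (nat_lit 4473), [(nat_lit 1073842), (nat_lit 1090218), (nat_lit 1181619), (nat_lit 1199128), (nat_lit 1277776), (nat_lit 1283782), (nat_lit 1385576), (nat_lit 1392716)]⟩, (nat_lit 4463850), (nat_lit 37411746), (nat_lit 26053433), (nat_lit 3534821), (nat_lit 3), (nat_lit 0), [], [], [], [⟨(nat_lit 1), (nat_lit 100), (nat_lit 71), (nat_lit 71), (nat_lit 90891043)⟩],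
 ⟨⟨[(nat_lit 40), (nat_lit 100), (nat_lit 140)], [(nat_lit 0), (nat_lit 0), (nat_lit 3243)], [((nat_lit 0), (nat_lit 0), (nat_lit 0)), ((nat_lit 0), (nat_lit 0), (nat_lit 0)), ((nat_lit 1000), (nat_lit 870), (nat_lit 941))], ((nat_lit 82), (nat_lit 100), (nat_lit 77))⟩, (nat_lit 1308010), (nat_lit 297), (nat_lit 297), (nat_lit 0), (nat_lit 148417), [(nat_lit 2303371606), (nat_lit 5247803209), (nat_lit 7445760800)], [(nat_lit 0), (nat_lit 0), (nat_lit 0)], [(nat_lit 31131607003), (nat_lit 32220853099), (nat_lit 37220569362), (nat_lit 38249288016), (nat_lit 27968959635), (nat_lit 28947931913), (nat_lit 33636476002), (nat_lit 34470136018)], (nat_lit 1271251), (nat_lit 1271251), (nat_lit 1271251), (nat_lit 1271251), (nat_lit 0), (nat_lit 780000), [(nat_lit 490000), (nat_lit 1427501), (nat_lit 1271251)], [(nat_lit 5), (nat_lit 55), (nat_lit 238), (nat_lit 30), (nat_lit 6)]⟩,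
 ⟨⟨[(nat_lit 60), (nat_lit 120), (nat_lit 160)], [(nat_lit 0), (nat_lit 0), (nat_lit 3243)], [((nat_lit 0), (nat_lit 0), (nat_lit 0)), ((nat_lit 0), (nat_lit 0), (nat_lit 0)), ((nat_lit 878), (nat_lit 1000), (nat_lit 945))], ((nat_lit 100), (nat_lit 99), (nat_lit 82))⟩, (nat_lit 1588370), (nat_lit 368), (nat_lit 368), (nat_lit 0), (nat_lit 239474), [(nat_lit 3104772000), (nat_lit 7537728000), (nat_lit 11230912000)], [], [(nat_lit 34089785448), (nat_lit 34840318754), (nat_lit 40427328934), (nat_lit 41056988669), (nat_lit 30738457645), (nat_lit 31090436622), (nat_lit 35447860389), (nat_lit 36017864078)], (nat_lit 1271251), (nat_lit 1271251), (nat_lit 1271251), (nat_lit 1271251), (nat_lit 0), (nat_lit 2401251), [(nat_lit 780000), (nat_lit 1762501), (nat_lit 1271251)], [(nat_lit 12), (nat_lit 59), (nat_lit 538), (nat_lit 300), (nat_lit 13)]⟩,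
 ⟨⟨[(nat_lit 140), (nat_lit 180), (nat_lit 200)], [(nat_lit 0), (nat_lit 0), (nat_lit 2835)], [((nat_lit 0), (nat_lit 0), (nat_lit 0)), ((nat_lit 0), (nat_lit 0), (nat_lit 0)), ((nat_lit 363), (nat_lit 1000), (nat_lit 798))], ((nat_lit 0), (nat_lit 0), (nat_lit 0))⟩, (nat_lit 15407), (nat_lit 300), (nat_lit 1017), (nat_lit 4373606), (nat_lit 868241), [(nat_lit 551152000), (nat_lit 787248000), (nat_lit 918400000)], [], [(nat_lit 4952171540), (nat_lit 4735517687), (nat_lit 4507255160), (nat_lit 4299238186), (nat_lit 4145687843), (nat_lit 3931469960), (nat_lit 3736255465), (nat_lit 4083921907)], (nat_lit 780000), (nat_lit 1598751), (nat_lit 0), (nat_lit 780000), (nat_lit 0), (nat_lit 2401251), [(nat_lit 1977501), (nat_lit 1271251), (nat_lit 1271251)], [(nat_lit 32), (nat_lit 67), (nat_lit 401), (nat_lit 175), (nat_lit 9)]⟩⟩) (.dle (nat_lit 0))) (.leaf ⟨(nat_lit 60), (nat_lit 940), (nat_lit 0), (nat_lit 0), (nat_lit 6233), (nat_lit 8439), (nat_lit 7130),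 (nat_lit 0), (nat_lit 0), (nat_lit 0), (nat_lit 240000), [((nat_lit 340), [((nat_lit 37), (nat_lit 5), (nat_lit 60))])], ⟨(nat_lit 7), false, true, true, (nat_lit 340), (nat_lit 3872), (nat_lit 4473), [(nat_lit 1743716), (nat_lit 1737937), (nat_lit 1765265), (nat_lit 1759713), (nat_lit 1947674), (nat_lit 1931525), (nat_lit 1969223), (nat_lit 1953301)]⟩, ⟨(nat_lit 3), false, false, false, (nat_lit 94), (nat_lit 3872), (nat_lit 4473), [(nat_lit 1073842), (nat_lit 1090218), (nat_lit 1181619), (nat_lit 1199128), (nat_lit 1277776), (nat_lit 1283782), (nat_lit 1385576), (nat_lit 1392716)]⟩, (nat_lit 4473736), (nat_lit 36673681), (nat_lit 26840497), (nat_lit 3485822), (nat_lit 3), (nat_lit 0), [], [], [], [⟨(nat_lit 1), (nat_lit 100), (nat_lit 71), (nat_lit 71), (nat_lit 224131053)⟩],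
 ⟨⟨[(nat_lit 40), (nat_lit 100), (nat_lit 140)], [(nat_lit 0), (nat_lit 0), (nat_lit 3243)], [((nat_lit 0), (nat_lit 0), (nat_lit 0)), ((nat_lit 0), (nat_lit 0), (nat_lit 0)), ((nat_lit 1000), (nat_lit 870), (nat_lit 941))], ((nat_lit 85), (nat_lit 100), (nat_lit 88))⟩, (nat_lit 0), (nat_lit 300), (nat_lit 327), (nat_lit 51421860), (nat_lit 250300), [(nat_lit 2056874297), (nat_lit 5142185943), (nat_lit 7186175353)], [(nat_lit 0), (nat_lit 0), (nat_lit 0)], [(nat_lit 36644826130), (nat_lit 37728958221), (nat_lit 44883974104), (nat_lit 46629477974), (nat_lit 30784221538), (nat_lit 31749285598), (nat_lit 35857170215), (nat_lit 37335487719)], (nat_lit 1271251), (nat_lit 1271251), (nat_lit 1271251), (nat_lit 1271251), (nat_lit 0), (nat_lit 780000), [(nat_lit 490000), (nat_lit 1427501), (nat_lit 1271251)], [(nat_lit 5), (nat_lit 55), (nat_lit 238), (nat_lit 30), (nat_lit 6)]⟩,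
 ⟨⟨[(nat_lit 60), (nat_lit 120), (nat_lit 160)], [(nat_lit 0), (nat_lit 913), (nat_lit 3885)], [((nat_lit 0), (nat_lit 0), (nat_lit 0)), ((nat_lit 1000), (nat_lit 905), (nat_lit 238)), ((nat_lit 886), (nat_lit 948), (nat_lit 1000))], ((nat_lit 96), (nat_lit 100), (nat_lit 92))⟩, (nat_lit 1527682), (nat_lit 401), (nat_lit 401), (nat_lit 0), (nat_lit 346563), [(nat_lit 3085080000), (nat_lit 7489920000), (nat_lit 11159680000)], [], [(nat_lit 33921499663), (nat_lit 34409492638), (nat_lit 39140567990), (nat_lit 39945304880), (nat_lit 30239895171), (nat_lit 30524944620), (nat_lit 34902227470), (nat_lit 35459047630)], (nat_lit 1271251), (nat_lit 1271251), (nat_lit 1271251), (nat_lit 1271251), (nat_lit 0), (nat_lit 2401251), [(nat_lit 780000), (nat_lit 1762501), (nat_lit 1271251)], [(nat_lit 12), (nat_lit 59), (nat_lit 538), (nat_lit 300), (nat_lit 13)]⟩,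
 Rw.none⟩))))
noncomputable def c11_20 : Tr Lf :=
 (.trZ (nat_lit 0) (nat_lit 2) (nat_lit 4) (nat_lit 100) (nat_lit 80) (nat_lit 68) (nat_lit 50) (.spl (nat_lit 5) (nat_lit 120) (.spl (nat_lit 1) (nat_lit 280) (.ord (.spl (nat_lit 6) (nat_lit 52) (.leaf ⟨(nat_lit 0), (nat_lit 0), (nat_lit 0), (nat_lit 1000), (nat_lit 215837), (nat_lit 7171), (nat_lit 11324), (nat_lit 25589), (nat_lit 0), (nat_lit 8778), (nat_lit 0), [], Pd.none, Pd.none, (nat_lit 0), (nat_lit 1), (nat_lit 0), (nat_lit 0), (nat_lit 0), (nat_lit 0), [], [⟨(nat_lit 0), (nat_lit 100), (nat_lit 78), (nat_lit 85), (nat_lit 2559852830)⟩], [⟨(nat_lit 0), (nat_lit 100), (nat_lit 99), (nat_lit 55), (nat_lit 1155959299)⟩], [],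
 ⟨⟨[(nat_lit 40), (nat_lit 80), (nat_lit 120)], [(nat_lit 0), (nat_lit 0), (nat_lit 2151)], [((nat_lit 0), (nat_lit 0), (nat_lit 0)), ((nat_lit 0), (nat_lit 0), (nat_lit 0)), ((nat_lit 1000), (nat_lit 815), (nat_lit 753))], ((nat_lit 80), (nat_lit 100), (nat_lit 68))⟩, (nat_lit 2536029), (nat_lit 174), (nat_lit 174), (nat_lit 0), (nat_lit 48694), [(nat_lit 2674494631), (nat_lit 4688000007), (nat_lit 7968000000)], [], [(nat_lit 19931008445), (nat_lit 21847904750), (nat_lit 37223633384), (nat_lit 38770831340), (nat_lit 18445489445), (nat_lit 20213224853), (nat_lit 36365328857), (nat_lit 35288249097)], (nat_lit 1271251), (nat_lit 1271251), (nat_lit 780000), (nat_lit 3072501), (nat_lit 292188), (nat_lit 780000), [(nat_lit 490000), (nat_lit 1100000), (nat_lit 1785001)], [(nat_lit 4), (nat_lit 51), (nat_lit 373), (nat_lit 150), (nat_lit 12)]⟩,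
 ⟨⟨[(nat_lit 80), (nat_lit 120), (nat_lit 160)], [(nat_lit 0), (nat_lit 0), (nat_lit 2132)], [((nat_lit 0), (nat_lit 0), (nat_lit 0)), ((nat_lit 0), (nat_lit 0), (nat_lit 0)), ((nat_lit 858), (nat_lit 1000), (nat_lit 713))], ((nat_lit 100), (nat_lit 88), (nat_lit 69))⟩, (nat_lit 3779610), (nat_lit 276), (nat_lit 276), (nat_lit 0), (nat_lit 76211), [(nat_lit 4688000000), (nat_lit 7968000000), (nat_lit 11872000000)], [], [(nat_lit 38027919120), (nat_lit 29276949032), (nat_lit 62148343952), (nat_lit 52088713848), (nat_lit 29581393436), (nat_lit 21141170126), (nat_lit 70669778712), (nat_lit 60978042720)], (nat_lit 1271251), (nat_lit 1271251), (nat_lit 780000), (nat_lit 3072501), (nat_lit 0), (nat_lit 780000), [(nat_lit 1100000), (nat_lit 1785001), (nat_lit 1271251)], [(nat_lit 18), (nat_lit 59), (nat_lit 428), (nat_lit 200), (nat_lit 11)]⟩,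
 ⟨⟨[(nat_lit 100), (nat_lit 140), (nat_lit 160)], [(nat_lit 0), (nat_lit 508), (nat_lit 1689)], [((nat_lit 0), (nat_lit 0), (nat_lit 0)), ((nat_lit 1000), (nat_lit 1000), (nat_lit 198)), ((nat_lit 811), (nat_lit 1000), (nat_lit 671))], ((nat_lit 100), (nat_lit 81), (nat_lit 68))⟩, (nat_lit 562959), (nat_lit 300), (nat_lit 354), (nat_lit 68257265), (nat_lit 34499), [(nat_lit 6250000000), (nat_lit 9842000000), (nat_lit 11872000000)], [], [(nat_lit 47104010226), (nat_lit 57228006605), (nat_lit 35717778116), (nat_lit 44490444156), (nat_lit 24418031126), (nat_lit 31481904339), (nat_lit 14255805447), (nat_lit 20740972999)], (nat_lit 1271251), (nat_lit 1271251), (nat_lit 292188), (nat_lit 780000), (nat_lit 0), (nat_lit 780000), [(nat_lit 1412501), (nat_lit 1271251), (nat_lit 1271251)], [(nat_lit 23), (nat_lit 62), (nat_lit 373), (nat_lit 150), (nat_lit 10)]⟩⟩) (.dle (nat_lit 0)))) (.trZ (nat_lit 1) (nat_lit 2) (nat_lit 5) (nat_lit 100) (nat_lit 92) (nat_lit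 49) (nat_lit 20) (.leaf ⟨(nat_lit 0), (nat_lit 716), (nat_lit 0), (nat_lit 284), (nat_lit 20970), (nat_lit 9108), (nat_lit 8048), (nat_lit 5433), (nat_lit 0), (nat_lit 8039), (nat_lit 0), [], Pd.none, Pd.none, (nat_lit 0), (nat_lit 1), (nat_lit 0), (nat_lit 0), (nat_lit 5), (nat_lit 0), [], [⟨(nat_lit 0), (nat_lit 100), (nat_lit 81), (nat_lit 93), (nat_lit 676064996)⟩], [⟨(nat_lit 0), (nat_lit 100), (nat_lit 92), (nat_lit 82), (nat_lit 159353063)⟩], [],
 ⟨⟨[(nat_lit 40), (nat_lit 100), (nat_lit 140)], [(nat_lit 0), (nat_lit 0), (nat_lit 3243)], [((nat_lit 0), (nat_lit 0), (nat_lit 0)), ((nat_lit 0), (nat_lit 0), (nat_lit 0)), ((nat_lit 1000), (nat_lit 870), (nat_lit 941))], ((nat_lit 85), (nat_lit 100), (nat_lit 88))⟩, (nat_lit 2318675), (nat_lit 291), (nat_lit 291), (nat_lit 0), (nat_lit 245643), [(nat_lit 2032000020), (nat_lit 6250000005), (nat_lit 9842000000)], [], [(nat_lit 22286921985), (nat_lit 24555980103), (nat_lit 41356878558), (nat_lit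 43148742616), (nat_lit 19791690754), (nat_lit 21887685051), (nat_lit 38300257366), (nat_lit 38415615982)], (nat_lit 1271251), (nat_lit 1271251), (nat_lit 780000), (nat_lit 3072501), (nat_lit 292188), (nat_lit 780000), [(nat_lit 490000), (nat_lit 1427501), (nat_lit 1271251)], [(nat_lit 5), (nat_lit 55), (nat_lit 373), (nat_lit 150), (nat_lit 10)]⟩,
 ⟨⟨[(nat_lit 60), (nat_lit 120), (nat_lit 160)], [(nat_lit 0), (nat_lit 0), (nat_lit 3243)], [((nat_lit 0), (nat_lit 0), (nat_lit 0)), ((nat_lit 0), (nat_lit 0), (nat_lit 0)), ((nat_lit 878), (nat_lit 1000), (nat_lit 945))], ((nat_lit 100), (nat_lit 92), (nat_lit 90))⟩, (nat_lit 2599004), (nat_lit 387), (nat_lit 387), (nat_lit 0), (nat_lit 286738), [(nat_lit 3282000000), (nat_lit 7968000000), (nat_lit 11872000000)], [], [(nat_lit 30969891132), (nat_lit 31858888424), (nat_lit 40330156220), (nat_lit 41912039496), (nat_lit 25576730420), (nat_lit 28065584800), (nat_lit 45499458560), (nat_lit 38438690624)],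 (nat_lit 1271251), (nat_lit 1271251), (nat_lit 780000), (nat_lit 3072501), (nat_lit 111251), (nat_lit 780000), [(nat_lit 780000), (nat_lit 1762501), (nat_lit 1271251)], [(nat_lit 12), (nat_lit 59), (nat_lit 456), (nat_lit 225), (nat_lit 12)]⟩,
 ⟨⟨[(nat_lit 100), (nat_lit 140), (nat_lit 180)], [(nat_lit 0), (nat_lit 508), (nat_lit 2854)], [((nat_lit 0), (nat_lit 0), (nat_lit 0)), ((nat_lit 1000), (nat_lit 1000), (nat_lit 198)), ((nat_lit 777), (nat_lit 1000), (nat_lit 712))], ((nat_lit 100), (nat_lit 64), (nat_lit 83))⟩, (nat_lit 181173), (nat_lit 300), (nat_lit 456), (nat_lit 19307802), (nat_lit 153583), [(nat_lit 1775000000), (nat_lit 2795128000), (nat_lit 3992472000)], [], [(nat_lit 16063948253), (nat_lit 17513827772), (nat_lit 13534996843), (nat_lit 14678408734), (nat_lit 12057667024), (nat_lit 12974780421), (nat_lit 9744065913), (nat_lit 10477972566)], (nat_lit 1271251), (nat_lit 1271251), (nat_lit 292188), (nat_lit 780000), (nat_lit 111251),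 (nat_lit 780000), [(nat_lit 1412501), (nat_lit 1271251), (nat_lit 1271251)], [(nat_lit 24), (nat_lit 63), (nat_lit 373), (nat_lit 150), (nat_lit 9)]⟩⟩))) (.leaf ⟨(nat_lit 0), (nat_lit 0), (nat_lit 0), (nat_lit 1000), (nat_lit 30392), (nat_lit 9204), (nat_lit 6824), (nat_lit 11234), (nat_lit 0), (nat_lit 53513), (nat_lit 0), [], Pd.none, Pd.none, (nat_lit 0), (nat_lit 1), (nat_lit 0), (nat_lit 0), (nat_lit 0), (nat_lit 0), [⟨(nat_lit 0), (nat_lit 100), (nat_lit 83), (nat_lit 98), (nat_lit 185053150)⟩], [⟨(nat_lit 0), (nat_lit 100), (nat_lit 80), (nat_lit 68), (nat_lit 1482546158)⟩], [], [],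
 ⟨⟨[(nat_lit 40), (nat_lit 100), (nat_lit 140)], [(nat_lit 0), (nat_lit 0), (nat_lit 3243)], [((nat_lit 0), (nat_lit 0), (nat_lit 0)), ((nat_lit 0), (nat_lit 0), (nat_lit 0)), ((nat_lit 1000), (nat_lit 870), (nat_lit 941))], ((nat_lit 85), (nat_lit 100), (nat_lit 88))⟩, (nat_lit 2451514), (nat_lit 292), (nat_lit 292), (nat_lit 0), (nat_lit 245879), [(nat_lit 3230481424), (nat_lit 6250000061), (nat_lit 9842000000)], [], [(nat_lit 21846321577), (nat_lit 24144096579), (nat_lit 41561727054), (nat_lit 43365717052), (nat_lit 19627518194), (nat_lit 21738848755), (nat_lit 39412448514), (nat_lit 38570611966)], (nat_lit 1271251), (nat_lit 1271251), (nat_lit 780000), (nat_lit 3072501), (nat_lit 292188), (nat_lit 780000), [(nat_lit 490000), (nat_lit 1427501), (nat_lit 1271251)], [(nat_lit 5), (nat_lit 55), (nat_lit 373), (nat_lit 150), (nat_lit 10)]⟩,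
 ⟨⟨[(nat_lit 80), (nat_lit 140), (nat_lit 180)], [(nat_lit 0), (nat_lit 0), (nat_lit 3656)], [((nat_lit 0), (nat_lit 0), (nat_lit 0)), ((nat_lit 0), (nat_lit 0), (nat_lit 0)), ((nat_lit 637), (nat_lit 1000), (nat_lit 908))], ((nat_lit 100), (nat_lit 73), (nat_lit 85))⟩, (nat_lit 2072071), (nat_lit 453), (nat_lit 453), (nat_lit 0), (nat_lit 464662), [(nat_lit 4688000000), (nat_lit 9842000000), (nat_lit 14058000000)], [], [(nat_lit 43485822680), (nat_lit 37607676560), (nat_lit 41751747600), (nat_lit 43407615888), (nat_lit 70123663040), (nat_lit 57997442336), (nat_lit 44523633248), (nat_lit 44993397472)], (nat_lit 1271251), (nat_lit 1271251), (nat_lit 1271251), (nat_lit 1271251), (nat_lit 780000), (nat_lit 3072501), [(nat_lit 1100000), (nat_lit 2127501), (nat_lit 1271251)], [(nat_lit 19), (nat_lit 63), (nat_lit 538), (nat_lit 300), (nat_lit 12)]⟩,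
 ⟨⟨[(nat_lit 100), (nat_lit 140), (nat_lit 180)], [(nat_lit 0), (nat_lit 508), (nat_lit 2854)], [((nat_lit 0), (nat_lit 0), (nat_lit 0)), ((nat_lit 1000), (nat_lit 1000), (nat_lit 198)), ((nat_lit 777), (nat_lit 1000), (nat_lit 712))], ((nat_lit 100), (nat_lit 64), (nat_lit 83))⟩, (nat_lit 637933), (nat_lit 300), (nat_lit 443), (nat_lit 67985218), (nat_lit 314647), [(nat_lit 6250000000), (nat_lit 9842000000), (nat_lit 14058000000)], [], [(nat_lit 46441468215), (nat_lit 49153481401), (nat_lit 42276816113), (nat_lit 44564608208), (nat_lit 50361959002), (nat_lit 50336135732), (nat_lit 54032061036), (nat_lit 45402972552)], (nat_lit 1271251), (nat_lit 1271251), (nat_lit 292188), (nat_lit 780000), (nat_lit 780000), (nat_lit 3072501), [(nat_lit 1412501), (nat_lit 1271251), (nat_lit 1271251)], [(nat_lit 24), (nat_lit 63), (nat_lit 456), (nat_lit 225), (nat_lit 11)]⟩⟩)))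
noncomputable def c11_21 : Tr Lf :=
 (.stt (nat_lit 3) (.spl (nat_lit 4) (nat_lit 200) (.leaf ⟨(nat_lit 959), (nat_lit 19), (nat_lit 0), (nat_lit 22), (nat_lit 0), (nat_lit 4146), (nat_lit 459), (nat_lit 608), (nat_lit 0), (nat_lit 0), (nat_lit 995000), [((nat_lit 340), [((nat_lit 18), (nat_lit 2), (nat_lit 947)), ((nat_lit 37), (nat_lit 5), (nat_lit 12))])], ⟨(nat_lit 6), false, false, false, (nat_lit 153), (nat_lit 3872), (nat_lit 4473), [(nat_lit 1305146), (nat_lit 1317698), (nat_lit 1348244), (nat_lit 1361249), (nat_lit 1407125), (nat_lit 1414492), (nat_lit 1450223), (nat_lit 1458043)]⟩, ⟨(nat_lit 3), true, false, true, (nat_lit 152), (nat_lit 3872), (nat_lit 4473), [(nat_lit 1277776), (nat_lit 1283782), (nat_lit 1342475), (nat_lit 1349162), (nat_lit 1413733), (nat_lit 1412825), (nat_lit 1478432), (nat_lit 1478205)]⟩, (nat_lit 4011666), (nat_lit 49737086), (nat_lit 8688398), (nat_lit 8574516), (nat_lit 3), (nat_lit 0), [⟨(nat_lit 0), (nat_lit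 100), (nat_lit 80), (nat_lit 89), (nat_lit 243270781)⟩], [], [⟨(nat_lit 0), (nat_lit 100), (nat_lit 92), (nat_lit 31), (nat_lit 288266)⟩], [],
 ⟨⟨[(nat_lit 40), (nat_lit 80), (nat_lit 100)], [(nat_lit 0), (nat_lit 0), (nat_lit 1280)], [((nat_lit 0), (nat_lit 0), (nat_lit 0)), ((nat_lit 0), (nat_lit 0), (nat_lit 0)), ((nat_lit 1000), (nat_lit 800), (nat_lit 600))], ((nat_lit 81), (nat_lit 100), (nat_lit 48))⟩, (nat_lit 0), (nat_lit 180), (nat_lit 180), (nat_lit 0), (nat_lit 307370), [(nat_lit 1868447001), (nat_lit 999261004), (nat_lit 0)], [(nat_lit 0), (nat_lit 0), (nat_lit 311170800)], [(nat_lit 16004507954), (nat_lit 18025635789), (nat_lit 16175781503), (nat_lit 17566688159), (nat_lit 17835699148), (nat_lit 19796721709), (nat_lit 17837219930), (nat_lit 19317080717)], (nat_lit 1271251), (nat_lit 1271251), (nat_lit 356250), (nat_lit 780000), (nat_lit 780000), (nat_lit 1435001), [(nat_lit 490000), (nat_lit 1100000), (nat_lit 1442501)], [(nat_lit 3),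 (nat_lit 50), (nat_lit 317), (nat_lit 100), (nat_lit 12)]⟩,
 ⟨⟨[(nat_lit 80), (nat_lit 120), (nat_lit 140)], [(nat_lit 0), (nat_lit 0), (nat_lit 1164)], [((nat_lit 0), (nat_lit 0), (nat_lit 0)), ((nat_lit 0), (nat_lit 0), (nat_lit 0)), ((nat_lit 941), (nat_lit 1000), (nat_lit 576))], ((nat_lit 100), (nat_lit 98), (nat_lit 48))⟩, (nat_lit 132252), (nat_lit 455), (nat_lit 455), (nat_lit 0), (nat_lit 420071), [(nat_lit 192208000), (nat_lit 326688000), (nat_lit 403522000)], [], [(nat_lit 2286760639), (nat_lit 1801267389), (nat_lit 1556638060), (nat_lit 1203422227), (nat_lit 2147698843), (nat_lit 1747531168), (nat_lit 2393683474), (nat_lit 2000844652)], (nat_lit 1271251), (nat_lit 1271251), (nat_lit 356250), (nat_lit 780000), (nat_lit 0), (nat_lit 2825001), [(nat_lit 1100000), (nat_lit 1785001), (nat_lit 1271251)], [(nat_lit 17), (nat_lit 58), (nat_lit 428), (nat_lit 200), (nat_lit 13)]⟩,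
 ⟨⟨[(nat_lit 140), (nat_lit 160), (nat_lit 180)], [(nat_lit 0), (nat_lit 0), (nat_lit 799)], [((nat_lit 0), (nat_lit 0), (nat_lit 0)), ((nat_lit 0), (nat_lit 0), (nat_lit 0)), ((nat_lit 728), (nat_lit 1000), (nat_lit 454))], ((nat_lit 100), (nat_lit 67), (nat_lit 52))⟩, (nat_lit 19329), (nat_lit 300), (nat_lit 392), (nat_lit 1632401), (nat_lit 0), [(nat_lit 216524000), (nat_lit 261184000), (nat_lit 309276000)], [], [(nat_lit 1283100484), (nat_lit 1191262951), (nat_lit 1156845872), (nat_lit 1058396056), (nat_lit 1240202344), (nat_lit 1176575326), (nat_lit 1150431868), (nat_lit 1080035534)], (nat_lit 0), (nat_lit 0), (nat_lit 0), (nat_lit 0), (nat_lit 0), (nat_lit 0), [], [(nat_lit 31), (nat_lit 65), (nat_lit 428), (nat_lit 200), (nat_lit 10)]⟩⟩) (.trX (nat_lit 5) (nat_lit 4) (nat_lit 3) (nat_lit 100) (nat_lit 40) (nat_lit 92) (nat_lit 390) (.leaf ⟨(nat_lit 890), (nat_lit 0), (nat_lit 16), (nat_lit 94), (nat_lit 0), (nat_lit 4235), (nat_lit 649), (nat_lit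 2009), (nat_lit 0), (nat_lit 0), (nat_lit 849600), [((nat_lit 340), [((nat_lit 37), (nat_lit 2), (nat_lit 101)), ((nat_lit 18), (nat_lit 2), (nat_lit 789))])], ⟨(nat_lit 6), false, false, false, (nat_lit 153), (nat_lit 3872), (nat_lit 4473), [(nat_lit 1305146), (nat_lit 1317698), (nat_lit 1348244), (nat_lit 1361249), (nat_lit 1407125), (nat_lit 1414492), (nat_lit 1450223), (nat_lit 1458043)]⟩, ⟨(nat_lit 5), true, false, true, (nat_lit 192), (nat_lit 3872), (nat_lit 4473), [(nat_lit 1413733), (nat_lit 1412825), (nat_lit 1478432), (nat_lit 1478205), (nat_lit 1481711), (nat_lit 1477347), (nat_lit 1546410), (nat_lit 1542727)]⟩, (nat_lit 4418739), (nat_lit 46486538), (nat_lit 8470577), (nat_lit 12042885), (nat_lit 0), (nat_lit 6), [⟨(nat_lit 0), (nat_lit 100), (nat_lit 80), (nat_lit 89), (nat_lit 248586933)⟩], [], [⟨(nat_lit 0), (nat_lit 100), (nat_lit 99), (nat_lit 5), (nat_lit 53037640)⟩], [],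
 ⟨⟨[(nat_lit 40), (nat_lit 80), (nat_lit 100)], [(nat_lit 0), (nat_lit 0), (nat_lit 1280)], [((nat_lit 0), (nat_lit 0), (nat_lit 0)), ((nat_lit 0), (nat_lit 0), (nat_lit 0)), ((nat_lit 1000), (nat_lit 800), (nat_lit 600))], ((nat_lit 81), (nat_lit 100), (nat_lit 48))⟩, (nat_lit 0), (nat_lit 174), (nat_lit 174), (nat_lit 0), (nat_lit 307370), [(nat_lit 1822297836), (nat_lit 1386281416), (nat_lit 453844000)], [(nat_lit 0), (nat_lit 0), (nat_lit 0)], [(nat_lit 18374024007), (nat_lit 19876553541), (nat_lit 18344833722), (nat_lit 19592006103), (nat_lit 19549624278), (nat_lit 21380879497), (nat_lit 19504933878), (nat_lit 20805551733)], (nat_lit 1271251), (nat_lit 1271251), (nat_lit 356250), (nat_lit 780000), (nat_lit 1271251), (nat_lit 1271251), [(nat_lit 490000), (nat_lit 1100000), (nat_lit 1442501)], [(nat_lit 3), (nat_lit 50), (nat_lit 238), (nat_lit 30), (nat_lit 8)]⟩,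
 ⟨⟨[(nat_lit 80), (nat_lit 120), (nat_lit 140)], [(nat_lit 0), (nat_lit 0), (nat_lit 1164)], [((nat_lit 0), (nat_lit 0), (nat_lit 0)), ((nat_lit 0), (nat_lit 0), (nat_lit 0)), ((nat_lit 941), (nat_lit 1000), (nat_lit 576))], ((nat_lit 100), (nat_lit 98), (nat_lit 48))⟩, (nat_lit 253632), (nat_lit 455), (nat_lit 455), (nat_lit 0), (nat_lit 420071), [(nat_lit 440672000), (nat_lit 748992000), (nat_lit 925148000)], [], [(nat_lit 4409892349), (nat_lit 3723432394), (nat_lit 3484887496), (nat_lit 3616446738), (nat_lit 4743562177), (nat_lit 4175936271), (nat_lit 5149709067), (nat_lit 4592515147)], (nat_lit 1271251), (nat_lit 1271251), (nat_lit 356250), (nat_lit 780000), (nat_lit 0), (nat_lit 2754376), [(nat_lit 1100000), (nat_lit 1785001), (nat_lit 1271251)], [(nat_lit 17), (nat_lit 58), (nat_lit 428), (nat_lit 200), (nat_lit 13)]⟩,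
 ⟨⟨[(nat_lit 140), (nat_lit 160), (nat_lit 180)], [(nat_lit 0), (nat_lit 0), (nat_lit 799)], [((nat_lit 0), (nat_lit 0), (nat_lit 0)), ((nat_lit 0), (nat_lit 0), (nat_lit 0)), ((nat_lit 728), (nat_lit 1000), (nat_lit 454))], ((nat_lit 100), (nat_lit 67), (nat_lit 52))⟩, (nat_lit 96646), (nat_lit 300), (nat_lit 301), (nat_lit 8162000), (nat_lit 0), [(nat_lit 1082620000), (nat_lit 1305920000), (nat_lit 1546380000)], [], [(nat_lit 5039075917), (nat_lit 4859050601), (nat_lit 5105639003), (nat_lit 4896706065), (nat_lit 4788286397), (nat_lit 4461180360), (nat_lit 4718476732), (nat_lit 4374346413)], (nat_lit 0), (nat_lit 0), (nat_lit 0), (nat_lit 0), (nat_lit 0), (nat_lit 0), [], [(nat_lit 31), (nat_lit 65), (nat_lit 456), (nat_lit 225), (nat_lit 11)]⟩⟩))) (.spl (nat_lit 2) (nat_lit 160) (.trX (nat_lit 5) (nat_lit 1) (nat_lit 2) (nat_lit 100) (nat_lit 40) (nat_lit 100) (nat_lit 390) (.leaf ⟨(nat_lit 1000), (nat_lit 0), (nat_lit 0), (nat_lit 0), (nat_lit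 0), (nat_lit 4078), (nat_lit 0), (nat_lit 0), (nat_lit 0), (nat_lit 0), (nat_lit 600000), [((nat_lit 340), [((nat_lit 37), (nat_lit 2), (nat_lit 1000))])], ⟨(nat_lit 6), false, false, false, (nat_lit 153), (nat_lit 3872), (nat_lit 4473), [(nat_lit 1305146), (nat_lit 1317698), (nat_lit 1348244), (nat_lit 1361249), (nat_lit 1407125), (nat_lit 1414492), (nat_lit 1450223), (nat_lit 1458043)]⟩, ⟨(nat_lit 3), false, false, true, (nat_lit 161), (nat_lit 3872), (nat_lit 4473), [(nat_lit 1277776), (nat_lit 1283782), (nat_lit 1320909), (nat_lit 1327369), (nat_lit 1481711), (nat_lit 1477347), (nat_lit 1524844), (nat_lit 1520934)]⟩, (nat_lit 4112107), (nat_lit 49020232), (nat_lit 8649269), (nat_lit 9330499), (nat_lit 0), (nat_lit 0), [⟨(nat_lit 0), (nat_lit 100), (nat_lit 80), (nat_lit 89), (nat_lit 151033966)⟩], [], [], [],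
 ⟨⟨[(nat_lit 40), (nat_lit 80), (nat_lit 100)], [(nat_lit 0), (nat_lit 0), (nat_lit 1280)], [((nat_lit 0), (nat_lit 0), (nat_lit 0)), ((nat_lit 0), (nat_lit 0), (nat_lit 0)), ((nat_lit 1000), (nat_lit 800), (nat_lit 600))], ((nat_lit 81), (nat_lit 100), (nat_lit 48))⟩, (nat_lit 325547), (nat_lit 156), (nat_lit 156), (nat_lit 0), (nat_lit 210483), [(nat_lit 1547893753), (nat_lit 1634928857), (nat_lit 1148800000)], [(nat_lit 0), (nat_lit 0), (nat_lit 0)], [(nat_lit 16381884817), (nat_lit 18127006309), (nat_lit 16307296498), (nat_lit 17939214510), (nat_lit 19571647458), (nat_lit 21228454045), (nat_lit 19343943264), (nat_lit 20719215941)], (nat_lit 1271251), (nat_lit 1271251), (nat_lit 356250), (nat_lit 780000), (nat_lit 780000), (nat_lit 1762501), [(nat_lit 490000), (nat_lit 1100000), (nat_lit 1442501)], [(nat_lit 3), (nat_lit 50), (nat_lit 317), (nat_lit 100), (nat_lit 12)]⟩,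
 Rw.none,
 Rw.none⟩)) (.leaf ⟨(nat_lit 970), (nat_lit 0), (nat_lit 0), (nat_lit 30), (nat_lit 0), (nat_lit 4196), (nat_lit 299), (nat_lit 404), (nat_lit 0), (nat_lit 0), (nat_lit 648800), [((nat_lit 340), [((nat_lit 37), (nat_lit 2), (nat_lit 803)), ((nat_lit 18), (nat_lit 2), (nat_lit 167))])], ⟨(nat_lit 6), false, false, false, (nat_lit 153), (nat_lit 3872), (nat_lit 4473), [(nat_lit 1305146), (nat_lit 1317698), (nat_lit 1348244), (nat_lit 1361249), (nat_lit 1407125), (nat_lit 1414492), (nat_lit 1450223), (nat_lit 1458043)]⟩, ⟨(nat_lit 4), false, false, true, (nat_lit 174), (nat_lit 3872), (nat_lit 4473), [(nat_lit 1320909), (nat_lit 1327369), (nat_lit 1342475), (nat_lit 1349162), (nat_lit 1524844), (nat_lit 1520934), (nat_lit 1546410), (nat_lit 1542727)]⟩, (nat_lit 4249265), (nat_lit 47959737), (nat_lit 8581784), (nat_lit 10458479), (nat_lit 0), (nat_lit 0), [⟨(nat_lit 0), (nat_lit 100), (nat_lit 80), (nat_lit 89), (nat_lit 216758898)⟩], [], [],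 [],
 ⟨⟨[(nat_lit 40), (nat_lit 80), (nat_lit 100)], [(nat_lit 0), (nat_lit 0), (nat_lit 1280)], [((nat_lit 0), (nat_lit 0), (nat_lit 0)), ((nat_lit 0), (nat_lit 0), (nat_lit 0)), ((nat_lit 1000), (nat_lit 800), (nat_lit 600))], ((nat_lit 81), (nat_lit 100), (nat_lit 48))⟩, (nat_lit 358184), (nat_lit 153), (nat_lit 153), (nat_lit 0), (nat_lit 170900), [(nat_lit 1733061220), (nat_lit 1568025960), (nat_lit 1035972000)], [(nat_lit 0), (nat_lit 0), (nat_lit 0)], [(nat_lit 16174372794), (nat_lit 18075353739), (nat_lit 16062696816), (nat_lit 17718901670), (nat_lit 19520749616), (nat_lit 21343015849), (nat_lit 19096545648), (nat_lit 20784105262)], (nat_lit 1271251), (nat_lit 1271251), (nat_lit 356250), (nat_lit 780000), (nat_lit 780000), (nat_lit 1762501), [(nat_lit 490000), (nat_lit 1100000), (nat_lit 1442501)], [(nat_lit 3), (nat_lit 50), (nat_lit 317), (nat_lit 100), (nat_lit 12)]⟩,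
 ⟨⟨[(nat_lit 80), (nat_lit 120), (nat_lit 140)], [(nat_lit 0), (nat_lit 0), (nat_lit 1164)], [((nat_lit 0), (nat_lit 0), (nat_lit 0)), ((nat_lit 0), (nat_lit 0), (nat_lit 0)), ((nat_lit 941), (nat_lit 1000), (nat_lit 576))], ((nat_lit 100), (nat_lit 98), (nat_lit 48))⟩, (nat_lit 0), (nat_lit 345), (nat_lit 345), (nat_lit 0), (nat_lit 221672), [(nat_lit 140640000), (nat_lit 239040000), (nat_lit 295260000)], [], [(nat_lit 1597134439), (nat_lit 1280876309), (nat_lit 1121520820), (nat_lit 985479650), (nat_lit 1560923631), (nat_lit 1300247956), (nat_lit 1726741822), (nat_lit 1470840280)], (nat_lit 1271251), (nat_lit 1271251), (nat_lit 356250), (nat_lit 780000), (nat_lit 0), (nat_lit 2825001), [(nat_lit 1100000), (nat_lit 1785001), (nat_lit 1271251)], [(nat_lit 17), (nat_lit 58), (nat_lit 428), (nat_lit 200), (nat_lit 13)]⟩,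
 ⟨⟨[(nat_lit 120), (nat_lit 160), (nat_lit 180)], [(nat_lit 0), (nat_lit 0), (nat_lit 1613)], [((nat_lit 0), (nat_lit 0), (nat_lit 0)), ((nat_lit 0), (nat_lit 0), (nat_lit 0)), ((nat_lit 620), (nat_lit 1000), (nat_lit 670))], ((nat_lit 100), (nat_lit 78), (nat_lit 48))⟩, (nat_lit 13056), (nat_lit 300), (nat_lit 1401), (nat_lit 2226004), (nat_lit 2159496), [(nat_lit 239040000), (nat_lit 356160000), (nat_lit 421740000)], [], [(nat_lit 1731526600), (nat_lit 1718969584), (nat_lit 1612259424), (nat_lit 1597139358), (nat_lit 1860815672), (nat_lit 1976314882), (nat_lit 2480375520), (nat_lit 2602671020)], (nat_lit 1100000), (nat_lit 1271251), (nat_lit 780000), (nat_lit 1762501), (nat_lit 0), (nat_lit 2825001), [(nat_lit 1695001), (nat_lit 1271251), (nat_lit 1271251)], [(nat_lit 28), (nat_lit 65), (nat_lit 456), (nat_lit 225), (nat_lit 11)]⟩⟩)))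
noncomputable def c11_22 : Tr Lf :=
 (.spl (nat_lit 5) (nat_lit 200) (.spl (nat_lit 1) (nat_lit 260) (.spl (nat_lit 0) (nat_lit 330) (.spl (nat_lit 6) (nat_lit 36) (.leaf ⟨(nat_lit 1000), (nat_lit 0), (nat_lit 0), (nat_lit 0), (nat_lit 11848), (nat_lit 4395), (nat_lit 0), (nat_lit 0), (nat_lit 0), (nat_lit 0), (nat_lit 250000), [((nat_lit 330), [((nat_lit 18), (nat_lit 0), (nat_lit 1000))])], ⟨(nat_lit 6), false, false, false, (nat_lit 148), (nat_lit 4183), (nat_lit 4473), [(nat_lit 1305197), (nat_lit 1311427), (nat_lit 1326760), (nat_lit 1333090), (nat_lit 1407167), (nat_lit 1410812), (nat_lit 1428729), (nat_lit 1432475)]⟩, ⟨(nat_lit 3), false, false, true, (nat_lit 165), (nat_lit 4183), (nat_lit 4473), [(nat_lit 1277776), (nat_lit 1280820), (nat_lit 1342476), (nat_lit 1345821), (nat_lit 1481711), (nat_lit 1479587), (nat_lit 1546410), (nat_lit 1544587)]⟩, (nat_lit 4097444), (nat_lit 49089011), (nat_lit 8189288), (nat_lit 9721701), (nat_lit 0), (nat_lit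 0), [⟨(nat_lit 0), (nat_lit 100), (nat_lit 80), (nat_lit 89), (nat_lit 139704796)⟩], [], [], [],
 ⟨⟨[(nat_lit 40), (nat_lit 80), (nat_lit 100)], [(nat_lit 0), (nat_lit 0), (nat_lit 1280)], [((nat_lit 0), (nat_lit 0), (nat_lit 0)), ((nat_lit 0), (nat_lit 0), (nat_lit 0)), ((nat_lit 1000), (nat_lit 800), (nat_lit 600))], ((nat_lit 80), (nat_lit 100), (nat_lit 57))⟩, (nat_lit 0), (nat_lit 143), (nat_lit 143), (nat_lit 0), (nat_lit 51817), [(nat_lit 1757399468), (nat_lit 2168000002), (nat_lit 2562000000)], [(nat_lit 0), (nat_lit 0), (nat_lit 0)], [(nat_lit 16314818047), (nat_lit 17292107766), (nat_lit 16202650102), (nat_lit 17114860186), (nat_lit 19804916197), (nat_lit 20600635604), (nat_lit 19524424732), (nat_lit 20268815081)], (nat_lit 1271251), (nat_lit 1271251), (nat_lit 356250), (nat_lit 780000), (nat_lit 780000), (nat_lit 1762501), [(nat_lit 490000), (nat_lit 1100000), (nat_lit 1442501)], [(nat_lit 3), (nat_lit 50), (nat_lit 317), (nat_lit 100),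 (nat_lit 12)]⟩,
 Rw.none,
 Rw.none⟩) (.dle (nat_lit 0))) (.trZ (nat_lit 0) (nat_lit 1) (nat_lit 3) (nat_lit 100) (nat_lit 78) (nat_lit 81) (nat_lit 70) (.leaf ⟨(nat_lit 964), (nat_lit 27), (nat_lit 0), (nat_lit 9), (nat_lit 6240), (nat_lit 4184), (nat_lit 429), (nat_lit 132), (nat_lit 0), (nat_lit 0), (nat_lit 241000), [((nat_lit 340), [((nat_lit 19), (nat_lit 0), (nat_lit 964))])], ⟨(nat_lit 6), false, false, false, (nat_lit 153), (nat_lit 3872), (nat_lit 4184), [(nat_lit 1327983), (nat_lit 1333871), (nat_lit 1349645), (nat_lit 1355660), (nat_lit 1410806), (nat_lit 1414527), (nat_lit 1432468), (nat_lit 1436316)]⟩, ⟨(nat_lit 3), false, false, true, (nat_lit 165), (nat_lit 3872), (nat_lit 4184), [(nat_lit 1280820), (nat_lit 1283782), (nat_lit 1345820), (nat_lit 1349161), (nat_lit 1479587), (nat_lit 1477347), (nat_lit 1544587), (nat_lit 1542727)]⟩, (nat_lit 4159855), (nat_lit 48662180), (nat_lit 8623586), (nat_lit 9714234), (nat_lit 3), (nat_lit 0),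 [⟨(nat_lit 0), (nat_lit 100), (nat_lit 75), (nat_lit 92), (nat_lit 214161143)⟩], [], [], [],
 ⟨⟨[(nat_lit 40), (nat_lit 80), (nat_lit 100)], [(nat_lit 0), (nat_lit 395), (nat_lit 1536)], [((nat_lit 0), (nat_lit 0), (nat_lit 0)), ((nat_lit 1000), (nat_lit 908), (nat_lit 154)), ((nat_lit 1000), (nat_lit 760), (nat_lit 642))], ((nat_lit 76), (nat_lit 100), (nat_lit 63))⟩, (nat_lit 1164516), (nat_lit 137), (nat_lit 137), (nat_lit 0), (nat_lit 99532), [(nat_lit 1643108334), (nat_lit 2264644218), (nat_lit 2679344000)], [(nat_lit 0), (nat_lit 0), (nat_lit 0)], [(nat_lit 17095248012), (nat_lit 17973845579), (nat_lit 17211140891), (nat_lit 18038734934), (nat_lit 20128262815), (nat_lit 20949748080), (nat_lit 20098062654), (nat_lit 20777506348)], (nat_lit 1271251), (nat_lit 1271251), (nat_lit 422188), (nat_lit 780000), (nat_lit 780000), (nat_lit 1762501), [(nat_lit 490000), (nat_lit 1100000), (nat_lit 1442501)], [(nat_lit 3), (nat_lit 50), (nat_lit 317), (nat_lit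 100), (nat_lit 12)]⟩,
 ⟨⟨[(nat_lit 80), (nat_lit 120), (nat_lit 160)], [(nat_lit 0), (nat_lit 0), (nat_lit 2132)], [((nat_lit 0), (nat_lit 0), (nat_lit 0)), ((nat_lit 0), (nat_lit 0), (nat_lit 0)), ((nat_lit 858), (nat_lit 1000), (nat_lit 713))], ((nat_lit 100), (nat_lit 91), (nat_lit 64))⟩, (nat_lit 0), (nat_lit 371), (nat_lit 371), (nat_lit 0), (nat_lit 152413), [(nat_lit 168768000), (nat_lit 286848000), (nat_lit 427392000)], [], [(nat_lit 1945448717), (nat_lit 1719447710), (nat_lit 1379126460), (nat_lit 1280351019), (nat_lit 1245789525), (nat_lit 1046948427), (nat_lit 1413202260), (nat_lit 1217598960)], (nat_lit 1271251), (nat_lit 1271251), (nat_lit 422188), (nat_lit 780000), (nat_lit 0), (nat_lit 1412501), [(nat_lit 1100000), (nat_lit 1785001), (nat_lit 1271251)], [(nat_lit 18), (nat_lit 59), (nat_lit 373), (nat_lit 150), (nat_lit 10)]⟩,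
 ⟨⟨[(nat_lit 140), (nat_lit 180), (nat_lit 200)], [(nat_lit 0), (nat_lit 0), (nat_lit 2835)], [((nat_lit 0), (nat_lit 0), (nat_lit 0)), ((nat_lit 0), (nat_lit 0), (nat_lit 0)), ((nat_lit 363), (nat_lit 1000), (nat_lit 798))], ((nat_lit 0), (nat_lit 0), (nat_lit 0))⟩, (nat_lit 2476), (nat_lit 300), (nat_lit 1137), (nat_lit 702903), (nat_lit 1374768), [(nat_lit 88578000), (nat_lit 126522000), (nat_lit 147600000)], [], [(nat_lit 676029720), (nat_lit 615982373), (nat_lit 591848232), (nat_lit 561705687), (nat_lit 493507704), (nat_lit 530474715), (nat_lit 621310848), (nat_lit 717841134)], (nat_lit 780000), (nat_lit 1271251), (nat_lit 780000), (nat_lit 1762501), (nat_lit 0), (nat_lit 1412501), [(nat_lit 1977501), (nat_lit 1271251), (nat_lit 1271251)], [(nat_lit 32), (nat_lit 67), (nat_lit 401), (nat_lit 175), (nat_lit 9)]⟩⟩))) (.trZ (nat_lit 0) (nat_lit 1) (nat_lit 3) (nat_lit 100) (nat_lit 84) (nat_lit 85) (nat_lit 80) (.spl (nat_lit 0) (nat_lit 330) (.leaf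 ⟨(nat_lit 60), (nat_lit 940), (nat_lit 0), (nat_lit 0), (nat_lit 22038), (nat_lit 6343), (nat_lit 5607), (nat_lit 0), (nat_lit 0), (nat_lit 0), (nat_lit 240000), [((nat_lit 330), [((nat_lit 37), (nat_lit 5), (nat_lit 60))])], ⟨(nat_lit 6), false, false, false, (nat_lit 163), (nat_lit 4183), (nat_lit 4473), [(nat_lit 1360749), (nat_lit 1366218), (nat_lit 1382312), (nat_lit 1387880), (nat_lit 1428729), (nat_lit 1432475), (nat_lit 1450291), (nat_lit 1454137)]⟩, ⟨(nat_lit 3), false, false, true, (nat_lit 165), (nat_lit 4183), (nat_lit 4473), [(nat_lit 1277776), (nat_lit 1280820), (nat_lit 1342476), (nat_lit 1345821), (nat_lit 1481711), (nat_lit 1479587), (nat_lit 1546410), (nat_lit 1544587)]⟩, (nat_lit 4266767), (nat_lit 47894172), (nat_lit 9469988), (nat_lit 9635840), (nat_lit 3), (nat_lit 0), [⟨(nat_lit 0), (nat_lit 100), (nat_lit 83), (nat_lit 92), (nat_lit 1032392161)⟩], [], [], [],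
 ⟨⟨[(nat_lit 40), (nat_lit 80), (nat_lit 120)], [(nat_lit 0), (nat_lit 0), (nat_lit 2151)], [((nat_lit 0), (nat_lit 0), (nat_lit 0)), ((nat_lit 0), (nat_lit 0), (nat_lit 0)), ((nat_lit 1000), (nat_lit 815), (nat_lit 753))], ((nat_lit 80), (nat_lit 100), (nat_lit 63))⟩, (nat_lit 2090723), (nat_lit 138), (nat_lit 138), (nat_lit 0), (nat_lit 109044), [(nat_lit 2915970744), (nat_lit 4119067550), (nat_lit 6161860150)], [(nat_lit 0), (nat_lit 0), (nat_lit 0)], [(nat_lit 17340836599), (nat_lit 18373976098), (nat_lit 17415983229), (nat_lit 18393820697), (nat_lit 20085515601), (nat_lit 20956398074), (nat_lit 19976393313), (nat_lit 20868017868)], (nat_lit 1271251), (nat_lit 1271251), (nat_lit 490000), (nat_lit 780000), (nat_lit 780000), (nat_lit 1762501), [(nat_lit 490000), (nat_lit 1100000), (nat_lit 1785001)], [(nat_lit 4), (nat_lit 51), (nat_lit 317), (nat_lit 100), (nat_lit 10)]⟩,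
 ⟨⟨[(nat_lit 80), (nat_lit 120), (nat_lit 140)], [(nat_lit 0), (nat_lit 528), (nat_lit 1572)], [((nat_lit 0), (nat_lit 0), (nat_lit 0)), ((nat_lit 1000), (nat_lit 959), (nat_lit 206)), ((nat_lit 966), (nat_lit 1000), (nat_lit 679))], ((nat_lit 100), (nat_lit 98), (nat_lit 66))⟩, (nat_lit 2962845), (nat_lit 289), (nat_lit 289), (nat_lit 0), (nat_lit 142600), [(nat_lit 4406720000), (nat_lit 7489920000), (nat_lit 9251480000)], [], [(nat_lit 34734462206), (nat_lit 31792144100), (nat_lit 28893131659), (nat_lit 29089859402), (nat_lit 26566079532), (nat_lit 27292115856), (nat_lit 26501015270), (nat_lit 27259907598)], (nat_lit 1271251), (nat_lit 1271251), (nat_lit 490000), (nat_lit 780000), (nat_lit 0), (nat_lit 1412501), [(nat_lit 1100000), (nat_lit 1785001), (nat_lit 1271251)], [(nat_lit 17), (nat_lit 58), (nat_lit 373), (nat_lit 150), (nat_lit 11)]⟩,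
 Rw.none⟩) (.trZ (nat_lit 0) (nat_lit 1) (nat_lit 3) (nat_lit 100) (nat_lit 80) (nat_lit 89) (nat_lit 90) (.leaf ⟨(nat_lit 356), (nat_lit 597), (nat_lit 0), (nat_lit 47), (nat_lit 2413), (nat_lit 7577), (nat_lit 4932), (nat_lit 573), (nat_lit 0), (nat_lit 0), (nat_lit 89000), [((nat_lit 340), [((nat_lit 19), (nat_lit 0), (nat_lit 356))])], ⟨(nat_lit 6), false, false, false, (nat_lit 168), (nat_lit 3872), (nat_lit 4184), [(nat_lit 1382774), (nat_lit 1387922), (nat_lit 1404436), (nat_lit 1409711), (nat_lit 1432468), (nat_lit 1436316), (nat_lit 1454130), (nat_lit 1458104)]⟩, ⟨(nat_lit 3), false, false, true, (nat_lit 165), (nat_lit 3872), (nat_lit 4184), [(nat_lit 1280820), (nat_lit 1283782), (nat_lit 1345820), (nat_lit 1349161), (nat_lit 1479587), (nat_lit 1477347), (nat_lit 1544587), (nat_lit 1542727)]⟩, (nat_lit 4322570), (nat_lit 47469836), (nat_lit 9907372), (nat_lit 9622792), (nat_lit 3), (nat_lit 0), [⟨(nat_lit 0), (nat_lit 100), (nat_lit 79),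 (nat_lit 95), (nat_lit 249441002)⟩], [], [], [],
 ⟨⟨[(nat_lit 40), (nat_lit 80), (nat_lit 100)], [(nat_lit 0), (nat_lit 395), (nat_lit 1536)], [((nat_lit 0), (nat_lit 0), (nat_lit 0)), ((nat_lit 1000), (nat_lit 908), (nat_lit 154)), ((nat_lit 1000), (nat_lit 760), (nat_lit 642))], ((nat_lit 76), (nat_lit 100), (nat_lit 63))⟩, (nat_lit 21656), (nat_lit 131), (nat_lit 131), (nat_lit 0), (nat_lit 149139), [(nat_lit 2808475487), (nat_lit 4492880126), (nat_lit 4931376000)], [(nat_lit 0), (nat_lit 0), (nat_lit 0)], [(nat_lit 18975293211), (nat_lit 20228451249), (nat_lit 18956748923), (nat_lit 20156773914), (nat_lit 21901709993), (nat_lit 22910811084), (nat_lit 21719722699), (nat_lit 22681075198)], (nat_lit 1271251), (nat_lit 1271251), (nat_lit 559688), (nat_lit 780000), (nat_lit 780000), (nat_lit 1762501), [(nat_lit 490000), (nat_lit 1100000), (nat_lit 1442501)], [(nat_lit 3), (nat_lit 50), (nat_lit 317), (nat_lit 100), (nat_lit 11)]⟩,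
 ⟨⟨[(nat_lit 80), (nat_lit 120), (nat_lit 140)], [(nat_lit 0), (nat_lit 528), (nat_lit 1572)], [((nat_lit 0), (nat_lit 0), (nat_lit 0)), ((nat_lit 1000), (nat_lit 959), (nat_lit 206)), ((nat_lit 966), (nat_lit 1000), (nat_lit 679))], ((nat_lit 100), (nat_lit 98), (nat_lit 66))⟩, (nat_lit 0), (nat_lit 311), (nat_lit 311), (nat_lit 0), (nat_lit 203102), [(nat_lit 3019072000), (nat_lit 5131392000), (nat_lit 6338248000)], [], [(nat_lit 24673708224), (nat_lit 22448060051), (nat_lit 21569394192), (nat_lit 22314667268), (nat_lit 21991466434), (nat_lit 20094892890), (nat_lit 23418003675), (nat_lit 21108692082)], (nat_lit 1271251), (nat_lit 1271251), (nat_lit 559688), (nat_lit 780000), (nat_lit 0), (nat_lit 1412501), [(nat_lit 1100000), (nat_lit 1785001), (nat_lit 1271251)], [(nat_lit 17), (nat_lit 58), (nat_lit 373), (nat_lit 150), (nat_lit 11)]⟩,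
 ⟨⟨[(nat_lit 140), (nat_lit 180), (nat_lit 200)], [(nat_lit 0), (nat_lit 0), (nat_lit 2835)], [((nat_lit 0), (nat_lit 0), (nat_lit 0)), ((nat_lit 0), (nat_lit 0), (nat_lit 0)), ((nat_lit 363), (nat_lit 1000), (nat_lit 798))], ((nat_lit 0), (nat_lit 0), (nat_lit 0))⟩, (nat_lit 12931), (nat_lit 300), (nat_lit 1480), (nat_lit 3670704), (nat_lit 2135627), [(nat_lit 462574000), (nat_lit 660726000), (nat_lit 770800000)], [], [(nat_lit 3498979172), (nat_lit 3366067437), (nat_lit 3251270428), (nat_lit 3117955250), (nat_lit 2878093221), (nat_lit 2751086184), (nat_lit 3088917898), (nat_lit 3523533149)], (nat_lit 780000), (nat_lit 1271251), (nat_lit 780000), (nat_lit 1762501), (nat_lit 0), (nat_lit 1412501), [(nat_lit 1977501), (nat_lit 1271251), (nat_lit 1271251)], [(nat_lit 32), (nat_lit 67), (nat_lit 448), (nat_lit 175), (nat_lit 10)]⟩⟩))))) (.spl (nat_lit 0) (nat_lit 330) (.leaf ⟨(nat_lit 887), (nat_lit 44), (nat_lit 0), (nat_lit 69), (nat_lit 0), (nat_lit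 4412), (nat_lit 998), (nat_lit 808), (nat_lit 0), (nat_lit 0), (nat_lit 788300), [((nat_lit 330), [((nat_lit 19), (nat_lit 0), (nat_lit 42)), ((nat_lit 19), (nat_lit 1), (nat_lit 62)), ((nat_lit 37), (nat_lit 2), (nat_lit 75)), ((nat_lit 19), (nat_lit 2), (nat_lit 708))])], ⟨(nat_lit 6), false, false, false, (nat_lit 152), (nat_lit 4183), (nat_lit 4473), [(nat_lit 1305197), (nat_lit 1311427), (nat_lit 1348323), (nat_lit 1354753), (nat_lit 1407167), (nat_lit 1410812), (nat_lit 1450291), (nat_lit 1454137)]⟩, ⟨(nat_lit 3), false, false, true, (nat_lit 165), (nat_lit 4183), (nat_lit 4473), [(nat_lit 1277776), (nat_lit 1280820), (nat_lit 1342476), (nat_lit 1345821), (nat_lit 1481711), (nat_lit 1479587), (nat_lit 1546410), (nat_lit 1544587)]⟩, (nat_lit 4146627), (nat_lit 48755352), (nat_lit 8545315), (nat_lit 9699333), (nat_lit 5), (nat_lit 0), [⟨(nat_lit 0), (nat_lit 100), (nat_lit 82), (nat_lit 87), (nat_lit 62566202)⟩, ⟨(nat_lit 0), (nat_lit 100), (nat_lit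 83), (nat_lit 98), (nat_lit 188758599)⟩], [], [], [],
 ⟨⟨[(nat_lit 40), (nat_lit 80), (nat_lit 120)], [(nat_lit 0), (nat_lit 0), (nat_lit 2151)], [((nat_lit 0), (nat_lit 0), (nat_lit 0)), ((nat_lit 0), (nat_lit 0), (nat_lit 0)), ((nat_lit 1000), (nat_lit 815), (nat_lit 753))], ((nat_lit 80), (nat_lit 100), (nat_lit 63))⟩, (nat_lit 0), (nat_lit 148), (nat_lit 148), (nat_lit 0), (nat_lit 109044), [(nat_lit 1671921440), (nat_lit 1935378029), (nat_lit 0)], [(nat_lit 0), (nat_lit 0), (nat_lit 325524000)], [(nat_lit 16977139494), (nat_lit 17818910626), (nat_lit 16690232568), (nat_lit 17477923017), (nat_lit 19803720360), (nat_lit 20615051678), (nat_lit 19377339424), (nat_lit 20024594032)], (nat_lit 1271251), (nat_lit 1271251), (nat_lit 356250), (nat_lit 780000), (nat_lit 780000), (nat_lit 1762501), [(nat_lit 490000), (nat_lit 1100000), (nat_lit 1785001)], [(nat_lit 4), (nat_lit 51), (nat_lit 317), (nat_lit 100), (nat_lit 10)]⟩,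
 ⟨⟨[(nat_lit 80), (nat_lit 120), (nat_lit 160)], [(nat_lit 0), (nat_lit 0), (nat_lit 2132)], [((nat_lit 0), (nat_lit 0), (nat_lit 0)), ((nat_lit 0), (nat_lit 0), (nat_lit 0)), ((nat_lit 858), (nat_lit 1000), (nat_lit 713))], ((nat_lit 100), (nat_lit 91), (nat_lit 64))⟩, (nat_lit 399298), (nat_lit 252), (nat_lit 252), (nat_lit 0), (nat_lit 150156), [(nat_lit 529744000), (nat_lit 900384000), (nat_lit 1341536000)], [], [(nat_lit 2420797055), (nat_lit 2744874423), (nat_lit 2354646182), (nat_lit 2508109795), (nat_lit 3941930534), (nat_lit 4206564427), (nat_lit 3649856830), (nat_lit 3838010108)], (nat_lit 1271251), (nat_lit 1271251), (nat_lit 356250), (nat_lit 780000), (nat_lit 1271251), (nat_lit 1271251), [(nat_lit 1100000), (nat_lit 1785001), (nat_lit 1271251)], [(nat_lit 18), (nat_lit 59), (nat_lit 428), (nat_lit 200), (nat_lit 11)]⟩,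
 ⟨⟨[(nat_lit 140), (nat_lit 180), (nat_lit 200)], [(nat_lit 0), (nat_lit 0), (nat_lit 2835)], [((nat_lit 0), (nat_lit 0), (nat_lit 0)), ((nat_lit 0), (nat_lit 0), (nat_lit 0)), ((nat_lit 363), (nat_lit 1000), (nat_lit 798))], ((nat_lit 0), (nat_lit 0), (nat_lit 0))⟩, (nat_lit 18984), (nat_lit 300), (nat_lit 1049), (nat_lit 5388902), (nat_lit 1459510), [(nat_lit 679098000), (nat_lit 970002000), (nat_lit 1131600000)], [], [(nat_lit 4365416876), (nat_lit 4182376548), (nat_lit 4017117324), (nat_lit 3836769867), (nat_lit 4137907390), (nat_lit 3952693353), (nat_lit 3793083304), (nat_lit 3607213825)], (nat_lit 780000), (nat_lit 1271251), (nat_lit 780000), (nat_lit 1762501), (nat_lit 1271251), (nat_lit 1271251), [(nat_lit 1977501), (nat_lit 1271251), (nat_lit 1271251)], [(nat_lit 32), (nat_lit 67), (nat_lit 456), (nat_lit 225), (nat_lit 10)]⟩⟩) (.trZ (nat_lit 0) (nat_lit 1) (nat_lit 3) (nat_lit 100) (nat_lit 78) (nat_lit 81) (nat_lit 70) (.leaf ⟨(nat_lit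 926), (nat_lit 37), (nat_lit 0), (nat_lit 37), (nat_lit 0), (nat_lit 5833), (nat_lit 671), (nat_lit 428), (nat_lit 0), (nat_lit 0), (nat_lit 231500), [((nat_lit 340), [((nat_lit 19), (nat_lit 0), (nat_lit 926))])], ⟨(nat_lit 6), false, false, false, (nat_lit 157), (nat_lit 3872), (nat_lit 4184), [(nat_lit 1327983), (nat_lit 1333871), (nat_lit 1371306), (nat_lit 1377448), (nat_lit 1410806), (nat_lit 1414527), (nat_lit 1454130), (nat_lit 1458104)]⟩, ⟨(nat_lit 3), false, false, true, (nat_lit 165), (nat_lit 3872), (nat_lit 4184), [(nat_lit 1280820), (nat_lit 1283782), (nat_lit 1345820), (nat_lit 1349161), (nat_lit 1479587), (nat_lit 1477347), (nat_lit 1544587), (nat_lit 1542727)]⟩, (nat_lit 4207806), (nat_lit 48324353), (nat_lit 8985756), (nat_lit 9689891), (nat_lit 5), (nat_lit 0), [⟨(nat_lit 0), (nat_lit 99), (nat_lit 77), (nat_lit 100), (nat_lit 264774713)⟩], [], [⟨(nat_lit 1), (nat_lit 55), (nat_lit 99), (nat_lit 100), (nat_lit 552098)⟩], [],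
 ⟨⟨[(nat_lit 40), (nat_lit 80), (nat_lit 100)], [(nat_lit 0), (nat_lit 395), (nat_lit 1536)], [((nat_lit 0), (nat_lit 0), (nat_lit 0)), ((nat_lit 1000), (nat_lit 908), (nat_lit 154)), ((nat_lit 1000), (nat_lit 760), (nat_lit 642))], ((nat_lit 76), (nat_lit 100), (nat_lit 63))⟩, (nat_lit 0), (nat_lit 141), (nat_lit 141), (nat_lit 0), (nat_lit 149092), [(nat_lit 2042349553), (nat_lit 2911937493), (nat_lit 2820096000)], [(nat_lit 0), (nat_lit 0), (nat_lit 0)], [(nat_lit 18307024734), (nat_lit 19381292384), (nat_lit 18041325667), (nat_lit 19049921370), (nat_lit 21307926241), (nat_lit 22341160882), (nat_lit 20868008635), (nat_lit 21684307114)], (nat_lit 1271251), (nat_lit 1271251), (nat_lit 422188), (nat_lit 780000), (nat_lit 780000), (nat_lit 1762501), [(nat_lit 490000), (nat_lit 1100000), (nat_lit 1442501)], [(nat_lit 3), (nat_lit 50), (nat_lit 317), (nat_lit 100), (nat_lit 12)]⟩,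
 ⟨⟨[(nat_lit 80), (nat_lit 120), (nat_lit 160)], [(nat_lit 0), (nat_lit 0), (nat_lit 2132)], [((nat_lit 0), (nat_lit 0), (nat_lit 0)), ((nat_lit 0), (nat_lit 0), (nat_lit 0)), ((nat_lit 858), (nat_lit 1000), (nat_lit 713))], ((nat_lit 100), (nat_lit 91), (nat_lit 64))⟩, (nat_lit 224884), (nat_lit 265), (nat_lit 265), (nat_lit 0), (nat_lit 211864), [(nat_lit 346912000), (nat_lit 589632000), (nat_lit 878528000)], [], [(nat_lit 1881308202), (nat_lit 2027364272), (nat_lit 1790176862), (nat_lit 1925824104), (nat_lit 2598932106), (nat_lit 2707944850), (nat_lit 2455312680), (nat_lit 2538320868)], (nat_lit 1271251), (nat_lit 1271251), (nat_lit 422188), (nat_lit 780000), (nat_lit 1271251), (nat_lit 1271251), [(nat_lit 1100000), (nat_lit 1785001), (nat_lit 1271251)], [(nat_lit 18), (nat_lit 59), (nat_lit 428), (nat_lit 200), (nat_lit 11)]⟩,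
 ⟨⟨[(nat_lit 140), (nat_lit 180), (nat_lit 200)], [(nat_lit 0), (nat_lit 0), (nat_lit 2835)], [((nat_lit 0), (nat_lit 0), (nat_lit 0)), ((nat_lit 0), (nat_lit 0), (nat_lit 0)), ((nat_lit 363), (nat_lit 1000), (nat_lit 798))], ((nat_lit 0), (nat_lit 0), (nat_lit 0))⟩, (nat_lit 10180), (nat_lit 300), (nat_lit 1353), (nat_lit 2889700), (nat_lit 2135627), [(nat_lit 364154000), (nat_lit 520146000), (nat_lit 606800000)], [], [(nat_lit 2369320848), (nat_lit 2272668252), (nat_lit 2185441108), (nat_lit 2088971432), (nat_lit 2232117264), (nat_lit 2133664679), (nat_lit 2049493768), (nat_lit 1951388925)], (nat_lit 780000), (nat_lit 1271251), (nat_lit 780000), (nat_lit 1762501), (nat_lit 1271251), (nat_lit 1271251), [(nat_lit 1977501), (nat_lit 1271251), (nat_lit 1271251)], [(nat_lit 32), (nat_lit 67), (nat_lit 456), (nat_lit 225), (nat_lit 10)]⟩⟩))))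
noncomputable def c11_23 : Tr Lf :=
 (.spl (nat_lit 6) (nat_lit 24) (.spl (nat_lit 5) (nat_lit 120) (.spl (nat_lit 0) (nat_lit 330) (.leaf ⟨(nat_lit 728), (nat_lit 160), (nat_lit 0), (nat_lit 112), (nat_lit 871), (nat_lit 4459), (nat_lit 3398), (nat_lit 1306), (nat_lit 0), (nat_lit 0), (nat_lit 863000), [((nat_lit 330), [((nat_lit 18), (nat_lit 2), (nat_lit 683)), ((nat_lit 37), (nat_lit 5), (nat_lit 45))])], ⟨(nat_lit 6), false, false, false, (nat_lit 152), (nat_lit 4183), (nat_lit 4473), [(nat_lit 1305197), (nat_lit 1311427), (nat_lit 1348323), (nat_lit 1354753), (nat_lit 1407167), (nat_lit 1410812), (nat_lit 1450291), (nat_lit 1454137)]⟩, ⟨(nat_lit 4), false, false, false, (nat_lit 187), (nat_lit 4183), (nat_lit 4473), [(nat_lit 1342476), (nat_lit 1345821), (nat_lit 1385603), (nat_lit 1389149), (nat_lit 1546410), (nat_lit 1544587), (nat_lit 1589541), (nat_lit 1587919)]⟩, (nat_lit 4362673), (nat_lit 46974137), (nat_lit 8422694), (nat_lit 11603169),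 (nat_lit 4), (nat_lit 0), [⟨(nat_lit 0), (nat_lit 100), (nat_lit 82), (nat_lit 87), (nat_lit 229127413)⟩], [], [], [],
 ⟨⟨[(nat_lit 40), (nat_lit 80), (nat_lit 100)], [(nat_lit 0), (nat_lit 0), (nat_lit 1280)], [((nat_lit 0), (nat_lit 0), (nat_lit 0)), ((nat_lit 0), (nat_lit 0), (nat_lit 0)), ((nat_lit 1000), (nat_lit 800), (nat_lit 600))], ((nat_lit 81), (nat_lit 100), (nat_lit 48))⟩, (nat_lit 0), (nat_lit 160), (nat_lit 160), (nat_lit 0), (nat_lit 260020), [(nat_lit 1795534562), (nat_lit 1854907055), (nat_lit 843380400)], [(nat_lit 0), (nat_lit 0), (nat_lit 0)], [(nat_lit 16322333169), (nat_lit 17240517117), (nat_lit 16122772849), (nat_lit 16980552130), (nat_lit 19711463014), (nat_lit 20654907884), (nat_lit 19161714941), (nat_lit 20044637193)], (nat_lit 1271251), (nat_lit 1271251), (nat_lit 356250), (nat_lit 780000), (nat_lit 780000), (nat_lit 1762501), [(nat_lit 490000), (nat_lit 1100000), (nat_lit 1442501)], [(nat_lit 3), (nat_lit 50), (nat_lit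 317), (nat_lit 100), (nat_lit 12)]⟩,
 ⟨⟨[(nat_lit 80), (nat_lit 120), (nat_lit 140)], [(nat_lit 0), (nat_lit 0), (nat_lit 1164)], [((nat_lit 0), (nat_lit 0), (nat_lit 0)), ((nat_lit 0), (nat_lit 0), (nat_lit 0)), ((nat_lit 941), (nat_lit 1000), (nat_lit 576))], ((nat_lit 100), (nat_lit 98), (nat_lit 48))⟩, (nat_lit 0), (nat_lit 327), (nat_lit 327), (nat_lit 0), (nat_lit 180039), [(nat_lit 1275136000), (nat_lit 2167296000), (nat_lit 2677024000)], [], [(nat_lit 9603418436), (nat_lit 9279247026), (nat_lit 10400737004), (nat_lit 8399007304), (nat_lit 10793041535), (nat_lit 7632384190), (nat_lit 12261987800), (nat_lit 9163339707)], (nat_lit 1271251), (nat_lit 1271251), (nat_lit 356250), (nat_lit 780000), (nat_lit 0), (nat_lit 780000), [(nat_lit 1100000), (nat_lit 1785001), (nat_lit 1271251)], [(nat_lit 17), (nat_lit 58), (nat_lit 373), (nat_lit 150), (nat_lit 11)]⟩,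
 ⟨⟨[(nat_lit 120), (nat_lit 140), (nat_lit 160)], [(nat_lit 0), (nat_lit 266), (nat_lit 862)], [((nat_lit 0), (nat_lit 0), (nat_lit 0)), ((nat_lit 960), (nat_lit 1000), (nat_lit 200)), ((nat_lit 874), (nat_lit 1000), (nat_lit 406))], ((nat_lit 100), (nat_lit 83), (nat_lit 48))⟩, (nat_lit 135727), (nat_lit 300), (nat_lit 732), (nat_lit 7615719), (nat_lit 876548), [(nat_lit 892416000), (nat_lit 1102304000), (nat_lit 1329664000)], [], [(nat_lit 5387194087), (nat_lit 5320753581), (nat_lit 5319892164), (nat_lit 4971828762), (nat_lit 4493799911), (nat_lit 4424778673), (nat_lit 5929426635), (nat_lit 4689932073)], (nat_lit 1271251), (nat_lit 1271251), (nat_lit 780000), (nat_lit 1762501), (nat_lit 0), (nat_lit 780000), [(nat_lit 1695001), (nat_lit 1271251), (nat_lit 1271251)], [(nat_lit 27), (nat_lit 62), (nat_lit 373), (nat_lit 150), (nat_lit 10)]⟩⟩) (.trZ (nat_lit 0) (nat_lit 1) (nat_lit 3) (nat_lit 100) (nat_lit 78) (nat_lit 81) (nat_lit 70) (.leaf ⟨(nat_lit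 693), (nat_lit 180), (nat_lit 0), (nat_lit 127), (nat_lit 0), (nat_lit 4505), (nat_lit 5053), (nat_lit 1264), (nat_lit 0), (nat_lit 0), (nat_lit 173250), [((nat_lit 340), [((nat_lit 18), (nat_lit 0), (nat_lit 693))])], ⟨(nat_lit 6), false, false, false, (nat_lit 157), (nat_lit 3872), (nat_lit 4184), [(nat_lit 1327983), (nat_lit 1333871), (nat_lit 1371306), (nat_lit 1377448), (nat_lit 1410806), (nat_lit 1414527), (nat_lit 1454130), (nat_lit 1458104)]⟩, ⟨(nat_lit 4), false, false, false, (nat_lit 187), (nat_lit 3872), (nat_lit 4184), [(nat_lit 1345820), (nat_lit 1349161), (nat_lit 1389144), (nat_lit 1392739), (nat_lit 1544587), (nat_lit 1542727), (nat_lit 1587919), (nat_lit 1586312)]⟩, (nat_lit 4421880), (nat_lit 46558770), (nat_lit 8850018), (nat_lit 11591212), (nat_lit 4), (nat_lit 0), [⟨(nat_lit 0), (nat_lit 100), (nat_lit 77), (nat_lit 91), (nat_lit 141992176)⟩], [], [], [],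
 ⟨⟨[(nat_lit 40), (nat_lit 60), (nat_lit 80)], [(nat_lit 0), (nat_lit 197), (nat_lit 800)], [((nat_lit 0), (nat_lit 0), (nat_lit 0)), ((nat_lit 1000), (nat_lit 908), (nat_lit 154)), ((nat_lit 1000), (nat_lit 781), (nat_lit 471))], ((nat_lit 78), (nat_lit 100), (nat_lit 49))⟩, (nat_lit 1165645), (nat_lit 152), (nat_lit 152), (nat_lit 0), (nat_lit 289630), [(nat_lit 1632281217), (nat_lit 2228640055), (nat_lit 2941640000)], [(nat_lit 0), (nat_lit 0), (nat_lit 0)], [(nat_lit 16880381578), (nat_lit 17929606178), (nat_lit 17137246194), (nat_lit 17915215650), (nat_lit 20277695454), (nat_lit 21220605272), (nat_lit 20064728739), (nat_lit 20954027298)], (nat_lit 1271251), (nat_lit 1271251), (nat_lit 422188), (nat_lit 780000), (nat_lit 780000), (nat_lit 1762501), [(nat_lit 490000), (nat_lit 780000), (nat_lit 1100000)], [(nat_lit 2), (nat_lit 44), (nat_lit 317), (nat_lit 100), (nat_lit 14)]⟩,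
 ⟨⟨[(nat_lit 80), (nat_lit 120), (nat_lit 140)], [(nat_lit 0), (nat_lit 0), (nat_lit 1164)], [((nat_lit 0), (nat_lit 0), (nat_lit 0)), ((nat_lit 0), (nat_lit 0), (nat_lit 0)), ((nat_lit 941), (nat_lit 1000), (nat_lit 576))], ((nat_lit 100), (nat_lit 98), (nat_lit 48))⟩, (nat_lit 1410430), (nat_lit 329), (nat_lit 329), (nat_lit 0), (nat_lit 209386), [(nat_lit 1439216000), (nat_lit 2446176000), (nat_lit 3021494000)], [], [(nat_lit 9462227313), (nat_lit 9021245991), (nat_lit 11022502174), (nat_lit 7993494146), (nat_lit 11681762253), (nat_lit 6997640727), (nat_lit 13486146280), (nat_lit 8878297895)], (nat_lit 1271251), (nat_lit 1271251), (nat_lit 422188), (nat_lit 780000), (nat_lit 0), (nat_lit 780000), [(nat_lit 1100000), (nat_lit 1785001), (nat_lit 1271251)], [(nat_lit 17), (nat_lit 58), (nat_lit 373), (nat_lit 150), (nat_lit 11)]⟩,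
 ⟨⟨[(nat_lit 120), (nat_lit 140), (nat_lit 160)], [(nat_lit 0), (nat_lit 266), (nat_lit 862)], [((nat_lit 0), (nat_lit 0), (nat_lit 0)), ((nat_lit 960), (nat_lit 1000), (nat_lit 200)), ((nat_lit 874), (nat_lit 1000), (nat_lit 406))], ((nat_lit 100), (nat_lit 83), (nat_lit 48))⟩, (nat_lit 260684), (nat_lit 300), (nat_lit 827), (nat_lit 8432801), (nat_lit 1063062), [(nat_lit 1011936000), (nat_lit 1249934000), (nat_lit 1507744000)], [], [(nat_lit 6813683697), (nat_lit 6726921542), (nat_lit 6452799306), (nat_lit 6355012622), (nat_lit 6014710779), (nat_lit 5923918224), (nat_lit 6535476984), (nat_lit 5557131709)], (nat_lit 1271251), (nat_lit 1271251), (nat_lit 780000), (nat_lit 1762501), (nat_lit 0), (nat_lit 780000), [(nat_lit 1695001), (nat_lit 1271251), (nat_lit 1271251)], [(nat_lit 27), (nat_lit 62), (nat_lit 373), (nat_lit 150), (nat_lit 10)]⟩⟩))) (.leaf ⟨(nat_lit 893), (nat_lit 0), (nat_lit 0), (nat_lit 107), (nat_lit 0), (nat_lit 4392), (nat_lit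 1383), (nat_lit 963), (nat_lit 0), (nat_lit 0), (nat_lit 893000), [((nat_lit 340), [((nat_lit 18), (nat_lit 2), (nat_lit 893))])], ⟨(nat_lit 6), false, false, false, (nat_lit 153), (nat_lit 3872), (nat_lit 4473), [(nat_lit 1305146), (nat_lit 1317698), (nat_lit 1348244), (nat_lit 1361249), (nat_lit 1407125), (nat_lit 1414492), (nat_lit 1450223), (nat_lit 1458043)]⟩, ⟨(nat_lit 4), false, false, false, (nat_lit 187), (nat_lit 3872), (nat_lit 4473), [(nat_lit 1342475), (nat_lit 1349162), (nat_lit 1385576), (nat_lit 1392716), (nat_lit 1546410), (nat_lit 1542727), (nat_lit 1589534), (nat_lit 1586304)]⟩, (nat_lit 4375005), (nat_lit 46886870), (nat_lit 8502699), (nat_lit 11610431), (nat_lit 0), (nat_lit 0), [⟨(nat_lit 0), (nat_lit 100), (nat_lit 80), (nat_lit 89), (nat_lit 390464635)⟩], [], [], [],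
 ⟨⟨[(nat_lit 40), (nat_lit 80), (nat_lit 100)], [(nat_lit 0), (nat_lit 0), (nat_lit 1280)], [((nat_lit 0), (nat_lit 0), (nat_lit 0)), ((nat_lit 0), (nat_lit 0), (nat_lit 0)), ((nat_lit 1000), (nat_lit 800), (nat_lit 600))], ((nat_lit 81), (nat_lit 100), (nat_lit 48))⟩, (nat_lit 0), (nat_lit 175), (nat_lit 175), (nat_lit 0), (nat_lit 291950), [(nat_lit 1814473756), (nat_lit 1341124076), (nat_lit 272972400)], [(nat_lit 0), (nat_lit 0), (nat_lit 0)], [(nat_lit 16205445460), (nat_lit 18270248103), (nat_lit 16238989952), (nat_lit 17687160624), (nat_lit 19662878232), (nat_lit 21533304948), (nat_lit 19138859312), (nat_lit 20891887524)], (nat_lit 1271251), (nat_lit 1271251), (nat_lit 356250), (nat_lit 780000), (nat_lit 780000), (nat_lit 1762501), [(nat_lit 490000), (nat_lit 1100000), (nat_lit 1442501)], [(nat_lit 3), (nat_lit 50), (nat_lit 317), (nat_lit 100), (nat_lit 12)]⟩,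
 ⟨⟨[(nat_lit 80), (nat_lit 120), (nat_lit 140)], [(nat_lit 0), (nat_lit 0), (nat_lit 1164)], [((nat_lit 0), (nat_lit 0), (nat_lit 0)), ((nat_lit 0), (nat_lit 0), (nat_lit 0)), ((nat_lit 941), (nat_lit 1000), (nat_lit 576))], ((nat_lit 100), (nat_lit 98), (nat_lit 48))⟩, (nat_lit 0), (nat_lit 339), (nat_lit 339), (nat_lit 0), (nat_lit 405881), [(nat_lit 501616000), (nat_lit 852576000), (nat_lit 1053094000)], [], [(nat_lit 4536389575), (nat_lit 3095258627), (nat_lit 2369186393), (nat_lit 2296169017), (nat_lit 5172796858), (nat_lit 4795477380), (nat_lit 5839406770), (nat_lit 4626056614)], (nat_lit 1271251), (nat_lit 1271251), (nat_lit 356250), (nat_lit 780000), (nat_lit 780000), (nat_lit 3072501), [(nat_lit 1100000), (nat_lit 1785001), (nat_lit 1271251)], [(nat_lit 17), (nat_lit 58), (nat_lit 428), (nat_lit 200), (nat_lit 12)]⟩,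
 ⟨⟨[(nat_lit 120), (nat_lit 140), (nat_lit 160)], [(nat_lit 0), (nat_lit 266), (nat_lit 862)], [((nat_lit 0), (nat_lit 0), (nat_lit 0)), ((nat_lit 960), (nat_lit 1000), (nat_lit 200)), ((nat_lit 874), (nat_lit 1000), (nat_lit 406))], ((nat_lit 100), (nat_lit 83), (nat_lit 48))⟩, (nat_lit 219632), (nat_lit 300), (nat_lit 1014), (nat_lit 7104800), (nat_lit 1656453), [(nat_lit 852576000), (nat_lit 1053094000), (nat_lit 1270304000)], [], [(nat_lit 6040055172), (nat_lit 5788937310), (nat_lit 5573917873), (nat_lit 5488592512), (nat_lit 5457082864), (nat_lit 5360064356), (nat_lit 6567694342), (nat_lit 5743632130)], (nat_lit 1271251), (nat_lit 1271251), (nat_lit 780000), (nat_lit 1762501), (nat_lit 780000), (nat_lit 3072501), [(nat_lit 1695001), (nat_lit 1271251), (nat_lit 1271251)], [(nat_lit 27), (nat_lit 62), (nat_lit 456), (nat_lit 225), (nat_lit 12)]⟩⟩)) (.spl (nat_lit 5) (nat_lit 120) (.spl (nat_lit 0) (nat_lit 330) (.spl (nat_lit 6) (nat_lit 32) (.leaf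 ⟨(nat_lit 0), (nat_lit 752), (nat_lit 0), (nat_lit 248), (nat_lit 39808), (nat_lit 6638), (nat_lit 7638), (nat_lit 2899), (nat_lit 0), (nat_lit 0), (nat_lit 0), [], Pd.none, Pd.none, (nat_lit 0), (nat_lit 1), (nat_lit 0), (nat_lit 0), (nat_lit 4), (nat_lit 0), [⟨(nat_lit 0), (nat_lit 100), (nat_lit 82), (nat_lit 87), (nat_lit 1063393399)⟩], [], [⟨(nat_lit 0), (nat_lit 100), (nat_lit 95), (nat_lit 30), (nat_lit 120081114)⟩], [],
 ⟨⟨[(nat_lit 40), (nat_lit 80), (nat_lit 100)], [(nat_lit 0), (nat_lit 0), (nat_lit 1280)], [((nat_lit 0), (nat_lit 0), (nat_lit 0)), ((nat_lit 0), (nat_lit 0), (nat_lit 0)), ((nat_lit 1000), (nat_lit 800), (nat_lit 600))], ((nat_lit 80), (nat_lit 100), (nat_lit 54))⟩, (nat_lit 0), (nat_lit 144), (nat_lit 144), (nat_lit 0), (nat_lit 53232), [(nat_lit 3246385389), (nat_lit 4688000001), (nat_lit 6250000000)], [], [(nat_lit 17713477299), (nat_lit 18985410442), (nat_lit 16882896641), (nat_lit 18065227570), (nat_lit 21321489959),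 (nat_lit 22502709417), (nat_lit 20282714213), (nat_lit 21232227473)], (nat_lit 1271251), (nat_lit 1271251), (nat_lit 356250), (nat_lit 780000), (nat_lit 780000), (nat_lit 1762501), [(nat_lit 490000), (nat_lit 1100000), (nat_lit 1442501)], [(nat_lit 3), (nat_lit 50), (nat_lit 317), (nat_lit 100), (nat_lit 12)]⟩,
 ⟨⟨[(nat_lit 80), (nat_lit 120), (nat_lit 140)], [(nat_lit 0), (nat_lit 0), (nat_lit 1164)], [((nat_lit 0), (nat_lit 0), (nat_lit 0)), ((nat_lit 0), (nat_lit 0), (nat_lit 0)), ((nat_lit 941), (nat_lit 1000), (nat_lit 576))], ((nat_lit 100), (nat_lit 95), (nat_lit 55))⟩, (nat_lit 4533760), (nat_lit 242), (nat_lit 242), (nat_lit 0), (nat_lit 38257), [(nat_lit 4688000000), (nat_lit 7968000000), (nat_lit 9842000000)], [], [(nat_lit 21834838446), (nat_lit 25768124663), (nat_lit 20548865400), (nat_lit 24007123318), (nat_lit 17953595011), (nat_lit 20982308931), (nat_lit 20976847030), (nat_lit 20092866224)], (nat_lit 1271251), (nat_lit 1271251), (nat_lit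 356250), (nat_lit 780000), (nat_lit 0), (nat_lit 780000), [(nat_lit 1100000), (nat_lit 1785001), (nat_lit 1271251)], [(nat_lit 17), (nat_lit 58), (nat_lit 373), (nat_lit 150), (nat_lit 11)]⟩,
 ⟨⟨[(nat_lit 120), (nat_lit 160), (nat_lit 180)], [(nat_lit 0), (nat_lit 533), (nat_lit 2066)], [((nat_lit 0), (nat_lit 0), (nat_lit 0)), ((nat_lit 960), (nat_lit 1000), (nat_lit 200)), ((nat_lit 615), (nat_lit 1000), (nat_lit 729))], ((nat_lit 100), (nat_lit 79), (nat_lit 55))⟩, (nat_lit 580683), (nat_lit 300), (nat_lit 446), (nat_lit 16467200), (nat_lit 158858), [(nat_lit 1976064000), (nat_lit 2944256000), (nat_lit 3486384000)], [], [(nat_lit 12760472869), (nat_lit 12706306175), (nat_lit 12190709143), (nat_lit 12095739392), (nat_lit 10478569428), (nat_lit 10425055584), (nat_lit 13135637803), (nat_lit 10384263580)], (nat_lit 1271251), (nat_lit 1271251), (nat_lit 780000), (nat_lit 1762501), (nat_lit 0), (nat_lit 780000), [(nat_lit 1695001), (nat_lit 1271251),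 (nat_lit 1271251)], [(nat_lit 28), (nat_lit 65), (nat_lit 373), (nat_lit 150), (nat_lit 9)]⟩⟩) (.dle (nat_lit 0))) (.trZ (nat_lit 0) (nat_lit 1) (nat_lit 3) (nat_lit 100) (nat_lit 78) (nat_lit 81) (nat_lit 70) (.leaf ⟨(nat_lit 770), (nat_lit 127), (nat_lit 0), (nat_lit 103), (nat_lit 9694), (nat_lit 4554), (nat_lit 2569), (nat_lit 1398), (nat_lit 0), (nat_lit 0), (nat_lit 192500), [((nat_lit 340), [((nat_lit 19), (nat_lit 0), (nat_lit 770))])], ⟨(nat_lit 6), false, false, false, (nat_lit 157), (nat_lit 3872), (nat_lit 4184), [(nat_lit 1327983), (nat_lit 1333871), (nat_lit 1371306), (nat_lit 1377448), (nat_lit 1410806), (nat_lit 1414527), (nat_lit 1454130), (nat_lit 1458104)]⟩, ⟨(nat_lit 4), false, false, false, (nat_lit 187), (nat_lit 3872), (nat_lit 4184), [(nat_lit 1345820), (nat_lit 1349161), (nat_lit 1389144), (nat_lit 1392739), (nat_lit 1544587), (nat_lit 1542727), (nat_lit 1587919), (nat_lit 1586312)]⟩, (nat_lit 4421880), (nat_lit 46558770),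 (nat_lit 8850018), (nat_lit 11591212), (nat_lit 4), (nat_lit 0), [⟨(nat_lit 0), (nat_lit 100), (nat_lit 77), (nat_lit 91), (nat_lit 369141101)⟩], [], [], [],
 ⟨⟨[(nat_lit 40), (nat_lit 80), (nat_lit 100)], [(nat_lit 0), (nat_lit 395), (nat_lit 1536)], [((nat_lit 0), (nat_lit 0), (nat_lit 0)), ((nat_lit 1000), (nat_lit 908), (nat_lit 154)), ((nat_lit 1000), (nat_lit 760), (nat_lit 642))], ((nat_lit 76), (nat_lit 100), (nat_lit 63))⟩, (nat_lit 1349917), (nat_lit 137), (nat_lit 137), (nat_lit 0), (nat_lit 95137), [(nat_lit 1796014782), (nat_lit 2753586527), (nat_lit 3397920000)], [(nat_lit 0), (nat_lit 0), (nat_lit 0)], [(nat_lit 17368018006), (nat_lit 18290519715), (nat_lit 17398289890), (nat_lit 18266496798), (nat_lit 20393827278), (nat_lit 21261951074), (nat_lit 20271695368), (nat_lit 20981422416)], (nat_lit 1271251), (nat_lit 1271251), (nat_lit 422188), (nat_lit 780000), (nat_lit 780000), (nat_lit 1762501), [(nat_lit 490000), (nat_lit 1100000),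 (nat_lit 1442501)], [(nat_lit 3), (nat_lit 50), (nat_lit 317), (nat_lit 100), (nat_lit 12)]⟩,
 ⟨⟨[(nat_lit 80), (nat_lit 120), (nat_lit 160)], [(nat_lit 0), (nat_lit 0), (nat_lit 2132)], [((nat_lit 0), (nat_lit 0), (nat_lit 0)), ((nat_lit 0), (nat_lit 0), (nat_lit 0)), ((nat_lit 858), (nat_lit 1000), (nat_lit 713))], ((nat_lit 100), (nat_lit 91), (nat_lit 64))⟩, (nat_lit 277509), (nat_lit 344), (nat_lit 344), (nat_lit 0), (nat_lit 73441), [(nat_lit 1078240000), (nat_lit 1832640000), (nat_lit 2730560000)], [], [(nat_lit 8074749825), (nat_lit 8498344905), (nat_lit 8973805290), (nat_lit 8015832064), (nat_lit 9433809216), (nat_lit 7052351033), (nat_lit 10456972428), (nat_lit 8114292337)], (nat_lit 1271251), (nat_lit 1271251), (nat_lit 422188), (nat_lit 780000), (nat_lit 0), (nat_lit 780000), [(nat_lit 1100000), (nat_lit 1785001), (nat_lit 1271251)], [(nat_lit 18), (nat_lit 59), (nat_lit 373), (nat_lit 150), (nat_lit 10)]⟩,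
 ⟨⟨[(nat_lit 120), (nat_lit 160), (nat_lit 180)], [(nat_lit 0), (nat_lit 533), (nat_lit 2066)], [((nat_lit 0), (nat_lit 0), (nat_lit 0)), ((nat_lit 960), (nat_lit 1000), (nat_lit 200)), ((nat_lit 615), (nat_lit 1000), (nat_lit 729))], ((nat_lit 100), (nat_lit 72), (nat_lit 63))⟩, (nat_lit 241171), (nat_lit 300), (nat_lit 562), (nat_lit 6839200), (nat_lit 341145), [(nat_lit 820704000), (nat_lit 1222816000), (nat_lit 1447974000)], [], [(nat_lit 5455174626), (nat_lit 5367678094), (nat_lit 5031923547), (nat_lit 4948943702), (nat_lit 4344097573), (nat_lit 4257509095), (nat_lit 5623714397), (nat_lit 4296904751)], (nat_lit 1271251), (nat_lit 1271251), (nat_lit 780000), (nat_lit 1762501), (nat_lit 0), (nat_lit 780000), [(nat_lit 1695001), (nat_lit 1271251), (nat_lit 1271251)], [(nat_lit 28), (nat_lit 65), (nat_lit 373), (nat_lit 150), (nat_lit 9)]⟩⟩))) (.leaf ⟨(nat_lit 0), (nat_lit 236), (nat_lit 0), (nat_lit 764), (nat_lit 43589), (nat_lit 6883), (nat_lit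 7437), (nat_lit 5769), (nat_lit 0), (nat_lit 0), (nat_lit 0), [], Pd.none, Pd.none, (nat_lit 0), (nat_lit 1), (nat_lit 0), (nat_lit 0), (nat_lit 4), (nat_lit 0), [⟨(nat_lit 0), (nat_lit 100), (nat_lit 80), (nat_lit 89), (nat_lit 2329747641)⟩], [], [], [],
 ⟨⟨[(nat_lit 40), (nat_lit 80), (nat_lit 120)], [(nat_lit 0), (nat_lit 0), (nat_lit 2151)], [((nat_lit 0), (nat_lit 0), (nat_lit 0)), ((nat_lit 0), (nat_lit 0), (nat_lit 0)), ((nat_lit 1000), (nat_lit 815), (nat_lit 753))], ((nat_lit 80), (nat_lit 100), (nat_lit 63))⟩, (nat_lit 2939144), (nat_lit 147), (nat_lit 147), (nat_lit 0), (nat_lit 96449), [(nat_lit 3118691046), (nat_lit 4688000017), (nat_lit 7968000000)], [], [(nat_lit 18176931990), (nat_lit 20747196372), (nat_lit 17043558068), (nat_lit 19105614518), (nat_lit 21469216918), (nat_lit 23951724059), (nat_lit 20090284859), (nat_lit 22261712089)], (nat_lit 1271251), (nat_lit 1271251), (nat_lit 356250), (nat_lit 780000), (nat_lit 780000), (nat_lit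 1762501), [(nat_lit 490000), (nat_lit 1100000), (nat_lit 1785001)], [(nat_lit 4), (nat_lit 51), (nat_lit 317), (nat_lit 100), (nat_lit 10)]⟩,
 ⟨⟨[(nat_lit 80), (nat_lit 120), (nat_lit 160)], [(nat_lit 0), (nat_lit 0), (nat_lit 2132)], [((nat_lit 0), (nat_lit 0), (nat_lit 0)), ((nat_lit 0), (nat_lit 0), (nat_lit 0)), ((nat_lit 858), (nat_lit 1000), (nat_lit 713))], ((nat_lit 100), (nat_lit 91), (nat_lit 64))⟩, (nat_lit 1400341), (nat_lit 248), (nat_lit 248), (nat_lit 0), (nat_lit 136901), [(nat_lit 4688000000), (nat_lit 7968000000), (nat_lit 11872000000)], [], [(nat_lit 36867638736), (nat_lit 29118043033), (nat_lit 25213632907), (nat_lit 26734303054), (nat_lit 46560582158), (nat_lit 40009305582), (nat_lit 50864957726), (nat_lit 44340239642)], (nat_lit 1271251), (nat_lit 1271251), (nat_lit 356250), (nat_lit 780000), (nat_lit 780000), (nat_lit 3072501), [(nat_lit 1100000), (nat_lit 1785001), (nat_lit 1271251)], [(nat_lit 18), (nat_lit 59), (nat_lit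 428), (nat_lit 200), (nat_lit 11)]⟩,
 ⟨⟨[(nat_lit 120), (nat_lit 160), (nat_lit 180)], [(nat_lit 0), (nat_lit 533), (nat_lit 2066)], [((nat_lit 0), (nat_lit 0), (nat_lit 0)), ((nat_lit 960), (nat_lit 1000), (nat_lit 200)), ((nat_lit 615), (nat_lit 1000), (nat_lit 729))], ((nat_lit 100), (nat_lit 72), (nat_lit 63))⟩, (nat_lit 1788878), (nat_lit 300), (nat_lit 514), (nat_lit 50729601), (nat_lit 520109), [(nat_lit 6087552000), (nat_lit 9070208000), (nat_lit 10740312000)], [], [(nat_lit 39623950834), (nat_lit 39592735078), (nat_lit 38845339744), (nat_lit 38717135791), (nat_lit 40897079694), (nat_lit 40552895236), (nat_lit 41738538290), (nat_lit 38947424727)], (nat_lit 1271251), (nat_lit 1271251), (nat_lit 780000), (nat_lit 1762501), (nat_lit 780000), (nat_lit 3072501), [(nat_lit 1695001), (nat_lit 1271251), (nat_lit 1271251)], [(nat_lit 28), (nat_lit 65), (nat_lit 456), (nat_lit 225), (nat_lit 10)]⟩⟩)))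
noncomputable def c11_24 : Tr Lf :=
 (.trX (nat_lit 5) (nat_lit 1) (nat_lit 2) (nat_lit 92) (nat_lit 49) (nat_lit 100) (nat_lit 380) (.stt (nat_lit 3) (.leaf ⟨(nat_lit 392), (nat_lit 433), (nat_lit 0), (nat_lit 175), (nat_lit 0), (nat_lit 5547), (nat_lit 5272), (nat_lit 2699), (nat_lit 0), (nat_lit 0), (nat_lit 974000), [((nat_lit 340), [((nat_lit 19), (nat_lit 2), (nat_lit 198)), ((nat_lit 37), (nat_lit 5), (nat_lit 194))])], ⟨(nat_lit 7), false, false, false, (nat_lit 184), (nat_lit 3872), (nat_lit 4473), [(nat_lit 1416230), (nat_lit 1425778), (nat_lit 1459327), (nat_lit 1469330), (nat_lit 1450223), (nat_lit 1458043), (nat_lit 1493321), (nat_lit 1501595)]⟩, ⟨(nat_lit 3), true, false, true, (nat_lit 165), (nat_lit 3872), (nat_lit 4473), [(nat_lit 1277776), (nat_lit 1283782), (nat_lit 1342475), (nat_lit 1349162), (nat_lit 1481711), (nat_lit 1477347), (nat_lit 1546410), (nat_lit 1542727)]⟩, (nat_lit 4470426), (nat_lit 46254223), (nat_lit 11242274),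 (nat_lit 9503503), (nat_lit 3), (nat_lit 0), [⟨(nat_lit 0), (nat_lit 100), (nat_lit 87), (nat_lit 95), (nat_lit 550523309)⟩], [], [], [],
 ⟨⟨[(nat_lit 40), (nat_lit 80), (nat_lit 120)], [(nat_lit 0), (nat_lit 0), (nat_lit 2151)], [((nat_lit 0), (nat_lit 0), (nat_lit 0)), ((nat_lit 0), (nat_lit 0), (nat_lit 0)), ((nat_lit 1000), (nat_lit 815), (nat_lit 753))], ((nat_lit 80), (nat_lit 100), (nat_lit 63))⟩, (nat_lit 3485), (nat_lit 267), (nat_lit 267), (nat_lit 0), (nat_lit 424840), [(nat_lit 2167662351), (nat_lit 2383460838), (nat_lit 264270388)], [(nat_lit 0), (nat_lit 0), (nat_lit 0)], [(nat_lit 16444914175), (nat_lit 18288366940), (nat_lit 16534722160), (nat_lit 18344705878), (nat_lit 19466028084), (nat_lit 21536027192), (nat_lit 19512658892), (nat_lit 21527032997)], (nat_lit 1271251), (nat_lit 1271251), (nat_lit 631250), (nat_lit 780000), (nat_lit 780000), (nat_lit 1762501), [(nat_lit 490000), (nat_lit 1100000), (nat_lit 1785001)], [(nat_lit 4),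 (nat_lit 51), (nat_lit 317), (nat_lit 100), (nat_lit 10)]⟩,
 ⟨⟨[(nat_lit 60), (nat_lit 100), (nat_lit 140)], [(nat_lit 0), (nat_lit 0), (nat_lit 2047)], [((nat_lit 0), (nat_lit 0), (nat_lit 0)), ((nat_lit 0), (nat_lit 0), (nat_lit 0)), ((nat_lit 1000), (nat_lit 993), (nat_lit 781))], ((nat_lit 95), (nat_lit 100), (nat_lit 65))⟩, (nat_lit 721), (nat_lit 451), (nat_lit 451), (nat_lit 0), (nat_lit 475012), [(nat_lit 1995456000), (nat_lit 3800000000), (nat_lit 5983936000)], [], [(nat_lit 19535149796), (nat_lit 20979311529), (nat_lit 19420926513), (nat_lit 20819608225), (nat_lit 23456773290), (nat_lit 22895456533), (nat_lit 24656869596), (nat_lit 22557797809)], (nat_lit 1271251), (nat_lit 1271251), (nat_lit 631250), (nat_lit 780000), (nat_lit 0), (nat_lit 2683751), [(nat_lit 780000), (nat_lit 1435001), (nat_lit 1271251)], [(nat_lit 11), (nat_lit 55), (nat_lit 345), (nat_lit 125), (nat_lit 10)]⟩,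
 ⟨⟨[(nat_lit 140), (nat_lit 180), (nat_lit 200)], [(nat_lit 0), (nat_lit 0), (nat_lit 2835)], [((nat_lit 0), (nat_lit 0), (nat_lit 0)), ((nat_lit 0), (nat_lit 0), (nat_lit 0)), ((nat_lit 363), (nat_lit 1000), (nat_lit 798))], ((nat_lit 0), (nat_lit 0), (nat_lit 0))⟩, (nat_lit 48148), (nat_lit 300), (nat_lit 491), (nat_lit 13667503), (nat_lit 0), [(nat_lit 1722350000), (nat_lit 2460150000), (nat_lit 2870000000)], [], [(nat_lit 12237666822), (nat_lit 11748985604), (nat_lit 11421851048), (nat_lit 10904397859), (nat_lit 9589702040), (nat_lit 8993717516), (nat_lit 8512200870), (nat_lit 7904334871)], (nat_lit 0), (nat_lit 0), (nat_lit 0), (nat_lit 0), (nat_lit 0), (nat_lit 0), [], [(nat_lit 32), (nat_lit 67), (nat_lit 428), (nat_lit 200), (nat_lit 9)]⟩⟩) (.spl (nat_lit 2) (nat_lit 160) (.trX (nat_lit 5) (nat_lit 1) (nat_lit 2) (nat_lit 94) (nat_lit 59) (nat_lit 100) (nat_lit 370) (.spl (nat_lit 4) (nat_lit 200) (.spl (nat_lit 5) (nat_lit 200) (.leaf ⟨(nat_lit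 0), (nat_lit 1000), (nat_lit 0), (nat_lit 0), (nat_lit 0), (nat_lit 8759), (nat_lit 12916), (nat_lit 0), (nat_lit 0), (nat_lit 0), (nat_lit 0), [], Pd.none, Pd.none, (nat_lit 0), (nat_lit 1), (nat_lit 0), (nat_lit 0), (nat_lit 3), (nat_lit 0), [⟨(nat_lit 0), (nat_lit 100), (nat_lit 87), (nat_lit 95), (nat_lit 835754033)⟩], [], [], [],
 ⟨⟨[(nat_lit 40), (nat_lit 80), (nat_lit 120)], [(nat_lit 0), (nat_lit 0), (nat_lit 2151)], [((nat_lit 0), (nat_lit 0), (nat_lit 0)), ((nat_lit 0), (nat_lit 0), (nat_lit 0)), ((nat_lit 1000), (nat_lit 815), (nat_lit 753))], ((nat_lit 80), (nat_lit 100), (nat_lit 63))⟩, (nat_lit 2172692), (nat_lit 182), (nat_lit 182), (nat_lit 0), (nat_lit 292967), [(nat_lit 2871676451), (nat_lit 5087261890), (nat_lit 7968000000)], [], [(nat_lit 17583903389), (nat_lit 20364981500), (nat_lit 17463723984), (nat_lit 20173307917), (nat_lit 18728130045), (nat_lit 21767155646), (nat_lit 18544490325), (nat_lit 21541651531)], (nat_lit 1271251),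 (nat_lit 1271251), (nat_lit 631250), (nat_lit 780000), (nat_lit 780000), (nat_lit 1435001), [(nat_lit 490000), (nat_lit 1100000), (nat_lit 1785001)], [(nat_lit 4), (nat_lit 51), (nat_lit 317), (nat_lit 100), (nat_lit 10)]⟩,
 ⟨⟨[(nat_lit 60), (nat_lit 100), (nat_lit 140)], [(nat_lit 0), (nat_lit 0), (nat_lit 2047)], [((nat_lit 0), (nat_lit 0), (nat_lit 0)), ((nat_lit 0), (nat_lit 0), (nat_lit 0)), ((nat_lit 1000), (nat_lit 993), (nat_lit 781))], ((nat_lit 95), (nat_lit 100), (nat_lit 65))⟩, (nat_lit 2767557), (nat_lit 357), (nat_lit 357), (nat_lit 0), (nat_lit 321904), [(nat_lit 3282000000), (nat_lit 6250000000), (nat_lit 9842000000)], [], [(nat_lit 25347255851), (nat_lit 31677792144), (nat_lit 24876138977), (nat_lit 31006366560), (nat_lit 16312664291), (nat_lit 19930659482), (nat_lit 18625411566), (nat_lit 19502487212)], (nat_lit 1271251), (nat_lit 1271251), (nat_lit 631250), (nat_lit 780000), (nat_lit 0), (nat_lit 1412501), [(nat_lit 780000), (nat_lit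 1435001), (nat_lit 1271251)], [(nat_lit 11), (nat_lit 55), (nat_lit 317), (nat_lit 100), (nat_lit 9)]⟩,
 Rw.none⟩) (.spl (nat_lit 0) (nat_lit 330) (.leaf ⟨(nat_lit 434), (nat_lit 566), (nat_lit 0), (nat_lit 0), (nat_lit 7140), (nat_lit 5618), (nat_lit 4499), (nat_lit 0), (nat_lit 0), (nat_lit 0), (nat_lit 716000), [((nat_lit 330), [((nat_lit 19), (nat_lit 2), (nat_lit 340)), ((nat_lit 37), (nat_lit 5), (nat_lit 94))])], ⟨(nat_lit 7), false, false, false, (nat_lit 183), (nat_lit 4183), (nat_lit 4473), [(nat_lit 1416301), (nat_lit 1421009), (nat_lit 1459427), (nat_lit 1464335), (nat_lit 1450291), (nat_lit 1454137), (nat_lit 1493417), (nat_lit 1497463)]⟩, ⟨(nat_lit 3), false, false, true, (nat_lit 147), (nat_lit 4183), (nat_lit 4473), [(nat_lit 1277776), (nat_lit 1280820), (nat_lit 1320909), (nat_lit 1324154), (nat_lit 1413733), (nat_lit 1413332), (nat_lit 1456866), (nat_lit 1456665)]⟩, (nat_lit 4273727), (nat_lit 47644484), (nat_lit 11303114), (nat_lit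 8052402), (nat_lit 5), (nat_lit 0), [⟨(nat_lit 0), (nat_lit 100), (nat_lit 87), (nat_lit 95), (nat_lit 464889153)⟩], [], [⟨(nat_lit 1), (nat_lit 59), (nat_lit 94), (nat_lit 100), (nat_lit 282925838)⟩], [],
 ⟨⟨[(nat_lit 40), (nat_lit 80), (nat_lit 120)], [(nat_lit 0), (nat_lit 0), (nat_lit 2151)], [((nat_lit 0), (nat_lit 0), (nat_lit 0)), ((nat_lit 0), (nat_lit 0), (nat_lit 0)), ((nat_lit 1000), (nat_lit 815), (nat_lit 753))], ((nat_lit 80), (nat_lit 100), (nat_lit 63))⟩, (nat_lit 719840), (nat_lit 170), (nat_lit 170), (nat_lit 0), (nat_lit 277030), [(nat_lit 2243890899), (nat_lit 2929964003), (nat_lit 1705598400)], [(nat_lit 0), (nat_lit 0), (nat_lit 0)], [(nat_lit 16298334722), (nat_lit 17229886980), (nat_lit 16383246912), (nat_lit 17289693086), (nat_lit 17735132811), (nat_lit 18869686577), (nat_lit 17819882226), (nat_lit 18923409744)], (nat_lit 1271251), (nat_lit 1271251), (nat_lit 631250), (nat_lit 780000), (nat_lit 780000), (nat_lit 1435001),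 [(nat_lit 490000), (nat_lit 1100000), (nat_lit 1785001)], [(nat_lit 4), (nat_lit 51), (nat_lit 317), (nat_lit 100), (nat_lit 10)]⟩,
 ⟨⟨[(nat_lit 60), (nat_lit 100), (nat_lit 140)], [(nat_lit 0), (nat_lit 0), (nat_lit 2047)], [((nat_lit 0), (nat_lit 0), (nat_lit 0)), ((nat_lit 0), (nat_lit 0), (nat_lit 0)), ((nat_lit 1000), (nat_lit 993), (nat_lit 781))], ((nat_lit 95), (nat_lit 100), (nat_lit 65))⟩, (nat_lit 1535328), (nat_lit 232), (nat_lit 232), (nat_lit 0), (nat_lit 295126), [(nat_lit 1857612000), (nat_lit 3537500000), (nat_lit 5570572000)], [], [(nat_lit 12367581366), (nat_lit 13647742887), (nat_lit 12286894444), (nat_lit 13527071944), (nat_lit 16809809612), (nat_lit 18334205688), (nat_lit 16586728288), (nat_lit 18069571122)], (nat_lit 1271251), (nat_lit 1271251), (nat_lit 631250), (nat_lit 780000), (nat_lit 1271251), (nat_lit 1271251), [(nat_lit 780000), (nat_lit 1435001), (nat_lit 1271251)], [(nat_lit 11), (nat_lit 55), (nat_lit 345), (nat_lit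 125), (nat_lit 9)]⟩,
 Rw.none⟩) (.trZ (nat_lit 0) (nat_lit 1) (nat_lit 3) (nat_lit 100) (nat_lit 83) (nat_lit 98) (nat_lit 110) (.leaf ⟨(nat_lit 74), (nat_lit 926), (nat_lit 0), (nat_lit 0), (nat_lit 0), (nat_lit 9192), (nat_lit 7361), (nat_lit 0), (nat_lit 0), (nat_lit 0), (nat_lit 18500), [((nat_lit 340), [((nat_lit 19), (nat_lit 0), (nat_lit 74))])], ⟨(nat_lit 7), false, false, false, (nat_lit 188), (nat_lit 3872), (nat_lit 4184), [(nat_lit 1437565), (nat_lit 1441972), (nat_lit 1480889), (nat_lit 1485550), (nat_lit 1454130), (nat_lit 1458104), (nat_lit 1497453), (nat_lit 1501681)]⟩, ⟨(nat_lit 3), false, false, true, (nat_lit 148), (nat_lit 3872), (nat_lit 4184), [(nat_lit 1280820), (nat_lit 1283782), (nat_lit 1324154), (nat_lit 1327369), (nat_lit 1413332), (nat_lit 1412825), (nat_lit 1456665), (nat_lit 1456412)]⟩, (nat_lit 4327572), (nat_lit 47179932), (nat_lit 11752832), (nat_lit 8067236), (nat_lit 5), (nat_lit 0), [⟨(nat_lit 0), (nat_lit 100),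 (nat_lit 83), (nat_lit 98), (nat_lit 803897084)⟩], [], [⟨(nat_lit 1), (nat_lit 59), (nat_lit 94), (nat_lit 100), (nat_lit 462439422)⟩], [],
 ⟨⟨[(nat_lit 40), (nat_lit 80), (nat_lit 100)], [(nat_lit 0), (nat_lit 395), (nat_lit 1536)], [((nat_lit 0), (nat_lit 0), (nat_lit 0)), ((nat_lit 1000), (nat_lit 908), (nat_lit 154)), ((nat_lit 1000), (nat_lit 760), (nat_lit 642))], ((nat_lit 76), (nat_lit 100), (nat_lit 63))⟩, (nat_lit 0), (nat_lit 152), (nat_lit 152), (nat_lit 0), (nat_lit 291380), [(nat_lit 2776066147), (nat_lit 5585975433), (nat_lit 5975904000)], [(nat_lit 0), (nat_lit 0), (nat_lit 0)], [(nat_lit 19014521192), (nat_lit 20532402944), (nat_lit 18957941971), (nat_lit 20419816224), (nat_lit 20303717066), (nat_lit 21880321068), (nat_lit 20197177089), (nat_lit 21750461234)], (nat_lit 1271251), (nat_lit 1271251), (nat_lit 704688), (nat_lit 780000), (nat_lit 780000), (nat_lit 1435001), [(nat_lit 490000), (nat_lit 1100000), (nat_lit 1442501)], [(nat_lit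 3), (nat_lit 50), (nat_lit 317), (nat_lit 100), (nat_lit 11)]⟩,
 ⟨⟨[(nat_lit 60), (nat_lit 100), (nat_lit 140)], [(nat_lit 0), (nat_lit 0), (nat_lit 2047)], [((nat_lit 0), (nat_lit 0), (nat_lit 0)), ((nat_lit 0), (nat_lit 0), (nat_lit 0)), ((nat_lit 1000), (nat_lit 993), (nat_lit 781))], ((nat_lit 95), (nat_lit 100), (nat_lit 65))⟩, (nat_lit 2505002), (nat_lit 237), (nat_lit 237), (nat_lit 0), (nat_lit 321634), [(nat_lit 3039132000), (nat_lit 5787500000), (nat_lit 9113692000)], [], [(nat_lit 20181131456), (nat_lit 22242886235), (nat_lit 20115112649), (nat_lit 22144158050), (nat_lit 27325943300), (nat_lit 29779638285), (nat_lit 27136703780), (nat_lit 29563137154)], (nat_lit 1271251), (nat_lit 1271251), (nat_lit 704688), (nat_lit 780000), (nat_lit 1271251), (nat_lit 1271251), [(nat_lit 780000), (nat_lit 1435001), (nat_lit 1271251)], [(nat_lit 11), (nat_lit 55), (nat_lit 345), (nat_lit 125), (nat_lit 9)]⟩,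
 Rw.none⟩)))) (.spl (nat_lit 1) (nat_lit 300) (.stt (nat_lit 1) (.leaf ⟨(nat_lit 1000), (nat_lit 0), (nat_lit 0), (nat_lit 0), (nat_lit 2948), (nat_lit 3333), (nat_lit 0), (nat_lit 0), (nat_lit 0), (nat_lit 0), (nat_lit 250000), [((nat_lit 340), [((nat_lit 19), (nat_lit 0), (nat_lit 1000))])], ⟨(nat_lit 7), false, false, false, (nat_lit 179), (nat_lit 3872), (nat_lit 4473), [(nat_lit 1416230), (nat_lit 1425778), (nat_lit 1437779), (nat_lit 1447554), (nat_lit 1450223), (nat_lit 1458043), (nat_lit 1471772), (nat_lit 1479819)]⟩, ⟨(nat_lit 5), false, false, true, (nat_lit 187), (nat_lit 3872), (nat_lit 4473), [(nat_lit 1413733), (nat_lit 1412825), (nat_lit 1456866), (nat_lit 1456412), (nat_lit 1481711), (nat_lit 1477347), (nat_lit 1524844), (nat_lit 1520934)]⟩, (nat_lit 4637638), (nat_lit 44909563), (nat_lit 10670995), (nat_lit 11419442), (nat_lit 0), (nat_lit 0), [⟨(nat_lit 0), (nat_lit 97), (nat_lit 82), (nat_lit 100), (nat_lit 409475139)⟩], [], [],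 [],
 ⟨⟨[(nat_lit 40), (nat_lit 80), (nat_lit 120)], [(nat_lit 0), (nat_lit 0), (nat_lit 2151)], [((nat_lit 0), (nat_lit 0), (nat_lit 0)), ((nat_lit 0), (nat_lit 0), (nat_lit 0)), ((nat_lit 1000), (nat_lit 815), (nat_lit 753))], ((nat_lit 80), (nat_lit 100), (nat_lit 63))⟩, (nat_lit 0), (nat_lit 44), (nat_lit 44), (nat_lit 0), (nat_lit 0), [(nat_lit 1542400017), (nat_lit 102872107603), (nat_lit 2901600000)], [(nat_lit 0), (nat_lit 0), (nat_lit 0)], [(nat_lit 17047714554), (nat_lit 18721762956), (nat_lit 17322947791), (nat_lit 18925020004), (nat_lit 18582261276), (nat_lit 20133867229), (nat_lit 18796502099), (nat_lit 20309533364)], (nat_lit 0), (nat_lit 0), (nat_lit 0), (nat_lit 0), (nat_lit 0), (nat_lit 0), [], [(nat_lit 4), (nat_lit 51), (nat_lit 317), (nat_lit 100), (nat_lit 9)]⟩,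
 Rw.none,
 Rw.none⟩) (.leaf ⟨(nat_lit 801), (nat_lit 153), (nat_lit 0), (nat_lit 46), (nat_lit 0), (nat_lit 5341), (nat_lit 2682), (nat_lit 495), (nat_lit 0), (nat_lit 0), (nat_lit 200250), [((nat_lit 340), [((nat_lit 19), (nat_lit 0), (nat_lit 801))])], ⟨(nat_lit 7), false, false, false, (nat_lit 179), (nat_lit 3872), (nat_lit 4473), [(nat_lit 1416230), (nat_lit 1425778), (nat_lit 1437779), (nat_lit 1447554), (nat_lit 1450223), (nat_lit 1458043), (nat_lit 1471772), (nat_lit 1479819)]⟩, ⟨(nat_lit 5), false, false, true, (nat_lit 187), (nat_lit 3872), (nat_lit 4473), [(nat_lit 1413733), (nat_lit 1412825), (nat_lit 1456866), (nat_lit 1456412), (nat_lit 1481711), (nat_lit 1477347), (nat_lit 1524844), (nat_lit 1520934)]⟩, (nat_lit 4637638), (nat_lit 44909563), (nat_lit 10670995), (nat_lit 11419442), (nat_lit 5), (nat_lit 0), [⟨(nat_lit 0), (nat_lit 97), (nat_lit 82), (nat_lit 100), (nat_lit 240324604)⟩, ⟨(nat_lit 0), (nat_lit 100), (nat_lit 87), (nat_lit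 95), (nat_lit 26406283)⟩], [], [], [],
 ⟨⟨[(nat_lit 40), (nat_lit 80), (nat_lit 120)], [(nat_lit 0), (nat_lit 0), (nat_lit 2151)], [((nat_lit 0), (nat_lit 0), (nat_lit 0)), ((nat_lit 0), (nat_lit 0), (nat_lit 0)), ((nat_lit 1000), (nat_lit 815), (nat_lit 753))], ((nat_lit 80), (nat_lit 100), (nat_lit 63))⟩, (nat_lit 1625774), (nat_lit 160), (nat_lit 160), (nat_lit 0), (nat_lit 252311), [(nat_lit 1931860440), (nat_lit 2782450630), (nat_lit 3909813600)], [(nat_lit 0), (nat_lit 0), (nat_lit 0)], [(nat_lit 18179752540), (nat_lit 19848771530), (nat_lit 18236263209), (nat_lit 19893356920), (nat_lit 19425944486), (nat_lit 21405564251), (nat_lit 19446340958), (nat_lit 21413751640)], (nat_lit 1271251), (nat_lit 1271251), (nat_lit 631250), (nat_lit 780000), (nat_lit 1271251), (nat_lit 1271251), [(nat_lit 490000), (nat_lit 1100000), (nat_lit 1785001)], [(nat_lit 4), (nat_lit 51), (nat_lit 317), (nat_lit 100), (nat_lit 9)]⟩,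
 ⟨⟨[(nat_lit 60), (nat_lit 100), (nat_lit 140)], [(nat_lit 0), (nat_lit 0), (nat_lit 2047)], [((nat_lit 0), (nat_lit 0), (nat_lit 0)), ((nat_lit 0), (nat_lit 0), (nat_lit 0)), ((nat_lit 1000), (nat_lit 993), (nat_lit 781))], ((nat_lit 95), (nat_lit 100), (nat_lit 65))⟩, (nat_lit 0), (nat_lit 342), (nat_lit 342), (nat_lit 0), (nat_lit 295850), [(nat_lit 653118000), (nat_lit 1243750000), (nat_lit 1958558000)], [], [(nat_lit 6353108591), (nat_lit 6763347871), (nat_lit 6104328463), (nat_lit 6643730489), (nat_lit 7194873417), (nat_lit 7563661421), (nat_lit 7089344562), (nat_lit 7361108102)], (nat_lit 1271251), (nat_lit 1271251), (nat_lit 631250), (nat_lit 780000), (nat_lit 0), (nat_lit 2613125), [(nat_lit 780000), (nat_lit 1435001), (nat_lit 1271251)], [(nat_lit 11), (nat_lit 55), (nat_lit 345), (nat_lit 125), (nat_lit 10)]⟩,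
 ⟨⟨[(nat_lit 140), (nat_lit 180), (nat_lit 200)], [(nat_lit 0), (nat_lit 0), (nat_lit 2835)], [((nat_lit 0), (nat_lit 0), (nat_lit 0)), ((nat_lit 0), (nat_lit 0), (nat_lit 0)), ((nat_lit 363), (nat_lit 1000), (nat_lit 798))], ((nat_lit 0), (nat_lit 0), (nat_lit 0))⟩, (nat_lit 12656), (nat_lit 300), (nat_lit 1867), (nat_lit 3592602), (nat_lit 3047985), [(nat_lit 452732000), (nat_lit 646668000), (nat_lit 754400000)], [], [(nat_lit 3602795052), (nat_lit 3529667809), (nat_lit 3538385576), (nat_lit 3465482221), (nat_lit 3017818975), (nat_lit 3274601707), (nat_lit 2909271822), (nat_lit 2841685350)], (nat_lit 780000), (nat_lit 1100000), (nat_lit 1271251), (nat_lit 1271251), (nat_lit 0), (nat_lit 2613125), [(nat_lit 1977501), (nat_lit 1271251), (nat_lit 1271251)], [(nat_lit 32), (nat_lit 67), (nat_lit 563), (nat_lit 200), (nat_lit 12)]⟩⟩)) (.emL (nat_lit 0) (nat_lit 1) (nat_lit 3) (nat_lit 94) (nat_lit 87) (nat_lit 100))))) (.spl (nat_lit 5) (nat_lit 200)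 (.leaf ⟨(nat_lit 0), (nat_lit 911), (nat_lit 0), (nat_lit 89), (nat_lit 0), (nat_lit 10923), (nat_lit 11801), (nat_lit 1107), (nat_lit 0), (nat_lit 0), (nat_lit 0), [], Pd.none, Pd.none, (nat_lit 0), (nat_lit 1), (nat_lit 0), (nat_lit 0), (nat_lit 4), (nat_lit 0), [⟨(nat_lit 0), (nat_lit 100), (nat_lit 87), (nat_lit 95), (nat_lit 894633563)⟩], [], [], [],
 ⟨⟨[(nat_lit 40), (nat_lit 80), (nat_lit 120)], [(nat_lit 0), (nat_lit 0), (nat_lit 2151)], [((nat_lit 0), (nat_lit 0), (nat_lit 0)), ((nat_lit 0), (nat_lit 0), (nat_lit 0)), ((nat_lit 1000), (nat_lit 815), (nat_lit 753))], ((nat_lit 80), (nat_lit 100), (nat_lit 63))⟩, (nat_lit 803247), (nat_lit 168), (nat_lit 168), (nat_lit 0), (nat_lit 246696), [(nat_lit 4116526730), (nat_lit 7406425838), (nat_lit 7968000000)], [], [(nat_lit 19253812860), (nat_lit 22198935786), (nat_lit 18992335075), (nat_lit 21850002080), (nat_lit 21649423983), (nat_lit 24940729976), (nat_lit 21252526028), (nat_lit 24483346469)],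 (nat_lit 1271251), (nat_lit 1271251), (nat_lit 631250), (nat_lit 780000), (nat_lit 780000), (nat_lit 1762501), [(nat_lit 490000), (nat_lit 1100000), (nat_lit 1785001)], [(nat_lit 4), (nat_lit 51), (nat_lit 317), (nat_lit 100), (nat_lit 10)]⟩,
 ⟨⟨[(nat_lit 60), (nat_lit 100), (nat_lit 140)], [(nat_lit 0), (nat_lit 0), (nat_lit 2047)], [((nat_lit 0), (nat_lit 0), (nat_lit 0)), ((nat_lit 0), (nat_lit 0), (nat_lit 0)), ((nat_lit 1000), (nat_lit 993), (nat_lit 781))], ((nat_lit 95), (nat_lit 100), (nat_lit 65))⟩, (nat_lit 2914140), (nat_lit 339), (nat_lit 339), (nat_lit 0), (nat_lit 271595), [(nat_lit 3282000000), (nat_lit 6250000000), (nat_lit 9842000000)], [], [(nat_lit 24700555313), (nat_lit 29939190484), (nat_lit 24310556361), (nat_lit 29369368160), (nat_lit 18506181770), (nat_lit 20196046019), (nat_lit 20670641014), (nat_lit 19697373105)], (nat_lit 1271251), (nat_lit 1271251), (nat_lit 631250), (nat_lit 780000), (nat_lit 0), (nat_lit 1412501), [(nat_lit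 780000), (nat_lit 1435001), (nat_lit 1271251)], [(nat_lit 11), (nat_lit 55), (nat_lit 317), (nat_lit 100), (nat_lit 9)]⟩,
 ⟨⟨[(nat_lit 120), (nat_lit 160), (nat_lit 180)], [(nat_lit 0), (nat_lit 0), (nat_lit 1613)], [((nat_lit 0), (nat_lit 0), (nat_lit 0)), ((nat_lit 0), (nat_lit 0), (nat_lit 0)), ((nat_lit 620), (nat_lit 1000), (nat_lit 670))], ((nat_lit 100), (nat_lit 65), (nat_lit 64))⟩, (nat_lit 38734), (nat_lit 300), (nat_lit 1922), (nat_lit 6603801), (nat_lit 3248697), [(nat_lit 709152000), (nat_lit 1056608000), (nat_lit 1251162000)], [], [(nat_lit 5336129984), (nat_lit 5285448803), (nat_lit 4942028096), (nat_lit 4887373772), (nat_lit 4235389499), (nat_lit 4183360171), (nat_lit 5402449924), (nat_lit 5710367054)], (nat_lit 1100000), (nat_lit 1271251), (nat_lit 780000), (nat_lit 1762501), (nat_lit 0), (nat_lit 1412501), [(nat_lit 1695001), (nat_lit 1271251), (nat_lit 1271251)], [(nat_lit 28), (nat_lit 65), (nat_lit 558), (nat_lit 175), (nat_lit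 13)]⟩⟩) (.leaf ⟨(nat_lit 68), (nat_lit 781), (nat_lit 0), (nat_lit 151), (nat_lit 0), (nat_lit 6137), (nat_lit 7242), (nat_lit 1638), (nat_lit 0), (nat_lit 0), (nat_lit 272000), [((nat_lit 340), [((nat_lit 37), (nat_lit 5), (nat_lit 68))])], ⟨(nat_lit 7), false, false, false, (nat_lit 184), (nat_lit 3872), (nat_lit 4473), [(nat_lit 1416230), (nat_lit 1425778), (nat_lit 1459327), (nat_lit 1469330), (nat_lit 1450223), (nat_lit 1458043), (nat_lit 1493321), (nat_lit 1501595)]⟩, ⟨(nat_lit 4), false, false, true, (nat_lit 174), (nat_lit 3872), (nat_lit 4473), [(nat_lit 1320909), (nat_lit 1327369), (nat_lit 1342475), (nat_lit 1349162), (nat_lit 1524844), (nat_lit 1520934), (nat_lit 1546410), (nat_lit 1542727)]⟩, (nat_lit 4554620), (nat_lit 45604852), (nat_lit 11166384), (nat_lit 10228764), (nat_lit 5), (nat_lit 0), [⟨(nat_lit 0), (nat_lit 92), (nat_lit 81), (nat_lit 100), (nat_lit 828012286)⟩], [], [⟨(nat_lit 1), (nat_lit 63), (nat_lit 88), (nat_lit 100),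 (nat_lit 125207000)⟩, ⟨(nat_lit 1), (nat_lit 49), (nat_lit 92), (nat_lit 100), (nat_lit 203802086)⟩], [],
 ⟨⟨[(nat_lit 40), (nat_lit 80), (nat_lit 120)], [(nat_lit 0), (nat_lit 0), (nat_lit 2151)], [((nat_lit 0), (nat_lit 0), (nat_lit 0)), ((nat_lit 0), (nat_lit 0), (nat_lit 0)), ((nat_lit 1000), (nat_lit 815), (nat_lit 753))], ((nat_lit 80), (nat_lit 100), (nat_lit 63))⟩, (nat_lit 2025793), (nat_lit 168), (nat_lit 168), (nat_lit 0), (nat_lit 246696), [(nat_lit 2721683046), (nat_lit 4045161148), (nat_lit 5930791084)], [(nat_lit 0), (nat_lit 0), (nat_lit 0)], [(nat_lit 17408450724), (nat_lit 19377411518), (nat_lit 17459474809), (nat_lit 19374579795), (nat_lit 20072551661), (nat_lit 21909683190), (nat_lit 20033400965), (nat_lit 21851479602)], (nat_lit 1271251), (nat_lit 1271251), (nat_lit 631250), (nat_lit 780000), (nat_lit 780000), (nat_lit 1762501), [(nat_lit 490000), (nat_lit 1100000), (nat_lit 1785001)], [(nat_lit 4), (nat_lit 51), (nat_lit 317),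 (nat_lit 100), (nat_lit 10)]⟩,
 ⟨⟨[(nat_lit 60), (nat_lit 100), (nat_lit 140)], [(nat_lit 0), (nat_lit 0), (nat_lit 2047)], [((nat_lit 0), (nat_lit 0), (nat_lit 0)), ((nat_lit 0), (nat_lit 0), (nat_lit 0)), ((nat_lit 1000), (nat_lit 993), (nat_lit 781))], ((nat_lit 95), (nat_lit 100), (nat_lit 65))⟩, (nat_lit 2443900), (nat_lit 228), (nat_lit 228), (nat_lit 0), (nat_lit 271595), [(nat_lit 3058824000), (nat_lit 5825000000), (nat_lit 9172744000)], [], [(nat_lit 20828339205), (nat_lit 22911804366), (nat_lit 20706823645), (nat_lit 22725644588), (nat_lit 28576318880), (nat_lit 30932371021), (nat_lit 28192067173), (nat_lit 30488859913)], (nat_lit 1271251), (nat_lit 1271251), (nat_lit 631250), (nat_lit 780000), (nat_lit 1271251), (nat_lit 1271251), [(nat_lit 780000), (nat_lit 1435001), (nat_lit 1271251)], [(nat_lit 11), (nat_lit 55), (nat_lit 345), (nat_lit 125), (nat_lit 9)]⟩,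
 ⟨⟨[(nat_lit 120), (nat_lit 160), (nat_lit 180)], [(nat_lit 0), (nat_lit 0), (nat_lit 1613)], [((nat_lit 0), (nat_lit 0), (nat_lit 0)), ((nat_lit 0), (nat_lit 0), (nat_lit 0)), ((nat_lit 620), (nat_lit 1000), (nat_lit 670))], ((nat_lit 100), (nat_lit 65), (nat_lit 64))⟩, (nat_lit 65717), (nat_lit 300), (nat_lit 1812), (nat_lit 11204203), (nat_lit 3248697), [(nat_lit 1203168000), (nat_lit 1792672000), (nat_lit 2122758000)], [], [(nat_lit 8598538142), (nat_lit 8499734299), (nat_lit 7967133540), (nat_lit 7868637144), (nat_lit 7920510076), (nat_lit 7825067608), (nat_lit 7265919241), (nat_lit 7175413691)], (nat_lit 1100000), (nat_lit 1271251), (nat_lit 780000), (nat_lit 1762501), (nat_lit 1271251), (nat_lit 1271251), [(nat_lit 1695001), (nat_lit 1271251), (nat_lit 1271251)], [(nat_lit 28), (nat_lit 65), (nat_lit 553), (nat_lit 200), (nat_lit 12)]⟩⟩)))))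
noncomputable def c11_25 : Tr Lf :=
 (.spl (nat_lit 5) (nat_lit 200) (.leaf ⟨(nat_lit 0), (nat_lit 777), (nat_lit 0), (nat_lit 223), (nat_lit 0), (nat_lit 7475), (nat_lit 9860), (nat_lit 2246), (nat_lit 0), (nat_lit 0), (nat_lit 0), [], Pd.none, Pd.none, (nat_lit 0), (nat_lit 1), (nat_lit 0), (nat_lit 0), (nat_lit 4), (nat_lit 0), [⟨(nat_lit 0), (nat_lit 92), (nat_lit 81), (nat_lit 100), (nat_lit 1045971781)⟩], [], [], [],
 ⟨⟨[(nat_lit 40), (nat_lit 80), (nat_lit 120)], [(nat_lit 0), (nat_lit 0), (nat_lit 2151)], [((nat_lit 0), (nat_lit 0), (nat_lit 0)), ((nat_lit 0), (nat_lit 0), (nat_lit 0)), ((nat_lit 1000), (nat_lit 815), (nat_lit 753))], ((nat_lit 80), (nat_lit 100), (nat_lit 63))⟩, (nat_lit 2476751), (nat_lit 260), (nat_lit 260), (nat_lit 0), (nat_lit 404103), [(nat_lit 2746119975), (nat_lit 4688001420), (nat_lit 7968000000)], [], [(nat_lit 18104360007), (nat_lit 19972417679), (nat_lit 18076938844), (nat_lit 19892538976), (nat_lit 20275883599),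 (nat_lit 22757058994), (nat_lit 20136651169), (nat_lit 22587258513)], (nat_lit 1271251), (nat_lit 1271251), (nat_lit 631250), (nat_lit 780000), (nat_lit 780000), (nat_lit 1762501), [(nat_lit 490000), (nat_lit 1100000), (nat_lit 1785001)], [(nat_lit 4), (nat_lit 51), (nat_lit 317), (nat_lit 100), (nat_lit 10)]⟩,
 ⟨⟨[(nat_lit 60), (nat_lit 100), (nat_lit 140)], [(nat_lit 0), (nat_lit 0), (nat_lit 2047)], [((nat_lit 0), (nat_lit 0), (nat_lit 0)), ((nat_lit 0), (nat_lit 0), (nat_lit 0)), ((nat_lit 1000), (nat_lit 993), (nat_lit 781))], ((nat_lit 95), (nat_lit 100), (nat_lit 65))⟩, (nat_lit 3727677), (nat_lit 444), (nat_lit 444), (nat_lit 0), (nat_lit 454001), [(nat_lit 3282000000), (nat_lit 6250000000), (nat_lit 9842000000)], [], [(nat_lit 22431802731), (nat_lit 26912620240), (nat_lit 22184057100), (nat_lit 26520092661), (nat_lit 22324672735), (nat_lit 20357831650), (nat_lit 24230991110), (nat_lit 20074346620)], (nat_lit 1271251), (nat_lit 1271251),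 (nat_lit 631250), (nat_lit 780000), (nat_lit 0), (nat_lit 1412501), [(nat_lit 780000), (nat_lit 1435001), (nat_lit 1271251)], [(nat_lit 11), (nat_lit 55), (nat_lit 317), (nat_lit 100), (nat_lit 9)]⟩,
 ⟨⟨[(nat_lit 120), (nat_lit 160), (nat_lit 180)], [(nat_lit 0), (nat_lit 533), (nat_lit 2066)], [((nat_lit 0), (nat_lit 0), (nat_lit 0)), ((nat_lit 960), (nat_lit 1000), (nat_lit 200)), ((nat_lit 615), (nat_lit 1000), (nat_lit 729))], ((nat_lit 100), (nat_lit 72), (nat_lit 63))⟩, (nat_lit 522146), (nat_lit 300), (nat_lit 1543), (nat_lit 14807202), (nat_lit 2479794), [(nat_lit 1776864000), (nat_lit 2647456000), (nat_lit 3134934000)], [], [(nat_lit 13670935469), (nat_lit 13421065307), (nat_lit 12807673019), (nat_lit 12573296937), (nat_lit 11652369268), (nat_lit 11392364204), (nat_lit 13510349872), (nat_lit 11435396248)], (nat_lit 1271251), (nat_lit 1271251), (nat_lit 780000), (nat_lit 1762501), (nat_lit 0), (nat_lit 1412501), [(nat_lit 1695001), (nat_lit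 1271251), (nat_lit 1271251)], [(nat_lit 28), (nat_lit 65), (nat_lit 469), (nat_lit 175), (nat_lit 11)]⟩⟩) (.leaf ⟨(nat_lit 0), (nat_lit 617), (nat_lit 0), (nat_lit 383), (nat_lit 0), (nat_lit 7410), (nat_lit 7432), (nat_lit 3776), (nat_lit 0), (nat_lit 0), (nat_lit 0), [], Pd.none, Pd.none, (nat_lit 0), (nat_lit 1), (nat_lit 0), (nat_lit 0), (nat_lit 5), (nat_lit 0), [⟨(nat_lit 0), (nat_lit 92), (nat_lit 81), (nat_lit 100), (nat_lit 2420948827)⟩], [], [⟨(nat_lit 1), (nat_lit 50), (nat_lit 87), (nat_lit 100), (nat_lit 181789910)⟩], [],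
 ⟨⟨[(nat_lit 40), (nat_lit 80), (nat_lit 120)], [(nat_lit 0), (nat_lit 0), (nat_lit 2151)], [((nat_lit 0), (nat_lit 0), (nat_lit 0)), ((nat_lit 0), (nat_lit 0), (nat_lit 0)), ((nat_lit 1000), (nat_lit 815), (nat_lit 753))], ((nat_lit 80), (nat_lit 100), (nat_lit 63))⟩, (nat_lit 3350538), (nat_lit 260), (nat_lit 260), (nat_lit 0), (nat_lit 404103), [(nat_lit 2704015895), (nat_lit 4688000015), (nat_lit 7968000000)], [], [(nat_lit 17214857925), (nat_lit 19492623502), (nat_lit 17296722620), (nat_lit 19411329278), (nat_lit 20224525110), (nat_lit 22715893503), (nat_lit 20183556230), (nat_lit 22551514395)], (nat_lit 1271251), (nat_lit 1271251), (nat_lit 631250), (nat_lit 780000), (nat_lit 780000), (nat_lit 1762501), [(nat_lit 490000), (nat_lit 1100000), (nat_lit 1785001)], [(nat_lit 4), (nat_lit 51), (nat_lit 317), (nat_lit 100), (nat_lit 10)]⟩,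
 ⟨⟨[(nat_lit 60), (nat_lit 100), (nat_lit 140)], [(nat_lit 0), (nat_lit 0), (nat_lit 2047)], [((nat_lit 0), (nat_lit 0), (nat_lit 0)), ((nat_lit 0), (nat_lit 0), (nat_lit 0)), ((nat_lit 1000), (nat_lit 993), (nat_lit 781))], ((nat_lit 95), (nat_lit 100), (nat_lit 65))⟩, (nat_lit 4162161), (nat_lit 325), (nat_lit 325), (nat_lit 0), (nat_lit 454001), [(nat_lit 3282000000), (nat_lit 6250000000), (nat_lit 9842000000)], [], [(nat_lit 21101541160), (nat_lit 23797308068), (nat_lit 21113697256), (nat_lit 23726557560), (nat_lit 32490649516), (nat_lit 34717395192), (nat_lit 32056094872), (nat_lit 34225878384)], (nat_lit 1271251), (nat_lit 1271251), (nat_lit 631250), (nat_lit 780000), (nat_lit 1271251), (nat_lit 1271251), [(nat_lit 780000), (nat_lit 1435001), (nat_lit 1271251)], [(nat_lit 11), (nat_lit 55), (nat_lit 373), (nat_lit 150), (nat_lit 10)]⟩,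
 ⟨⟨[(nat_lit 120), (nat_lit 160), (nat_lit 180)], [(nat_lit 0), (nat_lit 533), (nat_lit 2066)], [((nat_lit 0), (nat_lit 0), (nat_lit 0)), ((nat_lit 960), (nat_lit 1000), (nat_lit 200)), ((nat_lit 615), (nat_lit 1000), (nat_lit 729))], ((nat_lit 100), (nat_lit 72), (nat_lit 63))⟩, (nat_lit 982391), (nat_lit 300), (nat_lit 1423), (nat_lit 25431200), (nat_lit 2479794), [(nat_lit 3051744000), (nat_lit 4546976000), (nat_lit 5384214000)], [], [(nat_lit 20703958658), (nat_lit 20270173534), (nat_lit 19256057036), (nat_lit 18818088848), (nat_lit 19340361971), (nat_lit 18910345640), (nat_lit 17856928721), (nat_lit 17448849659)], (nat_lit 1271251), (nat_lit 1271251), (nat_lit 780000), (nat_lit 1762501), (nat_lit 1271251), (nat_lit 1271251), [(nat_lit 1695001), (nat_lit 1271251), (nat_lit 1271251)], [(nat_lit 28), (nat_lit 65), (nat_lit 464), (nat_lit 225), (nat_lit 10)]⟩⟩))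
noncomputable def c11_26 : Tr Lf :=
 (.spl (nat_lit 5) (nat_lit 120) (.spl (nat_lit 4) (nat_lit 280) (.leaf ⟨(nat_lit 756), (nat_lit 0), (nat_lit 0), (nat_lit 244), (nat_lit 0), (nat_lit 4392), (nat_lit 4164), (nat_lit 4186), (nat_lit 0), (nat_lit 0), (nat_lit 756000), [((nat_lit 340), [((nat_lit 18), (nat_lit 2), (nat_lit 756))])], ⟨(nat_lit 6), false, false, false, (nat_lit 153), (nat_lit 3872), (nat_lit 4473), [(nat_lit 1305146), (nat_lit 1317698), (nat_lit 1348244), (nat_lit 1361249), (nat_lit 1407125), (nat_lit 1414492), (nat_lit 1450223), (nat_lit 1458043)]⟩, ⟨(nat_lit 6), true, false, true, (nat_lit 218), (nat_lit 3872), (nat_lit 4473), [(nat_lit 1481711), (nat_lit 1477347), (nat_lit 1546410), (nat_lit 1542727), (nat_lit 1549689), (nat_lit 1541869), (nat_lit 1614388), (nat_lit 1607248)]⟩, (nat_lit 4630925), (nat_lit 44277045), (nat_lit 8269880), (nat_lit 14453075), (nat_lit 0), (nat_lit 0), [⟨(nat_lit 0), (nat_lit 100), (nat_lit 82), (nat_lit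 76), (nat_lit 373148249)⟩], [], [], [],
 ⟨⟨[(nat_lit 40), (nat_lit 80), (nat_lit 100)], [(nat_lit 0), (nat_lit 0), (nat_lit 1280)], [((nat_lit 0), (nat_lit 0), (nat_lit 0)), ((nat_lit 0), (nat_lit 0), (nat_lit 0)), ((nat_lit 1000), (nat_lit 800), (nat_lit 600))], ((nat_lit 81), (nat_lit 100), (nat_lit 48))⟩, (nat_lit 0), (nat_lit 198), (nat_lit 198), (nat_lit 0), (nat_lit 307370), [(nat_lit 1837334996), (nat_lit 1841164706), (nat_lit 1189940800)], [(nat_lit 0), (nat_lit 0), (nat_lit 0)], [(nat_lit 20391765918), (nat_lit 21578114702), (nat_lit 20243083878), (nat_lit 21354335802), (nat_lit 22192176224), (nat_lit 23892221321), (nat_lit 21787371182), (nat_lit 23120682080)], (nat_lit 1271251), (nat_lit 1271251), (nat_lit 356250), (nat_lit 780000), (nat_lit 1271251), (nat_lit 1271251), [(nat_lit 490000), (nat_lit 1100000), (nat_lit 1442501)], [(nat_lit 3), (nat_lit 50), (nat_lit 238), (nat_lit 30), (nat_lit 8)]⟩,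
 ⟨⟨[(nat_lit 80), (nat_lit 120), (nat_lit 140)], [(nat_lit 0), (nat_lit 0), (nat_lit 1164)], [((nat_lit 0), (nat_lit 0), (nat_lit 0)), ((nat_lit 0), (nat_lit 0), (nat_lit 0)), ((nat_lit 941), (nat_lit 1000), (nat_lit 576))], ((nat_lit 100), (nat_lit 98), (nat_lit 48))⟩, (nat_lit 0), (nat_lit 367), (nat_lit 367), (nat_lit 0), (nat_lit 272392), [(nat_lit 1143872000), (nat_lit 1944192000), (nat_lit 2401448000)], [], [(nat_lit 8558619768), (nat_lit 9028932650), (nat_lit 8673506168), (nat_lit 7693200880), (nat_lit 9026971226), (nat_lit 5304372724), (nat_lit 10675666496), (nat_lit 6878500322)], (nat_lit 1271251), (nat_lit 1271251), (nat_lit 356250), (nat_lit 780000), (nat_lit 0), (nat_lit 780000), [(nat_lit 1100000), (nat_lit 1785001), (nat_lit 1271251)], [(nat_lit 17), (nat_lit 58), (nat_lit 373), (nat_lit 150), (nat_lit 11)]⟩,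
 ⟨⟨[(nat_lit 140), (nat_lit 160), (nat_lit 180)], [(nat_lit 0), (nat_lit 0), (nat_lit 799)], [((nat_lit 0), (nat_lit 0), (nat_lit 0)), ((nat_lit 0), (nat_lit 0), (nat_lit 0)), ((nat_lit 728), (nat_lit 1000), (nat_lit 454))], ((nat_lit 100), (nat_lit 67), (nat_lit 52))⟩, (nat_lit 214378), (nat_lit 300), (nat_lit 312), (nat_lit 18104800), (nat_lit 0), [(nat_lit 2401448000), (nat_lit 2896768000), (nat_lit 3430152000)], [], [(nat_lit 11373260204), (nat_lit 10933728620), (nat_lit 11981799598), (nat_lit 11675381013), (nat_lit 7827232672), (nat_lit 7418272792), (nat_lit 8357694004), (nat_lit 7867062003)], (nat_lit 0), (nat_lit 0), (nat_lit 0), (nat_lit 0), (nat_lit 0), (nat_lit 0), [], [(nat_lit 31), (nat_lit 65), (nat_lit 373), (nat_lit 150), (nat_lit 9)]⟩⟩) (.spl (nat_lit 4) (nat_lit 320) (.leaf ⟨(nat_lit 551), (nat_lit 0), (nat_lit 0), (nat_lit 449), (nat_lit 0), (nat_lit 4665), (nat_lit 4603), (nat_lit 6879), (nat_lit 0), (nat_lit 0), (nat_lit 791000),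 [((nat_lit 340), [((nat_lit 18), (nat_lit 2), (nat_lit 471)), ((nat_lit 37), (nat_lit 5), (nat_lit 80))])], ⟨(nat_lit 6), false, false, false, (nat_lit 153), (nat_lit 3872), (nat_lit 4473), [(nat_lit 1305146), (nat_lit 1317698), (nat_lit 1348244), (nat_lit 1361249), (nat_lit 1407125), (nat_lit 1414492), (nat_lit 1450223), (nat_lit 1458043)]⟩, ⟨(nat_lit 7), true, false, true, (nat_lit 245), (nat_lit 3872), (nat_lit 4473), [(nat_lit 1549689), (nat_lit 1541869), (nat_lit 1614388), (nat_lit 1607248), (nat_lit 1617667), (nat_lit 1606390), (nat_lit 1682366), (nat_lit 1671770)]⟩, (nat_lit 4796767), (nat_lit 42072801), (nat_lit 8034137), (nat_lit 16893062), (nat_lit 0), (nat_lit 0), [⟨(nat_lit 0), (nat_lit 100), (nat_lit 82), (nat_lit 76), (nat_lit 371774376)⟩], [], [], [],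
 ⟨⟨[(nat_lit 40), (nat_lit 80), (nat_lit 100)], [(nat_lit 0), (nat_lit 0), (nat_lit 1280)], [((nat_lit 0), (nat_lit 0), (nat_lit 0)), ((nat_lit 0), (nat_lit 0), (nat_lit 0)), ((nat_lit 1000), (nat_lit 800), (nat_lit 600))], ((nat_lit 81), (nat_lit 100), (nat_lit 48))⟩, (nat_lit 0), (nat_lit 209), (nat_lit 209), (nat_lit 0), (nat_lit 307370), [(nat_lit 2012229746), (nat_lit 2208841465), (nat_lit 1612766800)], [(nat_lit 0), (nat_lit 0), (nat_lit 0)], [(nat_lit 22462960693), (nat_lit 24221881755), (nat_lit 22126244611), (nat_lit 23330087413), (nat_lit 25065078295), (nat_lit 26645413030), (nat_lit 24130681850), (nat_lit 25618162008)], (nat_lit 1271251), (nat_lit 1271251), (nat_lit 356250), (nat_lit 780000), (nat_lit 1271251), (nat_lit 1271251), [(nat_lit 490000), (nat_lit 1100000), (nat_lit 1442501)], [(nat_lit 3), (nat_lit 50), (nat_lit 238), (nat_lit 30), (nat_lit 8)]⟩,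
 ⟨⟨[(nat_lit 80), (nat_lit 120), (nat_lit 140)], [(nat_lit 0), (nat_lit 0), (nat_lit 1164)], [((nat_lit 0), (nat_lit 0), (nat_lit 0)), ((nat_lit 0), (nat_lit 0), (nat_lit 0)), ((nat_lit 941), (nat_lit 1000), (nat_lit 576))], ((nat_lit 100), (nat_lit 98), (nat_lit 48))⟩, (nat_lit 0), (nat_lit 367), (nat_lit 367), (nat_lit 0), (nat_lit 272392), [(nat_lit 2104912000), (nat_lit 3577632000), (nat_lit 4419058000)], [], [(nat_lit 15903451458), (nat_lit 15749425885), (nat_lit 17760941058), (nat_lit 14649513513), (nat_lit 18407138912), (nat_lit 14125648105), (nat_lit 20533524264), (nat_lit 16336032454)], (nat_lit 1271251), (nat_lit 1271251), (nat_lit 356250), (nat_lit 780000), (nat_lit 0), (nat_lit 780000), [(nat_lit 1100000), (nat_lit 1785001), (nat_lit 1271251)], [(nat_lit 17), (nat_lit 58), (nat_lit 373), (nat_lit 150), (nat_lit 11)]⟩,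
 ⟨⟨[(nat_lit 140), (nat_lit 160), (nat_lit 180)], [(nat_lit 0), (nat_lit 0), (nat_lit 799)], [((nat_lit 0), (nat_lit 0), (nat_lit 0)), ((nat_lit 0), (nat_lit 0), (nat_lit 0)), ((nat_lit 728), (nat_lit 1000), (nat_lit 454))], ((nat_lit 100), (nat_lit 67), (nat_lit 52))⟩, (nat_lit 394491), (nat_lit 300), (nat_lit 323), (nat_lit 33315800), (nat_lit 0), [(nat_lit 4419058000), (nat_lit 5330528000), (nat_lit 6312042000)], [], [(nat_lit 22114893440), (nat_lit 21273758030), (nat_lit 23187384691), (nat_lit 22526017116), (nat_lit 16285843892), (nat_lit 15502496601), (nat_lit 17141985364), (nat_lit 16228650707)], (nat_lit 0), (nat_lit 0), (nat_lit 0), (nat_lit 0), (nat_lit 0), (nat_lit 0), [], [(nat_lit 31), (nat_lit 65), (nat_lit 401), (nat_lit 175), (nat_lit 9)]⟩⟩) (.leaf ⟨(nat_lit 165), (nat_lit 0), (nat_lit 0), (nat_lit 835), (nat_lit 0), (nat_lit 5118), (nat_lit 8560), (nat_lit 14964), (nat_lit 0), (nat_lit 0), (nat_lit 660000), [((nat_lit 340), [((nat_lit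 37), (nat_lit 5), (nat_lit 165))])], ⟨(nat_lit 6), false, false, false, (nat_lit 153), (nat_lit 3872), (nat_lit 4473), [(nat_lit 1305146), (nat_lit 1317698), (nat_lit 1348244), (nat_lit 1361249), (nat_lit 1407125), (nat_lit 1414492), (nat_lit 1450223), (nat_lit 1458043)]⟩, ⟨(nat_lit 8), true, false, true, (nat_lit 268), (nat_lit 3872), (nat_lit 4473), [(nat_lit 1617667), (nat_lit 1606390), (nat_lit 1682366), (nat_lit 1671770), (nat_lit 1668651), (nat_lit 1654781), (nat_lit 1733350), (nat_lit 1720161)]⟩, (nat_lit 4905924), (nat_lit 40169607), (nat_lit 7805553), (nat_lit 19024840), (nat_lit 0), (nat_lit 0), [⟨(nat_lit 0), (nat_lit 100), (nat_lit 82), (nat_lit 76), (nat_lit 464484687)⟩], [⟨(nat_lit 1), (nat_lit 85), (nat_lit 78), (nat_lit 100), (nat_lit 1113611007)⟩], [], [],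
 ⟨⟨[(nat_lit 40), (nat_lit 80), (nat_lit 100)], [(nat_lit 0), (nat_lit 0), (nat_lit 1280)], [((nat_lit 0), (nat_lit 0), (nat_lit 0)), ((nat_lit 0), (nat_lit 0), (nat_lit 0)), ((nat_lit 1000), (nat_lit 800), (nat_lit 600))], ((nat_lit 81), (nat_lit 100), (nat_lit 48))⟩, (nat_lit 466972), (nat_lit 219), (nat_lit 219), (nat_lit 0), (nat_lit 307370), [(nat_lit 2239775831), (nat_lit 3199716171), (nat_lit 3187732000)], [(nat_lit 0), (nat_lit 0), (nat_lit 0)], [(nat_lit 25635234514), (nat_lit 27299650126), (nat_lit 25173250424), (nat_lit 26181147380), (nat_lit 28131857932), (nat_lit 29652963624), (nat_lit 26846543344), (nat_lit 28280099880)], (nat_lit 1271251), (nat_lit 1271251), (nat_lit 356250), (nat_lit 780000), (nat_lit 1271251), (nat_lit 1271251), [(nat_lit 490000), (nat_lit 1100000), (nat_lit 1442501)], [(nat_lit 3), (nat_lit 50), (nat_lit 238), (nat_lit 30), (nat_lit 8)]⟩,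
 ⟨⟨[(nat_lit 80), (nat_lit 120), (nat_lit 140)], [(nat_lit 0), (nat_lit 0), (nat_lit 1164)], [((nat_lit 0), (nat_lit 0), (nat_lit 0)), ((nat_lit 0), (nat_lit 0), (nat_lit 0)), ((nat_lit 941), (nat_lit 1000), (nat_lit 576))], ((nat_lit 100), (nat_lit 98), (nat_lit 48))⟩, (nat_lit 0), (nat_lit 367), (nat_lit 367), (nat_lit 0), (nat_lit 272392), [(nat_lit 3914480000), (nat_lit 6653280000), (nat_lit 8218070000)], [], [(nat_lit 29575580620), (nat_lit 29289083543), (nat_lit 33029897620), (nat_lit 27243640295), (nat_lit 34231623940), (nat_lit 26269520680), (nat_lit 38185994740), (nat_lit 30380100780)], (nat_lit 1271251), (nat_lit 1271251), (nat_lit 356250), (nat_lit 780000), (nat_lit 0), (nat_lit 780000), [(nat_lit 1100000), (nat_lit 1785001), (nat_lit 1271251)], [(nat_lit 17), (nat_lit 58), (nat_lit 373), (nat_lit 150), (nat_lit 11)]⟩,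
 ⟨⟨[(nat_lit 140), (nat_lit 160), (nat_lit 180)], [(nat_lit 0), (nat_lit 0), (nat_lit 799)], [((nat_lit 0), (nat_lit 0), (nat_lit 0)), ((nat_lit 0), (nat_lit 0), (nat_lit 0)), ((nat_lit 728), (nat_lit 1000), (nat_lit 454))], ((nat_lit 100), (nat_lit 67), (nat_lit 52))⟩, (nat_lit 733630), (nat_lit 300), (nat_lit 368), (nat_lit 61957000), (nat_lit 0), [(nat_lit 8218070000), (nat_lit 9913120000), (nat_lit 11738430000)], [], [(nat_lit 46558621140), (nat_lit 43848481232), (nat_lit 49543380051), (nat_lit 47487511319), (nat_lit 33174450306), (nat_lit 30642126869), (nat_lit 34816607681), (nat_lit 32845655584)], (nat_lit 0), (nat_lit 0), (nat_lit 0), (nat_lit 0), (nat_lit 0), (nat_lit 0), [], [(nat_lit 31), (nat_lit 65), (nat_lit 401), (nat_lit 175), (nat_lit 9)]⟩⟩))) (.leaf ⟨(nat_lit 0), (nat_lit 0), (nat_lit 0), (nat_lit 1000), (nat_lit 8465), (nat_lit 6647), (nat_lit 5490), (nat_lit 18946), (nat_lit 0), (nat_lit 0), (nat_lit 0), [], Pd.none, Pd.none, (nat_lit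 0), (nat_lit 1), (nat_lit 0), (nat_lit 0), (nat_lit 0), (nat_lit 0), [⟨(nat_lit 0), (nat_lit 100), (nat_lit 82), (nat_lit 76), (nat_lit 934530955)⟩], [⟨(nat_lit 1), (nat_lit 85), (nat_lit 78), (nat_lit 100), (nat_lit 203350962)⟩], [], [],
 ⟨⟨[(nat_lit 40), (nat_lit 80), (nat_lit 100)], [(nat_lit 0), (nat_lit 0), (nat_lit 1280)], [((nat_lit 0), (nat_lit 0), (nat_lit 0)), ((nat_lit 0), (nat_lit 0), (nat_lit 0)), ((nat_lit 1000), (nat_lit 800), (nat_lit 600))], ((nat_lit 81), (nat_lit 100), (nat_lit 48))⟩, (nat_lit 815951), (nat_lit 219), (nat_lit 219), (nat_lit 0), (nat_lit 307370), [(nat_lit 2603104312), (nat_lit 4688000005), (nat_lit 6250000000)], [], [(nat_lit 23807801734), (nat_lit 25398213426), (nat_lit 22878786873), (nat_lit 24360404901), (nat_lit 30481986741), (nat_lit 32252543001), (nat_lit 28566335655), (nat_lit 30146359437)], (nat_lit 1271251), (nat_lit 1271251), (nat_lit 356250), (nat_lit 780000), (nat_lit 1271251), (nat_lit 1271251), [(nat_lit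 490000), (nat_lit 1100000), (nat_lit 1442501)], [(nat_lit 3), (nat_lit 50), (nat_lit 238), (nat_lit 30), (nat_lit 8)]⟩,
 ⟨⟨[(nat_lit 80), (nat_lit 120), (nat_lit 140)], [(nat_lit 0), (nat_lit 0), (nat_lit 1164)], [((nat_lit 0), (nat_lit 0), (nat_lit 0)), ((nat_lit 0), (nat_lit 0), (nat_lit 0)), ((nat_lit 941), (nat_lit 1000), (nat_lit 576))], ((nat_lit 100), (nat_lit 98), (nat_lit 48))⟩, (nat_lit 0), (nat_lit 336), (nat_lit 336), (nat_lit 0), (nat_lit 420071), [(nat_lit 4688000000), (nat_lit 7968000000), (nat_lit 9842000000)], [], [(nat_lit 34906344835), (nat_lit 36652098553), (nat_lit 34474535810), (nat_lit 36100036120), (nat_lit 43330189820), (nat_lit 42805891299), (nat_lit 46878351673), (nat_lit 42015207422)], (nat_lit 1271251), (nat_lit 1271251), (nat_lit 356250), (nat_lit 780000), (nat_lit 780000), (nat_lit 2826876), [(nat_lit 1100000), (nat_lit 1785001), (nat_lit 1271251)], [(nat_lit 17), (nat_lit 58), (nat_lit 428), (nat_lit 200), (nat_lit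 12)]⟩,
 ⟨⟨[(nat_lit 140), (nat_lit 160), (nat_lit 180)], [(nat_lit 0), (nat_lit 0), (nat_lit 799)], [((nat_lit 0), (nat_lit 0), (nat_lit 0)), ((nat_lit 0), (nat_lit 0), (nat_lit 0)), ((nat_lit 728), (nat_lit 1000), (nat_lit 454))], ((nat_lit 100), (nat_lit 67), (nat_lit 52))⟩, (nat_lit 10173971), (nat_lit 207), (nat_lit 207), (nat_lit 0), (nat_lit 0), [(nat_lit 9842000000), (nat_lit 11872000000), (nat_lit 14058000000)], [], [(nat_lit 21038031435), (nat_lit 20318319173), (nat_lit 34241221987), (nat_lit 32580467604), (nat_lit 35367831050), (nat_lit 34161713182), (nat_lit 49457372970), (nat_lit 46577121067)], (nat_lit 0), (nat_lit 0), (nat_lit 0), (nat_lit 0), (nat_lit 0), (nat_lit 0), [], [(nat_lit 31), (nat_lit 65), (nat_lit 456), (nat_lit 225), (nat_lit 10)]⟩⟩))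
noncomputable def c11_27 : Tr Lf :=
 (.spl (nat_lit 2) (nat_lit 160) (.trX (nat_lit 4) (nat_lit 0) (nat_lit 2) (nat_lit 82) (nat_lit 76) (nat_lit 100) (nat_lit 340) (.spl (nat_lit 2) (nat_lit 140) (.trX (nat_lit 4) (nat_lit 0) (nat_lit 2) (nat_lit 84) (nat_lit 85) (nat_lit 100) (nat_lit 320) (.spl (nat_lit 0) (nat_lit 330) (.spl (nat_lit 6) (nat_lit 36) (.spl (nat_lit 5) (nat_lit 120) (.leaf ⟨(nat_lit 0), (nat_lit 905), (nat_lit 0), (nat_lit 95), (nat_lit 27255), (nat_lit 5838), (nat_lit 7984), (nat_lit 1210), (nat_lit 0), (nat_lit 0), (nat_lit 0), [], Pd.none, Pd.none, (nat_lit 0), (nat_lit 1), (nat_lit 0), (nat_lit 0), (nat_lit 6), (nat_lit 0), [⟨(nat_lit 0), (nat_lit 100), (nat_lit 81), (nat_lit 83), (nat_lit 1033031311)⟩], [⟨(nat_lit 1), (nat_lit 92), (nat_lit 83), (nat_lit 100), (nat_lit 500489493)⟩], [], [],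
 ⟨⟨[(nat_lit 40), (nat_lit 80), (nat_lit 100)], [(nat_lit 0), (nat_lit 0), (nat_lit 1280)], [((nat_lit 0), (nat_lit 0), (nat_lit 0)), ((nat_lit 0), (nat_lit 0), (nat_lit 0)), ((nat_lit 1000), (nat_lit 800), (nat_lit 600))], ((nat_lit 80), (nat_lit 100), (nat_lit 57))⟩, (nat_lit 1727426), (nat_lit 116), (nat_lit 116), (nat_lit 0), (nat_lit 50982), [(nat_lit 2489603511), (nat_lit 4688000005), (nat_lit 6250000000)], [], [(nat_lit 22100400898), (nat_lit 22974974981), (nat_lit 21266688224), (nat_lit 22083291580), (nat_lit 26723653678), (nat_lit 27441001648), (nat_lit 25588488800), (nat_lit 26297883864)], (nat_lit 1271251), (nat_lit 1271251), (nat_lit 356250), (nat_lit 780000), (nat_lit 1271251), (nat_lit 1271251), [(nat_lit 490000), (nat_lit 1100000), (nat_lit 1442501)], [(nat_lit 3), (nat_lit 50), (nat_lit 238), (nat_lit 30), (nat_lit 8)]⟩,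
 ⟨⟨[(nat_lit 80), (nat_lit 120), (nat_lit 140)], [(nat_lit 0), (nat_lit 0), (nat_lit 1164)], [((nat_lit 0), (nat_lit 0), (nat_lit 0)), ((nat_lit 0), (nat_lit 0), (nat_lit 0)), ((nat_lit 941), (nat_lit 1000), (nat_lit 576))], ((nat_lit 100), (nat_lit 94), (nat_lit 58))⟩, (nat_lit 4827035), (nat_lit 243), (nat_lit 243), (nat_lit 0), (nat_lit 49178), [(nat_lit 4688000000), (nat_lit 7968000000), (nat_lit 9842000000)], [], [(nat_lit 21598995308), (nat_lit 23622213136), (nat_lit 20082907200), (nat_lit 21860705920), (nat_lit 17321551448), (nat_lit 18738429963), (nat_lit 20404973040), (nat_lit 17881969864)], (nat_lit 1271251), (nat_lit 1271251), (nat_lit 356250), (nat_lit 780000), (nat_lit 0), (nat_lit 780000), [(nat_lit 1100000), (nat_lit 1785001), (nat_lit 1271251)], [(nat_lit 17), (nat_lit 58), (nat_lit 345), (nat_lit 125), (nat_lit 10)]⟩,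
 ⟨⟨[(nat_lit 140), (nat_lit 180), (nat_lit 200)], [(nat_lit 0), (nat_lit 0), (nat_lit 2835)], [((nat_lit 0), (nat_lit 0), (nat_lit 0)), ((nat_lit 0), (nat_lit 0), (nat_lit 0)), ((nat_lit 363), (nat_lit 1000), (nat_lit 798))], ((nat_lit 0), (nat_lit 0), (nat_lit 0))⟩, (nat_lit 26138), (nat_lit 300), (nat_lit 434), (nat_lit 7419500), (nat_lit 0), [(nat_lit 934990000), (nat_lit 1335510000), (nat_lit 1558000000)], [], [(nat_lit 6140619010), (nat_lit 6050421991), (nat_lit 6264446200), (nat_lit 6166966140), (nat_lit 5081346499), (nat_lit 4998363851), (nat_lit 5171179142), (nat_lit 5080496652)], (nat_lit 0), (nat_lit 0), (nat_lit 0), (nat_lit 0), (nat_lit 0), (nat_lit 0), [], [(nat_lit 32), (nat_lit 67), (nat_lit 373), (nat_lit 150), (nat_lit 8)]⟩⟩) (.leaf ⟨(nat_lit 0), (nat_lit 0), (nat_lit 0), (nat_lit 1000), (nat_lit 23320), (nat_lit 5838), (nat_lit 3575), (nat_lit 24555), (nat_lit 0), (nat_lit 0), (nat_lit 0), [], Pd.none, Pd.none, (nat_lit 0), (nat_lit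 1), (nat_lit 0), (nat_lit 0), (nat_lit 0), (nat_lit 0), [⟨(nat_lit 0), (nat_lit 100), (nat_lit 81), (nat_lit 83), (nat_lit 1083125804)⟩], [⟨(nat_lit 1), (nat_lit 92), (nat_lit 83), (nat_lit 100), (nat_lit 224133327)⟩], [], [],
 ⟨⟨[(nat_lit 40), (nat_lit 80), (nat_lit 100)], [(nat_lit 0), (nat_lit 0), (nat_lit 1280)], [((nat_lit 0), (nat_lit 0), (nat_lit 0)), ((nat_lit 0), (nat_lit 0), (nat_lit 0)), ((nat_lit 1000), (nat_lit 800), (nat_lit 600))], ((nat_lit 80), (nat_lit 100), (nat_lit 57))⟩, (nat_lit 1727426), (nat_lit 116), (nat_lit 116), (nat_lit 0), (nat_lit 50982), [(nat_lit 2529396061), (nat_lit 4688000028), (nat_lit 6250000000)], [], [(nat_lit 22100400898), (nat_lit 22974974981), (nat_lit 21266688224), (nat_lit 22083291580), (nat_lit 26723653678), (nat_lit 27441001648), (nat_lit 25588488800), (nat_lit 26297883887)], (nat_lit 1271251), (nat_lit 1271251), (nat_lit 356250), (nat_lit 780000), (nat_lit 1271251), (nat_lit 1271251), [(nat_lit 490000),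 (nat_lit 1100000), (nat_lit 1442501)], [(nat_lit 3), (nat_lit 50), (nat_lit 238), (nat_lit 30), (nat_lit 8)]⟩,
 ⟨⟨[(nat_lit 80), (nat_lit 120), (nat_lit 140)], [(nat_lit 0), (nat_lit 0), (nat_lit 1164)], [((nat_lit 0), (nat_lit 0), (nat_lit 0)), ((nat_lit 0), (nat_lit 0), (nat_lit 0)), ((nat_lit 941), (nat_lit 1000), (nat_lit 576))], ((nat_lit 100), (nat_lit 94), (nat_lit 58))⟩, (nat_lit 0), (nat_lit 185), (nat_lit 185), (nat_lit 0), (nat_lit 74392), [(nat_lit 4688000000), (nat_lit 7968000000), (nat_lit 9842000000)], [], [(nat_lit 32977285863), (nat_lit 31271350063), (nat_lit 30684791825), (nat_lit 31566247513), (nat_lit 43271364850), (nat_lit 41657272795), (nat_lit 46173114144), (nat_lit 44589713352)], (nat_lit 1271251), (nat_lit 1271251), (nat_lit 356250), (nat_lit 780000), (nat_lit 780000), (nat_lit 2826876), [(nat_lit 1100000), (nat_lit 1785001), (nat_lit 1271251)], [(nat_lit 17), (nat_lit 58), (nat_lit 428), (nat_lit 200), (nat_lit 12)]⟩,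
 ⟨⟨[(nat_lit 140), (nat_lit 180), (nat_lit 200)], [(nat_lit 0), (nat_lit 0), (nat_lit 2835)], [((nat_lit 0), (nat_lit 0), (nat_lit 0)), ((nat_lit 0), (nat_lit 0), (nat_lit 0)), ((nat_lit 363), (nat_lit 1000), (nat_lit 798))], ((nat_lit 0), (nat_lit 0), (nat_lit 0))⟩, (nat_lit 4902008), (nat_lit 250), (nat_lit 250), (nat_lit 0), (nat_lit 0), [(nat_lit 9842000000), (nat_lit 14058000000), (nat_lit 16400000000)], [], [(nat_lit 27343602940), (nat_lit 26431083670), (nat_lit 37890996310), (nat_lit 36539956140), (nat_lit 41166260553), (nat_lit 39379852269), (nat_lit 51243699285), (nat_lit 49598746244)], (nat_lit 0), (nat_lit 0), (nat_lit 0), (nat_lit 0), (nat_lit 0), (nat_lit 0), [], [(nat_lit 32), (nat_lit 67), (nat_lit 456), (nat_lit 225), (nat_lit 9)]⟩⟩)) (.dle (nat_lit 0))) (.trZ (nat_lit 0) (nat_lit 1) (nat_lit 3) (nat_lit 100) (nat_lit 78) (nat_lit 81) (nat_lit 70) (.trX (nat_lit 4) (nat_lit 0) (nat_lit 2) (nat_lit 80) (nat_lit 89) (nat_lit 100) (nat_lit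 310) (.spl (nat_lit 5) (nat_lit 120) (.spl (nat_lit 6) (nat_lit 36) (.leaf ⟨(nat_lit 735), (nat_lit 181), (nat_lit 0), (nat_lit 84), (nat_lit 5936), (nat_lit 4069), (nat_lit 3928), (nat_lit 1088), (nat_lit 0), (nat_lit 0), (nat_lit 183750), [((nat_lit 340), [((nat_lit 18), (nat_lit 0), (nat_lit 735))])], ⟨(nat_lit 6), false, false, false, (nat_lit 153), (nat_lit 3872), (nat_lit 4184), [(nat_lit 1327983), (nat_lit 1333871), (nat_lit 1349645), (nat_lit 1355660), (nat_lit 1410806), (nat_lit 1414527), (nat_lit 1432468), (nat_lit 1436316)]⟩, ⟨(nat_lit 6), true, false, true, (nat_lit 219), (nat_lit 3872), (nat_lit 4184), [(nat_lit 1479587), (nat_lit 1477347), (nat_lit 1501254), (nat_lit 1499140), (nat_lit 1595535), (nat_lit 1590260), (nat_lit 1617201), (nat_lit 1612053)]⟩, (nat_lit 4634354), (nat_lit 44234283), (nat_lit 8261667), (nat_lit 14504050), (nat_lit 6), (nat_lit 0), [⟨(nat_lit 0), (nat_lit 100), (nat_lit 76), (nat_lit 87), (nat_lit 171319807)⟩],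 [⟨(nat_lit 1), (nat_lit 95), (nat_lit 79), (nat_lit 100), (nat_lit 230980106)⟩], [], [],
 ⟨⟨[(nat_lit 40), (nat_lit 80), (nat_lit 100)], [(nat_lit 0), (nat_lit 395), (nat_lit 1536)], [((nat_lit 0), (nat_lit 0), (nat_lit 0)), ((nat_lit 1000), (nat_lit 908), (nat_lit 154)), ((nat_lit 1000), (nat_lit 760), (nat_lit 642))], ((nat_lit 76), (nat_lit 100), (nat_lit 58))⟩, (nat_lit 1264041), (nat_lit 123), (nat_lit 123), (nat_lit 0), (nat_lit 96939), [(nat_lit 1664647219), (nat_lit 2835800004), (nat_lit 3539320000)], [(nat_lit 0), (nat_lit 0), (nat_lit 0)], [(nat_lit 20887657858), (nat_lit 21596293013), (nat_lit 20886031079), (nat_lit 21555388182), (nat_lit 24221815090), (nat_lit 24831175632), (nat_lit 24042203750), (nat_lit 24653484947)], (nat_lit 1271251), (nat_lit 1271251), (nat_lit 422188), (nat_lit 780000), (nat_lit 1271251), (nat_lit 1271251), [(nat_lit 490000), (nat_lit 1100000), (nat_lit 1442501)], [(nat_lit 3), (nat_lit 50), (nat_lit 238), (nat_lit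 30), (nat_lit 8)]⟩,
 ⟨⟨[(nat_lit 80), (nat_lit 120), (nat_lit 140)], [(nat_lit 0), (nat_lit 0), (nat_lit 1164)], [((nat_lit 0), (nat_lit 0), (nat_lit 0)), ((nat_lit 0), (nat_lit 0), (nat_lit 0)), ((nat_lit 941), (nat_lit 1000), (nat_lit 576))], ((nat_lit 100), (nat_lit 94), (nat_lit 58))⟩, (nat_lit 0), (nat_lit 242), (nat_lit 242), (nat_lit 0), (nat_lit 97937), [(nat_lit 1242320000), (nat_lit 2111520000), (nat_lit 2608130000)], [], [(nat_lit 8519136420), (nat_lit 8155864105), (nat_lit 9769745740), (nat_lit 7905758512), (nat_lit 10326727578), (nat_lit 8506103261), (nat_lit 11767097596), (nat_lit 9976119122)], (nat_lit 1271251), (nat_lit 1271251), (nat_lit 422188), (nat_lit 780000), (nat_lit 0), (nat_lit 780000), [(nat_lit 1100000), (nat_lit 1785001), (nat_lit 1271251)], [(nat_lit 17), (nat_lit 58), (nat_lit 345), (nat_lit 125), (nat_lit 10)]⟩,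
 ⟨⟨[(nat_lit 140), (nat_lit 180), (nat_lit 200)], [(nat_lit 0), (nat_lit 0), (nat_lit 2835)], [((nat_lit 0), (nat_lit 0), (nat_lit 0)), ((nat_lit 0), (nat_lit 0), (nat_lit 0)), ((nat_lit 363), (nat_lit 1000), (nat_lit 798))], ((nat_lit 0), (nat_lit 0), (nat_lit 0))⟩, (nat_lit 23111), (nat_lit 300), (nat_lit 434), (nat_lit 6560402), (nat_lit 0), [(nat_lit 826728000), (nat_lit 1180872000), (nat_lit 1377600000)], [], [(nat_lit 5429564249), (nat_lit 5347974673), (nat_lit 5528703648), (nat_lit 5441546398), (nat_lit 4474788696), (nat_lit 4399699654), (nat_lit 4544458479), (nat_lit 4464387594)], (nat_lit 0), (nat_lit 0), (nat_lit 0), (nat_lit 0), (nat_lit 0), (nat_lit 0), [], [(nat_lit 32), (nat_lit 67), (nat_lit 373), (nat_lit 150), (nat_lit 8)]⟩⟩) (.leaf ⟨(nat_lit 0), (nat_lit 912), (nat_lit 0), (nat_lit 88), (nat_lit 32611), (nat_lit 5346), (nat_lit 7984), (nat_lit 1174), (nat_lit 0), (nat_lit 0), (nat_lit 0), [], Pd.none, Pd.none, (nat_lit 0), (nat_lit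 1), (nat_lit 0), (nat_lit 0), (nat_lit 6), (nat_lit 0), [⟨(nat_lit 0), (nat_lit 100), (nat_lit 75), (nat_lit 92), (nat_lit 1011040282)⟩], [⟨(nat_lit 1), (nat_lit 95), (nat_lit 79), (nat_lit 100), (nat_lit 509998529)⟩], [], [],
 ⟨⟨[(nat_lit 40), (nat_lit 80), (nat_lit 100)], [(nat_lit 0), (nat_lit 395), (nat_lit 1536)], [((nat_lit 0), (nat_lit 0), (nat_lit 0)), ((nat_lit 1000), (nat_lit 908), (nat_lit 154)), ((nat_lit 1000), (nat_lit 760), (nat_lit 642))], ((nat_lit 76), (nat_lit 100), (nat_lit 63))⟩, (nat_lit 1922562), (nat_lit 105), (nat_lit 105), (nat_lit 0), (nat_lit 32448), [(nat_lit 2311461712), (nat_lit 4688003784), (nat_lit 6250000000)], [], [(nat_lit 22006209435), (nat_lit 22829906998), (nat_lit 21687293888), (nat_lit 22462944640), (nat_lit 25737672952), (nat_lit 26434735888), (nat_lit 25203763011), (nat_lit 25861776017)], (nat_lit 1271251), (nat_lit 1271251), (nat_lit 422188), (nat_lit 780000), (nat_lit 1271251), (nat_lit 1271251), [(nat_lit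 490000), (nat_lit 1100000), (nat_lit 1442501)], [(nat_lit 3), (nat_lit 50), (nat_lit 238), (nat_lit 30), (nat_lit 8)]⟩,
 ⟨⟨[(nat_lit 80), (nat_lit 120), (nat_lit 160)], [(nat_lit 0), (nat_lit 0), (nat_lit 2132)], [((nat_lit 0), (nat_lit 0), (nat_lit 0)), ((nat_lit 0), (nat_lit 0), (nat_lit 0)), ((nat_lit 858), (nat_lit 1000), (nat_lit 713))], ((nat_lit 100), (nat_lit 91), (nat_lit 64))⟩, (nat_lit 5602458), (nat_lit 324), (nat_lit 324), (nat_lit 0), (nat_lit 33328), [(nat_lit 4688000000), (nat_lit 7968000000), (nat_lit 11872000000)], [], [(nat_lit 21349491212), (nat_lit 23085080015), (nat_lit 20228919368), (nat_lit 21860745352), (nat_lit 17627097692), (nat_lit 18218074440), (nat_lit 20404973040), (nat_lit 17881969864)], (nat_lit 1271251), (nat_lit 1271251), (nat_lit 422188), (nat_lit 780000), (nat_lit 0), (nat_lit 780000), [(nat_lit 1100000), (nat_lit 1785001), (nat_lit 1271251)], [(nat_lit 18), (nat_lit 59), (nat_lit 345), (nat_lit 125), (nat_lit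 9)]⟩,
 ⟨⟨[(nat_lit 140), (nat_lit 180), (nat_lit 200)], [(nat_lit 0), (nat_lit 0), (nat_lit 2835)], [((nat_lit 0), (nat_lit 0), (nat_lit 0)), ((nat_lit 0), (nat_lit 0), (nat_lit 0)), ((nat_lit 363), (nat_lit 1000), (nat_lit 798))], ((nat_lit 0), (nat_lit 0), (nat_lit 0))⟩, (nat_lit 24212), (nat_lit 300), (nat_lit 434), (nat_lit 6872800), (nat_lit 0), [(nat_lit 866096000), (nat_lit 1237104000), (nat_lit 1443200000)], [], [(nat_lit 5690875968), (nat_lit 5603225736), (nat_lit 5801036256), (nat_lit 5706101009), (nat_lit 4653518247), (nat_lit 4571615052), (nat_lit 4734792607), (nat_lit 4647527453)], (nat_lit 0), (nat_lit 0), (nat_lit 0), (nat_lit 0), (nat_lit 0), (nat_lit 0), [], [(nat_lit 32), (nat_lit 67), (nat_lit 373), (nat_lit 150), (nat_lit 8)]⟩⟩)) (.leaf ⟨(nat_lit 0), (nat_lit 0), (nat_lit 0), (nat_lit 1000), (nat_lit 20499), (nat_lit 5346), (nat_lit 4219), (nat_lit 26286), (nat_lit 0), (nat_lit 0), (nat_lit 0), [], Pd.none, Pd.none, (nat_lit 0),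 (nat_lit 1), (nat_lit 0), (nat_lit 0), (nat_lit 0), (nat_lit 0), [⟨(nat_lit 0), (nat_lit 100), (nat_lit 76), (nat_lit 87), (nat_lit 832774873)⟩], [⟨(nat_lit 1), (nat_lit 95), (nat_lit 79), (nat_lit 100), (nat_lit 276481961)⟩], [], [],
 ⟨⟨[(nat_lit 40), (nat_lit 80), (nat_lit 100)], [(nat_lit 0), (nat_lit 395), (nat_lit 1536)], [((nat_lit 0), (nat_lit 0), (nat_lit 0)), ((nat_lit 1000), (nat_lit 908), (nat_lit 154)), ((nat_lit 1000), (nat_lit 760), (nat_lit 642))], ((nat_lit 76), (nat_lit 100), (nat_lit 63))⟩, (nat_lit 1922598), (nat_lit 123), (nat_lit 123), (nat_lit 0), (nat_lit 97442), [(nat_lit 2336723427), (nat_lit 4688000288), (nat_lit 6250000000)], [], [(nat_lit 22006154139), (nat_lit 22829851702), (nat_lit 21687238592), (nat_lit 22462889344), (nat_lit 25737617656), (nat_lit 26434735888), (nat_lit 25203707715), (nat_lit 25861727885)], (nat_lit 1271251), (nat_lit 1271251), (nat_lit 422188), (nat_lit 780000), (nat_lit 1271251), (nat_lit 1271251),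 [(nat_lit 490000), (nat_lit 1100000), (nat_lit 1442501)], [(nat_lit 3), (nat_lit 50), (nat_lit 238), (nat_lit 30), (nat_lit 8)]⟩,
 ⟨⟨[(nat_lit 80), (nat_lit 120), (nat_lit 160)], [(nat_lit 0), (nat_lit 0), (nat_lit 2132)], [((nat_lit 0), (nat_lit 0), (nat_lit 0)), ((nat_lit 0), (nat_lit 0), (nat_lit 0)), ((nat_lit 858), (nat_lit 1000), (nat_lit 713))], ((nat_lit 100), (nat_lit 91), (nat_lit 64))⟩, (nat_lit 0), (nat_lit 231), (nat_lit 231), (nat_lit 0), (nat_lit 148298), [(nat_lit 4688000000), (nat_lit 7968000000), (nat_lit 11872000000)], [], [(nat_lit 32502157654), (nat_lit 33466221254), (nat_lit 32621481713), (nat_lit 33531673528), (nat_lit 43696478335), (nat_lit 41797878432), (nat_lit 46410280185), (nat_lit 44541645796)], (nat_lit 1271251), (nat_lit 1271251), (nat_lit 422188), (nat_lit 780000), (nat_lit 780000), (nat_lit 2826876), [(nat_lit 1100000), (nat_lit 1785001), (nat_lit 1271251)], [(nat_lit 18), (nat_lit 59), (nat_lit 428), (nat_lit 200),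 (nat_lit 11)]⟩,
 ⟨⟨[(nat_lit 140), (nat_lit 180), (nat_lit 200)], [(nat_lit 0), (nat_lit 0), (nat_lit 2835)], [((nat_lit 0), (nat_lit 0), (nat_lit 0)), ((nat_lit 0), (nat_lit 0), (nat_lit 0)), ((nat_lit 363), (nat_lit 1000), (nat_lit 798))], ((nat_lit 0), (nat_lit 0), (nat_lit 0))⟩, (nat_lit 5154040), (nat_lit 246), (nat_lit 246), (nat_lit 0), (nat_lit 0), [(nat_lit 9842000000), (nat_lit 14058000000), (nat_lit 16400000000)], [], [(nat_lit 26780682824), (nat_lit 25772254684), (nat_lit 36515902364), (nat_lit 35098493323), (nat_lit 41488840550), (nat_lit 40173518832), (nat_lit 51827180391), (nat_lit 50095633645)], (nat_lit 0), (nat_lit 0), (nat_lit 0), (nat_lit 0), (nat_lit 0), (nat_lit 0), [], [(nat_lit 32), (nat_lit 67), (nat_lit 456), (nat_lit 225), (nat_lit 9)]⟩⟩)))))) (.spl (nat_lit 6) (nat_lit 36) (.leaf ⟨(nat_lit 234), (nat_lit 0), (nat_lit 0), (nat_lit 766), (nat_lit 19112), (nat_lit 4848), (nat_lit 2768), (nat_lit 12466), (nat_lit 0), (nat_lit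 0), (nat_lit 936000), [((nat_lit 340), [((nat_lit 37), (nat_lit 5), (nat_lit 234))])], ⟨(nat_lit 6), false, false, false, (nat_lit 149), (nat_lit 3872), (nat_lit 4473), [(nat_lit 1305146), (nat_lit 1317698), (nat_lit 1326695), (nat_lit 1339474), (nat_lit 1407125), (nat_lit 1414492), (nat_lit 1428674), (nat_lit 1436268)]⟩, ⟨(nat_lit 6), true, false, true, (nat_lit 238), (nat_lit 3872), (nat_lit 4473), [(nat_lit 1503277), (nat_lit 1499140), (nat_lit 1524844), (nat_lit 1520934), (nat_lit 1673223), (nat_lit 1660444), (nat_lit 1694789), (nat_lit 1682237)]⟩, (nat_lit 4716989), (nat_lit 42885653), (nat_lit 7770835), (nat_lit 16343512), (nat_lit 0), (nat_lit 0), [⟨(nat_lit 0), (nat_lit 100), (nat_lit 78), (nat_lit 85), (nat_lit 941423845)⟩], [], [], [],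
 ⟨⟨[(nat_lit 40), (nat_lit 80), (nat_lit 100)], [(nat_lit 0), (nat_lit 0), (nat_lit 1280)], [((nat_lit 0), (nat_lit 0), (nat_lit 0)), ((nat_lit 0), (nat_lit 0), (nat_lit 0)), ((nat_lit 1000), (nat_lit 800), (nat_lit 600))], ((nat_lit 80), (nat_lit 100), (nat_lit 57))⟩, (nat_lit 0), (nat_lit 133), (nat_lit 133), (nat_lit 0), (nat_lit 68288), [(nat_lit 2158058954), (nat_lit 2811184751), (nat_lit 1907147200)], [(nat_lit 0), (nat_lit 0), (nat_lit 0)], [(nat_lit 20406301688), (nat_lit 21976018362), (nat_lit 19999501923), (nat_lit 21383446127), (nat_lit 26909707486), (nat_lit 28432512022), (nat_lit 25798269784), (nat_lit 27233119636)], (nat_lit 1271251), (nat_lit 1271251), (nat_lit 356250), (nat_lit 780000), (nat_lit 1271251), (nat_lit 1271251), [(nat_lit 490000), (nat_lit 1100000), (nat_lit 1442501)], [(nat_lit 3), (nat_lit 50), (nat_lit 238), (nat_lit 30), (nat_lit 8)]⟩,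
 ⟨⟨[(nat_lit 80), (nat_lit 120), (nat_lit 140)], [(nat_lit 0), (nat_lit 0), (nat_lit 1164)], [((nat_lit 0), (nat_lit 0), (nat_lit 0)), ((nat_lit 0), (nat_lit 0), (nat_lit 0)), ((nat_lit 941), (nat_lit 1000), (nat_lit 576))], ((nat_lit 100), (nat_lit 94), (nat_lit 58))⟩, (nat_lit 0), (nat_lit 285), (nat_lit 285), (nat_lit 0), (nat_lit 103808), [(nat_lit 3591008000), (nat_lit 6103488000), (nat_lit 7538972000)], [], [(nat_lit 30730615488), (nat_lit 31369116857), (nat_lit 30773108952), (nat_lit 31374654088), (nat_lit 37321898510), (nat_lit 36103703700), (nat_lit 39649665912), (nat_lit 38454013434)], (nat_lit 1271251), (nat_lit 1271251), (nat_lit 356250), (nat_lit 780000), (nat_lit 0), (nat_lit 2613125), [(nat_lit 1100000), (nat_lit 1785001), (nat_lit 1271251)], [(nat_lit 17), (nat_lit 58), (nat_lit 428), (nat_lit 200), (nat_lit 13)]⟩,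
 ⟨⟨[(nat_lit 140), (nat_lit 160), (nat_lit 180)], [(nat_lit 0), (nat_lit 304), (nat_lit 1085)], [((nat_lit 0), (nat_lit 0), (nat_lit 0)), ((nat_lit 913), (nat_lit 1000), (nat_lit 217)), ((nat_lit 759), (nat_lit 1000), (nat_lit 463))], ((nat_lit 100), (nat_lit 64), (nat_lit 60))⟩, (nat_lit 723732), (nat_lit 300), (nat_lit 321), (nat_lit 55462110), (nat_lit 0), [(nat_lit 7538972000), (nat_lit 9093952000), (nat_lit 10768428000)], [], [(nat_lit 34823774115), (nat_lit 34180376856), (nat_lit 41654848180), (nat_lit 40902531194), (nat_lit 30081481877), (nat_lit 29271537539), (nat_lit 33143485482), (nat_lit 32323392398)], (nat_lit 0), (nat_lit 0), (nat_lit 0), (nat_lit 0), (nat_lit 0), (nat_lit 0), [], [(nat_lit 31), (nat_lit 65), (nat_lit 456), (nat_lit 225), (nat_lit 11)]⟩⟩) (.dle (nat_lit 0))))) (.spl (nat_lit 6) (nat_lit 32) (.leaf ⟨(nat_lit 0), (nat_lit 0), (nat_lit 0), (nat_lit 1000), (nat_lit 24335), (nat_lit 6241), (nat_lit 3613), (nat_lit 16223),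 (nat_lit 0), (nat_lit 0), (nat_lit 0), [], Pd.none, Pd.none, (nat_lit 0), (nat_lit 1), (nat_lit 0), (nat_lit 0), (nat_lit 0), (nat_lit 0), [⟨(nat_lit 0), (nat_lit 100), (nat_lit 78), (nat_lit 85), (nat_lit 1211212950)⟩], [], [], [],
 ⟨⟨[(nat_lit 40), (nat_lit 80), (nat_lit 100)], [(nat_lit 0), (nat_lit 0), (nat_lit 1280)], [((nat_lit 0), (nat_lit 0), (nat_lit 0)), ((nat_lit 0), (nat_lit 0), (nat_lit 0)), ((nat_lit 1000), (nat_lit 800), (nat_lit 600))], ((nat_lit 80), (nat_lit 100), (nat_lit 54))⟩, (nat_lit 1906433), (nat_lit 132), (nat_lit 132), (nat_lit 0), (nat_lit 47816), [(nat_lit 2768874415), (nat_lit 4688000178), (nat_lit 6250000000)], [], [(nat_lit 21693118131), (nat_lit 23515550939), (nat_lit 20720643288), (nat_lit 22420943533), (nat_lit 29857949922), (nat_lit 31562268817), (nat_lit 28047982929), (nat_lit 29650805886)], (nat_lit 1271251), (nat_lit 1271251), (nat_lit 356250), (nat_lit 780000), (nat_lit 1271251), (nat_lit 1271251), [(nat_lit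 490000), (nat_lit 1100000), (nat_lit 1442501)], [(nat_lit 3), (nat_lit 50), (nat_lit 238), (nat_lit 30), (nat_lit 8)]⟩,
 ⟨⟨[(nat_lit 80), (nat_lit 120), (nat_lit 140)], [(nat_lit 0), (nat_lit 0), (nat_lit 1164)], [((nat_lit 0), (nat_lit 0), (nat_lit 0)), ((nat_lit 0), (nat_lit 0), (nat_lit 0)), ((nat_lit 941), (nat_lit 1000), (nat_lit 576))], ((nat_lit 100), (nat_lit 95), (nat_lit 55))⟩, (nat_lit 0), (nat_lit 245), (nat_lit 245), (nat_lit 0), (nat_lit 73163), [(nat_lit 4688000000), (nat_lit 7968000000), (nat_lit 9842000000)], [], [(nat_lit 40117373163), (nat_lit 40952737221), (nat_lit 40174876262), (nat_lit 40960143560), (nat_lit 48723041782), (nat_lit 47132963079), (nat_lit 51761688029), (nat_lit 50201033260)], (nat_lit 1271251), (nat_lit 1271251), (nat_lit 356250), (nat_lit 780000), (nat_lit 0), (nat_lit 2613125), [(nat_lit 1100000), (nat_lit 1785001), (nat_lit 1271251)], [(nat_lit 17), (nat_lit 58), (nat_lit 428), (nat_lit 200), (nat_lit 13)]⟩,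
 ⟨⟨[(nat_lit 120), (nat_lit 160), (nat_lit 180)], [(nat_lit 0), (nat_lit 0), (nat_lit 1613)], [((nat_lit 0), (nat_lit 0), (nat_lit 0)), ((nat_lit 0), (nat_lit 0), (nat_lit 0)), ((nat_lit 620), (nat_lit 1000), (nat_lit 670))], ((nat_lit 100), (nat_lit 73), (nat_lit 55))⟩, (nat_lit 435214), (nat_lit 300), (nat_lit 314), (nat_lit 74200000), (nat_lit 0), [(nat_lit 7968000000), (nat_lit 11872000000), (nat_lit 14058000000)], [], [(nat_lit 45093912895), (nat_lit 45087306555), (nat_lit 55069175778), (nat_lit 55016851474), (nat_lit 38546787239), (nat_lit 38227569235), (nat_lit 43487116775), (nat_lit 43371200081)], (nat_lit 0), (nat_lit 0), (nat_lit 0), (nat_lit 0), (nat_lit 0), (nat_lit 0), [], [(nat_lit 28), (nat_lit 65), (nat_lit 456), (nat_lit 225), (nat_lit 11)]⟩⟩) (.dle (nat_lit 0))))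
noncomputable def c11_28 : Tr Lf :=
 (.trZ (nat_lit 0) (nat_lit 1) (nat_lit 3) (nat_lit 100) (nat_lit 84) (nat_lit 85) (nat_lit 80) (.spl (nat_lit 5) (nat_lit 120) (.leaf ⟨(nat_lit 0), (nat_lit 697), (nat_lit 0), (nat_lit 303), (nat_lit 17545), (nat_lit 5760), (nat_lit 7640), (nat_lit 3543), (nat_lit 0), (nat_lit 0), (nat_lit 0), [], Pd.none, Pd.none, (nat_lit 0), (nat_lit 1), (nat_lit 0), (nat_lit 0), (nat_lit 6), (nat_lit 0), [⟨(nat_lit 0), (nat_lit 100), (nat_lit 81), (nat_lit 93), (nat_lit 810353257)⟩], [⟨(nat_lit 1), (nat_lit 85), (nat_lit 78), (nat_lit 100), (nat_lit 275550086)⟩], [], [],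
 ⟨⟨[(nat_lit 40), (nat_lit 80), (nat_lit 120)], [(nat_lit 0), (nat_lit 0), (nat_lit 2151)], [((nat_lit 0), (nat_lit 0), (nat_lit 0)), ((nat_lit 0), (nat_lit 0), (nat_lit 0)), ((nat_lit 1000), (nat_lit 815), (nat_lit 753))], ((nat_lit 80), (nat_lit 100), (nat_lit 63))⟩, (nat_lit 2195390), (nat_lit 165), (nat_lit 165), (nat_lit 0), (nat_lit 151364), [(nat_lit 2409846328), (nat_lit 4688000001), (nat_lit 7968000000)], [], [(nat_lit 21999311790), (nat_lit 23575544110), (nat_lit 21977415630), (nat_lit 23472834810), (nat_lit 28090363950), (nat_lit 29508384810), (nat_lit 27751749660), (nat_lit 29063719044)], (nat_lit 1271251), (nat_lit 1271251), (nat_lit 490000), (nat_lit 780000), (nat_lit 1271251), (nat_lit 1271251), [(nat_lit 490000), (nat_lit 1100000), (nat_lit 1785001)], [(nat_lit 4), (nat_lit 51), (nat_lit 238), (nat_lit 30), (nat_lit 7)]⟩,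
 ⟨⟨[(nat_lit 80), (nat_lit 120), (nat_lit 140)], [(nat_lit 0), (nat_lit 528), (nat_lit 1572)], [((nat_lit 0), (nat_lit 0), (nat_lit 0)), ((nat_lit 1000), (nat_lit 959), (nat_lit 206)), ((nat_lit 966), (nat_lit 1000), (nat_lit 679))], ((nat_lit 100), (nat_lit 98), (nat_lit 66))⟩, (nat_lit 5055518), (nat_lit 286), (nat_lit 286), (nat_lit 0), (nat_lit 135251), [(nat_lit 4688000000), (nat_lit 7968000000), (nat_lit 9842000000)], [], [(nat_lit 19566486344), (nat_lit 21512181864), (nat_lit 19606244836), (nat_lit 21337741536), (nat_lit 15681412356), (nat_lit 17301201656), (nat_lit 15896783436), (nat_lit 17419813216)], (nat_lit 1271251), (nat_lit 1271251), (nat_lit 490000), (nat_lit 780000), (nat_lit 0), (nat_lit 780000), [(nat_lit 1100000), (nat_lit 1785001), (nat_lit 1271251)], [(nat_lit 17), (nat_lit 58), (nat_lit 373), (nat_lit 150), (nat_lit 11)]⟩,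
 ⟨⟨[(nat_lit 140), (nat_lit 180), (nat_lit 200)], [(nat_lit 0), (nat_lit 0), (nat_lit 2835)], [((nat_lit 0), (nat_lit 0), (nat_lit 0)), ((nat_lit 0), (nat_lit 0), (nat_lit 0)), ((nat_lit 363), (nat_lit 1000), (nat_lit 798))], ((nat_lit 0), (nat_lit 0), (nat_lit 0))⟩, (nat_lit 83365), (nat_lit 300), (nat_lit 434), (nat_lit 23664302), (nat_lit 0), [(nat_lit 2982126000), (nat_lit 4259574000), (nat_lit 4969200000)], [], [(nat_lit 19585982679), (nat_lit 18966073202), (nat_lit 20266067942), (nat_lit 19537291160), (nat_lit 16524604179), (nat_lit 15951384911), (nat_lit 17117598855), (nat_lit 16431841357)], (nat_lit 0), (nat_lit 0), (nat_lit 0), (nat_lit 0), (nat_lit 0), (nat_lit 0), [], [(nat_lit 32), (nat_lit 67), (nat_lit 401), (nat_lit 175), (nat_lit 9)]⟩⟩) (.leaf ⟨(nat_lit 0), (nat_lit 0), (nat_lit 0), (nat_lit 1000), (nat_lit 21381), (nat_lit 5760), (nat_lit 8353), (nat_lit 15836), (nat_lit 0), (nat_lit 0), (nat_lit 0), [], Pd.none, Pd.none, (nat_lit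 0), (nat_lit 1), (nat_lit 0), (nat_lit 0), (nat_lit 0), (nat_lit 0), [⟨(nat_lit 0), (nat_lit 100), (nat_lit 81), (nat_lit 93), (nat_lit 1828184908)⟩], [⟨(nat_lit 1), (nat_lit 85), (nat_lit 78), (nat_lit 100), (nat_lit 182940598)⟩], [], [],
 ⟨⟨[(nat_lit 40), (nat_lit 80), (nat_lit 120)], [(nat_lit 0), (nat_lit 0), (nat_lit 2151)], [((nat_lit 0), (nat_lit 0), (nat_lit 0)), ((nat_lit 0), (nat_lit 0), (nat_lit 0)), ((nat_lit 1000), (nat_lit 815), (nat_lit 753))], ((nat_lit 80), (nat_lit 100), (nat_lit 63))⟩, (nat_lit 2549680), (nat_lit 165), (nat_lit 165), (nat_lit 0), (nat_lit 151364), [(nat_lit 2379259764), (nat_lit 4688000038), (nat_lit 7968000000)], [], [(nat_lit 21237234000), (nat_lit 22813466320), (nat_lit 21215337840), (nat_lit 22710758158), (nat_lit 27996505298), (nat_lit 29508384810), (nat_lit 27751749448), (nat_lit 29063719081)], (nat_lit 1271251), (nat_lit 1271251), (nat_lit 490000), (nat_lit 780000), (nat_lit 1271251), (nat_lit 1271251),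 [(nat_lit 490000), (nat_lit 1100000), (nat_lit 1785001)], [(nat_lit 4), (nat_lit 51), (nat_lit 238), (nat_lit 30), (nat_lit 7)]⟩,
 ⟨⟨[(nat_lit 80), (nat_lit 120), (nat_lit 140)], [(nat_lit 0), (nat_lit 528), (nat_lit 1572)], [((nat_lit 0), (nat_lit 0), (nat_lit 0)), ((nat_lit 1000), (nat_lit 959), (nat_lit 206)), ((nat_lit 966), (nat_lit 1000), (nat_lit 679))], ((nat_lit 100), (nat_lit 98), (nat_lit 66))⟩, (nat_lit 0), (nat_lit 217), (nat_lit 217), (nat_lit 0), (nat_lit 202937), [(nat_lit 4688000000), (nat_lit 7968000000), (nat_lit 9842000000)], [], [(nat_lit 29019746962), (nat_lit 24700957783), (nat_lit 21849534617), (nat_lit 23580834709), (nat_lit 39179306500), (nat_lit 35662933829), (nat_lit 42387059590), (nat_lit 38590961997)], (nat_lit 1271251), (nat_lit 1271251), (nat_lit 490000), (nat_lit 780000), (nat_lit 780000), (nat_lit 2826876), [(nat_lit 1100000), (nat_lit 1785001), (nat_lit 1271251)], [(nat_lit 17), (nat_lit 58), (nat_lit 428), (nat_lit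 200), (nat_lit 12)]⟩,
 ⟨⟨[(nat_lit 140), (nat_lit 180), (nat_lit 200)], [(nat_lit 0), (nat_lit 0), (nat_lit 2835)], [((nat_lit 0), (nat_lit 0), (nat_lit 0)), ((nat_lit 0), (nat_lit 0), (nat_lit 0)), ((nat_lit 363), (nat_lit 1000), (nat_lit 798))], ((nat_lit 0), (nat_lit 0), (nat_lit 0))⟩, (nat_lit 3633162), (nat_lit 267), (nat_lit 267), (nat_lit 0), (nat_lit 0), [(nat_lit 9842000000), (nat_lit 14058000000), (nat_lit 16400000000)], [], [(nat_lit 30178471400), (nat_lit 29805499432), (nat_lit 41749898773), (nat_lit 40016339351), (nat_lit 41363261998), (nat_lit 39023838553), (nat_lit 46175450371), (nat_lit 43104039837)], (nat_lit 0), (nat_lit 0), (nat_lit 0), (nat_lit 0), (nat_lit 0), (nat_lit 0), [], [(nat_lit 32), (nat_lit 67), (nat_lit 456), (nat_lit 225), (nat_lit 9)]⟩⟩)))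
noncomputable def c11_29 : Tr Lf :=
 (.trZ (nat_lit 0) (nat_lit 1) (nat_lit 3) (nat_lit 100) (nat_lit 87) (nat_lit 95) (nat_lit 100) (.spl (nat_lit 2) (nat_lit 160) (.trX (nat_lit 4) (nat_lit 0) (nat_lit 2) (nat_lit 82) (nat_lit 76) (nat_lit 100) (nat_lit 340) (.spl (nat_lit 0) (nat_lit 330) (.spl (nat_lit 0) (nat_lit 325) (.spl (nat_lit 1) (nat_lit 300) (.leaf ⟨(nat_lit 116), (nat_lit 534), (nat_lit 0), (nat_lit 350), (nat_lit 0), (nat_lit 5456), (nat_lit 5594), (nat_lit 4133), (nat_lit 0), (nat_lit 0), (nat_lit 464000), [((nat_lit 325), [((nat_lit 37), (nat_lit 5), (nat_lit 116))])], ⟨(nat_lit 7), false, false, false, (nat_lit 178), (nat_lit 4330), (nat_lit 4473), [(nat_lit 1416316), (nat_lit 1418656), (nat_lit 1437881), (nat_lit 1440268), (nat_lit 1450305), (nat_lit 1452215), (nat_lit 1471870), (nat_lit 1473827)]⟩, ⟨(nat_lit 6), true, false, true, (nat_lit 235), (nat_lit 4330), (nat_lit 4473), [(nat_lit 1481711), (nat_lit 1480662), (nat_lit 1524844),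 (nat_lit 1523889), (nat_lit 1651656), (nat_lit 1648456), (nat_lit 1694789), (nat_lit 1691683)]⟩, (nat_lit 4966634), (nat_lit 41311538), (nat_lit 10056083), (nat_lit 15632379), (nat_lit 6), (nat_lit 0), [⟨(nat_lit 0), (nat_lit 100), (nat_lit 87), (nat_lit 95), (nat_lit 626368800)⟩], [⟨(nat_lit 1), (nat_lit 86), (nat_lit 83), (nat_lit 100), (nat_lit 137739714)⟩], [], [],
 ⟨⟨[(nat_lit 40), (nat_lit 80), (nat_lit 120)], [(nat_lit 0), (nat_lit 0), (nat_lit 2151)], [((nat_lit 0), (nat_lit 0), (nat_lit 0)), ((nat_lit 0), (nat_lit 0), (nat_lit 0)), ((nat_lit 1000), (nat_lit 815), (nat_lit 753))], ((nat_lit 80), (nat_lit 100), (nat_lit 63))⟩, (nat_lit 1430997), (nat_lit 199), (nat_lit 199), (nat_lit 0), (nat_lit 323756), [(nat_lit 2218962049), (nat_lit 3618664797), (nat_lit 4575600809)], [(nat_lit 0), (nat_lit 0), (nat_lit 0)], [(nat_lit 21400121595), (nat_lit 21754303956), (nat_lit 21470990314), (nat_lit 21825039751), (nat_lit 26527331356), (nat_lit 26919747018),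 (nat_lit 26468222878), (nat_lit 26779326259)], (nat_lit 1271251), (nat_lit 1271251), (nat_lit 631250), (nat_lit 780000), (nat_lit 1271251), (nat_lit 1271251), [(nat_lit 490000), (nat_lit 1100000), (nat_lit 1785001)], [(nat_lit 4), (nat_lit 51), (nat_lit 238), (nat_lit 30), (nat_lit 7)]⟩,
 ⟨⟨[(nat_lit 60), (nat_lit 100), (nat_lit 140)], [(nat_lit 0), (nat_lit 0), (nat_lit 2047)], [((nat_lit 0), (nat_lit 0), (nat_lit 0)), ((nat_lit 0), (nat_lit 0), (nat_lit 0)), ((nat_lit 1000), (nat_lit 993), (nat_lit 781))], ((nat_lit 95), (nat_lit 100), (nat_lit 65))⟩, (nat_lit 96167), (nat_lit 368), (nat_lit 368), (nat_lit 0), (nat_lit 368817), [(nat_lit 2901288000), (nat_lit 5525000000), (nat_lit 8700328000)], [], [(nat_lit 28492083352), (nat_lit 29649068487), (nat_lit 28515872125), (nat_lit 29622011017), (nat_lit 35474813833), (nat_lit 33245718121), (nat_lit 36882627098), (nat_lit 34436030363)], (nat_lit 1271251), (nat_lit 1271251), (nat_lit 631250), (nat_lit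 780000), (nat_lit 0), (nat_lit 2613125), [(nat_lit 780000), (nat_lit 1435001), (nat_lit 1271251)], [(nat_lit 11), (nat_lit 55), (nat_lit 345), (nat_lit 125), (nat_lit 10)]⟩,
 ⟨⟨[(nat_lit 140), (nat_lit 180), (nat_lit 200)], [(nat_lit 0), (nat_lit 0), (nat_lit 2835)], [((nat_lit 0), (nat_lit 0), (nat_lit 0)), ((nat_lit 0), (nat_lit 0), (nat_lit 0)), ((nat_lit 363), (nat_lit 1000), (nat_lit 798))], ((nat_lit 0), (nat_lit 0), (nat_lit 0))⟩, (nat_lit 96296), (nat_lit 300), (nat_lit 434), (nat_lit 27335005), (nat_lit 0), [(nat_lit 3444700000), (nat_lit 4920300000), (nat_lit 5740000000)], [], [(nat_lit 22623991880), (nat_lit 22025290636), (nat_lit 23283205785), (nat_lit 22610450090), (nat_lit 18474481808), (nat_lit 17823961189), (nat_lit 18494014178), (nat_lit 17798093597)], (nat_lit 0), (nat_lit 0), (nat_lit 0), (nat_lit 0), (nat_lit 0), (nat_lit 0), [], [(nat_lit 32), (nat_lit 67), (nat_lit 456), (nat_lit 225), (nat_lit 10)]⟩⟩) (.emL (nat_lit 0) (nat_lit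 1) (nat_lit 3) (nat_lit 94) (nat_lit 87) (nat_lit 100))) (.trX (nat_lit 4) (nat_lit 0) (nat_lit 2) (nat_lit 80) (nat_lit 78) (nat_lit 100) (nat_lit 330) (.leaf ⟨(nat_lit 0), (nat_lit 638), (nat_lit 0), (nat_lit 362), (nat_lit 0), (nat_lit 6088), (nat_lit 6514), (nat_lit 4328), (nat_lit 0), (nat_lit 0), (nat_lit 0), [], Pd.none, Pd.none, (nat_lit 0), (nat_lit 1), (nat_lit 0), (nat_lit 0), (nat_lit 6), (nat_lit 0), [⟨(nat_lit 0), (nat_lit 100), (nat_lit 85), (nat_lit 97), (nat_lit 765561126)⟩], [⟨(nat_lit 1), (nat_lit 88), (nat_lit 81), (nat_lit 100), (nat_lit 127963409)⟩], [], [],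
 ⟨⟨[(nat_lit 40), (nat_lit 80), (nat_lit 120)], [(nat_lit 0), (nat_lit 192), (nat_lit 2304)], [((nat_lit 0), (nat_lit 0), (nat_lit 0)), ((nat_lit 1000), (nat_lit 955), (nat_lit 75)), ((nat_lit 1000), (nat_lit 794), (nat_lit 771))], ((nat_lit 78), (nat_lit 100), (nat_lit 63))⟩, (nat_lit 2245734), (nat_lit 253), (nat_lit 253), (nat_lit 0), (nat_lit 401297), [(nat_lit 2311276407), (nat_lit 4688000025), (nat_lit 7968000000)], [], [(nat_lit 22621364306), (nat_lit 22955575723), (nat_lit 22580693387), (nat_lit 22906075261), (nat_lit 26755804750), (nat_lit 27187029277), (nat_lit 26574354060), (nat_lit 26993424511)], (nat_lit 1271251), (nat_lit 1271251), (nat_lit 631250), (nat_lit 780000), (nat_lit 1271251), (nat_lit 1271251), [(nat_lit 490000), (nat_lit 1100000), (nat_lit 1785001)], [(nat_lit 4), (nat_lit 51), (nat_lit 238), (nat_lit 30), (nat_lit 7)]⟩,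
 ⟨⟨[(nat_lit 60), (nat_lit 100), (nat_lit 140)], [(nat_lit 0), (nat_lit 0), (nat_lit 2047)], [((nat_lit 0), (nat_lit 0), (nat_lit 0)), ((nat_lit 0), (nat_lit 0), (nat_lit 0)), ((nat_lit 1000), (nat_lit 993), (nat_lit 781))], ((nat_lit 95), (nat_lit 100), (nat_lit 65))⟩, (nat_lit 1828012), (nat_lit 436), (nat_lit 436), (nat_lit 0), (nat_lit 432458), [(nat_lit 3282000000), (nat_lit 6250000000), (nat_lit 9842000000)], [], [(nat_lit 32222983422), (nat_lit 34279718286), (nat_lit 32182816720), (nat_lit 34178643976), (nat_lit 39941976680), (nat_lit 36181580664), (nat_lit 41563837940), (nat_lit 35899675720)], (nat_lit 1271251), (nat_lit 1271251), (nat_lit 631250), (nat_lit 780000), (nat_lit 0), (nat_lit 2613125), [(nat_lit 780000), (nat_lit 1435001), (nat_lit 1271251)], [(nat_lit 11), (nat_lit 55), (nat_lit 345), (nat_lit 125), (nat_lit 10)]⟩,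
 ⟨⟨[(nat_lit 140), (nat_lit 180), (nat_lit 200)], [(nat_lit 0), (nat_lit 0), (nat_lit 2835)], [((nat_lit 0), (nat_lit 0), (nat_lit 0)), ((nat_lit 0), (nat_lit 0), (nat_lit 0)), ((nat_lit 363), (nat_lit 1000), (nat_lit 798))], ((nat_lit 0), (nat_lit 0), (nat_lit 0))⟩, (nat_lit 99598), (nat_lit 300), (nat_lit 434), (nat_lit 28272200), (nat_lit 0), [(nat_lit 3562804000), (nat_lit 5088996000), (nat_lit 5936800000)], [], [(nat_lit 23399561659), (nat_lit 22769521621), (nat_lit 23949371790), (nat_lit 23251877871), (nat_lit 19042491006), (nat_lit 18358566813), (nat_lit 19002983950), (nat_lit 18277824137)], (nat_lit 0), (nat_lit 0), (nat_lit 0), (nat_lit 0), (nat_lit 0), (nat_lit 0), [], [(nat_lit 32), (nat_lit 67), (nat_lit 456), (nat_lit 225), (nat_lit 10)]⟩⟩))) (.trZ (nat_lit 0) (nat_lit 1) (nat_lit 3) (nat_lit 100) (nat_lit 83) (nat_lit 98) (nat_lit 110) (.trX (nat_lit 4) (nat_lit 0) (nat_lit 2) (nat_lit 78) (nat_lit 81) (nat_lit 100) (nat_lit 330) (.leaf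 ⟨(nat_lit 0), (nat_lit 628), (nat_lit 0), (nat_lit 372), (nat_lit 0), (nat_lit 5749), (nat_lit 6516), (nat_lit 4447), (nat_lit 0), (nat_lit 0), (nat_lit 0), [], Pd.none, Pd.none, (nat_lit 0), (nat_lit 1), (nat_lit 0), (nat_lit 0), (nat_lit 6), (nat_lit 0), [⟨(nat_lit 0), (nat_lit 100), (nat_lit 83), (nat_lit 98), (nat_lit 763251233)⟩], [⟨(nat_lit 1), (nat_lit 91), (nat_lit 77), (nat_lit 100), (nat_lit 144544285)⟩], [], [],
 ⟨⟨[(nat_lit 40), (nat_lit 80), (nat_lit 100)], [(nat_lit 0), (nat_lit 395), (nat_lit 1536)], [((nat_lit 0), (nat_lit 0), (nat_lit 0)), ((nat_lit 1000), (nat_lit 908), (nat_lit 154)), ((nat_lit 1000), (nat_lit 760), (nat_lit 642))], ((nat_lit 76), (nat_lit 100), (nat_lit 63))⟩, (nat_lit 1943594), (nat_lit 223), (nat_lit 223), (nat_lit 0), (nat_lit 420376), [(nat_lit 2082331138), (nat_lit 4688000003), (nat_lit 6250000000)], [], [(nat_lit 22433263592), (nat_lit 23123794528), (nat_lit 22439553427), (nat_lit 23120855348), (nat_lit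 26740660640), (nat_lit 27563717695), (nat_lit 26661760820), (nat_lit 27473447574)], (nat_lit 1271251), (nat_lit 1271251), (nat_lit 704688), (nat_lit 780000), (nat_lit 1271251), (nat_lit 1271251), [(nat_lit 490000), (nat_lit 1100000), (nat_lit 1442501)], [(nat_lit 3), (nat_lit 50), (nat_lit 238), (nat_lit 30), (nat_lit 8)]⟩,
 ⟨⟨[(nat_lit 60), (nat_lit 100), (nat_lit 140)], [(nat_lit 0), (nat_lit 0), (nat_lit 2047)], [((nat_lit 0), (nat_lit 0), (nat_lit 0)), ((nat_lit 0), (nat_lit 0), (nat_lit 0)), ((nat_lit 1000), (nat_lit 993), (nat_lit 781))], ((nat_lit 95), (nat_lit 100), (nat_lit 65))⟩, (nat_lit 2639803), (nat_lit 446), (nat_lit 446), (nat_lit 0), (nat_lit 471632), [(nat_lit 3282000000), (nat_lit 6250000000), (nat_lit 9842000000)], [], [(nat_lit 30537604877), (nat_lit 32564112089), (nat_lit 30517024091), (nat_lit 32513500019), (nat_lit 40722873926), (nat_lit 35064131199), (nat_lit 41562132163), (nat_lit 35862445240)], (nat_lit 1271251), (nat_lit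 1271251), (nat_lit 704688), (nat_lit 780000), (nat_lit 0), (nat_lit 2613125), [(nat_lit 780000), (nat_lit 1435001), (nat_lit 1271251)], [(nat_lit 11), (nat_lit 55), (nat_lit 345), (nat_lit 125), (nat_lit 10)]⟩,
 ⟨⟨[(nat_lit 140), (nat_lit 180), (nat_lit 200)], [(nat_lit 0), (nat_lit 0), (nat_lit 2835)], [((nat_lit 0), (nat_lit 0), (nat_lit 0)), ((nat_lit 0), (nat_lit 0), (nat_lit 0)), ((nat_lit 363), (nat_lit 1000), (nat_lit 798))], ((nat_lit 0), (nat_lit 0), (nat_lit 0))⟩, (nat_lit 102349), (nat_lit 300), (nat_lit 434), (nat_lit 29053203), (nat_lit 0), [(nat_lit 3661224000), (nat_lit 5229576000), (nat_lit 6100800000)], [], [(nat_lit 24045960820), (nat_lit 23398629560), (nat_lit 24610978918), (nat_lit 23894241810), (nat_lit 19569212590), (nat_lit 18866511679), (nat_lit 19528696637), (nat_lit 18783625030)], (nat_lit 0), (nat_lit 0), (nat_lit 0), (nat_lit 0), (nat_lit 0), (nat_lit 0), [], [(nat_lit 32), (nat_lit 67), (nat_lit 456), (nat_lit 225), (nat_lit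 10)]⟩⟩))))) (.leaf ⟨(nat_lit 0), (nat_lit 0), (nat_lit 0), (nat_lit 1000), (nat_lit 0), (nat_lit 7466), (nat_lit 8023), (nat_lit 14632), (nat_lit 0), (nat_lit 0), (nat_lit 0), [], Pd.none, Pd.none, (nat_lit 0), (nat_lit 1), (nat_lit 0), (nat_lit 0), (nat_lit 0), (nat_lit 0), [⟨(nat_lit 0), (nat_lit 100), (nat_lit 87), (nat_lit 95), (nat_lit 1120678310)⟩], [], [⟨(nat_lit 0), (nat_lit 100), (nat_lit 94), (nat_lit 21), (nat_lit 606060865)⟩], [],
 ⟨⟨[(nat_lit 40), (nat_lit 80), (nat_lit 120)], [(nat_lit 0), (nat_lit 0), (nat_lit 2151)], [((nat_lit 0), (nat_lit 0), (nat_lit 0)), ((nat_lit 0), (nat_lit 0), (nat_lit 0)), ((nat_lit 1000), (nat_lit 815), (nat_lit 753))], ((nat_lit 80), (nat_lit 100), (nat_lit 63))⟩, (nat_lit 2500059), (nat_lit 257), (nat_lit 257), (nat_lit 0), (nat_lit 389840), [(nat_lit 2561269802), (nat_lit 4688000542), (nat_lit 7968000000)], [], [(nat_lit 20232039152), (nat_lit 22751359157), (nat_lit 20133716376), (nat_lit 22582309327),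 (nat_lit 29719079478), (nat_lit 31554475216), (nat_lit 29358547035), (nat_lit 31146010567)], (nat_lit 1271251), (nat_lit 1271251), (nat_lit 631250), (nat_lit 780000), (nat_lit 1271251), (nat_lit 1271251), [(nat_lit 490000), (nat_lit 1100000), (nat_lit 1785001)], [(nat_lit 4), (nat_lit 51), (nat_lit 238), (nat_lit 30), (nat_lit 7)]⟩,
 ⟨⟨[(nat_lit 60), (nat_lit 100), (nat_lit 140)], [(nat_lit 0), (nat_lit 0), (nat_lit 2047)], [((nat_lit 0), (nat_lit 0), (nat_lit 0)), ((nat_lit 0), (nat_lit 0), (nat_lit 0)), ((nat_lit 1000), (nat_lit 993), (nat_lit 781))], ((nat_lit 95), (nat_lit 100), (nat_lit 65))⟩, (nat_lit 828028), (nat_lit 438), (nat_lit 438), (nat_lit 0), (nat_lit 436502), [(nat_lit 3282000000), (nat_lit 6250000000), (nat_lit 9842000000)], [], [(nat_lit 32157822947), (nat_lit 33868562259), (nat_lit 31445390880), (nat_lit 33654441214), (nat_lit 38417090871), (nat_lit 35244654015), (nat_lit 40276829571), (nat_lit 34776484335)], (nat_lit 1271251),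 (nat_lit 1271251), (nat_lit 631250), (nat_lit 780000), (nat_lit 0), (nat_lit 2613125), [(nat_lit 780000), (nat_lit 1435001), (nat_lit 1271251)], [(nat_lit 11), (nat_lit 55), (nat_lit 345), (nat_lit 125), (nat_lit 10)]⟩,
 ⟨⟨[(nat_lit 120), (nat_lit 160), (nat_lit 180)], [(nat_lit 0), (nat_lit 0), (nat_lit 1613)], [((nat_lit 0), (nat_lit 0), (nat_lit 0)), ((nat_lit 0), (nat_lit 0), (nat_lit 0)), ((nat_lit 620), (nat_lit 1000), (nat_lit 670))], ((nat_lit 100), (nat_lit 65), (nat_lit 64))⟩, (nat_lit 435214), (nat_lit 300), (nat_lit 314), (nat_lit 74200000), (nat_lit 0), [(nat_lit 7968000000), (nat_lit 11872000000), (nat_lit 14058000000)], [], [(nat_lit 45498071523), (nat_lit 45535565157), (nat_lit 53280859958), (nat_lit 53279245597), (nat_lit 38862875982), (nat_lit 38615120129), (nat_lit 43092566724), (nat_lit 42579892860)], (nat_lit 0), (nat_lit 0), (nat_lit 0), (nat_lit 0), (nat_lit 0), (nat_lit 0), [], [(nat_lit 28), (nat_lit 65), (nat_lit 456), (nat_lit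 225), (nat_lit 11)]⟩⟩)))
noncomputable def c11_30 : Tr Lf :=
 (.spl (nat_lit 1) (nat_lit 280) (.spl (nat_lit 1) (nat_lit 260) (.leaf ⟨(nat_lit 1000), (nat_lit 0), (nat_lit 0), (nat_lit 0), (nat_lit 3004), (nat_lit 4167), (nat_lit 0), (nat_lit 0), (nat_lit 0), (nat_lit 0), (nat_lit 250000), [((nat_lit 340), [((nat_lit 19), (nat_lit 0), (nat_lit 1000))])], ⟨(nat_lit 6), false, false, false, (nat_lit 149), (nat_lit 3872), (nat_lit 4473), [(nat_lit 1305146), (nat_lit 1317698), (nat_lit 1326695), (nat_lit 1339474), (nat_lit 1407125), (nat_lit 1414492), (nat_lit 1428674), (nat_lit 1436268)]⟩, ⟨(nat_lit 6), false, false, true, (nat_lit 214), (nat_lit 3872), (nat_lit 4473), [(nat_lit 1481711), (nat_lit 1477347), (nat_lit 1524844), (nat_lit 1520934), (nat_lit 1549689), (nat_lit 1541869), (nat_lit 1592822), (nat_lit 1585455)]⟩, (nat_lit 4555059), (nat_lit 44926875), (nat_lit 7969361), (nat_lit 14103764), (nat_lit 0), (nat_lit 0), [⟨(nat_lit 0), (nat_lit 100),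 (nat_lit 78), (nat_lit 85), (nat_lit 149499749)⟩], [], [], [],
 ⟨⟨[(nat_lit 40), (nat_lit 80), (nat_lit 120)], [(nat_lit 0), (nat_lit 0), (nat_lit 2151)], [((nat_lit 0), (nat_lit 0), (nat_lit 0)), ((nat_lit 0), (nat_lit 0), (nat_lit 0)), ((nat_lit 1000), (nat_lit 815), (nat_lit 753))], ((nat_lit 80), (nat_lit 100), (nat_lit 63))⟩, (nat_lit 0), (nat_lit 77), (nat_lit 77), (nat_lit 0), (nat_lit 0), [(nat_lit 1653019181), (nat_lit 2170400006), (nat_lit 2931999982)], [(nat_lit 0), (nat_lit 0), (nat_lit 0)], [(nat_lit 19909314053), (nat_lit 21454256615), (nat_lit 19705901864), (nat_lit 21152981248), (nat_lit 22046685978), (nat_lit 23620523162), (nat_lit 21714612509), (nat_lit 23041520722)], (nat_lit 0), (nat_lit 0), (nat_lit 0), (nat_lit 0), (nat_lit 0), (nat_lit 0), [], [(nat_lit 4), (nat_lit 51), (nat_lit 238), (nat_lit 30), (nat_lit 7)]⟩,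
 Rw.none,
 Rw.none⟩) (.trZ (nat_lit 0) (nat_lit 1) (nat_lit 3) (nat_lit 100) (nat_lit 84) (nat_lit 85) (nat_lit 80) (.leaf ⟨(nat_lit 1000), (nat_lit 0), (nat_lit 0), (nat_lit 0), (nat_lit 2934), (nat_lit 4245), (nat_lit 0), (nat_lit 0), (nat_lit 0), (nat_lit 0), (nat_lit 250000), [((nat_lit 340), [((nat_lit 19), (nat_lit 0), (nat_lit 1000))])], ⟨(nat_lit 6), false, false, false, (nat_lit 164), (nat_lit 3872), (nat_lit 4473), [(nat_lit 1360688), (nat_lit 1371739), (nat_lit 1382237), (nat_lit 1393514), (nat_lit 1428674), (nat_lit 1436268), (nat_lit 1450223), (nat_lit 1458043)]⟩, ⟨(nat_lit 6), false, false, true, (nat_lit 214), (nat_lit 3872), (nat_lit 4473), [(nat_lit 1481711), (nat_lit 1477347), (nat_lit 1524844), (nat_lit 1520934), (nat_lit 1549689), (nat_lit 1541869), (nat_lit 1592822), (nat_lit 1585455)]⟩, (nat_lit 4706677), (nat_lit 43903556), (nat_lit 9168447), (nat_lit 13927997), (nat_lit 0), (nat_lit 0), [⟨(nat_lit 0), (nat_lit 100), (nat_lit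 81), (nat_lit 93), (nat_lit 41590589)⟩, ⟨(nat_lit 0), (nat_lit 99), (nat_lit 77), (nat_lit 100), (nat_lit 45617279)⟩], [], [], [],
 ⟨⟨[(nat_lit 40), (nat_lit 80), (nat_lit 120)], [(nat_lit 0), (nat_lit 0), (nat_lit 2151)], [((nat_lit 0), (nat_lit 0), (nat_lit 0)), ((nat_lit 0), (nat_lit 0), (nat_lit 0)), ((nat_lit 1000), (nat_lit 815), (nat_lit 753))], ((nat_lit 80), (nat_lit 100), (nat_lit 63))⟩, (nat_lit 0), (nat_lit 63), (nat_lit 63), (nat_lit 0), (nat_lit 0), [(nat_lit 1685751949), (nat_lit 2170400043), (nat_lit 2931999871)], [(nat_lit 0), (nat_lit 0), (nat_lit 0)], [(nat_lit 19315346043), (nat_lit 20853033703), (nat_lit 19644638673), (nat_lit 21105984296), (nat_lit 21444040823), (nat_lit 22916776713), (nat_lit 21668515248), (nat_lit 23007982377)], (nat_lit 0), (nat_lit 0), (nat_lit 0), (nat_lit 0), (nat_lit 0), (nat_lit 0), [], [(nat_lit 4), (nat_lit 51), (nat_lit 238), (nat_lit 30), (nat_lit 7)]⟩,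
 Rw.none,
 Rw.none⟩))) (.trZ (nat_lit 0) (nat_lit 1) (nat_lit 3) (nat_lit 100) (nat_lit 87) (nat_lit 95) (nat_lit 100) (.spl (nat_lit 4) (nat_lit 260) (.leaf ⟨(nat_lit 1000), (nat_lit 0), (nat_lit 0), (nat_lit 0), (nat_lit 2915), (nat_lit 3280), (nat_lit 0), (nat_lit 0), (nat_lit 0), (nat_lit 0), (nat_lit 250000), [((nat_lit 340), [((nat_lit 19), (nat_lit 0), (nat_lit 1000))])], ⟨(nat_lit 7), false, false, false, (nat_lit 184), (nat_lit 3872), (nat_lit 4473), [(nat_lit 1416230), (nat_lit 1425778), (nat_lit 1459327), (nat_lit 1469330), (nat_lit 1450223), (nat_lit 1458043), (nat_lit 1493321), (nat_lit 1501595)]⟩, ⟨(nat_lit 6), false, false, true, (nat_lit 207), (nat_lit 3872), (nat_lit 4473), [(nat_lit 1481711), (nat_lit 1477347), (nat_lit 1524844), (nat_lit 1520934), (nat_lit 1515700), (nat_lit 1509608), (nat_lit 1558833), (nat_lit 1553194)]⟩, (nat_lit 4833688), (nat_lit 43072173), (nat_lit 10829074), (nat_lit 13098753), (nat_lit 0), (nat_lit 0),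 [⟨(nat_lit 0), (nat_lit 92), (nat_lit 81), (nat_lit 100), (nat_lit 425795573)⟩], [], [], [],
 ⟨⟨[(nat_lit 40), (nat_lit 80), (nat_lit 120)], [(nat_lit 0), (nat_lit 0), (nat_lit 2151)], [((nat_lit 0), (nat_lit 0), (nat_lit 0)), ((nat_lit 0), (nat_lit 0), (nat_lit 0)), ((nat_lit 1000), (nat_lit 815), (nat_lit 753))], ((nat_lit 80), (nat_lit 100), (nat_lit 63))⟩, (nat_lit 0), (nat_lit 51), (nat_lit 51), (nat_lit 0), (nat_lit 0), [(nat_lit 1542400017), (nat_lit 103775497313), (nat_lit 2901600000)], [(nat_lit 0), (nat_lit 0), (nat_lit 0)], [(nat_lit 18577202697), (nat_lit 20100301520), (nat_lit 18824287137), (nat_lit 20280388160), (nat_lit 19642497740), (nat_lit 21116753835), (nat_lit 19835439360), (nat_lit 21274053930)], (nat_lit 0), (nat_lit 0), (nat_lit 0), (nat_lit 0), (nat_lit 0), (nat_lit 0), [], [(nat_lit 4), (nat_lit 51), (nat_lit 238), (nat_lit 30), (nat_lit 7)]⟩,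
 Rw.none,
 Rw.none⟩) (.trX (nat_lit 5) (nat_lit 4) (nat_lit 3) (nat_lit 100) (nat_lit 69) (nat_lit 96) (nat_lit 360) (.leaf ⟨(nat_lit 1000), (nat_lit 0), (nat_lit 0), (nat_lit 0), (nat_lit 2915), (nat_lit 3227), (nat_lit 0), (nat_lit 0), (nat_lit 0), (nat_lit 0), (nat_lit 250000), [((nat_lit 340), [((nat_lit 19), (nat_lit 0), (nat_lit 1000))])], ⟨(nat_lit 7), false, false, false, (nat_lit 184), (nat_lit 3872), (nat_lit 4473), [(nat_lit 1416230), (nat_lit 1425778), (nat_lit 1459327), (nat_lit 1469330), (nat_lit 1450223), (nat_lit 1458043), (nat_lit 1493321), (nat_lit 1501595)]⟩, ⟨(nat_lit 6), false, false, true, (nat_lit 220), (nat_lit 3872), (nat_lit 4473), [(nat_lit 1515700), (nat_lit 1509608), (nat_lit 1558833), (nat_lit 1553194), (nat_lit 1549689), (nat_lit 1541869), (nat_lit 1592822), (nat_lit 1585455)]⟩, (nat_lit 4924899), (nat_lit 42060709), (nat_lit 10677608), (nat_lit 14261683), (nat_lit 0), (nat_lit 0), [⟨(nat_lit 0), (nat_lit 92), (nat_lit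 81), (nat_lit 100), (nat_lit 427066952)⟩], [], [], [],
 ⟨⟨[(nat_lit 40), (nat_lit 80), (nat_lit 120)], [(nat_lit 0), (nat_lit 0), (nat_lit 2151)], [((nat_lit 0), (nat_lit 0), (nat_lit 0)), ((nat_lit 0), (nat_lit 0), (nat_lit 0)), ((nat_lit 1000), (nat_lit 815), (nat_lit 753))], ((nat_lit 80), (nat_lit 100), (nat_lit 63))⟩, (nat_lit 0), (nat_lit 57), (nat_lit 57), (nat_lit 0), (nat_lit 0), [(nat_lit 1542400445), (nat_lit 103499568999), (nat_lit 2901600000)], [(nat_lit 0), (nat_lit 0), (nat_lit 0)], [(nat_lit 19630285110), (nat_lit 21077201718), (nat_lit 19856769753), (nat_lit 21239154437), (nat_lit 20689253151), (nat_lit 22087667623), (nat_lit 20861784701), (nat_lit 22227065918)], (nat_lit 0), (nat_lit 0), (nat_lit 0), (nat_lit 0), (nat_lit 0), (nat_lit 0), [], [(nat_lit 4), (nat_lit 51), (nat_lit 238), (nat_lit 30), (nat_lit 7)]⟩,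
 Rw.none,
 Rw.none⟩)))))
noncomputable def c11_31 : Tr Lf :=
 (.spl (nat_lit 1) (nat_lit 280) (.spl (nat_lit 6) (nat_lit 24) (.spl (nat_lit 3) (nat_lit 100) (.leaf ⟨(nat_lit 945), (nat_lit 29), (nat_lit 0), (nat_lit 26), (nat_lit 120), (nat_lit 3877), (nat_lit 729), (nat_lit 373), (nat_lit 0), (nat_lit 0), (nat_lit 733400), [((nat_lit 340), [((nat_lit 37), (nat_lit 2), (nat_lit 529)), ((nat_lit 18), (nat_lit 2), (nat_lit 416))])], ⟨(nat_lit 6), false, false, false, (nat_lit 146), (nat_lit 3872), (nat_lit 4473), [(nat_lit 1305146), (nat_lit 1317698), (nat_lit 1348244), (nat_lit 1361249), (nat_lit 1373132), (nat_lit 1382227), (nat_lit 1416230), (nat_lit 1425778)]⟩, ⟨(nat_lit 6), false, false, true, (nat_lit 214), (nat_lit 3872), (nat_lit 4473), [(nat_lit 1481711), (nat_lit 1477347), (nat_lit 1524844), (nat_lit 1520934), (nat_lit 1549689), (nat_lit 1541869), (nat_lit 1592822), (nat_lit 1585455)]⟩, (nat_lit 4531124), (nat_lit 45078524), (nat_lit 7792811),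 (nat_lit 14128665), (nat_lit 6), (nat_lit 0), [⟨(nat_lit 0), (nat_lit 100), (nat_lit 80), (nat_lit 89), (nat_lit 247715833)⟩], [], [], [],
 ⟨⟨[(nat_lit 40), (nat_lit 80), (nat_lit 100)], [(nat_lit 0), (nat_lit 0), (nat_lit 1280)], [((nat_lit 0), (nat_lit 0), (nat_lit 0)), ((nat_lit 0), (nat_lit 0), (nat_lit 0)), ((nat_lit 1000), (nat_lit 800), (nat_lit 600))], ((nat_lit 81), (nat_lit 100), (nat_lit 48))⟩, (nat_lit 0), (nat_lit 155), (nat_lit 155), (nat_lit 0), (nat_lit 210483), [(nat_lit 1506216507), (nat_lit 1668432299), (nat_lit 767094000)], [(nat_lit 0), (nat_lit 0), (nat_lit 0)], [(nat_lit 19695497487), (nat_lit 21088042214), (nat_lit 19446852876), (nat_lit 20713490317), (nat_lit 21681355707), (nat_lit 23270334423), (nat_lit 21244552790), (nat_lit 22646158998)], (nat_lit 1271251), (nat_lit 1271251), (nat_lit 356250), (nat_lit 631250), (nat_lit 1271251), (nat_lit 1271251), [(nat_lit 490000), (nat_lit 1100000), (nat_lit 1442501)], [(nat_lit 3),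 (nat_lit 50), (nat_lit 232), (nat_lit 25), (nat_lit 8)]⟩,
 ⟨⟨[(nat_lit 80), (nat_lit 120), (nat_lit 140)], [(nat_lit 0), (nat_lit 0), (nat_lit 1164)], [((nat_lit 0), (nat_lit 0), (nat_lit 0)), ((nat_lit 0), (nat_lit 0), (nat_lit 0)), ((nat_lit 941), (nat_lit 1000), (nat_lit 576))], ((nat_lit 100), (nat_lit 98), (nat_lit 48))⟩, (nat_lit 0), (nat_lit 367), (nat_lit 367), (nat_lit 0), (nat_lit 272392), [(nat_lit 257840000), (nat_lit 438240000), (nat_lit 541310000)], [], [(nat_lit 1939756638), (nat_lit 1902735007), (nat_lit 1962618157), (nat_lit 1711473295), (nat_lit 2785177846), (nat_lit 2124752507), (nat_lit 2982800195), (nat_lit 2330851668)], (nat_lit 1271251), (nat_lit 1271251), (nat_lit 356250), (nat_lit 631250), (nat_lit 0), (nat_lit 1412501), [(nat_lit 1100000), (nat_lit 1785001), (nat_lit 1271251)], [(nat_lit 17), (nat_lit 58), (nat_lit 373), (nat_lit 150), (nat_lit 11)]⟩,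
 ⟨⟨[(nat_lit 140), (nat_lit 160), (nat_lit 180)], [(nat_lit 0), (nat_lit 0), (nat_lit 799)], [((nat_lit 0), (nat_lit 0), (nat_lit 0)), ((nat_lit 0), (nat_lit 0), (nat_lit 0)), ((nat_lit 728), (nat_lit 1000), (nat_lit 454))], ((nat_lit 100), (nat_lit 67), (nat_lit 52))⟩, (nat_lit 22844), (nat_lit 300), (nat_lit 1496), (nat_lit 1929200), (nat_lit 2436825), [(nat_lit 255892000), (nat_lit 308672000), (nat_lit 365508000)], [], [(nat_lit 1415757696), (nat_lit 1361618452), (nat_lit 1420636868), (nat_lit 1364428664), (nat_lit 1029547510), (nat_lit 1168123492), (nat_lit 1027735385), (nat_lit 975695578)], (nat_lit 780000), (nat_lit 1100000), (nat_lit 1271251), (nat_lit 1271251), (nat_lit 0), (nat_lit 1412501), [(nat_lit 1977501), (nat_lit 1271251), (nat_lit 1271251)], [(nat_lit 31), (nat_lit 65), (nat_lit 454), (nat_lit 175), (nat_lit 11)]⟩⟩) (.leaf ⟨(nat_lit 759), (nat_lit 215), (nat_lit 0), (nat_lit 26), (nat_lit 705), (nat_lit 4074), (nat_lit 1821), (nat_lit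 373), (nat_lit 0), (nat_lit 0), (nat_lit 759000), [((nat_lit 340), [((nat_lit 18), (nat_lit 2), (nat_lit 759))])], ⟨(nat_lit 6), false, false, false, (nat_lit 166), (nat_lit 3872), (nat_lit 4473), [(nat_lit 1373132), (nat_lit 1382227), (nat_lit 1416230), (nat_lit 1425778), (nat_lit 1407125), (nat_lit 1414492), (nat_lit 1450223), (nat_lit 1458043)]⟩, ⟨(nat_lit 6), false, false, true, (nat_lit 214), (nat_lit 3872), (nat_lit 4473), [(nat_lit 1481711), (nat_lit 1477347), (nat_lit 1524844), (nat_lit 1520934), (nat_lit 1549689), (nat_lit 1541869), (nat_lit 1592822), (nat_lit 1585455)]⟩, (nat_lit 4728209), (nat_lit 43748486), (nat_lit 9351292), (nat_lit 13900222), (nat_lit 6), (nat_lit 0), [], [], [], [],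
 ⟨⟨[(nat_lit 40), (nat_lit 80), (nat_lit 100)], [(nat_lit 0), (nat_lit 0), (nat_lit 1280)], [((nat_lit 0), (nat_lit 0), (nat_lit 0)), ((nat_lit 0), (nat_lit 0), (nat_lit 0)), ((nat_lit 1000), (nat_lit 800), (nat_lit 600))], ((nat_lit 81), (nat_lit 100), (nat_lit 48))⟩, (nat_lit 16739), (nat_lit 135), (nat_lit 135), (nat_lit 0), (nat_lit 210483), [(nat_lit 1671134663), (nat_lit 1995914301), (nat_lit 1169861200)], [(nat_lit 0), (nat_lit 0), (nat_lit 0)], [(nat_lit 19687854833), (nat_lit 20987577803), (nat_lit 19888787959), (nat_lit 21151775319), (nat_lit 21519850688), (nat_lit 22815424845), (nat_lit 21674318933), (nat_lit 22907023087)], (nat_lit 1271251), (nat_lit 1271251), (nat_lit 631250), (nat_lit 780000), (nat_lit 1271251), (nat_lit 1271251), [(nat_lit 490000), (nat_lit 1100000), (nat_lit 1442501)], [(nat_lit 3), (nat_lit 50), (nat_lit 238), (nat_lit 30), (nat_lit 8)]⟩,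
 ⟨⟨[(nat_lit 80), (nat_lit 120), (nat_lit 140)], [(nat_lit 0), (nat_lit 0), (nat_lit 1164)], [((nat_lit 0), (nat_lit 0), (nat_lit 0)), ((nat_lit 0), (nat_lit 0), (nat_lit 0)), ((nat_lit 941), (nat_lit 1000), (nat_lit 576))], ((nat_lit 100), (nat_lit 98), (nat_lit 48))⟩, (nat_lit 0), (nat_lit 337), (nat_lit 337), (nat_lit 0), (nat_lit 272392), [(nat_lit 1129808000), (nat_lit 1920288000), (nat_lit 2371922000)], [], [(nat_lit 9689535938), (nat_lit 8401787206), (nat_lit 8733951620), (nat_lit 8371892222), (nat_lit 9600782106), (nat_lit 7929334008), (nat_lit 9986512144), (nat_lit 8325935871)], (nat_lit 1271251), (nat_lit 1271251), (nat_lit 631250), (nat_lit 780000), (nat_lit 0), (nat_lit 1412501), [(nat_lit 1100000), (nat_lit 1785001), (nat_lit 1271251)], [(nat_lit 17), (nat_lit 58), (nat_lit 373), (nat_lit 150), (nat_lit 11)]⟩,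
 ⟨⟨[(nat_lit 140), (nat_lit 160), (nat_lit 180)], [(nat_lit 0), (nat_lit 0), (nat_lit 799)], [((nat_lit 0), (nat_lit 0), (nat_lit 0)), ((nat_lit 0), (nat_lit 0), (nat_lit 0)), ((nat_lit 728), (nat_lit 1000), (nat_lit 454))], ((nat_lit 100), (nat_lit 67), (nat_lit 52))⟩, (nat_lit 22844), (nat_lit 300), (nat_lit 1496), (nat_lit 1929200), (nat_lit 2436825), [(nat_lit 255892000), (nat_lit 308672000), (nat_lit 365508000)], [], [(nat_lit 1415757696), (nat_lit 1361618452), (nat_lit 1420636868), (nat_lit 1364428664), (nat_lit 1029547510), (nat_lit 1168123492), (nat_lit 1027735385), (nat_lit 975695578)], (nat_lit 780000), (nat_lit 1100000), (nat_lit 1271251), (nat_lit 1271251), (nat_lit 0), (nat_lit 1412501), [(nat_lit 1977501), (nat_lit 1271251), (nat_lit 1271251)], [(nat_lit 31), (nat_lit 65), (nat_lit 454), (nat_lit 175), (nat_lit 11)]⟩⟩)) (.spl (nat_lit 1) (nat_lit 260) (.spl (nat_lit 0) (nat_lit 330) (.spl (nat_lit 6) (nat_lit 36) (.leaf ⟨(nat_lit 977),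 (nat_lit 23), (nat_lit 0), (nat_lit 0), (nat_lit 5095), (nat_lit 4181), (nat_lit 213), (nat_lit 0), (nat_lit 0), (nat_lit 0), (nat_lit 244250), [((nat_lit 330), [((nat_lit 18), (nat_lit 0), (nat_lit 977))])], ⟨(nat_lit 6), false, false, false, (nat_lit 148), (nat_lit 4183), (nat_lit 4473), [(nat_lit 1305197), (nat_lit 1311427), (nat_lit 1326760), (nat_lit 1333090), (nat_lit 1407167), (nat_lit 1410812), (nat_lit 1428729), (nat_lit 1432475)]⟩, ⟨(nat_lit 6), false, false, true, (nat_lit 214), (nat_lit 4183), (nat_lit 4473), [(nat_lit 1481711), (nat_lit 1479587), (nat_lit 1524844), (nat_lit 1522921), (nat_lit 1549689), (nat_lit 1545843), (nat_lit 1592822), (nat_lit 1589176)]⟩, (nat_lit 4549169), (nat_lit 44942291), (nat_lit 7888104), (nat_lit 14169605), (nat_lit 6), (nat_lit 0), [⟨(nat_lit 0), (nat_lit 100), (nat_lit 80), (nat_lit 89), (nat_lit 189951624)⟩], [], [], [],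
 ⟨⟨[(nat_lit 40), (nat_lit 80), (nat_lit 100)], [(nat_lit 0), (nat_lit 0), (nat_lit 1280)], [((nat_lit 0), (nat_lit 0), (nat_lit 0)), ((nat_lit 0), (nat_lit 0), (nat_lit 0)), ((nat_lit 1000), (nat_lit 800), (nat_lit 600))], ((nat_lit 80), (nat_lit 100), (nat_lit 57))⟩, (nat_lit 0), (nat_lit 82), (nat_lit 82), (nat_lit 0), (nat_lit 35657), [(nat_lit 1685713749), (nat_lit 2225960003), (nat_lit 2646824000)], [(nat_lit 0), (nat_lit 0), (nat_lit 0)], [(nat_lit 19958611024), (nat_lit 20732480097), (nat_lit 19750465897), (nat_lit 20475285893), (nat_lit 22098993278), (nat_lit 22810158710), (nat_lit 21761898632), (nat_lit 22426479821)], (nat_lit 1271251), (nat_lit 1271251), (nat_lit 356250), (nat_lit 780000), (nat_lit 1271251), (nat_lit 1271251), [(nat_lit 490000), (nat_lit 1100000), (nat_lit 1442501)], [(nat_lit 3), (nat_lit 50), (nat_lit 238), (nat_lit 30), (nat_lit 8)]⟩,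
 ⟨⟨[(nat_lit 80), (nat_lit 120), (nat_lit 140)], [(nat_lit 0), (nat_lit 0), (nat_lit 1164)], [((nat_lit 0), (nat_lit 0), (nat_lit 0)), ((nat_lit 0), (nat_lit 0), (nat_lit 0)), ((nat_lit 941), (nat_lit 1000), (nat_lit 576))], ((nat_lit 100), (nat_lit 94), (nat_lit 58))⟩, (nat_lit 0), (nat_lit 243), (nat_lit 243), (nat_lit 0), (nat_lit 49178), [(nat_lit 107824000), (nat_lit 183264000), (nat_lit 226366000)], [], [(nat_lit 1190946913), (nat_lit 1078299787), (nat_lit 852131860), (nat_lit 742003512), (nat_lit 630809685), (nat_lit 657489909), (nat_lit 596149107), (nat_lit 615312796)], (nat_lit 1271251), (nat_lit 1271251), (nat_lit 356250), (nat_lit 780000), (nat_lit 0), (nat_lit 1412501), [(nat_lit 1100000), (nat_lit 1785001), (nat_lit 1271251)], [(nat_lit 17), (nat_lit 58), (nat_lit 373), (nat_lit 150), (nat_lit 11)]⟩,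
 Rw.none⟩) (.dle (nat_lit 0))) (.trZ (nat_lit 0) (nat_lit 1) (nat_lit 3) (nat_lit 100) (nat_lit 78) (nat_lit 81) (nat_lit 70) (.spl (nat_lit 0) (nat_lit 335) (.leaf ⟨(nat_lit 1000), (nat_lit 0), (nat_lit 0), (nat_lit 0), (nat_lit 5526), (nat_lit 3865), (nat_lit 0), (nat_lit 0), (nat_lit 0), (nat_lit 0), (nat_lit 250000), [((nat_lit 335), [((nat_lit 19), (nat_lit 0), (nat_lit 1000))])], ⟨(nat_lit 6), false, false, false, (nat_lit 153), (nat_lit 4031), (nat_lit 4184), [(nat_lit 1327998), (nat_lit 1330928), (nat_lit 1349664), (nat_lit 1352653), (nat_lit 1410818), (nat_lit 1412667), (nat_lit 1432484), (nat_lit 1434392)]⟩, ⟨(nat_lit 6), false, false, true, (nat_lit 213), (nat_lit 4031), (nat_lit 4184), [(nat_lit 1479587), (nat_lit 1478484), (nat_lit 1522921), (nat_lit 1521937), (nat_lit 1545843), (nat_lit 1543875), (nat_lit 1589176), (nat_lit 1587327)]⟩, (nat_lit 4592004), (nat_lit 44697442), (nat_lit 8266214), (nat_lit 14036344), (nat_lit 0), (nat_lit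 0), [⟨(nat_lit 0), (nat_lit 100), (nat_lit 77), (nat_lit 91), (nat_lit 110945703)⟩], [], [], [],
 ⟨⟨[(nat_lit 40), (nat_lit 80), (nat_lit 100)], [(nat_lit 0), (nat_lit 395), (nat_lit 1536)], [((nat_lit 0), (nat_lit 0), (nat_lit 0)), ((nat_lit 1000), (nat_lit 908), (nat_lit 154)), ((nat_lit 1000), (nat_lit 760), (nat_lit 642))], ((nat_lit 76), (nat_lit 100), (nat_lit 63))⟩, (nat_lit 1044166), (nat_lit 82), (nat_lit 82), (nat_lit 0), (nat_lit 52350), [(nat_lit 1571022595), (nat_lit 2175600012), (nat_lit 2546000000)], [(nat_lit 0), (nat_lit 0), (nat_lit 0)], [(nat_lit 20324822784), (nat_lit 20669949785), (nat_lit 20373882699), (nat_lit 20700071077), (nat_lit 22193787233), (nat_lit 22511351843), (nat_lit 22144520142), (nat_lit 22444558225)], (nat_lit 1271251), (nat_lit 1271251), (nat_lit 422188), (nat_lit 780000), (nat_lit 1271251), (nat_lit 1271251), [(nat_lit 490000), (nat_lit 1100000), (nat_lit 1442501)], [(nat_lit 3), (nat_lit 50), (nat_lit 238),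 (nat_lit 30), (nat_lit 8)]⟩,
 Rw.none,
 Rw.none⟩) (.trZ (nat_lit 0) (nat_lit 1) (nat_lit 3) (nat_lit 100) (nat_lit 75) (nat_lit 83) (nat_lit 80) (.leaf ⟨(nat_lit 969), (nat_lit 27), (nat_lit 0), (nat_lit 4), (nat_lit 4973), (nat_lit 3746), (nat_lit 370), (nat_lit 58), (nat_lit 0), (nat_lit 0), (nat_lit 242250), [((nat_lit 340), [((nat_lit 19), (nat_lit 0), (nat_lit 969))])], ⟨(nat_lit 6), false, false, false, (nat_lit 157), (nat_lit 3872), (nat_lit 4032), [(nat_lit 1347275), (nat_lit 1350016), (nat_lit 1368999), (nat_lit 1371808), (nat_lit 1412666), (nat_lit 1414539), (nat_lit 1434391), (nat_lit 1436330)]⟩, ⟨(nat_lit 6), false, false, true, (nat_lit 213), (nat_lit 3872), (nat_lit 4032), [(nat_lit 1478484), (nat_lit 1477347), (nat_lit 1521937), (nat_lit 1520934), (nat_lit 1543875), (nat_lit 1541869), (nat_lit 1587327), (nat_lit 1585455)]⟩, (nat_lit 4629920), (nat_lit 44464513), (nat_lit 8601289), (nat_lit 13934198), (nat_lit 6), (nat_lit 0), [⟨(nat_lit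 0), (nat_lit 100), (nat_lit 75), (nat_lit 92), (nat_lit 154453411)⟩], [], [], [],
 ⟨⟨[(nat_lit 40), (nat_lit 80), (nat_lit 100)], [(nat_lit 0), (nat_lit 593), (nat_lit 1677)], [((nat_lit 0), (nat_lit 0), (nat_lit 0)), ((nat_lit 1000), (nat_lit 861), (nat_lit 231)), ((nat_lit 1000), (nat_lit 738), (nat_lit 662))], ((nat_lit 74), (nat_lit 100), (nat_lit 63))⟩, (nat_lit 1120458), (nat_lit 84), (nat_lit 84), (nat_lit 0), (nat_lit 68664), [(nat_lit 1565012336), (nat_lit 2252275887), (nat_lit 2660824000)], [(nat_lit 0), (nat_lit 0), (nat_lit 0)], [(nat_lit 20344734278), (nat_lit 20662683272), (nat_lit 20672580637), (nat_lit 20975421677), (nat_lit 22132250788), (nat_lit 22442367872), (nat_lit 22344330973), (nat_lit 22639997164)], (nat_lit 1271251), (nat_lit 1271251), (nat_lit 490000), (nat_lit 780000), (nat_lit 1271251), (nat_lit 1271251), [(nat_lit 490000), (nat_lit 1100000), (nat_lit 1442501)], [(nat_lit 3), (nat_lit 50), (nat_lit 238), (nat_lit 30),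 (nat_lit 8)]⟩,
 ⟨⟨[(nat_lit 80), (nat_lit 120), (nat_lit 160)], [(nat_lit 0), (nat_lit 0), (nat_lit 2132)], [((nat_lit 0), (nat_lit 0), (nat_lit 0)), ((nat_lit 0), (nat_lit 0), (nat_lit 0)), ((nat_lit 858), (nat_lit 1000), (nat_lit 713))], ((nat_lit 100), (nat_lit 91), (nat_lit 64))⟩, (nat_lit 49076), (nat_lit 340), (nat_lit 340), (nat_lit 0), (nat_lit 98968), [(nat_lit 145328000), (nat_lit 247008000), (nat_lit 368032000)], [], [(nat_lit 1576178760), (nat_lit 1382018300), (nat_lit 1187857840), (nat_lit 997957758), (nat_lit 1086305116), (nat_lit 910725871), (nat_lit 1200306626), (nat_lit 1027061434)], (nat_lit 1271251), (nat_lit 1271251), (nat_lit 490000), (nat_lit 780000), (nat_lit 0), (nat_lit 1412501), [(nat_lit 1100000), (nat_lit 1785001), (nat_lit 1271251)], [(nat_lit 18), (nat_lit 59), (nat_lit 373), (nat_lit 150), (nat_lit 10)]⟩,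
 ⟨⟨[(nat_lit 140), (nat_lit 180), (nat_lit 200)], [(nat_lit 0), (nat_lit 0), (nat_lit 2835)], [((nat_lit 0), (nat_lit 0), (nat_lit 0)), ((nat_lit 0), (nat_lit 0), (nat_lit 0)), ((nat_lit 363), (nat_lit 1000), (nat_lit 798))], ((nat_lit 0), (nat_lit 0), (nat_lit 0))⟩, (nat_lit 1101), (nat_lit 300), (nat_lit 803), (nat_lit 312400), (nat_lit 742267), [(nat_lit 39368000), (nat_lit 56232000), (nat_lit 65600000)], [], [(nat_lit 263850200), (nat_lit 253846304), (nat_lit 262811040), (nat_lit 253500708), (nat_lit 198053392), (nat_lit 188616436), (nat_lit 195705238), (nat_lit 186739642)], (nat_lit 780000), (nat_lit 1100000), (nat_lit 1271251), (nat_lit 1271251), (nat_lit 0), (nat_lit 1412501), [(nat_lit 1977501), (nat_lit 1271251), (nat_lit 1271251)], [(nat_lit 32), (nat_lit 67), (nat_lit 401), (nat_lit 175), (nat_lit 9)]⟩⟩))))) (.trZ (nat_lit 0) (nat_lit 1) (nat_lit 3) (nat_lit 100) (nat_lit 84) (nat_lit 85) (nat_lit 80) (.spl (nat_lit 0) (nat_lit 330) (.leaf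 ⟨(nat_lit 0), (nat_lit 958), (nat_lit 0), (nat_lit 42), (nat_lit 13462), (nat_lit 6387), (nat_lit 4598), (nat_lit 611), (nat_lit 0), (nat_lit 0), (nat_lit 0), [], Pd.none, Pd.none, (nat_lit 0), (nat_lit 1), (nat_lit 0), (nat_lit 0), (nat_lit 6), (nat_lit 0), [⟨(nat_lit 0), (nat_lit 100), (nat_lit 83), (nat_lit 92), (nat_lit 742205170)⟩], [], [], [],
 ⟨⟨[(nat_lit 40), (nat_lit 80), (nat_lit 120)], [(nat_lit 0), (nat_lit 0), (nat_lit 2151)], [((nat_lit 0), (nat_lit 0), (nat_lit 0)), ((nat_lit 0), (nat_lit 0), (nat_lit 0)), ((nat_lit 1000), (nat_lit 815), (nat_lit 753))], ((nat_lit 80), (nat_lit 100), (nat_lit 63))⟩, (nat_lit 0), (nat_lit 77), (nat_lit 77), (nat_lit 0), (nat_lit 75146), [(nat_lit 2608186448), (nat_lit 4688000004), (nat_lit 7968000000)], [], [(nat_lit 20432078004), (nat_lit 21410910662), (nat_lit 20479856142), (nat_lit 21406415389), (nat_lit 23014114232), (nat_lit 23902983814), (nat_lit 22920212487), (nat_lit 23762389636)], (nat_lit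 1271251), (nat_lit 1271251), (nat_lit 490000), (nat_lit 780000), (nat_lit 1271251), (nat_lit 1271251), [(nat_lit 490000), (nat_lit 1100000), (nat_lit 1785001)], [(nat_lit 4), (nat_lit 51), (nat_lit 238), (nat_lit 30), (nat_lit 7)]⟩,
 ⟨⟨[(nat_lit 80), (nat_lit 120), (nat_lit 140)], [(nat_lit 0), (nat_lit 528), (nat_lit 1572)], [((nat_lit 0), (nat_lit 0), (nat_lit 0)), ((nat_lit 1000), (nat_lit 959), (nat_lit 206)), ((nat_lit 966), (nat_lit 1000), (nat_lit 679))], ((nat_lit 100), (nat_lit 98), (nat_lit 66))⟩, (nat_lit 3052732), (nat_lit 230), (nat_lit 230), (nat_lit 0), (nat_lit 94277), [(nat_lit 4688000000), (nat_lit 7968000000), (nat_lit 9842000000)], [], [(nat_lit 35638234028), (nat_lit 33422821416), (nat_lit 32731214560), (nat_lit 33584196668), (nat_lit 32055046688), (nat_lit 32763028664), (nat_lit 32172715473), (nat_lit 32908805583)], (nat_lit 1271251), (nat_lit 1271251), (nat_lit 490000), (nat_lit 780000), (nat_lit 0), (nat_lit 1412501), [(nat_lit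 1100000), (nat_lit 1785001), (nat_lit 1271251)], [(nat_lit 17), (nat_lit 58), (nat_lit 373), (nat_lit 150), (nat_lit 11)]⟩,
 ⟨⟨[(nat_lit 140), (nat_lit 180), (nat_lit 200)], [(nat_lit 0), (nat_lit 0), (nat_lit 2835)], [((nat_lit 0), (nat_lit 0), (nat_lit 0)), ((nat_lit 0), (nat_lit 0), (nat_lit 0)), ((nat_lit 363), (nat_lit 1000), (nat_lit 798))], ((nat_lit 0), (nat_lit 0), (nat_lit 0))⟩, (nat_lit 11556), (nat_lit 300), (nat_lit 834), (nat_lit 3280200), (nat_lit 816511), [(nat_lit 413364000), (nat_lit 590436000), (nat_lit 688800000)], [], [(nat_lit 2768005076), (nat_lit 2662537984), (nat_lit 2760065296), (nat_lit 2661891102), (nat_lit 2074510632), (nat_lit 1975020246), (nat_lit 2049681857), (nat_lit 1958191251)], (nat_lit 780000), (nat_lit 1100000), (nat_lit 1271251), (nat_lit 1271251), (nat_lit 0), (nat_lit 1412501), [(nat_lit 1977501), (nat_lit 1271251), (nat_lit 1271251)], [(nat_lit 32), (nat_lit 67), (nat_lit 401), (nat_lit 175), (nat_lit 9)]⟩⟩)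 (.trZ (nat_lit 0) (nat_lit 1) (nat_lit 3) (nat_lit 100) (nat_lit 80) (nat_lit 89) (nat_lit 90) (.leaf ⟨(nat_lit 0), (nat_lit 938), (nat_lit 0), (nat_lit 62), (nat_lit 7899), (nat_lit 6609), (nat_lit 6626), (nat_lit 890), (nat_lit 0), (nat_lit 0), (nat_lit 0), [], Pd.none, Pd.none, (nat_lit 0), (nat_lit 1), (nat_lit 0), (nat_lit 0), (nat_lit 6), (nat_lit 0), [⟨(nat_lit 0), (nat_lit 100), (nat_lit 80), (nat_lit 89), (nat_lit 1217200471)⟩], [], [], [],
 ⟨⟨[(nat_lit 40), (nat_lit 80), (nat_lit 100)], [(nat_lit 0), (nat_lit 395), (nat_lit 1536)], [((nat_lit 0), (nat_lit 0), (nat_lit 0)), ((nat_lit 1000), (nat_lit 908), (nat_lit 154)), ((nat_lit 1000), (nat_lit 760), (nat_lit 642))], ((nat_lit 76), (nat_lit 100), (nat_lit 63))⟩, (nat_lit 1262793), (nat_lit 106), (nat_lit 106), (nat_lit 0), (nat_lit 104021), [(nat_lit 2763057898), (nat_lit 4959904474), (nat_lit 6250000000)], [], [(nat_lit 21889390770), (nat_lit 22807326029), (nat_lit 21812614307), (nat_lit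 22693393390), (nat_lit 24199489544), (nat_lit 25079693075), (nat_lit 24025651778), (nat_lit 24826514247)], (nat_lit 1271251), (nat_lit 1271251), (nat_lit 559688), (nat_lit 780000), (nat_lit 1271251), (nat_lit 1271251), [(nat_lit 490000), (nat_lit 1100000), (nat_lit 1442501)], [(nat_lit 3), (nat_lit 50), (nat_lit 238), (nat_lit 30), (nat_lit 8)]⟩,
 ⟨⟨[(nat_lit 80), (nat_lit 120), (nat_lit 140)], [(nat_lit 0), (nat_lit 528), (nat_lit 1572)], [((nat_lit 0), (nat_lit 0), (nat_lit 0)), ((nat_lit 1000), (nat_lit 959), (nat_lit 206)), ((nat_lit 966), (nat_lit 1000), (nat_lit 679))], ((nat_lit 100), (nat_lit 98), (nat_lit 66))⟩, (nat_lit 0), (nat_lit 281), (nat_lit 281), (nat_lit 0), (nat_lit 135334), [(nat_lit 4688000000), (nat_lit 7968000000), (nat_lit 9842000000)], [], [(nat_lit 37550599112), (nat_lit 36480420623), (nat_lit 35398507120), (nat_lit 36390906116), (nat_lit 33107157294), (nat_lit 33898887189), (nat_lit 32987443608), (nat_lit 33743787849)],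 (nat_lit 1271251), (nat_lit 1271251), (nat_lit 559688), (nat_lit 780000), (nat_lit 0), (nat_lit 1412501), [(nat_lit 1100000), (nat_lit 1785001), (nat_lit 1271251)], [(nat_lit 17), (nat_lit 58), (nat_lit 373), (nat_lit 150), (nat_lit 11)]⟩,
 ⟨⟨[(nat_lit 140), (nat_lit 180), (nat_lit 200)], [(nat_lit 0), (nat_lit 0), (nat_lit 2835)], [((nat_lit 0), (nat_lit 0), (nat_lit 0)), ((nat_lit 0), (nat_lit 0), (nat_lit 0)), ((nat_lit 363), (nat_lit 1000), (nat_lit 798))], ((nat_lit 0), (nat_lit 0), (nat_lit 0))⟩, (nat_lit 17058), (nat_lit 300), (nat_lit 990), (nat_lit 4842203), (nat_lit 1178401), [(nat_lit 610204000), (nat_lit 871596000), (nat_lit 1016800000)], [], [(nat_lit 4100579008), (nat_lit 3947436448), (nat_lit 4073607180), (nat_lit 3928660668), (nat_lit 3092554304), (nat_lit 2948092052), (nat_lit 3056937128), (nat_lit 2909764334)], (nat_lit 780000), (nat_lit 1100000), (nat_lit 1271251), (nat_lit 1271251), (nat_lit 0), (nat_lit 1412501), [(nat_lit 1977501),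 (nat_lit 1271251), (nat_lit 1271251)], [(nat_lit 32), (nat_lit 67), (nat_lit 401), (nat_lit 175), (nat_lit 9)]⟩⟩)))))) (.trZ (nat_lit 0) (nat_lit 1) (nat_lit 3) (nat_lit 100) (nat_lit 87) (nat_lit 95) (nat_lit 100) (.leaf ⟨(nat_lit 0), (nat_lit 924), (nat_lit 0), (nat_lit 76), (nat_lit 1486), (nat_lit 7123), (nat_lit 11132), (nat_lit 1094), (nat_lit 0), (nat_lit 0), (nat_lit 0), [], Pd.none, Pd.none, (nat_lit 0), (nat_lit 1), (nat_lit 0), (nat_lit 0), (nat_lit 6), (nat_lit 0), [⟨(nat_lit 0), (nat_lit 100), (nat_lit 87), (nat_lit 95), (nat_lit 810146681)⟩], [], [], [],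
 ⟨⟨[(nat_lit 40), (nat_lit 80), (nat_lit 120)], [(nat_lit 0), (nat_lit 0), (nat_lit 2151)], [((nat_lit 0), (nat_lit 0), (nat_lit 0)), ((nat_lit 0), (nat_lit 0), (nat_lit 0)), ((nat_lit 1000), (nat_lit 815), (nat_lit 753))], ((nat_lit 80), (nat_lit 100), (nat_lit 63))⟩, (nat_lit 2232264), (nat_lit 181), (nat_lit 181), (nat_lit 0), (nat_lit 292967), [(nat_lit 2618654689), (nat_lit 4688001110), (nat_lit 7968000000)], [], [(nat_lit 21375581009), (nat_lit 22839736594), (nat_lit 21270744188), (nat_lit 22694872092), (nat_lit 23253575894), (nat_lit 25435179003), (nat_lit 23075876827), (nat_lit 25215502458)], (nat_lit 1271251), (nat_lit 1271251), (nat_lit 631250), (nat_lit 780000), (nat_lit 1271251), (nat_lit 1271251), [(nat_lit 490000), (nat_lit 1100000), (nat_lit 1785001)], [(nat_lit 4), (nat_lit 51), (nat_lit 238), (nat_lit 30), (nat_lit 7)]⟩,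
 ⟨⟨[(nat_lit 60), (nat_lit 100), (nat_lit 140)], [(nat_lit 0), (nat_lit 0), (nat_lit 2047)], [((nat_lit 0), (nat_lit 0), (nat_lit 0)), ((nat_lit 0), (nat_lit 0), (nat_lit 0)), ((nat_lit 1000), (nat_lit 993), (nat_lit 781))], ((nat_lit 95), (nat_lit 100), (nat_lit 65))⟩, (nat_lit 3155135), (nat_lit 357), (nat_lit 357), (nat_lit 0), (nat_lit 321904), [(nat_lit 3282000000), (nat_lit 6250000000), (nat_lit 9842000000)], [], [(nat_lit 23999251465), (nat_lit 28896029488), (nat_lit 23657923267), (nat_lit 28387169120), (nat_lit 19822292257), (nat_lit 20057099557), (nat_lit 21897778682), (nat_lit 19610350075)], (nat_lit 1271251), (nat_lit 1271251), (nat_lit 631250), (nat_lit 780000), (nat_lit 0), (nat_lit 1412501), [(nat_lit 780000), (nat_lit 1435001), (nat_lit 1271251)], [(nat_lit 11), (nat_lit 55), (nat_lit 317), (nat_lit 100), (nat_lit 9)]⟩,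
 ⟨⟨[(nat_lit 140), (nat_lit 180), (nat_lit 200)], [(nat_lit 0), (nat_lit 0), (nat_lit 2835)], [((nat_lit 0), (nat_lit 0), (nat_lit 0)), ((nat_lit 0), (nat_lit 0), (nat_lit 0)), ((nat_lit 363), (nat_lit 1000), (nat_lit 798))], ((nat_lit 0), (nat_lit 0), (nat_lit 0))⟩, (nat_lit 20910), (nat_lit 300), (nat_lit 2179), (nat_lit 5935601), (nat_lit 3718580), [(nat_lit 747992000), (nat_lit 1068408000), (nat_lit 1246400000)], [], [(nat_lit 5022842496), (nat_lit 4834473208), (nat_lit 4991212656), (nat_lit 4815979180), (nat_lit 3783214984), (nat_lit 3605522212), (nat_lit 3739292690), (nat_lit 3558353558)], (nat_lit 780000), (nat_lit 1100000), (nat_lit 1271251), (nat_lit 1271251), (nat_lit 0), (nat_lit 1412501), [(nat_lit 1977501), (nat_lit 1271251), (nat_lit 1271251)], [(nat_lit 32), (nat_lit 67), (nat_lit 625), (nat_lit 175), (nat_lit 13)]⟩⟩)))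
noncomputable def c11_32 : Tr Lf :=
 (.spl (nat_lit 1) (nat_lit 280) (.spl (nat_lit 0) (nat_lit 330) (.leaf ⟨(nat_lit 882), (nat_lit 51), (nat_lit 0), (nat_lit 67), (nat_lit 0), (nat_lit 3959), (nat_lit 1190), (nat_lit 769), (nat_lit 0), (nat_lit 0), (nat_lit 799200), [((nat_lit 330), [((nat_lit 37), (nat_lit 2), (nat_lit 207)), ((nat_lit 19), (nat_lit 2), (nat_lit 675))])], ⟨(nat_lit 6), false, false, false, (nat_lit 152), (nat_lit 4183), (nat_lit 4473), [(nat_lit 1305197), (nat_lit 1311427), (nat_lit 1348323), (nat_lit 1354753), (nat_lit 1407167), (nat_lit 1410812), (nat_lit 1450291), (nat_lit 1454137)]⟩, ⟨(nat_lit 6), false, false, true, (nat_lit 214), (nat_lit 4183), (nat_lit 4473), [(nat_lit 1481711), (nat_lit 1479587), (nat_lit 1524844), (nat_lit 1522921), (nat_lit 1549689), (nat_lit 1545843), (nat_lit 1592822), (nat_lit 1589176)]⟩, (nat_lit 4593645), (nat_lit 44656075), (nat_lit 8222314), (nat_lit 14121611), (nat_lit 6), (nat_lit 0), [⟨(nat_lit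 0), (nat_lit 100), (nat_lit 83), (nat_lit 98), (nat_lit 248897920)⟩], [], [], [],
 ⟨⟨[(nat_lit 40), (nat_lit 80), (nat_lit 120)], [(nat_lit 0), (nat_lit 0), (nat_lit 2151)], [((nat_lit 0), (nat_lit 0), (nat_lit 0)), ((nat_lit 0), (nat_lit 0), (nat_lit 0)), ((nat_lit 1000), (nat_lit 815), (nat_lit 753))], ((nat_lit 80), (nat_lit 100), (nat_lit 63))⟩, (nat_lit 0), (nat_lit 167), (nat_lit 167), (nat_lit 0), (nat_lit 191903), [(nat_lit 1569301288), (nat_lit 1715020142), (nat_lit 0)], [(nat_lit 0), (nat_lit 0), (nat_lit 308114714)], [(nat_lit 19986347806), (nat_lit 20639397953), (nat_lit 19721111654), (nat_lit 20334608023), (nat_lit 21789472665), (nat_lit 22566021772), (nat_lit 21420175589), (nat_lit 22033150783)], (nat_lit 1271251), (nat_lit 1271251), (nat_lit 356250), (nat_lit 780000), (nat_lit 1271251), (nat_lit 1271251), [(nat_lit 490000), (nat_lit 1100000), (nat_lit 1785001)], [(nat_lit 4), (nat_lit 51), (nat_lit 238), (nat_lit 30), (nat_lit 7)]⟩,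
 ⟨⟨[(nat_lit 80), (nat_lit 120), (nat_lit 160)], [(nat_lit 0), (nat_lit 0), (nat_lit 2132)], [((nat_lit 0), (nat_lit 0), (nat_lit 0)), ((nat_lit 0), (nat_lit 0), (nat_lit 0)), ((nat_lit 858), (nat_lit 1000), (nat_lit 713))], ((nat_lit 100), (nat_lit 91), (nat_lit 64))⟩, (nat_lit 462945), (nat_lit 275), (nat_lit 275), (nat_lit 0), (nat_lit 244546), [(nat_lit 553184000), (nat_lit 940224000), (nat_lit 1400896000)], [], [(nat_lit 2686122653), (nat_lit 2933424013), (nat_lit 2422968452), (nat_lit 2650321825), (nat_lit 3792747541), (nat_lit 4148658166), (nat_lit 3483353722), (nat_lit 3726453045)], (nat_lit 1271251), (nat_lit 1271251), (nat_lit 356250), (nat_lit 780000), (nat_lit 1271251), (nat_lit 1271251), [(nat_lit 1100000), (nat_lit 1785001), (nat_lit 1271251)], [(nat_lit 18), (nat_lit 59), (nat_lit 428), (nat_lit 200), (nat_lit 11)]⟩,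
 ⟨⟨[(nat_lit 140), (nat_lit 180), (nat_lit 200)], [(nat_lit 0), (nat_lit 0), (nat_lit 2835)], [((nat_lit 0), (nat_lit 0), (nat_lit 0)), ((nat_lit 0), (nat_lit 0), (nat_lit 0)), ((nat_lit 363), (nat_lit 1000), (nat_lit 798))], ((nat_lit 0), (nat_lit 0), (nat_lit 0))⟩, (nat_lit 18434), (nat_lit 300), (nat_lit 1292), (nat_lit 5232700), (nat_lit 2129658), [(nat_lit 659414000), (nat_lit 941886000), (nat_lit 1098800000)], [], [(nat_lit 3993221082), (nat_lit 3869212264), (nat_lit 3926849593), (nat_lit 3802176049), (nat_lit 3741723253), (nat_lit 3613438760), (nat_lit 3679103934), (nat_lit 3549989408)], (nat_lit 780000), (nat_lit 1100000), (nat_lit 1271251), (nat_lit 1271251), (nat_lit 1271251), (nat_lit 1271251), [(nat_lit 1977501), (nat_lit 1271251), (nat_lit 1271251)], [(nat_lit 32), (nat_lit 67), (nat_lit 456), (nat_lit 225), (nat_lit 9)]⟩⟩) (.trZ (nat_lit 0) (nat_lit 1) (nat_lit 3) (nat_lit 100) (nat_lit 78) (nat_lit 81) (nat_lit 70) (.leaf ⟨(nat_lit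 906), (nat_lit 47), (nat_lit 0), (nat_lit 47), (nat_lit 0), (nat_lit 4062), (nat_lit 922), (nat_lit 533), (nat_lit 0), (nat_lit 0), (nat_lit 226500), [((nat_lit 340), [((nat_lit 19), (nat_lit 0), (nat_lit 906))])], ⟨(nat_lit 6), false, false, false, (nat_lit 157), (nat_lit 3872), (nat_lit 4184), [(nat_lit 1327983), (nat_lit 1333871), (nat_lit 1371306), (nat_lit 1377448), (nat_lit 1410806), (nat_lit 1414527), (nat_lit 1454130), (nat_lit 1458104)]⟩, ⟨(nat_lit 6), false, false, true, (nat_lit 213), (nat_lit 3872), (nat_lit 4184), [(nat_lit 1479587), (nat_lit 1477347), (nat_lit 1522921), (nat_lit 1520934), (nat_lit 1545843), (nat_lit 1541869), (nat_lit 1589176), (nat_lit 1585455)]⟩, (nat_lit 4638108), (nat_lit 44399333), (nat_lit 8646562), (nat_lit 13954105), (nat_lit 6), (nat_lit 0), [⟨(nat_lit 0), (nat_lit 99), (nat_lit 77), (nat_lit 100), (nat_lit 209947681)⟩], [], [], [⟨(nat_lit 2), (nat_lit 79), (nat_lit 100), (nat_lit 89), (nat_lit 327696)⟩],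
 ⟨⟨[(nat_lit 40), (nat_lit 80), (nat_lit 100)], [(nat_lit 0), (nat_lit 395), (nat_lit 1536)], [((nat_lit 0), (nat_lit 0), (nat_lit 0)), ((nat_lit 1000), (nat_lit 908), (nat_lit 154)), ((nat_lit 1000), (nat_lit 760), (nat_lit 642))], ((nat_lit 76), (nat_lit 100), (nat_lit 63))⟩, (nat_lit 1157244), (nat_lit 149), (nat_lit 149), (nat_lit 0), (nat_lit 214355), [(nat_lit 1637027537), (nat_lit 2408099197), (nat_lit 2894176403)], [(nat_lit 0), (nat_lit 0), (nat_lit 0)], [(nat_lit 20409737289), (nat_lit 21117741718), (nat_lit 20432230347), (nat_lit 21078624203), (nat_lit 22313725494), (nat_lit 23118202202), (nat_lit 22212255365), (nat_lit 22867554755)], (nat_lit 1271251), (nat_lit 1271251), (nat_lit 422188), (nat_lit 780000), (nat_lit 1271251), (nat_lit 1271251), [(nat_lit 490000), (nat_lit 1100000), (nat_lit 1442501)], [(nat_lit 3), (nat_lit 50), (nat_lit 238), (nat_lit 30), (nat_lit 8)]⟩,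
 ⟨⟨[(nat_lit 80), (nat_lit 120), (nat_lit 160)], [(nat_lit 0), (nat_lit 0), (nat_lit 2132)], [((nat_lit 0), (nat_lit 0), (nat_lit 0)), ((nat_lit 0), (nat_lit 0), (nat_lit 0)), ((nat_lit 858), (nat_lit 1000), (nat_lit 713))], ((nat_lit 100), (nat_lit 91), (nat_lit 64))⟩, (nat_lit 318996), (nat_lit 322), (nat_lit 322), (nat_lit 0), (nat_lit 282397), [(nat_lit 440672000), (nat_lit 748992000), (nat_lit 1115968000)], [], [(nat_lit 2213880203), (nat_lit 2406652309), (nat_lit 2081566352), (nat_lit 2260247757), (nat_lit 3000131976), (nat_lit 3157976460), (nat_lit 2814323603), (nat_lit 2941391838)], (nat_lit 1271251), (nat_lit 1271251), (nat_lit 422188), (nat_lit 780000), (nat_lit 1271251), (nat_lit 1271251), [(nat_lit 1100000), (nat_lit 1785001), (nat_lit 1271251)], [(nat_lit 18), (nat_lit 59), (nat_lit 428), (nat_lit 200), (nat_lit 11)]⟩,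
 ⟨⟨[(nat_lit 140), (nat_lit 180), (nat_lit 200)], [(nat_lit 0), (nat_lit 0), (nat_lit 2835)], [((nat_lit 0), (nat_lit 0), (nat_lit 0)), ((nat_lit 0), (nat_lit 0), (nat_lit 0)), ((nat_lit 363), (nat_lit 1000), (nat_lit 798))], ((nat_lit 0), (nat_lit 0), (nat_lit 0))⟩, (nat_lit 12931), (nat_lit 300), (nat_lit 1455), (nat_lit 3670704), (nat_lit 2475647), [(nat_lit 462574000), (nat_lit 660726000), (nat_lit 770800000)], [], [(nat_lit 2840543478), (nat_lit 2755918448), (nat_lit 2793793533), (nat_lit 2707618245), (nat_lit 2655045577), (nat_lit 2566384894), (nat_lit 2611940522), (nat_lit 2522700909)], (nat_lit 780000), (nat_lit 1100000), (nat_lit 1271251), (nat_lit 1271251), (nat_lit 1271251), (nat_lit 1271251), [(nat_lit 1977501), (nat_lit 1271251), (nat_lit 1271251)], [(nat_lit 32), (nat_lit 67), (nat_lit 465), (nat_lit 225), (nat_lit 9)]⟩⟩))) (.trZ (nat_lit 0) (nat_lit 1) (nat_lit 3) (nat_lit 100) (nat_lit 87) (nat_lit 95) (nat_lit 100) (.leaf ⟨(nat_lit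 0), (nat_lit 876), (nat_lit 0), (nat_lit 124), (nat_lit 0), (nat_lit 7123), (nat_lit 7949), (nat_lit 1417), (nat_lit 0), (nat_lit 0), (nat_lit 0), [], Pd.none, Pd.none, (nat_lit 0), (nat_lit 1), (nat_lit 0), (nat_lit 0), (nat_lit 6), (nat_lit 0), [⟨(nat_lit 0), (nat_lit 92), (nat_lit 81), (nat_lit 100), (nat_lit 1043095905)⟩], [], [], [⟨(nat_lit 2), (nat_lit 73), (nat_lit 100), (nat_lit 94), (nat_lit 370932941)⟩],
 ⟨⟨[(nat_lit 40), (nat_lit 80), (nat_lit 120)], [(nat_lit 0), (nat_lit 0), (nat_lit 2151)], [((nat_lit 0), (nat_lit 0), (nat_lit 0)), ((nat_lit 0), (nat_lit 0), (nat_lit 0)), ((nat_lit 1000), (nat_lit 815), (nat_lit 753))], ((nat_lit 80), (nat_lit 100), (nat_lit 63))⟩, (nat_lit 2232255), (nat_lit 181), (nat_lit 181), (nat_lit 0), (nat_lit 292967), [(nat_lit 2481303355), (nat_lit 4688000001), (nat_lit 7968000000)], [], [(nat_lit 21375599259), (nat_lit 22839754844), (nat_lit 21270762438), (nat_lit 22694890342), (nat_lit 23253595253), (nat_lit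 25435179003), (nat_lit 23075895077), (nat_lit 25215502458)], (nat_lit 1271251), (nat_lit 1271251), (nat_lit 631250), (nat_lit 780000), (nat_lit 1271251), (nat_lit 1271251), [(nat_lit 490000), (nat_lit 1100000), (nat_lit 1785001)], [(nat_lit 4), (nat_lit 51), (nat_lit 238), (nat_lit 30), (nat_lit 7)]⟩,
 ⟨⟨[(nat_lit 60), (nat_lit 100), (nat_lit 140)], [(nat_lit 0), (nat_lit 0), (nat_lit 2047)], [((nat_lit 0), (nat_lit 0), (nat_lit 0)), ((nat_lit 0), (nat_lit 0), (nat_lit 0)), ((nat_lit 1000), (nat_lit 993), (nat_lit 781))], ((nat_lit 95), (nat_lit 100), (nat_lit 65))⟩, (nat_lit 2705185), (nat_lit 242), (nat_lit 242), (nat_lit 0), (nat_lit 321904), [(nat_lit 3282000000), (nat_lit 6250000000), (nat_lit 9842000000)], [], [(nat_lit 21865601673), (nat_lit 24127406040), (nat_lit 21723029114), (nat_lit 23914188633), (nat_lit 29714453256), (nat_lit 32392909394), (nat_lit 29305035676), (nat_lit 31925331159)], (nat_lit 1271251), (nat_lit 1271251), (nat_lit 631250),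 (nat_lit 780000), (nat_lit 1271251), (nat_lit 1271251), [(nat_lit 780000), (nat_lit 1435001), (nat_lit 1271251)], [(nat_lit 11), (nat_lit 55), (nat_lit 345), (nat_lit 125), (nat_lit 9)]⟩,
 ⟨⟨[(nat_lit 140), (nat_lit 180), (nat_lit 200)], [(nat_lit 0), (nat_lit 0), (nat_lit 2835)], [((nat_lit 0), (nat_lit 0), (nat_lit 0)), ((nat_lit 0), (nat_lit 0), (nat_lit 0)), ((nat_lit 363), (nat_lit 1000), (nat_lit 798))], ((nat_lit 0), (nat_lit 0), (nat_lit 0))⟩, (nat_lit 34116), (nat_lit 300), (nat_lit 2068), (nat_lit 9684406), (nat_lit 3718580), [(nat_lit 1220408000), (nat_lit 1743192000), (nat_lit 2033600000)], [], [(nat_lit 7427415030), (nat_lit 7220407656), (nat_lit 7305383266), (nat_lit 7075881919), (nat_lit 6954186190), (nat_lit 6718047896), (nat_lit 6839087110), (nat_lit 6601415851)], (nat_lit 780000), (nat_lit 1100000), (nat_lit 1271251), (nat_lit 1271251), (nat_lit 1271251), (nat_lit 1271251), [(nat_lit 1977501), (nat_lit 1271251), (nat_lit 1271251)],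 [(nat_lit 32), (nat_lit 67), (nat_lit 619), (nat_lit 225), (nat_lit 12)]⟩⟩)))
noncomputable def c11_33 : Tr Lf :=
 (.trX (nat_lit 5) (nat_lit 4) (nat_lit 3) (nat_lit 100) (nat_lit 95) (nat_lit 87) (nat_lit 300) (.spl (nat_lit 6) (nat_lit 24) (.spl (nat_lit 1) (nat_lit 260) (.spl (nat_lit 5) (nat_lit 120) (.spl (nat_lit 6) (nat_lit 12) (.leaf ⟨(nat_lit 0), (nat_lit 840), (nat_lit 0), (nat_lit 160), (nat_lit 0), (nat_lit 4468), (nat_lit 17136), (nat_lit 1958), (nat_lit 0), (nat_lit 0), (nat_lit 0), [], Pd.none, Pd.none, (nat_lit 0), (nat_lit 1), (nat_lit 0), (nat_lit 0), (nat_lit 7), (nat_lit 0), [⟨(nat_lit 0), (nat_lit 100), (nat_lit 82), (nat_lit 76), (nat_lit 2605358449)⟩], [⟨(nat_lit 1), (nat_lit 76), (nat_lit 82), (nat_lit 100), (nat_lit 481056679)⟩], [], [],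
 ⟨⟨[(nat_lit 40), (nat_lit 60), (nat_lit 80)], [(nat_lit 0), (nat_lit 0), (nat_lit 615)], [((nat_lit 0), (nat_lit 0), (nat_lit 0)), ((nat_lit 0), (nat_lit 0), (nat_lit 0)), ((nat_lit 1000), (nat_lit 819), (nat_lit 426))], ((nat_lit 84), (nat_lit 100), (nat_lit 36))⟩, (nat_lit 4999855), (nat_lit 97), (nat_lit 97), (nat_lit 0), (nat_lit 0), [(nat_lit 2090273534), (nat_lit 3282000044), (nat_lit 4688000000)], [], [(nat_lit 22617076258), (nat_lit 24169719323), (nat_lit 21972575980), (nat_lit 23503332392), (nat_lit 26360899326), (nat_lit 27818863013), (nat_lit 25664768544), (nat_lit 26977468024)], (nat_lit 0), (nat_lit 0), (nat_lit 0), (nat_lit 0), (nat_lit 0), (nat_lit 0), [], [(nat_lit 2), (nat_lit 44), (nat_lit 226), (nat_lit 20), (nat_lit 9)]⟩,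
 ⟨⟨[(nat_lit 80), (nat_lit 100), (nat_lit 120)], [(nat_lit 0), (nat_lit 0), (nat_lit 511)], [((nat_lit 0), (nat_lit 0), (nat_lit 0)), ((nat_lit 0), (nat_lit 0), (nat_lit 0)), ((nat_lit 1000), (nat_lit 997), (nat_lit 383))], ((nat_lit 99), (nat_lit 100), (nat_lit 34))⟩, (nat_lit 2563444), (nat_lit 267), (nat_lit 267), (nat_lit 0), (nat_lit 245046), [(nat_lit 4688000000), (nat_lit 6250000000), (nat_lit 7968000000)], [], [(nat_lit 21050142064), (nat_lit 26969749730), (nat_lit 15789312576), (nat_lit 21670469304), (nat_lit 16581332856), (nat_lit 9234648637), (nat_lit 17923635520), (nat_lit 9791943784)], (nat_lit 1271251), (nat_lit 1271251), (nat_lit 356250), (nat_lit 490000), (nat_lit 0), (nat_lit 780000), [(nat_lit 1100000), (nat_lit 1442501), (nat_lit 1271251)], [(nat_lit 16), (nat_lit 54), (nat_lit 260), (nat_lit 50), (nat_lit 9)]⟩,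
 ⟨⟨[(nat_lit 140), (nat_lit 160), (nat_lit 180)], [(nat_lit 0), (nat_lit 0), (nat_lit 799)], [((nat_lit 0), (nat_lit 0), (nat_lit 0)), ((nat_lit 0), (nat_lit 0), (nat_lit 0)), ((nat_lit 728), (nat_lit 1000), (nat_lit 454))], ((nat_lit 100), (nat_lit 79), (nat_lit 37))⟩, (nat_lit 2128344), (nat_lit 300), (nat_lit 1448), (nat_lit 11872000), (nat_lit 2362904), [(nat_lit 1574720000), (nat_lit 1899520000), (nat_lit 2249280000)], [], [(nat_lit 9219193920), (nat_lit 8938338592), (nat_lit 9344049730), (nat_lit 9045197802), (nat_lit 7775970906), (nat_lit 7487880206), (nat_lit 7781586588), (nat_lit 7499017096)], (nat_lit 780000), (nat_lit 1100000), (nat_lit 1271251), (nat_lit 1271251), (nat_lit 0), (nat_lit 780000), [(nat_lit 1977501), (nat_lit 1271251), (nat_lit 1271251)], [(nat_lit 31), (nat_lit 65), (nat_lit 440), (nat_lit 175), (nat_lit 10)]⟩⟩) (.spl (nat_lit 0) (nat_lit 330) (.leaf ⟨(nat_lit 0), (nat_lit 899), (nat_lit 0), (nat_lit 101), (nat_lit 20699),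 (nat_lit 5739), (nat_lit 8312), (nat_lit 1317), (nat_lit 0), (nat_lit 0), (nat_lit 0), [], Pd.none, Pd.none, (nat_lit 0), (nat_lit 1), (nat_lit 0), (nat_lit 0), (nat_lit 7), (nat_lit 0), [⟨(nat_lit 0), (nat_lit 100), (nat_lit 82), (nat_lit 76), (nat_lit 1598127450)⟩], [⟨(nat_lit 1), (nat_lit 87), (nat_lit 82), (nat_lit 100), (nat_lit 7075652)⟩, ⟨(nat_lit 1), (nat_lit 76), (nat_lit 82), (nat_lit 100), (nat_lit 551991892)⟩], [], [],
 ⟨⟨[(nat_lit 40), (nat_lit 80), (nat_lit 100)], [(nat_lit 0), (nat_lit 0), (nat_lit 1280)], [((nat_lit 0), (nat_lit 0), (nat_lit 0)), ((nat_lit 0), (nat_lit 0), (nat_lit 0)), ((nat_lit 1000), (nat_lit 800), (nat_lit 600))], ((nat_lit 81), (nat_lit 100), (nat_lit 48))⟩, (nat_lit 1697601), (nat_lit 110), (nat_lit 110), (nat_lit 0), (nat_lit 0), [(nat_lit 2442619756), (nat_lit 4688000036), (nat_lit 6250000000)], [], [(nat_lit 24475142774), (nat_lit 25263188552), (nat_lit 23579577120), (nat_lit 24356364429), (nat_lit 28196518198),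 (nat_lit 29033937830), (nat_lit 27246316181), (nat_lit 27955452374)], (nat_lit 0), (nat_lit 0), (nat_lit 0), (nat_lit 0), (nat_lit 0), (nat_lit 0), [], [(nat_lit 3), (nat_lit 50), (nat_lit 226), (nat_lit 20), (nat_lit 7)]⟩,
 ⟨⟨[(nat_lit 80), (nat_lit 120), (nat_lit 140)], [(nat_lit 0), (nat_lit 0), (nat_lit 1164)], [((nat_lit 0), (nat_lit 0), (nat_lit 0)), ((nat_lit 0), (nat_lit 0), (nat_lit 0)), ((nat_lit 941), (nat_lit 1000), (nat_lit 576))], ((nat_lit 100), (nat_lit 98), (nat_lit 48))⟩, (nat_lit 5350742), (nat_lit 293), (nat_lit 293), (nat_lit 0), (nat_lit 119824), [(nat_lit 4688000000), (nat_lit 7968000000), (nat_lit 9842000000)], [], [(nat_lit 21089439376), (nat_lit 23399891324), (nat_lit 19380462808), (nat_lit 21710311720), (nat_lit 16722388764), (nat_lit 18172530784), (nat_lit 17406718000), (nat_lit 17075084388)], (nat_lit 1271251), (nat_lit 1271251), (nat_lit 356250), (nat_lit 490000), (nat_lit 0), (nat_lit 780000), [(nat_lit 1100000), (nat_lit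 1785001), (nat_lit 1271251)], [(nat_lit 17), (nat_lit 58), (nat_lit 345), (nat_lit 125), (nat_lit 10)]⟩,
 ⟨⟨[(nat_lit 140), (nat_lit 160), (nat_lit 180)], [(nat_lit 0), (nat_lit 0), (nat_lit 799)], [((nat_lit 0), (nat_lit 0), (nat_lit 0)), ((nat_lit 0), (nat_lit 0), (nat_lit 0)), ((nat_lit 728), (nat_lit 1000), (nat_lit 454))], ((nat_lit 100), (nat_lit 67), (nat_lit 52))⟩, (nat_lit 88738), (nat_lit 300), (nat_lit 867), (nat_lit 7494202), (nat_lit 1091347), [(nat_lit 994042000), (nat_lit 1199072000), (nat_lit 1419858000)], [], [(nat_lit 5704923240), (nat_lit 5512213464), (nat_lit 5781339840), (nat_lit 5576825135), (nat_lit 4660776542), (nat_lit 4478326903), (nat_lit 4720655056), (nat_lit 4526701606)], (nat_lit 780000), (nat_lit 1100000), (nat_lit 1271251), (nat_lit 1271251), (nat_lit 0), (nat_lit 780000), [(nat_lit 1977501), (nat_lit 1271251), (nat_lit 1271251)], [(nat_lit 31), (nat_lit 65), (nat_lit 401), (nat_lit 175), (nat_lit 9)]⟩⟩) (.trZ (nat_lit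 0) (nat_lit 1) (nat_lit 3) (nat_lit 100) (nat_lit 78) (nat_lit 81) (nat_lit 70) (.trX (nat_lit 4) (nat_lit 0) (nat_lit 2) (nat_lit 78) (nat_lit 81) (nat_lit 100) (nat_lit 330) (.leaf ⟨(nat_lit 520), (nat_lit 353), (nat_lit 0), (nat_lit 127), (nat_lit 0), (nat_lit 3842), (nat_lit 14311), (nat_lit 1754), (nat_lit 0), (nat_lit 0), (nat_lit 130000), [((nat_lit 340), [((nat_lit 18), (nat_lit 0), (nat_lit 520))])], ⟨(nat_lit 6), false, false, false, (nat_lit 140), (nat_lit 3872), (nat_lit 4184), [(nat_lit 1327983), (nat_lit 1333871), (nat_lit 1349645), (nat_lit 1355660), (nat_lit 1344547), (nat_lit 1350002), (nat_lit 1366209), (nat_lit 1371791)]⟩, ⟨(nat_lit 7), false, false, true, (nat_lit 243), (nat_lit 3872), (nat_lit 4184), [(nat_lit 1545843), (nat_lit 1541869), (nat_lit 1589176), (nat_lit 1585455), (nat_lit 1628662), (nat_lit 1622521), (nat_lit 1671996), (nat_lit 1666107)]⟩, (nat_lit 4654736), (nat_lit 43017505), (nat_lit 7083810), (nat_lit 16898685),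 (nat_lit 7), (nat_lit 0), [⟨(nat_lit 0), (nat_lit 100), (nat_lit 78), (nat_lit 81), (nat_lit 2073247405)⟩], [⟨(nat_lit 1), (nat_lit 91), (nat_lit 77), (nat_lit 100), (nat_lit 319033645)⟩], [], [],
 ⟨⟨[(nat_lit 40), (nat_lit 60), (nat_lit 80)], [(nat_lit 0), (nat_lit 197), (nat_lit 800)], [((nat_lit 0), (nat_lit 0), (nat_lit 0)), ((nat_lit 1000), (nat_lit 908), (nat_lit 154)), ((nat_lit 1000), (nat_lit 781), (nat_lit 471))], ((nat_lit 78), (nat_lit 100), (nat_lit 49))⟩, (nat_lit 1691554), (nat_lit 86), (nat_lit 86), (nat_lit 0), (nat_lit 0), [(nat_lit 1672160589), (nat_lit 2556977822), (nat_lit 3377600000)], [(nat_lit 0), (nat_lit 0), (nat_lit 0)], [(nat_lit 22399922385), (nat_lit 23073635341), (nat_lit 22145455282), (nat_lit 22814355583), (nat_lit 25081357272), (nat_lit 25772235601), (nat_lit 24725012352), (nat_lit 25412087648)], (nat_lit 0), (nat_lit 0), (nat_lit 0), (nat_lit 0), (nat_lit 0), (nat_lit 0), [], [(nat_lit 2), (nat_lit 44), (nat_lit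 226), (nat_lit 20), (nat_lit 9)]⟩,
 ⟨⟨[(nat_lit 80), (nat_lit 120), (nat_lit 140)], [(nat_lit 0), (nat_lit 0), (nat_lit 1164)], [((nat_lit 0), (nat_lit 0), (nat_lit 0)), ((nat_lit 0), (nat_lit 0), (nat_lit 0)), ((nat_lit 941), (nat_lit 1000), (nat_lit 576))], ((nat_lit 100), (nat_lit 98), (nat_lit 48))⟩, (nat_lit 681430), (nat_lit 302), (nat_lit 302), (nat_lit 0), (nat_lit 165532), [(nat_lit 2250240000), (nat_lit 3824640000), (nat_lit 4724160000)], [], [(nat_lit 13795390988), (nat_lit 17413818541), (nat_lit 12123521788), (nat_lit 15146642064), (nat_lit 14671132405), (nat_lit 8037997322), (nat_lit 15287601336), (nat_lit 8677035594)], (nat_lit 1271251), (nat_lit 1271251), (nat_lit 422188), (nat_lit 490000), (nat_lit 0), (nat_lit 780000), [(nat_lit 1100000), (nat_lit 1785001), (nat_lit 1271251)], [(nat_lit 17), (nat_lit 58), (nat_lit 345), (nat_lit 125), (nat_lit 10)]⟩,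
 ⟨⟨[(nat_lit 140), (nat_lit 160), (nat_lit 180)], [(nat_lit 0), (nat_lit 0), (nat_lit 799)], [((nat_lit 0), (nat_lit 0), (nat_lit 0)), ((nat_lit 0), (nat_lit 0), (nat_lit 0)), ((nat_lit 728), (nat_lit 1000), (nat_lit 454))], ((nat_lit 100), (nat_lit 67), (nat_lit 52))⟩, (nat_lit 111582), (nat_lit 300), (nat_lit 1081), (nat_lit 9423400), (nat_lit 1548679), [(nat_lit 1249934000), (nat_lit 1507744000), (nat_lit 1785366000)], [], [(nat_lit 7035208180), (nat_lit 6773848048), (nat_lit 7168846426), (nat_lit 6922703951), (nat_lit 5633176369), (nat_lit 5385619316), (nat_lit 5676275071), (nat_lit 5416513966)], (nat_lit 780000), (nat_lit 1100000), (nat_lit 1271251), (nat_lit 1271251), (nat_lit 0), (nat_lit 780000), [(nat_lit 1977501), (nat_lit 1271251), (nat_lit 1271251)], [(nat_lit 31), (nat_lit 65), (nat_lit 401), (nat_lit 175), (nat_lit 9)]⟩⟩))))) (.spl (nat_lit 2) (nat_lit 140) (.trX (nat_lit 4) (nat_lit 0) (nat_lit 2) (nat_lit 84) (nat_lit 85) (nat_lit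 100) (nat_lit 320) (.leaf ⟨(nat_lit 972), (nat_lit 0), (nat_lit 0), (nat_lit 28), (nat_lit 182), (nat_lit 3656), (nat_lit 379), (nat_lit 324), (nat_lit 0), (nat_lit 0), (nat_lit 702400), [((nat_lit 340), [((nat_lit 37), (nat_lit 2), (nat_lit 674)), ((nat_lit 18), (nat_lit 2), (nat_lit 298))])], ⟨(nat_lit 6), false, false, false, (nat_lit 136), (nat_lit 3872), (nat_lit 4473), [(nat_lit 1305146), (nat_lit 1317698), (nat_lit 1326695), (nat_lit 1339474), (nat_lit 1339140), (nat_lit 1349963), (nat_lit 1360688), (nat_lit 1371739)]⟩, ⟨(nat_lit 7), false, false, true, (nat_lit 236), (nat_lit 3872), (nat_lit 4473), [(nat_lit 1549689), (nat_lit 1541869), (nat_lit 1571255), (nat_lit 1563662), (nat_lit 1617667), (nat_lit 1606390), (nat_lit 1639234), (nat_lit 1628183)]⟩, (nat_lit 4567670), (nat_lit 43859613), (nat_lit 6811270), (nat_lit 16329117), (nat_lit 0), (nat_lit 0), [⟨(nat_lit 0), (nat_lit 100), (nat_lit 82), (nat_lit 76), (nat_lit 322136234)⟩], [⟨(nat_lit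 1), (nat_lit 85), (nat_lit 84), (nat_lit 100), (nat_lit 219294771)⟩], [], [],
 ⟨⟨[(nat_lit 40), (nat_lit 80), (nat_lit 100)], [(nat_lit 0), (nat_lit 0), (nat_lit 1280)], [((nat_lit 0), (nat_lit 0), (nat_lit 0)), ((nat_lit 0), (nat_lit 0), (nat_lit 0)), ((nat_lit 1000), (nat_lit 800), (nat_lit 600))], ((nat_lit 81), (nat_lit 100), (nat_lit 48))⟩, (nat_lit 0), (nat_lit 106), (nat_lit 106), (nat_lit 0), (nat_lit 0), [(nat_lit 1515645452), (nat_lit 1615573807), (nat_lit 817217600)], [(nat_lit 0), (nat_lit 0), (nat_lit 0)], [(nat_lit 21740026516), (nat_lit 23003466453), (nat_lit 21284559692), (nat_lit 22505066268), (nat_lit 23795127688), (nat_lit 25188182942), (nat_lit 23153817920), (nat_lit 24523122864)], (nat_lit 0), (nat_lit 0), (nat_lit 0), (nat_lit 0), (nat_lit 0), (nat_lit 0), [], [(nat_lit 3), (nat_lit 50), (nat_lit 226), (nat_lit 20), (nat_lit 7)]⟩,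
 ⟨⟨[(nat_lit 80), (nat_lit 120), (nat_lit 140)], [(nat_lit 0), (nat_lit 0), (nat_lit 1164)], [((nat_lit 0), (nat_lit 0), (nat_lit 0)), ((nat_lit 0), (nat_lit 0), (nat_lit 0)), ((nat_lit 941), (nat_lit 1000), (nat_lit 576))], ((nat_lit 100), (nat_lit 98), (nat_lit 48))⟩, (nat_lit 0), (nat_lit 220), (nat_lit 220), (nat_lit 0), (nat_lit 248771), [(nat_lit 131264000), (nat_lit 223104000), (nat_lit 275576000)], [], [(nat_lit 611341600), (nat_lit 574502790), (nat_lit 644176858), (nat_lit 504954073), (nat_lit 1407186382), (nat_lit 1236628068), (nat_lit 1451024958), (nat_lit 1281582681)], (nat_lit 1271251), (nat_lit 1271251), (nat_lit 356250), (nat_lit 490000), (nat_lit 780000), (nat_lit 2253751), [(nat_lit 1100000), (nat_lit 1785001), (nat_lit 1271251)], [(nat_lit 17), (nat_lit 58), (nat_lit 401), (nat_lit 175), (nat_lit 11)]⟩,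
 ⟨⟨[(nat_lit 140), (nat_lit 160), (nat_lit 180)], [(nat_lit 0), (nat_lit 0), (nat_lit 799)], [((nat_lit 0), (nat_lit 0), (nat_lit 0)), ((nat_lit 0), (nat_lit 0), (nat_lit 0)), ((nat_lit 728), (nat_lit 1000), (nat_lit 454))], ((nat_lit 100), (nat_lit 67), (nat_lit 52))⟩, (nat_lit 24601), (nat_lit 300), (nat_lit 2044), (nat_lit 2077600), (nat_lit 3736376), [(nat_lit 275576000), (nat_lit 332416000), (nat_lit 393624000)], [], [(nat_lit 1432024296), (nat_lit 1408267850), (nat_lit 1422041640), (nat_lit 1398093188), (nat_lit 1293047220), (nat_lit 1268675361), (nat_lit 1281717308), (nat_lit 1257801802)], (nat_lit 780000), (nat_lit 936250), (nat_lit 1271251), (nat_lit 1271251), (nat_lit 780000), (nat_lit 2253751), [(nat_lit 1977501), (nat_lit 1271251), (nat_lit 1271251)], [(nat_lit 31), (nat_lit 65), (nat_lit 606), (nat_lit 200), (nat_lit 14)]⟩⟩)) (.leaf ⟨(nat_lit 922), (nat_lit 0), (nat_lit 0), (nat_lit 78), (nat_lit 0), (nat_lit 3532), (nat_lit 1144), (nat_lit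 845), (nat_lit 0), (nat_lit 0), (nat_lit 756000), [((nat_lit 340), [((nat_lit 37), (nat_lit 2), (nat_lit 415)), ((nat_lit 18), (nat_lit 2), (nat_lit 507))])], ⟨(nat_lit 6), false, false, false, (nat_lit 136), (nat_lit 3872), (nat_lit 4473), [(nat_lit 1305146), (nat_lit 1317698), (nat_lit 1326695), (nat_lit 1339474), (nat_lit 1339140), (nat_lit 1349963), (nat_lit 1360688), (nat_lit 1371739)]⟩, ⟨(nat_lit 7), false, false, true, (nat_lit 251), (nat_lit 3872), (nat_lit 4473), [(nat_lit 1571255), (nat_lit 1563662), (nat_lit 1592822), (nat_lit 1585455), (nat_lit 1673223), (nat_lit 1660444), (nat_lit 1694789), (nat_lit 1682237)]⟩, (nat_lit 4655751), (nat_lit 42532993), (nat_lit 6694710), (nat_lit 17772297), (nat_lit 0), (nat_lit 0), [⟨(nat_lit 0), (nat_lit 100), (nat_lit 78), (nat_lit 85), (nat_lit 697733314)⟩], [⟨(nat_lit 1), (nat_lit 85), (nat_lit 78), (nat_lit 100), (nat_lit 211544571)⟩], [], [⟨(nat_lit 2), (nat_lit 100), (nat_lit 87), (nat_lit 79),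 (nat_lit 8060657)⟩],
 ⟨⟨[(nat_lit 40), (nat_lit 80), (nat_lit 100)], [(nat_lit 0), (nat_lit 0), (nat_lit 1280)], [((nat_lit 0), (nat_lit 0), (nat_lit 0)), ((nat_lit 0), (nat_lit 0), (nat_lit 0)), ((nat_lit 1000), (nat_lit 800), (nat_lit 600))], ((nat_lit 81), (nat_lit 100), (nat_lit 48))⟩, (nat_lit 0), (nat_lit 115), (nat_lit 115), (nat_lit 0), (nat_lit 0), [(nat_lit 1561239289), (nat_lit 1654319115), (nat_lit 739549600)], [(nat_lit 0), (nat_lit 0), (nat_lit 0)], [(nat_lit 21756725999), (nat_lit 22984671747), (nat_lit 21403541076), (nat_lit 22616508788), (nat_lit 25009098174), (nat_lit 26307348613), (nat_lit 24392758872), (nat_lit 25660542939)], (nat_lit 0), (nat_lit 0), (nat_lit 0), (nat_lit 0), (nat_lit 0), (nat_lit 0), [], [(nat_lit 3), (nat_lit 50), (nat_lit 226), (nat_lit 20), (nat_lit 7)]⟩,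
 ⟨⟨[(nat_lit 80), (nat_lit 120), (nat_lit 140)], [(nat_lit 0), (nat_lit 0), (nat_lit 1164)], [((nat_lit 0), (nat_lit 0), (nat_lit 0)), ((nat_lit 0), (nat_lit 0), (nat_lit 0)), ((nat_lit 941), (nat_lit 1000), (nat_lit 576))], ((nat_lit 100), (nat_lit 98), (nat_lit 48))⟩, (nat_lit 0), (nat_lit 207), (nat_lit 207), (nat_lit 0), (nat_lit 218019), [(nat_lit 365664000), (nat_lit 621504000), (nat_lit 767676000)], [], [(nat_lit 1578151692), (nat_lit 1553187360), (nat_lit 1673777248), (nat_lit 1341110238), (nat_lit 3941966392), (nat_lit 3427141296), (nat_lit 4070805128), (nat_lit 3559348754)], (nat_lit 1271251), (nat_lit 1271251), (nat_lit 356250), (nat_lit 490000), (nat_lit 780000), (nat_lit 2253751), [(nat_lit 1100000), (nat_lit 1785001), (nat_lit 1271251)], [(nat_lit 17), (nat_lit 58), (nat_lit 401), (nat_lit 175), (nat_lit 11)]⟩,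
 ⟨⟨[(nat_lit 140), (nat_lit 160), (nat_lit 180)], [(nat_lit 0), (nat_lit 304), (nat_lit 1085)], [((nat_lit 0), (nat_lit 0), (nat_lit 0)), ((nat_lit 913), (nat_lit 1000), (nat_lit 217)), ((nat_lit 759), (nat_lit 1000), (nat_lit 463))], ((nat_lit 100), (nat_lit 73), (nat_lit 50))⟩, (nat_lit 160105), (nat_lit 300), (nat_lit 1398), (nat_lit 5483401), (nat_lit 2456110), [(nat_lit 767676000), (nat_lit 926016000), (nat_lit 1096524000)], [], [(nat_lit 3961967721), (nat_lit 3899952176), (nat_lit 3912212335), (nat_lit 3850135203), (nat_lit 3576860705), (nat_lit 3514531818), (nat_lit 3534618588), (nat_lit 3470561678)], (nat_lit 936250), (nat_lit 1100000), (nat_lit 1271251), (nat_lit 1271251), (nat_lit 780000), (nat_lit 2253751), [(nat_lit 1977501), (nat_lit 1271251), (nat_lit 1271251)], [(nat_lit 31), (nat_lit 65), (nat_lit 450), (nat_lit 200), (nat_lit 10)]⟩⟩))) (.emL (nat_lit 0) (nat_lit 1) (nat_lit 3) (nat_lit 100) (nat_lit 84) (nat_lit 85))) (.leaf ⟨(nat_lit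 1000), (nat_lit 0), (nat_lit 0), (nat_lit 0), (nat_lit 31827), (nat_lit 3704), (nat_lit 0), (nat_lit 0), (nat_lit 0), (nat_lit 0), (nat_lit 806400), [((nat_lit 340), [((nat_lit 37), (nat_lit 2), (nat_lit 484)), ((nat_lit 19), (nat_lit 2), (nat_lit 516))])], ⟨(nat_lit 6), false, false, false, (nat_lit 140), (nat_lit 3872), (nat_lit 4473), [(nat_lit 1305146), (nat_lit 1317698), (nat_lit 1348244), (nat_lit 1361249), (nat_lit 1339140), (nat_lit 1349963), (nat_lit 1382237), (nat_lit 1393514)]⟩, ⟨(nat_lit 7), false, false, true, (nat_lit 247), (nat_lit 3872), (nat_lit 4473), [(nat_lit 1549689), (nat_lit 1541869), (nat_lit 1592822), (nat_lit 1585455), (nat_lit 1651656), (nat_lit 1638651), (nat_lit 1694789), (nat_lit 1682237)]⟩, (nat_lit 4677425), (nat_lit 42658315), (nat_lit 7040025), (nat_lit 17301660), (nat_lit 0), (nat_lit 0), [⟨(nat_lit 0), (nat_lit 100), (nat_lit 80), (nat_lit 89), (nat_lit 1572547998)⟩], [⟨(nat_lit 1), (nat_lit 89), (nat_lit 80),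 (nat_lit 100), (nat_lit 326753512)⟩], [], [],
 ⟨⟨[(nat_lit 40), (nat_lit 80), (nat_lit 120)], [(nat_lit 0), (nat_lit 0), (nat_lit 2151)], [((nat_lit 0), (nat_lit 0), (nat_lit 0)), ((nat_lit 0), (nat_lit 0), (nat_lit 0)), ((nat_lit 1000), (nat_lit 815), (nat_lit 753))], ((nat_lit 80), (nat_lit 100), (nat_lit 63))⟩, (nat_lit 0), (nat_lit 134), (nat_lit 134), (nat_lit 0), (nat_lit 0), [(nat_lit 1530477415), (nat_lit 1416982042), (nat_lit 0)], [(nat_lit 0), (nat_lit 0), (nat_lit 739561480)], [(nat_lit 21509759688), (nat_lit 23061428727), (nat_lit 20929970241), (nat_lit 22402078780), (nat_lit 25257506078), (nat_lit 26585105532), (nat_lit 24580052976), (nat_lit 25893522658)], (nat_lit 0), (nat_lit 0), (nat_lit 0), (nat_lit 0), (nat_lit 0), (nat_lit 0), [], [(nat_lit 4), (nat_lit 51), (nat_lit 226), (nat_lit 20), (nat_lit 6)]⟩,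
 Rw.none,
 Rw.none⟩)))
def l016 : List St := [⟨⟨(nat_lit 320), (nat_lit 340), (nat_lit 240), (nat_lit 280), (nat_lit 120), (nat_lit 200), (nat_lit 60), (nat_lit 120), (nat_lit 0), (nat_lit 80), (nat_lit 0), (nat_lit 400), (nat_lit 0), (nat_lit 24)⟩, (nat_lit 3), (nat_lit 3), (nat_lit 3), true, true, false⟩,
  ⟨⟨(nat_lit 320), (nat_lit 340), (nat_lit 240), (nat_lit 280), (nat_lit 120), (nat_lit 200), (nat_lit 60), (nat_lit 120), (nat_lit 0), (nat_lit 80), (nat_lit 0), (nat_lit 400), (nat_lit 24), (nat_lit 44)⟩, (nat_lit 3), (nat_lit 3), (nat_lit 3), true, true, false⟩,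
  ⟨⟨(nat_lit 320), (nat_lit 340), (nat_lit 240), (nat_lit 280), (nat_lit 120), (nat_lit 200), (nat_lit 60), (nat_lit 120), (nat_lit 80), (nat_lit 120), (nat_lit 0), (nat_lit 400), (nat_lit 0), (nat_lit 44)⟩, (nat_lit 3), (nat_lit 3), (nat_lit 3), true, true, false⟩,
  ⟨⟨(nat_lit 320), (nat_lit 340), (nat_lit 240), (nat_lit 280), (nat_lit 200), (nat_lit 280), (nat_lit 60), (nat_lit 120), (nat_lit 40), (nat_lit 120), (nat_lit 0), (nat_lit 120), (nat_lit 0), (nat_lit 44)⟩, (nat_lit 3), (nat_lit 3), (nat_lit 3), true, true, true⟩,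
  ⟨⟨(nat_lit 320), (nat_lit 340), (nat_lit 240), (nat_lit 280), (nat_lit 200), (nat_lit 280), (nat_lit 60), (nat_lit 120), (nat_lit 40), (nat_lit 120), (nat_lit 120), (nat_lit 400), (nat_lit 0), (nat_lit 44)⟩, (nat_lit 3), (nat_lit 3), (nat_lit 3), true, true, false⟩,
  ⟨⟨(nat_lit 320), (nat_lit 340), (nat_lit 280), (nat_lit 320), (nat_lit 120), (nat_lit 320), (nat_lit 60), (nat_lit 120), (nat_lit 0), (nat_lit 120), (nat_lit 0), (nat_lit 400), (nat_lit 0), (nat_lit 44)⟩, (nat_lit 3), (nat_lit 3), (nat_lit 3), true, true, false⟩,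
  ⟨⟨(nat_lit 320), (nat_lit 340), (nat_lit 240), (nat_lit 320), (nat_lit 120), (nat_lit 320), (nat_lit 60), (nat_lit 120), (nat_lit 0), (nat_lit 120), (nat_lit 0), (nat_lit 400), (nat_lit 44), (nat_lit 88)⟩, (nat_lit 3), (nat_lit 3), (nat_lit 3), true, true, false⟩,
  ⟨⟨(nat_lit 320), (nat_lit 340), (nat_lit 240), (nat_lit 320), (nat_lit 120), (nat_lit 220), (nat_lit 120), (nat_lit 400), (nat_lit 0), (nat_lit 120), (nat_lit 0), (nat_lit 400), (nat_lit 0), (nat_lit 24)⟩, (nat_lit 3), (nat_lit 0), (nat_lit 3), false, true, false⟩,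
  ⟨⟨(nat_lit 320), (nat_lit 340), (nat_lit 240), (nat_lit 320), (nat_lit 120), (nat_lit 220), (nat_lit 120), (nat_lit 400), (nat_lit 0), (nat_lit 120), (nat_lit 0), (nat_lit 400), (nat_lit 24), (nat_lit 44)⟩, (nat_lit 3), (nat_lit 0), (nat_lit 3), false, true, false⟩,
  ⟨⟨(nat_lit 320), (nat_lit 340), (nat_lit 240), (nat_lit 320), (nat_lit 120), (nat_lit 220), (nat_lit 120), (nat_lit 200), (nat_lit 0), (nat_lit 120), (nat_lit 0), (nat_lit 200), (nat_lit 0), (nat_lit 44)⟩, (nat_lit 3), (nat_lit 1), (nat_lit 3), false, true, false⟩,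
  ⟨⟨(nat_lit 320), (nat_lit 340), (nat_lit 240), (nat_lit 320), (nat_lit 120), (nat_lit 220), (nat_lit 120), (nat_lit 200), (nat_lit 0), (nat_lit 120), (nat_lit 200), (nat_lit 400), (nat_lit 0), (nat_lit 44)⟩, (nat_lit 3), (nat_lit 1), (nat_lit 3), false, true, false⟩,
  ⟨⟨(nat_lit 320), (nat_lit 340), (nat_lit 240), (nat_lit 320), (nat_lit 120), (nat_lit 220), (nat_lit 200), (nat_lit 280), (nat_lit 0), (nat_lit 120), (nat_lit 0), (nat_lit 400), (nat_lit 0), (nat_lit 44)⟩, (nat_lit 3), (nat_lit 1), (nat_lit 3), false, true, false⟩,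
  ⟨⟨(nat_lit 320), (nat_lit 340), (nat_lit 240), (nat_lit 320), (nat_lit 120), (nat_lit 220), (nat_lit 280), (nat_lit 400), (nat_lit 0), (nat_lit 120), (nat_lit 0), (nat_lit 400), (nat_lit 0), (nat_lit 44)⟩, (nat_lit 3), (nat_lit 1), (nat_lit 3), false, true, false⟩,
  ⟨⟨(nat_lit 320), (nat_lit 340), (nat_lit 240), (nat_lit 320), (nat_lit 220), (nat_lit 320), (nat_lit 120), (nat_lit 400), (nat_lit 50), (nat_lit 120), (nat_lit 0), (nat_lit 400), (nat_lit 0), (nat_lit 44)⟩, (nat_lit 3), (nat_lit 0), (nat_lit 3), false, true, false⟩,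
  ⟨⟨(nat_lit 320), (nat_lit 340), (nat_lit 240), (nat_lit 320), (nat_lit 220), (nat_lit 320), (nat_lit 120), (nat_lit 400), (nat_lit 50), (nat_lit 120), (nat_lit 0), (nat_lit 400), (nat_lit 0), (nat_lit 44)⟩, (nat_lit 3), (nat_lit 1), (nat_lit 3), false, true, false⟩,
  ⟨⟨(nat_lit 320), (nat_lit 340), (nat_lit 240), (nat_lit 280), (nat_lit 120), (nat_lit 220), (nat_lit 120), (nat_lit 280), (nat_lit 0), (nat_lit 120), (nat_lit 0), (nat_lit 400), (nat_lit 44), (nat_lit 88)⟩, (nat_lit 3), (nat_lit 3), (nat_lit 3), false, true, false⟩,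
  ⟨⟨(nat_lit 320), (nat_lit 340), (nat_lit 280), (nat_lit 320), (nat_lit 120), (nat_lit 220), (nat_lit 120), (nat_lit 280), (nat_lit 0), (nat_lit 120), (nat_lit 0), (nat_lit 200), (nat_lit 44), (nat_lit 88)⟩, (nat_lit 3), (nat_lit 3), (nat_lit 3), false, true, false⟩,
  ⟨⟨(nat_lit 320), (nat_lit 340), (nat_lit 280), (nat_lit 300), (nat_lit 120), (nat_lit 220), (nat_lit 120), (nat_lit 280), (nat_lit 0), (nat_lit 120), (nat_lit 200), (nat_lit 400), (nat_lit 44), (nat_lit 88)⟩, (nat_lit 3), (nat_lit 3), (nat_lit 3), false, true, false⟩,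
  ⟨⟨(nat_lit 320), (nat_lit 340), (nat_lit 300), (nat_lit 320), (nat_lit 120), (nat_lit 220), (nat_lit 120), (nat_lit 280), (nat_lit 0), (nat_lit 120), (nat_lit 200), (nat_lit 400), (nat_lit 44), (nat_lit 88)⟩, (nat_lit 3), (nat_lit 3), (nat_lit 3), false, true, false⟩,
  ⟨⟨(nat_lit 320), (nat_lit 340), (nat_lit 240), (nat_lit 320), (nat_lit 120), (nat_lit 220), (nat_lit 280), (nat_lit 400), (nat_lit 0), (nat_lit 120), (nat_lit 0), (nat_lit 400), (nat_lit 44), (nat_lit 88)⟩, (nat_lit 3), (nat_lit 3), (nat_lit 3), false, true, false⟩,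
  ⟨⟨(nat_lit 320), (nat_lit 340), (nat_lit 240), (nat_lit 320), (nat_lit 220), (nat_lit 320), (nat_lit 120), (nat_lit 400), (nat_lit 0), (nat_lit 120), (nat_lit 0), (nat_lit 400), (nat_lit 44), (nat_lit 88)⟩, (nat_lit 3), (nat_lit 3), (nat_lit 3), false, true, false⟩,
  ⟨⟨(nat_lit 320), (nat_lit 340), (nat_lit 240), (nat_lit 280), (nat_lit 120), (nat_lit 180), (nat_lit 60), (nat_lit 120), (nat_lit 120), (nat_lit 240), (nat_lit 0), (nat_lit 400), (nat_lit 0), (nat_lit 24)⟩, (nat_lit 3), (nat_lit 3), (nat_lit 3), true, false, false⟩,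
  ⟨⟨(nat_lit 320), (nat_lit 340), (nat_lit 240), (nat_lit 280), (nat_lit 120), (nat_lit 180), (nat_lit 60), (nat_lit 120), (nat_lit 120), (nat_lit 240), (nat_lit 0), (nat_lit 400), (nat_lit 24), (nat_lit 44)⟩, (nat_lit 3), (nat_lit 3), (nat_lit 3), true, false, false⟩,
  ⟨⟨(nat_lit 320), (nat_lit 340), (nat_lit 240), (nat_lit 280), (nat_lit 180), (nat_lit 220), (nat_lit 60), (nat_lit 120), (nat_lit 120), (nat_lit 240), (nat_lit 0), (nat_lit 400), (nat_lit 0), (nat_lit 44)⟩, (nat_lit 3), (nat_lit 3), (nat_lit 3), true, false, false⟩,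
  ⟨⟨(nat_lit 320), (nat_lit 340), (nat_lit 280), (nat_lit 320), (nat_lit 120), (nat_lit 180), (nat_lit 100), (nat_lit 120), (nat_lit 120), (nat_lit 240), (nat_lit 0), (nat_lit 400), (nat_lit 0), (nat_lit 44)⟩, (nat_lit 3), (nat_lit 3), (nat_lit 3), true, false, false⟩,
  ⟨⟨(nat_lit 320), (nat_lit 340), (nat_lit 280), (nat_lit 320), (nat_lit 180), (nat_lit 220), (nat_lit 100), (nat_lit 120), (nat_lit 120), (nat_lit 240), (nat_lit 0), (nat_lit 400), (nat_lit 0), (nat_lit 44)⟩, (nat_lit 3), (nat_lit 3), (nat_lit 3), true, false, false⟩,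
  ⟨⟨(nat_lit 320), (nat_lit 340), (nat_lit 240), (nat_lit 280), (nat_lit 120), (nat_lit 180), (nat_lit 60), (nat_lit 120), (nat_lit 240), (nat_lit 350), (nat_lit 0), (nat_lit 370), (nat_lit 0), (nat_lit 24)⟩, (nat_lit 3), (nat_lit 3), (nat_lit 0), true, false, false⟩,
  ⟨⟨(nat_lit 320), (nat_lit 340), (nat_lit 240), (nat_lit 260), (nat_lit 120), (nat_lit 180), (nat_lit 60), (nat_lit 120), (nat_lit 240), (nat_lit 350), (nat_lit 0), (nat_lit 370), (nat_lit 24), (nat_lit 44)⟩, (nat_lit 3), (nat_lit 3), (nat_lit 0), true, false, false⟩,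
  ⟨⟨(nat_lit 320), (nat_lit 340), (nat_lit 260), (nat_lit 280), (nat_lit 120), (nat_lit 180), (nat_lit 60), (nat_lit 120), (nat_lit 240), (nat_lit 350), (nat_lit 0), (nat_lit 370), (nat_lit 24), (nat_lit 44)⟩, (nat_lit 3), (nat_lit 3), (nat_lit 0), true, false, false⟩,
  ⟨⟨(nat_lit 320), (nat_lit 340), (nat_lit 280), (nat_lit 320), (nat_lit 120), (nat_lit 180), (nat_lit 60), (nat_lit 120), (nat_lit 240), (nat_lit 350), (nat_lit 0), (nat_lit 370), (nat_lit 0), (nat_lit 44)⟩, (nat_lit 3), (nat_lit 3), (nat_lit 0), true, false, false⟩,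
  ⟨⟨(nat_lit 320), (nat_lit 340), (nat_lit 240), (nat_lit 320), (nat_lit 120), (nat_lit 160), (nat_lit 60), (nat_lit 120), (nat_lit 240), (nat_lit 280), (nat_lit 0), (nat_lit 370), (nat_lit 0), (nat_lit 44)⟩, (nat_lit 0), (nat_lit 3), (nat_lit 1), true, false, false⟩,
  ⟨⟨(nat_lit 320), (nat_lit 340), (nat_lit 240), (nat_lit 320), (nat_lit 120), (nat_lit 160), (nat_lit 60), (nat_lit 120), (nat_lit 240), (nat_lit 280), (nat_lit 0), (nat_lit 200), (nat_lit 0), (nat_lit 44)⟩, (nat_lit 1), (nat_lit 3), (nat_lit 1), true, false, false⟩,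
  ⟨⟨(nat_lit 320), (nat_lit 340), (nat_lit 240), (nat_lit 320), (nat_lit 120), (nat_lit 160), (nat_lit 60), (nat_lit 120), (nat_lit 240), (nat_lit 280), (nat_lit 200), (nat_lit 370), (nat_lit 0), (nat_lit 44)⟩, (nat_lit 1), (nat_lit 3), (nat_lit 1), true, false, false⟩,
  ⟨⟨(nat_lit 320), (nat_lit 340), (nat_lit 240), (nat_lit 280), (nat_lit 120), (nat_lit 160), (nat_lit 60), (nat_lit 80), (nat_lit 280), (nat_lit 340), (nat_lit 0), (nat_lit 320), (nat_lit 0), (nat_lit 44)⟩, (nat_lit 0), (nat_lit 3), (nat_lit 1), true, false, false⟩]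
theorem t016 (h : EC env Ei) : ∀ τ ∈ l016, Dead τ :=
  List.forall_mem_cons.mpr ⟨chkT_sound0 h (T := c11_0) (by decide +kernel),
  List.forall_mem_cons.mpr ⟨chkT_sound0 h (T := c11_1) (by decide +kernel),
  List.forall_mem_cons.mpr ⟨chkT_sound0 h (T := c11_2) (by decide +kernel),
  List.forall_mem_cons.mpr ⟨chkT_sound0 h (T := c11_3) (by decide +kernel),
  List.forall_mem_cons.mpr ⟨chkT_sound0 h (T := c11_4) (by decide +kernel),
  List.forall_mem_cons.mpr ⟨chkT_sound0 h (T := c11_5) (by decide +kernel),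
  List.forall_mem_cons.mpr ⟨chkT_sound0 h (T := c11_6) (by decide +kernel),
  List.forall_mem_cons.mpr ⟨chkT_sound0 h (T := c11_7) (by decide +kernel),
  List.forall_mem_cons.mpr ⟨chkT_sound0 h (T := c11_8) (by decide +kernel),
  List.forall_mem_cons.mpr ⟨chkT_sound0 h (T := c11_9) (by decide +kernel),
  List.forall_mem_cons.mpr ⟨chkT_sound0 h (T := c11_10) (by decide +kernel),
  List.forall_mem_cons.mpr ⟨chkT_sound0 h (T := c11_11) (by decide +kernel),
  List.forall_mem_cons.mpr ⟨chkT_sound0 h (T := c11_12) (by decide +kernel),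
  List.forall_mem_cons.mpr ⟨chkT_sound0 h (T := c11_13) (by decide +kernel),
  List.forall_mem_cons.mpr ⟨chkT_sound0 h (T := c11_14) (by decide +kernel),
  List.forall_mem_cons.mpr ⟨chkT_sound0 h (T := c11_15) (by decide +kernel),
  List.forall_mem_cons.mpr ⟨chkT_sound0 h (T := c11_16) (by decide +kernel),
  List.forall_mem_cons.mpr ⟨chkT_sound0 h (T := c11_17) (by decide +kernel),
  List.forall_mem_cons.mpr ⟨chkT_sound0 h (T := c11_18) (by decide +kernel),
  List.forall_mem_cons.mpr ⟨chkT_sound0 h (T := c11_19) (by decide +kernel),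
  List.forall_mem_cons.mpr ⟨chkT_sound0 h (T := c11_20) (by decide +kernel),
  List.forall_mem_cons.mpr ⟨chkT_sound0 h (T := c11_21) (by decide +kernel),
  List.forall_mem_cons.mpr ⟨chkT_sound0 h (T := c11_22) (by decide +kernel),
  List.forall_mem_cons.mpr ⟨chkT_sound0 h (T := c11_23) (by decide +kernel),
  List.forall_mem_cons.mpr ⟨chkT_sound0 h (T := c11_24) (by decide +kernel),
  List.forall_mem_cons.mpr ⟨chkT_sound0 h (T := c11_25) (by decide +kernel),
  List.forall_mem_cons.mpr ⟨chkT_sound0 h (T := c11_26) (by decide +kernel),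
  List.forall_mem_cons.mpr ⟨chkT_sound0 h (T := c11_27) (by decide +kernel),
  List.forall_mem_cons.mpr ⟨chkT_sound0 h (T := c11_28) (by decide +kernel),
  List.forall_mem_cons.mpr ⟨chkT_sound0 h (T := c11_29) (by decide +kernel),
  List.forall_mem_cons.mpr ⟨chkT_sound0 h (T := c11_30) (by decide +kernel),
  List.forall_mem_cons.mpr ⟨chkT_sound0 h (T := c11_31) (by decide +kernel),
  List.forall_mem_cons.mpr ⟨chkT_sound0 h (T := c11_32) (by decide +kernel),
  List.forall_mem_cons.mpr ⟨chkT_sound0 h (T := c11_33) (by decide +kernel),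
  List.forall_mem_nil _⟩⟩⟩⟩⟩⟩⟩⟩⟩⟩⟩⟩⟩⟩⟩⟩⟩⟩⟩⟩⟩⟩⟩⟩⟩⟩⟩⟩⟩⟩⟩⟩⟩⟩
end TC
end Pool.Agent.Lib.MP_6947cd_al
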