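import Pool.Agent.Lib.MP_6947cd_al.C.LeafF
import Pool.Agent.Lib.MP_6947cd_al.TC.E
import Pool.Agent.Lib.MP_6947cd_al.TC.F

/-!
Problem MP_6947cd_al (Chollet).  CASE C, tables and certificates.  Trees of leaves (part 17 of root 11).
-/

set_option autoImplicit false
set_option linter.all false
set_option maxRecDepth 100000
set_option maxHeartbeats 4000000
namespace Pool.Agent.Lib.MP_6947cd_al
namespace TC
open C1
noncomputable def c11_34 : Tr Lf :=
 (.spl (nat_lit 6) (nat_lit 24) (.spl (nat_lit 5) (nat_lit 120) (.spl (nat_lit 1) (nat_lit 260) (.spl (nat_lit 1) (nat_lit 250) (.leaf ⟨(nat_lit 888), (nat_lit 69), (nat_lit 0), (nat_lit 43), (nat_lit 842), (nat_lit 4173), (nat_lit 2661), (nat_lit 553), (nat_lit 0), (nat_lit 0), (nat_lit 222000), [((nat_lit 330), [((nat_lit 18), (nat_lit 0), (nat_lit 888))])], ⟨(nat_lit 6), false, false, false, (nat_lit 146), (nat_lit 4183), (nat_lit 4473), [(nat_lit 1339187), (nat_lit 1344555), (nat_lit 1349969), (nat_lit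 1355387), (nat_lit 1373177), (nat_lit 1377684), (nat_lit 1383958), (nat_lit 1388515)]⟩, ⟨(nat_lit 7), false, false, true, (nat_lit 248), (nat_lit 4183), (nat_lit 4473), [(nat_lit 1549689), (nat_lit 1545843), (nat_lit 1592822), (nat_lit 1589176), (nat_lit 1651656), (nat_lit 1645226), (nat_lit 1694789), (nat_lit 1688560)]⟩, (nat_lit 4741338), (nat_lit 42236658), (nat_lit 7450245), (nat_lit 17313097), (nat_lit 7), (nat_lit 0), [], [⟨(nat_lit 1), (nat_lit 87), (nat_lit 82), (nat_lit 100), (nat_lit 275717098)⟩, ⟨(nat_lit 1), (nat_lit 76), (nat_lit 82), (nat_lit 100), (nat_lit 12713348)⟩], [], [],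
 ⟨⟨[(nat_lit 40), (nat_lit 80), (nat_lit 100)], [(nat_lit 0), (nat_lit 0), (nat_lit 1280)], [((nat_lit 0), (nat_lit 0), (nat_lit 0)), ((nat_lit 0), (nat_lit 0), (nat_lit 0)), ((nat_lit 1000), (nat_lit 800), (nat_lit 600))], ((nat_lit 81), (nat_lit 100), (nat_lit 48))⟩, (nat_lit 0), (nat_lit 80), (nat_lit 80), (nat_lit 0), (nat_lit 0), [(nat_lit 1684328220), (nat_lit 2450240003), (nat_lit 2975056000)], [(nat_lit 0), (nat_lit 0), (nat_lit 0)], [(nat_lit 21755730415), (nat_lit 22453351154), (nat_lit 21873318488), (nat_lit 22554097428), (nat_lit 25136307612), (nat_lit 25832553183), (nat_lit 25172227306), (nat_lit 25815365243)], (nat_lit 0), (nat_lit 0), (nat_lit 0), (nat_lit 0), (nat_lit 0), (nat_lit 0), [], [(nat_lit 3), (nat_lit 50), (nat_lit 232), (nat_lit 25), (nat_lit 7)]⟩,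
 ⟨⟨[(nat_lit 80), (nat_lit 120), (nat_lit 140)], [(nat_lit 0), (nat_lit 0), (nat_lit 1164)], [((nat_lit 0), (nat_lit 0), (nat_lit 0)), ((nat_lit 0), (nat_lit 0), (nat_lit 0)), ((nat_lit 941), (nat_lit 1000), (nat_lit 576))], ((nat_lit 100), (nat_lit 98), (nat_lit 48))⟩, (nat_lit 566193), (nat_lit 298), (nat_lit 298), (nat_lit 0), (nat_lit 191939), [(nat_lit 525056000), (nat_lit 892416000), (nat_lit 1102304000)], [], [(nat_lit 2883486000), (nat_lit 2568610864), (nat_lit 3170228797), (nat_lit 2534541510), (nat_lit 3924253800), (nat_lit 3309666579), (nat_lit 4261824358), (nat_lit 3651208846)], (nat_lit 1271251), (nat_lit 1271251), (nat_lit 490000), (nat_lit 631250), (nat_lit 0), (nat_lit 780000), [(nat_lit 1100000), (nat_lit 1785001), (nat_lit 1271251)], [(nat_lit 17), (nat_lit 58), (nat_lit 345), (nat_lit 125), (nat_lit 10)]⟩,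
 ⟨⟨[(nat_lit 140), (nat_lit 160), (nat_lit 180)], [(nat_lit 0), (nat_lit 0), (nat_lit 799)], [((nat_lit 0), (nat_lit 0), (nat_lit 0)), ((nat_lit 0), (nat_lit 0), (nat_lit 0)), ((nat_lit 728), (nat_lit 1000), (nat_lit 454))], ((nat_lit 100), (nat_lit 67), (nat_lit 52))⟩, (nat_lit 37780), (nat_lit 300), (nat_lit 1151), (nat_lit 3190600), (nat_lit 1713184), [(nat_lit 423206000), (nat_lit 510496000), (nat_lit 604494000)], [], [(nat_lit 2439702776), (nat_lit 2359155200), (nat_lit 2472495650), (nat_lit 2386767155), (nat_lit 2002170208), (nat_lit 1925919911), (nat_lit 2027989300), (nat_lit 1946896602)], (nat_lit 780000), (nat_lit 1100000), (nat_lit 1271251), (nat_lit 1271251), (nat_lit 0), (nat_lit 780000), [(nat_lit 1977501), (nat_lit 1271251), (nat_lit 1271251)], [(nat_lit 31), (nat_lit 65), (nat_lit 401), (nat_lit 175), (nat_lit 9)]⟩⟩) (.leaf ⟨(nat_lit 683), (nat_lit 246), (nat_lit 0), (nat_lit 71), (nat_lit 0), (nat_lit 4131), (nat_lit 6610), (nat_lit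 872), (nat_lit 0), (nat_lit 0), (nat_lit 469400), [((nat_lit 330), [((nat_lit 37), (nat_lit 2), (nat_lit 534)), ((nat_lit 18), (nat_lit 2), (nat_lit 149))])], ⟨(nat_lit 6), false, false, false, (nat_lit 150), (nat_lit 4183), (nat_lit 4473), [(nat_lit 1349969), (nat_lit 1355387), (nat_lit 1360749), (nat_lit 1366218), (nat_lit 1383958), (nat_lit 1388515), (nat_lit 1394739), (nat_lit 1399346)]⟩, ⟨(nat_lit 7), false, false, true, (nat_lit 248), (nat_lit 4183), (nat_lit 4473), [(nat_lit 1549689), (nat_lit 1545843), (nat_lit 1592822), (nat_lit 1589176), (nat_lit 1651656), (nat_lit 1645226), (nat_lit 1694789), (nat_lit 1688560)]⟩, (nat_lit 4783880), (nat_lit 41984391), (nat_lit 7767929), (nat_lit 17247680), (nat_lit 7), (nat_lit 0), [⟨(nat_lit 0), (nat_lit 100), (nat_lit 81), (nat_lit 85), (nat_lit 27592466)⟩], [⟨(nat_lit 1), (nat_lit 87), (nat_lit 82), (nat_lit 100), (nat_lit 323895664)⟩], [], [],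
 ⟨⟨[(nat_lit 40), (nat_lit 80), (nat_lit 100)], [(nat_lit 0), (nat_lit 0), (nat_lit 1280)], [((nat_lit 0), (nat_lit 0), (nat_lit 0)), ((nat_lit 0), (nat_lit 0), (nat_lit 0)), ((nat_lit 1000), (nat_lit 800), (nat_lit 600))], ((nat_lit 81), (nat_lit 100), (nat_lit 48))⟩, (nat_lit 0), (nat_lit 80), (nat_lit 80), (nat_lit 0), (nat_lit 0), [(nat_lit 1891338952), (nat_lit 2397363323), (nat_lit 2574258877)], [(nat_lit 0), (nat_lit 0), (nat_lit 0)], [(nat_lit 21761117151), (nat_lit 22415518312), (nat_lit 21901208513), (nat_lit 22539889359), (nat_lit 25086643028), (nat_lit 25779201060), (nat_lit 25126467064), (nat_lit 25766366419)], (nat_lit 0), (nat_lit 0), (nat_lit 0), (nat_lit 0), (nat_lit 0), (nat_lit 0), [], [(nat_lit 3), (nat_lit 50), (nat_lit 232), (nat_lit 25), (nat_lit 7)]⟩,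
 ⟨⟨[(nat_lit 80), (nat_lit 120), (nat_lit 140)], [(nat_lit 0), (nat_lit 264), (nat_lit 1360)], [((nat_lit 0), (nat_lit 0), (nat_lit 0)), ((nat_lit 1000), (nat_lit 979), (nat_lit 103)), ((nat_lit 951), (nat_lit 1000), (nat_lit 628))], ((nat_lit 100), (nat_lit 100), (nat_lit 49))⟩, (nat_lit 1370716), (nat_lit 308), (nat_lit 308), (nat_lit 0), (nat_lit 203976), [(nat_lit 1486096000), (nat_lit 2525856000), (nat_lit 3119914000)], [], [(nat_lit 7141043474), (nat_lit 7787895639), (nat_lit 7317400788), (nat_lit 7537134848), (nat_lit 9341938986), (nat_lit 7815286776), (nat_lit 10212255405), (nat_lit 8695469033)], (nat_lit 1271251), (nat_lit 1271251), (nat_lit 490000), (nat_lit 631250), (nat_lit 0), (nat_lit 780000), [(nat_lit 1100000), (nat_lit 1785001), (nat_lit 1271251)], [(nat_lit 17), (nat_lit 58), (nat_lit 345), (nat_lit 125), (nat_lit 10)]⟩,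
 ⟨⟨[(nat_lit 140), (nat_lit 160), (nat_lit 180)], [(nat_lit 0), (nat_lit 0), (nat_lit 799)], [((nat_lit 0), (nat_lit 0), (nat_lit 0)), ((nat_lit 0), (nat_lit 0), (nat_lit 0)), ((nat_lit 728), (nat_lit 1000), (nat_lit 454))], ((nat_lit 100), (nat_lit 67), (nat_lit 52))⟩, (nat_lit 62381), (nat_lit 300), (nat_lit 1235), (nat_lit 5268200), (nat_lit 1912242), [(nat_lit 698782000), (nat_lit 842912000), (nat_lit 998118000)], [], [(nat_lit 4086358780), (nat_lit 3961348624), (nat_lit 4141887235), (nat_lit 4008637804), (nat_lit 3438658713), (nat_lit 3310220928), (nat_lit 3445663586), (nat_lit 3319669926)], (nat_lit 780000), (nat_lit 1100000), (nat_lit 1271251), (nat_lit 1271251), (nat_lit 0), (nat_lit 780000), [(nat_lit 1977501), (nat_lit 1271251), (nat_lit 1271251)], [(nat_lit 31), (nat_lit 65), (nat_lit 401), (nat_lit 175), (nat_lit 9)]⟩⟩)) (.leaf ⟨(nat_lit 0), (nat_lit 885), (nat_lit 0), (nat_lit 115), (nat_lit 0), (nat_lit 5938), (nat_lit 11643), (nat_lit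 1408), (nat_lit 0), (nat_lit 0), (nat_lit 0), [], Pd.none, Pd.none, (nat_lit 0), (nat_lit 1), (nat_lit 0), (nat_lit 0), (nat_lit 7), (nat_lit 0), [⟨(nat_lit 0), (nat_lit 100), (nat_lit 83), (nat_lit 92), (nat_lit 824102730)⟩], [⟨(nat_lit 1), (nat_lit 87), (nat_lit 82), (nat_lit 100), (nat_lit 23374585)⟩, ⟨(nat_lit 1), (nat_lit 76), (nat_lit 82), (nat_lit 100), (nat_lit 552911433)⟩], [], [],
 ⟨⟨[(nat_lit 40), (nat_lit 80), (nat_lit 100)], [(nat_lit 0), (nat_lit 0), (nat_lit 1280)], [((nat_lit 0), (nat_lit 0), (nat_lit 0)), ((nat_lit 0), (nat_lit 0), (nat_lit 0)), ((nat_lit 1000), (nat_lit 800), (nat_lit 600))], ((nat_lit 81), (nat_lit 100), (nat_lit 48))⟩, (nat_lit 0), (nat_lit 80), (nat_lit 80), (nat_lit 0), (nat_lit 0), [(nat_lit 2485136094), (nat_lit 4688000109), (nat_lit 6250000000)], [], [(nat_lit 23212732181), (nat_lit 24062731989), (nat_lit 23199149866), (nat_lit 24027164776), (nat_lit 27230108699), (nat_lit 28074612606), (nat_lit 27110927577),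 (nat_lit 27874482527)], (nat_lit 0), (nat_lit 0), (nat_lit 0), (nat_lit 0), (nat_lit 0), (nat_lit 0), [], [(nat_lit 3), (nat_lit 50), (nat_lit 232), (nat_lit 25), (nat_lit 7)]⟩,
 ⟨⟨[(nat_lit 80), (nat_lit 100), (nat_lit 120)], [(nat_lit 0), (nat_lit 265), (nat_lit 768)], [((nat_lit 0), (nat_lit 0), (nat_lit 0)), ((nat_lit 1000), (nat_lit 959), (nat_lit 206)), ((nat_lit 1000), (nat_lit 958), (nat_lit 392))], ((nat_lit 97), (nat_lit 100), (nat_lit 48))⟩, (nat_lit 4620173), (nat_lit 252), (nat_lit 252), (nat_lit 0), (nat_lit 230756), [(nat_lit 4688000000), (nat_lit 6250000000), (nat_lit 7968000000)], [], [(nat_lit 17842442716), (nat_lit 21674599416), (nat_lit 17700371813), (nat_lit 21356296890), (nat_lit 17466678065), (nat_lit 12075267342), (nat_lit 19121644787), (nat_lit 13633316509)], (nat_lit 1271251), (nat_lit 1271251), (nat_lit 490000), (nat_lit 631250), (nat_lit 0), (nat_lit 780000), [(nat_lit 1100000), (nat_lit 1442501), (nat_lit 1271251)],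 [(nat_lit 16), (nat_lit 54), (nat_lit 272), (nat_lit 60), (nat_lit 9)]⟩,
 ⟨⟨[(nat_lit 140), (nat_lit 160), (nat_lit 180)], [(nat_lit 0), (nat_lit 0), (nat_lit 799)], [((nat_lit 0), (nat_lit 0), (nat_lit 0)), ((nat_lit 0), (nat_lit 0), (nat_lit 0)), ((nat_lit 728), (nat_lit 1000), (nat_lit 454))], ((nat_lit 100), (nat_lit 67), (nat_lit 52))⟩, (nat_lit 101039), (nat_lit 300), (nat_lit 1447), (nat_lit 8533000), (nat_lit 2360894), [(nat_lit 1131830000), (nat_lit 1365280000), (nat_lit 1616670000)], [], [(nat_lit 6624953804), (nat_lit 6423326672), (nat_lit 6715042055), (nat_lit 6500103332), (nat_lit 5586365301), (nat_lit 5379169176), (nat_lit 5591390458), (nat_lit 5388161406)], (nat_lit 780000), (nat_lit 1100000), (nat_lit 1271251), (nat_lit 1271251), (nat_lit 0), (nat_lit 780000), [(nat_lit 1977501), (nat_lit 1271251), (nat_lit 1271251)], [(nat_lit 31), (nat_lit 65), (nat_lit 440), (nat_lit 175), (nat_lit 10)]⟩⟩)) (.stt (nat_lit 2) (.leaf ⟨(nat_lit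 0), (nat_lit 974), (nat_lit 0), (nat_lit 26), (nat_lit 0), (nat_lit 5843), (nat_lit 6975), (nat_lit 286), (nat_lit 0), (nat_lit 0), (nat_lit 0), [], Pd.none, Pd.none, (nat_lit 0), (nat_lit 1), (nat_lit 0), (nat_lit 0), (nat_lit 7), (nat_lit 0), [⟨(nat_lit 0), (nat_lit 100), (nat_lit 82), (nat_lit 87), (nat_lit 71975343)⟩], [⟨(nat_lit 1), (nat_lit 87), (nat_lit 82), (nat_lit 100), (nat_lit 67696436)⟩], [], [⟨(nat_lit 2), (nat_lit 100), (nat_lit 91), (nat_lit 91), (nat_lit 533254012)⟩],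
 ⟨⟨[(nat_lit 40), (nat_lit 80), (nat_lit 100)], [(nat_lit 0), (nat_lit 0), (nat_lit 1280)], [((nat_lit 0), (nat_lit 0), (nat_lit 0)), ((nat_lit 0), (nat_lit 0), (nat_lit 0)), ((nat_lit 1000), (nat_lit 800), (nat_lit 600))], ((nat_lit 81), (nat_lit 100), (nat_lit 48))⟩, (nat_lit 0), (nat_lit 80), (nat_lit 80), (nat_lit 0), (nat_lit 0), [(nat_lit 2363984404), (nat_lit 4688000001), (nat_lit 6250000000)], [], [(nat_lit 23254755893), (nat_lit 24096553995), (nat_lit 23248233741), (nat_lit 24068323768), (nat_lit 27237845866), (nat_lit 27954134672), (nat_lit 27127024174), (nat_lit 27825519052)], (nat_lit 0), (nat_lit 0), (nat_lit 0), (nat_lit 0), (nat_lit 0), (nat_lit 0), [], [(nat_lit 3), (nat_lit 50), (nat_lit 232), (nat_lit 25), (nat_lit 7)]⟩,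
 ⟨⟨[(nat_lit 80), (nat_lit 120), (nat_lit 140)], [(nat_lit 0), (nat_lit 0), (nat_lit 1164)], [((nat_lit 0), (nat_lit 0), (nat_lit 0)), ((nat_lit 0), (nat_lit 0), (nat_lit 0)), ((nat_lit 941), (nat_lit 1000), (nat_lit 576))], ((nat_lit 100), (nat_lit 98), (nat_lit 48))⟩, (nat_lit 0), (nat_lit 78), (nat_lit 78), (nat_lit 0), (nat_lit 0), [(nat_lit 4688000000), (nat_lit 7968000000), (nat_lit 9842000000)], [], [(nat_lit 7504619500), (nat_lit 11952529725), (nat_lit 7868513525), (nat_lit 12185987375), (nat_lit 20097280300), (nat_lit 23285744000), (nat_lit 20036045700), (nat_lit 23138689213)], (nat_lit 0), (nat_lit 0), (nat_lit 0), (nat_lit 0), (nat_lit 0), (nat_lit 0), [], [(nat_lit 17), (nat_lit 58), (nat_lit 401), (nat_lit 175), (nat_lit 11)]⟩,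
 ⟨⟨[(nat_lit 140), (nat_lit 160), (nat_lit 180)], [(nat_lit 0), (nat_lit 0), (nat_lit 799)], [((nat_lit 0), (nat_lit 0), (nat_lit 0)), ((nat_lit 0), (nat_lit 0), (nat_lit 0)), ((nat_lit 728), (nat_lit 1000), (nat_lit 454))], ((nat_lit 100), (nat_lit 67), (nat_lit 52))⟩, (nat_lit 22844), (nat_lit 300), (nat_lit 2100), (nat_lit 1929200), (nat_lit 3847072), [(nat_lit 255892000), (nat_lit 308672000), (nat_lit 365508000)], [], [(nat_lit 1418149265), (nat_lit 1380261500), (nat_lit 1390379575), (nat_lit 1347264451), (nat_lit 1261931476), (nat_lit 1218694620), (nat_lit 1245239944), (nat_lit 1201374902)], (nat_lit 780000), (nat_lit 1100000), (nat_lit 1271251), (nat_lit 1271251), (nat_lit 780000), (nat_lit 2417500), [(nat_lit 1977501), (nat_lit 1271251), (nat_lit 1271251)], [(nat_lit 31), (nat_lit 65), (nat_lit 628), (nat_lit 225), (nat_lit 14)]⟩⟩) (.leaf ⟨(nat_lit 905), (nat_lit 53), (nat_lit 0), (nat_lit 42), (nat_lit 0), (nat_lit 3849), (nat_lit 819),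 (nat_lit 501), (nat_lit 0), (nat_lit 0), (nat_lit 418800), [((nat_lit 330), [((nat_lit 18), (nat_lit 0), (nat_lit 44)), ((nat_lit 18), (nat_lit 1), (nat_lit 746)), ((nat_lit 37), (nat_lit 2), (nat_lit 14)), ((nat_lit 18), (nat_lit 2), (nat_lit 101))])], ⟨(nat_lit 6), false, false, false, (nat_lit 152), (nat_lit 4183), (nat_lit 4473), [(nat_lit 1339187), (nat_lit 1344555), (nat_lit 1382312), (nat_lit 1387880), (nat_lit 1373177), (nat_lit 1377684), (nat_lit 1416301), (nat_lit 1421009)]⟩, ⟨(nat_lit 7), false, false, true, (nat_lit 248), (nat_lit 4183), (nat_lit 4473), [(nat_lit 1549689), (nat_lit 1545843), (nat_lit 1592822), (nat_lit 1589176), (nat_lit 1651656), (nat_lit 1645226), (nat_lit 1694789), (nat_lit 1688560)]⟩, (nat_lit 4804762), (nat_lit 41857642), (nat_lit 7927878), (nat_lit 17214480), (nat_lit 7), (nat_lit 0), [⟨(nat_lit 0), (nat_lit 100), (nat_lit 82), (nat_lit 87), (nat_lit 135612882)⟩], [⟨(nat_lit 1), (nat_lit 87), (nat_lit 82), (nat_lit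 100), (nat_lit 274343112)⟩], [], [],
 ⟨⟨[(nat_lit 40), (nat_lit 80), (nat_lit 100)], [(nat_lit 0), (nat_lit 0), (nat_lit 1280)], [((nat_lit 0), (nat_lit 0), (nat_lit 0)), ((nat_lit 0), (nat_lit 0), (nat_lit 0)), ((nat_lit 1000), (nat_lit 800), (nat_lit 600))], ((nat_lit 81), (nat_lit 100), (nat_lit 48))⟩, (nat_lit 0), (nat_lit 80), (nat_lit 80), (nat_lit 0), (nat_lit 0), [(nat_lit 1658943365), (nat_lit 2040369605), (nat_lit 2164540195)], [(nat_lit 0), (nat_lit 0), (nat_lit 0)], [(nat_lit 21508606174), (nat_lit 22158831965), (nat_lit 21667812483), (nat_lit 22284706873), (nat_lit 24752616800), (nat_lit 25420979668), (nat_lit 24817255144), (nat_lit 25437374309)], (nat_lit 0), (nat_lit 0), (nat_lit 0), (nat_lit 0), (nat_lit 0), (nat_lit 0), [], [(nat_lit 3), (nat_lit 50), (nat_lit 232), (nat_lit 25), (nat_lit 7)]⟩,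
 ⟨⟨[(nat_lit 80), (nat_lit 120), (nat_lit 140)], [(nat_lit 0), (nat_lit 0), (nat_lit 1164)], [((nat_lit 0), (nat_lit 0), (nat_lit 0)), ((nat_lit 0), (nat_lit 0), (nat_lit 0)), ((nat_lit 941), (nat_lit 1000), (nat_lit 576))], ((nat_lit 100), (nat_lit 98), (nat_lit 48))⟩, (nat_lit 0), (nat_lit 206), (nat_lit 206), (nat_lit 0), (nat_lit 235342), [(nat_lit 445360000), (nat_lit 756960000), (nat_lit 934990000)], [], [(nat_lit 3179241020), (nat_lit 2332338509), (nat_lit 2755789765), (nat_lit 2230073486), (nat_lit 3673987880), (nat_lit 2992357580), (nat_lit 3817105870), (nat_lit 3075279012)], (nat_lit 1271251), (nat_lit 1271251), (nat_lit 490000), (nat_lit 631250), (nat_lit 780000), (nat_lit 2417500), [(nat_lit 1100000), (nat_lit 1785001), (nat_lit 1271251)], [(nat_lit 17), (nat_lit 58), (nat_lit 401), (nat_lit 175), (nat_lit 11)]⟩,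
 ⟨⟨[(nat_lit 140), (nat_lit 160), (nat_lit 180)], [(nat_lit 0), (nat_lit 0), (nat_lit 799)], [((nat_lit 0), (nat_lit 0), (nat_lit 0)), ((nat_lit 0), (nat_lit 0), (nat_lit 0)), ((nat_lit 728), (nat_lit 1000), (nat_lit 454))], ((nat_lit 100), (nat_lit 67), (nat_lit 52))⟩, (nat_lit 36901), (nat_lit 300), (nat_lit 1365), (nat_lit 3116401), (nat_lit 2360891), [(nat_lit 413364000), (nat_lit 498624000), (nat_lit 590436000)], [], [(nat_lit 2090522385), (nat_lit 2017369665), (nat_lit 2078166489), (nat_lit 2002367745), (nat_lit 1882857354), (nat_lit 1809126504), (nat_lit 1881167169), (nat_lit 1804291431)], (nat_lit 780000), (nat_lit 1100000), (nat_lit 1271251), (nat_lit 1271251), (nat_lit 780000), (nat_lit 2417500), [(nat_lit 1977501), (nat_lit 1271251), (nat_lit 1271251)], [(nat_lit 31), (nat_lit 65), (nat_lit 456), (nat_lit 225), (nat_lit 10)]⟩⟩))) (.spl (nat_lit 5) (nat_lit 120) (.leaf ⟨(nat_lit 0), (nat_lit 927), (nat_lit 0), (nat_lit 73), (nat_lit 23882),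 (nat_lit 5892), (nat_lit 7604), (nat_lit 964), (nat_lit 0), (nat_lit 0), (nat_lit 0), [], Pd.none, Pd.none, (nat_lit 0), (nat_lit 1), (nat_lit 0), (nat_lit 0), (nat_lit 7), (nat_lit 0), [⟨(nat_lit 0), (nat_lit 100), (nat_lit 82), (nat_lit 87), (nat_lit 827781743)⟩], [⟨(nat_lit 1), (nat_lit 87), (nat_lit 82), (nat_lit 100), (nat_lit 606296180)⟩], [], [],
 ⟨⟨[(nat_lit 40), (nat_lit 80), (nat_lit 120)], [(nat_lit 0), (nat_lit 0), (nat_lit 2151)], [((nat_lit 0), (nat_lit 0), (nat_lit 0)), ((nat_lit 0), (nat_lit 0), (nat_lit 0)), ((nat_lit 1000), (nat_lit 815), (nat_lit 753))], ((nat_lit 80), (nat_lit 100), (nat_lit 63))⟩, (nat_lit 0), (nat_lit 80), (nat_lit 80), (nat_lit 0), (nat_lit 0), [(nat_lit 2486985341), (nat_lit 4688000009), (nat_lit 7968000000)], [], [(nat_lit 23233080457), (nat_lit 24079108912), (nat_lit 23222916747), (nat_lit 24047094345), (nat_lit 27233855069), (nat_lit 28016179329), (nat_lit 27118721671), (nat_lit 27820817147)], (nat_lit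 0), (nat_lit 0), (nat_lit 0), (nat_lit 0), (nat_lit 0), (nat_lit 0), [], [(nat_lit 4), (nat_lit 51), (nat_lit 232), (nat_lit 25), (nat_lit 6)]⟩,
 ⟨⟨[(nat_lit 80), (nat_lit 120), (nat_lit 160)], [(nat_lit 0), (nat_lit 0), (nat_lit 2132)], [((nat_lit 0), (nat_lit 0), (nat_lit 0)), ((nat_lit 0), (nat_lit 0), (nat_lit 0)), ((nat_lit 858), (nat_lit 1000), (nat_lit 713))], ((nat_lit 100), (nat_lit 91), (nat_lit 64))⟩, (nat_lit 5499764), (nat_lit 344), (nat_lit 344), (nat_lit 0), (nat_lit 97767), [(nat_lit 4688000000), (nat_lit 7968000000), (nat_lit 11872000000)], [], [(nat_lit 20542374784), (nat_lit 23973448704), (nat_lit 20434240184), (nat_lit 23991158266), (nat_lit 18687313000), (nat_lit 20034195776), (nat_lit 19731117870), (nat_lit 20095316784)], (nat_lit 1271251), (nat_lit 1271251), (nat_lit 490000), (nat_lit 631250), (nat_lit 0), (nat_lit 780000), [(nat_lit 1100000), (nat_lit 1785001), (nat_lit 1271251)], [(nat_lit 18), (nat_lit 59), (nat_lit 345),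 (nat_lit 125), (nat_lit 9)]⟩,
 ⟨⟨[(nat_lit 140), (nat_lit 180), (nat_lit 200)], [(nat_lit 0), (nat_lit 0), (nat_lit 2835)], [((nat_lit 0), (nat_lit 0), (nat_lit 0)), ((nat_lit 0), (nat_lit 0), (nat_lit 0)), ((nat_lit 363), (nat_lit 1000), (nat_lit 798))], ((nat_lit 0), (nat_lit 0), (nat_lit 0))⟩, (nat_lit 20085), (nat_lit 300), (nat_lit 862), (nat_lit 5701300), (nat_lit 913935), [(nat_lit 718466000), (nat_lit 1026234000), (nat_lit 1197200000)], [], [(nat_lit 4904684208), (nat_lit 4738876124), (nat_lit 4894645844), (nat_lit 4723350915), (nat_lit 4098943596), (nat_lit 3942612767), (nat_lit 4083379997), (nat_lit 3921437475)], (nat_lit 780000), (nat_lit 1100000), (nat_lit 1271251), (nat_lit 1271251), (nat_lit 0), (nat_lit 780000), [(nat_lit 1977501), (nat_lit 1271251), (nat_lit 1271251)], [(nat_lit 32), (nat_lit 67), (nat_lit 401), (nat_lit 175), (nat_lit 9)]⟩⟩) (.spl (nat_lit 0) (nat_lit 325) (.leaf ⟨(nat_lit 0), (nat_lit 637), (nat_lit 0), (nat_lit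 363), (nat_lit 11091), (nat_lit 5939), (nat_lit 9896), (nat_lit 4561), (nat_lit 0), (nat_lit 0), (nat_lit 0), [], Pd.none, Pd.none, (nat_lit 0), (nat_lit 1), (nat_lit 0), (nat_lit 0), (nat_lit 7), (nat_lit 0), [⟨(nat_lit 0), (nat_lit 100), (nat_lit 83), (nat_lit 86), (nat_lit 842924550)⟩], [⟨(nat_lit 1), (nat_lit 86), (nat_lit 83), (nat_lit 100), (nat_lit 326354251)⟩], [], [],
 ⟨⟨[(nat_lit 40), (nat_lit 80), (nat_lit 120)], [(nat_lit 0), (nat_lit 0), (nat_lit 2151)], [((nat_lit 0), (nat_lit 0), (nat_lit 0)), ((nat_lit 0), (nat_lit 0), (nat_lit 0)), ((nat_lit 1000), (nat_lit 815), (nat_lit 753))], ((nat_lit 80), (nat_lit 100), (nat_lit 63))⟩, (nat_lit 0), (nat_lit 78), (nat_lit 78), (nat_lit 0), (nat_lit 0), [(nat_lit 2489182057), (nat_lit 4688000002), (nat_lit 7968000000)], [], [(nat_lit 23212289718), (nat_lit 23637332789), (nat_lit 23198633086), (nat_lit 23612682250), (nat_lit 27230861316), (nat_lit 27653372105), (nat_lit 27110758031), (nat_lit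 27463546681)], (nat_lit 0), (nat_lit 0), (nat_lit 0), (nat_lit 0), (nat_lit 0), (nat_lit 0), [], [(nat_lit 4), (nat_lit 51), (nat_lit 232), (nat_lit 25), (nat_lit 6)]⟩,
 ⟨⟨[(nat_lit 80), (nat_lit 120), (nat_lit 160)], [(nat_lit 0), (nat_lit 0), (nat_lit 2132)], [((nat_lit 0), (nat_lit 0), (nat_lit 0)), ((nat_lit 0), (nat_lit 0), (nat_lit 0)), ((nat_lit 858), (nat_lit 1000), (nat_lit 713))], ((nat_lit 100), (nat_lit 91), (nat_lit 64))⟩, (nat_lit 2054462), (nat_lit 176), (nat_lit 176), (nat_lit 0), (nat_lit 76287), [(nat_lit 4688000000), (nat_lit 7968000000), (nat_lit 11872000000)], [], [(nat_lit 34070504480), (nat_lit 24853541952), (nat_lit 28953931068), (nat_lit 24552734484), (nat_lit 38172884800), (nat_lit 31410511384), (nat_lit 39818626960), (nat_lit 30855535876)], (nat_lit 1271251), (nat_lit 1271251), (nat_lit 490000), (nat_lit 631250), (nat_lit 780000), (nat_lit 2417500), [(nat_lit 1100000), (nat_lit 1785001), (nat_lit 1271251)], [(nat_lit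 18), (nat_lit 59), (nat_lit 401), (nat_lit 175), (nat_lit 10)]⟩,
 ⟨⟨[(nat_lit 140), (nat_lit 180), (nat_lit 200)], [(nat_lit 0), (nat_lit 0), (nat_lit 2835)], [((nat_lit 0), (nat_lit 0), (nat_lit 0)), ((nat_lit 0), (nat_lit 0), (nat_lit 0)), ((nat_lit 363), (nat_lit 1000), (nat_lit 798))], ((nat_lit 0), (nat_lit 0), (nat_lit 0))⟩, (nat_lit 99873), (nat_lit 300), (nat_lit 866), (nat_lit 28350301), (nat_lit 1135736), [(nat_lit 3572646000), (nat_lit 5103054000), (nat_lit 5953200000)], [], [(nat_lit 20901930568), (nat_lit 20172185787), (nat_lit 20846840308), (nat_lit 20090248041), (nat_lit 18714315862), (nat_lit 17955540770), (nat_lit 18487925895), (nat_lit 17741701694)], (nat_lit 780000), (nat_lit 1100000), (nat_lit 1271251), (nat_lit 1271251), (nat_lit 780000), (nat_lit 2417500), [(nat_lit 1977501), (nat_lit 1271251), (nat_lit 1271251)], [(nat_lit 32), (nat_lit 67), (nat_lit 456), (nat_lit 225), (nat_lit 9)]⟩⟩) (.trX (nat_lit 4) (nat_lit 0) (nat_lit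 2) (nat_lit 80) (nat_lit 78) (nat_lit 100) (nat_lit 330) (.leaf ⟨(nat_lit 908), (nat_lit 58), (nat_lit 0), (nat_lit 34), (nat_lit 4836), (nat_lit 4177), (nat_lit 1255), (nat_lit 404), (nat_lit 0), (nat_lit 0), (nat_lit 227000), [((nat_lit 330), [((nat_lit 19), (nat_lit 0), (nat_lit 908))])], ⟨(nat_lit 6), false, false, false, (nat_lit 153), (nat_lit 4183), (nat_lit 4331), [(nat_lit 1341871), (nat_lit 1344563), (nat_lit 1385096), (nat_lit 1387895), (nat_lit 1375430), (nat_lit 1377691), (nat_lit 1418655), (nat_lit 1421023)]⟩, ⟨(nat_lit 7), false, false, true, (nat_lit 244), (nat_lit 4183), (nat_lit 4331), [(nat_lit 1547779), (nat_lit 1545843), (nat_lit 1591006), (nat_lit 1589176), (nat_lit 1631676), (nat_lit 1628662), (nat_lit 1674903), (nat_lit 1671996)]⟩, (nat_lit 4789152), (nat_lit 42145425), (nat_lit 8001691), (nat_lit 16852884), (nat_lit 7), (nat_lit 0), [⟨(nat_lit 0), (nat_lit 100), (nat_lit 81), (nat_lit 88), (nat_lit 257798949)⟩], [⟨(nat_lit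 1), (nat_lit 88), (nat_lit 81), (nat_lit 100), (nat_lit 275546039)⟩], [], [],
 ⟨⟨[(nat_lit 40), (nat_lit 80), (nat_lit 120)], [(nat_lit 0), (nat_lit 192), (nat_lit 2304)], [((nat_lit 0), (nat_lit 0), (nat_lit 0)), ((nat_lit 1000), (nat_lit 955), (nat_lit 75)), ((nat_lit 1000), (nat_lit 794), (nat_lit 771))], ((nat_lit 78), (nat_lit 100), (nat_lit 63))⟩, (nat_lit 0), (nat_lit 75), (nat_lit 75), (nat_lit 0), (nat_lit 0), [(nat_lit 1657229107), (nat_lit 2402019207), (nat_lit 3373783979)], [(nat_lit 0), (nat_lit 0), (nat_lit 0)], [(nat_lit 22054723232), (nat_lit 22403706269), (nat_lit 22163587308), (nat_lit 22504143617), (nat_lit 24762846462), (nat_lit 25121109087), (nat_lit 24806105609), (nat_lit 25120145125)], (nat_lit 0), (nat_lit 0), (nat_lit 0), (nat_lit 0), (nat_lit 0), (nat_lit 0), [], [(nat_lit 4), (nat_lit 51), (nat_lit 232), (nat_lit 25), (nat_lit 6)]⟩,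
 ⟨⟨[(nat_lit 80), (nat_lit 120), (nat_lit 160)], [(nat_lit 0), (nat_lit 0), (nat_lit 2132)], [((nat_lit 0), (nat_lit 0), (nat_lit 0)), ((nat_lit 0), (nat_lit 0), (nat_lit 0)), ((nat_lit 858), (nat_lit 1000), (nat_lit 713))], ((nat_lit 100), (nat_lit 91), (nat_lit 64))⟩, (nat_lit 294565), (nat_lit 184), (nat_lit 184), (nat_lit 0), (nat_lit 97767), [(nat_lit 431296000), (nat_lit 733056000), (nat_lit 1092224000)], [], [(nat_lit 3297942580), (nat_lit 2000185985), (nat_lit 2649064283), (nat_lit 1907049884), (nat_lit 3376593548), (nat_lit 2613025190), (nat_lit 3565632098), (nat_lit 2529570277)], (nat_lit 1271251), (nat_lit 1271251), (nat_lit 490000), (nat_lit 631250), (nat_lit 780000), (nat_lit 2417500), [(nat_lit 1100000), (nat_lit 1785001), (nat_lit 1271251)], [(nat_lit 18), (nat_lit 59), (nat_lit 401), (nat_lit 175), (nat_lit 10)]⟩,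
 ⟨⟨[(nat_lit 140), (nat_lit 180), (nat_lit 200)], [(nat_lit 0), (nat_lit 0), (nat_lit 2835)], [((nat_lit 0), (nat_lit 0), (nat_lit 0)), ((nat_lit 0), (nat_lit 0), (nat_lit 0)), ((nat_lit 363), (nat_lit 1000), (nat_lit 798))], ((nat_lit 0), (nat_lit 0), (nat_lit 0))⟩, (nat_lit 9355), (nat_lit 300), (nat_lit 1017), (nat_lit 2655400), (nat_lit 1459510), [(nat_lit 334628000), (nat_lit 477972000), (nat_lit 557600000)], [], [(nat_lit 2048747766), (nat_lit 1982458026), (nat_lit 2021201338), (nat_lit 1953892724), (nat_lit 1821416252), (nat_lit 1755166484), (nat_lit 1801939075), (nat_lit 1734329726)], (nat_lit 780000), (nat_lit 1100000), (nat_lit 1271251), (nat_lit 1271251), (nat_lit 780000), (nat_lit 2417500), [(nat_lit 1977501), (nat_lit 1271251), (nat_lit 1271251)], [(nat_lit 32), (nat_lit 67), (nat_lit 456), (nat_lit 225), (nat_lit 9)]⟩⟩)))))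
noncomputable def c11_35 : Tr Lf :=
 (.trX (nat_lit 4) (nat_lit 0) (nat_lit 2) (nat_lit 78) (nat_lit 81) (nat_lit 100) (nat_lit 330) (.spl (nat_lit 4) (nat_lit 300) (.leaf ⟨(nat_lit 1000), (nat_lit 0), (nat_lit 0), (nat_lit 0), (nat_lit 2957), (nat_lit 4184), (nat_lit 0), (nat_lit 0), (nat_lit 0), (nat_lit 0), (nat_lit 250000), [((nat_lit 340), [((nat_lit 19), (nat_lit 0), (nat_lit 1000))])], ⟨(nat_lit 6), false, false, false, (nat_lit 154), (nat_lit 3872), (nat_lit 4184), [(nat_lit 1344547), (nat_lit 1350002), (nat_lit 1387871), (nat_lit 1393580), (nat_lit 1377677), (nat_lit 1382265), (nat_lit 1421001), (nat_lit 1425842)]⟩, ⟨(nat_lit 7), false, false, true, (nat_lit 233), (nat_lit 3872), (nat_lit 4184), [(nat_lit 1545843), (nat_lit 1541869), (nat_lit 1589176), (nat_lit 1585455), (nat_lit 1578971), (nat_lit 1574129), (nat_lit 1622304), (nat_lit 1617716)]⟩, (nat_lit 4738550), (nat_lit 42987424), (nat_lit 8221015), (nat_lit 15791561), (nat_lit 0),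 (nat_lit 0), [⟨(nat_lit 0), (nat_lit 100), (nat_lit 77), (nat_lit 91), (nat_lit 439457874)⟩], [], [], [],
 ⟨⟨[(nat_lit 40), (nat_lit 80), (nat_lit 100)], [(nat_lit 0), (nat_lit 395), (nat_lit 1536)], [((nat_lit 0), (nat_lit 0), (nat_lit 0)), ((nat_lit 1000), (nat_lit 908), (nat_lit 154)), ((nat_lit 1000), (nat_lit 760), (nat_lit 642))], ((nat_lit 76), (nat_lit 100), (nat_lit 63))⟩, (nat_lit 0), (nat_lit 69), (nat_lit 69), (nat_lit 0), (nat_lit 0), [(nat_lit 1716948396), (nat_lit 2170400116), (nat_lit 2551199884)], [(nat_lit 0), (nat_lit 0), (nat_lit 0)], [(nat_lit 22169595022), (nat_lit 22868165432), (nat_lit 22269491750), (nat_lit 22951188308), (nat_lit 23226746451), (nat_lit 24004048238), (nat_lit 23270300638), (nat_lit 24028498902)], (nat_lit 0), (nat_lit 0), (nat_lit 0), (nat_lit 0), (nat_lit 0), (nat_lit 0), [], [(nat_lit 3), (nat_lit 50), (nat_lit 232), (nat_lit 25), (nat_lit 7)]⟩,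
 Rw.none,
 Rw.none⟩) (.trX (nat_lit 5) (nat_lit 4) (nat_lit 3) (nat_lit 100) (nat_lit 100) (nat_lit 100) (nat_lit 300) (.spl (nat_lit 2) (nat_lit 140) (.trX (nat_lit 4) (nat_lit 0) (nat_lit 2) (nat_lit 80) (nat_lit 89) (nat_lit 100) (nat_lit 310) (.leaf ⟨(nat_lit 1000), (nat_lit 0), (nat_lit 0), (nat_lit 0), (nat_lit 2938), (nat_lit 4121), (nat_lit 0), (nat_lit 0), (nat_lit 0), (nat_lit 0), (nat_lit 250000), [((nat_lit 340), [((nat_lit 19), (nat_lit 0), (nat_lit 1000))])], ⟨(nat_lit 6), false, false, false, (nat_lit 154), (nat_lit 3872), (nat_lit 4184), [(nat_lit 1344547), (nat_lit 1350002), (nat_lit 1387871), (nat_lit 1393580), (nat_lit 1377677), (nat_lit 1382265), (nat_lit 1421001), (nat_lit 1425842)]⟩, ⟨(nat_lit 7), false, false, true, (nat_lit 238), (nat_lit 3872), (nat_lit 4184), [(nat_lit 1578971), (nat_lit 1574129), (nat_lit 1600637), (nat_lit 1595923), (nat_lit 1595535), (nat_lit 1590260), (nat_lit 1617201), (nat_lit 1612053)]⟩, (nat_lit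 4771156), (nat_lit 42534855), (nat_lit 8170780), (nat_lit 16294365), (nat_lit 0), (nat_lit 0), [⟨(nat_lit 0), (nat_lit 100), (nat_lit 77), (nat_lit 91), (nat_lit 448017991)⟩], [⟨(nat_lit 1), (nat_lit 89), (nat_lit 80), (nat_lit 100), (nat_lit 280562798)⟩], [], [],
 ⟨⟨[(nat_lit 40), (nat_lit 80), (nat_lit 100)], [(nat_lit 0), (nat_lit 395), (nat_lit 1536)], [((nat_lit 0), (nat_lit 0), (nat_lit 0)), ((nat_lit 1000), (nat_lit 908), (nat_lit 154)), ((nat_lit 1000), (nat_lit 760), (nat_lit 642))], ((nat_lit 76), (nat_lit 100), (nat_lit 63))⟩, (nat_lit 0), (nat_lit 72), (nat_lit 72), (nat_lit 0), (nat_lit 0), [(nat_lit 1637823483), (nat_lit 2170400003), (nat_lit 2551199997)], [(nat_lit 0), (nat_lit 0), (nat_lit 0)], [(nat_lit 23211471658), (nat_lit 23936719304), (nat_lit 23291556416), (nat_lit 23967252279), (nat_lit 23754471982), (nat_lit 24505676314), (nat_lit 23789505411), (nat_lit 24522974385)], (nat_lit 0), (nat_lit 0), (nat_lit 0), (nat_lit 0),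 (nat_lit 0), (nat_lit 0), [], [(nat_lit 3), (nat_lit 50), (nat_lit 232), (nat_lit 25), (nat_lit 7)]⟩,
 Rw.none,
 Rw.none⟩)) (.stt (nat_lit 2) (.leaf ⟨(nat_lit 0), (nat_lit 914), (nat_lit 0), (nat_lit 86), (nat_lit 8942), (nat_lit 5951), (nat_lit 13095), (nat_lit 927), (nat_lit 0), (nat_lit 0), (nat_lit 0), [], Pd.none, Pd.none, (nat_lit 0), (nat_lit 1), (nat_lit 0), (nat_lit 0), (nat_lit 7), (nat_lit 0), [⟨(nat_lit 0), (nat_lit 100), (nat_lit 77), (nat_lit 91), (nat_lit 969518222)⟩], [⟨(nat_lit 1), (nat_lit 81), (nat_lit 78), (nat_lit 100), (nat_lit 649041843)⟩], [], [],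
 ⟨⟨[(nat_lit 40), (nat_lit 80), (nat_lit 100)], [(nat_lit 0), (nat_lit 395), (nat_lit 1536)], [((nat_lit 0), (nat_lit 0), (nat_lit 0)), ((nat_lit 1000), (nat_lit 908), (nat_lit 154)), ((nat_lit 1000), (nat_lit 760), (nat_lit 642))], ((nat_lit 76), (nat_lit 100), (nat_lit 63))⟩, (nat_lit 0), (nat_lit 80), (nat_lit 80), (nat_lit 0), (nat_lit 0), [(nat_lit 2365966229), (nat_lit 4688000002), (nat_lit 6250000000)], [], [(nat_lit 25260499471), (nat_lit 26069137773), (nat_lit 25191723393), (nat_lit 25979678250), (nat_lit 27218648213), (nat_lit 28091126358), (nat_lit 27088153825), (nat_lit 27889648830)], (nat_lit 0), (nat_lit 0), (nat_lit 0), (nat_lit 0), (nat_lit 0), (nat_lit 0), [], [(nat_lit 3), (nat_lit 50), (nat_lit 232), (nat_lit 25), (nat_lit 7)]⟩,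
 ⟨⟨[(nat_lit 80), (nat_lit 120), (nat_lit 160)], [(nat_lit 0), (nat_lit 0), (nat_lit 2132)], [((nat_lit 0), (nat_lit 0), (nat_lit 0)), ((nat_lit 0), (nat_lit 0), (nat_lit 0)), ((nat_lit 858), (nat_lit 1000), (nat_lit 713))], ((nat_lit 100), (nat_lit 91), (nat_lit 64))⟩, (nat_lit 5133133), (nat_lit 238), (nat_lit 238), (nat_lit 0), (nat_lit 0), [(nat_lit 4688000000), (nat_lit 7968000000), (nat_lit 11872000000)], [], [(nat_lit 23930653704), (nat_lit 28735360444), (nat_lit 23407138784), (nat_lit 28066462437), (nat_lit 20362315109), (nat_lit 24986179555), (nat_lit 19873599594), (nat_lit 24403873294)], (nat_lit 0), (nat_lit 0), (nat_lit 0), (nat_lit 0), (nat_lit 0), (nat_lit 0), [], [(nat_lit 18), (nat_lit 59), (nat_lit 401), (nat_lit 175), (nat_lit 11)]⟩,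
 ⟨⟨[(nat_lit 140), (nat_lit 180), (nat_lit 200)], [(nat_lit 0), (nat_lit 608), (nat_lit 3317)], [((nat_lit 0), (nat_lit 0), (nat_lit 0)), ((nat_lit 913), (nat_lit 1000), (nat_lit 217)), ((nat_lit 385), (nat_lit 1000), (nat_lit 814))], ((nat_lit 0), (nat_lit 0), (nat_lit 0))⟩, (nat_lit 198592), (nat_lit 300), (nat_lit 1814), (nat_lit 6045801), (nat_lit 3049846), [(nat_lit 846412000), (nat_lit 1208988000), (nat_lit 1410400000)], [], [(nat_lit 5611828695), (nat_lit 5533736747), (nat_lit 5581542281), (nat_lit 5502654596), (nat_lit 4434149961), (nat_lit 4358857842), (nat_lit 4393206911), (nat_lit 4317331391)], (nat_lit 936250), (nat_lit 1100000), (nat_lit 1271251), (nat_lit 1271251), (nat_lit 0), (nat_lit 2118750), [(nat_lit 1977501), (nat_lit 1271251), (nat_lit 1271251)], [(nat_lit 32), (nat_lit 67), (nat_lit 553), (nat_lit 200), (nat_lit 11)]⟩⟩) (.spl (nat_lit 5) (nat_lit 160) (.spl (nat_lit 6) (nat_lit 24) (.spl (nat_lit 1) (nat_lit 260) (.leaf ⟨(nat_lit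 916), (nat_lit 34), (nat_lit 0), (nat_lit 50), (nat_lit 0), (nat_lit 3648), (nat_lit 1945), (nat_lit 578), (nat_lit 0), (nat_lit 0), (nat_lit 229000), [((nat_lit 340), [((nat_lit 18), (nat_lit 0), (nat_lit 916))])], ⟨(nat_lit 6), false, false, false, (nat_lit 150), (nat_lit 3872), (nat_lit 4184), [(nat_lit 1344547), (nat_lit 1350002), (nat_lit 1366209), (nat_lit 1371791), (nat_lit 1377677), (nat_lit 1382265), (nat_lit 1399338), (nat_lit 1404053)]⟩, ⟨(nat_lit 7), false, false, true, (nat_lit 253), (nat_lit 3872), (nat_lit 4184), [(nat_lit 1600637), (nat_lit 1595923), (nat_lit 1622304), (nat_lit 1617716), (nat_lit 1650329), (nat_lit 1644314), (nat_lit 1671996), (nat_lit 1666107)]⟩, (nat_lit 4810780), (nat_lit 41529244), (nat_lit 7704806), (nat_lit 17765950), (nat_lit 7), (nat_lit 0), [⟨(nat_lit 0), (nat_lit 100), (nat_lit 76), (nat_lit 87), (nat_lit 153557986)⟩], [⟨(nat_lit 1), (nat_lit 81), (nat_lit 78), (nat_lit 100), (nat_lit 262960435)⟩], [],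 [],
 ⟨⟨[(nat_lit 40), (nat_lit 60), (nat_lit 80)], [(nat_lit 0), (nat_lit 197), (nat_lit 800)], [((nat_lit 0), (nat_lit 0), (nat_lit 0)), ((nat_lit 1000), (nat_lit 908), (nat_lit 154)), ((nat_lit 1000), (nat_lit 781), (nat_lit 471))], ((nat_lit 78), (nat_lit 100), (nat_lit 49))⟩, (nat_lit 748053), (nat_lit 79), (nat_lit 79), (nat_lit 0), (nat_lit 0), [(nat_lit 1555076837), (nat_lit 1996219313), (nat_lit 2379680000)], [(nat_lit 0), (nat_lit 0), (nat_lit 0)], [(nat_lit 22943421082), (nat_lit 23566705596), (nat_lit 23062976977), (nat_lit 23670858564), (nat_lit 24495630959), (nat_lit 25165651654), (nat_lit 24578144598), (nat_lit 25202879932)], (nat_lit 0), (nat_lit 0), (nat_lit 0), (nat_lit 0), (nat_lit 0), (nat_lit 0), [], [(nat_lit 2), (nat_lit 44), (nat_lit 232), (nat_lit 25), (nat_lit 9)]⟩,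
 ⟨⟨[(nat_lit 80), (nat_lit 120), (nat_lit 140)], [(nat_lit 0), (nat_lit 0), (nat_lit 1164)], [((nat_lit 0), (nat_lit 0), (nat_lit 0)), ((nat_lit 0), (nat_lit 0), (nat_lit 0)), ((nat_lit 941), (nat_lit 1000), (nat_lit 576))], ((nat_lit 100), (nat_lit 98), (nat_lit 48))⟩, (nat_lit 331580), (nat_lit 314), (nat_lit 314), (nat_lit 0), (nat_lit 217936), [(nat_lit 393792000), (nat_lit 669312000), (nat_lit 826728000)], [], [(nat_lit 2202523488), (nat_lit 2214615100), (nat_lit 2413318753), (nat_lit 2135629282), (nat_lit 3746304428), (nat_lit 2859792878), (nat_lit 4006177878), (nat_lit 3125315095)], (nat_lit 1271251), (nat_lit 1271251), (nat_lit 490000), (nat_lit 631250), (nat_lit 0), (nat_lit 1100000), [(nat_lit 1100000), (nat_lit 1785001), (nat_lit 1271251)], [(nat_lit 17), (nat_lit 58), (nat_lit 373), (nat_lit 150), (nat_lit 11)]⟩,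
 ⟨⟨[(nat_lit 140), (nat_lit 160), (nat_lit 180)], [(nat_lit 0), (nat_lit 304), (nat_lit 1085)], [((nat_lit 0), (nat_lit 0), (nat_lit 0)), ((nat_lit 913), (nat_lit 1000), (nat_lit 217)), ((nat_lit 759), (nat_lit 1000), (nat_lit 463))], ((nat_lit 100), (nat_lit 73), (nat_lit 50))⟩, (nat_lit 102632), (nat_lit 300), (nat_lit 1078), (nat_lit 3515000), (nat_lit 1583882), [(nat_lit 492100000), (nat_lit 593600000), (nat_lit 702900000)], [], [(nat_lit 2789597836), (nat_lit 2748249964), (nat_lit 2808375558), (nat_lit 2765646319), (nat_lit 2272262799), (nat_lit 2230154004), (nat_lit 2263784681), (nat_lit 2220936051)], (nat_lit 936250), (nat_lit 1100000), (nat_lit 1271251), (nat_lit 1271251), (nat_lit 0), (nat_lit 1100000), [(nat_lit 1977501), (nat_lit 1271251), (nat_lit 1271251)], [(nat_lit 31), (nat_lit 65), (nat_lit 401), (nat_lit 175), (nat_lit 9)]⟩⟩) (.trZ (nat_lit 0) (nat_lit 1) (nat_lit 3) (nat_lit 100) (nat_lit 80) (nat_lit 89) (nat_lit 90) (.leaf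 ⟨(nat_lit 0), (nat_lit 822), (nat_lit 0), (nat_lit 178), (nat_lit 0), (nat_lit 4137), (nat_lit 13525), (nat_lit 2057), (nat_lit 0), (nat_lit 0), (nat_lit 0), [], Pd.none, Pd.none, (nat_lit 0), (nat_lit 1), (nat_lit 0), (nat_lit 0), (nat_lit 7), (nat_lit 0), [⟨(nat_lit 0), (nat_lit 100), (nat_lit 80), (nat_lit 89), (nat_lit 1948785041)⟩], [⟨(nat_lit 1), (nat_lit 81), (nat_lit 78), (nat_lit 100), (nat_lit 456325766)⟩], [], [],
 ⟨⟨[(nat_lit 40), (nat_lit 60), (nat_lit 80)], [(nat_lit 0), (nat_lit 197), (nat_lit 800)], [((nat_lit 0), (nat_lit 0), (nat_lit 0)), ((nat_lit 1000), (nat_lit 908), (nat_lit 154)), ((nat_lit 1000), (nat_lit 781), (nat_lit 471))], ((nat_lit 78), (nat_lit 100), (nat_lit 49))⟩, (nat_lit 3053392), (nat_lit 72), (nat_lit 72), (nat_lit 0), (nat_lit 0), [(nat_lit 2032000030), (nat_lit 3282000042), (nat_lit 4688000000)], [], [(nat_lit 23417795066), (nat_lit 24064323988), (nat_lit 23467915529), (nat_lit 24113007293), (nat_lit 25075348099),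 (nat_lit 25780094521), (nat_lit 25077329148), (nat_lit 25773366251)], (nat_lit 0), (nat_lit 0), (nat_lit 0), (nat_lit 0), (nat_lit 0), (nat_lit 0), [], [(nat_lit 2), (nat_lit 44), (nat_lit 232), (nat_lit 25), (nat_lit 9)]⟩,
 ⟨⟨[(nat_lit 80), (nat_lit 100), (nat_lit 120)], [(nat_lit 0), (nat_lit 265), (nat_lit 768)], [((nat_lit 0), (nat_lit 0), (nat_lit 0)), ((nat_lit 1000), (nat_lit 959), (nat_lit 206)), ((nat_lit 1000), (nat_lit 958), (nat_lit 392))], ((nat_lit 97), (nat_lit 100), (nat_lit 48))⟩, (nat_lit 5421561), (nat_lit 252), (nat_lit 252), (nat_lit 0), (nat_lit 237750), [(nat_lit 4688000000), (nat_lit 6250000000), (nat_lit 7968000000)], [], [(nat_lit 18694809338), (nat_lit 23460158275), (nat_lit 18534516075), (nat_lit 23232142750), (nat_lit 20145897870), (nat_lit 13836201345), (nat_lit 21159168720), (nat_lit 14870206020)], (nat_lit 1271251), (nat_lit 1271251), (nat_lit 559688), (nat_lit 631250), (nat_lit 0), (nat_lit 1100000), [(nat_lit 1100000),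 (nat_lit 1442501), (nat_lit 1271251)], [(nat_lit 16), (nat_lit 54), (nat_lit 289), (nat_lit 75), (nat_lit 10)]⟩,
 ⟨⟨[(nat_lit 140), (nat_lit 160), (nat_lit 180)], [(nat_lit 0), (nat_lit 304), (nat_lit 1085)], [((nat_lit 0), (nat_lit 0), (nat_lit 0)), ((nat_lit 913), (nat_lit 1000), (nat_lit 217)), ((nat_lit 759), (nat_lit 1000), (nat_lit 463))], ((nat_lit 100), (nat_lit 73), (nat_lit 50))⟩, (nat_lit 365369), (nat_lit 300), (nat_lit 1212), (nat_lit 12513400), (nat_lit 1896686), [(nat_lit 1751876000), (nat_lit 2113216000), (nat_lit 2502324000)], [], [(nat_lit 9932009266), (nat_lit 9784877702), (nat_lit 9998870694), (nat_lit 9846822770), (nat_lit 8092076871), (nat_lit 7942234366), (nat_lit 8061932719), (nat_lit 7909457061)], (nat_lit 936250), (nat_lit 1100000), (nat_lit 1271251), (nat_lit 1271251), (nat_lit 0), (nat_lit 1100000), [(nat_lit 1977501), (nat_lit 1271251), (nat_lit 1271251)], [(nat_lit 31), (nat_lit 65), (nat_lit 401), (nat_lit 175), (nat_lit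 9)]⟩⟩))) (.spl (nat_lit 1) (nat_lit 260) (.spl (nat_lit 6) (nat_lit 36) (.leaf ⟨(nat_lit 0), (nat_lit 460), (nat_lit 0), (nat_lit 540), (nat_lit 0), (nat_lit 6093), (nat_lit 22699), (nat_lit 7299), (nat_lit 0), (nat_lit 0), (nat_lit 0), [], Pd.none, Pd.none, (nat_lit 0), (nat_lit 1), (nat_lit 0), (nat_lit 0), (nat_lit 7), (nat_lit 0), [⟨(nat_lit 0), (nat_lit 100), (nat_lit 76), (nat_lit 87), (nat_lit 1245447316)⟩], [⟨(nat_lit 1), (nat_lit 87), (nat_lit 76), (nat_lit 100), (nat_lit 645663130)⟩], [], [],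
 ⟨⟨[(nat_lit 40), (nat_lit 80), (nat_lit 100)], [(nat_lit 0), (nat_lit 395), (nat_lit 1536)], [((nat_lit 0), (nat_lit 0), (nat_lit 0)), ((nat_lit 1000), (nat_lit 908), (nat_lit 154)), ((nat_lit 1000), (nat_lit 760), (nat_lit 642))], ((nat_lit 76), (nat_lit 100), (nat_lit 58))⟩, (nat_lit 0), (nat_lit 80), (nat_lit 80), (nat_lit 0), (nat_lit 0), [(nat_lit 2498644547), (nat_lit 4688000001), (nat_lit 6250000000)], [], [(nat_lit 25224140317), (nat_lit 26044221833), (nat_lit 25143813289), (nat_lit 25942809875), (nat_lit 27386545934), (nat_lit 28271507343), (nat_lit 27192437137), (nat_lit 28055311523)], (nat_lit 0), (nat_lit 0), (nat_lit 0), (nat_lit 0), (nat_lit 0), (nat_lit 0), [], [(nat_lit 3), (nat_lit 50), (nat_lit 232), (nat_lit 25), (nat_lit 7)]⟩,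
 ⟨⟨[(nat_lit 80), (nat_lit 120), (nat_lit 140)], [(nat_lit 0), (nat_lit 0), (nat_lit 1164)], [((nat_lit 0), (nat_lit 0), (nat_lit 0)), ((nat_lit 0), (nat_lit 0), (nat_lit 0)), ((nat_lit 941), (nat_lit 1000), (nat_lit 576))], ((nat_lit 100), (nat_lit 94), (nat_lit 58))⟩, (nat_lit 0), (nat_lit 234), (nat_lit 234), (nat_lit 0), (nat_lit 65357), [(nat_lit 4688000000), (nat_lit 7968000000), (nat_lit 9842000000)], [], [(nat_lit 26578921584), (nat_lit 30858003124), (nat_lit 29050115507), (nat_lit 29818374536), (nat_lit 44682126292), (nat_lit 34336149082), (nat_lit 47726084082), (nat_lit 37446030443)], (nat_lit 1271251), (nat_lit 1271251), (nat_lit 490000), (nat_lit 631250), (nat_lit 0), (nat_lit 1100000), [(nat_lit 1100000), (nat_lit 1785001), (nat_lit 1271251)], [(nat_lit 17), (nat_lit 58), (nat_lit 373), (nat_lit 150), (nat_lit 11)]⟩,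
 ⟨⟨[(nat_lit 140), (nat_lit 160), (nat_lit 180)], [(nat_lit 0), (nat_lit 304), (nat_lit 1085)], [((nat_lit 0), (nat_lit 0), (nat_lit 0)), ((nat_lit 913), (nat_lit 1000), (nat_lit 217)), ((nat_lit 759), (nat_lit 1000), (nat_lit 463))], ((nat_lit 100), (nat_lit 64), (nat_lit 60))⟩, (nat_lit 1093827), (nat_lit 300), (nat_lit 568), (nat_lit 37989729), (nat_lit 447879), [(nat_lit 5314680000), (nat_lit 6410880000), (nat_lit 7591320000)], [], [(nat_lit 28525146858), (nat_lit 28047249738), (nat_lit 29223276834), (nat_lit 28715226053), (nat_lit 21497490428), (nat_lit 20977329564), (nat_lit 21757332558), (nat_lit 21289526514)], (nat_lit 936250), (nat_lit 1100000), (nat_lit 1271251), (nat_lit 1271251), (nat_lit 0), (nat_lit 1100000), [(nat_lit 1977501), (nat_lit 1271251), (nat_lit 1271251)], [(nat_lit 31), (nat_lit 65), (nat_lit 401), (nat_lit 175), (nat_lit 9)]⟩⟩) (.dle (nat_lit 0))) (.trZ (nat_lit 0) (nat_lit 1) (nat_lit 3) (nat_lit 100) (nat_lit 80) (nat_lit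 89) (nat_lit 90) (.leaf ⟨(nat_lit 0), (nat_lit 897), (nat_lit 0), (nat_lit 103), (nat_lit 21493), (nat_lit 5943), (nat_lit 7956), (nat_lit 1287), (nat_lit 0), (nat_lit 0), (nat_lit 0), [], Pd.none, Pd.none, (nat_lit 0), (nat_lit 1), (nat_lit 0), (nat_lit 0), (nat_lit 7), (nat_lit 0), [⟨(nat_lit 0), (nat_lit 100), (nat_lit 80), (nat_lit 89), (nat_lit 1232938921)⟩], [⟨(nat_lit 1), (nat_lit 81), (nat_lit 78), (nat_lit 100), (nat_lit 603327395)⟩], [⟨(nat_lit 0), (nat_lit 100), (nat_lit 97), (nat_lit 11), (nat_lit 103453128)⟩], [],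
 ⟨⟨[(nat_lit 40), (nat_lit 80), (nat_lit 100)], [(nat_lit 0), (nat_lit 395), (nat_lit 1536)], [((nat_lit 0), (nat_lit 0), (nat_lit 0)), ((nat_lit 1000), (nat_lit 908), (nat_lit 154)), ((nat_lit 1000), (nat_lit 760), (nat_lit 642))], ((nat_lit 76), (nat_lit 100), (nat_lit 63))⟩, (nat_lit 0), (nat_lit 77), (nat_lit 77), (nat_lit 0), (nat_lit 0), [(nat_lit 2455736685), (nat_lit 4688000008), (nat_lit 6250000000)], [], [(nat_lit 25228485220), (nat_lit 26026148831), (nat_lit 25194422560), (nat_lit 25981755348), (nat_lit 27149018941), (nat_lit 27980639885), (nat_lit 27089532044), (nat_lit 27880315720)], (nat_lit 0), (nat_lit 0), (nat_lit 0), (nat_lit 0), (nat_lit 0), (nat_lit 0), [], [(nat_lit 3), (nat_lit 50), (nat_lit 232), (nat_lit 25), (nat_lit 7)]⟩,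
 ⟨⟨[(nat_lit 80), (nat_lit 120), (nat_lit 140)], [(nat_lit 0), (nat_lit 528), (nat_lit 1572)], [((nat_lit 0), (nat_lit 0), (nat_lit 0)), ((nat_lit 1000), (nat_lit 959), (nat_lit 206)), ((nat_lit 966), (nat_lit 1000), (nat_lit 679))], ((nat_lit 100), (nat_lit 98), (nat_lit 66))⟩, (nat_lit 5483554), (nat_lit 230), (nat_lit 230), (nat_lit 0), (nat_lit 103681), [(nat_lit 4688000000), (nat_lit 7968000000), (nat_lit 9842000000)], [], [(nat_lit 18937031152), (nat_lit 21109091034), (nat_lit 18910272535), (nat_lit 21106864724), (nat_lit 15130013409), (nat_lit 16661069346), (nat_lit 15729765167), (nat_lit 16670617164)], (nat_lit 1271251), (nat_lit 1271251), (nat_lit 559688), (nat_lit 631250), (nat_lit 0), (nat_lit 1100000), [(nat_lit 1100000), (nat_lit 1785001), (nat_lit 1271251)], [(nat_lit 17), (nat_lit 58), (nat_lit 373), (nat_lit 150), (nat_lit 11)]⟩,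
 ⟨⟨[(nat_lit 140), (nat_lit 180), (nat_lit 200)], [(nat_lit 0), (nat_lit 608), (nat_lit 3317)], [((nat_lit 0), (nat_lit 0), (nat_lit 0)), ((nat_lit 913), (nat_lit 1000), (nat_lit 217)), ((nat_lit 385), (nat_lit 1000), (nat_lit 814))], ((nat_lit 0), (nat_lit 0), (nat_lit 0))⟩, (nat_lit 237849), (nat_lit 300), (nat_lit 776), (nat_lit 7240900), (nat_lit 782140), [(nat_lit 1013726000), (nat_lit 1447974000), (nat_lit 1689200000)], [], [(nat_lit 6407801875), (nat_lit 6297576942), (nat_lit 6402479948), (nat_lit 6297882617), (nat_lit 5108857744), (nat_lit 5005709295), (nat_lit 5096269897), (nat_lit 4991288738)], (nat_lit 936250), (nat_lit 1100000), (nat_lit 1271251), (nat_lit 1271251), (nat_lit 0), (nat_lit 1100000), [(nat_lit 1977501), (nat_lit 1271251), (nat_lit 1271251)], [(nat_lit 32), (nat_lit 67), (nat_lit 401), (nat_lit 175), (nat_lit 8)]⟩⟩)))) (.leaf ⟨(nat_lit 872), (nat_lit 0), (nat_lit 0), (nat_lit 128), (nat_lit 0), (nat_lit 3936), (nat_lit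 3481), (nat_lit 1338), (nat_lit 0), (nat_lit 0), (nat_lit 489600), [((nat_lit 340), [((nat_lit 19), (nat_lit 1), (nat_lit 168)), ((nat_lit 37), (nat_lit 2), (nat_lit 704))])], ⟨(nat_lit 6), false, false, false, (nat_lit 154), (nat_lit 3872), (nat_lit 4184), [(nat_lit 1344547), (nat_lit 1350002), (nat_lit 1387871), (nat_lit 1393580), (nat_lit 1377677), (nat_lit 1382265), (nat_lit 1421001), (nat_lit 1425842)]⟩, ⟨(nat_lit 7), false, false, true, (nat_lit 253), (nat_lit 3872), (nat_lit 4184), [(nat_lit 1600637), (nat_lit 1595923), (nat_lit 1622304), (nat_lit 1617716), (nat_lit 1650329), (nat_lit 1644314), (nat_lit 1671996), (nat_lit 1666107)]⟩, (nat_lit 4852191), (nat_lit 41279556), (nat_lit 8024474), (nat_lit 17695970), (nat_lit 0), (nat_lit 0), [⟨(nat_lit 0), (nat_lit 100), (nat_lit 77), (nat_lit 91), (nat_lit 663926007)⟩], [⟨(nat_lit 1), (nat_lit 87), (nat_lit 76), (nat_lit 100), (nat_lit 261945364)⟩], [], [],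
 ⟨⟨[(nat_lit 40), (nat_lit 80), (nat_lit 100)], [(nat_lit 0), (nat_lit 395), (nat_lit 1536)], [((nat_lit 0), (nat_lit 0), (nat_lit 0)), ((nat_lit 1000), (nat_lit 908), (nat_lit 154)), ((nat_lit 1000), (nat_lit 760), (nat_lit 642))], ((nat_lit 76), (nat_lit 100), (nat_lit 63))⟩, (nat_lit 0), (nat_lit 80), (nat_lit 80), (nat_lit 0), (nat_lit 0), [(nat_lit 1772852453), (nat_lit 1972944651), (nat_lit 1983797749)], [(nat_lit 0), (nat_lit 0), (nat_lit 0)], [(nat_lit 23061385625), (nat_lit 23739007352), (nat_lit 23156758967), (nat_lit 23787790321), (nat_lit 24836155913), (nat_lit 25531494778), (nat_lit 24859486265), (nat_lit 25538871874)], (nat_lit 0), (nat_lit 0), (nat_lit 0), (nat_lit 0), (nat_lit 0), (nat_lit 0), [], [(nat_lit 3), (nat_lit 50), (nat_lit 232), (nat_lit 25), (nat_lit 7)]⟩,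
 ⟨⟨[(nat_lit 80), (nat_lit 120), (nat_lit 160)], [(nat_lit 0), (nat_lit 0), (nat_lit 2132)], [((nat_lit 0), (nat_lit 0), (nat_lit 0)), ((nat_lit 0), (nat_lit 0), (nat_lit 0)), ((nat_lit 858), (nat_lit 1000), (nat_lit 713))], ((nat_lit 100), (nat_lit 91), (nat_lit 64))⟩, (nat_lit 466723), (nat_lit 239), (nat_lit 239), (nat_lit 0), (nat_lit 251556), [(nat_lit 600064000), (nat_lit 1019904000), (nat_lit 1519616000)], [], [(nat_lit 1758084704), (nat_lit 1692105904), (nat_lit 625932683), (nat_lit 1488154207), (nat_lit 4322783763), (nat_lit 4240831101), (nat_lit 4721286517), (nat_lit 4022946257)], (nat_lit 1271251), (nat_lit 1271251), (nat_lit 490000), (nat_lit 631250), (nat_lit 1100000), (nat_lit 2298751), [(nat_lit 1100000), (nat_lit 1785001), (nat_lit 1271251)], [(nat_lit 18), (nat_lit 59), (nat_lit 401), (nat_lit 175), (nat_lit 10)]⟩,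
 ⟨⟨[(nat_lit 140), (nat_lit 180), (nat_lit 200)], [(nat_lit 0), (nat_lit 608), (nat_lit 3317)], [((nat_lit 0), (nat_lit 0), (nat_lit 0)), ((nat_lit 913), (nat_lit 1000), (nat_lit 217)), ((nat_lit 385), (nat_lit 1000), (nat_lit 814))], ((nat_lit 0), (nat_lit 0), (nat_lit 0))⟩, (nat_lit 295579), (nat_lit 300), (nat_lit 1177), (nat_lit 8998400), (nat_lit 1923264), [(nat_lit 1259776000), (nat_lit 1799424000), (nat_lit 2099200000)], [], [(nat_lit 7305849959), (nat_lit 7199460322), (nat_lit 7235817401), (nat_lit 7128826401), (nat_lit 6800675799), (nat_lit 6692883821), (nat_lit 6743175620), (nat_lit 6634531295)], (nat_lit 936250), (nat_lit 1100000), (nat_lit 1271251), (nat_lit 1271251), (nat_lit 1100000), (nat_lit 2298751), [(nat_lit 1977501), (nat_lit 1271251), (nat_lit 1271251)], [(nat_lit 32), (nat_lit 67), (nat_lit 428), (nat_lit 200), (nat_lit 9)]⟩⟩)))))))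
noncomputable def c11_36 : Tr Lf :=
 (.trX (nat_lit 4) (nat_lit 0) (nat_lit 2) (nat_lit 84) (nat_lit 85) (nat_lit 100) (nat_lit 320) (.spl (nat_lit 1) (nat_lit 260) (.leaf ⟨(nat_lit 1000), (nat_lit 0), (nat_lit 0), (nat_lit 0), (nat_lit 2987), (nat_lit 4138), (nat_lit 0), (nat_lit 0), (nat_lit 0), (nat_lit 0), (nat_lit 250000), [((nat_lit 340), [((nat_lit 19), (nat_lit 0), (nat_lit 1000))])], ⟨(nat_lit 6), false, false, false, (nat_lit 162), (nat_lit 3872), (nat_lit 4473), [(nat_lit 1373132), (nat_lit 1382227), (nat_lit 1394681), (nat_lit 1404003), (nat_lit 1407125), (nat_lit 1414492), (nat_lit 1428674), (nat_lit 1436268)]⟩, ⟨(nat_lit 7), false, false, true, (nat_lit 236), (nat_lit 3872), (nat_lit 4473), [(nat_lit 1549689), (nat_lit 1541869), (nat_lit 1571255), (nat_lit 1563662), (nat_lit 1617667), (nat_lit 1606390), (nat_lit 1639234), (nat_lit 1628183)]⟩, (nat_lit 4831948), (nat_lit 42239566), (nat_lit 8794719), (nat_lit 15965715), (nat_lit 0),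 (nat_lit 0), [], [⟨(nat_lit 1), (nat_lit 85), (nat_lit 84), (nat_lit 100), (nat_lit 268249591)⟩], [], [],
 ⟨⟨[(nat_lit 40), (nat_lit 80), (nat_lit 120)], [(nat_lit 0), (nat_lit 0), (nat_lit 2151)], [((nat_lit 0), (nat_lit 0), (nat_lit 0)), ((nat_lit 0), (nat_lit 0), (nat_lit 0)), ((nat_lit 1000), (nat_lit 815), (nat_lit 753))], ((nat_lit 80), (nat_lit 100), (nat_lit 63))⟩, (nat_lit 0), (nat_lit 70), (nat_lit 70), (nat_lit 0), (nat_lit 0), [(nat_lit 1641500374), (nat_lit 2170400006), (nat_lit 2931999982)], [(nat_lit 0), (nat_lit 0), (nat_lit 0)], [(nat_lit 21611562063), (nat_lit 22967280557), (nat_lit 21731751248), (nat_lit 23053990120), (nat_lit 23666122514), (nat_lit 25097143526), (nat_lit 23734823278), (nat_lit 25099490979)], (nat_lit 0), (nat_lit 0), (nat_lit 0), (nat_lit 0), (nat_lit 0), (nat_lit 0), [], [(nat_lit 4), (nat_lit 51), (nat_lit 238), (nat_lit 30), (nat_lit 7)]⟩,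
 Rw.none,
 Rw.none⟩) (.stt (nat_lit 2) (.spl (nat_lit 2) (nat_lit 130) (.trX (nat_lit 4) (nat_lit 0) (nat_lit 2) (nat_lit 85) (nat_lit 90) (nat_lit 100) (nat_lit 310) (.leaf ⟨(nat_lit 0), (nat_lit 1000), (nat_lit 0), (nat_lit 0), (nat_lit 11461), (nat_lit 6165), (nat_lit 9049), (nat_lit 0), (nat_lit 0), (nat_lit 0), (nat_lit 0), [], Pd.none, Pd.none, (nat_lit 0), (nat_lit 1), (nat_lit 0), (nat_lit 0), (nat_lit 7), (nat_lit 0), [⟨(nat_lit 0), (nat_lit 100), (nat_lit 81), (nat_lit 93), (nat_lit 210000080)⟩], [⟨(nat_lit 1), (nat_lit 96), (nat_lit 82), (nat_lit 100), (nat_lit 322715043)⟩, ⟨(nat_lit 1), (nat_lit 90), (nat_lit 85), (nat_lit 100), (nat_lit 71510449)⟩], [], [⟨(nat_lit 2), (nat_lit 92), (nat_lit 99), (nat_lit 100), (nat_lit 206700181)⟩],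
 ⟨⟨[(nat_lit 40), (nat_lit 80), (nat_lit 120)], [(nat_lit 0), (nat_lit 0), (nat_lit 2151)], [((nat_lit 0), (nat_lit 0), (nat_lit 0)), ((nat_lit 0), (nat_lit 0), (nat_lit 0)), ((nat_lit 1000), (nat_lit 815), (nat_lit 753))], ((nat_lit 80), (nat_lit 100), (nat_lit 63))⟩, (nat_lit 0), (nat_lit 67), (nat_lit 67), (nat_lit 0), (nat_lit 0), [(nat_lit 2592848533), (nat_lit 4688000164), (nat_lit 7968000000)], [], [(nat_lit 23081865037), (nat_lit 24775767450), (nat_lit 23051412649), (nat_lit 24700022338), (nat_lit 24931456175), (nat_lit 26625523104), (nat_lit 24849306481), (nat_lit 26441007984)], (nat_lit 0), (nat_lit 0), (nat_lit 0), (nat_lit 0), (nat_lit 0), (nat_lit 0), [], [(nat_lit 4), (nat_lit 51), (nat_lit 238), (nat_lit 30), (nat_lit 7)]⟩,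
 ⟨⟨[(nat_lit 80), (nat_lit 120), (nat_lit 140)], [(nat_lit 0), (nat_lit 528), (nat_lit 1572)], [((nat_lit 0), (nat_lit 0), (nat_lit 0)), ((nat_lit 1000), (nat_lit 959), (nat_lit 206)), ((nat_lit 966), (nat_lit 1000), (nat_lit 679))], ((nat_lit 100), (nat_lit 98), (nat_lit 66))⟩, (nat_lit 3530544), (nat_lit 177), (nat_lit 177), (nat_lit 0), (nat_lit 0), [(nat_lit 4688000000), (nat_lit 7968000000), (nat_lit 9842000000)], [], [(nat_lit 22150026106), (nat_lit 24260208565), (nat_lit 22023401655), (nat_lit 24070421741), (nat_lit 26066959931), (nat_lit 27090031908), (nat_lit 25651589520), (nat_lit 26701603037)], (nat_lit 0), (nat_lit 0), (nat_lit 0), (nat_lit 0), (nat_lit 0), (nat_lit 0), [], [(nat_lit 17), (nat_lit 58), (nat_lit 428), (nat_lit 200), (nat_lit 12)]⟩,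
 Rw.none⟩)) (.leaf ⟨(nat_lit 334), (nat_lit 613), (nat_lit 0), (nat_lit 53), (nat_lit 0), (nat_lit 5412), (nat_lit 5989), (nat_lit 552), (nat_lit 0), (nat_lit 0), (nat_lit 83500), [((nat_lit 340), [((nat_lit 19), (nat_lit 0), (nat_lit 334))])], ⟨(nat_lit 6), true, false, false, (nat_lit 171), (nat_lit 3872), (nat_lit 4473), [(nat_lit 1394681), (nat_lit 1404003), (nat_lit 1416230), (nat_lit 1425778), (nat_lit 1428674), (nat_lit 1436268), (nat_lit 1450223), (nat_lit 1458043)]⟩, ⟨(nat_lit 7), false, false, true, (nat_lit 238), (nat_lit 3872), (nat_lit 4473), [(nat_lit 1560472), (nat_lit 1552765), (nat_lit 1571255), (nat_lit 1563662), (nat_lit 1628450), (nat_lit 1617287), (nat_lit 1639234), (nat_lit 1628183)]⟩, (nat_lit 4921852), (nat_lit 41526462), (nat_lit 9441956), (nat_lit 16031582), (nat_lit 7), (nat_lit 0), [⟨(nat_lit 0), (nat_lit 100), (nat_lit 81), (nat_lit 93), (nat_lit 5382579)⟩], [⟨(nat_lit 1), (nat_lit 91), (nat_lit 80), (nat_lit 100),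 (nat_lit 367289364)⟩], [], [⟨(nat_lit 2), (nat_lit 94), (nat_lit 97), (nat_lit 100), (nat_lit 87543268)⟩],
 ⟨⟨[(nat_lit 40), (nat_lit 80), (nat_lit 120)], [(nat_lit 0), (nat_lit 0), (nat_lit 2151)], [((nat_lit 0), (nat_lit 0), (nat_lit 0)), ((nat_lit 0), (nat_lit 0), (nat_lit 0)), ((nat_lit 1000), (nat_lit 815), (nat_lit 753))], ((nat_lit 80), (nat_lit 100), (nat_lit 63))⟩, (nat_lit 0), (nat_lit 70), (nat_lit 70), (nat_lit 0), (nat_lit 0), [(nat_lit 2209331463), (nat_lit 3847121603), (nat_lit 6275822400)], [(nat_lit 0), (nat_lit 0), (nat_lit 0)], [(nat_lit 22630041621), (nat_lit 24198313797), (nat_lit 22655550311), (nat_lit 24182918152), (nat_lit 24943274395), (nat_lit 26479586087), (nat_lit 24906332531), (nat_lit 26353356046)], (nat_lit 0), (nat_lit 0), (nat_lit 0), (nat_lit 0), (nat_lit 0), (nat_lit 0), [], [(nat_lit 4), (nat_lit 51), (nat_lit 238), (nat_lit 30), (nat_lit 7)]⟩,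
 ⟨⟨[(nat_lit 80), (nat_lit 120), (nat_lit 140)], [(nat_lit 0), (nat_lit 528), (nat_lit 1572)], [((nat_lit 0), (nat_lit 0), (nat_lit 0)), ((nat_lit 1000), (nat_lit 959), (nat_lit 206)), ((nat_lit 966), (nat_lit 1000), (nat_lit 679))], ((nat_lit 100), (nat_lit 98), (nat_lit 66))⟩, (nat_lit 2436378), (nat_lit 177), (nat_lit 177), (nat_lit 0), (nat_lit 0), [(nat_lit 3122208000), (nat_lit 5306688000), (nat_lit 6554772000)], [], [(nat_lit 14612400880), (nat_lit 16011922662), (nat_lit 14530586212), (nat_lit 15888262567), (nat_lit 17239270208), (nat_lit 18010115676), (nat_lit 17008237038), (nat_lit 17755076145)], (nat_lit 0), (nat_lit 0), (nat_lit 0), (nat_lit 0), (nat_lit 0), (nat_lit 0), [], [(nat_lit 17), (nat_lit 58), (nat_lit 428), (nat_lit 200), (nat_lit 12)]⟩,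
 ⟨⟨[(nat_lit 140), (nat_lit 180), (nat_lit 200)], [(nat_lit 0), (nat_lit 303), (nat_lit 3075)], [((nat_lit 0), (nat_lit 0), (nat_lit 0)), ((nat_lit 955), (nat_lit 1000), (nat_lit 113)), ((nat_lit 374), (nat_lit 1000), (nat_lit 806))], ((nat_lit 0), (nat_lit 0), (nat_lit 0))⟩, (nat_lit 245584), (nat_lit 300), (nat_lit 2150), (nat_lit 3725901), (nat_lit 3703728), [(nat_lit 521626000), (nat_lit 745074000), (nat_lit 869200000)], [], [(nat_lit 3561578738), (nat_lit 3538713262), (nat_lit 3528125728), (nat_lit 3504961880), (nat_lit 2840366435), (nat_lit 2817986449), (nat_lit 2799741951), (nat_lit 2777187521)], (nat_lit 857188), (nat_lit 936250), (nat_lit 1271251), (nat_lit 1271251), (nat_lit 0), (nat_lit 2401251), [(nat_lit 1977501), (nat_lit 1271251), (nat_lit 1271251)], [(nat_lit 32), (nat_lit 67), (nat_lit 638), (nat_lit 200), (nat_lit 13)]⟩⟩)) (.spl (nat_lit 5) (nat_lit 160) (.spl (nat_lit 0) (nat_lit 330) (.leaf ⟨(nat_lit 251), (nat_lit 700), (nat_lit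 0), (nat_lit 49), (nat_lit 4), (nat_lit 5653), (nat_lit 4738), (nat_lit 666), (nat_lit 0), (nat_lit 0), (nat_lit 62750), [((nat_lit 330), [((nat_lit 19), (nat_lit 0), (nat_lit 251))])], ⟨(nat_lit 6), false, false, false, (nat_lit 170), (nat_lit 4183), (nat_lit 4473), [(nat_lit 1394739), (nat_lit 1399346), (nat_lit 1416301), (nat_lit 1421009), (nat_lit 1428729), (nat_lit 1432475), (nat_lit 1450291), (nat_lit 1454137)]⟩, ⟨(nat_lit 7), false, false, true, (nat_lit 237), (nat_lit 4183), (nat_lit 4473), [(nat_lit 1549689), (nat_lit 1545843), (nat_lit 1571255), (nat_lit 1567510), (nat_lit 1617667), (nat_lit 1612099), (nat_lit 1639234), (nat_lit 1633765)]⟩, (nat_lit 4907699), (nat_lit 41674971), (nat_lit 9389690), (nat_lit 15935339), (nat_lit 7), (nat_lit 0), [], [⟨(nat_lit 1), (nat_lit 85), (nat_lit 84), (nat_lit 100), (nat_lit 501908516)⟩], [], [],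
 ⟨⟨[(nat_lit 40), (nat_lit 80), (nat_lit 120)], [(nat_lit 0), (nat_lit 0), (nat_lit 2151)], [((nat_lit 0), (nat_lit 0), (nat_lit 0)), ((nat_lit 0), (nat_lit 0), (nat_lit 0)), ((nat_lit 1000), (nat_lit 815), (nat_lit 753))], ((nat_lit 80), (nat_lit 100), (nat_lit 63))⟩, (nat_lit 0), (nat_lit 65), (nat_lit 65), (nat_lit 0), (nat_lit 0), [(nat_lit 2341361042), (nat_lit 4056082488), (nat_lit 6696333600)], [(nat_lit 0), (nat_lit 0), (nat_lit 0)], [(nat_lit 22714484193), (nat_lit 23518724456), (nat_lit 22722082365), (nat_lit 23505168202), (nat_lit 25076649486), (nat_lit 25891100385), (nat_lit 25019723420), (nat_lit 25762182166)], (nat_lit 0), (nat_lit 0), (nat_lit 0), (nat_lit 0), (nat_lit 0), (nat_lit 0), [], [(nat_lit 4), (nat_lit 51), (nat_lit 238), (nat_lit 30), (nat_lit 7)]⟩,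
 ⟨⟨[(nat_lit 80), (nat_lit 120), (nat_lit 140)], [(nat_lit 0), (nat_lit 528), (nat_lit 1572)], [((nat_lit 0), (nat_lit 0), (nat_lit 0)), ((nat_lit 1000), (nat_lit 959), (nat_lit 206)), ((nat_lit 966), (nat_lit 1000), (nat_lit 679))], ((nat_lit 100), (nat_lit 98), (nat_lit 66))⟩, (nat_lit 400318), (nat_lit 322), (nat_lit 322), (nat_lit 0), (nat_lit 238190), [(nat_lit 3511312000), (nat_lit 5968032000), (nat_lit 7371658000)], [], [(nat_lit 26513915468), (nat_lit 26844885485), (nat_lit 26087904452), (nat_lit 26815752112), (nat_lit 25554836812), (nat_lit 24579711018), (nat_lit 26616488668), (nat_lit 24539707891)], (nat_lit 1271251), (nat_lit 1271251), (nat_lit 631250), (nat_lit 780000), (nat_lit 0), (nat_lit 1100000), [(nat_lit 1100000), (nat_lit 1785001), (nat_lit 1271251)], [(nat_lit 17), (nat_lit 58), (nat_lit 373), (nat_lit 150), (nat_lit 11)]⟩,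
 ⟨⟨[(nat_lit 140), (nat_lit 180), (nat_lit 200)], [(nat_lit 0), (nat_lit 0), (nat_lit 2835)], [((nat_lit 0), (nat_lit 0), (nat_lit 0)), ((nat_lit 0), (nat_lit 0), (nat_lit 0)), ((nat_lit 363), (nat_lit 1000), (nat_lit 798))], ((nat_lit 0), (nat_lit 0), (nat_lit 0))⟩, (nat_lit 13482), (nat_lit 300), (nat_lit 1520), (nat_lit 3826900), (nat_lit 2395047), [(nat_lit 482258000), (nat_lit 688842000), (nat_lit 803600000)], [], [(nat_lit 3267739452), (nat_lit 3210049600), (nat_lit 3249423920), (nat_lit 3190576782), (nat_lit 2585287206), (nat_lit 2531272712), (nat_lit 2563561316), (nat_lit 2508453074)], (nat_lit 780000), (nat_lit 936250), (nat_lit 1271251), (nat_lit 1271251), (nat_lit 0), (nat_lit 1100000), [(nat_lit 1977501), (nat_lit 1271251), (nat_lit 1271251)], [(nat_lit 32), (nat_lit 67), (nat_lit 458), (nat_lit 175), (nat_lit 10)]⟩⟩) (.trX (nat_lit 4) (nat_lit 0) (nat_lit 2) (nat_lit 80) (nat_lit 89) (nat_lit 100) (nat_lit 310) (.leaf ⟨(nat_lit 381),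 (nat_lit 580), (nat_lit 0), (nat_lit 39), (nat_lit 0), (nat_lit 5392), (nat_lit 3910), (nat_lit 555), (nat_lit 0), (nat_lit 0), (nat_lit 95250), [((nat_lit 340), [((nat_lit 19), (nat_lit 0), (nat_lit 381))])], ⟨(nat_lit 6), false, false, false, (nat_lit 172), (nat_lit 3872), (nat_lit 4184), [(nat_lit 1399338), (nat_lit 1404053), (nat_lit 1421001), (nat_lit 1425842), (nat_lit 1432468), (nat_lit 1436316), (nat_lit 1454130), (nat_lit 1458104)]⟩, ⟨(nat_lit 7), false, false, true, (nat_lit 232), (nat_lit 3872), (nat_lit 4184), [(nat_lit 1545843), (nat_lit 1541869), (nat_lit 1567510), (nat_lit 1563662), (nat_lit 1595535), (nat_lit 1590260), (nat_lit 1617201), (nat_lit 1612053)]⟩, (nat_lit 4892764), (nat_lit 41974540), (nat_lit 9579864), (nat_lit 15445596), (nat_lit 7), (nat_lit 0), [], [⟨(nat_lit 1), (nat_lit 89), (nat_lit 80), (nat_lit 100), (nat_lit 482183946)⟩], [], [],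
 ⟨⟨[(nat_lit 40), (nat_lit 80), (nat_lit 100)], [(nat_lit 0), (nat_lit 395), (nat_lit 1536)], [((nat_lit 0), (nat_lit 0), (nat_lit 0)), ((nat_lit 1000), (nat_lit 908), (nat_lit 154)), ((nat_lit 1000), (nat_lit 760), (nat_lit 642))], ((nat_lit 76), (nat_lit 100), (nat_lit 63))⟩, (nat_lit 0), (nat_lit 67), (nat_lit 67), (nat_lit 0), (nat_lit 0), [(nat_lit 2228560694), (nat_lit 3728794442), (nat_lit 4838776000)], [(nat_lit 0), (nat_lit 0), (nat_lit 0)], [(nat_lit 23304515622), (nat_lit 24086983313), (nat_lit 23311116773), (nat_lit 24073190576), (nat_lit 24979762157), (nat_lit 25830381147), (nat_lit 24941167580), (nat_lit 25722187747)], (nat_lit 0), (nat_lit 0), (nat_lit 0), (nat_lit 0), (nat_lit 0), (nat_lit 0), [], [(nat_lit 3), (nat_lit 50), (nat_lit 238), (nat_lit 30), (nat_lit 7)]⟩,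
 ⟨⟨[(nat_lit 80), (nat_lit 120), (nat_lit 140)], [(nat_lit 0), (nat_lit 528), (nat_lit 1572)], [((nat_lit 0), (nat_lit 0), (nat_lit 0)), ((nat_lit 1000), (nat_lit 959), (nat_lit 206)), ((nat_lit 966), (nat_lit 1000), (nat_lit 679))], ((nat_lit 100), (nat_lit 98), (nat_lit 66))⟩, (nat_lit 529765), (nat_lit 339), (nat_lit 339), (nat_lit 0), (nat_lit 276147), [(nat_lit 2901872000), (nat_lit 4932192000), (nat_lit 6092198000)], [], [(nat_lit 21804298083), (nat_lit 21777460663), (nat_lit 21152644352), (nat_lit 21753774884), (nat_lit 21022398772), (nat_lit 19910605443), (nat_lit 21899050692), (nat_lit 20092935672)], (nat_lit 1271251), (nat_lit 1271251), (nat_lit 631250), (nat_lit 780000), (nat_lit 0), (nat_lit 1100000), [(nat_lit 1100000), (nat_lit 1785001), (nat_lit 1271251)], [(nat_lit 17), (nat_lit 58), (nat_lit 373), (nat_lit 150), (nat_lit 11)]⟩,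
 ⟨⟨[(nat_lit 140), (nat_lit 180), (nat_lit 200)], [(nat_lit 0), (nat_lit 0), (nat_lit 2835)], [((nat_lit 0), (nat_lit 0), (nat_lit 0)), ((nat_lit 0), (nat_lit 0), (nat_lit 0)), ((nat_lit 363), (nat_lit 1000), (nat_lit 798))], ((nat_lit 0), (nat_lit 0), (nat_lit 0))⟩, (nat_lit 10730), (nat_lit 300), (nat_lit 1732), (nat_lit 3045903), (nat_lit 2846478), [(nat_lit 383838000), (nat_lit 548262000), (nat_lit 639600000)], [], [(nat_lit 2568679110), (nat_lit 2520075027), (nat_lit 2580113088), (nat_lit 2534357317), (nat_lit 1996390704), (nat_lit 1950869091), (nat_lit 1981876602), (nat_lit 1935678709)], (nat_lit 780000), (nat_lit 936250), (nat_lit 1271251), (nat_lit 1271251), (nat_lit 0), (nat_lit 1100000), [(nat_lit 1977501), (nat_lit 1271251), (nat_lit 1271251)], [(nat_lit 32), (nat_lit 67), (nat_lit 510), (nat_lit 175), (nat_lit 11)]⟩⟩))) (.leaf ⟨(nat_lit 905), (nat_lit 64), (nat_lit 0), (nat_lit 31), (nat_lit 0), (nat_lit 4244), (nat_lit 1398), (nat_lit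 361), (nat_lit 0), (nat_lit 0), (nat_lit 226250), [((nat_lit 340), [((nat_lit 19), (nat_lit 0), (nat_lit 905))])], ⟨(nat_lit 6), false, false, false, (nat_lit 171), (nat_lit 3872), (nat_lit 4473), [(nat_lit 1394681), (nat_lit 1404003), (nat_lit 1416230), (nat_lit 1425778), (nat_lit 1428674), (nat_lit 1436268), (nat_lit 1450223), (nat_lit 1458043)]⟩, ⟨(nat_lit 7), false, false, true, (nat_lit 236), (nat_lit 3872), (nat_lit 4473), [(nat_lit 1549689), (nat_lit 1541869), (nat_lit 1571255), (nat_lit 1563662), (nat_lit 1617667), (nat_lit 1606390), (nat_lit 1639234), (nat_lit 1628183)]⟩, (nat_lit 4909646), (nat_lit 41697692), (nat_lit 9465900), (nat_lit 15836408), (nat_lit 7), (nat_lit 0), [⟨(nat_lit 0), (nat_lit 100), (nat_lit 81), (nat_lit 93), (nat_lit 24453769)⟩], [⟨(nat_lit 1), (nat_lit 93), (nat_lit 81), (nat_lit 100), (nat_lit 247567116)⟩], [], [⟨(nat_lit 2), (nat_lit 94), (nat_lit 97), (nat_lit 100), (nat_lit 27856737)⟩],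
 ⟨⟨[(nat_lit 40), (nat_lit 80), (nat_lit 120)], [(nat_lit 0), (nat_lit 0), (nat_lit 2151)], [((nat_lit 0), (nat_lit 0), (nat_lit 0)), ((nat_lit 0), (nat_lit 0), (nat_lit 0)), ((nat_lit 1000), (nat_lit 815), (nat_lit 753))], ((nat_lit 80), (nat_lit 100), (nat_lit 63))⟩, (nat_lit 0), (nat_lit 70), (nat_lit 70), (nat_lit 0), (nat_lit 0), [(nat_lit 1656549736), (nat_lit 2409572001), (nat_lit 3388189997)], [(nat_lit 0), (nat_lit 0), (nat_lit 0)], [(nat_lit 21795966667), (nat_lit 23169370161), (nat_lit 21908278197), (nat_lit 23247584314), (nat_lit 23872049305), (nat_lit 25212166219), (nat_lit 23931960337), (nat_lit 25203815702)], (nat_lit 0), (nat_lit 0), (nat_lit 0), (nat_lit 0), (nat_lit 0), (nat_lit 0), [], [(nat_lit 4), (nat_lit 51), (nat_lit 238), (nat_lit 30), (nat_lit 7)]⟩,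
 ⟨⟨[(nat_lit 80), (nat_lit 120), (nat_lit 140)], [(nat_lit 0), (nat_lit 528), (nat_lit 1572)], [((nat_lit 0), (nat_lit 0), (nat_lit 0)), ((nat_lit 1000), (nat_lit 959), (nat_lit 206)), ((nat_lit 966), (nat_lit 1000), (nat_lit 679))], ((nat_lit 100), (nat_lit 98), (nat_lit 66))⟩, (nat_lit 0), (nat_lit 223), (nat_lit 223), (nat_lit 0), (nat_lit 276231), [(nat_lit 445360000), (nat_lit 756960000), (nat_lit 934990000)], [], [(nat_lit 1522519647), (nat_lit 1756590145), (nat_lit 1483898174), (nat_lit 1710027401), (nat_lit 3681408289), (nat_lit 3036108477), (nat_lit 3923919801), (nat_lit 3282326050)], (nat_lit 1271251), (nat_lit 1271251), (nat_lit 631250), (nat_lit 780000), (nat_lit 1100000), (nat_lit 2641251), [(nat_lit 1100000), (nat_lit 1785001), (nat_lit 1271251)], [(nat_lit 17), (nat_lit 58), (nat_lit 428), (nat_lit 200), (nat_lit 12)]⟩,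
 ⟨⟨[(nat_lit 140), (nat_lit 180), (nat_lit 200)], [(nat_lit 0), (nat_lit 0), (nat_lit 2835)], [((nat_lit 0), (nat_lit 0), (nat_lit 0)), ((nat_lit 0), (nat_lit 0), (nat_lit 0)), ((nat_lit 363), (nat_lit 1000), (nat_lit 798))], ((nat_lit 0), (nat_lit 0), (nat_lit 0))⟩, (nat_lit 8529), (nat_lit 300), (nat_lit 1636), (nat_lit 2421102), (nat_lit 2846478), [(nat_lit 305102000), (nat_lit 435798000), (nat_lit 508400000)], [], [(nat_lit 1831911450), (nat_lit 1802540725), (nat_lit 1808679680), (nat_lit 1779096520), (nat_lit 1686496990), (nat_lit 1656397292), (nat_lit 1665522851), (nat_lit 1635309617)], (nat_lit 780000), (nat_lit 936250), (nat_lit 1271251), (nat_lit 1271251), (nat_lit 1100000), (nat_lit 2641251), [(nat_lit 1977501), (nat_lit 1271251), (nat_lit 1271251)], [(nat_lit 32), (nat_lit 67), (nat_lit 509), (nat_lit 200), (nat_lit 10)]⟩⟩)))))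
noncomputable def c11_37 : Tr Lf :=
 (.spl (nat_lit 6) (nat_lit 24) (.stt (nat_lit 2) (.leaf ⟨(nat_lit 342), (nat_lit 600), (nat_lit 0), (nat_lit 58), (nat_lit 0), (nat_lit 4570), (nat_lit 6962), (nat_lit 596), (nat_lit 0), (nat_lit 0), (nat_lit 486000), [((nat_lit 340), [((nat_lit 18), (nat_lit 2), (nat_lit 294)), ((nat_lit 37), (nat_lit 5), (nat_lit 48))])], ⟨(nat_lit 6), true, false, false, (nat_lit 166), (nat_lit 3872), (nat_lit 4473), [(nat_lit 1373132), (nat_lit 1382227), (nat_lit 1416230), (nat_lit 1425778), (nat_lit 1407125), (nat_lit 1414492), (nat_lit 1450223), (nat_lit 1458043)]⟩, ⟨(nat_lit 7), false, false, true, (nat_lit 251), (nat_lit 3872), (nat_lit 4473), [(nat_lit 1571255), (nat_lit 1563662), (nat_lit 1592822), (nat_lit 1585455), (nat_lit 1673223), (nat_lit 1660444), (nat_lit 1694789), (nat_lit 1682237)]⟩, (nat_lit 4952261), (nat_lit 40749718), (nat_lit 8963465), (nat_lit 17286817), (nat_lit 7), (nat_lit 0), [⟨(nat_lit 0), (nat_lit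 100), (nat_lit 80), (nat_lit 89), (nat_lit 12932643)⟩], [⟨(nat_lit 1), (nat_lit 85), (nat_lit 78), (nat_lit 100), (nat_lit 367654470)⟩], [], [⟨(nat_lit 2), (nat_lit 97), (nat_lit 94), (nat_lit 100), (nat_lit 76379568)⟩],
 ⟨⟨[(nat_lit 40), (nat_lit 80), (nat_lit 100)], [(nat_lit 0), (nat_lit 0), (nat_lit 1280)], [((nat_lit 0), (nat_lit 0), (nat_lit 0)), ((nat_lit 0), (nat_lit 0), (nat_lit 0)), ((nat_lit 1000), (nat_lit 800), (nat_lit 600))], ((nat_lit 81), (nat_lit 100), (nat_lit 48))⟩, (nat_lit 0), (nat_lit 78), (nat_lit 78), (nat_lit 0), (nat_lit 0), [(nat_lit 2172690953), (nat_lit 3065139212), (nat_lit 3441492388)], [(nat_lit 0), (nat_lit 0), (nat_lit 0)], [(nat_lit 22296148290), (nat_lit 23710891529), (nat_lit 22406482695), (nat_lit 23762978290), (nat_lit 25719859232), (nat_lit 26991126347), (nat_lit 25721053902), (nat_lit 26919335651)], (nat_lit 0), (nat_lit 0), (nat_lit 0), (nat_lit 0), (nat_lit 0), (nat_lit 0), [], [(nat_lit 3), (nat_lit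 50), (nat_lit 238), (nat_lit 30), (nat_lit 8)]⟩,
 ⟨⟨[(nat_lit 80), (nat_lit 120), (nat_lit 140)], [(nat_lit 0), (nat_lit 0), (nat_lit 1164)], [((nat_lit 0), (nat_lit 0), (nat_lit 0)), ((nat_lit 0), (nat_lit 0), (nat_lit 0)), ((nat_lit 941), (nat_lit 1000), (nat_lit 576))], ((nat_lit 100), (nat_lit 98), (nat_lit 48))⟩, (nat_lit 2314086), (nat_lit 177), (nat_lit 177), (nat_lit 0), (nat_lit 0), [(nat_lit 3084704000), (nat_lit 5242944000), (nat_lit 6476036000)], [], [(nat_lit 14144013008), (nat_lit 17234835516), (nat_lit 14040759552), (nat_lit 17036639880), (nat_lit 17053580004), (nat_lit 18691554835), (nat_lit 16739937157), (nat_lit 18348862903)], (nat_lit 0), (nat_lit 0), (nat_lit 0), (nat_lit 0), (nat_lit 0), (nat_lit 0), [], [(nat_lit 17), (nat_lit 58), (nat_lit 428), (nat_lit 200), (nat_lit 13)]⟩,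
 ⟨⟨[(nat_lit 140), (nat_lit 160), (nat_lit 180)], [(nat_lit 0), (nat_lit 304), (nat_lit 1085)], [((nat_lit 0), (nat_lit 0), (nat_lit 0)), ((nat_lit 913), (nat_lit 1000), (nat_lit 217)), ((nat_lit 759), (nat_lit 1000), (nat_lit 463))], ((nat_lit 100), (nat_lit 73), (nat_lit 50))⟩, (nat_lit 119053), (nat_lit 300), (nat_lit 1746), (nat_lit 4077400), (nat_lit 3023290), [(nat_lit 570836000), (nat_lit 688576000), (nat_lit 815364000)], [], [(nat_lit 3534705212), (nat_lit 3489867256), (nat_lit 3487498400), (nat_lit 3441836154), (nat_lit 2834485550), (nat_lit 2881190196), (nat_lit 2761876305), (nat_lit 2716621148)], (nat_lit 936250), (nat_lit 1100000), (nat_lit 1271251), (nat_lit 1271251), (nat_lit 0), (nat_lit 2401251), [(nat_lit 1977501), (nat_lit 1271251), (nat_lit 1271251)], [(nat_lit 31), (nat_lit 65), (nat_lit 542), (nat_lit 225), (nat_lit 12)]⟩⟩) (.spl (nat_lit 5) (nat_lit 120) (.spl (nat_lit 5) (nat_lit 80) (.spl (nat_lit 1) (nat_lit 260) (.leaf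 ⟨(nat_lit 777), (nat_lit 158), (nat_lit 0), (nat_lit 65), (nat_lit 0), (nat_lit 3978), (nat_lit 5279), (nat_lit 814), (nat_lit 0), (nat_lit 0), (nat_lit 416400), [((nat_lit 340), [((nat_lit 18), (nat_lit 1), (nat_lit 249)), ((nat_lit 37), (nat_lit 2), (nat_lit 528))])], ⟨(nat_lit 6), false, false, false, (nat_lit 162), (nat_lit 3872), (nat_lit 4473), [(nat_lit 1373132), (nat_lit 1382227), (nat_lit 1394681), (nat_lit 1404003), (nat_lit 1407125), (nat_lit 1414492), (nat_lit 1428674), (nat_lit 1436268)]⟩, ⟨(nat_lit 7), false, false, true, (nat_lit 251), (nat_lit 3872), (nat_lit 4473), [(nat_lit 1571255), (nat_lit 1563662), (nat_lit 1592822), (nat_lit 1585455), (nat_lit 1673223), (nat_lit 1660444), (nat_lit 1694789), (nat_lit 1682237)]⟩, (nat_lit 4913783), (nat_lit 41004820), (nat_lit 8636264), (nat_lit 17358916), (nat_lit 7), (nat_lit 0), [], [⟨(nat_lit 1), (nat_lit 85), (nat_lit 78), (nat_lit 100), (nat_lit 291901444)⟩], [], [⟨(nat_lit 0), (nat_lit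 94), (nat_lit 100), (nat_lit 13), (nat_lit 19610802)⟩],
 ⟨⟨[(nat_lit 40), (nat_lit 80), (nat_lit 100)], [(nat_lit 0), (nat_lit 0), (nat_lit 1280)], [((nat_lit 0), (nat_lit 0), (nat_lit 0)), ((nat_lit 0), (nat_lit 0), (nat_lit 0)), ((nat_lit 1000), (nat_lit 800), (nat_lit 600))], ((nat_lit 81), (nat_lit 100), (nat_lit 48))⟩, (nat_lit 0), (nat_lit 78), (nat_lit 78), (nat_lit 0), (nat_lit 0), [(nat_lit 1750130562), (nat_lit 2306564226), (nat_lit 2519945574)], [(nat_lit 0), (nat_lit 0), (nat_lit 0)], [(nat_lit 21862346313), (nat_lit 23159418197), (nat_lit 22012808550), (nat_lit 23258951020), (nat_lit 25061592134), (nat_lit 26252217033), (nat_lit 25114879252), (nat_lit 26239769296)], (nat_lit 0), (nat_lit 0), (nat_lit 0), (nat_lit 0), (nat_lit 0), (nat_lit 0), [], [(nat_lit 3), (nat_lit 50), (nat_lit 238), (nat_lit 30), (nat_lit 8)]⟩,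
 ⟨⟨[(nat_lit 80), (nat_lit 120), (nat_lit 140)], [(nat_lit 0), (nat_lit 0), (nat_lit 1164)], [((nat_lit 0), (nat_lit 0), (nat_lit 0)), ((nat_lit 0), (nat_lit 0), (nat_lit 0)), ((nat_lit 941), (nat_lit 1000), (nat_lit 576))], ((nat_lit 100), (nat_lit 98), (nat_lit 48))⟩, (nat_lit 799837), (nat_lit 306), (nat_lit 306), (nat_lit 0), (nat_lit 218019), [(nat_lit 1045424000), (nat_lit 1776864000), (nat_lit 2194766000)], [], [(nat_lit 6325667043), (nat_lit 5752213565), (nat_lit 7060036626), (nat_lit 5535418093), (nat_lit 7020768726), (nat_lit 4566097074), (nat_lit 7823601660), (nat_lit 5385115422)], (nat_lit 1271251), (nat_lit 1271251), (nat_lit 631250), (nat_lit 780000), (nat_lit 0), (nat_lit 490000), [(nat_lit 1100000), (nat_lit 1785001), (nat_lit 1271251)], [(nat_lit 17), (nat_lit 58), (nat_lit 345), (nat_lit 125), (nat_lit 10)]⟩,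
 ⟨⟨[(nat_lit 140), (nat_lit 160), (nat_lit 180)], [(nat_lit 0), (nat_lit 304), (nat_lit 1085)], [((nat_lit 0), (nat_lit 0), (nat_lit 0)), ((nat_lit 913), (nat_lit 1000), (nat_lit 217)), ((nat_lit 759), (nat_lit 1000), (nat_lit 463))], ((nat_lit 100), (nat_lit 73), (nat_lit 50))⟩, (nat_lit 133421), (nat_lit 300), (nat_lit 1085), (nat_lit 4569501), (nat_lit 1583882), [(nat_lit 639730000), (nat_lit 771680000), (nat_lit 913770000)], [], [(nat_lit 3523245194), (nat_lit 3464497436), (nat_lit 3569721711), (nat_lit 3507142266), (nat_lit 3015868446), (nat_lit 2960210436), (nat_lit 3058533124), (nat_lit 2999148040)], (nat_lit 936250), (nat_lit 1100000), (nat_lit 1271251), (nat_lit 1271251), (nat_lit 0), (nat_lit 490000), [(nat_lit 1977501), (nat_lit 1271251), (nat_lit 1271251)], [(nat_lit 31), (nat_lit 65), (nat_lit 373), (nat_lit 150), (nat_lit 9)]⟩⟩) (.leaf ⟨(nat_lit 0), (nat_lit 878), (nat_lit 0), (nat_lit 122), (nat_lit 0), (nat_lit 5947), (nat_lit 8144),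 (nat_lit 1528), (nat_lit 0), (nat_lit 0), (nat_lit 0), [], Pd.none, Pd.none, (nat_lit 0), (nat_lit 1), (nat_lit 0), (nat_lit 0), (nat_lit 7), (nat_lit 0), [⟨(nat_lit 0), (nat_lit 100), (nat_lit 81), (nat_lit 93), (nat_lit 151028141)⟩], [⟨(nat_lit 1), (nat_lit 85), (nat_lit 78), (nat_lit 100), (nat_lit 534889467)⟩], [], [⟨(nat_lit 0), (nat_lit 94), (nat_lit 100), (nat_lit 13), (nat_lit 355905754)⟩],
 ⟨⟨[(nat_lit 40), (nat_lit 80), (nat_lit 100)], [(nat_lit 0), (nat_lit 0), (nat_lit 1280)], [((nat_lit 0), (nat_lit 0), (nat_lit 0)), ((nat_lit 0), (nat_lit 0), (nat_lit 0)), ((nat_lit 1000), (nat_lit 800), (nat_lit 600))], ((nat_lit 81), (nat_lit 100), (nat_lit 48))⟩, (nat_lit 0), (nat_lit 78), (nat_lit 78), (nat_lit 0), (nat_lit 0), [(nat_lit 2533425914), (nat_lit 4688000002), (nat_lit 6250000000)], [], [(nat_lit 23194499698), (nat_lit 24852031073), (nat_lit 23180248525), (nat_lit 24793757653), (nat_lit 27109402519), (nat_lit 28709839396), (nat_lit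 26989429451), (nat_lit 28487938054)], (nat_lit 0), (nat_lit 0), (nat_lit 0), (nat_lit 0), (nat_lit 0), (nat_lit 0), [], [(nat_lit 3), (nat_lit 50), (nat_lit 238), (nat_lit 30), (nat_lit 8)]⟩,
 ⟨⟨[(nat_lit 80), (nat_lit 100), (nat_lit 120)], [(nat_lit 0), (nat_lit 265), (nat_lit 768)], [((nat_lit 0), (nat_lit 0), (nat_lit 0)), ((nat_lit 1000), (nat_lit 959), (nat_lit 206)), ((nat_lit 1000), (nat_lit 958), (nat_lit 392))], ((nat_lit 97), (nat_lit 100), (nat_lit 48))⟩, (nat_lit 7994737), (nat_lit 249), (nat_lit 249), (nat_lit 0), (nat_lit 237823), [(nat_lit 4688000000), (nat_lit 6250000000), (nat_lit 7968000000)], [], [(nat_lit 15637106396), (nat_lit 17868738620), (nat_lit 15687741168), (nat_lit 17852221968), (nat_lit 11141406114), (nat_lit 12880498308), (nat_lit 11254036740), (nat_lit 12969128111)], (nat_lit 1271251), (nat_lit 1271251), (nat_lit 631250), (nat_lit 780000), (nat_lit 0), (nat_lit 490000), [(nat_lit 1100000), (nat_lit 1442501), (nat_lit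 1271251)], [(nat_lit 16), (nat_lit 54), (nat_lit 260), (nat_lit 50), (nat_lit 9)]⟩,
 ⟨⟨[(nat_lit 140), (nat_lit 160), (nat_lit 180)], [(nat_lit 0), (nat_lit 304), (nat_lit 1085)], [((nat_lit 0), (nat_lit 0), (nat_lit 0)), ((nat_lit 913), (nat_lit 1000), (nat_lit 217)), ((nat_lit 759), (nat_lit 1000), (nat_lit 463))], ((nat_lit 100), (nat_lit 73), (nat_lit 50))⟩, (nat_lit 250421), (nat_lit 300), (nat_lit 1219), (nat_lit 8576601), (nat_lit 1896686), [(nat_lit 1200724000), (nat_lit 1448384000), (nat_lit 1715076000)], [], [(nat_lit 6612581168), (nat_lit 6502298204), (nat_lit 6699807097), (nat_lit 6582331644), (nat_lit 5660145324), (nat_lit 5555662356), (nat_lit 5740216301), (nat_lit 5628737212)], (nat_lit 936250), (nat_lit 1100000), (nat_lit 1271251), (nat_lit 1271251), (nat_lit 0), (nat_lit 490000), [(nat_lit 1977501), (nat_lit 1271251), (nat_lit 1271251)], [(nat_lit 31), (nat_lit 65), (nat_lit 378), (nat_lit 150), (nat_lit 9)]⟩⟩)) (.leaf ⟨(nat_lit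 0), (nat_lit 796), (nat_lit 0), (nat_lit 204), (nat_lit 0), (nat_lit 5986), (nat_lit 18888), (nat_lit 2350), (nat_lit 0), (nat_lit 0), (nat_lit 0), [], Pd.none, Pd.none, (nat_lit 0), (nat_lit 1), (nat_lit 0), (nat_lit 0), (nat_lit 7), (nat_lit 0), [⟨(nat_lit 0), (nat_lit 100), (nat_lit 80), (nat_lit 89), (nat_lit 171445042)⟩, ⟨(nat_lit 0), (nat_lit 99), (nat_lit 77), (nat_lit 100), (nat_lit 738358123)⟩], [⟨(nat_lit 1), (nat_lit 85), (nat_lit 78), (nat_lit 100), (nat_lit 495398205)⟩], [], [],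
 ⟨⟨[(nat_lit 40), (nat_lit 80), (nat_lit 100)], [(nat_lit 0), (nat_lit 0), (nat_lit 1280)], [((nat_lit 0), (nat_lit 0), (nat_lit 0)), ((nat_lit 0), (nat_lit 0), (nat_lit 0)), ((nat_lit 1000), (nat_lit 800), (nat_lit 600))], ((nat_lit 81), (nat_lit 100), (nat_lit 48))⟩, (nat_lit 59604), (nat_lit 78), (nat_lit 78), (nat_lit 0), (nat_lit 0), [(nat_lit 2504515602), (nat_lit 4688000010), (nat_lit 6250000000)], [], [(nat_lit 23174349439), (nat_lit 24838387560), (nat_lit 23157199884), (nat_lit 24776988470), (nat_lit 27102794406), (nat_lit 28758517544), (nat_lit 26979389572), (nat_lit 28532467552)], (nat_lit 0), (nat_lit 0), (nat_lit 0), (nat_lit 0), (nat_lit 0), (nat_lit 0), [], [(nat_lit 3), (nat_lit 50), (nat_lit 238), (nat_lit 30), (nat_lit 8)]⟩,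
 ⟨⟨[(nat_lit 80), (nat_lit 120), (nat_lit 140)], [(nat_lit 0), (nat_lit 0), (nat_lit 1164)], [((nat_lit 0), (nat_lit 0), (nat_lit 0)), ((nat_lit 0), (nat_lit 0), (nat_lit 0)), ((nat_lit 941), (nat_lit 1000), (nat_lit 576))], ((nat_lit 100), (nat_lit 98), (nat_lit 48))⟩, (nat_lit 7738556), (nat_lit 198), (nat_lit 198), (nat_lit 0), (nat_lit 242237), [(nat_lit 4688000000), (nat_lit 7968000000), (nat_lit 9842000000)], [], [(nat_lit 2210081376), (nat_lit 9928163716), (nat_lit 1797119440), (nat_lit 9499365000), (nat_lit 1525462180), (nat_lit 9089052838), (nat_lit 2382678280), (nat_lit 8678740676)], (nat_lit 1271251), (nat_lit 1271251), (nat_lit 631250), (nat_lit 780000), (nat_lit 490000), (nat_lit 780000), [(nat_lit 1100000), (nat_lit 1785001), (nat_lit 1271251)], [(nat_lit 17), (nat_lit 58), (nat_lit 373), (nat_lit 150), (nat_lit 11)]⟩,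
 ⟨⟨[(nat_lit 140), (nat_lit 160), (nat_lit 180)], [(nat_lit 0), (nat_lit 304), (nat_lit 1085)], [((nat_lit 0), (nat_lit 0), (nat_lit 0)), ((nat_lit 913), (nat_lit 1000), (nat_lit 217)), ((nat_lit 759), (nat_lit 1000), (nat_lit 463))], ((nat_lit 100), (nat_lit 73), (nat_lit 50))⟩, (nat_lit 637807), (nat_lit 300), (nat_lit 1163), (nat_lit 14341200), (nat_lit 1896708), [(nat_lit 2007768000), (nat_lit 2421888000), (nat_lit 2867832000)], [], [(nat_lit 10112385186), (nat_lit 9942176116), (nat_lit 10065825041), (nat_lit 9892259364), (nat_lit 9728603086), (nat_lit 9558890966), (nat_lit 9671978202), (nat_lit 9505923808)], (nat_lit 936250), (nat_lit 1100000), (nat_lit 1271251), (nat_lit 1271251), (nat_lit 490000), (nat_lit 780000), [(nat_lit 1977501), (nat_lit 1271251), (nat_lit 1271251)], [(nat_lit 31), (nat_lit 65), (nat_lit 401), (nat_lit 175), (nat_lit 9)]⟩⟩)) (.leaf ⟨(nat_lit 753), (nat_lit 109), (nat_lit 0), (nat_lit 138), (nat_lit 0), (nat_lit 3678),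 (nat_lit 3325), (nat_lit 1422), (nat_lit 0), (nat_lit 0), (nat_lit 1359000), [((nat_lit 340), [((nat_lit 18), (nat_lit 2), (nat_lit 551)), ((nat_lit 37), (nat_lit 5), (nat_lit 202))])], ⟨(nat_lit 6), false, false, false, (nat_lit 166), (nat_lit 3872), (nat_lit 4473), [(nat_lit 1373132), (nat_lit 1382227), (nat_lit 1416230), (nat_lit 1425778), (nat_lit 1407125), (nat_lit 1414492), (nat_lit 1450223), (nat_lit 1458043)]⟩, ⟨(nat_lit 7), false, false, true, (nat_lit 251), (nat_lit 3872), (nat_lit 4473), [(nat_lit 1571255), (nat_lit 1563662), (nat_lit 1592822), (nat_lit 1585455), (nat_lit 1673223), (nat_lit 1660444), (nat_lit 1694789), (nat_lit 1682237)]⟩, (nat_lit 4952261), (nat_lit 40749718), (nat_lit 8963465), (nat_lit 17286817), (nat_lit 7), (nat_lit 0), [⟨(nat_lit 0), (nat_lit 99), (nat_lit 77), (nat_lit 100), (nat_lit 150001827)⟩], [⟨(nat_lit 1), (nat_lit 85), (nat_lit 78), (nat_lit 100), (nat_lit 262825760)⟩], [], [],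
 ⟨⟨[(nat_lit 40), (nat_lit 80), (nat_lit 100)], [(nat_lit 0), (nat_lit 0), (nat_lit 1280)], [((nat_lit 0), (nat_lit 0), (nat_lit 0)), ((nat_lit 0), (nat_lit 0), (nat_lit 0)), ((nat_lit 1000), (nat_lit 800), (nat_lit 600))], ((nat_lit 81), (nat_lit 100), (nat_lit 48))⟩, (nat_lit 0), (nat_lit 78), (nat_lit 78), (nat_lit 0), (nat_lit 0), [(nat_lit 1843149614), (nat_lit 1241129175), (nat_lit 0)], [(nat_lit 0), (nat_lit 0), (nat_lit 1186911600)], [(nat_lit 21268646564), (nat_lit 22476013472), (nat_lit 21439443851), (nat_lit 22619052176), (nat_lit 24597988441), (nat_lit 25877769745), (nat_lit 24646761049), (nat_lit 25897234696)], (nat_lit 0), (nat_lit 0), (nat_lit 0), (nat_lit 0), (nat_lit 0), (nat_lit 0), [], [(nat_lit 3), (nat_lit 50), (nat_lit 238), (nat_lit 30), (nat_lit 8)]⟩,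
 ⟨⟨[(nat_lit 80), (nat_lit 120), (nat_lit 140)], [(nat_lit 0), (nat_lit 0), (nat_lit 1164)], [((nat_lit 0), (nat_lit 0), (nat_lit 0)), ((nat_lit 0), (nat_lit 0), (nat_lit 0)), ((nat_lit 941), (nat_lit 1000), (nat_lit 576))], ((nat_lit 100), (nat_lit 98), (nat_lit 48))⟩, (nat_lit 596297), (nat_lit 209), (nat_lit 209), (nat_lit 0), (nat_lit 242237), [(nat_lit 1157936000), (nat_lit 1968096000), (nat_lit 2430974000)], [], [(nat_lit 7114055668), (nat_lit 4308481563), (nat_lit 5394915955), (nat_lit 4211215485), (nat_lit 10286182494), (nat_lit 7627696457), (nat_lit 10865437394), (nat_lit 7813507176)], (nat_lit 1271251), (nat_lit 1271251), (nat_lit 631250), (nat_lit 780000), (nat_lit 780000), (nat_lit 2581251), [(nat_lit 1100000), (nat_lit 1785001), (nat_lit 1271251)], [(nat_lit 17), (nat_lit 58), (nat_lit 428), (nat_lit 200), (nat_lit 12)]⟩,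
 ⟨⟨[(nat_lit 140), (nat_lit 160), (nat_lit 180)], [(nat_lit 0), (nat_lit 304), (nat_lit 1085)], [((nat_lit 0), (nat_lit 0), (nat_lit 0)), ((nat_lit 913), (nat_lit 1000), (nat_lit 217)), ((nat_lit 759), (nat_lit 1000), (nat_lit 463))], ((nat_lit 100), (nat_lit 73), (nat_lit 50))⟩, (nat_lit 283263), (nat_lit 300), (nat_lit 1141), (nat_lit 9701401), (nat_lit 1896708), [(nat_lit 1358196000), (nat_lit 1638336000), (nat_lit 1940004000)], [], [(nat_lit 7483239300), (nat_lit 7379396280), (nat_lit 7350298400), (nat_lit 7244944467), (nat_lit 6672096876), (nat_lit 6565726797), (nat_lit 6552628038), (nat_lit 6444562659)], (nat_lit 936250), (nat_lit 1100000), (nat_lit 1271251), (nat_lit 1271251), (nat_lit 780000), (nat_lit 2581251), [(nat_lit 1977501), (nat_lit 1271251), (nat_lit 1271251)], [(nat_lit 31), (nat_lit 65), (nat_lit 456), (nat_lit 225), (nat_lit 10)]⟩⟩))) (.spl (nat_lit 5) (nat_lit 120) (.spl (nat_lit 1) (nat_lit 260) (.spl (nat_lit 6) (nat_lit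 36) (.leaf ⟨(nat_lit 0), (nat_lit 867), (nat_lit 0), (nat_lit 133), (nat_lit 11508), (nat_lit 5799), (nat_lit 7956), (nat_lit 1705), (nat_lit 0), (nat_lit 0), (nat_lit 0), [], Pd.none, Pd.none, (nat_lit 0), (nat_lit 1), (nat_lit 0), (nat_lit 0), (nat_lit 7), (nat_lit 0), [⟨(nat_lit 0), (nat_lit 100), (nat_lit 75), (nat_lit 92), (nat_lit 3812870)⟩], [⟨(nat_lit 1), (nat_lit 85), (nat_lit 78), (nat_lit 100), (nat_lit 552591858)⟩], [⟨(nat_lit 0), (nat_lit 100), (nat_lit 97), (nat_lit 11), (nat_lit 123078818)⟩], [],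
 ⟨⟨[(nat_lit 40), (nat_lit 80), (nat_lit 100)], [(nat_lit 0), (nat_lit 0), (nat_lit 1280)], [((nat_lit 0), (nat_lit 0), (nat_lit 0)), ((nat_lit 0), (nat_lit 0), (nat_lit 0)), ((nat_lit 1000), (nat_lit 800), (nat_lit 600))], ((nat_lit 80), (nat_lit 100), (nat_lit 57))⟩, (nat_lit 0), (nat_lit 78), (nat_lit 78), (nat_lit 0), (nat_lit 0), [(nat_lit 2449467851), (nat_lit 4688000213), (nat_lit 6250000000)], [], [(nat_lit 23270967587), (nat_lit 24903806697), (nat_lit 23267715404), (nat_lit 24857394793), (nat_lit 27134479702), (nat_lit 28525624308), (nat_lit 27027529746), (nat_lit 28383293558)], (nat_lit 0), (nat_lit 0), (nat_lit 0), (nat_lit 0), (nat_lit 0), (nat_lit 0), [], [(nat_lit 3), (nat_lit 50), (nat_lit 238), (nat_lit 30), (nat_lit 8)]⟩,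
 ⟨⟨[(nat_lit 80), (nat_lit 120), (nat_lit 140)], [(nat_lit 0), (nat_lit 0), (nat_lit 1164)], [((nat_lit 0), (nat_lit 0), (nat_lit 0)), ((nat_lit 0), (nat_lit 0), (nat_lit 0)), ((nat_lit 941), (nat_lit 1000), (nat_lit 576))], ((nat_lit 100), (nat_lit 94), (nat_lit 58))⟩, (nat_lit 4918237), (nat_lit 224), (nat_lit 224), (nat_lit 0), (nat_lit 65357), [(nat_lit 4688000000), (nat_lit 7968000000), (nat_lit 9842000000)], [], [(nat_lit 19975107576), (nat_lit 21805591555), (nat_lit 20120614800), (nat_lit 21894341786), (nat_lit 19116602430), (nat_lit 17844262635), (nat_lit 20451251860), (nat_lit 17937654626)], (nat_lit 1271251), (nat_lit 1271251), (nat_lit 631250), (nat_lit 780000), (nat_lit 0), (nat_lit 780000), [(nat_lit 1100000), (nat_lit 1785001), (nat_lit 1271251)], [(nat_lit 17), (nat_lit 58), (nat_lit 345), (nat_lit 125), (nat_lit 10)]⟩,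
 ⟨⟨[(nat_lit 140), (nat_lit 160), (nat_lit 180)], [(nat_lit 0), (nat_lit 304), (nat_lit 1085)], [((nat_lit 0), (nat_lit 0), (nat_lit 0)), ((nat_lit 913), (nat_lit 1000), (nat_lit 217)), ((nat_lit 759), (nat_lit 1000), (nat_lit 463))], ((nat_lit 100), (nat_lit 64), (nat_lit 60))⟩, (nat_lit 125664), (nat_lit 300), (nat_lit 570), (nat_lit 9629839), (nat_lit 447879), [(nat_lit 1308986000), (nat_lit 1578976000), (nat_lit 1869714000)], [], [(nat_lit 7300770020), (nat_lit 7176731108), (nat_lit 7394390692), (nat_lit 7262360303), (nat_lit 5959041227), (nat_lit 5841623063), (nat_lit 6031661459), (nat_lit 5906773986)], (nat_lit 936250), (nat_lit 1100000), (nat_lit 1271251), (nat_lit 1271251), (nat_lit 0), (nat_lit 780000), [(nat_lit 1977501), (nat_lit 1271251), (nat_lit 1271251)], [(nat_lit 31), (nat_lit 65), (nat_lit 401), (nat_lit 175), (nat_lit 9)]⟩⟩) (.dle (nat_lit 0))) (.leaf ⟨(nat_lit 0), (nat_lit 904), (nat_lit 0), (nat_lit 96), (nat_lit 19481), (nat_lit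 5809), (nat_lit 7639), (nat_lit 1178), (nat_lit 0), (nat_lit 0), (nat_lit 0), [], Pd.none, Pd.none, (nat_lit 0), (nat_lit 1), (nat_lit 0), (nat_lit 0), (nat_lit 7), (nat_lit 0), [⟨(nat_lit 0), (nat_lit 100), (nat_lit 81), (nat_lit 93), (nat_lit 751786215)⟩], [⟨(nat_lit 1), (nat_lit 85), (nat_lit 78), (nat_lit 100), (nat_lit 566504325)⟩], [], [⟨(nat_lit 0), (nat_lit 94), (nat_lit 100), (nat_lit 13), (nat_lit 165740948)⟩],
 ⟨⟨[(nat_lit 40), (nat_lit 80), (nat_lit 120)], [(nat_lit 0), (nat_lit 0), (nat_lit 2151)], [((nat_lit 0), (nat_lit 0), (nat_lit 0)), ((nat_lit 0), (nat_lit 0), (nat_lit 0)), ((nat_lit 1000), (nat_lit 815), (nat_lit 753))], ((nat_lit 80), (nat_lit 100), (nat_lit 63))⟩, (nat_lit 0), (nat_lit 78), (nat_lit 78), (nat_lit 0), (nat_lit 0), [(nat_lit 2412720487), (nat_lit 4688000001), (nat_lit 7968000000)], [], [(nat_lit 23265800640), (nat_lit 24900308147), (nat_lit 23261805282), (nat_lit 24853094788), (nat_lit 27132785100), (nat_lit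 28537593644), (nat_lit 27024955204), (nat_lit 28382000400)], (nat_lit 0), (nat_lit 0), (nat_lit 0), (nat_lit 0), (nat_lit 0), (nat_lit 0), [], [(nat_lit 4), (nat_lit 51), (nat_lit 238), (nat_lit 30), (nat_lit 7)]⟩,
 ⟨⟨[(nat_lit 80), (nat_lit 120), (nat_lit 140)], [(nat_lit 0), (nat_lit 528), (nat_lit 1572)], [((nat_lit 0), (nat_lit 0), (nat_lit 0)), ((nat_lit 1000), (nat_lit 959), (nat_lit 206)), ((nat_lit 966), (nat_lit 1000), (nat_lit 679))], ((nat_lit 100), (nat_lit 98), (nat_lit 66))⟩, (nat_lit 5085544), (nat_lit 226), (nat_lit 226), (nat_lit 0), (nat_lit 103640), [(nat_lit 4688000000), (nat_lit 7968000000), (nat_lit 9842000000)], [], [(nat_lit 19486995212), (nat_lit 21377390140), (nat_lit 19591597490), (nat_lit 21321917322), (nat_lit 15775187677), (nat_lit 17346473037), (nat_lit 15882918450), (nat_lit 17405829240)], (nat_lit 1271251), (nat_lit 1271251), (nat_lit 631250), (nat_lit 780000), (nat_lit 0), (nat_lit 780000), [(nat_lit 1100000),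 (nat_lit 1785001), (nat_lit 1271251)], [(nat_lit 17), (nat_lit 58), (nat_lit 373), (nat_lit 150), (nat_lit 11)]⟩,
 ⟨⟨[(nat_lit 140), (nat_lit 180), (nat_lit 200)], [(nat_lit 0), (nat_lit 608), (nat_lit 3317)], [((nat_lit 0), (nat_lit 0), (nat_lit 0)), ((nat_lit 913), (nat_lit 1000), (nat_lit 217)), ((nat_lit 385), (nat_lit 1000), (nat_lit 814))], ((nat_lit 0), (nat_lit 0), (nat_lit 0))⟩, (nat_lit 221684), (nat_lit 300), (nat_lit 784), (nat_lit 6748801), (nat_lit 782140), [(nat_lit 944832000), (nat_lit 1349568000), (nat_lit 1574400000)], [], [(nat_lit 6017230782), (nat_lit 5917884048), (nat_lit 6008772876), (nat_lit 5905801164), (nat_lit 5047918138), (nat_lit 4954311684), (nat_lit 5032568185), (nat_lit 4935475775)], (nat_lit 936250), (nat_lit 1100000), (nat_lit 1271251), (nat_lit 1271251), (nat_lit 0), (nat_lit 780000), [(nat_lit 1977501), (nat_lit 1271251), (nat_lit 1271251)], [(nat_lit 32), (nat_lit 67), (nat_lit 401), (nat_lit 175), (nat_lit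 8)]⟩⟩)) (.leaf ⟨(nat_lit 0), (nat_lit 375), (nat_lit 0), (nat_lit 625), (nat_lit 0), (nat_lit 5906), (nat_lit 15110), (nat_lit 7123), (nat_lit 0), (nat_lit 0), (nat_lit 0), [], Pd.none, Pd.none, (nat_lit 0), (nat_lit 1), (nat_lit 0), (nat_lit 0), (nat_lit 7), (nat_lit 0), [⟨(nat_lit 0), (nat_lit 100), (nat_lit 80), (nat_lit 89), (nat_lit 918915201)⟩], [], [], [],
 ⟨⟨[(nat_lit 40), (nat_lit 80), (nat_lit 120)], [(nat_lit 0), (nat_lit 0), (nat_lit 2151)], [((nat_lit 0), (nat_lit 0), (nat_lit 0)), ((nat_lit 0), (nat_lit 0), (nat_lit 0)), ((nat_lit 1000), (nat_lit 815), (nat_lit 753))], ((nat_lit 80), (nat_lit 100), (nat_lit 63))⟩, (nat_lit 0), (nat_lit 78), (nat_lit 78), (nat_lit 0), (nat_lit 0), [(nat_lit 2449086232), (nat_lit 4688000009), (nat_lit 7968000000)], [], [(nat_lit 23215683318), (nat_lit 24866374269), (nat_lit 23204479163), (nat_lit 24811386809), (nat_lit 27116349525), (nat_lit 28658664934), (nat_lit 26999984211), (nat_lit 28441124992)],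 (nat_lit 0), (nat_lit 0), (nat_lit 0), (nat_lit 0), (nat_lit 0), (nat_lit 0), [], [(nat_lit 4), (nat_lit 51), (nat_lit 238), (nat_lit 30), (nat_lit 7)]⟩,
 ⟨⟨[(nat_lit 80), (nat_lit 120), (nat_lit 160)], [(nat_lit 0), (nat_lit 0), (nat_lit 2132)], [((nat_lit 0), (nat_lit 0), (nat_lit 0)), ((nat_lit 0), (nat_lit 0), (nat_lit 0)), ((nat_lit 858), (nat_lit 1000), (nat_lit 713))], ((nat_lit 100), (nat_lit 91), (nat_lit 64))⟩, (nat_lit 4745979), (nat_lit 188), (nat_lit 188), (nat_lit 0), (nat_lit 107595), [(nat_lit 4688000000), (nat_lit 7968000000), (nat_lit 11872000000)], [], [(nat_lit 28731530505), (nat_lit 16896296527), (nat_lit 20919139210), (nat_lit 16207721272), (nat_lit 41819995020), (nat_lit 32297749175), (nat_lit 44379476340), (nat_lit 31341950775)], (nat_lit 1271251), (nat_lit 1271251), (nat_lit 631250), (nat_lit 780000), (nat_lit 780000), (nat_lit 2581251), [(nat_lit 1100000), (nat_lit 1785001), (nat_lit 1271251)], [(nat_lit 18), (nat_lit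 59), (nat_lit 428), (nat_lit 200), (nat_lit 11)]⟩,
 ⟨⟨[(nat_lit 140), (nat_lit 180), (nat_lit 200)], [(nat_lit 0), (nat_lit 608), (nat_lit 3317)], [((nat_lit 0), (nat_lit 0), (nat_lit 0)), ((nat_lit 913), (nat_lit 1000), (nat_lit 217)), ((nat_lit 385), (nat_lit 1000), (nat_lit 814))], ((nat_lit 0), (nat_lit 0), (nat_lit 0))⟩, (nat_lit 1443257), (nat_lit 300), (nat_lit 893), (nat_lit 43937500), (nat_lit 1223770), [(nat_lit 6151250000), (nat_lit 8786250000), (nat_lit 10250000000)], [], [(nat_lit 34373812464), (nat_lit 33795653129), (nat_lit 34093813067), (nat_lit 33518871410), (nat_lit 30900225125), (nat_lit 30315790995), (nat_lit 30524230727), (nat_lit 29947453945)], (nat_lit 936250), (nat_lit 1100000), (nat_lit 1271251), (nat_lit 1271251), (nat_lit 780000), (nat_lit 2581251), [(nat_lit 1977501), (nat_lit 1271251), (nat_lit 1271251)], [(nat_lit 32), (nat_lit 67), (nat_lit 456), (nat_lit 225), (nat_lit 9)]⟩⟩)))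
noncomputable def c11_38 : Tr Lf :=
 (.trZ (nat_lit 0) (nat_lit 1) (nat_lit 3) (nat_lit 100) (nat_lit 87) (nat_lit 95) (nat_lit 100) (.spl (nat_lit 5) (nat_lit 160) (.leaf ⟨(nat_lit 0), (nat_lit 1000), (nat_lit 0), (nat_lit 0), (nat_lit 627), (nat_lit 5986), (nat_lit 10455), (nat_lit 0), (nat_lit 0), (nat_lit 0), (nat_lit 0), [], Pd.none, Pd.none, (nat_lit 0), (nat_lit 1), (nat_lit 0), (nat_lit 0), (nat_lit 7), (nat_lit 0), [⟨(nat_lit 0), (nat_lit 100), (nat_lit 87), (nat_lit 95), (nat_lit 767012506)⟩], [⟨(nat_lit 1), (nat_lit 76), (nat_lit 82), (nat_lit 100), (nat_lit 703839313)⟩], [], [],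
 ⟨⟨[(nat_lit 40), (nat_lit 80), (nat_lit 120)], [(nat_lit 0), (nat_lit 0), (nat_lit 2151)], [((nat_lit 0), (nat_lit 0), (nat_lit 0)), ((nat_lit 0), (nat_lit 0), (nat_lit 0)), ((nat_lit 1000), (nat_lit 815), (nat_lit 753))], ((nat_lit 80), (nat_lit 100), (nat_lit 63))⟩, (nat_lit 0), (nat_lit 78), (nat_lit 78), (nat_lit 0), (nat_lit 0), [(nat_lit 2479971422), (nat_lit 4688000166), (nat_lit 7968000000)], [], [(nat_lit 23174349595), (nat_lit 24838387716), (nat_lit 23157200040), (nat_lit 24776988626), (nat_lit 27102794562), (nat_lit 28758517544), (nat_lit 26979389728), (nat_lit 28532467552)], (nat_lit 0), (nat_lit 0), (nat_lit 0), (nat_lit 0), (nat_lit 0), (nat_lit 0), [], [(nat_lit 4), (nat_lit 51), (nat_lit 238), (nat_lit 30), (nat_lit 7)]⟩,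
 ⟨⟨[(nat_lit 60), (nat_lit 100), (nat_lit 140)], [(nat_lit 0), (nat_lit 0), (nat_lit 2047)], [((nat_lit 0), (nat_lit 0), (nat_lit 0)), ((nat_lit 0), (nat_lit 0), (nat_lit 0)), ((nat_lit 1000), (nat_lit 993), (nat_lit 781))], ((nat_lit 95), (nat_lit 100), (nat_lit 65))⟩, (nat_lit 3667324), (nat_lit 357), (nat_lit 357), (nat_lit 0), (nat_lit 321904), [(nat_lit 3282000000), (nat_lit 6250000000), (nat_lit 9842000000)], [], [(nat_lit 22740326360), (nat_lit 27840394220), (nat_lit 22448250927), (nat_lit 27393224800), (nat_lit 16560045120), (nat_lit 18223008147), (nat_lit 18481345510), (nat_lit 17879977982)], (nat_lit 1271251), (nat_lit 1271251), (nat_lit 631250), (nat_lit 780000), (nat_lit 0), (nat_lit 1100000), [(nat_lit 780000), (nat_lit 1435001), (nat_lit 1271251)], [(nat_lit 11), (nat_lit 55), (nat_lit 289), (nat_lit 75), (nat_lit 8)]⟩,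
 Rw.none⟩) (.stt (nat_lit 2) (.leaf ⟨(nat_lit 0), (nat_lit 1000), (nat_lit 0), (nat_lit 0), (nat_lit 2810), (nat_lit 5986), (nat_lit 4900), (nat_lit 0), (nat_lit 0), (nat_lit 0), (nat_lit 0), [], Pd.none, Pd.none, (nat_lit 0), (nat_lit 1), (nat_lit 0), (nat_lit 0), (nat_lit 7), (nat_lit 0), [⟨(nat_lit 0), (nat_lit 100), (nat_lit 87), (nat_lit 95), (nat_lit 156473265)⟩], [⟨(nat_lit 1), (nat_lit 76), (nat_lit 82), (nat_lit 100), (nat_lit 49191345)⟩], [], [⟨(nat_lit 2), (nat_lit 97), (nat_lit 94), (nat_lit 100), (nat_lit 506506857)⟩],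
 ⟨⟨[(nat_lit 40), (nat_lit 80), (nat_lit 120)], [(nat_lit 0), (nat_lit 0), (nat_lit 2151)], [((nat_lit 0), (nat_lit 0), (nat_lit 0)), ((nat_lit 0), (nat_lit 0), (nat_lit 0)), ((nat_lit 1000), (nat_lit 815), (nat_lit 753))], ((nat_lit 80), (nat_lit 100), (nat_lit 63))⟩, (nat_lit 0), (nat_lit 78), (nat_lit 78), (nat_lit 0), (nat_lit 0), [(nat_lit 2375870902), (nat_lit 4688000002), (nat_lit 7968000000)], [], [(nat_lit 23174349431), (nat_lit 24838387552), (nat_lit 23157199876), (nat_lit 24776988462), (nat_lit 27102794398), (nat_lit 28758517544), (nat_lit 26979389564), (nat_lit 28532467552)], (nat_lit 0), (nat_lit 0), (nat_lit 0), (nat_lit 0), (nat_lit 0), (nat_lit 0), [], [(nat_lit 4), (nat_lit 51), (nat_lit 238), (nat_lit 30), (nat_lit 7)]⟩,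
 ⟨⟨[(nat_lit 60), (nat_lit 100), (nat_lit 140)], [(nat_lit 0), (nat_lit 0), (nat_lit 2047)], [((nat_lit 0), (nat_lit 0), (nat_lit 0)), ((nat_lit 0), (nat_lit 0), (nat_lit 0)), ((nat_lit 1000), (nat_lit 993), (nat_lit 781))], ((nat_lit 95), (nat_lit 100), (nat_lit 65))⟩, (nat_lit 0), (nat_lit 83), (nat_lit 83), (nat_lit 0), (nat_lit 0), [(nat_lit 3282000000), (nat_lit 6250000000), (nat_lit 9842000000)], [], [(nat_lit 12872944250), (nat_lit 16367636400), (nat_lit 13195922500), (nat_lit 16591102000), (nat_lit 23525138500), (nat_lit 25924004775), (nat_lit 23510344750), (nat_lit 25849447950)], (nat_lit 0), (nat_lit 0), (nat_lit 0), (nat_lit 0), (nat_lit 0), (nat_lit 0), [], [(nat_lit 11), (nat_lit 55), (nat_lit 345), (nat_lit 125), (nat_lit 9)]⟩,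
 Rw.none⟩) (.leaf ⟨(nat_lit 166), (nat_lit 742), (nat_lit 0), (nat_lit 92), (nat_lit 0), (nat_lit 5036), (nat_lit 10865), (nat_lit 1044), (nat_lit 0), (nat_lit 0), (nat_lit 664000), [((nat_lit 340), [((nat_lit 37), (nat_lit 5), (nat_lit 166))])], ⟨(nat_lit 7), false, false, false, (nat_lit 184), (nat_lit 3872), (nat_lit 4473), [(nat_lit 1416230), (nat_lit 1425778), (nat_lit 1459327), (nat_lit 1469330), (nat_lit 1450223), (nat_lit 1458043), (nat_lit 1493321), (nat_lit 1501595)]⟩, ⟨(nat_lit 7), false, false, true, (nat_lit 247), (nat_lit 3872), (nat_lit 4473), [(nat_lit 1549689), (nat_lit 1541869), (nat_lit 1592822), (nat_lit 1585455), (nat_lit 1651656), (nat_lit 1638651), (nat_lit 1694789), (nat_lit 1682237)]⟩, (nat_lit 5075056), (nat_lit 40046063), (nat_lit 10350541), (nat_lit 16603396), (nat_lit 7), (nat_lit 0), [⟨(nat_lit 0), (nat_lit 92), (nat_lit 81), (nat_lit 100), (nat_lit 888318959)⟩], [⟨(nat_lit 1), (nat_lit 89), (nat_lit 80), (nat_lit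 100), (nat_lit 47171012)⟩], [], [⟨(nat_lit 2), (nat_lit 97), (nat_lit 94), (nat_lit 100), (nat_lit 397160573)⟩],
 ⟨⟨[(nat_lit 40), (nat_lit 80), (nat_lit 120)], [(nat_lit 0), (nat_lit 0), (nat_lit 2151)], [((nat_lit 0), (nat_lit 0), (nat_lit 0)), ((nat_lit 0), (nat_lit 0), (nat_lit 0)), ((nat_lit 1000), (nat_lit 815), (nat_lit 753))], ((nat_lit 80), (nat_lit 100), (nat_lit 63))⟩, (nat_lit 0), (nat_lit 78), (nat_lit 78), (nat_lit 0), (nat_lit 0), [(nat_lit 2481765991), (nat_lit 3110055346), (nat_lit 3357289162)], [(nat_lit 0), (nat_lit 0), (nat_lit 0)], [(nat_lit 22087244600), (nat_lit 23641992080), (nat_lit 22140696670), (nat_lit 23614663890), (nat_lit 26071581061), (nat_lit 27572767800), (nat_lit 25983298538), (nat_lit 27447774652)], (nat_lit 0), (nat_lit 0), (nat_lit 0), (nat_lit 0), (nat_lit 0), (nat_lit 0), [], [(nat_lit 4), (nat_lit 51), (nat_lit 238), (nat_lit 30), (nat_lit 7)]⟩,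
 ⟨⟨[(nat_lit 60), (nat_lit 100), (nat_lit 140)], [(nat_lit 0), (nat_lit 0), (nat_lit 2047)], [((nat_lit 0), (nat_lit 0), (nat_lit 0)), ((nat_lit 0), (nat_lit 0), (nat_lit 0)), ((nat_lit 1000), (nat_lit 993), (nat_lit 781))], ((nat_lit 95), (nat_lit 100), (nat_lit 65))⟩, (nat_lit 1012572), (nat_lit 232), (nat_lit 232), (nat_lit 0), (nat_lit 321904), [(nat_lit 2737188000), (nat_lit 5212500000), (nat_lit 8208228000)], [], [(nat_lit 14461735577), (nat_lit 18221991169), (nat_lit 14142513310), (nat_lit 17777643282), (nat_lit 25444085411), (nat_lit 28975995696), (nat_lit 24807453090), (nat_lit 28229710368)], (nat_lit 1271251), (nat_lit 1271251), (nat_lit 631250), (nat_lit 780000), (nat_lit 1100000), (nat_lit 2641251), [(nat_lit 780000), (nat_lit 1435001), (nat_lit 1271251)], [(nat_lit 11), (nat_lit 55), (nat_lit 345), (nat_lit 125), (nat_lit 9)]⟩,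
 ⟨⟨[(nat_lit 140), (nat_lit 180), (nat_lit 200)], [(nat_lit 0), (nat_lit 0), (nat_lit 2835)], [((nat_lit 0), (nat_lit 0), (nat_lit 0)), ((nat_lit 0), (nat_lit 0), (nat_lit 0)), ((nat_lit 363), (nat_lit 1000), (nat_lit 798))], ((nat_lit 0), (nat_lit 0), (nat_lit 0))⟩, (nat_lit 25312), (nat_lit 300), (nat_lit 2156), (nat_lit 7185203), (nat_lit 3888376), [(nat_lit 905464000), (nat_lit 1293336000), (nat_lit 1508800000)], [], [(nat_lit 5645349091), (nat_lit 5501944304), (nat_lit 5483725832), (nat_lit 5340291858), (nat_lit 5135202736), (nat_lit 4969525354), (nat_lit 5033397817), (nat_lit 4858045441)], (nat_lit 780000), (nat_lit 1100000), (nat_lit 1271251), (nat_lit 1271251), (nat_lit 1100000), (nat_lit 2641251), [(nat_lit 1977501), (nat_lit 1271251), (nat_lit 1271251)], [(nat_lit 32), (nat_lit 67), (nat_lit 644), (nat_lit 225), (nat_lit 13)]⟩⟩))))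
noncomputable def c11_39 : Tr Lf :=
 (.spl (nat_lit 5) (nat_lit 120) (.spl (nat_lit 1) (nat_lit 260) (.spl (nat_lit 6) (nat_lit 12) (.leaf ⟨(nat_lit 653), (nat_lit 160), (nat_lit 0), (nat_lit 187), (nat_lit 0), (nat_lit 3701), (nat_lit 5923), (nat_lit 2721), (nat_lit 0), (nat_lit 0), (nat_lit 1271000), [((nat_lit 340), [((nat_lit 18), (nat_lit 2), (nat_lit 447)), ((nat_lit 37), (nat_lit 5), (nat_lit 206))])], ⟨(nat_lit 6), false, false, false, (nat_lit 149), (nat_lit 3872), (nat_lit 4473), [(nat_lit 1305146), (nat_lit 1317698), (nat_lit 1326695), (nat_lit 1339474), (nat_lit 1407125), (nat_lit 1414492), (nat_lit 1428674), (nat_lit 1436268)]⟩, ⟨(nat_lit 7), false, false, true, (nat_lit 247), (nat_lit 3872), (nat_lit 4473), [(nat_lit 1549689), (nat_lit 1541869), (nat_lit 1592822), (nat_lit 1585455), (nat_lit 1651656), (nat_lit 1638651), (nat_lit 1694789), (nat_lit 1682237)]⟩, (nat_lit 4767051), (nat_lit 42138623), (nat_lit 7691355), (nat_lit 17170022),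 (nat_lit 7), (nat_lit 0), [⟨(nat_lit 0), (nat_lit 100), (nat_lit 82), (nat_lit 76), (nat_lit 976303645)⟩], [⟨(nat_lit 1), (nat_lit 89), (nat_lit 80), (nat_lit 100), (nat_lit 189146763)⟩], [], [],
 ⟨⟨[(nat_lit 40), (nat_lit 60), (nat_lit 80)], [(nat_lit 0), (nat_lit 0), (nat_lit 615)], [((nat_lit 0), (nat_lit 0), (nat_lit 0)), ((nat_lit 0), (nat_lit 0), (nat_lit 0)), ((nat_lit 1000), (nat_lit 819), (nat_lit 426))], ((nat_lit 84), (nat_lit 100), (nat_lit 36))⟩, (nat_lit 0), (nat_lit 138), (nat_lit 138), (nat_lit 0), (nat_lit 176527), [(nat_lit 1891412597), (nat_lit 1726979615), (nat_lit 1165029385)], [(nat_lit 0), (nat_lit 0), (nat_lit 0)], [(nat_lit 22007001730), (nat_lit 23229239329), (nat_lit 22071623104), (nat_lit 23224988224), (nat_lit 25253173382), (nat_lit 26580260935), (nat_lit 25026803034), (nat_lit 26097794083)], (nat_lit 1271251), (nat_lit 1271251), (nat_lit 356250), (nat_lit 780000), (nat_lit 1271251), (nat_lit 1271251), [(nat_lit 490000),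 (nat_lit 780000), (nat_lit 1100000)], [(nat_lit 2), (nat_lit 44), (nat_lit 238), (nat_lit 30), (nat_lit 9)]⟩,
 ⟨⟨[(nat_lit 80), (nat_lit 100), (nat_lit 120)], [(nat_lit 0), (nat_lit 0), (nat_lit 511)], [((nat_lit 0), (nat_lit 0), (nat_lit 0)), ((nat_lit 0), (nat_lit 0), (nat_lit 0)), ((nat_lit 1000), (nat_lit 997), (nat_lit 383))], ((nat_lit 99), (nat_lit 100), (nat_lit 34))⟩, (nat_lit 0), (nat_lit 267), (nat_lit 267), (nat_lit 0), (nat_lit 245046), [(nat_lit 1626736000), (nat_lit 2168750000), (nat_lit 2764896000)], [], [(nat_lit 11521832986), (nat_lit 9332834860), (nat_lit 5638014126), (nat_lit 7121147247), (nat_lit 5786551740), (nat_lit 3677897087), (nat_lit 7903055083), (nat_lit 5129727313)], (nat_lit 1271251), (nat_lit 1271251), (nat_lit 356250), (nat_lit 780000), (nat_lit 0), (nat_lit 780000), [(nat_lit 1100000), (nat_lit 1442501), (nat_lit 1271251)], [(nat_lit 16), (nat_lit 54), (nat_lit 272), (nat_lit 60), (nat_lit 9)]⟩,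
 ⟨⟨[(nat_lit 140), (nat_lit 160), (nat_lit 180)], [(nat_lit 0), (nat_lit 0), (nat_lit 799)], [((nat_lit 0), (nat_lit 0), (nat_lit 0)), ((nat_lit 0), (nat_lit 0), (nat_lit 0)), ((nat_lit 728), (nat_lit 1000), (nat_lit 454))], ((nat_lit 100), (nat_lit 79), (nat_lit 37))⟩, (nat_lit 164298), (nat_lit 300), (nat_lit 639), (nat_lit 13875400), (nat_lit 585850), [(nat_lit 1840454000), (nat_lit 2220064000), (nat_lit 2628846000)], [], [(nat_lit 10163631576), (nat_lit 9804579668), (nat_lit 10679732840), (nat_lit 10282111627), (nat_lit 7973416456), (nat_lit 7583288543), (nat_lit 8277083628), (nat_lit 7910233837)], (nat_lit 780000), (nat_lit 1100000), (nat_lit 1271251), (nat_lit 1271251), (nat_lit 0), (nat_lit 780000), [(nat_lit 1977501), (nat_lit 1271251), (nat_lit 1271251)], [(nat_lit 31), (nat_lit 65), (nat_lit 401), (nat_lit 175), (nat_lit 9)]⟩⟩) (.spl (nat_lit 2) (nat_lit 140) (.trX (nat_lit 4) (nat_lit 0) (nat_lit 2) (nat_lit 84) (nat_lit 85) (nat_lit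 100) (nat_lit 320) (.leaf ⟨(nat_lit 908), (nat_lit 0), (nat_lit 0), (nat_lit 92), (nat_lit 2576), (nat_lit 3775), (nat_lit 1441), (nat_lit 1330), (nat_lit 0), (nat_lit 0), (nat_lit 666800), [((nat_lit 340), [((nat_lit 37), (nat_lit 2), (nat_lit 603)), ((nat_lit 18), (nat_lit 2), (nat_lit 305))])], ⟨(nat_lit 6), false, false, false, (nat_lit 149), (nat_lit 3872), (nat_lit 4473), [(nat_lit 1305146), (nat_lit 1317698), (nat_lit 1326695), (nat_lit 1339474), (nat_lit 1407125), (nat_lit 1414492), (nat_lit 1428674), (nat_lit 1436268)]⟩, ⟨(nat_lit 7), false, false, true, (nat_lit 236), (nat_lit 3872), (nat_lit 4473), [(nat_lit 1549689), (nat_lit 1541869), (nat_lit 1571255), (nat_lit 1563662), (nat_lit 1617667), (nat_lit 1606390), (nat_lit 1639234), (nat_lit 1628183)]⟩, (nat_lit 4704779), (nat_lit 43057658), (nat_lit 7788638), (nat_lit 16153704), (nat_lit 0), (nat_lit 0), [⟨(nat_lit 0), (nat_lit 100), (nat_lit 78), (nat_lit 85), (nat_lit 218588693)⟩], [⟨(nat_lit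 1), (nat_lit 93), (nat_lit 81), (nat_lit 100), (nat_lit 173692165)⟩], [], [],
 ⟨⟨[(nat_lit 40), (nat_lit 80), (nat_lit 100)], [(nat_lit 0), (nat_lit 0), (nat_lit 1280)], [((nat_lit 0), (nat_lit 0), (nat_lit 0)), ((nat_lit 0), (nat_lit 0), (nat_lit 0)), ((nat_lit 1000), (nat_lit 800), (nat_lit 600))], ((nat_lit 81), (nat_lit 100), (nat_lit 48))⟩, (nat_lit 0), (nat_lit 139), (nat_lit 139), (nat_lit 0), (nat_lit 118347), [(nat_lit 1509582412), (nat_lit 1836716836), (nat_lit 1132550400)], [(nat_lit 0), (nat_lit 0), (nat_lit 0)], [(nat_lit 22025381550), (nat_lit 23287421650), (nat_lit 21791102635), (nat_lit 22977138025), (nat_lit 23944903825), (nat_lit 25360046550), (nat_lit 23597786400), (nat_lit 24742228013)], (nat_lit 1271251), (nat_lit 1271251), (nat_lit 356250), (nat_lit 780000), (nat_lit 1271251), (nat_lit 1271251), [(nat_lit 490000), (nat_lit 1100000), (nat_lit 1442501)], [(nat_lit 3), (nat_lit 50), (nat_lit 238), (nat_lit 30), (nat_lit 8)]⟩,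
 ⟨⟨[(nat_lit 80), (nat_lit 120), (nat_lit 140)], [(nat_lit 0), (nat_lit 0), (nat_lit 1164)], [((nat_lit 0), (nat_lit 0), (nat_lit 0)), ((nat_lit 0), (nat_lit 0), (nat_lit 0)), ((nat_lit 941), (nat_lit 1000), (nat_lit 576))], ((nat_lit 100), (nat_lit 98), (nat_lit 48))⟩, (nat_lit 0), (nat_lit 313), (nat_lit 313), (nat_lit 0), (nat_lit 165633), [(nat_lit 431296000), (nat_lit 733056000), (nat_lit 905464000)], [], [(nat_lit 3233520982), (nat_lit 3021148740), (nat_lit 3346265154), (nat_lit 2662455176), (nat_lit 3479360219), (nat_lit 2809185523), (nat_lit 4062726036), (nat_lit 3405699565)], (nat_lit 1271251), (nat_lit 1271251), (nat_lit 356250), (nat_lit 780000), (nat_lit 0), (nat_lit 780000), [(nat_lit 1100000), (nat_lit 1785001), (nat_lit 1271251)], [(nat_lit 17), (nat_lit 58), (nat_lit 345), (nat_lit 125), (nat_lit 10)]⟩,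
 ⟨⟨[(nat_lit 140), (nat_lit 160), (nat_lit 180)], [(nat_lit 0), (nat_lit 0), (nat_lit 799)], [((nat_lit 0), (nat_lit 0), (nat_lit 0)), ((nat_lit 0), (nat_lit 0), (nat_lit 0)), ((nat_lit 728), (nat_lit 1000), (nat_lit 454))], ((nat_lit 100), (nat_lit 67), (nat_lit 52))⟩, (nat_lit 80831), (nat_lit 300), (nat_lit 567), (nat_lit 6826401), (nat_lit 414672), [(nat_lit 905464000), (nat_lit 1092224000), (nat_lit 1293336000)], [], [(nat_lit 5012534948), (nat_lit 4912097840), (nat_lit 5134166336), (nat_lit 5041434296), (nat_lit 3942883970), (nat_lit 3847719696), (nat_lit 3974606132), (nat_lit 3889036428)], (nat_lit 780000), (nat_lit 936250), (nat_lit 1271251), (nat_lit 1271251), (nat_lit 0), (nat_lit 780000), [(nat_lit 1977501), (nat_lit 1271251), (nat_lit 1271251)], [(nat_lit 31), (nat_lit 65), (nat_lit 373), (nat_lit 150), (nat_lit 9)]⟩⟩)) (.leaf ⟨(nat_lit 549), (nat_lit 0), (nat_lit 0), (nat_lit 451), (nat_lit 2579), (nat_lit 4239), (nat_lit 10635), (nat_lit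 5437), (nat_lit 0), (nat_lit 0), (nat_lit 822000), [((nat_lit 340), [((nat_lit 18), (nat_lit 2), (nat_lit 458)), ((nat_lit 37), (nat_lit 5), (nat_lit 91))])], ⟨(nat_lit 6), false, false, false, (nat_lit 149), (nat_lit 3872), (nat_lit 4473), [(nat_lit 1305146), (nat_lit 1317698), (nat_lit 1326695), (nat_lit 1339474), (nat_lit 1407125), (nat_lit 1414492), (nat_lit 1428674), (nat_lit 1436268)]⟩, ⟨(nat_lit 7), false, false, true, (nat_lit 251), (nat_lit 3872), (nat_lit 4473), [(nat_lit 1571255), (nat_lit 1563662), (nat_lit 1592822), (nat_lit 1585455), (nat_lit 1673223), (nat_lit 1660444), (nat_lit 1694789), (nat_lit 1682237)]⟩, (nat_lit 4789600), (nat_lit 41776634), (nat_lit 7651607), (nat_lit 17571759), (nat_lit 0), (nat_lit 0), [⟨(nat_lit 0), (nat_lit 100), (nat_lit 78), (nat_lit 85), (nat_lit 713354059)⟩], [], [], [],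
 ⟨⟨[(nat_lit 40), (nat_lit 80), (nat_lit 100)], [(nat_lit 0), (nat_lit 0), (nat_lit 1280)], [((nat_lit 0), (nat_lit 0), (nat_lit 0)), ((nat_lit 0), (nat_lit 0), (nat_lit 0)), ((nat_lit 1000), (nat_lit 800), (nat_lit 600))], ((nat_lit 81), (nat_lit 100), (nat_lit 48))⟩, (nat_lit 0), (nat_lit 141), (nat_lit 141), (nat_lit 0), (nat_lit 95822), [(nat_lit 1831975826), (nat_lit 2363746908), (nat_lit 1495627200)], [(nat_lit 0), (nat_lit 0), (nat_lit 0)], [(nat_lit 22271570254), (nat_lit 23707466573), (nat_lit 22033234751), (nat_lit 23219958488), (nat_lit 26030170198), (nat_lit 27449058742), (nat_lit 25198894725), (nat_lit 26537774398)], (nat_lit 1271251), (nat_lit 1271251), (nat_lit 356250), (nat_lit 780000), (nat_lit 1271251), (nat_lit 1271251), [(nat_lit 490000), (nat_lit 1100000), (nat_lit 1442501)], [(nat_lit 3), (nat_lit 50), (nat_lit 238), (nat_lit 30), (nat_lit 8)]⟩,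
 ⟨⟨[(nat_lit 80), (nat_lit 120), (nat_lit 140)], [(nat_lit 0), (nat_lit 0), (nat_lit 1164)], [((nat_lit 0), (nat_lit 0), (nat_lit 0)), ((nat_lit 0), (nat_lit 0), (nat_lit 0)), ((nat_lit 941), (nat_lit 1000), (nat_lit 576))], ((nat_lit 100), (nat_lit 98), (nat_lit 48))⟩, (nat_lit 0), (nat_lit 299), (nat_lit 299), (nat_lit 0), (nat_lit 133976), [(nat_lit 2114288000), (nat_lit 3593568000), (nat_lit 4438742000)], [], [(nat_lit 15671384010), (nat_lit 16483222438), (nat_lit 14302709402), (nat_lit 13014336830), (nat_lit 14960108560), (nat_lit 10014023971), (nat_lit 18879080672), (nat_lit 14030033811)], (nat_lit 1271251), (nat_lit 1271251), (nat_lit 356250), (nat_lit 780000), (nat_lit 0), (nat_lit 780000), [(nat_lit 1100000), (nat_lit 1785001), (nat_lit 1271251)], [(nat_lit 17), (nat_lit 58), (nat_lit 345), (nat_lit 125), (nat_lit 10)]⟩,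
 ⟨⟨[(nat_lit 140), (nat_lit 160), (nat_lit 180)], [(nat_lit 0), (nat_lit 304), (nat_lit 1085)], [((nat_lit 0), (nat_lit 0), (nat_lit 0)), ((nat_lit 913), (nat_lit 1000), (nat_lit 217)), ((nat_lit 759), (nat_lit 1000), (nat_lit 463))], ((nat_lit 100), (nat_lit 73), (nat_lit 50))⟩, (nat_lit 925736), (nat_lit 300), (nat_lit 474), (nat_lit 31705302), (nat_lit 279774), [(nat_lit 4438742000), (nat_lit 5354272000), (nat_lit 6340158000)], [], [(nat_lit 23596198639), (nat_lit 23272250724), (nat_lit 24707235132), (nat_lit 24337253855), (nat_lit 19331272264), (nat_lit 19000465004), (nat_lit 20064907489), (nat_lit 19724871369)], (nat_lit 936250), (nat_lit 1100000), (nat_lit 1271251), (nat_lit 1271251), (nat_lit 0), (nat_lit 780000), [(nat_lit 1977501), (nat_lit 1271251), (nat_lit 1271251)], [(nat_lit 31), (nat_lit 65), (nat_lit 401), (nat_lit 175), (nat_lit 9)]⟩⟩))) (.trZ (nat_lit 0) (nat_lit 1) (nat_lit 3) (nat_lit 100) (nat_lit 84) (nat_lit 85) (nat_lit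 80) (.leaf ⟨(nat_lit 0), (nat_lit 647), (nat_lit 0), (nat_lit 353), (nat_lit 0), (nat_lit 6482), (nat_lit 10330), (nat_lit 4649), (nat_lit 0), (nat_lit 0), (nat_lit 0), [], Pd.none, Pd.none, (nat_lit 0), (nat_lit 1), (nat_lit 0), (nat_lit 0), (nat_lit 7), (nat_lit 0), [⟨(nat_lit 0), (nat_lit 100), (nat_lit 81), (nat_lit 93), (nat_lit 861329424)⟩], [⟨(nat_lit 1), (nat_lit 89), (nat_lit 80), (nat_lit 100), (nat_lit 219861711)⟩], [⟨(nat_lit 0), (nat_lit 100), (nat_lit 98), (nat_lit 6), (nat_lit 201900)⟩], [⟨(nat_lit 0), (nat_lit 96), (nat_lit 100), (nat_lit 7), (nat_lit 96021294)⟩],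
 ⟨⟨[(nat_lit 40), (nat_lit 80), (nat_lit 100)], [(nat_lit 0), (nat_lit 0), (nat_lit 1280)], [((nat_lit 0), (nat_lit 0), (nat_lit 0)), ((nat_lit 0), (nat_lit 0), (nat_lit 0)), ((nat_lit 1000), (nat_lit 800), (nat_lit 600))], ((nat_lit 81), (nat_lit 100), (nat_lit 48))⟩, (nat_lit 1412181), (nat_lit 159), (nat_lit 159), (nat_lit 0), (nat_lit 210380), [(nat_lit 2555742152), (nat_lit 4688000241), (nat_lit 6250000000)], [], [(nat_lit 24461077209), (nat_lit 25867188916), (nat_lit 24312770489), (nat_lit 25645739525), (nat_lit 27874883208), (nat_lit 29656416027), (nat_lit 27424311035), (nat_lit 29098791424)], (nat_lit 1271251), (nat_lit 1271251), (nat_lit 490000), (nat_lit 780000), (nat_lit 1271251), (nat_lit 1271251), [(nat_lit 490000), (nat_lit 1100000), (nat_lit 1442501)], [(nat_lit 3), (nat_lit 50), (nat_lit 238), (nat_lit 30), (nat_lit 8)]⟩,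
 ⟨⟨[(nat_lit 80), (nat_lit 100), (nat_lit 120)], [(nat_lit 0), (nat_lit 265), (nat_lit 768)], [((nat_lit 0), (nat_lit 0), (nat_lit 0)), ((nat_lit 1000), (nat_lit 959), (nat_lit 206)), ((nat_lit 1000), (nat_lit 958), (nat_lit 392))], ((nat_lit 97), (nat_lit 100), (nat_lit 48))⟩, (nat_lit 5156971), (nat_lit 268), (nat_lit 268), (nat_lit 0), (nat_lit 267793), [(nat_lit 4688000000), (nat_lit 6250000000), (nat_lit 7968000000)], [], [(nat_lit 17556151072), (nat_lit 20269891352), (nat_lit 17416840085), (nat_lit 19967108652), (nat_lit 19601992765), (nat_lit 14700010060), (nat_lit 23005991578), (nat_lit 18169173095)], (nat_lit 1271251), (nat_lit 1271251), (nat_lit 490000), (nat_lit 780000), (nat_lit 0), (nat_lit 780000), [(nat_lit 1100000), (nat_lit 1442501), (nat_lit 1271251)], [(nat_lit 16), (nat_lit 54), (nat_lit 272), (nat_lit 60), (nat_lit 9)]⟩,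
 ⟨⟨[(nat_lit 140), (nat_lit 160), (nat_lit 180)], [(nat_lit 0), (nat_lit 0), (nat_lit 799)], [((nat_lit 0), (nat_lit 0), (nat_lit 0)), ((nat_lit 0), (nat_lit 0), (nat_lit 0)), ((nat_lit 728), (nat_lit 1000), (nat_lit 454))], ((nat_lit 100), (nat_lit 67), (nat_lit 52))⟩, (nat_lit 310145), (nat_lit 300), (nat_lit 690), (nat_lit 26192601), (nat_lit 706237), [(nat_lit 3474226000), (nat_lit 4190816000), (nat_lit 4962474000)], [], [(nat_lit 19874018284), (nat_lit 19191543484), (nat_lit 20139961920), (nat_lit 19484227123), (nat_lit 16182823154), (nat_lit 15536631607), (nat_lit 16390152356), (nat_lit 15703424274)], (nat_lit 780000), (nat_lit 1100000), (nat_lit 1271251), (nat_lit 1271251), (nat_lit 0), (nat_lit 780000), [(nat_lit 1977501), (nat_lit 1271251), (nat_lit 1271251)], [(nat_lit 31), (nat_lit 65), (nat_lit 401), (nat_lit 175), (nat_lit 9)]⟩⟩))) (.stt (nat_lit 2) (.leaf ⟨(nat_lit 237), (nat_lit 623), (nat_lit 0), (nat_lit 140), (nat_lit 0), (nat_lit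 5064), (nat_lit 8084), (nat_lit 1528), (nat_lit 0), (nat_lit 0), (nat_lit 948000), [((nat_lit 340), [((nat_lit 37), (nat_lit 5), (nat_lit 237))])], ⟨(nat_lit 6), true, false, false, (nat_lit 153), (nat_lit 3872), (nat_lit 4473), [(nat_lit 1305146), (nat_lit 1317698), (nat_lit 1348244), (nat_lit 1361249), (nat_lit 1407125), (nat_lit 1414492), (nat_lit 1450223), (nat_lit 1458043)]⟩, ⟨(nat_lit 7), false, false, true, (nat_lit 247), (nat_lit 3872), (nat_lit 4473), [(nat_lit 1549689), (nat_lit 1541869), (nat_lit 1592822), (nat_lit 1585455), (nat_lit 1651656), (nat_lit 1638651), (nat_lit 1694789), (nat_lit 1682237)]⟩, (nat_lit 4808996), (nat_lit 41883563), (nat_lit 8012399), (nat_lit 17104038), (nat_lit 7), (nat_lit 0), [⟨(nat_lit 0), (nat_lit 100), (nat_lit 80), (nat_lit 89), (nat_lit 663233366)⟩], [⟨(nat_lit 1), (nat_lit 89), (nat_lit 80), (nat_lit 100), (nat_lit 218256254)⟩], [], [⟨(nat_lit 2), (nat_lit 100), (nat_lit 91), (nat_lit 91), (nat_lit 233369063)⟩],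
 ⟨⟨[(nat_lit 40), (nat_lit 80), (nat_lit 100)], [(nat_lit 0), (nat_lit 0), (nat_lit 1280)], [((nat_lit 0), (nat_lit 0), (nat_lit 0)), ((nat_lit 0), (nat_lit 0), (nat_lit 0)), ((nat_lit 1000), (nat_lit 800), (nat_lit 600))], ((nat_lit 81), (nat_lit 100), (nat_lit 48))⟩, (nat_lit 0), (nat_lit 173), (nat_lit 173), (nat_lit 0), (nat_lit 210483), [(nat_lit 2383359420), (nat_lit 2565438198), (nat_lit 1851469600)], [(nat_lit 0), (nat_lit 0), (nat_lit 0)], [(nat_lit 22858722608), (nat_lit 24703693157), (nat_lit 22182419784), (nat_lit 23636141360), (nat_lit 27221661598), (nat_lit 28781323037), (nat_lit 26010856012), (nat_lit 27479744548)], (nat_lit 1271251), (nat_lit 1271251), (nat_lit 356250), (nat_lit 780000), (nat_lit 1271251), (nat_lit 1271251), [(nat_lit 490000), (nat_lit 1100000), (nat_lit 1442501)], [(nat_lit 3), (nat_lit 50), (nat_lit 238), (nat_lit 30), (nat_lit 8)]⟩,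
 ⟨⟨[(nat_lit 80), (nat_lit 120), (nat_lit 140)], [(nat_lit 0), (nat_lit 0), (nat_lit 1164)], [((nat_lit 0), (nat_lit 0), (nat_lit 0)), ((nat_lit 0), (nat_lit 0), (nat_lit 0)), ((nat_lit 941), (nat_lit 1000), (nat_lit 576))], ((nat_lit 100), (nat_lit 98), (nat_lit 48))⟩, (nat_lit 2659023), (nat_lit 144), (nat_lit 144), (nat_lit 0), (nat_lit 0), [(nat_lit 3576944000), (nat_lit 6079584000), (nat_lit 7509446000)], [], [(nat_lit 12093156465), (nat_lit 15428799922), (nat_lit 10564848803), (nat_lit 13650948238), (nat_lit 21676504172), (nat_lit 23944970670), (nat_lit 19404893955), (nat_lit 21271970671)], (nat_lit 0), (nat_lit 0), (nat_lit 0), (nat_lit 0), (nat_lit 0), (nat_lit 0), [], [(nat_lit 17), (nat_lit 58), (nat_lit 428), (nat_lit 200), (nat_lit 12)]⟩,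
 ⟨⟨[(nat_lit 140), (nat_lit 160), (nat_lit 180)], [(nat_lit 0), (nat_lit 0), (nat_lit 799)], [((nat_lit 0), (nat_lit 0), (nat_lit 0)), ((nat_lit 0), (nat_lit 0), (nat_lit 0)), ((nat_lit 728), (nat_lit 1000), (nat_lit 454))], ((nat_lit 100), (nat_lit 67), (nat_lit 52))⟩, (nat_lit 123004), (nat_lit 300), (nat_lit 1399), (nat_lit 10388000), (nat_lit 2436825), [(nat_lit 1377880000), (nat_lit 1662080000), (nat_lit 1968120000)], [], [(nat_lit 7694330684), (nat_lit 7467735932), (nat_lit 7552692232), (nat_lit 7322843680), (nat_lit 6843480800), (nat_lit 6611263004), (nat_lit 6751864758), (nat_lit 6515687937)], (nat_lit 780000), (nat_lit 1100000), (nat_lit 1271251), (nat_lit 1271251), (nat_lit 780000), (nat_lit 2581251), [(nat_lit 1977501), (nat_lit 1271251), (nat_lit 1271251)], [(nat_lit 31), (nat_lit 65), (nat_lit 456), (nat_lit 225), (nat_lit 10)]⟩⟩) (.leaf ⟨(nat_lit 0), (nat_lit 0), (nat_lit 0), (nat_lit 1000), (nat_lit 0), (nat_lit 6519), (nat_lit 7566),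 (nat_lit 15185), (nat_lit 0), (nat_lit 0), (nat_lit 0), [], Pd.none, Pd.none, (nat_lit 0), (nat_lit 1), (nat_lit 0), (nat_lit 0), (nat_lit 0), (nat_lit 0), [⟨(nat_lit 0), (nat_lit 100), (nat_lit 80), (nat_lit 89), (nat_lit 2140559296)⟩], [⟨(nat_lit 1), (nat_lit 89), (nat_lit 80), (nat_lit 100), (nat_lit 1534840996)⟩], [], [],
 ⟨⟨[(nat_lit 40), (nat_lit 80), (nat_lit 100)], [(nat_lit 0), (nat_lit 0), (nat_lit 1280)], [((nat_lit 0), (nat_lit 0), (nat_lit 0)), ((nat_lit 0), (nat_lit 0), (nat_lit 0)), ((nat_lit 1000), (nat_lit 800), (nat_lit 600))], ((nat_lit 81), (nat_lit 100), (nat_lit 48))⟩, (nat_lit 3422127), (nat_lit 173), (nat_lit 173), (nat_lit 0), (nat_lit 210483), [(nat_lit 2611623695), (nat_lit 4688000005), (nat_lit 6250000000)], [], [(nat_lit 24785618520), (nat_lit 26460674588), (nat_lit 23813624243), (nat_lit 25247164391), (nat_lit 29323019158), (nat_lit 31130952795), (nat_lit 27442860465), (nat_lit 29141037358)], (nat_lit 1271251), (nat_lit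 1271251), (nat_lit 356250), (nat_lit 780000), (nat_lit 1271251), (nat_lit 1271251), [(nat_lit 490000), (nat_lit 1100000), (nat_lit 1442501)], [(nat_lit 3), (nat_lit 50), (nat_lit 238), (nat_lit 30), (nat_lit 8)]⟩,
 ⟨⟨[(nat_lit 80), (nat_lit 120), (nat_lit 140)], [(nat_lit 0), (nat_lit 0), (nat_lit 1164)], [((nat_lit 0), (nat_lit 0), (nat_lit 0)), ((nat_lit 0), (nat_lit 0), (nat_lit 0)), ((nat_lit 941), (nat_lit 1000), (nat_lit 576))], ((nat_lit 100), (nat_lit 98), (nat_lit 48))⟩, (nat_lit 5394779), (nat_lit 249), (nat_lit 249), (nat_lit 0), (nat_lit 272392), [(nat_lit 4688000000), (nat_lit 7968000000), (nat_lit 9842000000)], [], [(nat_lit 36997585789), (nat_lit 29113567894), (nat_lit 25142064986), (nat_lit 27218884524), (nat_lit 40185422132), (nat_lit 34564282345), (nat_lit 44333625755), (nat_lit 37567312234)], (nat_lit 1271251), (nat_lit 1271251), (nat_lit 356250), (nat_lit 780000), (nat_lit 780000), (nat_lit 2581251), [(nat_lit 1100000), (nat_lit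 1785001), (nat_lit 1271251)], [(nat_lit 17), (nat_lit 58), (nat_lit 428), (nat_lit 200), (nat_lit 12)]⟩,
 ⟨⟨[(nat_lit 140), (nat_lit 160), (nat_lit 180)], [(nat_lit 0), (nat_lit 0), (nat_lit 799)], [((nat_lit 0), (nat_lit 0), (nat_lit 0)), ((nat_lit 0), (nat_lit 0), (nat_lit 0)), ((nat_lit 728), (nat_lit 1000), (nat_lit 454))], ((nat_lit 100), (nat_lit 67), (nat_lit 52))⟩, (nat_lit 1779313), (nat_lit 300), (nat_lit 596), (nat_lit 74200000), (nat_lit 706280), [(nat_lit 9842000000), (nat_lit 11872000000), (nat_lit 14058000000)], [], [(nat_lit 41166529285), (nat_lit 39320057240), (nat_lit 43656256535), (nat_lit 41579148845), (nat_lit 39531217713), (nat_lit 37268019240), (nat_lit 41858775121), (nat_lit 39704602800)], (nat_lit 780000), (nat_lit 1100000), (nat_lit 1271251), (nat_lit 1271251), (nat_lit 780000), (nat_lit 2581251), [(nat_lit 1977501), (nat_lit 1271251), (nat_lit 1271251)], [(nat_lit 31), (nat_lit 65), (nat_lit 456), (nat_lit 225), (nat_lit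 10)]⟩⟩)))
noncomputable def c11_40 : Tr Lf :=
 (.spl (nat_lit 5) (nat_lit 120) (.spl (nat_lit 1) (nat_lit 260) (.spl (nat_lit 0) (nat_lit 330) (.spl (nat_lit 6) (nat_lit 36) (.leaf ⟨(nat_lit 0), (nat_lit 862), (nat_lit 0), (nat_lit 138), (nat_lit 30795), (nat_lit 5649), (nat_lit 7984), (nat_lit 1749), (nat_lit 0), (nat_lit 0), (nat_lit 0), [], Pd.none, Pd.none, (nat_lit 0), (nat_lit 1), (nat_lit 0), (nat_lit 0), (nat_lit 7), (nat_lit 0), [⟨(nat_lit 0), (nat_lit 100), (nat_lit 81), (nat_lit 83), (nat_lit 1041245460)⟩], [⟨(nat_lit 1), (nat_lit 87), (nat_lit 82), (nat_lit 100), (nat_lit 505122534)⟩], [], [],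
 ⟨⟨[(nat_lit 40), (nat_lit 80), (nat_lit 100)], [(nat_lit 0), (nat_lit 0), (nat_lit 1280)], [((nat_lit 0), (nat_lit 0), (nat_lit 0)), ((nat_lit 0), (nat_lit 0), (nat_lit 0)), ((nat_lit 1000), (nat_lit 800), (nat_lit 600))], ((nat_lit 80), (nat_lit 100), (nat_lit 57))⟩, (nat_lit 1660039), (nat_lit 120), (nat_lit 120), (nat_lit 0), (nat_lit 35657), [(nat_lit 2425159344), (nat_lit 4688000038), (nat_lit 6250000000)], [], [(nat_lit 24545894394), (nat_lit 25326744492), (nat_lit 23630100796), (nat_lit 24360705186), (nat_lit 28230202942), (nat_lit 28896278428), (nat_lit 27079304352), (nat_lit 27734416049)], (nat_lit 1271251), (nat_lit 1271251), (nat_lit 356250), (nat_lit 780000), (nat_lit 1271251), (nat_lit 1271251), [(nat_lit 490000), (nat_lit 1100000), (nat_lit 1442501)], [(nat_lit 3), (nat_lit 50), (nat_lit 238), (nat_lit 30), (nat_lit 8)]⟩,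
 ⟨⟨[(nat_lit 80), (nat_lit 120), (nat_lit 140)], [(nat_lit 0), (nat_lit 0), (nat_lit 1164)], [((nat_lit 0), (nat_lit 0), (nat_lit 0)), ((nat_lit 0), (nat_lit 0), (nat_lit 0)), ((nat_lit 941), (nat_lit 1000), (nat_lit 576))], ((nat_lit 100), (nat_lit 94), (nat_lit 58))⟩, (nat_lit 4827035), (nat_lit 243), (nat_lit 243), (nat_lit 0), (nat_lit 49178), [(nat_lit 4688000000), (nat_lit 7968000000), (nat_lit 9842000000)], [], [(nat_lit 21598995308), (nat_lit 23622213136), (nat_lit 20082907200), (nat_lit 21860705920), (nat_lit 17321551448), (nat_lit 18738429963), (nat_lit 20404973040), (nat_lit 17881969864)], (nat_lit 1271251), (nat_lit 1271251), (nat_lit 356250), (nat_lit 780000), (nat_lit 0), (nat_lit 780000), [(nat_lit 1100000), (nat_lit 1785001), (nat_lit 1271251)], [(nat_lit 17), (nat_lit 58), (nat_lit 345), (nat_lit 125), (nat_lit 10)]⟩,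
 ⟨⟨[(nat_lit 140), (nat_lit 180), (nat_lit 200)], [(nat_lit 0), (nat_lit 0), (nat_lit 2835)], [((nat_lit 0), (nat_lit 0), (nat_lit 0)), ((nat_lit 0), (nat_lit 0), (nat_lit 0)), ((nat_lit 363), (nat_lit 1000), (nat_lit 798))], ((nat_lit 0), (nat_lit 0), (nat_lit 0))⟩, (nat_lit 37968), (nat_lit 300), (nat_lit 489), (nat_lit 10777804), (nat_lit 127315), [(nat_lit 1358196000), (nat_lit 1940004000), (nat_lit 2263200000)], [], [(nat_lit 8997761104), (nat_lit 8728933858), (nat_lit 9213545131), (nat_lit 8923691590), (nat_lit 7496335777), (nat_lit 7239006325), (nat_lit 7619905702), (nat_lit 7353447295)], (nat_lit 780000), (nat_lit 1100000), (nat_lit 1271251), (nat_lit 1271251), (nat_lit 0), (nat_lit 780000), [(nat_lit 1977501), (nat_lit 1271251), (nat_lit 1271251)], [(nat_lit 32), (nat_lit 67), (nat_lit 401), (nat_lit 175), (nat_lit 9)]⟩⟩) (.dle (nat_lit 0))) (.trZ (nat_lit 0) (nat_lit 1) (nat_lit 3) (nat_lit 100) (nat_lit 78) (nat_lit 81) (nat_lit 70)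 (.trX (nat_lit 4) (nat_lit 0) (nat_lit 2) (nat_lit 78) (nat_lit 81) (nat_lit 100) (nat_lit 330) (.spl (nat_lit 6) (nat_lit 36) (.spl (nat_lit 1) (nat_lit 250) (.leaf ⟨(nat_lit 809), (nat_lit 95), (nat_lit 0), (nat_lit 96), (nat_lit 7739), (nat_lit 3781), (nat_lit 3119), (nat_lit 1216), (nat_lit 0), (nat_lit 0), (nat_lit 236550), [((nat_lit 340), [((nat_lit 18), (nat_lit 0), (nat_lit 711)), ((nat_lit 37), (nat_lit 2), (nat_lit 98))])], ⟨(nat_lit 6), false, false, false, (nat_lit 151), (nat_lit 3872), (nat_lit 4184), [(nat_lit 1327983), (nat_lit 1333871), (nat_lit 1338814), (nat_lit 1344766), (nat_lit 1410806), (nat_lit 1414527), (nat_lit 1421637), (nat_lit 1425422)]⟩, ⟨(nat_lit 7), false, false, true, (nat_lit 243), (nat_lit 3872), (nat_lit 4184), [(nat_lit 1545843), (nat_lit 1541869), (nat_lit 1589176), (nat_lit 1585455), (nat_lit 1628662), (nat_lit 1622521), (nat_lit 1671996), (nat_lit 1666107)]⟩, (nat_lit 4764380), (nat_lit 42370380), (nat_lit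 7887009), (nat_lit 16742611), (nat_lit 7), (nat_lit 0), [⟨(nat_lit 0), (nat_lit 100), (nat_lit 76), (nat_lit 85), (nat_lit 142538185)⟩], [⟨(nat_lit 1), (nat_lit 91), (nat_lit 77), (nat_lit 100), (nat_lit 238199540)⟩], [], [],
 ⟨⟨[(nat_lit 40), (nat_lit 80), (nat_lit 100)], [(nat_lit 0), (nat_lit 395), (nat_lit 1536)], [((nat_lit 0), (nat_lit 0), (nat_lit 0)), ((nat_lit 1000), (nat_lit 908), (nat_lit 154)), ((nat_lit 1000), (nat_lit 760), (nat_lit 642))], ((nat_lit 76), (nat_lit 100), (nat_lit 58))⟩, (nat_lit 1215352), (nat_lit 118), (nat_lit 118), (nat_lit 0), (nat_lit 53011), [(nat_lit 1568503948), (nat_lit 2583934407), (nat_lit 3127914400)], [(nat_lit 0), (nat_lit 0), (nat_lit 0)], [(nat_lit 22536019978), (nat_lit 23163261595), (nat_lit 22509015008), (nat_lit 23140963073), (nat_lit 25070016409), (nat_lit 25686840556), (nat_lit 24948935946), (nat_lit 25511489980)], (nat_lit 1271251), (nat_lit 1271251), (nat_lit 422188), (nat_lit 780000), (nat_lit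 1271251), (nat_lit 1271251), [(nat_lit 490000), (nat_lit 1100000), (nat_lit 1442501)], [(nat_lit 3), (nat_lit 50), (nat_lit 238), (nat_lit 30), (nat_lit 8)]⟩,
 ⟨⟨[(nat_lit 80), (nat_lit 120), (nat_lit 140)], [(nat_lit 0), (nat_lit 0), (nat_lit 1164)], [((nat_lit 0), (nat_lit 0), (nat_lit 0)), ((nat_lit 0), (nat_lit 0), (nat_lit 0)), ((nat_lit 941), (nat_lit 1000), (nat_lit 576))], ((nat_lit 100), (nat_lit 94), (nat_lit 58))⟩, (nat_lit 0), (nat_lit 240), (nat_lit 240), (nat_lit 0), (nat_lit 78864), [(nat_lit 895408000), (nat_lit 1521888000), (nat_lit 1879822000)], [], [(nat_lit 5906955219), (nat_lit 5656060625), (nat_lit 6872195762), (nat_lit 6132152972), (nat_lit 7281665347), (nat_lit 6558838559), (nat_lit 8397584000), (nat_lit 7686527246)], (nat_lit 1271251), (nat_lit 1271251), (nat_lit 422188), (nat_lit 780000), (nat_lit 0), (nat_lit 780000), [(nat_lit 1100000), (nat_lit 1785001), (nat_lit 1271251)], [(nat_lit 17), (nat_lit 58), (nat_lit 345),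 (nat_lit 125), (nat_lit 10)]⟩,
 ⟨⟨[(nat_lit 140), (nat_lit 180), (nat_lit 200)], [(nat_lit 0), (nat_lit 0), (nat_lit 2835)], [((nat_lit 0), (nat_lit 0), (nat_lit 0)), ((nat_lit 0), (nat_lit 0), (nat_lit 0)), ((nat_lit 363), (nat_lit 1000), (nat_lit 798))], ((nat_lit 0), (nat_lit 0), (nat_lit 0))⟩, (nat_lit 26413), (nat_lit 300), (nat_lit 521), (nat_lit 7497600), (nat_lit 197153), [(nat_lit 944832000), (nat_lit 1349568000), (nat_lit 1574400000)], [], [(nat_lit 6259562184), (nat_lit 6072254208), (nat_lit 6368921456), (nat_lit 6170392080), (nat_lit 5232575499), (nat_lit 5050969745), (nat_lit 5265472728), (nat_lit 5083013080)], (nat_lit 780000), (nat_lit 1100000), (nat_lit 1271251), (nat_lit 1271251), (nat_lit 0), (nat_lit 780000), [(nat_lit 1977501), (nat_lit 1271251), (nat_lit 1271251)], [(nat_lit 32), (nat_lit 67), (nat_lit 401), (nat_lit 175), (nat_lit 9)]⟩⟩) (.trZ (nat_lit 0) (nat_lit 1) (nat_lit 3) (nat_lit 100) (nat_lit 78) (nat_lit 85) (nat_lit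 80) (.leaf ⟨(nat_lit 0), (nat_lit 884), (nat_lit 0), (nat_lit 116), (nat_lit 22430), (nat_lit 5305), (nat_lit 8009), (nat_lit 1470), (nat_lit 0), (nat_lit 0), (nat_lit 0), [], Pd.none, Pd.none, (nat_lit 0), (nat_lit 1), (nat_lit 0), (nat_lit 0), (nat_lit 7), (nat_lit 0), [⟨(nat_lit 0), (nat_lit 100), (nat_lit 77), (nat_lit 89), (nat_lit 798932254)⟩], [⟨(nat_lit 1), (nat_lit 91), (nat_lit 77), (nat_lit 100), (nat_lit 544345860)⟩], [], [],
 ⟨⟨[(nat_lit 40), (nat_lit 80), (nat_lit 100)], [(nat_lit 0), (nat_lit 395), (nat_lit 1536)], [((nat_lit 0), (nat_lit 0), (nat_lit 0)), ((nat_lit 1000), (nat_lit 908), (nat_lit 154)), ((nat_lit 1000), (nat_lit 760), (nat_lit 642))], ((nat_lit 76), (nat_lit 100), (nat_lit 58))⟩, (nat_lit 1927050), (nat_lit 115), (nat_lit 115), (nat_lit 0), (nat_lit 68480), [(nat_lit 2248319908), (nat_lit 4688000006), (nat_lit 6250000000)], [], [(nat_lit 23735067158), (nat_lit 24477763115), (nat_lit 23712030398), (nat_lit 24417458975),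 (nat_lit 26501157139), (nat_lit 27270519906), (nat_lit 26375367801), (nat_lit 27039748419)], (nat_lit 1271251), (nat_lit 1271251), (nat_lit 490000), (nat_lit 780000), (nat_lit 1271251), (nat_lit 1271251), [(nat_lit 490000), (nat_lit 1100000), (nat_lit 1442501)], [(nat_lit 3), (nat_lit 50), (nat_lit 238), (nat_lit 30), (nat_lit 8)]⟩,
 ⟨⟨[(nat_lit 80), (nat_lit 120), (nat_lit 140)], [(nat_lit 0), (nat_lit 264), (nat_lit 1360)], [((nat_lit 0), (nat_lit 0), (nat_lit 0)), ((nat_lit 1000), (nat_lit 979), (nat_lit 103)), ((nat_lit 951), (nat_lit 1000), (nat_lit 628))], ((nat_lit 100), (nat_lit 97), (nat_lit 59))⟩, (nat_lit 5133218), (nat_lit 232), (nat_lit 232), (nat_lit 0), (nat_lit 96989), [(nat_lit 4688000000), (nat_lit 7968000000), (nat_lit 9842000000)], [], [(nat_lit 19611873148), (nat_lit 20614530204), (nat_lit 19584652082), (nat_lit 20500405743), (nat_lit 15461329049), (nat_lit 16295092464), (nat_lit 17026413791), (nat_lit 16477081775)], (nat_lit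 1271251), (nat_lit 1271251), (nat_lit 490000), (nat_lit 780000), (nat_lit 0), (nat_lit 780000), [(nat_lit 1100000), (nat_lit 1785001), (nat_lit 1271251)], [(nat_lit 17), (nat_lit 58), (nat_lit 345), (nat_lit 125), (nat_lit 10)]⟩,
 ⟨⟨[(nat_lit 140), (nat_lit 180), (nat_lit 200)], [(nat_lit 0), (nat_lit 0), (nat_lit 2835)], [((nat_lit 0), (nat_lit 0), (nat_lit 0)), ((nat_lit 0), (nat_lit 0), (nat_lit 0)), ((nat_lit 363), (nat_lit 1000), (nat_lit 798))], ((nat_lit 0), (nat_lit 0), (nat_lit 0))⟩, (nat_lit 31915), (nat_lit 300), (nat_lit 547), (nat_lit 9059605), (nat_lit 254899), [(nat_lit 1141672000), (nat_lit 1630728000), (nat_lit 1902400000)], [], [(nat_lit 7563288304), (nat_lit 7337353724), (nat_lit 7695966421), (nat_lit 7455932954), (nat_lit 6337776589), (nat_lit 6115523575), (nat_lit 6361944910), (nat_lit 6141338751)], (nat_lit 780000), (nat_lit 1100000), (nat_lit 1271251), (nat_lit 1271251), (nat_lit 0), (nat_lit 780000), [(nat_lit 1977501),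 (nat_lit 1271251), (nat_lit 1271251)], [(nat_lit 32), (nat_lit 67), (nat_lit 401), (nat_lit 175), (nat_lit 9)]⟩⟩))) (.leaf ⟨(nat_lit 0), (nat_lit 910), (nat_lit 0), (nat_lit 90), (nat_lit 39127), (nat_lit 5183), (nat_lit 7984), (nat_lit 1140), (nat_lit 0), (nat_lit 0), (nat_lit 0), [], Pd.none, Pd.none, (nat_lit 0), (nat_lit 1), (nat_lit 0), (nat_lit 0), (nat_lit 7), (nat_lit 0), [⟨(nat_lit 0), (nat_lit 100), (nat_lit 75), (nat_lit 92), (nat_lit 1012620807)⟩], [⟨(nat_lit 1), (nat_lit 91), (nat_lit 77), (nat_lit 100), (nat_lit 591669406)⟩], [], [],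
 ⟨⟨[(nat_lit 40), (nat_lit 80), (nat_lit 100)], [(nat_lit 0), (nat_lit 395), (nat_lit 1536)], [((nat_lit 0), (nat_lit 0), (nat_lit 0)), ((nat_lit 1000), (nat_lit 908), (nat_lit 154)), ((nat_lit 1000), (nat_lit 760), (nat_lit 642))], ((nat_lit 76), (nat_lit 100), (nat_lit 63))⟩, (nat_lit 2026581), (nat_lit 109), (nat_lit 109), (nat_lit 0), (nat_lit 23146), [(nat_lit 2310773088), (nat_lit 4688000518), (nat_lit 6250000000)], [], [(nat_lit 24023836674), (nat_lit 24762189244), (nat_lit 23625266303), (nat_lit 24321766249), (nat_lit 26886687627), (nat_lit 27649526666), (nat_lit 26367795425), (nat_lit 27024024571)], (nat_lit 1271251), (nat_lit 1271251), (nat_lit 422188), (nat_lit 780000), (nat_lit 1271251), (nat_lit 1271251), [(nat_lit 490000), (nat_lit 1100000), (nat_lit 1442501)], [(nat_lit 3), (nat_lit 50), (nat_lit 238), (nat_lit 30), (nat_lit 8)]⟩,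
 ⟨⟨[(nat_lit 80), (nat_lit 120), (nat_lit 160)], [(nat_lit 0), (nat_lit 0), (nat_lit 2132)], [((nat_lit 0), (nat_lit 0), (nat_lit 0)), ((nat_lit 0), (nat_lit 0), (nat_lit 0)), ((nat_lit 858), (nat_lit 1000), (nat_lit 713))], ((nat_lit 100), (nat_lit 91), (nat_lit 64))⟩, (nat_lit 5602458), (nat_lit 324), (nat_lit 324), (nat_lit 0), (nat_lit 33328), [(nat_lit 4688000000), (nat_lit 7968000000), (nat_lit 11872000000)], [], [(nat_lit 21349491212), (nat_lit 23085080015), (nat_lit 20228919368), (nat_lit 21860745352), (nat_lit 17627097692), (nat_lit 18218074440), (nat_lit 20404973040), (nat_lit 17881969864)], (nat_lit 1271251), (nat_lit 1271251), (nat_lit 422188), (nat_lit 780000), (nat_lit 0), (nat_lit 780000), [(nat_lit 1100000), (nat_lit 1785001), (nat_lit 1271251)], [(nat_lit 18), (nat_lit 59), (nat_lit 345), (nat_lit 125), (nat_lit 9)]⟩,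
 ⟨⟨[(nat_lit 140), (nat_lit 180), (nat_lit 200)], [(nat_lit 0), (nat_lit 0), (nat_lit 2835)], [((nat_lit 0), (nat_lit 0), (nat_lit 0)), ((nat_lit 0), (nat_lit 0), (nat_lit 0)), ((nat_lit 363), (nat_lit 1000), (nat_lit 798))], ((nat_lit 0), (nat_lit 0), (nat_lit 0))⟩, (nat_lit 24762), (nat_lit 300), (nat_lit 472), (nat_lit 7029000), (nat_lit 89780), [(nat_lit 885780000), (nat_lit 1265220000), (nat_lit 1476000000)], [], [(nat_lit 5868171625), (nat_lit 5692738320), (nat_lit 5970863865), (nat_lit 5784742575), (nat_lit 4881568723), (nat_lit 4715233074), (nat_lit 4936380683), (nat_lit 4765324763)], (nat_lit 780000), (nat_lit 1100000), (nat_lit 1271251), (nat_lit 1271251), (nat_lit 0), (nat_lit 780000), [(nat_lit 1977501), (nat_lit 1271251), (nat_lit 1271251)], [(nat_lit 32), (nat_lit 67), (nat_lit 401), (nat_lit 175), (nat_lit 9)]⟩⟩))))) (.trZ (nat_lit 0) (nat_lit 1) (nat_lit 3) (nat_lit 100) (nat_lit 84) (nat_lit 85) (nat_lit 80) (.leaf ⟨(nat_lit 0),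 (nat_lit 826), (nat_lit 0), (nat_lit 174), (nat_lit 21079), (nat_lit 5791), (nat_lit 7663), (nat_lit 2502), (nat_lit 0), (nat_lit 0), (nat_lit 0), [], Pd.none, Pd.none, (nat_lit 0), (nat_lit 1), (nat_lit 0), (nat_lit 0), (nat_lit 7), (nat_lit 0), [⟨(nat_lit 0), (nat_lit 100), (nat_lit 81), (nat_lit 93), (nat_lit 782713488)⟩], [⟨(nat_lit 1), (nat_lit 89), (nat_lit 80), (nat_lit 100), (nat_lit 495241262)⟩], [⟨(nat_lit 0), (nat_lit 100), (nat_lit 98), (nat_lit 6), (nat_lit 279453583)⟩], [],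
 ⟨⟨[(nat_lit 40), (nat_lit 80), (nat_lit 120)], [(nat_lit 0), (nat_lit 0), (nat_lit 2151)], [((nat_lit 0), (nat_lit 0), (nat_lit 0)), ((nat_lit 0), (nat_lit 0), (nat_lit 0)), ((nat_lit 1000), (nat_lit 815), (nat_lit 753))], ((nat_lit 80), (nat_lit 100), (nat_lit 63))⟩, (nat_lit 2394823), (nat_lit 149), (nat_lit 149), (nat_lit 0), (nat_lit 105160), [(nat_lit 2390585394), (nat_lit 4688000005), (nat_lit 7968000000)], [], [(nat_lit 23628880181), (nat_lit 25070846458), (nat_lit 23491639445), (nat_lit 24860834419), (nat_lit 27242081010), (nat_lit 28720433551), (nat_lit 27029589002), (nat_lit 28384327707)], (nat_lit 1271251), (nat_lit 1271251), (nat_lit 490000), (nat_lit 780000), (nat_lit 1271251), (nat_lit 1271251), [(nat_lit 490000), (nat_lit 1100000), (nat_lit 1785001)], [(nat_lit 4), (nat_lit 51), (nat_lit 238), (nat_lit 30), (nat_lit 7)]⟩,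
 ⟨⟨[(nat_lit 80), (nat_lit 120), (nat_lit 140)], [(nat_lit 0), (nat_lit 528), (nat_lit 1572)], [((nat_lit 0), (nat_lit 0), (nat_lit 0)), ((nat_lit 1000), (nat_lit 959), (nat_lit 206)), ((nat_lit 966), (nat_lit 1000), (nat_lit 679))], ((nat_lit 100), (nat_lit 98), (nat_lit 66))⟩, (nat_lit 5061326), (nat_lit 286), (nat_lit 286), (nat_lit 0), (nat_lit 135251), [(nat_lit 4688000000), (nat_lit 7968000000), (nat_lit 9842000000)], [], [(nat_lit 19562463916), (nat_lit 21511875500), (nat_lit 19575431438), (nat_lit 21333996090), (nat_lit 15634685384), (nat_lit 17257450194), (nat_lit 15847975758), (nat_lit 17373742296)], (nat_lit 1271251), (nat_lit 1271251), (nat_lit 490000), (nat_lit 780000), (nat_lit 0), (nat_lit 780000), [(nat_lit 1100000), (nat_lit 1785001), (nat_lit 1271251)], [(nat_lit 17), (nat_lit 58), (nat_lit 373), (nat_lit 150), (nat_lit 11)]⟩,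
 ⟨⟨[(nat_lit 140), (nat_lit 180), (nat_lit 200)], [(nat_lit 0), (nat_lit 0), (nat_lit 2835)], [((nat_lit 0), (nat_lit 0), (nat_lit 0)), ((nat_lit 0), (nat_lit 0), (nat_lit 0)), ((nat_lit 363), (nat_lit 1000), (nat_lit 798))], ((nat_lit 0), (nat_lit 0), (nat_lit 0))⟩, (nat_lit 47873), (nat_lit 300), (nat_lit 629), (nat_lit 13589401), (nat_lit 390097), [(nat_lit 1712508000), (nat_lit 2446092000), (nat_lit 2853600000)], [], [(nat_lit 11426878644), (nat_lit 11025877684), (nat_lit 11703475888), (nat_lit 11273390170), (nat_lit 9313879368), (nat_lit 8899432446), (nat_lit 9387199021), (nat_lit 8990977735)], (nat_lit 780000), (nat_lit 1100000), (nat_lit 1271251), (nat_lit 1271251), (nat_lit 0), (nat_lit 780000), [(nat_lit 1977501), (nat_lit 1271251), (nat_lit 1271251)], [(nat_lit 32), (nat_lit 67), (nat_lit 401), (nat_lit 175), (nat_lit 9)]⟩⟩))) (.spl (nat_lit 0) (nat_lit 330) (.leaf ⟨(nat_lit 68), (nat_lit 491), (nat_lit 0), (nat_lit 441), (nat_lit 13876),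 (nat_lit 5918), (nat_lit 6932), (nat_lit 5430), (nat_lit 0), (nat_lit 0), (nat_lit 272000), [((nat_lit 330), [((nat_lit 37), (nat_lit 5), (nat_lit 68))])], ⟨(nat_lit 6), false, false, false, (nat_lit 152), (nat_lit 4183), (nat_lit 4473), [(nat_lit 1305197), (nat_lit 1311427), (nat_lit 1348323), (nat_lit 1354753), (nat_lit 1407167), (nat_lit 1410812), (nat_lit 1450291), (nat_lit 1454137)]⟩, ⟨(nat_lit 7), false, false, true, (nat_lit 248), (nat_lit 4183), (nat_lit 4473), [(nat_lit 1549689), (nat_lit 1545843), (nat_lit 1592822), (nat_lit 1589176), (nat_lit 1651656), (nat_lit 1645226), (nat_lit 1694789), (nat_lit 1688560)]⟩, (nat_lit 4804762), (nat_lit 41857637), (nat_lit 7927885), (nat_lit 17214478), (nat_lit 7), (nat_lit 0), [⟨(nat_lit 0), (nat_lit 100), (nat_lit 82), (nat_lit 87), (nat_lit 948795998)⟩], [⟨(nat_lit 1), (nat_lit 87), (nat_lit 82), (nat_lit 100), (nat_lit 243007137)⟩], [], [],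
 ⟨⟨[(nat_lit 40), (nat_lit 80), (nat_lit 120)], [(nat_lit 0), (nat_lit 0), (nat_lit 2151)], [((nat_lit 0), (nat_lit 0), (nat_lit 0)), ((nat_lit 0), (nat_lit 0), (nat_lit 0)), ((nat_lit 1000), (nat_lit 815), (nat_lit 753))], ((nat_lit 80), (nat_lit 100), (nat_lit 63))⟩, (nat_lit 1797604), (nat_lit 151), (nat_lit 151), (nat_lit 0), (nat_lit 75146), [(nat_lit 2288802850), (nat_lit 4045156596), (nat_lit 5930792602)], [(nat_lit 0), (nat_lit 0), (nat_lit 0)], [(nat_lit 23765782656), (nat_lit 24720365294), (nat_lit 22666062962), (nat_lit 23358963752), (nat_lit 28455035726), (nat_lit 29307727084), (nat_lit 26851358969), (nat_lit 27653092673)], (nat_lit 1271251), (nat_lit 1271251), (nat_lit 356250), (nat_lit 780000), (nat_lit 1271251), (nat_lit 1271251), [(nat_lit 490000), (nat_lit 1100000), (nat_lit 1785001)], [(nat_lit 4), (nat_lit 51), (nat_lit 238), (nat_lit 30), (nat_lit 7)]⟩,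
 ⟨⟨[(nat_lit 80), (nat_lit 120), (nat_lit 160)], [(nat_lit 0), (nat_lit 0), (nat_lit 2132)], [((nat_lit 0), (nat_lit 0), (nat_lit 0)), ((nat_lit 0), (nat_lit 0), (nat_lit 0)), ((nat_lit 858), (nat_lit 1000), (nat_lit 713))], ((nat_lit 100), (nat_lit 91), (nat_lit 64))⟩, (nat_lit 923920), (nat_lit 212), (nat_lit 212), (nat_lit 0), (nat_lit 97767), [(nat_lit 4369216000), (nat_lit 7426176000), (nat_lit 11064704000)], [], [(nat_lit 34361360558), (nat_lit 27153364828), (nat_lit 23538280748), (nat_lit 25728490432), (nat_lit 37484304600), (nat_lit 34237130364), (nat_lit 41311679746), (nat_lit 35112355753)], (nat_lit 1271251), (nat_lit 1271251), (nat_lit 356250), (nat_lit 780000), (nat_lit 780000), (nat_lit 2581251), [(nat_lit 1100000), (nat_lit 1785001), (nat_lit 1271251)], [(nat_lit 18), (nat_lit 59), (nat_lit 428), (nat_lit 200), (nat_lit 11)]⟩,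
 ⟨⟨[(nat_lit 140), (nat_lit 180), (nat_lit 200)], [(nat_lit 0), (nat_lit 0), (nat_lit 2835)], [((nat_lit 0), (nat_lit 0), (nat_lit 0)), ((nat_lit 0), (nat_lit 0), (nat_lit 0)), ((nat_lit 363), (nat_lit 1000), (nat_lit 798))], ((nat_lit 0), (nat_lit 0), (nat_lit 0))⟩, (nat_lit 121333), (nat_lit 300), (nat_lit 713), (nat_lit 34442105), (nat_lit 816511), [(nat_lit 4340322000), (nat_lit 6199578000), (nat_lit 7232400000)], [], [(nat_lit 25641297564), (nat_lit 24777487299), (nat_lit 25585017495), (nat_lit 24689095638), (nat_lit 23075403182), (nat_lit 22166099889), (nat_lit 22765888161), (nat_lit 21865943347)], (nat_lit 780000), (nat_lit 1100000), (nat_lit 1271251), (nat_lit 1271251), (nat_lit 780000), (nat_lit 2581251), [(nat_lit 1977501), (nat_lit 1271251), (nat_lit 1271251)], [(nat_lit 32), (nat_lit 67), (nat_lit 456), (nat_lit 225), (nat_lit 9)]⟩⟩) (.trZ (nat_lit 0) (nat_lit 1) (nat_lit 3) (nat_lit 100) (nat_lit 78) (nat_lit 81) (nat_lit 70) (.trX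 (nat_lit 4) (nat_lit 0) (nat_lit 2) (nat_lit 78) (nat_lit 81) (nat_lit 100) (nat_lit 330) (.leaf ⟨(nat_lit 328), (nat_lit 378), (nat_lit 0), (nat_lit 294), (nat_lit 0), (nat_lit 4980), (nat_lit 6100), (nat_lit 3694), (nat_lit 0), (nat_lit 0), (nat_lit 82000), [((nat_lit 340), [((nat_lit 19), (nat_lit 0), (nat_lit 328))])], ⟨(nat_lit 6), false, false, false, (nat_lit 157), (nat_lit 3872), (nat_lit 4184), [(nat_lit 1327983), (nat_lit 1333871), (nat_lit 1371306), (nat_lit 1377448), (nat_lit 1410806), (nat_lit 1414527), (nat_lit 1454130), (nat_lit 1458104)]⟩, ⟨(nat_lit 7), false, false, true, (nat_lit 243), (nat_lit 3872), (nat_lit 4184), [(nat_lit 1545843), (nat_lit 1541869), (nat_lit 1589176), (nat_lit 1585455), (nat_lit 1628662), (nat_lit 1622521), (nat_lit 1671996), (nat_lit 1666107)]⟩, (nat_lit 4826724), (nat_lit 41978601), (nat_lit 8376073), (nat_lit 16645326), (nat_lit 7), (nat_lit 0), [⟨(nat_lit 0), (nat_lit 100), (nat_lit 77), (nat_lit 91),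 (nat_lit 690548261)⟩], [⟨(nat_lit 1), (nat_lit 91), (nat_lit 77), (nat_lit 100), (nat_lit 271824648)⟩], [], [],
 ⟨⟨[(nat_lit 40), (nat_lit 80), (nat_lit 100)], [(nat_lit 0), (nat_lit 395), (nat_lit 1536)], [((nat_lit 0), (nat_lit 0), (nat_lit 0)), ((nat_lit 1000), (nat_lit 908), (nat_lit 154)), ((nat_lit 1000), (nat_lit 760), (nat_lit 642))], ((nat_lit 76), (nat_lit 100), (nat_lit 63))⟩, (nat_lit 1692434), (nat_lit 132), (nat_lit 132), (nat_lit 0), (nat_lit 103995), [(nat_lit 2047232917), (nat_lit 3862229632), (nat_lit 5035088000)], [(nat_lit 0), (nat_lit 0), (nat_lit 0)], [(nat_lit 23378386231), (nat_lit 24109151014), (nat_lit 23033615986), (nat_lit 23715265787), (nat_lit 26573768320), (nat_lit 27365343156), (nat_lit 25906736060), (nat_lit 26656009225)], (nat_lit 1271251), (nat_lit 1271251), (nat_lit 422188), (nat_lit 780000), (nat_lit 1271251), (nat_lit 1271251), [(nat_lit 490000), (nat_lit 1100000), (nat_lit 1442501)], [(nat_lit 3), (nat_lit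 50), (nat_lit 238), (nat_lit 30), (nat_lit 8)]⟩,
 ⟨⟨[(nat_lit 80), (nat_lit 120), (nat_lit 160)], [(nat_lit 0), (nat_lit 0), (nat_lit 2132)], [((nat_lit 0), (nat_lit 0), (nat_lit 0)), ((nat_lit 0), (nat_lit 0), (nat_lit 0)), ((nat_lit 858), (nat_lit 1000), (nat_lit 713))], ((nat_lit 100), (nat_lit 91), (nat_lit 64))⟩, (nat_lit 521138), (nat_lit 218), (nat_lit 218), (nat_lit 0), (nat_lit 139426), [(nat_lit 3150336000), (nat_lit 5354496000), (nat_lit 7977984000)], [], [(nat_lit 24259949455), (nat_lit 19248503394), (nat_lit 16326595980), (nat_lit 18372951696), (nat_lit 27104897600), (nat_lit 24618988367), (nat_lit 29853889506), (nat_lit 24398627481)], (nat_lit 1271251), (nat_lit 1271251), (nat_lit 422188), (nat_lit 780000), (nat_lit 780000), (nat_lit 2581251), [(nat_lit 1100000), (nat_lit 1785001), (nat_lit 1271251)], [(nat_lit 18), (nat_lit 59), (nat_lit 428), (nat_lit 200), (nat_lit 11)]⟩,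
 ⟨⟨[(nat_lit 140), (nat_lit 180), (nat_lit 200)], [(nat_lit 0), (nat_lit 0), (nat_lit 2835)], [((nat_lit 0), (nat_lit 0), (nat_lit 0)), ((nat_lit 0), (nat_lit 0), (nat_lit 0)), ((nat_lit 363), (nat_lit 1000), (nat_lit 798))], ((nat_lit 0), (nat_lit 0), (nat_lit 0))⟩, (nat_lit 80889), (nat_lit 300), (nat_lit 885), (nat_lit 22961400), (nat_lit 1178401), [(nat_lit 2893548000), (nat_lit 4133052000), (nat_lit 4821600000)], [], [(nat_lit 16928909680), (nat_lit 16337883486), (nat_lit 16859284786), (nat_lit 16250998604), (nat_lit 15163061436), (nat_lit 14541372817), (nat_lit 15024678149), (nat_lit 14414634272)], (nat_lit 780000), (nat_lit 1100000), (nat_lit 1271251), (nat_lit 1271251), (nat_lit 780000), (nat_lit 2581251), [(nat_lit 1977501), (nat_lit 1271251), (nat_lit 1271251)], [(nat_lit 32), (nat_lit 67), (nat_lit 456), (nat_lit 225), (nat_lit 9)]⟩⟩)))))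
noncomputable def c11_41 : Tr Lf :=
 (.trZ (nat_lit 0) (nat_lit 1) (nat_lit 3) (nat_lit 100) (nat_lit 87) (nat_lit 95) (nat_lit 100) (.stt (nat_lit 2) (.spl (nat_lit 1) (nat_lit 300) (.leaf ⟨(nat_lit 38), (nat_lit 802), (nat_lit 0), (nat_lit 160), (nat_lit 0), (nat_lit 6517), (nat_lit 7614), (nat_lit 1800), (nat_lit 0), (nat_lit 0), (nat_lit 152000), [((nat_lit 340), [((nat_lit 37), (nat_lit 5), (nat_lit 38))])], ⟨(nat_lit 7), true, false, false, (nat_lit 179), (nat_lit 3872), (nat_lit 4473), [(nat_lit 1416230), (nat_lit 1425778), (nat_lit 1437779), (nat_lit 1447554), (nat_lit 1450223), (nat_lit 1458043), (nat_lit 1471772), (nat_lit 1479819)]⟩, ⟨(nat_lit 7), false, false, true, (nat_lit 247), (nat_lit 3872), (nat_lit 4473), [(nat_lit 1549689), (nat_lit 1541869), (nat_lit 1592822), (nat_lit 1585455), (nat_lit 1651656), (nat_lit 1638651), (nat_lit 1694789), (nat_lit 1682237)]⟩, (nat_lit 5040574), (nat_lit 40309524), (nat_lit 10012678), (nat_lit 16677798),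 (nat_lit 7), (nat_lit 0), [⟨(nat_lit 0), (nat_lit 97), (nat_lit 82), (nat_lit 100), (nat_lit 789307288)⟩], [⟨(nat_lit 1), (nat_lit 89), (nat_lit 80), (nat_lit 100), (nat_lit 513212469)⟩], [], [⟨(nat_lit 2), (nat_lit 97), (nat_lit 94), (nat_lit 100), (nat_lit 36109772)⟩],
 ⟨⟨[(nat_lit 40), (nat_lit 80), (nat_lit 120)], [(nat_lit 0), (nat_lit 0), (nat_lit 2151)], [((nat_lit 0), (nat_lit 0), (nat_lit 0)), ((nat_lit 0), (nat_lit 0), (nat_lit 0)), ((nat_lit 1000), (nat_lit 815), (nat_lit 753))], ((nat_lit 80), (nat_lit 100), (nat_lit 63))⟩, (nat_lit 1981865), (nat_lit 183), (nat_lit 183), (nat_lit 0), (nat_lit 252311), [(nat_lit 2587993356), (nat_lit 4323063557), (nat_lit 6824108800)], [(nat_lit 0), (nat_lit 0), (nat_lit 0)], [(nat_lit 23201364322), (nat_lit 24914493198), (nat_lit 23086984241), (nat_lit 24750668643), (nat_lit 27678643411), (nat_lit 29421289243), (nat_lit 27440892074), (nat_lit 29138753794)], (nat_lit 1271251), (nat_lit 1271251), (nat_lit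 631250), (nat_lit 780000), (nat_lit 1271251), (nat_lit 1271251), [(nat_lit 490000), (nat_lit 1100000), (nat_lit 1785001)], [(nat_lit 4), (nat_lit 51), (nat_lit 238), (nat_lit 30), (nat_lit 7)]⟩,
 ⟨⟨[(nat_lit 60), (nat_lit 100), (nat_lit 140)], [(nat_lit 0), (nat_lit 0), (nat_lit 2047)], [((nat_lit 0), (nat_lit 0), (nat_lit 0)), ((nat_lit 0), (nat_lit 0), (nat_lit 0)), ((nat_lit 1000), (nat_lit 993), (nat_lit 781))], ((nat_lit 95), (nat_lit 100), (nat_lit 65))⟩, (nat_lit 3032237), (nat_lit 181), (nat_lit 181), (nat_lit 0), (nat_lit 0), [(nat_lit 3157284000), (nat_lit 6012500000), (nat_lit 9468004000)], [], [(nat_lit 22131219471), (nat_lit 23991321264), (nat_lit 22028026473), (nat_lit 23833765315), (nat_lit 25490387551), (nat_lit 26604521362), (nat_lit 25160267036), (nat_lit 26281545014)], (nat_lit 0), (nat_lit 0), (nat_lit 0), (nat_lit 0), (nat_lit 0), (nat_lit 0), [], [(nat_lit 11), (nat_lit 55), (nat_lit 345), (nat_lit 125), (nat_lit 10)]⟩,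
 ⟨⟨[(nat_lit 140), (nat_lit 180), (nat_lit 200)], [(nat_lit 0), (nat_lit 0), (nat_lit 2835)], [((nat_lit 0), (nat_lit 0), (nat_lit 0)), ((nat_lit 0), (nat_lit 0), (nat_lit 0)), ((nat_lit 363), (nat_lit 1000), (nat_lit 798))], ((nat_lit 0), (nat_lit 0), (nat_lit 0))⟩, (nat_lit 44021), (nat_lit 300), (nat_lit 1832), (nat_lit 12496003), (nat_lit 3047985), [(nat_lit 1574720000), (nat_lit 2249280000), (nat_lit 2624000000)], [], [(nat_lit 11416821640), (nat_lit 11112925640), (nat_lit 11282687480), (nat_lit 10971569360), (nat_lit 9005237420), (nat_lit 8707527960), (nat_lit 8830836380), (nat_lit 8529113930)], (nat_lit 780000), (nat_lit 1100000), (nat_lit 1271251), (nat_lit 1271251), (nat_lit 0), (nat_lit 2401251), [(nat_lit 1977501), (nat_lit 1271251), (nat_lit 1271251)], [(nat_lit 32), (nat_lit 67), (nat_lit 563), (nat_lit 225), (nat_lit 12)]⟩⟩) (.emL (nat_lit 0) (nat_lit 1) (nat_lit 3) (nat_lit 94) (nat_lit 87) (nat_lit 100))) (.leaf ⟨(nat_lit 0), (nat_lit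 770), (nat_lit 0), (nat_lit 230), (nat_lit 0), (nat_lit 6388), (nat_lit 9286), (nat_lit 3037), (nat_lit 0), (nat_lit 0), (nat_lit 0), [], Pd.none, Pd.none, (nat_lit 0), (nat_lit 1), (nat_lit 0), (nat_lit 0), (nat_lit 7), (nat_lit 0), [⟨(nat_lit 0), (nat_lit 100), (nat_lit 87), (nat_lit 95), (nat_lit 696346399)⟩], [⟨(nat_lit 1), (nat_lit 76), (nat_lit 82), (nat_lit 100), (nat_lit 303680094)⟩], [], [],
 ⟨⟨[(nat_lit 40), (nat_lit 80), (nat_lit 120)], [(nat_lit 0), (nat_lit 0), (nat_lit 2151)], [((nat_lit 0), (nat_lit 0), (nat_lit 0)), ((nat_lit 0), (nat_lit 0), (nat_lit 0)), ((nat_lit 1000), (nat_lit 815), (nat_lit 753))], ((nat_lit 80), (nat_lit 100), (nat_lit 63))⟩, (nat_lit 2113792), (nat_lit 195), (nat_lit 195), (nat_lit 0), (nat_lit 292967), [(nat_lit 2402158411), (nat_lit 4688000031), (nat_lit 7968000000)], [], [(nat_lit 24625423577), (nat_lit 25880666797), (nat_lit 24520933475), (nat_lit 25743031907), (nat_lit 27539043834), (nat_lit 29260276909),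 (nat_lit 27353456777), (nat_lit 28991463916)], (nat_lit 1271251), (nat_lit 1271251), (nat_lit 631250), (nat_lit 780000), (nat_lit 1271251), (nat_lit 1271251), [(nat_lit 490000), (nat_lit 1100000), (nat_lit 1785001)], [(nat_lit 4), (nat_lit 51), (nat_lit 238), (nat_lit 30), (nat_lit 7)]⟩,
 ⟨⟨[(nat_lit 60), (nat_lit 100), (nat_lit 140)], [(nat_lit 0), (nat_lit 0), (nat_lit 2047)], [((nat_lit 0), (nat_lit 0), (nat_lit 0)), ((nat_lit 0), (nat_lit 0), (nat_lit 0)), ((nat_lit 1000), (nat_lit 993), (nat_lit 781))], ((nat_lit 95), (nat_lit 100), (nat_lit 65))⟩, (nat_lit 0), (nat_lit 357), (nat_lit 357), (nat_lit 0), (nat_lit 321904), [(nat_lit 3282000000), (nat_lit 6250000000), (nat_lit 9842000000)], [], [(nat_lit 32103950313), (nat_lit 34178073514), (nat_lit 29939521656), (nat_lit 33841939948), (nat_lit 34573017384), (nat_lit 34645339351), (nat_lit 36593476421), (nat_lit 34110020176)], (nat_lit 1271251), (nat_lit 1271251), (nat_lit 631250), (nat_lit 780000),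 (nat_lit 0), (nat_lit 2401251), [(nat_lit 780000), (nat_lit 1435001), (nat_lit 1271251)], [(nat_lit 11), (nat_lit 55), (nat_lit 345), (nat_lit 125), (nat_lit 10)]⟩,
 ⟨⟨[(nat_lit 140), (nat_lit 180), (nat_lit 200)], [(nat_lit 0), (nat_lit 0), (nat_lit 2835)], [((nat_lit 0), (nat_lit 0), (nat_lit 0)), ((nat_lit 0), (nat_lit 0), (nat_lit 0)), ((nat_lit 363), (nat_lit 1000), (nat_lit 798))], ((nat_lit 0), (nat_lit 0), (nat_lit 0))⟩, (nat_lit 63280), (nat_lit 300), (nat_lit 898), (nat_lit 17963006), (nat_lit 1001846), [(nat_lit 2263660000), (nat_lit 3233340000), (nat_lit 3772000000)], [], [(nat_lit 15453454314), (nat_lit 14931101428), (nat_lit 15421850866), (nat_lit 14881773850), (nat_lit 11532915215), (nat_lit 11228875761), (nat_lit 11591764548), (nat_lit 11078763688)], (nat_lit 780000), (nat_lit 1100000), (nat_lit 1271251), (nat_lit 1271251), (nat_lit 0), (nat_lit 2401251), [(nat_lit 1977501), (nat_lit 1271251), (nat_lit 1271251)], [(nat_lit 32),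 (nat_lit 67), (nat_lit 456), (nat_lit 225), (nat_lit 10)]⟩⟩)))
noncomputable def c11_42 : Tr Lf :=
 (.spl (nat_lit 5) (nat_lit 120) (.spl (nat_lit 6) (nat_lit 12) (.leaf ⟨(nat_lit 0), (nat_lit 709), (nat_lit 0), (nat_lit 291), (nat_lit 0), (nat_lit 4842), (nat_lit 15726), (nat_lit 3354), (nat_lit 0), (nat_lit 0), (nat_lit 0), [], Pd.none, Pd.none, (nat_lit 0), (nat_lit 1), (nat_lit 0), (nat_lit 0), (nat_lit 6), (nat_lit 0), [⟨(nat_lit 0), (nat_lit 100), (nat_lit 80), (nat_lit 89), (nat_lit 1449314761)⟩], [⟨(nat_lit 1), (nat_lit 77), (nat_lit 77), (nat_lit 100), (nat_lit 313756972)⟩], [], [],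
 ⟨⟨[(nat_lit 40), (nat_lit 60), (nat_lit 80)], [(nat_lit 0), (nat_lit 0), (nat_lit 615)], [((nat_lit 0), (nat_lit 0), (nat_lit 0)), ((nat_lit 0), (nat_lit 0), (nat_lit 0)), ((nat_lit 1000), (nat_lit 819), (nat_lit 426))], ((nat_lit 84), (nat_lit 100), (nat_lit 36))⟩, (nat_lit 6583497), (nat_lit 140), (nat_lit 140), (nat_lit 0), (nat_lit 168815), [(nat_lit 2032000024), (nat_lit 3282000012), (nat_lit 4688000000)], [], [(nat_lit 21148329216), (nat_lit 22669693384), (nat_lit 21016549208), (nat_lit 22410711980), (nat_lit 27707635858), (nat_lit 29183713193), (nat_lit 26797125372), (nat_lit 27943221111)], (nat_lit 1271251), (nat_lit 1271251), (nat_lit 356250), (nat_lit 780000), (nat_lit 1271251), (nat_lit 1271251), [(nat_lit 490000), (nat_lit 780000), (nat_lit 1100000)], [(nat_lit 2), (nat_lit 44), (nat_lit 238), (nat_lit 30), (nat_lit 10)]⟩,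
 ⟨⟨[(nat_lit 80), (nat_lit 100), (nat_lit 120)], [(nat_lit 0), (nat_lit 0), (nat_lit 511)], [((nat_lit 0), (nat_lit 0), (nat_lit 0)), ((nat_lit 0), (nat_lit 0), (nat_lit 0)), ((nat_lit 1000), (nat_lit 997), (nat_lit 383))], ((nat_lit 99), (nat_lit 100), (nat_lit 34))⟩, (nat_lit 431908), (nat_lit 267), (nat_lit 267), (nat_lit 0), (nat_lit 217760), [(nat_lit 4688000000), (nat_lit 6250000000), (nat_lit 7968000000)], [], [(nat_lit 20482172416), (nat_lit 30916981011), (nat_lit 17760300024), (nat_lit 24808840848), (nat_lit 18577246371), (nat_lit 14822196140), (nat_lit 24330096918), (nat_lit 11194874589)], (nat_lit 1271251), (nat_lit 1271251), (nat_lit 356250), (nat_lit 780000), (nat_lit 0), (nat_lit 780000), [(nat_lit 1100000), (nat_lit 1442501), (nat_lit 1271251)], [(nat_lit 16), (nat_lit 54), (nat_lit 272), (nat_lit 60), (nat_lit 9)]⟩,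
 ⟨⟨[(nat_lit 120), (nat_lit 140), (nat_lit 160)], [(nat_lit 0), (nat_lit 0), (nat_lit 609)], [((nat_lit 0), (nat_lit 0), (nat_lit 0)), ((nat_lit 0), (nat_lit 0), (nat_lit 0)), ((nat_lit 840), (nat_lit 1000), (nat_lit 400))], ((nat_lit 100), (nat_lit 87), (nat_lit 35))⟩, (nat_lit 1201018), (nat_lit 300), (nat_lit 912), (nat_lit 20457300), (nat_lit 1364151), [(nat_lit 2318688000), (nat_lit 2864022000), (nat_lit 3454752000)], [], [(nat_lit 13792898304), (nat_lit 13684767681), (nat_lit 14138985114), (nat_lit 14041398154), (nat_lit 11614978194), (nat_lit 11472039674), (nat_lit 11672699883), (nat_lit 11534830841)], (nat_lit 1100000), (nat_lit 1271251), (nat_lit 1271251), (nat_lit 1271251), (nat_lit 0), (nat_lit 780000), [(nat_lit 1695001), (nat_lit 1271251), (nat_lit 1271251)], [(nat_lit 27), (nat_lit 62), (nat_lit 401), (nat_lit 175), (nat_lit 10)]⟩⟩) (.spl (nat_lit 1) (nat_lit 260) (.spl (nat_lit 5) (nat_lit 80) (.leaf ⟨(nat_lit 0), (nat_lit 669),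 (nat_lit 0), (nat_lit 331), (nat_lit 4218), (nat_lit 5476), (nat_lit 7984), (nat_lit 4239), (nat_lit 0), (nat_lit 0), (nat_lit 0), [], Pd.none, Pd.none, (nat_lit 0), (nat_lit 1), (nat_lit 0), (nat_lit 0), (nat_lit 6), (nat_lit 0), [⟨(nat_lit 0), (nat_lit 100), (nat_lit 78), (nat_lit 85), (nat_lit 1061356594)⟩], [⟨(nat_lit 1), (nat_lit 77), (nat_lit 77), (nat_lit 100), (nat_lit 235950631)⟩], [⟨(nat_lit 0), (nat_lit 100), (nat_lit 98), (nat_lit 10), (nat_lit 466283286)⟩], [],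
 ⟨⟨[(nat_lit 40), (nat_lit 80), (nat_lit 100)], [(nat_lit 0), (nat_lit 0), (nat_lit 1280)], [((nat_lit 0), (nat_lit 0), (nat_lit 0)), ((nat_lit 0), (nat_lit 0), (nat_lit 0)), ((nat_lit 1000), (nat_lit 800), (nat_lit 600))], ((nat_lit 81), (nat_lit 100), (nat_lit 48))⟩, (nat_lit 1666366), (nat_lit 141), (nat_lit 141), (nat_lit 0), (nat_lit 81542), [(nat_lit 2295650014), (nat_lit 4688000012), (nat_lit 6250000000)], [], [(nat_lit 22338586676), (nat_lit 24021905955), (nat_lit 21629518928), (nat_lit 23202462052), (nat_lit 28901317285), (nat_lit 30261629037), (nat_lit 27805104928), (nat_lit 29082243079)], (nat_lit 1271251), (nat_lit 1271251), (nat_lit 356250), (nat_lit 780000), (nat_lit 1271251), (nat_lit 1271251), [(nat_lit 490000), (nat_lit 1100000), (nat_lit 1442501)], [(nat_lit 3), (nat_lit 50), (nat_lit 238), (nat_lit 30), (nat_lit 8)]⟩,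
 ⟨⟨[(nat_lit 80), (nat_lit 120), (nat_lit 140)], [(nat_lit 0), (nat_lit 0), (nat_lit 1164)], [((nat_lit 0), (nat_lit 0), (nat_lit 0)), ((nat_lit 0), (nat_lit 0), (nat_lit 0)), ((nat_lit 941), (nat_lit 1000), (nat_lit 576))], ((nat_lit 100), (nat_lit 98), (nat_lit 48))⟩, (nat_lit 5156702), (nat_lit 290), (nat_lit 290), (nat_lit 0), (nat_lit 113939), [(nat_lit 4688000000), (nat_lit 7968000000), (nat_lit 9842000000)], [], [(nat_lit 21215262920), (nat_lit 23351682868), (nat_lit 20082907200), (nat_lit 21860673424), (nat_lit 16714547624), (nat_lit 18515179232), (nat_lit 17999988000), (nat_lit 17697718916)], (nat_lit 1271251), (nat_lit 1271251), (nat_lit 356250), (nat_lit 780000), (nat_lit 0), (nat_lit 490000), [(nat_lit 1100000), (nat_lit 1785001), (nat_lit 1271251)], [(nat_lit 17), (nat_lit 58), (nat_lit 345), (nat_lit 125), (nat_lit 10)]⟩,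
 ⟨⟨[(nat_lit 120), (nat_lit 160), (nat_lit 180)], [(nat_lit 0), (nat_lit 0), (nat_lit 1613)], [((nat_lit 0), (nat_lit 0), (nat_lit 0)), ((nat_lit 0), (nat_lit 0), (nat_lit 0)), ((nat_lit 620), (nat_lit 1000), (nat_lit 670))], ((nat_lit 100), (nat_lit 78), (nat_lit 48))⟩, (nat_lit 144056), (nat_lit 300), (nat_lit 649), (nat_lit 24560200), (nat_lit 640029), [(nat_lit 2637408000), (nat_lit 3929632000), (nat_lit 4653198000)], [], [(nat_lit 18129371948), (nat_lit 17976319140), (nat_lit 18478921218), (nat_lit 18351224705), (nat_lit 15504624116), (nat_lit 15357721087), (nat_lit 15821404419), (nat_lit 15630482368)], (nat_lit 1100000), (nat_lit 1271251), (nat_lit 1271251), (nat_lit 1271251), (nat_lit 0), (nat_lit 490000), [(nat_lit 1695001), (nat_lit 1271251), (nat_lit 1271251)], [(nat_lit 28), (nat_lit 65), (nat_lit 401), (nat_lit 175), (nat_lit 9)]⟩⟩) (.leaf ⟨(nat_lit 0), (nat_lit 0), (nat_lit 0), (nat_lit 1000), (nat_lit 0), (nat_lit 6395), (nat_lit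 80648), (nat_lit 16087), (nat_lit 0), (nat_lit 0), (nat_lit 0), [], Pd.none, Pd.none, (nat_lit 0), (nat_lit 1), (nat_lit 0), (nat_lit 0), (nat_lit 0), (nat_lit 0), [⟨(nat_lit 0), (nat_lit 100), (nat_lit 78), (nat_lit 85), (nat_lit 3948903225)⟩, ⟨(nat_lit 0), (nat_lit 100), (nat_lit 75), (nat_lit 92), (nat_lit 147680209)⟩], [], [], [],
 ⟨⟨[(nat_lit 40), (nat_lit 80), (nat_lit 100)], [(nat_lit 0), (nat_lit 0), (nat_lit 1280)], [((nat_lit 0), (nat_lit 0), (nat_lit 0)), ((nat_lit 0), (nat_lit 0), (nat_lit 0)), ((nat_lit 1000), (nat_lit 800), (nat_lit 600))], ((nat_lit 81), (nat_lit 100), (nat_lit 48))⟩, (nat_lit 1904335), (nat_lit 141), (nat_lit 141), (nat_lit 0), (nat_lit 81542), [(nat_lit 2778430749), (nat_lit 4688000463), (nat_lit 6250000000)], [], [(nat_lit 21627724945), (nat_lit 23478162307), (nat_lit 20602224360), (nat_lit 22328157090), (nat_lit 30094653543), (nat_lit 31824096956), (nat_lit 28212739559), (nat_lit 29838774474)], (nat_lit 1271251),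 (nat_lit 1271251), (nat_lit 356250), (nat_lit 780000), (nat_lit 1271251), (nat_lit 1271251), [(nat_lit 490000), (nat_lit 1100000), (nat_lit 1442501)], [(nat_lit 3), (nat_lit 50), (nat_lit 238), (nat_lit 30), (nat_lit 8)]⟩,
 ⟨⟨[(nat_lit 80), (nat_lit 120), (nat_lit 140)], [(nat_lit 0), (nat_lit 0), (nat_lit 1164)], [((nat_lit 0), (nat_lit 0), (nat_lit 0)), ((nat_lit 0), (nat_lit 0), (nat_lit 0)), ((nat_lit 941), (nat_lit 1000), (nat_lit 576))], ((nat_lit 100), (nat_lit 98), (nat_lit 48))⟩, (nat_lit 0), (nat_lit 208), (nat_lit 208), (nat_lit 0), (nat_lit 113939), [(nat_lit 4688000000), (nat_lit 7968000000), (nat_lit 9842000000)], [], [(nat_lit 28593155056), (nat_lit 7590200154), (nat_lit 0), (nat_lit 0), (nat_lit 0), (nat_lit 1025906270), (nat_lit 0), (nat_lit 0)], (nat_lit 1271251), (nat_lit 1271251), (nat_lit 356250), (nat_lit 780000), (nat_lit 490000), (nat_lit 780000), [(nat_lit 1100000), (nat_lit 1785001), (nat_lit 1271251)], [(nat_lit 17),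 (nat_lit 58), (nat_lit 345), (nat_lit 125), (nat_lit 10)]⟩,
 ⟨⟨[(nat_lit 120), (nat_lit 160), (nat_lit 180)], [(nat_lit 0), (nat_lit 0), (nat_lit 1613)], [((nat_lit 0), (nat_lit 0), (nat_lit 0)), ((nat_lit 0), (nat_lit 0), (nat_lit 0)), ((nat_lit 620), (nat_lit 1000), (nat_lit 670))], ((nat_lit 100), (nat_lit 78), (nat_lit 48))⟩, (nat_lit 435215), (nat_lit 300), (nat_lit 575), (nat_lit 74200000), (nat_lit 640029), [(nat_lit 7968000000), (nat_lit 11872000000), (nat_lit 14058000000)], [], [(nat_lit 39452768500), (nat_lit 39207833576), (nat_lit 43888213811), (nat_lit 43359734641), (nat_lit 37061651550), (nat_lit 36786320168), (nat_lit 41119518256), (nat_lit 40573165153)], (nat_lit 1100000), (nat_lit 1271251), (nat_lit 1271251), (nat_lit 1271251), (nat_lit 490000), (nat_lit 780000), [(nat_lit 1695001), (nat_lit 1271251), (nat_lit 1271251)], [(nat_lit 28), (nat_lit 65), (nat_lit 401), (nat_lit 175), (nat_lit 9)]⟩⟩)) (.trZ (nat_lit 0) (nat_lit 1) (nat_lit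 3) (nat_lit 100) (nat_lit 84) (nat_lit 85) (nat_lit 80) (.leaf ⟨(nat_lit 0), (nat_lit 717), (nat_lit 0), (nat_lit 283), (nat_lit 0), (nat_lit 5697), (nat_lit 7984), (nat_lit 3546), (nat_lit 0), (nat_lit 0), (nat_lit 0), [], Pd.none, Pd.none, (nat_lit 0), (nat_lit 1), (nat_lit 0), (nat_lit 0), (nat_lit 6), (nat_lit 0), [⟨(nat_lit 0), (nat_lit 100), (nat_lit 81), (nat_lit 93), (nat_lit 773770971)⟩], [⟨(nat_lit 1), (nat_lit 77), (nat_lit 77), (nat_lit 100), (nat_lit 327232406)⟩], [⟨(nat_lit 0), (nat_lit 100), (nat_lit 95), (nat_lit 21), (nat_lit 395478772)⟩], [],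
 ⟨⟨[(nat_lit 40), (nat_lit 80), (nat_lit 100)], [(nat_lit 0), (nat_lit 0), (nat_lit 1280)], [((nat_lit 0), (nat_lit 0), (nat_lit 0)), ((nat_lit 0), (nat_lit 0), (nat_lit 0)), ((nat_lit 1000), (nat_lit 800), (nat_lit 600))], ((nat_lit 81), (nat_lit 100), (nat_lit 48))⟩, (nat_lit 1631811), (nat_lit 135), (nat_lit 135), (nat_lit 0), (nat_lit 111517), [(nat_lit 2364786890), (nat_lit 4688000001), (nat_lit 6250000000)], [], [(nat_lit 21426132480), (nat_lit 23123920679), (nat_lit 21499956696), (nat_lit 23109690574), (nat_lit 28034364335), (nat_lit 29417741804), (nat_lit 27763585316), (nat_lit 29067828247)], (nat_lit 1271251), (nat_lit 1271251), (nat_lit 490000), (nat_lit 780000), (nat_lit 1271251), (nat_lit 1271251), [(nat_lit 490000), (nat_lit 1100000), (nat_lit 1442501)], [(nat_lit 3), (nat_lit 50), (nat_lit 238), (nat_lit 30), (nat_lit 8)]⟩,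
 ⟨⟨[(nat_lit 80), (nat_lit 100), (nat_lit 120)], [(nat_lit 0), (nat_lit 265), (nat_lit 768)], [((nat_lit 0), (nat_lit 0), (nat_lit 0)), ((nat_lit 1000), (nat_lit 959), (nat_lit 206)), ((nat_lit 1000), (nat_lit 958), (nat_lit 392))], ((nat_lit 97), (nat_lit 100), (nat_lit 48))⟩, (nat_lit 8212511), (nat_lit 230), (nat_lit 230), (nat_lit 0), (nat_lit 142467), [(nat_lit 4688000000), (nat_lit 6250000000), (nat_lit 7968000000)], [], [(nat_lit 15434571592), (nat_lit 17759791408), (nat_lit 15553464976), (nat_lit 17689693776), (nat_lit 11390510468), (nat_lit 13216519761), (nat_lit 11720458195), (nat_lit 13447739037)], (nat_lit 1271251), (nat_lit 1271251), (nat_lit 490000), (nat_lit 780000), (nat_lit 0), (nat_lit 780000), [(nat_lit 1100000), (nat_lit 1442501), (nat_lit 1271251)], [(nat_lit 16), (nat_lit 54), (nat_lit 272), (nat_lit 60), (nat_lit 9)]⟩,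
 ⟨⟨[(nat_lit 120), (nat_lit 160), (nat_lit 180)], [(nat_lit 0), (nat_lit 0), (nat_lit 1613)], [((nat_lit 0), (nat_lit 0), (nat_lit 0)), ((nat_lit 0), (nat_lit 0), (nat_lit 0)), ((nat_lit 620), (nat_lit 1000), (nat_lit 670))], ((nat_lit 100), (nat_lit 78), (nat_lit 48))⟩, (nat_lit 123166), (nat_lit 300), (nat_lit 768), (nat_lit 20998600), (nat_lit 880011), [(nat_lit 2254944000), (nat_lit 3359776000), (nat_lit 3978414000)], [], [(nat_lit 15634857640), (nat_lit 15496531563), (nat_lit 15927969715), (nat_lit 15763479252), (nat_lit 13045438864), (nat_lit 12873027746), (nat_lit 13108070622), (nat_lit 12948251065)], (nat_lit 1100000), (nat_lit 1271251), (nat_lit 1271251), (nat_lit 1271251), (nat_lit 0), (nat_lit 780000), [(nat_lit 1695001), (nat_lit 1271251), (nat_lit 1271251)], [(nat_lit 28), (nat_lit 65), (nat_lit 401), (nat_lit 175), (nat_lit 9)]⟩⟩)))) (.stt (nat_lit 2) (.spl (nat_lit 0) (nat_lit 330) (.leaf ⟨(nat_lit 266), (nat_lit 564), (nat_lit 0),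 (nat_lit 170), (nat_lit 0), (nat_lit 4451), (nat_lit 7079), (nat_lit 1787), (nat_lit 0), (nat_lit 0), (nat_lit 1064000), [((nat_lit 330), [((nat_lit 37), (nat_lit 5), (nat_lit 266))])], ⟨(nat_lit 6), true, false, false, (nat_lit 152), (nat_lit 4183), (nat_lit 4473), [(nat_lit 1305197), (nat_lit 1311427), (nat_lit 1348323), (nat_lit 1354753), (nat_lit 1407167), (nat_lit 1410812), (nat_lit 1450291), (nat_lit 1454137)]⟩, ⟨(nat_lit 6), false, false, true, (nat_lit 251), (nat_lit 4183), (nat_lit 4473), [(nat_lit 1524844), (nat_lit 1522921), (nat_lit 1546410), (nat_lit 1544587), (nat_lit 1711784), (nat_lit 1705124), (nat_lit 1733350), (nat_lit 1726790)]⟩, (nat_lit 4819660), (nat_lit 41617555), (nat_lit 7900239), (nat_lit 17482206), (nat_lit 6), (nat_lit 0), [⟨(nat_lit 0), (nat_lit 100), (nat_lit 83), (nat_lit 98), (nat_lit 578320819)⟩], [⟨(nat_lit 1), (nat_lit 74), (nat_lit 79), (nat_lit 100), (nat_lit 23675038)⟩], [], [⟨(nat_lit 2), (nat_lit 100), (nat_lit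 100), (nat_lit 95), (nat_lit 219505600)⟩],
 ⟨⟨[(nat_lit 40), (nat_lit 80), (nat_lit 100)], [(nat_lit 0), (nat_lit 0), (nat_lit 1280)], [((nat_lit 0), (nat_lit 0), (nat_lit 0)), ((nat_lit 0), (nat_lit 0), (nat_lit 0)), ((nat_lit 1000), (nat_lit 800), (nat_lit 600))], ((nat_lit 81), (nat_lit 100), (nat_lit 48))⟩, (nat_lit 0), (nat_lit 156), (nat_lit 156), (nat_lit 0), (nat_lit 148409), [(nat_lit 2440669108), (nat_lit 2310487694), (nat_lit 1313252800)], [(nat_lit 0), (nat_lit 0), (nat_lit 0)], [(nat_lit 21559249722), (nat_lit 22195887716), (nat_lit 21454243482), (nat_lit 22049944520), (nat_lit 27106654587), (nat_lit 27812798169), (nat_lit 26285312363), (nat_lit 26800543508)], (nat_lit 1271251), (nat_lit 1271251), (nat_lit 356250), (nat_lit 780000), (nat_lit 1271251), (nat_lit 1271251), [(nat_lit 490000), (nat_lit 1100000), (nat_lit 1442501)], [(nat_lit 3), (nat_lit 50), (nat_lit 238), (nat_lit 30), (nat_lit 8)]⟩,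
 ⟨⟨[(nat_lit 80), (nat_lit 120), (nat_lit 140)], [(nat_lit 0), (nat_lit 0), (nat_lit 1164)], [((nat_lit 0), (nat_lit 0), (nat_lit 0)), ((nat_lit 0), (nat_lit 0), (nat_lit 0)), ((nat_lit 941), (nat_lit 1000), (nat_lit 576))], ((nat_lit 100), (nat_lit 98), (nat_lit 48))⟩, (nat_lit 3395259), (nat_lit 161), (nat_lit 161), (nat_lit 0), (nat_lit 0), [(nat_lit 3440992000), (nat_lit 5848512000), (nat_lit 7224028000)], [], [(nat_lit 11132050554), (nat_lit 14141502332), (nat_lit 9878108349), (nat_lit 12665757746), (nat_lit 23318583263), (nat_lit 25311222251), (nat_lit 21349924723), (nat_lit 22835513016)], (nat_lit 0), (nat_lit 0), (nat_lit 0), (nat_lit 0), (nat_lit 0), (nat_lit 0), [], [(nat_lit 17), (nat_lit 58), (nat_lit 428), (nat_lit 200), (nat_lit 12)]⟩,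
 ⟨⟨[(nat_lit 120), (nat_lit 160), (nat_lit 180)], [(nat_lit 0), (nat_lit 0), (nat_lit 1613)], [((nat_lit 0), (nat_lit 0), (nat_lit 0)), ((nat_lit 0), (nat_lit 0), (nat_lit 0)), ((nat_lit 620), (nat_lit 1000), (nat_lit 670))], ((nat_lit 100), (nat_lit 78), (nat_lit 48))⟩, (nat_lit 73986), (nat_lit 300), (nat_lit 1098), (nat_lit 12614004), (nat_lit 1790061), [(nat_lit 1354560000), (nat_lit 2018240000), (nat_lit 2389860000)], [], [(nat_lit 9688107930), (nat_lit 9586775203), (nat_lit 9364506238), (nat_lit 9258460697), (nat_lit 8608545826), (nat_lit 8500476845), (nat_lit 8226533806), (nat_lit 8117512108)], (nat_lit 1100000), (nat_lit 1271251), (nat_lit 1271251), (nat_lit 1271251), (nat_lit 780000), (nat_lit 2826876), [(nat_lit 1695001), (nat_lit 1271251), (nat_lit 1271251)], [(nat_lit 28), (nat_lit 65), (nat_lit 456), (nat_lit 225), (nat_lit 10)]⟩⟩) (.trZ (nat_lit 0) (nat_lit 1) (nat_lit 3) (nat_lit 100) (nat_lit 78) (nat_lit 81) (nat_lit 70) (.trX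 (nat_lit 4) (nat_lit 0) (nat_lit 2) (nat_lit 76) (nat_lit 73) (nat_lit 100) (nat_lit 340) (.leaf ⟨(nat_lit 0), (nat_lit 847), (nat_lit 0), (nat_lit 153), (nat_lit 0), (nat_lit 4430), (nat_lit 9644), (nat_lit 1633), (nat_lit 0), (nat_lit 0), (nat_lit 0), [], Pd.none, Pd.none, (nat_lit 0), (nat_lit 1), (nat_lit 0), (nat_lit 0), (nat_lit 6), (nat_lit 0), [⟨(nat_lit 0), (nat_lit 100), (nat_lit 77), (nat_lit 91), (nat_lit 600189549)⟩], [⟨(nat_lit 1), (nat_lit 79), (nat_lit 75), (nat_lit 100), (nat_lit 5289164)⟩], [], [⟨(nat_lit 2), (nat_lit 95), (nat_lit 100), (nat_lit 95), (nat_lit 369294993)⟩],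
 ⟨⟨[(nat_lit 40), (nat_lit 60), (nat_lit 80)], [(nat_lit 0), (nat_lit 197), (nat_lit 800)], [((nat_lit 0), (nat_lit 0), (nat_lit 0)), ((nat_lit 1000), (nat_lit 908), (nat_lit 154)), ((nat_lit 1000), (nat_lit 781), (nat_lit 471))], ((nat_lit 78), (nat_lit 100), (nat_lit 49))⟩, (nat_lit 3159854), (nat_lit 131), (nat_lit 131), (nat_lit 0), (nat_lit 169692), [(nat_lit 2032000538), (nat_lit 3282000262), (nat_lit 4688000000)], [], [(nat_lit 21296688189), (nat_lit 21963042985), (nat_lit 21398702722), (nat_lit 22027059366), (nat_lit 26595387835), (nat_lit 27317205955), (nat_lit 26073056451), (nat_lit 26755854760)], (nat_lit 1271251), (nat_lit 1271251), (nat_lit 422188), (nat_lit 780000), (nat_lit 1271251), (nat_lit 1271251), [(nat_lit 490000), (nat_lit 780000), (nat_lit 1100000)], [(nat_lit 2), (nat_lit 44), (nat_lit 238), (nat_lit 30), (nat_lit 9)]⟩,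
 ⟨⟨[(nat_lit 80), (nat_lit 120), (nat_lit 140)], [(nat_lit 0), (nat_lit 0), (nat_lit 1164)], [((nat_lit 0), (nat_lit 0), (nat_lit 0)), ((nat_lit 0), (nat_lit 0), (nat_lit 0)), ((nat_lit 941), (nat_lit 1000), (nat_lit 576))], ((nat_lit 100), (nat_lit 98), (nat_lit 48))⟩, (nat_lit 4625694), (nat_lit 151), (nat_lit 151), (nat_lit 0), (nat_lit 0), [(nat_lit 4688000000), (nat_lit 7968000000), (nat_lit 9842000000)], [], [(nat_lit 14343409404), (nat_lit 18414628944), (nat_lit 13458321884), (nat_lit 17256188038), (nat_lit 30883829814), (nat_lit 33365072593), (nat_lit 29087234968), (nat_lit 31111094347)], (nat_lit 0), (nat_lit 0), (nat_lit 0), (nat_lit 0), (nat_lit 0), (nat_lit 0), [], [(nat_lit 17), (nat_lit 58), (nat_lit 428), (nat_lit 200), (nat_lit 12)]⟩,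
 ⟨⟨[(nat_lit 120), (nat_lit 160), (nat_lit 180)], [(nat_lit 0), (nat_lit 0), (nat_lit 1613)], [((nat_lit 0), (nat_lit 0), (nat_lit 0)), ((nat_lit 0), (nat_lit 0), (nat_lit 0)), ((nat_lit 620), (nat_lit 1000), (nat_lit 670))], ((nat_lit 100), (nat_lit 78), (nat_lit 48))⟩, (nat_lit 66589), (nat_lit 300), (nat_lit 1269), (nat_lit 11352600), (nat_lit 2159496), [(nat_lit 1219104000), (nat_lit 1816416000), (nat_lit 2150874000)], [], [(nat_lit 8622378860), (nat_lit 8525470579), (nat_lit 8292020833), (nat_lit 8192599166), (nat_lit 7559376787), (nat_lit 7458693525), (nat_lit 7283689174), (nat_lit 7188897816)], (nat_lit 1100000), (nat_lit 1271251), (nat_lit 1271251), (nat_lit 1271251), (nat_lit 780000), (nat_lit 2826876), [(nat_lit 1695001), (nat_lit 1271251), (nat_lit 1271251)], [(nat_lit 28), (nat_lit 65), (nat_lit 456), (nat_lit 225), (nat_lit 10)]⟩⟩)))) (.leaf ⟨(nat_lit 769), (nat_lit 41), (nat_lit 0), (nat_lit 190), (nat_lit 0), (nat_lit 3688), (nat_lit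 1864), (nat_lit 2248), (nat_lit 0), (nat_lit 0), (nat_lit 1444000), [((nat_lit 340), [((nat_lit 37), (nat_lit 2), (nat_lit 480)), ((nat_lit 37), (nat_lit 5), (nat_lit 289))])], ⟨(nat_lit 6), false, false, false, (nat_lit 153), (nat_lit 3872), (nat_lit 4473), [(nat_lit 1305146), (nat_lit 1317698), (nat_lit 1348244), (nat_lit 1361249), (nat_lit 1407125), (nat_lit 1414492), (nat_lit 1450223), (nat_lit 1458043)]⟩, ⟨(nat_lit 6), false, false, true, (nat_lit 250), (nat_lit 3872), (nat_lit 4473), [(nat_lit 1524844), (nat_lit 1520934), (nat_lit 1546410), (nat_lit 1542727), (nat_lit 1711784), (nat_lit 1698368), (nat_lit 1733350), (nat_lit 1720161)]⟩, (nat_lit 4824890), (nat_lit 41630130), (nat_lit 7982934), (nat_lit 17386936), (nat_lit 6), (nat_lit 0), [⟨(nat_lit 0), (nat_lit 100), (nat_lit 80), (nat_lit 89), (nat_lit 612867955)⟩], [⟨(nat_lit 1), (nat_lit 77), (nat_lit 77), (nat_lit 100), (nat_lit 121516311)⟩], [], [],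
 ⟨⟨[(nat_lit 40), (nat_lit 80), (nat_lit 100)], [(nat_lit 0), (nat_lit 0), (nat_lit 1280)], [((nat_lit 0), (nat_lit 0), (nat_lit 0)), ((nat_lit 0), (nat_lit 0), (nat_lit 0)), ((nat_lit 1000), (nat_lit 800), (nat_lit 600))], ((nat_lit 81), (nat_lit 100), (nat_lit 48))⟩, (nat_lit 0), (nat_lit 165), (nat_lit 165), (nat_lit 0), (nat_lit 170900), [(nat_lit 1853468002), (nat_lit 1106251207), (nat_lit 0)], [(nat_lit 0), (nat_lit 0), (nat_lit 1562184800)], [(nat_lit 20178445304), (nat_lit 21339464726), (nat_lit 20286499184), (nat_lit 21403832415), (nat_lit 25933895737), (nat_lit 27221702336), (nat_lit 25492232712), (nat_lit 26535428719)], (nat_lit 1271251), (nat_lit 1271251), (nat_lit 356250), (nat_lit 780000), (nat_lit 1271251), (nat_lit 1271251), [(nat_lit 490000), (nat_lit 1100000), (nat_lit 1442501)], [(nat_lit 3), (nat_lit 50), (nat_lit 238), (nat_lit 30), (nat_lit 8)]⟩,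
 ⟨⟨[(nat_lit 80), (nat_lit 120), (nat_lit 140)], [(nat_lit 0), (nat_lit 0), (nat_lit 1164)], [((nat_lit 0), (nat_lit 0), (nat_lit 0)), ((nat_lit 0), (nat_lit 0), (nat_lit 0)), ((nat_lit 941), (nat_lit 1000), (nat_lit 576))], ((nat_lit 100), (nat_lit 98), (nat_lit 48))⟩, (nat_lit 686863), (nat_lit 242), (nat_lit 242), (nat_lit 0), (nat_lit 221672), [(nat_lit 1082928000), (nat_lit 1840608000), (nat_lit 2273502000)], [], [(nat_lit 8663549796), (nat_lit 6721201216), (nat_lit 5742604944), (nat_lit 4696246325), (nat_lit 10027575940), (nat_lit 8344405260), (nat_lit 11048318334), (nat_lit 9397152417)], (nat_lit 1271251), (nat_lit 1271251), (nat_lit 356250), (nat_lit 780000), (nat_lit 780000), (nat_lit 2826876), [(nat_lit 1100000), (nat_lit 1785001), (nat_lit 1271251)], [(nat_lit 17), (nat_lit 58), (nat_lit 428), (nat_lit 200), (nat_lit 12)]⟩,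
 ⟨⟨[(nat_lit 120), (nat_lit 160), (nat_lit 180)], [(nat_lit 0), (nat_lit 0), (nat_lit 1613)], [((nat_lit 0), (nat_lit 0), (nat_lit 0)), ((nat_lit 0), (nat_lit 0), (nat_lit 0)), ((nat_lit 620), (nat_lit 1000), (nat_lit 670))], ((nat_lit 100), (nat_lit 78), (nat_lit 48))⟩, (nat_lit 82691), (nat_lit 300), (nat_lit 906), (nat_lit 14098000), (nat_lit 1372140), [(nat_lit 1513920000), (nat_lit 2255680000), (nat_lit 2671020000)], [], [(nat_lit 9276632280), (nat_lit 9170370151), (nat_lit 9139605440), (nat_lit 9041597941), (nat_lit 8416454486), (nat_lit 8305955213), (nat_lit 8449643705), (nat_lit 8345836033)], (nat_lit 1100000), (nat_lit 1271251), (nat_lit 1271251), (nat_lit 1271251), (nat_lit 780000), (nat_lit 2826876), [(nat_lit 1695001), (nat_lit 1271251), (nat_lit 1271251)], [(nat_lit 28), (nat_lit 65), (nat_lit 456), (nat_lit 225), (nat_lit 10)]⟩⟩)))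
noncomputable def c11_43 : Tr Lf :=
 (.spl (nat_lit 5) (nat_lit 120) (.spl (nat_lit 1) (nat_lit 260) (.spl (nat_lit 6) (nat_lit 32) (.leaf ⟨(nat_lit 0), (nat_lit 417), (nat_lit 0), (nat_lit 583), (nat_lit 19646), (nat_lit 5760), (nat_lit 7984), (nat_lit 6588), (nat_lit 0), (nat_lit 0), (nat_lit 0), [], Pd.none, Pd.none, (nat_lit 0), (nat_lit 1), (nat_lit 0), (nat_lit 0), (nat_lit 6), (nat_lit 0), [⟨(nat_lit 0), (nat_lit 100), (nat_lit 78), (nat_lit 85), (nat_lit 1209774816)⟩], [], [⟨(nat_lit 0), (nat_lit 100), (nat_lit 98), (nat_lit 10), (nat_lit 595155484)⟩], [],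
 ⟨⟨[(nat_lit 40), (nat_lit 80), (nat_lit 100)], [(nat_lit 0), (nat_lit 0), (nat_lit 1280)], [((nat_lit 0), (nat_lit 0), (nat_lit 0)), ((nat_lit 0), (nat_lit 0), (nat_lit 0)), ((nat_lit 1000), (nat_lit 800), (nat_lit 600))], ((nat_lit 80), (nat_lit 100), (nat_lit 54))⟩, (nat_lit 1566718), (nat_lit 127), (nat_lit 127), (nat_lit 0), (nat_lit 30750), [(nat_lit 2377882567), (nat_lit 4688000036), (nat_lit 6250000000)], [], [(nat_lit 22340588520), (nat_lit 24075552560), (nat_lit 21533733040), (nat_lit 23153954780), (nat_lit 29118635365), (nat_lit 30744480929), (nat_lit 27830849830), (nat_lit 29063719079)], (nat_lit 1271251), (nat_lit 1271251), (nat_lit 356250), (nat_lit 780000), (nat_lit 1271251), (nat_lit 1271251), [(nat_lit 490000), (nat_lit 1100000), (nat_lit 1442501)], [(nat_lit 3), (nat_lit 50), (nat_lit 238), (nat_lit 30), (nat_lit 8)]⟩,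
 ⟨⟨[(nat_lit 80), (nat_lit 120), (nat_lit 140)], [(nat_lit 0), (nat_lit 0), (nat_lit 1164)], [((nat_lit 0), (nat_lit 0), (nat_lit 0)), ((nat_lit 0), (nat_lit 0), (nat_lit 0)), ((nat_lit 941), (nat_lit 1000), (nat_lit 576))], ((nat_lit 100), (nat_lit 95), (nat_lit 55))⟩, (nat_lit 4827035), (nat_lit 243), (nat_lit 243), (nat_lit 0), (nat_lit 43772), [(nat_lit 4688000000), (nat_lit 7968000000), (nat_lit 9842000000)], [], [(nat_lit 21598995308), (nat_lit 23622213136), (nat_lit 20082907200), (nat_lit 21860705920), (nat_lit 17321551448), (nat_lit 18738429963), (nat_lit 20404973040), (nat_lit 17881969864)], (nat_lit 1271251), (nat_lit 1271251), (nat_lit 356250), (nat_lit 780000), (nat_lit 0), (nat_lit 780000), [(nat_lit 1100000), (nat_lit 1785001), (nat_lit 1271251)], [(nat_lit 17), (nat_lit 58), (nat_lit 345), (nat_lit 125), (nat_lit 10)]⟩,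
 ⟨⟨[(nat_lit 120), (nat_lit 160), (nat_lit 180)], [(nat_lit 0), (nat_lit 0), (nat_lit 1613)], [((nat_lit 0), (nat_lit 0), (nat_lit 0)), ((nat_lit 0), (nat_lit 0), (nat_lit 0)), ((nat_lit 620), (nat_lit 1000), (nat_lit 670))], ((nat_lit 100), (nat_lit 73), (nat_lit 55))⟩, (nat_lit 253730), (nat_lit 300), (nat_lit 448), (nat_lit 43258600), (nat_lit 238402), [(nat_lit 4645344000), (nat_lit 6921376000), (nat_lit 8195814000)], [], [(nat_lit 31049730151), (nat_lit 30935539030), (nat_lit 32653259948), (nat_lit 32487143300), (nat_lit 25974220191), (nat_lit 25856732078), (nat_lit 27353484896), (nat_lit 27143016046)], (nat_lit 1100000), (nat_lit 1271251), (nat_lit 1271251), (nat_lit 1271251), (nat_lit 0), (nat_lit 780000), [(nat_lit 1695001), (nat_lit 1271251), (nat_lit 1271251)], [(nat_lit 28), (nat_lit 65), (nat_lit 401), (nat_lit 175), (nat_lit 9)]⟩⟩) (.dle (nat_lit 0))) (.trZ (nat_lit 0) (nat_lit 1) (nat_lit 3) (nat_lit 100) (nat_lit 84) (nat_lit 85)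 (nat_lit 80) (.leaf ⟨(nat_lit 0), (nat_lit 703), (nat_lit 0), (nat_lit 297), (nat_lit 13934), (nat_lit 5760), (nat_lit 7742), (nat_lit 3806), (nat_lit 0), (nat_lit 0), (nat_lit 0), [], Pd.none, Pd.none, (nat_lit 0), (nat_lit 1), (nat_lit 0), (nat_lit 0), (nat_lit 6), (nat_lit 0), [⟨(nat_lit 0), (nat_lit 100), (nat_lit 81), (nat_lit 93), (nat_lit 816678045)⟩], [⟨(nat_lit 1), (nat_lit 77), (nat_lit 77), (nat_lit 100), (nat_lit 279926033)⟩], [⟨(nat_lit 0), (nat_lit 100), (nat_lit 95), (nat_lit 21), (nat_lit 417494431)⟩], [],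
 ⟨⟨[(nat_lit 40), (nat_lit 80), (nat_lit 120)], [(nat_lit 0), (nat_lit 0), (nat_lit 2151)], [((nat_lit 0), (nat_lit 0), (nat_lit 0)), ((nat_lit 0), (nat_lit 0), (nat_lit 0)), ((nat_lit 1000), (nat_lit 815), (nat_lit 753))], ((nat_lit 80), (nat_lit 100), (nat_lit 63))⟩, (nat_lit 2127223), (nat_lit 141), (nat_lit 141), (nat_lit 0), (nat_lit 63824), [(nat_lit 2510468775), (nat_lit 4688000023), (nat_lit 7968000000)], [], [(nat_lit 22145939007), (nat_lit 23722171327), (nat_lit 22124042847), (nat_lit 23619462027), (nat_lit 28236991167), (nat_lit 29508384810), (nat_lit 27898376877), (nat_lit 29063719066)], (nat_lit 1271251), (nat_lit 1271251), (nat_lit 490000), (nat_lit 780000), (nat_lit 1271251), (nat_lit 1271251), [(nat_lit 490000), (nat_lit 1100000), (nat_lit 1785001)], [(nat_lit 4), (nat_lit 51), (nat_lit 238), (nat_lit 30), (nat_lit 7)]⟩,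
 ⟨⟨[(nat_lit 80), (nat_lit 120), (nat_lit 140)], [(nat_lit 0), (nat_lit 528), (nat_lit 1572)], [((nat_lit 0), (nat_lit 0), (nat_lit 0)), ((nat_lit 1000), (nat_lit 959), (nat_lit 206)), ((nat_lit 966), (nat_lit 1000), (nat_lit 679))], ((nat_lit 100), (nat_lit 98), (nat_lit 66))⟩, (nat_lit 5081465), (nat_lit 226), (nat_lit 226), (nat_lit 0), (nat_lit 82166), [(nat_lit 4688000000), (nat_lit 7968000000), (nat_lit 9842000000)], [], [(nat_lit 19548349412), (nat_lit 21510524868), (nat_lit 19469942475), (nat_lit 21321123642), (nat_lit 15474088188), (nat_lit 17107073228), (nat_lit 15680231787), (nat_lit 17215398496)], (nat_lit 1271251), (nat_lit 1271251), (nat_lit 490000), (nat_lit 780000), (nat_lit 0), (nat_lit 780000), [(nat_lit 1100000), (nat_lit 1785001), (nat_lit 1271251)], [(nat_lit 17), (nat_lit 58), (nat_lit 373), (nat_lit 150), (nat_lit 11)]⟩,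
 ⟨⟨[(nat_lit 120), (nat_lit 160), (nat_lit 180)], [(nat_lit 0), (nat_lit 0), (nat_lit 1613)], [((nat_lit 0), (nat_lit 0), (nat_lit 0)), ((nat_lit 0), (nat_lit 0), (nat_lit 0)), ((nat_lit 620), (nat_lit 1000), (nat_lit 670))], ((nat_lit 100), (nat_lit 65), (nat_lit 64))⟩, (nat_lit 129259), (nat_lit 300), (nat_lit 584), (nat_lit 22037400), (nat_lit 489446), [(nat_lit 2366496000), (nat_lit 3525984000), (nat_lit 4175226000)], [], [(nat_lit 16263355944), (nat_lit 16125871641), (nat_lit 16576846583), (nat_lit 16465750003), (nat_lit 13307828534), (nat_lit 13172075857), (nat_lit 13540382218), (nat_lit 13366734311)], (nat_lit 1100000), (nat_lit 1271251), (nat_lit 1271251), (nat_lit 1271251), (nat_lit 0), (nat_lit 780000), [(nat_lit 1695001), (nat_lit 1271251), (nat_lit 1271251)], [(nat_lit 28), (nat_lit 65), (nat_lit 401), (nat_lit 175), (nat_lit 9)]⟩⟩))) (.leaf ⟨(nat_lit 0), (nat_lit 0), (nat_lit 0), (nat_lit 1000), (nat_lit 36445), (nat_lit 6686), (nat_lit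 16722), (nat_lit 14392), (nat_lit 0), (nat_lit 0), (nat_lit 0), [], Pd.none, Pd.none, (nat_lit 0), (nat_lit 1), (nat_lit 0), (nat_lit 0), (nat_lit 0), (nat_lit 0), [⟨(nat_lit 0), (nat_lit 100), (nat_lit 80), (nat_lit 89), (nat_lit 3653394508)⟩], [], [], [],
 ⟨⟨[(nat_lit 40), (nat_lit 80), (nat_lit 120)], [(nat_lit 0), (nat_lit 0), (nat_lit 2151)], [((nat_lit 0), (nat_lit 0), (nat_lit 0)), ((nat_lit 0), (nat_lit 0), (nat_lit 0)), ((nat_lit 1000), (nat_lit 815), (nat_lit 753))], ((nat_lit 80), (nat_lit 100), (nat_lit 63))⟩, (nat_lit 2563070), (nat_lit 155), (nat_lit 155), (nat_lit 0), (nat_lit 63824), [(nat_lit 2456748861), (nat_lit 4688000006), (nat_lit 7968000000)], [], [(nat_lit 21754707510), (nat_lit 23760464097), (nat_lit 20519401102), (nat_lit 22153379917), (nat_lit 30541931164), (nat_lit 32318850127), (nat_lit 28524065400), (nat_lit 30193961872)], (nat_lit 1271251), (nat_lit 1271251), (nat_lit 356250), (nat_lit 780000), (nat_lit 1271251),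 (nat_lit 1271251), [(nat_lit 490000), (nat_lit 1100000), (nat_lit 1785001)], [(nat_lit 4), (nat_lit 51), (nat_lit 238), (nat_lit 30), (nat_lit 7)]⟩,
 ⟨⟨[(nat_lit 80), (nat_lit 120), (nat_lit 160)], [(nat_lit 0), (nat_lit 0), (nat_lit 2132)], [((nat_lit 0), (nat_lit 0), (nat_lit 0)), ((nat_lit 0), (nat_lit 0), (nat_lit 0)), ((nat_lit 858), (nat_lit 1000), (nat_lit 713))], ((nat_lit 100), (nat_lit 91), (nat_lit 64))⟩, (nat_lit 7107942), (nat_lit 219), (nat_lit 219), (nat_lit 0), (nat_lit 85092), [(nat_lit 4688000000), (nat_lit 7968000000), (nat_lit 11872000000)], [], [(nat_lit 46220804563), (nat_lit 28795937098), (nat_lit 20016920542), (nat_lit 10459110319), (nat_lit 43852764203), (nat_lit 45320032974), (nat_lit 51014763121), (nat_lit 38650357684)], (nat_lit 1271251), (nat_lit 1271251), (nat_lit 356250), (nat_lit 780000), (nat_lit 780000), (nat_lit 2826876), [(nat_lit 1100000), (nat_lit 1785001), (nat_lit 1271251)], [(nat_lit 18), (nat_lit 59), (nat_lit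 428), (nat_lit 200), (nat_lit 11)]⟩,
 ⟨⟨[(nat_lit 120), (nat_lit 160), (nat_lit 180)], [(nat_lit 0), (nat_lit 0), (nat_lit 1613)], [((nat_lit 0), (nat_lit 0), (nat_lit 0)), ((nat_lit 0), (nat_lit 0), (nat_lit 0)), ((nat_lit 620), (nat_lit 1000), (nat_lit 670))], ((nat_lit 100), (nat_lit 65), (nat_lit 64))⟩, (nat_lit 435214), (nat_lit 300), (nat_lit 605), (nat_lit 74200000), (nat_lit 757158), [(nat_lit 7968000000), (nat_lit 11872000000), (nat_lit 14058000000)], [], [(nat_lit 40933709552), (nat_lit 40379429484), (nat_lit 43013042588), (nat_lit 42562957011), (nat_lit 39538513336), (nat_lit 38953275792), (nat_lit 43113412179), (nat_lit 42615345327)], (nat_lit 1100000), (nat_lit 1271251), (nat_lit 1271251), (nat_lit 1271251), (nat_lit 780000), (nat_lit 2826876), [(nat_lit 1695001), (nat_lit 1271251), (nat_lit 1271251)], [(nat_lit 28), (nat_lit 65), (nat_lit 456), (nat_lit 225), (nat_lit 10)]⟩⟩))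
noncomputable def c11_44 : Tr Lf :=
 (.trZ (nat_lit 0) (nat_lit 1) (nat_lit 3) (nat_lit 100) (nat_lit 87) (nat_lit 95) (nat_lit 100) (.spl (nat_lit 5) (nat_lit 200) (.leaf ⟨(nat_lit 0), (nat_lit 870), (nat_lit 0), (nat_lit 130), (nat_lit 502), (nat_lit 6516), (nat_lit 10597), (nat_lit 1487), (nat_lit 0), (nat_lit 0), (nat_lit 0), [], Pd.none, Pd.none, (nat_lit 0), (nat_lit 1), (nat_lit 0), (nat_lit 0), (nat_lit 6), (nat_lit 0), [⟨(nat_lit 0), (nat_lit 100), (nat_lit 87), (nat_lit 95), (nat_lit 818581819)⟩], [⟨(nat_lit 1), (nat_lit 68), (nat_lit 80), (nat_lit 100), (nat_lit 441355038)⟩], [], [],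
 ⟨⟨[(nat_lit 40), (nat_lit 80), (nat_lit 120)], [(nat_lit 0), (nat_lit 0), (nat_lit 2151)], [((nat_lit 0), (nat_lit 0), (nat_lit 0)), ((nat_lit 0), (nat_lit 0), (nat_lit 0)), ((nat_lit 1000), (nat_lit 815), (nat_lit 753))], ((nat_lit 80), (nat_lit 100), (nat_lit 63))⟩, (nat_lit 1829322), (nat_lit 185), (nat_lit 185), (nat_lit 0), (nat_lit 246696), [(nat_lit 2569561777), (nat_lit 4688000101), (nat_lit 7968000000)], [], [(nat_lit 23248300875), (nat_lit 24637792576), (nat_lit 23186273943), (nat_lit 24538499965), (nat_lit 28604032059), (nat_lit 30291282482), (nat_lit 28342606358), (nat_lit 29986464079)], (nat_lit 1271251), (nat_lit 1271251), (nat_lit 631250), (nat_lit 780000), (nat_lit 1271251), (nat_lit 1271251), [(nat_lit 490000), (nat_lit 1100000), (nat_lit 1785001)], [(nat_lit 4), (nat_lit 51), (nat_lit 238), (nat_lit 30), (nat_lit 7)]⟩,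
 ⟨⟨[(nat_lit 60), (nat_lit 100), (nat_lit 140)], [(nat_lit 0), (nat_lit 0), (nat_lit 2047)], [((nat_lit 0), (nat_lit 0), (nat_lit 0)), ((nat_lit 0), (nat_lit 0), (nat_lit 0)), ((nat_lit 1000), (nat_lit 993), (nat_lit 781))], ((nat_lit 95), (nat_lit 100), (nat_lit 65))⟩, (nat_lit 3386350), (nat_lit 339), (nat_lit 339), (nat_lit 0), (nat_lit 271595), [(nat_lit 3282000000), (nat_lit 6250000000), (nat_lit 9842000000)], [], [(nat_lit 23359626873), (nat_lit 28062049053), (nat_lit 23057220727), (nat_lit 27615160896), (nat_lit 20874787191), (nat_lit 19867192755), (nat_lit 22879121960), (nat_lit 19461966495)], (nat_lit 1271251), (nat_lit 1271251), (nat_lit 631250), (nat_lit 780000), (nat_lit 0), (nat_lit 1412501), [(nat_lit 780000), (nat_lit 1435001), (nat_lit 1271251)], [(nat_lit 11), (nat_lit 55), (nat_lit 317), (nat_lit 100), (nat_lit 9)]⟩,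
 ⟨⟨[(nat_lit 120), (nat_lit 160), (nat_lit 180)], [(nat_lit 0), (nat_lit 0), (nat_lit 1613)], [((nat_lit 0), (nat_lit 0), (nat_lit 0)), ((nat_lit 0), (nat_lit 0), (nat_lit 0)), ((nat_lit 620), (nat_lit 1000), (nat_lit 670))], ((nat_lit 100), (nat_lit 65), (nat_lit 64))⟩, (nat_lit 56578), (nat_lit 300), (nat_lit 1865), (nat_lit 9646000), (nat_lit 3248697), [(nat_lit 1035840000), (nat_lit 1543360000), (nat_lit 1827540000)], [], [(nat_lit 7620376428), (nat_lit 7546835922), (nat_lit 7550822531), (nat_lit 7484848757), (nat_lit 6206552792), (nat_lit 6124572206), (nat_lit 6056052484), (nat_lit 5975986426)], (nat_lit 1100000), (nat_lit 1271251), (nat_lit 1271251), (nat_lit 1271251), (nat_lit 0), (nat_lit 1412501), [(nat_lit 1695001), (nat_lit 1271251), (nat_lit 1271251)], [(nat_lit 28), (nat_lit 65), (nat_lit 558), (nat_lit 200), (nat_lit 13)]⟩⟩) (.leaf ⟨(nat_lit 128), (nat_lit 696), (nat_lit 0), (nat_lit 176), (nat_lit 0), (nat_lit 5247), (nat_lit 7297),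 (nat_lit 1908), (nat_lit 0), (nat_lit 0), (nat_lit 512000), [((nat_lit 340), [((nat_lit 37), (nat_lit 5), (nat_lit 128))])], ⟨(nat_lit 7), false, false, false, (nat_lit 184), (nat_lit 3872), (nat_lit 4473), [(nat_lit 1416230), (nat_lit 1425778), (nat_lit 1459327), (nat_lit 1469330), (nat_lit 1450223), (nat_lit 1458043), (nat_lit 1493321), (nat_lit 1501595)]⟩, ⟨(nat_lit 6), false, false, true, (nat_lit 250), (nat_lit 3872), (nat_lit 4473), [(nat_lit 1524844), (nat_lit 1520934), (nat_lit 1546410), (nat_lit 1542727), (nat_lit 1711784), (nat_lit 1698368), (nat_lit 1733350), (nat_lit 1720161)]⟩, (nat_lit 5089762), (nat_lit 39814129), (nat_lit 10310855), (nat_lit 16875016), (nat_lit 6), (nat_lit 0), [⟨(nat_lit 0), (nat_lit 92), (nat_lit 81), (nat_lit 100), (nat_lit 1285172560)⟩], [], [], [⟨(nat_lit 2), (nat_lit 92), (nat_lit 99), (nat_lit 100), (nat_lit 327348365)⟩],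
 ⟨⟨[(nat_lit 40), (nat_lit 80), (nat_lit 120)], [(nat_lit 0), (nat_lit 0), (nat_lit 2151)], [((nat_lit 0), (nat_lit 0), (nat_lit 0)), ((nat_lit 0), (nat_lit 0), (nat_lit 0)), ((nat_lit 1000), (nat_lit 815), (nat_lit 753))], ((nat_lit 80), (nat_lit 100), (nat_lit 63))⟩, (nat_lit 1252484), (nat_lit 185), (nat_lit 185), (nat_lit 0), (nat_lit 246696), [(nat_lit 2202820233), (nat_lit 3512078604), (nat_lit 4236766196)], [(nat_lit 0), (nat_lit 0), (nat_lit 0)], [(nat_lit 21685061923), (nat_lit 22953873277), (nat_lit 21712588083), (nat_lit 23010514858), (nat_lit 27169748566), (nat_lit 28603922924), (nat_lit 27113514855), (nat_lit 28437554087)], (nat_lit 1271251), (nat_lit 1271251), (nat_lit 631250), (nat_lit 780000), (nat_lit 1271251), (nat_lit 1271251), [(nat_lit 490000), (nat_lit 1100000), (nat_lit 1785001)], [(nat_lit 4), (nat_lit 51), (nat_lit 238), (nat_lit 30), (nat_lit 7)]⟩,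
 ⟨⟨[(nat_lit 60), (nat_lit 100), (nat_lit 140)], [(nat_lit 0), (nat_lit 0), (nat_lit 2047)], [((nat_lit 0), (nat_lit 0), (nat_lit 0)), ((nat_lit 0), (nat_lit 0), (nat_lit 0)), ((nat_lit 1000), (nat_lit 993), (nat_lit 781))], ((nat_lit 95), (nat_lit 100), (nat_lit 65))⟩, (nat_lit 3094430), (nat_lit 225), (nat_lit 225), (nat_lit 0), (nat_lit 271595), [(nat_lit 2861904000), (nat_lit 5450000000), (nat_lit 8582224000)], [], [(nat_lit 16921686339), (nat_lit 19325182707), (nat_lit 16772507744), (nat_lit 19210699218), (nat_lit 26324645250), (nat_lit 28740356095), (nat_lit 25943305315), (nat_lit 28292495714)], (nat_lit 1271251), (nat_lit 1271251), (nat_lit 631250), (nat_lit 780000), (nat_lit 1271251), (nat_lit 1271251), [(nat_lit 780000), (nat_lit 1435001), (nat_lit 1271251)], [(nat_lit 11), (nat_lit 55), (nat_lit 345), (nat_lit 125), (nat_lit 9)]⟩,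
 ⟨⟨[(nat_lit 120), (nat_lit 160), (nat_lit 180)], [(nat_lit 0), (nat_lit 0), (nat_lit 1613)], [((nat_lit 0), (nat_lit 0), (nat_lit 0)), ((nat_lit 0), (nat_lit 0), (nat_lit 0)), ((nat_lit 620), (nat_lit 1000), (nat_lit 670))], ((nat_lit 100), (nat_lit 65), (nat_lit 64))⟩, (nat_lit 76598), (nat_lit 300), (nat_lit 1749), (nat_lit 13059200), (nat_lit 3248697), [(nat_lit 1402368000), (nat_lit 2089472000), (nat_lit 2474208000)], [], [(nat_lit 9218231288), (nat_lit 9102516054), (nat_lit 8736612276), (nat_lit 8626696826), (nat_lit 8490040666), (nat_lit 8377611464), (nat_lit 8247714645), (nat_lit 8145669243)], (nat_lit 1100000), (nat_lit 1271251), (nat_lit 1271251), (nat_lit 1271251), (nat_lit 1271251), (nat_lit 1271251), [(nat_lit 1695001), (nat_lit 1271251), (nat_lit 1271251)], [(nat_lit 28), (nat_lit 65), (nat_lit 550), (nat_lit 225), (nat_lit 12)]⟩⟩)))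
noncomputable def c11_45 : Tr Lf :=
 (.spl (nat_lit 5) (nat_lit 120) (.spl (nat_lit 1) (nat_lit 280) (.spl (nat_lit 6) (nat_lit 24) (.spl (nat_lit 6) (nat_lit 12) (.leaf ⟨(nat_lit 0), (nat_lit 582), (nat_lit 0), (nat_lit 418), (nat_lit 0), (nat_lit 5022), (nat_lit 15624), (nat_lit 4263), (nat_lit 0), (nat_lit 0), (nat_lit 0), [], Pd.none, Pd.none, (nat_lit 0), (nat_lit 1), (nat_lit 0), (nat_lit 0), (nat_lit 6), (nat_lit 0), [⟨(nat_lit 0), (nat_lit 100), (nat_lit 80), (nat_lit 89), (nat_lit 1504857504)⟩], [⟨(nat_lit 1), (nat_lit 65), (nat_lit 76), (nat_lit 100), (nat_lit 139844479)⟩], [⟨(nat_lit 0), (nat_lit 100), (nat_lit 95), (nat_lit 30), (nat_lit 39065808)⟩], [],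
 ⟨⟨[(nat_lit 40), (nat_lit 60), (nat_lit 80)], [(nat_lit 0), (nat_lit 0), (nat_lit 615)], [((nat_lit 0), (nat_lit 0), (nat_lit 0)), ((nat_lit 0), (nat_lit 0), (nat_lit 0)), ((nat_lit 1000), (nat_lit 819), (nat_lit 426))], ((nat_lit 84), (nat_lit 100), (nat_lit 36))⟩, (nat_lit 6705561), (nat_lit 193), (nat_lit 193), (nat_lit 0), (nat_lit 289881), [(nat_lit 2032000968), (nat_lit 3282000148), (nat_lit 4688000000)], [], [(nat_lit 22404825736), (nat_lit 23760553344), (nat_lit 22279609572), (nat_lit 23544803751), (nat_lit 30454198150), (nat_lit 31818488311), (nat_lit 29067460159), (nat_lit 30356329510)], (nat_lit 1271251), (nat_lit 1271251), (nat_lit 356250), (nat_lit 780000), (nat_lit 1271251), (nat_lit 1271251), [(nat_lit 490000), (nat_lit 780000), (nat_lit 1100000)], [(nat_lit 2), (nat_lit 44), (nat_lit 238), (nat_lit 30), (nat_lit 10)]⟩,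
 ⟨⟨[(nat_lit 80), (nat_lit 100), (nat_lit 120)], [(nat_lit 0), (nat_lit 0), (nat_lit 511)], [((nat_lit 0), (nat_lit 0), (nat_lit 0)), ((nat_lit 0), (nat_lit 0), (nat_lit 0)), ((nat_lit 1000), (nat_lit 997), (nat_lit 383))], ((nat_lit 99), (nat_lit 100), (nat_lit 34))⟩, (nat_lit 714020), (nat_lit 262), (nat_lit 262), (nat_lit 0), (nat_lit 205803), [(nat_lit 4688000000), (nat_lit 6250000000), (nat_lit 7968000000)], [], [(nat_lit 20342679276), (nat_lit 30774298464), (nat_lit 17900741376), (nat_lit 24714638952), (nat_lit 18721631604), (nat_lit 14744163202), (nat_lit 24448162632), (nat_lit 11148667028)], (nat_lit 1271251), (nat_lit 1271251), (nat_lit 356250), (nat_lit 780000), (nat_lit 0), (nat_lit 780000), [(nat_lit 1100000), (nat_lit 1442501), (nat_lit 1271251)], [(nat_lit 16), (nat_lit 54), (nat_lit 272), (nat_lit 60), (nat_lit 9)]⟩,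
 ⟨⟨[(nat_lit 120), (nat_lit 140), (nat_lit 160)], [(nat_lit 0), (nat_lit 266), (nat_lit 862)], [((nat_lit 0), (nat_lit 0), (nat_lit 0)), ((nat_lit 960), (nat_lit 1000), (nat_lit 200)), ((nat_lit 874), (nat_lit 1000), (nat_lit 406))], ((nat_lit 100), (nat_lit 91), (nat_lit 34))⟩, (nat_lit 2399892), (nat_lit 300), (nat_lit 762), (nat_lit 27755200), (nat_lit 1058138), [(nat_lit 3330624000), (nat_lit 4113956000), (nat_lit 4962496000)], [], [(nat_lit 20323585767), (nat_lit 20085046213), (nat_lit 20891803830), (nat_lit 20541800086), (nat_lit 17522764068), (nat_lit 17251726816), (nat_lit 17933379786), (nat_lit 17587208491)], (nat_lit 1271251), (nat_lit 1271251), (nat_lit 1271251), (nat_lit 1271251), (nat_lit 0), (nat_lit 780000), [(nat_lit 1695001), (nat_lit 1271251), (nat_lit 1271251)], [(nat_lit 27), (nat_lit 62), (nat_lit 428), (nat_lit 200), (nat_lit 11)]⟩⟩) (.leaf ⟨(nat_lit 202), (nat_lit 137), (nat_lit 0), (nat_lit 661), (nat_lit 0), (nat_lit 5589),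 (nat_lit 18003), (nat_lit 7891), (nat_lit 0), (nat_lit 0), (nat_lit 808000), [((nat_lit 340), [((nat_lit 37), (nat_lit 5), (nat_lit 202))])], ⟨(nat_lit 6), false, false, false, (nat_lit 153), (nat_lit 3872), (nat_lit 4473), [(nat_lit 1305146), (nat_lit 1317698), (nat_lit 1348244), (nat_lit 1361249), (nat_lit 1407125), (nat_lit 1414492), (nat_lit 1450223), (nat_lit 1458043)]⟩, ⟨(nat_lit 6), false, true, true, (nat_lit 273), (nat_lit 3872), (nat_lit 4473), [(nat_lit 1546410), (nat_lit 1542727), (nat_lit 1589534), (nat_lit 1586304), (nat_lit 1784334), (nat_lit 1768552), (nat_lit 1827467), (nat_lit 1812139)]⟩, (nat_lit 4925737), (nat_lit 39754463), (nat_lit 7752870), (nat_lit 19492667), (nat_lit 6), (nat_lit 0), [⟨(nat_lit 0), (nat_lit 100), (nat_lit 80), (nat_lit 89), (nat_lit 1423643304)⟩], [], [⟨(nat_lit 0), (nat_lit 100), (nat_lit 98), (nat_lit 10), (nat_lit 362286749)⟩], [],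
 ⟨⟨[(nat_lit 40), (nat_lit 80), (nat_lit 100)], [(nat_lit 0), (nat_lit 0), (nat_lit 1280)], [((nat_lit 0), (nat_lit 0), (nat_lit 0)), ((nat_lit 0), (nat_lit 0), (nat_lit 0)), ((nat_lit 1000), (nat_lit 800), (nat_lit 600))], ((nat_lit 81), (nat_lit 100), (nat_lit 48))⟩, (nat_lit 0), (nat_lit 179), (nat_lit 179), (nat_lit 0), (nat_lit 183561), [(nat_lit 2369321356), (nat_lit 2854778996), (nat_lit 2501058204)], [(nat_lit 0), (nat_lit 0), (nat_lit 0)], [(nat_lit 20813840083), (nat_lit 22695427660), (nat_lit 20212312348), (nat_lit 21553529919), (nat_lit 31483558300), (nat_lit 32927615970), (nat_lit 29819091529), (nat_lit 31182422995)], (nat_lit 1271251), (nat_lit 1271251), (nat_lit 356250), (nat_lit 780000), (nat_lit 1271251), (nat_lit 1271251), [(nat_lit 490000), (nat_lit 1100000), (nat_lit 1442501)], [(nat_lit 3), (nat_lit 50), (nat_lit 238), (nat_lit 30), (nat_lit 8)]⟩,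
 ⟨⟨[(nat_lit 80), (nat_lit 120), (nat_lit 140)], [(nat_lit 0), (nat_lit 0), (nat_lit 1164)], [((nat_lit 0), (nat_lit 0), (nat_lit 0)), ((nat_lit 0), (nat_lit 0), (nat_lit 0)), ((nat_lit 941), (nat_lit 1000), (nat_lit 576))], ((nat_lit 100), (nat_lit 98), (nat_lit 48))⟩, (nat_lit 0), (nat_lit 308), (nat_lit 308), (nat_lit 0), (nat_lit 134275), [(nat_lit 3741024000), (nat_lit 6358464000), (nat_lit 7853916000)], [], [(nat_lit 27770004786), (nat_lit 32300583767), (nat_lit 25786558206), (nat_lit 26204720625), (nat_lit 26948633360), (nat_lit 15627738157), (nat_lit 33641248212), (nat_lit 17224249502)], (nat_lit 1271251), (nat_lit 1271251), (nat_lit 356250), (nat_lit 780000), (nat_lit 0), (nat_lit 780000), [(nat_lit 1100000), (nat_lit 1785001), (nat_lit 1271251)], [(nat_lit 17), (nat_lit 58), (nat_lit 373), (nat_lit 150), (nat_lit 11)]⟩,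
 ⟨⟨[(nat_lit 120), (nat_lit 140), (nat_lit 160)], [(nat_lit 0), (nat_lit 266), (nat_lit 862)], [((nat_lit 0), (nat_lit 0), (nat_lit 0)), ((nat_lit 960), (nat_lit 1000), (nat_lit 200)), ((nat_lit 874), (nat_lit 1000), (nat_lit 406))], ((nat_lit 100), (nat_lit 83), (nat_lit 48))⟩, (nat_lit 1356789), (nat_lit 300), (nat_lit 576), (nat_lit 43890401), (nat_lit 662192), [(nat_lit 5266848000), (nat_lit 6505562000), (nat_lit 7847392000)], [], [(nat_lit 28453222055), (nat_lit 28216813861), (nat_lit 31694431193), (nat_lit 31414805301), (nat_lit 22798697408), (nat_lit 22537914864), (nat_lit 25150440157), (nat_lit 24872400093)], (nat_lit 1271251), (nat_lit 1271251), (nat_lit 1271251), (nat_lit 1271251), (nat_lit 0), (nat_lit 780000), [(nat_lit 1695001), (nat_lit 1271251), (nat_lit 1271251)], [(nat_lit 27), (nat_lit 62), (nat_lit 428), (nat_lit 200), (nat_lit 11)]⟩⟩)) (.leaf ⟨(nat_lit 432), (nat_lit 0), (nat_lit 0), (nat_lit 568), (nat_lit 19157), (nat_lit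 4988), (nat_lit 6432), (nat_lit 6810), (nat_lit 0), (nat_lit 0), (nat_lit 909000), [((nat_lit 340), [((nat_lit 19), (nat_lit 2), (nat_lit 273)), ((nat_lit 37), (nat_lit 5), (nat_lit 159))])], ⟨(nat_lit 6), false, false, false, (nat_lit 153), (nat_lit 3872), (nat_lit 4473), [(nat_lit 1305146), (nat_lit 1317698), (nat_lit 1348244), (nat_lit 1361249), (nat_lit 1407125), (nat_lit 1414492), (nat_lit 1450223), (nat_lit 1458043)]⟩, ⟨(nat_lit 6), false, true, true, (nat_lit 273), (nat_lit 3872), (nat_lit 4473), [(nat_lit 1546410), (nat_lit 1542727), (nat_lit 1589534), (nat_lit 1586304), (nat_lit 1784334), (nat_lit 1768552), (nat_lit 1827467), (nat_lit 1812139)]⟩, (nat_lit 4925737), (nat_lit 39754463), (nat_lit 7752870), (nat_lit 19492667), (nat_lit 0), (nat_lit 0), [⟨(nat_lit 0), (nat_lit 100), (nat_lit 80), (nat_lit 89), (nat_lit 846624064)⟩], [], [⟨(nat_lit 0), (nat_lit 100), (nat_lit 98), (nat_lit 10), (nat_lit 467873437)⟩], [],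
 ⟨⟨[(nat_lit 40), (nat_lit 80), (nat_lit 120)], [(nat_lit 0), (nat_lit 0), (nat_lit 2151)], [((nat_lit 0), (nat_lit 0), (nat_lit 0)), ((nat_lit 0), (nat_lit 0), (nat_lit 0)), ((nat_lit 1000), (nat_lit 815), (nat_lit 753))], ((nat_lit 80), (nat_lit 100), (nat_lit 63))⟩, (nat_lit 0), (nat_lit 174), (nat_lit 174), (nat_lit 0), (nat_lit 96449), [(nat_lit 2045290658), (nat_lit 2393761386), (nat_lit 548834205)], [(nat_lit 0), (nat_lit 0), (nat_lit 0)], [(nat_lit 20548331911), (nat_lit 22111939147), (nat_lit 20050979769), (nat_lit 21219633586), (nat_lit 30392472850), (nat_lit 31751979774), (nat_lit 29021680822), (nat_lit 30306793040)], (nat_lit 1271251), (nat_lit 1271251), (nat_lit 356250), (nat_lit 780000), (nat_lit 1271251), (nat_lit 1271251), [(nat_lit 490000), (nat_lit 1100000), (nat_lit 1785001)], [(nat_lit 4), (nat_lit 51), (nat_lit 238), (nat_lit 30), (nat_lit 7)]⟩,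
 ⟨⟨[(nat_lit 80), (nat_lit 120), (nat_lit 160)], [(nat_lit 0), (nat_lit 0), (nat_lit 2132)], [((nat_lit 0), (nat_lit 0), (nat_lit 0)), ((nat_lit 0), (nat_lit 0), (nat_lit 0)), ((nat_lit 858), (nat_lit 1000), (nat_lit 713))], ((nat_lit 100), (nat_lit 91), (nat_lit 64))⟩, (nat_lit 989129), (nat_lit 354), (nat_lit 354), (nat_lit 0), (nat_lit 73441), [(nat_lit 2662784000), (nat_lit 4525824000), (nat_lit 6743296000)], [], [(nat_lit 20087639424), (nat_lit 21145019552), (nat_lit 22109799776), (nat_lit 19097519412), (nat_lit 22928104880), (nat_lit 16945365608), (nat_lit 25798708640), (nat_lit 19933345328)], (nat_lit 1271251), (nat_lit 1271251), (nat_lit 356250), (nat_lit 780000), (nat_lit 0), (nat_lit 780000), [(nat_lit 1100000), (nat_lit 1785001), (nat_lit 1271251)], [(nat_lit 18), (nat_lit 59), (nat_lit 373), (nat_lit 150), (nat_lit 10)]⟩,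
 ⟨⟨[(nat_lit 120), (nat_lit 160), (nat_lit 180)], [(nat_lit 0), (nat_lit 533), (nat_lit 2066)], [((nat_lit 0), (nat_lit 0), (nat_lit 0)), ((nat_lit 960), (nat_lit 1000), (nat_lit 200)), ((nat_lit 615), (nat_lit 1000), (nat_lit 729))], ((nat_lit 100), (nat_lit 72), (nat_lit 63))⟩, (nat_lit 1329951), (nat_lit 300), (nat_lit 486), (nat_lit 37715201), (nat_lit 339760), [(nat_lit 4525824000), (nat_lit 6743296000), (nat_lit 7984944000)], [], [(nat_lit 27745606024), (nat_lit 27637551992), (nat_lit 30869111197), (nat_lit 30419942242), (nat_lit 22531633786), (nat_lit 22198566498), (nat_lit 24968324652), (nat_lit 24540205880)], (nat_lit 1271251), (nat_lit 1271251), (nat_lit 1271251), (nat_lit 1271251), (nat_lit 0), (nat_lit 780000), [(nat_lit 1695001), (nat_lit 1271251), (nat_lit 1271251)], [(nat_lit 28), (nat_lit 65), (nat_lit 428), (nat_lit 200), (nat_lit 10)]⟩⟩)) (.trZ (nat_lit 0) (nat_lit 1) (nat_lit 3) (nat_lit 100) (nat_lit 87) (nat_lit 95) (nat_lit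 100) (.leaf ⟨(nat_lit 0), (nat_lit 525), (nat_lit 0), (nat_lit 475), (nat_lit 0), (nat_lit 5995), (nat_lit 10364), (nat_lit 4995), (nat_lit 0), (nat_lit 0), (nat_lit 0), [], Pd.none, Pd.none, (nat_lit 0), (nat_lit 1), (nat_lit 0), (nat_lit 0), (nat_lit 6), (nat_lit 0), [⟨(nat_lit 0), (nat_lit 92), (nat_lit 81), (nat_lit 100), (nat_lit 1711846040)⟩], [⟨(nat_lit 1), (nat_lit 65), (nat_lit 76), (nat_lit 100), (nat_lit 38588822)⟩], [⟨(nat_lit 0), (nat_lit 100), (nat_lit 92), (nat_lit 31), (nat_lit 683762565)⟩], [],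
 ⟨⟨[(nat_lit 40), (nat_lit 80), (nat_lit 120)], [(nat_lit 0), (nat_lit 0), (nat_lit 2151)], [((nat_lit 0), (nat_lit 0), (nat_lit 0)), ((nat_lit 0), (nat_lit 0), (nat_lit 0)), ((nat_lit 1000), (nat_lit 815), (nat_lit 753))], ((nat_lit 80), (nat_lit 100), (nat_lit 63))⟩, (nat_lit 1973950), (nat_lit 268), (nat_lit 268), (nat_lit 0), (nat_lit 404103), [(nat_lit 2292701878), (nat_lit 4688000479), (nat_lit 7968000000)], [], [(nat_lit 23800669624), (nat_lit 25126075851), (nat_lit 23775387259), (nat_lit 25065898487), (nat_lit 30633433614), (nat_lit 32084831084), (nat_lit 30357774968), (nat_lit 31773946725)], (nat_lit 1271251), (nat_lit 1271251), (nat_lit 631250), (nat_lit 780000), (nat_lit 1271251), (nat_lit 1271251), [(nat_lit 490000), (nat_lit 1100000), (nat_lit 1785001)], [(nat_lit 4), (nat_lit 51), (nat_lit 238), (nat_lit 30), (nat_lit 7)]⟩,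
 ⟨⟨[(nat_lit 60), (nat_lit 100), (nat_lit 140)], [(nat_lit 0), (nat_lit 0), (nat_lit 2047)], [((nat_lit 0), (nat_lit 0), (nat_lit 0)), ((nat_lit 0), (nat_lit 0), (nat_lit 0)), ((nat_lit 1000), (nat_lit 993), (nat_lit 781))], ((nat_lit 95), (nat_lit 100), (nat_lit 65))⟩, (nat_lit 4922731), (nat_lit 334), (nat_lit 334), (nat_lit 0), (nat_lit 257329), [(nat_lit 3282000000), (nat_lit 6250000000), (nat_lit 9842000000)], [], [(nat_lit 20142217013), (nat_lit 27698499376), (nat_lit 19856776472), (nat_lit 27259622240), (nat_lit 13944994428), (nat_lit 17825284236), (nat_lit 13970146630), (nat_lit 17643764952)], (nat_lit 1271251), (nat_lit 1271251), (nat_lit 631250), (nat_lit 780000), (nat_lit 0), (nat_lit 780000), [(nat_lit 780000), (nat_lit 1435001), (nat_lit 1271251)], [(nat_lit 11), (nat_lit 55), (nat_lit 272), (nat_lit 60), (nat_lit 8)]⟩,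
 ⟨⟨[(nat_lit 120), (nat_lit 160), (nat_lit 180)], [(nat_lit 0), (nat_lit 533), (nat_lit 2066)], [((nat_lit 0), (nat_lit 0), (nat_lit 0)), ((nat_lit 960), (nat_lit 1000), (nat_lit 200)), ((nat_lit 615), (nat_lit 1000), (nat_lit 729))], ((nat_lit 100), (nat_lit 72), (nat_lit 63))⟩, (nat_lit 1112195), (nat_lit 300), (nat_lit 1043), (nat_lit 31540001), (nat_lit 1521778), [(nat_lit 3784800000), (nat_lit 5639200000), (nat_lit 6677550000)], [], [(nat_lit 26283146440), (nat_lit 25833438520), (nat_lit 26406734189), (nat_lit 25958024617), (nat_lit 22940003650), (nat_lit 22418042230), (nat_lit 22552640554), (nat_lit 22074195019)], (nat_lit 1271251), (nat_lit 1271251), (nat_lit 1271251), (nat_lit 1271251), (nat_lit 0), (nat_lit 780000), [(nat_lit 1695001), (nat_lit 1271251), (nat_lit 1271251)], [(nat_lit 28), (nat_lit 65), (nat_lit 428), (nat_lit 200), (nat_lit 10)]⟩⟩))) (.stt (nat_lit 2) (.leaf ⟨(nat_lit 0), (nat_lit 369), (nat_lit 0), (nat_lit 631), (nat_lit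 0), (nat_lit 6812), (nat_lit 10367), (nat_lit 6210), (nat_lit 0), (nat_lit 0), (nat_lit 0), [], Pd.none, Pd.none, (nat_lit 0), (nat_lit 1), (nat_lit 0), (nat_lit 0), (nat_lit 6), (nat_lit 0), [⟨(nat_lit 0), (nat_lit 100), (nat_lit 83), (nat_lit 98), (nat_lit 2587337702)⟩], [], [], [],
 ⟨⟨[(nat_lit 40), (nat_lit 80), (nat_lit 120)], [(nat_lit 0), (nat_lit 0), (nat_lit 2151)], [((nat_lit 0), (nat_lit 0), (nat_lit 0)), ((nat_lit 0), (nat_lit 0), (nat_lit 0)), ((nat_lit 1000), (nat_lit 815), (nat_lit 753))], ((nat_lit 80), (nat_lit 100), (nat_lit 63))⟩, (nat_lit 2313202), (nat_lit 288), (nat_lit 288), (nat_lit 0), (nat_lit 404491), [(nat_lit 2375175978), (nat_lit 4688000006), (nat_lit 7968000000)], [], [(nat_lit 23761974530), (nat_lit 25043302219), (nat_lit 22774923798), (nat_lit 24121761170), (nat_lit 33703853650), (nat_lit 35319967164), (nat_lit 31441775878), (nat_lit 32964278960)], (nat_lit 1271251), (nat_lit 1271251), (nat_lit 356250), (nat_lit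 780000), (nat_lit 1271251), (nat_lit 1271251), [(nat_lit 490000), (nat_lit 1100000), (nat_lit 1785001)], [(nat_lit 4), (nat_lit 51), (nat_lit 238), (nat_lit 30), (nat_lit 7)]⟩,
 ⟨⟨[(nat_lit 80), (nat_lit 120), (nat_lit 160)], [(nat_lit 0), (nat_lit 0), (nat_lit 2132)], [((nat_lit 0), (nat_lit 0), (nat_lit 0)), ((nat_lit 0), (nat_lit 0), (nat_lit 0)), ((nat_lit 858), (nat_lit 1000), (nat_lit 713))], ((nat_lit 100), (nat_lit 91), (nat_lit 64))⟩, (nat_lit 5855668), (nat_lit 194), (nat_lit 194), (nat_lit 0), (nat_lit 0), [(nat_lit 4688000000), (nat_lit 7968000000), (nat_lit 11872000000)], [], [(nat_lit 14830778716), (nat_lit 23411062892), (nat_lit 12503924012), (nat_lit 21084208188), (nat_lit 32342086326), (nat_lit 38838439774), (nat_lit 28835746287), (nat_lit 34926440927)], (nat_lit 0), (nat_lit 0), (nat_lit 0), (nat_lit 0), (nat_lit 0), (nat_lit 0), [], [(nat_lit 18), (nat_lit 59), (nat_lit 456), (nat_lit 225), (nat_lit 12)]⟩,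
 ⟨⟨[(nat_lit 120), (nat_lit 160), (nat_lit 180)], [(nat_lit 0), (nat_lit 533), (nat_lit 2066)], [((nat_lit 0), (nat_lit 0), (nat_lit 0)), ((nat_lit 960), (nat_lit 1000), (nat_lit 200)), ((nat_lit 615), (nat_lit 1000), (nat_lit 729))], ((nat_lit 100), (nat_lit 72), (nat_lit 63))⟩, (nat_lit 1477463), (nat_lit 300), (nat_lit 1408), (nat_lit 41898402), (nat_lit 2487008), [(nat_lit 5027808000), (nat_lit 7491232000), (nat_lit 8870598000)], [], [(nat_lit 33492858658), (nat_lit 32775870718), (nat_lit 31984279114), (nat_lit 31287822587), (nat_lit 29614464564), (nat_lit 28909460382), (nat_lit 28761740775), (nat_lit 28103463200)], (nat_lit 1271251), (nat_lit 1271251), (nat_lit 1271251), (nat_lit 1271251), (nat_lit 780000), (nat_lit 2826876), [(nat_lit 1695001), (nat_lit 1271251), (nat_lit 1271251)], [(nat_lit 28), (nat_lit 65), (nat_lit 483), (nat_lit 250), (nat_lit 11)]⟩⟩) (.leaf ⟨(nat_lit 143), (nat_lit 85), (nat_lit 0), (nat_lit 772), (nat_lit 0), (nat_lit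 6089), (nat_lit 7088), (nat_lit 9153), (nat_lit 0), (nat_lit 0), (nat_lit 572000), [((nat_lit 340), [((nat_lit 37), (nat_lit 5), (nat_lit 143))])], ⟨(nat_lit 6), false, false, false, (nat_lit 162), (nat_lit 3872), (nat_lit 4473), [(nat_lit 1305146), (nat_lit 1317698), (nat_lit 1391342), (nat_lit 1404801), (nat_lit 1407125), (nat_lit 1414492), (nat_lit 1493321), (nat_lit 1501595)]⟩, ⟨(nat_lit 6), false, true, true, (nat_lit 273), (nat_lit 3872), (nat_lit 4473), [(nat_lit 1546410), (nat_lit 1542727), (nat_lit 1589534), (nat_lit 1586304), (nat_lit 1784334), (nat_lit 1768552), (nat_lit 1827467), (nat_lit 1812139)]⟩, (nat_lit 5003656), (nat_lit 39290453), (nat_lit 8379401), (nat_lit 19330146), (nat_lit 6), (nat_lit 0), [⟨(nat_lit 0), (nat_lit 100), (nat_lit 83), (nat_lit 98), (nat_lit 1933497070)⟩], [], [], [],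
 ⟨⟨[(nat_lit 40), (nat_lit 80), (nat_lit 120)], [(nat_lit 0), (nat_lit 0), (nat_lit 2151)], [((nat_lit 0), (nat_lit 0), (nat_lit 0)), ((nat_lit 0), (nat_lit 0), (nat_lit 0)), ((nat_lit 1000), (nat_lit 815), (nat_lit 753))], ((nat_lit 80), (nat_lit 100), (nat_lit 63))⟩, (nat_lit 1646274), (nat_lit 288), (nat_lit 288), (nat_lit 0), (nat_lit 404491), [(nat_lit 2429485636), (nat_lit 3314685206), (nat_lit 4005703982)], [(nat_lit 0), (nat_lit 0), (nat_lit 0)], [(nat_lit 21183495854), (nat_lit 23180859035), (nat_lit 20643120450), (nat_lit 21825083946), (nat_lit 32391283300), (nat_lit 33905682689), (nat_lit 30482494779), (nat_lit 31910900495)], (nat_lit 1271251), (nat_lit 1271251), (nat_lit 356250), (nat_lit 780000), (nat_lit 1271251), (nat_lit 1271251), [(nat_lit 490000), (nat_lit 1100000), (nat_lit 1785001)], [(nat_lit 4), (nat_lit 51), (nat_lit 238), (nat_lit 30), (nat_lit 7)]⟩,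
 ⟨⟨[(nat_lit 80), (nat_lit 120), (nat_lit 160)], [(nat_lit 0), (nat_lit 0), (nat_lit 2132)], [((nat_lit 0), (nat_lit 0), (nat_lit 0)), ((nat_lit 0), (nat_lit 0), (nat_lit 0)), ((nat_lit 858), (nat_lit 1000), (nat_lit 713))], ((nat_lit 100), (nat_lit 91), (nat_lit 64))⟩, (nat_lit 3471359), (nat_lit 432), (nat_lit 432), (nat_lit 0), (nat_lit 491280), [(nat_lit 4017616000), (nat_lit 6828576000), (nat_lit 10174304000)], [], [(nat_lit 32315302832), (nat_lit 25071931455), (nat_lit 21208190648), (nat_lit 23750035009), (nat_lit 37207175820), (nat_lit 31737144213), (nat_lit 41052361168), (nat_lit 29863772802)], (nat_lit 1271251), (nat_lit 1271251), (nat_lit 356250), (nat_lit 780000), (nat_lit 780000), (nat_lit 2826876), [(nat_lit 1100000), (nat_lit 1785001), (nat_lit 1271251)], [(nat_lit 18), (nat_lit 59), (nat_lit 456), (nat_lit 225), (nat_lit 12)]⟩,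
 ⟨⟨[(nat_lit 120), (nat_lit 160), (nat_lit 180)], [(nat_lit 0), (nat_lit 533), (nat_lit 2066)], [((nat_lit 0), (nat_lit 0), (nat_lit 0)), ((nat_lit 960), (nat_lit 1000), (nat_lit 200)), ((nat_lit 615), (nat_lit 1000), (nat_lit 729))], ((nat_lit 100), (nat_lit 72), (nat_lit 63))⟩, (nat_lit 1912494), (nat_lit 300), (nat_lit 964), (nat_lit 51260800), (nat_lit 1526117), [(nat_lit 6151296000), (nat_lit 9165184000), (nat_lit 10852776000)], [], [(nat_lit 32850108413), (nat_lit 32235592807), (nat_lit 34050655125), (nat_lit 33481398281), (nat_lit 31033969618), (nat_lit 30382715755), (nat_lit 32184150448), (nat_lit 31759079460)], (nat_lit 1271251), (nat_lit 1271251), (nat_lit 1271251), (nat_lit 1271251), (nat_lit 780000), (nat_lit 2826876), [(nat_lit 1695001), (nat_lit 1271251), (nat_lit 1271251)], [(nat_lit 28), (nat_lit 65), (nat_lit 483), (nat_lit 250), (nat_lit 11)]⟩⟩)))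
noncomputable def c11_46 : Tr Lf :=
 (.spl (nat_lit 1) (nat_lit 280) (.leaf ⟨(nat_lit 59), (nat_lit 591), (nat_lit 0), (nat_lit 350), (nat_lit 0), (nat_lit 5658), (nat_lit 7757), (nat_lit 4044), (nat_lit 0), (nat_lit 0), (nat_lit 236000), [((nat_lit 340), [((nat_lit 37), (nat_lit 5), (nat_lit 59))])], ⟨(nat_lit 6), true, false, false, (nat_lit 226), (nat_lit 3872), (nat_lit 4473), [(nat_lit 1407125), (nat_lit 1414492), (nat_lit 1450223), (nat_lit 1458043), (nat_lit 1679069), (nat_lit 1672609), (nat_lit 1722167), (nat_lit 1716161)]⟩, ⟨(nat_lit 3), true, false, true, (nat_lit 220), (nat_lit 3872), (nat_lit 4473), [(nat_lit 1277776), (nat_lit 1283782), (nat_lit 1385576), (nat_lit 1392716), (nat_lit 1719634), (nat_lit 1703173), (nat_lit 1827467), (nat_lit 1812139)]⟩, (nat_lit 5216514), (nat_lit 39219493), (nat_lit 14184126), (nat_lit 13596381), (nat_lit 3), (nat_lit 0), [⟨(nat_lit 0), (nat_lit 99), (nat_lit 77), (nat_lit 100), (nat_lit 115169972)⟩],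 [⟨(nat_lit 1), (nat_lit 77), (nat_lit 77), (nat_lit 100), (nat_lit 484692)⟩], [], [],
 ⟨⟨[(nat_lit 40), (nat_lit 80), (nat_lit 100)], [(nat_lit 0), (nat_lit 0), (nat_lit 1280)], [((nat_lit 0), (nat_lit 0), (nat_lit 0)), ((nat_lit 0), (nat_lit 0), (nat_lit 0)), ((nat_lit 1000), (nat_lit 800), (nat_lit 600))], ((nat_lit 81), (nat_lit 100), (nat_lit 48))⟩, (nat_lit 1492063), (nat_lit 267), (nat_lit 267), (nat_lit 0), (nat_lit 527564), [(nat_lit 2058355265), (nat_lit 4121387601), (nat_lit 5158569799)], [(nat_lit 0), (nat_lit 0), (nat_lit 0)], [(nat_lit 23013062504), (nat_lit 23192286502), (nat_lit 25741879643), (nat_lit 26857151692), (nat_lit 30415897676), (nat_lit 31282952890), (nat_lit 37627328234), (nat_lit 35190918466)], (nat_lit 1271251), (nat_lit 1271251), (nat_lit 780000), (nat_lit 2090001), (nat_lit 780000), (nat_lit 2908751), [(nat_lit 490000), (nat_lit 1100000), (nat_lit 1442501)], [(nat_lit 3), (nat_lit 50), (nat_lit 401), (nat_lit 175),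 (nat_lit 15)]⟩,
 ⟨⟨[(nat_lit 80), (nat_lit 120), (nat_lit 140)], [(nat_lit 0), (nat_lit 0), (nat_lit 1164)], [((nat_lit 0), (nat_lit 0), (nat_lit 0)), ((nat_lit 0), (nat_lit 0), (nat_lit 0)), ((nat_lit 941), (nat_lit 1000), (nat_lit 576))], ((nat_lit 100), (nat_lit 98), (nat_lit 48))⟩, (nat_lit 4397238), (nat_lit 177), (nat_lit 177), (nat_lit 0), (nat_lit 0), [(nat_lit 4411408000), (nat_lit 7497888000), (nat_lit 9261322000)], [], [(nat_lit 18948605292), (nat_lit 22573909264), (nat_lit 25878736004), (nat_lit 28691917719), (nat_lit 30462761914), (nat_lit 31987387755), (nat_lit 31565241028), (nat_lit 32591018311)], (nat_lit 0), (nat_lit 0), (nat_lit 0), (nat_lit 0), (nat_lit 0), (nat_lit 0), [], [(nat_lit 17), (nat_lit 58), (nat_lit 483), (nat_lit 250), (nat_lit 14)]⟩,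
 ⟨⟨[(nat_lit 140), (nat_lit 160), (nat_lit 180)], [(nat_lit 0), (nat_lit 0), (nat_lit 799)], [((nat_lit 0), (nat_lit 0), (nat_lit 0)), ((nat_lit 0), (nat_lit 0), (nat_lit 0)), ((nat_lit 728), (nat_lit 1000), (nat_lit 454))], ((nat_lit 100), (nat_lit 67), (nat_lit 52))⟩, (nat_lit 357471), (nat_lit 300), (nat_lit 392), (nat_lit 25970000), (nat_lit 0), [(nat_lit 3444700000), (nat_lit 4155200000), (nat_lit 4920300000)], [], [(nat_lit 19284340105), (nat_lit 18892820775), (nat_lit 20744123424), (nat_lit 19764990303), (nat_lit 17560880388), (nat_lit 16581440996), (nat_lit 16833176667), (nat_lit 15710751606)], (nat_lit 0), (nat_lit 0), (nat_lit 0), (nat_lit 0), (nat_lit 0), (nat_lit 0), [], [(nat_lit 31), (nat_lit 65), (nat_lit 483), (nat_lit 250), (nat_lit 12)]⟩⟩) (.spl (nat_lit 0) (nat_lit 330) (.leaf ⟨(nat_lit 60), (nat_lit 606), (nat_lit 0), (nat_lit 334), (nat_lit 0), (nat_lit 4856), (nat_lit 5099), (nat_lit 4107), (nat_lit 0), (nat_lit 0), (nat_lit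 240000), [((nat_lit 330), [((nat_lit 37), (nat_lit 5), (nat_lit 60))])], ⟨(nat_lit 7), true, false, false, (nat_lit 243), (nat_lit 4183), (nat_lit 4473), [(nat_lit 1450291), (nat_lit 1454137), (nat_lit 1493417), (nat_lit 1497463), (nat_lit 1722208), (nat_lit 1719164), (nat_lit 1765332), (nat_lit 1762489)]⟩, ⟨(nat_lit 3), true, false, true, (nat_lit 221), (nat_lit 4183), (nat_lit 4473), [(nat_lit 1277776), (nat_lit 1280820), (nat_lit 1385603), (nat_lit 1389149), (nat_lit 1719634), (nat_lit 1711482), (nat_lit 1827466), (nat_lit 1819815)]⟩, (nat_lit 5309320), (nat_lit 38025642), (nat_lit 15624786), (nat_lit 13349572), (nat_lit 3), (nat_lit 0), [⟨(nat_lit 0), (nat_lit 82), (nat_lit 78), (nat_lit 100), (nat_lit 469676681)⟩], [], [], [],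
 ⟨⟨[(nat_lit 40), (nat_lit 80), (nat_lit 100)], [(nat_lit 0), (nat_lit 0), (nat_lit 1280)], [((nat_lit 0), (nat_lit 0), (nat_lit 0)), ((nat_lit 0), (nat_lit 0), (nat_lit 0)), ((nat_lit 1000), (nat_lit 800), (nat_lit 600))], ((nat_lit 81), (nat_lit 100), (nat_lit 48))⟩, (nat_lit 584480), (nat_lit 300), (nat_lit 342), (nat_lit 51421858), (nat_lit 729728), [(nat_lit 2056874283), (nat_lit 4113748575), (nat_lit 5138767425)], [(nat_lit 0), (nat_lit 0), (nat_lit 0)], [(nat_lit 30948365487), (nat_lit 31462950117), (nat_lit 33701520566), (nat_lit 34097145454), (nat_lit 37023871455), (nat_lit 37337657952), (nat_lit 37978420421), (nat_lit 38221226726)], (nat_lit 1271251), (nat_lit 1271251), (nat_lit 780000), (nat_lit 2090001), (nat_lit 780000), (nat_lit 2908751), [(nat_lit 490000), (nat_lit 1100000), (nat_lit 1442501)], [(nat_lit 3), (nat_lit 50), (nat_lit 401), (nat_lit 175), (nat_lit 15)]⟩,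
 ⟨⟨[(nat_lit 60), (nat_lit 100), (nat_lit 120)], [(nat_lit 0), (nat_lit 0), (nat_lit 1164)], [((nat_lit 0), (nat_lit 0), (nat_lit 0)), ((nat_lit 0), (nat_lit 0), (nat_lit 0)), ((nat_lit 1000), (nat_lit 933), (nat_lit 572))], ((nat_lit 92), (nat_lit 100), (nat_lit 48))⟩, (nat_lit 3886339), (nat_lit 155), (nat_lit 155), (nat_lit 0), (nat_lit 0), [(nat_lit 3085080000), (nat_lit 5875000000), (nat_lit 7489920000)], [], [(nat_lit 19189087344), (nat_lit 22314453392), (nat_lit 24997069756), (nat_lit 27464240856), (nat_lit 29710052812), (nat_lit 31163283288), (nat_lit 31457094927), (nat_lit 32506697060)], (nat_lit 0), (nat_lit 0), (nat_lit 0), (nat_lit 0), (nat_lit 0), (nat_lit 0), [], [(nat_lit 10), (nat_lit 54), (nat_lit 401), (nat_lit 175), (nat_lit 13)]⟩,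
 ⟨⟨[(nat_lit 140), (nat_lit 160), (nat_lit 180)], [(nat_lit 0), (nat_lit 0), (nat_lit 799)], [((nat_lit 0), (nat_lit 0), (nat_lit 0)), ((nat_lit 0), (nat_lit 0), (nat_lit 0)), ((nat_lit 728), (nat_lit 1000), (nat_lit 454))], ((nat_lit 100), (nat_lit 67), (nat_lit 52))⟩, (nat_lit 1181364), (nat_lit 300), (nat_lit 392), (nat_lit 24782800), (nat_lit 0), [(nat_lit 3287228000), (nat_lit 3965248000), (nat_lit 4695372000)], [], [(nat_lit 18401736462), (nat_lit 17959727401), (nat_lit 19833371736), (nat_lit 18800404986), (nat_lit 16555663518), (nat_lit 15524210655), (nat_lit 15715761564), (nat_lit 14858158983)], (nat_lit 0), (nat_lit 0), (nat_lit 0), (nat_lit 0), (nat_lit 0), (nat_lit 0), [], [(nat_lit 31), (nat_lit 65), (nat_lit 483), (nat_lit 250), (nat_lit 12)]⟩⟩) (.trX (nat_lit 4) (nat_lit 0) (nat_lit 2) (nat_lit 76) (nat_lit 57) (nat_lit 100) (nat_lit 370) (.leaf ⟨(nat_lit 0), (nat_lit 636), (nat_lit 0), (nat_lit 364), (nat_lit 0), (nat_lit 5772),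 (nat_lit 5424), (nat_lit 4220), (nat_lit 0), (nat_lit 0), (nat_lit 0), [], Pd.none, Pd.none, (nat_lit 0), (nat_lit 1), (nat_lit 0), (nat_lit 0), (nat_lit 3), (nat_lit 0), [⟨(nat_lit 0), (nat_lit 81), (nat_lit 72), (nat_lit 100), (nat_lit 480058192)⟩], [], [], [],
 ⟨⟨[(nat_lit 40), (nat_lit 60), (nat_lit 80)], [(nat_lit 0), (nat_lit 197), (nat_lit 800)], [((nat_lit 0), (nat_lit 0), (nat_lit 0)), ((nat_lit 1000), (nat_lit 908), (nat_lit 154)), ((nat_lit 1000), (nat_lit 781), (nat_lit 471))], ((nat_lit 78), (nat_lit 100), (nat_lit 49))⟩, (nat_lit 4416178), (nat_lit 300), (nat_lit 312), (nat_lit 50800001), (nat_lit 759064), [(nat_lit 2032000001), (nat_lit 3282000023), (nat_lit 4688000000)], [], [(nat_lit 23789217980), (nat_lit 24430952344), (nat_lit 27036581712), (nat_lit 27521947559), (nat_lit 30557281534), (nat_lit 30947063926), (nat_lit 32336136972), (nat_lit 32547750365)], (nat_lit 1271251), (nat_lit 1271251), (nat_lit 780000), (nat_lit 2090001),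 (nat_lit 780000), (nat_lit 2826876), [(nat_lit 490000), (nat_lit 780000), (nat_lit 1100000)], [(nat_lit 2), (nat_lit 44), (nat_lit 401), (nat_lit 175), (nat_lit 18)]⟩,
 ⟨⟨[(nat_lit 60), (nat_lit 100), (nat_lit 120)], [(nat_lit 0), (nat_lit 0), (nat_lit 1164)], [((nat_lit 0), (nat_lit 0), (nat_lit 0)), ((nat_lit 0), (nat_lit 0), (nat_lit 0)), ((nat_lit 1000), (nat_lit 933), (nat_lit 572))], ((nat_lit 92), (nat_lit 100), (nat_lit 48))⟩, (nat_lit 3180554), (nat_lit 155), (nat_lit 155), (nat_lit 0), (nat_lit 0), [(nat_lit 3282000000), (nat_lit 6250000000), (nat_lit 7968000000)], [], [(nat_lit 20564973912), (nat_lit 23738742176), (nat_lit 26592567296), (nat_lit 29217102656), (nat_lit 31606453032), (nat_lit 33152400368), (nat_lit 33465146032), (nat_lit 34581729120)], (nat_lit 0), (nat_lit 0), (nat_lit 0), (nat_lit 0), (nat_lit 0), (nat_lit 0), [], [(nat_lit 10), (nat_lit 54), (nat_lit 401), (nat_lit 175), (nat_lit 13)]⟩,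
 ⟨⟨[(nat_lit 140), (nat_lit 160), (nat_lit 180)], [(nat_lit 0), (nat_lit 0), (nat_lit 799)], [((nat_lit 0), (nat_lit 0), (nat_lit 0)), ((nat_lit 0), (nat_lit 0), (nat_lit 0)), ((nat_lit 728), (nat_lit 1000), (nat_lit 454))], ((nat_lit 100), (nat_lit 67), (nat_lit 52))⟩, (nat_lit 319810), (nat_lit 300), (nat_lit 392), (nat_lit 27008800), (nat_lit 0), [(nat_lit 3582488000), (nat_lit 4321408000), (nat_lit 5117112000)], [], [(nat_lit 20055654317), (nat_lit 19644545351), (nat_lit 21367983952), (nat_lit 20382604296), (nat_lit 18251685824), (nat_lit 17227508414), (nat_lit 17413193958), (nat_lit 16236337662)], (nat_lit 0), (nat_lit 0), (nat_lit 0), (nat_lit 0), (nat_lit 0), (nat_lit 0), [], [(nat_lit 31), (nat_lit 65), (nat_lit 483), (nat_lit 250), (nat_lit 12)]⟩⟩))))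
noncomputable def c11_47 : Tr Lf :=
 (.spl (nat_lit 3) (nat_lit 200) (.spl (nat_lit 1) (nat_lit 280) (.spl (nat_lit 0) (nat_lit 330) (.leaf ⟨(nat_lit 849), (nat_lit 63), (nat_lit 0), (nat_lit 88), (nat_lit 0), (nat_lit 4224), (nat_lit 1770), (nat_lit 1541), (nat_lit 0), (nat_lit 0), (nat_lit 939000), [((nat_lit 330), [((nat_lit 18), (nat_lit 2), (nat_lit 819)), ((nat_lit 37), (nat_lit 5), (nat_lit 30))])], ⟨(nat_lit 6), false, false, false, (nat_lit 199), (nat_lit 4183), (nat_lit 4473), [(nat_lit 1407167), (nat_lit 1410812), (nat_lit 1450291), (nat_lit 1454137), (nat_lit 1543125), (nat_lit 1543325), (nat_lit 1586250), (nat_lit 1586650)]⟩, ⟨(nat_lit 3), true, false, true, (nat_lit 174), (nat_lit 4183), (nat_lit 4473), [(nat_lit 1277776), (nat_lit 1280820), (nat_lit 1385603), (nat_lit 1389149), (nat_lit 1481711), (nat_lit 1479587), (nat_lit 1589541), (nat_lit 1587919)]⟩, (nat_lit 4684065), (nat_lit 44408779), (nat_lit 12512885), (nat_lit 10078336),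 (nat_lit 3), (nat_lit 0), [], [], [], [],
 ⟨⟨[(nat_lit 40), (nat_lit 80), (nat_lit 100)], [(nat_lit 0), (nat_lit 0), (nat_lit 1280)], [((nat_lit 0), (nat_lit 0), (nat_lit 0)), ((nat_lit 0), (nat_lit 0), (nat_lit 0)), ((nat_lit 1000), (nat_lit 800), (nat_lit 600))], ((nat_lit 81), (nat_lit 100), (nat_lit 48))⟩, (nat_lit 644), (nat_lit 137), (nat_lit 137), (nat_lit 0), (nat_lit 276240), [(nat_lit 1765125217), (nat_lit 1468459639), (nat_lit 211493200)], [(nat_lit 0), (nat_lit 0), (nat_lit 0)], [(nat_lit 15685716801), (nat_lit 16535095635), (nat_lit 17589422904), (nat_lit 18426590583), (nat_lit 19084488464), (nat_lit 19941995596), (nat_lit 20638842160), (nat_lit 21396376786)], (nat_lit 1271251), (nat_lit 1271251), (nat_lit 780000), (nat_lit 1435001), (nat_lit 780000), (nat_lit 1762501), [(nat_lit 490000), (nat_lit 1100000), (nat_lit 1442501)], [(nat_lit 3), (nat_lit 50), (nat_lit 345), (nat_lit 125), (nat_lit 12)]⟩,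
 ⟨⟨[(nat_lit 80), (nat_lit 120), (nat_lit 140)], [(nat_lit 0), (nat_lit 0), (nat_lit 1164)], [((nat_lit 0), (nat_lit 0), (nat_lit 0)), ((nat_lit 0), (nat_lit 0), (nat_lit 0)), ((nat_lit 941), (nat_lit 1000), (nat_lit 576))], ((nat_lit 100), (nat_lit 98), (nat_lit 48))⟩, (nat_lit 392898), (nat_lit 537), (nat_lit 537), (nat_lit 0), (nat_lit 700369), [(nat_lit 707888000), (nat_lit 1203168000), (nat_lit 1486142000)], [], [(nat_lit 5770714640), (nat_lit 4399292069), (nat_lit 5116625752), (nat_lit 4302859286), (nat_lit 8869141112), (nat_lit 7354272452), (nat_lit 10872431476), (nat_lit 9393679666)], (nat_lit 1271251), (nat_lit 1271251), (nat_lit 780000), (nat_lit 1435001), (nat_lit 0), (nat_lit 2825001), [(nat_lit 1100000), (nat_lit 1785001), (nat_lit 1271251)], [(nat_lit 17), (nat_lit 58), (nat_lit 456), (nat_lit 225), (nat_lit 13)]⟩,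
 ⟨⟨[(nat_lit 140), (nat_lit 160), (nat_lit 180)], [(nat_lit 0), (nat_lit 0), (nat_lit 799)], [((nat_lit 0), (nat_lit 0), (nat_lit 0)), ((nat_lit 0), (nat_lit 0), (nat_lit 0)), ((nat_lit 728), (nat_lit 1000), (nat_lit 454))], ((nat_lit 100), (nat_lit 67), (nat_lit 52))⟩, (nat_lit 77317), (nat_lit 300), (nat_lit 392), (nat_lit 6529600), (nat_lit 0), [(nat_lit 866096000), (nat_lit 1044736000), (nat_lit 1237104000)], [], [(nat_lit 4913786518), (nat_lit 4698306166), (nat_lit 4626600080), (nat_lit 4341875872), (nat_lit 4265946945), (nat_lit 3957017223), (nat_lit 3867599925), (nat_lit 3507125268)], (nat_lit 0), (nat_lit 0), (nat_lit 0), (nat_lit 0), (nat_lit 0), (nat_lit 0), [], [(nat_lit 31), (nat_lit 65), (nat_lit 456), (nat_lit 225), (nat_lit 11)]⟩⟩) (.leaf ⟨(nat_lit 886), (nat_lit 41), (nat_lit 0), (nat_lit 73), (nat_lit 0), (nat_lit 3692), (nat_lit 1420), (nat_lit 1279), (nat_lit 0), (nat_lit 0), (nat_lit 332800), [((nat_lit 340), [((nat_lit 18),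 (nat_lit 0), (nat_lit 144)), ((nat_lit 18), (nat_lit 1), (nat_lit 742))])], ⟨(nat_lit 6), false, false, false, (nat_lit 200), (nat_lit 3872), (nat_lit 4184), [(nat_lit 1410806), (nat_lit 1414527), (nat_lit 1454130), (nat_lit 1458104), (nat_lit 1543323), (nat_lit 1543576), (nat_lit 1586647), (nat_lit 1587153)]⟩, ⟨(nat_lit 3), true, false, true, (nat_lit 174), (nat_lit 3872), (nat_lit 4184), [(nat_lit 1280820), (nat_lit 1283782), (nat_lit 1389144), (nat_lit 1392739), (nat_lit 1479587), (nat_lit 1477347), (nat_lit 1587919), (nat_lit 1586312)]⟩, (nat_lit 4693165), (nat_lit 44324114), (nat_lit 12582564), (nat_lit 10093322), (nat_lit 3), (nat_lit 0), [], [], [⟨(nat_lit 0), (nat_lit 100), (nat_lit 92), (nat_lit 49), (nat_lit 144757)⟩], [],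
 ⟨⟨[(nat_lit 40), (nat_lit 60), (nat_lit 80)], [(nat_lit 0), (nat_lit 197), (nat_lit 800)], [((nat_lit 0), (nat_lit 0), (nat_lit 0)), ((nat_lit 1000), (nat_lit 908), (nat_lit 154)), ((nat_lit 1000), (nat_lit 781), (nat_lit 471))], ((nat_lit 78), (nat_lit 100), (nat_lit 49))⟩, (nat_lit 1801053), (nat_lit 128), (nat_lit 128), (nat_lit 0), (nat_lit 306844), [(nat_lit 1421964104), (nat_lit 1876247083), (nat_lit 2269760517)], [(nat_lit 0), (nat_lit 0), (nat_lit 0)], [(nat_lit 16519250932), (nat_lit 17289377874), (nat_lit 18430759390), (nat_lit 19113051878), (nat_lit 19726609589), (nat_lit 20506950874), (nat_lit 21232194138), (nat_lit 21938909996)], (nat_lit 1271251), (nat_lit 1271251), (nat_lit 780000), (nat_lit 1435001), (nat_lit 780000), (nat_lit 1762501), [(nat_lit 490000), (nat_lit 780000), (nat_lit 1100000)], [(nat_lit 2), (nat_lit 44), (nat_lit 345), (nat_lit 125), (nat_lit 15)]⟩,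
 ⟨⟨[(nat_lit 80), (nat_lit 120), (nat_lit 140)], [(nat_lit 0), (nat_lit 0), (nat_lit 1164)], [((nat_lit 0), (nat_lit 0), (nat_lit 0)), ((nat_lit 0), (nat_lit 0), (nat_lit 0)), ((nat_lit 941), (nat_lit 1000), (nat_lit 576))], ((nat_lit 100), (nat_lit 98), (nat_lit 48))⟩, (nat_lit 380342), (nat_lit 607), (nat_lit 607), (nat_lit 0), (nat_lit 820891), [(nat_lit 534432000), (nat_lit 908352000), (nat_lit 1121988000)], [], [(nat_lit 4396408160), (nat_lit 3081499446), (nat_lit 3803581328), (nat_lit 3117288214), (nat_lit 6752087888), (nat_lit 5536769528), (nat_lit 8340537304), (nat_lit 7154194044)], (nat_lit 1271251), (nat_lit 1271251), (nat_lit 780000), (nat_lit 1435001), (nat_lit 0), (nat_lit 2825001), [(nat_lit 1100000), (nat_lit 1785001), (nat_lit 1271251)], [(nat_lit 17), (nat_lit 58), (nat_lit 456), (nat_lit 225), (nat_lit 13)]⟩,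
 ⟨⟨[(nat_lit 140), (nat_lit 160), (nat_lit 180)], [(nat_lit 0), (nat_lit 0), (nat_lit 799)], [((nat_lit 0), (nat_lit 0), (nat_lit 0)), ((nat_lit 0), (nat_lit 0), (nat_lit 0)), ((nat_lit 728), (nat_lit 1000), (nat_lit 454))], ((nat_lit 100), (nat_lit 67), (nat_lit 52))⟩, (nat_lit 64142), (nat_lit 300), (nat_lit 392), (nat_lit 5416600), (nat_lit 0), [(nat_lit 718466000), (nat_lit 866656000), (nat_lit 1026234000)], [], [(nat_lit 4076373772), (nat_lit 3897447686), (nat_lit 3837917300), (nat_lit 3601525242), (nat_lit 3539140184), (nat_lit 3282656314), (nat_lit 3208426622), (nat_lit 2909517653)], (nat_lit 0), (nat_lit 0), (nat_lit 0), (nat_lit 0), (nat_lit 0), (nat_lit 0), [], [(nat_lit 31), (nat_lit 65), (nat_lit 456), (nat_lit 225), (nat_lit 11)]⟩⟩)) (.spl (nat_lit 0) (nat_lit 330) (.leaf ⟨(nat_lit 601), (nat_lit 231), (nat_lit 0), (nat_lit 168), (nat_lit 0), (nat_lit 5047), (nat_lit 2790), (nat_lit 2427), (nat_lit 0), (nat_lit 0), (nat_lit 946000),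 [((nat_lit 330), [((nat_lit 18), (nat_lit 2), (nat_lit 486)), ((nat_lit 37), (nat_lit 5), (nat_lit 115))])], ⟨(nat_lit 7), false, false, false, (nat_lit 216), (nat_lit 4183), (nat_lit 4473), [(nat_lit 1450291), (nat_lit 1454137), (nat_lit 1493417), (nat_lit 1497463), (nat_lit 1586250), (nat_lit 1586650), (nat_lit 1629375), (nat_lit 1629976)]⟩, ⟨(nat_lit 3), true, false, true, (nat_lit 174), (nat_lit 4183), (nat_lit 4473), [(nat_lit 1277776), (nat_lit 1280820), (nat_lit 1385603), (nat_lit 1389149), (nat_lit 1481711), (nat_lit 1479587), (nat_lit 1589541), (nat_lit 1587919)]⟩, (nat_lit 4812540), (nat_lit 43048301), (nat_lit 14045732), (nat_lit 9905967), (nat_lit 3), (nat_lit 0), [⟨(nat_lit 0), (nat_lit 93), (nat_lit 84), (nat_lit 100), (nat_lit 115179733)⟩], [], [], [],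
 ⟨⟨[(nat_lit 40), (nat_lit 80), (nat_lit 100)], [(nat_lit 0), (nat_lit 0), (nat_lit 1280)], [((nat_lit 0), (nat_lit 0), (nat_lit 0)), ((nat_lit 0), (nat_lit 0), (nat_lit 0)), ((nat_lit 1000), (nat_lit 800), (nat_lit 600))], ((nat_lit 81), (nat_lit 100), (nat_lit 48))⟩, (nat_lit 0), (nat_lit 178), (nat_lit 178), (nat_lit 0), (nat_lit 401355), [(nat_lit 2054910113), (nat_lit 1870377442), (nat_lit 862796800)], [(nat_lit 0), (nat_lit 0), (nat_lit 0)], [(nat_lit 16051335125), (nat_lit 16881223202), (nat_lit 17688234179), (nat_lit 18719906343), (nat_lit 19350840892), (nat_lit 20301459570), (nat_lit 22173298475), (nat_lit 21650366108)], (nat_lit 1271251), (nat_lit 1271251), (nat_lit 780000), (nat_lit 1435001), (nat_lit 780000), (nat_lit 1762501), [(nat_lit 490000), (nat_lit 1100000), (nat_lit 1442501)], [(nat_lit 3), (nat_lit 50), (nat_lit 345), (nat_lit 125), (nat_lit 12)]⟩,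
 ⟨⟨[(nat_lit 60), (nat_lit 100), (nat_lit 120)], [(nat_lit 0), (nat_lit 0), (nat_lit 1164)], [((nat_lit 0), (nat_lit 0), (nat_lit 0)), ((nat_lit 0), (nat_lit 0), (nat_lit 0)), ((nat_lit 1000), (nat_lit 933), (nat_lit 572))], ((nat_lit 92), (nat_lit 100), (nat_lit 48))⟩, (nat_lit 913099), (nat_lit 520), (nat_lit 520), (nat_lit 0), (nat_lit 801376), [(nat_lit 1309518000), (nat_lit 2493750000), (nat_lit 3179232000)], [], [(nat_lit 13254298560), (nat_lit 13568961294), (nat_lit 13106343975), (nat_lit 13743239112), (nat_lit 17287712664), (nat_lit 14870300424), (nat_lit 20866472850), (nat_lit 18507452520)], (nat_lit 1271251), (nat_lit 1271251), (nat_lit 780000), (nat_lit 1435001), (nat_lit 0), (nat_lit 2825001), [(nat_lit 780000), (nat_lit 1435001), (nat_lit 1271251)], [(nat_lit 10), (nat_lit 54), (nat_lit 373), (nat_lit 150), (nat_lit 12)]⟩,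
 ⟨⟨[(nat_lit 140), (nat_lit 160), (nat_lit 180)], [(nat_lit 0), (nat_lit 0), (nat_lit 799)], [((nat_lit 0), (nat_lit 0), (nat_lit 0)), ((nat_lit 0), (nat_lit 0), (nat_lit 0)), ((nat_lit 728), (nat_lit 1000), (nat_lit 454))], ((nat_lit 100), (nat_lit 67), (nat_lit 52))⟩, (nat_lit 147605), (nat_lit 300), (nat_lit 392), (nat_lit 12465600), (nat_lit 0), [(nat_lit 1653456000), (nat_lit 1994496000), (nat_lit 2361744000)], [], [(nat_lit 9254528106), (nat_lit 8977817610), (nat_lit 8876964720), (nat_lit 8487296352), (nat_lit 8032405362), (nat_lit 7451480724), (nat_lit 7322231077), (nat_lit 6811059910)], (nat_lit 0), (nat_lit 0), (nat_lit 0), (nat_lit 0), (nat_lit 0), (nat_lit 0), [], [(nat_lit 31), (nat_lit 65), (nat_lit 456), (nat_lit 225), (nat_lit 11)]⟩⟩) (.leaf ⟨(nat_lit 714), (nat_lit 153), (nat_lit 0), (nat_lit 133), (nat_lit 0), (nat_lit 4050), (nat_lit 2187), (nat_lit 2330), (nat_lit 0), (nat_lit 0), (nat_lit 242400), [((nat_lit 340), [((nat_lit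 18), (nat_lit 0), (nat_lit 288)), ((nat_lit 18), (nat_lit 1), (nat_lit 426))])], ⟨(nat_lit 7), false, false, false, (nat_lit 217), (nat_lit 3872), (nat_lit 4184), [(nat_lit 1454130), (nat_lit 1458104), (nat_lit 1497453), (nat_lit 1501681), (nat_lit 1586647), (nat_lit 1587153), (nat_lit 1629971), (nat_lit 1630730)]⟩, ⟨(nat_lit 3), true, false, true, (nat_lit 174), (nat_lit 3872), (nat_lit 4184), [(nat_lit 1280820), (nat_lit 1283782), (nat_lit 1389144), (nat_lit 1392739), (nat_lit 1479587), (nat_lit 1477347), (nat_lit 1587919), (nat_lit 1586312)]⟩, (nat_lit 4821252), (nat_lit 42957581), (nat_lit 14123720), (nat_lit 9918699), (nat_lit 3), (nat_lit 0), [⟨(nat_lit 0), (nat_lit 91), (nat_lit 77), (nat_lit 100), (nat_lit 189452374)⟩], [], [⟨(nat_lit 0), (nat_lit 100), (nat_lit 88), (nat_lit 37), (nat_lit 137029)⟩], [],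
 ⟨⟨[(nat_lit 40), (nat_lit 60), (nat_lit 80)], [(nat_lit 0), (nat_lit 197), (nat_lit 800)], [((nat_lit 0), (nat_lit 0), (nat_lit 0)), ((nat_lit 1000), (nat_lit 908), (nat_lit 154)), ((nat_lit 1000), (nat_lit 781), (nat_lit 471))], ((nat_lit 78), (nat_lit 100), (nat_lit 49))⟩, (nat_lit 2257166), (nat_lit 170), (nat_lit 170), (nat_lit 0), (nat_lit 420110), [(nat_lit 1529100160), (nat_lit 2162810524), (nat_lit 2776170676)], [(nat_lit 0), (nat_lit 0), (nat_lit 0)], [(nat_lit 16734613977), (nat_lit 17492458913), (nat_lit 18541910236), (nat_lit 19270785725), (nat_lit 19865997138), (nat_lit 20703818475), (nat_lit 21342677950), (nat_lit 22083591400)], (nat_lit 1271251), (nat_lit 1271251), (nat_lit 780000), (nat_lit 1435001), (nat_lit 780000), (nat_lit 1762501), [(nat_lit 490000), (nat_lit 780000), (nat_lit 1100000)], [(nat_lit 2), (nat_lit 44), (nat_lit 345), (nat_lit 125), (nat_lit 15)]⟩,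
 ⟨⟨[(nat_lit 60), (nat_lit 100), (nat_lit 120)], [(nat_lit 0), (nat_lit 0), (nat_lit 1164)], [((nat_lit 0), (nat_lit 0), (nat_lit 0)), ((nat_lit 0), (nat_lit 0), (nat_lit 0)), ((nat_lit 1000), (nat_lit 933), (nat_lit 572))], ((nat_lit 92), (nat_lit 100), (nat_lit 48))⟩, (nat_lit 588065), (nat_lit 554), (nat_lit 554), (nat_lit 0), (nat_lit 887063), [(nat_lit 938652000), (nat_lit 1787500000), (nat_lit 2278848000)], [], [(nat_lit 9590845020), (nat_lit 9984769826), (nat_lit 9617178023), (nat_lit 9982276768), (nat_lit 12267521012), (nat_lit 10372581740), (nat_lit 15002684083), (nat_lit 13153516534)], (nat_lit 1271251), (nat_lit 1271251), (nat_lit 780000), (nat_lit 1435001), (nat_lit 0), (nat_lit 2825001), [(nat_lit 780000), (nat_lit 1435001), (nat_lit 1271251)], [(nat_lit 10), (nat_lit 54), (nat_lit 373), (nat_lit 150), (nat_lit 12)]⟩,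
 ⟨⟨[(nat_lit 140), (nat_lit 160), (nat_lit 180)], [(nat_lit 0), (nat_lit 0), (nat_lit 799)], [((nat_lit 0), (nat_lit 0), (nat_lit 0)), ((nat_lit 0), (nat_lit 0), (nat_lit 0)), ((nat_lit 728), (nat_lit 1000), (nat_lit 454))], ((nat_lit 100), (nat_lit 67), (nat_lit 52))⟩, (nat_lit 116854), (nat_lit 300), (nat_lit 392), (nat_lit 9868600), (nat_lit 0), [(nat_lit 1308986000), (nat_lit 1578976000), (nat_lit 1869714000)], [], [(nat_lit 7426760830), (nat_lit 7100833110), (nat_lit 6992389940), (nat_lit 6561772642), (nat_lit 6447908124), (nat_lit 5980689447), (nat_lit 5845467798), (nat_lit 5300678796)], (nat_lit 0), (nat_lit 0), (nat_lit 0), (nat_lit 0), (nat_lit 0), (nat_lit 0), [], [(nat_lit 31), (nat_lit 65), (nat_lit 456), (nat_lit 225), (nat_lit 11)]⟩⟩))) (.spl (nat_lit 1) (nat_lit 280) (.leaf ⟨(nat_lit 792), (nat_lit 101), (nat_lit 0), (nat_lit 107), (nat_lit 0), (nat_lit 3865), (nat_lit 2193), (nat_lit 1546), (nat_lit 0), (nat_lit 0), (nat_lit 1344000),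 [((nat_lit 340), [((nat_lit 18), (nat_lit 2), (nat_lit 608)), ((nat_lit 37), (nat_lit 5), (nat_lit 184))])], ⟨(nat_lit 6), false, true, false, (nat_lit 252), (nat_lit 3872), (nat_lit 4473), [(nat_lit 1543097), (nat_lit 1543551), (nat_lit 1586195), (nat_lit 1587102), (nat_lit 1679069), (nat_lit 1672609), (nat_lit 1722167), (nat_lit 1716161)]⟩, ⟨(nat_lit 3), true, false, true, (nat_lit 174), (nat_lit 3872), (nat_lit 4473), [(nat_lit 1277776), (nat_lit 1283782), (nat_lit 1385576), (nat_lit 1392716), (nat_lit 1481711), (nat_lit 1477347), (nat_lit 1589534), (nat_lit 1586304)]⟩, (nat_lit 5021469), (nat_lit 40211637), (nat_lit 17278150), (nat_lit 9510213), (nat_lit 3), (nat_lit 0), [], [], [⟨(nat_lit 0), (nat_lit 100), (nat_lit 96), (nat_lit 16), (nat_lit 905585)⟩, ⟨(nat_lit 0), (nat_lit 100), (nat_lit 92), (nat_lit 49), (nat_lit 40271060)⟩], [],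
 ⟨⟨[(nat_lit 40), (nat_lit 80), (nat_lit 100)], [(nat_lit 0), (nat_lit 0), (nat_lit 1280)], [((nat_lit 0), (nat_lit 0), (nat_lit 0)), ((nat_lit 0), (nat_lit 0), (nat_lit 0)), ((nat_lit 1000), (nat_lit 800), (nat_lit 600))], ((nat_lit 81), (nat_lit 100), (nat_lit 48))⟩, (nat_lit 0), (nat_lit 159), (nat_lit 159), (nat_lit 0), (nat_lit 309775), [(nat_lit 1809206436), (nat_lit 1180182511), (nat_lit 0)], [(nat_lit 0), (nat_lit 0), (nat_lit 1234358400)], [(nat_lit 18820732613), (nat_lit 20012991623), (nat_lit 21553489568), (nat_lit 22716445413), (nat_lit 21249319278), (nat_lit 22354827826), (nat_lit 23874967358), (nat_lit 24920336646)], (nat_lit 1271251), (nat_lit 1271251), (nat_lit 1271251), (nat_lit 1271251), (nat_lit 780000), (nat_lit 1762501), [(nat_lit 490000), (nat_lit 1100000), (nat_lit 1442501)], [(nat_lit 3), (nat_lit 50), (nat_lit 272), (nat_lit 60), (nat_lit 9)]⟩,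
 ⟨⟨[(nat_lit 80), (nat_lit 120), (nat_lit 140)], [(nat_lit 0), (nat_lit 0), (nat_lit 1164)], [((nat_lit 0), (nat_lit 0), (nat_lit 0)), ((nat_lit 0), (nat_lit 0), (nat_lit 0)), ((nat_lit 941), (nat_lit 1000), (nat_lit 576))], ((nat_lit 100), (nat_lit 98), (nat_lit 48))⟩, (nat_lit 494554), (nat_lit 579), (nat_lit 579), (nat_lit 0), (nat_lit 822399), [(nat_lit 975104000), (nat_lit 1657344000), (nat_lit 2047136000)], [], [(nat_lit 7150531660), (nat_lit 6611123646), (nat_lit 6644410558), (nat_lit 6837883164), (nat_lit 9079017206), (nat_lit 7297279505), (nat_lit 7371402514), (nat_lit 7724443437)], (nat_lit 1271251), (nat_lit 1271251), (nat_lit 1271251), (nat_lit 1271251), (nat_lit 0), (nat_lit 2825001), [(nat_lit 1100000), (nat_lit 1785001), (nat_lit 1271251)], [(nat_lit 17), (nat_lit 58), (nat_lit 483), (nat_lit 250), (nat_lit 14)]⟩,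
 ⟨⟨[(nat_lit 140), (nat_lit 160), (nat_lit 180)], [(nat_lit 0), (nat_lit 0), (nat_lit 799)], [((nat_lit 0), (nat_lit 0), (nat_lit 0)), ((nat_lit 0), (nat_lit 0), (nat_lit 0)), ((nat_lit 728), (nat_lit 1000), (nat_lit 454))], ((nat_lit 100), (nat_lit 67), (nat_lit 52))⟩, (nat_lit 100206), (nat_lit 300), (nat_lit 392), (nat_lit 7939400), (nat_lit 0), [(nat_lit 1053094000), (nat_lit 1270304000), (nat_lit 1504206000)], [], [(nat_lit 5894309978), (nat_lit 5718011035), (nat_lit 5653761100), (nat_lit 5405510078), (nat_lit 5115687634), (nat_lit 4740979572), (nat_lit 4658641166), (nat_lit 4332994013)], (nat_lit 0), (nat_lit 0), (nat_lit 0), (nat_lit 0), (nat_lit 0), (nat_lit 0), [], [(nat_lit 31), (nat_lit 65), (nat_lit 456), (nat_lit 225), (nat_lit 11)]⟩⟩) (.leaf ⟨(nat_lit 390), (nat_lit 434), (nat_lit 0), (nat_lit 176), (nat_lit 0), (nat_lit 4835), (nat_lit 4246), (nat_lit 3560), (nat_lit 0), (nat_lit 0), (nat_lit 1560000), [((nat_lit 340), [((nat_lit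 37), (nat_lit 5), (nat_lit 390))])], ⟨(nat_lit 7), false, true, false, (nat_lit 270), (nat_lit 3872), (nat_lit 4473), [(nat_lit 1586195), (nat_lit 1587102), (nat_lit 1629293), (nat_lit 1630654), (nat_lit 1722167), (nat_lit 1716161), (nat_lit 1765265), (nat_lit 1759713)]⟩, ⟨(nat_lit 3), true, false, true, (nat_lit 174), (nat_lit 3872), (nat_lit 4473), [(nat_lit 1277776), (nat_lit 1283782), (nat_lit 1385576), (nat_lit 1392716), (nat_lit 1481711), (nat_lit 1477347), (nat_lit 1589534), (nat_lit 1586304)]⟩, (nat_lit 5093673), (nat_lit 38874887), (nat_lit 18827000), (nat_lit 9298113), (nat_lit 3), (nat_lit 0), [], [], [⟨(nat_lit 0), (nat_lit 100), (nat_lit 88), (nat_lit 37), (nat_lit 589361)⟩], [],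
 ⟨⟨[(nat_lit 40), (nat_lit 80), (nat_lit 100)], [(nat_lit 0), (nat_lit 0), (nat_lit 1280)], [((nat_lit 0), (nat_lit 0), (nat_lit 0)), ((nat_lit 0), (nat_lit 0), (nat_lit 0)), ((nat_lit 1000), (nat_lit 800), (nat_lit 600))], ((nat_lit 81), (nat_lit 100), (nat_lit 48))⟩, (nat_lit 3952), (nat_lit 210), (nat_lit 210), (nat_lit 0), (nat_lit 422839), [(nat_lit 2147619647), (nat_lit 1819089205), (nat_lit 0)], [(nat_lit 0), (nat_lit 0), (nat_lit 988088000)], [(nat_lit 18260810651), (nat_lit 19650194846), (nat_lit 21775551605), (nat_lit 23460486338), (nat_lit 20839294136), (nat_lit 22400839730), (nat_lit 24067499570), (nat_lit 25447040215)], (nat_lit 1271251), (nat_lit 1271251), (nat_lit 1271251), (nat_lit 1271251), (nat_lit 780000), (nat_lit 1762501), [(nat_lit 490000), (nat_lit 1100000), (nat_lit 1442501)], [(nat_lit 3), (nat_lit 50), (nat_lit 272), (nat_lit 60), (nat_lit 9)]⟩,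
 ⟨⟨[(nat_lit 60), (nat_lit 100), (nat_lit 120)], [(nat_lit 0), (nat_lit 0), (nat_lit 1164)], [((nat_lit 0), (nat_lit 0), (nat_lit 0)), ((nat_lit 0), (nat_lit 0), (nat_lit 0)), ((nat_lit 1000), (nat_lit 933), (nat_lit 572))], ((nat_lit 92), (nat_lit 100), (nat_lit 48))⟩, (nat_lit 1312855), (nat_lit 531), (nat_lit 531), (nat_lit 0), (nat_lit 888088), [(nat_lit 2002020000), (nat_lit 3812500000), (nat_lit 4860480000)], [], [(nat_lit 20297457464), (nat_lit 21068299600), (nat_lit 21344790568), (nat_lit 22165944988), (nat_lit 22534404188), (nat_lit 22024256112), (nat_lit 21944989418), (nat_lit 22230991044)], (nat_lit 1271251), (nat_lit 1271251), (nat_lit 1271251), (nat_lit 1271251), (nat_lit 0), (nat_lit 2825001), [(nat_lit 780000), (nat_lit 1435001), (nat_lit 1271251)], [(nat_lit 10), (nat_lit 54), (nat_lit 401), (nat_lit 175), (nat_lit 13)]⟩,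
 ⟨⟨[(nat_lit 140), (nat_lit 160), (nat_lit 180)], [(nat_lit 0), (nat_lit 0), (nat_lit 799)], [((nat_lit 0), (nat_lit 0), (nat_lit 0)), ((nat_lit 0), (nat_lit 0), (nat_lit 0)), ((nat_lit 728), (nat_lit 1000), (nat_lit 454))], ((nat_lit 100), (nat_lit 67), (nat_lit 52))⟩, (nat_lit 156991), (nat_lit 300), (nat_lit 392), (nat_lit 13059200), (nat_lit 0), [(nat_lit 1732192000), (nat_lit 2089472000), (nat_lit 2474208000)], [], [(nat_lit 9944854160), (nat_lit 9388884984), (nat_lit 9212015680), (nat_lit 8499702624), (nat_lit 8777054431), (nat_lit 8007605651), (nat_lit 7828628704), (nat_lit 7471375912)], (nat_lit 0), (nat_lit 0), (nat_lit 0), (nat_lit 0), (nat_lit 0), (nat_lit 0), [], [(nat_lit 31), (nat_lit 65), (nat_lit 456), (nat_lit 225), (nat_lit 11)]⟩⟩)))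
noncomputable def c11_48 : Tr Lf :=
 (.spl (nat_lit 5) (nat_lit 120) (.spl (nat_lit 1) (nat_lit 280) (.spl (nat_lit 4) (nat_lit 320) (.leaf ⟨(nat_lit 661), (nat_lit 0), (nat_lit 0), (nat_lit 339), (nat_lit 0), (nat_lit 4592), (nat_lit 2457), (nat_lit 5130), (nat_lit 0), (nat_lit 0), (nat_lit 841000), [((nat_lit 340), [((nat_lit 18), (nat_lit 2), (nat_lit 601)), ((nat_lit 37), (nat_lit 5), (nat_lit 60))])], ⟨(nat_lit 6), false, false, false, (nat_lit 226), (nat_lit 3872), (nat_lit 4473), [(nat_lit 1407125), (nat_lit 1414492), (nat_lit 1450223), (nat_lit 1458043), (nat_lit 1679069), (nat_lit 1672609), (nat_lit 1722167), (nat_lit 1716161)]⟩, ⟨(nat_lit 6), true, false, true, (nat_lit 240), (nat_lit 3872), (nat_lit 4473), [(nat_lit 1481711), (nat_lit 1477347), (nat_lit 1589534), (nat_lit 1586304), (nat_lit 1617667), (nat_lit 1606390), (nat_lit 1725499), (nat_lit 1715356)]⟩, (nat_lit 5324469), (nat_lit 37901824), (nat_lit 13845145), (nat_lit 15253031),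 (nat_lit 0), (nat_lit 0), [], [⟨(nat_lit 1), (nat_lit 77), (nat_lit 77), (nat_lit 100), (nat_lit 92507621)⟩], [], [],
 ⟨⟨[(nat_lit 40), (nat_lit 80), (nat_lit 100)], [(nat_lit 0), (nat_lit 0), (nat_lit 1280)], [((nat_lit 0), (nat_lit 0), (nat_lit 0)), ((nat_lit 0), (nat_lit 0), (nat_lit 0)), ((nat_lit 1000), (nat_lit 800), (nat_lit 600))], ((nat_lit 81), (nat_lit 100), (nat_lit 48))⟩, (nat_lit 0), (nat_lit 168), (nat_lit 168), (nat_lit 0), (nat_lit 309775), [(nat_lit 1988097982), (nat_lit 1873093229), (nat_lit 1113834800)], [(nat_lit 0), (nat_lit 0), (nat_lit 0)], [(nat_lit 19867214987), (nat_lit 21002776311), (nat_lit 23964481664), (nat_lit 25307478268), (nat_lit 24071340880), (nat_lit 25546315736), (nat_lit 27520980544), (nat_lit 28637510500)], (nat_lit 1271251), (nat_lit 1271251), (nat_lit 780000), (nat_lit 2090001), (nat_lit 1271251), (nat_lit 1271251), [(nat_lit 490000), (nat_lit 1100000), (nat_lit 1442501)], [(nat_lit 3), (nat_lit 50), (nat_lit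 289), (nat_lit 75), (nat_lit 10)]⟩,
 ⟨⟨[(nat_lit 80), (nat_lit 120), (nat_lit 140)], [(nat_lit 0), (nat_lit 0), (nat_lit 1164)], [((nat_lit 0), (nat_lit 0), (nat_lit 0)), ((nat_lit 0), (nat_lit 0), (nat_lit 0)), ((nat_lit 941), (nat_lit 1000), (nat_lit 576))], ((nat_lit 100), (nat_lit 98), (nat_lit 48))⟩, (nat_lit 919716), (nat_lit 524), (nat_lit 524), (nat_lit 0), (nat_lit 669676), [(nat_lit 1589232000), (nat_lit 2701152000), (nat_lit 3336438000)], [], [(nat_lit 12235949220), (nat_lit 12716714676), (nat_lit 15223231740), (nat_lit 13349789997), (nat_lit 11627582745), (nat_lit 11565480119), (nat_lit 17195773233), (nat_lit 15012366326)], (nat_lit 1271251), (nat_lit 1271251), (nat_lit 780000), (nat_lit 2090001), (nat_lit 0), (nat_lit 780000), [(nat_lit 1100000), (nat_lit 1785001), (nat_lit 1271251)], [(nat_lit 17), (nat_lit 58), (nat_lit 401), (nat_lit 175), (nat_lit 12)]⟩,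
 ⟨⟨[(nat_lit 140), (nat_lit 160), (nat_lit 180)], [(nat_lit 0), (nat_lit 0), (nat_lit 799)], [((nat_lit 0), (nat_lit 0), (nat_lit 0)), ((nat_lit 0), (nat_lit 0), (nat_lit 0)), ((nat_lit 728), (nat_lit 1000), (nat_lit 454))], ((nat_lit 100), (nat_lit 67), (nat_lit 52))⟩, (nat_lit 297845), (nat_lit 300), (nat_lit 323), (nat_lit 25153800), (nat_lit 0), [(nat_lit 3336438000), (nat_lit 4024608000), (nat_lit 4765662000)], [], [(nat_lit 15966360428), (nat_lit 15442783511), (nat_lit 17437947719), (nat_lit 17048382892), (nat_lit 11720197833), (nat_lit 11213059252), (nat_lit 13005215030), (nat_lit 12262921444)], (nat_lit 0), (nat_lit 0), (nat_lit 0), (nat_lit 0), (nat_lit 0), (nat_lit 0), [], [(nat_lit 31), (nat_lit 65), (nat_lit 401), (nat_lit 175), (nat_lit 9)]⟩⟩) (.leaf ⟨(nat_lit 176), (nat_lit 0), (nat_lit 0), (nat_lit 824), (nat_lit 0), (nat_lit 5043), (nat_lit 5929), (nat_lit 14422), (nat_lit 0), (nat_lit 0), (nat_lit 704000), [((nat_lit 340), [((nat_lit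 37), (nat_lit 5), (nat_lit 176))])], ⟨(nat_lit 6), false, false, false, (nat_lit 226), (nat_lit 3872), (nat_lit 4473), [(nat_lit 1407125), (nat_lit 1414492), (nat_lit 1450223), (nat_lit 1458043), (nat_lit 1679069), (nat_lit 1672609), (nat_lit 1722167), (nat_lit 1716161)]⟩, ⟨(nat_lit 8), true, false, true, (nat_lit 286), (nat_lit 3872), (nat_lit 4473), [(nat_lit 1617667), (nat_lit 1606390), (nat_lit 1725499), (nat_lit 1715356), (nat_lit 1719634), (nat_lit 1703173), (nat_lit 1827467), (nat_lit 1812139)]⟩, (nat_lit 5495452), (nat_lit 34873720), (nat_lit 13007272), (nat_lit 19119008), (nat_lit 0), (nat_lit 0), [], [⟨(nat_lit 1), (nat_lit 77), (nat_lit 77), (nat_lit 100), (nat_lit 1263050613)⟩], [], [],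
 ⟨⟨[(nat_lit 40), (nat_lit 80), (nat_lit 100)], [(nat_lit 0), (nat_lit 0), (nat_lit 1280)], [((nat_lit 0), (nat_lit 0), (nat_lit 0)), ((nat_lit 0), (nat_lit 0), (nat_lit 0)), ((nat_lit 1000), (nat_lit 800), (nat_lit 600))], ((nat_lit 81), (nat_lit 100), (nat_lit 48))⟩, (nat_lit 367730), (nat_lit 201), (nat_lit 201), (nat_lit 0), (nat_lit 309775), [(nat_lit 2263439860), (nat_lit 3101504155), (nat_lit 2983580800)], [(nat_lit 0), (nat_lit 0), (nat_lit 0)], [(nat_lit 24923418204), (nat_lit 25990187907), (nat_lit 27837055776), (nat_lit 29004286250), (nat_lit 29094655180), (nat_lit 30386925565), (nat_lit 31338747198), (nat_lit 32320340485)], (nat_lit 1271251), (nat_lit 1271251), (nat_lit 780000), (nat_lit 2090001), (nat_lit 1271251), (nat_lit 1271251), [(nat_lit 490000), (nat_lit 1100000), (nat_lit 1442501)], [(nat_lit 3), (nat_lit 50), (nat_lit 289), (nat_lit 75), (nat_lit 9)]⟩,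
 ⟨⟨[(nat_lit 80), (nat_lit 120), (nat_lit 140)], [(nat_lit 0), (nat_lit 0), (nat_lit 1164)], [((nat_lit 0), (nat_lit 0), (nat_lit 0)), ((nat_lit 0), (nat_lit 0), (nat_lit 0)), ((nat_lit 941), (nat_lit 1000), (nat_lit 576))], ((nat_lit 100), (nat_lit 98), (nat_lit 48))⟩, (nat_lit 2353003), (nat_lit 524), (nat_lit 524), (nat_lit 0), (nat_lit 669676), [(nat_lit 3862912000), (nat_lit 6565632000), (nat_lit 8109808000)], [], [(nat_lit 29722660652), (nat_lit 31030884989), (nat_lit 37002202312), (nat_lit 32577896497), (nat_lit 28312892833), (nat_lit 28263939963), (nat_lit 41780739533), (nat_lit 36511948506)], (nat_lit 1271251), (nat_lit 1271251), (nat_lit 780000), (nat_lit 2090001), (nat_lit 0), (nat_lit 780000), [(nat_lit 1100000), (nat_lit 1785001), (nat_lit 1271251)], [(nat_lit 17), (nat_lit 58), (nat_lit 401), (nat_lit 175), (nat_lit 12)]⟩,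
 ⟨⟨[(nat_lit 140), (nat_lit 160), (nat_lit 180)], [(nat_lit 0), (nat_lit 0), (nat_lit 799)], [((nat_lit 0), (nat_lit 0), (nat_lit 0)), ((nat_lit 0), (nat_lit 0), (nat_lit 0)), ((nat_lit 728), (nat_lit 1000), (nat_lit 454))], ((nat_lit 100), (nat_lit 67), (nat_lit 52))⟩, (nat_lit 1555274), (nat_lit 300), (nat_lit 376), (nat_lit 61140800), (nat_lit 0), [(nat_lit 8109808000), (nat_lit 9782528000), (nat_lit 11583792000)], [], [(nat_lit 45949984952), (nat_lit 42448975838), (nat_lit 51714928822), (nat_lit 48886773728), (nat_lit 33083079452), (nat_lit 29775972325), (nat_lit 36939310467), (nat_lit 34478407043)], (nat_lit 0), (nat_lit 0), (nat_lit 0), (nat_lit 0), (nat_lit 0), (nat_lit 0), [], [(nat_lit 31), (nat_lit 65), (nat_lit 428), (nat_lit 200), (nat_lit 10)]⟩⟩)) (.leaf ⟨(nat_lit 430), (nat_lit 0), (nat_lit 0), (nat_lit 570), (nat_lit 0), (nat_lit 4682), (nat_lit 4841), (nat_lit 8561), (nat_lit 0), (nat_lit 0), (nat_lit 1555000), [((nat_lit 340),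 [((nat_lit 18), (nat_lit 2), (nat_lit 55)), ((nat_lit 37), (nat_lit 5), (nat_lit 375))])], ⟨(nat_lit 7), false, false, false, (nat_lit 243), (nat_lit 3872), (nat_lit 4473), [(nat_lit 1450223), (nat_lit 1458043), (nat_lit 1493321), (nat_lit 1501595), (nat_lit 1722167), (nat_lit 1716161), (nat_lit 1765265), (nat_lit 1759713)]⟩, ⟨(nat_lit 6), true, false, true, (nat_lit 260), (nat_lit 3872), (nat_lit 4473), [(nat_lit 1481711), (nat_lit 1477347), (nat_lit 1589534), (nat_lit 1586304), (nat_lit 1719634), (nat_lit 1703173), (nat_lit 1827467), (nat_lit 1812139)]⟩, (nat_lit 5497582), (nat_lit 35576861), (nat_lit 14873157), (nat_lit 16549982), (nat_lit 0), (nat_lit 0), [⟨(nat_lit 0), (nat_lit 92), (nat_lit 81), (nat_lit 100), (nat_lit 285890191)⟩], [], [], [],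
 ⟨⟨[(nat_lit 40), (nat_lit 80), (nat_lit 100)], [(nat_lit 0), (nat_lit 0), (nat_lit 1280)], [((nat_lit 0), (nat_lit 0), (nat_lit 0)), ((nat_lit 0), (nat_lit 0), (nat_lit 0)), ((nat_lit 1000), (nat_lit 800), (nat_lit 600))], ((nat_lit 81), (nat_lit 100), (nat_lit 48))⟩, (nat_lit 0), (nat_lit 235), (nat_lit 235), (nat_lit 0), (nat_lit 422839), [(nat_lit 2146230117), (nat_lit 1652297652), (nat_lit 0)], [(nat_lit 0), (nat_lit 0), (nat_lit 1077826000)], [(nat_lit 19906244962), (nat_lit 21051361279), (nat_lit 24002636444), (nat_lit 25359167878), (nat_lit 28615678033), (nat_lit 29860964810), (nat_lit 30963998152), (nat_lit 31915500103)], (nat_lit 1271251), (nat_lit 1271251), (nat_lit 780000), (nat_lit 2090001), (nat_lit 1271251), (nat_lit 1271251), [(nat_lit 490000), (nat_lit 1100000), (nat_lit 1442501)], [(nat_lit 3), (nat_lit 50), (nat_lit 289), (nat_lit 75), (nat_lit 10)]⟩,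
 ⟨⟨[(nat_lit 60), (nat_lit 100), (nat_lit 120)], [(nat_lit 0), (nat_lit 0), (nat_lit 1164)], [((nat_lit 0), (nat_lit 0), (nat_lit 0)), ((nat_lit 0), (nat_lit 0), (nat_lit 0)), ((nat_lit 1000), (nat_lit 933), (nat_lit 572))], ((nat_lit 92), (nat_lit 100), (nat_lit 48))⟩, (nat_lit 1409623), (nat_lit 491), (nat_lit 491), (nat_lit 0), (nat_lit 729459), [(nat_lit 1870740000), (nat_lit 3562500000), (nat_lit 4541760000)], [], [(nat_lit 15815568351), (nat_lit 17020146442), (nat_lit 17495575486), (nat_lit 18163911928), (nat_lit 13586996619), (nat_lit 14631508786), (nat_lit 21074127962), (nat_lit 16716649462)], (nat_lit 1271251), (nat_lit 1271251), (nat_lit 780000), (nat_lit 2090001), (nat_lit 0), (nat_lit 780000), [(nat_lit 780000), (nat_lit 1435001), (nat_lit 1271251)], [(nat_lit 10), (nat_lit 54), (nat_lit 317), (nat_lit 100), (nat_lit 10)]⟩,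
 ⟨⟨[(nat_lit 140), (nat_lit 160), (nat_lit 180)], [(nat_lit 0), (nat_lit 0), (nat_lit 799)], [((nat_lit 0), (nat_lit 0), (nat_lit 0)), ((nat_lit 0), (nat_lit 0), (nat_lit 0)), ((nat_lit 728), (nat_lit 1000), (nat_lit 454))], ((nat_lit 100), (nat_lit 67), (nat_lit 52))⟩, (nat_lit 500801), (nat_lit 300), (nat_lit 376), (nat_lit 42294001), (nat_lit 0), [(nat_lit 5609940000), (nat_lit 6767040000), (nat_lit 8013060000)], [], [(nat_lit 30090139200), (nat_lit 28670455100), (nat_lit 34082977733), (nat_lit 32578718600), (nat_lit 22819803324), (nat_lit 21469657972), (nat_lit 26315532235), (nat_lit 24168248639)], (nat_lit 0), (nat_lit 0), (nat_lit 0), (nat_lit 0), (nat_lit 0), (nat_lit 0), [], [(nat_lit 31), (nat_lit 65), (nat_lit 428), (nat_lit 200), (nat_lit 10)]⟩⟩)) (.leaf ⟨(nat_lit 0), (nat_lit 0), (nat_lit 0), (nat_lit 1000), (nat_lit 0), (nat_lit 7101), (nat_lit 6553), (nat_lit 17276), (nat_lit 0), (nat_lit 0), (nat_lit 0), [], Pd.none, Pd.none, (nat_lit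 0), (nat_lit 1), (nat_lit 0), (nat_lit 0), (nat_lit 0), (nat_lit 0), [], [⟨(nat_lit 1), (nat_lit 77), (nat_lit 77), (nat_lit 100), (nat_lit 549053327)⟩], [], [],
 ⟨⟨[(nat_lit 40), (nat_lit 80), (nat_lit 100)], [(nat_lit 0), (nat_lit 0), (nat_lit 1280)], [((nat_lit 0), (nat_lit 0), (nat_lit 0)), ((nat_lit 0), (nat_lit 0), (nat_lit 0)), ((nat_lit 1000), (nat_lit 800), (nat_lit 600))], ((nat_lit 81), (nat_lit 100), (nat_lit 48))⟩, (nat_lit 1781540), (nat_lit 235), (nat_lit 235), (nat_lit 0), (nat_lit 423261), [(nat_lit 2507497108), (nat_lit 4688000911), (nat_lit 6250000000)], [], [(nat_lit 20839927595), (nat_lit 22381715378), (nat_lit 25028152142), (nat_lit 26748469729), (nat_lit 31825222957), (nat_lit 33385338955), (nat_lit 33475128186), (nat_lit 34628267092)], (nat_lit 1271251), (nat_lit 1271251), (nat_lit 780000), (nat_lit 2090001), (nat_lit 1271251), (nat_lit 1271251), [(nat_lit 490000), (nat_lit 1100000), (nat_lit 1442501)], [(nat_lit 3), (nat_lit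 50), (nat_lit 289), (nat_lit 75), (nat_lit 10)]⟩,
 ⟨⟨[(nat_lit 80), (nat_lit 120), (nat_lit 140)], [(nat_lit 0), (nat_lit 0), (nat_lit 1164)], [((nat_lit 0), (nat_lit 0), (nat_lit 0)), ((nat_lit 0), (nat_lit 0), (nat_lit 0)), ((nat_lit 941), (nat_lit 1000), (nat_lit 576))], ((nat_lit 100), (nat_lit 98), (nat_lit 48))⟩, (nat_lit 2144214), (nat_lit 586), (nat_lit 586), (nat_lit 0), (nat_lit 962753), [(nat_lit 4688000000), (nat_lit 7968000000), (nat_lit 9842000000)], [], [(nat_lit 41663030377), (nat_lit 43300306061), (nat_lit 42493514996), (nat_lit 43735609215), (nat_lit 48116517584), (nat_lit 45975708966), (nat_lit 64401039526), (nat_lit 53184164578)], (nat_lit 1271251), (nat_lit 1271251), (nat_lit 780000), (nat_lit 2090001), (nat_lit 780000), (nat_lit 3072501), [(nat_lit 1100000), (nat_lit 1785001), (nat_lit 1271251)], [(nat_lit 17), (nat_lit 58), (nat_lit 483), (nat_lit 250), (nat_lit 14)]⟩,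
 ⟨⟨[(nat_lit 140), (nat_lit 160), (nat_lit 180)], [(nat_lit 0), (nat_lit 0), (nat_lit 799)], [((nat_lit 0), (nat_lit 0), (nat_lit 0)), ((nat_lit 0), (nat_lit 0), (nat_lit 0)), ((nat_lit 728), (nat_lit 1000), (nat_lit 454))], ((nat_lit 100), (nat_lit 67), (nat_lit 52))⟩, (nat_lit 10512191), (nat_lit 228), (nat_lit 228), (nat_lit 0), (nat_lit 0), [(nat_lit 9842000000), (nat_lit 11872000000), (nat_lit 14058000000)], [], [(nat_lit 21310737375), (nat_lit 21744554519), (nat_lit 39197014262), (nat_lit 37211659559), (nat_lit 41012379344), (nat_lit 39621989148), (nat_lit 56021156096), (nat_lit 51576960247)], (nat_lit 0), (nat_lit 0), (nat_lit 0), (nat_lit 0), (nat_lit 0), (nat_lit 0), [], [(nat_lit 31), (nat_lit 65), (nat_lit 483), (nat_lit 250), (nat_lit 11)]⟩⟩))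
noncomputable def c11_49 : Tr Lf :=
 (.stt (nat_lit 1) (.spl (nat_lit 4) (nat_lit 200) (.spl (nat_lit 2) (nat_lit 180) (.leaf ⟨(nat_lit 1000), (nat_lit 0), (nat_lit 0), (nat_lit 0), (nat_lit 0), (nat_lit 3398), (nat_lit 0), (nat_lit 0), (nat_lit 0), (nat_lit 0), (nat_lit 250000), [((nat_lit 330), [((nat_lit 18), (nat_lit 0), (nat_lit 1000))])], ⟨(nat_lit 6), false, false, false, (nat_lit 208), (nat_lit 4183), (nat_lit 4473), [(nat_lit 1407167), (nat_lit 1410812), (nat_lit 1493417), (nat_lit 1497463), (nat_lit 1543125), (nat_lit 1543325), (nat_lit 1629375), (nat_lit 1629976)]⟩, ⟨(nat_lit 3), false, false, true, (nat_lit 152), (nat_lit 4183), (nat_lit 4473), [(nat_lit 1277776), (nat_lit 1280820), (nat_lit 1342476), (nat_lit 1345821), (nat_lit 1413733), (nat_lit 1413332), (nat_lit 1478432), (nat_lit 1478332)]⟩, (nat_lit 4537593), (nat_lit 45246937), (nat_lit 13523756), (nat_lit 8229307), (nat_lit 0), (nat_lit 0), [], [], [], [],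
 ⟨⟨[(nat_lit 40), (nat_lit 80), (nat_lit 100)], [(nat_lit 0), (nat_lit 0), (nat_lit 1280)], [((nat_lit 0), (nat_lit 0), (nat_lit 0)), ((nat_lit 0), (nat_lit 0), (nat_lit 0)), ((nat_lit 1000), (nat_lit 800), (nat_lit 600))], ((nat_lit 81), (nat_lit 100), (nat_lit 48))⟩, (nat_lit 0), (nat_lit 31), (nat_lit 31), (nat_lit 0), (nat_lit 0), [(nat_lit 1532800102), (nat_lit 104164379453), (nat_lit 2562000000)], [(nat_lit 0), (nat_lit 0), (nat_lit 0)], [(nat_lit 15254139534), (nat_lit 16187706364), (nat_lit 17308045686), (nat_lit 18132205629), (nat_lit 17308045686), (nat_lit 18132205629), (nat_lit 19126385962), (nat_lit 19856282290)], (nat_lit 0), (nat_lit 0), (nat_lit 0), (nat_lit 0), (nat_lit 0), (nat_lit 0), [], [(nat_lit 3), (nat_lit 50), (nat_lit 317), (nat_lit 100), (nat_lit 11)]⟩,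
 Rw.none,
 Rw.none⟩) (.leaf ⟨(nat_lit 956), (nat_lit 16), (nat_lit 0), (nat_lit 28), (nat_lit 0), (nat_lit 3364), (nat_lit 498), (nat_lit 269), (nat_lit 0), (nat_lit 0), (nat_lit 239000), [((nat_lit 330), [((nat_lit 18), (nat_lit 0), (nat_lit 956))])], ⟨(nat_lit 6), false, false, false, (nat_lit 208), (nat_lit 4183), (nat_lit 4473), [(nat_lit 1407167), (nat_lit 1410812), (nat_lit 1493417), (nat_lit 1497463), (nat_lit 1543125), (nat_lit 1543325), (nat_lit 1629375), (nat_lit 1629976)]⟩, ⟨(nat_lit 4), false, false, false, (nat_lit 173), (nat_lit 4183), (nat_lit 4473), [(nat_lit 1342476), (nat_lit 1345821), (nat_lit 1385603), (nat_lit 1389149), (nat_lit 1478432), (nat_lit 1478332), (nat_lit 1521562), (nat_lit 1521662)]⟩, (nat_lit 4746630), (nat_lit 43760343), (nat_lit 13282423), (nat_lit 9957234), (nat_lit 4), (nat_lit 0), [], [], [], [],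
 ⟨⟨[(nat_lit 40), (nat_lit 80), (nat_lit 100)], [(nat_lit 0), (nat_lit 0), (nat_lit 1280)], [((nat_lit 0), (nat_lit 0), (nat_lit 0)), ((nat_lit 0), (nat_lit 0), (nat_lit 0)), ((nat_lit 1000), (nat_lit 800), (nat_lit 600))], ((nat_lit 81), (nat_lit 100), (nat_lit 48))⟩, (nat_lit 0), (nat_lit 31), (nat_lit 31), (nat_lit 0), (nat_lit 0), [(nat_lit 1544468804), (nat_lit 100469633026), (nat_lit 2724272000)], [(nat_lit 0), (nat_lit 0), (nat_lit 0)], [(nat_lit 15244897212), (nat_lit 16173407048), (nat_lit 17305848596), (nat_lit 18120088088), (nat_lit 17305848596), (nat_lit 18120088088), (nat_lit 19160985284), (nat_lit 19847723120)], (nat_lit 0), (nat_lit 0), (nat_lit 0), (nat_lit 0), (nat_lit 0), (nat_lit 0), [], [(nat_lit 3), (nat_lit 50), (nat_lit 317), (nat_lit 100), (nat_lit 11)]⟩,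
 ⟨⟨[(nat_lit 80), (nat_lit 120), (nat_lit 140)], [(nat_lit 0), (nat_lit 0), (nat_lit 1164)], [((nat_lit 0), (nat_lit 0), (nat_lit 0)), ((nat_lit 0), (nat_lit 0), (nat_lit 0)), ((nat_lit 941), (nat_lit 1000), (nat_lit 576))], ((nat_lit 100), (nat_lit 98), (nat_lit 48))⟩, (nat_lit 0), (nat_lit 480), (nat_lit 480), (nat_lit 0), (nat_lit 558181), [(nat_lit 206272000), (nat_lit 350592000), (nat_lit 433048000)], [], [(nat_lit 1673107000), (nat_lit 1541086904), (nat_lit 1503520148), (nat_lit 1545646508), (nat_lit 2572465012), (nat_lit 1762103816), (nat_lit 3140072612), (nat_lit 2307961424)], (nat_lit 1271251), (nat_lit 1271251), (nat_lit 780000), (nat_lit 1435001), (nat_lit 0), (nat_lit 2825001), [(nat_lit 1100000), (nat_lit 1785001), (nat_lit 1271251)], [(nat_lit 17), (nat_lit 58), (nat_lit 483), (nat_lit 250), (nat_lit 14)]⟩,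
 ⟨⟨[(nat_lit 120), (nat_lit 140), (nat_lit 160)], [(nat_lit 0), (nat_lit 266), (nat_lit 862)], [((nat_lit 0), (nat_lit 0), (nat_lit 0)), ((nat_lit 960), (nat_lit 1000), (nat_lit 200)), ((nat_lit 874), (nat_lit 1000), (nat_lit 406))], ((nat_lit 100), (nat_lit 83), (nat_lit 48))⟩, (nat_lit 57474), (nat_lit 300), (nat_lit 1349), (nat_lit 1859200), (nat_lit 2205169), [(nat_lit 223104000), (nat_lit 275576000), (nat_lit 332416000)], [], [(nat_lit 1628991373), (nat_lit 1601398918), (nat_lit 1562421664), (nat_lit 1534456976), (nat_lit 1693726453), (nat_lit 1451636406), (nat_lit 1990731416), (nat_lit 1754729108)], (nat_lit 1271251), (nat_lit 1271251), (nat_lit 780000), (nat_lit 1435001), (nat_lit 0), (nat_lit 2825001), [(nat_lit 1695001), (nat_lit 1271251), (nat_lit 1271251)], [(nat_lit 27), (nat_lit 62), (nat_lit 456), (nat_lit 225), (nat_lit 12)]⟩⟩)) (.spl (nat_lit 2) (nat_lit 180) (.leaf ⟨(nat_lit 1000), (nat_lit 0), (nat_lit 0), (nat_lit 0), (nat_lit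 0), (nat_lit 3362), (nat_lit 0), (nat_lit 0), (nat_lit 0), (nat_lit 0), (nat_lit 250000), [((nat_lit 330), [((nat_lit 18), (nat_lit 0), (nat_lit 1000))])], ⟨(nat_lit 6), false, false, false, (nat_lit 208), (nat_lit 4183), (nat_lit 4473), [(nat_lit 1407167), (nat_lit 1410812), (nat_lit 1493417), (nat_lit 1497463), (nat_lit 1543125), (nat_lit 1543325), (nat_lit 1629375), (nat_lit 1629976)]⟩, ⟨(nat_lit 5), false, false, true, (nat_lit 192), (nat_lit 4183), (nat_lit 4473), [(nat_lit 1413733), (nat_lit 1413332), (nat_lit 1478432), (nat_lit 1478332), (nat_lit 1481711), (nat_lit 1479587), (nat_lit 1546410), (nat_lit 1544587)]⟩, (nat_lit 4904119), (nat_lit 42454833), (nat_lit 13049313), (nat_lit 11495854), (nat_lit 0), (nat_lit 0), [], [], [], [],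
 ⟨⟨[(nat_lit 40), (nat_lit 80), (nat_lit 100)], [(nat_lit 0), (nat_lit 0), (nat_lit 1280)], [((nat_lit 0), (nat_lit 0), (nat_lit 0)), ((nat_lit 0), (nat_lit 0), (nat_lit 0)), ((nat_lit 1000), (nat_lit 800), (nat_lit 600))], ((nat_lit 81), (nat_lit 100), (nat_lit 48))⟩, (nat_lit 0), (nat_lit 31), (nat_lit 31), (nat_lit 0), (nat_lit 0), [(nat_lit 1532800037), (nat_lit 104074892321), (nat_lit 2562000000)], [(nat_lit 0), (nat_lit 0), (nat_lit 0)], [(nat_lit 17299745634), (nat_lit 18119375292), (nat_lit 19150665377), (nat_lit 19846999510), (nat_lit 18805514232), (nat_lit 19565497486), (nat_lit 20455239445), (nat_lit 21130351518)], (nat_lit 0), (nat_lit 0), (nat_lit 0), (nat_lit 0), (nat_lit 0), (nat_lit 0), [], [(nat_lit 3), (nat_lit 50), (nat_lit 260), (nat_lit 50), (nat_lit 9)]⟩,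
 Rw.none,
 Rw.none⟩) (.leaf ⟨(nat_lit 953), (nat_lit 18), (nat_lit 0), (nat_lit 29), (nat_lit 0), (nat_lit 3334), (nat_lit 536), (nat_lit 292), (nat_lit 0), (nat_lit 0), (nat_lit 238250), [((nat_lit 330), [((nat_lit 18), (nat_lit 0), (nat_lit 953))])], ⟨(nat_lit 6), false, false, false, (nat_lit 208), (nat_lit 4183), (nat_lit 4473), [(nat_lit 1407167), (nat_lit 1410812), (nat_lit 1493417), (nat_lit 1497463), (nat_lit 1543125), (nat_lit 1543325), (nat_lit 1629375), (nat_lit 1629976)]⟩, ⟨(nat_lit 5), false, true, true, (nat_lit 213), (nat_lit 4183), (nat_lit 4473), [(nat_lit 1478432), (nat_lit 1478332), (nat_lit 1521562), (nat_lit 1521662), (nat_lit 1546410), (nat_lit 1544587), (nat_lit 1589541), (nat_lit 1587919)]⟩, (nat_lit 5060143), (nat_lit 40929580), (nat_lit 12754131), (nat_lit 13316289), (nat_lit 5), (nat_lit 0), [⟨(nat_lit 0), (nat_lit 82), (nat_lit 78), (nat_lit 100), (nat_lit 11391555)⟩], [], [], [],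
 ⟨⟨[(nat_lit 40), (nat_lit 80), (nat_lit 100)], [(nat_lit 0), (nat_lit 0), (nat_lit 1280)], [((nat_lit 0), (nat_lit 0), (nat_lit 0)), ((nat_lit 0), (nat_lit 0), (nat_lit 0)), ((nat_lit 1000), (nat_lit 800), (nat_lit 600))], ((nat_lit 81), (nat_lit 100), (nat_lit 48))⟩, (nat_lit 0), (nat_lit 31), (nat_lit 31), (nat_lit 0), (nat_lit 0), [(nat_lit 1545264401), (nat_lit 100415535067), (nat_lit 2735336000)], [(nat_lit 0), (nat_lit 0), (nat_lit 0)], [(nat_lit 17325193853), (nat_lit 18109396141), (nat_lit 19182013781), (nat_lit 19865782063), (nat_lit 18798842237), (nat_lit 19553267849), (nat_lit 20484851457), (nat_lit 21121710326)], (nat_lit 0), (nat_lit 0), (nat_lit 0), (nat_lit 0), (nat_lit 0), (nat_lit 0), [], [(nat_lit 3), (nat_lit 50), (nat_lit 260), (nat_lit 50), (nat_lit 9)]⟩,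
 ⟨⟨[(nat_lit 80), (nat_lit 120), (nat_lit 140)], [(nat_lit 0), (nat_lit 0), (nat_lit 1164)], [((nat_lit 0), (nat_lit 0), (nat_lit 0)), ((nat_lit 0), (nat_lit 0), (nat_lit 0)), ((nat_lit 941), (nat_lit 1000), (nat_lit 576))], ((nat_lit 100), (nat_lit 98), (nat_lit 48))⟩, (nat_lit 138673), (nat_lit 480), (nat_lit 480), (nat_lit 0), (nat_lit 558181), [(nat_lit 220336000), (nat_lit 374496000), (nat_lit 462574000)], [], [(nat_lit 1789101560), (nat_lit 1482699890), (nat_lit 1603166964), (nat_lit 1491165866), (nat_lit 2750575412), (nat_lit 1888307802), (nat_lit 3360557968), (nat_lit 2464952352)], (nat_lit 1271251), (nat_lit 1271251), (nat_lit 780000), (nat_lit 1435001), (nat_lit 0), (nat_lit 2825001), [(nat_lit 1100000), (nat_lit 1785001), (nat_lit 1271251)], [(nat_lit 17), (nat_lit 58), (nat_lit 483), (nat_lit 250), (nat_lit 14)]⟩,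
 ⟨⟨[(nat_lit 120), (nat_lit 140), (nat_lit 160)], [(nat_lit 0), (nat_lit 266), (nat_lit 862)], [((nat_lit 0), (nat_lit 0), (nat_lit 0)), ((nat_lit 960), (nat_lit 1000), (nat_lit 200)), ((nat_lit 874), (nat_lit 1000), (nat_lit 406))], ((nat_lit 100), (nat_lit 83), (nat_lit 48))⟩, (nat_lit 59526), (nat_lit 300), (nat_lit 1312), (nat_lit 1925601), (nat_lit 2205169), [(nat_lit 231072000), (nat_lit 285418000), (nat_lit 344288000)], [], [(nat_lit 1504468759), (nat_lit 1475279788), (nat_lit 1475502591), (nat_lit 1445868013), (nat_lit 1881401788), (nat_lit 1625220844), (nat_lit 1623612800), (nat_lit 1370647944)], (nat_lit 1271251), (nat_lit 1271251), (nat_lit 1271251), (nat_lit 1271251), (nat_lit 0), (nat_lit 2825001), [(nat_lit 1695001), (nat_lit 1271251), (nat_lit 1271251)], [(nat_lit 27), (nat_lit 62), (nat_lit 456), (nat_lit 225), (nat_lit 12)]⟩⟩))) (.spl (nat_lit 5) (nat_lit 200) (.spl (nat_lit 5) (nat_lit 120) (.leaf ⟨(nat_lit 180), (nat_lit 645),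 (nat_lit 0), (nat_lit 175), (nat_lit 0), (nat_lit 6053), (nat_lit 7230), (nat_lit 2143), (nat_lit 0), (nat_lit 0), (nat_lit 720000), [((nat_lit 330), [((nat_lit 37), (nat_lit 5), (nat_lit 180))])], ⟨(nat_lit 6), false, false, false, (nat_lit 208), (nat_lit 4183), (nat_lit 4473), [(nat_lit 1407167), (nat_lit 1410812), (nat_lit 1493417), (nat_lit 1497463), (nat_lit 1543125), (nat_lit 1543325), (nat_lit 1629375), (nat_lit 1629976)]⟩, ⟨(nat_lit 3), false, false, true, (nat_lit 174), (nat_lit 4183), (nat_lit 4473), [(nat_lit 1277776), (nat_lit 1280820), (nat_lit 1385603), (nat_lit 1389149), (nat_lit 1481711), (nat_lit 1479587), (nat_lit 1589541), (nat_lit 1587919)]⟩, (nat_lit 4750711), (nat_lit 43728808), (nat_lit 13277017), (nat_lit 9994175), (nat_lit 3), (nat_lit 0), [], [], [⟨(nat_lit 0), (nat_lit 100), (nat_lit 93), (nat_lit 26), (nat_lit 23969671)⟩], [],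
 ⟨⟨[(nat_lit 40), (nat_lit 80), (nat_lit 100)], [(nat_lit 0), (nat_lit 0), (nat_lit 1280)], [((nat_lit 0), (nat_lit 0), (nat_lit 0)), ((nat_lit 0), (nat_lit 0), (nat_lit 0)), ((nat_lit 1000), (nat_lit 800), (nat_lit 600))], ((nat_lit 81), (nat_lit 100), (nat_lit 48))⟩, (nat_lit 429334), (nat_lit 270), (nat_lit 270), (nat_lit 0), (nat_lit 600003), [(nat_lit 2317291962), (nat_lit 3051022686), (nat_lit 2909344000)], [(nat_lit 0), (nat_lit 0), (nat_lit 0)], [(nat_lit 17825182702), (nat_lit 18496565209), (nat_lit 18906594048), (nat_lit 19530272566), (nat_lit 19864323406), (nat_lit 20740852956), (nat_lit 22980565008), (nat_lit 21960831792)], (nat_lit 1271251), (nat_lit 1271251), (nat_lit 780000), (nat_lit 1435001), (nat_lit 780000), (nat_lit 1762501), [(nat_lit 490000), (nat_lit 1100000), (nat_lit 1442501)], [(nat_lit 3), (nat_lit 50), (nat_lit 345), (nat_lit 125), (nat_lit 12)]⟩,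
 ⟨⟨[(nat_lit 80), (nat_lit 120), (nat_lit 140)], [(nat_lit 0), (nat_lit 0), (nat_lit 1164)], [((nat_lit 0), (nat_lit 0), (nat_lit 0)), ((nat_lit 0), (nat_lit 0), (nat_lit 0)), ((nat_lit 941), (nat_lit 1000), (nat_lit 576))], ((nat_lit 100), (nat_lit 98), (nat_lit 48))⟩, (nat_lit 998683), (nat_lit 354), (nat_lit 354), (nat_lit 0), (nat_lit 304101), [(nat_lit 3844160000), (nat_lit 6533760000), (nat_lit 8070440000)], [], [(nat_lit 30207720200), (nat_lit 28784831428), (nat_lit 29473073740), (nat_lit 28844734508), (nat_lit 26636214830), (nat_lit 23967626138), (nat_lit 34186028200), (nat_lit 24011571288)], (nat_lit 1271251), (nat_lit 1271251), (nat_lit 780000), (nat_lit 1435001), (nat_lit 0), (nat_lit 780000), [(nat_lit 1100000), (nat_lit 1785001), (nat_lit 1271251)], [(nat_lit 17), (nat_lit 58), (nat_lit 401), (nat_lit 175), (nat_lit 12)]⟩,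
 ⟨⟨[(nat_lit 140), (nat_lit 160), (nat_lit 180)], [(nat_lit 0), (nat_lit 0), (nat_lit 799)], [((nat_lit 0), (nat_lit 0), (nat_lit 0)), ((nat_lit 0), (nat_lit 0), (nat_lit 0)), ((nat_lit 728), (nat_lit 1000), (nat_lit 454))], ((nat_lit 100), (nat_lit 67), (nat_lit 52))⟩, (nat_lit 153755), (nat_lit 300), (nat_lit 842), (nat_lit 12985000), (nat_lit 880090), [(nat_lit 1722350000), (nat_lit 2077600000), (nat_lit 2460150000)], [], [(nat_lit 10894894780), (nat_lit 10287036748), (nat_lit 10142650080), (nat_lit 11038595593), (nat_lit 9296695306), (nat_lit 9189207130), (nat_lit 9662354958), (nat_lit 12264147322)], (nat_lit 780000), (nat_lit 1598751), (nat_lit 780000), (nat_lit 1762501), (nat_lit 0), (nat_lit 780000), [(nat_lit 1977501), (nat_lit 1271251), (nat_lit 1271251)], [(nat_lit 31), (nat_lit 65), (nat_lit 373), (nat_lit 150), (nat_lit 9)]⟩⟩) (.leaf ⟨(nat_lit 0), (nat_lit 807), (nat_lit 0), (nat_lit 193), (nat_lit 0), (nat_lit 7650), (nat_lit 13189),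 (nat_lit 1774), (nat_lit 0), (nat_lit 0), (nat_lit 0), [], Pd.none, Pd.none, (nat_lit 0), (nat_lit 1), (nat_lit 0), (nat_lit 0), (nat_lit 3), (nat_lit 0), [], [], [], [],
 ⟨⟨[(nat_lit 40), (nat_lit 80), (nat_lit 100)], [(nat_lit 0), (nat_lit 0), (nat_lit 1280)], [((nat_lit 0), (nat_lit 0), (nat_lit 0)), ((nat_lit 0), (nat_lit 0), (nat_lit 0)), ((nat_lit 1000), (nat_lit 800), (nat_lit 600))], ((nat_lit 81), (nat_lit 100), (nat_lit 48))⟩, (nat_lit 2401002), (nat_lit 270), (nat_lit 270), (nat_lit 0), (nat_lit 600003), [(nat_lit 2032000329), (nat_lit 4688000316), (nat_lit 6250000000)], [], [(nat_lit 18275406148), (nat_lit 19168911855), (nat_lit 19460254248), (nat_lit 20241619280), (nat_lit 20566388348), (nat_lit 21438379038), (nat_lit 21763468085), (nat_lit 22453688350)], (nat_lit 1271251), (nat_lit 1271251), (nat_lit 780000), (nat_lit 1435001), (nat_lit 780000), (nat_lit 1762501), [(nat_lit 490000), (nat_lit 1100000), (nat_lit 1442501)], [(nat_lit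 3), (nat_lit 50), (nat_lit 345), (nat_lit 125), (nat_lit 12)]⟩,
 ⟨⟨[(nat_lit 80), (nat_lit 120), (nat_lit 140)], [(nat_lit 0), (nat_lit 0), (nat_lit 1164)], [((nat_lit 0), (nat_lit 0), (nat_lit 0)), ((nat_lit 0), (nat_lit 0), (nat_lit 0)), ((nat_lit 941), (nat_lit 1000), (nat_lit 576))], ((nat_lit 100), (nat_lit 98), (nat_lit 48))⟩, (nat_lit 4254989), (nat_lit 229), (nat_lit 229), (nat_lit 0), (nat_lit 304101), [(nat_lit 4688000000), (nat_lit 7968000000), (nat_lit 9842000000)], [], [(nat_lit 21994301779), (nat_lit 19823419013), (nat_lit 22865171583), (nat_lit 19882439907), (nat_lit 22865171583), (nat_lit 19882439907), (nat_lit 34653508933), (nat_lit 20609952249)], (nat_lit 1271251), (nat_lit 1271251), (nat_lit 780000), (nat_lit 1435001), (nat_lit 780000), (nat_lit 1435001), [(nat_lit 1100000), (nat_lit 1785001), (nat_lit 1271251)], [(nat_lit 17), (nat_lit 58), (nat_lit 428), (nat_lit 200), (nat_lit 12)]⟩,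
 ⟨⟨[(nat_lit 140), (nat_lit 160), (nat_lit 180)], [(nat_lit 0), (nat_lit 0), (nat_lit 799)], [((nat_lit 0), (nat_lit 0), (nat_lit 0)), ((nat_lit 0), (nat_lit 0), (nat_lit 0)), ((nat_lit 728), (nat_lit 1000), (nat_lit 454))], ((nat_lit 100), (nat_lit 67), (nat_lit 52))⟩, (nat_lit 169570), (nat_lit 300), (nat_lit 1925), (nat_lit 14320600), (nat_lit 3359100), [(nat_lit 1899506000), (nat_lit 2291296000), (nat_lit 2713194000)], [], [(nat_lit 16133061420), (nat_lit 15594348987), (nat_lit 15480874892), (nat_lit 14944748621), (nat_lit 15684116478), (nat_lit 15147587295), (nat_lit 15034691917), (nat_lit 14505522701)], (nat_lit 780000), (nat_lit 1598751), (nat_lit 780000), (nat_lit 1762501), (nat_lit 780000), (nat_lit 1435001), [(nat_lit 1977501), (nat_lit 1271251), (nat_lit 1271251)], [(nat_lit 31), (nat_lit 65), (nat_lit 564), (nat_lit 175), (nat_lit 13)]⟩⟩)) (.spl (nat_lit 1) (nat_lit 280) (.leaf ⟨(nat_lit 705), (nat_lit 196), (nat_lit 0), (nat_lit 99),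 (nat_lit 0), (nat_lit 4256), (nat_lit 2605), (nat_lit 1063), (nat_lit 0), (nat_lit 0), (nat_lit 1377000), [((nat_lit 330), [((nat_lit 18), (nat_lit 2), (nat_lit 481)), ((nat_lit 37), (nat_lit 5), (nat_lit 224))])], ⟨(nat_lit 6), false, false, false, (nat_lit 199), (nat_lit 4183), (nat_lit 4473), [(nat_lit 1407167), (nat_lit 1410812), (nat_lit 1450291), (nat_lit 1454137), (nat_lit 1543125), (nat_lit 1543325), (nat_lit 1586250), (nat_lit 1586650)]⟩, ⟨(nat_lit 3), false, false, true, (nat_lit 174), (nat_lit 4183), (nat_lit 4473), [(nat_lit 1277776), (nat_lit 1280820), (nat_lit 1385603), (nat_lit 1389149), (nat_lit 1481711), (nat_lit 1479587), (nat_lit 1589541), (nat_lit 1587919)]⟩, (nat_lit 4684065), (nat_lit 44408779), (nat_lit 12512885), (nat_lit 10078336), (nat_lit 5), (nat_lit 0), [], [], [⟨(nat_lit 1), (nat_lit 44), (nat_lit 96), (nat_lit 100), (nat_lit 79924687)⟩], [],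
 ⟨⟨[(nat_lit 40), (nat_lit 80), (nat_lit 100)], [(nat_lit 0), (nat_lit 0), (nat_lit 1280)], [((nat_lit 0), (nat_lit 0), (nat_lit 0)), ((nat_lit 0), (nat_lit 0), (nat_lit 0)), ((nat_lit 1000), (nat_lit 800), (nat_lit 600))], ((nat_lit 81), (nat_lit 100), (nat_lit 48))⟩, (nat_lit 0), (nat_lit 173), (nat_lit 173), (nat_lit 0), (nat_lit 384151), [(nat_lit 1952677663), (nat_lit 1248836755), (nat_lit 0)], [(nat_lit 0), (nat_lit 0), (nat_lit 1126690000)], [(nat_lit 16496905957), (nat_lit 17202082006), (nat_lit 18149015605), (nat_lit 18774240202), (nat_lit 19310132689), (nat_lit 19955972324), (nat_lit 21136990178), (nat_lit 21418204933)], (nat_lit 1271251), (nat_lit 1271251), (nat_lit 780000), (nat_lit 1435001), (nat_lit 780000), (nat_lit 1762501), [(nat_lit 490000), (nat_lit 1100000), (nat_lit 1442501)], [(nat_lit 3), (nat_lit 50), (nat_lit 345), (nat_lit 125), (nat_lit 12)]⟩,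
 ⟨⟨[(nat_lit 80), (nat_lit 120), (nat_lit 140)], [(nat_lit 0), (nat_lit 0), (nat_lit 1164)], [((nat_lit 0), (nat_lit 0), (nat_lit 0)), ((nat_lit 0), (nat_lit 0), (nat_lit 0)), ((nat_lit 941), (nat_lit 1000), (nat_lit 576))], ((nat_lit 100), (nat_lit 98), (nat_lit 48))⟩, (nat_lit 787971), (nat_lit 223), (nat_lit 223), (nat_lit 0), (nat_lit 235342), [(nat_lit 1382960000), (nat_lit 2350560000), (nat_lit 2903390000)], [], [(nat_lit 6792581955), (nat_lit 6280288666), (nat_lit 8731516205), (nat_lit 6502687441), (nat_lit 9590281326), (nat_lit 10019040955), (nat_lit 9352998620), (nat_lit 9803012485)], (nat_lit 1271251), (nat_lit 1271251), (nat_lit 780000), (nat_lit 1435001), (nat_lit 1271251), (nat_lit 1271251), [(nat_lit 1100000), (nat_lit 1785001), (nat_lit 1271251)], [(nat_lit 17), (nat_lit 58), (nat_lit 456), (nat_lit 225), (nat_lit 13)]⟩,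
 ⟨⟨[(nat_lit 140), (nat_lit 160), (nat_lit 180)], [(nat_lit 0), (nat_lit 0), (nat_lit 799)], [((nat_lit 0), (nat_lit 0), (nat_lit 0)), ((nat_lit 0), (nat_lit 0), (nat_lit 0)), ((nat_lit 728), (nat_lit 1000), (nat_lit 454))], ((nat_lit 100), (nat_lit 67), (nat_lit 52))⟩, (nat_lit 86981), (nat_lit 300), (nat_lit 1278), (nat_lit 7345802), (nat_lit 2095502), [(nat_lit 974358000), (nat_lit 1175328000), (nat_lit 1391742000)], [], [(nat_lit 5805028444), (nat_lit 5461274234), (nat_lit 5386970130), (nat_lit 5042084902), (nat_lit 5408413116), (nat_lit 5057023376), (nat_lit 4979456412), (nat_lit 4636550787)], (nat_lit 780000), (nat_lit 1598751), (nat_lit 780000), (nat_lit 1762501), (nat_lit 1271251), (nat_lit 1271251), [(nat_lit 1977501), (nat_lit 1271251), (nat_lit 1271251)], [(nat_lit 31), (nat_lit 65), (nat_lit 456), (nat_lit 225), (nat_lit 10)]⟩⟩) (.leaf ⟨(nat_lit 206), (nat_lit 668), (nat_lit 0), (nat_lit 126), (nat_lit 0), (nat_lit 5819), (nat_lit 5901),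 (nat_lit 1378), (nat_lit 0), (nat_lit 0), (nat_lit 824000), [((nat_lit 330), [((nat_lit 37), (nat_lit 5), (nat_lit 206))])], ⟨(nat_lit 7), false, false, false, (nat_lit 216), (nat_lit 4183), (nat_lit 4473), [(nat_lit 1450291), (nat_lit 1454137), (nat_lit 1493417), (nat_lit 1497463), (nat_lit 1586250), (nat_lit 1586650), (nat_lit 1629375), (nat_lit 1629976)]⟩, ⟨(nat_lit 3), false, false, true, (nat_lit 174), (nat_lit 4183), (nat_lit 4473), [(nat_lit 1277776), (nat_lit 1280820), (nat_lit 1385603), (nat_lit 1389149), (nat_lit 1481711), (nat_lit 1479587), (nat_lit 1589541), (nat_lit 1587919)]⟩, (nat_lit 4812540), (nat_lit 43048301), (nat_lit 14045732), (nat_lit 9905967), (nat_lit 5), (nat_lit 0), [⟨(nat_lit 0), (nat_lit 93), (nat_lit 84), (nat_lit 100), (nat_lit 378160612)⟩], [], [⟨(nat_lit 1), (nat_lit 63), (nat_lit 88), (nat_lit 100), (nat_lit 336962988)⟩], [],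
 ⟨⟨[(nat_lit 40), (nat_lit 80), (nat_lit 100)], [(nat_lit 0), (nat_lit 0), (nat_lit 1280)], [((nat_lit 0), (nat_lit 0), (nat_lit 0)), ((nat_lit 0), (nat_lit 0), (nat_lit 0)), ((nat_lit 1000), (nat_lit 800), (nat_lit 600))], ((nat_lit 81), (nat_lit 100), (nat_lit 48))⟩, (nat_lit 1144990), (nat_lit 270), (nat_lit 270), (nat_lit 0), (nat_lit 599867), [(nat_lit 2322097207), (nat_lit 2837971608), (nat_lit 2426804800)], [(nat_lit 0), (nat_lit 0), (nat_lit 0)], [(nat_lit 17702361245), (nat_lit 18404792060), (nat_lit 18971401681), (nat_lit 19591187970), (nat_lit 19975108947), (nat_lit 20638648133), (nat_lit 21869829655), (nat_lit 21888616116)], (nat_lit 1271251), (nat_lit 1271251), (nat_lit 780000), (nat_lit 1435001), (nat_lit 780000), (nat_lit 1762501), [(nat_lit 490000), (nat_lit 1100000), (nat_lit 1442501)], [(nat_lit 3), (nat_lit 50), (nat_lit 345), (nat_lit 125), (nat_lit 12)]⟩,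
 ⟨⟨[(nat_lit 60), (nat_lit 100), (nat_lit 120)], [(nat_lit 0), (nat_lit 0), (nat_lit 1164)], [((nat_lit 0), (nat_lit 0), (nat_lit 0)), ((nat_lit 0), (nat_lit 0), (nat_lit 0)), ((nat_lit 1000), (nat_lit 933), (nat_lit 572))], ((nat_lit 92), (nat_lit 100), (nat_lit 48))⟩, (nat_lit 2060861), (nat_lit 212), (nat_lit 212), (nat_lit 0), (nat_lit 287390), [(nat_lit 2605908000), (nat_lit 4962500000), (nat_lit 6326592000)], [], [(nat_lit 16958561589), (nat_lit 18841332616), (nat_lit 17639153438), (nat_lit 19421840720), (nat_lit 25452528421), (nat_lit 27175335452), (nat_lit 25184021917), (nat_lit 26679665232)], (nat_lit 1271251), (nat_lit 1271251), (nat_lit 780000), (nat_lit 1435001), (nat_lit 1271251), (nat_lit 1271251), [(nat_lit 780000), (nat_lit 1435001), (nat_lit 1271251)], [(nat_lit 10), (nat_lit 54), (nat_lit 373), (nat_lit 150), (nat_lit 11)]⟩,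
 ⟨⟨[(nat_lit 140), (nat_lit 160), (nat_lit 180)], [(nat_lit 0), (nat_lit 0), (nat_lit 799)], [((nat_lit 0), (nat_lit 0), (nat_lit 0)), ((nat_lit 0), (nat_lit 0), (nat_lit 0)), ((nat_lit 728), (nat_lit 1000), (nat_lit 454))], ((nat_lit 100), (nat_lit 67), (nat_lit 52))⟩, (nat_lit 110703), (nat_lit 300), (nat_lit 1886), (nat_lit 9349202), (nat_lit 3359100), [(nat_lit 1240092000), (nat_lit 1495872000), (nat_lit 1771308000)], [], [(nat_lit 7221139520), (nat_lit 6779624667), (nat_lit 6687341910), (nat_lit 6252927397), (nat_lit 6761611648), (nat_lit 6322927695), (nat_lit 6223672416), (nat_lit 5777075310)], (nat_lit 780000), (nat_lit 1598751), (nat_lit 780000), (nat_lit 1762501), (nat_lit 1271251), (nat_lit 1271251), [(nat_lit 1977501), (nat_lit 1271251), (nat_lit 1271251)], [(nat_lit 31), (nat_lit 65), (nat_lit 579), (nat_lit 225), (nat_lit 13)]⟩⟩))))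
noncomputable def c11_50 : Tr Lf :=
 (.stt (nat_lit 1) (.spl (nat_lit 2) (nat_lit 180) (.spl (nat_lit 1) (nat_lit 280) (.leaf ⟨(nat_lit 913), (nat_lit 87), (nat_lit 0), (nat_lit 0), (nat_lit 0), (nat_lit 3238), (nat_lit 749), (nat_lit 0), (nat_lit 0), (nat_lit 0), (nat_lit 228250), [((nat_lit 330), [((nat_lit 18), (nat_lit 0), (nat_lit 913))])], ⟨(nat_lit 6), false, true, false, (nat_lit 253), (nat_lit 4183), (nat_lit 4473), [(nat_lit 1543125), (nat_lit 1543325), (nat_lit 1586250), (nat_lit 1586650), (nat_lit 1679082), (nat_lit 1675838), (nat_lit 1722208), (nat_lit 1719164)]⟩, ⟨(nat_lit 3), false, false, true, (nat_lit 165), (nat_lit 4183), (nat_lit 4473), [(nat_lit 1277776), (nat_lit 1280820), (nat_lit 1342476), (nat_lit 1345821), (nat_lit 1481711), (nat_lit 1479587), (nat_lit 1546410), (nat_lit 1544587)]⟩, (nat_lit 4947533), (nat_lit 40705997), (nat_lit 17454218), (nat_lit 8839785), (nat_lit 3), (nat_lit 0), [], [], [⟨(nat_lit 1), (nat_lit 55),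 (nat_lit 99), (nat_lit 100), (nat_lit 15441831)⟩], [],
 ⟨⟨[(nat_lit 40), (nat_lit 80), (nat_lit 100)], [(nat_lit 0), (nat_lit 0), (nat_lit 1280)], [((nat_lit 0), (nat_lit 0), (nat_lit 0)), ((nat_lit 0), (nat_lit 0), (nat_lit 0)), ((nat_lit 1000), (nat_lit 800), (nat_lit 600))], ((nat_lit 81), (nat_lit 100), (nat_lit 48))⟩, (nat_lit 0), (nat_lit 46), (nat_lit 46), (nat_lit 0), (nat_lit 0), [(nat_lit 1555872420), (nat_lit 100529814158), (nat_lit 2882856000)], [(nat_lit 0), (nat_lit 0), (nat_lit 0)], [(nat_lit 17395160784), (nat_lit 18154475757), (nat_lit 20871710278), (nat_lit 21551769545), (nat_lit 20554251412), (nat_lit 21182502637), (nat_lit 23416804592), (nat_lit 23960150499)], (nat_lit 0), (nat_lit 0), (nat_lit 0), (nat_lit 0), (nat_lit 0), (nat_lit 0), [], [(nat_lit 3), (nat_lit 50), (nat_lit 272), (nat_lit 60), (nat_lit 9)]⟩,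
 ⟨⟨[(nat_lit 80), (nat_lit 120), (nat_lit 140)], [(nat_lit 0), (nat_lit 0), (nat_lit 1164)], [((nat_lit 0), (nat_lit 0), (nat_lit 0)), ((nat_lit 0), (nat_lit 0), (nat_lit 0)), ((nat_lit 941), (nat_lit 1000), (nat_lit 576))], ((nat_lit 100), (nat_lit 98), (nat_lit 48))⟩, (nat_lit 153546), (nat_lit 455), (nat_lit 455), (nat_lit 0), (nat_lit 568043), [(nat_lit 407856000), (nat_lit 693216000), (nat_lit 856254000)], [], [(nat_lit 2963664408), (nat_lit 3101029498), (nat_lit 3143654052), (nat_lit 3251722488), (nat_lit 3799020566), (nat_lit 3141898898), (nat_lit 3021115724), (nat_lit 3047947208)], (nat_lit 1271251), (nat_lit 1271251), (nat_lit 1271251), (nat_lit 1271251), (nat_lit 0), (nat_lit 2825001), [(nat_lit 1100000), (nat_lit 1785001), (nat_lit 1271251)], [(nat_lit 17), (nat_lit 58), (nat_lit 483), (nat_lit 250), (nat_lit 14)]⟩,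
 Rw.none⟩) (.trX (nat_lit 5) (nat_lit 1) (nat_lit 2) (nat_lit 92) (nat_lit 49) (nat_lit 100) (nat_lit 380) (.leaf ⟨(nat_lit 784), (nat_lit 216), (nat_lit 0), (nat_lit 0), (nat_lit 0), (nat_lit 3134), (nat_lit 1574), (nat_lit 0), (nat_lit 0), (nat_lit 0), (nat_lit 378350), [((nat_lit 330), [((nat_lit 18), (nat_lit 0), (nat_lit 263)), ((nat_lit 37), (nat_lit 2), (nat_lit 521))])], ⟨(nat_lit 7), false, true, false, (nat_lit 270), (nat_lit 4183), (nat_lit 4473), [(nat_lit 1586250), (nat_lit 1586650), (nat_lit 1629375), (nat_lit 1629976), (nat_lit 1722208), (nat_lit 1719164), (nat_lit 1765332), (nat_lit 1762489)]⟩, ⟨(nat_lit 3), false, false, true, (nat_lit 165), (nat_lit 4183), (nat_lit 4473), [(nat_lit 1277776), (nat_lit 1280820), (nat_lit 1342476), (nat_lit 1345821), (nat_lit 1481711), (nat_lit 1479587), (nat_lit 1546410), (nat_lit 1544587)]⟩, (nat_lit 5020979), (nat_lit 39338384), (nat_lit 19017091), (nat_lit 8644525), (nat_lit 3), (nat_lit 0),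 [], [], [⟨(nat_lit 1), (nat_lit 72), (nat_lit 89), (nat_lit 100), (nat_lit 49829346)⟩], [],
 ⟨⟨[(nat_lit 40), (nat_lit 80), (nat_lit 100)], [(nat_lit 0), (nat_lit 0), (nat_lit 1280)], [((nat_lit 0), (nat_lit 0), (nat_lit 0)), ((nat_lit 0), (nat_lit 0), (nat_lit 0)), ((nat_lit 1000), (nat_lit 800), (nat_lit 600))], ((nat_lit 81), (nat_lit 100), (nat_lit 48))⟩, (nat_lit 0), (nat_lit 46), (nat_lit 46), (nat_lit 0), (nat_lit 0), [(nat_lit 1470134405), (nat_lit 101240618907), (nat_lit 2622330800)], [(nat_lit 0), (nat_lit 0), (nat_lit 0)], [(nat_lit 17373728257), (nat_lit 18120851427), (nat_lit 20816497199), (nat_lit 21482333139), (nat_lit 20532204661), (nat_lit 21151198586), (nat_lit 23373790401), (nat_lit 23908240407)], (nat_lit 0), (nat_lit 0), (nat_lit 0), (nat_lit 0), (nat_lit 0), (nat_lit 0), [], [(nat_lit 3), (nat_lit 50), (nat_lit 272), (nat_lit 60), (nat_lit 9)]⟩,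
 ⟨⟨[(nat_lit 60), (nat_lit 100), (nat_lit 120)], [(nat_lit 0), (nat_lit 0), (nat_lit 1164)], [((nat_lit 0), (nat_lit 0), (nat_lit 0)), ((nat_lit 0), (nat_lit 0), (nat_lit 0)), ((nat_lit 1000), (nat_lit 933), (nat_lit 572))], ((nat_lit 92), (nat_lit 100), (nat_lit 48))⟩, (nat_lit 465193), (nat_lit 425), (nat_lit 425), (nat_lit 0), (nat_lit 656019), [(nat_lit 708912000), (nat_lit 1350000000), (nat_lit 1721088000)], [], [(nat_lit 6276197238), (nat_lit 6713404052), (nat_lit 6833038500), (nat_lit 7187753648), (nat_lit 7600682915), (nat_lit 7120131861), (nat_lit 7115235313), (nat_lit 7273150004)], (nat_lit 1271251), (nat_lit 1271251), (nat_lit 1271251), (nat_lit 1271251), (nat_lit 0), (nat_lit 2683751), [(nat_lit 780000), (nat_lit 1435001), (nat_lit 1271251)], [(nat_lit 10), (nat_lit 54), (nat_lit 401), (nat_lit 175), (nat_lit 13)]⟩,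
 Rw.none⟩))) (.leaf ⟨(nat_lit 704), (nat_lit 217), (nat_lit 0), (nat_lit 79), (nat_lit 0), (nat_lit 3193), (nat_lit 2514), (nat_lit 623), (nat_lit 0), (nat_lit 0), (nat_lit 341800), [((nat_lit 330), [((nat_lit 18), (nat_lit 1), (nat_lit 403)), ((nat_lit 37), (nat_lit 2), (nat_lit 301))])], ⟨(nat_lit 6), false, true, false, (nat_lit 261), (nat_lit 4183), (nat_lit 4473), [(nat_lit 1543125), (nat_lit 1543325), (nat_lit 1629375), (nat_lit 1629976), (nat_lit 1679082), (nat_lit 1675838), (nat_lit 1765332), (nat_lit 1762489)]⟩, ⟨(nat_lit 4), false, false, false, (nat_lit 187), (nat_lit 4183), (nat_lit 4473), [(nat_lit 1342476), (nat_lit 1345821), (nat_lit 1385603), (nat_lit 1389149), (nat_lit 1546410), (nat_lit 1544587), (nat_lit 1589541), (nat_lit 1587919)]⟩, (nat_lit 5161990), (nat_lit 38783447), (nat_lit 17835957), (nat_lit 10380596), (nat_lit 4), (nat_lit 0), [], [], [], [],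
 ⟨⟨[(nat_lit 40), (nat_lit 80), (nat_lit 100)], [(nat_lit 0), (nat_lit 0), (nat_lit 1280)], [((nat_lit 0), (nat_lit 0), (nat_lit 0)), ((nat_lit 0), (nat_lit 0), (nat_lit 0)), ((nat_lit 1000), (nat_lit 800), (nat_lit 600))], ((nat_lit 81), (nat_lit 100), (nat_lit 48))⟩, (nat_lit 61165), (nat_lit 46), (nat_lit 46), (nat_lit 0), (nat_lit 0), [(nat_lit 1519443312), (nat_lit 100329865311), (nat_lit 2985991200)], [(nat_lit 0), (nat_lit 0), (nat_lit 0)], [(nat_lit 17386556166), (nat_lit 18140595839), (nat_lit 20848489075), (nat_lit 21521724946), (nat_lit 20545381024), (nat_lit 21169626687), (nat_lit 23398861754), (nat_lit 23937689402)], (nat_lit 0), (nat_lit 0), (nat_lit 0), (nat_lit 0), (nat_lit 0), (nat_lit 0), [], [(nat_lit 3), (nat_lit 50), (nat_lit 272), (nat_lit 60), (nat_lit 9)]⟩,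
 ⟨⟨[(nat_lit 80), (nat_lit 120), (nat_lit 140)], [(nat_lit 0), (nat_lit 0), (nat_lit 1164)], [((nat_lit 0), (nat_lit 0), (nat_lit 0)), ((nat_lit 0), (nat_lit 0), (nat_lit 0)), ((nat_lit 941), (nat_lit 1000), (nat_lit 576))], ((nat_lit 100), (nat_lit 98), (nat_lit 48))⟩, (nat_lit 1014734), (nat_lit 453), (nat_lit 453), (nat_lit 0), (nat_lit 558181), [(nat_lit 1387648000), (nat_lit 2358528000), (nat_lit 2913232000)], [], [(nat_lit 9887899160), (nat_lit 10784236700), (nat_lit 10449846700), (nat_lit 11284773384), (nat_lit 12925718860), (nat_lit 10584491652), (nat_lit 10361686752), (nat_lit 10796746912)], (nat_lit 1271251), (nat_lit 1271251), (nat_lit 1271251), (nat_lit 1271251), (nat_lit 0), (nat_lit 2825001), [(nat_lit 1100000), (nat_lit 1785001), (nat_lit 1271251)], [(nat_lit 17), (nat_lit 58), (nat_lit 483), (nat_lit 250), (nat_lit 14)]⟩,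
 ⟨⟨[(nat_lit 120), (nat_lit 140), (nat_lit 160)], [(nat_lit 0), (nat_lit 266), (nat_lit 862)], [((nat_lit 0), (nat_lit 0), (nat_lit 0)), ((nat_lit 960), (nat_lit 1000), (nat_lit 200)), ((nat_lit 874), (nat_lit 1000), (nat_lit 406))], ((nat_lit 100), (nat_lit 83), (nat_lit 48))⟩, (nat_lit 310899), (nat_lit 300), (nat_lit 1349), (nat_lit 5245600), (nat_lit 2205169), [(nat_lit 629472000), (nat_lit 777518000), (nat_lit 937888000)], [], [(nat_lit 5791429935), (nat_lit 5732709148), (nat_lit 5589499724), (nat_lit 5529286811), (nat_lit 5136004167), (nat_lit 5072340958), (nat_lit 5683505755), (nat_lit 5143789641)], (nat_lit 1271251), (nat_lit 1271251), (nat_lit 780000), (nat_lit 1762501), (nat_lit 0), (nat_lit 2825001), [(nat_lit 1695001), (nat_lit 1271251), (nat_lit 1271251)], [(nat_lit 27), (nat_lit 62), (nat_lit 456), (nat_lit 225), (nat_lit 12)]⟩⟩)) (.spl (nat_lit 5) (nat_lit 200) (.leaf ⟨(nat_lit 0), (nat_lit 883), (nat_lit 0), (nat_lit 117), (nat_lit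 0), (nat_lit 7439), (nat_lit 9824), (nat_lit 1324), (nat_lit 0), (nat_lit 0), (nat_lit 0), [], Pd.none, Pd.none, (nat_lit 0), (nat_lit 1), (nat_lit 0), (nat_lit 0), (nat_lit 3), (nat_lit 0), [], [], [⟨(nat_lit 0), (nat_lit 100), (nat_lit 93), (nat_lit 26), (nat_lit 22063367)⟩], [],
 ⟨⟨[(nat_lit 40), (nat_lit 80), (nat_lit 100)], [(nat_lit 0), (nat_lit 0), (nat_lit 1280)], [((nat_lit 0), (nat_lit 0), (nat_lit 0)), ((nat_lit 0), (nat_lit 0), (nat_lit 0)), ((nat_lit 1000), (nat_lit 800), (nat_lit 600))], ((nat_lit 81), (nat_lit 100), (nat_lit 48))⟩, (nat_lit 1598342), (nat_lit 265), (nat_lit 265), (nat_lit 0), (nat_lit 600003), [(nat_lit 2501576915), (nat_lit 4688000004), (nat_lit 6250000000)], [], [(nat_lit 20307886613), (nat_lit 21022913310), (nat_lit 23255308457), (nat_lit 24356599753), (nat_lit 21765464270), (nat_lit 22388570796), (nat_lit 25171444538), (nat_lit 26057018735)], (nat_lit 1271251), (nat_lit 1271251), (nat_lit 1271251), (nat_lit 1271251),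 (nat_lit 780000), (nat_lit 1762501), [(nat_lit 490000), (nat_lit 1100000), (nat_lit 1442501)], [(nat_lit 3), (nat_lit 50), (nat_lit 272), (nat_lit 60), (nat_lit 9)]⟩,
 ⟨⟨[(nat_lit 80), (nat_lit 120), (nat_lit 140)], [(nat_lit 0), (nat_lit 0), (nat_lit 1164)], [((nat_lit 0), (nat_lit 0), (nat_lit 0)), ((nat_lit 0), (nat_lit 0), (nat_lit 0)), ((nat_lit 941), (nat_lit 1000), (nat_lit 576))], ((nat_lit 100), (nat_lit 98), (nat_lit 48))⟩, (nat_lit 3271204), (nat_lit 331), (nat_lit 331), (nat_lit 0), (nat_lit 304101), [(nat_lit 4688000000), (nat_lit 7968000000), (nat_lit 9842000000)], [], [(nat_lit 34036349120), (nat_lit 31994149648), (nat_lit 30403718512), (nat_lit 34821847120), (nat_lit 28634247328), (nat_lit 25316372928), (nat_lit 23963156448), (nat_lit 27287017040)], (nat_lit 1271251), (nat_lit 1271251), (nat_lit 1271251), (nat_lit 1271251), (nat_lit 0), (nat_lit 1412501), [(nat_lit 1100000), (nat_lit 1785001), (nat_lit 1271251)], [(nat_lit 17),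 (nat_lit 58), (nat_lit 428), (nat_lit 200), (nat_lit 12)]⟩,
 ⟨⟨[(nat_lit 140), (nat_lit 160), (nat_lit 180)], [(nat_lit 0), (nat_lit 0), (nat_lit 799)], [((nat_lit 0), (nat_lit 0), (nat_lit 0)), ((nat_lit 0), (nat_lit 0), (nat_lit 0)), ((nat_lit 728), (nat_lit 1000), (nat_lit 454))], ((nat_lit 100), (nat_lit 67), (nat_lit 52))⟩, (nat_lit 102796), (nat_lit 300), (nat_lit 2001), (nat_lit 8681400), (nat_lit 3359100), [(nat_lit 1151514000), (nat_lit 1389024000), (nat_lit 1644786000)], [], [(nat_lit 7629332688), (nat_lit 7219315522), (nat_lit 7126048276), (nat_lit 7237569076), (nat_lit 6357779583), (nat_lit 7236575027), (nat_lit 7552371760), (nat_lit 9269277966)], (nat_lit 780000), (nat_lit 1598751), (nat_lit 780000), (nat_lit 1762501), (nat_lit 0), (nat_lit 1412501), [(nat_lit 1977501), (nat_lit 1271251), (nat_lit 1271251)], [(nat_lit 31), (nat_lit 65), (nat_lit 583), (nat_lit 175), (nat_lit 14)]⟩⟩) (.leaf ⟨(nat_lit 0), (nat_lit 854), (nat_lit 0),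 (nat_lit 146), (nat_lit 0), (nat_lit 7439), (nat_lit 8326), (nat_lit 1596), (nat_lit 0), (nat_lit 0), (nat_lit 0), [], Pd.none, Pd.none, (nat_lit 0), (nat_lit 1), (nat_lit 0), (nat_lit 0), (nat_lit 5), (nat_lit 0), [], [], [⟨(nat_lit 1), (nat_lit 54), (nat_lit 93), (nat_lit 100), (nat_lit 408074336)⟩], [],
 ⟨⟨[(nat_lit 40), (nat_lit 80), (nat_lit 100)], [(nat_lit 0), (nat_lit 0), (nat_lit 1280)], [((nat_lit 0), (nat_lit 0), (nat_lit 0)), ((nat_lit 0), (nat_lit 0), (nat_lit 0)), ((nat_lit 1000), (nat_lit 800), (nat_lit 600))], ((nat_lit 81), (nat_lit 100), (nat_lit 48))⟩, (nat_lit 1598342), (nat_lit 265), (nat_lit 265), (nat_lit 0), (nat_lit 600003), [(nat_lit 2415086665), (nat_lit 4688000001), (nat_lit 6250000000)], [], [(nat_lit 20307886607), (nat_lit 21022913304), (nat_lit 23255308457), (nat_lit 24356599753), (nat_lit 21765464261), (nat_lit 22388570796), (nat_lit 25171444538), (nat_lit 26057018735)], (nat_lit 1271251), (nat_lit 1271251), (nat_lit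 1271251), (nat_lit 1271251), (nat_lit 780000), (nat_lit 1762501), [(nat_lit 490000), (nat_lit 1100000), (nat_lit 1442501)], [(nat_lit 3), (nat_lit 50), (nat_lit 272), (nat_lit 60), (nat_lit 9)]⟩,
 ⟨⟨[(nat_lit 80), (nat_lit 120), (nat_lit 140)], [(nat_lit 0), (nat_lit 0), (nat_lit 1164)], [((nat_lit 0), (nat_lit 0), (nat_lit 0)), ((nat_lit 0), (nat_lit 0), (nat_lit 0)), ((nat_lit 941), (nat_lit 1000), (nat_lit 576))], ((nat_lit 100), (nat_lit 98), (nat_lit 48))⟩, (nat_lit 3058334), (nat_lit 221), (nat_lit 221), (nat_lit 0), (nat_lit 304101), [(nat_lit 4688000000), (nat_lit 7968000000), (nat_lit 9842000000)], [], [(nat_lit 23980466022), (nat_lit 24603934786), (nat_lit 23154972818), (nat_lit 27336318216), (nat_lit 31895713640), (nat_lit 34661817920), (nat_lit 33511072328), (nat_lit 36283082304)], (nat_lit 1271251), (nat_lit 1271251), (nat_lit 1271251), (nat_lit 1271251), (nat_lit 1271251), (nat_lit 1271251), [(nat_lit 1100000), (nat_lit 1785001),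 (nat_lit 1271251)], [(nat_lit 17), (nat_lit 58), (nat_lit 483), (nat_lit 250), (nat_lit 13)]⟩,
 ⟨⟨[(nat_lit 140), (nat_lit 160), (nat_lit 180)], [(nat_lit 0), (nat_lit 0), (nat_lit 799)], [((nat_lit 0), (nat_lit 0), (nat_lit 0)), ((nat_lit 0), (nat_lit 0), (nat_lit 0)), ((nat_lit 728), (nat_lit 1000), (nat_lit 454))], ((nat_lit 100), (nat_lit 67), (nat_lit 52))⟩, (nat_lit 128275), (nat_lit 300), (nat_lit 1886), (nat_lit 10833202), (nat_lit 3359100), [(nat_lit 1436932000), (nat_lit 1733312000), (nat_lit 2052468000)], [], [(nat_lit 8376652156), (nat_lit 7865342161), (nat_lit 7758980904), (nat_lit 7255891655), (nat_lit 7837783008), (nat_lit 7329785655), (nat_lit 7214845032), (nat_lit 6697679306)], (nat_lit 780000), (nat_lit 1598751), (nat_lit 780000), (nat_lit 1762501), (nat_lit 1271251), (nat_lit 1271251), [(nat_lit 1977501), (nat_lit 1271251), (nat_lit 1271251)], [(nat_lit 31), (nat_lit 65), (nat_lit 579), (nat_lit 225), (nat_lit 13)]⟩⟩)))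
noncomputable def c11_51 : Tr Lf :=
 (.spl (nat_lit 3) (nat_lit 200) (.spl (nat_lit 1) (nat_lit 280) (.leaf ⟨(nat_lit 987), (nat_lit 0), (nat_lit 0), (nat_lit 13), (nat_lit 0), (nat_lit 3219), (nat_lit 196), (nat_lit 152), (nat_lit 0), (nat_lit 0), (nat_lit 246750), [((nat_lit 330), [((nat_lit 18), (nat_lit 0), (nat_lit 987))])], ⟨(nat_lit 6), false, false, false, (nat_lit 199), (nat_lit 4183), (nat_lit 4473), [(nat_lit 1407167), (nat_lit 1410812), (nat_lit 1450291), (nat_lit 1454137), (nat_lit 1543125), (nat_lit 1543325), (nat_lit 1586250), (nat_lit 1586650)]⟩, ⟨(nat_lit 6), false, false, true, (nat_lit 219), (nat_lit 4183), (nat_lit 4473), [(nat_lit 1481711), (nat_lit 1479587), (nat_lit 1546410), (nat_lit 1544587), (nat_lit 1549689), (nat_lit 1545843), (nat_lit 1614388), (nat_lit 1610843)]⟩, (nat_lit 5032938), (nat_lit 41147957), (nat_lit 11961408), (nat_lit 13890635), (nat_lit 0), (nat_lit 0), [], [], [⟨(nat_lit 0), (nat_lit 100), (nat_lit 92),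 (nat_lit 31), (nat_lit 804349)⟩], [],
 ⟨⟨[(nat_lit 40), (nat_lit 80), (nat_lit 100)], [(nat_lit 0), (nat_lit 0), (nat_lit 1280)], [((nat_lit 0), (nat_lit 0), (nat_lit 0)), ((nat_lit 0), (nat_lit 0), (nat_lit 0)), ((nat_lit 1000), (nat_lit 800), (nat_lit 600))], ((nat_lit 81), (nat_lit 100), (nat_lit 48))⟩, (nat_lit 0), (nat_lit 46), (nat_lit 46), (nat_lit 0), (nat_lit 0), [(nat_lit 1536247660), (nat_lit 100197397177), (nat_lit 2609944000)], [(nat_lit 0), (nat_lit 0), (nat_lit 0)], [(nat_lit 18850113786), (nat_lit 19553698620), (nat_lit 20546262556), (nat_lit 21172822544), (nat_lit 20857662189), (nat_lit 21539084048), (nat_lit 22334365421), (nat_lit 22912150127)], (nat_lit 0), (nat_lit 0), (nat_lit 0), (nat_lit 0), (nat_lit 0), (nat_lit 0), [], [(nat_lit 3), (nat_lit 50), (nat_lit 260), (nat_lit 50), (nat_lit 8)]⟩,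
 ⟨⟨[(nat_lit 80), (nat_lit 120), (nat_lit 140)], [(nat_lit 0), (nat_lit 0), (nat_lit 1164)], [((nat_lit 0), (nat_lit 0), (nat_lit 0)), ((nat_lit 0), (nat_lit 0), (nat_lit 0)), ((nat_lit 941), (nat_lit 1000), (nat_lit 576))], ((nat_lit 100), (nat_lit 98), (nat_lit 48))⟩, (nat_lit 76422), (nat_lit 481), (nat_lit 481), (nat_lit 0), (nat_lit 568043), [(nat_lit 60944000), (nat_lit 103584000), (nat_lit 127946000)], [], [(nat_lit 517507000), (nat_lit 314829476), (nat_lit 409605396), (nat_lit 346394337), (nat_lit 792840724), (nat_lit 625092556), (nat_lit 1004925224), (nat_lit 841176436)], (nat_lit 1271251), (nat_lit 1271251), (nat_lit 780000), (nat_lit 1435001), (nat_lit 0), (nat_lit 2825001), [(nat_lit 1100000), (nat_lit 1785001), (nat_lit 1271251)], [(nat_lit 17), (nat_lit 58), (nat_lit 456), (nat_lit 225), (nat_lit 13)]⟩,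
 ⟨⟨[(nat_lit 140), (nat_lit 160), (nat_lit 180)], [(nat_lit 0), (nat_lit 0), (nat_lit 799)], [((nat_lit 0), (nat_lit 0), (nat_lit 0)), ((nat_lit 0), (nat_lit 0), (nat_lit 0)), ((nat_lit 728), (nat_lit 1000), (nat_lit 454))], ((nat_lit 100), (nat_lit 67), (nat_lit 52))⟩, (nat_lit 11422), (nat_lit 300), (nat_lit 2190), (nat_lit 964600), (nat_lit 3847072), [(nat_lit 127946000), (nat_lit 154336000), (nat_lit 182754000)], [], [(nat_lit 774104052), (nat_lit 744324582), (nat_lit 769996548), (nat_lit 739359619), (nat_lit 773115680), (nat_lit 902226388), (nat_lit 643045632), (nat_lit 774481712)], (nat_lit 780000), (nat_lit 1271251), (nat_lit 1271251), (nat_lit 1271251), (nat_lit 0), (nat_lit 2825001), [(nat_lit 1977501), (nat_lit 1271251), (nat_lit 1271251)], [(nat_lit 31), (nat_lit 65), (nat_lit 655), (nat_lit 225), (nat_lit 15)]⟩⟩) (.trX (nat_lit 5) (nat_lit 1) (nat_lit 2) (nat_lit 92) (nat_lit 49) (nat_lit 100) (nat_lit 380) (.stt (nat_lit 2) (.leaf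 ⟨(nat_lit 0), (nat_lit 1000), (nat_lit 0), (nat_lit 0), (nat_lit 0), (nat_lit 3795), (nat_lit 7410), (nat_lit 0), (nat_lit 0), (nat_lit 0), (nat_lit 0), [], Pd.none, Pd.none, (nat_lit 0), (nat_lit 1), (nat_lit 0), (nat_lit 0), (nat_lit 6), (nat_lit 0), [], [], [], [⟨(nat_lit 2), (nat_lit 49), (nat_lit 97), (nat_lit 100), (nat_lit 290985987)⟩],
 ⟨⟨[(nat_lit 40), (nat_lit 80), (nat_lit 100)], [(nat_lit 0), (nat_lit 0), (nat_lit 1280)], [((nat_lit 0), (nat_lit 0), (nat_lit 0)), ((nat_lit 0), (nat_lit 0), (nat_lit 0)), ((nat_lit 1000), (nat_lit 800), (nat_lit 600))], ((nat_lit 81), (nat_lit 100), (nat_lit 48))⟩, (nat_lit 0), (nat_lit 46), (nat_lit 46), (nat_lit 0), (nat_lit 0), [(nat_lit 2032000009), (nat_lit 96126756875), (nat_lit 6250000000)], [], [(nat_lit 19043900439), (nat_lit 19808248233), (nat_lit 20689263289), (nat_lit 21367094477), (nat_lit 21184558085), (nat_lit 21923654912), (nat_lit 22584407114), (nat_lit 23207286716)], (nat_lit 0), (nat_lit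 0), (nat_lit 0), (nat_lit 0), (nat_lit 0), (nat_lit 0), [], [(nat_lit 3), (nat_lit 50), (nat_lit 260), (nat_lit 50), (nat_lit 8)]⟩,
 ⟨⟨[(nat_lit 60), (nat_lit 100), (nat_lit 120)], [(nat_lit 0), (nat_lit 0), (nat_lit 1164)], [((nat_lit 0), (nat_lit 0), (nat_lit 0)), ((nat_lit 0), (nat_lit 0), (nat_lit 0)), ((nat_lit 1000), (nat_lit 933), (nat_lit 572))], ((nat_lit 92), (nat_lit 100), (nat_lit 48))⟩, (nat_lit 2256448), (nat_lit 150), (nat_lit 150), (nat_lit 0), (nat_lit 0), [(nat_lit 3282000000), (nat_lit 6250000000), (nat_lit 7968000000)], [], [(nat_lit 21387337788), (nat_lit 25457087288), (nat_lit 23160069948), (nat_lit 26659241428), (nat_lit 29829281915), (nat_lit 32235206165), (nat_lit 29774306293), (nat_lit 31859621145)], (nat_lit 0), (nat_lit 0), (nat_lit 0), (nat_lit 0), (nat_lit 0), (nat_lit 0), [], [(nat_lit 10), (nat_lit 54), (nat_lit 373), (nat_lit 150), (nat_lit 12)]⟩,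
 Rw.none⟩) (.spl (nat_lit 1) (nat_lit 300) (.leaf ⟨(nat_lit 947), (nat_lit 33), (nat_lit 0), (nat_lit 20), (nat_lit 0), (nat_lit 3225), (nat_lit 501), (nat_lit 210), (nat_lit 0), (nat_lit 0), (nat_lit 236750), [((nat_lit 330), [((nat_lit 18), (nat_lit 0), (nat_lit 947))])], ⟨(nat_lit 7), false, false, false, (nat_lit 212), (nat_lit 4183), (nat_lit 4473), [(nat_lit 1450291), (nat_lit 1454137), (nat_lit 1471853), (nat_lit 1475800), (nat_lit 1586250), (nat_lit 1586650), (nat_lit 1607812), (nat_lit 1608313)]⟩, ⟨(nat_lit 6), false, false, true, (nat_lit 219), (nat_lit 4183), (nat_lit 4473), [(nat_lit 1481711), (nat_lit 1479587), (nat_lit 1546410), (nat_lit 1544587), (nat_lit 1549689), (nat_lit 1545843), (nat_lit 1614388), (nat_lit 1610843)]⟩, (nat_lit 5122423), (nat_lit 40265627), (nat_lit 13039683), (nat_lit 13694690), (nat_lit 6), (nat_lit 0), [], [], [], [],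
 ⟨⟨[(nat_lit 40), (nat_lit 80), (nat_lit 100)], [(nat_lit 0), (nat_lit 0), (nat_lit 1280)], [((nat_lit 0), (nat_lit 0), (nat_lit 0)), ((nat_lit 0), (nat_lit 0), (nat_lit 0)), ((nat_lit 1000), (nat_lit 800), (nat_lit 600))], ((nat_lit 81), (nat_lit 100), (nat_lit 48))⟩, (nat_lit 0), (nat_lit 46), (nat_lit 46), (nat_lit 0), (nat_lit 0), [(nat_lit 1546855989), (nat_lit 100038853539), (nat_lit 2757464000)], [(nat_lit 0), (nat_lit 0), (nat_lit 0)], [(nat_lit 18857576639), (nat_lit 19561794421), (nat_lit 20553196389), (nat_lit 21180290452), (nat_lit 20866509464), (nat_lit 21543089994), (nat_lit 22342414264), (nat_lit 22920668708)], (nat_lit 0), (nat_lit 0), (nat_lit 0), (nat_lit 0), (nat_lit 0), (nat_lit 0), [], [(nat_lit 3), (nat_lit 50), (nat_lit 260), (nat_lit 50), (nat_lit 8)]⟩,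
 ⟨⟨[(nat_lit 60), (nat_lit 100), (nat_lit 120)], [(nat_lit 0), (nat_lit 0), (nat_lit 1164)], [((nat_lit 0), (nat_lit 0), (nat_lit 0)), ((nat_lit 0), (nat_lit 0), (nat_lit 0)), ((nat_lit 1000), (nat_lit 933), (nat_lit 572))], ((nat_lit 92), (nat_lit 100), (nat_lit 48))⟩, (nat_lit 0), (nat_lit 419), (nat_lit 419), (nat_lit 0), (nat_lit 600777), [(nat_lit 173946000), (nat_lit 331250000), (nat_lit 422304000)], [], [(nat_lit 1823492460), (nat_lit 1560528582), (nat_lit 1433503086), (nat_lit 1494761965), (nat_lit 2116642465), (nat_lit 1898214857), (nat_lit 2705039080), (nat_lit 2491923888)], (nat_lit 1271251), (nat_lit 1271251), (nat_lit 780000), (nat_lit 1435001), (nat_lit 0), (nat_lit 2683751), [(nat_lit 780000), (nat_lit 1435001), (nat_lit 1271251)], [(nat_lit 10), (nat_lit 54), (nat_lit 373), (nat_lit 150), (nat_lit 12)]⟩,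
 ⟨⟨[(nat_lit 140), (nat_lit 160), (nat_lit 180)], [(nat_lit 0), (nat_lit 0), (nat_lit 799)], [((nat_lit 0), (nat_lit 0), (nat_lit 0)), ((nat_lit 0), (nat_lit 0), (nat_lit 0)), ((nat_lit 728), (nat_lit 1000), (nat_lit 454))], ((nat_lit 100), (nat_lit 67), (nat_lit 52))⟩, (nat_lit 17572), (nat_lit 300), (nat_lit 1701), (nat_lit 1484000), (nat_lit 2871119), [(nat_lit 196840000), (nat_lit 237440000), (nat_lit 281160000)], [], [(nat_lit 1329441880), (nat_lit 1286791242), (nat_lit 1308951620), (nat_lit 1266044343), (nat_lit 1138548820), (nat_lit 1319242530), (nat_lit 1048564372), (nat_lit 1141668394)], (nat_lit 780000), (nat_lit 1271251), (nat_lit 1271251), (nat_lit 1271251), (nat_lit 0), (nat_lit 2683751), [(nat_lit 1977501), (nat_lit 1271251), (nat_lit 1271251)], [(nat_lit 31), (nat_lit 65), (nat_lit 531), (nat_lit 225), (nat_lit 12)]⟩⟩) (.trX (nat_lit 5) (nat_lit 1) (nat_lit 2) (nat_lit 87) (nat_lit 59) (nat_lit 100) (nat_lit 370) (.leaf ⟨(nat_lit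 394), (nat_lit 524), (nat_lit 0), (nat_lit 82), (nat_lit 0), (nat_lit 3424), (nat_lit 3640), (nat_lit 889), (nat_lit 0), (nat_lit 0), (nat_lit 98500), [((nat_lit 330), [((nat_lit 18), (nat_lit 0), (nat_lit 394))])], ⟨(nat_lit 7), false, false, false, (nat_lit 221), (nat_lit 4183), (nat_lit 4473), [(nat_lit 1471853), (nat_lit 1475800), (nat_lit 1493417), (nat_lit 1497463), (nat_lit 1607812), (nat_lit 1608313), (nat_lit 1629375), (nat_lit 1629976)]⟩, ⟨(nat_lit 6), false, false, true, (nat_lit 219), (nat_lit 4183), (nat_lit 4473), [(nat_lit 1481711), (nat_lit 1479587), (nat_lit 1546410), (nat_lit 1544587), (nat_lit 1549689), (nat_lit 1545843), (nat_lit 1614388), (nat_lit 1610843)]⟩, (nat_lit 5176636), (nat_lit 39676839), (nat_lit 13763615), (nat_lit 13559546), (nat_lit 6), (nat_lit 0), [], [], [⟨(nat_lit 1), (nat_lit 77), (nat_lit 86), (nat_lit 100), (nat_lit 118589904)⟩], [],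
 ⟨⟨[(nat_lit 40), (nat_lit 80), (nat_lit 100)], [(nat_lit 0), (nat_lit 0), (nat_lit 1280)], [((nat_lit 0), (nat_lit 0), (nat_lit 0)), ((nat_lit 0), (nat_lit 0), (nat_lit 0)), ((nat_lit 1000), (nat_lit 800), (nat_lit 600))], ((nat_lit 81), (nat_lit 100), (nat_lit 48))⟩, (nat_lit 0), (nat_lit 46), (nat_lit 46), (nat_lit 0), (nat_lit 0), [(nat_lit 1742646401), (nat_lit 100939703016), (nat_lit 4796928000)], [(nat_lit 0), (nat_lit 0), (nat_lit 0)], [(nat_lit 18949042097), (nat_lit 19674252637), (nat_lit 20627116017), (nat_lit 21271923567), (nat_lit 21003891585), (nat_lit 21675953886), (nat_lit 22453315057), (nat_lit 23047149161)], (nat_lit 0), (nat_lit 0), (nat_lit 0), (nat_lit 0), (nat_lit 0), (nat_lit 0), [], [(nat_lit 3), (nat_lit 50), (nat_lit 260), (nat_lit 50), (nat_lit 8)]⟩,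
 ⟨⟨[(nat_lit 60), (nat_lit 80), (nat_lit 100)], [(nat_lit 0), (nat_lit 304), (nat_lit 825)], [((nat_lit 0), (nat_lit 0), (nat_lit 0)), ((nat_lit 1000), (nat_lit 905), (nat_lit 238)), ((nat_lit 1000), (nat_lit 871), (nat_lit 407))], ((nat_lit 87), (nat_lit 100), (nat_lit 48))⟩, (nat_lit 4419750), (nat_lit 367), (nat_lit 367), (nat_lit 0), (nat_lit 644943), [(nat_lit 1988892000), (nat_lit 2840928000), (nat_lit 3787500000)], [], [(nat_lit 13675858700), (nat_lit 12642531272), (nat_lit 12827868708), (nat_lit 13695816184), (nat_lit 18191375729), (nat_lit 17885796050), (nat_lit 23064489581), (nat_lit 21511346398)], (nat_lit 1271251), (nat_lit 1271251), (nat_lit 780000), (nat_lit 1435001), (nat_lit 0), (nat_lit 2613125), [(nat_lit 780000), (nat_lit 1100000), (nat_lit 1442501)], [(nat_lit 9), (nat_lit 50), (nat_lit 373), (nat_lit 150), (nat_lit 14)]⟩,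
 ⟨⟨[(nat_lit 140), (nat_lit 160), (nat_lit 180)], [(nat_lit 0), (nat_lit 0), (nat_lit 799)], [((nat_lit 0), (nat_lit 0), (nat_lit 0)), ((nat_lit 0), (nat_lit 0), (nat_lit 0)), ((nat_lit 728), (nat_lit 1000), (nat_lit 454))], ((nat_lit 100), (nat_lit 67), (nat_lit 52))⟩, (nat_lit 72045), (nat_lit 300), (nat_lit 1981), (nat_lit 6084401), (nat_lit 3436569), [(nat_lit 807044000), (nat_lit 973504000), (nat_lit 1152756000)], [], [(nat_lit 5185539974), (nat_lit 5009431003), (nat_lit 5119488576), (nat_lit 4934973723), (nat_lit 4600436171), (nat_lit 5356554641), (nat_lit 4035624389), (nat_lit 4602528011)], (nat_lit 780000), (nat_lit 1271251), (nat_lit 1271251), (nat_lit 1271251), (nat_lit 0), (nat_lit 2613125), [(nat_lit 1977501), (nat_lit 1271251), (nat_lit 1271251)], [(nat_lit 31), (nat_lit 65), (nat_lit 599), (nat_lit 225), (nat_lit 14)]⟩⟩)))))) (.stt (nat_lit 2) (.leaf ⟨(nat_lit 487), (nat_lit 513), (nat_lit 0), (nat_lit 0), (nat_lit 1003), (nat_lit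 3408), (nat_lit 4271), (nat_lit 0), (nat_lit 0), (nat_lit 0), (nat_lit 121750), [((nat_lit 330), [((nat_lit 18), (nat_lit 0), (nat_lit 487))])], ⟨(nat_lit 6), true, false, false, (nat_lit 261), (nat_lit 4183), (nat_lit 4473), [(nat_lit 1543125), (nat_lit 1543325), (nat_lit 1629375), (nat_lit 1629976), (nat_lit 1679082), (nat_lit 1675838), (nat_lit 1765332), (nat_lit 1762489)]⟩, ⟨(nat_lit 6), false, false, true, (nat_lit 219), (nat_lit 4183), (nat_lit 4473), [(nat_lit 1481711), (nat_lit 1479587), (nat_lit 1546410), (nat_lit 1544587), (nat_lit 1549689), (nat_lit 1545843), (nat_lit 1614388), (nat_lit 1610843)]⟩, (nat_lit 5375776), (nat_lit 36919524), (nat_lit 17196854), (nat_lit 12883622), (nat_lit 6), (nat_lit 0), [], [], [⟨(nat_lit 1), (nat_lit 30), (nat_lit 98), (nat_lit 100), (nat_lit 123266126)⟩], [],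
 ⟨⟨[(nat_lit 40), (nat_lit 80), (nat_lit 100)], [(nat_lit 0), (nat_lit 0), (nat_lit 1280)], [((nat_lit 0), (nat_lit 0), (nat_lit 0)), ((nat_lit 0), (nat_lit 0), (nat_lit 0)), ((nat_lit 1000), (nat_lit 800), (nat_lit 600))], ((nat_lit 81), (nat_lit 100), (nat_lit 48))⟩, (nat_lit 0), (nat_lit 42), (nat_lit 42), (nat_lit 0), (nat_lit 0), [(nat_lit 1685097995), (nat_lit 100723133060), (nat_lit 4453944000)], [(nat_lit 0), (nat_lit 0), (nat_lit 0)], [(nat_lit 20579366267), (nat_lit 21222749617), (nat_lit 23476193147), (nat_lit 24045003534), (nat_lit 22402591947), (nat_lit 22995173415), (nat_lit 25076864896), (nat_lit 25613956256)], (nat_lit 0), (nat_lit 0), (nat_lit 0), (nat_lit 0), (nat_lit 0), (nat_lit 0), [], [(nat_lit 3), (nat_lit 50), (nat_lit 203), (nat_lit 0), (nat_lit 6)]⟩,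
 ⟨⟨[(nat_lit 80), (nat_lit 120), (nat_lit 140)], [(nat_lit 0), (nat_lit 0), (nat_lit 1164)], [((nat_lit 0), (nat_lit 0), (nat_lit 0)), ((nat_lit 0), (nat_lit 0), (nat_lit 0)), ((nat_lit 941), (nat_lit 1000), (nat_lit 576))], ((nat_lit 100), (nat_lit 98), (nat_lit 48))⟩, (nat_lit 1351089), (nat_lit 191), (nat_lit 191), (nat_lit 0), (nat_lit 0), [(nat_lit 2404944000), (nat_lit 4087584000), (nat_lit 5048946000)], [], [(nat_lit 12446214892), (nat_lit 15860047620), (nat_lit 14912748644), (nat_lit 17639293978), (nat_lit 16362591028), (nat_lit 17781449340), (nat_lit 17191275964), (nat_lit 18612947402)], (nat_lit 0), (nat_lit 0), (nat_lit 0), (nat_lit 0), (nat_lit 0), (nat_lit 0), [], [(nat_lit 17), (nat_lit 58), (nat_lit 483), (nat_lit 250), (nat_lit 14)]⟩,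
 Rw.none⟩) (.spl (nat_lit 1) (nat_lit 280) (.leaf ⟨(nat_lit 806), (nat_lit 151), (nat_lit 0), (nat_lit 43), (nat_lit 0), (nat_lit 3052), (nat_lit 1678), (nat_lit 430), (nat_lit 0), (nat_lit 0), (nat_lit 369250), [((nat_lit 330), [((nat_lit 18), (nat_lit 0), (nat_lit 297)), ((nat_lit 18), (nat_lit 1), (nat_lit 52)), ((nat_lit 37), (nat_lit 2), (nat_lit 457))])], ⟨(nat_lit 6), false, true, false, (nat_lit 253), (nat_lit 4183), (nat_lit 4473), [(nat_lit 1543125), (nat_lit 1543325), (nat_lit 1586250), (nat_lit 1586650), (nat_lit 1679082), (nat_lit 1675838), (nat_lit 1722208), (nat_lit 1719164)]⟩, ⟨(nat_lit 6), false, false, true, (nat_lit 219), (nat_lit 4183), (nat_lit 4473), [(nat_lit 1481711), (nat_lit 1479587), (nat_lit 1546410), (nat_lit 1544587), (nat_lit 1549689), (nat_lit 1545843), (nat_lit 1614388), (nat_lit 1610843)]⟩, (nat_lit 5341009), (nat_lit 37500738), (nat_lit 16467571), (nat_lit 13031691), (nat_lit 6), (nat_lit 0), [], [], [], [],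
 ⟨⟨[(nat_lit 40), (nat_lit 80), (nat_lit 100)], [(nat_lit 0), (nat_lit 0), (nat_lit 1280)], [((nat_lit 0), (nat_lit 0), (nat_lit 0)), ((nat_lit 0), (nat_lit 0), (nat_lit 0)), ((nat_lit 1000), (nat_lit 800), (nat_lit 600))], ((nat_lit 81), (nat_lit 100), (nat_lit 48))⟩, (nat_lit 886), (nat_lit 42), (nat_lit 42), (nat_lit 0), (nat_lit 0), [(nat_lit 1459584805), (nat_lit 99551263547), (nat_lit 2600377200)], [(nat_lit 0), (nat_lit 0), (nat_lit 0)], [(nat_lit 20571873173), (nat_lit 21183568073), (nat_lit 23396926893), (nat_lit 23925506922), (nat_lit 22328941593), (nat_lit 22893651910), (nat_lit 24901011757), (nat_lit 25390733948)], (nat_lit 0), (nat_lit 0), (nat_lit 0), (nat_lit 0), (nat_lit 0), (nat_lit 0), [], [(nat_lit 3), (nat_lit 50), (nat_lit 203), (nat_lit 0), (nat_lit 6)]⟩,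
 ⟨⟨[(nat_lit 80), (nat_lit 120), (nat_lit 140)], [(nat_lit 0), (nat_lit 0), (nat_lit 1164)], [((nat_lit 0), (nat_lit 0), (nat_lit 0)), ((nat_lit 0), (nat_lit 0), (nat_lit 0)), ((nat_lit 941), (nat_lit 1000), (nat_lit 576))], ((nat_lit 100), (nat_lit 98), (nat_lit 48))⟩, (nat_lit 501873), (nat_lit 455), (nat_lit 455), (nat_lit 0), (nat_lit 568043), [(nat_lit 909472000), (nat_lit 1545792000), (nat_lit 1909348000)], [], [(nat_lit 6494961400), (nat_lit 6713705592), (nat_lit 6808429260), (nat_lit 7061296732), (nat_lit 8471307332), (nat_lit 6999144236), (nat_lit 6700548928), (nat_lit 6804805154)], (nat_lit 1271251), (nat_lit 1271251), (nat_lit 1271251), (nat_lit 1271251), (nat_lit 0), (nat_lit 2825001), [(nat_lit 1100000), (nat_lit 1785001), (nat_lit 1271251)], [(nat_lit 17), (nat_lit 58), (nat_lit 483), (nat_lit 250), (nat_lit 14)]⟩,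
 ⟨⟨[(nat_lit 140), (nat_lit 160), (nat_lit 180)], [(nat_lit 0), (nat_lit 0), (nat_lit 799)], [((nat_lit 0), (nat_lit 0), (nat_lit 0)), ((nat_lit 0), (nat_lit 0), (nat_lit 0)), ((nat_lit 728), (nat_lit 1000), (nat_lit 454))], ((nat_lit 100), (nat_lit 67), (nat_lit 52))⟩, (nat_lit 38769), (nat_lit 300), (nat_lit 1462), (nat_lit 3190600), (nat_lit 2360891), [(nat_lit 423206000), (nat_lit 510496000), (nat_lit 604494000)], [], [(nat_lit 3041692589), (nat_lit 2953595428), (nat_lit 3002401116), (nat_lit 2913954843), (nat_lit 2517513088), (nat_lit 2894990050), (nat_lit 2449935287), (nat_lit 2533607085)], (nat_lit 780000), (nat_lit 1271251), (nat_lit 1271251), (nat_lit 1271251), (nat_lit 0), (nat_lit 2825001), [(nat_lit 1977501), (nat_lit 1271251), (nat_lit 1271251)], [(nat_lit 31), (nat_lit 65), (nat_lit 473), (nat_lit 225), (nat_lit 11)]⟩⟩) (.trX (nat_lit 5) (nat_lit 1) (nat_lit 2) (nat_lit 92) (nat_lit 49) (nat_lit 100) (nat_lit 380) (.leaf ⟨(nat_lit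 634), (nat_lit 312), (nat_lit 0), (nat_lit 54), (nat_lit 0), (nat_lit 3271), (nat_lit 2787), (nat_lit 583), (nat_lit 0), (nat_lit 0), (nat_lit 265600), [((nat_lit 330), [((nat_lit 18), (nat_lit 1), (nat_lit 574)), ((nat_lit 37), (nat_lit 2), (nat_lit 60))])], ⟨(nat_lit 7), false, true, false, (nat_lit 270), (nat_lit 4183), (nat_lit 4473), [(nat_lit 1586250), (nat_lit 1586650), (nat_lit 1629375), (nat_lit 1629976), (nat_lit 1722208), (nat_lit 1719164), (nat_lit 1765332), (nat_lit 1762489)]⟩, ⟨(nat_lit 6), false, false, true, (nat_lit 219), (nat_lit 4183), (nat_lit 4473), [(nat_lit 1481711), (nat_lit 1479587), (nat_lit 1546410), (nat_lit 1544587), (nat_lit 1549689), (nat_lit 1545843), (nat_lit 1614388), (nat_lit 1610843)]⟩, (nat_lit 5406688), (nat_lit 36341554), (nat_lit 17924847), (nat_lit 12733599), (nat_lit 6), (nat_lit 0), [], [], [⟨(nat_lit 1), (nat_lit 72), (nat_lit 89), (nat_lit 100), (nat_lit 31710993)⟩], [],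
 ⟨⟨[(nat_lit 40), (nat_lit 80), (nat_lit 100)], [(nat_lit 0), (nat_lit 0), (nat_lit 1280)], [((nat_lit 0), (nat_lit 0), (nat_lit 0)), ((nat_lit 0), (nat_lit 0), (nat_lit 0)), ((nat_lit 1000), (nat_lit 800), (nat_lit 600))], ((nat_lit 81), (nat_lit 100), (nat_lit 48))⟩, (nat_lit 112224), (nat_lit 42), (nat_lit 42), (nat_lit 0), (nat_lit 0), [(nat_lit 1569123470), (nat_lit 100072483206), (nat_lit 3481927200)], [(nat_lit 0), (nat_lit 0), (nat_lit 0)], [(nat_lit 20547292734), (nat_lit 21178481372), (nat_lit 23416499044), (nat_lit 23976621971), (nat_lit 22345059019), (nat_lit 22927273497), (nat_lit 24999817877), (nat_lit 25527908166)], (nat_lit 0), (nat_lit 0), (nat_lit 0), (nat_lit 0), (nat_lit 0), (nat_lit 0), [], [(nat_lit 3), (nat_lit 50), (nat_lit 203), (nat_lit 0), (nat_lit 6)]⟩,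
 ⟨⟨[(nat_lit 60), (nat_lit 100), (nat_lit 120)], [(nat_lit 0), (nat_lit 0), (nat_lit 1164)], [((nat_lit 0), (nat_lit 0), (nat_lit 0)), ((nat_lit 0), (nat_lit 0), (nat_lit 0)), ((nat_lit 1000), (nat_lit 933), (nat_lit 572))], ((nat_lit 92), (nat_lit 100), (nat_lit 48))⟩, (nat_lit 1451632), (nat_lit 425), (nat_lit 425), (nat_lit 0), (nat_lit 656019), [(nat_lit 1201212000), (nat_lit 2287500000), (nat_lit 2916288000)], [], [(nat_lit 10196415411), (nat_lit 11031067404), (nat_lit 11271126816), (nat_lit 11947365942), (nat_lit 12750930438), (nat_lit 11740008431), (nat_lit 11830426946), (nat_lit 12447092379)], (nat_lit 1271251), (nat_lit 1271251), (nat_lit 1271251), (nat_lit 1271251), (nat_lit 0), (nat_lit 2683751), [(nat_lit 780000), (nat_lit 1435001), (nat_lit 1271251)], [(nat_lit 10), (nat_lit 54), (nat_lit 401), (nat_lit 175), (nat_lit 13)]⟩,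
 ⟨⟨[(nat_lit 140), (nat_lit 160), (nat_lit 180)], [(nat_lit 0), (nat_lit 0), (nat_lit 799)], [((nat_lit 0), (nat_lit 0), (nat_lit 0)), ((nat_lit 0), (nat_lit 0), (nat_lit 0)), ((nat_lit 728), (nat_lit 1000), (nat_lit 454))], ((nat_lit 100), (nat_lit 67), (nat_lit 52))⟩, (nat_lit 340165), (nat_lit 300), (nat_lit 1981), (nat_lit 4006800), (nat_lit 3436569), [(nat_lit 531468000), (nat_lit 641088000), (nat_lit 759132000)], [], [(nat_lit 3448406132), (nat_lit 3333014265), (nat_lit 3388722416), (nat_lit 3273310473), (nat_lit 3080791734), (nat_lit 3579437599), (nat_lit 2682332136), (nat_lit 3086457974)], (nat_lit 780000), (nat_lit 1271251), (nat_lit 1271251), (nat_lit 1271251), (nat_lit 0), (nat_lit 2683751), [(nat_lit 1977501), (nat_lit 1271251), (nat_lit 1271251)], [(nat_lit 31), (nat_lit 65), (nat_lit 601), (nat_lit 225), (nat_lit 14)]⟩⟩)))))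
noncomputable def c11_52 : Tr Lf :=
 (.spl (nat_lit 3) (nat_lit 200) (.spl (nat_lit 5) (nat_lit 200) (.spl (nat_lit 5) (nat_lit 120) (.spl (nat_lit 1) (nat_lit 260) (.leaf ⟨(nat_lit 906), (nat_lit 60), (nat_lit 0), (nat_lit 34), (nat_lit 0), (nat_lit 4116), (nat_lit 1046), (nat_lit 444), (nat_lit 0), (nat_lit 0), (nat_lit 279000), [((nat_lit 330), [((nat_lit 18), (nat_lit 0), (nat_lit 836)), ((nat_lit 18), (nat_lit 2), (nat_lit 70))])], ⟨(nat_lit 6), false, false, false, (nat_lit 195), (nat_lit 4183), (nat_lit 4473), [(nat_lit 1407167), (nat_lit 1410812), (nat_lit 1428729), (nat_lit 1432475), (nat_lit 1543125), (nat_lit 1543325), (nat_lit 1564687), (nat_lit 1564988)]⟩, ⟨(nat_lit 7), false, false, true, (nat_lit 248), (nat_lit 4183), (nat_lit 4473), [(nat_lit 1549689), (nat_lit 1545843), (nat_lit 1592822), (nat_lit 1589176), (nat_lit 1651656), (nat_lit 1645226), (nat_lit 1694789), (nat_lit 1688560)]⟩, (nat_lit 5163257), (nat_lit 39294303), (nat_lit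 11207415), (nat_lit 16498282), (nat_lit 7), (nat_lit 0), [], [⟨(nat_lit 1), (nat_lit 76), (nat_lit 82), (nat_lit 100), (nat_lit 253054755)⟩], [], [⟨(nat_lit 0), (nat_lit 85), (nat_lit 100), (nat_lit 38), (nat_lit 68124282)⟩],
 ⟨⟨[(nat_lit 40), (nat_lit 80), (nat_lit 100)], [(nat_lit 0), (nat_lit 0), (nat_lit 1280)], [((nat_lit 0), (nat_lit 0), (nat_lit 0)), ((nat_lit 0), (nat_lit 0), (nat_lit 0)), ((nat_lit 1000), (nat_lit 800), (nat_lit 600))], ((nat_lit 81), (nat_lit 100), (nat_lit 48))⟩, (nat_lit 0), (nat_lit 68), (nat_lit 68), (nat_lit 0), (nat_lit 0), [(nat_lit 1651487122), (nat_lit 2304640014), (nat_lit 2698308000)], [(nat_lit 0), (nat_lit 0), (nat_lit 0)], [(nat_lit 21878993058), (nat_lit 22538341365), (nat_lit 23101048022), (nat_lit 23687472711), (nat_lit 25077838678), (nat_lit 25737586945), (nat_lit 25947735966), (nat_lit 26536153913)], (nat_lit 0), (nat_lit 0), (nat_lit 0), (nat_lit 0), (nat_lit 0), (nat_lit 0), [], [(nat_lit 3), (nat_lit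 50), (nat_lit 260), (nat_lit 50), (nat_lit 8)]⟩,
 ⟨⟨[(nat_lit 80), (nat_lit 120), (nat_lit 140)], [(nat_lit 0), (nat_lit 0), (nat_lit 1164)], [((nat_lit 0), (nat_lit 0), (nat_lit 0)), ((nat_lit 0), (nat_lit 0), (nat_lit 0)), ((nat_lit 941), (nat_lit 1000), (nat_lit 576))], ((nat_lit 100), (nat_lit 98), (nat_lit 48))⟩, (nat_lit 0), (nat_lit 454), (nat_lit 454), (nat_lit 0), (nat_lit 509747), [(nat_lit 440672000), (nat_lit 748992000), (nat_lit 925148000)], [], [(nat_lit 3565869240), (nat_lit 3025051153), (nat_lit 3224753108), (nat_lit 2988573360), (nat_lit 2802014006), (nat_lit 2380216340), (nat_lit 3829743200), (nat_lit 3352817670)], (nat_lit 1271251), (nat_lit 1271251), (nat_lit 780000), (nat_lit 1435001), (nat_lit 0), (nat_lit 780000), [(nat_lit 1100000), (nat_lit 1785001), (nat_lit 1271251)], [(nat_lit 17), (nat_lit 58), (nat_lit 373), (nat_lit 150), (nat_lit 11)]⟩,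
 ⟨⟨[(nat_lit 140), (nat_lit 160), (nat_lit 180)], [(nat_lit 0), (nat_lit 0), (nat_lit 799)], [((nat_lit 0), (nat_lit 0), (nat_lit 0)), ((nat_lit 0), (nat_lit 0), (nat_lit 0)), ((nat_lit 728), (nat_lit 1000), (nat_lit 454))], ((nat_lit 100), (nat_lit 67), (nat_lit 52))⟩, (nat_lit 29872), (nat_lit 300), (nat_lit 1235), (nat_lit 2522802), (nat_lit 1912226), [(nat_lit 334628000), (nat_lit 403648000), (nat_lit 477972000)], [], [(nat_lit 1919547408), (nat_lit 1854547800), (nat_lit 1945249830), (nat_lit 1877247436), (nat_lit 1567458214), (nat_lit 1505918528), (nat_lit 1587587660), (nat_lit 1522170716)], (nat_lit 780000), (nat_lit 1100000), (nat_lit 1271251), (nat_lit 1271251), (nat_lit 0), (nat_lit 780000), [(nat_lit 1977501), (nat_lit 1271251), (nat_lit 1271251)], [(nat_lit 31), (nat_lit 65), (nat_lit 401), (nat_lit 175), (nat_lit 9)]⟩⟩) (.leaf ⟨(nat_lit 0), (nat_lit 873), (nat_lit 0), (nat_lit 127), (nat_lit 0), (nat_lit 6035), (nat_lit 5832), (nat_lit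 1656), (nat_lit 0), (nat_lit 0), (nat_lit 0), [], Pd.none, Pd.none, (nat_lit 0), (nat_lit 1), (nat_lit 0), (nat_lit 0), (nat_lit 7), (nat_lit 0), [], [⟨(nat_lit 1), (nat_lit 76), (nat_lit 82), (nat_lit 100), (nat_lit 551542827)⟩], [], [⟨(nat_lit 0), (nat_lit 85), (nat_lit 100), (nat_lit 38), (nat_lit 8230690)⟩],
 ⟨⟨[(nat_lit 40), (nat_lit 80), (nat_lit 100)], [(nat_lit 0), (nat_lit 0), (nat_lit 1280)], [((nat_lit 0), (nat_lit 0), (nat_lit 0)), ((nat_lit 0), (nat_lit 0), (nat_lit 0)), ((nat_lit 1000), (nat_lit 800), (nat_lit 600))], ((nat_lit 81), (nat_lit 100), (nat_lit 48))⟩, (nat_lit 0), (nat_lit 68), (nat_lit 68), (nat_lit 0), (nat_lit 0), [(nat_lit 2518317339), (nat_lit 4688000003), (nat_lit 6250000000)], [], [(nat_lit 23128241318), (nat_lit 23942080399), (nat_lit 24066052083), (nat_lit 24782192297), (nat_lit 26966775348), (nat_lit 27777462357), (nat_lit 27421508898), (nat_lit 28108216704)], (nat_lit 0), (nat_lit 0), (nat_lit 0), (nat_lit 0),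 (nat_lit 0), (nat_lit 0), [], [(nat_lit 3), (nat_lit 50), (nat_lit 260), (nat_lit 50), (nat_lit 8)]⟩,
 ⟨⟨[(nat_lit 80), (nat_lit 100), (nat_lit 120)], [(nat_lit 0), (nat_lit 265), (nat_lit 768)], [((nat_lit 0), (nat_lit 0), (nat_lit 0)), ((nat_lit 1000), (nat_lit 959), (nat_lit 206)), ((nat_lit 1000), (nat_lit 958), (nat_lit 392))], ((nat_lit 97), (nat_lit 100), (nat_lit 48))⟩, (nat_lit 8024709), (nat_lit 396), (nat_lit 396), (nat_lit 0), (nat_lit 555090), [(nat_lit 4688000000), (nat_lit 6250000000), (nat_lit 7968000000)], [], [(nat_lit 27998183186), (nat_lit 26724400145), (nat_lit 30880911266), (nat_lit 28113402734), (nat_lit 28798656588), (nat_lit 26067937770), (nat_lit 35847256856), (nat_lit 33188146250)], (nat_lit 1271251), (nat_lit 1271251), (nat_lit 780000), (nat_lit 1435001), (nat_lit 0), (nat_lit 780000), [(nat_lit 1100000), (nat_lit 1442501), (nat_lit 1271251)], [(nat_lit 16), (nat_lit 54), (nat_lit 317), (nat_lit 100), (nat_lit 10)]⟩,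
 ⟨⟨[(nat_lit 140), (nat_lit 160), (nat_lit 180)], [(nat_lit 0), (nat_lit 0), (nat_lit 799)], [((nat_lit 0), (nat_lit 0), (nat_lit 0)), ((nat_lit 0), (nat_lit 0), (nat_lit 0)), ((nat_lit 728), (nat_lit 1000), (nat_lit 454))], ((nat_lit 100), (nat_lit 67), (nat_lit 52))⟩, (nat_lit 111582), (nat_lit 300), (nat_lit 1447), (nat_lit 9423400), (nat_lit 2360894), [(nat_lit 1249934000), (nat_lit 1507744000), (nat_lit 1785366000)], [], [(nat_lit 7173557916), (nat_lit 6931245456), (nat_lit 7269647115), (nat_lit 7012447132), (nat_lit 5860647991), (nat_lit 5631236618), (nat_lit 5935942034), (nat_lit 5692065686)], (nat_lit 780000), (nat_lit 1100000), (nat_lit 1271251), (nat_lit 1271251), (nat_lit 0), (nat_lit 780000), [(nat_lit 1977501), (nat_lit 1271251), (nat_lit 1271251)], [(nat_lit 31), (nat_lit 65), (nat_lit 440), (nat_lit 175), (nat_lit 10)]⟩⟩)) (.leaf ⟨(nat_lit 783), (nat_lit 176), (nat_lit 0), (nat_lit 41), (nat_lit 0), (nat_lit 3818), (nat_lit 2805),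 (nat_lit 470), (nat_lit 0), (nat_lit 0), (nat_lit 627400), [((nat_lit 330), [((nat_lit 37), (nat_lit 2), (nat_lit 389)), ((nat_lit 18), (nat_lit 2), (nat_lit 394))])], ⟨(nat_lit 6), false, false, false, (nat_lit 199), (nat_lit 4183), (nat_lit 4473), [(nat_lit 1407167), (nat_lit 1410812), (nat_lit 1450291), (nat_lit 1454137), (nat_lit 1543125), (nat_lit 1543325), (nat_lit 1586250), (nat_lit 1586650)]⟩, ⟨(nat_lit 7), false, false, true, (nat_lit 248), (nat_lit 4183), (nat_lit 4473), [(nat_lit 1549689), (nat_lit 1545843), (nat_lit 1592822), (nat_lit 1589176), (nat_lit 1651656), (nat_lit 1645226), (nat_lit 1694789), (nat_lit 1688560)]⟩, (nat_lit 5193878), (nat_lit 39030236), (nat_lit 11549808), (nat_lit 16419956), (nat_lit 7), (nat_lit 0), [], [⟨(nat_lit 1), (nat_lit 87), (nat_lit 82), (nat_lit 100), (nat_lit 272242698)⟩], [], [],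
 ⟨⟨[(nat_lit 40), (nat_lit 80), (nat_lit 100)], [(nat_lit 0), (nat_lit 0), (nat_lit 1280)], [((nat_lit 0), (nat_lit 0), (nat_lit 0)), ((nat_lit 0), (nat_lit 0), (nat_lit 0)), ((nat_lit 1000), (nat_lit 800), (nat_lit 600))], ((nat_lit 81), (nat_lit 100), (nat_lit 48))⟩, (nat_lit 0), (nat_lit 68), (nat_lit 68), (nat_lit 0), (nat_lit 0), [(nat_lit 1743879707), (nat_lit 1991522696), (nat_lit 1628512400)], [(nat_lit 0), (nat_lit 0), (nat_lit 0)], [(nat_lit 21904343525), (nat_lit 22503979806), (nat_lit 23175356381), (nat_lit 23710534475), (nat_lit 24843551111), (nat_lit 25420816298), (nat_lit 25790614481), (nat_lit 26292029519)], (nat_lit 0), (nat_lit 0), (nat_lit 0), (nat_lit 0), (nat_lit 0), (nat_lit 0), [], [(nat_lit 3), (nat_lit 50), (nat_lit 260), (nat_lit 50), (nat_lit 8)]⟩,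
 ⟨⟨[(nat_lit 80), (nat_lit 120), (nat_lit 140)], [(nat_lit 0), (nat_lit 0), (nat_lit 1164)], [((nat_lit 0), (nat_lit 0), (nat_lit 0)), ((nat_lit 0), (nat_lit 0), (nat_lit 0)), ((nat_lit 941), (nat_lit 1000), (nat_lit 576))], ((nat_lit 100), (nat_lit 98), (nat_lit 48))⟩, (nat_lit 866491), (nat_lit 367), (nat_lit 367), (nat_lit 0), (nat_lit 568043), [(nat_lit 1017296000), (nat_lit 1729056000), (nat_lit 2135714000)], [], [(nat_lit 4804673035), (nat_lit 3647753082), (nat_lit 5019476619), (nat_lit 3710478698), (nat_lit 5019476619), (nat_lit 3710478698), (nat_lit 7537913237), (nat_lit 4911141535)], (nat_lit 1271251), (nat_lit 1271251), (nat_lit 780000), (nat_lit 1435001), (nat_lit 780000), (nat_lit 1435001), [(nat_lit 1100000), (nat_lit 1785001), (nat_lit 1271251)], [(nat_lit 17), (nat_lit 58), (nat_lit 401), (nat_lit 175), (nat_lit 11)]⟩,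
 ⟨⟨[(nat_lit 140), (nat_lit 160), (nat_lit 180)], [(nat_lit 0), (nat_lit 0), (nat_lit 799)], [((nat_lit 0), (nat_lit 0), (nat_lit 0)), ((nat_lit 0), (nat_lit 0), (nat_lit 0)), ((nat_lit 728), (nat_lit 1000), (nat_lit 454))], ((nat_lit 100), (nat_lit 67), (nat_lit 52))⟩, (nat_lit 36023), (nat_lit 300), (nat_lit 2100), (nat_lit 3042200), (nat_lit 3847072), [(nat_lit 403522000), (nat_lit 486752000), (nat_lit 576378000)], [], [(nat_lit 2120627475), (nat_lit 2050518172), (nat_lit 2103218377), (nat_lit 2032933529), (nat_lit 1991185647), (nat_lit 1922829926), (nat_lit 1975513983), (nat_lit 1905066702)], (nat_lit 780000), (nat_lit 1100000), (nat_lit 1271251), (nat_lit 1271251), (nat_lit 780000), (nat_lit 1435001), [(nat_lit 1977501), (nat_lit 1271251), (nat_lit 1271251)], [(nat_lit 31), (nat_lit 65), (nat_lit 613), (nat_lit 175), (nat_lit 14)]⟩⟩)) (.spl (nat_lit 1) (nat_lit 260) (.leaf ⟨(nat_lit 891), (nat_lit 75), (nat_lit 0), (nat_lit 34), (nat_lit 0),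 (nat_lit 3908), (nat_lit 1140), (nat_lit 371), (nat_lit 0), (nat_lit 0), (nat_lit 430200), [((nat_lit 330), [((nat_lit 18), (nat_lit 1), (nat_lit 768)), ((nat_lit 18), (nat_lit 2), (nat_lit 123))])], ⟨(nat_lit 6), false, false, false, (nat_lit 195), (nat_lit 4183), (nat_lit 4473), [(nat_lit 1407167), (nat_lit 1410812), (nat_lit 1428729), (nat_lit 1432475), (nat_lit 1543125), (nat_lit 1543325), (nat_lit 1564687), (nat_lit 1564988)]⟩, ⟨(nat_lit 7), false, false, true, (nat_lit 248), (nat_lit 4183), (nat_lit 4473), [(nat_lit 1549689), (nat_lit 1545843), (nat_lit 1592822), (nat_lit 1589176), (nat_lit 1651656), (nat_lit 1645226), (nat_lit 1694789), (nat_lit 1688560)]⟩, (nat_lit 5163257), (nat_lit 39294303), (nat_lit 11207415), (nat_lit 16498282), (nat_lit 7), (nat_lit 0), [], [⟨(nat_lit 1), (nat_lit 87), (nat_lit 82), (nat_lit 100), (nat_lit 238889352)⟩], [], [⟨(nat_lit 2), (nat_lit 100), (nat_lit 95), (nat_lit 100), (nat_lit 35853425)⟩],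
 ⟨⟨[(nat_lit 40), (nat_lit 80), (nat_lit 100)], [(nat_lit 0), (nat_lit 0), (nat_lit 1280)], [((nat_lit 0), (nat_lit 0), (nat_lit 0)), ((nat_lit 0), (nat_lit 0), (nat_lit 0)), ((nat_lit 1000), (nat_lit 800), (nat_lit 600))], ((nat_lit 81), (nat_lit 100), (nat_lit 48))⟩, (nat_lit 0), (nat_lit 68), (nat_lit 68), (nat_lit 0), (nat_lit 0), [(nat_lit 1683972430), (nat_lit 2047203214), (nat_lit 2159289386)], [(nat_lit 0), (nat_lit 0), (nat_lit 0)], [(nat_lit 21780401376), (nat_lit 22387085471), (nat_lit 23039200512), (nat_lit 23580002447), (nat_lit 24873538550), (nat_lit 25516485285), (nat_lit 25791129958), (nat_lit 26365758363)], (nat_lit 0), (nat_lit 0), (nat_lit 0), (nat_lit 0), (nat_lit 0), (nat_lit 0), [], [(nat_lit 3), (nat_lit 50), (nat_lit 260), (nat_lit 50), (nat_lit 8)]⟩,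
 ⟨⟨[(nat_lit 80), (nat_lit 120), (nat_lit 140)], [(nat_lit 0), (nat_lit 0), (nat_lit 1164)], [((nat_lit 0), (nat_lit 0), (nat_lit 0)), ((nat_lit 0), (nat_lit 0), (nat_lit 0)), ((nat_lit 941), (nat_lit 1000), (nat_lit 576))], ((nat_lit 100), (nat_lit 98), (nat_lit 48))⟩, (nat_lit 378769), (nat_lit 340), (nat_lit 340), (nat_lit 0), (nat_lit 509747), [(nat_lit 510992000), (nat_lit 868512000), (nat_lit 1072778000)], [], [(nat_lit 2410470900), (nat_lit 2233843906), (nat_lit 3053626684), (nat_lit 2519844199), (nat_lit 3492626508), (nat_lit 3641896682), (nat_lit 3426861344), (nat_lit 3554227494)], (nat_lit 1271251), (nat_lit 1271251), (nat_lit 780000), (nat_lit 1435001), (nat_lit 1271251), (nat_lit 1271251), [(nat_lit 1100000), (nat_lit 1785001), (nat_lit 1271251)], [(nat_lit 17), (nat_lit 58), (nat_lit 456), (nat_lit 225), (nat_lit 13)]⟩,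
 ⟨⟨[(nat_lit 140), (nat_lit 160), (nat_lit 180)], [(nat_lit 0), (nat_lit 0), (nat_lit 799)], [((nat_lit 0), (nat_lit 0), (nat_lit 0)), ((nat_lit 0), (nat_lit 0), (nat_lit 0)), ((nat_lit 728), (nat_lit 1000), (nat_lit 454))], ((nat_lit 100), (nat_lit 67), (nat_lit 52))⟩, (nat_lit 29872), (nat_lit 300), (nat_lit 1647), (nat_lit 2522802), (nat_lit 3027729), [(nat_lit 334628000), (nat_lit 403648000), (nat_lit 477972000)], [], [(nat_lit 1767832870), (nat_lit 1715454544), (nat_lit 1731370766), (nat_lit 1675649844), (nat_lit 1660656624), (nat_lit 1603088307), (nat_lit 1647080802), (nat_lit 1588559852)], (nat_lit 780000), (nat_lit 1100000), (nat_lit 1271251), (nat_lit 1271251), (nat_lit 1271251), (nat_lit 1271251), [(nat_lit 1977501), (nat_lit 1271251), (nat_lit 1271251)], [(nat_lit 31), (nat_lit 65), (nat_lit 523), (nat_lit 225), (nat_lit 11)]⟩⟩) (.trX (nat_lit 5) (nat_lit 1) (nat_lit 2) (nat_lit 97) (nat_lit 49) (nat_lit 100) (nat_lit 380) (.leaf ⟨(nat_lit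 215), (nat_lit 718), (nat_lit 0), (nat_lit 67), (nat_lit 0), (nat_lit 4809), (nat_lit 5151), (nat_lit 736), (nat_lit 0), (nat_lit 0), (nat_lit 860000), [((nat_lit 330), [((nat_lit 37), (nat_lit 5), (nat_lit 215))])], ⟨(nat_lit 6), false, false, false, (nat_lit 203), (nat_lit 4183), (nat_lit 4473), [(nat_lit 1428729), (nat_lit 1432475), (nat_lit 1450291), (nat_lit 1454137), (nat_lit 1564687), (nat_lit 1564988), (nat_lit 1586250), (nat_lit 1586650)]⟩, ⟨(nat_lit 7), false, false, true, (nat_lit 248), (nat_lit 4183), (nat_lit 4473), [(nat_lit 1549689), (nat_lit 1545843), (nat_lit 1592822), (nat_lit 1589176), (nat_lit 1651656), (nat_lit 1645226), (nat_lit 1694789), (nat_lit 1688560)]⟩, (nat_lit 5223460), (nat_lit 38765750), (nat_lit 11893542), (nat_lit 16340708), (nat_lit 7), (nat_lit 0), [], [⟨(nat_lit 1), (nat_lit 87), (nat_lit 82), (nat_lit 100), (nat_lit 167910708)⟩], [], [⟨(nat_lit 2), (nat_lit 100), (nat_lit 94), (nat_lit 97), (nat_lit 309808687)⟩],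
 ⟨⟨[(nat_lit 40), (nat_lit 80), (nat_lit 100)], [(nat_lit 0), (nat_lit 0), (nat_lit 1280)], [((nat_lit 0), (nat_lit 0), (nat_lit 0)), ((nat_lit 0), (nat_lit 0), (nat_lit 0)), ((nat_lit 1000), (nat_lit 800), (nat_lit 600))], ((nat_lit 81), (nat_lit 100), (nat_lit 48))⟩, (nat_lit 0), (nat_lit 68), (nat_lit 68), (nat_lit 0), (nat_lit 0), [(nat_lit 2355883916), (nat_lit 2753515365), (nat_lit 2259772000)], [(nat_lit 0), (nat_lit 0), (nat_lit 0)], [(nat_lit 21960140942), (nat_lit 22633624933), (nat_lit 23096667170), (nat_lit 23693770005), (nat_lit 25759886160), (nat_lit 26474238149), (nat_lit 26469505022), (nat_lit 27103866010)], (nat_lit 0), (nat_lit 0), (nat_lit 0), (nat_lit 0), (nat_lit 0), (nat_lit 0), [], [(nat_lit 3), (nat_lit 50), (nat_lit 260), (nat_lit 50), (nat_lit 8)]⟩,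
 ⟨⟨[(nat_lit 80), (nat_lit 100), (nat_lit 120)], [(nat_lit 0), (nat_lit 265), (nat_lit 768)], [((nat_lit 0), (nat_lit 0), (nat_lit 0)), ((nat_lit 1000), (nat_lit 959), (nat_lit 206)), ((nat_lit 1000), (nat_lit 958), (nat_lit 392))], ((nat_lit 97), (nat_lit 100), (nat_lit 48))⟩, (nat_lit 5344140), (nat_lit 309), (nat_lit 309), (nat_lit 0), (nat_lit 555090), [(nat_lit 3680080000), (nat_lit 4906250000), (nat_lit 6254880000)], [], [(nat_lit 15951276472), (nat_lit 16742456848), (nat_lit 16774593335), (nat_lit 17458311439), (nat_lit 22177045756), (nat_lit 22640516419), (nat_lit 22202538556), (nat_lit 22764303966)], (nat_lit 1271251), (nat_lit 1271251), (nat_lit 780000), (nat_lit 1435001), (nat_lit 1271251), (nat_lit 1271251), [(nat_lit 1100000), (nat_lit 1442501), (nat_lit 1271251)], [(nat_lit 16), (nat_lit 54), (nat_lit 373), (nat_lit 150), (nat_lit 12)]⟩,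
 ⟨⟨[(nat_lit 140), (nat_lit 160), (nat_lit 180)], [(nat_lit 0), (nat_lit 0), (nat_lit 799)], [((nat_lit 0), (nat_lit 0), (nat_lit 0)), ((nat_lit 0), (nat_lit 0), (nat_lit 0)), ((nat_lit 728), (nat_lit 1000), (nat_lit 454))], ((nat_lit 100), (nat_lit 67), (nat_lit 52))⟩, (nat_lit 58866), (nat_lit 300), (nat_lit 2061), (nat_lit 4971401), (nat_lit 3847075), [(nat_lit 659414000), (nat_lit 795424000), (nat_lit 941886000)], [], [(nat_lit 3477213133), (nat_lit 3379705479), (nat_lit 3382999968), (nat_lit 3272968518), (nat_lit 3250283968), (nat_lit 3136499637), (nat_lit 3225021547), (nat_lit 3109585825)], (nat_lit 780000), (nat_lit 1100000), (nat_lit 1271251), (nat_lit 1271251), (nat_lit 1271251), (nat_lit 1271251), [(nat_lit 1977501), (nat_lit 1271251), (nat_lit 1271251)], [(nat_lit 31), (nat_lit 65), (nat_lit 626), (nat_lit 225), (nat_lit 14)]⟩⟩)))) (.trZ (nat_lit 3) (nat_lit 4) (nat_lit 5) (nat_lit 92) (nat_lit 100) (nat_lit 40) (nat_lit 10) (.spl (nat_lit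 0) (nat_lit 325) (.leaf ⟨(nat_lit 847), (nat_lit 125), (nat_lit 0), (nat_lit 28), (nat_lit 0), (nat_lit 2940), (nat_lit 1338), (nat_lit 301), (nat_lit 0), (nat_lit 0), (nat_lit 303550), [((nat_lit 325), [((nat_lit 18), (nat_lit 0), (nat_lit 235)), ((nat_lit 18), (nat_lit 1), (nat_lit 612))])], ⟨(nat_lit 6), false, true, false, (nat_lit 253), (nat_lit 4330), (nat_lit 4473), [(nat_lit 1543130), (nat_lit 1543224), (nat_lit 1586262), (nat_lit 1586450), (nat_lit 1679087), (nat_lit 1677460), (nat_lit 1722218), (nat_lit 1720686)]⟩, ⟨(nat_lit 7), false, false, true, (nat_lit 248), (nat_lit 4330), (nat_lit 4473), [(nat_lit 1549689), (nat_lit 1547779), (nat_lit 1592822), (nat_lit 1591006), (nat_lit 1651656), (nat_lit 1648456), (nat_lit 1694789), (nat_lit 1691683)]⟩, (nat_lit 5492716), (nat_lit 35701698), (nat_lit 15878838), (nat_lit 15419464), (nat_lit 7), (nat_lit 0), [], [⟨(nat_lit 1), (nat_lit 86), (nat_lit 83), (nat_lit 100), (nat_lit 217273290)⟩], [],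 [],
 ⟨⟨[(nat_lit 40), (nat_lit 80), (nat_lit 100)], [(nat_lit 0), (nat_lit 0), (nat_lit 1280)], [((nat_lit 0), (nat_lit 0), (nat_lit 0)), ((nat_lit 0), (nat_lit 0), (nat_lit 0)), ((nat_lit 1000), (nat_lit 800), (nat_lit 600))], ((nat_lit 81), (nat_lit 100), (nat_lit 48))⟩, (nat_lit 0), (nat_lit 54), (nat_lit 54), (nat_lit 0), (nat_lit 0), [(nat_lit 1447563088), (nat_lit 99292587055), (nat_lit 2758329600)], [(nat_lit 0), (nat_lit 0), (nat_lit 0)], [(nat_lit 22364696948), (nat_lit 22642667881), (nat_lit 24920397528), (nat_lit 25161815765), (nat_lit 25121268308), (nat_lit 25364885268), (nat_lit 27299800488), (nat_lit 27516348793)], (nat_lit 0), (nat_lit 0), (nat_lit 0), (nat_lit 0), (nat_lit 0), (nat_lit 0), [], [(nat_lit 3), (nat_lit 50), (nat_lit 203), (nat_lit 0), (nat_lit 6)]⟩,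
 ⟨⟨[(nat_lit 80), (nat_lit 120), (nat_lit 140)], [(nat_lit 0), (nat_lit 0), (nat_lit 1164)], [((nat_lit 0), (nat_lit 0), (nat_lit 0)), ((nat_lit 0), (nat_lit 0), (nat_lit 0)), ((nat_lit 941), (nat_lit 1000), (nat_lit 576))], ((nat_lit 100), (nat_lit 98), (nat_lit 48))⟩, (nat_lit 306600), (nat_lit 426), (nat_lit 426), (nat_lit 0), (nat_lit 519446), [(nat_lit 717264000), (nat_lit 1219104000), (nat_lit 1505826000)], [], [(nat_lit 5041939092), (nat_lit 5282965179), (nat_lit 5356434550), (nat_lit 5545706233), (nat_lit 6678088388), (nat_lit 5500433137), (nat_lit 5186841253), (nat_lit 5248649246)], (nat_lit 1271251), (nat_lit 1271251), (nat_lit 1271251), (nat_lit 1271251), (nat_lit 54688), (nat_lit 2774063), [(nat_lit 1100000), (nat_lit 1785001), (nat_lit 1271251)], [(nat_lit 17), (nat_lit 58), (nat_lit 483), (nat_lit 250), (nat_lit 14)]⟩,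
 ⟨⟨[(nat_lit 140), (nat_lit 160), (nat_lit 180)], [(nat_lit 0), (nat_lit 0), (nat_lit 799)], [((nat_lit 0), (nat_lit 0), (nat_lit 0)), ((nat_lit 0), (nat_lit 0), (nat_lit 0)), ((nat_lit 728), (nat_lit 1000), (nat_lit 454))], ((nat_lit 100), (nat_lit 67), (nat_lit 52))⟩, (nat_lit 24601), (nat_lit 300), (nat_lit 1997), (nat_lit 2077600), (nat_lit 3515168), [(nat_lit 275576000), (nat_lit 332416000), (nat_lit 393624000)], [], [(nat_lit 1762429623), (nat_lit 1721315227), (nat_lit 1721935084), (nat_lit 1677662671), (nat_lit 1405789593), (nat_lit 1555649701), (nat_lit 1370330087), (nat_lit 1323066893)], (nat_lit 780000), (nat_lit 1100000), (nat_lit 1271251), (nat_lit 1271251), (nat_lit 54688), (nat_lit 2774063), [(nat_lit 1977501), (nat_lit 1271251), (nat_lit 1271251)], [(nat_lit 31), (nat_lit 65), (nat_lit 611), (nat_lit 225), (nat_lit 14)]⟩⟩) (.trX (nat_lit 4) (nat_lit 0) (nat_lit 2) (nat_lit 80) (nat_lit 78) (nat_lit 100) (nat_lit 330) (.leaf ⟨(nat_lit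 845), (nat_lit 128), (nat_lit 0), (nat_lit 27), (nat_lit 0), (nat_lit 2936), (nat_lit 1356), (nat_lit 292), (nat_lit 0), (nat_lit 0), (nat_lit 375000), [((nat_lit 330), [((nat_lit 18), (nat_lit 0), (nat_lit 276)), ((nat_lit 18), (nat_lit 1), (nat_lit 177)), ((nat_lit 37), (nat_lit 2), (nat_lit 392))])], ⟨(nat_lit 6), false, true, false, (nat_lit 253), (nat_lit 4183), (nat_lit 4331), [(nat_lit 1543224), (nat_lit 1543330), (nat_lit 1586450), (nat_lit 1586662), (nat_lit 1677460), (nat_lit 1675842), (nat_lit 1720686), (nat_lit 1719174)]⟩, ⟨(nat_lit 7), false, false, true, (nat_lit 244), (nat_lit 4183), (nat_lit 4331), [(nat_lit 1547779), (nat_lit 1545843), (nat_lit 1591006), (nat_lit 1589176), (nat_lit 1631676), (nat_lit 1628662), (nat_lit 1674903), (nat_lit 1671996)]⟩, (nat_lit 5472314), (nat_lit 35979809), (nat_lit 15945107), (nat_lit 15075084), (nat_lit 7), (nat_lit 0), [], [⟨(nat_lit 1), (nat_lit 88), (nat_lit 81), (nat_lit 100), (nat_lit 214991489)⟩],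 [⟨(nat_lit 1), (nat_lit 60), (nat_lit 100), (nat_lit 100), (nat_lit 2495812)⟩], [],
 ⟨⟨[(nat_lit 40), (nat_lit 80), (nat_lit 100)], [(nat_lit 0), (nat_lit 192), (nat_lit 1404)], [((nat_lit 0), (nat_lit 0), (nat_lit 0)), ((nat_lit 1000), (nat_lit 955), (nat_lit 75)), ((nat_lit 1000), (nat_lit 781), (nat_lit 625))], ((nat_lit 79), (nat_lit 100), (nat_lit 48))⟩, (nat_lit 1665), (nat_lit 52), (nat_lit 52), (nat_lit 0), (nat_lit 0), [(nat_lit 1437563869), (nat_lit 99786453508), (nat_lit 2473253200)], [(nat_lit 0), (nat_lit 0), (nat_lit 0)], [(nat_lit 22634218406), (nat_lit 22912032759), (nat_lit 25152815282), (nat_lit 25394110559), (nat_lit 24851021873), (nat_lit 25100240171), (nat_lit 27062809116), (nat_lit 27280401625)], (nat_lit 0), (nat_lit 0), (nat_lit 0), (nat_lit 0), (nat_lit 0), (nat_lit 0), [], [(nat_lit 3), (nat_lit 50), (nat_lit 203), (nat_lit 0), (nat_lit 6)]⟩,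
 ⟨⟨[(nat_lit 80), (nat_lit 120), (nat_lit 140)], [(nat_lit 0), (nat_lit 0), (nat_lit 1164)], [((nat_lit 0), (nat_lit 0), (nat_lit 0)), ((nat_lit 0), (nat_lit 0), (nat_lit 0)), ((nat_lit 941), (nat_lit 1000), (nat_lit 576))], ((nat_lit 100), (nat_lit 98), (nat_lit 48))⟩, (nat_lit 395272), (nat_lit 446), (nat_lit 446), (nat_lit 0), (nat_lit 567532), [(nat_lit 726640000), (nat_lit 1235040000), (nat_lit 1525510000)], [], [(nat_lit 5008203370), (nat_lit 5252416200), (nat_lit 5326824739), (nat_lit 5522286755), (nat_lit 6765389801), (nat_lit 5571891655), (nat_lit 5253112008), (nat_lit 5315873715)], (nat_lit 1271251), (nat_lit 1271251), (nat_lit 1271251), (nat_lit 1271251), (nat_lit 54688), (nat_lit 2774063), [(nat_lit 1100000), (nat_lit 1785001), (nat_lit 1271251)], [(nat_lit 17), (nat_lit 58), (nat_lit 483), (nat_lit 250), (nat_lit 14)]⟩,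
 ⟨⟨[(nat_lit 140), (nat_lit 160), (nat_lit 180)], [(nat_lit 0), (nat_lit 0), (nat_lit 799)], [((nat_lit 0), (nat_lit 0), (nat_lit 0)), ((nat_lit 0), (nat_lit 0), (nat_lit 0)), ((nat_lit 728), (nat_lit 1000), (nat_lit 454))], ((nat_lit 100), (nat_lit 67), (nat_lit 52))⟩, (nat_lit 25940), (nat_lit 300), (nat_lit 2168), (nat_lit 2003400), (nat_lit 3847072), [(nat_lit 265734000), (nat_lit 320544000), (nat_lit 379566000)], [], [(nat_lit 1693897142), (nat_lit 1655016716), (nat_lit 1657543567), (nat_lit 1618688388), (nat_lit 1354388243), (nat_lit 1500317650), (nat_lit 1317909943), (nat_lit 1280103118)], (nat_lit 780000), (nat_lit 1100000), (nat_lit 1271251), (nat_lit 1271251), (nat_lit 54688), (nat_lit 2774063), [(nat_lit 1977501), (nat_lit 1271251), (nat_lit 1271251)], [(nat_lit 31), (nat_lit 65), (nat_lit 652), (nat_lit 225), (nat_lit 15)]⟩⟩)))))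
noncomputable def c11_53 : Tr Lf :=
 (.trX (nat_lit 5) (nat_lit 1) (nat_lit 2) (nat_lit 94) (nat_lit 59) (nat_lit 100) (nat_lit 370) (.stt (nat_lit 2) (.spl (nat_lit 2) (nat_lit 140) (.trX (nat_lit 4) (nat_lit 0) (nat_lit 2) (nat_lit 84) (nat_lit 85) (nat_lit 100) (nat_lit 320) (.trX (nat_lit 5) (nat_lit 1) (nat_lit 2) (nat_lit 96) (nat_lit 69) (nat_lit 100) (nat_lit 360) (.leaf ⟨(nat_lit 0), (nat_lit 1000), (nat_lit 0), (nat_lit 0), (nat_lit 0), (nat_lit 6247), (nat_lit 7780), (nat_lit 0), (nat_lit 0), (nat_lit 0), (nat_lit 0), [], Pd.none, Pd.none, (nat_lit 0), (nat_lit 1), (nat_lit 0), (nat_lit 0), (nat_lit 7), (nat_lit 0), [], [⟨(nat_lit 1), (nat_lit 85), (nat_lit 84), (nat_lit 100), (nat_lit 440177565)⟩], [], [⟨(nat_lit 2), (nat_lit 50), (nat_lit 87), (nat_lit 100), (nat_lit 282261949)⟩],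
 ⟨⟨[(nat_lit 40), (nat_lit 80), (nat_lit 100)], [(nat_lit 0), (nat_lit 0), (nat_lit 1280)], [((nat_lit 0), (nat_lit 0), (nat_lit 0)), ((nat_lit 0), (nat_lit 0), (nat_lit 0)), ((nat_lit 1000), (nat_lit 800), (nat_lit 600))], ((nat_lit 81), (nat_lit 100), (nat_lit 48))⟩, (nat_lit 0), (nat_lit 59), (nat_lit 59), (nat_lit 0), (nat_lit 0), [(nat_lit 2529818461), (nat_lit 4688000001), (nat_lit 6250000000)], [], [(nat_lit 23002951224), (nat_lit 23833857551), (nat_lit 26673481589), (nat_lit 27397098798), (nat_lit 25416673830), (nat_lit 26295916560), (nat_lit 28680857504), (nat_lit 29332148377)], (nat_lit 0), (nat_lit 0), (nat_lit 0), (nat_lit 0), (nat_lit 0), (nat_lit 0), [], [(nat_lit 3), (nat_lit 50), (nat_lit 289), (nat_lit 75), (nat_lit 9)]⟩,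
 ⟨⟨[(nat_lit 60), (nat_lit 100), (nat_lit 120)], [(nat_lit 0), (nat_lit 0), (nat_lit 1164)], [((nat_lit 0), (nat_lit 0), (nat_lit 0)), ((nat_lit 0), (nat_lit 0), (nat_lit 0)), ((nat_lit 1000), (nat_lit 933), (nat_lit 572))], ((nat_lit 92), (nat_lit 100), (nat_lit 48))⟩, (nat_lit 2377992), (nat_lit 155), (nat_lit 155), (nat_lit 0), (nat_lit 0), [(nat_lit 3282000000), (nat_lit 6250000000), (nat_lit 7968000000)], [], [(nat_lit 21234940392), (nat_lit 25435355392), (nat_lit 27624486612), (nat_lit 30569289640), (nat_lit 27990389280), (nat_lit 30705027780), (nat_lit 30832969760), (nat_lit 32705070040)], (nat_lit 0), (nat_lit 0), (nat_lit 0), (nat_lit 0), (nat_lit 0), (nat_lit 0), [], [(nat_lit 10), (nat_lit 54), (nat_lit 401), (nat_lit 175), (nat_lit 13)]⟩,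
 Rw.none⟩))) (.leaf ⟨(nat_lit 0), (nat_lit 952), (nat_lit 0), (nat_lit 48), (nat_lit 0), (nat_lit 6035), (nat_lit 7193), (nat_lit 501), (nat_lit 0), (nat_lit 0), (nat_lit 0), [], Pd.none, Pd.none, (nat_lit 0), (nat_lit 1), (nat_lit 0), (nat_lit 0), (nat_lit 7), (nat_lit 0), [⟨(nat_lit 0), (nat_lit 93), (nat_lit 84), (nat_lit 100), (nat_lit 154944142)⟩], [⟨(nat_lit 1), (nat_lit 83), (nat_lit 81), (nat_lit 100), (nat_lit 272351918)⟩, ⟨(nat_lit 1), (nat_lit 76), (nat_lit 82), (nat_lit 100), (nat_lit 147999108)⟩], [], [⟨(nat_lit 2), (nat_lit 55), (nat_lit 84), (nat_lit 100), (nat_lit 242829267)⟩],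
 ⟨⟨[(nat_lit 40), (nat_lit 80), (nat_lit 100)], [(nat_lit 0), (nat_lit 0), (nat_lit 1280)], [((nat_lit 0), (nat_lit 0), (nat_lit 0)), ((nat_lit 0), (nat_lit 0), (nat_lit 0)), ((nat_lit 1000), (nat_lit 800), (nat_lit 600))], ((nat_lit 81), (nat_lit 100), (nat_lit 48))⟩, (nat_lit 0), (nat_lit 68), (nat_lit 68), (nat_lit 0), (nat_lit 0), [(nat_lit 2400321814), (nat_lit 4688000083), (nat_lit 6250000000)], [], [(nat_lit 23128241398), (nat_lit 23942080479), (nat_lit 26735356898), (nat_lit 27340901557), (nat_lit 26966775428), (nat_lit 27777462357), (nat_lit 29811030250), (nat_lit 30414660284)], (nat_lit 0), (nat_lit 0), (nat_lit 0), (nat_lit 0), (nat_lit 0), (nat_lit 0), [], [(nat_lit 3), (nat_lit 50), (nat_lit 289), (nat_lit 75), (nat_lit 9)]⟩,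
 ⟨⟨[(nat_lit 60), (nat_lit 100), (nat_lit 120)], [(nat_lit 0), (nat_lit 0), (nat_lit 1164)], [((nat_lit 0), (nat_lit 0), (nat_lit 0)), ((nat_lit 0), (nat_lit 0), (nat_lit 0)), ((nat_lit 1000), (nat_lit 933), (nat_lit 572))], ((nat_lit 92), (nat_lit 100), (nat_lit 48))⟩, (nat_lit 2364532), (nat_lit 155), (nat_lit 155), (nat_lit 0), (nat_lit 0), [(nat_lit 3282000000), (nat_lit 6250000000), (nat_lit 7968000000)], [], [(nat_lit 21267932550), (nat_lit 25261048500), (nat_lit 27515484057), (nat_lit 30282839558), (nat_lit 29023225620), (nat_lit 30987271440), (nat_lit 31134352648), (nat_lit 32866167511)], (nat_lit 0), (nat_lit 0), (nat_lit 0), (nat_lit 0), (nat_lit 0), (nat_lit 0), [], [(nat_lit 10), (nat_lit 54), (nat_lit 401), (nat_lit 175), (nat_lit 13)]⟩,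
 ⟨⟨[(nat_lit 140), (nat_lit 160), (nat_lit 180)], [(nat_lit 0), (nat_lit 304), (nat_lit 1085)], [((nat_lit 0), (nat_lit 0), (nat_lit 0)), ((nat_lit 913), (nat_lit 1000), (nat_lit 217)), ((nat_lit 759), (nat_lit 1000), (nat_lit 463))], ((nat_lit 100), (nat_lit 73), (nat_lit 50))⟩, (nat_lit 98527), (nat_lit 300), (nat_lit 2243), (nat_lit 3374400), (nat_lit 4001737), [(nat_lit 472416000), (nat_lit 569856000), (nat_lit 674784000)], [], [(nat_lit 2880379430), (nat_lit 2847633281), (nat_lit 2848900313), (nat_lit 2810338749), (nat_lit 2381333974), (nat_lit 2525856062), (nat_lit 2247288693), (nat_lit 2208933581)], (nat_lit 936250), (nat_lit 1100000), (nat_lit 1271251), (nat_lit 1271251), (nat_lit 0), (nat_lit 2613125), [(nat_lit 1977501), (nat_lit 1271251), (nat_lit 1271251)], [(nat_lit 31), (nat_lit 65), (nat_lit 670), (nat_lit 225), (nat_lit 15)]⟩⟩)) (.spl (nat_lit 5) (nat_lit 120) (.spl (nat_lit 0) (nat_lit 325) (.leaf ⟨(nat_lit 148), (nat_lit 758),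 (nat_lit 0), (nat_lit 94), (nat_lit 0), (nat_lit 4851), (nat_lit 5850), (nat_lit 1185), (nat_lit 0), (nat_lit 0), (nat_lit 592000), [((nat_lit 325), [((nat_lit 37), (nat_lit 5), (nat_lit 148))])], ⟨(nat_lit 7), false, false, false, (nat_lit 243), (nat_lit 4330), (nat_lit 4473), [(nat_lit 1450305), (nat_lit 1452215), (nat_lit 1493436), (nat_lit 1495440), (nat_lit 1722218), (nat_lit 1720686), (nat_lit 1765350), (nat_lit 1763911)]⟩, ⟨(nat_lit 7), false, false, true, (nat_lit 248), (nat_lit 4330), (nat_lit 4473), [(nat_lit 1549689), (nat_lit 1547779), (nat_lit 1592822), (nat_lit 1591006), (nat_lit 1651656), (nat_lit 1648456), (nat_lit 1694789), (nat_lit 1691683)]⟩, (nat_lit 5450297), (nat_lit 36295819), (nat_lit 15088147), (nat_lit 15616034), (nat_lit 7), (nat_lit 0), [⟨(nat_lit 0), (nat_lit 83), (nat_lit 81), (nat_lit 100), (nat_lit 163730179)⟩], [⟨(nat_lit 1), (nat_lit 76), (nat_lit 82), (nat_lit 100), (nat_lit 490938302)⟩], [], [],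
 ⟨⟨[(nat_lit 40), (nat_lit 80), (nat_lit 100)], [(nat_lit 0), (nat_lit 0), (nat_lit 1280)], [((nat_lit 0), (nat_lit 0), (nat_lit 0)), ((nat_lit 0), (nat_lit 0), (nat_lit 0)), ((nat_lit 1000), (nat_lit 800), (nat_lit 600))], ((nat_lit 81), (nat_lit 100), (nat_lit 48))⟩, (nat_lit 225116), (nat_lit 66), (nat_lit 66), (nat_lit 0), (nat_lit 0), [(nat_lit 2448882180), (nat_lit 3267404738), (nat_lit 3570268062)], [(nat_lit 0), (nat_lit 0), (nat_lit 0)], [(nat_lit 22511161397), (nat_lit 22849468279), (nat_lit 26078980395), (nat_lit 26336094381), (nat_lit 25850980755), (nat_lit 26160053024), (nat_lit 28848142250), (nat_lit 29119549039)], (nat_lit 0), (nat_lit 0), (nat_lit 0), (nat_lit 0), (nat_lit 0), (nat_lit 0), [], [(nat_lit 3), (nat_lit 50), (nat_lit 289), (nat_lit 75), (nat_lit 9)]⟩,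
 ⟨⟨[(nat_lit 60), (nat_lit 100), (nat_lit 120)], [(nat_lit 0), (nat_lit 0), (nat_lit 1164)], [((nat_lit 0), (nat_lit 0), (nat_lit 0)), ((nat_lit 0), (nat_lit 0), (nat_lit 0)), ((nat_lit 1000), (nat_lit 933), (nat_lit 572))], ((nat_lit 92), (nat_lit 100), (nat_lit 48))⟩, (nat_lit 3075179), (nat_lit 432), (nat_lit 432), (nat_lit 0), (nat_lit 620901), [(nat_lit 2796264000), (nat_lit 5325000000), (nat_lit 6788736000)], [], [(nat_lit 24577713960), (nat_lit 26232391596), (nat_lit 27981208812), (nat_lit 29019518196), (nat_lit 22531041522), (nat_lit 23973157596), (nat_lit 32814803487), (nat_lit 27549104412)], (nat_lit 1271251), (nat_lit 1271251), (nat_lit 780000), (nat_lit 2090001), (nat_lit 0), (nat_lit 780000), [(nat_lit 780000), (nat_lit 1435001), (nat_lit 1271251)], [(nat_lit 10), (nat_lit 54), (nat_lit 317), (nat_lit 100), (nat_lit 10)]⟩,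
 ⟨⟨[(nat_lit 140), (nat_lit 160), (nat_lit 180)], [(nat_lit 0), (nat_lit 0), (nat_lit 799)], [((nat_lit 0), (nat_lit 0), (nat_lit 0)), ((nat_lit 0), (nat_lit 0), (nat_lit 0)), ((nat_lit 728), (nat_lit 1000), (nat_lit 454))], ((nat_lit 100), (nat_lit 67), (nat_lit 52))⟩, (nat_lit 732115), (nat_lit 300), (nat_lit 1865), (nat_lit 6974800), (nat_lit 3240235), [(nat_lit 925148000), (nat_lit 1115968000), (nat_lit 1321452000)], [], [(nat_lit 5367021156), (nat_lit 5195582544), (nat_lit 5439511185), (nat_lit 5256930079), (nat_lit 4436552961), (nat_lit 4270010249), (nat_lit 4489727966), (nat_lit 4317049208)], (nat_lit 780000), (nat_lit 1100000), (nat_lit 1271251), (nat_lit 1271251), (nat_lit 0), (nat_lit 780000), [(nat_lit 1977501), (nat_lit 1271251), (nat_lit 1271251)], [(nat_lit 31), (nat_lit 65), (nat_lit 544), (nat_lit 175), (nat_lit 12)]⟩⟩) (.trX (nat_lit 4) (nat_lit 0) (nat_lit 2) (nat_lit 80) (nat_lit 78) (nat_lit 100) (nat_lit 330) (.leaf ⟨(nat_lit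 71), (nat_lit 811), (nat_lit 0), (nat_lit 118), (nat_lit 0), (nat_lit 4399), (nat_lit 8384), (nat_lit 1572), (nat_lit 0), (nat_lit 0), (nat_lit 284000), [((nat_lit 330), [((nat_lit 37), (nat_lit 5), (nat_lit 71))])], ⟨(nat_lit 7), false, false, false, (nat_lit 243), (nat_lit 4183), (nat_lit 4331), [(nat_lit 1452214), (nat_lit 1454150), (nat_lit 1495439), (nat_lit 1497481), (nat_lit 1720686), (nat_lit 1719174), (nat_lit 1763911), (nat_lit 1762506)]⟩, ⟨(nat_lit 7), false, false, true, (nat_lit 244), (nat_lit 4183), (nat_lit 4331), [(nat_lit 1547779), (nat_lit 1545843), (nat_lit 1591006), (nat_lit 1589176), (nat_lit 1631676), (nat_lit 1628662), (nat_lit 1674903), (nat_lit 1671996)]⟩, (nat_lit 5431377), (nat_lit 36559410), (nat_lit 15181159), (nat_lit 15259431), (nat_lit 7), (nat_lit 0), [⟨(nat_lit 0), (nat_lit 92), (nat_lit 82), (nat_lit 100), (nat_lit 177287654)⟩], [⟨(nat_lit 1), (nat_lit 88), (nat_lit 81), (nat_lit 100), (nat_lit 470313400)⟩], [],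 [],
 ⟨⟨[(nat_lit 40), (nat_lit 80), (nat_lit 100)], [(nat_lit 0), (nat_lit 192), (nat_lit 1404)], [((nat_lit 0), (nat_lit 0), (nat_lit 0)), ((nat_lit 1000), (nat_lit 955), (nat_lit 75)), ((nat_lit 1000), (nat_lit 781), (nat_lit 625))], ((nat_lit 79), (nat_lit 100), (nat_lit 48))⟩, (nat_lit 7146918), (nat_lit 64), (nat_lit 64), (nat_lit 0), (nat_lit 0), [(nat_lit 2055309721), (nat_lit 4024811274), (nat_lit 4932296800)], [(nat_lit 0), (nat_lit 0), (nat_lit 0)], [(nat_lit 22425490239), (nat_lit 22746955967), (nat_lit 25995607986), (nat_lit 26255192062), (nat_lit 25034954921), (nat_lit 25336911160), (nat_lit 28199889891), (nat_lit 28466643172)], (nat_lit 0), (nat_lit 0), (nat_lit 0), (nat_lit 0), (nat_lit 0), (nat_lit 0), [], [(nat_lit 3), (nat_lit 50), (nat_lit 289), (nat_lit 75), (nat_lit 9)]⟩,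
 ⟨⟨[(nat_lit 60), (nat_lit 100), (nat_lit 120)], [(nat_lit 0), (nat_lit 0), (nat_lit 1164)], [((nat_lit 0), (nat_lit 0), (nat_lit 0)), ((nat_lit 0), (nat_lit 0), (nat_lit 0)), ((nat_lit 1000), (nat_lit 933), (nat_lit 572))], ((nat_lit 92), (nat_lit 100), (nat_lit 48))⟩, (nat_lit 2138774), (nat_lit 445), (nat_lit 445), (nat_lit 0), (nat_lit 655667), [(nat_lit 3048978000), (nat_lit 5806250000), (nat_lit 7402272000)], [], [(nat_lit 25500104584), (nat_lit 26374344836), (nat_lit 27862477808), (nat_lit 30423851036), (nat_lit 20401486732), (nat_lit 22127351306), (nat_lit 33878594320), (nat_lit 26331992432)], (nat_lit 1271251), (nat_lit 1271251), (nat_lit 780000), (nat_lit 2090001), (nat_lit 0), (nat_lit 780000), [(nat_lit 780000), (nat_lit 1435001), (nat_lit 1271251)], [(nat_lit 10), (nat_lit 54), (nat_lit 317), (nat_lit 100), (nat_lit 10)]⟩,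
 ⟨⟨[(nat_lit 140), (nat_lit 160), (nat_lit 180)], [(nat_lit 0), (nat_lit 0), (nat_lit 799)], [((nat_lit 0), (nat_lit 0), (nat_lit 0)), ((nat_lit 0), (nat_lit 0), (nat_lit 0)), ((nat_lit 728), (nat_lit 1000), (nat_lit 454))], ((nat_lit 100), (nat_lit 67), (nat_lit 52))⟩, (nat_lit 103676), (nat_lit 300), (nat_lit 1959), (nat_lit 8755600), (nat_lit 3436569), [(nat_lit 1161356000), (nat_lit 1400896000), (nat_lit 1658844000)], [], [(nat_lit 6618108168), (nat_lit 6386484576), (nat_lit 6675770521), (nat_lit 6442386054), (nat_lit 5367906442), (nat_lit 5148576680), (nat_lit 5410495510), (nat_lit 5180157868)], (nat_lit 780000), (nat_lit 1100000), (nat_lit 1271251), (nat_lit 1271251), (nat_lit 0), (nat_lit 780000), [(nat_lit 1977501), (nat_lit 1271251), (nat_lit 1271251)], [(nat_lit 31), (nat_lit 65), (nat_lit 566), (nat_lit 175), (nat_lit 13)]⟩⟩))) (.spl (nat_lit 1) (nat_lit 300) (.spl (nat_lit 5) (nat_lit 240) (.leaf ⟨(nat_lit 0), (nat_lit 856), (nat_lit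 0), (nat_lit 144), (nat_lit 0), (nat_lit 5941), (nat_lit 6578), (nat_lit 1637), (nat_lit 0), (nat_lit 0), (nat_lit 0), [], Pd.none, Pd.none, (nat_lit 0), (nat_lit 1), (nat_lit 0), (nat_lit 0), (nat_lit 7), (nat_lit 0), [], [⟨(nat_lit 1), (nat_lit 87), (nat_lit 82), (nat_lit 100), (nat_lit 486243590)⟩], [], [],
 ⟨⟨[(nat_lit 40), (nat_lit 80), (nat_lit 100)], [(nat_lit 0), (nat_lit 0), (nat_lit 1280)], [((nat_lit 0), (nat_lit 0), (nat_lit 0)), ((nat_lit 0), (nat_lit 0), (nat_lit 0)), ((nat_lit 1000), (nat_lit 800), (nat_lit 600))], ((nat_lit 81), (nat_lit 100), (nat_lit 48))⟩, (nat_lit 375289), (nat_lit 68), (nat_lit 68), (nat_lit 0), (nat_lit 0), [(nat_lit 2523487076), (nat_lit 4688000052), (nat_lit 6250000000)], [], [(nat_lit 23183794521), (nat_lit 23990066050), (nat_lit 26794886221), (nat_lit 27395467926), (nat_lit 26990974099), (nat_lit 27677953830), (nat_lit 29734584750), (nat_lit 30333386451)], (nat_lit 0), (nat_lit 0), (nat_lit 0), (nat_lit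 0), (nat_lit 0), (nat_lit 0), [], [(nat_lit 3), (nat_lit 50), (nat_lit 289), (nat_lit 75), (nat_lit 9)]⟩,
 ⟨⟨[(nat_lit 60), (nat_lit 100), (nat_lit 120)], [(nat_lit 0), (nat_lit 0), (nat_lit 1164)], [((nat_lit 0), (nat_lit 0), (nat_lit 0)), ((nat_lit 0), (nat_lit 0), (nat_lit 0)), ((nat_lit 1000), (nat_lit 933), (nat_lit 572))], ((nat_lit 92), (nat_lit 100), (nat_lit 48))⟩, (nat_lit 5971910), (nat_lit 318), (nat_lit 318), (nat_lit 0), (nat_lit 600777), [(nat_lit 3282000000), (nat_lit 6250000000), (nat_lit 7968000000)], [], [(nat_lit 21761164960), (nat_lit 23010232709), (nat_lit 27965109091), (nat_lit 27115560893), (nat_lit 24274078432), (nat_lit 25261575944), (nat_lit 39826553036), (nat_lit 36904283114)], (nat_lit 1271251), (nat_lit 1271251), (nat_lit 780000), (nat_lit 2090001), (nat_lit 780000), (nat_lit 1762501), [(nat_lit 780000), (nat_lit 1435001), (nat_lit 1271251)], [(nat_lit 10), (nat_lit 54), (nat_lit 373), (nat_lit 150), (nat_lit 12)]⟩,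
 ⟨⟨[(nat_lit 140), (nat_lit 160), (nat_lit 180)], [(nat_lit 0), (nat_lit 0), (nat_lit 799)], [((nat_lit 0), (nat_lit 0), (nat_lit 0)), ((nat_lit 0), (nat_lit 0), (nat_lit 0)), ((nat_lit 728), (nat_lit 1000), (nat_lit 454))], ((nat_lit 100), (nat_lit 67), (nat_lit 52))⟩, (nat_lit 1325156), (nat_lit 300), (nat_lit 1609), (nat_lit 10684800), (nat_lit 2871119), [(nat_lit 1417248000), (nat_lit 1709568000), (nat_lit 2024352000)], [], [(nat_lit 7521652023), (nat_lit 7278026228), (nat_lit 7440577988), (nat_lit 7196394540), (nat_lit 6892056212), (nat_lit 6653168610), (nat_lit 6827968791), (nat_lit 6581611935)], (nat_lit 780000), (nat_lit 1100000), (nat_lit 1271251), (nat_lit 1271251), (nat_lit 780000), (nat_lit 1762501), [(nat_lit 1977501), (nat_lit 1271251), (nat_lit 1271251)], [(nat_lit 31), (nat_lit 65), (nat_lit 495), (nat_lit 200), (nat_lit 11)]⟩⟩) (.leaf ⟨(nat_lit 399), (nat_lit 505), (nat_lit 0), (nat_lit 96), (nat_lit 0), (nat_lit 4169), (nat_lit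 4810), (nat_lit 1035), (nat_lit 0), (nat_lit 0), (nat_lit 1596000), [((nat_lit 330), [((nat_lit 37), (nat_lit 5), (nat_lit 399))])], ⟨(nat_lit 7), false, false, false, (nat_lit 239), (nat_lit 4183), (nat_lit 4473), [(nat_lit 1450291), (nat_lit 1454137), (nat_lit 1471853), (nat_lit 1475800), (nat_lit 1722208), (nat_lit 1719164), (nat_lit 1743770), (nat_lit 1740826)]⟩, ⟨(nat_lit 7), false, false, true, (nat_lit 248), (nat_lit 4183), (nat_lit 4473), [(nat_lit 1549689), (nat_lit 1545843), (nat_lit 1592822), (nat_lit 1589176), (nat_lit 1651656), (nat_lit 1645226), (nat_lit 1694789), (nat_lit 1688560)]⟩, (nat_lit 5427950), (nat_lit 36588915), (nat_lit 14751273), (nat_lit 15659812), (nat_lit 7), (nat_lit 0), [⟨(nat_lit 0), (nat_lit 92), (nat_lit 81), (nat_lit 100), (nat_lit 3290930)⟩], [⟨(nat_lit 1), (nat_lit 87), (nat_lit 82), (nat_lit 100), (nat_lit 235836681)⟩], [⟨(nat_lit 1), (nat_lit 73), (nat_lit 94), (nat_lit 100), (nat_lit 35921449)⟩], [⟨(nat_lit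 2), (nat_lit 94), (nat_lit 92), (nat_lit 100), (nat_lit 172888831)⟩],
 ⟨⟨[(nat_lit 40), (nat_lit 80), (nat_lit 100)], [(nat_lit 0), (nat_lit 0), (nat_lit 1280)], [((nat_lit 0), (nat_lit 0), (nat_lit 0)), ((nat_lit 0), (nat_lit 0), (nat_lit 0)), ((nat_lit 1000), (nat_lit 800), (nat_lit 600))], ((nat_lit 81), (nat_lit 100), (nat_lit 48))⟩, (nat_lit 17758), (nat_lit 68), (nat_lit 68), (nat_lit 0), (nat_lit 0), [(nat_lit 2183533853), (nat_lit 1661201351), (nat_lit 0)], [(nat_lit 0), (nat_lit 0), (nat_lit 1155120800)], [(nat_lit 21546786305), (nat_lit 22173358910), (nat_lit 25504841403), (nat_lit 26091931415), (nat_lit 25130001040), (nat_lit 25793925349), (nat_lit 28293505750), (nat_lit 28801288228)], (nat_lit 0), (nat_lit 0), (nat_lit 0), (nat_lit 0), (nat_lit 0), (nat_lit 0), [], [(nat_lit 3), (nat_lit 50), (nat_lit 289), (nat_lit 75), (nat_lit 9)]⟩,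
 ⟨⟨[(nat_lit 60), (nat_lit 100), (nat_lit 120)], [(nat_lit 0), (nat_lit 0), (nat_lit 1164)], [((nat_lit 0), (nat_lit 0), (nat_lit 0)), ((nat_lit 0), (nat_lit 0), (nat_lit 0)), ((nat_lit 1000), (nat_lit 933), (nat_lit 572))], ((nat_lit 92), (nat_lit 100), (nat_lit 48))⟩, (nat_lit 1420734), (nat_lit 324), (nat_lit 324), (nat_lit 0), (nat_lit 600777), [(nat_lit 1972482000), (nat_lit 3756250000), (nat_lit 4788768000)], [], [(nat_lit 14459474971), (nat_lit 15017826621), (nat_lit 15806780639), (nat_lit 16188111990), (nat_lit 18082927885), (nat_lit 18438166973), (nat_lit 19145617190), (nat_lit 19688182419)], (nat_lit 1271251), (nat_lit 1271251), (nat_lit 780000), (nat_lit 2090001), (nat_lit 1271251), (nat_lit 1271251), [(nat_lit 780000), (nat_lit 1435001), (nat_lit 1271251)], [(nat_lit 10), (nat_lit 54), (nat_lit 289), (nat_lit 75), (nat_lit 8)]⟩,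
 ⟨⟨[(nat_lit 140), (nat_lit 160), (nat_lit 180)], [(nat_lit 0), (nat_lit 0), (nat_lit 799)], [((nat_lit 0), (nat_lit 0), (nat_lit 0)), ((nat_lit 0), (nat_lit 0), (nat_lit 0)), ((nat_lit 728), (nat_lit 1000), (nat_lit 454))], ((nat_lit 100), (nat_lit 67), (nat_lit 52))⟩, (nat_lit 117136), (nat_lit 300), (nat_lit 1550), (nat_lit 7123200), (nat_lit 2871119), [(nat_lit 944832000), (nat_lit 1139712000), (nat_lit 1349568000)], [], [(nat_lit 4986724482), (nat_lit 4837936632), (nat_lit 4851458850), (nat_lit 4701345027), (nat_lit 4747185082), (nat_lit 4588924925), (nat_lit 4680968712), (nat_lit 4519159880)], (nat_lit 780000), (nat_lit 1100000), (nat_lit 1271251), (nat_lit 1271251), (nat_lit 1271251), (nat_lit 1271251), [(nat_lit 1977501), (nat_lit 1271251), (nat_lit 1271251)], [(nat_lit 31), (nat_lit 65), (nat_lit 497), (nat_lit 225), (nat_lit 11)]⟩⟩)) (.trX (nat_lit 5) (nat_lit 1) (nat_lit 2) (nat_lit 88) (nat_lit 68) (nat_lit 100) (nat_lit 350) (.leaf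 ⟨(nat_lit 89), (nat_lit 808), (nat_lit 0), (nat_lit 103), (nat_lit 0), (nat_lit 5261), (nat_lit 4987), (nat_lit 1123), (nat_lit 0), (nat_lit 0), (nat_lit 356000), [((nat_lit 330), [((nat_lit 37), (nat_lit 5), (nat_lit 89))])], ⟨(nat_lit 7), false, false, false, (nat_lit 248), (nat_lit 4183), (nat_lit 4473), [(nat_lit 1471853), (nat_lit 1475800), (nat_lit 1493417), (nat_lit 1497463), (nat_lit 1743770), (nat_lit 1740826), (nat_lit 1765332), (nat_lit 1762489)]⟩, ⟨(nat_lit 7), false, false, true, (nat_lit 248), (nat_lit 4183), (nat_lit 4473), [(nat_lit 1549689), (nat_lit 1545843), (nat_lit 1592822), (nat_lit 1589176), (nat_lit 1651656), (nat_lit 1645226), (nat_lit 1694789), (nat_lit 1688560)]⟩, (nat_lit 5467704), (nat_lit 36060170), (nat_lit 15452670), (nat_lit 15487160), (nat_lit 7), (nat_lit 0), [⟨(nat_lit 0), (nat_lit 82), (nat_lit 78), (nat_lit 100), (nat_lit 13888553)⟩], [⟨(nat_lit 1), (nat_lit 87), (nat_lit 82), (nat_lit 100), (nat_lit 496769851)⟩],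 [⟨(nat_lit 1), (nat_lit 81), (nat_lit 88), (nat_lit 100), (nat_lit 100870557)⟩], [],
 ⟨⟨[(nat_lit 40), (nat_lit 80), (nat_lit 100)], [(nat_lit 0), (nat_lit 0), (nat_lit 1280)], [((nat_lit 0), (nat_lit 0), (nat_lit 0)), ((nat_lit 0), (nat_lit 0), (nat_lit 0)), ((nat_lit 1000), (nat_lit 800), (nat_lit 600))], ((nat_lit 81), (nat_lit 100), (nat_lit 48))⟩, (nat_lit 0), (nat_lit 68), (nat_lit 68), (nat_lit 0), (nat_lit 0), [(nat_lit 2368311381), (nat_lit 3833279605), (nat_lit 4623435795)], [(nat_lit 0), (nat_lit 0), (nat_lit 0)], [(nat_lit 22730947954), (nat_lit 23482475488), (nat_lit 26370803654), (nat_lit 26935483144), (nat_lit 26311308092), (nat_lit 26954720775), (nat_lit 29181574750), (nat_lit 29745448081)], (nat_lit 0), (nat_lit 0), (nat_lit 0), (nat_lit 0), (nat_lit 0), (nat_lit 0), [], [(nat_lit 3), (nat_lit 50), (nat_lit 289), (nat_lit 75), (nat_lit 9)]⟩,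
 ⟨⟨[(nat_lit 60), (nat_lit 80), (nat_lit 100)], [(nat_lit 0), (nat_lit 304), (nat_lit 825)], [((nat_lit 0), (nat_lit 0), (nat_lit 0)), ((nat_lit 1000), (nat_lit 905), (nat_lit 238)), ((nat_lit 1000), (nat_lit 871), (nat_lit 407))], ((nat_lit 87), (nat_lit 100), (nat_lit 48))⟩, (nat_lit 4570856), (nat_lit 304), (nat_lit 304), (nat_lit 0), (nat_lit 644943), [(nat_lit 2989902000), (nat_lit 4270768000), (nat_lit 5693750000)], [], [(nat_lit 24026836423), (nat_lit 21408671397), (nat_lit 21465461446), (nat_lit 22190311908), (nat_lit 24142008774), (nat_lit 24804368883), (nat_lit 34437591954), (nat_lit 32242732838)], (nat_lit 1271251), (nat_lit 1271251), (nat_lit 780000), (nat_lit 2090001), (nat_lit 780000), (nat_lit 2663126), [(nat_lit 780000), (nat_lit 1100000), (nat_lit 1442501)], [(nat_lit 9), (nat_lit 50), (nat_lit 401), (nat_lit 175), (nat_lit 15)]⟩,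
 ⟨⟨[(nat_lit 140), (nat_lit 160), (nat_lit 180)], [(nat_lit 0), (nat_lit 0), (nat_lit 799)], [((nat_lit 0), (nat_lit 0), (nat_lit 0)), ((nat_lit 0), (nat_lit 0), (nat_lit 0)), ((nat_lit 728), (nat_lit 1000), (nat_lit 454))], ((nat_lit 100), (nat_lit 67), (nat_lit 52))⟩, (nat_lit 90496), (nat_lit 300), (nat_lit 1889), (nat_lit 7642600), (nat_lit 3436569), [(nat_lit 1013726000), (nat_lit 1222816000), (nat_lit 1447974000)], [], [(nat_lit 5698248508), (nat_lit 5543812690), (nat_lit 5563069648), (nat_lit 5394192266), (nat_lit 5037074576), (nat_lit 4866742826), (nat_lit 4969667013), (nat_lit 4795278934)], (nat_lit 780000), (nat_lit 1100000), (nat_lit 1271251), (nat_lit 1271251), (nat_lit 780000), (nat_lit 2663126), [(nat_lit 1977501), (nat_lit 1271251), (nat_lit 1271251)], [(nat_lit 31), (nat_lit 65), (nat_lit 579), (nat_lit 225), (nat_lit 13)]⟩⟩))))))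
noncomputable def c11_54 : Tr Lf :=
 (.spl (nat_lit 3) (nat_lit 200) (.trX (nat_lit 5) (nat_lit 4) (nat_lit 3) (nat_lit 92) (nat_lit 40) (nat_lit 100) (nat_lit 390) (.stt (nat_lit 2) (.spl (nat_lit 1) (nat_lit 260) (.leaf ⟨(nat_lit 363), (nat_lit 428), (nat_lit 0), (nat_lit 209), (nat_lit 0), (nat_lit 3907), (nat_lit 5968), (nat_lit 2185), (nat_lit 0), (nat_lit 0), (nat_lit 1452000), [((nat_lit 330), [((nat_lit 37), (nat_lit 5), (nat_lit 363))])], ⟨(nat_lit 6), true, false, false, (nat_lit 195), (nat_lit 4183), (nat_lit 4473), [(nat_lit 1407167), (nat_lit 1410812), (nat_lit 1428729), (nat_lit 1432475), (nat_lit 1543125), (nat_lit 1543325), (nat_lit 1564687), (nat_lit 1564988)]⟩, ⟨(nat_lit 7), false, false, true, (nat_lit 264), (nat_lit 4183), (nat_lit 4473), [(nat_lit 1592822), (nat_lit 1589176), (nat_lit 1614388), (nat_lit 1610843), (nat_lit 1711784), (nat_lit 1705124), (nat_lit 1733350), (nat_lit 1726790)]⟩, (nat_lit 5232653), (nat_lit 38108279),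 (nat_lit 10972088), (nat_lit 17919633), (nat_lit 7), (nat_lit 0), [], [⟨(nat_lit 1), (nat_lit 74), (nat_lit 79), (nat_lit 100), (nat_lit 278504475)⟩], [], [],
 ⟨⟨[(nat_lit 40), (nat_lit 80), (nat_lit 100)], [(nat_lit 0), (nat_lit 0), (nat_lit 1280)], [((nat_lit 0), (nat_lit 0), (nat_lit 0)), ((nat_lit 0), (nat_lit 0), (nat_lit 0)), ((nat_lit 1000), (nat_lit 800), (nat_lit 600))], ((nat_lit 81), (nat_lit 100), (nat_lit 48))⟩, (nat_lit 66074), (nat_lit 73), (nat_lit 73), (nat_lit 0), (nat_lit 0), [(nat_lit 2165425209), (nat_lit 1924657193), (nat_lit 0)], [(nat_lit 0), (nat_lit 0), (nat_lit 486989600)], [(nat_lit 22140638305), (nat_lit 22746906722), (nat_lit 23399573149), (nat_lit 23940312597), (nat_lit 25661198556), (nat_lit 26176470183), (nat_lit 26580069809), (nat_lit 27086464281)], (nat_lit 0), (nat_lit 0), (nat_lit 0), (nat_lit 0), (nat_lit 0), (nat_lit 0), [], [(nat_lit 3), (nat_lit 50), (nat_lit 260), (nat_lit 50), (nat_lit 8)]⟩,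
 ⟨⟨[(nat_lit 80), (nat_lit 120), (nat_lit 140)], [(nat_lit 0), (nat_lit 0), (nat_lit 1164)], [((nat_lit 0), (nat_lit 0), (nat_lit 0)), ((nat_lit 0), (nat_lit 0), (nat_lit 0)), ((nat_lit 941), (nat_lit 1000), (nat_lit 576))], ((nat_lit 100), (nat_lit 98), (nat_lit 48))⟩, (nat_lit 3460905), (nat_lit 152), (nat_lit 152), (nat_lit 0), (nat_lit 0), [(nat_lit 2986256000), (nat_lit 5075616000), (nat_lit 6269354000)], [], [(nat_lit 12226888106), (nat_lit 13743438904), (nat_lit 13740912088), (nat_lit 15035914284), (nat_lit 19884734060), (nat_lit 20458058279), (nat_lit 19503095103), (nat_lit 20118655170)], (nat_lit 0), (nat_lit 0), (nat_lit 0), (nat_lit 0), (nat_lit 0), (nat_lit 0), [], [(nat_lit 17), (nat_lit 58), (nat_lit 456), (nat_lit 225), (nat_lit 13)]⟩,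
 ⟨⟨[(nat_lit 120), (nat_lit 160), (nat_lit 180)], [(nat_lit 0), (nat_lit 0), (nat_lit 1613)], [((nat_lit 0), (nat_lit 0), (nat_lit 0)), ((nat_lit 0), (nat_lit 0), (nat_lit 0)), ((nat_lit 620), (nat_lit 1000), (nat_lit 670))], ((nat_lit 100), (nat_lit 78), (nat_lit 48))⟩, (nat_lit 402787), (nat_lit 300), (nat_lit 971), (nat_lit 15507800), (nat_lit 1360335), [(nat_lit 1665312000), (nat_lit 2481248000), (nat_lit 2938122000)], [], [(nat_lit 13088985848), (nat_lit 12969709928), (nat_lit 12944332996), (nat_lit 12818796035), (nat_lit 10389775240), (nat_lit 10259176869), (nat_lit 10149612185), (nat_lit 10020768397)], (nat_lit 1100000), (nat_lit 1271251), (nat_lit 1271251), (nat_lit 1271251), (nat_lit 0), (nat_lit 2754376), [(nat_lit 1695001), (nat_lit 1271251), (nat_lit 1271251)], [(nat_lit 28), (nat_lit 65), (nat_lit 483), (nat_lit 250), (nat_lit 11)]⟩⟩) (.leaf ⟨(nat_lit 132), (nat_lit 785), (nat_lit 0), (nat_lit 83), (nat_lit 0), (nat_lit 4849), (nat_lit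 4993), (nat_lit 866), (nat_lit 0), (nat_lit 0), (nat_lit 528000), [((nat_lit 330), [((nat_lit 37), (nat_lit 5), (nat_lit 132))])], ⟨(nat_lit 6), true, false, false, (nat_lit 203), (nat_lit 4183), (nat_lit 4473), [(nat_lit 1428729), (nat_lit 1432475), (nat_lit 1450291), (nat_lit 1454137), (nat_lit 1564687), (nat_lit 1564988), (nat_lit 1586250), (nat_lit 1586650)]⟩, ⟨(nat_lit 7), false, false, true, (nat_lit 264), (nat_lit 4183), (nat_lit 4473), [(nat_lit 1592822), (nat_lit 1589176), (nat_lit 1614388), (nat_lit 1610843), (nat_lit 1711784), (nat_lit 1705124), (nat_lit 1733350), (nat_lit 1726790)]⟩, (nat_lit 5291710), (nat_lit 37611674), (nat_lit 11642375), (nat_lit 17745951), (nat_lit 7), (nat_lit 0), [], [⟨(nat_lit 1), (nat_lit 74), (nat_lit 79), (nat_lit 100), (nat_lit 276559485)⟩], [], [⟨(nat_lit 2), (nat_lit 74), (nat_lit 84), (nat_lit 100), (nat_lit 252959649)⟩],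
 ⟨⟨[(nat_lit 40), (nat_lit 80), (nat_lit 100)], [(nat_lit 0), (nat_lit 0), (nat_lit 1280)], [((nat_lit 0), (nat_lit 0), (nat_lit 0)), ((nat_lit 0), (nat_lit 0), (nat_lit 0)), ((nat_lit 1000), (nat_lit 800), (nat_lit 600))], ((nat_lit 81), (nat_lit 100), (nat_lit 48))⟩, (nat_lit 95342), (nat_lit 73), (nat_lit 73), (nat_lit 0), (nat_lit 0), [(nat_lit 2382797018), (nat_lit 3420324801), (nat_lit 3856410399)], [(nat_lit 0), (nat_lit 0), (nat_lit 0)], [(nat_lit 22600656640), (nat_lit 23279840555), (nat_lit 23731754548), (nat_lit 24331356868), (nat_lit 26655225148), (nat_lit 27255344683), (nat_lit 27287106348), (nat_lit 27821070654)], (nat_lit 0), (nat_lit 0), (nat_lit 0), (nat_lit 0), (nat_lit 0), (nat_lit 0), [], [(nat_lit 3), (nat_lit 50), (nat_lit 260), (nat_lit 50), (nat_lit 8)]⟩,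
 ⟨⟨[(nat_lit 80), (nat_lit 100), (nat_lit 120)], [(nat_lit 0), (nat_lit 265), (nat_lit 768)], [((nat_lit 0), (nat_lit 0), (nat_lit 0)), ((nat_lit 1000), (nat_lit 959), (nat_lit 206)), ((nat_lit 1000), (nat_lit 958), (nat_lit 392))], ((nat_lit 97), (nat_lit 100), (nat_lit 48))⟩, (nat_lit 95342), (nat_lit 93), (nat_lit 93), (nat_lit 0), (nat_lit 0), [(nat_lit 4069184000), (nat_lit 5425000000), (nat_lit 6916224000)], [], [(nat_lit 12635365279), (nat_lit 14444774593), (nat_lit 15002834004), (nat_lit 16566708557), (nat_lit 24256629193), (nat_lit 25026935366), (nat_lit 24632285575), (nat_lit 25305858572)], (nat_lit 0), (nat_lit 0), (nat_lit 0), (nat_lit 0), (nat_lit 0), (nat_lit 0), [], [(nat_lit 16), (nat_lit 54), (nat_lit 373), (nat_lit 150), (nat_lit 12)]⟩,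
 ⟨⟨[(nat_lit 120), (nat_lit 160), (nat_lit 180)], [(nat_lit 0), (nat_lit 0), (nat_lit 1613)], [((nat_lit 0), (nat_lit 0), (nat_lit 0)), ((nat_lit 0), (nat_lit 0), (nat_lit 0)), ((nat_lit 620), (nat_lit 1000), (nat_lit 670))], ((nat_lit 100), (nat_lit 78), (nat_lit 48))⟩, (nat_lit 459414), (nat_lit 300), (nat_lit 1163), (nat_lit 6158600), (nat_lit 1790061), [(nat_lit 661344000), (nat_lit 985376000), (nat_lit 1166814000)], [], [(nat_lit 5260049556), (nat_lit 5209311079), (nat_lit 5169798728), (nat_lit 5117433907), (nat_lit 4156788113), (nat_lit 4103610330), (nat_lit 4041922979), (nat_lit 3988677711)], (nat_lit 1100000), (nat_lit 1271251), (nat_lit 1271251), (nat_lit 1271251), (nat_lit 0), (nat_lit 2754376), [(nat_lit 1695001), (nat_lit 1271251), (nat_lit 1271251)], [(nat_lit 28), (nat_lit 65), (nat_lit 483), (nat_lit 250), (nat_lit 11)]⟩⟩)) (.spl (nat_lit 6) (nat_lit 12) (.leaf ⟨(nat_lit 595), (nat_lit 254), (nat_lit 0), (nat_lit 151), (nat_lit 0),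 (nat_lit 3519), (nat_lit 1688), (nat_lit 1530), (nat_lit 0), (nat_lit 0), (nat_lit 1720400), [((nat_lit 330), [((nat_lit 37), (nat_lit 2), (nat_lit 194)), ((nat_lit 37), (nat_lit 5), (nat_lit 401))])], ⟨(nat_lit 6), false, false, false, (nat_lit 199), (nat_lit 4183), (nat_lit 4473), [(nat_lit 1407167), (nat_lit 1410812), (nat_lit 1450291), (nat_lit 1454137), (nat_lit 1543125), (nat_lit 1543325), (nat_lit 1586250), (nat_lit 1586650)]⟩, ⟨(nat_lit 7), false, false, true, (nat_lit 264), (nat_lit 4183), (nat_lit 4473), [(nat_lit 1592822), (nat_lit 1589176), (nat_lit 1614388), (nat_lit 1610843), (nat_lit 1711784), (nat_lit 1705124), (nat_lit 1733350), (nat_lit 1726790)]⟩, (nat_lit 5262682), (nat_lit 37860203), (nat_lit 11306566), (nat_lit 17833231), (nat_lit 7), (nat_lit 0), [], [⟨(nat_lit 1), (nat_lit 74), (nat_lit 79), (nat_lit 100), (nat_lit 233563939)⟩], [], [],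
 ⟨⟨[(nat_lit 40), (nat_lit 60), (nat_lit 80)], [(nat_lit 0), (nat_lit 0), (nat_lit 615)], [((nat_lit 0), (nat_lit 0), (nat_lit 0)), ((nat_lit 0), (nat_lit 0), (nat_lit 0)), ((nat_lit 1000), (nat_lit 819), (nat_lit 426))], ((nat_lit 84), (nat_lit 100), (nat_lit 36))⟩, (nat_lit 0), (nat_lit 63), (nat_lit 63), (nat_lit 0), (nat_lit 0), [(nat_lit 1731791145), (nat_lit 1924789475), (nat_lit 218639600)], [(nat_lit 0), (nat_lit 0), (nat_lit 0)], [(nat_lit 21654886589), (nat_lit 22263723184), (nat_lit 23050725930), (nat_lit 23594669892), (nat_lit 25214519836), (nat_lit 25732233416), (nat_lit 26227115836), (nat_lit 26692328432)], (nat_lit 0), (nat_lit 0), (nat_lit 0), (nat_lit 0), (nat_lit 0), (nat_lit 0), [], [(nat_lit 2), (nat_lit 44), (nat_lit 260), (nat_lit 50), (nat_lit 10)]⟩,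
 ⟨⟨[(nat_lit 80), (nat_lit 100), (nat_lit 120)], [(nat_lit 0), (nat_lit 0), (nat_lit 511)], [((nat_lit 0), (nat_lit 0), (nat_lit 0)), ((nat_lit 0), (nat_lit 0), (nat_lit 0)), ((nat_lit 1000), (nat_lit 997), (nat_lit 383))], ((nat_lit 99), (nat_lit 100), (nat_lit 34))⟩, (nat_lit 1084505), (nat_lit 328), (nat_lit 328), (nat_lit 0), (nat_lit 447789), [(nat_lit 1898640000), (nat_lit 2531250000), (nat_lit 3227040000)], [], [(nat_lit 15116084248), (nat_lit 13345108866), (nat_lit 13963056300), (nat_lit 13926501456), (nat_lit 19426956196), (nat_lit 17959727606), (nat_lit 21976167388), (nat_lit 20544501793)], (nat_lit 1271251), (nat_lit 1271251), (nat_lit 780000), (nat_lit 1435001), (nat_lit 0), (nat_lit 2754376), [(nat_lit 1100000), (nat_lit 1442501), (nat_lit 1271251)], [(nat_lit 16), (nat_lit 54), (nat_lit 373), (nat_lit 150), (nat_lit 12)]⟩,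
 ⟨⟨[(nat_lit 120), (nat_lit 140), (nat_lit 160)], [(nat_lit 0), (nat_lit 0), (nat_lit 609)], [((nat_lit 0), (nat_lit 0), (nat_lit 0)), ((nat_lit 0), (nat_lit 0), (nat_lit 0)), ((nat_lit 840), (nat_lit 1000), (nat_lit 400))], ((nat_lit 100), (nat_lit 87), (nat_lit 35))⟩, (nat_lit 154719), (nat_lit 300), (nat_lit 801), (nat_lit 10615301), (nat_lit 1121464), [(nat_lit 1203168000), (nat_lit 1486142000), (nat_lit 1792672000)], [], [(nat_lit 8053898270), (nat_lit 7990379823), (nat_lit 8053570210), (nat_lit 7983321931), (nat_lit 6507063706), (nat_lit 7001770609), (nat_lit 6403513777), (nat_lit 6335450575)], (nat_lit 1100000), (nat_lit 1271251), (nat_lit 1271251), (nat_lit 1271251), (nat_lit 0), (nat_lit 2754376), [(nat_lit 1695001), (nat_lit 1271251), (nat_lit 1271251)], [(nat_lit 27), (nat_lit 62), (nat_lit 483), (nat_lit 250), (nat_lit 12)]⟩⟩) (.leaf ⟨(nat_lit 0), (nat_lit 408), (nat_lit 0), (nat_lit 592), (nat_lit 0), (nat_lit 5846), (nat_lit 10580),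 (nat_lit 7586), (nat_lit 0), (nat_lit 0), (nat_lit 0), [], Pd.none, Pd.none, (nat_lit 0), (nat_lit 1), (nat_lit 0), (nat_lit 0), (nat_lit 7), (nat_lit 0), [], [⟨(nat_lit 1), (nat_lit 74), (nat_lit 79), (nat_lit 100), (nat_lit 4417130)⟩], [], [⟨(nat_lit 0), (nat_lit 84), (nat_lit 100), (nat_lit 41), (nat_lit 840889)⟩],
 ⟨⟨[(nat_lit 40), (nat_lit 80), (nat_lit 100)], [(nat_lit 0), (nat_lit 0), (nat_lit 1280)], [((nat_lit 0), (nat_lit 0), (nat_lit 0)), ((nat_lit 0), (nat_lit 0), (nat_lit 0)), ((nat_lit 1000), (nat_lit 800), (nat_lit 600))], ((nat_lit 81), (nat_lit 100), (nat_lit 48))⟩, (nat_lit 0), (nat_lit 73), (nat_lit 73), (nat_lit 0), (nat_lit 0), [(nat_lit 2483108200), (nat_lit 4688000004), (nat_lit 6250000000)], [], [(nat_lit 23239938618), (nat_lit 24038562089), (nat_lit 24205744252), (nat_lit 24909108940), (nat_lit 27735592465), (nat_lit 28397035766), (nat_lit 28145940265), (nat_lit 28730881399)], (nat_lit 0), (nat_lit 0), (nat_lit 0), (nat_lit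 0), (nat_lit 0), (nat_lit 0), [], [(nat_lit 3), (nat_lit 50), (nat_lit 260), (nat_lit 50), (nat_lit 8)]⟩,
 ⟨⟨[(nat_lit 80), (nat_lit 120), (nat_lit 140)], [(nat_lit 0), (nat_lit 0), (nat_lit 1164)], [((nat_lit 0), (nat_lit 0), (nat_lit 0)), ((nat_lit 0), (nat_lit 0), (nat_lit 0)), ((nat_lit 941), (nat_lit 1000), (nat_lit 576))], ((nat_lit 100), (nat_lit 98), (nat_lit 48))⟩, (nat_lit 4030029), (nat_lit 324), (nat_lit 324), (nat_lit 0), (nat_lit 262001), [(nat_lit 4688000000), (nat_lit 7968000000), (nat_lit 9842000000)], [], [(nat_lit 37674980400), (nat_lit 27679940580), (nat_lit 34693862600), (nat_lit 28350686740), (nat_lit 57018885180), (nat_lit 47935508175), (nat_lit 69191777490), (nat_lit 60325699138)], (nat_lit 1271251), (nat_lit 1271251), (nat_lit 780000), (nat_lit 1435001), (nat_lit 0), (nat_lit 2754376), [(nat_lit 1100000), (nat_lit 1785001), (nat_lit 1271251)], [(nat_lit 17), (nat_lit 58), (nat_lit 456), (nat_lit 225), (nat_lit 13)]⟩,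
 ⟨⟨[(nat_lit 120), (nat_lit 160), (nat_lit 180)], [(nat_lit 0), (nat_lit 0), (nat_lit 1613)], [((nat_lit 0), (nat_lit 0), (nat_lit 0)), ((nat_lit 0), (nat_lit 0), (nat_lit 0)), ((nat_lit 620), (nat_lit 1000), (nat_lit 670))], ((nat_lit 100), (nat_lit 78), (nat_lit 48))⟩, (nat_lit 257647), (nat_lit 300), (nat_lit 643), (nat_lit 43926400), (nat_lit 644553), [(nat_lit 4717056000), (nat_lit 7028224000), (nat_lit 8322336000)], [], [(nat_lit 32523531616), (nat_lit 32221163346), (nat_lit 33042568185), (nat_lit 32820688944), (nat_lit 25308610694), (nat_lit 27075515460), (nat_lit 26298201419), (nat_lit 26030016680)], (nat_lit 1100000), (nat_lit 1271251), (nat_lit 1271251), (nat_lit 1271251), (nat_lit 0), (nat_lit 2754376), [(nat_lit 1695001), (nat_lit 1271251), (nat_lit 1271251)], [(nat_lit 28), (nat_lit 65), (nat_lit 483), (nat_lit 250), (nat_lit 11)]⟩⟩)))) (.trZ (nat_lit 3) (nat_lit 4) (nat_lit 5) (nat_lit 92) (nat_lit 100) (nat_lit 40) (nat_lit 10) (.leaf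 ⟨(nat_lit 413), (nat_lit 389), (nat_lit 0), (nat_lit 198), (nat_lit 0), (nat_lit 3960), (nat_lit 6280), (nat_lit 2145), (nat_lit 0), (nat_lit 0), (nat_lit 1652000), [((nat_lit 330), [((nat_lit 37), (nat_lit 5), (nat_lit 413))])], ⟨(nat_lit 6), false, true, false, (nat_lit 253), (nat_lit 4183), (nat_lit 4473), [(nat_lit 1543125), (nat_lit 1543325), (nat_lit 1586250), (nat_lit 1586650), (nat_lit 1679082), (nat_lit 1675838), (nat_lit 1722208), (nat_lit 1719164)]⟩, ⟨(nat_lit 7), false, false, true, (nat_lit 264), (nat_lit 4183), (nat_lit 4473), [(nat_lit 1592822), (nat_lit 1589176), (nat_lit 1614388), (nat_lit 1610843), (nat_lit 1711784), (nat_lit 1705124), (nat_lit 1733350), (nat_lit 1726790)]⟩, (nat_lit 5554313), (nat_lit 34764553), (nat_lit 15537334), (nat_lit 16698113), (nat_lit 7), (nat_lit 0), [], [⟨(nat_lit 1), (nat_lit 74), (nat_lit 79), (nat_lit 100), (nat_lit 248431688)⟩], [], [],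
 ⟨⟨[(nat_lit 40), (nat_lit 80), (nat_lit 100)], [(nat_lit 0), (nat_lit 0), (nat_lit 1280)], [((nat_lit 0), (nat_lit 0), (nat_lit 0)), ((nat_lit 0), (nat_lit 0), (nat_lit 0)), ((nat_lit 1000), (nat_lit 800), (nat_lit 600))], ((nat_lit 81), (nat_lit 100), (nat_lit 48))⟩, (nat_lit 1516), (nat_lit 58), (nat_lit 58), (nat_lit 0), (nat_lit 0), [(nat_lit 2143156515), (nat_lit 1697542080), (nat_lit 0)], [(nat_lit 0), (nat_lit 0), (nat_lit 1414949600)], [(nat_lit 23072497755), (nat_lit 23616620380), (nat_lit 25617397470), (nat_lit 26134442775), (nat_lit 26492155260), (nat_lit 27001879290), (nat_lit 28646277390), (nat_lit 29130477655)], (nat_lit 0), (nat_lit 0), (nat_lit 0), (nat_lit 0), (nat_lit 0), (nat_lit 0), [], [(nat_lit 3), (nat_lit 50), (nat_lit 203), (nat_lit 0), (nat_lit 6)]⟩,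
 ⟨⟨[(nat_lit 80), (nat_lit 120), (nat_lit 140)], [(nat_lit 0), (nat_lit 0), (nat_lit 1164)], [((nat_lit 0), (nat_lit 0), (nat_lit 0)), ((nat_lit 0), (nat_lit 0), (nat_lit 0)), ((nat_lit 941), (nat_lit 1000), (nat_lit 576))], ((nat_lit 100), (nat_lit 98), (nat_lit 48))⟩, (nat_lit 2138159), (nat_lit 375), (nat_lit 375), (nat_lit 0), (nat_lit 451697), [(nat_lit 2751856000), (nat_lit 4677216000), (nat_lit 5777254000)], [], [(nat_lit 18599353550), (nat_lit 16106476617), (nat_lit 16794990400), (nat_lit 18170575514), (nat_lit 26187724052), (nat_lit 20692299648), (nat_lit 20896371566), (nat_lit 21898388234)], (nat_lit 1271251), (nat_lit 1271251), (nat_lit 1271251), (nat_lit 1271251), (nat_lit 54688), (nat_lit 2845626), [(nat_lit 1100000), (nat_lit 1785001), (nat_lit 1271251)], [(nat_lit 17), (nat_lit 58), (nat_lit 483), (nat_lit 250), (nat_lit 14)]⟩,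
 ⟨⟨[(nat_lit 120), (nat_lit 160), (nat_lit 180)], [(nat_lit 0), (nat_lit 0), (nat_lit 1613)], [((nat_lit 0), (nat_lit 0), (nat_lit 0)), ((nat_lit 0), (nat_lit 0), (nat_lit 0)), ((nat_lit 620), (nat_lit 1000), (nat_lit 670))], ((nat_lit 100), (nat_lit 78), (nat_lit 48))⟩, (nat_lit 88569), (nat_lit 300), (nat_lit 1156), (nat_lit 14691600), (nat_lit 1790061), [(nat_lit 1577664000), (nat_lit 2350656000), (nat_lit 2783484000)], [], [(nat_lit 11914918719), (nat_lit 11787831225), (nat_lit 11755729077), (nat_lit 11631085094), (nat_lit 9407521530), (nat_lit 9535942845), (nat_lit 9322114329), (nat_lit 9202738158)], (nat_lit 1100000), (nat_lit 1271251), (nat_lit 1271251), (nat_lit 1271251), (nat_lit 54688), (nat_lit 2845626), [(nat_lit 1695001), (nat_lit 1271251), (nat_lit 1271251)], [(nat_lit 28), (nat_lit 65), (nat_lit 483), (nat_lit 250), (nat_lit 11)]⟩⟩)))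
noncomputable def c11_55 : Tr Lf :=
 (.trX (nat_lit 5) (nat_lit 1) (nat_lit 2) (nat_lit 92) (nat_lit 49) (nat_lit 100) (nat_lit 380) (.spl (nat_lit 5) (nat_lit 200) (.spl (nat_lit 5) (nat_lit 120) (.leaf ⟨(nat_lit 140), (nat_lit 684), (nat_lit 0), (nat_lit 176), (nat_lit 0), (nat_lit 4789), (nat_lit 6719), (nat_lit 2125), (nat_lit 0), (nat_lit 0), (nat_lit 560000), [((nat_lit 330), [((nat_lit 37), (nat_lit 5), (nat_lit 140))])], ⟨(nat_lit 7), false, false, false, (nat_lit 243), (nat_lit 4183), (nat_lit 4473), [(nat_lit 1450291), (nat_lit 1454137), (nat_lit 1493417), (nat_lit 1497463), (nat_lit 1722208), (nat_lit 1719164), (nat_lit 1765332), (nat_lit 1762489)]⟩, ⟨(nat_lit 7), false, false, true, (nat_lit 264), (nat_lit 4183), (nat_lit 4473), [(nat_lit 1592822), (nat_lit 1589176), (nat_lit 1614388), (nat_lit 1610843), (nat_lit 1711784), (nat_lit 1705124), (nat_lit 1733350), (nat_lit 1726790)]⟩, (nat_lit 5513094), (nat_lit 35314524), (nat_lit 14778434),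 (nat_lit 16907042), (nat_lit 7), (nat_lit 0), [], [⟨(nat_lit 1), (nat_lit 74), (nat_lit 79), (nat_lit 100), (nat_lit 427341959)⟩], [⟨(nat_lit 0), (nat_lit 100), (nat_lit 88), (nat_lit 37), (nat_lit 242245366)⟩], [],
 ⟨⟨[(nat_lit 40), (nat_lit 80), (nat_lit 100)], [(nat_lit 0), (nat_lit 0), (nat_lit 1280)], [((nat_lit 0), (nat_lit 0), (nat_lit 0)), ((nat_lit 0), (nat_lit 0), (nat_lit 0)), ((nat_lit 1000), (nat_lit 800), (nat_lit 600))], ((nat_lit 81), (nat_lit 100), (nat_lit 48))⟩, (nat_lit 237110), (nat_lit 73), (nat_lit 73), (nat_lit 0), (nat_lit 0), [(nat_lit 2415791983), (nat_lit 3343496018), (nat_lit 3713707982)], [(nat_lit 0), (nat_lit 0), (nat_lit 0)], [(nat_lit 22636633082), (nat_lit 23308626705), (nat_lit 26206888804), (nat_lit 26719692548), (nat_lit 26589668655), (nat_lit 27186546946), (nat_lit 29367058901), (nat_lit 29891833224)], (nat_lit 0), (nat_lit 0), (nat_lit 0), (nat_lit 0), (nat_lit 0), (nat_lit 0), [], [(nat_lit 3), (nat_lit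 50), (nat_lit 289), (nat_lit 75), (nat_lit 9)]⟩,
 ⟨⟨[(nat_lit 60), (nat_lit 100), (nat_lit 120)], [(nat_lit 0), (nat_lit 0), (nat_lit 1164)], [((nat_lit 0), (nat_lit 0), (nat_lit 0)), ((nat_lit 0), (nat_lit 0), (nat_lit 0)), ((nat_lit 1000), (nat_lit 933), (nat_lit 572))], ((nat_lit 92), (nat_lit 100), (nat_lit 48))⟩, (nat_lit 3907757), (nat_lit 402), (nat_lit 402), (nat_lit 0), (nat_lit 545948), [(nat_lit 2822520000), (nat_lit 5375000000), (nat_lit 6852480000)], [], [(nat_lit 24189484009), (nat_lit 24981224218), (nat_lit 27169147154), (nat_lit 27750561218), (nat_lit 19568897460), (nat_lit 21596204349), (nat_lit 32350844259), (nat_lit 26302941338)], (nat_lit 1271251), (nat_lit 1271251), (nat_lit 780000), (nat_lit 2090001), (nat_lit 0), (nat_lit 780000), [(nat_lit 780000), (nat_lit 1435001), (nat_lit 1271251)], [(nat_lit 10), (nat_lit 54), (nat_lit 317), (nat_lit 100), (nat_lit 10)]⟩,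
 ⟨⟨[(nat_lit 120), (nat_lit 160), (nat_lit 180)], [(nat_lit 0), (nat_lit 0), (nat_lit 1613)], [((nat_lit 0), (nat_lit 0), (nat_lit 0)), ((nat_lit 0), (nat_lit 0), (nat_lit 0)), ((nat_lit 620), (nat_lit 1000), (nat_lit 670))], ((nat_lit 100), (nat_lit 78), (nat_lit 48))⟩, (nat_lit 1066336), (nat_lit 300), (nat_lit 1135), (nat_lit 13059200), (nat_lit 1724553), [(nat_lit 1402368000), (nat_lit 2089472000), (nat_lit 2474208000)], [], [(nat_lit 9901281122), (nat_lit 9797156649), (nat_lit 10037803643), (nat_lit 9941301077), (nat_lit 8351647129), (nat_lit 8245696882), (nat_lit 8357188289), (nat_lit 8263416683)], (nat_lit 1100000), (nat_lit 1271251), (nat_lit 1271251), (nat_lit 1271251), (nat_lit 0), (nat_lit 780000), [(nat_lit 1695001), (nat_lit 1271251), (nat_lit 1271251)], [(nat_lit 28), (nat_lit 65), (nat_lit 401), (nat_lit 175), (nat_lit 9)]⟩⟩) (.leaf ⟨(nat_lit 0), (nat_lit 827), (nat_lit 0), (nat_lit 173), (nat_lit 0), (nat_lit 5846), (nat_lit 10119),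 (nat_lit 1916), (nat_lit 0), (nat_lit 0), (nat_lit 0), [], Pd.none, Pd.none, (nat_lit 0), (nat_lit 1), (nat_lit 0), (nat_lit 0), (nat_lit 7), (nat_lit 0), [], [⟨(nat_lit 1), (nat_lit 74), (nat_lit 79), (nat_lit 100), (nat_lit 480881567)⟩], [], [],
 ⟨⟨[(nat_lit 40), (nat_lit 80), (nat_lit 100)], [(nat_lit 0), (nat_lit 0), (nat_lit 1280)], [((nat_lit 0), (nat_lit 0), (nat_lit 0)), ((nat_lit 0), (nat_lit 0), (nat_lit 0)), ((nat_lit 1000), (nat_lit 800), (nat_lit 600))], ((nat_lit 81), (nat_lit 100), (nat_lit 48))⟩, (nat_lit 686145), (nat_lit 73), (nat_lit 73), (nat_lit 0), (nat_lit 0), [(nat_lit 2503670985), (nat_lit 4688000001), (nat_lit 6250000000)], [], [(nat_lit 23239938615), (nat_lit 24038562086), (nat_lit 26855048815), (nat_lit 27450614770), (nat_lit 27735592462), (nat_lit 28397035766), (nat_lit 30286077064), (nat_lit 30862584535)], (nat_lit 0), (nat_lit 0), (nat_lit 0), (nat_lit 0), (nat_lit 0), (nat_lit 0), [], [(nat_lit 3), (nat_lit 50),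 (nat_lit 289), (nat_lit 75), (nat_lit 9)]⟩,
 ⟨⟨[(nat_lit 60), (nat_lit 100), (nat_lit 120)], [(nat_lit 0), (nat_lit 0), (nat_lit 1164)], [((nat_lit 0), (nat_lit 0), (nat_lit 0)), ((nat_lit 0), (nat_lit 0), (nat_lit 0)), ((nat_lit 1000), (nat_lit 933), (nat_lit 572))], ((nat_lit 92), (nat_lit 100), (nat_lit 48))⟩, (nat_lit 4783101), (nat_lit 302), (nat_lit 302), (nat_lit 0), (nat_lit 545948), [(nat_lit 3282000000), (nat_lit 6250000000), (nat_lit 7968000000)], [], [(nat_lit 14369486060), (nat_lit 18062747292), (nat_lit 21788576431), (nat_lit 24778253297), (nat_lit 15719801365), (nat_lit 18858600270), (nat_lit 32462009199), (nat_lit 25127792246)], (nat_lit 1271251), (nat_lit 1271251), (nat_lit 780000), (nat_lit 2090001), (nat_lit 780000), (nat_lit 1435001), [(nat_lit 780000), (nat_lit 1435001), (nat_lit 1271251)], [(nat_lit 10), (nat_lit 54), (nat_lit 345), (nat_lit 125), (nat_lit 11)]⟩,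
 ⟨⟨[(nat_lit 120), (nat_lit 160), (nat_lit 180)], [(nat_lit 0), (nat_lit 0), (nat_lit 1613)], [((nat_lit 0), (nat_lit 0), (nat_lit 0)), ((nat_lit 0), (nat_lit 0), (nat_lit 0)), ((nat_lit 620), (nat_lit 1000), (nat_lit 670))], ((nat_lit 100), (nat_lit 78), (nat_lit 48))⟩, (nat_lit 3135940), (nat_lit 300), (nat_lit 1591), (nat_lit 12836600), (nat_lit 2881291), [(nat_lit 1378464000), (nat_lit 2053856000), (nat_lit 2432034000)], [], [(nat_lit 9029627953), (nat_lit 8919944060), (nat_lit 8879704679), (nat_lit 8769650525), (nat_lit 8502782451), (nat_lit 8396140394), (nat_lit 8341409512), (nat_lit 8238970613)], (nat_lit 1100000), (nat_lit 1271251), (nat_lit 1271251), (nat_lit 1271251), (nat_lit 780000), (nat_lit 1435001), [(nat_lit 1695001), (nat_lit 1271251), (nat_lit 1271251)], [(nat_lit 28), (nat_lit 65), (nat_lit 489), (nat_lit 200), (nat_lit 11)]⟩⟩)) (.spl (nat_lit 1) (nat_lit 300) (.leaf ⟨(nat_lit 195), (nat_lit 679), (nat_lit 0), (nat_lit 126),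 (nat_lit 0), (nat_lit 4467), (nat_lit 6104), (nat_lit 1322), (nat_lit 0), (nat_lit 0), (nat_lit 780000), [((nat_lit 330), [((nat_lit 37), (nat_lit 5), (nat_lit 195))])], ⟨(nat_lit 7), false, false, false, (nat_lit 239), (nat_lit 4183), (nat_lit 4473), [(nat_lit 1450291), (nat_lit 1454137), (nat_lit 1471853), (nat_lit 1475800), (nat_lit 1722208), (nat_lit 1719164), (nat_lit 1743770), (nat_lit 1740826)]⟩, ⟨(nat_lit 7), false, false, true, (nat_lit 264), (nat_lit 4183), (nat_lit 4473), [(nat_lit 1592822), (nat_lit 1589176), (nat_lit 1614388), (nat_lit 1610843), (nat_lit 1711784), (nat_lit 1705124), (nat_lit 1733350), (nat_lit 1726790)]⟩, (nat_lit 5492975), (nat_lit 35563734), (nat_lit 14435537), (nat_lit 17000729), (nat_lit 7), (nat_lit 0), [], [⟨(nat_lit 1), (nat_lit 74), (nat_lit 79), (nat_lit 100), (nat_lit 118662660)⟩], [], [⟨(nat_lit 2), (nat_lit 57), (nat_lit 82), (nat_lit 100), (nat_lit 187076679)⟩, ⟨(nat_lit 2), (nat_lit 100), (nat_lit 92),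 (nat_lit 99), (nat_lit 134166556)⟩],
 ⟨⟨[(nat_lit 40), (nat_lit 80), (nat_lit 100)], [(nat_lit 0), (nat_lit 0), (nat_lit 1280)], [((nat_lit 0), (nat_lit 0), (nat_lit 0)), ((nat_lit 0), (nat_lit 0), (nat_lit 0)), ((nat_lit 1000), (nat_lit 800), (nat_lit 600))], ((nat_lit 81), (nat_lit 100), (nat_lit 48))⟩, (nat_lit 218401), (nat_lit 73), (nat_lit 73), (nat_lit 0), (nat_lit 0), [(nat_lit 2300359030), (nat_lit 2934677009), (nat_lit 2630956000)], [(nat_lit 0), (nat_lit 0), (nat_lit 0)], [(nat_lit 22540696182), (nat_lit 23188694889), (nat_lit 26123607148), (nat_lit 26618496998), (nat_lit 26270440513), (nat_lit 26818038406), (nat_lit 29087093103), (nat_lit 29596107660)], (nat_lit 0), (nat_lit 0), (nat_lit 0), (nat_lit 0), (nat_lit 0), (nat_lit 0), [], [(nat_lit 3), (nat_lit 50), (nat_lit 289), (nat_lit 75), (nat_lit 9)]⟩,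
 ⟨⟨[(nat_lit 60), (nat_lit 100), (nat_lit 120)], [(nat_lit 0), (nat_lit 0), (nat_lit 1164)], [((nat_lit 0), (nat_lit 0), (nat_lit 0)), ((nat_lit 0), (nat_lit 0), (nat_lit 0)), ((nat_lit 1000), (nat_lit 933), (nat_lit 572))], ((nat_lit 92), (nat_lit 100), (nat_lit 48))⟩, (nat_lit 3800283), (nat_lit 287), (nat_lit 287), (nat_lit 0), (nat_lit 488928), [(nat_lit 2642010000), (nat_lit 5031250000), (nat_lit 6414240000)], [], [(nat_lit 16753148570), (nat_lit 17816690268), (nat_lit 19977577837), (nat_lit 20717312910), (nat_lit 24556718482), (nat_lit 25154049108), (nat_lit 25995720723), (nat_lit 26672829833)], (nat_lit 1271251), (nat_lit 1271251), (nat_lit 780000), (nat_lit 2090001), (nat_lit 1271251), (nat_lit 1271251), [(nat_lit 780000), (nat_lit 1435001), (nat_lit 1271251)], [(nat_lit 10), (nat_lit 54), (nat_lit 401), (nat_lit 175), (nat_lit 12)]⟩,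
 ⟨⟨[(nat_lit 120), (nat_lit 160), (nat_lit 180)], [(nat_lit 0), (nat_lit 0), (nat_lit 1613)], [((nat_lit 0), (nat_lit 0), (nat_lit 0)), ((nat_lit 0), (nat_lit 0), (nat_lit 0)), ((nat_lit 620), (nat_lit 1000), (nat_lit 670))], ((nat_lit 100), (nat_lit 78), (nat_lit 48))⟩, (nat_lit 803430), (nat_lit 300), (nat_lit 1278), (nat_lit 9349200), (nat_lit 2297072), [(nat_lit 1003968000), (nat_lit 1495872000), (nat_lit 1771308000)], [], [(nat_lit 6819483358), (nat_lit 6740500185), (nat_lit 6643214079), (nat_lit 6562806964), (nat_lit 6295583247), (nat_lit 6213754364), (nat_lit 6101026265), (nat_lit 6022647135)], (nat_lit 1100000), (nat_lit 1271251), (nat_lit 1271251), (nat_lit 1271251), (nat_lit 1271251), (nat_lit 1271251), [(nat_lit 1695001), (nat_lit 1271251), (nat_lit 1271251)], [(nat_lit 28), (nat_lit 65), (nat_lit 483), (nat_lit 250), (nat_lit 10)]⟩⟩) (.trX (nat_lit 5) (nat_lit 1) (nat_lit 2) (nat_lit 87) (nat_lit 59) (nat_lit 100) (nat_lit 370) (.leaf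 ⟨(nat_lit 0), (nat_lit 901), (nat_lit 0), (nat_lit 99), (nat_lit 0), (nat_lit 5846), (nat_lit 5327), (nat_lit 1045), (nat_lit 0), (nat_lit 0), (nat_lit 0), [], Pd.none, Pd.none, (nat_lit 0), (nat_lit 1), (nat_lit 0), (nat_lit 0), (nat_lit 7), (nat_lit 0), [], [⟨(nat_lit 1), (nat_lit 74), (nat_lit 79), (nat_lit 100), (nat_lit 180901207)⟩], [], [⟨(nat_lit 2), (nat_lit 57), (nat_lit 82), (nat_lit 100), (nat_lit 140763754)⟩, ⟨(nat_lit 2), (nat_lit 100), (nat_lit 90), (nat_lit 96), (nat_lit 237645030)⟩],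
 ⟨⟨[(nat_lit 40), (nat_lit 80), (nat_lit 100)], [(nat_lit 0), (nat_lit 0), (nat_lit 1280)], [((nat_lit 0), (nat_lit 0), (nat_lit 0)), ((nat_lit 0), (nat_lit 0), (nat_lit 0)), ((nat_lit 1000), (nat_lit 800), (nat_lit 600))], ((nat_lit 81), (nat_lit 100), (nat_lit 48))⟩, (nat_lit 44922), (nat_lit 73), (nat_lit 73), (nat_lit 0), (nat_lit 0), [(nat_lit 2434075714), (nat_lit 4688000002), (nat_lit 6250000000)], [], [(nat_lit 23239938616), (nat_lit 24038562087), (nat_lit 26855048816), (nat_lit 27450614771), (nat_lit 27735592463), (nat_lit 28397035766), (nat_lit 30286077064), (nat_lit 30862584535)], (nat_lit 0), (nat_lit 0), (nat_lit 0), (nat_lit 0), (nat_lit 0), (nat_lit 0), [], [(nat_lit 3), (nat_lit 50), (nat_lit 289), (nat_lit 75), (nat_lit 9)]⟩,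
 ⟨⟨[(nat_lit 60), (nat_lit 80), (nat_lit 100)], [(nat_lit 0), (nat_lit 304), (nat_lit 825)], [((nat_lit 0), (nat_lit 0), (nat_lit 0)), ((nat_lit 1000), (nat_lit 905), (nat_lit 238)), ((nat_lit 1000), (nat_lit 871), (nat_lit 407))], ((nat_lit 87), (nat_lit 100), (nat_lit 48))⟩, (nat_lit 5940968), (nat_lit 262), (nat_lit 262), (nat_lit 0), (nat_lit 535783), [(nat_lit 3282000000), (nat_lit 4688000000), (nat_lit 6250000000)], [], [(nat_lit 20703927601), (nat_lit 21645244102), (nat_lit 24447698210), (nat_lit 25278282146), (nat_lit 27944728377), (nat_lit 28672911838), (nat_lit 30252965436), (nat_lit 31033985029)], (nat_lit 1271251), (nat_lit 1271251), (nat_lit 780000), (nat_lit 2090001), (nat_lit 1271251), (nat_lit 1271251), [(nat_lit 780000), (nat_lit 1100000), (nat_lit 1442501)], [(nat_lit 9), (nat_lit 50), (nat_lit 289), (nat_lit 75), (nat_lit 10)]⟩,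
 ⟨⟨[(nat_lit 120), (nat_lit 160), (nat_lit 180)], [(nat_lit 0), (nat_lit 0), (nat_lit 1613)], [((nat_lit 0), (nat_lit 0), (nat_lit 0)), ((nat_lit 0), (nat_lit 0), (nat_lit 0)), ((nat_lit 620), (nat_lit 1000), (nat_lit 670))], ((nat_lit 100), (nat_lit 78), (nat_lit 48))⟩, (nat_lit 196706), (nat_lit 300), (nat_lit 1552), (nat_lit 7345800), (nat_lit 2881291), [(nat_lit 788832000), (nat_lit 1175328000), (nat_lit 1391742000)], [], [(nat_lit 5356410311), (nat_lit 5293495230), (nat_lit 5200761005), (nat_lit 5136786121), (nat_lit 4932178166), (nat_lit 4867622463), (nat_lit 4768592618), (nat_lit 4704714173)], (nat_lit 1100000), (nat_lit 1271251), (nat_lit 1271251), (nat_lit 1271251), (nat_lit 1271251), (nat_lit 1271251), [(nat_lit 1695001), (nat_lit 1271251), (nat_lit 1271251)], [(nat_lit 28), (nat_lit 65), (nat_lit 501), (nat_lit 225), (nat_lit 11)]⟩⟩)))))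
noncomputable def c11_56 : Tr Lf :=
 (.spl (nat_lit 5) (nat_lit 120) (.spl (nat_lit 1) (nat_lit 280) (.leaf ⟨(nat_lit 127), (nat_lit 334), (nat_lit 0), (nat_lit 539), (nat_lit 0), (nat_lit 4696), (nat_lit 6534), (nat_lit 5898), (nat_lit 0), (nat_lit 0), (nat_lit 508000), [((nat_lit 330), [((nat_lit 37), (nat_lit 5), (nat_lit 127))])], ⟨(nat_lit 6), false, false, false, (nat_lit 226), (nat_lit 4183), (nat_lit 4473), [(nat_lit 1407167), (nat_lit 1410812), (nat_lit 1450291), (nat_lit 1454137), (nat_lit 1679082), (nat_lit 1675838), (nat_lit 1722208), (nat_lit 1719164)]⟩, ⟨(nat_lit 6), false, true, true, (nat_lit 274), (nat_lit 4183), (nat_lit 4473), [(nat_lit 1546410), (nat_lit 1544587), (nat_lit 1589541), (nat_lit 1587919), (nat_lit 1784334), (nat_lit 1776482), (nat_lit 1827466), (nat_lit 1819815)]⟩, (nat_lit 5459489), (nat_lit 35686320), (nat_lit 13234077), (nat_lit 18079603), (nat_lit 6), (nat_lit 0), [], [], [⟨(nat_lit 0), (nat_lit 100), (nat_lit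 98), (nat_lit 10), (nat_lit 435613099)⟩], [],
 ⟨⟨[(nat_lit 40), (nat_lit 80), (nat_lit 100)], [(nat_lit 0), (nat_lit 0), (nat_lit 1280)], [((nat_lit 0), (nat_lit 0), (nat_lit 0)), ((nat_lit 0), (nat_lit 0), (nat_lit 0)), ((nat_lit 1000), (nat_lit 800), (nat_lit 600))], ((nat_lit 81), (nat_lit 100), (nat_lit 48))⟩, (nat_lit 2431769), (nat_lit 97), (nat_lit 97), (nat_lit 0), (nat_lit 0), [(nat_lit 2166507699), (nat_lit 3532315629), (nat_lit 3892981600)], [(nat_lit 0), (nat_lit 0), (nat_lit 0)], [(nat_lit 20698845792), (nat_lit 21424244007), (nat_lit 24878743421), (nat_lit 25460693295), (nat_lit 28716459977), (nat_lit 29257807752), (nat_lit 30978531356), (nat_lit 31454865820)], (nat_lit 0), (nat_lit 0), (nat_lit 0), (nat_lit 0), (nat_lit 0), (nat_lit 0), [], [(nat_lit 3), (nat_lit 50), (nat_lit 289), (nat_lit 75), (nat_lit 10)]⟩,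
 ⟨⟨[(nat_lit 80), (nat_lit 120), (nat_lit 140)], [(nat_lit 0), (nat_lit 0), (nat_lit 1164)], [((nat_lit 0), (nat_lit 0), (nat_lit 0)), ((nat_lit 0), (nat_lit 0), (nat_lit 0)), ((nat_lit 941), (nat_lit 1000), (nat_lit 576))], ((nat_lit 100), (nat_lit 98), (nat_lit 48))⟩, (nat_lit 3564095), (nat_lit 424), (nat_lit 424), (nat_lit 0), (nat_lit 433375), [(nat_lit 4092624000), (nat_lit 6956064000), (nat_lit 8592066000)], [], [(nat_lit 31608321840), (nat_lit 27116724078), (nat_lit 39205962540), (nat_lit 33169565844), (nat_lit 29704362030), (nat_lit 23950487444), (nat_lit 44362650906), (nat_lit 38556228141)], (nat_lit 1271251), (nat_lit 1271251), (nat_lit 780000), (nat_lit 2090001), (nat_lit 0), (nat_lit 780000), [(nat_lit 1100000), (nat_lit 1785001), (nat_lit 1271251)], [(nat_lit 17), (nat_lit 58), (nat_lit 401), (nat_lit 175), (nat_lit 12)]⟩,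
 ⟨⟨[(nat_lit 120), (nat_lit 140), (nat_lit 160)], [(nat_lit 0), (nat_lit 266), (nat_lit 862)], [((nat_lit 0), (nat_lit 0), (nat_lit 0)), ((nat_lit 960), (nat_lit 1000), (nat_lit 200)), ((nat_lit 874), (nat_lit 1000), (nat_lit 406))], ((nat_lit 100), (nat_lit 83), (nat_lit 48))⟩, (nat_lit 1711517), (nat_lit 300), (nat_lit 685), (nat_lit 35789600), (nat_lit 876548), [(nat_lit 4294752000), (nat_lit 5304838000), (nat_lit 6399008000)], [], [(nat_lit 24970967817), (nat_lit 24615327059), (nat_lit 26128668527), (nat_lit 25816431375), (nat_lit 21001309196), (nat_lit 20638178920), (nat_lit 21688864748), (nat_lit 21313367834)], (nat_lit 1271251), (nat_lit 1271251), (nat_lit 1271251), (nat_lit 1271251), (nat_lit 0), (nat_lit 780000), [(nat_lit 1695001), (nat_lit 1271251), (nat_lit 1271251)], [(nat_lit 27), (nat_lit 62), (nat_lit 428), (nat_lit 200), (nat_lit 11)]⟩⟩) (.leaf ⟨(nat_lit 0), (nat_lit 585), (nat_lit 0), (nat_lit 415), (nat_lit 0), (nat_lit 5573),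 (nat_lit 9486), (nat_lit 4297), (nat_lit 0), (nat_lit 0), (nat_lit 0), [], Pd.none, Pd.none, (nat_lit 0), (nat_lit 1), (nat_lit 0), (nat_lit 0), (nat_lit 6), (nat_lit 0), [], [⟨(nat_lit 1), (nat_lit 63), (nat_lit 78), (nat_lit 100), (nat_lit 212885007)⟩], [⟨(nat_lit 0), (nat_lit 100), (nat_lit 87), (nat_lit 50), (nat_lit 568796824)⟩], [⟨(nat_lit 0), (nat_lit 84), (nat_lit 100), (nat_lit 55), (nat_lit 14598941)⟩],
 ⟨⟨[(nat_lit 40), (nat_lit 80), (nat_lit 100)], [(nat_lit 0), (nat_lit 0), (nat_lit 1280)], [((nat_lit 0), (nat_lit 0), (nat_lit 0)), ((nat_lit 0), (nat_lit 0), (nat_lit 0)), ((nat_lit 1000), (nat_lit 800), (nat_lit 600))], ((nat_lit 81), (nat_lit 100), (nat_lit 48))⟩, (nat_lit 5215039), (nat_lit 97), (nat_lit 97), (nat_lit 0), (nat_lit 0), [(nat_lit 2445936564), (nat_lit 4688000001), (nat_lit 6250000000)], [], [(nat_lit 21119192903), (nat_lit 21971311647), (nat_lit 25386677347), (nat_lit 26021696903), (nat_lit 29890397350), (nat_lit 30478487170),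 (nat_lit 31888932778), (nat_lit 32401818629)], (nat_lit 0), (nat_lit 0), (nat_lit 0), (nat_lit 0), (nat_lit 0), (nat_lit 0), [], [(nat_lit 3), (nat_lit 50), (nat_lit 289), (nat_lit 75), (nat_lit 10)]⟩,
 ⟨⟨[(nat_lit 60), (nat_lit 100), (nat_lit 120)], [(nat_lit 0), (nat_lit 0), (nat_lit 1164)], [((nat_lit 0), (nat_lit 0), (nat_lit 0)), ((nat_lit 0), (nat_lit 0), (nat_lit 0)), ((nat_lit 1000), (nat_lit 933), (nat_lit 572))], ((nat_lit 92), (nat_lit 100), (nat_lit 48))⟩, (nat_lit 4486650), (nat_lit 391), (nat_lit 391), (nat_lit 0), (nat_lit 516075), [(nat_lit 3282000000), (nat_lit 6250000000), (nat_lit 7968000000)], [], [(nat_lit 27190830146), (nat_lit 25970577760), (nat_lit 29382936836), (nat_lit 33556731068), (nat_lit 18128593440), (nat_lit 20758059466), (nat_lit 36030358109), (nat_lit 27491824532)], (nat_lit 1271251), (nat_lit 1271251), (nat_lit 780000), (nat_lit 2090001), (nat_lit 0), (nat_lit 780000), [(nat_lit 780000), (nat_lit 1435001), (nat_lit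 1271251)], [(nat_lit 10), (nat_lit 54), (nat_lit 317), (nat_lit 100), (nat_lit 10)]⟩,
 ⟨⟨[(nat_lit 120), (nat_lit 140), (nat_lit 160)], [(nat_lit 0), (nat_lit 266), (nat_lit 862)], [((nat_lit 0), (nat_lit 0), (nat_lit 0)), ((nat_lit 960), (nat_lit 1000), (nat_lit 200)), ((nat_lit 874), (nat_lit 1000), (nat_lit 406))], ((nat_lit 100), (nat_lit 83), (nat_lit 48))⟩, (nat_lit 2091975), (nat_lit 300), (nat_lit 892), (nat_lit 27556000), (nat_lit 1332895), [(nat_lit 3306720000), (nat_lit 4084430000), (nat_lit 4926880000)], [], [(nat_lit 20342138542), (nat_lit 20000092866), (nat_lit 20535680557), (nat_lit 20275093563), (nat_lit 17608387327), (nat_lit 17265574160), (nat_lit 17544557008), (nat_lit 17191937095)], (nat_lit 1271251), (nat_lit 1271251), (nat_lit 1271251), (nat_lit 1271251), (nat_lit 0), (nat_lit 780000), [(nat_lit 1695001), (nat_lit 1271251), (nat_lit 1271251)], [(nat_lit 27), (nat_lit 62), (nat_lit 428), (nat_lit 200), (nat_lit 11)]⟩⟩)) (.spl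 (nat_lit 1) (nat_lit 280) (.leaf ⟨(nat_lit 113), (nat_lit 282), (nat_lit 0), (nat_lit 605), (nat_lit 0), (nat_lit 4880), (nat_lit 5451), (nat_lit 5686), (nat_lit 0), (nat_lit 0), (nat_lit 452000), [((nat_lit 330), [((nat_lit 37), (nat_lit 5), (nat_lit 113))])], ⟨(nat_lit 6), false, false, false, (nat_lit 226), (nat_lit 4183), (nat_lit 4473), [(nat_lit 1407167), (nat_lit 1410812), (nat_lit 1450291), (nat_lit 1454137), (nat_lit 1679082), (nat_lit 1675838), (nat_lit 1722208), (nat_lit 1719164)]⟩, ⟨(nat_lit 6), false, true, true, (nat_lit 274), (nat_lit 4183), (nat_lit 4473), [(nat_lit 1546410), (nat_lit 1544587), (nat_lit 1589541), (nat_lit 1587919), (nat_lit 1784334), (nat_lit 1776482), (nat_lit 1827466), (nat_lit 1819815)]⟩, (nat_lit 5459489), (nat_lit 35686320), (nat_lit 13234077), (nat_lit 18079603), (nat_lit 6), (nat_lit 0), [], [], [], [],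
 ⟨⟨[(nat_lit 40), (nat_lit 80), (nat_lit 100)], [(nat_lit 0), (nat_lit 0), (nat_lit 1280)], [((nat_lit 0), (nat_lit 0), (nat_lit 0)), ((nat_lit 0), (nat_lit 0), (nat_lit 0)), ((nat_lit 1000), (nat_lit 800), (nat_lit 600))], ((nat_lit 81), (nat_lit 100), (nat_lit 48))⟩, (nat_lit 5288308), (nat_lit 97), (nat_lit 97), (nat_lit 0), (nat_lit 0), [(nat_lit 2298949987), (nat_lit 3602793219), (nat_lit 4195328581)], [(nat_lit 0), (nat_lit 0), (nat_lit 0)], [(nat_lit 20623895126), (nat_lit 21367030059), (nat_lit 24813318979), (nat_lit 25406403199), (nat_lit 28878385720), (nat_lit 29513913810), (nat_lit 31169539180), (nat_lit 31653542350)], (nat_lit 0), (nat_lit 0), (nat_lit 0), (nat_lit 0), (nat_lit 0), (nat_lit 0), [], [(nat_lit 3), (nat_lit 50), (nat_lit 289), (nat_lit 75), (nat_lit 10)]⟩,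
 ⟨⟨[(nat_lit 80), (nat_lit 120), (nat_lit 140)], [(nat_lit 0), (nat_lit 0), (nat_lit 1164)], [((nat_lit 0), (nat_lit 0), (nat_lit 0)), ((nat_lit 0), (nat_lit 0), (nat_lit 0)), ((nat_lit 941), (nat_lit 1000), (nat_lit 576))], ((nat_lit 100), (nat_lit 98), (nat_lit 48))⟩, (nat_lit 4718057), (nat_lit 314), (nat_lit 314), (nat_lit 0), (nat_lit 433375), [(nat_lit 4158256000), (nat_lit 7067616000), (nat_lit 8729854000)], [], [(nat_lit 33203843133), (nat_lit 27481173197), (nat_lit 32721282467), (nat_lit 30133052995), (nat_lit 42384456452), (nat_lit 37478758139), (nat_lit 56219531714), (nat_lit 51554249756)], (nat_lit 1271251), (nat_lit 1271251), (nat_lit 780000), (nat_lit 2090001), (nat_lit 780000), (nat_lit 3072501), [(nat_lit 1100000), (nat_lit 1785001), (nat_lit 1271251)], [(nat_lit 17), (nat_lit 58), (nat_lit 483), (nat_lit 250), (nat_lit 14)]⟩,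
 ⟨⟨[(nat_lit 120), (nat_lit 140), (nat_lit 160)], [(nat_lit 0), (nat_lit 266), (nat_lit 862)], [((nat_lit 0), (nat_lit 0), (nat_lit 0)), ((nat_lit 960), (nat_lit 1000), (nat_lit 200)), ((nat_lit 874), (nat_lit 1000), (nat_lit 406))], ((nat_lit 100), (nat_lit 83), (nat_lit 48))⟩, (nat_lit 2492568), (nat_lit 300), (nat_lit 829), (nat_lit 40172000), (nat_lit 1373004), [(nat_lit 4820640000), (nat_lit 5954410000), (nat_lit 7182560000)], [], [(nat_lit 28770206517), (nat_lit 28335284091), (nat_lit 28625632898), (nat_lit 28109790815), (nat_lit 26749708683), (nat_lit 26194014625), (nat_lit 26007906813), (nat_lit 25454382259)], (nat_lit 1271251), (nat_lit 1271251), (nat_lit 1271251), (nat_lit 1271251), (nat_lit 780000), (nat_lit 3072501), [(nat_lit 1695001), (nat_lit 1271251), (nat_lit 1271251)], [(nat_lit 27), (nat_lit 62), (nat_lit 483), (nat_lit 250), (nat_lit 12)]⟩⟩) (.spl (nat_lit 5) (nat_lit 280) (.leaf ⟨(nat_lit 0), (nat_lit 684), (nat_lit 0), (nat_lit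 316), (nat_lit 0), (nat_lit 5573), (nat_lit 8954), (nat_lit 3082), (nat_lit 0), (nat_lit 0), (nat_lit 0), [], Pd.none, Pd.none, (nat_lit 0), (nat_lit 1), (nat_lit 0), (nat_lit 0), (nat_lit 6), (nat_lit 0), [], [⟨(nat_lit 1), (nat_lit 63), (nat_lit 78), (nat_lit 100), (nat_lit 329409953)⟩], [], [],
 ⟨⟨[(nat_lit 40), (nat_lit 80), (nat_lit 100)], [(nat_lit 0), (nat_lit 0), (nat_lit 1280)], [((nat_lit 0), (nat_lit 0), (nat_lit 0)), ((nat_lit 0), (nat_lit 0), (nat_lit 0)), ((nat_lit 1000), (nat_lit 800), (nat_lit 600))], ((nat_lit 81), (nat_lit 100), (nat_lit 48))⟩, (nat_lit 5920192), (nat_lit 97), (nat_lit 97), (nat_lit 0), (nat_lit 0), [(nat_lit 2552268561), (nat_lit 4688001262), (nat_lit 6250000000)], [], [(nat_lit 21119194164), (nat_lit 21971312908), (nat_lit 25386678608), (nat_lit 26021698164), (nat_lit 29890398611), (nat_lit 30478487170), (nat_lit 31888932778), (nat_lit 32401818629)], (nat_lit 0), (nat_lit 0), (nat_lit 0), (nat_lit 0), (nat_lit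 0), (nat_lit 0), [], [(nat_lit 3), (nat_lit 50), (nat_lit 289), (nat_lit 75), (nat_lit 10)]⟩,
 ⟨⟨[(nat_lit 60), (nat_lit 100), (nat_lit 120)], [(nat_lit 0), (nat_lit 0), (nat_lit 1164)], [((nat_lit 0), (nat_lit 0), (nat_lit 0)), ((nat_lit 0), (nat_lit 0), (nat_lit 0)), ((nat_lit 1000), (nat_lit 933), (nat_lit 572))], ((nat_lit 92), (nat_lit 100), (nat_lit 48))⟩, (nat_lit 4030756), (nat_lit 290), (nat_lit 290), (nat_lit 0), (nat_lit 516075), [(nat_lit 3282000000), (nat_lit 6250000000), (nat_lit 7968000000)], [], [(nat_lit 16645033960), (nat_lit 20055051072), (nat_lit 23820674863), (nat_lit 24116228820), (nat_lit 23820674863), (nat_lit 24116228820), (nat_lit 43729797690), (nat_lit 35872868632)], (nat_lit 1271251), (nat_lit 1271251), (nat_lit 780000), (nat_lit 2090001), (nat_lit 780000), (nat_lit 2090001), [(nat_lit 780000), (nat_lit 1435001), (nat_lit 1271251)], [(nat_lit 10), (nat_lit 54), (nat_lit 373), (nat_lit 150), (nat_lit 12)]⟩,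
 ⟨⟨[(nat_lit 120), (nat_lit 140), (nat_lit 160)], [(nat_lit 0), (nat_lit 266), (nat_lit 862)], [((nat_lit 0), (nat_lit 0), (nat_lit 0)), ((nat_lit 960), (nat_lit 1000), (nat_lit 200)), ((nat_lit 874), (nat_lit 1000), (nat_lit 406))], ((nat_lit 100), (nat_lit 83), (nat_lit 48))⟩, (nat_lit 2207578), (nat_lit 300), (nat_lit 1211), (nat_lit 20982400), (nat_lit 2198225), [(nat_lit 2517888000), (nat_lit 3110072000), (nat_lit 3751552000)], [], [(nat_lit 15030975632), (nat_lit 14725532624), (nat_lit 14497267972), (nat_lit 14167090701), (nat_lit 13768159164), (nat_lit 13448075396), (nat_lit 13142878941), (nat_lit 12825616473)], (nat_lit 1271251), (nat_lit 1271251), (nat_lit 1271251), (nat_lit 1271251), (nat_lit 780000), (nat_lit 2090001), [(nat_lit 1695001), (nat_lit 1271251), (nat_lit 1271251)], [(nat_lit 27), (nat_lit 62), (nat_lit 456), (nat_lit 225), (nat_lit 11)]⟩⟩) (.leaf ⟨(nat_lit 0), (nat_lit 761), (nat_lit 0), (nat_lit 239), (nat_lit 0), (nat_lit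 5573), (nat_lit 7540), (nat_lit 2255), (nat_lit 0), (nat_lit 0), (nat_lit 0), [], Pd.none, Pd.none, (nat_lit 0), (nat_lit 1), (nat_lit 0), (nat_lit 0), (nat_lit 7), (nat_lit 0), [], [], [], [⟨(nat_lit 2), (nat_lit 73), (nat_lit 85), (nat_lit 100), (nat_lit 462504142)⟩],
 ⟨⟨[(nat_lit 40), (nat_lit 80), (nat_lit 100)], [(nat_lit 0), (nat_lit 0), (nat_lit 1280)], [((nat_lit 0), (nat_lit 0), (nat_lit 0)), ((nat_lit 0), (nat_lit 0), (nat_lit 0)), ((nat_lit 1000), (nat_lit 800), (nat_lit 600))], ((nat_lit 81), (nat_lit 100), (nat_lit 48))⟩, (nat_lit 4790397), (nat_lit 97), (nat_lit 97), (nat_lit 0), (nat_lit 0), [(nat_lit 2553688955), (nat_lit 4688000002), (nat_lit 6250000000)], [], [(nat_lit 21119192904), (nat_lit 21971311648), (nat_lit 25386677348), (nat_lit 26021696904), (nat_lit 29890397351), (nat_lit 30478487170), (nat_lit 31888932778), (nat_lit 32401818629)], (nat_lit 0), (nat_lit 0), (nat_lit 0), (nat_lit 0), (nat_lit 0), (nat_lit 0), [], [(nat_lit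 3), (nat_lit 50), (nat_lit 289), (nat_lit 75), (nat_lit 10)]⟩,
 ⟨⟨[(nat_lit 60), (nat_lit 100), (nat_lit 120)], [(nat_lit 0), (nat_lit 0), (nat_lit 1164)], [((nat_lit 0), (nat_lit 0), (nat_lit 0)), ((nat_lit 0), (nat_lit 0), (nat_lit 0)), ((nat_lit 1000), (nat_lit 933), (nat_lit 572))], ((nat_lit 92), (nat_lit 100), (nat_lit 48))⟩, (nat_lit 3178070), (nat_lit 302), (nat_lit 302), (nat_lit 0), (nat_lit 516075), [(nat_lit 3282000000), (nat_lit 6250000000), (nat_lit 7968000000)], [], [(nat_lit 24359518850), (nat_lit 26496938200), (nat_lit 27146150050), (nat_lit 28623446940), (nat_lit 32203344340), (nat_lit 34387674480), (nat_lit 33869199380), (nat_lit 35378786160)], (nat_lit 1271251), (nat_lit 1271251), (nat_lit 780000), (nat_lit 2090001), (nat_lit 1271251), (nat_lit 1271251), [(nat_lit 780000), (nat_lit 1435001), (nat_lit 1271251)], [(nat_lit 10), (nat_lit 54), (nat_lit 289), (nat_lit 75), (nat_lit 8)]⟩,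
 ⟨⟨[(nat_lit 120), (nat_lit 140), (nat_lit 160)], [(nat_lit 0), (nat_lit 266), (nat_lit 862)], [((nat_lit 0), (nat_lit 0), (nat_lit 0)), ((nat_lit 960), (nat_lit 1000), (nat_lit 200)), ((nat_lit 874), (nat_lit 1000), (nat_lit 406))], ((nat_lit 100), (nat_lit 83), (nat_lit 48))⟩, (nat_lit 2003895), (nat_lit 300), (nat_lit 1145), (nat_lit 15869600), (nat_lit 2198225), [(nat_lit 1904352000), (nat_lit 2352238000), (nat_lit 2837408000)], [], [(nat_lit 11070789098), (nat_lit 10838960535), (nat_lit 10619843744), (nat_lit 10373906686), (nat_lit 10746465595), (nat_lit 10501151401), (nat_lit 10232622884), (nat_lit 10025672674)], (nat_lit 1271251), (nat_lit 1271251), (nat_lit 1271251), (nat_lit 1271251), (nat_lit 1271251), (nat_lit 1271251), [(nat_lit 1695001), (nat_lit 1271251), (nat_lit 1271251)], [(nat_lit 27), (nat_lit 62), (nat_lit 483), (nat_lit 250), (nat_lit 11)]⟩⟩))))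
noncomputable def c11_57 : Tr Lf :=
 (.spl (nat_lit 5) (nat_lit 200) (.leaf ⟨(nat_lit 94), (nat_lit 803), (nat_lit 0), (nat_lit 103), (nat_lit 0), (nat_lit 5795), (nat_lit 6467), (nat_lit 1179), (nat_lit 0), (nat_lit 0), (nat_lit 376000), [((nat_lit 330), [((nat_lit 37), (nat_lit 5), (nat_lit 94))])], ⟨(nat_lit 6), true, false, false, (nat_lit 235), (nat_lit 4183), (nat_lit 4473), [(nat_lit 1407167), (nat_lit 1410812), (nat_lit 1493417), (nat_lit 1497463), (nat_lit 1679082), (nat_lit 1675838), (nat_lit 1765332), (nat_lit 1762489)]⟩, ⟨(nat_lit 6), false, false, true, (nat_lit 242), (nat_lit 4183), (nat_lit 4473), [(nat_lit 1481711), (nat_lit 1479587), (nat_lit 1546410), (nat_lit 1544587), (nat_lit 1668651), (nat_lit 1661790), (nat_lit 1733350), (nat_lit 1726790)]⟩, (nat_lit 5380397), (nat_lit 37221790), (nat_lit 14507554), (nat_lit 15270656), (nat_lit 6), (nat_lit 0), [⟨(nat_lit 0), (nat_lit 82), (nat_lit 78), (nat_lit 100), (nat_lit 343293681)⟩],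 [⟨(nat_lit 1), (nat_lit 68), (nat_lit 80), (nat_lit 100), (nat_lit 401340230)⟩], [⟨(nat_lit 0), (nat_lit 100), (nat_lit 80), (nat_lit 52), (nat_lit 25312453)⟩], [],
 ⟨⟨[(nat_lit 40), (nat_lit 80), (nat_lit 100)], [(nat_lit 0), (nat_lit 0), (nat_lit 1280)], [((nat_lit 0), (nat_lit 0), (nat_lit 0)), ((nat_lit 0), (nat_lit 0), (nat_lit 0)), ((nat_lit 1000), (nat_lit 800), (nat_lit 600))], ((nat_lit 81), (nat_lit 100), (nat_lit 48))⟩, (nat_lit 868020), (nat_lit 279), (nat_lit 279), (nat_lit 0), (nat_lit 600003), [(nat_lit 2213201110), (nat_lit 3785261702), (nat_lit 4534246698)], [(nat_lit 0), (nat_lit 0), (nat_lit 0)], [(nat_lit 23083982822), (nat_lit 23659392962), (nat_lit 25739229312), (nat_lit 26182499696), (nat_lit 27570830609), (nat_lit 28338629967), (nat_lit 30241734655), (nat_lit 30815746014)], (nat_lit 1271251), (nat_lit 1271251), (nat_lit 780000), (nat_lit 2090001), (nat_lit 1271251), (nat_lit 1271251), [(nat_lit 490000), (nat_lit 1100000),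 (nat_lit 1442501)], [(nat_lit 3), (nat_lit 50), (nat_lit 289), (nat_lit 75), (nat_lit 10)]⟩,
 ⟨⟨[(nat_lit 80), (nat_lit 120), (nat_lit 140)], [(nat_lit 0), (nat_lit 0), (nat_lit 1164)], [((nat_lit 0), (nat_lit 0), (nat_lit 0)), ((nat_lit 0), (nat_lit 0), (nat_lit 0)), ((nat_lit 941), (nat_lit 1000), (nat_lit 576))], ((nat_lit 100), (nat_lit 98), (nat_lit 48))⟩, (nat_lit 3651372), (nat_lit 197), (nat_lit 197), (nat_lit 0), (nat_lit 0), [(nat_lit 4247328000), (nat_lit 7219008000), (nat_lit 8916852000)], [], [(nat_lit 19492962914), (nat_lit 25363971712), (nat_lit 24976778622), (nat_lit 29908713354), (nat_lit 18077672594), (nat_lit 22644114805), (nat_lit 22280389937), (nat_lit 25590099422)], (nat_lit 0), (nat_lit 0), (nat_lit 0), (nat_lit 0), (nat_lit 0), (nat_lit 0), [], [(nat_lit 17), (nat_lit 58), (nat_lit 428), (nat_lit 200), (nat_lit 12)]⟩,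
 ⟨⟨[(nat_lit 140), (nat_lit 160), (nat_lit 180)], [(nat_lit 0), (nat_lit 0), (nat_lit 799)], [((nat_lit 0), (nat_lit 0), (nat_lit 0)), ((nat_lit 0), (nat_lit 0), (nat_lit 0)), ((nat_lit 728), (nat_lit 1000), (nat_lit 454))], ((nat_lit 100), (nat_lit 67), (nat_lit 52))⟩, (nat_lit 90497), (nat_lit 300), (nat_lit 1938), (nat_lit 7642600), (nat_lit 3359100), [(nat_lit 1013726000), (nat_lit 1222816000), (nat_lit 1447974000)], [], [(nat_lit 6213489352), (nat_lit 5976784144), (nat_lit 6165224238), (nat_lit 5928863463), (nat_lit 5086405058), (nat_lit 5054137736), (nat_lit 4972291633), (nat_lit 4731000656)], (nat_lit 780000), (nat_lit 1271251), (nat_lit 1271251), (nat_lit 1271251), (nat_lit 0), (nat_lit 1412501), [(nat_lit 1977501), (nat_lit 1271251), (nat_lit 1271251)], [(nat_lit 31), (nat_lit 65), (nat_lit 576), (nat_lit 200), (nat_lit 13)]⟩⟩) (.spl (nat_lit 5) (nat_lit 320) (.leaf ⟨(nat_lit 104), (nat_lit 782), (nat_lit 0), (nat_lit 114), (nat_lit 0),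 (nat_lit 5706), (nat_lit 5597), (nat_lit 1249), (nat_lit 0), (nat_lit 0), (nat_lit 416000), [((nat_lit 330), [((nat_lit 37), (nat_lit 5), (nat_lit 104))])], ⟨(nat_lit 6), true, false, false, (nat_lit 235), (nat_lit 4183), (nat_lit 4473), [(nat_lit 1407167), (nat_lit 1410812), (nat_lit 1493417), (nat_lit 1497463), (nat_lit 1679082), (nat_lit 1675838), (nat_lit 1765332), (nat_lit 1762489)]⟩, ⟨(nat_lit 6), false, false, true, (nat_lit 242), (nat_lit 4183), (nat_lit 4473), [(nat_lit 1481711), (nat_lit 1479587), (nat_lit 1546410), (nat_lit 1544587), (nat_lit 1668651), (nat_lit 1661790), (nat_lit 1733350), (nat_lit 1726790)]⟩, (nat_lit 5380397), (nat_lit 37221790), (nat_lit 14507554), (nat_lit 15270656), (nat_lit 6), (nat_lit 0), [⟨(nat_lit 0), (nat_lit 82), (nat_lit 78), (nat_lit 100), (nat_lit 386849057)⟩], [⟨(nat_lit 1), (nat_lit 83), (nat_lit 81), (nat_lit 100), (nat_lit 404712615)⟩], [], [],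
 ⟨⟨[(nat_lit 40), (nat_lit 80), (nat_lit 100)], [(nat_lit 0), (nat_lit 0), (nat_lit 1280)], [((nat_lit 0), (nat_lit 0), (nat_lit 0)), ((nat_lit 0), (nat_lit 0), (nat_lit 0)), ((nat_lit 1000), (nat_lit 800), (nat_lit 600))], ((nat_lit 81), (nat_lit 100), (nat_lit 48))⟩, (nat_lit 1767957), (nat_lit 279), (nat_lit 279), (nat_lit 0), (nat_lit 600003), [(nat_lit 2256931215), (nat_lit 3689225601), (nat_lit 4355868799)], [(nat_lit 0), (nat_lit 0), (nat_lit 0)], [(nat_lit 22827614202), (nat_lit 23397592207), (nat_lit 25671909227), (nat_lit 26133311715), (nat_lit 27485328016), (nat_lit 28236706121), (nat_lit 30164352804), (nat_lit 30734008202)], (nat_lit 1271251), (nat_lit 1271251), (nat_lit 780000), (nat_lit 2090001), (nat_lit 1271251), (nat_lit 1271251), [(nat_lit 490000), (nat_lit 1100000), (nat_lit 1442501)], [(nat_lit 3), (nat_lit 50), (nat_lit 289), (nat_lit 75), (nat_lit 10)]⟩,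
 ⟨⟨[(nat_lit 80), (nat_lit 120), (nat_lit 140)], [(nat_lit 0), (nat_lit 0), (nat_lit 1164)], [((nat_lit 0), (nat_lit 0), (nat_lit 0)), ((nat_lit 0), (nat_lit 0), (nat_lit 0)), ((nat_lit 941), (nat_lit 1000), (nat_lit 576))], ((nat_lit 100), (nat_lit 98), (nat_lit 48))⟩, (nat_lit 76317), (nat_lit 79), (nat_lit 79), (nat_lit 0), (nat_lit 0), [(nat_lit 4200448000), (nat_lit 7139328000), (nat_lit 8818432000)], [], [(nat_lit 11026701506), (nat_lit 17059191322), (nat_lit 17169726982), (nat_lit 21423017464), (nat_lit 18448719990), (nat_lit 22773086130), (nat_lit 22300651058), (nat_lit 25697829664)], (nat_lit 0), (nat_lit 0), (nat_lit 0), (nat_lit 0), (nat_lit 0), (nat_lit 0), [], [(nat_lit 17), (nat_lit 58), (nat_lit 483), (nat_lit 250), (nat_lit 13)]⟩,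
 ⟨⟨[(nat_lit 140), (nat_lit 160), (nat_lit 180)], [(nat_lit 0), (nat_lit 0), (nat_lit 799)], [((nat_lit 0), (nat_lit 0), (nat_lit 0)), ((nat_lit 0), (nat_lit 0), (nat_lit 0)), ((nat_lit 728), (nat_lit 1000), (nat_lit 454))], ((nat_lit 100), (nat_lit 67), (nat_lit 52))⟩, (nat_lit 239357), (nat_lit 300), (nat_lit 1828), (nat_lit 8458800), (nat_lit 3359100), [(nat_lit 1121988000), (nat_lit 1353408000), (nat_lit 1602612000)], [], [(nat_lit 6020251248), (nat_lit 5773437543), (nat_lit 5767683460), (nat_lit 5506866107), (nat_lit 5651811932), (nat_lit 5393382007), (nat_lit 5480454903), (nat_lit 5217229264)], (nat_lit 780000), (nat_lit 1271251), (nat_lit 1271251), (nat_lit 1271251), (nat_lit 1271251), (nat_lit 1271251), [(nat_lit 1977501), (nat_lit 1271251), (nat_lit 1271251)], [(nat_lit 31), (nat_lit 65), (nat_lit 564), (nat_lit 225), (nat_lit 12)]⟩⟩) (.spl (nat_lit 1) (nat_lit 280) (.leaf ⟨(nat_lit 117), (nat_lit 781), (nat_lit 0), (nat_lit 102), (nat_lit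 0), (nat_lit 5264), (nat_lit 7797), (nat_lit 1083), (nat_lit 0), (nat_lit 0), (nat_lit 468000), [((nat_lit 330), [((nat_lit 37), (nat_lit 5), (nat_lit 117))])], ⟨(nat_lit 6), true, false, false, (nat_lit 226), (nat_lit 4183), (nat_lit 4473), [(nat_lit 1407167), (nat_lit 1410812), (nat_lit 1450291), (nat_lit 1454137), (nat_lit 1679082), (nat_lit 1675838), (nat_lit 1722208), (nat_lit 1719164)]⟩, ⟨(nat_lit 6), false, false, true, (nat_lit 242), (nat_lit 4183), (nat_lit 4473), [(nat_lit 1481711), (nat_lit 1479587), (nat_lit 1546410), (nat_lit 1544587), (nat_lit 1668651), (nat_lit 1661790), (nat_lit 1733350), (nat_lit 1726790)]⟩, (nat_lit 5334535), (nat_lit 37763217), (nat_lit 13802703), (nat_lit 15434080), (nat_lit 8), (nat_lit 0), [], [⟨(nat_lit 1), (nat_lit 83), (nat_lit 81), (nat_lit 100), (nat_lit 35020853)⟩], [⟨(nat_lit 1), (nat_lit 55), (nat_lit 99), (nat_lit 100), (nat_lit 102287750)⟩], [⟨(nat_lit 2), (nat_lit 61), (nat_lit 89), (nat_lit 100),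 (nat_lit 500143400)⟩],
 ⟨⟨[(nat_lit 40), (nat_lit 80), (nat_lit 100)], [(nat_lit 0), (nat_lit 0), (nat_lit 1280)], [((nat_lit 0), (nat_lit 0), (nat_lit 0)), ((nat_lit 0), (nat_lit 0), (nat_lit 0)), ((nat_lit 1000), (nat_lit 800), (nat_lit 600))], ((nat_lit 81), (nat_lit 100), (nat_lit 48))⟩, (nat_lit 1330032), (nat_lit 211), (nat_lit 211), (nat_lit 0), (nat_lit 384151), [(nat_lit 2314297709), (nat_lit 3564378965), (nat_lit 4123977235)], [(nat_lit 0), (nat_lit 0), (nat_lit 0)], [(nat_lit 21887939143), (nat_lit 22538040043), (nat_lit 25353583943), (nat_lit 25848189460), (nat_lit 27196195016), (nat_lit 27730814915), (nat_lit 29780051926), (nat_lit 30328074352)], (nat_lit 1271251), (nat_lit 1271251), (nat_lit 780000), (nat_lit 2090001), (nat_lit 1271251), (nat_lit 1271251), [(nat_lit 490000), (nat_lit 1100000), (nat_lit 1442501)], [(nat_lit 3), (nat_lit 50), (nat_lit 289), (nat_lit 75), (nat_lit 10)]⟩,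
 ⟨⟨[(nat_lit 80), (nat_lit 120), (nat_lit 140)], [(nat_lit 0), (nat_lit 0), (nat_lit 1164)], [((nat_lit 0), (nat_lit 0), (nat_lit 0)), ((nat_lit 0), (nat_lit 0), (nat_lit 0)), ((nat_lit 941), (nat_lit 1000), (nat_lit 576))], ((nat_lit 100), (nat_lit 98), (nat_lit 48))⟩, (nat_lit 42064), (nat_lit 116), (nat_lit 116), (nat_lit 0), (nat_lit 0), [(nat_lit 4139504000), (nat_lit 7035744000), (nat_lit 8690486000)], [], [(nat_lit 21622757784), (nat_lit 23749444155), (nat_lit 24406446988), (nat_lit 25837752120), (nat_lit 28520752926), (nat_lit 29989025357), (nat_lit 29741755624), (nat_lit 31145927475)], (nat_lit 0), (nat_lit 0), (nat_lit 0), (nat_lit 0), (nat_lit 0), (nat_lit 0), [], [(nat_lit 17), (nat_lit 58), (nat_lit 373), (nat_lit 150), (nat_lit 10)]⟩,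
 ⟨⟨[(nat_lit 140), (nat_lit 160), (nat_lit 180)], [(nat_lit 0), (nat_lit 0), (nat_lit 799)], [((nat_lit 0), (nat_lit 0), (nat_lit 0)), ((nat_lit 0), (nat_lit 0), (nat_lit 0)), ((nat_lit 728), (nat_lit 1000), (nat_lit 454))], ((nat_lit 100), (nat_lit 67), (nat_lit 52))⟩, (nat_lit 252857), (nat_lit 300), (nat_lit 1169), (nat_lit 7568400), (nat_lit 2095502), [(nat_lit 1003884000), (nat_lit 1210944000), (nat_lit 1433916000)], [], [(nat_lit 5308009728), (nat_lit 5083200066), (nat_lit 5085208881), (nat_lit 4855232348), (nat_lit 5205366432), (nat_lit 4974985467), (nat_lit 5046732798), (nat_lit 4815158247)], (nat_lit 780000), (nat_lit 1271251), (nat_lit 1271251), (nat_lit 1271251), (nat_lit 1271251), (nat_lit 1271251), [(nat_lit 1977501), (nat_lit 1271251), (nat_lit 1271251)], [(nat_lit 31), (nat_lit 65), (nat_lit 483), (nat_lit 250), (nat_lit 10)]⟩⟩) (.trX (nat_lit 5) (nat_lit 1) (nat_lit 2) (nat_lit 92) (nat_lit 49) (nat_lit 100) (nat_lit 380) (.leaf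 ⟨(nat_lit 119), (nat_lit 758), (nat_lit 0), (nat_lit 123), (nat_lit 0), (nat_lit 5544), (nat_lit 7047), (nat_lit 1322), (nat_lit 0), (nat_lit 0), (nat_lit 476000), [((nat_lit 330), [((nat_lit 37), (nat_lit 5), (nat_lit 119))])], ⟨(nat_lit 7), true, false, false, (nat_lit 243), (nat_lit 4183), (nat_lit 4473), [(nat_lit 1450291), (nat_lit 1454137), (nat_lit 1493417), (nat_lit 1497463), (nat_lit 1722208), (nat_lit 1719164), (nat_lit 1765332), (nat_lit 1762489)]⟩, ⟨(nat_lit 6), false, false, true, (nat_lit 242), (nat_lit 4183), (nat_lit 4473), [(nat_lit 1481711), (nat_lit 1479587), (nat_lit 1546410), (nat_lit 1544587), (nat_lit 1668651), (nat_lit 1661790), (nat_lit 1733350), (nat_lit 1726790)]⟩, (nat_lit 5422308), (nat_lit 36681379), (nat_lit 15213961), (nat_lit 15104660), (nat_lit 8), (nat_lit 0), [⟨(nat_lit 0), (nat_lit 82), (nat_lit 78), (nat_lit 100), (nat_lit 209529961)⟩], [⟨(nat_lit 1), (nat_lit 83), (nat_lit 81), (nat_lit 100), (nat_lit 199249796)⟩],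 [⟨(nat_lit 1), (nat_lit 72), (nat_lit 89), (nat_lit 100), (nat_lit 477535569)⟩], [⟨(nat_lit 2), (nat_lit 68), (nat_lit 90), (nat_lit 100), (nat_lit 186722791)⟩],
 ⟨⟨[(nat_lit 40), (nat_lit 80), (nat_lit 100)], [(nat_lit 0), (nat_lit 0), (nat_lit 1280)], [((nat_lit 0), (nat_lit 0), (nat_lit 0)), ((nat_lit 0), (nat_lit 0), (nat_lit 0)), ((nat_lit 1000), (nat_lit 800), (nat_lit 600))], ((nat_lit 81), (nat_lit 100), (nat_lit 48))⟩, (nat_lit 2435210), (nat_lit 279), (nat_lit 279), (nat_lit 0), (nat_lit 599867), [(nat_lit 2323123241), (nat_lit 3545171613), (nat_lit 4088301787)], [(nat_lit 0), (nat_lit 0), (nat_lit 0)], [(nat_lit 22983354896), (nat_lit 23544862204), (nat_lit 25807441296), (nat_lit 26234731814), (nat_lit 27423731939), (nat_lit 28051181817), (nat_lit 30023500446), (nat_lit 30585227017)], (nat_lit 1271251), (nat_lit 1271251), (nat_lit 780000), (nat_lit 2090001), (nat_lit 1271251), (nat_lit 1271251), [(nat_lit 490000), (nat_lit 1100000),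 (nat_lit 1442501)], [(nat_lit 3), (nat_lit 50), (nat_lit 289), (nat_lit 75), (nat_lit 10)]⟩,
 ⟨⟨[(nat_lit 60), (nat_lit 100), (nat_lit 120)], [(nat_lit 0), (nat_lit 0), (nat_lit 1164)], [((nat_lit 0), (nat_lit 0), (nat_lit 0)), ((nat_lit 0), (nat_lit 0), (nat_lit 0)), ((nat_lit 1000), (nat_lit 933), (nat_lit 572))], ((nat_lit 92), (nat_lit 100), (nat_lit 48))⟩, (nat_lit 179820), (nat_lit 96), (nat_lit 96), (nat_lit 0), (nat_lit 0), [(nat_lit 2891442000), (nat_lit 5506250000), (nat_lit 7019808000)], [], [(nat_lit 21416679369), (nat_lit 23646698380), (nat_lit 24367321439), (nat_lit 26349494664), (nat_lit 26883796543), (nat_lit 29087550576), (nat_lit 28800779101), (nat_lit 30312733682)], (nat_lit 0), (nat_lit 0), (nat_lit 0), (nat_lit 0), (nat_lit 0), (nat_lit 0), [], [(nat_lit 10), (nat_lit 54), (nat_lit 289), (nat_lit 75), (nat_lit 8)]⟩,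
 ⟨⟨[(nat_lit 140), (nat_lit 160), (nat_lit 180)], [(nat_lit 0), (nat_lit 0), (nat_lit 799)], [((nat_lit 0), (nat_lit 0), (nat_lit 0)), ((nat_lit 0), (nat_lit 0), (nat_lit 0)), ((nat_lit 728), (nat_lit 1000), (nat_lit 454))], ((nat_lit 100), (nat_lit 67), (nat_lit 52))⟩, (nat_lit 664721), (nat_lit 300), (nat_lit 1772), (nat_lit 9126600), (nat_lit 3359100), [(nat_lit 1210566000), (nat_lit 1460256000), (nat_lit 1729134000)], [], [(nat_lit 6343879164), (nat_lit 6080109332), (nat_lit 6032161443), (nat_lit 5755256417), (nat_lit 6196755208), (nat_lit 5918998446), (nat_lit 6016896878), (nat_lit 5738106533)], (nat_lit 780000), (nat_lit 1271251), (nat_lit 1271251), (nat_lit 1271251), (nat_lit 1271251), (nat_lit 1271251), [(nat_lit 1977501), (nat_lit 1271251), (nat_lit 1271251)], [(nat_lit 31), (nat_lit 65), (nat_lit 557), (nat_lit 250), (nat_lit 12)]⟩⟩)))))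
noncomputable def c11_58 : Tr Lf :=
 (.spl (nat_lit 5) (nat_lit 120) (.spl (nat_lit 0) (nat_lit 325) (.spl (nat_lit 1) (nat_lit 280) (.leaf ⟨(nat_lit 159), (nat_lit 554), (nat_lit 0), (nat_lit 287), (nat_lit 0), (nat_lit 4790), (nat_lit 5829), (nat_lit 3635), (nat_lit 0), (nat_lit 0), (nat_lit 636000), [((nat_lit 325), [((nat_lit 37), (nat_lit 5), (nat_lit 159))])], ⟨(nat_lit 6), false, false, false, (nat_lit 226), (nat_lit 4330), (nat_lit 4473), [(nat_lit 1407174), (nat_lit 1408989), (nat_lit 1450305), (nat_lit 1452215), (nat_lit 1679087), (nat_lit 1677460), (nat_lit 1722218), (nat_lit 1720686)]⟩, ⟨(nat_lit 6), false, false, true, (nat_lit 243), (nat_lit 4330), (nat_lit 4473), [(nat_lit 1481711), (nat_lit 1480662), (nat_lit 1546410), (nat_lit 1545502), (nat_lit 1668651), (nat_lit 1665235), (nat_lit 1733350), (nat_lit 1730076)]⟩, (nat_lit 5336453), (nat_lit 37736171), (nat_lit 13792775), (nat_lit 15471054), (nat_lit 6), (nat_lit 0), [], [⟨(nat_lit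 1), (nat_lit 82), (nat_lit 82), (nat_lit 100), (nat_lit 201555623)⟩], [], [],
 ⟨⟨[(nat_lit 40), (nat_lit 80), (nat_lit 100)], [(nat_lit 0), (nat_lit 0), (nat_lit 1280)], [((nat_lit 0), (nat_lit 0), (nat_lit 0)), ((nat_lit 0), (nat_lit 0), (nat_lit 0)), ((nat_lit 1000), (nat_lit 800), (nat_lit 600))], ((nat_lit 81), (nat_lit 100), (nat_lit 48))⟩, (nat_lit 504824), (nat_lit 135), (nat_lit 135), (nat_lit 0), (nat_lit 175277), [(nat_lit 2233144018), (nat_lit 3249858245), (nat_lit 3299087200)], [(nat_lit 0), (nat_lit 0), (nat_lit 0)], [(nat_lit 20726651558), (nat_lit 21069651495), (nat_lit 24656518421), (nat_lit 24917697378), (nat_lit 26495843010), (nat_lit 26841662638), (nat_lit 29367928360), (nat_lit 29630339994)], (nat_lit 1271251), (nat_lit 1271251), (nat_lit 780000), (nat_lit 2090001), (nat_lit 1271251), (nat_lit 1271251), [(nat_lit 490000), (nat_lit 1100000), (nat_lit 1442501)], [(nat_lit 3), (nat_lit 50), (nat_lit 289), (nat_lit 75), (nat_lit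 10)]⟩,
 ⟨⟨[(nat_lit 80), (nat_lit 120), (nat_lit 140)], [(nat_lit 0), (nat_lit 0), (nat_lit 1164)], [((nat_lit 0), (nat_lit 0), (nat_lit 0)), ((nat_lit 0), (nat_lit 0), (nat_lit 0)), ((nat_lit 941), (nat_lit 1000), (nat_lit 576))], ((nat_lit 100), (nat_lit 98), (nat_lit 48))⟩, (nat_lit 0), (nat_lit 304), (nat_lit 304), (nat_lit 0), (nat_lit 217241), [(nat_lit 3942608000), (nat_lit 6701088000), (nat_lit 8277122000)], [], [(nat_lit 30228890660), (nat_lit 30148856750), (nat_lit 37762614596), (nat_lit 32483680274), (nat_lit 29154357749), (nat_lit 27261928515), (nat_lit 42556956917), (nat_lit 37377030640)], (nat_lit 1271251), (nat_lit 1271251), (nat_lit 780000), (nat_lit 2090001), (nat_lit 0), (nat_lit 780000), [(nat_lit 1100000), (nat_lit 1785001), (nat_lit 1271251)], [(nat_lit 17), (nat_lit 58), (nat_lit 401), (nat_lit 175), (nat_lit 12)]⟩,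
 ⟨⟨[(nat_lit 140), (nat_lit 160), (nat_lit 180)], [(nat_lit 0), (nat_lit 0), (nat_lit 799)], [((nat_lit 0), (nat_lit 0), (nat_lit 0)), ((nat_lit 0), (nat_lit 0), (nat_lit 0)), ((nat_lit 728), (nat_lit 1000), (nat_lit 454))], ((nat_lit 100), (nat_lit 67), (nat_lit 52))⟩, (nat_lit 252158), (nat_lit 300), (nat_lit 636), (nat_lit 21295400), (nat_lit 561957), [(nat_lit 2824654000), (nat_lit 3407264000), (nat_lit 4034646000)], [], [(nat_lit 16288682140), (nat_lit 15652461684), (nat_lit 16656768412), (nat_lit 15919521222), (nat_lit 13444105724), (nat_lit 12836462855), (nat_lit 13730697824), (nat_lit 13029184865)], (nat_lit 780000), (nat_lit 1271251), (nat_lit 1271251), (nat_lit 1271251), (nat_lit 0), (nat_lit 780000), [(nat_lit 1977501), (nat_lit 1271251), (nat_lit 1271251)], [(nat_lit 31), (nat_lit 65), (nat_lit 401), (nat_lit 175), (nat_lit 9)]⟩⟩) (.leaf ⟨(nat_lit 0), (nat_lit 708), (nat_lit 0), (nat_lit 292), (nat_lit 0), (nat_lit 6252), (nat_lit 9761),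 (nat_lit 3731), (nat_lit 0), (nat_lit 0), (nat_lit 0), [], Pd.none, Pd.none, (nat_lit 0), (nat_lit 1), (nat_lit 0), (nat_lit 0), (nat_lit 6), (nat_lit 0), [], [⟨(nat_lit 1), (nat_lit 82), (nat_lit 82), (nat_lit 100), (nat_lit 270631644)⟩], [⟨(nat_lit 0), (nat_lit 100), (nat_lit 89), (nat_lit 28), (nat_lit 4907651)⟩], [],
 ⟨⟨[(nat_lit 40), (nat_lit 80), (nat_lit 100)], [(nat_lit 0), (nat_lit 0), (nat_lit 1280)], [((nat_lit 0), (nat_lit 0), (nat_lit 0)), ((nat_lit 0), (nat_lit 0), (nat_lit 0)), ((nat_lit 1000), (nat_lit 800), (nat_lit 600))], ((nat_lit 81), (nat_lit 100), (nat_lit 48))⟩, (nat_lit 1891837), (nat_lit 160), (nat_lit 160), (nat_lit 0), (nat_lit 263687), [(nat_lit 2760030011), (nat_lit 4688000079), (nat_lit 6250000000)], [], [(nat_lit 22213970398), (nat_lit 22597045577), (nat_lit 25819805286), (nat_lit 26105509242), (nat_lit 28169465831), (nat_lit 28460899900), (nat_lit 30639077418), (nat_lit 30937266659)], (nat_lit 1271251), (nat_lit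 1271251), (nat_lit 780000), (nat_lit 2090001), (nat_lit 1271251), (nat_lit 1271251), [(nat_lit 490000), (nat_lit 1100000), (nat_lit 1442501)], [(nat_lit 3), (nat_lit 50), (nat_lit 289), (nat_lit 75), (nat_lit 10)]⟩,
 ⟨⟨[(nat_lit 60), (nat_lit 100), (nat_lit 120)], [(nat_lit 0), (nat_lit 0), (nat_lit 1164)], [((nat_lit 0), (nat_lit 0), (nat_lit 0)), ((nat_lit 0), (nat_lit 0), (nat_lit 0)), ((nat_lit 1000), (nat_lit 933), (nat_lit 572))], ((nat_lit 92), (nat_lit 100), (nat_lit 48))⟩, (nat_lit 2155064), (nat_lit 276), (nat_lit 276), (nat_lit 0), (nat_lit 274377), [(nat_lit 3282000000), (nat_lit 6250000000), (nat_lit 7968000000)], [], [(nat_lit 27036915671), (nat_lit 26374321760), (nat_lit 29269883355), (nat_lit 34038294018), (nat_lit 16364945043), (nat_lit 19615258393), (nat_lit 35769543022), (nat_lit 26983476582)], (nat_lit 1271251), (nat_lit 1271251), (nat_lit 780000), (nat_lit 2090001), (nat_lit 0), (nat_lit 780000), [(nat_lit 780000), (nat_lit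 1435001), (nat_lit 1271251)], [(nat_lit 10), (nat_lit 54), (nat_lit 317), (nat_lit 100), (nat_lit 10)]⟩,
 ⟨⟨[(nat_lit 140), (nat_lit 160), (nat_lit 180)], [(nat_lit 0), (nat_lit 0), (nat_lit 799)], [((nat_lit 0), (nat_lit 0), (nat_lit 0)), ((nat_lit 0), (nat_lit 0), (nat_lit 0)), ((nat_lit 728), (nat_lit 1000), (nat_lit 454))], ((nat_lit 100), (nat_lit 67), (nat_lit 52))⟩, (nat_lit 270124), (nat_lit 300), (nat_lit 772), (nat_lit 21666400), (nat_lit 839967), [(nat_lit 2873864000), (nat_lit 3466624000), (nat_lit 4104936000)], [], [(nat_lit 16527690312), (nat_lit 15872125131), (nat_lit 16899861928), (nat_lit 16190596402), (nat_lit 13722448730), (nat_lit 12995199746), (nat_lit 13892744405), (nat_lit 13170391492)], (nat_lit 780000), (nat_lit 1271251), (nat_lit 1271251), (nat_lit 1271251), (nat_lit 0), (nat_lit 780000), [(nat_lit 1977501), (nat_lit 1271251), (nat_lit 1271251)], [(nat_lit 31), (nat_lit 65), (nat_lit 401), (nat_lit 175), (nat_lit 9)]⟩⟩))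 (.spl (nat_lit 1) (nat_lit 280) (.leaf ⟨(nat_lit 91), (nat_lit 626), (nat_lit 0), (nat_lit 283), (nat_lit 0), (nat_lit 4982), (nat_lit 6002), (nat_lit 3584), (nat_lit 0), (nat_lit 0), (nat_lit 364000), [((nat_lit 330), [((nat_lit 37), (nat_lit 5), (nat_lit 91))])], ⟨(nat_lit 6), false, false, false, (nat_lit 226), (nat_lit 4183), (nat_lit 4331), [(nat_lit 1408988), (nat_lit 1410819), (nat_lit 1452214), (nat_lit 1454150), (nat_lit 1677460), (nat_lit 1675842), (nat_lit 1720686), (nat_lit 1719174)]⟩, ⟨(nat_lit 6), false, false, true, (nat_lit 242), (nat_lit 4183), (nat_lit 4331), [(nat_lit 1480662), (nat_lit 1479587), (nat_lit 1545502), (nat_lit 1544587), (nat_lit 1665235), (nat_lit 1661790), (nat_lit 1730076), (nat_lit 1726790)]⟩, (nat_lit 5332643), (nat_lit 37789803), (nat_lit 13812843), (nat_lit 15397354), (nat_lit 6), (nat_lit 0), [], [⟨(nat_lit 1), (nat_lit 84), (nat_lit 80), (nat_lit 100), (nat_lit 274934070)⟩], [], [],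
 ⟨⟨[(nat_lit 40), (nat_lit 80), (nat_lit 100)], [(nat_lit 0), (nat_lit 192), (nat_lit 1404)], [((nat_lit 0), (nat_lit 0), (nat_lit 0)), ((nat_lit 1000), (nat_lit 955), (nat_lit 75)), ((nat_lit 1000), (nat_lit 781), (nat_lit 625))], ((nat_lit 79), (nat_lit 100), (nat_lit 48))⟩, (nat_lit 1424531), (nat_lit 140), (nat_lit 140), (nat_lit 0), (nat_lit 186685), [(nat_lit 2201885772), (nat_lit 3814072401), (nat_lit 4587760199)], [(nat_lit 0), (nat_lit 0), (nat_lit 0)], [(nat_lit 20876977039), (nat_lit 21234016215), (nat_lit 24975379474), (nat_lit 25275007734), (nat_lit 27054613635), (nat_lit 27407572814), (nat_lit 29801974686), (nat_lit 30069084883)], (nat_lit 1271251), (nat_lit 1271251), (nat_lit 780000), (nat_lit 2090001), (nat_lit 1271251), (nat_lit 1271251), [(nat_lit 490000), (nat_lit 1100000), (nat_lit 1442501)], [(nat_lit 3), (nat_lit 50), (nat_lit 289), (nat_lit 75), (nat_lit 10)]⟩,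
 ⟨⟨[(nat_lit 80), (nat_lit 120), (nat_lit 140)], [(nat_lit 0), (nat_lit 0), (nat_lit 1164)], [((nat_lit 0), (nat_lit 0), (nat_lit 0)), ((nat_lit 0), (nat_lit 0), (nat_lit 0)), ((nat_lit 941), (nat_lit 1000), (nat_lit 576))], ((nat_lit 100), (nat_lit 98), (nat_lit 48))⟩, (nat_lit 0), (nat_lit 312), (nat_lit 312), (nat_lit 0), (nat_lit 235180), [(nat_lit 4261392000), (nat_lit 7242912000), (nat_lit 8946378000)], [], [(nat_lit 32531569120), (nat_lit 33116713896), (nat_lit 40811951100), (nat_lit 35673121422), (nat_lit 31856963610), (nat_lit 30228841439), (nat_lit 45882869798), (nat_lit 40549207503)], (nat_lit 1271251), (nat_lit 1271251), (nat_lit 780000), (nat_lit 2090001), (nat_lit 0), (nat_lit 780000), [(nat_lit 1100000), (nat_lit 1785001), (nat_lit 1271251)], [(nat_lit 17), (nat_lit 58), (nat_lit 401), (nat_lit 175), (nat_lit 12)]⟩,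
 ⟨⟨[(nat_lit 140), (nat_lit 160), (nat_lit 180)], [(nat_lit 0), (nat_lit 0), (nat_lit 799)], [((nat_lit 0), (nat_lit 0), (nat_lit 0)), ((nat_lit 0), (nat_lit 0), (nat_lit 0)), ((nat_lit 728), (nat_lit 1000), (nat_lit 454))], ((nat_lit 100), (nat_lit 67), (nat_lit 52))⟩, (nat_lit 248643), (nat_lit 300), (nat_lit 656), (nat_lit 20998602), (nat_lit 609322), [(nat_lit 2785286000), (nat_lit 3359776000), (nat_lit 3978414000)], [], [(nat_lit 16062126348), (nat_lit 15434858529), (nat_lit 16425106573), (nat_lit 15698227810), (nat_lit 13257501510), (nat_lit 12658409484), (nat_lit 13540128515), (nat_lit 12848481893)], (nat_lit 780000), (nat_lit 1271251), (nat_lit 1271251), (nat_lit 1271251), (nat_lit 0), (nat_lit 780000), [(nat_lit 1977501), (nat_lit 1271251), (nat_lit 1271251)], [(nat_lit 31), (nat_lit 65), (nat_lit 401), (nat_lit 175), (nat_lit 9)]⟩⟩) (.leaf ⟨(nat_lit 0), (nat_lit 750), (nat_lit 0), (nat_lit 250), (nat_lit 0), (nat_lit 5590), (nat_lit 9325),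 (nat_lit 3235), (nat_lit 0), (nat_lit 0), (nat_lit 0), [], Pd.none, Pd.none, (nat_lit 0), (nat_lit 1), (nat_lit 0), (nat_lit 0), (nat_lit 6), (nat_lit 0), [], [⟨(nat_lit 1), (nat_lit 84), (nat_lit 80), (nat_lit 100), (nat_lit 310801245)⟩], [⟨(nat_lit 0), (nat_lit 100), (nat_lit 89), (nat_lit 28), (nat_lit 296201675)⟩], [],
 ⟨⟨[(nat_lit 40), (nat_lit 80), (nat_lit 100)], [(nat_lit 0), (nat_lit 192), (nat_lit 1404)], [((nat_lit 0), (nat_lit 0), (nat_lit 0)), ((nat_lit 1000), (nat_lit 955), (nat_lit 75)), ((nat_lit 1000), (nat_lit 781), (nat_lit 625))], ((nat_lit 79), (nat_lit 100), (nat_lit 48))⟩, (nat_lit 3829348), (nat_lit 164), (nat_lit 164), (nat_lit 0), (nat_lit 271159), [(nat_lit 2251113939), (nat_lit 4688000080), (nat_lit 6250000000)], [], [(nat_lit 22263174008), (nat_lit 22622109688), (nat_lit 25792746371), (nat_lit 26062638953), (nat_lit 27827878558), (nat_lit 28103861558), (nat_lit 30345484544), (nat_lit 30627473527)], (nat_lit 1271251),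 (nat_lit 1271251), (nat_lit 780000), (nat_lit 2090001), (nat_lit 1271251), (nat_lit 1271251), [(nat_lit 490000), (nat_lit 1100000), (nat_lit 1442501)], [(nat_lit 3), (nat_lit 50), (nat_lit 289), (nat_lit 75), (nat_lit 10)]⟩,
 ⟨⟨[(nat_lit 60), (nat_lit 100), (nat_lit 120)], [(nat_lit 0), (nat_lit 0), (nat_lit 1164)], [((nat_lit 0), (nat_lit 0), (nat_lit 0)), ((nat_lit 0), (nat_lit 0), (nat_lit 0)), ((nat_lit 1000), (nat_lit 933), (nat_lit 572))], ((nat_lit 92), (nat_lit 100), (nat_lit 48))⟩, (nat_lit 1394822), (nat_lit 281), (nat_lit 281), (nat_lit 0), (nat_lit 287269), [(nat_lit 3282000000), (nat_lit 6250000000), (nat_lit 7968000000)], [], [(nat_lit 27280940075), (nat_lit 27080071792), (nat_lit 29595500950), (nat_lit 33274797850), (nat_lit 18056772367), (nat_lit 21214937117), (nat_lit 36183053488), (nat_lit 27789439150)], (nat_lit 1271251), (nat_lit 1271251), (nat_lit 780000), (nat_lit 2090001), (nat_lit 0), (nat_lit 780000), [(nat_lit 780000),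 (nat_lit 1435001), (nat_lit 1271251)], [(nat_lit 10), (nat_lit 54), (nat_lit 317), (nat_lit 100), (nat_lit 10)]⟩,
 ⟨⟨[(nat_lit 140), (nat_lit 160), (nat_lit 180)], [(nat_lit 0), (nat_lit 0), (nat_lit 799)], [((nat_lit 0), (nat_lit 0), (nat_lit 0)), ((nat_lit 0), (nat_lit 0), (nat_lit 0)), ((nat_lit 728), (nat_lit 1000), (nat_lit 454))], ((nat_lit 100), (nat_lit 67), (nat_lit 52))⟩, (nat_lit 219650), (nat_lit 300), (nat_lit 789), (nat_lit 18550000), (nat_lit 880090), [(nat_lit 2460500000), (nat_lit 2968000000), (nat_lit 3514500000)], [], [(nat_lit 14094721520), (nat_lit 13523172045), (nat_lit 14413215230), (nat_lit 13854193831), (nat_lit 11597580010), (nat_lit 11008808970), (nat_lit 11798466235), (nat_lit 11169290401)], (nat_lit 780000), (nat_lit 1271251), (nat_lit 1271251), (nat_lit 1271251), (nat_lit 0), (nat_lit 780000), [(nat_lit 1977501), (nat_lit 1271251), (nat_lit 1271251)], [(nat_lit 31), (nat_lit 65), (nat_lit 401), (nat_lit 175), (nat_lit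 9)]⟩⟩))) (.leaf ⟨(nat_lit 0), (nat_lit 220), (nat_lit 0), (nat_lit 780), (nat_lit 0), (nat_lit 7269), (nat_lit 7422), (nat_lit 9189), (nat_lit 0), (nat_lit 0), (nat_lit 0), [], Pd.none, Pd.none, (nat_lit 0), (nat_lit 1), (nat_lit 0), (nat_lit 0), (nat_lit 6), (nat_lit 0), [], [], [], [],
 ⟨⟨[(nat_lit 40), (nat_lit 80), (nat_lit 100)], [(nat_lit 0), (nat_lit 0), (nat_lit 1280)], [((nat_lit 0), (nat_lit 0), (nat_lit 0)), ((nat_lit 0), (nat_lit 0), (nat_lit 0)), ((nat_lit 1000), (nat_lit 800), (nat_lit 600))], ((nat_lit 81), (nat_lit 100), (nat_lit 48))⟩, (nat_lit 3907966), (nat_lit 164), (nat_lit 164), (nat_lit 0), (nat_lit 271545), [(nat_lit 3013298999), (nat_lit 4688000302), (nat_lit 6250000000)], [], [(nat_lit 20430783384), (nat_lit 21271968620), (nat_lit 25099374398), (nat_lit 25972165700), (nat_lit 29147786930), (nat_lit 30026672086), (nat_lit 31523317221), (nat_lit 32169471114)], (nat_lit 1271251), (nat_lit 1271251), (nat_lit 780000), (nat_lit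 2090001), (nat_lit 1271251), (nat_lit 1271251), [(nat_lit 490000), (nat_lit 1100000), (nat_lit 1442501)], [(nat_lit 3), (nat_lit 50), (nat_lit 289), (nat_lit 75), (nat_lit 10)]⟩,
 ⟨⟨[(nat_lit 80), (nat_lit 120), (nat_lit 140)], [(nat_lit 0), (nat_lit 0), (nat_lit 1164)], [((nat_lit 0), (nat_lit 0), (nat_lit 0)), ((nat_lit 0), (nat_lit 0), (nat_lit 0)), ((nat_lit 941), (nat_lit 1000), (nat_lit 576))], ((nat_lit 100), (nat_lit 98), (nat_lit 48))⟩, (nat_lit 4985408), (nat_lit 249), (nat_lit 249), (nat_lit 0), (nat_lit 304101), [(nat_lit 4688000000), (nat_lit 7968000000), (nat_lit 9842000000)], [], [(nat_lit 39400168866), (nat_lit 29657596654), (nat_lit 36484515046), (nat_lit 31960538836), (nat_lit 48825385216), (nat_lit 37608159352), (nat_lit 66574531924), (nat_lit 53870175772)], (nat_lit 1271251), (nat_lit 1271251), (nat_lit 780000), (nat_lit 2090001), (nat_lit 780000), (nat_lit 3072501), [(nat_lit 1100000), (nat_lit 1785001), (nat_lit 1271251)],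 [(nat_lit 17), (nat_lit 58), (nat_lit 483), (nat_lit 250), (nat_lit 14)]⟩,
 ⟨⟨[(nat_lit 140), (nat_lit 160), (nat_lit 180)], [(nat_lit 0), (nat_lit 0), (nat_lit 799)], [((nat_lit 0), (nat_lit 0), (nat_lit 0)), ((nat_lit 0), (nat_lit 0), (nat_lit 0)), ((nat_lit 728), (nat_lit 1000), (nat_lit 454))], ((nat_lit 100), (nat_lit 67), (nat_lit 52))⟩, (nat_lit 1403791), (nat_lit 300), (nat_lit 682), (nat_lit 57876000), (nat_lit 880090), [(nat_lit 7676760000), (nat_lit 9260160000), (nat_lit 10965240000)], [], [(nat_lit 38108154594), (nat_lit 36624054333), (nat_lit 38946708099), (nat_lit 37222192932), (nat_lit 36402674292), (nat_lit 34740537411), (nat_lit 36794423625), (nat_lit 34862761164)], (nat_lit 780000), (nat_lit 1271251), (nat_lit 1271251), (nat_lit 1271251), (nat_lit 780000), (nat_lit 3072501), [(nat_lit 1977501), (nat_lit 1271251), (nat_lit 1271251)], [(nat_lit 31), (nat_lit 65), (nat_lit 483), (nat_lit 250), (nat_lit 11)]⟩⟩))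
noncomputable def c11_59 : Tr Lf :=
 (.spl (nat_lit 5) (nat_lit 120) (.leaf ⟨(nat_lit 0), (nat_lit 0), (nat_lit 0), (nat_lit 1000), (nat_lit 0), (nat_lit 7600), (nat_lit 7475), (nat_lit 13883), (nat_lit 0), (nat_lit 0), (nat_lit 0), [], Pd.none, Pd.none, (nat_lit 0), (nat_lit 1), (nat_lit 0), (nat_lit 0), (nat_lit 0), (nat_lit 0), [], [], [⟨(nat_lit 0), (nat_lit 100), (nat_lit 92), (nat_lit 40), (nat_lit 27947799)⟩, ⟨(nat_lit 0), (nat_lit 100), (nat_lit 98), (nat_lit 10), (nat_lit 1142032249)⟩], [],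
 ⟨⟨[(nat_lit 40), (nat_lit 80), (nat_lit 100)], [(nat_lit 0), (nat_lit 0), (nat_lit 1280)], [((nat_lit 0), (nat_lit 0), (nat_lit 0)), ((nat_lit 0), (nat_lit 0), (nat_lit 0)), ((nat_lit 1000), (nat_lit 800), (nat_lit 600))], ((nat_lit 81), (nat_lit 100), (nat_lit 48))⟩, (nat_lit 1723560), (nat_lit 248), (nat_lit 248), (nat_lit 0), (nat_lit 470928), [(nat_lit 2517495833), (nat_lit 4688000067), (nat_lit 6250000000)], [], [(nat_lit 20698164934), (nat_lit 21416814051), (nat_lit 25239699200), (nat_lit 26137379550), (nat_lit 32487299400), (nat_lit 33299829450), (nat_lit 33993133100), (nat_lit 34590499750)], (nat_lit 1271251), (nat_lit 1271251), (nat_lit 780000), (nat_lit 2090001), (nat_lit 1271251), (nat_lit 1271251), [(nat_lit 490000), (nat_lit 1100000), (nat_lit 1442501)], [(nat_lit 3), (nat_lit 50), (nat_lit 289), (nat_lit 75), (nat_lit 10)]⟩,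
 ⟨⟨[(nat_lit 80), (nat_lit 120), (nat_lit 140)], [(nat_lit 0), (nat_lit 0), (nat_lit 1164)], [((nat_lit 0), (nat_lit 0), (nat_lit 0)), ((nat_lit 0), (nat_lit 0), (nat_lit 0)), ((nat_lit 941), (nat_lit 1000), (nat_lit 576))], ((nat_lit 100), (nat_lit 98), (nat_lit 48))⟩, (nat_lit 3343572), (nat_lit 328), (nat_lit 328), (nat_lit 0), (nat_lit 240863), [(nat_lit 4688000000), (nat_lit 7968000000), (nat_lit 9842000000)], [], [(nat_lit 36202030500), (nat_lit 33432141150), (nat_lit 44909336600), (nat_lit 36680775250), (nat_lit 34036653275), (nat_lit 29524400075), (nat_lit 50812645375), (nat_lit 37527365250)], (nat_lit 1271251), (nat_lit 1271251), (nat_lit 780000), (nat_lit 2090001), (nat_lit 0), (nat_lit 780000), [(nat_lit 1100000), (nat_lit 1785001), (nat_lit 1271251)], [(nat_lit 17), (nat_lit 58), (nat_lit 428), (nat_lit 200), (nat_lit 12)]⟩,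
 ⟨⟨[(nat_lit 120), (nat_lit 140), (nat_lit 160)], [(nat_lit 0), (nat_lit 266), (nat_lit 862)], [((nat_lit 0), (nat_lit 0), (nat_lit 0)), ((nat_lit 960), (nat_lit 1000), (nat_lit 200)), ((nat_lit 874), (nat_lit 1000), (nat_lit 406))], ((nat_lit 100), (nat_lit 83), (nat_lit 48))⟩, (nat_lit 3476795), (nat_lit 300), (nat_lit 486), (nat_lit 66400000), (nat_lit 441628), [(nat_lit 7968000000), (nat_lit 9842000000), (nat_lit 11872000000)], [], [(nat_lit 39592649961), (nat_lit 39114015138), (nat_lit 47422896099), (nat_lit 48571525396), (nat_lit 29376029636), (nat_lit 28799511975), (nat_lit 35636987857), (nat_lit 35023643924)], (nat_lit 1271251), (nat_lit 1271251), (nat_lit 1271251), (nat_lit 1271251), (nat_lit 0), (nat_lit 780000), [(nat_lit 1695001), (nat_lit 1271251), (nat_lit 1271251)], [(nat_lit 27), (nat_lit 62), (nat_lit 428), (nat_lit 200), (nat_lit 11)]⟩⟩) (.leaf ⟨(nat_lit 0), (nat_lit 68), (nat_lit 0), (nat_lit 932), (nat_lit 0), (nat_lit 7600),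 (nat_lit 12085), (nat_lit 9385), (nat_lit 0), (nat_lit 0), (nat_lit 0), [], Pd.none, Pd.none, (nat_lit 0), (nat_lit 1), (nat_lit 0), (nat_lit 0), (nat_lit 6), (nat_lit 0), [], [], [], [],
 ⟨⟨[(nat_lit 40), (nat_lit 80), (nat_lit 100)], [(nat_lit 0), (nat_lit 0), (nat_lit 1280)], [((nat_lit 0), (nat_lit 0), (nat_lit 0)), ((nat_lit 0), (nat_lit 0), (nat_lit 0)), ((nat_lit 1000), (nat_lit 800), (nat_lit 600))], ((nat_lit 81), (nat_lit 100), (nat_lit 48))⟩, (nat_lit 4938089), (nat_lit 248), (nat_lit 248), (nat_lit 0), (nat_lit 470928), [(nat_lit 2599817654), (nat_lit 4688000850), (nat_lit 6250000000)], [], [(nat_lit 20698164150), (nat_lit 21416816400), (nat_lit 25239699200), (nat_lit 26137379550), (nat_lit 32487299400), (nat_lit 33299829450), (nat_lit 33993133100), (nat_lit 34590499750)], (nat_lit 1271251), (nat_lit 1271251), (nat_lit 780000), (nat_lit 2090001), (nat_lit 1271251), (nat_lit 1271251), [(nat_lit 490000), (nat_lit 1100000), (nat_lit 1442501)],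 [(nat_lit 3), (nat_lit 50), (nat_lit 289), (nat_lit 75), (nat_lit 10)]⟩,
 ⟨⟨[(nat_lit 80), (nat_lit 120), (nat_lit 140)], [(nat_lit 0), (nat_lit 0), (nat_lit 1164)], [((nat_lit 0), (nat_lit 0), (nat_lit 0)), ((nat_lit 0), (nat_lit 0), (nat_lit 0)), ((nat_lit 941), (nat_lit 1000), (nat_lit 576))], ((nat_lit 100), (nat_lit 98), (nat_lit 48))⟩, (nat_lit 4015527), (nat_lit 227), (nat_lit 227), (nat_lit 0), (nat_lit 240863), [(nat_lit 4688000000), (nat_lit 7968000000), (nat_lit 9842000000)], [], [(nat_lit 46582601755), (nat_lit 21204198435), (nat_lit 35003979905), (nat_lit 25895458355), (nat_lit 52629124880), (nat_lit 41196593520), (nat_lit 78237357070), (nat_lit 57551269210)], (nat_lit 1271251), (nat_lit 1271251), (nat_lit 780000), (nat_lit 2090001), (nat_lit 780000), (nat_lit 3072501), [(nat_lit 1100000), (nat_lit 1785001), (nat_lit 1271251)], [(nat_lit 17), (nat_lit 58), (nat_lit 483), (nat_lit 250), (nat_lit 14)]⟩,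
 ⟨⟨[(nat_lit 120), (nat_lit 140), (nat_lit 160)], [(nat_lit 0), (nat_lit 266), (nat_lit 862)], [((nat_lit 0), (nat_lit 0), (nat_lit 0)), ((nat_lit 960), (nat_lit 1000), (nat_lit 200)), ((nat_lit 874), (nat_lit 1000), (nat_lit 406))], ((nat_lit 100), (nat_lit 83), (nat_lit 48))⟩, (nat_lit 3718650), (nat_lit 300), (nat_lit 802), (nat_lit 61884800), (nat_lit 1309833), [(nat_lit 7426176000), (nat_lit 9172744000), (nat_lit 11064704000)], [], [(nat_lit 40931202851), (nat_lit 40196699377), (nat_lit 40675019483), (nat_lit 39788938690), (nat_lit 37676633234), (nat_lit 36824954078), (nat_lit 38714230104), (nat_lit 38505119132)], (nat_lit 1271251), (nat_lit 1271251), (nat_lit 1271251), (nat_lit 1271251), (nat_lit 780000), (nat_lit 3072501), [(nat_lit 1695001), (nat_lit 1271251), (nat_lit 1271251)], [(nat_lit 27), (nat_lit 62), (nat_lit 483), (nat_lit 250), (nat_lit 12)]⟩⟩))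
noncomputable def c11_60 : Tr Lf :=
 (.spl (nat_lit 2) (nat_lit 180) (.spl (nat_lit 3) (nat_lit 200) (.spl (nat_lit 1) (nat_lit 280) (.leaf ⟨(nat_lit 1000), (nat_lit 0), (nat_lit 0), (nat_lit 0), (nat_lit 0), (nat_lit 3319), (nat_lit 0), (nat_lit 0), (nat_lit 0), (nat_lit 0), (nat_lit 250000), [((nat_lit 340), [((nat_lit 18), (nat_lit 0), (nat_lit 1000))])], ⟨(nat_lit 6), false, false, false, (nat_lit 200), (nat_lit 3872), (nat_lit 4184), [(nat_lit 1410806), (nat_lit 1414527), (nat_lit 1454130), (nat_lit 1458104), (nat_lit 1543323), (nat_lit 1543576), (nat_lit 1586647), (nat_lit 1587153)]⟩, ⟨(nat_lit 3), false, false, true, (nat_lit 165), (nat_lit 3872), (nat_lit 4184), [(nat_lit 1280820), (nat_lit 1283782), (nat_lit 1345820), (nat_lit 1349161), (nat_lit 1479587), (nat_lit 1477347), (nat_lit 1544587), (nat_lit 1542727)]⟩, (nat_lit 4611666), (nat_lit 44942326), (nat_lit 12675623), (nat_lit 9382051), (nat_lit 0), (nat_lit 0), [], [], [], [],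
 ⟨⟨[(nat_lit 40), (nat_lit 60), (nat_lit 80)], [(nat_lit 0), (nat_lit 197), (nat_lit 800)], [((nat_lit 0), (nat_lit 0), (nat_lit 0)), ((nat_lit 1000), (nat_lit 908), (nat_lit 154)), ((nat_lit 1000), (nat_lit 781), (nat_lit 471))], ((nat_lit 78), (nat_lit 100), (nat_lit 49))⟩, (nat_lit 0), (nat_lit 32), (nat_lit 32), (nat_lit 0), (nat_lit 0), [(nat_lit 1532800017), (nat_lit 92160802628), (nat_lit 2168000000)], [(nat_lit 0), (nat_lit 0), (nat_lit 0)], [(nat_lit 16154481482), (nat_lit 17076298237), (nat_lit 18104050167), (nat_lit 18918268651), (nat_lit 19546716258), (nat_lit 20301834631), (nat_lit 21117081116), (nat_lit 21788166522)], (nat_lit 0), (nat_lit 0), (nat_lit 0), (nat_lit 0), (nat_lit 0), (nat_lit 0), [], [(nat_lit 2), (nat_lit 44), (nat_lit 345), (nat_lit 125), (nat_lit 15)]⟩,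
 Rw.none,
 Rw.none⟩) (.trX (nat_lit 5) (nat_lit 1) (nat_lit 2) (nat_lit 92) (nat_lit 49) (nat_lit 100) (nat_lit 380) (.leaf ⟨(nat_lit 1000), (nat_lit 0), (nat_lit 0), (nat_lit 0), (nat_lit 0), (nat_lit 3300), (nat_lit 0), (nat_lit 0), (nat_lit 0), (nat_lit 0), (nat_lit 250000), [((nat_lit 340), [((nat_lit 18), (nat_lit 0), (nat_lit 1000))])], ⟨(nat_lit 7), false, false, false, (nat_lit 217), (nat_lit 3872), (nat_lit 4184), [(nat_lit 1454130), (nat_lit 1458104), (nat_lit 1497453), (nat_lit 1501681), (nat_lit 1586647), (nat_lit 1587153), (nat_lit 1629971), (nat_lit 1630730)]⟩, ⟨(nat_lit 3), false, false, true, (nat_lit 165), (nat_lit 3872), (nat_lit 4184), [(nat_lit 1280820), (nat_lit 1283782), (nat_lit 1345820), (nat_lit 1349161), (nat_lit 1479587), (nat_lit 1477347), (nat_lit 1544587), (nat_lit 1542727)]⟩, (nat_lit 4742431), (nat_lit 43540491), (nat_lit 14235318), (nat_lit 9224191), (nat_lit 0), (nat_lit 0), [], [], [], [],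
 ⟨⟨[(nat_lit 40), (nat_lit 60), (nat_lit 80)], [(nat_lit 0), (nat_lit 197), (nat_lit 800)], [((nat_lit 0), (nat_lit 0), (nat_lit 0)), ((nat_lit 1000), (nat_lit 908), (nat_lit 154)), ((nat_lit 1000), (nat_lit 781), (nat_lit 471))], ((nat_lit 78), (nat_lit 100), (nat_lit 49))⟩, (nat_lit 0), (nat_lit 32), (nat_lit 32), (nat_lit 0), (nat_lit 0), [(nat_lit 1532800100), (nat_lit 87031146672), (nat_lit 2168000000)], [(nat_lit 0), (nat_lit 0), (nat_lit 0)], [(nat_lit 16146490688), (nat_lit 17065481475), (nat_lit 18100335663), (nat_lit 18909106100), (nat_lit 19538417575), (nat_lit 20291386350), (nat_lit 21126979300), (nat_lit 21780487900)], (nat_lit 0), (nat_lit 0), (nat_lit 0), (nat_lit 0), (nat_lit 0), (nat_lit 0), [], [(nat_lit 2), (nat_lit 44), (nat_lit 345), (nat_lit 125), (nat_lit 15)]⟩,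
 Rw.none,
 Rw.none⟩))) (.spl (nat_lit 1) (nat_lit 280) (.leaf ⟨(nat_lit 922), (nat_lit 78), (nat_lit 0), (nat_lit 0), (nat_lit 0), (nat_lit 3200), (nat_lit 672), (nat_lit 0), (nat_lit 0), (nat_lit 0), (nat_lit 230500), [((nat_lit 340), [((nat_lit 18), (nat_lit 0), (nat_lit 922))])], ⟨(nat_lit 6), false, true, false, (nat_lit 252), (nat_lit 3872), (nat_lit 4184), [(nat_lit 1543323), (nat_lit 1543576), (nat_lit 1586647), (nat_lit 1587153), (nat_lit 1675840), (nat_lit 1672625), (nat_lit 1719164), (nat_lit 1716202)]⟩, ⟨(nat_lit 3), false, false, true, (nat_lit 165), (nat_lit 3872), (nat_lit 4184), [(nat_lit 1280820), (nat_lit 1283782), (nat_lit 1345820), (nat_lit 1349161), (nat_lit 1479587), (nat_lit 1477347), (nat_lit 1544587), (nat_lit 1542727)]⟩, (nat_lit 4946932), (nat_lit 40736610), (nat_lit 17399956), (nat_lit 8863434), (nat_lit 3), (nat_lit 0), [], [], [⟨(nat_lit 1), (nat_lit 55), (nat_lit 99), (nat_lit 100), (nat_lit 13844412)⟩], [],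
 ⟨⟨[(nat_lit 40), (nat_lit 60), (nat_lit 80)], [(nat_lit 0), (nat_lit 197), (nat_lit 800)], [((nat_lit 0), (nat_lit 0), (nat_lit 0)), ((nat_lit 1000), (nat_lit 908), (nat_lit 154)), ((nat_lit 1000), (nat_lit 781), (nat_lit 471))], ((nat_lit 78), (nat_lit 100), (nat_lit 49))⟩, (nat_lit 0), (nat_lit 43), (nat_lit 43), (nat_lit 0), (nat_lit 0), [(nat_lit 1553485602), (nat_lit 90542793451), (nat_lit 2364560000)], [(nat_lit 0), (nat_lit 0), (nat_lit 0)], [(nat_lit 18171130477), (nat_lit 18925990752), (nat_lit 21526398550), (nat_lit 22206355500), (nat_lit 21200005152), (nat_lit 21824873902), (nat_lit 23969004802), (nat_lit 24508012300)], (nat_lit 0), (nat_lit 0), (nat_lit 0), (nat_lit 0), (nat_lit 0), (nat_lit 0), [], [(nat_lit 2), (nat_lit 44), (nat_lit 272), (nat_lit 60), (nat_lit 11)]⟩,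
 ⟨⟨[(nat_lit 80), (nat_lit 120), (nat_lit 140)], [(nat_lit 0), (nat_lit 0), (nat_lit 1164)], [((nat_lit 0), (nat_lit 0), (nat_lit 0)), ((nat_lit 0), (nat_lit 0), (nat_lit 0)), ((nat_lit 941), (nat_lit 1000), (nat_lit 576))], ((nat_lit 100), (nat_lit 98), (nat_lit 48))⟩, (nat_lit 137662), (nat_lit 497), (nat_lit 497), (nat_lit 0), (nat_lit 668633), [(nat_lit 365664000), (nat_lit 621504000), (nat_lit 767676000)], [], [(nat_lit 2656080420), (nat_lit 2779270014), (nat_lit 2817465108), (nat_lit 2914372926), (nat_lit 3406014000), (nat_lit 2816446896), (nat_lit 2707117128), (nat_lit 2733058740)], (nat_lit 1271251), (nat_lit 1271251), (nat_lit 1271251), (nat_lit 1271251), (nat_lit 0), (nat_lit 2825001), [(nat_lit 1100000), (nat_lit 1785001), (nat_lit 1271251)], [(nat_lit 17), (nat_lit 58), (nat_lit 483), (nat_lit 250), (nat_lit 14)]⟩,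
 Rw.none⟩) (.trX (nat_lit 5) (nat_lit 1) (nat_lit 2) (nat_lit 92) (nat_lit 49) (nat_lit 100) (nat_lit 380) (.leaf ⟨(nat_lit 861), (nat_lit 139), (nat_lit 0), (nat_lit 0), (nat_lit 0), (nat_lit 3133), (nat_lit 1040), (nat_lit 0), (nat_lit 0), (nat_lit 0), (nat_lit 254550), [((nat_lit 340), [((nat_lit 18), (nat_lit 0), (nat_lit 599)), ((nat_lit 18), (nat_lit 1), (nat_lit 262))])], ⟨(nat_lit 7), false, true, false, (nat_lit 270), (nat_lit 3872), (nat_lit 4184), [(nat_lit 1586647), (nat_lit 1587153), (nat_lit 1629971), (nat_lit 1630730), (nat_lit 1719164), (nat_lit 1716202), (nat_lit 1762488), (nat_lit 1759779)]⟩, ⟨(nat_lit 3), false, false, true, (nat_lit 165), (nat_lit 3872), (nat_lit 4184), [(nat_lit 1280820), (nat_lit 1283782), (nat_lit 1345820), (nat_lit 1349161), (nat_lit 1479587), (nat_lit 1477347), (nat_lit 1544587), (nat_lit 1542727)]⟩, (nat_lit 5021226), (nat_lit 39362229), (nat_lit 18970775), (nat_lit 8666996), (nat_lit 3), (nat_lit 0),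 [], [], [⟨(nat_lit 1), (nat_lit 72), (nat_lit 89), (nat_lit 100), (nat_lit 28105976)⟩], [],
 ⟨⟨[(nat_lit 40), (nat_lit 60), (nat_lit 80)], [(nat_lit 0), (nat_lit 197), (nat_lit 800)], [((nat_lit 0), (nat_lit 0), (nat_lit 0)), ((nat_lit 1000), (nat_lit 908), (nat_lit 154)), ((nat_lit 1000), (nat_lit 781), (nat_lit 471))], ((nat_lit 78), (nat_lit 100), (nat_lit 49))⟩, (nat_lit 0), (nat_lit 43), (nat_lit 43), (nat_lit 0), (nat_lit 0), [(nat_lit 1497196811), (nat_lit 90005298148), (nat_lit 2443452800)], [(nat_lit 0), (nat_lit 0), (nat_lit 0)], [(nat_lit 18148414926), (nat_lit 18895420866), (nat_lit 21482577114), (nat_lit 22154962983), (nat_lit 21178784396), (nat_lit 21797689308), (nat_lit 23935533548), (nat_lit 24469803483)], (nat_lit 0), (nat_lit 0), (nat_lit 0), (nat_lit 0), (nat_lit 0), (nat_lit 0), [], [(nat_lit 2), (nat_lit 44), (nat_lit 272), (nat_lit 60), (nat_lit 11)]⟩,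
 ⟨⟨[(nat_lit 60), (nat_lit 100), (nat_lit 120)], [(nat_lit 0), (nat_lit 0), (nat_lit 1164)], [((nat_lit 0), (nat_lit 0), (nat_lit 0)), ((nat_lit 0), (nat_lit 0), (nat_lit 0)), ((nat_lit 1000), (nat_lit 933), (nat_lit 572))], ((nat_lit 92), (nat_lit 100), (nat_lit 48))⟩, (nat_lit 200151), (nat_lit 453), (nat_lit 453), (nat_lit 0), (nat_lit 728741), [(nat_lit 456198000), (nat_lit 868750000), (nat_lit 1107552000)], [], [(nat_lit 4486495053), (nat_lit 4700980088), (nat_lit 4747773057), (nat_lit 4920754396), (nat_lit 4862257160), (nat_lit 4673149029), (nat_lit 4646676616), (nat_lit 4708020891)], (nat_lit 1271251), (nat_lit 1271251), (nat_lit 1271251), (nat_lit 1271251), (nat_lit 0), (nat_lit 2683751), [(nat_lit 780000), (nat_lit 1435001), (nat_lit 1271251)], [(nat_lit 10), (nat_lit 54), (nat_lit 401), (nat_lit 175), (nat_lit 13)]⟩,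
 Rw.none⟩)))) (.spl (nat_lit 3) (nat_lit 200) (.spl (nat_lit 4) (nat_lit 200) (.leaf ⟨(nat_lit 961), (nat_lit 14), (nat_lit 0), (nat_lit 25), (nat_lit 0), (nat_lit 3315), (nat_lit 436), (nat_lit 238), (nat_lit 0), (nat_lit 0), (nat_lit 240250), [((nat_lit 340), [((nat_lit 18), (nat_lit 0), (nat_lit 961))])], ⟨(nat_lit 6), false, false, false, (nat_lit 209), (nat_lit 3872), (nat_lit 4184), [(nat_lit 1410806), (nat_lit 1414527), (nat_lit 1497453), (nat_lit 1501681), (nat_lit 1543323), (nat_lit 1543576), (nat_lit 1629971), (nat_lit 1630730)]⟩, ⟨(nat_lit 4), false, false, false, (nat_lit 174), (nat_lit 3872), (nat_lit 4184), [(nat_lit 1345820), (nat_lit 1349161), (nat_lit 1389144), (nat_lit 1392739), (nat_lit 1478332), (nat_lit 1478205), (nat_lit 1521662), (nat_lit 1521788)]⟩, (nat_lit 4759279), (nat_lit 43643849), (nat_lit 13351363), (nat_lit 10004788), (nat_lit 4), (nat_lit 0), [], [], [], [],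
 ⟨⟨[(nat_lit 40), (nat_lit 60), (nat_lit 80)], [(nat_lit 0), (nat_lit 197), (nat_lit 800)], [((nat_lit 0), (nat_lit 0), (nat_lit 0)), ((nat_lit 1000), (nat_lit 908), (nat_lit 154)), ((nat_lit 1000), (nat_lit 781), (nat_lit 471))], ((nat_lit 78), (nat_lit 100), (nat_lit 49))⟩, (nat_lit 0), (nat_lit 32), (nat_lit 32), (nat_lit 0), (nat_lit 0), [(nat_lit 1543142814), (nat_lit 90077511408), (nat_lit 2266280000)], [(nat_lit 0), (nat_lit 0), (nat_lit 0)], [(nat_lit 16152799210), (nat_lit 17074021024), (nat_lit 18103161980), (nat_lit 18916339693), (nat_lit 18103161980), (nat_lit 18916339693), (nat_lit 19874593929), (nat_lit 20556481493)], (nat_lit 0), (nat_lit 0), (nat_lit 0), (nat_lit 0), (nat_lit 0), (nat_lit 0), [], [(nat_lit 2), (nat_lit 44), (nat_lit 317), (nat_lit 100), (nat_lit 14)]⟩,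
 ⟨⟨[(nat_lit 80), (nat_lit 120), (nat_lit 140)], [(nat_lit 0), (nat_lit 0), (nat_lit 1164)], [((nat_lit 0), (nat_lit 0), (nat_lit 0)), ((nat_lit 0), (nat_lit 0), (nat_lit 0)), ((nat_lit 941), (nat_lit 1000), (nat_lit 576))], ((nat_lit 100), (nat_lit 98), (nat_lit 48))⟩, (nat_lit 0), (nat_lit 505), (nat_lit 505), (nat_lit 0), (nat_lit 619300), [(nat_lit 182832000), (nat_lit 310752000), (nat_lit 383838000)], [], [(nat_lit 1480415240), (nat_lit 1374819494), (nat_lit 1336497548), (nat_lit 1367932734), (nat_lit 2276509196), (nat_lit 1553761322), (nat_lit 2774702920), (nat_lit 2046187904)], (nat_lit 1271251), (nat_lit 1271251), (nat_lit 780000), (nat_lit 1435001), (nat_lit 0), (nat_lit 2825001), [(nat_lit 1100000), (nat_lit 1785001), (nat_lit 1271251)], [(nat_lit 17), (nat_lit 58), (nat_lit 483), (nat_lit 250), (nat_lit 14)]⟩,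
 ⟨⟨[(nat_lit 120), (nat_lit 140), (nat_lit 160)], [(nat_lit 0), (nat_lit 266), (nat_lit 862)], [((nat_lit 0), (nat_lit 0), (nat_lit 0)), ((nat_lit 960), (nat_lit 1000), (nat_lit 200)), ((nat_lit 874), (nat_lit 1000), (nat_lit 406))], ((nat_lit 100), (nat_lit 83), (nat_lit 48))⟩, (nat_lit 51316), (nat_lit 300), (nat_lit 1473), (nat_lit 1660000), (nat_lit 2467168), [(nat_lit 199200000), (nat_lit 246050000), (nat_lit 296800000)], [], [(nat_lit 1490307327), (nat_lit 1464899081), (nat_lit 1431150035), (nat_lit 1405560145), (nat_lit 1509215019), (nat_lit 1295023825), (nat_lit 1772586772), (nat_lit 1563781756)], (nat_lit 1271251), (nat_lit 1271251), (nat_lit 780000), (nat_lit 1435001), (nat_lit 0), (nat_lit 2825001), [(nat_lit 1695001), (nat_lit 1271251), (nat_lit 1271251)], [(nat_lit 27), (nat_lit 62), (nat_lit 471), (nat_lit 225), (nat_lit 12)]⟩⟩) (.leaf ⟨(nat_lit 956), (nat_lit 17), (nat_lit 0), (nat_lit 27), (nat_lit 0), (nat_lit 3290), (nat_lit 498),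 (nat_lit 270), (nat_lit 0), (nat_lit 0), (nat_lit 239000), [((nat_lit 340), [((nat_lit 18), (nat_lit 0), (nat_lit 956))])], ⟨(nat_lit 6), false, false, false, (nat_lit 209), (nat_lit 3872), (nat_lit 4184), [(nat_lit 1410806), (nat_lit 1414527), (nat_lit 1497453), (nat_lit 1501681), (nat_lit 1543323), (nat_lit 1543576), (nat_lit 1629971), (nat_lit 1630730)]⟩, ⟨(nat_lit 5), false, true, true, (nat_lit 213), (nat_lit 3872), (nat_lit 4184), [(nat_lit 1478332), (nat_lit 1478205), (nat_lit 1521662), (nat_lit 1521788), (nat_lit 1544587), (nat_lit 1542727), (nat_lit 1587919), (nat_lit 1586312)]⟩, (nat_lit 5063801), (nat_lit 40893615), (nat_lit 12832128), (nat_lit 13274257), (nat_lit 5), (nat_lit 0), [⟨(nat_lit 0), (nat_lit 81), (nat_lit 72), (nat_lit 100), (nat_lit 9446466)⟩], [], [], [],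
 ⟨⟨[(nat_lit 40), (nat_lit 60), (nat_lit 80)], [(nat_lit 0), (nat_lit 197), (nat_lit 800)], [((nat_lit 0), (nat_lit 0), (nat_lit 0)), ((nat_lit 1000), (nat_lit 908), (nat_lit 154)), ((nat_lit 1000), (nat_lit 781), (nat_lit 471))], ((nat_lit 78), (nat_lit 100), (nat_lit 49))⟩, (nat_lit 0), (nat_lit 32), (nat_lit 32), (nat_lit 0), (nat_lit 0), [(nat_lit 1544468856), (nat_lit 90101122389), (nat_lit 2278880000)], [(nat_lit 0), (nat_lit 0), (nat_lit 0)], [(nat_lit 18117015350), (nat_lit 18904283705), (nat_lit 19890306093), (nat_lit 20569719029), (nat_lit 19534049848), (nat_lit 20285887255), (nat_lit 21143882091), (nat_lit 21776761966)], (nat_lit 0), (nat_lit 0), (nat_lit 0), (nat_lit 0), (nat_lit 0), (nat_lit 0), [], [(nat_lit 2), (nat_lit 44), (nat_lit 260), (nat_lit 50), (nat_lit 10)]⟩,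
 ⟨⟨[(nat_lit 80), (nat_lit 120), (nat_lit 140)], [(nat_lit 0), (nat_lit 0), (nat_lit 1164)], [((nat_lit 0), (nat_lit 0), (nat_lit 0)), ((nat_lit 0), (nat_lit 0), (nat_lit 0)), ((nat_lit 941), (nat_lit 1000), (nat_lit 576))], ((nat_lit 100), (nat_lit 98), (nat_lit 48))⟩, (nat_lit 118329), (nat_lit 505), (nat_lit 505), (nat_lit 0), (nat_lit 619300), [(nat_lit 206272000), (nat_lit 350592000), (nat_lit 433048000)], [], [(nat_lit 1673107000), (nat_lit 1403351948), (nat_lit 1503520148), (nat_lit 1407911552), (nat_lit 2572465012), (nat_lit 1762103816), (nat_lit 3140072612), (nat_lit 2307961424)], (nat_lit 1271251), (nat_lit 1271251), (nat_lit 780000), (nat_lit 1435001), (nat_lit 0), (nat_lit 2825001), [(nat_lit 1100000), (nat_lit 1785001), (nat_lit 1271251)], [(nat_lit 17), (nat_lit 58), (nat_lit 483), (nat_lit 250), (nat_lit 14)]⟩,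
 ⟨⟨[(nat_lit 120), (nat_lit 140), (nat_lit 160)], [(nat_lit 0), (nat_lit 266), (nat_lit 862)], [((nat_lit 0), (nat_lit 0), (nat_lit 0)), ((nat_lit 960), (nat_lit 1000), (nat_lit 200)), ((nat_lit 874), (nat_lit 1000), (nat_lit 406))], ((nat_lit 100), (nat_lit 83), (nat_lit 48))⟩, (nat_lit 55421), (nat_lit 300), (nat_lit 1433), (nat_lit 1792801), (nat_lit 2467168), [(nat_lit 215136000), (nat_lit 265734000), (nat_lit 320544000)], [], [(nat_lit 1416076544), (nat_lit 1387533440), (nat_lit 1387671734), (nat_lit 1359997303), (nat_lit 1748722500), (nat_lit 1511842860), (nat_lit 1510355970), (nat_lit 1276450110)], (nat_lit 1271251), (nat_lit 1271251), (nat_lit 1271251), (nat_lit 1271251), (nat_lit 0), (nat_lit 2825001), [(nat_lit 1695001), (nat_lit 1271251), (nat_lit 1271251)], [(nat_lit 27), (nat_lit 62), (nat_lit 466), (nat_lit 225), (nat_lit 12)]⟩⟩)) (.spl (nat_lit 1) (nat_lit 280) (.leaf ⟨(nat_lit 705), (nat_lit 164), (nat_lit 0), (nat_lit 131), (nat_lit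 0), (nat_lit 3159), (nat_lit 3120), (nat_lit 1082), (nat_lit 0), (nat_lit 0), (nat_lit 343000), [((nat_lit 340), [((nat_lit 18), (nat_lit 1), (nat_lit 400)), ((nat_lit 37), (nat_lit 2), (nat_lit 305))])], ⟨(nat_lit 6), false, true, false, (nat_lit 252), (nat_lit 3872), (nat_lit 4184), [(nat_lit 1543323), (nat_lit 1543576), (nat_lit 1586647), (nat_lit 1587153), (nat_lit 1675840), (nat_lit 1672625), (nat_lit 1719164), (nat_lit 1716202)]⟩, ⟨(nat_lit 4), false, false, false, (nat_lit 187), (nat_lit 3872), (nat_lit 4184), [(nat_lit 1345820), (nat_lit 1349161), (nat_lit 1389144), (nat_lit 1392739), (nat_lit 1544587), (nat_lit 1542727), (nat_lit 1587919), (nat_lit 1586312)]⟩, (nat_lit 5125232), (nat_lit 39448030), (nat_lit 17020040), (nat_lit 10531930), (nat_lit 4), (nat_lit 0), [], [], [], [],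
 ⟨⟨[(nat_lit 40), (nat_lit 60), (nat_lit 80)], [(nat_lit 0), (nat_lit 197), (nat_lit 800)], [((nat_lit 0), (nat_lit 0), (nat_lit 0)), ((nat_lit 1000), (nat_lit 908), (nat_lit 154)), ((nat_lit 1000), (nat_lit 781), (nat_lit 471))], ((nat_lit 78), (nat_lit 100), (nat_lit 49))⟩, (nat_lit 197460), (nat_lit 43), (nat_lit 43), (nat_lit 0), (nat_lit 0), [(nat_lit 1518738001), (nat_lit 90040476949), (nat_lit 2593664000)], [(nat_lit 0), (nat_lit 0), (nat_lit 0)], [(nat_lit 18156927695), (nat_lit 18906981586), (nat_lit 21499024583), (nat_lit 22174906348), (nat_lit 21186717095), (nat_lit 21807936332), (nat_lit 23948220172), (nat_lit 24484464811)], (nat_lit 0), (nat_lit 0), (nat_lit 0), (nat_lit 0), (nat_lit 0), (nat_lit 0), [], [(nat_lit 2), (nat_lit 44), (nat_lit 272), (nat_lit 60), (nat_lit 11)]⟩,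
 ⟨⟨[(nat_lit 80), (nat_lit 120), (nat_lit 140)], [(nat_lit 0), (nat_lit 0), (nat_lit 1164)], [((nat_lit 0), (nat_lit 0), (nat_lit 0)), ((nat_lit 0), (nat_lit 0), (nat_lit 0)), ((nat_lit 941), (nat_lit 1000), (nat_lit 576))], ((nat_lit 100), (nat_lit 98), (nat_lit 48))⟩, (nat_lit 1578110), (nat_lit 432), (nat_lit 432), (nat_lit 0), (nat_lit 513366), [(nat_lit 1382960000), (nat_lit 2350560000), (nat_lit 2903390000)], [], [(nat_lit 10145997400), (nat_lit 8965105120), (nat_lit 9139389800), (nat_lit 9589944745), (nat_lit 12876401240), (nat_lit 10360037000), (nat_lit 10464617110), (nat_lit 10965932730)], (nat_lit 1271251), (nat_lit 1271251), (nat_lit 1271251), (nat_lit 1271251), (nat_lit 0), (nat_lit 2825001), [(nat_lit 1100000), (nat_lit 1785001), (nat_lit 1271251)], [(nat_lit 17), (nat_lit 58), (nat_lit 483), (nat_lit 250), (nat_lit 14)]⟩,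
 ⟨⟨[(nat_lit 120), (nat_lit 140), (nat_lit 160)], [(nat_lit 0), (nat_lit 266), (nat_lit 862)], [((nat_lit 0), (nat_lit 0), (nat_lit 0)), ((nat_lit 960), (nat_lit 1000), (nat_lit 200)), ((nat_lit 874), (nat_lit 1000), (nat_lit 406))], ((nat_lit 100), (nat_lit 83), (nat_lit 48))⟩, (nat_lit 837938), (nat_lit 300), (nat_lit 1090), (nat_lit 8698400), (nat_lit 1654008), [(nat_lit 1043808000), (nat_lit 1289302000), (nat_lit 1555232000)], [], [(nat_lit 8571980790), (nat_lit 8481759481), (nat_lit 8241653288), (nat_lit 8146448078), (nat_lit 7677820377), (nat_lit 7391380902), (nat_lit 9554406870), (nat_lit 8617050794)], (nat_lit 1271251), (nat_lit 1271251), (nat_lit 780000), (nat_lit 1762501), (nat_lit 0), (nat_lit 2825001), [(nat_lit 1695001), (nat_lit 1271251), (nat_lit 1271251)], [(nat_lit 27), (nat_lit 62), (nat_lit 456), (nat_lit 225), (nat_lit 12)]⟩⟩) (.leaf ⟨(nat_lit 0), (nat_lit 712), (nat_lit 0), (nat_lit 288), (nat_lit 0), (nat_lit 3872), (nat_lit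 7389), (nat_lit 2132), (nat_lit 0), (nat_lit 0), (nat_lit 0), [], Pd.none, Pd.none, (nat_lit 0), (nat_lit 1), (nat_lit 0), (nat_lit 0), (nat_lit 4), (nat_lit 0), [], [], [], [],
 ⟨⟨[(nat_lit 40), (nat_lit 60), (nat_lit 80)], [(nat_lit 0), (nat_lit 197), (nat_lit 800)], [((nat_lit 0), (nat_lit 0), (nat_lit 0)), ((nat_lit 1000), (nat_lit 908), (nat_lit 154)), ((nat_lit 1000), (nat_lit 781), (nat_lit 471))], ((nat_lit 78), (nat_lit 100), (nat_lit 49))⟩, (nat_lit 505485), (nat_lit 43), (nat_lit 43), (nat_lit 0), (nat_lit 0), [(nat_lit 2032000003), (nat_lit 90377194816), (nat_lit 4688000000)], [], [(nat_lit 18312910298), (nat_lit 19184947094), (nat_lit 21975064558), (nat_lit 22721814780), (nat_lit 21326792401), (nat_lit 22011654836), (nat_lit 24276602406), (nat_lit 24893961388)], (nat_lit 0), (nat_lit 0), (nat_lit 0), (nat_lit 0), (nat_lit 0), (nat_lit 0), [], [(nat_lit 2), (nat_lit 44), (nat_lit 272), (nat_lit 60), (nat_lit 11)]⟩,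
 ⟨⟨[(nat_lit 60), (nat_lit 100), (nat_lit 120)], [(nat_lit 0), (nat_lit 0), (nat_lit 1164)], [((nat_lit 0), (nat_lit 0), (nat_lit 0)), ((nat_lit 0), (nat_lit 0), (nat_lit 0)), ((nat_lit 1000), (nat_lit 933), (nat_lit 572))], ((nat_lit 92), (nat_lit 100), (nat_lit 48))⟩, (nat_lit 5084412), (nat_lit 395), (nat_lit 395), (nat_lit 0), (nat_lit 578842), [(nat_lit 3282000000), (nat_lit 6250000000), (nat_lit 7968000000)], [], [(nat_lit 28339570003), (nat_lit 30584814840), (nat_lit 31247419318), (nat_lit 33070541278), (nat_lit 36536208942), (nat_lit 33550610880), (nat_lit 33704911833), (nat_lit 35205060056)], (nat_lit 1271251), (nat_lit 1271251), (nat_lit 1271251), (nat_lit 1271251), (nat_lit 0), (nat_lit 2825001), [(nat_lit 780000), (nat_lit 1435001), (nat_lit 1271251)], [(nat_lit 10), (nat_lit 54), (nat_lit 401), (nat_lit 175), (nat_lit 13)]⟩,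
 ⟨⟨[(nat_lit 120), (nat_lit 140), (nat_lit 160)], [(nat_lit 0), (nat_lit 266), (nat_lit 862)], [((nat_lit 0), (nat_lit 0), (nat_lit 0)), ((nat_lit 960), (nat_lit 1000), (nat_lit 200)), ((nat_lit 874), (nat_lit 1000), (nat_lit 406))], ((nat_lit 100), (nat_lit 83), (nat_lit 48))⟩, (nat_lit 2381671), (nat_lit 300), (nat_lit 1471), (nat_lit 19123200), (nat_lit 2461399), [(nat_lit 2294784000), (nat_lit 2834496000), (nat_lit 3419136000)], [], [(nat_lit 23176240974), (nat_lit 22974126920), (nat_lit 22491463601), (nat_lit 22285540330), (nat_lit 20953863986), (nat_lit 20738942256), (nat_lit 20350163540), (nat_lit 20027694571)], (nat_lit 1271251), (nat_lit 1271251), (nat_lit 780000), (nat_lit 1762501), (nat_lit 0), (nat_lit 2825001), [(nat_lit 1695001), (nat_lit 1271251), (nat_lit 1271251)], [(nat_lit 27), (nat_lit 62), (nat_lit 476), (nat_lit 225), (nat_lit 12)]⟩⟩))))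
noncomputable def c11_61 : Tr Lf :=
 (.stt (nat_lit 2) (.spl (nat_lit 5) (nat_lit 200) (.leaf ⟨(nat_lit 0), (nat_lit 906), (nat_lit 0), (nat_lit 94), (nat_lit 0), (nat_lit 5635), (nat_lit 8077), (nat_lit 1015), (nat_lit 0), (nat_lit 0), (nat_lit 0), [], Pd.none, Pd.none, (nat_lit 0), (nat_lit 1), (nat_lit 0), (nat_lit 0), (nat_lit 3), (nat_lit 0), [⟨(nat_lit 0), (nat_lit 81), (nat_lit 72), (nat_lit 100), (nat_lit 329915615)⟩], [], [], [],
 ⟨⟨[(nat_lit 40), (nat_lit 60), (nat_lit 80)], [(nat_lit 0), (nat_lit 197), (nat_lit 800)], [((nat_lit 0), (nat_lit 0), (nat_lit 0)), ((nat_lit 1000), (nat_lit 908), (nat_lit 154)), ((nat_lit 1000), (nat_lit 781), (nat_lit 471))], ((nat_lit 78), (nat_lit 100), (nat_lit 49))⟩, (nat_lit 1765710), (nat_lit 247), (nat_lit 247), (nat_lit 0), (nat_lit 625234), [(nat_lit 2050683857), (nat_lit 3282000001), (nat_lit 4688000000)], [], [(nat_lit 18256791730), (nat_lit 19033542866), (nat_lit 23152145172), (nat_lit 24074128338),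 (nat_lit 20894357357), (nat_lit 21575425033), (nat_lit 25156578293), (nat_lit 25906503415)], (nat_lit 1271251), (nat_lit 1271251), (nat_lit 780000), (nat_lit 2090001), (nat_lit 780000), (nat_lit 1762501), [(nat_lit 490000), (nat_lit 780000), (nat_lit 1100000)], [(nat_lit 2), (nat_lit 44), (nat_lit 373), (nat_lit 150), (nat_lit 17)]⟩,
 ⟨⟨[(nat_lit 80), (nat_lit 120), (nat_lit 140)], [(nat_lit 0), (nat_lit 0), (nat_lit 1164)], [((nat_lit 0), (nat_lit 0), (nat_lit 0)), ((nat_lit 0), (nat_lit 0), (nat_lit 0)), ((nat_lit 941), (nat_lit 1000), (nat_lit 576))], ((nat_lit 100), (nat_lit 98), (nat_lit 48))⟩, (nat_lit 3940620), (nat_lit 197), (nat_lit 197), (nat_lit 0), (nat_lit 0), [(nat_lit 4688000000), (nat_lit 7968000000), (nat_lit 9842000000)], [], [(nat_lit 20999328048), (nat_lit 28604836306), (nat_lit 27502436556), (nat_lit 33409919534), (nat_lit 17959312736), (nat_lit 23731453851), (nat_lit 23011705281), (nat_lit 27526799232)], (nat_lit 0), (nat_lit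 0), (nat_lit 0), (nat_lit 0), (nat_lit 0), (nat_lit 0), [], [(nat_lit 17), (nat_lit 58), (nat_lit 428), (nat_lit 200), (nat_lit 12)]⟩,
 ⟨⟨[(nat_lit 140), (nat_lit 160), (nat_lit 180)], [(nat_lit 0), (nat_lit 0), (nat_lit 799)], [((nat_lit 0), (nat_lit 0), (nat_lit 0)), ((nat_lit 0), (nat_lit 0), (nat_lit 0)), ((nat_lit 728), (nat_lit 1000), (nat_lit 454))], ((nat_lit 100), (nat_lit 67), (nat_lit 52))⟩, (nat_lit 82588), (nat_lit 300), (nat_lit 2163), (nat_lit 6974802), (nat_lit 3679345), [(nat_lit 925148000), (nat_lit 1115968000), (nat_lit 1321452000)], [], [(nat_lit 6453464712), (nat_lit 6134341647), (nat_lit 6067605431), (nat_lit 5750940529), (nat_lit 5701892077), (nat_lit 5757584608), (nat_lit 6002499894), (nat_lit 7332810013)], (nat_lit 780000), (nat_lit 1598751), (nat_lit 780000), (nat_lit 1762501), (nat_lit 0), (nat_lit 1412501), [(nat_lit 1977501), (nat_lit 1271251), (nat_lit 1271251)], [(nat_lit 31), (nat_lit 65), (nat_lit 624), (nat_lit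 175), (nat_lit 15)]⟩⟩) (.spl (nat_lit 1) (nat_lit 280) (.leaf ⟨(nat_lit 276), (nat_lit 606), (nat_lit 0), (nat_lit 118), (nat_lit 0), (nat_lit 4463), (nat_lit 6393), (nat_lit 1258), (nat_lit 0), (nat_lit 0), (nat_lit 69000), [((nat_lit 340), [((nat_lit 18), (nat_lit 0), (nat_lit 276))])], ⟨(nat_lit 6), true, false, false, (nat_lit 226), (nat_lit 3872), (nat_lit 4184), [(nat_lit 1410806), (nat_lit 1414527), (nat_lit 1454130), (nat_lit 1458104), (nat_lit 1675840), (nat_lit 1672625), (nat_lit 1719164), (nat_lit 1716202)]⟩, ⟨(nat_lit 3), false, false, true, (nat_lit 174), (nat_lit 3872), (nat_lit 4184), [(nat_lit 1280820), (nat_lit 1283782), (nat_lit 1389144), (nat_lit 1392739), (nat_lit 1479587), (nat_lit 1477347), (nat_lit 1587919), (nat_lit 1586312)]⟩, (nat_lit 4878612), (nat_lit 42267816), (nat_lit 14907535), (nat_lit 9824649), (nat_lit 5), (nat_lit 0), [], [], [⟨(nat_lit 1), (nat_lit 44), (nat_lit 96), (nat_lit 100), (nat_lit 343670580)⟩], [],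
 ⟨⟨[(nat_lit 40), (nat_lit 60), (nat_lit 80)], [(nat_lit 0), (nat_lit 197), (nat_lit 800)], [((nat_lit 0), (nat_lit 0), (nat_lit 0)), ((nat_lit 1000), (nat_lit 908), (nat_lit 154)), ((nat_lit 1000), (nat_lit 781), (nat_lit 471))], ((nat_lit 78), (nat_lit 100), (nat_lit 49))⟩, (nat_lit 3126012), (nat_lit 177), (nat_lit 177), (nat_lit 0), (nat_lit 425290), [(nat_lit 1829305624), (nat_lit 2862480007), (nat_lit 3992480000)], [(nat_lit 0), (nat_lit 0), (nat_lit 0)], [(nat_lit 17171958543), (nat_lit 17985206876), (nat_lit 22369650289), (nat_lit 23175142808), (nat_lit 20262416704), (nat_lit 20930931099), (nat_lit 24571591487), (nat_lit 25233389827)], (nat_lit 1271251), (nat_lit 1271251), (nat_lit 780000), (nat_lit 2090001), (nat_lit 780000), (nat_lit 1762501), [(nat_lit 490000), (nat_lit 780000), (nat_lit 1100000)], [(nat_lit 2), (nat_lit 44), (nat_lit 373), (nat_lit 150), (nat_lit 17)]⟩,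
 ⟨⟨[(nat_lit 80), (nat_lit 120), (nat_lit 140)], [(nat_lit 0), (nat_lit 0), (nat_lit 1164)], [((nat_lit 0), (nat_lit 0), (nat_lit 0)), ((nat_lit 0), (nat_lit 0), (nat_lit 0)), ((nat_lit 941), (nat_lit 1000), (nat_lit 576))], ((nat_lit 100), (nat_lit 98), (nat_lit 48))⟩, (nat_lit 0), (nat_lit 116), (nat_lit 116), (nat_lit 0), (nat_lit 0), [(nat_lit 3394112000), (nat_lit 5768832000), (nat_lit 7125608000)], [], [(nat_lit 11844736876), (nat_lit 14262916627), (nat_lit 16087770821), (nat_lit 17800032205), (nat_lit 23385080676), (nat_lit 24588963560), (nat_lit 24386208202), (nat_lit 25537533069)], (nat_lit 0), (nat_lit 0), (nat_lit 0), (nat_lit 0), (nat_lit 0), (nat_lit 0), [], [(nat_lit 17), (nat_lit 58), (nat_lit 483), (nat_lit 250), (nat_lit 13)]⟩,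
 ⟨⟨[(nat_lit 140), (nat_lit 160), (nat_lit 180)], [(nat_lit 0), (nat_lit 0), (nat_lit 799)], [((nat_lit 0), (nat_lit 0), (nat_lit 0)), ((nat_lit 0), (nat_lit 0), (nat_lit 0)), ((nat_lit 728), (nat_lit 1000), (nat_lit 454))], ((nat_lit 100), (nat_lit 67), (nat_lit 52))⟩, (nat_lit 103675), (nat_lit 300), (nat_lit 1438), (nat_lit 8755600), (nat_lit 2436825), [(nat_lit 1161356000), (nat_lit 1400896000), (nat_lit 1658844000)], [], [(nat_lit 7036015390), (nat_lit 6628255735), (nat_lit 6541059442), (nat_lit 6133582626), (nat_lit 6496943048), (nat_lit 6082063266), (nat_lit 5990456712), (nat_lit 5572340632)], (nat_lit 780000), (nat_lit 1598751), (nat_lit 780000), (nat_lit 1762501), (nat_lit 1271251), (nat_lit 1271251), [(nat_lit 1977501), (nat_lit 1271251), (nat_lit 1271251)], [(nat_lit 31), (nat_lit 65), (nat_lit 467), (nat_lit 225), (nat_lit 11)]⟩⟩) (.leaf ⟨(nat_lit 0), (nat_lit 867), (nat_lit 0), (nat_lit 133), (nat_lit 0), (nat_lit 5293), (nat_lit 6770),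 (nat_lit 1449), (nat_lit 0), (nat_lit 0), (nat_lit 0), [], Pd.none, Pd.none, (nat_lit 0), (nat_lit 1), (nat_lit 0), (nat_lit 0), (nat_lit 5), (nat_lit 0), [⟨(nat_lit 0), (nat_lit 91), (nat_lit 77), (nat_lit 100), (nat_lit 299332062)⟩], [], [⟨(nat_lit 1), (nat_lit 63), (nat_lit 88), (nat_lit 100), (nat_lit 460900924)⟩], [],
 ⟨⟨[(nat_lit 40), (nat_lit 60), (nat_lit 80)], [(nat_lit 0), (nat_lit 197), (nat_lit 800)], [((nat_lit 0), (nat_lit 0), (nat_lit 0)), ((nat_lit 1000), (nat_lit 908), (nat_lit 154)), ((nat_lit 1000), (nat_lit 781), (nat_lit 471))], ((nat_lit 78), (nat_lit 100), (nat_lit 49))⟩, (nat_lit 2664424), (nat_lit 247), (nat_lit 247), (nat_lit 0), (nat_lit 625106), [(nat_lit 2032000004), (nat_lit 3282000002), (nat_lit 4688000000)], [], [(nat_lit 18179152408), (nat_lit 18927933458), (nat_lit 22923806221), (nat_lit 23811796383), (nat_lit 20773645917), (nat_lit 21388088411), (nat_lit 24985873952), (nat_lit 25710082897)], (nat_lit 1271251),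 (nat_lit 1271251), (nat_lit 780000), (nat_lit 2090001), (nat_lit 780000), (nat_lit 1762501), [(nat_lit 490000), (nat_lit 780000), (nat_lit 1100000)], [(nat_lit 2), (nat_lit 44), (nat_lit 373), (nat_lit 150), (nat_lit 17)]⟩,
 ⟨⟨[(nat_lit 60), (nat_lit 100), (nat_lit 120)], [(nat_lit 0), (nat_lit 0), (nat_lit 1164)], [((nat_lit 0), (nat_lit 0), (nat_lit 0)), ((nat_lit 0), (nat_lit 0), (nat_lit 0)), ((nat_lit 1000), (nat_lit 933), (nat_lit 572))], ((nat_lit 92), (nat_lit 100), (nat_lit 48))⟩, (nat_lit 2149931), (nat_lit 122), (nat_lit 122), (nat_lit 0), (nat_lit 0), [(nat_lit 3282000000), (nat_lit 6250000000), (nat_lit 7968000000)], [], [(nat_lit 19261214946), (nat_lit 22213022826), (nat_lit 23953051381), (nat_lit 26024113636), (nat_lit 31566578956), (nat_lit 33234818640), (nat_lit 33031441690), (nat_lit 34492898080)], (nat_lit 0), (nat_lit 0), (nat_lit 0), (nat_lit 0), (nat_lit 0), (nat_lit 0), [], [(nat_lit 10), (nat_lit 54), (nat_lit 401), (nat_lit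 175), (nat_lit 12)]⟩,
 ⟨⟨[(nat_lit 140), (nat_lit 160), (nat_lit 180)], [(nat_lit 0), (nat_lit 0), (nat_lit 799)], [((nat_lit 0), (nat_lit 0), (nat_lit 0)), ((nat_lit 0), (nat_lit 0), (nat_lit 0)), ((nat_lit 728), (nat_lit 1000), (nat_lit 454))], ((nat_lit 100), (nat_lit 67), (nat_lit 52))⟩, (nat_lit 116854), (nat_lit 300), (nat_lit 2050), (nat_lit 9868600), (nat_lit 3679321), [(nat_lit 1308986000), (nat_lit 1578976000), (nat_lit 1869714000)], [], [(nat_lit 7777233205), (nat_lit 7325613089), (nat_lit 7231137739), (nat_lit 6782423419), (nat_lit 7159319664), (nat_lit 6698691353), (nat_lit 6594450408), (nat_lit 6125475685)], (nat_lit 780000), (nat_lit 1598751), (nat_lit 780000), (nat_lit 1762501), (nat_lit 1271251), (nat_lit 1271251), [(nat_lit 1977501), (nat_lit 1271251), (nat_lit 1271251)], [(nat_lit 31), (nat_lit 65), (nat_lit 620), (nat_lit 225), (nat_lit 14)]⟩⟩))) (.spl (nat_lit 5) (nat_lit 120) (.leaf ⟨(nat_lit 0), (nat_lit 772), (nat_lit 0),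 (nat_lit 228), (nat_lit 0), (nat_lit 6027), (nat_lit 4929), (nat_lit 2081), (nat_lit 0), (nat_lit 0), (nat_lit 0), [], Pd.none, Pd.none, (nat_lit 0), (nat_lit 1), (nat_lit 0), (nat_lit 0), (nat_lit 3), (nat_lit 0), [], [], [], [],
 ⟨⟨[(nat_lit 40), (nat_lit 60), (nat_lit 80)], [(nat_lit 0), (nat_lit 197), (nat_lit 800)], [((nat_lit 0), (nat_lit 0), (nat_lit 0)), ((nat_lit 1000), (nat_lit 908), (nat_lit 154)), ((nat_lit 1000), (nat_lit 781), (nat_lit 471))], ((nat_lit 78), (nat_lit 100), (nat_lit 49))⟩, (nat_lit 334918), (nat_lit 127), (nat_lit 127), (nat_lit 0), (nat_lit 286205), [(nat_lit 2251040050), (nat_lit 3313653652), (nat_lit 4688000000)], [], [(nat_lit 18329473761), (nat_lit 19333615043), (nat_lit 23678229877), (nat_lit 24491424911), (nat_lit 21388312255), (nat_lit 22281949412), (nat_lit 25445911799), (nat_lit 26131640383)], (nat_lit 1271251), (nat_lit 1271251), (nat_lit 780000), (nat_lit 2090001), (nat_lit 780000), (nat_lit 1762501), [(nat_lit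 490000), (nat_lit 780000), (nat_lit 1100000)], [(nat_lit 2), (nat_lit 44), (nat_lit 373), (nat_lit 150), (nat_lit 17)]⟩,
 ⟨⟨[(nat_lit 80), (nat_lit 120), (nat_lit 140)], [(nat_lit 0), (nat_lit 0), (nat_lit 1164)], [((nat_lit 0), (nat_lit 0), (nat_lit 0)), ((nat_lit 0), (nat_lit 0), (nat_lit 0)), ((nat_lit 941), (nat_lit 1000), (nat_lit 576))], ((nat_lit 100), (nat_lit 98), (nat_lit 48))⟩, (nat_lit 2389747), (nat_lit 365), (nat_lit 365), (nat_lit 0), (nat_lit 329725), [(nat_lit 4688000000), (nat_lit 7968000000), (nat_lit 9842000000)], [], [(nat_lit 34994259020), (nat_lit 38376511074), (nat_lit 44875179464), (nat_lit 40905606916), (nat_lit 36983676281), (nat_lit 36315343695), (nat_lit 49830487685), (nat_lit 41070200630)], (nat_lit 1271251), (nat_lit 1271251), (nat_lit 780000), (nat_lit 2090001), (nat_lit 0), (nat_lit 780000), [(nat_lit 1100000), (nat_lit 1785001), (nat_lit 1271251)], [(nat_lit 17), (nat_lit 58), (nat_lit 428), (nat_lit 200), (nat_lit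 12)]⟩,
 ⟨⟨[(nat_lit 140), (nat_lit 160), (nat_lit 180)], [(nat_lit 0), (nat_lit 0), (nat_lit 799)], [((nat_lit 0), (nat_lit 0), (nat_lit 0)), ((nat_lit 0), (nat_lit 0), (nat_lit 0)), ((nat_lit 728), (nat_lit 1000), (nat_lit 454))], ((nat_lit 100), (nat_lit 67), (nat_lit 52))⟩, (nat_lit 200320), (nat_lit 300), (nat_lit 877), (nat_lit 16917602), (nat_lit 962610), [(nat_lit 2243976000), (nat_lit 2706816000), (nat_lit 3205224000)], [], [(nat_lit 16441703355), (nat_lit 15881984952), (nat_lit 15751597983), (nat_lit 15170724861), (nat_lit 15064500295), (nat_lit 14519047101), (nat_lit 14393127165), (nat_lit 14821132742)], (nat_lit 780000), (nat_lit 1598751), (nat_lit 780000), (nat_lit 1762501), (nat_lit 0), (nat_lit 780000), [(nat_lit 1977501), (nat_lit 1271251), (nat_lit 1271251)], [(nat_lit 31), (nat_lit 65), (nat_lit 373), (nat_lit 150), (nat_lit 9)]⟩⟩) (.leaf ⟨(nat_lit 645), (nat_lit 122), (nat_lit 0), (nat_lit 233), (nat_lit 0), (nat_lit 5171), (nat_lit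 2475), (nat_lit 2085), (nat_lit 0), (nat_lit 0), (nat_lit 161250), [((nat_lit 340), [((nat_lit 18), (nat_lit 0), (nat_lit 645))])], ⟨(nat_lit 6), false, false, false, (nat_lit 235), (nat_lit 3872), (nat_lit 4184), [(nat_lit 1410806), (nat_lit 1414527), (nat_lit 1497453), (nat_lit 1501681), (nat_lit 1675840), (nat_lit 1672625), (nat_lit 1762488), (nat_lit 1759779)]⟩, ⟨(nat_lit 3), false, false, true, (nat_lit 174), (nat_lit 3872), (nat_lit 4184), [(nat_lit 1280820), (nat_lit 1283782), (nat_lit 1389144), (nat_lit 1392739), (nat_lit 1479587), (nat_lit 1477347), (nat_lit 1587919), (nat_lit 1586312)]⟩, (nat_lit 4930668), (nat_lit 41586274), (nat_lit 15685685), (nat_lit 9728041), (nat_lit 3), (nat_lit 0), [], [], [], [],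
 ⟨⟨[(nat_lit 40), (nat_lit 60), (nat_lit 80)], [(nat_lit 0), (nat_lit 197), (nat_lit 800)], [((nat_lit 0), (nat_lit 0), (nat_lit 0)), ((nat_lit 1000), (nat_lit 908), (nat_lit 154)), ((nat_lit 1000), (nat_lit 781), (nat_lit 471))], ((nat_lit 78), (nat_lit 100), (nat_lit 49))⟩, (nat_lit 420796), (nat_lit 127), (nat_lit 127), (nat_lit 0), (nat_lit 286205), [(nat_lit 1922130065), (nat_lit 2407895157), (nat_lit 3062600000)], [(nat_lit 0), (nat_lit 0), (nat_lit 0)], [(nat_lit 17129785083), (nat_lit 18135447585), (nat_lit 22842351976), (nat_lit 23718215978), (nat_lit 20355619391), (nat_lit 21320267025), (nat_lit 24924979421), (nat_lit 25640014759)], (nat_lit 1271251), (nat_lit 1271251), (nat_lit 780000), (nat_lit 2090001), (nat_lit 780000), (nat_lit 1762501), [(nat_lit 490000), (nat_lit 780000), (nat_lit 1100000)], [(nat_lit 2), (nat_lit 44), (nat_lit 373), (nat_lit 150), (nat_lit 17)]⟩,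
 ⟨⟨[(nat_lit 80), (nat_lit 120), (nat_lit 140)], [(nat_lit 0), (nat_lit 0), (nat_lit 1164)], [((nat_lit 0), (nat_lit 0), (nat_lit 0)), ((nat_lit 0), (nat_lit 0), (nat_lit 0)), ((nat_lit 941), (nat_lit 1000), (nat_lit 576))], ((nat_lit 100), (nat_lit 98), (nat_lit 48))⟩, (nat_lit 1010723), (nat_lit 258), (nat_lit 258), (nat_lit 0), (nat_lit 329725), [(nat_lit 1664240000), (nat_lit 2828640000), (nat_lit 3493910000)], [], [(nat_lit 13740904125), (nat_lit 10930072195), (nat_lit 13002743635), (nat_lit 11757086470), (nat_lit 17202650260), (nat_lit 13563073750), (nat_lit 23234251330), (nat_lit 18997754230)], (nat_lit 1271251), (nat_lit 1271251), (nat_lit 780000), (nat_lit 2090001), (nat_lit 780000), (nat_lit 3072501), [(nat_lit 1100000), (nat_lit 1785001), (nat_lit 1271251)], [(nat_lit 17), (nat_lit 58), (nat_lit 483), (nat_lit 250), (nat_lit 14)]⟩,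
 ⟨⟨[(nat_lit 140), (nat_lit 160), (nat_lit 180)], [(nat_lit 0), (nat_lit 0), (nat_lit 799)], [((nat_lit 0), (nat_lit 0), (nat_lit 0)), ((nat_lit 0), (nat_lit 0), (nat_lit 0)), ((nat_lit 728), (nat_lit 1000), (nat_lit 454))], ((nat_lit 100), (nat_lit 67), (nat_lit 52))⟩, (nat_lit 204713), (nat_lit 300), (nat_lit 788), (nat_lit 17288602), (nat_lit 962610), [(nat_lit 2293186000), (nat_lit 2766176000), (nat_lit 3275514000)], [], [(nat_lit 15177435572), (nat_lit 14670879704), (nat_lit 14550617197), (nat_lit 14016332349), (nat_lit 14524046964), (nat_lit 13906490611), (nat_lit 13766524716), (nat_lit 15693270473)], (nat_lit 780000), (nat_lit 1598751), (nat_lit 780000), (nat_lit 1762501), (nat_lit 780000), (nat_lit 3072501), [(nat_lit 1977501), (nat_lit 1271251), (nat_lit 1271251)], [(nat_lit 31), (nat_lit 65), (nat_lit 456), (nat_lit 225), (nat_lit 11)]⟩⟩)))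
noncomputable def c11_62 : Tr Lf :=
 (.spl (nat_lit 3) (nat_lit 160) (.stt (nat_lit 2) (.leaf ⟨(nat_lit 779), (nat_lit 221), (nat_lit 0), (nat_lit 0), (nat_lit 0), (nat_lit 3243), (nat_lit 1893), (nat_lit 0), (nat_lit 0), (nat_lit 0), (nat_lit 194750), [((nat_lit 340), [((nat_lit 18), (nat_lit 0), (nat_lit 779))])], ⟨(nat_lit 6), true, false, false, (nat_lit 196), (nat_lit 3872), (nat_lit 4184), [(nat_lit 1410806), (nat_lit 1414527), (nat_lit 1497453), (nat_lit 1501681), (nat_lit 1477065), (nat_lit 1479052), (nat_lit 1563712), (nat_lit 1566205)]⟩, ⟨(nat_lit 6), false, false, true, (nat_lit 213), (nat_lit 3872), (nat_lit 4184), [(nat_lit 1479587), (nat_lit 1477347), (nat_lit 1522921), (nat_lit 1520934), (nat_lit 1545843), (nat_lit 1541869), (nat_lit 1589176), (nat_lit 1585455)]⟩, (nat_lit 4970460), (nat_lit 41794144), (nat_lit 11738104), (nat_lit 13467752), (nat_lit 6), (nat_lit 0), [⟨(nat_lit 0), (nat_lit 100), (nat_lit 81), (nat_lit 100), (nat_lit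 164072598)⟩], [], [⟨(nat_lit 1), (nat_lit 69), (nat_lit 96), (nat_lit 100), (nat_lit 308079)⟩], [⟨(nat_lit 2), (nat_lit 60), (nat_lit 100), (nat_lit 100), (nat_lit 52075823)⟩],
 ⟨⟨[(nat_lit 40), (nat_lit 60), (nat_lit 80)], [(nat_lit 0), (nat_lit 197), (nat_lit 800)], [((nat_lit 0), (nat_lit 0), (nat_lit 0)), ((nat_lit 1000), (nat_lit 908), (nat_lit 154)), ((nat_lit 1000), (nat_lit 781), (nat_lit 471))], ((nat_lit 78), (nat_lit 100), (nat_lit 49))⟩, (nat_lit 0), (nat_lit 43), (nat_lit 43), (nat_lit 0), (nat_lit 0), [(nat_lit 1591409363), (nat_lit 90846064486), (nat_lit 2724920000)], [(nat_lit 0), (nat_lit 0), (nat_lit 0)], [(nat_lit 19598810209), (nat_lit 20304926833), (nat_lit 20062277125), (nat_lit 20732890887), (nat_lit 21555107834), (nat_lit 22239338758), (nat_lit 21925621207), (nat_lit 22542951558)], (nat_lit 0), (nat_lit 0), (nat_lit 0), (nat_lit 0), (nat_lit 0), (nat_lit 0), [], [(nat_lit 2), (nat_lit 44), (nat_lit 249), (nat_lit 40), (nat_lit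 10)]⟩,
 ⟨⟨[(nat_lit 80), (nat_lit 120), (nat_lit 140)], [(nat_lit 0), (nat_lit 0), (nat_lit 1164)], [((nat_lit 0), (nat_lit 0), (nat_lit 0)), ((nat_lit 0), (nat_lit 0), (nat_lit 0)), ((nat_lit 941), (nat_lit 1000), (nat_lit 576))], ((nat_lit 100), (nat_lit 98), (nat_lit 48))⟩, (nat_lit 563752), (nat_lit 197), (nat_lit 197), (nat_lit 0), (nat_lit 0), [(nat_lit 1036048000), (nat_lit 1760928000), (nat_lit 2175082000)], [], [(nat_lit 4991700180), (nat_lit 6737237548), (nat_lit 4976687780), (nat_lit 6615566276), (nat_lit 7028286711), (nat_lit 7701035901), (nat_lit 6822229734), (nat_lit 7468526262)], (nat_lit 0), (nat_lit 0), (nat_lit 0), (nat_lit 0), (nat_lit 0), (nat_lit 0), [], [(nat_lit 17), (nat_lit 58), (nat_lit 456), (nat_lit 225), (nat_lit 13)]⟩,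
 Rw.none⟩) (.leaf ⟨(nat_lit 966), (nat_lit 21), (nat_lit 0), (nat_lit 13), (nat_lit 0), (nat_lit 3257), (nat_lit 388), (nat_lit 140), (nat_lit 0), (nat_lit 0), (nat_lit 241500), [((nat_lit 340), [((nat_lit 18), (nat_lit 0), (nat_lit 966))])], ⟨(nat_lit 6), false, false, false, (nat_lit 196), (nat_lit 3872), (nat_lit 4184), [(nat_lit 1410806), (nat_lit 1414527), (nat_lit 1497453), (nat_lit 1501681), (nat_lit 1477065), (nat_lit 1479052), (nat_lit 1563712), (nat_lit 1566205)]⟩, ⟨(nat_lit 6), false, false, true, (nat_lit 213), (nat_lit 3872), (nat_lit 4184), [(nat_lit 1479587), (nat_lit 1477347), (nat_lit 1522921), (nat_lit 1520934), (nat_lit 1545843), (nat_lit 1541869), (nat_lit 1589176), (nat_lit 1585455)]⟩, (nat_lit 4970460), (nat_lit 41794144), (nat_lit 11738104), (nat_lit 13467752), (nat_lit 6), (nat_lit 0), [⟨(nat_lit 0), (nat_lit 81), (nat_lit 72), (nat_lit 100), (nat_lit 113174514)⟩], [], [], [],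
 ⟨⟨[(nat_lit 40), (nat_lit 60), (nat_lit 80)], [(nat_lit 0), (nat_lit 197), (nat_lit 800)], [((nat_lit 0), (nat_lit 0), (nat_lit 0)), ((nat_lit 1000), (nat_lit 908), (nat_lit 154)), ((nat_lit 1000), (nat_lit 781), (nat_lit 471))], ((nat_lit 78), (nat_lit 100), (nat_lit 49))⟩, (nat_lit 0), (nat_lit 43), (nat_lit 43), (nat_lit 0), (nat_lit 0), [(nat_lit 1541816801), (nat_lit 89938690229), (nat_lit 2253680000)], [(nat_lit 0), (nat_lit 0), (nat_lit 0)], [(nat_lit 19543355081), (nat_lit 20267740242), (nat_lit 20004901039), (nat_lit 20676887277), (nat_lit 21564455042), (nat_lit 22250077493), (nat_lit 21871061883), (nat_lit 22523344183)], (nat_lit 0), (nat_lit 0), (nat_lit 0), (nat_lit 0), (nat_lit 0), (nat_lit 0), [], [(nat_lit 2), (nat_lit 44), (nat_lit 249), (nat_lit 40), (nat_lit 10)]⟩,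
 ⟨⟨[(nat_lit 80), (nat_lit 120), (nat_lit 140)], [(nat_lit 0), (nat_lit 0), (nat_lit 1164)], [((nat_lit 0), (nat_lit 0), (nat_lit 0)), ((nat_lit 0), (nat_lit 0), (nat_lit 0)), ((nat_lit 941), (nat_lit 1000), (nat_lit 576))], ((nat_lit 100), (nat_lit 98), (nat_lit 48))⟩, (nat_lit 0), (nat_lit 588), (nat_lit 588), (nat_lit 0), (nat_lit 775795), [(nat_lit 159392000), (nat_lit 270912000), (nat_lit 334628000)], [], [(nat_lit 1294364800), (nat_lit 1189497292), (nat_lit 1043276568), (nat_lit 1154428312), (nat_lit 1955835516), (nat_lit 1321457349), (nat_lit 2158795774), (nat_lit 1500737686)], (nat_lit 1271251), (nat_lit 1271251), (nat_lit 780000), (nat_lit 1100000), (nat_lit 0), (nat_lit 2754376), [(nat_lit 1100000), (nat_lit 1785001), (nat_lit 1271251)], [(nat_lit 17), (nat_lit 58), (nat_lit 456), (nat_lit 225), (nat_lit 13)]⟩,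
 ⟨⟨[(nat_lit 140), (nat_lit 160), (nat_lit 180)], [(nat_lit 0), (nat_lit 0), (nat_lit 799)], [((nat_lit 0), (nat_lit 0), (nat_lit 0)), ((nat_lit 0), (nat_lit 0), (nat_lit 0)), ((nat_lit 728), (nat_lit 1000), (nat_lit 454))], ((nat_lit 100), (nat_lit 67), (nat_lit 52))⟩, (nat_lit 11422), (nat_lit 300), (nat_lit 2192), (nat_lit 964600), (nat_lit 3849141), [(nat_lit 127946000), (nat_lit 154336000), (nat_lit 182754000)], [], [(nat_lit 846058334), (nat_lit 827464079), (nat_lit 831718484), (nat_lit 813139544), (nat_lit 754045448), (nat_lit 828971718), (nat_lit 663738596), (nat_lit 710249898)], (nat_lit 780000), (nat_lit 1100000), (nat_lit 1271251), (nat_lit 1271251), (nat_lit 0), (nat_lit 2754376), [(nat_lit 1977501), (nat_lit 1271251), (nat_lit 1271251)], [(nat_lit 31), (nat_lit 65), (nat_lit 652), (nat_lit 225), (nat_lit 15)]⟩⟩)) (.stt (nat_lit 2) (.leaf ⟨(nat_lit 457), (nat_lit 543), (nat_lit 0), (nat_lit 0), (nat_lit 0), (nat_lit 3440), (nat_lit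 4704), (nat_lit 0), (nat_lit 0), (nat_lit 0), (nat_lit 114250), [((nat_lit 340), [((nat_lit 18), (nat_lit 0), (nat_lit 457))])], ⟨(nat_lit 6), true, false, false, (nat_lit 222), (nat_lit 3872), (nat_lit 4184), [(nat_lit 1477065), (nat_lit 1479052), (nat_lit 1563712), (nat_lit 1566205), (nat_lit 1543323), (nat_lit 1543576), (nat_lit 1629971), (nat_lit 1630730)]⟩, ⟨(nat_lit 6), false, false, true, (nat_lit 213), (nat_lit 3872), (nat_lit 4184), [(nat_lit 1479587), (nat_lit 1477347), (nat_lit 1522921), (nat_lit 1520934), (nat_lit 1545843), (nat_lit 1541869), (nat_lit 1589176), (nat_lit 1585455)]⟩, (nat_lit 5148075), (nat_lit 39980480), (nat_lit 13933735), (nat_lit 13085785), (nat_lit 6), (nat_lit 0), [], [], [], [⟨(nat_lit 2), (nat_lit 40), (nat_lit 96), (nat_lit 100), (nat_lit 133080404)⟩],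
 ⟨⟨[(nat_lit 40), (nat_lit 60), (nat_lit 80)], [(nat_lit 0), (nat_lit 197), (nat_lit 800)], [((nat_lit 0), (nat_lit 0), (nat_lit 0)), ((nat_lit 1000), (nat_lit 908), (nat_lit 154)), ((nat_lit 1000), (nat_lit 781), (nat_lit 471))], ((nat_lit 78), (nat_lit 100), (nat_lit 49))⟩, (nat_lit 0), (nat_lit 34), (nat_lit 34), (nat_lit 0), (nat_lit 0), [(nat_lit 1696856012), (nat_lit 93543458382), (nat_lit 3536360000)], [(nat_lit 0), (nat_lit 0), (nat_lit 0)], [(nat_lit 20058198472), (nat_lit 20748124932), (nat_lit 21217758722), (nat_lit 21863990472), (nat_lit 21960931472), (nat_lit 22629982400), (nat_lit 23010874395), (nat_lit 23637916830)], (nat_lit 0), (nat_lit 0), (nat_lit 0), (nat_lit 0), (nat_lit 0), (nat_lit 0), [], [(nat_lit 2), (nat_lit 44), (nat_lit 203), (nat_lit 0), (nat_lit 7)]⟩,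
 ⟨⟨[(nat_lit 80), (nat_lit 120), (nat_lit 140)], [(nat_lit 0), (nat_lit 0), (nat_lit 1164)], [((nat_lit 0), (nat_lit 0), (nat_lit 0)), ((nat_lit 0), (nat_lit 0), (nat_lit 0)), ((nat_lit 941), (nat_lit 1000), (nat_lit 576))], ((nat_lit 100), (nat_lit 98), (nat_lit 48))⟩, (nat_lit 1351753), (nat_lit 180), (nat_lit 180), (nat_lit 0), (nat_lit 0), [(nat_lit 2545584000), (nat_lit 4326624000), (nat_lit 5344206000)], [], [(nat_lit 12256952772), (nat_lit 16312908600), (nat_lit 13245951228), (nat_lit 16948925370), (nat_lit 16783362450), (nat_lit 18337405409), (nat_lit 16932789924), (nat_lit 18523403136)], (nat_lit 0), (nat_lit 0), (nat_lit 0), (nat_lit 0), (nat_lit 0), (nat_lit 0), [], [(nat_lit 17), (nat_lit 58), (nat_lit 483), (nat_lit 250), (nat_lit 14)]⟩,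
 Rw.none⟩) (.leaf ⟨(nat_lit 926), (nat_lit 58), (nat_lit 0), (nat_lit 16), (nat_lit 0), (nat_lit 3214), (nat_lit 728), (nat_lit 174), (nat_lit 0), (nat_lit 0), (nat_lit 231500), [((nat_lit 340), [((nat_lit 18), (nat_lit 0), (nat_lit 926))])], ⟨(nat_lit 6), false, false, false, (nat_lit 222), (nat_lit 3872), (nat_lit 4184), [(nat_lit 1477065), (nat_lit 1479052), (nat_lit 1563712), (nat_lit 1566205), (nat_lit 1543323), (nat_lit 1543576), (nat_lit 1629971), (nat_lit 1630730)]⟩, ⟨(nat_lit 6), false, false, true, (nat_lit 213), (nat_lit 3872), (nat_lit 4184), [(nat_lit 1479587), (nat_lit 1477347), (nat_lit 1522921), (nat_lit 1520934), (nat_lit 1545843), (nat_lit 1541869), (nat_lit 1589176), (nat_lit 1585455)]⟩, (nat_lit 5148075), (nat_lit 39980480), (nat_lit 13933735), (nat_lit 13085785), (nat_lit 6), (nat_lit 0), [], [], [], [],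
 ⟨⟨[(nat_lit 40), (nat_lit 60), (nat_lit 80)], [(nat_lit 0), (nat_lit 197), (nat_lit 800)], [((nat_lit 0), (nat_lit 0), (nat_lit 0)), ((nat_lit 1000), (nat_lit 908), (nat_lit 154)), ((nat_lit 1000), (nat_lit 781), (nat_lit 471))], ((nat_lit 78), (nat_lit 100), (nat_lit 49))⟩, (nat_lit 0), (nat_lit 34), (nat_lit 34), (nat_lit 0), (nat_lit 0), [(nat_lit 1552424823), (nat_lit 89847453956), (nat_lit 2354480000)], [(nat_lit 0), (nat_lit 0), (nat_lit 0)], [(nat_lit 20039415599), (nat_lit 20707186375), (nat_lit 21191616724), (nat_lit 21817731649), (nat_lit 21896961312), (nat_lit 22511787984), (nat_lit 22930068746), (nat_lit 23507462002)], (nat_lit 0), (nat_lit 0), (nat_lit 0), (nat_lit 0), (nat_lit 0), (nat_lit 0), [], [(nat_lit 2), (nat_lit 44), (nat_lit 203), (nat_lit 0), (nat_lit 7)]⟩,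
 ⟨⟨[(nat_lit 80), (nat_lit 120), (nat_lit 140)], [(nat_lit 0), (nat_lit 0), (nat_lit 1164)], [((nat_lit 0), (nat_lit 0), (nat_lit 0)), ((nat_lit 0), (nat_lit 0), (nat_lit 0)), ((nat_lit 941), (nat_lit 1000), (nat_lit 576))], ((nat_lit 100), (nat_lit 98), (nat_lit 48))⟩, (nat_lit 55365), (nat_lit 569), (nat_lit 569), (nat_lit 0), (nat_lit 775795), [(nat_lit 346912000), (nat_lit 589632000), (nat_lit 728308000)], [], [(nat_lit 3283223248), (nat_lit 2734353220), (nat_lit 2574563272), (nat_lit 2730629340), (nat_lit 3405048580), (nat_lit 2628354920), (nat_lit 3871107736), (nat_lit 2621196774)], (nat_lit 1271251), (nat_lit 1271251), (nat_lit 1100000), (nat_lit 1442501), (nat_lit 0), (nat_lit 2754376), [(nat_lit 1100000), (nat_lit 1785001), (nat_lit 1271251)], [(nat_lit 17), (nat_lit 58), (nat_lit 483), (nat_lit 250), (nat_lit 14)]⟩,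
 ⟨⟨[(nat_lit 140), (nat_lit 160), (nat_lit 180)], [(nat_lit 0), (nat_lit 0), (nat_lit 799)], [((nat_lit 0), (nat_lit 0), (nat_lit 0)), ((nat_lit 0), (nat_lit 0), (nat_lit 0)), ((nat_lit 728), (nat_lit 1000), (nat_lit 454))], ((nat_lit 100), (nat_lit 67), (nat_lit 52))⟩, (nat_lit 14058), (nat_lit 300), (nat_lit 2192), (nat_lit 1187200), (nat_lit 3849141), [(nat_lit 157472000), (nat_lit 189952000), (nat_lit 224928000)], [], [(nat_lit 1015233980), (nat_lit 992081687), (nat_lit 997365111), (nat_lit 974232186), (nat_lit 928872598), (nat_lit 1021794105), (nat_lit 788181958), (nat_lit 874239843)], (nat_lit 780000), (nat_lit 1100000), (nat_lit 1271251), (nat_lit 1271251), (nat_lit 0), (nat_lit 2754376), [(nat_lit 1977501), (nat_lit 1271251), (nat_lit 1271251)], [(nat_lit 31), (nat_lit 65), (nat_lit 652), (nat_lit 225), (nat_lit 15)]⟩⟩)))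
noncomputable def c11_63 : Tr Lf :=
 (.spl (nat_lit 1) (nat_lit 280) (.spl (nat_lit 2) (nat_lit 140) (.trX (nat_lit 4) (nat_lit 0) (nat_lit 2) (nat_lit 80) (nat_lit 89) (nat_lit 100) (nat_lit 310) (.trX (nat_lit 5) (nat_lit 1) (nat_lit 2) (nat_lit 100) (nat_lit 49) (nat_lit 97) (nat_lit 380) (.leaf ⟨(nat_lit 1000), (nat_lit 0), (nat_lit 0), (nat_lit 0), (nat_lit 0), (nat_lit 3498), (nat_lit 0), (nat_lit 0), (nat_lit 0), (nat_lit 0), (nat_lit 250000), [((nat_lit 340), [((nat_lit 18), (nat_lit 0), (nat_lit 1000))])], ⟨(nat_lit 6), false, false, false, (nat_lit 200), (nat_lit 3872), (nat_lit 4184), [(nat_lit 1410806), (nat_lit 1414527), (nat_lit 1454130), (nat_lit 1458104), (nat_lit 1543323), (nat_lit 1543576), (nat_lit 1586647), (nat_lit 1587153)]⟩, ⟨(nat_lit 7), false, false, true, (nat_lit 232), (nat_lit 3872), (nat_lit 4184), [(nat_lit 1545843), (nat_lit 1541869), (nat_lit 1567510), (nat_lit 1563662), (nat_lit 1595535), (nat_lit 1590260), (nat_lit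 1617201), (nat_lit 1612053)]⟩, (nat_lit 5116760), (nat_lit 40147145), (nat_lit 11849138), (nat_lit 15003717), (nat_lit 0), (nat_lit 0), [], [⟨(nat_lit 1), (nat_lit 89), (nat_lit 80), (nat_lit 100), (nat_lit 255196534)⟩], [], [],
 ⟨⟨[(nat_lit 40), (nat_lit 60), (nat_lit 80)], [(nat_lit 0), (nat_lit 197), (nat_lit 800)], [((nat_lit 0), (nat_lit 0), (nat_lit 0)), ((nat_lit 1000), (nat_lit 908), (nat_lit 154)), ((nat_lit 1000), (nat_lit 781), (nat_lit 471))], ((nat_lit 78), (nat_lit 100), (nat_lit 49))⟩, (nat_lit 0), (nat_lit 51), (nat_lit 51), (nat_lit 0), (nat_lit 0), [(nat_lit 1532800027), (nat_lit 1762000022), (nat_lit 2180399978)], [(nat_lit 0), (nat_lit 0), (nat_lit 0)], [(nat_lit 21926254602), (nat_lit 22533395756), (nat_lit 23260056113), (nat_lit 23802575156), (nat_lit 23301304478), (nat_lit 23960938681), (nat_lit 24483466127), (nat_lit 25029694399)], (nat_lit 0), (nat_lit 0), (nat_lit 0), (nat_lit 0), (nat_lit 0), (nat_lit 0), [], [(nat_lit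 2), (nat_lit 44), (nat_lit 260), (nat_lit 50), (nat_lit 10)]⟩,
 Rw.none,
 Rw.none⟩))) (.spl (nat_lit 5) (nat_lit 200) (.leaf ⟨(nat_lit 907), (nat_lit 66), (nat_lit 0), (nat_lit 27), (nat_lit 0), (nat_lit 3385), (nat_lit 1250), (nat_lit 303), (nat_lit 0), (nat_lit 0), (nat_lit 331300), [((nat_lit 340), [((nat_lit 18), (nat_lit 0), (nat_lit 210)), ((nat_lit 18), (nat_lit 1), (nat_lit 697))])], ⟨(nat_lit 6), false, false, false, (nat_lit 200), (nat_lit 3872), (nat_lit 4184), [(nat_lit 1410806), (nat_lit 1414527), (nat_lit 1454130), (nat_lit 1458104), (nat_lit 1543323), (nat_lit 1543576), (nat_lit 1586647), (nat_lit 1587153)]⟩, ⟨(nat_lit 7), false, false, true, (nat_lit 247), (nat_lit 3872), (nat_lit 4184), [(nat_lit 1567510), (nat_lit 1563662), (nat_lit 1589176), (nat_lit 1585455), (nat_lit 1650329), (nat_lit 1644314), (nat_lit 1671996), (nat_lit 1666107)]⟩, (nat_lit 5195107), (nat_lit 39048779), (nat_lit 11629487), (nat_lit 16321734), (nat_lit 7),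 (nat_lit 0), [], [⟨(nat_lit 1), (nat_lit 87), (nat_lit 76), (nat_lit 100), (nat_lit 13255229)⟩, ⟨(nat_lit 1), (nat_lit 81), (nat_lit 78), (nat_lit 100), (nat_lit 242708368)⟩], [], [],
 ⟨⟨[(nat_lit 40), (nat_lit 60), (nat_lit 80)], [(nat_lit 0), (nat_lit 197), (nat_lit 800)], [((nat_lit 0), (nat_lit 0), (nat_lit 0)), ((nat_lit 1000), (nat_lit 908), (nat_lit 154)), ((nat_lit 1000), (nat_lit 781), (nat_lit 471))], ((nat_lit 78), (nat_lit 100), (nat_lit 49))⟩, (nat_lit 234256), (nat_lit 58), (nat_lit 58), (nat_lit 0), (nat_lit 0), [(nat_lit 1410755073), (nat_lit 1847878810), (nat_lit 2229596190)], [(nat_lit 0), (nat_lit 0), (nat_lit 0)], [(nat_lit 21974761658), (nat_lit 22572779729), (nat_lit 23323924728), (nat_lit 23858776354), (nat_lit 24342422668), (nat_lit 24960542169), (nat_lit 25418473753), (nat_lit 25937311860)], (nat_lit 0), (nat_lit 0), (nat_lit 0), (nat_lit 0), (nat_lit 0), (nat_lit 0), [], [(nat_lit 2), (nat_lit 44), (nat_lit 260), (nat_lit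 50), (nat_lit 10)]⟩,
 ⟨⟨[(nat_lit 80), (nat_lit 120), (nat_lit 140)], [(nat_lit 0), (nat_lit 0), (nat_lit 1164)], [((nat_lit 0), (nat_lit 0), (nat_lit 0)), ((nat_lit 0), (nat_lit 0), (nat_lit 0)), ((nat_lit 941), (nat_lit 1000), (nat_lit 576))], ((nat_lit 100), (nat_lit 98), (nat_lit 48))⟩, (nat_lit 441835), (nat_lit 492), (nat_lit 492), (nat_lit 0), (nat_lit 594043), [(nat_lit 435984000), (nat_lit 741024000), (nat_lit 915306000)], [], [(nat_lit 3629986720), (nat_lit 2337671717), (nat_lit 3038044336), (nat_lit 2402635739), (nat_lit 3579836836), (nat_lit 2439957461), (nat_lit 4818743458), (nat_lit 3707934083)], (nat_lit 1271251), (nat_lit 1271251), (nat_lit 780000), (nat_lit 1435001), (nat_lit 0), (nat_lit 1412501), [(nat_lit 1100000), (nat_lit 1785001), (nat_lit 1271251)], [(nat_lit 17), (nat_lit 58), (nat_lit 401), (nat_lit 175), (nat_lit 12)]⟩,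
 ⟨⟨[(nat_lit 140), (nat_lit 160), (nat_lit 180)], [(nat_lit 0), (nat_lit 304), (nat_lit 1085)], [((nat_lit 0), (nat_lit 0), (nat_lit 0)), ((nat_lit 913), (nat_lit 1000), (nat_lit 217)), ((nat_lit 759), (nat_lit 1000), (nat_lit 463))], ((nat_lit 100), (nat_lit 73), (nat_lit 50))⟩, (nat_lit 55421), (nat_lit 300), (nat_lit 1746), (nat_lit 1898101), (nat_lit 3023290), [(nat_lit 265734000), (nat_lit 320544000), (nat_lit 379566000)], [], [(nat_lit 1538257236), (nat_lit 1515612060), (nat_lit 1531917711), (nat_lit 1508583500), (nat_lit 1240569948), (nat_lit 1218742065), (nat_lit 1229927153), (nat_lit 1207509889)], (nat_lit 936250), (nat_lit 1100000), (nat_lit 1271251), (nat_lit 1271251), (nat_lit 0), (nat_lit 1412501), [(nat_lit 1977501), (nat_lit 1271251), (nat_lit 1271251)], [(nat_lit 31), (nat_lit 65), (nat_lit 523), (nat_lit 175), (nat_lit 12)]⟩⟩) (.leaf ⟨(nat_lit 862), (nat_lit 108), (nat_lit 0), (nat_lit 30), (nat_lit 0), (nat_lit 3437), (nat_lit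 1285), (nat_lit 312), (nat_lit 0), (nat_lit 0), (nat_lit 310450), [((nat_lit 340), [((nat_lit 18), (nat_lit 0), (nat_lit 229)), ((nat_lit 18), (nat_lit 1), (nat_lit 633))])], ⟨(nat_lit 6), false, false, false, (nat_lit 200), (nat_lit 3872), (nat_lit 4184), [(nat_lit 1410806), (nat_lit 1414527), (nat_lit 1454130), (nat_lit 1458104), (nat_lit 1543323), (nat_lit 1543576), (nat_lit 1586647), (nat_lit 1587153)]⟩, ⟨(nat_lit 7), false, false, true, (nat_lit 247), (nat_lit 3872), (nat_lit 4184), [(nat_lit 1567510), (nat_lit 1563662), (nat_lit 1589176), (nat_lit 1585455), (nat_lit 1650329), (nat_lit 1644314), (nat_lit 1671996), (nat_lit 1666107)]⟩, (nat_lit 5195107), (nat_lit 39048779), (nat_lit 11629487), (nat_lit 16321734), (nat_lit 7), (nat_lit 0), [], [⟨(nat_lit 1), (nat_lit 87), (nat_lit 76), (nat_lit 100), (nat_lit 243890887)⟩], [], [⟨(nat_lit 2), (nat_lit 100), (nat_lit 97), (nat_lit 98), (nat_lit 43583211)⟩],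
 ⟨⟨[(nat_lit 40), (nat_lit 60), (nat_lit 80)], [(nat_lit 0), (nat_lit 197), (nat_lit 800)], [((nat_lit 0), (nat_lit 0), (nat_lit 0)), ((nat_lit 1000), (nat_lit 908), (nat_lit 154)), ((nat_lit 1000), (nat_lit 781), (nat_lit 471))], ((nat_lit 78), (nat_lit 100), (nat_lit 49))⟩, (nat_lit 312932), (nat_lit 58), (nat_lit 58), (nat_lit 0), (nat_lit 0), [(nat_lit 1438366684), (nat_lit 1921373205), (nat_lit 2357246395)], [(nat_lit 0), (nat_lit 0), (nat_lit 0)], [(nat_lit 22000167377), (nat_lit 22602383681), (nat_lit 23342261411), (nat_lit 23880641406), (nat_lit 24393795468), (nat_lit 25015817584), (nat_lit 25458541929), (nat_lit 25979910747)], (nat_lit 0), (nat_lit 0), (nat_lit 0), (nat_lit 0), (nat_lit 0), (nat_lit 0), [], [(nat_lit 2), (nat_lit 44), (nat_lit 260), (nat_lit 50), (nat_lit 10)]⟩,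
 ⟨⟨[(nat_lit 80), (nat_lit 120), (nat_lit 140)], [(nat_lit 0), (nat_lit 0), (nat_lit 1164)], [((nat_lit 0), (nat_lit 0), (nat_lit 0)), ((nat_lit 0), (nat_lit 0), (nat_lit 0)), ((nat_lit 941), (nat_lit 1000), (nat_lit 576))], ((nat_lit 100), (nat_lit 98), (nat_lit 48))⟩, (nat_lit 451834), (nat_lit 373), (nat_lit 373), (nat_lit 0), (nat_lit 594043), [(nat_lit 646944000), (nat_lit 1099584000), (nat_lit 1358196000)], [], [(nat_lit 3140389155), (nat_lit 3300883922), (nat_lit 4020009373), (nat_lit 3346079212), (nat_lit 4433602875), (nat_lit 4599727094), (nat_lit 4309678232), (nat_lit 4503152826)], (nat_lit 1271251), (nat_lit 1271251), (nat_lit 780000), (nat_lit 1435001), (nat_lit 1271251), (nat_lit 1271251), [(nat_lit 1100000), (nat_lit 1785001), (nat_lit 1271251)], [(nat_lit 17), (nat_lit 58), (nat_lit 456), (nat_lit 225), (nat_lit 13)]⟩,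
 ⟨⟨[(nat_lit 140), (nat_lit 160), (nat_lit 180)], [(nat_lit 0), (nat_lit 304), (nat_lit 1085)], [((nat_lit 0), (nat_lit 0), (nat_lit 0)), ((nat_lit 913), (nat_lit 1000), (nat_lit 217)), ((nat_lit 759), (nat_lit 1000), (nat_lit 463))], ((nat_lit 100), (nat_lit 73), (nat_lit 50))⟩, (nat_lit 61579), (nat_lit 300), (nat_lit 1635), (nat_lit 2109000), (nat_lit 3023290), [(nat_lit 295260000), (nat_lit 356160000), (nat_lit 421740000)], [], [(nat_lit 1530993459), (nat_lit 1509194550), (nat_lit 1494692406), (nat_lit 1472848899), (nat_lit 1427821095), (nat_lit 1403949155), (nat_lit 1411597910), (nat_lit 1387525803)], (nat_lit 936250), (nat_lit 1100000), (nat_lit 1271251), (nat_lit 1271251), (nat_lit 1271251), (nat_lit 1271251), [(nat_lit 1977501), (nat_lit 1271251), (nat_lit 1271251)], [(nat_lit 31), (nat_lit 65), (nat_lit 519), (nat_lit 225), (nat_lit 11)]⟩⟩))) (.trX (nat_lit 5) (nat_lit 1) (nat_lit 2) (nat_lit 94) (nat_lit 59) (nat_lit 100) (nat_lit 370)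 (.stt (nat_lit 2) (.leaf ⟨(nat_lit 0), (nat_lit 1000), (nat_lit 0), (nat_lit 0), (nat_lit 0), (nat_lit 4721), (nat_lit 7591), (nat_lit 0), (nat_lit 0), (nat_lit 0), (nat_lit 0), [], Pd.none, Pd.none, (nat_lit 0), (nat_lit 1), (nat_lit 0), (nat_lit 0), (nat_lit 7), (nat_lit 0), [], [⟨(nat_lit 1), (nat_lit 81), (nat_lit 78), (nat_lit 100), (nat_lit 368632385)⟩], [], [⟨(nat_lit 2), (nat_lit 70), (nat_lit 87), (nat_lit 100), (nat_lit 296045285)⟩],
 ⟨⟨[(nat_lit 40), (nat_lit 60), (nat_lit 80)], [(nat_lit 0), (nat_lit 197), (nat_lit 800)], [((nat_lit 0), (nat_lit 0), (nat_lit 0)), ((nat_lit 1000), (nat_lit 908), (nat_lit 154)), ((nat_lit 1000), (nat_lit 781), (nat_lit 471))], ((nat_lit 78), (nat_lit 100), (nat_lit 49))⟩, (nat_lit 0), (nat_lit 58), (nat_lit 58), (nat_lit 0), (nat_lit 0), [(nat_lit 2136648114), (nat_lit 3282000004), (nat_lit 4688000000)], [], [(nat_lit 22816729901), (nat_lit 23566425563), (nat_lit 23958156342), (nat_lit 24621682714), (nat_lit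 25652717731), (nat_lit 26380695139), (nat_lit 26456560062), (nat_lit 27043717972)], (nat_lit 0), (nat_lit 0), (nat_lit 0), (nat_lit 0), (nat_lit 0), (nat_lit 0), [], [(nat_lit 2), (nat_lit 44), (nat_lit 260), (nat_lit 50), (nat_lit 10)]⟩,
 ⟨⟨[(nat_lit 60), (nat_lit 100), (nat_lit 120)], [(nat_lit 0), (nat_lit 0), (nat_lit 1164)], [((nat_lit 0), (nat_lit 0), (nat_lit 0)), ((nat_lit 0), (nat_lit 0), (nat_lit 0)), ((nat_lit 1000), (nat_lit 933), (nat_lit 572))], ((nat_lit 92), (nat_lit 100), (nat_lit 48))⟩, (nat_lit 2315972), (nat_lit 150), (nat_lit 150), (nat_lit 0), (nat_lit 0), [(nat_lit 3282000000), (nat_lit 6250000000), (nat_lit 7968000000)], [], [(nat_lit 21312709818), (nat_lit 25446379468), (nat_lit 23076984934), (nat_lit 26628524782), (nat_lit 28924048597), (nat_lit 31480998117), (nat_lit 28964637205), (nat_lit 31177138550)], (nat_lit 0), (nat_lit 0), (nat_lit 0), (nat_lit 0), (nat_lit 0), (nat_lit 0), [], [(nat_lit 10), (nat_lit 54), (nat_lit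 373), (nat_lit 150), (nat_lit 12)]⟩,
 Rw.none⟩) (.spl (nat_lit 5) (nat_lit 200) (.spl (nat_lit 1) (nat_lit 300) (.leaf ⟨(nat_lit 718), (nat_lit 233), (nat_lit 0), (nat_lit 49), (nat_lit 0), (nat_lit 3362), (nat_lit 2714), (nat_lit 650), (nat_lit 0), (nat_lit 0), (nat_lit 253300), [((nat_lit 340), [((nat_lit 18), (nat_lit 0), (nat_lit 226)), ((nat_lit 18), (nat_lit 1), (nat_lit 492))])], ⟨(nat_lit 7), false, false, false, (nat_lit 213), (nat_lit 3872), (nat_lit 4184), [(nat_lit 1454130), (nat_lit 1458104), (nat_lit 1475791), (nat_lit 1479892), (nat_lit 1586647), (nat_lit 1587153), (nat_lit 1608309), (nat_lit 1608942)]⟩, ⟨(nat_lit 7), false, false, true, (nat_lit 243), (nat_lit 3872), (nat_lit 4184), [(nat_lit 1545843), (nat_lit 1541869), (nat_lit 1589176), (nat_lit 1585455), (nat_lit 1628662), (nat_lit 1622521), (nat_lit 1671996), (nat_lit 1666107)]⟩, (nat_lit 5260177), (nat_lit 38546958), (nat_lit 12741698), (nat_lit 15711344), (nat_lit 7), (nat_lit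 0), [⟨(nat_lit 0), (nat_lit 96), (nat_lit 79), (nat_lit 100), (nat_lit 45851798)⟩], [⟨(nat_lit 1), (nat_lit 91), (nat_lit 77), (nat_lit 100), (nat_lit 321332990)⟩], [], [],
 ⟨⟨[(nat_lit 40), (nat_lit 60), (nat_lit 80)], [(nat_lit 0), (nat_lit 197), (nat_lit 800)], [((nat_lit 0), (nat_lit 0), (nat_lit 0)), ((nat_lit 1000), (nat_lit 908), (nat_lit 154)), ((nat_lit 1000), (nat_lit 781), (nat_lit 471))], ((nat_lit 78), (nat_lit 100), (nat_lit 49))⟩, (nat_lit 2136420), (nat_lit 58), (nat_lit 58), (nat_lit 0), (nat_lit 0), [(nat_lit 1525294669), (nat_lit 2151476802), (nat_lit 2749215598)], [(nat_lit 0), (nat_lit 0), (nat_lit 0)], [(nat_lit 22044800354), (nat_lit 22640961514), (nat_lit 23397090113), (nat_lit 23930381114), (nat_lit 24385744845), (nat_lit 24936093428), (nat_lit 25486906687), (nat_lit 25965834938)], (nat_lit 0), (nat_lit 0), (nat_lit 0), (nat_lit 0), (nat_lit 0), (nat_lit 0), [], [(nat_lit 2), (nat_lit 44), (nat_lit 260), (nat_lit 50), (nat_lit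 10)]⟩,
 ⟨⟨[(nat_lit 60), (nat_lit 100), (nat_lit 120)], [(nat_lit 0), (nat_lit 0), (nat_lit 1164)], [((nat_lit 0), (nat_lit 0), (nat_lit 0)), ((nat_lit 0), (nat_lit 0), (nat_lit 0)), ((nat_lit 1000), (nat_lit 933), (nat_lit 572))], ((nat_lit 92), (nat_lit 100), (nat_lit 48))⟩, (nat_lit 677730), (nat_lit 454), (nat_lit 454), (nat_lit 0), (nat_lit 686393), [(nat_lit 925524000), (nat_lit 1762500000), (nat_lit 2246976000)], [], [(nat_lit 7646015334), (nat_lit 7220371263), (nat_lit 7000888940), (nat_lit 7270255276), (nat_lit 6955156231), (nat_lit 5860440561), (nat_lit 9853993967), (nat_lit 8632531806)], (nat_lit 1271251), (nat_lit 1271251), (nat_lit 780000), (nat_lit 1435001), (nat_lit 0), (nat_lit 1412501), [(nat_lit 780000), (nat_lit 1435001), (nat_lit 1271251)], [(nat_lit 10), (nat_lit 54), (nat_lit 317), (nat_lit 100), (nat_lit 10)]⟩,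
 ⟨⟨[(nat_lit 140), (nat_lit 160), (nat_lit 180)], [(nat_lit 0), (nat_lit 0), (nat_lit 799)], [((nat_lit 0), (nat_lit 0), (nat_lit 0)), ((nat_lit 0), (nat_lit 0), (nat_lit 0)), ((nat_lit 728), (nat_lit 1000), (nat_lit 454))], ((nat_lit 100), (nat_lit 67), (nat_lit 52))⟩, (nat_lit 43051), (nat_lit 300), (nat_lit 1894), (nat_lit 3635802), (nat_lit 3299839), [(nat_lit 482258000), (nat_lit 581728000), (nat_lit 688842000)], [], [(nat_lit 2752122676), (nat_lit 2656480264), (nat_lit 2776171724), (nat_lit 2675723447), (nat_lit 2077635517), (nat_lit 1985698816), (nat_lit 2085583199), (nat_lit 1989543142)], (nat_lit 780000), (nat_lit 1100000), (nat_lit 1271251), (nat_lit 1271251), (nat_lit 0), (nat_lit 1412501), [(nat_lit 1977501), (nat_lit 1271251), (nat_lit 1271251)], [(nat_lit 31), (nat_lit 65), (nat_lit 560), (nat_lit 175), (nat_lit 13)]⟩⟩) (.trZ (nat_lit 0) (nat_lit 1) (nat_lit 3) (nat_lit 92) (nat_lit 81) (nat_lit 100) (nat_lit 130) (.leaf ⟨(nat_lit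 0), (nat_lit 892), (nat_lit 0), (nat_lit 108), (nat_lit 0), (nat_lit 4685), (nat_lit 6153), (nat_lit 1265), (nat_lit 0), (nat_lit 0), (nat_lit 0), [], Pd.none, Pd.none, (nat_lit 0), (nat_lit 1), (nat_lit 0), (nat_lit 0), (nat_lit 7), (nat_lit 0), [], [⟨(nat_lit 1), (nat_lit 91), (nat_lit 77), (nat_lit 100), (nat_lit 536351349)⟩], [], [],
 ⟨⟨[(nat_lit 40), (nat_lit 60), (nat_lit 80)], [(nat_lit 0), (nat_lit 197), (nat_lit 800)], [((nat_lit 0), (nat_lit 0), (nat_lit 0)), ((nat_lit 1000), (nat_lit 908), (nat_lit 154)), ((nat_lit 1000), (nat_lit 781), (nat_lit 471))], ((nat_lit 78), (nat_lit 100), (nat_lit 49))⟩, (nat_lit 0), (nat_lit 55), (nat_lit 55), (nat_lit 0), (nat_lit 0), [(nat_lit 2124262796), (nat_lit 3282000003), (nat_lit 4688000000)], [], [(nat_lit 22868090526), (nat_lit 23604876965), (nat_lit 23978057933), (nat_lit 24638944353), (nat_lit 25657149108), (nat_lit 26307299191), (nat_lit 26468455096), (nat_lit 27053426894)], (nat_lit 0), (nat_lit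 0), (nat_lit 0), (nat_lit 0), (nat_lit 0), (nat_lit 0), [], [(nat_lit 2), (nat_lit 44), (nat_lit 260), (nat_lit 50), (nat_lit 10)]⟩,
 ⟨⟨[(nat_lit 60), (nat_lit 80), (nat_lit 100)], [(nat_lit 0), (nat_lit 304), (nat_lit 825)], [((nat_lit 0), (nat_lit 0), (nat_lit 0)), ((nat_lit 1000), (nat_lit 905), (nat_lit 238)), ((nat_lit 1000), (nat_lit 871), (nat_lit 407))], ((nat_lit 87), (nat_lit 100), (nat_lit 48))⟩, (nat_lit 7904172), (nat_lit 408), (nat_lit 408), (nat_lit 0), (nat_lit 718009), [(nat_lit 3282000000), (nat_lit 4688000000), (nat_lit 6250000000)], [], [(nat_lit 20645316052), (nat_lit 21049623494), (nat_lit 20684280518), (nat_lit 22802561458), (nat_lit 19325100343), (nat_lit 20151967509), (nat_lit 26172679928), (nat_lit 23403462286)], (nat_lit 1271251), (nat_lit 1271251), (nat_lit 857188), (nat_lit 1436876), (nat_lit 0), (nat_lit 1412501), [(nat_lit 780000), (nat_lit 1100000), (nat_lit 1442501)], [(nat_lit 9), (nat_lit 50), (nat_lit 317), (nat_lit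 100), (nat_lit 12)]⟩,
 ⟨⟨[(nat_lit 140), (nat_lit 160), (nat_lit 180)], [(nat_lit 0), (nat_lit 0), (nat_lit 799)], [((nat_lit 0), (nat_lit 0), (nat_lit 0)), ((nat_lit 0), (nat_lit 0), (nat_lit 0)), ((nat_lit 728), (nat_lit 1000), (nat_lit 454))], ((nat_lit 100), (nat_lit 67), (nat_lit 52))⟩, (nat_lit 94889), (nat_lit 300), (nat_lit 2175), (nat_lit 8013600), (nat_lit 3849117), [(nat_lit 1062936000), (nat_lit 1282176000), (nat_lit 1518264000)], [], [(nat_lit 6390304528), (nat_lit 6198647106), (nat_lit 6362763262), (nat_lit 6173989114), (nat_lit 5132576123), (nat_lit 4947879243), (nat_lit 5086916022), (nat_lit 4897352400)], (nat_lit 780000), (nat_lit 1100000), (nat_lit 1271251), (nat_lit 1271251), (nat_lit 0), (nat_lit 1412501), [(nat_lit 1977501), (nat_lit 1271251), (nat_lit 1271251)], [(nat_lit 31), (nat_lit 65), (nat_lit 630), (nat_lit 175), (nat_lit 14)]⟩⟩))) (.spl (nat_lit 1) (nat_lit 300) (.leaf ⟨(nat_lit 616), (nat_lit 315), (nat_lit 0), (nat_lit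 69), (nat_lit 0), (nat_lit 3611), (nat_lit 3073), (nat_lit 744), (nat_lit 0), (nat_lit 0), (nat_lit 205150), [((nat_lit 340), [((nat_lit 18), (nat_lit 0), (nat_lit 275)), ((nat_lit 18), (nat_lit 1), (nat_lit 341))])], ⟨(nat_lit 7), false, false, false, (nat_lit 213), (nat_lit 3872), (nat_lit 4184), [(nat_lit 1454130), (nat_lit 1458104), (nat_lit 1475791), (nat_lit 1479892), (nat_lit 1586647), (nat_lit 1587153), (nat_lit 1608309), (nat_lit 1608942)]⟩, ⟨(nat_lit 7), false, false, true, (nat_lit 243), (nat_lit 3872), (nat_lit 4184), [(nat_lit 1545843), (nat_lit 1541869), (nat_lit 1589176), (nat_lit 1585455), (nat_lit 1628662), (nat_lit 1622521), (nat_lit 1671996), (nat_lit 1666107)]⟩, (nat_lit 5260177), (nat_lit 38546958), (nat_lit 12741698), (nat_lit 15711344), (nat_lit 7), (nat_lit 0), [⟨(nat_lit 0), (nat_lit 90), (nat_lit 74), (nat_lit 100), (nat_lit 182571910)⟩], [⟨(nat_lit 1), (nat_lit 91), (nat_lit 77), (nat_lit 100), (nat_lit 314832648)⟩],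 [⟨(nat_lit 1), (nat_lit 73), (nat_lit 94), (nat_lit 100), (nat_lit 43272998)⟩], [⟨(nat_lit 2), (nat_lit 70), (nat_lit 87), (nat_lit 100), (nat_lit 64491596)⟩],
 ⟨⟨[(nat_lit 40), (nat_lit 60), (nat_lit 80)], [(nat_lit 0), (nat_lit 197), (nat_lit 800)], [((nat_lit 0), (nat_lit 0), (nat_lit 0)), ((nat_lit 1000), (nat_lit 908), (nat_lit 154)), ((nat_lit 1000), (nat_lit 781), (nat_lit 471))], ((nat_lit 78), (nat_lit 100), (nat_lit 49))⟩, (nat_lit 2551277), (nat_lit 58), (nat_lit 58), (nat_lit 0), (nat_lit 0), [(nat_lit 1588013870), (nat_lit 2318536403), (nat_lit 3040091597)], [(nat_lit 0), (nat_lit 0), (nat_lit 0)], [(nat_lit 21904581603), (nat_lit 22521614078), (nat_lit 23223021555), (nat_lit 23773208016), (nat_lit 24564067749), (nat_lit 25200777627), (nat_lit 25553093041), (nat_lit 26122453179)], (nat_lit 0), (nat_lit 0), (nat_lit 0), (nat_lit 0), (nat_lit 0), (nat_lit 0), [], [(nat_lit 2), (nat_lit 44), (nat_lit 260), (nat_lit 50), (nat_lit 10)]⟩,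
 ⟨⟨[(nat_lit 60), (nat_lit 100), (nat_lit 120)], [(nat_lit 0), (nat_lit 0), (nat_lit 1164)], [((nat_lit 0), (nat_lit 0), (nat_lit 0)), ((nat_lit 0), (nat_lit 0), (nat_lit 0)), ((nat_lit 1000), (nat_lit 933), (nat_lit 572))], ((nat_lit 92), (nat_lit 100), (nat_lit 48))⟩, (nat_lit 843993), (nat_lit 368), (nat_lit 368), (nat_lit 0), (nat_lit 686393), [(nat_lit 1260288000), (nat_lit 2400000000), (nat_lit 3059712000)], [], [(nat_lit 8993507563), (nat_lit 9349152573), (nat_lit 9123553090), (nat_lit 9426810603), (nat_lit 11554514387), (nat_lit 11781484038), (nat_lit 11368275103), (nat_lit 11689430261)], (nat_lit 1271251), (nat_lit 1271251), (nat_lit 780000), (nat_lit 1435001), (nat_lit 1271251), (nat_lit 1271251), [(nat_lit 780000), (nat_lit 1435001), (nat_lit 1271251)], [(nat_lit 10), (nat_lit 54), (nat_lit 373), (nat_lit 150), (nat_lit 11)]⟩,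
 ⟨⟨[(nat_lit 140), (nat_lit 160), (nat_lit 180)], [(nat_lit 0), (nat_lit 0), (nat_lit 799)], [((nat_lit 0), (nat_lit 0), (nat_lit 0)), ((nat_lit 0), (nat_lit 0), (nat_lit 0)), ((nat_lit 728), (nat_lit 1000), (nat_lit 454))], ((nat_lit 100), (nat_lit 67), (nat_lit 52))⟩, (nat_lit 60623), (nat_lit 300), (nat_lit 1777), (nat_lit 5119802), (nat_lit 3299839), [(nat_lit 679098000), (nat_lit 819168000), (nat_lit 970002000)], [], [(nat_lit 3693581352), (nat_lit 3588804009), (nat_lit 3605970674), (nat_lit 3500990741), (nat_lit 3411612079), (nat_lit 3297844080), (nat_lit 3367008638), (nat_lit 3251223558)], (nat_lit 780000), (nat_lit 1100000), (nat_lit 1271251), (nat_lit 1271251), (nat_lit 1271251), (nat_lit 1271251), [(nat_lit 1977501), (nat_lit 1271251), (nat_lit 1271251)], [(nat_lit 31), (nat_lit 65), (nat_lit 552), (nat_lit 225), (nat_lit 12)]⟩⟩) (.trZ (nat_lit 0) (nat_lit 1) (nat_lit 3) (nat_lit 92) (nat_lit 81) (nat_lit 100) (nat_lit 130) (.trX (nat_lit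 5) (nat_lit 1) (nat_lit 2) (nat_lit 88) (nat_lit 68) (nat_lit 100) (nat_lit 350) (.leaf ⟨(nat_lit 0), (nat_lit 869), (nat_lit 0), (nat_lit 131), (nat_lit 0), (nat_lit 4320), (nat_lit 5817), (nat_lit 1435), (nat_lit 0), (nat_lit 0), (nat_lit 0), [], Pd.none, Pd.none, (nat_lit 0), (nat_lit 1), (nat_lit 0), (nat_lit 0), (nat_lit 7), (nat_lit 0), [⟨(nat_lit 0), (nat_lit 86), (nat_lit 76), (nat_lit 100), (nat_lit 548671979)⟩], [⟨(nat_lit 1), (nat_lit 91), (nat_lit 77), (nat_lit 100), (nat_lit 510630737)⟩], [⟨(nat_lit 1), (nat_lit 81), (nat_lit 88), (nat_lit 100), (nat_lit 321606030)⟩], [],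
 ⟨⟨[(nat_lit 40), (nat_lit 60), (nat_lit 80)], [(nat_lit 0), (nat_lit 197), (nat_lit 800)], [((nat_lit 0), (nat_lit 0), (nat_lit 0)), ((nat_lit 1000), (nat_lit 908), (nat_lit 154)), ((nat_lit 1000), (nat_lit 781), (nat_lit 471))], ((nat_lit 78), (nat_lit 100), (nat_lit 49))⟩, (nat_lit 2836808), (nat_lit 55), (nat_lit 55), (nat_lit 0), (nat_lit 0), [(nat_lit 2032000760), (nat_lit 3282000263), (nat_lit 4688000000)], [], [(nat_lit 22497789605), (nat_lit 23175618820), (nat_lit 23657020062), (nat_lit 24255314477), (nat_lit 25251741035), (nat_lit 25938224410), (nat_lit 26084827133), (nat_lit 26703272625)], (nat_lit 0), (nat_lit 0), (nat_lit 0), (nat_lit 0), (nat_lit 0), (nat_lit 0), [], [(nat_lit 2), (nat_lit 44), (nat_lit 260), (nat_lit 50), (nat_lit 10)]⟩,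
 ⟨⟨[(nat_lit 60), (nat_lit 80), (nat_lit 100)], [(nat_lit 0), (nat_lit 304), (nat_lit 825)], [((nat_lit 0), (nat_lit 0), (nat_lit 0)), ((nat_lit 1000), (nat_lit 905), (nat_lit 238)), ((nat_lit 1000), (nat_lit 871), (nat_lit 407))], ((nat_lit 87), (nat_lit 100), (nat_lit 48))⟩, (nat_lit 4935088), (nat_lit 326), (nat_lit 326), (nat_lit 0), (nat_lit 718009), [(nat_lit 3282000000), (nat_lit 4688000000), (nat_lit 6250000000)], [], [(nat_lit 20787326915), (nat_lit 21753089475), (nat_lit 21842549205), (nat_lit 22696165882), (nat_lit 26295578266), (nat_lit 27499754953), (nat_lit 26905421125), (nat_lit 27971425632)], (nat_lit 1271251), (nat_lit 1271251), (nat_lit 857188), (nat_lit 1436876), (nat_lit 1271251), (nat_lit 1271251), [(nat_lit 780000), (nat_lit 1100000), (nat_lit 1442501)], [(nat_lit 9), (nat_lit 50), (nat_lit 260), (nat_lit 50), (nat_lit 9)]⟩,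
 ⟨⟨[(nat_lit 140), (nat_lit 160), (nat_lit 180)], [(nat_lit 0), (nat_lit 0), (nat_lit 799)], [((nat_lit 0), (nat_lit 0), (nat_lit 0)), ((nat_lit 0), (nat_lit 0), (nat_lit 0)), ((nat_lit 728), (nat_lit 1000), (nat_lit 454))], ((nat_lit 100), (nat_lit 67), (nat_lit 52))⟩, (nat_lit 115098), (nat_lit 300), (nat_lit 2062), (nat_lit 9720200), (nat_lit 3849117), [(nat_lit 1289302000), (nat_lit 1555232000), (nat_lit 1841598000)], [], [(nat_lit 6861231003), (nat_lit 6671250461), (nat_lit 6684387234), (nat_lit 6494480248), (nat_lit 6375856977), (nat_lit 6157903679), (nat_lit 6294039185), (nat_lit 6071984753)], (nat_lit 780000), (nat_lit 1100000), (nat_lit 1271251), (nat_lit 1271251), (nat_lit 1271251), (nat_lit 1271251), [(nat_lit 1977501), (nat_lit 1271251), (nat_lit 1271251)], [(nat_lit 31), (nat_lit 65), (nat_lit 621), (nat_lit 225), (nat_lit 14)]⟩⟩))))))))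
noncomputable def c11_64 : Tr Lf :=
 (.stt (nat_lit 2) (.spl (nat_lit 0) (nat_lit 335) (.leaf ⟨(nat_lit 456), (nat_lit 544), (nat_lit 0), (nat_lit 0), (nat_lit 0), (nat_lit 3301), (nat_lit 5044), (nat_lit 0), (nat_lit 0), (nat_lit 0), (nat_lit 114000), [((nat_lit 335), [((nat_lit 18), (nat_lit 0), (nat_lit 456))])], ⟨(nat_lit 6), true, false, false, (nat_lit 261), (nat_lit 4031), (nat_lit 4184), [(nat_lit 1543330), (nat_lit 1543449), (nat_lit 1629993), (nat_lit 1630350), (nat_lit 1675842), (nat_lit 1674232), (nat_lit 1762505), (nat_lit 1761133)]⟩, ⟨(nat_lit 6), false, false, true, (nat_lit 230), (nat_lit 4031), (nat_lit 4184), [(nat_lit 1479587), (nat_lit 1478484), (nat_lit 1522921), (nat_lit 1521937), (nat_lit 1628662), (nat_lit 1625613), (nat_lit 1671996), (nat_lit 1669066)]⟩, (nat_lit 5436451), (nat_lit 36287251), (nat_lit 16930308), (nat_lit 13782441), (nat_lit 6), (nat_lit 0), [], [⟨(nat_lit 1), (nat_lit 81), (nat_lit 78), (nat_lit 100), (nat_lit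 428605556)⟩], [⟨(nat_lit 1), (nat_lit 40), (nat_lit 100), (nat_lit 100), (nat_lit 124926030)⟩], [],
 ⟨⟨[(nat_lit 40), (nat_lit 60), (nat_lit 80)], [(nat_lit 0), (nat_lit 197), (nat_lit 800)], [((nat_lit 0), (nat_lit 0), (nat_lit 0)), ((nat_lit 1000), (nat_lit 908), (nat_lit 154)), ((nat_lit 1000), (nat_lit 781), (nat_lit 471))], ((nat_lit 78), (nat_lit 100), (nat_lit 49))⟩, (nat_lit 0), (nat_lit 46), (nat_lit 46), (nat_lit 0), (nat_lit 0), [(nat_lit 1697248003), (nat_lit 90008723205), (nat_lit 3538880000)], [(nat_lit 0), (nat_lit 0), (nat_lit 0)], [(nat_lit 21290903800), (nat_lit 21607833306), (nat_lit 24078370618), (nat_lit 24351406229), (nat_lit 25320599997), (nat_lit 25594549135), (nat_lit 27576353891), (nat_lit 27813578041)], (nat_lit 0), (nat_lit 0), (nat_lit 0), (nat_lit 0), (nat_lit 0), (nat_lit 0), [], [(nat_lit 2), (nat_lit 44), (nat_lit 203), (nat_lit 0), (nat_lit 7)]⟩,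
 ⟨⟨[(nat_lit 80), (nat_lit 120), (nat_lit 140)], [(nat_lit 0), (nat_lit 0), (nat_lit 1164)], [((nat_lit 0), (nat_lit 0), (nat_lit 0)), ((nat_lit 0), (nat_lit 0), (nat_lit 0)), ((nat_lit 941), (nat_lit 1000), (nat_lit 576))], ((nat_lit 100), (nat_lit 98), (nat_lit 48))⟩, (nat_lit 1484037), (nat_lit 191), (nat_lit 191), (nat_lit 0), (nat_lit 0), [(nat_lit 2550272000), (nat_lit 4334592000), (nat_lit 5354048000)], [], [(nat_lit 13084349380), (nat_lit 16955987212), (nat_lit 15849484980), (nat_lit 18921743476), (nat_lit 16678903314), (nat_lit 18926543565), (nat_lit 18013152834), (nat_lit 19883308996)], (nat_lit 0), (nat_lit 0), (nat_lit 0), (nat_lit 0), (nat_lit 0), (nat_lit 0), [], [(nat_lit 17), (nat_lit 58), (nat_lit 483), (nat_lit 250), (nat_lit 14)]⟩,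
 Rw.none⟩) (.trX (nat_lit 4) (nat_lit 0) (nat_lit 2) (nat_lit 75) (nat_lit 83) (nat_lit 100) (nat_lit 320) (.leaf ⟨(nat_lit 427), (nat_lit 573), (nat_lit 0), (nat_lit 0), (nat_lit 0), (nat_lit 3340), (nat_lit 5429), (nat_lit 0), (nat_lit 0), (nat_lit 0), (nat_lit 106750), [((nat_lit 340), [((nat_lit 18), (nat_lit 0), (nat_lit 427))])], ⟨(nat_lit 6), true, false, false, (nat_lit 261), (nat_lit 3872), (nat_lit 4032), [(nat_lit 1543449), (nat_lit 1543583), (nat_lit 1630350), (nat_lit 1630751), (nat_lit 1674232), (nat_lit 1672628), (nat_lit 1761133), (nat_lit 1759796)]⟩, ⟨(nat_lit 6), false, false, true, (nat_lit 226), (nat_lit 3872), (nat_lit 4032), [(nat_lit 1478484), (nat_lit 1477347), (nat_lit 1521937), (nat_lit 1520934), (nat_lit 1609266), (nat_lit 1606390), (nat_lit 1652718), (nat_lit 1649977)]⟩, (nat_lit 5413870), (nat_lit 36540656), (nat_lit 16994726), (nat_lit 13464618), (nat_lit 6), (nat_lit 0), [], [⟨(nat_lit 1), (nat_lit 83), (nat_lit 75),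 (nat_lit 100), (nat_lit 445490232)⟩], [⟨(nat_lit 1), (nat_lit 40), (nat_lit 100), (nat_lit 100), (nat_lit 133157450)⟩], [],
 ⟨⟨[(nat_lit 40), (nat_lit 60), (nat_lit 80)], [(nat_lit 0), (nat_lit 297), (nat_lit 895)], [((nat_lit 0), (nat_lit 0), (nat_lit 0)), ((nat_lit 1000), (nat_lit 861), (nat_lit 231)), ((nat_lit 1000), (nat_lit 767), (nat_lit 466))], ((nat_lit 76), (nat_lit 100), (nat_lit 49))⟩, (nat_lit 0), (nat_lit 45), (nat_lit 45), (nat_lit 0), (nat_lit 0), [(nat_lit 1718411305), (nat_lit 86934026696), (nat_lit 3611960000)], [(nat_lit 0), (nat_lit 0), (nat_lit 0)], [(nat_lit 21610319615), (nat_lit 21928984865), (nat_lit 24360657473), (nat_lit 24635062875), (nat_lit 25081362948), (nat_lit 25363475090), (nat_lit 27375375845), (nat_lit 27619321500)], (nat_lit 0), (nat_lit 0), (nat_lit 0), (nat_lit 0), (nat_lit 0), (nat_lit 0), [], [(nat_lit 2), (nat_lit 44), (nat_lit 203), (nat_lit 0), (nat_lit 7)]⟩,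
 ⟨⟨[(nat_lit 80), (nat_lit 120), (nat_lit 140)], [(nat_lit 0), (nat_lit 0), (nat_lit 1164)], [((nat_lit 0), (nat_lit 0), (nat_lit 0)), ((nat_lit 0), (nat_lit 0), (nat_lit 0)), ((nat_lit 941), (nat_lit 1000), (nat_lit 576))], ((nat_lit 100), (nat_lit 98), (nat_lit 48))⟩, (nat_lit 1566697), (nat_lit 191), (nat_lit 191), (nat_lit 0), (nat_lit 0), [(nat_lit 2686224000), (nat_lit 4565664000), (nat_lit 5639466000)], [], [(nat_lit 13765495852), (nat_lit 17900241144), (nat_lit 16711761116), (nat_lit 19988602042), (nat_lit 17517427386), (nat_lit 20064813438), (nat_lit 19083752026), (nat_lit 21070323721)], (nat_lit 0), (nat_lit 0), (nat_lit 0), (nat_lit 0), (nat_lit 0), (nat_lit 0), [], [(nat_lit 17), (nat_lit 58), (nat_lit 483), (nat_lit 250), (nat_lit 14)]⟩,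
 Rw.none⟩))) (.spl (nat_lit 1) (nat_lit 280) (.leaf ⟨(nat_lit 813), (nat_lit 143), (nat_lit 0), (nat_lit 44), (nat_lit 0), (nat_lit 3300), (nat_lit 1645), (nat_lit 485), (nat_lit 0), (nat_lit 0), (nat_lit 298200), [((nat_lit 340), [((nat_lit 18), (nat_lit 0), (nat_lit 180)), ((nat_lit 18), (nat_lit 1), (nat_lit 633))])], ⟨(nat_lit 6), false, true, false, (nat_lit 252), (nat_lit 3872), (nat_lit 4184), [(nat_lit 1543323), (nat_lit 1543576), (nat_lit 1586647), (nat_lit 1587153), (nat_lit 1675840), (nat_lit 1672625), (nat_lit 1719164), (nat_lit 1716202)]⟩, ⟨(nat_lit 6), false, false, true, (nat_lit 230), (nat_lit 3872), (nat_lit 4184), [(nat_lit 1479587), (nat_lit 1477347), (nat_lit 1522921), (nat_lit 1520934), (nat_lit 1628662), (nat_lit 1622521), (nat_lit 1671996), (nat_lit 1666107)]⟩, (nat_lit 5399131), (nat_lit 36882787), (nat_lit 16205780), (nat_lit 13911433), (nat_lit 6), (nat_lit 0), [], [⟨(nat_lit 1), (nat_lit 91), (nat_lit 77), (nat_lit 100),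 (nat_lit 209649369)⟩], [], [],
 ⟨⟨[(nat_lit 40), (nat_lit 60), (nat_lit 80)], [(nat_lit 0), (nat_lit 197), (nat_lit 800)], [((nat_lit 0), (nat_lit 0), (nat_lit 0)), ((nat_lit 1000), (nat_lit 908), (nat_lit 154)), ((nat_lit 1000), (nat_lit 781), (nat_lit 471))], ((nat_lit 78), (nat_lit 100), (nat_lit 49))⟩, (nat_lit 954019), (nat_lit 48), (nat_lit 48), (nat_lit 0), (nat_lit 0), [(nat_lit 1466871601), (nat_lit 1995853201), (nat_lit 2478207799)], [(nat_lit 0), (nat_lit 0), (nat_lit 0)], [(nat_lit 21894560659), (nat_lit 22466523059), (nat_lit 24464681184), (nat_lit 24960337309), (nat_lit 25573242691), (nat_lit 26048679722), (nat_lit 27625945422), (nat_lit 28049937575)], (nat_lit 0), (nat_lit 0), (nat_lit 0), (nat_lit 0), (nat_lit 0), (nat_lit 0), [], [(nat_lit 2), (nat_lit 44), (nat_lit 203), (nat_lit 0), (nat_lit 7)]⟩,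
 ⟨⟨[(nat_lit 80), (nat_lit 120), (nat_lit 140)], [(nat_lit 0), (nat_lit 0), (nat_lit 1164)], [((nat_lit 0), (nat_lit 0), (nat_lit 0)), ((nat_lit 0), (nat_lit 0), (nat_lit 0)), ((nat_lit 941), (nat_lit 1000), (nat_lit 576))], ((nat_lit 100), (nat_lit 98), (nat_lit 48))⟩, (nat_lit 474683), (nat_lit 497), (nat_lit 497), (nat_lit 0), (nat_lit 668633), [(nat_lit 876656000), (nat_lit 1490016000), (nat_lit 1840454000)], [], [(nat_lit 6273674580), (nat_lit 6427065634), (nat_lit 6517228896), (nat_lit 6750891978), (nat_lit 8017958126), (nat_lit 6570093487), (nat_lit 6310440793), (nat_lit 6422597843)], (nat_lit 1271251), (nat_lit 1271251), (nat_lit 1271251), (nat_lit 1271251), (nat_lit 0), (nat_lit 2754376), [(nat_lit 1100000), (nat_lit 1785001), (nat_lit 1271251)], [(nat_lit 17), (nat_lit 58), (nat_lit 483), (nat_lit 250), (nat_lit 14)]⟩,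
 ⟨⟨[(nat_lit 140), (nat_lit 160), (nat_lit 180)], [(nat_lit 0), (nat_lit 0), (nat_lit 799)], [((nat_lit 0), (nat_lit 0), (nat_lit 0)), ((nat_lit 0), (nat_lit 0), (nat_lit 0)), ((nat_lit 728), (nat_lit 1000), (nat_lit 454))], ((nat_lit 100), (nat_lit 67), (nat_lit 52))⟩, (nat_lit 38658), (nat_lit 300), (nat_lit 1672), (nat_lit 3264802), (nat_lit 2807656), [(nat_lit 433048000), (nat_lit 522368000), (nat_lit 618552000)], [], [(nat_lit 2737466044), (nat_lit 2664339188), (nat_lit 2684785180), (nat_lit 2610500999), (nat_lit 2557536369), (nat_lit 2815776662), (nat_lit 2114466138), (nat_lit 2038248177)], (nat_lit 780000), (nat_lit 1100000), (nat_lit 1271251), (nat_lit 1271251), (nat_lit 0), (nat_lit 2754376), [(nat_lit 1977501), (nat_lit 1271251), (nat_lit 1271251)], [(nat_lit 31), (nat_lit 65), (nat_lit 528), (nat_lit 225), (nat_lit 12)]⟩⟩) (.trX (nat_lit 5) (nat_lit 1) (nat_lit 2) (nat_lit 94) (nat_lit 59) (nat_lit 100) (nat_lit 370) (.leaf ⟨(nat_lit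 680), (nat_lit 269), (nat_lit 0), (nat_lit 51), (nat_lit 0), (nat_lit 3511), (nat_lit 2536), (nat_lit 555), (nat_lit 0), (nat_lit 0), (nat_lit 234500), [((nat_lit 340), [((nat_lit 18), (nat_lit 0), (nat_lit 250)), ((nat_lit 18), (nat_lit 1), (nat_lit 430))])], ⟨(nat_lit 7), false, true, false, (nat_lit 270), (nat_lit 3872), (nat_lit 4184), [(nat_lit 1586647), (nat_lit 1587153), (nat_lit 1629971), (nat_lit 1630730), (nat_lit 1719164), (nat_lit 1716202), (nat_lit 1762488), (nat_lit 1759779)]⟩, ⟨(nat_lit 6), false, false, true, (nat_lit 230), (nat_lit 3872), (nat_lit 4184), [(nat_lit 1479587), (nat_lit 1477347), (nat_lit 1522921), (nat_lit 1520934), (nat_lit 1628662), (nat_lit 1622521), (nat_lit 1671996), (nat_lit 1666107)]⟩, (nat_lit 5464724), (nat_lit 35758712), (nat_lit 17650162), (nat_lit 13591126), (nat_lit 6), (nat_lit 0), [], [⟨(nat_lit 1), (nat_lit 91), (nat_lit 77), (nat_lit 100), (nat_lit 251132260)⟩], [⟨(nat_lit 1), (nat_lit 77), (nat_lit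 91), (nat_lit 100), (nat_lit 12659085)⟩], [],
 ⟨⟨[(nat_lit 40), (nat_lit 60), (nat_lit 80)], [(nat_lit 0), (nat_lit 197), (nat_lit 800)], [((nat_lit 0), (nat_lit 0), (nat_lit 0)), ((nat_lit 1000), (nat_lit 908), (nat_lit 154)), ((nat_lit 1000), (nat_lit 781), (nat_lit 471))], ((nat_lit 78), (nat_lit 100), (nat_lit 49))⟩, (nat_lit 1415345), (nat_lit 48), (nat_lit 48), (nat_lit 0), (nat_lit 0), [(nat_lit 1548789361), (nat_lit 2214172011), (nat_lit 2859067989)], [(nat_lit 0), (nat_lit 0), (nat_lit 0)], [(nat_lit 21799420747), (nat_lit 22387645022), (nat_lit 24401541374), (nat_lit 24910033420), (nat_lit 25553051561), (nat_lit 26040532241), (nat_lit 27746627797), (nat_lit 28232371393)], (nat_lit 0), (nat_lit 0), (nat_lit 0), (nat_lit 0), (nat_lit 0), (nat_lit 0), [], [(nat_lit 2), (nat_lit 44), (nat_lit 203), (nat_lit 0), (nat_lit 7)]⟩,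
 ⟨⟨[(nat_lit 60), (nat_lit 100), (nat_lit 120)], [(nat_lit 0), (nat_lit 0), (nat_lit 1164)], [((nat_lit 0), (nat_lit 0), (nat_lit 0)), ((nat_lit 0), (nat_lit 0), (nat_lit 0)), ((nat_lit 1000), (nat_lit 933), (nat_lit 572))], ((nat_lit 92), (nat_lit 100), (nat_lit 48))⟩, (nat_lit 682019), (nat_lit 453), (nat_lit 453), (nat_lit 0), (nat_lit 728741), [(nat_lit 1050240000), (nat_lit 2000000000), (nat_lit 2549760000)], [], [(nat_lit 9643033524), (nat_lit 10148125584), (nat_lit 10277840688), (nat_lit 10727616288), (nat_lit 10798975529), (nat_lit 10080295598), (nat_lit 10171675682), (nat_lit 10747168472)], (nat_lit 1271251), (nat_lit 1271251), (nat_lit 1271251), (nat_lit 1271251), (nat_lit 0), (nat_lit 2613125), [(nat_lit 780000), (nat_lit 1435001), (nat_lit 1271251)], [(nat_lit 10), (nat_lit 54), (nat_lit 401), (nat_lit 175), (nat_lit 13)]⟩,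
 ⟨⟨[(nat_lit 140), (nat_lit 160), (nat_lit 180)], [(nat_lit 0), (nat_lit 0), (nat_lit 799)], [((nat_lit 0), (nat_lit 0), (nat_lit 0)), ((nat_lit 0), (nat_lit 0), (nat_lit 0)), ((nat_lit 728), (nat_lit 1000), (nat_lit 454))], ((nat_lit 100), (nat_lit 67), (nat_lit 52))⟩, (nat_lit 44809), (nat_lit 300), (nat_lit 2192), (nat_lit 3784200), (nat_lit 3849117), [(nat_lit 501942000), (nat_lit 605472000), (nat_lit 716958000)], [], [(nat_lit 3230281748), (nat_lit 3156424637), (nat_lit 3142158581), (nat_lit 3056106876), (nat_lit 2861989617), (nat_lit 3155316620), (nat_lit 2464754005), (nat_lit 2389644002)], (nat_lit 780000), (nat_lit 1100000), (nat_lit 1271251), (nat_lit 1271251), (nat_lit 0), (nat_lit 2613125), [(nat_lit 1977501), (nat_lit 1271251), (nat_lit 1271251)], [(nat_lit 31), (nat_lit 65), (nat_lit 656), (nat_lit 225), (nat_lit 15)]⟩⟩))))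
def l017 : List St := [⟨⟨(nat_lit 320), (nat_lit 330), (nat_lit 240), (nat_lit 280), (nat_lit 120), (nat_lit 160), (nat_lit 80), (nat_lit 100), (nat_lit 280), (nat_lit 340), (nat_lit 0), (nat_lit 320), (nat_lit 0), (nat_lit 44)⟩, (nat_lit 0), (nat_lit 3), (nat_lit 1), true, false, false⟩,
  ⟨⟨(nat_lit 330), (nat_lit 340), (nat_lit 240), (nat_lit 280), (nat_lit 120), (nat_lit 160), (nat_lit 80), (nat_lit 100), (nat_lit 280), (nat_lit 340), (nat_lit 0), (nat_lit 320), (nat_lit 0), (nat_lit 44)⟩, (nat_lit 0), (nat_lit 3), (nat_lit 1), true, false, false⟩,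
  ⟨⟨(nat_lit 320), (nat_lit 340), (nat_lit 240), (nat_lit 280), (nat_lit 120), (nat_lit 140), (nat_lit 100), (nat_lit 120), (nat_lit 280), (nat_lit 340), (nat_lit 0), (nat_lit 340), (nat_lit 0), (nat_lit 44)⟩, (nat_lit 0), (nat_lit 3), (nat_lit 1), true, false, false⟩,
  ⟨⟨(nat_lit 320), (nat_lit 340), (nat_lit 240), (nat_lit 280), (nat_lit 140), (nat_lit 160), (nat_lit 100), (nat_lit 120), (nat_lit 280), (nat_lit 340), (nat_lit 0), (nat_lit 340), (nat_lit 0), (nat_lit 44)⟩, (nat_lit 0), (nat_lit 3), (nat_lit 1), true, false, false⟩,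
  ⟨⟨(nat_lit 320), (nat_lit 340), (nat_lit 280), (nat_lit 320), (nat_lit 120), (nat_lit 160), (nat_lit 60), (nat_lit 120), (nat_lit 280), (nat_lit 340), (nat_lit 0), (nat_lit 340), (nat_lit 0), (nat_lit 44)⟩, (nat_lit 0), (nat_lit 3), (nat_lit 1), true, false, false⟩,
  ⟨⟨(nat_lit 320), (nat_lit 340), (nat_lit 240), (nat_lit 280), (nat_lit 120), (nat_lit 160), (nat_lit 60), (nat_lit 120), (nat_lit 280), (nat_lit 340), (nat_lit 0), (nat_lit 340), (nat_lit 0), (nat_lit 24)⟩, (nat_lit 1), (nat_lit 3), (nat_lit 1), true, false, false⟩,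
  ⟨⟨(nat_lit 320), (nat_lit 340), (nat_lit 240), (nat_lit 280), (nat_lit 120), (nat_lit 160), (nat_lit 60), (nat_lit 120), (nat_lit 280), (nat_lit 340), (nat_lit 0), (nat_lit 340), (nat_lit 24), (nat_lit 44)⟩, (nat_lit 1), (nat_lit 3), (nat_lit 1), true, false, false⟩,
  ⟨⟨(nat_lit 320), (nat_lit 340), (nat_lit 280), (nat_lit 320), (nat_lit 120), (nat_lit 160), (nat_lit 60), (nat_lit 120), (nat_lit 280), (nat_lit 340), (nat_lit 0), (nat_lit 340), (nat_lit 0), (nat_lit 44)⟩, (nat_lit 1), (nat_lit 3), (nat_lit 1), true, false, false⟩,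
  ⟨⟨(nat_lit 320), (nat_lit 340), (nat_lit 240), (nat_lit 280), (nat_lit 160), (nat_lit 180), (nat_lit 60), (nat_lit 120), (nat_lit 240), (nat_lit 350), (nat_lit 0), (nat_lit 370), (nat_lit 0), (nat_lit 24)⟩, (nat_lit 3), (nat_lit 3), (nat_lit 1), true, false, false⟩,
  ⟨⟨(nat_lit 320), (nat_lit 340), (nat_lit 240), (nat_lit 280), (nat_lit 160), (nat_lit 180), (nat_lit 60), (nat_lit 120), (nat_lit 240), (nat_lit 350), (nat_lit 0), (nat_lit 370), (nat_lit 24), (nat_lit 44)⟩, (nat_lit 3), (nat_lit 3), (nat_lit 1), true, false, false⟩,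
  ⟨⟨(nat_lit 320), (nat_lit 340), (nat_lit 280), (nat_lit 320), (nat_lit 160), (nat_lit 180), (nat_lit 60), (nat_lit 120), (nat_lit 240), (nat_lit 350), (nat_lit 0), (nat_lit 370), (nat_lit 0), (nat_lit 44)⟩, (nat_lit 3), (nat_lit 3), (nat_lit 1), true, false, false⟩,
  ⟨⟨(nat_lit 320), (nat_lit 340), (nat_lit 240), (nat_lit 320), (nat_lit 180), (nat_lit 220), (nat_lit 60), (nat_lit 120), (nat_lit 240), (nat_lit 380), (nat_lit 0), (nat_lit 370), (nat_lit 0), (nat_lit 44)⟩, (nat_lit 3), (nat_lit 3), (nat_lit 3), true, false, false⟩,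
  ⟨⟨(nat_lit 320), (nat_lit 340), (nat_lit 240), (nat_lit 320), (nat_lit 120), (nat_lit 220), (nat_lit 120), (nat_lit 280), (nat_lit 120), (nat_lit 380), (nat_lit 0), (nat_lit 400), (nat_lit 0), (nat_lit 24)⟩, (nat_lit 3), (nat_lit 0), (nat_lit 0), false, false, false⟩,
  ⟨⟨(nat_lit 320), (nat_lit 340), (nat_lit 240), (nat_lit 320), (nat_lit 120), (nat_lit 220), (nat_lit 120), (nat_lit 280), (nat_lit 120), (nat_lit 240), (nat_lit 0), (nat_lit 400), (nat_lit 0), (nat_lit 24)⟩, (nat_lit 3), (nat_lit 1), (nat_lit 0), false, false, false⟩,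
  ⟨⟨(nat_lit 320), (nat_lit 340), (nat_lit 240), (nat_lit 320), (nat_lit 120), (nat_lit 220), (nat_lit 120), (nat_lit 280), (nat_lit 240), (nat_lit 380), (nat_lit 0), (nat_lit 400), (nat_lit 0), (nat_lit 24)⟩, (nat_lit 3), (nat_lit 1), (nat_lit 0), false, false, false⟩,
  ⟨⟨(nat_lit 320), (nat_lit 330), (nat_lit 240), (nat_lit 320), (nat_lit 120), (nat_lit 220), (nat_lit 120), (nat_lit 200), (nat_lit 120), (nat_lit 240), (nat_lit 0), (nat_lit 400), (nat_lit 0), (nat_lit 24)⟩, (nat_lit 3), (nat_lit 3), (nat_lit 1), false, false, false⟩,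
  ⟨⟨(nat_lit 320), (nat_lit 330), (nat_lit 240), (nat_lit 320), (nat_lit 120), (nat_lit 220), (nat_lit 200), (nat_lit 280), (nat_lit 120), (nat_lit 240), (nat_lit 0), (nat_lit 400), (nat_lit 0), (nat_lit 24)⟩, (nat_lit 3), (nat_lit 3), (nat_lit 1), false, false, false⟩,
  ⟨⟨(nat_lit 320), (nat_lit 330), (nat_lit 240), (nat_lit 320), (nat_lit 120), (nat_lit 180), (nat_lit 120), (nat_lit 280), (nat_lit 240), (nat_lit 280), (nat_lit 0), (nat_lit 400), (nat_lit 0), (nat_lit 24)⟩, (nat_lit 0), (nat_lit 3), (nat_lit 1), false, false, false⟩,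
  ⟨⟨(nat_lit 320), (nat_lit 330), (nat_lit 240), (nat_lit 280), (nat_lit 120), (nat_lit 160), (nat_lit 120), (nat_lit 280), (nat_lit 280), (nat_lit 340), (nat_lit 0), (nat_lit 390), (nat_lit 0), (nat_lit 24)⟩, (nat_lit 0), (nat_lit 3), (nat_lit 1), false, false, false⟩,
  ⟨⟨(nat_lit 320), (nat_lit 330), (nat_lit 280), (nat_lit 320), (nat_lit 120), (nat_lit 160), (nat_lit 120), (nat_lit 280), (nat_lit 280), (nat_lit 340), (nat_lit 0), (nat_lit 390), (nat_lit 0), (nat_lit 24)⟩, (nat_lit 0), (nat_lit 3), (nat_lit 1), false, false, false⟩,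
  ⟨⟨(nat_lit 320), (nat_lit 330), (nat_lit 240), (nat_lit 280), (nat_lit 160), (nat_lit 180), (nat_lit 120), (nat_lit 280), (nat_lit 280), (nat_lit 350), (nat_lit 0), (nat_lit 400), (nat_lit 0), (nat_lit 24)⟩, (nat_lit 0), (nat_lit 3), (nat_lit 1), false, false, false⟩,
  ⟨⟨(nat_lit 320), (nat_lit 330), (nat_lit 280), (nat_lit 320), (nat_lit 160), (nat_lit 180), (nat_lit 120), (nat_lit 280), (nat_lit 280), (nat_lit 350), (nat_lit 0), (nat_lit 400), (nat_lit 0), (nat_lit 24)⟩, (nat_lit 0), (nat_lit 3), (nat_lit 1), false, false, false⟩,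
  ⟨⟨(nat_lit 320), (nat_lit 330), (nat_lit 240), (nat_lit 320), (nat_lit 180), (nat_lit 220), (nat_lit 120), (nat_lit 280), (nat_lit 240), (nat_lit 380), (nat_lit 0), (nat_lit 400), (nat_lit 0), (nat_lit 24)⟩, (nat_lit 0), (nat_lit 3), (nat_lit 1), false, false, false⟩,
  ⟨⟨(nat_lit 320), (nat_lit 330), (nat_lit 240), (nat_lit 320), (nat_lit 120), (nat_lit 180), (nat_lit 120), (nat_lit 280), (nat_lit 240), (nat_lit 350), (nat_lit 0), (nat_lit 400), (nat_lit 0), (nat_lit 24)⟩, (nat_lit 1), (nat_lit 0), (nat_lit 1), false, false, false⟩,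
  ⟨⟨(nat_lit 320), (nat_lit 330), (nat_lit 240), (nat_lit 320), (nat_lit 120), (nat_lit 180), (nat_lit 120), (nat_lit 280), (nat_lit 240), (nat_lit 350), (nat_lit 0), (nat_lit 400), (nat_lit 0), (nat_lit 24)⟩, (nat_lit 1), (nat_lit 1), (nat_lit 1), false, false, false⟩,
  ⟨⟨(nat_lit 320), (nat_lit 330), (nat_lit 240), (nat_lit 320), (nat_lit 180), (nat_lit 220), (nat_lit 120), (nat_lit 280), (nat_lit 240), (nat_lit 380), (nat_lit 0), (nat_lit 400), (nat_lit 0), (nat_lit 24)⟩, (nat_lit 1), (nat_lit 3), (nat_lit 1), false, false, false⟩,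
  ⟨⟨(nat_lit 330), (nat_lit 340), (nat_lit 240), (nat_lit 320), (nat_lit 120), (nat_lit 220), (nat_lit 120), (nat_lit 280), (nat_lit 120), (nat_lit 240), (nat_lit 0), (nat_lit 400), (nat_lit 0), (nat_lit 24)⟩, (nat_lit 0), (nat_lit 3), (nat_lit 1), false, false, false⟩,
  ⟨⟨(nat_lit 330), (nat_lit 340), (nat_lit 240), (nat_lit 320), (nat_lit 120), (nat_lit 220), (nat_lit 120), (nat_lit 280), (nat_lit 120), (nat_lit 240), (nat_lit 0), (nat_lit 400), (nat_lit 0), (nat_lit 24)⟩, (nat_lit 1), (nat_lit 3), (nat_lit 1), false, false, false⟩,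
  ⟨⟨(nat_lit 330), (nat_lit 340), (nat_lit 240), (nat_lit 320), (nat_lit 120), (nat_lit 160), (nat_lit 120), (nat_lit 200), (nat_lit 240), (nat_lit 280), (nat_lit 0), (nat_lit 390), (nat_lit 0), (nat_lit 24)⟩, (nat_lit 0), (nat_lit 3), (nat_lit 1), false, false, false⟩,
  ⟨⟨(nat_lit 330), (nat_lit 340), (nat_lit 240), (nat_lit 320), (nat_lit 120), (nat_lit 160), (nat_lit 120), (nat_lit 200), (nat_lit 280), (nat_lit 330), (nat_lit 0), (nat_lit 390), (nat_lit 0), (nat_lit 24)⟩, (nat_lit 0), (nat_lit 3), (nat_lit 1), false, false, false⟩,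
  ⟨⟨(nat_lit 330), (nat_lit 340), (nat_lit 240), (nat_lit 320), (nat_lit 120), (nat_lit 160), (nat_lit 200), (nat_lit 280), (nat_lit 240), (nat_lit 330), (nat_lit 0), (nat_lit 390), (nat_lit 0), (nat_lit 24)⟩, (nat_lit 0), (nat_lit 3), (nat_lit 1), false, false, false⟩]
theorem t017 (h : EC env Ei) : ∀ τ ∈ l017, Dead τ :=
  List.forall_mem_cons.mpr ⟨chkT_sound0 h (T := c11_34) (by decide +kernel),
  List.forall_mem_cons.mpr ⟨chkT_sound0 h (T := c11_35) (by decide +kernel),
  List.forall_mem_cons.mpr ⟨chkT_sound0 h (T := c11_36) (by decide +kernel),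
  List.forall_mem_cons.mpr ⟨chkT_sound0 h (T := c11_37) (by decide +kernel),
  List.forall_mem_cons.mpr ⟨chkT_sound0 h (T := c11_38) (by decide +kernel),
  List.forall_mem_cons.mpr ⟨chkT_sound0 h (T := c11_39) (by decide +kernel),
  List.forall_mem_cons.mpr ⟨chkT_sound0 h (T := c11_40) (by decide +kernel),
  List.forall_mem_cons.mpr ⟨chkT_sound0 h (T := c11_41) (by decide +kernel),
  List.forall_mem_cons.mpr ⟨chkT_sound0 h (T := c11_42) (by decide +kernel),
  List.forall_mem_cons.mpr ⟨chkT_sound0 h (T := c11_43) (by decide +kernel),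
  List.forall_mem_cons.mpr ⟨chkT_sound0 h (T := c11_44) (by decide +kernel),
  List.forall_mem_cons.mpr ⟨chkT_sound0 h (T := c11_45) (by decide +kernel),
  List.forall_mem_cons.mpr ⟨chkT_sound0 h (T := c11_46) (by decide +kernel),
  List.forall_mem_cons.mpr ⟨chkT_sound0 h (T := c11_47) (by decide +kernel),
  List.forall_mem_cons.mpr ⟨chkT_sound0 h (T := c11_48) (by decide +kernel),
  List.forall_mem_cons.mpr ⟨chkT_sound0 h (T := c11_49) (by decide +kernel),
  List.forall_mem_cons.mpr ⟨chkT_sound0 h (T := c11_50) (by decide +kernel),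
  List.forall_mem_cons.mpr ⟨chkT_sound0 h (T := c11_51) (by decide +kernel),
  List.forall_mem_cons.mpr ⟨chkT_sound0 h (T := c11_52) (by decide +kernel),
  List.forall_mem_cons.mpr ⟨chkT_sound0 h (T := c11_53) (by decide +kernel),
  List.forall_mem_cons.mpr ⟨chkT_sound0 h (T := c11_54) (by decide +kernel),
  List.forall_mem_cons.mpr ⟨chkT_sound0 h (T := c11_55) (by decide +kernel),
  List.forall_mem_cons.mpr ⟨chkT_sound0 h (T := c11_56) (by decide +kernel),
  List.forall_mem_cons.mpr ⟨chkT_sound0 h (T := c11_57) (by decide +kernel),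
  List.forall_mem_cons.mpr ⟨chkT_sound0 h (T := c11_58) (by decide +kernel),
  List.forall_mem_cons.mpr ⟨chkT_sound0 h (T := c11_59) (by decide +kernel),
  List.forall_mem_cons.mpr ⟨chkT_sound0 h (T := c11_60) (by decide +kernel),
  List.forall_mem_cons.mpr ⟨chkT_sound0 h (T := c11_61) (by decide +kernel),
  List.forall_mem_cons.mpr ⟨chkT_sound0 h (T := c11_62) (by decide +kernel),
  List.forall_mem_cons.mpr ⟨chkT_sound0 h (T := c11_63) (by decide +kernel),
  List.forall_mem_cons.mpr ⟨chkT_sound0 h (T := c11_64) (by decide +kernel),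
  List.forall_mem_nil _⟩⟩⟩⟩⟩⟩⟩⟩⟩⟩⟩⟩⟩⟩⟩⟩⟩⟩⟩⟩⟩⟩⟩⟩⟩⟩⟩⟩⟩⟩⟩
end TC
end Pool.Agent.Lib.MP_6947cd_al
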