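import Pool.Agent.Lib.MP_6947cd_al.C.LeafF
import Pool.Agent.Lib.MP_6947cd_al.TC.E
import Pool.Agent.Lib.MP_6947cd_al.TC.F

/-!
Problem MP_6947cd_al (Chollet).  CASE C, tables and certificates.  Trees of leaves (part 18 of root 11).
-/

set_option autoImplicit false
set_option linter.all false
set_option maxRecDepth 100000
set_option maxHeartbeats 4000000
namespace Pool.Agent.Lib.MP_6947cd_al
namespace TC
open C1
noncomputable def c11_65 : Tr Lf :=
 (.stt (nat_lit 2) (.spl (nat_lit 5) (nat_lit 200) (.leaf ⟨(nat_lit 0), (nat_lit 916), (nat_lit 0), (nat_lit 84), (nat_lit 0), (nat_lit 5243), (nat_lit 7119), (nat_lit 1058), (nat_lit 0), (nat_lit 0), (nat_lit 0), [], Pd.none, Pd.none, (nat_lit 0), (nat_lit 1), (nat_lit 0), (nat_lit 0), (nat_lit 6), (nat_lit 0), [⟨(nat_lit 0), (nat_lit 100), (nat_lit 81), (nat_lit 100), (nat_lit 314496)⟩, ⟨(nat_lit 0), (nat_lit 81), (nat_lit 72), (nat_lit 100), (nat_lit 388268644)⟩], [⟨(nat_lit 1), (nat_lit 81), (nat_lit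 78), (nat_lit 100), (nat_lit 462539044)⟩], [], [],
 ⟨⟨[(nat_lit 40), (nat_lit 60), (nat_lit 80)], [(nat_lit 0), (nat_lit 197), (nat_lit 800)], [((nat_lit 0), (nat_lit 0), (nat_lit 0)), ((nat_lit 1000), (nat_lit 908), (nat_lit 154)), ((nat_lit 1000), (nat_lit 781), (nat_lit 471))], ((nat_lit 78), (nat_lit 100), (nat_lit 49))⟩, (nat_lit 1517178), (nat_lit 256), (nat_lit 256), (nat_lit 0), (nat_lit 625234), [(nat_lit 2032000052), (nat_lit 3282000047), (nat_lit 4688000000)], [], [(nat_lit 22647008020), (nat_lit 23217555032), (nat_lit 25661800376), (nat_lit 26098153864), (nat_lit 26165875064), (nat_lit 26935575267), (nat_lit 29150982110), (nat_lit 29729885006)], (nat_lit 1271251), (nat_lit 1271251), (nat_lit 780000), (nat_lit 2090001), (nat_lit 1271251), (nat_lit 1271251), [(nat_lit 490000), (nat_lit 780000), (nat_lit 1100000)], [(nat_lit 2), (nat_lit 44), (nat_lit 289), (nat_lit 75), (nat_lit 12)]⟩,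
 ⟨⟨[(nat_lit 80), (nat_lit 120), (nat_lit 140)], [(nat_lit 0), (nat_lit 0), (nat_lit 1164)], [((nat_lit 0), (nat_lit 0), (nat_lit 0)), ((nat_lit 0), (nat_lit 0), (nat_lit 0)), ((nat_lit 941), (nat_lit 1000), (nat_lit 576))], ((nat_lit 100), (nat_lit 98), (nat_lit 48))⟩, (nat_lit 4026738), (nat_lit 197), (nat_lit 197), (nat_lit 0), (nat_lit 0), [(nat_lit 4688000000), (nat_lit 7968000000), (nat_lit 9842000000)], [], [(nat_lit 21540179326), (nat_lit 27989414684), (nat_lit 27588443562), (nat_lit 33003783098), (nat_lit 19993560592), (nat_lit 25026522053), (nat_lit 24630361171), (nat_lit 28259653904)], (nat_lit 0), (nat_lit 0), (nat_lit 0), (nat_lit 0), (nat_lit 0), (nat_lit 0), [], [(nat_lit 17), (nat_lit 58), (nat_lit 428), (nat_lit 200), (nat_lit 12)]⟩,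
 ⟨⟨[(nat_lit 140), (nat_lit 160), (nat_lit 180)], [(nat_lit 0), (nat_lit 0), (nat_lit 799)], [((nat_lit 0), (nat_lit 0), (nat_lit 0)), ((nat_lit 0), (nat_lit 0), (nat_lit 0)), ((nat_lit 728), (nat_lit 1000), (nat_lit 454))], ((nat_lit 100), (nat_lit 67), (nat_lit 52))⟩, (nat_lit 73802), (nat_lit 300), (nat_lit 2101), (nat_lit 6232802), (nat_lit 3679345), [(nat_lit 826728000), (nat_lit 997248000), (nat_lit 1180872000)], [], [(nat_lit 4784200296), (nat_lit 4628510784), (nat_lit 4840727357), (nat_lit 4679723027), (nat_lit 3727566400), (nat_lit 3812805160), (nat_lit 3728057411), (nat_lit 3574169783)], (nat_lit 780000), (nat_lit 1100000), (nat_lit 1271251), (nat_lit 1271251), (nat_lit 0), (nat_lit 1412501), [(nat_lit 1977501), (nat_lit 1271251), (nat_lit 1271251)], [(nat_lit 31), (nat_lit 65), (nat_lit 612), (nat_lit 175), (nat_lit 14)]⟩⟩) (.spl (nat_lit 1) (nat_lit 280) (.leaf ⟨(nat_lit 0), (nat_lit 902), (nat_lit 0), (nat_lit 98), (nat_lit 0), (nat_lit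 4709), (nat_lit 5753), (nat_lit 1044), (nat_lit 0), (nat_lit 0), (nat_lit 0), [], Pd.none, Pd.none, (nat_lit 0), (nat_lit 1), (nat_lit 0), (nat_lit 0), (nat_lit 6), (nat_lit 0), [], [⟨(nat_lit 1), (nat_lit 91), (nat_lit 77), (nat_lit 100), (nat_lit 244176437)⟩], [⟨(nat_lit 1), (nat_lit 60), (nat_lit 100), (nat_lit 100), (nat_lit 145785368)⟩], [⟨(nat_lit 2), (nat_lit 42), (nat_lit 91), (nat_lit 100), (nat_lit 259855851)⟩, ⟨(nat_lit 2), (nat_lit 97), (nat_lit 100), (nat_lit 89), (nat_lit 110011381)⟩],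
 ⟨⟨[(nat_lit 40), (nat_lit 60), (nat_lit 80)], [(nat_lit 0), (nat_lit 197), (nat_lit 800)], [((nat_lit 0), (nat_lit 0), (nat_lit 0)), ((nat_lit 1000), (nat_lit 908), (nat_lit 154)), ((nat_lit 1000), (nat_lit 781), (nat_lit 471))], ((nat_lit 78), (nat_lit 100), (nat_lit 49))⟩, (nat_lit 3172917), (nat_lit 189), (nat_lit 189), (nat_lit 0), (nat_lit 425290), [(nat_lit 2032000010), (nat_lit 3282000008), (nat_lit 4688000000)], [], [(nat_lit 21217421838), (nat_lit 21859373748), (nat_lit 24882363886), (nat_lit 25374674761), (nat_lit 25640948542), (nat_lit 26367939274), (nat_lit 28717999891), (nat_lit 29268180463)], (nat_lit 1271251), (nat_lit 1271251), (nat_lit 780000), (nat_lit 2090001), (nat_lit 1271251), (nat_lit 1271251), [(nat_lit 490000), (nat_lit 780000), (nat_lit 1100000)], [(nat_lit 2), (nat_lit 44), (nat_lit 289), (nat_lit 75), (nat_lit 12)]⟩,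
 ⟨⟨[(nat_lit 80), (nat_lit 120), (nat_lit 140)], [(nat_lit 0), (nat_lit 0), (nat_lit 1164)], [((nat_lit 0), (nat_lit 0), (nat_lit 0)), ((nat_lit 0), (nat_lit 0), (nat_lit 0)), ((nat_lit 941), (nat_lit 1000), (nat_lit 576))], ((nat_lit 100), (nat_lit 98), (nat_lit 48))⟩, (nat_lit 0), (nat_lit 110), (nat_lit 110), (nat_lit 0), (nat_lit 0), [(nat_lit 4688000000), (nat_lit 7968000000), (nat_lit 9842000000)], [], [(nat_lit 13045100434), (nat_lit 16253652366), (nat_lit 19716006614), (nat_lit 21995244139), (nat_lit 27057874740), (nat_lit 28833199267), (nat_lit 29775112662), (nat_lit 31233787950)], (nat_lit 0), (nat_lit 0), (nat_lit 0), (nat_lit 0), (nat_lit 0), (nat_lit 0), [], [(nat_lit 17), (nat_lit 58), (nat_lit 483), (nat_lit 250), (nat_lit 13)]⟩,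
 ⟨⟨[(nat_lit 140), (nat_lit 160), (nat_lit 180)], [(nat_lit 0), (nat_lit 0), (nat_lit 799)], [((nat_lit 0), (nat_lit 0), (nat_lit 0)), ((nat_lit 0), (nat_lit 0), (nat_lit 0)), ((nat_lit 728), (nat_lit 1000), (nat_lit 454))], ((nat_lit 100), (nat_lit 67), (nat_lit 52))⟩, (nat_lit 86103), (nat_lit 300), (nat_lit 1375), (nat_lit 7271600), (nat_lit 2436825), [(nat_lit 964516000), (nat_lit 1163456000), (nat_lit 1377684000)], [], [(nat_lit 5404666544), (nat_lit 5253069796), (nat_lit 5206836245), (nat_lit 5053613920), (nat_lit 4986966864), (nat_lit 4827594736), (nat_lit 4837342768), (nat_lit 4673776698)], (nat_lit 780000), (nat_lit 1100000), (nat_lit 1271251), (nat_lit 1271251), (nat_lit 1271251), (nat_lit 1271251), [(nat_lit 1977501), (nat_lit 1271251), (nat_lit 1271251)], [(nat_lit 31), (nat_lit 65), (nat_lit 456), (nat_lit 225), (nat_lit 10)]⟩⟩) (.trX (nat_lit 5) (nat_lit 1) (nat_lit 2) (nat_lit 94) (nat_lit 59) (nat_lit 100) (nat_lit 370) (.leaf ⟨(nat_lit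 0), (nat_lit 880), (nat_lit 0), (nat_lit 120), (nat_lit 0), (nat_lit 4668), (nat_lit 7193), (nat_lit 1310), (nat_lit 0), (nat_lit 0), (nat_lit 0), [], Pd.none, Pd.none, (nat_lit 0), (nat_lit 1), (nat_lit 0), (nat_lit 0), (nat_lit 6), (nat_lit 0), [⟨(nat_lit 0), (nat_lit 91), (nat_lit 77), (nat_lit 100), (nat_lit 326415160)⟩], [⟨(nat_lit 1), (nat_lit 91), (nat_lit 77), (nat_lit 100), (nat_lit 426765375)⟩], [⟨(nat_lit 1), (nat_lit 77), (nat_lit 91), (nat_lit 100), (nat_lit 463666736)⟩], [],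
 ⟨⟨[(nat_lit 40), (nat_lit 60), (nat_lit 80)], [(nat_lit 0), (nat_lit 197), (nat_lit 800)], [((nat_lit 0), (nat_lit 0), (nat_lit 0)), ((nat_lit 1000), (nat_lit 908), (nat_lit 154)), ((nat_lit 1000), (nat_lit 781), (nat_lit 471))], ((nat_lit 78), (nat_lit 100), (nat_lit 49))⟩, (nat_lit 4504279), (nat_lit 256), (nat_lit 256), (nat_lit 0), (nat_lit 625106), [(nat_lit 2032000002), (nat_lit 3282000001), (nat_lit 4688000000)], [], [(nat_lit 21974973613), (nat_lit 22543689228), (nat_lit 25258756280), (nat_lit 25696750338), (nat_lit 25600737146), (nat_lit 26324356735), (nat_lit 28684755938), (nat_lit 29232731237)], (nat_lit 1271251), (nat_lit 1271251), (nat_lit 780000), (nat_lit 2090001), (nat_lit 1271251), (nat_lit 1271251), [(nat_lit 490000), (nat_lit 780000), (nat_lit 1100000)], [(nat_lit 2), (nat_lit 44), (nat_lit 289), (nat_lit 75), (nat_lit 12)]⟩,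
 ⟨⟨[(nat_lit 60), (nat_lit 100), (nat_lit 120)], [(nat_lit 0), (nat_lit 0), (nat_lit 1164)], [((nat_lit 0), (nat_lit 0), (nat_lit 0)), ((nat_lit 0), (nat_lit 0), (nat_lit 0)), ((nat_lit 1000), (nat_lit 933), (nat_lit 572))], ((nat_lit 92), (nat_lit 100), (nat_lit 48))⟩, (nat_lit 0), (nat_lit 91), (nat_lit 91), (nat_lit 0), (nat_lit 0), [(nat_lit 3282000000), (nat_lit 6250000000), (nat_lit 7968000000)], [], [(nat_lit 17580749325), (nat_lit 20955014686), (nat_lit 23041907220), (nat_lit 25393233937), (nat_lit 29023225620), (nat_lit 30987271440), (nat_lit 31134352648), (nat_lit 32866167511)], (nat_lit 0), (nat_lit 0), (nat_lit 0), (nat_lit 0), (nat_lit 0), (nat_lit 0), [], [(nat_lit 10), (nat_lit 54), (nat_lit 401), (nat_lit 175), (nat_lit 12)]⟩,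
 ⟨⟨[(nat_lit 140), (nat_lit 160), (nat_lit 180)], [(nat_lit 0), (nat_lit 0), (nat_lit 799)], [((nat_lit 0), (nat_lit 0), (nat_lit 0)), ((nat_lit 0), (nat_lit 0), (nat_lit 0)), ((nat_lit 728), (nat_lit 1000), (nat_lit 454))], ((nat_lit 100), (nat_lit 67), (nat_lit 52))⟩, (nat_lit 105432), (nat_lit 300), (nat_lit 1992), (nat_lit 8904000), (nat_lit 3679321), [(nat_lit 1181040000), (nat_lit 1424640000), (nat_lit 1686960000)], [], [(nat_lit 6470012490), (nat_lit 6294511239), (nat_lit 6175605696), (nat_lit 6000208721), (nat_lit 5933785125), (nat_lit 5735351565), (nat_lit 5783693311), (nat_lit 5581693635)], (nat_lit 780000), (nat_lit 1100000), (nat_lit 1271251), (nat_lit 1271251), (nat_lit 1271251), (nat_lit 1271251), [(nat_lit 1977501), (nat_lit 1271251), (nat_lit 1271251)], [(nat_lit 31), (nat_lit 65), (nat_lit 606), (nat_lit 225), (nat_lit 13)]⟩⟩)))) (.spl (nat_lit 5) (nat_lit 200) (.leaf ⟨(nat_lit 0), (nat_lit 711), (nat_lit 0), (nat_lit 289), (nat_lit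 0), (nat_lit 5745), (nat_lit 5729), (nat_lit 3629), (nat_lit 0), (nat_lit 0), (nat_lit 0), [], Pd.none, Pd.none, (nat_lit 0), (nat_lit 1), (nat_lit 0), (nat_lit 0), (nat_lit 6), (nat_lit 0), [], [⟨(nat_lit 1), (nat_lit 91), (nat_lit 77), (nat_lit 100), (nat_lit 319798364)⟩], [], [],
 ⟨⟨[(nat_lit 40), (nat_lit 60), (nat_lit 80)], [(nat_lit 0), (nat_lit 197), (nat_lit 800)], [((nat_lit 0), (nat_lit 0), (nat_lit 0)), ((nat_lit 1000), (nat_lit 908), (nat_lit 154)), ((nat_lit 1000), (nat_lit 781), (nat_lit 471))], ((nat_lit 78), (nat_lit 100), (nat_lit 49))⟩, (nat_lit 529146), (nat_lit 139), (nat_lit 139), (nat_lit 0), (nat_lit 286205), [(nat_lit 2233387656), (nat_lit 3282000082), (nat_lit 4688000000)], [], [(nat_lit 21522808005), (nat_lit 22296728130), (nat_lit 25481749439), (nat_lit 26127177188), (nat_lit 26657021859), (nat_lit 27469195619), (nat_lit 29558017829), (nat_lit 30163921862)], (nat_lit 1271251), (nat_lit 1271251), (nat_lit 780000), (nat_lit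 2090001), (nat_lit 1271251), (nat_lit 1271251), [(nat_lit 490000), (nat_lit 780000), (nat_lit 1100000)], [(nat_lit 2), (nat_lit 44), (nat_lit 289), (nat_lit 75), (nat_lit 12)]⟩,
 ⟨⟨[(nat_lit 80), (nat_lit 120), (nat_lit 140)], [(nat_lit 0), (nat_lit 0), (nat_lit 1164)], [((nat_lit 0), (nat_lit 0), (nat_lit 0)), ((nat_lit 0), (nat_lit 0), (nat_lit 0)), ((nat_lit 941), (nat_lit 1000), (nat_lit 576))], ((nat_lit 100), (nat_lit 98), (nat_lit 48))⟩, (nat_lit 2918794), (nat_lit 365), (nat_lit 365), (nat_lit 0), (nat_lit 329725), [(nat_lit 4688000000), (nat_lit 7968000000), (nat_lit 9842000000)], [], [(nat_lit 35373763020), (nat_lit 36448986766), (nat_lit 44885912264), (nat_lit 39286416124), (nat_lit 42352099988), (nat_lit 34574950258), (nat_lit 56981373546), (nat_lit 47051928036)], (nat_lit 1271251), (nat_lit 1271251), (nat_lit 780000), (nat_lit 2090001), (nat_lit 0), (nat_lit 1412501), [(nat_lit 1100000), (nat_lit 1785001), (nat_lit 1271251)], [(nat_lit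 17), (nat_lit 58), (nat_lit 428), (nat_lit 200), (nat_lit 12)]⟩,
 ⟨⟨[(nat_lit 140), (nat_lit 160), (nat_lit 180)], [(nat_lit 0), (nat_lit 0), (nat_lit 799)], [((nat_lit 0), (nat_lit 0), (nat_lit 0)), ((nat_lit 0), (nat_lit 0), (nat_lit 0)), ((nat_lit 728), (nat_lit 1000), (nat_lit 454))], ((nat_lit 100), (nat_lit 67), (nat_lit 52))⟩, (nat_lit 253915), (nat_lit 300), (nat_lit 823), (nat_lit 21443800), (nat_lit 962610), [(nat_lit 2844338000), (nat_lit 3431008000), (nat_lit 4062762000)], [], [(nat_lit 16491564336), (nat_lit 15942364064), (nat_lit 16670380644), (nat_lit 16118659178), (nat_lit 12869419054), (nat_lit 13120778612), (nat_lit 12856210260), (nat_lit 12328869461)], (nat_lit 780000), (nat_lit 1100000), (nat_lit 1271251), (nat_lit 1271251), (nat_lit 0), (nat_lit 1412501), [(nat_lit 1977501), (nat_lit 1271251), (nat_lit 1271251)], [(nat_lit 31), (nat_lit 65), (nat_lit 401), (nat_lit 175), (nat_lit 9)]⟩⟩) (.leaf ⟨(nat_lit 0), (nat_lit 0), (nat_lit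 0), (nat_lit 1000), (nat_lit 0), (nat_lit 4275), (nat_lit 12898), (nat_lit 10662), (nat_lit 0), (nat_lit 0), (nat_lit 0), [], Pd.none, Pd.none, (nat_lit 0), (nat_lit 1), (nat_lit 0), (nat_lit 0), (nat_lit 0), (nat_lit 0), [⟨(nat_lit 0), (nat_lit 81), (nat_lit 72), (nat_lit 100), (nat_lit 206267323)⟩], [], [], [],
 ⟨⟨[(nat_lit 40), (nat_lit 60), (nat_lit 80)], [(nat_lit 0), (nat_lit 197), (nat_lit 800)], [((nat_lit 0), (nat_lit 0), (nat_lit 0)), ((nat_lit 1000), (nat_lit 908), (nat_lit 154)), ((nat_lit 1000), (nat_lit 781), (nat_lit 471))], ((nat_lit 78), (nat_lit 100), (nat_lit 49))⟩, (nat_lit 7585488), (nat_lit 139), (nat_lit 139), (nat_lit 0), (nat_lit 286205), [(nat_lit 2032000003), (nat_lit 3300181357), (nat_lit 4688000000)], [], [(nat_lit 20108117034), (nat_lit 20827548113), (nat_lit 24477754013), (nat_lit 25125415975), (nat_lit 25215296207), (nat_lit 25906602157), (nat_lit 28366100485), (nat_lit 28892937444)], (nat_lit 1271251), (nat_lit 1271251),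 (nat_lit 780000), (nat_lit 2090001), (nat_lit 1271251), (nat_lit 1271251), [(nat_lit 490000), (nat_lit 780000), (nat_lit 1100000)], [(nat_lit 2), (nat_lit 44), (nat_lit 289), (nat_lit 75), (nat_lit 12)]⟩,
 ⟨⟨[(nat_lit 80), (nat_lit 120), (nat_lit 140)], [(nat_lit 0), (nat_lit 0), (nat_lit 1164)], [((nat_lit 0), (nat_lit 0), (nat_lit 0)), ((nat_lit 0), (nat_lit 0), (nat_lit 0)), ((nat_lit 941), (nat_lit 1000), (nat_lit 576))], ((nat_lit 100), (nat_lit 98), (nat_lit 48))⟩, (nat_lit 4284304), (nat_lit 255), (nat_lit 255), (nat_lit 0), (nat_lit 329725), [(nat_lit 4688000000), (nat_lit 7968000000), (nat_lit 9842000000)], [], [(nat_lit 20749171278), (nat_lit 20101544574), (nat_lit 37898537248), (nat_lit 26269499932), (nat_lit 34763694239), (nat_lit 40965639407), (nat_lit 36558132507), (nat_lit 40518049660)], (nat_lit 1271251), (nat_lit 1271251), (nat_lit 780000), (nat_lit 2090001), (nat_lit 1271251), (nat_lit 1271251), [(nat_lit 1100000), (nat_lit 1785001),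 (nat_lit 1271251)], [(nat_lit 17), (nat_lit 58), (nat_lit 483), (nat_lit 250), (nat_lit 13)]⟩,
 ⟨⟨[(nat_lit 140), (nat_lit 160), (nat_lit 180)], [(nat_lit 0), (nat_lit 0), (nat_lit 799)], [((nat_lit 0), (nat_lit 0), (nat_lit 0)), ((nat_lit 0), (nat_lit 0), (nat_lit 0)), ((nat_lit 728), (nat_lit 1000), (nat_lit 454))], ((nat_lit 100), (nat_lit 67), (nat_lit 52))⟩, (nat_lit 979196), (nat_lit 300), (nat_lit 681), (nat_lit 74200000), (nat_lit 962610), [(nat_lit 9842000000), (nat_lit 11872000000), (nat_lit 14058000000)], [], [(nat_lit 50325880411), (nat_lit 48908638044), (nat_lit 49966776201), (nat_lit 48462646476), (nat_lit 49729923412), (nat_lit 48149305844), (nat_lit 49159906108), (nat_lit 47501489873)], (nat_lit 780000), (nat_lit 1100000), (nat_lit 1271251), (nat_lit 1271251), (nat_lit 1271251), (nat_lit 1271251), [(nat_lit 1977501), (nat_lit 1271251), (nat_lit 1271251)], [(nat_lit 31), (nat_lit 65), (nat_lit 456), (nat_lit 225), (nat_lit 10)]⟩⟩)))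
noncomputable def c11_66 : Tr Lf :=
 (.spl (nat_lit 1) (nat_lit 280) (.spl (nat_lit 5) (nat_lit 200) (.leaf ⟨(nat_lit 0), (nat_lit 912), (nat_lit 0), (nat_lit 88), (nat_lit 0), (nat_lit 5154), (nat_lit 7638), (nat_lit 1070), (nat_lit 0), (nat_lit 0), (nat_lit 0), [], Pd.none, Pd.none, (nat_lit 0), (nat_lit 1), (nat_lit 0), (nat_lit 0), (nat_lit 6), (nat_lit 0), [⟨(nat_lit 0), (nat_lit 99), (nat_lit 77), (nat_lit 100), (nat_lit 90920106)⟩], [⟨(nat_lit 1), (nat_lit 79), (nat_lit 75), (nat_lit 100), (nat_lit 549561240)⟩], [⟨(nat_lit 0), (nat_lit 100), (nat_lit 92), (nat_lit 31), (nat_lit 296664)⟩], [],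
 ⟨⟨[(nat_lit 40), (nat_lit 60), (nat_lit 80)], [(nat_lit 0), (nat_lit 197), (nat_lit 800)], [((nat_lit 0), (nat_lit 0), (nat_lit 0)), ((nat_lit 1000), (nat_lit 908), (nat_lit 154)), ((nat_lit 1000), (nat_lit 781), (nat_lit 471))], ((nat_lit 78), (nat_lit 100), (nat_lit 49))⟩, (nat_lit 1105134), (nat_lit 170), (nat_lit 170), (nat_lit 0), (nat_lit 344550), [(nat_lit 2064966476), (nat_lit 3282000901), (nat_lit 4688000000)], [], [(nat_lit 21890010015), (nat_lit 22617196815), (nat_lit 25620082041), (nat_lit 26168776079), (nat_lit 26946023898), (nat_lit 27582581178), (nat_lit 29652934249), (nat_lit 30211311497)], (nat_lit 1271251), (nat_lit 1271251), (nat_lit 780000), (nat_lit 2090001), (nat_lit 1271251), (nat_lit 1271251), [(nat_lit 490000), (nat_lit 780000), (nat_lit 1100000)], [(nat_lit 2), (nat_lit 44), (nat_lit 289), (nat_lit 75), (nat_lit 12)]⟩,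
 ⟨⟨[(nat_lit 80), (nat_lit 120), (nat_lit 140)], [(nat_lit 0), (nat_lit 0), (nat_lit 1164)], [((nat_lit 0), (nat_lit 0), (nat_lit 0)), ((nat_lit 0), (nat_lit 0), (nat_lit 0)), ((nat_lit 941), (nat_lit 1000), (nat_lit 576))], ((nat_lit 100), (nat_lit 98), (nat_lit 48))⟩, (nat_lit 4533760), (nat_lit 177), (nat_lit 177), (nat_lit 0), (nat_lit 0), [(nat_lit 4688000000), (nat_lit 7968000000), (nat_lit 9842000000)], [], [(nat_lit 20548865400), (nat_lit 24007123318), (nat_lit 27500812264), (nat_lit 30362310630), (nat_lit 18891499384), (nat_lit 21507321645), (nat_lit 23581933942), (nat_lit 25667717411)], (nat_lit 0), (nat_lit 0), (nat_lit 0), (nat_lit 0), (nat_lit 0), (nat_lit 0), [], [(nat_lit 17), (nat_lit 58), (nat_lit 428), (nat_lit 200), (nat_lit 12)]⟩,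
 ⟨⟨[(nat_lit 120), (nat_lit 160), (nat_lit 180)], [(nat_lit 0), (nat_lit 0), (nat_lit 1613)], [((nat_lit 0), (nat_lit 0), (nat_lit 0)), ((nat_lit 0), (nat_lit 0), (nat_lit 0)), ((nat_lit 620), (nat_lit 1000), (nat_lit 670))], ((nat_lit 100), (nat_lit 78), (nat_lit 48))⟩, (nat_lit 38299), (nat_lit 300), (nat_lit 1346), (nat_lit 6529600), (nat_lit 2159496), [(nat_lit 701184000), (nat_lit 1044736000), (nat_lit 1237104000)], [], [(nat_lit 4961802896), (nat_lit 4909560540), (nat_lit 4986225858), (nat_lit 4938642274), (nat_lit 3906211100), (nat_lit 3853100304), (nat_lit 3869474910), (nat_lit 3820740115)], (nat_lit 1100000), (nat_lit 1271251), (nat_lit 1271251), (nat_lit 1271251), (nat_lit 0), (nat_lit 1412501), [(nat_lit 1695001), (nat_lit 1271251), (nat_lit 1271251)], [(nat_lit 28), (nat_lit 65), (nat_lit 428), (nat_lit 200), (nat_lit 10)]⟩⟩) (.leaf ⟨(nat_lit 0), (nat_lit 922), (nat_lit 0), (nat_lit 78), (nat_lit 0), (nat_lit 4341), (nat_lit 8830), (nat_lit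 813), (nat_lit 0), (nat_lit 0), (nat_lit 0), [], Pd.none, Pd.none, (nat_lit 0), (nat_lit 1), (nat_lit 0), (nat_lit 0), (nat_lit 6), (nat_lit 0), [], [⟨(nat_lit 1), (nat_lit 79), (nat_lit 75), (nat_lit 100), (nat_lit 59779854)⟩], [], [⟨(nat_lit 2), (nat_lit 45), (nat_lit 89), (nat_lit 100), (nat_lit 260319164)⟩, ⟨(nat_lit 2), (nat_lit 97), (nat_lit 100), (nat_lit 94), (nat_lit 235942415)⟩],
 ⟨⟨[(nat_lit 40), (nat_lit 60), (nat_lit 80)], [(nat_lit 0), (nat_lit 197), (nat_lit 800)], [((nat_lit 0), (nat_lit 0), (nat_lit 0)), ((nat_lit 1000), (nat_lit 908), (nat_lit 154)), ((nat_lit 1000), (nat_lit 781), (nat_lit 471))], ((nat_lit 78), (nat_lit 100), (nat_lit 49))⟩, (nat_lit 3796580), (nat_lit 170), (nat_lit 170), (nat_lit 0), (nat_lit 344550), [(nat_lit 2032000083), (nat_lit 3282000170), (nat_lit 4688000000)], [], [(nat_lit 21313697648), (nat_lit 21962252439), (nat_lit 25167423297), (nat_lit 25662641138), (nat_lit 25976759414), (nat_lit 26654236162),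 (nat_lit 28950002051), (nat_lit 29466619351)], (nat_lit 1271251), (nat_lit 1271251), (nat_lit 780000), (nat_lit 2090001), (nat_lit 1271251), (nat_lit 1271251), [(nat_lit 490000), (nat_lit 780000), (nat_lit 1100000)], [(nat_lit 2), (nat_lit 44), (nat_lit 289), (nat_lit 75), (nat_lit 12)]⟩,
 ⟨⟨[(nat_lit 80), (nat_lit 120), (nat_lit 140)], [(nat_lit 0), (nat_lit 0), (nat_lit 1164)], [((nat_lit 0), (nat_lit 0), (nat_lit 0)), ((nat_lit 0), (nat_lit 0), (nat_lit 0)), ((nat_lit 941), (nat_lit 1000), (nat_lit 576))], ((nat_lit 100), (nat_lit 98), (nat_lit 48))⟩, (nat_lit 0), (nat_lit 116), (nat_lit 116), (nat_lit 0), (nat_lit 0), [(nat_lit 4688000000), (nat_lit 7968000000), (nat_lit 9842000000)], [], [(nat_lit 16360368440), (nat_lit 19700271770), (nat_lit 22220793990), (nat_lit 24585780135), (nat_lit 32299848920), (nat_lit 33962662560), (nat_lit 33682494700), (nat_lit 35272715510)], (nat_lit 0), (nat_lit 0), (nat_lit 0), (nat_lit 0), (nat_lit 0), (nat_lit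 0), [], [(nat_lit 17), (nat_lit 58), (nat_lit 483), (nat_lit 250), (nat_lit 13)]⟩,
 ⟨⟨[(nat_lit 120), (nat_lit 160), (nat_lit 180)], [(nat_lit 0), (nat_lit 0), (nat_lit 1613)], [((nat_lit 0), (nat_lit 0), (nat_lit 0)), ((nat_lit 0), (nat_lit 0), (nat_lit 0)), ((nat_lit 620), (nat_lit 1000), (nat_lit 670))], ((nat_lit 100), (nat_lit 78), (nat_lit 48))⟩, (nat_lit 33948), (nat_lit 300), (nat_lit 1222), (nat_lit 5787600), (nat_lit 2159496), [(nat_lit 621504000), (nat_lit 926016000), (nat_lit 1096524000)], [], [(nat_lit 4273837087), (nat_lit 4226961353), (nat_lit 4129878803), (nat_lit 4081754491), (nat_lit 3974425428), (nat_lit 3924773562), (nat_lit 3805897500), (nat_lit 3755117041)], (nat_lit 1100000), (nat_lit 1271251), (nat_lit 1271251), (nat_lit 1271251), (nat_lit 1271251), (nat_lit 1271251), [(nat_lit 1695001), (nat_lit 1271251), (nat_lit 1271251)], [(nat_lit 28), (nat_lit 65), (nat_lit 483), (nat_lit 250), (nat_lit 11)]⟩⟩)) (.trX (nat_lit 5) (nat_lit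 1) (nat_lit 2) (nat_lit 92) (nat_lit 49) (nat_lit 100) (nat_lit 380) (.spl (nat_lit 5) (nat_lit 200) (.leaf ⟨(nat_lit 0), (nat_lit 916), (nat_lit 0), (nat_lit 84), (nat_lit 0), (nat_lit 4949), (nat_lit 6127), (nat_lit 973), (nat_lit 0), (nat_lit 0), (nat_lit 0), [], Pd.none, Pd.none, (nat_lit 0), (nat_lit 1), (nat_lit 0), (nat_lit 0), (nat_lit 6), (nat_lit 0), [⟨(nat_lit 0), (nat_lit 81), (nat_lit 72), (nat_lit 100), (nat_lit 369353507)⟩], [⟨(nat_lit 1), (nat_lit 73), (nat_lit 76), (nat_lit 100), (nat_lit 483927556)⟩], [], [],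
 ⟨⟨[(nat_lit 40), (nat_lit 60), (nat_lit 80)], [(nat_lit 0), (nat_lit 197), (nat_lit 800)], [((nat_lit 0), (nat_lit 0), (nat_lit 0)), ((nat_lit 1000), (nat_lit 908), (nat_lit 154)), ((nat_lit 1000), (nat_lit 781), (nat_lit 471))], ((nat_lit 78), (nat_lit 100), (nat_lit 49))⟩, (nat_lit 2116855), (nat_lit 219), (nat_lit 219), (nat_lit 0), (nat_lit 524032), [(nat_lit 2032000002), (nat_lit 3282000001), (nat_lit 4688000000)], [], [(nat_lit 22458040983), (nat_lit 23051194521), (nat_lit 25675477578), (nat_lit 26129353350), (nat_lit 26623056574), (nat_lit 27348439618), (nat_lit 29475688123), (nat_lit 30023535495)], (nat_lit 1271251), (nat_lit 1271251), (nat_lit 780000), (nat_lit 2090001), (nat_lit 1271251), (nat_lit 1271251), [(nat_lit 490000), (nat_lit 780000), (nat_lit 1100000)], [(nat_lit 2), (nat_lit 44), (nat_lit 289), (nat_lit 75), (nat_lit 12)]⟩,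
 ⟨⟨[(nat_lit 60), (nat_lit 100), (nat_lit 120)], [(nat_lit 0), (nat_lit 0), (nat_lit 1164)], [((nat_lit 0), (nat_lit 0), (nat_lit 0)), ((nat_lit 0), (nat_lit 0), (nat_lit 0)), ((nat_lit 1000), (nat_lit 933), (nat_lit 572))], ((nat_lit 92), (nat_lit 100), (nat_lit 48))⟩, (nat_lit 3150942), (nat_lit 155), (nat_lit 155), (nat_lit 0), (nat_lit 0), [(nat_lit 3282000000), (nat_lit 6250000000), (nat_lit 7968000000)], [], [(nat_lit 20384013234), (nat_lit 24000671284), (nat_lit 26682835308), (nat_lit 29479704088), (nat_lit 19124062917), (nat_lit 21850580808), (nat_lit 24054031580), (nat_lit 26226409943)], (nat_lit 0), (nat_lit 0), (nat_lit 0), (nat_lit 0), (nat_lit 0), (nat_lit 0), [], [(nat_lit 10), (nat_lit 54), (nat_lit 345), (nat_lit 125), (nat_lit 11)]⟩,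
 ⟨⟨[(nat_lit 120), (nat_lit 160), (nat_lit 180)], [(nat_lit 0), (nat_lit 0), (nat_lit 1613)], [((nat_lit 0), (nat_lit 0), (nat_lit 0)), ((nat_lit 0), (nat_lit 0), (nat_lit 0)), ((nat_lit 620), (nat_lit 1000), (nat_lit 670))], ((nat_lit 100), (nat_lit 78), (nat_lit 48))⟩, (nat_lit 36558), (nat_lit 300), (nat_lit 1855), (nat_lit 6232800), (nat_lit 3227059), [(nat_lit 669312000), (nat_lit 997248000), (nat_lit 1180872000)], [], [(nat_lit 4884544280), (nat_lit 4838216698), (nat_lit 4839253531), (nat_lit 4797277477), (nat_lit 3939853344), (nat_lit 3887196432), (nat_lit 3858086614), (nat_lit 3805991317)], (nat_lit 1100000), (nat_lit 1271251), (nat_lit 1271251), (nat_lit 1271251), (nat_lit 0), (nat_lit 1412501), [(nat_lit 1695001), (nat_lit 1271251), (nat_lit 1271251)], [(nat_lit 28), (nat_lit 65), (nat_lit 554), (nat_lit 200), (nat_lit 13)]⟩⟩) (.leaf ⟨(nat_lit 0), (nat_lit 920), (nat_lit 0), (nat_lit 80), (nat_lit 0), (nat_lit 4436), (nat_lit 7048), (nat_lit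 856), (nat_lit 0), (nat_lit 0), (nat_lit 0), [], Pd.none, Pd.none, (nat_lit 0), (nat_lit 1), (nat_lit 0), (nat_lit 0), (nat_lit 6), (nat_lit 0), [⟨(nat_lit 0), (nat_lit 81), (nat_lit 72), (nat_lit 100), (nat_lit 265762011)⟩], [⟨(nat_lit 1), (nat_lit 79), (nat_lit 75), (nat_lit 100), (nat_lit 270782797)⟩], [⟨(nat_lit 1), (nat_lit 63), (nat_lit 88), (nat_lit 100), (nat_lit 79274829)⟩], [⟨(nat_lit 2), (nat_lit 45), (nat_lit 89), (nat_lit 100), (nat_lit 368498453)⟩],
 ⟨⟨[(nat_lit 40), (nat_lit 60), (nat_lit 80)], [(nat_lit 0), (nat_lit 197), (nat_lit 800)], [((nat_lit 0), (nat_lit 0), (nat_lit 0)), ((nat_lit 1000), (nat_lit 908), (nat_lit 154)), ((nat_lit 1000), (nat_lit 781), (nat_lit 471))], ((nat_lit 78), (nat_lit 100), (nat_lit 49))⟩, (nat_lit 4608479), (nat_lit 219), (nat_lit 219), (nat_lit 0), (nat_lit 524032), [(nat_lit 2032000003), (nat_lit 3282000002), (nat_lit 4688000000)], [], [(nat_lit 21898848501), (nat_lit 22492068002), (nat_lit 25375868725),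 (nat_lit 25832520223), (nat_lit 26129369327), (nat_lit 26762705452), (nat_lit 29032140499), (nat_lit 29553637498)], (nat_lit 1271251), (nat_lit 1271251), (nat_lit 780000), (nat_lit 2090001), (nat_lit 1271251), (nat_lit 1271251), [(nat_lit 490000), (nat_lit 780000), (nat_lit 1100000)], [(nat_lit 2), (nat_lit 44), (nat_lit 289), (nat_lit 75), (nat_lit 12)]⟩,
 ⟨⟨[(nat_lit 60), (nat_lit 100), (nat_lit 120)], [(nat_lit 0), (nat_lit 0), (nat_lit 1164)], [((nat_lit 0), (nat_lit 0), (nat_lit 0)), ((nat_lit 0), (nat_lit 0), (nat_lit 0)), ((nat_lit 1000), (nat_lit 933), (nat_lit 572))], ((nat_lit 92), (nat_lit 100), (nat_lit 48))⟩, (nat_lit 0), (nat_lit 96), (nat_lit 96), (nat_lit 0), (nat_lit 0), [(nat_lit 3282000000), (nat_lit 6250000000), (nat_lit 7968000000)], [], [(nat_lit 17743947332), (nat_lit 21076799896), (nat_lit 23179578920), (nat_lit 25506564632), (nat_lit 29892348856), (nat_lit 31754902212), (nat_lit 31781417036), (nat_lit 33420109628)], (nat_lit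 0), (nat_lit 0), (nat_lit 0), (nat_lit 0), (nat_lit 0), (nat_lit 0), [], [(nat_lit 10), (nat_lit 54), (nat_lit 401), (nat_lit 175), (nat_lit 12)]⟩,
 ⟨⟨[(nat_lit 120), (nat_lit 160), (nat_lit 180)], [(nat_lit 0), (nat_lit 0), (nat_lit 1613)], [((nat_lit 0), (nat_lit 0), (nat_lit 0)), ((nat_lit 0), (nat_lit 0), (nat_lit 0)), ((nat_lit 620), (nat_lit 1000), (nat_lit 670))], ((nat_lit 100), (nat_lit 78), (nat_lit 48))⟩, (nat_lit 34817), (nat_lit 300), (nat_lit 1738), (nat_lit 5936001), (nat_lit 3227059), [(nat_lit 637440000), (nat_lit 949760000), (nat_lit 1124640000)], [], [(nat_lit 4329691512), (nat_lit 4278393226), (nat_lit 4125573608), (nat_lit 4073884950), (nat_lit 3952288386), (nat_lit 3900388148), (nat_lit 3795019250), (nat_lit 3744868242)], (nat_lit 1100000), (nat_lit 1271251), (nat_lit 1271251), (nat_lit 1271251), (nat_lit 1271251), (nat_lit 1271251), [(nat_lit 1695001), (nat_lit 1271251), (nat_lit 1271251)], [(nat_lit 28), (nat_lit 65), (nat_lit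 547), (nat_lit 225), (nat_lit 12)]⟩⟩))))
noncomputable def c11_67 : Tr Lf :=
 (.spl (nat_lit 1) (nat_lit 280) (.spl (nat_lit 3) (nat_lit 200) (.spl (nat_lit 5) (nat_lit 120) (.spl (nat_lit 6) (nat_lit 12) (.leaf ⟨(nat_lit 761), (nat_lit 151), (nat_lit 0), (nat_lit 88), (nat_lit 0), (nat_lit 3415), (nat_lit 1794), (nat_lit 1001), (nat_lit 0), (nat_lit 0), (nat_lit 273800), [((nat_lit 340), [((nat_lit 18), (nat_lit 0), (nat_lit 204)), ((nat_lit 18), (nat_lit 1), (nat_lit 557))])], ⟨(nat_lit 6), false, false, false, (nat_lit 200), (nat_lit 3872), (nat_lit 4184), [(nat_lit 1410806), (nat_lit 1414527), (nat_lit 1454130), (nat_lit 1458104), (nat_lit 1543323), (nat_lit 1543576), (nat_lit 1586647), (nat_lit 1587153)]⟩, ⟨(nat_lit 6), false, false, true, (nat_lit 246), (nat_lit 3872), (nat_lit 4184), [(nat_lit 1522921), (nat_lit 1520934), (nat_lit 1544587), (nat_lit 1542727), (nat_lit 1688560), (nat_lit 1682237), (nat_lit 1710226), (nat_lit 1704031)]⟩, (nat_lit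 5189814), (nat_lit 39129031), (nat_lit 11645876), (nat_lit 16225093), (nat_lit 6), (nat_lit 0), [], [⟨(nat_lit 1), (nat_lit 79), (nat_lit 75), (nat_lit 100), (nat_lit 191896287)⟩], [], [⟨(nat_lit 0), (nat_lit 91), (nat_lit 100), (nat_lit 27), (nat_lit 90627057)⟩],
 ⟨⟨[(nat_lit 40), (nat_lit 60), (nat_lit 80)], [(nat_lit 0), (nat_lit 197), (nat_lit 800)], [((nat_lit 0), (nat_lit 0), (nat_lit 0)), ((nat_lit 1000), (nat_lit 908), (nat_lit 154)), ((nat_lit 1000), (nat_lit 781), (nat_lit 471))], ((nat_lit 81), (nat_lit 100), (nat_lit 36))⟩, (nat_lit 1812750), (nat_lit 114), (nat_lit 114), (nat_lit 0), (nat_lit 167793), [(nat_lit 1498824168), (nat_lit 2080977650), (nat_lit 2626208950)], [(nat_lit 0), (nat_lit 0), (nat_lit 0)], [(nat_lit 20641472385), (nat_lit 21253621214), (nat_lit 22159033088), (nat_lit 22705795359), (nat_lit 25102333910), (nat_lit 25598075888), (nat_lit 26142984125), (nat_lit 26588998423)], (nat_lit 1271251), (nat_lit 1271251), (nat_lit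 780000), (nat_lit 1435001), (nat_lit 1271251), (nat_lit 1271251), [(nat_lit 490000), (nat_lit 780000), (nat_lit 1100000)], [(nat_lit 2), (nat_lit 44), (nat_lit 260), (nat_lit 50), (nat_lit 10)]⟩,
 ⟨⟨[(nat_lit 80), (nat_lit 100), (nat_lit 120)], [(nat_lit 0), (nat_lit 0), (nat_lit 511)], [((nat_lit 0), (nat_lit 0), (nat_lit 0)), ((nat_lit 0), (nat_lit 0), (nat_lit 0)), ((nat_lit 1000), (nat_lit 997), (nat_lit 383))], ((nat_lit 99), (nat_lit 100), (nat_lit 34))⟩, (nat_lit 1392773), (nat_lit 389), (nat_lit 389), (nat_lit 0), (nat_lit 539349), [(nat_lit 1120432000), (nat_lit 1493750000), (nat_lit 1904352000)], [], [(nat_lit 8618547280), (nat_lit 6763427494), (nat_lit 8774984140), (nat_lit 7072340002), (nat_lit 8088831870), (nat_lit 6408821733), (nat_lit 10055279728), (nat_lit 8419324849)], (nat_lit 1271251), (nat_lit 1271251), (nat_lit 780000), (nat_lit 1435001), (nat_lit 0), (nat_lit 780000), [(nat_lit 1100000), (nat_lit 1442501), (nat_lit 1271251)],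 [(nat_lit 16), (nat_lit 54), (nat_lit 317), (nat_lit 100), (nat_lit 11)]⟩,
 ⟨⟨[(nat_lit 120), (nat_lit 140), (nat_lit 160)], [(nat_lit 0), (nat_lit 0), (nat_lit 609)], [((nat_lit 0), (nat_lit 0), (nat_lit 0)), ((nat_lit 0), (nat_lit 0), (nat_lit 0)), ((nat_lit 840), (nat_lit 1000), (nat_lit 400))], ((nat_lit 100), (nat_lit 87), (nat_lit 35))⟩, (nat_lit 90168), (nat_lit 300), (nat_lit 912), (nat_lit 6186400), (nat_lit 1364151), [(nat_lit 701184000), (nat_lit 866096000), (nat_lit 1044736000)], [], [(nat_lit 4229384412), (nat_lit 4187051924), (nat_lit 4267360284), (nat_lit 4237414473), (nat_lit 3580937492), (nat_lit 3538597381), (nat_lit 3569118482), (nat_lit 3529157635)], (nat_lit 1100000), (nat_lit 1271251), (nat_lit 1271251), (nat_lit 1271251), (nat_lit 0), (nat_lit 780000), [(nat_lit 1695001), (nat_lit 1271251), (nat_lit 1271251)], [(nat_lit 27), (nat_lit 62), (nat_lit 401), (nat_lit 175), (nat_lit 10)]⟩⟩) (.spl (nat_lit 0) (nat_lit 335) (.leaf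 ⟨(nat_lit 0), (nat_lit 711), (nat_lit 0), (nat_lit 289), (nat_lit 0), (nat_lit 4148), (nat_lit 7554), (nat_lit 3767), (nat_lit 0), (nat_lit 0), (nat_lit 0), [], Pd.none, Pd.none, (nat_lit 0), (nat_lit 1), (nat_lit 0), (nat_lit 0), (nat_lit 6), (nat_lit 0), [], [⟨(nat_lit 1), (nat_lit 78), (nat_lit 76), (nat_lit 100), (nat_lit 125738109)⟩], [], [⟨(nat_lit 0), (nat_lit 91), (nat_lit 100), (nat_lit 27), (nat_lit 371793197)⟩],
 ⟨⟨[(nat_lit 40), (nat_lit 60), (nat_lit 80)], [(nat_lit 0), (nat_lit 197), (nat_lit 800)], [((nat_lit 0), (nat_lit 0), (nat_lit 0)), ((nat_lit 1000), (nat_lit 908), (nat_lit 154)), ((nat_lit 1000), (nat_lit 781), (nat_lit 471))], ((nat_lit 78), (nat_lit 100), (nat_lit 49))⟩, (nat_lit 2759942), (nat_lit 95), (nat_lit 95), (nat_lit 0), (nat_lit 98134), [(nat_lit 2032000024), (nat_lit 3282000013), (nat_lit 4688000000)], [], [(nat_lit 21018696927), (nat_lit 21358225463), (nat_lit 22390582935), (nat_lit 22692148523), (nat_lit 25825164642),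 (nat_lit 26102753332), (nat_lit 26669401502), (nat_lit 26924624849)], (nat_lit 1271251), (nat_lit 1271251), (nat_lit 780000), (nat_lit 1435001), (nat_lit 1271251), (nat_lit 1271251), [(nat_lit 490000), (nat_lit 780000), (nat_lit 1100000)], [(nat_lit 2), (nat_lit 44), (nat_lit 260), (nat_lit 50), (nat_lit 10)]⟩,
 ⟨⟨[(nat_lit 80), (nat_lit 120), (nat_lit 140)], [(nat_lit 0), (nat_lit 0), (nat_lit 1164)], [((nat_lit 0), (nat_lit 0), (nat_lit 0)), ((nat_lit 0), (nat_lit 0), (nat_lit 0)), ((nat_lit 941), (nat_lit 1000), (nat_lit 576))], ((nat_lit 100), (nat_lit 98), (nat_lit 48))⟩, (nat_lit 1431677), (nat_lit 343), (nat_lit 343), (nat_lit 0), (nat_lit 306236), [(nat_lit 4688000000), (nat_lit 7968000000), (nat_lit 9842000000)], [], [(nat_lit 36239506520), (nat_lit 33075253736), (nat_lit 36837571780), (nat_lit 33734424098), (nat_lit 33945209906), (nat_lit 29157026524), (nat_lit 42208678888), (nat_lit 35320159849)], (nat_lit 1271251), (nat_lit 1271251),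 (nat_lit 780000), (nat_lit 1435001), (nat_lit 0), (nat_lit 780000), [(nat_lit 1100000), (nat_lit 1785001), (nat_lit 1271251)], [(nat_lit 17), (nat_lit 58), (nat_lit 373), (nat_lit 150), (nat_lit 11)]⟩,
 ⟨⟨[(nat_lit 120), (nat_lit 160), (nat_lit 180)], [(nat_lit 0), (nat_lit 0), (nat_lit 1613)], [((nat_lit 0), (nat_lit 0), (nat_lit 0)), ((nat_lit 0), (nat_lit 0), (nat_lit 0)), ((nat_lit 620), (nat_lit 1000), (nat_lit 670))], ((nat_lit 100), (nat_lit 78), (nat_lit 48))⟩, (nat_lit 125777), (nat_lit 300), (nat_lit 703), (nat_lit 21443800), (nat_lit 760257), [(nat_lit 2302752000), (nat_lit 3431008000), (nat_lit 4062762000)], [], [(nat_lit 15726199148), (nat_lit 15588413982), (nat_lit 15958389117), (nat_lit 15853073331), (nat_lit 12793357878), (nat_lit 12657347256), (nat_lit 12956332702), (nat_lit 12786762320)], (nat_lit 1100000), (nat_lit 1271251), (nat_lit 1271251), (nat_lit 1271251), (nat_lit 0), (nat_lit 780000), [(nat_lit 1695001), (nat_lit 1271251),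 (nat_lit 1271251)], [(nat_lit 28), (nat_lit 65), (nat_lit 401), (nat_lit 175), (nat_lit 9)]⟩⟩) (.leaf ⟨(nat_lit 512), (nat_lit 335), (nat_lit 0), (nat_lit 153), (nat_lit 0), (nat_lit 3458), (nat_lit 3690), (nat_lit 1970), (nat_lit 0), (nat_lit 0), (nat_lit 146000), [((nat_lit 340), [((nat_lit 18), (nat_lit 0), (nat_lit 392)), ((nat_lit 18), (nat_lit 1), (nat_lit 120))])], ⟨(nat_lit 6), false, false, false, (nat_lit 200), (nat_lit 3872), (nat_lit 4032), [(nat_lit 1412666), (nat_lit 1414539), (nat_lit 1456116), (nat_lit 1458122), (nat_lit 1543449), (nat_lit 1543583), (nat_lit 1586900), (nat_lit 1587168)]⟩, ⟨(nat_lit 6), false, false, true, (nat_lit 245), (nat_lit 3872), (nat_lit 4032), [(nat_lit 1521937), (nat_lit 1520934), (nat_lit 1543663), (nat_lit 1542727), (nat_lit 1685414), (nat_lit 1682237), (nat_lit 1707140), (nat_lit 1704031)]⟩, (nat_lit 5189349), (nat_lit 39145100), (nat_lit 11668888), (nat_lit 16186012), (nat_lit 6), (nat_lit 0), [], [⟨(nat_lit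 1), (nat_lit 80), (nat_lit 73), (nat_lit 100), (nat_lit 172011381)⟩], [], [⟨(nat_lit 0), (nat_lit 91), (nat_lit 100), (nat_lit 27), (nat_lit 193648942)⟩],
 ⟨⟨[(nat_lit 40), (nat_lit 60), (nat_lit 80)], [(nat_lit 0), (nat_lit 297), (nat_lit 895)], [((nat_lit 0), (nat_lit 0), (nat_lit 0)), ((nat_lit 1000), (nat_lit 861), (nat_lit 231)), ((nat_lit 1000), (nat_lit 767), (nat_lit 466))], ((nat_lit 76), (nat_lit 100), (nat_lit 49))⟩, (nat_lit 2068925), (nat_lit 100), (nat_lit 100), (nat_lit 0), (nat_lit 110250), [(nat_lit 1656419288), (nat_lit 2494208209), (nat_lit 3363488000)], [(nat_lit 0), (nat_lit 0), (nat_lit 0)], [(nat_lit 20968934016), (nat_lit 21279302892), (nat_lit 22384297776), (nat_lit 22661344644), (nat_lit 25395328291), (nat_lit 25646042656), (nat_lit 26383661398), (nat_lit 26620260265)], (nat_lit 1271251), (nat_lit 1271251), (nat_lit 780000), (nat_lit 1435001), (nat_lit 1271251), (nat_lit 1271251), [(nat_lit 490000), (nat_lit 780000), (nat_lit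 1100000)], [(nat_lit 2), (nat_lit 44), (nat_lit 260), (nat_lit 50), (nat_lit 10)]⟩,
 ⟨⟨[(nat_lit 80), (nat_lit 120), (nat_lit 140)], [(nat_lit 0), (nat_lit 0), (nat_lit 1164)], [((nat_lit 0), (nat_lit 0), (nat_lit 0)), ((nat_lit 0), (nat_lit 0), (nat_lit 0)), ((nat_lit 941), (nat_lit 1000), (nat_lit 576))], ((nat_lit 100), (nat_lit 98), (nat_lit 48))⟩, (nat_lit 1460111), (nat_lit 363), (nat_lit 363), (nat_lit 0), (nat_lit 351418), [(nat_lit 2287744000), (nat_lit 3888384000), (nat_lit 4802896000)], [], [(nat_lit 17686609720), (nat_lit 15247909984), (nat_lit 17974150676), (nat_lit 15572675170), (nat_lit 16561039834), (nat_lit 13332972116), (nat_lit 20596338056), (nat_lit 17231414141)], (nat_lit 1271251), (nat_lit 1271251), (nat_lit 780000), (nat_lit 1435001), (nat_lit 0), (nat_lit 780000), [(nat_lit 1100000), (nat_lit 1785001), (nat_lit 1271251)], [(nat_lit 17), (nat_lit 58), (nat_lit 373), (nat_lit 150), (nat_lit 11)]⟩,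
 ⟨⟨[(nat_lit 120), (nat_lit 160), (nat_lit 180)], [(nat_lit 0), (nat_lit 0), (nat_lit 1613)], [((nat_lit 0), (nat_lit 0), (nat_lit 0)), ((nat_lit 0), (nat_lit 0), (nat_lit 0)), ((nat_lit 620), (nat_lit 1000), (nat_lit 670))], ((nat_lit 100), (nat_lit 78), (nat_lit 48))⟩, (nat_lit 66588), (nat_lit 300), (nat_lit 768), (nat_lit 11352600), (nat_lit 880002), [(nat_lit 1219104000), (nat_lit 1816416000), (nat_lit 2150874000)], [], [(nat_lit 8363532792), (nat_lit 8292119181), (nat_lit 8488581098), (nat_lit 8398040216), (nat_lit 6846245704), (nat_lit 6762115621), (nat_lit 6921326546), (nat_lit 6833233750)], (nat_lit 1100000), (nat_lit 1271251), (nat_lit 1271251), (nat_lit 1271251), (nat_lit 0), (nat_lit 780000), [(nat_lit 1695001), (nat_lit 1271251), (nat_lit 1271251)], [(nat_lit 28), (nat_lit 65), (nat_lit 401), (nat_lit 175), (nat_lit 9)]⟩⟩))) (.leaf ⟨(nat_lit 879), (nat_lit 55), (nat_lit 0), (nat_lit 66), (nat_lit 0), (nat_lit 3349), (nat_lit 744), (nat_lit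 732), (nat_lit 0), (nat_lit 0), (nat_lit 329400), [((nat_lit 340), [((nat_lit 18), (nat_lit 0), (nat_lit 148)), ((nat_lit 18), (nat_lit 1), (nat_lit 731))])], ⟨(nat_lit 6), false, false, false, (nat_lit 200), (nat_lit 3872), (nat_lit 4184), [(nat_lit 1410806), (nat_lit 1414527), (nat_lit 1454130), (nat_lit 1458104), (nat_lit 1543323), (nat_lit 1543576), (nat_lit 1586647), (nat_lit 1587153)]⟩, ⟨(nat_lit 6), false, false, true, (nat_lit 246), (nat_lit 3872), (nat_lit 4184), [(nat_lit 1522921), (nat_lit 1520934), (nat_lit 1544587), (nat_lit 1542727), (nat_lit 1688560), (nat_lit 1682237), (nat_lit 1710226), (nat_lit 1704031)]⟩, (nat_lit 5189814), (nat_lit 39129031), (nat_lit 11645876), (nat_lit 16225093), (nat_lit 6), (nat_lit 0), [], [⟨(nat_lit 1), (nat_lit 79), (nat_lit 75), (nat_lit 100), (nat_lit 205290146)⟩], [], [],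
 ⟨⟨[(nat_lit 40), (nat_lit 60), (nat_lit 80)], [(nat_lit 0), (nat_lit 197), (nat_lit 800)], [((nat_lit 0), (nat_lit 0), (nat_lit 0)), ((nat_lit 1000), (nat_lit 908), (nat_lit 154)), ((nat_lit 1000), (nat_lit 781), (nat_lit 471))], ((nat_lit 78), (nat_lit 100), (nat_lit 49))⟩, (nat_lit 980391), (nat_lit 114), (nat_lit 114), (nat_lit 0), (nat_lit 169692), [(nat_lit 1426282003), (nat_lit 1887732402), (nat_lit 2289917798)], [(nat_lit 0), (nat_lit 0), (nat_lit 0)], [(nat_lit 20600241296), (nat_lit 21206835218), (nat_lit 22123787967), (nat_lit 22665875805), (nat_lit 25030064617), (nat_lit 25521871935), (nat_lit 26082877246), (nat_lit 26525609756)], (nat_lit 1271251), (nat_lit 1271251), (nat_lit 780000), (nat_lit 1435001), (nat_lit 1271251), (nat_lit 1271251), [(nat_lit 490000), (nat_lit 780000), (nat_lit 1100000)], [(nat_lit 2), (nat_lit 44), (nat_lit 260), (nat_lit 50), (nat_lit 10)]⟩,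
 ⟨⟨[(nat_lit 80), (nat_lit 120), (nat_lit 140)], [(nat_lit 0), (nat_lit 0), (nat_lit 1164)], [((nat_lit 0), (nat_lit 0), (nat_lit 0)), ((nat_lit 0), (nat_lit 0), (nat_lit 0)), ((nat_lit 941), (nat_lit 1000), (nat_lit 576))], ((nat_lit 100), (nat_lit 98), (nat_lit 48))⟩, (nat_lit 357835), (nat_lit 356), (nat_lit 356), (nat_lit 0), (nat_lit 543144), [(nat_lit 567248000), (nat_lit 964128000), (nat_lit 1190882000)], [], [(nat_lit 4530118272), (nat_lit 3748921248), (nat_lit 3652123122), (nat_lit 3849816637), (nat_lit 5782198924), (nat_lit 5112626452), (nat_lit 6709357440), (nat_lit 6056622432)], (nat_lit 1271251), (nat_lit 1271251), (nat_lit 780000), (nat_lit 1435001), (nat_lit 780000), (nat_lit 3072501), [(nat_lit 1100000), (nat_lit 1785001), (nat_lit 1271251)], [(nat_lit 17), (nat_lit 58), (nat_lit 456), (nat_lit 225), (nat_lit 13)]⟩,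
 ⟨⟨[(nat_lit 120), (nat_lit 160), (nat_lit 180)], [(nat_lit 0), (nat_lit 0), (nat_lit 1613)], [((nat_lit 0), (nat_lit 0), (nat_lit 0)), ((nat_lit 0), (nat_lit 0), (nat_lit 0)), ((nat_lit 620), (nat_lit 1000), (nat_lit 670))], ((nat_lit 100), (nat_lit 78), (nat_lit 48))⟩, (nat_lit 28724), (nat_lit 300), (nat_lit 906), (nat_lit 4897202), (nat_lit 1372140), [(nat_lit 525888000), (nat_lit 783552000), (nat_lit 927828000)], [], [(nat_lit 3480504240), (nat_lit 3441347064), (nat_lit 3385809396), (nat_lit 3344053037), (nat_lit 3100701144), (nat_lit 3063194286), (nat_lit 3050160252), (nat_lit 3015858675)], (nat_lit 1100000), (nat_lit 1271251), (nat_lit 1271251), (nat_lit 1271251), (nat_lit 780000), (nat_lit 3072501), [(nat_lit 1695001), (nat_lit 1271251), (nat_lit 1271251)], [(nat_lit 28), (nat_lit 65), (nat_lit 483), (nat_lit 250), (nat_lit 11)]⟩⟩)) (.leaf ⟨(nat_lit 696), (nat_lit 186), (nat_lit 0), (nat_lit 118), (nat_lit 0), (nat_lit 3227), (nat_lit 3172),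 (nat_lit 1354), (nat_lit 0), (nat_lit 0), (nat_lit 263250), [((nat_lit 340), [((nat_lit 18), (nat_lit 0), (nat_lit 273)), ((nat_lit 18), (nat_lit 1), (nat_lit 294)), ((nat_lit 37), (nat_lit 2), (nat_lit 129))])], ⟨(nat_lit 6), false, true, false, (nat_lit 252), (nat_lit 3872), (nat_lit 4184), [(nat_lit 1543323), (nat_lit 1543576), (nat_lit 1586647), (nat_lit 1587153), (nat_lit 1675840), (nat_lit 1672625), (nat_lit 1719164), (nat_lit 1716202)]⟩, ⟨(nat_lit 6), false, false, true, (nat_lit 246), (nat_lit 3872), (nat_lit 4184), [(nat_lit 1522921), (nat_lit 1520934), (nat_lit 1544587), (nat_lit 1542727), (nat_lit 1688560), (nat_lit 1682237), (nat_lit 1710226), (nat_lit 1704031)]⟩, (nat_lit 5478502), (nat_lit 35899578), (nat_lit 15875196), (nat_lit 15225226), (nat_lit 6), (nat_lit 0), [], [⟨(nat_lit 1), (nat_lit 79), (nat_lit 75), (nat_lit 100), (nat_lit 199864184)⟩], [], [],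
 ⟨⟨[(nat_lit 40), (nat_lit 60), (nat_lit 80)], [(nat_lit 0), (nat_lit 197), (nat_lit 800)], [((nat_lit 0), (nat_lit 0), (nat_lit 0)), ((nat_lit 1000), (nat_lit 908), (nat_lit 154)), ((nat_lit 1000), (nat_lit 781), (nat_lit 471))], ((nat_lit 78), (nat_lit 100), (nat_lit 49))⟩, (nat_lit 3521704), (nat_lit 100), (nat_lit 100), (nat_lit 0), (nat_lit 169692), [(nat_lit 1536742896), (nat_lit 2185286768), (nat_lit 2769331632)], [(nat_lit 0), (nat_lit 0), (nat_lit 0)], [(nat_lit 21753378278), (nat_lit 22319714531), (nat_lit 24312427678), (nat_lit 24803642939), (nat_lit 25877456563), (nat_lit 26338183993), (nat_lit 27986820662), (nat_lit 28446217074)], (nat_lit 1271251), (nat_lit 1271251), (nat_lit 1271251), (nat_lit 1271251), (nat_lit 1271251), (nat_lit 1271251), [(nat_lit 490000), (nat_lit 780000), (nat_lit 1100000)], [(nat_lit 2), (nat_lit 44), (nat_lit 203), (nat_lit 0), (nat_lit 7)]⟩,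
 ⟨⟨[(nat_lit 80), (nat_lit 120), (nat_lit 140)], [(nat_lit 0), (nat_lit 0), (nat_lit 1164)], [((nat_lit 0), (nat_lit 0), (nat_lit 0)), ((nat_lit 0), (nat_lit 0), (nat_lit 0)), ((nat_lit 941), (nat_lit 1000), (nat_lit 576))], ((nat_lit 100), (nat_lit 98), (nat_lit 48))⟩, (nat_lit 881612), (nat_lit 445), (nat_lit 445), (nat_lit 0), (nat_lit 543144), [(nat_lit 1425152000), (nat_lit 2422272000), (nat_lit 2991968000)], [], [(nat_lit 10435049520), (nat_lit 9327101932), (nat_lit 9507836120), (nat_lit 9969712020), (nat_lit 13269637656), (nat_lit 10629395428), (nat_lit 10739589352), (nat_lit 11253499892)], (nat_lit 1271251), (nat_lit 1271251), (nat_lit 1271251), (nat_lit 1271251), (nat_lit 0), (nat_lit 2825001), [(nat_lit 1100000), (nat_lit 1785001), (nat_lit 1271251)], [(nat_lit 17), (nat_lit 58), (nat_lit 483), (nat_lit 250), (nat_lit 14)]⟩,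
 ⟨⟨[(nat_lit 120), (nat_lit 160), (nat_lit 180)], [(nat_lit 0), (nat_lit 0), (nat_lit 1613)], [((nat_lit 0), (nat_lit 0), (nat_lit 0)), ((nat_lit 0), (nat_lit 0), (nat_lit 0)), ((nat_lit 620), (nat_lit 1000), (nat_lit 670))], ((nat_lit 100), (nat_lit 78), (nat_lit 48))⟩, (nat_lit 51355), (nat_lit 300), (nat_lit 988), (nat_lit 8755603), (nat_lit 1372140), [(nat_lit 940224000), (nat_lit 1400896000), (nat_lit 1658844000)], [], [(nat_lit 6900969552), (nat_lit 6836829704), (nat_lit 6833782762), (nat_lit 6761527039), (nat_lit 6298925448), (nat_lit 6720754050), (nat_lit 5380051028), (nat_lit 5315309746)], (nat_lit 1100000), (nat_lit 1271251), (nat_lit 1271251), (nat_lit 1271251), (nat_lit 0), (nat_lit 2825001), [(nat_lit 1695001), (nat_lit 1271251), (nat_lit 1271251)], [(nat_lit 28), (nat_lit 65), (nat_lit 483), (nat_lit 250), (nat_lit 11)]⟩⟩)) (.trX (nat_lit 5) (nat_lit 1) (nat_lit 2) (nat_lit 92) (nat_lit 49) (nat_lit 100) (nat_lit 380) (.spl (nat_lit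 5) (nat_lit 120) (.leaf ⟨(nat_lit 0), (nat_lit 814), (nat_lit 0), (nat_lit 186), (nat_lit 0), (nat_lit 3971), (nat_lit 6770), (nat_lit 2211), (nat_lit 0), (nat_lit 0), (nat_lit 0), [], Pd.none, Pd.none, (nat_lit 0), (nat_lit 1), (nat_lit 0), (nat_lit 0), (nat_lit 6), (nat_lit 0), [⟨(nat_lit 0), (nat_lit 91), (nat_lit 77), (nat_lit 100), (nat_lit 217563843)⟩], [⟨(nat_lit 1), (nat_lit 79), (nat_lit 75), (nat_lit 100), (nat_lit 380151897)⟩], [], [],
 ⟨⟨[(nat_lit 40), (nat_lit 60), (nat_lit 80)], [(nat_lit 0), (nat_lit 197), (nat_lit 800)], [((nat_lit 0), (nat_lit 0), (nat_lit 0)), ((nat_lit 1000), (nat_lit 908), (nat_lit 154)), ((nat_lit 1000), (nat_lit 781), (nat_lit 471))], ((nat_lit 78), (nat_lit 100), (nat_lit 49))⟩, (nat_lit 6062573), (nat_lit 131), (nat_lit 131), (nat_lit 0), (nat_lit 240088), [(nat_lit 2032000002), (nat_lit 3282000001), (nat_lit 4688000000)], [], [(nat_lit 21214447540), (nat_lit 21842974258), (nat_lit 25045221431), (nat_lit 25529208737),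 (nat_lit 25725743914), (nat_lit 26231892309), (nat_lit 28630094408), (nat_lit 29127706566)], (nat_lit 1271251), (nat_lit 1271251), (nat_lit 780000), (nat_lit 2090001), (nat_lit 1271251), (nat_lit 1271251), [(nat_lit 490000), (nat_lit 780000), (nat_lit 1100000)], [(nat_lit 2), (nat_lit 44), (nat_lit 289), (nat_lit 75), (nat_lit 12)]⟩,
 ⟨⟨[(nat_lit 60), (nat_lit 100), (nat_lit 120)], [(nat_lit 0), (nat_lit 0), (nat_lit 1164)], [((nat_lit 0), (nat_lit 0), (nat_lit 0)), ((nat_lit 0), (nat_lit 0), (nat_lit 0)), ((nat_lit 1000), (nat_lit 933), (nat_lit 572))], ((nat_lit 92), (nat_lit 100), (nat_lit 48))⟩, (nat_lit 2580137), (nat_lit 428), (nat_lit 428), (nat_lit 0), (nat_lit 611956), [(nat_lit 3282000000), (nat_lit 6250000000), (nat_lit 7968000000)], [], [(nat_lit 28711767412), (nat_lit 30966146540), (nat_lit 32968801020), (nat_lit 34242616540), (nat_lit 26126678665), (nat_lit 28048592420), (nat_lit 38606262755), (nat_lit 32512453740)], (nat_lit 1271251),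 (nat_lit 1271251), (nat_lit 780000), (nat_lit 2090001), (nat_lit 0), (nat_lit 780000), [(nat_lit 780000), (nat_lit 1435001), (nat_lit 1271251)], [(nat_lit 10), (nat_lit 54), (nat_lit 317), (nat_lit 100), (nat_lit 10)]⟩,
 ⟨⟨[(nat_lit 120), (nat_lit 160), (nat_lit 180)], [(nat_lit 0), (nat_lit 0), (nat_lit 1613)], [((nat_lit 0), (nat_lit 0), (nat_lit 0)), ((nat_lit 0), (nat_lit 0), (nat_lit 0)), ((nat_lit 620), (nat_lit 1000), (nat_lit 670))], ((nat_lit 100), (nat_lit 78), (nat_lit 48))⟩, (nat_lit 80950), (nat_lit 300), (nat_lit 1246), (nat_lit 13801200), (nat_lit 1947097), [(nat_lit 1482048000), (nat_lit 2208192000), (nat_lit 2614788000)], [], [(nat_lit 10642553496), (nat_lit 10535835306), (nat_lit 10622411805), (nat_lit 10525440685), (nat_lit 9041011218), (nat_lit 8936247669), (nat_lit 8899273809), (nat_lit 8789805725)], (nat_lit 1100000), (nat_lit 1271251), (nat_lit 1271251), (nat_lit 1271251), (nat_lit 0), (nat_lit 780000), [(nat_lit 1695001),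 (nat_lit 1271251), (nat_lit 1271251)], [(nat_lit 28), (nat_lit 65), (nat_lit 401), (nat_lit 175), (nat_lit 9)]⟩⟩) (.spl (nat_lit 0) (nat_lit 335) (.leaf ⟨(nat_lit 0), (nat_lit 589), (nat_lit 0), (nat_lit 411), (nat_lit 0), (nat_lit 3965), (nat_lit 7669), (nat_lit 4310), (nat_lit 0), (nat_lit 0), (nat_lit 0), [], Pd.none, Pd.none, (nat_lit 0), (nat_lit 1), (nat_lit 0), (nat_lit 0), (nat_lit 6), (nat_lit 0), [⟨(nat_lit 0), (nat_lit 81), (nat_lit 75), (nat_lit 100), (nat_lit 216974394)⟩], [⟨(nat_lit 1), (nat_lit 78), (nat_lit 76), (nat_lit 100), (nat_lit 152199784)⟩], [⟨(nat_lit 1), (nat_lit 63), (nat_lit 88), (nat_lit 100), (nat_lit 3145396)⟩], [],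
 ⟨⟨[(nat_lit 40), (nat_lit 60), (nat_lit 80)], [(nat_lit 0), (nat_lit 197), (nat_lit 800)], [((nat_lit 0), (nat_lit 0), (nat_lit 0)), ((nat_lit 1000), (nat_lit 908), (nat_lit 154)), ((nat_lit 1000), (nat_lit 781), (nat_lit 471))], ((nat_lit 78), (nat_lit 100), (nat_lit 49))⟩, (nat_lit 11326840), (nat_lit 128), (nat_lit 128), (nat_lit 0), (nat_lit 232610), [(nat_lit 2032000004), (nat_lit 3411363660), (nat_lit 4688000000)], [], [(nat_lit 20686024927), (nat_lit 21031275585), (nat_lit 24886946081), (nat_lit 25151286591), (nat_lit 25626015234), (nat_lit 25902181214), (nat_lit 28627913903), (nat_lit 28873558700)], (nat_lit 1271251), (nat_lit 1271251), (nat_lit 780000), (nat_lit 2090001), (nat_lit 1271251), (nat_lit 1271251), [(nat_lit 490000), (nat_lit 780000), (nat_lit 1100000)], [(nat_lit 2), (nat_lit 44), (nat_lit 289), (nat_lit 75), (nat_lit 12)]⟩,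
 ⟨⟨[(nat_lit 60), (nat_lit 100), (nat_lit 120)], [(nat_lit 0), (nat_lit 0), (nat_lit 1164)], [((nat_lit 0), (nat_lit 0), (nat_lit 0)), ((nat_lit 0), (nat_lit 0), (nat_lit 0)), ((nat_lit 1000), (nat_lit 933), (nat_lit 572))], ((nat_lit 92), (nat_lit 100), (nat_lit 48))⟩, (nat_lit 2558384), (nat_lit 319), (nat_lit 319), (nat_lit 0), (nat_lit 578102), [(nat_lit 3282000000), (nat_lit 6250000000), (nat_lit 7968000000)], [], [(nat_lit 30324204383), (nat_lit 25486018839), (nat_lit 26640734578), (nat_lit 28264963572), (nat_lit 31458885397), (nat_lit 32578849049), (nat_lit 45292976945), (nat_lit 38521328552)], (nat_lit 1271251), (nat_lit 1271251), (nat_lit 780000), (nat_lit 2090001), (nat_lit 780000), (nat_lit 2908751), [(nat_lit 780000), (nat_lit 1435001), (nat_lit 1271251)], [(nat_lit 10), (nat_lit 54), (nat_lit 401), (nat_lit 175), (nat_lit 13)]⟩,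
 ⟨⟨[(nat_lit 120), (nat_lit 160), (nat_lit 180)], [(nat_lit 0), (nat_lit 0), (nat_lit 1613)], [((nat_lit 0), (nat_lit 0), (nat_lit 0)), ((nat_lit 0), (nat_lit 0), (nat_lit 0)), ((nat_lit 620), (nat_lit 1000), (nat_lit 670))], ((nat_lit 100), (nat_lit 78), (nat_lit 48))⟩, (nat_lit 1010386), (nat_lit 300), (nat_lit 1117), (nat_lit 30496200), (nat_lit 1833945), [(nat_lit 3274848000), (nat_lit 4879392000), (nat_lit 5777838000)], [], [(nat_lit 23494802048), (nat_lit 23250623162), (nat_lit 22762287225), (nat_lit 22507980018), (nat_lit 20840738754), (nat_lit 20579197442), (nat_lit 19960645704), (nat_lit 19697842170)], (nat_lit 1100000), (nat_lit 1271251), (nat_lit 1271251), (nat_lit 1271251), (nat_lit 780000), (nat_lit 2908751), [(nat_lit 1695001), (nat_lit 1271251), (nat_lit 1271251)], [(nat_lit 28), (nat_lit 65), (nat_lit 456), (nat_lit 225), (nat_lit 10)]⟩⟩) (.leaf ⟨(nat_lit 0), (nat_lit 714), (nat_lit 0), (nat_lit 286), (nat_lit 0), (nat_lit 3946),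 (nat_lit 7669), (nat_lit 3012), (nat_lit 0), (nat_lit 0), (nat_lit 0), [], Pd.none, Pd.none, (nat_lit 0), (nat_lit 1), (nat_lit 0), (nat_lit 0), (nat_lit 6), (nat_lit 0), [⟨(nat_lit 0), (nat_lit 90), (nat_lit 76), (nat_lit 100), (nat_lit 75109625)⟩], [⟨(nat_lit 1), (nat_lit 80), (nat_lit 73), (nat_lit 100), (nat_lit 294359355)⟩], [⟨(nat_lit 1), (nat_lit 63), (nat_lit 88), (nat_lit 100), (nat_lit 78426816)⟩], [⟨(nat_lit 2), (nat_lit 45), (nat_lit 89), (nat_lit 100), (nat_lit 4932822)⟩],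
 ⟨⟨[(nat_lit 40), (nat_lit 60), (nat_lit 80)], [(nat_lit 0), (nat_lit 297), (nat_lit 895)], [((nat_lit 0), (nat_lit 0), (nat_lit 0)), ((nat_lit 1000), (nat_lit 861), (nat_lit 231)), ((nat_lit 1000), (nat_lit 767), (nat_lit 466))], ((nat_lit 76), (nat_lit 100), (nat_lit 49))⟩, (nat_lit 7133052), (nat_lit 131), (nat_lit 131), (nat_lit 0), (nat_lit 239788), [(nat_lit 2032000010), (nat_lit 3466314526), (nat_lit 4688000000)], [], [(nat_lit 21065841324), (nat_lit 21410237542), (nat_lit 25184743412), (nat_lit 25448514265), (nat_lit 25927343805), (nat_lit 26203232272), (nat_lit 28870450778), (nat_lit 29104807053)], (nat_lit 1271251), (nat_lit 1271251), (nat_lit 780000), (nat_lit 2090001), (nat_lit 1271251), (nat_lit 1271251), [(nat_lit 490000), (nat_lit 780000), (nat_lit 1100000)], [(nat_lit 2), (nat_lit 44), (nat_lit 289), (nat_lit 75), (nat_lit 12)]⟩,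
 ⟨⟨[(nat_lit 60), (nat_lit 100), (nat_lit 120)], [(nat_lit 0), (nat_lit 0), (nat_lit 1164)], [((nat_lit 0), (nat_lit 0), (nat_lit 0)), ((nat_lit 0), (nat_lit 0), (nat_lit 0)), ((nat_lit 1000), (nat_lit 933), (nat_lit 572))], ((nat_lit 92), (nat_lit 100), (nat_lit 48))⟩, (nat_lit 2859129), (nat_lit 330), (nat_lit 330), (nat_lit 0), (nat_lit 611624), [(nat_lit 3282000000), (nat_lit 6250000000), (nat_lit 7968000000)], [], [(nat_lit 30324204383), (nat_lit 25486018839), (nat_lit 26640734578), (nat_lit 28264963572), (nat_lit 31458885397), (nat_lit 32578849049), (nat_lit 45292976945), (nat_lit 38521328552)], (nat_lit 1271251), (nat_lit 1271251), (nat_lit 780000), (nat_lit 2090001), (nat_lit 780000), (nat_lit 2908751), [(nat_lit 780000), (nat_lit 1435001), (nat_lit 1271251)], [(nat_lit 10), (nat_lit 54), (nat_lit 401), (nat_lit 175), (nat_lit 13)]⟩,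
 ⟨⟨[(nat_lit 120), (nat_lit 160), (nat_lit 180)], [(nat_lit 0), (nat_lit 0), (nat_lit 1613)], [((nat_lit 0), (nat_lit 0), (nat_lit 0)), ((nat_lit 0), (nat_lit 0), (nat_lit 0)), ((nat_lit 620), (nat_lit 1000), (nat_lit 670))], ((nat_lit 100), (nat_lit 78), (nat_lit 48))⟩, (nat_lit 749110), (nat_lit 300), (nat_lit 1167), (nat_lit 21221200), (nat_lit 1947097), [(nat_lit 2278848000), (nat_lit 3395392000), (nat_lit 4020588000)], [], [(nat_lit 16259340848), (nat_lit 16088422939), (nat_lit 15745929533), (nat_lit 15567943136), (nat_lit 14400933460), (nat_lit 14217904044), (nat_lit 13805363312), (nat_lit 13629656318)], (nat_lit 1100000), (nat_lit 1271251), (nat_lit 1271251), (nat_lit 1271251), (nat_lit 780000), (nat_lit 2908751), [(nat_lit 1695001), (nat_lit 1271251), (nat_lit 1271251)], [(nat_lit 28), (nat_lit 65), (nat_lit 456), (nat_lit 225), (nat_lit 10)]⟩⟩)))))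
noncomputable def c11_68 : Tr Lf :=
 (.stt (nat_lit 2) (.spl (nat_lit 5) (nat_lit 200) (.leaf ⟨(nat_lit 0), (nat_lit 856), (nat_lit 0), (nat_lit 144), (nat_lit 0), (nat_lit 4681), (nat_lit 7682), (nat_lit 1459), (nat_lit 0), (nat_lit 0), (nat_lit 0), [], Pd.none, Pd.none, (nat_lit 0), (nat_lit 1), (nat_lit 0), (nat_lit 0), (nat_lit 6), (nat_lit 0), [⟨(nat_lit 0), (nat_lit 100), (nat_lit 81), (nat_lit 100), (nat_lit 263497649)⟩, ⟨(nat_lit 0), (nat_lit 81), (nat_lit 72), (nat_lit 100), (nat_lit 34646654)⟩], [⟨(nat_lit 1), (nat_lit 67), (nat_lit 74), (nat_lit 100), (nat_lit 443135019)⟩], [⟨(nat_lit 0), (nat_lit 100), (nat_lit 92), (nat_lit 40), (nat_lit 54845557)⟩], [],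
 ⟨⟨[(nat_lit 40), (nat_lit 60), (nat_lit 80)], [(nat_lit 0), (nat_lit 197), (nat_lit 800)], [((nat_lit 0), (nat_lit 0), (nat_lit 0)), ((nat_lit 1000), (nat_lit 908), (nat_lit 154)), ((nat_lit 1000), (nat_lit 781), (nat_lit 471))], ((nat_lit 78), (nat_lit 100), (nat_lit 49))⟩, (nat_lit 2330454), (nat_lit 220), (nat_lit 220), (nat_lit 0), (nat_lit 495747), [(nat_lit 2032000145), (nat_lit 3282000062), (nat_lit 4688000000)], [], [(nat_lit 23005911540), (nat_lit 23582479496), (nat_lit 26238040029), (nat_lit 26681107897), (nat_lit 28512241053), (nat_lit 29155241402), (nat_lit 30889994832), (nat_lit 31380297177)], (nat_lit 1271251), (nat_lit 1271251), (nat_lit 780000), (nat_lit 2090001), (nat_lit 1271251), (nat_lit 1271251), [(nat_lit 490000), (nat_lit 780000), (nat_lit 1100000)], [(nat_lit 2), (nat_lit 44), (nat_lit 289), (nat_lit 75), (nat_lit 12)]⟩,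
 ⟨⟨[(nat_lit 80), (nat_lit 120), (nat_lit 140)], [(nat_lit 0), (nat_lit 0), (nat_lit 1164)], [((nat_lit 0), (nat_lit 0), (nat_lit 0)), ((nat_lit 0), (nat_lit 0), (nat_lit 0)), ((nat_lit 941), (nat_lit 1000), (nat_lit 576))], ((nat_lit 100), (nat_lit 98), (nat_lit 48))⟩, (nat_lit 4130251), (nat_lit 197), (nat_lit 197), (nat_lit 0), (nat_lit 0), [(nat_lit 4688000000), (nat_lit 7968000000), (nat_lit 9842000000)], [], [(nat_lit 20804602560), (nat_lit 28171667712), (nat_lit 27500848696), (nat_lit 33242462444), (nat_lit 18798068376), (nat_lit 24046556934), (nat_lit 23493049938), (nat_lit 27828967912)], (nat_lit 0), (nat_lit 0), (nat_lit 0), (nat_lit 0), (nat_lit 0), (nat_lit 0), [], [(nat_lit 17), (nat_lit 58), (nat_lit 428), (nat_lit 200), (nat_lit 12)]⟩,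
 ⟨⟨[(nat_lit 120), (nat_lit 140), (nat_lit 160)], [(nat_lit 0), (nat_lit 266), (nat_lit 862)], [((nat_lit 0), (nat_lit 0), (nat_lit 0)), ((nat_lit 960), (nat_lit 1000), (nat_lit 200)), ((nat_lit 874), (nat_lit 1000), (nat_lit 406))], ((nat_lit 100), (nat_lit 83), (nat_lit 48))⟩, (nat_lit 295579), (nat_lit 300), (nat_lit 1412), (nat_lit 9561600), (nat_lit 2467168), [(nat_lit 1147392000), (nat_lit 1417248000), (nat_lit 1709568000)], [], [(nat_lit 7260540574), (nat_lit 7124747015), (nat_lit 7203201668), (nat_lit 7086953898), (nat_lit 6061024105), (nat_lit 5906405598), (nat_lit 5871645725), (nat_lit 5737629654)], (nat_lit 1271251), (nat_lit 1271251), (nat_lit 1271251), (nat_lit 1271251), (nat_lit 0), (nat_lit 1412501), [(nat_lit 1695001), (nat_lit 1271251), (nat_lit 1271251)], [(nat_lit 27), (nat_lit 62), (nat_lit 452), (nat_lit 200), (nat_lit 11)]⟩⟩) (.spl (nat_lit 1) (nat_lit 280) (.leaf ⟨(nat_lit 0), (nat_lit 25), (nat_lit 0), (nat_lit 975), (nat_lit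 0), (nat_lit 4487), (nat_lit 12024), (nat_lit 8962), (nat_lit 0), (nat_lit 0), (nat_lit 0), [], Pd.none, Pd.none, (nat_lit 0), (nat_lit 1), (nat_lit 0), (nat_lit 0), (nat_lit 6), (nat_lit 0), [⟨(nat_lit 0), (nat_lit 99), (nat_lit 77), (nat_lit 100), (nat_lit 223328863)⟩], [], [], [],
 ⟨⟨[(nat_lit 40), (nat_lit 60), (nat_lit 80)], [(nat_lit 0), (nat_lit 197), (nat_lit 800)], [((nat_lit 0), (nat_lit 0), (nat_lit 0)), ((nat_lit 1000), (nat_lit 908), (nat_lit 154)), ((nat_lit 1000), (nat_lit 781), (nat_lit 471))], ((nat_lit 78), (nat_lit 100), (nat_lit 49))⟩, (nat_lit 24178451), (nat_lit 175), (nat_lit 175), (nat_lit 0), (nat_lit 325700), [(nat_lit 2032000040), (nat_lit 4023592594), (nat_lit 4688000000)], [], [(nat_lit 20255346372), (nat_lit 20944957043), (nat_lit 24583570739), (nat_lit 25247173723), (nat_lit 28258167450), (nat_lit 28887878023), (nat_lit 30690955367), (nat_lit 31172702384)], (nat_lit 1271251), (nat_lit 1271251), (nat_lit 780000), (nat_lit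 2090001), (nat_lit 1271251), (nat_lit 1271251), [(nat_lit 490000), (nat_lit 780000), (nat_lit 1100000)], [(nat_lit 2), (nat_lit 44), (nat_lit 289), (nat_lit 75), (nat_lit 12)]⟩,
 ⟨⟨[(nat_lit 80), (nat_lit 120), (nat_lit 140)], [(nat_lit 0), (nat_lit 0), (nat_lit 1164)], [((nat_lit 0), (nat_lit 0), (nat_lit 0)), ((nat_lit 0), (nat_lit 0), (nat_lit 0)), ((nat_lit 941), (nat_lit 1000), (nat_lit 576))], ((nat_lit 100), (nat_lit 98), (nat_lit 48))⟩, (nat_lit 1248618), (nat_lit 116), (nat_lit 116), (nat_lit 0), (nat_lit 0), [(nat_lit 4688000000), (nat_lit 7968000000), (nat_lit 9842000000)], [], [(nat_lit 12242193800), (nat_lit 16500902656), (nat_lit 18865985672), (nat_lit 21688622152), (nat_lit 35528639520), (nat_lit 38316924104), (nat_lit 36957909760), (nat_lit 38747777928)], (nat_lit 0), (nat_lit 0), (nat_lit 0), (nat_lit 0), (nat_lit 0), (nat_lit 0), [], [(nat_lit 17), (nat_lit 58), (nat_lit 483), (nat_lit 250), (nat_lit 13)]⟩,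
 ⟨⟨[(nat_lit 120), (nat_lit 140), (nat_lit 160)], [(nat_lit 0), (nat_lit 266), (nat_lit 862)], [((nat_lit 0), (nat_lit 0), (nat_lit 0)), ((nat_lit 960), (nat_lit 1000), (nat_lit 200)), ((nat_lit 874), (nat_lit 1000), (nat_lit 406))], ((nat_lit 100), (nat_lit 83), (nat_lit 48))⟩, (nat_lit 9069084), (nat_lit 300), (nat_lit 916), (nat_lit 64740000), (nat_lit 1654008), [(nat_lit 7768800000), (nat_lit 9595950000), (nat_lit 11575200000)], [], [(nat_lit 46027949753), (nat_lit 45265725955), (nat_lit 45236455802), (nat_lit 44375911754), (nat_lit 44315735583), (nat_lit 43450163595), (nat_lit 43211861878), (nat_lit 42259500200)], (nat_lit 1271251), (nat_lit 1271251), (nat_lit 1271251), (nat_lit 1271251), (nat_lit 1271251), (nat_lit 1271251), [(nat_lit 1695001), (nat_lit 1271251), (nat_lit 1271251)], [(nat_lit 27), (nat_lit 62), (nat_lit 483), (nat_lit 250), (nat_lit 12)]⟩⟩) (.leaf ⟨(nat_lit 0), (nat_lit 871), (nat_lit 0), (nat_lit 129), (nat_lit 0), (nat_lit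 4376), (nat_lit 6770), (nat_lit 1226), (nat_lit 0), (nat_lit 0), (nat_lit 0), [], Pd.none, Pd.none, (nat_lit 0), (nat_lit 1), (nat_lit 0), (nat_lit 0), (nat_lit 6), (nat_lit 0), [], [], [], [⟨(nat_lit 2), (nat_lit 52), (nat_lit 85), (nat_lit 100), (nat_lit 119000941)⟩, ⟨(nat_lit 2), (nat_lit 98), (nat_lit 97), (nat_lit 100), (nat_lit 276873935)⟩],
 ⟨⟨[(nat_lit 40), (nat_lit 60), (nat_lit 80)], [(nat_lit 0), (nat_lit 197), (nat_lit 800)], [((nat_lit 0), (nat_lit 0), (nat_lit 0)), ((nat_lit 1000), (nat_lit 908), (nat_lit 154)), ((nat_lit 1000), (nat_lit 781), (nat_lit 471))], ((nat_lit 78), (nat_lit 100), (nat_lit 49))⟩, (nat_lit 3679239), (nat_lit 220), (nat_lit 220), (nat_lit 0), (nat_lit 495637), [(nat_lit 2032000007), (nat_lit 3282000003), (nat_lit 4688000000)], [], [(nat_lit 22623140713), (nat_lit 23212328379), (nat_lit 26101398647), (nat_lit 26555334823), (nat_lit 28293650185), (nat_lit 28735357510), (nat_lit 30577071961), (nat_lit 31053923920)],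 (nat_lit 1271251), (nat_lit 1271251), (nat_lit 780000), (nat_lit 2090001), (nat_lit 1271251), (nat_lit 1271251), [(nat_lit 490000), (nat_lit 780000), (nat_lit 1100000)], [(nat_lit 2), (nat_lit 44), (nat_lit 289), (nat_lit 75), (nat_lit 12)]⟩,
 ⟨⟨[(nat_lit 60), (nat_lit 100), (nat_lit 120)], [(nat_lit 0), (nat_lit 0), (nat_lit 1164)], [((nat_lit 0), (nat_lit 0), (nat_lit 0)), ((nat_lit 0), (nat_lit 0), (nat_lit 0)), ((nat_lit 1000), (nat_lit 933), (nat_lit 572))], ((nat_lit 92), (nat_lit 100), (nat_lit 48))⟩, (nat_lit 2407899), (nat_lit 122), (nat_lit 122), (nat_lit 0), (nat_lit 0), [(nat_lit 3282000000), (nat_lit 6250000000), (nat_lit 7968000000)], [], [(nat_lit 18960940194), (nat_lit 21912748074), (nat_lit 23652776629), (nat_lit 25723846930), (nat_lit 31566568360), (nat_lit 33234818640), (nat_lit 33031441690), (nat_lit 34492898080)], (nat_lit 0), (nat_lit 0), (nat_lit 0), (nat_lit 0), (nat_lit 0), (nat_lit 0), [], [(nat_lit 10), (nat_lit 54), (nat_lit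 401), (nat_lit 175), (nat_lit 12)]⟩,
 ⟨⟨[(nat_lit 120), (nat_lit 140), (nat_lit 160)], [(nat_lit 0), (nat_lit 266), (nat_lit 862)], [((nat_lit 0), (nat_lit 0), (nat_lit 0)), ((nat_lit 960), (nat_lit 1000), (nat_lit 200)), ((nat_lit 874), (nat_lit 1000), (nat_lit 406))], ((nat_lit 100), (nat_lit 83), (nat_lit 48))⟩, (nat_lit 264789), (nat_lit 300), (nat_lit 1300), (nat_lit 8565601), (nat_lit 2461399), [(nat_lit 1027872000), (nat_lit 1269618000), (nat_lit 1531488000)], [], [(nat_lit 6217184779), (nat_lit 6088802111), (nat_lit 5956994020), (nat_lit 5822759642), (nat_lit 5775912038), (nat_lit 5639473698), (nat_lit 5479915076), (nat_lit 5368964884)], (nat_lit 1271251), (nat_lit 1271251), (nat_lit 1271251), (nat_lit 1271251), (nat_lit 1271251), (nat_lit 1271251), [(nat_lit 1695001), (nat_lit 1271251), (nat_lit 1271251)], [(nat_lit 27), (nat_lit 62), (nat_lit 483), (nat_lit 250), (nat_lit 12)]⟩⟩))) (.spl (nat_lit 1) (nat_lit 280) (.spl (nat_lit 3) (nat_lit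 200) (.spl (nat_lit 1) (nat_lit 260) (.leaf ⟨(nat_lit 731), (nat_lit 70), (nat_lit 0), (nat_lit 199), (nat_lit 0), (nat_lit 3208), (nat_lit 2440), (nat_lit 2078), (nat_lit 0), (nat_lit 0), (nat_lit 259400), [((nat_lit 340), [((nat_lit 18), (nat_lit 0), (nat_lit 220)), ((nat_lit 18), (nat_lit 1), (nat_lit 511))])], ⟨(nat_lit 6), false, false, false, (nat_lit 196), (nat_lit 3872), (nat_lit 4184), [(nat_lit 1410806), (nat_lit 1414527), (nat_lit 1432468), (nat_lit 1436316), (nat_lit 1543323), (nat_lit 1543576), (nat_lit 1564985), (nat_lit 1565364)]⟩, ⟨(nat_lit 6), false, true, true, (nat_lit 269), (nat_lit 3872), (nat_lit 4184), [(nat_lit 1544587), (nat_lit 1542727), (nat_lit 1587919), (nat_lit 1586312), (nat_lit 1759918), (nat_lit 1752422), (nat_lit 1803252), (nat_lit 1796008)]⟩, (nat_lit 5254656), (nat_lit 37742600), (nat_lit 10968313), (nat_lit 18289087), (nat_lit 6), (nat_lit 0), [], [⟨(nat_lit 1), (nat_lit 67), (nat_lit 74), (nat_lit 100), (nat_lit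 99239325)⟩], [], [⟨(nat_lit 0), (nat_lit 87), (nat_lit 100), (nat_lit 35), (nat_lit 481236)⟩],
 ⟨⟨[(nat_lit 40), (nat_lit 60), (nat_lit 80)], [(nat_lit 0), (nat_lit 197), (nat_lit 800)], [((nat_lit 0), (nat_lit 0), (nat_lit 0)), ((nat_lit 1000), (nat_lit 908), (nat_lit 154)), ((nat_lit 1000), (nat_lit 781), (nat_lit 471))], ((nat_lit 78), (nat_lit 100), (nat_lit 49))⟩, (nat_lit 3536536), (nat_lit 117), (nat_lit 117), (nat_lit 0), (nat_lit 136863), [(nat_lit 1517306539), (nat_lit 2130204404), (nat_lit 2712206596)], [(nat_lit 0), (nat_lit 0), (nat_lit 0)], [(nat_lit 20805602576), (nat_lit 21400329198), (nat_lit 22341937454), (nat_lit 22874039002), (nat_lit 26656200960), (nat_lit 27125209144), (nat_lit 27619467488), (nat_lit 28042641287)], (nat_lit 1271251), (nat_lit 1271251), (nat_lit 780000), (nat_lit 1435001), (nat_lit 1271251), (nat_lit 1271251), [(nat_lit 490000), (nat_lit 780000), (nat_lit 1100000)], [(nat_lit 2), (nat_lit 44), (nat_lit 260),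 (nat_lit 50), (nat_lit 10)]⟩,
 ⟨⟨[(nat_lit 80), (nat_lit 120), (nat_lit 140)], [(nat_lit 0), (nat_lit 0), (nat_lit 1164)], [((nat_lit 0), (nat_lit 0), (nat_lit 0)), ((nat_lit 0), (nat_lit 0), (nat_lit 0)), ((nat_lit 941), (nat_lit 1000), (nat_lit 576))], ((nat_lit 100), (nat_lit 98), (nat_lit 48))⟩, (nat_lit 857948), (nat_lit 443), (nat_lit 443), (nat_lit 0), (nat_lit 485318), [(nat_lit 1261072000), (nat_lit 2143392000), (nat_lit 2647498000)], [], [(nat_lit 9941961960), (nat_lit 8680397780), (nat_lit 9620285788), (nat_lit 8758550404), (nat_lit 15321351708), (nat_lit 14277204948), (nat_lit 18242355504), (nat_lit 17223102844)], (nat_lit 1271251), (nat_lit 1271251), (nat_lit 780000), (nat_lit 1435001), (nat_lit 0), (nat_lit 2825001), [(nat_lit 1100000), (nat_lit 1785001), (nat_lit 1271251)], [(nat_lit 17), (nat_lit 58), (nat_lit 456), (nat_lit 225), (nat_lit 13)]⟩,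
 ⟨⟨[(nat_lit 120), (nat_lit 140), (nat_lit 160)], [(nat_lit 0), (nat_lit 266), (nat_lit 862)], [((nat_lit 0), (nat_lit 0), (nat_lit 0)), ((nat_lit 960), (nat_lit 1000), (nat_lit 200)), ((nat_lit 874), (nat_lit 1000), (nat_lit 406))], ((nat_lit 100), (nat_lit 83), (nat_lit 48))⟩, (nat_lit 408474), (nat_lit 300), (nat_lit 688), (nat_lit 13213600), (nat_lit 882808), [(nat_lit 1585632000), (nat_lit 1958558000), (nat_lit 2362528000)], [], [(nat_lit 9526154737), (nat_lit 9406781419), (nat_lit 9757055055), (nat_lit 9626502279), (nat_lit 11192541730), (nat_lit 9392332926), (nat_lit 8213790423), (nat_lit 8174354952)], (nat_lit 1271251), (nat_lit 1271251), (nat_lit 1271251), (nat_lit 1271251), (nat_lit 0), (nat_lit 2825001), [(nat_lit 1695001), (nat_lit 1271251), (nat_lit 1271251)], [(nat_lit 27), (nat_lit 62), (nat_lit 483), (nat_lit 250), (nat_lit 12)]⟩⟩) (.leaf ⟨(nat_lit 0), (nat_lit 486), (nat_lit 0), (nat_lit 514), (nat_lit 0), (nat_lit 4215), (nat_lit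 4156), (nat_lit 5385), (nat_lit 0), (nat_lit 0), (nat_lit 0), [], Pd.none, Pd.none, (nat_lit 0), (nat_lit 1), (nat_lit 0), (nat_lit 0), (nat_lit 6), (nat_lit 0), [], [], [], [⟨(nat_lit 0), (nat_lit 87), (nat_lit 100), (nat_lit 35), (nat_lit 16180973)⟩],
 ⟨⟨[(nat_lit 40), (nat_lit 60), (nat_lit 80)], [(nat_lit 0), (nat_lit 197), (nat_lit 800)], [((nat_lit 0), (nat_lit 0), (nat_lit 0)), ((nat_lit 1000), (nat_lit 908), (nat_lit 154)), ((nat_lit 1000), (nat_lit 781), (nat_lit 471))], ((nat_lit 78), (nat_lit 100), (nat_lit 49))⟩, (nat_lit 3189297), (nat_lit 123), (nat_lit 123), (nat_lit 0), (nat_lit 160453), [(nat_lit 2032000002), (nat_lit 3282000001), (nat_lit 4688000000)], [], [(nat_lit 21852247574), (nat_lit 22464948434), (nat_lit 23191740855), (nat_lit 23767576324), (nat_lit 28032125294), (nat_lit 28513393997), (nat_lit 28712308513), (nat_lit 29143708802)], (nat_lit 1271251), (nat_lit 1271251), (nat_lit 780000), (nat_lit 1435001), (nat_lit 1271251),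 (nat_lit 1271251), [(nat_lit 490000), (nat_lit 780000), (nat_lit 1100000)], [(nat_lit 2), (nat_lit 44), (nat_lit 260), (nat_lit 50), (nat_lit 10)]⟩,
 ⟨⟨[(nat_lit 80), (nat_lit 100), (nat_lit 120)], [(nat_lit 0), (nat_lit 265), (nat_lit 768)], [((nat_lit 0), (nat_lit 0), (nat_lit 0)), ((nat_lit 1000), (nat_lit 959), (nat_lit 206)), ((nat_lit 1000), (nat_lit 958), (nat_lit 392))], ((nat_lit 97), (nat_lit 100), (nat_lit 48))⟩, (nat_lit 14930302), (nat_lit 374), (nat_lit 374), (nat_lit 0), (nat_lit 502779), [(nat_lit 4688000000), (nat_lit 6250000000), (nat_lit 7968000000)], [], [(nat_lit 31167507978), (nat_lit 28997990470), (nat_lit 29621980888), (nat_lit 30464945822), (nat_lit 42742848162), (nat_lit 40942352594), (nat_lit 49093096976), (nat_lit 47336091870)], (nat_lit 1271251), (nat_lit 1271251), (nat_lit 780000), (nat_lit 1435001), (nat_lit 0), (nat_lit 2825001), [(nat_lit 1100000), (nat_lit 1442501), (nat_lit 1271251)], [(nat_lit 16), (nat_lit 54),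 (nat_lit 373), (nat_lit 150), (nat_lit 12)]⟩,
 ⟨⟨[(nat_lit 120), (nat_lit 140), (nat_lit 160)], [(nat_lit 0), (nat_lit 266), (nat_lit 862)], [((nat_lit 0), (nat_lit 0), (nat_lit 0)), ((nat_lit 960), (nat_lit 1000), (nat_lit 200)), ((nat_lit 874), (nat_lit 1000), (nat_lit 406))], ((nat_lit 100), (nat_lit 83), (nat_lit 48))⟩, (nat_lit 1055053), (nat_lit 300), (nat_lit 764), (nat_lit 34129600), (nat_lit 1061130), [(nat_lit 4095552000), (nat_lit 5058788000), (nat_lit 6102208000)], [], [(nat_lit 24550683405), (nat_lit 24240230839), (nat_lit 25145722120), (nat_lit 24831692424), (nat_lit 28921582265), (nat_lit 24256459835), (nat_lit 21241728510), (nat_lit 21138059027)], (nat_lit 1271251), (nat_lit 1271251), (nat_lit 1271251), (nat_lit 1271251), (nat_lit 0), (nat_lit 2825001), [(nat_lit 1695001), (nat_lit 1271251), (nat_lit 1271251)], [(nat_lit 27), (nat_lit 62), (nat_lit 483), (nat_lit 250), (nat_lit 12)]⟩⟩)) (.leaf ⟨(nat_lit 0), (nat_lit 408), (nat_lit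 0), (nat_lit 592), (nat_lit 0), (nat_lit 4311), (nat_lit 11025), (nat_lit 6749), (nat_lit 0), (nat_lit 0), (nat_lit 0), [], Pd.none, Pd.none, (nat_lit 0), (nat_lit 1), (nat_lit 0), (nat_lit 0), (nat_lit 6), (nat_lit 0), [], [], [], [⟨(nat_lit 0), (nat_lit 87), (nat_lit 100), (nat_lit 70), (nat_lit 75600955)⟩],
 ⟨⟨[(nat_lit 40), (nat_lit 60), (nat_lit 80)], [(nat_lit 0), (nat_lit 197), (nat_lit 800)], [((nat_lit 0), (nat_lit 0), (nat_lit 0)), ((nat_lit 1000), (nat_lit 908), (nat_lit 154)), ((nat_lit 1000), (nat_lit 781), (nat_lit 471))], ((nat_lit 78), (nat_lit 100), (nat_lit 49))⟩, (nat_lit 9390635), (nat_lit 107), (nat_lit 107), (nat_lit 0), (nat_lit 160472), [(nat_lit 2032000142), (nat_lit 3520787173), (nat_lit 4688000000)], [], [(nat_lit 21549117222), (nat_lit 22189071418), (nat_lit 24495722891), (nat_lit 25146091819), (nat_lit 28549366960), (nat_lit 29101282310), (nat_lit 30510383481), (nat_lit 30984368964)], (nat_lit 1271251), (nat_lit 1271251),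 (nat_lit 1271251), (nat_lit 1271251), (nat_lit 1271251), (nat_lit 1271251), [(nat_lit 490000), (nat_lit 780000), (nat_lit 1100000)], [(nat_lit 2), (nat_lit 44), (nat_lit 203), (nat_lit 0), (nat_lit 7)]⟩,
 ⟨⟨[(nat_lit 80), (nat_lit 120), (nat_lit 140)], [(nat_lit 0), (nat_lit 0), (nat_lit 1164)], [((nat_lit 0), (nat_lit 0), (nat_lit 0)), ((nat_lit 0), (nat_lit 0), (nat_lit 0)), ((nat_lit 941), (nat_lit 1000), (nat_lit 576))], ((nat_lit 100), (nat_lit 98), (nat_lit 48))⟩, (nat_lit 3603209), (nat_lit 432), (nat_lit 432), (nat_lit 0), (nat_lit 513366), [(nat_lit 4688000000), (nat_lit 7968000000), (nat_lit 9842000000)], [], [(nat_lit 34606079500), (nat_lit 29471000425), (nat_lit 30049811750), (nat_lit 31602311425), (nat_lit 43644692150), (nat_lit 35604115025), (nat_lit 35933445250), (nat_lit 37660868925)], (nat_lit 1271251), (nat_lit 1271251), (nat_lit 1271251), (nat_lit 1271251), (nat_lit 0), (nat_lit 2825001), [(nat_lit 1100000), (nat_lit 1785001),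 (nat_lit 1271251)], [(nat_lit 17), (nat_lit 58), (nat_lit 483), (nat_lit 250), (nat_lit 14)]⟩,
 ⟨⟨[(nat_lit 120), (nat_lit 140), (nat_lit 160)], [(nat_lit 0), (nat_lit 266), (nat_lit 862)], [((nat_lit 0), (nat_lit 0), (nat_lit 0)), ((nat_lit 960), (nat_lit 1000), (nat_lit 200)), ((nat_lit 874), (nat_lit 1000), (nat_lit 406))], ((nat_lit 100), (nat_lit 83), (nat_lit 48))⟩, (nat_lit 3109754), (nat_lit 300), (nat_lit 764), (nat_lit 39308800), (nat_lit 1063062), [(nat_lit 4717056000), (nat_lit 5826464000), (nat_lit 7028224000)], [], [(nat_lit 26591025271), (nat_lit 26167933477), (nat_lit 28073458844), (nat_lit 27888762783), (nat_lit 33687386965), (nat_lit 27840606783), (nat_lit 25274733646), (nat_lit 25099393659)], (nat_lit 1271251), (nat_lit 1271251), (nat_lit 1271251), (nat_lit 1271251), (nat_lit 0), (nat_lit 2825001), [(nat_lit 1695001), (nat_lit 1271251), (nat_lit 1271251)], [(nat_lit 27), (nat_lit 62), (nat_lit 483), (nat_lit 250), (nat_lit 12)]⟩⟩))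 (.spl (nat_lit 5) (nat_lit 200) (.leaf ⟨(nat_lit 0), (nat_lit 678), (nat_lit 0), (nat_lit 322), (nat_lit 0), (nat_lit 3831), (nat_lit 6418), (nat_lit 3365), (nat_lit 0), (nat_lit 0), (nat_lit 0), [], Pd.none, Pd.none, (nat_lit 0), (nat_lit 1), (nat_lit 0), (nat_lit 0), (nat_lit 6), (nat_lit 0), [⟨(nat_lit 0), (nat_lit 91), (nat_lit 77), (nat_lit 100), (nat_lit 242121035)⟩], [⟨(nat_lit 1), (nat_lit 67), (nat_lit 74), (nat_lit 100), (nat_lit 253633818)⟩], [], [],
 ⟨⟨[(nat_lit 40), (nat_lit 60), (nat_lit 80)], [(nat_lit 0), (nat_lit 197), (nat_lit 800)], [((nat_lit 0), (nat_lit 0), (nat_lit 0)), ((nat_lit 1000), (nat_lit 908), (nat_lit 154)), ((nat_lit 1000), (nat_lit 781), (nat_lit 471))], ((nat_lit 78), (nat_lit 100), (nat_lit 49))⟩, (nat_lit 6996620), (nat_lit 139), (nat_lit 139), (nat_lit 0), (nat_lit 227144), [(nat_lit 2032000002), (nat_lit 3282000003), (nat_lit 4688000000)], [], [(nat_lit 21150136706), (nat_lit 21767644304), (nat_lit 25126922153),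 (nat_lit 25647568029), (nat_lit 27479438148), (nat_lit 27983803915), (nat_lit 30128402295), (nat_lit 30522208613)], (nat_lit 1271251), (nat_lit 1271251), (nat_lit 780000), (nat_lit 2090001), (nat_lit 1271251), (nat_lit 1271251), [(nat_lit 490000), (nat_lit 780000), (nat_lit 1100000)], [(nat_lit 2), (nat_lit 44), (nat_lit 289), (nat_lit 75), (nat_lit 12)]⟩,
 ⟨⟨[(nat_lit 60), (nat_lit 100), (nat_lit 120)], [(nat_lit 0), (nat_lit 0), (nat_lit 1164)], [((nat_lit 0), (nat_lit 0), (nat_lit 0)), ((nat_lit 0), (nat_lit 0), (nat_lit 0)), ((nat_lit 1000), (nat_lit 933), (nat_lit 572))], ((nat_lit 92), (nat_lit 100), (nat_lit 48))⟩, (nat_lit 2444561), (nat_lit 415), (nat_lit 415), (nat_lit 0), (nat_lit 578842), [(nat_lit 3282000000), (nat_lit 6250000000), (nat_lit 7968000000)], [], [(nat_lit 32941698120), (nat_lit 31788350788), (nat_lit 33433537468), (nat_lit 34909127836), (nat_lit 30544605243), (nat_lit 29876303864), (nat_lit 46299061402), (nat_lit 40667414016)],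 (nat_lit 1271251), (nat_lit 1271251), (nat_lit 780000), (nat_lit 2090001), (nat_lit 0), (nat_lit 1412501), [(nat_lit 780000), (nat_lit 1435001), (nat_lit 1271251)], [(nat_lit 10), (nat_lit 54), (nat_lit 345), (nat_lit 125), (nat_lit 11)]⟩,
 ⟨⟨[(nat_lit 120), (nat_lit 140), (nat_lit 160)], [(nat_lit 0), (nat_lit 266), (nat_lit 862)], [((nat_lit 0), (nat_lit 0), (nat_lit 0)), ((nat_lit 960), (nat_lit 1000), (nat_lit 200)), ((nat_lit 874), (nat_lit 1000), (nat_lit 406))], ((nat_lit 100), (nat_lit 83), (nat_lit 48))⟩, (nat_lit 660947), (nat_lit 300), (nat_lit 975), (nat_lit 21380801), (nat_lit 1503920), [(nat_lit 2565696000), (nat_lit 3169124000), (nat_lit 3822784000)], [], [(nat_lit 15645404992), (nat_lit 15375830600), (nat_lit 15779461336), (nat_lit 15571728639), (nat_lit 12773196654), (nat_lit 12460130124), (nat_lit 12654684981), (nat_lit 12368459085)], (nat_lit 1271251), (nat_lit 1271251), (nat_lit 1271251), (nat_lit 1271251), (nat_lit 0), (nat_lit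 1412501), [(nat_lit 1695001), (nat_lit 1271251), (nat_lit 1271251)], [(nat_lit 27), (nat_lit 62), (nat_lit 428), (nat_lit 200), (nat_lit 11)]⟩⟩) (.leaf ⟨(nat_lit 0), (nat_lit 54), (nat_lit 0), (nat_lit 946), (nat_lit 0), (nat_lit 4275), (nat_lit 10290), (nat_lit 9262), (nat_lit 0), (nat_lit 0), (nat_lit 0), [], Pd.none, Pd.none, (nat_lit 0), (nat_lit 1), (nat_lit 0), (nat_lit 0), (nat_lit 6), (nat_lit 0), [⟨(nat_lit 0), (nat_lit 81), (nat_lit 72), (nat_lit 100), (nat_lit 195804978)⟩], [], [], [],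
 ⟨⟨[(nat_lit 40), (nat_lit 60), (nat_lit 80)], [(nat_lit 0), (nat_lit 197), (nat_lit 800)], [((nat_lit 0), (nat_lit 0), (nat_lit 0)), ((nat_lit 1000), (nat_lit 908), (nat_lit 154)), ((nat_lit 1000), (nat_lit 781), (nat_lit 471))], ((nat_lit 78), (nat_lit 100), (nat_lit 49))⟩, (nat_lit 17838823), (nat_lit 139), (nat_lit 139), (nat_lit 0), (nat_lit 227144), [(nat_lit 2032000003), (nat_lit 3635284314), (nat_lit 4688000000)], [], [(nat_lit 20108117034), (nat_lit 20827548113), (nat_lit 24477754013), (nat_lit 25125415975), (nat_lit 27980520007), (nat_lit 28595707732), (nat_lit 30473448322), (nat_lit 30945846219)], (nat_lit 1271251), (nat_lit 1271251), (nat_lit 780000), (nat_lit 2090001), (nat_lit 1271251), (nat_lit 1271251), [(nat_lit 490000), (nat_lit 780000), (nat_lit 1100000)], [(nat_lit 2), (nat_lit 44), (nat_lit 289), (nat_lit 75), (nat_lit 12)]⟩,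
 ⟨⟨[(nat_lit 60), (nat_lit 100), (nat_lit 120)], [(nat_lit 0), (nat_lit 0), (nat_lit 1164)], [((nat_lit 0), (nat_lit 0), (nat_lit 0)), ((nat_lit 0), (nat_lit 0), (nat_lit 0)), ((nat_lit 1000), (nat_lit 933), (nat_lit 572))], ((nat_lit 92), (nat_lit 100), (nat_lit 48))⟩, (nat_lit 6352037), (nat_lit 323), (nat_lit 323), (nat_lit 0), (nat_lit 578842), [(nat_lit 3282000000), (nat_lit 6250000000), (nat_lit 7968000000)], [], [(nat_lit 16559560265), (nat_lit 18897044530), (nat_lit 21398527420), (nat_lit 25198044860), (nat_lit 35952752090), (nat_lit 38507482480), (nat_lit 36861191130), (nat_lit 38542672160)], (nat_lit 1271251), (nat_lit 1271251), (nat_lit 780000), (nat_lit 2090001), (nat_lit 1271251), (nat_lit 1271251), [(nat_lit 780000), (nat_lit 1435001), (nat_lit 1271251)], [(nat_lit 10), (nat_lit 54), (nat_lit 401), (nat_lit 175), (nat_lit 12)]⟩,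
 ⟨⟨[(nat_lit 120), (nat_lit 140), (nat_lit 160)], [(nat_lit 0), (nat_lit 266), (nat_lit 862)], [((nat_lit 0), (nat_lit 0), (nat_lit 0)), ((nat_lit 960), (nat_lit 1000), (nat_lit 200)), ((nat_lit 874), (nat_lit 1000), (nat_lit 406))], ((nat_lit 100), (nat_lit 83), (nat_lit 48))⟩, (nat_lit 4988174), (nat_lit 300), (nat_lit 851), (nat_lit 62814400), (nat_lit 1503920), [(nat_lit 7537728000), (nat_lit 9310532000), (nat_lit 11230912000)], [], [(nat_lit 40906778546), (nat_lit 40157530061), (nat_lit 40446183466), (nat_lit 39570745070), (nat_lit 39603436796), (nat_lit 38678703668), (nat_lit 39498874074), (nat_lit 38796544578)], (nat_lit 1271251), (nat_lit 1271251), (nat_lit 1271251), (nat_lit 1271251), (nat_lit 1271251), (nat_lit 1271251), [(nat_lit 1695001), (nat_lit 1271251), (nat_lit 1271251)], [(nat_lit 27), (nat_lit 62), (nat_lit 483), (nat_lit 250), (nat_lit 12)]⟩⟩))))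
noncomputable def c11_69 : Tr Lf :=
 (.spl (nat_lit 4) (nat_lit 200) (.leaf ⟨(nat_lit 1000), (nat_lit 0), (nat_lit 0), (nat_lit 0), (nat_lit 0), (nat_lit 3410), (nat_lit 0), (nat_lit 0), (nat_lit 0), (nat_lit 0), (nat_lit 250000), [((nat_lit 340), [((nat_lit 19), (nat_lit 0), (nat_lit 1000))])], ⟨(nat_lit 6), false, false, false, (nat_lit 208), (nat_lit 3872), (nat_lit 4473), [(nat_lit 1407125), (nat_lit 1414492), (nat_lit 1493321), (nat_lit 1501595), (nat_lit 1543097), (nat_lit 1543551), (nat_lit 1629293), (nat_lit 1630654)]⟩, ⟨(nat_lit 3), false, false, true, (nat_lit 152), (nat_lit 3872), (nat_lit 4473), [(nat_lit 1277776), (nat_lit 1283782), (nat_lit 1342475), (nat_lit 1349162), (nat_lit 1413733), (nat_lit 1412825), (nat_lit 1478432), (nat_lit 1478205)]⟩, (nat_lit 4543827), (nat_lit 45192233), (nat_lit 13559499), (nat_lit 8248268), (nat_lit 0), (nat_lit 0), [], [], [], [],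
 ⟨⟨[(nat_lit 40), (nat_lit 80), (nat_lit 120)], [(nat_lit 0), (nat_lit 0), (nat_lit 2151)], [((nat_lit 0), (nat_lit 0), (nat_lit 0)), ((nat_lit 0), (nat_lit 0), (nat_lit 0)), ((nat_lit 1000), (nat_lit 815), (nat_lit 753))], ((nat_lit 80), (nat_lit 100), (nat_lit 63))⟩, (nat_lit 0), (nat_lit 40), (nat_lit 40), (nat_lit 0), (nat_lit 0), [(nat_lit 1542400041), (nat_lit 102782734954), (nat_lit 2901600000)], [(nat_lit 0), (nat_lit 0), (nat_lit 0)], [(nat_lit 15257401530), (nat_lit 17128104833), (nat_lit 17310812370), (nat_lit 18962152445), (nat_lit 17310812370), (nat_lit 18962152445), (nat_lit 19128032810), (nat_lit 20590720290)], (nat_lit 0), (nat_lit 0), (nat_lit 0), (nat_lit 0), (nat_lit 0), (nat_lit 0), [], [(nat_lit 4), (nat_lit 51), (nat_lit 317), (nat_lit 100), (nat_lit 10)]⟩,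
 Rw.none,
 Rw.none⟩) (.spl (nat_lit 2) (nat_lit 160) (.trX (nat_lit 5) (nat_lit 1) (nat_lit 2) (nat_lit 100) (nat_lit 40) (nat_lit 100) (nat_lit 390) (.leaf ⟨(nat_lit 1000), (nat_lit 0), (nat_lit 0), (nat_lit 0), (nat_lit 0), (nat_lit 3374), (nat_lit 0), (nat_lit 0), (nat_lit 0), (nat_lit 0), (nat_lit 250000), [((nat_lit 340), [((nat_lit 19), (nat_lit 0), (nat_lit 1000))])], ⟨(nat_lit 6), false, false, false, (nat_lit 208), (nat_lit 3872), (nat_lit 4473), [(nat_lit 1407125), (nat_lit 1414492), (nat_lit 1493321), (nat_lit 1501595), (nat_lit 1543097), (nat_lit 1543551), (nat_lit 1629293), (nat_lit 1630654)]⟩, ⟨(nat_lit 5), false, false, true, (nat_lit 187), (nat_lit 3872), (nat_lit 4473), [(nat_lit 1413733), (nat_lit 1412825), (nat_lit 1456866), (nat_lit 1456412), (nat_lit 1481711), (nat_lit 1477347), (nat_lit 1524844), (nat_lit 1520934)]⟩, (nat_lit 4870528), (nat_lit 42744203), (nat_lit 13145280), (nat_lit 11110517), (nat_lit 0), (nat_lit 0), [],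 [], [], [],
 ⟨⟨[(nat_lit 40), (nat_lit 80), (nat_lit 120)], [(nat_lit 0), (nat_lit 0), (nat_lit 2151)], [((nat_lit 0), (nat_lit 0), (nat_lit 0)), ((nat_lit 0), (nat_lit 0), (nat_lit 0)), ((nat_lit 1000), (nat_lit 815), (nat_lit 753))], ((nat_lit 80), (nat_lit 100), (nat_lit 63))⟩, (nat_lit 0), (nat_lit 39), (nat_lit 39), (nat_lit 0), (nat_lit 0), [(nat_lit 1542400007), (nat_lit 102914580438), (nat_lit 2901600000)], [(nat_lit 0), (nat_lit 0), (nat_lit 0)], [(nat_lit 17302512318), (nat_lit 18944791823), (nat_lit 19152172187), (nat_lit 20577610206), (nat_lit 18809397864), (nat_lit 20332079653), (nat_lit 20457715660), (nat_lit 21810394112)], (nat_lit 0), (nat_lit 0), (nat_lit 0), (nat_lit 0), (nat_lit 0), (nat_lit 0), [], [(nat_lit 4), (nat_lit 51), (nat_lit 345), (nat_lit 125), (nat_lit 10)]⟩,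
 Rw.none,
 Rw.none⟩)) (.leaf ⟨(nat_lit 951), (nat_lit 26), (nat_lit 0), (nat_lit 23), (nat_lit 0), (nat_lit 3303), (nat_lit 508), (nat_lit 254), (nat_lit 0), (nat_lit 0), (nat_lit 237750), [((nat_lit 340), [((nat_lit 19), (nat_lit 0), (nat_lit 951))])], ⟨(nat_lit 6), false, false, false, (nat_lit 208), (nat_lit 3872), (nat_lit 4473), [(nat_lit 1407125), (nat_lit 1414492), (nat_lit 1493321), (nat_lit 1501595), (nat_lit 1543097), (nat_lit 1543551), (nat_lit 1629293), (nat_lit 1630654)]⟩, ⟨(nat_lit 5), false, false, true, (nat_lit 200), (nat_lit 3872), (nat_lit 4473), [(nat_lit 1456866), (nat_lit 1456412), (nat_lit 1478432), (nat_lit 1478205), (nat_lit 1524844), (nat_lit 1520934), (nat_lit 1546410), (nat_lit 1542727)]⟩, (nat_lit 4971325), (nat_lit 41829856), (nat_lit 12973297), (nat_lit 12196847), (nat_lit 5), (nat_lit 0), [⟨(nat_lit 0), (nat_lit 81), (nat_lit 72), (nat_lit 100), (nat_lit 16037377)⟩], [], [], [],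
 ⟨⟨[(nat_lit 40), (nat_lit 80), (nat_lit 120)], [(nat_lit 0), (nat_lit 0), (nat_lit 2151)], [((nat_lit 0), (nat_lit 0), (nat_lit 0)), ((nat_lit 0), (nat_lit 0), (nat_lit 0)), ((nat_lit 1000), (nat_lit 815), (nat_lit 753))], ((nat_lit 80), (nat_lit 100), (nat_lit 63))⟩, (nat_lit 0), (nat_lit 39), (nat_lit 39), (nat_lit 0), (nat_lit 0), [(nat_lit 1554924402), (nat_lit 102599983434), (nat_lit 3149853600)], [(nat_lit 0), (nat_lit 0), (nat_lit 0)], [(nat_lit 17354021836), (nat_lit 18910552819), (nat_lit 19212581112), (nat_lit 20573980598), (nat_lit 18824753864), (nat_lit 20293036079), (nat_lit 20513496354), (nat_lit 21781700314)], (nat_lit 0), (nat_lit 0), (nat_lit 0), (nat_lit 0), (nat_lit 0), (nat_lit 0), [], [(nat_lit 4), (nat_lit 51), (nat_lit 345), (nat_lit 125), (nat_lit 10)]⟩,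
 ⟨⟨[(nat_lit 80), (nat_lit 120), (nat_lit 160)], [(nat_lit 0), (nat_lit 0), (nat_lit 2132)], [((nat_lit 0), (nat_lit 0), (nat_lit 0)), ((nat_lit 0), (nat_lit 0), (nat_lit 0)), ((nat_lit 858), (nat_lit 1000), (nat_lit 713))], ((nat_lit 100), (nat_lit 91), (nat_lit 64))⟩, (nat_lit 18435), (nat_lit 520), (nat_lit 520), (nat_lit 0), (nat_lit 486416), [(nat_lit 229712000), (nat_lit 390432000), (nat_lit 581728000)], [], [(nat_lit 1841131000), (nat_lit 1951961650), (nat_lit 1757587420), (nat_lit 1939498628), (nat_lit 2833521652), (nat_lit 2024544142), (nat_lit 3423312152), (nat_lit 2574491904)], (nat_lit 1271251), (nat_lit 1271251), (nat_lit 780000), (nat_lit 1435001), (nat_lit 0), (nat_lit 2825001), [(nat_lit 1100000), (nat_lit 1785001), (nat_lit 1271251)], [(nat_lit 18), (nat_lit 59), (nat_lit 483), (nat_lit 250), (nat_lit 12)]⟩,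
 ⟨⟨[(nat_lit 120), (nat_lit 160), (nat_lit 180)], [(nat_lit 0), (nat_lit 0), (nat_lit 1613)], [((nat_lit 0), (nat_lit 0), (nat_lit 0)), ((nat_lit 0), (nat_lit 0), (nat_lit 0)), ((nat_lit 620), (nat_lit 1000), (nat_lit 670))], ((nat_lit 100), (nat_lit 65), (nat_lit 64))⟩, (nat_lit 10010), (nat_lit 300), (nat_lit 1188), (nat_lit 1706600), (nat_lit 1778731), [(nat_lit 183264000), (nat_lit 273056000), (nat_lit 323334000)], [], [(nat_lit 1417216196), (nat_lit 1403622398), (nat_lit 1390500572), (nat_lit 1376670787), (nat_lit 1449059012), (nat_lit 1527383956), (nat_lit 1223419128), (nat_lit 1303142850)], (nat_lit 1100000), (nat_lit 1271251), (nat_lit 1271251), (nat_lit 1271251), (nat_lit 0), (nat_lit 2825001), [(nat_lit 1695001), (nat_lit 1271251), (nat_lit 1271251)], [(nat_lit 28), (nat_lit 65), (nat_lit 456), (nat_lit 225), (nat_lit 11)]⟩⟩)))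
noncomputable def c11_70 : Tr Lf :=
 (.spl (nat_lit 5) (nat_lit 120) (.spl (nat_lit 1) (nat_lit 280) (.leaf ⟨(nat_lit 0), (nat_lit 1000), (nat_lit 0), (nat_lit 0), (nat_lit 4786), (nat_lit 6686), (nat_lit 9509), (nat_lit 0), (nat_lit 0), (nat_lit 0), (nat_lit 0), [], Pd.none, Pd.none, (nat_lit 0), (nat_lit 1), (nat_lit 0), (nat_lit 0), (nat_lit 3), (nat_lit 0), [], [], [⟨(nat_lit 0), (nat_lit 100), (nat_lit 99), (nat_lit 5), (nat_lit 5905187)⟩], [],
 ⟨⟨[(nat_lit 40), (nat_lit 80), (nat_lit 120)], [(nat_lit 0), (nat_lit 0), (nat_lit 2151)], [((nat_lit 0), (nat_lit 0), (nat_lit 0)), ((nat_lit 0), (nat_lit 0), (nat_lit 0)), ((nat_lit 1000), (nat_lit 815), (nat_lit 753))], ((nat_lit 80), (nat_lit 100), (nat_lit 63))⟩, (nat_lit 2563069), (nat_lit 164), (nat_lit 164), (nat_lit 0), (nat_lit 251480), [(nat_lit 3013267321), (nat_lit 4688000646), (nat_lit 7968000000)], [], [(nat_lit 17981498085), (nat_lit 20004723954), (nat_lit 19265627799), (nat_lit 21036247170),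 (nat_lit 20519403253), (nat_lit 22153379917), (nat_lit 21422810458), (nat_lit 23148899168)], (nat_lit 1271251), (nat_lit 1271251), (nat_lit 780000), (nat_lit 1435001), (nat_lit 780000), (nat_lit 1762501), [(nat_lit 490000), (nat_lit 1100000), (nat_lit 1785001)], [(nat_lit 4), (nat_lit 51), (nat_lit 345), (nat_lit 125), (nat_lit 11)]⟩,
 ⟨⟨[(nat_lit 80), (nat_lit 120), (nat_lit 160)], [(nat_lit 0), (nat_lit 0), (nat_lit 2132)], [((nat_lit 0), (nat_lit 0), (nat_lit 0)), ((nat_lit 0), (nat_lit 0), (nat_lit 0)), ((nat_lit 858), (nat_lit 1000), (nat_lit 713))], ((nat_lit 100), (nat_lit 91), (nat_lit 64))⟩, (nat_lit 0), (nat_lit 342), (nat_lit 342), (nat_lit 0), (nat_lit 139426), [(nat_lit 4688000000), (nat_lit 7968000000), (nat_lit 11872000000)], [], [(nat_lit 37166919420), (nat_lit 38378161682), (nat_lit 36174482768), (nat_lit 38303342144), (nat_lit 31682275901), (nat_lit 31861964449), (nat_lit 41406292148), (nat_lit 32735001767)], (nat_lit 1271251),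 (nat_lit 1271251), (nat_lit 780000), (nat_lit 1435001), (nat_lit 0), (nat_lit 780000), [(nat_lit 1100000), (nat_lit 1785001), (nat_lit 1271251)], [(nat_lit 18), (nat_lit 59), (nat_lit 373), (nat_lit 150), (nat_lit 10)]⟩,
 Rw.none⟩) (.leaf ⟨(nat_lit 0), (nat_lit 1000), (nat_lit 0), (nat_lit 0), (nat_lit 0), (nat_lit 7101), (nat_lit 10814), (nat_lit 0), (nat_lit 0), (nat_lit 0), (nat_lit 0), [], Pd.none, Pd.none, (nat_lit 0), (nat_lit 1), (nat_lit 0), (nat_lit 0), (nat_lit 3), (nat_lit 0), [⟨(nat_lit 0), (nat_lit 92), (nat_lit 81), (nat_lit 100), (nat_lit 193122328)⟩], [], [], [],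
 ⟨⟨[(nat_lit 40), (nat_lit 80), (nat_lit 120)], [(nat_lit 0), (nat_lit 0), (nat_lit 2151)], [((nat_lit 0), (nat_lit 0), (nat_lit 0)), ((nat_lit 0), (nat_lit 0), (nat_lit 0)), ((nat_lit 1000), (nat_lit 815), (nat_lit 753))], ((nat_lit 80), (nat_lit 100), (nat_lit 63))⟩, (nat_lit 2394418), (nat_lit 278), (nat_lit 278), (nat_lit 0), (nat_lit 476554), [(nat_lit 2032000127), (nat_lit 4688000025), (nat_lit 7968000000)], [], [(nat_lit 18864318834), (nat_lit 20621032759), (nat_lit 19907459994), (nat_lit 21446288026), (nat_lit 20959962461), (nat_lit 22381592360), (nat_lit 27317241440), (nat_lit 24202274174)], (nat_lit 1271251), (nat_lit 1271251), (nat_lit 780000), (nat_lit 1435001), (nat_lit 780000), (nat_lit 1762501), [(nat_lit 490000), (nat_lit 1100000), (nat_lit 1785001)], [(nat_lit 4), (nat_lit 51), (nat_lit 345), (nat_lit 125), (nat_lit 11)]⟩,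
 ⟨⟨[(nat_lit 60), (nat_lit 100), (nat_lit 140)], [(nat_lit 0), (nat_lit 0), (nat_lit 2047)], [((nat_lit 0), (nat_lit 0), (nat_lit 0)), ((nat_lit 0), (nat_lit 0), (nat_lit 0)), ((nat_lit 1000), (nat_lit 993), (nat_lit 781))], ((nat_lit 95), (nat_lit 100), (nat_lit 65))⟩, (nat_lit 3294181), (nat_lit 310), (nat_lit 310), (nat_lit 0), (nat_lit 208813), [(nat_lit 3282000000), (nat_lit 6250000000), (nat_lit 9842000000)], [], [(nat_lit 26447563154), (nat_lit 27920537345), (nat_lit 24256920835), (nat_lit 29240269404), (nat_lit 15044938135), (nat_lit 19146482827), (nat_lit 23544341789), (nat_lit 19518849083)], (nat_lit 1271251), (nat_lit 1271251), (nat_lit 780000), (nat_lit 1435001), (nat_lit 0), (nat_lit 780000), [(nat_lit 780000), (nat_lit 1435001), (nat_lit 1271251)], [(nat_lit 11), (nat_lit 55), (nat_lit 317), (nat_lit 100), (nat_lit 9)]⟩,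
 Rw.none⟩)) (.stt (nat_lit 2) (.spl (nat_lit 1) (nat_lit 280) (.leaf ⟨(nat_lit 707), (nat_lit 164), (nat_lit 0), (nat_lit 129), (nat_lit 0), (nat_lit 4575), (nat_lit 2587), (nat_lit 1349), (nat_lit 0), (nat_lit 0), (nat_lit 848000), [((nat_lit 340), [((nat_lit 19), (nat_lit 2), (nat_lit 660)), ((nat_lit 37), (nat_lit 5), (nat_lit 47))])], ⟨(nat_lit 6), true, false, false, (nat_lit 199), (nat_lit 3872), (nat_lit 4473), [(nat_lit 1407125), (nat_lit 1414492), (nat_lit 1450223), (nat_lit 1458043), (nat_lit 1543097), (nat_lit 1543551), (nat_lit 1586195), (nat_lit 1587102)]⟩, ⟨(nat_lit 3), false, false, true, (nat_lit 165), (nat_lit 3872), (nat_lit 4473), [(nat_lit 1277776), (nat_lit 1283782), (nat_lit 1342475), (nat_lit 1349162), (nat_lit 1481711), (nat_lit 1477347), (nat_lit 1546410), (nat_lit 1542727)]⟩, (nat_lit 4607066), (nat_lit 44984969), (nat_lit 12639277), (nat_lit 9375754), (nat_lit 3), (nat_lit 0), [⟨(nat_lit 0), (nat_lit 99), (nat_lit 77),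 (nat_lit 100), (nat_lit 117014126)⟩], [], [], [],
 ⟨⟨[(nat_lit 40), (nat_lit 80), (nat_lit 120)], [(nat_lit 0), (nat_lit 0), (nat_lit 2151)], [((nat_lit 0), (nat_lit 0), (nat_lit 0)), ((nat_lit 0), (nat_lit 0), (nat_lit 0)), ((nat_lit 1000), (nat_lit 815), (nat_lit 753))], ((nat_lit 80), (nat_lit 100), (nat_lit 63))⟩, (nat_lit 3800), (nat_lit 164), (nat_lit 164), (nat_lit 0), (nat_lit 251480), [(nat_lit 1752522605), (nat_lit 2251770107), (nat_lit 0)], [(nat_lit 0), (nat_lit 0), (nat_lit 110435502)], [(nat_lit 16790408998), (nat_lit 18397891361), (nat_lit 18281629923), (nat_lit 19701882930), (nat_lit 19466821098), (nat_lit 20992520963), (nat_lit 20872669757), (nat_lit 22295763850)], (nat_lit 1271251), (nat_lit 1271251), (nat_lit 780000), (nat_lit 1435001), (nat_lit 780000), (nat_lit 1762501), [(nat_lit 490000), (nat_lit 1100000), (nat_lit 1785001)], [(nat_lit 4), (nat_lit 51), (nat_lit 345), (nat_lit 125), (nat_lit 11)]⟩,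
 ⟨⟨[(nat_lit 80), (nat_lit 120), (nat_lit 160)], [(nat_lit 0), (nat_lit 0), (nat_lit 2132)], [((nat_lit 0), (nat_lit 0), (nat_lit 0)), ((nat_lit 0), (nat_lit 0), (nat_lit 0)), ((nat_lit 858), (nat_lit 1000), (nat_lit 713))], ((nat_lit 100), (nat_lit 91), (nat_lit 64))⟩, (nat_lit 943955), (nat_lit 165), (nat_lit 165), (nat_lit 0), (nat_lit 0), [(nat_lit 1373584000), (nat_lit 2334624000), (nat_lit 3478496000)], [], [(nat_lit 5604056857), (nat_lit 6514891168), (nat_lit 5918699239), (nat_lit 6698606732), (nat_lit 9569620488), (nat_lit 9951069947), (nat_lit 9289716548), (nat_lit 9736184739)], (nat_lit 0), (nat_lit 0), (nat_lit 0), (nat_lit 0), (nat_lit 0), (nat_lit 0), [], [(nat_lit 18), (nat_lit 59), (nat_lit 456), (nat_lit 225), (nat_lit 11)]⟩,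
 ⟨⟨[(nat_lit 140), (nat_lit 180), (nat_lit 200)], [(nat_lit 0), (nat_lit 0), (nat_lit 2835)], [((nat_lit 0), (nat_lit 0), (nat_lit 0)), ((nat_lit 0), (nat_lit 0), (nat_lit 0)), ((nat_lit 363), (nat_lit 1000), (nat_lit 798))], ((nat_lit 0), (nat_lit 0), (nat_lit 0))⟩, (nat_lit 35492), (nat_lit 300), (nat_lit 956), (nat_lit 10074901), (nat_lit 1178401), [(nat_lit 1269618000), (nat_lit 1813482000), (nat_lit 2115600000)], [], [(nat_lit 9223380907), (nat_lit 8933508640), (nat_lit 8676515923), (nat_lit 8385720177), (nat_lit 8381158216), (nat_lit 8075151089), (nat_lit 7797710011), (nat_lit 8559291595)], (nat_lit 780000), (nat_lit 1271251), (nat_lit 780000), (nat_lit 1762501), (nat_lit 780000), (nat_lit 3072501), [(nat_lit 1977501), (nat_lit 1271251), (nat_lit 1271251)], [(nat_lit 32), (nat_lit 67), (nat_lit 456), (nat_lit 225), (nat_lit 10)]⟩⟩) (.trX (nat_lit 5) (nat_lit 1) (nat_lit 2) (nat_lit 92) (nat_lit 49) (nat_lit 100) (nat_lit 380) (.leaf ⟨(nat_lit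 0), (nat_lit 848), (nat_lit 0), (nat_lit 152), (nat_lit 0), (nat_lit 7107), (nat_lit 7048), (nat_lit 1573), (nat_lit 0), (nat_lit 0), (nat_lit 0), [], Pd.none, Pd.none, (nat_lit 0), (nat_lit 1), (nat_lit 0), (nat_lit 0), (nat_lit 3), (nat_lit 0), [⟨(nat_lit 0), (nat_lit 92), (nat_lit 81), (nat_lit 100), (nat_lit 218087919)⟩], [], [⟨(nat_lit 1), (nat_lit 72), (nat_lit 89), (nat_lit 100), (nat_lit 360182037)⟩], [],
 ⟨⟨[(nat_lit 40), (nat_lit 80), (nat_lit 120)], [(nat_lit 0), (nat_lit 0), (nat_lit 2151)], [((nat_lit 0), (nat_lit 0), (nat_lit 0)), ((nat_lit 0), (nat_lit 0), (nat_lit 0)), ((nat_lit 1000), (nat_lit 815), (nat_lit 753))], ((nat_lit 80), (nat_lit 100), (nat_lit 63))⟩, (nat_lit 2388083), (nat_lit 278), (nat_lit 278), (nat_lit 0), (nat_lit 476554), [(nat_lit 2032000002), (nat_lit 4688000002), (nat_lit 7968000000)], [], [(nat_lit 18868154758), (nat_lit 20625813382), (nat_lit 19910642878), (nat_lit 21450263847), (nat_lit 20963221947), (nat_lit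 22385454579), (nat_lit 27321002713), (nat_lit 24203403451)], (nat_lit 1271251), (nat_lit 1271251), (nat_lit 780000), (nat_lit 1435001), (nat_lit 780000), (nat_lit 1762501), [(nat_lit 490000), (nat_lit 1100000), (nat_lit 1785001)], [(nat_lit 4), (nat_lit 51), (nat_lit 345), (nat_lit 125), (nat_lit 11)]⟩,
 ⟨⟨[(nat_lit 60), (nat_lit 100), (nat_lit 140)], [(nat_lit 0), (nat_lit 0), (nat_lit 2047)], [((nat_lit 0), (nat_lit 0), (nat_lit 0)), ((nat_lit 0), (nat_lit 0), (nat_lit 0)), ((nat_lit 1000), (nat_lit 993), (nat_lit 781))], ((nat_lit 95), (nat_lit 100), (nat_lit 65))⟩, (nat_lit 0), (nat_lit 96), (nat_lit 96), (nat_lit 0), (nat_lit 0), [(nat_lit 3282000000), (nat_lit 6250000000), (nat_lit 9842000000)], [], [(nat_lit 15643822896), (nat_lit 19519321328), (nat_lit 17743947332), (nat_lit 21076799896), (nat_lit 29892348856), (nat_lit 31754902212), (nat_lit 29889640598), (nat_lit 31496795368)], (nat_lit 0), (nat_lit 0), (nat_lit 0), (nat_lit 0), (nat_lit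 0), (nat_lit 0), [], [(nat_lit 11), (nat_lit 55), (nat_lit 373), (nat_lit 150), (nat_lit 10)]⟩,
 ⟨⟨[(nat_lit 140), (nat_lit 180), (nat_lit 200)], [(nat_lit 0), (nat_lit 0), (nat_lit 2835)], [((nat_lit 0), (nat_lit 0), (nat_lit 0)), ((nat_lit 0), (nat_lit 0), (nat_lit 0)), ((nat_lit 363), (nat_lit 1000), (nat_lit 798))], ((nat_lit 0), (nat_lit 0), (nat_lit 0))⟩, (nat_lit 41820), (nat_lit 300), (nat_lit 1494), (nat_lit 11871202), (nat_lit 2339932), [(nat_lit 1495984000), (nat_lit 2136816000), (nat_lit 2492800000)], [], [(nat_lit 11763099058), (nat_lit 11422073101), (nat_lit 11103917684), (nat_lit 10765630845), (nat_lit 10596611224), (nat_lit 10255266215), (nat_lit 9934615367), (nat_lit 9655617628)], (nat_lit 780000), (nat_lit 1271251), (nat_lit 780000), (nat_lit 1762501), (nat_lit 780000), (nat_lit 2908751), [(nat_lit 1977501), (nat_lit 1271251), (nat_lit 1271251)], [(nat_lit 32), (nat_lit 67), (nat_lit 474), (nat_lit 200), (nat_lit 10)]⟩⟩))) (.spl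 (nat_lit 0) (nat_lit 330) (.leaf ⟨(nat_lit 543), (nat_lit 230), (nat_lit 0), (nat_lit 227), (nat_lit 20), (nat_lit 6012), (nat_lit 3354), (nat_lit 2317), (nat_lit 0), (nat_lit 0), (nat_lit 135750), [((nat_lit 330), [((nat_lit 19), (nat_lit 0), (nat_lit 543))])], ⟨(nat_lit 6), false, false, false, (nat_lit 208), (nat_lit 4183), (nat_lit 4473), [(nat_lit 1407167), (nat_lit 1410812), (nat_lit 1493417), (nat_lit 1497463), (nat_lit 1543125), (nat_lit 1543325), (nat_lit 1629375), (nat_lit 1629976)]⟩, ⟨(nat_lit 3), false, false, true, (nat_lit 165), (nat_lit 4183), (nat_lit 4473), [(nat_lit 1277776), (nat_lit 1280820), (nat_lit 1342476), (nat_lit 1345821), (nat_lit 1481711), (nat_lit 1479587), (nat_lit 1546410), (nat_lit 1544587)]⟩, (nat_lit 4670742), (nat_lit 44327888), (nat_lit 13377716), (nat_lit 9294396), (nat_lit 3), (nat_lit 0), [], [], [], [],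
 ⟨⟨[(nat_lit 40), (nat_lit 80), (nat_lit 120)], [(nat_lit 0), (nat_lit 0), (nat_lit 2151)], [((nat_lit 0), (nat_lit 0), (nat_lit 0)), ((nat_lit 0), (nat_lit 0), (nat_lit 0)), ((nat_lit 1000), (nat_lit 815), (nat_lit 753))], ((nat_lit 80), (nat_lit 100), (nat_lit 63))⟩, (nat_lit 2251732), (nat_lit 153), (nat_lit 153), (nat_lit 0), (nat_lit 240642), [(nat_lit 2323930874), (nat_lit 3411961204), (nat_lit 5216944800)], [(nat_lit 0), (nat_lit 0), (nat_lit 0)], [(nat_lit 16341488236), (nat_lit 17287071443), (nat_lit 17964271396), (nat_lit 19063830654), (nat_lit 19663149632), (nat_lit 20722945273), (nat_lit 21019847080), (nat_lit 21948178618)], (nat_lit 1271251), (nat_lit 1271251), (nat_lit 780000), (nat_lit 1435001), (nat_lit 780000), (nat_lit 1762501), [(nat_lit 490000), (nat_lit 1100000), (nat_lit 1785001)], [(nat_lit 4), (nat_lit 51), (nat_lit 345), (nat_lit 125), (nat_lit 11)]⟩,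
 ⟨⟨[(nat_lit 80), (nat_lit 120), (nat_lit 160)], [(nat_lit 0), (nat_lit 0), (nat_lit 2132)], [((nat_lit 0), (nat_lit 0), (nat_lit 0)), ((nat_lit 0), (nat_lit 0), (nat_lit 0)), ((nat_lit 858), (nat_lit 1000), (nat_lit 713))], ((nat_lit 100), (nat_lit 91), (nat_lit 64))⟩, (nat_lit 0), (nat_lit 267), (nat_lit 267), (nat_lit 0), (nat_lit 294677), [(nat_lit 2142416000), (nat_lit 3641376000), (nat_lit 5425504000)], [], [(nat_lit 17947570542), (nat_lit 16906613798), (nat_lit 15613694796), (nat_lit 16923903160), (nat_lit 22282322476), (nat_lit 19759605490), (nat_lit 26230205916), (nat_lit 20345062860)], (nat_lit 1271251), (nat_lit 1271251), (nat_lit 780000), (nat_lit 1435001), (nat_lit 780000), (nat_lit 3072501), [(nat_lit 1100000), (nat_lit 1785001), (nat_lit 1271251)], [(nat_lit 18), (nat_lit 59), (nat_lit 483), (nat_lit 250), (nat_lit 12)]⟩,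
 ⟨⟨[(nat_lit 140), (nat_lit 180), (nat_lit 200)], [(nat_lit 0), (nat_lit 0), (nat_lit 2835)], [((nat_lit 0), (nat_lit 0), (nat_lit 0)), ((nat_lit 0), (nat_lit 0), (nat_lit 0)), ((nat_lit 363), (nat_lit 1000), (nat_lit 798))], ((nat_lit 0), (nat_lit 0), (nat_lit 0))⟩, (nat_lit 62455), (nat_lit 300), (nat_lit 687), (nat_lit 17728701), (nat_lit 601892), [(nat_lit 2234134000), (nat_lit 3191166000), (nat_lit 3722800000)], [], [(nat_lit 15389118872), (nat_lit 14943914439), (nat_lit 14578744900), (nat_lit 14122654143), (nat_lit 14527252384), (nat_lit 14016344300), (nat_lit 13572239761), (nat_lit 14919913155)], (nat_lit 780000), (nat_lit 1271251), (nat_lit 780000), (nat_lit 1762501), (nat_lit 780000), (nat_lit 3072501), [(nat_lit 1977501), (nat_lit 1271251), (nat_lit 1271251)], [(nat_lit 32), (nat_lit 67), (nat_lit 456), (nat_lit 225), (nat_lit 10)]⟩⟩) (.leaf ⟨(nat_lit 567), (nat_lit 225), (nat_lit 0), (nat_lit 208), (nat_lit 0), (nat_lit 5660), (nat_lit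 3178), (nat_lit 2151), (nat_lit 0), (nat_lit 0), (nat_lit 141750), [((nat_lit 340), [((nat_lit 19), (nat_lit 0), (nat_lit 567))])], ⟨(nat_lit 6), false, false, false, (nat_lit 209), (nat_lit 3872), (nat_lit 4184), [(nat_lit 1410806), (nat_lit 1414527), (nat_lit 1497453), (nat_lit 1501681), (nat_lit 1543323), (nat_lit 1543576), (nat_lit 1629971), (nat_lit 1630730)]⟩, ⟨(nat_lit 3), false, false, true, (nat_lit 165), (nat_lit 3872), (nat_lit 4184), [(nat_lit 1280820), (nat_lit 1283782), (nat_lit 1345820), (nat_lit 1349161), (nat_lit 1479587), (nat_lit 1477347), (nat_lit 1544587), (nat_lit 1542727)]⟩, (nat_lit 4679521), (nat_lit 44241653), (nat_lit 13453183), (nat_lit 9305164), (nat_lit 3), (nat_lit 0), [], [], [], [],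
 ⟨⟨[(nat_lit 40), (nat_lit 80), (nat_lit 100)], [(nat_lit 0), (nat_lit 395), (nat_lit 1536)], [((nat_lit 0), (nat_lit 0), (nat_lit 0)), ((nat_lit 1000), (nat_lit 908), (nat_lit 154)), ((nat_lit 1000), (nat_lit 760), (nat_lit 642))], ((nat_lit 76), (nat_lit 100), (nat_lit 63))⟩, (nat_lit 856938), (nat_lit 142), (nat_lit 142), (nat_lit 0), (nat_lit 267848), [(nat_lit 2175090377), (nat_lit 3563279921), (nat_lit 4149832000)], [(nat_lit 0), (nat_lit 0), (nat_lit 0)], [(nat_lit 18170130937), (nat_lit 19159737382), (nat_lit 19693913495), (nat_lit 20561673437), (nat_lit 21003133682), (nat_lit 21804920852), (nat_lit 22024311517), (nat_lit 22734253580)], (nat_lit 1271251), (nat_lit 1271251), (nat_lit 780000), (nat_lit 1435001), (nat_lit 780000), (nat_lit 1762501), [(nat_lit 490000), (nat_lit 1100000), (nat_lit 1442501)], [(nat_lit 3), (nat_lit 50), (nat_lit 345), (nat_lit 125), (nat_lit 12)]⟩,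
 ⟨⟨[(nat_lit 80), (nat_lit 120), (nat_lit 160)], [(nat_lit 0), (nat_lit 0), (nat_lit 2132)], [((nat_lit 0), (nat_lit 0), (nat_lit 0)), ((nat_lit 0), (nat_lit 0), (nat_lit 0)), ((nat_lit 858), (nat_lit 1000), (nat_lit 713))], ((nat_lit 100), (nat_lit 91), (nat_lit 64))⟩, (nat_lit 598542), (nat_lit 335), (nat_lit 335), (nat_lit 0), (nat_lit 336993), [(nat_lit 2029904000), (nat_lit 3450144000), (nat_lit 5140576000)], [], [(nat_lit 17005244254), (nat_lit 14742459134), (nat_lit 13517252884), (nat_lit 14758810528), (nat_lit 21112249100), (nat_lit 17445622826), (nat_lit 24852918716), (nat_lit 19276596524)], (nat_lit 1271251), (nat_lit 1271251), (nat_lit 780000), (nat_lit 1435001), (nat_lit 780000), (nat_lit 3072501), [(nat_lit 1100000), (nat_lit 1785001), (nat_lit 1271251)], [(nat_lit 18), (nat_lit 59), (nat_lit 483), (nat_lit 250), (nat_lit 12)]⟩,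
 ⟨⟨[(nat_lit 140), (nat_lit 180), (nat_lit 200)], [(nat_lit 0), (nat_lit 0), (nat_lit 2835)], [((nat_lit 0), (nat_lit 0), (nat_lit 0)), ((nat_lit 0), (nat_lit 0), (nat_lit 0)), ((nat_lit 363), (nat_lit 1000), (nat_lit 798))], ((nat_lit 0), (nat_lit 0), (nat_lit 0))⟩, (nat_lit 57228), (nat_lit 300), (nat_lit 731), (nat_lit 16244800), (nat_lit 701430), [(nat_lit 2047136000), (nat_lit 2924064000), (nat_lit 3411200000)], [], [(nat_lit 14178715904), (nat_lit 13751058803), (nat_lit 13396294720), (nat_lit 12963462752), (nat_lit 13257562790), (nat_lit 12779618586), (nat_lit 12360232395), (nat_lit 13740812777)], (nat_lit 780000), (nat_lit 1271251), (nat_lit 780000), (nat_lit 1762501), (nat_lit 780000), (nat_lit 3072501), [(nat_lit 1977501), (nat_lit 1271251), (nat_lit 1271251)], [(nat_lit 32), (nat_lit 67), (nat_lit 456), (nat_lit 225), (nat_lit 10)]⟩⟩))))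
noncomputable def c11_71 : Tr Lf :=
 (.spl (nat_lit 5) (nat_lit 120) (.spl (nat_lit 0) (nat_lit 330) (.leaf ⟨(nat_lit 0), (nat_lit 774), (nat_lit 0), (nat_lit 226), (nat_lit 2272), (nat_lit 6847), (nat_lit 6795), (nat_lit 3275), (nat_lit 0), (nat_lit 0), (nat_lit 0), [], Pd.none, Pd.none, (nat_lit 0), (nat_lit 1), (nat_lit 0), (nat_lit 0), (nat_lit 4), (nat_lit 0), [], [], [⟨(nat_lit 0), (nat_lit 100), (nat_lit 92), (nat_lit 40), (nat_lit 106401528)⟩], [],
 ⟨⟨[(nat_lit 40), (nat_lit 80), (nat_lit 120)], [(nat_lit 0), (nat_lit 0), (nat_lit 2151)], [((nat_lit 0), (nat_lit 0), (nat_lit 0)), ((nat_lit 0), (nat_lit 0), (nat_lit 0)), ((nat_lit 1000), (nat_lit 815), (nat_lit 753))], ((nat_lit 80), (nat_lit 100), (nat_lit 63))⟩, (nat_lit 2634060), (nat_lit 170), (nat_lit 170), (nat_lit 0), (nat_lit 293297), [(nat_lit 2732526739), (nat_lit 4688000007), (nat_lit 7968000000)], [], [(nat_lit 17723367848), (nat_lit 18750834574), (nat_lit 18991703301), (nat_lit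 19890373713), (nat_lit 20250709484), (nat_lit 21087650520), (nat_lit 21278963081), (nat_lit 22205871308)], (nat_lit 1271251), (nat_lit 1271251), (nat_lit 780000), (nat_lit 1435001), (nat_lit 780000), (nat_lit 1762501), [(nat_lit 490000), (nat_lit 1100000), (nat_lit 1785001)], [(nat_lit 4), (nat_lit 51), (nat_lit 345), (nat_lit 125), (nat_lit 11)]⟩,
 ⟨⟨[(nat_lit 80), (nat_lit 120), (nat_lit 160)], [(nat_lit 0), (nat_lit 0), (nat_lit 2132)], [((nat_lit 0), (nat_lit 0), (nat_lit 0)), ((nat_lit 0), (nat_lit 0), (nat_lit 0)), ((nat_lit 858), (nat_lit 1000), (nat_lit 713))], ((nat_lit 100), (nat_lit 91), (nat_lit 64))⟩, (nat_lit 1233963), (nat_lit 400), (nat_lit 400), (nat_lit 0), (nat_lit 276349), [(nat_lit 4688000000), (nat_lit 7968000000), (nat_lit 11872000000)], [], [(nat_lit 35880267314), (nat_lit 39419361184), (nat_lit 37375270150), (nat_lit 39572874484), (nat_lit 34823760755), (nat_lit 35636700014), (nat_lit 42520193740), (nat_lit 35686411659)],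 (nat_lit 1271251), (nat_lit 1271251), (nat_lit 780000), (nat_lit 1435001), (nat_lit 0), (nat_lit 780000), [(nat_lit 1100000), (nat_lit 1785001), (nat_lit 1271251)], [(nat_lit 18), (nat_lit 59), (nat_lit 401), (nat_lit 175), (nat_lit 10)]⟩,
 ⟨⟨[(nat_lit 120), (nat_lit 160), (nat_lit 180)], [(nat_lit 0), (nat_lit 533), (nat_lit 2066)], [((nat_lit 0), (nat_lit 0), (nat_lit 0)), ((nat_lit 960), (nat_lit 1000), (nat_lit 200)), ((nat_lit 615), (nat_lit 1000), (nat_lit 729))], ((nat_lit 100), (nat_lit 72), (nat_lit 63))⟩, (nat_lit 295277), (nat_lit 300), (nat_lit 695), (nat_lit 15785559), (nat_lit 643116), [(nat_lit 1800768000), (nat_lit 2683072000), (nat_lit 3177108000)], [], [(nat_lit 12287527401), (nat_lit 11931678178), (nat_lit 11162012206), (nat_lit 11059431964), (nat_lit 9520641720), (nat_lit 9307055308), (nat_lit 12519359919), (nat_lit 9411132744)], (nat_lit 1271251), (nat_lit 1271251), (nat_lit 780000), (nat_lit 1762501), (nat_lit 0), (nat_lit 780000),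 [(nat_lit 1695001), (nat_lit 1271251), (nat_lit 1271251)], [(nat_lit 28), (nat_lit 65), (nat_lit 373), (nat_lit 150), (nat_lit 9)]⟩⟩) (.leaf ⟨(nat_lit 0), (nat_lit 767), (nat_lit 0), (nat_lit 233), (nat_lit 0), (nat_lit 7441), (nat_lit 6795), (nat_lit 3278), (nat_lit 0), (nat_lit 0), (nat_lit 0), [], Pd.none, Pd.none, (nat_lit 0), (nat_lit 1), (nat_lit 0), (nat_lit 0), (nat_lit 4), (nat_lit 0), [⟨(nat_lit 0), (nat_lit 100), (nat_lit 81), (nat_lit 100), (nat_lit 18332592)⟩], [], [⟨(nat_lit 0), (nat_lit 100), (nat_lit 92), (nat_lit 40), (nat_lit 103449896)⟩], [],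
 ⟨⟨[(nat_lit 40), (nat_lit 80), (nat_lit 100)], [(nat_lit 0), (nat_lit 395), (nat_lit 1536)], [((nat_lit 0), (nat_lit 0), (nat_lit 0)), ((nat_lit 1000), (nat_lit 908), (nat_lit 154)), ((nat_lit 1000), (nat_lit 760), (nat_lit 642))], ((nat_lit 76), (nat_lit 100), (nat_lit 63))⟩, (nat_lit 1008081), (nat_lit 166), (nat_lit 166), (nat_lit 0), (nat_lit 342337), [(nat_lit 2683413349), (nat_lit 4688479667), (nat_lit 6250000000)], [], [(nat_lit 19051101853), (nat_lit 20035982074), (nat_lit 20230981208), (nat_lit 21263654849), (nat_lit 21618826979), (nat_lit 22568859246), (nat_lit 22389188024), (nat_lit 23454023358)], (nat_lit 1271251), (nat_lit 1271251), (nat_lit 780000), (nat_lit 1435001), (nat_lit 780000), (nat_lit 1762501), [(nat_lit 490000), (nat_lit 1100000), (nat_lit 1442501)], [(nat_lit 3), (nat_lit 50), (nat_lit 345), (nat_lit 125), (nat_lit 12)]⟩,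
 ⟨⟨[(nat_lit 80), (nat_lit 120), (nat_lit 160)], [(nat_lit 0), (nat_lit 0), (nat_lit 2132)], [((nat_lit 0), (nat_lit 0), (nat_lit 0)), ((nat_lit 0), (nat_lit 0), (nat_lit 0)), ((nat_lit 858), (nat_lit 1000), (nat_lit 713))], ((nat_lit 100), (nat_lit 91), (nat_lit 64))⟩, (nat_lit 1815989), (nat_lit 426), (nat_lit 426), (nat_lit 0), (nat_lit 346690), [(nat_lit 4688000000), (nat_lit 7968000000), (nat_lit 11872000000)], [], [(nat_lit 35879452100), (nat_lit 38178481752), (nat_lit 37375270150), (nat_lit 38331995052), (nat_lit 34823760755), (nat_lit 34395820582), (nat_lit 42520193740), (nat_lit 34445532227)], (nat_lit 1271251), (nat_lit 1271251), (nat_lit 780000), (nat_lit 1435001), (nat_lit 0), (nat_lit 780000), [(nat_lit 1100000), (nat_lit 1785001), (nat_lit 1271251)], [(nat_lit 18), (nat_lit 59), (nat_lit 401), (nat_lit 175), (nat_lit 10)]⟩,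
 ⟨⟨[(nat_lit 120), (nat_lit 160), (nat_lit 180)], [(nat_lit 0), (nat_lit 533), (nat_lit 2066)], [((nat_lit 0), (nat_lit 0), (nat_lit 0)), ((nat_lit 960), (nat_lit 1000), (nat_lit 200)), ((nat_lit 615), (nat_lit 1000), (nat_lit 729))], ((nat_lit 100), (nat_lit 72), (nat_lit 63))⟩, (nat_lit 408386), (nat_lit 300), (nat_lit 783), (nat_lit 15928165), (nat_lit 806410), [(nat_lit 1856544000), (nat_lit 2766176000), (nat_lit 3275514000)], [], [(nat_lit 12498097943), (nat_lit 12240718584), (nat_lit 11442144117), (nat_lit 11315205522), (nat_lit 9833321395), (nat_lit 9624311143), (nat_lit 12821778417), (nat_lit 9710704011)], (nat_lit 1271251), (nat_lit 1271251), (nat_lit 780000), (nat_lit 1762501), (nat_lit 0), (nat_lit 780000), [(nat_lit 1695001), (nat_lit 1271251), (nat_lit 1271251)], [(nat_lit 28), (nat_lit 65), (nat_lit 373), (nat_lit 150), (nat_lit 9)]⟩⟩)) (.spl (nat_lit 0) (nat_lit 330) (.leaf ⟨(nat_lit 0), (nat_lit 539), (nat_lit 0), (nat_lit 461), (nat_lit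 0), (nat_lit 13785), (nat_lit 7339), (nat_lit 4080), (nat_lit 0), (nat_lit 0), (nat_lit 0), [], Pd.none, Pd.none, (nat_lit 0), (nat_lit 1), (nat_lit 0), (nat_lit 0), (nat_lit 4), (nat_lit 0), [], [], [], [],
 ⟨⟨[(nat_lit 40), (nat_lit 80), (nat_lit 120)], [(nat_lit 0), (nat_lit 0), (nat_lit 2151)], [((nat_lit 0), (nat_lit 0), (nat_lit 0)), ((nat_lit 0), (nat_lit 0), (nat_lit 0)), ((nat_lit 1000), (nat_lit 815), (nat_lit 753))], ((nat_lit 80), (nat_lit 100), (nat_lit 63))⟩, (nat_lit 0), (nat_lit 170), (nat_lit 170), (nat_lit 0), (nat_lit 293297), [(nat_lit 4451983555), (nat_lit 8003943525), (nat_lit 7968000000)], [], [(nat_lit 18845978740), (nat_lit 20556635529), (nat_lit 19702841245), (nat_lit 21834114252), (nat_lit 22178772260), (nat_lit 24117979859), (nat_lit 22676195650), (nat_lit 24347035240)], (nat_lit 1271251), (nat_lit 1271251), (nat_lit 780000), (nat_lit 1435001), (nat_lit 780000), (nat_lit 1762501), [(nat_lit 490000), (nat_lit 1100000),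 (nat_lit 1785001)], [(nat_lit 4), (nat_lit 51), (nat_lit 345), (nat_lit 125), (nat_lit 11)]⟩,
 ⟨⟨[(nat_lit 80), (nat_lit 120), (nat_lit 160)], [(nat_lit 0), (nat_lit 0), (nat_lit 2132)], [((nat_lit 0), (nat_lit 0), (nat_lit 0)), ((nat_lit 0), (nat_lit 0), (nat_lit 0)), ((nat_lit 858), (nat_lit 1000), (nat_lit 713))], ((nat_lit 100), (nat_lit 91), (nat_lit 64))⟩, (nat_lit 1336271), (nat_lit 345), (nat_lit 345), (nat_lit 0), (nat_lit 362136), [(nat_lit 4688000000), (nat_lit 7968000000), (nat_lit 11872000000)], [], [(nat_lit 39272323717), (nat_lit 34146075490), (nat_lit 31317155706), (nat_lit 34183943877), (nat_lit 48757679792), (nat_lit 40388944648), (nat_lit 57396236234), (nat_lit 44518757138)], (nat_lit 1271251), (nat_lit 1271251), (nat_lit 780000), (nat_lit 1435001), (nat_lit 780000), (nat_lit 3072501), [(nat_lit 1100000), (nat_lit 1785001), (nat_lit 1271251)], [(nat_lit 18), (nat_lit 59), (nat_lit 483), (nat_lit 250), (nat_lit 12)]⟩,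
 ⟨⟨[(nat_lit 120), (nat_lit 160), (nat_lit 180)], [(nat_lit 0), (nat_lit 533), (nat_lit 2066)], [((nat_lit 0), (nat_lit 0), (nat_lit 0)), ((nat_lit 960), (nat_lit 1000), (nat_lit 200)), ((nat_lit 615), (nat_lit 1000), (nat_lit 729))], ((nat_lit 100), (nat_lit 72), (nat_lit 63))⟩, (nat_lit 1079415), (nat_lit 300), (nat_lit 794), (nat_lit 30610400), (nat_lit 1040964), [(nat_lit 3673248000), (nat_lit 5472992000), (nat_lit 6480738000)], [], [(nat_lit 26733727566), (nat_lit 26417221031), (nat_lit 25483912487), (nat_lit 25140244723), (nat_lit 25335496425), (nat_lit 24921491328), (nat_lit 26563672736), (nat_lit 23422049890)], (nat_lit 1271251), (nat_lit 1271251), (nat_lit 780000), (nat_lit 1762501), (nat_lit 780000), (nat_lit 3072501), [(nat_lit 1695001), (nat_lit 1271251), (nat_lit 1271251)], [(nat_lit 28), (nat_lit 65), (nat_lit 456), (nat_lit 225), (nat_lit 10)]⟩⟩) (.leaf ⟨(nat_lit 492), (nat_lit 271), (nat_lit 0), (nat_lit 237), (nat_lit 0), (nat_lit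 7742), (nat_lit 3798), (nat_lit 2042), (nat_lit 0), (nat_lit 0), (nat_lit 123000), [((nat_lit 340), [((nat_lit 19), (nat_lit 0), (nat_lit 492))])], ⟨(nat_lit 6), false, false, false, (nat_lit 209), (nat_lit 3872), (nat_lit 4184), [(nat_lit 1410806), (nat_lit 1414527), (nat_lit 1497453), (nat_lit 1501681), (nat_lit 1543323), (nat_lit 1543576), (nat_lit 1629971), (nat_lit 1630730)]⟩, ⟨(nat_lit 4), false, false, false, (nat_lit 187), (nat_lit 3872), (nat_lit 4184), [(nat_lit 1345820), (nat_lit 1349161), (nat_lit 1389144), (nat_lit 1392739), (nat_lit 1544587), (nat_lit 1542727), (nat_lit 1587919), (nat_lit 1586312)]⟩, (nat_lit 4871179), (nat_lit 42732375), (nat_lit 13188228), (nat_lit 11079397), (nat_lit 4), (nat_lit 0), [], [], [], [],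
 ⟨⟨[(nat_lit 40), (nat_lit 80), (nat_lit 100)], [(nat_lit 0), (nat_lit 395), (nat_lit 1536)], [((nat_lit 0), (nat_lit 0), (nat_lit 0)), ((nat_lit 1000), (nat_lit 908), (nat_lit 154)), ((nat_lit 1000), (nat_lit 760), (nat_lit 642))], ((nat_lit 76), (nat_lit 100), (nat_lit 63))⟩, (nat_lit 0), (nat_lit 166), (nat_lit 166), (nat_lit 0), (nat_lit 342337), [(nat_lit 3003623481), (nat_lit 3808894872), (nat_lit 4427632000)], [(nat_lit 0), (nat_lit 0), (nat_lit 0)], [(nat_lit 18376275496), (nat_lit 19594411630), (nat_lit 19732087759), (nat_lit 21051213959), (nat_lit 21478562131), (nat_lit 22734084349), (nat_lit 22482080838), (nat_lit 23575668896)], (nat_lit 1271251), (nat_lit 1271251), (nat_lit 780000), (nat_lit 1435001), (nat_lit 780000), (nat_lit 1762501), [(nat_lit 490000), (nat_lit 1100000), (nat_lit 1442501)], [(nat_lit 3), (nat_lit 50), (nat_lit 345), (nat_lit 125), (nat_lit 12)]⟩,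
 ⟨⟨[(nat_lit 80), (nat_lit 120), (nat_lit 160)], [(nat_lit 0), (nat_lit 0), (nat_lit 2132)], [((nat_lit 0), (nat_lit 0), (nat_lit 0)), ((nat_lit 0), (nat_lit 0), (nat_lit 0)), ((nat_lit 858), (nat_lit 1000), (nat_lit 713))], ((nat_lit 100), (nat_lit 91), (nat_lit 64))⟩, (nat_lit 1732630), (nat_lit 382), (nat_lit 382), (nat_lit 0), (nat_lit 452946), [(nat_lit 2381504000), (nat_lit 4047744000), (nat_lit 6030976000)], [], [(nat_lit 20057835114), (nat_lit 15005592828), (nat_lit 14554238322), (nat_lit 15186191468), (nat_lit 24825829360), (nat_lit 19068269008), (nat_lit 29271447636), (nat_lit 22607233764)], (nat_lit 1271251), (nat_lit 1271251), (nat_lit 780000), (nat_lit 1435001), (nat_lit 780000), (nat_lit 3072501), [(nat_lit 1100000), (nat_lit 1785001), (nat_lit 1271251)], [(nat_lit 18), (nat_lit 59), (nat_lit 483), (nat_lit 250), (nat_lit 12)]⟩,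
 ⟨⟨[(nat_lit 120), (nat_lit 160), (nat_lit 180)], [(nat_lit 0), (nat_lit 533), (nat_lit 2066)], [((nat_lit 0), (nat_lit 0), (nat_lit 0)), ((nat_lit 960), (nat_lit 1000), (nat_lit 200)), ((nat_lit 615), (nat_lit 1000), (nat_lit 729))], ((nat_lit 100), (nat_lit 72), (nat_lit 63))⟩, (nat_lit 554927), (nat_lit 300), (nat_lit 919), (nat_lit 15736800), (nat_lit 1296419), [(nat_lit 1888416000), (nat_lit 2813664000), (nat_lit 3331746000)], [], [(nat_lit 14652552970), (nat_lit 14468139834), (nat_lit 13973521831), (nat_lit 13780003334), (nat_lit 13728431029), (nat_lit 13509142580), (nat_lit 13528584180), (nat_lit 12742435069)], (nat_lit 1271251), (nat_lit 1271251), (nat_lit 780000), (nat_lit 1762501), (nat_lit 780000), (nat_lit 3072501), [(nat_lit 1695001), (nat_lit 1271251), (nat_lit 1271251)], [(nat_lit 28), (nat_lit 65), (nat_lit 456), (nat_lit 225), (nat_lit 10)]⟩⟩)))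
noncomputable def c11_72 : Tr Lf :=
 (.stt (nat_lit 1) (.spl (nat_lit 2) (nat_lit 180) (.spl (nat_lit 1) (nat_lit 280) (.leaf ⟨(nat_lit 830), (nat_lit 132), (nat_lit 0), (nat_lit 38), (nat_lit 1140), (nat_lit 3238), (nat_lit 1434), (nat_lit 320), (nat_lit 0), (nat_lit 0), (nat_lit 207500), [((nat_lit 340), [((nat_lit 19), (nat_lit 0), (nat_lit 830))])], ⟨(nat_lit 6), false, true, false, (nat_lit 252), (nat_lit 3872), (nat_lit 4473), [(nat_lit 1543097), (nat_lit 1543551), (nat_lit 1586195), (nat_lit 1587102), (nat_lit 1679069), (nat_lit 1672609), (nat_lit 1722167), (nat_lit 1716161)]⟩, ⟨(nat_lit 3), false, false, true, (nat_lit 165), (nat_lit 3872), (nat_lit 4473), [(nat_lit 1277776), (nat_lit 1283782), (nat_lit 1342475), (nat_lit 1349162), (nat_lit 1481711), (nat_lit 1477347), (nat_lit 1546410), (nat_lit 1542727)]⟩, (nat_lit 4947150), (nat_lit 40722198), (nat_lit 17426573), (nat_lit 8851229), (nat_lit 3), (nat_lit 0), [], [], [], [],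
 ⟨⟨[(nat_lit 40), (nat_lit 80), (nat_lit 120)], [(nat_lit 0), (nat_lit 0), (nat_lit 2151)], [((nat_lit 0), (nat_lit 0), (nat_lit 0)), ((nat_lit 0), (nat_lit 0), (nat_lit 0)), ((nat_lit 1000), (nat_lit 815), (nat_lit 753))], ((nat_lit 80), (nat_lit 100), (nat_lit 63))⟩, (nat_lit 0), (nat_lit 52), (nat_lit 52), (nat_lit 0), (nat_lit 0), [(nat_lit 1585852004), (nat_lit 102986320347), (nat_lit 3762888000)], [(nat_lit 0), (nat_lit 0), (nat_lit 0)], [(nat_lit 17425140368), (nat_lit 18943770313), (nat_lit 20901689862), (nat_lit 22235503495), (nat_lit 20584230996), (nat_lit 21840733446), (nat_lit 23446784176), (nat_lit 24530075653)], (nat_lit 0), (nat_lit 0), (nat_lit 0), (nat_lit 0), (nat_lit 0), (nat_lit 0), [], [(nat_lit 4), (nat_lit 51), (nat_lit 373), (nat_lit 150), (nat_lit 11)]⟩,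
 ⟨⟨[(nat_lit 80), (nat_lit 120), (nat_lit 160)], [(nat_lit 0), (nat_lit 0), (nat_lit 2132)], [((nat_lit 0), (nat_lit 0), (nat_lit 0)), ((nat_lit 0), (nat_lit 0), (nat_lit 0)), ((nat_lit 858), (nat_lit 1000), (nat_lit 713))], ((nat_lit 100), (nat_lit 91), (nat_lit 64))⟩, (nat_lit 429876), (nat_lit 417), (nat_lit 417), (nat_lit 0), (nat_lit 397605), [(nat_lit 796960000), (nat_lit 1354560000), (nat_lit 2018240000)], [], [(nat_lit 5674187720), (nat_lit 5734705062), (nat_lit 5853725008), (nat_lit 6124527752), (nat_lit 7423645324), (nat_lit 6165551236), (nat_lit 5815573308), (nat_lit 5932045390)], (nat_lit 1271251), (nat_lit 1271251), (nat_lit 1271251), (nat_lit 1271251), (nat_lit 0), (nat_lit 2825001), [(nat_lit 1100000), (nat_lit 1785001), (nat_lit 1271251)], [(nat_lit 18), (nat_lit 59), (nat_lit 483), (nat_lit 250), (nat_lit 12)]⟩,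
 ⟨⟨[(nat_lit 140), (nat_lit 180), (nat_lit 200)], [(nat_lit 0), (nat_lit 0), (nat_lit 2835)], [((nat_lit 0), (nat_lit 0), (nat_lit 0)), ((nat_lit 0), (nat_lit 0), (nat_lit 0)), ((nat_lit 363), (nat_lit 1000), (nat_lit 798))], ((nat_lit 0), (nat_lit 0), (nat_lit 0))⟩, (nat_lit 10455), (nat_lit 300), (nat_lit 1480), (nat_lit 2967801), (nat_lit 2135627), [(nat_lit 373996000), (nat_lit 534204000), (nat_lit 623200000)], [], [(nat_lit 3803742571), (nat_lit 3736212748), (nat_lit 3673735769), (nat_lit 3606743195), (nat_lit 3384790046), (nat_lit 3318580686), (nat_lit 3256658985), (nat_lit 3191054410)], (nat_lit 780000), (nat_lit 1271251), (nat_lit 780000), (nat_lit 1762501), (nat_lit 0), (nat_lit 2825001), [(nat_lit 1977501), (nat_lit 1271251), (nat_lit 1271251)], [(nat_lit 32), (nat_lit 67), (nat_lit 473), (nat_lit 225), (nat_lit 10)]⟩⟩) (.trX (nat_lit 5) (nat_lit 1) (nat_lit 2) (nat_lit 92) (nat_lit 49) (nat_lit 100) (nat_lit 380) (.spl (nat_lit 1) (nat_lit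 300) (.leaf ⟨(nat_lit 632), (nat_lit 315), (nat_lit 0), (nat_lit 53), (nat_lit 0), (nat_lit 3400), (nat_lit 2956), (nat_lit 484), (nat_lit 0), (nat_lit 0), (nat_lit 158000), [((nat_lit 340), [((nat_lit 19), (nat_lit 0), (nat_lit 632))])], ⟨(nat_lit 7), false, true, false, (nat_lit 265), (nat_lit 3872), (nat_lit 4473), [(nat_lit 1586195), (nat_lit 1587102), (nat_lit 1607744), (nat_lit 1608878), (nat_lit 1722167), (nat_lit 1716161), (nat_lit 1743716), (nat_lit 1737937)]⟩, ⟨(nat_lit 3), false, false, true, (nat_lit 165), (nat_lit 3872), (nat_lit 4473), [(nat_lit 1277776), (nat_lit 1283782), (nat_lit 1342475), (nat_lit 1349162), (nat_lit 1481711), (nat_lit 1477347), (nat_lit 1546410), (nat_lit 1542727)]⟩, (nat_lit 5004161), (nat_lit 39692437), (nat_lit 18602310), (nat_lit 8705253), (nat_lit 3), (nat_lit 0), [], [], [⟨(nat_lit 1), (nat_lit 68), (nat_lit 92), (nat_lit 100), (nat_lit 31515914)⟩], [],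
 ⟨⟨[(nat_lit 40), (nat_lit 80), (nat_lit 120)], [(nat_lit 0), (nat_lit 0), (nat_lit 2151)], [((nat_lit 0), (nat_lit 0), (nat_lit 0)), ((nat_lit 0), (nat_lit 0), (nat_lit 0)), ((nat_lit 1000), (nat_lit 815), (nat_lit 753))], ((nat_lit 80), (nat_lit 100), (nat_lit 63))⟩, (nat_lit 0), (nat_lit 52), (nat_lit 52), (nat_lit 0), (nat_lit 0), [(nat_lit 1636460804), (nat_lit 103332306714), (nat_lit 4766035200)], [(nat_lit 0), (nat_lit 0), (nat_lit 0)], [(nat_lit 17375581004), (nat_lit 18957330050), (nat_lit 20960094200), (nat_lit 22359766000), (nat_lit 20535628404), (nat_lit 21820970904), (nat_lit 23459142800), (nat_lit 24622878100)], (nat_lit 0), (nat_lit 0), (nat_lit 0), (nat_lit 0), (nat_lit 0), (nat_lit 0), [], [(nat_lit 4), (nat_lit 51), (nat_lit 373), (nat_lit 150), (nat_lit 11)]⟩,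
 ⟨⟨[(nat_lit 60), (nat_lit 100), (nat_lit 140)], [(nat_lit 0), (nat_lit 0), (nat_lit 2047)], [((nat_lit 0), (nat_lit 0), (nat_lit 0)), ((nat_lit 0), (nat_lit 0), (nat_lit 0)), ((nat_lit 1000), (nat_lit 993), (nat_lit 781))], ((nat_lit 95), (nat_lit 100), (nat_lit 65))⟩, (nat_lit 751573), (nat_lit 377), (nat_lit 377), (nat_lit 0), (nat_lit 465898), [(nat_lit 1207776000), (nat_lit 2300000000), (nat_lit 3621856000)], [], [(nat_lit 10826429573), (nat_lit 11174181193), (nat_lit 11665162653), (nat_lit 11943896013), (nat_lit 12656504053), (nat_lit 11565004942), (nat_lit 12042170094), (nat_lit 12358453183)], (nat_lit 1271251), (nat_lit 1271251), (nat_lit 1271251), (nat_lit 1271251), (nat_lit 0), (nat_lit 2683751), [(nat_lit 780000), (nat_lit 1435001), (nat_lit 1271251)], [(nat_lit 11), (nat_lit 55), (nat_lit 401), (nat_lit 175), (nat_lit 11)]⟩,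
 ⟨⟨[(nat_lit 140), (nat_lit 180), (nat_lit 200)], [(nat_lit 0), (nat_lit 0), (nat_lit 2835)], [((nat_lit 0), (nat_lit 0), (nat_lit 0)), ((nat_lit 0), (nat_lit 0), (nat_lit 0)), ((nat_lit 363), (nat_lit 1000), (nat_lit 798))], ((nat_lit 0), (nat_lit 0), (nat_lit 0))⟩, (nat_lit 14582), (nat_lit 300), (nat_lit 1902), (nat_lit 4139301), (nat_lit 3036778), [(nat_lit 521626000), (nat_lit 745074000), (nat_lit 869200000)], [], [(nat_lit 5366477672), (nat_lit 5267132336), (nat_lit 5173239323), (nat_lit 5074886661), (nat_lit 4761009293), (nat_lit 4664578415), (nat_lit 4572929005), (nat_lit 4477471537)], (nat_lit 780000), (nat_lit 1271251), (nat_lit 780000), (nat_lit 1762501), (nat_lit 0), (nat_lit 2683751), [(nat_lit 1977501), (nat_lit 1271251), (nat_lit 1271251)], [(nat_lit 32), (nat_lit 67), (nat_lit 576), (nat_lit 200), (nat_lit 12)]⟩⟩) (.trX (nat_lit 5) (nat_lit 1) (nat_lit 2) (nat_lit 87) (nat_lit 59) (nat_lit 100) (nat_lit 370) (.leaf ⟨(nat_lit 0), (nat_lit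 1000), (nat_lit 0), (nat_lit 0), (nat_lit 0), (nat_lit 3872), (nat_lit 5913), (nat_lit 0), (nat_lit 0), (nat_lit 0), (nat_lit 0), [], Pd.none, Pd.none, (nat_lit 0), (nat_lit 1), (nat_lit 0), (nat_lit 0), (nat_lit 3), (nat_lit 0), [], [], [⟨(nat_lit 1), (nat_lit 59), (nat_lit 87), (nat_lit 100), (nat_lit 265095015)⟩], [],
 ⟨⟨[(nat_lit 40), (nat_lit 80), (nat_lit 120)], [(nat_lit 0), (nat_lit 0), (nat_lit 2151)], [((nat_lit 0), (nat_lit 0), (nat_lit 0)), ((nat_lit 0), (nat_lit 0), (nat_lit 0)), ((nat_lit 1000), (nat_lit 815), (nat_lit 753))], ((nat_lit 80), (nat_lit 100), (nat_lit 63))⟩, (nat_lit 0), (nat_lit 52), (nat_lit 52), (nat_lit 0), (nat_lit 0), [(nat_lit 2032000123), (nat_lit 105220691269), (nat_lit 7968000000)], [], [(nat_lit 17479272339), (nat_lit 19184947094), (nat_lit 21228314336), (nat_lit 22721814780), (nat_lit 20642107371), (nat_lit 22011654836), (nat_lit 23659243424), (nat_lit 24893961388)], (nat_lit 0), (nat_lit 0), (nat_lit 0), (nat_lit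 0), (nat_lit 0), (nat_lit 0), [], [(nat_lit 4), (nat_lit 51), (nat_lit 373), (nat_lit 150), (nat_lit 11)]⟩,
 ⟨⟨[(nat_lit 60), (nat_lit 100), (nat_lit 120)], [(nat_lit 0), (nat_lit 609), (nat_lit 1609)], [((nat_lit 0), (nat_lit 0), (nat_lit 0)), ((nat_lit 1000), (nat_lit 905), (nat_lit 238)), ((nat_lit 1000), (nat_lit 882), (nat_lit 668))], ((nat_lit 88), (nat_lit 100), (nat_lit 63))⟩, (nat_lit 3754677), (nat_lit 381), (nat_lit 381), (nat_lit 0), (nat_lit 543149), [(nat_lit 3282000000), (nat_lit 6250000000), (nat_lit 7968000000)], [], [(nat_lit 26219624100), (nat_lit 27112656313), (nat_lit 28483190970), (nat_lit 29222676165), (nat_lit 29707695631), (nat_lit 29550636401), (nat_lit 30801687120), (nat_lit 31609364951)], (nat_lit 1271251), (nat_lit 1271251), (nat_lit 1271251), (nat_lit 1271251), (nat_lit 0), (nat_lit 2613125), [(nat_lit 780000), (nat_lit 1435001), (nat_lit 1271251)], [(nat_lit 10), (nat_lit 54), (nat_lit 401), (nat_lit 175), (nat_lit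 13)]⟩,
 Rw.none⟩))))) (.leaf ⟨(nat_lit 438), (nat_lit 352), (nat_lit 0), (nat_lit 210), (nat_lit 0), (nat_lit 3521), (nat_lit 5642), (nat_lit 1761), (nat_lit 0), (nat_lit 0), (nat_lit 109500), [((nat_lit 340), [((nat_lit 19), (nat_lit 0), (nat_lit 438))])], ⟨(nat_lit 6), false, true, false, (nat_lit 261), (nat_lit 3872), (nat_lit 4473), [(nat_lit 1543097), (nat_lit 1543551), (nat_lit 1629293), (nat_lit 1630654), (nat_lit 1679069), (nat_lit 1672609), (nat_lit 1765265), (nat_lit 1759713)]⟩, ⟨(nat_lit 4), false, false, false, (nat_lit 187), (nat_lit 3872), (nat_lit 4473), [(nat_lit 1342475), (nat_lit 1349162), (nat_lit 1385576), (nat_lit 1392716), (nat_lit 1546410), (nat_lit 1542727), (nat_lit 1589534), (nat_lit 1586304)]⟩, (nat_lit 5162202), (nat_lit 38793275), (nat_lit 17809452), (nat_lit 10397273), (nat_lit 4), (nat_lit 0), [], [], [], [],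
 ⟨⟨[(nat_lit 40), (nat_lit 80), (nat_lit 120)], [(nat_lit 0), (nat_lit 0), (nat_lit 2151)], [((nat_lit 0), (nat_lit 0), (nat_lit 0)), ((nat_lit 0), (nat_lit 0), (nat_lit 0)), ((nat_lit 1000), (nat_lit 815), (nat_lit 753))], ((nat_lit 80), (nat_lit 100), (nat_lit 63))⟩, (nat_lit 0), (nat_lit 52), (nat_lit 52), (nat_lit 0), (nat_lit 0), [(nat_lit 1710332846), (nat_lit 103214506171), (nat_lit 5748916800)], [(nat_lit 0), (nat_lit 0), (nat_lit 0)], [(nat_lit 17374636084), (nat_lit 19015681030), (nat_lit 21028854023), (nat_lit 22452579353), (nat_lit 20535398110), (nat_lit 21869802398), (nat_lit 23510439782), (nat_lit 24692371909)], (nat_lit 0), (nat_lit 0), (nat_lit 0), (nat_lit 0), (nat_lit 0), (nat_lit 0), [], [(nat_lit 4), (nat_lit 51), (nat_lit 373), (nat_lit 150), (nat_lit 11)]⟩,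
 ⟨⟨[(nat_lit 80), (nat_lit 120), (nat_lit 160)], [(nat_lit 0), (nat_lit 0), (nat_lit 2132)], [((nat_lit 0), (nat_lit 0), (nat_lit 0)), ((nat_lit 0), (nat_lit 0), (nat_lit 0)), ((nat_lit 858), (nat_lit 1000), (nat_lit 713))], ((nat_lit 100), (nat_lit 91), (nat_lit 64))⟩, (nat_lit 1774086), (nat_lit 440), (nat_lit 440), (nat_lit 0), (nat_lit 452946), [(nat_lit 2634656000), (nat_lit 4478016000), (nat_lit 6672064000)], [], [(nat_lit 19185786440), (nat_lit 18801534516), (nat_lit 18132209772), (nat_lit 20501957912), (nat_lit 24533410924), (nat_lit 20621731216), (nat_lit 19626423496), (nat_lit 21498783700)], (nat_lit 1271251), (nat_lit 1271251), (nat_lit 1271251), (nat_lit 1271251), (nat_lit 0), (nat_lit 2825001), [(nat_lit 1100000), (nat_lit 1785001), (nat_lit 1271251)], [(nat_lit 18), (nat_lit 59), (nat_lit 483), (nat_lit 250), (nat_lit 12)]⟩,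
 ⟨⟨[(nat_lit 120), (nat_lit 160), (nat_lit 180)], [(nat_lit 0), (nat_lit 533), (nat_lit 2066)], [((nat_lit 0), (nat_lit 0), (nat_lit 0)), ((nat_lit 960), (nat_lit 1000), (nat_lit 200)), ((nat_lit 615), (nat_lit 1000), (nat_lit 729))], ((nat_lit 100), (nat_lit 72), (nat_lit 63))⟩, (nat_lit 491707), (nat_lit 300), (nat_lit 1003), (nat_lit 13944002), (nat_lit 1296419), [(nat_lit 1673280000), (nat_lit 2493120000), (nat_lit 2952180000)], [], [(nat_lit 14556873762), (nat_lit 14389683328), (nat_lit 13949790833), (nat_lit 13775906661), (nat_lit 12599730646), (nat_lit 12409847351), (nat_lit 15386553705), (nat_lit 13860967707)], (nat_lit 1271251), (nat_lit 1271251), (nat_lit 780000), (nat_lit 1762501), (nat_lit 0), (nat_lit 2825001), [(nat_lit 1695001), (nat_lit 1271251), (nat_lit 1271251)], [(nat_lit 28), (nat_lit 65), (nat_lit 456), (nat_lit 225), (nat_lit 11)]⟩⟩)) (.spl (nat_lit 5) (nat_lit 200) (.leaf ⟨(nat_lit 0), (nat_lit 887), (nat_lit 0), (nat_lit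 113), (nat_lit 0), (nat_lit 7229), (nat_lit 9495), (nat_lit 1449), (nat_lit 0), (nat_lit 0), (nat_lit 0), [], Pd.none, Pd.none, (nat_lit 0), (nat_lit 1), (nat_lit 0), (nat_lit 0), (nat_lit 3), (nat_lit 0), [], [], [], [],
 ⟨⟨[(nat_lit 40), (nat_lit 80), (nat_lit 120)], [(nat_lit 0), (nat_lit 0), (nat_lit 2151)], [((nat_lit 0), (nat_lit 0), (nat_lit 0)), ((nat_lit 0), (nat_lit 0), (nat_lit 0)), ((nat_lit 1000), (nat_lit 815), (nat_lit 753))], ((nat_lit 80), (nat_lit 100), (nat_lit 63))⟩, (nat_lit 2062220), (nat_lit 266), (nat_lit 266), (nat_lit 0), (nat_lit 479183), [(nat_lit 2621230905), (nat_lit 4688000625), (nat_lit 7968000000)], [], [(nat_lit 20399220028), (nat_lit 21954964060), (nat_lit 23380647022), (nat_lit 25296810023), (nat_lit 21961116601), (nat_lit 23368677451), (nat_lit 25082416718), (nat_lit 26821983841)], (nat_lit 1271251), (nat_lit 1271251), (nat_lit 1271251), (nat_lit 1271251), (nat_lit 780000), (nat_lit 1762501), [(nat_lit 490000),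 (nat_lit 1100000), (nat_lit 1785001)], [(nat_lit 4), (nat_lit 51), (nat_lit 373), (nat_lit 150), (nat_lit 11)]⟩,
 ⟨⟨[(nat_lit 80), (nat_lit 120), (nat_lit 160)], [(nat_lit 0), (nat_lit 0), (nat_lit 2132)], [((nat_lit 0), (nat_lit 0), (nat_lit 0)), ((nat_lit 0), (nat_lit 0), (nat_lit 0)), ((nat_lit 858), (nat_lit 1000), (nat_lit 713))], ((nat_lit 100), (nat_lit 91), (nat_lit 64))⟩, (nat_lit 2421718), (nat_lit 400), (nat_lit 400), (nat_lit 0), (nat_lit 346992), [(nat_lit 4688000000), (nat_lit 7968000000), (nat_lit 11872000000)], [], [(nat_lit 33880278100), (nat_lit 35278236824), (nat_lit 33823105074), (nat_lit 37666057064), (nat_lit 29053863140), (nat_lit 27840121234), (nat_lit 26654836924), (nat_lit 29092787164)], (nat_lit 1271251), (nat_lit 1271251), (nat_lit 1271251), (nat_lit 1271251), (nat_lit 0), (nat_lit 1412501), [(nat_lit 1100000), (nat_lit 1785001), (nat_lit 1271251)], [(nat_lit 18), (nat_lit 59), (nat_lit 428), (nat_lit 200), (nat_lit 11)]⟩,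
 ⟨⟨[(nat_lit 140), (nat_lit 180), (nat_lit 200)], [(nat_lit 0), (nat_lit 0), (nat_lit 2835)], [((nat_lit 0), (nat_lit 0), (nat_lit 0)), ((nat_lit 0), (nat_lit 0), (nat_lit 0)), ((nat_lit 363), (nat_lit 1000), (nat_lit 798))], ((nat_lit 0), (nat_lit 0), (nat_lit 0))⟩, (nat_lit 31090), (nat_lit 300), (nat_lit 1570), (nat_lit 8825300), (nat_lit 2339932), [(nat_lit 1112146000), (nat_lit 1588554000), (nat_lit 1853200000)], [], [(nat_lit 8246453662), (nat_lit 7792544663), (nat_lit 7683254924), (nat_lit 7213675860), (nat_lit 6659019763), (nat_lit 7186304585), (nat_lit 7522060786), (nat_lit 9351785664)], (nat_lit 780000), (nat_lit 1598751), (nat_lit 780000), (nat_lit 1762501), (nat_lit 0), (nat_lit 1412501), [(nat_lit 1977501), (nat_lit 1271251), (nat_lit 1271251)], [(nat_lit 32), (nat_lit 67), (nat_lit 475), (nat_lit 175), (nat_lit 10)]⟩⟩) (.leaf ⟨(nat_lit 0), (nat_lit 833), (nat_lit 0), (nat_lit 167), (nat_lit 0), (nat_lit 7469), (nat_lit 7690), (nat_lit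 1903), (nat_lit 0), (nat_lit 0), (nat_lit 0), [], Pd.none, Pd.none, (nat_lit 0), (nat_lit 1), (nat_lit 0), (nat_lit 0), (nat_lit 5), (nat_lit 0), [], [], [⟨(nat_lit 1), (nat_lit 54), (nat_lit 93), (nat_lit 100), (nat_lit 327511846)⟩], [],
 ⟨⟨[(nat_lit 40), (nat_lit 80), (nat_lit 120)], [(nat_lit 0), (nat_lit 0), (nat_lit 2151)], [((nat_lit 0), (nat_lit 0), (nat_lit 0)), ((nat_lit 0), (nat_lit 0), (nat_lit 0)), ((nat_lit 1000), (nat_lit 815), (nat_lit 753))], ((nat_lit 80), (nat_lit 100), (nat_lit 63))⟩, (nat_lit 1933086), (nat_lit 266), (nat_lit 266), (nat_lit 0), (nat_lit 479183), [(nat_lit 2531049107), (nat_lit 4868600875), (nat_lit 7968000000)], [], [(nat_lit 20439840392), (nat_lit 22027301924), (nat_lit 23520485776), (nat_lit 25480902623), (nat_lit 21965721845), (nat_lit 23465868445), (nat_lit 25184162798), (nat_lit 26959822801)], (nat_lit 1271251), (nat_lit 1271251), (nat_lit 1271251), (nat_lit 1271251), (nat_lit 780000), (nat_lit 1762501),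 [(nat_lit 490000), (nat_lit 1100000), (nat_lit 1785001)], [(nat_lit 4), (nat_lit 51), (nat_lit 373), (nat_lit 150), (nat_lit 11)]⟩,
 ⟨⟨[(nat_lit 80), (nat_lit 120), (nat_lit 160)], [(nat_lit 0), (nat_lit 0), (nat_lit 2132)], [((nat_lit 0), (nat_lit 0), (nat_lit 0)), ((nat_lit 0), (nat_lit 0), (nat_lit 0)), ((nat_lit 858), (nat_lit 1000), (nat_lit 713))], ((nat_lit 100), (nat_lit 91), (nat_lit 64))⟩, (nat_lit 2799061), (nat_lit 259), (nat_lit 259), (nat_lit 0), (nat_lit 346992), [(nat_lit 4688000000), (nat_lit 7968000000), (nat_lit 11872000000)], [], [(nat_lit 25015557930), (nat_lit 27030084278), (nat_lit 25759249988), (nat_lit 29163548858), (nat_lit 32775670428), (nat_lit 34839268480), (nat_lit 33824728288), (nat_lit 35888326340)], (nat_lit 1271251), (nat_lit 1271251), (nat_lit 1271251), (nat_lit 1271251), (nat_lit 1271251), (nat_lit 1271251), [(nat_lit 1100000), (nat_lit 1785001), (nat_lit 1271251)], [(nat_lit 18), (nat_lit 59), (nat_lit 483), (nat_lit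 250), (nat_lit 12)]⟩,
 ⟨⟨[(nat_lit 140), (nat_lit 180), (nat_lit 200)], [(nat_lit 0), (nat_lit 0), (nat_lit 2835)], [((nat_lit 0), (nat_lit 0), (nat_lit 0)), ((nat_lit 0), (nat_lit 0), (nat_lit 0)), ((nat_lit 363), (nat_lit 1000), (nat_lit 798))], ((nat_lit 0), (nat_lit 0), (nat_lit 0))⟩, (nat_lit 45947), (nat_lit 300), (nat_lit 1453), (nat_lit 13042702), (nat_lit 2339932), [(nat_lit 1643614000), (nat_lit 2347686000), (nat_lit 2738800000)], [], [(nat_lit 10849173743), (nat_lit 10181518288), (nat_lit 10034996398), (nat_lit 9365813351), (nat_lit 10195062904), (nat_lit 9503243017), (nat_lit 9350164712), (nat_lit 8672270024)], (nat_lit 780000), (nat_lit 1598751), (nat_lit 780000), (nat_lit 1762501), (nat_lit 1271251), (nat_lit 1271251), [(nat_lit 1977501), (nat_lit 1271251), (nat_lit 1271251)], [(nat_lit 32), (nat_lit 67), (nat_lit 471), (nat_lit 225), (nat_lit 10)]⟩⟩)))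
noncomputable def c11_73 : Tr Lf :=
 (.spl (nat_lit 5) (nat_lit 200) (.spl (nat_lit 1) (nat_lit 280) (.leaf ⟨(nat_lit 847), (nat_lit 139), (nat_lit 0), (nat_lit 14), (nat_lit 0), (nat_lit 3249), (nat_lit 1090), (nat_lit 201), (nat_lit 0), (nat_lit 0), (nat_lit 211750), [((nat_lit 340), [((nat_lit 19), (nat_lit 0), (nat_lit 847))])], ⟨(nat_lit 6), false, false, false, (nat_lit 199), (nat_lit 3872), (nat_lit 4473), [(nat_lit 1407125), (nat_lit 1414492), (nat_lit 1450223), (nat_lit 1458043), (nat_lit 1543097), (nat_lit 1543551), (nat_lit 1586195), (nat_lit 1587102)]⟩, ⟨(nat_lit 6), false, false, true, (nat_lit 209), (nat_lit 3872), (nat_lit 4473), [(nat_lit 1481711), (nat_lit 1477347), (nat_lit 1503277), (nat_lit 1499140), (nat_lit 1549689), (nat_lit 1541869), (nat_lit 1571255), (nat_lit 1563662)]⟩, (nat_lit 4974426), (nat_lit 41792588), (nat_lit 12117681), (nat_lit 13089731), (nat_lit 6), (nat_lit 0), [], [], [], [],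
 ⟨⟨[(nat_lit 40), (nat_lit 80), (nat_lit 120)], [(nat_lit 0), (nat_lit 0), (nat_lit 2151)], [((nat_lit 0), (nat_lit 0), (nat_lit 0)), ((nat_lit 0), (nat_lit 0), (nat_lit 0)), ((nat_lit 1000), (nat_lit 815), (nat_lit 753))], ((nat_lit 80), (nat_lit 100), (nat_lit 63))⟩, (nat_lit 0), (nat_lit 52), (nat_lit 52), (nat_lit 0), (nat_lit 0), [(nat_lit 1581506821), (nat_lit 104426082191), (nat_lit 3676759200)], [(nat_lit 0), (nat_lit 0), (nat_lit 0)], [(nat_lit 18879645567), (nat_lit 20293144710), (nat_lit 20573149237), (nat_lit 21831609962), (nat_lit 20894116080), (nat_lit 22243941073), (nat_lit 22366827152), (nat_lit 23527418412)], (nat_lit 0), (nat_lit 0), (nat_lit 0), (nat_lit 0), (nat_lit 0), (nat_lit 0), [], [(nat_lit 4), (nat_lit 51), (nat_lit 260), (nat_lit 50), (nat_lit 7)]⟩,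
 ⟨⟨[(nat_lit 80), (nat_lit 120), (nat_lit 160)], [(nat_lit 0), (nat_lit 0), (nat_lit 2132)], [((nat_lit 0), (nat_lit 0), (nat_lit 0)), ((nat_lit 0), (nat_lit 0), (nat_lit 0)), ((nat_lit 858), (nat_lit 1000), (nat_lit 713))], ((nat_lit 100), (nat_lit 91), (nat_lit 64))⟩, (nat_lit 131374), (nat_lit 484), (nat_lit 484), (nat_lit 0), (nat_lit 392143), [(nat_lit 717264000), (nat_lit 1219104000), (nat_lit 1816416000)], [], [(nat_lit 5525082362), (nat_lit 5801464911), (nat_lit 5682736256), (nat_lit 5859447047), (nat_lit 6373048436), (nat_lit 5379073621), (nat_lit 7641763778), (nat_lit 6673138003)], (nat_lit 1271251), (nat_lit 1271251), (nat_lit 780000), (nat_lit 1435001), (nat_lit 0), (nat_lit 1412501), [(nat_lit 1100000), (nat_lit 1785001), (nat_lit 1271251)], [(nat_lit 18), (nat_lit 59), (nat_lit 401), (nat_lit 175), (nat_lit 10)]⟩,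
 ⟨⟨[(nat_lit 140), (nat_lit 180), (nat_lit 200)], [(nat_lit 0), (nat_lit 0), (nat_lit 2835)], [((nat_lit 0), (nat_lit 0), (nat_lit 0)), ((nat_lit 0), (nat_lit 0), (nat_lit 0)), ((nat_lit 363), (nat_lit 1000), (nat_lit 798))], ((nat_lit 0), (nat_lit 0), (nat_lit 0))⟩, (nat_lit 3852), (nat_lit 300), (nat_lit 1421), (nat_lit 1093400), (nat_lit 2135627), [(nat_lit 137788000), (nat_lit 196812000), (nat_lit 229600000)], [], [(nat_lit 925897724), (nat_lit 908603998), (nat_lit 919804722), (nat_lit 903204037), (nat_lit 698236856), (nat_lit 681923357), (nat_lit 690191475), (nat_lit 673571910)], (nat_lit 780000), (nat_lit 936250), (nat_lit 1271251), (nat_lit 1271251), (nat_lit 0), (nat_lit 1412501), [(nat_lit 1977501), (nat_lit 1271251), (nat_lit 1271251)], [(nat_lit 32), (nat_lit 67), (nat_lit 433), (nat_lit 175), (nat_lit 9)]⟩⟩) (.leaf ⟨(nat_lit 0), (nat_lit 941), (nat_lit 0), (nat_lit 59), (nat_lit 0), (nat_lit 3706), (nat_lit 6405), (nat_lit 838), (nat_lit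 0), (nat_lit 0), (nat_lit 0), [], Pd.none, Pd.none, (nat_lit 0), (nat_lit 1), (nat_lit 0), (nat_lit 0), (nat_lit 6), (nat_lit 0), [], [⟨(nat_lit 1), (nat_lit 93), (nat_lit 81), (nat_lit 100), (nat_lit 311681733)⟩], [], [],
 ⟨⟨[(nat_lit 40), (nat_lit 80), (nat_lit 120)], [(nat_lit 0), (nat_lit 0), (nat_lit 2151)], [((nat_lit 0), (nat_lit 0), (nat_lit 0)), ((nat_lit 0), (nat_lit 0), (nat_lit 0)), ((nat_lit 1000), (nat_lit 815), (nat_lit 753))], ((nat_lit 80), (nat_lit 100), (nat_lit 63))⟩, (nat_lit 0), (nat_lit 52), (nat_lit 52), (nat_lit 0), (nat_lit 0), [(nat_lit 2032000007), (nat_lit 103783082778), (nat_lit 7968000000)], [], [(nat_lit 19090558331), (nat_lit 20600476476), (nat_lit 20743768311), (nat_lit 22083586461), (nat_lit 21210475653), (nat_lit 22594484065), (nat_lit 22622372821), (nat_lit 23854196448)], (nat_lit 0), (nat_lit 0), (nat_lit 0), (nat_lit 0), (nat_lit 0), (nat_lit 0), [], [(nat_lit 4), (nat_lit 51), (nat_lit 260), (nat_lit 50), (nat_lit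 7)]⟩,
 ⟨⟨[(nat_lit 60), (nat_lit 100), (nat_lit 140)], [(nat_lit 0), (nat_lit 0), (nat_lit 2047)], [((nat_lit 0), (nat_lit 0), (nat_lit 0)), ((nat_lit 0), (nat_lit 0), (nat_lit 0)), ((nat_lit 1000), (nat_lit 993), (nat_lit 781))], ((nat_lit 95), (nat_lit 100), (nat_lit 65))⟩, (nat_lit 2596525), (nat_lit 472), (nat_lit 472), (nat_lit 0), (nat_lit 553960), [(nat_lit 3282000000), (nat_lit 6250000000), (nat_lit 9842000000)], [], [(nat_lit 30898323755), (nat_lit 32791221875), (nat_lit 31534971405), (nat_lit 33248659095), (nat_lit 30568450968), (nat_lit 30089962580), (nat_lit 38286015128), (nat_lit 32520749730)], (nat_lit 1271251), (nat_lit 1271251), (nat_lit 780000), (nat_lit 1435001), (nat_lit 0), (nat_lit 1412501), [(nat_lit 780000), (nat_lit 1435001), (nat_lit 1271251)], [(nat_lit 11), (nat_lit 55), (nat_lit 317), (nat_lit 100), (nat_lit 9)]⟩,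
 ⟨⟨[(nat_lit 140), (nat_lit 180), (nat_lit 200)], [(nat_lit 0), (nat_lit 0), (nat_lit 2835)], [((nat_lit 0), (nat_lit 0), (nat_lit 0)), ((nat_lit 0), (nat_lit 0), (nat_lit 0)), ((nat_lit 363), (nat_lit 1000), (nat_lit 798))], ((nat_lit 0), (nat_lit 0), (nat_lit 0))⟩, (nat_lit 16233), (nat_lit 300), (nat_lit 2369), (nat_lit 4607900), (nat_lit 4080838), [(nat_lit 580678000), (nat_lit 829422000), (nat_lit 967600000)], [], [(nat_lit 3912983160), (nat_lit 3841068982), (nat_lit 3888033636), (nat_lit 3814678616), (nat_lit 2965474892), (nat_lit 2897637614), (nat_lit 2932354753), (nat_lit 2863238187)], (nat_lit 780000), (nat_lit 936250), (nat_lit 1271251), (nat_lit 1271251), (nat_lit 0), (nat_lit 1412501), [(nat_lit 1977501), (nat_lit 1271251), (nat_lit 1271251)], [(nat_lit 32), (nat_lit 67), (nat_lit 670), (nat_lit 175), (nat_lit 14)]⟩⟩)) (.spl (nat_lit 1) (nat_lit 280) (.leaf ⟨(nat_lit 966), (nat_lit 17), (nat_lit 0), (nat_lit 17), (nat_lit 0), (nat_lit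 3156), (nat_lit 325), (nat_lit 194), (nat_lit 0), (nat_lit 0), (nat_lit 241500), [((nat_lit 340), [((nat_lit 19), (nat_lit 0), (nat_lit 966))])], ⟨(nat_lit 6), false, false, false, (nat_lit 199), (nat_lit 3872), (nat_lit 4473), [(nat_lit 1407125), (nat_lit 1414492), (nat_lit 1450223), (nat_lit 1458043), (nat_lit 1543097), (nat_lit 1543551), (nat_lit 1586195), (nat_lit 1587102)]⟩, ⟨(nat_lit 6), false, false, true, (nat_lit 209), (nat_lit 3872), (nat_lit 4473), [(nat_lit 1481711), (nat_lit 1477347), (nat_lit 1503277), (nat_lit 1499140), (nat_lit 1549689), (nat_lit 1541869), (nat_lit 1571255), (nat_lit 1563662)]⟩, (nat_lit 4974426), (nat_lit 41792588), (nat_lit 12117681), (nat_lit 13089731), (nat_lit 6), (nat_lit 0), [], [], [⟨(nat_lit 1), (nat_lit 64), (nat_lit 100), (nat_lit 98), (nat_lit 249020)⟩], [],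
 ⟨⟨[(nat_lit 40), (nat_lit 80), (nat_lit 120)], [(nat_lit 0), (nat_lit 0), (nat_lit 2151)], [((nat_lit 0), (nat_lit 0), (nat_lit 0)), ((nat_lit 0), (nat_lit 0), (nat_lit 0)), ((nat_lit 1000), (nat_lit 815), (nat_lit 753))], ((nat_lit 80), (nat_lit 100), (nat_lit 63))⟩, (nat_lit 0), (nat_lit 52), (nat_lit 52), (nat_lit 0), (nat_lit 0), [(nat_lit 1551090434), (nat_lit 104073615969), (nat_lit 3073857600)], [(nat_lit 0), (nat_lit 0), (nat_lit 0)], [(nat_lit 18897984058), (nat_lit 20291861828), (nat_lit 20599687538), (nat_lit 21841591938), (nat_lit 20890996030), (nat_lit 22172717447), (nat_lit 22376082798), (nat_lit 23521787700)], (nat_lit 0), (nat_lit 0), (nat_lit 0), (nat_lit 0), (nat_lit 0), (nat_lit 0), [], [(nat_lit 4), (nat_lit 51), (nat_lit 260), (nat_lit 50), (nat_lit 7)]⟩,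
 ⟨⟨[(nat_lit 80), (nat_lit 120), (nat_lit 160)], [(nat_lit 0), (nat_lit 0), (nat_lit 2132)], [((nat_lit 0), (nat_lit 0), (nat_lit 0)), ((nat_lit 0), (nat_lit 0), (nat_lit 0)), ((nat_lit 858), (nat_lit 1000), (nat_lit 713))], ((nat_lit 100), (nat_lit 91), (nat_lit 64))⟩, (nat_lit 111178), (nat_lit 337), (nat_lit 337), (nat_lit 0), (nat_lit 392143), [(nat_lit 159392000), (nat_lit 270912000), (nat_lit 403648000)], [], [(nat_lit 776663370), (nat_lit 840516051), (nat_lit 982262429), (nat_lit 827495380), (nat_lit 1055606038), (nat_lit 1099283563), (nat_lit 1026137178), (nat_lit 1079096624)], (nat_lit 1271251), (nat_lit 1271251), (nat_lit 780000), (nat_lit 1435001), (nat_lit 1271251), (nat_lit 1271251), [(nat_lit 1100000), (nat_lit 1785001), (nat_lit 1271251)], [(nat_lit 18), (nat_lit 59), (nat_lit 456), (nat_lit 225), (nat_lit 11)]⟩,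
 ⟨⟨[(nat_lit 140), (nat_lit 180), (nat_lit 200)], [(nat_lit 0), (nat_lit 0), (nat_lit 2835)], [((nat_lit 0), (nat_lit 0), (nat_lit 0)), ((nat_lit 0), (nat_lit 0), (nat_lit 0)), ((nat_lit 363), (nat_lit 1000), (nat_lit 798))], ((nat_lit 0), (nat_lit 0), (nat_lit 0))⟩, (nat_lit 4677), (nat_lit 300), (nat_lit 1295), (nat_lit 1327704), (nat_lit 2135627), [(nat_lit 167314000), (nat_lit 238986000), (nat_lit 278800000)], [], [(nat_lit 1019858632), (nat_lit 1004237273), (nat_lit 1003162893), (nat_lit 987457409), (nat_lit 953258078), (nat_lit 937039228), (nat_lit 937292938), (nat_lit 920973139)], (nat_lit 780000), (nat_lit 936250), (nat_lit 1271251), (nat_lit 1271251), (nat_lit 1271251), (nat_lit 1271251), [(nat_lit 1977501), (nat_lit 1271251), (nat_lit 1271251)], [(nat_lit 32), (nat_lit 67), (nat_lit 428), (nat_lit 200), (nat_lit 9)]⟩⟩) (.trX (nat_lit 5) (nat_lit 1) (nat_lit 2) (nat_lit 96) (nat_lit 69) (nat_lit 100) (nat_lit 360) (.leaf ⟨(nat_lit 500),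 (nat_lit 455), (nat_lit 0), (nat_lit 45), (nat_lit 0), (nat_lit 3306), (nat_lit 3847), (nat_lit 517), (nat_lit 0), (nat_lit 0), (nat_lit 125000), [((nat_lit 340), [((nat_lit 19), (nat_lit 0), (nat_lit 500))])], ⟨(nat_lit 7), false, false, false, (nat_lit 217), (nat_lit 3872), (nat_lit 4473), [(nat_lit 1450223), (nat_lit 1458043), (nat_lit 1493321), (nat_lit 1501595), (nat_lit 1586195), (nat_lit 1587102), (nat_lit 1629293), (nat_lit 1630654)]⟩, ⟨(nat_lit 6), false, false, true, (nat_lit 209), (nat_lit 3872), (nat_lit 4473), [(nat_lit 1481711), (nat_lit 1477347), (nat_lit 1503277), (nat_lit 1499140), (nat_lit 1549689), (nat_lit 1541869), (nat_lit 1571255), (nat_lit 1563662)]⟩, (nat_lit 5093358), (nat_lit 40575326), (nat_lit 13580054), (nat_lit 12844620), (nat_lit 6), (nat_lit 0), [⟨(nat_lit 0), (nat_lit 92), (nat_lit 81), (nat_lit 100), (nat_lit 236625105)⟩, ⟨(nat_lit 0), (nat_lit 81), (nat_lit 72), (nat_lit 100), (nat_lit 49500084)⟩], [⟨(nat_lit 1),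 (nat_lit 93), (nat_lit 81), (nat_lit 100), (nat_lit 28797164)⟩], [⟨(nat_lit 1), (nat_lit 82), (nat_lit 92), (nat_lit 100), (nat_lit 183435565)⟩], [],
 ⟨⟨[(nat_lit 40), (nat_lit 80), (nat_lit 120)], [(nat_lit 0), (nat_lit 0), (nat_lit 2151)], [((nat_lit 0), (nat_lit 0), (nat_lit 0)), ((nat_lit 0), (nat_lit 0), (nat_lit 0)), ((nat_lit 1000), (nat_lit 815), (nat_lit 753))], ((nat_lit 80), (nat_lit 100), (nat_lit 63))⟩, (nat_lit 0), (nat_lit 52), (nat_lit 52), (nat_lit 0), (nat_lit 0), [(nat_lit 1682400022), (nat_lit 103441868911), (nat_lit 5434800000)], [(nat_lit 0), (nat_lit 0), (nat_lit 0)], [(nat_lit 18950656746), (nat_lit 20376181891), (nat_lit 20639134726), (nat_lit 21907742876), (nat_lit 20978279268), (nat_lit 22287870798), (nat_lit 22443405236), (nat_lit 23612597063)], (nat_lit 0), (nat_lit 0), (nat_lit 0), (nat_lit 0), (nat_lit 0), (nat_lit 0), [], [(nat_lit 4), (nat_lit 51), (nat_lit 260), (nat_lit 50), (nat_lit 7)]⟩,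
 ⟨⟨[(nat_lit 60), (nat_lit 100), (nat_lit 140)], [(nat_lit 0), (nat_lit 0), (nat_lit 2047)], [((nat_lit 0), (nat_lit 0), (nat_lit 0)), ((nat_lit 0), (nat_lit 0), (nat_lit 0)), ((nat_lit 1000), (nat_lit 993), (nat_lit 781))], ((nat_lit 95), (nat_lit 100), (nat_lit 65))⟩, (nat_lit 1340987), (nat_lit 342), (nat_lit 342), (nat_lit 0), (nat_lit 553960), [(nat_lit 1641000000), (nat_lit 3125000000), (nat_lit 4921000000)], [], [(nat_lit 11117083037), (nat_lit 12194786595), (nat_lit 11373155045), (nat_lit 12296596216), (nat_lit 14490574425), (nat_lit 15302827347), (nat_lit 14424911115), (nat_lit 15199272903)], (nat_lit 1271251), (nat_lit 1271251), (nat_lit 780000), (nat_lit 1435001), (nat_lit 1271251), (nat_lit 1271251), [(nat_lit 780000), (nat_lit 1435001), (nat_lit 1271251)], [(nat_lit 11), (nat_lit 55), (nat_lit 373), (nat_lit 150), (nat_lit 10)]⟩,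
 ⟨⟨[(nat_lit 140), (nat_lit 180), (nat_lit 200)], [(nat_lit 0), (nat_lit 0), (nat_lit 2835)], [((nat_lit 0), (nat_lit 0), (nat_lit 0)), ((nat_lit 0), (nat_lit 0), (nat_lit 0)), ((nat_lit 363), (nat_lit 1000), (nat_lit 798))], ((nat_lit 0), (nat_lit 0), (nat_lit 0))⟩, (nat_lit 12381), (nat_lit 300), (nat_lit 2259), (nat_lit 3514500), (nat_lit 4080838), [(nat_lit 442890000), (nat_lit 632610000), (nat_lit 738000000)], [], [(nat_lit 2687416914), (nat_lit 2652433365), (nat_lit 2634356315), (nat_lit 2596638557), (nat_lit 2514464332), (nat_lit 2471489375), (nat_lit 2472925718), (nat_lit 2429661066)], (nat_lit 780000), (nat_lit 936250), (nat_lit 1271251), (nat_lit 1271251), (nat_lit 1271251), (nat_lit 1271251), [(nat_lit 1977501), (nat_lit 1271251), (nat_lit 1271251)], [(nat_lit 32), (nat_lit 67), (nat_lit 663), (nat_lit 200), (nat_lit 13)]⟩⟩))))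
noncomputable def c11_74 : Tr Lf :=
 (.spl (nat_lit 1) (nat_lit 280) (.spl (nat_lit 5) (nat_lit 120) (.leaf ⟨(nat_lit 754), (nat_lit 211), (nat_lit 0), (nat_lit 35), (nat_lit 3587), (nat_lit 4536), (nat_lit 1753), (nat_lit 501), (nat_lit 0), (nat_lit 0), (nat_lit 188500), [((nat_lit 340), [((nat_lit 19), (nat_lit 0), (nat_lit 754))])], ⟨(nat_lit 6), false, false, false, (nat_lit 199), (nat_lit 3872), (nat_lit 4473), [(nat_lit 1407125), (nat_lit 1414492), (nat_lit 1450223), (nat_lit 1458043), (nat_lit 1543097), (nat_lit 1543551), (nat_lit 1586195), (nat_lit 1587102)]⟩, ⟨(nat_lit 7), false, false, true, (nat_lit 236), (nat_lit 3872), (nat_lit 4473), [(nat_lit 1549689), (nat_lit 1541869), (nat_lit 1571255), (nat_lit 1563662), (nat_lit 1617667), (nat_lit 1606390), (nat_lit 1639234), (nat_lit 1628183)]⟩, (nat_lit 5136726), (nat_lit 39870518), (nat_lit 11755362), (nat_lit 15374120), (nat_lit 7), (nat_lit 0), [], [⟨(nat_lit 1), (nat_lit 93), (nat_lit 81),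 (nat_lit 100), (nat_lit 330361259)⟩], [], [],
 ⟨⟨[(nat_lit 40), (nat_lit 80), (nat_lit 120)], [(nat_lit 0), (nat_lit 0), (nat_lit 2151)], [((nat_lit 0), (nat_lit 0), (nat_lit 0)), ((nat_lit 0), (nat_lit 0), (nat_lit 0)), ((nat_lit 1000), (nat_lit 815), (nat_lit 753))], ((nat_lit 80), (nat_lit 100), (nat_lit 63))⟩, (nat_lit 0), (nat_lit 64), (nat_lit 64), (nat_lit 0), (nat_lit 0), [(nat_lit 1827954783), (nat_lit 2789729644), (nat_lit 4147934400)], [(nat_lit 0), (nat_lit 0), (nat_lit 0)], [(nat_lit 22115866468), (nat_lit 23502188016), (nat_lit 23275710612), (nat_lit 24505340104), (nat_lit 24196323628), (nat_lit 25491200788), (nat_lit 25105947068), (nat_lit 26263959636)], (nat_lit 0), (nat_lit 0), (nat_lit 0), (nat_lit 0), (nat_lit 0), (nat_lit 0), [], [(nat_lit 4), (nat_lit 51), (nat_lit 260), (nat_lit 50), (nat_lit 7)]⟩,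
 ⟨⟨[(nat_lit 80), (nat_lit 120), (nat_lit 160)], [(nat_lit 0), (nat_lit 0), (nat_lit 2132)], [((nat_lit 0), (nat_lit 0), (nat_lit 0)), ((nat_lit 0), (nat_lit 0), (nat_lit 0)), ((nat_lit 858), (nat_lit 1000), (nat_lit 713))], ((nat_lit 100), (nat_lit 91), (nat_lit 64))⟩, (nat_lit 923958), (nat_lit 414), (nat_lit 414), (nat_lit 0), (nat_lit 325167), [(nat_lit 1153248000), (nat_lit 1960128000), (nat_lit 2920512000)], [], [(nat_lit 8864973980), (nat_lit 7808132961), (nat_lit 9136629002), (nat_lit 8015710171), (nat_lit 8472389025), (nat_lit 6982577477), (nat_lit 10426546508), (nat_lit 8827979673)], (nat_lit 1271251), (nat_lit 1271251), (nat_lit 780000), (nat_lit 1435001), (nat_lit 0), (nat_lit 780000), [(nat_lit 1100000), (nat_lit 1785001), (nat_lit 1271251)], [(nat_lit 18), (nat_lit 59), (nat_lit 373), (nat_lit 150), (nat_lit 10)]⟩,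
 ⟨⟨[(nat_lit 140), (nat_lit 180), (nat_lit 200)], [(nat_lit 0), (nat_lit 0), (nat_lit 2835)], [((nat_lit 0), (nat_lit 0), (nat_lit 0)), ((nat_lit 0), (nat_lit 0), (nat_lit 0)), ((nat_lit 363), (nat_lit 1000), (nat_lit 798))], ((nat_lit 0), (nat_lit 0), (nat_lit 0))⟩, (nat_lit 9630), (nat_lit 300), (nat_lit 1053), (nat_lit 2733500), (nat_lit 1347323), [(nat_lit 344470000), (nat_lit 492030000), (nat_lit 574000000)], [], [(nat_lit 2301448722), (nat_lit 2257753951), (nat_lit 2322409304), (nat_lit 2280597678), (nat_lit 1878564736), (nat_lit 1837114866), (nat_lit 1862414980), (nat_lit 1823913727)], (nat_lit 780000), (nat_lit 936250), (nat_lit 1271251), (nat_lit 1271251), (nat_lit 0), (nat_lit 780000), [(nat_lit 1977501), (nat_lit 1271251), (nat_lit 1271251)], [(nat_lit 32), (nat_lit 67), (nat_lit 373), (nat_lit 150), (nat_lit 8)]⟩⟩) (.spl (nat_lit 0) (nat_lit 330) (.leaf ⟨(nat_lit 902), (nat_lit 56), (nat_lit 0), (nat_lit 42), (nat_lit 0), (nat_lit 4348),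 (nat_lit 634), (nat_lit 488), (nat_lit 0), (nat_lit 0), (nat_lit 225500), [((nat_lit 330), [((nat_lit 19), (nat_lit 0), (nat_lit 902))])], ⟨(nat_lit 6), false, false, false, (nat_lit 199), (nat_lit 4183), (nat_lit 4473), [(nat_lit 1407167), (nat_lit 1410812), (nat_lit 1450291), (nat_lit 1454137), (nat_lit 1543125), (nat_lit 1543325), (nat_lit 1586250), (nat_lit 1586650)]⟩, ⟨(nat_lit 7), false, false, true, (nat_lit 237), (nat_lit 4183), (nat_lit 4473), [(nat_lit 1549689), (nat_lit 1545843), (nat_lit 1571255), (nat_lit 1567510), (nat_lit 1617667), (nat_lit 1612099), (nat_lit 1639234), (nat_lit 1633765)]⟩, (nat_lit 5138957), (nat_lit 39827123), (nat_lit 11709187), (nat_lit 15463690), (nat_lit 7), (nat_lit 0), [], [⟨(nat_lit 1), (nat_lit 92), (nat_lit 83), (nat_lit 100), (nat_lit 263721200)⟩], [], [],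
 ⟨⟨[(nat_lit 40), (nat_lit 80), (nat_lit 120)], [(nat_lit 0), (nat_lit 0), (nat_lit 2151)], [((nat_lit 0), (nat_lit 0), (nat_lit 0)), ((nat_lit 0), (nat_lit 0), (nat_lit 0)), ((nat_lit 1000), (nat_lit 815), (nat_lit 753))], ((nat_lit 80), (nat_lit 100), (nat_lit 63))⟩, (nat_lit 0), (nat_lit 59), (nat_lit 59), (nat_lit 0), (nat_lit 0), [(nat_lit 1692001364), (nat_lit 2417124810), (nat_lit 3402595970)], [(nat_lit 0), (nat_lit 0), (nat_lit 0)], [(nat_lit 21854367942), (nat_lit 22532393612), (nat_lit 23042058834), (nat_lit 23644165650), (nat_lit 23898271322), (nat_lit 24589583877), (nat_lit 24848473144), (nat_lit 25485442521)], (nat_lit 0), (nat_lit 0), (nat_lit 0), (nat_lit 0), (nat_lit 0), (nat_lit 0), [], [(nat_lit 4), (nat_lit 51), (nat_lit 260), (nat_lit 50), (nat_lit 7)]⟩,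
 ⟨⟨[(nat_lit 80), (nat_lit 120), (nat_lit 160)], [(nat_lit 0), (nat_lit 0), (nat_lit 2132)], [((nat_lit 0), (nat_lit 0), (nat_lit 0)), ((nat_lit 0), (nat_lit 0), (nat_lit 0)), ((nat_lit 858), (nat_lit 1000), (nat_lit 713))], ((nat_lit 100), (nat_lit 91), (nat_lit 64))⟩, (nat_lit 0), (nat_lit 253), (nat_lit 253), (nat_lit 0), (nat_lit 271907), [(nat_lit 459424000), (nat_lit 780864000), (nat_lit 1163456000)], [], [(nat_lit 3717420022), (nat_lit 3051722558), (nat_lit 2946002066), (nat_lit 3131939675), (nat_lit 4522133196), (nat_lit 3947771516), (nat_lit 5291252763), (nat_lit 4731437262)], (nat_lit 1271251), (nat_lit 1271251), (nat_lit 780000), (nat_lit 1435001), (nat_lit 780000), (nat_lit 2908751), [(nat_lit 1100000), (nat_lit 1785001), (nat_lit 1271251)], [(nat_lit 18), (nat_lit 59), (nat_lit 456), (nat_lit 225), (nat_lit 11)]⟩,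
 ⟨⟨[(nat_lit 140), (nat_lit 180), (nat_lit 200)], [(nat_lit 0), (nat_lit 0), (nat_lit 2835)], [((nat_lit 0), (nat_lit 0), (nat_lit 0)), ((nat_lit 0), (nat_lit 0), (nat_lit 0)), ((nat_lit 363), (nat_lit 1000), (nat_lit 798))], ((nat_lit 0), (nat_lit 0), (nat_lit 0))⟩, (nat_lit 11556), (nat_lit 300), (nat_lit 1017), (nat_lit 3280200), (nat_lit 1459510), [(nat_lit 413364000), (nat_lit 590436000), (nat_lit 688800000)], [], [(nat_lit 2575166154), (nat_lit 2535216276), (nat_lit 2544040992), (nat_lit 2503782748), (nat_lit 2288202515), (nat_lit 2246990852), (nat_lit 2259969930), (nat_lit 2218264807)], (nat_lit 780000), (nat_lit 936250), (nat_lit 1271251), (nat_lit 1271251), (nat_lit 780000), (nat_lit 2908751), [(nat_lit 1977501), (nat_lit 1271251), (nat_lit 1271251)], [(nat_lit 32), (nat_lit 67), (nat_lit 456), (nat_lit 225), (nat_lit 9)]⟩⟩) (.trX (nat_lit 4) (nat_lit 0) (nat_lit 2) (nat_lit 80) (nat_lit 89) (nat_lit 100) (nat_lit 310) (.leaf ⟨(nat_lit 938),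 (nat_lit 36), (nat_lit 0), (nat_lit 26), (nat_lit 0), (nat_lit 4265), (nat_lit 565), (nat_lit 321), (nat_lit 0), (nat_lit 0), (nat_lit 234500), [((nat_lit 340), [((nat_lit 19), (nat_lit 0), (nat_lit 938))])], ⟨(nat_lit 6), false, false, false, (nat_lit 200), (nat_lit 3872), (nat_lit 4184), [(nat_lit 1410806), (nat_lit 1414527), (nat_lit 1454130), (nat_lit 1458104), (nat_lit 1543323), (nat_lit 1543576), (nat_lit 1586647), (nat_lit 1587153)]⟩, ⟨(nat_lit 7), false, false, true, (nat_lit 232), (nat_lit 3872), (nat_lit 4184), [(nat_lit 1545843), (nat_lit 1541869), (nat_lit 1567510), (nat_lit 1563662), (nat_lit 1595535), (nat_lit 1590260), (nat_lit 1617201), (nat_lit 1612053)]⟩, (nat_lit 5116760), (nat_lit 40147145), (nat_lit 11849138), (nat_lit 15003717), (nat_lit 7), (nat_lit 0), [], [⟨(nat_lit 1), (nat_lit 95), (nat_lit 79), (nat_lit 100), (nat_lit 274823204)⟩], [], [],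
 ⟨⟨[(nat_lit 40), (nat_lit 80), (nat_lit 100)], [(nat_lit 0), (nat_lit 395), (nat_lit 1536)], [((nat_lit 0), (nat_lit 0), (nat_lit 0)), ((nat_lit 1000), (nat_lit 908), (nat_lit 154)), ((nat_lit 1000), (nat_lit 760), (nat_lit 642))], ((nat_lit 76), (nat_lit 100), (nat_lit 63))⟩, (nat_lit 0), (nat_lit 61), (nat_lit 61), (nat_lit 0), (nat_lit 0), [(nat_lit 1668936729), (nat_lit 2326491201), (nat_lit 2778107599)], [(nat_lit 0), (nat_lit 0), (nat_lit 0)], [(nat_lit 22484130268), (nat_lit 23155473950), (nat_lit 23609267921), (nat_lit 24205764320), (nat_lit 23959085624), (nat_lit 24674179459), (nat_lit 24926451791), (nat_lit 25573740202)], (nat_lit 0), (nat_lit 0), (nat_lit 0), (nat_lit 0), (nat_lit 0), (nat_lit 0), [], [(nat_lit 3), (nat_lit 50), (nat_lit 260), (nat_lit 50), (nat_lit 8)]⟩,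
 ⟨⟨[(nat_lit 80), (nat_lit 120), (nat_lit 160)], [(nat_lit 0), (nat_lit 0), (nat_lit 2132)], [((nat_lit 0), (nat_lit 0), (nat_lit 0)), ((nat_lit 0), (nat_lit 0), (nat_lit 0)), ((nat_lit 858), (nat_lit 1000), (nat_lit 713))], ((nat_lit 100), (nat_lit 91), (nat_lit 64))⟩, (nat_lit 0), (nat_lit 351), (nat_lit 351), (nat_lit 0), (nat_lit 392143), [(nat_lit 290656000), (nat_lit 494016000), (nat_lit 736064000)], [], [(nat_lit 2604289675), (nat_lit 2011469205), (nat_lit 1896683098), (nat_lit 2010590675), (nat_lit 2962992474), (nat_lit 2451140188), (nat_lit 3582030410), (nat_lit 3083141201)], (nat_lit 1271251), (nat_lit 1271251), (nat_lit 780000), (nat_lit 1435001), (nat_lit 780000), (nat_lit 2908751), [(nat_lit 1100000), (nat_lit 1785001), (nat_lit 1271251)], [(nat_lit 18), (nat_lit 59), (nat_lit 456), (nat_lit 225), (nat_lit 11)]⟩,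
 ⟨⟨[(nat_lit 140), (nat_lit 180), (nat_lit 200)], [(nat_lit 0), (nat_lit 0), (nat_lit 2835)], [((nat_lit 0), (nat_lit 0), (nat_lit 0)), ((nat_lit 0), (nat_lit 0), (nat_lit 0)), ((nat_lit 363), (nat_lit 1000), (nat_lit 798))], ((nat_lit 0), (nat_lit 0), (nat_lit 0))⟩, (nat_lit 7153), (nat_lit 300), (nat_lit 1320), (nat_lit 2030607), (nat_lit 2135627), [(nat_lit 255892000), (nat_lit 365508000), (nat_lit 426400000)], [], [(nat_lit 1519362389), (nat_lit 1492779662), (nat_lit 1503872733), (nat_lit 1477902312), (nat_lit 1359216434), (nat_lit 1331697484), (nat_lit 1353582719), (nat_lit 1326569553)], (nat_lit 780000), (nat_lit 936250), (nat_lit 1271251), (nat_lit 1271251), (nat_lit 780000), (nat_lit 2908751), [(nat_lit 1977501), (nat_lit 1271251), (nat_lit 1271251)], [(nat_lit 32), (nat_lit 67), (nat_lit 456), (nat_lit 225), (nat_lit 9)]⟩⟩)))) (.trX (nat_lit 5) (nat_lit 1) (nat_lit 2) (nat_lit 96) (nat_lit 69) (nat_lit 100) (nat_lit 360) (.spl (nat_lit 5)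 (nat_lit 200) (.leaf ⟨(nat_lit 0), (nat_lit 935), (nat_lit 0), (nat_lit 65), (nat_lit 0), (nat_lit 6339), (nat_lit 6715), (nat_lit 933), (nat_lit 0), (nat_lit 0), (nat_lit 0), [], Pd.none, Pd.none, (nat_lit 0), (nat_lit 1), (nat_lit 0), (nat_lit 0), (nat_lit 7), (nat_lit 0), [⟨(nat_lit 0), (nat_lit 81), (nat_lit 72), (nat_lit 100), (nat_lit 13388979)⟩], [⟨(nat_lit 1), (nat_lit 93), (nat_lit 81), (nat_lit 100), (nat_lit 647796354)⟩], [], [],
 ⟨⟨[(nat_lit 40), (nat_lit 80), (nat_lit 120)], [(nat_lit 0), (nat_lit 0), (nat_lit 2151)], [((nat_lit 0), (nat_lit 0), (nat_lit 0)), ((nat_lit 0), (nat_lit 0), (nat_lit 0)), ((nat_lit 1000), (nat_lit 815), (nat_lit 753))], ((nat_lit 80), (nat_lit 100), (nat_lit 63))⟩, (nat_lit 0), (nat_lit 64), (nat_lit 64), (nat_lit 0), (nat_lit 0), [(nat_lit 2630809772), (nat_lit 4688000001), (nat_lit 7968000000)], [], [(nat_lit 22948580052), (nat_lit 24625205786), (nat_lit 23841362033), (nat_lit 25315062980), (nat_lit 25491459710),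 (nat_lit 27265705275), (nat_lit 26060151942), (nat_lit 27621462677)], (nat_lit 0), (nat_lit 0), (nat_lit 0), (nat_lit 0), (nat_lit 0), (nat_lit 0), [], [(nat_lit 4), (nat_lit 51), (nat_lit 260), (nat_lit 50), (nat_lit 7)]⟩,
 ⟨⟨[(nat_lit 60), (nat_lit 100), (nat_lit 140)], [(nat_lit 0), (nat_lit 0), (nat_lit 2047)], [((nat_lit 0), (nat_lit 0), (nat_lit 0)), ((nat_lit 0), (nat_lit 0), (nat_lit 0)), ((nat_lit 1000), (nat_lit 993), (nat_lit 781))], ((nat_lit 95), (nat_lit 100), (nat_lit 65))⟩, (nat_lit 3180633), (nat_lit 472), (nat_lit 472), (nat_lit 0), (nat_lit 553960), [(nat_lit 3282000000), (nat_lit 6250000000), (nat_lit 9842000000)], [], [(nat_lit 29042800429), (nat_lit 31067346899), (nat_lit 29860911575), (nat_lit 31914239400), (nat_lit 29999822153), (nat_lit 28840708820), (nat_lit 37964106633), (nat_lit 31919804190)], (nat_lit 1271251), (nat_lit 1271251), (nat_lit 780000), (nat_lit 1435001), (nat_lit 0), (nat_lit 1412501), [(nat_lit 780000), (nat_lit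 1435001), (nat_lit 1271251)], [(nat_lit 11), (nat_lit 55), (nat_lit 317), (nat_lit 100), (nat_lit 9)]⟩,
 ⟨⟨[(nat_lit 140), (nat_lit 180), (nat_lit 200)], [(nat_lit 0), (nat_lit 0), (nat_lit 2835)], [((nat_lit 0), (nat_lit 0), (nat_lit 0)), ((nat_lit 0), (nat_lit 0), (nat_lit 0)), ((nat_lit 363), (nat_lit 1000), (nat_lit 798))], ((nat_lit 0), (nat_lit 0), (nat_lit 0))⟩, (nat_lit 17884), (nat_lit 300), (nat_lit 2352), (nat_lit 5076500), (nat_lit 4080838), [(nat_lit 639730000), (nat_lit 913770000), (nat_lit 1066000000)], [], [(nat_lit 4270798626), (nat_lit 4193410723), (nat_lit 4313719112), (nat_lit 4235794254), (nat_lit 3205020042), (nat_lit 3127879578), (nat_lit 3210373506), (nat_lit 3138156853)], (nat_lit 780000), (nat_lit 936250), (nat_lit 1271251), (nat_lit 1271251), (nat_lit 0), (nat_lit 1412501), [(nat_lit 1977501), (nat_lit 1271251), (nat_lit 1271251)], [(nat_lit 32), (nat_lit 67), (nat_lit 671), (nat_lit 175), (nat_lit 14)]⟩⟩) (.spl (nat_lit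 1) (nat_lit 300) (.leaf ⟨(nat_lit 258), (nat_lit 653), (nat_lit 0), (nat_lit 89), (nat_lit 0), (nat_lit 5799), (nat_lit 5869), (nat_lit 999), (nat_lit 0), (nat_lit 0), (nat_lit 64500), [((nat_lit 340), [((nat_lit 19), (nat_lit 0), (nat_lit 258))])], ⟨(nat_lit 7), false, false, false, (nat_lit 212), (nat_lit 3872), (nat_lit 4473), [(nat_lit 1450223), (nat_lit 1458043), (nat_lit 1471772), (nat_lit 1479819), (nat_lit 1586195), (nat_lit 1587102), (nat_lit 1607744), (nat_lit 1608878)]⟩, ⟨(nat_lit 7), false, false, true, (nat_lit 236), (nat_lit 3872), (nat_lit 4473), [(nat_lit 1549689), (nat_lit 1541869), (nat_lit 1571255), (nat_lit 1563662), (nat_lit 1617667), (nat_lit 1606390), (nat_lit 1639234), (nat_lit 1628183)]⟩, (nat_lit 5223679), (nat_lit 39038406), (nat_lit 12810555), (nat_lit 15151039), (nat_lit 7), (nat_lit 0), [⟨(nat_lit 0), (nat_lit 90), (nat_lit 74), (nat_lit 100), (nat_lit 502698236)⟩], [⟨(nat_lit 1), (nat_lit 93), (nat_lit 81), (nat_lit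 100), (nat_lit 493746203)⟩], [⟨(nat_lit 1), (nat_lit 78), (nat_lit 95), (nat_lit 100), (nat_lit 247008230)⟩], [],
 ⟨⟨[(nat_lit 40), (nat_lit 80), (nat_lit 120)], [(nat_lit 0), (nat_lit 0), (nat_lit 2151)], [((nat_lit 0), (nat_lit 0), (nat_lit 0)), ((nat_lit 0), (nat_lit 0), (nat_lit 0)), ((nat_lit 1000), (nat_lit 815), (nat_lit 753))], ((nat_lit 80), (nat_lit 100), (nat_lit 63))⟩, (nat_lit 0), (nat_lit 64), (nat_lit 64), (nat_lit 0), (nat_lit 0), [(nat_lit 2291956697), (nat_lit 4038459233), (nat_lit 6660868800)], [(nat_lit 0), (nat_lit 0), (nat_lit 0)], [(nat_lit 22618174424), (nat_lit 24207853813), (nat_lit 23590941745), (nat_lit 25002659075), (nat_lit 25052499110), (nat_lit 26734239705), (nat_lit 25731519822), (nat_lit 27214889387)], (nat_lit 0), (nat_lit 0), (nat_lit 0), (nat_lit 0), (nat_lit 0), (nat_lit 0), [], [(nat_lit 4), (nat_lit 51), (nat_lit 260), (nat_lit 50), (nat_lit 7)]⟩,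
 ⟨⟨[(nat_lit 60), (nat_lit 100), (nat_lit 140)], [(nat_lit 0), (nat_lit 0), (nat_lit 2047)], [((nat_lit 0), (nat_lit 0), (nat_lit 0)), ((nat_lit 0), (nat_lit 0), (nat_lit 0)), ((nat_lit 1000), (nat_lit 993), (nat_lit 781))], ((nat_lit 95), (nat_lit 100), (nat_lit 65))⟩, (nat_lit 1990900), (nat_lit 310), (nat_lit 310), (nat_lit 0), (nat_lit 462086), [(nat_lit 2435244000), (nat_lit 4637500000), (nat_lit 7302764000)], [], [(nat_lit 16204963601), (nat_lit 17015839727), (nat_lit 16560375349), (nat_lit 17254174934), (nat_lit 21268258631), (nat_lit 21877869689), (nat_lit 21135247144), (nat_lit 21822019005)], (nat_lit 1271251), (nat_lit 1271251), (nat_lit 780000), (nat_lit 1435001), (nat_lit 1271251), (nat_lit 1271251), [(nat_lit 780000), (nat_lit 1435001), (nat_lit 1271251)], [(nat_lit 11), (nat_lit 55), (nat_lit 373), (nat_lit 150), (nat_lit 10)]⟩,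
 ⟨⟨[(nat_lit 140), (nat_lit 180), (nat_lit 200)], [(nat_lit 0), (nat_lit 0), (nat_lit 2835)], [((nat_lit 0), (nat_lit 0), (nat_lit 0)), ((nat_lit 0), (nat_lit 0), (nat_lit 0)), ((nat_lit 363), (nat_lit 1000), (nat_lit 798))], ((nat_lit 0), (nat_lit 0), (nat_lit 0))⟩, (nat_lit 24487), (nat_lit 300), (nat_lit 1707), (nat_lit 6950900), (nat_lit 3036778), [(nat_lit 875938000), (nat_lit 1251162000), (nat_lit 1459600000)], [], [(nat_lit 5368804850), (nat_lit 5293680564), (nat_lit 5267615104), (nat_lit 5186610215), (nat_lit 5003712800), (nat_lit 4920570985), (nat_lit 4924534148), (nat_lit 4840825880)], (nat_lit 780000), (nat_lit 936250), (nat_lit 1271251), (nat_lit 1271251), (nat_lit 1271251), (nat_lit 1271251), [(nat_lit 1977501), (nat_lit 1271251), (nat_lit 1271251)], [(nat_lit 32), (nat_lit 67), (nat_lit 530), (nat_lit 225), (nat_lit 11)]⟩⟩) (.trX (nat_lit 5) (nat_lit 1) (nat_lit 2) (nat_lit 91) (nat_lit 77) (nat_lit 100) (nat_lit 340) (.leaf ⟨(nat_lit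 0), (nat_lit 912), (nat_lit 0), (nat_lit 88), (nat_lit 0), (nat_lit 6339), (nat_lit 6178), (nat_lit 1009), (nat_lit 0), (nat_lit 0), (nat_lit 0), [], Pd.none, Pd.none, (nat_lit 0), (nat_lit 1), (nat_lit 0), (nat_lit 0), (nat_lit 7), (nat_lit 0), [⟨(nat_lit 0), (nat_lit 87), (nat_lit 79), (nat_lit 100), (nat_lit 606639630)⟩], [⟨(nat_lit 1), (nat_lit 93), (nat_lit 81), (nat_lit 100), (nat_lit 581718734)⟩], [⟨(nat_lit 1), (nat_lit 86), (nat_lit 89), (nat_lit 100), (nat_lit 337696859)⟩], [],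
 ⟨⟨[(nat_lit 40), (nat_lit 80), (nat_lit 120)], [(nat_lit 0), (nat_lit 0), (nat_lit 2151)], [((nat_lit 0), (nat_lit 0), (nat_lit 0)), ((nat_lit 0), (nat_lit 0), (nat_lit 0)), ((nat_lit 1000), (nat_lit 815), (nat_lit 753))], ((nat_lit 80), (nat_lit 100), (nat_lit 63))⟩, (nat_lit 0), (nat_lit 64), (nat_lit 64), (nat_lit 0), (nat_lit 0), [(nat_lit 2545737391), (nat_lit 4688000002), (nat_lit 7968000000)], [], [(nat_lit 22948580053), (nat_lit 24625205787), (nat_lit 23841362034), (nat_lit 25315062980), (nat_lit 25491459710), (nat_lit 27265705275), (nat_lit 26060151942), (nat_lit 27621462677)], (nat_lit 0), (nat_lit 0), (nat_lit 0), (nat_lit 0), (nat_lit 0), (nat_lit 0), [], [(nat_lit 4), (nat_lit 51), (nat_lit 260), (nat_lit 50), (nat_lit 7)]⟩,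
 ⟨⟨[(nat_lit 60), (nat_lit 100), (nat_lit 120)], [(nat_lit 0), (nat_lit 609), (nat_lit 1609)], [((nat_lit 0), (nat_lit 0), (nat_lit 0)), ((nat_lit 1000), (nat_lit 905), (nat_lit 238)), ((nat_lit 1000), (nat_lit 882), (nat_lit 668))], ((nat_lit 88), (nat_lit 100), (nat_lit 63))⟩, (nat_lit 3793264), (nat_lit 296), (nat_lit 296), (nat_lit 0), (nat_lit 539478), [(nat_lit 3282000000), (nat_lit 6250000000), (nat_lit 7968000000)], [], [(nat_lit 21467224940), (nat_lit 22389878048), (nat_lit 22279288165), (nat_lit 23079566298), (nat_lit 26188521208), (nat_lit 27107249799), (nat_lit 26428600956), (nat_lit 27500243603)], (nat_lit 1271251), (nat_lit 1271251), (nat_lit 780000), (nat_lit 1435001), (nat_lit 1271251), (nat_lit 1271251), [(nat_lit 780000), (nat_lit 1435001), (nat_lit 1271251)], [(nat_lit 10), (nat_lit 54), (nat_lit 373), (nat_lit 150), (nat_lit 11)]⟩,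
 ⟨⟨[(nat_lit 140), (nat_lit 180), (nat_lit 200)], [(nat_lit 0), (nat_lit 0), (nat_lit 2835)], [((nat_lit 0), (nat_lit 0), (nat_lit 0)), ((nat_lit 0), (nat_lit 0), (nat_lit 0)), ((nat_lit 363), (nat_lit 1000), (nat_lit 798))], ((nat_lit 0), (nat_lit 0), (nat_lit 0))⟩, (nat_lit 24212), (nat_lit 300), (nat_lit 2242), (nat_lit 6872800), (nat_lit 4080838), [(nat_lit 866096000), (nat_lit 1237104000), (nat_lit 1443200000)], [], [(nat_lit 5174313657), (nat_lit 5105968391), (nat_lit 5078638958), (nat_lit 4996972427), (nat_lit 4862503016), (nat_lit 4778680033), (nat_lit 4783807571), (nat_lit 4699376379)], (nat_lit 780000), (nat_lit 936250), (nat_lit 1271251), (nat_lit 1271251), (nat_lit 1271251), (nat_lit 1271251), [(nat_lit 1977501), (nat_lit 1271251), (nat_lit 1271251)], [(nat_lit 32), (nat_lit 67), (nat_lit 661), (nat_lit 200), (nat_lit 13)]⟩⟩))))))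
noncomputable def c11_75 : Tr Lf :=
 (.stt (nat_lit 2) (.leaf ⟨(nat_lit 0), (nat_lit 1000), (nat_lit 0), (nat_lit 0), (nat_lit 11916), (nat_lit 3757), (nat_lit 8691), (nat_lit 0), (nat_lit 0), (nat_lit 0), (nat_lit 0), [], Pd.none, Pd.none, (nat_lit 0), (nat_lit 1), (nat_lit 0), (nat_lit 0), (nat_lit 6), (nat_lit 0), [], [⟨(nat_lit 1), (nat_lit 93), (nat_lit 81), (nat_lit 100), (nat_lit 541346966)⟩], [⟨(nat_lit 1), (nat_lit 74), (nat_lit 98), (nat_lit 100), (nat_lit 185445992)⟩], [],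
 ⟨⟨[(nat_lit 40), (nat_lit 80), (nat_lit 120)], [(nat_lit 0), (nat_lit 0), (nat_lit 2151)], [((nat_lit 0), (nat_lit 0), (nat_lit 0)), ((nat_lit 0), (nat_lit 0), (nat_lit 0)), ((nat_lit 1000), (nat_lit 815), (nat_lit 753))], ((nat_lit 80), (nat_lit 100), (nat_lit 63))⟩, (nat_lit 0), (nat_lit 53), (nat_lit 53), (nat_lit 0), (nat_lit 0), [(nat_lit 2032000003), (nat_lit 104473084439), (nat_lit 7968000000)], [], [(nat_lit 20712535091), (nat_lit 22061432516), (nat_lit 23679723861), (nat_lit 24835930427), (nat_lit 24488803546), (nat_lit 25677440020), (nat_lit 26935785824), (nat_lit 27958446750)], (nat_lit 0), (nat_lit 0), (nat_lit 0), (nat_lit 0), (nat_lit 0), (nat_lit 0), [], [(nat_lit 4), (nat_lit 51), (nat_lit 289), (nat_lit 75), (nat_lit 8)]⟩,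
 ⟨⟨[(nat_lit 80), (nat_lit 120), (nat_lit 160)], [(nat_lit 0), (nat_lit 0), (nat_lit 2132)], [((nat_lit 0), (nat_lit 0), (nat_lit 0)), ((nat_lit 0), (nat_lit 0), (nat_lit 0)), ((nat_lit 858), (nat_lit 1000), (nat_lit 713))], ((nat_lit 100), (nat_lit 91), (nat_lit 64))⟩, (nat_lit 2913865), (nat_lit 223), (nat_lit 223), (nat_lit 0), (nat_lit 0), [(nat_lit 4688000000), (nat_lit 7968000000), (nat_lit 11872000000)], [], [(nat_lit 27250355010), (nat_lit 33151167218), (nat_lit 31361859742), (nat_lit 36053330732), (nat_lit 30884857244), (nat_lit 33193890890), (nat_lit 32076412525), (nat_lit 35125684926)], (nat_lit 0), (nat_lit 0), (nat_lit 0), (nat_lit 0), (nat_lit 0), (nat_lit 0), [], [(nat_lit 18), (nat_lit 59), (nat_lit 483), (nat_lit 250), (nat_lit 12)]⟩,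
 Rw.none⟩) (.spl (nat_lit 1) (nat_lit 280) (.leaf ⟨(nat_lit 0), (nat_lit 709), (nat_lit 0), (nat_lit 291), (nat_lit 0), (nat_lit 3689), (nat_lit 10767), (nat_lit 3280), (nat_lit 0), (nat_lit 0), (nat_lit 0), [], Pd.none, Pd.none, (nat_lit 0), (nat_lit 1), (nat_lit 0), (nat_lit 0), (nat_lit 6), (nat_lit 0), [], [⟨(nat_lit 1), (nat_lit 93), (nat_lit 81), (nat_lit 100), (nat_lit 189226072)⟩], [], [],
 ⟨⟨[(nat_lit 40), (nat_lit 80), (nat_lit 120)], [(nat_lit 0), (nat_lit 0), (nat_lit 2151)], [((nat_lit 0), (nat_lit 0), (nat_lit 0)), ((nat_lit 0), (nat_lit 0), (nat_lit 0)), ((nat_lit 1000), (nat_lit 815), (nat_lit 753))], ((nat_lit 80), (nat_lit 100), (nat_lit 63))⟩, (nat_lit 0), (nat_lit 53), (nat_lit 53), (nat_lit 0), (nat_lit 0), [(nat_lit 2032000013), (nat_lit 103451164861), (nat_lit 7968000000)], [], [(nat_lit 20754179389), (nat_lit 22090971114), (nat_lit 23707658679), (nat_lit 24854311823), (nat_lit 24505070019), (nat_lit 25626601845), (nat_lit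 26888129248), (nat_lit 27903145750)], (nat_lit 0), (nat_lit 0), (nat_lit 0), (nat_lit 0), (nat_lit 0), (nat_lit 0), [], [(nat_lit 4), (nat_lit 51), (nat_lit 289), (nat_lit 75), (nat_lit 8)]⟩,
 ⟨⟨[(nat_lit 80), (nat_lit 120), (nat_lit 160)], [(nat_lit 0), (nat_lit 0), (nat_lit 2132)], [((nat_lit 0), (nat_lit 0), (nat_lit 0)), ((nat_lit 0), (nat_lit 0), (nat_lit 0)), ((nat_lit 858), (nat_lit 1000), (nat_lit 713))], ((nat_lit 100), (nat_lit 91), (nat_lit 64))⟩, (nat_lit 4308919), (nat_lit 415), (nat_lit 415), (nat_lit 0), (nat_lit 392143), [(nat_lit 4688000000), (nat_lit 7968000000), (nat_lit 11872000000)], [], [(nat_lit 34483689460), (nat_lit 28154376964), (nat_lit 29335441836), (nat_lit 31900855521), (nat_lit 41843660013), (nat_lit 32842299645), (nat_lit 33397232501), (nat_lit 35338991982)], (nat_lit 1271251), (nat_lit 1271251), (nat_lit 1271251), (nat_lit 1271251), (nat_lit 0), (nat_lit 2683751), [(nat_lit 1100000), (nat_lit 1785001), (nat_lit 1271251)],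 [(nat_lit 18), (nat_lit 59), (nat_lit 483), (nat_lit 250), (nat_lit 12)]⟩,
 ⟨⟨[(nat_lit 140), (nat_lit 180), (nat_lit 200)], [(nat_lit 0), (nat_lit 0), (nat_lit 2835)], [((nat_lit 0), (nat_lit 0), (nat_lit 0)), ((nat_lit 0), (nat_lit 0), (nat_lit 0)), ((nat_lit 363), (nat_lit 1000), (nat_lit 798))], ((nat_lit 0), (nat_lit 0), (nat_lit 0))⟩, (nat_lit 80064), (nat_lit 300), (nat_lit 1067), (nat_lit 22727100), (nat_lit 1347323), [(nat_lit 2864022000), (nat_lit 4090878000), (nat_lit 4772400000)], [], [(nat_lit 21009306112), (nat_lit 20733881244), (nat_lit 20524597112), (nat_lit 20243441528), (nat_lit 16660033896), (nat_lit 17471034216), (nat_lit 15976055835), (nat_lit 15697901677)], (nat_lit 780000), (nat_lit 936250), (nat_lit 1271251), (nat_lit 1271251), (nat_lit 0), (nat_lit 2683751), [(nat_lit 1977501), (nat_lit 1271251), (nat_lit 1271251)], [(nat_lit 32), (nat_lit 67), (nat_lit 456), (nat_lit 225), (nat_lit 10)]⟩⟩) (.trX (nat_lit 5) (nat_lit 1) (nat_lit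 2) (nat_lit 96) (nat_lit 69) (nat_lit 100) (nat_lit 360) (.leaf ⟨(nat_lit 0), (nat_lit 847), (nat_lit 0), (nat_lit 153), (nat_lit 0), (nat_lit 3689), (nat_lit 7864), (nat_lit 1723), (nat_lit 0), (nat_lit 0), (nat_lit 0), [], Pd.none, Pd.none, (nat_lit 0), (nat_lit 1), (nat_lit 0), (nat_lit 0), (nat_lit 6), (nat_lit 0), [], [⟨(nat_lit 1), (nat_lit 93), (nat_lit 81), (nat_lit 100), (nat_lit 391876469)⟩], [⟨(nat_lit 1), (nat_lit 82), (nat_lit 92), (nat_lit 100), (nat_lit 26291830)⟩], [],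
 ⟨⟨[(nat_lit 40), (nat_lit 80), (nat_lit 120)], [(nat_lit 0), (nat_lit 0), (nat_lit 2151)], [((nat_lit 0), (nat_lit 0), (nat_lit 0)), ((nat_lit 0), (nat_lit 0), (nat_lit 0)), ((nat_lit 1000), (nat_lit 815), (nat_lit 753))], ((nat_lit 80), (nat_lit 100), (nat_lit 63))⟩, (nat_lit 0), (nat_lit 53), (nat_lit 53), (nat_lit 0), (nat_lit 0), [(nat_lit 2032000168), (nat_lit 103507481698), (nat_lit 7968000000)], [], [(nat_lit 20754179544), (nat_lit 22090971269), (nat_lit 23707658834), (nat_lit 24854311978), (nat_lit 24505070174), (nat_lit 25626602000), (nat_lit 26888129248), (nat_lit 27903145750)], (nat_lit 0), (nat_lit 0), (nat_lit 0), (nat_lit 0), (nat_lit 0), (nat_lit 0), [], [(nat_lit 4), (nat_lit 51), (nat_lit 289), (nat_lit 75), (nat_lit 8)]⟩,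
 ⟨⟨[(nat_lit 60), (nat_lit 100), (nat_lit 140)], [(nat_lit 0), (nat_lit 0), (nat_lit 2047)], [((nat_lit 0), (nat_lit 0), (nat_lit 0)), ((nat_lit 0), (nat_lit 0), (nat_lit 0)), ((nat_lit 1000), (nat_lit 993), (nat_lit 781))], ((nat_lit 95), (nat_lit 100), (nat_lit 65))⟩, (nat_lit 2253583), (nat_lit 448), (nat_lit 448), (nat_lit 0), (nat_lit 553960), [(nat_lit 3282000000), (nat_lit 6250000000), (nat_lit 9842000000)], [], [(nat_lit 29323840903), (nat_lit 31195535375), (nat_lit 31594066911), (nat_lit 33097230127), (nat_lit 33058614932), (nat_lit 30551078136), (nat_lit 30902285888), (nat_lit 32782826152)], (nat_lit 1271251), (nat_lit 1271251), (nat_lit 1271251), (nat_lit 1271251), (nat_lit 0), (nat_lit 2542501), [(nat_lit 780000), (nat_lit 1435001), (nat_lit 1271251)], [(nat_lit 11), (nat_lit 55), (nat_lit 401), (nat_lit 175), (nat_lit 11)]⟩,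
 ⟨⟨[(nat_lit 140), (nat_lit 180), (nat_lit 200)], [(nat_lit 0), (nat_lit 0), (nat_lit 2835)], [((nat_lit 0), (nat_lit 0), (nat_lit 0)), ((nat_lit 0), (nat_lit 0), (nat_lit 0)), ((nat_lit 363), (nat_lit 1000), (nat_lit 798))], ((nat_lit 0), (nat_lit 0), (nat_lit 0))⟩, (nat_lit 42095), (nat_lit 300), (nat_lit 1557), (nat_lit 11949304), (nat_lit 2442338), [(nat_lit 1505826000), (nat_lit 2150874000), (nat_lit 2509200000)], [], [(nat_lit 11053432904), (nat_lit 10908781324), (nat_lit 10796154616), (nat_lit 10648495678), (nat_lit 8711761404), (nat_lit 8875937887), (nat_lit 8438107196), (nat_lit 8293622960)], (nat_lit 780000), (nat_lit 936250), (nat_lit 1271251), (nat_lit 1271251), (nat_lit 0), (nat_lit 2542501), [(nat_lit 1977501), (nat_lit 1271251), (nat_lit 1271251)], [(nat_lit 32), (nat_lit 67), (nat_lit 492), (nat_lit 225), (nat_lit 10)]⟩⟩))))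
noncomputable def c11_76 : Tr Lf :=
 (.spl (nat_lit 3) (nat_lit 200) (.spl (nat_lit 5) (nat_lit 120) (.spl (nat_lit 1) (nat_lit 260) (.spl (nat_lit 6) (nat_lit 36) (.leaf ⟨(nat_lit 0), (nat_lit 751), (nat_lit 0), (nat_lit 249), (nat_lit 5368), (nat_lit 5850), (nat_lit 7339), (nat_lit 3145), (nat_lit 0), (nat_lit 0), (nat_lit 0), [], Pd.none, Pd.none, (nat_lit 0), (nat_lit 1), (nat_lit 0), (nat_lit 0), (nat_lit 6), (nat_lit 0), [], [⟨(nat_lit 1), (nat_lit 85), (nat_lit 78), (nat_lit 100), (nat_lit 257505107)⟩], [], [⟨(nat_lit 0), (nat_lit 91), (nat_lit 100), (nat_lit 27), (nat_lit 296388926)⟩],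
 ⟨⟨[(nat_lit 40), (nat_lit 80), (nat_lit 100)], [(nat_lit 0), (nat_lit 0), (nat_lit 1280)], [((nat_lit 0), (nat_lit 0), (nat_lit 0)), ((nat_lit 0), (nat_lit 0), (nat_lit 0)), ((nat_lit 1000), (nat_lit 800), (nat_lit 600))], ((nat_lit 80), (nat_lit 100), (nat_lit 57))⟩, (nat_lit 0), (nat_lit 72), (nat_lit 72), (nat_lit 0), (nat_lit 0), [(nat_lit 2525722237), (nat_lit 4688000173), (nat_lit 6250000000)], [], [(nat_lit 20901630073), (nat_lit 22656530998), (nat_lit 22169740873), (nat_lit 23711971098), (nat_lit 27014400623), (nat_lit 28377185200), (nat_lit 27508145123), (nat_lit 28712442680)], (nat_lit 0), (nat_lit 0), (nat_lit 0), (nat_lit 0), (nat_lit 0), (nat_lit 0), [], [(nat_lit 3), (nat_lit 50), (nat_lit 260), (nat_lit 50), (nat_lit 8)]⟩,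
 ⟨⟨[(nat_lit 80), (nat_lit 120), (nat_lit 140)], [(nat_lit 0), (nat_lit 0), (nat_lit 1164)], [((nat_lit 0), (nat_lit 0), (nat_lit 0)), ((nat_lit 0), (nat_lit 0), (nat_lit 0)), ((nat_lit 941), (nat_lit 1000), (nat_lit 576))], ((nat_lit 100), (nat_lit 94), (nat_lit 58))⟩, (nat_lit 0), (nat_lit 230), (nat_lit 230), (nat_lit 0), (nat_lit 157172), [(nat_lit 4688000000), (nat_lit 7968000000), (nat_lit 9842000000)], [], [(nat_lit 36137514820), (nat_lit 34082394680), (nat_lit 36989884230), (nat_lit 34763314749), (nat_lit 34194074771), (nat_lit 30757732967), (nat_lit 42296920908), (nat_lit 38950691015)], (nat_lit 1271251), (nat_lit 1271251), (nat_lit 780000), (nat_lit 1435001), (nat_lit 0), (nat_lit 780000), [(nat_lit 1100000), (nat_lit 1785001), (nat_lit 1271251)], [(nat_lit 17), (nat_lit 58), (nat_lit 373), (nat_lit 150), (nat_lit 11)]⟩,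
 ⟨⟨[(nat_lit 140), (nat_lit 160), (nat_lit 180)], [(nat_lit 0), (nat_lit 304), (nat_lit 1085)], [((nat_lit 0), (nat_lit 0), (nat_lit 0)), ((nat_lit 913), (nat_lit 1000), (nat_lit 217)), ((nat_lit 759), (nat_lit 1000), (nat_lit 463))], ((nat_lit 100), (nat_lit 64), (nat_lit 60))⟩, (nat_lit 511087), (nat_lit 300), (nat_lit 576), (nat_lit 17504735), (nat_lit 447879), [(nat_lit 2450658000), (nat_lit 2956128000), (nat_lit 3500442000)], [], [(nat_lit 13400848688), (nat_lit 13182144696), (nat_lit 13633425230), (nat_lit 13414827427), (nat_lit 10952448717), (nat_lit 10745402986), (nat_lit 11125136067), (nat_lit 10895850538)], (nat_lit 936250), (nat_lit 1100000), (nat_lit 1271251), (nat_lit 1271251), (nat_lit 0), (nat_lit 780000), [(nat_lit 1977501), (nat_lit 1271251), (nat_lit 1271251)], [(nat_lit 31), (nat_lit 65), (nat_lit 401), (nat_lit 175), (nat_lit 9)]⟩⟩) (.dle (nat_lit 0))) (.leaf ⟨(nat_lit 0), (nat_lit 822), (nat_lit 0), (nat_lit 178), (nat_lit 4944),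 (nat_lit 5850), (nat_lit 7564), (nat_lit 2284), (nat_lit 0), (nat_lit 0), (nat_lit 0), [], Pd.none, Pd.none, (nat_lit 0), (nat_lit 1), (nat_lit 0), (nat_lit 0), (nat_lit 6), (nat_lit 0), [], [⟨(nat_lit 1), (nat_lit 85), (nat_lit 78), (nat_lit 100), (nat_lit 379291020)⟩], [], [⟨(nat_lit 0), (nat_lit 91), (nat_lit 100), (nat_lit 27), (nat_lit 207299778)⟩],
 ⟨⟨[(nat_lit 40), (nat_lit 80), (nat_lit 120)], [(nat_lit 0), (nat_lit 0), (nat_lit 2151)], [((nat_lit 0), (nat_lit 0), (nat_lit 0)), ((nat_lit 0), (nat_lit 0), (nat_lit 0)), ((nat_lit 1000), (nat_lit 815), (nat_lit 753))], ((nat_lit 80), (nat_lit 100), (nat_lit 63))⟩, (nat_lit 0), (nat_lit 72), (nat_lit 72), (nat_lit 0), (nat_lit 0), [(nat_lit 2522157201), (nat_lit 4688000028), (nat_lit 7968000000)], [], [(nat_lit 20901629928), (nat_lit 22656530853), (nat_lit 22169740728), (nat_lit 23711970953), (nat_lit 27014400478), (nat_lit 28377185200), (nat_lit 27508144978), (nat_lit 28712442535)], (nat_lit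 0), (nat_lit 0), (nat_lit 0), (nat_lit 0), (nat_lit 0), (nat_lit 0), [], [(nat_lit 4), (nat_lit 51), (nat_lit 260), (nat_lit 50), (nat_lit 7)]⟩,
 ⟨⟨[(nat_lit 80), (nat_lit 120), (nat_lit 140)], [(nat_lit 0), (nat_lit 528), (nat_lit 1572)], [((nat_lit 0), (nat_lit 0), (nat_lit 0)), ((nat_lit 1000), (nat_lit 959), (nat_lit 206)), ((nat_lit 966), (nat_lit 1000), (nat_lit 679))], ((nat_lit 100), (nat_lit 98), (nat_lit 66))⟩, (nat_lit 2304184), (nat_lit 314), (nat_lit 314), (nat_lit 0), (nat_lit 239981), [(nat_lit 4688000000), (nat_lit 7968000000), (nat_lit 9842000000)], [], [(nat_lit 31116792210), (nat_lit 29885168024), (nat_lit 32024469114), (nat_lit 30552808916), (nat_lit 29175332033), (nat_lit 25959147532), (nat_lit 37539146419), (nat_lit 34090327382)], (nat_lit 1271251), (nat_lit 1271251), (nat_lit 780000), (nat_lit 1435001), (nat_lit 0), (nat_lit 780000), [(nat_lit 1100000), (nat_lit 1785001), (nat_lit 1271251)], [(nat_lit 17), (nat_lit 58), (nat_lit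 373), (nat_lit 150), (nat_lit 11)]⟩,
 ⟨⟨[(nat_lit 140), (nat_lit 180), (nat_lit 200)], [(nat_lit 0), (nat_lit 608), (nat_lit 3317)], [((nat_lit 0), (nat_lit 0), (nat_lit 0)), ((nat_lit 913), (nat_lit 1000), (nat_lit 217)), ((nat_lit 385), (nat_lit 1000), (nat_lit 814))], ((nat_lit 0), (nat_lit 0), (nat_lit 0))⟩, (nat_lit 411039), (nat_lit 300), (nat_lit 809), (nat_lit 12513402), (nat_lit 782140), [(nat_lit 1751876000), (nat_lit 2502324000), (nat_lit 2919200000)], [], [(nat_lit 11077023140), (nat_lit 10886080616), (nat_lit 11146953908), (nat_lit 10956965990), (nat_lit 9191622424), (nat_lit 9011772524), (nat_lit 9088313101), (nat_lit 8902986805)], (nat_lit 936250), (nat_lit 1100000), (nat_lit 1271251), (nat_lit 1271251), (nat_lit 0), (nat_lit 780000), [(nat_lit 1977501), (nat_lit 1271251), (nat_lit 1271251)], [(nat_lit 32), (nat_lit 67), (nat_lit 401), (nat_lit 175), (nat_lit 9)]⟩⟩)) (.spl (nat_lit 3) (nat_lit 160) (.leaf ⟨(nat_lit 867), (nat_lit 27),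 (nat_lit 0), (nat_lit 106), (nat_lit 0), (nat_lit 4134), (nat_lit 1918), (nat_lit 1080), (nat_lit 0), (nat_lit 0), (nat_lit 216750), [((nat_lit 340), [((nat_lit 19), (nat_lit 0), (nat_lit 867))])], ⟨(nat_lit 6), false, false, false, (nat_lit 186), (nat_lit 3872), (nat_lit 4473), [(nat_lit 1407125), (nat_lit 1414492), (nat_lit 1450223), (nat_lit 1458043), (nat_lit 1475111), (nat_lit 1479021), (nat_lit 1518209), (nat_lit 1522572)]⟩, ⟨(nat_lit 6), false, false, true, (nat_lit 238), (nat_lit 3872), (nat_lit 4473), [(nat_lit 1503277), (nat_lit 1499140), (nat_lit 1524844), (nat_lit 1520934), (nat_lit 1673223), (nat_lit 1660444), (nat_lit 1694789), (nat_lit 1682237)]⟩, (nat_lit 5049283), (nat_lit 40560987), (nat_lit 10665854), (nat_lit 15773159), (nat_lit 6), (nat_lit 0), [], [⟨(nat_lit 1), (nat_lit 85), (nat_lit 78), (nat_lit 100), (nat_lit 206831880)⟩], [], [],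
 ⟨⟨[(nat_lit 40), (nat_lit 80), (nat_lit 120)], [(nat_lit 0), (nat_lit 0), (nat_lit 2151)], [((nat_lit 0), (nat_lit 0), (nat_lit 0)), ((nat_lit 0), (nat_lit 0), (nat_lit 0)), ((nat_lit 1000), (nat_lit 815), (nat_lit 753))], ((nat_lit 80), (nat_lit 100), (nat_lit 63))⟩, (nat_lit 0), (nat_lit 72), (nat_lit 72), (nat_lit 0), (nat_lit 0), [(nat_lit 1710499775), (nat_lit 2505240821), (nat_lit 3575431200)], [(nat_lit 0), (nat_lit 0), (nat_lit 0)], [(nat_lit 20066661737), (nat_lit 21507705404), (nat_lit 20442637900), (nat_lit 21776705875), (nat_lit 25273396299), (nat_lit 26417887288), (nat_lit 25352516407), (nat_lit 26439839008)], (nat_lit 0), (nat_lit 0), (nat_lit 0), (nat_lit 0), (nat_lit 0), (nat_lit 0), [], [(nat_lit 4), (nat_lit 51), (nat_lit 249), (nat_lit 40), (nat_lit 7)]⟩,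
 ⟨⟨[(nat_lit 80), (nat_lit 120), (nat_lit 160)], [(nat_lit 0), (nat_lit 0), (nat_lit 2132)], [((nat_lit 0), (nat_lit 0), (nat_lit 0)), ((nat_lit 0), (nat_lit 0), (nat_lit 0)), ((nat_lit 858), (nat_lit 1000), (nat_lit 713))], ((nat_lit 100), (nat_lit 91), (nat_lit 64))⟩, (nat_lit 778031), (nat_lit 270), (nat_lit 270), (nat_lit 0), (nat_lit 311348), [(nat_lit 623504000), (nat_lit 1059744000), (nat_lit 1578976000)], [], [(nat_lit 2833529818), (nat_lit 1883588203), (nat_lit 1998323544), (nat_lit 1760868550), (nat_lit 7024396918), (nat_lit 5292542415), (nat_lit 7895385890), (nat_lit 6185967911)], (nat_lit 1271251), (nat_lit 1271251), (nat_lit 780000), (nat_lit 1100000), (nat_lit 780000), (nat_lit 2990626), [(nat_lit 1100000), (nat_lit 1785001), (nat_lit 1271251)], [(nat_lit 18), (nat_lit 59), (nat_lit 456), (nat_lit 225), (nat_lit 11)]⟩,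
 ⟨⟨[(nat_lit 140), (nat_lit 180), (nat_lit 200)], [(nat_lit 0), (nat_lit 608), (nat_lit 3317)], [((nat_lit 0), (nat_lit 0), (nat_lit 0)), ((nat_lit 913), (nat_lit 1000), (nat_lit 217)), ((nat_lit 385), (nat_lit 1000), (nat_lit 814))], ((nat_lit 0), (nat_lit 0), (nat_lit 0))⟩, (nat_lit 244776), (nat_lit 300), (nat_lit 906), (nat_lit 7451802), (nat_lit 1223770), [(nat_lit 1043252000), (nat_lit 1490148000), (nat_lit 1738400000)], [], [(nat_lit 6405792912), (nat_lit 6321914284), (nat_lit 6277889951), (nat_lit 6191136398), (nat_lit 5799097457), (nat_lit 5711025572), (nat_lit 5606995510), (nat_lit 5517275118)], (nat_lit 936250), (nat_lit 1100000), (nat_lit 1271251), (nat_lit 1271251), (nat_lit 780000), (nat_lit 2990626), [(nat_lit 1977501), (nat_lit 1271251), (nat_lit 1271251)], [(nat_lit 32), (nat_lit 67), (nat_lit 456), (nat_lit 225), (nat_lit 9)]⟩⟩) (.leaf ⟨(nat_lit 922), (nat_lit 13), (nat_lit 0), (nat_lit 65), (nat_lit 0), (nat_lit 4030), (nat_lit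 569), (nat_lit 663), (nat_lit 0), (nat_lit 0), (nat_lit 230500), [((nat_lit 340), [((nat_lit 19), (nat_lit 0), (nat_lit 922))])], ⟨(nat_lit 6), false, false, false, (nat_lit 213), (nat_lit 3872), (nat_lit 4473), [(nat_lit 1475111), (nat_lit 1479021), (nat_lit 1518209), (nat_lit 1522572), (nat_lit 1543097), (nat_lit 1543551), (nat_lit 1586195), (nat_lit 1587102)]⟩, ⟨(nat_lit 6), false, false, true, (nat_lit 238), (nat_lit 3872), (nat_lit 4473), [(nat_lit 1503277), (nat_lit 1499140), (nat_lit 1524844), (nat_lit 1520934), (nat_lit 1673223), (nat_lit 1660444), (nat_lit 1694789), (nat_lit 1682237)]⟩, (nat_lit 5235842), (nat_lit 38880418), (nat_lit 12798934), (nat_lit 15320648), (nat_lit 6), (nat_lit 0), [], [⟨(nat_lit 1), (nat_lit 85), (nat_lit 78), (nat_lit 100), (nat_lit 211247659)⟩], [], [],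
 ⟨⟨[(nat_lit 40), (nat_lit 80), (nat_lit 120)], [(nat_lit 0), (nat_lit 0), (nat_lit 2151)], [((nat_lit 0), (nat_lit 0), (nat_lit 0)), ((nat_lit 0), (nat_lit 0), (nat_lit 0)), ((nat_lit 1000), (nat_lit 815), (nat_lit 753))], ((nat_lit 80), (nat_lit 100), (nat_lit 63))⟩, (nat_lit 0), (nat_lit 60), (nat_lit 60), (nat_lit 0), (nat_lit 0), [(nat_lit 1598587938), (nat_lit 2366772804), (nat_lit 3306555988)], [(nat_lit 0), (nat_lit 0), (nat_lit 0)], [(nat_lit 20367427244), (nat_lit 21715938234), (nat_lit 21474607064), (nat_lit 22736705619), (nat_lit 25259124174), (nat_lit 26334099219), (nat_lit 26039229214), (nat_lit 27048796553)], (nat_lit 0), (nat_lit 0), (nat_lit 0), (nat_lit 0), (nat_lit 0), (nat_lit 0), [], [(nat_lit 4), (nat_lit 51), (nat_lit 260), (nat_lit 50), (nat_lit 7)]⟩,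
 ⟨⟨[(nat_lit 80), (nat_lit 120), (nat_lit 160)], [(nat_lit 0), (nat_lit 0), (nat_lit 2132)], [((nat_lit 0), (nat_lit 0), (nat_lit 0)), ((nat_lit 0), (nat_lit 0), (nat_lit 0)), ((nat_lit 858), (nat_lit 1000), (nat_lit 713))], ((nat_lit 100), (nat_lit 91), (nat_lit 64))⟩, (nat_lit 266360), (nat_lit 252), (nat_lit 252), (nat_lit 0), (nat_lit 311348), [(nat_lit 365664000), (nat_lit 621504000), (nat_lit 926016000)], [], [(nat_lit 2451429340), (nat_lit 1863044079), (nat_lit 2268452499), (nat_lit 1821097470), (nat_lit 4027542023), (nat_lit 3520420631), (nat_lit 4406813219), (nat_lit 3906001681)], (nat_lit 1271251), (nat_lit 1271251), (nat_lit 1100000), (nat_lit 1442501), (nat_lit 780000), (nat_lit 2990626), [(nat_lit 1100000), (nat_lit 1785001), (nat_lit 1271251)], [(nat_lit 18), (nat_lit 59), (nat_lit 456), (nat_lit 225), (nat_lit 11)]⟩,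
 ⟨⟨[(nat_lit 140), (nat_lit 180), (nat_lit 200)], [(nat_lit 0), (nat_lit 608), (nat_lit 3317)], [((nat_lit 0), (nat_lit 0), (nat_lit 0)), ((nat_lit 913), (nat_lit 1000), (nat_lit 217)), ((nat_lit 385), (nat_lit 1000), (nat_lit 814))], ((nat_lit 0), (nat_lit 0), (nat_lit 0))⟩, (nat_lit 150099), (nat_lit 300), (nat_lit 906), (nat_lit 4569500), (nat_lit 1223770), [(nat_lit 639730000), (nat_lit 913770000), (nat_lit 1066000000)], [], [(nat_lit 3925198693), (nat_lit 3873688650), (nat_lit 3846574853), (nat_lit 3793300648), (nat_lit 3552491336), (nat_lit 3498408778), (nat_lit 3434467288), (nat_lit 3379373311)], (nat_lit 936250), (nat_lit 1100000), (nat_lit 1271251), (nat_lit 1271251), (nat_lit 780000), (nat_lit 2990626), [(nat_lit 1977501), (nat_lit 1271251), (nat_lit 1271251)], [(nat_lit 32), (nat_lit 67), (nat_lit 456), (nat_lit 225), (nat_lit 9)]⟩⟩))) (.leaf ⟨(nat_lit 0), (nat_lit 668), (nat_lit 0), (nat_lit 332), (nat_lit 1659), (nat_lit 5892), (nat_lit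 10831), (nat_lit 3391), (nat_lit 0), (nat_lit 0), (nat_lit 0), [], Pd.none, Pd.none, (nat_lit 0), (nat_lit 1), (nat_lit 0), (nat_lit 0), (nat_lit 6), (nat_lit 0), [], [⟨(nat_lit 1), (nat_lit 85), (nat_lit 78), (nat_lit 100), (nat_lit 152685345)⟩], [], [],
 ⟨⟨[(nat_lit 40), (nat_lit 80), (nat_lit 120)], [(nat_lit 0), (nat_lit 0), (nat_lit 2151)], [((nat_lit 0), (nat_lit 0), (nat_lit 0)), ((nat_lit 0), (nat_lit 0), (nat_lit 0)), ((nat_lit 1000), (nat_lit 815), (nat_lit 753))], ((nat_lit 80), (nat_lit 100), (nat_lit 63))⟩, (nat_lit 0), (nat_lit 58), (nat_lit 58), (nat_lit 0), (nat_lit 0), [(nat_lit 2648740053), (nat_lit 4688000006), (nat_lit 7968000000)], [], [(nat_lit 22132215470), (nat_lit 23680910272), (nat_lit 25151064590), (nat_lit 26459710836), (nat_lit 27488476230), (nat_lit 28697267561), (nat_lit 29694735500), (nat_lit 30887305106)], (nat_lit 0), (nat_lit 0), (nat_lit 0), (nat_lit 0), (nat_lit 0), (nat_lit 0), [], [(nat_lit 4), (nat_lit 51),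 (nat_lit 289), (nat_lit 75), (nat_lit 8)]⟩,
 ⟨⟨[(nat_lit 80), (nat_lit 120), (nat_lit 160)], [(nat_lit 0), (nat_lit 0), (nat_lit 2132)], [((nat_lit 0), (nat_lit 0), (nat_lit 0)), ((nat_lit 0), (nat_lit 0), (nat_lit 0)), ((nat_lit 858), (nat_lit 1000), (nat_lit 713))], ((nat_lit 100), (nat_lit 91), (nat_lit 64))⟩, (nat_lit 4317503), (nat_lit 384), (nat_lit 384), (nat_lit 0), (nat_lit 311348), [(nat_lit 4688000000), (nat_lit 7968000000), (nat_lit 11872000000)], [], [(nat_lit 34514049780), (nat_lit 28087389658), (nat_lit 29276539406), (nat_lit 31918547201), (nat_lit 42741093100), (nat_lit 34147537134), (nat_lit 34593869642), (nat_lit 36425005769)], (nat_lit 1271251), (nat_lit 1271251), (nat_lit 1271251), (nat_lit 1271251), (nat_lit 0), (nat_lit 2754376), [(nat_lit 1100000), (nat_lit 1785001), (nat_lit 1271251)], [(nat_lit 18), (nat_lit 59), (nat_lit 483), (nat_lit 250), (nat_lit 12)]⟩,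
 ⟨⟨[(nat_lit 140), (nat_lit 180), (nat_lit 200)], [(nat_lit 0), (nat_lit 608), (nat_lit 3317)], [((nat_lit 0), (nat_lit 0), (nat_lit 0)), ((nat_lit 913), (nat_lit 1000), (nat_lit 217)), ((nat_lit 385), (nat_lit 1000), (nat_lit 814))], ((nat_lit 0), (nat_lit 0), (nat_lit 0))⟩, (nat_lit 766658), (nat_lit 300), (nat_lit 1005), (nat_lit 23339600), (nat_lit 1223770), [(nat_lit 3267544000), (nat_lit 4667256000), (nat_lit 5444800000)], [], [(nat_lit 22770434792), (nat_lit 22492648904), (nat_lit 22156717776), (nat_lit 21873530840), (nat_lit 20030704998), (nat_lit 21004918361), (nat_lit 17518549206), (nat_lit 17236666300)], (nat_lit 936250), (nat_lit 1100000), (nat_lit 1271251), (nat_lit 1271251), (nat_lit 0), (nat_lit 2754376), [(nat_lit 1977501), (nat_lit 1271251), (nat_lit 1271251)], [(nat_lit 32), (nat_lit 67), (nat_lit 456), (nat_lit 225), (nat_lit 10)]⟩⟩))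
noncomputable def c11_77 : Tr Lf :=
 (.trX (nat_lit 5) (nat_lit 1) (nat_lit 2) (nat_lit 94) (nat_lit 59) (nat_lit 100) (nat_lit 370) (.spl (nat_lit 5) (nat_lit 200) (.spl (nat_lit 1) (nat_lit 300) (.leaf ⟨(nat_lit 0), (nat_lit 873), (nat_lit 0), (nat_lit 127), (nat_lit 0), (nat_lit 5674), (nat_lit 6187), (nat_lit 1490), (nat_lit 0), (nat_lit 0), (nat_lit 0), [], Pd.none, Pd.none, (nat_lit 0), (nat_lit 1), (nat_lit 0), (nat_lit 0), (nat_lit 6), (nat_lit 0), [], [⟨(nat_lit 1), (nat_lit 85), (nat_lit 78), (nat_lit 100), (nat_lit 461622078)⟩], [], [],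
 ⟨⟨[(nat_lit 40), (nat_lit 80), (nat_lit 120)], [(nat_lit 0), (nat_lit 0), (nat_lit 2151)], [((nat_lit 0), (nat_lit 0), (nat_lit 0)), ((nat_lit 0), (nat_lit 0), (nat_lit 0)), ((nat_lit 1000), (nat_lit 815), (nat_lit 753))], ((nat_lit 80), (nat_lit 100), (nat_lit 63))⟩, (nat_lit 0), (nat_lit 72), (nat_lit 72), (nat_lit 0), (nat_lit 0), [(nat_lit 2767400931), (nat_lit 4688000260), (nat_lit 7968000000)], [], [(nat_lit 21039865136), (nat_lit 22762575573), (nat_lit 25312079208), (nat_lit 26594341895), (nat_lit 27059708918), (nat_lit 28399455433), (nat_lit 29679547580), (nat_lit 30687621357)], (nat_lit 0), (nat_lit 0), (nat_lit 0), (nat_lit 0), (nat_lit 0), (nat_lit 0), [], [(nat_lit 4), (nat_lit 51), (nat_lit 289), (nat_lit 75), (nat_lit 8)]⟩,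
 ⟨⟨[(nat_lit 60), (nat_lit 100), (nat_lit 140)], [(nat_lit 0), (nat_lit 0), (nat_lit 2047)], [((nat_lit 0), (nat_lit 0), (nat_lit 0)), ((nat_lit 0), (nat_lit 0), (nat_lit 0)), ((nat_lit 1000), (nat_lit 993), (nat_lit 781))], ((nat_lit 95), (nat_lit 100), (nat_lit 65))⟩, (nat_lit 1147194), (nat_lit 368), (nat_lit 368), (nat_lit 0), (nat_lit 389113), [(nat_lit 3282000000), (nat_lit 6250000000), (nat_lit 9842000000)], [], [(nat_lit 32830277580), (nat_lit 31488767828), (nat_lit 34191183821), (nat_lit 35085719821), (nat_lit 30968325425), (nat_lit 29686809439), (nat_lit 46344339943), (nat_lit 43629864844)], (nat_lit 1271251), (nat_lit 1271251), (nat_lit 780000), (nat_lit 2090001), (nat_lit 0), (nat_lit 1412501), [(nat_lit 780000), (nat_lit 1435001), (nat_lit 1271251)], [(nat_lit 11), (nat_lit 55), (nat_lit 345), (nat_lit 125), (nat_lit 10)]⟩,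
 ⟨⟨[(nat_lit 140), (nat_lit 180), (nat_lit 200)], [(nat_lit 0), (nat_lit 608), (nat_lit 3317)], [((nat_lit 0), (nat_lit 0), (nat_lit 0)), ((nat_lit 913), (nat_lit 1000), (nat_lit 217)), ((nat_lit 385), (nat_lit 1000), (nat_lit 814))], ((nat_lit 0), (nat_lit 0), (nat_lit 0))⟩, (nat_lit 293270), (nat_lit 300), (nat_lit 1285), (nat_lit 8928100), (nat_lit 1864927), [(nat_lit 1249934000), (nat_lit 1785366000), (nat_lit 2082800000)], [], [(nat_lit 8087193638), (nat_lit 7965832708), (nat_lit 8051339662), (nat_lit 7922654436), (nat_lit 6466914538), (nat_lit 6352459192), (nat_lit 6387550965), (nat_lit 6266646638)], (nat_lit 936250), (nat_lit 1100000), (nat_lit 1271251), (nat_lit 1271251), (nat_lit 0), (nat_lit 1412501), [(nat_lit 1977501), (nat_lit 1271251), (nat_lit 1271251)], [(nat_lit 32), (nat_lit 67), (nat_lit 409), (nat_lit 175), (nat_lit 9)]⟩⟩) (.leaf ⟨(nat_lit 0), (nat_lit 913), (nat_lit 0), (nat_lit 87), (nat_lit 0), (nat_lit 6035), (nat_lit 4818),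 (nat_lit 1068), (nat_lit 0), (nat_lit 0), (nat_lit 0), [], Pd.none, Pd.none, (nat_lit 0), (nat_lit 1), (nat_lit 0), (nat_lit 0), (nat_lit 6), (nat_lit 0), [⟨(nat_lit 0), (nat_lit 87), (nat_lit 79), (nat_lit 100), (nat_lit 420660241)⟩], [⟨(nat_lit 1), (nat_lit 85), (nat_lit 78), (nat_lit 100), (nat_lit 481951599)⟩, ⟨(nat_lit 1), (nat_lit 76), (nat_lit 82), (nat_lit 100), (nat_lit 112091045)⟩], [], [],
 ⟨⟨[(nat_lit 40), (nat_lit 80), (nat_lit 120)], [(nat_lit 0), (nat_lit 0), (nat_lit 2151)], [((nat_lit 0), (nat_lit 0), (nat_lit 0)), ((nat_lit 0), (nat_lit 0), (nat_lit 0)), ((nat_lit 1000), (nat_lit 815), (nat_lit 753))], ((nat_lit 80), (nat_lit 100), (nat_lit 63))⟩, (nat_lit 0), (nat_lit 72), (nat_lit 72), (nat_lit 0), (nat_lit 0), [(nat_lit 2482295395), (nat_lit 4688000002), (nat_lit 7968000000)], [], [(nat_lit 20756326092), (nat_lit 22545063610), (nat_lit 25045445072), (nat_lit 26371397965), (nat_lit 26966775347), (nat_lit 28588414870), (nat_lit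 29811030250), (nat_lit 31018290318)], (nat_lit 0), (nat_lit 0), (nat_lit 0), (nat_lit 0), (nat_lit 0), (nat_lit 0), [], [(nat_lit 4), (nat_lit 51), (nat_lit 289), (nat_lit 75), (nat_lit 8)]⟩,
 ⟨⟨[(nat_lit 60), (nat_lit 100), (nat_lit 120)], [(nat_lit 0), (nat_lit 609), (nat_lit 1609)], [((nat_lit 0), (nat_lit 0), (nat_lit 0)), ((nat_lit 1000), (nat_lit 905), (nat_lit 238)), ((nat_lit 1000), (nat_lit 882), (nat_lit 668))], ((nat_lit 88), (nat_lit 100), (nat_lit 63))⟩, (nat_lit 2192223), (nat_lit 373), (nat_lit 373), (nat_lit 0), (nat_lit 472335), [(nat_lit 3282000000), (nat_lit 6250000000), (nat_lit 7968000000)], [], [(nat_lit 33050347540), (nat_lit 32603839515), (nat_lit 34691360609), (nat_lit 35329132035), (nat_lit 31127207648), (nat_lit 31801000807), (nat_lit 33738672288), (nat_lit 33815742899)], (nat_lit 1271251), (nat_lit 1271251), (nat_lit 780000), (nat_lit 2090001), (nat_lit 0), (nat_lit 1412501), [(nat_lit 780000), (nat_lit 1435001), (nat_lit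 1271251)], [(nat_lit 10), (nat_lit 54), (nat_lit 345), (nat_lit 125), (nat_lit 11)]⟩,
 ⟨⟨[(nat_lit 140), (nat_lit 180), (nat_lit 200)], [(nat_lit 0), (nat_lit 608), (nat_lit 3317)], [((nat_lit 0), (nat_lit 0), (nat_lit 0)), ((nat_lit 913), (nat_lit 1000), (nat_lit 217)), ((nat_lit 385), (nat_lit 1000), (nat_lit 814))], ((nat_lit 0), (nat_lit 0), (nat_lit 0))⟩, (nat_lit 200901), (nat_lit 300), (nat_lit 1628), (nat_lit 6116102), (nat_lit 2607338), [(nat_lit 856254000), (nat_lit 1223046000), (nat_lit 1426800000)], [], [(nat_lit 5477738154), (nat_lit 5389562436), (nat_lit 5444797122), (nat_lit 5351823485), (nat_lit 4305925116), (nat_lit 4222761804), (nat_lit 4242292590), (nat_lit 4154559489)], (nat_lit 936250), (nat_lit 1100000), (nat_lit 1271251), (nat_lit 1271251), (nat_lit 0), (nat_lit 1412501), [(nat_lit 1977501), (nat_lit 1271251), (nat_lit 1271251)], [(nat_lit 32), (nat_lit 67), (nat_lit 495), (nat_lit 175), (nat_lit 10)]⟩⟩)) (.spl (nat_lit 1)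 (nat_lit 300) (.leaf ⟨(nat_lit 0), (nat_lit 828), (nat_lit 0), (nat_lit 172), (nat_lit 0), (nat_lit 5850), (nat_lit 7743), (nat_lit 1738), (nat_lit 0), (nat_lit 0), (nat_lit 0), [], Pd.none, Pd.none, (nat_lit 0), (nat_lit 1), (nat_lit 0), (nat_lit 0), (nat_lit 6), (nat_lit 0), [⟨(nat_lit 0), (nat_lit 90), (nat_lit 74), (nat_lit 100), (nat_lit 409428051)⟩], [⟨(nat_lit 1), (nat_lit 85), (nat_lit 78), (nat_lit 100), (nat_lit 475740268)⟩], [⟨(nat_lit 1), (nat_lit 68), (nat_lit 92), (nat_lit 100), (nat_lit 311721254)⟩], [],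
 ⟨⟨[(nat_lit 40), (nat_lit 80), (nat_lit 120)], [(nat_lit 0), (nat_lit 0), (nat_lit 2151)], [((nat_lit 0), (nat_lit 0), (nat_lit 0)), ((nat_lit 0), (nat_lit 0), (nat_lit 0)), ((nat_lit 1000), (nat_lit 815), (nat_lit 753))], ((nat_lit 80), (nat_lit 100), (nat_lit 63))⟩, (nat_lit 0), (nat_lit 72), (nat_lit 72), (nat_lit 0), (nat_lit 0), [(nat_lit 2347650796), (nat_lit 4688000010), (nat_lit 7968000000)], [], [(nat_lit 20901629910), (nat_lit 22656530835), (nat_lit 25182085710), (nat_lit 26485648885), (nat_lit 27014400460), (nat_lit 28377185200), (nat_lit 29660579000), (nat_lit 30848833925)], (nat_lit 0), (nat_lit 0), (nat_lit 0), (nat_lit 0), (nat_lit 0), (nat_lit 0), [], [(nat_lit 4), (nat_lit 51), (nat_lit 289), (nat_lit 75), (nat_lit 8)]⟩,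
 ⟨⟨[(nat_lit 60), (nat_lit 100), (nat_lit 140)], [(nat_lit 0), (nat_lit 0), (nat_lit 2047)], [((nat_lit 0), (nat_lit 0), (nat_lit 0)), ((nat_lit 0), (nat_lit 0), (nat_lit 0)), ((nat_lit 1000), (nat_lit 993), (nat_lit 781))], ((nat_lit 95), (nat_lit 100), (nat_lit 65))⟩, (nat_lit 2596814), (nat_lit 288), (nat_lit 288), (nat_lit 0), (nat_lit 389113), [(nat_lit 3282000000), (nat_lit 6250000000), (nat_lit 9842000000)], [], [(nat_lit 22319400052), (nat_lit 23400538645), (nat_lit 25074544391), (nat_lit 25818991288), (nat_lit 29661421698), (nat_lit 30377625196), (nat_lit 31624343935), (nat_lit 32515271898)], (nat_lit 1271251), (nat_lit 1271251), (nat_lit 780000), (nat_lit 2090001), (nat_lit 1271251), (nat_lit 1271251), [(nat_lit 780000), (nat_lit 1435001), (nat_lit 1271251)], [(nat_lit 11), (nat_lit 55), (nat_lit 401), (nat_lit 175), (nat_lit 11)]⟩,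
 ⟨⟨[(nat_lit 140), (nat_lit 180), (nat_lit 200)], [(nat_lit 0), (nat_lit 608), (nat_lit 3317)], [((nat_lit 0), (nat_lit 0), (nat_lit 0)), ((nat_lit 913), (nat_lit 1000), (nat_lit 217)), ((nat_lit 385), (nat_lit 1000), (nat_lit 814))], ((nat_lit 0), (nat_lit 0), (nat_lit 0))⟩, (nat_lit 397184), (nat_lit 300), (nat_lit 1155), (nat_lit 12091601), (nat_lit 1864927), [(nat_lit 1692824000), (nat_lit 2417976000), (nat_lit 2820800000)], [], [(nat_lit 10176650616), (nat_lit 10040913404), (nat_lit 9853549444), (nat_lit 9715502388), (nat_lit 9569363143), (nat_lit 9430423491), (nat_lit 9202872250), (nat_lit 9060355199)], (nat_lit 936250), (nat_lit 1100000), (nat_lit 1271251), (nat_lit 1271251), (nat_lit 1271251), (nat_lit 1271251), [(nat_lit 1977501), (nat_lit 1271251), (nat_lit 1271251)], [(nat_lit 32), (nat_lit 67), (nat_lit 456), (nat_lit 225), (nat_lit 9)]⟩⟩) (.trX (nat_lit 5) (nat_lit 1) (nat_lit 2) (nat_lit 88) (nat_lit 68) (nat_lit 100) (nat_lit 350)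 (.leaf ⟨(nat_lit 0), (nat_lit 863), (nat_lit 0), (nat_lit 137), (nat_lit 0), (nat_lit 5850), (nat_lit 6457), (nat_lit 1394), (nat_lit 0), (nat_lit 0), (nat_lit 0), [], Pd.none, Pd.none, (nat_lit 0), (nat_lit 1), (nat_lit 0), (nat_lit 0), (nat_lit 6), (nat_lit 0), [⟨(nat_lit 0), (nat_lit 81), (nat_lit 72), (nat_lit 100), (nat_lit 436180287)⟩], [⟨(nat_lit 1), (nat_lit 85), (nat_lit 78), (nat_lit 100), (nat_lit 507071715)⟩], [⟨(nat_lit 1), (nat_lit 77), (nat_lit 86), (nat_lit 100), (nat_lit 356393254)⟩], [],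
 ⟨⟨[(nat_lit 40), (nat_lit 80), (nat_lit 120)], [(nat_lit 0), (nat_lit 0), (nat_lit 2151)], [((nat_lit 0), (nat_lit 0), (nat_lit 0)), ((nat_lit 0), (nat_lit 0), (nat_lit 0)), ((nat_lit 1000), (nat_lit 815), (nat_lit 753))], ((nat_lit 80), (nat_lit 100), (nat_lit 63))⟩, (nat_lit 0), (nat_lit 72), (nat_lit 72), (nat_lit 0), (nat_lit 0), [(nat_lit 2429118643), (nat_lit 4688000040), (nat_lit 7968000000)], [], [(nat_lit 20901629940), (nat_lit 22656530865), (nat_lit 25182085740), (nat_lit 26485648915), (nat_lit 27014400490), (nat_lit 28377185200), (nat_lit 29660579000), (nat_lit 30848833925)], (nat_lit 0), (nat_lit 0), (nat_lit 0), (nat_lit 0), (nat_lit 0), (nat_lit 0), [], [(nat_lit 4), (nat_lit 51), (nat_lit 289), (nat_lit 75), (nat_lit 8)]⟩,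
 ⟨⟨[(nat_lit 60), (nat_lit 100), (nat_lit 120)], [(nat_lit 0), (nat_lit 609), (nat_lit 1609)], [((nat_lit 0), (nat_lit 0), (nat_lit 0)), ((nat_lit 1000), (nat_lit 905), (nat_lit 238)), ((nat_lit 1000), (nat_lit 882), (nat_lit 668))], ((nat_lit 88), (nat_lit 100), (nat_lit 63))⟩, (nat_lit 2861773), (nat_lit 275), (nat_lit 275), (nat_lit 0), (nat_lit 472335), [(nat_lit 3282000000), (nat_lit 6250000000), (nat_lit 7968000000)], [], [(nat_lit 21130105849), (nat_lit 22127765566), (nat_lit 24415116325), (nat_lit 25273322890), (nat_lit 27487539903), (nat_lit 28279070151), (nat_lit 29910571393), (nat_lit 30817316513)], (nat_lit 1271251), (nat_lit 1271251), (nat_lit 780000), (nat_lit 2090001), (nat_lit 1271251), (nat_lit 1271251), [(nat_lit 780000), (nat_lit 1435001), (nat_lit 1271251)], [(nat_lit 10), (nat_lit 54), (nat_lit 401), (nat_lit 175), (nat_lit 12)]⟩,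
 ⟨⟨[(nat_lit 140), (nat_lit 180), (nat_lit 200)], [(nat_lit 0), (nat_lit 608), (nat_lit 3317)], [((nat_lit 0), (nat_lit 0), (nat_lit 0)), ((nat_lit 913), (nat_lit 1000), (nat_lit 217)), ((nat_lit 385), (nat_lit 1000), (nat_lit 814))], ((nat_lit 0), (nat_lit 0), (nat_lit 0))⟩, (nat_lit 316362), (nat_lit 300), (nat_lit 1505), (nat_lit 9631100), (nat_lit 2607338), [(nat_lit 1348354000), (nat_lit 1925946000), (nat_lit 2246800000)], [], [(nat_lit 8162022368), (nat_lit 8056343232), (nat_lit 7828356582), (nat_lit 7722262844), (nat_lit 7620550376), (nat_lit 7514627612), (nat_lit 7305603848), (nat_lit 7191296150)], (nat_lit 936250), (nat_lit 1100000), (nat_lit 1271251), (nat_lit 1271251), (nat_lit 1271251), (nat_lit 1271251), [(nat_lit 1977501), (nat_lit 1271251), (nat_lit 1271251)], [(nat_lit 32), (nat_lit 67), (nat_lit 483), (nat_lit 225), (nat_lit 10)]⟩⟩)))))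
noncomputable def c11_78 : Tr Lf :=
 (.spl (nat_lit 1) (nat_lit 280) (.spl (nat_lit 5) (nat_lit 120) (.leaf ⟨(nat_lit 0), (nat_lit 561), (nat_lit 0), (nat_lit 439), (nat_lit 12941), (nat_lit 5760), (nat_lit 11321), (nat_lit 5626), (nat_lit 0), (nat_lit 0), (nat_lit 0), [], Pd.none, Pd.none, (nat_lit 0), (nat_lit 1), (nat_lit 0), (nat_lit 0), (nat_lit 6), (nat_lit 0), [], [⟨(nat_lit 1), (nat_lit 77), (nat_lit 77), (nat_lit 100), (nat_lit 139619492)⟩], [⟨(nat_lit 0), (nat_lit 100), (nat_lit 96), (nat_lit 16), (nat_lit 414882104)⟩], [],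
 ⟨⟨[(nat_lit 40), (nat_lit 80), (nat_lit 120)], [(nat_lit 0), (nat_lit 0), (nat_lit 2151)], [((nat_lit 0), (nat_lit 0), (nat_lit 0)), ((nat_lit 0), (nat_lit 0), (nat_lit 0)), ((nat_lit 1000), (nat_lit 815), (nat_lit 753))], ((nat_lit 80), (nat_lit 100), (nat_lit 63))⟩, (nat_lit 0), (nat_lit 76), (nat_lit 76), (nat_lit 0), (nat_lit 0), [(nat_lit 2640477240), (nat_lit 4688000003), (nat_lit 7968000000)], [], [(nat_lit 20972318243), (nat_lit 22710758123), (nat_lit 25248559523), (nat_lit 26541230403), (nat_lit 27751749413), (nat_lit 29063719046), (nat_lit 30211303590), (nat_lit 31355900270)], (nat_lit 0), (nat_lit 0), (nat_lit 0), (nat_lit 0), (nat_lit 0), (nat_lit 0), [], [(nat_lit 4), (nat_lit 51), (nat_lit 289), (nat_lit 75), (nat_lit 8)]⟩,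
 ⟨⟨[(nat_lit 80), (nat_lit 120), (nat_lit 160)], [(nat_lit 0), (nat_lit 0), (nat_lit 2132)], [((nat_lit 0), (nat_lit 0), (nat_lit 0)), ((nat_lit 0), (nat_lit 0), (nat_lit 0)), ((nat_lit 858), (nat_lit 1000), (nat_lit 713))], ((nat_lit 100), (nat_lit 91), (nat_lit 64))⟩, (nat_lit 2643914), (nat_lit 365), (nat_lit 365), (nat_lit 0), (nat_lit 198735), [(nat_lit 4688000000), (nat_lit 7968000000), (nat_lit 11872000000)], [], [(nat_lit 38026495980), (nat_lit 31699977010), (nat_lit 44960934536), (nat_lit 35762208579), (nat_lit 29584865969), (nat_lit 23566875099), (nat_lit 52296297565), (nat_lit 42235919218)], (nat_lit 1271251), (nat_lit 1271251), (nat_lit 780000), (nat_lit 2090001), (nat_lit 0), (nat_lit 780000), [(nat_lit 1100000), (nat_lit 1785001), (nat_lit 1271251)], [(nat_lit 18), (nat_lit 59), (nat_lit 401), (nat_lit 175), (nat_lit 10)]⟩,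
 ⟨⟨[(nat_lit 120), (nat_lit 160), (nat_lit 180)], [(nat_lit 0), (nat_lit 0), (nat_lit 1613)], [((nat_lit 0), (nat_lit 0), (nat_lit 0)), ((nat_lit 0), (nat_lit 0), (nat_lit 0)), ((nat_lit 620), (nat_lit 1000), (nat_lit 670))], ((nat_lit 100), (nat_lit 65), (nat_lit 64))⟩, (nat_lit 191059), (nat_lit 300), (nat_lit 584), (nat_lit 32573800), (nat_lit 489446), [(nat_lit 3497952000), (nat_lit 5211808000), (nat_lit 6171462000)], [], [(nat_lit 24038639672), (nat_lit 23835403455), (nat_lit 24502438869), (nat_lit 24338207945), (nat_lit 19669766282), (nat_lit 19469090024), (nat_lit 20013477806), (nat_lit 19756785574)], (nat_lit 1100000), (nat_lit 1271251), (nat_lit 1271251), (nat_lit 1271251), (nat_lit 0), (nat_lit 780000), [(nat_lit 1695001), (nat_lit 1271251), (nat_lit 1271251)], [(nat_lit 28), (nat_lit 65), (nat_lit 401), (nat_lit 175), (nat_lit 9)]⟩⟩) (.leaf ⟨(nat_lit 0), (nat_lit 262), (nat_lit 0), (nat_lit 738), (nat_lit 0), (nat_lit 6684), (nat_lit 6469),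 (nat_lit 7992), (nat_lit 0), (nat_lit 0), (nat_lit 0), [], Pd.none, Pd.none, (nat_lit 0), (nat_lit 1), (nat_lit 0), (nat_lit 0), (nat_lit 6), (nat_lit 0), [⟨(nat_lit 0), (nat_lit 99), (nat_lit 77), (nat_lit 100), (nat_lit 90787251)⟩], [], [], [],
 ⟨⟨[(nat_lit 40), (nat_lit 80), (nat_lit 120)], [(nat_lit 0), (nat_lit 0), (nat_lit 2151)], [((nat_lit 0), (nat_lit 0), (nat_lit 0)), ((nat_lit 0), (nat_lit 0), (nat_lit 0)), ((nat_lit 1000), (nat_lit 815), (nat_lit 753))], ((nat_lit 80), (nat_lit 100), (nat_lit 63))⟩, (nat_lit 0), (nat_lit 76), (nat_lit 76), (nat_lit 0), (nat_lit 0), [(nat_lit 2741589463), (nat_lit 4688000088), (nat_lit 7968000000)], [], [(nat_lit 20246584704), (nat_lit 22154024646), (nat_lit 24851368328), (nat_lit 26508974536), (nat_lit 28521925703), (nat_lit 30191520721), (nat_lit 31014683706), (nat_lit 32249727743)], (nat_lit 0), (nat_lit 0), (nat_lit 0), (nat_lit 0), (nat_lit 0), (nat_lit 0), [], [(nat_lit 4), (nat_lit 51), (nat_lit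 289), (nat_lit 75), (nat_lit 8)]⟩,
 ⟨⟨[(nat_lit 80), (nat_lit 120), (nat_lit 160)], [(nat_lit 0), (nat_lit 0), (nat_lit 2132)], [((nat_lit 0), (nat_lit 0), (nat_lit 0)), ((nat_lit 0), (nat_lit 0), (nat_lit 0)), ((nat_lit 858), (nat_lit 1000), (nat_lit 713))], ((nat_lit 100), (nat_lit 91), (nat_lit 64))⟩, (nat_lit 0), (nat_lit 253), (nat_lit 253), (nat_lit 0), (nat_lit 252971), [(nat_lit 4688000000), (nat_lit 7968000000), (nat_lit 11872000000)], [], [(nat_lit 37932260107), (nat_lit 31140255842), (nat_lit 36787099217), (nat_lit 34392223014), (nat_lit 48047996432), (nat_lit 42226135785), (nat_lit 64190943598), (nat_lit 58654398196)], (nat_lit 1271251), (nat_lit 1271251), (nat_lit 780000), (nat_lit 2090001), (nat_lit 780000), (nat_lit 3072501), [(nat_lit 1100000), (nat_lit 1785001), (nat_lit 1271251)], [(nat_lit 18), (nat_lit 59), (nat_lit 483), (nat_lit 250), (nat_lit 12)]⟩,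
 ⟨⟨[(nat_lit 120), (nat_lit 160), (nat_lit 180)], [(nat_lit 0), (nat_lit 0), (nat_lit 1613)], [((nat_lit 0), (nat_lit 0), (nat_lit 0)), ((nat_lit 0), (nat_lit 0), (nat_lit 0)), ((nat_lit 620), (nat_lit 1000), (nat_lit 670))], ((nat_lit 100), (nat_lit 65), (nat_lit 64))⟩, (nat_lit 321188), (nat_lit 300), (nat_lit 605), (nat_lit 54759600), (nat_lit 757158), [(nat_lit 5880384000), (nat_lit 8761536000), (nat_lit 10374804000)], [], [(nat_lit 37038782042), (nat_lit 36756231825), (nat_lit 37390635146), (nat_lit 37061590430), (nat_lit 35255981304), (nat_lit 34860032046), (nat_lit 34755958611), (nat_lit 34311254097)], (nat_lit 1100000), (nat_lit 1271251), (nat_lit 1271251), (nat_lit 1271251), (nat_lit 780000), (nat_lit 3072501), [(nat_lit 1695001), (nat_lit 1271251), (nat_lit 1271251)], [(nat_lit 28), (nat_lit 65), (nat_lit 483), (nat_lit 250), (nat_lit 11)]⟩⟩)) (.trX (nat_lit 5) (nat_lit 1) (nat_lit 2) (nat_lit 92) (nat_lit 49) (nat_lit 100) (nat_lit 380)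 (.spl (nat_lit 5) (nat_lit 200) (.spl (nat_lit 1) (nat_lit 300) (.leaf ⟨(nat_lit 0), (nat_lit 837), (nat_lit 0), (nat_lit 163), (nat_lit 0), (nat_lit 5760), (nat_lit 5851), (nat_lit 2044), (nat_lit 0), (nat_lit 0), (nat_lit 0), [], Pd.none, Pd.none, (nat_lit 0), (nat_lit 1), (nat_lit 0), (nat_lit 0), (nat_lit 6), (nat_lit 0), [⟨(nat_lit 0), (nat_lit 97), (nat_lit 82), (nat_lit 100), (nat_lit 931367)⟩], [⟨(nat_lit 1), (nat_lit 77), (nat_lit 77), (nat_lit 100), (nat_lit 502458572)⟩], [], [],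
 ⟨⟨[(nat_lit 40), (nat_lit 80), (nat_lit 120)], [(nat_lit 0), (nat_lit 0), (nat_lit 2151)], [((nat_lit 0), (nat_lit 0), (nat_lit 0)), ((nat_lit 0), (nat_lit 0), (nat_lit 0)), ((nat_lit 1000), (nat_lit 815), (nat_lit 753))], ((nat_lit 80), (nat_lit 100), (nat_lit 63))⟩, (nat_lit 0), (nat_lit 76), (nat_lit 76), (nat_lit 0), (nat_lit 0), [(nat_lit 2510473341), (nat_lit 4688000001), (nat_lit 7968000000)], [], [(nat_lit 20972318241), (nat_lit 22710758121), (nat_lit 25248559521), (nat_lit 26541230401), (nat_lit 27751749411), (nat_lit 29063719044), (nat_lit 30211303590), (nat_lit 31355900270)], (nat_lit 0), (nat_lit 0), (nat_lit 0), (nat_lit 0), (nat_lit 0), (nat_lit 0), [], [(nat_lit 4), (nat_lit 51), (nat_lit 289), (nat_lit 75), (nat_lit 8)]⟩,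
 ⟨⟨[(nat_lit 60), (nat_lit 100), (nat_lit 140)], [(nat_lit 0), (nat_lit 0), (nat_lit 2047)], [((nat_lit 0), (nat_lit 0), (nat_lit 0)), ((nat_lit 0), (nat_lit 0), (nat_lit 0)), ((nat_lit 1000), (nat_lit 993), (nat_lit 781))], ((nat_lit 95), (nat_lit 100), (nat_lit 65))⟩, (nat_lit 1593139), (nat_lit 350), (nat_lit 350), (nat_lit 0), (nat_lit 337336), [(nat_lit 3282000000), (nat_lit 6250000000), (nat_lit 9842000000)], [], [(nat_lit 32668211340), (nat_lit 30875840517), (nat_lit 34182132826), (nat_lit 34436316078), (nat_lit 31584645689), (nat_lit 29170608476), (nat_lit 46410199639), (nat_lit 43843140676)], (nat_lit 1271251), (nat_lit 1271251), (nat_lit 780000), (nat_lit 2090001), (nat_lit 0), (nat_lit 1412501), [(nat_lit 780000), (nat_lit 1435001), (nat_lit 1271251)], [(nat_lit 11), (nat_lit 55), (nat_lit 345), (nat_lit 125), (nat_lit 10)]⟩,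
 ⟨⟨[(nat_lit 120), (nat_lit 160), (nat_lit 180)], [(nat_lit 0), (nat_lit 0), (nat_lit 1613)], [((nat_lit 0), (nat_lit 0), (nat_lit 0)), ((nat_lit 0), (nat_lit 0), (nat_lit 0)), ((nat_lit 620), (nat_lit 1000), (nat_lit 670))], ((nat_lit 100), (nat_lit 65), (nat_lit 64))⟩, (nat_lit 70940), (nat_lit 300), (nat_lit 929), (nat_lit 12094600), (nat_lit 1230476), [(nat_lit 1298784000), (nat_lit 1935136000), (nat_lit 2291454000)], [], [(nat_lit 9000317592), (nat_lit 8922960429), (nat_lit 9171421340), (nat_lit 9076563683), (nat_lit 6971344766), (nat_lit 6868527331), (nat_lit 7011867787), (nat_lit 6915314048)], (nat_lit 1100000), (nat_lit 1271251), (nat_lit 1271251), (nat_lit 1271251), (nat_lit 0), (nat_lit 1412501), [(nat_lit 1695001), (nat_lit 1271251), (nat_lit 1271251)], [(nat_lit 28), (nat_lit 65), (nat_lit 428), (nat_lit 200), (nat_lit 10)]⟩⟩) (.trZ (nat_lit 1) (nat_lit 2) (nat_lit 5) (nat_lit 100) (nat_lit 88) (nat_lit 32) (nat_lit 10) (.leaf ⟨(nat_lit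 0), (nat_lit 865), (nat_lit 0), (nat_lit 135), (nat_lit 0), (nat_lit 5760), (nat_lit 4743), (nat_lit 1556), (nat_lit 0), (nat_lit 0), (nat_lit 0), [], Pd.none, Pd.none, (nat_lit 0), (nat_lit 1), (nat_lit 0), (nat_lit 0), (nat_lit 6), (nat_lit 0), [⟨(nat_lit 0), (nat_lit 87), (nat_lit 79), (nat_lit 100), (nat_lit 383619791)⟩], [⟨(nat_lit 1), (nat_lit 77), (nat_lit 77), (nat_lit 100), (nat_lit 529039796)⟩], [], [],
 ⟨⟨[(nat_lit 40), (nat_lit 80), (nat_lit 120)], [(nat_lit 0), (nat_lit 0), (nat_lit 2151)], [((nat_lit 0), (nat_lit 0), (nat_lit 0)), ((nat_lit 0), (nat_lit 0), (nat_lit 0)), ((nat_lit 1000), (nat_lit 815), (nat_lit 753))], ((nat_lit 80), (nat_lit 100), (nat_lit 63))⟩, (nat_lit 0), (nat_lit 76), (nat_lit 76), (nat_lit 0), (nat_lit 0), [(nat_lit 2381707667), (nat_lit 4688000089), (nat_lit 7968000000)], [], [(nat_lit 20972318329), (nat_lit 22710758209), (nat_lit 25248559609), (nat_lit 26541230489), (nat_lit 27751749499), (nat_lit 29063719132),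 (nat_lit 30211303590), (nat_lit 31355900270)], (nat_lit 0), (nat_lit 0), (nat_lit 0), (nat_lit 0), (nat_lit 0), (nat_lit 0), [], [(nat_lit 4), (nat_lit 51), (nat_lit 289), (nat_lit 75), (nat_lit 8)]⟩,
 ⟨⟨[(nat_lit 60), (nat_lit 100), (nat_lit 120)], [(nat_lit 0), (nat_lit 609), (nat_lit 1609)], [((nat_lit 0), (nat_lit 0), (nat_lit 0)), ((nat_lit 1000), (nat_lit 905), (nat_lit 238)), ((nat_lit 1000), (nat_lit 882), (nat_lit 668))], ((nat_lit 88), (nat_lit 100), (nat_lit 63))⟩, (nat_lit 1405001), (nat_lit 326), (nat_lit 326), (nat_lit 0), (nat_lit 423756), [(nat_lit 3282000000), (nat_lit 6250000000), (nat_lit 7968000000)], [], [(nat_lit 32218625089), (nat_lit 31592484998), (nat_lit 34090271890), (nat_lit 34807861465), (nat_lit 30612082529), (nat_lit 31375375188), (nat_lit 34325151772), (nat_lit 33807953800)], (nat_lit 1271251), (nat_lit 1271251), (nat_lit 780000), (nat_lit 2090001), (nat_lit 54688), (nat_lit 1414376), [(nat_lit 780000), (nat_lit 1435001),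 (nat_lit 1271251)], [(nat_lit 10), (nat_lit 54), (nat_lit 345), (nat_lit 125), (nat_lit 11)]⟩,
 ⟨⟨[(nat_lit 120), (nat_lit 160), (nat_lit 180)], [(nat_lit 0), (nat_lit 0), (nat_lit 1613)], [((nat_lit 0), (nat_lit 0), (nat_lit 0)), ((nat_lit 0), (nat_lit 0), (nat_lit 0)), ((nat_lit 620), (nat_lit 1000), (nat_lit 670))], ((nat_lit 100), (nat_lit 65), (nat_lit 64))⟩, (nat_lit 58754), (nat_lit 300), (nat_lit 1165), (nat_lit 10017000), (nat_lit 1778731), [(nat_lit 1075680000), (nat_lit 1602720000), (nat_lit 1897830000)], [], [(nat_lit 7764944893), (nat_lit 7691320848), (nat_lit 7700692425), (nat_lit 7632370160), (nat_lit 6376827276), (nat_lit 6290788496), (nat_lit 6236100623), (nat_lit 6152045674)], (nat_lit 1100000), (nat_lit 1271251), (nat_lit 1271251), (nat_lit 1271251), (nat_lit 54688), (nat_lit 1414376), [(nat_lit 1695001), (nat_lit 1271251), (nat_lit 1271251)], [(nat_lit 28), (nat_lit 65), (nat_lit 428), (nat_lit 200), (nat_lit 10)]⟩⟩))) (.leaf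 ⟨(nat_lit 0), (nat_lit 767), (nat_lit 0), (nat_lit 233), (nat_lit 0), (nat_lit 5760), (nat_lit 7401), (nat_lit 2357), (nat_lit 0), (nat_lit 0), (nat_lit 0), [], Pd.none, Pd.none, (nat_lit 0), (nat_lit 1), (nat_lit 0), (nat_lit 0), (nat_lit 6), (nat_lit 0), [⟨(nat_lit 0), (nat_lit 81), (nat_lit 72), (nat_lit 100), (nat_lit 468079081)⟩], [⟨(nat_lit 1), (nat_lit 77), (nat_lit 77), (nat_lit 100), (nat_lit 439184728)⟩], [⟨(nat_lit 1), (nat_lit 63), (nat_lit 88), (nat_lit 100), (nat_lit 266050450)⟩], [],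
 ⟨⟨[(nat_lit 40), (nat_lit 80), (nat_lit 120)], [(nat_lit 0), (nat_lit 0), (nat_lit 2151)], [((nat_lit 0), (nat_lit 0), (nat_lit 0)), ((nat_lit 0), (nat_lit 0), (nat_lit 0)), ((nat_lit 1000), (nat_lit 815), (nat_lit 753))], ((nat_lit 80), (nat_lit 100), (nat_lit 63))⟩, (nat_lit 0), (nat_lit 76), (nat_lit 76), (nat_lit 0), (nat_lit 0), [(nat_lit 2445892569), (nat_lit 4688000001), (nat_lit 7968000000)], [], [(nat_lit 20972318241), (nat_lit 22710758121), (nat_lit 25248559521), (nat_lit 26541230401), (nat_lit 27751749411), (nat_lit 29063719044), (nat_lit 30211303590), (nat_lit 31355900270)], (nat_lit 0), (nat_lit 0), (nat_lit 0), (nat_lit 0), (nat_lit 0), (nat_lit 0), [], [(nat_lit 4), (nat_lit 51), (nat_lit 289), (nat_lit 75), (nat_lit 8)]⟩,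
 ⟨⟨[(nat_lit 60), (nat_lit 100), (nat_lit 140)], [(nat_lit 0), (nat_lit 0), (nat_lit 2047)], [((nat_lit 0), (nat_lit 0), (nat_lit 0)), ((nat_lit 0), (nat_lit 0), (nat_lit 0)), ((nat_lit 1000), (nat_lit 993), (nat_lit 781))], ((nat_lit 95), (nat_lit 100), (nat_lit 65))⟩, (nat_lit 2430574), (nat_lit 306), (nat_lit 306), (nat_lit 0), (nat_lit 435925), [(nat_lit 3282000000), (nat_lit 6250000000), (nat_lit 9842000000)], [], [(nat_lit 23281494989), (nat_lit 25395821894), (nat_lit 26071600962), (nat_lit 27537014916), (nat_lit 31051418787), (nat_lit 32223264907), (nat_lit 32119094895), (nat_lit 33786553986)], (nat_lit 1271251), (nat_lit 1271251), (nat_lit 780000), (nat_lit 2090001), (nat_lit 1271251), (nat_lit 1271251), [(nat_lit 780000), (nat_lit 1435001), (nat_lit 1271251)], [(nat_lit 11), (nat_lit 55), (nat_lit 401), (nat_lit 175), (nat_lit 11)]⟩,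
 ⟨⟨[(nat_lit 120), (nat_lit 160), (nat_lit 180)], [(nat_lit 0), (nat_lit 0), (nat_lit 1613)], [((nat_lit 0), (nat_lit 0), (nat_lit 0)), ((nat_lit 0), (nat_lit 0), (nat_lit 0)), ((nat_lit 620), (nat_lit 1000), (nat_lit 670))], ((nat_lit 100), (nat_lit 65), (nat_lit 64))⟩, (nat_lit 101405), (nat_lit 300), (nat_lit 1044), (nat_lit 17288600), (nat_lit 1778731), [(nat_lit 1856544000), (nat_lit 2766176000), (nat_lit 3275514000)], [], [(nat_lit 13031129198), (nat_lit 12901811517), (nat_lit 12628726532), (nat_lit 12492900147), (nat_lit 12284405013), (nat_lit 12147995797), (nat_lit 11860548762), (nat_lit 11717944778)], (nat_lit 1100000), (nat_lit 1271251), (nat_lit 1271251), (nat_lit 1271251), (nat_lit 1271251), (nat_lit 1271251), [(nat_lit 1695001), (nat_lit 1271251), (nat_lit 1271251)], [(nat_lit 28), (nat_lit 65), (nat_lit 483), (nat_lit 250), (nat_lit 11)]⟩⟩))))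
noncomputable def c11_79 : Tr Lf :=
 (.spl (nat_lit 1) (nat_lit 280) (.spl (nat_lit 5) (nat_lit 200) (.leaf ⟨(nat_lit 0), (nat_lit 883), (nat_lit 0), (nat_lit 117), (nat_lit 12028), (nat_lit 6516), (nat_lit 7638), (nat_lit 1510), (nat_lit 0), (nat_lit 0), (nat_lit 0), [], Pd.none, Pd.none, (nat_lit 0), (nat_lit 1), (nat_lit 0), (nat_lit 0), (nat_lit 6), (nat_lit 0), [], [⟨(nat_lit 1), (nat_lit 85), (nat_lit 78), (nat_lit 100), (nat_lit 464962843)⟩], [⟨(nat_lit 0), (nat_lit 100), (nat_lit 92), (nat_lit 31), (nat_lit 57636853)⟩], [],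
 ⟨⟨[(nat_lit 40), (nat_lit 80), (nat_lit 120)], [(nat_lit 0), (nat_lit 0), (nat_lit 2151)], [((nat_lit 0), (nat_lit 0), (nat_lit 0)), ((nat_lit 0), (nat_lit 0), (nat_lit 0)), ((nat_lit 1000), (nat_lit 815), (nat_lit 753))], ((nat_lit 80), (nat_lit 100), (nat_lit 63))⟩, (nat_lit 1636535), (nat_lit 180), (nat_lit 180), (nat_lit 0), (nat_lit 251480), [(nat_lit 2466181632), (nat_lit 4688000037), (nat_lit 7968000000)], [], [(nat_lit 23600958716), (nat_lit 24953184738), (nat_lit 26343661348), (nat_lit 27352506140), (nat_lit 28757291131), (nat_lit 29986464079), (nat_lit 30868614594), (nat_lit 32087213657)], (nat_lit 1271251), (nat_lit 1271251), (nat_lit 780000), (nat_lit 2090001), (nat_lit 1271251), (nat_lit 1271251), [(nat_lit 490000), (nat_lit 1100000), (nat_lit 1785001)], [(nat_lit 4), (nat_lit 51), (nat_lit 289), (nat_lit 75), (nat_lit 8)]⟩,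
 ⟨⟨[(nat_lit 80), (nat_lit 120), (nat_lit 160)], [(nat_lit 0), (nat_lit 0), (nat_lit 2132)], [((nat_lit 0), (nat_lit 0), (nat_lit 0)), ((nat_lit 0), (nat_lit 0), (nat_lit 0)), ((nat_lit 858), (nat_lit 1000), (nat_lit 713))], ((nat_lit 100), (nat_lit 91), (nat_lit 64))⟩, (nat_lit 5268882), (nat_lit 220), (nat_lit 220), (nat_lit 0), (nat_lit 0), [(nat_lit 4688000000), (nat_lit 7968000000), (nat_lit 11872000000)], [], [(nat_lit 20828125344), (nat_lit 24007136370), (nat_lit 27500812264), (nat_lit 30362310630), (nat_lit 18891499384), (nat_lit 21507321645), (nat_lit 23581933942), (nat_lit 25667717411)], (nat_lit 0), (nat_lit 0), (nat_lit 0), (nat_lit 0), (nat_lit 0), (nat_lit 0), [], [(nat_lit 18), (nat_lit 59), (nat_lit 428), (nat_lit 200), (nat_lit 11)]⟩,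
 ⟨⟨[(nat_lit 140), (nat_lit 180), (nat_lit 200)], [(nat_lit 0), (nat_lit 0), (nat_lit 2835)], [((nat_lit 0), (nat_lit 0), (nat_lit 0)), ((nat_lit 0), (nat_lit 0), (nat_lit 0)), ((nat_lit 363), (nat_lit 1000), (nat_lit 798))], ((nat_lit 0), (nat_lit 0), (nat_lit 0))⟩, (nat_lit 32190), (nat_lit 300), (nat_lit 990), (nat_lit 9137707), (nat_lit 1178401), [(nat_lit 1151514000), (nat_lit 1644786000), (nat_lit 1918800000)], [], [(nat_lit 7943476288), (nat_lit 7611390189), (nat_lit 7905599036), (nat_lit 7546038466), (nat_lit 6263976924), (nat_lit 5946685878), (nat_lit 6176058909), (nat_lit 5834606292)], (nat_lit 780000), (nat_lit 1271251), (nat_lit 1271251), (nat_lit 1271251), (nat_lit 0), (nat_lit 1412501), [(nat_lit 1977501), (nat_lit 1271251), (nat_lit 1271251)], [(nat_lit 32), (nat_lit 67), (nat_lit 428), (nat_lit 200), (nat_lit 9)]⟩⟩) (.leaf ⟨(nat_lit 243), (nat_lit 241), (nat_lit 0), (nat_lit 516), (nat_lit 0), (nat_lit 5239), (nat_lit 6690), (nat_lit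 5676), (nat_lit 0), (nat_lit 0), (nat_lit 972000), [((nat_lit 340), [((nat_lit 37), (nat_lit 5), (nat_lit 243))])], ⟨(nat_lit 6), true, false, false, (nat_lit 226), (nat_lit 3872), (nat_lit 4473), [(nat_lit 1407125), (nat_lit 1414492), (nat_lit 1450223), (nat_lit 1458043), (nat_lit 1679069), (nat_lit 1672609), (nat_lit 1722167), (nat_lit 1716161)]⟩, ⟨(nat_lit 6), false, false, true, (nat_lit 241), (nat_lit 3872), (nat_lit 4473), [(nat_lit 1481711), (nat_lit 1477347), (nat_lit 1546410), (nat_lit 1542727), (nat_lit 1668651), (nat_lit 1654781), (nat_lit 1733350), (nat_lit 1720161)]⟩, (nat_lit 5330613), (nat_lit 37818098), (nat_lit 13823051), (nat_lit 15358851), (nat_lit 6), (nat_lit 0), [⟨(nat_lit 0), (nat_lit 99), (nat_lit 77), (nat_lit 100), (nat_lit 167829350)⟩], [⟨(nat_lit 1), (nat_lit 85), (nat_lit 78), (nat_lit 100), (nat_lit 118323494)⟩], [], [],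
 ⟨⟨[(nat_lit 40), (nat_lit 80), (nat_lit 120)], [(nat_lit 0), (nat_lit 0), (nat_lit 2151)], [((nat_lit 0), (nat_lit 0), (nat_lit 0)), ((nat_lit 0), (nat_lit 0), (nat_lit 0)), ((nat_lit 1000), (nat_lit 815), (nat_lit 753))], ((nat_lit 80), (nat_lit 100), (nat_lit 63))⟩, (nat_lit 0), (nat_lit 180), (nat_lit 180), (nat_lit 0), (nat_lit 251480), [(nat_lit 2260308758), (nat_lit 2647597689), (nat_lit 832631111)], [(nat_lit 0), (nat_lit 0), (nat_lit 0)], [(nat_lit 20206888618), (nat_lit 21357660871), (nat_lit 24238772138), (nat_lit 25679069131), (nat_lit 26975994982), (nat_lit 28427789485), (nat_lit 29758315451), (nat_lit 30851913135)], (nat_lit 1271251), (nat_lit 1271251), (nat_lit 780000), (nat_lit 2090001), (nat_lit 1271251), (nat_lit 1271251), [(nat_lit 490000), (nat_lit 1100000), (nat_lit 1785001)], [(nat_lit 4), (nat_lit 51), (nat_lit 289), (nat_lit 75), (nat_lit 8)]⟩,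
 ⟨⟨[(nat_lit 80), (nat_lit 120), (nat_lit 160)], [(nat_lit 0), (nat_lit 0), (nat_lit 2132)], [((nat_lit 0), (nat_lit 0), (nat_lit 0)), ((nat_lit 0), (nat_lit 0), (nat_lit 0)), ((nat_lit 858), (nat_lit 1000), (nat_lit 713))], ((nat_lit 100), (nat_lit 91), (nat_lit 64))⟩, (nat_lit 3562543), (nat_lit 165), (nat_lit 165), (nat_lit 0), (nat_lit 0), [(nat_lit 3548816000), (nat_lit 6031776000), (nat_lit 8987104000)], [], [(nat_lit 12891222776), (nat_lit 14907406165), (nat_lit 16815164576), (nat_lit 18606270946), (nat_lit 24450278502), (nat_lit 25717111040), (nat_lit 25503483526), (nat_lit 26707636344)], (nat_lit 0), (nat_lit 0), (nat_lit 0), (nat_lit 0), (nat_lit 0), (nat_lit 0), [], [(nat_lit 18), (nat_lit 59), (nat_lit 483), (nat_lit 250), (nat_lit 12)]⟩,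
 ⟨⟨[(nat_lit 140), (nat_lit 180), (nat_lit 200)], [(nat_lit 0), (nat_lit 0), (nat_lit 2835)], [((nat_lit 0), (nat_lit 0), (nat_lit 0)), ((nat_lit 0), (nat_lit 0), (nat_lit 0)), ((nat_lit 363), (nat_lit 1000), (nat_lit 798))], ((nat_lit 0), (nat_lit 0), (nat_lit 0))⟩, (nat_lit 141968), (nat_lit 300), (nat_lit 856), (nat_lit 40299604), (nat_lit 1178401), [(nat_lit 5078472000), (nat_lit 7253928000), (nat_lit 8462400000)], [], [(nat_lit 31562434571), (nat_lit 30333850358), (nat_lit 30745170986), (nat_lit 29464521842), (nat_lit 29859317408), (nat_lit 28545993176), (nat_lit 28721806502), (nat_lit 27380258012)], (nat_lit 780000), (nat_lit 1271251), (nat_lit 1271251), (nat_lit 1271251), (nat_lit 1271251), (nat_lit 1271251), [(nat_lit 1977501), (nat_lit 1271251), (nat_lit 1271251)], [(nat_lit 32), (nat_lit 67), (nat_lit 483), (nat_lit 250), (nat_lit 10)]⟩⟩)) (.trX (nat_lit 5) (nat_lit 1) (nat_lit 2) (nat_lit 92) (nat_lit 49) (nat_lit 100) (nat_lit 380) (.spl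 (nat_lit 5) (nat_lit 200) (.leaf ⟨(nat_lit 0), (nat_lit 886), (nat_lit 0), (nat_lit 114), (nat_lit 825), (nat_lit 6781), (nat_lit 5569), (nat_lit 1471), (nat_lit 0), (nat_lit 0), (nat_lit 0), [], Pd.none, Pd.none, (nat_lit 0), (nat_lit 1), (nat_lit 0), (nat_lit 0), (nat_lit 6), (nat_lit 0), [⟨(nat_lit 0), (nat_lit 92), (nat_lit 81), (nat_lit 100), (nat_lit 315578839)⟩], [⟨(nat_lit 1), (nat_lit 68), (nat_lit 80), (nat_lit 100), (nat_lit 416884163)⟩], [], [],
 ⟨⟨[(nat_lit 40), (nat_lit 80), (nat_lit 120)], [(nat_lit 0), (nat_lit 0), (nat_lit 2151)], [((nat_lit 0), (nat_lit 0), (nat_lit 0)), ((nat_lit 0), (nat_lit 0), (nat_lit 0)), ((nat_lit 1000), (nat_lit 815), (nat_lit 753))], ((nat_lit 80), (nat_lit 100), (nat_lit 63))⟩, (nat_lit 1665319), (nat_lit 276), (nat_lit 276), (nat_lit 0), (nat_lit 476554), [(nat_lit 2369595355), (nat_lit 4688000066), (nat_lit 7968000000)], [], [(nat_lit 24250633857), (nat_lit 25409629823), (nat_lit 26382930283), (nat_lit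 27248433881), (nat_lit 28627059026), (nat_lit 30309916521), (nat_lit 31099021229), (nat_lit 32343560281)], (nat_lit 1271251), (nat_lit 1271251), (nat_lit 780000), (nat_lit 2090001), (nat_lit 1271251), (nat_lit 1271251), [(nat_lit 490000), (nat_lit 1100000), (nat_lit 1785001)], [(nat_lit 4), (nat_lit 51), (nat_lit 289), (nat_lit 75), (nat_lit 8)]⟩,
 ⟨⟨[(nat_lit 60), (nat_lit 100), (nat_lit 140)], [(nat_lit 0), (nat_lit 0), (nat_lit 2047)], [((nat_lit 0), (nat_lit 0), (nat_lit 0)), ((nat_lit 0), (nat_lit 0), (nat_lit 0)), ((nat_lit 1000), (nat_lit 993), (nat_lit 781))], ((nat_lit 95), (nat_lit 100), (nat_lit 65))⟩, (nat_lit 3945954), (nat_lit 186), (nat_lit 186), (nat_lit 0), (nat_lit 0), [(nat_lit 3282000000), (nat_lit 6250000000), (nat_lit 9842000000)], [], [(nat_lit 20714338391), (nat_lit 23765502604), (nat_lit 26611185876), (nat_lit 29271266536), (nat_lit 20219841276), (nat_lit 22810394376), (nat_lit 24928265586), (nat_lit 26790964939)], (nat_lit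 0), (nat_lit 0), (nat_lit 0), (nat_lit 0), (nat_lit 0), (nat_lit 0), [], [(nat_lit 11), (nat_lit 55), (nat_lit 345), (nat_lit 125), (nat_lit 10)]⟩,
 ⟨⟨[(nat_lit 140), (nat_lit 180), (nat_lit 200)], [(nat_lit 0), (nat_lit 0), (nat_lit 2835)], [((nat_lit 0), (nat_lit 0), (nat_lit 0)), ((nat_lit 0), (nat_lit 0), (nat_lit 0)), ((nat_lit 363), (nat_lit 1000), (nat_lit 798))], ((nat_lit 0), (nat_lit 0), (nat_lit 0))⟩, (nat_lit 31365), (nat_lit 300), (nat_lit 1511), (nat_lit 8903402), (nat_lit 2339932), [(nat_lit 1121988000), (nat_lit 1602612000), (nat_lit 1869600000)], [], [(nat_lit 7740136084), (nat_lit 7416646845), (nat_lit 7703280821), (nat_lit 7352668763), (nat_lit 6104071416), (nat_lit 5794994011), (nat_lit 6018464819), (nat_lit 5685848909)], (nat_lit 780000), (nat_lit 1271251), (nat_lit 1271251), (nat_lit 1271251), (nat_lit 0), (nat_lit 1412501), [(nat_lit 1977501), (nat_lit 1271251), (nat_lit 1271251)], [(nat_lit 32), (nat_lit 67), (nat_lit 469),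 (nat_lit 200), (nat_lit 10)]⟩⟩) (.leaf ⟨(nat_lit 0), (nat_lit 814), (nat_lit 0), (nat_lit 186), (nat_lit 0), (nat_lit 7290), (nat_lit 7048), (nat_lit 2068), (nat_lit 0), (nat_lit 0), (nat_lit 0), [], Pd.none, Pd.none, (nat_lit 0), (nat_lit 1), (nat_lit 0), (nat_lit 0), (nat_lit 6), (nat_lit 0), [⟨(nat_lit 0), (nat_lit 92), (nat_lit 81), (nat_lit 100), (nat_lit 339680296)⟩], [⟨(nat_lit 1), (nat_lit 85), (nat_lit 78), (nat_lit 100), (nat_lit 425883987)⟩], [⟨(nat_lit 1), (nat_lit 72), (nat_lit 89), (nat_lit 100), (nat_lit 414362079)⟩], [⟨(nat_lit 2), (nat_lit 100), (nat_lit 99), (nat_lit 92), (nat_lit 977170)⟩],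
 ⟨⟨[(nat_lit 40), (nat_lit 80), (nat_lit 120)], [(nat_lit 0), (nat_lit 0), (nat_lit 2151)], [((nat_lit 0), (nat_lit 0), (nat_lit 0)), ((nat_lit 0), (nat_lit 0), (nat_lit 0)), ((nat_lit 1000), (nat_lit 815), (nat_lit 753))], ((nat_lit 80), (nat_lit 100), (nat_lit 63))⟩, (nat_lit 1180223), (nat_lit 276), (nat_lit 276), (nat_lit 0), (nat_lit 476554), [(nat_lit 2410528667), (nat_lit 4688000009), (nat_lit 7968000000)], [], [(nat_lit 23945822805), (nat_lit 25151939700), (nat_lit 26320519027), (nat_lit 27587810382), (nat_lit 29537199027), (nat_lit 30931189323), (nat_lit 31541575860), (nat_lit 32835939268)], (nat_lit 1271251), (nat_lit 1271251), (nat_lit 780000), (nat_lit 2090001), (nat_lit 1271251), (nat_lit 1271251), [(nat_lit 490000), (nat_lit 1100000), (nat_lit 1785001)], [(nat_lit 4), (nat_lit 51), (nat_lit 289), (nat_lit 75), (nat_lit 8)]⟩,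
 ⟨⟨[(nat_lit 60), (nat_lit 100), (nat_lit 140)], [(nat_lit 0), (nat_lit 0), (nat_lit 2047)], [((nat_lit 0), (nat_lit 0), (nat_lit 0)), ((nat_lit 0), (nat_lit 0), (nat_lit 0)), ((nat_lit 1000), (nat_lit 993), (nat_lit 781))], ((nat_lit 95), (nat_lit 100), (nat_lit 65))⟩, (nat_lit 0), (nat_lit 96), (nat_lit 96), (nat_lit 0), (nat_lit 0), [(nat_lit 3282000000), (nat_lit 6250000000), (nat_lit 9842000000)], [], [(nat_lit 17743947332), (nat_lit 21076799896), (nat_lit 23179578920), (nat_lit 25506564632), (nat_lit 29892348856), (nat_lit 31754902212), (nat_lit 31781417036), (nat_lit 33420109628)], (nat_lit 0), (nat_lit 0), (nat_lit 0), (nat_lit 0), (nat_lit 0), (nat_lit 0), [], [(nat_lit 11), (nat_lit 55), (nat_lit 401), (nat_lit 175), (nat_lit 11)]⟩,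
 ⟨⟨[(nat_lit 140), (nat_lit 180), (nat_lit 200)], [(nat_lit 0), (nat_lit 0), (nat_lit 2835)], [((nat_lit 0), (nat_lit 0), (nat_lit 0)), ((nat_lit 0), (nat_lit 0), (nat_lit 0)), ((nat_lit 363), (nat_lit 1000), (nat_lit 798))], ((nat_lit 0), (nat_lit 0), (nat_lit 0))⟩, (nat_lit 51175), (nat_lit 300), (nat_lit 1389), (nat_lit 14526600), (nat_lit 2339932), [(nat_lit 1830612000), (nat_lit 2614788000), (nat_lit 3050400000)], [], [(nat_lit 11559128940), (nat_lit 11097675581), (nat_lit 11050876181), (nat_lit 10583360912), (nat_lit 10697210258), (nat_lit 10221191502), (nat_lit 10285756175), (nat_lit 9801532158)], (nat_lit 780000), (nat_lit 1271251), (nat_lit 1271251), (nat_lit 1271251), (nat_lit 1271251), (nat_lit 1271251), [(nat_lit 1977501), (nat_lit 1271251), (nat_lit 1271251)], [(nat_lit 32), (nat_lit 67), (nat_lit 483), (nat_lit 250), (nat_lit 10)]⟩⟩))))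
noncomputable def c11_80 : Tr Lf :=
 (.spl (nat_lit 1) (nat_lit 280) (.spl (nat_lit 3) (nat_lit 200) (.spl (nat_lit 2) (nat_lit 160) (.trX (nat_lit 4) (nat_lit 0) (nat_lit 2) (nat_lit 82) (nat_lit 76) (nat_lit 100) (nat_lit 340) (.trX (nat_lit 5) (nat_lit 1) (nat_lit 2) (nat_lit 100) (nat_lit 40) (nat_lit 100) (nat_lit 390) (.spl (nat_lit 5) (nat_lit 120) (.spl (nat_lit 1) (nat_lit 260) (.spl (nat_lit 2) (nat_lit 140) (.trX (nat_lit 4) (nat_lit 0) (nat_lit 2) (nat_lit 84) (nat_lit 85) (nat_lit 100) (nat_lit 320) (.leaf ⟨(nat_lit 227), (nat_lit 773), (nat_lit 0), (nat_lit 0), (nat_lit 15615), (nat_lit 4552), (nat_lit 5640), (nat_lit 0), (nat_lit 0), (nat_lit 0), (nat_lit 908000), [((nat_lit 340), [((nat_lit 37), (nat_lit 5), (nat_lit 227))])], ⟨(nat_lit 6), false, false, false, (nat_lit 195), (nat_lit 3872), (nat_lit 4473), [(nat_lit 1407125), (nat_lit 1414492), (nat_lit 1428674), (nat_lit 1436268), (nat_lit 1543097), (nat_lit 1543551), (nat_lit 1564646),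 (nat_lit 1565327)]⟩, ⟨(nat_lit 6), false, false, true, (nat_lit 223), (nat_lit 3872), (nat_lit 4473), [(nat_lit 1481711), (nat_lit 1477347), (nat_lit 1503277), (nat_lit 1499140), (nat_lit 1617667), (nat_lit 1606390), (nat_lit 1639234), (nat_lit 1628183)]⟩, (nat_lit 5029016), (nat_lit 41120728), (nat_lit 11584685), (nat_lit 14294587), (nat_lit 6), (nat_lit 0), [], [⟨(nat_lit 1), (nat_lit 93), (nat_lit 81), (nat_lit 100), (nat_lit 486532244)⟩], [], [],
 ⟨⟨[(nat_lit 40), (nat_lit 80), (nat_lit 120)], [(nat_lit 0), (nat_lit 0), (nat_lit 2151)], [((nat_lit 0), (nat_lit 0), (nat_lit 0)), ((nat_lit 0), (nat_lit 0), (nat_lit 0)), ((nat_lit 1000), (nat_lit 815), (nat_lit 753))], ((nat_lit 80), (nat_lit 100), (nat_lit 63))⟩, (nat_lit 5504), (nat_lit 126), (nat_lit 126), (nat_lit 0), (nat_lit 98991), [(nat_lit 2170277488), (nat_lit 2846672135), (nat_lit 1248159822)], [(nat_lit 0), (nat_lit 0), (nat_lit 0)], [(nat_lit 20914099598), (nat_lit 22153859154), (nat_lit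 22004259934), (nat_lit 23106224822), (nat_lit 24408239006), (nat_lit 25507233154), (nat_lit 25153533303), (nat_lit 26276006252)], (nat_lit 1271251), (nat_lit 1271251), (nat_lit 780000), (nat_lit 1435001), (nat_lit 1271251), (nat_lit 1271251), [(nat_lit 490000), (nat_lit 1100000), (nat_lit 1785001)], [(nat_lit 4), (nat_lit 51), (nat_lit 260), (nat_lit 50), (nat_lit 7)]⟩,
 ⟨⟨[(nat_lit 80), (nat_lit 120), (nat_lit 160)], [(nat_lit 0), (nat_lit 0), (nat_lit 2132)], [((nat_lit 0), (nat_lit 0), (nat_lit 0)), ((nat_lit 0), (nat_lit 0), (nat_lit 0)), ((nat_lit 858), (nat_lit 1000), (nat_lit 713))], ((nat_lit 100), (nat_lit 91), (nat_lit 64))⟩, (nat_lit 1369474), (nat_lit 322), (nat_lit 322), (nat_lit 0), (nat_lit 98920), [(nat_lit 3623824000), (nat_lit 6159264000), (nat_lit 9177056000)], [], [(nat_lit 27918622120), (nat_lit 26885131112), (nat_lit 26563897696), (nat_lit 27270444371), (nat_lit 23267688224), (nat_lit 23889405743), (nat_lit 23579191744), (nat_lit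 24111720052)], (nat_lit 1271251), (nat_lit 1271251), (nat_lit 780000), (nat_lit 1435001), (nat_lit 0), (nat_lit 780000), [(nat_lit 1100000), (nat_lit 1785001), (nat_lit 1271251)], [(nat_lit 18), (nat_lit 59), (nat_lit 373), (nat_lit 150), (nat_lit 10)]⟩,
 Rw.none⟩)) (.spl (nat_lit 6) (nat_lit 36) (.leaf ⟨(nat_lit 0), (nat_lit 232), (nat_lit 0), (nat_lit 768), (nat_lit 3409), (nat_lit 8765), (nat_lit 7029), (nat_lit 9966), (nat_lit 0), (nat_lit 0), (nat_lit 0), [], Pd.none, Pd.none, (nat_lit 0), (nat_lit 1), (nat_lit 0), (nat_lit 0), (nat_lit 6), (nat_lit 0), [], [], [], [],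
 ⟨⟨[(nat_lit 40), (nat_lit 80), (nat_lit 100)], [(nat_lit 0), (nat_lit 0), (nat_lit 1280)], [((nat_lit 0), (nat_lit 0), (nat_lit 0)), ((nat_lit 0), (nat_lit 0), (nat_lit 0)), ((nat_lit 1000), (nat_lit 800), (nat_lit 600))], ((nat_lit 80), (nat_lit 100), (nat_lit 57))⟩, (nat_lit 0), (nat_lit 106), (nat_lit 106), (nat_lit 0), (nat_lit 68288), [(nat_lit 3651756455), (nat_lit 5828705951), (nat_lit 6250000000)], [], [(nat_lit 21176024120), (nat_lit 23296641768), (nat_lit 21890652260), (nat_lit 23989102070), (nat_lit 29653363558), (nat_lit 31705479730), (nat_lit 29448030828), (nat_lit 31241285767)], (nat_lit 1271251), (nat_lit 1271251), (nat_lit 780000), (nat_lit 1435001), (nat_lit 1271251), (nat_lit 1271251), [(nat_lit 490000), (nat_lit 1100000), (nat_lit 1442501)], [(nat_lit 3), (nat_lit 50), (nat_lit 260), (nat_lit 50), (nat_lit 8)]⟩,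
 ⟨⟨[(nat_lit 80), (nat_lit 120), (nat_lit 140)], [(nat_lit 0), (nat_lit 0), (nat_lit 1164)], [((nat_lit 0), (nat_lit 0), (nat_lit 0)), ((nat_lit 0), (nat_lit 0), (nat_lit 0)), ((nat_lit 941), (nat_lit 1000), (nat_lit 576))], ((nat_lit 100), (nat_lit 94), (nat_lit 58))⟩, (nat_lit 0), (nat_lit 214), (nat_lit 214), (nat_lit 0), (nat_lit 65357), [(nat_lit 4688000000), (nat_lit 7968000000), (nat_lit 9842000000)], [], [(nat_lit 35990457020), (nat_lit 34654617480), (nat_lit 34501048146), (nat_lit 35379380539), (nat_lit 30368128301), (nat_lit 31266884702), (nat_lit 31102292739), (nat_lit 31875421024)], (nat_lit 1271251), (nat_lit 1271251), (nat_lit 780000), (nat_lit 1435001), (nat_lit 0), (nat_lit 780000), [(nat_lit 1100000), (nat_lit 1785001), (nat_lit 1271251)], [(nat_lit 17), (nat_lit 58), (nat_lit 373), (nat_lit 150), (nat_lit 11)]⟩,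
 ⟨⟨[(nat_lit 140), (nat_lit 160), (nat_lit 180)], [(nat_lit 0), (nat_lit 304), (nat_lit 1085)], [((nat_lit 0), (nat_lit 0), (nat_lit 0)), ((nat_lit 913), (nat_lit 1000), (nat_lit 217)), ((nat_lit 759), (nat_lit 1000), (nat_lit 463))], ((nat_lit 100), (nat_lit 64), (nat_lit 60))⟩, (nat_lit 725621), (nat_lit 300), (nat_lit 414), (nat_lit 55606921), (nat_lit 139529), [(nat_lit 7558656000), (nat_lit 9117696000), (nat_lit 10796544000)], [], [(nat_lit 39617179428), (nat_lit 39053010816), (nat_lit 42615913017), (nat_lit 41917045290), (nat_lit 31585705869), (nat_lit 31033559070), (nat_lit 34009571868), (nat_lit 33366198942)], (nat_lit 936250), (nat_lit 1100000), (nat_lit 1271251), (nat_lit 1271251), (nat_lit 0), (nat_lit 780000), [(nat_lit 1977501), (nat_lit 1271251), (nat_lit 1271251)], [(nat_lit 31), (nat_lit 65), (nat_lit 401), (nat_lit 175), (nat_lit 9)]⟩⟩) (.dle (nat_lit 0)))) (.leaf ⟨(nat_lit 0), (nat_lit 770), (nat_lit 0), (nat_lit 230), (nat_lit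 1694), (nat_lit 5965), (nat_lit 10564), (nat_lit 3482), (nat_lit 0), (nat_lit 0), (nat_lit 0), [], Pd.none, Pd.none, (nat_lit 0), (nat_lit 1), (nat_lit 0), (nat_lit 0), (nat_lit 6), (nat_lit 0), [], [⟨(nat_lit 1), (nat_lit 89), (nat_lit 80), (nat_lit 100), (nat_lit 183600736)⟩], [], [⟨(nat_lit 0), (nat_lit 91), (nat_lit 100), (nat_lit 27), (nat_lit 544031935)⟩],
 ⟨⟨[(nat_lit 40), (nat_lit 80), (nat_lit 120)], [(nat_lit 0), (nat_lit 0), (nat_lit 2151)], [((nat_lit 0), (nat_lit 0), (nat_lit 0)), ((nat_lit 0), (nat_lit 0), (nat_lit 0)), ((nat_lit 1000), (nat_lit 815), (nat_lit 753))], ((nat_lit 80), (nat_lit 100), (nat_lit 63))⟩, (nat_lit 2234741), (nat_lit 148), (nat_lit 148), (nat_lit 0), (nat_lit 149910), [(nat_lit 2428601691), (nat_lit 4688000015), (nat_lit 7968000000)], [], [(nat_lit 21745079789), (nat_lit 23271052784), (nat_lit 22604521789), (nat_lit 23948619644), (nat_lit 26984795670), (nat_lit 28508490130), (nat_lit 27454290120), (nat_lit 28761871067)],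 (nat_lit 1271251), (nat_lit 1271251), (nat_lit 780000), (nat_lit 1435001), (nat_lit 1271251), (nat_lit 1271251), [(nat_lit 490000), (nat_lit 1100000), (nat_lit 1785001)], [(nat_lit 4), (nat_lit 51), (nat_lit 260), (nat_lit 50), (nat_lit 7)]⟩,
 ⟨⟨[(nat_lit 80), (nat_lit 120), (nat_lit 140)], [(nat_lit 0), (nat_lit 528), (nat_lit 1572)], [((nat_lit 0), (nat_lit 0), (nat_lit 0)), ((nat_lit 1000), (nat_lit 959), (nat_lit 206)), ((nat_lit 966), (nat_lit 1000), (nat_lit 679))], ((nat_lit 100), (nat_lit 98), (nat_lit 66))⟩, (nat_lit 3562), (nat_lit 232), (nat_lit 232), (nat_lit 0), (nat_lit 135251), [(nat_lit 4688000000), (nat_lit 7968000000), (nat_lit 9842000000)], [], [(nat_lit 32203557126), (nat_lit 32375837840), (nat_lit 31284788562), (nat_lit 32593872116), (nat_lit 23969351620), (nat_lit 25326020188), (nat_lit 24336745088), (nat_lit 25482374544)], (nat_lit 1271251), (nat_lit 1271251), (nat_lit 780000), (nat_lit 1435001), (nat_lit 0), (nat_lit 780000),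 [(nat_lit 1100000), (nat_lit 1785001), (nat_lit 1271251)], [(nat_lit 17), (nat_lit 58), (nat_lit 373), (nat_lit 150), (nat_lit 11)]⟩,
 ⟨⟨[(nat_lit 140), (nat_lit 180), (nat_lit 200)], [(nat_lit 0), (nat_lit 0), (nat_lit 2835)], [((nat_lit 0), (nat_lit 0), (nat_lit 0)), ((nat_lit 0), (nat_lit 0), (nat_lit 0)), ((nat_lit 363), (nat_lit 1000), (nat_lit 798))], ((nat_lit 0), (nat_lit 0), (nat_lit 0))⟩, (nat_lit 63280), (nat_lit 300), (nat_lit 638), (nat_lit 17963006), (nat_lit 390097), [(nat_lit 2263660000), (nat_lit 3233340000), (nat_lit 3772000000)], [], [(nat_lit 14993371336), (nat_lit 14451071472), (nat_lit 15520996572), (nat_lit 14914436850), (nat_lit 12042869688), (nat_lit 11470781296), (nat_lit 12278505437), (nat_lit 11719280443)], (nat_lit 780000), (nat_lit 1100000), (nat_lit 1271251), (nat_lit 1271251), (nat_lit 0), (nat_lit 780000), [(nat_lit 1977501), (nat_lit 1271251), (nat_lit 1271251)], [(nat_lit 32), (nat_lit 67), (nat_lit 401), (nat_lit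 175), (nat_lit 9)]⟩⟩)) (.leaf ⟨(nat_lit 0), (nat_lit 0), (nat_lit 0), (nat_lit 1000), (nat_lit 0), (nat_lit 6686), (nat_lit 6469), (nat_lit 13901), (nat_lit 0), (nat_lit 0), (nat_lit 0), [], Pd.none, Pd.none, (nat_lit 0), (nat_lit 1), (nat_lit 0), (nat_lit 0), (nat_lit 0), (nat_lit 0), [⟨(nat_lit 0), (nat_lit 99), (nat_lit 77), (nat_lit 100), (nat_lit 340393284)⟩], [], [], [],
 ⟨⟨[(nat_lit 40), (nat_lit 80), (nat_lit 120)], [(nat_lit 0), (nat_lit 0), (nat_lit 2151)], [((nat_lit 0), (nat_lit 0), (nat_lit 0)), ((nat_lit 0), (nat_lit 0), (nat_lit 0)), ((nat_lit 1000), (nat_lit 815), (nat_lit 753))], ((nat_lit 80), (nat_lit 100), (nat_lit 63))⟩, (nat_lit 2563070), (nat_lit 148), (nat_lit 148), (nat_lit 0), (nat_lit 149910), [(nat_lit 3145307885), (nat_lit 4688000031), (nat_lit 7968000000)], [], [(nat_lit 20519401102), (nat_lit 22153379917), (nat_lit 21422809843), (nat_lit 23148899168), (nat_lit 27607221113), (nat_lit 29331714952), (nat_lit 27882723661),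 (nat_lit 29400320352)], (nat_lit 1271251), (nat_lit 1271251), (nat_lit 780000), (nat_lit 1435001), (nat_lit 1271251), (nat_lit 1271251), [(nat_lit 490000), (nat_lit 1100000), (nat_lit 1785001)], [(nat_lit 4), (nat_lit 51), (nat_lit 260), (nat_lit 50), (nat_lit 7)]⟩,
 ⟨⟨[(nat_lit 80), (nat_lit 120), (nat_lit 160)], [(nat_lit 0), (nat_lit 0), (nat_lit 2132)], [((nat_lit 0), (nat_lit 0), (nat_lit 0)), ((nat_lit 0), (nat_lit 0), (nat_lit 0)), ((nat_lit 858), (nat_lit 1000), (nat_lit 713))], ((nat_lit 100), (nat_lit 91), (nat_lit 64))⟩, (nat_lit 0), (nat_lit 234), (nat_lit 234), (nat_lit 0), (nat_lit 208938), [(nat_lit 4688000000), (nat_lit 7968000000), (nat_lit 11872000000)], [], [(nat_lit 37932260107), (nat_lit 31140255842), (nat_lit 30061920503), (nat_lit 31959193163), (nat_lit 47095985641), (nat_lit 41254814221), (nat_lit 54982452676), (nat_lit 49288691976)], (nat_lit 1271251), (nat_lit 1271251), (nat_lit 780000), (nat_lit 1435001), (nat_lit 780000),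 (nat_lit 2990626), [(nat_lit 1100000), (nat_lit 1785001), (nat_lit 1271251)], [(nat_lit 18), (nat_lit 59), (nat_lit 456), (nat_lit 225), (nat_lit 11)]⟩,
 ⟨⟨[(nat_lit 140), (nat_lit 180), (nat_lit 200)], [(nat_lit 0), (nat_lit 0), (nat_lit 2835)], [((nat_lit 0), (nat_lit 0), (nat_lit 0)), ((nat_lit 0), (nat_lit 0), (nat_lit 0)), ((nat_lit 363), (nat_lit 1000), (nat_lit 798))], ((nat_lit 0), (nat_lit 0), (nat_lit 0))⟩, (nat_lit 275132), (nat_lit 300), (nat_lit 504), (nat_lit 78100004), (nat_lit 390097), [(nat_lit 9842000000), (nat_lit 14058000000), (nat_lit 16400000000)], [], [(nat_lit 52318173926), (nat_lit 50389614910), (nat_lit 54304850901), (nat_lit 52124836554), (nat_lit 50784186834), (nat_lit 48437161201), (nat_lit 50925871861), (nat_lit 48599291963)], (nat_lit 780000), (nat_lit 1100000), (nat_lit 1271251), (nat_lit 1271251), (nat_lit 780000), (nat_lit 2990626), [(nat_lit 1977501), (nat_lit 1271251), (nat_lit 1271251)], [(nat_lit 32), (nat_lit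 67), (nat_lit 456), (nat_lit 225), (nat_lit 9)]⟩⟩)))) (.leaf ⟨(nat_lit 0), (nat_lit 234), (nat_lit 0), (nat_lit 766), (nat_lit 19539), (nat_lit 6695), (nat_lit 9780), (nat_lit 10038), (nat_lit 0), (nat_lit 0), (nat_lit 0), [], Pd.none, Pd.none, (nat_lit 0), (nat_lit 1), (nat_lit 0), (nat_lit 0), (nat_lit 6), (nat_lit 0), [], [], [⟨(nat_lit 0), (nat_lit 100), (nat_lit 96), (nat_lit 16), (nat_lit 97992514)⟩], [],
 ⟨⟨[(nat_lit 40), (nat_lit 80), (nat_lit 120)], [(nat_lit 0), (nat_lit 0), (nat_lit 2151)], [((nat_lit 0), (nat_lit 0), (nat_lit 0)), ((nat_lit 0), (nat_lit 0), (nat_lit 0)), ((nat_lit 1000), (nat_lit 815), (nat_lit 753))], ((nat_lit 80), (nat_lit 100), (nat_lit 63))⟩, (nat_lit 2558360), (nat_lit 137), (nat_lit 137), (nat_lit 0), (nat_lit 98839), [(nat_lit 3108928736), (nat_lit 4694845913), (nat_lit 7968000000)], [], [(nat_lit 20523048280), (nat_lit 22158329103), (nat_lit 21421614603), (nat_lit 23152536410), (nat_lit 28533694034), (nat_lit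 30204947049), (nat_lit 28695846969), (nat_lit 30167684907)], (nat_lit 1271251), (nat_lit 1271251), (nat_lit 780000), (nat_lit 1435001), (nat_lit 1271251), (nat_lit 1271251), [(nat_lit 490000), (nat_lit 1100000), (nat_lit 1785001)], [(nat_lit 4), (nat_lit 51), (nat_lit 260), (nat_lit 50), (nat_lit 7)]⟩,
 ⟨⟨[(nat_lit 80), (nat_lit 120), (nat_lit 160)], [(nat_lit 0), (nat_lit 0), (nat_lit 2132)], [((nat_lit 0), (nat_lit 0), (nat_lit 0)), ((nat_lit 0), (nat_lit 0), (nat_lit 0)), ((nat_lit 858), (nat_lit 1000), (nat_lit 713))], ((nat_lit 100), (nat_lit 91), (nat_lit 64))⟩, (nat_lit 1992327), (nat_lit 342), (nat_lit 342), (nat_lit 0), (nat_lit 139328), [(nat_lit 4688000000), (nat_lit 7968000000), (nat_lit 11872000000)], [], [(nat_lit 37295476400), (nat_lit 33974776276), (nat_lit 35260606600), (nat_lit 33848390316), (nat_lit 57432781640), (nat_lit 49062490400), (nat_lit 68935842280), (nat_lit 60765111940)], (nat_lit 1271251), (nat_lit 1271251), (nat_lit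 780000), (nat_lit 1435001), (nat_lit 0), (nat_lit 2825001), [(nat_lit 1100000), (nat_lit 1785001), (nat_lit 1271251)], [(nat_lit 18), (nat_lit 59), (nat_lit 456), (nat_lit 225), (nat_lit 12)]⟩,
 ⟨⟨[(nat_lit 120), (nat_lit 160), (nat_lit 180)], [(nat_lit 0), (nat_lit 0), (nat_lit 1613)], [((nat_lit 0), (nat_lit 0), (nat_lit 0)), ((nat_lit 0), (nat_lit 0), (nat_lit 0)), ((nat_lit 620), (nat_lit 1000), (nat_lit 670))], ((nat_lit 100), (nat_lit 65), (nat_lit 64))⟩, (nat_lit 333374), (nat_lit 300), (nat_lit 416), (nat_lit 56837200), (nat_lit 164367), [(nat_lit 6103488000), (nat_lit 9093952000), (nat_lit 10768428000)], [], [(nat_lit 39421321438), (nat_lit 39312005380), (nat_lit 42725249939), (nat_lit 42425644316), (nat_lit 41435792376), (nat_lit 44488525550), (nat_lit 34474915838), (nat_lit 34093686788)], (nat_lit 1100000), (nat_lit 1271251), (nat_lit 1271251), (nat_lit 1271251), (nat_lit 0), (nat_lit 2825001), [(nat_lit 1695001), (nat_lit 1271251), (nat_lit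 1271251)], [(nat_lit 28), (nat_lit 65), (nat_lit 483), (nat_lit 250), (nat_lit 11)]⟩⟩)) (.leaf ⟨(nat_lit 0), (nat_lit 581), (nat_lit 0), (nat_lit 419), (nat_lit 1151), (nat_lit 5811), (nat_lit 9255), (nat_lit 5485), (nat_lit 0), (nat_lit 0), (nat_lit 0), [], Pd.none, Pd.none, (nat_lit 0), (nat_lit 1), (nat_lit 0), (nat_lit 0), (nat_lit 6), (nat_lit 0), [], [⟨(nat_lit 1), (nat_lit 85), (nat_lit 78), (nat_lit 100), (nat_lit 69935554)⟩], [], [],
 ⟨⟨[(nat_lit 40), (nat_lit 80), (nat_lit 120)], [(nat_lit 0), (nat_lit 0), (nat_lit 2151)], [((nat_lit 0), (nat_lit 0), (nat_lit 0)), ((nat_lit 0), (nat_lit 0), (nat_lit 0)), ((nat_lit 1000), (nat_lit 815), (nat_lit 753))], ((nat_lit 80), (nat_lit 100), (nat_lit 63))⟩, (nat_lit 2001193), (nat_lit 133), (nat_lit 133), (nat_lit 0), (nat_lit 151364), [(nat_lit 2451844264), (nat_lit 4688014379), (nat_lit 7968000000)], [], [(nat_lit 23241979729), (nat_lit 24566851146), (nat_lit 25725048787), (nat_lit 26848656032),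 (nat_lit 28315762449), (nat_lit 29326641378), (nat_lit 30255645999), (nat_lit 31405234904)], (nat_lit 1271251), (nat_lit 1271251), (nat_lit 1271251), (nat_lit 1271251), (nat_lit 1271251), (nat_lit 1271251), [(nat_lit 490000), (nat_lit 1100000), (nat_lit 1785001)], [(nat_lit 4), (nat_lit 51), (nat_lit 289), (nat_lit 75), (nat_lit 8)]⟩,
 ⟨⟨[(nat_lit 80), (nat_lit 120), (nat_lit 160)], [(nat_lit 0), (nat_lit 0), (nat_lit 2132)], [((nat_lit 0), (nat_lit 0), (nat_lit 0)), ((nat_lit 0), (nat_lit 0), (nat_lit 0)), ((nat_lit 858), (nat_lit 1000), (nat_lit 713))], ((nat_lit 100), (nat_lit 91), (nat_lit 64))⟩, (nat_lit 2286096), (nat_lit 345), (nat_lit 345), (nat_lit 0), (nat_lit 211864), [(nat_lit 4688000000), (nat_lit 7968000000), (nat_lit 11872000000)], [], [(nat_lit 33766426900), (nat_lit 33623691408), (nat_lit 34302179978), (nat_lit 35953267558), (nat_lit 43660965530), (nat_lit 35541257870), (nat_lit 34345870758), (nat_lit 35735114235)], (nat_lit 1271251),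 (nat_lit 1271251), (nat_lit 1271251), (nat_lit 1271251), (nat_lit 0), (nat_lit 2825001), [(nat_lit 1100000), (nat_lit 1785001), (nat_lit 1271251)], [(nat_lit 18), (nat_lit 59), (nat_lit 483), (nat_lit 250), (nat_lit 12)]⟩,
 ⟨⟨[(nat_lit 140), (nat_lit 180), (nat_lit 200)], [(nat_lit 0), (nat_lit 0), (nat_lit 2835)], [((nat_lit 0), (nat_lit 0), (nat_lit 0)), ((nat_lit 0), (nat_lit 0), (nat_lit 0)), ((nat_lit 363), (nat_lit 1000), (nat_lit 798))], ((nat_lit 0), (nat_lit 0), (nat_lit 0))⟩, (nat_lit 115281), (nat_lit 300), (nat_lit 638), (nat_lit 32723900), (nat_lit 390097), [(nat_lit 4123798000), (nat_lit 5890302000), (nat_lit 6871600000)], [], [(nat_lit 28353411036), (nat_lit 27141691278), (nat_lit 28203832137), (nat_lit 27024891559), (nat_lit 25237895824), (nat_lit 29798453705), (nat_lit 21659052137), (nat_lit 20480109924)], (nat_lit 780000), (nat_lit 1271251), (nat_lit 1271251), (nat_lit 1271251), (nat_lit 0), (nat_lit 2825001), [(nat_lit 1977501),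 (nat_lit 1271251), (nat_lit 1271251)], [(nat_lit 32), (nat_lit 67), (nat_lit 483), (nat_lit 250), (nat_lit 10)]⟩⟩)) (.trX (nat_lit 5) (nat_lit 1) (nat_lit 2) (nat_lit 92) (nat_lit 49) (nat_lit 100) (nat_lit 380) (.spl (nat_lit 5) (nat_lit 200) (.leaf ⟨(nat_lit 0), (nat_lit 743), (nat_lit 0), (nat_lit 257), (nat_lit 0), (nat_lit 6516), (nat_lit 6019), (nat_lit 3364), (nat_lit 0), (nat_lit 0), (nat_lit 0), [], Pd.none, Pd.none, (nat_lit 0), (nat_lit 1), (nat_lit 0), (nat_lit 0), (nat_lit 6), (nat_lit 0), [⟨(nat_lit 0), (nat_lit 92), (nat_lit 81), (nat_lit 100), (nat_lit 218258821)⟩], [⟨(nat_lit 1), (nat_lit 85), (nat_lit 78), (nat_lit 100), (nat_lit 289517744)⟩], [], [],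
 ⟨⟨[(nat_lit 40), (nat_lit 80), (nat_lit 120)], [(nat_lit 0), (nat_lit 0), (nat_lit 2151)], [((nat_lit 0), (nat_lit 0), (nat_lit 0)), ((nat_lit 0), (nat_lit 0), (nat_lit 0)), ((nat_lit 1000), (nat_lit 815), (nat_lit 753))], ((nat_lit 80), (nat_lit 100), (nat_lit 63))⟩, (nat_lit 1813992), (nat_lit 185), (nat_lit 185), (nat_lit 0), (nat_lit 270257), [(nat_lit 2842245385), (nat_lit 4688000192), (nat_lit 7968000000)], [], [(nat_lit 23219248864), (nat_lit 24571474886), (nat_lit 25961951496), (nat_lit 26970796288), (nat_lit 28375581279), (nat_lit 29986464079), (nat_lit 30868614594), (nat_lit 32087213657)], (nat_lit 1271251), (nat_lit 1271251), (nat_lit 780000), (nat_lit 2090001), (nat_lit 1271251), (nat_lit 1271251), [(nat_lit 490000), (nat_lit 1100000), (nat_lit 1785001)], [(nat_lit 4), (nat_lit 51), (nat_lit 289), (nat_lit 75), (nat_lit 8)]⟩,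
 ⟨⟨[(nat_lit 60), (nat_lit 100), (nat_lit 140)], [(nat_lit 0), (nat_lit 0), (nat_lit 2047)], [((nat_lit 0), (nat_lit 0), (nat_lit 0)), ((nat_lit 0), (nat_lit 0), (nat_lit 0)), ((nat_lit 1000), (nat_lit 993), (nat_lit 781))], ((nat_lit 95), (nat_lit 100), (nat_lit 65))⟩, (nat_lit 0), (nat_lit 343), (nat_lit 343), (nat_lit 0), (nat_lit 304793), [(nat_lit 3282000000), (nat_lit 6250000000), (nat_lit 9842000000)], [], [(nat_lit 32749757715), (nat_lit 35205277500), (nat_lit 36681030443), (nat_lit 38450467106), (nat_lit 31276485557), (nat_lit 32854332989), (nat_lit 46377269791), (nat_lit 41095735728)], (nat_lit 1271251), (nat_lit 1271251), (nat_lit 780000), (nat_lit 2090001), (nat_lit 0), (nat_lit 1412501), [(nat_lit 780000), (nat_lit 1435001), (nat_lit 1271251)], [(nat_lit 11), (nat_lit 55), (nat_lit 345), (nat_lit 125), (nat_lit 10)]⟩,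
 ⟨⟨[(nat_lit 140), (nat_lit 180), (nat_lit 200)], [(nat_lit 0), (nat_lit 0), (nat_lit 2835)], [((nat_lit 0), (nat_lit 0), (nat_lit 0)), ((nat_lit 0), (nat_lit 0), (nat_lit 0)), ((nat_lit 363), (nat_lit 1000), (nat_lit 798))], ((nat_lit 0), (nat_lit 0), (nat_lit 0))⟩, (nat_lit 70709), (nat_lit 300), (nat_lit 770), (nat_lit 20071700), (nat_lit 701430), [(nat_lit 2529394000), (nat_lit 3612906000), (nat_lit 4214800000)], [], [(nat_lit 17391367200), (nat_lit 16648229847), (nat_lit 17299676142), (nat_lit 16576122609), (nat_lit 13640240036), (nat_lit 12930246352), (nat_lit 13437571465), (nat_lit 12673913388)], (nat_lit 780000), (nat_lit 1271251), (nat_lit 1271251), (nat_lit 1271251), (nat_lit 0), (nat_lit 1412501), [(nat_lit 1977501), (nat_lit 1271251), (nat_lit 1271251)], [(nat_lit 32), (nat_lit 67), (nat_lit 428), (nat_lit 200), (nat_lit 9)]⟩⟩) (.leaf ⟨(nat_lit 0), (nat_lit 135), (nat_lit 0), (nat_lit 865), (nat_lit 0), (nat_lit 7200), (nat_lit 10118),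 (nat_lit 10104), (nat_lit 0), (nat_lit 0), (nat_lit 0), [], Pd.none, Pd.none, (nat_lit 0), (nat_lit 1), (nat_lit 0), (nat_lit 0), (nat_lit 6), (nat_lit 0), [⟨(nat_lit 0), (nat_lit 81), (nat_lit 72), (nat_lit 100), (nat_lit 201608667)⟩], [], [], [],
 ⟨⟨[(nat_lit 40), (nat_lit 80), (nat_lit 120)], [(nat_lit 0), (nat_lit 0), (nat_lit 2151)], [((nat_lit 0), (nat_lit 0), (nat_lit 0)), ((nat_lit 0), (nat_lit 0), (nat_lit 0)), ((nat_lit 1000), (nat_lit 815), (nat_lit 753))], ((nat_lit 80), (nat_lit 100), (nat_lit 63))⟩, (nat_lit 2294742), (nat_lit 185), (nat_lit 185), (nat_lit 0), (nat_lit 270257), [(nat_lit 3026202946), (nat_lit 4688000034), (nat_lit 7968000000)], [], [(nat_lit 21003308792), (nat_lit 22436557692), (nat_lit 25070122400), (nat_lit 26805328300), (nat_lit 29073967400), (nat_lit 30821337550), (nat_lit 31463324550), (nat_lit 32748878150)], (nat_lit 1271251), (nat_lit 1271251), (nat_lit 780000), (nat_lit 2090001), (nat_lit 1271251), (nat_lit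 1271251), [(nat_lit 490000), (nat_lit 1100000), (nat_lit 1785001)], [(nat_lit 4), (nat_lit 51), (nat_lit 289), (nat_lit 75), (nat_lit 8)]⟩,
 ⟨⟨[(nat_lit 60), (nat_lit 100), (nat_lit 140)], [(nat_lit 0), (nat_lit 0), (nat_lit 2047)], [((nat_lit 0), (nat_lit 0), (nat_lit 0)), ((nat_lit 0), (nat_lit 0), (nat_lit 0)), ((nat_lit 1000), (nat_lit 993), (nat_lit 781))], ((nat_lit 95), (nat_lit 100), (nat_lit 65))⟩, (nat_lit 3822134), (nat_lit 231), (nat_lit 231), (nat_lit 0), (nat_lit 304793), [(nat_lit 3282000000), (nat_lit 6250000000), (nat_lit 9842000000)], [], [(nat_lit 15721808769), (nat_lit 18860820532), (nat_lit 21369752164), (nat_lit 25127381412), (nat_lit 32983104017), (nat_lit 35828198167), (nat_lit 34718162151), (nat_lit 36607033648)], (nat_lit 1271251), (nat_lit 1271251), (nat_lit 780000), (nat_lit 2090001), (nat_lit 1271251), (nat_lit 1271251), [(nat_lit 780000), (nat_lit 1435001), (nat_lit 1271251)], [(nat_lit 11), (nat_lit 55), (nat_lit 401),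 (nat_lit 175), (nat_lit 11)]⟩,
 ⟨⟨[(nat_lit 140), (nat_lit 180), (nat_lit 200)], [(nat_lit 0), (nat_lit 0), (nat_lit 2835)], [((nat_lit 0), (nat_lit 0), (nat_lit 0)), ((nat_lit 0), (nat_lit 0), (nat_lit 0)), ((nat_lit 363), (nat_lit 1000), (nat_lit 798))], ((nat_lit 0), (nat_lit 0), (nat_lit 0))⟩, (nat_lit 237989), (nat_lit 300), (nat_lit 632), (nat_lit 67556506), (nat_lit 701430), [(nat_lit 8513330000), (nat_lit 12160170000), (nat_lit 14186000000)], [], [(nat_lit 48986242612), (nat_lit 46933407712), (nat_lit 48550815075), (nat_lit 46332640865), (nat_lit 47551229954), (nat_lit 45263452443), (nat_lit 46281035521), (nat_lit 43882347078)], (nat_lit 780000), (nat_lit 1271251), (nat_lit 1271251), (nat_lit 1271251), (nat_lit 1271251), (nat_lit 1271251), [(nat_lit 1977501), (nat_lit 1271251), (nat_lit 1271251)], [(nat_lit 32), (nat_lit 67), (nat_lit 483), (nat_lit 250), (nat_lit 10)]⟩⟩))))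
noncomputable def c11_81 : Tr Lf :=
 (.spl (nat_lit 5) (nat_lit 120) (.spl (nat_lit 1) (nat_lit 280) (.leaf ⟨(nat_lit 0), (nat_lit 173), (nat_lit 0), (nat_lit 827), (nat_lit 28578), (nat_lit 6681), (nat_lit 11324), (nat_lit 9915), (nat_lit 0), (nat_lit 0), (nat_lit 0), [], Pd.none, Pd.none, (nat_lit 0), (nat_lit 1), (nat_lit 0), (nat_lit 0), (nat_lit 6), (nat_lit 0), [], [], [⟨(nat_lit 0), (nat_lit 100), (nat_lit 95), (nat_lit 30), (nat_lit 658495985)⟩, ⟨(nat_lit 0), (nat_lit 100), (nat_lit 98), (nat_lit 10), (nat_lit 249016486)⟩], [],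
 ⟨⟨[(nat_lit 40), (nat_lit 80), (nat_lit 120)], [(nat_lit 0), (nat_lit 0), (nat_lit 2151)], [((nat_lit 0), (nat_lit 0), (nat_lit 0)), ((nat_lit 0), (nat_lit 0), (nat_lit 0)), ((nat_lit 1000), (nat_lit 815), (nat_lit 753))], ((nat_lit 80), (nat_lit 100), (nat_lit 63))⟩, (nat_lit 2563007), (nat_lit 161), (nat_lit 161), (nat_lit 0), (nat_lit 148997), [(nat_lit 2921361317), (nat_lit 4688000331), (nat_lit 7968000000)], [], [(nat_lit 20523138855), (nat_lit 22155832466), (nat_lit 24850096502), (nat_lit 26507251549), (nat_lit 31267964227), (nat_lit 32773417855), (nat_lit 33039132066), (nat_lit 34157261662)], (nat_lit 1271251), (nat_lit 1271251), (nat_lit 780000), (nat_lit 2090001), (nat_lit 1271251), (nat_lit 1271251), [(nat_lit 490000), (nat_lit 1100000), (nat_lit 1785001)], [(nat_lit 4), (nat_lit 51), (nat_lit 289), (nat_lit 75), (nat_lit 8)]⟩,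
 ⟨⟨[(nat_lit 80), (nat_lit 120), (nat_lit 160)], [(nat_lit 0), (nat_lit 0), (nat_lit 2132)], [((nat_lit 0), (nat_lit 0), (nat_lit 0)), ((nat_lit 0), (nat_lit 0), (nat_lit 0)), ((nat_lit 858), (nat_lit 1000), (nat_lit 713))], ((nat_lit 100), (nat_lit 91), (nat_lit 64))⟩, (nat_lit 3355491), (nat_lit 354), (nat_lit 354), (nat_lit 0), (nat_lit 171515), [(nat_lit 4688000000), (nat_lit 7968000000), (nat_lit 11872000000)], [], [(nat_lit 38027919120), (nat_lit 30181170740), (nat_lit 44960974784), (nat_lit 34499365328), (nat_lit 29581393436), (nat_lit 22045391834), (nat_lit 52297454860), (nat_lit 42234410570)], (nat_lit 1271251), (nat_lit 1271251), (nat_lit 780000), (nat_lit 2090001), (nat_lit 0), (nat_lit 780000), [(nat_lit 1100000), (nat_lit 1785001), (nat_lit 1271251)], [(nat_lit 18), (nat_lit 59), (nat_lit 401), (nat_lit 175), (nat_lit 10)]⟩,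
 ⟨⟨[(nat_lit 120), (nat_lit 160), (nat_lit 180)], [(nat_lit 0), (nat_lit 533), (nat_lit 2066)], [((nat_lit 0), (nat_lit 0), (nat_lit 0)), ((nat_lit 960), (nat_lit 1000), (nat_lit 200)), ((nat_lit 615), (nat_lit 1000), (nat_lit 729))], ((nat_lit 100), (nat_lit 72), (nat_lit 63))⟩, (nat_lit 1936390), (nat_lit 300), (nat_lit 486), (nat_lit 54912801), (nat_lit 339760), [(nat_lit 6589536000), (nat_lit 9818144000), (nat_lit 11625966000)], [], [(nat_lit 40397290706), (nat_lit 40239987958), (nat_lit 44945022196), (nat_lit 44291072326), (nat_lit 32806339748), (nat_lit 32321426949), (nat_lit 36353823733), (nat_lit 35730521244)], (nat_lit 1271251), (nat_lit 1271251), (nat_lit 1271251), (nat_lit 1271251), (nat_lit 0), (nat_lit 780000), [(nat_lit 1695001), (nat_lit 1271251), (nat_lit 1271251)], [(nat_lit 28), (nat_lit 65), (nat_lit 428), (nat_lit 200), (nat_lit 10)]⟩⟩) (.leaf ⟨(nat_lit 0), (nat_lit 487), (nat_lit 0), (nat_lit 513), (nat_lit 0), (nat_lit 5846),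 (nat_lit 9038), (nat_lit 5431), (nat_lit 0), (nat_lit 0), (nat_lit 0), [], Pd.none, Pd.none, (nat_lit 0), (nat_lit 1), (nat_lit 0), (nat_lit 0), (nat_lit 6), (nat_lit 0), [⟨(nat_lit 0), (nat_lit 92), (nat_lit 81), (nat_lit 100), (nat_lit 153028507)⟩], [], [⟨(nat_lit 0), (nat_lit 100), (nat_lit 87), (nat_lit 50), (nat_lit 549699971)⟩], [],
 ⟨⟨[(nat_lit 40), (nat_lit 80), (nat_lit 120)], [(nat_lit 0), (nat_lit 0), (nat_lit 2151)], [((nat_lit 0), (nat_lit 0), (nat_lit 0)), ((nat_lit 0), (nat_lit 0), (nat_lit 0)), ((nat_lit 1000), (nat_lit 815), (nat_lit 753))], ((nat_lit 80), (nat_lit 100), (nat_lit 63))⟩, (nat_lit 1919541), (nat_lit 243), (nat_lit 243), (nat_lit 0), (nat_lit 345332), [(nat_lit 2353022581), (nat_lit 4688000157), (nat_lit 7968000000)], [], [(nat_lit 24149869750), (nat_lit 25422731257), (nat_lit 26973239042), (nat_lit 27931256294), (nat_lit 30659812699), (nat_lit 31556860430), (nat_lit 32172330256), (nat_lit 33220858009)], (nat_lit 1271251),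 (nat_lit 1271251), (nat_lit 780000), (nat_lit 2090001), (nat_lit 1271251), (nat_lit 1271251), [(nat_lit 490000), (nat_lit 1100000), (nat_lit 1785001)], [(nat_lit 4), (nat_lit 51), (nat_lit 289), (nat_lit 75), (nat_lit 8)]⟩,
 ⟨⟨[(nat_lit 60), (nat_lit 100), (nat_lit 140)], [(nat_lit 0), (nat_lit 0), (nat_lit 2047)], [((nat_lit 0), (nat_lit 0), (nat_lit 0)), ((nat_lit 0), (nat_lit 0), (nat_lit 0)), ((nat_lit 1000), (nat_lit 993), (nat_lit 781))], ((nat_lit 95), (nat_lit 100), (nat_lit 65))⟩, (nat_lit 4101589), (nat_lit 346), (nat_lit 346), (nat_lit 0), (nat_lit 313683), [(nat_lit 3282000000), (nat_lit 6250000000), (nat_lit 9842000000)], [], [(nat_lit 27441570818), (nat_lit 25312842080), (nat_lit 29974419588), (nat_lit 32772221244), (nat_lit 17273235835), (nat_lit 19911399984), (nat_lit 36455249597), (nat_lit 28319969556)], (nat_lit 1271251), (nat_lit 1271251), (nat_lit 780000), (nat_lit 2090001), (nat_lit 0), (nat_lit 780000), [(nat_lit 780000), (nat_lit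 1435001), (nat_lit 1271251)], [(nat_lit 11), (nat_lit 55), (nat_lit 317), (nat_lit 100), (nat_lit 9)]⟩,
 ⟨⟨[(nat_lit 120), (nat_lit 160), (nat_lit 180)], [(nat_lit 0), (nat_lit 533), (nat_lit 2066)], [((nat_lit 0), (nat_lit 0), (nat_lit 0)), ((nat_lit 960), (nat_lit 1000), (nat_lit 200)), ((nat_lit 615), (nat_lit 1000), (nat_lit 729))], ((nat_lit 100), (nat_lit 72), (nat_lit 63))⟩, (nat_lit 1201171), (nat_lit 300), (nat_lit 730), (nat_lit 34063200), (nat_lit 806834), [(nat_lit 4087584000), (nat_lit 6090336000), (nat_lit 7211754000)], [], [(nat_lit 28271534356), (nat_lit 27780520988), (nat_lit 28456925975), (nat_lit 27966854887), (nat_lit 24418351101), (nat_lit 23935878394), (nat_lit 24213407983), (nat_lit 23739210760)], (nat_lit 1271251), (nat_lit 1271251), (nat_lit 1271251), (nat_lit 1271251), (nat_lit 0), (nat_lit 780000), [(nat_lit 1695001), (nat_lit 1271251), (nat_lit 1271251)], [(nat_lit 28), (nat_lit 65), (nat_lit 428), (nat_lit 200), (nat_lit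 10)]⟩⟩)) (.leaf ⟨(nat_lit 0), (nat_lit 156), (nat_lit 0), (nat_lit 844), (nat_lit 0), (nat_lit 7200), (nat_lit 11311), (nat_lit 7810), (nat_lit 0), (nat_lit 0), (nat_lit 0), [], Pd.none, Pd.none, (nat_lit 0), (nat_lit 1), (nat_lit 0), (nat_lit 0), (nat_lit 6), (nat_lit 0), [], [], [], [],
 ⟨⟨[(nat_lit 40), (nat_lit 80), (nat_lit 120)], [(nat_lit 0), (nat_lit 0), (nat_lit 2151)], [((nat_lit 0), (nat_lit 0), (nat_lit 0)), ((nat_lit 0), (nat_lit 0), (nat_lit 0)), ((nat_lit 1000), (nat_lit 815), (nat_lit 753))], ((nat_lit 80), (nat_lit 100), (nat_lit 63))⟩, (nat_lit 2294742), (nat_lit 243), (nat_lit 243), (nat_lit 0), (nat_lit 345332), [(nat_lit 2737439577), (nat_lit 4688000017), (nat_lit 7968000000)], [], [(nat_lit 21003308775), (nat_lit 22436557675), (nat_lit 25070122400), (nat_lit 26805328300), (nat_lit 31956576800), (nat_lit 33529577500), (nat_lit 33577898700), (nat_lit 34739289800)], (nat_lit 1271251), (nat_lit 1271251), (nat_lit 780000), (nat_lit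 2090001), (nat_lit 1271251), (nat_lit 1271251), [(nat_lit 490000), (nat_lit 1100000), (nat_lit 1785001)], [(nat_lit 4), (nat_lit 51), (nat_lit 289), (nat_lit 75), (nat_lit 8)]⟩,
 ⟨⟨[(nat_lit 80), (nat_lit 120), (nat_lit 160)], [(nat_lit 0), (nat_lit 0), (nat_lit 2132)], [((nat_lit 0), (nat_lit 0), (nat_lit 0)), ((nat_lit 0), (nat_lit 0), (nat_lit 0)), ((nat_lit 858), (nat_lit 1000), (nat_lit 713))], ((nat_lit 100), (nat_lit 91), (nat_lit 64))⟩, (nat_lit 4112668), (nat_lit 382), (nat_lit 382), (nat_lit 0), (nat_lit 452946), [(nat_lit 4688000000), (nat_lit 7968000000), (nat_lit 11872000000)], [], [(nat_lit 45390407233), (nat_lit 22882304262), (nat_lit 35249730323), (nat_lit 25470548678), (nat_lit 51997751408), (nat_lit 40037054832), (nat_lit 76301473162), (nat_lit 56940253486)], (nat_lit 1271251), (nat_lit 1271251), (nat_lit 780000), (nat_lit 2090001), (nat_lit 780000), (nat_lit 3072501), [(nat_lit 1100000), (nat_lit 1785001), (nat_lit 1271251)], [(nat_lit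 18), (nat_lit 59), (nat_lit 483), (nat_lit 250), (nat_lit 12)]⟩,
 ⟨⟨[(nat_lit 120), (nat_lit 160), (nat_lit 180)], [(nat_lit 0), (nat_lit 533), (nat_lit 2066)], [((nat_lit 0), (nat_lit 0), (nat_lit 0)), ((nat_lit 960), (nat_lit 1000), (nat_lit 200)), ((nat_lit 615), (nat_lit 1000), (nat_lit 729))], ((nat_lit 100), (nat_lit 72), (nat_lit 63))⟩, (nat_lit 1976195), (nat_lit 300), (nat_lit 852), (nat_lit 56041601), (nat_lit 1296419), [(nat_lit 6724992000), (nat_lit 10019968000), (nat_lit 11864952000)], [], [(nat_lit 45402881738), (nat_lit 44687945803), (nat_lit 44728864251), (nat_lit 43913709025), (nat_lit 41794027516), (nat_lit 40976416036), (nat_lit 40732790079), (nat_lit 39830886492)], (nat_lit 1271251), (nat_lit 1271251), (nat_lit 1271251), (nat_lit 1271251), (nat_lit 780000), (nat_lit 3072501), [(nat_lit 1695001), (nat_lit 1271251), (nat_lit 1271251)], [(nat_lit 28), (nat_lit 65), (nat_lit 483), (nat_lit 250), (nat_lit 11)]⟩⟩))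
noncomputable def c11_82 : Tr Lf :=
 (.stt (nat_lit 2) (.spl (nat_lit 5) (nat_lit 120) (.trX (nat_lit 4) (nat_lit 3) (nat_lit 5) (nat_lit 100) (nat_lit 80) (nat_lit 100) (nat_lit 340) (.leaf ⟨(nat_lit 59), (nat_lit 790), (nat_lit 0), (nat_lit 151), (nat_lit 0), (nat_lit 7165), (nat_lit 6059), (nat_lit 2113), (nat_lit 0), (nat_lit 0), (nat_lit 236000), [((nat_lit 340), [((nat_lit 37), (nat_lit 5), (nat_lit 59))])], ⟨(nat_lit 7), true, false, true, (nat_lit 327), (nat_lit 3872), (nat_lit 4473), [(nat_lit 1679069), (nat_lit 1672609), (nat_lit 1765265), (nat_lit 1759713), (nat_lit 1883018), (nat_lit 1866188), (nat_lit 1969223), (nat_lit 1953301)]⟩, ⟨(nat_lit 3), true, false, true, (nat_lit 207), (nat_lit 3872), (nat_lit 4473), [(nat_lit 1277776), (nat_lit 1283782), (nat_lit 1385576), (nat_lit 1392716), (nat_lit 1651656), (nat_lit 1638651), (nat_lit 1759489), (nat_lit 1747617)]⟩, (nat_lit 5452448), (nat_lit 33147323), (nat_lit 22989168), (nat_lit 10863509),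 (nat_lit 3), (nat_lit 0), [], [], [⟨(nat_lit 0), (nat_lit 100), (nat_lit 93), (nat_lit 26), (nat_lit 80057395)⟩, ⟨(nat_lit 0), (nat_lit 100), (nat_lit 80), (nat_lit 68), (nat_lit 691129)⟩], [⟨(nat_lit 0), (nat_lit 100), (nat_lit 72), (nat_lit 81), (nat_lit 159041923)⟩],
 ⟨⟨[(nat_lit 40), (nat_lit 80), (nat_lit 120)], [(nat_lit 0), (nat_lit 0), (nat_lit 2151)], [((nat_lit 0), (nat_lit 0), (nat_lit 0)), ((nat_lit 0), (nat_lit 0), (nat_lit 0)), ((nat_lit 1000), (nat_lit 815), (nat_lit 753))], ((nat_lit 80), (nat_lit 100), (nat_lit 63))⟩, (nat_lit 944965), (nat_lit 300), (nat_lit 400), (nat_lit 51517346), (nat_lit 769892), [(nat_lit 2059855989), (nat_lit 4121387601), (nat_lit 6195751997)], [(nat_lit 0), (nat_lit 0), (nat_lit 0)], [(nat_lit 31210105090), (nat_lit 32019154347), (nat_lit 35162655630), (nat_lit 35733698883), (nat_lit 32879315075), (nat_lit 33384006330), (nat_lit 37196894725), (nat_lit 38104646180)], (nat_lit 1271251), (nat_lit 1271251),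 (nat_lit 1271251), (nat_lit 1271251), (nat_lit 780000), (nat_lit 2581251), [(nat_lit 490000), (nat_lit 1100000), (nat_lit 1785001)], [(nat_lit 4), (nat_lit 51), (nat_lit 317), (nat_lit 100), (nat_lit 9)]⟩,
 ⟨⟨[(nat_lit 80), (nat_lit 120), (nat_lit 160)], [(nat_lit 0), (nat_lit 0), (nat_lit 2132)], [((nat_lit 0), (nat_lit 0), (nat_lit 0)), ((nat_lit 0), (nat_lit 0), (nat_lit 0)), ((nat_lit 858), (nat_lit 1000), (nat_lit 713))], ((nat_lit 100), (nat_lit 91), (nat_lit 64))⟩, (nat_lit 4106215), (nat_lit 252), (nat_lit 252), (nat_lit 0), (nat_lit 0), [(nat_lit 4411408000), (nat_lit 7497888000), (nat_lit 11171552000)], [], [(nat_lit 26644096248), (nat_lit 30785245918), (nat_lit 35355223220), (nat_lit 38416241276), (nat_lit 23594075019), (nat_lit 27275151680), (nat_lit 30701763884), (nat_lit 33476457476)], (nat_lit 0), (nat_lit 0), (nat_lit 0), (nat_lit 0), (nat_lit 0), (nat_lit 0), [], [(nat_lit 18), (nat_lit 59), (nat_lit 456), (nat_lit 225), (nat_lit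 11)]⟩,
 ⟨⟨[(nat_lit 140), (nat_lit 180), (nat_lit 200)], [(nat_lit 0), (nat_lit 0), (nat_lit 2835)], [((nat_lit 0), (nat_lit 0), (nat_lit 0)), ((nat_lit 0), (nat_lit 0), (nat_lit 0)), ((nat_lit 363), (nat_lit 1000), (nat_lit 798))], ((nat_lit 0), (nat_lit 0), (nat_lit 0))⟩, (nat_lit 483715), (nat_lit 300), (nat_lit 491), (nat_lit 11793100), (nat_lit 0), [(nat_lit 1486142000), (nat_lit 2122758000), (nat_lit 2476400000)], [], [(nat_lit 10399264938), (nat_lit 9925249662), (nat_lit 10139496702), (nat_lit 9491126079), (nat_lit 8525543297), (nat_lit 8011009629), (nat_lit 8189666757), (nat_lit 7585571644)], (nat_lit 0), (nat_lit 0), (nat_lit 0), (nat_lit 0), (nat_lit 0), (nat_lit 0), [], [(nat_lit 32), (nat_lit 67), (nat_lit 401), (nat_lit 175), (nat_lit 9)]⟩⟩)) (.leaf ⟨(nat_lit 0), (nat_lit 0), (nat_lit 0), (nat_lit 1000), (nat_lit 0), (nat_lit 7832), (nat_lit 7504), (nat_lit 19035), (nat_lit 0), (nat_lit 0), (nat_lit 0), [], Pd.none, Pd.none, (nat_lit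 0), (nat_lit 1), (nat_lit 0), (nat_lit 0), (nat_lit 0), (nat_lit 0), [], [], [], [],
 ⟨⟨[(nat_lit 40), (nat_lit 80), (nat_lit 120)], [(nat_lit 0), (nat_lit 0), (nat_lit 2151)], [((nat_lit 0), (nat_lit 0), (nat_lit 0)), ((nat_lit 0), (nat_lit 0), (nat_lit 0)), ((nat_lit 1000), (nat_lit 815), (nat_lit 753))], ((nat_lit 80), (nat_lit 100), (nat_lit 63))⟩, (nat_lit 435146), (nat_lit 300), (nat_lit 400), (nat_lit 58600008), (nat_lit 769892), [(nat_lit 2269109066), (nat_lit 4688000001), (nat_lit 7968000000)], [], [(nat_lit 31902456504), (nat_lit 32743869434), (nat_lit 35976318336), (nat_lit 36561434288), (nat_lit 34440089504), (nat_lit 35448040828), (nat_lit 40044356752), (nat_lit 40862984272)], (nat_lit 1271251), (nat_lit 1271251), (nat_lit 1271251), (nat_lit 1271251), (nat_lit 780000), (nat_lit 2908751), [(nat_lit 490000), (nat_lit 1100000), (nat_lit 1785001)], [(nat_lit 4), (nat_lit 51), (nat_lit 317), (nat_lit 100), (nat_lit 9)]⟩,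
 ⟨⟨[(nat_lit 80), (nat_lit 120), (nat_lit 160)], [(nat_lit 0), (nat_lit 0), (nat_lit 2132)], [((nat_lit 0), (nat_lit 0), (nat_lit 0)), ((nat_lit 0), (nat_lit 0), (nat_lit 0)), ((nat_lit 858), (nat_lit 1000), (nat_lit 713))], ((nat_lit 100), (nat_lit 91), (nat_lit 64))⟩, (nat_lit 3674076), (nat_lit 168), (nat_lit 168), (nat_lit 0), (nat_lit 0), [(nat_lit 4688000000), (nat_lit 7968000000), (nat_lit 11872000000)], [], [(nat_lit 23729309160), (nat_lit 27658462416), (nat_lit 32464638896), (nat_lit 35597709760), (nat_lit 33842150912), (nat_lit 35956367744), (nat_lit 38902182272), (nat_lit 40580643136)], (nat_lit 0), (nat_lit 0), (nat_lit 0), (nat_lit 0), (nat_lit 0), (nat_lit 0), [], [(nat_lit 18), (nat_lit 59), (nat_lit 538), (nat_lit 300), (nat_lit 13)]⟩,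
 ⟨⟨[(nat_lit 140), (nat_lit 180), (nat_lit 200)], [(nat_lit 0), (nat_lit 0), (nat_lit 2835)], [((nat_lit 0), (nat_lit 0), (nat_lit 0)), ((nat_lit 0), (nat_lit 0), (nat_lit 0)), ((nat_lit 363), (nat_lit 1000), (nat_lit 798))], ((nat_lit 0), (nat_lit 0), (nat_lit 0))⟩, (nat_lit 4990426), (nat_lit 291), (nat_lit 291), (nat_lit 0), (nat_lit 0), [(nat_lit 9842000000), (nat_lit 14058000000), (nat_lit 16400000000)], [], [(nat_lit 27201991945), (nat_lit 29173663852), (nat_lit 46934869353), (nat_lit 43504111794), (nat_lit 49966130980), (nat_lit 45972371343), (nat_lit 59189020110), (nat_lit 54081957864)], (nat_lit 0), (nat_lit 0), (nat_lit 0), (nat_lit 0), (nat_lit 0), (nat_lit 0), [], [(nat_lit 32), (nat_lit 67), (nat_lit 483), (nat_lit 250), (nat_lit 10)]⟩⟩)) (.spl (nat_lit 5) (nat_lit 120) (.trX (nat_lit 4) (nat_lit 3) (nat_lit 5) (nat_lit 100) (nat_lit 80) (nat_lit 100) (nat_lit 340) (.spl (nat_lit 1) (nat_lit 280) (.leaf ⟨(nat_lit 300), (nat_lit 571),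 (nat_lit 0), (nat_lit 129), (nat_lit 0), (nat_lit 4739), (nat_lit 5662), (nat_lit 1812), (nat_lit 0), (nat_lit 0), (nat_lit 1200000), [((nat_lit 340), [((nat_lit 37), (nat_lit 5), (nat_lit 300))])], ⟨(nat_lit 7), false, true, true, (nat_lit 319), (nat_lit 3872), (nat_lit 4473), [(nat_lit 1679069), (nat_lit 1672609), (nat_lit 1722167), (nat_lit 1716161), (nat_lit 1883018), (nat_lit 1866188), (nat_lit 1926124), (nat_lit 1909748)]⟩, ⟨(nat_lit 3), true, false, true, (nat_lit 207), (nat_lit 3872), (nat_lit 4473), [(nat_lit 1277776), (nat_lit 1283782), (nat_lit 1385576), (nat_lit 1392716), (nat_lit 1651656), (nat_lit 1638651), (nat_lit 1759489), (nat_lit 1747617)]⟩, (nat_lit 5444119), (nat_lit 33714157), (nat_lit 22275924), (nat_lit 11009919), (nat_lit 3), (nat_lit 0), [], [], [], [⟨(nat_lit 0), (nat_lit 100), (nat_lit 72), (nat_lit 81), (nat_lit 282300079)⟩],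
 ⟨⟨[(nat_lit 40), (nat_lit 80), (nat_lit 120)], [(nat_lit 0), (nat_lit 0), (nat_lit 2151)], [((nat_lit 0), (nat_lit 0), (nat_lit 0)), ((nat_lit 0), (nat_lit 0), (nat_lit 0)), ((nat_lit 1000), (nat_lit 815), (nat_lit 753))], ((nat_lit 80), (nat_lit 100), (nat_lit 63))⟩, (nat_lit 349), (nat_lit 236), (nat_lit 236), (nat_lit 0), (nat_lit 315393), [(nat_lit 2187884393), (nat_lit 2331555609), (nat_lit 0)], [(nat_lit 0), (nat_lit 0), (nat_lit 913438536)], [(nat_lit 22253821929), (nat_lit 23386849298), (nat_lit 30191462768), (nat_lit 31361684169), (nat_lit 28757058250), (nat_lit 29831179590), (nat_lit 34162296235), (nat_lit 34938492988)], (nat_lit 1271251), (nat_lit 1271251), (nat_lit 1271251), (nat_lit 1271251), (nat_lit 780000), (nat_lit 2581251), [(nat_lit 490000), (nat_lit 1100000), (nat_lit 1785001)], [(nat_lit 4), (nat_lit 51), (nat_lit 317), (nat_lit 100), (nat_lit 9)]⟩,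
 ⟨⟨[(nat_lit 80), (nat_lit 120), (nat_lit 160)], [(nat_lit 0), (nat_lit 0), (nat_lit 2132)], [((nat_lit 0), (nat_lit 0), (nat_lit 0)), ((nat_lit 0), (nat_lit 0), (nat_lit 0)), ((nat_lit 858), (nat_lit 1000), (nat_lit 713))], ((nat_lit 100), (nat_lit 91), (nat_lit 64))⟩, (nat_lit 2135216), (nat_lit 554), (nat_lit 554), (nat_lit 0), (nat_lit 680048), [(nat_lit 3281600000), (nat_lit 5577600000), (nat_lit 8310400000)], [], [(nat_lit 25423496656), (nat_lit 26271637554), (nat_lit 29374142136), (nat_lit 29943170224), (nat_lit 22202990920), (nat_lit 22950027609), (nat_lit 25694441712), (nat_lit 26187996054)], (nat_lit 1271251), (nat_lit 1271251), (nat_lit 1271251), (nat_lit 1271251), (nat_lit 0), (nat_lit 780000), [(nat_lit 1100000), (nat_lit 1785001), (nat_lit 1271251)], [(nat_lit 18), (nat_lit 59), (nat_lit 428), (nat_lit 200), (nat_lit 11)]⟩,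
 ⟨⟨[(nat_lit 140), (nat_lit 180), (nat_lit 200)], [(nat_lit 0), (nat_lit 0), (nat_lit 2835)], [((nat_lit 0), (nat_lit 0), (nat_lit 0)), ((nat_lit 0), (nat_lit 0), (nat_lit 0)), ((nat_lit 363), (nat_lit 1000), (nat_lit 798))], ((nat_lit 0), (nat_lit 0), (nat_lit 0))⟩, (nat_lit 35915), (nat_lit 300), (nat_lit 491), (nat_lit 10074900), (nat_lit 0), [(nat_lit 1269618000), (nat_lit 1813482000), (nat_lit 2115600000)], [], [(nat_lit 8889223932), (nat_lit 8481770973), (nat_lit 8664214743), (nat_lit 8107354240), (nat_lit 7276506916), (nat_lit 6837174735), (nat_lit 6991376849), (nat_lit 6472510548)], (nat_lit 0), (nat_lit 0), (nat_lit 0), (nat_lit 0), (nat_lit 0), (nat_lit 0), [], [(nat_lit 32), (nat_lit 67), (nat_lit 401), (nat_lit 175), (nat_lit 9)]⟩⟩) (.leaf ⟨(nat_lit 0), (nat_lit 816), (nat_lit 0), (nat_lit 184), (nat_lit 0), (nat_lit 7051), (nat_lit 7471), (nat_lit 2574), (nat_lit 0), (nat_lit 0), (nat_lit 0), [], Pd.none, Pd.none, (nat_lit 0), (nat_lit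 1), (nat_lit 0), (nat_lit 0), (nat_lit 3), (nat_lit 0), [], [], [], [⟨(nat_lit 0), (nat_lit 100), (nat_lit 72), (nat_lit 81), (nat_lit 341884908)⟩],
 ⟨⟨[(nat_lit 40), (nat_lit 80), (nat_lit 120)], [(nat_lit 0), (nat_lit 0), (nat_lit 2151)], [((nat_lit 0), (nat_lit 0), (nat_lit 0)), ((nat_lit 0), (nat_lit 0), (nat_lit 0)), ((nat_lit 1000), (nat_lit 815), (nat_lit 753))], ((nat_lit 80), (nat_lit 100), (nat_lit 63))⟩, (nat_lit 3375028), (nat_lit 272), (nat_lit 272), (nat_lit 0), (nat_lit 428498), [(nat_lit 2595652482), (nat_lit 4688000004), (nat_lit 7968000000)], [], [(nat_lit 23922274492), (nat_lit 25177923678), (nat_lit 33655097712), (nat_lit 35094504117), (nat_lit 30637292250), (nat_lit 31948926506), (nat_lit 37054296115), (nat_lit 37955865692)], (nat_lit 1271251), (nat_lit 1271251), (nat_lit 1271251), (nat_lit 1271251), (nat_lit 780000), (nat_lit 2581251), [(nat_lit 490000), (nat_lit 1100000), (nat_lit 1785001)], [(nat_lit 4), (nat_lit 51), (nat_lit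 317), (nat_lit 100), (nat_lit 9)]⟩,
 ⟨⟨[(nat_lit 60), (nat_lit 100), (nat_lit 140)], [(nat_lit 0), (nat_lit 0), (nat_lit 2047)], [((nat_lit 0), (nat_lit 0), (nat_lit 0)), ((nat_lit 0), (nat_lit 0), (nat_lit 0)), ((nat_lit 1000), (nat_lit 993), (nat_lit 781))], ((nat_lit 95), (nat_lit 100), (nat_lit 65))⟩, (nat_lit 3287963), (nat_lit 510), (nat_lit 510), (nat_lit 0), (nat_lit 737222), [(nat_lit 3282000000), (nat_lit 6250000000), (nat_lit 9842000000)], [], [(nat_lit 33470918818), (nat_lit 34848505708), (nat_lit 39848351134), (nat_lit 42175765656), (nat_lit 29812464840), (nat_lit 31010215305), (nat_lit 34270328517), (nat_lit 35010231362)], (nat_lit 1271251), (nat_lit 1271251), (nat_lit 1271251), (nat_lit 1271251), (nat_lit 0), (nat_lit 780000), [(nat_lit 780000), (nat_lit 1435001), (nat_lit 1271251)], [(nat_lit 11), (nat_lit 55), (nat_lit 238), (nat_lit 30), (nat_lit 6)]⟩,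
 ⟨⟨[(nat_lit 140), (nat_lit 180), (nat_lit 200)], [(nat_lit 0), (nat_lit 0), (nat_lit 2835)], [((nat_lit 0), (nat_lit 0), (nat_lit 0)), ((nat_lit 0), (nat_lit 0), (nat_lit 0)), ((nat_lit 363), (nat_lit 1000), (nat_lit 798))], ((nat_lit 0), (nat_lit 0), (nat_lit 0))⟩, (nat_lit 610035), (nat_lit 300), (nat_lit 491), (nat_lit 14370400), (nat_lit 0), [(nat_lit 1810928000), (nat_lit 2586672000), (nat_lit 3017600000)], [], [(nat_lit 12671579741), (nat_lit 12094049338), (nat_lit 12355185670), (nat_lit 11565454995), (nat_lit 10389528652), (nat_lit 9762835433), (nat_lit 9980042178), (nat_lit 9244243802)], (nat_lit 0), (nat_lit 0), (nat_lit 0), (nat_lit 0), (nat_lit 0), (nat_lit 0), [], [(nat_lit 32), (nat_lit 67), (nat_lit 401), (nat_lit 175), (nat_lit 9)]⟩⟩))) (.leaf ⟨(nat_lit 0), (nat_lit 0), (nat_lit 0), (nat_lit 1000), (nat_lit 0), (nat_lit 7052), (nat_lit 8548), (nat_lit 20010), (nat_lit 0), (nat_lit 0), (nat_lit 0), [], Pd.none, Pd.none, (nat_lit 0),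 (nat_lit 1), (nat_lit 0), (nat_lit 0), (nat_lit 0), (nat_lit 0), [], [], [], [],
 ⟨⟨[(nat_lit 40), (nat_lit 80), (nat_lit 120)], [(nat_lit 0), (nat_lit 0), (nat_lit 2151)], [((nat_lit 0), (nat_lit 0), (nat_lit 0)), ((nat_lit 0), (nat_lit 0), (nat_lit 0)), ((nat_lit 1000), (nat_lit 815), (nat_lit 753))], ((nat_lit 80), (nat_lit 100), (nat_lit 63))⟩, (nat_lit 2967142), (nat_lit 272), (nat_lit 272), (nat_lit 0), (nat_lit 428937), [(nat_lit 2696911587), (nat_lit 4688000002), (nat_lit 7968000000)], [], [(nat_lit 23919747966), (nat_lit 25175497925), (nat_lit 33656595824), (nat_lit 35096118658), (nat_lit 33424261972), (nat_lit 34573316458), (nat_lit 38973564172), (nat_lit 39760418392)], (nat_lit 1271251), (nat_lit 1271251), (nat_lit 1271251), (nat_lit 1271251), (nat_lit 780000), (nat_lit 2908751), [(nat_lit 490000), (nat_lit 1100000), (nat_lit 1785001)], [(nat_lit 4), (nat_lit 51), (nat_lit 317), (nat_lit 100), (nat_lit 9)]⟩,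
 ⟨⟨[(nat_lit 80), (nat_lit 120), (nat_lit 160)], [(nat_lit 0), (nat_lit 0), (nat_lit 2132)], [((nat_lit 0), (nat_lit 0), (nat_lit 0)), ((nat_lit 0), (nat_lit 0), (nat_lit 0)), ((nat_lit 858), (nat_lit 1000), (nat_lit 713))], ((nat_lit 100), (nat_lit 91), (nat_lit 64))⟩, (nat_lit 2716140), (nat_lit 589), (nat_lit 589), (nat_lit 0), (nat_lit 975064), [(nat_lit 4688000000), (nat_lit 7968000000), (nat_lit 11872000000)], [], [(nat_lit 33479186968), (nat_lit 35025253144), (nat_lit 37086640416), (nat_lit 37858628088), (nat_lit 35772964504), (nat_lit 36538494192), (nat_lit 40422839264), (nat_lit 42077513632)], (nat_lit 1271251), (nat_lit 1271251), (nat_lit 1271251), (nat_lit 1271251), (nat_lit 780000), (nat_lit 3072501), [(nat_lit 1100000), (nat_lit 1785001), (nat_lit 1271251)], [(nat_lit 18), (nat_lit 59), (nat_lit 538), (nat_lit 300), (nat_lit 13)]⟩,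
 ⟨⟨[(nat_lit 140), (nat_lit 180), (nat_lit 200)], [(nat_lit 0), (nat_lit 0), (nat_lit 2835)], [((nat_lit 0), (nat_lit 0), (nat_lit 0)), ((nat_lit 0), (nat_lit 0), (nat_lit 0)), ((nat_lit 363), (nat_lit 1000), (nat_lit 798))], ((nat_lit 0), (nat_lit 0), (nat_lit 0))⟩, (nat_lit 5475485), (nat_lit 291), (nat_lit 291), (nat_lit 0), (nat_lit 0), [(nat_lit 9842000000), (nat_lit 14058000000), (nat_lit 16400000000)], [], [(nat_lit 26917962710), (nat_lit 28883938458), (nat_lit 47315003815), (nat_lit 43601637388), (nat_lit 50470038280), (nat_lit 46167074455), (nat_lit 60944942460), (nat_lit 55470458533)], (nat_lit 0), (nat_lit 0), (nat_lit 0), (nat_lit 0), (nat_lit 0), (nat_lit 0), [], [(nat_lit 32), (nat_lit 67), (nat_lit 483), (nat_lit 250), (nat_lit 10)]⟩⟩)))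
noncomputable def c11_83 : Tr Lf :=
 (.stt (nat_lit 2) (.spl (nat_lit 5) (nat_lit 200) (.leaf ⟨(nat_lit 0), (nat_lit 1000), (nat_lit 0), (nat_lit 0), (nat_lit 2584), (nat_lit 6009), (nat_lit 7141), (nat_lit 0), (nat_lit 0), (nat_lit 0), (nat_lit 0), [], Pd.none, Pd.none, (nat_lit 0), (nat_lit 1), (nat_lit 0), (nat_lit 0), (nat_lit 3), (nat_lit 0), [⟨(nat_lit 1), (nat_lit 41), (nat_lit 80), (nat_lit 100), (nat_lit 28577126)⟩], [], [], [],
 ⟨⟨[(nat_lit 40), (nat_lit 80), (nat_lit 120)], [(nat_lit 0), (nat_lit 0), (nat_lit 2151)], [((nat_lit 0), (nat_lit 0), (nat_lit 0)), ((nat_lit 0), (nat_lit 0), (nat_lit 0)), ((nat_lit 1000), (nat_lit 815), (nat_lit 753))], ((nat_lit 80), (nat_lit 100), (nat_lit 63))⟩, (nat_lit 1573817), (nat_lit 274), (nat_lit 274), (nat_lit 0), (nat_lit 433891), [(nat_lit 2252799535), (nat_lit 4688000016), (nat_lit 7968000000)], [], [(nat_lit 27900583945), (nat_lit 28898854156), (nat_lit 32944870627), (nat_lit 33671501280), (nat_lit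 28757007145), (nat_lit 29578084073), (nat_lit 32866696693), (nat_lit 33465589311)], (nat_lit 1271251), (nat_lit 1271251), (nat_lit 1271251), (nat_lit 1271251), (nat_lit 780000), (nat_lit 1762501), [(nat_lit 490000), (nat_lit 1100000), (nat_lit 1785001)], [(nat_lit 4), (nat_lit 51), (nat_lit 272), (nat_lit 60), (nat_lit 8)]⟩,
 ⟨⟨[(nat_lit 80), (nat_lit 120), (nat_lit 160)], [(nat_lit 0), (nat_lit 0), (nat_lit 2132)], [((nat_lit 0), (nat_lit 0), (nat_lit 0)), ((nat_lit 0), (nat_lit 0), (nat_lit 0)), ((nat_lit 858), (nat_lit 1000), (nat_lit 713))], ((nat_lit 100), (nat_lit 91), (nat_lit 64))⟩, (nat_lit 3243501), (nat_lit 252), (nat_lit 252), (nat_lit 0), (nat_lit 0), [(nat_lit 4688000000), (nat_lit 7968000000), (nat_lit 11872000000)], [], [(nat_lit 30001965690), (nat_lit 32133111435), (nat_lit 38593887224), (nat_lit 39918442090), (nat_lit 25231680124), (nat_lit 26885456346), (nat_lit 32343477740), (nat_lit 33668070606)], (nat_lit 0), (nat_lit 0), (nat_lit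 0), (nat_lit 0), (nat_lit 0), (nat_lit 0), [], [(nat_lit 18), (nat_lit 59), (nat_lit 456), (nat_lit 225), (nat_lit 11)]⟩,
 Rw.none⟩) (.leaf ⟨(nat_lit 107), (nat_lit 893), (nat_lit 0), (nat_lit 0), (nat_lit 0), (nat_lit 5880), (nat_lit 6406), (nat_lit 0), (nat_lit 0), (nat_lit 0), (nat_lit 428000), [((nat_lit 340), [((nat_lit 37), (nat_lit 5), (nat_lit 107))])], ⟨(nat_lit 7), true, false, true, (nat_lit 319), (nat_lit 3872), (nat_lit 4473), [(nat_lit 1679069), (nat_lit 1672609), (nat_lit 1722167), (nat_lit 1716161), (nat_lit 1883018), (nat_lit 1866188), (nat_lit 1926124), (nat_lit 1909748)]⟩, ⟨(nat_lit 3), false, false, true, (nat_lit 165), (nat_lit 3872), (nat_lit 4473), [(nat_lit 1277776), (nat_lit 1283782), (nat_lit 1342475), (nat_lit 1349162), (nat_lit 1481711), (nat_lit 1477347), (nat_lit 1546410), (nat_lit 1542727)]⟩, (nat_lit 5142488), (nat_lit 35610785), (nat_lit 23324422), (nat_lit 8064793), (nat_lit 5), (nat_lit 0), [], [], [⟨(nat_lit 1),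 (nat_lit 55), (nat_lit 99), (nat_lit 100), (nat_lit 535398)⟩, ⟨(nat_lit 1), (nat_lit 30), (nat_lit 98), (nat_lit 100), (nat_lit 275687361)⟩], [⟨(nat_lit 1), (nat_lit 77), (nat_lit 72), (nat_lit 100), (nat_lit 107586716)⟩],
 ⟨⟨[(nat_lit 40), (nat_lit 80), (nat_lit 120)], [(nat_lit 0), (nat_lit 0), (nat_lit 2151)], [((nat_lit 0), (nat_lit 0), (nat_lit 0)), ((nat_lit 0), (nat_lit 0), (nat_lit 0)), ((nat_lit 1000), (nat_lit 815), (nat_lit 753))], ((nat_lit 80), (nat_lit 100), (nat_lit 63))⟩, (nat_lit 1076366), (nat_lit 274), (nat_lit 274), (nat_lit 0), (nat_lit 433891), [(nat_lit 2299025577), (nat_lit 3660414997), (nat_lit 4944295409)], [(nat_lit 0), (nat_lit 0), (nat_lit 0)], [(nat_lit 24223653737), (nat_lit 25211525677), (nat_lit 31900808560), (nat_lit 33203876020), (nat_lit 25111965737), (nat_lit 26047599991), (nat_lit 32235914080), (nat_lit 33311114520)], (nat_lit 1271251), (nat_lit 1271251), (nat_lit 1271251), (nat_lit 1271251), (nat_lit 780000),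 (nat_lit 1762501), [(nat_lit 490000), (nat_lit 1100000), (nat_lit 1785001)], [(nat_lit 4), (nat_lit 51), (nat_lit 272), (nat_lit 60), (nat_lit 8)]⟩,
 ⟨⟨[(nat_lit 80), (nat_lit 120), (nat_lit 160)], [(nat_lit 0), (nat_lit 0), (nat_lit 2132)], [((nat_lit 0), (nat_lit 0), (nat_lit 0)), ((nat_lit 0), (nat_lit 0), (nat_lit 0)), ((nat_lit 858), (nat_lit 1000), (nat_lit 713))], ((nat_lit 100), (nat_lit 91), (nat_lit 64))⟩, (nat_lit 0), (nat_lit 109), (nat_lit 109), (nat_lit 0), (nat_lit 0), [(nat_lit 4186384000), (nat_lit 7115424000), (nat_lit 10601696000)], [], [(nat_lit 21896467431), (nat_lit 23475827344), (nat_lit 28871734808), (nat_lit 30056028074), (nat_lit 30339887504), (nat_lit 31278432684), (nat_lit 34547367252), (nat_lit 35063334526)], (nat_lit 0), (nat_lit 0), (nat_lit 0), (nat_lit 0), (nat_lit 0), (nat_lit 0), [], [(nat_lit 18), (nat_lit 59), (nat_lit 538), (nat_lit 300), (nat_lit 13)]⟩,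
 Rw.none⟩)) (.spl (nat_lit 5) (nat_lit 200) (.leaf ⟨(nat_lit 260), (nat_lit 633), (nat_lit 0), (nat_lit 107), (nat_lit 0), (nat_lit 4656), (nat_lit 5759), (nat_lit 1330), (nat_lit 0), (nat_lit 0), (nat_lit 1040000), [((nat_lit 340), [((nat_lit 37), (nat_lit 5), (nat_lit 260))])], ⟨(nat_lit 7), false, true, true, (nat_lit 319), (nat_lit 3872), (nat_lit 4473), [(nat_lit 1679069), (nat_lit 1672609), (nat_lit 1722167), (nat_lit 1716161), (nat_lit 1883018), (nat_lit 1866188), (nat_lit 1926124), (nat_lit 1909748)]⟩, ⟨(nat_lit 3), false, false, true, (nat_lit 165), (nat_lit 3872), (nat_lit 4473), [(nat_lit 1277776), (nat_lit 1283782), (nat_lit 1342475), (nat_lit 1349162), (nat_lit 1481711), (nat_lit 1477347), (nat_lit 1546410), (nat_lit 1542727)]⟩, (nat_lit 5142488), (nat_lit 35610785), (nat_lit 23324422), (nat_lit 8064793), (nat_lit 3), (nat_lit 0), [], [], [], [⟨(nat_lit 0), (nat_lit 100), (nat_lit 72), (nat_lit 63), (nat_lit 107100022)⟩],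
 ⟨⟨[(nat_lit 40), (nat_lit 80), (nat_lit 120)], [(nat_lit 0), (nat_lit 0), (nat_lit 2151)], [((nat_lit 0), (nat_lit 0), (nat_lit 0)), ((nat_lit 0), (nat_lit 0), (nat_lit 0)), ((nat_lit 1000), (nat_lit 815), (nat_lit 753))], ((nat_lit 80), (nat_lit 100), (nat_lit 63))⟩, (nat_lit 25444), (nat_lit 185), (nat_lit 185), (nat_lit 0), (nat_lit 216101), [(nat_lit 2426264571), (nat_lit 2365783430), (nat_lit 483432570)], [(nat_lit 0), (nat_lit 0), (nat_lit 0)], [(nat_lit 22748274103), (nat_lit 23870816561), (nat_lit 30067119472), (nat_lit 31227677224), (nat_lit 24542616247), (nat_lit 25475715627), (nat_lit 30875908096), (nat_lit 31845400224)], (nat_lit 1271251), (nat_lit 1271251), (nat_lit 1271251), (nat_lit 1271251), (nat_lit 780000), (nat_lit 1762501), [(nat_lit 490000), (nat_lit 1100000), (nat_lit 1785001)], [(nat_lit 4), (nat_lit 51), (nat_lit 272), (nat_lit 60), (nat_lit 8)]⟩,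
 ⟨⟨[(nat_lit 80), (nat_lit 120), (nat_lit 160)], [(nat_lit 0), (nat_lit 0), (nat_lit 2132)], [((nat_lit 0), (nat_lit 0), (nat_lit 0)), ((nat_lit 0), (nat_lit 0), (nat_lit 0)), ((nat_lit 858), (nat_lit 1000), (nat_lit 713))], ((nat_lit 100), (nat_lit 91), (nat_lit 64))⟩, (nat_lit 2046142), (nat_lit 554), (nat_lit 554), (nat_lit 0), (nat_lit 680048), [(nat_lit 3469120000), (nat_lit 5896320000), (nat_lit 8785280000)], [], [(nat_lit 27770970452), (nat_lit 28542402623), (nat_lit 31443036852), (nat_lit 32045390948), (nat_lit 24188730104), (nat_lit 24651275710), (nat_lit 27139764506), (nat_lit 27565382348)], (nat_lit 1271251), (nat_lit 1271251), (nat_lit 1271251), (nat_lit 1271251), (nat_lit 0), (nat_lit 1412501), [(nat_lit 1100000), (nat_lit 1785001), (nat_lit 1271251)], [(nat_lit 18), (nat_lit 59), (nat_lit 456), (nat_lit 225), (nat_lit 11)]⟩,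
 ⟨⟨[(nat_lit 140), (nat_lit 180), (nat_lit 200)], [(nat_lit 0), (nat_lit 0), (nat_lit 2835)], [((nat_lit 0), (nat_lit 0), (nat_lit 0)), ((nat_lit 0), (nat_lit 0), (nat_lit 0)), ((nat_lit 363), (nat_lit 1000), (nat_lit 798))], ((nat_lit 0), (nat_lit 0), (nat_lit 0))⟩, (nat_lit 54946), (nat_lit 300), (nat_lit 1813), (nat_lit 8356700), (nat_lit 2846478), [(nat_lit 1053094000), (nat_lit 1504206000), (nat_lit 1754800000)], [], [(nat_lit 7905157318), (nat_lit 7594957874), (nat_lit 7326758736), (nat_lit 7037308659), (nat_lit 6459071725), (nat_lit 6162663553), (nat_lit 7066361852), (nat_lit 8071042905)], (nat_lit 780000), (nat_lit 1271251), (nat_lit 780000), (nat_lit 1762501), (nat_lit 0), (nat_lit 1412501), [(nat_lit 1977501), (nat_lit 1271251), (nat_lit 1271251)], [(nat_lit 32), (nat_lit 67), (nat_lit 531), (nat_lit 175), (nat_lit 12)]⟩⟩) (.leaf ⟨(nat_lit 301), (nat_lit 588), (nat_lit 0), (nat_lit 111), (nat_lit 0), (nat_lit 4550), (nat_lit 5408), (nat_lit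 1268), (nat_lit 0), (nat_lit 0), (nat_lit 1204000), [((nat_lit 340), [((nat_lit 37), (nat_lit 5), (nat_lit 301))])], ⟨(nat_lit 7), false, true, true, (nat_lit 319), (nat_lit 3872), (nat_lit 4473), [(nat_lit 1679069), (nat_lit 1672609), (nat_lit 1722167), (nat_lit 1716161), (nat_lit 1883018), (nat_lit 1866188), (nat_lit 1926124), (nat_lit 1909748)]⟩, ⟨(nat_lit 3), false, false, true, (nat_lit 165), (nat_lit 3872), (nat_lit 4473), [(nat_lit 1277776), (nat_lit 1283782), (nat_lit 1342475), (nat_lit 1349162), (nat_lit 1481711), (nat_lit 1477347), (nat_lit 1546410), (nat_lit 1542727)]⟩, (nat_lit 5142488), (nat_lit 35610785), (nat_lit 23324422), (nat_lit 8064793), (nat_lit 5), (nat_lit 0), [], [], [⟨(nat_lit 1), (nat_lit 55), (nat_lit 99), (nat_lit 100), (nat_lit 108734920)⟩], [⟨(nat_lit 1), (nat_lit 77), (nat_lit 72), (nat_lit 100), (nat_lit 38960279)⟩],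
 ⟨⟨[(nat_lit 40), (nat_lit 80), (nat_lit 120)], [(nat_lit 0), (nat_lit 0), (nat_lit 2151)], [((nat_lit 0), (nat_lit 0), (nat_lit 0)), ((nat_lit 0), (nat_lit 0), (nat_lit 0)), ((nat_lit 1000), (nat_lit 815), (nat_lit 753))], ((nat_lit 80), (nat_lit 100), (nat_lit 63))⟩, (nat_lit 0), (nat_lit 185), (nat_lit 185), (nat_lit 0), (nat_lit 216101), [(nat_lit 2302817494), (nat_lit 2209807581), (nat_lit 0)], [(nat_lit 0), (nat_lit 0), (nat_lit 882445981)], [(nat_lit 22552481756), (nat_lit 23662531531), (nat_lit 29908319600), (nat_lit 31056535825), (nat_lit 24364242456), (nat_lit 25288166494), (nat_lit 30758129800), (nat_lit 31718467450)], (nat_lit 1271251), (nat_lit 1271251), (nat_lit 1271251), (nat_lit 1271251), (nat_lit 780000), (nat_lit 1762501), [(nat_lit 490000), (nat_lit 1100000), (nat_lit 1785001)], [(nat_lit 4), (nat_lit 51), (nat_lit 272), (nat_lit 60), (nat_lit 8)]⟩,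
 ⟨⟨[(nat_lit 80), (nat_lit 120), (nat_lit 160)], [(nat_lit 0), (nat_lit 0), (nat_lit 2132)], [((nat_lit 0), (nat_lit 0), (nat_lit 0)), ((nat_lit 0), (nat_lit 0), (nat_lit 0)), ((nat_lit 858), (nat_lit 1000), (nat_lit 713))], ((nat_lit 100), (nat_lit 91), (nat_lit 64))⟩, (nat_lit 1657863), (nat_lit 415), (nat_lit 415), (nat_lit 0), (nat_lit 680048), [(nat_lit 3276912000), (nat_lit 5569632000), (nat_lit 8298528000)], [], [(nat_lit 23281418721), (nat_lit 23807516541), (nat_lit 25727313602), (nat_lit 26130136920), (nat_lit 26048757488), (nat_lit 26336322716), (nat_lit 27689279048), (nat_lit 28014383396)], (nat_lit 1271251), (nat_lit 1271251), (nat_lit 1271251), (nat_lit 1271251), (nat_lit 1271251), (nat_lit 1271251), [(nat_lit 1100000), (nat_lit 1785001), (nat_lit 1271251)], [(nat_lit 18), (nat_lit 59), (nat_lit 538), (nat_lit 300), (nat_lit 13)]⟩,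
 ⟨⟨[(nat_lit 140), (nat_lit 180), (nat_lit 200)], [(nat_lit 0), (nat_lit 0), (nat_lit 2835)], [((nat_lit 0), (nat_lit 0), (nat_lit 0)), ((nat_lit 0), (nat_lit 0), (nat_lit 0)), ((nat_lit 363), (nat_lit 1000), (nat_lit 798))], ((nat_lit 0), (nat_lit 0), (nat_lit 0))⟩, (nat_lit 30540), (nat_lit 300), (nat_lit 1692), (nat_lit 8669100), (nat_lit 2846478), [(nat_lit 1092462000), (nat_lit 1560438000), (nat_lit 1820400000)], [], [(nat_lit 7194238944), (nat_lit 6908828979), (nat_lit 6651363740), (nat_lit 6366464400), (nat_lit 6763261616), (nat_lit 6465848323), (nat_lit 6199898240), (nat_lit 5905989575)], (nat_lit 780000), (nat_lit 1271251), (nat_lit 780000), (nat_lit 1762501), (nat_lit 1271251), (nat_lit 1271251), [(nat_lit 1977501), (nat_lit 1271251), (nat_lit 1271251)], [(nat_lit 32), (nat_lit 67), (nat_lit 526), (nat_lit 225), (nat_lit 11)]⟩⟩)))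
noncomputable def c11_84 : Tr Lf :=
 (.trZ (nat_lit 3) (nat_lit 4) (nat_lit 5) (nat_lit 100) (nat_lit 94) (nat_lit 59) (nat_lit 30) (.stt (nat_lit 1) (.stt (nat_lit 2) (.spl (nat_lit 2) (nat_lit 160) (.trX (nat_lit 4) (nat_lit 0) (nat_lit 2) (nat_lit 82) (nat_lit 76) (nat_lit 100) (nat_lit 340) (.trX (nat_lit 5) (nat_lit 1) (nat_lit 2) (nat_lit 100) (nat_lit 40) (nat_lit 100) (nat_lit 390) (.leaf ⟨(nat_lit 0), (nat_lit 1000), (nat_lit 0), (nat_lit 0), (nat_lit 10009), (nat_lit 5439), (nat_lit 7438), (nat_lit 0), (nat_lit 0), (nat_lit 0), (nat_lit 0), [], Pd.none, Pd.none, (nat_lit 0), (nat_lit 1), (nat_lit 0), (nat_lit 0), (nat_lit 6), (nat_lit 0), [], [⟨(nat_lit 1), (nat_lit 89), (nat_lit 80), (nat_lit 100), (nat_lit 487166117)⟩], [⟨(nat_lit 1), (nat_lit 40), (nat_lit 100), (nat_lit 100), (nat_lit 194950247)⟩], [],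
 ⟨⟨[(nat_lit 40), (nat_lit 80), (nat_lit 120)], [(nat_lit 0), (nat_lit 0), (nat_lit 2151)], [((nat_lit 0), (nat_lit 0), (nat_lit 0)), ((nat_lit 0), (nat_lit 0), (nat_lit 0)), ((nat_lit 1000), (nat_lit 815), (nat_lit 753))], ((nat_lit 80), (nat_lit 100), (nat_lit 63))⟩, (nat_lit 0), (nat_lit 77), (nat_lit 77), (nat_lit 0), (nat_lit 0), [(nat_lit 2367913643), (nat_lit 4688000002), (nat_lit 7968000000)], [], [(nat_lit 25485649480), (nat_lit 26739471175), (nat_lit 31843679986), (nat_lit 32783026281), (nat_lit 29782435022), (nat_lit 30771031964), (nat_lit 35037901735), (nat_lit 35852057388)], (nat_lit 0), (nat_lit 0), (nat_lit 0), (nat_lit 0), (nat_lit 0), (nat_lit 0), [], [(nat_lit 4), (nat_lit 51), (nat_lit 203), (nat_lit 0), (nat_lit 5)]⟩,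
 ⟨⟨[(nat_lit 80), (nat_lit 120), (nat_lit 160)], [(nat_lit 0), (nat_lit 0), (nat_lit 2132)], [((nat_lit 0), (nat_lit 0), (nat_lit 0)), ((nat_lit 0), (nat_lit 0), (nat_lit 0)), ((nat_lit 858), (nat_lit 1000), (nat_lit 713))], ((nat_lit 100), (nat_lit 91), (nat_lit 64))⟩, (nat_lit 2876335), (nat_lit 227), (nat_lit 227), (nat_lit 0), (nat_lit 0), [(nat_lit 4688000000), (nat_lit 7968000000), (nat_lit 11872000000)], [], [(nat_lit 29022371767), (nat_lit 31158514330), (nat_lit 37650351327), (nat_lit 38932033141), (nat_lit 33227916609), (nat_lit 34342080977), (nat_lit 38201171787), (nat_lit 39097956546)], (nat_lit 0), (nat_lit 0), (nat_lit 0), (nat_lit 0), (nat_lit 0), (nat_lit 0), [], [(nat_lit 18), (nat_lit 59), (nat_lit 538), (nat_lit 300), (nat_lit 13)]⟩,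
 Rw.none⟩))) (.leaf ⟨(nat_lit 0), (nat_lit 872), (nat_lit 0), (nat_lit 128), (nat_lit 0), (nat_lit 5410), (nat_lit 7339), (nat_lit 1308), (nat_lit 0), (nat_lit 0), (nat_lit 0), [], Pd.none, Pd.none, (nat_lit 0), (nat_lit 1), (nat_lit 0), (nat_lit 0), (nat_lit 6), (nat_lit 0), [], [⟨(nat_lit 1), (nat_lit 77), (nat_lit 77), (nat_lit 100), (nat_lit 369885302)⟩], [⟨(nat_lit 1), (nat_lit 44), (nat_lit 96), (nat_lit 100), (nat_lit 106609710)⟩], [],
 ⟨⟨[(nat_lit 40), (nat_lit 80), (nat_lit 120)], [(nat_lit 0), (nat_lit 0), (nat_lit 2151)], [((nat_lit 0), (nat_lit 0), (nat_lit 0)), ((nat_lit 0), (nat_lit 0), (nat_lit 0)), ((nat_lit 1000), (nat_lit 815), (nat_lit 753))], ((nat_lit 80), (nat_lit 100), (nat_lit 63))⟩, (nat_lit 0), (nat_lit 79), (nat_lit 79), (nat_lit 0), (nat_lit 0), [(nat_lit 2339515199), (nat_lit 4688000004), (nat_lit 7968000000)], [], [(nat_lit 25507068824), (nat_lit 26757380779), (nat_lit 31849228964), (nat_lit 32748655064), (nat_lit 30315068424),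 (nat_lit 31274448989), (nat_lit 35431072115), (nat_lit 36220501255)], (nat_lit 0), (nat_lit 0), (nat_lit 0), (nat_lit 0), (nat_lit 0), (nat_lit 0), [], [(nat_lit 4), (nat_lit 51), (nat_lit 203), (nat_lit 0), (nat_lit 5)]⟩,
 ⟨⟨[(nat_lit 80), (nat_lit 120), (nat_lit 160)], [(nat_lit 0), (nat_lit 0), (nat_lit 2132)], [((nat_lit 0), (nat_lit 0), (nat_lit 0)), ((nat_lit 0), (nat_lit 0), (nat_lit 0)), ((nat_lit 858), (nat_lit 1000), (nat_lit 713))], ((nat_lit 100), (nat_lit 91), (nat_lit 64))⟩, (nat_lit 2758709), (nat_lit 227), (nat_lit 227), (nat_lit 0), (nat_lit 0), [(nat_lit 4688000000), (nat_lit 7968000000), (nat_lit 11872000000)], [], [(nat_lit 29262170161), (nat_lit 31384906007), (nat_lit 37823721216), (nat_lit 39101538738), (nat_lit 34039159466), (nat_lit 34962667673), (nat_lit 38661848552), (nat_lit 39502958664)], (nat_lit 0), (nat_lit 0), (nat_lit 0), (nat_lit 0), (nat_lit 0), (nat_lit 0), [], [(nat_lit 18), (nat_lit 59), (nat_lit 538), (nat_lit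 300), (nat_lit 13)]⟩,
 ⟨⟨[(nat_lit 120), (nat_lit 160), (nat_lit 180)], [(nat_lit 0), (nat_lit 0), (nat_lit 1613)], [((nat_lit 0), (nat_lit 0), (nat_lit 0)), ((nat_lit 0), (nat_lit 0), (nat_lit 0)), ((nat_lit 620), (nat_lit 1000), (nat_lit 670))], ((nat_lit 100), (nat_lit 65), (nat_lit 64))⟩, (nat_lit 55707), (nat_lit 300), (nat_lit 1333), (nat_lit 9497604), (nat_lit 2177001), [(nat_lit 1019904000), (nat_lit 1519616000), (nat_lit 1799424000)], [], [(nat_lit 8282752051), (nat_lit 8205064288), (nat_lit 7999786510), (nat_lit 7919923460), (nat_lit 7117822848), (nat_lit 7534916620), (nat_lit 6497607800), (nat_lit 6416291619)], (nat_lit 1100000), (nat_lit 1271251), (nat_lit 1271251), (nat_lit 1271251), (nat_lit 169688), (nat_lit 2886876), [(nat_lit 1695001), (nat_lit 1271251), (nat_lit 1271251)], [(nat_lit 28), (nat_lit 65), (nat_lit 483), (nat_lit 250), (nat_lit 11)]⟩⟩)) (.spl (nat_lit 1) (nat_lit 260) (.trX (nat_lit 3) (nat_lit 0) (nat_lit 1) (nat_lit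 84) (nat_lit 35) (nat_lit 100) (nat_lit 390) (.spl (nat_lit 2) (nat_lit 160) (.trX (nat_lit 4) (nat_lit 0) (nat_lit 2) (nat_lit 82) (nat_lit 76) (nat_lit 100) (nat_lit 340) (.trX (nat_lit 5) (nat_lit 1) (nat_lit 2) (nat_lit 100) (nat_lit 40) (nat_lit 100) (nat_lit 390) (.leaf ⟨(nat_lit 291), (nat_lit 568), (nat_lit 0), (nat_lit 141), (nat_lit 0), (nat_lit 3941), (nat_lit 5792), (nat_lit 1537), (nat_lit 0), (nat_lit 0), (nat_lit 1164000), [((nat_lit 340), [((nat_lit 37), (nat_lit 5), (nat_lit 291))])], ⟨(nat_lit 7), false, true, true, (nat_lit 311), (nat_lit 3872), (nat_lit 4473), [(nat_lit 1679069), (nat_lit 1672609), (nat_lit 1700618), (nat_lit 1694385), (nat_lit 1866022), (nat_lit 1850057), (nat_lit 1887575), (nat_lit 1871837)]⟩, ⟨(nat_lit 6), false, false, true, (nat_lit 234), (nat_lit 3872), (nat_lit 4473), [(nat_lit 1481711), (nat_lit 1477347), (nat_lit 1524844), (nat_lit 1520934), (nat_lit 1651656), (nat_lit 1638651), (nat_lit 1694789), (nat_lit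 1682237)]⟩, (nat_lit 5583862), (nat_lit 32938816), (nat_lit 20953240), (nat_lit 13107944), (nat_lit 6), (nat_lit 0), [], [⟨(nat_lit 1), (nat_lit 89), (nat_lit 80), (nat_lit 100), (nat_lit 226870316)⟩], [⟨(nat_lit 1), (nat_lit 55), (nat_lit 100), (nat_lit 99), (nat_lit 9230818)⟩], [],
 ⟨⟨[(nat_lit 40), (nat_lit 80), (nat_lit 120)], [(nat_lit 0), (nat_lit 0), (nat_lit 2151)], [((nat_lit 0), (nat_lit 0), (nat_lit 0)), ((nat_lit 0), (nat_lit 0), (nat_lit 0)), ((nat_lit 1000), (nat_lit 815), (nat_lit 753))], ((nat_lit 80), (nat_lit 100), (nat_lit 63))⟩, (nat_lit 0), (nat_lit 76), (nat_lit 76), (nat_lit 0), (nat_lit 0), [(nat_lit 2162036280), (nat_lit 2418740685), (nat_lit 0)], [(nat_lit 0), (nat_lit 0), (nat_lit 654832628)], [(nat_lit 24788808145), (nat_lit 25803460051), (nat_lit 29580152547), (nat_lit 30450788482), (nat_lit 28452758024), (nat_lit 29276089361), (nat_lit 32710377822), (nat_lit 33465118014)], (nat_lit 0), (nat_lit 0), (nat_lit 0), (nat_lit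 0), (nat_lit 0), (nat_lit 0), [], [(nat_lit 4), (nat_lit 51), (nat_lit 203), (nat_lit 0), (nat_lit 5)]⟩,
 ⟨⟨[(nat_lit 80), (nat_lit 120), (nat_lit 160)], [(nat_lit 0), (nat_lit 0), (nat_lit 2132)], [((nat_lit 0), (nat_lit 0), (nat_lit 0)), ((nat_lit 0), (nat_lit 0), (nat_lit 0)), ((nat_lit 858), (nat_lit 1000), (nat_lit 713))], ((nat_lit 100), (nat_lit 91), (nat_lit 64))⟩, (nat_lit 1808292), (nat_lit 517), (nat_lit 517), (nat_lit 0), (nat_lit 638694), [(nat_lit 3323792000), (nat_lit 5649312000), (nat_lit 8417248000)], [], [(nat_lit 25254168609), (nat_lit 25617703660), (nat_lit 28199418117), (nat_lit 28409795912), (nat_lit 25261923256), (nat_lit 25413053185), (nat_lit 27348148211), (nat_lit 27687373833)], (nat_lit 1271251), (nat_lit 1271251), (nat_lit 1271251), (nat_lit 1271251), (nat_lit 169688), (nat_lit 2813438), [(nat_lit 1100000), (nat_lit 1785001), (nat_lit 1271251)], [(nat_lit 18), (nat_lit 59), (nat_lit 538), (nat_lit 300), (nat_lit 13)]⟩,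
 ⟨⟨[(nat_lit 140), (nat_lit 180), (nat_lit 200)], [(nat_lit 0), (nat_lit 0), (nat_lit 2835)], [((nat_lit 0), (nat_lit 0), (nat_lit 0)), ((nat_lit 0), (nat_lit 0), (nat_lit 0)), ((nat_lit 363), (nat_lit 1000), (nat_lit 798))], ((nat_lit 0), (nat_lit 0), (nat_lit 0))⟩, (nat_lit 38794), (nat_lit 300), (nat_lit 1522), (nat_lit 11012100), (nat_lit 2410630), [(nat_lit 1387722000), (nat_lit 1982178000), (nat_lit 2312400000)], [], [(nat_lit 10227775266), (nat_lit 9984433054), (nat_lit 9850284743), (nat_lit 9606000810), (nat_lit 8583863241), (nat_lit 9404243220), (nat_lit 7953747307), (nat_lit 7715869983)], (nat_lit 780000), (nat_lit 1100000), (nat_lit 1271251), (nat_lit 1271251), (nat_lit 169688), (nat_lit 2813438), [(nat_lit 1977501), (nat_lit 1271251), (nat_lit 1271251)], [(nat_lit 32), (nat_lit 67), (nat_lit 492), (nat_lit 225), (nat_lit 10)]⟩⟩))) (.spl (nat_lit 6) (nat_lit 32) (.leaf ⟨(nat_lit 0), (nat_lit 578), (nat_lit 0), (nat_lit 422), (nat_lit 0),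 (nat_lit 5477), (nat_lit 9562), (nat_lit 4173), (nat_lit 0), (nat_lit 0), (nat_lit 0), [], Pd.none, Pd.none, (nat_lit 0), (nat_lit 1), (nat_lit 0), (nat_lit 0), (nat_lit 6), (nat_lit 0), [], [], [], [⟨(nat_lit 0), (nat_lit 93), (nat_lit 78), (nat_lit 100), (nat_lit 106739290)⟩],
 ⟨⟨[(nat_lit 40), (nat_lit 80), (nat_lit 100)], [(nat_lit 0), (nat_lit 0), (nat_lit 1280)], [((nat_lit 0), (nat_lit 0), (nat_lit 0)), ((nat_lit 0), (nat_lit 0), (nat_lit 0)), ((nat_lit 1000), (nat_lit 800), (nat_lit 600))], ((nat_lit 80), (nat_lit 100), (nat_lit 54))⟩, (nat_lit 403742), (nat_lit 77), (nat_lit 77), (nat_lit 0), (nat_lit 0), [(nat_lit 2519986433), (nat_lit 4688000032), (nat_lit 6250000000)], [], [(nat_lit 25457582786), (nat_lit 26716003450), (nat_lit 31265749585), (nat_lit 32199469699), (nat_lit 30288755006), (nat_lit 31253382018), (nat_lit 35011246003), (nat_lit 35831396982)], (nat_lit 0), (nat_lit 0), (nat_lit 0), (nat_lit 0), (nat_lit 0), (nat_lit 0), [],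 [(nat_lit 3), (nat_lit 50), (nat_lit 203), (nat_lit 0), (nat_lit 5)]⟩,
 ⟨⟨[(nat_lit 80), (nat_lit 120), (nat_lit 140)], [(nat_lit 0), (nat_lit 0), (nat_lit 1164)], [((nat_lit 0), (nat_lit 0), (nat_lit 0)), ((nat_lit 0), (nat_lit 0), (nat_lit 0)), ((nat_lit 941), (nat_lit 1000), (nat_lit 576))], ((nat_lit 100), (nat_lit 95), (nat_lit 55))⟩, (nat_lit 3825766), (nat_lit 397), (nat_lit 397), (nat_lit 0), (nat_lit 502579), [(nat_lit 4688000000), (nat_lit 7968000000), (nat_lit 9842000000)], [], [(nat_lit 31213400803), (nat_lit 31929476140), (nat_lit 37762669923), (nat_lit 39156639181), (nat_lit 34433153380), (nat_lit 35251141347), (nat_lit 41203204713), (nat_lit 41646239834)], (nat_lit 1271251), (nat_lit 1271251), (nat_lit 1271251), (nat_lit 1271251), (nat_lit 169688), (nat_lit 2886876), [(nat_lit 1100000), (nat_lit 1785001), (nat_lit 1271251)], [(nat_lit 17), (nat_lit 58), (nat_lit 401), (nat_lit 175), (nat_lit 11)]⟩,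
 ⟨⟨[(nat_lit 120), (nat_lit 160), (nat_lit 180)], [(nat_lit 0), (nat_lit 0), (nat_lit 1613)], [((nat_lit 0), (nat_lit 0), (nat_lit 0)), ((nat_lit 0), (nat_lit 0), (nat_lit 0)), ((nat_lit 620), (nat_lit 1000), (nat_lit 670))], ((nat_lit 100), (nat_lit 73), (nat_lit 55))⟩, (nat_lit 1133598), (nat_lit 300), (nat_lit 855), (nat_lit 31312400), (nat_lit 1142532), [(nat_lit 3362496000), (nat_lit 5009984000), (nat_lit 5932476000)], [], [(nat_lit 26298060984), (nat_lit 26097490151), (nat_lit 25946234473), (nat_lit 25724580511), (nat_lit 23371148712), (nat_lit 24711169585), (nat_lit 21669347288), (nat_lit 21426861528)], (nat_lit 1100000), (nat_lit 1271251), (nat_lit 1271251), (nat_lit 1271251), (nat_lit 169688), (nat_lit 2886876), [(nat_lit 1695001), (nat_lit 1271251), (nat_lit 1271251)], [(nat_lit 28), (nat_lit 65), (nat_lit 483), (nat_lit 250), (nat_lit 11)]⟩⟩) (.dle (nat_lit 0))))) (.trX (nat_lit 5) (nat_lit 1) (nat_lit 2) (nat_lit 96) (nat_lit 40) (nat_lit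 100) (nat_lit 390) (.leaf ⟨(nat_lit 0), (nat_lit 852), (nat_lit 0), (nat_lit 148), (nat_lit 0), (nat_lit 5101), (nat_lit 6505), (nat_lit 1619), (nat_lit 0), (nat_lit 0), (nat_lit 0), [], Pd.none, Pd.none, (nat_lit 0), (nat_lit 1), (nat_lit 0), (nat_lit 0), (nat_lit 6), (nat_lit 0), [], [⟨(nat_lit 1), (nat_lit 85), (nat_lit 78), (nat_lit 100), (nat_lit 244052801)⟩], [⟨(nat_lit 1), (nat_lit 59), (nat_lit 97), (nat_lit 100), (nat_lit 88518592)⟩], [],
 ⟨⟨[(nat_lit 40), (nat_lit 80), (nat_lit 120)], [(nat_lit 0), (nat_lit 0), (nat_lit 2151)], [((nat_lit 0), (nat_lit 0), (nat_lit 0)), ((nat_lit 0), (nat_lit 0), (nat_lit 0)), ((nat_lit 1000), (nat_lit 815), (nat_lit 753))], ((nat_lit 80), (nat_lit 100), (nat_lit 63))⟩, (nat_lit 0), (nat_lit 79), (nat_lit 79), (nat_lit 0), (nat_lit 0), [(nat_lit 2301952980), (nat_lit 4688000006), (nat_lit 7968000000)], [], [(nat_lit 25735295608), (nat_lit 26948210684), (nat_lit 31908354262), (nat_lit 32786394472), (nat_lit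 30436424468), (nat_lit 31371608730), (nat_lit 35128908451), (nat_lit 35809207818)], (nat_lit 0), (nat_lit 0), (nat_lit 0), (nat_lit 0), (nat_lit 0), (nat_lit 0), [], [(nat_lit 4), (nat_lit 51), (nat_lit 203), (nat_lit 0), (nat_lit 5)]⟩,
 ⟨⟨[(nat_lit 80), (nat_lit 120), (nat_lit 140)], [(nat_lit 0), (nat_lit 528), (nat_lit 1572)], [((nat_lit 0), (nat_lit 0), (nat_lit 0)), ((nat_lit 1000), (nat_lit 959), (nat_lit 206)), ((nat_lit 966), (nat_lit 1000), (nat_lit 679))], ((nat_lit 100), (nat_lit 98), (nat_lit 66))⟩, (nat_lit 6002788), (nat_lit 473), (nat_lit 473), (nat_lit 0), (nat_lit 664894), [(nat_lit 4688000000), (nat_lit 7968000000), (nat_lit 9842000000)], [], [(nat_lit 30509966849), (nat_lit 31033289625), (nat_lit 34621181484), (nat_lit 35099356975), (nat_lit 32394022275), (nat_lit 32639250591), (nat_lit 37333227822), (nat_lit 37783973460)], (nat_lit 1271251), (nat_lit 1271251), (nat_lit 1271251), (nat_lit 1271251), (nat_lit 169688), (nat_lit 2813438),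 [(nat_lit 1100000), (nat_lit 1785001), (nat_lit 1271251)], [(nat_lit 17), (nat_lit 58), (nat_lit 401), (nat_lit 175), (nat_lit 11)]⟩,
 ⟨⟨[(nat_lit 140), (nat_lit 180), (nat_lit 200)], [(nat_lit 0), (nat_lit 0), (nat_lit 2835)], [((nat_lit 0), (nat_lit 0), (nat_lit 0)), ((nat_lit 0), (nat_lit 0), (nat_lit 0)), ((nat_lit 363), (nat_lit 1000), (nat_lit 798))], ((nat_lit 0), (nat_lit 0), (nat_lit 0))⟩, (nat_lit 40720), (nat_lit 300), (nat_lit 1728), (nat_lit 11558800), (nat_lit 2846478), [(nat_lit 1456616000), (nat_lit 2080584000), (nat_lit 2427200000)], [], [(nat_lit 10729874844), (nat_lit 10374080222), (nat_lit 10277759666), (nat_lit 9920851839), (nat_lit 9014106191), (nat_lit 10401520815), (nat_lit 8325110652), (nat_lit 7985046030)], (nat_lit 780000), (nat_lit 1271251), (nat_lit 1271251), (nat_lit 1271251), (nat_lit 169688), (nat_lit 2813438), [(nat_lit 1977501), (nat_lit 1271251), (nat_lit 1271251)], [(nat_lit 32), (nat_lit 67), (nat_lit 547), (nat_lit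 250), (nat_lit 11)]⟩⟩)))) (.spl (nat_lit 0) (nat_lit 330) (.leaf ⟨(nat_lit 0), (nat_lit 829), (nat_lit 0), (nat_lit 171), (nat_lit 0), (nat_lit 5657), (nat_lit 8030), (nat_lit 1851), (nat_lit 0), (nat_lit 0), (nat_lit 0), [], Pd.none, Pd.none, (nat_lit 0), (nat_lit 1), (nat_lit 0), (nat_lit 0), (nat_lit 6), (nat_lit 0), [], [⟨(nat_lit 1), (nat_lit 83), (nat_lit 81), (nat_lit 100), (nat_lit 217640092)⟩], [⟨(nat_lit 1), (nat_lit 55), (nat_lit 99), (nat_lit 100), (nat_lit 56753312)⟩], [],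
 ⟨⟨[(nat_lit 40), (nat_lit 80), (nat_lit 120)], [(nat_lit 0), (nat_lit 0), (nat_lit 2151)], [((nat_lit 0), (nat_lit 0), (nat_lit 0)), ((nat_lit 0), (nat_lit 0), (nat_lit 0)), ((nat_lit 1000), (nat_lit 815), (nat_lit 753))], ((nat_lit 80), (nat_lit 100), (nat_lit 63))⟩, (nat_lit 2127809), (nat_lit 210), (nat_lit 210), (nat_lit 0), (nat_lit 388996), [(nat_lit 2347288763), (nat_lit 4688000073), (nat_lit 7968000000)], [], [(nat_lit 26874572606), (nat_lit 27417539099), (nat_lit 32379362202), (nat_lit 32773876655), (nat_lit 31030918796), (nat_lit 31450239241), (nat_lit 35747565936), (nat_lit 36148560975)], (nat_lit 1271251), (nat_lit 1271251), (nat_lit 1271251), (nat_lit 1271251), (nat_lit 1271251), (nat_lit 1271251), [(nat_lit 490000), (nat_lit 1100000), (nat_lit 1785001)], [(nat_lit 4), (nat_lit 51), (nat_lit 203), (nat_lit 0), (nat_lit 5)]⟩,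
 ⟨⟨[(nat_lit 80), (nat_lit 120), (nat_lit 160)], [(nat_lit 0), (nat_lit 0), (nat_lit 2132)], [((nat_lit 0), (nat_lit 0), (nat_lit 0)), ((nat_lit 0), (nat_lit 0), (nat_lit 0)), ((nat_lit 858), (nat_lit 1000), (nat_lit 713))], ((nat_lit 100), (nat_lit 91), (nat_lit 64))⟩, (nat_lit 2479911), (nat_lit 349), (nat_lit 349), (nat_lit 0), (nat_lit 244546), [(nat_lit 4688000000), (nat_lit 7968000000), (nat_lit 11872000000)], [], [(nat_lit 33091133161), (nat_lit 34623702005), (nat_lit 39537737648), (nat_lit 40426814771), (nat_lit 34909099388), (nat_lit 35600682600), (nat_lit 39668337040), (nat_lit 40501575280)], (nat_lit 1271251), (nat_lit 1271251), (nat_lit 1271251), (nat_lit 1271251), (nat_lit 169688), (nat_lit 2886876), [(nat_lit 1100000), (nat_lit 1785001), (nat_lit 1271251)], [(nat_lit 18), (nat_lit 59), (nat_lit 538), (nat_lit 300), (nat_lit 13)]⟩,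
 ⟨⟨[(nat_lit 140), (nat_lit 180), (nat_lit 200)], [(nat_lit 0), (nat_lit 0), (nat_lit 2835)], [((nat_lit 0), (nat_lit 0), (nat_lit 0)), ((nat_lit 0), (nat_lit 0), (nat_lit 0)), ((nat_lit 363), (nat_lit 1000), (nat_lit 798))], ((nat_lit 0), (nat_lit 0), (nat_lit 0))⟩, (nat_lit 47048), (nat_lit 300), (nat_lit 1395), (nat_lit 13355100), (nat_lit 2129658), [(nat_lit 1682982000), (nat_lit 2403918000), (nat_lit 2804400000)], [], [(nat_lit 12477713685), (nat_lit 12063138209), (nat_lit 12001980148), (nat_lit 11574386055), (nat_lit 10588904952), (nat_lit 12186105039), (nat_lit 9672931700), (nat_lit 9263243321)], (nat_lit 780000), (nat_lit 1271251), (nat_lit 1271251), (nat_lit 1271251), (nat_lit 169688), (nat_lit 2886876), [(nat_lit 1977501), (nat_lit 1271251), (nat_lit 1271251)], [(nat_lit 32), (nat_lit 67), (nat_lit 483), (nat_lit 250), (nat_lit 10)]⟩⟩) (.trX (nat_lit 4) (nat_lit 0) (nat_lit 2) (nat_lit 76) (nat_lit 73) (nat_lit 100) (nat_lit 340) (.leaf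 ⟨(nat_lit 0), (nat_lit 857), (nat_lit 0), (nat_lit 143), (nat_lit 0), (nat_lit 5201), (nat_lit 8136), (nat_lit 1556), (nat_lit 0), (nat_lit 0), (nat_lit 0), [], Pd.none, Pd.none, (nat_lit 0), (nat_lit 1), (nat_lit 0), (nat_lit 0), (nat_lit 6), (nat_lit 0), [], [⟨(nat_lit 1), (nat_lit 87), (nat_lit 76), (nat_lit 100), (nat_lit 239579906)⟩], [⟨(nat_lit 1), (nat_lit 55), (nat_lit 99), (nat_lit 100), (nat_lit 82408031)⟩], [],
 ⟨⟨[(nat_lit 40), (nat_lit 80), (nat_lit 100)], [(nat_lit 0), (nat_lit 395), (nat_lit 1536)], [((nat_lit 0), (nat_lit 0), (nat_lit 0)), ((nat_lit 1000), (nat_lit 908), (nat_lit 154)), ((nat_lit 1000), (nat_lit 760), (nat_lit 642))], ((nat_lit 76), (nat_lit 100), (nat_lit 63))⟩, (nat_lit 1754924), (nat_lit 214), (nat_lit 214), (nat_lit 0), (nat_lit 430461), [(nat_lit 2080859054), (nat_lit 4688000040), (nat_lit 6250000000)], [], [(nat_lit 26866874716), (nat_lit 27355679422), (nat_lit 31990712157), (nat_lit 32498026279), (nat_lit 30315123397),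 (nat_lit 30731311022), (nat_lit 35140820679), (nat_lit 35541445492)], (nat_lit 1271251), (nat_lit 1271251), (nat_lit 1271251), (nat_lit 1271251), (nat_lit 1271251), (nat_lit 1271251), [(nat_lit 490000), (nat_lit 1100000), (nat_lit 1442501)], [(nat_lit 3), (nat_lit 50), (nat_lit 203), (nat_lit 0), (nat_lit 5)]⟩,
 ⟨⟨[(nat_lit 80), (nat_lit 120), (nat_lit 160)], [(nat_lit 0), (nat_lit 0), (nat_lit 2132)], [((nat_lit 0), (nat_lit 0), (nat_lit 0)), ((nat_lit 0), (nat_lit 0), (nat_lit 0)), ((nat_lit 858), (nat_lit 1000), (nat_lit 713))], ((nat_lit 100), (nat_lit 91), (nat_lit 64))⟩, (nat_lit 2478332), (nat_lit 362), (nat_lit 362), (nat_lit 0), (nat_lit 282397), [(nat_lit 4688000000), (nat_lit 7968000000), (nat_lit 11872000000)], [], [(nat_lit 32981735596), (nat_lit 34521555171), (nat_lit 39471936956), (nat_lit 40361119628), (nat_lit 34726060272), (nat_lit 35415958520), (nat_lit 39822733248), (nat_lit 40654763936)], (nat_lit 1271251), (nat_lit 1271251),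 (nat_lit 1271251), (nat_lit 1271251), (nat_lit 169688), (nat_lit 2886876), [(nat_lit 1100000), (nat_lit 1785001), (nat_lit 1271251)], [(nat_lit 18), (nat_lit 59), (nat_lit 538), (nat_lit 300), (nat_lit 13)]⟩,
 ⟨⟨[(nat_lit 140), (nat_lit 180), (nat_lit 200)], [(nat_lit 0), (nat_lit 0), (nat_lit 2835)], [((nat_lit 0), (nat_lit 0), (nat_lit 0)), ((nat_lit 0), (nat_lit 0), (nat_lit 0)), ((nat_lit 363), (nat_lit 1000), (nat_lit 798))], ((nat_lit 0), (nat_lit 0), (nat_lit 0))⟩, (nat_lit 39344), (nat_lit 300), (nat_lit 1551), (nat_lit 11168300), (nat_lit 2475647), [(nat_lit 1407406000), (nat_lit 2010294000), (nat_lit 2345200000)], [], [(nat_lit 10396790329), (nat_lit 10047238492), (nat_lit 10014897637), (nat_lit 9663160787), (nat_lit 8861464964), (nat_lit 10202645804), (nat_lit 8063945974), (nat_lit 7718357185)], (nat_lit 780000), (nat_lit 1271251), (nat_lit 1271251), (nat_lit 1271251), (nat_lit 169688), (nat_lit 2886876), [(nat_lit 1977501), (nat_lit 1271251),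 (nat_lit 1271251)], [(nat_lit 32), (nat_lit 67), (nat_lit 503), (nat_lit 250), (nat_lit 11)]⟩⟩)))))
noncomputable def c11_85 : Tr Lf :=
 (.spl (nat_lit 5) (nat_lit 200) (.leaf ⟨(nat_lit 59), (nat_lit 941), (nat_lit 0), (nat_lit 0), (nat_lit 0), (nat_lit 7705), (nat_lit 6781), (nat_lit 0), (nat_lit 0), (nat_lit 0), (nat_lit 236000), [((nat_lit 340), [((nat_lit 37), (nat_lit 5), (nat_lit 59))])], ⟨(nat_lit 7), false, true, true, (nat_lit 336), (nat_lit 3872), (nat_lit 4473), [(nat_lit 1722167), (nat_lit 1716161), (nat_lit 1765265), (nat_lit 1759713), (nat_lit 1926124), (nat_lit 1909748), (nat_lit 1969223), (nat_lit 1953301)]⟩, ⟨(nat_lit 3), false, false, true, (nat_lit 165), (nat_lit 3872), (nat_lit 4473), [(nat_lit 1277776), (nat_lit 1283782), (nat_lit 1342475), (nat_lit 1349162), (nat_lit 1481711), (nat_lit 1477347), (nat_lit 1546410), (nat_lit 1542727)]⟩, (nat_lit 5158243), (nat_lit 34343017), (nat_lit 24809144), (nat_lit 7847839), (nat_lit 3),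 (nat_lit 0), [], [], [], [],
 ⟨⟨[(nat_lit 40), (nat_lit 80), (nat_lit 120)], [(nat_lit 0), (nat_lit 0), (nat_lit 2151)], [((nat_lit 0), (nat_lit 0), (nat_lit 0)), ((nat_lit 0), (nat_lit 0), (nat_lit 0)), ((nat_lit 1000), (nat_lit 815), (nat_lit 753))], ((nat_lit 80), (nat_lit 100), (nat_lit 63))⟩, (nat_lit 1729365), (nat_lit 300), (nat_lit 352), (nat_lit 51517346), (nat_lit 633592), [(nat_lit 2059314738), (nat_lit 4121387608), (nat_lit 6195751976)], [(nat_lit 0), (nat_lit 0), (nat_lit 0)], [(nat_lit 29170874148), (nat_lit 30033949607), (nat_lit 34634862960), (nat_lit 36150414258), (nat_lit 28855929197), (nat_lit 29550946792), (nat_lit 34263700780), (nat_lit 35496513695)], (nat_lit 1271251), (nat_lit 1271251), (nat_lit 1271251), (nat_lit 1271251), (nat_lit 780000), (nat_lit 1762501), [(nat_lit 490000), (nat_lit 1100000), (nat_lit 1785001)], [(nat_lit 4), (nat_lit 51), (nat_lit 272), (nat_lit 60), (nat_lit 8)]⟩,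
 ⟨⟨[(nat_lit 60), (nat_lit 100), (nat_lit 140)], [(nat_lit 0), (nat_lit 0), (nat_lit 2047)], [((nat_lit 0), (nat_lit 0), (nat_lit 0)), ((nat_lit 0), (nat_lit 0), (nat_lit 0)), ((nat_lit 1000), (nat_lit 993), (nat_lit 781))], ((nat_lit 95), (nat_lit 100), (nat_lit 65))⟩, (nat_lit 3745889), (nat_lit 510), (nat_lit 510), (nat_lit 0), (nat_lit 737222), [(nat_lit 3088362000), (nat_lit 5881250000), (nat_lit 9261322000)], [], [(nat_lit 32238644328), (nat_lit 33519604686), (nat_lit 36933716896), (nat_lit 38990168896), (nat_lit 28932948353), (nat_lit 29881388422), (nat_lit 32529058972), (nat_lit 33106879100)], (nat_lit 1271251), (nat_lit 1271251), (nat_lit 1271251), (nat_lit 1271251), (nat_lit 0), (nat_lit 1412501), [(nat_lit 780000), (nat_lit 1435001), (nat_lit 1271251)], [(nat_lit 11), (nat_lit 55), (nat_lit 260), (nat_lit 50), (nat_lit 7)]⟩,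
 Rw.none⟩) (.stt (nat_lit 1) (.stt (nat_lit 2) (.leaf ⟨(nat_lit 0), (nat_lit 1000), (nat_lit 0), (nat_lit 0), (nat_lit 7445), (nat_lit 5410), (nat_lit 6166), (nat_lit 0), (nat_lit 0), (nat_lit 0), (nat_lit 0), [], Pd.none, Pd.none, (nat_lit 0), (nat_lit 1), (nat_lit 0), (nat_lit 0), (nat_lit 5), (nat_lit 0), [], [], [⟨(nat_lit 1), (nat_lit 49), (nat_lit 92), (nat_lit 100), (nat_lit 422582302)⟩], [],
 ⟨⟨[(nat_lit 40), (nat_lit 80), (nat_lit 120)], [(nat_lit 0), (nat_lit 0), (nat_lit 2151)], [((nat_lit 0), (nat_lit 0), (nat_lit 0)), ((nat_lit 0), (nat_lit 0), (nat_lit 0)), ((nat_lit 1000), (nat_lit 815), (nat_lit 753))], ((nat_lit 80), (nat_lit 100), (nat_lit 63))⟩, (nat_lit 1845933), (nat_lit 127), (nat_lit 127), (nat_lit 0), (nat_lit 0), [(nat_lit 2586799141), (nat_lit 4688000042), (nat_lit 7968000000)], [], [(nat_lit 24891263297), (nat_lit 26210638782), (nat_lit 31583259517), (nat_lit 32528370522), (nat_lit 26376352417), (nat_lit 27461002712), (nat_lit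 31852806597), (nat_lit 32748655102)], (nat_lit 0), (nat_lit 0), (nat_lit 0), (nat_lit 0), (nat_lit 0), (nat_lit 0), [], [(nat_lit 4), (nat_lit 51), (nat_lit 272), (nat_lit 60), (nat_lit 8)]⟩,
 ⟨⟨[(nat_lit 60), (nat_lit 100), (nat_lit 140)], [(nat_lit 0), (nat_lit 0), (nat_lit 2047)], [((nat_lit 0), (nat_lit 0), (nat_lit 0)), ((nat_lit 0), (nat_lit 0), (nat_lit 0)), ((nat_lit 1000), (nat_lit 993), (nat_lit 781))], ((nat_lit 95), (nat_lit 100), (nat_lit 65))⟩, (nat_lit 0), (nat_lit 91), (nat_lit 91), (nat_lit 0), (nat_lit 0), [(nat_lit 3282000000), (nat_lit 6250000000), (nat_lit 9842000000)], [], [(nat_lit 24017002640), (nat_lit 26195927894), (nat_lit 31607623390), (nat_lit 33011811360), (nat_lit 32080860350), (nat_lit 33329600277), (nat_lit 36805982761), (nat_lit 37757253626)], (nat_lit 0), (nat_lit 0), (nat_lit 0), (nat_lit 0), (nat_lit 0), (nat_lit 0), [], [(nat_lit 11), (nat_lit 55), (nat_lit 317), (nat_lit 100), (nat_lit 8)]⟩,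
 Rw.none⟩) (.leaf ⟨(nat_lit 0), (nat_lit 883), (nat_lit 0), (nat_lit 117), (nat_lit 0), (nat_lit 5410), (nat_lit 6885), (nat_lit 1356), (nat_lit 0), (nat_lit 0), (nat_lit 0), [], Pd.none, Pd.none, (nat_lit 0), (nat_lit 1), (nat_lit 0), (nat_lit 0), (nat_lit 5), (nat_lit 0), [], [], [⟨(nat_lit 1), (nat_lit 72), (nat_lit 89), (nat_lit 100), (nat_lit 296234808)⟩], [],
 ⟨⟨[(nat_lit 40), (nat_lit 80), (nat_lit 120)], [(nat_lit 0), (nat_lit 0), (nat_lit 2151)], [((nat_lit 0), (nat_lit 0), (nat_lit 0)), ((nat_lit 0), (nat_lit 0), (nat_lit 0)), ((nat_lit 1000), (nat_lit 815), (nat_lit 753))], ((nat_lit 80), (nat_lit 100), (nat_lit 63))⟩, (nat_lit 3205965), (nat_lit 127), (nat_lit 127), (nat_lit 0), (nat_lit 0), [(nat_lit 2493751182), (nat_lit 4688000005), (nat_lit 7968000000)], [], [(nat_lit 23497610695), (nat_lit 25024656513), (nat_lit 31266671765), (nat_lit 32445041515), (nat_lit 25507068825), (nat_lit 26757380780), (nat_lit 31849228965), (nat_lit 32748655065)],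 (nat_lit 0), (nat_lit 0), (nat_lit 0), (nat_lit 0), (nat_lit 0), (nat_lit 0), [], [(nat_lit 4), (nat_lit 51), (nat_lit 272), (nat_lit 60), (nat_lit 8)]⟩,
 ⟨⟨[(nat_lit 60), (nat_lit 100), (nat_lit 140)], [(nat_lit 0), (nat_lit 0), (nat_lit 2047)], [((nat_lit 0), (nat_lit 0), (nat_lit 0)), ((nat_lit 0), (nat_lit 0), (nat_lit 0)), ((nat_lit 1000), (nat_lit 993), (nat_lit 781))], ((nat_lit 95), (nat_lit 100), (nat_lit 65))⟩, (nat_lit 2721372), (nat_lit 394), (nat_lit 394), (nat_lit 0), (nat_lit 737222), [(nat_lit 3282000000), (nat_lit 6250000000), (nat_lit 9842000000)], [], [(nat_lit 29125036243), (nat_lit 30462213810), (nat_lit 34006544180), (nat_lit 34855337310), (nat_lit 34069582299), (nat_lit 34804566080), (nat_lit 37791438080), (nat_lit 38744304735)], (nat_lit 1271251), (nat_lit 1271251), (nat_lit 1271251), (nat_lit 1271251), (nat_lit 1271251), (nat_lit 1271251), [(nat_lit 780000), (nat_lit 1435001), (nat_lit 1271251)], [(nat_lit 11), (nat_lit 55),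 (nat_lit 317), (nat_lit 100), (nat_lit 8)]⟩,
 ⟨⟨[(nat_lit 140), (nat_lit 180), (nat_lit 200)], [(nat_lit 0), (nat_lit 0), (nat_lit 2835)], [((nat_lit 0), (nat_lit 0), (nat_lit 0)), ((nat_lit 0), (nat_lit 0), (nat_lit 0)), ((nat_lit 363), (nat_lit 1000), (nat_lit 798))], ((nat_lit 0), (nat_lit 0), (nat_lit 0))⟩, (nat_lit 261404), (nat_lit 300), (nat_lit 2218), (nat_lit 9137700), (nat_lit 3888376), [(nat_lit 1151514000), (nat_lit 1644786000), (nat_lit 1918800000)], [], [(nat_lit 7478185968), (nat_lit 7171817300), (nat_lit 6895307220), (nat_lit 6589523160), (nat_lit 7060803192), (nat_lit 6744680736), (nat_lit 6462938838), (nat_lit 6156627998)], (nat_lit 780000), (nat_lit 1271251), (nat_lit 780000), (nat_lit 1762501), (nat_lit 1271251), (nat_lit 1271251), [(nat_lit 1977501), (nat_lit 1271251), (nat_lit 1271251)], [(nat_lit 32), (nat_lit 67), (nat_lit 655), (nat_lit 200), (nat_lit 13)]⟩⟩)) (.leaf ⟨(nat_lit 59), (nat_lit 829), (nat_lit 0), (nat_lit 112),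 (nat_lit 0), (nat_lit 7184), (nat_lit 6634), (nat_lit 1289), (nat_lit 0), (nat_lit 0), (nat_lit 236000), [((nat_lit 340), [((nat_lit 37), (nat_lit 5), (nat_lit 59))])], ⟨(nat_lit 7), false, true, true, (nat_lit 336), (nat_lit 3872), (nat_lit 4473), [(nat_lit 1722167), (nat_lit 1716161), (nat_lit 1765265), (nat_lit 1759713), (nat_lit 1926124), (nat_lit 1909748), (nat_lit 1969223), (nat_lit 1953301)]⟩, ⟨(nat_lit 3), false, false, true, (nat_lit 165), (nat_lit 3872), (nat_lit 4473), [(nat_lit 1277776), (nat_lit 1283782), (nat_lit 1342475), (nat_lit 1349162), (nat_lit 1481711), (nat_lit 1477347), (nat_lit 1546410), (nat_lit 1542727)]⟩, (nat_lit 5158243), (nat_lit 34343017), (nat_lit 24809144), (nat_lit 7847839), (nat_lit 5), (nat_lit 0), [], [], [⟨(nat_lit 1), (nat_lit 72), (nat_lit 89), (nat_lit 100), (nat_lit 326467010)⟩], [],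
 ⟨⟨[(nat_lit 40), (nat_lit 80), (nat_lit 120)], [(nat_lit 0), (nat_lit 0), (nat_lit 2151)], [((nat_lit 0), (nat_lit 0), (nat_lit 0)), ((nat_lit 0), (nat_lit 0), (nat_lit 0)), ((nat_lit 1000), (nat_lit 815), (nat_lit 753))], ((nat_lit 80), (nat_lit 100), (nat_lit 63))⟩, (nat_lit 531263), (nat_lit 300), (nat_lit 352), (nat_lit 51517346), (nat_lit 633592), [(nat_lit 2060041964), (nat_lit 4121387620), (nat_lit 6195751940)], [(nat_lit 0), (nat_lit 0), (nat_lit 0)], [(nat_lit 30608849256), (nat_lit 31445098973), (nat_lit 34704265648), (nat_lit 35309238136), (nat_lit 30461146452), (nat_lit 31138544348), (nat_lit 33718012903), (nat_lit 34872627136)], (nat_lit 1271251), (nat_lit 1271251), (nat_lit 1271251), (nat_lit 1271251), (nat_lit 780000), (nat_lit 1762501), [(nat_lit 490000), (nat_lit 1100000), (nat_lit 1785001)], [(nat_lit 4), (nat_lit 51), (nat_lit 272), (nat_lit 60), (nat_lit 8)]⟩,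
 ⟨⟨[(nat_lit 60), (nat_lit 100), (nat_lit 140)], [(nat_lit 0), (nat_lit 0), (nat_lit 2047)], [((nat_lit 0), (nat_lit 0), (nat_lit 0)), ((nat_lit 0), (nat_lit 0), (nat_lit 0)), ((nat_lit 1000), (nat_lit 993), (nat_lit 781))], ((nat_lit 95), (nat_lit 100), (nat_lit 65))⟩, (nat_lit 3105344), (nat_lit 218), (nat_lit 218), (nat_lit 0), (nat_lit 321904), [(nat_lit 3088362000), (nat_lit 5881250000), (nat_lit 9261322000)], [], [(nat_lit 24343770536), (nat_lit 26019111967), (nat_lit 30331025012), (nat_lit 31393616174), (nat_lit 30520391642), (nat_lit 31450224934), (nat_lit 35774621848), (nat_lit 36671471615)], (nat_lit 1271251), (nat_lit 1271251), (nat_lit 1271251), (nat_lit 1271251), (nat_lit 1271251), (nat_lit 1271251), [(nat_lit 780000), (nat_lit 1435001), (nat_lit 1271251)], [(nat_lit 11), (nat_lit 55), (nat_lit 317), (nat_lit 100), (nat_lit 8)]⟩,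
 ⟨⟨[(nat_lit 140), (nat_lit 180), (nat_lit 200)], [(nat_lit 0), (nat_lit 0), (nat_lit 2835)], [((nat_lit 0), (nat_lit 0), (nat_lit 0)), ((nat_lit 0), (nat_lit 0), (nat_lit 0)), ((nat_lit 363), (nat_lit 1000), (nat_lit 798))], ((nat_lit 0), (nat_lit 0), (nat_lit 0))⟩, (nat_lit 193804), (nat_lit 300), (nat_lit 2127), (nat_lit 8747200), (nat_lit 3718580), [(nat_lit 1102304000), (nat_lit 1574496000), (nat_lit 1836800000)], [], [(nat_lit 7207412373), (nat_lit 6916709110), (nat_lit 6654400822), (nat_lit 6364235611), (nat_lit 6796583393), (nat_lit 6496638698), (nat_lit 6228992788), (nat_lit 5929797570)], (nat_lit 780000), (nat_lit 1271251), (nat_lit 780000), (nat_lit 1762501), (nat_lit 1271251), (nat_lit 1271251), [(nat_lit 1977501), (nat_lit 1271251), (nat_lit 1271251)], [(nat_lit 32), (nat_lit 67), (nat_lit 632), (nat_lit 200), (nat_lit 13)]⟩⟩)))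
noncomputable def c11_86 : Tr Lf :=
 (.trZ (nat_lit 3) (nat_lit 4) (nat_lit 5) (nat_lit 100) (nat_lit 94) (nat_lit 59) (nat_lit 30) (.spl (nat_lit 1) (nat_lit 300) (.stt (nat_lit 2) (.stt (nat_lit 1) (.leaf ⟨(nat_lit 0), (nat_lit 1000), (nat_lit 0), (nat_lit 0), (nat_lit 8945), (nat_lit 5410), (nat_lit 6347), (nat_lit 0), (nat_lit 0), (nat_lit 0), (nat_lit 0), [], Pd.none, Pd.none, (nat_lit 0), (nat_lit 1), (nat_lit 0), (nat_lit 0), (nat_lit 6), (nat_lit 0), [], [⟨(nat_lit 1), (nat_lit 68), (nat_lit 80), (nat_lit 100), (nat_lit 472694638)⟩], [⟨(nat_lit 1), (nat_lit 49), (nat_lit 92), (nat_lit 100), (nat_lit 220306793)⟩], [],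
 ⟨⟨[(nat_lit 40), (nat_lit 80), (nat_lit 120)], [(nat_lit 0), (nat_lit 0), (nat_lit 2151)], [((nat_lit 0), (nat_lit 0), (nat_lit 0)), ((nat_lit 0), (nat_lit 0), (nat_lit 0)), ((nat_lit 1000), (nat_lit 815), (nat_lit 753))], ((nat_lit 80), (nat_lit 100), (nat_lit 63))⟩, (nat_lit 0), (nat_lit 79), (nat_lit 79), (nat_lit 0), (nat_lit 0), [(nat_lit 2394694377), (nat_lit 4688000015), (nat_lit 7968000000)], [], [(nat_lit 25507068835), (nat_lit 26757380790), (nat_lit 31849228975), (nat_lit 32748655075), (nat_lit 30315068435), (nat_lit 31274449000), (nat_lit 35431072115), (nat_lit 36220501255)], (nat_lit 0), (nat_lit 0), (nat_lit 0), (nat_lit 0), (nat_lit 0), (nat_lit 0), [], [(nat_lit 4), (nat_lit 51), (nat_lit 203), (nat_lit 0), (nat_lit 5)]⟩,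
 ⟨⟨[(nat_lit 60), (nat_lit 100), (nat_lit 140)], [(nat_lit 0), (nat_lit 0), (nat_lit 2047)], [((nat_lit 0), (nat_lit 0), (nat_lit 0)), ((nat_lit 0), (nat_lit 0), (nat_lit 0)), ((nat_lit 1000), (nat_lit 993), (nat_lit 781))], ((nat_lit 95), (nat_lit 100), (nat_lit 65))⟩, (nat_lit 2433834), (nat_lit 196), (nat_lit 196), (nat_lit 0), (nat_lit 0), [(nat_lit 3282000000), (nat_lit 6250000000), (nat_lit 9842000000)], [], [(nat_lit 27563572883), (nat_lit 28697976198), (nat_lit 35566546963), (nat_lit 36278705760), (nat_lit 32029922821), (nat_lit 32633621985), (nat_lit 37053566776), (nat_lit 37529649597)], (nat_lit 0), (nat_lit 0), (nat_lit 0), (nat_lit 0), (nat_lit 0), (nat_lit 0), [], [(nat_lit 11), (nat_lit 55), (nat_lit 317), (nat_lit 100), (nat_lit 8)]⟩,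
 Rw.none⟩) (.leaf ⟨(nat_lit 0), (nat_lit 884), (nat_lit 0), (nat_lit 116), (nat_lit 0), (nat_lit 6113), (nat_lit 6105), (nat_lit 1284), (nat_lit 0), (nat_lit 0), (nat_lit 0), [], Pd.none, Pd.none, (nat_lit 0), (nat_lit 1), (nat_lit 0), (nat_lit 0), (nat_lit 6), (nat_lit 0), [], [⟨(nat_lit 1), (nat_lit 85), (nat_lit 78), (nat_lit 100), (nat_lit 260176177)⟩], [⟨(nat_lit 1), (nat_lit 68), (nat_lit 92), (nat_lit 100), (nat_lit 119380752)⟩], [],
 ⟨⟨[(nat_lit 40), (nat_lit 80), (nat_lit 120)], [(nat_lit 0), (nat_lit 0), (nat_lit 2151)], [((nat_lit 0), (nat_lit 0), (nat_lit 0)), ((nat_lit 0), (nat_lit 0), (nat_lit 0)), ((nat_lit 1000), (nat_lit 815), (nat_lit 753))], ((nat_lit 80), (nat_lit 100), (nat_lit 63))⟩, (nat_lit 1741365), (nat_lit 270), (nat_lit 270), (nat_lit 0), (nat_lit 526136), [(nat_lit 2262610346), (nat_lit 4688000020), (nat_lit 7968000000)], [], [(nat_lit 28103302285), (nat_lit 28930364153), (nat_lit 32494804108), (nat_lit 33590127127),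 (nat_lit 31145463752), (nat_lit 31881254411), (nat_lit 36331862220), (nat_lit 37157041722)], (nat_lit 1271251), (nat_lit 1271251), (nat_lit 1271251), (nat_lit 1271251), (nat_lit 1271251), (nat_lit 1271251), [(nat_lit 490000), (nat_lit 1100000), (nat_lit 1785001)], [(nat_lit 4), (nat_lit 51), (nat_lit 204), (nat_lit 0), (nat_lit 5)]⟩,
 ⟨⟨[(nat_lit 60), (nat_lit 100), (nat_lit 140)], [(nat_lit 0), (nat_lit 0), (nat_lit 2047)], [((nat_lit 0), (nat_lit 0), (nat_lit 0)), ((nat_lit 0), (nat_lit 0), (nat_lit 0)), ((nat_lit 1000), (nat_lit 993), (nat_lit 781))], ((nat_lit 95), (nat_lit 100), (nat_lit 65))⟩, (nat_lit 2452359), (nat_lit 196), (nat_lit 196), (nat_lit 0), (nat_lit 0), [(nat_lit 3282000000), (nat_lit 6250000000), (nat_lit 9842000000)], [], [(nat_lit 27513658506), (nat_lit 28627295892), (nat_lit 35350746064), (nat_lit 36055349651), (nat_lit 32106416176), (nat_lit 32729363507), (nat_lit 36814340768), (nat_lit 37197975527)], (nat_lit 0), (nat_lit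 0), (nat_lit 0), (nat_lit 0), (nat_lit 0), (nat_lit 0), [], [(nat_lit 11), (nat_lit 55), (nat_lit 317), (nat_lit 100), (nat_lit 8)]⟩,
 ⟨⟨[(nat_lit 140), (nat_lit 180), (nat_lit 200)], [(nat_lit 0), (nat_lit 0), (nat_lit 2835)], [((nat_lit 0), (nat_lit 0), (nat_lit 0)), ((nat_lit 0), (nat_lit 0), (nat_lit 0)), ((nat_lit 363), (nat_lit 1000), (nat_lit 798))], ((nat_lit 0), (nat_lit 0), (nat_lit 0))⟩, (nat_lit 31915), (nat_lit 300), (nat_lit 1829), (nat_lit 9059605), (nat_lit 3047985), [(nat_lit 1141672000), (nat_lit 1630728000), (nat_lit 1902400000)], [], [(nat_lit 8292886080), (nat_lit 8019166384), (nat_lit 7974364651), (nat_lit 7672605605), (nat_lit 6946255976), (nat_lit 8038717492), (nat_lit 6441901208), (nat_lit 6163099280)], (nat_lit 780000), (nat_lit 1271251), (nat_lit 1271251), (nat_lit 1271251), (nat_lit 169688), (nat_lit 2740000), [(nat_lit 1977501), (nat_lit 1271251), (nat_lit 1271251)], [(nat_lit 32), (nat_lit 67), (nat_lit 571), (nat_lit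 250), (nat_lit 12)]⟩⟩)) (.spl (nat_lit 0) (nat_lit 330) (.leaf ⟨(nat_lit 124), (nat_lit 753), (nat_lit 0), (nat_lit 123), (nat_lit 0), (nat_lit 4984), (nat_lit 6028), (nat_lit 1357), (nat_lit 0), (nat_lit 0), (nat_lit 496000), [((nat_lit 330), [((nat_lit 37), (nat_lit 5), (nat_lit 124))])], ⟨(nat_lit 7), false, true, true, (nat_lit 333), (nat_lit 4183), (nat_lit 4473), [(nat_lit 1722208), (nat_lit 1719164), (nat_lit 1743770), (nat_lit 1740826), (nat_lit 1926145), (nat_lit 1917933), (nat_lit 1947707), (nat_lit 1939596)]⟩, ⟨(nat_lit 6), false, false, true, (nat_lit 242), (nat_lit 4183), (nat_lit 4473), [(nat_lit 1481711), (nat_lit 1479587), (nat_lit 1546410), (nat_lit 1544587), (nat_lit 1668651), (nat_lit 1661790), (nat_lit 1733350), (nat_lit 1726790)]⟩, (nat_lit 5647097), (nat_lit 31250841), (nat_lit 22453957), (nat_lit 13295202), (nat_lit 6), (nat_lit 0), [], [⟨(nat_lit 1), (nat_lit 83), (nat_lit 81), (nat_lit 100), (nat_lit 239097034)⟩], [⟨(nat_lit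 1), (nat_lit 68), (nat_lit 92), (nat_lit 100), (nat_lit 77474725)⟩], [],
 ⟨⟨[(nat_lit 40), (nat_lit 80), (nat_lit 120)], [(nat_lit 0), (nat_lit 0), (nat_lit 2151)], [((nat_lit 0), (nat_lit 0), (nat_lit 0)), ((nat_lit 0), (nat_lit 0), (nat_lit 0)), ((nat_lit 1000), (nat_lit 815), (nat_lit 753))], ((nat_lit 80), (nat_lit 100), (nat_lit 63))⟩, (nat_lit 1131399), (nat_lit 162), (nat_lit 162), (nat_lit 0), (nat_lit 232584), [(nat_lit 2341472597), (nat_lit 3498391804), (nat_lit 4497357388)], [(nat_lit 0), (nat_lit 0), (nat_lit 0)], [(nat_lit 25927718429), (nat_lit 26408604589), (nat_lit 31240354144), (nat_lit 31739263740), (nat_lit 29694694209), (nat_lit 30072192682), (nat_lit 34885216376), (nat_lit 35269099044)], (nat_lit 1271251), (nat_lit 1271251), (nat_lit 1271251), (nat_lit 1271251), (nat_lit 1271251), (nat_lit 1271251), [(nat_lit 490000), (nat_lit 1100000), (nat_lit 1785001)], [(nat_lit 4), (nat_lit 51), (nat_lit 203), (nat_lit 0), (nat_lit 5)]⟩,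
 ⟨⟨[(nat_lit 60), (nat_lit 100), (nat_lit 140)], [(nat_lit 0), (nat_lit 0), (nat_lit 2047)], [((nat_lit 0), (nat_lit 0), (nat_lit 0)), ((nat_lit 0), (nat_lit 0), (nat_lit 0)), ((nat_lit 1000), (nat_lit 993), (nat_lit 781))], ((nat_lit 95), (nat_lit 100), (nat_lit 65))⟩, (nat_lit 2139208), (nat_lit 448), (nat_lit 448), (nat_lit 0), (nat_lit 608060), [(nat_lit 2875032000), (nat_lit 5475000000), (nat_lit 8621592000)], [], [(nat_lit 27911748885), (nat_lit 28525732752), (nat_lit 32597788010), (nat_lit 33082130137), (nat_lit 29854106212), (nat_lit 30176044909), (nat_lit 33100828642), (nat_lit 33518182113)], (nat_lit 1271251), (nat_lit 1271251), (nat_lit 1271251), (nat_lit 1271251), (nat_lit 169688), (nat_lit 2740000), [(nat_lit 780000), (nat_lit 1435001), (nat_lit 1271251)], [(nat_lit 11), (nat_lit 55), (nat_lit 317), (nat_lit 100), (nat_lit 8)]⟩,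
 ⟨⟨[(nat_lit 140), (nat_lit 180), (nat_lit 200)], [(nat_lit 0), (nat_lit 0), (nat_lit 2835)], [((nat_lit 0), (nat_lit 0), (nat_lit 0)), ((nat_lit 0), (nat_lit 0), (nat_lit 0)), ((nat_lit 363), (nat_lit 1000), (nat_lit 798))], ((nat_lit 0), (nat_lit 0), (nat_lit 0))⟩, (nat_lit 65223), (nat_lit 300), (nat_lit 1757), (nat_lit 9606300), (nat_lit 2909981), [(nat_lit 1210566000), (nat_lit 1729134000), (nat_lit 2017200000)], [], [(nat_lit 8799427459), (nat_lit 8500685386), (nat_lit 8479350398), (nat_lit 8160699837), (nat_lit 7362538058), (nat_lit 8517905721), (nat_lit 6853219706), (nat_lit 6533290607)], (nat_lit 780000), (nat_lit 1271251), (nat_lit 1271251), (nat_lit 1271251), (nat_lit 169688), (nat_lit 2740000), [(nat_lit 1977501), (nat_lit 1271251), (nat_lit 1271251)], [(nat_lit 32), (nat_lit 67), (nat_lit 553), (nat_lit 250), (nat_lit 12)]⟩⟩) (.trX (nat_lit 4) (nat_lit 0) (nat_lit 2) (nat_lit 76) (nat_lit 73) (nat_lit 100) (nat_lit 340) (.leaf ⟨(nat_lit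 0), (nat_lit 863), (nat_lit 0), (nat_lit 137), (nat_lit 0), (nat_lit 4134), (nat_lit 7319), (nat_lit 1524), (nat_lit 0), (nat_lit 0), (nat_lit 0), [], Pd.none, Pd.none, (nat_lit 0), (nat_lit 1), (nat_lit 0), (nat_lit 0), (nat_lit 6), (nat_lit 0), [], [⟨(nat_lit 1), (nat_lit 87), (nat_lit 76), (nat_lit 100), (nat_lit 231221628)⟩], [⟨(nat_lit 1), (nat_lit 68), (nat_lit 92), (nat_lit 100), (nat_lit 72906278)⟩], [],
 ⟨⟨[(nat_lit 40), (nat_lit 80), (nat_lit 100)], [(nat_lit 0), (nat_lit 395), (nat_lit 1536)], [((nat_lit 0), (nat_lit 0), (nat_lit 0)), ((nat_lit 1000), (nat_lit 908), (nat_lit 154)), ((nat_lit 1000), (nat_lit 760), (nat_lit 642))], ((nat_lit 76), (nat_lit 100), (nat_lit 63))⟩, (nat_lit 5948935), (nat_lit 154), (nat_lit 154), (nat_lit 0), (nat_lit 250726), [(nat_lit 2032000039), (nat_lit 4688000016), (nat_lit 6250000000)], [], [(nat_lit 25802586768), (nat_lit 26246320490), (nat_lit 30758110865), (nat_lit 31220316186), (nat_lit 28914568440),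 (nat_lit 29277011387), (nat_lit 33777217619), (nat_lit 34148912328)], (nat_lit 1271251), (nat_lit 1271251), (nat_lit 1271251), (nat_lit 1271251), (nat_lit 1271251), (nat_lit 1271251), [(nat_lit 490000), (nat_lit 1100000), (nat_lit 1442501)], [(nat_lit 3), (nat_lit 50), (nat_lit 203), (nat_lit 0), (nat_lit 5)]⟩,
 ⟨⟨[(nat_lit 60), (nat_lit 100), (nat_lit 140)], [(nat_lit 0), (nat_lit 0), (nat_lit 2047)], [((nat_lit 0), (nat_lit 0), (nat_lit 0)), ((nat_lit 0), (nat_lit 0), (nat_lit 0)), ((nat_lit 1000), (nat_lit 993), (nat_lit 781))], ((nat_lit 95), (nat_lit 100), (nat_lit 65))⟩, (nat_lit 1906763), (nat_lit 476), (nat_lit 476), (nat_lit 0), (nat_lit 693697), [(nat_lit 3282000000), (nat_lit 6250000000), (nat_lit 9842000000)], [], [(nat_lit 34025745592), (nat_lit 34560500809), (nat_lit 38100030112), (nat_lit 38421139744), (nat_lit 33993356367), (nat_lit 34250509011), (nat_lit 38386672552), (nat_lit 38863388631)], (nat_lit 1271251), (nat_lit 1271251),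 (nat_lit 1271251), (nat_lit 1271251), (nat_lit 169688), (nat_lit 2740000), [(nat_lit 780000), (nat_lit 1435001), (nat_lit 1271251)], [(nat_lit 11), (nat_lit 55), (nat_lit 317), (nat_lit 100), (nat_lit 8)]⟩,
 ⟨⟨[(nat_lit 140), (nat_lit 180), (nat_lit 200)], [(nat_lit 0), (nat_lit 0), (nat_lit 2835)], [((nat_lit 0), (nat_lit 0), (nat_lit 0)), ((nat_lit 0), (nat_lit 0), (nat_lit 0)), ((nat_lit 363), (nat_lit 1000), (nat_lit 798))], ((nat_lit 0), (nat_lit 0), (nat_lit 0))⟩, (nat_lit 37693), (nat_lit 300), (nat_lit 1967), (nat_lit 10699702), (nat_lit 3338861), [(nat_lit 1348354000), (nat_lit 1925946000), (nat_lit 2246800000)], [], [(nat_lit 9702753701), (nat_lit 9381384062), (nat_lit 9395783141), (nat_lit 9038286664), (nat_lit 8208633908), (nat_lit 9503953228), (nat_lit 7586906167), (nat_lit 7249328847)], (nat_lit 780000), (nat_lit 1271251), (nat_lit 1271251), (nat_lit 1271251), (nat_lit 169688), (nat_lit 2740000), [(nat_lit 1977501), (nat_lit 1271251),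 (nat_lit 1271251)], [(nat_lit 32), (nat_lit 67), (nat_lit 605), (nat_lit 225), (nat_lit 13)]⟩⟩)))) (.trX (nat_lit 5) (nat_lit 1) (nat_lit 2) (nat_lit 87) (nat_lit 59) (nat_lit 100) (nat_lit 370) (.spl (nat_lit 2) (nat_lit 160) (.trX (nat_lit 4) (nat_lit 0) (nat_lit 2) (nat_lit 82) (nat_lit 76) (nat_lit 100) (nat_lit 340) (.trX (nat_lit 5) (nat_lit 1) (nat_lit 2) (nat_lit 88) (nat_lit 68) (nat_lit 100) (nat_lit 350) (.stt (nat_lit 1) (.leaf ⟨(nat_lit 50), (nat_lit 950), (nat_lit 0), (nat_lit 0), (nat_lit 0), (nat_lit 5046), (nat_lit 5248), (nat_lit 0), (nat_lit 0), (nat_lit 0), (nat_lit 200000), [((nat_lit 340), [((nat_lit 37), (nat_lit 5), (nat_lit 50))])], ⟨(nat_lit 7), false, true, true, (nat_lit 340), (nat_lit 3872), (nat_lit 4473), [(nat_lit 1743716), (nat_lit 1737937), (nat_lit 1765265), (nat_lit 1759713), (nat_lit 1947674), (nat_lit 1931525), (nat_lit 1969223), (nat_lit 1953301)]⟩, ⟨(nat_lit 6), false, false, true, (nat_lit 234), (nat_lit 3872),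 (nat_lit 4473), [(nat_lit 1481711), (nat_lit 1477347), (nat_lit 1524844), (nat_lit 1520934), (nat_lit 1651656), (nat_lit 1638651), (nat_lit 1694789), (nat_lit 1682237)]⟩, (nat_lit 5609369), (nat_lit 31178438), (nat_lit 23290248), (nat_lit 12531314), (nat_lit 6), (nat_lit 0), [], [⟨(nat_lit 1), (nat_lit 89), (nat_lit 80), (nat_lit 100), (nat_lit 446728459)⟩], [⟨(nat_lit 1), (nat_lit 68), (nat_lit 88), (nat_lit 100), (nat_lit 201676052)⟩], [],
 ⟨⟨[(nat_lit 40), (nat_lit 80), (nat_lit 120)], [(nat_lit 0), (nat_lit 0), (nat_lit 2151)], [((nat_lit 0), (nat_lit 0), (nat_lit 0)), ((nat_lit 0), (nat_lit 0), (nat_lit 0)), ((nat_lit 1000), (nat_lit 815), (nat_lit 753))], ((nat_lit 80), (nat_lit 100), (nat_lit 63))⟩, (nat_lit 0), (nat_lit 77), (nat_lit 77), (nat_lit 0), (nat_lit 0), [(nat_lit 2322527667), (nat_lit 4207820010), (nat_lit 6462880000)], [(nat_lit 0), (nat_lit 0), (nat_lit 0)], [(nat_lit 25295738502), (nat_lit 26501997175), (nat_lit 31438698186),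 (nat_lit 32312931846), (nat_lit 29474318290), (nat_lit 30430587789), (nat_lit 34546311790), (nat_lit 35339156232)], (nat_lit 0), (nat_lit 0), (nat_lit 0), (nat_lit 0), (nat_lit 0), (nat_lit 0), [], [(nat_lit 4), (nat_lit 51), (nat_lit 203), (nat_lit 0), (nat_lit 5)]⟩,
 ⟨⟨[(nat_lit 60), (nat_lit 100), (nat_lit 120)], [(nat_lit 0), (nat_lit 609), (nat_lit 1609)], [((nat_lit 0), (nat_lit 0), (nat_lit 0)), ((nat_lit 1000), (nat_lit 905), (nat_lit 238)), ((nat_lit 1000), (nat_lit 882), (nat_lit 668))], ((nat_lit 88), (nat_lit 100), (nat_lit 63))⟩, (nat_lit 4763001), (nat_lit 439), (nat_lit 439), (nat_lit 0), (nat_lit 724583), [(nat_lit 3117900000), (nat_lit 5937500000), (nat_lit 7569600000)], [], [(nat_lit 26174970523), (nat_lit 26866023524), (nat_lit 32208534902), (nat_lit 33171582655), (nat_lit 28798762953), (nat_lit 29227097937), (nat_lit 33283142799), (nat_lit 33798545147)], (nat_lit 1271251), (nat_lit 1271251), (nat_lit 1271251), (nat_lit 1271251),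 (nat_lit 169688), (nat_lit 2519688), [(nat_lit 780000), (nat_lit 1435001), (nat_lit 1271251)], [(nat_lit 10), (nat_lit 54), (nat_lit 317), (nat_lit 100), (nat_lit 10)]⟩,
 Rw.none⟩) (.leaf ⟨(nat_lit 60), (nat_lit 837), (nat_lit 0), (nat_lit 103), (nat_lit 0), (nat_lit 6512), (nat_lit 4986), (nat_lit 1166), (nat_lit 0), (nat_lit 0), (nat_lit 240000), [((nat_lit 340), [((nat_lit 37), (nat_lit 5), (nat_lit 60))])], ⟨(nat_lit 7), false, true, true, (nat_lit 340), (nat_lit 3872), (nat_lit 4473), [(nat_lit 1743716), (nat_lit 1737937), (nat_lit 1765265), (nat_lit 1759713), (nat_lit 1947674), (nat_lit 1931525), (nat_lit 1969223), (nat_lit 1953301)]⟩, ⟨(nat_lit 6), false, false, true, (nat_lit 234), (nat_lit 3872), (nat_lit 4473), [(nat_lit 1481711), (nat_lit 1477347), (nat_lit 1524844), (nat_lit 1520934), (nat_lit 1651656), (nat_lit 1638651), (nat_lit 1694789), (nat_lit 1682237)]⟩, (nat_lit 5609369), (nat_lit 31178438), (nat_lit 23290248), (nat_lit 12531314),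 (nat_lit 6), (nat_lit 0), [], [⟨(nat_lit 1), (nat_lit 89), (nat_lit 80), (nat_lit 100), (nat_lit 254954417)⟩], [⟨(nat_lit 1), (nat_lit 81), (nat_lit 88), (nat_lit 100), (nat_lit 110483469)⟩], [],
 ⟨⟨[(nat_lit 40), (nat_lit 80), (nat_lit 120)], [(nat_lit 0), (nat_lit 0), (nat_lit 2151)], [((nat_lit 0), (nat_lit 0), (nat_lit 0)), ((nat_lit 0), (nat_lit 0), (nat_lit 0)), ((nat_lit 1000), (nat_lit 815), (nat_lit 753))], ((nat_lit 80), (nat_lit 100), (nat_lit 63))⟩, (nat_lit 103391), (nat_lit 300), (nat_lit 302), (nat_lit 51421858), (nat_lit 633313), [(nat_lit 2056874283), (nat_lit 4113748588), (nat_lit 6163786236)], [(nat_lit 0), (nat_lit 0), (nat_lit 0)], [(nat_lit 30498257536), (nat_lit 31265839700), (nat_lit 34283290104), (nat_lit 34833617024), (nat_lit 32897349763), (nat_lit 33500686629), (nat_lit 36380079880), (nat_lit 37252421104)], (nat_lit 1271251), (nat_lit 1271251), (nat_lit 1271251), (nat_lit 1271251), (nat_lit 1271251), (nat_lit 1271251),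 [(nat_lit 490000), (nat_lit 1100000), (nat_lit 1785001)], [(nat_lit 4), (nat_lit 51), (nat_lit 211), (nat_lit 0), (nat_lit 5)]⟩,
 ⟨⟨[(nat_lit 60), (nat_lit 100), (nat_lit 120)], [(nat_lit 0), (nat_lit 609), (nat_lit 1609)], [((nat_lit 0), (nat_lit 0), (nat_lit 0)), ((nat_lit 1000), (nat_lit 905), (nat_lit 238)), ((nat_lit 1000), (nat_lit 882), (nat_lit 668))], ((nat_lit 88), (nat_lit 100), (nat_lit 63))⟩, (nat_lit 4926064), (nat_lit 289), (nat_lit 289), (nat_lit 0), (nat_lit 316448), [(nat_lit 3085080000), (nat_lit 5875000000), (nat_lit 7489920000)], [], [(nat_lit 24610186040), (nat_lit 25359720735), (nat_lit 31388574435), (nat_lit 32326313725), (nat_lit 27514179670), (nat_lit 28027965451), (nat_lit 32669967685), (nat_lit 33177841449)], (nat_lit 1271251), (nat_lit 1271251), (nat_lit 1271251), (nat_lit 1271251), (nat_lit 169688), (nat_lit 2519688), [(nat_lit 780000), (nat_lit 1435001), (nat_lit 1271251)], [(nat_lit 10), (nat_lit 54), (nat_lit 317),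 (nat_lit 100), (nat_lit 10)]⟩,
 ⟨⟨[(nat_lit 140), (nat_lit 180), (nat_lit 200)], [(nat_lit 0), (nat_lit 0), (nat_lit 2835)], [((nat_lit 0), (nat_lit 0), (nat_lit 0)), ((nat_lit 0), (nat_lit 0), (nat_lit 0)), ((nat_lit 363), (nat_lit 1000), (nat_lit 798))], ((nat_lit 0), (nat_lit 0), (nat_lit 0))⟩, (nat_lit 45993), (nat_lit 300), (nat_lit 2161), (nat_lit 8044300), (nat_lit 3718580), [(nat_lit 1013726000), (nat_lit 1447974000), (nat_lit 1689200000)], [], [(nat_lit 7180029342), (nat_lit 6986307451), (nat_lit 6986889763), (nat_lit 6787912695), (nat_lit 5868541393), (nat_lit 6437887249), (nat_lit 5637506505), (nat_lit 5441183491)], (nat_lit 780000), (nat_lit 1100000), (nat_lit 1271251), (nat_lit 1271251), (nat_lit 169688), (nat_lit 2519688), [(nat_lit 1977501), (nat_lit 1271251), (nat_lit 1271251)], [(nat_lit 32), (nat_lit 67), (nat_lit 647), (nat_lit 225), (nat_lit 13)]⟩⟩)))) (.leaf ⟨(nat_lit 0), (nat_lit 891), (nat_lit 0), (nat_lit 109), (nat_lit 0),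 (nat_lit 5819), (nat_lit 5620), (nat_lit 1166), (nat_lit 0), (nat_lit 0), (nat_lit 0), [], Pd.none, Pd.none, (nat_lit 0), (nat_lit 1), (nat_lit 0), (nat_lit 0), (nat_lit 6), (nat_lit 0), [], [⟨(nat_lit 1), (nat_lit 77), (nat_lit 77), (nat_lit 100), (nat_lit 320085996)⟩], [⟨(nat_lit 1), (nat_lit 68), (nat_lit 84), (nat_lit 100), (nat_lit 145265644)⟩], [],
 ⟨⟨[(nat_lit 40), (nat_lit 80), (nat_lit 120)], [(nat_lit 0), (nat_lit 0), (nat_lit 2151)], [((nat_lit 0), (nat_lit 0), (nat_lit 0)), ((nat_lit 0), (nat_lit 0), (nat_lit 0)), ((nat_lit 1000), (nat_lit 815), (nat_lit 753))], ((nat_lit 80), (nat_lit 100), (nat_lit 63))⟩, (nat_lit 1780982), (nat_lit 272), (nat_lit 272), (nat_lit 0), (nat_lit 531926), [(nat_lit 2172199272), (nat_lit 4688000007), (nat_lit 7968000000)], [], [(nat_lit 28847248412), (nat_lit 29657391315), (nat_lit 33069605061), (nat_lit 33751204955), (nat_lit 31894031445), (nat_lit 32616525183), (nat_lit 35955144879), (nat_lit 36765373305)],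 (nat_lit 1271251), (nat_lit 1271251), (nat_lit 1271251), (nat_lit 1271251), (nat_lit 1271251), (nat_lit 1271251), [(nat_lit 490000), (nat_lit 1100000), (nat_lit 1785001)], [(nat_lit 4), (nat_lit 51), (nat_lit 205), (nat_lit 0), (nat_lit 5)]⟩,
 ⟨⟨[(nat_lit 60), (nat_lit 100), (nat_lit 120)], [(nat_lit 0), (nat_lit 609), (nat_lit 1609)], [((nat_lit 0), (nat_lit 0), (nat_lit 0)), ((nat_lit 1000), (nat_lit 905), (nat_lit 238)), ((nat_lit 1000), (nat_lit 882), (nat_lit 668))], ((nat_lit 88), (nat_lit 100), (nat_lit 63))⟩, (nat_lit 4184703), (nat_lit 399), (nat_lit 399), (nat_lit 0), (nat_lit 608535), [(nat_lit 3282000000), (nat_lit 6250000000), (nat_lit 7968000000)], [], [(nat_lit 28583187033), (nat_lit 29211799794), (nat_lit 34126529300), (nat_lit 35147292450), (nat_lit 30785188401), (nat_lit 31321674990), (nat_lit 36073610660), (nat_lit 36571851190)], (nat_lit 1271251), (nat_lit 1271251), (nat_lit 1271251), (nat_lit 1271251), (nat_lit 169688), (nat_lit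 2666563), [(nat_lit 780000), (nat_lit 1435001), (nat_lit 1271251)], [(nat_lit 10), (nat_lit 54), (nat_lit 317), (nat_lit 100), (nat_lit 10)]⟩,
 ⟨⟨[(nat_lit 120), (nat_lit 160), (nat_lit 180)], [(nat_lit 0), (nat_lit 0), (nat_lit 1613)], [((nat_lit 0), (nat_lit 0), (nat_lit 0)), ((nat_lit 0), (nat_lit 0), (nat_lit 0)), ((nat_lit 620), (nat_lit 1000), (nat_lit 670))], ((nat_lit 100), (nat_lit 65), (nat_lit 64))⟩, (nat_lit 47438), (nat_lit 300), (nat_lit 1846), (nat_lit 8087803), (nat_lit 3248697), [(nat_lit 868512000), (nat_lit 1294048000), (nat_lit 1532322000)], [], [(nat_lit 6723268684), (nat_lit 6652608509), (nat_lit 6415902002), (nat_lit 6344721621), (nat_lit 5750258241), (nat_lit 6113759076), (nat_lit 5170733455), (nat_lit 5102460067)], (nat_lit 1100000), (nat_lit 1271251), (nat_lit 1271251), (nat_lit 1271251), (nat_lit 169688), (nat_lit 2666563), [(nat_lit 1695001), (nat_lit 1271251), (nat_lit 1271251)], [(nat_lit 28), (nat_lit 65), (nat_lit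 574), (nat_lit 225), (nat_lit 13)]⟩⟩)))))
noncomputable def c11_87 : Tr Lf :=
 (.spl (nat_lit 4) (nat_lit 240) (.spl (nat_lit 1) (nat_lit 280) (.leaf ⟨(nat_lit 90), (nat_lit 657), (nat_lit 0), (nat_lit 253), (nat_lit 0), (nat_lit 5050), (nat_lit 7366), (nat_lit 2247), (nat_lit 0), (nat_lit 0), (nat_lit 360000), [((nat_lit 340), [((nat_lit 37), (nat_lit 5), (nat_lit 90))])], ⟨(nat_lit 7), false, true, true, (nat_lit 319), (nat_lit 3872), (nat_lit 4473), [(nat_lit 1679069), (nat_lit 1672609), (nat_lit 1722167), (nat_lit 1716161), (nat_lit 1883018), (nat_lit 1866188), (nat_lit 1926124), (nat_lit 1909748)]⟩, ⟨(nat_lit 4), false, false, false, (nat_lit 187), (nat_lit 3872), (nat_lit 4473), [(nat_lit 1342475), (nat_lit 1349162), (nat_lit 1385576), (nat_lit 1392716), (nat_lit 1546410), (nat_lit 1542727), (nat_lit 1589534), (nat_lit 1586304)]⟩, (nat_lit 5309406), (nat_lit 34636127), (nat_lit 22790837), (nat_lit 9573036), (nat_lit 4), (nat_lit 0), [], [],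 [], [],
 ⟨⟨[(nat_lit 40), (nat_lit 80), (nat_lit 120)], [(nat_lit 0), (nat_lit 0), (nat_lit 2151)], [((nat_lit 0), (nat_lit 0), (nat_lit 0)), ((nat_lit 0), (nat_lit 0), (nat_lit 0)), ((nat_lit 1000), (nat_lit 815), (nat_lit 753))], ((nat_lit 80), (nat_lit 100), (nat_lit 63))⟩, (nat_lit 1824820), (nat_lit 244), (nat_lit 244), (nat_lit 0), (nat_lit 332443), [(nat_lit 2095241091), (nat_lit 3856979637), (nat_lit 5302364363)], [(nat_lit 0), (nat_lit 0), (nat_lit 0)], [(nat_lit 24749370006), (nat_lit 25844825006), (nat_lit 30889618474), (nat_lit 31863806575), (nat_lit 26408052056), (nat_lit 27316841106), (nat_lit 31536523674), (nat_lit 32317206950)], (nat_lit 1271251), (nat_lit 1271251), (nat_lit 1271251), (nat_lit 1271251), (nat_lit 780000), (nat_lit 1762501), [(nat_lit 490000), (nat_lit 1100000), (nat_lit 1785001)], [(nat_lit 4), (nat_lit 51), (nat_lit 272), (nat_lit 60), (nat_lit 8)]⟩,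
 ⟨⟨[(nat_lit 80), (nat_lit 120), (nat_lit 160)], [(nat_lit 0), (nat_lit 0), (nat_lit 2132)], [((nat_lit 0), (nat_lit 0), (nat_lit 0)), ((nat_lit 0), (nat_lit 0), (nat_lit 0)), ((nat_lit 858), (nat_lit 1000), (nat_lit 713))], ((nat_lit 100), (nat_lit 91), (nat_lit 64))⟩, (nat_lit 2848823), (nat_lit 498), (nat_lit 498), (nat_lit 0), (nat_lit 521911), [(nat_lit 4266080000), (nat_lit 7250880000), (nat_lit 10803520000)], [], [(nat_lit 32884220368), (nat_lit 34142226312), (nat_lit 38177079648), (nat_lit 38916796852), (nat_lit 32939240320), (nat_lit 33299878560), (nat_lit 36183687248), (nat_lit 36941265336)], (nat_lit 1271251), (nat_lit 1271251), (nat_lit 1271251), (nat_lit 1271251), (nat_lit 0), (nat_lit 2825001), [(nat_lit 1100000), (nat_lit 1785001), (nat_lit 1271251)], [(nat_lit 18), (nat_lit 59), (nat_lit 538), (nat_lit 300), (nat_lit 13)]⟩,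
 ⟨⟨[(nat_lit 120), (nat_lit 160), (nat_lit 180)], [(nat_lit 0), (nat_lit 533), (nat_lit 2066)], [((nat_lit 0), (nat_lit 0), (nat_lit 0)), ((nat_lit 960), (nat_lit 1000), (nat_lit 200)), ((nat_lit 615), (nat_lit 1000), (nat_lit 729))], ((nat_lit 100), (nat_lit 72), (nat_lit 63))⟩, (nat_lit 645537), (nat_lit 300), (nat_lit 1172), (nat_lit 16799200), (nat_lit 1669287), [(nat_lit 2015904000), (nat_lit 3003616000), (nat_lit 3556674000)], [], [(nat_lit 17367722630), (nat_lit 17126388867), (nat_lit 16535030763), (nat_lit 16288938712), (nat_lit 15047758542), (nat_lit 14422258155), (nat_lit 18870021515), (nat_lit 16923404969)], (nat_lit 1271251), (nat_lit 1271251), (nat_lit 780000), (nat_lit 1762501), (nat_lit 0), (nat_lit 2825001), [(nat_lit 1695001), (nat_lit 1271251), (nat_lit 1271251)], [(nat_lit 28), (nat_lit 65), (nat_lit 456), (nat_lit 225), (nat_lit 11)]⟩⟩) (.leaf ⟨(nat_lit 0), (nat_lit 794), (nat_lit 0), (nat_lit 206), (nat_lit 0), (nat_lit 6766),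 (nat_lit 6473), (nat_lit 1593), (nat_lit 0), (nat_lit 0), (nat_lit 0), [], Pd.none, Pd.none, (nat_lit 0), (nat_lit 1), (nat_lit 0), (nat_lit 0), (nat_lit 4), (nat_lit 0), [], [], [], [⟨(nat_lit 1), (nat_lit 77), (nat_lit 72), (nat_lit 100), (nat_lit 43459959)⟩],
 ⟨⟨[(nat_lit 40), (nat_lit 80), (nat_lit 120)], [(nat_lit 0), (nat_lit 0), (nat_lit 2151)], [((nat_lit 0), (nat_lit 0), (nat_lit 0)), ((nat_lit 0), (nat_lit 0), (nat_lit 0)), ((nat_lit 1000), (nat_lit 815), (nat_lit 753))], ((nat_lit 80), (nat_lit 100), (nat_lit 63))⟩, (nat_lit 2492942), (nat_lit 294), (nat_lit 294), (nat_lit 0), (nat_lit 503625), [(nat_lit 2599035516), (nat_lit 4688000001), (nat_lit 7968000000)], [], [(nat_lit 24642332683), (nat_lit 25869261493), (nat_lit 33228135792), (nat_lit 34634359789), (nat_lit 25783552667), (nat_lit 26784581403), (nat_lit 33220362856), (nat_lit 34372080914)], (nat_lit 1271251), (nat_lit 1271251), (nat_lit 1271251), (nat_lit 1271251), (nat_lit 780000),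 (nat_lit 1762501), [(nat_lit 490000), (nat_lit 1100000), (nat_lit 1785001)], [(nat_lit 4), (nat_lit 51), (nat_lit 272), (nat_lit 60), (nat_lit 8)]⟩,
 ⟨⟨[(nat_lit 60), (nat_lit 100), (nat_lit 140)], [(nat_lit 0), (nat_lit 0), (nat_lit 2047)], [((nat_lit 0), (nat_lit 0), (nat_lit 0)), ((nat_lit 0), (nat_lit 0), (nat_lit 0)), ((nat_lit 1000), (nat_lit 993), (nat_lit 781))], ((nat_lit 95), (nat_lit 100), (nat_lit 65))⟩, (nat_lit 2791476), (nat_lit 461), (nat_lit 461), (nat_lit 0), (nat_lit 586973), [(nat_lit 3282000000), (nat_lit 6250000000), (nat_lit 9842000000)], [], [(nat_lit 33300610257), (nat_lit 34804985446), (nat_lit 39195155032), (nat_lit 40311359464), (nat_lit 35958331553), (nat_lit 36629910186), (nat_lit 38728615180), (nat_lit 39102411832)], (nat_lit 1271251), (nat_lit 1271251), (nat_lit 1271251), (nat_lit 1271251), (nat_lit 0), (nat_lit 2825001), [(nat_lit 780000), (nat_lit 1435001), (nat_lit 1271251)], [(nat_lit 11), (nat_lit 55), (nat_lit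 317), (nat_lit 100), (nat_lit 9)]⟩,
 ⟨⟨[(nat_lit 120), (nat_lit 160), (nat_lit 180)], [(nat_lit 0), (nat_lit 533), (nat_lit 2066)], [((nat_lit 0), (nat_lit 0), (nat_lit 0)), ((nat_lit 960), (nat_lit 1000), (nat_lit 200)), ((nat_lit 615), (nat_lit 1000), (nat_lit 729))], ((nat_lit 100), (nat_lit 72), (nat_lit 63))⟩, (nat_lit 621019), (nat_lit 300), (nat_lit 1543), (nat_lit 13678400), (nat_lit 2479794), [(nat_lit 1641408000), (nat_lit 2445632000), (nat_lit 2895948000)], [], [(nat_lit 17164436949), (nat_lit 16990915259), (nat_lit 16590444664), (nat_lit 16416010798), (nat_lit 15306697440), (nat_lit 15129505298), (nat_lit 14736586225), (nat_lit 14553293445)], (nat_lit 1271251), (nat_lit 1271251), (nat_lit 780000), (nat_lit 1762501), (nat_lit 0), (nat_lit 2825001), [(nat_lit 1695001), (nat_lit 1271251), (nat_lit 1271251)], [(nat_lit 28), (nat_lit 65), (nat_lit 494), (nat_lit 225), (nat_lit 12)]⟩⟩)) (.trZ (nat_lit 3) (nat_lit 4) (nat_lit 5) (nat_lit 100)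 (nat_lit 94) (nat_lit 59) (nat_lit 30) (.spl (nat_lit 1) (nat_lit 280) (.leaf ⟨(nat_lit 0), (nat_lit 663), (nat_lit 0), (nat_lit 337), (nat_lit 0), (nat_lit 5719), (nat_lit 8859), (nat_lit 2971), (nat_lit 0), (nat_lit 0), (nat_lit 0), [], Pd.none, Pd.none, (nat_lit 0), (nat_lit 1), (nat_lit 0), (nat_lit 0), (nat_lit 6), (nat_lit 0), [], [⟨(nat_lit 1), (nat_lit 65), (nat_lit 76), (nat_lit 100), (nat_lit 161741310)⟩], [], [⟨(nat_lit 0), (nat_lit 85), (nat_lit 73), (nat_lit 100), (nat_lit 46086054)⟩],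
 ⟨⟨[(nat_lit 40), (nat_lit 80), (nat_lit 120)], [(nat_lit 0), (nat_lit 0), (nat_lit 2151)], [((nat_lit 0), (nat_lit 0), (nat_lit 0)), ((nat_lit 0), (nat_lit 0), (nat_lit 0)), ((nat_lit 1000), (nat_lit 815), (nat_lit 753))], ((nat_lit 80), (nat_lit 100), (nat_lit 63))⟩, (nat_lit 2657976), (nat_lit 192), (nat_lit 192), (nat_lit 0), (nat_lit 332443), [(nat_lit 2376880431), (nat_lit 4688000005), (nat_lit 7968000000)], [], [(nat_lit 26764646776), (nat_lit 27856541379), (nat_lit 32295687362), (nat_lit 33118320401), (nat_lit 32304315646), (nat_lit 33078434939), (nat_lit 37143607109), (nat_lit 37876161574)], (nat_lit 1271251), (nat_lit 1271251), (nat_lit 1271251), (nat_lit 1271251), (nat_lit 1271251), (nat_lit 1271251), [(nat_lit 490000), (nat_lit 1100000), (nat_lit 1785001)], [(nat_lit 4), (nat_lit 51), (nat_lit 203), (nat_lit 0), (nat_lit 5)]⟩,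
 ⟨⟨[(nat_lit 80), (nat_lit 120), (nat_lit 160)], [(nat_lit 0), (nat_lit 0), (nat_lit 2132)], [((nat_lit 0), (nat_lit 0), (nat_lit 0)), ((nat_lit 0), (nat_lit 0), (nat_lit 0)), ((nat_lit 858), (nat_lit 1000), (nat_lit 713))], ((nat_lit 100), (nat_lit 91), (nat_lit 64))⟩, (nat_lit 3323577), (nat_lit 459), (nat_lit 459), (nat_lit 0), (nat_lit 521911), [(nat_lit 4688000000), (nat_lit 7968000000), (nat_lit 11872000000)], [], [(nat_lit 32840634024), (nat_lit 34235320335), (nat_lit 38781510512), (nat_lit 40402083305), (nat_lit 33912963600), (nat_lit 35304267423), (nat_lit 40875831912), (nat_lit 41699626184)], (nat_lit 1271251), (nat_lit 1271251), (nat_lit 1271251), (nat_lit 1271251), (nat_lit 169688), (nat_lit 2886876), [(nat_lit 1100000), (nat_lit 1785001), (nat_lit 1271251)], [(nat_lit 18), (nat_lit 59), (nat_lit 538), (nat_lit 300), (nat_lit 13)]⟩,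
 ⟨⟨[(nat_lit 120), (nat_lit 160), (nat_lit 180)], [(nat_lit 0), (nat_lit 533), (nat_lit 2066)], [((nat_lit 0), (nat_lit 0), (nat_lit 0)), ((nat_lit 960), (nat_lit 1000), (nat_lit 200)), ((nat_lit 615), (nat_lit 1000), (nat_lit 729))], ((nat_lit 100), (nat_lit 72), (nat_lit 63))⟩, (nat_lit 928014), (nat_lit 300), (nat_lit 1095), (nat_lit 22376800), (nat_lit 1669287), [(nat_lit 2685216000), (nat_lit 4000864000), (nat_lit 4737546000)], [], [(nat_lit 21545543396), (nat_lit 21228658226), (nat_lit 20996241938), (nat_lit 20656693360), (nat_lit 19395177375), (nat_lit 18148527835), (nat_lit 17761181870), (nat_lit 17405326208)], (nat_lit 1271251), (nat_lit 1271251), (nat_lit 1271251), (nat_lit 1271251), (nat_lit 169688), (nat_lit 2886876), [(nat_lit 1695001), (nat_lit 1271251), (nat_lit 1271251)], [(nat_lit 28), (nat_lit 65), (nat_lit 483), (nat_lit 250), (nat_lit 11)]⟩⟩) (.spl (nat_lit 0) (nat_lit 330) (.leaf ⟨(nat_lit 0), (nat_lit 786), (nat_lit 0), (nat_lit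 214), (nat_lit 0), (nat_lit 5761), (nat_lit 6868), (nat_lit 1874), (nat_lit 0), (nat_lit 0), (nat_lit 0), [], Pd.none, Pd.none, (nat_lit 0), (nat_lit 1), (nat_lit 0), (nat_lit 0), (nat_lit 6), (nat_lit 0), [], [⟨(nat_lit 1), (nat_lit 63), (nat_lit 78), (nat_lit 100), (nat_lit 336800131)⟩], [⟨(nat_lit 1), (nat_lit 50), (nat_lit 87), (nat_lit 100), (nat_lit 68144650)⟩], [],
 ⟨⟨[(nat_lit 40), (nat_lit 80), (nat_lit 120)], [(nat_lit 0), (nat_lit 0), (nat_lit 2151)], [((nat_lit 0), (nat_lit 0), (nat_lit 0)), ((nat_lit 0), (nat_lit 0), (nat_lit 0)), ((nat_lit 1000), (nat_lit 815), (nat_lit 753))], ((nat_lit 80), (nat_lit 100), (nat_lit 63))⟩, (nat_lit 2328026), (nat_lit 255), (nat_lit 255), (nat_lit 0), (nat_lit 476192), [(nat_lit 2230913961), (nat_lit 4688000005), (nat_lit 7968000000)], [], [(nat_lit 26690193964), (nat_lit 27238147543), (nat_lit 32239004498), (nat_lit 32636298767), (nat_lit 32245013494), (nat_lit 32632659277), (nat_lit 37201265171), (nat_lit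 37568397839)], (nat_lit 1271251), (nat_lit 1271251), (nat_lit 1271251), (nat_lit 1271251), (nat_lit 1271251), (nat_lit 1271251), [(nat_lit 490000), (nat_lit 1100000), (nat_lit 1785001)], [(nat_lit 4), (nat_lit 51), (nat_lit 203), (nat_lit 0), (nat_lit 5)]⟩,
 ⟨⟨[(nat_lit 60), (nat_lit 100), (nat_lit 140)], [(nat_lit 0), (nat_lit 0), (nat_lit 2047)], [((nat_lit 0), (nat_lit 0), (nat_lit 0)), ((nat_lit 0), (nat_lit 0), (nat_lit 0)), ((nat_lit 1000), (nat_lit 993), (nat_lit 781))], ((nat_lit 95), (nat_lit 100), (nat_lit 65))⟩, (nat_lit 2745215), (nat_lit 416), (nat_lit 416), (nat_lit 0), (nat_lit 523547), [(nat_lit 3282000000), (nat_lit 6250000000), (nat_lit 9842000000)], [], [(nat_lit 31271116421), (nat_lit 32813639398), (nat_lit 37235960417), (nat_lit 38341365622), (nat_lit 34866536148), (nat_lit 35530973576), (nat_lit 38822280768), (nat_lit 39668756512)], (nat_lit 1271251), (nat_lit 1271251), (nat_lit 1271251), (nat_lit 1271251), (nat_lit 169688),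 (nat_lit 2886876), [(nat_lit 780000), (nat_lit 1435001), (nat_lit 1271251)], [(nat_lit 11), (nat_lit 55), (nat_lit 317), (nat_lit 100), (nat_lit 8)]⟩,
 ⟨⟨[(nat_lit 120), (nat_lit 160), (nat_lit 180)], [(nat_lit 0), (nat_lit 533), (nat_lit 2066)], [((nat_lit 0), (nat_lit 0), (nat_lit 0)), ((nat_lit 960), (nat_lit 1000), (nat_lit 200)), ((nat_lit 615), (nat_lit 1000), (nat_lit 729))], ((nat_lit 100), (nat_lit 72), (nat_lit 63))⟩, (nat_lit 558509), (nat_lit 300), (nat_lit 1341), (nat_lit 14209600), (nat_lit 2215252), [(nat_lit 1705152000), (nat_lit 2540608000), (nat_lit 3008412000)], [], [(nat_lit 14253564311), (nat_lit 14043110141), (nat_lit 13796358786), (nat_lit 13577358280), (nat_lit 12304394410), (nat_lit 12043452633), (nat_lit 11736289840), (nat_lit 11512784038)], (nat_lit 1271251), (nat_lit 1271251), (nat_lit 1271251), (nat_lit 1271251), (nat_lit 169688), (nat_lit 2886876), [(nat_lit 1695001), (nat_lit 1271251), (nat_lit 1271251)], [(nat_lit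 28), (nat_lit 65), (nat_lit 483), (nat_lit 250), (nat_lit 11)]⟩⟩) (.trX (nat_lit 4) (nat_lit 0) (nat_lit 2) (nat_lit 76) (nat_lit 57) (nat_lit 100) (nat_lit 370) (.leaf ⟨(nat_lit 0), (nat_lit 780), (nat_lit 0), (nat_lit 220), (nat_lit 0), (nat_lit 4177), (nat_lit 6956), (nat_lit 2102), (nat_lit 0), (nat_lit 0), (nat_lit 0), [], Pd.none, Pd.none, (nat_lit 0), (nat_lit 1), (nat_lit 0), (nat_lit 0), (nat_lit 6), (nat_lit 0), [], [⟨(nat_lit 1), (nat_lit 67), (nat_lit 74), (nat_lit 100), (nat_lit 210644677)⟩], [⟨(nat_lit 1), (nat_lit 50), (nat_lit 87), (nat_lit 100), (nat_lit 60569998)⟩], [],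
 ⟨⟨[(nat_lit 40), (nat_lit 80), (nat_lit 100)], [(nat_lit 0), (nat_lit 395), (nat_lit 1536)], [((nat_lit 0), (nat_lit 0), (nat_lit 0)), ((nat_lit 1000), (nat_lit 908), (nat_lit 154)), ((nat_lit 1000), (nat_lit 760), (nat_lit 642))], ((nat_lit 76), (nat_lit 100), (nat_lit 63))⟩, (nat_lit 6304641), (nat_lit 235), (nat_lit 235), (nat_lit 0), (nat_lit 500717), [(nat_lit 2032000040), (nat_lit 4688000026), (nat_lit 6250000000)], [], [(nat_lit 26391973262), (nat_lit 26773635712), (nat_lit 30807745658), (nat_lit 31271807783), (nat_lit 30507644654), (nat_lit 30840978747), (nat_lit 34979244995), (nat_lit 35323613053)], (nat_lit 1271251), (nat_lit 1271251), (nat_lit 1271251), (nat_lit 1271251), (nat_lit 1271251), (nat_lit 1271251), [(nat_lit 490000), (nat_lit 1100000), (nat_lit 1442501)], [(nat_lit 3), (nat_lit 50), (nat_lit 203), (nat_lit 0), (nat_lit 5)]⟩,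
 ⟨⟨[(nat_lit 60), (nat_lit 100), (nat_lit 140)], [(nat_lit 0), (nat_lit 0), (nat_lit 2047)], [((nat_lit 0), (nat_lit 0), (nat_lit 0)), ((nat_lit 0), (nat_lit 0), (nat_lit 0)), ((nat_lit 1000), (nat_lit 993), (nat_lit 781))], ((nat_lit 95), (nat_lit 100), (nat_lit 65))⟩, (nat_lit 2373847), (nat_lit 440), (nat_lit 440), (nat_lit 0), (nat_lit 586313), [(nat_lit 3282000000), (nat_lit 6250000000), (nat_lit 9842000000)], [], [(nat_lit 31838897533), (nat_lit 33245632006), (nat_lit 37077744139), (nat_lit 38352887510), (nat_lit 34623300716), (nat_lit 35286147192), (nat_lit 38949456256), (nat_lit 39794929504)], (nat_lit 1271251), (nat_lit 1271251), (nat_lit 1271251), (nat_lit 1271251), (nat_lit 169688), (nat_lit 2886876), [(nat_lit 780000), (nat_lit 1435001), (nat_lit 1271251)], [(nat_lit 11), (nat_lit 55), (nat_lit 317), (nat_lit 100), (nat_lit 8)]⟩,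
 ⟨⟨[(nat_lit 120), (nat_lit 160), (nat_lit 180)], [(nat_lit 0), (nat_lit 533), (nat_lit 2066)], [((nat_lit 0), (nat_lit 0), (nat_lit 0)), ((nat_lit 960), (nat_lit 1000), (nat_lit 200)), ((nat_lit 615), (nat_lit 1000), (nat_lit 729))], ((nat_lit 100), (nat_lit 72), (nat_lit 63))⟩, (nat_lit 515122), (nat_lit 300), (nat_lit 1466), (nat_lit 14608000), (nat_lit 2477462), [(nat_lit 1752960000), (nat_lit 2611840000), (nat_lit 3092760000)], [], [(nat_lit 13232857435), (nat_lit 12984851455), (nat_lit 12683481569), (nat_lit 12428887284), (nat_lit 12813747310), (nat_lit 10992746874), (nat_lit 10301338630), (nat_lit 10044305489)], (nat_lit 1271251), (nat_lit 1271251), (nat_lit 1271251), (nat_lit 1271251), (nat_lit 169688), (nat_lit 2886876), [(nat_lit 1695001), (nat_lit 1271251), (nat_lit 1271251)], [(nat_lit 28), (nat_lit 65), (nat_lit 491), (nat_lit 250), (nat_lit 11)]⟩⟩))))))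
noncomputable def c11_88 : Tr Lf :=
 (.ord (.spl (nat_lit 4) (nat_lit 280) (.stt (nat_lit 3) (.leaf ⟨(nat_lit 0), (nat_lit 0), (nat_lit 631), (nat_lit 369), (nat_lit 5683), (nat_lit 8396), (nat_lit 2763), (nat_lit 9555), (nat_lit 0), (nat_lit 1016301384573), (nat_lit 0), [], Pd.none, Pd.none, (nat_lit 0), (nat_lit 1), (nat_lit 0), (nat_lit 0), (nat_lit 0), (nat_lit 6), [⟨(nat_lit 0), (nat_lit 100), (nat_lit 82), (nat_lit 76), (nat_lit 556810694)⟩], [], [], [],
 ⟨⟨[(nat_lit 40), (nat_lit 80), (nat_lit 120)], [(nat_lit 0), (nat_lit 0), (nat_lit 2151)], [((nat_lit 0), (nat_lit 0), (nat_lit 0)), ((nat_lit 0), (nat_lit 0), (nat_lit 0)), ((nat_lit 1000), (nat_lit 815), (nat_lit 753))], ((nat_lit 80), (nat_lit 100), (nat_lit 63))⟩, (nat_lit 2005810), (nat_lit 282), (nat_lit 282), (nat_lit 0), (nat_lit 408373), [(nat_lit 2032000001), (nat_lit 4688000001), (nat_lit 7968000000)], [], [(nat_lit 19712060592), (nat_lit 22251661539), (nat_lit 18060392634), (nat_lit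 20420388468), (nat_lit 26163681762), (nat_lit 28727241011), (nat_lit 23799136148), (nat_lit 26191960290)], (nat_lit 1271251), (nat_lit 1271251), (nat_lit 356250), (nat_lit 780000), (nat_lit 780000), (nat_lit 2090001), [(nat_lit 490000), (nat_lit 1100000), (nat_lit 1785001)], [(nat_lit 4), (nat_lit 51), (nat_lit 317), (nat_lit 100), (nat_lit 10)]⟩,
 ⟨⟨[(nat_lit 80), (nat_lit 120), (nat_lit 160)], [(nat_lit 0), (nat_lit 0), (nat_lit 2132)], [((nat_lit 0), (nat_lit 0), (nat_lit 0)), ((nat_lit 0), (nat_lit 0), (nat_lit 0)), ((nat_lit 858), (nat_lit 1000), (nat_lit 713))], ((nat_lit 100), (nat_lit 91), (nat_lit 64))⟩, (nat_lit 0), (nat_lit 644), (nat_lit 644), (nat_lit 0), (nat_lit 623690), [(nat_lit 1729872000), (nat_lit 2940192000), (nat_lit 4380768000)], [], [(nat_lit 17757655326), (nat_lit 18114128793), (nat_lit 17249053680), (nat_lit 17555335056), (nat_lit 18937181115), (nat_lit 17679853778), (nat_lit 20625034482), (nat_lit 18260298828)], (nat_lit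 1271251), (nat_lit 1271251), (nat_lit 356250), (nat_lit 780000), (nat_lit 0), (nat_lit 2825001), [(nat_lit 1100000), (nat_lit 1785001), (nat_lit 1271251)], [(nat_lit 18), (nat_lit 59), (nat_lit 428), (nat_lit 200), (nat_lit 11)]⟩,
 ⟨⟨[(nat_lit 100), (nat_lit 140), (nat_lit 160)], [(nat_lit 0), (nat_lit 508), (nat_lit 1689)], [((nat_lit 0), (nat_lit 0), (nat_lit 0)), ((nat_lit 1000), (nat_lit 1000), (nat_lit 198)), ((nat_lit 811), (nat_lit 1000), (nat_lit 671))], ((nat_lit 100), (nat_lit 84), (nat_lit 63))⟩, (nat_lit 5211784), (nat_lit 236), (nat_lit 236), (nat_lit 0), (nat_lit 0), [(nat_lit 6250000000), (nat_lit 9842000000), (nat_lit 11872000000)], [], [(nat_lit 22837985382), (nat_lit 27527049789), (nat_lit 28946484806), (nat_lit 32588745628), (nat_lit 32707420831), (nat_lit 34950637655), (nat_lit 34220068253), (nat_lit 36061513335)], (nat_lit 0), (nat_lit 0), (nat_lit 0), (nat_lit 0), (nat_lit 0), (nat_lit 0), [], [(nat_lit 23), (nat_lit 62), (nat_lit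 483), (nat_lit 250), (nat_lit 13)]⟩⟩) (.spl (nat_lit 5) (nat_lit 120) (.spl (nat_lit 6) (nat_lit 24) (.leaf ⟨(nat_lit 678), (nat_lit 130), (nat_lit 61), (nat_lit 131), (nat_lit 0), (nat_lit 4464), (nat_lit 4176), (nat_lit 1952), (nat_lit 0), (nat_lit 36813258558), (nat_lit 915000), [((nat_lit 340), [((nat_lit 18), (nat_lit 2), (nat_lit 599)), ((nat_lit 37), (nat_lit 5), (nat_lit 79))])], ⟨(nat_lit 6), false, false, false, (nat_lit 153), (nat_lit 3872), (nat_lit 4473), [(nat_lit 1305146), (nat_lit 1317698), (nat_lit 1348244), (nat_lit 1361249), (nat_lit 1407125), (nat_lit 1414492), (nat_lit 1450223), (nat_lit 1458043)]⟩, ⟨(nat_lit 5), false, false, false, (nat_lit 222), (nat_lit 3872), (nat_lit 4473), [(nat_lit 1385576), (nat_lit 1392716), (nat_lit 1450223), (nat_lit 1458043), (nat_lit 1657518), (nat_lit 1650831), (nat_lit 1722167), (nat_lit 1716161)]⟩, (nat_lit 4656076), (nat_lit 43977277), (nat_lit 8239793), (nat_lit 14782930), (nat_lit 5), (nat_lit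 6), [⟨(nat_lit 0), (nat_lit 100), (nat_lit 82), (nat_lit 76), (nat_lit 334651951)⟩], [], [⟨(nat_lit 0), (nat_lit 100), (nat_lit 99), (nat_lit 55), (nat_lit 3246771)⟩, ⟨(nat_lit 0), (nat_lit 100), (nat_lit 98), (nat_lit 30), (nat_lit 8652089)⟩], [],
 ⟨⟨[(nat_lit 40), (nat_lit 80), (nat_lit 100)], [(nat_lit 0), (nat_lit 0), (nat_lit 1280)], [((nat_lit 0), (nat_lit 0), (nat_lit 0)), ((nat_lit 0), (nat_lit 0), (nat_lit 0)), ((nat_lit 1000), (nat_lit 800), (nat_lit 600))], ((nat_lit 81), (nat_lit 100), (nat_lit 48))⟩, (nat_lit 11903), (nat_lit 155), (nat_lit 155), (nat_lit 0), (nat_lit 198133), [(nat_lit 1763427603), (nat_lit 1975908575), (nat_lit 774596400)], [(nat_lit 0), (nat_lit 0), (nat_lit 0)], [(nat_lit 16236071436), (nat_lit 18341841951), (nat_lit 16034871064), (nat_lit 17795002777), (nat_lit 22263591908), (nat_lit 23979164732), (nat_lit 21564726032), (nat_lit 23175909860)], (nat_lit 1271251), (nat_lit 1271251), (nat_lit 356250), (nat_lit 780000),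 (nat_lit 780000), (nat_lit 2090001), [(nat_lit 490000), (nat_lit 1100000), (nat_lit 1442501)], [(nat_lit 3), (nat_lit 50), (nat_lit 317), (nat_lit 100), (nat_lit 12)]⟩,
 ⟨⟨[(nat_lit 80), (nat_lit 120), (nat_lit 140)], [(nat_lit 0), (nat_lit 0), (nat_lit 1164)], [((nat_lit 0), (nat_lit 0), (nat_lit 0)), ((nat_lit 0), (nat_lit 0), (nat_lit 0)), ((nat_lit 941), (nat_lit 1000), (nat_lit 576))], ((nat_lit 100), (nat_lit 98), (nat_lit 48))⟩, (nat_lit 0), (nat_lit 362), (nat_lit 362), (nat_lit 0), (nat_lit 260829), [(nat_lit 1223568000), (nat_lit 2079648000), (nat_lit 2568762000)], [], [(nat_lit 9168927912), (nat_lit 9482223960), (nat_lit 9441458892), (nat_lit 8162972055), (nat_lit 9819165564), (nat_lit 5934849768), (nat_lit 11500235244), (nat_lit 7692126228)], (nat_lit 1271251), (nat_lit 1271251), (nat_lit 356250), (nat_lit 780000), (nat_lit 0), (nat_lit 780000), [(nat_lit 1100000), (nat_lit 1785001), (nat_lit 1271251)], [(nat_lit 17), (nat_lit 58), (nat_lit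 373), (nat_lit 150), (nat_lit 11)]⟩,
 ⟨⟨[(nat_lit 100), (nat_lit 120), (nat_lit 140)], [(nat_lit 0), (nat_lit 254), (nat_lit 778)], [((nat_lit 0), (nat_lit 0), (nat_lit 0)), ((nat_lit 1000), (nat_lit 1000), (nat_lit 198)), ((nat_lit 960), (nat_lit 1000), (nat_lit 392))], ((nat_lit 100), (nat_lit 93), (nat_lit 48))⟩, (nat_lit 217644), (nat_lit 300), (nat_lit 590), (nat_lit 12288122), (nat_lit 773198), [(nat_lit 1200000000), (nat_lit 1529856000), (nat_lit 1889664000)], [], [(nat_lit 8206338288), (nat_lit 7880718464), (nat_lit 7579182064), (nat_lit 7631951200), (nat_lit 6550741728), (nat_lit 6659255840), (nat_lit 7232533648), (nat_lit 6381938160)], (nat_lit 1271251), (nat_lit 1271251), (nat_lit 780000), (nat_lit 2090001), (nat_lit 0), (nat_lit 780000), [(nat_lit 1412501), (nat_lit 1271251), (nat_lit 1271251)], [(nat_lit 22), (nat_lit 58), (nat_lit 401), (nat_lit 175), (nat_lit 12)]⟩⟩) (.spl (nat_lit 6) (nat_lit 36) (.spl (nat_lit 0) (nat_lit 330) (.leaf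 ⟨(nat_lit 0), (nat_lit 520), (nat_lit 170), (nat_lit 310), (nat_lit 15114), (nat_lit 6702), (nat_lit 13093), (nat_lit 4615), (nat_lit 0), (nat_lit 12523364073646), (nat_lit 0), [], Pd.none, Pd.none, (nat_lit 0), (nat_lit 1), (nat_lit 0), (nat_lit 0), (nat_lit 5), (nat_lit 6), [⟨(nat_lit 0), (nat_lit 100), (nat_lit 82), (nat_lit 87), (nat_lit 749742944)⟩], [], [⟨(nat_lit 0), (nat_lit 100), (nat_lit 99), (nat_lit 55), (nat_lit 50335019)⟩], [],
 ⟨⟨[(nat_lit 40), (nat_lit 80), (nat_lit 100)], [(nat_lit 0), (nat_lit 0), (nat_lit 1280)], [((nat_lit 0), (nat_lit 0), (nat_lit 0)), ((nat_lit 0), (nat_lit 0), (nat_lit 0)), ((nat_lit 1000), (nat_lit 800), (nat_lit 600))], ((nat_lit 80), (nat_lit 100), (nat_lit 57))⟩, (nat_lit 2243357), (nat_lit 145), (nat_lit 145), (nat_lit 0), (nat_lit 78291), [(nat_lit 2896278459), (nat_lit 4688000751), (nat_lit 6250000000)], [], [(nat_lit 17851742833), (nat_lit 19038516919), (nat_lit 16916454962), (nat_lit 18020441656),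 (nat_lit 24483429419), (nat_lit 25582542589), (nat_lit 22836498626), (nat_lit 23864535991)], (nat_lit 1271251), (nat_lit 1271251), (nat_lit 356250), (nat_lit 780000), (nat_lit 780000), (nat_lit 2090001), [(nat_lit 490000), (nat_lit 1100000), (nat_lit 1442501)], [(nat_lit 3), (nat_lit 50), (nat_lit 317), (nat_lit 100), (nat_lit 12)]⟩,
 ⟨⟨[(nat_lit 80), (nat_lit 120), (nat_lit 140)], [(nat_lit 0), (nat_lit 0), (nat_lit 1164)], [((nat_lit 0), (nat_lit 0), (nat_lit 0)), ((nat_lit 0), (nat_lit 0), (nat_lit 0)), ((nat_lit 941), (nat_lit 1000), (nat_lit 576))], ((nat_lit 100), (nat_lit 94), (nat_lit 58))⟩, (nat_lit 0), (nat_lit 293), (nat_lit 293), (nat_lit 0), (nat_lit 99847), [(nat_lit 3891040000), (nat_lit 6613440000), (nat_lit 8168860000)], [], [(nat_lit 29167314046), (nat_lit 30036011341), (nat_lit 30134599170), (nat_lit 25914344283), (nat_lit 31335476429), (nat_lit 19156993020), (nat_lit 36625939356), (nat_lit 24686386831)], (nat_lit 1271251), (nat_lit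 1271251), (nat_lit 356250), (nat_lit 780000), (nat_lit 0), (nat_lit 780000), [(nat_lit 1100000), (nat_lit 1785001), (nat_lit 1271251)], [(nat_lit 17), (nat_lit 58), (nat_lit 373), (nat_lit 150), (nat_lit 11)]⟩,
 ⟨⟨[(nat_lit 100), (nat_lit 140), (nat_lit 160)], [(nat_lit 0), (nat_lit 508), (nat_lit 1689)], [((nat_lit 0), (nat_lit 0), (nat_lit 0)), ((nat_lit 1000), (nat_lit 1000), (nat_lit 198)), ((nat_lit 811), (nat_lit 1000), (nat_lit 671))], ((nat_lit 100), (nat_lit 88), (nat_lit 58))⟩, (nat_lit 1031712), (nat_lit 300), (nat_lit 391), (nat_lit 30000360), (nat_lit 238948), [(nat_lit 3000000000), (nat_lit 4724160000), (nat_lit 5698560000)], [], [(nat_lit 20248972618), (nat_lit 21085591144), (nat_lit 20608465060), (nat_lit 21068197875), (nat_lit 17067392624), (nat_lit 17796700136), (nat_lit 18101550838), (nat_lit 17716556761)], (nat_lit 1271251), (nat_lit 1271251), (nat_lit 780000), (nat_lit 2090001), (nat_lit 0), (nat_lit 780000), [(nat_lit 1412501),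 (nat_lit 1271251), (nat_lit 1271251)], [(nat_lit 23), (nat_lit 62), (nat_lit 401), (nat_lit 175), (nat_lit 10)]⟩⟩) (.trZ (nat_lit 0) (nat_lit 1) (nat_lit 3) (nat_lit 100) (nat_lit 78) (nat_lit 81) (nat_lit 70) (.leaf ⟨(nat_lit 0), (nat_lit 343), (nat_lit 0), (nat_lit 657), (nat_lit 2947), (nat_lit 9360), (nat_lit 20210), (nat_lit 7220), (nat_lit 0), (nat_lit 22339588), (nat_lit 0), [], Pd.none, Pd.none, (nat_lit 0), (nat_lit 1), (nat_lit 0), (nat_lit 0), (nat_lit 5), (nat_lit 0), [⟨(nat_lit 0), (nat_lit 100), (nat_lit 77), (nat_lit 91), (nat_lit 795974945)⟩, ⟨(nat_lit 0), (nat_lit 100), (nat_lit 78), (nat_lit 81), (nat_lit 15324086)⟩], [], [⟨(nat_lit 0), (nat_lit 100), (nat_lit 99), (nat_lit 55), (nat_lit 364441867)⟩], [],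
 ⟨⟨[(nat_lit 40), (nat_lit 80), (nat_lit 100)], [(nat_lit 0), (nat_lit 395), (nat_lit 1536)], [((nat_lit 0), (nat_lit 0), (nat_lit 0)), ((nat_lit 1000), (nat_lit 908), (nat_lit 154)), ((nat_lit 1000), (nat_lit 760), (nat_lit 642))], ((nat_lit 76), (nat_lit 100), (nat_lit 58))⟩, (nat_lit 0), (nat_lit 137), (nat_lit 137), (nat_lit 0), (nat_lit 95458), [(nat_lit 3647883504), (nat_lit 5702994599), (nat_lit 6250000000)], [], [(nat_lit 20201920469), (nat_lit 22101012468), (nat_lit 19120045055), (nat_lit 20515780150), (nat_lit 27460513825), (nat_lit 28837207440), (nat_lit 25639170290), (nat_lit 26931398900)], (nat_lit 1271251), (nat_lit 1271251), (nat_lit 422188), (nat_lit 780000), (nat_lit 780000), (nat_lit 2090001), [(nat_lit 490000), (nat_lit 1100000), (nat_lit 1442501)], [(nat_lit 3), (nat_lit 50), (nat_lit 317), (nat_lit 100), (nat_lit 12)]⟩,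
 ⟨⟨[(nat_lit 80), (nat_lit 120), (nat_lit 140)], [(nat_lit 0), (nat_lit 0), (nat_lit 1164)], [((nat_lit 0), (nat_lit 0), (nat_lit 0)), ((nat_lit 0), (nat_lit 0), (nat_lit 0)), ((nat_lit 941), (nat_lit 1000), (nat_lit 576))], ((nat_lit 100), (nat_lit 94), (nat_lit 58))⟩, (nat_lit 0), (nat_lit 293), (nat_lit 293), (nat_lit 0), (nat_lit 125987), [(nat_lit 4688000000), (nat_lit 7968000000), (nat_lit 9842000000)], [], [(nat_lit 29615221030), (nat_lit 36636509563), (nat_lit 33696881700), (nat_lit 32278328610), (nat_lit 35948830823), (nat_lit 18543512699), (nat_lit 42839502120), (nat_lit 24409932385)], (nat_lit 1271251), (nat_lit 1271251), (nat_lit 422188), (nat_lit 780000), (nat_lit 0), (nat_lit 780000), [(nat_lit 1100000), (nat_lit 1785001), (nat_lit 1271251)], [(nat_lit 17), (nat_lit 58), (nat_lit 373), (nat_lit 150), (nat_lit 11)]⟩,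
 ⟨⟨[(nat_lit 100), (nat_lit 140), (nat_lit 160)], [(nat_lit 0), (nat_lit 508), (nat_lit 1689)], [((nat_lit 0), (nat_lit 0), (nat_lit 0)), ((nat_lit 1000), (nat_lit 1000), (nat_lit 198)), ((nat_lit 811), (nat_lit 1000), (nat_lit 671))], ((nat_lit 100), (nat_lit 88), (nat_lit 58))⟩, (nat_lit 369864), (nat_lit 300), (nat_lit 421), (nat_lit 44845024), (nat_lit 304990), [(nat_lit 4106250000), (nat_lit 6466194000), (nat_lit 7799904000)], [], [(nat_lit 28625978345), (nat_lit 29628435504), (nat_lit 28592977626), (nat_lit 29317752692), (nat_lit 23553370148), (nat_lit 24407295245), (nat_lit 24707591602), (nat_lit 23765022807)], (nat_lit 1271251), (nat_lit 1271251), (nat_lit 780000), (nat_lit 2090001), (nat_lit 0), (nat_lit 780000), [(nat_lit 1412501), (nat_lit 1271251), (nat_lit 1271251)], [(nat_lit 23), (nat_lit 62), (nat_lit 401), (nat_lit 175), (nat_lit 10)]⟩⟩))) (.leaf ⟨(nat_lit 0), (nat_lit 0), (nat_lit 0), (nat_lit 1000), (nat_lit 90163), (nat_lit 6590),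 (nat_lit 12138), (nat_lit 10389), (nat_lit 0), (nat_lit 6472935182758), (nat_lit 0), [], Pd.none, Pd.none, (nat_lit 0), (nat_lit 1), (nat_lit 0), (nat_lit 0), (nat_lit 0), (nat_lit 0), [⟨(nat_lit 0), (nat_lit 100), (nat_lit 80), (nat_lit 89), (nat_lit 1345192285)⟩], [], [⟨(nat_lit 0), (nat_lit 100), (nat_lit 99), (nat_lit 55), (nat_lit 912405759)⟩], [],
 ⟨⟨[(nat_lit 40), (nat_lit 80), (nat_lit 120)], [(nat_lit 0), (nat_lit 0), (nat_lit 2151)], [((nat_lit 0), (nat_lit 0), (nat_lit 0)), ((nat_lit 0), (nat_lit 0), (nat_lit 0)), ((nat_lit 1000), (nat_lit 815), (nat_lit 753))], ((nat_lit 80), (nat_lit 100), (nat_lit 63))⟩, (nat_lit 2922563), (nat_lit 144), (nat_lit 144), (nat_lit 0), (nat_lit 53387), [(nat_lit 3281543616), (nat_lit 4688000690), (nat_lit 7968000000)], [], [(nat_lit 18304094442), (nat_lit 20455849185), (nat_lit 17271090747), (nat_lit 19275410232), (nat_lit 24372338355), (nat_lit 26546410452), (nat_lit 22800242000), (nat_lit 24806663475)],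 (nat_lit 1271251), (nat_lit 1271251), (nat_lit 356250), (nat_lit 780000), (nat_lit 780000), (nat_lit 2090001), [(nat_lit 490000), (nat_lit 1100000), (nat_lit 1785001)], [(nat_lit 4), (nat_lit 51), (nat_lit 317), (nat_lit 100), (nat_lit 10)]⟩,
 ⟨⟨[(nat_lit 80), (nat_lit 120), (nat_lit 160)], [(nat_lit 0), (nat_lit 0), (nat_lit 2132)], [((nat_lit 0), (nat_lit 0), (nat_lit 0)), ((nat_lit 0), (nat_lit 0), (nat_lit 0)), ((nat_lit 858), (nat_lit 1000), (nat_lit 713))], ((nat_lit 100), (nat_lit 91), (nat_lit 64))⟩, (nat_lit 0), (nat_lit 353), (nat_lit 353), (nat_lit 0), (nat_lit 70738), [(nat_lit 4688000000), (nat_lit 7968000000), (nat_lit 11872000000)], [], [(nat_lit 37151859148), (nat_lit 41747313561), (nat_lit 38446688660), (nat_lit 37797576294), (nat_lit 39888493721), (nat_lit 31019202382), (nat_lit 45183836936), (nat_lit 34115152253)], (nat_lit 1271251), (nat_lit 1271251), (nat_lit 356250), (nat_lit 780000), (nat_lit 0), (nat_lit 780000), [(nat_lit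 1100000), (nat_lit 1785001), (nat_lit 1271251)], [(nat_lit 18), (nat_lit 59), (nat_lit 373), (nat_lit 150), (nat_lit 10)]⟩,
 ⟨⟨[(nat_lit 100), (nat_lit 140), (nat_lit 160)], [(nat_lit 0), (nat_lit 508), (nat_lit 1689)], [((nat_lit 0), (nat_lit 0), (nat_lit 0)), ((nat_lit 1000), (nat_lit 1000), (nat_lit 198)), ((nat_lit 811), (nat_lit 1000), (nat_lit 671))], ((nat_lit 100), (nat_lit 84), (nat_lit 63))⟩, (nat_lit 562959), (nat_lit 300), (nat_lit 359), (nat_lit 68257265), (nat_lit 169254), [(nat_lit 6250000000), (nat_lit 9842000000), (nat_lit 11872000000)], [], [(nat_lit 42965310844), (nat_lit 45005071126), (nat_lit 43944088876), (nat_lit 45072361596), (nat_lit 35538579144), (nat_lit 37322377678), (nat_lit 37652484385), (nat_lit 37250000616)], (nat_lit 1271251), (nat_lit 1271251), (nat_lit 780000), (nat_lit 2090001), (nat_lit 0), (nat_lit 780000), [(nat_lit 1412501), (nat_lit 1271251), (nat_lit 1271251)], [(nat_lit 23), (nat_lit 62), (nat_lit 401),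 (nat_lit 175), (nat_lit 10)]⟩⟩))) (.leaf ⟨(nat_lit 550), (nat_lit 0), (nat_lit 0), (nat_lit 450), (nat_lit 0), (nat_lit 4558), (nat_lit 2649), (nat_lit 4073), (nat_lit 0), (nat_lit 37452), (nat_lit 1108000), [((nat_lit 340), [((nat_lit 19), (nat_lit 2), (nat_lit 364)), ((nat_lit 37), (nat_lit 5), (nat_lit 186))])], ⟨(nat_lit 6), false, false, false, (nat_lit 153), (nat_lit 3872), (nat_lit 4473), [(nat_lit 1305146), (nat_lit 1317698), (nat_lit 1348244), (nat_lit 1361249), (nat_lit 1407125), (nat_lit 1414492), (nat_lit 1450223), (nat_lit 1458043)]⟩, ⟨(nat_lit 5), false, false, false, (nat_lit 222), (nat_lit 3872), (nat_lit 4473), [(nat_lit 1385576), (nat_lit 1392716), (nat_lit 1450223), (nat_lit 1458043), (nat_lit 1657518), (nat_lit 1650831), (nat_lit 1722167), (nat_lit 1716161)]⟩, (nat_lit 4656076), (nat_lit 43977277), (nat_lit 8239793), (nat_lit 14782930), (nat_lit 0), (nat_lit 0), [⟨(nat_lit 0), (nat_lit 100), (nat_lit 80), (nat_lit 89), (nat_lit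 593115015)⟩], [], [], [],
 ⟨⟨[(nat_lit 40), (nat_lit 80), (nat_lit 120)], [(nat_lit 0), (nat_lit 0), (nat_lit 2151)], [((nat_lit 0), (nat_lit 0), (nat_lit 0)), ((nat_lit 0), (nat_lit 0), (nat_lit 0)), ((nat_lit 1000), (nat_lit 815), (nat_lit 753))], ((nat_lit 80), (nat_lit 100), (nat_lit 63))⟩, (nat_lit 0), (nat_lit 175), (nat_lit 175), (nat_lit 0), (nat_lit 203522), [(nat_lit 1916792481), (nat_lit 1991628186), (nat_lit 0)], [(nat_lit 0), (nat_lit 0), (nat_lit 1188052328)], [(nat_lit 16069269498), (nat_lit 18435311697), (nat_lit 16149300284), (nat_lit 17781664964), (nat_lit 22356829051), (nat_lit 24092674186), (nat_lit 21618142754), (nat_lit 23248012795)], (nat_lit 1271251), (nat_lit 1271251), (nat_lit 356250), (nat_lit 780000), (nat_lit 780000), (nat_lit 2090001), [(nat_lit 490000), (nat_lit 1100000), (nat_lit 1785001)], [(nat_lit 4), (nat_lit 51), (nat_lit 317), (nat_lit 100), (nat_lit 10)]⟩,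
 ⟨⟨[(nat_lit 80), (nat_lit 120), (nat_lit 160)], [(nat_lit 0), (nat_lit 0), (nat_lit 2132)], [((nat_lit 0), (nat_lit 0), (nat_lit 0)), ((nat_lit 0), (nat_lit 0), (nat_lit 0)), ((nat_lit 858), (nat_lit 1000), (nat_lit 713))], ((nat_lit 100), (nat_lit 91), (nat_lit 64))⟩, (nat_lit 1523968), (nat_lit 338), (nat_lit 338), (nat_lit 0), (nat_lit 270673), [(nat_lit 2109600000), (nat_lit 3585600000), (nat_lit 5342400000)], [], [(nat_lit 15887665634), (nat_lit 14619933162), (nat_lit 13589949217), (nat_lit 14258767164), (nat_lit 20725571766), (nat_lit 18356956496), (nat_lit 22417760502), (nat_lit 20093708034)], (nat_lit 1271251), (nat_lit 1271251), (nat_lit 356250), (nat_lit 780000), (nat_lit 780000), (nat_lit 3072501), [(nat_lit 1100000), (nat_lit 1785001), (nat_lit 1271251)], [(nat_lit 18), (nat_lit 59), (nat_lit 428), (nat_lit 200), (nat_lit 11)]⟩,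
 ⟨⟨[(nat_lit 100), (nat_lit 140), (nat_lit 160)], [(nat_lit 0), (nat_lit 508), (nat_lit 1689)], [((nat_lit 0), (nat_lit 0), (nat_lit 0)), ((nat_lit 1000), (nat_lit 1000), (nat_lit 198)), ((nat_lit 811), (nat_lit 1000), (nat_lit 671))], ((nat_lit 100), (nat_lit 84), (nat_lit 63))⟩, (nat_lit 967323), (nat_lit 300), (nat_lit 771), (nat_lit 28125000), (nat_lit 1192103), [(nat_lit 2812500000), (nat_lit 4428900000), (nat_lit 5342400000)], [], [(nat_lit 20913382612), (nat_lit 20785029455), (nat_lit 19813109623), (nat_lit 19577846238), (nat_lit 23295139942), (nat_lit 19817967323), (nat_lit 32423111276), (nat_lit 27150515024)], (nat_lit 1271251), (nat_lit 1271251), (nat_lit 780000), (nat_lit 2090001), (nat_lit 780000), (nat_lit 3072501), [(nat_lit 1412501), (nat_lit 1271251), (nat_lit 1271251)], [(nat_lit 23), (nat_lit 62), (nat_lit 483), (nat_lit 250), (nat_lit 12)]⟩⟩))) (.trX (nat_lit 5) (nat_lit 4) (nat_lit 3) (nat_lit 100) (nat_lit 80) (nat_lit 100) (nat_lit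 340) (.spl (nat_lit 5) (nat_lit 120) (.leaf ⟨(nat_lit 0), (nat_lit 0), (nat_lit 0), (nat_lit 1000), (nat_lit 0), (nat_lit 7285), (nat_lit 23420), (nat_lit 10297), (nat_lit 0), (nat_lit 169909), (nat_lit 0), [], Pd.none, Pd.none, (nat_lit 0), (nat_lit 1), (nat_lit 0), (nat_lit 0), (nat_lit 0), (nat_lit 0), [⟨(nat_lit 0), (nat_lit 100), (nat_lit 80), (nat_lit 89), (nat_lit 1460433762)⟩], [], [⟨(nat_lit 0), (nat_lit 100), (nat_lit 98), (nat_lit 30), (nat_lit 608563865)⟩], [],
 ⟨⟨[(nat_lit 40), (nat_lit 80), (nat_lit 120)], [(nat_lit 0), (nat_lit 0), (nat_lit 2151)], [((nat_lit 0), (nat_lit 0), (nat_lit 0)), ((nat_lit 0), (nat_lit 0), (nat_lit 0)), ((nat_lit 1000), (nat_lit 815), (nat_lit 753))], ((nat_lit 80), (nat_lit 100), (nat_lit 63))⟩, (nat_lit 2171810), (nat_lit 294), (nat_lit 294), (nat_lit 0), (nat_lit 408373), [(nat_lit 2346683169), (nat_lit 4688000023), (nat_lit 7968000000)], [], [(nat_lit 25061698083), (nat_lit 27385655877), (nat_lit 23331068869),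 (nat_lit 25339764963), (nat_lit 36629191815), (nat_lit 38183857417), (nat_lit 34005655920), (nat_lit 35472306828)], (nat_lit 1271251), (nat_lit 1271251), (nat_lit 356250), (nat_lit 780000), (nat_lit 1271251), (nat_lit 1271251), [(nat_lit 490000), (nat_lit 1100000), (nat_lit 1785001)], [(nat_lit 4), (nat_lit 51), (nat_lit 238), (nat_lit 30), (nat_lit 7)]⟩,
 ⟨⟨[(nat_lit 80), (nat_lit 120), (nat_lit 160)], [(nat_lit 0), (nat_lit 0), (nat_lit 2132)], [((nat_lit 0), (nat_lit 0), (nat_lit 0)), ((nat_lit 0), (nat_lit 0), (nat_lit 0)), ((nat_lit 858), (nat_lit 1000), (nat_lit 713))], ((nat_lit 100), (nat_lit 91), (nat_lit 64))⟩, (nat_lit 5280449), (nat_lit 429), (nat_lit 429), (nat_lit 0), (nat_lit 270673), [(nat_lit 4688000000), (nat_lit 7968000000), (nat_lit 11872000000)], [], [(nat_lit 34756187240), (nat_lit 41679837222), (nat_lit 31808021400), (nat_lit 32950802192), (nat_lit 33265446390), (nat_lit 18742442012), (nat_lit 41907228240), (nat_lit 20550448270)],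 (nat_lit 1271251), (nat_lit 1271251), (nat_lit 356250), (nat_lit 780000), (nat_lit 0), (nat_lit 780000), [(nat_lit 1100000), (nat_lit 1785001), (nat_lit 1271251)], [(nat_lit 18), (nat_lit 59), (nat_lit 373), (nat_lit 150), (nat_lit 10)]⟩,
 ⟨⟨[(nat_lit 100), (nat_lit 140), (nat_lit 160)], [(nat_lit 0), (nat_lit 508), (nat_lit 1689)], [((nat_lit 0), (nat_lit 0), (nat_lit 0)), ((nat_lit 1000), (nat_lit 1000), (nat_lit 198)), ((nat_lit 811), (nat_lit 1000), (nat_lit 671))], ((nat_lit 100), (nat_lit 84), (nat_lit 63))⟩, (nat_lit 2149606), (nat_lit 300), (nat_lit 612), (nat_lit 62500002), (nat_lit 785348), [(nat_lit 6250000000), (nat_lit 9842000000), (nat_lit 11872000000)], [], [(nat_lit 44531568341), (nat_lit 44834687981), (nat_lit 48053271975), (nat_lit 48446186744), (nat_lit 37230157494), (nat_lit 37425877797), (nat_lit 39985661587), (nat_lit 39925425013)], (nat_lit 1271251), (nat_lit 1271251), (nat_lit 1271251), (nat_lit 1271251), (nat_lit 0), (nat_lit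 780000), [(nat_lit 1412501), (nat_lit 1271251), (nat_lit 1271251)], [(nat_lit 23), (nat_lit 62), (nat_lit 428), (nat_lit 200), (nat_lit 11)]⟩⟩) (.leaf ⟨(nat_lit 0), (nat_lit 0), (nat_lit 0), (nat_lit 1000), (nat_lit 0), (nat_lit 6810), (nat_lit 9998), (nat_lit 11072), (nat_lit 0), (nat_lit 403680), (nat_lit 0), [], Pd.none, Pd.none, (nat_lit 0), (nat_lit 1), (nat_lit 0), (nat_lit 0), (nat_lit 0), (nat_lit 0), [⟨(nat_lit 0), (nat_lit 100), (nat_lit 80), (nat_lit 89), (nat_lit 2492131494)⟩], [], [], [],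
 ⟨⟨[(nat_lit 40), (nat_lit 80), (nat_lit 120)], [(nat_lit 0), (nat_lit 0), (nat_lit 2151)], [((nat_lit 0), (nat_lit 0), (nat_lit 0)), ((nat_lit 0), (nat_lit 0), (nat_lit 0)), ((nat_lit 1000), (nat_lit 815), (nat_lit 753))], ((nat_lit 80), (nat_lit 100), (nat_lit 63))⟩, (nat_lit 3811829), (nat_lit 294), (nat_lit 294), (nat_lit 0), (nat_lit 408373), [(nat_lit 2475130780), (nat_lit 4688000019), (nat_lit 7968000000)], [], [(nat_lit 25490900982), (nat_lit 26812895094), (nat_lit 24531165857), (nat_lit 25762528690), (nat_lit 35678688790), (nat_lit 37173642973), (nat_lit 33294052720), (nat_lit 34705399615)], (nat_lit 1271251), (nat_lit 1271251), (nat_lit 356250), (nat_lit 780000), (nat_lit 1271251), (nat_lit 1271251), [(nat_lit 490000), (nat_lit 1100000), (nat_lit 1785001)], [(nat_lit 4), (nat_lit 51), (nat_lit 238), (nat_lit 30), (nat_lit 7)]⟩,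
 ⟨⟨[(nat_lit 80), (nat_lit 120), (nat_lit 160)], [(nat_lit 0), (nat_lit 0), (nat_lit 2132)], [((nat_lit 0), (nat_lit 0), (nat_lit 0)), ((nat_lit 0), (nat_lit 0), (nat_lit 0)), ((nat_lit 858), (nat_lit 1000), (nat_lit 713))], ((nat_lit 100), (nat_lit 91), (nat_lit 64))⟩, (nat_lit 5436381), (nat_lit 526), (nat_lit 526), (nat_lit 0), (nat_lit 623690), [(nat_lit 4688000000), (nat_lit 7968000000), (nat_lit 11872000000)], [], [(nat_lit 39447440317), (nat_lit 29029199382), (nat_lit 23780269378), (nat_lit 25752327259), (nat_lit 39544594996), (nat_lit 32083183017), (nat_lit 44481351515), (nat_lit 35540087626)], (nat_lit 1271251), (nat_lit 1271251), (nat_lit 356250), (nat_lit 780000), (nat_lit 780000), (nat_lit 2581251), [(nat_lit 1100000), (nat_lit 1785001), (nat_lit 1271251)], [(nat_lit 18), (nat_lit 59), (nat_lit 428), (nat_lit 200), (nat_lit 11)]⟩,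
 ⟨⟨[(nat_lit 100), (nat_lit 140), (nat_lit 160)], [(nat_lit 0), (nat_lit 508), (nat_lit 1689)], [((nat_lit 0), (nat_lit 0), (nat_lit 0)), ((nat_lit 1000), (nat_lit 1000), (nat_lit 198)), ((nat_lit 811), (nat_lit 1000), (nat_lit 671))], ((nat_lit 100), (nat_lit 84), (nat_lit 63))⟩, (nat_lit 2941727), (nat_lit 300), (nat_lit 715), (nat_lit 62500000), (nat_lit 1192103), [(nat_lit 6250000000), (nat_lit 9842000000), (nat_lit 11872000000)], [], [(nat_lit 35246998166), (nat_lit 35228613112), (nat_lit 38614980160), (nat_lit 38863758848), (nat_lit 33816673671), (nat_lit 33934779552), (nat_lit 39555002092), (nat_lit 40806224884)], (nat_lit 1271251), (nat_lit 1271251), (nat_lit 1271251), (nat_lit 1271251), (nat_lit 780000), (nat_lit 2581251), [(nat_lit 1412501), (nat_lit 1271251), (nat_lit 1271251)], [(nat_lit 23), (nat_lit 62), (nat_lit 538), (nat_lit 300), (nat_lit 13)]⟩⟩)))))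
noncomputable def c11_89 : Tr Lf :=
 (.trZ (nat_lit 0) (nat_lit 1) (nat_lit 3) (nat_lit 100) (nat_lit 87) (nat_lit 95) (nat_lit 100) (.trZ (nat_lit 1) (nat_lit 2) (nat_lit 5) (nat_lit 100) (nat_lit 92) (nat_lit 49) (nat_lit 20) (.spl (nat_lit 2) (nat_lit 280) (.spl (nat_lit 0) (nat_lit 330) (.leaf ⟨(nat_lit 161), (nat_lit 327), (nat_lit 0), (nat_lit 512), (nat_lit 0), (nat_lit 6664), (nat_lit 9644), (nat_lit 4617), (nat_lit 0), (nat_lit 0), (nat_lit 644000), [((nat_lit 330), [((nat_lit 37), (nat_lit 5), (nat_lit 161))])], ⟨(nat_lit 7), false, false, false, (nat_lit 183), (nat_lit 4183), (nat_lit 4473), [(nat_lit 1416301), (nat_lit 1421009), (nat_lit 1459427), (nat_lit 1464335), (nat_lit 1450291), (nat_lit 1454137), (nat_lit 1493417), (nat_lit 1497463)]⟩, ⟨(nat_lit 5), false, false, true, (nat_lit 262), (nat_lit 4183), (nat_lit 4473), [(nat_lit 1385603), (nat_lit 1389149), (nat_lit 1450291), (nat_lit 1454137), (nat_lit 1861456), (nat_lit 1852943),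 (nat_lit 1926145), (nat_lit 1917933)]⟩, (nat_lit 5135160), (nat_lit 38965668), (nat_lit 10086558), (nat_lit 17947774), (nat_lit 5), (nat_lit 0), [⟨(nat_lit 0), (nat_lit 100), (nat_lit 87), (nat_lit 95), (nat_lit 1855668914)⟩], [], [], [],
 ⟨⟨[(nat_lit 40), (nat_lit 80), (nat_lit 120)], [(nat_lit 0), (nat_lit 0), (nat_lit 2151)], [((nat_lit 0), (nat_lit 0), (nat_lit 0)), ((nat_lit 0), (nat_lit 0), (nat_lit 0)), ((nat_lit 1000), (nat_lit 815), (nat_lit 753))], ((nat_lit 80), (nat_lit 100), (nat_lit 63))⟩, (nat_lit 1805215), (nat_lit 296), (nat_lit 296), (nat_lit 0), (nat_lit 489051), [(nat_lit 2512493086), (nat_lit 3141820404), (nat_lit 3536407988)], [(nat_lit 0), (nat_lit 0), (nat_lit 0)], [(nat_lit 16088954472), (nat_lit 17549581030), (nat_lit 16177800244), (nat_lit 17561281860), (nat_lit 33475688184), (nat_lit 34190146897), (nat_lit 33075328368), (nat_lit 33772502462)], (nat_lit 1271251), (nat_lit 1271251), (nat_lit 631250), (nat_lit 780000), (nat_lit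 780000), (nat_lit 3072501), [(nat_lit 490000), (nat_lit 1100000), (nat_lit 1785001)], [(nat_lit 4), (nat_lit 51), (nat_lit 373), (nat_lit 150), (nat_lit 12)]⟩,
 ⟨⟨[(nat_lit 60), (nat_lit 100), (nat_lit 140)], [(nat_lit 0), (nat_lit 0), (nat_lit 2047)], [((nat_lit 0), (nat_lit 0), (nat_lit 0)), ((nat_lit 0), (nat_lit 0), (nat_lit 0)), ((nat_lit 1000), (nat_lit 993), (nat_lit 781))], ((nat_lit 95), (nat_lit 100), (nat_lit 65))⟩, (nat_lit 3083164), (nat_lit 455), (nat_lit 455), (nat_lit 0), (nat_lit 525740), [(nat_lit 2753598000), (nat_lit 5243750000), (nat_lit 8257438000)], [], [(nat_lit 21906062666), (nat_lit 22374383575), (nat_lit 17273186697), (nat_lit 21972747578), (nat_lit 33515962036), (nat_lit 34638861891), (nat_lit 35575296204), (nat_lit 33821904618)], (nat_lit 1271251), (nat_lit 1271251), (nat_lit 631250), (nat_lit 780000), (nat_lit 111251), (nat_lit 2866250), [(nat_lit 780000), (nat_lit 1435001), (nat_lit 1271251)], [(nat_lit 11), (nat_lit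 55), (nat_lit 373), (nat_lit 150), (nat_lit 11)]⟩,
 ⟨⟨[(nat_lit 100), (nat_lit 140), (nat_lit 160)], [(nat_lit 0), (nat_lit 508), (nat_lit 1689)], [((nat_lit 0), (nat_lit 0), (nat_lit 0)), ((nat_lit 1000), (nat_lit 1000), (nat_lit 198)), ((nat_lit 811), (nat_lit 1000), (nat_lit 671))], ((nat_lit 100), (nat_lit 84), (nat_lit 63))⟩, (nat_lit 1181867), (nat_lit 300), (nat_lit 1004), (nat_lit 32000000), (nat_lit 1519347), [(nat_lit 3200000000), (nat_lit 5039104000), (nat_lit 6078464000)], [], [(nat_lit 27790194583), (nat_lit 27414390816), (nat_lit 25869804390), (nat_lit 25354583393), (nat_lit 32333937190), (nat_lit 26046114145), (nat_lit 21414574917), (nat_lit 21467545336)], (nat_lit 1271251), (nat_lit 1271251), (nat_lit 1271251), (nat_lit 1271251), (nat_lit 111251), (nat_lit 2866250), [(nat_lit 1412501), (nat_lit 1271251), (nat_lit 1271251)], [(nat_lit 23), (nat_lit 62), (nat_lit 538), (nat_lit 300), (nat_lit 14)]⟩⟩) (.trZ (nat_lit 0) (nat_lit 1) (nat_lit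 3) (nat_lit 100) (nat_lit 83) (nat_lit 98) (nat_lit 110) (.leaf ⟨(nat_lit 0), (nat_lit 380), (nat_lit 0), (nat_lit 620), (nat_lit 0), (nat_lit 5228), (nat_lit 12539), (nat_lit 5553), (nat_lit 0), (nat_lit 0), (nat_lit 0), [], Pd.none, Pd.none, (nat_lit 0), (nat_lit 1), (nat_lit 0), (nat_lit 0), (nat_lit 5), (nat_lit 0), [⟨(nat_lit 0), (nat_lit 100), (nat_lit 83), (nat_lit 98), (nat_lit 2244167704)⟩], [], [], [],
 ⟨⟨[(nat_lit 40), (nat_lit 80), (nat_lit 100)], [(nat_lit 0), (nat_lit 395), (nat_lit 1536)], [((nat_lit 0), (nat_lit 0), (nat_lit 0)), ((nat_lit 1000), (nat_lit 908), (nat_lit 154)), ((nat_lit 1000), (nat_lit 760), (nat_lit 642))], ((nat_lit 76), (nat_lit 100), (nat_lit 63))⟩, (nat_lit 7200593), (nat_lit 267), (nat_lit 267), (nat_lit 0), (nat_lit 497679), [(nat_lit 2032000914), (nat_lit 4688000991), (nat_lit 6250000000)], [], [(nat_lit 16899604187), (nat_lit 18122343715), (nat_lit 16958393493), (nat_lit 18163098141), (nat_lit 31659768341),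 (nat_lit 32280539529), (nat_lit 31537617249), (nat_lit 32151194962)], (nat_lit 1271251), (nat_lit 1271251), (nat_lit 704688), (nat_lit 780000), (nat_lit 780000), (nat_lit 3072501), [(nat_lit 490000), (nat_lit 1100000), (nat_lit 1442501)], [(nat_lit 3), (nat_lit 50), (nat_lit 373), (nat_lit 150), (nat_lit 14)]⟩,
 ⟨⟨[(nat_lit 60), (nat_lit 100), (nat_lit 140)], [(nat_lit 0), (nat_lit 0), (nat_lit 2047)], [((nat_lit 0), (nat_lit 0), (nat_lit 0)), ((nat_lit 0), (nat_lit 0), (nat_lit 0)), ((nat_lit 1000), (nat_lit 993), (nat_lit 781))], ((nat_lit 95), (nat_lit 100), (nat_lit 65))⟩, (nat_lit 3975846), (nat_lit 466), (nat_lit 466), (nat_lit 0), (nat_lit 566549), [(nat_lit 3282000000), (nat_lit 6250000000), (nat_lit 9842000000)], [], [(nat_lit 22311093111), (nat_lit 27729323666), (nat_lit 20000833194), (nat_lit 27445232013), (nat_lit 40518936930), (nat_lit 42425579901), (nat_lit 41881410656), (nat_lit 41876736368)], (nat_lit 1271251), (nat_lit 1271251),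 (nat_lit 704688), (nat_lit 780000), (nat_lit 111251), (nat_lit 2866250), [(nat_lit 780000), (nat_lit 1435001), (nat_lit 1271251)], [(nat_lit 11), (nat_lit 55), (nat_lit 373), (nat_lit 150), (nat_lit 11)]⟩,
 ⟨⟨[(nat_lit 100), (nat_lit 140), (nat_lit 160)], [(nat_lit 0), (nat_lit 508), (nat_lit 1689)], [((nat_lit 0), (nat_lit 0), (nat_lit 0)), ((nat_lit 1000), (nat_lit 1000), (nat_lit 198)), ((nat_lit 811), (nat_lit 1000), (nat_lit 671))], ((nat_lit 100), (nat_lit 84), (nat_lit 63))⟩, (nat_lit 1332758), (nat_lit 300), (nat_lit 1073), (nat_lit 38750000), (nat_lit 1681548), [(nat_lit 3875000000), (nat_lit 6102040000), (nat_lit 7360640000)], [], [(nat_lit 33965052683), (nat_lit 33464614406), (nat_lit 31572961749), (nat_lit 30956410607), (nat_lit 39071847382), (nat_lit 31509299977), (nat_lit 25999932753), (nat_lit 25941085768)], (nat_lit 1271251), (nat_lit 1271251), (nat_lit 1271251), (nat_lit 1271251), (nat_lit 111251), (nat_lit 2866250), [(nat_lit 1412501),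 (nat_lit 1271251), (nat_lit 1271251)], [(nat_lit 23), (nat_lit 62), (nat_lit 538), (nat_lit 300), (nat_lit 14)]⟩⟩))) (.trZ (nat_lit 1) (nat_lit 2) (nat_lit 5) (nat_lit 100) (nat_lit 100) (nat_lit 80) (nat_lit 60) (.leaf ⟨(nat_lit 0), (nat_lit 0), (nat_lit 0), (nat_lit 1000), (nat_lit 0), (nat_lit 12857), (nat_lit 13883), (nat_lit 9292), (nat_lit 0), (nat_lit 27349537092182), (nat_lit 0), [], Pd.none, Pd.none, (nat_lit 0), (nat_lit 1), (nat_lit 0), (nat_lit 0), (nat_lit 0), (nat_lit 0), [⟨(nat_lit 0), (nat_lit 100), (nat_lit 87), (nat_lit 95), (nat_lit 2703497494)⟩], [], [], [],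
 ⟨⟨[(nat_lit 40), (nat_lit 80), (nat_lit 120)], [(nat_lit 0), (nat_lit 0), (nat_lit 2151)], [((nat_lit 0), (nat_lit 0), (nat_lit 0)), ((nat_lit 0), (nat_lit 0), (nat_lit 0)), ((nat_lit 1000), (nat_lit 815), (nat_lit 753))], ((nat_lit 80), (nat_lit 100), (nat_lit 63))⟩, (nat_lit 6327008), (nat_lit 300), (nat_lit 366), (nat_lit 58600005), (nat_lit 615847), [(nat_lit 2279173361), (nat_lit 4688000394), (nat_lit 7968000000)], [], [(nat_lit 18188630624), (nat_lit 23015035673), (nat_lit 17825407881), (nat_lit 22506312636), (nat_lit 43488567742), (nat_lit 45663526462), (nat_lit 42353135984), (nat_lit 44468532066)], (nat_lit 1271251), (nat_lit 1271251), (nat_lit 631250), (nat_lit 780000), (nat_lit 780000), (nat_lit 3072501), [(nat_lit 490000), (nat_lit 1100000), (nat_lit 1785001)], [(nat_lit 4), (nat_lit 51), (nat_lit 373), (nat_lit 150), (nat_lit 12)]⟩,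
 ⟨⟨[(nat_lit 60), (nat_lit 100), (nat_lit 140)], [(nat_lit 0), (nat_lit 0), (nat_lit 2047)], [((nat_lit 0), (nat_lit 0), (nat_lit 0)), ((nat_lit 0), (nat_lit 0), (nat_lit 0)), ((nat_lit 1000), (nat_lit 993), (nat_lit 781))], ((nat_lit 95), (nat_lit 100), (nat_lit 65))⟩, (nat_lit 5528741), (nat_lit 506), (nat_lit 506), (nat_lit 0), (nat_lit 744907), [(nat_lit 3282000000), (nat_lit 6250000000), (nat_lit 9842000000)], [], [(nat_lit 22129540615), (nat_lit 22863599340), (nat_lit 15003596283), (nat_lit 22332694823), (nat_lit 43282000888), (nat_lit 45147410698), (nat_lit 46122881564), (nat_lit 43890198896)], (nat_lit 1271251), (nat_lit 1271251), (nat_lit 631250), (nat_lit 780000), (nat_lit 356250), (nat_lit 2948751), [(nat_lit 780000), (nat_lit 1435001), (nat_lit 1271251)], [(nat_lit 11), (nat_lit 55), (nat_lit 373), (nat_lit 150), (nat_lit 11)]⟩,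
 ⟨⟨[(nat_lit 60), (nat_lit 100), (nat_lit 140)], [(nat_lit 0), (nat_lit 0), (nat_lit 2047)], [((nat_lit 0), (nat_lit 0), (nat_lit 0)), ((nat_lit 0), (nat_lit 0), (nat_lit 0)), ((nat_lit 1000), (nat_lit 993), (nat_lit 781))], ((nat_lit 95), (nat_lit 100), (nat_lit 65))⟩, (nat_lit 2703513), (nat_lit 300), (nat_lit 731), (nat_lit 62500000), (nat_lit 1198467), [(nat_lit 3282000000), (nat_lit 6250000000), (nat_lit 9842000000)], [], [(nat_lit 41264918164), (nat_lit 41578203034), (nat_lit 40372266472), (nat_lit 40645317228), (nat_lit 53494200904), (nat_lit 45238277488), (nat_lit 42325387392), (nat_lit 43144248928)], (nat_lit 1271251), (nat_lit 1271251), (nat_lit 1271251), (nat_lit 1271251), (nat_lit 356250), (nat_lit 2948751), [(nat_lit 780000), (nat_lit 1435001), (nat_lit 1271251)], [(nat_lit 11), (nat_lit 55), (nat_lit 428), (nat_lit 200), (nat_lit 12)]⟩⟩)))))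
noncomputable def c11_90 : Tr Lf :=
 (.spl (nat_lit 5) (nat_lit 120) (.leaf ⟨(nat_lit 0), (nat_lit 0), (nat_lit 0), (nat_lit 1000), (nat_lit 0), (nat_lit 10982), (nat_lit 9427), (nat_lit 10283), (nat_lit 0), (nat_lit 11566336621805), (nat_lit 0), [], Pd.none, Pd.none, (nat_lit 0), (nat_lit 1), (nat_lit 0), (nat_lit 0), (nat_lit 0), (nat_lit 0), [], [], [⟨(nat_lit 0), (nat_lit 100), (nat_lit 98), (nat_lit 74), (nat_lit 572834373)⟩], [],
 ⟨⟨[(nat_lit 40), (nat_lit 80), (nat_lit 120)], [(nat_lit 0), (nat_lit 0), (nat_lit 2151)], [((nat_lit 0), (nat_lit 0), (nat_lit 0)), ((nat_lit 0), (nat_lit 0), (nat_lit 0)), ((nat_lit 1000), (nat_lit 815), (nat_lit 753))], ((nat_lit 80), (nat_lit 100), (nat_lit 63))⟩, (nat_lit 435147), (nat_lit 300), (nat_lit 508), (nat_lit 58600001), (nat_lit 955229), [(nat_lit 2032000156), (nat_lit 4688000009), (nat_lit 7968000000)], [], [(nat_lit 22457677100), (nat_lit 23794620700), (nat_lit 39544175984), (nat_lit 41441266753),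 (nat_lit 42445973783), (nat_lit 41441266753), (nat_lit 45567343888), (nat_lit 46430390086)], (nat_lit 1271251), (nat_lit 1271251), (nat_lit 1271251), (nat_lit 1271251), (nat_lit 780000), (nat_lit 3072501), [(nat_lit 490000), (nat_lit 1100000), (nat_lit 1785001)], [(nat_lit 4), (nat_lit 51), (nat_lit 428), (nat_lit 200), (nat_lit 13)]⟩,
 ⟨⟨[(nat_lit 80), (nat_lit 120), (nat_lit 160)], [(nat_lit 0), (nat_lit 0), (nat_lit 2132)], [((nat_lit 0), (nat_lit 0), (nat_lit 0)), ((nat_lit 0), (nat_lit 0), (nat_lit 0)), ((nat_lit 858), (nat_lit 1000), (nat_lit 713))], ((nat_lit 100), (nat_lit 91), (nat_lit 64))⟩, (nat_lit 2680887), (nat_lit 737), (nat_lit 737), (nat_lit 0), (nat_lit 956862), [(nat_lit 4688000000), (nat_lit 7968000000), (nat_lit 11872000000)], [], [(nat_lit 37129672414), (nat_lit 38941316350), (nat_lit 59902015196), (nat_lit 47648137272), (nat_lit 32218563916), (nat_lit 33726816579), (nat_lit 67518599926), (nat_lit 51382253194)], (nat_lit 1271251),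 (nat_lit 1271251), (nat_lit 780000), (nat_lit 3072501), (nat_lit 0), (nat_lit 780000), [(nat_lit 1100000), (nat_lit 1785001), (nat_lit 1271251)], [(nat_lit 18), (nat_lit 59), (nat_lit 456), (nat_lit 225), (nat_lit 12)]⟩,
 ⟨⟨[(nat_lit 100), (nat_lit 140), (nat_lit 160)], [(nat_lit 0), (nat_lit 508), (nat_lit 1689)], [((nat_lit 0), (nat_lit 0), (nat_lit 0)), ((nat_lit 1000), (nat_lit 1000), (nat_lit 198)), ((nat_lit 811), (nat_lit 1000), (nat_lit 671))], ((nat_lit 100), (nat_lit 84), (nat_lit 63))⟩, (nat_lit 6064968), (nat_lit 269), (nat_lit 269), (nat_lit 0), (nat_lit 0), [(nat_lit 6250000000), (nat_lit 9842000000), (nat_lit 11872000000)], [], [(nat_lit 21598683858), (nat_lit 31297140750), (nat_lit 44122053824), (nat_lit 50042999288), (nat_lit 15551692752), (nat_lit 23057610479), (nat_lit 32904733406), (nat_lit 38496995696)], (nat_lit 0), (nat_lit 0), (nat_lit 0), (nat_lit 0), (nat_lit 0), (nat_lit 0), [], [(nat_lit 23), (nat_lit 62), (nat_lit 456),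 (nat_lit 225), (nat_lit 12)]⟩⟩) (.leaf ⟨(nat_lit 0), (nat_lit 0), (nat_lit 0), (nat_lit 1000), (nat_lit 0), (nat_lit 10423), (nat_lit 7269), (nat_lit 9198), (nat_lit 0), (nat_lit 24277523435015), (nat_lit 0), [], Pd.none, Pd.none, (nat_lit 0), (nat_lit 1), (nat_lit 0), (nat_lit 0), (nat_lit 0), (nat_lit 0), [⟨(nat_lit 0), (nat_lit 100), (nat_lit 83), (nat_lit 98), (nat_lit 292804770)⟩], [], [], [],
 ⟨⟨[(nat_lit 40), (nat_lit 80), (nat_lit 120)], [(nat_lit 0), (nat_lit 0), (nat_lit 2151)], [((nat_lit 0), (nat_lit 0), (nat_lit 0)), ((nat_lit 0), (nat_lit 0), (nat_lit 0)), ((nat_lit 1000), (nat_lit 815), (nat_lit 753))], ((nat_lit 80), (nat_lit 100), (nat_lit 63))⟩, (nat_lit 1637529), (nat_lit 300), (nat_lit 508), (nat_lit 58600001), (nat_lit 955229), [(nat_lit 2032000268), (nat_lit 4688000011), (nat_lit 7968000000)], [], [(nat_lit 24450841910), (nat_lit 25387675876), (nat_lit 38706731376), (nat_lit 40538738055), (nat_lit 39669181025), (nat_lit 40538738055),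 (nat_lit 44765858632), (nat_lit 45609904979)], (nat_lit 1271251), (nat_lit 1271251), (nat_lit 1271251), (nat_lit 1271251), (nat_lit 780000), (nat_lit 3072501), [(nat_lit 490000), (nat_lit 1100000), (nat_lit 1785001)], [(nat_lit 4), (nat_lit 51), (nat_lit 428), (nat_lit 200), (nat_lit 13)]⟩,
 ⟨⟨[(nat_lit 80), (nat_lit 120), (nat_lit 160)], [(nat_lit 0), (nat_lit 0), (nat_lit 2132)], [((nat_lit 0), (nat_lit 0), (nat_lit 0)), ((nat_lit 0), (nat_lit 0), (nat_lit 0)), ((nat_lit 858), (nat_lit 1000), (nat_lit 713))], ((nat_lit 100), (nat_lit 91), (nat_lit 64))⟩, (nat_lit 2147564), (nat_lit 909), (nat_lit 909), (nat_lit 0), (nat_lit 1512552), [(nat_lit 4688000000), (nat_lit 7968000000), (nat_lit 11872000000)], [], [(nat_lit 47415719854), (nat_lit 48090291332), (nat_lit 47963199576), (nat_lit 47936244154), (nat_lit 64949196908), (nat_lit 51865534814), (nat_lit 46576320292), (nat_lit 46165703304)], (nat_lit 1271251), (nat_lit 1271251), (nat_lit 1271251),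 (nat_lit 1271251), (nat_lit 780000), (nat_lit 3072501), [(nat_lit 1100000), (nat_lit 1785001), (nat_lit 1271251)], [(nat_lit 18), (nat_lit 59), (nat_lit 538), (nat_lit 300), (nat_lit 13)]⟩,
 ⟨⟨[(nat_lit 100), (nat_lit 140), (nat_lit 160)], [(nat_lit 0), (nat_lit 508), (nat_lit 1689)], [((nat_lit 0), (nat_lit 0), (nat_lit 0)), ((nat_lit 1000), (nat_lit 1000), (nat_lit 198)), ((nat_lit 811), (nat_lit 1000), (nat_lit 671))], ((nat_lit 100), (nat_lit 84), (nat_lit 63))⟩, (nat_lit 10349150), (nat_lit 168), (nat_lit 168), (nat_lit 0), (nat_lit 0), [(nat_lit 6250000000), (nat_lit 9842000000), (nat_lit 11872000000)], [], [(nat_lit 15446862647), (nat_lit 21864968764), (nat_lit 31566919183), (nat_lit 36871544176), (nat_lit 31566919183), (nat_lit 36871544176), (nat_lit 41494316070), (nat_lit 43009473232)], (nat_lit 0), (nat_lit 0), (nat_lit 0), (nat_lit 0), (nat_lit 0), (nat_lit 0), [], [(nat_lit 23), (nat_lit 62), (nat_lit 538), (nat_lit 300), (nat_lit 14)]⟩⟩))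
noncomputable def c11_91 : Tr Lf :=
 (.spl (nat_lit 5) (nat_lit 120) (.leaf ⟨(nat_lit 0), (nat_lit 465), (nat_lit 0), (nat_lit 535), (nat_lit 0), (nat_lit 10585), (nat_lit 7750), (nat_lit 4980), (nat_lit 0), (nat_lit 51753), (nat_lit 0), [], Pd.none, Pd.none, (nat_lit 0), (nat_lit 1), (nat_lit 0), (nat_lit 0), (nat_lit 5), (nat_lit 0), [], [], [⟨(nat_lit 0), (nat_lit 100), (nat_lit 98), (nat_lit 74), (nat_lit 417961168)⟩], [],
 ⟨⟨[(nat_lit 40), (nat_lit 80), (nat_lit 120)], [(nat_lit 0), (nat_lit 0), (nat_lit 2151)], [((nat_lit 0), (nat_lit 0), (nat_lit 0)), ((nat_lit 0), (nat_lit 0), (nat_lit 0)), ((nat_lit 1000), (nat_lit 815), (nat_lit 753))], ((nat_lit 80), (nat_lit 100), (nat_lit 63))⟩, (nat_lit 1063996), (nat_lit 300), (nat_lit 353), (nat_lit 58600001), (nat_lit 616849), [(nat_lit 2032000074), (nat_lit 4688000016), (nat_lit 7968000000)], [], [(nat_lit 22787777561), (nat_lit 24195799856), (nat_lit 38949425520), (nat_lit 40800293778), (nat_lit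 40958048898), (nat_lit 40800293778), (nat_lit 44998131640), (nat_lit 45847684205)], (nat_lit 1271251), (nat_lit 1271251), (nat_lit 1271251), (nat_lit 1271251), (nat_lit 780000), (nat_lit 3072501), [(nat_lit 490000), (nat_lit 1100000), (nat_lit 1785001)], [(nat_lit 4), (nat_lit 51), (nat_lit 428), (nat_lit 200), (nat_lit 13)]⟩,
 ⟨⟨[(nat_lit 80), (nat_lit 120), (nat_lit 160)], [(nat_lit 0), (nat_lit 0), (nat_lit 2132)], [((nat_lit 0), (nat_lit 0), (nat_lit 0)), ((nat_lit 0), (nat_lit 0), (nat_lit 0)), ((nat_lit 858), (nat_lit 1000), (nat_lit 713))], ((nat_lit 100), (nat_lit 91), (nat_lit 64))⟩, (nat_lit 5487320), (nat_lit 252), (nat_lit 252), (nat_lit 0), (nat_lit 0), [(nat_lit 4688000000), (nat_lit 7968000000), (nat_lit 11872000000)], [], [(nat_lit 20398662760), (nat_lit 28193629000), (nat_lit 38804230000), (nat_lit 42956334000), (nat_lit 16811216750), (nat_lit 22955691250), (nat_lit 32434067000), (nat_lit 35602861000)], (nat_lit 0), (nat_lit 0),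 (nat_lit 0), (nat_lit 0), (nat_lit 0), (nat_lit 0), [], [(nat_lit 18), (nat_lit 59), (nat_lit 456), (nat_lit 225), (nat_lit 12)]⟩,
 ⟨⟨[(nat_lit 100), (nat_lit 140), (nat_lit 160)], [(nat_lit 0), (nat_lit 508), (nat_lit 1689)], [((nat_lit 0), (nat_lit 0), (nat_lit 0)), ((nat_lit 1000), (nat_lit 1000), (nat_lit 198)), ((nat_lit 811), (nat_lit 1000), (nat_lit 671))], ((nat_lit 100), (nat_lit 84), (nat_lit 63))⟩, (nat_lit 1150039), (nat_lit 300), (nat_lit 832), (nat_lit 33437502), (nat_lit 1109236), [(nat_lit 3343750000), (nat_lit 5265470000), (nat_lit 6351520000)], [], [(nat_lit 28094724375), (nat_lit 27837279690), (nat_lit 26710319800), (nat_lit 26458280300), (nat_lit 25012736538), (nat_lit 24668047985), (nat_lit 27838171880), (nat_lit 22830230380)], (nat_lit 1271251), (nat_lit 1271251), (nat_lit 780000), (nat_lit 3072501), (nat_lit 0), (nat_lit 780000), [(nat_lit 1412501), (nat_lit 1271251), (nat_lit 1271251)], [(nat_lit 23), (nat_lit 62), (nat_lit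 456), (nat_lit 225), (nat_lit 12)]⟩⟩) (.spl (nat_lit 0) (nat_lit 330) (.leaf ⟨(nat_lit 0), (nat_lit 391), (nat_lit 0), (nat_lit 609), (nat_lit 0), (nat_lit 9885), (nat_lit 8360), (nat_lit 4335), (nat_lit 0), (nat_lit 149187), (nat_lit 0), [], Pd.none, Pd.none, (nat_lit 0), (nat_lit 1), (nat_lit 0), (nat_lit 0), (nat_lit 5), (nat_lit 0), [⟨(nat_lit 0), (nat_lit 82), (nat_lit 78), (nat_lit 100), (nat_lit 1134103)⟩], [], [], [],
 ⟨⟨[(nat_lit 40), (nat_lit 80), (nat_lit 120)], [(nat_lit 0), (nat_lit 0), (nat_lit 2151)], [((nat_lit 0), (nat_lit 0), (nat_lit 0)), ((nat_lit 0), (nat_lit 0), (nat_lit 0)), ((nat_lit 1000), (nat_lit 815), (nat_lit 753))], ((nat_lit 80), (nat_lit 100), (nat_lit 63))⟩, (nat_lit 3121761), (nat_lit 300), (nat_lit 334), (nat_lit 58600001), (nat_lit 614376), [(nat_lit 2262994365), (nat_lit 4688000043), (nat_lit 7968000000)], [], [(nat_lit 22859276979), (nat_lit 23588604928), (nat_lit 37900747120), (nat_lit 38785430924), (nat_lit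 37900747120), (nat_lit 38785430924), (nat_lit 43994482840), (nat_lit 44407362973)], (nat_lit 1271251), (nat_lit 1271251), (nat_lit 1271251), (nat_lit 1271251), (nat_lit 780000), (nat_lit 3072501), [(nat_lit 490000), (nat_lit 1100000), (nat_lit 1785001)], [(nat_lit 4), (nat_lit 51), (nat_lit 428), (nat_lit 200), (nat_lit 13)]⟩,
 ⟨⟨[(nat_lit 80), (nat_lit 120), (nat_lit 160)], [(nat_lit 0), (nat_lit 0), (nat_lit 2132)], [((nat_lit 0), (nat_lit 0), (nat_lit 0)), ((nat_lit 0), (nat_lit 0), (nat_lit 0)), ((nat_lit 858), (nat_lit 1000), (nat_lit 713))], ((nat_lit 100), (nat_lit 91), (nat_lit 64))⟩, (nat_lit 5051528), (nat_lit 168), (nat_lit 168), (nat_lit 0), (nat_lit 0), [(nat_lit 4688000000), (nat_lit 7968000000), (nat_lit 11872000000)], [], [(nat_lit 15532606344), (nat_lit 22398464040), (nat_lit 32358258640), (nat_lit 35616126320), (nat_lit 32358258640), (nat_lit 35616126320), (nat_lit 40149004480), (nat_lit 41807962240)], (nat_lit 0), (nat_lit 0),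 (nat_lit 0), (nat_lit 0), (nat_lit 0), (nat_lit 0), [], [(nat_lit 18), (nat_lit 59), (nat_lit 538), (nat_lit 300), (nat_lit 13)]⟩,
 ⟨⟨[(nat_lit 100), (nat_lit 140), (nat_lit 160)], [(nat_lit 0), (nat_lit 508), (nat_lit 1689)], [((nat_lit 0), (nat_lit 0), (nat_lit 0)), ((nat_lit 1000), (nat_lit 1000), (nat_lit 198)), ((nat_lit 811), (nat_lit 1000), (nat_lit 671))], ((nat_lit 100), (nat_lit 84), (nat_lit 63))⟩, (nat_lit 1518566), (nat_lit 300), (nat_lit 976), (nat_lit 38062500), (nat_lit 1604074), [(nat_lit 3806250000), (nat_lit 5993778000), (nat_lit 7230048000)], [], [(nat_lit 37830547686), (nat_lit 37481640297), (nat_lit 36439604050), (nat_lit 35828819186), (nat_lit 40019618970), (nat_lit 35828819186), (nat_lit 34419678016), (nat_lit 33633575200)], (nat_lit 1271251), (nat_lit 1271251), (nat_lit 1271251), (nat_lit 1271251), (nat_lit 780000), (nat_lit 3072501), [(nat_lit 1412501), (nat_lit 1271251), (nat_lit 1271251)], [(nat_lit 23), (nat_lit 62),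 (nat_lit 538), (nat_lit 300), (nat_lit 14)]⟩⟩) (.leaf ⟨(nat_lit 0), (nat_lit 396), (nat_lit 0), (nat_lit 604), (nat_lit 0), (nat_lit 8200), (nat_lit 8360), (nat_lit 4351), (nat_lit 0), (nat_lit 234548), (nat_lit 0), [], Pd.none, Pd.none, (nat_lit 0), (nat_lit 1), (nat_lit 0), (nat_lit 0), (nat_lit 5), (nat_lit 0), [⟨(nat_lit 0), (nat_lit 81), (nat_lit 72), (nat_lit 100), (nat_lit 422636)⟩], [], [], [],
 ⟨⟨[(nat_lit 40), (nat_lit 80), (nat_lit 100)], [(nat_lit 0), (nat_lit 395), (nat_lit 1536)], [((nat_lit 0), (nat_lit 0), (nat_lit 0)), ((nat_lit 1000), (nat_lit 908), (nat_lit 154)), ((nat_lit 1000), (nat_lit 760), (nat_lit 642))], ((nat_lit 76), (nat_lit 100), (nat_lit 63))⟩, (nat_lit 3715312), (nat_lit 300), (nat_lit 309), (nat_lit 50800002), (nat_lit 611996), [(nat_lit 2032000069), (nat_lit 4999592214), (nat_lit 6250000000)], [], [(nat_lit 21345515925), (nat_lit 22096711050), (nat_lit 36163020350), (nat_lit 36949612300), (nat_lit 36163020350),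 (nat_lit 36949612300), (nat_lit 47331801512), (nat_lit 45639510112)], (nat_lit 1271251), (nat_lit 1271251), (nat_lit 780000), (nat_lit 3072501), (nat_lit 780000), (nat_lit 3072501), [(nat_lit 490000), (nat_lit 1100000), (nat_lit 1442501)], [(nat_lit 3), (nat_lit 50), (nat_lit 428), (nat_lit 200), (nat_lit 16)]⟩,
 ⟨⟨[(nat_lit 80), (nat_lit 120), (nat_lit 160)], [(nat_lit 0), (nat_lit 0), (nat_lit 2132)], [((nat_lit 0), (nat_lit 0), (nat_lit 0)), ((nat_lit 0), (nat_lit 0), (nat_lit 0)), ((nat_lit 858), (nat_lit 1000), (nat_lit 713))], ((nat_lit 100), (nat_lit 91), (nat_lit 64))⟩, (nat_lit 5173714), (nat_lit 168), (nat_lit 168), (nat_lit 0), (nat_lit 0), [(nat_lit 4688000000), (nat_lit 7968000000), (nat_lit 11872000000)], [], [(nat_lit 15525500840), (nat_lit 22398464040), (nat_lit 32358258640), (nat_lit 35616126320), (nat_lit 32358258640), (nat_lit 35616126320), (nat_lit 40149004480), (nat_lit 41807962240)], (nat_lit 0), (nat_lit 0), (nat_lit 0), (nat_lit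 0), (nat_lit 0), (nat_lit 0), [], [(nat_lit 18), (nat_lit 59), (nat_lit 538), (nat_lit 300), (nat_lit 13)]⟩,
 ⟨⟨[(nat_lit 100), (nat_lit 140), (nat_lit 160)], [(nat_lit 0), (nat_lit 508), (nat_lit 1689)], [((nat_lit 0), (nat_lit 0), (nat_lit 0)), ((nat_lit 1000), (nat_lit 1000), (nat_lit 198)), ((nat_lit 811), (nat_lit 1000), (nat_lit 671))], ((nat_lit 100), (nat_lit 84), (nat_lit 63))⟩, (nat_lit 1571292), (nat_lit 300), (nat_lit 1045), (nat_lit 37750000), (nat_lit 1762359), [(nat_lit 3775000000), (nat_lit 5944568000), (nat_lit 7170688000)], [], [(nat_lit 37991779388), (nat_lit 37557105299), (nat_lit 36401683451), (nat_lit 35736318821), (nat_lit 39845961198), (nat_lit 35736318821), (nat_lit 34256707070), (nat_lit 33435772175)], (nat_lit 1271251), (nat_lit 1271251), (nat_lit 1271251), (nat_lit 1271251), (nat_lit 780000), (nat_lit 3072501), [(nat_lit 1412501), (nat_lit 1271251), (nat_lit 1271251)], [(nat_lit 23), (nat_lit 62), (nat_lit 538), (nat_lit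 300), (nat_lit 14)]⟩⟩)))
noncomputable def c11_92 : Tr Lf :=
 (.spl (nat_lit 1) (nat_lit 280) (.ord (.spl (nat_lit 6) (nat_lit 24) (.spl (nat_lit 1) (nat_lit 260) (.ord (.trX (nat_lit 3) (nat_lit 0) (nat_lit 1) (nat_lit 84) (nat_lit 35) (nat_lit 100) (nat_lit 390) (.trX (nat_lit 4) (nat_lit 0) (nat_lit 2) (nat_lit 84) (nat_lit 35) (nat_lit 100) (nat_lit 390) (.spl (nat_lit 5) (nat_lit 120) (.leaf ⟨(nat_lit 229), (nat_lit 213), (nat_lit 0), (nat_lit 558), (nat_lit 0), (nat_lit 5067), (nat_lit 5564), (nat_lit 4803), (nat_lit 0), (nat_lit 117522), (nat_lit 916000), [((nat_lit 340), [((nat_lit 37), (nat_lit 5), (nat_lit 229))])], ⟨(nat_lit 6), false, false, true, (nat_lit 258), (nat_lit 3872), (nat_lit 4473), [(nat_lit 1407125), (nat_lit 1414492), (nat_lit 1428674), (nat_lit 1436268), (nat_lit 1866022), (nat_lit 1850057), (nat_lit 1887575), (nat_lit 1871837)]⟩, ⟨(nat_lit 5), false, false, true, (nat_lit 254), (nat_lit 3872), (nat_lit 4473), [(nat_lit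 1385576), (nat_lit 1392716), (nat_lit 1428674), (nat_lit 1436268), (nat_lit 1844461), (nat_lit 1828269), (nat_lit 1887575), (nat_lit 1871837)]⟩, (nat_lit 5535748), (nat_lit 35071179), (nat_lit 16184342), (nat_lit 15744479), (nat_lit 5), (nat_lit 0), [], [], [⟨(nat_lit 0), (nat_lit 100), (nat_lit 99), (nat_lit 45), (nat_lit 169709045)⟩], [],
 ⟨⟨[(nat_lit 40), (nat_lit 80), (nat_lit 100)], [(nat_lit 0), (nat_lit 0), (nat_lit 1280)], [((nat_lit 0), (nat_lit 0), (nat_lit 0)), ((nat_lit 0), (nat_lit 0), (nat_lit 0)), ((nat_lit 1000), (nat_lit 800), (nat_lit 600))], ((nat_lit 81), (nat_lit 100), (nat_lit 48))⟩, (nat_lit 1176831), (nat_lit 107), (nat_lit 107), (nat_lit 0), (nat_lit 0), [(nat_lit 2466658387), (nat_lit 2602733210), (nat_lit 2012186190)], [(nat_lit 0), (nat_lit 0), (nat_lit 0)], [(nat_lit 16213191200), (nat_lit 18072758091), (nat_lit 29904671020), (nat_lit 31156573133), (nat_lit 29904671020), (nat_lit 31156573133), (nat_lit 36234584549), (nat_lit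 36941317617)], (nat_lit 0), (nat_lit 0), (nat_lit 0), (nat_lit 0), (nat_lit 0), (nat_lit 0), [], [(nat_lit 3), (nat_lit 50), (nat_lit 428), (nat_lit 200), (nat_lit 16)]⟩,
 ⟨⟨[(nat_lit 80), (nat_lit 120), (nat_lit 140)], [(nat_lit 0), (nat_lit 0), (nat_lit 1164)], [((nat_lit 0), (nat_lit 0), (nat_lit 0)), ((nat_lit 0), (nat_lit 0), (nat_lit 0)), ((nat_lit 941), (nat_lit 1000), (nat_lit 576))], ((nat_lit 100), (nat_lit 98), (nat_lit 48))⟩, (nat_lit 3516694), (nat_lit 490), (nat_lit 490), (nat_lit 0), (nat_lit 594059), [(nat_lit 3614448000), (nat_lit 6143328000), (nat_lit 7588182000)], [], [(nat_lit 27817257160), (nat_lit 28376497104), (nat_lit 43359703844), (nat_lit 40880245649), (nat_lit 26472864804), (nat_lit 25853247628), (nat_lit 48371557236), (nat_lit 45983092697)], (nat_lit 1271251), (nat_lit 1271251), (nat_lit 780000), (nat_lit 2990626), (nat_lit 0), (nat_lit 780000), [(nat_lit 1100000), (nat_lit 1785001), (nat_lit 1271251)], [(nat_lit 17),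 (nat_lit 58), (nat_lit 428), (nat_lit 200), (nat_lit 12)]⟩,
 ⟨⟨[(nat_lit 100), (nat_lit 120), (nat_lit 140)], [(nat_lit 0), (nat_lit 254), (nat_lit 778)], [((nat_lit 0), (nat_lit 0), (nat_lit 0)), ((nat_lit 1000), (nat_lit 1000), (nat_lit 198)), ((nat_lit 960), (nat_lit 1000), (nat_lit 392))], ((nat_lit 100), (nat_lit 93), (nat_lit 48))⟩, (nat_lit 1383484), (nat_lit 300), (nat_lit 516), (nat_lit 34875000), (nat_lit 649411), [(nat_lit 3487500000), (nat_lit 4446144000), (nat_lit 5491836000)], [], [(nat_lit 22973283545), (nat_lit 23360171486), (nat_lit 24941664328), (nat_lit 25037756079), (nat_lit 20238052321), (nat_lit 20561426075), (nat_lit 27990286225), (nat_lit 23595670305)], (nat_lit 1271251), (nat_lit 1271251), (nat_lit 780000), (nat_lit 2990626), (nat_lit 0), (nat_lit 780000), [(nat_lit 1412501), (nat_lit 1271251), (nat_lit 1271251)], [(nat_lit 22), (nat_lit 58), (nat_lit 428), (nat_lit 200), (nat_lit 13)]⟩⟩) (.leaf ⟨(nat_lit 0), (nat_lit 0),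 (nat_lit 0), (nat_lit 1000), (nat_lit 0), (nat_lit 6883), (nat_lit 4782), (nat_lit 5045), (nat_lit 0), (nat_lit 1598), (nat_lit 0), [], Pd.none, Pd.none, (nat_lit 0), (nat_lit 1), (nat_lit 0), (nat_lit 0), (nat_lit 0), (nat_lit 0), [], [], [], [],
 ⟨⟨[(nat_lit 40), (nat_lit 80), (nat_lit 100)], [(nat_lit 0), (nat_lit 0), (nat_lit 1280)], [((nat_lit 0), (nat_lit 0), (nat_lit 0)), ((nat_lit 0), (nat_lit 0), (nat_lit 0)), ((nat_lit 1000), (nat_lit 800), (nat_lit 600))], ((nat_lit 81), (nat_lit 100), (nat_lit 48))⟩, (nat_lit 3179575), (nat_lit 107), (nat_lit 107), (nat_lit 0), (nat_lit 0), [(nat_lit 3192867032), (nat_lit 4688000001), (nat_lit 6250000000)], [], [(nat_lit 16681942741), (nat_lit 19105614502), (nat_lit 32469697018), (nat_lit 33945491955), (nat_lit 32469697018), (nat_lit 33945491955), (nat_lit 38723676436), (nat_lit 39504601816)], (nat_lit 0), (nat_lit 0), (nat_lit 0), (nat_lit 0), (nat_lit 0), (nat_lit 0), [], [(nat_lit 3), (nat_lit 50),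 (nat_lit 428), (nat_lit 200), (nat_lit 16)]⟩,
 ⟨⟨[(nat_lit 80), (nat_lit 120), (nat_lit 140)], [(nat_lit 0), (nat_lit 0), (nat_lit 1164)], [((nat_lit 0), (nat_lit 0), (nat_lit 0)), ((nat_lit 0), (nat_lit 0), (nat_lit 0)), ((nat_lit 941), (nat_lit 1000), (nat_lit 576))], ((nat_lit 100), (nat_lit 98), (nat_lit 48))⟩, (nat_lit 3995075), (nat_lit 375), (nat_lit 375), (nat_lit 0), (nat_lit 594059), [(nat_lit 4688000000), (nat_lit 7968000000), (nat_lit 9842000000)], [], [(nat_lit 37058939798), (nat_lit 37356649195), (nat_lit 43278220983), (nat_lit 43662019676), (nat_lit 58033516424), (nat_lit 55881704891), (nat_lit 46685053605), (nat_lit 46866247658)], (nat_lit 1271251), (nat_lit 1271251), (nat_lit 1271251), (nat_lit 1271251), (nat_lit 780000), (nat_lit 3072501), [(nat_lit 1100000), (nat_lit 1785001), (nat_lit 1271251)], [(nat_lit 17), (nat_lit 58), (nat_lit 538), (nat_lit 300), (nat_lit 15)]⟩,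
 ⟨⟨[(nat_lit 100), (nat_lit 120), (nat_lit 140)], [(nat_lit 0), (nat_lit 254), (nat_lit 778)], [((nat_lit 0), (nat_lit 0), (nat_lit 0)), ((nat_lit 1000), (nat_lit 1000), (nat_lit 198)), ((nat_lit 960), (nat_lit 1000), (nat_lit 392))], ((nat_lit 100), (nat_lit 93), (nat_lit 48))⟩, (nat_lit 2344399), (nat_lit 300), (nat_lit 426), (nat_lit 62500000), (nat_lit 649411), [(nat_lit 6250000000), (nat_lit 7968000000), (nat_lit 9842000000)], [], [(nat_lit 43523968731), (nat_lit 44398861218), (nat_lit 48497050141), (nat_lit 48861730925), (nat_lit 59488469610), (nat_lit 54887916453), (nat_lit 50683760967), (nat_lit 50732266866)], (nat_lit 1271251), (nat_lit 1271251), (nat_lit 1271251), (nat_lit 1271251), (nat_lit 780000), (nat_lit 3072501), [(nat_lit 1412501), (nat_lit 1271251), (nat_lit 1271251)], [(nat_lit 22), (nat_lit 58), (nat_lit 538), (nat_lit 300), (nat_lit 15)]⟩⟩))))) (.trZ (nat_lit 1) (nat_lit 2) (nat_lit 5) (nat_lit 100) (nat_lit 96) (nat_lit 40)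 (nat_lit 10) (.leaf ⟨(nat_lit 0), (nat_lit 492), (nat_lit 0), (nat_lit 508), (nat_lit 0), (nat_lit 5341), (nat_lit 3885), (nat_lit 4717), (nat_lit 0), (nat_lit 7891), (nat_lit 0), [], Pd.none, Pd.none, (nat_lit 0), (nat_lit 1), (nat_lit 0), (nat_lit 0), (nat_lit 5), (nat_lit 0), [], [], [⟨(nat_lit 0), (nat_lit 100), (nat_lit 97), (nat_lit 59), (nat_lit 39938029)⟩], [],
 ⟨⟨[(nat_lit 40), (nat_lit 80), (nat_lit 100)], [(nat_lit 0), (nat_lit 0), (nat_lit 1280)], [((nat_lit 0), (nat_lit 0), (nat_lit 0)), ((nat_lit 0), (nat_lit 0), (nat_lit 0)), ((nat_lit 1000), (nat_lit 800), (nat_lit 600))], ((nat_lit 81), (nat_lit 100), (nat_lit 48))⟩, (nat_lit 2152195), (nat_lit 110), (nat_lit 110), (nat_lit 0), (nat_lit 0), [(nat_lit 2432094426), (nat_lit 4688000002), (nat_lit 6250000000)], [], [(nat_lit 18089807751), (nat_lit 19998992634), (nat_lit 31255636178), (nat_lit 32333739593), (nat_lit 31255636178), (nat_lit 32333739593), (nat_lit 37479368344), (nat_lit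 38150682593)], (nat_lit 0), (nat_lit 0), (nat_lit 0), (nat_lit 0), (nat_lit 0), (nat_lit 0), [], [(nat_lit 3), (nat_lit 50), (nat_lit 428), (nat_lit 200), (nat_lit 16)]⟩,
 ⟨⟨[(nat_lit 80), (nat_lit 100), (nat_lit 120)], [(nat_lit 0), (nat_lit 265), (nat_lit 768)], [((nat_lit 0), (nat_lit 0), (nat_lit 0)), ((nat_lit 1000), (nat_lit 959), (nat_lit 206)), ((nat_lit 1000), (nat_lit 958), (nat_lit 392))], ((nat_lit 97), (nat_lit 100), (nat_lit 48))⟩, (nat_lit 8008909), (nat_lit 425), (nat_lit 425), (nat_lit 0), (nat_lit 639079), [(nat_lit 4688000000), (nat_lit 6250000000), (nat_lit 7968000000)], [], [(nat_lit 36403129419), (nat_lit 36593510715), (nat_lit 43238643603), (nat_lit 43701877863), (nat_lit 42367497893), (nat_lit 42680482770), (nat_lit 46233044030), (nat_lit 46467920580)], (nat_lit 1271251), (nat_lit 1271251), (nat_lit 1271251), (nat_lit 1271251), (nat_lit 54688), (nat_lit 2845626), [(nat_lit 1100000), (nat_lit 1442501), (nat_lit 1271251)], [(nat_lit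 16), (nat_lit 54), (nat_lit 428), (nat_lit 200), (nat_lit 14)]⟩,
 ⟨⟨[(nat_lit 100), (nat_lit 120), (nat_lit 140)], [(nat_lit 0), (nat_lit 254), (nat_lit 778)], [((nat_lit 0), (nat_lit 0), (nat_lit 0)), ((nat_lit 1000), (nat_lit 1000), (nat_lit 198)), ((nat_lit 960), (nat_lit 1000), (nat_lit 392))], ((nat_lit 100), (nat_lit 93), (nat_lit 48))⟩, (nat_lit 936000), (nat_lit 300), (nat_lit 581), (nat_lit 31750000), (nat_lit 770408), [(nat_lit 3175000000), (nat_lit 4047744000), (nat_lit 4999736000)], [], [(nat_lit 21050743747), (nat_lit 21442404029), (nat_lit 22151023217), (nat_lit 22130319000), (nat_lit 31946600766), (nat_lit 25522589221), (nat_lit 21146445665), (nat_lit 21496475688)], (nat_lit 1271251), (nat_lit 1271251), (nat_lit 1271251), (nat_lit 1271251), (nat_lit 54688), (nat_lit 2845626), [(nat_lit 1412501), (nat_lit 1271251), (nat_lit 1271251)], [(nat_lit 22), (nat_lit 58), (nat_lit 538), (nat_lit 300), (nat_lit 16)]⟩⟩))) (.spl (nat_lit 0) (nat_lit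 330) (.leaf ⟨(nat_lit 0), (nat_lit 209), (nat_lit 0), (nat_lit 791), (nat_lit 18555), (nat_lit 13485), (nat_lit 3217), (nat_lit 7605), (nat_lit 0), (nat_lit 186538), (nat_lit 0), [], Pd.none, Pd.none, (nat_lit 0), (nat_lit 1), (nat_lit 0), (nat_lit 0), (nat_lit 5), (nat_lit 0), [], [], [⟨(nat_lit 0), (nat_lit 100), (nat_lit 99), (nat_lit 55), (nat_lit 176992471)⟩], [],
 ⟨⟨[(nat_lit 40), (nat_lit 80), (nat_lit 120)], [(nat_lit 0), (nat_lit 0), (nat_lit 2151)], [((nat_lit 0), (nat_lit 0), (nat_lit 0)), ((nat_lit 0), (nat_lit 0), (nat_lit 0)), ((nat_lit 1000), (nat_lit 815), (nat_lit 753))], ((nat_lit 80), (nat_lit 100), (nat_lit 63))⟩, (nat_lit 136506), (nat_lit 124), (nat_lit 124), (nat_lit 0), (nat_lit 0), [(nat_lit 5121886818), (nat_lit 8982623267), (nat_lit 7968000000)], [], [(nat_lit 18748805134), (nat_lit 20429977041), (nat_lit 43293950320), (nat_lit 44388207224), (nat_lit 43293950320), (nat_lit 44388207224), (nat_lit 49156105240), (nat_lit 49630165573)],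 (nat_lit 0), (nat_lit 0), (nat_lit 0), (nat_lit 0), (nat_lit 0), (nat_lit 0), [], [(nat_lit 4), (nat_lit 51), (nat_lit 428), (nat_lit 200), (nat_lit 13)]⟩,
 ⟨⟨[(nat_lit 80), (nat_lit 120), (nat_lit 160)], [(nat_lit 0), (nat_lit 0), (nat_lit 2132)], [((nat_lit 0), (nat_lit 0), (nat_lit 0)), ((nat_lit 0), (nat_lit 0), (nat_lit 0)), ((nat_lit 858), (nat_lit 1000), (nat_lit 713))], ((nat_lit 100), (nat_lit 91), (nat_lit 64))⟩, (nat_lit 3251778), (nat_lit 377), (nat_lit 377), (nat_lit 0), (nat_lit 231248), [(nat_lit 4688000000), (nat_lit 7968000000), (nat_lit 11872000000)], [], [(nat_lit 37760518722), (nat_lit 39141893001), (nat_lit 46025384192), (nat_lit 46963509268), (nat_lit 52124682034), (nat_lit 49302304990), (nat_lit 49382482008), (nat_lit 49893188276)], (nat_lit 1271251), (nat_lit 1271251), (nat_lit 1271251), (nat_lit 1271251), (nat_lit 0), (nat_lit 2825001), [(nat_lit 1100000), (nat_lit 1785001), (nat_lit 1271251)], [(nat_lit 18), (nat_lit 59),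 (nat_lit 538), (nat_lit 300), (nat_lit 14)]⟩,
 ⟨⟨[(nat_lit 100), (nat_lit 140), (nat_lit 160)], [(nat_lit 0), (nat_lit 508), (nat_lit 1689)], [((nat_lit 0), (nat_lit 0), (nat_lit 0)), ((nat_lit 1000), (nat_lit 1000), (nat_lit 198)), ((nat_lit 811), (nat_lit 1000), (nat_lit 671))], ((nat_lit 100), (nat_lit 84), (nat_lit 63))⟩, (nat_lit 1700339), (nat_lit 300), (nat_lit 391), (nat_lit 49437500), (nat_lit 240647), [(nat_lit 4943750000), (nat_lit 7785022000), (nat_lit 9390752000)], [], [(nat_lit 33368522734), (nat_lit 34747195626), (nat_lit 38176945373), (nat_lit 38531595446), (nat_lit 49596161550), (nat_lit 39239026125), (nat_lit 33321335595), (nat_lit 33847941772)], (nat_lit 1271251), (nat_lit 1271251), (nat_lit 1271251), (nat_lit 1271251), (nat_lit 0), (nat_lit 2825001), [(nat_lit 1412501), (nat_lit 1271251), (nat_lit 1271251)], [(nat_lit 23), (nat_lit 62), (nat_lit 538), (nat_lit 300), (nat_lit 14)]⟩⟩) (.leaf ⟨(nat_lit 0), (nat_lit 347), (nat_lit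 0), (nat_lit 653), (nat_lit 8693), (nat_lit 9332), (nat_lit 3217), (nat_lit 6479), (nat_lit 0), (nat_lit 18646), (nat_lit 0), [], Pd.none, Pd.none, (nat_lit 0), (nat_lit 1), (nat_lit 0), (nat_lit 0), (nat_lit 5), (nat_lit 0), [], [], [⟨(nat_lit 0), (nat_lit 100), (nat_lit 99), (nat_lit 55), (nat_lit 73245469)⟩], [],
 ⟨⟨[(nat_lit 40), (nat_lit 80), (nat_lit 100)], [(nat_lit 0), (nat_lit 395), (nat_lit 1536)], [((nat_lit 0), (nat_lit 0), (nat_lit 0)), ((nat_lit 1000), (nat_lit 908), (nat_lit 154)), ((nat_lit 1000), (nat_lit 760), (nat_lit 642))], ((nat_lit 76), (nat_lit 100), (nat_lit 63))⟩, (nat_lit 21036), (nat_lit 110), (nat_lit 110), (nat_lit 0), (nat_lit 0), [(nat_lit 4110206190), (nat_lit 6515780902), (nat_lit 6250000000)], [], [(nat_lit 19106399245), (nat_lit 20499518679), (nat_lit 37924782231), (nat_lit 38777273278), (nat_lit 37924782231), (nat_lit 38777273278), (nat_lit 43605082462), (nat_lit 44008564636)], (nat_lit 0), (nat_lit 0), (nat_lit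 0), (nat_lit 0), (nat_lit 0), (nat_lit 0), [], [(nat_lit 3), (nat_lit 50), (nat_lit 428), (nat_lit 200), (nat_lit 16)]⟩,
 ⟨⟨[(nat_lit 80), (nat_lit 120), (nat_lit 160)], [(nat_lit 0), (nat_lit 0), (nat_lit 2132)], [((nat_lit 0), (nat_lit 0), (nat_lit 0)), ((nat_lit 0), (nat_lit 0), (nat_lit 0)), ((nat_lit 858), (nat_lit 1000), (nat_lit 713))], ((nat_lit 100), (nat_lit 91), (nat_lit 64))⟩, (nat_lit 3251778), (nat_lit 403), (nat_lit 403), (nat_lit 0), (nat_lit 296601), [(nat_lit 4688000000), (nat_lit 7968000000), (nat_lit 11872000000)], [], [(nat_lit 37760518722), (nat_lit 39141893001), (nat_lit 46025384192), (nat_lit 46963509268), (nat_lit 52124682034), (nat_lit 49302304990), (nat_lit 49382482008), (nat_lit 49893188276)], (nat_lit 1271251), (nat_lit 1271251), (nat_lit 1271251), (nat_lit 1271251), (nat_lit 0), (nat_lit 2825001), [(nat_lit 1100000), (nat_lit 1785001), (nat_lit 1271251)], [(nat_lit 18), (nat_lit 59), (nat_lit 538), (nat_lit 300), (nat_lit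 14)]⟩,
 ⟨⟨[(nat_lit 100), (nat_lit 140), (nat_lit 160)], [(nat_lit 0), (nat_lit 508), (nat_lit 1689)], [((nat_lit 0), (nat_lit 0), (nat_lit 0)), ((nat_lit 1000), (nat_lit 1000), (nat_lit 198)), ((nat_lit 811), (nat_lit 1000), (nat_lit 671))], ((nat_lit 100), (nat_lit 84), (nat_lit 63))⟩, (nat_lit 1403693), (nat_lit 300), (nat_lit 422), (nat_lit 40812500), (nat_lit 307111), [(nat_lit 4081250000), (nat_lit 6426826000), (nat_lit 7752416000)], [], [(nat_lit 27749091699), (nat_lit 28728780826), (nat_lit 31454459479), (nat_lit 31730927666), (nat_lit 41347600362), (nat_lit 32523947447), (nat_lit 27812394145), (nat_lit 28232913540)], (nat_lit 1271251), (nat_lit 1271251), (nat_lit 1271251), (nat_lit 1271251), (nat_lit 0), (nat_lit 2825001), [(nat_lit 1412501), (nat_lit 1271251), (nat_lit 1271251)], [(nat_lit 23), (nat_lit 62), (nat_lit 538), (nat_lit 300), (nat_lit 14)]⟩⟩)))) (.trZ (nat_lit 1) (nat_lit 2) (nat_lit 5) (nat_lit 100) (nat_lit 92) (nat_lit 49)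 (nat_lit 20) (.spl (nat_lit 1) (nat_lit 300) (.ord (.leaf ⟨(nat_lit 136), (nat_lit 395), (nat_lit 0), (nat_lit 469), (nat_lit 0), (nat_lit 5241), (nat_lit 5261), (nat_lit 4331), (nat_lit 0), (nat_lit 4014), (nat_lit 544000), [((nat_lit 340), [((nat_lit 37), (nat_lit 5), (nat_lit 136))])], ⟨(nat_lit 7), false, false, false, (nat_lit 279), (nat_lit 3872), (nat_lit 4473), [(nat_lit 1450223), (nat_lit 1458043), (nat_lit 1471772), (nat_lit 1479819), (nat_lit 1926124), (nat_lit 1909748), (nat_lit 1947674), (nat_lit 1931525)]⟩, ⟨(nat_lit 5), false, false, true, (nat_lit 266), (nat_lit 3872), (nat_lit 4473), [(nat_lit 1385576), (nat_lit 1392716), (nat_lit 1471772), (nat_lit 1479819), (nat_lit 1861456), (nat_lit 1844400), (nat_lit 1947674), (nat_lit 1931525)]⟩, (nat_lit 5649812), (nat_lit 33198574), (nat_lit 17561463), (nat_lit 16239963), (nat_lit 5), (nat_lit 0), [⟨(nat_lit 0), (nat_lit 97), (nat_lit 82), (nat_lit 100), (nat_lit 193752564)⟩], [], [], [],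
 ⟨⟨[(nat_lit 40), (nat_lit 80), (nat_lit 120)], [(nat_lit 0), (nat_lit 0), (nat_lit 2151)], [((nat_lit 0), (nat_lit 0), (nat_lit 0)), ((nat_lit 0), (nat_lit 0), (nat_lit 0)), ((nat_lit 1000), (nat_lit 815), (nat_lit 753))], ((nat_lit 80), (nat_lit 100), (nat_lit 63))⟩, (nat_lit 1831017), (nat_lit 127), (nat_lit 127), (nat_lit 0), (nat_lit 0), [(nat_lit 2425811079), (nat_lit 3381910407), (nat_lit 4188207979)], [(nat_lit 0), (nat_lit 0), (nat_lit 0)], [(nat_lit 16722654387), (nat_lit 18750839364), (nat_lit 30943514992), (nat_lit 32172184002), (nat_lit 30943514992), (nat_lit 32172184002), (nat_lit 37335989944), (nat_lit 38003905293)], (nat_lit 0), (nat_lit 0), (nat_lit 0), (nat_lit 0), (nat_lit 0), (nat_lit 0), [], [(nat_lit 4), (nat_lit 51), (nat_lit 428), (nat_lit 200), (nat_lit 13)]⟩,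
 ⟨⟨[(nat_lit 60), (nat_lit 100), (nat_lit 140)], [(nat_lit 0), (nat_lit 0), (nat_lit 2047)], [((nat_lit 0), (nat_lit 0), (nat_lit 0)), ((nat_lit 0), (nat_lit 0), (nat_lit 0)), ((nat_lit 1000), (nat_lit 993), (nat_lit 781))], ((nat_lit 95), (nat_lit 100), (nat_lit 65))⟩, (nat_lit 2357336), (nat_lit 505), (nat_lit 505), (nat_lit 0), (nat_lit 689160), [(nat_lit 2835648000), (nat_lit 5400000000), (nat_lit 8503488000)], [], [(nat_lit 30857202165), (nat_lit 30935289486), (nat_lit 35907947781), (nat_lit 36264726940), (nat_lit 42991269093), (nat_lit 40623916422), (nat_lit 35838884210), (nat_lit 35956135219)], (nat_lit 1271251), (nat_lit 1271251), (nat_lit 1271251), (nat_lit 1271251), (nat_lit 111251), (nat_lit 2866250), [(nat_lit 780000), (nat_lit 1435001), (nat_lit 1271251)], [(nat_lit 11), (nat_lit 55), (nat_lit 428), (nat_lit 200), (nat_lit 12)]⟩,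
 ⟨⟨[(nat_lit 100), (nat_lit 140), (nat_lit 160)], [(nat_lit 0), (nat_lit 508), (nat_lit 1689)], [((nat_lit 0), (nat_lit 0), (nat_lit 0)), ((nat_lit 1000), (nat_lit 1000), (nat_lit 198)), ((nat_lit 811), (nat_lit 1000), (nat_lit 671))], ((nat_lit 100), (nat_lit 84), (nat_lit 63))⟩, (nat_lit 1008165), (nat_lit 300), (nat_lit 724), (nat_lit 29312502), (nat_lit 925755), [(nat_lit 2931250000), (nat_lit 4615898000), (nat_lit 5567968000)], [], [(nat_lit 23421317591), (nat_lit 23391617145), (nat_lit 22951703436), (nat_lit 22628182537), (nat_lit 29839980738), (nat_lit 21992786927), (nat_lit 19486814845), (nat_lit 20003838610)], (nat_lit 1271251), (nat_lit 1271251), (nat_lit 1271251), (nat_lit 1271251), (nat_lit 111251), (nat_lit 2866250), [(nat_lit 1412501), (nat_lit 1271251), (nat_lit 1271251)], [(nat_lit 23), (nat_lit 62), (nat_lit 538), (nat_lit 300), (nat_lit 14)]⟩⟩)) (.trZ (nat_lit 1) (nat_lit 2) (nat_lit 5) (nat_lit 100) (nat_lit 87) (nat_lit 59) (nat_lit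 30) (.leaf ⟨(nat_lit 0), (nat_lit 448), (nat_lit 0), (nat_lit 552), (nat_lit 0), (nat_lit 5341), (nat_lit 4869), (nat_lit 4501), (nat_lit 0), (nat_lit 197524), (nat_lit 0), [], Pd.none, Pd.none, (nat_lit 0), (nat_lit 1), (nat_lit 0), (nat_lit 0), (nat_lit 5), (nat_lit 0), [], [], [], [],
 ⟨⟨[(nat_lit 40), (nat_lit 80), (nat_lit 120)], [(nat_lit 0), (nat_lit 0), (nat_lit 2151)], [((nat_lit 0), (nat_lit 0), (nat_lit 0)), ((nat_lit 0), (nat_lit 0), (nat_lit 0)), ((nat_lit 1000), (nat_lit 815), (nat_lit 753))], ((nat_lit 80), (nat_lit 100), (nat_lit 63))⟩, (nat_lit 2852055), (nat_lit 127), (nat_lit 127), (nat_lit 0), (nat_lit 0), [(nat_lit 2289158885), (nat_lit 4688000103), (nat_lit 7968000000)], [], [(nat_lit 18240643619), (nat_lit 19998992735), (nat_lit 31255636279), (nat_lit 32333739694), (nat_lit 31255636279), (nat_lit 32333739694), (nat_lit 37479368344), (nat_lit 38150682593)], (nat_lit 0), (nat_lit 0), (nat_lit 0), (nat_lit 0), (nat_lit 0), (nat_lit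 0), [], [(nat_lit 4), (nat_lit 51), (nat_lit 428), (nat_lit 200), (nat_lit 13)]⟩,
 ⟨⟨[(nat_lit 60), (nat_lit 100), (nat_lit 120)], [(nat_lit 0), (nat_lit 609), (nat_lit 1609)], [((nat_lit 0), (nat_lit 0), (nat_lit 0)), ((nat_lit 1000), (nat_lit 905), (nat_lit 238)), ((nat_lit 1000), (nat_lit 882), (nat_lit 668))], ((nat_lit 88), (nat_lit 100), (nat_lit 63))⟩, (nat_lit 5136698), (nat_lit 451), (nat_lit 451), (nat_lit 0), (nat_lit 726524), [(nat_lit 3282000000), (nat_lit 6250000000), (nat_lit 7968000000)], [], [(nat_lit 27503294500), (nat_lit 27586349139), (nat_lit 34762279400), (nat_lit 35256968553), (nat_lit 33613793823), (nat_lit 34064596508), (nat_lit 56055952976), (nat_lit 54069585998)], (nat_lit 1271251), (nat_lit 1271251), (nat_lit 780000), (nat_lit 3072501), (nat_lit 169688), (nat_lit 2886876), [(nat_lit 780000), (nat_lit 1435001), (nat_lit 1271251)], [(nat_lit 10), (nat_lit 54), (nat_lit 428), (nat_lit 200), (nat_lit 14)]⟩,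
 ⟨⟨[(nat_lit 100), (nat_lit 140), (nat_lit 160)], [(nat_lit 0), (nat_lit 508), (nat_lit 1689)], [((nat_lit 0), (nat_lit 0), (nat_lit 0)), ((nat_lit 1000), (nat_lit 1000), (nat_lit 198)), ((nat_lit 811), (nat_lit 1000), (nat_lit 671))], ((nat_lit 100), (nat_lit 84), (nat_lit 63))⟩, (nat_lit 1186583), (nat_lit 300), (nat_lit 799), (nat_lit 34500000), (nat_lit 1087505), [(nat_lit 3450000000), (nat_lit 5432784000), (nat_lit 6553344000)], [], [(nat_lit 30772815537), (nat_lit 30646547590), (nat_lit 29806387926), (nat_lit 29268931734), (nat_lit 34238824278), (nat_lit 27251738293), (nat_lit 25840215625), (nat_lit 25037024645)], (nat_lit 1271251), (nat_lit 1271251), (nat_lit 1271251), (nat_lit 1271251), (nat_lit 169688), (nat_lit 2886876), [(nat_lit 1412501), (nat_lit 1271251), (nat_lit 1271251)], [(nat_lit 23), (nat_lit 62), (nat_lit 538), (nat_lit 300), (nat_lit 14)]⟩⟩)))))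
noncomputable def c11_93 : Tr Lf :=
 (.spl (nat_lit 5) (nat_lit 120) (.spl (nat_lit 0) (nat_lit 330) (.leaf ⟨(nat_lit 0), (nat_lit 186), (nat_lit 0), (nat_lit 814), (nat_lit 1394), (nat_lit 10885), (nat_lit 7750), (nat_lit 8287), (nat_lit 0), (nat_lit 1236038), (nat_lit 0), [], Pd.none, Pd.none, (nat_lit 0), (nat_lit 1), (nat_lit 0), (nat_lit 0), (nat_lit 5), (nat_lit 0), [], [], [⟨(nat_lit 0), (nat_lit 100), (nat_lit 98), (nat_lit 30), (nat_lit 339393856)⟩], [],
 ⟨⟨[(nat_lit 40), (nat_lit 80), (nat_lit 120)], [(nat_lit 0), (nat_lit 0), (nat_lit 2151)], [((nat_lit 0), (nat_lit 0), (nat_lit 0)), ((nat_lit 0), (nat_lit 0), (nat_lit 0)), ((nat_lit 1000), (nat_lit 815), (nat_lit 753))], ((nat_lit 80), (nat_lit 100), (nat_lit 63))⟩, (nat_lit 211778), (nat_lit 200), (nat_lit 200), (nat_lit 0), (nat_lit 280068), [(nat_lit 2032000356), (nat_lit 4688000594), (nat_lit 7968000000)], [], [(nat_lit 20627826185), (nat_lit 21714560276), (nat_lit 39398859120), (nat_lit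 40341757674), (nat_lit 42893389698), (nat_lit 40444365385), (nat_lit 45428266840), (nat_lit 45858141473)], (nat_lit 1271251), (nat_lit 1271251), (nat_lit 1271251), (nat_lit 1271251), (nat_lit 780000), (nat_lit 3072501), [(nat_lit 490000), (nat_lit 1100000), (nat_lit 1785001)], [(nat_lit 4), (nat_lit 51), (nat_lit 428), (nat_lit 200), (nat_lit 13)]⟩,
 ⟨⟨[(nat_lit 80), (nat_lit 120), (nat_lit 160)], [(nat_lit 0), (nat_lit 0), (nat_lit 2132)], [((nat_lit 0), (nat_lit 0), (nat_lit 0)), ((nat_lit 0), (nat_lit 0), (nat_lit 0)), ((nat_lit 858), (nat_lit 1000), (nat_lit 713))], ((nat_lit 100), (nat_lit 91), (nat_lit 64))⟩, (nat_lit 377826), (nat_lit 423), (nat_lit 423), (nat_lit 0), (nat_lit 338536), [(nat_lit 4688000000), (nat_lit 7968000000), (nat_lit 11872000000)], [], [(nat_lit 36332497468), (nat_lit 40834591968), (nat_lit 57916199000), (nat_lit 47993557968), (nat_lit 33718337750), (nat_lit 35636462468), (nat_lit 64732871500), (nat_lit 51467072500)],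 (nat_lit 1271251), (nat_lit 1271251), (nat_lit 780000), (nat_lit 3072501), (nat_lit 0), (nat_lit 780000), [(nat_lit 1100000), (nat_lit 1785001), (nat_lit 1271251)], [(nat_lit 18), (nat_lit 59), (nat_lit 456), (nat_lit 225), (nat_lit 12)]⟩,
 ⟨⟨[(nat_lit 100), (nat_lit 140), (nat_lit 160)], [(nat_lit 0), (nat_lit 508), (nat_lit 1689)], [((nat_lit 0), (nat_lit 0), (nat_lit 0)), ((nat_lit 1000), (nat_lit 1000), (nat_lit 198)), ((nat_lit 811), (nat_lit 1000), (nat_lit 671))], ((nat_lit 100), (nat_lit 84), (nat_lit 63))⟩, (nat_lit 1749780), (nat_lit 300), (nat_lit 455), (nat_lit 50875000), (nat_lit 373946), [(nat_lit 5087500000), (nat_lit 8011388000), (nat_lit 9663808000)], [], [(nat_lit 34802871571), (nat_lit 36718874791), (nat_lit 39144637877), (nat_lit 40501776552), (nat_lit 29186183704), (nat_lit 30816084010), (nat_lit 43092334282), (nat_lit 33030025542)], (nat_lit 1271251), (nat_lit 1271251), (nat_lit 780000), (nat_lit 3072501), (nat_lit 0), (nat_lit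 780000), [(nat_lit 1412501), (nat_lit 1271251), (nat_lit 1271251)], [(nat_lit 23), (nat_lit 62), (nat_lit 456), (nat_lit 225), (nat_lit 12)]⟩⟩) (.leaf ⟨(nat_lit 0), (nat_lit 219), (nat_lit 0), (nat_lit 781), (nat_lit 0), (nat_lit 8747), (nat_lit 7532), (nat_lit 8854), (nat_lit 0), (nat_lit 54539), (nat_lit 0), [], Pd.none, Pd.none, (nat_lit 0), (nat_lit 1), (nat_lit 0), (nat_lit 0), (nat_lit 5), (nat_lit 0), [], [], [⟨(nat_lit 0), (nat_lit 100), (nat_lit 98), (nat_lit 30), (nat_lit 27036004)⟩], [],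
 ⟨⟨[(nat_lit 40), (nat_lit 80), (nat_lit 100)], [(nat_lit 0), (nat_lit 395), (nat_lit 1536)], [((nat_lit 0), (nat_lit 0), (nat_lit 0)), ((nat_lit 1000), (nat_lit 908), (nat_lit 154)), ((nat_lit 1000), (nat_lit 760), (nat_lit 642))], ((nat_lit 76), (nat_lit 100), (nat_lit 63))⟩, (nat_lit 449439), (nat_lit 197), (nat_lit 197), (nat_lit 0), (nat_lit 282598), [(nat_lit 2032000010), (nat_lit 4688000010), (nat_lit 6250000000)], [], [(nat_lit 19418467170), (nat_lit 20166797026), (nat_lit 37014331083), (nat_lit 37832766501), (nat_lit 37014331083), (nat_lit 37832766501), (nat_lit 49150216845), (nat_lit 47323558967)], (nat_lit 1271251), (nat_lit 1271251), (nat_lit 780000), (nat_lit 3072501), (nat_lit 780000), (nat_lit 3072501), [(nat_lit 490000), (nat_lit 1100000), (nat_lit 1442501)], [(nat_lit 3), (nat_lit 50), (nat_lit 428), (nat_lit 200), (nat_lit 16)]⟩,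
 ⟨⟨[(nat_lit 80), (nat_lit 120), (nat_lit 160)], [(nat_lit 0), (nat_lit 0), (nat_lit 2132)], [((nat_lit 0), (nat_lit 0), (nat_lit 0)), ((nat_lit 0), (nat_lit 0), (nat_lit 0)), ((nat_lit 858), (nat_lit 1000), (nat_lit 713))], ((nat_lit 100), (nat_lit 91), (nat_lit 64))⟩, (nat_lit 697791), (nat_lit 433), (nat_lit 433), (nat_lit 0), (nat_lit 365417), [(nat_lit 4688000000), (nat_lit 7968000000), (nat_lit 11872000000)], [], [(nat_lit 36229070160), (nat_lit 40245938996), (nat_lit 57658054736), (nat_lit 47232926596), (nat_lit 33970675148), (nat_lit 35285142332), (nat_lit 64370743416), (nat_lit 51478098504)], (nat_lit 1271251), (nat_lit 1271251), (nat_lit 780000), (nat_lit 3072501), (nat_lit 0), (nat_lit 780000), [(nat_lit 1100000), (nat_lit 1785001), (nat_lit 1271251)], [(nat_lit 18), (nat_lit 59), (nat_lit 456), (nat_lit 225), (nat_lit 12)]⟩,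
 ⟨⟨[(nat_lit 100), (nat_lit 140), (nat_lit 160)], [(nat_lit 0), (nat_lit 508), (nat_lit 1689)], [((nat_lit 0), (nat_lit 0), (nat_lit 0)), ((nat_lit 1000), (nat_lit 1000), (nat_lit 198)), ((nat_lit 811), (nat_lit 1000), (nat_lit 671))], ((nat_lit 100), (nat_lit 84), (nat_lit 63))⟩, (nat_lit 1678843), (nat_lit 300), (nat_lit 494), (nat_lit 48812500), (nat_lit 405209), [(nat_lit 4881250000), (nat_lit 7686602000), (nat_lit 9272032000)], [], [(nat_lit 34301532881), (nat_lit 35686480890), (nat_lit 37278728288), (nat_lit 41386054824), (nat_lit 27987309843), (nat_lit 29126832811), (nat_lit 42282307252), (nat_lit 31299065358)], (nat_lit 1271251), (nat_lit 1271251), (nat_lit 780000), (nat_lit 3072501), (nat_lit 0), (nat_lit 780000), [(nat_lit 1412501), (nat_lit 1271251), (nat_lit 1271251)], [(nat_lit 23), (nat_lit 62), (nat_lit 456), (nat_lit 225), (nat_lit 12)]⟩⟩)) (.leaf ⟨(nat_lit 0), (nat_lit 0), (nat_lit 0), (nat_lit 1000), (nat_lit 514), (nat_lit 12035),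 (nat_lit 4786), (nat_lit 5341), (nat_lit 0), (nat_lit 1871), (nat_lit 0), [], Pd.none, Pd.none, (nat_lit 0), (nat_lit 1), (nat_lit 0), (nat_lit 0), (nat_lit 0), (nat_lit 0), [], [], [], [],
 ⟨⟨[(nat_lit 40), (nat_lit 80), (nat_lit 120)], [(nat_lit 0), (nat_lit 0), (nat_lit 2151)], [((nat_lit 0), (nat_lit 0), (nat_lit 0)), ((nat_lit 0), (nat_lit 0), (nat_lit 0)), ((nat_lit 1000), (nat_lit 815), (nat_lit 753))], ((nat_lit 80), (nat_lit 100), (nat_lit 63))⟩, (nat_lit 478997), (nat_lit 209), (nat_lit 209), (nat_lit 0), (nat_lit 284062), [(nat_lit 2032000002), (nat_lit 4688000002), (nat_lit 7968000000)], [], [(nat_lit 19984182889), (nat_lit 22038345364), (nat_lit 41121687920), (nat_lit 43141378953), (nat_lit 42710443075), (nat_lit 43141378953), (nat_lit 47077118440), (nat_lit 47975955055)], (nat_lit 1271251), (nat_lit 1271251), (nat_lit 1271251), (nat_lit 1271251), (nat_lit 780000), (nat_lit 3072501), [(nat_lit 490000), (nat_lit 1100000), (nat_lit 1785001)],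 [(nat_lit 4), (nat_lit 51), (nat_lit 428), (nat_lit 200), (nat_lit 13)]⟩,
 ⟨⟨[(nat_lit 80), (nat_lit 120), (nat_lit 160)], [(nat_lit 0), (nat_lit 0), (nat_lit 2132)], [((nat_lit 0), (nat_lit 0), (nat_lit 0)), ((nat_lit 0), (nat_lit 0), (nat_lit 0)), ((nat_lit 858), (nat_lit 1000), (nat_lit 713))], ((nat_lit 100), (nat_lit 91), (nat_lit 64))⟩, (nat_lit 1466441), (nat_lit 347), (nat_lit 347), (nat_lit 0), (nat_lit 366441), [(nat_lit 4688000000), (nat_lit 7968000000), (nat_lit 11872000000)], [], [(nat_lit 37060188554), (nat_lit 39841285192), (nat_lit 43743224656), (nat_lit 45155737528), (nat_lit 58044639352), (nat_lit 49430193516), (nat_lit 46711097740), (nat_lit 47339257924)], (nat_lit 1271251), (nat_lit 1271251), (nat_lit 1271251), (nat_lit 1271251), (nat_lit 780000), (nat_lit 3072501), [(nat_lit 1100000), (nat_lit 1785001), (nat_lit 1271251)], [(nat_lit 18), (nat_lit 59), (nat_lit 538), (nat_lit 300), (nat_lit 13)]⟩,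
 ⟨⟨[(nat_lit 100), (nat_lit 140), (nat_lit 160)], [(nat_lit 0), (nat_lit 508), (nat_lit 1689)], [((nat_lit 0), (nat_lit 0), (nat_lit 0)), ((nat_lit 1000), (nat_lit 1000), (nat_lit 198)), ((nat_lit 811), (nat_lit 1000), (nat_lit 671))], ((nat_lit 100), (nat_lit 84), (nat_lit 63))⟩, (nat_lit 562959), (nat_lit 300), (nat_lit 369), (nat_lit 68257265), (nat_lit 406866), [(nat_lit 6250000000), (nat_lit 9842000000), (nat_lit 11872000000)], [], [(nat_lit 44427223712), (nat_lit 47175794277), (nat_lit 50083523014), (nat_lit 51249098660), (nat_lit 60377256378), (nat_lit 51249098660), (nat_lit 52085655114), (nat_lit 52346098166)], (nat_lit 1271251), (nat_lit 1271251), (nat_lit 1271251), (nat_lit 1271251), (nat_lit 780000), (nat_lit 3072501), [(nat_lit 1412501), (nat_lit 1271251), (nat_lit 1271251)], [(nat_lit 23), (nat_lit 62), (nat_lit 538), (nat_lit 300), (nat_lit 14)]⟩⟩))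
noncomputable def c11_94 : Tr Lf :=
 (.spl (nat_lit 1) (nat_lit 280) (.spl (nat_lit 6) (nat_lit 56) (.spl (nat_lit 0) (nat_lit 330) (.dle (nat_lit 0)) (.trZ (nat_lit 0) (nat_lit 1) (nat_lit 3) (nat_lit 100) (nat_lit 78) (nat_lit 81) (nat_lit 70) (.leaf ⟨(nat_lit 1000), (nat_lit 0), (nat_lit 0), (nat_lit 0), (nat_lit 21078), (nat_lit 4501), (nat_lit 0), (nat_lit 0), (nat_lit 0), (nat_lit 0), (nat_lit 250000), [((nat_lit 340), [((nat_lit 19), (nat_lit 0), (nat_lit 1000))])], ⟨(nat_lit 6), false, false, false, (nat_lit 157), (nat_lit 3872), (nat_lit 4184), [(nat_lit 1327983), (nat_lit 1333871), (nat_lit 1371306), (nat_lit 1377448), (nat_lit 1410806), (nat_lit 1414527), (nat_lit 1454130), (nat_lit 1458104)]⟩, ⟨(nat_lit 3), false, false, true, (nat_lit 174), (nat_lit 3872), (nat_lit 4184), [(nat_lit 1280820), (nat_lit 1283782), (nat_lit 1389144), (nat_lit 1392739), (nat_lit 1479587), (nat_lit 1477347), (nat_lit 1587919), (nat_lit 1586312)]⟩, (nat_lit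 4297222), (nat_lit 47622118), (nat_lit 8935330), (nat_lit 10442552), (nat_lit 0), (nat_lit 0), [⟨(nat_lit 0), (nat_lit 99), (nat_lit 77), (nat_lit 100), (nat_lit 723178574)⟩], [], [], [],
 ⟨⟨[(nat_lit 40), (nat_lit 80), (nat_lit 120)], [(nat_lit 0), (nat_lit 395), (nat_lit 2466)], [((nat_lit 0), (nat_lit 0), (nat_lit 0)), ((nat_lit 1000), (nat_lit 908), (nat_lit 154)), ((nat_lit 1000), (nat_lit 773), (nat_lit 792))], ((nat_lit 76), (nat_lit 100), (nat_lit 70))⟩, (nat_lit 0), (nat_lit 133), (nat_lit 133), (nat_lit 0), (nat_lit 45634), [(nat_lit 1849064405), (nat_lit 2170400002), (nat_lit 2931999994)], [(nat_lit 0), (nat_lit 0), (nat_lit 0)], [(nat_lit 16938338831), (nat_lit 17926169386), (nat_lit 17043082273), (nat_lit 17968057764), (nat_lit 20274808016), (nat_lit 21217230105), (nat_lit 20197653652), (nat_lit 20951827660)], (nat_lit 1271251), (nat_lit 1271251), (nat_lit 422188), (nat_lit 780000), (nat_lit 780000), (nat_lit 1762501), [(nat_lit 490000),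 (nat_lit 1100000), (nat_lit 1785001)], [(nat_lit 4), (nat_lit 51), (nat_lit 317), (nat_lit 100), (nat_lit 10)]⟩,
 Rw.none,
 Rw.none⟩))) (.dle (nat_lit 0))) (.trZ (nat_lit 0) (nat_lit 1) (nat_lit 3) (nat_lit 100) (nat_lit 87) (nat_lit 95) (nat_lit 100) (.spl (nat_lit 5) (nat_lit 200) (.spl (nat_lit 0) (nat_lit 330) (.spl (nat_lit 6) (nat_lit 76) (.leaf ⟨(nat_lit 135), (nat_lit 774), (nat_lit 0), (nat_lit 91), (nat_lit 62761), (nat_lit 14203), (nat_lit 11562), (nat_lit 1041), (nat_lit 0), (nat_lit 0), (nat_lit 33750), [((nat_lit 330), [((nat_lit 19), (nat_lit 0), (nat_lit 135))])], ⟨(nat_lit 7), false, false, false, (nat_lit 183), (nat_lit 4183), (nat_lit 4473), [(nat_lit 1416301), (nat_lit 1421009), (nat_lit 1459427), (nat_lit 1464335), (nat_lit 1450291), (nat_lit 1454137), (nat_lit 1493417), (nat_lit 1497463)]⟩, ⟨(nat_lit 3), false, false, true, (nat_lit 174), (nat_lit 4183), (nat_lit 4473), [(nat_lit 1277776), (nat_lit 1280820), (nat_lit 1385603),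 (nat_lit 1389149), (nat_lit 1481711), (nat_lit 1479587), (nat_lit 1589541), (nat_lit 1587919)]⟩, (nat_lit 4545454), (nat_lit 45683245), (nat_lit 11092024), (nat_lit 10224731), (nat_lit 3), (nat_lit 0), [⟨(nat_lit 0), (nat_lit 93), (nat_lit 84), (nat_lit 100), (nat_lit 3623129429)⟩], [], [], [],
 ⟨⟨[(nat_lit 40), (nat_lit 100), (nat_lit 140)], [(nat_lit 0), (nat_lit 0), (nat_lit 3243)], [((nat_lit 0), (nat_lit 0), (nat_lit 0)), ((nat_lit 0), (nat_lit 0), (nat_lit 0)), ((nat_lit 1000), (nat_lit 870), (nat_lit 941))], ((nat_lit 83), (nat_lit 100), (nat_lit 81))⟩, (nat_lit 1874), (nat_lit 165), (nat_lit 165), (nat_lit 0), (nat_lit 141522), [(nat_lit 5986583769), (nat_lit 11726392003), (nat_lit 6893330000)], [(nat_lit 0), (nat_lit 0), (nat_lit 0)], [(nat_lit 21958040540), (nat_lit 23577561717), (nat_lit 21346096361), (nat_lit 22916662987), (nat_lit 23126698534), (nat_lit 24969632456), (nat_lit 22376016427), (nat_lit 24300550869)], (nat_lit 1271251), (nat_lit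 1271251), (nat_lit 631250), (nat_lit 780000), (nat_lit 780000), (nat_lit 1762501), [(nat_lit 490000), (nat_lit 1427501), (nat_lit 1271251)], [(nat_lit 5), (nat_lit 55), (nat_lit 317), (nat_lit 100), (nat_lit 9)]⟩,
 ⟨⟨[(nat_lit 60), (nat_lit 120), (nat_lit 160)], [(nat_lit 0), (nat_lit 0), (nat_lit 3243)], [((nat_lit 0), (nat_lit 0), (nat_lit 0)), ((nat_lit 0), (nat_lit 0), (nat_lit 0)), ((nat_lit 878), (nat_lit 1000), (nat_lit 945))], ((nat_lit 100), (nat_lit 96), (nat_lit 86))⟩, (nat_lit 638586), (nat_lit 366), (nat_lit 366), (nat_lit 0), (nat_lit 159307), [(nat_lit 2838930000), (nat_lit 6892320000), (nat_lit 10269280000)], [], [(nat_lit 31826442360), (nat_lit 35916487289), (nat_lit 31227822408), (nat_lit 35189825532), (nat_lit 27646024573), (nat_lit 24975502198), (nat_lit 29836498743), (nat_lit 24328741615)], (nat_lit 1271251), (nat_lit 1271251), (nat_lit 631250), (nat_lit 780000), (nat_lit 0), (nat_lit 1412501), [(nat_lit 780000), (nat_lit 1762501),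 (nat_lit 1271251)], [(nat_lit 12), (nat_lit 59), (nat_lit 401), (nat_lit 175), (nat_lit 10)]⟩,
 ⟨⟨[(nat_lit 140), (nat_lit 180), (nat_lit 200)], [(nat_lit 0), (nat_lit 0), (nat_lit 2835)], [((nat_lit 0), (nat_lit 0), (nat_lit 0)), ((nat_lit 0), (nat_lit 0), (nat_lit 0)), ((nat_lit 363), (nat_lit 1000), (nat_lit 798))], ((nat_lit 0), (nat_lit 0), (nat_lit 0))⟩, (nat_lit 25037), (nat_lit 300), (nat_lit 1375), (nat_lit 7107101), (nat_lit 1913113), [(nat_lit 895622000), (nat_lit 1279278000), (nat_lit 1492400000)], [], [(nat_lit 6959935984), (nat_lit 6581064244), (nat_lit 6497242848), (nat_lit 6133279574), (nat_lit 5890062289), (nat_lit 5641440403), (nat_lit 5889087218), (nat_lit 7235763412)], (nat_lit 780000), (nat_lit 1598751), (nat_lit 780000), (nat_lit 1762501), (nat_lit 0), (nat_lit 1412501), [(nat_lit 1977501), (nat_lit 1271251), (nat_lit 1271251)], [(nat_lit 32), (nat_lit 67), (nat_lit 427), (nat_lit 175), (nat_lit 9)]⟩⟩) (.dle (nat_lit 0))) (.trZ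 (nat_lit 0) (nat_lit 1) (nat_lit 3) (nat_lit 100) (nat_lit 83) (nat_lit 98) (nat_lit 110) (.leaf ⟨(nat_lit 0), (nat_lit 877), (nat_lit 0), (nat_lit 123), (nat_lit 58605), (nat_lit 7820), (nat_lit 17235), (nat_lit 1529), (nat_lit 0), (nat_lit 0), (nat_lit 0), [], Pd.none, Pd.none, (nat_lit 0), (nat_lit 1), (nat_lit 0), (nat_lit 0), (nat_lit 3), (nat_lit 0), [⟨(nat_lit 0), (nat_lit 100), (nat_lit 83), (nat_lit 98), (nat_lit 4266462794)⟩], [], [], [],
 ⟨⟨[(nat_lit 40), (nat_lit 100), (nat_lit 140)], [(nat_lit 0), (nat_lit 592), (nat_lit 3606)], [((nat_lit 0), (nat_lit 0), (nat_lit 0)), ((nat_lit 1000), (nat_lit 908), (nat_lit 154)), ((nat_lit 1000), (nat_lit 825), (nat_lit 971))], ((nat_lit 79), (nat_lit 100), (nat_lit 86))⟩, (nat_lit 2344700), (nat_lit 182), (nat_lit 182), (nat_lit 0), (nat_lit 176449), [(nat_lit 3741048268), (nat_lit 6250003513), (nat_lit 9842000000)], [], [(nat_lit 19940052581), (nat_lit 20971209297), (nat_lit 19854901308), (nat_lit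 20871475395), (nat_lit 21639611344), (nat_lit 22876265023), (nat_lit 21512684763), (nat_lit 22776977290)], (nat_lit 1271251), (nat_lit 1271251), (nat_lit 704688), (nat_lit 780000), (nat_lit 780000), (nat_lit 1762501), [(nat_lit 490000), (nat_lit 1427501), (nat_lit 1271251)], [(nat_lit 5), (nat_lit 55), (nat_lit 317), (nat_lit 100), (nat_lit 9)]⟩,
 ⟨⟨[(nat_lit 60), (nat_lit 120), (nat_lit 160)], [(nat_lit 0), (nat_lit 0), (nat_lit 3243)], [((nat_lit 0), (nat_lit 0), (nat_lit 0)), ((nat_lit 0), (nat_lit 0), (nat_lit 0)), ((nat_lit 878), (nat_lit 1000), (nat_lit 945))], ((nat_lit 100), (nat_lit 92), (nat_lit 90))⟩, (nat_lit 2736185), (nat_lit 379), (nat_lit 379), (nat_lit 0), (nat_lit 207130), [(nat_lit 3282000000), (nat_lit 7968000000), (nat_lit 11872000000)], [], [(nat_lit 32331519649), (nat_lit 37951053813), (nat_lit 31820564850), (nat_lit 37347349600), (nat_lit 28861045769), (nat_lit 20864124089), (nat_lit 30475913153), (nat_lit 20498262895)], (nat_lit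 1271251), (nat_lit 1271251), (nat_lit 704688), (nat_lit 780000), (nat_lit 0), (nat_lit 1412501), [(nat_lit 780000), (nat_lit 1762501), (nat_lit 1271251)], [(nat_lit 12), (nat_lit 59), (nat_lit 401), (nat_lit 175), (nat_lit 10)]⟩,
 ⟨⟨[(nat_lit 140), (nat_lit 180), (nat_lit 200)], [(nat_lit 0), (nat_lit 0), (nat_lit 2835)], [((nat_lit 0), (nat_lit 0), (nat_lit 0)), ((nat_lit 0), (nat_lit 0), (nat_lit 0)), ((nat_lit 363), (nat_lit 1000), (nat_lit 798))], ((nat_lit 0), (nat_lit 0), (nat_lit 0))⟩, (nat_lit 33841), (nat_lit 300), (nat_lit 1668), (nat_lit 9606304), (nat_lit 2542424), [(nat_lit 1210566000), (nat_lit 1729134000), (nat_lit 2017200000)], [], [(nat_lit 9086951524), (nat_lit 8545248816), (nat_lit 8421994540), (nat_lit 7931888110), (nat_lit 7424473673), (nat_lit 7766419645), (nat_lit 8123176706), (nat_lit 10066239584)], (nat_lit 780000), (nat_lit 1598751), (nat_lit 780000), (nat_lit 1762501), (nat_lit 0), (nat_lit 1412501), [(nat_lit 1977501),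 (nat_lit 1271251), (nat_lit 1271251)], [(nat_lit 32), (nat_lit 67), (nat_lit 500), (nat_lit 175), (nat_lit 11)]⟩⟩))) (.leaf ⟨(nat_lit 0), (nat_lit 729), (nat_lit 0), (nat_lit 271), (nat_lit 26046), (nat_lit 9554), (nat_lit 8360), (nat_lit 3102), (nat_lit 0), (nat_lit 0), (nat_lit 0), [], Pd.none, Pd.none, (nat_lit 0), (nat_lit 1), (nat_lit 0), (nat_lit 0), (nat_lit 5), (nat_lit 0), [⟨(nat_lit 0), (nat_lit 92), (nat_lit 81), (nat_lit 100), (nat_lit 3716702289)⟩], [], [⟨(nat_lit 1), (nat_lit 63), (nat_lit 88), (nat_lit 100), (nat_lit 279337047)⟩], [],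
 ⟨⟨[(nat_lit 40), (nat_lit 100), (nat_lit 140)], [(nat_lit 0), (nat_lit 0), (nat_lit 3243)], [((nat_lit 0), (nat_lit 0), (nat_lit 0)), ((nat_lit 0), (nat_lit 0), (nat_lit 0)), ((nat_lit 1000), (nat_lit 870), (nat_lit 941))], ((nat_lit 85), (nat_lit 100), (nat_lit 88))⟩, (nat_lit 2251867), (nat_lit 186), (nat_lit 186), (nat_lit 0), (nat_lit 179130), [(nat_lit 4738015586), (nat_lit 6477379538), (nat_lit 9842000000)], [], [(nat_lit 19446614856), (nat_lit 21849839650), (nat_lit 19177578593), (nat_lit 21511720991), (nat_lit 21181374607), (nat_lit 24073721399), (nat_lit 20809468344), (nat_lit 23730520363)], (nat_lit 1271251), (nat_lit 1271251), (nat_lit 631250), (nat_lit 780000), (nat_lit 780000), (nat_lit 1762501), [(nat_lit 490000), (nat_lit 1427501), (nat_lit 1271251)], [(nat_lit 5), (nat_lit 55), (nat_lit 317), (nat_lit 100), (nat_lit 9)]⟩,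
 ⟨⟨[(nat_lit 60), (nat_lit 120), (nat_lit 160)], [(nat_lit 0), (nat_lit 0), (nat_lit 3243)], [((nat_lit 0), (nat_lit 0), (nat_lit 0)), ((nat_lit 0), (nat_lit 0), (nat_lit 0)), ((nat_lit 878), (nat_lit 1000), (nat_lit 945))], ((nat_lit 100), (nat_lit 92), (nat_lit 90))⟩, (nat_lit 2081036), (nat_lit 247), (nat_lit 247), (nat_lit 0), (nat_lit 207130), [(nat_lit 3282000000), (nat_lit 7968000000), (nat_lit 11872000000)], [], [(nat_lit 23491903052), (nat_lit 26154627392), (nat_lit 23255541012), (nat_lit 25837509092), (nat_lit 34552306052), (nat_lit 36217791160), (nat_lit 33986982092), (nat_lit 35616126320)], (nat_lit 1271251), (nat_lit 1271251), (nat_lit 631250), (nat_lit 780000), (nat_lit 1271251), (nat_lit 1271251), [(nat_lit 780000), (nat_lit 1762501), (nat_lit 1271251)], [(nat_lit 12), (nat_lit 59), (nat_lit 456), (nat_lit 225), (nat_lit 11)]⟩,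
 ⟨⟨[(nat_lit 140), (nat_lit 180), (nat_lit 200)], [(nat_lit 0), (nat_lit 0), (nat_lit 2835)], [((nat_lit 0), (nat_lit 0), (nat_lit 0)), ((nat_lit 0), (nat_lit 0), (nat_lit 0)), ((nat_lit 363), (nat_lit 1000), (nat_lit 798))], ((nat_lit 0), (nat_lit 0), (nat_lit 0))⟩, (nat_lit 74561), (nat_lit 300), (nat_lit 1545), (nat_lit 21165100), (nat_lit 2542424), [(nat_lit 2667182000), (nat_lit 3809718000), (nat_lit 4444400000)], [], [(nat_lit 17530599234), (nat_lit 16440888046), (nat_lit 16201776536), (nat_lit 15109622583), (nat_lit 16485961120), (nat_lit 15356791821), (nat_lit 15107699456), (nat_lit 14025617575)], (nat_lit 780000), (nat_lit 1598751), (nat_lit 780000), (nat_lit 1762501), (nat_lit 1271251), (nat_lit 1271251), [(nat_lit 1977501), (nat_lit 1271251), (nat_lit 1271251)], [(nat_lit 32), (nat_lit 67), (nat_lit 494), (nat_lit 225), (nat_lit 10)]⟩⟩))))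
noncomputable def c11_95 : Tr Lf :=
 (.trX (nat_lit 5) (nat_lit 4) (nat_lit 3) (nat_lit 100) (nat_lit 59) (nat_lit 94) (nat_lit 370) (.spl (nat_lit 2) (nat_lit 180) (.trX (nat_lit 4) (nat_lit 0) (nat_lit 2) (nat_lit 80) (nat_lit 68) (nat_lit 100) (nat_lit 350) (.spl (nat_lit 1) (nat_lit 280) (.spl (nat_lit 6) (nat_lit 56) (.spl (nat_lit 5) (nat_lit 120) (.leaf ⟨(nat_lit 0), (nat_lit 949), (nat_lit 0), (nat_lit 51), (nat_lit 51123), (nat_lit 5760), (nat_lit 7567), (nat_lit 772), (nat_lit 0), (nat_lit 0), (nat_lit 0), [], Pd.none, Pd.none, (nat_lit 0), (nat_lit 1), (nat_lit 0), (nat_lit 0), (nat_lit 6), (nat_lit 0), [⟨(nat_lit 0), (nat_lit 99), (nat_lit 77), (nat_lit 100), (nat_lit 1148648797)⟩], [⟨(nat_lit 1), (nat_lit 85), (nat_lit 78), (nat_lit 100), (nat_lit 577082268)⟩], [], [],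
 ⟨⟨[(nat_lit 40), (nat_lit 80), (nat_lit 120)], [(nat_lit 0), (nat_lit 0), (nat_lit 2151)], [((nat_lit 0), (nat_lit 0), (nat_lit 0)), ((nat_lit 0), (nat_lit 0), (nat_lit 0)), ((nat_lit 1000), (nat_lit 815), (nat_lit 753))], ((nat_lit 81), (nat_lit 100), (nat_lit 70))⟩, (nat_lit 2113627), (nat_lit 150), (nat_lit 150), (nat_lit 0), (nat_lit 45453), [(nat_lit 2546460108), (nat_lit 4688000311), (nat_lit 7968000000)], [], [(nat_lit 23059190123), (nat_lit 24658631893), (nat_lit 22153287843), (nat_lit 23648707023), (nat_lit 29225577293), (nat_lit 30744480929), (nat_lit 27927621873), (nat_lit 29063721403)], (nat_lit 1271251), (nat_lit 1271251), (nat_lit 356250), (nat_lit 780000), (nat_lit 1271251), (nat_lit 1271251), [(nat_lit 490000), (nat_lit 1100000), (nat_lit 1785001)], [(nat_lit 4), (nat_lit 51), (nat_lit 238), (nat_lit 30), (nat_lit 7)]⟩,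
 ⟨⟨[(nat_lit 80), (nat_lit 120), (nat_lit 160)], [(nat_lit 0), (nat_lit 0), (nat_lit 2132)], [((nat_lit 0), (nat_lit 0), (nat_lit 0)), ((nat_lit 0), (nat_lit 0), (nat_lit 0)), ((nat_lit 858), (nat_lit 1000), (nat_lit 713))], ((nat_lit 100), (nat_lit 86), (nat_lit 71))⟩, (nat_lit 5214763), (nat_lit 343), (nat_lit 343), (nat_lit 0), (nat_lit 42658), [(nat_lit 4688000000), (nat_lit 7968000000), (nat_lit 11872000000)], [], [(nat_lit 22719342066), (nat_lit 26095534796), (nat_lit 20920528896), (nat_lit 24082767279), (nat_lit 18083291812), (nat_lit 21095425794), (nat_lit 21094196895), (nat_lit 20225618616)], (nat_lit 1271251), (nat_lit 1271251), (nat_lit 356250), (nat_lit 780000), (nat_lit 0), (nat_lit 780000), [(nat_lit 1100000), (nat_lit 1785001), (nat_lit 1271251)], [(nat_lit 18), (nat_lit 59), (nat_lit 373), (nat_lit 150), (nat_lit 10)]⟩,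
 ⟨⟨[(nat_lit 140), (nat_lit 180), (nat_lit 200)], [(nat_lit 0), (nat_lit 0), (nat_lit 2835)], [((nat_lit 0), (nat_lit 0), (nat_lit 0)), ((nat_lit 0), (nat_lit 0), (nat_lit 0)), ((nat_lit 363), (nat_lit 1000), (nat_lit 798))], ((nat_lit 0), (nat_lit 0), (nat_lit 0))⟩, (nat_lit 14032), (nat_lit 300), (nat_lit 643), (nat_lit 3983100), (nat_lit 402860), [(nat_lit 501942000), (nat_lit 716958000), (nat_lit 836400000)], [], [(nat_lit 3324732160), (nat_lit 3177483995), (nat_lit 3464840224), (nat_lit 3290847982), (nat_lit 2670580594), (nat_lit 2502045136), (nat_lit 2743233212), (nat_lit 2581917566)], (nat_lit 780000), (nat_lit 1271251), (nat_lit 1271251), (nat_lit 1271251), (nat_lit 0), (nat_lit 780000), [(nat_lit 1977501), (nat_lit 1271251), (nat_lit 1271251)], [(nat_lit 32), (nat_lit 67), (nat_lit 401), (nat_lit 175), (nat_lit 9)]⟩⟩) (.leaf ⟨(nat_lit 0), (nat_lit 216), (nat_lit 0), (nat_lit 784), (nat_lit 65309), (nat_lit 6706), (nat_lit 19437), (nat_lit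 10806), (nat_lit 0), (nat_lit 0), (nat_lit 0), [], Pd.none, Pd.none, (nat_lit 0), (nat_lit 1), (nat_lit 0), (nat_lit 0), (nat_lit 6), (nat_lit 0), [⟨(nat_lit 0), (nat_lit 99), (nat_lit 77), (nat_lit 100), (nat_lit 3491419958)⟩], [], [], [],
 ⟨⟨[(nat_lit 40), (nat_lit 80), (nat_lit 120)], [(nat_lit 0), (nat_lit 0), (nat_lit 2151)], [((nat_lit 0), (nat_lit 0), (nat_lit 0)), ((nat_lit 0), (nat_lit 0), (nat_lit 0)), ((nat_lit 1000), (nat_lit 815), (nat_lit 753))], ((nat_lit 81), (nat_lit 100), (nat_lit 70))⟩, (nat_lit 2552184), (nat_lit 150), (nat_lit 150), (nat_lit 0), (nat_lit 45453), [(nat_lit 3067680113), (nat_lit 4701923878), (nat_lit 7968000000)], [], [(nat_lit 21770828896), (nat_lit 23779881352), (nat_lit 20528407928), (nat_lit 22164821786), (nat_lit 30572671894), (nat_lit 32352853781), (nat_lit 28545462365), (nat_lit 30218373377)], (nat_lit 1271251), (nat_lit 1271251), (nat_lit 356250), (nat_lit 780000), (nat_lit 1271251), (nat_lit 1271251),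 [(nat_lit 490000), (nat_lit 1100000), (nat_lit 1785001)], [(nat_lit 4), (nat_lit 51), (nat_lit 238), (nat_lit 30), (nat_lit 7)]⟩,
 ⟨⟨[(nat_lit 80), (nat_lit 120), (nat_lit 160)], [(nat_lit 0), (nat_lit 0), (nat_lit 2132)], [((nat_lit 0), (nat_lit 0), (nat_lit 0)), ((nat_lit 0), (nat_lit 0), (nat_lit 0)), ((nat_lit 858), (nat_lit 1000), (nat_lit 713))], ((nat_lit 100), (nat_lit 86), (nat_lit 71))⟩, (nat_lit 0), (nat_lit 212), (nat_lit 212), (nat_lit 0), (nat_lit 63506), [(nat_lit 4688000000), (nat_lit 7968000000), (nat_lit 11872000000)], [], [(nat_lit 48955736736), (nat_lit 30311296158), (nat_lit 19048845668), (nat_lit 24412532750), (nat_lit 44490787852), (nat_lit 49476811155), (nat_lit 52014616850), (nat_lit 41542475460)], (nat_lit 1271251), (nat_lit 1271251), (nat_lit 356250), (nat_lit 780000), (nat_lit 780000), (nat_lit 2826876), [(nat_lit 1100000), (nat_lit 1785001), (nat_lit 1271251)], [(nat_lit 18), (nat_lit 59), (nat_lit 428), (nat_lit 200),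 (nat_lit 11)]⟩,
 ⟨⟨[(nat_lit 140), (nat_lit 180), (nat_lit 200)], [(nat_lit 0), (nat_lit 0), (nat_lit 2835)], [((nat_lit 0), (nat_lit 0), (nat_lit 0)), ((nat_lit 0), (nat_lit 0), (nat_lit 0)), ((nat_lit 363), (nat_lit 1000), (nat_lit 798))], ((nat_lit 0), (nat_lit 0), (nat_lit 0))⟩, (nat_lit 215704), (nat_lit 300), (nat_lit 641), (nat_lit 61230400), (nat_lit 629992), [(nat_lit 7716128000), (nat_lit 11021472000), (nat_lit 12857600000)], [], [(nat_lit 43339279148), (nat_lit 41041981380), (nat_lit 42946780847), (nat_lit 40757736693), (nat_lit 39483226052), (nat_lit 37157241307), (nat_lit 39397787072), (nat_lit 37182250203)], (nat_lit 780000), (nat_lit 1271251), (nat_lit 1271251), (nat_lit 1271251), (nat_lit 780000), (nat_lit 2826876), [(nat_lit 1977501), (nat_lit 1271251), (nat_lit 1271251)], [(nat_lit 32), (nat_lit 67), (nat_lit 456), (nat_lit 225), (nat_lit 9)]⟩⟩)) (.dle (nat_lit 0))) (.trZ (nat_lit 0) (nat_lit 1) (nat_lit 3) (nat_lit 100) (nat_lit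 87) (nat_lit 95) (nat_lit 100) (.spl (nat_lit 5) (nat_lit 120) (.leaf ⟨(nat_lit 0), (nat_lit 928), (nat_lit 0), (nat_lit 72), (nat_lit 57136), (nat_lit 7499), (nat_lit 12233), (nat_lit 1087), (nat_lit 0), (nat_lit 0), (nat_lit 0), [], Pd.none, Pd.none, (nat_lit 0), (nat_lit 1), (nat_lit 0), (nat_lit 0), (nat_lit 6), (nat_lit 0), [⟨(nat_lit 0), (nat_lit 92), (nat_lit 81), (nat_lit 100), (nat_lit 2875665540)⟩], [⟨(nat_lit 1), (nat_lit 85), (nat_lit 78), (nat_lit 100), (nat_lit 580450526)⟩], [⟨(nat_lit 0), (nat_lit 100), (nat_lit 89), (nat_lit 28), (nat_lit 47287356)⟩], [],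
 ⟨⟨[(nat_lit 40), (nat_lit 100), (nat_lit 140)], [(nat_lit 0), (nat_lit 0), (nat_lit 3243)], [((nat_lit 0), (nat_lit 0), (nat_lit 0)), ((nat_lit 0), (nat_lit 0), (nat_lit 0)), ((nat_lit 1000), (nat_lit 870), (nat_lit 941))], ((nat_lit 85), (nat_lit 100), (nat_lit 88))⟩, (nat_lit 1800026), (nat_lit 194), (nat_lit 194), (nat_lit 0), (nat_lit 175899), [(nat_lit 3239396392), (nat_lit 6250000002), (nat_lit 9842000000)], [], [(nat_lit 23708776510), (nat_lit 25347528820), (nat_lit 23504203974), (nat_lit 25098228279), (nat_lit 29772039161), (nat_lit 31598354543), (nat_lit 29393852027), (nat_lit 31186289550)], (nat_lit 1271251), (nat_lit 1271251), (nat_lit 631250), (nat_lit 780000), (nat_lit 1271251), (nat_lit 1271251), [(nat_lit 490000), (nat_lit 1427501), (nat_lit 1271251)], [(nat_lit 5), (nat_lit 55), (nat_lit 345), (nat_lit 125), (nat_lit 9)]⟩,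
 ⟨⟨[(nat_lit 60), (nat_lit 120), (nat_lit 160)], [(nat_lit 0), (nat_lit 0), (nat_lit 3243)], [((nat_lit 0), (nat_lit 0), (nat_lit 0)), ((nat_lit 0), (nat_lit 0), (nat_lit 0)), ((nat_lit 878), (nat_lit 1000), (nat_lit 945))], ((nat_lit 100), (nat_lit 92), (nat_lit 90))⟩, (nat_lit 3746788), (nat_lit 359), (nat_lit 359), (nat_lit 0), (nat_lit 141344), [(nat_lit 3282000000), (nat_lit 7968000000), (nat_lit 11872000000)], [], [(nat_lit 26492025933), (nat_lit 30736190119), (nat_lit 26130585333), (nat_lit 30004239616), (nat_lit 22283233770), (nat_lit 21864886572), (nat_lit 24505146314), (nat_lit 21417607675)], (nat_lit 1271251), (nat_lit 1271251), (nat_lit 631250), (nat_lit 780000), (nat_lit 0), (nat_lit 780000), [(nat_lit 780000), (nat_lit 1762501), (nat_lit 1271251)], [(nat_lit 12), (nat_lit 59), (nat_lit 373), (nat_lit 150), (nat_lit 10)]⟩,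
 ⟨⟨[(nat_lit 140), (nat_lit 180), (nat_lit 200)], [(nat_lit 0), (nat_lit 0), (nat_lit 2835)], [((nat_lit 0), (nat_lit 0), (nat_lit 0)), ((nat_lit 0), (nat_lit 0), (nat_lit 0)), ((nat_lit 363), (nat_lit 1000), (nat_lit 798))], ((nat_lit 0), (nat_lit 0), (nat_lit 0))⟩, (nat_lit 19810), (nat_lit 300), (nat_lit 1154), (nat_lit 5623200), (nat_lit 1555888), [(nat_lit 708624000), (nat_lit 1012176000), (nat_lit 1180800000)], [], [(nat_lit 4697230084), (nat_lit 4485786788), (nat_lit 4890657631), (nat_lit 4645863763), (nat_lit 3776437150), (nat_lit 3539301674), (nat_lit 3874907530), (nat_lit 3647957309)], (nat_lit 780000), (nat_lit 1271251), (nat_lit 1271251), (nat_lit 1271251), (nat_lit 0), (nat_lit 780000), [(nat_lit 1977501), (nat_lit 1271251), (nat_lit 1271251)], [(nat_lit 32), (nat_lit 67), (nat_lit 401), (nat_lit 175), (nat_lit 9)]⟩⟩) (.spl (nat_lit 1) (nat_lit 300) (.spl (nat_lit 6) (nat_lit 68) (.leaf ⟨(nat_lit 5), (nat_lit 221), (nat_lit 0), (nat_lit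 774), (nat_lit 33168), (nat_lit 7861), (nat_lit 15924), (nat_lit 9198), (nat_lit 0), (nat_lit 0), (nat_lit 1250), [((nat_lit 340), [((nat_lit 19), (nat_lit 0), (nat_lit 5))])], ⟨(nat_lit 7), false, false, false, (nat_lit 179), (nat_lit 3872), (nat_lit 4473), [(nat_lit 1416230), (nat_lit 1425778), (nat_lit 1437779), (nat_lit 1447554), (nat_lit 1450223), (nat_lit 1458043), (nat_lit 1471772), (nat_lit 1479819)]⟩, ⟨(nat_lit 6), false, false, true, (nat_lit 241), (nat_lit 3872), (nat_lit 4473), [(nat_lit 1481711), (nat_lit 1477347), (nat_lit 1546410), (nat_lit 1542727), (nat_lit 1668651), (nat_lit 1654781), (nat_lit 1733350), (nat_lit 1720161)]⟩, (nat_lit 5012048), (nat_lit 40739239), (nat_lit 10081482), (nat_lit 16179279), (nat_lit 6), (nat_lit 0), [⟨(nat_lit 0), (nat_lit 97), (nat_lit 82), (nat_lit 100), (nat_lit 7756778092)⟩], [], [], [],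
 ⟨⟨[(nat_lit 40), (nat_lit 100), (nat_lit 140)], [(nat_lit 0), (nat_lit 0), (nat_lit 3243)], [((nat_lit 0), (nat_lit 0), (nat_lit 0)), ((nat_lit 0), (nat_lit 0), (nat_lit 0)), ((nat_lit 1000), (nat_lit 870), (nat_lit 941))], ((nat_lit 82), (nat_lit 100), (nat_lit 77))⟩, (nat_lit 2204005), (nat_lit 173), (nat_lit 173), (nat_lit 0), (nat_lit 108438), [(nat_lit 3386873715), (nat_lit 6231480014), (nat_lit 9732790000)], [(nat_lit 0), (nat_lit 0), (nat_lit 0)], [(nat_lit 22102370877), (nat_lit 24008845299), (nat_lit 21868402502), (nat_lit 23838386116), (nat_lit 30182704457), (nat_lit 32079697458), (nat_lit 29781137094), (nat_lit 31628137791)], (nat_lit 1271251), (nat_lit 1271251), (nat_lit 631250), (nat_lit 780000), (nat_lit 1271251), (nat_lit 1271251), [(nat_lit 490000), (nat_lit 1427501), (nat_lit 1271251)], [(nat_lit 5), (nat_lit 55), (nat_lit 345), (nat_lit 125), (nat_lit 9)]⟩,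
 ⟨⟨[(nat_lit 60), (nat_lit 120), (nat_lit 160)], [(nat_lit 0), (nat_lit 0), (nat_lit 3243)], [((nat_lit 0), (nat_lit 0), (nat_lit 0)), ((nat_lit 0), (nat_lit 0), (nat_lit 0)), ((nat_lit 878), (nat_lit 1000), (nat_lit 945))], ((nat_lit 100), (nat_lit 99), (nat_lit 82))⟩, (nat_lit 4289759), (nat_lit 210), (nat_lit 210), (nat_lit 0), (nat_lit 131399), [(nat_lit 3265590000), (nat_lit 7928160000), (nat_lit 11812640000)], [], [(nat_lit 12640714490), (nat_lit 15026577530), (nat_lit 11889425833), (nat_lit 14199385529), (nat_lit 38910081785), (nat_lit 40984324790), (nat_lit 38379262613), (nat_lit 39704673365)], (nat_lit 1271251), (nat_lit 1271251), (nat_lit 631250), (nat_lit 780000), (nat_lit 780000), (nat_lit 2826876), [(nat_lit 780000), (nat_lit 1762501), (nat_lit 1271251)], [(nat_lit 12), (nat_lit 59), (nat_lit 428), (nat_lit 200), (nat_lit 11)]⟩,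
 ⟨⟨[(nat_lit 140), (nat_lit 180), (nat_lit 200)], [(nat_lit 0), (nat_lit 0), (nat_lit 2835)], [((nat_lit 0), (nat_lit 0), (nat_lit 0)), ((nat_lit 0), (nat_lit 0), (nat_lit 0)), ((nat_lit 363), (nat_lit 1000), (nat_lit 798))], ((nat_lit 0), (nat_lit 0), (nat_lit 0))⟩, (nat_lit 212952), (nat_lit 300), (nat_lit 1052), (nat_lit 60449406), (nat_lit 1510230), [(nat_lit 7617708000), (nat_lit 10880892000), (nat_lit 12693600000)], [], [(nat_lit 47213985576), (nat_lit 45177836223), (nat_lit 45911309655), (nat_lit 43784694983), (nat_lit 42058928061), (nat_lit 39981513679), (nat_lit 40928561351), (nat_lit 38856129014)], (nat_lit 780000), (nat_lit 1271251), (nat_lit 1271251), (nat_lit 1271251), (nat_lit 780000), (nat_lit 2826876), [(nat_lit 1977501), (nat_lit 1271251), (nat_lit 1271251)], [(nat_lit 32), (nat_lit 67), (nat_lit 456), (nat_lit 225), (nat_lit 9)]⟩⟩) (.dle (nat_lit 0))) (.emL (nat_lit 0) (nat_lit 1) (nat_lit 3) (nat_lit 94) (nat_lit 87) (nat_lit 100)))))))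 (.spl (nat_lit 6) (nat_lit 64) (.leaf ⟨(nat_lit 0), (nat_lit 60), (nat_lit 0), (nat_lit 940), (nat_lit 300000), (nat_lit 9126), (nat_lit 8424), (nat_lit 12610), (nat_lit 0), (nat_lit 0), (nat_lit 0), [], Pd.none, Pd.none, (nat_lit 0), (nat_lit 1), (nat_lit 0), (nat_lit 0), (nat_lit 6), (nat_lit 0), [⟨(nat_lit 0), (nat_lit 100), (nat_lit 83), (nat_lit 98), (nat_lit 9681344924)⟩], [], [⟨(nat_lit 0), (nat_lit 100), (nat_lit 92), (nat_lit 40), (nat_lit 331830442)⟩], [],
 ⟨⟨[(nat_lit 40), (nat_lit 80), (nat_lit 120)], [(nat_lit 0), (nat_lit 0), (nat_lit 2151)], [((nat_lit 0), (nat_lit 0), (nat_lit 0)), ((nat_lit 0), (nat_lit 0), (nat_lit 0)), ((nat_lit 1000), (nat_lit 815), (nat_lit 753))], ((nat_lit 81), (nat_lit 100), (nat_lit 75))⟩, (nat_lit 1291012), (nat_lit 173), (nat_lit 173), (nat_lit 0), (nat_lit 92676), [(nat_lit 3877572925), (nat_lit 5643154808), (nat_lit 7968000000)], [], [(nat_lit 23600987468), (nat_lit 26129369207), (nat_lit 21497704740),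 (nat_lit 23495159097), (nat_lit 37904804950), (nat_lit 39846459939), (nat_lit 34512006119), (nat_lit 36335672830)], (nat_lit 1271251), (nat_lit 1271251), (nat_lit 356250), (nat_lit 780000), (nat_lit 1271251), (nat_lit 1271251), [(nat_lit 490000), (nat_lit 1100000), (nat_lit 1785001)], [(nat_lit 4), (nat_lit 51), (nat_lit 238), (nat_lit 30), (nat_lit 7)]⟩,
 ⟨⟨[(nat_lit 80), (nat_lit 120), (nat_lit 160)], [(nat_lit 0), (nat_lit 0), (nat_lit 2132)], [((nat_lit 0), (nat_lit 0), (nat_lit 0)), ((nat_lit 0), (nat_lit 0), (nat_lit 0)), ((nat_lit 858), (nat_lit 1000), (nat_lit 713))], ((nat_lit 100), (nat_lit 83), (nat_lit 75))⟩, (nat_lit 0), (nat_lit 376), (nat_lit 376), (nat_lit 0), (nat_lit 113255), [(nat_lit 4688000000), (nat_lit 7968000000), (nat_lit 11872000000)], [], [(nat_lit 50052113864), (nat_lit 43564264368), (nat_lit 36652426048), (nat_lit 41351000656), (nat_lit 49251005131), (nat_lit 42856982922), (nat_lit 54078824392), (nat_lit 40442806480)],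 (nat_lit 1271251), (nat_lit 1271251), (nat_lit 356250), (nat_lit 780000), (nat_lit 0), (nat_lit 2613125), [(nat_lit 1100000), (nat_lit 1785001), (nat_lit 1271251)], [(nat_lit 18), (nat_lit 59), (nat_lit 456), (nat_lit 225), (nat_lit 12)]⟩,
 ⟨⟨[(nat_lit 120), (nat_lit 160), (nat_lit 180)], [(nat_lit 0), (nat_lit 533), (nat_lit 2066)], [((nat_lit 0), (nat_lit 0), (nat_lit 0)), ((nat_lit 960), (nat_lit 1000), (nat_lit 200)), ((nat_lit 615), (nat_lit 1000), (nat_lit 729))], ((nat_lit 100), (nat_lit 61), (nat_lit 74))⟩, (nat_lit 2200975), (nat_lit 300), (nat_lit 609), (nat_lit 62416003), (nat_lit 564244), [(nat_lit 7489920000), (nat_lit 11159680000), (nat_lit 13214520000)], [], [(nat_lit 46163339970), (nat_lit 45222276240), (nat_lit 50927727138), (nat_lit 50012876513), (nat_lit 51661203093), (nat_lit 40632768208), (nat_lit 40825900990), (nat_lit 40530350588)], (nat_lit 1271251), (nat_lit 1271251), (nat_lit 1271251), (nat_lit 1271251), (nat_lit 0), (nat_lit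 2613125), [(nat_lit 1695001), (nat_lit 1271251), (nat_lit 1271251)], [(nat_lit 28), (nat_lit 65), (nat_lit 483), (nat_lit 250), (nat_lit 11)]⟩⟩) (.dle (nat_lit 0)))))
noncomputable def c11_96 : Tr Lf :=
 (.spl (nat_lit 1) (nat_lit 280) (.ord (.spl (nat_lit 6) (nat_lit 52) (.leaf ⟨(nat_lit 0), (nat_lit 0), (nat_lit 0), (nat_lit 1000), (nat_lit 157424), (nat_lit 11700), (nat_lit 7203), (nat_lit 6140), (nat_lit 0), (nat_lit 35972166639419), (nat_lit 0), [], Pd.none, Pd.none, (nat_lit 0), (nat_lit 1), (nat_lit 0), (nat_lit 0), (nat_lit 0), (nat_lit 0), [⟨(nat_lit 0), (nat_lit 99), (nat_lit 77), (nat_lit 100), (nat_lit 2976326167)⟩], [], [⟨(nat_lit 0), (nat_lit 100), (nat_lit 99), (nat_lit 55), (nat_lit 428555132)⟩], [],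
 ⟨⟨[(nat_lit 40), (nat_lit 80), (nat_lit 120)], [(nat_lit 0), (nat_lit 0), (nat_lit 2151)], [((nat_lit 0), (nat_lit 0), (nat_lit 0)), ((nat_lit 0), (nat_lit 0), (nat_lit 0)), ((nat_lit 1000), (nat_lit 815), (nat_lit 753))], ((nat_lit 80), (nat_lit 100), (nat_lit 68))⟩, (nat_lit 638906), (nat_lit 168), (nat_lit 168), (nat_lit 0), (nat_lit 48694), [(nat_lit 4582683302), (nat_lit 7701772588), (nat_lit 7968000000)], [], [(nat_lit 21620512844), (nat_lit 25537023675), (nat_lit 18837024994), (nat_lit 21847715544), (nat_lit 45463867300), (nat_lit 47573534825), (nat_lit 41840535684), (nat_lit 42600507550)], (nat_lit 1271251), (nat_lit 1271251), (nat_lit 356250), (nat_lit 780000), (nat_lit 780000), (nat_lit 3072501), [(nat_lit 490000), (nat_lit 1100000), (nat_lit 1785001)], [(nat_lit 4), (nat_lit 51), (nat_lit 373), (nat_lit 150), (nat_lit 12)]⟩,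
 ⟨⟨[(nat_lit 80), (nat_lit 120), (nat_lit 160)], [(nat_lit 0), (nat_lit 0), (nat_lit 2132)], [((nat_lit 0), (nat_lit 0), (nat_lit 0)), ((nat_lit 0), (nat_lit 0), (nat_lit 0)), ((nat_lit 858), (nat_lit 1000), (nat_lit 713))], ((nat_lit 100), (nat_lit 88), (nat_lit 69))⟩, (nat_lit 812625), (nat_lit 352), (nat_lit 352), (nat_lit 0), (nat_lit 68747), [(nat_lit 4688000000), (nat_lit 7968000000), (nat_lit 11872000000)], [], [(nat_lit 47530674383), (nat_lit 39911920825), (nat_lit 36073598762), (nat_lit 37970907994), (nat_lit 51238640687), (nat_lit 44958885212), (nat_lit 55703259014), (nat_lit 49538513840)], (nat_lit 1271251), (nat_lit 1271251), (nat_lit 356250), (nat_lit 780000), (nat_lit 0), (nat_lit 2825001), [(nat_lit 1100000), (nat_lit 1785001), (nat_lit 1271251)], [(nat_lit 18), (nat_lit 59), (nat_lit 428), (nat_lit 200), (nat_lit 11)]⟩,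
 ⟨⟨[(nat_lit 100), (nat_lit 140), (nat_lit 160)], [(nat_lit 0), (nat_lit 508), (nat_lit 1689)], [((nat_lit 0), (nat_lit 0), (nat_lit 0)), ((nat_lit 1000), (nat_lit 1000), (nat_lit 198)), ((nat_lit 811), (nat_lit 1000), (nat_lit 671))], ((nat_lit 100), (nat_lit 81), (nat_lit 68))⟩, (nat_lit 562959), (nat_lit 300), (nat_lit 334), (nat_lit 68257265), (nat_lit 113702), [(nat_lit 6250000000), (nat_lit 9842000000), (nat_lit 11872000000)], [], [(nat_lit 44692347217), (nat_lit 46634898584), (nat_lit 51671110816), (nat_lit 52363754006), (nat_lit 55707780120), (nat_lit 47959584096), (nat_lit 49239583982), (nat_lit 49239780234)], (nat_lit 1271251), (nat_lit 1271251), (nat_lit 1271251), (nat_lit 1271251), (nat_lit 0), (nat_lit 2825001), [(nat_lit 1412501), (nat_lit 1271251), (nat_lit 1271251)], [(nat_lit 23), (nat_lit 62), (nat_lit 538), (nat_lit 300), (nat_lit 14)]⟩⟩) (.dle (nat_lit 0)))) (.trZ (nat_lit 0) (nat_lit 1) (nat_lit 3) (nat_lit 100) (nat_lit 87)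 (nat_lit 95) (nat_lit 100) (.trZ (nat_lit 1) (nat_lit 2) (nat_lit 5) (nat_lit 100) (nat_lit 92) (nat_lit 49) (nat_lit 20) (.spl (nat_lit 0) (nat_lit 330) (.spl (nat_lit 6) (nat_lit 80) (.leaf ⟨(nat_lit 0), (nat_lit 213), (nat_lit 0), (nat_lit 787), (nat_lit 24370), (nat_lit 10302), (nat_lit 11309), (nat_lit 9659), (nat_lit 0), (nat_lit 371436960808), (nat_lit 0), [], Pd.none, Pd.none, (nat_lit 0), (nat_lit 1), (nat_lit 0), (nat_lit 0), (nat_lit 5), (nat_lit 0), [⟨(nat_lit 0), (nat_lit 100), (nat_lit 87), (nat_lit 95), (nat_lit 1304538907)⟩], [], [⟨(nat_lit 0), (nat_lit 100), (nat_lit 92), (nat_lit 82), (nat_lit 156851820)⟩], [],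
 ⟨⟨[(nat_lit 40), (nat_lit 100), (nat_lit 140)], [(nat_lit 0), (nat_lit 0), (nat_lit 3243)], [((nat_lit 0), (nat_lit 0), (nat_lit 0)), ((nat_lit 0), (nat_lit 0), (nat_lit 0)), ((nat_lit 1000), (nat_lit 870), (nat_lit 941))], ((nat_lit 83), (nat_lit 100), (nat_lit 83))⟩, (nat_lit 2584060), (nat_lit 221), (nat_lit 221), (nat_lit 0), (nat_lit 223354), [(nat_lit 2752453129), (nat_lit 6250000558), (nat_lit 9842000000)], [], [(nat_lit 18073808451), (nat_lit 19342660205), (nat_lit 17749794252), (nat_lit 19091308699), (nat_lit 39357628412), (nat_lit 40291213415), (nat_lit 38525459824), (nat_lit 39434419179)], (nat_lit 1271251), (nat_lit 1271251), (nat_lit 631250), (nat_lit 780000), (nat_lit 780000), (nat_lit 3072501), [(nat_lit 490000), (nat_lit 1427501), (nat_lit 1271251)], [(nat_lit 5), (nat_lit 55), (nat_lit 373), (nat_lit 150), (nat_lit 10)]⟩,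
 ⟨⟨[(nat_lit 60), (nat_lit 120), (nat_lit 160)], [(nat_lit 0), (nat_lit 0), (nat_lit 3243)], [((nat_lit 0), (nat_lit 0), (nat_lit 0)), ((nat_lit 0), (nat_lit 0), (nat_lit 0)), ((nat_lit 878), (nat_lit 1000), (nat_lit 945))], ((nat_lit 100), (nat_lit 95), (nat_lit 87))⟩, (nat_lit 0), (nat_lit 380), (nat_lit 380), (nat_lit 0), (nat_lit 242605), [(nat_lit 3282000000), (nat_lit 7968000000), (nat_lit 11872000000)], [], [(nat_lit 36748522450), (nat_lit 39840452535), (nat_lit 35547709655), (nat_lit 39225926621), (nat_lit 44902163175), (nat_lit 43137366677), (nat_lit 47444985753), (nat_lit 42197869982)], (nat_lit 1271251), (nat_lit 1271251), (nat_lit 631250), (nat_lit 780000), (nat_lit 111251), (nat_lit 2866250), [(nat_lit 780000), (nat_lit 1762501), (nat_lit 1271251)], [(nat_lit 12), (nat_lit 59), (nat_lit 456), (nat_lit 225), (nat_lit 12)]⟩,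
 ⟨⟨[(nat_lit 100), (nat_lit 140), (nat_lit 180)], [(nat_lit 0), (nat_lit 508), (nat_lit 2854)], [((nat_lit 0), (nat_lit 0), (nat_lit 0)), ((nat_lit 1000), (nat_lit 1000), (nat_lit 198)), ((nat_lit 777), (nat_lit 1000), (nat_lit 712))], ((nat_lit 100), (nat_lit 68), (nat_lit 80))⟩, (nat_lit 1691740), (nat_lit 300), (nat_lit 565), (nat_lit 49187501), (nat_lit 427625), [(nat_lit 4918750000), (nat_lit 7745654000), (nat_lit 11063646000)], [], [(nat_lit 39155665023), (nat_lit 39291218872), (nat_lit 40051640017), (nat_lit 41404830816), (nat_lit 55280309058), (nat_lit 33433119226), (nat_lit 36324925825), (nat_lit 37318462192)], (nat_lit 1271251), (nat_lit 1271251), (nat_lit 1271251), (nat_lit 1271251), (nat_lit 111251), (nat_lit 2866250), [(nat_lit 1412501), (nat_lit 1271251), (nat_lit 1271251)], [(nat_lit 24), (nat_lit 63), (nat_lit 538), (nat_lit 300), (nat_lit 12)]⟩⟩) (.dle (nat_lit 0))) (.trZ (nat_lit 0) (nat_lit 1) (nat_lit 3) (nat_lit 100) (nat_lit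 83) (nat_lit 98) (nat_lit 110) (.leaf ⟨(nat_lit 0), (nat_lit 234), (nat_lit 0), (nat_lit 766), (nat_lit 24946), (nat_lit 8672), (nat_lit 11622), (nat_lit 9930), (nat_lit 0), (nat_lit 5017691794309), (nat_lit 0), [], Pd.none, Pd.none, (nat_lit 0), (nat_lit 1), (nat_lit 0), (nat_lit 0), (nat_lit 5), (nat_lit 0), [⟨(nat_lit 0), (nat_lit 100), (nat_lit 83), (nat_lit 98), (nat_lit 2320786546)⟩], [], [⟨(nat_lit 0), (nat_lit 100), (nat_lit 92), (nat_lit 82), (nat_lit 85763768)⟩], [],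
 ⟨⟨[(nat_lit 40), (nat_lit 100), (nat_lit 140)], [(nat_lit 0), (nat_lit 592), (nat_lit 3606)], [((nat_lit 0), (nat_lit 0), (nat_lit 0)), ((nat_lit 1000), (nat_lit 908), (nat_lit 154)), ((nat_lit 1000), (nat_lit 825), (nat_lit 971))], ((nat_lit 79), (nat_lit 100), (nat_lit 86))⟩, (nat_lit 2656346), (nat_lit 225), (nat_lit 225), (nat_lit 0), (nat_lit 243955), [(nat_lit 3684160407), (nat_lit 6250000020), (nat_lit 9842000000)], [], [(nat_lit 18523512275), (nat_lit 20216249867), (nat_lit 18405782655), (nat_lit 20123778534), (nat_lit 37227623516), (nat_lit 38052361084), (nat_lit 36897606576), (nat_lit 37711675888)], (nat_lit 1271251), (nat_lit 1271251), (nat_lit 704688), (nat_lit 780000), (nat_lit 780000), (nat_lit 3072501), [(nat_lit 490000), (nat_lit 1427501), (nat_lit 1271251)], [(nat_lit 5), (nat_lit 55), (nat_lit 373), (nat_lit 150), (nat_lit 10)]⟩,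
 ⟨⟨[(nat_lit 60), (nat_lit 120), (nat_lit 160)], [(nat_lit 0), (nat_lit 0), (nat_lit 3243)], [((nat_lit 0), (nat_lit 0), (nat_lit 0)), ((nat_lit 0), (nat_lit 0), (nat_lit 0)), ((nat_lit 878), (nat_lit 1000), (nat_lit 945))], ((nat_lit 100), (nat_lit 92), (nat_lit 90))⟩, (nat_lit 1126721), (nat_lit 388), (nat_lit 388), (nat_lit 0), (nat_lit 277466), [(nat_lit 3282000000), (nat_lit 7968000000), (nat_lit 11872000000)], [], [(nat_lit 33873092714), (nat_lit 36079583462), (nat_lit 31656072837), (nat_lit 35757884436), (nat_lit 45973961017), (nat_lit 40997389998), (nat_lit 47319634574), (nat_lit 40502967664)], (nat_lit 1271251), (nat_lit 1271251), (nat_lit 704688), (nat_lit 780000), (nat_lit 111251), (nat_lit 2866250), [(nat_lit 780000), (nat_lit 1762501), (nat_lit 1271251)], [(nat_lit 12), (nat_lit 59), (nat_lit 456), (nat_lit 225), (nat_lit 12)]⟩,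
 ⟨⟨[(nat_lit 100), (nat_lit 140), (nat_lit 180)], [(nat_lit 0), (nat_lit 508), (nat_lit 2854)], [((nat_lit 0), (nat_lit 0), (nat_lit 0)), ((nat_lit 1000), (nat_lit 1000), (nat_lit 198)), ((nat_lit 777), (nat_lit 1000), (nat_lit 712))], ((nat_lit 100), (nat_lit 64), (nat_lit 83))⟩, (nat_lit 488657), (nat_lit 300), (nat_lit 589), (nat_lit 52076674), (nat_lit 487390), [(nat_lit 4787500000), (nat_lit 7538972000), (nat_lit 10768428000)], [], [(nat_lit 39607133937), (nat_lit 39663313957), (nat_lit 40616227073), (nat_lit 42238709024), (nat_lit 54956637116), (nat_lit 34362874074), (nat_lit 36157192470), (nat_lit 37080765568)], (nat_lit 1271251), (nat_lit 1271251), (nat_lit 1271251), (nat_lit 1271251), (nat_lit 111251), (nat_lit 2866250), [(nat_lit 1412501), (nat_lit 1271251), (nat_lit 1271251)], [(nat_lit 24), (nat_lit 63), (nat_lit 538), (nat_lit 300), (nat_lit 12)]⟩⟩))))))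
noncomputable def c11_97 : Tr Lf :=
 (.spl (nat_lit 2) (nat_lit 180) (.spl (nat_lit 1) (nat_lit 280) (.spl (nat_lit 6) (nat_lit 56) (.spl (nat_lit 3) (nat_lit 200) (.leaf ⟨(nat_lit 975), (nat_lit 0), (nat_lit 0), (nat_lit 25), (nat_lit 7773), (nat_lit 3246), (nat_lit 178), (nat_lit 290), (nat_lit 0), (nat_lit 0), (nat_lit 243750), [((nat_lit 340), [((nat_lit 19), (nat_lit 0), (nat_lit 975))])], ⟨(nat_lit 6), false, false, false, (nat_lit 199), (nat_lit 3872), (nat_lit 4473), [(nat_lit 1407125), (nat_lit 1414492), (nat_lit 1450223), (nat_lit 1458043), (nat_lit 1543097), (nat_lit 1543551), (nat_lit 1586195), (nat_lit 1587102)]⟩, ⟨(nat_lit 3), false, false, true, (nat_lit 165), (nat_lit 3872), (nat_lit 4473), [(nat_lit 1277776), (nat_lit 1283782), (nat_lit 1342475), (nat_lit 1349162), (nat_lit 1481711), (nat_lit 1477347), (nat_lit 1546410), (nat_lit 1542727)]⟩, (nat_lit 4607066), (nat_lit 44984969), (nat_lit 12639277), (nat_lit 9375754), (nat_lit 0),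 (nat_lit 0), [], [], [], [],
 ⟨⟨[(nat_lit 40), (nat_lit 80), (nat_lit 120)], [(nat_lit 0), (nat_lit 0), (nat_lit 2151)], [((nat_lit 0), (nat_lit 0), (nat_lit 0)), ((nat_lit 0), (nat_lit 0), (nat_lit 0)), ((nat_lit 1000), (nat_lit 815), (nat_lit 753))], ((nat_lit 81), (nat_lit 100), (nat_lit 70))⟩, (nat_lit 0), (nat_lit 115), (nat_lit 115), (nat_lit 0), (nat_lit 74242), [(nat_lit 1548790015), (nat_lit 103055399468), (nat_lit 3028260000)], [(nat_lit 0), (nat_lit 0), (nat_lit 0)], [(nat_lit 15272152021), (nat_lit 17034739100), (nat_lit 17383131803), (nat_lit 18903637410), (nat_lit 18848501499), (nat_lit 20261691237), (nat_lit 20542269679), (nat_lit 21800196329)], (nat_lit 1271251), (nat_lit 1271251), (nat_lit 780000), (nat_lit 1435001), (nat_lit 780000), (nat_lit 1762501), [(nat_lit 490000), (nat_lit 1100000), (nat_lit 1785001)], [(nat_lit 4), (nat_lit 51), (nat_lit 345), (nat_lit 125), (nat_lit 11)]⟩,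
 ⟨⟨[(nat_lit 80), (nat_lit 120), (nat_lit 160)], [(nat_lit 0), (nat_lit 0), (nat_lit 2132)], [((nat_lit 0), (nat_lit 0), (nat_lit 0)), ((nat_lit 0), (nat_lit 0), (nat_lit 0)), ((nat_lit 858), (nat_lit 1000), (nat_lit 713))], ((nat_lit 100), (nat_lit 86), (nat_lit 71))⟩, (nat_lit 0), (nat_lit 333), (nat_lit 333), (nat_lit 0), (nat_lit 116649), [(nat_lit 117200000), (nat_lit 199200000), (nat_lit 296800000)], [], [(nat_lit 948738162), (nat_lit 993858341), (nat_lit 961875872), (nat_lit 1003272223), (nat_lit 1391188864), (nat_lit 1238846140), (nat_lit 1618364228), (nat_lit 1469653594)], (nat_lit 1271251), (nat_lit 1271251), (nat_lit 780000), (nat_lit 1435001), (nat_lit 0), (nat_lit 2825001), [(nat_lit 1100000), (nat_lit 1785001), (nat_lit 1271251)], [(nat_lit 18), (nat_lit 59), (nat_lit 456), (nat_lit 225), (nat_lit 12)]⟩,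
 ⟨⟨[(nat_lit 140), (nat_lit 180), (nat_lit 200)], [(nat_lit 0), (nat_lit 0), (nat_lit 2835)], [((nat_lit 0), (nat_lit 0), (nat_lit 0)), ((nat_lit 0), (nat_lit 0), (nat_lit 0)), ((nat_lit 363), (nat_lit 1000), (nat_lit 798))], ((nat_lit 0), (nat_lit 0), (nat_lit 0))⟩, (nat_lit 6878), (nat_lit 300), (nat_lit 815), (nat_lit 1952505), (nat_lit 629992), [(nat_lit 246050000), (nat_lit 351450000), (nat_lit 410000000)], [], [(nat_lit 1896286170), (nat_lit 1830001400), (nat_lit 1772911360), (nat_lit 1706383875), (nat_lit 1636238540), (nat_lit 1868697000), (nat_lit 2104476440), (nat_lit 2351193910)], (nat_lit 780000), (nat_lit 1271251), (nat_lit 780000), (nat_lit 1762501), (nat_lit 0), (nat_lit 2825001), [(nat_lit 1977501), (nat_lit 1271251), (nat_lit 1271251)], [(nat_lit 32), (nat_lit 67), (nat_lit 456), (nat_lit 225), (nat_lit 10)]⟩⟩) (.leaf ⟨(nat_lit 0), (nat_lit 725), (nat_lit 0), (nat_lit 275), (nat_lit 28551), (nat_lit 6658), (nat_lit 6571), (nat_lit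 2096), (nat_lit 0), (nat_lit 0), (nat_lit 0), [], Pd.none, Pd.none, (nat_lit 0), (nat_lit 1), (nat_lit 0), (nat_lit 0), (nat_lit 3), (nat_lit 0), [], [], [], [],
 ⟨⟨[(nat_lit 40), (nat_lit 80), (nat_lit 120)], [(nat_lit 0), (nat_lit 0), (nat_lit 2151)], [((nat_lit 0), (nat_lit 0), (nat_lit 0)), ((nat_lit 0), (nat_lit 0), (nat_lit 0)), ((nat_lit 1000), (nat_lit 815), (nat_lit 753))], ((nat_lit 81), (nat_lit 100), (nat_lit 70))⟩, (nat_lit 0), (nat_lit 75), (nat_lit 75), (nat_lit 0), (nat_lit 74242), [(nat_lit 2690604448), (nat_lit 4688000132), (nat_lit 7968000000)], [], [(nat_lit 18686860160), (nat_lit 20753575209), (nat_lit 22811495054), (nat_lit 24858823045), (nat_lit 21447826768), (nat_lit 23137583304), (nat_lit 24840345836), (nat_lit 26494041982)], (nat_lit 1271251), (nat_lit 1271251), (nat_lit 1271251), (nat_lit 1271251), (nat_lit 780000), (nat_lit 1762501), [(nat_lit 490000), (nat_lit 1100000), (nat_lit 1785001)], [(nat_lit 4), (nat_lit 51),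 (nat_lit 373), (nat_lit 150), (nat_lit 11)]⟩,
 ⟨⟨[(nat_lit 80), (nat_lit 120), (nat_lit 160)], [(nat_lit 0), (nat_lit 0), (nat_lit 2132)], [((nat_lit 0), (nat_lit 0), (nat_lit 0)), ((nat_lit 0), (nat_lit 0), (nat_lit 0)), ((nat_lit 858), (nat_lit 1000), (nat_lit 713))], ((nat_lit 100), (nat_lit 86), (nat_lit 71))⟩, (nat_lit 1000111), (nat_lit 257), (nat_lit 257), (nat_lit 0), (nat_lit 116649), [(nat_lit 4688000000), (nat_lit 7968000000), (nat_lit 11872000000)], [], [(nat_lit 32493190980), (nat_lit 33409916562), (nat_lit 34543226230), (nat_lit 36595458325), (nat_lit 43685642226), (nat_lit 37920841307), (nat_lit 38069435554), (nat_lit 38854575487)], (nat_lit 1271251), (nat_lit 1271251), (nat_lit 1271251), (nat_lit 1271251), (nat_lit 0), (nat_lit 2825001), [(nat_lit 1100000), (nat_lit 1785001), (nat_lit 1271251)], [(nat_lit 18), (nat_lit 59), (nat_lit 483), (nat_lit 250), (nat_lit 12)]⟩,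
 ⟨⟨[(nat_lit 140), (nat_lit 180), (nat_lit 200)], [(nat_lit 0), (nat_lit 0), (nat_lit 2835)], [((nat_lit 0), (nat_lit 0), (nat_lit 0)), ((nat_lit 0), (nat_lit 0), (nat_lit 0)), ((nat_lit 363), (nat_lit 1000), (nat_lit 798))], ((nat_lit 0), (nat_lit 0), (nat_lit 0))⟩, (nat_lit 75661), (nat_lit 300), (nat_lit 815), (nat_lit 21477506), (nat_lit 629992), [(nat_lit 2706550000), (nat_lit 3865950000), (nat_lit 4510000000)], [], [(nat_lit 23582664106), (nat_lit 23178966805), (nat_lit 22842643178), (nat_lit 22434438014), (nat_lit 21240563897), (nat_lit 20813737206), (nat_lit 20439677280), (nat_lit 22370943884)], (nat_lit 780000), (nat_lit 1271251), (nat_lit 780000), (nat_lit 1762501), (nat_lit 0), (nat_lit 2825001), [(nat_lit 1977501), (nat_lit 1271251), (nat_lit 1271251)], [(nat_lit 32), (nat_lit 67), (nat_lit 456), (nat_lit 225), (nat_lit 10)]⟩⟩)) (.dle (nat_lit 0))) (.trX (nat_lit 5) (nat_lit 1) (nat_lit 2) (nat_lit 92) (nat_lit 49) (nat_lit 100) (nat_lit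 380) (.spl (nat_lit 5) (nat_lit 200) (.spl (nat_lit 1) (nat_lit 300) (.spl (nat_lit 6) (nat_lit 68) (.leaf ⟨(nat_lit 5), (nat_lit 930), (nat_lit 0), (nat_lit 65), (nat_lit 11062), (nat_lit 8749), (nat_lit 6931), (nat_lit 958), (nat_lit 0), (nat_lit 0), (nat_lit 1250), [((nat_lit 340), [((nat_lit 19), (nat_lit 0), (nat_lit 5))])], ⟨(nat_lit 7), false, false, false, (nat_lit 239), (nat_lit 3872), (nat_lit 4473), [(nat_lit 1450223), (nat_lit 1458043), (nat_lit 1471772), (nat_lit 1479819), (nat_lit 1722167), (nat_lit 1716161), (nat_lit 1743716), (nat_lit 1737937)]⟩, ⟨(nat_lit 3), false, false, true, (nat_lit 165), (nat_lit 3872), (nat_lit 4473), [(nat_lit 1277776), (nat_lit 1283782), (nat_lit 1342475), (nat_lit 1349162), (nat_lit 1481711), (nat_lit 1477347), (nat_lit 1546410), (nat_lit 1542727)]⟩, (nat_lit 4877276), (nat_lit 41801658), (nat_lit 16201635), (nat_lit 8996707), (nat_lit 3), (nat_lit 0), [⟨(nat_lit 0), (nat_lit 90), (nat_lit 74), (nat_lit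 100), (nat_lit 237653)⟩], [], [], [],
 ⟨⟨[(nat_lit 40), (nat_lit 100), (nat_lit 140)], [(nat_lit 0), (nat_lit 0), (nat_lit 3243)], [((nat_lit 0), (nat_lit 0), (nat_lit 0)), ((nat_lit 0), (nat_lit 0), (nat_lit 0)), ((nat_lit 1000), (nat_lit 870), (nat_lit 941))], ((nat_lit 82), (nat_lit 100), (nat_lit 77))⟩, (nat_lit 2144443), (nat_lit 180), (nat_lit 180), (nat_lit 0), (nat_lit 180828), [(nat_lit 3458127113), (nat_lit 6231480027), (nat_lit 9732790000)], [(nat_lit 0), (nat_lit 0), (nat_lit 0)], [(nat_lit 19794143920), (nat_lit 21988551399), (nat_lit 23999732987), (nat_lit 26462729823), (nat_lit 21530184643), (nat_lit 23287898945), (nat_lit 25726808558), (nat_lit 27694963921)], (nat_lit 1271251), (nat_lit 1271251), (nat_lit 780000), (nat_lit 2090001), (nat_lit 780000), (nat_lit 1762501), [(nat_lit 490000), (nat_lit 1427501), (nat_lit 1271251)], [(nat_lit 5), (nat_lit 55), (nat_lit 373), (nat_lit 150), (nat_lit 10)]⟩,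
 ⟨⟨[(nat_lit 60), (nat_lit 120), (nat_lit 160)], [(nat_lit 0), (nat_lit 0), (nat_lit 3243)], [((nat_lit 0), (nat_lit 0), (nat_lit 0)), ((nat_lit 0), (nat_lit 0), (nat_lit 0)), ((nat_lit 878), (nat_lit 1000), (nat_lit 945))], ((nat_lit 100), (nat_lit 99), (nat_lit 82))⟩, (nat_lit 2272632), (nat_lit 382), (nat_lit 382), (nat_lit 0), (nat_lit 236285), [(nat_lit 3265590000), (nat_lit 7928160000), (nat_lit 11812640000)], [], [(nat_lit 34436888340), (nat_lit 33333423303), (nat_lit 34996815899), (nat_lit 35947557550), (nat_lit 28424130362), (nat_lit 29240410909), (nat_lit 40454899837), (nat_lit 37375291926)], (nat_lit 1271251), (nat_lit 1271251), (nat_lit 780000), (nat_lit 2090001), (nat_lit 0), (nat_lit 1412501), [(nat_lit 780000), (nat_lit 1762501), (nat_lit 1271251)], [(nat_lit 12), (nat_lit 59), (nat_lit 428), (nat_lit 200), (nat_lit 11)]⟩,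
 ⟨⟨[(nat_lit 140), (nat_lit 180), (nat_lit 200)], [(nat_lit 0), (nat_lit 0), (nat_lit 2835)], [((nat_lit 0), (nat_lit 0), (nat_lit 0)), ((nat_lit 0), (nat_lit 0), (nat_lit 0)), ((nat_lit 363), (nat_lit 1000), (nat_lit 798))], ((nat_lit 0), (nat_lit 0), (nat_lit 0))⟩, (nat_lit 17884), (nat_lit 300), (nat_lit 1204), (nat_lit 5076500), (nat_lit 1510230), [(nat_lit 639730000), (nat_lit 913770000), (nat_lit 1066000000)], [], [(nat_lit 4891438695), (nat_lit 4444261946), (nat_lit 4268795064), (nat_lit 4049744961), (nat_lit 3554830702), (nat_lit 3834866187), (nat_lit 4493491076), (nat_lit 5193441711)], (nat_lit 780000), (nat_lit 1271251), (nat_lit 780000), (nat_lit 1762501), (nat_lit 0), (nat_lit 1412501), [(nat_lit 1977501), (nat_lit 1271251), (nat_lit 1271251)], [(nat_lit 32), (nat_lit 67), (nat_lit 401), (nat_lit 175), (nat_lit 9)]⟩⟩) (.dle (nat_lit 0))) (.leaf ⟨(nat_lit 0), (nat_lit 977), (nat_lit 0), (nat_lit 23), (nat_lit 6571), (nat_lit 9106), (nat_lit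 7991), (nat_lit 339), (nat_lit 0), (nat_lit 0), (nat_lit 0), [], Pd.none, Pd.none, (nat_lit 0), (nat_lit 1), (nat_lit 0), (nat_lit 0), (nat_lit 3), (nat_lit 0), [⟨(nat_lit 0), (nat_lit 81), (nat_lit 72), (nat_lit 100), (nat_lit 14633577)⟩], [], [], [],
 ⟨⟨[(nat_lit 40), (nat_lit 100), (nat_lit 140)], [(nat_lit 0), (nat_lit 0), (nat_lit 3243)], [((nat_lit 0), (nat_lit 0), (nat_lit 0)), ((nat_lit 0), (nat_lit 0), (nat_lit 0)), ((nat_lit 1000), (nat_lit 870), (nat_lit 941))], ((nat_lit 85), (nat_lit 100), (nat_lit 88))⟩, (nat_lit 2066111), (nat_lit 223), (nat_lit 223), (nat_lit 0), (nat_lit 300897), [(nat_lit 3370878616), (nat_lit 6250000057), (nat_lit 9842000000)], [], [(nat_lit 20561519792), (nat_lit 22304010529), (nat_lit 24202602878), (nat_lit 26736567565), (nat_lit 21807364138), (nat_lit 23484441684), (nat_lit 25878155852), (nat_lit 27899999374)], (nat_lit 1271251), (nat_lit 1271251), (nat_lit 780000), (nat_lit 2090001), (nat_lit 780000), (nat_lit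 1762501), [(nat_lit 490000), (nat_lit 1427501), (nat_lit 1271251)], [(nat_lit 5), (nat_lit 55), (nat_lit 373), (nat_lit 150), (nat_lit 10)]⟩,
 ⟨⟨[(nat_lit 60), (nat_lit 120), (nat_lit 160)], [(nat_lit 0), (nat_lit 913), (nat_lit 3885)], [((nat_lit 0), (nat_lit 0), (nat_lit 0)), ((nat_lit 1000), (nat_lit 905), (nat_lit 238)), ((nat_lit 886), (nat_lit 948), (nat_lit 1000))], ((nat_lit 96), (nat_lit 100), (nat_lit 92))⟩, (nat_lit 2480856), (nat_lit 425), (nat_lit 425), (nat_lit 0), (nat_lit 342898), [(nat_lit 3282000000), (nat_lit 7968000000), (nat_lit 11872000000)], [], [(nat_lit 29506118842), (nat_lit 29633591516), (nat_lit 31012570955), (nat_lit 32136982952), (nat_lit 23245513037), (nat_lit 24112796293), (nat_lit 34204021293), (nat_lit 30653430206)], (nat_lit 1271251), (nat_lit 1271251), (nat_lit 780000), (nat_lit 2090001), (nat_lit 0), (nat_lit 1412501), [(nat_lit 780000), (nat_lit 1762501), (nat_lit 1271251)], [(nat_lit 12), (nat_lit 59), (nat_lit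 428), (nat_lit 200), (nat_lit 11)]⟩,
 ⟨⟨[(nat_lit 140), (nat_lit 180), (nat_lit 200)], [(nat_lit 0), (nat_lit 0), (nat_lit 2835)], [((nat_lit 0), (nat_lit 0), (nat_lit 0)), ((nat_lit 0), (nat_lit 0), (nat_lit 0)), ((nat_lit 363), (nat_lit 1000), (nat_lit 798))], ((nat_lit 0), (nat_lit 0), (nat_lit 0))⟩, (nat_lit 6328), (nat_lit 300), (nat_lit 1668), (nat_lit 1796301), (nat_lit 2542424), [(nat_lit 226366000), (nat_lit 323334000), (nat_lit 377200000)], [], [(nat_lit 1730846767), (nat_lit 1572570805), (nat_lit 1510478684), (nat_lit 1432964184), (nat_lit 1257832853), (nat_lit 1356964717), (nat_lit 1590025126), (nat_lit 1837709156)], (nat_lit 780000), (nat_lit 1271251), (nat_lit 780000), (nat_lit 1762501), (nat_lit 0), (nat_lit 1412501), [(nat_lit 1977501), (nat_lit 1271251), (nat_lit 1271251)], [(nat_lit 32), (nat_lit 67), (nat_lit 495), (nat_lit 175), (nat_lit 11)]⟩⟩)) (.stt (nat_lit 1) (.leaf ⟨(nat_lit 0), (nat_lit 869), (nat_lit 0), (nat_lit 131),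 (nat_lit 4257), (nat_lit 3805), (nat_lit 9061), (nat_lit 1512), (nat_lit 0), (nat_lit 0), (nat_lit 0), [], Pd.none, Pd.none, (nat_lit 0), (nat_lit 1), (nat_lit 0), (nat_lit 0), (nat_lit 5), (nat_lit 0), [⟨(nat_lit 0), (nat_lit 92), (nat_lit 81), (nat_lit 100), (nat_lit 381662834)⟩], [], [⟨(nat_lit 1), (nat_lit 72), (nat_lit 89), (nat_lit 100), (nat_lit 342922109)⟩], [],
 ⟨⟨[(nat_lit 40), (nat_lit 100), (nat_lit 140)], [(nat_lit 0), (nat_lit 0), (nat_lit 3243)], [((nat_lit 0), (nat_lit 0), (nat_lit 0)), ((nat_lit 0), (nat_lit 0), (nat_lit 0)), ((nat_lit 1000), (nat_lit 870), (nat_lit 941))], ((nat_lit 85), (nat_lit 100), (nat_lit 88))⟩, (nat_lit 0), (nat_lit 63), (nat_lit 63), (nat_lit 0), (nat_lit 0), [(nat_lit 2032000006), (nat_lit 107448587272), (nat_lit 9842000000)], [], [(nat_lit 15416921611), (nat_lit 17352979617), (nat_lit 21190240715), (nat_lit 22670422263), (nat_lit 19038657976), (nat_lit 20569463389), (nat_lit 23660005176), (nat_lit 24855481345)],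 (nat_lit 0), (nat_lit 0), (nat_lit 0), (nat_lit 0), (nat_lit 0), (nat_lit 0), [], [(nat_lit 5), (nat_lit 55), (nat_lit 373), (nat_lit 150), (nat_lit 10)]⟩,
 ⟨⟨[(nat_lit 60), (nat_lit 120), (nat_lit 160)], [(nat_lit 0), (nat_lit 0), (nat_lit 3243)], [((nat_lit 0), (nat_lit 0), (nat_lit 0)), ((nat_lit 0), (nat_lit 0), (nat_lit 0)), ((nat_lit 878), (nat_lit 1000), (nat_lit 945))], ((nat_lit 100), (nat_lit 92), (nat_lit 90))⟩, (nat_lit 1938525), (nat_lit 322), (nat_lit 322), (nat_lit 0), (nat_lit 357947), [(nat_lit 3282000000), (nat_lit 7968000000), (nat_lit 11872000000)], [], [(nat_lit 26227948268), (nat_lit 28060418176), (nat_lit 27562710621), (nat_lit 28767113757), (nat_lit 33033564959), (nat_lit 34425763697), (nat_lit 33707041765), (nat_lit 35509776746)], (nat_lit 1271251), (nat_lit 1271251), (nat_lit 780000), (nat_lit 2090001), (nat_lit 1271251), (nat_lit 1271251), [(nat_lit 780000), (nat_lit 1762501), (nat_lit 1271251)], [(nat_lit 12), (nat_lit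 59), (nat_lit 483), (nat_lit 250), (nat_lit 12)]⟩,
 ⟨⟨[(nat_lit 140), (nat_lit 180), (nat_lit 200)], [(nat_lit 0), (nat_lit 0), (nat_lit 2835)], [((nat_lit 0), (nat_lit 0), (nat_lit 0)), ((nat_lit 0), (nat_lit 0), (nat_lit 0)), ((nat_lit 363), (nat_lit 1000), (nat_lit 798))], ((nat_lit 0), (nat_lit 0), (nat_lit 0))⟩, (nat_lit 36042), (nat_lit 300), (nat_lit 1545), (nat_lit 10231105), (nat_lit 2542424), [(nat_lit 1289302000), (nat_lit 1841598000), (nat_lit 2148400000)], [], [(nat_lit 8406752924), (nat_lit 8065503073), (nat_lit 7757554956), (nat_lit 7416944754), (nat_lit 7931626844), (nat_lit 7579522115), (nat_lit 7265297474), (nat_lit 6914081286)], (nat_lit 780000), (nat_lit 1271251), (nat_lit 780000), (nat_lit 1762501), (nat_lit 1271251), (nat_lit 1271251), [(nat_lit 1977501), (nat_lit 1271251), (nat_lit 1271251)], [(nat_lit 32), (nat_lit 67), (nat_lit 487), (nat_lit 200), (nat_lit 10)]⟩⟩) (.leaf ⟨(nat_lit 0), (nat_lit 736), (nat_lit 0), (nat_lit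 264), (nat_lit 60), (nat_lit 9392), (nat_lit 8778), (nat_lit 3059), (nat_lit 0), (nat_lit 0), (nat_lit 0), [], Pd.none, Pd.none, (nat_lit 0), (nat_lit 1), (nat_lit 0), (nat_lit 0), (nat_lit 5), (nat_lit 0), [⟨(nat_lit 0), (nat_lit 92), (nat_lit 81), (nat_lit 100), (nat_lit 353137865)⟩], [], [⟨(nat_lit 1), (nat_lit 72), (nat_lit 89), (nat_lit 100), (nat_lit 269391213)⟩], [],
 ⟨⟨[(nat_lit 40), (nat_lit 100), (nat_lit 140)], [(nat_lit 0), (nat_lit 0), (nat_lit 3243)], [((nat_lit 0), (nat_lit 0), (nat_lit 0)), ((nat_lit 0), (nat_lit 0), (nat_lit 0)), ((nat_lit 1000), (nat_lit 870), (nat_lit 941))], ((nat_lit 85), (nat_lit 100), (nat_lit 88))⟩, (nat_lit 2132292), (nat_lit 223), (nat_lit 223), (nat_lit 0), (nat_lit 300623), [(nat_lit 3146529598), (nat_lit 6250019682), (nat_lit 9842000000)], [], [(nat_lit 19913000382), (nat_lit 21947330826), (nat_lit 24365126096), (nat_lit 26955944580), (nat_lit 21294098580), (nat_lit 23641435024), (nat_lit 25999403264),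 (nat_lit 28064257468)], (nat_lit 1271251), (nat_lit 1271251), (nat_lit 780000), (nat_lit 2090001), (nat_lit 780000), (nat_lit 1762501), [(nat_lit 490000), (nat_lit 1427501), (nat_lit 1271251)], [(nat_lit 5), (nat_lit 55), (nat_lit 373), (nat_lit 150), (nat_lit 10)]⟩,
 ⟨⟨[(nat_lit 60), (nat_lit 120), (nat_lit 160)], [(nat_lit 0), (nat_lit 0), (nat_lit 3243)], [((nat_lit 0), (nat_lit 0), (nat_lit 0)), ((nat_lit 0), (nat_lit 0), (nat_lit 0)), ((nat_lit 878), (nat_lit 1000), (nat_lit 945))], ((nat_lit 100), (nat_lit 92), (nat_lit 90))⟩, (nat_lit 2197815), (nat_lit 230), (nat_lit 230), (nat_lit 0), (nat_lit 202231), [(nat_lit 3282000000), (nat_lit 7968000000), (nat_lit 11872000000)], [], [(nat_lit 22633196878), (nat_lit 25286262787), (nat_lit 25565046150), (nat_lit 27363060897), (nat_lit 32205599788), (nat_lit 34050277457), (nat_lit 33436325521), (nat_lit 35215998408)], (nat_lit 1271251), (nat_lit 1271251), (nat_lit 780000), (nat_lit 2090001), (nat_lit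 1271251), (nat_lit 1271251), [(nat_lit 780000), (nat_lit 1762501), (nat_lit 1271251)], [(nat_lit 12), (nat_lit 59), (nat_lit 483), (nat_lit 250), (nat_lit 12)]⟩,
 ⟨⟨[(nat_lit 140), (nat_lit 180), (nat_lit 200)], [(nat_lit 0), (nat_lit 0), (nat_lit 2835)], [((nat_lit 0), (nat_lit 0), (nat_lit 0)), ((nat_lit 0), (nat_lit 0), (nat_lit 0)), ((nat_lit 363), (nat_lit 1000), (nat_lit 798))], ((nat_lit 0), (nat_lit 0), (nat_lit 0))⟩, (nat_lit 72635), (nat_lit 300), (nat_lit 1064), (nat_lit 20618400), (nat_lit 1494229), [(nat_lit 2598288000), (nat_lit 3711312000), (nat_lit 4329600000)], [], [(nat_lit 16877588631), (nat_lit 16186492006), (nat_lit 15562754258), (nat_lit 14872975100), (nat_lit 15934938843), (nat_lit 15221840979), (nat_lit 14585362412), (nat_lit 13894103704)], (nat_lit 780000), (nat_lit 1271251), (nat_lit 780000), (nat_lit 1762501), (nat_lit 1271251), (nat_lit 1271251), [(nat_lit 1977501), (nat_lit 1271251), (nat_lit 1271251)], [(nat_lit 32),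 (nat_lit 67), (nat_lit 428), (nat_lit 200), (nat_lit 9)]⟩⟩))))) (.spl (nat_lit 6) (nat_lit 64) (.spl (nat_lit 5) (nat_lit 120) (.leaf ⟨(nat_lit 0), (nat_lit 774), (nat_lit 0), (nat_lit 226), (nat_lit 6043), (nat_lit 7840), (nat_lit 7561), (nat_lit 3280), (nat_lit 0), (nat_lit 0), (nat_lit 0), [], Pd.none, Pd.none, (nat_lit 0), (nat_lit 1), (nat_lit 0), (nat_lit 0), (nat_lit 4), (nat_lit 0), [], [], [], [],
 ⟨⟨[(nat_lit 40), (nat_lit 80), (nat_lit 120)], [(nat_lit 0), (nat_lit 0), (nat_lit 2151)], [((nat_lit 0), (nat_lit 0), (nat_lit 0)), ((nat_lit 0), (nat_lit 0), (nat_lit 0)), ((nat_lit 1000), (nat_lit 815), (nat_lit 753))], ((nat_lit 81), (nat_lit 100), (nat_lit 75))⟩, (nat_lit 1961294), (nat_lit 133), (nat_lit 133), (nat_lit 0), (nat_lit 152417), [(nat_lit 3208045834), (nat_lit 5458147382), (nat_lit 7968000000)], [], [(nat_lit 18520235366), (nat_lit 20770731726), (nat_lit 23483181920), (nat_lit 25765479100), (nat_lit 20982424286), (nat_lit 22787975480),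 (nat_lit 25341445280), (nat_lit 27172898860)], (nat_lit 1271251), (nat_lit 1271251), (nat_lit 780000), (nat_lit 2090001), (nat_lit 780000), (nat_lit 1762501), [(nat_lit 490000), (nat_lit 1100000), (nat_lit 1785001)], [(nat_lit 4), (nat_lit 51), (nat_lit 373), (nat_lit 150), (nat_lit 12)]⟩,
 ⟨⟨[(nat_lit 80), (nat_lit 120), (nat_lit 160)], [(nat_lit 0), (nat_lit 0), (nat_lit 2132)], [((nat_lit 0), (nat_lit 0), (nat_lit 0)), ((nat_lit 0), (nat_lit 0), (nat_lit 0)), ((nat_lit 858), (nat_lit 1000), (nat_lit 713))], ((nat_lit 100), (nat_lit 83), (nat_lit 75))⟩, (nat_lit 473237), (nat_lit 353), (nat_lit 353), (nat_lit 0), (nat_lit 149255), [(nat_lit 4688000000), (nat_lit 7968000000), (nat_lit 11872000000)], [], [(nat_lit 36265231388), (nat_lit 40712248400), (nat_lit 44910490376), (nat_lit 42569687898), (nat_lit 33937107329), (nat_lit 35687353654), (nat_lit 50845821165), (nat_lit 37407693670)], (nat_lit 1271251), (nat_lit 1271251), (nat_lit 780000), (nat_lit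 2090001), (nat_lit 0), (nat_lit 780000), [(nat_lit 1100000), (nat_lit 1785001), (nat_lit 1271251)], [(nat_lit 18), (nat_lit 59), (nat_lit 428), (nat_lit 200), (nat_lit 11)]⟩,
 ⟨⟨[(nat_lit 120), (nat_lit 160), (nat_lit 180)], [(nat_lit 0), (nat_lit 533), (nat_lit 2066)], [((nat_lit 0), (nat_lit 0), (nat_lit 0)), ((nat_lit 960), (nat_lit 1000), (nat_lit 200)), ((nat_lit 615), (nat_lit 1000), (nat_lit 729))], ((nat_lit 100), (nat_lit 61), (nat_lit 74))⟩, (nat_lit 108193), (nat_lit 300), (nat_lit 569), (nat_lit 16408785), (nat_lit 356104), [(nat_lit 1800768000), (nat_lit 2683072000), (nat_lit 3177108000)], [], [(nat_lit 12478499546), (nat_lit 12261795270), (nat_lit 11453248482), (nat_lit 11281868124), (nat_lit 9846780809), (nat_lit 9632625934), (nat_lit 12523695096), (nat_lit 9410722536)], (nat_lit 1271251), (nat_lit 1271251), (nat_lit 780000), (nat_lit 1762501), (nat_lit 0), (nat_lit 780000), [(nat_lit 1695001), (nat_lit 1271251), (nat_lit 1271251)],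 [(nat_lit 28), (nat_lit 65), (nat_lit 373), (nat_lit 150), (nat_lit 9)]⟩⟩) (.leaf ⟨(nat_lit 0), (nat_lit 388), (nat_lit 0), (nat_lit 612), (nat_lit 11301), (nat_lit 13038), (nat_lit 6708), (nat_lit 5016), (nat_lit 0), (nat_lit 0), (nat_lit 0), [], Pd.none, Pd.none, (nat_lit 0), (nat_lit 1), (nat_lit 0), (nat_lit 0), (nat_lit 4), (nat_lit 0), [], [], [], [],
 ⟨⟨[(nat_lit 40), (nat_lit 80), (nat_lit 120)], [(nat_lit 0), (nat_lit 0), (nat_lit 2151)], [((nat_lit 0), (nat_lit 0), (nat_lit 0)), ((nat_lit 0), (nat_lit 0), (nat_lit 0)), ((nat_lit 1000), (nat_lit 815), (nat_lit 753))], ((nat_lit 81), (nat_lit 100), (nat_lit 75))⟩, (nat_lit 0), (nat_lit 133), (nat_lit 133), (nat_lit 0), (nat_lit 152417), [(nat_lit 5333786040), (nat_lit 7944862229), (nat_lit 7968000000)], [], [(nat_lit 19335141232), (nat_lit 22609356524), (nat_lit 26437012994), (nat_lit 29752617995), (nat_lit 21937016168), (nat_lit 25646405061), (nat_lit 27545095796), (nat_lit 30158261002)],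 (nat_lit 1271251), (nat_lit 1271251), (nat_lit 780000), (nat_lit 2090001), (nat_lit 780000), (nat_lit 1762501), [(nat_lit 490000), (nat_lit 1100000), (nat_lit 1785001)], [(nat_lit 4), (nat_lit 51), (nat_lit 373), (nat_lit 150), (nat_lit 12)]⟩,
 ⟨⟨[(nat_lit 80), (nat_lit 120), (nat_lit 160)], [(nat_lit 0), (nat_lit 0), (nat_lit 2132)], [((nat_lit 0), (nat_lit 0), (nat_lit 0)), ((nat_lit 0), (nat_lit 0), (nat_lit 0)), ((nat_lit 858), (nat_lit 1000), (nat_lit 713))], ((nat_lit 100), (nat_lit 83), (nat_lit 75))⟩, (nat_lit 0), (nat_lit 233), (nat_lit 233), (nat_lit 0), (nat_lit 193390), [(nat_lit 4688000000), (nat_lit 7968000000), (nat_lit 11872000000)], [], [(nat_lit 38300392524), (nat_lit 33019104372), (nat_lit 36711215044), (nat_lit 35761446796), (nat_lit 48242955424), (nat_lit 41814155784), (nat_lit 64788716536), (nat_lit 53306525608)], (nat_lit 1271251), (nat_lit 1271251), (nat_lit 780000), (nat_lit 2090001), (nat_lit 780000), (nat_lit 3072501),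 [(nat_lit 1100000), (nat_lit 1785001), (nat_lit 1271251)], [(nat_lit 18), (nat_lit 59), (nat_lit 483), (nat_lit 250), (nat_lit 12)]⟩,
 ⟨⟨[(nat_lit 120), (nat_lit 160), (nat_lit 180)], [(nat_lit 0), (nat_lit 533), (nat_lit 2066)], [((nat_lit 0), (nat_lit 0), (nat_lit 0)), ((nat_lit 960), (nat_lit 1000), (nat_lit 200)), ((nat_lit 615), (nat_lit 1000), (nat_lit 729))], ((nat_lit 100), (nat_lit 61), (nat_lit 74))⟩, (nat_lit 1432975), (nat_lit 300), (nat_lit 561), (nat_lit 40636803), (nat_lit 564244), [(nat_lit 4876416000), (nat_lit 7265664000), (nat_lit 8603496000)], [], [(nat_lit 32989892250), (nat_lit 32829711981), (nat_lit 31972325533), (nat_lit 31745314615), (nat_lit 33129718204), (nat_lit 32745349454), (nat_lit 34343063856), (nat_lit 31141772348)], (nat_lit 1271251), (nat_lit 1271251), (nat_lit 780000), (nat_lit 1762501), (nat_lit 780000), (nat_lit 3072501), [(nat_lit 1695001), (nat_lit 1271251), (nat_lit 1271251)], [(nat_lit 28), (nat_lit 65),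 (nat_lit 456), (nat_lit 225), (nat_lit 10)]⟩⟩)) (.dle (nat_lit 0))))
noncomputable def c11_98 : Tr Lf :=
 (.spl (nat_lit 6) (nat_lit 56) (.spl (nat_lit 5) (nat_lit 120) (.spl (nat_lit 1) (nat_lit 260) (.dle (nat_lit 0)) (.leaf ⟨(nat_lit 0), (nat_lit 859), (nat_lit 0), (nat_lit 141), (nat_lit 41185), (nat_lit 5760), (nat_lit 9448), (nat_lit 2153), (nat_lit 0), (nat_lit 0), (nat_lit 0), [], Pd.none, Pd.none, (nat_lit 0), (nat_lit 1), (nat_lit 0), (nat_lit 0), (nat_lit 6), (nat_lit 0), [], [⟨(nat_lit 1), (nat_lit 85), (nat_lit 78), (nat_lit 100), (nat_lit 470029745)⟩], [], [],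
 ⟨⟨[(nat_lit 40), (nat_lit 80), (nat_lit 120)], [(nat_lit 0), (nat_lit 0), (nat_lit 2151)], [((nat_lit 0), (nat_lit 0), (nat_lit 0)), ((nat_lit 0), (nat_lit 0), (nat_lit 0)), ((nat_lit 1000), (nat_lit 815), (nat_lit 753))], ((nat_lit 81), (nat_lit 100), (nat_lit 70))⟩, (nat_lit 2113627), (nat_lit 130), (nat_lit 130), (nat_lit 0), (nat_lit 74242), [(nat_lit 2680947552), (nat_lit 4688000553), (nat_lit 7968000000)], [], [(nat_lit 22153287843), (nat_lit 23648707023), (nat_lit 25523563123), (nat_lit 26642215743), (nat_lit 27927621873), (nat_lit 29063721403), (nat_lit 30211303590), (nat_lit 31355900270)], (nat_lit 1271251), (nat_lit 1271251), (nat_lit 780000), (nat_lit 2090001), (nat_lit 1271251), (nat_lit 1271251), [(nat_lit 490000), (nat_lit 1100000), (nat_lit 1785001)], [(nat_lit 4), (nat_lit 51), (nat_lit 289), (nat_lit 75), (nat_lit 8)]⟩,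
 ⟨⟨[(nat_lit 80), (nat_lit 120), (nat_lit 160)], [(nat_lit 0), (nat_lit 528), (nat_lit 2577)], [((nat_lit 0), (nat_lit 0), (nat_lit 0)), ((nat_lit 1000), (nat_lit 959), (nat_lit 206)), ((nat_lit 929), (nat_lit 1000), (nat_lit 742))], ((nat_lit 100), (nat_lit 94), (nat_lit 73))⟩, (nat_lit 3983117), (nat_lit 324), (nat_lit 324), (nat_lit 0), (nat_lit 93630), [(nat_lit 4688000000), (nat_lit 7968000000), (nat_lit 11872000000)], [], [(nat_lit 30149954508), (nat_lit 26045640219), (nat_lit 38468481536), (nat_lit 34104242480), (nat_lit 25225958894), (nat_lit 20802119492), (nat_lit 45272703154), (nat_lit 41074732364)], (nat_lit 1271251), (nat_lit 1271251), (nat_lit 780000), (nat_lit 2090001), (nat_lit 0), (nat_lit 780000), [(nat_lit 1100000), (nat_lit 1785001), (nat_lit 1271251)], [(nat_lit 18), (nat_lit 59), (nat_lit 401), (nat_lit 175), (nat_lit 10)]⟩,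
 ⟨⟨[(nat_lit 140), (nat_lit 180), (nat_lit 200)], [(nat_lit 0), (nat_lit 0), (nat_lit 2835)], [((nat_lit 0), (nat_lit 0), (nat_lit 0)), ((nat_lit 0), (nat_lit 0), (nat_lit 0)), ((nat_lit 363), (nat_lit 1000), (nat_lit 798))], ((nat_lit 0), (nat_lit 0), (nat_lit 0))⟩, (nat_lit 38794), (nat_lit 300), (nat_lit 643), (nat_lit 11012100), (nat_lit 402860), [(nat_lit 1387722000), (nat_lit 1982178000), (nat_lit 2312400000)], [], [(nat_lit 9196529896), (nat_lit 8785280761), (nat_lit 9584966968), (nat_lit 9098480828), (nat_lit 7343222648), (nat_lit 6872115987), (nat_lit 7570597456), (nat_lit 7119499463)], (nat_lit 780000), (nat_lit 1271251), (nat_lit 1271251), (nat_lit 1271251), (nat_lit 0), (nat_lit 780000), [(nat_lit 1977501), (nat_lit 1271251), (nat_lit 1271251)], [(nat_lit 32), (nat_lit 67), (nat_lit 401), (nat_lit 175), (nat_lit 9)]⟩⟩)) (.leaf ⟨(nat_lit 0), (nat_lit 390), (nat_lit 0), (nat_lit 610), (nat_lit 3896), (nat_lit 9049), (nat_lit 6467), (nat_lit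 7195), (nat_lit 0), (nat_lit 0), (nat_lit 0), [], Pd.none, Pd.none, (nat_lit 0), (nat_lit 1), (nat_lit 0), (nat_lit 0), (nat_lit 6), (nat_lit 0), [], [⟨(nat_lit 1), (nat_lit 85), (nat_lit 78), (nat_lit 100), (nat_lit 11251043)⟩], [], [],
 ⟨⟨[(nat_lit 40), (nat_lit 80), (nat_lit 120)], [(nat_lit 0), (nat_lit 0), (nat_lit 2151)], [((nat_lit 0), (nat_lit 0), (nat_lit 0)), ((nat_lit 0), (nat_lit 0), (nat_lit 0)), ((nat_lit 1000), (nat_lit 815), (nat_lit 753))], ((nat_lit 81), (nat_lit 100), (nat_lit 70))⟩, (nat_lit 0), (nat_lit 130), (nat_lit 130), (nat_lit 0), (nat_lit 74242), [(nat_lit 3425529723), (nat_lit 6812553672), (nat_lit 7968000000)], [], [(nat_lit 24330146048), (nat_lit 26315767655), (nat_lit 27467158870), (nat_lit 28905336196), (nat_lit 31618087745), (nat_lit 33078364066), (nat_lit 33070954241), (nat_lit 34537500442)], (nat_lit 1271251), (nat_lit 1271251), (nat_lit 780000), (nat_lit 2090001), (nat_lit 1271251), (nat_lit 1271251), [(nat_lit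 490000), (nat_lit 1100000), (nat_lit 1785001)], [(nat_lit 4), (nat_lit 51), (nat_lit 289), (nat_lit 75), (nat_lit 8)]⟩,
 ⟨⟨[(nat_lit 80), (nat_lit 120), (nat_lit 160)], [(nat_lit 0), (nat_lit 0), (nat_lit 2132)], [((nat_lit 0), (nat_lit 0), (nat_lit 0)), ((nat_lit 0), (nat_lit 0), (nat_lit 0)), ((nat_lit 858), (nat_lit 1000), (nat_lit 713))], ((nat_lit 100), (nat_lit 86), (nat_lit 71))⟩, (nat_lit 0), (nat_lit 205), (nat_lit 205), (nat_lit 0), (nat_lit 116649), [(nat_lit 4688000000), (nat_lit 7968000000), (nat_lit 11872000000)], [], [(nat_lit 37929179501), (nat_lit 31143190606), (nat_lit 36787734231), (nat_lit 34395290402), (nat_lit 48046364976), (nat_lit 42226304255), (nat_lit 64185941314), (nat_lit 58651107628)], (nat_lit 1271251), (nat_lit 1271251), (nat_lit 780000), (nat_lit 2090001), (nat_lit 780000), (nat_lit 3072501), [(nat_lit 1100000), (nat_lit 1785001), (nat_lit 1271251)], [(nat_lit 18), (nat_lit 59), (nat_lit 483), (nat_lit 250), (nat_lit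 12)]⟩,
 ⟨⟨[(nat_lit 140), (nat_lit 180), (nat_lit 200)], [(nat_lit 0), (nat_lit 0), (nat_lit 2835)], [((nat_lit 0), (nat_lit 0), (nat_lit 0)), ((nat_lit 0), (nat_lit 0), (nat_lit 0)), ((nat_lit 363), (nat_lit 1000), (nat_lit 798))], ((nat_lit 0), (nat_lit 0), (nat_lit 0))⟩, (nat_lit 167831), (nat_lit 300), (nat_lit 641), (nat_lit 47641000), (nat_lit 629992), [(nat_lit 6003620000), (nat_lit 8575380000), (nat_lit 10004000000)], [], [(nat_lit 36331626690), (nat_lit 34879493555), (nat_lit 36181029113), (nat_lit 34599998144), (nat_lit 33380594460), (nat_lit 31722036875), (nat_lit 32631642185), (nat_lit 30961552955)], (nat_lit 780000), (nat_lit 1271251), (nat_lit 1271251), (nat_lit 1271251), (nat_lit 780000), (nat_lit 3072501), [(nat_lit 1977501), (nat_lit 1271251), (nat_lit 1271251)], [(nat_lit 32), (nat_lit 67), (nat_lit 483), (nat_lit 250), (nat_lit 10)]⟩⟩)) (.dle (nat_lit 0)))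
def l018 : List St := [⟨⟨(nat_lit 330), (nat_lit 340), (nat_lit 240), (nat_lit 320), (nat_lit 120), (nat_lit 160), (nat_lit 120), (nat_lit 280), (nat_lit 240), (nat_lit 330), (nat_lit 0), (nat_lit 390), (nat_lit 0), (nat_lit 24)⟩, (nat_lit 1), (nat_lit 3), (nat_lit 1), false, false, false⟩,
  ⟨⟨(nat_lit 330), (nat_lit 340), (nat_lit 240), (nat_lit 320), (nat_lit 160), (nat_lit 180), (nat_lit 120), (nat_lit 280), (nat_lit 240), (nat_lit 340), (nat_lit 0), (nat_lit 400), (nat_lit 0), (nat_lit 24)⟩, (nat_lit 3), (nat_lit 0), (nat_lit 1), false, false, false⟩,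
  ⟨⟨(nat_lit 330), (nat_lit 340), (nat_lit 240), (nat_lit 320), (nat_lit 160), (nat_lit 180), (nat_lit 120), (nat_lit 280), (nat_lit 240), (nat_lit 340), (nat_lit 0), (nat_lit 400), (nat_lit 0), (nat_lit 24)⟩, (nat_lit 3), (nat_lit 1), (nat_lit 1), false, false, false⟩,
  ⟨⟨(nat_lit 330), (nat_lit 340), (nat_lit 240), (nat_lit 320), (nat_lit 180), (nat_lit 220), (nat_lit 120), (nat_lit 280), (nat_lit 240), (nat_lit 370), (nat_lit 0), (nat_lit 400), (nat_lit 0), (nat_lit 24)⟩, (nat_lit 3), (nat_lit 3), (nat_lit 1), false, false, false⟩,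
  ⟨⟨(nat_lit 320), (nat_lit 340), (nat_lit 240), (nat_lit 320), (nat_lit 120), (nat_lit 180), (nat_lit 120), (nat_lit 200), (nat_lit 120), (nat_lit 240), (nat_lit 0), (nat_lit 400), (nat_lit 24), (nat_lit 44)⟩, (nat_lit 0), (nat_lit 3), (nat_lit 3), false, false, false⟩,
  ⟨⟨(nat_lit 320), (nat_lit 340), (nat_lit 240), (nat_lit 320), (nat_lit 120), (nat_lit 180), (nat_lit 120), (nat_lit 200), (nat_lit 120), (nat_lit 240), (nat_lit 0), (nat_lit 400), (nat_lit 24), (nat_lit 44)⟩, (nat_lit 1), (nat_lit 3), (nat_lit 3), false, false, false⟩,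
  ⟨⟨(nat_lit 320), (nat_lit 340), (nat_lit 240), (nat_lit 320), (nat_lit 180), (nat_lit 220), (nat_lit 120), (nat_lit 200), (nat_lit 120), (nat_lit 240), (nat_lit 0), (nat_lit 400), (nat_lit 24), (nat_lit 44)⟩, (nat_lit 3), (nat_lit 3), (nat_lit 3), false, false, false⟩,
  ⟨⟨(nat_lit 320), (nat_lit 340), (nat_lit 240), (nat_lit 320), (nat_lit 120), (nat_lit 220), (nat_lit 200), (nat_lit 280), (nat_lit 120), (nat_lit 240), (nat_lit 0), (nat_lit 400), (nat_lit 24), (nat_lit 44)⟩, (nat_lit 3), (nat_lit 3), (nat_lit 3), false, false, false⟩,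
  ⟨⟨(nat_lit 320), (nat_lit 340), (nat_lit 240), (nat_lit 320), (nat_lit 120), (nat_lit 140), (nat_lit 120), (nat_lit 200), (nat_lit 240), (nat_lit 280), (nat_lit 0), (nat_lit 380), (nat_lit 24), (nat_lit 44)⟩, (nat_lit 0), (nat_lit 3), (nat_lit 3), false, false, false⟩,
  ⟨⟨(nat_lit 320), (nat_lit 340), (nat_lit 240), (nat_lit 320), (nat_lit 120), (nat_lit 140), (nat_lit 120), (nat_lit 200), (nat_lit 280), (nat_lit 320), (nat_lit 0), (nat_lit 380), (nat_lit 24), (nat_lit 44)⟩, (nat_lit 0), (nat_lit 3), (nat_lit 3), false, false, false⟩,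
  ⟨⟨(nat_lit 320), (nat_lit 340), (nat_lit 240), (nat_lit 320), (nat_lit 120), (nat_lit 140), (nat_lit 200), (nat_lit 280), (nat_lit 240), (nat_lit 320), (nat_lit 0), (nat_lit 380), (nat_lit 24), (nat_lit 44)⟩, (nat_lit 0), (nat_lit 3), (nat_lit 3), false, false, false⟩,
  ⟨⟨(nat_lit 320), (nat_lit 340), (nat_lit 240), (nat_lit 280), (nat_lit 140), (nat_lit 160), (nat_lit 120), (nat_lit 280), (nat_lit 240), (nat_lit 340), (nat_lit 0), (nat_lit 390), (nat_lit 24), (nat_lit 44)⟩, (nat_lit 0), (nat_lit 3), (nat_lit 3), false, false, false⟩,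
  ⟨⟨(nat_lit 320), (nat_lit 340), (nat_lit 280), (nat_lit 320), (nat_lit 140), (nat_lit 160), (nat_lit 120), (nat_lit 280), (nat_lit 240), (nat_lit 340), (nat_lit 0), (nat_lit 390), (nat_lit 24), (nat_lit 44)⟩, (nat_lit 0), (nat_lit 3), (nat_lit 3), false, false, false⟩,
  ⟨⟨(nat_lit 320), (nat_lit 340), (nat_lit 240), (nat_lit 320), (nat_lit 160), (nat_lit 180), (nat_lit 120), (nat_lit 280), (nat_lit 240), (nat_lit 350), (nat_lit 0), (nat_lit 400), (nat_lit 24), (nat_lit 44)⟩, (nat_lit 0), (nat_lit 3), (nat_lit 3), false, false, false⟩,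
  ⟨⟨(nat_lit 320), (nat_lit 340), (nat_lit 240), (nat_lit 320), (nat_lit 120), (nat_lit 180), (nat_lit 120), (nat_lit 280), (nat_lit 240), (nat_lit 350), (nat_lit 0), (nat_lit 400), (nat_lit 24), (nat_lit 44)⟩, (nat_lit 1), (nat_lit 0), (nat_lit 3), false, false, false⟩,
  ⟨⟨(nat_lit 320), (nat_lit 340), (nat_lit 240), (nat_lit 320), (nat_lit 120), (nat_lit 180), (nat_lit 120), (nat_lit 280), (nat_lit 240), (nat_lit 350), (nat_lit 0), (nat_lit 400), (nat_lit 24), (nat_lit 44)⟩, (nat_lit 1), (nat_lit 1), (nat_lit 3), false, false, false⟩,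
  ⟨⟨(nat_lit 320), (nat_lit 340), (nat_lit 240), (nat_lit 320), (nat_lit 180), (nat_lit 220), (nat_lit 120), (nat_lit 280), (nat_lit 240), (nat_lit 380), (nat_lit 0), (nat_lit 400), (nat_lit 24), (nat_lit 44)⟩, (nat_lit 3), (nat_lit 3), (nat_lit 3), false, false, false⟩,
  ⟨⟨(nat_lit 320), (nat_lit 340), (nat_lit 240), (nat_lit 320), (nat_lit 120), (nat_lit 220), (nat_lit 280), (nat_lit 400), (nat_lit 120), (nat_lit 380), (nat_lit 0), (nat_lit 400), (nat_lit 0), (nat_lit 44)⟩, (nat_lit 3), (nat_lit 3), (nat_lit 0), false, false, false⟩,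
  ⟨⟨(nat_lit 320), (nat_lit 340), (nat_lit 240), (nat_lit 280), (nat_lit 120), (nat_lit 180), (nat_lit 280), (nat_lit 400), (nat_lit 120), (nat_lit 240), (nat_lit 0), (nat_lit 400), (nat_lit 0), (nat_lit 44)⟩, (nat_lit 3), (nat_lit 3), (nat_lit 1), false, false, false⟩,
  ⟨⟨(nat_lit 320), (nat_lit 340), (nat_lit 240), (nat_lit 280), (nat_lit 120), (nat_lit 180), (nat_lit 280), (nat_lit 400), (nat_lit 240), (nat_lit 350), (nat_lit 0), (nat_lit 400), (nat_lit 0), (nat_lit 44)⟩, (nat_lit 3), (nat_lit 3), (nat_lit 1), false, false, false⟩,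
  ⟨⟨(nat_lit 320), (nat_lit 340), (nat_lit 280), (nat_lit 320), (nat_lit 120), (nat_lit 180), (nat_lit 280), (nat_lit 400), (nat_lit 120), (nat_lit 240), (nat_lit 0), (nat_lit 380), (nat_lit 0), (nat_lit 44)⟩, (nat_lit 3), (nat_lit 3), (nat_lit 1), false, false, false⟩,
  ⟨⟨(nat_lit 320), (nat_lit 340), (nat_lit 280), (nat_lit 320), (nat_lit 120), (nat_lit 180), (nat_lit 280), (nat_lit 400), (nat_lit 240), (nat_lit 350), (nat_lit 0), (nat_lit 380), (nat_lit 0), (nat_lit 44)⟩, (nat_lit 3), (nat_lit 3), (nat_lit 1), false, false, false⟩,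
  ⟨⟨(nat_lit 320), (nat_lit 340), (nat_lit 240), (nat_lit 320), (nat_lit 180), (nat_lit 220), (nat_lit 280), (nat_lit 400), (nat_lit 120), (nat_lit 380), (nat_lit 0), (nat_lit 400), (nat_lit 0), (nat_lit 44)⟩, (nat_lit 3), (nat_lit 3), (nat_lit 1), false, false, false⟩,
  ⟨⟨(nat_lit 320), (nat_lit 340), (nat_lit 240), (nat_lit 280), (nat_lit 220), (nat_lit 320), (nat_lit 60), (nat_lit 120), (nat_lit 120), (nat_lit 400), (nat_lit 0), (nat_lit 400), (nat_lit 0), (nat_lit 44)⟩, (nat_lit 3), (nat_lit 3), (nat_lit 3), true, false, false⟩,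
  ⟨⟨(nat_lit 320), (nat_lit 340), (nat_lit 280), (nat_lit 320), (nat_lit 220), (nat_lit 320), (nat_lit 60), (nat_lit 120), (nat_lit 120), (nat_lit 400), (nat_lit 0), (nat_lit 400), (nat_lit 0), (nat_lit 44)⟩, (nat_lit 3), (nat_lit 3), (nat_lit 3), true, false, false⟩,
  ⟨⟨(nat_lit 320), (nat_lit 340), (nat_lit 240), (nat_lit 320), (nat_lit 220), (nat_lit 320), (nat_lit 120), (nat_lit 400), (nat_lit 120), (nat_lit 400), (nat_lit 0), (nat_lit 400), (nat_lit 0), (nat_lit 44)⟩, (nat_lit 3), (nat_lit 3), (nat_lit 0), false, false, false⟩,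
  ⟨⟨(nat_lit 320), (nat_lit 340), (nat_lit 240), (nat_lit 320), (nat_lit 220), (nat_lit 320), (nat_lit 120), (nat_lit 400), (nat_lit 120), (nat_lit 400), (nat_lit 0), (nat_lit 400), (nat_lit 0), (nat_lit 44)⟩, (nat_lit 3), (nat_lit 0), (nat_lit 1), false, false, false⟩,
  ⟨⟨(nat_lit 320), (nat_lit 340), (nat_lit 240), (nat_lit 320), (nat_lit 220), (nat_lit 320), (nat_lit 120), (nat_lit 400), (nat_lit 120), (nat_lit 400), (nat_lit 0), (nat_lit 400), (nat_lit 0), (nat_lit 44)⟩, (nat_lit 0), (nat_lit 1), (nat_lit 1), false, false, false⟩,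
  ⟨⟨(nat_lit 320), (nat_lit 340), (nat_lit 240), (nat_lit 320), (nat_lit 220), (nat_lit 320), (nat_lit 120), (nat_lit 400), (nat_lit 120), (nat_lit 400), (nat_lit 0), (nat_lit 400), (nat_lit 0), (nat_lit 44)⟩, (nat_lit 1), (nat_lit 1), (nat_lit 1), false, false, false⟩,
  ⟨⟨(nat_lit 320), (nat_lit 340), (nat_lit 240), (nat_lit 320), (nat_lit 120), (nat_lit 220), (nat_lit 60), (nat_lit 120), (nat_lit 120), (nat_lit 240), (nat_lit 0), (nat_lit 400), (nat_lit 44), (nat_lit 88)⟩, (nat_lit 3), (nat_lit 3), (nat_lit 3), true, false, false⟩,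
  ⟨⟨(nat_lit 320), (nat_lit 340), (nat_lit 240), (nat_lit 320), (nat_lit 120), (nat_lit 220), (nat_lit 60), (nat_lit 120), (nat_lit 240), (nat_lit 380), (nat_lit 0), (nat_lit 400), (nat_lit 44), (nat_lit 88)⟩, (nat_lit 3), (nat_lit 3), (nat_lit 3), true, false, false⟩,
  ⟨⟨(nat_lit 320), (nat_lit 340), (nat_lit 240), (nat_lit 320), (nat_lit 220), (nat_lit 320), (nat_lit 60), (nat_lit 120), (nat_lit 120), (nat_lit 400), (nat_lit 0), (nat_lit 400), (nat_lit 44), (nat_lit 88)⟩, (nat_lit 3), (nat_lit 3), (nat_lit 3), true, false, false⟩,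
  ⟨⟨(nat_lit 320), (nat_lit 340), (nat_lit 240), (nat_lit 320), (nat_lit 120), (nat_lit 220), (nat_lit 120), (nat_lit 280), (nat_lit 120), (nat_lit 240), (nat_lit 0), (nat_lit 400), (nat_lit 44), (nat_lit 88)⟩, (nat_lit 3), (nat_lit 3), (nat_lit 3), false, false, false⟩,
  ⟨⟨(nat_lit 320), (nat_lit 340), (nat_lit 240), (nat_lit 280), (nat_lit 120), (nat_lit 180), (nat_lit 120), (nat_lit 280), (nat_lit 240), (nat_lit 350), (nat_lit 0), (nat_lit 400), (nat_lit 44), (nat_lit 88)⟩, (nat_lit 3), (nat_lit 3), (nat_lit 3), false, false, false⟩]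
theorem t018 (h : EC env Ei) : ∀ τ ∈ l018, Dead τ :=
  List.forall_mem_cons.mpr ⟨chkT_sound0 h (T := c11_65) (by decide +kernel),
  List.forall_mem_cons.mpr ⟨chkT_sound0 h (T := c11_66) (by decide +kernel),
  List.forall_mem_cons.mpr ⟨chkT_sound0 h (T := c11_67) (by decide +kernel),
  List.forall_mem_cons.mpr ⟨chkT_sound0 h (T := c11_68) (by decide +kernel),
  List.forall_mem_cons.mpr ⟨chkT_sound0 h (T := c11_69) (by decide +kernel),
  List.forall_mem_cons.mpr ⟨chkT_sound0 h (T := c11_70) (by decide +kernel),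
  List.forall_mem_cons.mpr ⟨chkT_sound0 h (T := c11_71) (by decide +kernel),
  List.forall_mem_cons.mpr ⟨chkT_sound0 h (T := c11_72) (by decide +kernel),
  List.forall_mem_cons.mpr ⟨chkT_sound0 h (T := c11_73) (by decide +kernel),
  List.forall_mem_cons.mpr ⟨chkT_sound0 h (T := c11_74) (by decide +kernel),
  List.forall_mem_cons.mpr ⟨chkT_sound0 h (T := c11_75) (by decide +kernel),
  List.forall_mem_cons.mpr ⟨chkT_sound0 h (T := c11_76) (by decide +kernel),
  List.forall_mem_cons.mpr ⟨chkT_sound0 h (T := c11_77) (by decide +kernel),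
  List.forall_mem_cons.mpr ⟨chkT_sound0 h (T := c11_78) (by decide +kernel),
  List.forall_mem_cons.mpr ⟨chkT_sound0 h (T := c11_79) (by decide +kernel),
  List.forall_mem_cons.mpr ⟨chkT_sound0 h (T := c11_80) (by decide +kernel),
  List.forall_mem_cons.mpr ⟨chkT_sound0 h (T := c11_81) (by decide +kernel),
  List.forall_mem_cons.mpr ⟨chkT_sound0 h (T := c11_82) (by decide +kernel),
  List.forall_mem_cons.mpr ⟨chkT_sound0 h (T := c11_83) (by decide +kernel),
  List.forall_mem_cons.mpr ⟨chkT_sound0 h (T := c11_84) (by decide +kernel),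
  List.forall_mem_cons.mpr ⟨chkT_sound0 h (T := c11_85) (by decide +kernel),
  List.forall_mem_cons.mpr ⟨chkT_sound0 h (T := c11_86) (by decide +kernel),
  List.forall_mem_cons.mpr ⟨chkT_sound0 h (T := c11_87) (by decide +kernel),
  List.forall_mem_cons.mpr ⟨chkT_sound0 h (T := c11_88) (by decide +kernel),
  List.forall_mem_cons.mpr ⟨chkT_sound0 h (T := c11_89) (by decide +kernel),
  List.forall_mem_cons.mpr ⟨chkT_sound0 h (T := c11_90) (by decide +kernel),
  List.forall_mem_cons.mpr ⟨chkT_sound0 h (T := c11_91) (by decide +kernel),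
  List.forall_mem_cons.mpr ⟨chkT_sound0 h (T := c11_92) (by decide +kernel),
  List.forall_mem_cons.mpr ⟨chkT_sound0 h (T := c11_93) (by decide +kernel),
  List.forall_mem_cons.mpr ⟨chkT_sound0 h (T := c11_94) (by decide +kernel),
  List.forall_mem_cons.mpr ⟨chkT_sound0 h (T := c11_95) (by decide +kernel),
  List.forall_mem_cons.mpr ⟨chkT_sound0 h (T := c11_96) (by decide +kernel),
  List.forall_mem_cons.mpr ⟨chkT_sound0 h (T := c11_97) (by decide +kernel),
  List.forall_mem_cons.mpr ⟨chkT_sound0 h (T := c11_98) (by decide +kernel),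
  List.forall_mem_nil _⟩⟩⟩⟩⟩⟩⟩⟩⟩⟩⟩⟩⟩⟩⟩⟩⟩⟩⟩⟩⟩⟩⟩⟩⟩⟩⟩⟩⟩⟩⟩⟩⟩⟩
end TC
end Pool.Agent.Lib.MP_6947cd_al
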