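import Pool.Agent.Lib.MP_6947cd_al.C.LeafF
import Pool.Agent.Lib.MP_6947cd_al.TC.E
import Pool.Agent.Lib.MP_6947cd_al.TC.F

/-!
Problem MP_6947cd_al (Chollet).  CASE C, tables and certificates.  Trees of leaves (part 19 of root 11).
-/

set_option autoImplicit false
set_option linter.all false
set_option maxRecDepth 100000
set_option maxHeartbeats 4000000
namespace Pool.Agent.Lib.MP_6947cd_al
namespace TC
open C1
noncomputable def c11_99 : Tr Lf :=
 (.spl (nat_lit 1) (nat_lit 300) (.spl (nat_lit 6) (nat_lit 68) (.spl (nat_lit 6) (nat_lit 56) (.leaf ⟨(nat_lit 0), (nat_lit 879), (nat_lit 0), (nat_lit 121), (nat_lit 11972), (nat_lit 5760), (nat_lit 9082), (nat_lit 1832), (nat_lit 0), (nat_lit 0), (nat_lit 0), [], Pd.none, Pd.none, (nat_lit 0), (nat_lit 1), (nat_lit 0), (nat_lit 0), (nat_lit 6), (nat_lit 0), [⟨(nat_lit 0), (nat_lit 97), (nat_lit 82), (nat_lit 100), (nat_lit 208137311)⟩], [⟨(nat_lit 1), (nat_lit 85), (nat_lit 78), (nat_lit 100), (nat_lit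 506699430)⟩], [], [],
 ⟨⟨[(nat_lit 40), (nat_lit 80), (nat_lit 120)], [(nat_lit 0), (nat_lit 0), (nat_lit 2151)], [((nat_lit 0), (nat_lit 0), (nat_lit 0)), ((nat_lit 0), (nat_lit 0), (nat_lit 0)), ((nat_lit 1000), (nat_lit 815), (nat_lit 753))], ((nat_lit 81), (nat_lit 100), (nat_lit 70))⟩, (nat_lit 2195389), (nat_lit 160), (nat_lit 160), (nat_lit 0), (nat_lit 179902), [(nat_lit 2410708782), (nat_lit 4688000803), (nat_lit 7968000000)], [], [(nat_lit 21977417781), (nat_lit 23472836961), (nat_lit 25347693061), (nat_lit 26541231203), (nat_lit 27751751811), (nat_lit 29063719846), (nat_lit 30211303590), (nat_lit 31355900270)], (nat_lit 1271251), (nat_lit 1271251), (nat_lit 780000), (nat_lit 2090001), (nat_lit 1271251), (nat_lit 1271251), [(nat_lit 490000), (nat_lit 1100000), (nat_lit 1785001)], [(nat_lit 4), (nat_lit 51), (nat_lit 289), (nat_lit 75), (nat_lit 8)]⟩,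
 ⟨⟨[(nat_lit 60), (nat_lit 100), (nat_lit 140)], [(nat_lit 0), (nat_lit 0), (nat_lit 2047)], [((nat_lit 0), (nat_lit 0), (nat_lit 0)), ((nat_lit 0), (nat_lit 0), (nat_lit 0)), ((nat_lit 1000), (nat_lit 993), (nat_lit 781))], ((nat_lit 98), (nat_lit 100), (nat_lit 74))⟩, (nat_lit 1508304), (nat_lit 298), (nat_lit 298), (nat_lit 0), (nat_lit 193658), [(nat_lit 3282000000), (nat_lit 6250000000), (nat_lit 9842000000)], [], [(nat_lit 27416944502), (nat_lit 28592762031), (nat_lit 31978184672), (nat_lit 33373370364), (nat_lit 21453052638), (nat_lit 22831942213), (nat_lit 36413519183), (nat_lit 32326076534)], (nat_lit 1271251), (nat_lit 1271251), (nat_lit 780000), (nat_lit 2090001), (nat_lit 0), (nat_lit 780000), [(nat_lit 780000), (nat_lit 1435001), (nat_lit 1271251)], [(nat_lit 11), (nat_lit 55), (nat_lit 317), (nat_lit 100), (nat_lit 9)]⟩,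
 ⟨⟨[(nat_lit 140), (nat_lit 180), (nat_lit 200)], [(nat_lit 0), (nat_lit 0), (nat_lit 2835)], [((nat_lit 0), (nat_lit 0), (nat_lit 0)), ((nat_lit 0), (nat_lit 0), (nat_lit 0)), ((nat_lit 363), (nat_lit 1000), (nat_lit 798))], ((nat_lit 0), (nat_lit 0), (nat_lit 0))⟩, (nat_lit 33291), (nat_lit 300), (nat_lit 884), (nat_lit 9450101), (nat_lit 937703), [(nat_lit 1190882000), (nat_lit 1701018000), (nat_lit 1984400000)], [], [(nat_lit 7887615720), (nat_lit 7538746865), (nat_lit 8220623609), (nat_lit 7807703896), (nat_lit 6335239654), (nat_lit 5935272591), (nat_lit 6508168904), (nat_lit 6125332209)], (nat_lit 780000), (nat_lit 1271251), (nat_lit 1271251), (nat_lit 1271251), (nat_lit 0), (nat_lit 780000), [(nat_lit 1977501), (nat_lit 1271251), (nat_lit 1271251)], [(nat_lit 32), (nat_lit 67), (nat_lit 401), (nat_lit 175), (nat_lit 9)]⟩⟩) (.spl (nat_lit 0) (nat_lit 330) (.spl (nat_lit 6) (nat_lit 60) (.leaf ⟨(nat_lit 0), (nat_lit 981), (nat_lit 0), (nat_lit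 19), (nat_lit 60186), (nat_lit 9258), (nat_lit 5215), (nat_lit 251), (nat_lit 0), (nat_lit 0), (nat_lit 0), [], Pd.none, Pd.none, (nat_lit 0), (nat_lit 1), (nat_lit 0), (nat_lit 0), (nat_lit 6), (nat_lit 0), [⟨(nat_lit 0), (nat_lit 92), (nat_lit 81), (nat_lit 100), (nat_lit 317597971)⟩], [⟨(nat_lit 1), (nat_lit 83), (nat_lit 81), (nat_lit 100), (nat_lit 687920900)⟩], [], [],
 ⟨⟨[(nat_lit 40), (nat_lit 80), (nat_lit 120)], [(nat_lit 0), (nat_lit 0), (nat_lit 2151)], [((nat_lit 0), (nat_lit 0), (nat_lit 0)), ((nat_lit 0), (nat_lit 0), (nat_lit 0)), ((nat_lit 1000), (nat_lit 815), (nat_lit 753))], ((nat_lit 81), (nat_lit 100), (nat_lit 72))⟩, (nat_lit 0), (nat_lit 99), (nat_lit 99), (nat_lit 0), (nat_lit 41459), [(nat_lit 3317120710), (nat_lit 6946148700), (nat_lit 7968000000)], [], [(nat_lit 24179572416), (nat_lit 25187958213), (nat_lit 27301762540), (nat_lit 28031003326), (nat_lit 31563696540), (nat_lit 32304498257), (nat_lit 33252671172), (nat_lit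 33996173438)], (nat_lit 1271251), (nat_lit 1271251), (nat_lit 780000), (nat_lit 2090001), (nat_lit 1271251), (nat_lit 1271251), [(nat_lit 490000), (nat_lit 1100000), (nat_lit 1785001)], [(nat_lit 4), (nat_lit 51), (nat_lit 289), (nat_lit 75), (nat_lit 8)]⟩,
 ⟨⟨[(nat_lit 60), (nat_lit 100), (nat_lit 140)], [(nat_lit 0), (nat_lit 0), (nat_lit 2047)], [((nat_lit 0), (nat_lit 0), (nat_lit 0)), ((nat_lit 0), (nat_lit 0), (nat_lit 0)), ((nat_lit 1000), (nat_lit 993), (nat_lit 781))], ((nat_lit 99), (nat_lit 100), (nat_lit 77))⟩, (nat_lit 3641774), (nat_lit 193), (nat_lit 193), (nat_lit 0), (nat_lit 42245), [(nat_lit 3282000000), (nat_lit 6250000000), (nat_lit 9842000000)], [], [(nat_lit 21394686087), (nat_lit 22725232215), (nat_lit 26718108245), (nat_lit 27880282508), (nat_lit 19198766342), (nat_lit 20385596180), (nat_lit 24432695253), (nat_lit 25470255354)], (nat_lit 1271251), (nat_lit 1271251), (nat_lit 780000), (nat_lit 2090001), (nat_lit 0), (nat_lit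 780000), [(nat_lit 780000), (nat_lit 1435001), (nat_lit 1271251)], [(nat_lit 11), (nat_lit 55), (nat_lit 317), (nat_lit 100), (nat_lit 9)]⟩,
 ⟨⟨[(nat_lit 140), (nat_lit 180), (nat_lit 200)], [(nat_lit 0), (nat_lit 0), (nat_lit 2835)], [((nat_lit 0), (nat_lit 0), (nat_lit 0)), ((nat_lit 0), (nat_lit 0), (nat_lit 0)), ((nat_lit 363), (nat_lit 1000), (nat_lit 798))], ((nat_lit 0), (nat_lit 0), (nat_lit 0))⟩, (nat_lit 5228), (nat_lit 300), (nat_lit 521), (nat_lit 1483900), (nat_lit 185556), [(nat_lit 186998000), (nat_lit 267102000), (nat_lit 311600000)], [], [(nat_lit 1228377116), (nat_lit 1182841783), (nat_lit 1279627070), (nat_lit 1225503431), (nat_lit 1016393306), (nat_lit 969335273), (nat_lit 1048758091), (nat_lit 998687481)], (nat_lit 780000), (nat_lit 1271251), (nat_lit 1271251), (nat_lit 1271251), (nat_lit 0), (nat_lit 780000), [(nat_lit 1977501), (nat_lit 1271251), (nat_lit 1271251)], [(nat_lit 32), (nat_lit 67), (nat_lit 401), (nat_lit 175),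 (nat_lit 9)]⟩⟩) (.dle (nat_lit 0))) (.trX (nat_lit 4) (nat_lit 0) (nat_lit 2) (nat_lit 76) (nat_lit 73) (nat_lit 100) (nat_lit 340) (.leaf ⟨(nat_lit 0), (nat_lit 919), (nat_lit 0), (nat_lit 81), (nat_lit 32574), (nat_lit 5905), (nat_lit 6087), (nat_lit 1226), (nat_lit 0), (nat_lit 0), (nat_lit 0), [], Pd.none, Pd.none, (nat_lit 0), (nat_lit 1), (nat_lit 0), (nat_lit 0), (nat_lit 6), (nat_lit 0), [⟨(nat_lit 0), (nat_lit 90), (nat_lit 74), (nat_lit 100), (nat_lit 470814228)⟩], [⟨(nat_lit 1), (nat_lit 87), (nat_lit 76), (nat_lit 100), (nat_lit 549994487)⟩], [⟨(nat_lit 0), (nat_lit 100), (nat_lit 92), (nat_lit 22), (nat_lit 136475767)⟩], [],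
 ⟨⟨[(nat_lit 40), (nat_lit 80), (nat_lit 120)], [(nat_lit 0), (nat_lit 395), (nat_lit 2466)], [((nat_lit 0), (nat_lit 0), (nat_lit 0)), ((nat_lit 1000), (nat_lit 908), (nat_lit 154)), ((nat_lit 1000), (nat_lit 773), (nat_lit 792))], ((nat_lit 77), (nat_lit 100), (nat_lit 76))⟩, (nat_lit 1846824), (nat_lit 129), (nat_lit 129), (nat_lit 0), (nat_lit 82917), [(nat_lit 2539396234), (nat_lit 5110085410), (nat_lit 7968000000)], [], [(nat_lit 22799481784), (nat_lit 23557996991), (nat_lit 25967327815), (nat_lit 26533697464), (nat_lit 27848436652), (nat_lit 28440428997), (nat_lit 30302260302), (nat_lit 30899212853)], (nat_lit 1271251), (nat_lit 1271251), (nat_lit 780000), (nat_lit 2090001), (nat_lit 1271251), (nat_lit 1271251), [(nat_lit 490000), (nat_lit 1100000), (nat_lit 1785001)], [(nat_lit 4), (nat_lit 51), (nat_lit 289), (nat_lit 75), (nat_lit 8)]⟩,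
 ⟨⟨[(nat_lit 60), (nat_lit 120), (nat_lit 160)], [(nat_lit 0), (nat_lit 0), (nat_lit 3243)], [((nat_lit 0), (nat_lit 0), (nat_lit 0)), ((nat_lit 0), (nat_lit 0), (nat_lit 0)), ((nat_lit 878), (nat_lit 1000), (nat_lit 945))], ((nat_lit 100), (nat_lit 99), (nat_lit 82))⟩, (nat_lit 2212231), (nat_lit 327), (nat_lit 327), (nat_lit 0), (nat_lit 91448), [(nat_lit 3282000000), (nat_lit 7968000000), (nat_lit 11872000000)], [], [(nat_lit 34186043580), (nat_lit 34174866244), (nat_lit 35974286603), (nat_lit 36876741707), (nat_lit 29749279565), (nat_lit 30606623333), (nat_lit 32688751611), (nat_lit 33405855069)], (nat_lit 1271251), (nat_lit 1271251), (nat_lit 780000), (nat_lit 2090001), (nat_lit 0), (nat_lit 780000), [(nat_lit 780000), (nat_lit 1762501), (nat_lit 1271251)], [(nat_lit 12), (nat_lit 59), (nat_lit 401), (nat_lit 175), (nat_lit 10)]⟩,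
 ⟨⟨[(nat_lit 140), (nat_lit 180), (nat_lit 200)], [(nat_lit 0), (nat_lit 0), (nat_lit 2835)], [((nat_lit 0), (nat_lit 0), (nat_lit 0)), ((nat_lit 0), (nat_lit 0), (nat_lit 0)), ((nat_lit 363), (nat_lit 1000), (nat_lit 798))], ((nat_lit 0), (nat_lit 0), (nat_lit 0))⟩, (nat_lit 22286), (nat_lit 300), (nat_lit 661), (nat_lit 6326100), (nat_lit 444913), [(nat_lit 797202000), (nat_lit 1138698000), (nat_lit 1328400000)], [], [(nat_lit 5280599432), (nat_lit 5046589249), (nat_lit 5466010765), (nat_lit 5194410795), (nat_lit 4241763650), (nat_lit 3974122215), (nat_lit 4324368775), (nat_lit 4072558802)], (nat_lit 780000), (nat_lit 1271251), (nat_lit 1271251), (nat_lit 1271251), (nat_lit 0), (nat_lit 780000), [(nat_lit 1977501), (nat_lit 1271251), (nat_lit 1271251)], [(nat_lit 32), (nat_lit 67), (nat_lit 401), (nat_lit 175), (nat_lit 9)]⟩⟩)))) (.dle (nat_lit 0))) (.spl (nat_lit 0) (nat_lit 330) (.spl (nat_lit 6) (nat_lit 76) (.leaf ⟨(nat_lit 0), (nat_lit 882),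 (nat_lit 0), (nat_lit 118), (nat_lit 16120), (nat_lit 7741), (nat_lit 6934), (nat_lit 1545), (nat_lit 0), (nat_lit 0), (nat_lit 0), [], Pd.none, Pd.none, (nat_lit 0), (nat_lit 1), (nat_lit 0), (nat_lit 0), (nat_lit 6), (nat_lit 0), [⟨(nat_lit 0), (nat_lit 82), (nat_lit 78), (nat_lit 100), (nat_lit 259522049)⟩], [⟨(nat_lit 1), (nat_lit 83), (nat_lit 81), (nat_lit 100), (nat_lit 417220094)⟩], [], [],
 ⟨⟨[(nat_lit 40), (nat_lit 100), (nat_lit 140)], [(nat_lit 0), (nat_lit 0), (nat_lit 3243)], [((nat_lit 0), (nat_lit 0), (nat_lit 0)), ((nat_lit 0), (nat_lit 0), (nat_lit 0)), ((nat_lit 1000), (nat_lit 870), (nat_lit 941))], ((nat_lit 83), (nat_lit 100), (nat_lit 81))⟩, (nat_lit 1621795), (nat_lit 203), (nat_lit 203), (nat_lit 0), (nat_lit 239060), [(nat_lit 2807654098), (nat_lit 6250000002), (nat_lit 9842000000)], [], [(nat_lit 25307404011), (nat_lit 25942037356), (nat_lit 26979339949), (nat_lit 27507463992), (nat_lit 29919908458), (nat_lit 30567212032),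 (nat_lit 31933701869), (nat_lit 32602957035)], (nat_lit 1271251), (nat_lit 1271251), (nat_lit 780000), (nat_lit 2090001), (nat_lit 1271251), (nat_lit 1271251), [(nat_lit 490000), (nat_lit 1427501), (nat_lit 1271251)], [(nat_lit 5), (nat_lit 55), (nat_lit 401), (nat_lit 175), (nat_lit 11)]⟩,
 ⟨⟨[(nat_lit 60), (nat_lit 100), (nat_lit 140)], [(nat_lit 0), (nat_lit 609), (nat_lit 2558)], [((nat_lit 0), (nat_lit 0), (nat_lit 0)), ((nat_lit 1000), (nat_lit 905), (nat_lit 238)), ((nat_lit 1000), (nat_lit 904), (nat_lit 760))], ((nat_lit 93), (nat_lit 100), (nat_lit 84))⟩, (nat_lit 4047485), (nat_lit 312), (nat_lit 312), (nat_lit 0), (nat_lit 214832), [(nat_lit 3282000000), (nat_lit 6250000000), (nat_lit 9842000000)], [], [(nat_lit 20567504484), (nat_lit 22223833440), (nat_lit 27180795131), (nat_lit 29087826892), (nat_lit 17152932497), (nat_lit 18579680982), (nat_lit 30400171085), (nat_lit 27279456778)], (nat_lit 1271251), (nat_lit 1271251), (nat_lit 780000),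 (nat_lit 2090001), (nat_lit 0), (nat_lit 780000), [(nat_lit 780000), (nat_lit 1435001), (nat_lit 1271251)], [(nat_lit 11), (nat_lit 55), (nat_lit 317), (nat_lit 100), (nat_lit 9)]⟩,
 ⟨⟨[(nat_lit 140), (nat_lit 180), (nat_lit 200)], [(nat_lit 0), (nat_lit 0), (nat_lit 2835)], [((nat_lit 0), (nat_lit 0), (nat_lit 0)), ((nat_lit 0), (nat_lit 0), (nat_lit 0)), ((nat_lit 363), (nat_lit 1000), (nat_lit 798))], ((nat_lit 0), (nat_lit 0), (nat_lit 0))⟩, (nat_lit 32466), (nat_lit 300), (nat_lit 976), (nat_lit 9215800), (nat_lit 1158938), [(nat_lit 1161356000), (nat_lit 1658844000), (nat_lit 1935200000)], [], [(nat_lit 7984608892), (nat_lit 7643274291), (nat_lit 7942924269), (nat_lit 7610832714), (nat_lit 6698286998), (nat_lit 6375030033), (nat_lit 6640950910), (nat_lit 6290631504)], (nat_lit 780000), (nat_lit 1271251), (nat_lit 1271251), (nat_lit 1271251), (nat_lit 0), (nat_lit 780000), [(nat_lit 1977501), (nat_lit 1271251), (nat_lit 1271251)], [(nat_lit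 32), (nat_lit 67), (nat_lit 401), (nat_lit 175), (nat_lit 9)]⟩⟩) (.dle (nat_lit 0))) (.trZ (nat_lit 0) (nat_lit 1) (nat_lit 3) (nat_lit 92) (nat_lit 81) (nat_lit 100) (nat_lit 130) (.trX (nat_lit 4) (nat_lit 0) (nat_lit 2) (nat_lit 76) (nat_lit 73) (nat_lit 100) (nat_lit 340) (.leaf ⟨(nat_lit 0), (nat_lit 892), (nat_lit 0), (nat_lit 108), (nat_lit 12444), (nat_lit 7372), (nat_lit 8283), (nat_lit 1478), (nat_lit 0), (nat_lit 0), (nat_lit 0), [], Pd.none, Pd.none, (nat_lit 0), (nat_lit 1), (nat_lit 0), (nat_lit 0), (nat_lit 6), (nat_lit 0), [⟨(nat_lit 0), (nat_lit 86), (nat_lit 76), (nat_lit 100), (nat_lit 394368618)⟩], [⟨(nat_lit 1), (nat_lit 87), (nat_lit 76), (nat_lit 100), (nat_lit 474511273)⟩], [⟨(nat_lit 0), (nat_lit 100), (nat_lit 86), (nat_lit 33), (nat_lit 263235106)⟩], [],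
 ⟨⟨[(nat_lit 40), (nat_lit 100), (nat_lit 140)], [(nat_lit 0), (nat_lit 592), (nat_lit 3606)], [((nat_lit 0), (nat_lit 0), (nat_lit 0)), ((nat_lit 1000), (nat_lit 908), (nat_lit 154)), ((nat_lit 1000), (nat_lit 825), (nat_lit 971))], ((nat_lit 79), (nat_lit 100), (nat_lit 86))⟩, (nat_lit 1617457), (nat_lit 218), (nat_lit 218), (nat_lit 0), (nat_lit 296998), [(nat_lit 2752457486), (nat_lit 6250000020), (nat_lit 9842000000)], [], [(nat_lit 24909398123), (nat_lit 25518099818), (nat_lit 26767092702), (nat_lit 27347627290), (nat_lit 29206935272), (nat_lit 29928234101), (nat_lit 31570650873), (nat_lit 32242956246)], (nat_lit 1271251), (nat_lit 1271251), (nat_lit 857188), (nat_lit 2099376), (nat_lit 1271251), (nat_lit 1271251), [(nat_lit 490000), (nat_lit 1427501), (nat_lit 1271251)], [(nat_lit 5), (nat_lit 55), (nat_lit 401), (nat_lit 175), (nat_lit 10)]⟩,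
 ⟨⟨[(nat_lit 60), (nat_lit 120), (nat_lit 160)], [(nat_lit 0), (nat_lit 913), (nat_lit 3885)], [((nat_lit 0), (nat_lit 0), (nat_lit 0)), ((nat_lit 1000), (nat_lit 905), (nat_lit 238)), ((nat_lit 886), (nat_lit 948), (nat_lit 1000))], ((nat_lit 96), (nat_lit 100), (nat_lit 92))⟩, (nat_lit 2922031), (nat_lit 399), (nat_lit 399), (nat_lit 0), (nat_lit 285791), [(nat_lit 3282000000), (nat_lit 7968000000), (nat_lit 11872000000)], [], [(nat_lit 26072584376), (nat_lit 27414536278), (nat_lit 29670669003), (nat_lit 31450112054), (nat_lit 20962963896), (nat_lit 22270592859), (nat_lit 25169340038), (nat_lit 25175793848)], (nat_lit 1271251), (nat_lit 1271251), (nat_lit 857188), (nat_lit 2099376), (nat_lit 0), (nat_lit 780000), [(nat_lit 780000), (nat_lit 1762501), (nat_lit 1271251)], [(nat_lit 12), (nat_lit 59), (nat_lit 428), (nat_lit 200), (nat_lit 11)]⟩,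
 ⟨⟨[(nat_lit 140), (nat_lit 180), (nat_lit 200)], [(nat_lit 0), (nat_lit 0), (nat_lit 2835)], [((nat_lit 0), (nat_lit 0), (nat_lit 0)), ((nat_lit 0), (nat_lit 0), (nat_lit 0)), ((nat_lit 363), (nat_lit 1000), (nat_lit 798))], ((nat_lit 0), (nat_lit 0), (nat_lit 0))⟩, (nat_lit 29714), (nat_lit 300), (nat_lit 1154), (nat_lit 8434805), (nat_lit 1555888), [(nat_lit 1062936000), (nat_lit 1518264000), (nat_lit 1771200000)], [], [(nat_lit 7230527456), (nat_lit 6899570802), (nat_lit 7242401130), (nat_lit 6925521591), (nat_lit 5992992140), (nat_lit 5679453346), (nat_lit 5920481354), (nat_lit 5588925343)], (nat_lit 780000), (nat_lit 1271251), (nat_lit 1271251), (nat_lit 1271251), (nat_lit 0), (nat_lit 780000), [(nat_lit 1977501), (nat_lit 1271251), (nat_lit 1271251)], [(nat_lit 32), (nat_lit 67), (nat_lit 401), (nat_lit 175), (nat_lit 9)]⟩⟩)))))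
noncomputable def c11_100 : Tr Lf :=
 (.spl (nat_lit 3) (nat_lit 200) (.spl (nat_lit 2) (nat_lit 160) (.trX (nat_lit 4) (nat_lit 0) (nat_lit 2) (nat_lit 82) (nat_lit 76) (nat_lit 100) (nat_lit 340) (.trX (nat_lit 5) (nat_lit 1) (nat_lit 2) (nat_lit 94) (nat_lit 59) (nat_lit 100) (nat_lit 370) (.stt (nat_lit 2) (.leaf ⟨(nat_lit 0), (nat_lit 948), (nat_lit 0), (nat_lit 52), (nat_lit 6483), (nat_lit 7660), (nat_lit 9000), (nat_lit 582), (nat_lit 0), (nat_lit 0), (nat_lit 0), [], Pd.none, Pd.none, (nat_lit 0), (nat_lit 1), (nat_lit 0), (nat_lit 0), (nat_lit 6), (nat_lit 0), [⟨(nat_lit 0), (nat_lit 92), (nat_lit 81), (nat_lit 100), (nat_lit 350912161)⟩], [⟨(nat_lit 1), (nat_lit 89), (nat_lit 80), (nat_lit 100), (nat_lit 315202669)⟩], [⟨(nat_lit 1), (nat_lit 77), (nat_lit 91), (nat_lit 100), (nat_lit 1223654)⟩], [⟨(nat_lit 2), (nat_lit 63), (nat_lit 91), (nat_lit 100), (nat_lit 393169608)⟩],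
 ⟨⟨[(nat_lit 40), (nat_lit 100), (nat_lit 140)], [(nat_lit 0), (nat_lit 0), (nat_lit 3243)], [((nat_lit 0), (nat_lit 0), (nat_lit 0)), ((nat_lit 0), (nat_lit 0), (nat_lit 0)), ((nat_lit 1000), (nat_lit 870), (nat_lit 941))], ((nat_lit 85), (nat_lit 100), (nat_lit 88))⟩, (nat_lit 0), (nat_lit 86), (nat_lit 86), (nat_lit 0), (nat_lit 0), [(nat_lit 2974867140), (nat_lit 6250000001), (nat_lit 9842000000)], [], [(nat_lit 22044987281), (nat_lit 23981509621), (nat_lit 22902739441), (nat_lit 24594712131), (nat_lit 28565827530), (nat_lit 30443810620), (nat_lit 28616061410), (nat_lit 30262802465)], (nat_lit 0), (nat_lit 0), (nat_lit 0), (nat_lit 0), (nat_lit 0), (nat_lit 0), [], [(nat_lit 5), (nat_lit 55), (nat_lit 373), (nat_lit 150), (nat_lit 10)]⟩,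
 ⟨⟨[(nat_lit 60), (nat_lit 120), (nat_lit 160)], [(nat_lit 0), (nat_lit 0), (nat_lit 3243)], [((nat_lit 0), (nat_lit 0), (nat_lit 0)), ((nat_lit 0), (nat_lit 0), (nat_lit 0)), ((nat_lit 878), (nat_lit 1000), (nat_lit 945))], ((nat_lit 100), (nat_lit 92), (nat_lit 90))⟩, (nat_lit 0), (nat_lit 108), (nat_lit 108), (nat_lit 0), (nat_lit 0), [(nat_lit 3282000000), (nat_lit 7968000000), (nat_lit 11872000000)], [], [(nat_lit 17874628000), (nat_lit 21979369000), (nat_lit 19529986000), (nat_lit 23036493000), (nat_lit 31270681250), (nat_lit 33230118250), (nat_lit 30718482125), (nat_lit 32543046750)], (nat_lit 0), (nat_lit 0), (nat_lit 0), (nat_lit 0), (nat_lit 0), (nat_lit 0), [], [(nat_lit 12), (nat_lit 59), (nat_lit 456), (nat_lit 225), (nat_lit 11)]⟩,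
 ⟨⟨[(nat_lit 140), (nat_lit 180), (nat_lit 200)], [(nat_lit 0), (nat_lit 0), (nat_lit 2835)], [((nat_lit 0), (nat_lit 0), (nat_lit 0)), ((nat_lit 0), (nat_lit 0), (nat_lit 0)), ((nat_lit 363), (nat_lit 1000), (nat_lit 798))], ((nat_lit 0), (nat_lit 0), (nat_lit 0))⟩, (nat_lit 14307), (nat_lit 300), (nat_lit 1526), (nat_lit 4061200), (nat_lit 2542424), [(nat_lit 511784000), (nat_lit 731016000), (nat_lit 852800000)], [], [(nat_lit 3380683612), (nat_lit 3289891352), (nat_lit 3252134792), (nat_lit 3156623625), (nat_lit 2973630336), (nat_lit 2878146205), (nat_lit 2867631869), (nat_lit 2769307170)], (nat_lit 780000), (nat_lit 1100000), (nat_lit 1271251), (nat_lit 1271251), (nat_lit 780000), (nat_lit 2826876), [(nat_lit 1977501), (nat_lit 1271251), (nat_lit 1271251)], [(nat_lit 32), (nat_lit 67), (nat_lit 491), (nat_lit 225), (nat_lit 10)]⟩⟩) (.spl (nat_lit 1) (nat_lit 300) (.spl (nat_lit 6) (nat_lit 68) (.leaf ⟨(nat_lit 0), (nat_lit 542), (nat_lit 0),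 (nat_lit 458), (nat_lit 0), (nat_lit 7509), (nat_lit 12905), (nat_lit 5074), (nat_lit 0), (nat_lit 0), (nat_lit 0), [], Pd.none, Pd.none, (nat_lit 0), (nat_lit 1), (nat_lit 0), (nat_lit 0), (nat_lit 6), (nat_lit 0), [⟨(nat_lit 0), (nat_lit 90), (nat_lit 74), (nat_lit 100), (nat_lit 746239153)⟩], [⟨(nat_lit 1), (nat_lit 89), (nat_lit 80), (nat_lit 100), (nat_lit 210720144)⟩], [], [],
 ⟨⟨[(nat_lit 40), (nat_lit 100), (nat_lit 140)], [(nat_lit 0), (nat_lit 0), (nat_lit 3243)], [((nat_lit 0), (nat_lit 0), (nat_lit 0)), ((nat_lit 0), (nat_lit 0), (nat_lit 0)), ((nat_lit 1000), (nat_lit 870), (nat_lit 941))], ((nat_lit 82), (nat_lit 100), (nat_lit 77))⟩, (nat_lit 0), (nat_lit 86), (nat_lit 86), (nat_lit 0), (nat_lit 0), [(nat_lit 3014051653), (nat_lit 6250000055), (nat_lit 9842000000)], [], [(nat_lit 22163732527), (nat_lit 24075117293), (nat_lit 23041042811), (nat_lit 24711902455), (nat_lit 28613470407), (nat_lit 30271401538), (nat_lit 28615654670),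 (nat_lit 30129091173)], (nat_lit 0), (nat_lit 0), (nat_lit 0), (nat_lit 0), (nat_lit 0), (nat_lit 0), [], [(nat_lit 5), (nat_lit 55), (nat_lit 373), (nat_lit 150), (nat_lit 10)]⟩,
 ⟨⟨[(nat_lit 60), (nat_lit 120), (nat_lit 160)], [(nat_lit 0), (nat_lit 0), (nat_lit 3243)], [((nat_lit 0), (nat_lit 0), (nat_lit 0)), ((nat_lit 0), (nat_lit 0), (nat_lit 0)), ((nat_lit 878), (nat_lit 1000), (nat_lit 945))], ((nat_lit 100), (nat_lit 99), (nat_lit 82))⟩, (nat_lit 844004), (nat_lit 238), (nat_lit 238), (nat_lit 0), (nat_lit 234273), [(nat_lit 3282000000), (nat_lit 7968000000), (nat_lit 11872000000)], [], [(nat_lit 32891451835), (nat_lit 26551742443), (nat_lit 24618198446), (nat_lit 26295713147), (nat_lit 35493669957), (nat_lit 36330521174), (nat_lit 41168642221), (nat_lit 35379368080)], (nat_lit 1271251), (nat_lit 1271251), (nat_lit 780000), (nat_lit 1435001), (nat_lit 780000), (nat_lit 2826876), [(nat_lit 780000), (nat_lit 1762501), (nat_lit 1271251)],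 [(nat_lit 12), (nat_lit 59), (nat_lit 456), (nat_lit 225), (nat_lit 11)]⟩,
 ⟨⟨[(nat_lit 140), (nat_lit 180), (nat_lit 200)], [(nat_lit 0), (nat_lit 0), (nat_lit 2835)], [((nat_lit 0), (nat_lit 0), (nat_lit 0)), ((nat_lit 0), (nat_lit 0), (nat_lit 0)), ((nat_lit 363), (nat_lit 1000), (nat_lit 798))], ((nat_lit 0), (nat_lit 0), (nat_lit 0))⟩, (nat_lit 126011), (nat_lit 300), (nat_lit 781), (nat_lit 35769800), (nat_lit 943769), [(nat_lit 4507636000), (nat_lit 6438564000), (nat_lit 7511200000)], [], [(nat_lit 28558206105), (nat_lit 27770653346), (nat_lit 27998648512), (nat_lit 27181458556), (nat_lit 25960355363), (nat_lit 25129985945), (nat_lit 25399094460), (nat_lit 24538820139)], (nat_lit 780000), (nat_lit 1100000), (nat_lit 1271251), (nat_lit 1271251), (nat_lit 780000), (nat_lit 2826876), [(nat_lit 1977501), (nat_lit 1271251), (nat_lit 1271251)], [(nat_lit 32), (nat_lit 67), (nat_lit 456), (nat_lit 225), (nat_lit 9)]⟩⟩) (.dle (nat_lit 0))) (.trX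 (nat_lit 5) (nat_lit 1) (nat_lit 2) (nat_lit 88) (nat_lit 68) (nat_lit 100) (nat_lit 350) (.leaf ⟨(nat_lit 0), (nat_lit 709), (nat_lit 0), (nat_lit 291), (nat_lit 0), (nat_lit 7596), (nat_lit 8010), (nat_lit 3298), (nat_lit 0), (nat_lit 0), (nat_lit 0), [], Pd.none, Pd.none, (nat_lit 0), (nat_lit 1), (nat_lit 0), (nat_lit 0), (nat_lit 6), (nat_lit 0), [⟨(nat_lit 0), (nat_lit 87), (nat_lit 79), (nat_lit 100), (nat_lit 925878)⟩, ⟨(nat_lit 0), (nat_lit 81), (nat_lit 72), (nat_lit 100), (nat_lit 791501688)⟩], [⟨(nat_lit 1), (nat_lit 89), (nat_lit 80), (nat_lit 100), (nat_lit 352095425)⟩], [⟨(nat_lit 1), (nat_lit 81), (nat_lit 88), (nat_lit 100), (nat_lit 59116271)⟩], [],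
 ⟨⟨[(nat_lit 40), (nat_lit 100), (nat_lit 140)], [(nat_lit 0), (nat_lit 0), (nat_lit 3243)], [((nat_lit 0), (nat_lit 0), (nat_lit 0)), ((nat_lit 0), (nat_lit 0), (nat_lit 0)), ((nat_lit 1000), (nat_lit 870), (nat_lit 941))], ((nat_lit 85), (nat_lit 100), (nat_lit 88))⟩, (nat_lit 0), (nat_lit 86), (nat_lit 86), (nat_lit 0), (nat_lit 0), [(nat_lit 3003298906), (nat_lit 6250000038), (nat_lit 9842000000)], [], [(nat_lit 22095316406), (nat_lit 24021184410), (nat_lit 22961358102), (nat_lit 24644382216), (nat_lit 28585841626), (nat_lit 30370736572), (nat_lit 28568504176), (nat_lit 30206130129)], (nat_lit 0), (nat_lit 0), (nat_lit 0), (nat_lit 0), (nat_lit 0), (nat_lit 0), [], [(nat_lit 5), (nat_lit 55), (nat_lit 373), (nat_lit 150), (nat_lit 10)]⟩,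
 ⟨⟨[(nat_lit 60), (nat_lit 120), (nat_lit 160)], [(nat_lit 0), (nat_lit 913), (nat_lit 3885)], [((nat_lit 0), (nat_lit 0), (nat_lit 0)), ((nat_lit 1000), (nat_lit 905), (nat_lit 238)), ((nat_lit 886), (nat_lit 948), (nat_lit 1000))], ((nat_lit 96), (nat_lit 100), (nat_lit 92))⟩, (nat_lit 2305118), (nat_lit 337), (nat_lit 337), (nat_lit 0), (nat_lit 340921), [(nat_lit 3282000000), (nat_lit 7968000000), (nat_lit 11872000000)], [], [(nat_lit 26286165090), (nat_lit 25032190416), (nat_lit 24058200254), (nat_lit 24926352746), (nat_lit 29243474200), (nat_lit 29940544483), (nat_lit 33326850756), (nat_lit 29780828813)], (nat_lit 1271251), (nat_lit 1271251), (nat_lit 780000), (nat_lit 1435001), (nat_lit 780000), (nat_lit 2663126), [(nat_lit 780000), (nat_lit 1762501), (nat_lit 1271251)], [(nat_lit 12), (nat_lit 59), (nat_lit 456), (nat_lit 225), (nat_lit 11)]⟩,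
 ⟨⟨[(nat_lit 140), (nat_lit 180), (nat_lit 200)], [(nat_lit 0), (nat_lit 0), (nat_lit 2835)], [((nat_lit 0), (nat_lit 0), (nat_lit 0)), ((nat_lit 0), (nat_lit 0), (nat_lit 0)), ((nat_lit 363), (nat_lit 1000), (nat_lit 798))], ((nat_lit 0), (nat_lit 0), (nat_lit 0))⟩, (nat_lit 80064), (nat_lit 300), (nat_lit 1072), (nat_lit 22727100), (nat_lit 1555888), [(nat_lit 2864022000), (nat_lit 4090878000), (nat_lit 4772400000)], [], [(nat_lit 18590304528), (nat_lit 18056552716), (nat_lit 17958822161), (nat_lit 17416046584), (nat_lit 16495011505), (nat_lit 15950542357), (nat_lit 15908683863), (nat_lit 15353243057)], (nat_lit 780000), (nat_lit 1100000), (nat_lit 1271251), (nat_lit 1271251), (nat_lit 780000), (nat_lit 2663126), [(nat_lit 1977501), (nat_lit 1271251), (nat_lit 1271251)], [(nat_lit 32), (nat_lit 67), (nat_lit 456), (nat_lit 225), (nat_lit 9)]⟩⟩)))))) (.spl (nat_lit 6) (nat_lit 68) (.leaf ⟨(nat_lit 0), (nat_lit 223), (nat_lit 0), (nat_lit 777),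 (nat_lit 10128), (nat_lit 8552), (nat_lit 13603), (nat_lit 8085), (nat_lit 0), (nat_lit 0), (nat_lit 0), [], Pd.none, Pd.none, (nat_lit 0), (nat_lit 1), (nat_lit 0), (nat_lit 0), (nat_lit 6), (nat_lit 0), [⟨(nat_lit 0), (nat_lit 92), (nat_lit 81), (nat_lit 100), (nat_lit 715704000)⟩], [], [], [],
 ⟨⟨[(nat_lit 40), (nat_lit 100), (nat_lit 140)], [(nat_lit 0), (nat_lit 0), (nat_lit 3243)], [((nat_lit 0), (nat_lit 0), (nat_lit 0)), ((nat_lit 0), (nat_lit 0), (nat_lit 0)), ((nat_lit 1000), (nat_lit 870), (nat_lit 941))], ((nat_lit 82), (nat_lit 100), (nat_lit 77))⟩, (nat_lit 0), (nat_lit 90), (nat_lit 90), (nat_lit 0), (nat_lit 0), [(nat_lit 3951001751), (nat_lit 6250000003), (nat_lit 9842000000)], [], [(nat_lit 21343525619), (nat_lit 23428542767), (nat_lit 22085742371), (nat_lit 23903020676), (nat_lit 30520402234), (nat_lit 32471555288), (nat_lit 30228022850), (nat_lit 31935179596)], (nat_lit 0), (nat_lit 0), (nat_lit 0), (nat_lit 0), (nat_lit 0),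 (nat_lit 0), [], [(nat_lit 5), (nat_lit 55), (nat_lit 373), (nat_lit 150), (nat_lit 10)]⟩,
 ⟨⟨[(nat_lit 60), (nat_lit 120), (nat_lit 160)], [(nat_lit 0), (nat_lit 0), (nat_lit 3243)], [((nat_lit 0), (nat_lit 0), (nat_lit 0)), ((nat_lit 0), (nat_lit 0), (nat_lit 0)), ((nat_lit 878), (nat_lit 1000), (nat_lit 945))], ((nat_lit 100), (nat_lit 99), (nat_lit 82))⟩, (nat_lit 3318360), (nat_lit 236), (nat_lit 236), (nat_lit 0), (nat_lit 217177), [(nat_lit 3282000000), (nat_lit 7968000000), (nat_lit 11872000000)], [], [(nat_lit 34637686121), (nat_lit 20354638128), (nat_lit 16187035081), (nat_lit 19660879871), (nat_lit 37041844795), (nat_lit 40452118820), (nat_lit 42864951366), (nat_lit 38310153954)], (nat_lit 1271251), (nat_lit 1271251), (nat_lit 780000), (nat_lit 1435001), (nat_lit 780000), (nat_lit 2908751), [(nat_lit 780000), (nat_lit 1762501), (nat_lit 1271251)], [(nat_lit 12), (nat_lit 59), (nat_lit 456), (nat_lit 225), (nat_lit 11)]⟩,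
 ⟨⟨[(nat_lit 120), (nat_lit 160), (nat_lit 200)], [(nat_lit 0), (nat_lit 0), (nat_lit 3198)], [((nat_lit 0), (nat_lit 0), (nat_lit 0)), ((nat_lit 0), (nat_lit 0), (nat_lit 0)), ((nat_lit 572), (nat_lit 1000), (nat_lit 714))], ((nat_lit 0), (nat_lit 0), (nat_lit 0))⟩, (nat_lit 379024), (nat_lit 300), (nat_lit 716), (nat_lit 57653407), (nat_lit 869101), [(nat_lit 6191136000), (nat_lit 9224544000), (nat_lit 12742800000)], [], [(nat_lit 45595774094), (nat_lit 45233609705), (nat_lit 45513224164), (nat_lit 45091410491), (nat_lit 42482156451), (nat_lit 42025861159), (nat_lit 41556359789), (nat_lit 41061773978)], (nat_lit 1100000), (nat_lit 1271251), (nat_lit 1271251), (nat_lit 1271251), (nat_lit 780000), (nat_lit 2908751), [(nat_lit 1695001), (nat_lit 1271251), (nat_lit 1271251)], [(nat_lit 29), (nat_lit 66), (nat_lit 483), (nat_lit 250), (nat_lit 10)]⟩⟩) (.dle (nat_lit 0)))) (.spl (nat_lit 1) (nat_lit 300) (.spl (nat_lit 6) (nat_lit 68) (.leaf ⟨(nat_lit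 0), (nat_lit 752), (nat_lit 0), (nat_lit 248), (nat_lit 0), (nat_lit 7459), (nat_lit 8940), (nat_lit 2755), (nat_lit 0), (nat_lit 0), (nat_lit 0), [], Pd.none, Pd.none, (nat_lit 0), (nat_lit 1), (nat_lit 0), (nat_lit 0), (nat_lit 6), (nat_lit 0), [], [⟨(nat_lit 1), (nat_lit 85), (nat_lit 78), (nat_lit 100), (nat_lit 405642027)⟩], [⟨(nat_lit 1), (nat_lit 68), (nat_lit 92), (nat_lit 100), (nat_lit 156801045)⟩], [],
 ⟨⟨[(nat_lit 40), (nat_lit 100), (nat_lit 140)], [(nat_lit 0), (nat_lit 0), (nat_lit 3243)], [((nat_lit 0), (nat_lit 0), (nat_lit 0)), ((nat_lit 0), (nat_lit 0), (nat_lit 0)), ((nat_lit 1000), (nat_lit 870), (nat_lit 941))], ((nat_lit 82), (nat_lit 100), (nat_lit 77))⟩, (nat_lit 0), (nat_lit 71), (nat_lit 71), (nat_lit 0), (nat_lit 0), [(nat_lit 3226606652), (nat_lit 6250000003), (nat_lit 9842000000)], [], [(nat_lit 23086838559), (nat_lit 24750707128), (nat_lit 26048098353), (nat_lit 27442407804), (nat_lit 29326209044), (nat_lit 30894860967),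 (nat_lit 31688514431), (nat_lit 32999420700)], (nat_lit 0), (nat_lit 0), (nat_lit 0), (nat_lit 0), (nat_lit 0), (nat_lit 0), [], [(nat_lit 5), (nat_lit 55), (nat_lit 401), (nat_lit 175), (nat_lit 10)]⟩,
 ⟨⟨[(nat_lit 60), (nat_lit 120), (nat_lit 160)], [(nat_lit 0), (nat_lit 0), (nat_lit 3243)], [((nat_lit 0), (nat_lit 0), (nat_lit 0)), ((nat_lit 0), (nat_lit 0), (nat_lit 0)), ((nat_lit 878), (nat_lit 1000), (nat_lit 945))], ((nat_lit 100), (nat_lit 99), (nat_lit 82))⟩, (nat_lit 1983621), (nat_lit 215), (nat_lit 215), (nat_lit 0), (nat_lit 236285), [(nat_lit 3282000000), (nat_lit 7968000000), (nat_lit 11872000000)], [], [(nat_lit 23233406887), (nat_lit 24573717172), (nat_lit 26438085547), (nat_lit 27504986212), (nat_lit 36044060445), (nat_lit 32312916438), (nat_lit 33591293830), (nat_lit 34487731085)], (nat_lit 1271251), (nat_lit 1271251), (nat_lit 1271251), (nat_lit 1271251), (nat_lit 780000), (nat_lit 2908751), [(nat_lit 780000), (nat_lit 1762501),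 (nat_lit 1271251)], [(nat_lit 12), (nat_lit 59), (nat_lit 483), (nat_lit 250), (nat_lit 12)]⟩,
 ⟨⟨[(nat_lit 140), (nat_lit 180), (nat_lit 200)], [(nat_lit 0), (nat_lit 0), (nat_lit 2835)], [((nat_lit 0), (nat_lit 0), (nat_lit 0)), ((nat_lit 0), (nat_lit 0), (nat_lit 0)), ((nat_lit 363), (nat_lit 1000), (nat_lit 798))], ((nat_lit 0), (nat_lit 0), (nat_lit 0))⟩, (nat_lit 68233), (nat_lit 300), (nat_lit 1052), (nat_lit 19368800), (nat_lit 1510230), [(nat_lit 2440816000), (nat_lit 3486384000), (nat_lit 4067200000)], [], [(nat_lit 16152752286), (nat_lit 15535929904), (nat_lit 15598300756), (nat_lit 14965933203), (nat_lit 14278154625), (nat_lit 13644129009), (nat_lit 13722466105), (nat_lit 13076860112)], (nat_lit 780000), (nat_lit 1271251), (nat_lit 1271251), (nat_lit 1271251), (nat_lit 780000), (nat_lit 2908751), [(nat_lit 1977501), (nat_lit 1271251), (nat_lit 1271251)], [(nat_lit 32), (nat_lit 67), (nat_lit 483), (nat_lit 250), (nat_lit 10)]⟩⟩) (.dle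 (nat_lit 0))) (.trX (nat_lit 5) (nat_lit 1) (nat_lit 2) (nat_lit 87) (nat_lit 59) (nat_lit 100) (nat_lit 370) (.leaf ⟨(nat_lit 0), (nat_lit 881), (nat_lit 0), (nat_lit 119), (nat_lit 5277), (nat_lit 7456), (nat_lit 7792), (nat_lit 1327), (nat_lit 0), (nat_lit 0), (nat_lit 0), [], Pd.none, Pd.none, (nat_lit 0), (nat_lit 1), (nat_lit 0), (nat_lit 0), (nat_lit 6), (nat_lit 0), [], [⟨(nat_lit 1), (nat_lit 85), (nat_lit 78), (nat_lit 100), (nat_lit 526020505)⟩], [⟨(nat_lit 1), (nat_lit 77), (nat_lit 86), (nat_lit 100), (nat_lit 240635823)⟩], [],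
 ⟨⟨[(nat_lit 40), (nat_lit 100), (nat_lit 140)], [(nat_lit 0), (nat_lit 0), (nat_lit 3243)], [((nat_lit 0), (nat_lit 0), (nat_lit 0)), ((nat_lit 0), (nat_lit 0), (nat_lit 0)), ((nat_lit 1000), (nat_lit 870), (nat_lit 941))], ((nat_lit 85), (nat_lit 100), (nat_lit 88))⟩, (nat_lit 0), (nat_lit 71), (nat_lit 71), (nat_lit 0), (nat_lit 0), [(nat_lit 2965723818), (nat_lit 6250000099), (nat_lit 9842000000)], [], [(nat_lit 23089586403), (nat_lit 24753035507), (nat_lit 26050478499), (nat_lit 27444459483), (nat_lit 29323733800), (nat_lit 30892005563), (nat_lit 31685906054), (nat_lit 32996518662)], (nat_lit 0), (nat_lit 0), (nat_lit 0), (nat_lit 0), (nat_lit 0), (nat_lit 0), [], [(nat_lit 5), (nat_lit 55), (nat_lit 401), (nat_lit 175), (nat_lit 10)]⟩,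
 ⟨⟨[(nat_lit 60), (nat_lit 120), (nat_lit 160)], [(nat_lit 0), (nat_lit 913), (nat_lit 3885)], [((nat_lit 0), (nat_lit 0), (nat_lit 0)), ((nat_lit 1000), (nat_lit 905), (nat_lit 238)), ((nat_lit 886), (nat_lit 948), (nat_lit 1000))], ((nat_lit 96), (nat_lit 100), (nat_lit 92))⟩, (nat_lit 2097040), (nat_lit 261), (nat_lit 261), (nat_lit 0), (nat_lit 342898), [(nat_lit 3282000000), (nat_lit 7968000000), (nat_lit 11872000000)], [], [(nat_lit 25406548396), (nat_lit 26264727552), (nat_lit 27239297318), (nat_lit 27925660432), (nat_lit 30429571570), (nat_lit 31371991316), (nat_lit 32561154769), (nat_lit 33454311834)], (nat_lit 1271251), (nat_lit 1271251), (nat_lit 1271251), (nat_lit 1271251), (nat_lit 780000), (nat_lit 2826876), [(nat_lit 780000), (nat_lit 1762501), (nat_lit 1271251)], [(nat_lit 12), (nat_lit 59), (nat_lit 483), (nat_lit 250), (nat_lit 12)]⟩,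
 ⟨⟨[(nat_lit 140), (nat_lit 180), (nat_lit 200)], [(nat_lit 0), (nat_lit 0), (nat_lit 2835)], [((nat_lit 0), (nat_lit 0), (nat_lit 0)), ((nat_lit 0), (nat_lit 0), (nat_lit 0)), ((nat_lit 363), (nat_lit 1000), (nat_lit 798))], ((nat_lit 0), (nat_lit 0), (nat_lit 0))⟩, (nat_lit 32741), (nat_lit 300), (nat_lit 1526), (nat_lit 9293900), (nat_lit 2542424), [(nat_lit 1171198000), (nat_lit 1672902000), (nat_lit 1951600000)], [], [(nat_lit 7780817560), (nat_lit 7486702161), (nat_lit 7454970800), (nat_lit 7150087133), (nat_lit 6836361569), (nat_lit 6531501960), (nat_lit 6572571784), (nat_lit 6260261549)], (nat_lit 780000), (nat_lit 1271251), (nat_lit 1271251), (nat_lit 1271251), (nat_lit 780000), (nat_lit 2826876), [(nat_lit 1977501), (nat_lit 1271251), (nat_lit 1271251)], [(nat_lit 32), (nat_lit 67), (nat_lit 494), (nat_lit 225), (nat_lit 10)]⟩⟩))))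
noncomputable def c11_101 : Tr Lf :=
 (.spl (nat_lit 5) (nat_lit 240) (.spl (nat_lit 0) (nat_lit 330) (.spl (nat_lit 6) (nat_lit 76) (.leaf ⟨(nat_lit 0), (nat_lit 786), (nat_lit 0), (nat_lit 214), (nat_lit 20263), (nat_lit 8809), (nat_lit 10376), (nat_lit 2753), (nat_lit 0), (nat_lit 0), (nat_lit 0), [], Pd.none, Pd.none, (nat_lit 0), (nat_lit 1), (nat_lit 0), (nat_lit 0), (nat_lit 6), (nat_lit 0), [⟨(nat_lit 0), (nat_lit 93), (nat_lit 84), (nat_lit 100), (nat_lit 416021400)⟩], [⟨(nat_lit 1), (nat_lit 83), (nat_lit 81), (nat_lit 100), (nat_lit 419871579)⟩], [], [],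
 ⟨⟨[(nat_lit 40), (nat_lit 100), (nat_lit 140)], [(nat_lit 0), (nat_lit 0), (nat_lit 3243)], [((nat_lit 0), (nat_lit 0), (nat_lit 0)), ((nat_lit 0), (nat_lit 0), (nat_lit 0)), ((nat_lit 1000), (nat_lit 870), (nat_lit 941))], ((nat_lit 83), (nat_lit 100), (nat_lit 81))⟩, (nat_lit 1186697), (nat_lit 203), (nat_lit 203), (nat_lit 0), (nat_lit 239018), [(nat_lit 3209238443), (nat_lit 6250000085), (nat_lit 9842000000)], [], [(nat_lit 24907135220), (nat_lit 25592248856), (nat_lit 27105686111), (nat_lit 27746742110), (nat_lit 31101976636), (nat_lit 31790298181), (nat_lit 32862284081), (nat_lit 33583810772)], (nat_lit 1271251), (nat_lit 1271251), (nat_lit 780000), (nat_lit 2090001), (nat_lit 1271251), (nat_lit 1271251), [(nat_lit 490000), (nat_lit 1427501), (nat_lit 1271251)], [(nat_lit 5), (nat_lit 55), (nat_lit 401), (nat_lit 175), (nat_lit 11)]⟩,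
 ⟨⟨[(nat_lit 60), (nat_lit 120), (nat_lit 160)], [(nat_lit 0), (nat_lit 0), (nat_lit 3243)], [((nat_lit 0), (nat_lit 0), (nat_lit 0)), ((nat_lit 0), (nat_lit 0), (nat_lit 0)), ((nat_lit 878), (nat_lit 1000), (nat_lit 945))], ((nat_lit 100), (nat_lit 96), (nat_lit 86))⟩, (nat_lit 2582369), (nat_lit 202), (nat_lit 202), (nat_lit 0), (nat_lit 155002), [(nat_lit 3282000000), (nat_lit 7968000000), (nat_lit 11872000000)], [], [(nat_lit 31651465432), (nat_lit 23482582669), (nat_lit 23840298413), (nat_lit 26143324445), (nat_lit 21537272381), (nat_lit 24171055877), (nat_lit 34305905576), (nat_lit 26417010880)], (nat_lit 1271251), (nat_lit 1271251), (nat_lit 780000), (nat_lit 2090001), (nat_lit 780000), (nat_lit 1762501), [(nat_lit 780000), (nat_lit 1762501), (nat_lit 1271251)], [(nat_lit 12), (nat_lit 59), (nat_lit 456), (nat_lit 225), (nat_lit 11)]⟩,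
 ⟨⟨[(nat_lit 140), (nat_lit 180), (nat_lit 200)], [(nat_lit 0), (nat_lit 0), (nat_lit 2835)], [((nat_lit 0), (nat_lit 0), (nat_lit 0)), ((nat_lit 0), (nat_lit 0), (nat_lit 0)), ((nat_lit 363), (nat_lit 1000), (nat_lit 798))], ((nat_lit 0), (nat_lit 0), (nat_lit 0))⟩, (nat_lit 58878), (nat_lit 300), (nat_lit 879), (nat_lit 16713405), (nat_lit 1135371), [(nat_lit 2106188000), (nat_lit 3008412000), (nat_lit 3509600000)], [], [(nat_lit 12253695686), (nat_lit 11680419817), (nat_lit 12158161938), (nat_lit 11537050809), (nat_lit 11203507296), (nat_lit 10618522725), (nat_lit 11005352252), (nat_lit 10378913304)], (nat_lit 780000), (nat_lit 1271251), (nat_lit 1271251), (nat_lit 1271251), (nat_lit 780000), (nat_lit 1762501), [(nat_lit 1977501), (nat_lit 1271251), (nat_lit 1271251)], [(nat_lit 32), (nat_lit 67), (nat_lit 428), (nat_lit 200), (nat_lit 9)]⟩⟩) (.dle (nat_lit 0))) (.trX (nat_lit 4) (nat_lit 0) (nat_lit 2) (nat_lit 76) (nat_lit 73) (nat_lit 100)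 (nat_lit 340) (.leaf ⟨(nat_lit 0), (nat_lit 835), (nat_lit 0), (nat_lit 165), (nat_lit 8217), (nat_lit 8111), (nat_lit 11247), (nat_lit 1986), (nat_lit 0), (nat_lit 0), (nat_lit 0), [], Pd.none, Pd.none, (nat_lit 0), (nat_lit 1), (nat_lit 0), (nat_lit 0), (nat_lit 6), (nat_lit 0), [⟨(nat_lit 0), (nat_lit 91), (nat_lit 77), (nat_lit 100), (nat_lit 500083185)⟩], [⟨(nat_lit 1), (nat_lit 87), (nat_lit 76), (nat_lit 100), (nat_lit 469204068)⟩], [], [],
 ⟨⟨[(nat_lit 40), (nat_lit 100), (nat_lit 140)], [(nat_lit 0), (nat_lit 592), (nat_lit 3606)], [((nat_lit 0), (nat_lit 0), (nat_lit 0)), ((nat_lit 1000), (nat_lit 908), (nat_lit 154)), ((nat_lit 1000), (nat_lit 825), (nat_lit 971))], ((nat_lit 79), (nat_lit 100), (nat_lit 86))⟩, (nat_lit 1314977), (nat_lit 222), (nat_lit 222), (nat_lit 0), (nat_lit 296906), [(nat_lit 3177261089), (nat_lit 6250000002), (nat_lit 9842000000)], [], [(nat_lit 25071077540), (nat_lit 25907889477), (nat_lit 27341285298), (nat_lit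 27952943979), (nat_lit 30318380386), (nat_lit 30959071457), (nat_lit 32209601543), (nat_lit 32919865836)], (nat_lit 1271251), (nat_lit 1271251), (nat_lit 780000), (nat_lit 2090001), (nat_lit 1271251), (nat_lit 1271251), [(nat_lit 490000), (nat_lit 1427501), (nat_lit 1271251)], [(nat_lit 5), (nat_lit 55), (nat_lit 401), (nat_lit 175), (nat_lit 10)]⟩,
 ⟨⟨[(nat_lit 60), (nat_lit 120), (nat_lit 160)], [(nat_lit 0), (nat_lit 0), (nat_lit 3243)], [((nat_lit 0), (nat_lit 0), (nat_lit 0)), ((nat_lit 0), (nat_lit 0), (nat_lit 0)), ((nat_lit 878), (nat_lit 1000), (nat_lit 945))], ((nat_lit 100), (nat_lit 92), (nat_lit 90))⟩, (nat_lit 0), (nat_lit 223), (nat_lit 223), (nat_lit 0), (nat_lit 202231), [(nat_lit 3282000000), (nat_lit 7968000000), (nat_lit 11872000000)], [], [(nat_lit 32078522829), (nat_lit 31657167992), (nat_lit 31816998198), (nat_lit 34222666789), (nat_lit 29411329606), (nat_lit 32172057868), (nat_lit 33828337147), (nat_lit 33216432114)], (nat_lit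 1271251), (nat_lit 1271251), (nat_lit 780000), (nat_lit 2090001), (nat_lit 780000), (nat_lit 1762501), [(nat_lit 780000), (nat_lit 1762501), (nat_lit 1271251)], [(nat_lit 12), (nat_lit 59), (nat_lit 456), (nat_lit 225), (nat_lit 11)]⟩,
 ⟨⟨[(nat_lit 140), (nat_lit 180), (nat_lit 200)], [(nat_lit 0), (nat_lit 0), (nat_lit 2835)], [((nat_lit 0), (nat_lit 0), (nat_lit 0)), ((nat_lit 0), (nat_lit 0), (nat_lit 0)), ((nat_lit 363), (nat_lit 1000), (nat_lit 798))], ((nat_lit 0), (nat_lit 0), (nat_lit 0))⟩, (nat_lit 45397), (nat_lit 300), (nat_lit 1046), (nat_lit 12886500), (nat_lit 1494229), [(nat_lit 1623930000), (nat_lit 2319570000), (nat_lit 2706000000)], [], [(nat_lit 9968959542), (nat_lit 9527713572), (nat_lit 9694982394), (nat_lit 9243658751), (nat_lit 9139944624), (nat_lit 8696467719), (nat_lit 8873517720), (nat_lit 8433500085)], (nat_lit 780000), (nat_lit 1271251), (nat_lit 1271251), (nat_lit 1271251), (nat_lit 780000), (nat_lit 1762501), [(nat_lit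 1977501), (nat_lit 1271251), (nat_lit 1271251)], [(nat_lit 32), (nat_lit 67), (nat_lit 428), (nat_lit 200), (nat_lit 9)]⟩⟩))) (.spl (nat_lit 1) (nat_lit 300) (.spl (nat_lit 6) (nat_lit 68) (.leaf ⟨(nat_lit 0), (nat_lit 0), (nat_lit 0), (nat_lit 1000), (nat_lit 0), (nat_lit 8765), (nat_lit 11735), (nat_lit 10796), (nat_lit 0), (nat_lit 0), (nat_lit 0), [], Pd.none, Pd.none, (nat_lit 0), (nat_lit 1), (nat_lit 0), (nat_lit 0), (nat_lit 0), (nat_lit 0), [⟨(nat_lit 0), (nat_lit 90), (nat_lit 74), (nat_lit 100), (nat_lit 228566294)⟩], [], [], [],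
 ⟨⟨[(nat_lit 40), (nat_lit 100), (nat_lit 140)], [(nat_lit 0), (nat_lit 0), (nat_lit 3243)], [((nat_lit 0), (nat_lit 0), (nat_lit 0)), ((nat_lit 0), (nat_lit 0), (nat_lit 0)), ((nat_lit 1000), (nat_lit 870), (nat_lit 941))], ((nat_lit 82), (nat_lit 100), (nat_lit 77))⟩, (nat_lit 2173152), (nat_lit 188), (nat_lit 188), (nat_lit 0), (nat_lit 180828), [(nat_lit 4178892711), (nat_lit 6250000982), (nat_lit 9842000000)], [], [(nat_lit 21536718684), (nat_lit 23296641768), (nat_lit 25733591630), (nat_lit 27704153185), (nat_lit 30748279912), (nat_lit 32731537817), (nat_lit 32824027885), (nat_lit 34262774249)], (nat_lit 1271251), (nat_lit 1271251), (nat_lit 780000), (nat_lit 2090001), (nat_lit 1271251), (nat_lit 1271251), [(nat_lit 490000), (nat_lit 1427501), (nat_lit 1271251)], [(nat_lit 5), (nat_lit 55), (nat_lit 401), (nat_lit 175), (nat_lit 11)]⟩,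
 ⟨⟨[(nat_lit 60), (nat_lit 120), (nat_lit 160)], [(nat_lit 0), (nat_lit 0), (nat_lit 3243)], [((nat_lit 0), (nat_lit 0), (nat_lit 0)), ((nat_lit 0), (nat_lit 0), (nat_lit 0)), ((nat_lit 878), (nat_lit 1000), (nat_lit 945))], ((nat_lit 100), (nat_lit 99), (nat_lit 82))⟩, (nat_lit 3094268), (nat_lit 205), (nat_lit 205), (nat_lit 0), (nat_lit 131399), [(nat_lit 3282000000), (nat_lit 7968000000), (nat_lit 11872000000)], [], [(nat_lit 19096163906), (nat_lit 20512191478), (nat_lit 23264451975), (nat_lit 25128575673), (nat_lit 34866313153), (nat_lit 36419978715), (nat_lit 36264975458), (nat_lit 37275297084)], (nat_lit 1271251), (nat_lit 1271251), (nat_lit 780000), (nat_lit 2090001), (nat_lit 1271251), (nat_lit 1271251), [(nat_lit 780000), (nat_lit 1762501), (nat_lit 1271251)], [(nat_lit 12), (nat_lit 59), (nat_lit 483), (nat_lit 250), (nat_lit 12)]⟩,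
 ⟨⟨[(nat_lit 140), (nat_lit 180), (nat_lit 200)], [(nat_lit 0), (nat_lit 0), (nat_lit 2835)], [((nat_lit 0), (nat_lit 0), (nat_lit 0)), ((nat_lit 0), (nat_lit 0), (nat_lit 0)), ((nat_lit 363), (nat_lit 1000), (nat_lit 798))], ((nat_lit 0), (nat_lit 0), (nat_lit 0))⟩, (nat_lit 275132), (nat_lit 300), (nat_lit 689), (nat_lit 78100004), (nat_lit 868241), [(nat_lit 9842000000), (nat_lit 14058000000), (nat_lit 16400000000)], [], [(nat_lit 58502419893), (nat_lit 56288173444), (nat_lit 57552611061), (nat_lit 55200258961), (nat_lit 57556840583), (nat_lit 55171924795), (nat_lit 56328321342), (nat_lit 53822166777)], (nat_lit 780000), (nat_lit 1271251), (nat_lit 1271251), (nat_lit 1271251), (nat_lit 1271251), (nat_lit 1271251), [(nat_lit 1977501), (nat_lit 1271251), (nat_lit 1271251)], [(nat_lit 32), (nat_lit 67), (nat_lit 483), (nat_lit 250), (nat_lit 10)]⟩⟩) (.dle (nat_lit 0))) (.trX (nat_lit 5) (nat_lit 1) (nat_lit 2) (nat_lit 87) (nat_lit 59) (nat_lit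 100) (nat_lit 370) (.spl (nat_lit 0) (nat_lit 330) (.spl (nat_lit 6) (nat_lit 76) (.leaf ⟨(nat_lit 0), (nat_lit 371), (nat_lit 0), (nat_lit 629), (nat_lit 0), (nat_lit 8809), (nat_lit 5834), (nat_lit 7023), (nat_lit 0), (nat_lit 0), (nat_lit 0), [], Pd.none, Pd.none, (nat_lit 0), (nat_lit 1), (nat_lit 0), (nat_lit 0), (nat_lit 6), (nat_lit 0), [⟨(nat_lit 0), (nat_lit 82), (nat_lit 78), (nat_lit 100), (nat_lit 397811307)⟩], [⟨(nat_lit 1), (nat_lit 83), (nat_lit 81), (nat_lit 100), (nat_lit 102916368)⟩], [], [],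
 ⟨⟨[(nat_lit 40), (nat_lit 100), (nat_lit 140)], [(nat_lit 0), (nat_lit 0), (nat_lit 3243)], [((nat_lit 0), (nat_lit 0), (nat_lit 0)), ((nat_lit 0), (nat_lit 0), (nat_lit 0)), ((nat_lit 1000), (nat_lit 870), (nat_lit 941))], ((nat_lit 83), (nat_lit 100), (nat_lit 81))⟩, (nat_lit 1801414), (nat_lit 203), (nat_lit 203), (nat_lit 0), (nat_lit 239060), [(nat_lit 3558590973), (nat_lit 6250000169), (nat_lit 9842000000)], [], [(nat_lit 22913608073), (nat_lit 23598721625), (nat_lit 25752245078), (nat_lit 26740834370), (nat_lit 30795353235), (nat_lit 31790298181), (nat_lit 32862284081), (nat_lit 33583810772)], (nat_lit 1271251), (nat_lit 1271251), (nat_lit 780000), (nat_lit 2090001), (nat_lit 1271251), (nat_lit 1271251), [(nat_lit 490000), (nat_lit 1427501), (nat_lit 1271251)], [(nat_lit 5), (nat_lit 55), (nat_lit 401), (nat_lit 175), (nat_lit 11)]⟩,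
 ⟨⟨[(nat_lit 60), (nat_lit 100), (nat_lit 140)], [(nat_lit 0), (nat_lit 609), (nat_lit 2558)], [((nat_lit 0), (nat_lit 0), (nat_lit 0)), ((nat_lit 1000), (nat_lit 905), (nat_lit 238)), ((nat_lit 1000), (nat_lit 904), (nat_lit 760))], ((nat_lit 93), (nat_lit 100), (nat_lit 84))⟩, (nat_lit 3055040), (nat_lit 178), (nat_lit 178), (nat_lit 0), (nat_lit 147975), [(nat_lit 3282000000), (nat_lit 6250000000), (nat_lit 9842000000)], [], [(nat_lit 21406820036), (nat_lit 22523052152), (nat_lit 24546733326), (nat_lit 25476772740), (nat_lit 28401144271), (nat_lit 29300935110), (nat_lit 30727712695), (nat_lit 31531796668)], (nat_lit 1271251), (nat_lit 1271251), (nat_lit 780000), (nat_lit 2090001), (nat_lit 1271251), (nat_lit 1271251), [(nat_lit 780000), (nat_lit 1435001), (nat_lit 1271251)], [(nat_lit 11), (nat_lit 55), (nat_lit 401), (nat_lit 175), (nat_lit 11)]⟩,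
 ⟨⟨[(nat_lit 140), (nat_lit 180), (nat_lit 200)], [(nat_lit 0), (nat_lit 0), (nat_lit 2835)], [((nat_lit 0), (nat_lit 0), (nat_lit 0)), ((nat_lit 0), (nat_lit 0), (nat_lit 0)), ((nat_lit 363), (nat_lit 1000), (nat_lit 798))], ((nat_lit 0), (nat_lit 0), (nat_lit 0))⟩, (nat_lit 173058), (nat_lit 300), (nat_lit 820), (nat_lit 49124903), (nat_lit 1135371), [(nat_lit 6190618000), (nat_lit 8842482000), (nat_lit 10315600000)], [], [(nat_lit 37230261120), (nat_lit 35695247343), (nat_lit 36145716181), (nat_lit 34549937759), (nat_lit 36049072131), (nat_lit 34439021241), (nat_lit 34696310503), (nat_lit 33059163528)], (nat_lit 780000), (nat_lit 1271251), (nat_lit 1271251), (nat_lit 1271251), (nat_lit 1271251), (nat_lit 1271251), [(nat_lit 1977501), (nat_lit 1271251), (nat_lit 1271251)], [(nat_lit 32), (nat_lit 67), (nat_lit 456), (nat_lit 225), (nat_lit 9)]⟩⟩) (.dle (nat_lit 0))) (.trZ (nat_lit 0) (nat_lit 1) (nat_lit 3) (nat_lit 92) (nat_lit 81) (nat_lit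 100) (nat_lit 130) (.trX (nat_lit 4) (nat_lit 0) (nat_lit 2) (nat_lit 76) (nat_lit 73) (nat_lit 100) (nat_lit 340) (.leaf ⟨(nat_lit 0), (nat_lit 694), (nat_lit 0), (nat_lit 306), (nat_lit 0), (nat_lit 7746), (nat_lit 7380), (nat_lit 3300), (nat_lit 0), (nat_lit 0), (nat_lit 0), [], Pd.none, Pd.none, (nat_lit 0), (nat_lit 1), (nat_lit 0), (nat_lit 0), (nat_lit 6), (nat_lit 0), [⟨(nat_lit 0), (nat_lit 81), (nat_lit 72), (nat_lit 100), (nat_lit 477003370)⟩], [⟨(nat_lit 1), (nat_lit 87), (nat_lit 76), (nat_lit 100), (nat_lit 361680619)⟩], [⟨(nat_lit 1), (nat_lit 77), (nat_lit 86), (nat_lit 100), (nat_lit 306082496)⟩], [],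
 ⟨⟨[(nat_lit 40), (nat_lit 100), (nat_lit 140)], [(nat_lit 0), (nat_lit 592), (nat_lit 3606)], [((nat_lit 0), (nat_lit 0), (nat_lit 0)), ((nat_lit 1000), (nat_lit 908), (nat_lit 154)), ((nat_lit 1000), (nat_lit 825), (nat_lit 971))], ((nat_lit 79), (nat_lit 100), (nat_lit 86))⟩, (nat_lit 1703635), (nat_lit 218), (nat_lit 218), (nat_lit 0), (nat_lit 296998), [(nat_lit 3184568532), (nat_lit 6250000355), (nat_lit 9842000000)], [], [(nat_lit 23915772234), (nat_lit 24541657651), (nat_lit 26210253333), (nat_lit 27118911934), (nat_lit 29402471525), (nat_lit 30335368327), (nat_lit 31894016977), (nat_lit 32585532953)], (nat_lit 1271251), (nat_lit 1271251), (nat_lit 857188), (nat_lit 2099376), (nat_lit 1271251), (nat_lit 1271251), [(nat_lit 490000), (nat_lit 1427501), (nat_lit 1271251)], [(nat_lit 5), (nat_lit 55), (nat_lit 401), (nat_lit 175), (nat_lit 10)]⟩,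
 ⟨⟨[(nat_lit 60), (nat_lit 120), (nat_lit 160)], [(nat_lit 0), (nat_lit 913), (nat_lit 3885)], [((nat_lit 0), (nat_lit 0), (nat_lit 0)), ((nat_lit 1000), (nat_lit 905), (nat_lit 238)), ((nat_lit 886), (nat_lit 948), (nat_lit 1000))], ((nat_lit 96), (nat_lit 100), (nat_lit 92))⟩, (nat_lit 2487254), (nat_lit 220), (nat_lit 220), (nat_lit 0), (nat_lit 193324), [(nat_lit 3282000000), (nat_lit 7968000000), (nat_lit 11872000000)], [], [(nat_lit 22953192145), (nat_lit 24035081710), (nat_lit 25536565408), (nat_lit 26517092498), (nat_lit 30131930752), (nat_lit 31017164173), (nat_lit 32175364098), (nat_lit 33049778510)], (nat_lit 1271251), (nat_lit 1271251), (nat_lit 857188), (nat_lit 2099376), (nat_lit 1271251), (nat_lit 1271251), [(nat_lit 780000), (nat_lit 1762501), (nat_lit 1271251)], [(nat_lit 12), (nat_lit 59), (nat_lit 483), (nat_lit 250), (nat_lit 11)]⟩,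
 ⟨⟨[(nat_lit 140), (nat_lit 180), (nat_lit 200)], [(nat_lit 0), (nat_lit 0), (nat_lit 2835)], [((nat_lit 0), (nat_lit 0), (nat_lit 0)), ((nat_lit 0), (nat_lit 0), (nat_lit 0)), ((nat_lit 363), (nat_lit 1000), (nat_lit 798))], ((nat_lit 0), (nat_lit 0), (nat_lit 0))⟩, (nat_lit 84190), (nat_lit 300), (nat_lit 975), (nat_lit 23898607), (nat_lit 1494229), [(nat_lit 3011652000), (nat_lit 4301748000), (nat_lit 5018400000)], [], [(nat_lit 18702987628), (nat_lit 17983478695), (nat_lit 18147972212), (nat_lit 17408821244), (nat_lit 18084426362), (nat_lit 17335121594), (nat_lit 17498271344), (nat_lit 16730206462)], (nat_lit 780000), (nat_lit 1271251), (nat_lit 1271251), (nat_lit 1271251), (nat_lit 1271251), (nat_lit 1271251), [(nat_lit 1977501), (nat_lit 1271251), (nat_lit 1271251)], [(nat_lit 32), (nat_lit 67), (nat_lit 456), (nat_lit 225), (nat_lit 9)]⟩⟩)))))))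
noncomputable def c11_102 : Tr Lf :=
 (.spl (nat_lit 6) (nat_lit 64) (.spl (nat_lit 5) (nat_lit 120) (.leaf ⟨(nat_lit 0), (nat_lit 0), (nat_lit 0), (nat_lit 1000), (nat_lit 5831), (nat_lit 10849), (nat_lit 10270), (nat_lit 12722), (nat_lit 0), (nat_lit 0), (nat_lit 0), [], Pd.none, Pd.none, (nat_lit 0), (nat_lit 1), (nat_lit 0), (nat_lit 0), (nat_lit 0), (nat_lit 0), [], [], [⟨(nat_lit 0), (nat_lit 100), (nat_lit 92), (nat_lit 40), (nat_lit 1285159074)⟩], [],
 ⟨⟨[(nat_lit 40), (nat_lit 80), (nat_lit 120)], [(nat_lit 0), (nat_lit 0), (nat_lit 2151)], [((nat_lit 0), (nat_lit 0), (nat_lit 0)), ((nat_lit 0), (nat_lit 0), (nat_lit 0)), ((nat_lit 1000), (nat_lit 815), (nat_lit 753))], ((nat_lit 81), (nat_lit 100), (nat_lit 75))⟩, (nat_lit 0), (nat_lit 162), (nat_lit 162), (nat_lit 0), (nat_lit 152417), [(nat_lit 3743587380), (nat_lit 7466155096), (nat_lit 7968000000)], [], [(nat_lit 23033339648), (nat_lit 25287238655), (nat_lit 26617086758), (nat_lit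 28901054821), (nat_lit 36798093719), (nat_lit 38846006295), (nat_lit 37365874514), (nat_lit 38831429834)], (nat_lit 1271251), (nat_lit 1271251), (nat_lit 780000), (nat_lit 2090001), (nat_lit 1271251), (nat_lit 1271251), [(nat_lit 490000), (nat_lit 1100000), (nat_lit 1785001)], [(nat_lit 4), (nat_lit 51), (nat_lit 289), (nat_lit 75), (nat_lit 8)]⟩,
 ⟨⟨[(nat_lit 80), (nat_lit 120), (nat_lit 160)], [(nat_lit 0), (nat_lit 0), (nat_lit 2132)], [((nat_lit 0), (nat_lit 0), (nat_lit 0)), ((nat_lit 0), (nat_lit 0), (nat_lit 0)), ((nat_lit 858), (nat_lit 1000), (nat_lit 713))], ((nat_lit 100), (nat_lit 83), (nat_lit 75))⟩, (nat_lit 0), (nat_lit 353), (nat_lit 353), (nat_lit 0), (nat_lit 149255), [(nat_lit 4688000000), (nat_lit 7968000000), (nat_lit 11872000000)], [], [(nat_lit 37527922600), (nat_lit 40559147880), (nat_lit 44946834320), (nat_lit 43372304640), (nat_lit 30801410030), (nat_lit 33051221660), (nat_lit 51890858550), (nat_lit 34553882490)], (nat_lit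 1271251), (nat_lit 1271251), (nat_lit 780000), (nat_lit 2090001), (nat_lit 0), (nat_lit 780000), [(nat_lit 1100000), (nat_lit 1785001), (nat_lit 1271251)], [(nat_lit 18), (nat_lit 59), (nat_lit 428), (nat_lit 200), (nat_lit 11)]⟩,
 ⟨⟨[(nat_lit 120), (nat_lit 160), (nat_lit 180)], [(nat_lit 0), (nat_lit 533), (nat_lit 2066)], [((nat_lit 0), (nat_lit 0), (nat_lit 0)), ((nat_lit 960), (nat_lit 1000), (nat_lit 200)), ((nat_lit 615), (nat_lit 1000), (nat_lit 729))], ((nat_lit 100), (nat_lit 61), (nat_lit 74))⟩, (nat_lit 478732), (nat_lit 300), (nat_lit 493), (nat_lit 72605225), (nat_lit 356104), [(nat_lit 7968000000), (nat_lit 11872000000), (nat_lit 14058000000)], [], [(nat_lit 50861851048), (nat_lit 50609476120), (nat_lit 56494264103), (nat_lit 55609707408), (nat_lit 41056302167), (nat_lit 40368913255), (nat_lit 45374237558), (nat_lit 44530594694)], (nat_lit 1271251), (nat_lit 1271251), (nat_lit 1271251), (nat_lit 1271251), (nat_lit 0), (nat_lit 780000),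 [(nat_lit 1695001), (nat_lit 1271251), (nat_lit 1271251)], [(nat_lit 28), (nat_lit 65), (nat_lit 428), (nat_lit 200), (nat_lit 10)]⟩⟩) (.leaf ⟨(nat_lit 0), (nat_lit 0), (nat_lit 0), (nat_lit 1000), (nat_lit 6266), (nat_lit 9809), (nat_lit 7006), (nat_lit 12769), (nat_lit 0), (nat_lit 0), (nat_lit 0), [], Pd.none, Pd.none, (nat_lit 0), (nat_lit 1), (nat_lit 0), (nat_lit 0), (nat_lit 0), (nat_lit 0), [⟨(nat_lit 0), (nat_lit 81), (nat_lit 72), (nat_lit 100), (nat_lit 528612557)⟩], [], [], [],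
 ⟨⟨[(nat_lit 40), (nat_lit 80), (nat_lit 120)], [(nat_lit 0), (nat_lit 0), (nat_lit 2151)], [((nat_lit 0), (nat_lit 0), (nat_lit 0)), ((nat_lit 0), (nat_lit 0), (nat_lit 0)), ((nat_lit 1000), (nat_lit 815), (nat_lit 753))], ((nat_lit 81), (nat_lit 100), (nat_lit 75))⟩, (nat_lit 0), (nat_lit 162), (nat_lit 162), (nat_lit 0), (nat_lit 152417), [(nat_lit 3749531169), (nat_lit 7319137610), (nat_lit 7968000000)], [], [(nat_lit 23782605568), (nat_lit 25881499855), (nat_lit 26865717670), (nat_lit 28377728616), (nat_lit 35418214959), (nat_lit 37330773095), (nat_lit 36286265074), (nat_lit 37665130674)], (nat_lit 1271251), (nat_lit 1271251), (nat_lit 780000), (nat_lit 2090001), (nat_lit 1271251), (nat_lit 1271251), [(nat_lit 490000), (nat_lit 1100000), (nat_lit 1785001)], [(nat_lit 4), (nat_lit 51), (nat_lit 289), (nat_lit 75), (nat_lit 8)]⟩,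
 ⟨⟨[(nat_lit 80), (nat_lit 120), (nat_lit 160)], [(nat_lit 0), (nat_lit 0), (nat_lit 2132)], [((nat_lit 0), (nat_lit 0), (nat_lit 0)), ((nat_lit 0), (nat_lit 0), (nat_lit 0)), ((nat_lit 858), (nat_lit 1000), (nat_lit 713))], ((nat_lit 100), (nat_lit 83), (nat_lit 75))⟩, (nat_lit 1588334), (nat_lit 233), (nat_lit 233), (nat_lit 0), (nat_lit 193390), [(nat_lit 4688000000), (nat_lit 7968000000), (nat_lit 11872000000)], [], [(nat_lit 38759402818), (nat_lit 29244844928), (nat_lit 36616597958), (nat_lit 32274092834), (nat_lit 48486042368), (nat_lit 38452680300), (nat_lit 65534056852), (nat_lit 53541774556)], (nat_lit 1271251), (nat_lit 1271251), (nat_lit 780000), (nat_lit 2090001), (nat_lit 780000), (nat_lit 3072501), [(nat_lit 1100000), (nat_lit 1785001), (nat_lit 1271251)], [(nat_lit 18), (nat_lit 59), (nat_lit 483), (nat_lit 250), (nat_lit 12)]⟩,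
 ⟨⟨[(nat_lit 120), (nat_lit 160), (nat_lit 180)], [(nat_lit 0), (nat_lit 533), (nat_lit 2066)], [((nat_lit 0), (nat_lit 0), (nat_lit 0)), ((nat_lit 960), (nat_lit 1000), (nat_lit 200)), ((nat_lit 615), (nat_lit 1000), (nat_lit 729))], ((nat_lit 100), (nat_lit 61), (nat_lit 74))⟩, (nat_lit 478732), (nat_lit 300), (nat_lit 485), (nat_lit 72605225), (nat_lit 564244), [(nat_lit 7968000000), (nat_lit 11872000000), (nat_lit 14058000000)], [], [(nat_lit 40913032662), (nat_lit 40245723542), (nat_lit 45321758604), (nat_lit 44472347101), (nat_lit 42058443630), (nat_lit 40985547130), (nat_lit 45673865408), (nat_lit 45158526900)], (nat_lit 1271251), (nat_lit 1271251), (nat_lit 1271251), (nat_lit 1271251), (nat_lit 780000), (nat_lit 3072501), [(nat_lit 1695001), (nat_lit 1271251), (nat_lit 1271251)], [(nat_lit 28), (nat_lit 65), (nat_lit 483), (nat_lit 250), (nat_lit 11)]⟩⟩)) (.dle (nat_lit 0)))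
noncomputable def c11_103 : Tr Lf :=
 (.spl (nat_lit 1) (nat_lit 280) (.ord (.spl (nat_lit 6) (nat_lit 52) (.leaf ⟨(nat_lit 0), (nat_lit 0), (nat_lit 0), (nat_lit 1000), (nat_lit 69597), (nat_lit 11329), (nat_lit 5409), (nat_lit 7474), (nat_lit 0), (nat_lit 5158053), (nat_lit 0), [], Pd.none, Pd.none, (nat_lit 0), (nat_lit 1), (nat_lit 0), (nat_lit 0), (nat_lit 0), (nat_lit 0), [], [], [⟨(nat_lit 0), (nat_lit 100), (nat_lit 99), (nat_lit 55), (nat_lit 475981463)⟩], [],
 ⟨⟨[(nat_lit 40), (nat_lit 80), (nat_lit 120)], [(nat_lit 0), (nat_lit 0), (nat_lit 2151)], [((nat_lit 0), (nat_lit 0), (nat_lit 0)), ((nat_lit 0), (nat_lit 0), (nat_lit 0)), ((nat_lit 1000), (nat_lit 815), (nat_lit 753))], ((nat_lit 80), (nat_lit 100), (nat_lit 68))⟩, (nat_lit 816144), (nat_lit 146), (nat_lit 146), (nat_lit 0), (nat_lit 71747), [(nat_lit 4192650524), (nat_lit 8050605933), (nat_lit 7968000000)], [], [(nat_lit 18698730212), (nat_lit 21636417270), (nat_lit 25465851527),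 (nat_lit 28441725273), (nat_lit 40064020848), (nat_lit 42001512654), (nat_lit 44012858498), (nat_lit 41120837088)], (nat_lit 1271251), (nat_lit 1271251), (nat_lit 780000), (nat_lit 2090001), (nat_lit 780000), (nat_lit 3072501), [(nat_lit 490000), (nat_lit 1100000), (nat_lit 1785001)], [(nat_lit 4), (nat_lit 51), (nat_lit 401), (nat_lit 175), (nat_lit 13)]⟩,
 ⟨⟨[(nat_lit 80), (nat_lit 120), (nat_lit 160)], [(nat_lit 0), (nat_lit 0), (nat_lit 2132)], [((nat_lit 0), (nat_lit 0), (nat_lit 0)), ((nat_lit 0), (nat_lit 0), (nat_lit 0)), ((nat_lit 858), (nat_lit 1000), (nat_lit 713))], ((nat_lit 100), (nat_lit 88), (nat_lit 69))⟩, (nat_lit 0), (nat_lit 331), (nat_lit 331), (nat_lit 0), (nat_lit 111044), [(nat_lit 4688000000), (nat_lit 7968000000), (nat_lit 11872000000)], [], [(nat_lit 43473116434), (nat_lit 42525046623), (nat_lit 43781854204), (nat_lit 44953378531), (nat_lit 45373566042), (nat_lit 46068001676), (nat_lit 57983065598), (nat_lit 53464100321)],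 (nat_lit 1271251), (nat_lit 1271251), (nat_lit 780000), (nat_lit 2090001), (nat_lit 0), (nat_lit 2825001), [(nat_lit 1100000), (nat_lit 1785001), (nat_lit 1271251)], [(nat_lit 18), (nat_lit 59), (nat_lit 483), (nat_lit 250), (nat_lit 12)]⟩,
 ⟨⟨[(nat_lit 100), (nat_lit 140), (nat_lit 160)], [(nat_lit 0), (nat_lit 508), (nat_lit 1689)], [((nat_lit 0), (nat_lit 0), (nat_lit 0)), ((nat_lit 1000), (nat_lit 1000), (nat_lit 198)), ((nat_lit 811), (nat_lit 1000), (nat_lit 671))], ((nat_lit 100), (nat_lit 81), (nat_lit 68))⟩, (nat_lit 562959), (nat_lit 300), (nat_lit 334), (nat_lit 68257265), (nat_lit 113702), [(nat_lit 6250000000), (nat_lit 9842000000), (nat_lit 11872000000)], [], [(nat_lit 43978937890), (nat_lit 46018309244), (nat_lit 51061576735), (nat_lit 51640747884), (nat_lit 58392665892), (nat_lit 48213937402), (nat_lit 46634174996), (nat_lit 46418192279)], (nat_lit 1271251), (nat_lit 1271251), (nat_lit 1271251), (nat_lit 1271251), (nat_lit 0), (nat_lit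 2825001), [(nat_lit 1412501), (nat_lit 1271251), (nat_lit 1271251)], [(nat_lit 23), (nat_lit 62), (nat_lit 538), (nat_lit 300), (nat_lit 14)]⟩⟩) (.dle (nat_lit 0)))) (.trZ (nat_lit 1) (nat_lit 2) (nat_lit 5) (nat_lit 100) (nat_lit 92) (nat_lit 49) (nat_lit 20) (.spl (nat_lit 1) (nat_lit 300) (.ord (.spl (nat_lit 6) (nat_lit 68) (.leaf ⟨(nat_lit 0), (nat_lit 0), (nat_lit 0), (nat_lit 1000), (nat_lit 25758), (nat_lit 9823), (nat_lit 10104), (nat_lit 10104), (nat_lit 0), (nat_lit 570232), (nat_lit 0), [], Pd.none, Pd.none, (nat_lit 0), (nat_lit 1), (nat_lit 0), (nat_lit 0), (nat_lit 0), (nat_lit 0), [], [], [⟨(nat_lit 0), (nat_lit 100), (nat_lit 94), (nat_lit 73), (nat_lit 217112416)⟩], [],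
 ⟨⟨[(nat_lit 40), (nat_lit 100), (nat_lit 140)], [(nat_lit 0), (nat_lit 0), (nat_lit 3243)], [((nat_lit 0), (nat_lit 0), (nat_lit 0)), ((nat_lit 0), (nat_lit 0), (nat_lit 0)), ((nat_lit 1000), (nat_lit 870), (nat_lit 941))], ((nat_lit 82), (nat_lit 100), (nat_lit 77))⟩, (nat_lit 2453287), (nat_lit 211), (nat_lit 211), (nat_lit 0), (nat_lit 210287), [(nat_lit 2211745283), (nat_lit 6250002235), (nat_lit 9842000000)], [], [(nat_lit 21137450802), (nat_lit 20779168348), (nat_lit 24610047449), (nat_lit 27286544208), (nat_lit 37807864176), (nat_lit 39570013155), (nat_lit 41466849597), (nat_lit 39277234056)], (nat_lit 1271251), (nat_lit 1271251), (nat_lit 780000), (nat_lit 2090001), (nat_lit 780000), (nat_lit 3072501), [(nat_lit 490000), (nat_lit 1427501), (nat_lit 1271251)], [(nat_lit 5), (nat_lit 55), (nat_lit 401), (nat_lit 175), (nat_lit 11)]⟩,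
 ⟨⟨[(nat_lit 60), (nat_lit 120), (nat_lit 160)], [(nat_lit 0), (nat_lit 0), (nat_lit 3243)], [((nat_lit 0), (nat_lit 0), (nat_lit 0)), ((nat_lit 0), (nat_lit 0), (nat_lit 0)), ((nat_lit 878), (nat_lit 1000), (nat_lit 945))], ((nat_lit 100), (nat_lit 99), (nat_lit 82))⟩, (nat_lit 2075544), (nat_lit 380), (nat_lit 380), (nat_lit 0), (nat_lit 273642), [(nat_lit 3282000000), (nat_lit 7968000000), (nat_lit 11872000000)], [], [(nat_lit 30898322286), (nat_lit 31010274452), (nat_lit 32138936220), (nat_lit 33394887916), (nat_lit 36109308464), (nat_lit 36963994716), (nat_lit 59693154776), (nat_lit 55472446220)], (nat_lit 1271251), (nat_lit 1271251), (nat_lit 780000), (nat_lit 2090001), (nat_lit 111251), (nat_lit 2866250), [(nat_lit 780000), (nat_lit 1762501), (nat_lit 1271251)], [(nat_lit 12), (nat_lit 59), (nat_lit 483), (nat_lit 250), (nat_lit 12)]⟩,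
 ⟨⟨[(nat_lit 100), (nat_lit 140), (nat_lit 180)], [(nat_lit 0), (nat_lit 508), (nat_lit 2854)], [((nat_lit 0), (nat_lit 0), (nat_lit 0)), ((nat_lit 1000), (nat_lit 1000), (nat_lit 198)), ((nat_lit 777), (nat_lit 1000), (nat_lit 712))], ((nat_lit 100), (nat_lit 74), (nat_lit 76))⟩, (nat_lit 637934), (nat_lit 300), (nat_lit 471), (nat_lit 67985211), (nat_lit 313314), [(nat_lit 6250000000), (nat_lit 9842000000), (nat_lit 14058000000)], [], [(nat_lit 50481263317), (nat_lit 51630846473), (nat_lit 53735780272), (nat_lit 53781033258), (nat_lit 65518072016), (nat_lit 47210972900), (nat_lit 45149185096), (nat_lit 44575924612)], (nat_lit 1271251), (nat_lit 1271251), (nat_lit 1271251), (nat_lit 1271251), (nat_lit 111251), (nat_lit 2866250), [(nat_lit 1412501), (nat_lit 1271251), (nat_lit 1271251)], [(nat_lit 24), (nat_lit 63), (nat_lit 538), (nat_lit 300), (nat_lit 12)]⟩⟩) (.dle (nat_lit 0)))) (.trZ (nat_lit 1) (nat_lit 2) (nat_lit 5) (nat_lit 100) (nat_lit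 87) (nat_lit 59) (nat_lit 30) (.leaf ⟨(nat_lit 0), (nat_lit 173), (nat_lit 0), (nat_lit 827), (nat_lit 11665), (nat_lit 9639), (nat_lit 9428), (nat_lit 8039), (nat_lit 0), (nat_lit 15603), (nat_lit 0), [], Pd.none, Pd.none, (nat_lit 0), (nat_lit 1), (nat_lit 0), (nat_lit 0), (nat_lit 5), (nat_lit 0), [⟨(nat_lit 0), (nat_lit 87), (nat_lit 79), (nat_lit 100), (nat_lit 368975207)⟩], [], [], [],
 ⟨⟨[(nat_lit 40), (nat_lit 100), (nat_lit 140)], [(nat_lit 0), (nat_lit 0), (nat_lit 3243)], [((nat_lit 0), (nat_lit 0), (nat_lit 0)), ((nat_lit 0), (nat_lit 0), (nat_lit 0)), ((nat_lit 1000), (nat_lit 870), (nat_lit 941))], ((nat_lit 85), (nat_lit 100), (nat_lit 88))⟩, (nat_lit 1949475), (nat_lit 295), (nat_lit 295), (nat_lit 0), (nat_lit 368035), [(nat_lit 2032000013), (nat_lit 6668179806), (nat_lit 9842000000)], [], [(nat_lit 20701197768), (nat_lit 22467283251), (nat_lit 24505487057), (nat_lit 27145406548), (nat_lit 37532211568), (nat_lit 39272937519), (nat_lit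 41575207060), (nat_lit 39051986408)], (nat_lit 1271251), (nat_lit 1271251), (nat_lit 780000), (nat_lit 2090001), (nat_lit 780000), (nat_lit 3072501), [(nat_lit 490000), (nat_lit 1427501), (nat_lit 1271251)], [(nat_lit 5), (nat_lit 55), (nat_lit 401), (nat_lit 175), (nat_lit 11)]⟩,
 ⟨⟨[(nat_lit 60), (nat_lit 120), (nat_lit 160)], [(nat_lit 0), (nat_lit 913), (nat_lit 3885)], [((nat_lit 0), (nat_lit 0), (nat_lit 0)), ((nat_lit 1000), (nat_lit 905), (nat_lit 238)), ((nat_lit 886), (nat_lit 948), (nat_lit 1000))], ((nat_lit 96), (nat_lit 100), (nat_lit 92))⟩, (nat_lit 3554223), (nat_lit 429), (nat_lit 429), (nat_lit 0), (nat_lit 419333), [(nat_lit 3282000000), (nat_lit 7968000000), (nat_lit 11872000000)], [], [(nat_lit 22186106428), (nat_lit 23417596064), (nat_lit 28029929814), (nat_lit 30321235815), (nat_lit 35996796562), (nat_lit 37216109936), (nat_lit 52775992403), (nat_lit 48837666961)], (nat_lit 1271251), (nat_lit 1271251), (nat_lit 780000), (nat_lit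 2090001), (nat_lit 169688), (nat_lit 2886876), [(nat_lit 780000), (nat_lit 1762501), (nat_lit 1271251)], [(nat_lit 12), (nat_lit 59), (nat_lit 483), (nat_lit 250), (nat_lit 12)]⟩,
 ⟨⟨[(nat_lit 100), (nat_lit 140), (nat_lit 180)], [(nat_lit 0), (nat_lit 508), (nat_lit 2854)], [((nat_lit 0), (nat_lit 0), (nat_lit 0)), ((nat_lit 1000), (nat_lit 1000), (nat_lit 198)), ((nat_lit 777), (nat_lit 1000), (nat_lit 712))], ((nat_lit 100), (nat_lit 64), (nat_lit 83))⟩, (nat_lit 527571), (nat_lit 300), (nat_lit 582), (nat_lit 56223771), (nat_lit 491647), [(nat_lit 5168750000), (nat_lit 8139334000), (nat_lit 11625966000)], [], [(nat_lit 46087229874), (nat_lit 46509236708), (nat_lit 45616615078), (nat_lit 44880511499), (nat_lit 54224592282), (nat_lit 40468061950), (nat_lit 38026989316), (nat_lit 37003169162)], (nat_lit 1271251), (nat_lit 1271251), (nat_lit 1271251), (nat_lit 1271251), (nat_lit 169688), (nat_lit 2886876), [(nat_lit 1412501), (nat_lit 1271251),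 (nat_lit 1271251)], [(nat_lit 24), (nat_lit 63), (nat_lit 538), (nat_lit 300), (nat_lit 12)]⟩⟩)))))
noncomputable def c11_104 : Tr Lf :=
 (.spl (nat_lit 1) (nat_lit 280) (.spl (nat_lit 6) (nat_lit 56) (.leaf ⟨(nat_lit 0), (nat_lit 776), (nat_lit 0), (nat_lit 224), (nat_lit 18184), (nat_lit 5410), (nat_lit 7900), (nat_lit 1457), (nat_lit 0), (nat_lit 0), (nat_lit 0), [], Pd.none, Pd.none, (nat_lit 0), (nat_lit 1), (nat_lit 0), (nat_lit 0), (nat_lit 3), (nat_lit 0), [], [], [], [],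
 ⟨⟨[(nat_lit 40), (nat_lit 80), (nat_lit 120)], [(nat_lit 0), (nat_lit 0), (nat_lit 2151)], [((nat_lit 0), (nat_lit 0), (nat_lit 0)), ((nat_lit 0), (nat_lit 0), (nat_lit 0)), ((nat_lit 1000), (nat_lit 815), (nat_lit 753))], ((nat_lit 81), (nat_lit 100), (nat_lit 70))⟩, (nat_lit 1873173), (nat_lit 147), (nat_lit 147), (nat_lit 0), (nat_lit 74932), [(nat_lit 2394733733), (nat_lit 4688000003), (nat_lit 7968000000)], [], [(nat_lit 24832670057), (nat_lit 26152045542), (nat_lit 31524666277), (nat_lit 32469777282), (nat_lit 26317759177), (nat_lit 27402409472), (nat_lit 31849228963), (nat_lit 32748655063)], (nat_lit 1271251), (nat_lit 1271251), (nat_lit 1271251), (nat_lit 1271251), (nat_lit 780000), (nat_lit 1762501), [(nat_lit 490000), (nat_lit 1100000), (nat_lit 1785001)], [(nat_lit 4), (nat_lit 51), (nat_lit 272), (nat_lit 60), (nat_lit 8)]⟩,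
 ⟨⟨[(nat_lit 80), (nat_lit 120), (nat_lit 160)], [(nat_lit 0), (nat_lit 0), (nat_lit 2132)], [((nat_lit 0), (nat_lit 0), (nat_lit 0)), ((nat_lit 0), (nat_lit 0), (nat_lit 0)), ((nat_lit 858), (nat_lit 1000), (nat_lit 713))], ((nat_lit 100), (nat_lit 86), (nat_lit 71))⟩, (nat_lit 2232119), (nat_lit 330), (nat_lit 330), (nat_lit 0), (nat_lit 118043), [(nat_lit 4688000000), (nat_lit 7968000000), (nat_lit 11872000000)], [], [(nat_lit 35489565292), (nat_lit 37044561692), (nat_lit 42021525492), (nat_lit 42924627692), (nat_lit 35666011492), (nat_lit 36138306792), (nat_lit 39478983200), (nat_lit 40313702400)], (nat_lit 1271251), (nat_lit 1271251), (nat_lit 1271251), (nat_lit 1271251), (nat_lit 0), (nat_lit 2825001), [(nat_lit 1100000), (nat_lit 1785001), (nat_lit 1271251)], [(nat_lit 18), (nat_lit 59), (nat_lit 538), (nat_lit 300), (nat_lit 13)]⟩,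
 ⟨⟨[(nat_lit 140), (nat_lit 180), (nat_lit 200)], [(nat_lit 0), (nat_lit 0), (nat_lit 2835)], [((nat_lit 0), (nat_lit 0), (nat_lit 0)), ((nat_lit 0), (nat_lit 0), (nat_lit 0)), ((nat_lit 363), (nat_lit 1000), (nat_lit 798))], ((nat_lit 0), (nat_lit 0), (nat_lit 0))⟩, (nat_lit 61630), (nat_lit 300), (nat_lit 815), (nat_lit 17494400), (nat_lit 629992), [(nat_lit 2204608000), (nat_lit 3148992000), (nat_lit 3673600000)], [], [(nat_lit 19840025057), (nat_lit 19468213341), (nat_lit 19379059562), (nat_lit 18996425827), (nat_lit 18384293330), (nat_lit 17968987690), (nat_lit 17874250998), (nat_lit 18393566507)], (nat_lit 780000), (nat_lit 1598751), (nat_lit 780000), (nat_lit 1762501), (nat_lit 0), (nat_lit 2825001), [(nat_lit 1977501), (nat_lit 1271251), (nat_lit 1271251)], [(nat_lit 32), (nat_lit 67), (nat_lit 456), (nat_lit 225), (nat_lit 10)]⟩⟩) (.dle (nat_lit 0))) (.spl (nat_lit 5) (nat_lit 200) (.leaf ⟨(nat_lit 0), (nat_lit 915), (nat_lit 0), (nat_lit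 85), (nat_lit 3918), (nat_lit 7937), (nat_lit 8019), (nat_lit 1052), (nat_lit 0), (nat_lit 0), (nat_lit 0), [], Pd.none, Pd.none, (nat_lit 0), (nat_lit 1), (nat_lit 0), (nat_lit 0), (nat_lit 3), (nat_lit 0), [], [], [], [⟨(nat_lit 0), (nat_lit 100), (nat_lit 72), (nat_lit 63), (nat_lit 14172843)⟩],
 ⟨⟨[(nat_lit 40), (nat_lit 100), (nat_lit 140)], [(nat_lit 0), (nat_lit 0), (nat_lit 3243)], [((nat_lit 0), (nat_lit 0), (nat_lit 0)), ((nat_lit 0), (nat_lit 0), (nat_lit 0)), ((nat_lit 1000), (nat_lit 870), (nat_lit 941))], ((nat_lit 85), (nat_lit 100), (nat_lit 88))⟩, (nat_lit 879580), (nat_lit 239), (nat_lit 239), (nat_lit 0), (nat_lit 303854), [(nat_lit 3515943781), (nat_lit 6250000080), (nat_lit 9842000000)], [], [(nat_lit 28921599962), (nat_lit 30092528623), (nat_lit 35645126606), (nat_lit 36676017092), (nat_lit 29011719064), (nat_lit 29956577550), (nat_lit 34652501376), (nat_lit 35774328823)], (nat_lit 1271251), (nat_lit 1271251), (nat_lit 1271251),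 (nat_lit 1271251), (nat_lit 780000), (nat_lit 1762501), [(nat_lit 490000), (nat_lit 1427501), (nat_lit 1271251)], [(nat_lit 5), (nat_lit 55), (nat_lit 272), (nat_lit 60), (nat_lit 7)]⟩,
 ⟨⟨[(nat_lit 60), (nat_lit 120), (nat_lit 160)], [(nat_lit 0), (nat_lit 0), (nat_lit 3243)], [((nat_lit 0), (nat_lit 0), (nat_lit 0)), ((nat_lit 0), (nat_lit 0), (nat_lit 0)), ((nat_lit 878), (nat_lit 1000), (nat_lit 945))], ((nat_lit 100), (nat_lit 92), (nat_lit 90))⟩, (nat_lit 1718334), (nat_lit 409), (nat_lit 409), (nat_lit 0), (nat_lit 362846), [(nat_lit 3282000000), (nat_lit 7968000000), (nat_lit 11872000000)], [], [(nat_lit 38434041685), (nat_lit 39481544416), (nat_lit 42896089788), (nat_lit 43709235844), (nat_lit 32685720097), (nat_lit 33603383021), (nat_lit 36568495228), (nat_lit 37137664110)], (nat_lit 1271251), (nat_lit 1271251), (nat_lit 1271251), (nat_lit 1271251), (nat_lit 0), (nat_lit 1412501), [(nat_lit 780000), (nat_lit 1762501), (nat_lit 1271251)],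 [(nat_lit 12), (nat_lit 59), (nat_lit 483), (nat_lit 250), (nat_lit 12)]⟩,
 ⟨⟨[(nat_lit 140), (nat_lit 180), (nat_lit 200)], [(nat_lit 0), (nat_lit 0), (nat_lit 2835)], [((nat_lit 0), (nat_lit 0), (nat_lit 0)), ((nat_lit 0), (nat_lit 0), (nat_lit 0)), ((nat_lit 363), (nat_lit 1000), (nat_lit 798))], ((nat_lit 0), (nat_lit 0), (nat_lit 0))⟩, (nat_lit 23386), (nat_lit 300), (nat_lit 1668), (nat_lit 6638504), (nat_lit 2542424), [(nat_lit 836570000), (nat_lit 1194930000), (nat_lit 1394000000)], [], [(nat_lit 6290590006), (nat_lit 5918393405), (nat_lit 5833690088), (nat_lit 5489043913), (nat_lit 5147631019), (nat_lit 5361681935), (nat_lit 5607385744), (nat_lit 6945492758)], (nat_lit 780000), (nat_lit 1598751), (nat_lit 780000), (nat_lit 1762501), (nat_lit 0), (nat_lit 1412501), [(nat_lit 1977501), (nat_lit 1271251), (nat_lit 1271251)], [(nat_lit 32), (nat_lit 67), (nat_lit 500), (nat_lit 175), (nat_lit 11)]⟩⟩) (.spl (nat_lit 0) (nat_lit 330) (.spl (nat_lit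 6) (nat_lit 76) (.leaf ⟨(nat_lit 0), (nat_lit 838), (nat_lit 0), (nat_lit 162), (nat_lit 1034), (nat_lit 8056), (nat_lit 7014), (nat_lit 1845), (nat_lit 0), (nat_lit 0), (nat_lit 0), [], Pd.none, Pd.none, (nat_lit 0), (nat_lit 1), (nat_lit 0), (nat_lit 0), (nat_lit 5), (nat_lit 0), [], [], [⟨(nat_lit 1), (nat_lit 63), (nat_lit 88), (nat_lit 100), (nat_lit 268435834)⟩], [⟨(nat_lit 1), (nat_lit 77), (nat_lit 72), (nat_lit 100), (nat_lit 7522739)⟩],
 ⟨⟨[(nat_lit 40), (nat_lit 100), (nat_lit 140)], [(nat_lit 0), (nat_lit 0), (nat_lit 3243)], [((nat_lit 0), (nat_lit 0), (nat_lit 0)), ((nat_lit 0), (nat_lit 0), (nat_lit 0)), ((nat_lit 1000), (nat_lit 870), (nat_lit 941))], ((nat_lit 83), (nat_lit 100), (nat_lit 81))⟩, (nat_lit 799359), (nat_lit 219), (nat_lit 219), (nat_lit 0), (nat_lit 241718), [(nat_lit 3057286241), (nat_lit 6250000055), (nat_lit 9842000000)], [], [(nat_lit 28988453754), (nat_lit 29578755613), (nat_lit 35908931611), (nat_lit 36428205173),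 (nat_lit 29044425330), (nat_lit 29529215325), (nat_lit 34866827371), (nat_lit 35285532963)], (nat_lit 1271251), (nat_lit 1271251), (nat_lit 1271251), (nat_lit 1271251), (nat_lit 780000), (nat_lit 1762501), [(nat_lit 490000), (nat_lit 1427501), (nat_lit 1271251)], [(nat_lit 5), (nat_lit 55), (nat_lit 272), (nat_lit 60), (nat_lit 7)]⟩,
 ⟨⟨[(nat_lit 60), (nat_lit 120), (nat_lit 160)], [(nat_lit 0), (nat_lit 0), (nat_lit 3243)], [((nat_lit 0), (nat_lit 0), (nat_lit 0)), ((nat_lit 0), (nat_lit 0), (nat_lit 0)), ((nat_lit 878), (nat_lit 1000), (nat_lit 945))], ((nat_lit 100), (nat_lit 96), (nat_lit 86))⟩, (nat_lit 1746733), (nat_lit 233), (nat_lit 233), (nat_lit 0), (nat_lit 275732), [(nat_lit 3282000000), (nat_lit 7968000000), (nat_lit 11872000000)], [], [(nat_lit 28221908166), (nat_lit 29864494227), (nat_lit 34270331887), (nat_lit 35273170605), (nat_lit 35154707007), (nat_lit 36135616604), (nat_lit 39295054664), (nat_lit 39878478464)], (nat_lit 1271251),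 (nat_lit 1271251), (nat_lit 1271251), (nat_lit 1271251), (nat_lit 1271251), (nat_lit 1271251), [(nat_lit 780000), (nat_lit 1762501), (nat_lit 1271251)], [(nat_lit 12), (nat_lit 59), (nat_lit 538), (nat_lit 300), (nat_lit 13)]⟩,
 ⟨⟨[(nat_lit 140), (nat_lit 180), (nat_lit 200)], [(nat_lit 0), (nat_lit 0), (nat_lit 2835)], [((nat_lit 0), (nat_lit 0), (nat_lit 0)), ((nat_lit 0), (nat_lit 0), (nat_lit 0)), ((nat_lit 363), (nat_lit 1000), (nat_lit 798))], ((nat_lit 0), (nat_lit 0), (nat_lit 0))⟩, (nat_lit 44571), (nat_lit 300), (nat_lit 1256), (nat_lit 12652207), (nat_lit 1913113), [(nat_lit 1594404000), (nat_lit 2277396000), (nat_lit 2656800000)], [], [(nat_lit 10530083811), (nat_lit 9882670867), (nat_lit 9740634766), (nat_lit 9091946442), (nat_lit 9894107576), (nat_lit 9223480888), (nat_lit 9075089144), (nat_lit 8416112451)], (nat_lit 780000), (nat_lit 1598751), (nat_lit 780000), (nat_lit 1762501), (nat_lit 1271251), (nat_lit 1271251), [(nat_lit 1977501),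 (nat_lit 1271251), (nat_lit 1271251)], [(nat_lit 32), (nat_lit 67), (nat_lit 456), (nat_lit 225), (nat_lit 10)]⟩⟩) (.dle (nat_lit 0))) (.spl (nat_lit 0) (nat_lit 335) (.spl (nat_lit 6) (nat_lit 80) (.leaf ⟨(nat_lit 0), (nat_lit 864), (nat_lit 0), (nat_lit 136), (nat_lit 3043), (nat_lit 7541), (nat_lit 8191), (nat_lit 1543), (nat_lit 0), (nat_lit 0), (nat_lit 0), [], Pd.none, Pd.none, (nat_lit 0), (nat_lit 1), (nat_lit 0), (nat_lit 0), (nat_lit 5), (nat_lit 0), [], [], [⟨(nat_lit 1), (nat_lit 63), (nat_lit 88), (nat_lit 100), (nat_lit 299239064)⟩], [],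
 ⟨⟨[(nat_lit 40), (nat_lit 100), (nat_lit 140)], [(nat_lit 0), (nat_lit 592), (nat_lit 3606)], [((nat_lit 0), (nat_lit 0), (nat_lit 0)), ((nat_lit 1000), (nat_lit 908), (nat_lit 154)), ((nat_lit 1000), (nat_lit 825), (nat_lit 971))], ((nat_lit 78), (nat_lit 100), (nat_lit 82))⟩, (nat_lit 907737), (nat_lit 228), (nat_lit 228), (nat_lit 0), (nat_lit 269960), [(nat_lit 2803555128), (nat_lit 6250000044), (nat_lit 9842000000)], [], [(nat_lit 29176024301), (nat_lit 29460707469), (nat_lit 35714869982), (nat_lit 35966222795), (nat_lit 29271387476), (nat_lit 29502040611), (nat_lit 34791557516), (nat_lit 34995464794)], (nat_lit 1271251), (nat_lit 1271251), (nat_lit 1271251), (nat_lit 1271251), (nat_lit 780000), (nat_lit 1762501), [(nat_lit 490000), (nat_lit 1427501), (nat_lit 1271251)], [(nat_lit 5), (nat_lit 55), (nat_lit 272), (nat_lit 60), (nat_lit 7)]⟩,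
 ⟨⟨[(nat_lit 60), (nat_lit 120), (nat_lit 160)], [(nat_lit 0), (nat_lit 0), (nat_lit 3243)], [((nat_lit 0), (nat_lit 0), (nat_lit 0)), ((nat_lit 0), (nat_lit 0), (nat_lit 0)), ((nat_lit 878), (nat_lit 1000), (nat_lit 945))], ((nat_lit 100), (nat_lit 95), (nat_lit 87))⟩, (nat_lit 1201790), (nat_lit 249), (nat_lit 249), (nat_lit 0), (nat_lit 320121), [(nat_lit 3282000000), (nat_lit 7968000000), (nat_lit 11872000000)], [], [(nat_lit 31580550906), (nat_lit 32755742922), (nat_lit 36188601366), (nat_lit 36841539488), (nat_lit 36477061749), (nat_lit 37242474942), (nat_lit 40734248616), (nat_lit 41565652744)], (nat_lit 1271251), (nat_lit 1271251), (nat_lit 1271251), (nat_lit 1271251), (nat_lit 1271251), (nat_lit 1271251), [(nat_lit 780000), (nat_lit 1762501), (nat_lit 1271251)], [(nat_lit 12), (nat_lit 59), (nat_lit 538), (nat_lit 300), (nat_lit 13)]⟩,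
 ⟨⟨[(nat_lit 140), (nat_lit 180), (nat_lit 200)], [(nat_lit 0), (nat_lit 0), (nat_lit 2835)], [((nat_lit 0), (nat_lit 0), (nat_lit 0)), ((nat_lit 0), (nat_lit 0), (nat_lit 0)), ((nat_lit 363), (nat_lit 1000), (nat_lit 798))], ((nat_lit 0), (nat_lit 0), (nat_lit 0))⟩, (nat_lit 37418), (nat_lit 300), (nat_lit 1400), (nat_lit 10621600), (nat_lit 2222182), [(nat_lit 1338512000), (nat_lit 1911888000), (nat_lit 2230400000)], [], [(nat_lit 8882181295), (nat_lit 8332610988), (nat_lit 8214029940), (nat_lit 7670360949), (nat_lit 8330786216), (nat_lit 7770551680), (nat_lit 7646570440), (nat_lit 7085807826)], (nat_lit 780000), (nat_lit 1598751), (nat_lit 780000), (nat_lit 1762501), (nat_lit 1271251), (nat_lit 1271251), [(nat_lit 1977501), (nat_lit 1271251), (nat_lit 1271251)], [(nat_lit 32), (nat_lit 67), (nat_lit 458), (nat_lit 225), (nat_lit 10)]⟩⟩) (.dle (nat_lit 0))) (.spl (nat_lit 1) (nat_lit 300) (.spl (nat_lit 6) (nat_lit 68) (.leaf ⟨(nat_lit 0), (nat_lit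 824), (nat_lit 0), (nat_lit 176), (nat_lit 0), (nat_lit 6163), (nat_lit 7094), (nat_lit 2015), (nat_lit 0), (nat_lit 0), (nat_lit 0), [], Pd.none, Pd.none, (nat_lit 0), (nat_lit 1), (nat_lit 0), (nat_lit 0), (nat_lit 5), (nat_lit 0), [], [], [⟨(nat_lit 1), (nat_lit 59), (nat_lit 90), (nat_lit 100), (nat_lit 261038607)⟩], [⟨(nat_lit 1), (nat_lit 77), (nat_lit 72), (nat_lit 100), (nat_lit 1545400)⟩],
 ⟨⟨[(nat_lit 40), (nat_lit 80), (nat_lit 120)], [(nat_lit 0), (nat_lit 593), (nat_lit 2634)], [((nat_lit 0), (nat_lit 0), (nat_lit 0)), ((nat_lit 1000), (nat_lit 861), (nat_lit 231)), ((nat_lit 1000), (nat_lit 748), (nat_lit 797))], ((nat_lit 74), (nat_lit 100), (nat_lit 76))⟩, (nat_lit 1032917), (nat_lit 175), (nat_lit 175), (nat_lit 0), (nat_lit 178456), [(nat_lit 2718892063), (nat_lit 4688000137), (nat_lit 7968000000)], [], [(nat_lit 26997905635), (nat_lit 27297597034), (nat_lit 33600330234), (nat_lit 33850798364), (nat_lit 27919604336), (nat_lit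 28188153181), (nat_lit 33444190766), (nat_lit 33650254792)], (nat_lit 1271251), (nat_lit 1271251), (nat_lit 1271251), (nat_lit 1271251), (nat_lit 780000), (nat_lit 1762501), [(nat_lit 490000), (nat_lit 1100000), (nat_lit 1785001)], [(nat_lit 4), (nat_lit 51), (nat_lit 272), (nat_lit 60), (nat_lit 8)]⟩,
 ⟨⟨[(nat_lit 60), (nat_lit 120), (nat_lit 160)], [(nat_lit 0), (nat_lit 0), (nat_lit 3243)], [((nat_lit 0), (nat_lit 0), (nat_lit 0)), ((nat_lit 0), (nat_lit 0), (nat_lit 0)), ((nat_lit 878), (nat_lit 1000), (nat_lit 945))], ((nat_lit 100), (nat_lit 99), (nat_lit 82))⟩, (nat_lit 1754307), (nat_lit 221), (nat_lit 221), (nat_lit 0), (nat_lit 239612), [(nat_lit 3282000000), (nat_lit 7968000000), (nat_lit 11872000000)], [], [(nat_lit 28143195884), (nat_lit 28968013375), (nat_lit 34224443725), (nat_lit 34726376564), (nat_lit 35099905245), (nat_lit 35581585471), (nat_lit 39279812744), (nat_lit 39570841120)], (nat_lit 1271251), (nat_lit 1271251), (nat_lit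 1271251), (nat_lit 1271251), (nat_lit 1271251), (nat_lit 1271251), [(nat_lit 780000), (nat_lit 1762501), (nat_lit 1271251)], [(nat_lit 12), (nat_lit 59), (nat_lit 538), (nat_lit 300), (nat_lit 13)]⟩,
 ⟨⟨[(nat_lit 140), (nat_lit 180), (nat_lit 200)], [(nat_lit 0), (nat_lit 0), (nat_lit 2835)], [((nat_lit 0), (nat_lit 0), (nat_lit 0)), ((nat_lit 0), (nat_lit 0), (nat_lit 0)), ((nat_lit 363), (nat_lit 1000), (nat_lit 798))], ((nat_lit 0), (nat_lit 0), (nat_lit 0))⟩, (nat_lit 48423), (nat_lit 300), (nat_lit 1070), (nat_lit 13745604), (nat_lit 1510230), [(nat_lit 1732192000), (nat_lit 2474208000), (nat_lit 2886400000)], [], [(nat_lit 11382941779), (nat_lit 10675044546), (nat_lit 10519714138), (nat_lit 9810231545), (nat_lit 10705009128), (nat_lit 9971478608), (nat_lit 9810417948), (nat_lit 9107470103)], (nat_lit 780000), (nat_lit 1598751), (nat_lit 780000), (nat_lit 1762501), (nat_lit 1271251), (nat_lit 1271251), [(nat_lit 1977501), (nat_lit 1271251),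 (nat_lit 1271251)], [(nat_lit 32), (nat_lit 67), (nat_lit 456), (nat_lit 225), (nat_lit 10)]⟩⟩) (.dle (nat_lit 0))) (.trX (nat_lit 5) (nat_lit 1) (nat_lit 2) (nat_lit 87) (nat_lit 41) (nat_lit 100) (nat_lit 390) (.leaf ⟨(nat_lit 0), (nat_lit 870), (nat_lit 0), (nat_lit 130), (nat_lit 1403), (nat_lit 7222), (nat_lit 6854), (nat_lit 1483), (nat_lit 0), (nat_lit 0), (nat_lit 0), [], Pd.none, Pd.none, (nat_lit 0), (nat_lit 1), (nat_lit 0), (nat_lit 0), (nat_lit 5), (nat_lit 0), [], [], [⟨(nat_lit 1), (nat_lit 68), (nat_lit 84), (nat_lit 100), (nat_lit 302395598)⟩], [],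
 ⟨⟨[(nat_lit 40), (nat_lit 100), (nat_lit 140)], [(nat_lit 0), (nat_lit 888), (nat_lit 3800)], [((nat_lit 0), (nat_lit 0), (nat_lit 0)), ((nat_lit 1000), (nat_lit 861), (nat_lit 231)), ((nat_lit 1000), (nat_lit 802), (nat_lit 990))], ((nat_lit 76), (nat_lit 100), (nat_lit 85))⟩, (nat_lit 964094), (nat_lit 238), (nat_lit 238), (nat_lit 0), (nat_lit 298679), [(nat_lit 2840117247), (nat_lit 6250000013), (nat_lit 9842000000)], [], [(nat_lit 29250444635), (nat_lit 29528643889), (nat_lit 35550791611), (nat_lit 35797013189), (nat_lit 29388764445), (nat_lit 29615150382), (nat_lit 34717303490), (nat_lit 34918131338)], (nat_lit 1271251), (nat_lit 1271251), (nat_lit 1271251), (nat_lit 1271251), (nat_lit 780000), (nat_lit 1762501), [(nat_lit 490000), (nat_lit 1427501), (nat_lit 1271251)], [(nat_lit 5), (nat_lit 55), (nat_lit 272), (nat_lit 60), (nat_lit 7)]⟩,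
 ⟨⟨[(nat_lit 60), (nat_lit 120), (nat_lit 160)], [(nat_lit 0), (nat_lit 913), (nat_lit 3885)], [((nat_lit 0), (nat_lit 0), (nat_lit 0)), ((nat_lit 1000), (nat_lit 905), (nat_lit 238)), ((nat_lit 886), (nat_lit 948), (nat_lit 1000))], ((nat_lit 96), (nat_lit 100), (nat_lit 92))⟩, (nat_lit 1715076), (nat_lit 257), (nat_lit 257), (nat_lit 0), (nat_lit 346338), [(nat_lit 3282000000), (nat_lit 7968000000), (nat_lit 11872000000)], [], [(nat_lit 30316987548), (nat_lit 30882138000), (nat_lit 34401400470), (nat_lit 34741144604), (nat_lit 34486348672), (nat_lit 34861030826), (nat_lit 38725350192), (nat_lit 39175215565)], (nat_lit 1271251), (nat_lit 1271251), (nat_lit 1271251), (nat_lit 1271251), (nat_lit 1271251), (nat_lit 1271251), [(nat_lit 780000), (nat_lit 1762501), (nat_lit 1271251)], [(nat_lit 12), (nat_lit 59), (nat_lit 538), (nat_lit 300), (nat_lit 13)]⟩,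
 ⟨⟨[(nat_lit 140), (nat_lit 180), (nat_lit 200)], [(nat_lit 0), (nat_lit 0), (nat_lit 2835)], [((nat_lit 0), (nat_lit 0), (nat_lit 0)), ((nat_lit 0), (nat_lit 0), (nat_lit 0)), ((nat_lit 363), (nat_lit 1000), (nat_lit 798))], ((nat_lit 0), (nat_lit 0), (nat_lit 0))⟩, (nat_lit 35767), (nat_lit 300), (nat_lit 1545), (nat_lit 10153003), (nat_lit 2542424), [(nat_lit 1279460000), (nat_lit 1827540000), (nat_lit 2132000000)], [], [(nat_lit 8436715695), (nat_lit 7916251783), (nat_lit 7802036082), (nat_lit 7280387247), (nat_lit 7936472890), (nat_lit 7400244450), (nat_lit 7281477368), (nat_lit 6744375488)], (nat_lit 780000), (nat_lit 1598751), (nat_lit 780000), (nat_lit 1762501), (nat_lit 1271251), (nat_lit 1271251), [(nat_lit 1977501), (nat_lit 1271251), (nat_lit 1271251)], [(nat_lit 32), (nat_lit 67), (nat_lit 493), (nat_lit 225), (nat_lit 10)]⟩⟩)))))))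
noncomputable def c11_105 : Tr Lf :=
 (.trZ (nat_lit 3) (nat_lit 4) (nat_lit 5) (nat_lit 100) (nat_lit 94) (nat_lit 59) (nat_lit 30) (.spl (nat_lit 1) (nat_lit 280) (.spl (nat_lit 6) (nat_lit 56) (.leaf ⟨(nat_lit 0), (nat_lit 713), (nat_lit 0), (nat_lit 287), (nat_lit 5092), (nat_lit 5307), (nat_lit 8376), (nat_lit 3304), (nat_lit 0), (nat_lit 0), (nat_lit 0), [], Pd.none, Pd.none, (nat_lit 0), (nat_lit 1), (nat_lit 0), (nat_lit 0), (nat_lit 6), (nat_lit 0), [], [⟨(nat_lit 1), (nat_lit 77), (nat_lit 77), (nat_lit 100), (nat_lit 229061979)⟩], [], [⟨(nat_lit 0), (nat_lit 85), (nat_lit 73), (nat_lit 100), (nat_lit 35713320)⟩],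
 ⟨⟨[(nat_lit 40), (nat_lit 80), (nat_lit 120)], [(nat_lit 0), (nat_lit 0), (nat_lit 2151)], [((nat_lit 0), (nat_lit 0), (nat_lit 0)), ((nat_lit 0), (nat_lit 0), (nat_lit 0)), ((nat_lit 1000), (nat_lit 815), (nat_lit 753))], ((nat_lit 81), (nat_lit 100), (nat_lit 70))⟩, (nat_lit 1803294), (nat_lit 124), (nat_lit 124), (nat_lit 0), (nat_lit 74932), [(nat_lit 2255224592), (nat_lit 4688000201), (nat_lit 7968000000)], [], [(nat_lit 26549580016), (nat_lit 27624223913), (nat_lit 31982372702), (nat_lit 32761235063), (nat_lit 31983832391), (nat_lit 32773444070), (nat_lit 36578008977), (nat_lit 37293780622)], (nat_lit 1271251), (nat_lit 1271251), (nat_lit 1271251), (nat_lit 1271251), (nat_lit 1271251), (nat_lit 1271251), [(nat_lit 490000), (nat_lit 1100000), (nat_lit 1785001)], [(nat_lit 4), (nat_lit 51), (nat_lit 203), (nat_lit 0), (nat_lit 5)]⟩,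
 ⟨⟨[(nat_lit 80), (nat_lit 120), (nat_lit 160)], [(nat_lit 0), (nat_lit 0), (nat_lit 2132)], [((nat_lit 0), (nat_lit 0), (nat_lit 0)), ((nat_lit 0), (nat_lit 0), (nat_lit 0)), ((nat_lit 858), (nat_lit 1000), (nat_lit 713))], ((nat_lit 100), (nat_lit 86), (nat_lit 71))⟩, (nat_lit 2624392), (nat_lit 266), (nat_lit 266), (nat_lit 0), (nat_lit 118043), [(nat_lit 4688000000), (nat_lit 7968000000), (nat_lit 11872000000)], [], [(nat_lit 32415020976), (nat_lit 33971257301), (nat_lit 39003932236), (nat_lit 40239217102), (nat_lit 34311640752), (nat_lit 34997715320), (nat_lit 40172309568), (nat_lit 41001606176)], (nat_lit 1271251), (nat_lit 1271251), (nat_lit 1271251), (nat_lit 1271251), (nat_lit 169688), (nat_lit 2886876), [(nat_lit 1100000), (nat_lit 1785001), (nat_lit 1271251)], [(nat_lit 18), (nat_lit 59), (nat_lit 538), (nat_lit 300), (nat_lit 13)]⟩,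
 ⟨⟨[(nat_lit 140), (nat_lit 180), (nat_lit 200)], [(nat_lit 0), (nat_lit 0), (nat_lit 2835)], [((nat_lit 0), (nat_lit 0), (nat_lit 0)), ((nat_lit 0), (nat_lit 0), (nat_lit 0)), ((nat_lit 363), (nat_lit 1000), (nat_lit 798))], ((nat_lit 0), (nat_lit 0), (nat_lit 0))⟩, (nat_lit 78963), (nat_lit 300), (nat_lit 712), (nat_lit 22414700), (nat_lit 629992), [(nat_lit 2824654000), (nat_lit 4034646000), (nat_lit 4706800000)], [], [(nat_lit 19174338005), (nat_lit 18167774067), (nat_lit 19247199398), (nat_lit 18090767903), (nat_lit 15944184872), (nat_lit 14789463185), (nat_lit 15563697548), (nat_lit 14386951334)], (nat_lit 780000), (nat_lit 1598751), (nat_lit 1271251), (nat_lit 1271251), (nat_lit 169688), (nat_lit 2886876), [(nat_lit 1977501), (nat_lit 1271251), (nat_lit 1271251)], [(nat_lit 32), (nat_lit 67), (nat_lit 483), (nat_lit 250), (nat_lit 10)]⟩⟩) (.dle (nat_lit 0))) (.stt (nat_lit 1) (.spl (nat_lit 2) (nat_lit 180) (.trX (nat_lit 4) (nat_lit 0)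 (nat_lit 2) (nat_lit 80) (nat_lit 68) (nat_lit 100) (nat_lit 350) (.trX (nat_lit 5) (nat_lit 1) (nat_lit 2) (nat_lit 92) (nat_lit 49) (nat_lit 100) (nat_lit 380) (.spl (nat_lit 1) (nat_lit 300) (.spl (nat_lit 6) (nat_lit 68) (.leaf ⟨(nat_lit 0), (nat_lit 815), (nat_lit 0), (nat_lit 185), (nat_lit 0), (nat_lit 6586), (nat_lit 8000), (nat_lit 1989), (nat_lit 0), (nat_lit 0), (nat_lit 0), [], Pd.none, Pd.none, (nat_lit 0), (nat_lit 1), (nat_lit 0), (nat_lit 0), (nat_lit 6), (nat_lit 0), [], [⟨(nat_lit 1), (nat_lit 85), (nat_lit 78), (nat_lit 100), (nat_lit 329419255)⟩], [⟨(nat_lit 1), (nat_lit 68), (nat_lit 92), (nat_lit 100), (nat_lit 14385134)⟩], [],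
 ⟨⟨[(nat_lit 40), (nat_lit 100), (nat_lit 140)], [(nat_lit 0), (nat_lit 0), (nat_lit 3243)], [((nat_lit 0), (nat_lit 0), (nat_lit 0)), ((nat_lit 0), (nat_lit 0), (nat_lit 0)), ((nat_lit 1000), (nat_lit 870), (nat_lit 941))], ((nat_lit 82), (nat_lit 100), (nat_lit 77))⟩, (nat_lit 0), (nat_lit 88), (nat_lit 88), (nat_lit 0), (nat_lit 0), [(nat_lit 2773280403), (nat_lit 6250000038), (nat_lit 9842000000)], [], [(nat_lit 26740692938), (nat_lit 28039418492), (nat_lit 33239524990), (nat_lit 34156534694), (nat_lit 31568533186), (nat_lit 32550312713), (nat_lit 36937941479), (nat_lit 37787174923)], (nat_lit 0), (nat_lit 0), (nat_lit 0), (nat_lit 0), (nat_lit 0), (nat_lit 0), [], [(nat_lit 5), (nat_lit 55), (nat_lit 317), (nat_lit 100), (nat_lit 8)]⟩,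
 ⟨⟨[(nat_lit 60), (nat_lit 120), (nat_lit 160)], [(nat_lit 0), (nat_lit 0), (nat_lit 3243)], [((nat_lit 0), (nat_lit 0), (nat_lit 0)), ((nat_lit 0), (nat_lit 0), (nat_lit 0)), ((nat_lit 878), (nat_lit 1000), (nat_lit 945))], ((nat_lit 100), (nat_lit 99), (nat_lit 82))⟩, (nat_lit 1399812), (nat_lit 343), (nat_lit 343), (nat_lit 0), (nat_lit 236285), [(nat_lit 3282000000), (nat_lit 7968000000), (nat_lit 11872000000)], [], [(nat_lit 35401144184), (nat_lit 36166402559), (nat_lit 41193940434), (nat_lit 41638464059), (nat_lit 35471154184), (nat_lit 35742817434), (nat_lit 39320669500), (nat_lit 39797829250)], (nat_lit 1271251), (nat_lit 1271251), (nat_lit 1271251), (nat_lit 1271251), (nat_lit 169688), (nat_lit 2740000), [(nat_lit 780000), (nat_lit 1762501), (nat_lit 1271251)], [(nat_lit 12), (nat_lit 59), (nat_lit 538), (nat_lit 300), (nat_lit 13)]⟩,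
 ⟨⟨[(nat_lit 140), (nat_lit 180), (nat_lit 200)], [(nat_lit 0), (nat_lit 0), (nat_lit 2835)], [((nat_lit 0), (nat_lit 0), (nat_lit 0)), ((nat_lit 0), (nat_lit 0), (nat_lit 0)), ((nat_lit 363), (nat_lit 1000), (nat_lit 798))], ((nat_lit 0), (nat_lit 0), (nat_lit 0))⟩, (nat_lit 50899), (nat_lit 300), (nat_lit 1113), (nat_lit 14448507), (nat_lit 1510230), [(nat_lit 1820770000), (nat_lit 2600730000), (nat_lit 3034000000)], [], [(nat_lit 13419835364), (nat_lit 12967614808), (nat_lit 13029428668), (nat_lit 12565452024), (nat_lit 11082127814), (nat_lit 12742944001), (nat_lit 10612777355), (nat_lit 10151759086)], (nat_lit 780000), (nat_lit 1271251), (nat_lit 1271251), (nat_lit 1271251), (nat_lit 169688), (nat_lit 2740000), [(nat_lit 1977501), (nat_lit 1271251), (nat_lit 1271251)], [(nat_lit 32), (nat_lit 67), (nat_lit 483), (nat_lit 250), (nat_lit 10)]⟩⟩) (.dle (nat_lit 0))) (.trX (nat_lit 5) (nat_lit 1) (nat_lit 2) (nat_lit 87) (nat_lit 59) (nat_lit 100)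 (nat_lit 370) (.leaf ⟨(nat_lit 0), (nat_lit 899), (nat_lit 0), (nat_lit 101), (nat_lit 4414), (nat_lit 6586), (nat_lit 6850), (nat_lit 1102), (nat_lit 0), (nat_lit 0), (nat_lit 0), [], Pd.none, Pd.none, (nat_lit 0), (nat_lit 1), (nat_lit 0), (nat_lit 0), (nat_lit 6), (nat_lit 0), [], [⟨(nat_lit 1), (nat_lit 85), (nat_lit 78), (nat_lit 100), (nat_lit 368894287)⟩], [⟨(nat_lit 1), (nat_lit 77), (nat_lit 86), (nat_lit 100), (nat_lit 103997280)⟩], [],
 ⟨⟨[(nat_lit 40), (nat_lit 100), (nat_lit 140)], [(nat_lit 0), (nat_lit 0), (nat_lit 3243)], [((nat_lit 0), (nat_lit 0), (nat_lit 0)), ((nat_lit 0), (nat_lit 0), (nat_lit 0)), ((nat_lit 1000), (nat_lit 870), (nat_lit 941))], ((nat_lit 85), (nat_lit 100), (nat_lit 88))⟩, (nat_lit 0), (nat_lit 88), (nat_lit 88), (nat_lit 0), (nat_lit 0), [(nat_lit 2709529942), (nat_lit 6250000121), (nat_lit 9842000000)], [], [(nat_lit 26740693021), (nat_lit 28039418575), (nat_lit 33239525073), (nat_lit 34156534694), (nat_lit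 31568533269), (nat_lit 32550312796), (nat_lit 36937941479), (nat_lit 37787174923)], (nat_lit 0), (nat_lit 0), (nat_lit 0), (nat_lit 0), (nat_lit 0), (nat_lit 0), [], [(nat_lit 5), (nat_lit 55), (nat_lit 317), (nat_lit 100), (nat_lit 8)]⟩,
 ⟨⟨[(nat_lit 60), (nat_lit 120), (nat_lit 160)], [(nat_lit 0), (nat_lit 913), (nat_lit 3885)], [((nat_lit 0), (nat_lit 0), (nat_lit 0)), ((nat_lit 1000), (nat_lit 905), (nat_lit 238)), ((nat_lit 886), (nat_lit 948), (nat_lit 1000))], ((nat_lit 96), (nat_lit 100), (nat_lit 92))⟩, (nat_lit 1725288), (nat_lit 378), (nat_lit 378), (nat_lit 0), (nat_lit 342898), [(nat_lit 3282000000), (nat_lit 7968000000), (nat_lit 11872000000)], [], [(nat_lit 33533448598), (nat_lit 34259375176), (nat_lit 38648802883), (nat_lit 39137653170), (nat_lit 33808477292), (nat_lit 34114385250), (nat_lit 37719964738), (nat_lit 38222910325)], (nat_lit 1271251), (nat_lit 1271251), (nat_lit 1271251), (nat_lit 1271251), (nat_lit 169688), (nat_lit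 2666563), [(nat_lit 780000), (nat_lit 1762501), (nat_lit 1271251)], [(nat_lit 12), (nat_lit 59), (nat_lit 538), (nat_lit 300), (nat_lit 13)]⟩,
 ⟨⟨[(nat_lit 140), (nat_lit 180), (nat_lit 200)], [(nat_lit 0), (nat_lit 0), (nat_lit 2835)], [((nat_lit 0), (nat_lit 0), (nat_lit 0)), ((nat_lit 0), (nat_lit 0), (nat_lit 0)), ((nat_lit 363), (nat_lit 1000), (nat_lit 798))], ((nat_lit 0), (nat_lit 0), (nat_lit 0))⟩, (nat_lit 27788), (nat_lit 300), (nat_lit 1581), (nat_lit 7888106), (nat_lit 2542424), [(nat_lit 994042000), (nat_lit 1419858000), (nat_lit 1656400000)], [], [(nat_lit 7317498948), (nat_lit 7069785630), (nat_lit 7027889663), (nat_lit 6775668150), (nat_lit 6015281443), (nat_lit 6862041794), (nat_lit 5709408573), (nat_lit 5465455653)], (nat_lit 780000), (nat_lit 1271251), (nat_lit 1271251), (nat_lit 1271251), (nat_lit 169688), (nat_lit 2666563), [(nat_lit 1977501), (nat_lit 1271251), (nat_lit 1271251)], [(nat_lit 32), (nat_lit 67), (nat_lit 508),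 (nat_lit 225), (nat_lit 11)]⟩⟩))))) (.spl (nat_lit 6) (nat_lit 64) (.leaf ⟨(nat_lit 0), (nat_lit 499), (nat_lit 0), (nat_lit 501), (nat_lit 0), (nat_lit 8109), (nat_lit 6862), (nat_lit 3795), (nat_lit 0), (nat_lit 0), (nat_lit 0), [], Pd.none, Pd.none, (nat_lit 0), (nat_lit 1), (nat_lit 0), (nat_lit 0), (nat_lit 6), (nat_lit 0), [], [], [], [⟨(nat_lit 0), (nat_lit 85), (nat_lit 73), (nat_lit 100), (nat_lit 157193422)⟩],
 ⟨⟨[(nat_lit 40), (nat_lit 80), (nat_lit 120)], [(nat_lit 0), (nat_lit 0), (nat_lit 2151)], [((nat_lit 0), (nat_lit 0), (nat_lit 0)), ((nat_lit 0), (nat_lit 0), (nat_lit 0)), ((nat_lit 1000), (nat_lit 815), (nat_lit 753))], ((nat_lit 81), (nat_lit 100), (nat_lit 75))⟩, (nat_lit 0), (nat_lit 85), (nat_lit 85), (nat_lit 0), (nat_lit 0), [(nat_lit 3200535758), (nat_lit 6764570697), (nat_lit 7968000000)], [], [(nat_lit 28211046670), (nat_lit 29557903466), (nat_lit 34831601552), (nat_lit 35980295211), (nat_lit 34638958295), (nat_lit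 35758680124), (nat_lit 40424625399), (nat_lit 41254536514)], (nat_lit 0), (nat_lit 0), (nat_lit 0), (nat_lit 0), (nat_lit 0), (nat_lit 0), [], [(nat_lit 4), (nat_lit 51), (nat_lit 203), (nat_lit 0), (nat_lit 5)]⟩,
 ⟨⟨[(nat_lit 60), (nat_lit 100), (nat_lit 140)], [(nat_lit 0), (nat_lit 0), (nat_lit 2047)], [((nat_lit 0), (nat_lit 0), (nat_lit 0)), ((nat_lit 0), (nat_lit 0), (nat_lit 0)), ((nat_lit 1000), (nat_lit 993), (nat_lit 781))], ((nat_lit 100), (nat_lit 100), (nat_lit 80))⟩, (nat_lit 2702506), (nat_lit 282), (nat_lit 282), (nat_lit 0), (nat_lit 179239), [(nat_lit 3282000000), (nat_lit 6250000000), (nat_lit 9842000000)], [], [(nat_lit 29365197562), (nat_lit 30844160118), (nat_lit 35903551240), (nat_lit 38127344145), (nat_lit 33700001322), (nat_lit 34598744448), (nat_lit 38813609712), (nat_lit 39660153808)], (nat_lit 1271251), (nat_lit 1271251), (nat_lit 1271251), (nat_lit 1271251), (nat_lit 169688), (nat_lit 2886876), [(nat_lit 780000), (nat_lit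 1435001), (nat_lit 1271251)], [(nat_lit 11), (nat_lit 55), (nat_lit 317), (nat_lit 100), (nat_lit 8)]⟩,
 ⟨⟨[(nat_lit 120), (nat_lit 160), (nat_lit 180)], [(nat_lit 0), (nat_lit 533), (nat_lit 2066)], [((nat_lit 0), (nat_lit 0), (nat_lit 0)), ((nat_lit 960), (nat_lit 1000), (nat_lit 200)), ((nat_lit 615), (nat_lit 1000), (nat_lit 729))], ((nat_lit 100), (nat_lit 61), (nat_lit 74))⟩, (nat_lit 1173073), (nat_lit 300), (nat_lit 582), (nat_lit 33266401), (nat_lit 564244), [(nat_lit 3991968000), (nat_lit 5947872000), (nat_lit 7043058000)], [], [(nat_lit 29111822938), (nat_lit 28956317174), (nat_lit 29945040211), (nat_lit 29682235675), (nat_lit 28251248535), (nat_lit 26769888140), (nat_lit 27079310942), (nat_lit 26716834472)], (nat_lit 1271251), (nat_lit 1271251), (nat_lit 1271251), (nat_lit 1271251), (nat_lit 169688), (nat_lit 2886876), [(nat_lit 1695001), (nat_lit 1271251), (nat_lit 1271251)], [(nat_lit 28), (nat_lit 65), (nat_lit 483), (nat_lit 250),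 (nat_lit 11)]⟩⟩) (.dle (nat_lit 0)))) (.spl (nat_lit 0) (nat_lit 330) (.spl (nat_lit 6) (nat_lit 76) (.leaf ⟨(nat_lit 0), (nat_lit 751), (nat_lit 0), (nat_lit 249), (nat_lit 0), (nat_lit 7628), (nat_lit 7844), (nat_lit 2787), (nat_lit 0), (nat_lit 0), (nat_lit 0), [], Pd.none, Pd.none, (nat_lit 0), (nat_lit 1), (nat_lit 0), (nat_lit 0), (nat_lit 6), (nat_lit 0), [], [⟨(nat_lit 1), (nat_lit 74), (nat_lit 79), (nat_lit 100), (nat_lit 291865106)⟩], [], [],
 ⟨⟨[(nat_lit 40), (nat_lit 100), (nat_lit 140)], [(nat_lit 0), (nat_lit 0), (nat_lit 3243)], [((nat_lit 0), (nat_lit 0), (nat_lit 0)), ((nat_lit 0), (nat_lit 0), (nat_lit 0)), ((nat_lit 1000), (nat_lit 870), (nat_lit 941))], ((nat_lit 83), (nat_lit 100), (nat_lit 81))⟩, (nat_lit 866780), (nat_lit 187), (nat_lit 187), (nat_lit 0), (nat_lit 241718), [(nat_lit 3143802077), (nat_lit 6250000005), (nat_lit 9842000000)], [], [(nat_lit 29643835921), (nat_lit 30107328652), (nat_lit 34813017564), (nat_lit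 35222298810), (nat_lit 34624434270), (nat_lit 35022577457), (nat_lit 39764303308), (nat_lit 40169462098)], (nat_lit 1271251), (nat_lit 1271251), (nat_lit 1271251), (nat_lit 1271251), (nat_lit 1271251), (nat_lit 1271251), [(nat_lit 490000), (nat_lit 1427501), (nat_lit 1271251)], [(nat_lit 5), (nat_lit 55), (nat_lit 317), (nat_lit 100), (nat_lit 8)]⟩,
 ⟨⟨[(nat_lit 60), (nat_lit 120), (nat_lit 160)], [(nat_lit 0), (nat_lit 0), (nat_lit 3243)], [((nat_lit 0), (nat_lit 0), (nat_lit 0)), ((nat_lit 0), (nat_lit 0), (nat_lit 0)), ((nat_lit 878), (nat_lit 1000), (nat_lit 945))], ((nat_lit 100), (nat_lit 96), (nat_lit 86))⟩, (nat_lit 1752015), (nat_lit 279), (nat_lit 279), (nat_lit 0), (nat_lit 159307), [(nat_lit 3282000000), (nat_lit 7968000000), (nat_lit 11872000000)], [], [(nat_lit 34414233523), (nat_lit 35934079385), (nat_lit 40153383888), (nat_lit 41042276620), (nat_lit 35924821080), (nat_lit 36619371472), (nat_lit 40232772544), (nat_lit 41068129696)],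 (nat_lit 1271251), (nat_lit 1271251), (nat_lit 1271251), (nat_lit 1271251), (nat_lit 169688), (nat_lit 2886876), [(nat_lit 780000), (nat_lit 1762501), (nat_lit 1271251)], [(nat_lit 12), (nat_lit 59), (nat_lit 538), (nat_lit 300), (nat_lit 13)]⟩,
 ⟨⟨[(nat_lit 140), (nat_lit 180), (nat_lit 200)], [(nat_lit 0), (nat_lit 0), (nat_lit 2835)], [((nat_lit 0), (nat_lit 0), (nat_lit 0)), ((nat_lit 0), (nat_lit 0), (nat_lit 0)), ((nat_lit 363), (nat_lit 1000), (nat_lit 798))], ((nat_lit 0), (nat_lit 0), (nat_lit 0))⟩, (nat_lit 68508), (nat_lit 300), (nat_lit 943), (nat_lit 19446900), (nat_lit 1135371), [(nat_lit 2450658000), (nat_lit 3500442000), (nat_lit 4083600000)], [], [(nat_lit 17350367840), (nat_lit 16398381620), (nat_lit 16959111192), (nat_lit 15935490778), (nat_lit 14180777160), (nat_lit 13171797234), (nat_lit 13674866088), (nat_lit 12637804293)], (nat_lit 780000), (nat_lit 1598751), (nat_lit 1271251), (nat_lit 1271251), (nat_lit 169688), (nat_lit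 2886876), [(nat_lit 1977501), (nat_lit 1271251), (nat_lit 1271251)], [(nat_lit 32), (nat_lit 67), (nat_lit 483), (nat_lit 250), (nat_lit 10)]⟩⟩) (.dle (nat_lit 0))) (.trX (nat_lit 4) (nat_lit 0) (nat_lit 2) (nat_lit 76) (nat_lit 57) (nat_lit 100) (nat_lit 370) (.leaf ⟨(nat_lit 0), (nat_lit 771), (nat_lit 0), (nat_lit 229), (nat_lit 0), (nat_lit 6927), (nat_lit 7863), (nat_lit 2532), (nat_lit 0), (nat_lit 0), (nat_lit 0), [], Pd.none, Pd.none, (nat_lit 0), (nat_lit 1), (nat_lit 0), (nat_lit 0), (nat_lit 6), (nat_lit 0), [], [⟨(nat_lit 1), (nat_lit 79), (nat_lit 75), (nat_lit 100), (nat_lit 315258689)⟩], [], [],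
 ⟨⟨[(nat_lit 40), (nat_lit 100), (nat_lit 140)], [(nat_lit 0), (nat_lit 592), (nat_lit 3606)], [((nat_lit 0), (nat_lit 0), (nat_lit 0)), ((nat_lit 1000), (nat_lit 908), (nat_lit 154)), ((nat_lit 1000), (nat_lit 825), (nat_lit 971))], ((nat_lit 79), (nat_lit 100), (nat_lit 86))⟩, (nat_lit 1210167), (nat_lit 206), (nat_lit 206), (nat_lit 0), (nat_lit 299785), [(nat_lit 2846455454), (nat_lit 6250000012), (nat_lit 9842000000)], [], [(nat_lit 29157596636), (nat_lit 29600815921), (nat_lit 33982063783), (nat_lit 34564875033), (nat_lit 33327063875), (nat_lit 33783688434), (nat_lit 38731285870), (nat_lit 39136302428)], (nat_lit 1271251), (nat_lit 1271251), (nat_lit 1271251), (nat_lit 1271251), (nat_lit 1271251), (nat_lit 1271251), [(nat_lit 490000), (nat_lit 1427501), (nat_lit 1271251)], [(nat_lit 5), (nat_lit 55), (nat_lit 317), (nat_lit 100), (nat_lit 8)]⟩,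
 ⟨⟨[(nat_lit 60), (nat_lit 120), (nat_lit 160)], [(nat_lit 0), (nat_lit 0), (nat_lit 3243)], [((nat_lit 0), (nat_lit 0), (nat_lit 0)), ((nat_lit 0), (nat_lit 0), (nat_lit 0)), ((nat_lit 878), (nat_lit 1000), (nat_lit 945))], ((nat_lit 100), (nat_lit 92), (nat_lit 90))⟩, (nat_lit 1398937), (nat_lit 333), (nat_lit 333), (nat_lit 0), (nat_lit 207130), [(nat_lit 3282000000), (nat_lit 7968000000), (nat_lit 11872000000)], [], [(nat_lit 35540352723), (nat_lit 37061498244), (nat_lit 41286036882), (nat_lit 42174947714), (nat_lit 36426929504), (nat_lit 36900653855), (nat_lit 40260230888), (nat_lit 41095371592)], (nat_lit 1271251), (nat_lit 1271251), (nat_lit 1271251), (nat_lit 1271251), (nat_lit 169688), (nat_lit 2886876), [(nat_lit 780000), (nat_lit 1762501), (nat_lit 1271251)], [(nat_lit 12), (nat_lit 59), (nat_lit 538), (nat_lit 300), (nat_lit 13)]⟩,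
 ⟨⟨[(nat_lit 140), (nat_lit 180), (nat_lit 200)], [(nat_lit 0), (nat_lit 0), (nat_lit 2835)], [((nat_lit 0), (nat_lit 0), (nat_lit 0)), ((nat_lit 0), (nat_lit 0), (nat_lit 0)), ((nat_lit 363), (nat_lit 1000), (nat_lit 798))], ((nat_lit 0), (nat_lit 0), (nat_lit 0))⟩, (nat_lit 63005), (nat_lit 300), (nat_lit 1106), (nat_lit 17884905), (nat_lit 1494229), [(nat_lit 2253818000), (nat_lit 3219282000), (nat_lit 3755600000)], [], [(nat_lit 16263667494), (nat_lit 15359965699), (nat_lit 15715377559), (nat_lit 14794416456), (nat_lit 13193731368), (nat_lit 12276308624), (nat_lit 12687172196), (nat_lit 11754074276)], (nat_lit 780000), (nat_lit 1598751), (nat_lit 1271251), (nat_lit 1271251), (nat_lit 169688), (nat_lit 2886876), [(nat_lit 1977501), (nat_lit 1271251), (nat_lit 1271251)], [(nat_lit 32), (nat_lit 67), (nat_lit 483), (nat_lit 250), (nat_lit 10)]⟩⟩))))))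
noncomputable def c11_106 : Tr Lf :=
 (.spl (nat_lit 1) (nat_lit 280) (.ord (.spl (nat_lit 6) (nat_lit 52) (.leaf ⟨(nat_lit 0), (nat_lit 0), (nat_lit 0), (nat_lit 1000), (nat_lit 47238), (nat_lit 5341), (nat_lit 8118), (nat_lit 5254), (nat_lit 0), (nat_lit 412569), (nat_lit 0), [], Pd.none, Pd.none, (nat_lit 0), (nat_lit 1), (nat_lit 0), (nat_lit 0), (nat_lit 0), (nat_lit 0), [], [], [⟨(nat_lit 0), (nat_lit 100), (nat_lit 99), (nat_lit 55), (nat_lit 398995761)⟩], [],
 ⟨⟨[(nat_lit 40), (nat_lit 80), (nat_lit 120)], [(nat_lit 0), (nat_lit 0), (nat_lit 2151)], [((nat_lit 0), (nat_lit 0), (nat_lit 0)), ((nat_lit 0), (nat_lit 0), (nat_lit 0)), ((nat_lit 1000), (nat_lit 815), (nat_lit 753))], ((nat_lit 80), (nat_lit 100), (nat_lit 68))⟩, (nat_lit 2397743), (nat_lit 146), (nat_lit 146), (nat_lit 0), (nat_lit 71747), [(nat_lit 2319442113), (nat_lit 4688000534), (nat_lit 7968000000)], [], [(nat_lit 23743974425), (nat_lit 25054327574), (nat_lit 31255636710),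 (nat_lit 32333740125), (nat_lit 32926297686), (nat_lit 33790495152), (nat_lit 37479368344), (nat_lit 38150682593)], (nat_lit 1271251), (nat_lit 1271251), (nat_lit 1271251), (nat_lit 1271251), (nat_lit 780000), (nat_lit 3072501), [(nat_lit 490000), (nat_lit 1100000), (nat_lit 1785001)], [(nat_lit 4), (nat_lit 51), (nat_lit 317), (nat_lit 100), (nat_lit 9)]⟩,
 ⟨⟨[(nat_lit 80), (nat_lit 120), (nat_lit 160)], [(nat_lit 0), (nat_lit 0), (nat_lit 2132)], [((nat_lit 0), (nat_lit 0), (nat_lit 0)), ((nat_lit 0), (nat_lit 0), (nat_lit 0)), ((nat_lit 858), (nat_lit 1000), (nat_lit 713))], ((nat_lit 100), (nat_lit 88), (nat_lit 69))⟩, (nat_lit 3242135), (nat_lit 327), (nat_lit 327), (nat_lit 0), (nat_lit 111044), [(nat_lit 4688000000), (nat_lit 7968000000), (nat_lit 11872000000)], [], [(nat_lit 33163692520), (nat_lit 34734148608), (nat_lit 40329403504), (nat_lit 41563388972), (nat_lit 34757141736), (nat_lit 35447326760), (nat_lit 39796515024), (nat_lit 40628750768)],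 (nat_lit 1271251), (nat_lit 1271251), (nat_lit 1271251), (nat_lit 1271251), (nat_lit 0), (nat_lit 2825001), [(nat_lit 1100000), (nat_lit 1785001), (nat_lit 1271251)], [(nat_lit 18), (nat_lit 59), (nat_lit 538), (nat_lit 300), (nat_lit 13)]⟩,
 ⟨⟨[(nat_lit 100), (nat_lit 140), (nat_lit 160)], [(nat_lit 0), (nat_lit 508), (nat_lit 1689)], [((nat_lit 0), (nat_lit 0), (nat_lit 0)), ((nat_lit 1000), (nat_lit 1000), (nat_lit 198)), ((nat_lit 811), (nat_lit 1000), (nat_lit 671))], ((nat_lit 100), (nat_lit 81), (nat_lit 68))⟩, (nat_lit 562959), (nat_lit 300), (nat_lit 334), (nat_lit 68257265), (nat_lit 113702), [(nat_lit 6250000000), (nat_lit 9842000000), (nat_lit 11872000000)], [], [(nat_lit 45166170802), (nat_lit 47044417442), (nat_lit 52075943797), (nat_lit 52843951476), (nat_lit 53924565132), (nat_lit 49299907265), (nat_lit 50970013040), (nat_lit 51113788427)], (nat_lit 1271251), (nat_lit 1271251), (nat_lit 1271251), (nat_lit 1271251), (nat_lit 0),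 (nat_lit 2825001), [(nat_lit 1412501), (nat_lit 1271251), (nat_lit 1271251)], [(nat_lit 23), (nat_lit 62), (nat_lit 538), (nat_lit 300), (nat_lit 14)]⟩⟩) (.dle (nat_lit 0)))) (.trZ (nat_lit 1) (nat_lit 2) (nat_lit 5) (nat_lit 100) (nat_lit 92) (nat_lit 49) (nat_lit 20) (.leaf ⟨(nat_lit 0), (nat_lit 399), (nat_lit 0), (nat_lit 601), (nat_lit 1816), (nat_lit 8231), (nat_lit 8273), (nat_lit 7791), (nat_lit 0), (nat_lit 80581), (nat_lit 0), [], Pd.none, Pd.none, (nat_lit 0), (nat_lit 1), (nat_lit 0), (nat_lit 0), (nat_lit 5), (nat_lit 0), [], [], [⟨(nat_lit 0), (nat_lit 100), (nat_lit 92), (nat_lit 82), (nat_lit 58107423)⟩], [],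
 ⟨⟨[(nat_lit 40), (nat_lit 100), (nat_lit 140)], [(nat_lit 0), (nat_lit 0), (nat_lit 3243)], [((nat_lit 0), (nat_lit 0), (nat_lit 0)), ((nat_lit 0), (nat_lit 0), (nat_lit 0)), ((nat_lit 1000), (nat_lit 870), (nat_lit 941))], ((nat_lit 85), (nat_lit 100), (nat_lit 88))⟩, (nat_lit 793722), (nat_lit 290), (nat_lit 290), (nat_lit 0), (nat_lit 368082), [(nat_lit 3003654044), (nat_lit 6250000052), (nat_lit 9842000000)], [], [(nat_lit 28722465592), (nat_lit 29917297335), (nat_lit 35932577552), (nat_lit 36999663087), (nat_lit 36173784424), (nat_lit 37328352232), (nat_lit 41623004104), (nat_lit 42392546563)], (nat_lit 1271251), (nat_lit 1271251), (nat_lit 1271251), (nat_lit 1271251), (nat_lit 780000), (nat_lit 3072501), [(nat_lit 490000), (nat_lit 1427501), (nat_lit 1271251)], [(nat_lit 5), (nat_lit 55), (nat_lit 317), (nat_lit 100), (nat_lit 8)]⟩,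
 ⟨⟨[(nat_lit 60), (nat_lit 120), (nat_lit 160)], [(nat_lit 0), (nat_lit 0), (nat_lit 3243)], [((nat_lit 0), (nat_lit 0), (nat_lit 0)), ((nat_lit 0), (nat_lit 0), (nat_lit 0)), ((nat_lit 878), (nat_lit 1000), (nat_lit 945))], ((nat_lit 100), (nat_lit 92), (nat_lit 90))⟩, (nat_lit 1666734), (nat_lit 416), (nat_lit 416), (nat_lit 0), (nat_lit 427814), [(nat_lit 3282000000), (nat_lit 7968000000), (nat_lit 11872000000)], [], [(nat_lit 37002896466), (nat_lit 38038858208), (nat_lit 41307756105), (nat_lit 42481779321), (nat_lit 36052474060), (nat_lit 36441250920), (nat_lit 40852753048), (nat_lit 41683223032)], (nat_lit 1271251), (nat_lit 1271251), (nat_lit 1271251), (nat_lit 1271251), (nat_lit 111251), (nat_lit 2866250), [(nat_lit 780000), (nat_lit 1762501), (nat_lit 1271251)], [(nat_lit 12), (nat_lit 59), (nat_lit 538), (nat_lit 300), (nat_lit 13)]⟩,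
 ⟨⟨[(nat_lit 100), (nat_lit 140), (nat_lit 180)], [(nat_lit 0), (nat_lit 508), (nat_lit 2854)], [((nat_lit 0), (nat_lit 0), (nat_lit 0)), ((nat_lit 1000), (nat_lit 1000), (nat_lit 198)), ((nat_lit 777), (nat_lit 1000), (nat_lit 712))], ((nat_lit 100), (nat_lit 64), (nat_lit 83))⟩, (nat_lit 383398), (nat_lit 300), (nat_lit 588), (nat_lit 40859113), (nat_lit 485777), [(nat_lit 3756250000), (nat_lit 5915042000), (nat_lit 8448858000)], [], [(nat_lit 31075616564), (nat_lit 31119699606), (nat_lit 31867266647), (nat_lit 33140258925), (nat_lit 43118650970), (nat_lit 26960944036), (nat_lit 28368715785), (nat_lit 29093349472)], (nat_lit 1271251), (nat_lit 1271251), (nat_lit 1271251), (nat_lit 1271251), (nat_lit 111251), (nat_lit 2866250), [(nat_lit 1412501), (nat_lit 1271251), (nat_lit 1271251)], [(nat_lit 24), (nat_lit 63), (nat_lit 538), (nat_lit 300), (nat_lit 12)]⟩⟩)))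
def l019 : List St := [⟨⟨(nat_lit 320), (nat_lit 340), (nat_lit 280), (nat_lit 320), (nat_lit 120), (nat_lit 180), (nat_lit 120), (nat_lit 280), (nat_lit 240), (nat_lit 350), (nat_lit 0), (nat_lit 120), (nat_lit 44), (nat_lit 88)⟩, (nat_lit 3), (nat_lit 3), (nat_lit 3), false, false, true⟩,
  ⟨⟨(nat_lit 320), (nat_lit 340), (nat_lit 280), (nat_lit 320), (nat_lit 120), (nat_lit 180), (nat_lit 120), (nat_lit 280), (nat_lit 240), (nat_lit 350), (nat_lit 120), (nat_lit 380), (nat_lit 44), (nat_lit 88)⟩, (nat_lit 0), (nat_lit 3), (nat_lit 3), false, false, false⟩,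
  ⟨⟨(nat_lit 320), (nat_lit 340), (nat_lit 280), (nat_lit 320), (nat_lit 120), (nat_lit 180), (nat_lit 120), (nat_lit 280), (nat_lit 240), (nat_lit 350), (nat_lit 120), (nat_lit 380), (nat_lit 44), (nat_lit 88)⟩, (nat_lit 1), (nat_lit 3), (nat_lit 3), false, false, false⟩,
  ⟨⟨(nat_lit 320), (nat_lit 340), (nat_lit 240), (nat_lit 320), (nat_lit 180), (nat_lit 220), (nat_lit 120), (nat_lit 280), (nat_lit 240), (nat_lit 380), (nat_lit 0), (nat_lit 400), (nat_lit 44), (nat_lit 88)⟩, (nat_lit 3), (nat_lit 3), (nat_lit 3), false, false, false⟩,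
  ⟨⟨(nat_lit 320), (nat_lit 340), (nat_lit 240), (nat_lit 320), (nat_lit 220), (nat_lit 320), (nat_lit 120), (nat_lit 280), (nat_lit 120), (nat_lit 400), (nat_lit 0), (nat_lit 400), (nat_lit 44), (nat_lit 88)⟩, (nat_lit 3), (nat_lit 3), (nat_lit 3), false, false, false⟩,
  ⟨⟨(nat_lit 320), (nat_lit 340), (nat_lit 240), (nat_lit 320), (nat_lit 120), (nat_lit 220), (nat_lit 280), (nat_lit 400), (nat_lit 120), (nat_lit 240), (nat_lit 0), (nat_lit 400), (nat_lit 44), (nat_lit 88)⟩, (nat_lit 3), (nat_lit 3), (nat_lit 3), false, false, false⟩,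
  ⟨⟨(nat_lit 320), (nat_lit 340), (nat_lit 240), (nat_lit 320), (nat_lit 120), (nat_lit 220), (nat_lit 280), (nat_lit 400), (nat_lit 240), (nat_lit 380), (nat_lit 0), (nat_lit 400), (nat_lit 44), (nat_lit 88)⟩, (nat_lit 3), (nat_lit 3), (nat_lit 3), false, false, false⟩,
  ⟨⟨(nat_lit 320), (nat_lit 340), (nat_lit 240), (nat_lit 320), (nat_lit 220), (nat_lit 320), (nat_lit 280), (nat_lit 400), (nat_lit 120), (nat_lit 400), (nat_lit 0), (nat_lit 400), (nat_lit 44), (nat_lit 88)⟩, (nat_lit 3), (nat_lit 3), (nat_lit 3), false, false, false⟩]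
theorem t019 (h : EC env Ei) : ∀ τ ∈ l019, Dead τ :=
  List.forall_mem_cons.mpr ⟨chkT_sound0 h (T := c11_99) (by decide +kernel),
  List.forall_mem_cons.mpr ⟨chkT_sound0 h (T := c11_100) (by decide +kernel),
  List.forall_mem_cons.mpr ⟨chkT_sound0 h (T := c11_101) (by decide +kernel),
  List.forall_mem_cons.mpr ⟨chkT_sound0 h (T := c11_102) (by decide +kernel),
  List.forall_mem_cons.mpr ⟨chkT_sound0 h (T := c11_103) (by decide +kernel),
  List.forall_mem_cons.mpr ⟨chkT_sound0 h (T := c11_104) (by decide +kernel),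
  List.forall_mem_cons.mpr ⟨chkT_sound0 h (T := c11_105) (by decide +kernel),
  List.forall_mem_cons.mpr ⟨chkT_sound0 h (T := c11_106) (by decide +kernel),
  List.forall_mem_nil _⟩⟩⟩⟩⟩⟩⟩⟩
end TC
end Pool.Agent.Lib.MP_6947cd_al
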