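import Pool.Agent.Lib.MP_6947cd_al.C.LeafF
import Pool.Agent.Lib.MP_6947cd_al.TC.E
import Pool.Agent.Lib.MP_6947cd_al.TC.F

/-!
Problem MP_6947cd_al (Chollet).  CASE C, tables and certificates.  Trees of leaves (part 20 of root 12).
-/

set_option autoImplicit false
set_option linter.all false
set_option maxRecDepth 100000
set_option maxHeartbeats 4000000
namespace Pool.Agent.Lib.MP_6947cd_al
namespace TC
open C1
noncomputable def c12_0 : Tr Lf :=
 (.spl (nat_lit 6) (nat_lit 28) (.spl (nat_lit 0) (nat_lit 330) (.ord (.leaf ⟨(nat_lit 59), (nat_lit 941), (nat_lit 0), (nat_lit 0), (nat_lit 0), (nat_lit 6820), (nat_lit 6755), (nat_lit 0), (nat_lit 2970340), (nat_lit 0), (nat_lit 236000), [((nat_lit 330), [((nat_lit 37), (nat_lit 5), (nat_lit 59))])], ⟨(nat_lit 8), false, true, false, (nat_lit 301), (nat_lit 4183), (nat_lit 4473), [(nat_lit 1527406), (nat_lit 1530591), (nat_lit 1538187), (nat_lit 1541422), (nat_lit 1969270), (nat_lit 1961259), (nat_lit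 1980052), (nat_lit 1972090)]⟩, ⟨(nat_lit 3), false, false, false, (nat_lit 98), (nat_lit 4183), (nat_lit 4473), [(nat_lit 1073842), (nat_lit 1082054), (nat_lit 1138540), (nat_lit 1147053), (nat_lit 1345754), (nat_lit 1347076), (nat_lit 1410454), (nat_lit 1412076)]⟩, (nat_lit 4441110), (nat_lit 39971439), (nat_lit 23116369), (nat_lit 3912192), (nat_lit 3), (nat_lit 0), [], [], [], [],
 ⟨⟨[(nat_lit 40), (nat_lit 80), (nat_lit 100)], [(nat_lit 0), (nat_lit 0), (nat_lit 1280)], [((nat_lit 0), (nat_lit 0), (nat_lit 0)), ((nat_lit 0), (nat_lit 0), (nat_lit 0)), ((nat_lit 1000), (nat_lit 800), (nat_lit 600))], ((nat_lit 80), (nat_lit 100), (nat_lit 51))⟩, (nat_lit 3874361), (nat_lit 300), (nat_lit 445), (nat_lit 51517346), (nat_lit 802218), [(nat_lit 2059821122), (nat_lit 4121387603), (nat_lit 5158569797)], [(nat_lit 0), (nat_lit 0), (nat_lit 0)], [(nat_lit 30540940759), (nat_lit 31063225483), (nat_lit 40354439520), (nat_lit 41122498820), (nat_lit 27424206768),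 (nat_lit 27859926494), (nat_lit 34662265211), (nat_lit 33220861621)], (nat_lit 1271251), (nat_lit 1271251), (nat_lit 936250), (nat_lit 3113751), (nat_lit 0), (nat_lit 1100000), [(nat_lit 490000), (nat_lit 1100000), (nat_lit 1442501)], [(nat_lit 3), (nat_lit 50), (nat_lit 373), (nat_lit 150), (nat_lit 14)]⟩,
 ⟨⟨[(nat_lit 40), (nat_lit 80), (nat_lit 100)], [(nat_lit 0), (nat_lit 0), (nat_lit 1280)], [((nat_lit 0), (nat_lit 0), (nat_lit 0)), ((nat_lit 0), (nat_lit 0), (nat_lit 0)), ((nat_lit 1000), (nat_lit 800), (nat_lit 600))], ((nat_lit 80), (nat_lit 100), (nat_lit 51))⟩, (nat_lit 3747994), (nat_lit 445), (nat_lit 445), (nat_lit 0), (nat_lit 802218), [(nat_lit 1912112000), (nat_lit 4411408000), (nat_lit 5881250000)], [], [(nat_lit 27302550250), (nat_lit 25569309287), (nat_lit 38917427760), (nat_lit 39661988239), (nat_lit 22110225621), (nat_lit 22618302917), (nat_lit 32869701472), (nat_lit 31630562465)], (nat_lit 1271251), (nat_lit 1271251), (nat_lit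 936250), (nat_lit 3113751), (nat_lit 0), (nat_lit 1100000), [(nat_lit 490000), (nat_lit 1100000), (nat_lit 1442501)], [(nat_lit 3), (nat_lit 50), (nat_lit 373), (nat_lit 150), (nat_lit 14)]⟩,
 Rw.none⟩)) (.trZ (nat_lit 0) (nat_lit 1) (nat_lit 3) (nat_lit 82) (nat_lit 78) (nat_lit 100) (nat_lit 150) (.leaf ⟨(nat_lit 0), (nat_lit 1000), (nat_lit 0), (nat_lit 0), (nat_lit 0), (nat_lit 6885), (nat_lit 6885), (nat_lit 0), (nat_lit 1060232741007), (nat_lit 0), (nat_lit 0), [], Pd.none, Pd.none, (nat_lit 0), (nat_lit 1), (nat_lit 0), (nat_lit 0), (nat_lit 3), (nat_lit 0), [], [], [], [],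
 ⟨⟨[(nat_lit 40), (nat_lit 80), (nat_lit 100)], [(nat_lit 0), (nat_lit 395), (nat_lit 1536)], [((nat_lit 0), (nat_lit 0), (nat_lit 0)), ((nat_lit 1000), (nat_lit 908), (nat_lit 154)), ((nat_lit 1000), (nat_lit 760), (nat_lit 642))], ((nat_lit 77), (nat_lit 100), (nat_lit 52))⟩, (nat_lit 4409072), (nat_lit 300), (nat_lit 477), (nat_lit 50800001), (nat_lit 898440), [(nat_lit 2032000002), (nat_lit 5243835230), (nat_lit 6250000000)], [], [(nat_lit 30763906867), (nat_lit 31243544215), (nat_lit 41308554885), (nat_lit 42080817410), (nat_lit 27550519192), (nat_lit 27950102007), (nat_lit 33227807155), (nat_lit 33902385570)], (nat_lit 1271251), (nat_lit 1271251), (nat_lit 1017188), (nat_lit 3134376), (nat_lit 0), (nat_lit 1100000), [(nat_lit 490000), (nat_lit 1100000), (nat_lit 1442501)], [(nat_lit 3), (nat_lit 50), (nat_lit 373), (nat_lit 150), (nat_lit 14)]⟩,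
 ⟨⟨[(nat_lit 40), (nat_lit 80), (nat_lit 100)], [(nat_lit 0), (nat_lit 0), (nat_lit 1280)], [((nat_lit 0), (nat_lit 0), (nat_lit 0)), ((nat_lit 0), (nat_lit 0), (nat_lit 0)), ((nat_lit 1000), (nat_lit 800), (nat_lit 600))], ((nat_lit 80), (nat_lit 100), (nat_lit 51))⟩, (nat_lit 4254400), (nat_lit 478), (nat_lit 478), (nat_lit 0), (nat_lit 901878), [(nat_lit 2032000000), (nat_lit 4688000000), (nat_lit 6250000000)], [], [(nat_lit 27272936425), (nat_lit 28525309304), (nat_lit 40536292360), (nat_lit 42080817410), (nat_lit 24736646505), (nat_lit 25777484375), (nat_lit 35673193660), (nat_lit 33902385570)], (nat_lit 1271251), (nat_lit 1271251), (nat_lit 1017188), (nat_lit 3134376), (nat_lit 0), (nat_lit 1100000), [(nat_lit 490000), (nat_lit 1100000), (nat_lit 1442501)], [(nat_lit 3), (nat_lit 50), (nat_lit 373), (nat_lit 150), (nat_lit 14)]⟩,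
 Rw.none⟩))) (.leaf ⟨(nat_lit 0), (nat_lit 1000), (nat_lit 0), (nat_lit 0), (nat_lit 0), (nat_lit 7333), (nat_lit 7125), (nat_lit 0), (nat_lit 420249), (nat_lit 0), (nat_lit 0), [], Pd.none, Pd.none, (nat_lit 0), (nat_lit 1), (nat_lit 0), (nat_lit 0), (nat_lit 3), (nat_lit 0), [], [], [], [],
 ⟨⟨[(nat_lit 40), (nat_lit 80), (nat_lit 120)], [(nat_lit 0), (nat_lit 0), (nat_lit 2151)], [((nat_lit 0), (nat_lit 0), (nat_lit 0)), ((nat_lit 0), (nat_lit 0), (nat_lit 0)), ((nat_lit 1000), (nat_lit 815), (nat_lit 753))], ((nat_lit 81), (nat_lit 100), (nat_lit 70))⟩, (nat_lit 2760581), (nat_lit 300), (nat_lit 406), (nat_lit 58600001), (nat_lit 575167), [(nat_lit 2032000008), (nat_lit 4688000004), (nat_lit 7968000000)], [], [(nat_lit 35739964368), (nat_lit 36836048631), (nat_lit 42088238468), (nat_lit 43392142978), (nat_lit 31546901202), (nat_lit 32462406369), (nat_lit 40802122341), (nat_lit 37702470574)], (nat_lit 1271251), (nat_lit 1271251), (nat_lit 936250),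 (nat_lit 3113751), (nat_lit 0), (nat_lit 1100000), [(nat_lit 490000), (nat_lit 1100000), (nat_lit 1785001)], [(nat_lit 4), (nat_lit 51), (nat_lit 373), (nat_lit 150), (nat_lit 12)]⟩,
 ⟨⟨[(nat_lit 40), (nat_lit 80), (nat_lit 120)], [(nat_lit 0), (nat_lit 0), (nat_lit 2151)], [((nat_lit 0), (nat_lit 0), (nat_lit 0)), ((nat_lit 0), (nat_lit 0), (nat_lit 0)), ((nat_lit 1000), (nat_lit 815), (nat_lit 753))], ((nat_lit 81), (nat_lit 100), (nat_lit 70))⟩, (nat_lit 2873832), (nat_lit 406), (nat_lit 406), (nat_lit 0), (nat_lit 575167), [(nat_lit 2032000000), (nat_lit 4688000000), (nat_lit 7968000000)], [], [(nat_lit 29017096750), (nat_lit 26052628344), (nat_lit 41207749000), (nat_lit 42783313250), (nat_lit 21733951750), (nat_lit 23030165657), (nat_lit 40600156868), (nat_lit 37588426493)], (nat_lit 1271251), (nat_lit 1271251), (nat_lit 936250), (nat_lit 3113751), (nat_lit 0), (nat_lit 1100000), [(nat_lit 490000), (nat_lit 1100000), (nat_lit 1785001)], [(nat_lit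 4), (nat_lit 51), (nat_lit 373), (nat_lit 150), (nat_lit 12)]⟩,
 Rw.none⟩))
noncomputable def c12_1 : Tr Lf :=
 (.spl (nat_lit 6) (nat_lit 16) (.stt (nat_lit 3) (.leaf ⟨(nat_lit 0), (nat_lit 446), (nat_lit 0), (nat_lit 554), (nat_lit 0), (nat_lit 6803), (nat_lit 6417), (nat_lit 12481), (nat_lit 17132702606601), (nat_lit 0), (nat_lit 0), [], Pd.none, Pd.none, (nat_lit 0), (nat_lit 1), (nat_lit 0), (nat_lit 0), (nat_lit 4), (nat_lit 0), [], [⟨(nat_lit 0), (nat_lit 100), (nat_lit 78), (nat_lit 45), (nat_lit 990226552)⟩, ⟨(nat_lit 0), (nat_lit 100), (nat_lit 87), (nat_lit 25), (nat_lit 7909299)⟩], [], [],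
 ⟨⟨[(nat_lit 40), (nat_lit 60), (nat_lit 80)], [(nat_lit 0), (nat_lit 0), (nat_lit 615)], [((nat_lit 0), (nat_lit 0), (nat_lit 0)), ((nat_lit 0), (nat_lit 0), (nat_lit 0)), ((nat_lit 1000), (nat_lit 819), (nat_lit 426))], ((nat_lit 82), (nat_lit 100), (nat_lit 40))⟩, (nat_lit 1521024), (nat_lit 300), (nat_lit 433), (nat_lit 54700001), (nat_lit 899588), [(nat_lit 2032000035), (nat_lit 3282000001), (nat_lit 4688000000)], [], [(nat_lit 26355429276), (nat_lit 27536061834), (nat_lit 40306878008), (nat_lit 41840797998), (nat_lit 23953367840), (nat_lit 24934632198), (nat_lit 37484066525), (nat_lit 34608445228)], (nat_lit 1271251), (nat_lit 1271251), (nat_lit 936250), (nat_lit 3113751), (nat_lit 0), (nat_lit 1100000), [(nat_lit 490000), (nat_lit 780000), (nat_lit 1100000)], [(nat_lit 2), (nat_lit 44), (nat_lit 373), (nat_lit 150), (nat_lit 17)]⟩,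
 ⟨⟨[(nat_lit 40), (nat_lit 60), (nat_lit 80)], [(nat_lit 0), (nat_lit 0), (nat_lit 615)], [((nat_lit 0), (nat_lit 0), (nat_lit 0)), ((nat_lit 0), (nat_lit 0), (nat_lit 0)), ((nat_lit 1000), (nat_lit 819), (nat_lit 426))], ((nat_lit 82), (nat_lit 100), (nat_lit 40))⟩, (nat_lit 2818211), (nat_lit 353), (nat_lit 353), (nat_lit 0), (nat_lit 899588), [(nat_lit 2032000000), (nat_lit 3282000000), (nat_lit 4688000000)], [], [(nat_lit 18355868722), (nat_lit 19543449691), (nat_lit 31963209908), (nat_lit 33261655194), (nat_lit 27984720061), (nat_lit 29571609757), (nat_lit 36721393076), (nat_lit 37562032194)], (nat_lit 1271251), (nat_lit 1271251), (nat_lit 1271251), (nat_lit 1271251), (nat_lit 1100000), (nat_lit 2726876), [(nat_lit 490000), (nat_lit 780000), (nat_lit 1100000)], [(nat_lit 2), (nat_lit 44), (nat_lit 317), (nat_lit 100), (nat_lit 13)]⟩,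
 ⟨⟨[(nat_lit 140), (nat_lit 160), (nat_lit 180)], [(nat_lit 0), (nat_lit 0), (nat_lit 799)], [((nat_lit 0), (nat_lit 0), (nat_lit 0)), ((nat_lit 0), (nat_lit 0), (nat_lit 0)), ((nat_lit 728), (nat_lit 1000), (nat_lit 454))], ((nat_lit 100), (nat_lit 75), (nat_lit 43))⟩, (nat_lit 5354353), (nat_lit 300), (nat_lit 368), (nat_lit 41106800), (nat_lit 0), [(nat_lit 5452468000), (nat_lit 6577088000), (nat_lit 7788132000)], [], [(nat_lit 29501810308), (nat_lit 27728022368), (nat_lit 16545592172), (nat_lit 14855869383), (nat_lit 32305793906), (nat_lit 30573123282), (nat_lit 18419339350), (nat_lit 15984057523)], (nat_lit 0), (nat_lit 0), (nat_lit 0), (nat_lit 0), (nat_lit 0), (nat_lit 0), [], [(nat_lit 31), (nat_lit 65), (nat_lit 401), (nat_lit 175), (nat_lit 10)]⟩⟩) (.spl (nat_lit 0) (nat_lit 330) (.ord (.leaf ⟨(nat_lit 0), (nat_lit 1000), (nat_lit 0), (nat_lit 0), (nat_lit 0), (nat_lit 6830), (nat_lit 5952), (nat_lit 0), (nat_lit 115076), (nat_lit 0),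 (nat_lit 0), [], Pd.none, Pd.none, (nat_lit 0), (nat_lit 1), (nat_lit 0), (nat_lit 0), (nat_lit 4), (nat_lit 0), [], [], [⟨(nat_lit 1), (nat_lit 68), (nat_lit 80), (nat_lit 100), (nat_lit 437160732)⟩], [],
 ⟨⟨[(nat_lit 40), (nat_lit 60), (nat_lit 80)], [(nat_lit 0), (nat_lit 0), (nat_lit 615)], [((nat_lit 0), (nat_lit 0), (nat_lit 0)), ((nat_lit 0), (nat_lit 0), (nat_lit 0)), ((nat_lit 1000), (nat_lit 819), (nat_lit 426))], ((nat_lit 82), (nat_lit 100), (nat_lit 40))⟩, (nat_lit 5433942), (nat_lit 300), (nat_lit 351), (nat_lit 54700001), (nat_lit 662032), [(nat_lit 2123094147), (nat_lit 3282000001), (nat_lit 4688000000)], [], [(nat_lit 24291008270), (nat_lit 25006016250), (nat_lit 40382416880), (nat_lit 41151122830), (nat_lit 21853264830), (nat_lit 22447361430), (nat_lit 35139011099), (nat_lit 33695494014)], (nat_lit 1271251), (nat_lit 1271251), (nat_lit 936250), (nat_lit 3113751), (nat_lit 0), (nat_lit 1100000), [(nat_lit 490000), (nat_lit 780000),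 (nat_lit 1100000)], [(nat_lit 2), (nat_lit 44), (nat_lit 373), (nat_lit 150), (nat_lit 17)]⟩,
 ⟨⟨[(nat_lit 40), (nat_lit 60), (nat_lit 80)], [(nat_lit 0), (nat_lit 0), (nat_lit 615)], [((nat_lit 0), (nat_lit 0), (nat_lit 0)), ((nat_lit 0), (nat_lit 0), (nat_lit 0)), ((nat_lit 1000), (nat_lit 819), (nat_lit 426))], ((nat_lit 82), (nat_lit 100), (nat_lit 40))⟩, (nat_lit 1847884), (nat_lit 271), (nat_lit 271), (nat_lit 0), (nat_lit 662032), [(nat_lit 2032000000), (nat_lit 3282000000), (nat_lit 4688000000)], [], [(nat_lit 19429325028), (nat_lit 20079693710), (nat_lit 31376973248), (nat_lit 32001002656), (nat_lit 28511040256), (nat_lit 28295160966), (nat_lit 36125564628), (nat_lit 36534060632)], (nat_lit 1271251), (nat_lit 1271251), (nat_lit 1271251), (nat_lit 1271251), (nat_lit 1100000), (nat_lit 2726876), [(nat_lit 490000), (nat_lit 780000), (nat_lit 1100000)], [(nat_lit 2), (nat_lit 44), (nat_lit 317), (nat_lit 100), (nat_lit 13)]⟩,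
 Rw.none⟩)) (.trZ (nat_lit 0) (nat_lit 1) (nat_lit 3) (nat_lit 82) (nat_lit 78) (nat_lit 100) (nat_lit 150) (.leaf ⟨(nat_lit 0), (nat_lit 1000), (nat_lit 0), (nat_lit 0), (nat_lit 0), (nat_lit 6472), (nat_lit 5395), (nat_lit 0), (nat_lit 1432646211469), (nat_lit 0), (nat_lit 0), [], Pd.none, Pd.none, (nat_lit 0), (nat_lit 1), (nat_lit 0), (nat_lit 0), (nat_lit 4), (nat_lit 0), [], [], [⟨(nat_lit 1), (nat_lit 85), (nat_lit 78), (nat_lit 100), (nat_lit 441790750)⟩], [],
 ⟨⟨[(nat_lit 40), (nat_lit 60), (nat_lit 80)], [(nat_lit 0), (nat_lit 197), (nat_lit 800)], [((nat_lit 0), (nat_lit 0), (nat_lit 0)), ((nat_lit 1000), (nat_lit 908), (nat_lit 154)), ((nat_lit 1000), (nat_lit 781), (nat_lit 471))], ((nat_lit 80), (nat_lit 100), (nat_lit 41))⟩, (nat_lit 2936870), (nat_lit 300), (nat_lit 377), (nat_lit 50800001), (nat_lit 745313), [(nat_lit 2032000001), (nat_lit 3419180626), (nat_lit 4688000000)], [], [(nat_lit 24920460096), (nat_lit 25566637612), (nat_lit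 40126383272), (nat_lit 40871939152), (nat_lit 22693899233), (nat_lit 23231992000), (nat_lit 32684752216), (nat_lit 33336954704)], (nat_lit 1271251), (nat_lit 1271251), (nat_lit 1017188), (nat_lit 3134376), (nat_lit 0), (nat_lit 1100000), [(nat_lit 490000), (nat_lit 780000), (nat_lit 1100000)], [(nat_lit 2), (nat_lit 44), (nat_lit 373), (nat_lit 150), (nat_lit 17)]⟩,
 ⟨⟨[(nat_lit 40), (nat_lit 60), (nat_lit 80)], [(nat_lit 0), (nat_lit 0), (nat_lit 615)], [((nat_lit 0), (nat_lit 0), (nat_lit 0)), ((nat_lit 0), (nat_lit 0), (nat_lit 0)), ((nat_lit 1000), (nat_lit 819), (nat_lit 426))], ((nat_lit 82), (nat_lit 100), (nat_lit 40))⟩, (nat_lit 4013492), (nat_lit 298), (nat_lit 298), (nat_lit 0), (nat_lit 747563), [(nat_lit 2032000000), (nat_lit 3282000000), (nat_lit 4688000000)], [], [(nat_lit 20854524015), (nat_lit 22141550482), (nat_lit 30674749980), (nat_lit 31862453390), (nat_lit 27436032166), (nat_lit 28345616735), (nat_lit 35411851843), (nat_lit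 36200518173)], (nat_lit 1271251), (nat_lit 1271251), (nat_lit 1271251), (nat_lit 1271251), (nat_lit 1100000), (nat_lit 2726876), [(nat_lit 490000), (nat_lit 780000), (nat_lit 1100000)], [(nat_lit 2), (nat_lit 44), (nat_lit 317), (nat_lit 100), (nat_lit 13)]⟩,
 Rw.none⟩)))) (.stt (nat_lit 3) (.spl (nat_lit 4) (nat_lit 80) (.trX (nat_lit 3) (nat_lit 5) (nat_lit 4) (nat_lit 100) (nat_lit 44) (nat_lit 82) (nat_lit 390) (.leaf ⟨(nat_lit 59), (nat_lit 793), (nat_lit 0), (nat_lit 148), (nat_lit 0), (nat_lit 7246), (nat_lit 6077), (nat_lit 1822), (nat_lit 56570), (nat_lit 0), (nat_lit 236000), [((nat_lit 340), [((nat_lit 37), (nat_lit 5), (nat_lit 59))])], ⟨(nat_lit 8), false, true, false, (nat_lit 299), (nat_lit 3872), (nat_lit 4473), [(nat_lit 1527314), (nat_lit 1533860), (nat_lit 1548863), (nat_lit 1555635), (nat_lit 1952226), (nat_lit 1937168), (nat_lit 1973775), (nat_lit 1958944)]⟩, ⟨(nat_lit 3), true, false, false, (nat_lit 72), (nat_lit 3872),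 (nat_lit 4473), [(nat_lit 1073842), (nat_lit 1090218), (nat_lit 1138518), (nat_lit 1155575), (nat_lit 1209798), (nat_lit 1219261), (nat_lit 1274489), (nat_lit 1284632)]⟩, (nat_lit 4129081), (nat_lit 41117878), (nat_lit 23366271), (nat_lit 2515851), (nat_lit 4), (nat_lit 0), [], [⟨(nat_lit 0), (nat_lit 100), (nat_lit 78), (nat_lit 45), (nat_lit 358276557)⟩], [⟨(nat_lit 1), (nat_lit 85), (nat_lit 78), (nat_lit 100), (nat_lit 276541615)⟩], [⟨(nat_lit 1), (nat_lit 100), (nat_lit 98), (nat_lit 60), (nat_lit 1789702)⟩],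
 ⟨⟨[(nat_lit 40), (nat_lit 80), (nat_lit 100)], [(nat_lit 0), (nat_lit 0), (nat_lit 1280)], [((nat_lit 0), (nat_lit 0), (nat_lit 0)), ((nat_lit 0), (nat_lit 0), (nat_lit 0)), ((nat_lit 1000), (nat_lit 800), (nat_lit 600))], ((nat_lit 80), (nat_lit 100), (nat_lit 51))⟩, (nat_lit 5340), (nat_lit 300), (nat_lit 363), (nat_lit 51517346), (nat_lit 579910), [(nat_lit 2059881280), (nat_lit 4121387601), (nat_lit 5158569799)], [(nat_lit 0), (nat_lit 0), (nat_lit 0)], [(nat_lit 27124755569), (nat_lit 28455835682), (nat_lit 40480036016), (nat_lit 42138907309), (nat_lit 24025240207), (nat_lit 25266226661), (nat_lit 35272406734), (nat_lit 35466925944)], (nat_lit 1271251), (nat_lit 1271251), (nat_lit 936250), (nat_lit 3030001), (nat_lit 0), (nat_lit 490000), [(nat_lit 490000), (nat_lit 1100000), (nat_lit 1442501)], [(nat_lit 3), (nat_lit 50), (nat_lit 345), (nat_lit 125), (nat_lit 13)]⟩,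
 ⟨⟨[(nat_lit 40), (nat_lit 80), (nat_lit 100)], [(nat_lit 0), (nat_lit 0), (nat_lit 1280)], [((nat_lit 0), (nat_lit 0), (nat_lit 0)), ((nat_lit 0), (nat_lit 0), (nat_lit 0)), ((nat_lit 1000), (nat_lit 800), (nat_lit 600))], ((nat_lit 80), (nat_lit 100), (nat_lit 51))⟩, (nat_lit 1293052), (nat_lit 319), (nat_lit 319), (nat_lit 0), (nat_lit 695763), [(nat_lit 1912112000), (nat_lit 4411408000), (nat_lit 5881250000)], [], [(nat_lit 20972352109), (nat_lit 22264355989), (nat_lit 29326875796), (nat_lit 30599436373), (nat_lit 27222433938), (nat_lit 27869791010), (nat_lit 34090313562), (nat_lit 34912687856)], (nat_lit 1271251), (nat_lit 1271251), (nat_lit 1271251), (nat_lit 1271251), (nat_lit 1100000), (nat_lit 2726876), [(nat_lit 490000), (nat_lit 1100000), (nat_lit 1442501)], [(nat_lit 3), (nat_lit 50), (nat_lit 428), (nat_lit 200), (nat_lit 16)]⟩,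
 ⟨⟨[(nat_lit 140), (nat_lit 180), (nat_lit 200)], [(nat_lit 0), (nat_lit 0), (nat_lit 2835)], [((nat_lit 0), (nat_lit 0), (nat_lit 0)), ((nat_lit 0), (nat_lit 0), (nat_lit 0)), ((nat_lit 363), (nat_lit 1000), (nat_lit 798))], ((nat_lit 0), (nat_lit 0), (nat_lit 0))⟩, (nat_lit 40720), (nat_lit 300), (nat_lit 462), (nat_lit 11558800), (nat_lit 0), [(nat_lit 1456616000), (nat_lit 2080584000), (nat_lit 2427200000)], [], [(nat_lit 9803003995), (nat_lit 9487841536), (nat_lit 8520997906), (nat_lit 8231095073), (nat_lit 9926897775), (nat_lit 9544212527), (nat_lit 8598738539), (nat_lit 8243661656)], (nat_lit 0), (nat_lit 0), (nat_lit 0), (nat_lit 0), (nat_lit 0), (nat_lit 0), [], [(nat_lit 32), (nat_lit 67), (nat_lit 401), (nat_lit 175), (nat_lit 9)]⟩⟩)) (.leaf ⟨(nat_lit 0), (nat_lit 0), (nat_lit 0), (nat_lit 1000), (nat_lit 0), (nat_lit 6860), (nat_lit 6860), (nat_lit 18946), (nat_lit 2577151130589), (nat_lit 0), (nat_lit 0), [], Pd.none, Pd.none, (nat_lit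 0), (nat_lit 1), (nat_lit 0), (nat_lit 0), (nat_lit 0), (nat_lit 0), [⟨(nat_lit 0), (nat_lit 71), (nat_lit 71), (nat_lit 100), (nat_lit 245599236)⟩], [], [], [],
 ⟨⟨[(nat_lit 40), (nat_lit 80), (nat_lit 100)], [(nat_lit 0), (nat_lit 0), (nat_lit 1280)], [((nat_lit 0), (nat_lit 0), (nat_lit 0)), ((nat_lit 0), (nat_lit 0), (nat_lit 0)), ((nat_lit 1000), (nat_lit 800), (nat_lit 600))], ((nat_lit 80), (nat_lit 100), (nat_lit 51))⟩, (nat_lit 304688), (nat_lit 300), (nat_lit 351), (nat_lit 58600001), (nat_lit 695763), [(nat_lit 2258427144), (nat_lit 4688000002), (nat_lit 6250000000)], [], [(nat_lit 27570229121), (nat_lit 28808068899), (nat_lit 35021247963), (nat_lit 35704345155), (nat_lit 27337810451), (nat_lit 28444679320), (nat_lit 40091174426), (nat_lit 37156041106)], (nat_lit 1271251), (nat_lit 1271251), (nat_lit 936250), (nat_lit 3113751), (nat_lit 490000), (nat_lit 1100000), [(nat_lit 490000), (nat_lit 1100000), (nat_lit 1442501)], [(nat_lit 3),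 (nat_lit 50), (nat_lit 373), (nat_lit 150), (nat_lit 14)]⟩,
 ⟨⟨[(nat_lit 40), (nat_lit 80), (nat_lit 100)], [(nat_lit 0), (nat_lit 0), (nat_lit 1280)], [((nat_lit 0), (nat_lit 0), (nat_lit 0)), ((nat_lit 0), (nat_lit 0), (nat_lit 0)), ((nat_lit 1000), (nat_lit 800), (nat_lit 600))], ((nat_lit 80), (nat_lit 100), (nat_lit 51))⟩, (nat_lit 1809305), (nat_lit 321), (nat_lit 321), (nat_lit 0), (nat_lit 695763), [(nat_lit 2032000000), (nat_lit 4688000000), (nat_lit 6250000000)], [], [(nat_lit 20629488660), (nat_lit 22052093585), (nat_lit 32521710640), (nat_lit 33868158520), (nat_lit 28474857080), (nat_lit 30063992712), (nat_lit 37289031790), (nat_lit 38152199230)], (nat_lit 1271251), (nat_lit 1271251), (nat_lit 1271251), (nat_lit 1271251), (nat_lit 1100000), (nat_lit 2726876), [(nat_lit 490000), (nat_lit 1100000), (nat_lit 1442501)], [(nat_lit 3), (nat_lit 50), (nat_lit 428), (nat_lit 200), (nat_lit 16)]⟩,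
 ⟨⟨[(nat_lit 140), (nat_lit 180), (nat_lit 200)], [(nat_lit 0), (nat_lit 0), (nat_lit 2835)], [((nat_lit 0), (nat_lit 0), (nat_lit 0)), ((nat_lit 0), (nat_lit 0), (nat_lit 0)), ((nat_lit 363), (nat_lit 1000), (nat_lit 798))], ((nat_lit 0), (nat_lit 0), (nat_lit 0))⟩, (nat_lit 4918008), (nat_lit 298), (nat_lit 298), (nat_lit 0), (nat_lit 0), [(nat_lit 9842000000), (nat_lit 14058000000), (nat_lit 16400000000)], [], [(nat_lit 27321356576), (nat_lit 27391503094), (nat_lit 23742340864), (nat_lit 23660580096), (nat_lit 45373119276), (nat_lit 43087698295), (nat_lit 39367330355), (nat_lit 37009942866)], (nat_lit 0), (nat_lit 0), (nat_lit 0), (nat_lit 0), (nat_lit 0), (nat_lit 0), [], [(nat_lit 32), (nat_lit 67), (nat_lit 401), (nat_lit 175), (nat_lit 9)]⟩⟩)) (.spl (nat_lit 0) (nat_lit 330) (.ord (.leaf ⟨(nat_lit 59), (nat_lit 941), (nat_lit 0), (nat_lit 0), (nat_lit 0), (nat_lit 7138), (nat_lit 6447), (nat_lit 0), (nat_lit 5628199861935), (nat_lit 0),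 (nat_lit 236000), [((nat_lit 330), [((nat_lit 37), (nat_lit 5), (nat_lit 59))])], ⟨(nat_lit 8), false, true, false, (nat_lit 301), (nat_lit 4183), (nat_lit 4473), [(nat_lit 1527406), (nat_lit 1530591), (nat_lit 1538187), (nat_lit 1541422), (nat_lit 1969270), (nat_lit 1961259), (nat_lit 1980052), (nat_lit 1972090)]⟩, ⟨(nat_lit 3), false, false, false, (nat_lit 98), (nat_lit 4183), (nat_lit 4473), [(nat_lit 1073842), (nat_lit 1082054), (nat_lit 1138540), (nat_lit 1147053), (nat_lit 1345754), (nat_lit 1347076), (nat_lit 1410454), (nat_lit 1412076)]⟩, (nat_lit 4441110), (nat_lit 39971439), (nat_lit 23116369), (nat_lit 3912192), (nat_lit 4), (nat_lit 0), [], [], [⟨(nat_lit 1), (nat_lit 68), (nat_lit 80), (nat_lit 100), (nat_lit 411142009)⟩], [],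
 ⟨⟨[(nat_lit 40), (nat_lit 80), (nat_lit 100)], [(nat_lit 0), (nat_lit 0), (nat_lit 1280)], [((nat_lit 0), (nat_lit 0), (nat_lit 0)), ((nat_lit 0), (nat_lit 0), (nat_lit 0)), ((nat_lit 1000), (nat_lit 800), (nat_lit 600))], ((nat_lit 80), (nat_lit 100), (nat_lit 51))⟩, (nat_lit 5340), (nat_lit 300), (nat_lit 335), (nat_lit 51517346), (nat_lit 485851), [(nat_lit 2059898157), (nat_lit 4121387604), (nat_lit 5158569796)], [(nat_lit 0), (nat_lit 0), (nat_lit 0)], [(nat_lit 27883217044), (nat_lit 27905894799), (nat_lit 41244119568), (nat_lit 42032742338), (nat_lit 23765090615), (nat_lit 24351711740), (nat_lit 38420602893), (nat_lit 36893563415)], (nat_lit 1271251), (nat_lit 1271251), (nat_lit 936250), (nat_lit 3113751), (nat_lit 0), (nat_lit 1100000), [(nat_lit 490000), (nat_lit 1100000), (nat_lit 1442501)], [(nat_lit 3), (nat_lit 50), (nat_lit 373), (nat_lit 150), (nat_lit 14)]⟩,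
 ⟨⟨[(nat_lit 40), (nat_lit 80), (nat_lit 100)], [(nat_lit 0), (nat_lit 0), (nat_lit 1280)], [((nat_lit 0), (nat_lit 0), (nat_lit 0)), ((nat_lit 0), (nat_lit 0), (nat_lit 0)), ((nat_lit 1000), (nat_lit 800), (nat_lit 600))], ((nat_lit 80), (nat_lit 100), (nat_lit 51))⟩, (nat_lit 546855), (nat_lit 244), (nat_lit 244), (nat_lit 0), (nat_lit 485851), [(nat_lit 1912112000), (nat_lit 4411408000), (nat_lit 5881250000)], [], [(nat_lit 20914265539), (nat_lit 21583091623), (nat_lit 30592516132), (nat_lit 31225572341), (nat_lit 27279390998), (nat_lit 27504676534), (nat_lit 35078394951), (nat_lit 35484305205)], (nat_lit 1271251), (nat_lit 1271251), (nat_lit 1271251), (nat_lit 1271251), (nat_lit 1100000), (nat_lit 2726876), [(nat_lit 490000), (nat_lit 1100000), (nat_lit 1442501)], [(nat_lit 3), (nat_lit 50), (nat_lit 428), (nat_lit 200), (nat_lit 16)]⟩,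
 Rw.none⟩)) (.trZ (nat_lit 0) (nat_lit 1) (nat_lit 3) (nat_lit 82) (nat_lit 78) (nat_lit 100) (nat_lit 150) (.leaf ⟨(nat_lit 0), (nat_lit 1000), (nat_lit 0), (nat_lit 0), (nat_lit 0), (nat_lit 7024), (nat_lit 6766), (nat_lit 0), (nat_lit 18307), (nat_lit 0), (nat_lit 0), [], Pd.none, Pd.none, (nat_lit 0), (nat_lit 1), (nat_lit 0), (nat_lit 0), (nat_lit 4), (nat_lit 0), [], [], [⟨(nat_lit 1), (nat_lit 85), (nat_lit 78), (nat_lit 100), (nat_lit 440086040)⟩], [],
 ⟨⟨[(nat_lit 40), (nat_lit 80), (nat_lit 100)], [(nat_lit 0), (nat_lit 395), (nat_lit 1536)], [((nat_lit 0), (nat_lit 0), (nat_lit 0)), ((nat_lit 1000), (nat_lit 908), (nat_lit 154)), ((nat_lit 1000), (nat_lit 760), (nat_lit 642))], ((nat_lit 77), (nat_lit 100), (nat_lit 52))⟩, (nat_lit 1579747), (nat_lit 300), (nat_lit 364), (nat_lit 50800001), (nat_lit 577513), [(nat_lit 2032000001), (nat_lit 4688000001), (nat_lit 6250000000)], [], [(nat_lit 28064506073), (nat_lit 28707123145), (nat_lit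 41706428624), (nat_lit 42487679584), (nat_lit 24688980648), (nat_lit 25224663684), (nat_lit 36247271729), (nat_lit 34744620385)], (nat_lit 1271251), (nat_lit 1271251), (nat_lit 1017188), (nat_lit 3134376), (nat_lit 0), (nat_lit 1100000), [(nat_lit 490000), (nat_lit 1100000), (nat_lit 1442501)], [(nat_lit 3), (nat_lit 50), (nat_lit 373), (nat_lit 150), (nat_lit 14)]⟩,
 ⟨⟨[(nat_lit 40), (nat_lit 80), (nat_lit 100)], [(nat_lit 0), (nat_lit 0), (nat_lit 1280)], [((nat_lit 0), (nat_lit 0), (nat_lit 0)), ((nat_lit 0), (nat_lit 0), (nat_lit 0)), ((nat_lit 1000), (nat_lit 800), (nat_lit 600))], ((nat_lit 80), (nat_lit 100), (nat_lit 51))⟩, (nat_lit 578678), (nat_lit 274), (nat_lit 274), (nat_lit 0), (nat_lit 579763), [(nat_lit 2032000000), (nat_lit 4688000000), (nat_lit 6250000000)], [], [(nat_lit 22474009197), (nat_lit 23864515168), (nat_lit 32403202584), (nat_lit 33739464812), (nat_lit 28873351124), (nat_lit 29793467296), (nat_lit 37168584749), (nat_lit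 38026971913)], (nat_lit 1271251), (nat_lit 1271251), (nat_lit 1271251), (nat_lit 1271251), (nat_lit 1100000), (nat_lit 2726876), [(nat_lit 490000), (nat_lit 1100000), (nat_lit 1442501)], [(nat_lit 3), (nat_lit 50), (nat_lit 428), (nat_lit 200), (nat_lit 15)]⟩,
 Rw.none⟩)))))
noncomputable def c12_2 : Tr Lf :=
 (.spl (nat_lit 3) (nat_lit 280) (.spl (nat_lit 4) (nat_lit 80) (.spl (nat_lit 0) (nat_lit 330) (.ord (.leaf ⟨(nat_lit 59), (nat_lit 836), (nat_lit 0), (nat_lit 105), (nat_lit 0), (nat_lit 8411), (nat_lit 6083), (nat_lit 1306), (nat_lit 1757764), (nat_lit 0), (nat_lit 236000), [((nat_lit 330), [((nat_lit 37), (nat_lit 5), (nat_lit 59))])], ⟨(nat_lit 8), false, false, false, (nat_lit 261), (nat_lit 4183), (nat_lit 4473), [(nat_lit 1527406), (nat_lit 1530591), (nat_lit 1538187), (nat_lit 1541422), (nat_lit 1765332), (nat_lit 1762489), (nat_lit 1776114), (nat_lit 1773320)]⟩, ⟨(nat_lit 3), false, false, false, (nat_lit 71), (nat_lit 4183), (nat_lit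 4473), [(nat_lit 1073842), (nat_lit 1082054), (nat_lit 1138540), (nat_lit 1147053), (nat_lit 1209798), (nat_lit 1214565), (nat_lit 1274498), (nat_lit 1279565)]⟩, (nat_lit 3937581), (nat_lit 44909720), (nat_lit 19520615), (nat_lit 2569665), (nat_lit 4), (nat_lit 0), [⟨(nat_lit 0), (nat_lit 77), (nat_lit 77), (nat_lit 100), (nat_lit 252982231)⟩], [⟨(nat_lit 0), (nat_lit 100), (nat_lit 81), (nat_lit 42), (nat_lit 280746597)⟩], [⟨(nat_lit 1), (nat_lit 83), (nat_lit 81), (nat_lit 100), (nat_lit 276659494)⟩], [],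
 ⟨⟨[(nat_lit 40), (nat_lit 80), (nat_lit 120)], [(nat_lit 0), (nat_lit 0), (nat_lit 2151)], [((nat_lit 0), (nat_lit 0), (nat_lit 0)), ((nat_lit 0), (nat_lit 0), (nat_lit 0)), ((nat_lit 1000), (nat_lit 815), (nat_lit 753))], ((nat_lit 81), (nat_lit 100), (nat_lit 70))⟩, (nat_lit 6356), (nat_lit 300), (nat_lit 304), (nat_lit 51517346), (nat_lit 381824), [(nat_lit 2060065000), (nat_lit 4121387651), (nat_lit 6195751847)], [(nat_lit 0), (nat_lit 0), (nat_lit 0)], [(nat_lit 27854737019), (nat_lit 28658243600), (nat_lit 31765596253), (nat_lit 33007482990), (nat_lit 23456991688), (nat_lit 24207959195), (nat_lit 26187659136), (nat_lit 26822939829)], (nat_lit 1271251), (nat_lit 1271251), (nat_lit 936250), (nat_lit 2108751), (nat_lit 0), (nat_lit 490000), [(nat_lit 490000), (nat_lit 1100000), (nat_lit 1785001)], [(nat_lit 4), (nat_lit 51), (nat_lit 317), (nat_lit 100), (nat_lit 10)]⟩,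
 ⟨⟨[(nat_lit 40), (nat_lit 80), (nat_lit 120)], [(nat_lit 0), (nat_lit 0), (nat_lit 2151)], [((nat_lit 0), (nat_lit 0), (nat_lit 0)), ((nat_lit 0), (nat_lit 0), (nat_lit 0)), ((nat_lit 1000), (nat_lit 815), (nat_lit 753))], ((nat_lit 81), (nat_lit 100), (nat_lit 70))⟩, (nat_lit 1668660), (nat_lit 261), (nat_lit 261), (nat_lit 0), (nat_lit 458838), [(nat_lit 1912112000), (nat_lit 4411408000), (nat_lit 7497888000)], [], [(nat_lit 22924996266), (nat_lit 21364181347), (nat_lit 23439325760), (nat_lit 23986568000), (nat_lit 26655791827), (nat_lit 27126583125), (nat_lit 31589011581), (nat_lit 30267055162)], (nat_lit 1271251), (nat_lit 1271251), (nat_lit 936250), (nat_lit 2108751), (nat_lit 1100000), (nat_lit 2726876), [(nat_lit 490000), (nat_lit 1100000), (nat_lit 1785001)], [(nat_lit 4), (nat_lit 51), (nat_lit 401), (nat_lit 175), (nat_lit 12)]⟩,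
 ⟨⟨[(nat_lit 140), (nat_lit 180), (nat_lit 200)], [(nat_lit 0), (nat_lit 0), (nat_lit 2835)], [((nat_lit 0), (nat_lit 0), (nat_lit 0)), ((nat_lit 0), (nat_lit 0), (nat_lit 0)), ((nat_lit 363), (nat_lit 1000), (nat_lit 798))], ((nat_lit 0), (nat_lit 0), (nat_lit 0))⟩, (nat_lit 28889), (nat_lit 300), (nat_lit 1479), (nat_lit 8200500), (nat_lit 2183408), [(nat_lit 1033410000), (nat_lit 1476090000), (nat_lit 1722000000)], [], [(nat_lit 7502258584), (nat_lit 7199755635), (nat_lit 6724709112), (nat_lit 6433935607), (nat_lit 7163103944), (nat_lit 8093746932), (nat_lit 7473347549), (nat_lit 8453917928)], (nat_lit 780000), (nat_lit 1271251), (nat_lit 0), (nat_lit 490000), (nat_lit 1100000), (nat_lit 2726876), [(nat_lit 1977501), (nat_lit 1271251), (nat_lit 1271251)], [(nat_lit 32), (nat_lit 67), (nat_lit 446), (nat_lit 175), (nat_lit 10)]⟩⟩)) (.trZ (nat_lit 0) (nat_lit 1) (nat_lit 3) (nat_lit 82) (nat_lit 78) (nat_lit 100) (nat_lit 150) (.leaf ⟨(nat_lit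 0), (nat_lit 881), (nat_lit 0), (nat_lit 119), (nat_lit 0), (nat_lit 8463), (nat_lit 6772), (nat_lit 1380), (nat_lit 3696692), (nat_lit 0), (nat_lit 0), [], Pd.none, Pd.none, (nat_lit 0), (nat_lit 1), (nat_lit 0), (nat_lit 0), (nat_lit 4), (nat_lit 0), [⟨(nat_lit 0), (nat_lit 77), (nat_lit 74), (nat_lit 100), (nat_lit 334532884)⟩], [⟨(nat_lit 0), (nat_lit 100), (nat_lit 76), (nat_lit 48), (nat_lit 317162443)⟩], [⟨(nat_lit 1), (nat_lit 85), (nat_lit 78), (nat_lit 100), (nat_lit 313645074)⟩], [],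
 ⟨⟨[(nat_lit 40), (nat_lit 80), (nat_lit 120)], [(nat_lit 0), (nat_lit 395), (nat_lit 2466)], [((nat_lit 0), (nat_lit 0), (nat_lit 0)), ((nat_lit 1000), (nat_lit 908), (nat_lit 154)), ((nat_lit 1000), (nat_lit 773), (nat_lit 792))], ((nat_lit 76), (nat_lit 100), (nat_lit 70))⟩, (nat_lit 1579746), (nat_lit 300), (nat_lit 371), (nat_lit 50800005), (nat_lit 478034), [(nat_lit 2032000072), (nat_lit 4688000069), (nat_lit 7968000000)], [], [(nat_lit 31186539894), (nat_lit 31833180709), (nat_lit 33104389670), (nat_lit 34443462446), (nat_lit 26794551812), (nat_lit 27399097102), (nat_lit 28551818068), (nat_lit 29013842591)], (nat_lit 1271251), (nat_lit 1271251), (nat_lit 1017188), (nat_lit 2118126), (nat_lit 0), (nat_lit 490000), [(nat_lit 490000), (nat_lit 1100000), (nat_lit 1785001)], [(nat_lit 4), (nat_lit 51), (nat_lit 317), (nat_lit 100), (nat_lit 10)]⟩,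
 ⟨⟨[(nat_lit 40), (nat_lit 80), (nat_lit 120)], [(nat_lit 0), (nat_lit 0), (nat_lit 2151)], [((nat_lit 0), (nat_lit 0), (nat_lit 0)), ((nat_lit 0), (nat_lit 0), (nat_lit 0)), ((nat_lit 1000), (nat_lit 815), (nat_lit 753))], ((nat_lit 81), (nat_lit 100), (nat_lit 70))⟩, (nat_lit 1486670), (nat_lit 296), (nat_lit 296), (nat_lit 0), (nat_lit 574981), [(nat_lit 2032000000), (nat_lit 4688000000), (nat_lit 7968000000)], [], [(nat_lit 22929582922), (nat_lit 24215489485), (nat_lit 25849397118), (nat_lit 26850868630), (nat_lit 28698336472), (nat_lit 29800463281), (nat_lit 33575093916), (nat_lit 32334854169)], (nat_lit 1271251), (nat_lit 1271251), (nat_lit 1017188), (nat_lit 2118126), (nat_lit 1100000), (nat_lit 2726876), [(nat_lit 490000), (nat_lit 1100000), (nat_lit 1785001)], [(nat_lit 4), (nat_lit 51), (nat_lit 401), (nat_lit 175), (nat_lit 12)]⟩,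
 ⟨⟨[(nat_lit 140), (nat_lit 180), (nat_lit 200)], [(nat_lit 0), (nat_lit 0), (nat_lit 2835)], [((nat_lit 0), (nat_lit 0), (nat_lit 0)), ((nat_lit 0), (nat_lit 0), (nat_lit 0)), ((nat_lit 363), (nat_lit 1000), (nat_lit 798))], ((nat_lit 0), (nat_lit 0), (nat_lit 0))⟩, (nat_lit 32741), (nat_lit 300), (nat_lit 1812), (nat_lit 9293900), (nat_lit 2890270), [(nat_lit 1171198000), (nat_lit 1672902000), (nat_lit 1951600000)], [], [(nat_lit 8765149480), (nat_lit 8450744565), (nat_lit 8020058884), (nat_lit 7707215676), (nat_lit 8257474042), (nat_lit 8951469124), (nat_lit 8295876658), (nat_lit 9347827022)], (nat_lit 780000), (nat_lit 1271251), (nat_lit 0), (nat_lit 490000), (nat_lit 1100000), (nat_lit 2726876), [(nat_lit 1977501), (nat_lit 1271251), (nat_lit 1271251)], [(nat_lit 32), (nat_lit 67), (nat_lit 530), (nat_lit 175), (nat_lit 11)]⟩⟩))) (.spl (nat_lit 0) (nat_lit 330) (.ord (.leaf ⟨(nat_lit 0), (nat_lit 895), (nat_lit 0), (nat_lit 105), (nat_lit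 0), (nat_lit 7770), (nat_lit 7208), (nat_lit 1033), (nat_lit 274301), (nat_lit 0), (nat_lit 0), [], Pd.none, Pd.none, (nat_lit 0), (nat_lit 1), (nat_lit 0), (nat_lit 0), (nat_lit 4), (nat_lit 0), [⟨(nat_lit 0), (nat_lit 77), (nat_lit 77), (nat_lit 100), (nat_lit 168047070)⟩], [], [⟨(nat_lit 1), (nat_lit 83), (nat_lit 81), (nat_lit 100), (nat_lit 357541754)⟩], [],
 ⟨⟨[(nat_lit 40), (nat_lit 80), (nat_lit 120)], [(nat_lit 0), (nat_lit 0), (nat_lit 2151)], [((nat_lit 0), (nat_lit 0), (nat_lit 0)), ((nat_lit 0), (nat_lit 0), (nat_lit 0)), ((nat_lit 1000), (nat_lit 815), (nat_lit 753))], ((nat_lit 81), (nat_lit 100), (nat_lit 70))⟩, (nat_lit 2694043), (nat_lit 273), (nat_lit 273), (nat_lit 0), (nat_lit 458838), [(nat_lit 2032000011), (nat_lit 4688000004), (nat_lit 7968000000)], [], [(nat_lit 17191482661), (nat_lit 18205967394), (nat_lit 23873090000), (nat_lit 25071745013), (nat_lit 16974139551), (nat_lit 17834207038), (nat_lit 25967397062), (nat_lit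 24263179652)], (nat_lit 1271251), (nat_lit 1271251), (nat_lit 936250), (nat_lit 2108751), (nat_lit 490000), (nat_lit 1100000), [(nat_lit 490000), (nat_lit 1100000), (nat_lit 1785001)], [(nat_lit 4), (nat_lit 51), (nat_lit 345), (nat_lit 125), (nat_lit 11)]⟩,
 ⟨⟨[(nat_lit 40), (nat_lit 80), (nat_lit 120)], [(nat_lit 0), (nat_lit 0), (nat_lit 2151)], [((nat_lit 0), (nat_lit 0), (nat_lit 0)), ((nat_lit 0), (nat_lit 0), (nat_lit 0)), ((nat_lit 1000), (nat_lit 815), (nat_lit 753))], ((nat_lit 81), (nat_lit 100), (nat_lit 70))⟩, (nat_lit 1307411), (nat_lit 261), (nat_lit 261), (nat_lit 0), (nat_lit 458838), [(nat_lit 2032000000), (nat_lit 4688000000), (nat_lit 7968000000)], [], [(nat_lit 24324915376), (nat_lit 22475440785), (nat_lit 24646828555), (nat_lit 25380786457), (nat_lit 28977390838), (nat_lit 29599790971), (nat_lit 32878296024), (nat_lit 32113448569)], (nat_lit 1271251), (nat_lit 1271251), (nat_lit 936250), (nat_lit 2108751), (nat_lit 1100000),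 (nat_lit 2726876), [(nat_lit 490000), (nat_lit 1100000), (nat_lit 1785001)], [(nat_lit 4), (nat_lit 51), (nat_lit 401), (nat_lit 175), (nat_lit 12)]⟩,
 ⟨⟨[(nat_lit 140), (nat_lit 180), (nat_lit 200)], [(nat_lit 0), (nat_lit 0), (nat_lit 2835)], [((nat_lit 0), (nat_lit 0), (nat_lit 0)), ((nat_lit 0), (nat_lit 0), (nat_lit 0)), ((nat_lit 363), (nat_lit 1000), (nat_lit 798))], ((nat_lit 0), (nat_lit 0), (nat_lit 0))⟩, (nat_lit 28889), (nat_lit 300), (nat_lit 2161), (nat_lit 8200500), (nat_lit 3706822), [(nat_lit 1033410000), (nat_lit 1476090000), (nat_lit 1722000000)], [], [(nat_lit 9565433667), (nat_lit 9362290373), (nat_lit 9273667328), (nat_lit 9072348323), (nat_lit 9027890629), (nat_lit 8826226726), (nat_lit 8739241236), (nat_lit 8741074672)], (nat_lit 780000), (nat_lit 1271251), (nat_lit 490000), (nat_lit 1100000), (nat_lit 1100000), (nat_lit 2726876), [(nat_lit 1977501), (nat_lit 1271251), (nat_lit 1271251)], [(nat_lit 32), (nat_lit 67), (nat_lit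 627), (nat_lit 175), (nat_lit 13)]⟩⟩)) (.trZ (nat_lit 0) (nat_lit 1) (nat_lit 3) (nat_lit 82) (nat_lit 78) (nat_lit 100) (nat_lit 150) (.leaf ⟨(nat_lit 0), (nat_lit 1000), (nat_lit 0), (nat_lit 0), (nat_lit 0), (nat_lit 8464), (nat_lit 7204), (nat_lit 0), (nat_lit 73870), (nat_lit 0), (nat_lit 0), [], Pd.none, Pd.none, (nat_lit 0), (nat_lit 1), (nat_lit 0), (nat_lit 0), (nat_lit 4), (nat_lit 0), [⟨(nat_lit 0), (nat_lit 71), (nat_lit 71), (nat_lit 100), (nat_lit 532880136)⟩], [], [⟨(nat_lit 1), (nat_lit 68), (nat_lit 80), (nat_lit 100), (nat_lit 504570462)⟩], [],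
 ⟨⟨[(nat_lit 40), (nat_lit 80), (nat_lit 120)], [(nat_lit 0), (nat_lit 395), (nat_lit 2466)], [((nat_lit 0), (nat_lit 0), (nat_lit 0)), ((nat_lit 1000), (nat_lit 908), (nat_lit 154)), ((nat_lit 1000), (nat_lit 773), (nat_lit 792))], ((nat_lit 76), (nat_lit 100), (nat_lit 70))⟩, (nat_lit 1579747), (nat_lit 300), (nat_lit 313), (nat_lit 50800001), (nat_lit 571528), [(nat_lit 2032000002), (nat_lit 4688000002), (nat_lit 7968000000)], [], [(nat_lit 23779956495), (nat_lit 24522553774), (nat_lit 26421193230), (nat_lit 26989507807), (nat_lit 22889326561), (nat_lit 23549984944), (nat_lit 25053204067), (nat_lit 25558665578)], (nat_lit 1271251), (nat_lit 1271251), (nat_lit 1017188), (nat_lit 2118126), (nat_lit 490000), (nat_lit 1100000), [(nat_lit 490000), (nat_lit 1100000), (nat_lit 1785001)], [(nat_lit 4), (nat_lit 51), (nat_lit 345), (nat_lit 125), (nat_lit 11)]⟩,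
 ⟨⟨[(nat_lit 40), (nat_lit 80), (nat_lit 120)], [(nat_lit 0), (nat_lit 0), (nat_lit 2151)], [((nat_lit 0), (nat_lit 0), (nat_lit 0)), ((nat_lit 0), (nat_lit 0), (nat_lit 0)), ((nat_lit 1000), (nat_lit 815), (nat_lit 753))], ((nat_lit 81), (nat_lit 100), (nat_lit 70))⟩, (nat_lit 1212345), (nat_lit 296), (nat_lit 296), (nat_lit 0), (nat_lit 574981), [(nat_lit 2032000000), (nat_lit 4688000000), (nat_lit 7968000000)], [], [(nat_lit 22434938572), (nat_lit 23673907240), (nat_lit 25263827121), (nat_lit 26321701615), (nat_lit 29029708238), (nat_lit 30256399694), (nat_lit 33189664812), (nat_lit 32752747533)], (nat_lit 1271251), (nat_lit 1271251), (nat_lit 1017188), (nat_lit 2118126), (nat_lit 1100000), (nat_lit 2726876), [(nat_lit 490000), (nat_lit 1100000), (nat_lit 1785001)], [(nat_lit 4), (nat_lit 51), (nat_lit 401), (nat_lit 175), (nat_lit 12)]⟩,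
 Rw.none⟩)))) (.leaf ⟨(nat_lit 59), (nat_lit 941), (nat_lit 0), (nat_lit 0), (nat_lit 0), (nat_lit 6783), (nat_lit 5997), (nat_lit 0), (nat_lit 2081673252317), (nat_lit 0), (nat_lit 236000), [((nat_lit 340), [((nat_lit 37), (nat_lit 5), (nat_lit 59))])], ⟨(nat_lit 8), false, true, true, (nat_lit 349), (nat_lit 3872), (nat_lit 4473), [(nat_lit 1765265), (nat_lit 1759713), (nat_lit 1786814), (nat_lit 1781488), (nat_lit 1969223), (nat_lit 1953301), (nat_lit 1990771), (nat_lit 1975076)]⟩, ⟨(nat_lit 3), false, false, false, (nat_lit 99), (nat_lit 3872), (nat_lit 4473), [(nat_lit 1073842), (nat_lit 1090218), (nat_lit 1138518), (nat_lit 1155575), (nat_lit 1345754), (nat_lit 1348304), (nat_lit 1410454), (nat_lit 1413684)]⟩, (nat_lit 4530605), (nat_lit 35799103), (nat_lit 27517961), (nat_lit 3682936), (nat_lit 4), (nat_lit 0), [], [], [⟨(nat_lit 1), (nat_lit 85), (nat_lit 78), (nat_lit 100), (nat_lit 372009100)⟩], [⟨(nat_lit 1), (nat_lit 100), (nat_lit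 74), (nat_lit 90), (nat_lit 28472862)⟩],
 ⟨⟨[(nat_lit 40), (nat_lit 80), (nat_lit 120)], [(nat_lit 0), (nat_lit 0), (nat_lit 2151)], [((nat_lit 0), (nat_lit 0), (nat_lit 0)), ((nat_lit 0), (nat_lit 0), (nat_lit 0)), ((nat_lit 1000), (nat_lit 815), (nat_lit 753))], ((nat_lit 81), (nat_lit 100), (nat_lit 70))⟩, (nat_lit 6356), (nat_lit 300), (nat_lit 405), (nat_lit 51517346), (nat_lit 575167), [(nat_lit 2059860260), (nat_lit 4121387617), (nat_lit 6195751949)], [(nat_lit 0), (nat_lit 0), (nat_lit 0)], [(nat_lit 36123405972), (nat_lit 37010703198), (nat_lit 40490160868), (nat_lit 41782256678), (nat_lit 31871842055), (nat_lit 32550318579), (nat_lit 35459884372), (nat_lit 35991243917)], (nat_lit 1271251), (nat_lit 1271251), (nat_lit 1271251), (nat_lit 1271251), (nat_lit 0), (nat_lit 1100000), [(nat_lit 490000), (nat_lit 1100000), (nat_lit 1785001)], [(nat_lit 4), (nat_lit 51), (nat_lit 249), (nat_lit 40), (nat_lit 7)]⟩,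
 ⟨⟨[(nat_lit 40), (nat_lit 80), (nat_lit 120)], [(nat_lit 0), (nat_lit 0), (nat_lit 2151)], [((nat_lit 0), (nat_lit 0), (nat_lit 0)), ((nat_lit 0), (nat_lit 0), (nat_lit 0)), ((nat_lit 1000), (nat_lit 815), (nat_lit 753))], ((nat_lit 81), (nat_lit 100), (nat_lit 70))⟩, (nat_lit 1260916), (nat_lit 301), (nat_lit 301), (nat_lit 0), (nat_lit 575167), [(nat_lit 1912112000), (nat_lit 4411408000), (nat_lit 7497888000)], [], [(nat_lit 25642961310), (nat_lit 26557639147), (nat_lit 30238533112), (nat_lit 31242541650), (nat_lit 29456345311), (nat_lit 30064606689), (nat_lit 34501786776), (nat_lit 35290722983)], (nat_lit 1271251), (nat_lit 1271251), (nat_lit 1271251), (nat_lit 1271251), (nat_lit 1100000), (nat_lit 2726876), [(nat_lit 490000), (nat_lit 1100000), (nat_lit 1785001)], [(nat_lit 4), (nat_lit 51), (nat_lit 317), (nat_lit 100), (nat_lit 9)]⟩,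
 Rw.none⟩))
noncomputable def c12_3 : Tr Lf :=
 (.stt (nat_lit 2) (.spl (nat_lit 3) (nat_lit 280) (.spl (nat_lit 6) (nat_lit 28) (.spl (nat_lit 0) (nat_lit 330) (.ord (.leaf ⟨(nat_lit 60), (nat_lit 651), (nat_lit 0), (nat_lit 289), (nat_lit 0), (nat_lit 6226), (nat_lit 3725), (nat_lit 3385), (nat_lit 22354075831965), (nat_lit 0), (nat_lit 240000), [((nat_lit 330), [((nat_lit 37), (nat_lit 5), (nat_lit 60))])], ⟨(nat_lit 8), true, false, false, (nat_lit 261), (nat_lit 4183), (nat_lit 4473), [(nat_lit 1527406), (nat_lit 1530591), (nat_lit 1538187), (nat_lit 1541422), (nat_lit 1765332), (nat_lit 1762489), (nat_lit 1776114), (nat_lit 1773320)]⟩, ⟨(nat_lit 4), true, false, true, (nat_lit 215), (nat_lit 4183), (nat_lit 4473), [(nat_lit 1345754), (nat_lit 1347076), (nat_lit 1410454), (nat_lit 1412076), (nat_lit 1668651), (nat_lit 1661790), (nat_lit 1733350), (nat_lit 1726790)]⟩, (nat_lit 5353361), (nat_lit 37161692), (nat_lit 17207907), (nat_lit 12630401),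 (nat_lit 4), (nat_lit 0), [⟨(nat_lit 0), (nat_lit 77), (nat_lit 77), (nat_lit 100), (nat_lit 423289381)⟩], [⟨(nat_lit 1), (nat_lit 83), (nat_lit 81), (nat_lit 100), (nat_lit 46566771)⟩], [], [],
 ⟨⟨[(nat_lit 40), (nat_lit 80), (nat_lit 100)], [(nat_lit 0), (nat_lit 0), (nat_lit 1280)], [((nat_lit 0), (nat_lit 0), (nat_lit 0)), ((nat_lit 0), (nat_lit 0), (nat_lit 0)), ((nat_lit 1000), (nat_lit 800), (nat_lit 600))], ((nat_lit 80), (nat_lit 100), (nat_lit 51))⟩, (nat_lit 1622120), (nat_lit 300), (nat_lit 352), (nat_lit 51421858), (nat_lit 802218), [(nat_lit 2056874276), (nat_lit 4113748594), (nat_lit 5138767406)], [(nat_lit 0), (nat_lit 0), (nat_lit 0)], [(nat_lit 26943923414), (nat_lit 27468784346), (nat_lit 29261365436), (nat_lit 29668075482), (nat_lit 31670351583), (nat_lit 32022760575), (nat_lit 33266755624), (nat_lit 32817010428)], (nat_lit 1271251), (nat_lit 1271251), (nat_lit 936250), (nat_lit 2108751), (nat_lit 1100000), (nat_lit 2726876),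 [(nat_lit 490000), (nat_lit 1100000), (nat_lit 1442501)], [(nat_lit 3), (nat_lit 50), (nat_lit 401), (nat_lit 175), (nat_lit 14)]⟩,
 ⟨⟨[(nat_lit 40), (nat_lit 80), (nat_lit 100)], [(nat_lit 0), (nat_lit 0), (nat_lit 1280)], [((nat_lit 0), (nat_lit 0), (nat_lit 0)), ((nat_lit 0), (nat_lit 0), (nat_lit 0)), ((nat_lit 1000), (nat_lit 800), (nat_lit 600))], ((nat_lit 80), (nat_lit 100), (nat_lit 51))⟩, (nat_lit 3994126), (nat_lit 132), (nat_lit 132), (nat_lit 0), (nat_lit 0), [(nat_lit 1910080000), (nat_lit 4406720000), (nat_lit 5875000000)], [], [(nat_lit 19603955665), (nat_lit 20432957708), (nat_lit 24616232190), (nat_lit 25290742742), (nat_lit 26602879657), (nat_lit 27077970159), (nat_lit 29138205123), (nat_lit 29516781935)], (nat_lit 0), (nat_lit 0), (nat_lit 0), (nat_lit 0), (nat_lit 0), (nat_lit 0), [], [(nat_lit 3), (nat_lit 50), (nat_lit 401), (nat_lit 175), (nat_lit 15)]⟩,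
 ⟨⟨[(nat_lit 140), (nat_lit 180), (nat_lit 200)], [(nat_lit 0), (nat_lit 0), (nat_lit 2835)], [((nat_lit 0), (nat_lit 0), (nat_lit 0)), ((nat_lit 0), (nat_lit 0), (nat_lit 0)), ((nat_lit 363), (nat_lit 1000), (nat_lit 798))], ((nat_lit 0), (nat_lit 0), (nat_lit 0))⟩, (nat_lit 1140954), (nat_lit 300), (nat_lit 462), (nat_lit 22570900), (nat_lit 0), [(nat_lit 2844338000), (nat_lit 4062762000), (nat_lit 4739600000)], [], [(nat_lit 19142911003), (nat_lit 18572472602), (nat_lit 19331425338), (nat_lit 18634654973), (nat_lit 15754759265), (nat_lit 15091465566), (nat_lit 15255398238), (nat_lit 14512955132)], (nat_lit 0), (nat_lit 0), (nat_lit 0), (nat_lit 0), (nat_lit 0), (nat_lit 0), [], [(nat_lit 32), (nat_lit 67), (nat_lit 456), (nat_lit 225), (nat_lit 10)]⟩⟩)) (.trZ (nat_lit 0) (nat_lit 1) (nat_lit 3) (nat_lit 82) (nat_lit 78) (nat_lit 100) (nat_lit 150) (.trX (nat_lit 4) (nat_lit 0) (nat_lit 2) (nat_lit 76) (nat_lit 73) (nat_lit 100) (nat_lit 340)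 (.leaf ⟨(nat_lit 0), (nat_lit 698), (nat_lit 0), (nat_lit 302), (nat_lit 0), (nat_lit 6581), (nat_lit 4185), (nat_lit 3576), (nat_lit 16739575471457), (nat_lit 0), (nat_lit 0), [], Pd.none, Pd.none, (nat_lit 0), (nat_lit 1), (nat_lit 0), (nat_lit 0), (nat_lit 4), (nat_lit 0), [⟨(nat_lit 0), (nat_lit 71), (nat_lit 71), (nat_lit 100), (nat_lit 490231440)⟩], [⟨(nat_lit 1), (nat_lit 87), (nat_lit 76), (nat_lit 100), (nat_lit 30130142)⟩], [], [⟨(nat_lit 0), (nat_lit 97), (nat_lit 100), (nat_lit 32), (nat_lit 284272)⟩],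
 ⟨⟨[(nat_lit 40), (nat_lit 80), (nat_lit 100)], [(nat_lit 0), (nat_lit 395), (nat_lit 1536)], [((nat_lit 0), (nat_lit 0), (nat_lit 0)), ((nat_lit 1000), (nat_lit 908), (nat_lit 154)), ((nat_lit 1000), (nat_lit 760), (nat_lit 642))], ((nat_lit 77), (nat_lit 100), (nat_lit 52))⟩, (nat_lit 4142993), (nat_lit 300), (nat_lit 385), (nat_lit 50800001), (nat_lit 898440), [(nat_lit 2032000001), (nat_lit 5009058538), (nat_lit 6250000000)], [], [(nat_lit 26790756710), (nat_lit 27280844146), (nat_lit 28737712639), (nat_lit 29121610736), (nat_lit 30515733058), (nat_lit 30851933857), (nat_lit 31258563779), (nat_lit 31519531132)], (nat_lit 1271251), (nat_lit 1271251), (nat_lit 1017188), (nat_lit 2118126), (nat_lit 1100000), (nat_lit 2641251), [(nat_lit 490000), (nat_lit 1100000), (nat_lit 1442501)], [(nat_lit 3), (nat_lit 50), (nat_lit 401), (nat_lit 175), (nat_lit 14)]⟩,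
 ⟨⟨[(nat_lit 40), (nat_lit 80), (nat_lit 100)], [(nat_lit 0), (nat_lit 0), (nat_lit 1280)], [((nat_lit 0), (nat_lit 0), (nat_lit 0)), ((nat_lit 0), (nat_lit 0), (nat_lit 0)), ((nat_lit 1000), (nat_lit 800), (nat_lit 600))], ((nat_lit 80), (nat_lit 100), (nat_lit 51))⟩, (nat_lit 3401566), (nat_lit 137), (nat_lit 137), (nat_lit 0), (nat_lit 0), [(nat_lit 2032000000), (nat_lit 4688000000), (nat_lit 6250000000)], [], [(nat_lit 21150825208), (nat_lit 22832609867), (nat_lit 26275869310), (nat_lit 27752110663), (nat_lit 28378796146), (nat_lit 29345250306), (nat_lit 30940201875), (nat_lit 31719567522)], (nat_lit 0), (nat_lit 0), (nat_lit 0), (nat_lit 0), (nat_lit 0), (nat_lit 0), [], [(nat_lit 3), (nat_lit 50), (nat_lit 401), (nat_lit 175), (nat_lit 15)]⟩,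
 ⟨⟨[(nat_lit 140), (nat_lit 180), (nat_lit 200)], [(nat_lit 0), (nat_lit 0), (nat_lit 2835)], [((nat_lit 0), (nat_lit 0), (nat_lit 0)), ((nat_lit 0), (nat_lit 0), (nat_lit 0)), ((nat_lit 363), (nat_lit 1000), (nat_lit 798))], ((nat_lit 0), (nat_lit 0), (nat_lit 0))⟩, (nat_lit 400291), (nat_lit 300), (nat_lit 462), (nat_lit 23586200), (nat_lit 0), [(nat_lit 2972284000), (nat_lit 4245516000), (nat_lit 4952800000)], [], [(nat_lit 20003885610), (nat_lit 19397706345), (nat_lit 20089887606), (nat_lit 19364519814), (nat_lit 16404853894), (nat_lit 15701070587), (nat_lit 15838700680), (nat_lit 15060210295)], (nat_lit 0), (nat_lit 0), (nat_lit 0), (nat_lit 0), (nat_lit 0), (nat_lit 0), [], [(nat_lit 32), (nat_lit 67), (nat_lit 456), (nat_lit 225), (nat_lit 10)]⟩⟩)))) (.leaf ⟨(nat_lit 0), (nat_lit 694), (nat_lit 0), (nat_lit 306), (nat_lit 0), (nat_lit 5896), (nat_lit 4161), (nat_lit 3592), (nat_lit 19975346842495), (nat_lit 0), (nat_lit 0), [], Pd.none,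 Pd.none, (nat_lit 0), (nat_lit 1), (nat_lit 0), (nat_lit 0), (nat_lit 4), (nat_lit 0), [⟨(nat_lit 0), (nat_lit 77), (nat_lit 77), (nat_lit 100), (nat_lit 368036295)⟩], [⟨(nat_lit 1), (nat_lit 85), (nat_lit 78), (nat_lit 100), (nat_lit 78898492)⟩], [], [],
 ⟨⟨[(nat_lit 40), (nat_lit 80), (nat_lit 120)], [(nat_lit 0), (nat_lit 0), (nat_lit 2151)], [((nat_lit 0), (nat_lit 0), (nat_lit 0)), ((nat_lit 0), (nat_lit 0), (nat_lit 0)), ((nat_lit 1000), (nat_lit 815), (nat_lit 753))], ((nat_lit 81), (nat_lit 100), (nat_lit 70))⟩, (nat_lit 1913584), (nat_lit 299), (nat_lit 299), (nat_lit 0), (nat_lit 575167), [(nat_lit 2032000150), (nat_lit 4688000026), (nat_lit 7968000000)], [], [(nat_lit 24391011338), (nat_lit 25592823350), (nat_lit 27315048052), (nat_lit 28251874268), (nat_lit 30062552552), (nat_lit 30874802363), (nat_lit 34098058814), (nat_lit 32423954313)], (nat_lit 1271251), (nat_lit 1271251), (nat_lit 936250), (nat_lit 2108751), (nat_lit 1100000),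 (nat_lit 2726876), [(nat_lit 490000), (nat_lit 1100000), (nat_lit 1785001)], [(nat_lit 4), (nat_lit 51), (nat_lit 401), (nat_lit 175), (nat_lit 12)]⟩,
 ⟨⟨[(nat_lit 40), (nat_lit 80), (nat_lit 120)], [(nat_lit 0), (nat_lit 0), (nat_lit 2151)], [((nat_lit 0), (nat_lit 0), (nat_lit 0)), ((nat_lit 0), (nat_lit 0), (nat_lit 0)), ((nat_lit 1000), (nat_lit 815), (nat_lit 753))], ((nat_lit 81), (nat_lit 100), (nat_lit 70))⟩, (nat_lit 2835283), (nat_lit 159), (nat_lit 159), (nat_lit 0), (nat_lit 0), [(nat_lit 2032000000), (nat_lit 4688000000), (nat_lit 7968000000)], [], [(nat_lit 21084729367), (nat_lit 22741459921), (nat_lit 26266323886), (nat_lit 27738125323), (nat_lit 28389964398), (nat_lit 29366008219), (nat_lit 30984494475), (nat_lit 31762264476)], (nat_lit 0), (nat_lit 0), (nat_lit 0), (nat_lit 0), (nat_lit 0), (nat_lit 0), [], [(nat_lit 4), (nat_lit 51), (nat_lit 401), (nat_lit 175), (nat_lit 13)]⟩,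
 ⟨⟨[(nat_lit 140), (nat_lit 180), (nat_lit 200)], [(nat_lit 0), (nat_lit 0), (nat_lit 2835)], [((nat_lit 0), (nat_lit 0), (nat_lit 0)), ((nat_lit 0), (nat_lit 0), (nat_lit 0)), ((nat_lit 363), (nat_lit 1000), (nat_lit 798))], ((nat_lit 0), (nat_lit 0), (nat_lit 0))⟩, (nat_lit 84191), (nat_lit 300), (nat_lit 462), (nat_lit 23898600), (nat_lit 0), [(nat_lit 3011652000), (nat_lit 4301748000), (nat_lit 5018400000)], [], [(nat_lit 20268939113), (nat_lit 19662894009), (nat_lit 20470978661), (nat_lit 19730918540), (nat_lit 16669585218), (nat_lit 15965106364), (nat_lit 16141913123), (nat_lit 15353474529)], (nat_lit 0), (nat_lit 0), (nat_lit 0), (nat_lit 0), (nat_lit 0), (nat_lit 0), [], [(nat_lit 32), (nat_lit 67), (nat_lit 456), (nat_lit 225), (nat_lit 10)]⟩⟩)) (.leaf ⟨(nat_lit 64), (nat_lit 665), (nat_lit 0), (nat_lit 271), (nat_lit 0), (nat_lit 6199), (nat_lit 5274), (nat_lit 3800), (nat_lit 19877846627534), (nat_lit 0), (nat_lit 256000), [((nat_lit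 340), [((nat_lit 37), (nat_lit 5), (nat_lit 64))])], ⟨(nat_lit 8), true, false, true, (nat_lit 349), (nat_lit 3872), (nat_lit 4473), [(nat_lit 1765265), (nat_lit 1759713), (nat_lit 1786814), (nat_lit 1781488), (nat_lit 1969223), (nat_lit 1953301), (nat_lit 1990771), (nat_lit 1975076)]⟩, ⟨(nat_lit 4), true, false, true, (nat_lit 215), (nat_lit 3872), (nat_lit 4473), [(nat_lit 1345754), (nat_lit 1348304), (nat_lit 1410454), (nat_lit 1413684), (nat_lit 1668651), (nat_lit 1654781), (nat_lit 1733350), (nat_lit 1720161)]⟩, (nat_lit 5507962), (nat_lit 31439824), (nat_lit 24517143), (nat_lit 11043033), (nat_lit 4), (nat_lit 0), [], [], [], [⟨(nat_lit 0), (nat_lit 100), (nat_lit 74), (nat_lit 90), (nat_lit 56835075)⟩],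
 ⟨⟨[(nat_lit 40), (nat_lit 80), (nat_lit 120)], [(nat_lit 0), (nat_lit 0), (nat_lit 2151)], [((nat_lit 0), (nat_lit 0), (nat_lit 0)), ((nat_lit 0), (nat_lit 0), (nat_lit 0)), ((nat_lit 1000), (nat_lit 815), (nat_lit 753))], ((nat_lit 81), (nat_lit 100), (nat_lit 70))⟩, (nat_lit 1882614), (nat_lit 300), (nat_lit 430), (nat_lit 51073315), (nat_lit 911216), [(nat_lit 2042932557), (nat_lit 4085865154), (nat_lit 6045075349)], [(nat_lit 0), (nat_lit 0), (nat_lit 0)], [(nat_lit 33917744031), (nat_lit 34539596233), (nat_lit 36973237277), (nat_lit 37453990621), (nat_lit 36064905610), (nat_lit 36475104082), (nat_lit 38246075913), (nat_lit 38579757455)], (nat_lit 1271251), (nat_lit 1271251), (nat_lit 1271251), (nat_lit 1271251), (nat_lit 1100000), (nat_lit 2726876), [(nat_lit 490000), (nat_lit 1100000), (nat_lit 1785001)], [(nat_lit 4), (nat_lit 51), (nat_lit 317), (nat_lit 100), (nat_lit 9)]⟩,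
 ⟨⟨[(nat_lit 40), (nat_lit 80), (nat_lit 120)], [(nat_lit 0), (nat_lit 0), (nat_lit 2151)], [((nat_lit 0), (nat_lit 0), (nat_lit 0)), ((nat_lit 0), (nat_lit 0), (nat_lit 0)), ((nat_lit 1000), (nat_lit 815), (nat_lit 753))], ((nat_lit 81), (nat_lit 100), (nat_lit 70))⟩, (nat_lit 2588165), (nat_lit 193), (nat_lit 193), (nat_lit 0), (nat_lit 0), [(nat_lit 1901952000), (nat_lit 4387968000), (nat_lit 7458048000)], [], [(nat_lit 26274263148), (nat_lit 27658427544), (nat_lit 34667611344), (nat_lit 35961924132), (nat_lit 29076735564), (nat_lit 29860431898), (nat_lit 33432874839), (nat_lit 34182472059)], (nat_lit 0), (nat_lit 0), (nat_lit 0), (nat_lit 0), (nat_lit 0), (nat_lit 0), [], [(nat_lit 4), (nat_lit 51), (nat_lit 317), (nat_lit 100), (nat_lit 10)]⟩,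
 ⟨⟨[(nat_lit 140), (nat_lit 180), (nat_lit 200)], [(nat_lit 0), (nat_lit 0), (nat_lit 2835)], [((nat_lit 0), (nat_lit 0), (nat_lit 0)), ((nat_lit 0), (nat_lit 0), (nat_lit 0)), ((nat_lit 363), (nat_lit 1000), (nat_lit 798))], ((nat_lit 0), (nat_lit 0), (nat_lit 0))⟩, (nat_lit 814391), (nat_lit 300), (nat_lit 462), (nat_lit 21165100), (nat_lit 0), [(nat_lit 2667182000), (nat_lit 3809718000), (nat_lit 4444400000)], [], [(nat_lit 17955799212), (nat_lit 17302089392), (nat_lit 18318789340), (nat_lit 17482545572), (nat_lit 14081973765), (nat_lit 13311214229), (nat_lit 13442872505), (nat_lit 12562284064)], (nat_lit 0), (nat_lit 0), (nat_lit 0), (nat_lit 0), (nat_lit 0), (nat_lit 0), [], [(nat_lit 32), (nat_lit 67), (nat_lit 456), (nat_lit 225), (nat_lit 10)]⟩⟩)) (.spl (nat_lit 5) (nat_lit 120) (.leaf ⟨(nat_lit 0), (nat_lit 820), (nat_lit 0), (nat_lit 180), (nat_lit 0), (nat_lit 6456), (nat_lit 6376), (nat_lit 2105), (nat_lit 3167398), (nat_lit 0), (nat_lit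 0), [], Pd.none, Pd.none, (nat_lit 0), (nat_lit 1), (nat_lit 0), (nat_lit 0), (nat_lit 4), (nat_lit 0), [⟨(nat_lit 0), (nat_lit 77), (nat_lit 77), (nat_lit 100), (nat_lit 115256349)⟩], [⟨(nat_lit 1), (nat_lit 85), (nat_lit 78), (nat_lit 100), (nat_lit 279999585)⟩], [⟨(nat_lit 0), (nat_lit 100), (nat_lit 78), (nat_lit 45), (nat_lit 55388438)⟩, ⟨(nat_lit 0), (nat_lit 100), (nat_lit 87), (nat_lit 25), (nat_lit 124504281)⟩], [],
 ⟨⟨[(nat_lit 40), (nat_lit 80), (nat_lit 120)], [(nat_lit 0), (nat_lit 0), (nat_lit 2151)], [((nat_lit 0), (nat_lit 0), (nat_lit 0)), ((nat_lit 0), (nat_lit 0), (nat_lit 0)), ((nat_lit 1000), (nat_lit 815), (nat_lit 753))], ((nat_lit 81), (nat_lit 100), (nat_lit 70))⟩, (nat_lit 3086836), (nat_lit 277), (nat_lit 277), (nat_lit 0), (nat_lit 493395), [(nat_lit 2032001551), (nat_lit 4688000089), (nat_lit 7968000000)], [], [(nat_lit 21628884827), (nat_lit 23100151923), (nat_lit 32012378144), (nat_lit 33315049392), (nat_lit 29355474707),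 (nat_lit 29614957241), (nat_lit 36771365784), (nat_lit 37613988208)], (nat_lit 1271251), (nat_lit 1271251), (nat_lit 1271251), (nat_lit 1271251), (nat_lit 1100000), (nat_lit 2726876), [(nat_lit 490000), (nat_lit 1100000), (nat_lit 1785001)], [(nat_lit 4), (nat_lit 51), (nat_lit 428), (nat_lit 200), (nat_lit 13)]⟩,
 ⟨⟨[(nat_lit 40), (nat_lit 80), (nat_lit 120)], [(nat_lit 0), (nat_lit 0), (nat_lit 2151)], [((nat_lit 0), (nat_lit 0), (nat_lit 0)), ((nat_lit 0), (nat_lit 0), (nat_lit 0)), ((nat_lit 1000), (nat_lit 815), (nat_lit 753))], ((nat_lit 81), (nat_lit 100), (nat_lit 70))⟩, (nat_lit 2299442), (nat_lit 498), (nat_lit 498), (nat_lit 0), (nat_lit 759329), [(nat_lit 2032000000), (nat_lit 4688000000), (nat_lit 7968000000)], [], [(nat_lit 29054879992), (nat_lit 30271787344), (nat_lit 39112244736), (nat_lit 40590940816), (nat_lit 26906836836), (nat_lit 27975531071), (nat_lit 38067968146), (nat_lit 35339492842)], (nat_lit 1271251), (nat_lit 1271251),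 (nat_lit 936250), (nat_lit 3113751), (nat_lit 0), (nat_lit 780000), [(nat_lit 490000), (nat_lit 1100000), (nat_lit 1785001)], [(nat_lit 4), (nat_lit 51), (nat_lit 373), (nat_lit 150), (nat_lit 12)]⟩,
 ⟨⟨[(nat_lit 140), (nat_lit 180), (nat_lit 200)], [(nat_lit 0), (nat_lit 0), (nat_lit 2835)], [((nat_lit 0), (nat_lit 0), (nat_lit 0)), ((nat_lit 0), (nat_lit 0), (nat_lit 0)), ((nat_lit 363), (nat_lit 1000), (nat_lit 798))], ((nat_lit 0), (nat_lit 0), (nat_lit 0))⟩, (nat_lit 49524), (nat_lit 300), (nat_lit 462), (nat_lit 14058000), (nat_lit 0), [(nat_lit 1771560000), (nat_lit 2530440000), (nat_lit 2952000000)], [], [(nat_lit 11922931029), (nat_lit 11568500722), (nat_lit 12039323508), (nat_lit 11606314477), (nat_lit 10115217708), (nat_lit 9788649657), (nat_lit 10196168538), (nat_lit 9782258852)], (nat_lit 0), (nat_lit 0), (nat_lit 0), (nat_lit 0), (nat_lit 0), (nat_lit 0), [], [(nat_lit 32), (nat_lit 67), (nat_lit 401), (nat_lit 175), (nat_lit 9)]⟩⟩)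 (.leaf ⟨(nat_lit 0), (nat_lit 0), (nat_lit 0), (nat_lit 1000), (nat_lit 0), (nat_lit 7880), (nat_lit 5906), (nat_lit 17199), (nat_lit 55415), (nat_lit 0), (nat_lit 0), [], Pd.none, Pd.none, (nat_lit 0), (nat_lit 1), (nat_lit 0), (nat_lit 0), (nat_lit 0), (nat_lit 0), [⟨(nat_lit 0), (nat_lit 71), (nat_lit 71), (nat_lit 100), (nat_lit 265392477)⟩], [], [], [],
 ⟨⟨[(nat_lit 40), (nat_lit 80), (nat_lit 120)], [(nat_lit 0), (nat_lit 0), (nat_lit 2151)], [((nat_lit 0), (nat_lit 0), (nat_lit 0)), ((nat_lit 0), (nat_lit 0), (nat_lit 0)), ((nat_lit 1000), (nat_lit 815), (nat_lit 753))], ((nat_lit 81), (nat_lit 100), (nat_lit 70))⟩, (nat_lit 1451420), (nat_lit 277), (nat_lit 277), (nat_lit 0), (nat_lit 493395), [(nat_lit 2032000179), (nat_lit 4688000007), (nat_lit 7968000000)], [], [(nat_lit 20028158074), (nat_lit 21455107804), (nat_lit 33807649120), (nat_lit 35264622160), (nat_lit 32374257919), (nat_lit 31197696128), (nat_lit 38596010320), (nat_lit 39511048840)],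 (nat_lit 1271251), (nat_lit 1271251), (nat_lit 1271251), (nat_lit 1271251), (nat_lit 1100000), (nat_lit 2726876), [(nat_lit 490000), (nat_lit 1100000), (nat_lit 1785001)], [(nat_lit 4), (nat_lit 51), (nat_lit 428), (nat_lit 200), (nat_lit 13)]⟩,
 ⟨⟨[(nat_lit 40), (nat_lit 80), (nat_lit 120)], [(nat_lit 0), (nat_lit 0), (nat_lit 2151)], [((nat_lit 0), (nat_lit 0), (nat_lit 0)), ((nat_lit 0), (nat_lit 0), (nat_lit 0)), ((nat_lit 1000), (nat_lit 815), (nat_lit 753))], ((nat_lit 81), (nat_lit 100), (nat_lit 70))⟩, (nat_lit 1651249), (nat_lit 485), (nat_lit 485), (nat_lit 0), (nat_lit 911216), [(nat_lit 2032000000), (nat_lit 4688000000), (nat_lit 7968000000)], [], [(nat_lit 30637398899), (nat_lit 30994919007), (nat_lit 35582309885), (nat_lit 36101268829), (nat_lit 33816095980), (nat_lit 34396535022), (nat_lit 44751783479), (nat_lit 42277348874)], (nat_lit 1271251), (nat_lit 1271251), (nat_lit 936250), (nat_lit 3113751), (nat_lit 780000), (nat_lit 2663126),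 [(nat_lit 490000), (nat_lit 1100000), (nat_lit 1785001)], [(nat_lit 4), (nat_lit 51), (nat_lit 428), (nat_lit 200), (nat_lit 13)]⟩,
 ⟨⟨[(nat_lit 140), (nat_lit 180), (nat_lit 200)], [(nat_lit 0), (nat_lit 0), (nat_lit 2835)], [((nat_lit 0), (nat_lit 0), (nat_lit 0)), ((nat_lit 0), (nat_lit 0), (nat_lit 0)), ((nat_lit 363), (nat_lit 1000), (nat_lit 798))], ((nat_lit 0), (nat_lit 0), (nat_lit 0))⟩, (nat_lit 3980562), (nat_lit 267), (nat_lit 267), (nat_lit 0), (nat_lit 0), [(nat_lit 9842000000), (nat_lit 14058000000), (nat_lit 16400000000)], [], [(nat_lit 27387092612), (nat_lit 26516718176), (nat_lit 42021765139), (nat_lit 40030574694), (nat_lit 39367649183), (nat_lit 37341860418), (nat_lit 44816749056), (nat_lit 41590290178)], (nat_lit 0), (nat_lit 0), (nat_lit 0), (nat_lit 0), (nat_lit 0), (nat_lit 0), [], [(nat_lit 32), (nat_lit 67), (nat_lit 456), (nat_lit 225), (nat_lit 10)]⟩⟩)))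
noncomputable def c12_4 : Tr Lf :=
 (.spl (nat_lit 6) (nat_lit 28) (.spl (nat_lit 6) (nat_lit 16) (.leaf ⟨(nat_lit 0), (nat_lit 1000), (nat_lit 0), (nat_lit 0), (nat_lit 0), (nat_lit 5414), (nat_lit 6195), (nat_lit 0), (nat_lit 930762080334), (nat_lit 0), (nat_lit 0), [], Pd.none, Pd.none, (nat_lit 0), (nat_lit 1), (nat_lit 0), (nat_lit 0), (nat_lit 4), (nat_lit 0), [], [⟨(nat_lit 1), (nat_lit 68), (nat_lit 80), (nat_lit 100), (nat_lit 430722783)⟩], [], [],
 ⟨⟨[(nat_lit 40), (nat_lit 60), (nat_lit 80)], [(nat_lit 0), (nat_lit 0), (nat_lit 615)], [((nat_lit 0), (nat_lit 0), (nat_lit 0)), ((nat_lit 0), (nat_lit 0), (nat_lit 0)), ((nat_lit 1000), (nat_lit 819), (nat_lit 426))], ((nat_lit 82), (nat_lit 100), (nat_lit 40))⟩, (nat_lit 1176478), (nat_lit 298), (nat_lit 298), (nat_lit 0), (nat_lit 747701), [(nat_lit 2032000069), (nat_lit 3282000014), (nat_lit 4688000000)], [], [(nat_lit 21905029207), (nat_lit 23139266005), (nat_lit 30698703736), (nat_lit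 31888465948), (nat_lit 29183767389), (nat_lit 29062186258), (nat_lit 35436197521), (nat_lit 36225830077)], (nat_lit 1271251), (nat_lit 1271251), (nat_lit 1271251), (nat_lit 1271251), (nat_lit 1100000), (nat_lit 2726876), [(nat_lit 490000), (nat_lit 780000), (nat_lit 1100000)], [(nat_lit 2), (nat_lit 44), (nat_lit 317), (nat_lit 100), (nat_lit 13)]⟩,
 ⟨⟨[(nat_lit 40), (nat_lit 60), (nat_lit 80)], [(nat_lit 0), (nat_lit 0), (nat_lit 615)], [((nat_lit 0), (nat_lit 0), (nat_lit 0)), ((nat_lit 0), (nat_lit 0), (nat_lit 0)), ((nat_lit 1000), (nat_lit 819), (nat_lit 426))], ((nat_lit 82), (nat_lit 100), (nat_lit 40))⟩, (nat_lit 5818101), (nat_lit 378), (nat_lit 378), (nat_lit 0), (nat_lit 747701), [(nat_lit 2032000000), (nat_lit 3282000000), (nat_lit 4688000000)], [], [(nat_lit 23128590870), (nat_lit 24008100405), (nat_lit 38605854520), (nat_lit 40061141870), (nat_lit 19608953145), (nat_lit 20763901009), (nat_lit 35510276005), (nat_lit 32957718990)],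 (nat_lit 1271251), (nat_lit 1271251), (nat_lit 936250), (nat_lit 3113751), (nat_lit 0), (nat_lit 1100000), [(nat_lit 490000), (nat_lit 780000), (nat_lit 1100000)], [(nat_lit 2), (nat_lit 44), (nat_lit 373), (nat_lit 150), (nat_lit 17)]⟩,
 Rw.none⟩) (.leaf ⟨(nat_lit 0), (nat_lit 1000), (nat_lit 0), (nat_lit 0), (nat_lit 0), (nat_lit 6561), (nat_lit 6750), (nat_lit 0), (nat_lit 807283), (nat_lit 0), (nat_lit 0), [], Pd.none, Pd.none, (nat_lit 0), (nat_lit 1), (nat_lit 0), (nat_lit 0), (nat_lit 4), (nat_lit 0), [⟨(nat_lit 0), (nat_lit 77), (nat_lit 77), (nat_lit 100), (nat_lit 29537155)⟩], [⟨(nat_lit 1), (nat_lit 85), (nat_lit 78), (nat_lit 100), (nat_lit 440340723)⟩], [], [],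
 ⟨⟨[(nat_lit 40), (nat_lit 80), (nat_lit 100)], [(nat_lit 0), (nat_lit 0), (nat_lit 1280)], [((nat_lit 0), (nat_lit 0), (nat_lit 0)), ((nat_lit 0), (nat_lit 0), (nat_lit 0)), ((nat_lit 1000), (nat_lit 800), (nat_lit 600))], ((nat_lit 80), (nat_lit 100), (nat_lit 51))⟩, (nat_lit 1094190), (nat_lit 274), (nat_lit 274), (nat_lit 0), (nat_lit 579910), [(nat_lit 2032000369), (nat_lit 4688000048), (nat_lit 6250000000)], [], [(nat_lit 22363626227), (nat_lit 23749342401), (nat_lit 32144754164), (nat_lit 33458803002), (nat_lit 28812854044), (nat_lit 29731662004), (nat_lit 36905907692), (nat_lit 37753869786)], (nat_lit 1271251), (nat_lit 1271251), (nat_lit 1271251), (nat_lit 1271251), (nat_lit 1100000), (nat_lit 2726876), [(nat_lit 490000), (nat_lit 1100000), (nat_lit 1442501)], [(nat_lit 3), (nat_lit 50), (nat_lit 428), (nat_lit 200), (nat_lit 16)]⟩,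
 ⟨⟨[(nat_lit 40), (nat_lit 80), (nat_lit 100)], [(nat_lit 0), (nat_lit 0), (nat_lit 1280)], [((nat_lit 0), (nat_lit 0), (nat_lit 0)), ((nat_lit 0), (nat_lit 0), (nat_lit 0)), ((nat_lit 1000), (nat_lit 800), (nat_lit 600))], ((nat_lit 80), (nat_lit 100), (nat_lit 51))⟩, (nat_lit 1678767), (nat_lit 365), (nat_lit 365), (nat_lit 0), (nat_lit 579910), [(nat_lit 2032000000), (nat_lit 4688000000), (nat_lit 6250000000)], [], [(nat_lit 29035988500), (nat_lit 27194838303), (nat_lit 40158598000), (nat_lit 41685663500), (nat_lit 23135325490), (nat_lit 24308681188), (nat_lit 38183941240), (nat_lit 35295872740)], (nat_lit 1271251), (nat_lit 1271251), (nat_lit 936250), (nat_lit 3113751), (nat_lit 0), (nat_lit 1100000), [(nat_lit 490000), (nat_lit 1100000), (nat_lit 1442501)], [(nat_lit 3), (nat_lit 50), (nat_lit 373), (nat_lit 150), (nat_lit 14)]⟩,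
 Rw.none⟩)) (.spl (nat_lit 2) (nat_lit 160) (.trX (nat_lit 4) (nat_lit 0) (nat_lit 2) (nat_lit 82) (nat_lit 76) (nat_lit 100) (nat_lit 340) (.leaf ⟨(nat_lit 0), (nat_lit 1000), (nat_lit 0), (nat_lit 0), (nat_lit 0), (nat_lit 5785), (nat_lit 6618), (nat_lit 0), (nat_lit 15833149), (nat_lit 0), (nat_lit 0), [], Pd.none, Pd.none, (nat_lit 0), (nat_lit 1), (nat_lit 0), (nat_lit 0), (nat_lit 4), (nat_lit 0), [], [⟨(nat_lit 1), (nat_lit 76), (nat_lit 82), (nat_lit 100), (nat_lit 380800682)⟩], [], [],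
 ⟨⟨[(nat_lit 40), (nat_lit 80), (nat_lit 120)], [(nat_lit 0), (nat_lit 0), (nat_lit 2151)], [((nat_lit 0), (nat_lit 0), (nat_lit 0)), ((nat_lit 0), (nat_lit 0), (nat_lit 0)), ((nat_lit 1000), (nat_lit 815), (nat_lit 753))], ((nat_lit 81), (nat_lit 100), (nat_lit 70))⟩, (nat_lit 1982847), (nat_lit 273), (nat_lit 273), (nat_lit 0), (nat_lit 480651), [(nat_lit 2032000634), (nat_lit 4688001452), (nat_lit 7968000000)], [], [(nat_lit 24535180117), (nat_lit 25730954977), (nat_lit 32539372676), (nat_lit 33320367171), (nat_lit 30968663087), (nat_lit 30654096380), (nat_lit 35470701025), (nat_lit 36303619220)], (nat_lit 1271251), (nat_lit 1271251), (nat_lit 1271251), (nat_lit 1271251), (nat_lit 1100000), (nat_lit 2641251), [(nat_lit 490000), (nat_lit 1100000), (nat_lit 1785001)], [(nat_lit 4), (nat_lit 51), (nat_lit 428), (nat_lit 200), (nat_lit 13)]⟩,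
 ⟨⟨[(nat_lit 40), (nat_lit 80), (nat_lit 120)], [(nat_lit 0), (nat_lit 0), (nat_lit 2151)], [((nat_lit 0), (nat_lit 0), (nat_lit 0)), ((nat_lit 0), (nat_lit 0), (nat_lit 0)), ((nat_lit 1000), (nat_lit 815), (nat_lit 753))], ((nat_lit 81), (nat_lit 100), (nat_lit 70))⟩, (nat_lit 2163411), (nat_lit 377), (nat_lit 377), (nat_lit 0), (nat_lit 480651), [(nat_lit 2032000000), (nat_lit 4688000000), (nat_lit 7968000000)], [], [(nat_lit 29042638396), (nat_lit 27875914445), (nat_lit 39789296848), (nat_lit 41299290788), (nat_lit 23806244843), (nat_lit 24881478991), (nat_lit 42229763699), (nat_lit 39432341717)], (nat_lit 1271251), (nat_lit 1271251), (nat_lit 936250), (nat_lit 3113751), (nat_lit 0), (nat_lit 1100000), [(nat_lit 490000), (nat_lit 1100000), (nat_lit 1785001)], [(nat_lit 4), (nat_lit 51), (nat_lit 373), (nat_lit 150), (nat_lit 12)]⟩,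
 Rw.none⟩)) (.trZ (nat_lit 1) (nat_lit 2) (nat_lit 5) (nat_lit 100) (nat_lit 82) (nat_lit 44) (nat_lit 10) (.leaf ⟨(nat_lit 0), (nat_lit 857), (nat_lit 0), (nat_lit 143), (nat_lit 0), (nat_lit 5373), (nat_lit 7217), (nat_lit 1516), (nat_lit 16280), (nat_lit 0), (nat_lit 0), [], Pd.none, Pd.none, (nat_lit 0), (nat_lit 1), (nat_lit 0), (nat_lit 0), (nat_lit 4), (nat_lit 0), [], [⟨(nat_lit 1), (nat_lit 77), (nat_lit 77), (nat_lit 100), (nat_lit 271273159)⟩], [], [⟨(nat_lit 0), (nat_lit 100), (nat_lit 97), (nat_lit 62), (nat_lit 51672808)⟩],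
 ⟨⟨[(nat_lit 40), (nat_lit 80), (nat_lit 120)], [(nat_lit 0), (nat_lit 0), (nat_lit 2151)], [((nat_lit 0), (nat_lit 0), (nat_lit 0)), ((nat_lit 0), (nat_lit 0), (nat_lit 0)), ((nat_lit 1000), (nat_lit 815), (nat_lit 753))], ((nat_lit 81), (nat_lit 100), (nat_lit 70))⟩, (nat_lit 2008741), (nat_lit 238), (nat_lit 238), (nat_lit 0), (nat_lit 368783), [(nat_lit 2032000002), (nat_lit 4688000002), (nat_lit 7968000000)], [], [(nat_lit 22799853007), (nat_lit 24166090528), (nat_lit 31939941304), (nat_lit 32825922529), (nat_lit 32053958197), (nat_lit 30337228656), (nat_lit 35571632821), (nat_lit 36171824277)], (nat_lit 1271251), (nat_lit 1271251), (nat_lit 1271251), (nat_lit 1271251), (nat_lit 1100000), (nat_lit 2726876), [(nat_lit 490000), (nat_lit 1100000), (nat_lit 1785001)], [(nat_lit 4), (nat_lit 51), (nat_lit 428), (nat_lit 200), (nat_lit 13)]⟩,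
 ⟨⟨[(nat_lit 40), (nat_lit 80), (nat_lit 120)], [(nat_lit 0), (nat_lit 0), (nat_lit 2151)], [((nat_lit 0), (nat_lit 0), (nat_lit 0)), ((nat_lit 0), (nat_lit 0), (nat_lit 0)), ((nat_lit 1000), (nat_lit 815), (nat_lit 753))], ((nat_lit 81), (nat_lit 100), (nat_lit 70))⟩, (nat_lit 1743490), (nat_lit 314), (nat_lit 314), (nat_lit 0), (nat_lit 368783), [(nat_lit 2032000000), (nat_lit 4688000000), (nat_lit 7968000000)], [], [(nat_lit 27160678106), (nat_lit 25902107321), (nat_lit 40636470561), (nat_lit 42217042309), (nat_lit 21187995992), (nat_lit 22541786324), (nat_lit 43013105950), (nat_lit 39962487267)], (nat_lit 1271251), (nat_lit 1271251), (nat_lit 936250), (nat_lit 3113751), (nat_lit 54688), (nat_lit 1100000), [(nat_lit 490000), (nat_lit 1100000), (nat_lit 1785001)], [(nat_lit 4), (nat_lit 51), (nat_lit 373), (nat_lit 150), (nat_lit 12)]⟩,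
 ⟨⟨[(nat_lit 120), (nat_lit 160), (nat_lit 200)], [(nat_lit 0), (nat_lit 0), (nat_lit 3198)], [((nat_lit 0), (nat_lit 0), (nat_lit 0)), ((nat_lit 0), (nat_lit 0), (nat_lit 0)), ((nat_lit 572), (nat_lit 1000), (nat_lit 714))], ((nat_lit 0), (nat_lit 0), (nat_lit 0))⟩, (nat_lit 69756), (nat_lit 300), (nat_lit 1460), (nat_lit 10610602), (nat_lit 2208322), [(nat_lit 1139424000), (nat_lit 1697696000), (nat_lit 2345200000)], [], [(nat_lit 10290150483), (nat_lit 10189899719), (nat_lit 9571270755), (nat_lit 9471171707), (nat_lit 9192036008), (nat_lit 9094142632), (nat_lit 10212150404), (nat_lit 10664198665)], (nat_lit 1100000), (nat_lit 1271251), (nat_lit 1100000), (nat_lit 2726876), (nat_lit 54688), (nat_lit 1100000), [(nat_lit 1695001), (nat_lit 1271251), (nat_lit 1271251)], [(nat_lit 29), (nat_lit 66), (nat_lit 452), (nat_lit 175), (nat_lit 10)]⟩⟩))))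
noncomputable def c12_5 : Tr Lf :=
 (.spl (nat_lit 3) (nat_lit 280) (.spl (nat_lit 4) (nat_lit 240) (.leaf ⟨(nat_lit 0), (nat_lit 1000), (nat_lit 0), (nat_lit 0), (nat_lit 0), (nat_lit 6056), (nat_lit 5553), (nat_lit 0), (nat_lit 1268629), (nat_lit 0), (nat_lit 0), [], Pd.none, Pd.none, (nat_lit 0), (nat_lit 1), (nat_lit 0), (nat_lit 0), (nat_lit 4), (nat_lit 0), [⟨(nat_lit 0), (nat_lit 77), (nat_lit 77), (nat_lit 100), (nat_lit 323740562)⟩], [], [⟨(nat_lit 1), (nat_lit 76), (nat_lit 82), (nat_lit 100), (nat_lit 463316053)⟩], [],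
 ⟨⟨[(nat_lit 40), (nat_lit 60), (nat_lit 80)], [(nat_lit 0), (nat_lit 0), (nat_lit 615)], [((nat_lit 0), (nat_lit 0), (nat_lit 0)), ((nat_lit 0), (nat_lit 0), (nat_lit 0)), ((nat_lit 1000), (nat_lit 819), (nat_lit 426))], ((nat_lit 82), (nat_lit 100), (nat_lit 40))⟩, (nat_lit 2722556), (nat_lit 273), (nat_lit 273), (nat_lit 0), (nat_lit 747701), [(nat_lit 2049167043), (nat_lit 3282000090), (nat_lit 4688000000)], [], [(nat_lit 18509814237), (nat_lit 19823406729), (nat_lit 22332014656), (nat_lit 24154384460), (nat_lit 20533081098), (nat_lit 21756642558), (nat_lit 24585132752), (nat_lit 26148295924)], (nat_lit 1271251), (nat_lit 1271251), (nat_lit 936250), (nat_lit 2108751), (nat_lit 1100000), (nat_lit 1785001), [(nat_lit 490000), (nat_lit 780000), (nat_lit 1100000)], [(nat_lit 2), (nat_lit 44), (nat_lit 289), (nat_lit 75), (nat_lit 12)]⟩,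
 ⟨⟨[(nat_lit 40), (nat_lit 60), (nat_lit 80)], [(nat_lit 0), (nat_lit 0), (nat_lit 615)], [((nat_lit 0), (nat_lit 0), (nat_lit 0)), ((nat_lit 0), (nat_lit 0), (nat_lit 0)), ((nat_lit 1000), (nat_lit 819), (nat_lit 426))], ((nat_lit 82), (nat_lit 100), (nat_lit 40))⟩, (nat_lit 4403743), (nat_lit 290), (nat_lit 290), (nat_lit 0), (nat_lit 747701), [(nat_lit 2032000000), (nat_lit 3282000000), (nat_lit 4688000000)], [], [(nat_lit 20164734438), (nat_lit 21491201353), (nat_lit 23937628442), (nat_lit 24971143108), (nat_lit 26458755676), (nat_lit 27858086601), (nat_lit 29592031026), (nat_lit 30576787717)], (nat_lit 1271251), (nat_lit 1271251), (nat_lit 936250), (nat_lit 2108751), (nat_lit 1100000), (nat_lit 2641251), [(nat_lit 490000), (nat_lit 780000), (nat_lit 1100000)], [(nat_lit 2), (nat_lit 44), (nat_lit 289), (nat_lit 75), (nat_lit 12)]⟩,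
 Rw.none⟩) (.spl (nat_lit 4) (nat_lit 280) (.leaf ⟨(nat_lit 0), (nat_lit 1000), (nat_lit 0), (nat_lit 0), (nat_lit 0), (nat_lit 5812), (nat_lit 5575), (nat_lit 0), (nat_lit 17453), (nat_lit 0), (nat_lit 0), [], Pd.none, Pd.none, (nat_lit 0), (nat_lit 1), (nat_lit 0), (nat_lit 0), (nat_lit 6), (nat_lit 0), [⟨(nat_lit 0), (nat_lit 77), (nat_lit 77), (nat_lit 100), (nat_lit 368178840)⟩], [], [⟨(nat_lit 1), (nat_lit 76), (nat_lit 82), (nat_lit 100), (nat_lit 448165641)⟩], [],
 ⟨⟨[(nat_lit 40), (nat_lit 60), (nat_lit 80)], [(nat_lit 0), (nat_lit 0), (nat_lit 615)], [((nat_lit 0), (nat_lit 0), (nat_lit 0)), ((nat_lit 0), (nat_lit 0), (nat_lit 0)), ((nat_lit 1000), (nat_lit 819), (nat_lit 426))], ((nat_lit 82), (nat_lit 100), (nat_lit 40))⟩, (nat_lit 2603128), (nat_lit 279), (nat_lit 279), (nat_lit 0), (nat_lit 747701), [(nat_lit 2045841214), (nat_lit 3282000002), (nat_lit 4688000000)], [], [(nat_lit 21508131556), (nat_lit 22623616344), (nat_lit 24530830640),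 (nat_lit 26008159648), (nat_lit 23010050480), (nat_lit 24111048400), (nat_lit 26428843244), (nat_lit 27818917574)], (nat_lit 1271251), (nat_lit 1271251), (nat_lit 936250), (nat_lit 2108751), (nat_lit 1271251), (nat_lit 1271251), [(nat_lit 490000), (nat_lit 780000), (nat_lit 1100000)], [(nat_lit 2), (nat_lit 44), (nat_lit 289), (nat_lit 75), (nat_lit 12)]⟩,
 ⟨⟨[(nat_lit 40), (nat_lit 60), (nat_lit 80)], [(nat_lit 0), (nat_lit 0), (nat_lit 615)], [((nat_lit 0), (nat_lit 0), (nat_lit 0)), ((nat_lit 0), (nat_lit 0), (nat_lit 0)), ((nat_lit 1000), (nat_lit 819), (nat_lit 426))], ((nat_lit 82), (nat_lit 100), (nat_lit 40))⟩, (nat_lit 4554041), (nat_lit 290), (nat_lit 290), (nat_lit 0), (nat_lit 747701), [(nat_lit 2032000000), (nat_lit 3282000000), (nat_lit 4688000000)], [], [(nat_lit 20081641450), (nat_lit 21411060688), (nat_lit 23856798550), (nat_lit 24892346313), (nat_lit 26396147900), (nat_lit 27880865541), (nat_lit 29478383310), (nat_lit 30596939288)],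 (nat_lit 1271251), (nat_lit 1271251), (nat_lit 936250), (nat_lit 2108751), (nat_lit 1100000), (nat_lit 2641251), [(nat_lit 490000), (nat_lit 780000), (nat_lit 1100000)], [(nat_lit 2), (nat_lit 44), (nat_lit 289), (nat_lit 75), (nat_lit 12)]⟩,
 Rw.none⟩) (.spl (nat_lit 3) (nat_lit 200) (.stt (nat_lit 2) (.spl (nat_lit 4) (nat_lit 320) (.leaf ⟨(nat_lit 0), (nat_lit 1000), (nat_lit 0), (nat_lit 0), (nat_lit 0), (nat_lit 5733), (nat_lit 4766), (nat_lit 0), (nat_lit 1031858638316), (nat_lit 0), (nat_lit 0), [], Pd.none, Pd.none, (nat_lit 0), (nat_lit 1), (nat_lit 0), (nat_lit 0), (nat_lit 7), (nat_lit 0), [⟨(nat_lit 0), (nat_lit 83), (nat_lit 83), (nat_lit 100), (nat_lit 476415749)⟩], [], [⟨(nat_lit 1), (nat_lit 76), (nat_lit 82), (nat_lit 100), (nat_lit 424894768)⟩], [⟨(nat_lit 2), (nat_lit 63), (nat_lit 88), (nat_lit 100), (nat_lit 59007453)⟩],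
 ⟨⟨[(nat_lit 40), (nat_lit 60), (nat_lit 80)], [(nat_lit 0), (nat_lit 0), (nat_lit 615)], [((nat_lit 0), (nat_lit 0), (nat_lit 0)), ((nat_lit 0), (nat_lit 0), (nat_lit 0)), ((nat_lit 1000), (nat_lit 819), (nat_lit 426))], ((nat_lit 82), (nat_lit 100), (nat_lit 40))⟩, (nat_lit 4572134), (nat_lit 285), (nat_lit 285), (nat_lit 0), (nat_lit 747701), [(nat_lit 2052774849), (nat_lit 3282000019), (nat_lit 4688000000)], [], [(nat_lit 23249996534), (nat_lit 24343050130), (nat_lit 24021383266), (nat_lit 25057894654), (nat_lit 24892097699), (nat_lit 26510656077), (nat_lit 25691353674), (nat_lit 27165197096)], (nat_lit 1271251), (nat_lit 1271251), (nat_lit 936250), (nat_lit 1438751), (nat_lit 1271251), (nat_lit 1271251), [(nat_lit 490000), (nat_lit 780000), (nat_lit 1100000)], [(nat_lit 2), (nat_lit 44), (nat_lit 260), (nat_lit 50), (nat_lit 10)]⟩,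
 ⟨⟨[(nat_lit 40), (nat_lit 60), (nat_lit 80)], [(nat_lit 0), (nat_lit 0), (nat_lit 615)], [((nat_lit 0), (nat_lit 0), (nat_lit 0)), ((nat_lit 0), (nat_lit 0), (nat_lit 0)), ((nat_lit 1000), (nat_lit 819), (nat_lit 426))], ((nat_lit 82), (nat_lit 100), (nat_lit 40))⟩, (nat_lit 292614), (nat_lit 56), (nat_lit 56), (nat_lit 0), (nat_lit 0), [(nat_lit 2032000000), (nat_lit 3282000000), (nat_lit 4688000000)], [], [(nat_lit 16938760944), (nat_lit 18805509653), (nat_lit 18626866904), (nat_lit 20314313917), (nat_lit 25657040153), (nat_lit 27043221784), (nat_lit 26457134420), (nat_lit 27700150272)], (nat_lit 0), (nat_lit 0), (nat_lit 0), (nat_lit 0), (nat_lit 0), (nat_lit 0), [], [(nat_lit 2), (nat_lit 44), (nat_lit 260), (nat_lit 50), (nat_lit 11)]⟩,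
 Rw.none⟩) (.leaf ⟨(nat_lit 0), (nat_lit 1000), (nat_lit 0), (nat_lit 0), (nat_lit 0), (nat_lit 5500), (nat_lit 4653), (nat_lit 0), (nat_lit 11559229786464), (nat_lit 0), (nat_lit 0), [], Pd.none, Pd.none, (nat_lit 0), (nat_lit 1), (nat_lit 0), (nat_lit 0), (nat_lit 8), (nat_lit 0), [⟨(nat_lit 0), (nat_lit 77), (nat_lit 77), (nat_lit 100), (nat_lit 320323446)⟩], [⟨(nat_lit 1), (nat_lit 76), (nat_lit 82), (nat_lit 100), (nat_lit 322838524)⟩], [⟨(nat_lit 1), (nat_lit 76), (nat_lit 82), (nat_lit 100), (nat_lit 188159033)⟩], [⟨(nat_lit 2), (nat_lit 77), (nat_lit 77), (nat_lit 100), (nat_lit 301686316)⟩],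
 ⟨⟨[(nat_lit 40), (nat_lit 60), (nat_lit 80)], [(nat_lit 0), (nat_lit 0), (nat_lit 615)], [((nat_lit 0), (nat_lit 0), (nat_lit 0)), ((nat_lit 0), (nat_lit 0), (nat_lit 0)), ((nat_lit 1000), (nat_lit 819), (nat_lit 426))], ((nat_lit 82), (nat_lit 100), (nat_lit 40))⟩, (nat_lit 4390485), (nat_lit 290), (nat_lit 290), (nat_lit 0), (nat_lit 747701), [(nat_lit 2032000013), (nat_lit 3282000003), (nat_lit 4688000000)], [], [(nat_lit 25639021525), (nat_lit 26609583512), (nat_lit 26271563025), (nat_lit 27186470012), (nat_lit 26609583512), (nat_lit 27803210063), (nat_lit 27186470012), (nat_lit 28350111125)], (nat_lit 1271251), (nat_lit 1271251), (nat_lit 936250), (nat_lit 1438751), (nat_lit 1271251), (nat_lit 1271251), [(nat_lit 490000), (nat_lit 780000), (nat_lit 1100000)], [(nat_lit 2), (nat_lit 44), (nat_lit 260), (nat_lit 50), (nat_lit 10)]⟩,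
 ⟨⟨[(nat_lit 40), (nat_lit 60), (nat_lit 80)], [(nat_lit 0), (nat_lit 0), (nat_lit 615)], [((nat_lit 0), (nat_lit 0), (nat_lit 0)), ((nat_lit 0), (nat_lit 0), (nat_lit 0)), ((nat_lit 1000), (nat_lit 819), (nat_lit 426))], ((nat_lit 82), (nat_lit 100), (nat_lit 40))⟩, (nat_lit 291684), (nat_lit 56), (nat_lit 56), (nat_lit 0), (nat_lit 0), [(nat_lit 2032000000), (nat_lit 3282000000), (nat_lit 4688000000)], [], [(nat_lit 17095378878), (nat_lit 18883864362), (nat_lit 18751830184), (nat_lit 20393577824), (nat_lit 25681014939), (nat_lit 26926220863), (nat_lit 26494184860), (nat_lit 27629929230)], (nat_lit 0), (nat_lit 0), (nat_lit 0), (nat_lit 0), (nat_lit 0), (nat_lit 0), [], [(nat_lit 2), (nat_lit 44), (nat_lit 260), (nat_lit 50), (nat_lit 11)]⟩,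
 Rw.none⟩)) (.spl (nat_lit 0) (nat_lit 330) (.ord (.leaf ⟨(nat_lit 0), (nat_lit 878), (nat_lit 0), (nat_lit 122), (nat_lit 0), (nat_lit 5360), (nat_lit 5582), (nat_lit 1336), (nat_lit 1721055199792), (nat_lit 0), (nat_lit 0), [], Pd.none, Pd.none, (nat_lit 0), (nat_lit 1), (nat_lit 0), (nat_lit 0), (nat_lit 7), (nat_lit 0), [⟨(nat_lit 0), (nat_lit 80), (nat_lit 80), (nat_lit 100), (nat_lit 521500720)⟩], [⟨(nat_lit 1), (nat_lit 87), (nat_lit 82), (nat_lit 100), (nat_lit 556713988)⟩], [⟨(nat_lit 1), (nat_lit 87), (nat_lit 82), (nat_lit 100), (nat_lit 324804714)⟩], [],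
 ⟨⟨[(nat_lit 40), (nat_lit 60), (nat_lit 80)], [(nat_lit 0), (nat_lit 0), (nat_lit 615)], [((nat_lit 0), (nat_lit 0), (nat_lit 0)), ((nat_lit 0), (nat_lit 0), (nat_lit 0)), ((nat_lit 1000), (nat_lit 819), (nat_lit 426))], ((nat_lit 82), (nat_lit 100), (nat_lit 40))⟩, (nat_lit 2868031), (nat_lit 136), (nat_lit 136), (nat_lit 0), (nat_lit 293640), [(nat_lit 2135046388), (nat_lit 3282000414), (nat_lit 4688000000)], [], [(nat_lit 22223354668), (nat_lit 22935271385), (nat_lit 23259140908), (nat_lit 23960659755), (nat_lit 26181195900), (nat_lit 26919724535), (nat_lit 26884360360), (nat_lit 27555250375)], (nat_lit 1271251), (nat_lit 1271251), (nat_lit 936250), (nat_lit 1438751), (nat_lit 1271251), (nat_lit 1271251), [(nat_lit 490000), (nat_lit 780000), (nat_lit 1100000)], [(nat_lit 2), (nat_lit 44), (nat_lit 260), (nat_lit 50), (nat_lit 10)]⟩,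
 ⟨⟨[(nat_lit 40), (nat_lit 60), (nat_lit 80)], [(nat_lit 0), (nat_lit 0), (nat_lit 615)], [((nat_lit 0), (nat_lit 0), (nat_lit 0)), ((nat_lit 0), (nat_lit 0), (nat_lit 0)), ((nat_lit 1000), (nat_lit 819), (nat_lit 426))], ((nat_lit 82), (nat_lit 100), (nat_lit 40))⟩, (nat_lit 4019486), (nat_lit 261), (nat_lit 261), (nat_lit 0), (nat_lit 662032), [(nat_lit 2032000000), (nat_lit 3282000000), (nat_lit 4688000000)], [], [(nat_lit 20055202772), (nat_lit 20720382079), (nat_lit 21267632952), (nat_lit 21872055735), (nat_lit 26377282118), (nat_lit 27132697752), (nat_lit 27093344584), (nat_lit 27737114857)], (nat_lit 1271251), (nat_lit 1271251), (nat_lit 936250), (nat_lit 1438751), (nat_lit 1100000), (nat_lit 2641251), [(nat_lit 490000), (nat_lit 780000), (nat_lit 1100000)], [(nat_lit 2), (nat_lit 44), (nat_lit 260), (nat_lit 50), (nat_lit 11)]⟩,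
 ⟨⟨[(nat_lit 140), (nat_lit 160), (nat_lit 180)], [(nat_lit 0), (nat_lit 0), (nat_lit 799)], [((nat_lit 0), (nat_lit 0), (nat_lit 0)), ((nat_lit 0), (nat_lit 0), (nat_lit 0)), ((nat_lit 728), (nat_lit 1000), (nat_lit 454))], ((nat_lit 100), (nat_lit 75), (nat_lit 43))⟩, (nat_lit 107197), (nat_lit 300), (nat_lit 2018), (nat_lit 9052400), (nat_lit 3727669), [(nat_lit 1200724000), (nat_lit 1448384000), (nat_lit 1715076000)], [], [(nat_lit 6545597093), (nat_lit 6366978261), (nat_lit 6352429234), (nat_lit 6173799546), (nat_lit 5940392927), (nat_lit 5738648669), (nat_lit 5862968541), (nat_lit 5656274471)], (nat_lit 780000), (nat_lit 1100000), (nat_lit 1271251), (nat_lit 1271251), (nat_lit 1100000), (nat_lit 2641251), [(nat_lit 1977501), (nat_lit 1271251), (nat_lit 1271251)], [(nat_lit 31), (nat_lit 65), (nat_lit 610), (nat_lit 225), (nat_lit 13)]⟩⟩)) (.trZ (nat_lit 0) (nat_lit 1) (nat_lit 3) (nat_lit 82) (nat_lit 78) (nat_lit 100) (nat_lit 150) (.trX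 (nat_lit 4) (nat_lit 0) (nat_lit 2) (nat_lit 78) (nat_lit 81) (nat_lit 100) (nat_lit 330) (.leaf ⟨(nat_lit 0), (nat_lit 1000), (nat_lit 0), (nat_lit 0), (nat_lit 0), (nat_lit 4327), (nat_lit 5598), (nat_lit 0), (nat_lit 102759), (nat_lit 0), (nat_lit 0), [], Pd.none, Pd.none, (nat_lit 0), (nat_lit 1), (nat_lit 0), (nat_lit 0), (nat_lit 7), (nat_lit 0), [⟨(nat_lit 0), (nat_lit 82), (nat_lit 78), (nat_lit 100), (nat_lit 458145769)⟩], [⟨(nat_lit 1), (nat_lit 81), (nat_lit 78), (nat_lit 100), (nat_lit 525613646)⟩], [⟨(nat_lit 1), (nat_lit 76), (nat_lit 82), (nat_lit 100), (nat_lit 384102511)⟩], [⟨(nat_lit 2), (nat_lit 63), (nat_lit 86), (nat_lit 100), (nat_lit 40410377)⟩],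
 ⟨⟨[(nat_lit 40), (nat_lit 60), (nat_lit 80)], [(nat_lit 0), (nat_lit 197), (nat_lit 800)], [((nat_lit 0), (nat_lit 0), (nat_lit 0)), ((nat_lit 1000), (nat_lit 908), (nat_lit 154)), ((nat_lit 1000), (nat_lit 781), (nat_lit 471))], ((nat_lit 80), (nat_lit 100), (nat_lit 41))⟩, (nat_lit 4623309), (nat_lit 145), (nat_lit 145), (nat_lit 0), (nat_lit 329001), [(nat_lit 2032000017), (nat_lit 3282000009), (nat_lit 4688000000)], [], [(nat_lit 23000611235), (nat_lit 23581883048), (nat_lit 23956703594), (nat_lit 24494763473), (nat_lit 25243043529), (nat_lit 25912152527), (nat_lit 26090076976), (nat_lit 26709007091)], (nat_lit 1271251), (nat_lit 1271251), (nat_lit 1017188), (nat_lit 1440626), (nat_lit 1271251), (nat_lit 1271251), [(nat_lit 490000), (nat_lit 780000), (nat_lit 1100000)], [(nat_lit 2), (nat_lit 44), (nat_lit 260), (nat_lit 50), (nat_lit 10)]⟩,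
 ⟨⟨[(nat_lit 40), (nat_lit 60), (nat_lit 80)], [(nat_lit 0), (nat_lit 0), (nat_lit 615)], [((nat_lit 0), (nat_lit 0), (nat_lit 0)), ((nat_lit 0), (nat_lit 0), (nat_lit 0)), ((nat_lit 1000), (nat_lit 819), (nat_lit 426))], ((nat_lit 82), (nat_lit 100), (nat_lit 40))⟩, (nat_lit 2468583), (nat_lit 287), (nat_lit 287), (nat_lit 0), (nat_lit 747563), [(nat_lit 2032000000), (nat_lit 3282000000), (nat_lit 4688000000)], [], [(nat_lit 20480432208), (nat_lit 21719853638), (nat_lit 21513151351), (nat_lit 22656099819), (nat_lit 26318913482), (nat_lit 27812291763), (nat_lit 27063553773), (nat_lit 28436890640)], (nat_lit 1271251), (nat_lit 1271251), (nat_lit 1017188), (nat_lit 1440626), (nat_lit 1100000), (nat_lit 2641251), [(nat_lit 490000), (nat_lit 780000), (nat_lit 1100000)], [(nat_lit 2), (nat_lit 44), (nat_lit 260), (nat_lit 50), (nat_lit 11)]⟩,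
 Rw.none⟩))))) (.leaf ⟨(nat_lit 0), (nat_lit 1000), (nat_lit 0), (nat_lit 0), (nat_lit 0), (nat_lit 5447), (nat_lit 5510), (nat_lit 0), (nat_lit 1528938054225), (nat_lit 0), (nat_lit 0), [], Pd.none, Pd.none, (nat_lit 0), (nat_lit 1), (nat_lit 0), (nat_lit 0), (nat_lit 7), (nat_lit 0), [], [⟨(nat_lit 1), (nat_lit 76), (nat_lit 82), (nat_lit 100), (nat_lit 492230870)⟩], [⟨(nat_lit 1), (nat_lit 76), (nat_lit 82), (nat_lit 100), (nat_lit 421782107)⟩], [],
 ⟨⟨[(nat_lit 40), (nat_lit 60), (nat_lit 80)], [(nat_lit 0), (nat_lit 0), (nat_lit 615)], [((nat_lit 0), (nat_lit 0), (nat_lit 0)), ((nat_lit 0), (nat_lit 0), (nat_lit 0)), ((nat_lit 1000), (nat_lit 819), (nat_lit 426))], ((nat_lit 82), (nat_lit 100), (nat_lit 40))⟩, (nat_lit 3136836), (nat_lit 279), (nat_lit 279), (nat_lit 0), (nat_lit 747701), [(nat_lit 2032000019), (nat_lit 3282000002), (nat_lit 4688000000)], [], [(nat_lit 25056984546), (nat_lit 26016043133), (nat_lit 26962226347), (nat_lit 27815454920),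 (nat_lit 27343214434), (nat_lit 28303179347), (nat_lit 29332839250), (nat_lit 30479693784)], (nat_lit 1271251), (nat_lit 1271251), (nat_lit 1271251), (nat_lit 1271251), (nat_lit 1271251), (nat_lit 1271251), [(nat_lit 490000), (nat_lit 780000), (nat_lit 1100000)], [(nat_lit 2), (nat_lit 44), (nat_lit 203), (nat_lit 0), (nat_lit 7)]⟩,
 ⟨⟨[(nat_lit 40), (nat_lit 60), (nat_lit 80)], [(nat_lit 0), (nat_lit 0), (nat_lit 615)], [((nat_lit 0), (nat_lit 0), (nat_lit 0)), ((nat_lit 0), (nat_lit 0), (nat_lit 0)), ((nat_lit 1000), (nat_lit 819), (nat_lit 426))], ((nat_lit 82), (nat_lit 100), (nat_lit 40))⟩, (nat_lit 3257980), (nat_lit 279), (nat_lit 279), (nat_lit 0), (nat_lit 747701), [(nat_lit 2032000000), (nat_lit 3282000000), (nat_lit 4688000000)], [], [(nat_lit 21541014360), (nat_lit 22741434990), (nat_lit 24095614140), (nat_lit 25125155025), (nat_lit 27156895580), (nat_lit 28358966178), (nat_lit 29384074000), (nat_lit 30537400555)], (nat_lit 1271251),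 (nat_lit 1271251), (nat_lit 1271251), (nat_lit 1271251), (nat_lit 1100000), (nat_lit 2641251), [(nat_lit 490000), (nat_lit 780000), (nat_lit 1100000)], [(nat_lit 2), (nat_lit 44), (nat_lit 203), (nat_lit 0), (nat_lit 7)]⟩,
 Rw.none⟩)))) (.leaf ⟨(nat_lit 0), (nat_lit 1000), (nat_lit 0), (nat_lit 0), (nat_lit 0), (nat_lit 5157), (nat_lit 5157), (nat_lit 0), (nat_lit 2381007605), (nat_lit 0), (nat_lit 0), [], Pd.none, Pd.none, (nat_lit 0), (nat_lit 1), (nat_lit 0), (nat_lit 0), (nat_lit 4), (nat_lit 0), [], [⟨(nat_lit 1), (nat_lit 76), (nat_lit 82), (nat_lit 100), (nat_lit 392021956)⟩], [⟨(nat_lit 1), (nat_lit 76), (nat_lit 82), (nat_lit 100), (nat_lit 392027139)⟩], [],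
 ⟨⟨[(nat_lit 40), (nat_lit 60), (nat_lit 80)], [(nat_lit 0), (nat_lit 0), (nat_lit 615)], [((nat_lit 0), (nat_lit 0), (nat_lit 0)), ((nat_lit 0), (nat_lit 0), (nat_lit 0)), ((nat_lit 1000), (nat_lit 819), (nat_lit 426))], ((nat_lit 82), (nat_lit 100), (nat_lit 40))⟩, (nat_lit 3040321), (nat_lit 298), (nat_lit 298), (nat_lit 0), (nat_lit 747701), [(nat_lit 2032000261), (nat_lit 3282000080), (nat_lit 4688000000)], [], [(nat_lit 25392567079), (nat_lit 26389485999), (nat_lit 30533786293), (nat_lit 31536611874), (nat_lit 29924447231), (nat_lit 30631152220), (nat_lit 34685157805), (nat_lit 35484021444)], (nat_lit 1271251), (nat_lit 1271251), (nat_lit 1271251), (nat_lit 1271251), (nat_lit 1100000), (nat_lit 2641251), [(nat_lit 490000), (nat_lit 780000), (nat_lit 1100000)], [(nat_lit 2), (nat_lit 44), (nat_lit 210), (nat_lit 0), (nat_lit 7)]⟩,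
 ⟨⟨[(nat_lit 40), (nat_lit 60), (nat_lit 80)], [(nat_lit 0), (nat_lit 0), (nat_lit 615)], [((nat_lit 0), (nat_lit 0), (nat_lit 0)), ((nat_lit 0), (nat_lit 0), (nat_lit 0)), ((nat_lit 1000), (nat_lit 819), (nat_lit 426))], ((nat_lit 82), (nat_lit 100), (nat_lit 40))⟩, (nat_lit 2841438), (nat_lit 298), (nat_lit 298), (nat_lit 0), (nat_lit 747701), [(nat_lit 2032000000), (nat_lit 3282000000), (nat_lit 4688000000)], [], [(nat_lit 25392566498), (nat_lit 26389485418), (nat_lit 30533785712), (nat_lit 31536611874), (nat_lit 29924446650), (nat_lit 30631151639), (nat_lit 34685157805), (nat_lit 35484021444)], (nat_lit 1271251), (nat_lit 1271251), (nat_lit 1271251), (nat_lit 1271251), (nat_lit 1100000), (nat_lit 2641251), [(nat_lit 490000), (nat_lit 780000), (nat_lit 1100000)], [(nat_lit 2), (nat_lit 44), (nat_lit 210), (nat_lit 0), (nat_lit 7)]⟩,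
 Rw.none⟩))
noncomputable def c12_6 : Tr Lf :=
 (.spl (nat_lit 2) (nat_lit 140) (.trX (nat_lit 4) (nat_lit 0) (nat_lit 2) (nat_lit 84) (nat_lit 85) (nat_lit 100) (nat_lit 320) (.trX (nat_lit 5) (nat_lit 1) (nat_lit 2) (nat_lit 84) (nat_lit 85) (nat_lit 100) (nat_lit 320) (.spl (nat_lit 3) (nat_lit 280) (.stt (nat_lit 2) (.leaf ⟨(nat_lit 49), (nat_lit 951), (nat_lit 0), (nat_lit 0), (nat_lit 0), (nat_lit 6312), (nat_lit 5910), (nat_lit 0), (nat_lit 9737411023772), (nat_lit 0), (nat_lit 196000), [((nat_lit 340), [((nat_lit 37), (nat_lit 5), (nat_lit 49))])], ⟨(nat_lit 8), true, false, false, (nat_lit 263), (nat_lit 3872), (nat_lit 4473), [(nat_lit 1527314), (nat_lit 1533860), (nat_lit 1548863), (nat_lit 1555635), (nat_lit 1765265), (nat_lit 1759713), (nat_lit 1786814), (nat_lit 1781488)]⟩, ⟨(nat_lit 4), false, false, true, (nat_lit 196), (nat_lit 3872), (nat_lit 4473), [(nat_lit 1345754), (nat_lit 1348304), (nat_lit 1367321), (nat_lit 1370097),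 (nat_lit 1617667), (nat_lit 1606390), (nat_lit 1639234), (nat_lit 1628183)]⟩, (nat_lit 5237517), (nat_lit 38120136), (nat_lit 17782245), (nat_lit 11097619), (nat_lit 4), (nat_lit 0), [⟨(nat_lit 0), (nat_lit 77), (nat_lit 77), (nat_lit 100), (nat_lit 343950251)⟩], [⟨(nat_lit 1), (nat_lit 93), (nat_lit 81), (nat_lit 100), (nat_lit 194521301)⟩, ⟨(nat_lit 1), (nat_lit 85), (nat_lit 84), (nat_lit 100), (nat_lit 217537052)⟩], [⟨(nat_lit 1), (nat_lit 93), (nat_lit 81), (nat_lit 100), (nat_lit 279187992)⟩, ⟨(nat_lit 1), (nat_lit 85), (nat_lit 84), (nat_lit 100), (nat_lit 158089099)⟩], [],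
 ⟨⟨[(nat_lit 40), (nat_lit 80), (nat_lit 100)], [(nat_lit 0), (nat_lit 0), (nat_lit 1280)], [((nat_lit 0), (nat_lit 0), (nat_lit 0)), ((nat_lit 0), (nat_lit 0), (nat_lit 0)), ((nat_lit 1000), (nat_lit 800), (nat_lit 600))], ((nat_lit 80), (nat_lit 100), (nat_lit 51))⟩, (nat_lit 1193622), (nat_lit 261), (nat_lit 261), (nat_lit 0), (nat_lit 579910), [(nat_lit 2015035041), (nat_lit 4217423765), (nat_lit 5340599200)], [(nat_lit 0), (nat_lit 0), (nat_lit 0)], [(nat_lit 21067668722), (nat_lit 22422664832), (nat_lit 24386133738), (nat_lit 25430220842), (nat_lit 25978502842), (nat_lit 27022565055), (nat_lit 29847008071), (nat_lit 30036300500)], (nat_lit 1271251), (nat_lit 1271251), (nat_lit 936250), (nat_lit 2108751), (nat_lit 1100000), (nat_lit 2470001), [(nat_lit 490000), (nat_lit 1100000), (nat_lit 1442501)], [(nat_lit 3), (nat_lit 50), (nat_lit 373), (nat_lit 150), (nat_lit 13)]⟩,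
 ⟨⟨[(nat_lit 40), (nat_lit 80), (nat_lit 100)], [(nat_lit 0), (nat_lit 0), (nat_lit 1280)], [((nat_lit 0), (nat_lit 0), (nat_lit 0)), ((nat_lit 0), (nat_lit 0), (nat_lit 0)), ((nat_lit 1000), (nat_lit 800), (nat_lit 600))], ((nat_lit 80), (nat_lit 100), (nat_lit 51))⟩, (nat_lit 0), (nat_lit 58), (nat_lit 58), (nat_lit 0), (nat_lit 0), [(nat_lit 1932432000), (nat_lit 4458288000), (nat_lit 5943750000)], [], [(nat_lit 16784486559), (nat_lit 18753043889), (nat_lit 21829147542), (nat_lit 23317861022), (nat_lit 24084534024), (nat_lit 25616098850), (nat_lit 27253841880), (nat_lit 28489123742)], (nat_lit 0), (nat_lit 0), (nat_lit 0), (nat_lit 0), (nat_lit 0), (nat_lit 0), [], [(nat_lit 3), (nat_lit 50), (nat_lit 373), (nat_lit 150), (nat_lit 13)]⟩,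
 Rw.none⟩) (.leaf ⟨(nat_lit 0), (nat_lit 881), (nat_lit 0), (nat_lit 119), (nat_lit 0), (nat_lit 6085), (nat_lit 6950), (nat_lit 1275), (nat_lit 28293), (nat_lit 0), (nat_lit 0), [], Pd.none, Pd.none, (nat_lit 0), (nat_lit 1), (nat_lit 0), (nat_lit 0), (nat_lit 4), (nat_lit 0), [⟨(nat_lit 0), (nat_lit 77), (nat_lit 77), (nat_lit 100), (nat_lit 316053624)⟩], [⟨(nat_lit 1), (nat_lit 93), (nat_lit 81), (nat_lit 100), (nat_lit 372115398)⟩], [⟨(nat_lit 1), (nat_lit 93), (nat_lit 81), (nat_lit 100), (nat_lit 324945527)⟩, ⟨(nat_lit 1), (nat_lit 85), (nat_lit 84), (nat_lit 100), (nat_lit 12413789)⟩], [],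
 ⟨⟨[(nat_lit 40), (nat_lit 80), (nat_lit 100)], [(nat_lit 0), (nat_lit 0), (nat_lit 1280)], [((nat_lit 0), (nat_lit 0), (nat_lit 0)), ((nat_lit 0), (nat_lit 0), (nat_lit 0)), ((nat_lit 1000), (nat_lit 800), (nat_lit 600))], ((nat_lit 80), (nat_lit 100), (nat_lit 51))⟩, (nat_lit 1633549), (nat_lit 148), (nat_lit 148), (nat_lit 0), (nat_lit 263845), [(nat_lit 2032000014), (nat_lit 4688000004), (nat_lit 6250000000)], [], [(nat_lit 18494472830), (nat_lit 20393041139), (nat_lit 23289369560), (nat_lit 24731490375), (nat_lit 25482604080), (nat_lit 26821798843), (nat_lit 30646432202), (nat_lit 29851692750)], (nat_lit 1271251), (nat_lit 1271251), (nat_lit 936250), (nat_lit 2108751), (nat_lit 1100000), (nat_lit 2470001), [(nat_lit 490000), (nat_lit 1100000), (nat_lit 1442501)], [(nat_lit 3), (nat_lit 50), (nat_lit 373), (nat_lit 150), (nat_lit 13)]⟩,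
 ⟨⟨[(nat_lit 40), (nat_lit 80), (nat_lit 100)], [(nat_lit 0), (nat_lit 0), (nat_lit 1280)], [((nat_lit 0), (nat_lit 0), (nat_lit 0)), ((nat_lit 0), (nat_lit 0), (nat_lit 0)), ((nat_lit 1000), (nat_lit 800), (nat_lit 600))], ((nat_lit 80), (nat_lit 100), (nat_lit 51))⟩, (nat_lit 1504232), (nat_lit 261), (nat_lit 261), (nat_lit 0), (nat_lit 579910), [(nat_lit 2032000000), (nat_lit 4688000000), (nat_lit 6250000000)], [], [(nat_lit 20773523490), (nat_lit 22207232053), (nat_lit 24107678840), (nat_lit 25205065740), (nat_lit 25800719240), (nat_lit 27585597188), (nat_lit 29522625900), (nat_lit 30555154000)], (nat_lit 1271251), (nat_lit 1271251), (nat_lit 936250), (nat_lit 2108751), (nat_lit 1100000), (nat_lit 2470001), [(nat_lit 490000), (nat_lit 1100000), (nat_lit 1442501)], [(nat_lit 3), (nat_lit 50), (nat_lit 373), (nat_lit 150), (nat_lit 13)]⟩,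
 ⟨⟨[(nat_lit 140), (nat_lit 180), (nat_lit 200)], [(nat_lit 0), (nat_lit 0), (nat_lit 2835)], [((nat_lit 0), (nat_lit 0), (nat_lit 0)), ((nat_lit 0), (nat_lit 0), (nat_lit 0)), ((nat_lit 363), (nat_lit 1000), (nat_lit 798))], ((nat_lit 0), (nat_lit 0), (nat_lit 0))⟩, (nat_lit 32741), (nat_lit 300), (nat_lit 1998), (nat_lit 9293900), (nat_lit 3467362), [(nat_lit 1171198000), (nat_lit 1672902000), (nat_lit 1951600000)], [], [(nat_lit 8797524276), (nat_lit 8707584882), (nat_lit 8203197776), (nat_lit 8114031110), (nat_lit 8203197776), (nat_lit 8114031110), (nat_lit 7608981476), (nat_lit 7879214638)], (nat_lit 780000), (nat_lit 936250), (nat_lit 1100000), (nat_lit 2470001), (nat_lit 1100000), (nat_lit 2470001), [(nat_lit 1977501), (nat_lit 1271251), (nat_lit 1271251)], [(nat_lit 32), (nat_lit 67), (nat_lit 597), (nat_lit 200), (nat_lit 12)]⟩⟩)) (.leaf ⟨(nat_lit 0), (nat_lit 1000), (nat_lit 0), (nat_lit 0), (nat_lit 0), (nat_lit 6046), (nat_lit 6046),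 (nat_lit 0), (nat_lit 1690918), (nat_lit 0), (nat_lit 0), [], Pd.none, Pd.none, (nat_lit 0), (nat_lit 1), (nat_lit 0), (nat_lit 0), (nat_lit 4), (nat_lit 0), [], [⟨(nat_lit 1), (nat_lit 93), (nat_lit 81), (nat_lit 100), (nat_lit 369760805)⟩], [⟨(nat_lit 1), (nat_lit 93), (nat_lit 81), (nat_lit 100), (nat_lit 369760746)⟩], [],
 ⟨⟨[(nat_lit 40), (nat_lit 80), (nat_lit 100)], [(nat_lit 0), (nat_lit 0), (nat_lit 1280)], [((nat_lit 0), (nat_lit 0), (nat_lit 0)), ((nat_lit 0), (nat_lit 0), (nat_lit 0)), ((nat_lit 1000), (nat_lit 800), (nat_lit 600))], ((nat_lit 80), (nat_lit 100), (nat_lit 51))⟩, (nat_lit 1323516), (nat_lit 274), (nat_lit 274), (nat_lit 0), (nat_lit 579910), [(nat_lit 2210744171), (nat_lit 4688000004), (nat_lit 6250000000)], [], [(nat_lit 26792303072), (nat_lit 27814168004), (nat_lit 31966623784), (nat_lit 32753725772), (nat_lit 30177713360), (nat_lit 30919737118), (nat_lit 34899507032), (nat_lit 35797176790)], (nat_lit 1271251), (nat_lit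 1271251), (nat_lit 1271251), (nat_lit 1271251), (nat_lit 1100000), (nat_lit 2470001), [(nat_lit 490000), (nat_lit 1100000), (nat_lit 1442501)], [(nat_lit 3), (nat_lit 50), (nat_lit 317), (nat_lit 100), (nat_lit 10)]⟩,
 ⟨⟨[(nat_lit 40), (nat_lit 80), (nat_lit 100)], [(nat_lit 0), (nat_lit 0), (nat_lit 1280)], [((nat_lit 0), (nat_lit 0), (nat_lit 0)), ((nat_lit 0), (nat_lit 0), (nat_lit 0)), ((nat_lit 1000), (nat_lit 800), (nat_lit 600))], ((nat_lit 80), (nat_lit 100), (nat_lit 51))⟩, (nat_lit 1323516), (nat_lit 274), (nat_lit 274), (nat_lit 0), (nat_lit 579910), [(nat_lit 2032000000), (nat_lit 4688000000), (nat_lit 6250000000)], [], [(nat_lit 26792303064), (nat_lit 27814167996), (nat_lit 31966623776), (nat_lit 32753725772), (nat_lit 30177713352), (nat_lit 30919737110), (nat_lit 34899507032), (nat_lit 35797176790)], (nat_lit 1271251), (nat_lit 1271251), (nat_lit 1271251), (nat_lit 1271251), (nat_lit 1100000), (nat_lit 2470001), [(nat_lit 490000),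 (nat_lit 1100000), (nat_lit 1442501)], [(nat_lit 3), (nat_lit 50), (nat_lit 317), (nat_lit 100), (nat_lit 10)]⟩,
 Rw.none⟩)))) (.spl (nat_lit 4) (nat_lit 240) (.leaf ⟨(nat_lit 0), (nat_lit 902), (nat_lit 0), (nat_lit 98), (nat_lit 0), (nat_lit 7451), (nat_lit 6854), (nat_lit 972), (nat_lit 2194584358670), (nat_lit 0), (nat_lit 0), [], Pd.none, Pd.none, (nat_lit 0), (nat_lit 1), (nat_lit 0), (nat_lit 0), (nat_lit 4), (nat_lit 0), [⟨(nat_lit 0), (nat_lit 71), (nat_lit 71), (nat_lit 100), (nat_lit 13750237)⟩], [], [⟨(nat_lit 1), (nat_lit 85), (nat_lit 78), (nat_lit 100), (nat_lit 329389863)⟩], [],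
 ⟨⟨[(nat_lit 40), (nat_lit 80), (nat_lit 100)], [(nat_lit 0), (nat_lit 0), (nat_lit 1280)], [((nat_lit 0), (nat_lit 0), (nat_lit 0)), ((nat_lit 0), (nat_lit 0), (nat_lit 0)), ((nat_lit 1000), (nat_lit 800), (nat_lit 600))], ((nat_lit 80), (nat_lit 100), (nat_lit 51))⟩, (nat_lit 1627124), (nat_lit 254), (nat_lit 254), (nat_lit 0), (nat_lit 515776), [(nat_lit 2441575134), (nat_lit 4688000001), (nat_lit 6250000000)], [], [(nat_lit 19244268803), (nat_lit 20739787615), (nat_lit 33266798524), (nat_lit 34677285982), (nat_lit 21121422916), (nat_lit 22406773953), (nat_lit 33981477316), (nat_lit 35192354029)], (nat_lit 1271251), (nat_lit 1271251), (nat_lit 936250), (nat_lit 3113751), (nat_lit 1100000), (nat_lit 1785001), [(nat_lit 490000), (nat_lit 1100000), (nat_lit 1442501)], [(nat_lit 3), (nat_lit 50), (nat_lit 401), (nat_lit 175), (nat_lit 14)]⟩,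
 ⟨⟨[(nat_lit 40), (nat_lit 80), (nat_lit 100)], [(nat_lit 0), (nat_lit 0), (nat_lit 1280)], [((nat_lit 0), (nat_lit 0), (nat_lit 0)), ((nat_lit 0), (nat_lit 0), (nat_lit 0)), ((nat_lit 1000), (nat_lit 800), (nat_lit 600))], ((nat_lit 80), (nat_lit 100), (nat_lit 51))⟩, (nat_lit 583205), (nat_lit 254), (nat_lit 254), (nat_lit 0), (nat_lit 515776), [(nat_lit 2032000000), (nat_lit 4688000000), (nat_lit 6250000000)], [], [(nat_lit 22215327234), (nat_lit 23637191917), (nat_lit 32514146296), (nat_lit 33859944028), (nat_lit 28241920993), (nat_lit 29205647842), (nat_lit 36807875710), (nat_lit 37698762568)], (nat_lit 1271251), (nat_lit 1271251), (nat_lit 1271251), (nat_lit 1271251), (nat_lit 1100000), (nat_lit 2641251), [(nat_lit 490000), (nat_lit 1100000), (nat_lit 1442501)], [(nat_lit 3), (nat_lit 50), (nat_lit 428), (nat_lit 200), (nat_lit 16)]⟩,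
 ⟨⟨[(nat_lit 140), (nat_lit 160), (nat_lit 180)], [(nat_lit 0), (nat_lit 304), (nat_lit 1085)], [((nat_lit 0), (nat_lit 0), (nat_lit 0)), ((nat_lit 913), (nat_lit 1000), (nat_lit 217)), ((nat_lit 759), (nat_lit 1000), (nat_lit 463))], ((nat_lit 100), (nat_lit 70), (nat_lit 53))⟩, (nat_lit 201158), (nat_lit 300), (nat_lit 2202), (nat_lit 6889400), (nat_lit 3992535), [(nat_lit 964516000), (nat_lit 1163456000), (nat_lit 1377684000)], [], [(nat_lit 6406945712), (nat_lit 6344630990), (nat_lit 6184257617), (nat_lit 6122222934), (nat_lit 5950940532), (nat_lit 5888984455), (nat_lit 5728327668), (nat_lit 5720591412)], (nat_lit 936250), (nat_lit 1100000), (nat_lit 1100000), (nat_lit 1785001), (nat_lit 1100000), (nat_lit 2641251), [(nat_lit 1977501), (nat_lit 1271251), (nat_lit 1271251)], [(nat_lit 31), (nat_lit 65), (nat_lit 643), (nat_lit 200), (nat_lit 15)]⟩⟩) (.leaf ⟨(nat_lit 0), (nat_lit 908), (nat_lit 0), (nat_lit 92), (nat_lit 0), (nat_lit 6544),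 (nat_lit 6544), (nat_lit 980), (nat_lit 1855155189978), (nat_lit 0), (nat_lit 0), [], Pd.none, Pd.none, (nat_lit 0), (nat_lit 1), (nat_lit 0), (nat_lit 0), (nat_lit 6), (nat_lit 0), [⟨(nat_lit 0), (nat_lit 77), (nat_lit 77), (nat_lit 100), (nat_lit 136386712)⟩], [⟨(nat_lit 1), (nat_lit 85), (nat_lit 78), (nat_lit 100), (nat_lit 438466423)⟩], [⟨(nat_lit 1), (nat_lit 85), (nat_lit 78), (nat_lit 100), (nat_lit 329338488)⟩], [],
 ⟨⟨[(nat_lit 40), (nat_lit 80), (nat_lit 100)], [(nat_lit 0), (nat_lit 0), (nat_lit 1280)], [((nat_lit 0), (nat_lit 0), (nat_lit 0)), ((nat_lit 0), (nat_lit 0), (nat_lit 0)), ((nat_lit 1000), (nat_lit 800), (nat_lit 600))], ((nat_lit 80), (nat_lit 100), (nat_lit 51))⟩, (nat_lit 1418845), (nat_lit 246), (nat_lit 246), (nat_lit 0), (nat_lit 515776), [(nat_lit 2271284824), (nat_lit 4688000019), (nat_lit 6250000000)], [], [(nat_lit 23864734134), (nat_lit 25059510790), (nat_lit 32973695104), (nat_lit 34106240576), (nat_lit 27941531568),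 (nat_lit 28884174318), (nat_lit 36420107560), (nat_lit 37294184048)], (nat_lit 1271251), (nat_lit 1271251), (nat_lit 936250), (nat_lit 3113751), (nat_lit 1271251), (nat_lit 1271251), [(nat_lit 490000), (nat_lit 1100000), (nat_lit 1442501)], [(nat_lit 3), (nat_lit 50), (nat_lit 317), (nat_lit 100), (nat_lit 11)]⟩,
 ⟨⟨[(nat_lit 40), (nat_lit 80), (nat_lit 100)], [(nat_lit 0), (nat_lit 0), (nat_lit 1280)], [((nat_lit 0), (nat_lit 0), (nat_lit 0)), ((nat_lit 0), (nat_lit 0), (nat_lit 0)), ((nat_lit 1000), (nat_lit 800), (nat_lit 600))], ((nat_lit 80), (nat_lit 100), (nat_lit 51))⟩, (nat_lit 1418842), (nat_lit 254), (nat_lit 254), (nat_lit 0), (nat_lit 515776), [(nat_lit 2032000000), (nat_lit 4688000000), (nat_lit 6250000000)], [], [(nat_lit 21994624864), (nat_lit 23378243684), (nat_lit 32123321856), (nat_lit 33435528608), (nat_lit 27941535370), (nat_lit 28884174318), (nat_lit 36420107560), (nat_lit 37294184048)], (nat_lit 1271251), (nat_lit 1271251),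 (nat_lit 1271251), (nat_lit 1271251), (nat_lit 1100000), (nat_lit 2641251), [(nat_lit 490000), (nat_lit 1100000), (nat_lit 1442501)], [(nat_lit 3), (nat_lit 50), (nat_lit 428), (nat_lit 200), (nat_lit 16)]⟩,
 ⟨⟨[(nat_lit 140), (nat_lit 160), (nat_lit 180)], [(nat_lit 0), (nat_lit 304), (nat_lit 1085)], [((nat_lit 0), (nat_lit 0), (nat_lit 0)), ((nat_lit 913), (nat_lit 1000), (nat_lit 217)), ((nat_lit 759), (nat_lit 1000), (nat_lit 463))], ((nat_lit 100), (nat_lit 70), (nat_lit 53))⟩, (nat_lit 188842), (nat_lit 300), (nat_lit 2164), (nat_lit 6467601), (nat_lit 3992535), [(nat_lit 905464000), (nat_lit 1092224000), (nat_lit 1293336000)], [], [(nat_lit 4700823608), (nat_lit 4636975565), (nat_lit 4538959150), (nat_lit 4466087776), (nat_lit 4322960428), (nat_lit 4250652944), (nat_lit 4222888433), (nat_lit 4149162172)], (nat_lit 936250), (nat_lit 1100000), (nat_lit 1271251), (nat_lit 1271251), (nat_lit 1100000), (nat_lit 2641251), [(nat_lit 1977501),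 (nat_lit 1271251), (nat_lit 1271251)], [(nat_lit 31), (nat_lit 65), (nat_lit 646), (nat_lit 225), (nat_lit 14)]⟩⟩)))
noncomputable def c12_7 : Tr Lf :=
 (.spl (nat_lit 6) (nat_lit 16) (.spl (nat_lit 3) (nat_lit 280) (.leaf ⟨(nat_lit 0), (nat_lit 893), (nat_lit 0), (nat_lit 107), (nat_lit 0), (nat_lit 5430), (nat_lit 5465), (nat_lit 1112), (nat_lit 41228), (nat_lit 0), (nat_lit 0), [], Pd.none, Pd.none, (nat_lit 0), (nat_lit 1), (nat_lit 0), (nat_lit 0), (nat_lit 4), (nat_lit 0), [⟨(nat_lit 0), (nat_lit 77), (nat_lit 77), (nat_lit 100), (nat_lit 308484858)⟩], [⟨(nat_lit 1), (nat_lit 77), (nat_lit 77), (nat_lit 100), (nat_lit 354439536)⟩], [⟨(nat_lit 1), (nat_lit 77), (nat_lit 77), (nat_lit 100), (nat_lit 396662584)⟩], [],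
 ⟨⟨[(nat_lit 40), (nat_lit 60), (nat_lit 80)], [(nat_lit 0), (nat_lit 0), (nat_lit 615)], [((nat_lit 0), (nat_lit 0), (nat_lit 0)), ((nat_lit 0), (nat_lit 0), (nat_lit 0)), ((nat_lit 1000), (nat_lit 819), (nat_lit 426))], ((nat_lit 82), (nat_lit 100), (nat_lit 40))⟩, (nat_lit 3356358), (nat_lit 259), (nat_lit 259), (nat_lit 0), (nat_lit 635021), [(nat_lit 2032000007), (nat_lit 3282000002), (nat_lit 4688000000)], [], [(nat_lit 20629299795), (nat_lit 21939260540), (nat_lit 24389541035), (nat_lit 25411688840), (nat_lit 27326101644), (nat_lit 28474584981), (nat_lit 31350919807), (nat_lit 31036676173)], (nat_lit 1271251), (nat_lit 1271251), (nat_lit 936250), (nat_lit 2108751), (nat_lit 1100000), (nat_lit 2726876), [(nat_lit 490000), (nat_lit 780000), (nat_lit 1100000)], [(nat_lit 2), (nat_lit 44), (nat_lit 289), (nat_lit 75), (nat_lit 12)]⟩,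
 ⟨⟨[(nat_lit 40), (nat_lit 60), (nat_lit 80)], [(nat_lit 0), (nat_lit 0), (nat_lit 615)], [((nat_lit 0), (nat_lit 0), (nat_lit 0)), ((nat_lit 0), (nat_lit 0), (nat_lit 0)), ((nat_lit 1000), (nat_lit 819), (nat_lit 426))], ((nat_lit 82), (nat_lit 100), (nat_lit 40))⟩, (nat_lit 3499065), (nat_lit 259), (nat_lit 259), (nat_lit 0), (nat_lit 635021), [(nat_lit 2032000000), (nat_lit 3282000000), (nat_lit 4688000000)], [], [(nat_lit 20497106390), (nat_lit 21811764013), (nat_lit 24260948010), (nat_lit 25286330288), (nat_lit 27224083713), (nat_lit 28513486569), (nat_lit 31233617888), (nat_lit 31070533274)], (nat_lit 1271251), (nat_lit 1271251), (nat_lit 936250), (nat_lit 2108751), (nat_lit 1100000), (nat_lit 2726876), [(nat_lit 490000), (nat_lit 780000), (nat_lit 1100000)], [(nat_lit 2), (nat_lit 44), (nat_lit 289), (nat_lit 75), (nat_lit 12)]⟩,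
 ⟨⟨[(nat_lit 120), (nat_lit 140), (nat_lit 160)], [(nat_lit 0), (nat_lit 0), (nat_lit 609)], [((nat_lit 0), (nat_lit 0), (nat_lit 0)), ((nat_lit 0), (nat_lit 0), (nat_lit 0)), ((nat_lit 840), (nat_lit 1000), (nat_lit 400))], ((nat_lit 100), (nat_lit 84), (nat_lit 40))⟩, (nat_lit 109635), (nat_lit 300), (nat_lit 2061), (nat_lit 7522102), (nat_lit 3867798), [(nat_lit 852576000), (nat_lit 1053094000), (nat_lit 1270304000)], [], [(nat_lit 5438938356), (nat_lit 5377664297), (nat_lit 4920356505), (nat_lit 4858594632), (nat_lit 5665176176), (nat_lit 5955755431), (nat_lit 4393728205), (nat_lit 4337190184)], (nat_lit 1100000), (nat_lit 1271251), (nat_lit 1271251), (nat_lit 1271251), (nat_lit 1100000), (nat_lit 2726876), [(nat_lit 1695001), (nat_lit 1271251), (nat_lit 1271251)], [(nat_lit 27), (nat_lit 62), (nat_lit 626), (nat_lit 225), (nat_lit 16)]⟩⟩) (.leaf ⟨(nat_lit 0), (nat_lit 906), (nat_lit 0), (nat_lit 94), (nat_lit 0), (nat_lit 5142), (nat_lit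 5099), (nat_lit 977), (nat_lit 122582), (nat_lit 0), (nat_lit 0), [], Pd.none, Pd.none, (nat_lit 0), (nat_lit 1), (nat_lit 0), (nat_lit 0), (nat_lit 4), (nat_lit 0), [], [⟨(nat_lit 1), (nat_lit 77), (nat_lit 77), (nat_lit 100), (nat_lit 309059933)⟩], [⟨(nat_lit 1), (nat_lit 77), (nat_lit 77), (nat_lit 100), (nat_lit 340118504)⟩], [],
 ⟨⟨[(nat_lit 40), (nat_lit 60), (nat_lit 80)], [(nat_lit 0), (nat_lit 0), (nat_lit 615)], [((nat_lit 0), (nat_lit 0), (nat_lit 0)), ((nat_lit 0), (nat_lit 0), (nat_lit 0)), ((nat_lit 1000), (nat_lit 819), (nat_lit 426))], ((nat_lit 82), (nat_lit 100), (nat_lit 40))⟩, (nat_lit 2795698), (nat_lit 265), (nat_lit 265), (nat_lit 0), (nat_lit 635021), [(nat_lit 2032000007), (nat_lit 3282000002), (nat_lit 4688000000)], [], [(nat_lit 25447677803), (nat_lit 26443210520), (nat_lit 30582601487), (nat_lit 31516075644), (nat_lit 30347668281), (nat_lit 31036709642), (nat_lit 35087669913), (nat_lit 35863470181)], (nat_lit 1271251),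 (nat_lit 1271251), (nat_lit 1271251), (nat_lit 1271251), (nat_lit 1100000), (nat_lit 2726876), [(nat_lit 490000), (nat_lit 780000), (nat_lit 1100000)], [(nat_lit 2), (nat_lit 44), (nat_lit 203), (nat_lit 0), (nat_lit 7)]⟩,
 ⟨⟨[(nat_lit 40), (nat_lit 60), (nat_lit 80)], [(nat_lit 0), (nat_lit 0), (nat_lit 615)], [((nat_lit 0), (nat_lit 0), (nat_lit 0)), ((nat_lit 0), (nat_lit 0), (nat_lit 0)), ((nat_lit 1000), (nat_lit 819), (nat_lit 426))], ((nat_lit 82), (nat_lit 100), (nat_lit 40))⟩, (nat_lit 2782659), (nat_lit 265), (nat_lit 265), (nat_lit 0), (nat_lit 635021), [(nat_lit 2032000000), (nat_lit 3282000000), (nat_lit 4688000000)], [], [(nat_lit 25605663486), (nat_lit 26597222423), (nat_lit 30722539984), (nat_lit 31464578994), (nat_lit 30499315710), (nat_lit 31186365373), (nat_lit 35032571799), (nat_lit 35806185345)], (nat_lit 1271251), (nat_lit 1271251), (nat_lit 1271251), (nat_lit 1271251), (nat_lit 1100000), (nat_lit 2726876), [(nat_lit 490000),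 (nat_lit 780000), (nat_lit 1100000)], [(nat_lit 2), (nat_lit 44), (nat_lit 203), (nat_lit 0), (nat_lit 7)]⟩,
 ⟨⟨[(nat_lit 120), (nat_lit 140), (nat_lit 160)], [(nat_lit 0), (nat_lit 0), (nat_lit 609)], [((nat_lit 0), (nat_lit 0), (nat_lit 0)), ((nat_lit 0), (nat_lit 0), (nat_lit 0)), ((nat_lit 840), (nat_lit 1000), (nat_lit 400))], ((nat_lit 100), (nat_lit 84), (nat_lit 40))⟩, (nat_lit 183852), (nat_lit 300), (nat_lit 2061), (nat_lit 6608200), (nat_lit 3867798), [(nat_lit 748992000), (nat_lit 925148000), (nat_lit 1115968000)], [], [(nat_lit 4776538567), (nat_lit 4722701893), (nat_lit 4320899791), (nat_lit 4266634581), (nat_lit 4977078865), (nat_lit 5232374187), (nat_lit 3858191988), (nat_lit 3809911598)], (nat_lit 1100000), (nat_lit 1271251), (nat_lit 1271251), (nat_lit 1271251), (nat_lit 1100000), (nat_lit 2726876), [(nat_lit 1695001), (nat_lit 1271251), (nat_lit 1271251)], [(nat_lit 27), (nat_lit 62), (nat_lit 626), (nat_lit 225), (nat_lit 16)]⟩⟩))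 (.spl (nat_lit 0) (nat_lit 330) (.ord (.leaf ⟨(nat_lit 0), (nat_lit 868), (nat_lit 0), (nat_lit 132), (nat_lit 0), (nat_lit 6463), (nat_lit 6486), (nat_lit 1397), (nat_lit 26461), (nat_lit 0), (nat_lit 0), [], Pd.none, Pd.none, (nat_lit 0), (nat_lit 1), (nat_lit 0), (nat_lit 0), (nat_lit 4), (nat_lit 0), [⟨(nat_lit 0), (nat_lit 77), (nat_lit 77), (nat_lit 100), (nat_lit 21209487)⟩], [⟨(nat_lit 1), (nat_lit 74), (nat_lit 79), (nat_lit 100), (nat_lit 371066706)⟩], [⟨(nat_lit 1), (nat_lit 74), (nat_lit 79), (nat_lit 100), (nat_lit 385496233)⟩], [],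
 ⟨⟨[(nat_lit 40), (nat_lit 80), (nat_lit 100)], [(nat_lit 0), (nat_lit 0), (nat_lit 1280)], [((nat_lit 0), (nat_lit 0), (nat_lit 0)), ((nat_lit 0), (nat_lit 0), (nat_lit 0)), ((nat_lit 1000), (nat_lit 800), (nat_lit 600))], ((nat_lit 80), (nat_lit 100), (nat_lit 51))⟩, (nat_lit 1091397), (nat_lit 211), (nat_lit 211), (nat_lit 0), (nat_lit 378696), [(nat_lit 2032000002), (nat_lit 4688000001), (nat_lit 6250000000)], [], [(nat_lit 20540790280), (nat_lit 21364210869), (nat_lit 32021203212), (nat_lit 32672918089), (nat_lit 28923634619), (nat_lit 28825945944), (nat_lit 36780335245), (nat_lit 37201824446)], (nat_lit 1271251), (nat_lit 1271251), (nat_lit 1271251), (nat_lit 1271251), (nat_lit 1100000), (nat_lit 2726876), [(nat_lit 490000), (nat_lit 1100000), (nat_lit 1442501)], [(nat_lit 3), (nat_lit 50), (nat_lit 428), (nat_lit 200), (nat_lit 16)]⟩,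
 ⟨⟨[(nat_lit 40), (nat_lit 80), (nat_lit 100)], [(nat_lit 0), (nat_lit 0), (nat_lit 1280)], [((nat_lit 0), (nat_lit 0), (nat_lit 0)), ((nat_lit 0), (nat_lit 0), (nat_lit 0)), ((nat_lit 1000), (nat_lit 800), (nat_lit 600))], ((nat_lit 80), (nat_lit 100), (nat_lit 51))⟩, (nat_lit 1046455), (nat_lit 211), (nat_lit 211), (nat_lit 0), (nat_lit 378696), [(nat_lit 2032000000), (nat_lit 4688000000), (nat_lit 6250000000)], [], [(nat_lit 20554946158), (nat_lit 21380168190), (nat_lit 32050199864), (nat_lit 32703160858), (nat_lit 28897634908), (nat_lit 28850109566), (nat_lit 36809806329), (nat_lit 37231880351)], (nat_lit 1271251), (nat_lit 1271251), (nat_lit 1271251), (nat_lit 1271251), (nat_lit 1100000), (nat_lit 2726876), [(nat_lit 490000), (nat_lit 1100000), (nat_lit 1442501)], [(nat_lit 3), (nat_lit 50), (nat_lit 428), (nat_lit 200), (nat_lit 16)]⟩,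
 ⟨⟨[(nat_lit 120), (nat_lit 160), (nat_lit 180)], [(nat_lit 0), (nat_lit 0), (nat_lit 1613)], [((nat_lit 0), (nat_lit 0), (nat_lit 0)), ((nat_lit 0), (nat_lit 0), (nat_lit 0)), ((nat_lit 620), (nat_lit 1000), (nat_lit 670))], ((nat_lit 100), (nat_lit 76), (nat_lit 52))⟩, (nat_lit 57448), (nat_lit 300), (nat_lit 1287), (nat_lit 9794403), (nat_lit 2167708), [(nat_lit 1051776000), (nat_lit 1567104000), (nat_lit 1855656000)], [], [(nat_lit 7649843252), (nat_lit 7568072750), (nat_lit 7018105019), (nat_lit 6933158365), (nat_lit 7036620261), (nat_lit 7400013367), (nat_lit 6353711358), (nat_lit 6269165517)], (nat_lit 1100000), (nat_lit 1271251), (nat_lit 1271251), (nat_lit 1271251), (nat_lit 1100000), (nat_lit 2726876), [(nat_lit 1695001), (nat_lit 1271251), (nat_lit 1271251)], [(nat_lit 28), (nat_lit 65), (nat_lit 456), (nat_lit 225), (nat_lit 10)]⟩⟩)) (.trZ (nat_lit 0) (nat_lit 1) (nat_lit 3) (nat_lit 82) (nat_lit 78) (nat_lit 100) (nat_lit 150) (.trX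 (nat_lit 4) (nat_lit 0) (nat_lit 2) (nat_lit 76) (nat_lit 73) (nat_lit 100) (nat_lit 340) (.leaf ⟨(nat_lit 0), (nat_lit 885), (nat_lit 0), (nat_lit 115), (nat_lit 0), (nat_lit 5988), (nat_lit 6467), (nat_lit 1222), (nat_lit 1041512), (nat_lit 0), (nat_lit 0), [], Pd.none, Pd.none, (nat_lit 0), (nat_lit 1), (nat_lit 0), (nat_lit 0), (nat_lit 4), (nat_lit 0), [⟨(nat_lit 0), (nat_lit 77), (nat_lit 74), (nat_lit 100), (nat_lit 20023596)⟩, ⟨(nat_lit 0), (nat_lit 71), (nat_lit 71), (nat_lit 100), (nat_lit 67881837)⟩], [⟨(nat_lit 1), (nat_lit 79), (nat_lit 75), (nat_lit 100), (nat_lit 341019959)⟩], [⟨(nat_lit 1), (nat_lit 77), (nat_lit 77), (nat_lit 100), (nat_lit 320108004)⟩], [],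
 ⟨⟨[(nat_lit 40), (nat_lit 80), (nat_lit 100)], [(nat_lit 0), (nat_lit 395), (nat_lit 1536)], [((nat_lit 0), (nat_lit 0), (nat_lit 0)), ((nat_lit 1000), (nat_lit 908), (nat_lit 154)), ((nat_lit 1000), (nat_lit 760), (nat_lit 642))], ((nat_lit 77), (nat_lit 100), (nat_lit 52))⟩, (nat_lit 1623218), (nat_lit 239), (nat_lit 239), (nat_lit 0), (nat_lit 465356), [(nat_lit 2032000179), (nat_lit 4688000032), (nat_lit 6250000000)], [], [(nat_lit 22239763382), (nat_lit 22887976202), (nat_lit 32048339164), (nat_lit 32674319016), (nat_lit 27748060834), (nat_lit 28195357003), (nat_lit 38655632801), (nat_lit 37366584065)], (nat_lit 1271251), (nat_lit 1271251), (nat_lit 1017188), (nat_lit 3134376), (nat_lit 1100000), (nat_lit 2641251), [(nat_lit 490000), (nat_lit 1100000), (nat_lit 1442501)], [(nat_lit 3), (nat_lit 50), (nat_lit 428), (nat_lit 200), (nat_lit 15)]⟩,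
 ⟨⟨[(nat_lit 40), (nat_lit 80), (nat_lit 100)], [(nat_lit 0), (nat_lit 0), (nat_lit 1280)], [((nat_lit 0), (nat_lit 0), (nat_lit 0)), ((nat_lit 0), (nat_lit 0), (nat_lit 0)), ((nat_lit 1000), (nat_lit 800), (nat_lit 600))], ((nat_lit 80), (nat_lit 100), (nat_lit 51))⟩, (nat_lit 1391065), (nat_lit 240), (nat_lit 240), (nat_lit 0), (nat_lit 467436), [(nat_lit 2032000000), (nat_lit 4688000000), (nat_lit 6250000000)], [], [(nat_lit 22261376357), (nat_lit 23615725491), (nat_lit 32026246108), (nat_lit 33330109294), (nat_lit 28576403703), (nat_lit 29477447235), (nat_lit 36785460651), (nat_lit 37628642469)], (nat_lit 1271251), (nat_lit 1271251), (nat_lit 1271251), (nat_lit 1271251), (nat_lit 1100000), (nat_lit 2726876), [(nat_lit 490000), (nat_lit 1100000), (nat_lit 1442501)], [(nat_lit 3), (nat_lit 50), (nat_lit 428), (nat_lit 200), (nat_lit 15)]⟩,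
 ⟨⟨[(nat_lit 120), (nat_lit 160), (nat_lit 180)], [(nat_lit 0), (nat_lit 0), (nat_lit 1613)], [((nat_lit 0), (nat_lit 0), (nat_lit 0)), ((nat_lit 0), (nat_lit 0), (nat_lit 0)), ((nat_lit 620), (nat_lit 1000), (nat_lit 670))], ((nat_lit 100), (nat_lit 76), (nat_lit 52))⟩, (nat_lit 50050), (nat_lit 300), (nat_lit 1594), (nat_lit 8533000), (nat_lit 2824653), [(nat_lit 916320000), (nat_lit 1365280000), (nat_lit 1616670000)], [], [(nat_lit 6688989896), (nat_lit 6615865155), (nat_lit 6125223573), (nat_lit 6050524871), (nat_lit 6139720702), (nat_lit 6457273893), (nat_lit 5517800900), (nat_lit 5442015796)], (nat_lit 1100000), (nat_lit 1271251), (nat_lit 1271251), (nat_lit 1271251), (nat_lit 1100000), (nat_lit 2726876), [(nat_lit 1695001), (nat_lit 1271251), (nat_lit 1271251)], [(nat_lit 28), (nat_lit 65), (nat_lit 508), (nat_lit 225), (nat_lit 11)]⟩⟩)))))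
noncomputable def c12_8 : Tr Lf :=
 (.spl (nat_lit 3) (nat_lit 280) (.spl (nat_lit 2) (nat_lit 160) (.trX (nat_lit 4) (nat_lit 0) (nat_lit 2) (nat_lit 82) (nat_lit 76) (nat_lit 100) (nat_lit 340) (.trX (nat_lit 5) (nat_lit 1) (nat_lit 2) (nat_lit 82) (nat_lit 76) (nat_lit 100) (nat_lit 340) (.spl (nat_lit 2) (nat_lit 140) (.trX (nat_lit 4) (nat_lit 0) (nat_lit 2) (nat_lit 84) (nat_lit 85) (nat_lit 100) (nat_lit 320) (.trX (nat_lit 5) (nat_lit 1) (nat_lit 2) (nat_lit 84) (nat_lit 85) (nat_lit 100) (nat_lit 320) (.spl (nat_lit 0) (nat_lit 330) (.ord (.leaf ⟨(nat_lit 0), (nat_lit 927), (nat_lit 0), (nat_lit 73), (nat_lit 0), (nat_lit 6553), (nat_lit 6553), (nat_lit 774), (nat_lit 976459571761), (nat_lit 0), (nat_lit 0), [], Pd.none, Pd.none, (nat_lit 0), (nat_lit 1), (nat_lit 0), (nat_lit 0), (nat_lit 4), (nat_lit 0), [⟨(nat_lit 0), (nat_lit 77), (nat_lit 77), (nat_lit 100), (nat_lit 10308920)⟩], [⟨(nat_lit 1), (nat_lit 92), (nat_lit 83), (nat_lit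 100), (nat_lit 369185564)⟩], [⟨(nat_lit 1), (nat_lit 92), (nat_lit 83), (nat_lit 100), (nat_lit 369185563)⟩], [],
 ⟨⟨[(nat_lit 40), (nat_lit 80), (nat_lit 120)], [(nat_lit 0), (nat_lit 0), (nat_lit 2151)], [((nat_lit 0), (nat_lit 0), (nat_lit 0)), ((nat_lit 0), (nat_lit 0), (nat_lit 0)), ((nat_lit 1000), (nat_lit 815), (nat_lit 753))], ((nat_lit 81), (nat_lit 100), (nat_lit 70))⟩, (nat_lit 2122364), (nat_lit 199), (nat_lit 199), (nat_lit 0), (nat_lit 381824), [(nat_lit 2032000014), (nat_lit 4688000008), (nat_lit 7968000000)], [], [(nat_lit 20413221300), (nat_lit 21179191991), (nat_lit 24001021686), (nat_lit 24586807917), (nat_lit 25808949746), (nat_lit 26354753167), (nat_lit 32612572768), (nat_lit 31175283619)], (nat_lit 1271251), (nat_lit 1271251), (nat_lit 936250), (nat_lit 2108751), (nat_lit 1100000), (nat_lit 2470001), [(nat_lit 490000), (nat_lit 1100000), (nat_lit 1785001)], [(nat_lit 4), (nat_lit 51), (nat_lit 373), (nat_lit 150), (nat_lit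 11)]⟩,
 ⟨⟨[(nat_lit 40), (nat_lit 80), (nat_lit 120)], [(nat_lit 0), (nat_lit 0), (nat_lit 2151)], [((nat_lit 0), (nat_lit 0), (nat_lit 0)), ((nat_lit 0), (nat_lit 0), (nat_lit 0)), ((nat_lit 1000), (nat_lit 815), (nat_lit 753))], ((nat_lit 81), (nat_lit 100), (nat_lit 70))⟩, (nat_lit 2122364), (nat_lit 199), (nat_lit 199), (nat_lit 0), (nat_lit 381824), [(nat_lit 2032000000), (nat_lit 4688000000), (nat_lit 7968000000)], [], [(nat_lit 20413221292), (nat_lit 21179191983), (nat_lit 24001021678), (nat_lit 24586807909), (nat_lit 25808949738), (nat_lit 26354753159), (nat_lit 32612572754), (nat_lit 31175283605)], (nat_lit 1271251), (nat_lit 1271251), (nat_lit 936250), (nat_lit 2108751), (nat_lit 1100000), (nat_lit 2470001), [(nat_lit 490000), (nat_lit 1100000), (nat_lit 1785001)], [(nat_lit 4), (nat_lit 51), (nat_lit 373), (nat_lit 150), (nat_lit 11)]⟩,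
 ⟨⟨[(nat_lit 140), (nat_lit 180), (nat_lit 200)], [(nat_lit 0), (nat_lit 0), (nat_lit 2835)], [((nat_lit 0), (nat_lit 0), (nat_lit 0)), ((nat_lit 0), (nat_lit 0), (nat_lit 0)), ((nat_lit 363), (nat_lit 1000), (nat_lit 798))], ((nat_lit 0), (nat_lit 0), (nat_lit 0))⟩, (nat_lit 20085), (nat_lit 300), (nat_lit 2119), (nat_lit 5701300), (nat_lit 3706822), [(nat_lit 718466000), (nat_lit 1026234000), (nat_lit 1197200000)], [], [(nat_lit 5578326468), (nat_lit 5525018101), (nat_lit 5222303335), (nat_lit 5169473697), (nat_lit 5222303335), (nat_lit 5169473697), (nat_lit 4866827875), (nat_lit 4814497975)], (nat_lit 780000), (nat_lit 936250), (nat_lit 1100000), (nat_lit 2470001), (nat_lit 1100000), (nat_lit 2470001), [(nat_lit 1977501), (nat_lit 1271251), (nat_lit 1271251)], [(nat_lit 32), (nat_lit 67), (nat_lit 628), (nat_lit 200), (nat_lit 13)]⟩⟩)) (.trZ (nat_lit 0) (nat_lit 1) (nat_lit 3) (nat_lit 82) (nat_lit 78) (nat_lit 100) (nat_lit 150) (.trX (nat_lit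 4) (nat_lit 0) (nat_lit 2) (nat_lit 80) (nat_lit 89) (nat_lit 100) (nat_lit 310) (.leaf ⟨(nat_lit 0), (nat_lit 1000), (nat_lit 0), (nat_lit 0), (nat_lit 0), (nat_lit 5777), (nat_lit 6464), (nat_lit 0), (nat_lit 80506), (nat_lit 0), (nat_lit 0), [], Pd.none, Pd.none, (nat_lit 0), (nat_lit 1), (nat_lit 0), (nat_lit 0), (nat_lit 4), (nat_lit 0), [⟨(nat_lit 0), (nat_lit 77), (nat_lit 74), (nat_lit 100), (nat_lit 269241938)⟩], [⟨(nat_lit 1), (nat_lit 95), (nat_lit 79), (nat_lit 100), (nat_lit 444646915)⟩], [⟨(nat_lit 1), (nat_lit 85), (nat_lit 84), (nat_lit 100), (nat_lit 365302604)⟩], [],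
 ⟨⟨[(nat_lit 40), (nat_lit 80), (nat_lit 120)], [(nat_lit 0), (nat_lit 395), (nat_lit 2466)], [((nat_lit 0), (nat_lit 0), (nat_lit 0)), ((nat_lit 1000), (nat_lit 908), (nat_lit 154)), ((nat_lit 1000), (nat_lit 773), (nat_lit 792))], ((nat_lit 76), (nat_lit 100), (nat_lit 70))⟩, (nat_lit 2215409), (nat_lit 258), (nat_lit 258), (nat_lit 0), (nat_lit 478034), [(nat_lit 2133155129), (nat_lit 4688000030), (nat_lit 7968000000)], [], [(nat_lit 20780595848), (nat_lit 21482068828), (nat_lit 24152263734), (nat_lit 24700981608), (nat_lit 25341466571), (nat_lit 25860893764), (nat_lit 28507728661), (nat_lit 29149567548)], (nat_lit 1271251), (nat_lit 1271251), (nat_lit 1017188), (nat_lit 2118126), (nat_lit 1100000), (nat_lit 2384376), [(nat_lit 490000), (nat_lit 1100000), (nat_lit 1785001)], [(nat_lit 4), (nat_lit 51), (nat_lit 373), (nat_lit 150), (nat_lit 11)]⟩,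
 ⟨⟨[(nat_lit 40), (nat_lit 80), (nat_lit 120)], [(nat_lit 0), (nat_lit 0), (nat_lit 2151)], [((nat_lit 0), (nat_lit 0), (nat_lit 0)), ((nat_lit 0), (nat_lit 0), (nat_lit 0)), ((nat_lit 1000), (nat_lit 815), (nat_lit 753))], ((nat_lit 81), (nat_lit 100), (nat_lit 70))⟩, (nat_lit 2152929), (nat_lit 260), (nat_lit 260), (nat_lit 0), (nat_lit 480511), [(nat_lit 2032000000), (nat_lit 4688000000), (nat_lit 7968000000)], [], [(nat_lit 22666378752), (nat_lit 22015478334), (nat_lit 24093045417), (nat_lit 25256115085), (nat_lit 25803903705), (nat_lit 27041217419), (nat_lit 30433936128), (nat_lit 30159914500)], (nat_lit 1271251), (nat_lit 1271251), (nat_lit 1017188), (nat_lit 2118126), (nat_lit 1100000), (nat_lit 2470001), [(nat_lit 490000), (nat_lit 1100000), (nat_lit 1785001)], [(nat_lit 4), (nat_lit 51), (nat_lit 373), (nat_lit 150), (nat_lit 11)]⟩,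
 Rw.none⟩)))))) (.spl (nat_lit 0) (nat_lit 330) (.ord (.leaf ⟨(nat_lit 0), (nat_lit 871), (nat_lit 0), (nat_lit 129), (nat_lit 0), (nat_lit 7155), (nat_lit 7155), (nat_lit 1147), (nat_lit 1070764193221), (nat_lit 0), (nat_lit 0), [], Pd.none, Pd.none, (nat_lit 0), (nat_lit 1), (nat_lit 0), (nat_lit 0), (nat_lit 4), (nat_lit 0), [⟨(nat_lit 0), (nat_lit 80), (nat_lit 80), (nat_lit 100), (nat_lit 346617341)⟩], [⟨(nat_lit 1), (nat_lit 83), (nat_lit 81), (nat_lit 100), (nat_lit 282745480)⟩], [⟨(nat_lit 1), (nat_lit 83), (nat_lit 81), (nat_lit 100), (nat_lit 279271230)⟩], [],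
 ⟨⟨[(nat_lit 40), (nat_lit 80), (nat_lit 120)], [(nat_lit 0), (nat_lit 0), (nat_lit 2151)], [((nat_lit 0), (nat_lit 0), (nat_lit 0)), ((nat_lit 0), (nat_lit 0), (nat_lit 0)), ((nat_lit 1000), (nat_lit 815), (nat_lit 753))], ((nat_lit 81), (nat_lit 100), (nat_lit 70))⟩, (nat_lit 1454663), (nat_lit 187), (nat_lit 187), (nat_lit 0), (nat_lit 320023), [(nat_lit 2032000003), (nat_lit 4688000005), (nat_lit 7968000000)], [], [(nat_lit 24327585415), (nat_lit 22491709902), (nat_lit 24370089562), (nat_lit 25099985924), (nat_lit 28002628945), (nat_lit 28641737704), (nat_lit 31703810091), (nat_lit 31383029364)], (nat_lit 1271251), (nat_lit 1271251), (nat_lit 936250), (nat_lit 2108751), (nat_lit 1100000), (nat_lit 2641251), [(nat_lit 490000), (nat_lit 1100000), (nat_lit 1785001)], [(nat_lit 4), (nat_lit 51), (nat_lit 401), (nat_lit 175), (nat_lit 12)]⟩,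
 ⟨⟨[(nat_lit 40), (nat_lit 80), (nat_lit 120)], [(nat_lit 0), (nat_lit 0), (nat_lit 2151)], [((nat_lit 0), (nat_lit 0), (nat_lit 0)), ((nat_lit 0), (nat_lit 0), (nat_lit 0)), ((nat_lit 1000), (nat_lit 815), (nat_lit 753))], ((nat_lit 81), (nat_lit 100), (nat_lit 70))⟩, (nat_lit 1454663), (nat_lit 187), (nat_lit 187), (nat_lit 0), (nat_lit 320023), [(nat_lit 2032000000), (nat_lit 4688000000), (nat_lit 7968000000)], [], [(nat_lit 24327585410), (nat_lit 22491709897), (nat_lit 24370089557), (nat_lit 25099985924), (nat_lit 28002628945), (nat_lit 28641737704), (nat_lit 31703810080), (nat_lit 31383029364)], (nat_lit 1271251), (nat_lit 1271251), (nat_lit 936250), (nat_lit 2108751), (nat_lit 1100000), (nat_lit 2641251), [(nat_lit 490000), (nat_lit 1100000), (nat_lit 1785001)], [(nat_lit 4), (nat_lit 51), (nat_lit 401), (nat_lit 175), (nat_lit 12)]⟩,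
 ⟨⟨[(nat_lit 140), (nat_lit 180), (nat_lit 200)], [(nat_lit 0), (nat_lit 608), (nat_lit 3317)], [((nat_lit 0), (nat_lit 0), (nat_lit 0)), ((nat_lit 913), (nat_lit 1000), (nat_lit 217)), ((nat_lit 385), (nat_lit 1000), (nat_lit 814))], ((nat_lit 0), (nat_lit 0), (nat_lit 0))⟩, (nat_lit 297888), (nat_lit 300), (nat_lit 1434), (nat_lit 9068701), (nat_lit 2328629), [(nat_lit 1269618000), (nat_lit 1813482000), (nat_lit 2115600000)], [], [(nat_lit 9724779116), (nat_lit 9640674022), (nat_lit 9185537554), (nat_lit 9101311934), (nat_lit 9185537554), (nat_lit 9101311934), (nat_lit 8636524722), (nat_lit 8938914882)], (nat_lit 936250), (nat_lit 1100000), (nat_lit 1100000), (nat_lit 2641251), (nat_lit 1100000), (nat_lit 2641251), [(nat_lit 1977501), (nat_lit 1271251), (nat_lit 1271251)], [(nat_lit 32), (nat_lit 67), (nat_lit 464), (nat_lit 225), (nat_lit 10)]⟩⟩)) (.trZ (nat_lit 0) (nat_lit 1) (nat_lit 3) (nat_lit 82) (nat_lit 78) (nat_lit 100) (nat_lit 150)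 (.trX (nat_lit 4) (nat_lit 0) (nat_lit 2) (nat_lit 78) (nat_lit 81) (nat_lit 100) (nat_lit 330) (.leaf ⟨(nat_lit 0), (nat_lit 894), (nat_lit 0), (nat_lit 106), (nat_lit 0), (nat_lit 5773), (nat_lit 6278), (nat_lit 985), (nat_lit 4169416), (nat_lit 0), (nat_lit 0), [], Pd.none, Pd.none, (nat_lit 0), (nat_lit 1), (nat_lit 0), (nat_lit 0), (nat_lit 4), (nat_lit 0), [⟨(nat_lit 0), (nat_lit 77), (nat_lit 74), (nat_lit 100), (nat_lit 215455711)⟩], [⟨(nat_lit 1), (nat_lit 87), (nat_lit 76), (nat_lit 100), (nat_lit 366032523)⟩], [⟨(nat_lit 1), (nat_lit 85), (nat_lit 78), (nat_lit 100), (nat_lit 343891874)⟩], [],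
 ⟨⟨[(nat_lit 40), (nat_lit 80), (nat_lit 120)], [(nat_lit 0), (nat_lit 395), (nat_lit 2466)], [((nat_lit 0), (nat_lit 0), (nat_lit 0)), ((nat_lit 1000), (nat_lit 908), (nat_lit 154)), ((nat_lit 1000), (nat_lit 773), (nat_lit 792))], ((nat_lit 76), (nat_lit 100), (nat_lit 70))⟩, (nat_lit 2038091), (nat_lit 241), (nat_lit 241), (nat_lit 0), (nat_lit 414007), [(nat_lit 2032001163), (nat_lit 4688000560), (nat_lit 7968000000)], [], [(nat_lit 21295013681), (nat_lit 21996211238), (nat_lit 24666470732), (nat_lit 25214997532), (nat_lit 26732211483), (nat_lit 27225036922), (nat_lit 30291934113), (nat_lit 30188131089)], (nat_lit 1271251), (nat_lit 1271251), (nat_lit 1017188), (nat_lit 2118126), (nat_lit 1100000), (nat_lit 2555626), [(nat_lit 490000), (nat_lit 1100000), (nat_lit 1785001)], [(nat_lit 4), (nat_lit 51), (nat_lit 401), (nat_lit 175), (nat_lit 12)]⟩,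
 ⟨⟨[(nat_lit 40), (nat_lit 80), (nat_lit 120)], [(nat_lit 0), (nat_lit 0), (nat_lit 2151)], [((nat_lit 0), (nat_lit 0), (nat_lit 0)), ((nat_lit 0), (nat_lit 0), (nat_lit 0)), ((nat_lit 1000), (nat_lit 815), (nat_lit 753))], ((nat_lit 81), (nat_lit 100), (nat_lit 70))⟩, (nat_lit 2004643), (nat_lit 244), (nat_lit 244), (nat_lit 0), (nat_lit 416389), [(nat_lit 2032000000), (nat_lit 4688000000), (nat_lit 7968000000)], [], [(nat_lit 22724551554), (nat_lit 22652272833), (nat_lit 24741728199), (nat_lit 25887027985), (nat_lit 27480525266), (nat_lit 28480200386), (nat_lit 32900096808), (nat_lit 31240873579)], (nat_lit 1271251), (nat_lit 1271251), (nat_lit 1017188), (nat_lit 2118126), (nat_lit 1100000), (nat_lit 2641251), [(nat_lit 490000), (nat_lit 1100000), (nat_lit 1785001)], [(nat_lit 4), (nat_lit 51), (nat_lit 401), (nat_lit 175), (nat_lit 12)]⟩,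
 ⟨⟨[(nat_lit 140), (nat_lit 180), (nat_lit 200)], [(nat_lit 0), (nat_lit 608), (nat_lit 3317)], [((nat_lit 0), (nat_lit 0), (nat_lit 0)), ((nat_lit 913), (nat_lit 1000), (nat_lit 217)), ((nat_lit 385), (nat_lit 1000), (nat_lit 814))], ((nat_lit 0), (nat_lit 0), (nat_lit 0))⟩, (nat_lit 244776), (nat_lit 300), (nat_lit 1853), (nat_lit 7451802), (nat_lit 3198691), [(nat_lit 1043252000), (nat_lit 1490148000), (nat_lit 1738400000)], [], [(nat_lit 8029744697), (nat_lit 7960730578), (nat_lit 7565411468), (nat_lit 7496859341), (nat_lit 7544431474), (nat_lit 7475863288), (nat_lit 7076944444), (nat_lit 7330995416)], (nat_lit 936250), (nat_lit 1100000), (nat_lit 1100000), (nat_lit 2555626), (nat_lit 1100000), (nat_lit 2641251), [(nat_lit 1977501), (nat_lit 1271251), (nat_lit 1271251)], [(nat_lit 32), (nat_lit 67), (nat_lit 567), (nat_lit 225), (nat_lit 12)]⟩⟩))))))) (.spl (nat_lit 0) (nat_lit 330) (.ord (.leaf ⟨(nat_lit 0), (nat_lit 737), (nat_lit 0), (nat_lit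 263), (nat_lit 0), (nat_lit 6820), (nat_lit 6820), (nat_lit 2779), (nat_lit 135326866759), (nat_lit 0), (nat_lit 0), [], Pd.none, Pd.none, (nat_lit 0), (nat_lit 1), (nat_lit 0), (nat_lit 0), (nat_lit 4), (nat_lit 0), [⟨(nat_lit 0), (nat_lit 77), (nat_lit 77), (nat_lit 100), (nat_lit 410216385)⟩], [⟨(nat_lit 1), (nat_lit 74), (nat_lit 79), (nat_lit 100), (nat_lit 216188389)⟩], [⟨(nat_lit 1), (nat_lit 74), (nat_lit 79), (nat_lit 100), (nat_lit 207054444)⟩], [],
 ⟨⟨[(nat_lit 40), (nat_lit 80), (nat_lit 120)], [(nat_lit 0), (nat_lit 0), (nat_lit 2151)], [((nat_lit 0), (nat_lit 0), (nat_lit 0)), ((nat_lit 0), (nat_lit 0), (nat_lit 0)), ((nat_lit 1000), (nat_lit 815), (nat_lit 753))], ((nat_lit 81), (nat_lit 100), (nat_lit 70))⟩, (nat_lit 1550340), (nat_lit 177), (nat_lit 177), (nat_lit 0), (nat_lit 275113), [(nat_lit 2032000724), (nat_lit 4688000516), (nat_lit 7968000000)], [], [(nat_lit 24344462556), (nat_lit 22594543479), (nat_lit 24758138656), (nat_lit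 25356679076), (nat_lit 28592873120), (nat_lit 29196768326), (nat_lit 33239020424), (nat_lit 31757108448)], (nat_lit 1271251), (nat_lit 1271251), (nat_lit 936250), (nat_lit 2108751), (nat_lit 1100000), (nat_lit 2726876), [(nat_lit 490000), (nat_lit 1100000), (nat_lit 1785001)], [(nat_lit 4), (nat_lit 51), (nat_lit 401), (nat_lit 175), (nat_lit 12)]⟩,
 ⟨⟨[(nat_lit 40), (nat_lit 80), (nat_lit 120)], [(nat_lit 0), (nat_lit 0), (nat_lit 2151)], [((nat_lit 0), (nat_lit 0), (nat_lit 0)), ((nat_lit 0), (nat_lit 0), (nat_lit 0)), ((nat_lit 1000), (nat_lit 815), (nat_lit 753))], ((nat_lit 81), (nat_lit 100), (nat_lit 70))⟩, (nat_lit 1550338), (nat_lit 177), (nat_lit 177), (nat_lit 0), (nat_lit 275113), [(nat_lit 2032000000), (nat_lit 4688000000), (nat_lit 7968000000)], [], [(nat_lit 24344462040), (nat_lit 22594542963), (nat_lit 24758142442), (nat_lit 25356682862), (nat_lit 28592877422), (nat_lit 29196768326), (nat_lit 33239018460), (nat_lit 31757108448)],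 (nat_lit 1271251), (nat_lit 1271251), (nat_lit 936250), (nat_lit 2108751), (nat_lit 1100000), (nat_lit 2726876), [(nat_lit 490000), (nat_lit 1100000), (nat_lit 1785001)], [(nat_lit 4), (nat_lit 51), (nat_lit 401), (nat_lit 175), (nat_lit 12)]⟩,
 ⟨⟨[(nat_lit 120), (nat_lit 160), (nat_lit 200)], [(nat_lit 0), (nat_lit 0), (nat_lit 3198)], [((nat_lit 0), (nat_lit 0), (nat_lit 0)), ((nat_lit 0), (nat_lit 0), (nat_lit 0)), ((nat_lit 572), (nat_lit 1000), (nat_lit 714))], ((nat_lit 0), (nat_lit 0), (nat_lit 0))⟩, (nat_lit 128293), (nat_lit 300), (nat_lit 1063), (nat_lit 19514600), (nat_lit 1562019), [(nat_lit 2095584000), (nat_lit 3122336000), (nat_lit 4313200000)], [], [(nat_lit 16652082832), (nat_lit 16483038035), (nat_lit 15418750424), (nat_lit 15240703267), (nat_lit 15418750424), (nat_lit 15240703267), (nat_lit 14068382347), (nat_lit 13888308884)], (nat_lit 1100000), (nat_lit 1271251), (nat_lit 1271251), (nat_lit 1271251), (nat_lit 1100000), (nat_lit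 2726876), [(nat_lit 1695001), (nat_lit 1271251), (nat_lit 1271251)], [(nat_lit 29), (nat_lit 66), (nat_lit 456), (nat_lit 225), (nat_lit 9)]⟩⟩)) (.trZ (nat_lit 0) (nat_lit 1) (nat_lit 3) (nat_lit 82) (nat_lit 78) (nat_lit 100) (nat_lit 150) (.trX (nat_lit 4) (nat_lit 0) (nat_lit 2) (nat_lit 76) (nat_lit 73) (nat_lit 100) (nat_lit 340) (.leaf ⟨(nat_lit 0), (nat_lit 870), (nat_lit 0), (nat_lit 130), (nat_lit 0), (nat_lit 5967), (nat_lit 6408), (nat_lit 1378), (nat_lit 1786891), (nat_lit 0), (nat_lit 0), [], Pd.none, Pd.none, (nat_lit 0), (nat_lit 1), (nat_lit 0), (nat_lit 0), (nat_lit 4), (nat_lit 0), [⟨(nat_lit 0), (nat_lit 77), (nat_lit 74), (nat_lit 100), (nat_lit 251220085)⟩], [⟨(nat_lit 1), (nat_lit 79), (nat_lit 75), (nat_lit 100), (nat_lit 361378718)⟩], [⟨(nat_lit 1), (nat_lit 77), (nat_lit 77), (nat_lit 100), (nat_lit 360740922)⟩], [],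
 ⟨⟨[(nat_lit 40), (nat_lit 80), (nat_lit 120)], [(nat_lit 0), (nat_lit 395), (nat_lit 2466)], [((nat_lit 0), (nat_lit 0), (nat_lit 0)), ((nat_lit 1000), (nat_lit 908), (nat_lit 154)), ((nat_lit 1000), (nat_lit 773), (nat_lit 792))], ((nat_lit 76), (nat_lit 100), (nat_lit 70))⟩, (nat_lit 1825518), (nat_lit 200), (nat_lit 200), (nat_lit 0), (nat_lit 366363), [(nat_lit 2032000125), (nat_lit 4688000131), (nat_lit 7968000000)], [], [(nat_lit 21558325112), (nat_lit 22272880685), (nat_lit 24940007661), (nat_lit 25497801550), (nat_lit 27602518526), (nat_lit 28174730413), (nat_lit 31194044232), (nat_lit 30956003644)], (nat_lit 1271251), (nat_lit 1271251), (nat_lit 1017188), (nat_lit 2118126), (nat_lit 1100000), (nat_lit 2641251), [(nat_lit 490000), (nat_lit 1100000), (nat_lit 1785001)], [(nat_lit 4), (nat_lit 51), (nat_lit 401), (nat_lit 175), (nat_lit 12)]⟩,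
 ⟨⟨[(nat_lit 40), (nat_lit 80), (nat_lit 120)], [(nat_lit 0), (nat_lit 0), (nat_lit 2151)], [((nat_lit 0), (nat_lit 0), (nat_lit 0)), ((nat_lit 0), (nat_lit 0), (nat_lit 0)), ((nat_lit 1000), (nat_lit 815), (nat_lit 753))], ((nat_lit 81), (nat_lit 100), (nat_lit 70))⟩, (nat_lit 1718296), (nat_lit 211), (nat_lit 211), (nat_lit 0), (nat_lit 368653), [(nat_lit 2032000000), (nat_lit 4688000000), (nat_lit 7968000000)], [], [(nat_lit 22683893144), (nat_lit 23046065065), (nat_lit 25127211416), (nat_lit 26284931012), (nat_lit 28426954253), (nat_lit 29415308141), (nat_lit 33899853624), (nat_lit 31982740316)], (nat_lit 1271251), (nat_lit 1271251), (nat_lit 1017188), (nat_lit 2118126), (nat_lit 1100000), (nat_lit 2726876), [(nat_lit 490000), (nat_lit 1100000), (nat_lit 1785001)], [(nat_lit 4), (nat_lit 51), (nat_lit 401), (nat_lit 175), (nat_lit 12)]⟩,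
 ⟨⟨[(nat_lit 120), (nat_lit 160), (nat_lit 200)], [(nat_lit 0), (nat_lit 0), (nat_lit 3198)], [((nat_lit 0), (nat_lit 0), (nat_lit 0)), ((nat_lit 0), (nat_lit 0), (nat_lit 0)), ((nat_lit 572), (nat_lit 1000), (nat_lit 714))], ((nat_lit 0), (nat_lit 0), (nat_lit 0))⟩, (nat_lit 63415), (nat_lit 300), (nat_lit 1354), (nat_lit 9646000), (nat_lit 2208322), [(nat_lit 1035840000), (nat_lit 1543360000), (nat_lit 2132000000)], [], [(nat_lit 8300637800), (nat_lit 8212915204), (nat_lit 7643226682), (nat_lit 7553257680), (nat_lit 7620182323), (nat_lit 7529973299), (nat_lit 6944748915), (nat_lit 6856239647)], (nat_lit 1100000), (nat_lit 1271251), (nat_lit 1271251), (nat_lit 1271251), (nat_lit 1100000), (nat_lit 2726876), [(nat_lit 1695001), (nat_lit 1271251), (nat_lit 1271251)], [(nat_lit 29), (nat_lit 66), (nat_lit 456), (nat_lit 225), (nat_lit 9)]⟩⟩))))) (.spl (nat_lit 2) (nat_lit 160) (.trX (nat_lit 4) (nat_lit 0) (nat_lit 2) (nat_lit 82) (nat_lit 76) (nat_lit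 100) (nat_lit 340) (.trX (nat_lit 5) (nat_lit 1) (nat_lit 2) (nat_lit 82) (nat_lit 76) (nat_lit 100) (nat_lit 340) (.leaf ⟨(nat_lit 0), (nat_lit 1000), (nat_lit 0), (nat_lit 0), (nat_lit 0), (nat_lit 5997), (nat_lit 5997), (nat_lit 0), (nat_lit 226410), (nat_lit 0), (nat_lit 0), [], Pd.none, Pd.none, (nat_lit 0), (nat_lit 1), (nat_lit 0), (nat_lit 0), (nat_lit 4), (nat_lit 0), [], [⟨(nat_lit 1), (nat_lit 89), (nat_lit 80), (nat_lit 100), (nat_lit 383293854)⟩], [⟨(nat_lit 1), (nat_lit 89), (nat_lit 80), (nat_lit 100), (nat_lit 383293820)⟩], [],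
 ⟨⟨[(nat_lit 40), (nat_lit 80), (nat_lit 120)], [(nat_lit 0), (nat_lit 0), (nat_lit 2151)], [((nat_lit 0), (nat_lit 0), (nat_lit 0)), ((nat_lit 0), (nat_lit 0), (nat_lit 0)), ((nat_lit 1000), (nat_lit 815), (nat_lit 753))], ((nat_lit 81), (nat_lit 100), (nat_lit 70))⟩, (nat_lit 1728537), (nat_lit 273), (nat_lit 273), (nat_lit 0), (nat_lit 480651), [(nat_lit 2193937677), (nat_lit 4688000001), (nat_lit 7968000000)], [], [(nat_lit 27438223103), (nat_lit 28382502715), (nat_lit 32203282435), (nat_lit 32891900157), (nat_lit 31144645713), (nat_lit 31796167227), (nat_lit 35735884405), (nat_lit 36580298724)], (nat_lit 1271251), (nat_lit 1271251), (nat_lit 1271251), (nat_lit 1271251), (nat_lit 1100000), (nat_lit 2641251), [(nat_lit 490000), (nat_lit 1100000), (nat_lit 1785001)], [(nat_lit 4), (nat_lit 51), (nat_lit 317), (nat_lit 100), (nat_lit 9)]⟩,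
 ⟨⟨[(nat_lit 40), (nat_lit 80), (nat_lit 120)], [(nat_lit 0), (nat_lit 0), (nat_lit 2151)], [((nat_lit 0), (nat_lit 0), (nat_lit 0)), ((nat_lit 0), (nat_lit 0), (nat_lit 0)), ((nat_lit 1000), (nat_lit 815), (nat_lit 753))], ((nat_lit 81), (nat_lit 100), (nat_lit 70))⟩, (nat_lit 1728537), (nat_lit 273), (nat_lit 273), (nat_lit 0), (nat_lit 480651), [(nat_lit 2032000000), (nat_lit 4688000000), (nat_lit 7968000000)], [], [(nat_lit 27438223101), (nat_lit 28382502713), (nat_lit 32203282433), (nat_lit 32891900155), (nat_lit 31144645711), (nat_lit 31796167224), (nat_lit 35735884405), (nat_lit 36580298724)], (nat_lit 1271251), (nat_lit 1271251), (nat_lit 1271251), (nat_lit 1271251), (nat_lit 1100000), (nat_lit 2641251), [(nat_lit 490000), (nat_lit 1100000), (nat_lit 1785001)], [(nat_lit 4), (nat_lit 51), (nat_lit 317), (nat_lit 100), (nat_lit 9)]⟩,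
 Rw.none⟩))) (.leaf ⟨(nat_lit 0), (nat_lit 893), (nat_lit 0), (nat_lit 107), (nat_lit 0), (nat_lit 5622), (nat_lit 5622), (nat_lit 1144), (nat_lit 1356943809205), (nat_lit 0), (nat_lit 0), [], Pd.none, Pd.none, (nat_lit 0), (nat_lit 1), (nat_lit 0), (nat_lit 0), (nat_lit 4), (nat_lit 0), [], [⟨(nat_lit 1), (nat_lit 77), (nat_lit 77), (nat_lit 100), (nat_lit 312068675)⟩], [⟨(nat_lit 1), (nat_lit 77), (nat_lit 77), (nat_lit 100), (nat_lit 312068675)⟩], [],
 ⟨⟨[(nat_lit 40), (nat_lit 80), (nat_lit 120)], [(nat_lit 0), (nat_lit 0), (nat_lit 2151)], [((nat_lit 0), (nat_lit 0), (nat_lit 0)), ((nat_lit 0), (nat_lit 0), (nat_lit 0)), ((nat_lit 1000), (nat_lit 815), (nat_lit 753))], ((nat_lit 81), (nat_lit 100), (nat_lit 70))⟩, (nat_lit 1798137), (nat_lit 238), (nat_lit 238), (nat_lit 0), (nat_lit 368783), [(nat_lit 2251947452), (nat_lit 4688000002), (nat_lit 7968000000)], [], [(nat_lit 26348804623), (nat_lit 27431432137), (nat_lit 31838805091), (nat_lit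 32625962967), (nat_lit 31192348576), (nat_lit 31920549707), (nat_lit 35702718633), (nat_lit 36502928821)], (nat_lit 1271251), (nat_lit 1271251), (nat_lit 1271251), (nat_lit 1271251), (nat_lit 1100000), (nat_lit 2726876), [(nat_lit 490000), (nat_lit 1100000), (nat_lit 1785001)], [(nat_lit 4), (nat_lit 51), (nat_lit 317), (nat_lit 100), (nat_lit 9)]⟩,
 ⟨⟨[(nat_lit 40), (nat_lit 80), (nat_lit 120)], [(nat_lit 0), (nat_lit 0), (nat_lit 2151)], [((nat_lit 0), (nat_lit 0), (nat_lit 0)), ((nat_lit 0), (nat_lit 0), (nat_lit 0)), ((nat_lit 1000), (nat_lit 815), (nat_lit 753))], ((nat_lit 81), (nat_lit 100), (nat_lit 70))⟩, (nat_lit 1798137), (nat_lit 238), (nat_lit 238), (nat_lit 0), (nat_lit 368783), [(nat_lit 2032000000), (nat_lit 4688000000), (nat_lit 7968000000)], [], [(nat_lit 26348804621), (nat_lit 27431432135), (nat_lit 31838805089), (nat_lit 32625962965), (nat_lit 31192348574), (nat_lit 31920549703), (nat_lit 35702718633), (nat_lit 36502928821)],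 (nat_lit 1271251), (nat_lit 1271251), (nat_lit 1271251), (nat_lit 1271251), (nat_lit 1100000), (nat_lit 2726876), [(nat_lit 490000), (nat_lit 1100000), (nat_lit 1785001)], [(nat_lit 4), (nat_lit 51), (nat_lit 317), (nat_lit 100), (nat_lit 9)]⟩,
 ⟨⟨[(nat_lit 120), (nat_lit 160), (nat_lit 200)], [(nat_lit 0), (nat_lit 0), (nat_lit 3198)], [((nat_lit 0), (nat_lit 0), (nat_lit 0)), ((nat_lit 0), (nat_lit 0), (nat_lit 0)), ((nat_lit 572), (nat_lit 1000), (nat_lit 714))], ((nat_lit 0), (nat_lit 0), (nat_lit 0))⟩, (nat_lit 52195), (nat_lit 300), (nat_lit 1354), (nat_lit 7939402), (nat_lit 2208322), [(nat_lit 852576000), (nat_lit 1270304000), (nat_lit 1754800000)], [], [(nat_lit 6759688508), (nat_lit 6686669704), (nat_lit 6192886684), (nat_lit 6117814235), (nat_lit 6192886684), (nat_lit 6117814235), (nat_lit 5653999141), (nat_lit 5579931963)], (nat_lit 1100000), (nat_lit 1271251), (nat_lit 1271251), (nat_lit 1271251), (nat_lit 1100000), (nat_lit 2726876),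 [(nat_lit 1695001), (nat_lit 1271251), (nat_lit 1271251)], [(nat_lit 29), (nat_lit 66), (nat_lit 456), (nat_lit 225), (nat_lit 9)]⟩⟩)))
noncomputable def c12_9 : Tr Lf :=
 (.spl (nat_lit 4) (nat_lit 200) (.spl (nat_lit 4) (nat_lit 120) (.spl (nat_lit 3) (nat_lit 280) (.leaf ⟨(nat_lit 59), (nat_lit 856), (nat_lit 0), (nat_lit 85), (nat_lit 0), (nat_lit 9724), (nat_lit 6774), (nat_lit 1086), (nat_lit 738893884286), (nat_lit 0), (nat_lit 236000), [((nat_lit 340), [((nat_lit 37), (nat_lit 5), (nat_lit 59))])], ⟨(nat_lit 8), false, false, false, (nat_lit 263), (nat_lit 3872), (nat_lit 4473), [(nat_lit 1527314), (nat_lit 1533860), (nat_lit 1548863), (nat_lit 1555635), (nat_lit 1765265), (nat_lit 1759713), (nat_lit 1786814), (nat_lit 1781488)]⟩, ⟨(nat_lit 4), false, false, false, (nat_lit 118), (nat_lit 3872), (nat_lit 4473), [(nat_lit 1172511), (nat_lit 1187839), (nat_lit 1237161), (nat_lit 1253169), (nat_lit 1342475), (nat_lit 1349162), (nat_lit 1407125),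 (nat_lit 1414492)]⟩, (nat_lit 4527375), (nat_lit 42437952), (nat_lit 19144862), (nat_lit 5417186), (nat_lit 4), (nat_lit 0), [⟨(nat_lit 0), (nat_lit 77), (nat_lit 77), (nat_lit 100), (nat_lit 123869018)⟩], [⟨(nat_lit 0), (nat_lit 100), (nat_lit 76), (nat_lit 69), (nat_lit 318284634)⟩], [], [],
 ⟨⟨[(nat_lit 40), (nat_lit 80), (nat_lit 120)], [(nat_lit 0), (nat_lit 0), (nat_lit 2151)], [((nat_lit 0), (nat_lit 0), (nat_lit 0)), ((nat_lit 0), (nat_lit 0), (nat_lit 0)), ((nat_lit 1000), (nat_lit 815), (nat_lit 753))], ((nat_lit 81), (nat_lit 100), (nat_lit 70))⟩, (nat_lit 2062963), (nat_lit 300), (nat_lit 406), (nat_lit 51517346), (nat_lit 612501), [(nat_lit 2059838550), (nat_lit 4121387621), (nat_lit 6195751937)], [(nat_lit 0), (nat_lit 0), (nat_lit 0)], [(nat_lit 27327197552), (nat_lit 28731640869), (nat_lit 31809302734), (nat_lit 34733788914), (nat_lit 22709800896), (nat_lit 23966619257), (nat_lit 24553789412), (nat_lit 27210606010)], (nat_lit 1271251),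 (nat_lit 1271251), (nat_lit 936250), (nat_lit 2108751), (nat_lit 111251), (nat_lit 780000), [(nat_lit 490000), (nat_lit 1100000), (nat_lit 1785001)], [(nat_lit 4), (nat_lit 51), (nat_lit 317), (nat_lit 100), (nat_lit 10)]⟩,
 ⟨⟨[(nat_lit 40), (nat_lit 80), (nat_lit 120)], [(nat_lit 0), (nat_lit 0), (nat_lit 2151)], [((nat_lit 0), (nat_lit 0), (nat_lit 0)), ((nat_lit 0), (nat_lit 0), (nat_lit 0)), ((nat_lit 1000), (nat_lit 815), (nat_lit 753))], ((nat_lit 81), (nat_lit 100), (nat_lit 70))⟩, (nat_lit 4035156), (nat_lit 504), (nat_lit 504), (nat_lit 0), (nat_lit 813423), [(nat_lit 1912112000), (nat_lit 4411408000), (nat_lit 7497888000)], [], [(nat_lit 23825360860), (nat_lit 23639366724), (nat_lit 26372753310), (nat_lit 28597578874), (nat_lit 20987607143), (nat_lit 22130356639), (nat_lit 27372318852), (nat_lit 24437161587)], (nat_lit 1271251), (nat_lit 1271251), (nat_lit 936250), (nat_lit 2108751), (nat_lit 111251), (nat_lit 1416250), [(nat_lit 490000),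 (nat_lit 1100000), (nat_lit 1785001)], [(nat_lit 4), (nat_lit 51), (nat_lit 345), (nat_lit 125), (nat_lit 11)]⟩,
 ⟨⟨[(nat_lit 120), (nat_lit 160), (nat_lit 180)], [(nat_lit 0), (nat_lit 533), (nat_lit 2066)], [((nat_lit 0), (nat_lit 0), (nat_lit 0)), ((nat_lit 960), (nat_lit 1000), (nat_lit 200)), ((nat_lit 615), (nat_lit 1000), (nat_lit 729))], ((nat_lit 100), (nat_lit 65), (nat_lit 70))⟩, (nat_lit 1016620), (nat_lit 300), (nat_lit 1284), (nat_lit 5644000), (nat_lit 1792730), [(nat_lit 677280000), (nat_lit 1009120000), (nat_lit 1194930000)], [], [(nat_lit 5464930934), (nat_lit 5050054086), (nat_lit 4409037066), (nat_lit 4313746230), (nat_lit 4163655765), (nat_lit 4056000234), (nat_lit 4012845401), (nat_lit 3381321183)], (nat_lit 1271251), (nat_lit 1271251), (nat_lit 111251), (nat_lit 780000), (nat_lit 111251), (nat_lit 1416250), [(nat_lit 1695001), (nat_lit 1271251), (nat_lit 1271251)], [(nat_lit 28), (nat_lit 65), (nat_lit 391), (nat_lit 150),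 (nat_lit 10)]⟩⟩) (.leaf ⟨(nat_lit 60), (nat_lit 803), (nat_lit 0), (nat_lit 137), (nat_lit 0), (nat_lit 7162), (nat_lit 5621), (nat_lit 1759), (nat_lit 1521686314896), (nat_lit 0), (nat_lit 240000), [((nat_lit 340), [((nat_lit 37), (nat_lit 5), (nat_lit 60))])], ⟨(nat_lit 8), false, true, true, (nat_lit 349), (nat_lit 3872), (nat_lit 4473), [(nat_lit 1765265), (nat_lit 1759713), (nat_lit 1786814), (nat_lit 1781488), (nat_lit 1969223), (nat_lit 1953301), (nat_lit 1990771), (nat_lit 1975076)]⟩, ⟨(nat_lit 4), false, false, false, (nat_lit 118), (nat_lit 3872), (nat_lit 4473), [(nat_lit 1172511), (nat_lit 1187839), (nat_lit 1237161), (nat_lit 1253169), (nat_lit 1342475), (nat_lit 1349162), (nat_lit 1407125), (nat_lit 1414492)]⟩, (nat_lit 4734428), (nat_lit 35144340), (nat_lit 27080599), (nat_lit 4775061), (nat_lit 4), (nat_lit 0), [], [⟨(nat_lit 0), (nat_lit 100), (nat_lit 76), (nat_lit 69), (nat_lit 296176464)⟩], [⟨(nat_lit 0), (nat_lit 100), (nat_lit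 76), (nat_lit 69), (nat_lit 52963303)⟩], [],
 ⟨⟨[(nat_lit 40), (nat_lit 80), (nat_lit 120)], [(nat_lit 0), (nat_lit 0), (nat_lit 2151)], [((nat_lit 0), (nat_lit 0), (nat_lit 0)), ((nat_lit 0), (nat_lit 0), (nat_lit 0)), ((nat_lit 1000), (nat_lit 815), (nat_lit 753))], ((nat_lit 81), (nat_lit 100), (nat_lit 70))⟩, (nat_lit 686403), (nat_lit 300), (nat_lit 404), (nat_lit 51421858), (nat_lit 612501), [(nat_lit 2056874277), (nat_lit 4113748582), (nat_lit 6163786254)], [(nat_lit 0), (nat_lit 0), (nat_lit 0)], [(nat_lit 34438402370), (nat_lit 35334261891), (nat_lit 39668530674), (nat_lit 41235164810), (nat_lit 31184083564), (nat_lit 31992987257), (nat_lit 35136088476), (nat_lit 35707068433)], (nat_lit 1271251), (nat_lit 1271251), (nat_lit 1271251), (nat_lit 1271251), (nat_lit 111251), (nat_lit 780000), [(nat_lit 490000), (nat_lit 1100000), (nat_lit 1785001)], [(nat_lit 4), (nat_lit 51), (nat_lit 238), (nat_lit 30), (nat_lit 7)]⟩,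
 ⟨⟨[(nat_lit 40), (nat_lit 80), (nat_lit 120)], [(nat_lit 0), (nat_lit 0), (nat_lit 2151)], [((nat_lit 0), (nat_lit 0), (nat_lit 0)), ((nat_lit 0), (nat_lit 0), (nat_lit 0)), ((nat_lit 1000), (nat_lit 815), (nat_lit 753))], ((nat_lit 81), (nat_lit 100), (nat_lit 70))⟩, (nat_lit 3804874), (nat_lit 487), (nat_lit 487), (nat_lit 0), (nat_lit 813423), [(nat_lit 1910080000), (nat_lit 4406720000), (nat_lit 7489920000)], [], [(nat_lit 30897934000), (nat_lit 31742231286), (nat_lit 35180285153), (nat_lit 35804717015), (nat_lit 29498646137), (nat_lit 30173303965), (nat_lit 32892518074), (nat_lit 33390603317)], (nat_lit 1271251), (nat_lit 1271251), (nat_lit 1271251), (nat_lit 1271251), (nat_lit 111251), (nat_lit 1416250), [(nat_lit 490000), (nat_lit 1100000), (nat_lit 1785001)], [(nat_lit 4), (nat_lit 51), (nat_lit 260), (nat_lit 50), (nat_lit 8)]⟩,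
 ⟨⟨[(nat_lit 120), (nat_lit 160), (nat_lit 180)], [(nat_lit 0), (nat_lit 533), (nat_lit 2066)], [((nat_lit 0), (nat_lit 0), (nat_lit 0)), ((nat_lit 960), (nat_lit 1000), (nat_lit 200)), ((nat_lit 615), (nat_lit 1000), (nat_lit 729))], ((nat_lit 100), (nat_lit 65), (nat_lit 70))⟩, (nat_lit 797870), (nat_lit 300), (nat_lit 1284), (nat_lit 9096800), (nat_lit 1792730), [(nat_lit 1091616000), (nat_lit 1626464000), (nat_lit 1925946000)], [], [(nat_lit 8822827387), (nat_lit 8150128902), (nat_lit 7094723128), (nat_lit 6939645748), (nat_lit 6696373008), (nat_lit 6521294054), (nat_lit 6471652951), (nat_lit 5427650593)], (nat_lit 1271251), (nat_lit 1271251), (nat_lit 111251), (nat_lit 780000), (nat_lit 111251), (nat_lit 1416250), [(nat_lit 1695001), (nat_lit 1271251), (nat_lit 1271251)], [(nat_lit 28), (nat_lit 65), (nat_lit 391), (nat_lit 150), (nat_lit 10)]⟩⟩)) (.spl (nat_lit 5) (nat_lit 120) (.leaf ⟨(nat_lit 59), (nat_lit 725), (nat_lit 0), (nat_lit 216),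 (nat_lit 0), (nat_lit 7233), (nat_lit 6999), (nat_lit 3078), (nat_lit 2103226740905), (nat_lit 0), (nat_lit 236000), [((nat_lit 340), [((nat_lit 37), (nat_lit 5), (nat_lit 59))])], ⟨(nat_lit 8), false, true, false, (nat_lit 303), (nat_lit 3872), (nat_lit 4473), [(nat_lit 1527314), (nat_lit 1533860), (nat_lit 1548863), (nat_lit 1555635), (nat_lit 1969223), (nat_lit 1953301), (nat_lit 1990771), (nat_lit 1975076)]⟩, ⟨(nat_lit 4), false, false, false, (nat_lit 178), (nat_lit 3872), (nat_lit 4473), [(nat_lit 1342475), (nat_lit 1349162), (nat_lit 1407125), (nat_lit 1414492), (nat_lit 1478432), (nat_lit 1478205), (nat_lit 1543097), (nat_lit 1543551)]⟩, (nat_lit 5218006), (nat_lit 36201000), (nat_lit 21632221), (nat_lit 9166779), (nat_lit 4), (nat_lit 0), [⟨(nat_lit 0), (nat_lit 71), (nat_lit 71), (nat_lit 100), (nat_lit 54301406)⟩], [], [⟨(nat_lit 0), (nat_lit 100), (nat_lit 76), (nat_lit 69), (nat_lit 293267420)⟩], [],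
 ⟨⟨[(nat_lit 40), (nat_lit 80), (nat_lit 120)], [(nat_lit 0), (nat_lit 0), (nat_lit 2151)], [((nat_lit 0), (nat_lit 0), (nat_lit 0)), ((nat_lit 0), (nat_lit 0), (nat_lit 0)), ((nat_lit 1000), (nat_lit 815), (nat_lit 753))], ((nat_lit 81), (nat_lit 100), (nat_lit 70))⟩, (nat_lit 1582993), (nat_lit 300), (nat_lit 422), (nat_lit 51517346), (nat_lit 813423), [(nat_lit 2059963024), (nat_lit 4121387604), (nat_lit 6195751988)], [(nat_lit 0), (nat_lit 0), (nat_lit 0)], [(nat_lit 29408501593), (nat_lit 30337086154), (nat_lit 34985662374), (nat_lit 35558140325), (nat_lit 29354144374), (nat_lit 30269929263), (nat_lit 34065840330), (nat_lit 34655064857)], (nat_lit 1271251), (nat_lit 1271251), (nat_lit 936250), (nat_lit 3113751), (nat_lit 780000), (nat_lit 1435001), [(nat_lit 490000), (nat_lit 1100000), (nat_lit 1785001)], [(nat_lit 4), (nat_lit 51), (nat_lit 373), (nat_lit 150), (nat_lit 12)]⟩,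
 ⟨⟨[(nat_lit 40), (nat_lit 80), (nat_lit 120)], [(nat_lit 0), (nat_lit 0), (nat_lit 2151)], [((nat_lit 0), (nat_lit 0), (nat_lit 0)), ((nat_lit 0), (nat_lit 0), (nat_lit 0)), ((nat_lit 1000), (nat_lit 815), (nat_lit 753))], ((nat_lit 81), (nat_lit 100), (nat_lit 70))⟩, (nat_lit 3793481), (nat_lit 406), (nat_lit 406), (nat_lit 0), (nat_lit 612501), [(nat_lit 1912112000), (nat_lit 4411408000), (nat_lit 7497888000)], [], [(nat_lit 23698561941), (nat_lit 23024172780), (nat_lit 37985334162), (nat_lit 39492792169), (nat_lit 19424659899), (nat_lit 20751805166), (nat_lit 32495277034), (nat_lit 33611636011)], (nat_lit 1271251), (nat_lit 1271251), (nat_lit 936250), (nat_lit 3113751), (nat_lit 111251), (nat_lit 780000), [(nat_lit 490000), (nat_lit 1100000), (nat_lit 1785001)], [(nat_lit 4), (nat_lit 51), (nat_lit 373), (nat_lit 150), (nat_lit 12)]⟩,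
 ⟨⟨[(nat_lit 120), (nat_lit 160), (nat_lit 180)], [(nat_lit 0), (nat_lit 533), (nat_lit 2066)], [((nat_lit 0), (nat_lit 0), (nat_lit 0)), ((nat_lit 960), (nat_lit 1000), (nat_lit 200)), ((nat_lit 615), (nat_lit 1000), (nat_lit 729))], ((nat_lit 100), (nat_lit 65), (nat_lit 70))⟩, (nat_lit 1228027), (nat_lit 300), (nat_lit 1210), (nat_lit 14342400), (nat_lit 1792730), [(nat_lit 1721088000), (nat_lit 2564352000), (nat_lit 3036528000)], [], [(nat_lit 10775735748), (nat_lit 10478555172), (nat_lit 10046870985), (nat_lit 9834284898), (nat_lit 8805620417), (nat_lit 8508299994), (nat_lit 10587999321), (nat_lit 7794850644)], (nat_lit 1271251), (nat_lit 1271251), (nat_lit 780000), (nat_lit 1435001), (nat_lit 111251), (nat_lit 780000), [(nat_lit 1695001), (nat_lit 1271251), (nat_lit 1271251)], [(nat_lit 28), (nat_lit 65), (nat_lit 373), (nat_lit 150), (nat_lit 9)]⟩⟩) (.leaf ⟨(nat_lit 59), (nat_lit 752), (nat_lit 0), (nat_lit 189), (nat_lit 0), (nat_lit 7470),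 (nat_lit 7470), (nat_lit 2025), (nat_lit 2088429150073), (nat_lit 0), (nat_lit 236000), [((nat_lit 340), [((nat_lit 37), (nat_lit 5), (nat_lit 59))])], ⟨(nat_lit 8), false, true, false, (nat_lit 303), (nat_lit 3872), (nat_lit 4473), [(nat_lit 1527314), (nat_lit 1533860), (nat_lit 1548863), (nat_lit 1555635), (nat_lit 1969223), (nat_lit 1953301), (nat_lit 1990771), (nat_lit 1975076)]⟩, ⟨(nat_lit 4), false, false, false, (nat_lit 178), (nat_lit 3872), (nat_lit 4473), [(nat_lit 1342475), (nat_lit 1349162), (nat_lit 1407125), (nat_lit 1414492), (nat_lit 1478432), (nat_lit 1478205), (nat_lit 1543097), (nat_lit 1543551)]⟩, (nat_lit 5218006), (nat_lit 36201000), (nat_lit 21632221), (nat_lit 9166779), (nat_lit 4), (nat_lit 0), [⟨(nat_lit 0), (nat_lit 71), (nat_lit 71), (nat_lit 100), (nat_lit 36444607)⟩], [], [], [],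
 ⟨⟨[(nat_lit 40), (nat_lit 80), (nat_lit 120)], [(nat_lit 0), (nat_lit 0), (nat_lit 2151)], [((nat_lit 0), (nat_lit 0), (nat_lit 0)), ((nat_lit 0), (nat_lit 0), (nat_lit 0)), ((nat_lit 1000), (nat_lit 815), (nat_lit 753))], ((nat_lit 81), (nat_lit 100), (nat_lit 70))⟩, (nat_lit 1814821), (nat_lit 300), (nat_lit 422), (nat_lit 51517346), (nat_lit 813423), [(nat_lit 2059621013), (nat_lit 4121387629), (nat_lit 6195751913)], [(nat_lit 0), (nat_lit 0), (nat_lit 0)], [(nat_lit 28647819640), (nat_lit 29730983924), (nat_lit 34368788820), (nat_lit 35770997005), (nat_lit 28662521595), (nat_lit 29612607808), (nat_lit 33646670400), (nat_lit 34959202335)], (nat_lit 1271251), (nat_lit 1271251), (nat_lit 936250), (nat_lit 3113751), (nat_lit 780000), (nat_lit 1435001), [(nat_lit 490000), (nat_lit 1100000), (nat_lit 1785001)], [(nat_lit 4), (nat_lit 51), (nat_lit 373), (nat_lit 150), (nat_lit 12)]⟩,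
 ⟨⟨[(nat_lit 40), (nat_lit 80), (nat_lit 120)], [(nat_lit 0), (nat_lit 0), (nat_lit 2151)], [((nat_lit 0), (nat_lit 0), (nat_lit 0)), ((nat_lit 0), (nat_lit 0), (nat_lit 0)), ((nat_lit 1000), (nat_lit 815), (nat_lit 753))], ((nat_lit 81), (nat_lit 100), (nat_lit 70))⟩, (nat_lit 4518923), (nat_lit 422), (nat_lit 422), (nat_lit 0), (nat_lit 813423), [(nat_lit 1912112000), (nat_lit 4411408000), (nat_lit 7497888000)], [], [(nat_lit 17819348715), (nat_lit 19200575851), (nat_lit 32920383950), (nat_lit 34372085057), (nat_lit 18537328703), (nat_lit 19747120766), (nat_lit 32184187368), (nat_lit 33462189612)], (nat_lit 1271251), (nat_lit 1271251), (nat_lit 936250), (nat_lit 3113751), (nat_lit 780000), (nat_lit 1435001), [(nat_lit 490000), (nat_lit 1100000), (nat_lit 1785001)], [(nat_lit 4), (nat_lit 51), (nat_lit 373), (nat_lit 150), (nat_lit 12)]⟩,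
 ⟨⟨[(nat_lit 120), (nat_lit 160), (nat_lit 180)], [(nat_lit 0), (nat_lit 533), (nat_lit 2066)], [((nat_lit 0), (nat_lit 0), (nat_lit 0)), ((nat_lit 960), (nat_lit 1000), (nat_lit 200)), ((nat_lit 615), (nat_lit 1000), (nat_lit 729))], ((nat_lit 100), (nat_lit 65), (nat_lit 70))⟩, (nat_lit 1270074), (nat_lit 300), (nat_lit 1710), (nat_lit 12549600), (nat_lit 2985723), [(nat_lit 1505952000), (nat_lit 2243808000), (nat_lit 2656962000)], [], [(nat_lit 9659825816), (nat_lit 9352379664), (nat_lit 9128680871), (nat_lit 8814014136), (nat_lit 9128680871), (nat_lit 8814014136), (nat_lit 10842058609), (nat_lit 8301115089)], (nat_lit 1271251), (nat_lit 1271251), (nat_lit 780000), (nat_lit 1435001), (nat_lit 780000), (nat_lit 1435001), [(nat_lit 1695001), (nat_lit 1271251), (nat_lit 1271251)], [(nat_lit 28), (nat_lit 65), (nat_lit 508), (nat_lit 175), (nat_lit 12)]⟩⟩))) (.stt (nat_lit 3) (.leaf ⟨(nat_lit 0), (nat_lit 0), (nat_lit 0), (nat_lit 1000), (nat_lit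 0), (nat_lit 8662), (nat_lit 7591), (nat_lit 17806), (nat_lit 79813), (nat_lit 0), (nat_lit 0), [], Pd.none, Pd.none, (nat_lit 0), (nat_lit 1), (nat_lit 0), (nat_lit 0), (nat_lit 0), (nat_lit 0), [], [], [⟨(nat_lit 0), (nat_lit 100), (nat_lit 80), (nat_lit 52), (nat_lit 1319331840)⟩], [],
 ⟨⟨[(nat_lit 40), (nat_lit 80), (nat_lit 120)], [(nat_lit 0), (nat_lit 0), (nat_lit 2151)], [((nat_lit 0), (nat_lit 0), (nat_lit 0)), ((nat_lit 0), (nat_lit 0), (nat_lit 0)), ((nat_lit 1000), (nat_lit 815), (nat_lit 753))], ((nat_lit 81), (nat_lit 100), (nat_lit 70))⟩, (nat_lit 715428), (nat_lit 300), (nat_lit 405), (nat_lit 58600001), (nat_lit 813423), [(nat_lit 2276912937), (nat_lit 4688000002), (nat_lit 7968000000)], [], [(nat_lit 27831694471), (nat_lit 28856341774), (nat_lit 35060287040), (nat_lit 36488872691), (nat_lit 34375497692), (nat_lit 36025683653), (nat_lit 41712377445), (nat_lit 42530692089)], (nat_lit 1271251), (nat_lit 1271251), (nat_lit 936250),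 (nat_lit 3113751), (nat_lit 1271251), (nat_lit 1271251), [(nat_lit 490000), (nat_lit 1100000), (nat_lit 1785001)], [(nat_lit 4), (nat_lit 51), (nat_lit 428), (nat_lit 200), (nat_lit 13)]⟩,
 ⟨⟨[(nat_lit 40), (nat_lit 80), (nat_lit 120)], [(nat_lit 0), (nat_lit 0), (nat_lit 2151)], [((nat_lit 0), (nat_lit 0), (nat_lit 0)), ((nat_lit 0), (nat_lit 0), (nat_lit 0)), ((nat_lit 1000), (nat_lit 815), (nat_lit 753))], ((nat_lit 81), (nat_lit 100), (nat_lit 70))⟩, (nat_lit 6515455), (nat_lit 504), (nat_lit 504), (nat_lit 0), (nat_lit 813423), [(nat_lit 2032000000), (nat_lit 4688000000), (nat_lit 7968000000)], [], [(nat_lit 25098126257), (nat_lit 25400064030), (nat_lit 40754834607), (nat_lit 42376433403), (nat_lit 22357341672), (nat_lit 23393990582), (nat_lit 37312946194), (nat_lit 35114479276)], (nat_lit 1271251), (nat_lit 1271251), (nat_lit 936250), (nat_lit 3113751), (nat_lit 111251), (nat_lit 1416250), [(nat_lit 490000), (nat_lit 1100000), (nat_lit 1785001)],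 [(nat_lit 4), (nat_lit 51), (nat_lit 373), (nat_lit 150), (nat_lit 12)]⟩,
 ⟨⟨[(nat_lit 120), (nat_lit 160), (nat_lit 180)], [(nat_lit 0), (nat_lit 533), (nat_lit 2066)], [((nat_lit 0), (nat_lit 0), (nat_lit 0)), ((nat_lit 960), (nat_lit 1000), (nat_lit 200)), ((nat_lit 615), (nat_lit 1000), (nat_lit 729))], ((nat_lit 100), (nat_lit 65), (nat_lit 70))⟩, (nat_lit 2537993), (nat_lit 300), (nat_lit 303), (nat_lit 66400000), (nat_lit 0), [(nat_lit 7968000000), (nat_lit 11872000000), (nat_lit 14058000000)], [], [(nat_lit 38733428261), (nat_lit 39096903220), (nat_lit 54701793888), (nat_lit 56292991992), (nat_lit 24553102962), (nat_lit 24364988376), (nat_lit 36754935602), (nat_lit 37917621698)], (nat_lit 0), (nat_lit 0), (nat_lit 0), (nat_lit 0), (nat_lit 0), (nat_lit 0), [], [(nat_lit 28), (nat_lit 65), (nat_lit 456), (nat_lit 225), (nat_lit 11)]⟩⟩) (.spl (nat_lit 5) (nat_lit 120) (.trX (nat_lit 3) (nat_lit 4) (nat_lit 5) (nat_lit 100) (nat_lit 40) (nat_lit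 92) (nat_lit 390) (.leaf ⟨(nat_lit 0), (nat_lit 735), (nat_lit 0), (nat_lit 265), (nat_lit 0), (nat_lit 7592), (nat_lit 7217), (nat_lit 2698), (nat_lit 123713), (nat_lit 0), (nat_lit 0), [], Pd.none, Pd.none, (nat_lit 0), (nat_lit 1), (nat_lit 0), (nat_lit 0), (nat_lit 5), (nat_lit 0), [], [⟨(nat_lit 1), (nat_lit 61), (nat_lit 76), (nat_lit 100), (nat_lit 201932424)⟩], [⟨(nat_lit 0), (nat_lit 100), (nat_lit 76), (nat_lit 69), (nat_lit 311434362)⟩], [⟨(nat_lit 0), (nat_lit 93), (nat_lit 100), (nat_lit 78), (nat_lit 1446922)⟩],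
 ⟨⟨[(nat_lit 40), (nat_lit 80), (nat_lit 120)], [(nat_lit 0), (nat_lit 0), (nat_lit 2151)], [((nat_lit 0), (nat_lit 0), (nat_lit 0)), ((nat_lit 0), (nat_lit 0), (nat_lit 0)), ((nat_lit 1000), (nat_lit 815), (nat_lit 753))], ((nat_lit 81), (nat_lit 100), (nat_lit 70))⟩, (nat_lit 1678586), (nat_lit 300), (nat_lit 318), (nat_lit 58600001), (nat_lit 612501), [(nat_lit 2273233405), (nat_lit 4688000004), (nat_lit 7968000000)], [], [(nat_lit 27526123866), (nat_lit 28646355797), (nat_lit 33368633621), (nat_lit 34296900148), (nat_lit 33794206614), (nat_lit 34511706151), (nat_lit 39695463963), (nat_lit 40505355393)], (nat_lit 1271251), (nat_lit 1271251), (nat_lit 936250), (nat_lit 3030001), (nat_lit 1271251), (nat_lit 1271251), [(nat_lit 490000), (nat_lit 1100000), (nat_lit 1785001)], [(nat_lit 4), (nat_lit 51), (nat_lit 428), (nat_lit 200), (nat_lit 13)]⟩,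
 ⟨⟨[(nat_lit 40), (nat_lit 80), (nat_lit 120)], [(nat_lit 0), (nat_lit 0), (nat_lit 2151)], [((nat_lit 0), (nat_lit 0), (nat_lit 0)), ((nat_lit 0), (nat_lit 0), (nat_lit 0)), ((nat_lit 1000), (nat_lit 815), (nat_lit 753))], ((nat_lit 81), (nat_lit 100), (nat_lit 70))⟩, (nat_lit 3003936), (nat_lit 406), (nat_lit 406), (nat_lit 0), (nat_lit 612501), [(nat_lit 2032000000), (nat_lit 4688000000), (nat_lit 7968000000)], [], [(nat_lit 25308894238), (nat_lit 25071462354), (nat_lit 38756505039), (nat_lit 40396299658), (nat_lit 21395234532), (nat_lit 22780234107), (nat_lit 34866574871), (nat_lit 34458431871)], (nat_lit 1271251), (nat_lit 1271251), (nat_lit 936250), (nat_lit 3030001), (nat_lit 111251), (nat_lit 780000), [(nat_lit 490000), (nat_lit 1100000), (nat_lit 1785001)], [(nat_lit 4), (nat_lit 51), (nat_lit 373), (nat_lit 150), (nat_lit 12)]⟩,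
 ⟨⟨[(nat_lit 120), (nat_lit 160), (nat_lit 180)], [(nat_lit 0), (nat_lit 533), (nat_lit 2066)], [((nat_lit 0), (nat_lit 0), (nat_lit 0)), ((nat_lit 960), (nat_lit 1000), (nat_lit 200)), ((nat_lit 615), (nat_lit 1000), (nat_lit 729))], ((nat_lit 100), (nat_lit 65), (nat_lit 70))⟩, (nat_lit 1006496), (nat_lit 300), (nat_lit 1172), (nat_lit 17596000), (nat_lit 1792730), [(nat_lit 2111520000), (nat_lit 3146080000), (nat_lit 3725370000)], [], [(nat_lit 15013834568), (nat_lit 14599494142), (nat_lit 14542248638), (nat_lit 14166825403), (nat_lit 13630041813), (nat_lit 13181122745), (nat_lit 12967702985), (nat_lit 12543853317)], (nat_lit 1271251), (nat_lit 1271251), (nat_lit 1271251), (nat_lit 1271251), (nat_lit 111251), (nat_lit 780000), [(nat_lit 1695001), (nat_lit 1271251), (nat_lit 1271251)], [(nat_lit 28), (nat_lit 65), (nat_lit 428), (nat_lit 200), (nat_lit 10)]⟩⟩)) (.leaf ⟨(nat_lit 0), (nat_lit 817), (nat_lit 0), (nat_lit 183), (nat_lit 0), (nat_lit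 7592), (nat_lit 7676), (nat_lit 1836), (nat_lit 6791102432842), (nat_lit 0), (nat_lit 0), [], Pd.none, Pd.none, (nat_lit 0), (nat_lit 1), (nat_lit 0), (nat_lit 0), (nat_lit 5), (nat_lit 0), [⟨(nat_lit 0), (nat_lit 71), (nat_lit 71), (nat_lit 100), (nat_lit 7297659)⟩], [⟨(nat_lit 1), (nat_lit 61), (nat_lit 76), (nat_lit 100), (nat_lit 332045032)⟩], [], [],
 ⟨⟨[(nat_lit 40), (nat_lit 80), (nat_lit 120)], [(nat_lit 0), (nat_lit 0), (nat_lit 2151)], [((nat_lit 0), (nat_lit 0), (nat_lit 0)), ((nat_lit 0), (nat_lit 0), (nat_lit 0)), ((nat_lit 1000), (nat_lit 815), (nat_lit 753))], ((nat_lit 81), (nat_lit 100), (nat_lit 70))⟩, (nat_lit 2149720), (nat_lit 300), (nat_lit 318), (nat_lit 58600001), (nat_lit 612501), [(nat_lit 2260534211), (nat_lit 4688000002), (nat_lit 7968000000)], [], [(nat_lit 27526123866), (nat_lit 28646355797), (nat_lit 33791352640), (nat_lit 35115762556), (nat_lit 33794206614), (nat_lit 34511706151), (nat_lit 40210849120), (nat_lit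 40989186424)], (nat_lit 1271251), (nat_lit 1271251), (nat_lit 936250), (nat_lit 3113751), (nat_lit 1271251), (nat_lit 1271251), [(nat_lit 490000), (nat_lit 1100000), (nat_lit 1785001)], [(nat_lit 4), (nat_lit 51), (nat_lit 428), (nat_lit 200), (nat_lit 13)]⟩,
 ⟨⟨[(nat_lit 40), (nat_lit 80), (nat_lit 120)], [(nat_lit 0), (nat_lit 0), (nat_lit 2151)], [((nat_lit 0), (nat_lit 0), (nat_lit 0)), ((nat_lit 0), (nat_lit 0), (nat_lit 0)), ((nat_lit 1000), (nat_lit 815), (nat_lit 753))], ((nat_lit 81), (nat_lit 100), (nat_lit 70))⟩, (nat_lit 2997632), (nat_lit 336), (nat_lit 336), (nat_lit 0), (nat_lit 612501), [(nat_lit 2032000000), (nat_lit 4688000000), (nat_lit 7968000000)], [], [(nat_lit 18455110414), (nat_lit 19984981473), (nat_lit 34591417712), (nat_lit 36103592554), (nat_lit 19359318928), (nat_lit 20880000747), (nat_lit 33890969920), (nat_lit 35223558118)], (nat_lit 1271251), (nat_lit 1271251), (nat_lit 936250), (nat_lit 3113751), (nat_lit 780000),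 (nat_lit 1435001), [(nat_lit 490000), (nat_lit 1100000), (nat_lit 1785001)], [(nat_lit 4), (nat_lit 51), (nat_lit 373), (nat_lit 150), (nat_lit 12)]⟩,
 ⟨⟨[(nat_lit 120), (nat_lit 160), (nat_lit 180)], [(nat_lit 0), (nat_lit 533), (nat_lit 2066)], [((nat_lit 0), (nat_lit 0), (nat_lit 0)), ((nat_lit 960), (nat_lit 1000), (nat_lit 200)), ((nat_lit 615), (nat_lit 1000), (nat_lit 729))], ((nat_lit 100), (nat_lit 65), (nat_lit 70))⟩, (nat_lit 1032850), (nat_lit 300), (nat_lit 1671), (nat_lit 12151200), (nat_lit 2985723), [(nat_lit 1458144000), (nat_lit 2172576000), (nat_lit 2572614000)], [], [(nat_lit 9632079607), (nat_lit 9304845423), (nat_lit 9070112753), (nat_lit 8783815792), (nat_lit 9144718591), (nat_lit 8817907272), (nat_lit 8571723076), (nat_lit 8279590038)], (nat_lit 1271251), (nat_lit 1271251), (nat_lit 1271251), (nat_lit 1271251), (nat_lit 780000), (nat_lit 1435001), [(nat_lit 1695001), (nat_lit 1271251), (nat_lit 1271251)], [(nat_lit 28),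 (nat_lit 65), (nat_lit 522), (nat_lit 225), (nat_lit 12)]⟩⟩))))
noncomputable def c12_10 : Tr Lf :=
 (.stt (nat_lit 2) (.spl (nat_lit 4) (nat_lit 200) (.leaf ⟨(nat_lit 0), (nat_lit 859), (nat_lit 0), (nat_lit 141), (nat_lit 0), (nat_lit 6876), (nat_lit 4962), (nat_lit 1398), (nat_lit 49044044924), (nat_lit 0), (nat_lit 0), [], Pd.none, Pd.none, (nat_lit 0), (nat_lit 1), (nat_lit 0), (nat_lit 0), (nat_lit 5), (nat_lit 0), [], [⟨(nat_lit 0), (nat_lit 100), (nat_lit 73), (nat_lit 85), (nat_lit 27761528)⟩], [⟨(nat_lit 1), (nat_lit 61), (nat_lit 76), (nat_lit 100), (nat_lit 332904381)⟩], [⟨(nat_lit 1), (nat_lit 78), (nat_lit 100), (nat_lit 95), (nat_lit 14594761)⟩],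
 ⟨⟨[(nat_lit 40), (nat_lit 80), (nat_lit 120)], [(nat_lit 0), (nat_lit 0), (nat_lit 2151)], [((nat_lit 0), (nat_lit 0), (nat_lit 0)), ((nat_lit 0), (nat_lit 0), (nat_lit 0)), ((nat_lit 1000), (nat_lit 815), (nat_lit 753))], ((nat_lit 81), (nat_lit 100), (nat_lit 70))⟩, (nat_lit 2481348), (nat_lit 181), (nat_lit 181), (nat_lit 0), (nat_lit 0), [(nat_lit 2655871459), (nat_lit 4688000001), (nat_lit 7968000000)], [], [(nat_lit 21801695485), (nat_lit 23659670769), (nat_lit 38944328052), (nat_lit 40474319081), (nat_lit 20064490855), (nat_lit 21531123443), (nat_lit 32942233920), (nat_lit 34196933718)], (nat_lit 0), (nat_lit 0), (nat_lit 0), (nat_lit 0), (nat_lit 0), (nat_lit 0), [], [(nat_lit 4), (nat_lit 51), (nat_lit 373), (nat_lit 150), (nat_lit 12)]⟩,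
 ⟨⟨[(nat_lit 40), (nat_lit 80), (nat_lit 120)], [(nat_lit 0), (nat_lit 0), (nat_lit 2151)], [((nat_lit 0), (nat_lit 0), (nat_lit 0)), ((nat_lit 0), (nat_lit 0), (nat_lit 0)), ((nat_lit 1000), (nat_lit 815), (nat_lit 753))], ((nat_lit 81), (nat_lit 100), (nat_lit 70))⟩, (nat_lit 1985259), (nat_lit 104), (nat_lit 104), (nat_lit 0), (nat_lit 0), [(nat_lit 2032000000), (nat_lit 4688000000), (nat_lit 7968000000)], [], [(nat_lit 21889699896), (nat_lit 23334717232), (nat_lit 31430670732), (nat_lit 32361143331), (nat_lit 30551199942), (nat_lit 31469447212), (nat_lit 36598007513), (nat_lit 37200251939)], (nat_lit 0), (nat_lit 0), (nat_lit 0), (nat_lit 0), (nat_lit 0), (nat_lit 0), [], [(nat_lit 4), (nat_lit 51), (nat_lit 428), (nat_lit 200), (nat_lit 13)]⟩,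
 ⟨⟨[(nat_lit 120), (nat_lit 160), (nat_lit 180)], [(nat_lit 0), (nat_lit 533), (nat_lit 2066)], [((nat_lit 0), (nat_lit 0), (nat_lit 0)), ((nat_lit 960), (nat_lit 1000), (nat_lit 200)), ((nat_lit 615), (nat_lit 1000), (nat_lit 729))], ((nat_lit 100), (nat_lit 65), (nat_lit 70))⟩, (nat_lit 330146), (nat_lit 300), (nat_lit 1731), (nat_lit 9362402), (nat_lit 2985723), [(nat_lit 1123488000), (nat_lit 1673952000), (nat_lit 1982178000)], [], [(nat_lit 8233796829), (nat_lit 7992382272), (nat_lit 7242889977), (nat_lit 6994888530), (nat_lit 7870834458), (nat_lit 7649756005), (nat_lit 6691953682), (nat_lit 6459922580)], (nat_lit 1271251), (nat_lit 1271251), (nat_lit 111251), (nat_lit 1416250), (nat_lit 1271251), (nat_lit 1271251), [(nat_lit 1695001), (nat_lit 1271251), (nat_lit 1271251)], [(nat_lit 28), (nat_lit 65), (nat_lit 537), (nat_lit 225), (nat_lit 12)]⟩⟩) (.spl (nat_lit 5) (nat_lit 280) (.leaf ⟨(nat_lit 0), (nat_lit 882), (nat_lit 0), (nat_lit 118),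 (nat_lit 0), (nat_lit 5431), (nat_lit 6397), (nat_lit 1158), (nat_lit 7420383777450), (nat_lit 0), (nat_lit 0), [], Pd.none, Pd.none, (nat_lit 0), (nat_lit 1), (nat_lit 0), (nat_lit 0), (nat_lit 5), (nat_lit 0), [⟨(nat_lit 0), (nat_lit 77), (nat_lit 77), (nat_lit 100), (nat_lit 59563899)⟩], [⟨(nat_lit 1), (nat_lit 61), (nat_lit 76), (nat_lit 100), (nat_lit 489133725)⟩], [], [],
 ⟨⟨[(nat_lit 40), (nat_lit 80), (nat_lit 120)], [(nat_lit 0), (nat_lit 0), (nat_lit 2151)], [((nat_lit 0), (nat_lit 0), (nat_lit 0)), ((nat_lit 0), (nat_lit 0), (nat_lit 0)), ((nat_lit 1000), (nat_lit 815), (nat_lit 753))], ((nat_lit 81), (nat_lit 100), (nat_lit 70))⟩, (nat_lit 2018666), (nat_lit 104), (nat_lit 104), (nat_lit 0), (nat_lit 0), [(nat_lit 2317208653), (nat_lit 4688000002), (nat_lit 7968000000)], [], [(nat_lit 21431761812), (nat_lit 22951793411), (nat_lit 31374900068), (nat_lit 32342593396), (nat_lit 30414041043), (nat_lit 31510056297), (nat_lit 37178323223),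 (nat_lit 37875921245)], (nat_lit 0), (nat_lit 0), (nat_lit 0), (nat_lit 0), (nat_lit 0), (nat_lit 0), [], [(nat_lit 4), (nat_lit 51), (nat_lit 428), (nat_lit 200), (nat_lit 13)]⟩,
 ⟨⟨[(nat_lit 40), (nat_lit 80), (nat_lit 120)], [(nat_lit 0), (nat_lit 0), (nat_lit 2151)], [((nat_lit 0), (nat_lit 0), (nat_lit 0)), ((nat_lit 0), (nat_lit 0), (nat_lit 0)), ((nat_lit 1000), (nat_lit 815), (nat_lit 753))], ((nat_lit 81), (nat_lit 100), (nat_lit 70))⟩, (nat_lit 0), (nat_lit 78), (nat_lit 78), (nat_lit 0), (nat_lit 0), [(nat_lit 2032000000), (nat_lit 4688000000), (nat_lit 7968000000)], [], [(nat_lit 18982609537), (nat_lit 20938596578), (nat_lit 32374178240), (nat_lit 33582242359), (nat_lit 22866608526), (nat_lit 24505928149), (nat_lit 34063760088), (nat_lit 35083220784)], (nat_lit 0), (nat_lit 0), (nat_lit 0), (nat_lit 0), (nat_lit 0), (nat_lit 0), [], [(nat_lit 4), (nat_lit 51), (nat_lit 401), (nat_lit 175), (nat_lit 12)]⟩,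
 ⟨⟨[(nat_lit 120), (nat_lit 160), (nat_lit 180)], [(nat_lit 0), (nat_lit 533), (nat_lit 2066)], [((nat_lit 0), (nat_lit 0), (nat_lit 0)), ((nat_lit 960), (nat_lit 1000), (nat_lit 200)), ((nat_lit 615), (nat_lit 1000), (nat_lit 729))], ((nat_lit 100), (nat_lit 65), (nat_lit 70))⟩, (nat_lit 276293), (nat_lit 300), (nat_lit 1632), (nat_lit 7835200), (nat_lit 2985723), [(nat_lit 940224000), (nat_lit 1400896000), (nat_lit 1658844000)], [], [(nat_lit 6203264057), (nat_lit 5998599162), (nat_lit 5692253852), (nat_lit 5483464593), (nat_lit 5956473544), (nat_lit 5750827517), (nat_lit 5459680350), (nat_lit 5269583794)], (nat_lit 1271251), (nat_lit 1271251), (nat_lit 1271251), (nat_lit 1271251), (nat_lit 1271251), (nat_lit 1271251), [(nat_lit 1695001), (nat_lit 1271251), (nat_lit 1271251)], [(nat_lit 28), (nat_lit 65), (nat_lit 522), (nat_lit 250), (nat_lit 11)]⟩⟩) (.spl (nat_lit 0) (nat_lit 330) (.ord (.leaf ⟨(nat_lit 0), (nat_lit 818), (nat_lit 0), (nat_lit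 182), (nat_lit 0), (nat_lit 4990), (nat_lit 5354), (nat_lit 1728), (nat_lit 1341662231331), (nat_lit 0), (nat_lit 0), [], Pd.none, Pd.none, (nat_lit 0), (nat_lit 1), (nat_lit 0), (nat_lit 0), (nat_lit 7), (nat_lit 0), [], [⟨(nat_lit 1), (nat_lit 59), (nat_lit 78), (nat_lit 100), (nat_lit 133477278)⟩], [⟨(nat_lit 1), (nat_lit 59), (nat_lit 78), (nat_lit 100), (nat_lit 300696378)⟩], [⟨(nat_lit 2), (nat_lit 78), (nat_lit 93), (nat_lit 100), (nat_lit 172974231)⟩],
 ⟨⟨[(nat_lit 40), (nat_lit 80), (nat_lit 120)], [(nat_lit 0), (nat_lit 0), (nat_lit 2151)], [((nat_lit 0), (nat_lit 0), (nat_lit 0)), ((nat_lit 0), (nat_lit 0), (nat_lit 0)), ((nat_lit 1000), (nat_lit 815), (nat_lit 753))], ((nat_lit 81), (nat_lit 100), (nat_lit 70))⟩, (nat_lit 2045101), (nat_lit 92), (nat_lit 92), (nat_lit 0), (nat_lit 0), [(nat_lit 2353730244), (nat_lit 4688000001), (nat_lit 7968000000)], [], [(nat_lit 21740641008), (nat_lit 22462678124), (nat_lit 31427341141), (nat_lit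 31893677694), (nat_lit 30418583121), (nat_lit 30945227379), (nat_lit 36598686136), (nat_lit 36900029715)], (nat_lit 0), (nat_lit 0), (nat_lit 0), (nat_lit 0), (nat_lit 0), (nat_lit 0), [], [(nat_lit 4), (nat_lit 51), (nat_lit 428), (nat_lit 200), (nat_lit 13)]⟩,
 ⟨⟨[(nat_lit 40), (nat_lit 80), (nat_lit 120)], [(nat_lit 0), (nat_lit 0), (nat_lit 2151)], [((nat_lit 0), (nat_lit 0), (nat_lit 0)), ((nat_lit 0), (nat_lit 0), (nat_lit 0)), ((nat_lit 1000), (nat_lit 815), (nat_lit 753))], ((nat_lit 81), (nat_lit 100), (nat_lit 70))⟩, (nat_lit 2403144), (nat_lit 92), (nat_lit 92), (nat_lit 0), (nat_lit 0), [(nat_lit 2032000000), (nat_lit 4688000000), (nat_lit 7968000000)], [], [(nat_lit 23692076656), (nat_lit 24330973540), (nat_lit 32924121888), (nat_lit 33335096902), (nat_lit 30414834102), (nat_lit 30959111618), (nat_lit 37070269315), (nat_lit 37417629889)], (nat_lit 0), (nat_lit 0), (nat_lit 0), (nat_lit 0), (nat_lit 0), (nat_lit 0), [], [(nat_lit 4),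 (nat_lit 51), (nat_lit 317), (nat_lit 100), (nat_lit 9)]⟩,
 ⟨⟨[(nat_lit 120), (nat_lit 160), (nat_lit 180)], [(nat_lit 0), (nat_lit 533), (nat_lit 2066)], [((nat_lit 0), (nat_lit 0), (nat_lit 0)), ((nat_lit 960), (nat_lit 1000), (nat_lit 200)), ((nat_lit 615), (nat_lit 1000), (nat_lit 729))], ((nat_lit 100), (nat_lit 65), (nat_lit 70))⟩, (nat_lit 426146), (nat_lit 300), (nat_lit 1348), (nat_lit 12084802), (nat_lit 2471329), [(nat_lit 1450176000), (nat_lit 2160704000), (nat_lit 2558556000)], [], [(nat_lit 9610711856), (nat_lit 9310490621), (nat_lit 8919885657), (nat_lit 8607838641), (nat_lit 9283232256), (nat_lit 8974034571), (nat_lit 8558465461), (nat_lit 8256910354)], (nat_lit 1271251), (nat_lit 1271251), (nat_lit 1271251), (nat_lit 1271251), (nat_lit 1271251), (nat_lit 1271251), [(nat_lit 1695001), (nat_lit 1271251), (nat_lit 1271251)], [(nat_lit 28), (nat_lit 65), (nat_lit 538), (nat_lit 300), (nat_lit 12)]⟩⟩)) (.trZ (nat_lit 0) (nat_lit 1)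 (nat_lit 3) (nat_lit 82) (nat_lit 78) (nat_lit 100) (nat_lit 150) (.trX (nat_lit 4) (nat_lit 0) (nat_lit 2) (nat_lit 78) (nat_lit 49) (nat_lit 100) (nat_lit 380) (.leaf ⟨(nat_lit 0), (nat_lit 847), (nat_lit 0), (nat_lit 153), (nat_lit 0), (nat_lit 4793), (nat_lit 5309), (nat_lit 1463), (nat_lit 776029), (nat_lit 0), (nat_lit 0), [], Pd.none, Pd.none, (nat_lit 0), (nat_lit 1), (nat_lit 0), (nat_lit 0), (nat_lit 7), (nat_lit 0), [], [⟨(nat_lit 1), (nat_lit 64), (nat_lit 74), (nat_lit 100), (nat_lit 199852632)⟩], [⟨(nat_lit 1), (nat_lit 61), (nat_lit 76), (nat_lit 100), (nat_lit 303161930)⟩], [⟨(nat_lit 2), (nat_lit 79), (nat_lit 96), (nat_lit 100), (nat_lit 148838141)⟩],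
 ⟨⟨[(nat_lit 40), (nat_lit 80), (nat_lit 120)], [(nat_lit 0), (nat_lit 395), (nat_lit 2466)], [((nat_lit 0), (nat_lit 0), (nat_lit 0)), ((nat_lit 1000), (nat_lit 908), (nat_lit 154)), ((nat_lit 1000), (nat_lit 773), (nat_lit 792))], ((nat_lit 76), (nat_lit 100), (nat_lit 70))⟩, (nat_lit 2135380), (nat_lit 85), (nat_lit 85), (nat_lit 0), (nat_lit 0), [(nat_lit 2148429179), (nat_lit 4688000022), (nat_lit 7968000000)], [], [(nat_lit 21780153260), (nat_lit 22479534505), (nat_lit 31065887607), (nat_lit 31524483094), (nat_lit 29431386132), (nat_lit 29958050090), (nat_lit 36219801051), (nat_lit 36567217978)], (nat_lit 0), (nat_lit 0), (nat_lit 0), (nat_lit 0), (nat_lit 0), (nat_lit 0), [], [(nat_lit 4), (nat_lit 51), (nat_lit 428), (nat_lit 200), (nat_lit 13)]⟩,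
 ⟨⟨[(nat_lit 40), (nat_lit 80), (nat_lit 120)], [(nat_lit 0), (nat_lit 0), (nat_lit 2151)], [((nat_lit 0), (nat_lit 0), (nat_lit 0)), ((nat_lit 0), (nat_lit 0), (nat_lit 0)), ((nat_lit 1000), (nat_lit 815), (nat_lit 753))], ((nat_lit 81), (nat_lit 100), (nat_lit 70))⟩, (nat_lit 2018054), (nat_lit 90), (nat_lit 90), (nat_lit 0), (nat_lit 0), [(nat_lit 2032000000), (nat_lit 4688000000), (nat_lit 7968000000)], [], [(nat_lit 24535393780), (nat_lit 25790502284), (nat_lit 32931651648), (nat_lit 33751321648), (nat_lit 30339091134), (nat_lit 31409695242), (nat_lit 37007120928), (nat_lit 37700160786)], (nat_lit 0), (nat_lit 0), (nat_lit 0), (nat_lit 0), (nat_lit 0), (nat_lit 0), [], [(nat_lit 4), (nat_lit 51), (nat_lit 317), (nat_lit 100), (nat_lit 9)]⟩,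
 ⟨⟨[(nat_lit 120), (nat_lit 160), (nat_lit 180)], [(nat_lit 0), (nat_lit 533), (nat_lit 2066)], [((nat_lit 0), (nat_lit 0), (nat_lit 0)), ((nat_lit 960), (nat_lit 1000), (nat_lit 200)), ((nat_lit 615), (nat_lit 1000), (nat_lit 729))], ((nat_lit 100), (nat_lit 65), (nat_lit 70))⟩, (nat_lit 358244), (nat_lit 300), (nat_lit 1591), (nat_lit 10159200), (nat_lit 2983413), [(nat_lit 1219104000), (nat_lit 1816416000), (nat_lit 2150874000)], [], [(nat_lit 8097936136), (nat_lit 7841458454), (nat_lit 7486236908), (nat_lit 7225114153), (nat_lit 7774554929), (nat_lit 7513898210), (nat_lit 7150455184), (nat_lit 6899293326)], (nat_lit 1271251), (nat_lit 1271251), (nat_lit 1271251), (nat_lit 1271251), (nat_lit 1271251), (nat_lit 1271251), [(nat_lit 1695001), (nat_lit 1271251), (nat_lit 1271251)], [(nat_lit 28), (nat_lit 65), (nat_lit 538), (nat_lit 300), (nat_lit 12)]⟩⟩)))))) (.leaf ⟨(nat_lit 0), (nat_lit 631), (nat_lit 0), (nat_lit 369), (nat_lit 0), (nat_lit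 5806), (nat_lit 6330), (nat_lit 3164), (nat_lit 11144800748), (nat_lit 0), (nat_lit 0), [], Pd.none, Pd.none, (nat_lit 0), (nat_lit 1), (nat_lit 0), (nat_lit 0), (nat_lit 5), (nat_lit 0), [⟨(nat_lit 0), (nat_lit 71), (nat_lit 71), (nat_lit 100), (nat_lit 104717226)⟩], [], [⟨(nat_lit 1), (nat_lit 61), (nat_lit 76), (nat_lit 100), (nat_lit 103201750)⟩], [],
 ⟨⟨[(nat_lit 40), (nat_lit 80), (nat_lit 120)], [(nat_lit 0), (nat_lit 0), (nat_lit 2151)], [((nat_lit 0), (nat_lit 0), (nat_lit 0)), ((nat_lit 0), (nat_lit 0), (nat_lit 0)), ((nat_lit 1000), (nat_lit 815), (nat_lit 753))], ((nat_lit 81), (nat_lit 100), (nat_lit 70))⟩, (nat_lit 3460412), (nat_lit 181), (nat_lit 181), (nat_lit 0), (nat_lit 0), [(nat_lit 2455588804), (nat_lit 4688000010), (nat_lit 7968000000)], [], [(nat_lit 22042338850), (nat_lit 23992113505), (nat_lit 36234898662), (nat_lit 37627798349), (nat_lit 31011099726), (nat_lit 31982318253), (nat_lit 37704559785), (nat_lit 38416168557)],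 (nat_lit 0), (nat_lit 0), (nat_lit 0), (nat_lit 0), (nat_lit 0), (nat_lit 0), [], [(nat_lit 4), (nat_lit 51), (nat_lit 428), (nat_lit 200), (nat_lit 14)]⟩,
 ⟨⟨[(nat_lit 40), (nat_lit 80), (nat_lit 120)], [(nat_lit 0), (nat_lit 0), (nat_lit 2151)], [((nat_lit 0), (nat_lit 0), (nat_lit 0)), ((nat_lit 0), (nat_lit 0), (nat_lit 0)), ((nat_lit 1000), (nat_lit 815), (nat_lit 753))], ((nat_lit 81), (nat_lit 100), (nat_lit 70))⟩, (nat_lit 3066162), (nat_lit 405), (nat_lit 405), (nat_lit 0), (nat_lit 813423), [(nat_lit 2032000000), (nat_lit 4688000000), (nat_lit 7968000000)], [], [(nat_lit 25361873050), (nat_lit 26493223305), (nat_lit 32412895180), (nat_lit 33496262565), (nat_lit 31996493092), (nat_lit 32724168207), (nat_lit 38439887675), (nat_lit 39171074135)], (nat_lit 1271251), (nat_lit 1271251), (nat_lit 936250), (nat_lit 3113751), (nat_lit 1271251), (nat_lit 1271251), [(nat_lit 490000), (nat_lit 1100000), (nat_lit 1785001)], [(nat_lit 4), (nat_lit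 51), (nat_lit 428), (nat_lit 200), (nat_lit 13)]⟩,
 ⟨⟨[(nat_lit 120), (nat_lit 160), (nat_lit 180)], [(nat_lit 0), (nat_lit 533), (nat_lit 2066)], [((nat_lit 0), (nat_lit 0), (nat_lit 0)), ((nat_lit 960), (nat_lit 1000), (nat_lit 200)), ((nat_lit 615), (nat_lit 1000), (nat_lit 729))], ((nat_lit 100), (nat_lit 65), (nat_lit 70))⟩, (nat_lit 979858), (nat_lit 300), (nat_lit 1172), (nat_lit 24501600), (nat_lit 1792730), [(nat_lit 2940192000), (nat_lit 4380768000), (nat_lit 5187402000)], [], [(nat_lit 24916501047), (nat_lit 24412360901), (nat_lit 23338030209), (nat_lit 21017564552), (nat_lit 23920404580), (nat_lit 23377111250), (nat_lit 20362203099), (nat_lit 19800930391)], (nat_lit 1271251), (nat_lit 1271251), (nat_lit 111251), (nat_lit 2793751), (nat_lit 1271251), (nat_lit 1271251), [(nat_lit 1695001), (nat_lit 1271251), (nat_lit 1271251)], [(nat_lit 28), (nat_lit 65), (nat_lit 538), (nat_lit 300), (nat_lit 12)]⟩⟩))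
noncomputable def c12_11 : Tr Lf :=
 (.spl (nat_lit 4) (nat_lit 120) (.trX (nat_lit 3) (nat_lit 5) (nat_lit 4) (nat_lit 100) (nat_lit 40) (nat_lit 92) (nat_lit 390) (.spl (nat_lit 0) (nat_lit 330) (.ord (.leaf ⟨(nat_lit 59), (nat_lit 588), (nat_lit 0), (nat_lit 353), (nat_lit 0), (nat_lit 10296), (nat_lit 5528), (nat_lit 3702), (nat_lit 15333985986919), (nat_lit 0), (nat_lit 236000), [((nat_lit 330), [((nat_lit 37), (nat_lit 5), (nat_lit 59))])], ⟨(nat_lit 8), false, true, false, (nat_lit 298), (nat_lit 4183), (nat_lit 4473), [(nat_lit 1527406), (nat_lit 1530591), (nat_lit 1538187), (nat_lit 1541422), (nat_lit 1952275), (nat_lit 1944694), (nat_lit 1963057), (nat_lit 1955526)]⟩, ⟨(nat_lit 4), false, false, false, (nat_lit 117), (nat_lit 4183), (nat_lit 4473), [(nat_lit 1172530), (nat_lit 1180181), (nat_lit 1237219), (nat_lit 1245170), (nat_lit 1342476), (nat_lit 1345821), (nat_lit 1407167), (nat_lit 1410812)]⟩, (nat_lit 4645809), (nat_lit 39443428),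 (nat_lit 22455254), (nat_lit 5101318), (nat_lit 5), (nat_lit 0), [], [⟨(nat_lit 0), (nat_lit 100), (nat_lit 80), (nat_lit 52), (nat_lit 418717884)⟩], [], [⟨(nat_lit 1), (nat_lit 93), (nat_lit 100), (nat_lit 78), (nat_lit 161466266)⟩],
 ⟨⟨[(nat_lit 40), (nat_lit 80), (nat_lit 120)], [(nat_lit 0), (nat_lit 0), (nat_lit 2151)], [((nat_lit 0), (nat_lit 0), (nat_lit 0)), ((nat_lit 0), (nat_lit 0), (nat_lit 0)), ((nat_lit 1000), (nat_lit 815), (nat_lit 753))], ((nat_lit 81), (nat_lit 100), (nat_lit 70))⟩, (nat_lit 1397121), (nat_lit 300), (nat_lit 378), (nat_lit 51517346), (nat_lit 535130), [(nat_lit 2058906586), (nat_lit 4121387603), (nat_lit 6195751991)], [(nat_lit 0), (nat_lit 0), (nat_lit 0)], [(nat_lit 26184624978), (nat_lit 26912453218), (nat_lit 46259767863), (nat_lit 47288918294), (nat_lit 21202903504), (nat_lit 21853346875), (nat_lit 37290420438), (nat_lit 38238710585)], (nat_lit 1271251), (nat_lit 1271251), (nat_lit 936250), (nat_lit 3030001),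 (nat_lit 111251), (nat_lit 780000), [(nat_lit 490000), (nat_lit 1100000), (nat_lit 1785001)], [(nat_lit 4), (nat_lit 51), (nat_lit 373), (nat_lit 150), (nat_lit 12)]⟩,
 ⟨⟨[(nat_lit 40), (nat_lit 80), (nat_lit 120)], [(nat_lit 0), (nat_lit 0), (nat_lit 2151)], [((nat_lit 0), (nat_lit 0), (nat_lit 0)), ((nat_lit 0), (nat_lit 0), (nat_lit 0)), ((nat_lit 1000), (nat_lit 815), (nat_lit 753))], ((nat_lit 81), (nat_lit 100), (nat_lit 70))⟩, (nat_lit 3799331), (nat_lit 266), (nat_lit 266), (nat_lit 0), (nat_lit 446134), [(nat_lit 1912112000), (nat_lit 4411408000), (nat_lit 7497888000)], [], [(nat_lit 20402166589), (nat_lit 21132391403), (nat_lit 29331442528), (nat_lit 29749464774), (nat_lit 29106603668), (nat_lit 29566428686), (nat_lit 35138370078), (nat_lit 35486411849)], (nat_lit 1271251), (nat_lit 1271251), (nat_lit 936250), (nat_lit 3030001), (nat_lit 1271251), (nat_lit 1271251), [(nat_lit 490000), (nat_lit 1100000), (nat_lit 1785001)], [(nat_lit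 4), (nat_lit 51), (nat_lit 428), (nat_lit 200), (nat_lit 13)]⟩,
 ⟨⟨[(nat_lit 120), (nat_lit 160), (nat_lit 180)], [(nat_lit 0), (nat_lit 533), (nat_lit 2066)], [((nat_lit 0), (nat_lit 0), (nat_lit 0)), ((nat_lit 960), (nat_lit 1000), (nat_lit 200)), ((nat_lit 615), (nat_lit 1000), (nat_lit 729))], ((nat_lit 100), (nat_lit 65), (nat_lit 70))⟩, (nat_lit 1616024), (nat_lit 300), (nat_lit 1032), (nat_lit 23439200), (nat_lit 1492149), [(nat_lit 2812704000), (nat_lit 4190816000), (nat_lit 4962474000)], [], [(nat_lit 19489049043), (nat_lit 18912157052), (nat_lit 17479953038), (nat_lit 16910442716), (nat_lit 19148257839), (nat_lit 18643085494), (nat_lit 16819170458), (nat_lit 16325637600)], (nat_lit 1271251), (nat_lit 1271251), (nat_lit 111251), (nat_lit 780000), (nat_lit 1271251), (nat_lit 1271251), [(nat_lit 1695001), (nat_lit 1271251), (nat_lit 1271251)], [(nat_lit 28), (nat_lit 65), (nat_lit 428), (nat_lit 200), (nat_lit 10)]⟩⟩)) (.trZ (nat_lit 0)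 (nat_lit 1) (nat_lit 3) (nat_lit 82) (nat_lit 78) (nat_lit 100) (nat_lit 150) (.trZ (nat_lit 0) (nat_lit 2) (nat_lit 4) (nat_lit 100) (nat_lit 76) (nat_lit 57) (nat_lit 30) (.leaf ⟨(nat_lit 0), (nat_lit 745), (nat_lit 0), (nat_lit 255), (nat_lit 0), (nat_lit 7674), (nat_lit 6108), (nat_lit 2616), (nat_lit 11486494927122), (nat_lit 0), (nat_lit 0), [], Pd.none, Pd.none, (nat_lit 0), (nat_lit 1), (nat_lit 0), (nat_lit 0), (nat_lit 5), (nat_lit 0), [⟨(nat_lit 0), (nat_lit 71), (nat_lit 71), (nat_lit 100), (nat_lit 211689519)⟩], [⟨(nat_lit 0), (nat_lit 100), (nat_lit 74), (nat_lit 71), (nat_lit 358655563)⟩, ⟨(nat_lit 0), (nat_lit 100), (nat_lit 76), (nat_lit 57), (nat_lit 6984068)⟩], [⟨(nat_lit 1), (nat_lit 61), (nat_lit 76), (nat_lit 100), (nat_lit 270758464)⟩], [],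
 ⟨⟨[(nat_lit 40), (nat_lit 80), (nat_lit 120)], [(nat_lit 0), (nat_lit 395), (nat_lit 2466)], [((nat_lit 0), (nat_lit 0), (nat_lit 0)), ((nat_lit 1000), (nat_lit 908), (nat_lit 154)), ((nat_lit 1000), (nat_lit 773), (nat_lit 792))], ((nat_lit 76), (nat_lit 100), (nat_lit 70))⟩, (nat_lit 2592418), (nat_lit 300), (nat_lit 396), (nat_lit 50800001), (nat_lit 609585), [(nat_lit 2032000001), (nat_lit 4948963324), (nat_lit 7968000000)], [], [(nat_lit 31175459961), (nat_lit 31772120089), (nat_lit 39834204527), (nat_lit 40681230572), (nat_lit 28290489942), (nat_lit 28831882945), (nat_lit 34373610553), (nat_lit 35160268821)], (nat_lit 1271251), (nat_lit 1271251), (nat_lit 1017188), (nat_lit 3049688), (nat_lit 169688), (nat_lit 780000), [(nat_lit 490000), (nat_lit 1100000), (nat_lit 1785001)], [(nat_lit 4), (nat_lit 51), (nat_lit 373), (nat_lit 150), (nat_lit 12)]⟩,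
 ⟨⟨[(nat_lit 40), (nat_lit 80), (nat_lit 120)], [(nat_lit 0), (nat_lit 0), (nat_lit 2151)], [((nat_lit 0), (nat_lit 0), (nat_lit 0)), ((nat_lit 0), (nat_lit 0), (nat_lit 0)), ((nat_lit 1000), (nat_lit 815), (nat_lit 753))], ((nat_lit 81), (nat_lit 100), (nat_lit 70))⟩, (nat_lit 2524731), (nat_lit 278), (nat_lit 278), (nat_lit 0), (nat_lit 492261), [(nat_lit 2032000000), (nat_lit 4688000000), (nat_lit 7968000000)], [], [(nat_lit 23642731668), (nat_lit 24951590017), (nat_lit 31627394028), (nat_lit 32490894965), (nat_lit 31403742557), (nat_lit 32238194141), (nat_lit 37661426319), (nat_lit 38410689231)], (nat_lit 1271251), (nat_lit 1271251), (nat_lit 1017188), (nat_lit 3049688), (nat_lit 1271251), (nat_lit 1271251), [(nat_lit 490000), (nat_lit 1100000), (nat_lit 1785001)], [(nat_lit 4), (nat_lit 51), (nat_lit 428), (nat_lit 200), (nat_lit 13)]⟩,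
 ⟨⟨[(nat_lit 120), (nat_lit 160), (nat_lit 180)], [(nat_lit 0), (nat_lit 533), (nat_lit 2066)], [((nat_lit 0), (nat_lit 0), (nat_lit 0)), ((nat_lit 960), (nat_lit 1000), (nat_lit 200)), ((nat_lit 615), (nat_lit 1000), (nat_lit 729))], ((nat_lit 100), (nat_lit 65), (nat_lit 70))⟩, (nat_lit 868167), (nat_lit 300), (nat_lit 1164), (nat_lit 16932000), (nat_lit 1791356), [(nat_lit 2031840000), (nat_lit 3027360000), (nat_lit 3584790000)], [], [(nat_lit 14186641622), (nat_lit 13784557560), (nat_lit 12978478005), (nat_lit 12541869165), (nat_lit 13741613877), (nat_lit 13391827393), (nat_lit 12394389650), (nat_lit 11981864314)], (nat_lit 1271251), (nat_lit 1271251), (nat_lit 169688), (nat_lit 780000), (nat_lit 1271251), (nat_lit 1271251), [(nat_lit 1695001), (nat_lit 1271251), (nat_lit 1271251)], [(nat_lit 28), (nat_lit 65), (nat_lit 428), (nat_lit 200), (nat_lit 10)]⟩⟩))))) (.spl (nat_lit 0) (nat_lit 330) (.ord (.leaf ⟨(nat_lit 0), (nat_lit 431), (nat_lit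 0), (nat_lit 569), (nat_lit 0), (nat_lit 10073), (nat_lit 5874), (nat_lit 5381), (nat_lit 8699559845897), (nat_lit 0), (nat_lit 0), [], Pd.none, Pd.none, (nat_lit 0), (nat_lit 1), (nat_lit 0), (nat_lit 0), (nat_lit 5), (nat_lit 0), [⟨(nat_lit 0), (nat_lit 77), (nat_lit 77), (nat_lit 100), (nat_lit 769007)⟩], [], [], [],
 ⟨⟨[(nat_lit 40), (nat_lit 80), (nat_lit 120)], [(nat_lit 0), (nat_lit 0), (nat_lit 2151)], [((nat_lit 0), (nat_lit 0), (nat_lit 0)), ((nat_lit 0), (nat_lit 0), (nat_lit 0)), ((nat_lit 1000), (nat_lit 815), (nat_lit 753))], ((nat_lit 81), (nat_lit 100), (nat_lit 70))⟩, (nat_lit 4149180), (nat_lit 300), (nat_lit 390), (nat_lit 58600001), (nat_lit 731176), [(nat_lit 2272080495), (nat_lit 4688000003), (nat_lit 7968000000)], [], [(nat_lit 24340138532), (nat_lit 24981991651), (nat_lit 38182392176), (nat_lit 39078020353), (nat_lit 36205179312), (nat_lit 37114239007), (nat_lit 43692430218), (nat_lit 44127946431)], (nat_lit 1271251), (nat_lit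 1271251), (nat_lit 1271251), (nat_lit 1271251), (nat_lit 780000), (nat_lit 2990626), [(nat_lit 490000), (nat_lit 1100000), (nat_lit 1785001)], [(nat_lit 4), (nat_lit 51), (nat_lit 428), (nat_lit 200), (nat_lit 13)]⟩,
 ⟨⟨[(nat_lit 40), (nat_lit 80), (nat_lit 120)], [(nat_lit 0), (nat_lit 0), (nat_lit 2151)], [((nat_lit 0), (nat_lit 0), (nat_lit 0)), ((nat_lit 0), (nat_lit 0), (nat_lit 0)), ((nat_lit 1000), (nat_lit 815), (nat_lit 753))], ((nat_lit 81), (nat_lit 100), (nat_lit 70))⟩, (nat_lit 3754001), (nat_lit 266), (nat_lit 266), (nat_lit 0), (nat_lit 446134), [(nat_lit 2032000000), (nat_lit 4688000000), (nat_lit 7968000000)], [], [(nat_lit 21682483703), (nat_lit 22458446079), (nat_lit 31753942080), (nat_lit 32332514369), (nat_lit 30932263405), (nat_lit 31420280048), (nat_lit 37799984015), (nat_lit 38157058709)], (nat_lit 1271251), (nat_lit 1271251), (nat_lit 936250), (nat_lit 3113751), (nat_lit 1271251), (nat_lit 1271251), [(nat_lit 490000),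 (nat_lit 1100000), (nat_lit 1785001)], [(nat_lit 4), (nat_lit 51), (nat_lit 428), (nat_lit 200), (nat_lit 13)]⟩,
 ⟨⟨[(nat_lit 120), (nat_lit 160), (nat_lit 180)], [(nat_lit 0), (nat_lit 533), (nat_lit 2066)], [((nat_lit 0), (nat_lit 0), (nat_lit 0)), ((nat_lit 960), (nat_lit 1000), (nat_lit 200)), ((nat_lit 615), (nat_lit 1000), (nat_lit 729))], ((nat_lit 100), (nat_lit 65), (nat_lit 70))⟩, (nat_lit 2473511), (nat_lit 300), (nat_lit 966), (nat_lit 37781600), (nat_lit 1492149), [(nat_lit 4533792000), (nat_lit 6755168000), (nat_lit 7999002000)], [], [(nat_lit 31410965713), (nat_lit 30601576801), (nat_lit 28630184203), (nat_lit 27725299590), (nat_lit 30100343454), (nat_lit 29204738907), (nat_lit 26865561975), (nat_lit 25923926807)], (nat_lit 1271251), (nat_lit 1271251), (nat_lit 780000), (nat_lit 2990626), (nat_lit 1271251), (nat_lit 1271251), [(nat_lit 1695001), (nat_lit 1271251), (nat_lit 1271251)], [(nat_lit 28), (nat_lit 65), (nat_lit 538), (nat_lit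 300), (nat_lit 12)]⟩⟩)) (.trZ (nat_lit 0) (nat_lit 1) (nat_lit 3) (nat_lit 82) (nat_lit 78) (nat_lit 100) (nat_lit 150) (.trX (nat_lit 4) (nat_lit 0) (nat_lit 2) (nat_lit 78) (nat_lit 49) (nat_lit 100) (nat_lit 380) (.leaf ⟨(nat_lit 0), (nat_lit 584), (nat_lit 0), (nat_lit 416), (nat_lit 0), (nat_lit 7875), (nat_lit 6108), (nat_lit 3949), (nat_lit 865345625004), (nat_lit 0), (nat_lit 0), [], Pd.none, Pd.none, (nat_lit 0), (nat_lit 1), (nat_lit 0), (nat_lit 0), (nat_lit 5), (nat_lit 0), [⟨(nat_lit 0), (nat_lit 71), (nat_lit 71), (nat_lit 100), (nat_lit 178993877)⟩], [], [⟨(nat_lit 1), (nat_lit 61), (nat_lit 76), (nat_lit 100), (nat_lit 98692104)⟩], [],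
 ⟨⟨[(nat_lit 40), (nat_lit 80), (nat_lit 120)], [(nat_lit 0), (nat_lit 395), (nat_lit 2466)], [((nat_lit 0), (nat_lit 0), (nat_lit 0)), ((nat_lit 1000), (nat_lit 908), (nat_lit 154)), ((nat_lit 1000), (nat_lit 773), (nat_lit 792))], ((nat_lit 76), (nat_lit 100), (nat_lit 70))⟩, (nat_lit 5281167), (nat_lit 300), (nat_lit 417), (nat_lit 50800001), (nat_lit 809531), [(nat_lit 2032000003), (nat_lit 5170440874), (nat_lit 7968000000)], [], [(nat_lit 27854655999), (nat_lit 28310034446), (nat_lit 35657214157), (nat_lit 36424886313), (nat_lit 32918320137), (nat_lit 33715970571), (nat_lit 40513577188), (nat_lit 40923766750)], (nat_lit 1271251), (nat_lit 1271251), (nat_lit 1017188), (nat_lit 3134376), (nat_lit 780000), (nat_lit 2908751), [(nat_lit 490000), (nat_lit 1100000), (nat_lit 1785001)], [(nat_lit 4), (nat_lit 51), (nat_lit 428), (nat_lit 200), (nat_lit 13)]⟩,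
 ⟨⟨[(nat_lit 40), (nat_lit 80), (nat_lit 120)], [(nat_lit 0), (nat_lit 0), (nat_lit 2151)], [((nat_lit 0), (nat_lit 0), (nat_lit 0)), ((nat_lit 0), (nat_lit 0), (nat_lit 0)), ((nat_lit 1000), (nat_lit 815), (nat_lit 753))], ((nat_lit 81), (nat_lit 100), (nat_lit 70))⟩, (nat_lit 2841961), (nat_lit 278), (nat_lit 278), (nat_lit 0), (nat_lit 492261), [(nat_lit 2032000000), (nat_lit 4688000000), (nat_lit 7968000000)], [], [(nat_lit 23642731668), (nat_lit 24951590017), (nat_lit 32093976848), (nat_lit 33211374294), (nat_lit 31403742557), (nat_lit 32238194141), (nat_lit 38128355630), (nat_lit 38851247726)], (nat_lit 1271251), (nat_lit 1271251), (nat_lit 1017188), (nat_lit 3134376), (nat_lit 1271251), (nat_lit 1271251), [(nat_lit 490000), (nat_lit 1100000), (nat_lit 1785001)], [(nat_lit 4), (nat_lit 51), (nat_lit 428), (nat_lit 200), (nat_lit 13)]⟩,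
 ⟨⟨[(nat_lit 120), (nat_lit 160), (nat_lit 180)], [(nat_lit 0), (nat_lit 533), (nat_lit 2066)], [((nat_lit 0), (nat_lit 0), (nat_lit 0)), ((nat_lit 960), (nat_lit 1000), (nat_lit 200)), ((nat_lit 615), (nat_lit 1000), (nat_lit 729))], ((nat_lit 100), (nat_lit 65), (nat_lit 70))⟩, (nat_lit 1327277), (nat_lit 300), (nat_lit 1107), (nat_lit 27622400), (nat_lit 1791356), [(nat_lit 3314688000), (nat_lit 4938752000), (nat_lit 5848128000)], [], [(nat_lit 23388747891), (nat_lit 22747303008), (nat_lit 21085150094), (nat_lit 20394587466), (nat_lit 22130058855), (nat_lit 21439174920), (nat_lit 19581204376), (nat_lit 18894812578)], (nat_lit 1271251), (nat_lit 1271251), (nat_lit 780000), (nat_lit 2908751), (nat_lit 1271251), (nat_lit 1271251), [(nat_lit 1695001), (nat_lit 1271251), (nat_lit 1271251)], [(nat_lit 28), (nat_lit 65), (nat_lit 538), (nat_lit 300), (nat_lit 12)]⟩⟩)))))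
noncomputable def c12_12 : Tr Lf :=
 (.spl (nat_lit 6) (nat_lit 100) (.spl (nat_lit 5) (nat_lit 160) (.leaf ⟨(nat_lit 53), (nat_lit 947), (nat_lit 0), (nat_lit 0), (nat_lit 1888), (nat_lit 8212), (nat_lit 7842), (nat_lit 0), (nat_lit 1395263), (nat_lit 0), (nat_lit 212000), [((nat_lit 340), [((nat_lit 37), (nat_lit 5), (nat_lit 53))])], ⟨(nat_lit 8), false, true, false, (nat_lit 301), (nat_lit 3872), (nat_lit 4473), [(nat_lit 1527314), (nat_lit 1533860), (nat_lit 1538088), (nat_lit 1544747), (nat_lit 1969223), (nat_lit 1953301), (nat_lit 1979997), (nat_lit 1964188)]⟩, ⟨(nat_lit 3), false, false, false, (nat_lit 112), (nat_lit 3872), (nat_lit 4473), [(nat_lit 1073842), (nat_lit 1090218), (nat_lit 1138518), (nat_lit 1155575), (nat_lit 1413733), (nat_lit 1412825), (nat_lit 1478432), (nat_lit 1478205)]⟩, (nat_lit 4599538), (nat_lit 39413635), (nat_lit 22817140), (nat_lit 4769225), (nat_lit 3), (nat_lit 0), [⟨(nat_lit 0), (nat_lit 79), (nat_lit 77),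 (nat_lit 100), (nat_lit 28212615)⟩], [], [⟨(nat_lit 0), (nat_lit 100), (nat_lit 81), (nat_lit 42), (nat_lit 20940644)⟩], [],
 ⟨⟨[(nat_lit 40), (nat_lit 100), (nat_lit 140)], [(nat_lit 0), (nat_lit 0), (nat_lit 3243)], [((nat_lit 0), (nat_lit 0), (nat_lit 0)), ((nat_lit 0), (nat_lit 0), (nat_lit 0)), ((nat_lit 1000), (nat_lit 870), (nat_lit 941))], ((nat_lit 87), (nat_lit 100), (nat_lit 94))⟩, (nat_lit 36148), (nat_lit 300), (nat_lit 333), (nat_lit 52663626), (nat_lit 270528), [(nat_lit 2018914827), (nat_lit 5266362437), (nat_lit 7490135600)], [(nat_lit 0), (nat_lit 0), (nat_lit 0)], [(nat_lit 35491223960), (nat_lit 36649445511), (nat_lit 44248888032), (nat_lit 45965033992), (nat_lit 29653529118), (nat_lit 30759207440), (nat_lit 41877215826), (nat_lit 38363062878)], (nat_lit 1271251), (nat_lit 1271251), (nat_lit 936250), (nat_lit 3113751), (nat_lit 0), (nat_lit 1412501), [(nat_lit 490000), (nat_lit 1427501), (nat_lit 1271251)], [(nat_lit 5), (nat_lit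 55), (nat_lit 373), (nat_lit 150), (nat_lit 11)]⟩,
 ⟨⟨[(nat_lit 40), (nat_lit 100), (nat_lit 140)], [(nat_lit 0), (nat_lit 0), (nat_lit 3243)], [((nat_lit 0), (nat_lit 0), (nat_lit 0)), ((nat_lit 0), (nat_lit 0), (nat_lit 0)), ((nat_lit 1000), (nat_lit 870), (nat_lit 941))], ((nat_lit 87), (nat_lit 100), (nat_lit 94))⟩, (nat_lit 0), (nat_lit 336), (nat_lit 336), (nat_lit 0), (nat_lit 284701), [(nat_lit 1924304000), (nat_lit 5918750000), (nat_lit 9320374000)], [], [(nat_lit 34619273116), (nat_lit 33498525246), (nat_lit 43425626920), (nat_lit 43975334345), (nat_lit 27966716756), (nat_lit 28515873257), (nat_lit 37559504052), (nat_lit 35921839587)], (nat_lit 1271251), (nat_lit 1271251), (nat_lit 936250), (nat_lit 3113751), (nat_lit 0), (nat_lit 1100000), [(nat_lit 490000), (nat_lit 1427501), (nat_lit 1271251)], [(nat_lit 5), (nat_lit 55), (nat_lit 373), (nat_lit 150), (nat_lit 11)]⟩,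
 Rw.none⟩) (.stt (nat_lit 2) (.spl (nat_lit 4) (nat_lit 120) (.spl (nat_lit 0) (nat_lit 330) (.spl (nat_lit 6) (nat_lit 88) (.leaf ⟨(nat_lit 60), (nat_lit 817), (nat_lit 0), (nat_lit 123), (nat_lit 7238), (nat_lit 8380), (nat_lit 6965), (nat_lit 1424), (nat_lit 834700), (nat_lit 0), (nat_lit 240000), [((nat_lit 330), [((nat_lit 37), (nat_lit 5), (nat_lit 60))])], ⟨(nat_lit 8), true, false, false, (nat_lit 301), (nat_lit 4183), (nat_lit 4473), [(nat_lit 1527406), (nat_lit 1530591), (nat_lit 1538187), (nat_lit 1541422), (nat_lit 1969270), (nat_lit 1961259), (nat_lit 1980052), (nat_lit 1972090)]⟩, ⟨(nat_lit 3), false, false, false, (nat_lit 84), (nat_lit 4183), (nat_lit 4473), [(nat_lit 1073842), (nat_lit 1082054), (nat_lit 1138540), (nat_lit 1147053), (nat_lit 1277776), (nat_lit 1280820), (nat_lit 1342476), (nat_lit 1345821)]⟩, (nat_lit 4282759), (nat_lit 40508445), (nat_lit 23339404), (nat_lit 3152151), (nat_lit 4), (nat_lit 0), [], [⟨(nat_lit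 0), (nat_lit 100), (nat_lit 81), (nat_lit 42), (nat_lit 198414205)⟩], [⟨(nat_lit 1), (nat_lit 83), (nat_lit 81), (nat_lit 100), (nat_lit 379333810)⟩], [⟨(nat_lit 1), (nat_lit 100), (nat_lit 97), (nat_lit 62), (nat_lit 1005357)⟩],
 ⟨⟨[(nat_lit 40), (nat_lit 100), (nat_lit 140)], [(nat_lit 0), (nat_lit 0), (nat_lit 3243)], [((nat_lit 0), (nat_lit 0), (nat_lit 0)), ((nat_lit 0), (nat_lit 0), (nat_lit 0)), ((nat_lit 1000), (nat_lit 870), (nat_lit 941))], ((nat_lit 85), (nat_lit 100), (nat_lit 88))⟩, (nat_lit 0), (nat_lit 300), (nat_lit 303), (nat_lit 51421858), (nat_lit 174082), [(nat_lit 2056874284), (nat_lit 5142185722), (nat_lit 7186175426)], [(nat_lit 0), (nat_lit 0), (nat_lit 0)], [(nat_lit 34717347205), (nat_lit 35437189812), (nat_lit 44718907680), (nat_lit 45587844380), (nat_lit 29176115639), (nat_lit 29815882999), (nat_lit 38311571688), (nat_lit 36518549178)], (nat_lit 1271251), (nat_lit 1271251), (nat_lit 936250), (nat_lit 3113751), (nat_lit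 0), (nat_lit 780000), [(nat_lit 490000), (nat_lit 1427501), (nat_lit 1271251)], [(nat_lit 5), (nat_lit 55), (nat_lit 373), (nat_lit 150), (nat_lit 11)]⟩,
 ⟨⟨[(nat_lit 40), (nat_lit 100), (nat_lit 140)], [(nat_lit 0), (nat_lit 0), (nat_lit 3243)], [((nat_lit 0), (nat_lit 0), (nat_lit 0)), ((nat_lit 0), (nat_lit 0), (nat_lit 0)), ((nat_lit 1000), (nat_lit 870), (nat_lit 941))], ((nat_lit 85), (nat_lit 100), (nat_lit 88))⟩, (nat_lit 0), (nat_lit 93), (nat_lit 93), (nat_lit 0), (nat_lit 0), [(nat_lit 1910080000), (nat_lit 5875000000), (nat_lit 9251480000)], [], [(nat_lit 18164245710), (nat_lit 19178964745), (nat_lit 31221698020), (nat_lit 31882517395), (nat_lit 27375664852), (nat_lit 28020619829), (nat_lit 35713636068), (nat_lit 36132460353)], (nat_lit 0), (nat_lit 0), (nat_lit 0), (nat_lit 0), (nat_lit 0), (nat_lit 0), [], [(nat_lit 5), (nat_lit 55), (nat_lit 428), (nat_lit 200), (nat_lit 12)]⟩,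
 ⟨⟨[(nat_lit 140), (nat_lit 180), (nat_lit 200)], [(nat_lit 0), (nat_lit 0), (nat_lit 2835)], [((nat_lit 0), (nat_lit 0), (nat_lit 0)), ((nat_lit 0), (nat_lit 0), (nat_lit 0)), ((nat_lit 363), (nat_lit 1000), (nat_lit 798))], ((nat_lit 0), (nat_lit 0), (nat_lit 0))⟩, (nat_lit 33841), (nat_lit 300), (nat_lit 948), (nat_lit 9606304), (nat_lit 1007318), [(nat_lit 1210566000), (nat_lit 1729134000), (nat_lit 2017200000)], [], [(nat_lit 9064756312), (nat_lit 8741742545), (nat_lit 7969212908), (nat_lit 7660304868), (nat_lit 8538785474), (nat_lit 9247080996), (nat_lit 9062537220), (nat_lit 10173427093)], (nat_lit 780000), (nat_lit 1271251), (nat_lit 0), (nat_lit 780000), (nat_lit 1100000), (nat_lit 2726876), [(nat_lit 1977501), (nat_lit 1271251), (nat_lit 1271251)], [(nat_lit 32), (nat_lit 67), (nat_lit 401), (nat_lit 175), (nat_lit 9)]⟩⟩) (.dle (nat_lit 0))) (.trZ (nat_lit 0) (nat_lit 1) (nat_lit 3) (nat_lit 82) (nat_lit 78) (nat_lit 100) (nat_lit 150)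 (.leaf ⟨(nat_lit 0), (nat_lit 879), (nat_lit 0), (nat_lit 121), (nat_lit 4175), (nat_lit 8721), (nat_lit 7434), (nat_lit 1401), (nat_lit 0), (nat_lit 0), (nat_lit 0), [], Pd.none, Pd.none, (nat_lit 0), (nat_lit 1), (nat_lit 0), (nat_lit 0), (nat_lit 4), (nat_lit 0), [], [⟨(nat_lit 0), (nat_lit 100), (nat_lit 76), (nat_lit 48), (nat_lit 208729518)⟩], [⟨(nat_lit 1), (nat_lit 83), (nat_lit 81), (nat_lit 100), (nat_lit 413656750)⟩], [⟨(nat_lit 1), (nat_lit 100), (nat_lit 96), (nat_lit 64), (nat_lit 4460166)⟩],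
 ⟨⟨[(nat_lit 40), (nat_lit 100), (nat_lit 140)], [(nat_lit 0), (nat_lit 592), (nat_lit 3606)], [((nat_lit 0), (nat_lit 0), (nat_lit 0)), ((nat_lit 1000), (nat_lit 908), (nat_lit 154)), ((nat_lit 1000), (nat_lit 825), (nat_lit 971))], ((nat_lit 81), (nat_lit 100), (nat_lit 92))⟩, (nat_lit 393202), (nat_lit 300), (nat_lit 319), (nat_lit 60172245), (nat_lit 223042), [(nat_lit 2338155157), (nat_lit 6250000007), (nat_lit 9842000000)], [], [(nat_lit 37607158295), (nat_lit 38333808456), (nat_lit 46563923121), (nat_lit 47454910586), (nat_lit 31707752983), (nat_lit 32345639983), (nat_lit 39028682481), (nat_lit 38248533745)], (nat_lit 1271251), (nat_lit 1271251), (nat_lit 1017188), (nat_lit 3134376), (nat_lit 0), (nat_lit 780000), [(nat_lit 490000), (nat_lit 1427501), (nat_lit 1271251)], [(nat_lit 5), (nat_lit 55), (nat_lit 373), (nat_lit 150), (nat_lit 10)]⟩,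
 ⟨⟨[(nat_lit 40), (nat_lit 100), (nat_lit 140)], [(nat_lit 0), (nat_lit 0), (nat_lit 3243)], [((nat_lit 0), (nat_lit 0), (nat_lit 0)), ((nat_lit 0), (nat_lit 0), (nat_lit 0)), ((nat_lit 1000), (nat_lit 870), (nat_lit 941))], ((nat_lit 87), (nat_lit 100), (nat_lit 94))⟩, (nat_lit 0), (nat_lit 93), (nat_lit 93), (nat_lit 0), (nat_lit 0), [(nat_lit 2032000000), (nat_lit 6250000000), (nat_lit 9842000000)], [], [(nat_lit 19309354598), (nat_lit 20374887939), (nat_lit 33245366216), (nat_lit 33949688902), (nat_lit 28966707550), (nat_lit 29644253476), (nat_lit 38024527551), (nat_lit 38470706369)], (nat_lit 0), (nat_lit 0), (nat_lit 0), (nat_lit 0), (nat_lit 0), (nat_lit 0), [], [(nat_lit 5), (nat_lit 55), (nat_lit 428), (nat_lit 200), (nat_lit 11)]⟩,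
 ⟨⟨[(nat_lit 140), (nat_lit 180), (nat_lit 200)], [(nat_lit 0), (nat_lit 0), (nat_lit 2835)], [((nat_lit 0), (nat_lit 0), (nat_lit 0)), ((nat_lit 0), (nat_lit 0), (nat_lit 0)), ((nat_lit 363), (nat_lit 1000), (nat_lit 798))], ((nat_lit 0), (nat_lit 0), (nat_lit 0))⟩, (nat_lit 33291), (nat_lit 300), (nat_lit 1109), (nat_lit 9450101), (nat_lit 1361115), [(nat_lit 1190882000), (nat_lit 1701018000), (nat_lit 1984400000)], [], [(nat_lit 8922131304), (nat_lit 8599149095), (nat_lit 7917295084), (nat_lit 7601468920), (nat_lit 8399443303), (nat_lit 9097063568), (nat_lit 8915485075), (nat_lit 10008405986)], (nat_lit 780000), (nat_lit 1271251), (nat_lit 0), (nat_lit 780000), (nat_lit 1100000), (nat_lit 2726876), [(nat_lit 1977501), (nat_lit 1271251), (nat_lit 1271251)], [(nat_lit 32), (nat_lit 67), (nat_lit 401), (nat_lit 175), (nat_lit 9)]⟩⟩))) (.leaf ⟨(nat_lit 0), (nat_lit 889), (nat_lit 0), (nat_lit 111), (nat_lit 1748), (nat_lit 8907), (nat_lit 6833),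 (nat_lit 1214), (nat_lit 575749), (nat_lit 0), (nat_lit 0), [], Pd.none, Pd.none, (nat_lit 0), (nat_lit 1), (nat_lit 0), (nat_lit 0), (nat_lit 4), (nat_lit 0), [], [], [⟨(nat_lit 1), (nat_lit 83), (nat_lit 81), (nat_lit 100), (nat_lit 317033103)⟩], [],
 ⟨⟨[(nat_lit 40), (nat_lit 100), (nat_lit 140)], [(nat_lit 0), (nat_lit 0), (nat_lit 3243)], [((nat_lit 0), (nat_lit 0), (nat_lit 0)), ((nat_lit 0), (nat_lit 0), (nat_lit 0)), ((nat_lit 1000), (nat_lit 870), (nat_lit 941))], ((nat_lit 87), (nat_lit 100), (nat_lit 94))⟩, (nat_lit 1971425), (nat_lit 229), (nat_lit 229), (nat_lit 0), (nat_lit 270528), [(nat_lit 3080812230), (nat_lit 6250001482), (nat_lit 9842000000)], [], [(nat_lit 20938141555), (nat_lit 22605186932), (nat_lit 36435593584), (nat_lit 38091093141), (nat_lit 21165425710), (nat_lit 22631746077), (nat_lit 35350837440), (nat_lit 36803276414)], (nat_lit 1271251), (nat_lit 1271251), (nat_lit 936250), (nat_lit 3113751), (nat_lit 780000), (nat_lit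 1435001), [(nat_lit 490000), (nat_lit 1427501), (nat_lit 1271251)], [(nat_lit 5), (nat_lit 55), (nat_lit 373), (nat_lit 150), (nat_lit 10)]⟩,
 ⟨⟨[(nat_lit 40), (nat_lit 100), (nat_lit 140)], [(nat_lit 0), (nat_lit 0), (nat_lit 3243)], [((nat_lit 0), (nat_lit 0), (nat_lit 0)), ((nat_lit 0), (nat_lit 0), (nat_lit 0)), ((nat_lit 1000), (nat_lit 870), (nat_lit 941))], ((nat_lit 87), (nat_lit 100), (nat_lit 94))⟩, (nat_lit 0), (nat_lit 93), (nat_lit 93), (nat_lit 0), (nat_lit 0), [(nat_lit 2032000000), (nat_lit 6250000000), (nat_lit 9842000000)], [], [(nat_lit 19872893190), (nat_lit 20895704903), (nat_lit 32557961604), (nat_lit 33159432199), (nat_lit 29322972749), (nat_lit 29978052343), (nat_lit 37254435300), (nat_lit 37685332491)], (nat_lit 0), (nat_lit 0), (nat_lit 0), (nat_lit 0), (nat_lit 0), (nat_lit 0), [], [(nat_lit 5), (nat_lit 55), (nat_lit 428), (nat_lit 200), (nat_lit 12)]⟩,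
 ⟨⟨[(nat_lit 140), (nat_lit 180), (nat_lit 200)], [(nat_lit 0), (nat_lit 0), (nat_lit 2835)], [((nat_lit 0), (nat_lit 0), (nat_lit 0)), ((nat_lit 0), (nat_lit 0), (nat_lit 0)), ((nat_lit 363), (nat_lit 1000), (nat_lit 798))], ((nat_lit 0), (nat_lit 0), (nat_lit 0))⟩, (nat_lit 30540), (nat_lit 300), (nat_lit 1442), (nat_lit 8669100), (nat_lit 2274824), [(nat_lit 1092462000), (nat_lit 1560438000), (nat_lit 1820400000)], [], [(nat_lit 7791402970), (nat_lit 7522815968), (nat_lit 7431333242), (nat_lit 7164492280), (nat_lit 7153245032), (nat_lit 6883356131), (nat_lit 6791564588), (nat_lit 6524891197)], (nat_lit 780000), (nat_lit 1271251), (nat_lit 780000), (nat_lit 1435001), (nat_lit 1100000), (nat_lit 2726876), [(nat_lit 1977501), (nat_lit 1271251), (nat_lit 1271251)], [(nat_lit 32), (nat_lit 67), (nat_lit 452), (nat_lit 200), (nat_lit 10)]⟩⟩)) (.spl (nat_lit 4) (nat_lit 120) (.spl (nat_lit 0) (nat_lit 330) (.spl (nat_lit 6) (nat_lit 88) (.leaf ⟨(nat_lit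 0), (nat_lit 733), (nat_lit 0), (nat_lit 267), (nat_lit 3951), (nat_lit 8478), (nat_lit 4791), (nat_lit 2553), (nat_lit 155758), (nat_lit 0), (nat_lit 0), [], Pd.none, Pd.none, (nat_lit 0), (nat_lit 1), (nat_lit 0), (nat_lit 0), (nat_lit 4), (nat_lit 0), [], [⟨(nat_lit 0), (nat_lit 100), (nat_lit 81), (nat_lit 42), (nat_lit 158124197)⟩], [⟨(nat_lit 1), (nat_lit 83), (nat_lit 81), (nat_lit 100), (nat_lit 86675870)⟩], [⟨(nat_lit 1), (nat_lit 100), (nat_lit 97), (nat_lit 62), (nat_lit 69623956)⟩],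
 ⟨⟨[(nat_lit 40), (nat_lit 100), (nat_lit 140)], [(nat_lit 0), (nat_lit 0), (nat_lit 3243)], [((nat_lit 0), (nat_lit 0), (nat_lit 0)), ((nat_lit 0), (nat_lit 0), (nat_lit 0)), ((nat_lit 1000), (nat_lit 870), (nat_lit 941))], ((nat_lit 85), (nat_lit 100), (nat_lit 88))⟩, (nat_lit 2290969), (nat_lit 262), (nat_lit 262), (nat_lit 0), (nat_lit 86305), [(nat_lit 2032000096), (nat_lit 6250000005), (nat_lit 9842000000)], [], [(nat_lit 25969542150), (nat_lit 26880816122), (nat_lit 44993085808), (nat_lit 45868359678), (nat_lit 20798651346), (nat_lit 21766758543), (nat_lit 40430407982), (nat_lit 38616416951)], (nat_lit 1271251), (nat_lit 1271251), (nat_lit 936250), (nat_lit 3113751), (nat_lit 0), (nat_lit 780000), [(nat_lit 490000), (nat_lit 1427501), (nat_lit 1271251)], [(nat_lit 5), (nat_lit 55), (nat_lit 373), (nat_lit 150), (nat_lit 11)]⟩,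
 ⟨⟨[(nat_lit 40), (nat_lit 100), (nat_lit 140)], [(nat_lit 0), (nat_lit 0), (nat_lit 3243)], [((nat_lit 0), (nat_lit 0), (nat_lit 0)), ((nat_lit 0), (nat_lit 0), (nat_lit 0)), ((nat_lit 1000), (nat_lit 870), (nat_lit 941))], ((nat_lit 85), (nat_lit 100), (nat_lit 88))⟩, (nat_lit 38394), (nat_lit 193), (nat_lit 193), (nat_lit 0), (nat_lit 209445), [(nat_lit 2032000000), (nat_lit 6250000000), (nat_lit 9842000000)], [], [(nat_lit 28828180367), (nat_lit 29523664682), (nat_lit 37934091422), (nat_lit 38329232226), (nat_lit 35579221411), (nat_lit 36046747782), (nat_lit 41088394027), (nat_lit 41358997018)], (nat_lit 1271251), (nat_lit 1271251), (nat_lit 1271251), (nat_lit 1271251), (nat_lit 1100000), (nat_lit 2726876), [(nat_lit 490000), (nat_lit 1427501), (nat_lit 1271251)], [(nat_lit 5), (nat_lit 55), (nat_lit 428), (nat_lit 200), (nat_lit 12)]⟩,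
 ⟨⟨[(nat_lit 140), (nat_lit 180), (nat_lit 200)], [(nat_lit 0), (nat_lit 0), (nat_lit 2835)], [((nat_lit 0), (nat_lit 0), (nat_lit 0)), ((nat_lit 0), (nat_lit 0), (nat_lit 0)), ((nat_lit 363), (nat_lit 1000), (nat_lit 798))], ((nat_lit 0), (nat_lit 0), (nat_lit 0))⟩, (nat_lit 73460), (nat_lit 300), (nat_lit 652), (nat_lit 20852705), (nat_lit 347135), [(nat_lit 2627814000), (nat_lit 3753486000), (nat_lit 4378800000)], [], [(nat_lit 19878817820), (nat_lit 19385592332), (nat_lit 17884134825), (nat_lit 17418151922), (nat_lit 19435366675), (nat_lit 18882879528), (nat_lit 18605708019), (nat_lit 20688688002)], (nat_lit 780000), (nat_lit 1271251), (nat_lit 0), (nat_lit 780000), (nat_lit 1100000), (nat_lit 2726876), [(nat_lit 1977501), (nat_lit 1271251), (nat_lit 1271251)], [(nat_lit 32), (nat_lit 67), (nat_lit 401), (nat_lit 175), (nat_lit 9)]⟩⟩) (.dle (nat_lit 0))) (.trZ (nat_lit 0) (nat_lit 1) (nat_lit 3) (nat_lit 82) (nat_lit 78) (nat_lit 100) (nat_lit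 150) (.leaf ⟨(nat_lit 0), (nat_lit 688), (nat_lit 0), (nat_lit 312), (nat_lit 0), (nat_lit 7260), (nat_lit 7672), (nat_lit 3143), (nat_lit 0), (nat_lit 0), (nat_lit 0), [], Pd.none, Pd.none, (nat_lit 0), (nat_lit 1), (nat_lit 0), (nat_lit 0), (nat_lit 4), (nat_lit 0), [], [⟨(nat_lit 0), (nat_lit 100), (nat_lit 76), (nat_lit 48), (nat_lit 138948939)⟩], [], [⟨(nat_lit 1), (nat_lit 100), (nat_lit 96), (nat_lit 64), (nat_lit 62492749)⟩],
 ⟨⟨[(nat_lit 40), (nat_lit 100), (nat_lit 140)], [(nat_lit 0), (nat_lit 592), (nat_lit 3606)], [((nat_lit 0), (nat_lit 0), (nat_lit 0)), ((nat_lit 1000), (nat_lit 908), (nat_lit 154)), ((nat_lit 1000), (nat_lit 825), (nat_lit 971))], ((nat_lit 81), (nat_lit 100), (nat_lit 92))⟩, (nat_lit 2390020), (nat_lit 286), (nat_lit 286), (nat_lit 0), (nat_lit 112117), [(nat_lit 2032000011), (nat_lit 6250000003), (nat_lit 9842000000)], [], [(nat_lit 24990051429), (nat_lit 25963855341), (nat_lit 42381955260), (nat_lit 43178467160),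 (nat_lit 20985630160), (nat_lit 21847041903), (nat_lit 37622530987), (nat_lit 36069148717)], (nat_lit 1271251), (nat_lit 1271251), (nat_lit 1017188), (nat_lit 3134376), (nat_lit 0), (nat_lit 780000), [(nat_lit 490000), (nat_lit 1427501), (nat_lit 1271251)], [(nat_lit 5), (nat_lit 55), (nat_lit 373), (nat_lit 150), (nat_lit 10)]⟩,
 ⟨⟨[(nat_lit 40), (nat_lit 100), (nat_lit 140)], [(nat_lit 0), (nat_lit 0), (nat_lit 3243)], [((nat_lit 0), (nat_lit 0), (nat_lit 0)), ((nat_lit 0), (nat_lit 0), (nat_lit 0)), ((nat_lit 1000), (nat_lit 870), (nat_lit 941))], ((nat_lit 87), (nat_lit 100), (nat_lit 94))⟩, (nat_lit 930442), (nat_lit 216), (nat_lit 216), (nat_lit 0), (nat_lit 284650), [(nat_lit 2032000000), (nat_lit 6250000000), (nat_lit 9842000000)], [], [(nat_lit 25895889738), (nat_lit 26600825066), (nat_lit 34499563282), (nat_lit 34979372354), (nat_lit 31706461976), (nat_lit 32160855424), (nat_lit 38329489208), (nat_lit 38781719652)], (nat_lit 1271251),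 (nat_lit 1271251), (nat_lit 1271251), (nat_lit 1271251), (nat_lit 1100000), (nat_lit 2726876), [(nat_lit 490000), (nat_lit 1427501), (nat_lit 1271251)], [(nat_lit 5), (nat_lit 55), (nat_lit 428), (nat_lit 200), (nat_lit 11)]⟩,
 ⟨⟨[(nat_lit 140), (nat_lit 180), (nat_lit 200)], [(nat_lit 0), (nat_lit 0), (nat_lit 2835)], [((nat_lit 0), (nat_lit 0), (nat_lit 0)), ((nat_lit 0), (nat_lit 0), (nat_lit 0)), ((nat_lit 363), (nat_lit 1000), (nat_lit 798))], ((nat_lit 0), (nat_lit 0), (nat_lit 0))⟩, (nat_lit 85841), (nat_lit 300), (nat_lit 706), (nat_lit 24367204), (nat_lit 474280), [(nat_lit 3070704000), (nat_lit 4386096000), (nat_lit 5116800000)], [], [(nat_lit 23247668004), (nat_lit 22611905606), (nat_lit 20827015389), (nat_lit 20222849640), (nat_lit 22506307800), (nat_lit 22418604828), (nat_lit 22058085886), (nat_lit 24589620743)], (nat_lit 780000), (nat_lit 1271251), (nat_lit 0), (nat_lit 780000), (nat_lit 1100000), (nat_lit 2726876), [(nat_lit 1977501),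 (nat_lit 1271251), (nat_lit 1271251)], [(nat_lit 32), (nat_lit 67), (nat_lit 401), (nat_lit 175), (nat_lit 9)]⟩⟩))) (.leaf ⟨(nat_lit 0), (nat_lit 805), (nat_lit 0), (nat_lit 195), (nat_lit 0), (nat_lit 8128), (nat_lit 8928), (nat_lit 2116), (nat_lit 1653936), (nat_lit 0), (nat_lit 0), [], Pd.none, Pd.none, (nat_lit 0), (nat_lit 1), (nat_lit 0), (nat_lit 0), (nat_lit 4), (nat_lit 0), [], [], [⟨(nat_lit 1), (nat_lit 83), (nat_lit 81), (nat_lit 100), (nat_lit 229840918)⟩], [],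
 ⟨⟨[(nat_lit 40), (nat_lit 100), (nat_lit 140)], [(nat_lit 0), (nat_lit 0), (nat_lit 3243)], [((nat_lit 0), (nat_lit 0), (nat_lit 0)), ((nat_lit 0), (nat_lit 0), (nat_lit 0)), ((nat_lit 1000), (nat_lit 870), (nat_lit 941))], ((nat_lit 87), (nat_lit 100), (nat_lit 94))⟩, (nat_lit 2228977), (nat_lit 195), (nat_lit 195), (nat_lit 0), (nat_lit 158187), [(nat_lit 2632914155), (nat_lit 6250007034), (nat_lit 9842000000)], [], [(nat_lit 19756491541), (nat_lit 21782863206), (nat_lit 35268564336), (nat_lit 36833365312), (nat_lit 20451114741), (nat_lit 22220160803), (nat_lit 34442622736), (nat_lit 35803600904)], (nat_lit 1271251), (nat_lit 1271251), (nat_lit 936250), (nat_lit 3113751), (nat_lit 780000), (nat_lit 1435001), [(nat_lit 490000), (nat_lit 1427501), (nat_lit 1271251)], [(nat_lit 5), (nat_lit 55), (nat_lit 373), (nat_lit 150), (nat_lit 10)]⟩,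
 ⟨⟨[(nat_lit 40), (nat_lit 100), (nat_lit 140)], [(nat_lit 0), (nat_lit 0), (nat_lit 3243)], [((nat_lit 0), (nat_lit 0), (nat_lit 0)), ((nat_lit 0), (nat_lit 0), (nat_lit 0)), ((nat_lit 1000), (nat_lit 870), (nat_lit 941))], ((nat_lit 87), (nat_lit 100), (nat_lit 94))⟩, (nat_lit 580952), (nat_lit 216), (nat_lit 216), (nat_lit 0), (nat_lit 284701), [(nat_lit 2032000000), (nat_lit 6250000000), (nat_lit 9842000000)], [], [(nat_lit 24932495728), (nat_lit 25718296294), (nat_lit 35396836376), (nat_lit 35914153984), (nat_lit 32537459388), (nat_lit 33157116586), (nat_lit 39938866692), (nat_lit 40423033448)], (nat_lit 1271251), (nat_lit 1271251), (nat_lit 1271251), (nat_lit 1271251), (nat_lit 1100000), (nat_lit 2726876), [(nat_lit 490000), (nat_lit 1427501), (nat_lit 1271251)], [(nat_lit 5), (nat_lit 55), (nat_lit 428), (nat_lit 200), (nat_lit 12)]⟩,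
 ⟨⟨[(nat_lit 140), (nat_lit 180), (nat_lit 200)], [(nat_lit 0), (nat_lit 0), (nat_lit 2835)], [((nat_lit 0), (nat_lit 0), (nat_lit 0)), ((nat_lit 0), (nat_lit 0), (nat_lit 0)), ((nat_lit 363), (nat_lit 1000), (nat_lit 798))], ((nat_lit 0), (nat_lit 0), (nat_lit 0))⟩, (nat_lit 53651), (nat_lit 300), (nat_lit 1036), (nat_lit 15229500), (nat_lit 1387989), [(nat_lit 1919190000), (nat_lit 2741310000), (nat_lit 3198000000)], [], [(nat_lit 13500265308), (nat_lit 13031634747), (nat_lit 12870501272), (nat_lit 12403252225), (nat_lit 12560511841), (nat_lit 12077718317), (nat_lit 11912164335), (nat_lit 11432044620)], (nat_lit 780000), (nat_lit 1271251), (nat_lit 780000), (nat_lit 1435001), (nat_lit 1100000), (nat_lit 2726876), [(nat_lit 1977501), (nat_lit 1271251), (nat_lit 1271251)], [(nat_lit 32), (nat_lit 67), (nat_lit 428), (nat_lit 200), (nat_lit 9)]⟩⟩)))) (.dle (nat_lit 0)))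
noncomputable def c12_13 : Tr Lf :=
 (.ord (.trZ (nat_lit 0) (nat_lit 1) (nat_lit 3) (nat_lit 77) (nat_lit 77) (nat_lit 100) (nat_lit 160) (.trX (nat_lit 5) (nat_lit 1) (nat_lit 2) (nat_lit 76) (nat_lit 73) (nat_lit 100) (nat_lit 340) (.spl (nat_lit 3) (nat_lit 280) (.spl (nat_lit 4) (nat_lit 120) (.spl (nat_lit 5) (nat_lit 160) (.leaf ⟨(nat_lit 0), (nat_lit 1000), (nat_lit 0), (nat_lit 0), (nat_lit 0), (nat_lit 10480), (nat_lit 7543), (nat_lit 0), (nat_lit 4217166578137), (nat_lit 0), (nat_lit 0), [], Pd.none, Pd.none, (nat_lit 0), (nat_lit 1), (nat_lit 0), (nat_lit 0), (nat_lit 3), (nat_lit 0), [⟨(nat_lit 0), (nat_lit 74), (nat_lit 74), (nat_lit 100), (nat_lit 130665459)⟩], [⟨(nat_lit 0), (nat_lit 100), (nat_lit 76), (nat_lit 48), (nat_lit 228406475)⟩], [], [],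
 ⟨⟨[(nat_lit 40), (nat_lit 100), (nat_lit 140)], [(nat_lit 0), (nat_lit 592), (nat_lit 3606)], [((nat_lit 0), (nat_lit 0), (nat_lit 0)), ((nat_lit 1000), (nat_lit 908), (nat_lit 154)), ((nat_lit 1000), (nat_lit 825), (nat_lit 971))], ((nat_lit 83), (nat_lit 100), (nat_lit 98))⟩, (nat_lit 393202), (nat_lit 300), (nat_lit 329), (nat_lit 60172245), (nat_lit 282724), [(nat_lit 2343816487), (nat_lit 6250000049), (nat_lit 9842000000)], [], [(nat_lit 35910621316), (nat_lit 36714067564), (nat_lit 38191237578), (nat_lit 39194291408), (nat_lit 28462172054), (nat_lit 29172248017), (nat_lit 30172372252), (nat_lit 30712941699)], (nat_lit 1271251), (nat_lit 1271251), (nat_lit 1100000), (nat_lit 2127501), (nat_lit 0), (nat_lit 780000), [(nat_lit 490000), (nat_lit 1427501), (nat_lit 1271251)], [(nat_lit 5), (nat_lit 55), (nat_lit 317), (nat_lit 100), (nat_lit 9)]⟩,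
 ⟨⟨[(nat_lit 40), (nat_lit 100), (nat_lit 140)], [(nat_lit 0), (nat_lit 592), (nat_lit 3606)], [((nat_lit 0), (nat_lit 0), (nat_lit 0)), ((nat_lit 1000), (nat_lit 908), (nat_lit 154)), ((nat_lit 1000), (nat_lit 825), (nat_lit 971))], ((nat_lit 83), (nat_lit 100), (nat_lit 98))⟩, (nat_lit 2353351), (nat_lit 347), (nat_lit 347), (nat_lit 0), (nat_lit 336414), [(nat_lit 2032000000), (nat_lit 6250000000), (nat_lit 9842000000)], [], [(nat_lit 25090126717), (nat_lit 26139680331), (nat_lit 31389886870), (nat_lit 32625503806), (nat_lit 20401540103), (nat_lit 21220570385), (nat_lit 27144104255), (nat_lit 25489675436)], (nat_lit 1271251), (nat_lit 1271251), (nat_lit 1100000), (nat_lit 2127501), (nat_lit 0), (nat_lit 1100000), [(nat_lit 490000), (nat_lit 1427501), (nat_lit 1271251)], [(nat_lit 5), (nat_lit 55), (nat_lit 345), (nat_lit 125), (nat_lit 10)]⟩,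
 Rw.none⟩) (.spl (nat_lit 5) (nat_lit 240) (.leaf ⟨(nat_lit 0), (nat_lit 1000), (nat_lit 0), (nat_lit 0), (nat_lit 0), (nat_lit 10291), (nat_lit 8715), (nat_lit 0), (nat_lit 3752193825264), (nat_lit 0), (nat_lit 0), [], Pd.none, Pd.none, (nat_lit 0), (nat_lit 1), (nat_lit 0), (nat_lit 0), (nat_lit 4), (nat_lit 0), [⟨(nat_lit 0), (nat_lit 74), (nat_lit 74), (nat_lit 100), (nat_lit 268423087)⟩], [⟨(nat_lit 0), (nat_lit 100), (nat_lit 76), (nat_lit 48), (nat_lit 228274092)⟩], [], [],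
 ⟨⟨[(nat_lit 40), (nat_lit 100), (nat_lit 140)], [(nat_lit 0), (nat_lit 592), (nat_lit 3606)], [((nat_lit 0), (nat_lit 0), (nat_lit 0)), ((nat_lit 1000), (nat_lit 908), (nat_lit 154)), ((nat_lit 1000), (nat_lit 825), (nat_lit 971))], ((nat_lit 83), (nat_lit 100), (nat_lit 98))⟩, (nat_lit 393202), (nat_lit 300), (nat_lit 329), (nat_lit 60172245), (nat_lit 282724), [(nat_lit 2343517143), (nat_lit 6250000038), (nat_lit 9842000000)], [], [(nat_lit 36072053928), (nat_lit 36866077089), (nat_lit 38115914962), (nat_lit 39068014082), (nat_lit 28791345360), (nat_lit 29493390353), (nat_lit 30516803853), (nat_lit 31051998938)], (nat_lit 1271251), (nat_lit 1271251), (nat_lit 1100000), (nat_lit 2127501), (nat_lit 0), (nat_lit 780000), [(nat_lit 490000), (nat_lit 1427501), (nat_lit 1271251)], [(nat_lit 5), (nat_lit 55), (nat_lit 317), (nat_lit 100), (nat_lit 9)]⟩,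
 ⟨⟨[(nat_lit 40), (nat_lit 100), (nat_lit 140)], [(nat_lit 0), (nat_lit 592), (nat_lit 3606)], [((nat_lit 0), (nat_lit 0), (nat_lit 0)), ((nat_lit 1000), (nat_lit 908), (nat_lit 154)), ((nat_lit 1000), (nat_lit 825), (nat_lit 971))], ((nat_lit 83), (nat_lit 100), (nat_lit 98))⟩, (nat_lit 1923400), (nat_lit 209), (nat_lit 209), (nat_lit 0), (nat_lit 336414), [(nat_lit 2032000000), (nat_lit 6250000000), (nat_lit 9842000000)], [], [(nat_lit 20064470955), (nat_lit 21034669070), (nat_lit 24546705839), (nat_lit 25703843588), (nat_lit 21897096088), (nat_lit 22723072875), (nat_lit 26693915633), (nat_lit 27675436735)], (nat_lit 1271251), (nat_lit 1271251), (nat_lit 1100000), (nat_lit 2127501), (nat_lit 1100000), (nat_lit 1785001), [(nat_lit 490000), (nat_lit 1427501), (nat_lit 1271251)], [(nat_lit 5), (nat_lit 55), (nat_lit 373), (nat_lit 150), (nat_lit 10)]⟩,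
 Rw.none⟩) (.leaf ⟨(nat_lit 0), (nat_lit 869), (nat_lit 0), (nat_lit 131), (nat_lit 0), (nat_lit 11265), (nat_lit 8862), (nat_lit 1794), (nat_lit 1785339054960), (nat_lit 0), (nat_lit 0), [], Pd.none, Pd.none, (nat_lit 0), (nat_lit 1), (nat_lit 0), (nat_lit 0), (nat_lit 6), (nat_lit 0), [⟨(nat_lit 0), (nat_lit 74), (nat_lit 74), (nat_lit 100), (nat_lit 310021852)⟩], [⟨(nat_lit 0), (nat_lit 100), (nat_lit 76), (nat_lit 48), (nat_lit 493836260)⟩], [⟨(nat_lit 1), (nat_lit 87), (nat_lit 76), (nat_lit 100), (nat_lit 509502809)⟩], [],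
 ⟨⟨[(nat_lit 40), (nat_lit 100), (nat_lit 140)], [(nat_lit 0), (nat_lit 592), (nat_lit 3606)], [((nat_lit 0), (nat_lit 0), (nat_lit 0)), ((nat_lit 1000), (nat_lit 908), (nat_lit 154)), ((nat_lit 1000), (nat_lit 825), (nat_lit 971))], ((nat_lit 83), (nat_lit 100), (nat_lit 98))⟩, (nat_lit 393202), (nat_lit 300), (nat_lit 329), (nat_lit 60172246), (nat_lit 282724), [(nat_lit 2345891590), (nat_lit 6250000099), (nat_lit 9842000000)], [], [(nat_lit 35240121088), (nat_lit 36082705552), (nat_lit 38664053283), (nat_lit 39980332130), (nat_lit 27094971060), (nat_lit 27838403164), (nat_lit 29024985855), (nat_lit 29964348047)], (nat_lit 1271251), (nat_lit 1271251), (nat_lit 1100000), (nat_lit 2127501), (nat_lit 0), (nat_lit 780000), [(nat_lit 490000), (nat_lit 1427501), (nat_lit 1271251)], [(nat_lit 5), (nat_lit 55), (nat_lit 317), (nat_lit 100), (nat_lit 9)]⟩,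
 ⟨⟨[(nat_lit 40), (nat_lit 100), (nat_lit 140)], [(nat_lit 0), (nat_lit 592), (nat_lit 3606)], [((nat_lit 0), (nat_lit 0), (nat_lit 0)), ((nat_lit 1000), (nat_lit 908), (nat_lit 154)), ((nat_lit 1000), (nat_lit 825), (nat_lit 971))], ((nat_lit 83), (nat_lit 100), (nat_lit 98))⟩, (nat_lit 1135140), (nat_lit 219), (nat_lit 219), (nat_lit 0), (nat_lit 336414), [(nat_lit 2032000000), (nat_lit 6250000000), (nat_lit 9842000000)], [], [(nat_lit 24636570875), (nat_lit 25471456230), (nat_lit 27464839409), (nat_lit 28108127582), (nat_lit 29776827975), (nat_lit 30752260007), (nat_lit 32858927596), (nat_lit 33607767191)], (nat_lit 1271251), (nat_lit 1271251), (nat_lit 1100000), (nat_lit 2127501), (nat_lit 1271251), (nat_lit 1271251), [(nat_lit 490000), (nat_lit 1427501), (nat_lit 1271251)], [(nat_lit 5), (nat_lit 55), (nat_lit 401), (nat_lit 175), (nat_lit 10)]⟩,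
 ⟨⟨[(nat_lit 140), (nat_lit 180), (nat_lit 200)], [(nat_lit 0), (nat_lit 0), (nat_lit 2835)], [((nat_lit 0), (nat_lit 0), (nat_lit 0)), ((nat_lit 0), (nat_lit 0), (nat_lit 0)), ((nat_lit 363), (nat_lit 1000), (nat_lit 798))], ((nat_lit 0), (nat_lit 0), (nat_lit 0))⟩, (nat_lit 36042), (nat_lit 300), (nat_lit 1241), (nat_lit 10231105), (nat_lit 1736519), [(nat_lit 1289302000), (nat_lit 1841598000), (nat_lit 2148400000)], [], [(nat_lit 8768858816), (nat_lit 8367060675), (nat_lit 7266605542), (nat_lit 6885951548), (nat_lit 8785125163), (nat_lit 8400403626), (nat_lit 7178433677), (nat_lit 6777901026)], (nat_lit 780000), (nat_lit 1271251), (nat_lit 0), (nat_lit 780000), (nat_lit 1271251), (nat_lit 1271251), [(nat_lit 1977501), (nat_lit 1271251), (nat_lit 1271251)], [(nat_lit 32), (nat_lit 67), (nat_lit 401), (nat_lit 175), (nat_lit 9)]⟩⟩))) (.leaf ⟨(nat_lit 0), (nat_lit 887), (nat_lit 0), (nat_lit 113), (nat_lit 0), (nat_lit 10149), (nat_lit 9516),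 (nat_lit 1176), (nat_lit 238351), (nat_lit 0), (nat_lit 0), [], Pd.none, Pd.none, (nat_lit 0), (nat_lit 1), (nat_lit 0), (nat_lit 0), (nat_lit 3), (nat_lit 0), [⟨(nat_lit 0), (nat_lit 74), (nat_lit 74), (nat_lit 100), (nat_lit 139423238)⟩], [], [⟨(nat_lit 1), (nat_lit 87), (nat_lit 76), (nat_lit 100), (nat_lit 57119266)⟩], [],
 ⟨⟨[(nat_lit 40), (nat_lit 100), (nat_lit 140)], [(nat_lit 0), (nat_lit 592), (nat_lit 3606)], [((nat_lit 0), (nat_lit 0), (nat_lit 0)), ((nat_lit 1000), (nat_lit 908), (nat_lit 154)), ((nat_lit 1000), (nat_lit 825), (nat_lit 971))], ((nat_lit 83), (nat_lit 100), (nat_lit 98))⟩, (nat_lit 1723296), (nat_lit 224), (nat_lit 224), (nat_lit 0), (nat_lit 336414), [(nat_lit 3118529721), (nat_lit 6880833932), (nat_lit 9842000000)], [], [(nat_lit 20507324859), (nat_lit 21653265455), (nat_lit 26165952255), (nat_lit 27536603323), (nat_lit 20705928947), (nat_lit 21701072028), (nat_lit 26329681677), (nat_lit 27519246087)], (nat_lit 1271251),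 (nat_lit 1271251), (nat_lit 1100000), (nat_lit 2127501), (nat_lit 780000), (nat_lit 1435001), [(nat_lit 490000), (nat_lit 1427501), (nat_lit 1271251)], [(nat_lit 5), (nat_lit 55), (nat_lit 345), (nat_lit 125), (nat_lit 9)]⟩,
 ⟨⟨[(nat_lit 40), (nat_lit 100), (nat_lit 140)], [(nat_lit 0), (nat_lit 592), (nat_lit 3606)], [((nat_lit 0), (nat_lit 0), (nat_lit 0)), ((nat_lit 1000), (nat_lit 908), (nat_lit 154)), ((nat_lit 1000), (nat_lit 825), (nat_lit 971))], ((nat_lit 83), (nat_lit 100), (nat_lit 98))⟩, (nat_lit 804406), (nat_lit 347), (nat_lit 347), (nat_lit 0), (nat_lit 336414), [(nat_lit 2032000000), (nat_lit 6250000000), (nat_lit 9842000000)], [], [(nat_lit 31586078034), (nat_lit 32818334408), (nat_lit 36127806222), (nat_lit 37067408608), (nat_lit 30696166000), (nat_lit 31359846117), (nat_lit 33424385969), (nat_lit 34206818438)], (nat_lit 1271251), (nat_lit 1271251), (nat_lit 1100000), (nat_lit 2127501), (nat_lit 0), (nat_lit 2401251), [(nat_lit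 490000), (nat_lit 1427501), (nat_lit 1271251)], [(nat_lit 5), (nat_lit 55), (nat_lit 401), (nat_lit 175), (nat_lit 11)]⟩,
 ⟨⟨[(nat_lit 140), (nat_lit 180), (nat_lit 200)], [(nat_lit 0), (nat_lit 0), (nat_lit 2835)], [((nat_lit 0), (nat_lit 0), (nat_lit 0)), ((nat_lit 0), (nat_lit 0), (nat_lit 0)), ((nat_lit 363), (nat_lit 1000), (nat_lit 798))], ((nat_lit 0), (nat_lit 0), (nat_lit 0))⟩, (nat_lit 31090), (nat_lit 300), (nat_lit 1825), (nat_lit 8825300), (nat_lit 2873139), [(nat_lit 1112146000), (nat_lit 1588554000), (nat_lit 1853200000)], [], [(nat_lit 9650716176), (nat_lit 9398747187), (nat_lit 9313264955), (nat_lit 9063263495), (nat_lit 8220215679), (nat_lit 7976244735), (nat_lit 7899219464), (nat_lit 8874435586)], (nat_lit 780000), (nat_lit 1271251), (nat_lit 780000), (nat_lit 1435001), (nat_lit 0), (nat_lit 2401251), [(nat_lit 1977501), (nat_lit 1271251), (nat_lit 1271251)], [(nat_lit 32), (nat_lit 67), (nat_lit 547), (nat_lit 200), (nat_lit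 12)]⟩⟩)) (.leaf ⟨(nat_lit 0), (nat_lit 921), (nat_lit 0), (nat_lit 79), (nat_lit 0), (nat_lit 8045), (nat_lit 6887), (nat_lit 871), (nat_lit 757802039170), (nat_lit 0), (nat_lit 0), [], Pd.none, Pd.none, (nat_lit 0), (nat_lit 1), (nat_lit 0), (nat_lit 0), (nat_lit 3), (nat_lit 0), [], [], [], [⟨(nat_lit 1), (nat_lit 100), (nat_lit 74), (nat_lit 90), (nat_lit 56730019)⟩],
 ⟨⟨[(nat_lit 40), (nat_lit 100), (nat_lit 140)], [(nat_lit 0), (nat_lit 592), (nat_lit 3606)], [((nat_lit 0), (nat_lit 0), (nat_lit 0)), ((nat_lit 1000), (nat_lit 908), (nat_lit 154)), ((nat_lit 1000), (nat_lit 825), (nat_lit 971))], ((nat_lit 83), (nat_lit 100), (nat_lit 98))⟩, (nat_lit 393202), (nat_lit 300), (nat_lit 353), (nat_lit 60172245), (nat_lit 336414), [(nat_lit 2337446081), (nat_lit 6250000018), (nat_lit 9842000000)], [], [(nat_lit 40172839494), (nat_lit 40701556662), (nat_lit 45112650756), (nat_lit 45476213970), (nat_lit 33892313119), (nat_lit 34303607088), (nat_lit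 37682983377), (nat_lit 37963782367)], (nat_lit 1271251), (nat_lit 1271251), (nat_lit 1271251), (nat_lit 1271251), (nat_lit 0), (nat_lit 1412501), [(nat_lit 490000), (nat_lit 1427501), (nat_lit 1271251)], [(nat_lit 5), (nat_lit 55), (nat_lit 260), (nat_lit 50), (nat_lit 7)]⟩,
 ⟨⟨[(nat_lit 40), (nat_lit 100), (nat_lit 140)], [(nat_lit 0), (nat_lit 592), (nat_lit 3606)], [((nat_lit 0), (nat_lit 0), (nat_lit 0)), ((nat_lit 1000), (nat_lit 908), (nat_lit 154)), ((nat_lit 1000), (nat_lit 825), (nat_lit 971))], ((nat_lit 83), (nat_lit 100), (nat_lit 98))⟩, (nat_lit 1387501), (nat_lit 353), (nat_lit 353), (nat_lit 0), (nat_lit 336414), [(nat_lit 2032000000), (nat_lit 6250000000), (nat_lit 9842000000)], [], [(nat_lit 33374043318), (nat_lit 33852712752), (nat_lit 41314279687), (nat_lit 42086671542), (nat_lit 31364437653), (nat_lit 31798705704), (nat_lit 37295492430), (nat_lit 37741830604)], (nat_lit 1271251), (nat_lit 1271251), (nat_lit 1271251), (nat_lit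 1271251), (nat_lit 0), (nat_lit 2401251), [(nat_lit 490000), (nat_lit 1427501), (nat_lit 1271251)], [(nat_lit 5), (nat_lit 55), (nat_lit 317), (nat_lit 100), (nat_lit 8)]⟩,
 ⟨⟨[(nat_lit 140), (nat_lit 180), (nat_lit 200)], [(nat_lit 0), (nat_lit 0), (nat_lit 2835)], [((nat_lit 0), (nat_lit 0), (nat_lit 0)), ((nat_lit 0), (nat_lit 0), (nat_lit 0)), ((nat_lit 363), (nat_lit 1000), (nat_lit 798))], ((nat_lit 0), (nat_lit 0), (nat_lit 0))⟩, (nat_lit 21735), (nat_lit 300), (nat_lit 1900), (nat_lit 6169907), (nat_lit 2873139), [(nat_lit 777518000), (nat_lit 1110582000), (nat_lit 1295600000)], [], [(nat_lit 7159682456), (nat_lit 6632720094), (nat_lit 5932884380), (nat_lit 5747681863), (nat_lit 5631253145), (nat_lit 5425133026), (nat_lit 5520759705), (nat_lit 6233828060)], (nat_lit 780000), (nat_lit 1271251), (nat_lit 0), (nat_lit 1412501), (nat_lit 0), (nat_lit 2401251), [(nat_lit 1977501), (nat_lit 1271251), (nat_lit 1271251)], [(nat_lit 32), (nat_lit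 67), (nat_lit 565), (nat_lit 200), (nat_lit 12)]⟩⟩)))))
noncomputable def c12_14 : Tr Lf :=
 (.trZ (nat_lit 0) (nat_lit 2) (nat_lit 4) (nat_lit 100) (nat_lit 80) (nat_lit 52) (nat_lit 20) (.trZ (nat_lit 1) (nat_lit 2) (nat_lit 5) (nat_lit 100) (nat_lit 80) (nat_lit 52) (nat_lit 20) (.spl (nat_lit 6) (nat_lit 80) (.spl (nat_lit 5) (nat_lit 200) (.leaf ⟨(nat_lit 0), (nat_lit 936), (nat_lit 0), (nat_lit 64), (nat_lit 6457), (nat_lit 8384), (nat_lit 8384), (nat_lit 889), (nat_lit 5042264531125), (nat_lit 0), (nat_lit 0), [], Pd.none, Pd.none, (nat_lit 0), (nat_lit 1), (nat_lit 0), (nat_lit 0), (nat_lit 4), (nat_lit 0), [], [], [], [],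
 ⟨⟨[(nat_lit 40), (nat_lit 100), (nat_lit 140)], [(nat_lit 0), (nat_lit 0), (nat_lit 3243)], [((nat_lit 0), (nat_lit 0), (nat_lit 0)), ((nat_lit 0), (nat_lit 0), (nat_lit 0)), ((nat_lit 1000), (nat_lit 870), (nat_lit 941))], ((nat_lit 83), (nat_lit 100), (nat_lit 83))⟩, (nat_lit 4308), (nat_lit 290), (nat_lit 290), (nat_lit 0), (nat_lit 172209), [(nat_lit 2777484928), (nat_lit 6250000002), (nat_lit 9842000000)], [], [(nat_lit 33038095170), (nat_lit 34008451142), (nat_lit 44375004700), (nat_lit 45530892498), (nat_lit 28461797694), (nat_lit 29862689079), (nat_lit 43957030532), (nat_lit 40369273796)], (nat_lit 1271251), (nat_lit 1271251), (nat_lit 936250), (nat_lit 3113751), (nat_lit 111251), (nat_lit 1416250), [(nat_lit 490000), (nat_lit 1427501), (nat_lit 1271251)], [(nat_lit 5), (nat_lit 55), (nat_lit 373), (nat_lit 150), (nat_lit 10)]⟩,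
 ⟨⟨[(nat_lit 40), (nat_lit 100), (nat_lit 140)], [(nat_lit 0), (nat_lit 0), (nat_lit 3243)], [((nat_lit 0), (nat_lit 0), (nat_lit 0)), ((nat_lit 0), (nat_lit 0), (nat_lit 0)), ((nat_lit 1000), (nat_lit 870), (nat_lit 941))], ((nat_lit 83), (nat_lit 100), (nat_lit 83))⟩, (nat_lit 3541), (nat_lit 290), (nat_lit 290), (nat_lit 0), (nat_lit 172209), [(nat_lit 2032000000), (nat_lit 6250000000), (nat_lit 9842000000)], [], [(nat_lit 32292610240), (nat_lit 34010938521), (nat_lit 44377492081), (nat_lit 45533379879), (nat_lit 28464285073), (nat_lit 29865176458), (nat_lit 43957030528), (nat_lit 40369273792)], (nat_lit 1271251), (nat_lit 1271251), (nat_lit 936250), (nat_lit 3113751), (nat_lit 111251), (nat_lit 1416250), [(nat_lit 490000), (nat_lit 1427501), (nat_lit 1271251)], [(nat_lit 5), (nat_lit 55), (nat_lit 373), (nat_lit 150), (nat_lit 10)]⟩,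
 ⟨⟨[(nat_lit 120), (nat_lit 160), (nat_lit 200)], [(nat_lit 0), (nat_lit 533), (nat_lit 3597)], [((nat_lit 0), (nat_lit 0), (nat_lit 0)), ((nat_lit 960), (nat_lit 1000), (nat_lit 200)), ((nat_lit 612), (nat_lit 1000), (nat_lit 732))], ((nat_lit 0), (nat_lit 0), (nat_lit 0))⟩, (nat_lit 34066), (nat_lit 300), (nat_lit 843), (nat_lit 4635323), (nat_lit 635285), [(nat_lit 509952000), (nat_lit 759808000), (nat_lit 1049600000)], [], [(nat_lit 4720887928), (nat_lit 4576007967), (nat_lit 3799141426), (nat_lit 3660268458), (nat_lit 3799141426), (nat_lit 3660268458), (nat_lit 3779336913), (nat_lit 2811180844)], (nat_lit 1271251), (nat_lit 1271251), (nat_lit 111251), (nat_lit 1416250), (nat_lit 111251), (nat_lit 1416250), [(nat_lit 1695001), (nat_lit 1271251), (nat_lit 1271251)], [(nat_lit 29), (nat_lit 66), (nat_lit 401), (nat_lit 175), (nat_lit 9)]⟩⟩) (.leaf ⟨(nat_lit 0), (nat_lit 498), (nat_lit 0), (nat_lit 502), (nat_lit 0), (nat_lit 8472), (nat_lit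 5995), (nat_lit 4913), (nat_lit 24040414827564), (nat_lit 0), (nat_lit 0), [], Pd.none, Pd.none, (nat_lit 0), (nat_lit 1), (nat_lit 0), (nat_lit 0), (nat_lit 5), (nat_lit 0), [⟨(nat_lit 0), (nat_lit 77), (nat_lit 77), (nat_lit 100), (nat_lit 48604422)⟩], [⟨(nat_lit 0), (nat_lit 100), (nat_lit 80), (nat_lit 52), (nat_lit 465591783)⟩], [], [],
 ⟨⟨[(nat_lit 40), (nat_lit 100), (nat_lit 140)], [(nat_lit 0), (nat_lit 0), (nat_lit 3243)], [((nat_lit 0), (nat_lit 0), (nat_lit 0)), ((nat_lit 0), (nat_lit 0), (nat_lit 0)), ((nat_lit 1000), (nat_lit 870), (nat_lit 941))], ((nat_lit 83), (nat_lit 100), (nat_lit 83))⟩, (nat_lit 1332449), (nat_lit 290), (nat_lit 290), (nat_lit 0), (nat_lit 172209), [(nat_lit 2032000015), (nat_lit 6250000003), (nat_lit 9842000000)], [], [(nat_lit 32334705938), (nat_lit 29634409489), (nat_lit 42985682544), (nat_lit 44720157482), (nat_lit 24000339784), (nat_lit 25410120489), (nat_lit 43943931030), (nat_lit 40318516542)], (nat_lit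 1271251), (nat_lit 1271251), (nat_lit 936250), (nat_lit 3113751), (nat_lit 111251), (nat_lit 1416250), [(nat_lit 490000), (nat_lit 1427501), (nat_lit 1271251)], [(nat_lit 5), (nat_lit 55), (nat_lit 373), (nat_lit 150), (nat_lit 10)]⟩,
 ⟨⟨[(nat_lit 40), (nat_lit 100), (nat_lit 140)], [(nat_lit 0), (nat_lit 0), (nat_lit 3243)], [((nat_lit 0), (nat_lit 0), (nat_lit 0)), ((nat_lit 0), (nat_lit 0), (nat_lit 0)), ((nat_lit 1000), (nat_lit 870), (nat_lit 941))], ((nat_lit 83), (nat_lit 100), (nat_lit 83))⟩, (nat_lit 1584853), (nat_lit 189), (nat_lit 189), (nat_lit 0), (nat_lit 172209), [(nat_lit 2032000000), (nat_lit 6250000000), (nat_lit 9842000000)], [], [(nat_lit 24000961364), (nat_lit 25469807295), (nat_lit 33050464200), (nat_lit 33997778918), (nat_lit 32433550048), (nat_lit 33347104018), (nat_lit 37969783013), (nat_lit 38688453203)], (nat_lit 1271251), (nat_lit 1271251), (nat_lit 936250), (nat_lit 3113751), (nat_lit 1271251), (nat_lit 1271251),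 [(nat_lit 490000), (nat_lit 1427501), (nat_lit 1271251)], [(nat_lit 5), (nat_lit 55), (nat_lit 428), (nat_lit 200), (nat_lit 11)]⟩,
 ⟨⟨[(nat_lit 120), (nat_lit 160), (nat_lit 200)], [(nat_lit 0), (nat_lit 533), (nat_lit 3597)], [((nat_lit 0), (nat_lit 0), (nat_lit 0)), ((nat_lit 960), (nat_lit 1000), (nat_lit 200)), ((nat_lit 612), (nat_lit 1000), (nat_lit 732))], ((nat_lit 0), (nat_lit 0), (nat_lit 0))⟩, (nat_lit 526448), (nat_lit 300), (nat_lit 701), (nat_lit 35494671), (nat_lit 635285), [(nat_lit 3999936000), (nat_lit 5959744000), (nat_lit 8232800000)], [], [(nat_lit 32429937331), (nat_lit 31805444766), (nat_lit 28213783801), (nat_lit 27518401228), (nat_lit 32246484815), (nat_lit 31429597502), (nat_lit 27652309923), (nat_lit 26848337799)], (nat_lit 1271251), (nat_lit 1271251), (nat_lit 111251), (nat_lit 1416250), (nat_lit 1271251), (nat_lit 1271251), [(nat_lit 1695001), (nat_lit 1271251), (nat_lit 1271251)], [(nat_lit 29), (nat_lit 66), (nat_lit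 456), (nat_lit 225), (nat_lit 10)]⟩⟩)) (.dle (nat_lit 0)))))
noncomputable def c12_15 : Tr Lf :=
 (.spl (nat_lit 6) (nat_lit 100) (.spl (nat_lit 5) (nat_lit 160) (.spl (nat_lit 3) (nat_lit 280) (.leaf ⟨(nat_lit 0), (nat_lit 920), (nat_lit 0), (nat_lit 80), (nat_lit 12259), (nat_lit 8600), (nat_lit 8478), (nat_lit 1042), (nat_lit 864823), (nat_lit 0), (nat_lit 0), [], Pd.none, Pd.none, (nat_lit 0), (nat_lit 1), (nat_lit 0), (nat_lit 0), (nat_lit 5), (nat_lit 0), [⟨(nat_lit 0), (nat_lit 79), (nat_lit 77), (nat_lit 100), (nat_lit 259500706)⟩], [⟨(nat_lit 1), (nat_lit 85), (nat_lit 78), (nat_lit 100), (nat_lit 466911639)⟩], [⟨(nat_lit 0), (nat_lit 100), (nat_lit 81), (nat_lit 42), (nat_lit 89124281)⟩], [],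
 ⟨⟨[(nat_lit 40), (nat_lit 100), (nat_lit 140)], [(nat_lit 0), (nat_lit 0), (nat_lit 3243)], [((nat_lit 0), (nat_lit 0), (nat_lit 0)), ((nat_lit 0), (nat_lit 0), (nat_lit 0)), ((nat_lit 1000), (nat_lit 870), (nat_lit 941))], ((nat_lit 87), (nat_lit 100), (nat_lit 94))⟩, (nat_lit 1158282), (nat_lit 208), (nat_lit 208), (nat_lit 0), (nat_lit 270528), [(nat_lit 3197235259), (nat_lit 6250000068), (nat_lit 9842000000)], [], [(nat_lit 24340731942), (nat_lit 25763442567), (nat_lit 26828051874), (nat_lit 28202158924), (nat_lit 30750826324), (nat_lit 31998045781), (nat_lit 32680567150), (nat_lit 34103162200)], (nat_lit 1271251), (nat_lit 1271251), (nat_lit 936250), (nat_lit 2108751), (nat_lit 1271251), (nat_lit 1271251), [(nat_lit 490000), (nat_lit 1427501), (nat_lit 1271251)], [(nat_lit 5), (nat_lit 55), (nat_lit 401), (nat_lit 175), (nat_lit 11)]⟩,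
 ⟨⟨[(nat_lit 40), (nat_lit 100), (nat_lit 140)], [(nat_lit 0), (nat_lit 0), (nat_lit 3243)], [((nat_lit 0), (nat_lit 0), (nat_lit 0)), ((nat_lit 0), (nat_lit 0), (nat_lit 0)), ((nat_lit 1000), (nat_lit 870), (nat_lit 941))], ((nat_lit 87), (nat_lit 100), (nat_lit 94))⟩, (nat_lit 2313409), (nat_lit 333), (nat_lit 333), (nat_lit 0), (nat_lit 284701), [(nat_lit 2032000000), (nat_lit 6250000000), (nat_lit 9842000000)], [], [(nat_lit 25896769225), (nat_lit 26808056902), (nat_lit 31791583964), (nat_lit 33132343520), (nat_lit 20637595676), (nat_lit 21548393730), (nat_lit 29336729268), (nat_lit 27477224094)], (nat_lit 1271251), (nat_lit 1271251), (nat_lit 936250), (nat_lit 2108751), (nat_lit 0), (nat_lit 1100000), [(nat_lit 490000), (nat_lit 1427501), (nat_lit 1271251)], [(nat_lit 5), (nat_lit 55), (nat_lit 345), (nat_lit 125), (nat_lit 10)]⟩,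
 ⟨⟨[(nat_lit 140), (nat_lit 180), (nat_lit 200)], [(nat_lit 0), (nat_lit 0), (nat_lit 2835)], [((nat_lit 0), (nat_lit 0), (nat_lit 0)), ((nat_lit 0), (nat_lit 0), (nat_lit 0)), ((nat_lit 363), (nat_lit 1000), (nat_lit 798))], ((nat_lit 0), (nat_lit 0), (nat_lit 0))⟩, (nat_lit 22011), (nat_lit 300), (nat_lit 1501), (nat_lit 6248000), (nat_lit 2274824), [(nat_lit 787360000), (nat_lit 1124640000), (nat_lit 1312000000)], [], [(nat_lit 5521861352), (nat_lit 5294960494), (nat_lit 5392290318), (nat_lit 5159812229), (nat_lit 4464001052), (nat_lit 4432195396), (nat_lit 4316873583), (nat_lit 4082329197)], (nat_lit 780000), (nat_lit 1271251), (nat_lit 1271251), (nat_lit 1271251), (nat_lit 0), (nat_lit 1100000), [(nat_lit 1977501), (nat_lit 1271251), (nat_lit 1271251)], [(nat_lit 32), (nat_lit 67), (nat_lit 462), (nat_lit 175), (nat_lit 10)]⟩⟩) (.trZ (nat_lit 3) (nat_lit 4) (nat_lit 5) (nat_lit 100) (nat_lit 92) (nat_lit 40) (nat_lit 10) (.leaf ⟨(nat_lit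 0), (nat_lit 916), (nat_lit 0), (nat_lit 84), (nat_lit 528), (nat_lit 8266), (nat_lit 8631), (nat_lit 1061), (nat_lit 29494), (nat_lit 0), (nat_lit 0), [], Pd.none, Pd.none, (nat_lit 0), (nat_lit 1), (nat_lit 0), (nat_lit 0), (nat_lit 5), (nat_lit 0), [], [⟨(nat_lit 1), (nat_lit 85), (nat_lit 78), (nat_lit 100), (nat_lit 168123094)⟩], [], [⟨(nat_lit 0), (nat_lit 100), (nat_lit 77), (nat_lit 99), (nat_lit 236176321)⟩],
 ⟨⟨[(nat_lit 40), (nat_lit 100), (nat_lit 140)], [(nat_lit 0), (nat_lit 0), (nat_lit 3243)], [((nat_lit 0), (nat_lit 0), (nat_lit 0)), ((nat_lit 0), (nat_lit 0), (nat_lit 0)), ((nat_lit 1000), (nat_lit 870), (nat_lit 941))], ((nat_lit 87), (nat_lit 100), (nat_lit 94))⟩, (nat_lit 788214), (nat_lit 205), (nat_lit 205), (nat_lit 0), (nat_lit 270528), [(nat_lit 3241926346), (nat_lit 6327664134), (nat_lit 9842000000)], [], [(nat_lit 28432160336), (nat_lit 29603763425), (nat_lit 34835615974), (nat_lit 35980693613), (nat_lit 33081934975),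 (nat_lit 33995271511), (nat_lit 39090611999), (nat_lit 40025280163)], (nat_lit 1271251), (nat_lit 1271251), (nat_lit 1271251), (nat_lit 1271251), (nat_lit 1271251), (nat_lit 1271251), [(nat_lit 490000), (nat_lit 1427501), (nat_lit 1271251)], [(nat_lit 5), (nat_lit 55), (nat_lit 317), (nat_lit 100), (nat_lit 8)]⟩,
 ⟨⟨[(nat_lit 40), (nat_lit 100), (nat_lit 140)], [(nat_lit 0), (nat_lit 0), (nat_lit 3243)], [((nat_lit 0), (nat_lit 0), (nat_lit 0)), ((nat_lit 0), (nat_lit 0), (nat_lit 0)), ((nat_lit 1000), (nat_lit 870), (nat_lit 941))], ((nat_lit 87), (nat_lit 100), (nat_lit 94))⟩, (nat_lit 446749), (nat_lit 330), (nat_lit 330), (nat_lit 0), (nat_lit 284701), [(nat_lit 2032000000), (nat_lit 6250000000), (nat_lit 9842000000)], [], [(nat_lit 35400461571), (nat_lit 36275854973), (nat_lit 44404719052), (nat_lit 45286014473), (nat_lit 28760099925), (nat_lit 29334056257), (nat_lit 35887891517), (nat_lit 36395884161)], (nat_lit 1271251), (nat_lit 1271251),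 (nat_lit 1271251), (nat_lit 1271251), (nat_lit 54688), (nat_lit 1100000), [(nat_lit 490000), (nat_lit 1427501), (nat_lit 1271251)], [(nat_lit 5), (nat_lit 55), (nat_lit 249), (nat_lit 40), (nat_lit 6)]⟩,
 ⟨⟨[(nat_lit 140), (nat_lit 180), (nat_lit 200)], [(nat_lit 0), (nat_lit 0), (nat_lit 2835)], [((nat_lit 0), (nat_lit 0), (nat_lit 0)), ((nat_lit 0), (nat_lit 0), (nat_lit 0)), ((nat_lit 363), (nat_lit 1000), (nat_lit 798))], ((nat_lit 0), (nat_lit 0), (nat_lit 0))⟩, (nat_lit 23111), (nat_lit 300), (nat_lit 1494), (nat_lit 6560402), (nat_lit 2274824), [(nat_lit 826728000), (nat_lit 1180872000), (nat_lit 1377600000)], [], [(nat_lit 5752306323), (nat_lit 5519214752), (nat_lit 5621794282), (nat_lit 5371909994), (nat_lit 4815417342), (nat_lit 4635385082), (nat_lit 4617711600), (nat_lit 4380983001)], (nat_lit 780000), (nat_lit 1271251), (nat_lit 1271251), (nat_lit 1271251), (nat_lit 54688), (nat_lit 1100000), [(nat_lit 1977501), (nat_lit 1271251),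 (nat_lit 1271251)], [(nat_lit 32), (nat_lit 67), (nat_lit 460), (nat_lit 175), (nat_lit 10)]⟩⟩))) (.stt (nat_lit 2) (.spl (nat_lit 0) (nat_lit 330) (.spl (nat_lit 6) (nat_lit 88) (.leaf ⟨(nat_lit 0), (nat_lit 820), (nat_lit 0), (nat_lit 180), (nat_lit 0), (nat_lit 6726), (nat_lit 7270), (nat_lit 2020), (nat_lit 3923297336208), (nat_lit 0), (nat_lit 0), [], Pd.none, Pd.none, (nat_lit 0), (nat_lit 1), (nat_lit 0), (nat_lit 0), (nat_lit 5), (nat_lit 0), [], [⟨(nat_lit 1), (nat_lit 83), (nat_lit 81), (nat_lit 100), (nat_lit 346477365)⟩], [⟨(nat_lit 1), (nat_lit 83), (nat_lit 81), (nat_lit 100), (nat_lit 375297043)⟩], [],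
 ⟨⟨[(nat_lit 40), (nat_lit 100), (nat_lit 140)], [(nat_lit 0), (nat_lit 0), (nat_lit 3243)], [((nat_lit 0), (nat_lit 0), (nat_lit 0)), ((nat_lit 0), (nat_lit 0), (nat_lit 0)), ((nat_lit 1000), (nat_lit 870), (nat_lit 941))], ((nat_lit 85), (nat_lit 100), (nat_lit 88))⟩, (nat_lit 1737045), (nat_lit 186), (nat_lit 186), (nat_lit 0), (nat_lit 209445), [(nat_lit 2510787915), (nat_lit 6250000031), (nat_lit 9842000000)], [], [(nat_lit 23006719974), (nat_lit 23792573816), (nat_lit 32885228991), (nat_lit 33384565101), (nat_lit 29462615484), (nat_lit 30009436259), (nat_lit 37117330689), (nat_lit 37545507191)], (nat_lit 1271251), (nat_lit 1271251), (nat_lit 936250), (nat_lit 3113751), (nat_lit 1271251), (nat_lit 1271251), [(nat_lit 490000), (nat_lit 1427501), (nat_lit 1271251)], [(nat_lit 5), (nat_lit 55), (nat_lit 428), (nat_lit 200), (nat_lit 11)]⟩,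
 ⟨⟨[(nat_lit 40), (nat_lit 100), (nat_lit 140)], [(nat_lit 0), (nat_lit 0), (nat_lit 3243)], [((nat_lit 0), (nat_lit 0), (nat_lit 0)), ((nat_lit 0), (nat_lit 0), (nat_lit 0)), ((nat_lit 1000), (nat_lit 870), (nat_lit 941))], ((nat_lit 85), (nat_lit 100), (nat_lit 88))⟩, (nat_lit 0), (nat_lit 93), (nat_lit 93), (nat_lit 0), (nat_lit 0), [(nat_lit 2032000000), (nat_lit 6250000000), (nat_lit 9842000000)], [], [(nat_lit 19456620100), (nat_lit 20522388422), (nat_lit 33038607480), (nat_lit 33734044810), (nat_lit 29171444638), (nat_lit 29849877033), (nat_lit 37814385905), (nat_lit 38256394695)], (nat_lit 0), (nat_lit 0), (nat_lit 0), (nat_lit 0), (nat_lit 0), (nat_lit 0), [], [(nat_lit 5), (nat_lit 55), (nat_lit 428), (nat_lit 200), (nat_lit 12)]⟩,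
 ⟨⟨[(nat_lit 140), (nat_lit 180), (nat_lit 200)], [(nat_lit 0), (nat_lit 0), (nat_lit 2835)], [((nat_lit 0), (nat_lit 0), (nat_lit 0)), ((nat_lit 0), (nat_lit 0), (nat_lit 0)), ((nat_lit 363), (nat_lit 1000), (nat_lit 798))], ((nat_lit 0), (nat_lit 0), (nat_lit 0))⟩, (nat_lit 49524), (nat_lit 300), (nat_lit 1116), (nat_lit 14058000), (nat_lit 1667501), [(nat_lit 1771560000), (nat_lit 2530440000), (nat_lit 2952000000)], [], [(nat_lit 11506107800), (nat_lit 11055941050), (nat_lit 10841126200), (nat_lit 10379028350), (nat_lit 10577042130), (nat_lit 10114837564), (nat_lit 9918804444), (nat_lit 9445522039)], (nat_lit 780000), (nat_lit 1271251), (nat_lit 1271251), (nat_lit 1271251), (nat_lit 1100000), (nat_lit 2726876), [(nat_lit 1977501), (nat_lit 1271251), (nat_lit 1271251)], [(nat_lit 32), (nat_lit 67), (nat_lit 456), (nat_lit 225), (nat_lit 9)]⟩⟩) (.dle (nat_lit 0))) (.trZ (nat_lit 0) (nat_lit 1) (nat_lit 3) (nat_lit 82) (nat_lit 78) (nat_lit 100)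 (nat_lit 150) (.trX (nat_lit 4) (nat_lit 0) (nat_lit 2) (nat_lit 76) (nat_lit 73) (nat_lit 100) (nat_lit 340) (.leaf ⟨(nat_lit 0), (nat_lit 856), (nat_lit 0), (nat_lit 144), (nat_lit 0), (nat_lit 6967), (nat_lit 7434), (nat_lit 1628), (nat_lit 0), (nat_lit 0), (nat_lit 0), [], Pd.none, Pd.none, (nat_lit 0), (nat_lit 1), (nat_lit 0), (nat_lit 0), (nat_lit 5), (nat_lit 0), [], [⟨(nat_lit 1), (nat_lit 87), (nat_lit 76), (nat_lit 100), (nat_lit 334689548)⟩], [⟨(nat_lit 1), (nat_lit 83), (nat_lit 81), (nat_lit 100), (nat_lit 366606021)⟩], [],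
 ⟨⟨[(nat_lit 40), (nat_lit 100), (nat_lit 140)], [(nat_lit 0), (nat_lit 592), (nat_lit 3606)], [((nat_lit 0), (nat_lit 0), (nat_lit 0)), ((nat_lit 1000), (nat_lit 908), (nat_lit 154)), ((nat_lit 1000), (nat_lit 825), (nat_lit 971))], ((nat_lit 81), (nat_lit 100), (nat_lit 92))⟩, (nat_lit 1728396), (nat_lit 204), (nat_lit 204), (nat_lit 0), (nat_lit 266784), [(nat_lit 2673109605), (nat_lit 6250000010), (nat_lit 9842000000)], [], [(nat_lit 24254827011), (nat_lit 24874731367), (nat_lit 33681932442), (nat_lit 34313712244), (nat_lit 28591801782), (nat_lit 29157302874), (nat_lit 37397730710), (nat_lit 37846237964)], (nat_lit 1271251), (nat_lit 1271251), (nat_lit 1017188), (nat_lit 3134376), (nat_lit 1271251), (nat_lit 1271251), [(nat_lit 490000), (nat_lit 1427501), (nat_lit 1271251)], [(nat_lit 5), (nat_lit 55), (nat_lit 428), (nat_lit 200), (nat_lit 11)]⟩,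
 ⟨⟨[(nat_lit 40), (nat_lit 100), (nat_lit 140)], [(nat_lit 0), (nat_lit 0), (nat_lit 3243)], [((nat_lit 0), (nat_lit 0), (nat_lit 0)), ((nat_lit 0), (nat_lit 0), (nat_lit 0)), ((nat_lit 1000), (nat_lit 870), (nat_lit 941))], ((nat_lit 87), (nat_lit 100), (nat_lit 94))⟩, (nat_lit 0), (nat_lit 93), (nat_lit 93), (nat_lit 0), (nat_lit 0), [(nat_lit 2032000000), (nat_lit 6250000000), (nat_lit 9842000000)], [], [(nat_lit 19309354598), (nat_lit 20374887939), (nat_lit 33245366216), (nat_lit 33949688902), (nat_lit 28966707550), (nat_lit 29644253476), (nat_lit 38024527551), (nat_lit 38470706369)], (nat_lit 0), (nat_lit 0), (nat_lit 0), (nat_lit 0), (nat_lit 0), (nat_lit 0), [], [(nat_lit 5), (nat_lit 55), (nat_lit 428), (nat_lit 200), (nat_lit 11)]⟩,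
 ⟨⟨[(nat_lit 140), (nat_lit 180), (nat_lit 200)], [(nat_lit 0), (nat_lit 0), (nat_lit 2835)], [((nat_lit 0), (nat_lit 0), (nat_lit 0)), ((nat_lit 0), (nat_lit 0), (nat_lit 0)), ((nat_lit 363), (nat_lit 1000), (nat_lit 798))], ((nat_lit 0), (nat_lit 0), (nat_lit 0))⟩, (nat_lit 39619), (nat_lit 300), (nat_lit 1401), (nat_lit 11246401), (nat_lit 2274824), [(nat_lit 1417248000), (nat_lit 2024352000), (nat_lit 2361600000)], [], [(nat_lit 9165837112), (nat_lit 8800946366), (nat_lit 8620215624), (nat_lit 8248206246), (nat_lit 8386366165), (nat_lit 8013184686), (nat_lit 7892132557), (nat_lit 7511320304)], (nat_lit 780000), (nat_lit 1271251), (nat_lit 1271251), (nat_lit 1271251), (nat_lit 1100000), (nat_lit 2726876), [(nat_lit 1977501), (nat_lit 1271251), (nat_lit 1271251)], [(nat_lit 32), (nat_lit 67), (nat_lit 459), (nat_lit 225), (nat_lit 9)]⟩⟩)))) (.spl (nat_lit 0) (nat_lit 330) (.spl (nat_lit 6) (nat_lit 88) (.leaf ⟨(nat_lit 0), (nat_lit 499), (nat_lit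 0), (nat_lit 501), (nat_lit 0), (nat_lit 7409), (nat_lit 8502), (nat_lit 5650), (nat_lit 25432294616822), (nat_lit 0), (nat_lit 0), [], Pd.none, Pd.none, (nat_lit 0), (nat_lit 1), (nat_lit 0), (nat_lit 0), (nat_lit 5), (nat_lit 0), [⟨(nat_lit 0), (nat_lit 77), (nat_lit 77), (nat_lit 100), (nat_lit 7794517)⟩], [], [], [],
 ⟨⟨[(nat_lit 40), (nat_lit 100), (nat_lit 140)], [(nat_lit 0), (nat_lit 0), (nat_lit 3243)], [((nat_lit 0), (nat_lit 0), (nat_lit 0)), ((nat_lit 0), (nat_lit 0), (nat_lit 0)), ((nat_lit 1000), (nat_lit 870), (nat_lit 941))], ((nat_lit 85), (nat_lit 100), (nat_lit 88))⟩, (nat_lit 1745192), (nat_lit 158), (nat_lit 158), (nat_lit 0), (nat_lit 121668), [(nat_lit 3381010841), (nat_lit 6250000061), (nat_lit 9842000000)], [], [(nat_lit 22512493088), (nat_lit 23346400675), (nat_lit 33574329280), (nat_lit 34227625753), (nat_lit 29221630142), (nat_lit 29809107374), (nat_lit 37992493764), (nat_lit 38438036907)], (nat_lit 1271251), (nat_lit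 1271251), (nat_lit 936250), (nat_lit 3113751), (nat_lit 1271251), (nat_lit 1271251), [(nat_lit 490000), (nat_lit 1427501), (nat_lit 1271251)], [(nat_lit 5), (nat_lit 55), (nat_lit 428), (nat_lit 200), (nat_lit 11)]⟩,
 ⟨⟨[(nat_lit 40), (nat_lit 100), (nat_lit 140)], [(nat_lit 0), (nat_lit 0), (nat_lit 3243)], [((nat_lit 0), (nat_lit 0), (nat_lit 0)), ((nat_lit 0), (nat_lit 0), (nat_lit 0)), ((nat_lit 1000), (nat_lit 870), (nat_lit 941))], ((nat_lit 85), (nat_lit 100), (nat_lit 88))⟩, (nat_lit 1301270), (nat_lit 193), (nat_lit 193), (nat_lit 0), (nat_lit 209445), [(nat_lit 2032000000), (nat_lit 6250000000), (nat_lit 9842000000)], [], [(nat_lit 22171708688), (nat_lit 23155449103), (nat_lit 34591819448), (nat_lit 35354005306), (nat_lit 32850665611), (nat_lit 30943892265), (nat_lit 39393010953), (nat_lit 39866345807)], (nat_lit 1271251), (nat_lit 1271251), (nat_lit 1271251), (nat_lit 1271251), (nat_lit 1100000), (nat_lit 2726876), [(nat_lit 490000),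 (nat_lit 1427501), (nat_lit 1271251)], [(nat_lit 5), (nat_lit 55), (nat_lit 428), (nat_lit 200), (nat_lit 12)]⟩,
 ⟨⟨[(nat_lit 140), (nat_lit 180), (nat_lit 200)], [(nat_lit 0), (nat_lit 0), (nat_lit 2835)], [((nat_lit 0), (nat_lit 0), (nat_lit 0)), ((nat_lit 0), (nat_lit 0), (nat_lit 0)), ((nat_lit 363), (nat_lit 1000), (nat_lit 798))], ((nat_lit 0), (nat_lit 0), (nat_lit 0))⟩, (nat_lit 137841), (nat_lit 300), (nat_lit 817), (nat_lit 39128104), (nat_lit 1007318), [(nat_lit 4930842000), (nat_lit 7043058000), (nat_lit 8216400000)], [], [(nat_lit 31347203154), (nat_lit 30129431294), (nat_lit 29927535143), (nat_lit 28647399075), (nat_lit 29228209435), (nat_lit 27944482625), (nat_lit 27469813148), (nat_lit 26164630991)], (nat_lit 780000), (nat_lit 1271251), (nat_lit 1271251), (nat_lit 1271251), (nat_lit 1100000), (nat_lit 2726876), [(nat_lit 1977501), (nat_lit 1271251), (nat_lit 1271251)], [(nat_lit 32), (nat_lit 67), (nat_lit 456), (nat_lit 225),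 (nat_lit 9)]⟩⟩) (.dle (nat_lit 0))) (.trZ (nat_lit 0) (nat_lit 1) (nat_lit 3) (nat_lit 82) (nat_lit 78) (nat_lit 100) (nat_lit 150) (.trX (nat_lit 4) (nat_lit 0) (nat_lit 2) (nat_lit 76) (nat_lit 73) (nat_lit 100) (nat_lit 340) (.leaf ⟨(nat_lit 0), (nat_lit 764), (nat_lit 0), (nat_lit 236), (nat_lit 0), (nat_lit 6188), (nat_lit 8918), (nat_lit 2669), (nat_lit 0), (nat_lit 0), (nat_lit 0), [], Pd.none, Pd.none, (nat_lit 0), (nat_lit 1), (nat_lit 0), (nat_lit 0), (nat_lit 5), (nat_lit 0), [], [⟨(nat_lit 1), (nat_lit 87), (nat_lit 76), (nat_lit 100), (nat_lit 281567620)⟩], [⟨(nat_lit 1), (nat_lit 83), (nat_lit 81), (nat_lit 100), (nat_lit 253718530)⟩], [],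
 ⟨⟨[(nat_lit 40), (nat_lit 100), (nat_lit 140)], [(nat_lit 0), (nat_lit 592), (nat_lit 3606)], [((nat_lit 0), (nat_lit 0), (nat_lit 0)), ((nat_lit 1000), (nat_lit 908), (nat_lit 154)), ((nat_lit 1000), (nat_lit 825), (nat_lit 971))], ((nat_lit 81), (nat_lit 100), (nat_lit 92))⟩, (nat_lit 1855798), (nat_lit 170), (nat_lit 170), (nat_lit 0), (nat_lit 155858), [(nat_lit 2465013220), (nat_lit 6250003686), (nat_lit 9842000000)], [], [(nat_lit 23022455441), (nat_lit 23759984197), (nat_lit 32720178847), (nat_lit 33314036734), (nat_lit 28418775435), (nat_lit 28951786374), (nat_lit 36402185458), (nat_lit 36829571296)], (nat_lit 1271251), (nat_lit 1271251), (nat_lit 1017188), (nat_lit 3134376), (nat_lit 1271251), (nat_lit 1271251), [(nat_lit 490000), (nat_lit 1427501), (nat_lit 1271251)], [(nat_lit 5), (nat_lit 55), (nat_lit 428), (nat_lit 200), (nat_lit 11)]⟩,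
 ⟨⟨[(nat_lit 40), (nat_lit 100), (nat_lit 140)], [(nat_lit 0), (nat_lit 0), (nat_lit 3243)], [((nat_lit 0), (nat_lit 0), (nat_lit 0)), ((nat_lit 0), (nat_lit 0), (nat_lit 0)), ((nat_lit 1000), (nat_lit 870), (nat_lit 941))], ((nat_lit 87), (nat_lit 100), (nat_lit 94))⟩, (nat_lit 1131182), (nat_lit 216), (nat_lit 216), (nat_lit 0), (nat_lit 284650), [(nat_lit 2032000000), (nat_lit 6250000000), (nat_lit 9842000000)], [], [(nat_lit 23041917685), (nat_lit 23815284424), (nat_lit 35116280632), (nat_lit 35901004954), (nat_lit 30505433932), (nat_lit 31106435396), (nat_lit 39926053177), (nat_lit 40409965663)], (nat_lit 1271251), (nat_lit 1271251), (nat_lit 1271251), (nat_lit 1271251), (nat_lit 1100000), (nat_lit 2726876), [(nat_lit 490000), (nat_lit 1427501), (nat_lit 1271251)], [(nat_lit 5), (nat_lit 55), (nat_lit 428), (nat_lit 200), (nat_lit 11)]⟩,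
 ⟨⟨[(nat_lit 140), (nat_lit 180), (nat_lit 200)], [(nat_lit 0), (nat_lit 0), (nat_lit 2835)], [((nat_lit 0), (nat_lit 0), (nat_lit 0)), ((nat_lit 0), (nat_lit 0), (nat_lit 0)), ((nat_lit 363), (nat_lit 1000), (nat_lit 798))], ((nat_lit 0), (nat_lit 0), (nat_lit 0))⟩, (nat_lit 64931), (nat_lit 300), (nat_lit 985), (nat_lit 18431604), (nat_lit 1387989), [(nat_lit 2322712000), (nat_lit 3317688000), (nat_lit 3870400000)], [], [(nat_lit 14737208318), (nat_lit 14161438316), (nat_lit 14079060105), (nat_lit 13476857948), (nat_lit 13734451015), (nat_lit 13127559948), (nat_lit 12929931724), (nat_lit 12305914871)], (nat_lit 780000), (nat_lit 1271251), (nat_lit 1271251), (nat_lit 1271251), (nat_lit 1100000), (nat_lit 2726876), [(nat_lit 1977501), (nat_lit 1271251), (nat_lit 1271251)], [(nat_lit 32), (nat_lit 67), (nat_lit 456), (nat_lit 225), (nat_lit 9)]⟩⟩)))))) (.dle (nat_lit 0)))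
noncomputable def c12_16 : Tr Lf :=
 (.ord (.trZ (nat_lit 0) (nat_lit 1) (nat_lit 3) (nat_lit 77) (nat_lit 77) (nat_lit 100) (nat_lit 160) (.trX (nat_lit 4) (nat_lit 0) (nat_lit 2) (nat_lit 76) (nat_lit 73) (nat_lit 100) (nat_lit 340) (.trX (nat_lit 5) (nat_lit 1) (nat_lit 2) (nat_lit 76) (nat_lit 73) (nat_lit 100) (nat_lit 340) (.stt (nat_lit 1) (.spl (nat_lit 3) (nat_lit 280) (.leaf ⟨(nat_lit 0), (nat_lit 903), (nat_lit 0), (nat_lit 97), (nat_lit 4185), (nat_lit 7465), (nat_lit 8220), (nat_lit 1076), (nat_lit 6708338658260), (nat_lit 0), (nat_lit 0), [], Pd.none, Pd.none, (nat_lit 0), (nat_lit 1), (nat_lit 0), (nat_lit 0), (nat_lit 5), (nat_lit 0), [⟨(nat_lit 0), (nat_lit 74), (nat_lit 74), (nat_lit 100), (nat_lit 290331594)⟩], [⟨(nat_lit 1), (nat_lit 87), (nat_lit 76), (nat_lit 100), (nat_lit 443972295)⟩], [⟨(nat_lit 1), (nat_lit 87), (nat_lit 76), (nat_lit 100), (nat_lit 106127479)⟩], [],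
 ⟨⟨[(nat_lit 40), (nat_lit 100), (nat_lit 140)], [(nat_lit 0), (nat_lit 592), (nat_lit 3606)], [((nat_lit 0), (nat_lit 0), (nat_lit 0)), ((nat_lit 1000), (nat_lit 908), (nat_lit 154)), ((nat_lit 1000), (nat_lit 825), (nat_lit 971))], ((nat_lit 83), (nat_lit 100), (nat_lit 98))⟩, (nat_lit 0), (nat_lit 71), (nat_lit 71), (nat_lit 0), (nat_lit 0), [(nat_lit 2915587136), (nat_lit 6250000036), (nat_lit 9842000000)], [], [(nat_lit 21631501459), (nat_lit 22606213381), (nat_lit 25936708476), (nat_lit 26692775731), (nat_lit 28763557588), (nat_lit 29454404049), (nat_lit 31651060092), (nat_lit 32328142433)], (nat_lit 0), (nat_lit 0), (nat_lit 0), (nat_lit 0), (nat_lit 0), (nat_lit 0), [], [(nat_lit 5), (nat_lit 55), (nat_lit 401), (nat_lit 175), (nat_lit 10)]⟩,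
 ⟨⟨[(nat_lit 40), (nat_lit 100), (nat_lit 140)], [(nat_lit 0), (nat_lit 592), (nat_lit 3606)], [((nat_lit 0), (nat_lit 0), (nat_lit 0)), ((nat_lit 1000), (nat_lit 908), (nat_lit 154)), ((nat_lit 1000), (nat_lit 825), (nat_lit 971))], ((nat_lit 83), (nat_lit 100), (nat_lit 98))⟩, (nat_lit 1273545), (nat_lit 347), (nat_lit 347), (nat_lit 0), (nat_lit 336414), [(nat_lit 2032000000), (nat_lit 6250000000), (nat_lit 9842000000)], [], [(nat_lit 29296313880), (nat_lit 30408558710), (nat_lit 33655493340), (nat_lit 34509791710), (nat_lit 29546013850), (nat_lit 30155822265), (nat_lit 32314194470), (nat_lit 33019707710)], (nat_lit 1271251), (nat_lit 1271251), (nat_lit 1100000), (nat_lit 2127501), (nat_lit 0), (nat_lit 2401251), [(nat_lit 490000), (nat_lit 1427501), (nat_lit 1271251)], [(nat_lit 5), (nat_lit 55), (nat_lit 401), (nat_lit 175), (nat_lit 11)]⟩,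
 ⟨⟨[(nat_lit 140), (nat_lit 180), (nat_lit 200)], [(nat_lit 0), (nat_lit 0), (nat_lit 2835)], [((nat_lit 0), (nat_lit 0), (nat_lit 0)), ((nat_lit 0), (nat_lit 0), (nat_lit 0)), ((nat_lit 363), (nat_lit 1000), (nat_lit 798))], ((nat_lit 0), (nat_lit 0), (nat_lit 0))⟩, (nat_lit 26688), (nat_lit 300), (nat_lit 1778), (nat_lit 7575700), (nat_lit 2873139), [(nat_lit 954674000), (nat_lit 1363626000), (nat_lit 1590800000)], [], [(nat_lit 7224019456), (nat_lit 6975054846), (nat_lit 6889000679), (nat_lit 6635533428), (nat_lit 6126548468), (nat_lit 7006279401), (nat_lit 5428814807), (nat_lit 5181679979)], (nat_lit 780000), (nat_lit 1271251), (nat_lit 1271251), (nat_lit 1271251), (nat_lit 0), (nat_lit 2401251), [(nat_lit 1977501), (nat_lit 1271251), (nat_lit 1271251)], [(nat_lit 32), (nat_lit 67), (nat_lit 552), (nat_lit 225), (nat_lit 12)]⟩⟩) (.trZ (nat_lit 3) (nat_lit 4) (nat_lit 5) (nat_lit 100) (nat_lit 92) (nat_lit 40) (nat_lit 10) (.leaf ⟨(nat_lit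 0), (nat_lit 919), (nat_lit 0), (nat_lit 81), (nat_lit 1975), (nat_lit 6475), (nat_lit 7211), (nat_lit 899), (nat_lit 3727284865309), (nat_lit 0), (nat_lit 0), [], Pd.none, Pd.none, (nat_lit 0), (nat_lit 1), (nat_lit 0), (nat_lit 0), (nat_lit 5), (nat_lit 0), [], [⟨(nat_lit 1), (nat_lit 87), (nat_lit 76), (nat_lit 100), (nat_lit 311580444)⟩], [⟨(nat_lit 1), (nat_lit 87), (nat_lit 76), (nat_lit 100), (nat_lit 59178593)⟩], [],
 ⟨⟨[(nat_lit 40), (nat_lit 100), (nat_lit 140)], [(nat_lit 0), (nat_lit 592), (nat_lit 3606)], [((nat_lit 0), (nat_lit 0), (nat_lit 0)), ((nat_lit 1000), (nat_lit 908), (nat_lit 154)), ((nat_lit 1000), (nat_lit 825), (nat_lit 971))], ((nat_lit 83), (nat_lit 100), (nat_lit 98))⟩, (nat_lit 0), (nat_lit 90), (nat_lit 90), (nat_lit 0), (nat_lit 0), [(nat_lit 2703400624), (nat_lit 6250000003), (nat_lit 9842000000)], [], [(nat_lit 26649814353), (nat_lit 27345212428), (nat_lit 33432483922), (nat_lit 33923002841), (nat_lit 31594448178),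 (nat_lit 32095913566), (nat_lit 36768965288), (nat_lit 37204132700)], (nat_lit 0), (nat_lit 0), (nat_lit 0), (nat_lit 0), (nat_lit 0), (nat_lit 0), [], [(nat_lit 5), (nat_lit 55), (nat_lit 317), (nat_lit 100), (nat_lit 8)]⟩,
 ⟨⟨[(nat_lit 40), (nat_lit 100), (nat_lit 140)], [(nat_lit 0), (nat_lit 592), (nat_lit 3606)], [((nat_lit 0), (nat_lit 0), (nat_lit 0)), ((nat_lit 1000), (nat_lit 908), (nat_lit 154)), ((nat_lit 1000), (nat_lit 825), (nat_lit 971))], ((nat_lit 83), (nat_lit 100), (nat_lit 98))⟩, (nat_lit 718939), (nat_lit 346), (nat_lit 346), (nat_lit 0), (nat_lit 336414), [(nat_lit 2032000000), (nat_lit 6250000000), (nat_lit 9842000000)], [], [(nat_lit 35519541264), (nat_lit 36005238741), (nat_lit 41933445740), (nat_lit 42471475764), (nat_lit 33597663472), (nat_lit 34039782148), (nat_lit 37710259285), (nat_lit 38164680412)], (nat_lit 1271251), (nat_lit 1271251), (nat_lit 1271251), (nat_lit 1271251), (nat_lit 54688), (nat_lit 2416251), [(nat_lit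 490000), (nat_lit 1427501), (nat_lit 1271251)], [(nat_lit 5), (nat_lit 55), (nat_lit 317), (nat_lit 100), (nat_lit 8)]⟩,
 ⟨⟨[(nat_lit 140), (nat_lit 180), (nat_lit 200)], [(nat_lit 0), (nat_lit 0), (nat_lit 2835)], [((nat_lit 0), (nat_lit 0), (nat_lit 0)), ((nat_lit 0), (nat_lit 0), (nat_lit 0)), ((nat_lit 363), (nat_lit 1000), (nat_lit 798))], ((nat_lit 0), (nat_lit 0), (nat_lit 0))⟩, (nat_lit 22286), (nat_lit 300), (nat_lit 1772), (nat_lit 6326100), (nat_lit 2873139), [(nat_lit 797202000), (nat_lit 1138698000), (nat_lit 1328400000)], [], [(nat_lit 5974062465), (nat_lit 5766683909), (nat_lit 5686218342), (nat_lit 5475377050), (nat_lit 5175297725), (nat_lit 5910228723), (nat_lit 4530953368), (nat_lit 4322423590)], (nat_lit 780000), (nat_lit 1271251), (nat_lit 1271251), (nat_lit 1271251), (nat_lit 54688), (nat_lit 2416251), [(nat_lit 1977501), (nat_lit 1271251), (nat_lit 1271251)], [(nat_lit 32), (nat_lit 67), (nat_lit 551), (nat_lit 225), (nat_lit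 12)]⟩⟩))) (.spl (nat_lit 3) (nat_lit 280) (.spl (nat_lit 0) (nat_lit 335) (.ord (.spl (nat_lit 6) (nat_lit 100) (.leaf ⟨(nat_lit 0), (nat_lit 805), (nat_lit 0), (nat_lit 195), (nat_lit 193), (nat_lit 6692), (nat_lit 7658), (nat_lit 2213), (nat_lit 2621681942912), (nat_lit 0), (nat_lit 0), [], Pd.none, Pd.none, (nat_lit 0), (nat_lit 1), (nat_lit 0), (nat_lit 0), (nat_lit 5), (nat_lit 0), [⟨(nat_lit 0), (nat_lit 75), (nat_lit 75), (nat_lit 100), (nat_lit 288502175)⟩], [⟨(nat_lit 1), (nat_lit 86), (nat_lit 77), (nat_lit 100), (nat_lit 190229198)⟩], [], [],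
 ⟨⟨[(nat_lit 40), (nat_lit 100), (nat_lit 140)], [(nat_lit 0), (nat_lit 592), (nat_lit 3606)], [((nat_lit 0), (nat_lit 0), (nat_lit 0)), ((nat_lit 1000), (nat_lit 908), (nat_lit 154)), ((nat_lit 1000), (nat_lit 825), (nat_lit 971))], ((nat_lit 81), (nat_lit 100), (nat_lit 92))⟩, (nat_lit 1864371), (nat_lit 197), (nat_lit 197), (nat_lit 0), (nat_lit 273090), [(nat_lit 2588267229), (nat_lit 6250003067), (nat_lit 9842000000)], [], [(nat_lit 22599344381), (nat_lit 22979928017), (nat_lit 25790067290), (nat_lit 26088274044), (nat_lit 28054004856), (nat_lit 28327772491), (nat_lit 30982712503), (nat_lit 31301401005)], (nat_lit 1271251), (nat_lit 1271251), (nat_lit 1100000), (nat_lit 2127501), (nat_lit 1271251), (nat_lit 1271251), [(nat_lit 490000), (nat_lit 1427501), (nat_lit 1271251)], [(nat_lit 5), (nat_lit 55), (nat_lit 401), (nat_lit 175), (nat_lit 10)]⟩,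
 ⟨⟨[(nat_lit 40), (nat_lit 100), (nat_lit 140)], [(nat_lit 0), (nat_lit 592), (nat_lit 3606)], [((nat_lit 0), (nat_lit 0), (nat_lit 0)), ((nat_lit 1000), (nat_lit 908), (nat_lit 154)), ((nat_lit 1000), (nat_lit 825), (nat_lit 971))], ((nat_lit 81), (nat_lit 100), (nat_lit 92))⟩, (nat_lit 1518760), (nat_lit 283), (nat_lit 283), (nat_lit 0), (nat_lit 158057), [(nat_lit 2032000000), (nat_lit 6250000000), (nat_lit 9842000000)], [], [(nat_lit 28975499418), (nat_lit 28682874669), (nat_lit 32432748144), (nat_lit 32841401628), (nat_lit 28896613046), (nat_lit 29189838210), (nat_lit 31817930835), (nat_lit 32161428752)], (nat_lit 1271251), (nat_lit 1271251), (nat_lit 1100000), (nat_lit 2127501), (nat_lit 0), (nat_lit 2401251), [(nat_lit 490000), (nat_lit 1427501), (nat_lit 1271251)], [(nat_lit 5), (nat_lit 55), (nat_lit 401), (nat_lit 175), (nat_lit 11)]⟩,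
 ⟨⟨[(nat_lit 140), (nat_lit 180), (nat_lit 200)], [(nat_lit 0), (nat_lit 0), (nat_lit 2835)], [((nat_lit 0), (nat_lit 0), (nat_lit 0)), ((nat_lit 0), (nat_lit 0), (nat_lit 0)), ((nat_lit 363), (nat_lit 1000), (nat_lit 798))], ((nat_lit 0), (nat_lit 0), (nat_lit 0))⟩, (nat_lit 53651), (nat_lit 300), (nat_lit 1093), (nat_lit 15229500), (nat_lit 1367447), [(nat_lit 1919190000), (nat_lit 2741310000), (nat_lit 3198000000)], [], [(nat_lit 14291491380), (nat_lit 13775998935), (nat_lit 13689080484), (nat_lit 13164420013), (nat_lit 12369194363), (nat_lit 14169688760), (nat_lit 10667753154), (nat_lit 10151463853)], (nat_lit 780000), (nat_lit 1271251), (nat_lit 1271251), (nat_lit 1271251), (nat_lit 0), (nat_lit 2401251), [(nat_lit 1977501), (nat_lit 1271251), (nat_lit 1271251)], [(nat_lit 32), (nat_lit 67), (nat_lit 456), (nat_lit 225), (nat_lit 10)]⟩⟩) (.dle (nat_lit 0)))) (.trZ (nat_lit 0) (nat_lit 1) (nat_lit 3) (nat_lit 77) (nat_lit 74) (nat_lit 100)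 (nat_lit 170) (.leaf ⟨(nat_lit 0), (nat_lit 820), (nat_lit 0), (nat_lit 180), (nat_lit 0), (nat_lit 7882), (nat_lit 8062), (nat_lit 1975), (nat_lit 291328), (nat_lit 0), (nat_lit 0), [], Pd.none, Pd.none, (nat_lit 0), (nat_lit 1), (nat_lit 0), (nat_lit 0), (nat_lit 5), (nat_lit 0), [⟨(nat_lit 0), (nat_lit 74), (nat_lit 73), (nat_lit 100), (nat_lit 283557179)⟩], [⟨(nat_lit 1), (nat_lit 87), (nat_lit 75), (nat_lit 100), (nat_lit 245232677)⟩], [⟨(nat_lit 1), (nat_lit 87), (nat_lit 76), (nat_lit 100), (nat_lit 7060469)⟩], [],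
 ⟨⟨[(nat_lit 40), (nat_lit 100), (nat_lit 140)], [(nat_lit 0), (nat_lit 888), (nat_lit 3800)], [((nat_lit 0), (nat_lit 0), (nat_lit 0)), ((nat_lit 1000), (nat_lit 861), (nat_lit 231)), ((nat_lit 1000), (nat_lit 802), (nat_lit 990))], ((nat_lit 79), (nat_lit 100), (nat_lit 96))⟩, (nat_lit 1297986), (nat_lit 217), (nat_lit 217), (nat_lit 0), (nat_lit 335356), [(nat_lit 3020650500), (nat_lit 6250000032), (nat_lit 9842000000)], [], [(nat_lit 24174479253), (nat_lit 24587685437), (nat_lit 27132757002), (nat_lit 27459229379), (nat_lit 29703607360), (nat_lit 29996203562), (nat_lit 32360855476), (nat_lit 32710106301)], (nat_lit 1271251), (nat_lit 1271251), (nat_lit 1184688), (nat_lit 2136876), (nat_lit 1271251), (nat_lit 1271251), [(nat_lit 490000), (nat_lit 1427501), (nat_lit 1271251)], [(nat_lit 5), (nat_lit 55), (nat_lit 401), (nat_lit 175), (nat_lit 10)]⟩,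
 ⟨⟨[(nat_lit 40), (nat_lit 100), (nat_lit 140)], [(nat_lit 0), (nat_lit 592), (nat_lit 3606)], [((nat_lit 0), (nat_lit 0), (nat_lit 0)), ((nat_lit 1000), (nat_lit 908), (nat_lit 154)), ((nat_lit 1000), (nat_lit 825), (nat_lit 971))], ((nat_lit 83), (nat_lit 100), (nat_lit 98))⟩, (nat_lit 1302099), (nat_lit 297), (nat_lit 297), (nat_lit 0), (nat_lit 194367), [(nat_lit 2032000000), (nat_lit 6250000000), (nat_lit 9842000000)], [], [(nat_lit 29390594502), (nat_lit 30467676923), (nat_lit 33457362162), (nat_lit 34301260814), (nat_lit 29569579744), (nat_lit 30161693838), (nat_lit 32870615723), (nat_lit 32874982791)], (nat_lit 1271251), (nat_lit 1271251), (nat_lit 1184688), (nat_lit 2136876), (nat_lit 0), (nat_lit 2401251), [(nat_lit 490000), (nat_lit 1427501), (nat_lit 1271251)], [(nat_lit 5), (nat_lit 55), (nat_lit 401), (nat_lit 175), (nat_lit 11)]⟩,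
 ⟨⟨[(nat_lit 140), (nat_lit 180), (nat_lit 200)], [(nat_lit 0), (nat_lit 0), (nat_lit 2835)], [((nat_lit 0), (nat_lit 0), (nat_lit 0)), ((nat_lit 0), (nat_lit 0), (nat_lit 0)), ((nat_lit 363), (nat_lit 1000), (nat_lit 798))], ((nat_lit 0), (nat_lit 0), (nat_lit 0))⟩, (nat_lit 49524), (nat_lit 300), (nat_lit 1259), (nat_lit 14058000), (nat_lit 1736519), [(nat_lit 1771560000), (nat_lit 2530440000), (nat_lit 2952000000)], [], [(nat_lit 13544178320), (nat_lit 13088409888), (nat_lit 12879045255), (nat_lit 12412237495), (nat_lit 11345834305), (nat_lit 12964426244), (nat_lit 10205224750), (nat_lit 9757399807)], (nat_lit 780000), (nat_lit 1271251), (nat_lit 1271251), (nat_lit 1271251), (nat_lit 0), (nat_lit 2401251), [(nat_lit 1977501), (nat_lit 1271251), (nat_lit 1271251)], [(nat_lit 32), (nat_lit 67), (nat_lit 456), (nat_lit 225), (nat_lit 10)]⟩⟩))) (.trZ (nat_lit 3) (nat_lit 4) (nat_lit 5) (nat_lit 100) (nat_lit 92) (nat_lit 40) (nat_lit 10) (.leaf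 ⟨(nat_lit 0), (nat_lit 850), (nat_lit 0), (nat_lit 150), (nat_lit 0), (nat_lit 7037), (nat_lit 6918), (nat_lit 1658), (nat_lit 2810254209909), (nat_lit 0), (nat_lit 0), [], Pd.none, Pd.none, (nat_lit 0), (nat_lit 1), (nat_lit 0), (nat_lit 0), (nat_lit 5), (nat_lit 0), [], [⟨(nat_lit 1), (nat_lit 87), (nat_lit 76), (nat_lit 100), (nat_lit 178273034)⟩], [], [],
 ⟨⟨[(nat_lit 40), (nat_lit 100), (nat_lit 140)], [(nat_lit 0), (nat_lit 592), (nat_lit 3606)], [((nat_lit 0), (nat_lit 0), (nat_lit 0)), ((nat_lit 1000), (nat_lit 908), (nat_lit 154)), ((nat_lit 1000), (nat_lit 825), (nat_lit 971))], ((nat_lit 83), (nat_lit 100), (nat_lit 98))⟩, (nat_lit 973841), (nat_lit 225), (nat_lit 225), (nat_lit 0), (nat_lit 336414), [(nat_lit 2750899335), (nat_lit 6250000011), (nat_lit 9842000000)], [], [(nat_lit 29580774197), (nat_lit 30063312023), (nat_lit 34661018034), (nat_lit 35089725582), (nat_lit 32773293025), (nat_lit 33211739123), (nat_lit 37487189205), (nat_lit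 37937594404)], (nat_lit 1271251), (nat_lit 1271251), (nat_lit 1271251), (nat_lit 1271251), (nat_lit 1271251), (nat_lit 1271251), [(nat_lit 490000), (nat_lit 1427501), (nat_lit 1271251)], [(nat_lit 5), (nat_lit 55), (nat_lit 317), (nat_lit 100), (nat_lit 8)]⟩,
 ⟨⟨[(nat_lit 40), (nat_lit 100), (nat_lit 140)], [(nat_lit 0), (nat_lit 592), (nat_lit 3606)], [((nat_lit 0), (nat_lit 0), (nat_lit 0)), ((nat_lit 1000), (nat_lit 908), (nat_lit 154)), ((nat_lit 1000), (nat_lit 825), (nat_lit 971))], ((nat_lit 83), (nat_lit 100), (nat_lit 98))⟩, (nat_lit 928704), (nat_lit 303), (nat_lit 303), (nat_lit 0), (nat_lit 194381), [(nat_lit 2032000000), (nat_lit 6250000000), (nat_lit 9842000000)], [], [(nat_lit 34011070993), (nat_lit 34615355291), (nat_lit 40868363345), (nat_lit 41395631314), (nat_lit 33001607408), (nat_lit 33436830139), (nat_lit 37335109763), (nat_lit 37782288456)], (nat_lit 1271251), (nat_lit 1271251), (nat_lit 1271251), (nat_lit 1271251), (nat_lit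 54688), (nat_lit 2416251), [(nat_lit 490000), (nat_lit 1427501), (nat_lit 1271251)], [(nat_lit 5), (nat_lit 55), (nat_lit 317), (nat_lit 100), (nat_lit 8)]⟩,
 ⟨⟨[(nat_lit 140), (nat_lit 180), (nat_lit 200)], [(nat_lit 0), (nat_lit 0), (nat_lit 2835)], [((nat_lit 0), (nat_lit 0), (nat_lit 0)), ((nat_lit 0), (nat_lit 0), (nat_lit 0)), ((nat_lit 363), (nat_lit 1000), (nat_lit 798))], ((nat_lit 0), (nat_lit 0), (nat_lit 0))⟩, (nat_lit 41270), (nat_lit 300), (nat_lit 1252), (nat_lit 11715000), (nat_lit 1736519), [(nat_lit 1476300000), (nat_lit 2108700000), (nat_lit 2460000000)], [], [(nat_lit 11107129578), (nat_lit 10725045303), (nat_lit 10561782344), (nat_lit 10170605558), (nat_lit 9576247238), (nat_lit 10932866011), (nat_lit 8424224255), (nat_lit 8040053640)], (nat_lit 780000), (nat_lit 1271251), (nat_lit 1271251), (nat_lit 1271251), (nat_lit 54688), (nat_lit 2416251), [(nat_lit 1977501), (nat_lit 1271251), (nat_lit 1271251)], [(nat_lit 32), (nat_lit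 67), (nat_lit 456), (nat_lit 225), (nat_lit 10)]⟩⟩))))))))
noncomputable def c12_17 : Tr Lf :=
 (.trZ (nat_lit 1) (nat_lit 2) (nat_lit 5) (nat_lit 100) (nat_lit 80) (nat_lit 52) (nat_lit 20) (.spl (nat_lit 6) (nat_lit 80) (.spl (nat_lit 0) (nat_lit 330) (.ord (.spl (nat_lit 6) (nat_lit 64) (.leaf ⟨(nat_lit 0), (nat_lit 0), (nat_lit 0), (nat_lit 1000), (nat_lit 8327), (nat_lit 12855), (nat_lit 3512), (nat_lit 11679), (nat_lit 41487), (nat_lit 0), (nat_lit 0), [], Pd.none, Pd.none, (nat_lit 0), (nat_lit 1), (nat_lit 0), (nat_lit 0), (nat_lit 0), (nat_lit 0), [⟨(nat_lit 0), (nat_lit 77), (nat_lit 77), (nat_lit 100), (nat_lit 24999924)⟩], [], [⟨(nat_lit 0), (nat_lit 100), (nat_lit 80), (nat_lit 52), (nat_lit 108974244)⟩], [],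
 ⟨⟨[(nat_lit 40), (nat_lit 80), (nat_lit 120)], [(nat_lit 0), (nat_lit 0), (nat_lit 2151)], [((nat_lit 0), (nat_lit 0), (nat_lit 0)), ((nat_lit 0), (nat_lit 0), (nat_lit 0)), ((nat_lit 1000), (nat_lit 815), (nat_lit 753))], ((nat_lit 81), (nat_lit 100), (nat_lit 75))⟩, (nat_lit 0), (nat_lit 126), (nat_lit 126), (nat_lit 0), (nat_lit 46512), [(nat_lit 4679025295), (nat_lit 8159221787), (nat_lit 7968000000)], [], [(nat_lit 19662494138), (nat_lit 21016226241), (nat_lit 40032849600), (nat_lit 40951258714), (nat_lit 39812673479), (nat_lit 40887286255), (nat_lit 47596403863), (nat_lit 48083890618)], (nat_lit 1271251), (nat_lit 1271251), (nat_lit 936250), (nat_lit 3113751), (nat_lit 1271251), (nat_lit 1271251), [(nat_lit 490000), (nat_lit 1100000), (nat_lit 1785001)], [(nat_lit 4), (nat_lit 51), (nat_lit 428), (nat_lit 200), (nat_lit 13)]⟩,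
 ⟨⟨[(nat_lit 40), (nat_lit 80), (nat_lit 120)], [(nat_lit 0), (nat_lit 0), (nat_lit 2151)], [((nat_lit 0), (nat_lit 0), (nat_lit 0)), ((nat_lit 0), (nat_lit 0), (nat_lit 0)), ((nat_lit 1000), (nat_lit 815), (nat_lit 753))], ((nat_lit 81), (nat_lit 100), (nat_lit 75))⟩, (nat_lit 0), (nat_lit 190), (nat_lit 190), (nat_lit 0), (nat_lit 46512), [(nat_lit 2032000000), (nat_lit 4688000000), (nat_lit 7968000000)], [], [(nat_lit 32115178790), (nat_lit 32049526167), (nat_lit 40206873384), (nat_lit 40569532910), (nat_lit 38792708990), (nat_lit 39129301101), (nat_lit 48629532120), (nat_lit 47919283678)], (nat_lit 1271251), (nat_lit 1271251), (nat_lit 936250), (nat_lit 3113751), (nat_lit 111251), (nat_lit 2793751), [(nat_lit 490000), (nat_lit 1100000), (nat_lit 1785001)], [(nat_lit 4), (nat_lit 51), (nat_lit 428), (nat_lit 200), (nat_lit 14)]⟩,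
 ⟨⟨[(nat_lit 120), (nat_lit 160), (nat_lit 180)], [(nat_lit 0), (nat_lit 533), (nat_lit 2066)], [((nat_lit 0), (nat_lit 0), (nat_lit 0)), ((nat_lit 960), (nat_lit 1000), (nat_lit 200)), ((nat_lit 615), (nat_lit 1000), (nat_lit 729))], ((nat_lit 100), (nat_lit 61), (nat_lit 74))⟩, (nat_lit 478732), (nat_lit 300), (nat_lit 396), (nat_lit 72605225), (nat_lit 159285), [(nat_lit 7968000000), (nat_lit 11872000000), (nat_lit 14058000000)], [], [(nat_lit 49682186722), (nat_lit 49441316471), (nat_lit 55088106423), (nat_lit 53916023721), (nat_lit 68433402530), (nat_lit 53014304241), (nat_lit 45601532458), (nat_lit 44212415139)], (nat_lit 1271251), (nat_lit 1271251), (nat_lit 1271251), (nat_lit 1271251), (nat_lit 111251), (nat_lit 2793751), [(nat_lit 1695001), (nat_lit 1271251), (nat_lit 1271251)], [(nat_lit 28), (nat_lit 65), (nat_lit 538), (nat_lit 300), (nat_lit 12)]⟩⟩) (.dle (nat_lit 0)))) (.trZ (nat_lit 0) (nat_lit 1) (nat_lit 3) (nat_lit 82) (nat_lit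 78) (nat_lit 100) (nat_lit 150) (.trX (nat_lit 4) (nat_lit 0) (nat_lit 2) (nat_lit 78) (nat_lit 49) (nat_lit 100) (nat_lit 380) (.leaf ⟨(nat_lit 0), (nat_lit 512), (nat_lit 0), (nat_lit 488), (nat_lit 0), (nat_lit 6184), (nat_lit 6571), (nat_lit 4509), (nat_lit 1849574), (nat_lit 0), (nat_lit 0), [], Pd.none, Pd.none, (nat_lit 0), (nat_lit 1), (nat_lit 0), (nat_lit 0), (nat_lit 5), (nat_lit 0), [⟨(nat_lit 0), (nat_lit 77), (nat_lit 74), (nat_lit 100), (nat_lit 199258438)⟩], [], [⟨(nat_lit 0), (nat_lit 100), (nat_lit 80), (nat_lit 52), (nat_lit 56758240)⟩], [],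
 ⟨⟨[(nat_lit 40), (nat_lit 100), (nat_lit 140)], [(nat_lit 0), (nat_lit 592), (nat_lit 3606)], [((nat_lit 0), (nat_lit 0), (nat_lit 0)), ((nat_lit 1000), (nat_lit 908), (nat_lit 154)), ((nat_lit 1000), (nat_lit 825), (nat_lit 971))], ((nat_lit 78), (nat_lit 100), (nat_lit 82))⟩, (nat_lit 1726618), (nat_lit 181), (nat_lit 181), (nat_lit 0), (nat_lit 169292), [(nat_lit 2532211954), (nat_lit 6250000545), (nat_lit 9842000000)], [], [(nat_lit 23490897385), (nat_lit 24228150063), (nat_lit 32715240446), (nat_lit 33308903612), (nat_lit 31078120926), (nat_lit 31550282882), (nat_lit 38157712344), (nat_lit 38533460464)], (nat_lit 1271251), (nat_lit 1271251), (nat_lit 1017188), (nat_lit 3134376), (nat_lit 1271251), (nat_lit 1271251), [(nat_lit 490000), (nat_lit 1427501), (nat_lit 1271251)], [(nat_lit 5), (nat_lit 55), (nat_lit 428), (nat_lit 200), (nat_lit 11)]⟩,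
 ⟨⟨[(nat_lit 40), (nat_lit 100), (nat_lit 140)], [(nat_lit 0), (nat_lit 0), (nat_lit 3243)], [((nat_lit 0), (nat_lit 0), (nat_lit 0)), ((nat_lit 0), (nat_lit 0), (nat_lit 0)), ((nat_lit 1000), (nat_lit 870), (nat_lit 941))], ((nat_lit 83), (nat_lit 100), (nat_lit 83))⟩, (nat_lit 1090893), (nat_lit 290), (nat_lit 290), (nat_lit 0), (nat_lit 172209), [(nat_lit 2032000000), (nat_lit 6250000000), (nat_lit 9842000000)], [], [(nat_lit 34425897106), (nat_lit 31801491408), (nat_lit 39404853217), (nat_lit 40230694028), (nat_lit 34779468068), (nat_lit 35529504763), (nat_lit 49942784286), (nat_lit 47254096182)], (nat_lit 1271251), (nat_lit 1271251), (nat_lit 1017188), (nat_lit 3134376), (nat_lit 111251), (nat_lit 2793751), [(nat_lit 490000), (nat_lit 1427501), (nat_lit 1271251)], [(nat_lit 5), (nat_lit 55), (nat_lit 428), (nat_lit 200), (nat_lit 12)]⟩,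
 ⟨⟨[(nat_lit 120), (nat_lit 160), (nat_lit 200)], [(nat_lit 0), (nat_lit 533), (nat_lit 3597)], [((nat_lit 0), (nat_lit 0), (nat_lit 0)), ((nat_lit 960), (nat_lit 1000), (nat_lit 200)), ((nat_lit 612), (nat_lit 1000), (nat_lit 732))], ((nat_lit 0), (nat_lit 0), (nat_lit 0))⟩, (nat_lit 259757), (nat_lit 300), (nat_lit 701), (nat_lit 35344285), (nat_lit 635285), [(nat_lit 3888384000), (nat_lit 5793536000), (nat_lit 8003200000)], [], [(nat_lit 32794271134), (nat_lit 32188564210), (nat_lit 32307642084), (nat_lit 31593395955), (nat_lit 31406755170), (nat_lit 27586822732), (nat_lit 27240603399), (nat_lit 26426886626)], (nat_lit 1271251), (nat_lit 1271251), (nat_lit 1271251), (nat_lit 1271251), (nat_lit 111251), (nat_lit 2793751), [(nat_lit 1695001), (nat_lit 1271251), (nat_lit 1271251)], [(nat_lit 29), (nat_lit 66), (nat_lit 538), (nat_lit 300), (nat_lit 11)]⟩⟩)))) (.dle (nat_lit 0))))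
noncomputable def c12_18 : Tr Lf :=
 (.trZ (nat_lit 0) (nat_lit 2) (nat_lit 4) (nat_lit 100) (nat_lit 82) (nat_lit 76) (nat_lit 60) (.trZ (nat_lit 1) (nat_lit 2) (nat_lit 5) (nat_lit 100) (nat_lit 82) (nat_lit 76) (nat_lit 60) (.spl (nat_lit 6) (nat_lit 104) (.spl (nat_lit 6) (nat_lit 52) (.spl (nat_lit 5) (nat_lit 120) (.spl (nat_lit 0) (nat_lit 330) (.ord (.leaf ⟨(nat_lit 0), (nat_lit 289), (nat_lit 0), (nat_lit 711), (nat_lit 0), (nat_lit 9301), (nat_lit 8192), (nat_lit 7665), (nat_lit 20026857441041), (nat_lit 173), (nat_lit 0), [], Pd.none, Pd.none, (nat_lit 0), (nat_lit 1), (nat_lit 0), (nat_lit 0), (nat_lit 6), (nat_lit 0), [], [], [⟨(nat_lit 0), (nat_lit 100), (nat_lit 82), (nat_lit 76), (nat_lit 793961001)⟩], [],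
 ⟨⟨[(nat_lit 40), (nat_lit 80), (nat_lit 120)], [(nat_lit 0), (nat_lit 0), (nat_lit 2151)], [((nat_lit 0), (nat_lit 0), (nat_lit 0)), ((nat_lit 0), (nat_lit 0), (nat_lit 0)), ((nat_lit 1000), (nat_lit 815), (nat_lit 753))], ((nat_lit 80), (nat_lit 100), (nat_lit 68))⟩, (nat_lit 6289110), (nat_lit 300), (nat_lit 577), (nat_lit 58600001), (nat_lit 1067094), [(nat_lit 2032000001), (nat_lit 4688000001), (nat_lit 7968000000)], [], [(nat_lit 31170398759), (nat_lit 30447585474), (nat_lit 40663326759), (nat_lit 41567373476), (nat_lit 36312493818), (nat_lit 37140574453), (nat_lit 47500799227), (nat_lit 45581286750)], (nat_lit 1271251), (nat_lit 1271251), (nat_lit 936250), (nat_lit 3113751), (nat_lit 356250), (nat_lit 2948751), [(nat_lit 490000), (nat_lit 1100000), (nat_lit 1785001)], [(nat_lit 4), (nat_lit 51), (nat_lit 428), (nat_lit 200), (nat_lit 14)]⟩,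
 ⟨⟨[(nat_lit 40), (nat_lit 80), (nat_lit 120)], [(nat_lit 0), (nat_lit 0), (nat_lit 2151)], [((nat_lit 0), (nat_lit 0), (nat_lit 0)), ((nat_lit 0), (nat_lit 0), (nat_lit 0)), ((nat_lit 1000), (nat_lit 815), (nat_lit 753))], ((nat_lit 80), (nat_lit 100), (nat_lit 68))⟩, (nat_lit 4109196), (nat_lit 401), (nat_lit 401), (nat_lit 0), (nat_lit 686527), [(nat_lit 2032000000), (nat_lit 4688000000), (nat_lit 7968000000)], [], [(nat_lit 19015234080), (nat_lit 20121923082), (nat_lit 38444152328), (nat_lit 39278493820), (nat_lit 18072138132), (nat_lit 18820614376), (nat_lit 35364443504), (nat_lit 36150569736)], (nat_lit 1271251), (nat_lit 1271251), (nat_lit 936250), (nat_lit 3113751), (nat_lit 356250), (nat_lit 780000), [(nat_lit 490000), (nat_lit 1100000), (nat_lit 1785001)], [(nat_lit 4), (nat_lit 51), (nat_lit 373), (nat_lit 150), (nat_lit 12)]⟩,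
 ⟨⟨[(nat_lit 80), (nat_lit 120), (nat_lit 160)], [(nat_lit 0), (nat_lit 0), (nat_lit 2132)], [((nat_lit 0), (nat_lit 0), (nat_lit 0)), ((nat_lit 0), (nat_lit 0), (nat_lit 0)), ((nat_lit 858), (nat_lit 1000), (nat_lit 713))], ((nat_lit 100), (nat_lit 88), (nat_lit 69))⟩, (nat_lit 954026), (nat_lit 300), (nat_lit 715), (nat_lit 47210400), (nat_lit 925800), [(nat_lit 3333168000), (nat_lit 5665248000), (nat_lit 8440992000)], [], [(nat_lit 33614425878), (nat_lit 34131075324), (nat_lit 41305882257), (nat_lit 31919314868), (nat_lit 31497722304), (nat_lit 31914020774), (nat_lit 45458288742), (nat_lit 30737048791)], (nat_lit 1271251), (nat_lit 1271251), (nat_lit 356250), (nat_lit 2948751), (nat_lit 356250), (nat_lit 780000), [(nat_lit 1100000), (nat_lit 1785001), (nat_lit 1271251)], [(nat_lit 18), (nat_lit 59), (nat_lit 456), (nat_lit 225), (nat_lit 12)]⟩⟩)) (.trZ (nat_lit 0) (nat_lit 1) (nat_lit 3) (nat_lit 82) (nat_lit 78) (nat_lit 100) (nat_lit 150)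 (.trZ (nat_lit 0) (nat_lit 2) (nat_lit 4) (nat_lit 100) (nat_lit 78) (nat_lit 81) (nat_lit 70) (.leaf ⟨(nat_lit 0), (nat_lit 357), (nat_lit 0), (nat_lit 643), (nat_lit 0), (nat_lit 8385), (nat_lit 7903), (nat_lit 6511), (nat_lit 11681813580968), (nat_lit 4884), (nat_lit 0), [], Pd.none, Pd.none, (nat_lit 0), (nat_lit 1), (nat_lit 0), (nat_lit 0), (nat_lit 6), (nat_lit 0), [], [], [⟨(nat_lit 0), (nat_lit 100), (nat_lit 82), (nat_lit 76), (nat_lit 689870532)⟩], [],
 ⟨⟨[(nat_lit 40), (nat_lit 80), (nat_lit 120)], [(nat_lit 0), (nat_lit 395), (nat_lit 2466)], [((nat_lit 0), (nat_lit 0), (nat_lit 0)), ((nat_lit 1000), (nat_lit 908), (nat_lit 154)), ((nat_lit 1000), (nat_lit 773), (nat_lit 792))], ((nat_lit 76), (nat_lit 100), (nat_lit 67))⟩, (nat_lit 7747508), (nat_lit 300), (nat_lit 616), (nat_lit 50800001), (nat_lit 1158003), [(nat_lit 2032000001), (nat_lit 4688000011), (nat_lit 7968000000)], [], [(nat_lit 30114163365), (nat_lit 30414658193), (nat_lit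 38689274498), (nat_lit 39531948889), (nat_lit 35512856441), (nat_lit 36279082047), (nat_lit 43961781448), (nat_lit 42618583605)], (nat_lit 1271251), (nat_lit 1271251), (nat_lit 1017188), (nat_lit 3134376), (nat_lit 422188), (nat_lit 2969376), [(nat_lit 490000), (nat_lit 1100000), (nat_lit 1785001)], [(nat_lit 4), (nat_lit 51), (nat_lit 428), (nat_lit 200), (nat_lit 13)]⟩,
 ⟨⟨[(nat_lit 40), (nat_lit 80), (nat_lit 120)], [(nat_lit 0), (nat_lit 0), (nat_lit 2151)], [((nat_lit 0), (nat_lit 0), (nat_lit 0)), ((nat_lit 0), (nat_lit 0), (nat_lit 0)), ((nat_lit 1000), (nat_lit 815), (nat_lit 753))], ((nat_lit 80), (nat_lit 100), (nat_lit 68))⟩, (nat_lit 2974780), (nat_lit 427), (nat_lit 427), (nat_lit 0), (nat_lit 760367), [(nat_lit 2032000000), (nat_lit 4688000000), (nat_lit 7968000000)], [], [(nat_lit 19930649739), (nat_lit 21485536193), (nat_lit 37865846277), (nat_lit 39498199577), (nat_lit 19048514018), (nat_lit 20490324404), (nat_lit 36412446334),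 (nat_lit 36470093475)], (nat_lit 1271251), (nat_lit 1271251), (nat_lit 1017188), (nat_lit 3134376), (nat_lit 356250), (nat_lit 780000), [(nat_lit 490000), (nat_lit 1100000), (nat_lit 1785001)], [(nat_lit 4), (nat_lit 51), (nat_lit 373), (nat_lit 150), (nat_lit 12)]⟩,
 ⟨⟨[(nat_lit 80), (nat_lit 120), (nat_lit 160)], [(nat_lit 0), (nat_lit 0), (nat_lit 2132)], [((nat_lit 0), (nat_lit 0), (nat_lit 0)), ((nat_lit 0), (nat_lit 0), (nat_lit 0)), ((nat_lit 858), (nat_lit 1000), (nat_lit 713))], ((nat_lit 100), (nat_lit 88), (nat_lit 69))⟩, (nat_lit 376390), (nat_lit 300), (nat_lit 794), (nat_lit 42695204), (nat_lit 1087002), [(nat_lit 3014384000), (nat_lit 5123424000), (nat_lit 7633696000)], [], [(nat_lit 32009798278), (nat_lit 31975929861), (nat_lit 37616591855), (nat_lit 29475883518), (nat_lit 30278751506), (nat_lit 30179347880), (nat_lit 41210014954), (nat_lit 27345214837)], (nat_lit 1271251), (nat_lit 1271251), (nat_lit 422188), (nat_lit 2969376),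 (nat_lit 356250), (nat_lit 780000), [(nat_lit 1100000), (nat_lit 1785001), (nat_lit 1271251)], [(nat_lit 18), (nat_lit 59), (nat_lit 456), (nat_lit 225), (nat_lit 12)]⟩⟩)))) (.stt (nat_lit 1) (.leaf ⟨(nat_lit 0), (nat_lit 424), (nat_lit 0), (nat_lit 576), (nat_lit 0), (nat_lit 4561), (nat_lit 8069), (nat_lit 5275), (nat_lit 1340323), (nat_lit 24300), (nat_lit 0), [], Pd.none, Pd.none, (nat_lit 0), (nat_lit 1), (nat_lit 0), (nat_lit 0), (nat_lit 6), (nat_lit 0), [], [], [⟨(nat_lit 0), (nat_lit 97), (nat_lit 82), (nat_lit 100), (nat_lit 40961283)⟩], [],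
 ⟨⟨[(nat_lit 40), (nat_lit 80), (nat_lit 120)], [(nat_lit 0), (nat_lit 0), (nat_lit 2151)], [((nat_lit 0), (nat_lit 0), (nat_lit 0)), ((nat_lit 0), (nat_lit 0), (nat_lit 0)), ((nat_lit 1000), (nat_lit 815), (nat_lit 753))], ((nat_lit 80), (nat_lit 100), (nat_lit 68))⟩, (nat_lit 5188638), (nat_lit 155), (nat_lit 155), (nat_lit 0), (nat_lit 0), [(nat_lit 2032000034), (nat_lit 4688000032), (nat_lit 7968000000)], [], [(nat_lit 19224387931), (nat_lit 20928007265), (nat_lit 32065382860), (nat_lit 33127568120), (nat_lit 31037958318), (nat_lit 32018512875), (nat_lit 36943480524), (nat_lit 37516932432)], (nat_lit 0), (nat_lit 0), (nat_lit 0), (nat_lit 0), (nat_lit 0), (nat_lit 0), [], [(nat_lit 4), (nat_lit 51), (nat_lit 428), (nat_lit 200), (nat_lit 14)]⟩,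
 ⟨⟨[(nat_lit 40), (nat_lit 80), (nat_lit 120)], [(nat_lit 0), (nat_lit 0), (nat_lit 2151)], [((nat_lit 0), (nat_lit 0), (nat_lit 0)), ((nat_lit 0), (nat_lit 0), (nat_lit 0)), ((nat_lit 1000), (nat_lit 815), (nat_lit 753))], ((nat_lit 80), (nat_lit 100), (nat_lit 68))⟩, (nat_lit 4026930), (nat_lit 610), (nat_lit 610), (nat_lit 0), (nat_lit 1188237), [(nat_lit 2032000000), (nat_lit 4688000000), (nat_lit 7968000000)], [], [(nat_lit 21237544797), (nat_lit 22245719360), (nat_lit 35180175728), (nat_lit 36738107364), (nat_lit 34613050842), (nat_lit 36130743011), (nat_lit 41390731096), (nat_lit 42154767337)], (nat_lit 1271251), (nat_lit 1271251), (nat_lit 1271251), (nat_lit 1271251), (nat_lit 780000), (nat_lit 3072501), [(nat_lit 490000), (nat_lit 1100000), (nat_lit 1785001)], [(nat_lit 4), (nat_lit 51), (nat_lit 428), (nat_lit 200), (nat_lit 13)]⟩,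
 ⟨⟨[(nat_lit 80), (nat_lit 120), (nat_lit 160)], [(nat_lit 0), (nat_lit 0), (nat_lit 2132)], [((nat_lit 0), (nat_lit 0), (nat_lit 0)), ((nat_lit 0), (nat_lit 0), (nat_lit 0)), ((nat_lit 858), (nat_lit 1000), (nat_lit 713))], ((nat_lit 100), (nat_lit 88), (nat_lit 69))⟩, (nat_lit 1984654), (nat_lit 300), (nat_lit 1064), (nat_lit 38246400), (nat_lit 1760244), [(nat_lit 2700288000), (nat_lit 4589568000), (nat_lit 6838272000)], [], [(nat_lit 31501829712), (nat_lit 31112749561), (nat_lit 37540084556), (nat_lit 27122468548), (nat_lit 29259533450), (nat_lit 28524912933), (nat_lit 24872862964), (nat_lit 25201815407)], (nat_lit 1271251), (nat_lit 1271251), (nat_lit 356250), (nat_lit 2948751), (nat_lit 1271251), (nat_lit 1271251), [(nat_lit 1100000), (nat_lit 1785001), (nat_lit 1271251)], [(nat_lit 18), (nat_lit 59), (nat_lit 538), (nat_lit 300), (nat_lit 14)]⟩⟩) (.leaf ⟨(nat_lit 21), (nat_lit 145), (nat_lit 0), (nat_lit 834), (nat_lit 0), (nat_lit 8960),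 (nat_lit 7985), (nat_lit 7778), (nat_lit 33029960334330), (nat_lit 264408), (nat_lit 84000), [((nat_lit 340), [((nat_lit 37), (nat_lit 5), (nat_lit 21))])], ⟨(nat_lit 8), false, true, false, (nat_lit 303), (nat_lit 3872), (nat_lit 4473), [(nat_lit 1527314), (nat_lit 1533860), (nat_lit 1548863), (nat_lit 1555635), (nat_lit 1969223), (nat_lit 1953301), (nat_lit 1990771), (nat_lit 1975076)]⟩, ⟨(nat_lit 6), false, false, false, (nat_lit 259), (nat_lit 3872), (nat_lit 4473), [(nat_lit 1305146), (nat_lit 1317698), (nat_lit 1412891), (nat_lit 1426576), (nat_lit 1883018), (nat_lit 1866188), (nat_lit 1990771), (nat_lit 1975076)]⟩, (nat_lit 5681108), (nat_lit 32200043), (nat_lit 19624366), (nat_lit 15175591), (nat_lit 6), (nat_lit 0), [], [⟨(nat_lit 0), (nat_lit 97), (nat_lit 82), (nat_lit 100), (nat_lit 147860184)⟩], [⟨(nat_lit 0), (nat_lit 97), (nat_lit 82), (nat_lit 100), (nat_lit 29686085)⟩], [],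
 ⟨⟨[(nat_lit 40), (nat_lit 80), (nat_lit 120)], [(nat_lit 0), (nat_lit 0), (nat_lit 2151)], [((nat_lit 0), (nat_lit 0), (nat_lit 0)), ((nat_lit 0), (nat_lit 0), (nat_lit 0)), ((nat_lit 1000), (nat_lit 815), (nat_lit 753))], ((nat_lit 80), (nat_lit 100), (nat_lit 68))⟩, (nat_lit 6623325), (nat_lit 300), (nat_lit 638), (nat_lit 56079056), (nat_lit 1188237), [(nat_lit 2019727878), (nat_lit 4486324429), (nat_lit 7335849600)], [(nat_lit 0), (nat_lit 0), (nat_lit 0)], [(nat_lit 31112790400), (nat_lit 31743939848), (nat_lit 39980965640), (nat_lit 41746192560), (nat_lit 35842112280), (nat_lit 37459947280), (nat_lit 47164087225), (nat_lit 43465811385)], (nat_lit 1271251), (nat_lit 1271251), (nat_lit 936250), (nat_lit 3113751), (nat_lit 356250), (nat_lit 2948751), [(nat_lit 490000), (nat_lit 1100000), (nat_lit 1785001)], [(nat_lit 4), (nat_lit 51), (nat_lit 428), (nat_lit 200), (nat_lit 14)]⟩,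
 ⟨⟨[(nat_lit 40), (nat_lit 80), (nat_lit 120)], [(nat_lit 0), (nat_lit 0), (nat_lit 2151)], [((nat_lit 0), (nat_lit 0), (nat_lit 0)), ((nat_lit 0), (nat_lit 0), (nat_lit 0)), ((nat_lit 1000), (nat_lit 815), (nat_lit 753))], ((nat_lit 80), (nat_lit 100), (nat_lit 68))⟩, (nat_lit 3047915), (nat_lit 403), (nat_lit 403), (nat_lit 0), (nat_lit 760480), [(nat_lit 1989328000), (nat_lit 4589552000), (nat_lit 7800672000)], [], [(nat_lit 17811804806), (nat_lit 19273306143), (nat_lit 34569404210), (nat_lit 36104568066), (nat_lit 34004046663), (nat_lit 35499471230), (nat_lit 40644041152), (nat_lit 41394936958)], (nat_lit 1271251), (nat_lit 1271251), (nat_lit 1271251), (nat_lit 1271251), (nat_lit 780000), (nat_lit 3072501), [(nat_lit 490000), (nat_lit 1100000), (nat_lit 1785001)], [(nat_lit 4), (nat_lit 51), (nat_lit 428), (nat_lit 200), (nat_lit 13)]⟩,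
 ⟨⟨[(nat_lit 80), (nat_lit 120), (nat_lit 160)], [(nat_lit 0), (nat_lit 0), (nat_lit 2132)], [((nat_lit 0), (nat_lit 0), (nat_lit 0)), ((nat_lit 0), (nat_lit 0), (nat_lit 0)), ((nat_lit 858), (nat_lit 1000), (nat_lit 713))], ((nat_lit 100), (nat_lit 88), (nat_lit 69))⟩, (nat_lit 1159954), (nat_lit 300), (nat_lit 746), (nat_lit 55377600), (nat_lit 1090248), [(nat_lit 3909792000), (nat_lit 6645312000), (nat_lit 9901248000)], [], [(nat_lit 40947434794), (nat_lit 41705759513), (nat_lit 54675464200), (nat_lit 37666332265), (nat_lit 40236332698), (nat_lit 39935735254), (nat_lit 35148002824), (nat_lit 36695968432)], (nat_lit 1271251), (nat_lit 1271251), (nat_lit 356250), (nat_lit 2948751), (nat_lit 1271251), (nat_lit 1271251), [(nat_lit 1100000), (nat_lit 1785001), (nat_lit 1271251)], [(nat_lit 18), (nat_lit 59), (nat_lit 538), (nat_lit 300), (nat_lit 14)]⟩⟩))) (.spl (nat_lit 5) (nat_lit 120) (.leaf ⟨(nat_lit 0), (nat_lit 0), (nat_lit 0), (nat_lit 1000),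 (nat_lit 10733), (nat_lit 14460), (nat_lit 8287), (nat_lit 10960), (nat_lit 8143926), (nat_lit 77357), (nat_lit 0), [], Pd.none, Pd.none, (nat_lit 0), (nat_lit 1), (nat_lit 0), (nat_lit 0), (nat_lit 0), (nat_lit 0), [], [], [⟨(nat_lit 0), (nat_lit 100), (nat_lit 82), (nat_lit 76), (nat_lit 1316177464)⟩], [],
 ⟨⟨[(nat_lit 40), (nat_lit 100), (nat_lit 160)], [(nat_lit 0), (nat_lit 0), (nat_lit 4607)], [((nat_lit 0), (nat_lit 0), (nat_lit 0)), ((nat_lit 0), (nat_lit 0), (nat_lit 0)), ((nat_lit 846), (nat_lit 837), (nat_lit 1000))], ((nat_lit 88), (nat_lit 100), (nat_lit 96))⟩, (nat_lit 406338), (nat_lit 300), (nat_lit 404), (nat_lit 62500006), (nat_lit 458819), [(nat_lit 2032000074), (nat_lit 6250000025), (nat_lit 11872000000)], [], [(nat_lit 35105108500), (nat_lit 36720135164), (nat_lit 50986790140), (nat_lit 53443412435), (nat_lit 43428911280), (nat_lit 45664911905), (nat_lit 58980095453), (nat_lit 53080964933)], (nat_lit 1271251), (nat_lit 1271251),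 (nat_lit 936250), (nat_lit 3113751), (nat_lit 356250), (nat_lit 2948751), [(nat_lit 490000), (nat_lit 1427501), (nat_lit 1271251)], [(nat_lit 6), (nat_lit 56), (nat_lit 428), (nat_lit 200), (nat_lit 11)]⟩,
 ⟨⟨[(nat_lit 40), (nat_lit 100), (nat_lit 160)], [(nat_lit 0), (nat_lit 0), (nat_lit 4607)], [((nat_lit 0), (nat_lit 0), (nat_lit 0)), ((nat_lit 0), (nat_lit 0), (nat_lit 0)), ((nat_lit 846), (nat_lit 837), (nat_lit 1000))], ((nat_lit 88), (nat_lit 100), (nat_lit 96))⟩, (nat_lit 2515529), (nat_lit 352), (nat_lit 352), (nat_lit 0), (nat_lit 304729), [(nat_lit 2032000000), (nat_lit 6250000000), (nat_lit 11872000000)], [], [(nat_lit 23612845868), (nat_lit 24483228218), (nat_lit 38634252933), (nat_lit 40314878201), (nat_lit 21161172083), (nat_lit 23043363654), (nat_lit 35506764144), (nat_lit 37090077411)], (nat_lit 1271251), (nat_lit 1271251), (nat_lit 936250), (nat_lit 3113751), (nat_lit 356250), (nat_lit 780000), [(nat_lit 490000), (nat_lit 1427501),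 (nat_lit 1271251)], [(nat_lit 6), (nat_lit 56), (nat_lit 373), (nat_lit 150), (nat_lit 9)]⟩,
 ⟨⟨[(nat_lit 80), (nat_lit 140), (nat_lit 180)], [(nat_lit 0), (nat_lit 0), (nat_lit 3656)], [((nat_lit 0), (nat_lit 0), (nat_lit 0)), ((nat_lit 0), (nat_lit 0), (nat_lit 0)), ((nat_lit 637), (nat_lit 1000), (nat_lit 908))], ((nat_lit 100), (nat_lit 66), (nat_lit 90))⟩, (nat_lit 384026), (nat_lit 300), (nat_lit 486), (nat_lit 70300006), (nat_lit 349595), [(nat_lit 4688000000), (nat_lit 9842000000), (nat_lit 14058000000)], [], [(nat_lit 50317544169), (nat_lit 53946357033), (nat_lit 66880103360), (nat_lit 50899330010), (nat_lit 47085859179), (nat_lit 50224899915), (nat_lit 72966578080), (nat_lit 49908190280)], (nat_lit 1271251), (nat_lit 1271251), (nat_lit 356250), (nat_lit 2948751), (nat_lit 356250), (nat_lit 780000), [(nat_lit 1100000), (nat_lit 2127501), (nat_lit 1271251)], [(nat_lit 19), (nat_lit 63), (nat_lit 456), (nat_lit 225), (nat_lit 11)]⟩⟩) (.spl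 (nat_lit 0) (nat_lit 330) (.ord (.spl (nat_lit 6) (nat_lit 92) (.leaf ⟨(nat_lit 0), (nat_lit 0), (nat_lit 0), (nat_lit 1000), (nat_lit 0), (nat_lit 10804), (nat_lit 9642), (nat_lit 8437), (nat_lit 7281612017794), (nat_lit 43066), (nat_lit 0), [], Pd.none, Pd.none, (nat_lit 0), (nat_lit 1), (nat_lit 0), (nat_lit 0), (nat_lit 0), (nat_lit 0), [], [], [⟨(nat_lit 0), (nat_lit 100), (nat_lit 86), (nat_lit 99), (nat_lit 25469547)⟩], [],
 ⟨⟨[(nat_lit 40), (nat_lit 100), (nat_lit 140)], [(nat_lit 0), (nat_lit 0), (nat_lit 3243)], [((nat_lit 0), (nat_lit 0), (nat_lit 0)), ((nat_lit 0), (nat_lit 0), (nat_lit 0)), ((nat_lit 1000), (nat_lit 870), (nat_lit 941))], ((nat_lit 85), (nat_lit 100), (nat_lit 90))⟩, (nat_lit 336725), (nat_lit 300), (nat_lit 312), (nat_lit 62500006), (nat_lit 342382), [(nat_lit 2032000017), (nat_lit 6250000007), (nat_lit 9842000000)], [], [(nat_lit 31265556878), (nat_lit 31853822452), (nat_lit 43670918436), (nat_lit 44669434903),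 (nat_lit 38385759072), (nat_lit 39298303610), (nat_lit 56041885113), (nat_lit 53838074389)], (nat_lit 1271251), (nat_lit 1271251), (nat_lit 936250), (nat_lit 3113751), (nat_lit 356250), (nat_lit 2948751), [(nat_lit 490000), (nat_lit 1427501), (nat_lit 1271251)], [(nat_lit 5), (nat_lit 55), (nat_lit 428), (nat_lit 200), (nat_lit 12)]⟩,
 ⟨⟨[(nat_lit 40), (nat_lit 100), (nat_lit 140)], [(nat_lit 0), (nat_lit 0), (nat_lit 3243)], [((nat_lit 0), (nat_lit 0), (nat_lit 0)), ((nat_lit 0), (nat_lit 0), (nat_lit 0)), ((nat_lit 1000), (nat_lit 870), (nat_lit 941))], ((nat_lit 85), (nat_lit 100), (nat_lit 90))⟩, (nat_lit 1553789), (nat_lit 280), (nat_lit 280), (nat_lit 0), (nat_lit 342382), [(nat_lit 2032000000), (nat_lit 6250000000), (nat_lit 9842000000)], [], [(nat_lit 21124959661), (nat_lit 22264557235), (nat_lit 37536705904), (nat_lit 38407243524), (nat_lit 36782875356), (nat_lit 37630119125), (nat_lit 43646073328), (nat_lit 44054823797)], (nat_lit 1271251),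 (nat_lit 1271251), (nat_lit 1271251), (nat_lit 1271251), (nat_lit 780000), (nat_lit 3072501), [(nat_lit 490000), (nat_lit 1427501), (nat_lit 1271251)], [(nat_lit 5), (nat_lit 55), (nat_lit 428), (nat_lit 200), (nat_lit 12)]⟩,
 ⟨⟨[(nat_lit 80), (nat_lit 140), (nat_lit 180)], [(nat_lit 0), (nat_lit 0), (nat_lit 3656)], [((nat_lit 0), (nat_lit 0), (nat_lit 0)), ((nat_lit 0), (nat_lit 0), (nat_lit 0)), ((nat_lit 637), (nat_lit 1000), (nat_lit 908))], ((nat_lit 100), (nat_lit 71), (nat_lit 86))⟩, (nat_lit 384026), (nat_lit 300), (nat_lit 464), (nat_lit 70300006), (nat_lit 396226), [(nat_lit 4688000000), (nat_lit 9842000000), (nat_lit 14058000000)], [], [(nat_lit 51009641655), (nat_lit 52970876972), (nat_lit 70686468520), (nat_lit 53866380950), (nat_lit 53111863219), (nat_lit 53490377661), (nat_lit 48802570255), (nat_lit 48376480053)], (nat_lit 1271251), (nat_lit 1271251), (nat_lit 356250), (nat_lit 2948751), (nat_lit 1271251), (nat_lit 1271251), [(nat_lit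 1100000), (nat_lit 2127501), (nat_lit 1271251)], [(nat_lit 19), (nat_lit 63), (nat_lit 538), (nat_lit 300), (nat_lit 12)]⟩⟩) (.dle (nat_lit 0)))) (.trZ (nat_lit 0) (nat_lit 1) (nat_lit 3) (nat_lit 82) (nat_lit 78) (nat_lit 100) (nat_lit 150) (.trZ (nat_lit 0) (nat_lit 2) (nat_lit 4) (nat_lit 100) (nat_lit 78) (nat_lit 81) (nat_lit 70) (.leaf ⟨(nat_lit 0), (nat_lit 29), (nat_lit 0), (nat_lit 971), (nat_lit 0), (nat_lit 10001), (nat_lit 9080), (nat_lit 8689), (nat_lit 2921070241277), (nat_lit 3571), (nat_lit 0), [], Pd.none, Pd.none, (nat_lit 0), (nat_lit 1), (nat_lit 0), (nat_lit 0), (nat_lit 6), (nat_lit 0), [], [], [], [],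
 ⟨⟨[(nat_lit 40), (nat_lit 100), (nat_lit 140)], [(nat_lit 0), (nat_lit 592), (nat_lit 3606)], [((nat_lit 0), (nat_lit 0), (nat_lit 0)), ((nat_lit 1000), (nat_lit 908), (nat_lit 154)), ((nat_lit 1000), (nat_lit 825), (nat_lit 971))], ((nat_lit 81), (nat_lit 100), (nat_lit 94))⟩, (nat_lit 393202), (nat_lit 300), (nat_lit 342), (nat_lit 60172245), (nat_lit 455751), [(nat_lit 2032000008), (nat_lit 6250000005), (nat_lit 9842000000)], [], [(nat_lit 33416585686), (nat_lit 31961481162), (nat_lit 41809498707), (nat_lit 42753257635), (nat_lit 37735274884), (nat_lit 38590684197), (nat_lit 54938915124), (nat_lit 52898901143)], (nat_lit 1271251), (nat_lit 1271251), (nat_lit 1017188), (nat_lit 3134376), (nat_lit 422188), (nat_lit 2969376), [(nat_lit 490000), (nat_lit 1427501), (nat_lit 1271251)], [(nat_lit 5), (nat_lit 55), (nat_lit 428), (nat_lit 200), (nat_lit 12)]⟩,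
 ⟨⟨[(nat_lit 40), (nat_lit 100), (nat_lit 160)], [(nat_lit 0), (nat_lit 0), (nat_lit 4607)], [((nat_lit 0), (nat_lit 0), (nat_lit 0)), ((nat_lit 0), (nat_lit 0), (nat_lit 0)), ((nat_lit 846), (nat_lit 837), (nat_lit 1000))], ((nat_lit 88), (nat_lit 100), (nat_lit 96))⟩, (nat_lit 2580279), (nat_lit 369), (nat_lit 369), (nat_lit 0), (nat_lit 458819), [(nat_lit 2032000000), (nat_lit 6250000000), (nat_lit 11872000000)], [], [(nat_lit 19758849757), (nat_lit 21678250110), (nat_lit 36694766960), (nat_lit 38370408820), (nat_lit 35664080180), (nat_lit 37273242625), (nat_lit 42840286720), (nat_lit 43638685840)], (nat_lit 1271251), (nat_lit 1271251), (nat_lit 1271251), (nat_lit 1271251), (nat_lit 780000), (nat_lit 3072501), [(nat_lit 490000), (nat_lit 1427501), (nat_lit 1271251)], [(nat_lit 6), (nat_lit 56), (nat_lit 428), (nat_lit 200), (nat_lit 10)]⟩,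
 ⟨⟨[(nat_lit 80), (nat_lit 140), (nat_lit 180)], [(nat_lit 0), (nat_lit 0), (nat_lit 3656)], [((nat_lit 0), (nat_lit 0), (nat_lit 0)), ((nat_lit 0), (nat_lit 0), (nat_lit 0)), ((nat_lit 637), (nat_lit 1000), (nat_lit 908))], ((nat_lit 100), (nat_lit 66), (nat_lit 90))⟩, (nat_lit 372889), (nat_lit 300), (nat_lit 556), (nat_lit 68261311), (nat_lit 527152), [(nat_lit 4552048000), (nat_lit 9556582000), (nat_lit 13650318000)], [], [(nat_lit 53908922162), (nat_lit 55004155836), (nat_lit 70799341816), (nat_lit 51594705480), (nat_lit 53425744426), (nat_lit 53247121358), (nat_lit 48104071644), (nat_lit 47069223460)], (nat_lit 1271251), (nat_lit 1271251), (nat_lit 422188), (nat_lit 2969376), (nat_lit 1271251), (nat_lit 1271251), [(nat_lit 1100000), (nat_lit 2127501), (nat_lit 1271251)], [(nat_lit 19), (nat_lit 63), (nat_lit 538), (nat_lit 300), (nat_lit 12)]⟩⟩)))))) (.dle (nat_lit 0)))))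
def l020 : List St := [⟨⟨(nat_lit 320), (nat_lit 340), (nat_lit 320), (nat_lit 340), (nat_lit 120), (nat_lit 180), (nat_lit 140), (nat_lit 400), (nat_lit 0), (nat_lit 160), (nat_lit 0), (nat_lit 160), (nat_lit 0), (nat_lit 56)⟩, (nat_lit 3), (nat_lit 3), (nat_lit 3), false, false, false⟩,
  ⟨⟨(nat_lit 320), (nat_lit 340), (nat_lit 320), (nat_lit 340), (nat_lit 120), (nat_lit 180), (nat_lit 140), (nat_lit 400), (nat_lit 0), (nat_lit 160), (nat_lit 160), (nat_lit 350), (nat_lit 0), (nat_lit 28)⟩, (nat_lit 3), (nat_lit 3), (nat_lit 3), false, false, false⟩,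
  ⟨⟨(nat_lit 320), (nat_lit 340), (nat_lit 320), (nat_lit 340), (nat_lit 120), (nat_lit 180), (nat_lit 140), (nat_lit 400), (nat_lit 0), (nat_lit 160), (nat_lit 160), (nat_lit 350), (nat_lit 28), (nat_lit 56)⟩, (nat_lit 3), (nat_lit 3), (nat_lit 3), false, false, false⟩,
  ⟨⟨(nat_lit 320), (nat_lit 340), (nat_lit 320), (nat_lit 340), (nat_lit 120), (nat_lit 180), (nat_lit 140), (nat_lit 400), (nat_lit 160), (nat_lit 350), (nat_lit 0), (nat_lit 350), (nat_lit 0), (nat_lit 56)⟩, (nat_lit 3), (nat_lit 3), (nat_lit 0), false, false, false⟩,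
  ⟨⟨(nat_lit 320), (nat_lit 340), (nat_lit 320), (nat_lit 340), (nat_lit 120), (nat_lit 180), (nat_lit 140), (nat_lit 400), (nat_lit 160), (nat_lit 350), (nat_lit 0), (nat_lit 160), (nat_lit 0), (nat_lit 56)⟩, (nat_lit 3), (nat_lit 3), (nat_lit 1), false, false, false⟩,
  ⟨⟨(nat_lit 320), (nat_lit 340), (nat_lit 320), (nat_lit 340), (nat_lit 120), (nat_lit 160), (nat_lit 140), (nat_lit 400), (nat_lit 160), (nat_lit 340), (nat_lit 160), (nat_lit 340), (nat_lit 0), (nat_lit 16)⟩, (nat_lit 3), (nat_lit 3), (nat_lit 1), false, false, false⟩,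
  ⟨⟨(nat_lit 320), (nat_lit 340), (nat_lit 320), (nat_lit 340), (nat_lit 120), (nat_lit 160), (nat_lit 140), (nat_lit 400), (nat_lit 160), (nat_lit 340), (nat_lit 160), (nat_lit 340), (nat_lit 16), (nat_lit 28)⟩, (nat_lit 3), (nat_lit 3), (nat_lit 1), false, false, false⟩,
  ⟨⟨(nat_lit 320), (nat_lit 340), (nat_lit 320), (nat_lit 340), (nat_lit 160), (nat_lit 180), (nat_lit 140), (nat_lit 400), (nat_lit 160), (nat_lit 350), (nat_lit 160), (nat_lit 350), (nat_lit 0), (nat_lit 28)⟩, (nat_lit 3), (nat_lit 3), (nat_lit 1), false, false, false⟩,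
  ⟨⟨(nat_lit 320), (nat_lit 340), (nat_lit 320), (nat_lit 340), (nat_lit 120), (nat_lit 180), (nat_lit 140), (nat_lit 400), (nat_lit 160), (nat_lit 350), (nat_lit 160), (nat_lit 350), (nat_lit 28), (nat_lit 56)⟩, (nat_lit 3), (nat_lit 3), (nat_lit 1), false, false, false⟩,
  ⟨⟨(nat_lit 320), (nat_lit 340), (nat_lit 320), (nat_lit 340), (nat_lit 180), (nat_lit 240), (nat_lit 140), (nat_lit 400), (nat_lit 20), (nat_lit 390), (nat_lit 20), (nat_lit 200), (nat_lit 0), (nat_lit 56)⟩, (nat_lit 3), (nat_lit 3), (nat_lit 3), false, false, false⟩,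
  ⟨⟨(nat_lit 320), (nat_lit 340), (nat_lit 320), (nat_lit 340), (nat_lit 180), (nat_lit 240), (nat_lit 140), (nat_lit 400), (nat_lit 20), (nat_lit 390), (nat_lit 200), (nat_lit 390), (nat_lit 0), (nat_lit 56)⟩, (nat_lit 0), (nat_lit 3), (nat_lit 3), false, false, false⟩,
  ⟨⟨(nat_lit 320), (nat_lit 340), (nat_lit 320), (nat_lit 340), (nat_lit 180), (nat_lit 240), (nat_lit 140), (nat_lit 400), (nat_lit 20), (nat_lit 390), (nat_lit 200), (nat_lit 390), (nat_lit 0), (nat_lit 56)⟩, (nat_lit 1), (nat_lit 3), (nat_lit 3), false, false, false⟩,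
  ⟨⟨(nat_lit 320), (nat_lit 340), (nat_lit 320), (nat_lit 330), (nat_lit 120), (nat_lit 180), (nat_lit 140), (nat_lit 400), (nat_lit 0), (nat_lit 200), (nat_lit 0), (nat_lit 350), (nat_lit 56), (nat_lit 112)⟩, (nat_lit 3), (nat_lit 3), (nat_lit 3), false, false, false⟩,
  ⟨⟨(nat_lit 320), (nat_lit 340), (nat_lit 330), (nat_lit 340), (nat_lit 120), (nat_lit 180), (nat_lit 140), (nat_lit 400), (nat_lit 0), (nat_lit 200), (nat_lit 0), (nat_lit 350), (nat_lit 56), (nat_lit 112)⟩, (nat_lit 3), (nat_lit 3), (nat_lit 3), false, false, false⟩,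
  ⟨⟨(nat_lit 320), (nat_lit 340), (nat_lit 320), (nat_lit 340), (nat_lit 180), (nat_lit 240), (nat_lit 140), (nat_lit 400), (nat_lit 0), (nat_lit 200), (nat_lit 0), (nat_lit 390), (nat_lit 56), (nat_lit 112)⟩, (nat_lit 3), (nat_lit 3), (nat_lit 3), false, false, false⟩,
  ⟨⟨(nat_lit 320), (nat_lit 340), (nat_lit 320), (nat_lit 330), (nat_lit 120), (nat_lit 180), (nat_lit 140), (nat_lit 400), (nat_lit 200), (nat_lit 350), (nat_lit 0), (nat_lit 350), (nat_lit 56), (nat_lit 112)⟩, (nat_lit 3), (nat_lit 3), (nat_lit 3), false, false, false⟩,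
  ⟨⟨(nat_lit 320), (nat_lit 340), (nat_lit 330), (nat_lit 340), (nat_lit 120), (nat_lit 180), (nat_lit 140), (nat_lit 400), (nat_lit 200), (nat_lit 350), (nat_lit 0), (nat_lit 350), (nat_lit 56), (nat_lit 112)⟩, (nat_lit 3), (nat_lit 3), (nat_lit 3), false, false, false⟩,
  ⟨⟨(nat_lit 320), (nat_lit 340), (nat_lit 320), (nat_lit 340), (nat_lit 180), (nat_lit 240), (nat_lit 140), (nat_lit 400), (nat_lit 200), (nat_lit 390), (nat_lit 0), (nat_lit 390), (nat_lit 56), (nat_lit 112)⟩, (nat_lit 3), (nat_lit 3), (nat_lit 3), false, false, false⟩,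
  ⟨⟨(nat_lit 320), (nat_lit 340), (nat_lit 320), (nat_lit 340), (nat_lit 240), (nat_lit 340), (nat_lit 140), (nat_lit 400), (nat_lit 0), (nat_lit 400), (nat_lit 0), (nat_lit 400), (nat_lit 0), (nat_lit 112)⟩, (nat_lit 3), (nat_lit 3), (nat_lit 3), false, false, false⟩]
theorem t020 (h : EC env Ei) : ∀ τ ∈ l020, Dead τ :=
  List.forall_mem_cons.mpr ⟨chkT_sound0 h (T := c12_0) (by decide +kernel),
  List.forall_mem_cons.mpr ⟨chkT_sound0 h (T := c12_1) (by decide +kernel),
  List.forall_mem_cons.mpr ⟨chkT_sound0 h (T := c12_2) (by decide +kernel),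
  List.forall_mem_cons.mpr ⟨chkT_sound0 h (T := c12_3) (by decide +kernel),
  List.forall_mem_cons.mpr ⟨chkT_sound0 h (T := c12_4) (by decide +kernel),
  List.forall_mem_cons.mpr ⟨chkT_sound0 h (T := c12_5) (by decide +kernel),
  List.forall_mem_cons.mpr ⟨chkT_sound0 h (T := c12_6) (by decide +kernel),
  List.forall_mem_cons.mpr ⟨chkT_sound0 h (T := c12_7) (by decide +kernel),
  List.forall_mem_cons.mpr ⟨chkT_sound0 h (T := c12_8) (by decide +kernel),
  List.forall_mem_cons.mpr ⟨chkT_sound0 h (T := c12_9) (by decide +kernel),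
  List.forall_mem_cons.mpr ⟨chkT_sound0 h (T := c12_10) (by decide +kernel),
  List.forall_mem_cons.mpr ⟨chkT_sound0 h (T := c12_11) (by decide +kernel),
  List.forall_mem_cons.mpr ⟨chkT_sound0 h (T := c12_12) (by decide +kernel),
  List.forall_mem_cons.mpr ⟨chkT_sound0 h (T := c12_13) (by decide +kernel),
  List.forall_mem_cons.mpr ⟨chkT_sound0 h (T := c12_14) (by decide +kernel),
  List.forall_mem_cons.mpr ⟨chkT_sound0 h (T := c12_15) (by decide +kernel),
  List.forall_mem_cons.mpr ⟨chkT_sound0 h (T := c12_16) (by decide +kernel),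
  List.forall_mem_cons.mpr ⟨chkT_sound0 h (T := c12_17) (by decide +kernel),
  List.forall_mem_cons.mpr ⟨chkT_sound0 h (T := c12_18) (by decide +kernel),
  List.forall_mem_nil _⟩⟩⟩⟩⟩⟩⟩⟩⟩⟩⟩⟩⟩⟩⟩⟩⟩⟩⟩
end TC
end Pool.Agent.Lib.MP_6947cd_al
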