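import Pool.Agent.Lib.MP_6947cd_al.C.LeafF
import Pool.Agent.Lib.MP_6947cd_al.TC.E
import Pool.Agent.Lib.MP_6947cd_al.TC.F

/-!
Problem MP_6947cd_al (Chollet).  CASE C, tables and certificates.  Trees of leaves (part 21 of root 13).
-/

set_option autoImplicit false
set_option linter.all false
set_option maxRecDepth 100000
set_option maxHeartbeats 4000000
namespace Pool.Agent.Lib.MP_6947cd_al
namespace TC
open C1
noncomputable def c13_0 : Tr Lf :=
 (.spl (nat_lit 2) (nat_lit 160) (.trX (nat_lit 4) (nat_lit 0) (nat_lit 2) (nat_lit 44) (nat_lit 99) (nat_lit 100) (nat_lit 250) (.leaf ⟨(nat_lit 1000), (nat_lit 0), (nat_lit 0), (nat_lit 0), (nat_lit 0), (nat_lit 3447), (nat_lit 0), (nat_lit 0), (nat_lit 0), (nat_lit 1169484), (nat_lit 532200), [((nat_lit 400), [((nat_lit 28), (nat_lit 1), (nat_lit 339)), ((nat_lit 43), (nat_lit 2), (nat_lit 661))])], ⟨(nat_lit 3), false, false, false, (nat_lit 111), (nat_lit 0), (nat_lit 2237), [(nat_lit 1177178), (nat_lit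 1196337), (nat_lit 1242721), (nat_lit 1268557), (nat_lit 1294870), (nat_lit 1299999), (nat_lit 1360436), (nat_lit 1372242)]⟩, ⟨(nat_lit 3), false, false, true, (nat_lit 141), (nat_lit 0), (nat_lit 2237), [(nat_lit 1177178), (nat_lit 1196337), (nat_lit 1220873), (nat_lit 1244484), (nat_lit 1480164), (nat_lit 1462492), (nat_lit 1525715), (nat_lit 1512494)]⟩, (nat_lit 3326953), (nat_lit 53945464), (nat_lit 5321132), (nat_lit 7733404), (nat_lit 0), (nat_lit 0), [⟨(nat_lit 0), (nat_lit 100), (nat_lit 32), (nat_lit 87), (nat_lit 257588237)⟩], [], [], [],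
 ⟨⟨[(nat_lit 40), (nat_lit 60)], [(nat_lit 0), (nat_lit 1539)], [((nat_lit 0), (nat_lit 0), (nat_lit 0)), ((nat_lit 1000), (nat_lit 478), (nat_lit 704))], ((nat_lit 48), (nat_lit 100), (nat_lit 69))⟩, (nat_lit 0), (nat_lit 264), (nat_lit 264), (nat_lit 0), (nat_lit 478564), [(nat_lit 1393084805), (nat_lit 0)], [(nat_lit 0), (nat_lit 308438000)], [(nat_lit 23521150730), (nat_lit 25711249679), (nat_lit 22018145915), (nat_lit 24051925294), (nat_lit 24975643852), (nat_lit 26598475695), (nat_lit 24817358665), (nat_lit 25857515696)], (nat_lit 1271251), (nat_lit 1271251), (nat_lit 230000), (nat_lit 780000), (nat_lit 230000), (nat_lit 1791876), [(nat_lit 490000), (nat_lit 780000)], [(nat_lit 1), (nat_lit 38), (nat_lit 317), (nat_lit 100), (nat_lit 19)]⟩,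
 Rw.none,
 Rw.none⟩)) (.ord (.trZ (nat_lit 0) (nat_lit 1) (nat_lit 3) (nat_lit 100) (nat_lit 44) (nat_lit 81) (nat_lit 70) (.trZ (nat_lit 0) (nat_lit 2) (nat_lit 4) (nat_lit 100) (nat_lit 44) (nat_lit 81) (nat_lit 70) (.leaf ⟨(nat_lit 1000), (nat_lit 0), (nat_lit 0), (nat_lit 0), (nat_lit 0), (nat_lit 3386), (nat_lit 0), (nat_lit 0), (nat_lit 0), (nat_lit 2854842662795), (nat_lit 550200), [((nat_lit 400), [((nat_lit 28), (nat_lit 1), (nat_lit 249)), ((nat_lit 43), (nat_lit 2), (nat_lit 751))])], ⟨(nat_lit 4), false, false, false, (nat_lit 128), (nat_lit 0), (nat_lit 2237), [(nat_lit 1265016), (nat_lit 1283365), (nat_lit 1286864), (nat_lit 1307439), (nat_lit 1338589), (nat_lit 1348168), (nat_lit 1360436), (nat_lit 1372242)]⟩, ⟨(nat_lit 4), false, false, true, (nat_lit 169), (nat_lit 0), (nat_lit 2237), [(nat_lit 1265016), (nat_lit 1283365), (nat_lit 1286864), (nat_lit 1307439), (nat_lit 1554222), (nat_lit 1537494), (nat_lit 1576997), (nat_lit 1562495)]⟩,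 (nat_lit 3900879), (nat_lit 50251419), (nat_lit 6609438), (nat_lit 10139143), (nat_lit 0), (nat_lit 0), [⟨(nat_lit 0), (nat_lit 100), (nat_lit 32), (nat_lit 90), (nat_lit 143094196)⟩], [⟨(nat_lit 1), (nat_lit 100), (nat_lit 32), (nat_lit 100), (nat_lit 49867941)⟩, ⟨(nat_lit 1), (nat_lit 94), (nat_lit 44), (nat_lit 100), (nat_lit 61551148)⟩], [], [],
 ⟨⟨[(nat_lit 40), (nat_lit 60)], [(nat_lit 0), (nat_lit 1539)], [((nat_lit 0), (nat_lit 0), (nat_lit 0)), ((nat_lit 1000), (nat_lit 478), (nat_lit 704))], ((nat_lit 48), (nat_lit 100), (nat_lit 69))⟩, (nat_lit 0), (nat_lit 207), (nat_lit 207), (nat_lit 0), (nat_lit 409584), [(nat_lit 1392796804), (nat_lit 0)], [(nat_lit 0), (nat_lit 394658000)], [(nat_lit 21064561826), (nat_lit 23156698554), (nat_lit 21075882677), (nat_lit 22892847561), (nat_lit 24878258332), (nat_lit 26387155764), (nat_lit 25041574488), (nat_lit 26133487575)], (nat_lit 1271251), (nat_lit 1271251), (nat_lit 422188), (nat_lit 780000),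 (nat_lit 422188), (nat_lit 1965938), [(nat_lit 490000), (nat_lit 780000)], [(nat_lit 1), (nat_lit 38), (nat_lit 317), (nat_lit 100), (nat_lit 18)]⟩,
 Rw.none,
 Rw.none⟩)))))
noncomputable def c13_1 : Tr Lf :=
 (.spl (nat_lit 4) (nat_lit 120) (.leaf ⟨(nat_lit 1000), (nat_lit 0), (nat_lit 0), (nat_lit 0), (nat_lit 0), (nat_lit 3232), (nat_lit 0), (nat_lit 0), (nat_lit 0), (nat_lit 44811333577), (nat_lit 534200), [((nat_lit 400), [((nat_lit 28), (nat_lit 1), (nat_lit 329)), ((nat_lit 43), (nat_lit 2), (nat_lit 671))])], ⟨(nat_lit 3), false, false, true, (nat_lit 173), (nat_lit 0), (nat_lit 2237), [(nat_lit 1294870), (nat_lit 1299999), (nat_lit 1360436), (nat_lit 1372242), (nat_lit 1508671), (nat_lit 1487491), (nat_lit 1576997), (nat_lit 1562495)]⟩, ⟨(nat_lit 3), false, false, false, (nat_lit 111), (nat_lit 0), (nat_lit 2237), [(nat_lit 1177178), (nat_lit 1196337), (nat_lit 1242721), (nat_lit 1268557), (nat_lit 1294870), (nat_lit 1299999), (nat_lit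 1360436), (nat_lit 1372242)]⟩, (nat_lit 3722771), (nat_lit 51099642), (nat_lit 10605777), (nat_lit 5294581), (nat_lit 0), (nat_lit 0), [⟨(nat_lit 1), (nat_lit 94), (nat_lit 44), (nat_lit 100), (nat_lit 193288677)⟩], [⟨(nat_lit 0), (nat_lit 100), (nat_lit 32), (nat_lit 87), (nat_lit 95823581)⟩], [], [],
 ⟨⟨[(nat_lit 40), (nat_lit 60)], [(nat_lit 0), (nat_lit 1539)], [((nat_lit 0), (nat_lit 0), (nat_lit 0)), ((nat_lit 1000), (nat_lit 478), (nat_lit 704))], ((nat_lit 48), (nat_lit 100), (nat_lit 69))⟩, (nat_lit 0), (nat_lit 230), (nat_lit 230), (nat_lit 0), (nat_lit 479924), [(nat_lit 1393052803), (nat_lit 0)], [(nat_lit 0), (nat_lit 318018000)], [(nat_lit 21703890055), (nat_lit 23568776864), (nat_lit 25507954684), (nat_lit 27009667586), (nat_lit 21876574791), (nat_lit 23194219815), (nat_lit 25444506619), (nat_lit 26484146113)], (nat_lit 1271251), (nat_lit 1271251), (nat_lit 780000), (nat_lit 2008126), (nat_lit 230000), (nat_lit 780000), [(nat_lit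 490000), (nat_lit 780000)], [(nat_lit 1), (nat_lit 38), (nat_lit 238), (nat_lit 30), (nat_lit 13)]⟩,
 Rw.none,
 Rw.none⟩) (.spl (nat_lit 3) (nat_lit 200) (.spl (nat_lit 3) (nat_lit 160) (.leaf ⟨(nat_lit 1000), (nat_lit 0), (nat_lit 0), (nat_lit 0), (nat_lit 0), (nat_lit 3690), (nat_lit 0), (nat_lit 0), (nat_lit 0), (nat_lit 370532050147), (nat_lit 600000), [((nat_lit 400), [((nat_lit 43), (nat_lit 2), (nat_lit 1000))])], ⟨(nat_lit 3), false, false, false, (nat_lit 144), (nat_lit 0), (nat_lit 2237), [(nat_lit 1294870), (nat_lit 1299999), (nat_lit 1360436), (nat_lit 1372242), (nat_lit 1351885), (nat_lit 1349998), (nat_lit 1419294), (nat_lit 1424084)]⟩, ⟨(nat_lit 3), false, false, false, (nat_lit 144), (nat_lit 0), (nat_lit 2237), [(nat_lit 1294870), (nat_lit 1299999), (nat_lit 1360436), (nat_lit 1372242), (nat_lit 1351885), (nat_lit 1349998), (nat_lit 1419294), (nat_lit 1424084)]⟩, (nat_lit 3801159), (nat_lit 51156128), (nat_lit 7921936), (nat_lit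 7921936), (nat_lit 0), (nat_lit 0), [], [], [], [],
 ⟨⟨[(nat_lit 40), (nat_lit 60)], [(nat_lit 0), (nat_lit 1539)], [((nat_lit 0), (nat_lit 0), (nat_lit 0)), ((nat_lit 1000), (nat_lit 478), (nat_lit 704))], ((nat_lit 48), (nat_lit 100), (nat_lit 69))⟩, (nat_lit 215397), (nat_lit 241), (nat_lit 241), (nat_lit 0), (nat_lit 617511), [(nat_lit 1392000042), (nat_lit 0)], [(nat_lit 0), (nat_lit 633200000)], [(nat_lit 21278406275), (nat_lit 23149494660), (nat_lit 21737073997), (nat_lit 23236822360), (nat_lit 21737073997), (nat_lit 23236822360), (nat_lit 22166929852), (nat_lit 23348810120)], (nat_lit 1271251), (nat_lit 1271251), (nat_lit 780000), (nat_lit 1100000), (nat_lit 780000), (nat_lit 1100000), [(nat_lit 490000), (nat_lit 780000)], [(nat_lit 1), (nat_lit 38), (nat_lit 203), (nat_lit 0), (nat_lit 10)]⟩,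
 Rw.none,
 Rw.none⟩) (.leaf ⟨(nat_lit 1000), (nat_lit 0), (nat_lit 0), (nat_lit 0), (nat_lit 0), (nat_lit 3521), (nat_lit 0), (nat_lit 0), (nat_lit 0), (nat_lit 372071056861), (nat_lit 600000), [((nat_lit 400), [((nat_lit 43), (nat_lit 2), (nat_lit 1000))])], ⟨(nat_lit 4), false, false, true, (nat_lit 165), (nat_lit 0), (nat_lit 2237), [(nat_lit 1351885), (nat_lit 1349998), (nat_lit 1419294), (nat_lit 1424084), (nat_lit 1408898), (nat_lit 1399996), (nat_lit 1477224), (nat_lit 1474999)]⟩, ⟨(nat_lit 3), false, false, false, (nat_lit 144), (nat_lit 0), (nat_lit 2237), [(nat_lit 1294870), (nat_lit 1299999), (nat_lit 1360436), (nat_lit 1372242), (nat_lit 1351885), (nat_lit 1349998), (nat_lit 1419294), (nat_lit 1424084)]⟩, (nat_lit 4053137), (nat_lit 49376593), (nat_lit 9773217), (nat_lit 7850190), (nat_lit 0), (nat_lit 0), [], [], [], [],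
 ⟨⟨[(nat_lit 40), (nat_lit 60)], [(nat_lit 0), (nat_lit 1539)], [((nat_lit 0), (nat_lit 0), (nat_lit 0)), ((nat_lit 1000), (nat_lit 478), (nat_lit 704))], ((nat_lit 48), (nat_lit 100), (nat_lit 69))⟩, (nat_lit 242948), (nat_lit 226), (nat_lit 226), (nat_lit 0), (nat_lit 617511), [(nat_lit 1392000005), (nat_lit 0)], [(nat_lit 0), (nat_lit 633200000)], [(nat_lit 21588991948), (nat_lit 23026274724), (nat_lit 22607820222), (nat_lit 24053511527), (nat_lit 22039105136), (nat_lit 23275263473), (nat_lit 23007612832), (nat_lit 24168678095)], (nat_lit 1271251), (nat_lit 1271251), (nat_lit 1100000), (nat_lit 1442501), (nat_lit 780000), (nat_lit 1100000), [(nat_lit 490000), (nat_lit 780000)], [(nat_lit 1), (nat_lit 38), (nat_lit 203), (nat_lit 0), (nat_lit 10)]⟩,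
 Rw.none,
 Rw.none⟩)) (.spl (nat_lit 2) (nat_lit 160) (.spl (nat_lit 0) (nat_lit 390) (.leaf ⟨(nat_lit 1000), (nat_lit 0), (nat_lit 0), (nat_lit 0), (nat_lit 0), (nat_lit 3480), (nat_lit 0), (nat_lit 0), (nat_lit 0), (nat_lit 175936), (nat_lit 600000), [((nat_lit 390), [((nat_lit 43), (nat_lit 2), (nat_lit 1000))])], ⟨(nat_lit 5), false, false, true, (nat_lit 196), (nat_lit 1581), (nat_lit 2237), [(nat_lit 1408901), (nat_lit 1406738), (nat_lit 1477224), (nat_lit 1476683), (nat_lit 1508678), (nat_lit 1502350), (nat_lit 1577001), (nat_lit 1572296)]⟩, ⟨(nat_lit 3), false, false, false, (nat_lit 139), (nat_lit 1581), (nat_lit 2237), [(nat_lit 1294870), (nat_lit 1297467), (nat_lit 1340340), (nat_lit 1344018), (nat_lit 1351886), (nat_lit 1352103), (nat_lit 1397434), (nat_lit 1398733)]⟩, (nat_lit 4306400), (nat_lit 47073334), (nat_lit 12609113), (nat_lit 7317553), (nat_lit 0), (nat_lit 0), [⟨(nat_lit 1), (nat_lit 100), (nat_lit 38), (nat_lit 98), (nat_lit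 389332568)⟩, ⟨(nat_lit 1), (nat_lit 94), (nat_lit 44), (nat_lit 100), (nat_lit 486435)⟩], [], [], [],
 ⟨⟨[(nat_lit 40), (nat_lit 60)], [(nat_lit 0), (nat_lit 1539)], [((nat_lit 0), (nat_lit 0), (nat_lit 0)), ((nat_lit 1000), (nat_lit 478), (nat_lit 704))], ((nat_lit 48), (nat_lit 100), (nat_lit 69))⟩, (nat_lit 175945), (nat_lit 208), (nat_lit 208), (nat_lit 0), (nat_lit 564177), [(nat_lit 1392000017), (nat_lit 0)], [(nat_lit 0), (nat_lit 633200000)], [(nat_lit 22718998475), (nat_lit 23326990320), (nat_lit 24810135995), (nat_lit 25534309953), (nat_lit 23123600805), (nat_lit 23700963245), (nat_lit 25097583320), (nat_lit 25610142973)], (nat_lit 1271251), (nat_lit 1271251), (nat_lit 1271251), (nat_lit 1271251), (nat_lit 780000), (nat_lit 1100000), [(nat_lit 490000), (nat_lit 780000)], [(nat_lit 1), (nat_lit 38), (nat_lit 203), (nat_lit 0), (nat_lit 9)]⟩,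
 Rw.none,
 Rw.none⟩) (.trX (nat_lit 3) (nat_lit 0) (nat_lit 1) (nat_lit 31) (nat_lit 98) (nat_lit 100) (nat_lit 250) (.leaf ⟨(nat_lit 1000), (nat_lit 0), (nat_lit 0), (nat_lit 0), (nat_lit 0), (nat_lit 3480), (nat_lit 0), (nat_lit 0), (nat_lit 0), (nat_lit 1171), (nat_lit 600000), [((nat_lit 400), [((nat_lit 43), (nat_lit 2), (nat_lit 1000))])], ⟨(nat_lit 5), false, false, true, (nat_lit 189), (nat_lit 0), (nat_lit 1582), [(nat_lit 1406735), (nat_lit 1399996), (nat_lit 1476683), (nat_lit 1474999), (nat_lit 1475027), (nat_lit 1462493), (nat_lit 1544976), (nat_lit 1537497)]⟩, ⟨(nat_lit 3), false, false, false, (nat_lit 139), (nat_lit 0), (nat_lit 1582), [(nat_lit 1297467), (nat_lit 1299999), (nat_lit 1342789), (nat_lit 1348691), (nat_lit 1352101), (nat_lit 1349997), (nat_lit 1398733), (nat_lit 1399999)]⟩, (nat_lit 4244591), (nat_lit 47681174), (nat_lit 11909714), (nat_lit 7409112), (nat_lit 0), (nat_lit 0), [⟨(nat_lit 1), (nat_lit 98), (nat_lit 31),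 (nat_lit 100), (nat_lit 446945230)⟩], [], [], [],
 ⟨⟨[(nat_lit 40), (nat_lit 60)], [(nat_lit 0), (nat_lit 2136)], [((nat_lit 0), (nat_lit 0), (nat_lit 0)), ((nat_lit 1000), (nat_lit 343), (nat_lit 808))], ((nat_lit 37), (nat_lit 100), (nat_lit 75))⟩, (nat_lit 432138), (nat_lit 223), (nat_lit 223), (nat_lit 0), (nat_lit 612503), [(nat_lit 1392000001), (nat_lit 0)], [(nat_lit 0), (nat_lit 633200000)], [(nat_lit 23326990240), (nat_lit 24002782760), (nat_lit 24682794658), (nat_lit 25439741570), (nat_lit 23700963165), (nat_lit 24278325605), (nat_lit 24957331848), (nat_lit 25513460940)], (nat_lit 1271251), (nat_lit 1271251), (nat_lit 1271251), (nat_lit 1271251), (nat_lit 780000), (nat_lit 1100000), [(nat_lit 490000), (nat_lit 780000)], [(nat_lit 1), (nat_lit 38), (nat_lit 203), (nat_lit 0), (nat_lit 9)]⟩,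
 Rw.none,
 Rw.none⟩))) (.ord (.spl (nat_lit 0) (nat_lit 390) (.leaf ⟨(nat_lit 991), (nat_lit 0), (nat_lit 0), (nat_lit 9), (nat_lit 0), (nat_lit 3431), (nat_lit 178), (nat_lit 147), (nat_lit 0), (nat_lit 124688783529), (nat_lit 594600), [((nat_lit 390), [((nat_lit 43), (nat_lit 2), (nat_lit 991))])], ⟨(nat_lit 5), false, false, true, (nat_lit 206), (nat_lit 1581), (nat_lit 2237), [(nat_lit 1454450), (nat_lit 1453368), (nat_lit 1477224), (nat_lit 1476683), (nat_lit 1554227), (nat_lit 1548981), (nat_lit 1577001), (nat_lit 1572296)]⟩, ⟨(nat_lit 4), false, false, false, (nat_lit 153), (nat_lit 1581), (nat_lit 2237), [(nat_lit 1340340), (nat_lit 1344018), (nat_lit 1363068), (nat_lit 1367287), (nat_lit 1397434), (nat_lit 1398733), (nat_lit 1420170), (nat_lit 1422009)]⟩, (nat_lit 4533143), (nat_lit 45339979), (nat_lit 13327737), (nat_lit 8332284), (nat_lit 0), (nat_lit 0), [⟨(nat_lit 1), (nat_lit 98), (nat_lit 38), (nat_lit 100), (nat_lit 329464692)⟩],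 [], [], [],
 ⟨⟨[(nat_lit 40), (nat_lit 60)], [(nat_lit 0), (nat_lit 1539)], [((nat_lit 0), (nat_lit 0), (nat_lit 0)), ((nat_lit 1000), (nat_lit 478), (nat_lit 704))], ((nat_lit 48), (nat_lit 100), (nat_lit 69))⟩, (nat_lit 22855), (nat_lit 191), (nat_lit 191), (nat_lit 0), (nat_lit 494016), [(nat_lit 1395654001), (nat_lit 0)], [(nat_lit 0), (nat_lit 597963200)], [(nat_lit 22870139895), (nat_lit 23474042463), (nat_lit 24938494590), (nat_lit 25474190971), (nat_lit 23280490427), (nat_lit 23854064101), (nat_lit 25250254844), (nat_lit 25757995668)], (nat_lit 1271251), (nat_lit 1271251), (nat_lit 1271251), (nat_lit 1271251), (nat_lit 780000), (nat_lit 1100000), [(nat_lit 490000), (nat_lit 780000)], [(nat_lit 1), (nat_lit 38), (nat_lit 203), (nat_lit 0), (nat_lit 9)]⟩,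
 ⟨⟨[(nat_lit 120), (nat_lit 160), (nat_lit 180)], [(nat_lit 0), (nat_lit 0), (nat_lit 1613)], [((nat_lit 0), (nat_lit 0), (nat_lit 0)), ((nat_lit 0), (nat_lit 0), (nat_lit 0)), ((nat_lit 620), (nat_lit 1000), (nat_lit 670))], ((nat_lit 100), (nat_lit 65), (nat_lit 64))⟩, (nat_lit 774829), (nat_lit 1907), (nat_lit 1907), (nat_lit 0), (nat_lit 3298626), [(nat_lit 71712000), (nat_lit 106848000), (nat_lit 126522000)], [], [(nat_lit 334326096), (nat_lit 335420093), (nat_lit 356221304), (nat_lit 355064793), (nat_lit 671242972), (nat_lit 721256172), (nat_lit 399053616), (nat_lit 449155582)], (nat_lit 1100000), (nat_lit 1271251), (nat_lit 1271251), (nat_lit 1271251), (nat_lit 0), (nat_lit 2825001), [(nat_lit 1695001), (nat_lit 1271251), (nat_lit 1271251)], [(nat_lit 28), (nat_lit 65), (nat_lit 583), (nat_lit 225), (nat_lit 13)]⟩,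
 ⟨⟨[(nat_lit 120), (nat_lit 160), (nat_lit 180)], [(nat_lit 0), (nat_lit 0), (nat_lit 1613)], [((nat_lit 0), (nat_lit 0), (nat_lit 0)), ((nat_lit 0), (nat_lit 0), (nat_lit 0)), ((nat_lit 620), (nat_lit 1000), (nat_lit 670))], ((nat_lit 100), (nat_lit 65), (nat_lit 64))⟩, (nat_lit 66029), (nat_lit 300), (nat_lit 1946), (nat_lit 667800), (nat_lit 3298626), [(nat_lit 71712000), (nat_lit 106848000), (nat_lit 126522000)], [], [(nat_lit 531348468), (nat_lit 512213916), (nat_lit 475802829), (nat_lit 459686997), (nat_lit 588191484), (nat_lit 628904828), (nat_lit 653869224), (nat_lit 695436417)], (nat_lit 1100000), (nat_lit 1271251), (nat_lit 780000), (nat_lit 1100000), (nat_lit 0), (nat_lit 2825001), [(nat_lit 1695001), (nat_lit 1271251), (nat_lit 1271251)], [(nat_lit 28), (nat_lit 65), (nat_lit 579), (nat_lit 200), (nat_lit 14)]⟩⟩) (.trX (nat_lit 3) (nat_lit 0) (nat_lit 1) (nat_lit 31) (nat_lit 98) (nat_lit 100) (nat_lit 250) (.leaf ⟨(nat_lit 1000), (nat_lit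 0), (nat_lit 0), (nat_lit 0), (nat_lit 0), (nat_lit 3491), (nat_lit 0), (nat_lit 0), (nat_lit 0), (nat_lit 586998263598), (nat_lit 600000), [((nat_lit 400), [((nat_lit 43), (nat_lit 2), (nat_lit 1000))])], ⟨(nat_lit 5), false, false, true, (nat_lit 199), (nat_lit 0), (nat_lit 1582), [(nat_lit 1453367), (nat_lit 1449998), (nat_lit 1476683), (nat_lit 1474999), (nat_lit 1521659), (nat_lit 1512494), (nat_lit 1544976), (nat_lit 1537497)]⟩, ⟨(nat_lit 4), false, false, false, (nat_lit 154), (nat_lit 0), (nat_lit 1582), [(nat_lit 1342789), (nat_lit 1348691), (nat_lit 1365448), (nat_lit 1373034), (nat_lit 1398733), (nat_lit 1399999), (nat_lit 1421394), (nat_lit 1424345)]⟩, (nat_lit 4485856), (nat_lit 45860111), (nat_lit 12669984), (nat_lit 8469905), (nat_lit 0), (nat_lit 0), [⟨(nat_lit 1), (nat_lit 98), (nat_lit 31), (nat_lit 100), (nat_lit 418843441)⟩], [], [], [],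
 ⟨⟨[(nat_lit 40), (nat_lit 60)], [(nat_lit 0), (nat_lit 2136)], [((nat_lit 0), (nat_lit 0), (nat_lit 0)), ((nat_lit 1000), (nat_lit 343), (nat_lit 808))], ((nat_lit 37), (nat_lit 100), (nat_lit 75))⟩, (nat_lit 9629), (nat_lit 205), (nat_lit 205), (nat_lit 0), (nat_lit 543736), [(nat_lit 1392000003), (nat_lit 0)], [(nat_lit 0), (nat_lit 633200000)], [(nat_lit 23298079956), (nat_lit 24016392917), (nat_lit 24695474374), (nat_lit 25453628001), (nat_lit 23670695006), (nat_lit 24248907985), (nat_lit 24927355656), (nat_lit 25524960923)], (nat_lit 1271251), (nat_lit 1271251), (nat_lit 1271251), (nat_lit 1271251), (nat_lit 780000), (nat_lit 1100000), [(nat_lit 490000), (nat_lit 780000)], [(nat_lit 1), (nat_lit 38), (nat_lit 203), (nat_lit 0), (nat_lit 9)]⟩,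
 Rw.none,
 Rw.none⟩)))))))
noncomputable def c13_2 : Tr Lf :=
 (.ord (.trX (nat_lit 4) (nat_lit 0) (nat_lit 2) (nat_lit 44) (nat_lit 99) (nat_lit 100) (nat_lit 250) (.leaf ⟨(nat_lit 1000), (nat_lit 0), (nat_lit 0), (nat_lit 0), (nat_lit 0), (nat_lit 3452), (nat_lit 0), (nat_lit 0), (nat_lit 0), (nat_lit 2038168369297), (nat_lit 600000), [((nat_lit 400), [((nat_lit 43), (nat_lit 2), (nat_lit 1000))])], ⟨(nat_lit 3), false, false, true, (nat_lit 150), (nat_lit 0), (nat_lit 2237), [(nat_lit 1294870), (nat_lit 1299999), (nat_lit 1338589), (nat_lit 1348168), (nat_lit 1408898), (nat_lit 1399996), (nat_lit 1454449), (nat_lit 1449998)]⟩, ⟨(nat_lit 4), false, false, true, (nat_lit 174), (nat_lit 0), (nat_lit 2237), [(nat_lit 1351885), (nat_lit 1349998), (nat_lit 1397434), (nat_lit 1399999), (nat_lit 1480164), (nat_lit 1462492), (nat_lit 1525715), (nat_lit 1512494)]⟩, (nat_lit 4214757), (nat_lit 48191397), (nat_lit 8305433), (nat_lit 10503170), (nat_lit 0),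 (nat_lit 0), [], [⟨(nat_lit 1), (nat_lit 100), (nat_lit 31), (nat_lit 95), (nat_lit 418338479)⟩], [], [],
 ⟨⟨[(nat_lit 40), (nat_lit 60)], [(nat_lit 0), (nat_lit 1539)], [((nat_lit 0), (nat_lit 0), (nat_lit 0)), ((nat_lit 1000), (nat_lit 478), (nat_lit 704))], ((nat_lit 48), (nat_lit 100), (nat_lit 69))⟩, (nat_lit 211838), (nat_lit 225), (nat_lit 225), (nat_lit 0), (nat_lit 614791), [(nat_lit 1392000013), (nat_lit 0)], [(nat_lit 0), (nat_lit 633200000)], [(nat_lit 21777450135), (nat_lit 23067966777), (nat_lit 23202812043), (nat_lit 24353206905), (nat_lit 24163417913), (nat_lit 25404394293), (nat_lit 25316284874), (nat_lit 26311780761)], (nat_lit 1271251), (nat_lit 1271251), (nat_lit 780000), (nat_lit 1435001), (nat_lit 1100000), (nat_lit 1870626), [(nat_lit 490000), (nat_lit 780000)], [(nat_lit 1), (nat_lit 38), (nat_lit 203), (nat_lit 0), (nat_lit 10)]⟩,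
 Rw.none,
 Rw.none⟩)))
noncomputable def c13_3 : Tr Lf :=
 (.spl (nat_lit 4) (nat_lit 200) (.leaf ⟨(nat_lit 1000), (nat_lit 0), (nat_lit 0), (nat_lit 0), (nat_lit 0), (nat_lit 3521), (nat_lit 0), (nat_lit 0), (nat_lit 0), (nat_lit 41594), (nat_lit 600000), [((nat_lit 400), [((nat_lit 43), (nat_lit 2), (nat_lit 1000))])], ⟨(nat_lit 4), false, false, false, (nat_lit 153), (nat_lit 0), (nat_lit 2237), [(nat_lit 1338589), (nat_lit 1348168), (nat_lit 1360436), (nat_lit 1372242), (nat_lit 1397434), (nat_lit 1399999), (nat_lit 1419294), (nat_lit 1424084)]⟩, ⟨(nat_lit 4), false, false, true, (nat_lit 165), (nat_lit 0), (nat_lit 2237), [(nat_lit 1351885), (nat_lit 1349998), (nat_lit 1419294), (nat_lit 1424084), (nat_lit 1408898), (nat_lit 1399996), (nat_lit 1477224), (nat_lit 1474999)]⟩, (nat_lit 4160639), (nat_lit 48655808), (nat_lit 8618672), (nat_lit 9725520), (nat_lit 0), (nat_lit 0), [], [], [], [],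
 ⟨⟨[(nat_lit 40), (nat_lit 60)], [(nat_lit 0), (nat_lit 1539)], [((nat_lit 0), (nat_lit 0), (nat_lit 0)), ((nat_lit 1000), (nat_lit 478), (nat_lit 704))], ((nat_lit 48), (nat_lit 100), (nat_lit 69))⟩, (nat_lit 300757), (nat_lit 216), (nat_lit 216), (nat_lit 0), (nat_lit 588604), [(nat_lit 1392000001), (nat_lit 0)], [(nat_lit 0), (nat_lit 633200000)], [(nat_lit 21588991928), (nat_lit 23026274724), (nat_lit 22039105116), (nat_lit 23275263453), (nat_lit 22607820202), (nat_lit 24053511527), (nat_lit 23007612812), (nat_lit 24168678075)], (nat_lit 1271251), (nat_lit 1271251), (nat_lit 780000), (nat_lit 1100000), (nat_lit 1100000), (nat_lit 1442501), [(nat_lit 490000), (nat_lit 780000)], [(nat_lit 1), (nat_lit 38), (nat_lit 203), (nat_lit 0), (nat_lit 10)]⟩,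
 Rw.none,
 Rw.none⟩) (.spl (nat_lit 4) (nat_lit 240) (.leaf ⟨(nat_lit 1000), (nat_lit 0), (nat_lit 0), (nat_lit 0), (nat_lit 0), (nat_lit 3490), (nat_lit 0), (nat_lit 0), (nat_lit 0), (nat_lit 175988824445), (nat_lit 600000), [((nat_lit 400), [((nat_lit 43), (nat_lit 2), (nat_lit 1000))])], ⟨(nat_lit 4), false, false, false, (nat_lit 153), (nat_lit 0), (nat_lit 2237), [(nat_lit 1338589), (nat_lit 1348168), (nat_lit 1360436), (nat_lit 1372242), (nat_lit 1397434), (nat_lit 1399999), (nat_lit 1419294), (nat_lit 1424084)]⟩, ⟨(nat_lit 5), false, false, true, (nat_lit 187), (nat_lit 0), (nat_lit 2237), [(nat_lit 1408898), (nat_lit 1399996), (nat_lit 1477224), (nat_lit 1474999), (nat_lit 1465911), (nat_lit 1449992), (nat_lit 1534237), (nat_lit 1524996)]⟩, (nat_lit 4374574), (nat_lit 46888462), (nat_lit 8494294), (nat_lit 11617244), (nat_lit 0), (nat_lit 0), [], [⟨(nat_lit 1), (nat_lit 100), (nat_lit 31), (nat_lit 97), (nat_lit 355465894)⟩], [], [],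
 ⟨⟨[(nat_lit 40), (nat_lit 60)], [(nat_lit 0), (nat_lit 1539)], [((nat_lit 0), (nat_lit 0), (nat_lit 0)), ((nat_lit 1000), (nat_lit 478), (nat_lit 704))], ((nat_lit 48), (nat_lit 100), (nat_lit 69))⟩, (nat_lit 356477), (nat_lit 215), (nat_lit 215), (nat_lit 0), (nat_lit 588604), [(nat_lit 1392000003), (nat_lit 0)], [(nat_lit 0), (nat_lit 633200000)], [(nat_lit 22691881773), (nat_lit 24015155630), (nat_lit 23095311000), (nat_lit 24251582315), (nat_lit 23710102005), (nat_lit 25042657700), (nat_lit 24063470395), (nat_lit 25145121495)], (nat_lit 1271251), (nat_lit 1271251), (nat_lit 780000), (nat_lit 1100000), (nat_lit 1271251), (nat_lit 1271251), [(nat_lit 490000), (nat_lit 780000)], [(nat_lit 1), (nat_lit 38), (nat_lit 203), (nat_lit 0), (nat_lit 9)]⟩,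
 Rw.none,
 Rw.none⟩) (.trX (nat_lit 5) (nat_lit 4) (nat_lit 3) (nat_lit 100) (nat_lit 40) (nat_lit 100) (nat_lit 390) (.leaf ⟨(nat_lit 1000), (nat_lit 0), (nat_lit 0), (nat_lit 0), (nat_lit 0), (nat_lit 3435), (nat_lit 0), (nat_lit 0), (nat_lit 0), (nat_lit 960021777231), (nat_lit 600000), [((nat_lit 400), [((nat_lit 43), (nat_lit 2), (nat_lit 1000))])], ⟨(nat_lit 4), false, false, false, (nat_lit 153), (nat_lit 0), (nat_lit 2237), [(nat_lit 1338589), (nat_lit 1348168), (nat_lit 1360436), (nat_lit 1372242), (nat_lit 1397434), (nat_lit 1399999), (nat_lit 1419294), (nat_lit 1424084)]⟩, ⟨(nat_lit 6), false, false, true, (nat_lit 206), (nat_lit 0), (nat_lit 2237), [(nat_lit 1465911), (nat_lit 1449992), (nat_lit 1534237), (nat_lit 1524996), (nat_lit 1508671), (nat_lit 1487491), (nat_lit 1576997), (nat_lit 1562495)]⟩, (nat_lit 4535471), (nat_lit 45329732), (nat_lit 8361876), (nat_lit 13308392), (nat_lit 0), (nat_lit 0), [], [⟨(nat_lit 1), (nat_lit 94),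 (nat_lit 44), (nat_lit 100), (nat_lit 405460221)⟩], [], [],
 ⟨⟨[(nat_lit 40), (nat_lit 60)], [(nat_lit 0), (nat_lit 1539)], [((nat_lit 0), (nat_lit 0), (nat_lit 0)), ((nat_lit 1000), (nat_lit 478), (nat_lit 704))], ((nat_lit 48), (nat_lit 100), (nat_lit 69))⟩, (nat_lit 375579), (nat_lit 218), (nat_lit 218), (nat_lit 0), (nat_lit 588604), [(nat_lit 1392000001), (nat_lit 0)], [(nat_lit 0), (nat_lit 633200000)], [(nat_lit 23858164690), (nat_lit 24987709415), (nat_lit 24218445975), (nat_lit 25292430625), (nat_lit 24909792067), (nat_lit 26198645239), (nat_lit 25221013285), (nat_lit 26248505665)], (nat_lit 1271251), (nat_lit 1271251), (nat_lit 780000), (nat_lit 1100000), (nat_lit 1271251), (nat_lit 1271251), [(nat_lit 490000), (nat_lit 780000)], [(nat_lit 1), (nat_lit 38), (nat_lit 203), (nat_lit 0), (nat_lit 9)]⟩,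
 Rw.none,
 Rw.none⟩))))
noncomputable def c13_4 : Tr Lf :=
 (.spl (nat_lit 4) (nat_lit 200) (.spl (nat_lit 2) (nat_lit 160) (.leaf ⟨(nat_lit 1000), (nat_lit 0), (nat_lit 0), (nat_lit 0), (nat_lit 0), (nat_lit 3496), (nat_lit 0), (nat_lit 0), (nat_lit 0), (nat_lit 0), (nat_lit 600000), [((nat_lit 400), [((nat_lit 43), (nat_lit 2), (nat_lit 1000))])], ⟨(nat_lit 4), false, false, true, (nat_lit 175), (nat_lit 0), (nat_lit 2237), [(nat_lit 1397434), (nat_lit 1399999), (nat_lit 1419294), (nat_lit 1424084), (nat_lit 1454449), (nat_lit 1449998), (nat_lit 1477224), (nat_lit 1474999)]⟩, ⟨(nat_lit 4), false, false, true, (nat_lit 161), (nat_lit 0), (nat_lit 2237), [(nat_lit 1351885), (nat_lit 1349998), (nat_lit 1397434), (nat_lit 1399999), (nat_lit 1408898), (nat_lit 1399996), (nat_lit 1454449), (nat_lit 1449998)]⟩, (nat_lit 4341167), (nat_lit 47296526), (nat_lit 10506635), (nat_lit 9196839), (nat_lit 0), (nat_lit 0), [], [⟨(nat_lit 1), (nat_lit 100), (nat_lit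 31), (nat_lit 95), (nat_lit 374528456)⟩], [], [],
 ⟨⟨[(nat_lit 40), (nat_lit 60)], [(nat_lit 0), (nat_lit 1539)], [((nat_lit 0), (nat_lit 0), (nat_lit 0)), ((nat_lit 1000), (nat_lit 478), (nat_lit 704))], ((nat_lit 48), (nat_lit 100), (nat_lit 69))⟩, (nat_lit 312757), (nat_lit 207), (nat_lit 207), (nat_lit 0), (nat_lit 587240), [(nat_lit 1392000001), (nat_lit 0)], [(nat_lit 0), (nat_lit 633200000)], [(nat_lit 22110110341), (nat_lit 23342021253), (nat_lit 23078337149), (nat_lit 24235536325), (nat_lit 23078337149), (nat_lit 24235536325), (nat_lit 23977764687), (nat_lit 25065878765)], (nat_lit 1271251), (nat_lit 1271251), (nat_lit 1100000), (nat_lit 1442501), (nat_lit 1100000), (nat_lit 1442501), [(nat_lit 490000), (nat_lit 780000)], [(nat_lit 1), (nat_lit 38), (nat_lit 203), (nat_lit 0), (nat_lit 9)]⟩,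
 Rw.none,
 Rw.none⟩) (.stt (nat_lit 2) (.leaf ⟨(nat_lit 877), (nat_lit 75), (nat_lit 0), (nat_lit 48), (nat_lit 0), (nat_lit 3564), (nat_lit 1632), (nat_lit 523), (nat_lit 0), (nat_lit 2690177), (nat_lit 526200), [((nat_lit 400), [((nat_lit 43), (nat_lit 2), (nat_lit 877))])], ⟨(nat_lit 4), true, false, true, (nat_lit 175), (nat_lit 0), (nat_lit 2237), [(nat_lit 1397434), (nat_lit 1399999), (nat_lit 1419294), (nat_lit 1424084), (nat_lit 1454449), (nat_lit 1449998), (nat_lit 1477224), (nat_lit 1474999)]⟩, ⟨(nat_lit 4), false, false, true, (nat_lit 175), (nat_lit 0), (nat_lit 2237), [(nat_lit 1397434), (nat_lit 1399999), (nat_lit 1419294), (nat_lit 1424084), (nat_lit 1454449), (nat_lit 1449998), (nat_lit 1477224), (nat_lit 1474999)]⟩, (nat_lit 4483638), (nat_lit 46203384), (nat_lit 10398308), (nat_lit 10398308), (nat_lit 4), (nat_lit 0), [], [], [], [],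
 ⟨⟨[(nat_lit 40), (nat_lit 60)], [(nat_lit 0), (nat_lit 1539)], [((nat_lit 0), (nat_lit 0), (nat_lit 0)), ((nat_lit 1000), (nat_lit 478), (nat_lit 704))], ((nat_lit 48), (nat_lit 100), (nat_lit 69))⟩, (nat_lit 19646), (nat_lit 197), (nat_lit 197), (nat_lit 0), (nat_lit 546819), [(nat_lit 1441938038), (nat_lit 0)], [(nat_lit 0), (nat_lit 151630400)], [(nat_lit 22166666314), (nat_lit 23410130222), (nat_lit 23135657136), (nat_lit 24303372070), (nat_lit 23135657136), (nat_lit 24303372070), (nat_lit 24034986278), (nat_lit 25133098892)], (nat_lit 1271251), (nat_lit 1271251), (nat_lit 1100000), (nat_lit 1442501), (nat_lit 1100000), (nat_lit 1442501), [(nat_lit 490000), (nat_lit 780000)], [(nat_lit 1), (nat_lit 38), (nat_lit 203), (nat_lit 0), (nat_lit 9)]⟩,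
 ⟨⟨[(nat_lit 120), (nat_lit 160), (nat_lit 180)], [(nat_lit 0), (nat_lit 0), (nat_lit 1613)], [((nat_lit 0), (nat_lit 0), (nat_lit 0)), ((nat_lit 0), (nat_lit 0), (nat_lit 0)), ((nat_lit 620), (nat_lit 1000), (nat_lit 670))], ((nat_lit 100), (nat_lit 65), (nat_lit 64))⟩, (nat_lit 841495), (nat_lit 278), (nat_lit 278), (nat_lit 0), (nat_lit 0), [(nat_lit 980064000), (nat_lit 1460256000), (nat_lit 1729134000)], [], [(nat_lit 3612572400), (nat_lit 3693955377), (nat_lit 3775338354), (nat_lit 3877194594), (nat_lit 4640086524), (nat_lit 4634099841), (nat_lit 4628113158), (nat_lit 4614512822)], (nat_lit 0), (nat_lit 0), (nat_lit 0), (nat_lit 0), (nat_lit 0), (nat_lit 0), [], [(nat_lit 28), (nat_lit 65), (nat_lit 428), (nat_lit 200), (nat_lit 10)]⟩,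
 ⟨⟨[(nat_lit 120), (nat_lit 160), (nat_lit 180)], [(nat_lit 0), (nat_lit 0), (nat_lit 1613)], [((nat_lit 0), (nat_lit 0), (nat_lit 0)), ((nat_lit 0), (nat_lit 0), (nat_lit 0)), ((nat_lit 620), (nat_lit 1000), (nat_lit 670))], ((nat_lit 100), (nat_lit 65), (nat_lit 64))⟩, (nat_lit 58501), (nat_lit 300), (nat_lit 2206), (nat_lit 3561600), (nat_lit 3844428), [(nat_lit 382464000), (nat_lit 569856000), (nat_lit 674784000)], [], [(nat_lit 3086893682), (nat_lit 3055784457), (nat_lit 3024675232), (nat_lit 2993606060), (nat_lit 3088194900), (nat_lit 3247029705), (nat_lit 3405862226), (nat_lit 3567577192)], (nat_lit 1100000), (nat_lit 1271251), (nat_lit 1100000), (nat_lit 1442501), (nat_lit 0), (nat_lit 2825001), [(nat_lit 1695001), (nat_lit 1271251), (nat_lit 1271251)], [(nat_lit 28), (nat_lit 65), (nat_lit 649), (nat_lit 200), (nat_lit 15)]⟩⟩) (.leaf ⟨(nat_lit 1000), (nat_lit 0), (nat_lit 0), (nat_lit 0), (nat_lit 0), (nat_lit 3357), (nat_lit 0), (nat_lit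 0), (nat_lit 0), (nat_lit 1403988189193), (nat_lit 549000), [((nat_lit 400), [((nat_lit 28), (nat_lit 1), (nat_lit 255)), ((nat_lit 43), (nat_lit 2), (nat_lit 745))])], ⟨(nat_lit 4), false, false, true, (nat_lit 175), (nat_lit 0), (nat_lit 2237), [(nat_lit 1397434), (nat_lit 1399999), (nat_lit 1419294), (nat_lit 1424084), (nat_lit 1454449), (nat_lit 1449998), (nat_lit 1477224), (nat_lit 1474999)]⟩, ⟨(nat_lit 4), false, false, true, (nat_lit 175), (nat_lit 0), (nat_lit 2237), [(nat_lit 1397434), (nat_lit 1399999), (nat_lit 1419294), (nat_lit 1424084), (nat_lit 1454449), (nat_lit 1449998), (nat_lit 1477224), (nat_lit 1474999)]⟩, (nat_lit 4483638), (nat_lit 46203384), (nat_lit 10398308), (nat_lit 10398308), (nat_lit 0), (nat_lit 0), [], [], [], [],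
 ⟨⟨[(nat_lit 40), (nat_lit 60)], [(nat_lit 0), (nat_lit 1539)], [((nat_lit 0), (nat_lit 0), (nat_lit 0)), ((nat_lit 1000), (nat_lit 478), (nat_lit 704))], ((nat_lit 48), (nat_lit 100), (nat_lit 69))⟩, (nat_lit 0), (nat_lit 154), (nat_lit 154), (nat_lit 0), (nat_lit 409584), [(nat_lit 1392816001), (nat_lit 0)], [(nat_lit 0), (nat_lit 388910000)], [(nat_lit 21839849780), (nat_lit 23132512168), (nat_lit 22848842960), (nat_lit 24062084668), (nat_lit 22848842960), (nat_lit 24062084668), (nat_lit 23787187460), (nat_lit 24927144024)], (nat_lit 1271251), (nat_lit 1271251), (nat_lit 1100000), (nat_lit 1442501), (nat_lit 1100000), (nat_lit 1442501), [(nat_lit 490000), (nat_lit 780000)], [(nat_lit 1), (nat_lit 38), (nat_lit 203), (nat_lit 0), (nat_lit 9)]⟩,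
 Rw.none,
 Rw.none⟩))) (.spl (nat_lit 2) (nat_lit 160) (.trX (nat_lit 4) (nat_lit 0) (nat_lit 2) (nat_lit 44) (nat_lit 99) (nat_lit 100) (nat_lit 250) (.leaf ⟨(nat_lit 1000), (nat_lit 0), (nat_lit 0), (nat_lit 0), (nat_lit 0), (nat_lit 3452), (nat_lit 0), (nat_lit 0), (nat_lit 0), (nat_lit 0), (nat_lit 600000), [((nat_lit 400), [((nat_lit 43), (nat_lit 2), (nat_lit 1000))])], ⟨(nat_lit 4), false, false, true, (nat_lit 175), (nat_lit 0), (nat_lit 2237), [(nat_lit 1397434), (nat_lit 1399999), (nat_lit 1419294), (nat_lit 1424084), (nat_lit 1454449), (nat_lit 1449998), (nat_lit 1477224), (nat_lit 1474999)]⟩, ⟨(nat_lit 5), false, false, true, (nat_lit 185), (nat_lit 0), (nat_lit 2237), [(nat_lit 1408898), (nat_lit 1399996), (nat_lit 1454449), (nat_lit 1449998), (nat_lit 1480164), (nat_lit 1462492), (nat_lit 1525715), (nat_lit 1512494)]⟩, (nat_lit 4574357), (nat_lit 45440485), (nat_lit 10315361), (nat_lit 11244154), (nat_lit 0), (nat_lit 0), [], [⟨(nat_lit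 1), (nat_lit 100), (nat_lit 31), (nat_lit 95), (nat_lit 404829927)⟩, ⟨(nat_lit 1), (nat_lit 99), (nat_lit 44), (nat_lit 100), (nat_lit 20151038)⟩], [], [],
 ⟨⟨[(nat_lit 40), (nat_lit 60)], [(nat_lit 0), (nat_lit 1539)], [((nat_lit 0), (nat_lit 0), (nat_lit 0)), ((nat_lit 1000), (nat_lit 478), (nat_lit 704))], ((nat_lit 48), (nat_lit 100), (nat_lit 69))⟩, (nat_lit 270566), (nat_lit 206), (nat_lit 206), (nat_lit 0), (nat_lit 587240), [(nat_lit 1392000002), (nat_lit 0)], [(nat_lit 0), (nat_lit 633200000)], [(nat_lit 23202811988), (nat_lit 24353206850), (nat_lit 24102303194), (nat_lit 25184230630), (nat_lit 24505157677), (nat_lit 25562112150), (nat_lit 25316284819), (nat_lit 26311780761)], (nat_lit 1271251), (nat_lit 1271251), (nat_lit 1100000), (nat_lit 1442501), (nat_lit 1271251), (nat_lit 1271251), [(nat_lit 490000), (nat_lit 780000)], [(nat_lit 1), (nat_lit 38), (nat_lit 203), (nat_lit 0), (nat_lit 9)]⟩,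
 Rw.none,
 Rw.none⟩)) (.stt (nat_lit 2) (.leaf ⟨(nat_lit 864), (nat_lit 88), (nat_lit 0), (nat_lit 48), (nat_lit 0), (nat_lit 3488), (nat_lit 1766), (nat_lit 541), (nat_lit 0), (nat_lit 64545787), (nat_lit 518400), [((nat_lit 400), [((nat_lit 43), (nat_lit 2), (nat_lit 864))])], ⟨(nat_lit 4), true, false, true, (nat_lit 175), (nat_lit 0), (nat_lit 2237), [(nat_lit 1397434), (nat_lit 1399999), (nat_lit 1419294), (nat_lit 1424084), (nat_lit 1454449), (nat_lit 1449998), (nat_lit 1477224), (nat_lit 1474999)]⟩, ⟨(nat_lit 5), false, false, true, (nat_lit 204), (nat_lit 0), (nat_lit 2237), [(nat_lit 1454449), (nat_lit 1449998), (nat_lit 1477224), (nat_lit 1474999), (nat_lit 1554222), (nat_lit 1537494), (nat_lit 1576997), (nat_lit 1562495)]⟩, (nat_lit 4736968), (nat_lit 43902266), (nat_lit 10131150), (nat_lit 12966584), (nat_lit 5), (nat_lit 0), [], [⟨(nat_lit 1), (nat_lit 100), (nat_lit 32), (nat_lit 100), (nat_lit 361096297)⟩], [], [],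
 ⟨⟨[(nat_lit 40), (nat_lit 60)], [(nat_lit 0), (nat_lit 1539)], [((nat_lit 0), (nat_lit 0), (nat_lit 0)), ((nat_lit 1000), (nat_lit 478), (nat_lit 704))], ((nat_lit 48), (nat_lit 100), (nat_lit 69))⟩, (nat_lit 13791), (nat_lit 198), (nat_lit 198), (nat_lit 0), (nat_lit 546819), [(nat_lit 1447216103), (nat_lit 0)], [(nat_lit 0), (nat_lit 100732800)], [(nat_lit 23377049447), (nat_lit 24533011475), (nat_lit 24276488561), (nat_lit 25363477795), (nat_lit 25351720631), (nat_lit 26374458143), (nat_lit 26121673021), (nat_lit 27085291065)], (nat_lit 1271251), (nat_lit 1271251), (nat_lit 1100000), (nat_lit 1442501), (nat_lit 1271251), (nat_lit 1271251), [(nat_lit 490000), (nat_lit 780000)], [(nat_lit 1), (nat_lit 38), (nat_lit 203), (nat_lit 0), (nat_lit 9)]⟩,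
 ⟨⟨[(nat_lit 120), (nat_lit 160), (nat_lit 180)], [(nat_lit 0), (nat_lit 0), (nat_lit 1613)], [((nat_lit 0), (nat_lit 0), (nat_lit 0)), ((nat_lit 0), (nat_lit 0), (nat_lit 0)), ((nat_lit 620), (nat_lit 1000), (nat_lit 670))], ((nat_lit 100), (nat_lit 65), (nat_lit 64))⟩, (nat_lit 837182), (nat_lit 278), (nat_lit 278), (nat_lit 0), (nat_lit 0), [(nat_lit 1083648000), (nat_lit 1614592000), (nat_lit 1911888000)], [], [(nat_lit 4029676616), (nat_lit 4119210854), (nat_lit 4208745092), (nat_lit 4282805783), (nat_lit 5132291240), (nat_lit 5127065654), (nat_lit 5121840068), (nat_lit 5108346563)], (nat_lit 0), (nat_lit 0), (nat_lit 0), (nat_lit 0), (nat_lit 0), (nat_lit 0), [], [(nat_lit 28), (nat_lit 65), (nat_lit 428), (nat_lit 200), (nat_lit 10)]⟩,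
 ⟨⟨[(nat_lit 120), (nat_lit 160), (nat_lit 180)], [(nat_lit 0), (nat_lit 0), (nat_lit 1613)], [((nat_lit 0), (nat_lit 0), (nat_lit 0)), ((nat_lit 0), (nat_lit 0), (nat_lit 0)), ((nat_lit 620), (nat_lit 1000), (nat_lit 670))], ((nat_lit 100), (nat_lit 65), (nat_lit 64))⟩, (nat_lit 45720), (nat_lit 300), (nat_lit 2188), (nat_lit 3561600), (nat_lit 3844428), [(nat_lit 382464000), (nat_lit 569856000), (nat_lit 674784000)], [], [(nat_lit 2908555784), (nat_lit 2879341323), (nat_lit 2827379567), (nat_lit 2799368177), (nat_lit 3038591734), (nat_lit 3204740784), (nat_lit 2212621197), (nat_lit 2377738429)], (nat_lit 1100000), (nat_lit 1271251), (nat_lit 1271251), (nat_lit 1271251), (nat_lit 0), (nat_lit 2825001), [(nat_lit 1695001), (nat_lit 1271251), (nat_lit 1271251)], [(nat_lit 28), (nat_lit 65), (nat_lit 654), (nat_lit 225), (nat_lit 15)]⟩⟩) (.leaf ⟨(nat_lit 970), (nat_lit 0), (nat_lit 0), (nat_lit 30), (nat_lit 0), (nat_lit 3301), (nat_lit 408), (nat_lit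 430), (nat_lit 0), (nat_lit 6857623933878), (nat_lit 477600), [((nat_lit 400), [((nat_lit 28), (nat_lit 1), (nat_lit 522)), ((nat_lit 43), (nat_lit 2), (nat_lit 448))])], ⟨(nat_lit 4), false, false, true, (nat_lit 175), (nat_lit 0), (nat_lit 2237), [(nat_lit 1397434), (nat_lit 1399999), (nat_lit 1419294), (nat_lit 1424084), (nat_lit 1454449), (nat_lit 1449998), (nat_lit 1477224), (nat_lit 1474999)]⟩, ⟨(nat_lit 5), false, false, true, (nat_lit 204), (nat_lit 0), (nat_lit 2237), [(nat_lit 1454449), (nat_lit 1449998), (nat_lit 1477224), (nat_lit 1474999), (nat_lit 1554222), (nat_lit 1537494), (nat_lit 1576997), (nat_lit 1562495)]⟩, (nat_lit 4736968), (nat_lit 43902266), (nat_lit 10131150), (nat_lit 12966584), (nat_lit 0), (nat_lit 0), [], [⟨(nat_lit 1), (nat_lit 100), (nat_lit 32), (nat_lit 100), (nat_lit 236902457)⟩, ⟨(nat_lit 1), (nat_lit 94), (nat_lit 44), (nat_lit 100), (nat_lit 73389583)⟩], [], [],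
 ⟨⟨[(nat_lit 40), (nat_lit 60)], [(nat_lit 0), (nat_lit 1539)], [((nat_lit 0), (nat_lit 0), (nat_lit 0)), ((nat_lit 1000), (nat_lit 478), (nat_lit 704))], ((nat_lit 48), (nat_lit 100), (nat_lit 69))⟩, (nat_lit 0), (nat_lit 156), (nat_lit 156), (nat_lit 0), (nat_lit 409584), [(nat_lit 1405850411), (nat_lit 0)], [(nat_lit 0), (nat_lit 15668000)], [(nat_lit 23025647352), (nat_lit 24229394596), (nat_lit 23963886558), (nat_lit 25095209504), (nat_lit 25080398693), (nat_lit 26143885665), (nat_lit 25886102629), (nat_lit 26887798707)], (nat_lit 1271251), (nat_lit 1271251), (nat_lit 1100000), (nat_lit 1442501), (nat_lit 1271251), (nat_lit 1271251), [(nat_lit 490000), (nat_lit 780000)], [(nat_lit 1), (nat_lit 38), (nat_lit 203), (nat_lit 0), (nat_lit 9)]⟩,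
 ⟨⟨[(nat_lit 120), (nat_lit 160), (nat_lit 180)], [(nat_lit 0), (nat_lit 0), (nat_lit 1613)], [((nat_lit 0), (nat_lit 0), (nat_lit 0)), ((nat_lit 0), (nat_lit 0), (nat_lit 0)), ((nat_lit 620), (nat_lit 1000), (nat_lit 670))], ((nat_lit 100), (nat_lit 65), (nat_lit 64))⟩, (nat_lit 79551), (nat_lit 2206), (nat_lit 2206), (nat_lit 0), (nat_lit 3844428), [(nat_lit 239040000), (nat_lit 356160000), (nat_lit 421740000)], [], [(nat_lit 1359145632), (nat_lit 1346503746), (nat_lit 1334216577), (nat_lit 1325641095), (nat_lit 2054173944), (nat_lit 2172983112), (nat_lit 2291790528), (nat_lit 2412846552)], (nat_lit 1100000), (nat_lit 1271251), (nat_lit 1100000), (nat_lit 1442501), (nat_lit 0), (nat_lit 2825001), [(nat_lit 1695001), (nat_lit 1271251), (nat_lit 1271251)], [(nat_lit 28), (nat_lit 65), (nat_lit 649), (nat_lit 200), (nat_lit 15)]⟩,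
 ⟨⟨[(nat_lit 120), (nat_lit 160), (nat_lit 180)], [(nat_lit 0), (nat_lit 0), (nat_lit 1613)], [((nat_lit 0), (nat_lit 0), (nat_lit 0)), ((nat_lit 0), (nat_lit 0), (nat_lit 0)), ((nat_lit 620), (nat_lit 1000), (nat_lit 670))], ((nat_lit 100), (nat_lit 65), (nat_lit 64))⟩, (nat_lit 13109), (nat_lit 300), (nat_lit 1748), (nat_lit 2226000), (nat_lit 2977698), [(nat_lit 239040000), (nat_lit 356160000), (nat_lit 421740000)], [], [(nat_lit 1600764660), (nat_lit 1585118505), (nat_lit 1574140950), (nat_lit 1556481147), (nat_lit 2020928260), (nat_lit 2147403720), (nat_lit 1359551925), (nat_lit 1490082070)], (nat_lit 1100000), (nat_lit 1271251), (nat_lit 1271251), (nat_lit 1271251), (nat_lit 0), (nat_lit 2825001), [(nat_lit 1695001), (nat_lit 1271251), (nat_lit 1271251)], [(nat_lit 28), (nat_lit 65), (nat_lit 544), (nat_lit 225), (nat_lit 13)]⟩⟩))))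
noncomputable def c13_5 : Tr Lf :=
 (.spl (nat_lit 2) (nat_lit 160) (.trX (nat_lit 4) (nat_lit 0) (nat_lit 2) (nat_lit 44) (nat_lit 99) (nat_lit 100) (nat_lit 250) (.stt (nat_lit 2) (.spl (nat_lit 6) (nat_lit 24) (.stt (nat_lit 3) (.leaf ⟨(nat_lit 738), (nat_lit 188), (nat_lit 0), (nat_lit 74), (nat_lit 0), (nat_lit 3650), (nat_lit 3990), (nat_lit 1812), (nat_lit 0), (nat_lit 2039514822662), (nat_lit 295200), [((nat_lit 400), [((nat_lit 27), (nat_lit 1), (nat_lit 738))])], ⟨(nat_lit 5), true, false, true, (nat_lit 195), (nat_lit 0), (nat_lit 2237), [(nat_lit 1408898), (nat_lit 1399996), (nat_lit 1477224), (nat_lit 1474999), (nat_lit 1508671), (nat_lit 1487491), (nat_lit 1576997), (nat_lit 1562495)]⟩, ⟨(nat_lit 4), true, false, true, (nat_lit 174), (nat_lit 0), (nat_lit 2237), [(nat_lit 1351885), (nat_lit 1349998), (nat_lit 1397434), (nat_lit 1399999), (nat_lit 1480164), (nat_lit 1462492), (nat_lit 1525715), (nat_lit 1512494)]⟩, (nat_lit 4653246),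 (nat_lit 44713181), (nat_lit 12135187), (nat_lit 10151632), (nat_lit 4), (nat_lit 0), [⟨(nat_lit 1), (nat_lit 100), (nat_lit 31), (nat_lit 97), (nat_lit 264695973)⟩], [⟨(nat_lit 1), (nat_lit 100), (nat_lit 31), (nat_lit 95), (nat_lit 304357205)⟩], [], [⟨(nat_lit 0), (nat_lit 100), (nat_lit 98), (nat_lit 20), (nat_lit 268010)⟩],
 ⟨⟨[(nat_lit 40), (nat_lit 60)], [(nat_lit 0), (nat_lit 1539)], [((nat_lit 0), (nat_lit 0), (nat_lit 0)), ((nat_lit 1000), (nat_lit 478), (nat_lit 704))], ((nat_lit 54), (nat_lit 100), (nat_lit 59))⟩, (nat_lit 0), (nat_lit 215), (nat_lit 215), (nat_lit 0), (nat_lit 611769), [(nat_lit 1500733652), (nat_lit 1099291200)], [(nat_lit 0), (nat_lit 0)], [(nat_lit 23186343485), (nat_lit 24367357760), (nat_lit 25174960217), (nat_lit 26486501850), (nat_lit 25303412467), (nat_lit 26510446388), (nat_lit 27144444449), (nat_lit 28347725060)], (nat_lit 1271251), (nat_lit 1271251), (nat_lit 1271251), (nat_lit 1271251), (nat_lit 1100000),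 (nat_lit 1870626), [(nat_lit 490000), (nat_lit 780000)], [(nat_lit 1), (nat_lit 38), (nat_lit 203), (nat_lit 0), (nat_lit 9)]⟩,
 ⟨⟨[(nat_lit 140), (nat_lit 160), (nat_lit 180)], [(nat_lit 0), (nat_lit 0), (nat_lit 799)], [((nat_lit 0), (nat_lit 0), (nat_lit 0)), ((nat_lit 0), (nat_lit 0), (nat_lit 0)), ((nat_lit 728), (nat_lit 1000), (nat_lit 454))], ((nat_lit 100), (nat_lit 67), (nat_lit 52))⟩, (nat_lit 2514920), (nat_lit 308), (nat_lit 308), (nat_lit 0), (nat_lit 0), [(nat_lit 2578604000), (nat_lit 3110464000), (nat_lit 3683196000)], [], [(nat_lit 9106600520), (nat_lit 8988074781), (nat_lit 10316711336), (nat_lit 10098366519), (nat_lit 10275653948), (nat_lit 9747588746), (nat_lit 10754394548), (nat_lit 10320297604)], (nat_lit 0), (nat_lit 0), (nat_lit 0), (nat_lit 0), (nat_lit 0), (nat_lit 0), [], [(nat_lit 31), (nat_lit 65), (nat_lit 456), (nat_lit 225), (nat_lit 11)]⟩,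
 ⟨⟨[(nat_lit 140), (nat_lit 160), (nat_lit 180)], [(nat_lit 0), (nat_lit 0), (nat_lit 799)], [((nat_lit 0), (nat_lit 0), (nat_lit 0)), ((nat_lit 0), (nat_lit 0), (nat_lit 0)), ((nat_lit 728), (nat_lit 1000), (nat_lit 454))], ((nat_lit 100), (nat_lit 67), (nat_lit 52))⟩, (nat_lit 65017), (nat_lit 300), (nat_lit 366), (nat_lit 5490800), (nat_lit 0), [(nat_lit 728308000), (nat_lit 878528000), (nat_lit 1040292000)], [], [(nat_lit 3946710008), (nat_lit 3711347752), (nat_lit 3880257644), (nat_lit 3621023368), (nat_lit 3526630888), (nat_lit 3326690584), (nat_lit 3745631831), (nat_lit 3513131889)], (nat_lit 0), (nat_lit 0), (nat_lit 0), (nat_lit 0), (nat_lit 0), (nat_lit 0), [], [(nat_lit 31), (nat_lit 65), (nat_lit 456), (nat_lit 225), (nat_lit 11)]⟩⟩) (.leaf ⟨(nat_lit 1000), (nat_lit 0), (nat_lit 0), (nat_lit 0), (nat_lit 0), (nat_lit 3329), (nat_lit 0), (nat_lit 0), (nat_lit 0), (nat_lit 9848), (nat_lit 600000), [((nat_lit 400), [((nat_lit 43), (nat_lit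 2), (nat_lit 1000))])], ⟨(nat_lit 5), true, false, true, (nat_lit 195), (nat_lit 0), (nat_lit 2237), [(nat_lit 1408898), (nat_lit 1399996), (nat_lit 1477224), (nat_lit 1474999), (nat_lit 1508671), (nat_lit 1487491), (nat_lit 1576997), (nat_lit 1562495)]⟩, ⟨(nat_lit 4), false, false, true, (nat_lit 174), (nat_lit 0), (nat_lit 2237), [(nat_lit 1351885), (nat_lit 1349998), (nat_lit 1397434), (nat_lit 1399999), (nat_lit 1480164), (nat_lit 1462492), (nat_lit 1525715), (nat_lit 1512494)]⟩, (nat_lit 4653246), (nat_lit 44713181), (nat_lit 12135187), (nat_lit 10151632), (nat_lit 0), (nat_lit 0), [⟨(nat_lit 1), (nat_lit 94), (nat_lit 44), (nat_lit 100), (nat_lit 303395242)⟩], [⟨(nat_lit 1), (nat_lit 99), (nat_lit 44), (nat_lit 100), (nat_lit 248082867)⟩], [], [],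
 ⟨⟨[(nat_lit 40), (nat_lit 60)], [(nat_lit 0), (nat_lit 1539)], [((nat_lit 0), (nat_lit 0), (nat_lit 0)), ((nat_lit 1000), (nat_lit 478), (nat_lit 704))], ((nat_lit 54), (nat_lit 100), (nat_lit 59))⟩, (nat_lit 71020), (nat_lit 180), (nat_lit 180), (nat_lit 0), (nat_lit 475542), [(nat_lit 1392000001), (nat_lit 0)], [(nat_lit 0), (nat_lit 633200000)], [(nat_lit 22907912336), (nat_lit 24116406812), (nat_lit 24965423150), (nat_lit 26131168011), (nat_lit 25113149165), (nat_lit 26188367266), (nat_lit 26865455026), (nat_lit 28019934245)], (nat_lit 1271251), (nat_lit 1271251), (nat_lit 1271251), (nat_lit 1271251), (nat_lit 1100000), (nat_lit 1870626), [(nat_lit 490000), (nat_lit 780000)], [(nat_lit 1), (nat_lit 38), (nat_lit 203), (nat_lit 0), (nat_lit 9)]⟩,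
 Rw.none,
 Rw.none⟩)) (.leaf ⟨(nat_lit 1000), (nat_lit 0), (nat_lit 0), (nat_lit 0), (nat_lit 0), (nat_lit 3333), (nat_lit 0), (nat_lit 0), (nat_lit 0), (nat_lit 107081), (nat_lit 400000), [((nat_lit 400), [((nat_lit 28), (nat_lit 1), (nat_lit 1000))])], ⟨(nat_lit 5), true, false, true, (nat_lit 195), (nat_lit 0), (nat_lit 2237), [(nat_lit 1408898), (nat_lit 1399996), (nat_lit 1477224), (nat_lit 1474999), (nat_lit 1508671), (nat_lit 1487491), (nat_lit 1576997), (nat_lit 1562495)]⟩, ⟨(nat_lit 4), false, false, true, (nat_lit 174), (nat_lit 0), (nat_lit 2237), [(nat_lit 1351885), (nat_lit 1349998), (nat_lit 1397434), (nat_lit 1399999), (nat_lit 1480164), (nat_lit 1462492), (nat_lit 1525715), (nat_lit 1512494)]⟩, (nat_lit 4653246), (nat_lit 44713181), (nat_lit 12135187), (nat_lit 10151632), (nat_lit 0), (nat_lit 0), [⟨(nat_lit 1), (nat_lit 94), (nat_lit 44), (nat_lit 100), (nat_lit 303421733)⟩], [⟨(nat_lit 1), (nat_lit 100), (nat_lit 31), (nat_lit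 95), (nat_lit 180086398)⟩, ⟨(nat_lit 1), (nat_lit 99), (nat_lit 44), (nat_lit 100), (nat_lit 127530624)⟩], [], [],
 ⟨⟨[(nat_lit 40), (nat_lit 60)], [(nat_lit 0), (nat_lit 1539)], [((nat_lit 0), (nat_lit 0), (nat_lit 0)), ((nat_lit 1000), (nat_lit 478), (nat_lit 704))], ((nat_lit 48), (nat_lit 100), (nat_lit 69))⟩, (nat_lit 0), (nat_lit 171), (nat_lit 171), (nat_lit 0), (nat_lit 453802), [(nat_lit 1395200003), (nat_lit 324800000)], [(nat_lit 0), (nat_lit 0)], [(nat_lit 22911807576), (nat_lit 24120980228), (nat_lit 24969712601), (nat_lit 26135595847), (nat_lit 25117153852), (nat_lit 26192380713), (nat_lit 26869615884), (nat_lit 28024018865)], (nat_lit 1271251), (nat_lit 1271251), (nat_lit 1271251), (nat_lit 1271251), (nat_lit 1100000), (nat_lit 1870626), [(nat_lit 490000), (nat_lit 780000)], [(nat_lit 1), (nat_lit 38), (nat_lit 203), (nat_lit 0), (nat_lit 9)]⟩,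
 Rw.none,
 Rw.none⟩)) (.leaf ⟨(nat_lit 1000), (nat_lit 0), (nat_lit 0), (nat_lit 0), (nat_lit 0), (nat_lit 3330), (nat_lit 0), (nat_lit 0), (nat_lit 0), (nat_lit 59350), (nat_lit 566400), [((nat_lit 400), [((nat_lit 28), (nat_lit 1), (nat_lit 168)), ((nat_lit 43), (nat_lit 2), (nat_lit 832))])], ⟨(nat_lit 5), false, false, true, (nat_lit 195), (nat_lit 0), (nat_lit 2237), [(nat_lit 1408898), (nat_lit 1399996), (nat_lit 1477224), (nat_lit 1474999), (nat_lit 1508671), (nat_lit 1487491), (nat_lit 1576997), (nat_lit 1562495)]⟩, ⟨(nat_lit 4), false, false, true, (nat_lit 174), (nat_lit 0), (nat_lit 2237), [(nat_lit 1351885), (nat_lit 1349998), (nat_lit 1397434), (nat_lit 1399999), (nat_lit 1480164), (nat_lit 1462492), (nat_lit 1525715), (nat_lit 1512494)]⟩, (nat_lit 4653246), (nat_lit 44713181), (nat_lit 12135187), (nat_lit 10151632), (nat_lit 0), (nat_lit 0), [⟨(nat_lit 1), (nat_lit 94), (nat_lit 44), (nat_lit 100), (nat_lit 303399713)⟩], [⟨(nat_lit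 1), (nat_lit 99), (nat_lit 44), (nat_lit 100), (nat_lit 248079934)⟩], [], [],
 ⟨⟨[(nat_lit 40), (nat_lit 60)], [(nat_lit 0), (nat_lit 1539)], [((nat_lit 0), (nat_lit 0), (nat_lit 0)), ((nat_lit 1000), (nat_lit 478), (nat_lit 704))], ((nat_lit 48), (nat_lit 100), (nat_lit 69))⟩, (nat_lit 0), (nat_lit 181), (nat_lit 181), (nat_lit 0), (nat_lit 478564), [(nat_lit 1392537602), (nat_lit 0)], [(nat_lit 0), (nat_lit 472256000)], [(nat_lit 22907836548), (nat_lit 24116500568), (nat_lit 24965445915), (nat_lit 26132274970), (nat_lit 25113100738), (nat_lit 26189370628), (nat_lit 26865930059), (nat_lit 28020955400)], (nat_lit 1271251), (nat_lit 1271251), (nat_lit 1271251), (nat_lit 1271251), (nat_lit 1100000), (nat_lit 1870626), [(nat_lit 490000), (nat_lit 780000)], [(nat_lit 1), (nat_lit 38), (nat_lit 203), (nat_lit 0), (nat_lit 9)]⟩,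
 Rw.none,
 Rw.none⟩))) (.ord (.stt (nat_lit 3) (.spl (nat_lit 0) (nat_lit 390) (.leaf ⟨(nat_lit 833), (nat_lit 0), (nat_lit 114), (nat_lit 53), (nat_lit 0), (nat_lit 3349), (nat_lit 579), (nat_lit 1978), (nat_lit 0), (nat_lit 3394953107501), (nat_lit 499800), [((nat_lit 390), [((nat_lit 43), (nat_lit 2), (nat_lit 833))])], ⟨(nat_lit 5), false, false, true, (nat_lit 206), (nat_lit 1581), (nat_lit 2237), [(nat_lit 1454450), (nat_lit 1453368), (nat_lit 1477224), (nat_lit 1476683), (nat_lit 1554227), (nat_lit 1548981), (nat_lit 1577001), (nat_lit 1572296)]⟩, ⟨(nat_lit 4), true, false, true, (nat_lit 195), (nat_lit 1581), (nat_lit 2237), [(nat_lit 1397434), (nat_lit 1398733), (nat_lit 1420170), (nat_lit 1422009), (nat_lit 1554227), (nat_lit 1548981), (nat_lit 1577001), (nat_lit 1572296)]⟩, (nat_lit 4910969), (nat_lit 42411332), (nat_lit 12839335), (nat_lit 11749333), (nat_lit 0), (nat_lit 5), [⟨(nat_lit 1), (nat_lit 98), (nat_lit 38), (nat_lit 100),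 (nat_lit 225892816)⟩], [⟨(nat_lit 1), (nat_lit 98), (nat_lit 38), (nat_lit 100), (nat_lit 116816539)⟩], [], [],
 ⟨⟨[(nat_lit 40), (nat_lit 60)], [(nat_lit 0), (nat_lit 1539)], [((nat_lit 0), (nat_lit 0), (nat_lit 0)), ((nat_lit 1000), (nat_lit 478), (nat_lit 704))], ((nat_lit 48), (nat_lit 100), (nat_lit 69))⟩, (nat_lit 5529), (nat_lit 181), (nat_lit 181), (nat_lit 0), (nat_lit 494016), [(nat_lit 1459802018), (nat_lit 20638400)], [(nat_lit 0), (nat_lit 0)], [(nat_lit 23134596564), (nat_lit 23740539242), (nat_lit 25194078431), (nat_lit 25729170154), (nat_lit 25998630925), (nat_lit 26502515942), (nat_lit 27674035193), (nat_lit 28122523722)], (nat_lit 1271251), (nat_lit 1271251), (nat_lit 1271251), (nat_lit 1271251), (nat_lit 1100000), (nat_lit 2041876), [(nat_lit 490000), (nat_lit 780000)], [(nat_lit 1), (nat_lit 38), (nat_lit 203), (nat_lit 0), (nat_lit 9)]⟩,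
 ⟨⟨[(nat_lit 120), (nat_lit 160), (nat_lit 180)], [(nat_lit 0), (nat_lit 0), (nat_lit 1613)], [((nat_lit 0), (nat_lit 0), (nat_lit 0)), ((nat_lit 0), (nat_lit 0), (nat_lit 0)), ((nat_lit 620), (nat_lit 1000), (nat_lit 670))], ((nat_lit 100), (nat_lit 65), (nat_lit 64))⟩, (nat_lit 84909), (nat_lit 1907), (nat_lit 1907), (nat_lit 0), (nat_lit 3298626), [(nat_lit 422304000), (nat_lit 629216000), (nat_lit 745074000)], [], [(nat_lit 2938205888), (nat_lit 2904992347), (nat_lit 2831621542), (nat_lit 2800624465), (nat_lit 3330777642), (nat_lit 3509712556), (nat_lit 2440226717), (nat_lit 2624621311)], (nat_lit 1100000), (nat_lit 1271251), (nat_lit 1271251), (nat_lit 1271251), (nat_lit 0), (nat_lit 2825001), [(nat_lit 1695001), (nat_lit 1271251), (nat_lit 1271251)], [(nat_lit 28), (nat_lit 65), (nat_lit 583), (nat_lit 225), (nat_lit 13)]⟩,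
 ⟨⟨[(nat_lit 120), (nat_lit 160), (nat_lit 180)], [(nat_lit 0), (nat_lit 0), (nat_lit 1613)], [((nat_lit 0), (nat_lit 0), (nat_lit 0)), ((nat_lit 0), (nat_lit 0), (nat_lit 0)), ((nat_lit 620), (nat_lit 1000), (nat_lit 670))], ((nat_lit 100), (nat_lit 65), (nat_lit 64))⟩, (nat_lit 827411), (nat_lit 285), (nat_lit 285), (nat_lit 0), (nat_lit 0), [(nat_lit 1330656000), (nat_lit 1982624000), (nat_lit 2347686000)], [], [(nat_lit 5122906600), (nat_lit 5230620583), (nat_lit 5931971075), (nat_lit 6040048074), (nat_lit 6311008996), (nat_lit 6311492839), (nat_lit 6465755503), (nat_lit 6437704171)], (nat_lit 0), (nat_lit 0), (nat_lit 0), (nat_lit 0), (nat_lit 0), (nat_lit 0), [], [(nat_lit 28), (nat_lit 65), (nat_lit 456), (nat_lit 225), (nat_lit 11)]⟩⟩) (.trX (nat_lit 3) (nat_lit 0) (nat_lit 1) (nat_lit 31) (nat_lit 98) (nat_lit 100) (nat_lit 250) (.trX (nat_lit 4) (nat_lit 0) (nat_lit 2) (nat_lit 31) (nat_lit 98) (nat_lit 100) (nat_lit 250) (.leaf ⟨(nat_lit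 854), (nat_lit 0), (nat_lit 96), (nat_lit 50), (nat_lit 0), (nat_lit 3503), (nat_lit 553), (nat_lit 1778), (nat_lit 0), (nat_lit 3227440421719), (nat_lit 512400), [((nat_lit 400), [((nat_lit 43), (nat_lit 2), (nat_lit 854))])], ⟨(nat_lit 5), false, false, true, (nat_lit 199), (nat_lit 0), (nat_lit 1582), [(nat_lit 1453367), (nat_lit 1449998), (nat_lit 1476683), (nat_lit 1474999), (nat_lit 1521659), (nat_lit 1512494), (nat_lit 1544976), (nat_lit 1537497)]⟩, ⟨(nat_lit 4), true, false, true, (nat_lit 188), (nat_lit 0), (nat_lit 1582), [(nat_lit 1398733), (nat_lit 1399999), (nat_lit 1421394), (nat_lit 1424345), (nat_lit 1521659), (nat_lit 1512494), (nat_lit 1544976), (nat_lit 1537497)]⟩, (nat_lit 4805737), (nat_lit 43406965), (nat_lit 12305363), (nat_lit 11287672), (nat_lit 0), (nat_lit 5), [⟨(nat_lit 1), (nat_lit 100), (nat_lit 22), (nat_lit 99), (nat_lit 322727489)⟩], [⟨(nat_lit 1), (nat_lit 100), (nat_lit 22), (nat_lit 99), (nat_lit 147567764)⟩],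 [], [],
 ⟨⟨[(nat_lit 40), (nat_lit 60)], [(nat_lit 0), (nat_lit 2136)], [((nat_lit 0), (nat_lit 0), (nat_lit 0)), ((nat_lit 1000), (nat_lit 343), (nat_lit 808))], ((nat_lit 37), (nat_lit 100), (nat_lit 75))⟩, (nat_lit 2997), (nat_lit 195), (nat_lit 195), (nat_lit 0), (nat_lit 543736), [(nat_lit 1451276017), (nat_lit 0)], [(nat_lit 0), (nat_lit 61580800)], [(nat_lit 23934055255), (nat_lit 24513196095), (nat_lit 25191034414), (nat_lit 25722963295), (nat_lit 25970176666), (nat_lit 26471039804), (nat_lit 27030674537), (nat_lit 27524803790)], (nat_lit 1271251), (nat_lit 1271251), (nat_lit 1271251), (nat_lit 1271251), (nat_lit 1100000), (nat_lit 1870626), [(nat_lit 490000), (nat_lit 780000)], [(nat_lit 1), (nat_lit 38), (nat_lit 203), (nat_lit 0), (nat_lit 9)]⟩,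
 ⟨⟨[(nat_lit 120), (nat_lit 160), (nat_lit 180)], [(nat_lit 0), (nat_lit 0), (nat_lit 1613)], [((nat_lit 0), (nat_lit 0), (nat_lit 0)), ((nat_lit 0), (nat_lit 0), (nat_lit 0)), ((nat_lit 620), (nat_lit 1000), (nat_lit 670))], ((nat_lit 100), (nat_lit 65), (nat_lit 64))⟩, (nat_lit 115959), (nat_lit 2188), (nat_lit 2188), (nat_lit 0), (nat_lit 3844428), [(nat_lit 398400000), (nat_lit 593600000), (nat_lit 702900000)], [], [(nat_lit 2719040750), (nat_lit 2687548557), (nat_lit 2642739077), (nat_lit 2615690846), (nat_lit 3151223518), (nat_lit 3321698632), (nat_lit 2540199717), (nat_lit 2714443249)], (nat_lit 1100000), (nat_lit 1271251), (nat_lit 1271251), (nat_lit 1271251), (nat_lit 0), (nat_lit 2825001), [(nat_lit 1695001), (nat_lit 1271251), (nat_lit 1271251)], [(nat_lit 28), (nat_lit 65), (nat_lit 651), (nat_lit 225), (nat_lit 15)]⟩,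
 ⟨⟨[(nat_lit 120), (nat_lit 160), (nat_lit 180)], [(nat_lit 0), (nat_lit 0), (nat_lit 1613)], [((nat_lit 0), (nat_lit 0), (nat_lit 0)), ((nat_lit 0), (nat_lit 0), (nat_lit 0)), ((nat_lit 620), (nat_lit 1000), (nat_lit 670))], ((nat_lit 100), (nat_lit 65), (nat_lit 64))⟩, (nat_lit 760374), (nat_lit 278), (nat_lit 278), (nat_lit 0), (nat_lit 0), [(nat_lit 1163328000), (nat_lit 1733312000), (nat_lit 2052468000)], [], [(nat_lit 4434030072), (nat_lit 4528769184), (nat_lit 4911336345), (nat_lit 5018177160), (nat_lit 5515143872), (nat_lit 5513802096), (nat_lit 5554601134), (nat_lit 5533528347)], (nat_lit 0), (nat_lit 0), (nat_lit 0), (nat_lit 0), (nat_lit 0), (nat_lit 0), [], [(nat_lit 28), (nat_lit 65), (nat_lit 456), (nat_lit 225), (nat_lit 11)]⟩⟩)))) (.spl (nat_lit 0) (nat_lit 390) (.leaf ⟨(nat_lit 967), (nat_lit 0), (nat_lit 0), (nat_lit 33), (nat_lit 0), (nat_lit 3289), (nat_lit 533), (nat_lit 409), (nat_lit 0), (nat_lit 266950), (nat_lit 516400),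 [((nat_lit 390), [((nat_lit 28), (nat_lit 1), (nat_lit 319)), ((nat_lit 43), (nat_lit 2), (nat_lit 648))])], ⟨(nat_lit 5), false, false, true, (nat_lit 206), (nat_lit 1581), (nat_lit 2237), [(nat_lit 1454450), (nat_lit 1453368), (nat_lit 1477224), (nat_lit 1476683), (nat_lit 1554227), (nat_lit 1548981), (nat_lit 1577001), (nat_lit 1572296)]⟩, ⟨(nat_lit 4), false, false, true, (nat_lit 195), (nat_lit 1581), (nat_lit 2237), [(nat_lit 1397434), (nat_lit 1398733), (nat_lit 1420170), (nat_lit 1422009), (nat_lit 1554227), (nat_lit 1548981), (nat_lit 1577001), (nat_lit 1572296)]⟩, (nat_lit 4910969), (nat_lit 42411332), (nat_lit 12839335), (nat_lit 11749333), (nat_lit 0), (nat_lit 0), [⟨(nat_lit 1), (nat_lit 98), (nat_lit 38), (nat_lit 100), (nat_lit 129729778)⟩], [⟨(nat_lit 1), (nat_lit 98), (nat_lit 38), (nat_lit 100), (nat_lit 187522658)⟩], [], [],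
 ⟨⟨[(nat_lit 40), (nat_lit 60)], [(nat_lit 0), (nat_lit 1539)], [((nat_lit 0), (nat_lit 0), (nat_lit 0)), ((nat_lit 1000), (nat_lit 478), (nat_lit 704))], ((nat_lit 48), (nat_lit 100), (nat_lit 69))⟩, (nat_lit 0), (nat_lit 143), (nat_lit 143), (nat_lit 0), (nat_lit 369702), [(nat_lit 1406418801), (nat_lit 0)], [(nat_lit 0), (nat_lit 198396400)], [(nat_lit 23054635216), (nat_lit 23655491574), (nat_lit 25108203925), (nat_lit 25639110352), (nat_lit 25914195722), (nat_lit 26414284517), (nat_lit 27588190140), (nat_lit 28063436758)], (nat_lit 1271251), (nat_lit 1271251), (nat_lit 1271251), (nat_lit 1271251), (nat_lit 1100000), (nat_lit 2041876), [(nat_lit 490000), (nat_lit 780000)], [(nat_lit 1), (nat_lit 38), (nat_lit 203), (nat_lit 0), (nat_lit 9)]⟩,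
 ⟨⟨[(nat_lit 120), (nat_lit 160), (nat_lit 180)], [(nat_lit 0), (nat_lit 0), (nat_lit 1613)], [((nat_lit 0), (nat_lit 0), (nat_lit 0)), ((nat_lit 0), (nat_lit 0), (nat_lit 0)), ((nat_lit 620), (nat_lit 1000), (nat_lit 670))], ((nat_lit 100), (nat_lit 65), (nat_lit 64))⟩, (nat_lit 123854), (nat_lit 1543), (nat_lit 1543), (nat_lit 0), (nat_lit 2545313), [(nat_lit 262944000), (nat_lit 391776000), (nat_lit 463914000)], [], [(nat_lit 1325987514), (nat_lit 1321830281), (nat_lit 1371930365), (nat_lit 1370863457), (nat_lit 2302569446), (nat_lit 2456472732), (nat_lit 1482770408), (nat_lit 1641699617)], (nat_lit 1100000), (nat_lit 1271251), (nat_lit 1271251), (nat_lit 1271251), (nat_lit 0), (nat_lit 2825001), [(nat_lit 1695001), (nat_lit 1271251), (nat_lit 1271251)], [(nat_lit 28), (nat_lit 65), (nat_lit 492), (nat_lit 225), (nat_lit 11)]⟩,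
 ⟨⟨[(nat_lit 120), (nat_lit 160), (nat_lit 180)], [(nat_lit 0), (nat_lit 0), (nat_lit 1613)], [((nat_lit 0), (nat_lit 0), (nat_lit 0)), ((nat_lit 0), (nat_lit 0), (nat_lit 0)), ((nat_lit 620), (nat_lit 1000), (nat_lit 670))], ((nat_lit 100), (nat_lit 65), (nat_lit 64))⟩, (nat_lit 14362), (nat_lit 300), (nat_lit 1925), (nat_lit 2448601), (nat_lit 3298626), [(nat_lit 262944000), (nat_lit 391776000), (nat_lit 463914000)], [], [(nat_lit 1912558860), (nat_lit 1893648173), (nat_lit 1833607617), (nat_lit 1818054510), (nat_lit 2198731248), (nat_lit 2319836259), (nat_lit 2871557942), (nat_lit 2998771981)], (nat_lit 1100000), (nat_lit 1271251), (nat_lit 1100000), (nat_lit 2041876), (nat_lit 0), (nat_lit 2825001), [(nat_lit 1695001), (nat_lit 1271251), (nat_lit 1271251)], [(nat_lit 28), (nat_lit 65), (nat_lit 588), (nat_lit 225), (nat_lit 14)]⟩⟩) (.trX (nat_lit 3) (nat_lit 0) (nat_lit 1) (nat_lit 31) (nat_lit 98) (nat_lit 100) (nat_lit 250) (.trX (nat_lit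 4) (nat_lit 0) (nat_lit 2) (nat_lit 31) (nat_lit 98) (nat_lit 100) (nat_lit 250) (.leaf ⟨(nat_lit 969), (nat_lit 0), (nat_lit 0), (nat_lit 31), (nat_lit 0), (nat_lit 3305), (nat_lit 475), (nat_lit 377), (nat_lit 0), (nat_lit 79174590058), (nat_lit 487800), [((nat_lit 400), [((nat_lit 28), (nat_lit 1), (nat_lit 468)), ((nat_lit 43), (nat_lit 2), (nat_lit 501))])], ⟨(nat_lit 5), false, false, true, (nat_lit 199), (nat_lit 0), (nat_lit 1582), [(nat_lit 1453367), (nat_lit 1449998), (nat_lit 1476683), (nat_lit 1474999), (nat_lit 1521659), (nat_lit 1512494), (nat_lit 1544976), (nat_lit 1537497)]⟩, ⟨(nat_lit 4), false, false, true, (nat_lit 188), (nat_lit 0), (nat_lit 1582), [(nat_lit 1398733), (nat_lit 1399999), (nat_lit 1421394), (nat_lit 1424345), (nat_lit 1521659), (nat_lit 1512494), (nat_lit 1544976), (nat_lit 1537497)]⟩, (nat_lit 4805737), (nat_lit 43406965), (nat_lit 12305363), (nat_lit 11287672), (nat_lit 0), (nat_lit 0), [⟨(nat_lit 1), (nat_lit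 98), (nat_lit 31), (nat_lit 100), (nat_lit 175115993)⟩], [⟨(nat_lit 1), (nat_lit 98), (nat_lit 31), (nat_lit 100), (nat_lit 214958330)⟩], [], [],
 ⟨⟨[(nat_lit 40), (nat_lit 60)], [(nat_lit 0), (nat_lit 2136)], [((nat_lit 0), (nat_lit 0), (nat_lit 0)), ((nat_lit 1000), (nat_lit 343), (nat_lit 808))], ((nat_lit 37), (nat_lit 100), (nat_lit 75))⟩, (nat_lit 0), (nat_lit 154), (nat_lit 154), (nat_lit 0), (nat_lit 407339), [(nat_lit 1406083608), (nat_lit 0)], [(nat_lit 0), (nat_lit 63484800)], [(nat_lit 23619888082), (nat_lit 24222100792), (nat_lit 24927490265), (nat_lit 25480122840), (nat_lit 25742440508), (nat_lit 26262625497), (nat_lit 26850124470), (nat_lit 27330519842)], (nat_lit 1271251), (nat_lit 1271251), (nat_lit 1271251), (nat_lit 1271251), (nat_lit 1100000), (nat_lit 1870626), [(nat_lit 490000), (nat_lit 780000)], [(nat_lit 1), (nat_lit 38), (nat_lit 203), (nat_lit 0), (nat_lit 9)]⟩,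
 ⟨⟨[(nat_lit 120), (nat_lit 160), (nat_lit 180)], [(nat_lit 0), (nat_lit 0), (nat_lit 1613)], [((nat_lit 0), (nat_lit 0), (nat_lit 0)), ((nat_lit 0), (nat_lit 0), (nat_lit 0)), ((nat_lit 620), (nat_lit 1000), (nat_lit 670))], ((nat_lit 100), (nat_lit 65), (nat_lit 64))⟩, (nat_lit 114985), (nat_lit 1748), (nat_lit 1748), (nat_lit 0), (nat_lit 2977698), [(nat_lit 247008000), (nat_lit 368032000), (nat_lit 435798000)], [], [(nat_lit 1288007366), (nat_lit 1279452168), (nat_lit 1280867002), (nat_lit 1270071318), (nat_lit 2128950586), (nat_lit 2267196260), (nat_lit 1604110974), (nat_lit 1745593535)], (nat_lit 1100000), (nat_lit 1271251), (nat_lit 1271251), (nat_lit 1271251), (nat_lit 0), (nat_lit 2825001), [(nat_lit 1695001), (nat_lit 1271251), (nat_lit 1271251)], [(nat_lit 28), (nat_lit 65), (nat_lit 541), (nat_lit 225), (nat_lit 13)]⟩,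
 ⟨⟨[(nat_lit 120), (nat_lit 160), (nat_lit 180)], [(nat_lit 0), (nat_lit 0), (nat_lit 1613)], [((nat_lit 0), (nat_lit 0), (nat_lit 0)), ((nat_lit 0), (nat_lit 0), (nat_lit 0)), ((nat_lit 620), (nat_lit 1000), (nat_lit 670))], ((nat_lit 100), (nat_lit 65), (nat_lit 64))⟩, (nat_lit 13547), (nat_lit 300), (nat_lit 2206), (nat_lit 2300200), (nat_lit 3844428), [(nat_lit 247008000), (nat_lit 368032000), (nat_lit 435798000)], [], [(nat_lit 1816709964), (nat_lit 1799457173), (nat_lit 1744632274), (nat_lit 1726010426), (nat_lit 2054446408), (nat_lit 2166474819), (nat_lit 2560644685), (nat_lit 2677318301)], (nat_lit 1100000), (nat_lit 1271251), (nat_lit 1100000), (nat_lit 1870626), (nat_lit 0), (nat_lit 2825001), [(nat_lit 1695001), (nat_lit 1271251), (nat_lit 1271251)], [(nat_lit 28), (nat_lit 65), (nat_lit 656), (nat_lit 225), (nat_lit 15)]⟩⟩)))))))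
noncomputable def c13_6 : Tr Lf :=
 (.spl (nat_lit 3) (nat_lit 200) (.spl (nat_lit 4) (nat_lit 80) (.spl (nat_lit 0) (nat_lit 390) (.leaf ⟨(nat_lit 1000), (nat_lit 0), (nat_lit 0), (nat_lit 0), (nat_lit 0), (nat_lit 3284), (nat_lit 0), (nat_lit 0), (nat_lit 0), (nat_lit 0), (nat_lit 600000), [((nat_lit 390), [((nat_lit 43), (nat_lit 2), (nat_lit 1000))])], ⟨(nat_lit 4), false, false, false, (nat_lit 174), (nat_lit 1581), (nat_lit 2237), [(nat_lit 1320243), (nat_lit 1326247), (nat_lit 1388429), (nat_lit 1396055), (nat_lit 1477224), (nat_lit 1476683), (nat_lit 1545457), (nat_lit 1546538)]⟩, ⟨(nat_lit 3), false, false, false, (nat_lit 99), (nat_lit 1581), (nat_lit 2237), [(nat_lit 1180680), (nat_lit 1188036), (nat_lit 1248867), (nat_lit 1257845), (nat_lit 1237781), (nat_lit 1242757), (nat_lit 1305968), (nat_lit 1312566)]⟩, (nat_lit 3567482), (nat_lit 51840390), (nat_lit 10699436), (nat_lit 4460174), (nat_lit 0), (nat_lit 0), [], [⟨(nat_lit 0), (nat_lit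 100), (nat_lit 39), (nat_lit 83), (nat_lit 195987132)⟩, ⟨(nat_lit 0), (nat_lit 100), (nat_lit 48), (nat_lit 71), (nat_lit 27089677)⟩], [], [],
 ⟨⟨[(nat_lit 40), (nat_lit 60)], [(nat_lit 0), (nat_lit 1539)], [((nat_lit 0), (nat_lit 0), (nat_lit 0)), ((nat_lit 1000), (nat_lit 478), (nat_lit 704))], ((nat_lit 48), (nat_lit 100), (nat_lit 69))⟩, (nat_lit 7847), (nat_lit 240), (nat_lit 240), (nat_lit 0), (nat_lit 501215), [(nat_lit 1392000001), (nat_lit 0)], [(nat_lit 0), (nat_lit 633200000)], [(nat_lit 21572438262), (nat_lit 22601300136), (nat_lit 23189579136), (nat_lit 23929515992), (nat_lit 20837978963), (nat_lit 21563250037), (nat_lit 22822889253), (nat_lit 23443951353)], (nat_lit 1271251), (nat_lit 1271251), (nat_lit 559688), (nat_lit 1429376), (nat_lit 230000), (nat_lit 490000), [(nat_lit 490000), (nat_lit 780000)], [(nat_lit 1), (nat_lit 38), (nat_lit 289), (nat_lit 75), (nat_lit 17)]⟩,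
 Rw.none,
 Rw.none⟩) (.trZ (nat_lit 0) (nat_lit 1) (nat_lit 3) (nat_lit 100) (nat_lit 31) (nat_lit 92) (nat_lit 110) (.trZ (nat_lit 0) (nat_lit 2) (nat_lit 4) (nat_lit 100) (nat_lit 34) (nat_lit 81) (nat_lit 60) (.leaf ⟨(nat_lit 1000), (nat_lit 0), (nat_lit 0), (nat_lit 0), (nat_lit 0), (nat_lit 3510), (nat_lit 0), (nat_lit 0), (nat_lit 0), (nat_lit 0), (nat_lit 600000), [((nat_lit 400), [((nat_lit 43), (nat_lit 2), (nat_lit 1000))])], ⟨(nat_lit 4), false, false, false, (nat_lit 181), (nat_lit 0), (nat_lit 1582), [(nat_lit 1351461), (nat_lit 1360206), (nat_lit 1419436), (nat_lit 1433236), (nat_lit 1476683), (nat_lit 1474999), (nat_lit 1545316), (nat_lit 1548686)]⟩, ⟨(nat_lit 3), false, false, false, (nat_lit 107), (nat_lit 0), (nat_lit 1582), [(nat_lit 1213552), (nat_lit 1223038), (nat_lit 1281527), (nat_lit 1296068), (nat_lit 1241527), (nat_lit 1248694), (nat_lit 1309501), (nat_lit 1321723)]⟩, (nat_lit 3751892), (nat_lit 50689350), (nat_lit 11303352),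 (nat_lit 5007298), (nat_lit 0), (nat_lit 0), [], [⟨(nat_lit 0), (nat_lit 100), (nat_lit 34), (nat_lit 81), (nat_lit 258142919)⟩], [], [],
 ⟨⟨[(nat_lit 40), (nat_lit 60)], [(nat_lit 0), (nat_lit 2136)], [((nat_lit 0), (nat_lit 0), (nat_lit 0)), ((nat_lit 1000), (nat_lit 343), (nat_lit 808))], ((nat_lit 37), (nat_lit 100), (nat_lit 75))⟩, (nat_lit 6412), (nat_lit 241), (nat_lit 241), (nat_lit 0), (nat_lit 535403), [(nat_lit 1392000006), (nat_lit 0)], [(nat_lit 0), (nat_lit 633200000)], [(nat_lit 22434372220), (nat_lit 23461714403), (nat_lit 23694169747), (nat_lit 24587756085), (nat_lit 21931737998), (nat_lit 22734416950), (nat_lit 23500737371), (nat_lit 24099531716)], (nat_lit 1271251), (nat_lit 1271251), (nat_lit 704688), (nat_lit 1433125), (nat_lit 356250), (nat_lit 490000), [(nat_lit 490000), (nat_lit 780000)], [(nat_lit 1), (nat_lit 38), (nat_lit 289), (nat_lit 75), (nat_lit 16)]⟩,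
 Rw.none,
 Rw.none⟩)))) (.leaf ⟨(nat_lit 1000), (nat_lit 0), (nat_lit 0), (nat_lit 0), (nat_lit 0), (nat_lit 3462), (nat_lit 0), (nat_lit 0), (nat_lit 0), (nat_lit 0), (nat_lit 600000), [((nat_lit 400), [((nat_lit 43), (nat_lit 2), (nat_lit 1000))])], ⟨(nat_lit 4), false, false, false, (nat_lit 174), (nat_lit 0), (nat_lit 2237), [(nat_lit 1316293), (nat_lit 1333360), (nat_lit 1381836), (nat_lit 1405580), (nat_lit 1477224), (nat_lit 1474999), (nat_lit 1543695), (nat_lit 1548146)]⟩, ⟨(nat_lit 3), false, false, false, (nat_lit 122), (nat_lit 0), (nat_lit 2237), [(nat_lit 1236035), (nat_lit 1248179), (nat_lit 1301578), (nat_lit 1320399), (nat_lit 1294870), (nat_lit 1299999), (nat_lit 1360436), (nat_lit 1372242)]⟩, (nat_lit 3878050), (nat_lit 50243980), (nat_lit 10649990), (nat_lit 6106030), (nat_lit 0), (nat_lit 0), [], [⟨(nat_lit 0), (nat_lit 100), (nat_lit 32), (nat_lit 87), (nat_lit 128083126)⟩], [], [],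
 ⟨⟨[(nat_lit 40), (nat_lit 60)], [(nat_lit 0), (nat_lit 1539)], [((nat_lit 0), (nat_lit 0), (nat_lit 0)), ((nat_lit 1000), (nat_lit 478), (nat_lit 704))], ((nat_lit 48), (nat_lit 100), (nat_lit 69))⟩, (nat_lit 5439), (nat_lit 230), (nat_lit 230), (nat_lit 0), (nat_lit 537993), [(nat_lit 1392000005), (nat_lit 0)], [(nat_lit 0), (nat_lit 633200000)], [(nat_lit 20529100884), (nat_lit 22594228754), (nat_lit 22361094439), (nat_lit 23853674500), (nat_lit 20905530001), (nat_lit 22713814323), (nat_lit 22767808354), (nat_lit 23980787677)], (nat_lit 1271251), (nat_lit 1271251), (nat_lit 559688), (nat_lit 1429376), (nat_lit 490000), (nat_lit 780000), [(nat_lit 490000), (nat_lit 780000)], [(nat_lit 1), (nat_lit 38), (nat_lit 317), (nat_lit 100), (nat_lit 18)]⟩,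
 Rw.none,
 Rw.none⟩)) (.trX (nat_lit 5) (nat_lit 3) (nat_lit 4) (nat_lit 100) (nat_lit 40) (nat_lit 92) (nat_lit 390) (.stt (nat_lit 2) (.spl (nat_lit 0) (nat_lit 390) (.leaf ⟨(nat_lit 609), (nat_lit 391), (nat_lit 0), (nat_lit 0), (nat_lit 0), (nat_lit 3888), (nat_lit 4430), (nat_lit 0), (nat_lit 0), (nat_lit 0), (nat_lit 262600), [((nat_lit 390), [((nat_lit 28), (nat_lit 1), (nat_lit 514)), ((nat_lit 43), (nat_lit 2), (nat_lit 95))])], ⟨(nat_lit 5), true, false, true, (nat_lit 241), (nat_lit 1581), (nat_lit 2237), [(nat_lit 1477224), (nat_lit 1476683), (nat_lit 1545457), (nat_lit 1546538), (nat_lit 1662524), (nat_lit 1654249), (nat_lit 1730848), (nat_lit 1724195)]⟩, ⟨(nat_lit 3), false, false, false, (nat_lit 110), (nat_lit 1581), (nat_lit 2237), [(nat_lit 1180680), (nat_lit 1188036), (nat_lit 1248867), (nat_lit 1257845), (nat_lit 1294870), (nat_lit 1297467), (nat_lit 1363068), (nat_lit 1367287)]⟩, (nat_lit 4308320), (nat_lit 44887238), (nat_lit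 17116781), (nat_lit 4995981), (nat_lit 3), (nat_lit 0), [], [], [], [⟨(nat_lit 1), (nat_lit 87), (nat_lit 100), (nat_lit 85), (nat_lit 69808412)⟩],
 ⟨⟨[(nat_lit 40), (nat_lit 60)], [(nat_lit 0), (nat_lit 1539)], [((nat_lit 0), (nat_lit 0), (nat_lit 0)), ((nat_lit 1000), (nat_lit 478), (nat_lit 704))], ((nat_lit 48), (nat_lit 100), (nat_lit 69))⟩, (nat_lit 0), (nat_lit 240), (nat_lit 240), (nat_lit 0), (nat_lit 501215), [(nat_lit 1552390807), (nat_lit 1390055200)], [(nat_lit 0), (nat_lit 0)], [(nat_lit 24087694810), (nat_lit 25045434153), (nat_lit 29760713239), (nat_lit 30467150378), (nat_lit 23052176065), (nat_lit 23623639274), (nat_lit 28133168106), (nat_lit 28792653755)], (nat_lit 1271251), (nat_lit 1271251), (nat_lit 1271251), (nat_lit 1271251), (nat_lit 230000), (nat_lit 780000), [(nat_lit 490000), (nat_lit 780000)], [(nat_lit 1), (nat_lit 38), (nat_lit 238), (nat_lit 30), (nat_lit 12)]⟩,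
 ⟨⟨[(nat_lit 120), (nat_lit 160), (nat_lit 180)], [(nat_lit 0), (nat_lit 533), (nat_lit 2066)], [((nat_lit 0), (nat_lit 0), (nat_lit 0)), ((nat_lit 960), (nat_lit 1000), (nat_lit 200)), ((nat_lit 615), (nat_lit 1000), (nat_lit 729))], ((nat_lit 100), (nat_lit 72), (nat_lit 63))⟩, (nat_lit 1297006), (nat_lit 300), (nat_lit 300), (nat_lit 0), (nat_lit 0), [(nat_lit 3115488000), (nat_lit 4641952000), (nat_lit 5496678000)], [], [(nat_lit 12894230897), (nat_lit 13643153178), (nat_lit 16208760366), (nat_lit 16428562925), (nat_lit 13739181216), (nat_lit 13744384623), (nat_lit 14919686695), (nat_lit 14879216278)], (nat_lit 0), (nat_lit 0), (nat_lit 0), (nat_lit 0), (nat_lit 0), (nat_lit 0), [], [(nat_lit 28), (nat_lit 65), (nat_lit 483), (nat_lit 250), (nat_lit 11)]⟩,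
 Rw.none⟩) (.trX (nat_lit 3) (nat_lit 0) (nat_lit 1) (nat_lit 32) (nat_lit 89) (nat_lit 100) (nat_lit 300) (.trZ (nat_lit 0) (nat_lit 2) (nat_lit 4) (nat_lit 100) (nat_lit 34) (nat_lit 81) (nat_lit 60) (.leaf ⟨(nat_lit 609), (nat_lit 391), (nat_lit 0), (nat_lit 0), (nat_lit 0), (nat_lit 3872), (nat_lit 5096), (nat_lit 0), (nat_lit 0), (nat_lit 0), (nat_lit 243600), [((nat_lit 400), [((nat_lit 28), (nat_lit 1), (nat_lit 609))])], ⟨(nat_lit 5), true, false, true, (nat_lit 231), (nat_lit 0), (nat_lit 1582), [(nat_lit 1476683), (nat_lit 1474999), (nat_lit 1545316), (nat_lit 1548686), (nat_lit 1613268), (nat_lit 1599994), (nat_lit 1683216), (nat_lit 1674997)]⟩, ⟨(nat_lit 3), false, false, false, (nat_lit 118), (nat_lit 0), (nat_lit 1582), [(nat_lit 1213552), (nat_lit 1223038), (nat_lit 1281527), (nat_lit 1296068), (nat_lit 1297467), (nat_lit 1299999), (nat_lit 1365448), (nat_lit 1373034)]⟩, (nat_lit 4331746), (nat_lit 45375986), (nat_lit 16059083), (nat_lit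 5564931), (nat_lit 3), (nat_lit 0), [], [⟨(nat_lit 0), (nat_lit 100), (nat_lit 23), (nat_lit 92), (nat_lit 458417221)⟩], [], [⟨(nat_lit 1), (nat_lit 77), (nat_lit 100), (nat_lit 86), (nat_lit 73113248)⟩],
 ⟨⟨[(nat_lit 40), (nat_lit 60)], [(nat_lit 0), (nat_lit 2136)], [((nat_lit 0), (nat_lit 0), (nat_lit 0)), ((nat_lit 1000), (nat_lit 343), (nat_lit 808))], ((nat_lit 37), (nat_lit 100), (nat_lit 75))⟩, (nat_lit 43812), (nat_lit 234), (nat_lit 234), (nat_lit 0), (nat_lit 535403), [(nat_lit 1552694812), (nat_lit 1481065200)], [(nat_lit 0), (nat_lit 0)], [(nat_lit 24266259728), (nat_lit 25209322212), (nat_lit 28158525870), (nat_lit 28913787670), (nat_lit 23676324059), (nat_lit 24487799264), (nat_lit 27336174053), (nat_lit 28047457888)], (nat_lit 1271251), (nat_lit 1271251), (nat_lit 1271251), (nat_lit 1271251), (nat_lit 356250), (nat_lit 780000), [(nat_lit 490000), (nat_lit 780000)], [(nat_lit 1), (nat_lit 38), (nat_lit 238), (nat_lit 30), (nat_lit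 12)]⟩,
 ⟨⟨[(nat_lit 120), (nat_lit 160), (nat_lit 180)], [(nat_lit 0), (nat_lit 533), (nat_lit 2066)], [((nat_lit 0), (nat_lit 0), (nat_lit 0)), ((nat_lit 960), (nat_lit 1000), (nat_lit 200)), ((nat_lit 615), (nat_lit 1000), (nat_lit 729))], ((nat_lit 100), (nat_lit 72), (nat_lit 63))⟩, (nat_lit 1300269), (nat_lit 290), (nat_lit 290), (nat_lit 0), (nat_lit 0), [(nat_lit 3115488000), (nat_lit 4641952000), (nat_lit 5496678000)], [], [(nat_lit 13253709952), (nat_lit 14021038808), (nat_lit 15752225321), (nat_lit 16075810592), (nat_lit 13594728536), (nat_lit 13525481492), (nat_lit 14687845864), (nat_lit 14802605415)], (nat_lit 0), (nat_lit 0), (nat_lit 0), (nat_lit 0), (nat_lit 0), (nat_lit 0), [], [(nat_lit 28), (nat_lit 65), (nat_lit 483), (nat_lit 250), (nat_lit 11)]⟩,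
 Rw.none⟩)))) (.spl (nat_lit 3) (nat_lit 280) (.leaf ⟨(nat_lit 963), (nat_lit 30), (nat_lit 0), (nat_lit 7), (nat_lit 0), (nat_lit 3496), (nat_lit 382), (nat_lit 79), (nat_lit 0), (nat_lit 0), (nat_lit 240750), [((nat_lit 400), [((nat_lit 28), (nat_lit 0), (nat_lit 963))])], ⟨(nat_lit 5), false, true, true, (nat_lit 226), (nat_lit 0), (nat_lit 2237), [(nat_lit 1477224), (nat_lit 1474999), (nat_lit 1543695), (nat_lit 1548146), (nat_lit 1591251), (nat_lit 1574995), (nat_lit 1659577), (nat_lit 1649997)]⟩, ⟨(nat_lit 3), false, false, false, (nat_lit 111), (nat_lit 0), (nat_lit 2237), [(nat_lit 1177178), (nat_lit 1196337), (nat_lit 1242721), (nat_lit 1268557), (nat_lit 1294870), (nat_lit 1299999), (nat_lit 1360436), (nat_lit 1372242)]⟩, (nat_lit 4214213), (nat_lit 46226202), (nat_lit 15656777), (nat_lit 5117021), (nat_lit 3), (nat_lit 0), [], [⟨(nat_lit 0), (nat_lit 100), (nat_lit 32), (nat_lit 87), (nat_lit 290684882)⟩], [], [],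
 ⟨⟨[(nat_lit 40), (nat_lit 60)], [(nat_lit 0), (nat_lit 1539)], [((nat_lit 0), (nat_lit 0), (nat_lit 0)), ((nat_lit 1000), (nat_lit 478), (nat_lit 704))], ((nat_lit 48), (nat_lit 100), (nat_lit 69))⟩, (nat_lit 0), (nat_lit 181), (nat_lit 181), (nat_lit 0), (nat_lit 301452), [(nat_lit 1571887602), (nat_lit 1128732000)], [(nat_lit 0), (nat_lit 0)], [(nat_lit 23417854520), (nat_lit 25224537232), (nat_lit 26466106330), (nat_lit 27990996232), (nat_lit 22860195600), (nat_lit 24163557776), (nat_lit 25408855210), (nat_lit 26689669816)], (nat_lit 1271251), (nat_lit 1271251), (nat_lit 1271251), (nat_lit 1271251), (nat_lit 230000), (nat_lit 780000), [(nat_lit 490000), (nat_lit 780000)], [(nat_lit 1), (nat_lit 38), (nat_lit 238), (nat_lit 30), (nat_lit 12)]⟩,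
 ⟨⟨[(nat_lit 120), (nat_lit 160), (nat_lit 180)], [(nat_lit 0), (nat_lit 533), (nat_lit 2066)], [((nat_lit 0), (nat_lit 0), (nat_lit 0)), ((nat_lit 960), (nat_lit 1000), (nat_lit 200)), ((nat_lit 615), (nat_lit 1000), (nat_lit 729))], ((nat_lit 100), (nat_lit 72), (nat_lit 63))⟩, (nat_lit 283921), (nat_lit 1891), (nat_lit 1891), (nat_lit 0), (nat_lit 3284083), [(nat_lit 294816000), (nat_lit 439264000), (nat_lit 520146000)], [], [(nat_lit 1386092915), (nat_lit 1379385537), (nat_lit 1411390661), (nat_lit 1393652559), (nat_lit 2382301880), (nat_lit 1877969698), (nat_lit 1713988129), (nat_lit 1262157969)], (nat_lit 1271251), (nat_lit 1271251), (nat_lit 1271251), (nat_lit 1271251), (nat_lit 0), (nat_lit 2754376), [(nat_lit 1695001), (nat_lit 1271251), (nat_lit 1271251)], [(nat_lit 28), (nat_lit 65), (nat_lit 587), (nat_lit 250), (nat_lit 13)]⟩,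
 ⟨⟨[(nat_lit 140), (nat_lit 180), (nat_lit 200)], [(nat_lit 0), (nat_lit 0), (nat_lit 2835)], [((nat_lit 0), (nat_lit 0), (nat_lit 0)), ((nat_lit 0), (nat_lit 0), (nat_lit 0)), ((nat_lit 363), (nat_lit 1000), (nat_lit 798))], ((nat_lit 0), (nat_lit 0), (nat_lit 0))⟩, (nat_lit 1926), (nat_lit 300), (nat_lit 1147), (nat_lit 546700), (nat_lit 1269573), [(nat_lit 68894000), (nat_lit 98406000), (nat_lit 114800000)], [], [(nat_lit 583713290), (nat_lit 558547219), (nat_lit 539883160), (nat_lit 521413223), (nat_lit 468448327), (nat_lit 465060689), (nat_lit 449141773), (nat_lit 512494981)], (nat_lit 780000), (nat_lit 1271251), (nat_lit 230000), (nat_lit 780000), (nat_lit 0), (nat_lit 2754376), [(nat_lit 1977501), (nat_lit 1271251), (nat_lit 1271251)], [(nat_lit 32), (nat_lit 67), (nat_lit 401), (nat_lit 175), (nat_lit 9)]⟩⟩) (.trX (nat_lit 5) (nat_lit 3) (nat_lit 4) (nat_lit 100) (nat_lit 80) (nat_lit 100) (nat_lit 340) (.spl (nat_lit 0) (nat_lit 390) (.leaf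 ⟨(nat_lit 947), (nat_lit 48), (nat_lit 0), (nat_lit 5), (nat_lit 0), (nat_lit 3424), (nat_lit 539), (nat_lit 62), (nat_lit 0), (nat_lit 0), (nat_lit 236750), [((nat_lit 390), [((nat_lit 28), (nat_lit 0), (nat_lit 947))])], ⟨(nat_lit 7), false, true, true, (nat_lit 263), (nat_lit 1581), (nat_lit 2237), [(nat_lit 1591255), (nat_lit 1585955), (nat_lit 1659578), (nat_lit 1655900), (nat_lit 1662524), (nat_lit 1654249), (nat_lit 1730848), (nat_lit 1724195)]⟩, ⟨(nat_lit 3), false, false, false, (nat_lit 110), (nat_lit 1581), (nat_lit 2237), [(nat_lit 1180680), (nat_lit 1188036), (nat_lit 1248867), (nat_lit 1257845), (nat_lit 1294870), (nat_lit 1297467), (nat_lit 1363068), (nat_lit 1367287)]⟩, (nat_lit 4434447), (nat_lit 42836716), (nat_lit 19291076), (nat_lit 4872208), (nat_lit 3), (nat_lit 0), [⟨(nat_lit 1), (nat_lit 81), (nat_lit 44), (nat_lit 100), (nat_lit 404534430)⟩], [⟨(nat_lit 0), (nat_lit 100), (nat_lit 39), (nat_lit 83), (nat_lit 232413732)⟩],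 [], [],
 ⟨⟨[(nat_lit 40), (nat_lit 60)], [(nat_lit 0), (nat_lit 1539)], [((nat_lit 0), (nat_lit 0), (nat_lit 0)), ((nat_lit 1000), (nat_lit 478), (nat_lit 704))], ((nat_lit 48), (nat_lit 100), (nat_lit 69))⟩, (nat_lit 0), (nat_lit 180), (nat_lit 180), (nat_lit 0), (nat_lit 279048), [(nat_lit 1575644401), (nat_lit 1164508000)], [(nat_lit 0), (nat_lit 0)], [(nat_lit 26329220020), (nat_lit 27083790214), (nat_lit 28763273986), (nat_lit 29427853177), (nat_lit 25564582592), (nat_lit 26121320682), (nat_lit 27487335438), (nat_lit 28108669615)], (nat_lit 1271251), (nat_lit 1271251), (nat_lit 1271251), (nat_lit 1271251), (nat_lit 230000), (nat_lit 780000), [(nat_lit 490000), (nat_lit 780000)], [(nat_lit 1), (nat_lit 38), (nat_lit 238), (nat_lit 30), (nat_lit 12)]⟩,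
 ⟨⟨[(nat_lit 120), (nat_lit 160), (nat_lit 180)], [(nat_lit 0), (nat_lit 533), (nat_lit 2066)], [((nat_lit 0), (nat_lit 0), (nat_lit 0)), ((nat_lit 960), (nat_lit 1000), (nat_lit 200)), ((nat_lit 615), (nat_lit 1000), (nat_lit 729))], ((nat_lit 100), (nat_lit 72), (nat_lit 63))⟩, (nat_lit 331989), (nat_lit 1646), (nat_lit 1646), (nat_lit 0), (nat_lit 2848422), [(nat_lit 422304000), (nat_lit 629216000), (nat_lit 745074000)], [], [(nat_lit 2155776716), (nat_lit 2131621005), (nat_lit 2214639223), (nat_lit 2179334855), (nat_lit 2208392633), (nat_lit 1715701466), (nat_lit 1797994897), (nat_lit 1783737589)], (nat_lit 1271251), (nat_lit 1271251), (nat_lit 1271251), (nat_lit 1271251), (nat_lit 0), (nat_lit 2401251), [(nat_lit 1695001), (nat_lit 1271251), (nat_lit 1271251)], [(nat_lit 28), (nat_lit 65), (nat_lit 526), (nat_lit 250), (nat_lit 12)]⟩,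
 ⟨⟨[(nat_lit 140), (nat_lit 180), (nat_lit 200)], [(nat_lit 0), (nat_lit 0), (nat_lit 2835)], [((nat_lit 0), (nat_lit 0), (nat_lit 0)), ((nat_lit 0), (nat_lit 0), (nat_lit 0)), ((nat_lit 363), (nat_lit 1000), (nat_lit 798))], ((nat_lit 0), (nat_lit 0), (nat_lit 0))⟩, (nat_lit 1376), (nat_lit 300), (nat_lit 1096), (nat_lit 390500), (nat_lit 1144784), [(nat_lit 49210000), (nat_lit 70290000), (nat_lit 82000000)], [], [(nat_lit 435346539), (nat_lit 387346978), (nat_lit 369755066), (nat_lit 355304390), (nat_lit 320745675), (nat_lit 316499070), (nat_lit 303414445), (nat_lit 350813349)], (nat_lit 780000), (nat_lit 1271251), (nat_lit 230000), (nat_lit 780000), (nat_lit 0), (nat_lit 2401251), [(nat_lit 1977501), (nat_lit 1271251), (nat_lit 1271251)], [(nat_lit 32), (nat_lit 67), (nat_lit 401), (nat_lit 175), (nat_lit 9)]⟩⟩) (.trX (nat_lit 3) (nat_lit 0) (nat_lit 1) (nat_lit 32) (nat_lit 89) (nat_lit 100) (nat_lit 300) (.trZ (nat_lit 0) (nat_lit 2) (nat_lit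 4) (nat_lit 100) (nat_lit 34) (nat_lit 81) (nat_lit 60) (.leaf ⟨(nat_lit 955), (nat_lit 41), (nat_lit 0), (nat_lit 4), (nat_lit 0), (nat_lit 3454), (nat_lit 504), (nat_lit 51), (nat_lit 0), (nat_lit 0), (nat_lit 238750), [((nat_lit 400), [((nat_lit 28), (nat_lit 0), (nat_lit 955))])], ⟨(nat_lit 7), false, true, true, (nat_lit 252), (nat_lit 0), (nat_lit 1582), [(nat_lit 1585951), (nat_lit 1574995), (nat_lit 1655899), (nat_lit 1649997), (nat_lit 1613268), (nat_lit 1599994), (nat_lit 1683216), (nat_lit 1674997)]⟩, ⟨(nat_lit 3), false, false, false, (nat_lit 118), (nat_lit 0), (nat_lit 1582), [(nat_lit 1213552), (nat_lit 1223038), (nat_lit 1281527), (nat_lit 1296068), (nat_lit 1297467), (nat_lit 1299999), (nat_lit 1365448), (nat_lit 1373034)]⟩, (nat_lit 4462696), (nat_lit 43464792), (nat_lit 18093322), (nat_lit 5441886), (nat_lit 3), (nat_lit 0), [⟨(nat_lit 1), (nat_lit 89), (nat_lit 32), (nat_lit 100), (nat_lit 545101417)⟩], [⟨(nat_lit 0), (nat_lit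 100), (nat_lit 23), (nat_lit 92), (nat_lit 264784076)⟩], [], [],
 ⟨⟨[(nat_lit 40), (nat_lit 60)], [(nat_lit 0), (nat_lit 2136)], [((nat_lit 0), (nat_lit 0), (nat_lit 0)), ((nat_lit 1000), (nat_lit 343), (nat_lit 808))], ((nat_lit 37), (nat_lit 100), (nat_lit 75))⟩, (nat_lit 0), (nat_lit 168), (nat_lit 168), (nat_lit 0), (nat_lit 300006), [(nat_lit 1573766005), (nat_lit 1146620000)], [(nat_lit 0), (nat_lit 0)], [(nat_lit 26503925184), (nat_lit 27252801844), (nat_lit 27394639426), (nat_lit 28107968315), (nat_lit 26057369790), (nat_lit 26632406134), (nat_lit 26776788584), (nat_lit 27449397491)], (nat_lit 1271251), (nat_lit 1271251), (nat_lit 1271251), (nat_lit 1271251), (nat_lit 356250), (nat_lit 780000), [(nat_lit 490000), (nat_lit 780000)], [(nat_lit 1), (nat_lit 38), (nat_lit 238), (nat_lit 30), (nat_lit 11)]⟩,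
 ⟨⟨[(nat_lit 120), (nat_lit 160), (nat_lit 180)], [(nat_lit 0), (nat_lit 533), (nat_lit 2066)], [((nat_lit 0), (nat_lit 0), (nat_lit 0)), ((nat_lit 960), (nat_lit 1000), (nat_lit 200)), ((nat_lit 615), (nat_lit 1000), (nat_lit 729))], ((nat_lit 100), (nat_lit 72), (nat_lit 63))⟩, (nat_lit 219544), (nat_lit 1854), (nat_lit 1854), (nat_lit 0), (nat_lit 3277979), [(nat_lit 358560000), (nat_lit 534240000), (nat_lit 632610000)], [], [(nat_lit 1847421566), (nat_lit 1819819290), (nat_lit 1864410738), (nat_lit 1832762127), (nat_lit 1849143474), (nat_lit 1438286553), (nat_lit 1628038359), (nat_lit 1468820716)], (nat_lit 1271251), (nat_lit 1271251), (nat_lit 1271251), (nat_lit 1271251), (nat_lit 0), (nat_lit 2401251), [(nat_lit 1695001), (nat_lit 1271251), (nat_lit 1271251)], [(nat_lit 28), (nat_lit 65), (nat_lit 574), (nat_lit 225), (nat_lit 13)]⟩,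
 ⟨⟨[(nat_lit 140), (nat_lit 180), (nat_lit 200)], [(nat_lit 0), (nat_lit 0), (nat_lit 2835)], [((nat_lit 0), (nat_lit 0), (nat_lit 0)), ((nat_lit 0), (nat_lit 0), (nat_lit 0)), ((nat_lit 363), (nat_lit 1000), (nat_lit 798))], ((nat_lit 0), (nat_lit 0), (nat_lit 0))⟩, (nat_lit 1101), (nat_lit 300), (nat_lit 1132), (nat_lit 312400), (nat_lit 1269573), [(nat_lit 39368000), (nat_lit 56232000), (nat_lit 65600000)], [], [(nat_lit 334073371), (nat_lit 300194265), (nat_lit 292478574), (nat_lit 281140042), (nat_lit 245875197), (nat_lit 259006758), (nat_lit 244002151), (nat_lit 282769716)], (nat_lit 780000), (nat_lit 1271251), (nat_lit 356250), (nat_lit 780000), (nat_lit 0), (nat_lit 2401251), [(nat_lit 1977501), (nat_lit 1271251), (nat_lit 1271251)], [(nat_lit 32), (nat_lit 67), (nat_lit 401), (nat_lit 175), (nat_lit 9)]⟩⟩)))))))))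
noncomputable def c13_7 : Tr Lf :=
 (.stt (nat_lit 2) (.spl (nat_lit 2) (nat_lit 160) (.trX (nat_lit 4) (nat_lit 0) (nat_lit 2) (nat_lit 44) (nat_lit 99) (nat_lit 100) (nat_lit 250) (.spl (nat_lit 4) (nat_lit 200) (.leaf ⟨(nat_lit 722), (nat_lit 204), (nat_lit 0), (nat_lit 74), (nat_lit 0), (nat_lit 3764), (nat_lit 3788), (nat_lit 1124), (nat_lit 0), (nat_lit 0), (nat_lit 288800), [((nat_lit 400), [((nat_lit 28), (nat_lit 1), (nat_lit 722))])], ⟨(nat_lit 4), true, false, false, (nat_lit 174), (nat_lit 0), (nat_lit 2237), [(nat_lit 1316293), (nat_lit 1333360), (nat_lit 1381836), (nat_lit 1405580), (nat_lit 1477224), (nat_lit 1474999), (nat_lit 1543695), (nat_lit 1548146)]⟩, ⟨(nat_lit 3), true, false, true, (nat_lit 150), (nat_lit 0), (nat_lit 2237), [(nat_lit 1294870), (nat_lit 1299999), (nat_lit 1338589), (nat_lit 1348168), (nat_lit 1408898), (nat_lit 1399996), (nat_lit 1454449), (nat_lit 1449998)]⟩, (nat_lit 4215241), (nat_lit 48187455), (nat_lit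 10507366), (nat_lit 8305179), (nat_lit 3), (nat_lit 0), [⟨(nat_lit 0), (nat_lit 100), (nat_lit 31), (nat_lit 97), (nat_lit 444520053)⟩], [⟨(nat_lit 1), (nat_lit 100), (nat_lit 31), (nat_lit 95), (nat_lit 2766088)⟩], [], [],
 ⟨⟨[(nat_lit 40), (nat_lit 60)], [(nat_lit 0), (nat_lit 1539)], [((nat_lit 0), (nat_lit 0), (nat_lit 0)), ((nat_lit 1000), (nat_lit 478), (nat_lit 704))], ((nat_lit 48), (nat_lit 100), (nat_lit 69))⟩, (nat_lit 0), (nat_lit 258), (nat_lit 258), (nat_lit 0), (nat_lit 657997), [(nat_lit 1507178418), (nat_lit 1146901600)], [(nat_lit 0), (nat_lit 0)], [(nat_lit 21394683619), (nat_lit 23204146506), (nat_lit 23159597272), (nat_lit 24354172268), (nat_lit 22881164776), (nat_lit 24306714317), (nat_lit 24387045951), (nat_lit 25440090992)], (nat_lit 1271251), (nat_lit 1271251), (nat_lit 559688), (nat_lit 1429376), (nat_lit 780000), (nat_lit 1435001), [(nat_lit 490000), (nat_lit 780000)], [(nat_lit 1), (nat_lit 38), (nat_lit 260), (nat_lit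 50), (nat_lit 14)]⟩,
 ⟨⟨[(nat_lit 120), (nat_lit 160), (nat_lit 180)], [(nat_lit 0), (nat_lit 533), (nat_lit 2066)], [((nat_lit 0), (nat_lit 0), (nat_lit 0)), ((nat_lit 960), (nat_lit 1000), (nat_lit 200)), ((nat_lit 615), (nat_lit 1000), (nat_lit 729))], ((nat_lit 100), (nat_lit 72), (nat_lit 63))⟩, (nat_lit 1942254), (nat_lit 386), (nat_lit 386), (nat_lit 0), (nat_lit 0), [(nat_lit 2215104000), (nat_lit 3300416000), (nat_lit 3908124000)], [], [(nat_lit 7699233587), (nat_lit 8651607145), (nat_lit 7739874796), (nat_lit 8559752038), (nat_lit 10444708444), (nat_lit 10858010059), (nat_lit 9696576012), (nat_lit 9976704456)], (nat_lit 0), (nat_lit 0), (nat_lit 0), (nat_lit 0), (nat_lit 0), (nat_lit 0), [], [(nat_lit 28), (nat_lit 65), (nat_lit 456), (nat_lit 225), (nat_lit 11)]⟩,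
 ⟨⟨[(nat_lit 140), (nat_lit 180), (nat_lit 200)], [(nat_lit 0), (nat_lit 0), (nat_lit 2835)], [((nat_lit 0), (nat_lit 0), (nat_lit 0)), ((nat_lit 0), (nat_lit 0), (nat_lit 0)), ((nat_lit 363), (nat_lit 1000), (nat_lit 798))], ((nat_lit 0), (nat_lit 0), (nat_lit 0))⟩, (nat_lit 20360), (nat_lit 300), (nat_lit 491), (nat_lit 5779400), (nat_lit 0), [(nat_lit 728308000), (nat_lit 1040292000), (nat_lit 1213600000)], [], [(nat_lit 5161959648), (nat_lit 4990908516), (nat_lit 4885679052), (nat_lit 4714051888), (nat_lit 4126793024), (nat_lit 3931193536), (nat_lit 3781768216), (nat_lit 3587102724)], (nat_lit 0), (nat_lit 0), (nat_lit 0), (nat_lit 0), (nat_lit 0), (nat_lit 0), [], [(nat_lit 32), (nat_lit 67), (nat_lit 428), (nat_lit 200), (nat_lit 9)]⟩⟩) (.leaf ⟨(nat_lit 703), (nat_lit 213), (nat_lit 0), (nat_lit 84), (nat_lit 0), (nat_lit 3796), (nat_lit 4044), (nat_lit 1241), (nat_lit 0), (nat_lit 0), (nat_lit 281200), [((nat_lit 400), [((nat_lit 28), (nat_lit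 1), (nat_lit 703))])], ⟨(nat_lit 4), true, false, false, (nat_lit 174), (nat_lit 0), (nat_lit 2237), [(nat_lit 1316293), (nat_lit 1333360), (nat_lit 1381836), (nat_lit 1405580), (nat_lit 1477224), (nat_lit 1474999), (nat_lit 1543695), (nat_lit 1548146)]⟩, ⟨(nat_lit 5), true, false, true, (nat_lit 185), (nat_lit 0), (nat_lit 2237), [(nat_lit 1408898), (nat_lit 1399996), (nat_lit 1454449), (nat_lit 1449998), (nat_lit 1480164), (nat_lit 1462492), (nat_lit 1525715), (nat_lit 1512494)]⟩, (nat_lit 4566702), (nat_lit 45501779), (nat_lit 10246531), (nat_lit 11251690), (nat_lit 5), (nat_lit 0), [⟨(nat_lit 0), (nat_lit 100), (nat_lit 31), (nat_lit 97), (nat_lit 76869784)⟩, ⟨(nat_lit 0), (nat_lit 100), (nat_lit 44), (nat_lit 86), (nat_lit 282960085)⟩], [⟨(nat_lit 1), (nat_lit 99), (nat_lit 44), (nat_lit 100), (nat_lit 227471106)⟩], [], [],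
 ⟨⟨[(nat_lit 40), (nat_lit 60)], [(nat_lit 0), (nat_lit 1539)], [((nat_lit 0), (nat_lit 0), (nat_lit 0)), ((nat_lit 1000), (nat_lit 478), (nat_lit 704))], ((nat_lit 48), (nat_lit 100), (nat_lit 69))⟩, (nat_lit 0), (nat_lit 250), (nat_lit 250), (nat_lit 0), (nat_lit 657997), [(nat_lit 1514831610), (nat_lit 1203088400)], [(nat_lit 0), (nat_lit 0)], [(nat_lit 22824811612), (nat_lit 24351358613), (nat_lit 24324227687), (nat_lit 25381361536), (nat_lit 24191876580), (nat_lit 25834788403), (nat_lit 25484283054), (nat_lit 26656937203)], (nat_lit 1271251), (nat_lit 1271251), (nat_lit 559688), (nat_lit 1429376), (nat_lit 1271251), (nat_lit 1271251), [(nat_lit 490000), (nat_lit 780000)], [(nat_lit 1), (nat_lit 38), (nat_lit 260), (nat_lit 50), (nat_lit 13)]⟩,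
 ⟨⟨[(nat_lit 120), (nat_lit 160), (nat_lit 180)], [(nat_lit 0), (nat_lit 533), (nat_lit 2066)], [((nat_lit 0), (nat_lit 0), (nat_lit 0)), ((nat_lit 960), (nat_lit 1000), (nat_lit 200)), ((nat_lit 615), (nat_lit 1000), (nat_lit 729))], ((nat_lit 100), (nat_lit 72), (nat_lit 63))⟩, (nat_lit 2071640), (nat_lit 386), (nat_lit 386), (nat_lit 0), (nat_lit 0), [(nat_lit 2366496000), (nat_lit 3525984000), (nat_lit 4175226000)], [], [(nat_lit 8229361980), (nat_lit 9243430171), (nat_lit 8270299580), (nat_lit 9145944590), (nat_lit 11159532256), (nat_lit 11596086434), (nat_lit 10356357795), (nat_lit 10655739168)], (nat_lit 0), (nat_lit 0), (nat_lit 0), (nat_lit 0), (nat_lit 0), (nat_lit 0), [], [(nat_lit 28), (nat_lit 65), (nat_lit 456), (nat_lit 225), (nat_lit 11)]⟩,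
 ⟨⟨[(nat_lit 140), (nat_lit 180), (nat_lit 200)], [(nat_lit 0), (nat_lit 0), (nat_lit 2835)], [((nat_lit 0), (nat_lit 0), (nat_lit 0)), ((nat_lit 0), (nat_lit 0), (nat_lit 0)), ((nat_lit 363), (nat_lit 1000), (nat_lit 798))], ((nat_lit 0), (nat_lit 0), (nat_lit 0))⟩, (nat_lit 23111), (nat_lit 300), (nat_lit 448), (nat_lit 6560402), (nat_lit 0), [(nat_lit 826728000), (nat_lit 1180872000), (nat_lit 1377600000)], [], [(nat_lit 5532110776), (nat_lit 5344267316), (nat_lit 5481446160), (nat_lit 5287632415), (nat_lit 4329872708), (nat_lit 4116319294), (nat_lit 4191079894), (nat_lit 3975551930)], (nat_lit 0), (nat_lit 0), (nat_lit 0), (nat_lit 0), (nat_lit 0), (nat_lit 0), [], [(nat_lit 32), (nat_lit 67), (nat_lit 456), (nat_lit 225), (nat_lit 10)]⟩⟩))) (.leaf ⟨(nat_lit 718), (nat_lit 174), (nat_lit 0), (nat_lit 108), (nat_lit 0), (nat_lit 3699), (nat_lit 3922), (nat_lit 2317), (nat_lit 0), (nat_lit 0), (nat_lit 287200), [((nat_lit 400), [((nat_lit 28),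 (nat_lit 1), (nat_lit 718))])], ⟨(nat_lit 4), true, false, false, (nat_lit 174), (nat_lit 0), (nat_lit 2237), [(nat_lit 1316293), (nat_lit 1333360), (nat_lit 1381836), (nat_lit 1405580), (nat_lit 1477224), (nat_lit 1474999), (nat_lit 1543695), (nat_lit 1548146)]⟩, ⟨(nat_lit 4), true, false, true, (nat_lit 183), (nat_lit 0), (nat_lit 2237), [(nat_lit 1338589), (nat_lit 1348168), (nat_lit 1360436), (nat_lit 1372242), (nat_lit 1554222), (nat_lit 1537494), (nat_lit 1576997), (nat_lit 1562495)]⟩, (nat_lit 4547121), (nat_lit 45671567), (nat_lit 10265245), (nat_lit 11063188), (nat_lit 4), (nat_lit 0), [⟨(nat_lit 0), (nat_lit 100), (nat_lit 31), (nat_lit 97), (nat_lit 473207740)⟩], [⟨(nat_lit 1), (nat_lit 100), (nat_lit 32), (nat_lit 100), (nat_lit 1344485)⟩], [], [],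
 ⟨⟨[(nat_lit 40), (nat_lit 60)], [(nat_lit 0), (nat_lit 1539)], [((nat_lit 0), (nat_lit 0), (nat_lit 0)), ((nat_lit 1000), (nat_lit 478), (nat_lit 704))], ((nat_lit 48), (nat_lit 100), (nat_lit 69))⟩, (nat_lit 0), (nat_lit 243), (nat_lit 243), (nat_lit 0), (nat_lit 601944), [(nat_lit 1508789601), (nat_lit 1158730400)], [(nat_lit 0), (nat_lit 0)], [(nat_lit 21607073525), (nat_lit 23098611434), (nat_lit 23382476493), (nat_lit 24551983140), (nat_lit 25161637849), (nat_lit 26556415729), (nat_lit 26380863168), (nat_lit 27307848448)], (nat_lit 1271251), (nat_lit 1271251), (nat_lit 559688), (nat_lit 1429376), (nat_lit 780000), (nat_lit 2008126), [(nat_lit 490000), (nat_lit 780000)], [(nat_lit 1), (nat_lit 38), (nat_lit 260), (nat_lit 50), (nat_lit 14)]⟩,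
 ⟨⟨[(nat_lit 120), (nat_lit 160), (nat_lit 180)], [(nat_lit 0), (nat_lit 533), (nat_lit 2066)], [((nat_lit 0), (nat_lit 0), (nat_lit 0)), ((nat_lit 960), (nat_lit 1000), (nat_lit 200)), ((nat_lit 615), (nat_lit 1000), (nat_lit 729))], ((nat_lit 100), (nat_lit 72), (nat_lit 63))⟩, (nat_lit 2046988), (nat_lit 386), (nat_lit 386), (nat_lit 0), (nat_lit 0), [(nat_lit 2246976000), (nat_lit 3347904000), (nat_lit 3964356000)], [], [(nat_lit 7716227074), (nat_lit 8769897909), (nat_lit 7819912453), (nat_lit 8658925876), (nat_lit 10705680762), (nat_lit 11124680996), (nat_lit 9916739303), (nat_lit 10197944564)], (nat_lit 0), (nat_lit 0), (nat_lit 0), (nat_lit 0), (nat_lit 0), (nat_lit 0), [], [(nat_lit 28), (nat_lit 65), (nat_lit 456), (nat_lit 225), (nat_lit 11)]⟩,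
 ⟨⟨[(nat_lit 120), (nat_lit 160), (nat_lit 180)], [(nat_lit 0), (nat_lit 0), (nat_lit 1613)], [((nat_lit 0), (nat_lit 0), (nat_lit 0)), ((nat_lit 0), (nat_lit 0), (nat_lit 0)), ((nat_lit 620), (nat_lit 1000), (nat_lit 670))], ((nat_lit 100), (nat_lit 65), (nat_lit 64))⟩, (nat_lit 47003), (nat_lit 300), (nat_lit 371), (nat_lit 8013601), (nat_lit 0), [(nat_lit 860544000), (nat_lit 1282176000), (nat_lit 1518264000)], [], [(nat_lit 5843158666), (nat_lit 5815179224), (nat_lit 5449568017), (nat_lit 5385062315), (nat_lit 5112925879), (nat_lit 5055738828), (nat_lit 4989002965), (nat_lit 4981050723)], (nat_lit 0), (nat_lit 0), (nat_lit 0), (nat_lit 0), (nat_lit 0), (nat_lit 0), [], [(nat_lit 28), (nat_lit 65), (nat_lit 456), (nat_lit 225), (nat_lit 11)]⟩⟩)) (.spl (nat_lit 4) (nat_lit 200) (.leaf ⟨(nat_lit 965), (nat_lit 13), (nat_lit 0), (nat_lit 22), (nat_lit 0), (nat_lit 3374), (nat_lit 471), (nat_lit 335), (nat_lit 0), (nat_lit 0), (nat_lit 386000), [((nat_lit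 400), [((nat_lit 28), (nat_lit 1), (nat_lit 965))])], ⟨(nat_lit 4), false, false, false, (nat_lit 174), (nat_lit 0), (nat_lit 2237), [(nat_lit 1316293), (nat_lit 1333360), (nat_lit 1381836), (nat_lit 1405580), (nat_lit 1477224), (nat_lit 1474999), (nat_lit 1543695), (nat_lit 1548146)]⟩, ⟨(nat_lit 3), true, false, true, (nat_lit 154), (nat_lit 0), (nat_lit 2237), [(nat_lit 1294870), (nat_lit 1299999), (nat_lit 1360436), (nat_lit 1372242), (nat_lit 1408898), (nat_lit 1399996), (nat_lit 1477224), (nat_lit 1474999)]⟩, (nat_lit 4266882), (nat_lit 47833816), (nat_lit 10477547), (nat_lit 8688637), (nat_lit 3), (nat_lit 0), [⟨(nat_lit 0), (nat_lit 100), (nat_lit 31), (nat_lit 97), (nat_lit 142690733)⟩], [], [], [],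
 ⟨⟨[(nat_lit 40), (nat_lit 60)], [(nat_lit 0), (nat_lit 1539)], [((nat_lit 0), (nat_lit 0), (nat_lit 0)), ((nat_lit 1000), (nat_lit 478), (nat_lit 704))], ((nat_lit 48), (nat_lit 100), (nat_lit 69))⟩, (nat_lit 0), (nat_lit 189), (nat_lit 189), (nat_lit 0), (nat_lit 422969), [(nat_lit 1409298001), (nat_lit 428302000)], [(nat_lit 0), (nat_lit 0)], [(nat_lit 20637353834), (nat_lit 22570936071), (nat_lit 22466229865), (nat_lit 23871630338), (nat_lit 22158207991), (nat_lit 23762611960), (nat_lit 23815302160), (nat_lit 24957879644)], (nat_lit 1271251), (nat_lit 1271251), (nat_lit 559688), (nat_lit 1429376), (nat_lit 780000), (nat_lit 1435001), [(nat_lit 490000), (nat_lit 780000)], [(nat_lit 1), (nat_lit 38), (nat_lit 260), (nat_lit 50), (nat_lit 14)]⟩,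
 ⟨⟨[(nat_lit 120), (nat_lit 160), (nat_lit 180)], [(nat_lit 0), (nat_lit 533), (nat_lit 2066)], [((nat_lit 0), (nat_lit 0), (nat_lit 0)), ((nat_lit 960), (nat_lit 1000), (nat_lit 200)), ((nat_lit 615), (nat_lit 1000), (nat_lit 729))], ((nat_lit 100), (nat_lit 72), (nat_lit 63))⟩, (nat_lit 464887), (nat_lit 1945), (nat_lit 1945), (nat_lit 0), (nat_lit 3284083), [(nat_lit 278880000), (nat_lit 415520000), (nat_lit 492030000)], [], [(nat_lit 1605684332), (nat_lit 1055154677), (nat_lit 1506557171), (nat_lit 966001398), (nat_lit 2179287740), (nat_lit 1537308323), (nat_lit 2777136924), (nat_lit 2157301866)], (nat_lit 1271251), (nat_lit 1271251), (nat_lit 559688), (nat_lit 1429376), (nat_lit 0), (nat_lit 2825001), [(nat_lit 1695001), (nat_lit 1271251), (nat_lit 1271251)], [(nat_lit 28), (nat_lit 65), (nat_lit 592), (nat_lit 225), (nat_lit 14)]⟩,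
 ⟨⟨[(nat_lit 140), (nat_lit 180), (nat_lit 200)], [(nat_lit 0), (nat_lit 0), (nat_lit 2835)], [((nat_lit 0), (nat_lit 0), (nat_lit 0)), ((nat_lit 0), (nat_lit 0), (nat_lit 0)), ((nat_lit 363), (nat_lit 1000), (nat_lit 798))], ((nat_lit 0), (nat_lit 0), (nat_lit 0))⟩, (nat_lit 6053), (nat_lit 300), (nat_lit 491), (nat_lit 1718200), (nat_lit 0), [(nat_lit 216524000), (nat_lit 309276000), (nat_lit 360800000)], [], [(nat_lit 1535258058), (nat_lit 1474923473), (nat_lit 1452830452), (nat_lit 1390983240), (nat_lit 1226321414), (nat_lit 1150232757), (nat_lit 1123419716), (nat_lit 1047342985)], (nat_lit 0), (nat_lit 0), (nat_lit 0), (nat_lit 0), (nat_lit 0), (nat_lit 0), [], [(nat_lit 32), (nat_lit 67), (nat_lit 428), (nat_lit 200), (nat_lit 9)]⟩⟩) (.spl (nat_lit 1) (nat_lit 220) (.leaf ⟨(nat_lit 959), (nat_lit 0), (nat_lit 0), (nat_lit 41), (nat_lit 0), (nat_lit 3316), (nat_lit 456), (nat_lit 546), (nat_lit 0), (nat_lit 0), (nat_lit 383600), [((nat_lit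 400), [((nat_lit 28), (nat_lit 1), (nat_lit 959))])], ⟨(nat_lit 4), false, false, false, (nat_lit 169), (nat_lit 0), (nat_lit 2237), [(nat_lit 1316293), (nat_lit 1333360), (nat_lit 1359989), (nat_lit 1381507), (nat_lit 1477224), (nat_lit 1474999), (nat_lit 1521847), (nat_lit 1524073)]⟩, ⟨(nat_lit 5), true, false, true, (nat_lit 195), (nat_lit 0), (nat_lit 2237), [(nat_lit 1408898), (nat_lit 1399996), (nat_lit 1477224), (nat_lit 1474999), (nat_lit 1508671), (nat_lit 1487491), (nat_lit 1576997), (nat_lit 1562495)]⟩, (nat_lit 4610812), (nat_lit 45042480), (nat_lit 9775785), (nat_lit 12181735), (nat_lit 0), (nat_lit 0), [⟨(nat_lit 0), (nat_lit 100), (nat_lit 44), (nat_lit 86), (nat_lit 27746353)⟩], [⟨(nat_lit 1), (nat_lit 94), (nat_lit 44), (nat_lit 100), (nat_lit 261970197)⟩], [], [],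
 ⟨⟨[(nat_lit 40), (nat_lit 60)], [(nat_lit 0), (nat_lit 1539)], [((nat_lit 0), (nat_lit 0), (nat_lit 0)), ((nat_lit 1000), (nat_lit 478), (nat_lit 704))], ((nat_lit 48), (nat_lit 100), (nat_lit 69))⟩, (nat_lit 339), (nat_lit 183), (nat_lit 183), (nat_lit 0), (nat_lit 414531), [(nat_lit 1411714812), (nat_lit 446045200)], [(nat_lit 0), (nat_lit 0)], [(nat_lit 22284346177), (nat_lit 23681694173), (nat_lit 23953979485), (nat_lit 25087615008), (nat_lit 24516265573), (nat_lit 25983125937), (nat_lit 25877285817), (nat_lit 26902476465)], (nat_lit 1271251), (nat_lit 1271251), (nat_lit 559688), (nat_lit 1429376), (nat_lit 1271251), (nat_lit 1271251), [(nat_lit 490000), (nat_lit 780000)], [(nat_lit 1), (nat_lit 38), (nat_lit 260), (nat_lit 50), (nat_lit 13)]⟩,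
 ⟨⟨[(nat_lit 120), (nat_lit 160), (nat_lit 180)], [(nat_lit 0), (nat_lit 533), (nat_lit 2066)], [((nat_lit 0), (nat_lit 0), (nat_lit 0)), ((nat_lit 960), (nat_lit 1000), (nat_lit 200)), ((nat_lit 615), (nat_lit 1000), (nat_lit 729))], ((nat_lit 100), (nat_lit 72), (nat_lit 63))⟩, (nat_lit 472519), (nat_lit 1937), (nat_lit 1937), (nat_lit 0), (nat_lit 3267364), [(nat_lit 326688000), (nat_lit 486752000), (nat_lit 576378000)], [], [(nat_lit 1810220223), (nat_lit 1333401885), (nat_lit 1731627624), (nat_lit 1273773984), (nat_lit 2438579121), (nat_lit 2024222979), (nat_lit 3042138624), (nat_lit 2642075232)], (nat_lit 1271251), (nat_lit 1271251), (nat_lit 559688), (nat_lit 1429376), (nat_lit 0), (nat_lit 2825001), [(nat_lit 1695001), (nat_lit 1271251), (nat_lit 1271251)], [(nat_lit 28), (nat_lit 65), (nat_lit 587), (nat_lit 225), (nat_lit 14)]⟩,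
 ⟨⟨[(nat_lit 140), (nat_lit 180), (nat_lit 200)], [(nat_lit 0), (nat_lit 0), (nat_lit 2835)], [((nat_lit 0), (nat_lit 0), (nat_lit 0)), ((nat_lit 0), (nat_lit 0), (nat_lit 0)), ((nat_lit 363), (nat_lit 1000), (nat_lit 798))], ((nat_lit 0), (nat_lit 0), (nat_lit 0))⟩, (nat_lit 11737), (nat_lit 300), (nat_lit 448), (nat_lit 3202100), (nat_lit 0), [(nat_lit 403522000), (nat_lit 576378000), (nat_lit 672400000)], [], [(nat_lit 2681095513), (nat_lit 2581489455), (nat_lit 2673155552), (nat_lit 2569658783), (nat_lit 2176816924), (nat_lit 2057075339), (nat_lit 2111962867), (nat_lit 1988230875)], (nat_lit 0), (nat_lit 0), (nat_lit 0), (nat_lit 0), (nat_lit 0), (nat_lit 0), [], [(nat_lit 32), (nat_lit 67), (nat_lit 456), (nat_lit 225), (nat_lit 10)]⟩⟩) (.trZ (nat_lit 0) (nat_lit 1) (nat_lit 3) (nat_lit 100) (nat_lit 44) (nat_lit 94) (nat_lit 130) (.leaf ⟨(nat_lit 930), (nat_lit 0), (nat_lit 0), (nat_lit 70), (nat_lit 0), (nat_lit 3386), (nat_lit 709), (nat_lit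 932), (nat_lit 0), (nat_lit 0), (nat_lit 372000), [((nat_lit 400), [((nat_lit 28), (nat_lit 1), (nat_lit 930))])], ⟨(nat_lit 5), false, false, false, (nat_lit 194), (nat_lit 0), (nat_lit 2237), [(nat_lit 1418846), (nat_lit 1433349), (nat_lit 1440694), (nat_lit 1457423), (nat_lit 1521847), (nat_lit 1524073), (nat_lit 1543695), (nat_lit 1548146)]⟩, ⟨(nat_lit 5), true, false, true, (nat_lit 195), (nat_lit 0), (nat_lit 2237), [(nat_lit 1408898), (nat_lit 1399996), (nat_lit 1477224), (nat_lit 1474999), (nat_lit 1508671), (nat_lit 1487491), (nat_lit 1576997), (nat_lit 1562495)]⟩, (nat_lit 4827726), (nat_lit 43222485), (nat_lit 11867697), (nat_lit 11909818), (nat_lit 0), (nat_lit 0), [⟨(nat_lit 0), (nat_lit 100), (nat_lit 32), (nat_lit 100), (nat_lit 35338666)⟩, ⟨(nat_lit 0), (nat_lit 100), (nat_lit 44), (nat_lit 94), (nat_lit 143269920)⟩], [⟨(nat_lit 1), (nat_lit 94), (nat_lit 44), (nat_lit 100), (nat_lit 220879512)⟩], [⟨(nat_lit 0), (nat_lit 100), (nat_lit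 98), (nat_lit 10), (nat_lit 30868478)⟩], [],
 ⟨⟨[(nat_lit 40), (nat_lit 60)], [(nat_lit 0), (nat_lit 1539)], [((nat_lit 0), (nat_lit 0), (nat_lit 0)), ((nat_lit 1000), (nat_lit 478), (nat_lit 704))], ((nat_lit 48), (nat_lit 100), (nat_lit 69))⟩, (nat_lit 0), (nat_lit 171), (nat_lit 171), (nat_lit 0), (nat_lit 422654), [(nat_lit 1423396001), (nat_lit 531804000)], [(nat_lit 0), (nat_lit 0)], [(nat_lit 22599703034), (nat_lit 23922185853), (nat_lit 23845002419), (nat_lit 24989429964), (nat_lit 24738622809), (nat_lit 26148681850), (nat_lit 25773396630), (nat_lit 26976362953)], (nat_lit 1271251), (nat_lit 1271251), (nat_lit 857188), (nat_lit 1436876), (nat_lit 1271251), (nat_lit 1271251), [(nat_lit 490000), (nat_lit 780000)], [(nat_lit 1), (nat_lit 38), (nat_lit 203), (nat_lit 0), (nat_lit 9)]⟩,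
 ⟨⟨[(nat_lit 100), (nat_lit 140), (nat_lit 160)], [(nat_lit 0), (nat_lit 508), (nat_lit 1689)], [((nat_lit 0), (nat_lit 0), (nat_lit 0)), ((nat_lit 1000), (nat_lit 1000), (nat_lit 198)), ((nat_lit 811), (nat_lit 1000), (nat_lit 671))], ((nat_lit 100), (nat_lit 84), (nat_lit 63))⟩, (nat_lit 697931), (nat_lit 1358), (nat_lit 1358), (nat_lit 0), (nat_lit 2273495), [(nat_lit 437500000), (nat_lit 688940000), (nat_lit 831040000)], [], [(nat_lit 2801727143), (nat_lit 2425311509), (nat_lit 1735587675), (nat_lit 1717184820), (nat_lit 3008593962), (nat_lit 2682178161), (nat_lit 3692952874), (nat_lit 3373915990)], (nat_lit 1271251), (nat_lit 1271251), (nat_lit 857188), (nat_lit 1436876), (nat_lit 0), (nat_lit 2825001), [(nat_lit 1412501), (nat_lit 1271251), (nat_lit 1271251)], [(nat_lit 23), (nat_lit 62), (nat_lit 456), (nat_lit 225), (nat_lit 12)]⟩,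
 ⟨⟨[(nat_lit 140), (nat_lit 180), (nat_lit 200)], [(nat_lit 0), (nat_lit 0), (nat_lit 2835)], [((nat_lit 0), (nat_lit 0), (nat_lit 0)), ((nat_lit 0), (nat_lit 0), (nat_lit 0)), ((nat_lit 363), (nat_lit 1000), (nat_lit 798))], ((nat_lit 0), (nat_lit 0), (nat_lit 0))⟩, (nat_lit 19259), (nat_lit 300), (nat_lit 448), (nat_lit 5467004), (nat_lit 0), [(nat_lit 688940000), (nat_lit 984060000), (nat_lit 1148000000)], [], [(nat_lit 4577482924), (nat_lit 4407395719), (nat_lit 4563871488), (nat_lit 4387222313), (nat_lit 3716725512), (nat_lit 3512344954), (nat_lit 3606039902), (nat_lit 3394847456)], (nat_lit 0), (nat_lit 0), (nat_lit 0), (nat_lit 0), (nat_lit 0), (nat_lit 0), [], [(nat_lit 32), (nat_lit 67), (nat_lit 456), (nat_lit 225), (nat_lit 10)]⟩⟩)))))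
noncomputable def c13_8 : Tr Lf :=
 (.spl (nat_lit 1) (nat_lit 220) (.spl (nat_lit 4) (nat_lit 160) (.leaf ⟨(nat_lit 1000), (nat_lit 0), (nat_lit 0), (nat_lit 0), (nat_lit 0), (nat_lit 3521), (nat_lit 0), (nat_lit 0), (nat_lit 0), (nat_lit 0), (nat_lit 600000), [((nat_lit 400), [((nat_lit 43), (nat_lit 2), (nat_lit 1000))])], ⟨(nat_lit 4), false, false, false, (nat_lit 169), (nat_lit 0), (nat_lit 2237), [(nat_lit 1316293), (nat_lit 1333360), (nat_lit 1359989), (nat_lit 1381507), (nat_lit 1477224), (nat_lit 1474999), (nat_lit 1521847), (nat_lit 1524073)]⟩, ⟨(nat_lit 3), false, false, false, (nat_lit 144), (nat_lit 0), (nat_lit 2237), [(nat_lit 1294870), (nat_lit 1299999), (nat_lit 1360436), (nat_lit 1372242), (nat_lit 1351885), (nat_lit 1349998), (nat_lit 1419294), (nat_lit 1424084)]⟩, (nat_lit 4097776), (nat_lit 49030173), (nat_lit 10137269), (nat_lit 7832558), (nat_lit 0), (nat_lit 0), [], [⟨(nat_lit 1), (nat_lit 100), (nat_lit 31), (nat_lit 97),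 (nat_lit 79547702)⟩], [], [],
 ⟨⟨[(nat_lit 40), (nat_lit 60)], [(nat_lit 0), (nat_lit 1539)], [((nat_lit 0), (nat_lit 0), (nat_lit 0)), ((nat_lit 1000), (nat_lit 478), (nat_lit 704))], ((nat_lit 48), (nat_lit 100), (nat_lit 69))⟩, (nat_lit 5748), (nat_lit 210), (nat_lit 210), (nat_lit 0), (nat_lit 506365), [(nat_lit 1392000006), (nat_lit 0)], [(nat_lit 0), (nat_lit 633200000)], [(nat_lit 20830050575), (nat_lit 22809607697), (nat_lit 22607820227), (nat_lit 24053511527), (nat_lit 21251407062), (nat_lit 22916059836), (nat_lit 23007612837), (nat_lit 24168678100)], (nat_lit 1271251), (nat_lit 1271251), (nat_lit 559688), (nat_lit 1429376), (nat_lit 780000), (nat_lit 1100000), [(nat_lit 490000), (nat_lit 780000)], [(nat_lit 1), (nat_lit 38), (nat_lit 260), (nat_lit 50), (nat_lit 14)]⟩,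
 Rw.none,
 Rw.none⟩) (.leaf ⟨(nat_lit 1000), (nat_lit 0), (nat_lit 0), (nat_lit 0), (nat_lit 0), (nat_lit 3496), (nat_lit 0), (nat_lit 0), (nat_lit 0), (nat_lit 0), (nat_lit 600000), [((nat_lit 400), [((nat_lit 43), (nat_lit 2), (nat_lit 1000))])], ⟨(nat_lit 4), false, false, false, (nat_lit 169), (nat_lit 0), (nat_lit 2237), [(nat_lit 1316293), (nat_lit 1333360), (nat_lit 1359989), (nat_lit 1381507), (nat_lit 1477224), (nat_lit 1474999), (nat_lit 1521847), (nat_lit 1524073)]⟩, ⟨(nat_lit 4), false, false, true, (nat_lit 165), (nat_lit 0), (nat_lit 2237), [(nat_lit 1351885), (nat_lit 1349998), (nat_lit 1419294), (nat_lit 1424084), (nat_lit 1408898), (nat_lit 1399996), (nat_lit 1477224), (nat_lit 1474999)]⟩, (nat_lit 4335772), (nat_lit 47367333), (nat_lit 10006831), (nat_lit 9625836), (nat_lit 0), (nat_lit 0), [], [], [], [],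
 ⟨⟨[(nat_lit 40), (nat_lit 60)], [(nat_lit 0), (nat_lit 1539)], [((nat_lit 0), (nat_lit 0), (nat_lit 0)), ((nat_lit 1000), (nat_lit 478), (nat_lit 704))], ((nat_lit 48), (nat_lit 100), (nat_lit 69))⟩, (nat_lit 4739), (nat_lit 202), (nat_lit 202), (nat_lit 0), (nat_lit 506365), [(nat_lit 1392000025), (nat_lit 0)], [(nat_lit 0), (nat_lit 633200000)], [(nat_lit 21317646628), (nat_lit 22881034436), (nat_lit 23078337269), (nat_lit 24235536445), (nat_lit 22373567879), (nat_lit 23932818338), (nat_lit 23977764807), (nat_lit 25065878885)], (nat_lit 1271251), (nat_lit 1271251), (nat_lit 559688), (nat_lit 1429376), (nat_lit 1100000), (nat_lit 1442501), [(nat_lit 490000), (nat_lit 780000)], [(nat_lit 1), (nat_lit 38), (nat_lit 260), (nat_lit 50), (nat_lit 14)]⟩,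
 Rw.none,
 Rw.none⟩)) (.trZ (nat_lit 0) (nat_lit 1) (nat_lit 3) (nat_lit 100) (nat_lit 44) (nat_lit 94) (nat_lit 130) (.spl (nat_lit 5) (nat_lit 200) (.leaf ⟨(nat_lit 886), (nat_lit 114), (nat_lit 0), (nat_lit 0), (nat_lit 0), (nat_lit 3561), (nat_lit 972), (nat_lit 0), (nat_lit 0), (nat_lit 0), (nat_lit 421200), [((nat_lit 400), [((nat_lit 28), (nat_lit 1), (nat_lit 552)), ((nat_lit 43), (nat_lit 2), (nat_lit 334))])], ⟨(nat_lit 5), false, false, false, (nat_lit 194), (nat_lit 0), (nat_lit 2237), [(nat_lit 1418846), (nat_lit 1433349), (nat_lit 1440694), (nat_lit 1457423), (nat_lit 1521847), (nat_lit 1524073), (nat_lit 1543695), (nat_lit 1548146)]⟩, ⟨(nat_lit 3), false, false, true, (nat_lit 154), (nat_lit 0), (nat_lit 2237), [(nat_lit 1294870), (nat_lit 1299999), (nat_lit 1360436), (nat_lit 1372242), (nat_lit 1408898), (nat_lit 1399996), (nat_lit 1477224), (nat_lit 1474999)]⟩, (nat_lit 4457527), (nat_lit 46156876), (nat_lit 12286258), (nat_lit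 8556866), (nat_lit 3), (nat_lit 0), [⟨(nat_lit 0), (nat_lit 100), (nat_lit 32), (nat_lit 100), (nat_lit 160217469)⟩], [], [], [],
 ⟨⟨[(nat_lit 40), (nat_lit 60)], [(nat_lit 0), (nat_lit 1539)], [((nat_lit 0), (nat_lit 0), (nat_lit 0)), ((nat_lit 1000), (nat_lit 478), (nat_lit 704))], ((nat_lit 48), (nat_lit 100), (nat_lit 69))⟩, (nat_lit 0), (nat_lit 209), (nat_lit 209), (nat_lit 0), (nat_lit 537644), [(nat_lit 1440050401), (nat_lit 341948800)], [(nat_lit 0), (nat_lit 0)], [(nat_lit 21365891213), (nat_lit 22989727287), (nat_lit 22739605672), (nat_lit 24103003007), (nat_lit 22838380722), (nat_lit 24129503322), (nat_lit 24034039355), (nat_lit 25131292790)], (nat_lit 1271251), (nat_lit 1271251), (nat_lit 857188), (nat_lit 1436876), (nat_lit 780000), (nat_lit 1435001), [(nat_lit 490000), (nat_lit 780000)], [(nat_lit 1), (nat_lit 38), (nat_lit 203), (nat_lit 0), (nat_lit 10)]⟩,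
 ⟨⟨[(nat_lit 100), (nat_lit 140), (nat_lit 160)], [(nat_lit 0), (nat_lit 508), (nat_lit 1689)], [((nat_lit 0), (nat_lit 0), (nat_lit 0)), ((nat_lit 1000), (nat_lit 1000), (nat_lit 198)), ((nat_lit 811), (nat_lit 1000), (nat_lit 671))], ((nat_lit 100), (nat_lit 84), (nat_lit 63))⟩, (nat_lit 697216), (nat_lit 1179), (nat_lit 1179), (nat_lit 0), (nat_lit 1884806), [(nat_lit 712500000), (nat_lit 1121988000), (nat_lit 1353408000)], [], [(nat_lit 4479117103), (nat_lit 4454246911), (nat_lit 4354470322), (nat_lit 4330215352), (nat_lit 3898046953), (nat_lit 3875523745), (nat_lit 4218992334), (nat_lit 3752172456)], (nat_lit 1271251), (nat_lit 1271251), (nat_lit 857188), (nat_lit 1436876), (nat_lit 0), (nat_lit 1412501), [(nat_lit 1412501), (nat_lit 1271251), (nat_lit 1271251)], [(nat_lit 23), (nat_lit 62), (nat_lit 401), (nat_lit 175), (nat_lit 10)]⟩,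
 Rw.none⟩) (.stt (nat_lit 1) (.leaf ⟨(nat_lit 1000), (nat_lit 0), (nat_lit 0), (nat_lit 0), (nat_lit 0), (nat_lit 3312), (nat_lit 0), (nat_lit 0), (nat_lit 0), (nat_lit 0), (nat_lit 250000), [((nat_lit 400), [((nat_lit 28), (nat_lit 0), (nat_lit 1000))])], ⟨(nat_lit 5), false, false, false, (nat_lit 194), (nat_lit 0), (nat_lit 2237), [(nat_lit 1418846), (nat_lit 1433349), (nat_lit 1440694), (nat_lit 1457423), (nat_lit 1521847), (nat_lit 1524073), (nat_lit 1543695), (nat_lit 1548146)]⟩, ⟨(nat_lit 3), false, false, true, (nat_lit 154), (nat_lit 0), (nat_lit 2237), [(nat_lit 1294870), (nat_lit 1299999), (nat_lit 1360436), (nat_lit 1372242), (nat_lit 1408898), (nat_lit 1399996), (nat_lit 1477224), (nat_lit 1474999)]⟩, (nat_lit 4457527), (nat_lit 46156876), (nat_lit 12286258), (nat_lit 8556866), (nat_lit 0), (nat_lit 0), [], [], [], [],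
 ⟨⟨[(nat_lit 40), (nat_lit 60)], [(nat_lit 0), (nat_lit 1539)], [((nat_lit 0), (nat_lit 0), (nat_lit 0)), ((nat_lit 1000), (nat_lit 478), (nat_lit 704))], ((nat_lit 48), (nat_lit 100), (nat_lit 69))⟩, (nat_lit 0), (nat_lit 72), (nat_lit 72), (nat_lit 0), (nat_lit 0), [(nat_lit 1563200180), (nat_lit 1046000000)], [(nat_lit 0), (nat_lit 0)], [(nat_lit 20821860608), (nat_lit 22639198408), (nat_lit 22168243354), (nat_lit 23794918544), (nat_lit 22228797189), (nat_lit 23834520180), (nat_lit 23494617736), (nat_lit 24880581536)], (nat_lit 0), (nat_lit 0), (nat_lit 0), (nat_lit 0), (nat_lit 0), (nat_lit 0), [], [(nat_lit 1), (nat_lit 38), (nat_lit 203), (nat_lit 0), (nat_lit 10)]⟩,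
 Rw.none,
 Rw.none⟩) (.leaf ⟨(nat_lit 824), (nat_lit 132), (nat_lit 0), (nat_lit 44), (nat_lit 0), (nat_lit 3597), (nat_lit 1671), (nat_lit 507), (nat_lit 0), (nat_lit 0), (nat_lit 329600), [((nat_lit 400), [((nat_lit 28), (nat_lit 1), (nat_lit 824))])], ⟨(nat_lit 5), false, false, false, (nat_lit 194), (nat_lit 0), (nat_lit 2237), [(nat_lit 1418846), (nat_lit 1433349), (nat_lit 1440694), (nat_lit 1457423), (nat_lit 1521847), (nat_lit 1524073), (nat_lit 1543695), (nat_lit 1548146)]⟩, ⟨(nat_lit 3), false, false, true, (nat_lit 154), (nat_lit 0), (nat_lit 2237), [(nat_lit 1294870), (nat_lit 1299999), (nat_lit 1360436), (nat_lit 1372242), (nat_lit 1408898), (nat_lit 1399996), (nat_lit 1477224), (nat_lit 1474999)]⟩, (nat_lit 4457527), (nat_lit 46156876), (nat_lit 12286258), (nat_lit 8556866), (nat_lit 5), (nat_lit 0), [⟨(nat_lit 0), (nat_lit 100), (nat_lit 32), (nat_lit 100), (nat_lit 181429605)⟩], [], [⟨(nat_lit 1), (nat_lit 40), (nat_lit 100), (nat_lit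 98), (nat_lit 19086378)⟩], [],
 ⟨⟨[(nat_lit 40), (nat_lit 60)], [(nat_lit 0), (nat_lit 1539)], [((nat_lit 0), (nat_lit 0), (nat_lit 0)), ((nat_lit 1000), (nat_lit 478), (nat_lit 704))], ((nat_lit 48), (nat_lit 100), (nat_lit 69))⟩, (nat_lit 0), (nat_lit 209), (nat_lit 209), (nat_lit 0), (nat_lit 537644), [(nat_lit 1466092801), (nat_lit 845267200)], [(nat_lit 0), (nat_lit 0)], [(nat_lit 21400640114), (nat_lit 23040406161), (nat_lit 22772197795), (nat_lit 24147545339), (nat_lit 22869917053), (nat_lit 24172151487), (nat_lit 24062356217), (nat_lit 25166166641)], (nat_lit 1271251), (nat_lit 1271251), (nat_lit 857188), (nat_lit 1436876), (nat_lit 780000), (nat_lit 1435001), [(nat_lit 490000), (nat_lit 780000)], [(nat_lit 1), (nat_lit 38), (nat_lit 203), (nat_lit 0), (nat_lit 10)]⟩,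
 ⟨⟨[(nat_lit 100), (nat_lit 140), (nat_lit 160)], [(nat_lit 0), (nat_lit 508), (nat_lit 1689)], [((nat_lit 0), (nat_lit 0), (nat_lit 0)), ((nat_lit 1000), (nat_lit 1000), (nat_lit 198)), ((nat_lit 811), (nat_lit 1000), (nat_lit 671))], ((nat_lit 100), (nat_lit 84), (nat_lit 63))⟩, (nat_lit 937206), (nat_lit 435), (nat_lit 435), (nat_lit 0), (nat_lit 618644), [(nat_lit 1100000000), (nat_lit 1732192000), (nat_lit 2089472000)], [], [(nat_lit 4248134920), (nat_lit 4274592151), (nat_lit 5442924990), (nat_lit 4638817231), (nat_lit 5696615204), (nat_lit 5732592107), (nat_lit 5582209049), (nat_lit 5605548302)], (nat_lit 1271251), (nat_lit 1271251), (nat_lit 857188), (nat_lit 1436876), (nat_lit 1271251), (nat_lit 1271251), [(nat_lit 1412501), (nat_lit 1271251), (nat_lit 1271251)], [(nat_lit 23), (nat_lit 62), (nat_lit 456), (nat_lit 225), (nat_lit 11)]⟩,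
 ⟨⟨[(nat_lit 140), (nat_lit 180), (nat_lit 200)], [(nat_lit 0), (nat_lit 0), (nat_lit 2835)], [((nat_lit 0), (nat_lit 0), (nat_lit 0)), ((nat_lit 0), (nat_lit 0), (nat_lit 0)), ((nat_lit 363), (nat_lit 1000), (nat_lit 798))], ((nat_lit 0), (nat_lit 0), (nat_lit 0))⟩, (nat_lit 12106), (nat_lit 300), (nat_lit 2214), (nat_lit 3436400), (nat_lit 3880299), [(nat_lit 433048000), (nat_lit 618552000), (nat_lit 721600000)], [], [(nat_lit 2828209551), (nat_lit 2713832124), (nat_lit 2674546786), (nat_lit 2560576700), (nat_lit 2662660424), (nat_lit 2543471163), (nat_lit 2502402864), (nat_lit 2386888843)], (nat_lit 780000), (nat_lit 1271251), (nat_lit 780000), (nat_lit 1435001), (nat_lit 1271251), (nat_lit 1271251), [(nat_lit 1977501), (nat_lit 1271251), (nat_lit 1271251)], [(nat_lit 32), (nat_lit 67), (nat_lit 651), (nat_lit 200), (nat_lit 13)]⟩⟩)))))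
noncomputable def c13_9 : Tr Lf :=
 (.trX (nat_lit 5) (nat_lit 4) (nat_lit 3) (nat_lit 100) (nat_lit 40) (nat_lit 92) (nat_lit 390) (.leaf ⟨(nat_lit 1000), (nat_lit 0), (nat_lit 0), (nat_lit 0), (nat_lit 0), (nat_lit 3426), (nat_lit 0), (nat_lit 0), (nat_lit 0), (nat_lit 0), (nat_lit 337300), [((nat_lit 400), [((nat_lit 28), (nat_lit 0), (nat_lit 418)), ((nat_lit 28), (nat_lit 1), (nat_lit 582))])], ⟨(nat_lit 4), false, false, false, (nat_lit 152), (nat_lit 0), (nat_lit 2237), [(nat_lit 1316293), (nat_lit 1333360), (nat_lit 1381836), (nat_lit 1405580), (nat_lit 1360436), (nat_lit 1372242), (nat_lit 1425979), (nat_lit 1444462)]⟩, ⟨(nat_lit 5), false, false, true, (nat_lit 195), (nat_lit 0), (nat_lit 2237), [(nat_lit 1408898), (nat_lit 1399996), (nat_lit 1477224), (nat_lit 1474999), (nat_lit 1508671), (nat_lit 1487491), (nat_lit 1576997), (nat_lit 1562495)]⟩, (nat_lit 4435881), (nat_lit 46292858), (nat_lit 8360099), (nat_lit 12347043), (nat_lit 0),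 (nat_lit 0), [⟨(nat_lit 0), (nat_lit 100), (nat_lit 44), (nat_lit 86), (nat_lit 554112719)⟩], [⟨(nat_lit 1), (nat_lit 94), (nat_lit 44), (nat_lit 100), (nat_lit 367120989)⟩], [], [],
 ⟨⟨[(nat_lit 40), (nat_lit 60)], [(nat_lit 0), (nat_lit 1539)], [((nat_lit 0), (nat_lit 0), (nat_lit 0)), ((nat_lit 1000), (nat_lit 478), (nat_lit 704))], ((nat_lit 48), (nat_lit 100), (nat_lit 69))⟩, (nat_lit 0), (nat_lit 148), (nat_lit 148), (nat_lit 0), (nat_lit 301452), [(nat_lit 1465424001), (nat_lit 626261600)], [(nat_lit 0), (nat_lit 0)], [(nat_lit 22278289768), (nat_lit 23835158941), (nat_lit 22581451744), (nat_lit 23935969262), (nat_lit 24657117270), (nat_lit 26147778358), (nat_lit 24750293958), (nat_lit 26186677505)], (nat_lit 1271251), (nat_lit 1271251), (nat_lit 559688), (nat_lit 780000), (nat_lit 1271251), (nat_lit 1271251), [(nat_lit 490000), (nat_lit 780000)], [(nat_lit 1), (nat_lit 38), (nat_lit 238), (nat_lit 30), (nat_lit 12)]⟩,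
 Rw.none,
 Rw.none⟩))
noncomputable def c13_10 : Tr Lf :=
 (.spl (nat_lit 1) (nat_lit 220) (.spl (nat_lit 2) (nat_lit 160) (.trX (nat_lit 4) (nat_lit 0) (nat_lit 2) (nat_lit 44) (nat_lit 99) (nat_lit 100) (nat_lit 250) (.leaf ⟨(nat_lit 1000), (nat_lit 0), (nat_lit 0), (nat_lit 0), (nat_lit 0), (nat_lit 3474), (nat_lit 0), (nat_lit 0), (nat_lit 0), (nat_lit 0), (nat_lit 600000), [((nat_lit 400), [((nat_lit 43), (nat_lit 2), (nat_lit 1000))])], ⟨(nat_lit 4), true, false, false, (nat_lit 178), (nat_lit 0), (nat_lit 2237), [(nat_lit 1360436), (nat_lit 1372242), (nat_lit 1404132), (nat_lit 1420388), (nat_lit 1477224), (nat_lit 1474999), (nat_lit 1521847), (nat_lit 1524073)]⟩, ⟨(nat_lit 5), false, false, true, (nat_lit 185), (nat_lit 0), (nat_lit 2237), [(nat_lit 1408898), (nat_lit 1399996), (nat_lit 1454449), (nat_lit 1449998), (nat_lit 1480164), (nat_lit 1462492), (nat_lit 1525715), (nat_lit 1512494)]⟩, (nat_lit 4601107), (nat_lit 45223231), (nat_lit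 10559648), (nat_lit 11217121), (nat_lit 0), (nat_lit 0), [], [⟨(nat_lit 1), (nat_lit 99), (nat_lit 44), (nat_lit 100), (nat_lit 291713745)⟩], [], [],
 ⟨⟨[(nat_lit 40), (nat_lit 60)], [(nat_lit 0), (nat_lit 1539)], [((nat_lit 0), (nat_lit 0), (nat_lit 0)), ((nat_lit 1000), (nat_lit 478), (nat_lit 704))], ((nat_lit 48), (nat_lit 100), (nat_lit 69))⟩, (nat_lit 16969), (nat_lit 195), (nat_lit 195), (nat_lit 0), (nat_lit 506320), [(nat_lit 1392000058), (nat_lit 0)], [(nat_lit 0), (nat_lit 633200000)], [(nat_lit 22735268660), (nat_lit 23995359038), (nat_lit 24040034223), (nat_lit 25125054980), (nat_lit 24104808460), (nat_lit 25432167154), (nat_lit 25254447255), (nat_lit 26333854720)], (nat_lit 1271251), (nat_lit 1271251), (nat_lit 780000), (nat_lit 1435001), (nat_lit 1271251), (nat_lit 1271251), [(nat_lit 490000), (nat_lit 780000)], [(nat_lit 1), (nat_lit 38), (nat_lit 203), (nat_lit 0), (nat_lit 9)]⟩,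
 Rw.none,
 Rw.none⟩)) (.leaf ⟨(nat_lit 869), (nat_lit 92), (nat_lit 0), (nat_lit 39), (nat_lit 0), (nat_lit 3404), (nat_lit 1648), (nat_lit 438), (nat_lit 0), (nat_lit 0), (nat_lit 347600), [((nat_lit 400), [((nat_lit 28), (nat_lit 1), (nat_lit 869))])], ⟨(nat_lit 4), true, false, false, (nat_lit 178), (nat_lit 0), (nat_lit 2237), [(nat_lit 1360436), (nat_lit 1372242), (nat_lit 1404132), (nat_lit 1420388), (nat_lit 1477224), (nat_lit 1474999), (nat_lit 1521847), (nat_lit 1524073)]⟩, ⟨(nat_lit 5), false, false, true, (nat_lit 204), (nat_lit 0), (nat_lit 2237), [(nat_lit 1454449), (nat_lit 1449998), (nat_lit 1477224), (nat_lit 1474999), (nat_lit 1554222), (nat_lit 1537494), (nat_lit 1576997), (nat_lit 1562495)]⟩, (nat_lit 4762649), (nat_lit 43698328), (nat_lit 10368952), (nat_lit 12932720), (nat_lit 5), (nat_lit 0), [⟨(nat_lit 0), (nat_lit 100), (nat_lit 31), (nat_lit 95), (nat_lit 93551585)⟩], [⟨(nat_lit 1), (nat_lit 100), (nat_lit 32), (nat_lit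 100), (nat_lit 285489002)⟩, ⟨(nat_lit 1), (nat_lit 94), (nat_lit 44), (nat_lit 100), (nat_lit 28533682)⟩], [], [],
 ⟨⟨[(nat_lit 40), (nat_lit 60)], [(nat_lit 0), (nat_lit 1539)], [((nat_lit 0), (nat_lit 0), (nat_lit 0)), ((nat_lit 1000), (nat_lit 478), (nat_lit 704))], ((nat_lit 48), (nat_lit 100), (nat_lit 69))⟩, (nat_lit 0), (nat_lit 181), (nat_lit 181), (nat_lit 0), (nat_lit 438540), [(nat_lit 1447966817), (nat_lit 712193200)], [(nat_lit 0), (nat_lit 0)], [(nat_lit 22557857751), (nat_lit 23908748948), (nat_lit 23903248071), (nat_lit 25050450708), (nat_lit 24724705326), (nat_lit 26157423043), (nat_lit 25832950595), (nat_lit 26995362335)], (nat_lit 1271251), (nat_lit 1271251), (nat_lit 780000), (nat_lit 1435001), (nat_lit 1271251), (nat_lit 1271251), [(nat_lit 490000), (nat_lit 780000)], [(nat_lit 1), (nat_lit 38), (nat_lit 203), (nat_lit 0), (nat_lit 9)]⟩,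
 ⟨⟨[(nat_lit 120), (nat_lit 160), (nat_lit 180)], [(nat_lit 0), (nat_lit 533), (nat_lit 2066)], [((nat_lit 0), (nat_lit 0), (nat_lit 0)), ((nat_lit 960), (nat_lit 1000), (nat_lit 200)), ((nat_lit 615), (nat_lit 1000), (nat_lit 729))], ((nat_lit 100), (nat_lit 72), (nat_lit 63))⟩, (nat_lit 963587), (nat_lit 367), (nat_lit 367), (nat_lit 0), (nat_lit 0), [(nat_lit 1043808000), (nat_lit 1555232000), (nat_lit 1841598000)], [], [(nat_lit 3611628036), (nat_lit 3800958482), (nat_lit 3658961706), (nat_lit 3854022907), (nat_lit 4674018488), (nat_lit 4681565625), (nat_lit 4430279071), (nat_lit 4521674501)], (nat_lit 0), (nat_lit 0), (nat_lit 0), (nat_lit 0), (nat_lit 0), (nat_lit 0), [], [(nat_lit 28), (nat_lit 65), (nat_lit 456), (nat_lit 225), (nat_lit 11)]⟩,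
 ⟨⟨[(nat_lit 120), (nat_lit 160), (nat_lit 180)], [(nat_lit 0), (nat_lit 0), (nat_lit 1613)], [((nat_lit 0), (nat_lit 0), (nat_lit 0)), ((nat_lit 0), (nat_lit 0), (nat_lit 0)), ((nat_lit 620), (nat_lit 1000), (nat_lit 670))], ((nat_lit 100), (nat_lit 65), (nat_lit 64))⟩, (nat_lit 16973), (nat_lit 300), (nat_lit 2257), (nat_lit 2893804), (nat_lit 3980555), [(nat_lit 310752000), (nat_lit 463008000), (nat_lit 548262000)], [], [(nat_lit 2370237012), (nat_lit 2346621218), (nat_lit 2304648981), (nat_lit 2280156024), (nat_lit 2466784212), (nat_lit 2601395412), (nat_lit 1802667897), (nat_lit 1931844522)], (nat_lit 1100000), (nat_lit 1271251), (nat_lit 1271251), (nat_lit 1271251), (nat_lit 0), (nat_lit 2825001), [(nat_lit 1695001), (nat_lit 1271251), (nat_lit 1271251)], [(nat_lit 28), (nat_lit 65), (nat_lit 671), (nat_lit 225), (nat_lit 15)]⟩⟩)) (.trZ (nat_lit 0) (nat_lit 1) (nat_lit 3) (nat_lit 100) (nat_lit 44) (nat_lit 94) (nat_lit 130) (.spl (nat_lit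 2) (nat_lit 160) (.trX (nat_lit 4) (nat_lit 0) (nat_lit 2) (nat_lit 44) (nat_lit 99) (nat_lit 100) (nat_lit 250) (.spl (nat_lit 1) (nat_lit 230) (.spl (nat_lit 0) (nat_lit 390) (.leaf ⟨(nat_lit 926), (nat_lit 74), (nat_lit 0), (nat_lit 0), (nat_lit 0), (nat_lit 3434), (nat_lit 548), (nat_lit 0), (nat_lit 0), (nat_lit 0), (nat_lit 370400), [((nat_lit 390), [((nat_lit 28), (nat_lit 1), (nat_lit 926))])], ⟨(nat_lit 5), true, false, false, (nat_lit 192), (nat_lit 1581), (nat_lit 2237), [(nat_lit 1422801), (nat_lit 1427507), (nat_lit 1434166), (nat_lit 1439141), (nat_lit 1522729), (nat_lit 1523269), (nat_lit 1534093), (nat_lit 1534904)]⟩, ⟨(nat_lit 5), false, false, true, (nat_lit 186), (nat_lit 1581), (nat_lit 2237), [(nat_lit 1408901), (nat_lit 1406738), (nat_lit 1454450), (nat_lit 1453368), (nat_lit 1480171), (nat_lit 1475033), (nat_lit 1525719), (nat_lit 1521663)]⟩, (nat_lit 4737908), (nat_lit 44036140), (nat_lit 11752159), (nat_lit 11211701), (nat_lit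 5), (nat_lit 0), [], [⟨(nat_lit 1), (nat_lit 99), (nat_lit 44), (nat_lit 100), (nat_lit 328534575)⟩], [⟨(nat_lit 1), (nat_lit 30), (nat_lit 100), (nat_lit 98), (nat_lit 9973948)⟩], [⟨(nat_lit 2), (nat_lit 30), (nat_lit 100), (nat_lit 99), (nat_lit 10600858)⟩],
 ⟨⟨[(nat_lit 40), (nat_lit 60)], [(nat_lit 0), (nat_lit 1539)], [((nat_lit 0), (nat_lit 0), (nat_lit 0)), ((nat_lit 1000), (nat_lit 478), (nat_lit 704))], ((nat_lit 48), (nat_lit 100), (nat_lit 69))⟩, (nat_lit 0), (nat_lit 183), (nat_lit 183), (nat_lit 0), (nat_lit 482823), [(nat_lit 1425007201), (nat_lit 543632800)], [(nat_lit 0), (nat_lit 0)], [(nat_lit 22503776677), (nat_lit 23161102431), (nat_lit 23744680255), (nat_lit 24320594150), (nat_lit 23917738186), (nat_lit 24660166997), (nat_lit 25014300788), (nat_lit 25625532411)], (nat_lit 1271251), (nat_lit 1271251), (nat_lit 857188), (nat_lit 1436876), (nat_lit 1271251), (nat_lit 1271251), [(nat_lit 490000), (nat_lit 780000)], [(nat_lit 1),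 (nat_lit 38), (nat_lit 203), (nat_lit 0), (nat_lit 9)]⟩,
 ⟨⟨[(nat_lit 100), (nat_lit 140), (nat_lit 160)], [(nat_lit 0), (nat_lit 508), (nat_lit 1689)], [((nat_lit 0), (nat_lit 0), (nat_lit 0)), ((nat_lit 1000), (nat_lit 1000), (nat_lit 198)), ((nat_lit 811), (nat_lit 1000), (nat_lit 671))], ((nat_lit 100), (nat_lit 84), (nat_lit 63))⟩, (nat_lit 926691), (nat_lit 201), (nat_lit 201), (nat_lit 0), (nat_lit 0), [(nat_lit 462500000), (nat_lit 728308000), (nat_lit 878528000)], [], [(nat_lit 1593115865), (nat_lit 1625669222), (nat_lit 1701950972), (nat_lit 1729434614), (nat_lit 2173851515), (nat_lit 2181022164), (nat_lit 2178477116), (nat_lit 2190532070)], (nat_lit 0), (nat_lit 0), (nat_lit 0), (nat_lit 0), (nat_lit 0), (nat_lit 0), [], [(nat_lit 23), (nat_lit 62), (nat_lit 456), (nat_lit 225), (nat_lit 12)]⟩,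
 Rw.none⟩) (.trZ (nat_lit 0) (nat_lit 1) (nat_lit 3) (nat_lit 100) (nat_lit 31) (nat_lit 98) (nat_lit 150) (.trX (nat_lit 4) (nat_lit 0) (nat_lit 2) (nat_lit 31) (nat_lit 100) (nat_lit 99) (nat_lit 230) (.leaf ⟨(nat_lit 901), (nat_lit 99), (nat_lit 0), (nat_lit 0), (nat_lit 0), (nat_lit 3586), (nat_lit 761), (nat_lit 0), (nat_lit 0), (nat_lit 0), (nat_lit 360400), [((nat_lit 400), [((nat_lit 28), (nat_lit 1), (nat_lit 901))])], ⟨(nat_lit 5), true, false, false, (nat_lit 198), (nat_lit 0), (nat_lit 1582), [(nat_lit 1452725), (nat_lit 1460204), (nat_lit 1464053), (nat_lit 1472375), (nat_lit 1522658), (nat_lit 1524343), (nat_lit 1533986), (nat_lit 1536514)]⟩, ⟨(nat_lit 5), false, false, true, (nat_lit 179), (nat_lit 0), (nat_lit 1582), [(nat_lit 1406735), (nat_lit 1399996), (nat_lit 1453367), (nat_lit 1449998), (nat_lit 1447710), (nat_lit 1437494), (nat_lit 1494343), (nat_lit 1487497)]⟩, (nat_lit 4725312), (nat_lit 44089675), (nat_lit 12389709), (nat_lit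 10520616), (nat_lit 5), (nat_lit 0), [], [⟨(nat_lit 1), (nat_lit 100), (nat_lit 31), (nat_lit 99), (nat_lit 459003063)⟩], [⟨(nat_lit 1), (nat_lit 30), (nat_lit 100), (nat_lit 98), (nat_lit 27087294)⟩], [],
 ⟨⟨[(nat_lit 40), (nat_lit 60)], [(nat_lit 0), (nat_lit 2136)], [((nat_lit 0), (nat_lit 0), (nat_lit 0)), ((nat_lit 1000), (nat_lit 343), (nat_lit 808))], ((nat_lit 37), (nat_lit 100), (nat_lit 75))⟩, (nat_lit 0), (nat_lit 191), (nat_lit 191), (nat_lit 0), (nat_lit 518303), [(nat_lit 1435077201), (nat_lit 617562800)], [(nat_lit 0), (nat_lit 0)], [(nat_lit 23534452092), (nat_lit 24209489944), (nat_lit 24488797129), (nat_lit 25155144058), (nat_lit 24241887736), (nat_lit 24961069933), (nat_lit 25136889416), (nat_lit 25845495954)], (nat_lit 1271251), (nat_lit 1271251), (nat_lit 1017188), (nat_lit 1440626), (nat_lit 1271251), (nat_lit 1271251), [(nat_lit 490000), (nat_lit 780000)], [(nat_lit 1), (nat_lit 38), (nat_lit 203), (nat_lit 0), (nat_lit 9)]⟩,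
 ⟨⟨[(nat_lit 100), (nat_lit 140), (nat_lit 160)], [(nat_lit 0), (nat_lit 508), (nat_lit 1689)], [((nat_lit 0), (nat_lit 0), (nat_lit 0)), ((nat_lit 1000), (nat_lit 1000), (nat_lit 198)), ((nat_lit 811), (nat_lit 1000), (nat_lit 671))], ((nat_lit 100), (nat_lit 84), (nat_lit 63))⟩, (nat_lit 1016617), (nat_lit 190), (nat_lit 190), (nat_lit 0), (nat_lit 0), [(nat_lit 618750000), (nat_lit 974358000), (nat_lit 1175328000)], [], [(nat_lit 2216565729), (nat_lit 2259155730), (nat_lit 2357701509), (nat_lit 2394869253), (nat_lit 2948735248), (nat_lit 2956469531), (nat_lit 2949284086), (nat_lit 2957981080)], (nat_lit 0), (nat_lit 0), (nat_lit 0), (nat_lit 0), (nat_lit 0), (nat_lit 0), [], [(nat_lit 23), (nat_lit 62), (nat_lit 456), (nat_lit 225), (nat_lit 12)]⟩,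
 Rw.none⟩)))) (.trZ (nat_lit 0) (nat_lit 1) (nat_lit 3) (nat_lit 100) (nat_lit 44) (nat_lit 97) (nat_lit 140) (.trX (nat_lit 5) (nat_lit 1) (nat_lit 2) (nat_lit 100) (nat_lit 35) (nat_lit 99) (nat_lit 390) (.spl (nat_lit 0) (nat_lit 390) (.leaf ⟨(nat_lit 872), (nat_lit 128), (nat_lit 0), (nat_lit 0), (nat_lit 0), (nat_lit 3477), (nat_lit 978), (nat_lit 0), (nat_lit 0), (nat_lit 0), (nat_lit 348800), [((nat_lit 390), [((nat_lit 28), (nat_lit 1), (nat_lit 872))])], ⟨(nat_lit 5), true, false, false, (nat_lit 199), (nat_lit 1581), (nat_lit 2237), [(nat_lit 1448441), (nat_lit 1452822), (nat_lit 1459806), (nat_lit 1464457), (nat_lit 1534093), (nat_lit 1534904), (nat_lit 1545457), (nat_lit 1546538)]⟩, ⟨(nat_lit 5), false, false, true, (nat_lit 186), (nat_lit 1581), (nat_lit 2237), [(nat_lit 1408901), (nat_lit 1406738), (nat_lit 1454450), (nat_lit 1453368), (nat_lit 1480171), (nat_lit 1475033), (nat_lit 1525719), (nat_lit 1521663)]⟩, (nat_lit 4796951),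 (nat_lit 43477673), (nat_lit 12390079), (nat_lit 11132248), (nat_lit 5), (nat_lit 0), [⟨(nat_lit 0), (nat_lit 100), (nat_lit 44), (nat_lit 97), (nat_lit 22096920)⟩], [⟨(nat_lit 1), (nat_lit 99), (nat_lit 44), (nat_lit 100), (nat_lit 340012166)⟩], [], [⟨(nat_lit 2), (nat_lit 27), (nat_lit 100), (nat_lit 100), (nat_lit 33580274)⟩],
 ⟨⟨[(nat_lit 40), (nat_lit 60)], [(nat_lit 0), (nat_lit 1539)], [((nat_lit 0), (nat_lit 0), (nat_lit 0)), ((nat_lit 1000), (nat_lit 478), (nat_lit 704))], ((nat_lit 48), (nat_lit 100), (nat_lit 69))⟩, (nat_lit 0), (nat_lit 185), (nat_lit 185), (nat_lit 0), (nat_lit 501046), [(nat_lit 1446758583), (nat_lit 703321600)], [(nat_lit 0), (nat_lit 0)], [(nat_lit 22598539889), (nat_lit 23248482594), (nat_lit 23736040378), (nat_lit 24315268965), (nat_lit 23998119165), (nat_lit 24735629318), (nat_lit 25006756616), (nat_lit 25664694974)], (nat_lit 1271251), (nat_lit 1271251), (nat_lit 936250), (nat_lit 1438751), (nat_lit 1271251),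 (nat_lit 1271251), [(nat_lit 490000), (nat_lit 780000)], [(nat_lit 1), (nat_lit 38), (nat_lit 203), (nat_lit 0), (nat_lit 9)]⟩,
 ⟨⟨[(nat_lit 100), (nat_lit 140), (nat_lit 160)], [(nat_lit 0), (nat_lit 766), (nat_lit 1913)], [((nat_lit 0), (nat_lit 0), (nat_lit 0)), ((nat_lit 1000), (nat_lit 1000), (nat_lit 299)), ((nat_lit 817), (nat_lit 1000), (nat_lit 711))], ((nat_lit 100), (nat_lit 87), (nat_lit 63))⟩, (nat_lit 1046847), (nat_lit 198), (nat_lit 198), (nat_lit 0), (nat_lit 0), [(nat_lit 800000000), (nat_lit 1259776000), (nat_lit 1519616000)], [], [(nat_lit 2792277698), (nat_lit 2848232006), (nat_lit 2969072370), (nat_lit 3017042858), (nat_lit 3640063119), (nat_lit 3652445997), (nat_lit 3676788407), (nat_lit 3706140284)], (nat_lit 0), (nat_lit 0), (nat_lit 0), (nat_lit 0), (nat_lit 0), (nat_lit 0), [], [(nat_lit 23), (nat_lit 62), (nat_lit 456), (nat_lit 225), (nat_lit 12)]⟩,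
 Rw.none⟩) (.trZ (nat_lit 0) (nat_lit 1) (nat_lit 3) (nat_lit 100) (nat_lit 32) (nat_lit 100) (nat_lit 160) (.trX (nat_lit 4) (nat_lit 0) (nat_lit 2) (nat_lit 31) (nat_lit 100) (nat_lit 99) (nat_lit 230) (.leaf ⟨(nat_lit 834), (nat_lit 166), (nat_lit 0), (nat_lit 0), (nat_lit 0), (nat_lit 3637), (nat_lit 1309), (nat_lit 0), (nat_lit 0), (nat_lit 0), (nat_lit 333600), [((nat_lit 400), [((nat_lit 28), (nat_lit 1), (nat_lit 834))])], ⟨(nat_lit 5), true, false, false, (nat_lit 206), (nat_lit 0), (nat_lit 1582), [(nat_lit 1478039), (nat_lit 1485203), (nat_lit 1489369), (nat_lit 1497375), (nat_lit 1533986), (nat_lit 1536514), (nat_lit 1545316), (nat_lit 1548686)]⟩, ⟨(nat_lit 5), false, false, true, (nat_lit 179), (nat_lit 0), (nat_lit 1582), [(nat_lit 1406735), (nat_lit 1399996), (nat_lit 1453367), (nat_lit 1449998), (nat_lit 1447710), (nat_lit 1437494), (nat_lit 1494343), (nat_lit 1487497)]⟩, (nat_lit 4782184), (nat_lit 43518339), (nat_lit 13036730),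 (nat_lit 10444931), (nat_lit 5), (nat_lit 0), [⟨(nat_lit 0), (nat_lit 100), (nat_lit 32), (nat_lit 100), (nat_lit 12653598)⟩], [⟨(nat_lit 1), (nat_lit 100), (nat_lit 31), (nat_lit 99), (nat_lit 526821165)⟩], [⟨(nat_lit 1), (nat_lit 35), (nat_lit 100), (nat_lit 99), (nat_lit 43018309)⟩], [],
 ⟨⟨[(nat_lit 40), (nat_lit 60)], [(nat_lit 0), (nat_lit 2136)], [((nat_lit 0), (nat_lit 0), (nat_lit 0)), ((nat_lit 1000), (nat_lit 343), (nat_lit 808))], ((nat_lit 37), (nat_lit 100), (nat_lit 75))⟩, (nat_lit 0), (nat_lit 193), (nat_lit 193), (nat_lit 0), (nat_lit 535237), [(nat_lit 1462064801), (nat_lit 815695200)], [(nat_lit 0), (nat_lit 0)], [(nat_lit 23619277841), (nat_lit 24287042888), (nat_lit 24482969124), (nat_lit 25206248761), (nat_lit 24317812671), (nat_lit 25032015647), (nat_lit 25180687383), (nat_lit 25895653166)], (nat_lit 1271251), (nat_lit 1271251), (nat_lit 1100000), (nat_lit 1442501), (nat_lit 1271251), (nat_lit 1271251), [(nat_lit 490000),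 (nat_lit 780000)], [(nat_lit 1), (nat_lit 38), (nat_lit 203), (nat_lit 0), (nat_lit 9)]⟩,
 ⟨⟨[(nat_lit 100), (nat_lit 140), (nat_lit 160)], [(nat_lit 0), (nat_lit 766), (nat_lit 1913)], [((nat_lit 0), (nat_lit 0), (nat_lit 0)), ((nat_lit 1000), (nat_lit 1000), (nat_lit 299)), ((nat_lit 817), (nat_lit 1000), (nat_lit 711))], ((nat_lit 100), (nat_lit 87), (nat_lit 63))⟩, (nat_lit 1132042), (nat_lit 190), (nat_lit 190), (nat_lit 0), (nat_lit 0), [(nat_lit 1037500000), (nat_lit 1633772000), (nat_lit 1970752000)], [], [(nat_lit 3749000685), (nat_lit 3819738048), (nat_lit 3976346710), (nat_lit 4039140726), (nat_lit 4774031236), (nat_lit 4788188080), (nat_lit 4824908542), (nat_lit 4842572441)], (nat_lit 0), (nat_lit 0), (nat_lit 0), (nat_lit 0), (nat_lit 0), (nat_lit 0), [], [(nat_lit 23), (nat_lit 62), (nat_lit 456), (nat_lit 225), (nat_lit 12)]⟩,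
 Rw.none⟩)))))))) (.spl (nat_lit 5) (nat_lit 200) (.leaf ⟨(nat_lit 0), (nat_lit 951), (nat_lit 0), (nat_lit 49), (nat_lit 0), (nat_lit 4504), (nat_lit 10886), (nat_lit 696), (nat_lit 0), (nat_lit 0), (nat_lit 0), [], Pd.none, Pd.none, (nat_lit 0), (nat_lit 1), (nat_lit 0), (nat_lit 0), (nat_lit 5), (nat_lit 0), [⟨(nat_lit 0), (nat_lit 100), (nat_lit 44), (nat_lit 94), (nat_lit 734863562)⟩], [⟨(nat_lit 1), (nat_lit 94), (nat_lit 44), (nat_lit 100), (nat_lit 721597654)⟩], [], [],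
 ⟨⟨[(nat_lit 40), (nat_lit 60)], [(nat_lit 0), (nat_lit 1539)], [((nat_lit 0), (nat_lit 0), (nat_lit 0)), ((nat_lit 1000), (nat_lit 478), (nat_lit 704))], ((nat_lit 48), (nat_lit 100), (nat_lit 69))⟩, (nat_lit 115188), (nat_lit 185), (nat_lit 185), (nat_lit 0), (nat_lit 465072), [(nat_lit 2032000135), (nat_lit 3282000000)], [], [(nat_lit 23774133406), (nat_lit 25246648310), (nat_lit 24860442791), (nat_lit 26115062193), (nat_lit 25935781170), (nat_lit 27573070798), (nat_lit 26777084344), (nat_lit 28156435710)], (nat_lit 1271251), (nat_lit 1271251), (nat_lit 857188), (nat_lit 1436876), (nat_lit 1271251), (nat_lit 1271251), [(nat_lit 490000), (nat_lit 780000)], [(nat_lit 1), (nat_lit 38), (nat_lit 203), (nat_lit 0), (nat_lit 9)]⟩,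
 ⟨⟨[(nat_lit 100), (nat_lit 140), (nat_lit 160)], [(nat_lit 0), (nat_lit 508), (nat_lit 1689)], [((nat_lit 0), (nat_lit 0), (nat_lit 0)), ((nat_lit 1000), (nat_lit 1000), (nat_lit 198)), ((nat_lit 811), (nat_lit 1000), (nat_lit 671))], ((nat_lit 100), (nat_lit 84), (nat_lit 63))⟩, (nat_lit 6695410), (nat_lit 204), (nat_lit 204), (nat_lit 0), (nat_lit 0), [(nat_lit 6250000000), (nat_lit 9842000000), (nat_lit 11872000000)], [], [(nat_lit 20540522965), (nat_lit 21924307078), (nat_lit 22499711768), (nat_lit 23656176584), (nat_lit 15077112828), (nat_lit 15790836293), (nat_lit 16015602451), (nat_lit 16849783304)], (nat_lit 0), (nat_lit 0), (nat_lit 0), (nat_lit 0), (nat_lit 0), (nat_lit 0), [], [(nat_lit 23), (nat_lit 62), (nat_lit 401), (nat_lit 175), (nat_lit 10)]⟩,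
 ⟨⟨[(nat_lit 120), (nat_lit 160), (nat_lit 180)], [(nat_lit 0), (nat_lit 0), (nat_lit 1613)], [((nat_lit 0), (nat_lit 0), (nat_lit 0)), ((nat_lit 0), (nat_lit 0), (nat_lit 0)), ((nat_lit 620), (nat_lit 1000), (nat_lit 670))], ((nat_lit 100), (nat_lit 65), (nat_lit 64))⟩, (nat_lit 21325), (nat_lit 300), (nat_lit 2363), (nat_lit 3635805), (nat_lit 4176618), [(nat_lit 390432000), (nat_lit 581728000), (nat_lit 688842000)], [], [(nat_lit 2623719532), (nat_lit 2598550074), (nat_lit 2581198484), (nat_lit 2552304759), (nat_lit 2282499656), (nat_lit 2466939382), (nat_lit 1856478981), (nat_lit 1826193199)], (nat_lit 1100000), (nat_lit 1271251), (nat_lit 1271251), (nat_lit 1271251), (nat_lit 0), (nat_lit 1412501), [(nat_lit 1695001), (nat_lit 1271251), (nat_lit 1271251)], [(nat_lit 28), (nat_lit 65), (nat_lit 672), (nat_lit 175), (nat_lit 15)]⟩⟩) (.leaf ⟨(nat_lit 915), (nat_lit 43), (nat_lit 0), (nat_lit 42), (nat_lit 0), (nat_lit 3385), (nat_lit 628), (nat_lit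 460), (nat_lit 0), (nat_lit 0), (nat_lit 366000), [((nat_lit 400), [((nat_lit 28), (nat_lit 1), (nat_lit 915))])], ⟨(nat_lit 5), true, false, false, (nat_lit 194), (nat_lit 0), (nat_lit 2237), [(nat_lit 1418846), (nat_lit 1433349), (nat_lit 1440694), (nat_lit 1457423), (nat_lit 1521847), (nat_lit 1524073), (nat_lit 1543695), (nat_lit 1548146)]⟩, ⟨(nat_lit 5), false, false, true, (nat_lit 204), (nat_lit 0), (nat_lit 2237), [(nat_lit 1454449), (nat_lit 1449998), (nat_lit 1477224), (nat_lit 1474999), (nat_lit 1554222), (nat_lit 1537494), (nat_lit 1576997), (nat_lit 1562495)]⟩, (nat_lit 4900328), (nat_lit 42518384), (nat_lit 11753786), (nat_lit 12727830), (nat_lit 5), (nat_lit 0), [], [⟨(nat_lit 1), (nat_lit 100), (nat_lit 32), (nat_lit 100), (nat_lit 432584292)⟩], [⟨(nat_lit 1), (nat_lit 30), (nat_lit 100), (nat_lit 100), (nat_lit 2252738)⟩], [],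
 ⟨⟨[(nat_lit 40), (nat_lit 60)], [(nat_lit 0), (nat_lit 1539)], [((nat_lit 0), (nat_lit 0), (nat_lit 0)), ((nat_lit 1000), (nat_lit 478), (nat_lit 704))], ((nat_lit 48), (nat_lit 100), (nat_lit 69))⟩, (nat_lit 0), (nat_lit 185), (nat_lit 185), (nat_lit 0), (nat_lit 465072), [(nat_lit 1429438019), (nat_lit 576162000)], [(nat_lit 0), (nat_lit 0)], [(nat_lit 22626003838), (nat_lit 23921001182), (nat_lit 23871394803), (nat_lit 25015668176), (nat_lit 24764811626), (nat_lit 26147407799), (nat_lit 25799716330), (nat_lit 26975307432)], (nat_lit 1271251), (nat_lit 1271251), (nat_lit 857188), (nat_lit 1436876), (nat_lit 1271251), (nat_lit 1271251), [(nat_lit 490000), (nat_lit 780000)], [(nat_lit 1), (nat_lit 38), (nat_lit 203), (nat_lit 0), (nat_lit 9)]⟩,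
 ⟨⟨[(nat_lit 100), (nat_lit 140), (nat_lit 160)], [(nat_lit 0), (nat_lit 508), (nat_lit 1689)], [((nat_lit 0), (nat_lit 0), (nat_lit 0)), ((nat_lit 1000), (nat_lit 1000), (nat_lit 198)), ((nat_lit 811), (nat_lit 1000), (nat_lit 671))], ((nat_lit 100), (nat_lit 84), (nat_lit 63))⟩, (nat_lit 1011105), (nat_lit 161), (nat_lit 161), (nat_lit 0), (nat_lit 0), [(nat_lit 531250000), (nat_lit 836570000), (nat_lit 1009120000)], [], [(nat_lit 1654189986), (nat_lit 1708998860), (nat_lit 1737876195), (nat_lit 1783502937), (nat_lit 2526036339), (nat_lit 2541104341), (nat_lit 2502797749), (nat_lit 2532274896)], (nat_lit 0), (nat_lit 0), (nat_lit 0), (nat_lit 0), (nat_lit 0), (nat_lit 0), [], [(nat_lit 23), (nat_lit 62), (nat_lit 456), (nat_lit 225), (nat_lit 11)]⟩,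
 ⟨⟨[(nat_lit 120), (nat_lit 160), (nat_lit 180)], [(nat_lit 0), (nat_lit 0), (nat_lit 1613)], [((nat_lit 0), (nat_lit 0), (nat_lit 0)), ((nat_lit 0), (nat_lit 0), (nat_lit 0)), ((nat_lit 620), (nat_lit 1000), (nat_lit 670))], ((nat_lit 100), (nat_lit 65), (nat_lit 64))⟩, (nat_lit 18279), (nat_lit 300), (nat_lit 2251), (nat_lit 3116400), (nat_lit 4176618), [(nat_lit 334656000), (nat_lit 498624000), (nat_lit 590436000)], [], [(nat_lit 2282806268), (nat_lit 2256119113), (nat_lit 2194442437), (nat_lit 2167790896), (nat_lit 2055145605), (nat_lit 2028422794), (nat_lit 1978723992), (nat_lit 1954439753)], (nat_lit 1100000), (nat_lit 1271251), (nat_lit 1271251), (nat_lit 1271251), (nat_lit 1271251), (nat_lit 1271251), [(nat_lit 1695001), (nat_lit 1271251), (nat_lit 1271251)], [(nat_lit 28), (nat_lit 65), (nat_lit 669), (nat_lit 225), (nat_lit 15)]⟩⟩)))))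
noncomputable def c13_11 : Tr Lf :=
 (.leaf ⟨(nat_lit 1000), (nat_lit 0), (nat_lit 0), (nat_lit 0), (nat_lit 0), (nat_lit 3467), (nat_lit 0), (nat_lit 0), (nat_lit 0), (nat_lit 0), (nat_lit 335200), [((nat_lit 400), [((nat_lit 28), (nat_lit 0), (nat_lit 432)), ((nat_lit 28), (nat_lit 1), (nat_lit 568))])], ⟨(nat_lit 4), false, false, false, (nat_lit 182), (nat_lit 0), (nat_lit 2237), [(nat_lit 1360436), (nat_lit 1372242), (nat_lit 1425979), (nat_lit 1444462), (nat_lit 1477224), (nat_lit 1474999), (nat_lit 1543695), (nat_lit 1548146)]⟩, ⟨(nat_lit 5), false, false, true, (nat_lit 195), (nat_lit 0), (nat_lit 2237), [(nat_lit 1408898), (nat_lit 1399996), (nat_lit 1477224), (nat_lit 1474999), (nat_lit 1508671), (nat_lit 1487491), (nat_lit 1576997), (nat_lit 1562495)]⟩, (nat_lit 4727838), (nat_lit 44105037), (nat_lit 10848880), (nat_lit 12046083), (nat_lit 0), (nat_lit 0), [], [⟨(nat_lit 1), (nat_lit 94), (nat_lit 44), (nat_lit 100), (nat_lit 334580689)⟩],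 [], [],
 ⟨⟨[(nat_lit 40), (nat_lit 60)], [(nat_lit 0), (nat_lit 1539)], [((nat_lit 0), (nat_lit 0), (nat_lit 0)), ((nat_lit 1000), (nat_lit 478), (nat_lit 704))], ((nat_lit 48), (nat_lit 100), (nat_lit 69))⟩, (nat_lit 0), (nat_lit 141), (nat_lit 141), (nat_lit 0), (nat_lit 301452), [(nat_lit 1467776001), (nat_lit 636358400)], [(nat_lit 0), (nat_lit 0)], [(nat_lit 22504694995), (nat_lit 23986698029), (nat_lit 23842353167), (nat_lit 25035899751), (nat_lit 24795522855), (nat_lit 26241197183), (nat_lit 25776634783), (nat_lit 27061860174)], (nat_lit 1271251), (nat_lit 1271251), (nat_lit 780000), (nat_lit 1435001), (nat_lit 1271251), (nat_lit 1271251), [(nat_lit 490000), (nat_lit 780000)], [(nat_lit 1), (nat_lit 38), (nat_lit 203), (nat_lit 0), (nat_lit 9)]⟩,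
 Rw.none,
 Rw.none⟩)
noncomputable def c13_12 : Tr Lf :=
 (.leaf ⟨(nat_lit 143), (nat_lit 650), (nat_lit 0), (nat_lit 207), (nat_lit 0), (nat_lit 4322), (nat_lit 9500), (nat_lit 2946), (nat_lit 0), (nat_lit 0), (nat_lit 85800), [((nat_lit 400), [((nat_lit 43), (nat_lit 2), (nat_lit 143))])], ⟨(nat_lit 5), true, false, true, (nat_lit 239), (nat_lit 0), (nat_lit 2237), [(nat_lit 1477224), (nat_lit 1474999), (nat_lit 1543695), (nat_lit 1548146), (nat_lit 1662517), (nat_lit 1637491), (nat_lit 1730844), (nat_lit 1712494)]⟩, ⟨(nat_lit 3), true, false, true, (nat_lit 173), (nat_lit 0), (nat_lit 2237), [(nat_lit 1294870), (nat_lit 1299999), (nat_lit 1360436), (nat_lit 1372242), (nat_lit 1508671), (nat_lit 1487491), (nat_lit 1576997), (nat_lit 1562495)]⟩, (nat_lit 4950257), (nat_lit 41270455), (nat_lit 16110386), (nat_lit 9619159), (nat_lit 3), (nat_lit 0), [], [⟨(nat_lit 1), (nat_lit 100), (nat_lit 31), (nat_lit 97), (nat_lit 298585165)⟩], [], [],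
 ⟨⟨[(nat_lit 40), (nat_lit 60)], [(nat_lit 0), (nat_lit 1539)], [((nat_lit 0), (nat_lit 0), (nat_lit 0)), ((nat_lit 1000), (nat_lit 478), (nat_lit 704))], ((nat_lit 48), (nat_lit 100), (nat_lit 69))⟩, (nat_lit 0), (nat_lit 252), (nat_lit 252), (nat_lit 0), (nat_lit 659510), [(nat_lit 1741080802), (nat_lit 2722126400)], [(nat_lit 0), (nat_lit 0)], [(nat_lit 23841072555), (nat_lit 25045517822), (nat_lit 28737244352), (nat_lit 30127585214), (nat_lit 26648309315), (nat_lit 27964330843), (nat_lit 30744005684), (nat_lit 31826102764)], (nat_lit 1271251), (nat_lit 1271251), (nat_lit 1271251), (nat_lit 1271251), (nat_lit 780000), (nat_lit 2008126), [(nat_lit 490000), (nat_lit 780000)], [(nat_lit 1), (nat_lit 38), (nat_lit 203), (nat_lit 0), (nat_lit 9)]⟩,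
 ⟨⟨[(nat_lit 120), (nat_lit 160), (nat_lit 180)], [(nat_lit 0), (nat_lit 533), (nat_lit 2066)], [((nat_lit 0), (nat_lit 0), (nat_lit 0)), ((nat_lit 960), (nat_lit 1000), (nat_lit 200)), ((nat_lit 615), (nat_lit 1000), (nat_lit 729))], ((nat_lit 100), (nat_lit 72), (nat_lit 63))⟩, (nat_lit 3641790), (nat_lit 300), (nat_lit 300), (nat_lit 0), (nat_lit 0), [(nat_lit 6828576000), (nat_lit 10174304000), (nat_lit 12047706000)], [], [(nat_lit 26495728653), (nat_lit 28131431578), (nat_lit 33683062224), (nat_lit 34648033977), (nat_lit 30507997749), (nat_lit 30448921942), (nat_lit 33215981854), (nat_lit 33236038215)], (nat_lit 0), (nat_lit 0), (nat_lit 0), (nat_lit 0), (nat_lit 0), (nat_lit 0), [], [(nat_lit 28), (nat_lit 65), (nat_lit 483), (nat_lit 250), (nat_lit 11)]⟩,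
 ⟨⟨[(nat_lit 140), (nat_lit 180), (nat_lit 200)], [(nat_lit 0), (nat_lit 0), (nat_lit 2835)], [((nat_lit 0), (nat_lit 0), (nat_lit 0)), ((nat_lit 0), (nat_lit 0), (nat_lit 0)), ((nat_lit 363), (nat_lit 1000), (nat_lit 798))], ((nat_lit 0), (nat_lit 0), (nat_lit 0))⟩, (nat_lit 56952), (nat_lit 300), (nat_lit 491), (nat_lit 16166706), (nat_lit 0), [(nat_lit 2037294000), (nat_lit 2910006000), (nat_lit 3394800000)], [], [(nat_lit 14292565656), (nat_lit 13777528419), (nat_lit 13548803520), (nat_lit 12975198300), (nat_lit 11677027608), (nat_lit 11020743503), (nat_lit 10422115263), (nat_lit 9741856980)], (nat_lit 0), (nat_lit 0), (nat_lit 0), (nat_lit 0), (nat_lit 0), (nat_lit 0), [], [(nat_lit 32), (nat_lit 67), (nat_lit 456), (nat_lit 225), (nat_lit 10)]⟩⟩)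
noncomputable def c13_13 : Tr Lf :=
 (.spl (nat_lit 3) (nat_lit 280) (.spl (nat_lit 1) (nat_lit 220) (.spl (nat_lit 2) (nat_lit 160) (.leaf ⟨(nat_lit 950), (nat_lit 24), (nat_lit 0), (nat_lit 26), (nat_lit 0), (nat_lit 3387), (nat_lit 545), (nat_lit 361), (nat_lit 0), (nat_lit 0), (nat_lit 317150), [((nat_lit 400), [((nat_lit 28), (nat_lit 0), (nat_lit 419)), ((nat_lit 28), (nat_lit 1), (nat_lit 531))])], ⟨(nat_lit 5), false, true, true, (nat_lit 221), (nat_lit 0), (nat_lit 2237), [(nat_lit 1477224), (nat_lit 1474999), (nat_lit 1521847), (nat_lit 1524073), (nat_lit 1591251), (nat_lit 1574995), (nat_lit 1636802), (nat_lit 1624997)]⟩, ⟨(nat_lit 3), true, false, true, (nat_lit 150), (nat_lit 0), (nat_lit 2237), [(nat_lit 1294870), (nat_lit 1299999), (nat_lit 1338589), (nat_lit 1348168), (nat_lit 1408898), (nat_lit 1399996), (nat_lit 1454449), (nat_lit 1449998)]⟩, (nat_lit 4619776), (nat_lit 44224426), (nat_lit 14791200), (nat_lit 7984374), (nat_lit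 3), (nat_lit 0), [⟨(nat_lit 1), (nat_lit 95), (nat_lit 31), (nat_lit 100), (nat_lit 283411743)⟩], [], [], [],
 ⟨⟨[(nat_lit 40), (nat_lit 60)], [(nat_lit 0), (nat_lit 1539)], [((nat_lit 0), (nat_lit 0), (nat_lit 0)), ((nat_lit 1000), (nat_lit 478), (nat_lit 704))], ((nat_lit 48), (nat_lit 100), (nat_lit 69))⟩, (nat_lit 0), (nat_lit 174), (nat_lit 174), (nat_lit 0), (nat_lit 413083), [(nat_lit 1485732002), (nat_lit 774842800)], [(nat_lit 0), (nat_lit 0)], [(nat_lit 22744645339), (nat_lit 24028075529), (nat_lit 25277237259), (nat_lit 26541056927), (nat_lit 24092122111), (nat_lit 25236703828), (nat_lit 26350611003), (nat_lit 27343770644)], (nat_lit 1271251), (nat_lit 1271251), (nat_lit 1271251), (nat_lit 1271251), (nat_lit 780000), (nat_lit 1435001), [(nat_lit 490000), (nat_lit 780000)], [(nat_lit 1), (nat_lit 38), (nat_lit 203), (nat_lit 0), (nat_lit 9)]⟩,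
 ⟨⟨[(nat_lit 120), (nat_lit 160), (nat_lit 180)], [(nat_lit 0), (nat_lit 533), (nat_lit 2066)], [((nat_lit 0), (nat_lit 0), (nat_lit 0)), ((nat_lit 960), (nat_lit 1000), (nat_lit 200)), ((nat_lit 615), (nat_lit 1000), (nat_lit 729))], ((nat_lit 100), (nat_lit 72), (nat_lit 63))⟩, (nat_lit 593390), (nat_lit 1880), (nat_lit 1880), (nat_lit 0), (nat_lit 3261280), [(nat_lit 398400000), (nat_lit 593600000), (nat_lit 702900000)], [], [(nat_lit 1731555698), (nat_lit 1542081255), (nat_lit 1618092523), (nat_lit 1628122408), (nat_lit 3309121480), (nat_lit 2830975540), (nat_lit 2358681265), (nat_lit 1892238655)], (nat_lit 1271251), (nat_lit 1271251), (nat_lit 1271251), (nat_lit 1271251), (nat_lit 0), (nat_lit 2825001), [(nat_lit 1695001), (nat_lit 1271251), (nat_lit 1271251)], [(nat_lit 28), (nat_lit 65), (nat_lit 583), (nat_lit 225), (nat_lit 13)]⟩,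
 ⟨⟨[(nat_lit 140), (nat_lit 180), (nat_lit 200)], [(nat_lit 0), (nat_lit 0), (nat_lit 2835)], [((nat_lit 0), (nat_lit 0), (nat_lit 0)), ((nat_lit 0), (nat_lit 0), (nat_lit 0)), ((nat_lit 363), (nat_lit 1000), (nat_lit 798))], ((nat_lit 0), (nat_lit 0), (nat_lit 0))⟩, (nat_lit 7153), (nat_lit 300), (nat_lit 491), (nat_lit 2030607), (nat_lit 0), [(nat_lit 255892000), (nat_lit 365508000), (nat_lit 426400000)], [], [(nat_lit 1790563973), (nat_lit 1735226174), (nat_lit 1703181468), (nat_lit 1649662052), (nat_lit 1472749466), (nat_lit 1411303304), (nat_lit 1364752844), (nat_lit 1303568226)], (nat_lit 0), (nat_lit 0), (nat_lit 0), (nat_lit 0), (nat_lit 0), (nat_lit 0), [], [(nat_lit 32), (nat_lit 67), (nat_lit 428), (nat_lit 200), (nat_lit 9)]⟩⟩) (.leaf ⟨(nat_lit 951), (nat_lit 0), (nat_lit 0), (nat_lit 49), (nat_lit 0), (nat_lit 3382), (nat_lit 540), (nat_lit 1377), (nat_lit 0), (nat_lit 0), (nat_lit 321000), [((nat_lit 400), [((nat_lit 28), (nat_lit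 0), (nat_lit 396)), ((nat_lit 28), (nat_lit 1), (nat_lit 555))])], ⟨(nat_lit 5), false, true, true, (nat_lit 221), (nat_lit 0), (nat_lit 2237), [(nat_lit 1477224), (nat_lit 1474999), (nat_lit 1521847), (nat_lit 1524073), (nat_lit 1591251), (nat_lit 1574995), (nat_lit 1636802), (nat_lit 1624997)]⟩, ⟨(nat_lit 4), true, false, false, (nat_lit 164), (nat_lit 0), (nat_lit 2237), [(nat_lit 1338589), (nat_lit 1348168), (nat_lit 1360436), (nat_lit 1372242), (nat_lit 1454449), (nat_lit 1449998), (nat_lit 1477224), (nat_lit 1474999)]⟩, (nat_lit 4756953), (nat_lit 43307810), (nat_lit 14615969), (nat_lit 9076221), (nat_lit 0), (nat_lit 0), [⟨(nat_lit 1), (nat_lit 95), (nat_lit 31), (nat_lit 100), (nat_lit 258190321)⟩], [], [], [⟨(nat_lit 0), (nat_lit 100), (nat_lit 92), (nat_lit 40), (nat_lit 14798751)⟩],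
 ⟨⟨[(nat_lit 40), (nat_lit 60)], [(nat_lit 0), (nat_lit 1539)], [((nat_lit 0), (nat_lit 0), (nat_lit 0)), ((nat_lit 1000), (nat_lit 478), (nat_lit 704))], ((nat_lit 48), (nat_lit 100), (nat_lit 69))⟩, (nat_lit 0), (nat_lit 166), (nat_lit 166), (nat_lit 0), (nat_lit 393983), [(nat_lit 1481465203), (nat_lit 755298000)], [(nat_lit 0), (nat_lit 0)], [(nat_lit 22738086039), (nat_lit 24020601918), (nat_lit 25269940909), (nat_lit 26534239822), (nat_lit 24086176474), (nat_lit 25229987332), (nat_lit 26344183939), (nat_lit 27337438582)], (nat_lit 1271251), (nat_lit 1271251), (nat_lit 1271251), (nat_lit 1271251), (nat_lit 780000), (nat_lit 1435001), [(nat_lit 490000), (nat_lit 780000)], [(nat_lit 1), (nat_lit 38), (nat_lit 203), (nat_lit 0), (nat_lit 9)]⟩,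
 ⟨⟨[(nat_lit 120), (nat_lit 160), (nat_lit 180)], [(nat_lit 0), (nat_lit 533), (nat_lit 2066)], [((nat_lit 0), (nat_lit 0), (nat_lit 0)), ((nat_lit 960), (nat_lit 1000), (nat_lit 200)), ((nat_lit 615), (nat_lit 1000), (nat_lit 729))], ((nat_lit 100), (nat_lit 72), (nat_lit 63))⟩, (nat_lit 593331), (nat_lit 1750), (nat_lit 1750), (nat_lit 0), (nat_lit 3000185), [(nat_lit 390432000), (nat_lit 581728000), (nat_lit 688842000)], [], [(nat_lit 1695238514), (nat_lit 1479090692), (nat_lit 1569848094), (nat_lit 1579318797), (nat_lit 3252214700), (nat_lit 2778455420), (nat_lit 2310494120), (nat_lit 1848330800)], (nat_lit 1271251), (nat_lit 1271251), (nat_lit 1271251), (nat_lit 1271251), (nat_lit 0), (nat_lit 2825001), [(nat_lit 1695001), (nat_lit 1271251), (nat_lit 1271251)], [(nat_lit 28), (nat_lit 65), (nat_lit 550), (nat_lit 225), (nat_lit 13)]⟩,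
 ⟨⟨[(nat_lit 120), (nat_lit 160), (nat_lit 180)], [(nat_lit 0), (nat_lit 0), (nat_lit 1613)], [((nat_lit 0), (nat_lit 0), (nat_lit 0)), ((nat_lit 0), (nat_lit 0), (nat_lit 0)), ((nat_lit 620), (nat_lit 1000), (nat_lit 670))], ((nat_lit 100), (nat_lit 65), (nat_lit 64))⟩, (nat_lit 21325), (nat_lit 300), (nat_lit 371), (nat_lit 3635805), (nat_lit 0), [(nat_lit 390432000), (nat_lit 581728000), (nat_lit 688842000)], [], [(nat_lit 2677728518), (nat_lit 2654390633), (nat_lit 2384203652), (nat_lit 2369222646), (nat_lit 2628870430), (nat_lit 2648884403), (nat_lit 2421008364), (nat_lit 2428681332)], (nat_lit 0), (nat_lit 0), (nat_lit 0), (nat_lit 0), (nat_lit 0), (nat_lit 0), [], [(nat_lit 28), (nat_lit 65), (nat_lit 428), (nat_lit 200), (nat_lit 10)]⟩⟩)) (.spl (nat_lit 1) (nat_lit 230) (.leaf ⟨(nat_lit 930), (nat_lit 46), (nat_lit 0), (nat_lit 24), (nat_lit 0), (nat_lit 3333), (nat_lit 670), (nat_lit 328), (nat_lit 0), (nat_lit 0), (nat_lit 338850), [((nat_lit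 400), [((nat_lit 28), (nat_lit 0), (nat_lit 221)), ((nat_lit 28), (nat_lit 1), (nat_lit 709))])], ⟨(nat_lit 5), false, true, true, (nat_lit 233), (nat_lit 0), (nat_lit 2237), [(nat_lit 1521847), (nat_lit 1524073), (nat_lit 1532772), (nat_lit 1536110), (nat_lit 1636802), (nat_lit 1624997), (nat_lit 1648189), (nat_lit 1637497)]⟩, ⟨(nat_lit 3), true, false, true, (nat_lit 154), (nat_lit 0), (nat_lit 2237), [(nat_lit 1294870), (nat_lit 1299999), (nat_lit 1360436), (nat_lit 1372242), (nat_lit 1408898), (nat_lit 1399996), (nat_lit 1477224), (nat_lit 1474999)]⟩, (nat_lit 4743495), (nat_lit 42940813), (nat_lit 15818914), (nat_lit 8240273), (nat_lit 3), (nat_lit 0), [⟨(nat_lit 1), (nat_lit 91), (nat_lit 31), (nat_lit 100), (nat_lit 183298080)⟩], [], [], [],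
 ⟨⟨[(nat_lit 40), (nat_lit 60)], [(nat_lit 0), (nat_lit 1539)], [((nat_lit 0), (nat_lit 0), (nat_lit 0)), ((nat_lit 1000), (nat_lit 478), (nat_lit 704))], ((nat_lit 48), (nat_lit 100), (nat_lit 69))⟩, (nat_lit 0), (nat_lit 175), (nat_lit 175), (nat_lit 0), (nat_lit 416926), [(nat_lit 1460524001), (nat_lit 691189200)], [(nat_lit 0), (nat_lit 0)], [(nat_lit 22757298614), (nat_lit 24030854243), (nat_lit 25281930394), (nat_lit 26467432193), (nat_lit 24111402942), (nat_lit 25247659384), (nat_lit 26364692430), (nat_lit 27351239528)], (nat_lit 1271251), (nat_lit 1271251), (nat_lit 1271251), (nat_lit 1271251), (nat_lit 780000), (nat_lit 1435001), [(nat_lit 490000), (nat_lit 780000)], [(nat_lit 1), (nat_lit 38), (nat_lit 203), (nat_lit 0), (nat_lit 9)]⟩,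
 ⟨⟨[(nat_lit 100), (nat_lit 140), (nat_lit 160)], [(nat_lit 0), (nat_lit 508), (nat_lit 1689)], [((nat_lit 0), (nat_lit 0), (nat_lit 0)), ((nat_lit 1000), (nat_lit 1000), (nat_lit 198)), ((nat_lit 811), (nat_lit 1000), (nat_lit 671))], ((nat_lit 100), (nat_lit 84), (nat_lit 63))⟩, (nat_lit 565616), (nat_lit 1325), (nat_lit 1325), (nat_lit 0), (nat_lit 2270682), [(nat_lit 437500000), (nat_lit 688940000), (nat_lit 831040000)], [], [(nat_lit 2119702575), (nat_lit 2109932388), (nat_lit 2073039986), (nat_lit 2077048657), (nat_lit 3169034505), (nat_lit 3018290703), (nat_lit 2396616355), (nat_lit 2403806958)], (nat_lit 1271251), (nat_lit 1271251), (nat_lit 1271251), (nat_lit 1271251), (nat_lit 0), (nat_lit 2825001), [(nat_lit 1412501), (nat_lit 1271251), (nat_lit 1271251)], [(nat_lit 23), (nat_lit 62), (nat_lit 483), (nat_lit 250), (nat_lit 12)]⟩,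
 ⟨⟨[(nat_lit 140), (nat_lit 180), (nat_lit 200)], [(nat_lit 0), (nat_lit 0), (nat_lit 2835)], [((nat_lit 0), (nat_lit 0), (nat_lit 0)), ((nat_lit 0), (nat_lit 0), (nat_lit 0)), ((nat_lit 363), (nat_lit 1000), (nat_lit 798))], ((nat_lit 0), (nat_lit 0), (nat_lit 0))⟩, (nat_lit 6603), (nat_lit 300), (nat_lit 491), (nat_lit 1874403), (nat_lit 0), [(nat_lit 236208000), (nat_lit 337392000), (nat_lit 393600000)], [], [(nat_lit 1652848190), (nat_lit 1591046173), (nat_lit 1570097920), (nat_lit 1512273716), (nat_lit 1362974560), (nat_lit 1290810176), (nat_lit 1265325360), (nat_lit 1192812064)], (nat_lit 0), (nat_lit 0), (nat_lit 0), (nat_lit 0), (nat_lit 0), (nat_lit 0), [], [(nat_lit 32), (nat_lit 67), (nat_lit 428), (nat_lit 200), (nat_lit 9)]⟩⟩) (.leaf ⟨(nat_lit 925), (nat_lit 50), (nat_lit 0), (nat_lit 25), (nat_lit 0), (nat_lit 3294), (nat_lit 738), (nat_lit 342), (nat_lit 0), (nat_lit 0), (nat_lit 370000), [((nat_lit 400), [((nat_lit 28), (nat_lit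 1), (nat_lit 925))])], ⟨(nat_lit 5), false, true, true, (nat_lit 238), (nat_lit 0), (nat_lit 2237), [(nat_lit 1532772), (nat_lit 1536110), (nat_lit 1543695), (nat_lit 1548146), (nat_lit 1648189), (nat_lit 1637497), (nat_lit 1659577), (nat_lit 1649997)]⟩, ⟨(nat_lit 3), true, false, true, (nat_lit 154), (nat_lit 0), (nat_lit 2237), [(nat_lit 1294870), (nat_lit 1299999), (nat_lit 1360436), (nat_lit 1372242), (nat_lit 1408898), (nat_lit 1399996), (nat_lit 1477224), (nat_lit 1474999)]⟩, (nat_lit 4771452), (nat_lit 42552970), (nat_lit 16249979), (nat_lit 8197051), (nat_lit 3), (nat_lit 0), [⟨(nat_lit 1), (nat_lit 89), (nat_lit 32), (nat_lit 100), (nat_lit 102790085)⟩], [], [], [],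
 ⟨⟨[(nat_lit 40), (nat_lit 60)], [(nat_lit 0), (nat_lit 1539)], [((nat_lit 0), (nat_lit 0), (nat_lit 0)), ((nat_lit 1000), (nat_lit 478), (nat_lit 704))], ((nat_lit 48), (nat_lit 100), (nat_lit 69))⟩, (nat_lit 0), (nat_lit 177), (nat_lit 177), (nat_lit 0), (nat_lit 422579), [(nat_lit 1425410022), (nat_lit 546590000)], [(nat_lit 0), (nat_lit 0)], [(nat_lit 22698804289), (nat_lit 23965228290), (nat_lit 25217687079), (nat_lit 26414258774), (nat_lit 24057695184), (nat_lit 25187938928), (nat_lit 26307229547), (nat_lit 27289000920)], (nat_lit 1271251), (nat_lit 1271251), (nat_lit 1271251), (nat_lit 1271251), (nat_lit 780000), (nat_lit 1435001), [(nat_lit 490000), (nat_lit 780000)], [(nat_lit 1), (nat_lit 38), (nat_lit 203), (nat_lit 0), (nat_lit 9)]⟩,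
 ⟨⟨[(nat_lit 100), (nat_lit 140), (nat_lit 160)], [(nat_lit 0), (nat_lit 766), (nat_lit 1913)], [((nat_lit 0), (nat_lit 0), (nat_lit 0)), ((nat_lit 1000), (nat_lit 1000), (nat_lit 299)), ((nat_lit 817), (nat_lit 1000), (nat_lit 711))], ((nat_lit 100), (nat_lit 87), (nat_lit 63))⟩, (nat_lit 545334), (nat_lit 1246), (nat_lit 1246), (nat_lit 0), (nat_lit 2119578), [(nat_lit 468750000), (nat_lit 738150000), (nat_lit 890400000)], [], [(nat_lit 2045545716), (nat_lit 2036064228), (nat_lit 1992004994), (nat_lit 2013443640), (nat_lit 3233395454), (nat_lit 3067352280), (nat_lit 2596446312), (nat_lit 2603867970)], (nat_lit 1271251), (nat_lit 1271251), (nat_lit 1271251), (nat_lit 1271251), (nat_lit 0), (nat_lit 2825001), [(nat_lit 1412501), (nat_lit 1271251), (nat_lit 1271251)], [(nat_lit 23), (nat_lit 62), (nat_lit 483), (nat_lit 250), (nat_lit 12)]⟩,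
 ⟨⟨[(nat_lit 140), (nat_lit 180), (nat_lit 200)], [(nat_lit 0), (nat_lit 0), (nat_lit 2835)], [((nat_lit 0), (nat_lit 0), (nat_lit 0)), ((nat_lit 0), (nat_lit 0), (nat_lit 0)), ((nat_lit 363), (nat_lit 1000), (nat_lit 798))], ((nat_lit 0), (nat_lit 0), (nat_lit 0))⟩, (nat_lit 6879), (nat_lit 300), (nat_lit 491), (nat_lit 1952500), (nat_lit 0), [(nat_lit 246050000), (nat_lit 351450000), (nat_lit 410000000)], [], [(nat_lit 1721713954), (nat_lit 1657248145), (nat_lit 1635649214), (nat_lit 1575329827), (nat_lit 1419539928), (nat_lit 1344272210), (nat_lit 1317692012), (nat_lit 1242061159)], (nat_lit 0), (nat_lit 0), (nat_lit 0), (nat_lit 0), (nat_lit 0), (nat_lit 0), [], [(nat_lit 32), (nat_lit 67), (nat_lit 428), (nat_lit 200), (nat_lit 9)]⟩⟩))) (.trX (nat_lit 5) (nat_lit 3) (nat_lit 4) (nat_lit 92) (nat_lit 40) (nat_lit 100) (nat_lit 390) (.spl (nat_lit 1) (nat_lit 220) (.trX (nat_lit 3) (nat_lit 0) (nat_lit 1) (nat_lit 44) (nat_lit 86) (nat_lit 100)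 (nat_lit 310) (.leaf ⟨(nat_lit 948), (nat_lit 37), (nat_lit 0), (nat_lit 15), (nat_lit 0), (nat_lit 3297), (nat_lit 556), (nat_lit 206), (nat_lit 0), (nat_lit 0), (nat_lit 379200), [((nat_lit 400), [((nat_lit 28), (nat_lit 1), (nat_lit 948))])], ⟨(nat_lit 7), false, true, true, (nat_lit 251), (nat_lit 0), (nat_lit 2237), [(nat_lit 1591251), (nat_lit 1574995), (nat_lit 1636802), (nat_lit 1624997), (nat_lit 1634011), (nat_lit 1612493), (nat_lit 1679562), (nat_lit 1662495)]⟩, ⟨(nat_lit 3), true, false, true, (nat_lit 154), (nat_lit 0), (nat_lit 2237), [(nat_lit 1294870), (nat_lit 1299999), (nat_lit 1360436), (nat_lit 1372242), (nat_lit 1408898), (nat_lit 1399996), (nat_lit 1477224), (nat_lit 1474999)]⟩, (nat_lit 4841964), (nat_lit 41478862), (nat_lit 17448921), (nat_lit 8072217), (nat_lit 3), (nat_lit 0), [⟨(nat_lit 1), (nat_lit 95), (nat_lit 31), (nat_lit 100), (nat_lit 322548547)⟩, ⟨(nat_lit 1), (nat_lit 86), (nat_lit 44), (nat_lit 100), (nat_lit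 159090444)⟩], [], [], [],
 ⟨⟨[(nat_lit 40), (nat_lit 60)], [(nat_lit 0), (nat_lit 1539)], [((nat_lit 0), (nat_lit 0), (nat_lit 0)), ((nat_lit 1000), (nat_lit 478), (nat_lit 704))], ((nat_lit 48), (nat_lit 100), (nat_lit 69))⟩, (nat_lit 0), (nat_lit 181), (nat_lit 181), (nat_lit 0), (nat_lit 414531), [(nat_lit 1416145603), (nat_lit 478574400)], [(nat_lit 0), (nat_lit 0)], [(nat_lit 25174766895), (nat_lit 26418349037), (nat_lit 26343326412), (nat_lit 27627976208), (nat_lit 26263787792), (nat_lit 27245926528), (nat_lit 27247481443), (nat_lit 28334745305)], (nat_lit 1271251), (nat_lit 1271251), (nat_lit 1271251), (nat_lit 1271251), (nat_lit 780000), (nat_lit 1435001), [(nat_lit 490000), (nat_lit 780000)], [(nat_lit 1), (nat_lit 38), (nat_lit 203), (nat_lit 0), (nat_lit 9)]⟩,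
 ⟨⟨[(nat_lit 120), (nat_lit 160), (nat_lit 180)], [(nat_lit 0), (nat_lit 533), (nat_lit 2066)], [((nat_lit 0), (nat_lit 0), (nat_lit 0)), ((nat_lit 960), (nat_lit 1000), (nat_lit 200)), ((nat_lit 615), (nat_lit 1000), (nat_lit 729))], ((nat_lit 100), (nat_lit 72), (nat_lit 63))⟩, (nat_lit 656641), (nat_lit 1849), (nat_lit 1849), (nat_lit 0), (nat_lit 3267364), [(nat_lit 414336000), (nat_lit 617344000), (nat_lit 731016000)], [], [(nat_lit 1677737390), (nat_lit 1657810702), (nat_lit 1715620690), (nat_lit 1741065388), (nat_lit 2404326699), (nat_lit 1926977208), (nat_lit 2044119232), (nat_lit 1867654699)], (nat_lit 1271251), (nat_lit 1271251), (nat_lit 1271251), (nat_lit 1271251), (nat_lit 0), (nat_lit 2754376), [(nat_lit 1695001), (nat_lit 1271251), (nat_lit 1271251)], [(nat_lit 28), (nat_lit 65), (nat_lit 578), (nat_lit 250), (nat_lit 13)]⟩,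
 ⟨⟨[(nat_lit 140), (nat_lit 180), (nat_lit 200)], [(nat_lit 0), (nat_lit 0), (nat_lit 2835)], [((nat_lit 0), (nat_lit 0), (nat_lit 0)), ((nat_lit 0), (nat_lit 0), (nat_lit 0)), ((nat_lit 363), (nat_lit 1000), (nat_lit 798))], ((nat_lit 0), (nat_lit 0), (nat_lit 0))⟩, (nat_lit 4127), (nat_lit 300), (nat_lit 491), (nat_lit 1171500), (nat_lit 0), [(nat_lit 147630000), (nat_lit 210870000), (nat_lit 246000000)], [], [(nat_lit 1033025068), (nat_lit 994736111), (nat_lit 981705842), (nat_lit 945308190), (nat_lit 845395593), (nat_lit 800746339), (nat_lit 784959437), (nat_lit 740020134)], (nat_lit 0), (nat_lit 0), (nat_lit 0), (nat_lit 0), (nat_lit 0), (nat_lit 0), [], [(nat_lit 32), (nat_lit 67), (nat_lit 428), (nat_lit 200), (nat_lit 9)]⟩⟩)) (.spl (nat_lit 0) (nat_lit 390) (.leaf ⟨(nat_lit 915), (nat_lit 62), (nat_lit 0), (nat_lit 23), (nat_lit 0), (nat_lit 3229), (nat_lit 798), (nat_lit 315), (nat_lit 0), (nat_lit 0), (nat_lit 366000), [((nat_lit 390),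 [((nat_lit 28), (nat_lit 1), (nat_lit 915))])], ⟨(nat_lit 7), false, true, true, (nat_lit 272), (nat_lit 1581), (nat_lit 2237), [(nat_lit 1636804), (nat_lit 1632585), (nat_lit 1659578), (nat_lit 1655900), (nat_lit 1708073), (nat_lit 1700880), (nat_lit 1730848), (nat_lit 1724195)]⟩, ⟨(nat_lit 3), true, false, true, (nat_lit 155), (nat_lit 1581), (nat_lit 2237), [(nat_lit 1294870), (nat_lit 1297467), (nat_lit 1363068), (nat_lit 1367287), (nat_lit 1408901), (nat_lit 1406738), (nat_lit 1477224), (nat_lit 1476683)]⟩, (nat_lit 4937919), (nat_lit 39709169), (nat_lit 19425653), (nat_lit 7865178), (nat_lit 3), (nat_lit 0), [⟨(nat_lit 1), (nat_lit 87), (nat_lit 38), (nat_lit 100), (nat_lit 397190129)⟩], [], [], [],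
 ⟨⟨[(nat_lit 40), (nat_lit 60)], [(nat_lit 0), (nat_lit 1539)], [((nat_lit 0), (nat_lit 0), (nat_lit 0)), ((nat_lit 1000), (nat_lit 478), (nat_lit 704))], ((nat_lit 48), (nat_lit 100), (nat_lit 69))⟩, (nat_lit 0), (nat_lit 173), (nat_lit 173), (nat_lit 0), (nat_lit 392786), [(nat_lit 1429438001), (nat_lit 576162000)], [(nat_lit 0), (nat_lit 0)], [(nat_lit 25360819996), (nat_lit 25903337589), (nat_lit 27248544462), (nat_lit 27821219384), (nat_lit 26461663186), (nat_lit 26948569101), (nat_lit 28159553053), (nat_lit 28599472105)], (nat_lit 1271251), (nat_lit 1271251), (nat_lit 1271251), (nat_lit 1271251), (nat_lit 780000), (nat_lit 1435001), [(nat_lit 490000), (nat_lit 780000)], [(nat_lit 1), (nat_lit 38), (nat_lit 203), (nat_lit 0), (nat_lit 9)]⟩,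
 ⟨⟨[(nat_lit 100), (nat_lit 140), (nat_lit 160)], [(nat_lit 0), (nat_lit 508), (nat_lit 1689)], [((nat_lit 0), (nat_lit 0), (nat_lit 0)), ((nat_lit 1000), (nat_lit 1000), (nat_lit 198)), ((nat_lit 811), (nat_lit 1000), (nat_lit 671))], ((nat_lit 100), (nat_lit 84), (nat_lit 63))⟩, (nat_lit 676844), (nat_lit 1167), (nat_lit 1167), (nat_lit 0), (nat_lit 1995028), [(nat_lit 531250000), (nat_lit 836570000), (nat_lit 1009120000)], [], [(nat_lit 2585739978), (nat_lit 2570550820), (nat_lit 2763825402), (nat_lit 2782480402), (nat_lit 2802060133), (nat_lit 2823939309), (nat_lit 3044490997), (nat_lit 3054323763)], (nat_lit 1271251), (nat_lit 1271251), (nat_lit 1271251), (nat_lit 1271251), (nat_lit 0), (nat_lit 2754376), [(nat_lit 1412501), (nat_lit 1271251), (nat_lit 1271251)], [(nat_lit 23), (nat_lit 62), (nat_lit 483), (nat_lit 250), (nat_lit 12)]⟩,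
 ⟨⟨[(nat_lit 140), (nat_lit 180), (nat_lit 200)], [(nat_lit 0), (nat_lit 0), (nat_lit 2835)], [((nat_lit 0), (nat_lit 0), (nat_lit 0)), ((nat_lit 0), (nat_lit 0), (nat_lit 0)), ((nat_lit 363), (nat_lit 1000), (nat_lit 798))], ((nat_lit 0), (nat_lit 0), (nat_lit 0))⟩, (nat_lit 6328), (nat_lit 300), (nat_lit 491), (nat_lit 1796301), (nat_lit 0), [(nat_lit 226366000), (nat_lit 323334000), (nat_lit 377200000)], [], [(nat_lit 1583975841), (nat_lit 1524841132), (nat_lit 1504940018), (nat_lit 1449353473), (nat_lit 1296866287), (nat_lit 1228652266), (nat_lit 1204531945), (nat_lit 1135872636)], (nat_lit 0), (nat_lit 0), (nat_lit 0), (nat_lit 0), (nat_lit 0), (nat_lit 0), [], [(nat_lit 32), (nat_lit 67), (nat_lit 428), (nat_lit 200), (nat_lit 9)]⟩⟩) (.trX (nat_lit 3) (nat_lit 0) (nat_lit 1) (nat_lit 32) (nat_lit 89) (nat_lit 100) (nat_lit 300) (.leaf ⟨(nat_lit 917), (nat_lit 61), (nat_lit 0), (nat_lit 22), (nat_lit 0), (nat_lit 3313), (nat_lit 785), (nat_lit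 305), (nat_lit 0), (nat_lit 0), (nat_lit 356150), [((nat_lit 400), [((nat_lit 28), (nat_lit 0), (nat_lit 71)), ((nat_lit 28), (nat_lit 1), (nat_lit 846))])], ⟨(nat_lit 7), false, true, true, (nat_lit 262), (nat_lit 0), (nat_lit 1582), [(nat_lit 1632583), (nat_lit 1624997), (nat_lit 1655899), (nat_lit 1649997), (nat_lit 1659900), (nat_lit 1649996), (nat_lit 1683216), (nat_lit 1674997)]⟩, ⟨(nat_lit 3), true, false, true, (nat_lit 155), (nat_lit 0), (nat_lit 1582), [(nat_lit 1297467), (nat_lit 1299999), (nat_lit 1365448), (nat_lit 1373034), (nat_lit 1406735), (nat_lit 1399996), (nat_lit 1476683), (nat_lit 1474999)]⟩, (nat_lit 4894956), (nat_lit 40583703), (nat_lit 18430809), (nat_lit 7985488), (nat_lit 3), (nat_lit 0), [⟨(nat_lit 1), (nat_lit 94), (nat_lit 22), (nat_lit 100), (nat_lit 21598824)⟩, ⟨(nat_lit 1), (nat_lit 89), (nat_lit 32), (nat_lit 100), (nat_lit 458824600)⟩], [], [], [],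
 ⟨⟨[(nat_lit 40), (nat_lit 60)], [(nat_lit 0), (nat_lit 2136)], [((nat_lit 0), (nat_lit 0), (nat_lit 0)), ((nat_lit 1000), (nat_lit 343), (nat_lit 808))], ((nat_lit 37), (nat_lit 100), (nat_lit 75))⟩, (nat_lit 0), (nat_lit 181), (nat_lit 181), (nat_lit 0), (nat_lit 420391), [(nat_lit 1440560401), (nat_lit 621452800)], [(nat_lit 0), (nat_lit 0)], [(nat_lit 25789802725), (nat_lit 26440163773), (nat_lit 26588096356), (nat_lit 27247659415), (nat_lit 26819447564), (nat_lit 27311496568), (nat_lit 27456882013), (nat_lit 27989804537)], (nat_lit 1271251), (nat_lit 1271251), (nat_lit 1271251), (nat_lit 1271251), (nat_lit 780000), (nat_lit 1435001), [(nat_lit 490000), (nat_lit 780000)], [(nat_lit 1), (nat_lit 38), (nat_lit 203), (nat_lit 0), (nat_lit 8)]⟩,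
 ⟨⟨[(nat_lit 100), (nat_lit 140), (nat_lit 160)], [(nat_lit 0), (nat_lit 508), (nat_lit 1689)], [((nat_lit 0), (nat_lit 0), (nat_lit 0)), ((nat_lit 1000), (nat_lit 1000), (nat_lit 198)), ((nat_lit 811), (nat_lit 1000), (nat_lit 671))], ((nat_lit 100), (nat_lit 84), (nat_lit 63))⟩, (nat_lit 667416), (nat_lit 1296), (nat_lit 1296), (nat_lit 0), (nat_lit 2272983), [(nat_lit 518750000), (nat_lit 816886000), (nat_lit 985376000)], [], [(nat_lit 2508600128), (nat_lit 2488913956), (nat_lit 2544742388), (nat_lit 2569805754), (nat_lit 2741755738), (nat_lit 2762983038), (nat_lit 2829325420), (nat_lit 2845955308)], (nat_lit 1271251), (nat_lit 1271251), (nat_lit 1271251), (nat_lit 1271251), (nat_lit 0), (nat_lit 2754376), [(nat_lit 1412501), (nat_lit 1271251), (nat_lit 1271251)], [(nat_lit 23), (nat_lit 62), (nat_lit 483), (nat_lit 250), (nat_lit 12)]⟩,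
 ⟨⟨[(nat_lit 140), (nat_lit 180), (nat_lit 200)], [(nat_lit 0), (nat_lit 0), (nat_lit 2835)], [((nat_lit 0), (nat_lit 0), (nat_lit 0)), ((nat_lit 0), (nat_lit 0), (nat_lit 0)), ((nat_lit 363), (nat_lit 1000), (nat_lit 798))], ((nat_lit 0), (nat_lit 0), (nat_lit 0))⟩, (nat_lit 6053), (nat_lit 300), (nat_lit 491), (nat_lit 1718200), (nat_lit 0), [(nat_lit 216524000), (nat_lit 309276000), (nat_lit 360800000)], [], [(nat_lit 1515091591), (nat_lit 1460339843), (nat_lit 1440968692), (nat_lit 1386847230), (nat_lit 1237953247), (nat_lit 1171646814), (nat_lit 1148207362), (nat_lit 1081477324)], (nat_lit 0), (nat_lit 0), (nat_lit 0), (nat_lit 0), (nat_lit 0), (nat_lit 0), [], [(nat_lit 32), (nat_lit 67), (nat_lit 428), (nat_lit 200), (nat_lit 9)]⟩⟩))))))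
noncomputable def c13_14 : Tr Lf :=
 (.spl (nat_lit 5) (nat_lit 120) (.stt (nat_lit 1) (.spl (nat_lit 0) (nat_lit 390) (.leaf ⟨(nat_lit 942), (nat_lit 0), (nat_lit 0), (nat_lit 58), (nat_lit 0), (nat_lit 3122), (nat_lit 573), (nat_lit 1367), (nat_lit 0), (nat_lit 0), (nat_lit 235500), [((nat_lit 390), [((nat_lit 28), (nat_lit 0), (nat_lit 942))])], ⟨(nat_lit 5), false, true, true, (nat_lit 241), (nat_lit 1581), (nat_lit 2237), [(nat_lit 1477224), (nat_lit 1476683), (nat_lit 1545457), (nat_lit 1546538), (nat_lit 1662524), (nat_lit 1654249), (nat_lit 1730848), (nat_lit 1724195)]⟩, ⟨(nat_lit 5), true, false, true, (nat_lit 196), (nat_lit 1581), (nat_lit 2237), [(nat_lit 1408901), (nat_lit 1406738), (nat_lit 1477224), (nat_lit 1476683), (nat_lit 1508678), (nat_lit 1502350), (nat_lit 1577001), (nat_lit 1572296)]⟩, (nat_lit 5141404), (nat_lit 39698166), (nat_lit 15858104), (nat_lit 11443730), (nat_lit 0), (nat_lit 0), [⟨(nat_lit 1), (nat_lit 91), (nat_lit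 38), (nat_lit 100), (nat_lit 99730502)⟩], [⟨(nat_lit 1), (nat_lit 100), (nat_lit 38), (nat_lit 98), (nat_lit 108868878)⟩], [], [⟨(nat_lit 0), (nat_lit 100), (nat_lit 96), (nat_lit 49), (nat_lit 111041808)⟩],
 ⟨⟨[(nat_lit 40), (nat_lit 60)], [(nat_lit 0), (nat_lit 1539)], [((nat_lit 0), (nat_lit 0), (nat_lit 0)), ((nat_lit 1000), (nat_lit 478), (nat_lit 704))], ((nat_lit 48), (nat_lit 100), (nat_lit 69))⟩, (nat_lit 0), (nat_lit 62), (nat_lit 62), (nat_lit 0), (nat_lit 0), [(nat_lit 1576818421), (nat_lit 1175688000)], [(nat_lit 0), (nat_lit 0)], [(nat_lit 23685527723), (nat_lit 24310324518), (nat_lit 27963029744), (nat_lit 28447942372), (nat_lit 25753642907), (nat_lit 26304261340), (nat_lit 29505528593), (nat_lit 29937147568)], (nat_lit 0), (nat_lit 0), (nat_lit 0), (nat_lit 0), (nat_lit 0), (nat_lit 0), [], [(nat_lit 1), (nat_lit 38), (nat_lit 203), (nat_lit 0), (nat_lit 9)]⟩,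
 ⟨⟨[(nat_lit 120), (nat_lit 160), (nat_lit 180)], [(nat_lit 0), (nat_lit 533), (nat_lit 2066)], [((nat_lit 0), (nat_lit 0), (nat_lit 0)), ((nat_lit 960), (nat_lit 1000), (nat_lit 200)), ((nat_lit 615), (nat_lit 1000), (nat_lit 729))], ((nat_lit 100), (nat_lit 72), (nat_lit 63))⟩, (nat_lit 409798), (nat_lit 1436), (nat_lit 1436), (nat_lit 0), (nat_lit 2331484), [(nat_lit 462144000), (nat_lit 688576000), (nat_lit 815364000)], [], [(nat_lit 2338958502), (nat_lit 2269215132), (nat_lit 2379163610), (nat_lit 2344998945), (nat_lit 2296393036), (nat_lit 1999473952), (nat_lit 1968625561), (nat_lit 1931614627)], (nat_lit 1271251), (nat_lit 1271251), (nat_lit 1271251), (nat_lit 1271251), (nat_lit 0), (nat_lit 780000), [(nat_lit 1695001), (nat_lit 1271251), (nat_lit 1271251)], [(nat_lit 28), (nat_lit 65), (nat_lit 446), (nat_lit 175), (nat_lit 10)]⟩,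
 ⟨⟨[(nat_lit 140), (nat_lit 180), (nat_lit 200)], [(nat_lit 0), (nat_lit 0), (nat_lit 2835)], [((nat_lit 0), (nat_lit 0), (nat_lit 0)), ((nat_lit 0), (nat_lit 0), (nat_lit 0)), ((nat_lit 363), (nat_lit 1000), (nat_lit 798))], ((nat_lit 0), (nat_lit 0), (nat_lit 0))⟩, (nat_lit 15958), (nat_lit 300), (nat_lit 448), (nat_lit 4529800), (nat_lit 0), [(nat_lit 570836000), (nat_lit 815364000), (nat_lit 951200000)], [], [(nat_lit 4021487212), (nat_lit 3733840194), (nat_lit 3946781552), (nat_lit 3713619937), (nat_lit 2718467702), (nat_lit 2452249743), (nat_lit 2643080766), (nat_lit 2357690983)], (nat_lit 0), (nat_lit 0), (nat_lit 0), (nat_lit 0), (nat_lit 0), (nat_lit 0), [], [(nat_lit 32), (nat_lit 67), (nat_lit 373), (nat_lit 150), (nat_lit 8)]⟩⟩) (.trX (nat_lit 3) (nat_lit 0) (nat_lit 1) (nat_lit 32) (nat_lit 89) (nat_lit 100) (nat_lit 300) (.trX (nat_lit 4) (nat_lit 0) (nat_lit 2) (nat_lit 31) (nat_lit 98) (nat_lit 100) (nat_lit 250) (.leaf ⟨(nat_lit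 959), (nat_lit 0), (nat_lit 0), (nat_lit 41), (nat_lit 0), (nat_lit 3161), (nat_lit 414), (nat_lit 986), (nat_lit 0), (nat_lit 0), (nat_lit 239750), [((nat_lit 400), [((nat_lit 28), (nat_lit 0), (nat_lit 959))])], ⟨(nat_lit 5), false, true, true, (nat_lit 231), (nat_lit 0), (nat_lit 1582), [(nat_lit 1476683), (nat_lit 1474999), (nat_lit 1545316), (nat_lit 1548686), (nat_lit 1613268), (nat_lit 1599994), (nat_lit 1683216), (nat_lit 1674997)]⟩, ⟨(nat_lit 5), true, false, true, (nat_lit 189), (nat_lit 0), (nat_lit 1582), [(nat_lit 1406735), (nat_lit 1399996), (nat_lit 1476683), (nat_lit 1474999), (nat_lit 1475027), (nat_lit 1462493), (nat_lit 1544976), (nat_lit 1537497)]⟩, (nat_lit 5030637), (nat_lit 40921999), (nat_lit 15106897), (nat_lit 10971104), (nat_lit 0), (nat_lit 0), [⟨(nat_lit 1), (nat_lit 96), (nat_lit 22), (nat_lit 100), (nat_lit 114599282)⟩], [⟨(nat_lit 1), (nat_lit 100), (nat_lit 22), (nat_lit 97), (nat_lit 175931292)⟩], [], [⟨(nat_lit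 0), (nat_lit 100), (nat_lit 89), (nat_lit 72), (nat_lit 84658832)⟩],
 ⟨⟨[(nat_lit 40), (nat_lit 60)], [(nat_lit 0), (nat_lit 2136)], [((nat_lit 0), (nat_lit 0), (nat_lit 0)), ((nat_lit 1000), (nat_lit 343), (nat_lit 808))], ((nat_lit 37), (nat_lit 100), (nat_lit 75))⟩, (nat_lit 0), (nat_lit 61), (nat_lit 61), (nat_lit 0), (nat_lit 0), [(nat_lit 1572826803), (nat_lit 1137676000)], [(nat_lit 0), (nat_lit 0)], [(nat_lit 24272315094), (nat_lit 24900681841), (nat_lit 27306896444), (nat_lit 27827314651), (nat_lit 25577224546), (nat_lit 26152851894), (nat_lit 28349399266), (nat_lit 28837116795)], (nat_lit 0), (nat_lit 0), (nat_lit 0), (nat_lit 0), (nat_lit 0), (nat_lit 0), [], [(nat_lit 1), (nat_lit 38), (nat_lit 203), (nat_lit 0), (nat_lit 8)]⟩,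
 ⟨⟨[(nat_lit 120), (nat_lit 160), (nat_lit 180)], [(nat_lit 0), (nat_lit 533), (nat_lit 2066)], [((nat_lit 0), (nat_lit 0), (nat_lit 0)), ((nat_lit 960), (nat_lit 1000), (nat_lit 200)), ((nat_lit 615), (nat_lit 1000), (nat_lit 729))], ((nat_lit 100), (nat_lit 72), (nat_lit 63))⟩, (nat_lit 316966), (nat_lit 1600), (nat_lit 1600), (nat_lit 0), (nat_lit 2692407), [(nat_lit 326688000), (nat_lit 486752000), (nat_lit 576378000)], [], [(nat_lit 1575211956), (nat_lit 1541687366), (nat_lit 1592422421), (nat_lit 1571133303), (nat_lit 1622159221), (nat_lit 1329833346), (nat_lit 1310169405), (nat_lit 1275797264)], (nat_lit 1271251), (nat_lit 1271251), (nat_lit 1271251), (nat_lit 1271251), (nat_lit 0), (nat_lit 780000), [(nat_lit 1695001), (nat_lit 1271251), (nat_lit 1271251)], [(nat_lit 28), (nat_lit 65), (nat_lit 483), (nat_lit 175), (nat_lit 11)]⟩,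
 ⟨⟨[(nat_lit 140), (nat_lit 180), (nat_lit 200)], [(nat_lit 0), (nat_lit 0), (nat_lit 2835)], [((nat_lit 0), (nat_lit 0), (nat_lit 0)), ((nat_lit 0), (nat_lit 0), (nat_lit 0)), ((nat_lit 363), (nat_lit 1000), (nat_lit 798))], ((nat_lit 0), (nat_lit 0), (nat_lit 0))⟩, (nat_lit 11280), (nat_lit 300), (nat_lit 448), (nat_lit 3202106), (nat_lit 0), [(nat_lit 403522000), (nat_lit 576378000), (nat_lit 672400000)], [], [(nat_lit 2850556158), (nat_lit 2642153335), (nat_lit 2783595312), (nat_lit 2567317812), (nat_lit 1909296224), (nat_lit 1716378522), (nat_lit 1844968688), (nat_lit 1643463374)], (nat_lit 0), (nat_lit 0), (nat_lit 0), (nat_lit 0), (nat_lit 0), (nat_lit 0), [], [(nat_lit 32), (nat_lit 67), (nat_lit 373), (nat_lit 150), (nat_lit 8)]⟩⟩)))) (.spl (nat_lit 0) (nat_lit 390) (.leaf ⟨(nat_lit 821), (nat_lit 95), (nat_lit 0), (nat_lit 84), (nat_lit 0), (nat_lit 3480), (nat_lit 2182), (nat_lit 1865), (nat_lit 0), (nat_lit 0), (nat_lit 205250), [((nat_lit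 390), [((nat_lit 28), (nat_lit 0), (nat_lit 821))])], ⟨(nat_lit 5), false, true, true, (nat_lit 241), (nat_lit 1581), (nat_lit 2237), [(nat_lit 1477224), (nat_lit 1476683), (nat_lit 1545457), (nat_lit 1546538), (nat_lit 1662524), (nat_lit 1654249), (nat_lit 1730848), (nat_lit 1724195)]⟩, ⟨(nat_lit 5), true, false, true, (nat_lit 196), (nat_lit 1581), (nat_lit 2237), [(nat_lit 1408901), (nat_lit 1406738), (nat_lit 1477224), (nat_lit 1476683), (nat_lit 1508678), (nat_lit 1502350), (nat_lit 1577001), (nat_lit 1572296)]⟩, (nat_lit 5141404), (nat_lit 39698166), (nat_lit 15858104), (nat_lit 11443730), (nat_lit 5), (nat_lit 0), [], [⟨(nat_lit 1), (nat_lit 100), (nat_lit 38), (nat_lit 98), (nat_lit 111687199)⟩], [], [⟨(nat_lit 0), (nat_lit 100), (nat_lit 96), (nat_lit 49), (nat_lit 128662095)⟩],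
 ⟨⟨[(nat_lit 40), (nat_lit 60)], [(nat_lit 0), (nat_lit 1539)], [((nat_lit 0), (nat_lit 0), (nat_lit 0)), ((nat_lit 1000), (nat_lit 478), (nat_lit 704))], ((nat_lit 48), (nat_lit 100), (nat_lit 69))⟩, (nat_lit 0), (nat_lit 154), (nat_lit 154), (nat_lit 0), (nat_lit 392918), [(nat_lit 1605229201), (nat_lit 1446244000)], [(nat_lit 0), (nat_lit 0)], [(nat_lit 24372184513), (nat_lit 24942709759), (nat_lit 28362485662), (nat_lit 28816590600), (nat_lit 26298476422), (nat_lit 26810649858), (nat_lit 29845226914), (nat_lit 30339273054)], (nat_lit 1271251), (nat_lit 1271251), (nat_lit 1271251), (nat_lit 1271251), (nat_lit 1271251), (nat_lit 1271251), [(nat_lit 490000), (nat_lit 780000)], [(nat_lit 1), (nat_lit 38), (nat_lit 203), (nat_lit 0), (nat_lit 9)]⟩,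
 ⟨⟨[(nat_lit 120), (nat_lit 160), (nat_lit 180)], [(nat_lit 0), (nat_lit 533), (nat_lit 2066)], [((nat_lit 0), (nat_lit 0), (nat_lit 0)), ((nat_lit 960), (nat_lit 1000), (nat_lit 200)), ((nat_lit 615), (nat_lit 1000), (nat_lit 729))], ((nat_lit 100), (nat_lit 72), (nat_lit 63))⟩, (nat_lit 1080960), (nat_lit 680), (nat_lit 680), (nat_lit 0), (nat_lit 696554), [(nat_lit 1426272000), (nat_lit 2125088000), (nat_lit 2516382000)], [], [(nat_lit 6608378505), (nat_lit 6532725544), (nat_lit 7237102199), (nat_lit 7196794808), (nat_lit 7033846049), (nat_lit 4959613999), (nat_lit 5493963624), (nat_lit 5445853976)], (nat_lit 1271251), (nat_lit 1271251), (nat_lit 1271251), (nat_lit 1271251), (nat_lit 0), (nat_lit 780000), [(nat_lit 1695001), (nat_lit 1271251), (nat_lit 1271251)], [(nat_lit 28), (nat_lit 65), (nat_lit 401), (nat_lit 175), (nat_lit 9)]⟩,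
 ⟨⟨[(nat_lit 140), (nat_lit 180), (nat_lit 200)], [(nat_lit 0), (nat_lit 0), (nat_lit 2835)], [((nat_lit 0), (nat_lit 0), (nat_lit 0)), ((nat_lit 0), (nat_lit 0), (nat_lit 0)), ((nat_lit 363), (nat_lit 1000), (nat_lit 798))], ((nat_lit 0), (nat_lit 0), (nat_lit 0))⟩, (nat_lit 23111), (nat_lit 300), (nat_lit 448), (nat_lit 6560402), (nat_lit 0), [(nat_lit 826728000), (nat_lit 1180872000), (nat_lit 1377600000)], [], [(nat_lit 5778835384), (nat_lit 5391805245), (nat_lit 5684127792), (nat_lit 5270787682), (nat_lit 4009341586), (nat_lit 3651380201), (nat_lit 3913420975), (nat_lit 3529105650)], (nat_lit 0), (nat_lit 0), (nat_lit 0), (nat_lit 0), (nat_lit 0), (nat_lit 0), [], [(nat_lit 32), (nat_lit 67), (nat_lit 373), (nat_lit 150), (nat_lit 8)]⟩⟩) (.trX (nat_lit 3) (nat_lit 0) (nat_lit 1) (nat_lit 32) (nat_lit 89) (nat_lit 100) (nat_lit 300) (.trX (nat_lit 4) (nat_lit 0) (nat_lit 2) (nat_lit 31) (nat_lit 98) (nat_lit 100) (nat_lit 250) (.leaf ⟨(nat_lit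 819), (nat_lit 114), (nat_lit 0), (nat_lit 67), (nat_lit 0), (nat_lit 3529), (nat_lit 2249), (nat_lit 1581), (nat_lit 0), (nat_lit 0), (nat_lit 204750), [((nat_lit 400), [((nat_lit 28), (nat_lit 0), (nat_lit 819))])], ⟨(nat_lit 5), false, true, true, (nat_lit 231), (nat_lit 0), (nat_lit 1582), [(nat_lit 1476683), (nat_lit 1474999), (nat_lit 1545316), (nat_lit 1548686), (nat_lit 1613268), (nat_lit 1599994), (nat_lit 1683216), (nat_lit 1674997)]⟩, ⟨(nat_lit 5), true, false, true, (nat_lit 189), (nat_lit 0), (nat_lit 1582), [(nat_lit 1406735), (nat_lit 1399996), (nat_lit 1476683), (nat_lit 1474999), (nat_lit 1475027), (nat_lit 1462493), (nat_lit 1544976), (nat_lit 1537497)]⟩, (nat_lit 5030637), (nat_lit 40921999), (nat_lit 15106897), (nat_lit 10971104), (nat_lit 5), (nat_lit 0), [⟨(nat_lit 1), (nat_lit 96), (nat_lit 22), (nat_lit 100), (nat_lit 52671674)⟩], [⟨(nat_lit 1), (nat_lit 100), (nat_lit 22), (nat_lit 97), (nat_lit 332783205)⟩], [], [⟨(nat_lit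 0), (nat_lit 100), (nat_lit 98), (nat_lit 37), (nat_lit 94595214)⟩],
 ⟨⟨[(nat_lit 40), (nat_lit 60)], [(nat_lit 0), (nat_lit 2136)], [((nat_lit 0), (nat_lit 0), (nat_lit 0)), ((nat_lit 1000), (nat_lit 343), (nat_lit 808))], ((nat_lit 37), (nat_lit 100), (nat_lit 75))⟩, (nat_lit 0), (nat_lit 159), (nat_lit 159), (nat_lit 0), (nat_lit 420520), [(nat_lit 1605698808), (nat_lit 1450716000)], [(nat_lit 0), (nat_lit 0)], [(nat_lit 24839374120), (nat_lit 25422611172), (nat_lit 27680320113), (nat_lit 28234696805), (nat_lit 26063451216), (nat_lit 26598724089), (nat_lit 28680165522), (nat_lit 29234939469)], (nat_lit 1271251), (nat_lit 1271251), (nat_lit 1271251), (nat_lit 1271251), (nat_lit 1271251), (nat_lit 1271251), [(nat_lit 490000), (nat_lit 780000)], [(nat_lit 1), (nat_lit 38), (nat_lit 203), (nat_lit 0), (nat_lit 8)]⟩,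
 ⟨⟨[(nat_lit 120), (nat_lit 160), (nat_lit 180)], [(nat_lit 0), (nat_lit 533), (nat_lit 2066)], [((nat_lit 0), (nat_lit 0), (nat_lit 0)), ((nat_lit 960), (nat_lit 1000), (nat_lit 200)), ((nat_lit 615), (nat_lit 1000), (nat_lit 729))], ((nat_lit 100), (nat_lit 72), (nat_lit 63))⟩, (nat_lit 1118107), (nat_lit 737), (nat_lit 737), (nat_lit 0), (nat_lit 787801), [(nat_lit 1442208000), (nat_lit 2148832000), (nat_lit 2544498000)], [], [(nat_lit 6569996915), (nat_lit 6488398454), (nat_lit 6972371092), (nat_lit 6972315782), (nat_lit 7106944374), (nat_lit 4860863213), (nat_lit 5206649876), (nat_lit 5193938916)], (nat_lit 1271251), (nat_lit 1271251), (nat_lit 1271251), (nat_lit 1271251), (nat_lit 0), (nat_lit 780000), [(nat_lit 1695001), (nat_lit 1271251), (nat_lit 1271251)], [(nat_lit 28), (nat_lit 65), (nat_lit 401), (nat_lit 175), (nat_lit 9)]⟩,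
 ⟨⟨[(nat_lit 140), (nat_lit 180), (nat_lit 200)], [(nat_lit 0), (nat_lit 0), (nat_lit 2835)], [((nat_lit 0), (nat_lit 0), (nat_lit 0)), ((nat_lit 0), (nat_lit 0), (nat_lit 0)), ((nat_lit 363), (nat_lit 1000), (nat_lit 798))], ((nat_lit 0), (nat_lit 0), (nat_lit 0))⟩, (nat_lit 18434), (nat_lit 300), (nat_lit 448), (nat_lit 5232700), (nat_lit 0), [(nat_lit 659414000), (nat_lit 941886000), (nat_lit 1098800000)], [], [(nat_lit 4646254154), (nat_lit 4313488285), (nat_lit 4540191808), (nat_lit 4194076023), (nat_lit 3139116078), (nat_lit 2831136659), (nat_lit 3037226754), (nat_lit 2715442298)], (nat_lit 0), (nat_lit 0), (nat_lit 0), (nat_lit 0), (nat_lit 0), (nat_lit 0), [], [(nat_lit 32), (nat_lit 67), (nat_lit 373), (nat_lit 150), (nat_lit 8)]⟩⟩))))) (.leaf ⟨(nat_lit 884), (nat_lit 0), (nat_lit 34), (nat_lit 82), (nat_lit 0), (nat_lit 3475), (nat_lit 794), (nat_lit 2424), (nat_lit 0), (nat_lit 0), (nat_lit 324050), [((nat_lit 400), [((nat_lit 28), (nat_lit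 0), (nat_lit 197)), ((nat_lit 28), (nat_lit 1), (nat_lit 687))])], ⟨(nat_lit 5), false, true, true, (nat_lit 239), (nat_lit 0), (nat_lit 2237), [(nat_lit 1477224), (nat_lit 1474999), (nat_lit 1543695), (nat_lit 1548146), (nat_lit 1662517), (nat_lit 1637491), (nat_lit 1730844), (nat_lit 1712494)]⟩, ⟨(nat_lit 5), true, false, true, (nat_lit 195), (nat_lit 0), (nat_lit 2237), [(nat_lit 1408898), (nat_lit 1399996), (nat_lit 1477224), (nat_lit 1474999), (nat_lit 1508671), (nat_lit 1487491), (nat_lit 1576997), (nat_lit 1562495)]⟩, (nat_lit 5121647), (nat_lit 39912931), (nat_lit 15754560), (nat_lit 11332509), (nat_lit 0), (nat_lit 5), [⟨(nat_lit 1), (nat_lit 93), (nat_lit 31), (nat_lit 100), (nat_lit 353223343)⟩], [⟨(nat_lit 1), (nat_lit 100), (nat_lit 31), (nat_lit 97), (nat_lit 401049349)⟩], [], [],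
 ⟨⟨[(nat_lit 40), (nat_lit 60)], [(nat_lit 0), (nat_lit 1539)], [((nat_lit 0), (nat_lit 0), (nat_lit 0)), ((nat_lit 1000), (nat_lit 478), (nat_lit 704))], ((nat_lit 48), (nat_lit 100), (nat_lit 69))⟩, (nat_lit 0), (nat_lit 166), (nat_lit 166), (nat_lit 0), (nat_lit 422969), [(nat_lit 1475020802), (nat_lit 809911600)], [(nat_lit 0), (nat_lit 0)], [(nat_lit 23853537877), (nat_lit 25043916175), (nat_lit 28250819147), (nat_lit 29370708369), (nat_lit 25788400965), (nat_lit 27070304344), (nat_lit 29839889748), (nat_lit 30827423804)], (nat_lit 1271251), (nat_lit 1271251), (nat_lit 1271251), (nat_lit 1271251), (nat_lit 1271251), (nat_lit 1271251), [(nat_lit 490000), (nat_lit 780000)], [(nat_lit 1), (nat_lit 38), (nat_lit 203), (nat_lit 0), (nat_lit 9)]⟩,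
 ⟨⟨[(nat_lit 120), (nat_lit 160), (nat_lit 180)], [(nat_lit 0), (nat_lit 533), (nat_lit 2066)], [((nat_lit 0), (nat_lit 0), (nat_lit 0)), ((nat_lit 960), (nat_lit 1000), (nat_lit 200)), ((nat_lit 615), (nat_lit 1000), (nat_lit 729))], ((nat_lit 100), (nat_lit 72), (nat_lit 63))⟩, (nat_lit 394506), (nat_lit 1820), (nat_lit 1820), (nat_lit 0), (nat_lit 3284083), [(nat_lit 653376000), (nat_lit 973504000), (nat_lit 1152756000)], [], [(nat_lit 3301727245), (nat_lit 3191769340), (nat_lit 3121517979), (nat_lit 3071902603), (nat_lit 3919496779), (nat_lit 3044193166), (nat_lit 3141309307), (nat_lit 3100121391)], (nat_lit 1271251), (nat_lit 1271251), (nat_lit 1271251), (nat_lit 1271251), (nat_lit 780000), (nat_lit 3072501), [(nat_lit 1695001), (nat_lit 1271251), (nat_lit 1271251)], [(nat_lit 28), (nat_lit 65), (nat_lit 577), (nat_lit 250), (nat_lit 13)]⟩,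
 ⟨⟨[(nat_lit 140), (nat_lit 180), (nat_lit 200)], [(nat_lit 0), (nat_lit 0), (nat_lit 2835)], [((nat_lit 0), (nat_lit 0), (nat_lit 0)), ((nat_lit 0), (nat_lit 0), (nat_lit 0)), ((nat_lit 363), (nat_lit 1000), (nat_lit 798))], ((nat_lit 0), (nat_lit 0), (nat_lit 0))⟩, (nat_lit 499286), (nat_lit 248), (nat_lit 248), (nat_lit 0), (nat_lit 0), [(nat_lit 1141672000), (nat_lit 1630728000), (nat_lit 1902400000)], [], [(nat_lit 3220952194), (nat_lit 3026548381), (nat_lit 3715453078), (nat_lit 3553559277), (nat_lit 5340140856), (nat_lit 4908007402), (nat_lit 5601594082), (nat_lit 5280137294)], (nat_lit 0), (nat_lit 0), (nat_lit 0), (nat_lit 0), (nat_lit 0), (nat_lit 0), [], [(nat_lit 32), (nat_lit 67), (nat_lit 456), (nat_lit 225), (nat_lit 10)]⟩⟩))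
noncomputable def c13_15 : Tr Lf :=
 (.stt (nat_lit 2) (.spl (nat_lit 5) (nat_lit 200) (.leaf ⟨(nat_lit 22), (nat_lit 978), (nat_lit 0), (nat_lit 0), (nat_lit 0), (nat_lit 4352), (nat_lit 12104), (nat_lit 0), (nat_lit 0), (nat_lit 0), (nat_lit 88000), [((nat_lit 400), [((nat_lit 43), (nat_lit 5), (nat_lit 22))])], ⟨(nat_lit 5), true, false, true, (nat_lit 226), (nat_lit 0), (nat_lit 2237), [(nat_lit 1477224), (nat_lit 1474999), (nat_lit 1543695), (nat_lit 1548146), (nat_lit 1591251), (nat_lit 1574995), (nat_lit 1659577), (nat_lit 1649997)]⟩, ⟨(nat_lit 3), false, false, true, (nat_lit 154), (nat_lit 0), (nat_lit 2237), [(nat_lit 1294870), (nat_lit 1299999), (nat_lit 1360436), (nat_lit 1372242), (nat_lit 1408898), (nat_lit 1399996), (nat_lit 1477224), (nat_lit 1474999)]⟩, (nat_lit 4698310), (nat_lit 43531516), (nat_lit 15164353), (nat_lit 8304131), (nat_lit 3), (nat_lit 0), [], [], [], [],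
 ⟨⟨[(nat_lit 40), (nat_lit 60)], [(nat_lit 0), (nat_lit 1539)], [((nat_lit 0), (nat_lit 0), (nat_lit 0)), ((nat_lit 1000), (nat_lit 478), (nat_lit 704))], ((nat_lit 48), (nat_lit 100), (nat_lit 69))⟩, (nat_lit 0), (nat_lit 207), (nat_lit 207), (nat_lit 0), (nat_lit 537993), [(nat_lit 1823484004), (nat_lit 2838752800)], [(nat_lit 0), (nat_lit 0)], [(nat_lit 23634572904), (nat_lit 25081697024), (nat_lit 26267838788), (nat_lit 27856758192), (nat_lit 24772343518), (nat_lit 25924529472), (nat_lit 26979571806), (nat_lit 28386591552)], (nat_lit 1271251), (nat_lit 1271251), (nat_lit 1271251), (nat_lit 1271251), (nat_lit 780000), (nat_lit 1435001), [(nat_lit 490000), (nat_lit 780000)], [(nat_lit 1), (nat_lit 38), (nat_lit 203), (nat_lit 0), (nat_lit 9)]⟩,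
 ⟨⟨[(nat_lit 120), (nat_lit 160), (nat_lit 180)], [(nat_lit 0), (nat_lit 533), (nat_lit 2066)], [((nat_lit 0), (nat_lit 0), (nat_lit 0)), ((nat_lit 960), (nat_lit 1000), (nat_lit 200)), ((nat_lit 615), (nat_lit 1000), (nat_lit 729))], ((nat_lit 100), (nat_lit 72), (nat_lit 63))⟩, (nat_lit 5341471), (nat_lit 284), (nat_lit 284), (nat_lit 0), (nat_lit 0), [(nat_lit 7792704000), (nat_lit 11610816000), (nat_lit 13748724000)], [], [(nat_lit 28481761531), (nat_lit 30647550817), (nat_lit 33654358138), (nat_lit 35428555645), (nat_lit 19998492764), (nat_lit 21218619501), (nat_lit 23517756690), (nat_lit 24675793971)], (nat_lit 0), (nat_lit 0), (nat_lit 0), (nat_lit 0), (nat_lit 0), (nat_lit 0), [], [(nat_lit 28), (nat_lit 65), (nat_lit 428), (nat_lit 200), (nat_lit 10)]⟩,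
 Rw.none⟩) (.spl (nat_lit 2) (nat_lit 160) (.leaf ⟨(nat_lit 534), (nat_lit 466), (nat_lit 0), (nat_lit 0), (nat_lit 0), (nat_lit 3752), (nat_lit 4283), (nat_lit 0), (nat_lit 0), (nat_lit 0), (nat_lit 320400), [((nat_lit 400), [((nat_lit 43), (nat_lit 2), (nat_lit 534))])], ⟨(nat_lit 5), true, false, true, (nat_lit 226), (nat_lit 0), (nat_lit 2237), [(nat_lit 1477224), (nat_lit 1474999), (nat_lit 1543695), (nat_lit 1548146), (nat_lit 1591251), (nat_lit 1574995), (nat_lit 1659577), (nat_lit 1649997)]⟩, ⟨(nat_lit 3), false, false, true, (nat_lit 150), (nat_lit 0), (nat_lit 2237), [(nat_lit 1294870), (nat_lit 1299999), (nat_lit 1338589), (nat_lit 1348168), (nat_lit 1408898), (nat_lit 1399996), (nat_lit 1454449), (nat_lit 1449998)]⟩, (nat_lit 4651688), (nat_lit 43830128), (nat_lit 15223951), (nat_lit 7945921), (nat_lit 5), (nat_lit 0), [], [⟨(nat_lit 1), (nat_lit 100), (nat_lit 31), (nat_lit 95), (nat_lit 270340596)⟩], [⟨(nat_lit 1), (nat_lit 10), (nat_lit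 100), (nat_lit 98), (nat_lit 268483096)⟩], [],
 ⟨⟨[(nat_lit 40), (nat_lit 60)], [(nat_lit 0), (nat_lit 1539)], [((nat_lit 0), (nat_lit 0), (nat_lit 0)), ((nat_lit 1000), (nat_lit 478), (nat_lit 704))], ((nat_lit 48), (nat_lit 100), (nat_lit 69))⟩, (nat_lit 334828), (nat_lit 207), (nat_lit 207), (nat_lit 0), (nat_lit 537993), [(nat_lit 1581196001), (nat_lit 1191283200)], [(nat_lit 0), (nat_lit 0)], [(nat_lit 22927405991), (nat_lit 24339324824), (nat_lit 25569059888), (nat_lit 27038705592), (nat_lit 24199157039), (nat_lit 25323266125), (nat_lit 26431226256), (nat_lit 27737630952)], (nat_lit 1271251), (nat_lit 1271251), (nat_lit 1271251), (nat_lit 1271251), (nat_lit 780000), (nat_lit 1435001), [(nat_lit 490000), (nat_lit 780000)], [(nat_lit 1), (nat_lit 38), (nat_lit 203), (nat_lit 0), (nat_lit 9)]⟩,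
 ⟨⟨[(nat_lit 120), (nat_lit 160), (nat_lit 180)], [(nat_lit 0), (nat_lit 533), (nat_lit 2066)], [((nat_lit 0), (nat_lit 0), (nat_lit 0)), ((nat_lit 960), (nat_lit 1000), (nat_lit 200)), ((nat_lit 615), (nat_lit 1000), (nat_lit 729))], ((nat_lit 100), (nat_lit 72), (nat_lit 63))⟩, (nat_lit 71350), (nat_lit 139), (nat_lit 139), (nat_lit 0), (nat_lit 0), [(nat_lit 3713088000), (nat_lit 5532352000), (nat_lit 6551028000)], [], [(nat_lit 6817551057), (nat_lit 8136687114), (nat_lit 9234732872), (nat_lit 10178200627), (nat_lit 14404134106), (nat_lit 14711093236), (nat_lit 15566415732), (nat_lit 15868550458)], (nat_lit 0), (nat_lit 0), (nat_lit 0), (nat_lit 0), (nat_lit 0), (nat_lit 0), [], [(nat_lit 28), (nat_lit 65), (nat_lit 483), (nat_lit 250), (nat_lit 11)]⟩,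
 Rw.none⟩) (.leaf ⟨(nat_lit 559), (nat_lit 402), (nat_lit 0), (nat_lit 39), (nat_lit 0), (nat_lit 3739), (nat_lit 3901), (nat_lit 428), (nat_lit 0), (nat_lit 0), (nat_lit 335400), [((nat_lit 400), [((nat_lit 43), (nat_lit 2), (nat_lit 559))])], ⟨(nat_lit 5), true, false, true, (nat_lit 226), (nat_lit 0), (nat_lit 2237), [(nat_lit 1477224), (nat_lit 1474999), (nat_lit 1543695), (nat_lit 1548146), (nat_lit 1591251), (nat_lit 1574995), (nat_lit 1659577), (nat_lit 1649997)]⟩, ⟨(nat_lit 4), false, false, false, (nat_lit 164), (nat_lit 0), (nat_lit 2237), [(nat_lit 1338589), (nat_lit 1348168), (nat_lit 1360436), (nat_lit 1372242), (nat_lit 1454449), (nat_lit 1449998), (nat_lit 1477224), (nat_lit 1474999)]⟩, (nat_lit 4787737), (nat_lit 42928718), (nat_lit 15040506), (nat_lit 9030776), (nat_lit 5), (nat_lit 0), [], [⟨(nat_lit 1), (nat_lit 100), (nat_lit 32), (nat_lit 100), (nat_lit 55636269)⟩], [⟨(nat_lit 1), (nat_lit 20), (nat_lit 100), (nat_lit 99), (nat_lit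 145356177)⟩], [],
 ⟨⟨[(nat_lit 40), (nat_lit 60)], [(nat_lit 0), (nat_lit 1539)], [((nat_lit 0), (nat_lit 0), (nat_lit 0)), ((nat_lit 1000), (nat_lit 478), (nat_lit 704))], ((nat_lit 48), (nat_lit 100), (nat_lit 69))⟩, (nat_lit 105983), (nat_lit 189), (nat_lit 189), (nat_lit 0), (nat_lit 465394), [(nat_lit 1571046002), (nat_lit 1093403200)], [(nat_lit 0), (nat_lit 0)], [(nat_lit 22911907619), (nat_lit 24323240093), (nat_lit 25553919679), (nat_lit 27020981119), (nat_lit 24185202511), (nat_lit 25308458167), (nat_lit 26419345436), (nat_lit 27723570139)], (nat_lit 1271251), (nat_lit 1271251), (nat_lit 1271251), (nat_lit 1271251), (nat_lit 780000), (nat_lit 1435001), [(nat_lit 490000), (nat_lit 780000)], [(nat_lit 1), (nat_lit 38), (nat_lit 203), (nat_lit 0), (nat_lit 9)]⟩,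
 ⟨⟨[(nat_lit 120), (nat_lit 160), (nat_lit 180)], [(nat_lit 0), (nat_lit 533), (nat_lit 2066)], [((nat_lit 0), (nat_lit 0), (nat_lit 0)), ((nat_lit 960), (nat_lit 1000), (nat_lit 200)), ((nat_lit 615), (nat_lit 1000), (nat_lit 729))], ((nat_lit 100), (nat_lit 72), (nat_lit 63))⟩, (nat_lit 46030), (nat_lit 139), (nat_lit 139), (nat_lit 0), (nat_lit 0), [(nat_lit 3513888000), (nat_lit 5235552000), (nat_lit 6199578000)], [], [(nat_lit 6667008419), (nat_lit 7895924631), (nat_lit 8907258742), (nat_lit 9792049231), (nat_lit 13677474415), (nat_lit 13979391356), (nat_lit 14562389774), (nat_lit 14861127828)], (nat_lit 0), (nat_lit 0), (nat_lit 0), (nat_lit 0), (nat_lit 0), (nat_lit 0), [], [(nat_lit 28), (nat_lit 65), (nat_lit 483), (nat_lit 250), (nat_lit 11)]⟩,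
 ⟨⟨[(nat_lit 120), (nat_lit 160), (nat_lit 180)], [(nat_lit 0), (nat_lit 0), (nat_lit 1613)], [((nat_lit 0), (nat_lit 0), (nat_lit 0)), ((nat_lit 0), (nat_lit 0), (nat_lit 0)), ((nat_lit 620), (nat_lit 1000), (nat_lit 670))], ((nat_lit 100), (nat_lit 65), (nat_lit 64))⟩, (nat_lit 313547), (nat_lit 300), (nat_lit 2290), (nat_lit 2893800), (nat_lit 4176996), [(nat_lit 310752000), (nat_lit 463008000), (nat_lit 548262000)], [], [(nat_lit 2217635717), (nat_lit 2192799958), (nat_lit 2110892192), (nat_lit 2086169889), (nat_lit 2021101146), (nat_lit 1997596932), (nat_lit 1900731478), (nat_lit 1876823466)], (nat_lit 1100000), (nat_lit 1271251), (nat_lit 780000), (nat_lit 1435001), (nat_lit 1271251), (nat_lit 1271251), [(nat_lit 1695001), (nat_lit 1271251), (nat_lit 1271251)], [(nat_lit 28), (nat_lit 65), (nat_lit 670), (nat_lit 200), (nat_lit 15)]⟩⟩))) (.spl (nat_lit 2) (nat_lit 160) (.leaf ⟨(nat_lit 958), (nat_lit 42), (nat_lit 0), (nat_lit 0), (nat_lit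 0), (nat_lit 3492), (nat_lit 494), (nat_lit 0), (nat_lit 0), (nat_lit 0), (nat_lit 245200), [((nat_lit 400), [((nat_lit 28), (nat_lit 0), (nat_lit 920)), ((nat_lit 28), (nat_lit 1), (nat_lit 38))])], ⟨(nat_lit 5), false, true, true, (nat_lit 226), (nat_lit 0), (nat_lit 2237), [(nat_lit 1477224), (nat_lit 1474999), (nat_lit 1543695), (nat_lit 1548146), (nat_lit 1591251), (nat_lit 1574995), (nat_lit 1659577), (nat_lit 1649997)]⟩, ⟨(nat_lit 3), false, false, true, (nat_lit 150), (nat_lit 0), (nat_lit 2237), [(nat_lit 1294870), (nat_lit 1299999), (nat_lit 1338589), (nat_lit 1348168), (nat_lit 1408898), (nat_lit 1399996), (nat_lit 1454449), (nat_lit 1449998)]⟩, (nat_lit 4651688), (nat_lit 43830128), (nat_lit 15223951), (nat_lit 7945921), (nat_lit 3), (nat_lit 0), [⟨(nat_lit 1), (nat_lit 93), (nat_lit 31), (nat_lit 100), (nat_lit 90276940)⟩], [⟨(nat_lit 1), (nat_lit 100), (nat_lit 31), (nat_lit 95), (nat_lit 87720090)⟩], [⟨(nat_lit 1), (nat_lit 35), (nat_lit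 100), (nat_lit 96), (nat_lit 5652796)⟩], [],
 ⟨⟨[(nat_lit 40), (nat_lit 60)], [(nat_lit 0), (nat_lit 1539)], [((nat_lit 0), (nat_lit 0), (nat_lit 0)), ((nat_lit 1000), (nat_lit 478), (nat_lit 704))], ((nat_lit 48), (nat_lit 100), (nat_lit 69))⟩, (nat_lit 0), (nat_lit 143), (nat_lit 143), (nat_lit 0), (nat_lit 301452), [(nat_lit 1566677622), (nat_lit 1112506400)], [(nat_lit 0), (nat_lit 0)], [(nat_lit 22847761997), (nat_lit 24150392724), (nat_lit 25395831967), (nat_lit 26684216132), (nat_lit 24182351857), (nat_lit 25343121608), (nat_lit 26450950700), (nat_lit 27456968064)], (nat_lit 1271251), (nat_lit 1271251), (nat_lit 1271251), (nat_lit 1271251), (nat_lit 780000), (nat_lit 1435001), [(nat_lit 490000), (nat_lit 780000)], [(nat_lit 1), (nat_lit 38), (nat_lit 203), (nat_lit 0), (nat_lit 9)]⟩,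
 ⟨⟨[(nat_lit 120), (nat_lit 160), (nat_lit 180)], [(nat_lit 0), (nat_lit 533), (nat_lit 2066)], [((nat_lit 0), (nat_lit 0), (nat_lit 0)), ((nat_lit 960), (nat_lit 1000), (nat_lit 200)), ((nat_lit 615), (nat_lit 1000), (nat_lit 729))], ((nat_lit 100), (nat_lit 72), (nat_lit 63))⟩, (nat_lit 109535), (nat_lit 1603), (nat_lit 1603), (nat_lit 0), (nat_lit 2696999), [(nat_lit 334656000), (nat_lit 498624000), (nat_lit 590436000)], [], [(nat_lit 1815948311), (nat_lit 1795983259), (nat_lit 1834698164), (nat_lit 1805325311), (nat_lit 2836573656), (nat_lit 2186470644), (nat_lit 1975073718), (nat_lit 1550334041)], (nat_lit 1271251), (nat_lit 1271251), (nat_lit 1271251), (nat_lit 1271251), (nat_lit 0), (nat_lit 2825001), [(nat_lit 1695001), (nat_lit 1271251), (nat_lit 1271251)], [(nat_lit 28), (nat_lit 65), (nat_lit 516), (nat_lit 250), (nat_lit 12)]⟩,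
 Rw.none⟩) (.leaf ⟨(nat_lit 958), (nat_lit 23), (nat_lit 0), (nat_lit 19), (nat_lit 0), (nat_lit 3353), (nat_lit 513), (nat_lit 304), (nat_lit 0), (nat_lit 0), (nat_lit 239500), [((nat_lit 400), [((nat_lit 28), (nat_lit 0), (nat_lit 958))])], ⟨(nat_lit 5), false, true, true, (nat_lit 226), (nat_lit 0), (nat_lit 2237), [(nat_lit 1477224), (nat_lit 1474999), (nat_lit 1543695), (nat_lit 1548146), (nat_lit 1591251), (nat_lit 1574995), (nat_lit 1659577), (nat_lit 1649997)]⟩, ⟨(nat_lit 4), false, false, false, (nat_lit 164), (nat_lit 0), (nat_lit 2237), [(nat_lit 1338589), (nat_lit 1348168), (nat_lit 1360436), (nat_lit 1372242), (nat_lit 1454449), (nat_lit 1449998), (nat_lit 1477224), (nat_lit 1474999)]⟩, (nat_lit 4787737), (nat_lit 42928718), (nat_lit 15040506), (nat_lit 9030776), (nat_lit 4), (nat_lit 0), [⟨(nat_lit 1), (nat_lit 93), (nat_lit 31), (nat_lit 100), (nat_lit 136572047)⟩], [], [], [],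
 ⟨⟨[(nat_lit 40), (nat_lit 60)], [(nat_lit 0), (nat_lit 1539)], [((nat_lit 0), (nat_lit 0), (nat_lit 0)), ((nat_lit 1000), (nat_lit 478), (nat_lit 704))], ((nat_lit 48), (nat_lit 100), (nat_lit 69))⟩, (nat_lit 0), (nat_lit 134), (nat_lit 134), (nat_lit 0), (nat_lit 261070), [(nat_lit 1573061620), (nat_lit 1139912000)], [(nat_lit 0), (nat_lit 0)], [(nat_lit 22530897441), (nat_lit 23894716741), (nat_lit 25172023670), (nat_lit 26494700613), (nat_lit 23899849626), (nat_lit 25114040854), (nat_lit 26256908449), (nat_lit 27306924766)], (nat_lit 1271251), (nat_lit 1271251), (nat_lit 1271251), (nat_lit 1271251), (nat_lit 780000), (nat_lit 1435001), [(nat_lit 490000), (nat_lit 780000)], [(nat_lit 1), (nat_lit 38), (nat_lit 203), (nat_lit 0), (nat_lit 9)]⟩,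
 ⟨⟨[(nat_lit 120), (nat_lit 160), (nat_lit 180)], [(nat_lit 0), (nat_lit 533), (nat_lit 2066)], [((nat_lit 0), (nat_lit 0), (nat_lit 0)), ((nat_lit 960), (nat_lit 1000), (nat_lit 200)), ((nat_lit 615), (nat_lit 1000), (nat_lit 729))], ((nat_lit 100), (nat_lit 72), (nat_lit 63))⟩, (nat_lit 129619), (nat_lit 1445), (nat_lit 1445), (nat_lit 0), (nat_lit 2348602), [(nat_lit 334656000), (nat_lit 498624000), (nat_lit 590436000)], [], [(nat_lit 1747137488), (nat_lit 1729254249), (nat_lit 1768719597), (nat_lit 1736439801), (nat_lit 2866444392), (nat_lit 2191337418), (nat_lit 1971809841), (nat_lit 1560427926)], (nat_lit 1271251), (nat_lit 1271251), (nat_lit 1271251), (nat_lit 1271251), (nat_lit 0), (nat_lit 2825001), [(nat_lit 1695001), (nat_lit 1271251), (nat_lit 1271251)], [(nat_lit 28), (nat_lit 65), (nat_lit 483), (nat_lit 250), (nat_lit 11)]⟩,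
 ⟨⟨[(nat_lit 120), (nat_lit 160), (nat_lit 180)], [(nat_lit 0), (nat_lit 0), (nat_lit 1613)], [((nat_lit 0), (nat_lit 0), (nat_lit 0)), ((nat_lit 0), (nat_lit 0), (nat_lit 0)), ((nat_lit 620), (nat_lit 1000), (nat_lit 670))], ((nat_lit 100), (nat_lit 65), (nat_lit 64))⟩, (nat_lit 8269), (nat_lit 300), (nat_lit 1755), (nat_lit 1409801), (nat_lit 2908721), [(nat_lit 151392000), (nat_lit 225568000), (nat_lit 267102000)], [], [(nat_lit 1116523891), (nat_lit 1077086845), (nat_lit 968145388), (nat_lit 964382144), (nat_lit 1234386300), (nat_lit 1318848216), (nat_lit 1533470088), (nat_lit 1621371916)], (nat_lit 1100000), (nat_lit 1271251), (nat_lit 780000), (nat_lit 1435001), (nat_lit 0), (nat_lit 2825001), [(nat_lit 1695001), (nat_lit 1271251), (nat_lit 1271251)], [(nat_lit 28), (nat_lit 65), (nat_lit 537), (nat_lit 200), (nat_lit 13)]⟩⟩)))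
noncomputable def c13_16 : Tr Lf :=
 (.stt (nat_lit 2) (.spl (nat_lit 5) (nat_lit 200) (.leaf ⟨(nat_lit 0), (nat_lit 1000), (nat_lit 0), (nat_lit 0), (nat_lit 0), (nat_lit 4684), (nat_lit 12989), (nat_lit 0), (nat_lit 0), (nat_lit 0), (nat_lit 0), [], Pd.none, Pd.none, (nat_lit 0), (nat_lit 1), (nat_lit 0), (nat_lit 0), (nat_lit 5), (nat_lit 0), [], [⟨(nat_lit 1), (nat_lit 94), (nat_lit 44), (nat_lit 100), (nat_lit 726562700)⟩], [], [⟨(nat_lit 0), (nat_lit 100), (nat_lit 100), (nat_lit 37), (nat_lit 88692917)⟩],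
 ⟨⟨[(nat_lit 40), (nat_lit 60)], [(nat_lit 0), (nat_lit 1539)], [((nat_lit 0), (nat_lit 0), (nat_lit 0)), ((nat_lit 1000), (nat_lit 478), (nat_lit 704))], ((nat_lit 48), (nat_lit 100), (nat_lit 69))⟩, (nat_lit 21555), (nat_lit 194), (nat_lit 194), (nat_lit 0), (nat_lit 537993), [(nat_lit 2032000693), (nat_lit 3282000000)], [], [(nat_lit 25023717511), (nat_lit 26255398252), (nat_lit 27282989677), (nat_lit 28745683084), (nat_lit 26849887989), (nat_lit 28346429535), (nat_lit 29158515967), (nat_lit 30429113251)], (nat_lit 1271251), (nat_lit 1271251), (nat_lit 1271251), (nat_lit 1271251), (nat_lit 1271251), (nat_lit 1271251), [(nat_lit 490000), (nat_lit 780000)], [(nat_lit 1), (nat_lit 38), (nat_lit 203), (nat_lit 0), (nat_lit 9)]⟩,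
 ⟨⟨[(nat_lit 120), (nat_lit 160), (nat_lit 180)], [(nat_lit 0), (nat_lit 533), (nat_lit 2066)], [((nat_lit 0), (nat_lit 0), (nat_lit 0)), ((nat_lit 960), (nat_lit 1000), (nat_lit 200)), ((nat_lit 615), (nat_lit 1000), (nat_lit 729))], ((nat_lit 100), (nat_lit 72), (nat_lit 63))⟩, (nat_lit 6037060), (nat_lit 284), (nat_lit 284), (nat_lit 0), (nat_lit 0), [(nat_lit 7968000000), (nat_lit 11872000000), (nat_lit 14058000000)], [], [(nat_lit 28270534355), (nat_lit 31160823030), (nat_lit 34352414440), (nat_lit 36178569658), (nat_lit 18982192650), (nat_lit 20846748903), (nat_lit 23283246900), (nat_lit 24455444844)], (nat_lit 0), (nat_lit 0), (nat_lit 0), (nat_lit 0), (nat_lit 0), (nat_lit 0), [], [(nat_lit 28), (nat_lit 65), (nat_lit 428), (nat_lit 200), (nat_lit 10)]⟩,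
 Rw.none⟩) (.stt (nat_lit 1) (.leaf ⟨(nat_lit 737), (nat_lit 263), (nat_lit 0), (nat_lit 0), (nat_lit 0), (nat_lit 3284), (nat_lit 2324), (nat_lit 0), (nat_lit 0), (nat_lit 0), (nat_lit 184250), [((nat_lit 400), [((nat_lit 28), (nat_lit 0), (nat_lit 737))])], ⟨(nat_lit 5), true, false, true, (nat_lit 226), (nat_lit 0), (nat_lit 2237), [(nat_lit 1477224), (nat_lit 1474999), (nat_lit 1543695), (nat_lit 1548146), (nat_lit 1591251), (nat_lit 1574995), (nat_lit 1659577), (nat_lit 1649997)]⟩, ⟨(nat_lit 5), false, false, true, (nat_lit 195), (nat_lit 0), (nat_lit 2237), [(nat_lit 1408898), (nat_lit 1399996), (nat_lit 1477224), (nat_lit 1474999), (nat_lit 1508671), (nat_lit 1487491), (nat_lit 1576997), (nat_lit 1562495)]⟩, (nat_lit 5046966), (nat_lit 40895724), (nat_lit 14590106), (nat_lit 11514170), (nat_lit 5), (nat_lit 0), [], [⟨(nat_lit 1), (nat_lit 94), (nat_lit 44), (nat_lit 100), (nat_lit 419374688)⟩], [⟨(nat_lit 1), (nat_lit 30), (nat_lit 100),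 (nat_lit 97), (nat_lit 120011791)⟩], [],
 ⟨⟨[(nat_lit 40), (nat_lit 60)], [(nat_lit 0), (nat_lit 1539)], [((nat_lit 0), (nat_lit 0), (nat_lit 0)), ((nat_lit 1000), (nat_lit 478), (nat_lit 704))], ((nat_lit 48), (nat_lit 100), (nat_lit 69))⟩, (nat_lit 0), (nat_lit 57), (nat_lit 57), (nat_lit 0), (nat_lit 0), [(nat_lit 1624952430), (nat_lit 1634068000)], [(nat_lit 0), (nat_lit 0)], [(nat_lit 23790569135), (nat_lit 25012745842), (nat_lit 26141111278), (nat_lit 27231441684), (nat_lit 25794716978), (nat_lit 26872079286), (nat_lit 27847805692), (nat_lit 28927794901)], (nat_lit 0), (nat_lit 0), (nat_lit 0), (nat_lit 0), (nat_lit 0), (nat_lit 0), [], [(nat_lit 1), (nat_lit 38), (nat_lit 203), (nat_lit 0), (nat_lit 9)]⟩,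
 ⟨⟨[(nat_lit 120), (nat_lit 160), (nat_lit 180)], [(nat_lit 0), (nat_lit 533), (nat_lit 2066)], [((nat_lit 0), (nat_lit 0), (nat_lit 0)), ((nat_lit 960), (nat_lit 1000), (nat_lit 200)), ((nat_lit 615), (nat_lit 1000), (nat_lit 729))], ((nat_lit 100), (nat_lit 72), (nat_lit 63))⟩, (nat_lit 0), (nat_lit 139), (nat_lit 139), (nat_lit 0), (nat_lit 0), [(nat_lit 2095584000), (nat_lit 3122336000), (nat_lit 3697254000)], [], [(nat_lit 3979475354), (nat_lit 4712053797), (nat_lit 5314738138), (nat_lit 5842272726), (nat_lit 8157602031), (nat_lit 8337840448), (nat_lit 8682571099), (nat_lit 8860249694)], (nat_lit 0), (nat_lit 0), (nat_lit 0), (nat_lit 0), (nat_lit 0), (nat_lit 0), [], [(nat_lit 28), (nat_lit 65), (nat_lit 483), (nat_lit 250), (nat_lit 11)]⟩,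
 Rw.none⟩) (.leaf ⟨(nat_lit 568), (nat_lit 363), (nat_lit 0), (nat_lit 69), (nat_lit 0), (nat_lit 3755), (nat_lit 3975), (nat_lit 779), (nat_lit 0), (nat_lit 0), (nat_lit 340800), [((nat_lit 400), [((nat_lit 43), (nat_lit 2), (nat_lit 568))])], ⟨(nat_lit 5), true, false, true, (nat_lit 226), (nat_lit 0), (nat_lit 2237), [(nat_lit 1477224), (nat_lit 1474999), (nat_lit 1543695), (nat_lit 1548146), (nat_lit 1591251), (nat_lit 1574995), (nat_lit 1659577), (nat_lit 1649997)]⟩, ⟨(nat_lit 5), false, false, true, (nat_lit 195), (nat_lit 0), (nat_lit 2237), [(nat_lit 1408898), (nat_lit 1399996), (nat_lit 1477224), (nat_lit 1474999), (nat_lit 1508671), (nat_lit 1487491), (nat_lit 1576997), (nat_lit 1562495)]⟩, (nat_lit 5046966), (nat_lit 40895724), (nat_lit 14590106), (nat_lit 11514170), (nat_lit 5), (nat_lit 0), [], [⟨(nat_lit 1), (nat_lit 100), (nat_lit 31), (nat_lit 97), (nat_lit 596068228)⟩], [⟨(nat_lit 1), (nat_lit 30), (nat_lit 100), (nat_lit 97), (nat_lit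 185537303)⟩], [],
 ⟨⟨[(nat_lit 40), (nat_lit 60)], [(nat_lit 0), (nat_lit 1539)], [((nat_lit 0), (nat_lit 0), (nat_lit 0)), ((nat_lit 1000), (nat_lit 478), (nat_lit 704))], ((nat_lit 48), (nat_lit 100), (nat_lit 69))⟩, (nat_lit 357317), (nat_lit 194), (nat_lit 194), (nat_lit 0), (nat_lit 537993), [(nat_lit 1567392001), (nat_lit 1058166400)], [(nat_lit 0), (nat_lit 0)], [(nat_lit 24121645778), (nat_lit 25324491015), (nat_lit 26433967984), (nat_lit 27740875755), (nat_lit 26029302531), (nat_lit 27365850294), (nat_lit 28288766077), (nat_lit 29432881289)], (nat_lit 1271251), (nat_lit 1271251), (nat_lit 1271251), (nat_lit 1271251), (nat_lit 1271251), (nat_lit 1271251), [(nat_lit 490000), (nat_lit 780000)], [(nat_lit 1), (nat_lit 38), (nat_lit 203), (nat_lit 0), (nat_lit 9)]⟩,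
 ⟨⟨[(nat_lit 120), (nat_lit 160), (nat_lit 180)], [(nat_lit 0), (nat_lit 533), (nat_lit 2066)], [((nat_lit 0), (nat_lit 0), (nat_lit 0)), ((nat_lit 960), (nat_lit 1000), (nat_lit 200)), ((nat_lit 615), (nat_lit 1000), (nat_lit 729))], ((nat_lit 100), (nat_lit 72), (nat_lit 63))⟩, (nat_lit 60387), (nat_lit 139), (nat_lit 139), (nat_lit 0), (nat_lit 0), [(nat_lit 3442176000), (nat_lit 5128704000), (nat_lit 6073056000)], [], [(nat_lit 6313780476), (nat_lit 7537244724), (nat_lit 8555996295), (nat_lit 9430865331), (nat_lit 13351828035), (nat_lit 13636053732), (nat_lit 14435654972), (nat_lit 14715367326)], (nat_lit 0), (nat_lit 0), (nat_lit 0), (nat_lit 0), (nat_lit 0), (nat_lit 0), [], [(nat_lit 28), (nat_lit 65), (nat_lit 483), (nat_lit 250), (nat_lit 11)]⟩,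
 ⟨⟨[(nat_lit 140), (nat_lit 180), (nat_lit 200)], [(nat_lit 0), (nat_lit 0), (nat_lit 2835)], [((nat_lit 0), (nat_lit 0), (nat_lit 0)), ((nat_lit 0), (nat_lit 0), (nat_lit 0)), ((nat_lit 363), (nat_lit 1000), (nat_lit 798))], ((nat_lit 0), (nat_lit 0), (nat_lit 0))⟩, (nat_lit 154657), (nat_lit 300), (nat_lit 2169), (nat_lit 5388900), (nat_lit 3881046), [(nat_lit 679098000), (nat_lit 970002000), (nat_lit 1131600000)], [], [(nat_lit 4382576354), (nat_lit 4227749854), (nat_lit 4223013022), (nat_lit 4068772547), (nat_lit 3997809804), (nat_lit 3817731941), (nat_lit 3848669153), (nat_lit 3666124981)], (nat_lit 780000), (nat_lit 1271251), (nat_lit 1271251), (nat_lit 1271251), (nat_lit 1271251), (nat_lit 1271251), [(nat_lit 1977501), (nat_lit 1271251), (nat_lit 1271251)], [(nat_lit 32), (nat_lit 67), (nat_lit 649), (nat_lit 225), (nat_lit 13)]⟩⟩))) (.spl (nat_lit 2) (nat_lit 160) (.trX (nat_lit 4) (nat_lit 0) (nat_lit 2) (nat_lit 44) (nat_lit 99) (nat_lit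 100) (nat_lit 250) (.leaf ⟨(nat_lit 960), (nat_lit 40), (nat_lit 0), (nat_lit 0), (nat_lit 0), (nat_lit 3353), (nat_lit 474), (nat_lit 0), (nat_lit 0), (nat_lit 0), (nat_lit 275700), [((nat_lit 400), [((nat_lit 28), (nat_lit 0), (nat_lit 722)), ((nat_lit 28), (nat_lit 1), (nat_lit 238))])], ⟨(nat_lit 5), false, true, true, (nat_lit 226), (nat_lit 0), (nat_lit 2237), [(nat_lit 1477224), (nat_lit 1474999), (nat_lit 1543695), (nat_lit 1548146), (nat_lit 1591251), (nat_lit 1574995), (nat_lit 1659577), (nat_lit 1649997)]⟩, ⟨(nat_lit 5), false, false, true, (nat_lit 185), (nat_lit 0), (nat_lit 2237), [(nat_lit 1408898), (nat_lit 1399996), (nat_lit 1454449), (nat_lit 1449998), (nat_lit 1480164), (nat_lit 1462492), (nat_lit 1525715), (nat_lit 1512494)]⟩, (nat_lit 4968598), (nat_lit 41563904), (nat_lit 14743472), (nat_lit 10692624), (nat_lit 5), (nat_lit 0), [], [⟨(nat_lit 1), (nat_lit 100), (nat_lit 31), (nat_lit 95), (nat_lit 83056723)⟩, ⟨(nat_lit 1),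 (nat_lit 99), (nat_lit 44), (nat_lit 100), (nat_lit 238990295)⟩], [⟨(nat_lit 1), (nat_lit 35), (nat_lit 100), (nat_lit 96), (nat_lit 5073309)⟩], [],
 ⟨⟨[(nat_lit 40), (nat_lit 60)], [(nat_lit 0), (nat_lit 1539)], [((nat_lit 0), (nat_lit 0), (nat_lit 0)), ((nat_lit 1000), (nat_lit 478), (nat_lit 704))], ((nat_lit 48), (nat_lit 100), (nat_lit 69))⟩, (nat_lit 0), (nat_lit 130), (nat_lit 130), (nat_lit 0), (nat_lit 301452), [(nat_lit 1532608001), (nat_lit 963794400)], [(nat_lit 0), (nat_lit 0)], [(nat_lit 23778488769), (nat_lit 24992679997), (nat_lit 26135547592), (nat_lit 27306072153), (nat_lit 25097505679), (nat_lit 26212447948), (nat_lit 27243614234), (nat_lit 28377853463)], (nat_lit 1271251), (nat_lit 1271251), (nat_lit 1271251), (nat_lit 1271251), (nat_lit 1271251), (nat_lit 1271251), [(nat_lit 490000), (nat_lit 780000)], [(nat_lit 1), (nat_lit 38), (nat_lit 203), (nat_lit 0), (nat_lit 9)]⟩,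
 ⟨⟨[(nat_lit 120), (nat_lit 160), (nat_lit 180)], [(nat_lit 0), (nat_lit 533), (nat_lit 2066)], [((nat_lit 0), (nat_lit 0), (nat_lit 0)), ((nat_lit 960), (nat_lit 1000), (nat_lit 200)), ((nat_lit 615), (nat_lit 1000), (nat_lit 729))], ((nat_lit 100), (nat_lit 72), (nat_lit 63))⟩, (nat_lit 104459), (nat_lit 1603), (nat_lit 1603), (nat_lit 0), (nat_lit 2696999), [(nat_lit 318720000), (nat_lit 474880000), (nat_lit 562320000)], [], [(nat_lit 1723366216), (nat_lit 1703816695), (nat_lit 1740827213), (nat_lit 1712313935), (nat_lit 2707038656), (nat_lit 2083255604), (nat_lit 1880417258), (nat_lit 1475170882)], (nat_lit 1271251), (nat_lit 1271251), (nat_lit 1271251), (nat_lit 1271251), (nat_lit 0), (nat_lit 2825001), [(nat_lit 1695001), (nat_lit 1271251), (nat_lit 1271251)], [(nat_lit 28), (nat_lit 65), (nat_lit 516), (nat_lit 250), (nat_lit 12)]⟩,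
 Rw.none⟩)) (.leaf ⟨(nat_lit 952), (nat_lit 21), (nat_lit 0), (nat_lit 27), (nat_lit 0), (nat_lit 3375), (nat_lit 527), (nat_lit 390), (nat_lit 0), (nat_lit 0), (nat_lit 238000), [((nat_lit 400), [((nat_lit 28), (nat_lit 0), (nat_lit 952))])], ⟨(nat_lit 5), false, true, true, (nat_lit 226), (nat_lit 0), (nat_lit 2237), [(nat_lit 1477224), (nat_lit 1474999), (nat_lit 1543695), (nat_lit 1548146), (nat_lit 1591251), (nat_lit 1574995), (nat_lit 1659577), (nat_lit 1649997)]⟩, ⟨(nat_lit 5), false, false, true, (nat_lit 204), (nat_lit 0), (nat_lit 2237), [(nat_lit 1454449), (nat_lit 1449998), (nat_lit 1477224), (nat_lit 1474999), (nat_lit 1554222), (nat_lit 1537494), (nat_lit 1576997), (nat_lit 1562495)]⟩, (nat_lit 5115399), (nat_lit 40262891), (nat_lit 14440303), (nat_lit 12296806), (nat_lit 5), (nat_lit 0), [], [⟨(nat_lit 1), (nat_lit 100), (nat_lit 32), (nat_lit 100), (nat_lit 332926076)⟩, ⟨(nat_lit 1), (nat_lit 94), (nat_lit 44), (nat_lit 100), (nat_lit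 3756031)⟩], [], [⟨(nat_lit 0), (nat_lit 100), (nat_lit 98), (nat_lit 74), (nat_lit 5929534)⟩],
 ⟨⟨[(nat_lit 40), (nat_lit 60)], [(nat_lit 0), (nat_lit 1539)], [((nat_lit 0), (nat_lit 0), (nat_lit 0)), ((nat_lit 1000), (nat_lit 478), (nat_lit 704))], ((nat_lit 48), (nat_lit 100), (nat_lit 69))⟩, (nat_lit 0), (nat_lit 121), (nat_lit 121), (nat_lit 0), (nat_lit 261070), [(nat_lit 1574470534), (nat_lit 1153328000)], [(nat_lit 0), (nat_lit 0)], [(nat_lit 23869503665), (nat_lit 25087399352), (nat_lit 26228943696), (nat_lit 27329867375), (nat_lit 25882356220), (nat_lit 26964752219), (nat_lit 27933001860), (nat_lit 29025380594)], (nat_lit 1271251), (nat_lit 1271251), (nat_lit 1271251), (nat_lit 1271251), (nat_lit 1271251), (nat_lit 1271251), [(nat_lit 490000), (nat_lit 780000)], [(nat_lit 1), (nat_lit 38), (nat_lit 203), (nat_lit 0), (nat_lit 9)]⟩,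
 ⟨⟨[(nat_lit 120), (nat_lit 160), (nat_lit 180)], [(nat_lit 0), (nat_lit 533), (nat_lit 2066)], [((nat_lit 0), (nat_lit 0), (nat_lit 0)), ((nat_lit 960), (nat_lit 1000), (nat_lit 200)), ((nat_lit 615), (nat_lit 1000), (nat_lit 729))], ((nat_lit 100), (nat_lit 72), (nat_lit 63))⟩, (nat_lit 307633), (nat_lit 1445), (nat_lit 1445), (nat_lit 0), (nat_lit 2348602), [(nat_lit 382464000), (nat_lit 569856000), (nat_lit 674784000)], [], [(nat_lit 1842031110), (nat_lit 1829263123), (nat_lit 1872024770), (nat_lit 1844658424), (nat_lit 3182730768), (nat_lit 2489199822), (nat_lit 2263681239), (nat_lit 1722549294)], (nat_lit 1271251), (nat_lit 1271251), (nat_lit 1271251), (nat_lit 1271251), (nat_lit 0), (nat_lit 2825001), [(nat_lit 1695001), (nat_lit 1271251), (nat_lit 1271251)], [(nat_lit 28), (nat_lit 65), (nat_lit 483), (nat_lit 250), (nat_lit 11)]⟩,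
 ⟨⟨[(nat_lit 120), (nat_lit 160), (nat_lit 180)], [(nat_lit 0), (nat_lit 0), (nat_lit 1613)], [((nat_lit 0), (nat_lit 0), (nat_lit 0)), ((nat_lit 0), (nat_lit 0), (nat_lit 0)), ((nat_lit 620), (nat_lit 1000), (nat_lit 670))], ((nat_lit 100), (nat_lit 65), (nat_lit 64))⟩, (nat_lit 11751), (nat_lit 300), (nat_lit 1716), (nat_lit 2003400), (nat_lit 2908721), [(nat_lit 215136000), (nat_lit 320544000), (nat_lit 379566000)], [], [(nat_lit 1436361300), (nat_lit 1422096953), (nat_lit 1411943166), (nat_lit 1399981523), (nat_lit 1822812852), (nat_lit 1937379780), (nat_lit 1222959897), (nat_lit 1341204330)], (nat_lit 1100000), (nat_lit 1271251), (nat_lit 1271251), (nat_lit 1271251), (nat_lit 0), (nat_lit 2825001), [(nat_lit 1695001), (nat_lit 1271251), (nat_lit 1271251)], [(nat_lit 28), (nat_lit 65), (nat_lit 536), (nat_lit 225), (nat_lit 12)]⟩⟩)))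
noncomputable def c13_17 : Tr Lf :=
 (.trX (nat_lit 5) (nat_lit 3) (nat_lit 4) (nat_lit 92) (nat_lit 40) (nat_lit 100) (nat_lit 390) (.stt (nat_lit 2) (.spl (nat_lit 5) (nat_lit 200) (.leaf ⟨(nat_lit 0), (nat_lit 1000), (nat_lit 0), (nat_lit 0), (nat_lit 0), (nat_lit 4657), (nat_lit 9866), (nat_lit 0), (nat_lit 0), (nat_lit 0), (nat_lit 0), [], Pd.none, Pd.none, (nat_lit 0), (nat_lit 1), (nat_lit 0), (nat_lit 0), (nat_lit 3), (nat_lit 0), [⟨(nat_lit 1), (nat_lit 93), (nat_lit 31), (nat_lit 100), (nat_lit 623054765)⟩], [], [], [⟨(nat_lit 0), (nat_lit 100), (nat_lit 87), (nat_lit 35), (nat_lit 25738506)⟩],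
 ⟨⟨[(nat_lit 40), (nat_lit 60)], [(nat_lit 0), (nat_lit 1539)], [((nat_lit 0), (nat_lit 0), (nat_lit 0)), ((nat_lit 1000), (nat_lit 478), (nat_lit 704))], ((nat_lit 48), (nat_lit 100), (nat_lit 69))⟩, (nat_lit 0), (nat_lit 214), (nat_lit 214), (nat_lit 0), (nat_lit 537993), [(nat_lit 2032000002), (nat_lit 3282000000)], [], [(nat_lit 26623051396), (nat_lit 28272601597), (nat_lit 29203524403), (nat_lit 30648954675), (nat_lit 27287702566), (nat_lit 28716479857), (nat_lit 29546452638), (nat_lit 30830005865)], (nat_lit 1271251), (nat_lit 1271251), (nat_lit 1271251), (nat_lit 1271251), (nat_lit 780000), (nat_lit 1435001), [(nat_lit 490000), (nat_lit 780000)], [(nat_lit 1), (nat_lit 38), (nat_lit 203), (nat_lit 0), (nat_lit 9)]⟩,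
 ⟨⟨[(nat_lit 120), (nat_lit 160), (nat_lit 180)], [(nat_lit 0), (nat_lit 533), (nat_lit 2066)], [((nat_lit 0), (nat_lit 0), (nat_lit 0)), ((nat_lit 960), (nat_lit 1000), (nat_lit 200)), ((nat_lit 615), (nat_lit 1000), (nat_lit 729))], ((nat_lit 100), (nat_lit 72), (nat_lit 63))⟩, (nat_lit 3564926), (nat_lit 300), (nat_lit 300), (nat_lit 0), (nat_lit 0), [(nat_lit 7968000000), (nat_lit 11872000000), (nat_lit 14058000000)], [], [(nat_lit 35799687219), (nat_lit 36981157896), (nat_lit 39530150559), (nat_lit 40203711468), (nat_lit 28652721265), (nat_lit 29210878802), (nat_lit 30929855986), (nat_lit 31158720350)], (nat_lit 0), (nat_lit 0), (nat_lit 0), (nat_lit 0), (nat_lit 0), (nat_lit 0), [], [(nat_lit 28), (nat_lit 65), (nat_lit 428), (nat_lit 200), (nat_lit 10)]⟩,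
 Rw.none⟩) (.leaf ⟨(nat_lit 22), (nat_lit 978), (nat_lit 0), (nat_lit 0), (nat_lit 0), (nat_lit 4069), (nat_lit 8874), (nat_lit 0), (nat_lit 0), (nat_lit 0), (nat_lit 88000), [((nat_lit 400), [((nat_lit 43), (nat_lit 5), (nat_lit 22))])], ⟨(nat_lit 7), true, false, true, (nat_lit 261), (nat_lit 0), (nat_lit 2237), [(nat_lit 1591251), (nat_lit 1574995), (nat_lit 1659577), (nat_lit 1649997), (nat_lit 1662517), (nat_lit 1637491), (nat_lit 1730844), (nat_lit 1712494)]⟩, ⟨(nat_lit 3), false, false, true, (nat_lit 154), (nat_lit 0), (nat_lit 2237), [(nat_lit 1294870), (nat_lit 1299999), (nat_lit 1360436), (nat_lit 1372242), (nat_lit 1408898), (nat_lit 1399996), (nat_lit 1477224), (nat_lit 1474999)]⟩, (nat_lit 4889591), (nat_lit 40650211), (nat_lit 18378809), (nat_lit 7970980), (nat_lit 5), (nat_lit 0), [⟨(nat_lit 1), (nat_lit 81), (nat_lit 44), (nat_lit 100), (nat_lit 483303160)⟩], [], [], [],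
 ⟨⟨[(nat_lit 40), (nat_lit 60)], [(nat_lit 0), (nat_lit 1539)], [((nat_lit 0), (nat_lit 0), (nat_lit 0)), ((nat_lit 1000), (nat_lit 478), (nat_lit 704))], ((nat_lit 48), (nat_lit 100), (nat_lit 69))⟩, (nat_lit 923718), (nat_lit 214), (nat_lit 214), (nat_lit 0), (nat_lit 537993), [(nat_lit 1823484004), (nat_lit 2838752800)], [(nat_lit 0), (nat_lit 0)], [(nat_lit 25938248074), (nat_lit 27470910049), (nat_lit 28385098522), (nat_lit 29733834546), (nat_lit 26721880972), (nat_lit 28080498469), (nat_lit 28901924303), (nat_lit 30104060918)], (nat_lit 1271251), (nat_lit 1271251), (nat_lit 1271251), (nat_lit 1271251), (nat_lit 780000), (nat_lit 1435001), [(nat_lit 490000), (nat_lit 780000)], [(nat_lit 1), (nat_lit 38), (nat_lit 203), (nat_lit 0), (nat_lit 9)]⟩,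
 ⟨⟨[(nat_lit 120), (nat_lit 160), (nat_lit 180)], [(nat_lit 0), (nat_lit 533), (nat_lit 2066)], [((nat_lit 0), (nat_lit 0), (nat_lit 0)), ((nat_lit 960), (nat_lit 1000), (nat_lit 200)), ((nat_lit 615), (nat_lit 1000), (nat_lit 729))], ((nat_lit 100), (nat_lit 72), (nat_lit 63))⟩, (nat_lit 69861), (nat_lit 137), (nat_lit 137), (nat_lit 0), (nat_lit 0), [(nat_lit 7792704000), (nat_lit 11610816000), (nat_lit 13748724000)], [], [(nat_lit 19507692504), (nat_lit 21481680846), (nat_lit 23549467969), (nat_lit 24988407749), (nat_lit 31422391032), (nat_lit 32199512810), (nat_lit 34433478257), (nat_lit 34806574187)], (nat_lit 0), (nat_lit 0), (nat_lit 0), (nat_lit 0), (nat_lit 0), (nat_lit 0), [], [(nat_lit 28), (nat_lit 65), (nat_lit 483), (nat_lit 250), (nat_lit 10)]⟩,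
 Rw.none⟩)) (.spl (nat_lit 2) (nat_lit 160) (.leaf ⟨(nat_lit 948), (nat_lit 52), (nat_lit 0), (nat_lit 0), (nat_lit 0), (nat_lit 3425), (nat_lit 581), (nat_lit 0), (nat_lit 0), (nat_lit 0), (nat_lit 271800), [((nat_lit 400), [((nat_lit 28), (nat_lit 0), (nat_lit 716)), ((nat_lit 28), (nat_lit 1), (nat_lit 232))])], ⟨(nat_lit 7), false, true, true, (nat_lit 261), (nat_lit 0), (nat_lit 2237), [(nat_lit 1591251), (nat_lit 1574995), (nat_lit 1659577), (nat_lit 1649997), (nat_lit 1662517), (nat_lit 1637491), (nat_lit 1730844), (nat_lit 1712494)]⟩, ⟨(nat_lit 3), false, false, true, (nat_lit 150), (nat_lit 0), (nat_lit 2237), [(nat_lit 1294870), (nat_lit 1299999), (nat_lit 1338589), (nat_lit 1348168), (nat_lit 1408898), (nat_lit 1399996), (nat_lit 1454449), (nat_lit 1449998)]⟩, (nat_lit 4845445), (nat_lit 40911582), (nat_lit 18458509), (nat_lit 7629909), (nat_lit 3), (nat_lit 0), [⟨(nat_lit 1), (nat_lit 93), (nat_lit 31), (nat_lit 100), (nat_lit 89622383)⟩,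 ⟨(nat_lit 1), (nat_lit 81), (nat_lit 44), (nat_lit 100), (nat_lit 304583897)⟩], [], [], [⟨(nat_lit 1), (nat_lit 70), (nat_lit 87), (nat_lit 100), (nat_lit 6268661)⟩],
 ⟨⟨[(nat_lit 40), (nat_lit 60)], [(nat_lit 0), (nat_lit 1539)], [((nat_lit 0), (nat_lit 0), (nat_lit 0)), ((nat_lit 1000), (nat_lit 478), (nat_lit 704))], ((nat_lit 48), (nat_lit 100), (nat_lit 69))⟩, (nat_lit 0), (nat_lit 151), (nat_lit 151), (nat_lit 0), (nat_lit 301452), [(nat_lit 1536433601), (nat_lit 994953600)], [(nat_lit 0), (nat_lit 0)], [(nat_lit 25405785223), (nat_lit 26592866925), (nat_lit 27488727319), (nat_lit 28731560119), (nat_lit 26472552392), (nat_lit 27470365304), (nat_lit 28196915894), (nat_lit 29308978357)], (nat_lit 1271251), (nat_lit 1271251), (nat_lit 1271251), (nat_lit 1271251), (nat_lit 780000), (nat_lit 1435001), [(nat_lit 490000), (nat_lit 780000)], [(nat_lit 1), (nat_lit 38), (nat_lit 203), (nat_lit 0), (nat_lit 9)]⟩,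
 ⟨⟨[(nat_lit 120), (nat_lit 160), (nat_lit 180)], [(nat_lit 0), (nat_lit 533), (nat_lit 2066)], [((nat_lit 0), (nat_lit 0), (nat_lit 0)), ((nat_lit 960), (nat_lit 1000), (nat_lit 200)), ((nat_lit 615), (nat_lit 1000), (nat_lit 729))], ((nat_lit 100), (nat_lit 72), (nat_lit 63))⟩, (nat_lit 137043), (nat_lit 1570), (nat_lit 1570), (nat_lit 0), (nat_lit 2696999), [(nat_lit 414336000), (nat_lit 617344000), (nat_lit 731016000)], [], [(nat_lit 2323820524), (nat_lit 2292138757), (nat_lit 2381875981), (nat_lit 2338185021), (nat_lit 2398419396), (nat_lit 1895751639), (nat_lit 2004815465), (nat_lit 1970089403)], (nat_lit 1271251), (nat_lit 1271251), (nat_lit 1271251), (nat_lit 1271251), (nat_lit 0), (nat_lit 2754376), [(nat_lit 1695001), (nat_lit 1271251), (nat_lit 1271251)], [(nat_lit 28), (nat_lit 65), (nat_lit 513), (nat_lit 250), (nat_lit 12)]⟩,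
 Rw.none⟩) (.leaf ⟨(nat_lit 944), (nat_lit 32), (nat_lit 0), (nat_lit 24), (nat_lit 0), (nat_lit 3500), (nat_lit 626), (nat_lit 341), (nat_lit 0), (nat_lit 0), (nat_lit 236000), [((nat_lit 400), [((nat_lit 28), (nat_lit 0), (nat_lit 944))])], ⟨(nat_lit 7), false, true, true, (nat_lit 261), (nat_lit 0), (nat_lit 2237), [(nat_lit 1591251), (nat_lit 1574995), (nat_lit 1659577), (nat_lit 1649997), (nat_lit 1662517), (nat_lit 1637491), (nat_lit 1730844), (nat_lit 1712494)]⟩, ⟨(nat_lit 4), false, false, false, (nat_lit 164), (nat_lit 0), (nat_lit 2237), [(nat_lit 1338589), (nat_lit 1348168), (nat_lit 1360436), (nat_lit 1372242), (nat_lit 1454449), (nat_lit 1449998), (nat_lit 1477224), (nat_lit 1474999)]⟩, (nat_lit 4974315), (nat_lit 40122368), (nat_lit 18215011), (nat_lit 8662621), (nat_lit 4), (nat_lit 0), [⟨(nat_lit 1), (nat_lit 93), (nat_lit 31), (nat_lit 100), (nat_lit 19854053)⟩, ⟨(nat_lit 1), (nat_lit 81), (nat_lit 44), (nat_lit 100), (nat_lit 382277642)⟩],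 [], [], [],
 ⟨⟨[(nat_lit 40), (nat_lit 60)], [(nat_lit 0), (nat_lit 1539)], [((nat_lit 0), (nat_lit 0), (nat_lit 0)), ((nat_lit 1000), (nat_lit 478), (nat_lit 704))], ((nat_lit 48), (nat_lit 100), (nat_lit 69))⟩, (nat_lit 0), (nat_lit 142), (nat_lit 142), (nat_lit 0), (nat_lit 261070), [(nat_lit 1576348863), (nat_lit 1171216000)], [(nat_lit 0), (nat_lit 0)], [(nat_lit 25418883577), (nat_lit 26695123500), (nat_lit 27593118375), (nat_lit 28848284625), (nat_lit 26472611452), (nat_lit 27479608452), (nat_lit 28278222563), (nat_lit 29401573375)], (nat_lit 1271251), (nat_lit 1271251), (nat_lit 1271251), (nat_lit 1271251), (nat_lit 780000), (nat_lit 1435001), [(nat_lit 490000), (nat_lit 780000)], [(nat_lit 1), (nat_lit 38), (nat_lit 203), (nat_lit 0), (nat_lit 9)]⟩,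
 ⟨⟨[(nat_lit 120), (nat_lit 160), (nat_lit 180)], [(nat_lit 0), (nat_lit 533), (nat_lit 2066)], [((nat_lit 0), (nat_lit 0), (nat_lit 0)), ((nat_lit 960), (nat_lit 1000), (nat_lit 200)), ((nat_lit 615), (nat_lit 1000), (nat_lit 729))], ((nat_lit 100), (nat_lit 72), (nat_lit 63))⟩, (nat_lit 333258), (nat_lit 1405), (nat_lit 1405), (nat_lit 0), (nat_lit 2348602), [(nat_lit 446208000), (nat_lit 664832000), (nat_lit 787248000)], [], [(nat_lit 2205136044), (nat_lit 2172188200), (nat_lit 2294896353), (nat_lit 2289105837), (nat_lit 2582840490), (nat_lit 1955753271), (nat_lit 2113324048), (nat_lit 2121780049)], (nat_lit 1271251), (nat_lit 1271251), (nat_lit 1271251), (nat_lit 1271251), (nat_lit 0), (nat_lit 2754376), [(nat_lit 1695001), (nat_lit 1271251), (nat_lit 1271251)], [(nat_lit 28), (nat_lit 65), (nat_lit 483), (nat_lit 250), (nat_lit 11)]⟩,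
 ⟨⟨[(nat_lit 120), (nat_lit 160), (nat_lit 180)], [(nat_lit 0), (nat_lit 0), (nat_lit 1613)], [((nat_lit 0), (nat_lit 0), (nat_lit 0)), ((nat_lit 0), (nat_lit 0), (nat_lit 0)), ((nat_lit 620), (nat_lit 1000), (nat_lit 670))], ((nat_lit 100), (nat_lit 65), (nat_lit 64))⟩, (nat_lit 10445), (nat_lit 300), (nat_lit 1755), (nat_lit 1780802), (nat_lit 2908721), [(nat_lit 191232000), (nat_lit 284928000), (nat_lit 337392000)], [], [(nat_lit 1374959016), (nat_lit 1354372578), (nat_lit 1284939702), (nat_lit 1272605586), (nat_lit 1484958697), (nat_lit 1581032502), (nat_lit 1825449536), (nat_lit 1925408567)], (nat_lit 1100000), (nat_lit 1271251), (nat_lit 780000), (nat_lit 1435001), (nat_lit 0), (nat_lit 2754376), [(nat_lit 1695001), (nat_lit 1271251), (nat_lit 1271251)], [(nat_lit 28), (nat_lit 65), (nat_lit 535), (nat_lit 200), (nat_lit 13)]⟩⟩))))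
noncomputable def c13_18 : Tr Lf :=
 (.trZ (nat_lit 3) (nat_lit 4) (nat_lit 5) (nat_lit 100) (nat_lit 92) (nat_lit 40) (nat_lit 10) (.stt (nat_lit 2) (.spl (nat_lit 5) (nat_lit 120) (.leaf ⟨(nat_lit 0), (nat_lit 1000), (nat_lit 0), (nat_lit 0), (nat_lit 0), (nat_lit 4558), (nat_lit 12074), (nat_lit 0), (nat_lit 0), (nat_lit 0), (nat_lit 0), [], Pd.none, Pd.none, (nat_lit 0), (nat_lit 1), (nat_lit 0), (nat_lit 0), (nat_lit 5), (nat_lit 0), [⟨(nat_lit 1), (nat_lit 81), (nat_lit 44), (nat_lit 100), (nat_lit 398641316)⟩], [⟨(nat_lit 1), (nat_lit 94), (nat_lit 44), (nat_lit 100), (nat_lit 317619288)⟩], [], [⟨(nat_lit 0), (nat_lit 100), (nat_lit 86), (nat_lit 68), (nat_lit 323981264)⟩],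
 ⟨⟨[(nat_lit 40), (nat_lit 60)], [(nat_lit 0), (nat_lit 1539)], [((nat_lit 0), (nat_lit 0), (nat_lit 0)), ((nat_lit 1000), (nat_lit 478), (nat_lit 704))], ((nat_lit 48), (nat_lit 100), (nat_lit 69))⟩, (nat_lit 21890), (nat_lit 199), (nat_lit 199), (nat_lit 0), (nat_lit 537993), [(nat_lit 2032000011), (nat_lit 3282000000)], [], [(nat_lit 27542286413), (nat_lit 28609401358), (nat_lit 29437935112), (nat_lit 30707780440), (nat_lit 29042447521), (nat_lit 30293994600), (nat_lit 30995919924), (nat_lit 32104365142)], (nat_lit 1271251), (nat_lit 1271251), (nat_lit 1271251), (nat_lit 1271251), (nat_lit 1271251), (nat_lit 1271251), [(nat_lit 490000), (nat_lit 780000)], [(nat_lit 1), (nat_lit 38), (nat_lit 203), (nat_lit 0), (nat_lit 8)]⟩,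
 ⟨⟨[(nat_lit 120), (nat_lit 160), (nat_lit 180)], [(nat_lit 0), (nat_lit 533), (nat_lit 2066)], [((nat_lit 0), (nat_lit 0), (nat_lit 0)), ((nat_lit 960), (nat_lit 1000), (nat_lit 200)), ((nat_lit 615), (nat_lit 1000), (nat_lit 729))], ((nat_lit 100), (nat_lit 72), (nat_lit 63))⟩, (nat_lit 4821601), (nat_lit 287), (nat_lit 287), (nat_lit 0), (nat_lit 0), [(nat_lit 7968000000), (nat_lit 11872000000), (nat_lit 14058000000)], [], [(nat_lit 33680627144), (nat_lit 35325331706), (nat_lit 38534968846), (nat_lit 39634792049), (nat_lit 24721864429), (nat_lit 26366137719), (nat_lit 29209602046), (nat_lit 30219909711)], (nat_lit 0), (nat_lit 0), (nat_lit 0), (nat_lit 0), (nat_lit 0), (nat_lit 0), [], [(nat_lit 28), (nat_lit 65), (nat_lit 401), (nat_lit 175), (nat_lit 9)]⟩,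
 Rw.none⟩) (.spl (nat_lit 2) (nat_lit 160) (.trX (nat_lit 4) (nat_lit 0) (nat_lit 2) (nat_lit 44) (nat_lit 99) (nat_lit 100) (nat_lit 250) (.leaf ⟨(nat_lit 22), (nat_lit 978), (nat_lit 0), (nat_lit 0), (nat_lit 0), (nat_lit 4028), (nat_lit 8644), (nat_lit 0), (nat_lit 0), (nat_lit 0), (nat_lit 88000), [((nat_lit 400), [((nat_lit 43), (nat_lit 5), (nat_lit 22))])], ⟨(nat_lit 7), true, false, true, (nat_lit 261), (nat_lit 0), (nat_lit 2237), [(nat_lit 1591251), (nat_lit 1574995), (nat_lit 1659577), (nat_lit 1649997), (nat_lit 1662517), (nat_lit 1637491), (nat_lit 1730844), (nat_lit 1712494)]⟩, ⟨(nat_lit 5), false, false, true, (nat_lit 185), (nat_lit 0), (nat_lit 2237), [(nat_lit 1408898), (nat_lit 1399996), (nat_lit 1454449), (nat_lit 1449998), (nat_lit 1480164), (nat_lit 1462492), (nat_lit 1525715), (nat_lit 1512494)]⟩, (nat_lit 5145949), (nat_lit 38925979), (nat_lit 17830271), (nat_lit 10243750), (nat_lit 5), (nat_lit 0), [⟨(nat_lit 1), (nat_lit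 81), (nat_lit 44), (nat_lit 100), (nat_lit 605755305)⟩], [⟨(nat_lit 1), (nat_lit 99), (nat_lit 44), (nat_lit 100), (nat_lit 668008941)⟩], [⟨(nat_lit 1), (nat_lit 10), (nat_lit 100), (nat_lit 98), (nat_lit 445428530)⟩], [],
 ⟨⟨[(nat_lit 40), (nat_lit 60)], [(nat_lit 0), (nat_lit 1539)], [((nat_lit 0), (nat_lit 0), (nat_lit 0)), ((nat_lit 1000), (nat_lit 478), (nat_lit 704))], ((nat_lit 48), (nat_lit 100), (nat_lit 69))⟩, (nat_lit 1103349), (nat_lit 199), (nat_lit 199), (nat_lit 0), (nat_lit 537993), [(nat_lit 1823484002), (nat_lit 2838752800)], [(nat_lit 0), (nat_lit 0)], [(nat_lit 26834534284), (nat_lit 28036152828), (nat_lit 28856982701), (nat_lit 30053442307), (nat_lit 27848060450), (nat_lit 29080607269), (nat_lit 29823373683), (nat_lit 30916988176)], (nat_lit 1271251), (nat_lit 1271251), (nat_lit 1271251), (nat_lit 1271251), (nat_lit 1271251), (nat_lit 1271251), [(nat_lit 490000), (nat_lit 780000)], [(nat_lit 1), (nat_lit 38), (nat_lit 203),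 (nat_lit 0), (nat_lit 8)]⟩,
 ⟨⟨[(nat_lit 120), (nat_lit 160), (nat_lit 180)], [(nat_lit 0), (nat_lit 533), (nat_lit 2066)], [((nat_lit 0), (nat_lit 0), (nat_lit 0)), ((nat_lit 960), (nat_lit 1000), (nat_lit 200)), ((nat_lit 615), (nat_lit 1000), (nat_lit 729))], ((nat_lit 100), (nat_lit 72), (nat_lit 63))⟩, (nat_lit 92500), (nat_lit 141), (nat_lit 141), (nat_lit 0), (nat_lit 0), [(nat_lit 7792704000), (nat_lit 11610816000), (nat_lit 13748724000)], [], [(nat_lit 18450526341), (nat_lit 20874723036), (nat_lit 23084338822), (nat_lit 24898862278), (nat_lit 32286837072), (nat_lit 32949950364), (nat_lit 35104732399), (nat_lit 35392295200)], (nat_lit 0), (nat_lit 0), (nat_lit 0), (nat_lit 0), (nat_lit 0), (nat_lit 0), [], [(nat_lit 28), (nat_lit 65), (nat_lit 483), (nat_lit 250), (nat_lit 11)]⟩,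
 Rw.none⟩)) (.leaf ⟨(nat_lit 144), (nat_lit 803), (nat_lit 0), (nat_lit 53), (nat_lit 0), (nat_lit 3734), (nat_lit 7566), (nat_lit 580), (nat_lit 0), (nat_lit 0), (nat_lit 86400), [((nat_lit 400), [((nat_lit 43), (nat_lit 2), (nat_lit 144))])], ⟨(nat_lit 7), true, false, true, (nat_lit 261), (nat_lit 0), (nat_lit 2237), [(nat_lit 1591251), (nat_lit 1574995), (nat_lit 1659577), (nat_lit 1649997), (nat_lit 1662517), (nat_lit 1637491), (nat_lit 1730844), (nat_lit 1712494)]⟩, ⟨(nat_lit 5), false, false, true, (nat_lit 204), (nat_lit 0), (nat_lit 2237), [(nat_lit 1454449), (nat_lit 1449998), (nat_lit 1477224), (nat_lit 1474999), (nat_lit 1554222), (nat_lit 1537494), (nat_lit 1576997), (nat_lit 1562495)]⟩, (nat_lit 5285734), (nat_lit 37783511), (nat_lit 17446460), (nat_lit 11770029), (nat_lit 5), (nat_lit 0), [⟨(nat_lit 1), (nat_lit 81), (nat_lit 44), (nat_lit 100), (nat_lit 418373612)⟩], [⟨(nat_lit 1), (nat_lit 94), (nat_lit 44), (nat_lit 100), (nat_lit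 568065194)⟩], [], [],
 ⟨⟨[(nat_lit 40), (nat_lit 60)], [(nat_lit 0), (nat_lit 1539)], [((nat_lit 0), (nat_lit 0), (nat_lit 0)), ((nat_lit 1000), (nat_lit 478), (nat_lit 704))], ((nat_lit 48), (nat_lit 100), (nat_lit 69))⟩, (nat_lit 1073582), (nat_lit 182), (nat_lit 182), (nat_lit 0), (nat_lit 465394), [(nat_lit 1739536019), (nat_lit 2718211200)], [(nat_lit 0), (nat_lit 0)], [(nat_lit 26627401875), (nat_lit 27718162134), (nat_lit 28534718533), (nat_lit 29690469834), (nat_lit 28270018996), (nat_lit 29410361514), (nat_lit 30116354952), (nat_lit 31132804973)], (nat_lit 1271251), (nat_lit 1271251), (nat_lit 1271251), (nat_lit 1271251), (nat_lit 1271251), (nat_lit 1271251), [(nat_lit 490000), (nat_lit 780000)], [(nat_lit 1), (nat_lit 38), (nat_lit 203), (nat_lit 0), (nat_lit 8)]⟩,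
 ⟨⟨[(nat_lit 120), (nat_lit 160), (nat_lit 180)], [(nat_lit 0), (nat_lit 533), (nat_lit 2066)], [((nat_lit 0), (nat_lit 0), (nat_lit 0)), ((nat_lit 960), (nat_lit 1000), (nat_lit 200)), ((nat_lit 615), (nat_lit 1000), (nat_lit 729))], ((nat_lit 100), (nat_lit 72), (nat_lit 63))⟩, (nat_lit 68378), (nat_lit 141), (nat_lit 141), (nat_lit 0), (nat_lit 0), [(nat_lit 6820608000), (nat_lit 10162432000), (nat_lit 12033648000)], [], [(nat_lit 16148626716), (nat_lit 18270446550), (nat_lit 20204499340), (nat_lit 21792681663), (nat_lit 28259557951), (nat_lit 28839927148), (nat_lit 30725984625), (nat_lit 30977640605)], (nat_lit 0), (nat_lit 0), (nat_lit 0), (nat_lit 0), (nat_lit 0), (nat_lit 0), [], [(nat_lit 28), (nat_lit 65), (nat_lit 483), (nat_lit 250), (nat_lit 11)]⟩,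
 ⟨⟨[(nat_lit 120), (nat_lit 160), (nat_lit 180)], [(nat_lit 0), (nat_lit 0), (nat_lit 1613)], [((nat_lit 0), (nat_lit 0), (nat_lit 0)), ((nat_lit 0), (nat_lit 0), (nat_lit 0)), ((nat_lit 620), (nat_lit 1000), (nat_lit 670))], ((nat_lit 100), (nat_lit 65), (nat_lit 64))⟩, (nat_lit 184459), (nat_lit 300), (nat_lit 2290), (nat_lit 3932600), (nat_lit 4176996), [(nat_lit 422304000), (nat_lit 629216000), (nat_lit 745074000)], [], [(nat_lit 3041131569), (nat_lit 3007495591), (nat_lit 2929761934), (nat_lit 2896170421), (nat_lit 2610014810), (nat_lit 2619647558), (nat_lit 2499240923), (nat_lit 2467850410)], (nat_lit 1100000), (nat_lit 1271251), (nat_lit 1271251), (nat_lit 1271251), (nat_lit 780000), (nat_lit 3072501), [(nat_lit 1695001), (nat_lit 1271251), (nat_lit 1271251)], [(nat_lit 28), (nat_lit 65), (nat_lit 679), (nat_lit 225), (nat_lit 15)]⟩⟩))) (.stt (nat_lit 1) (.spl (nat_lit 2) (nat_lit 160) (.trX (nat_lit 4) (nat_lit 0) (nat_lit 2) (nat_lit 44)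 (nat_lit 99) (nat_lit 100) (nat_lit 250) (.leaf ⟨(nat_lit 1000), (nat_lit 0), (nat_lit 0), (nat_lit 0), (nat_lit 0), (nat_lit 3153), (nat_lit 0), (nat_lit 0), (nat_lit 0), (nat_lit 0), (nat_lit 250000), [((nat_lit 400), [((nat_lit 28), (nat_lit 0), (nat_lit 1000))])], ⟨(nat_lit 7), false, true, true, (nat_lit 261), (nat_lit 0), (nat_lit 2237), [(nat_lit 1591251), (nat_lit 1574995), (nat_lit 1659577), (nat_lit 1649997), (nat_lit 1662517), (nat_lit 1637491), (nat_lit 1730844), (nat_lit 1712494)]⟩, ⟨(nat_lit 5), false, false, true, (nat_lit 185), (nat_lit 0), (nat_lit 2237), [(nat_lit 1408898), (nat_lit 1399996), (nat_lit 1454449), (nat_lit 1449998), (nat_lit 1480164), (nat_lit 1462492), (nat_lit 1525715), (nat_lit 1512494)]⟩, (nat_lit 5145949), (nat_lit 38925979), (nat_lit 17830271), (nat_lit 10243750), (nat_lit 0), (nat_lit 0), [⟨(nat_lit 1), (nat_lit 81), (nat_lit 44), (nat_lit 100), (nat_lit 418152624)⟩], [⟨(nat_lit 1), (nat_lit 99), (nat_lit 44),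 (nat_lit 100), (nat_lit 260612388)⟩], [], [],
 ⟨⟨[(nat_lit 40), (nat_lit 60)], [(nat_lit 0), (nat_lit 1539)], [((nat_lit 0), (nat_lit 0), (nat_lit 0)), ((nat_lit 1000), (nat_lit 478), (nat_lit 704))], ((nat_lit 48), (nat_lit 100), (nat_lit 69))⟩, (nat_lit 0), (nat_lit 65), (nat_lit 65), (nat_lit 0), (nat_lit 0), [(nat_lit 1563200004), (nat_lit 1046000000)], [(nat_lit 0), (nat_lit 0)], [(nat_lit 26059221703), (nat_lit 27143064574), (nat_lit 27917741594), (nat_lit 28973167089), (nat_lit 27201975419), (nat_lit 28198997437), (nat_lit 28910948047), (nat_lit 29899750255)], (nat_lit 0), (nat_lit 0), (nat_lit 0), (nat_lit 0), (nat_lit 0), (nat_lit 0), [], [(nat_lit 1), (nat_lit 38), (nat_lit 203), (nat_lit 0), (nat_lit 8)]⟩,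
 Rw.none,
 Rw.none⟩)) (.leaf ⟨(nat_lit 956), (nat_lit 17), (nat_lit 0), (nat_lit 27), (nat_lit 0), (nat_lit 3143), (nat_lit 537), (nat_lit 326), (nat_lit 0), (nat_lit 0), (nat_lit 239000), [((nat_lit 400), [((nat_lit 28), (nat_lit 0), (nat_lit 956))])], ⟨(nat_lit 7), false, true, true, (nat_lit 261), (nat_lit 0), (nat_lit 2237), [(nat_lit 1591251), (nat_lit 1574995), (nat_lit 1659577), (nat_lit 1649997), (nat_lit 1662517), (nat_lit 1637491), (nat_lit 1730844), (nat_lit 1712494)]⟩, ⟨(nat_lit 5), false, false, true, (nat_lit 204), (nat_lit 0), (nat_lit 2237), [(nat_lit 1454449), (nat_lit 1449998), (nat_lit 1477224), (nat_lit 1474999), (nat_lit 1554222), (nat_lit 1537494), (nat_lit 1576997), (nat_lit 1562495)]⟩, (nat_lit 5285734), (nat_lit 37783511), (nat_lit 17446460), (nat_lit 11770029), (nat_lit 5), (nat_lit 0), [⟨(nat_lit 1), (nat_lit 81), (nat_lit 44), (nat_lit 100), (nat_lit 343469402)⟩], [⟨(nat_lit 1), (nat_lit 94), (nat_lit 44), (nat_lit 100),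 (nat_lit 152801427)⟩], [], [⟨(nat_lit 0), (nat_lit 100), (nat_lit 81), (nat_lit 93), (nat_lit 15034219)⟩],
 ⟨⟨[(nat_lit 40), (nat_lit 60)], [(nat_lit 0), (nat_lit 1539)], [((nat_lit 0), (nat_lit 0), (nat_lit 0)), ((nat_lit 1000), (nat_lit 478), (nat_lit 704))], ((nat_lit 48), (nat_lit 100), (nat_lit 69))⟩, (nat_lit 0), (nat_lit 65), (nat_lit 65), (nat_lit 0), (nat_lit 0), [(nat_lit 1573531222), (nat_lit 1144384000)], [(nat_lit 0), (nat_lit 0)], [(nat_lit 26087320989), (nat_lit 27169712790), (nat_lit 27944227035), (nat_lit 28960821086), (nat_lit 27845148520), (nat_lit 28804324144), (nat_lit 29486302731), (nat_lit 30435969949)], (nat_lit 0), (nat_lit 0), (nat_lit 0), (nat_lit 0), (nat_lit 0), (nat_lit 0), [], [(nat_lit 1), (nat_lit 38), (nat_lit 203), (nat_lit 0), (nat_lit 8)]⟩,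
 ⟨⟨[(nat_lit 120), (nat_lit 160), (nat_lit 180)], [(nat_lit 0), (nat_lit 533), (nat_lit 2066)], [((nat_lit 0), (nat_lit 0), (nat_lit 0)), ((nat_lit 960), (nat_lit 1000), (nat_lit 200)), ((nat_lit 615), (nat_lit 1000), (nat_lit 729))], ((nat_lit 100), (nat_lit 72), (nat_lit 63))⟩, (nat_lit 124753), (nat_lit 1399), (nat_lit 1399), (nat_lit 0), (nat_lit 2348602), [(nat_lit 350592000), (nat_lit 522368000), (nat_lit 618552000)], [], [(nat_lit 1831506112), (nat_lit 1797875436), (nat_lit 1899140100), (nat_lit 1874715275), (nat_lit 2113711669), (nat_lit 1634294522), (nat_lit 1768155418), (nat_lit 1763252538)], (nat_lit 1271251), (nat_lit 1271251), (nat_lit 1271251), (nat_lit 1271251), (nat_lit 54688), (nat_lit 2845626), [(nat_lit 1695001), (nat_lit 1271251), (nat_lit 1271251)], [(nat_lit 28), (nat_lit 65), (nat_lit 483), (nat_lit 250), (nat_lit 11)]⟩,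
 ⟨⟨[(nat_lit 120), (nat_lit 160), (nat_lit 180)], [(nat_lit 0), (nat_lit 0), (nat_lit 1613)], [((nat_lit 0), (nat_lit 0), (nat_lit 0)), ((nat_lit 0), (nat_lit 0), (nat_lit 0)), ((nat_lit 620), (nat_lit 1000), (nat_lit 670))], ((nat_lit 100), (nat_lit 65), (nat_lit 64))⟩, (nat_lit 11751), (nat_lit 300), (nat_lit 1710), (nat_lit 2003400), (nat_lit 2908721), [(nat_lit 215136000), (nat_lit 320544000), (nat_lit 379566000)], [], [(nat_lit 1536051280), (nat_lit 1520746503), (nat_lit 1498566251), (nat_lit 1482209888), (nat_lit 1767083768), (nat_lit 1865885064), (nat_lit 1265668221), (nat_lit 1367543534)], (nat_lit 1100000), (nat_lit 1271251), (nat_lit 1271251), (nat_lit 1271251), (nat_lit 54688), (nat_lit 2845626), [(nat_lit 1695001), (nat_lit 1271251), (nat_lit 1271251)], [(nat_lit 28), (nat_lit 65), (nat_lit 534), (nat_lit 225), (nat_lit 12)]⟩⟩)) (.leaf ⟨(nat_lit 842), (nat_lit 81), (nat_lit 0), (nat_lit 77), (nat_lit 0), (nat_lit 3552), (nat_lit 1960),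 (nat_lit 1096), (nat_lit 0), (nat_lit 0), (nat_lit 210500), [((nat_lit 400), [((nat_lit 28), (nat_lit 0), (nat_lit 842))])], ⟨(nat_lit 7), false, true, true, (nat_lit 261), (nat_lit 0), (nat_lit 2237), [(nat_lit 1591251), (nat_lit 1574995), (nat_lit 1659577), (nat_lit 1649997), (nat_lit 1662517), (nat_lit 1637491), (nat_lit 1730844), (nat_lit 1712494)]⟩, ⟨(nat_lit 5), false, false, true, (nat_lit 195), (nat_lit 0), (nat_lit 2237), [(nat_lit 1408898), (nat_lit 1399996), (nat_lit 1477224), (nat_lit 1474999), (nat_lit 1508671), (nat_lit 1487491), (nat_lit 1576997), (nat_lit 1562495)]⟩, (nat_lit 5220501), (nat_lit 38339495), (nat_lit 17635169), (nat_lit 11025336), (nat_lit 5), (nat_lit 0), [⟨(nat_lit 1), (nat_lit 81), (nat_lit 44), (nat_lit 100), (nat_lit 348580576)⟩], [⟨(nat_lit 1), (nat_lit 94), (nat_lit 44), (nat_lit 100), (nat_lit 201758962)⟩], [], [],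
 ⟨⟨[(nat_lit 40), (nat_lit 60)], [(nat_lit 0), (nat_lit 1539)], [((nat_lit 0), (nat_lit 0), (nat_lit 0)), ((nat_lit 1000), (nat_lit 478), (nat_lit 704))], ((nat_lit 48), (nat_lit 100), (nat_lit 69))⟩, (nat_lit 0), (nat_lit 136), (nat_lit 136), (nat_lit 0), (nat_lit 301452), [(nat_lit 1600298402), (nat_lit 1399288000)], [(nat_lit 0), (nat_lit 0)], [(nat_lit 26457752230), (nat_lit 27521310752), (nat_lit 28335221667), (nat_lit 29465772588), (nat_lit 28098713087), (nat_lit 29215190128), (nat_lit 29922082106), (nat_lit 30918212800)], (nat_lit 1271251), (nat_lit 1271251), (nat_lit 1271251), (nat_lit 1271251), (nat_lit 1271251), (nat_lit 1271251), [(nat_lit 490000), (nat_lit 780000)], [(nat_lit 1), (nat_lit 38), (nat_lit 203), (nat_lit 0), (nat_lit 8)]⟩,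
 ⟨⟨[(nat_lit 120), (nat_lit 160), (nat_lit 180)], [(nat_lit 0), (nat_lit 533), (nat_lit 2066)], [((nat_lit 0), (nat_lit 0), (nat_lit 0)), ((nat_lit 960), (nat_lit 1000), (nat_lit 200)), ((nat_lit 615), (nat_lit 1000), (nat_lit 729))], ((nat_lit 100), (nat_lit 72), (nat_lit 63))⟩, (nat_lit 494750), (nat_lit 689), (nat_lit 689), (nat_lit 0), (nat_lit 789034), [(nat_lit 1258944000), (nat_lit 1875776000), (nat_lit 2221164000)], [], [(nat_lit 6442842627), (nat_lit 6317377045), (nat_lit 6698806604), (nat_lit 6660037599), (nat_lit 7587317800), (nat_lit 5901092444), (nat_lit 6389671813), (nat_lit 6368249810)], (nat_lit 1271251), (nat_lit 1271251), (nat_lit 1271251), (nat_lit 1271251), (nat_lit 54688), (nat_lit 2845626), [(nat_lit 1695001), (nat_lit 1271251), (nat_lit 1271251)], [(nat_lit 28), (nat_lit 65), (nat_lit 483), (nat_lit 250), (nat_lit 11)]⟩,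
 ⟨⟨[(nat_lit 140), (nat_lit 180), (nat_lit 200)], [(nat_lit 0), (nat_lit 0), (nat_lit 2835)], [((nat_lit 0), (nat_lit 0), (nat_lit 0)), ((nat_lit 0), (nat_lit 0), (nat_lit 0)), ((nat_lit 363), (nat_lit 1000), (nat_lit 798))], ((nat_lit 0), (nat_lit 0), (nat_lit 0))⟩, (nat_lit 21185), (nat_lit 300), (nat_lit 1045), (nat_lit 6013703), (nat_lit 1269573), [(nat_lit 757834000), (nat_lit 1082466000), (nat_lit 1262800000)], [], [(nat_lit 5125321734), (nat_lit 4881631692), (nat_lit 4989506610), (nat_lit 4737925724), (nat_lit 5744198356), (nat_lit 6624620952), (nat_lit 4079395180), (nat_lit 4990038743)], (nat_lit 780000), (nat_lit 1271251), (nat_lit 1271251), (nat_lit 1271251), (nat_lit 54688), (nat_lit 2845626), [(nat_lit 1977501), (nat_lit 1271251), (nat_lit 1271251)], [(nat_lit 32), (nat_lit 67), (nat_lit 456), (nat_lit 225), (nat_lit 10)]⟩⟩))))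
noncomputable def c13_19 : Tr Lf :=
 (.stt (nat_lit 2) (.spl (nat_lit 5) (nat_lit 200) (.leaf ⟨(nat_lit 433), (nat_lit 536), (nat_lit 0), (nat_lit 31), (nat_lit 0), (nat_lit 4141), (nat_lit 6711), (nat_lit 744), (nat_lit 0), (nat_lit 11060492841727), (nat_lit 173200), [((nat_lit 400), [((nat_lit 28), (nat_lit 1), (nat_lit 433))])], ⟨(nat_lit 4), true, false, false, (nat_lit 174), (nat_lit 0), (nat_lit 2237), [(nat_lit 1316293), (nat_lit 1333360), (nat_lit 1381836), (nat_lit 1405580), (nat_lit 1477224), (nat_lit 1474999), (nat_lit 1543695), (nat_lit 1548146)]⟩, ⟨(nat_lit 4), false, false, false, (nat_lit 174), (nat_lit 0), (nat_lit 2237), [(nat_lit 1316293), (nat_lit 1333360), (nat_lit 1381836), (nat_lit 1405580), (nat_lit 1477224), (nat_lit 1474999), (nat_lit 1543695), (nat_lit 1548146)]⟩, (nat_lit 4467979), (nat_lit 46329828), (nat_lit 10335086), (nat_lit 10335086), (nat_lit 4), (nat_lit 0), [⟨(nat_lit 0), (nat_lit 100), (nat_lit 31), (nat_lit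 97), (nat_lit 79126773)⟩, ⟨(nat_lit 0), (nat_lit 100), (nat_lit 44), (nat_lit 86), (nat_lit 602702228)⟩], [], [⟨(nat_lit 0), (nat_lit 100), (nat_lit 100), (nat_lit 10), (nat_lit 3302557)⟩], [],
 ⟨⟨[(nat_lit 40), (nat_lit 60)], [(nat_lit 0), (nat_lit 1539)], [((nat_lit 0), (nat_lit 0), (nat_lit 0)), ((nat_lit 1000), (nat_lit 478), (nat_lit 704))], ((nat_lit 48), (nat_lit 100), (nat_lit 69))⟩, (nat_lit 0), (nat_lit 255), (nat_lit 255), (nat_lit 0), (nat_lit 621630), [(nat_lit 1623587605), (nat_lit 2001532400)], [(nat_lit 0), (nat_lit 0)], [(nat_lit 21577613361), (nat_lit 23839920055), (nat_lit 22923638581), (nat_lit 24832679930), (nat_lit 22923638581), (nat_lit 24832679930), (nat_lit 24273650617), (nat_lit 25711283473)], (nat_lit 1271251), (nat_lit 1271251), (nat_lit 559688), (nat_lit 1429376), (nat_lit 559688), (nat_lit 1429376), [(nat_lit 490000), (nat_lit 780000)], [(nat_lit 1), (nat_lit 38), (nat_lit 317), (nat_lit 100), (nat_lit 18)]⟩,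
 ⟨⟨[(nat_lit 120), (nat_lit 160), (nat_lit 180)], [(nat_lit 0), (nat_lit 533), (nat_lit 2066)], [((nat_lit 0), (nat_lit 0), (nat_lit 0)), ((nat_lit 960), (nat_lit 1000), (nat_lit 200)), ((nat_lit 615), (nat_lit 1000), (nat_lit 729))], ((nat_lit 100), (nat_lit 72), (nat_lit 63))⟩, (nat_lit 2973873), (nat_lit 386), (nat_lit 386), (nat_lit 0), (nat_lit 0), [(nat_lit 4517856000), (nat_lit 6731424000), (nat_lit 7970886000)], [], [(nat_lit 16906576154), (nat_lit 18355701288), (nat_lit 16850038418), (nat_lit 17768419041), (nat_lit 12628492075), (nat_lit 13484518167), (nat_lit 12239415328), (nat_lit 12788674386)], (nat_lit 0), (nat_lit 0), (nat_lit 0), (nat_lit 0), (nat_lit 0), (nat_lit 0), [], [(nat_lit 28), (nat_lit 65), (nat_lit 401), (nat_lit 175), (nat_lit 10)]⟩,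
 ⟨⟨[(nat_lit 120), (nat_lit 160), (nat_lit 180)], [(nat_lit 0), (nat_lit 533), (nat_lit 2066)], [((nat_lit 0), (nat_lit 0), (nat_lit 0)), ((nat_lit 960), (nat_lit 1000), (nat_lit 200)), ((nat_lit 615), (nat_lit 1000), (nat_lit 729))], ((nat_lit 100), (nat_lit 72), (nat_lit 63))⟩, (nat_lit 57827), (nat_lit 300), (nat_lit 1920), (nat_lit 2107564), (nat_lit 3230518), [(nat_lit 247008000), (nat_lit 368032000), (nat_lit 435798000)], [], [(nat_lit 2083378152), (nat_lit 1777579418), (nat_lit 1447699008), (nat_lit 1401495004), (nat_lit 1466640752), (nat_lit 836975426), (nat_lit 2199482798), (nat_lit 1154392880)], (nat_lit 1271251), (nat_lit 1271251), (nat_lit 559688), (nat_lit 1429376), (nat_lit 0), (nat_lit 1412501), [(nat_lit 1695001), (nat_lit 1271251), (nat_lit 1271251)], [(nat_lit 28), (nat_lit 65), (nat_lit 560), (nat_lit 175), (nat_lit 13)]⟩⟩) (.leaf ⟨(nat_lit 824), (nat_lit 91), (nat_lit 0), (nat_lit 85), (nat_lit 0), (nat_lit 3731), (nat_lit 1651),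 (nat_lit 838), (nat_lit 0), (nat_lit 51525), (nat_lit 329600), [((nat_lit 400), [((nat_lit 28), (nat_lit 1), (nat_lit 824))])], ⟨(nat_lit 4), true, false, false, (nat_lit 174), (nat_lit 0), (nat_lit 2237), [(nat_lit 1316293), (nat_lit 1333360), (nat_lit 1381836), (nat_lit 1405580), (nat_lit 1477224), (nat_lit 1474999), (nat_lit 1543695), (nat_lit 1548146)]⟩, ⟨(nat_lit 4), false, false, false, (nat_lit 174), (nat_lit 0), (nat_lit 2237), [(nat_lit 1316293), (nat_lit 1333360), (nat_lit 1381836), (nat_lit 1405580), (nat_lit 1477224), (nat_lit 1474999), (nat_lit 1543695), (nat_lit 1548146)]⟩, (nat_lit 4467979), (nat_lit 46329828), (nat_lit 10335086), (nat_lit 10335086), (nat_lit 5), (nat_lit 0), [⟨(nat_lit 0), (nat_lit 100), (nat_lit 31), (nat_lit 97), (nat_lit 219110934)⟩], [⟨(nat_lit 0), (nat_lit 100), (nat_lit 31), (nat_lit 97), (nat_lit 1847400)⟩], [], [],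
 ⟨⟨[(nat_lit 40), (nat_lit 60)], [(nat_lit 0), (nat_lit 1539)], [((nat_lit 0), (nat_lit 0), (nat_lit 0)), ((nat_lit 1000), (nat_lit 478), (nat_lit 704))], ((nat_lit 48), (nat_lit 100), (nat_lit 69))⟩, (nat_lit 0), (nat_lit 255), (nat_lit 255), (nat_lit 0), (nat_lit 621630), [(nat_lit 1466092806), (nat_lit 845267200)], [(nat_lit 0), (nat_lit 0)], [(nat_lit 20978246334), (nat_lit 23105787636), (nat_lit 22740119430), (nat_lit 24260674887), (nat_lit 22740119430), (nat_lit 24260674887), (nat_lit 24252667740), (nat_lit 25301496197)], (nat_lit 1271251), (nat_lit 1271251), (nat_lit 559688), (nat_lit 1429376), (nat_lit 559688), (nat_lit 1429376), [(nat_lit 490000), (nat_lit 780000)], [(nat_lit 1), (nat_lit 38), (nat_lit 317), (nat_lit 100), (nat_lit 18)]⟩,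
 ⟨⟨[(nat_lit 120), (nat_lit 160), (nat_lit 180)], [(nat_lit 0), (nat_lit 533), (nat_lit 2066)], [((nat_lit 0), (nat_lit 0), (nat_lit 0)), ((nat_lit 960), (nat_lit 1000), (nat_lit 200)), ((nat_lit 615), (nat_lit 1000), (nat_lit 729))], ((nat_lit 100), (nat_lit 72), (nat_lit 63))⟩, (nat_lit 2161394), (nat_lit 232), (nat_lit 232), (nat_lit 0), (nat_lit 0), [(nat_lit 1402368000), (nat_lit 2089472000), (nat_lit 2474208000)], [], [(nat_lit 3968129700), (nat_lit 4230786101), (nat_lit 3956903641), (nat_lit 4140834229), (nat_lit 5905818929), (nat_lit 5974510209), (nat_lit 5559673694), (nat_lit 5586181018)], (nat_lit 0), (nat_lit 0), (nat_lit 0), (nat_lit 0), (nat_lit 0), (nat_lit 0), [], [(nat_lit 28), (nat_lit 65), (nat_lit 456), (nat_lit 225), (nat_lit 10)]⟩,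
 ⟨⟨[(nat_lit 120), (nat_lit 160), (nat_lit 180)], [(nat_lit 0), (nat_lit 533), (nat_lit 2066)], [((nat_lit 0), (nat_lit 0), (nat_lit 0)), ((nat_lit 960), (nat_lit 1000), (nat_lit 200)), ((nat_lit 615), (nat_lit 1000), (nat_lit 729))], ((nat_lit 100), (nat_lit 72), (nat_lit 63))⟩, (nat_lit 199025), (nat_lit 300), (nat_lit 1809), (nat_lit 5644000), (nat_lit 3230518), [(nat_lit 677280000), (nat_lit 1009120000), (nat_lit 1194930000)], [], [(nat_lit 4771546556), (nat_lit 4623270707), (nat_lit 4464876039), (nat_lit 4317290160), (nat_lit 4395469248), (nat_lit 4253077515), (nat_lit 4067788043), (nat_lit 3918308447)], (nat_lit 1271251), (nat_lit 1271251), (nat_lit 559688), (nat_lit 1429376), (nat_lit 1271251), (nat_lit 1271251), [(nat_lit 1695001), (nat_lit 1271251), (nat_lit 1271251)], [(nat_lit 28), (nat_lit 65), (nat_lit 558), (nat_lit 225), (nat_lit 13)]⟩⟩)) (.spl (nat_lit 1) (nat_lit 220) (.ord (.leaf ⟨(nat_lit 953), (nat_lit 0), (nat_lit 0), (nat_lit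 47), (nat_lit 0), (nat_lit 3522), (nat_lit 506), (nat_lit 575), (nat_lit 0), (nat_lit 2055280484850), (nat_lit 381200), [((nat_lit 400), [((nat_lit 28), (nat_lit 1), (nat_lit 953))])], ⟨(nat_lit 4), false, false, false, (nat_lit 169), (nat_lit 0), (nat_lit 2237), [(nat_lit 1316293), (nat_lit 1333360), (nat_lit 1359989), (nat_lit 1381507), (nat_lit 1477224), (nat_lit 1474999), (nat_lit 1521847), (nat_lit 1524073)]⟩, ⟨(nat_lit 4), false, false, false, (nat_lit 169), (nat_lit 0), (nat_lit 2237), [(nat_lit 1316293), (nat_lit 1333360), (nat_lit 1359989), (nat_lit 1381507), (nat_lit 1477224), (nat_lit 1474999), (nat_lit 1521847), (nat_lit 1524073)]⟩, (nat_lit 4377849), (nat_lit 47044122), (nat_lit 9977939), (nat_lit 9977939), (nat_lit 0), (nat_lit 0), [⟨(nat_lit 0), (nat_lit 100), (nat_lit 31), (nat_lit 95), (nat_lit 27696728)⟩], [⟨(nat_lit 0), (nat_lit 100), (nat_lit 31), (nat_lit 95), (nat_lit 44514375)⟩], [], [],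
 ⟨⟨[(nat_lit 40), (nat_lit 60)], [(nat_lit 0), (nat_lit 1539)], [((nat_lit 0), (nat_lit 0), (nat_lit 0)), ((nat_lit 1000), (nat_lit 478), (nat_lit 704))], ((nat_lit 48), (nat_lit 100), (nat_lit 69))⟩, (nat_lit 0), (nat_lit 195), (nat_lit 195), (nat_lit 0), (nat_lit 419612), [(nat_lit 1414131608), (nat_lit 463788400)], [(nat_lit 0), (nat_lit 0)], [(nat_lit 20672715338), (nat_lit 22731559159), (nat_lit 22416010099), (nat_lit 23969091829), (nat_lit 22416010099), (nat_lit 23969091829), (nat_lit 24014831789), (nat_lit 25106601610)], (nat_lit 1271251), (nat_lit 1271251), (nat_lit 559688), (nat_lit 1429376), (nat_lit 559688), (nat_lit 1429376), [(nat_lit 490000), (nat_lit 780000)], [(nat_lit 1), (nat_lit 38), (nat_lit 317), (nat_lit 100), (nat_lit 18)]⟩,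
 ⟨⟨[(nat_lit 120), (nat_lit 160), (nat_lit 180)], [(nat_lit 0), (nat_lit 533), (nat_lit 2066)], [((nat_lit 0), (nat_lit 0), (nat_lit 0)), ((nat_lit 960), (nat_lit 1000), (nat_lit 200)), ((nat_lit 615), (nat_lit 1000), (nat_lit 729))], ((nat_lit 100), (nat_lit 72), (nat_lit 63))⟩, (nat_lit 501300), (nat_lit 1845), (nat_lit 1845), (nat_lit 0), (nat_lit 3073250), [(nat_lit 374496000), (nat_lit 557984000), (nat_lit 660726000)], [], [(nat_lit 2062770957), (nat_lit 1615002021), (nat_lit 1979235235), (nat_lit 1497946263), (nat_lit 2775469526), (nat_lit 2315679596), (nat_lit 3450442184), (nat_lit 3006512192)], (nat_lit 1271251), (nat_lit 1271251), (nat_lit 559688), (nat_lit 1429376), (nat_lit 0), (nat_lit 2825001), [(nat_lit 1695001), (nat_lit 1271251), (nat_lit 1271251)], [(nat_lit 28), (nat_lit 65), (nat_lit 564), (nat_lit 225), (nat_lit 13)]⟩,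
 ⟨⟨[(nat_lit 120), (nat_lit 160), (nat_lit 180)], [(nat_lit 0), (nat_lit 533), (nat_lit 2066)], [((nat_lit 0), (nat_lit 0), (nat_lit 0)), ((nat_lit 960), (nat_lit 1000), (nat_lit 200)), ((nat_lit 615), (nat_lit 1000), (nat_lit 729))], ((nat_lit 100), (nat_lit 72), (nat_lit 63))⟩, (nat_lit 110049), (nat_lit 300), (nat_lit 1455), (nat_lit 3120800), (nat_lit 2247957), [(nat_lit 374496000), (nat_lit 557984000), (nat_lit 660726000)], [], [(nat_lit 2633004576), (nat_lit 2601388278), (nat_lit 2433707413), (nat_lit 2396707498), (nat_lit 2857843873), (nat_lit 2335355317), (nat_lit 3602562620), (nat_lit 3098096720)], (nat_lit 1271251), (nat_lit 1271251), (nat_lit 559688), (nat_lit 1429376), (nat_lit 0), (nat_lit 2825001), [(nat_lit 1695001), (nat_lit 1271251), (nat_lit 1271251)], [(nat_lit 28), (nat_lit 65), (nat_lit 467), (nat_lit 225), (nat_lit 11)]⟩⟩)) (.trZ (nat_lit 0) (nat_lit 1) (nat_lit 3) (nat_lit 100) (nat_lit 44) (nat_lit 94) (nat_lit 130) (.leaf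 ⟨(nat_lit 930), (nat_lit 14), (nat_lit 0), (nat_lit 56), (nat_lit 0), (nat_lit 3388), (nat_lit 723), (nat_lit 708), (nat_lit 0), (nat_lit 478855766476), (nat_lit 372000), [((nat_lit 400), [((nat_lit 28), (nat_lit 1), (nat_lit 930))])], ⟨(nat_lit 5), false, false, false, (nat_lit 194), (nat_lit 0), (nat_lit 2237), [(nat_lit 1418846), (nat_lit 1433349), (nat_lit 1440694), (nat_lit 1457423), (nat_lit 1521847), (nat_lit 1524073), (nat_lit 1543695), (nat_lit 1548146)]⟩, ⟨(nat_lit 4), false, false, false, (nat_lit 174), (nat_lit 0), (nat_lit 2237), [(nat_lit 1316293), (nat_lit 1333360), (nat_lit 1381836), (nat_lit 1405580), (nat_lit 1477224), (nat_lit 1474999), (nat_lit 1543695), (nat_lit 1548146)]⟩, (nat_lit 4650086), (nat_lit 44743808), (nat_lit 12096575), (nat_lit 10159617), (nat_lit 4), (nat_lit 0), [⟨(nat_lit 0), (nat_lit 100), (nat_lit 44), (nat_lit 94), (nat_lit 144445139)⟩], [⟨(nat_lit 0), (nat_lit 100), (nat_lit 31), (nat_lit 97), (nat_lit 42268136)⟩],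 [], [],
 ⟨⟨[(nat_lit 40), (nat_lit 60)], [(nat_lit 0), (nat_lit 1539)], [((nat_lit 0), (nat_lit 0), (nat_lit 0)), ((nat_lit 1000), (nat_lit 478), (nat_lit 704))], ((nat_lit 48), (nat_lit 100), (nat_lit 69))⟩, (nat_lit 0), (nat_lit 189), (nat_lit 189), (nat_lit 0), (nat_lit 431632), [(nat_lit 1423396025), (nat_lit 531804000)], [(nat_lit 0), (nat_lit 0)], [(nat_lit 20715670659), (nat_lit 22627681204), (nat_lit 22186486412), (nat_lit 23782143839), (nat_lit 22595437665), (nat_lit 23924555195), (nat_lit 23840553891), (nat_lit 24985289780)], (nat_lit 1271251), (nat_lit 1271251), (nat_lit 857188), (nat_lit 1436876), (nat_lit 559688), (nat_lit 1429376), [(nat_lit 490000), (nat_lit 780000)], [(nat_lit 1), (nat_lit 38), (nat_lit 260), (nat_lit 50), (nat_lit 14)]⟩,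
 ⟨⟨[(nat_lit 100), (nat_lit 140), (nat_lit 160)], [(nat_lit 0), (nat_lit 508), (nat_lit 1689)], [((nat_lit 0), (nat_lit 0), (nat_lit 0)), ((nat_lit 1000), (nat_lit 1000), (nat_lit 198)), ((nat_lit 811), (nat_lit 1000), (nat_lit 671))], ((nat_lit 100), (nat_lit 84), (nat_lit 63))⟩, (nat_lit 787092), (nat_lit 1304), (nat_lit 1304), (nat_lit 0), (nat_lit 2152431), [(nat_lit 437500000), (nat_lit 688940000), (nat_lit 831040000)], [], [(nat_lit 2812127905), (nat_lit 2428279523), (nat_lit 1665056898), (nat_lit 1611648590), (nat_lit 3010371654), (nat_lit 2677510407), (nat_lit 3705038955), (nat_lit 3379702330)], (nat_lit 1271251), (nat_lit 1271251), (nat_lit 857188), (nat_lit 1436876), (nat_lit 0), (nat_lit 2825001), [(nat_lit 1412501), (nat_lit 1271251), (nat_lit 1271251)], [(nat_lit 23), (nat_lit 62), (nat_lit 456), (nat_lit 225), (nat_lit 12)]⟩,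
 ⟨⟨[(nat_lit 120), (nat_lit 160), (nat_lit 180)], [(nat_lit 0), (nat_lit 533), (nat_lit 2066)], [((nat_lit 0), (nat_lit 0), (nat_lit 0)), ((nat_lit 960), (nat_lit 1000), (nat_lit 200)), ((nat_lit 615), (nat_lit 1000), (nat_lit 729))], ((nat_lit 100), (nat_lit 72), (nat_lit 63))⟩, (nat_lit 131123), (nat_lit 300), (nat_lit 1461), (nat_lit 3718400), (nat_lit 2261612), [(nat_lit 446208000), (nat_lit 664832000), (nat_lit 787248000)], [], [(nat_lit 3114129674), (nat_lit 3053664558), (nat_lit 2865322028), (nat_lit 2795009384), (nat_lit 3432421685), (nat_lit 2490557868), (nat_lit 4342887312), (nat_lit 3411160728)], (nat_lit 1271251), (nat_lit 1271251), (nat_lit 559688), (nat_lit 1429376), (nat_lit 0), (nat_lit 2825001), [(nat_lit 1695001), (nat_lit 1271251), (nat_lit 1271251)], [(nat_lit 28), (nat_lit 65), (nat_lit 471), (nat_lit 225), (nat_lit 11)]⟩⟩))))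
noncomputable def c13_20 : Tr Lf :=
 (.spl (nat_lit 5) (nat_lit 200) (.leaf ⟨(nat_lit 22), (nat_lit 0), (nat_lit 862), (nat_lit 116), (nat_lit 0), (nat_lit 4468), (nat_lit 1243), (nat_lit 10841), (nat_lit 0), (nat_lit 58772), (nat_lit 88000), [((nat_lit 400), [((nat_lit 43), (nat_lit 5), (nat_lit 22))])], ⟨(nat_lit 4), false, false, false, (nat_lit 174), (nat_lit 0), (nat_lit 2237), [(nat_lit 1316293), (nat_lit 1333360), (nat_lit 1381836), (nat_lit 1405580), (nat_lit 1477224), (nat_lit 1474999), (nat_lit 1543695), (nat_lit 1548146)]⟩, ⟨(nat_lit 5), true, false, true, (nat_lit 239), (nat_lit 0), (nat_lit 2237), [(nat_lit 1477224), (nat_lit 1474999), (nat_lit 1543695), (nat_lit 1548146), (nat_lit 1662517), (nat_lit 1637491), (nat_lit 1730844), (nat_lit 1712494)]⟩, (nat_lit 4957879), (nat_lit 41214721), (nat_lit 9689065), (nat_lit 16096214), (nat_lit 0), (nat_lit 4), [], [⟨(nat_lit 1), (nat_lit 93), (nat_lit 31), (nat_lit 100), (nat_lit 7445732)⟩],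 [], [⟨(nat_lit 0), (nat_lit 98), (nat_lit 100), (nat_lit 5), (nat_lit 103207364)⟩],
 ⟨⟨[(nat_lit 40), (nat_lit 60)], [(nat_lit 0), (nat_lit 1539)], [((nat_lit 0), (nat_lit 0), (nat_lit 0)), ((nat_lit 1000), (nat_lit 478), (nat_lit 704))], ((nat_lit 48), (nat_lit 100), (nat_lit 69))⟩, (nat_lit 0), (nat_lit 251), (nat_lit 251), (nat_lit 0), (nat_lit 621630), [(nat_lit 1823484008), (nat_lit 2838752800)], [(nat_lit 0), (nat_lit 0)], [(nat_lit 23666644970), (nat_lit 25288888829), (nat_lit 24949179956), (nat_lit 26039031492), (nat_lit 29116902434), (nat_lit 30583650656), (nat_lit 29339282816), (nat_lit 30596666417)], (nat_lit 1271251), (nat_lit 1271251), (nat_lit 559688), (nat_lit 1429376), (nat_lit 1271251), (nat_lit 1271251), [(nat_lit 490000), (nat_lit 780000)], [(nat_lit 1), (nat_lit 38), (nat_lit 260), (nat_lit 50), (nat_lit 13)]⟩,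
 ⟨⟨[(nat_lit 120), (nat_lit 160), (nat_lit 180)], [(nat_lit 0), (nat_lit 533), (nat_lit 2066)], [((nat_lit 0), (nat_lit 0), (nat_lit 0)), ((nat_lit 960), (nat_lit 1000), (nat_lit 200)), ((nat_lit 615), (nat_lit 1000), (nat_lit 729))], ((nat_lit 100), (nat_lit 72), (nat_lit 63))⟩, (nat_lit 1146988), (nat_lit 1920), (nat_lit 1920), (nat_lit 0), (nat_lit 3230518), [(nat_lit 924288000), (nat_lit 1377152000), (nat_lit 1630728000)], [], [(nat_lit 5086772155), (nat_lit 4139071644), (nat_lit 4882892293), (nat_lit 3831173734), (nat_lit 5053950716), (nat_lit 3240837269), (nat_lit 6501674003), (nat_lit 4755643400)], (nat_lit 1271251), (nat_lit 1271251), (nat_lit 559688), (nat_lit 1429376), (nat_lit 0), (nat_lit 1412501), [(nat_lit 1695001), (nat_lit 1271251), (nat_lit 1271251)], [(nat_lit 28), (nat_lit 65), (nat_lit 560), (nat_lit 175), (nat_lit 13)]⟩,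
 ⟨⟨[(nat_lit 120), (nat_lit 160), (nat_lit 180)], [(nat_lit 0), (nat_lit 533), (nat_lit 2066)], [((nat_lit 0), (nat_lit 0), (nat_lit 0)), ((nat_lit 960), (nat_lit 1000), (nat_lit 200)), ((nat_lit 615), (nat_lit 1000), (nat_lit 729))], ((nat_lit 100), (nat_lit 72), (nat_lit 63))⟩, (nat_lit 4155976), (nat_lit 300), (nat_lit 300), (nat_lit 0), (nat_lit 0), [(nat_lit 7792704000), (nat_lit 11610816000), (nat_lit 13748724000)], [], [(nat_lit 30236495130), (nat_lit 32103134794), (nat_lit 38438567690), (nat_lit 39539794064), (nat_lit 23020345656), (nat_lit 23990587421), (nat_lit 28623514393), (nat_lit 29306284794)], (nat_lit 0), (nat_lit 0), (nat_lit 0), (nat_lit 0), (nat_lit 0), (nat_lit 0), [], [(nat_lit 28), (nat_lit 65), (nat_lit 428), (nat_lit 200), (nat_lit 10)]⟩⟩) (.leaf ⟨(nat_lit 438), (nat_lit 0), (nat_lit 463), (nat_lit 99), (nat_lit 0), (nat_lit 3948), (nat_lit 985), (nat_lit 4672), (nat_lit 0), (nat_lit 93998977898), (nat_lit 262800), [((nat_lit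 400), [((nat_lit 43), (nat_lit 2), (nat_lit 438))])], ⟨(nat_lit 4), false, false, false, (nat_lit 174), (nat_lit 0), (nat_lit 2237), [(nat_lit 1316293), (nat_lit 1333360), (nat_lit 1381836), (nat_lit 1405580), (nat_lit 1477224), (nat_lit 1474999), (nat_lit 1543695), (nat_lit 1548146)]⟩, ⟨(nat_lit 5), true, false, true, (nat_lit 239), (nat_lit 0), (nat_lit 2237), [(nat_lit 1477224), (nat_lit 1474999), (nat_lit 1543695), (nat_lit 1548146), (nat_lit 1662517), (nat_lit 1637491), (nat_lit 1730844), (nat_lit 1712494)]⟩, (nat_lit 4957879), (nat_lit 41214721), (nat_lit 9689065), (nat_lit 16096214), (nat_lit 0), (nat_lit 5), [], [⟨(nat_lit 1), (nat_lit 93), (nat_lit 31), (nat_lit 100), (nat_lit 28968914)⟩], [], [],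
 ⟨⟨[(nat_lit 40), (nat_lit 60)], [(nat_lit 0), (nat_lit 1539)], [((nat_lit 0), (nat_lit 0), (nat_lit 0)), ((nat_lit 1000), (nat_lit 478), (nat_lit 704))], ((nat_lit 48), (nat_lit 100), (nat_lit 69))⟩, (nat_lit 144053), (nat_lit 251), (nat_lit 251), (nat_lit 0), (nat_lit 621630), [(nat_lit 1620172004), (nat_lit 1567142400)], [(nat_lit 0), (nat_lit 0)], [(nat_lit 22971060475), (nat_lit 24563419019), (nat_lit 24439767325), (nat_lit 25517887244), (nat_lit 28303405286), (nat_lit 29680205483), (nat_lit 28769291771), (nat_lit 29954674287)], (nat_lit 1271251), (nat_lit 1271251), (nat_lit 559688), (nat_lit 1429376), (nat_lit 1271251), (nat_lit 1271251), [(nat_lit 490000), (nat_lit 780000)], [(nat_lit 1), (nat_lit 38), (nat_lit 260), (nat_lit 50), (nat_lit 13)]⟩,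
 ⟨⟨[(nat_lit 120), (nat_lit 160), (nat_lit 180)], [(nat_lit 0), (nat_lit 533), (nat_lit 2066)], [((nat_lit 0), (nat_lit 0), (nat_lit 0)), ((nat_lit 960), (nat_lit 1000), (nat_lit 200)), ((nat_lit 615), (nat_lit 1000), (nat_lit 729))], ((nat_lit 100), (nat_lit 72), (nat_lit 63))⟩, (nat_lit 1849465), (nat_lit 1809), (nat_lit 1809), (nat_lit 0), (nat_lit 3230518), [(nat_lit 788832000), (nat_lit 1175328000), (nat_lit 1391742000)], [], [(nat_lit 3714404266), (nat_lit 3578308269), (nat_lit 4851311629), (nat_lit 3467691240), (nat_lit 3384406647), (nat_lit 3361063487), (nat_lit 3083878090), (nat_lit 3197159690)], (nat_lit 1271251), (nat_lit 1271251), (nat_lit 559688), (nat_lit 1429376), (nat_lit 1271251), (nat_lit 1271251), [(nat_lit 1695001), (nat_lit 1271251), (nat_lit 1271251)], [(nat_lit 28), (nat_lit 65), (nat_lit 558), (nat_lit 225), (nat_lit 13)]⟩,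
 ⟨⟨[(nat_lit 120), (nat_lit 160), (nat_lit 180)], [(nat_lit 0), (nat_lit 533), (nat_lit 2066)], [((nat_lit 0), (nat_lit 0), (nat_lit 0)), ((nat_lit 960), (nat_lit 1000), (nat_lit 200)), ((nat_lit 615), (nat_lit 1000), (nat_lit 729))], ((nat_lit 100), (nat_lit 72), (nat_lit 63))⟩, (nat_lit 37515), (nat_lit 141), (nat_lit 141), (nat_lit 0), (nat_lit 0), [(nat_lit 4478016000), (nat_lit 6672064000), (nat_lit 7900596000)], [], [(nat_lit 8919468237), (nat_lit 10447321302), (nat_lit 13881288003), (nat_lit 14707626770), (nat_lit 17520892619), (nat_lit 17928116192), (nat_lit 19796343065), (nat_lit 19997147610)], (nat_lit 0), (nat_lit 0), (nat_lit 0), (nat_lit 0), (nat_lit 0), (nat_lit 0), [], [(nat_lit 28), (nat_lit 65), (nat_lit 483), (nat_lit 250), (nat_lit 11)]⟩⟩))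
noncomputable def c13_21 : Tr Lf :=
 (.spl (nat_lit 2) (nat_lit 220) (.trX (nat_lit 4) (nat_lit 0) (nat_lit 2) (nat_lit 44) (nat_lit 86) (nat_lit 100) (nat_lit 310) (.stt (nat_lit 1) (.spl (nat_lit 1) (nat_lit 220) (.leaf ⟨(nat_lit 984), (nat_lit 0), (nat_lit 0), (nat_lit 16), (nat_lit 0), (nat_lit 3097), (nat_lit 268), (nat_lit 198), (nat_lit 0), (nat_lit 2500120225182), (nat_lit 246000), [((nat_lit 400), [((nat_lit 28), (nat_lit 0), (nat_lit 984))])], ⟨(nat_lit 4), false, false, false, (nat_lit 169), (nat_lit 0), (nat_lit 2237), [(nat_lit 1316293), (nat_lit 1333360), (nat_lit 1359989), (nat_lit 1381507), (nat_lit 1477224), (nat_lit 1474999), (nat_lit 1521847), (nat_lit 1524073)]⟩, ⟨(nat_lit 5), false, true, true, (nat_lit 229), (nat_lit 0), (nat_lit 2237), [(nat_lit 1477224), (nat_lit 1474999), (nat_lit 1521847), (nat_lit 1524073), (nat_lit 1634011), (nat_lit 1612493), (nat_lit 1679562), (nat_lit 1662495)]⟩, (nat_lit 4860046), (nat_lit 42295971),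 (nat_lit 9440391), (nat_lit 15263638), (nat_lit 0), (nat_lit 0), [], [⟨(nat_lit 1), (nat_lit 86), (nat_lit 44), (nat_lit 100), (nat_lit 292967518)⟩], [⟨(nat_lit 0), (nat_lit 100), (nat_lit 100), (nat_lit 20), (nat_lit 238403)⟩], [⟨(nat_lit 0), (nat_lit 84), (nat_lit 100), (nat_lit 55), (nat_lit 593390)⟩],
 ⟨⟨[(nat_lit 40), (nat_lit 60)], [(nat_lit 0), (nat_lit 1539)], [((nat_lit 0), (nat_lit 0), (nat_lit 0)), ((nat_lit 1000), (nat_lit 478), (nat_lit 704))], ((nat_lit 48), (nat_lit 100), (nat_lit 69))⟩, (nat_lit 0), (nat_lit 83), (nat_lit 83), (nat_lit 0), (nat_lit 0), [(nat_lit 1566956837), (nat_lit 1081776000)], [(nat_lit 0), (nat_lit 0)], [(nat_lit 21983777228), (nat_lit 23435242581), (nat_lit 23687340543), (nat_lit 24932357269), (nat_lit 25995939130), (nat_lit 27288687860), (nat_lit 27173863745), (nat_lit 28184271655)], (nat_lit 0), (nat_lit 0), (nat_lit 0), (nat_lit 0), (nat_lit 0), (nat_lit 0), [], [(nat_lit 1), (nat_lit 38), (nat_lit 260),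 (nat_lit 50), (nat_lit 13)]⟩,
 ⟨⟨[(nat_lit 120), (nat_lit 160), (nat_lit 180)], [(nat_lit 0), (nat_lit 533), (nat_lit 2066)], [((nat_lit 0), (nat_lit 0), (nat_lit 0)), ((nat_lit 960), (nat_lit 1000), (nat_lit 200)), ((nat_lit 615), (nat_lit 1000), (nat_lit 729))], ((nat_lit 100), (nat_lit 72), (nat_lit 63))⟩, (nat_lit 76556), (nat_lit 1455), (nat_lit 1455), (nat_lit 0), (nat_lit 2247957), [(nat_lit 127488000), (nat_lit 189952000), (nat_lit 224928000)], [], [(nat_lit 772945527), (nat_lit 605489567), (nat_lit 706979330), (nat_lit 549381118), (nat_lit 1059143670), (nat_lit 815618569), (nat_lit 1385701552), (nat_lit 1150576576)], (nat_lit 1271251), (nat_lit 1271251), (nat_lit 559688), (nat_lit 1429376), (nat_lit 0), (nat_lit 2825001), [(nat_lit 1695001), (nat_lit 1271251), (nat_lit 1271251)], [(nat_lit 28), (nat_lit 65), (nat_lit 467), (nat_lit 225), (nat_lit 11)]⟩,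
 ⟨⟨[(nat_lit 120), (nat_lit 160), (nat_lit 180)], [(nat_lit 0), (nat_lit 533), (nat_lit 2066)], [((nat_lit 0), (nat_lit 0), (nat_lit 0)), ((nat_lit 960), (nat_lit 1000), (nat_lit 200)), ((nat_lit 615), (nat_lit 1000), (nat_lit 729))], ((nat_lit 100), (nat_lit 72), (nat_lit 63))⟩, (nat_lit 30789), (nat_lit 300), (nat_lit 1785), (nat_lit 1084635), (nat_lit 3073250), [(nat_lit 127488000), (nat_lit 189952000), (nat_lit 224928000)], [], [(nat_lit 837112768), (nat_lit 824242192), (nat_lit 829036988), (nat_lit 813079433), (nat_lit 1096021472), (nat_lit 922309736), (nat_lit 654143050), (nat_lit 635542756)], (nat_lit 1271251), (nat_lit 1271251), (nat_lit 1271251), (nat_lit 1271251), (nat_lit 0), (nat_lit 2825001), [(nat_lit 1695001), (nat_lit 1271251), (nat_lit 1271251)], [(nat_lit 28), (nat_lit 65), (nat_lit 563), (nat_lit 250), (nat_lit 13)]⟩⟩) (.trZ (nat_lit 0) (nat_lit 1) (nat_lit 3) (nat_lit 100) (nat_lit 44) (nat_lit 94) (nat_lit 130) (.leaf ⟨(nat_lit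 970), (nat_lit 0), (nat_lit 0), (nat_lit 30), (nat_lit 0), (nat_lit 3167), (nat_lit 472), (nat_lit 325), (nat_lit 0), (nat_lit 0), (nat_lit 242500), [((nat_lit 400), [((nat_lit 28), (nat_lit 0), (nat_lit 970))])], ⟨(nat_lit 5), false, false, false, (nat_lit 194), (nat_lit 0), (nat_lit 2237), [(nat_lit 1418846), (nat_lit 1433349), (nat_lit 1440694), (nat_lit 1457423), (nat_lit 1521847), (nat_lit 1524073), (nat_lit 1543695), (nat_lit 1548146)]⟩, ⟨(nat_lit 5), false, true, true, (nat_lit 229), (nat_lit 0), (nat_lit 2237), [(nat_lit 1477224), (nat_lit 1474999), (nat_lit 1521847), (nat_lit 1524073), (nat_lit 1634011), (nat_lit 1612493), (nat_lit 1679562), (nat_lit 1662495)]⟩, (nat_lit 5063384), (nat_lit 40678293), (nat_lit 11434205), (nat_lit 14887502), (nat_lit 0), (nat_lit 0), [⟨(nat_lit 0), (nat_lit 100), (nat_lit 44), (nat_lit 94), (nat_lit 8009524)⟩], [⟨(nat_lit 1), (nat_lit 86), (nat_lit 44), (nat_lit 100), (nat_lit 278740067)⟩], [⟨(nat_lit 0),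 (nat_lit 100), (nat_lit 98), (nat_lit 30), (nat_lit 10872985)⟩], [],
 ⟨⟨[(nat_lit 40), (nat_lit 60)], [(nat_lit 0), (nat_lit 1539)], [((nat_lit 0), (nat_lit 0), (nat_lit 0)), ((nat_lit 1000), (nat_lit 478), (nat_lit 704))], ((nat_lit 48), (nat_lit 100), (nat_lit 69))⟩, (nat_lit 0), (nat_lit 73), (nat_lit 73), (nat_lit 0), (nat_lit 0), [(nat_lit 1570244001), (nat_lit 1113080000)], [(nat_lit 0), (nat_lit 0)], [(nat_lit 22339373000), (nat_lit 23734763982), (nat_lit 23633614106), (nat_lit 24891446047), (nat_lit 26202685645), (nat_lit 27448962743), (nat_lit 27134337350), (nat_lit 28183966072)], (nat_lit 0), (nat_lit 0), (nat_lit 0), (nat_lit 0), (nat_lit 0), (nat_lit 0), [], [(nat_lit 1), (nat_lit 38), (nat_lit 203), (nat_lit 0), (nat_lit 9)]⟩,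
 ⟨⟨[(nat_lit 100), (nat_lit 140), (nat_lit 160)], [(nat_lit 0), (nat_lit 508), (nat_lit 1689)], [((nat_lit 0), (nat_lit 0), (nat_lit 0)), ((nat_lit 1000), (nat_lit 1000), (nat_lit 198)), ((nat_lit 811), (nat_lit 1000), (nat_lit 671))], ((nat_lit 100), (nat_lit 84), (nat_lit 63))⟩, (nat_lit 0), (nat_lit 1030), (nat_lit 1030), (nat_lit 0), (nat_lit 1559893), [(nat_lit 187500000), (nat_lit 295260000), (nat_lit 356160000)], [], [(nat_lit 1325655487), (nat_lit 1075483962), (nat_lit 1040296978), (nat_lit 1051675612), (nat_lit 1310747856), (nat_lit 1183602865), (nat_lit 1727850388), (nat_lit 1515459120)], (nat_lit 1271251), (nat_lit 1271251), (nat_lit 857188), (nat_lit 1436876), (nat_lit 0), (nat_lit 2825001), [(nat_lit 1412501), (nat_lit 1271251), (nat_lit 1271251)], [(nat_lit 23), (nat_lit 62), (nat_lit 456), (nat_lit 225), (nat_lit 12)]⟩,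
 ⟨⟨[(nat_lit 120), (nat_lit 160), (nat_lit 180)], [(nat_lit 0), (nat_lit 533), (nat_lit 2066)], [((nat_lit 0), (nat_lit 0), (nat_lit 0)), ((nat_lit 960), (nat_lit 1000), (nat_lit 200)), ((nat_lit 615), (nat_lit 1000), (nat_lit 729))], ((nat_lit 100), (nat_lit 72), (nat_lit 63))⟩, (nat_lit 70244), (nat_lit 300), (nat_lit 1857), (nat_lit 1992000), (nat_lit 3212138), [(nat_lit 239040000), (nat_lit 356160000), (nat_lit 421740000)], [], [(nat_lit 1658337218), (nat_lit 1629569433), (nat_lit 1614003015), (nat_lit 1586325977), (nat_lit 1982328600), (nat_lit 1697195700), (nat_lit 1288930475), (nat_lit 1260809320)], (nat_lit 1271251), (nat_lit 1271251), (nat_lit 1271251), (nat_lit 1271251), (nat_lit 0), (nat_lit 2825001), [(nat_lit 1695001), (nat_lit 1271251), (nat_lit 1271251)], [(nat_lit 28), (nat_lit 65), (nat_lit 581), (nat_lit 250), (nat_lit 13)]⟩⟩))) (.stt (nat_lit 2) (.spl (nat_lit 0) (nat_lit 390) (.leaf ⟨(nat_lit 805), (nat_lit 93), (nat_lit 0),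 (nat_lit 102), (nat_lit 0), (nat_lit 3456), (nat_lit 2510), (nat_lit 1243), (nat_lit 0), (nat_lit 877), (nat_lit 213700), [((nat_lit 390), [((nat_lit 28), (nat_lit 0), (nat_lit 722)), ((nat_lit 28), (nat_lit 1), (nat_lit 83))])], ⟨(nat_lit 4), true, false, false, (nat_lit 174), (nat_lit 1581), (nat_lit 2237), [(nat_lit 1320243), (nat_lit 1326247), (nat_lit 1388429), (nat_lit 1396055), (nat_lit 1477224), (nat_lit 1476683), (nat_lit 1545457), (nat_lit 1546538)]⟩, ⟨(nat_lit 5), false, true, true, (nat_lit 231), (nat_lit 1581), (nat_lit 2237), [(nat_lit 1477224), (nat_lit 1476683), (nat_lit 1522729), (nat_lit 1523269), (nat_lit 1634017), (nat_lit 1626932), (nat_lit 1679566), (nat_lit 1673562)]⟩, (nat_lit 4906591), (nat_lit 41907009), (nat_lit 9770543), (nat_lit 15322448), (nat_lit 5), (nat_lit 0), [⟨(nat_lit 0), (nat_lit 100), (nat_lit 38), (nat_lit 94), (nat_lit 239502119)⟩], [⟨(nat_lit 1), (nat_lit 93), (nat_lit 38), (nat_lit 100), (nat_lit 155896507)⟩,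 ⟨(nat_lit 1), (nat_lit 86), (nat_lit 44), (nat_lit 100), (nat_lit 62347446)⟩], [⟨(nat_lit 0), (nat_lit 100), (nat_lit 100), (nat_lit 5), (nat_lit 13531367)⟩], [],
 ⟨⟨[(nat_lit 40), (nat_lit 60)], [(nat_lit 0), (nat_lit 1539)], [((nat_lit 0), (nat_lit 0), (nat_lit 0)), ((nat_lit 1000), (nat_lit 478), (nat_lit 704))], ((nat_lit 48), (nat_lit 100), (nat_lit 69))⟩, (nat_lit 0), (nat_lit 184), (nat_lit 184), (nat_lit 0), (nat_lit 409977), [(nat_lit 1595042001), (nat_lit 1422160400)], [(nat_lit 0), (nat_lit 0)], [(nat_lit 22800792368), (nat_lit 23442497827), (nat_lit 24375884596), (nat_lit 24953494380), (nat_lit 26519050413), (nat_lit 27197534734), (nat_lit 27635968618), (nat_lit 28107221780)], (nat_lit 1271251), (nat_lit 1271251), (nat_lit 559688), (nat_lit 1429376), (nat_lit 1271251), (nat_lit 1271251), [(nat_lit 490000), (nat_lit 780000)], [(nat_lit 1), (nat_lit 38), (nat_lit 260), (nat_lit 50), (nat_lit 13)]⟩,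
 ⟨⟨[(nat_lit 120), (nat_lit 160), (nat_lit 180)], [(nat_lit 0), (nat_lit 533), (nat_lit 2066)], [((nat_lit 0), (nat_lit 0), (nat_lit 0)), ((nat_lit 960), (nat_lit 1000), (nat_lit 200)), ((nat_lit 615), (nat_lit 1000), (nat_lit 729))], ((nat_lit 100), (nat_lit 72), (nat_lit 63))⟩, (nat_lit 1226616), (nat_lit 386), (nat_lit 386), (nat_lit 0), (nat_lit 0), [(nat_lit 1553760000), (nat_lit 2315040000), (nat_lit 2741310000)], [], [(nat_lit 5571011914), (nat_lit 6076679340), (nat_lit 5506686012), (nat_lit 6045165822), (nat_lit 7357346358), (nat_lit 7411939998), (nat_lit 6674201045), (nat_lit 6854338420)], (nat_lit 0), (nat_lit 0), (nat_lit 0), (nat_lit 0), (nat_lit 0), (nat_lit 0), [], [(nat_lit 28), (nat_lit 65), (nat_lit 456), (nat_lit 225), (nat_lit 11)]⟩,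
 ⟨⟨[(nat_lit 120), (nat_lit 160), (nat_lit 180)], [(nat_lit 0), (nat_lit 533), (nat_lit 2066)], [((nat_lit 0), (nat_lit 0), (nat_lit 0)), ((nat_lit 960), (nat_lit 1000), (nat_lit 200)), ((nat_lit 615), (nat_lit 1000), (nat_lit 729))], ((nat_lit 100), (nat_lit 72), (nat_lit 63))⟩, (nat_lit 238829), (nat_lit 300), (nat_lit 1026), (nat_lit 6772801), (nat_lit 1443154), [(nat_lit 812736000), (nat_lit 1210944000), (nat_lit 1433916000)], [], [(nat_lit 5288987703), (nat_lit 5209283817), (nat_lit 5241469740), (nat_lit 5139414406), (nat_lit 6956873112), (nat_lit 5866349436), (nat_lit 4151356805), (nat_lit 4035591220)], (nat_lit 1271251), (nat_lit 1271251), (nat_lit 1271251), (nat_lit 1271251), (nat_lit 0), (nat_lit 2825001), [(nat_lit 1695001), (nat_lit 1271251), (nat_lit 1271251)], [(nat_lit 28), (nat_lit 65), (nat_lit 483), (nat_lit 250), (nat_lit 11)]⟩⟩) (.trZ (nat_lit 0) (nat_lit 1) (nat_lit 3) (nat_lit 100) (nat_lit 31) (nat_lit 92) (nat_lit 110) (.trX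 (nat_lit 4) (nat_lit 0) (nat_lit 2) (nat_lit 31) (nat_lit 92) (nat_lit 100) (nat_lit 290) (.leaf ⟨(nat_lit 714), (nat_lit 180), (nat_lit 0), (nat_lit 106), (nat_lit 0), (nat_lit 3660), (nat_lit 3498), (nat_lit 1220), (nat_lit 0), (nat_lit 2905423627956), (nat_lit 201000), [((nat_lit 400), [((nat_lit 28), (nat_lit 0), (nat_lit 564)), ((nat_lit 28), (nat_lit 1), (nat_lit 150))])], ⟨(nat_lit 4), true, false, false, (nat_lit 181), (nat_lit 0), (nat_lit 1582), [(nat_lit 1351461), (nat_lit 1360206), (nat_lit 1419436), (nat_lit 1433236), (nat_lit 1476683), (nat_lit 1474999), (nat_lit 1545316), (nat_lit 1548686)]⟩, ⟨(nat_lit 5), false, true, true, (nat_lit 223), (nat_lit 0), (nat_lit 1582), [(nat_lit 1476683), (nat_lit 1474999), (nat_lit 1522658), (nat_lit 1524343), (nat_lit 1599609), (nat_lit 1587494), (nat_lit 1646241), (nat_lit 1637496)]⟩, (nat_lit 4918526), (nat_lit 42034379), (nat_lit 10383267), (nat_lit 14582354), (nat_lit 5), (nat_lit 0), [⟨(nat_lit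 0), (nat_lit 100), (nat_lit 31), (nat_lit 92), (nat_lit 421282315)⟩], [⟨(nat_lit 1), (nat_lit 92), (nat_lit 31), (nat_lit 100), (nat_lit 275723708)⟩], [], [],
 ⟨⟨[(nat_lit 40), (nat_lit 60)], [(nat_lit 0), (nat_lit 2136)], [((nat_lit 0), (nat_lit 0), (nat_lit 0)), ((nat_lit 1000), (nat_lit 343), (nat_lit 808))], ((nat_lit 37), (nat_lit 100), (nat_lit 75))⟩, (nat_lit 0), (nat_lit 187), (nat_lit 187), (nat_lit 0), (nat_lit 442126), [(nat_lit 1605152920), (nat_lit 1577316000)], [(nat_lit 0), (nat_lit 0)], [(nat_lit 23992421207), (nat_lit 24594273210), (nat_lit 25237544750), (nat_lit 25768246160), (nat_lit 26620091238), (nat_lit 27337503807), (nat_lit 27546573100), (nat_lit 28018799725)], (nat_lit 1271251), (nat_lit 1271251), (nat_lit 704688), (nat_lit 1433125), (nat_lit 1271251), (nat_lit 1271251), [(nat_lit 490000), (nat_lit 780000)], [(nat_lit 1), (nat_lit 38), (nat_lit 260), (nat_lit 50), (nat_lit 13)]⟩,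
 ⟨⟨[(nat_lit 120), (nat_lit 160), (nat_lit 180)], [(nat_lit 0), (nat_lit 533), (nat_lit 2066)], [((nat_lit 0), (nat_lit 0), (nat_lit 0)), ((nat_lit 960), (nat_lit 1000), (nat_lit 200)), ((nat_lit 615), (nat_lit 1000), (nat_lit 729))], ((nat_lit 100), (nat_lit 72), (nat_lit 63))⟩, (nat_lit 1572849), (nat_lit 373), (nat_lit 373), (nat_lit 0), (nat_lit 0), [(nat_lit 2278848000), (nat_lit 3395392000), (nat_lit 4020588000)], [], [(nat_lit 8301598460), (nat_lit 9017186712), (nat_lit 8360088590), (nat_lit 8947734803), (nat_lit 10603122463), (nat_lit 10621357281), (nat_lit 9938543171), (nat_lit 9879390275)], (nat_lit 0), (nat_lit 0), (nat_lit 0), (nat_lit 0), (nat_lit 0), (nat_lit 0), [], [(nat_lit 28), (nat_lit 65), (nat_lit 456), (nat_lit 225), (nat_lit 11)]⟩,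
 ⟨⟨[(nat_lit 120), (nat_lit 160), (nat_lit 180)], [(nat_lit 0), (nat_lit 533), (nat_lit 2066)], [((nat_lit 0), (nat_lit 0), (nat_lit 0)), ((nat_lit 960), (nat_lit 1000), (nat_lit 200)), ((nat_lit 615), (nat_lit 1000), (nat_lit 729))], ((nat_lit 100), (nat_lit 72), (nat_lit 63))⟩, (nat_lit 248195), (nat_lit 300), (nat_lit 1112), (nat_lit 7038401), (nat_lit 1620265), [(nat_lit 844608000), (nat_lit 1258432000), (nat_lit 1490148000)], [], [(nat_lit 5644741936), (nat_lit 5532764224), (nat_lit 5559308296), (nat_lit 5467009800), (nat_lit 7116898040), (nat_lit 6046553000), (nat_lit 4726675260), (nat_lit 4327394422)], (nat_lit 1271251), (nat_lit 1271251), (nat_lit 1271251), (nat_lit 1271251), (nat_lit 0), (nat_lit 2825001), [(nat_lit 1695001), (nat_lit 1271251), (nat_lit 1271251)], [(nat_lit 28), (nat_lit 65), (nat_lit 483), (nat_lit 250), (nat_lit 11)]⟩⟩)))) (.leaf ⟨(nat_lit 876), (nat_lit 0), (nat_lit 0), (nat_lit 124), (nat_lit 0), (nat_lit 3453), (nat_lit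 1617), (nat_lit 1654), (nat_lit 0), (nat_lit 1678457699325), (nat_lit 219000), [((nat_lit 400), [((nat_lit 28), (nat_lit 0), (nat_lit 876))])], ⟨(nat_lit 4), false, false, false, (nat_lit 174), (nat_lit 0), (nat_lit 2237), [(nat_lit 1316293), (nat_lit 1333360), (nat_lit 1381836), (nat_lit 1405580), (nat_lit 1477224), (nat_lit 1474999), (nat_lit 1543695), (nat_lit 1548146)]⟩, ⟨(nat_lit 5), false, true, true, (nat_lit 229), (nat_lit 0), (nat_lit 2237), [(nat_lit 1477224), (nat_lit 1474999), (nat_lit 1521847), (nat_lit 1524073), (nat_lit 1634011), (nat_lit 1612493), (nat_lit 1679562), (nat_lit 1662495)]⟩, (nat_lit 4900222), (nat_lit 42000276), (nat_lit 9802518), (nat_lit 15197206), (nat_lit 0), (nat_lit 0), [⟨(nat_lit 0), (nat_lit 100), (nat_lit 31), (nat_lit 97), (nat_lit 162108154)⟩, ⟨(nat_lit 0), (nat_lit 100), (nat_lit 44), (nat_lit 86), (nat_lit 72280391)⟩], [⟨(nat_lit 1), (nat_lit 86), (nat_lit 44), (nat_lit 100), (nat_lit 124815622)⟩], [], [],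
 ⟨⟨[(nat_lit 40), (nat_lit 60)], [(nat_lit 0), (nat_lit 1539)], [((nat_lit 0), (nat_lit 0), (nat_lit 0)), ((nat_lit 1000), (nat_lit 478), (nat_lit 704))], ((nat_lit 48), (nat_lit 100), (nat_lit 69))⟩, (nat_lit 0), (nat_lit 143), (nat_lit 143), (nat_lit 0), (nat_lit 249304), [(nat_lit 1592315203), (nat_lit 1323264000)], [(nat_lit 0), (nat_lit 0)], [(nat_lit 22731635344), (nat_lit 24076620319), (nat_lit 24371650340), (nat_lit 25526407392), (nat_lit 26513377982), (nat_lit 27872631256), (nat_lit 27631233094), (nat_lit 28573408831)], (nat_lit 1271251), (nat_lit 1271251), (nat_lit 559688), (nat_lit 1429376), (nat_lit 1271251), (nat_lit 1271251), [(nat_lit 490000), (nat_lit 780000)], [(nat_lit 1), (nat_lit 38), (nat_lit 260), (nat_lit 50), (nat_lit 13)]⟩,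
 ⟨⟨[(nat_lit 120), (nat_lit 160), (nat_lit 180)], [(nat_lit 0), (nat_lit 533), (nat_lit 2066)], [((nat_lit 0), (nat_lit 0), (nat_lit 0)), ((nat_lit 960), (nat_lit 1000), (nat_lit 200)), ((nat_lit 615), (nat_lit 1000), (nat_lit 729))], ((nat_lit 100), (nat_lit 72), (nat_lit 63))⟩, (nat_lit 352253), (nat_lit 739), (nat_lit 739), (nat_lit 0), (nat_lit 662937), [(nat_lit 988032000), (nat_lit 1472128000), (nat_lit 1743192000)], [], [(nat_lit 5650530488), (nat_lit 5420026812), (nat_lit 5319596078), (nat_lit 4980728183), (nat_lit 7659201122), (nat_lit 5455208090), (nat_lit 9725050788), (nat_lit 7597082022)], (nat_lit 1271251), (nat_lit 1271251), (nat_lit 559688), (nat_lit 1429376), (nat_lit 0), (nat_lit 2825001), [(nat_lit 1695001), (nat_lit 1271251), (nat_lit 1271251)], [(nat_lit 28), (nat_lit 65), (nat_lit 456), (nat_lit 225), (nat_lit 11)]⟩,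
 ⟨⟨[(nat_lit 120), (nat_lit 160), (nat_lit 180)], [(nat_lit 0), (nat_lit 533), (nat_lit 2066)], [((nat_lit 0), (nat_lit 0), (nat_lit 0)), ((nat_lit 960), (nat_lit 1000), (nat_lit 200)), ((nat_lit 615), (nat_lit 1000), (nat_lit 729))], ((nat_lit 100), (nat_lit 72), (nat_lit 63))⟩, (nat_lit 290341), (nat_lit 300), (nat_lit 666), (nat_lit 8233602), (nat_lit 663610), [(nat_lit 988032000), (nat_lit 1472128000), (nat_lit 1743192000)], [], [(nat_lit 6214935094), (nat_lit 6100624426), (nat_lit 6271416908), (nat_lit 6195491304), (nat_lit 8682037616), (nat_lit 7230930488), (nat_lit 4958480129), (nat_lit 4956937915)], (nat_lit 1271251), (nat_lit 1271251), (nat_lit 1271251), (nat_lit 1271251), (nat_lit 0), (nat_lit 2825001), [(nat_lit 1695001), (nat_lit 1271251), (nat_lit 1271251)], [(nat_lit 28), (nat_lit 65), (nat_lit 483), (nat_lit 250), (nat_lit 11)]⟩⟩)))) (.ord (.trZ (nat_lit 0) (nat_lit 1) (nat_lit 3) (nat_lit 100) (nat_lit 44) (nat_lit 94) (nat_lit 130)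 (.stt (nat_lit 2) (.leaf ⟨(nat_lit 22), (nat_lit 640), (nat_lit 0), (nat_lit 338), (nat_lit 0), (nat_lit 4135), (nat_lit 8755), (nat_lit 3100), (nat_lit 0), (nat_lit 13449093128597), (nat_lit 88000), [((nat_lit 400), [((nat_lit 43), (nat_lit 5), (nat_lit 22))])], ⟨(nat_lit 5), true, false, false, (nat_lit 194), (nat_lit 0), (nat_lit 2237), [(nat_lit 1418846), (nat_lit 1433349), (nat_lit 1440694), (nat_lit 1457423), (nat_lit 1521847), (nat_lit 1524073), (nat_lit 1543695), (nat_lit 1548146)]⟩, ⟨(nat_lit 5), false, true, true, (nat_lit 249), (nat_lit 0), (nat_lit 2237), [(nat_lit 1521847), (nat_lit 1524073), (nat_lit 1543695), (nat_lit 1548146), (nat_lit 1708068), (nat_lit 1687494), (nat_lit 1730844), (nat_lit 1712494)]⟩, (nat_lit 5165071), (nat_lit 39247323), (nat_lit 11165474), (nat_lit 16587203), (nat_lit 5), (nat_lit 0), [⟨(nat_lit 0), (nat_lit 100), (nat_lit 32), (nat_lit 100), (nat_lit 1304165205)⟩], [⟨(nat_lit 1), (nat_lit 90), (nat_lit 32),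 (nat_lit 100), (nat_lit 276525609)⟩], [], [],
 ⟨⟨[(nat_lit 40), (nat_lit 60)], [(nat_lit 0), (nat_lit 1539)], [((nat_lit 0), (nat_lit 0), (nat_lit 0)), ((nat_lit 1000), (nat_lit 478), (nat_lit 704))], ((nat_lit 48), (nat_lit 100), (nat_lit 69))⟩, (nat_lit 711291), (nat_lit 186), (nat_lit 186), (nat_lit 0), (nat_lit 430956), [(nat_lit 1823484064), (nat_lit 2838752800)], [(nat_lit 0), (nat_lit 0)], [(nat_lit 23238658459), (nat_lit 24809504619), (nat_lit 24326553655), (nat_lit 25705271155), (nat_lit 28437299744), (nat_lit 29780370060), (nat_lit 28974269320), (nat_lit 30185544534)], (nat_lit 1271251), (nat_lit 1271251), (nat_lit 857188), (nat_lit 1436876), (nat_lit 1271251), (nat_lit 1271251), [(nat_lit 490000), (nat_lit 780000)], [(nat_lit 1), (nat_lit 38), (nat_lit 203), (nat_lit 0), (nat_lit 9)]⟩,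
 ⟨⟨[(nat_lit 100), (nat_lit 140), (nat_lit 160)], [(nat_lit 0), (nat_lit 508), (nat_lit 1689)], [((nat_lit 0), (nat_lit 0), (nat_lit 0)), ((nat_lit 1000), (nat_lit 1000), (nat_lit 198)), ((nat_lit 811), (nat_lit 1000), (nat_lit 671))], ((nat_lit 100), (nat_lit 84), (nat_lit 63))⟩, (nat_lit 7942800), (nat_lit 204), (nat_lit 204), (nat_lit 0), (nat_lit 0), [(nat_lit 6112500000), (nat_lit 9625476000), (nat_lit 11610816000)], [], [(nat_lit 21525868880), (nat_lit 22451962395), (nat_lit 22911029199), (nat_lit 23680813902), (nat_lit 30318111468), (nat_lit 30791142735), (nat_lit 30245508481), (nat_lit 30630620150)], (nat_lit 0), (nat_lit 0), (nat_lit 0), (nat_lit 0), (nat_lit 0), (nat_lit 0), [], [(nat_lit 23), (nat_lit 62), (nat_lit 456), (nat_lit 225), (nat_lit 12)]⟩,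
 ⟨⟨[(nat_lit 100), (nat_lit 140), (nat_lit 160)], [(nat_lit 0), (nat_lit 508), (nat_lit 1689)], [((nat_lit 0), (nat_lit 0), (nat_lit 0)), ((nat_lit 1000), (nat_lit 1000), (nat_lit 198)), ((nat_lit 811), (nat_lit 1000), (nat_lit 671))], ((nat_lit 100), (nat_lit 84), (nat_lit 63))⟩, (nat_lit 726567), (nat_lit 300), (nat_lit 1265), (nat_lit 21125000), (nat_lit 2150309), [(nat_lit 2112500000), (nat_lit 3326596000), (nat_lit 4012736000)], [], [(nat_lit 17928990319), (nat_lit 17780821564), (nat_lit 17238478827), (nat_lit 17079986225), (nat_lit 15274773930), (nat_lit 14344344856), (nat_lit 13719772541), (nat_lit 13573365601)], (nat_lit 1271251), (nat_lit 1271251), (nat_lit 1271251), (nat_lit 1271251), (nat_lit 0), (nat_lit 2825001), [(nat_lit 1412501), (nat_lit 1271251), (nat_lit 1271251)], [(nat_lit 23), (nat_lit 62), (nat_lit 483), (nat_lit 250), (nat_lit 12)]⟩⟩) (.leaf ⟨(nat_lit 920), (nat_lit 0), (nat_lit 0), (nat_lit 80), (nat_lit 0), (nat_lit 3296),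 (nat_lit 731), (nat_lit 829), (nat_lit 0), (nat_lit 503388888864), (nat_lit 230000), [((nat_lit 400), [((nat_lit 28), (nat_lit 0), (nat_lit 920))])], ⟨(nat_lit 5), false, false, false, (nat_lit 194), (nat_lit 0), (nat_lit 2237), [(nat_lit 1418846), (nat_lit 1433349), (nat_lit 1440694), (nat_lit 1457423), (nat_lit 1521847), (nat_lit 1524073), (nat_lit 1543695), (nat_lit 1548146)]⟩, ⟨(nat_lit 5), false, true, true, (nat_lit 249), (nat_lit 0), (nat_lit 2237), [(nat_lit 1521847), (nat_lit 1524073), (nat_lit 1543695), (nat_lit 1548146), (nat_lit 1708068), (nat_lit 1687494), (nat_lit 1730844), (nat_lit 1712494)]⟩, (nat_lit 5165071), (nat_lit 39247323), (nat_lit 11165474), (nat_lit 16587203), (nat_lit 0), (nat_lit 0), [⟨(nat_lit 0), (nat_lit 100), (nat_lit 32), (nat_lit 100), (nat_lit 84847421)⟩], [⟨(nat_lit 1), (nat_lit 90), (nat_lit 32), (nat_lit 100), (nat_lit 93808805)⟩, ⟨(nat_lit 1), (nat_lit 81), (nat_lit 44), (nat_lit 100), (nat_lit 124328894)⟩],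 [⟨(nat_lit 0), (nat_lit 100), (nat_lit 100), (nat_lit 30), (nat_lit 32338180)⟩], [],
 ⟨⟨[(nat_lit 40), (nat_lit 60)], [(nat_lit 0), (nat_lit 1539)], [((nat_lit 0), (nat_lit 0), (nat_lit 0)), ((nat_lit 1000), (nat_lit 478), (nat_lit 704))], ((nat_lit 48), (nat_lit 100), (nat_lit 69))⟩, (nat_lit 0), (nat_lit 135), (nat_lit 135), (nat_lit 0), (nat_lit 241892), [(nat_lit 1581984040), (nat_lit 1224880000)], [(nat_lit 0), (nat_lit 0)], [(nat_lit 22740688801), (nat_lit 24075892468), (nat_lit 24016191616), (nat_lit 25220784928), (nat_lit 27318714279), (nat_lit 28525250548), (nat_lit 28162009206), (nat_lit 29149714924)], (nat_lit 1271251), (nat_lit 1271251), (nat_lit 857188), (nat_lit 1436876), (nat_lit 1271251), (nat_lit 1271251), [(nat_lit 490000), (nat_lit 780000)], [(nat_lit 1), (nat_lit 38), (nat_lit 203), (nat_lit 0), (nat_lit 9)]⟩,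
 ⟨⟨[(nat_lit 100), (nat_lit 140), (nat_lit 160)], [(nat_lit 0), (nat_lit 508), (nat_lit 1689)], [((nat_lit 0), (nat_lit 0), (nat_lit 0)), ((nat_lit 1000), (nat_lit 1000), (nat_lit 198)), ((nat_lit 811), (nat_lit 1000), (nat_lit 671))], ((nat_lit 100), (nat_lit 84), (nat_lit 63))⟩, (nat_lit 428952), (nat_lit 1019), (nat_lit 1019), (nat_lit 0), (nat_lit 1533365), [(nat_lit 500000000), (nat_lit 787360000), (nat_lit 949760000)], [], [(nat_lit 3143071598), (nat_lit 2754975931), (nat_lit 2676833918), (nat_lit 2662672436), (nat_lit 3428325558), (nat_lit 3091781199), (nat_lit 4152070887), (nat_lit 3823134410)], (nat_lit 1271251), (nat_lit 1271251), (nat_lit 857188), (nat_lit 1436876), (nat_lit 0), (nat_lit 2825001), [(nat_lit 1412501), (nat_lit 1271251), (nat_lit 1271251)], [(nat_lit 23), (nat_lit 62), (nat_lit 456), (nat_lit 225), (nat_lit 12)]⟩,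
 ⟨⟨[(nat_lit 100), (nat_lit 140), (nat_lit 160)], [(nat_lit 0), (nat_lit 508), (nat_lit 1689)], [((nat_lit 0), (nat_lit 0), (nat_lit 0)), ((nat_lit 1000), (nat_lit 1000), (nat_lit 198)), ((nat_lit 811), (nat_lit 1000), (nat_lit 671))], ((nat_lit 100), (nat_lit 84), (nat_lit 63))⟩, (nat_lit 171969), (nat_lit 300), (nat_lit 988), (nat_lit 5000000), (nat_lit 1533365), [(nat_lit 500000000), (nat_lit 787360000), (nat_lit 949760000)], [], [(nat_lit 3667402459), (nat_lit 3635804828), (nat_lit 3630027743), (nat_lit 3611306502), (nat_lit 3634460954), (nat_lit 3261426290), (nat_lit 3032866818), (nat_lit 3035812228)], (nat_lit 1271251), (nat_lit 1271251), (nat_lit 1271251), (nat_lit 1271251), (nat_lit 0), (nat_lit 2825001), [(nat_lit 1412501), (nat_lit 1271251), (nat_lit 1271251)], [(nat_lit 23), (nat_lit 62), (nat_lit 483), (nat_lit 250), (nat_lit 12)]⟩⟩)))))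
noncomputable def c13_22 : Tr Lf :=
 (.spl (nat_lit 5) (nat_lit 200) (.leaf ⟨(nat_lit 22), (nat_lit 918), (nat_lit 0), (nat_lit 60), (nat_lit 0), (nat_lit 4468), (nat_lit 10323), (nat_lit 820), (nat_lit 0), (nat_lit 10592584574353), (nat_lit 88000), [((nat_lit 400), [((nat_lit 43), (nat_lit 5), (nat_lit 22))])], ⟨(nat_lit 5), true, false, true, (nat_lit 239), (nat_lit 0), (nat_lit 2237), [(nat_lit 1477224), (nat_lit 1474999), (nat_lit 1543695), (nat_lit 1548146), (nat_lit 1662517), (nat_lit 1637491), (nat_lit 1730844), (nat_lit 1712494)]⟩, ⟨(nat_lit 4), false, false, false, (nat_lit 174), (nat_lit 0), (nat_lit 2237), [(nat_lit 1316293), (nat_lit 1333360), (nat_lit 1381836), (nat_lit 1405580), (nat_lit 1477224), (nat_lit 1474999), (nat_lit 1543695), (nat_lit 1548146)]⟩, (nat_lit 4957879), (nat_lit 41214721), (nat_lit 16096214), (nat_lit 9689065), (nat_lit 4), (nat_lit 0), [], [], [⟨(nat_lit 0), (nat_lit 100), (nat_lit 100), (nat_lit 10), (nat_lit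 70482772)⟩, ⟨(nat_lit 0), (nat_lit 100), (nat_lit 100), (nat_lit 40), (nat_lit 3357471)⟩], [],
 ⟨⟨[(nat_lit 40), (nat_lit 60)], [(nat_lit 0), (nat_lit 1539)], [((nat_lit 0), (nat_lit 0), (nat_lit 0)), ((nat_lit 1000), (nat_lit 478), (nat_lit 704))], ((nat_lit 48), (nat_lit 100), (nat_lit 69))⟩, (nat_lit 0), (nat_lit 251), (nat_lit 251), (nat_lit 0), (nat_lit 621630), [(nat_lit 1823484003), (nat_lit 2838752800)], [(nat_lit 0), (nat_lit 0)], [(nat_lit 23666644945), (nat_lit 25288888829), (nat_lit 29116902434), (nat_lit 30583650656), (nat_lit 24949179931), (nat_lit 26039031467), (nat_lit 29339282816), (nat_lit 30596666417)], (nat_lit 1271251), (nat_lit 1271251), (nat_lit 1271251), (nat_lit 1271251), (nat_lit 559688), (nat_lit 1429376), [(nat_lit 490000), (nat_lit 780000)], [(nat_lit 1), (nat_lit 38), (nat_lit 260), (nat_lit 50), (nat_lit 13)]⟩,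
 ⟨⟨[(nat_lit 120), (nat_lit 160), (nat_lit 180)], [(nat_lit 0), (nat_lit 533), (nat_lit 2066)], [((nat_lit 0), (nat_lit 0), (nat_lit 0)), ((nat_lit 960), (nat_lit 1000), (nat_lit 200)), ((nat_lit 615), (nat_lit 1000), (nat_lit 729))], ((nat_lit 100), (nat_lit 72), (nat_lit 63))⟩, (nat_lit 3854294), (nat_lit 300), (nat_lit 300), (nat_lit 0), (nat_lit 0), [(nat_lit 7792704000), (nat_lit 11610816000), (nat_lit 13748724000)], [], [(nat_lit 31176653770), (nat_lit 32427255482), (nat_lit 38551029569), (nat_lit 39359293838), (nat_lit 24161357318), (nat_lit 25147706681), (nat_lit 29067353804), (nat_lit 29781018308)], (nat_lit 0), (nat_lit 0), (nat_lit 0), (nat_lit 0), (nat_lit 0), (nat_lit 0), [], [(nat_lit 28), (nat_lit 65), (nat_lit 428), (nat_lit 200), (nat_lit 10)]⟩,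
 ⟨⟨[(nat_lit 120), (nat_lit 160), (nat_lit 180)], [(nat_lit 0), (nat_lit 533), (nat_lit 2066)], [((nat_lit 0), (nat_lit 0), (nat_lit 0)), ((nat_lit 960), (nat_lit 1000), (nat_lit 200)), ((nat_lit 615), (nat_lit 1000), (nat_lit 729))], ((nat_lit 100), (nat_lit 72), (nat_lit 63))⟩, (nat_lit 140488), (nat_lit 300), (nat_lit 1920), (nat_lit 3984000), (nat_lit 3230518), [(nat_lit 478080000), (nat_lit 712320000), (nat_lit 843480000)], [], [(nat_lit 3394976242), (nat_lit 3199265030), (nat_lit 2977646370), (nat_lit 2891081760), (nat_lit 2663995600), (nat_lit 2348759965), (nat_lit 3561565615), (nat_lit 2409719200)], (nat_lit 1271251), (nat_lit 1271251), (nat_lit 559688), (nat_lit 1429376), (nat_lit 0), (nat_lit 1412501), [(nat_lit 1695001), (nat_lit 1271251), (nat_lit 1271251)], [(nat_lit 28), (nat_lit 65), (nat_lit 560), (nat_lit 175), (nat_lit 13)]⟩⟩) (.leaf ⟨(nat_lit 280), (nat_lit 627), (nat_lit 0), (nat_lit 93), (nat_lit 0), (nat_lit 4038), (nat_lit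 6633), (nat_lit 918), (nat_lit 0), (nat_lit 3560523706810), (nat_lit 168000), [((nat_lit 400), [((nat_lit 43), (nat_lit 2), (nat_lit 280))])], ⟨(nat_lit 5), true, false, true, (nat_lit 239), (nat_lit 0), (nat_lit 2237), [(nat_lit 1477224), (nat_lit 1474999), (nat_lit 1543695), (nat_lit 1548146), (nat_lit 1662517), (nat_lit 1637491), (nat_lit 1730844), (nat_lit 1712494)]⟩, ⟨(nat_lit 4), false, false, false, (nat_lit 174), (nat_lit 0), (nat_lit 2237), [(nat_lit 1316293), (nat_lit 1333360), (nat_lit 1381836), (nat_lit 1405580), (nat_lit 1477224), (nat_lit 1474999), (nat_lit 1543695), (nat_lit 1548146)]⟩, (nat_lit 4957879), (nat_lit 41214721), (nat_lit 16096214), (nat_lit 9689065), (nat_lit 5), (nat_lit 0), [], [], [], [],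
 ⟨⟨[(nat_lit 40), (nat_lit 60)], [(nat_lit 0), (nat_lit 1539)], [((nat_lit 0), (nat_lit 0), (nat_lit 0)), ((nat_lit 1000), (nat_lit 478), (nat_lit 704))], ((nat_lit 48), (nat_lit 100), (nat_lit 69))⟩, (nat_lit 1056990), (nat_lit 251), (nat_lit 251), (nat_lit 0), (nat_lit 621630), [(nat_lit 1684320012), (nat_lit 2185744000)], [(nat_lit 0), (nat_lit 0)], [(nat_lit 23068307635), (nat_lit 24688981102), (nat_lit 28444202869), (nat_lit 29836570994), (nat_lit 24518831391), (nat_lit 25608072014), (nat_lit 28867944067), (nat_lit 30065788310)], (nat_lit 1271251), (nat_lit 1271251), (nat_lit 1271251), (nat_lit 1271251), (nat_lit 559688), (nat_lit 1429376), [(nat_lit 490000), (nat_lit 780000)], [(nat_lit 1), (nat_lit 38), (nat_lit 260), (nat_lit 50), (nat_lit 13)]⟩,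
 ⟨⟨[(nat_lit 120), (nat_lit 160), (nat_lit 180)], [(nat_lit 0), (nat_lit 533), (nat_lit 2066)], [((nat_lit 0), (nat_lit 0), (nat_lit 0)), ((nat_lit 960), (nat_lit 1000), (nat_lit 200)), ((nat_lit 615), (nat_lit 1000), (nat_lit 729))], ((nat_lit 100), (nat_lit 72), (nat_lit 63))⟩, (nat_lit 115778), (nat_lit 141), (nat_lit 141), (nat_lit 0), (nat_lit 0), [(nat_lit 5736960000), (nat_lit 8547840000), (nat_lit 10121760000)], [], [(nat_lit 10511657604), (nat_lit 12551786892), (nat_lit 17255428622), (nat_lit 18314896352), (nat_lit 22250624301), (nat_lit 22733489106), (nat_lit 26187289629), (nat_lit 26366551718)], (nat_lit 0), (nat_lit 0), (nat_lit 0), (nat_lit 0), (nat_lit 0), (nat_lit 0), [], [(nat_lit 28), (nat_lit 65), (nat_lit 483), (nat_lit 250), (nat_lit 11)]⟩,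
 ⟨⟨[(nat_lit 120), (nat_lit 160), (nat_lit 180)], [(nat_lit 0), (nat_lit 533), (nat_lit 2066)], [((nat_lit 0), (nat_lit 0), (nat_lit 0)), ((nat_lit 960), (nat_lit 1000), (nat_lit 200)), ((nat_lit 615), (nat_lit 1000), (nat_lit 729))], ((nat_lit 100), (nat_lit 72), (nat_lit 63))⟩, (nat_lit 855308), (nat_lit 300), (nat_lit 1809), (nat_lit 6175200), (nat_lit 3230518), [(nat_lit 741024000), (nat_lit 1104096000), (nat_lit 1307394000)], [], [(nat_lit 5206036592), (nat_lit 5043550375), (nat_lit 4869993689), (nat_lit 4708264494), (nat_lit 4802687277), (nat_lit 4648480419), (nat_lit 4434808672), (nat_lit 4281064266)], (nat_lit 1271251), (nat_lit 1271251), (nat_lit 559688), (nat_lit 1429376), (nat_lit 1271251), (nat_lit 1271251), [(nat_lit 1695001), (nat_lit 1271251), (nat_lit 1271251)], [(nat_lit 28), (nat_lit 65), (nat_lit 558), (nat_lit 225), (nat_lit 13)]⟩⟩))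
noncomputable def c13_23 : Tr Lf :=
 (.stt (nat_lit 1) (.spl (nat_lit 3) (nat_lit 280) (.leaf ⟨(nat_lit 995), (nat_lit 0), (nat_lit 0), (nat_lit 5), (nat_lit 0), (nat_lit 3186), (nat_lit 53), (nat_lit 73), (nat_lit 0), (nat_lit 2031259257208), (nat_lit 248750), [((nat_lit 400), [((nat_lit 28), (nat_lit 0), (nat_lit 995))])], ⟨(nat_lit 5), false, true, true, (nat_lit 226), (nat_lit 0), (nat_lit 2237), [(nat_lit 1477224), (nat_lit 1474999), (nat_lit 1543695), (nat_lit 1548146), (nat_lit 1591251), (nat_lit 1574995), (nat_lit 1659577), (nat_lit 1649997)]⟩, ⟨(nat_lit 4), false, false, false, (nat_lit 174), (nat_lit 0), (nat_lit 2237), [(nat_lit 1316293), (nat_lit 1333360), (nat_lit 1381836), (nat_lit 1405580), (nat_lit 1477224), (nat_lit 1474999), (nat_lit 1543695), (nat_lit 1548146)]⟩, (nat_lit 4879648), (nat_lit 42262389), (nat_lit 14898291), (nat_lit 9839320), (nat_lit 0), (nat_lit 0), [], [], [], [⟨(nat_lit 0), (nat_lit 100), (nat_lit 92), (nat_lit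 40), (nat_lit 2071396)⟩],
 ⟨⟨[(nat_lit 40), (nat_lit 60)], [(nat_lit 0), (nat_lit 1539)], [((nat_lit 0), (nat_lit 0), (nat_lit 0)), ((nat_lit 1000), (nat_lit 478), (nat_lit 704))], ((nat_lit 48), (nat_lit 100), (nat_lit 69))⟩, (nat_lit 0), (nat_lit 78), (nat_lit 78), (nat_lit 0), (nat_lit 0), [(nat_lit 1564374001), (nat_lit 1057180000)], [(nat_lit 0), (nat_lit 0)], [(nat_lit 21924742521), (nat_lit 23500326721), (nat_lit 24793664366), (nat_lit 26200070962), (nat_lit 23605506755), (nat_lit 24866817112), (nat_lit 26037028092), (nat_lit 27125659494)], (nat_lit 0), (nat_lit 0), (nat_lit 0), (nat_lit 0), (nat_lit 0), (nat_lit 0), [], [(nat_lit 1), (nat_lit 38), (nat_lit 260), (nat_lit 50), (nat_lit 13)]⟩,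
 ⟨⟨[(nat_lit 120), (nat_lit 160), (nat_lit 180)], [(nat_lit 0), (nat_lit 533), (nat_lit 2066)], [((nat_lit 0), (nat_lit 0), (nat_lit 0)), ((nat_lit 960), (nat_lit 1000), (nat_lit 200)), ((nat_lit 615), (nat_lit 1000), (nat_lit 729))], ((nat_lit 100), (nat_lit 72), (nat_lit 63))⟩, (nat_lit 36732), (nat_lit 1865), (nat_lit 1865), (nat_lit 0), (nat_lit 3230518), [(nat_lit 39840000), (nat_lit 59360000), (nat_lit 70290000)], [], [(nat_lit 187592502), (nat_lit 186507774), (nat_lit 190887233), (nat_lit 188387104), (nat_lit 328553932), (nat_lit 258806038), (nat_lit 236125801), (nat_lit 177488060)], (nat_lit 1271251), (nat_lit 1271251), (nat_lit 1271251), (nat_lit 1271251), (nat_lit 0), (nat_lit 2825001), [(nat_lit 1695001), (nat_lit 1271251), (nat_lit 1271251)], [(nat_lit 28), (nat_lit 65), (nat_lit 582), (nat_lit 250), (nat_lit 13)]⟩,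
 ⟨⟨[(nat_lit 120), (nat_lit 160), (nat_lit 180)], [(nat_lit 0), (nat_lit 533), (nat_lit 2066)], [((nat_lit 0), (nat_lit 0), (nat_lit 0)), ((nat_lit 960), (nat_lit 1000), (nat_lit 200)), ((nat_lit 615), (nat_lit 1000), (nat_lit 729))], ((nat_lit 100), (nat_lit 72), (nat_lit 63))⟩, (nat_lit 2394), (nat_lit 300), (nat_lit 1464), (nat_lit 363025), (nat_lit 2267748), [(nat_lit 39840000), (nat_lit 59360000), (nat_lit 70290000)], [], [(nat_lit 296804716), (nat_lit 277849768), (nat_lit 257875606), (nat_lit 250460636), (nat_lit 318148713), (nat_lit 229009433), (nat_lit 409331812), (nat_lit 313263958)], (nat_lit 1271251), (nat_lit 1271251), (nat_lit 559688), (nat_lit 1429376), (nat_lit 0), (nat_lit 2825001), [(nat_lit 1695001), (nat_lit 1271251), (nat_lit 1271251)], [(nat_lit 28), (nat_lit 65), (nat_lit 471), (nat_lit 225), (nat_lit 11)]⟩⟩) (.trX (nat_lit 5) (nat_lit 3) (nat_lit 4) (nat_lit 92) (nat_lit 40) (nat_lit 100) (nat_lit 390) (.spl (nat_lit 2) (nat_lit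 220) (.spl (nat_lit 0) (nat_lit 390) (.leaf ⟨(nat_lit 979), (nat_lit 0), (nat_lit 0), (nat_lit 21), (nat_lit 0), (nat_lit 3054), (nat_lit 253), (nat_lit 294), (nat_lit 0), (nat_lit 1590), (nat_lit 244750), [((nat_lit 390), [((nat_lit 28), (nat_lit 0), (nat_lit 979))])], ⟨(nat_lit 7), false, true, true, (nat_lit 263), (nat_lit 1581), (nat_lit 2237), [(nat_lit 1591255), (nat_lit 1585955), (nat_lit 1659578), (nat_lit 1655900), (nat_lit 1662524), (nat_lit 1654249), (nat_lit 1730848), (nat_lit 1724195)]⟩, ⟨(nat_lit 4), false, false, false, (nat_lit 169), (nat_lit 1581), (nat_lit 2237), [(nat_lit 1320243), (nat_lit 1326247), (nat_lit 1365701), (nat_lit 1372786), (nat_lit 1477224), (nat_lit 1476683), (nat_lit 1522729), (nat_lit 1523269)]⟩, (nat_lit 5030705), (nat_lit 39636310), (nat_lit 18321163), (nat_lit 9042527), (nat_lit 0), (nat_lit 0), [⟨(nat_lit 1), (nat_lit 81), (nat_lit 44), (nat_lit 100), (nat_lit 416562995)⟩], [], [⟨(nat_lit 0), (nat_lit 100),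 (nat_lit 98), (nat_lit 30), (nat_lit 1146233)⟩], [⟨(nat_lit 0), (nat_lit 100), (nat_lit 89), (nat_lit 28), (nat_lit 6220607)⟩],
 ⟨⟨[(nat_lit 40), (nat_lit 60)], [(nat_lit 0), (nat_lit 1539)], [((nat_lit 0), (nat_lit 0), (nat_lit 0)), ((nat_lit 1000), (nat_lit 478), (nat_lit 704))], ((nat_lit 48), (nat_lit 100), (nat_lit 69))⟩, (nat_lit 0), (nat_lit 83), (nat_lit 83), (nat_lit 0), (nat_lit 0), [(nat_lit 1568130801), (nat_lit 1092956000)], [(nat_lit 0), (nat_lit 0)], [(nat_lit 24791423311), (nat_lit 25409765178), (nat_lit 26904875312), (nat_lit 27515895351), (nat_lit 26142708112), (nat_lit 26677446751), (nat_lit 27985250938), (nat_lit 28466065223)], (nat_lit 0), (nat_lit 0), (nat_lit 0), (nat_lit 0), (nat_lit 0), (nat_lit 0), [], [(nat_lit 1), (nat_lit 38), (nat_lit 260), (nat_lit 50), (nat_lit 13)]⟩,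
 ⟨⟨[(nat_lit 120), (nat_lit 160), (nat_lit 180)], [(nat_lit 0), (nat_lit 533), (nat_lit 2066)], [((nat_lit 0), (nat_lit 0), (nat_lit 0)), ((nat_lit 960), (nat_lit 1000), (nat_lit 200)), ((nat_lit 615), (nat_lit 1000), (nat_lit 729))], ((nat_lit 100), (nat_lit 72), (nat_lit 63))⟩, (nat_lit 59572), (nat_lit 1565), (nat_lit 1565), (nat_lit 0), (nat_lit 2686337), [(nat_lit 167328000), (nat_lit 249312000), (nat_lit 295218000)], [], [(nat_lit 898972713), (nat_lit 883368304), (nat_lit 929156664), (nat_lit 917706578), (nat_lit 964252853), (nat_lit 755968986), (nat_lit 814430607), (nat_lit 815603263)], (nat_lit 1271251), (nat_lit 1271251), (nat_lit 1271251), (nat_lit 1271251), (nat_lit 0), (nat_lit 2754376), [(nat_lit 1695001), (nat_lit 1271251), (nat_lit 1271251)], [(nat_lit 28), (nat_lit 65), (nat_lit 512), (nat_lit 250), (nat_lit 12)]⟩,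
 ⟨⟨[(nat_lit 120), (nat_lit 160), (nat_lit 180)], [(nat_lit 0), (nat_lit 533), (nat_lit 2066)], [((nat_lit 0), (nat_lit 0), (nat_lit 0)), ((nat_lit 960), (nat_lit 1000), (nat_lit 200)), ((nat_lit 615), (nat_lit 1000), (nat_lit 729))], ((nat_lit 100), (nat_lit 72), (nat_lit 63))⟩, (nat_lit 49171), (nat_lit 300), (nat_lit 1328), (nat_lit 1394400), (nat_lit 1974749), [(nat_lit 167328000), (nat_lit 249312000), (nat_lit 295218000)], [], [(nat_lit 1195115479), (nat_lit 1120680173), (nat_lit 1031653592), (nat_lit 1011723132), (nat_lit 1300325676), (nat_lit 1032279546), (nat_lit 1668159032), (nat_lit 1409391735)], (nat_lit 1271251), (nat_lit 1271251), (nat_lit 559688), (nat_lit 1429376), (nat_lit 0), (nat_lit 2754376), [(nat_lit 1695001), (nat_lit 1271251), (nat_lit 1271251)], [(nat_lit 28), (nat_lit 65), (nat_lit 456), (nat_lit 225), (nat_lit 11)]⟩⟩) (.trX (nat_lit 3) (nat_lit 0) (nat_lit 1) (nat_lit 32) (nat_lit 89) (nat_lit 100) (nat_lit 300) (.trZ (nat_lit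 0) (nat_lit 2) (nat_lit 4) (nat_lit 100) (nat_lit 31) (nat_lit 92) (nat_lit 110) (.leaf ⟨(nat_lit 978), (nat_lit 0), (nat_lit 0), (nat_lit 22), (nat_lit 0), (nat_lit 3196), (nat_lit 266), (nat_lit 307), (nat_lit 0), (nat_lit 38149), (nat_lit 244500), [((nat_lit 400), [((nat_lit 28), (nat_lit 0), (nat_lit 978))])], ⟨(nat_lit 7), false, true, true, (nat_lit 252), (nat_lit 0), (nat_lit 1582), [(nat_lit 1585951), (nat_lit 1574995), (nat_lit 1655899), (nat_lit 1649997), (nat_lit 1613268), (nat_lit 1599994), (nat_lit 1683216), (nat_lit 1674997)]⟩, ⟨(nat_lit 4), false, false, false, (nat_lit 176), (nat_lit 0), (nat_lit 1582), [(nat_lit 1351461), (nat_lit 1360206), (nat_lit 1396777), (nat_lit 1408893), (nat_lit 1476683), (nat_lit 1474999), (nat_lit 1522658), (nat_lit 1524343)]⟩, (nat_lit 5035836), (nat_lit 40134354), (nat_lit 17190166), (nat_lit 9675480), (nat_lit 0), (nat_lit 0), [⟨(nat_lit 1), (nat_lit 89), (nat_lit 32), (nat_lit 100), (nat_lit 551308296)⟩],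 [], [], [⟨(nat_lit 0), (nat_lit 100), (nat_lit 87), (nat_lit 50), (nat_lit 8491101)⟩],
 ⟨⟨[(nat_lit 40), (nat_lit 60)], [(nat_lit 0), (nat_lit 2136)], [((nat_lit 0), (nat_lit 0), (nat_lit 0)), ((nat_lit 1000), (nat_lit 343), (nat_lit 808))], ((nat_lit 37), (nat_lit 100), (nat_lit 75))⟩, (nat_lit 0), (nat_lit 76), (nat_lit 76), (nat_lit 0), (nat_lit 0), [(nat_lit 1568365604), (nat_lit 1095192000)], [(nat_lit 0), (nat_lit 0)], [(nat_lit 25571105770), (nat_lit 26258895007), (nat_lit 26410125560), (nat_lit 27066567736), (nat_lit 26582615684), (nat_lit 27136260796), (nat_lit 27276946473), (nat_lit 27857154558)], (nat_lit 0), (nat_lit 0), (nat_lit 0), (nat_lit 0), (nat_lit 0), (nat_lit 0), [], [(nat_lit 1), (nat_lit 38), (nat_lit 260), (nat_lit 50), (nat_lit 12)]⟩,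
 ⟨⟨[(nat_lit 120), (nat_lit 160), (nat_lit 180)], [(nat_lit 0), (nat_lit 533), (nat_lit 2066)], [((nat_lit 0), (nat_lit 0), (nat_lit 0)), ((nat_lit 960), (nat_lit 1000), (nat_lit 200)), ((nat_lit 615), (nat_lit 1000), (nat_lit 729))], ((nat_lit 100), (nat_lit 72), (nat_lit 63))⟩, (nat_lit 65900), (nat_lit 1754), (nat_lit 1754), (nat_lit 0), (nat_lit 3080343), [(nat_lit 175296000), (nat_lit 261184000), (nat_lit 309276000)], [], [(nat_lit 934500991), (nat_lit 918007804), (nat_lit 942738248), (nat_lit 926721372), (nat_lit 1009944615), (nat_lit 789724508), (nat_lit 895058301), (nat_lit 812184815)], (nat_lit 1271251), (nat_lit 1271251), (nat_lit 1271251), (nat_lit 1271251), (nat_lit 0), (nat_lit 2754376), [(nat_lit 1695001), (nat_lit 1271251), (nat_lit 1271251)], [(nat_lit 28), (nat_lit 65), (nat_lit 555), (nat_lit 250), (nat_lit 13)]⟩,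
 ⟨⟨[(nat_lit 120), (nat_lit 160), (nat_lit 180)], [(nat_lit 0), (nat_lit 533), (nat_lit 2066)], [((nat_lit 0), (nat_lit 0), (nat_lit 0)), ((nat_lit 960), (nat_lit 1000), (nat_lit 200)), ((nat_lit 615), (nat_lit 1000), (nat_lit 729))], ((nat_lit 100), (nat_lit 72), (nat_lit 63))⟩, (nat_lit 51512), (nat_lit 300), (nat_lit 1449), (nat_lit 1460801), (nat_lit 2256759), [(nat_lit 175296000), (nat_lit 261184000), (nat_lit 309276000)], [], [(nat_lit 1193979856), (nat_lit 1148858756), (nat_lit 1082283727), (nat_lit 1060351633), (nat_lit 1412422529), (nat_lit 1134319643), (nat_lit 1750383140), (nat_lit 1480173752)], (nat_lit 1271251), (nat_lit 1271251), (nat_lit 704688), (nat_lit 1433125), (nat_lit 0), (nat_lit 2754376), [(nat_lit 1695001), (nat_lit 1271251), (nat_lit 1271251)], [(nat_lit 28), (nat_lit 65), (nat_lit 464), (nat_lit 225), (nat_lit 11)]⟩⟩)))) (.ord (.trZ (nat_lit 0) (nat_lit 2) (nat_lit 4) (nat_lit 100) (nat_lit 44) (nat_lit 94) (nat_lit 130)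 (.leaf ⟨(nat_lit 924), (nat_lit 0), (nat_lit 0), (nat_lit 76), (nat_lit 0), (nat_lit 3078), (nat_lit 702), (nat_lit 951), (nat_lit 0), (nat_lit 1665173), (nat_lit 274800), [((nat_lit 400), [((nat_lit 28), (nat_lit 0), (nat_lit 632)), ((nat_lit 28), (nat_lit 1), (nat_lit 292))])], ⟨(nat_lit 7), false, true, true, (nat_lit 271), (nat_lit 0), (nat_lit 2237), [(nat_lit 1636802), (nat_lit 1624997), (nat_lit 1659577), (nat_lit 1649997), (nat_lit 1708068), (nat_lit 1687494), (nat_lit 1730844), (nat_lit 1712494)]⟩, ⟨(nat_lit 5), false, false, false, (nat_lit 194), (nat_lit 0), (nat_lit 2237), [(nat_lit 1418846), (nat_lit 1433349), (nat_lit 1440694), (nat_lit 1457423), (nat_lit 1521847), (nat_lit 1524073), (nat_lit 1543695), (nat_lit 1548146)]⟩, (nat_lit 5253018), (nat_lit 37674537), (nat_lit 18473924), (nat_lit 10851539), (nat_lit 0), (nat_lit 0), [⟨(nat_lit 1), (nat_lit 81), (nat_lit 44), (nat_lit 100), (nat_lit 357793847)⟩], [⟨(nat_lit 0), (nat_lit 100),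 (nat_lit 44), (nat_lit 94), (nat_lit 62127010)⟩], [⟨(nat_lit 0), (nat_lit 100), (nat_lit 100), (nat_lit 40), (nat_lit 20782660)⟩], [],
 ⟨⟨[(nat_lit 40), (nat_lit 60)], [(nat_lit 0), (nat_lit 1539)], [((nat_lit 0), (nat_lit 0), (nat_lit 0)), ((nat_lit 1000), (nat_lit 478), (nat_lit 704))], ((nat_lit 48), (nat_lit 100), (nat_lit 69))⟩, (nat_lit 0), (nat_lit 77), (nat_lit 77), (nat_lit 0), (nat_lit 0), [(nat_lit 1531988833), (nat_lit 1005345600)], [(nat_lit 0), (nat_lit 0)], [(nat_lit 24998374171), (nat_lit 26181868082), (nat_lit 27027208301), (nat_lit 28199128911), (nat_lit 26052575736), (nat_lit 27125535582), (nat_lit 27898991790), (nat_lit 28880572070)], (nat_lit 0), (nat_lit 0), (nat_lit 0), (nat_lit 0), (nat_lit 0), (nat_lit 0), [], [(nat_lit 1), (nat_lit 38), (nat_lit 203), (nat_lit 0), (nat_lit 8)]⟩,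
 ⟨⟨[(nat_lit 100), (nat_lit 140), (nat_lit 160)], [(nat_lit 0), (nat_lit 508), (nat_lit 1689)], [((nat_lit 0), (nat_lit 0), (nat_lit 0)), ((nat_lit 1000), (nat_lit 1000), (nat_lit 198)), ((nat_lit 811), (nat_lit 1000), (nat_lit 671))], ((nat_lit 100), (nat_lit 84), (nat_lit 63))⟩, (nat_lit 659044), (nat_lit 1234), (nat_lit 1234), (nat_lit 0), (nat_lit 2150309), [(nat_lit 475000000), (nat_lit 747992000), (nat_lit 902272000)], [], [(nat_lit 2451703082), (nat_lit 2432252324), (nat_lit 2444586575), (nat_lit 2441660737), (nat_lit 2494164387), (nat_lit 2513999970), (nat_lit 2709144493), (nat_lit 2718356100)], (nat_lit 1271251), (nat_lit 1271251), (nat_lit 1271251), (nat_lit 1271251), (nat_lit 0), (nat_lit 2754376), [(nat_lit 1412501), (nat_lit 1271251), (nat_lit 1271251)], [(nat_lit 23), (nat_lit 62), (nat_lit 483), (nat_lit 250), (nat_lit 12)]⟩,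
 ⟨⟨[(nat_lit 100), (nat_lit 140), (nat_lit 160)], [(nat_lit 0), (nat_lit 508), (nat_lit 1689)], [((nat_lit 0), (nat_lit 0), (nat_lit 0)), ((nat_lit 1000), (nat_lit 1000), (nat_lit 198)), ((nat_lit 811), (nat_lit 1000), (nat_lit 671))], ((nat_lit 100), (nat_lit 84), (nat_lit 63))⟩, (nat_lit 163370), (nat_lit 300), (nat_lit 1019), (nat_lit 4750001), (nat_lit 1533365), [(nat_lit 475000000), (nat_lit 747992000), (nat_lit 902272000)], [], [(nat_lit 3176511996), (nat_lit 3165349884), (nat_lit 3047739316), (nat_lit 3035973058), (nat_lit 3219762267), (nat_lit 2780443017), (nat_lit 4091202907), (nat_lit 3661851074)], (nat_lit 1271251), (nat_lit 1271251), (nat_lit 857188), (nat_lit 1436876), (nat_lit 0), (nat_lit 2754376), [(nat_lit 1412501), (nat_lit 1271251), (nat_lit 1271251)], [(nat_lit 23), (nat_lit 62), (nat_lit 456), (nat_lit 225), (nat_lit 12)]⟩⟩)))))) (.spl (nat_lit 5) (nat_lit 120) (.spl (nat_lit 1) (nat_lit 220) (.ord (.trX (nat_lit 3) (nat_lit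 0) (nat_lit 1) (nat_lit 44) (nat_lit 86) (nat_lit 100) (nat_lit 310) (.leaf ⟨(nat_lit 795), (nat_lit 136), (nat_lit 0), (nat_lit 69), (nat_lit 0), (nat_lit 3617), (nat_lit 2591), (nat_lit 966), (nat_lit 0), (nat_lit 1838383133744), (nat_lit 213750), [((nat_lit 400), [((nat_lit 28), (nat_lit 0), (nat_lit 695)), ((nat_lit 28), (nat_lit 1), (nat_lit 100))])], ⟨(nat_lit 5), false, true, true, (nat_lit 229), (nat_lit 0), (nat_lit 2237), [(nat_lit 1477224), (nat_lit 1474999), (nat_lit 1521847), (nat_lit 1524073), (nat_lit 1634011), (nat_lit 1612493), (nat_lit 1679562), (nat_lit 1662495)]⟩, ⟨(nat_lit 4), false, false, false, (nat_lit 169), (nat_lit 0), (nat_lit 2237), [(nat_lit 1316293), (nat_lit 1333360), (nat_lit 1359989), (nat_lit 1381507), (nat_lit 1477224), (nat_lit 1474999), (nat_lit 1521847), (nat_lit 1524073)]⟩, (nat_lit 4860046), (nat_lit 42295971), (nat_lit 15263638), (nat_lit 9440391), (nat_lit 4), (nat_lit 0), [⟨(nat_lit 1), (nat_lit 95), (nat_lit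 31), (nat_lit 100), (nat_lit 202331532)⟩], [⟨(nat_lit 0), (nat_lit 100), (nat_lit 31), (nat_lit 95), (nat_lit 71640647)⟩], [⟨(nat_lit 0), (nat_lit 100), (nat_lit 100), (nat_lit 20), (nat_lit 13496202)⟩], [],
 ⟨⟨[(nat_lit 40), (nat_lit 60)], [(nat_lit 0), (nat_lit 1539)], [((nat_lit 0), (nat_lit 0), (nat_lit 0)), ((nat_lit 1000), (nat_lit 478), (nat_lit 704))], ((nat_lit 48), (nat_lit 100), (nat_lit 69))⟩, (nat_lit 0), (nat_lit 190), (nat_lit 190), (nat_lit 0), (nat_lit 419612), [(nat_lit 1594534017), (nat_lit 1432260000)], [(nat_lit 0), (nat_lit 0)], [(nat_lit 23139768788), (nat_lit 24366375737), (nat_lit 26751428459), (nat_lit 28141638888), (nat_lit 24647953887), (nat_lit 25753081230), (nat_lit 27772959384), (nat_lit 28705894185)], (nat_lit 1271251), (nat_lit 1271251), (nat_lit 1271251), (nat_lit 1271251), (nat_lit 559688), (nat_lit 1429376), [(nat_lit 490000), (nat_lit 780000)], [(nat_lit 1), (nat_lit 38), (nat_lit 260), (nat_lit 50), (nat_lit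 13)]⟩,
 ⟨⟨[(nat_lit 120), (nat_lit 160), (nat_lit 180)], [(nat_lit 0), (nat_lit 533), (nat_lit 2066)], [((nat_lit 0), (nat_lit 0), (nat_lit 0)), ((nat_lit 960), (nat_lit 1000), (nat_lit 200)), ((nat_lit 615), (nat_lit 1000), (nat_lit 729))], ((nat_lit 100), (nat_lit 72), (nat_lit 63))⟩, (nat_lit 1324985), (nat_lit 665), (nat_lit 665), (nat_lit 0), (nat_lit 660519), [(nat_lit 1633440000), (nat_lit 2433760000), (nat_lit 2881890000)], [], [(nat_lit 7273309610), (nat_lit 7207885704), (nat_lit 7909187370), (nat_lit 7894905975), (nat_lit 8043658743), (nat_lit 5550010386), (nat_lit 5855987034), (nat_lit 5833266498)], (nat_lit 1271251), (nat_lit 1271251), (nat_lit 1271251), (nat_lit 1271251), (nat_lit 0), (nat_lit 780000), [(nat_lit 1695001), (nat_lit 1271251), (nat_lit 1271251)], [(nat_lit 28), (nat_lit 65), (nat_lit 401), (nat_lit 175), (nat_lit 9)]⟩,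
 ⟨⟨[(nat_lit 120), (nat_lit 160), (nat_lit 180)], [(nat_lit 0), (nat_lit 533), (nat_lit 2066)], [((nat_lit 0), (nat_lit 0), (nat_lit 0)), ((nat_lit 960), (nat_lit 1000), (nat_lit 200)), ((nat_lit 615), (nat_lit 1000), (nat_lit 729))], ((nat_lit 100), (nat_lit 72), (nat_lit 63))⟩, (nat_lit 161561), (nat_lit 300), (nat_lit 738), (nat_lit 4581600), (nat_lit 660519), [(nat_lit 549792000), (nat_lit 819168000), (nat_lit 970002000)], [], [(nat_lit 3926808001), (nat_lit 3682234853), (nat_lit 3389718944), (nat_lit 3324233148), (nat_lit 2963624016), (nat_lit 2903980131), (nat_lit 3349914189), (nat_lit 2561274480)], (nat_lit 1271251), (nat_lit 1271251), (nat_lit 559688), (nat_lit 1429376), (nat_lit 0), (nat_lit 780000), [(nat_lit 1695001), (nat_lit 1271251), (nat_lit 1271251)], [(nat_lit 28), (nat_lit 65), (nat_lit 373), (nat_lit 150), (nat_lit 9)]⟩⟩))) (.leaf ⟨(nat_lit 23), (nat_lit 789), (nat_lit 0), (nat_lit 188), (nat_lit 0), (nat_lit 4346), (nat_lit 11358),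 (nat_lit 2917), (nat_lit 0), (nat_lit 516251), (nat_lit 92000), [((nat_lit 400), [((nat_lit 43), (nat_lit 5), (nat_lit 23))])], ⟨(nat_lit 5), false, true, true, (nat_lit 249), (nat_lit 0), (nat_lit 2237), [(nat_lit 1521847), (nat_lit 1524073), (nat_lit 1543695), (nat_lit 1548146), (nat_lit 1708068), (nat_lit 1687494), (nat_lit 1730844), (nat_lit 1712494)]⟩, ⟨(nat_lit 4), false, false, false, (nat_lit 174), (nat_lit 0), (nat_lit 2237), [(nat_lit 1316293), (nat_lit 1333360), (nat_lit 1381836), (nat_lit 1405580), (nat_lit 1477224), (nat_lit 1474999), (nat_lit 1543695), (nat_lit 1548146)]⟩, (nat_lit 5006661), (nat_lit 40477266), (nat_lit 16944336), (nat_lit 9578398), (nat_lit 4), (nat_lit 0), [], [⟨(nat_lit 0), (nat_lit 100), (nat_lit 31), (nat_lit 97), (nat_lit 221048857)⟩], [⟨(nat_lit 0), (nat_lit 100), (nat_lit 99), (nat_lit 20), (nat_lit 332003618)⟩], [],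
 ⟨⟨[(nat_lit 40), (nat_lit 60)], [(nat_lit 0), (nat_lit 1539)], [((nat_lit 0), (nat_lit 0), (nat_lit 0)), ((nat_lit 1000), (nat_lit 478), (nat_lit 704))], ((nat_lit 48), (nat_lit 100), (nat_lit 69))⟩, (nat_lit 0), (nat_lit 196), (nat_lit 196), (nat_lit 0), (nat_lit 431632), [(nat_lit 1821966037), (nat_lit 2818605200)], [(nat_lit 0), (nat_lit 0)], [(nat_lit 23412647046), (nat_lit 25118682451), (nat_lit 28926043488), (nat_lit 30371688519), (nat_lit 24764065619), (nat_lit 25916704338), (nat_lit 29205554148), (nat_lit 30446045187)], (nat_lit 1271251), (nat_lit 1271251), (nat_lit 1271251), (nat_lit 1271251), (nat_lit 559688), (nat_lit 1429376), [(nat_lit 490000), (nat_lit 780000)], [(nat_lit 1), (nat_lit 38), (nat_lit 260), (nat_lit 50), (nat_lit 13)]⟩,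
 ⟨⟨[(nat_lit 100), (nat_lit 140), (nat_lit 160)], [(nat_lit 0), (nat_lit 508), (nat_lit 1689)], [((nat_lit 0), (nat_lit 0), (nat_lit 0)), ((nat_lit 1000), (nat_lit 1000), (nat_lit 198)), ((nat_lit 811), (nat_lit 1000), (nat_lit 671))], ((nat_lit 100), (nat_lit 84), (nat_lit 63))⟩, (nat_lit 6886346), (nat_lit 511), (nat_lit 511), (nat_lit 0), (nat_lit 513765), [(nat_lit 6106250000), (nat_lit 9615634000), (nat_lit 11598944000)], [], [(nat_lit 25037613180), (nat_lit 25452070968), (nat_lit 32762900413), (nat_lit 33822331895), (nat_lit 18315828729), (nat_lit 17722194063), (nat_lit 23308372435), (nat_lit 23799198015)], (nat_lit 1271251), (nat_lit 1271251), (nat_lit 1271251), (nat_lit 1271251), (nat_lit 0), (nat_lit 780000), [(nat_lit 1412501), (nat_lit 1271251), (nat_lit 1271251)], [(nat_lit 23), (nat_lit 62), (nat_lit 401), (nat_lit 175), (nat_lit 10)]⟩,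
 ⟨⟨[(nat_lit 120), (nat_lit 160), (nat_lit 180)], [(nat_lit 0), (nat_lit 533), (nat_lit 2066)], [((nat_lit 0), (nat_lit 0), (nat_lit 0)), ((nat_lit 960), (nat_lit 1000), (nat_lit 200)), ((nat_lit 615), (nat_lit 1000), (nat_lit 729))], ((nat_lit 100), (nat_lit 72), (nat_lit 63))⟩, (nat_lit 90003), (nat_lit 300), (nat_lit 740), (nat_lit 13649778), (nat_lit 664170), [(nat_lit 1497984000), (nat_lit 2231936000), (nat_lit 2642904000)], [], [(nat_lit 11328964046), (nat_lit 10277824003), (nat_lit 9455076554), (nat_lit 9358333052), (nat_lit 8155102376), (nat_lit 7863242014), (nat_lit 9270839116), (nat_lit 6895469686)], (nat_lit 1271251), (nat_lit 1271251), (nat_lit 559688), (nat_lit 1429376), (nat_lit 0), (nat_lit 780000), [(nat_lit 1695001), (nat_lit 1271251), (nat_lit 1271251)], [(nat_lit 28), (nat_lit 65), (nat_lit 373), (nat_lit 150), (nat_lit 9)]⟩⟩)) (.leaf ⟨(nat_lit 846), (nat_lit 0), (nat_lit 0), (nat_lit 154), (nat_lit 0), (nat_lit 3635), (nat_lit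 1442), (nat_lit 1510), (nat_lit 0), (nat_lit 23922351), (nat_lit 304950), [((nat_lit 400), [((nat_lit 28), (nat_lit 0), (nat_lit 223)), ((nat_lit 28), (nat_lit 1), (nat_lit 623))])], ⟨(nat_lit 5), false, true, true, (nat_lit 239), (nat_lit 0), (nat_lit 2237), [(nat_lit 1477224), (nat_lit 1474999), (nat_lit 1543695), (nat_lit 1548146), (nat_lit 1662517), (nat_lit 1637491), (nat_lit 1730844), (nat_lit 1712494)]⟩, ⟨(nat_lit 4), false, false, false, (nat_lit 174), (nat_lit 0), (nat_lit 2237), [(nat_lit 1316293), (nat_lit 1333360), (nat_lit 1381836), (nat_lit 1405580), (nat_lit 1477224), (nat_lit 1474999), (nat_lit 1543695), (nat_lit 1548146)]⟩, (nat_lit 4957879), (nat_lit 41214721), (nat_lit 16096214), (nat_lit 9689065), (nat_lit 0), (nat_lit 0), [⟨(nat_lit 1), (nat_lit 93), (nat_lit 31), (nat_lit 100), (nat_lit 306085455)⟩], [⟨(nat_lit 0), (nat_lit 100), (nat_lit 31), (nat_lit 97), (nat_lit 213285109)⟩], [], [],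
 ⟨⟨[(nat_lit 40), (nat_lit 60)], [(nat_lit 0), (nat_lit 1539)], [((nat_lit 0), (nat_lit 0), (nat_lit 0)), ((nat_lit 1000), (nat_lit 478), (nat_lit 704))], ((nat_lit 48), (nat_lit 100), (nat_lit 69))⟩, (nat_lit 0), (nat_lit 199), (nat_lit 199), (nat_lit 0), (nat_lit 444635), [(nat_lit 1494695201), (nat_lit 941036400)], [(nat_lit 0), (nat_lit 0)], [(nat_lit 22522352161), (nat_lit 24126741999), (nat_lit 27813742579), (nat_lit 29136400985), (nat_lit 24097812238), (nat_lit 25205470480), (nat_lit 28426201007), (nat_lit 29568244409)], (nat_lit 1271251), (nat_lit 1271251), (nat_lit 1271251), (nat_lit 1271251), (nat_lit 559688), (nat_lit 1429376), [(nat_lit 490000), (nat_lit 780000)], [(nat_lit 1), (nat_lit 38), (nat_lit 260), (nat_lit 50), (nat_lit 13)]⟩,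
 ⟨⟨[(nat_lit 120), (nat_lit 160), (nat_lit 180)], [(nat_lit 0), (nat_lit 533), (nat_lit 2066)], [((nat_lit 0), (nat_lit 0), (nat_lit 0)), ((nat_lit 960), (nat_lit 1000), (nat_lit 200)), ((nat_lit 615), (nat_lit 1000), (nat_lit 729))], ((nat_lit 100), (nat_lit 72), (nat_lit 63))⟩, (nat_lit 1021409), (nat_lit 1025), (nat_lit 1025), (nat_lit 0), (nat_lit 1628801), [(nat_lit 1227072000), (nat_lit 1828288000), (nat_lit 2164932000)], [], [(nat_lit 5771147970), (nat_lit 5541989984), (nat_lit 5544188124), (nat_lit 5459284126), (nat_lit 7297475815), (nat_lit 5484836398), (nat_lit 5757455557), (nat_lit 5689724288)], (nat_lit 1271251), (nat_lit 1271251), (nat_lit 1271251), (nat_lit 1271251), (nat_lit 780000), (nat_lit 3072501), [(nat_lit 1695001), (nat_lit 1271251), (nat_lit 1271251)], [(nat_lit 28), (nat_lit 65), (nat_lit 483), (nat_lit 250), (nat_lit 11)]⟩,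
 ⟨⟨[(nat_lit 120), (nat_lit 160), (nat_lit 180)], [(nat_lit 0), (nat_lit 533), (nat_lit 2066)], [((nat_lit 0), (nat_lit 0), (nat_lit 0)), ((nat_lit 960), (nat_lit 1000), (nat_lit 200)), ((nat_lit 615), (nat_lit 1000), (nat_lit 729))], ((nat_lit 100), (nat_lit 72), (nat_lit 63))⟩, (nat_lit 360585), (nat_lit 300), (nat_lit 625), (nat_lit 10225602), (nat_lit 666028), [(nat_lit 1227072000), (nat_lit 1828288000), (nat_lit 2164932000)], [], [(nat_lit 8018701844), (nat_lit 7894268326), (nat_lit 7549052902), (nat_lit 7406175441), (nat_lit 10564815431), (nat_lit 8506664857), (nat_lit 12626870680), (nat_lit 10639713700)], (nat_lit 1271251), (nat_lit 1271251), (nat_lit 559688), (nat_lit 1429376), (nat_lit 780000), (nat_lit 3072501), [(nat_lit 1695001), (nat_lit 1271251), (nat_lit 1271251)], [(nat_lit 28), (nat_lit 65), (nat_lit 456), (nat_lit 225), (nat_lit 11)]⟩⟩)))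
noncomputable def c13_24 : Tr Lf :=
 (.spl (nat_lit 4) (nat_lit 240) (.leaf ⟨(nat_lit 1000), (nat_lit 0), (nat_lit 0), (nat_lit 0), (nat_lit 0), (nat_lit 3182), (nat_lit 0), (nat_lit 0), (nat_lit 0), (nat_lit 108674), (nat_lit 250000), [((nat_lit 400), [((nat_lit 28), (nat_lit 0), (nat_lit 1000))])], ⟨(nat_lit 5), false, true, true, (nat_lit 226), (nat_lit 0), (nat_lit 2237), [(nat_lit 1477224), (nat_lit 1474999), (nat_lit 1543695), (nat_lit 1548146), (nat_lit 1591251), (nat_lit 1574995), (nat_lit 1659577), (nat_lit 1649997)]⟩, ⟨(nat_lit 5), false, true, true, (nat_lit 211), (nat_lit 0), (nat_lit 2237), [(nat_lit 1477224), (nat_lit 1474999), (nat_lit 1521847), (nat_lit 1524073), (nat_lit 1534237), (nat_lit 1524996), (nat_lit 1579788), (nat_lit 1574999)]⟩, (nat_lit 5157064), (nat_lit 39850580), (nat_lit 14340403), (nat_lit 12809017), (nat_lit 0), (nat_lit 0), [⟨(nat_lit 1), (nat_lit 93), (nat_lit 31), (nat_lit 100), (nat_lit 31876282)⟩], [], [],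 [],
 ⟨⟨[(nat_lit 40), (nat_lit 60)], [(nat_lit 0), (nat_lit 1539)], [((nat_lit 0), (nat_lit 0), (nat_lit 0)), ((nat_lit 1000), (nat_lit 478), (nat_lit 704))], ((nat_lit 48), (nat_lit 100), (nat_lit 69))⟩, (nat_lit 0), (nat_lit 57), (nat_lit 57), (nat_lit 0), (nat_lit 0), [(nat_lit 1563200009), (nat_lit 1046000000)], [(nat_lit 0), (nat_lit 0)], [(nat_lit 23606604529), (nat_lit 24867182588), (nat_lit 26037654848), (nat_lit 27125705822), (nat_lit 24607367126), (nat_lit 25784164850), (nat_lit 26871903020), (nat_lit 27891034106)], (nat_lit 0), (nat_lit 0), (nat_lit 0), (nat_lit 0), (nat_lit 0), (nat_lit 0), [], [(nat_lit 1), (nat_lit 38), (nat_lit 203), (nat_lit 0), (nat_lit 9)]⟩,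
 Rw.none,
 Rw.none⟩) (.spl (nat_lit 5) (nat_lit 120) (.spl (nat_lit 0) (nat_lit 390) (.leaf ⟨(nat_lit 947), (nat_lit 0), (nat_lit 0), (nat_lit 53), (nat_lit 0), (nat_lit 3142), (nat_lit 644), (nat_lit 597), (nat_lit 0), (nat_lit 171527), (nat_lit 236750), [((nat_lit 390), [((nat_lit 28), (nat_lit 0), (nat_lit 947))])], ⟨(nat_lit 5), false, true, true, (nat_lit 227), (nat_lit 1581), (nat_lit 2237), [(nat_lit 1477224), (nat_lit 1476683), (nat_lit 1545457), (nat_lit 1546538), (nat_lit 1591255), (nat_lit 1585955), (nat_lit 1659578), (nat_lit 1655900)]⟩, ⟨(nat_lit 6), false, true, true, (nat_lit 242), (nat_lit 1581), (nat_lit 2237), [(nat_lit 1534240), (nat_lit 1531319), (nat_lit 1579788), (nat_lit 1577949), (nat_lit 1634017), (nat_lit 1626932), (nat_lit 1679566), (nat_lit 1673562)]⟩, (nat_lit 5338702), (nat_lit 37719019), (nat_lit 13888526), (nat_lit 15392455), (nat_lit 0), (nat_lit 0), [], [⟨(nat_lit 1), (nat_lit 93), (nat_lit 38), (nat_lit 100), (nat_lit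 239673374)⟩], [], [⟨(nat_lit 0), (nat_lit 95), (nat_lit 100), (nat_lit 56), (nat_lit 64325900)⟩, ⟨(nat_lit 0), (nat_lit 91), (nat_lit 100), (nat_lit 91), (nat_lit 8448004)⟩],
 ⟨⟨[(nat_lit 40), (nat_lit 60)], [(nat_lit 0), (nat_lit 1539)], [((nat_lit 0), (nat_lit 0), (nat_lit 0)), ((nat_lit 1000), (nat_lit 478), (nat_lit 704))], ((nat_lit 48), (nat_lit 100), (nat_lit 69))⟩, (nat_lit 0), (nat_lit 57), (nat_lit 57), (nat_lit 0), (nat_lit 0), [(nat_lit 1575644416), (nat_lit 1164508000)], [(nat_lit 0), (nat_lit 0)], [(nat_lit 24666542180), (nat_lit 25251646402), (nat_lit 26927701394), (nat_lit 27434662477), (nat_lit 27161602724), (nat_lit 27669740415), (nat_lit 29079949359), (nat_lit 29522901670)], (nat_lit 0), (nat_lit 0), (nat_lit 0), (nat_lit 0), (nat_lit 0), (nat_lit 0), [], [(nat_lit 1), (nat_lit 38), (nat_lit 203), (nat_lit 0), (nat_lit 8)]⟩,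
 ⟨⟨[(nat_lit 120), (nat_lit 160), (nat_lit 180)], [(nat_lit 0), (nat_lit 533), (nat_lit 2066)], [((nat_lit 0), (nat_lit 0), (nat_lit 0)), ((nat_lit 960), (nat_lit 1000), (nat_lit 200)), ((nat_lit 615), (nat_lit 1000), (nat_lit 729))], ((nat_lit 100), (nat_lit 72), (nat_lit 63))⟩, (nat_lit 543357), (nat_lit 1252), (nat_lit 1252), (nat_lit 0), (nat_lit 1934221), [(nat_lit 422304000), (nat_lit 629216000), (nat_lit 745074000)], [], [(nat_lit 1816502190), (nat_lit 1679204306), (nat_lit 1769446380), (nat_lit 1779565587), (nat_lit 2082913518), (nat_lit 1192658476), (nat_lit 1272279020), (nat_lit 1277630316)], (nat_lit 1271251), (nat_lit 1271251), (nat_lit 1271251), (nat_lit 1271251), (nat_lit 0), (nat_lit 780000), [(nat_lit 1695001), (nat_lit 1271251), (nat_lit 1271251)], [(nat_lit 28), (nat_lit 65), (nat_lit 401), (nat_lit 175), (nat_lit 9)]⟩,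
 ⟨⟨[(nat_lit 120), (nat_lit 160), (nat_lit 180)], [(nat_lit 0), (nat_lit 533), (nat_lit 2066)], [((nat_lit 0), (nat_lit 0), (nat_lit 0)), ((nat_lit 960), (nat_lit 1000), (nat_lit 200)), ((nat_lit 615), (nat_lit 1000), (nat_lit 729))], ((nat_lit 100), (nat_lit 72), (nat_lit 63))⟩, (nat_lit 124098), (nat_lit 300), (nat_lit 1252), (nat_lit 3519200), (nat_lit 1974749), [(nat_lit 422304000), (nat_lit 629216000), (nat_lit 745074000)], [], [(nat_lit 2808139352), (nat_lit 2752154888), (nat_lit 2807042200), (nat_lit 2760353069), (nat_lit 2379989063), (nat_lit 2325007600), (nat_lit 2346676692), (nat_lit 2301001723)], (nat_lit 1271251), (nat_lit 1271251), (nat_lit 1271251), (nat_lit 1271251), (nat_lit 0), (nat_lit 780000), [(nat_lit 1695001), (nat_lit 1271251), (nat_lit 1271251)], [(nat_lit 28), (nat_lit 65), (nat_lit 401), (nat_lit 175), (nat_lit 9)]⟩⟩) (.trX (nat_lit 4) (nat_lit 0) (nat_lit 2) (nat_lit 31) (nat_lit 92) (nat_lit 100) (nat_lit 290) (.leaf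 ⟨(nat_lit 956), (nat_lit 0), (nat_lit 0), (nat_lit 44), (nat_lit 0), (nat_lit 3165), (nat_lit 519), (nat_lit 502), (nat_lit 0), (nat_lit 24663), (nat_lit 239000), [((nat_lit 400), [((nat_lit 28), (nat_lit 0), (nat_lit 956))])], ⟨(nat_lit 5), false, true, true, (nat_lit 226), (nat_lit 0), (nat_lit 1582), [(nat_lit 1476683), (nat_lit 1474999), (nat_lit 1545316), (nat_lit 1548686), (nat_lit 1585951), (nat_lit 1574995), (nat_lit 1655899), (nat_lit 1649997)]⟩, ⟨(nat_lit 6), false, true, true, (nat_lit 234), (nat_lit 0), (nat_lit 1582), [(nat_lit 1531317), (nat_lit 1524997), (nat_lit 1577949), (nat_lit 1574999), (nat_lit 1599609), (nat_lit 1587494), (nat_lit 1646241), (nat_lit 1637496)]⟩, (nat_lit 5292193), (nat_lit 38321725), (nat_lit 13918489), (nat_lit 14759786), (nat_lit 0), (nat_lit 0), [], [⟨(nat_lit 1), (nat_lit 98), (nat_lit 22), (nat_lit 100), (nat_lit 126521664)⟩, ⟨(nat_lit 1), (nat_lit 92), (nat_lit 31), (nat_lit 100), (nat_lit 213494119)⟩],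 [], [⟨(nat_lit 0), (nat_lit 97), (nat_lit 100), (nat_lit 84), (nat_lit 59875970)⟩],
 ⟨⟨[(nat_lit 40), (nat_lit 60)], [(nat_lit 0), (nat_lit 2136)], [((nat_lit 0), (nat_lit 0), (nat_lit 0)), ((nat_lit 1000), (nat_lit 343), (nat_lit 808))], ((nat_lit 37), (nat_lit 100), (nat_lit 75))⟩, (nat_lit 0), (nat_lit 59), (nat_lit 59), (nat_lit 0), (nat_lit 0), [(nat_lit 1573531202), (nat_lit 1144384000)], [(nat_lit 0), (nat_lit 0)], [(nat_lit 25229599804), (nat_lit 25816598444), (nat_lit 27414160617), (nat_lit 27922619264), (nat_lit 26959789995), (nat_lit 27491530432), (nat_lit 28907884018), (nat_lit 29418242169)], (nat_lit 0), (nat_lit 0), (nat_lit 0), (nat_lit 0), (nat_lit 0), (nat_lit 0), [], [(nat_lit 1), (nat_lit 38), (nat_lit 203), (nat_lit 0), (nat_lit 8)]⟩,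
 ⟨⟨[(nat_lit 120), (nat_lit 160), (nat_lit 180)], [(nat_lit 0), (nat_lit 533), (nat_lit 2066)], [((nat_lit 0), (nat_lit 0), (nat_lit 0)), ((nat_lit 960), (nat_lit 1000), (nat_lit 200)), ((nat_lit 615), (nat_lit 1000), (nat_lit 729))], ((nat_lit 100), (nat_lit 72), (nat_lit 63))⟩, (nat_lit 270535), (nat_lit 1395), (nat_lit 1395), (nat_lit 0), (nat_lit 2252793), [(nat_lit 350592000), (nat_lit 522368000), (nat_lit 618552000)], [], [(nat_lit 1646068870), (nat_lit 1629718217), (nat_lit 1670334994), (nat_lit 1679826052), (nat_lit 1731226827), (nat_lit 1257869484), (nat_lit 1293294337), (nat_lit 1277747826)], (nat_lit 1271251), (nat_lit 1271251), (nat_lit 1271251), (nat_lit 1271251), (nat_lit 0), (nat_lit 780000), [(nat_lit 1695001), (nat_lit 1271251), (nat_lit 1271251)], [(nat_lit 28), (nat_lit 65), (nat_lit 429), (nat_lit 175), (nat_lit 10)]⟩,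
 ⟨⟨[(nat_lit 120), (nat_lit 160), (nat_lit 180)], [(nat_lit 0), (nat_lit 533), (nat_lit 2066)], [((nat_lit 0), (nat_lit 0), (nat_lit 0)), ((nat_lit 960), (nat_lit 1000), (nat_lit 200)), ((nat_lit 615), (nat_lit 1000), (nat_lit 729))], ((nat_lit 100), (nat_lit 72), (nat_lit 63))⟩, (nat_lit 103024), (nat_lit 300), (nat_lit 1379), (nat_lit 2921602), (nat_lit 2256759), [(nat_lit 350592000), (nat_lit 522368000), (nat_lit 618552000)], [], [(nat_lit 2311267812), (nat_lit 2271138910), (nat_lit 2315075855), (nat_lit 2277354488), (nat_lit 1950482182), (nat_lit 1903925002), (nat_lit 1928926831), (nat_lit 1891754416)], (nat_lit 1271251), (nat_lit 1271251), (nat_lit 1271251), (nat_lit 1271251), (nat_lit 0), (nat_lit 780000), [(nat_lit 1695001), (nat_lit 1271251), (nat_lit 1271251)], [(nat_lit 28), (nat_lit 65), (nat_lit 424), (nat_lit 175), (nat_lit 10)]⟩⟩))) (.spl (nat_lit 0) (nat_lit 390) (.leaf ⟨(nat_lit 956), (nat_lit 0), (nat_lit 0), (nat_lit 44), (nat_lit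 0), (nat_lit 3166), (nat_lit 494), (nat_lit 483), (nat_lit 0), (nat_lit 977), (nat_lit 239000), [((nat_lit 390), [((nat_lit 28), (nat_lit 0), (nat_lit 956))])], ⟨(nat_lit 5), false, true, true, (nat_lit 227), (nat_lit 1581), (nat_lit 2237), [(nat_lit 1477224), (nat_lit 1476683), (nat_lit 1545457), (nat_lit 1546538), (nat_lit 1591255), (nat_lit 1585955), (nat_lit 1659578), (nat_lit 1655900)]⟩, ⟨(nat_lit 6), false, true, true, (nat_lit 242), (nat_lit 1581), (nat_lit 2237), [(nat_lit 1534240), (nat_lit 1531319), (nat_lit 1579788), (nat_lit 1577949), (nat_lit 1634017), (nat_lit 1626932), (nat_lit 1679566), (nat_lit 1673562)]⟩, (nat_lit 5338702), (nat_lit 37719019), (nat_lit 13888526), (nat_lit 15392455), (nat_lit 0), (nat_lit 0), [], [⟨(nat_lit 1), (nat_lit 93), (nat_lit 38), (nat_lit 100), (nat_lit 368161746)⟩], [], [],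
 ⟨⟨[(nat_lit 40), (nat_lit 60)], [(nat_lit 0), (nat_lit 1539)], [((nat_lit 0), (nat_lit 0), (nat_lit 0)), ((nat_lit 1000), (nat_lit 478), (nat_lit 704))], ((nat_lit 48), (nat_lit 100), (nat_lit 69))⟩, (nat_lit 0), (nat_lit 57), (nat_lit 57), (nat_lit 0), (nat_lit 0), [(nat_lit 1573531201), (nat_lit 1144384000)], [(nat_lit 0), (nat_lit 0)], [(nat_lit 24641744006), (nat_lit 25228825012), (nat_lit 26904929228), (nat_lit 27413452987), (nat_lit 27141570332), (nat_lit 27651272682), (nat_lit 29060216197), (nat_lit 29548555252)], (nat_lit 0), (nat_lit 0), (nat_lit 0), (nat_lit 0), (nat_lit 0), (nat_lit 0), [], [(nat_lit 1), (nat_lit 38), (nat_lit 203), (nat_lit 0), (nat_lit 8)]⟩,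
 ⟨⟨[(nat_lit 120), (nat_lit 160), (nat_lit 180)], [(nat_lit 0), (nat_lit 533), (nat_lit 2066)], [((nat_lit 0), (nat_lit 0), (nat_lit 0)), ((nat_lit 960), (nat_lit 1000), (nat_lit 200)), ((nat_lit 615), (nat_lit 1000), (nat_lit 729))], ((nat_lit 100), (nat_lit 72), (nat_lit 63))⟩, (nat_lit 552939), (nat_lit 1525), (nat_lit 1525), (nat_lit 0), (nat_lit 2686337), [(nat_lit 350592000), (nat_lit 522368000), (nat_lit 618552000)], [], [(nat_lit 1732154430), (nat_lit 1006408590), (nat_lit 1031489952), (nat_lit 1016028762), (nat_lit 2190940001), (nat_lit 1487673944), (nat_lit 1569211739), (nat_lit 1590198452)], (nat_lit 1271251), (nat_lit 1271251), (nat_lit 1271251), (nat_lit 1271251), (nat_lit 780000), (nat_lit 3072501), [(nat_lit 1695001), (nat_lit 1271251), (nat_lit 1271251)], [(nat_lit 28), (nat_lit 65), (nat_lit 497), (nat_lit 250), (nat_lit 11)]⟩,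
 ⟨⟨[(nat_lit 120), (nat_lit 160), (nat_lit 180)], [(nat_lit 0), (nat_lit 533), (nat_lit 2066)], [((nat_lit 0), (nat_lit 0), (nat_lit 0)), ((nat_lit 960), (nat_lit 1000), (nat_lit 200)), ((nat_lit 615), (nat_lit 1000), (nat_lit 729))], ((nat_lit 100), (nat_lit 72), (nat_lit 63))⟩, (nat_lit 103024), (nat_lit 300), (nat_lit 1571), (nat_lit 2921602), (nat_lit 2825348), [(nat_lit 350592000), (nat_lit 522368000), (nat_lit 618552000)], [], [(nat_lit 2026034694), (nat_lit 1982195198), (nat_lit 1998818597), (nat_lit 1951351630), (nat_lit 1875638530), (nat_lit 1839192198), (nat_lit 1879830305), (nat_lit 1837661018)], (nat_lit 1271251), (nat_lit 1271251), (nat_lit 1271251), (nat_lit 1271251), (nat_lit 780000), (nat_lit 3072501), [(nat_lit 1695001), (nat_lit 1271251), (nat_lit 1271251)], [(nat_lit 28), (nat_lit 65), (nat_lit 509), (nat_lit 250), (nat_lit 11)]⟩⟩) (.trX (nat_lit 4) (nat_lit 0) (nat_lit 2) (nat_lit 31) (nat_lit 92) (nat_lit 100) (nat_lit 290)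 (.leaf ⟨(nat_lit 961), (nat_lit 0), (nat_lit 0), (nat_lit 39), (nat_lit 0), (nat_lit 3163), (nat_lit 436), (nat_lit 438), (nat_lit 0), (nat_lit 152335), (nat_lit 240250), [((nat_lit 400), [((nat_lit 28), (nat_lit 0), (nat_lit 961))])], ⟨(nat_lit 5), false, true, true, (nat_lit 226), (nat_lit 0), (nat_lit 1582), [(nat_lit 1476683), (nat_lit 1474999), (nat_lit 1545316), (nat_lit 1548686), (nat_lit 1585951), (nat_lit 1574995), (nat_lit 1655899), (nat_lit 1649997)]⟩, ⟨(nat_lit 6), false, true, true, (nat_lit 234), (nat_lit 0), (nat_lit 1582), [(nat_lit 1531317), (nat_lit 1524997), (nat_lit 1577949), (nat_lit 1574999), (nat_lit 1599609), (nat_lit 1587494), (nat_lit 1646241), (nat_lit 1637496)]⟩, (nat_lit 5292193), (nat_lit 38321725), (nat_lit 13918489), (nat_lit 14759786), (nat_lit 0), (nat_lit 0), [], [⟨(nat_lit 1), (nat_lit 98), (nat_lit 22), (nat_lit 100), (nat_lit 56520515)⟩, ⟨(nat_lit 1), (nat_lit 92), (nat_lit 31), (nat_lit 100), (nat_lit 430403273)⟩],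 [], [],
 ⟨⟨[(nat_lit 40), (nat_lit 60)], [(nat_lit 0), (nat_lit 2136)], [((nat_lit 0), (nat_lit 0), (nat_lit 0)), ((nat_lit 1000), (nat_lit 343), (nat_lit 808))], ((nat_lit 37), (nat_lit 100), (nat_lit 75))⟩, (nat_lit 0), (nat_lit 59), (nat_lit 59), (nat_lit 0), (nat_lit 0), [(nat_lit 1572357210), (nat_lit 1133204000)], [(nat_lit 0), (nat_lit 0)], [(nat_lit 25228801400), (nat_lit 25815635308), (nat_lit 27413227888), (nat_lit 27921556312), (nat_lit 26958732445), (nat_lit 27490332681), (nat_lit 28906514875), (nat_lit 29416034922)], (nat_lit 0), (nat_lit 0), (nat_lit 0), (nat_lit 0), (nat_lit 0), (nat_lit 0), [], [(nat_lit 1), (nat_lit 38), (nat_lit 203), (nat_lit 0), (nat_lit 8)]⟩,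
 ⟨⟨[(nat_lit 120), (nat_lit 160), (nat_lit 180)], [(nat_lit 0), (nat_lit 533), (nat_lit 2066)], [((nat_lit 0), (nat_lit 0), (nat_lit 0)), ((nat_lit 960), (nat_lit 1000), (nat_lit 200)), ((nat_lit 615), (nat_lit 1000), (nat_lit 729))], ((nat_lit 100), (nat_lit 72), (nat_lit 63))⟩, (nat_lit 465329), (nat_lit 1716), (nat_lit 1716), (nat_lit 0), (nat_lit 3080343), [(nat_lit 310752000), (nat_lit 463008000), (nat_lit 548262000)], [], [(nat_lit 1533426540), (nat_lit 902889728), (nat_lit 923200865), (nat_lit 929913584), (nat_lit 1939561662), (nat_lit 1318865304), (nat_lit 1388824227), (nat_lit 1407582942)], (nat_lit 1271251), (nat_lit 1271251), (nat_lit 1271251), (nat_lit 1271251), (nat_lit 780000), (nat_lit 3072501), [(nat_lit 1695001), (nat_lit 1271251), (nat_lit 1271251)], [(nat_lit 28), (nat_lit 65), (nat_lit 544), (nat_lit 250), (nat_lit 12)]⟩,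
 ⟨⟨[(nat_lit 120), (nat_lit 160), (nat_lit 180)], [(nat_lit 0), (nat_lit 533), (nat_lit 2066)], [((nat_lit 0), (nat_lit 0), (nat_lit 0)), ((nat_lit 960), (nat_lit 1000), (nat_lit 200)), ((nat_lit 615), (nat_lit 1000), (nat_lit 729))], ((nat_lit 100), (nat_lit 72), (nat_lit 63))⟩, (nat_lit 91317), (nat_lit 300), (nat_lit 1762), (nat_lit 2589601), (nat_lit 3213946), [(nat_lit 310752000), (nat_lit 463008000), (nat_lit 548262000)], [], [(nat_lit 1756490312), (nat_lit 1716218471), (nat_lit 1738158686), (nat_lit 1695660231), (nat_lit 1647028020), (nat_lit 1613373828), (nat_lit 1648910520), (nat_lit 1611565653)], (nat_lit 1271251), (nat_lit 1271251), (nat_lit 1271251), (nat_lit 1271251), (nat_lit 780000), (nat_lit 3072501), [(nat_lit 1695001), (nat_lit 1271251), (nat_lit 1271251)], [(nat_lit 28), (nat_lit 65), (nat_lit 555), (nat_lit 250), (nat_lit 12)]⟩⟩)))))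
noncomputable def c13_25 : Tr Lf :=
 (.trZ (nat_lit 3) (nat_lit 4) (nat_lit 5) (nat_lit 100) (nat_lit 92) (nat_lit 40) (nat_lit 10) (.spl (nat_lit 5) (nat_lit 120) (.spl (nat_lit 1) (nat_lit 220) (.trX (nat_lit 3) (nat_lit 0) (nat_lit 1) (nat_lit 44) (nat_lit 86) (nat_lit 100) (nat_lit 310) (.leaf ⟨(nat_lit 940), (nat_lit 0), (nat_lit 0), (nat_lit 60), (nat_lit 0), (nat_lit 3118), (nat_lit 684), (nat_lit 684), (nat_lit 0), (nat_lit 2243940), (nat_lit 235000), [((nat_lit 400), [((nat_lit 28), (nat_lit 0), (nat_lit 940))])], ⟨(nat_lit 7), false, true, true, (nat_lit 251), (nat_lit 0), (nat_lit 2237), [(nat_lit 1591251), (nat_lit 1574995), (nat_lit 1636802), (nat_lit 1624997), (nat_lit 1634011), (nat_lit 1612493), (nat_lit 1679562), (nat_lit 1662495)]⟩, ⟨(nat_lit 5), false, true, true, (nat_lit 229), (nat_lit 0), (nat_lit 2237), [(nat_lit 1477224), (nat_lit 1474999), (nat_lit 1521847), (nat_lit 1524073), (nat_lit 1634011), (nat_lit 1612493), (nat_lit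 1679562), (nat_lit 1662495)]⟩, (nat_lit 5392299), (nat_lit 36983796), (nat_lit 16092961), (nat_lit 13923243), (nat_lit 0), (nat_lit 0), [⟨(nat_lit 1), (nat_lit 95), (nat_lit 31), (nat_lit 100), (nat_lit 392277044)⟩], [⟨(nat_lit 1), (nat_lit 95), (nat_lit 31), (nat_lit 100), (nat_lit 117275124)⟩], [], [⟨(nat_lit 0), (nat_lit 100), (nat_lit 92), (nat_lit 73), (nat_lit 84592253)⟩],
 ⟨⟨[(nat_lit 40), (nat_lit 60)], [(nat_lit 0), (nat_lit 1539)], [((nat_lit 0), (nat_lit 0), (nat_lit 0)), ((nat_lit 1000), (nat_lit 478), (nat_lit 704))], ((nat_lit 48), (nat_lit 100), (nat_lit 69))⟩, (nat_lit 0), (nat_lit 62), (nat_lit 62), (nat_lit 0), (nat_lit 0), [(nat_lit 1577288123), (nat_lit 1180160000)], [(nat_lit 0), (nat_lit 0)], [(nat_lit 26113426916), (nat_lit 27192191042), (nat_lit 27180696100), (nat_lit 28193842163), (nat_lit 29098743504), (nat_lit 29982962266), (nat_lit 29961373093), (nat_lit 30846571924)], (nat_lit 0), (nat_lit 0), (nat_lit 0), (nat_lit 0),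 (nat_lit 0), (nat_lit 0), [], [(nat_lit 1), (nat_lit 38), (nat_lit 203), (nat_lit 0), (nat_lit 8)]⟩,
 ⟨⟨[(nat_lit 120), (nat_lit 160), (nat_lit 180)], [(nat_lit 0), (nat_lit 533), (nat_lit 2066)], [((nat_lit 0), (nat_lit 0), (nat_lit 0)), ((nat_lit 960), (nat_lit 1000), (nat_lit 200)), ((nat_lit 615), (nat_lit 1000), (nat_lit 729))], ((nat_lit 100), (nat_lit 72), (nat_lit 63))⟩, (nat_lit 774647), (nat_lit 1355), (nat_lit 1355), (nat_lit 0), (nat_lit 2247957), [(nat_lit 478080000), (nat_lit 712320000), (nat_lit 843480000)], [], [(nat_lit 1802856086), (nat_lit 1813123426), (nat_lit 1903987443), (nat_lit 1959929811), (nat_lit 1356941718), (nat_lit 1344239928), (nat_lit 1408415981), (nat_lit 1446136366)], (nat_lit 1271251), (nat_lit 1271251), (nat_lit 1271251), (nat_lit 1271251), (nat_lit 54688), (nat_lit 780000), [(nat_lit 1695001), (nat_lit 1271251), (nat_lit 1271251)], [(nat_lit 28), (nat_lit 65), (nat_lit 420), (nat_lit 175), (nat_lit 10)]⟩,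
 ⟨⟨[(nat_lit 120), (nat_lit 160), (nat_lit 180)], [(nat_lit 0), (nat_lit 533), (nat_lit 2066)], [((nat_lit 0), (nat_lit 0), (nat_lit 0)), ((nat_lit 960), (nat_lit 1000), (nat_lit 200)), ((nat_lit 615), (nat_lit 1000), (nat_lit 729))], ((nat_lit 100), (nat_lit 72), (nat_lit 63))⟩, (nat_lit 140488), (nat_lit 300), (nat_lit 1386), (nat_lit 3984000), (nat_lit 2247957), [(nat_lit 478080000), (nat_lit 712320000), (nat_lit 843480000)], [], [(nat_lit 3166862616), (nat_lit 3104653242), (nat_lit 3111505776), (nat_lit 3057814303), (nat_lit 2722273608), (nat_lit 2660898480), (nat_lit 2635336377), (nat_lit 2582541991)], (nat_lit 1271251), (nat_lit 1271251), (nat_lit 1271251), (nat_lit 1271251), (nat_lit 54688), (nat_lit 780000), [(nat_lit 1695001), (nat_lit 1271251), (nat_lit 1271251)], [(nat_lit 28), (nat_lit 65), (nat_lit 428), (nat_lit 175), (nat_lit 10)]⟩⟩)) (.leaf ⟨(nat_lit 886), (nat_lit 44), (nat_lit 0), (nat_lit 70), (nat_lit 0), (nat_lit 3133), (nat_lit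 1151), (nat_lit 814), (nat_lit 0), (nat_lit 0), (nat_lit 221500), [((nat_lit 400), [((nat_lit 28), (nat_lit 0), (nat_lit 886))])], ⟨(nat_lit 7), false, true, true, (nat_lit 271), (nat_lit 0), (nat_lit 2237), [(nat_lit 1636802), (nat_lit 1624997), (nat_lit 1659577), (nat_lit 1649997), (nat_lit 1708068), (nat_lit 1687494), (nat_lit 1730844), (nat_lit 1712494)]⟩, ⟨(nat_lit 5), false, true, true, (nat_lit 229), (nat_lit 0), (nat_lit 2237), [(nat_lit 1477224), (nat_lit 1474999), (nat_lit 1521847), (nat_lit 1524073), (nat_lit 1634011), (nat_lit 1612493), (nat_lit 1679562), (nat_lit 1662495)]⟩, (nat_lit 5466853), (nat_lit 35709901), (nat_lit 17729093), (nat_lit 13561006), (nat_lit 5), (nat_lit 0), [⟨(nat_lit 1), (nat_lit 90), (nat_lit 32), (nat_lit 100), (nat_lit 345477635)⟩], [⟨(nat_lit 1), (nat_lit 95), (nat_lit 31), (nat_lit 100), (nat_lit 133666308)⟩], [], [⟨(nat_lit 0), (nat_lit 100), (nat_lit 89), (nat_lit 77), (nat_lit 103809830)⟩],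
 ⟨⟨[(nat_lit 40), (nat_lit 60)], [(nat_lit 0), (nat_lit 1539)], [((nat_lit 0), (nat_lit 0), (nat_lit 0)), ((nat_lit 1000), (nat_lit 478), (nat_lit 704))], ((nat_lit 48), (nat_lit 100), (nat_lit 69))⟩, (nat_lit 0), (nat_lit 65), (nat_lit 65), (nat_lit 0), (nat_lit 0), [(nat_lit 1589967201), (nat_lit 1300904000)], [(nat_lit 0), (nat_lit 0)], [(nat_lit 26127629797), (nat_lit 27208570528), (nat_lit 27982921998), (nat_lit 28954073189), (nat_lit 29114409953), (nat_lit 29999985425), (nat_lit 30644297555), (nat_lit 31519539307)], (nat_lit 0), (nat_lit 0), (nat_lit 0), (nat_lit 0), (nat_lit 0), (nat_lit 0), [], [(nat_lit 1), (nat_lit 38), (nat_lit 203), (nat_lit 0), (nat_lit 8)]⟩,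
 ⟨⟨[(nat_lit 100), (nat_lit 140), (nat_lit 160)], [(nat_lit 0), (nat_lit 508), (nat_lit 1689)], [((nat_lit 0), (nat_lit 0), (nat_lit 0)), ((nat_lit 1000), (nat_lit 1000), (nat_lit 198)), ((nat_lit 811), (nat_lit 1000), (nat_lit 671))], ((nat_lit 100), (nat_lit 84), (nat_lit 63))⟩, (nat_lit 1179140), (nat_lit 966), (nat_lit 966), (nat_lit 0), (nat_lit 1559893), [(nat_lit 712500000), (nat_lit 1121988000), (nat_lit 1353408000)], [], [(nat_lit 2961912214), (nat_lit 3001544647), (nat_lit 3445777776), (nat_lit 3538938460), (nat_lit 2269871550), (nat_lit 2283880763), (nat_lit 2621889696), (nat_lit 2679033492)], (nat_lit 1271251), (nat_lit 1271251), (nat_lit 1271251), (nat_lit 1271251), (nat_lit 54688), (nat_lit 780000), [(nat_lit 1412501), (nat_lit 1271251), (nat_lit 1271251)], [(nat_lit 23), (nat_lit 62), (nat_lit 401), (nat_lit 175), (nat_lit 10)]⟩,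
 ⟨⟨[(nat_lit 120), (nat_lit 160), (nat_lit 180)], [(nat_lit 0), (nat_lit 533), (nat_lit 2066)], [((nat_lit 0), (nat_lit 0), (nat_lit 0)), ((nat_lit 960), (nat_lit 1000), (nat_lit 200)), ((nat_lit 615), (nat_lit 1000), (nat_lit 729))], ((nat_lit 100), (nat_lit 72), (nat_lit 63))⟩, (nat_lit 163902), (nat_lit 300), (nat_lit 1390), (nat_lit 4648002), (nat_lit 2256097), [(nat_lit 557760000), (nat_lit 831040000), (nat_lit 984060000)], [], [(nat_lit 3645466866), (nat_lit 3576342130), (nat_lit 3601361435), (nat_lit 3536537649), (nat_lit 3114601388), (nat_lit 3040742720), (nat_lit 3032790796), (nat_lit 2969063854)], (nat_lit 1271251), (nat_lit 1271251), (nat_lit 1271251), (nat_lit 1271251), (nat_lit 54688), (nat_lit 780000), [(nat_lit 1695001), (nat_lit 1271251), (nat_lit 1271251)], [(nat_lit 28), (nat_lit 65), (nat_lit 429), (nat_lit 175), (nat_lit 10)]⟩⟩)) (.stt (nat_lit 2) (.leaf ⟨(nat_lit 22), (nat_lit 842), (nat_lit 0), (nat_lit 136), (nat_lit 0), (nat_lit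 3467), (nat_lit 8379), (nat_lit 1324), (nat_lit 0), (nat_lit 182164), (nat_lit 88000), [((nat_lit 400), [((nat_lit 43), (nat_lit 5), (nat_lit 22))])], ⟨(nat_lit 7), true, false, true, (nat_lit 261), (nat_lit 0), (nat_lit 2237), [(nat_lit 1591251), (nat_lit 1574995), (nat_lit 1659577), (nat_lit 1649997), (nat_lit 1662517), (nat_lit 1637491), (nat_lit 1730844), (nat_lit 1712494)]⟩, ⟨(nat_lit 5), false, true, true, (nat_lit 229), (nat_lit 0), (nat_lit 2237), [(nat_lit 1477224), (nat_lit 1474999), (nat_lit 1521847), (nat_lit 1524073), (nat_lit 1634011), (nat_lit 1612493), (nat_lit 1679562), (nat_lit 1662495)]⟩, (nat_lit 5433106), (nat_lit 36326432), (nat_lit 16935500), (nat_lit 13738068), (nat_lit 5), (nat_lit 0), [⟨(nat_lit 1), (nat_lit 93), (nat_lit 31), (nat_lit 100), (nat_lit 560056874)⟩], [⟨(nat_lit 1), (nat_lit 95), (nat_lit 31), (nat_lit 100), (nat_lit 109519506)⟩, ⟨(nat_lit 1), (nat_lit 86), (nat_lit 44), (nat_lit 100), (nat_lit 485650323)⟩],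 [⟨(nat_lit 1), (nat_lit 5), (nat_lit 100), (nat_lit 100), (nat_lit 18733770)⟩], [],
 ⟨⟨[(nat_lit 40), (nat_lit 60)], [(nat_lit 0), (nat_lit 1539)], [((nat_lit 0), (nat_lit 0), (nat_lit 0)), ((nat_lit 1000), (nat_lit 478), (nat_lit 704))], ((nat_lit 48), (nat_lit 100), (nat_lit 69))⟩, (nat_lit 2111645), (nat_lit 65), (nat_lit 65), (nat_lit 0), (nat_lit 0), [(nat_lit 1823484004), (nat_lit 2838752800)], [(nat_lit 0), (nat_lit 0)], [(nat_lit 26346272613), (nat_lit 27475679082), (nat_lit 28255467237), (nat_lit 29360831567), (nat_lit 29366005780), (nat_lit 30379034426), (nat_lit 31017293840), (nat_lit 31924386844)], (nat_lit 0), (nat_lit 0), (nat_lit 0), (nat_lit 0), (nat_lit 0), (nat_lit 0), [], [(nat_lit 1), (nat_lit 38), (nat_lit 203), (nat_lit 0), (nat_lit 8)]⟩,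
 ⟨⟨[(nat_lit 120), (nat_lit 160), (nat_lit 180)], [(nat_lit 0), (nat_lit 533), (nat_lit 2066)], [((nat_lit 0), (nat_lit 0), (nat_lit 0)), ((nat_lit 960), (nat_lit 1000), (nat_lit 200)), ((nat_lit 615), (nat_lit 1000), (nat_lit 729))], ((nat_lit 100), (nat_lit 72), (nat_lit 63))⟩, (nat_lit 101315), (nat_lit 141), (nat_lit 141), (nat_lit 0), (nat_lit 0), [(nat_lit 7792704000), (nat_lit 11610816000), (nat_lit 13748724000)], [], [(nat_lit 18724502421), (nat_lit 21123107271), (nat_lit 23265059133), (nat_lit 25070032800), (nat_lit 32363990019), (nat_lit 32678705268), (nat_lit 34766923219), (nat_lit 35086406363)], (nat_lit 0), (nat_lit 0), (nat_lit 0), (nat_lit 0), (nat_lit 0), (nat_lit 0), [], [(nat_lit 28), (nat_lit 65), (nat_lit 483), (nat_lit 250), (nat_lit 11)]⟩,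
 ⟨⟨[(nat_lit 120), (nat_lit 160), (nat_lit 180)], [(nat_lit 0), (nat_lit 533), (nat_lit 2066)], [((nat_lit 0), (nat_lit 0), (nat_lit 0)), ((nat_lit 960), (nat_lit 1000), (nat_lit 200)), ((nat_lit 615), (nat_lit 1000), (nat_lit 729))], ((nat_lit 100), (nat_lit 72), (nat_lit 63))⟩, (nat_lit 585188), (nat_lit 300), (nat_lit 1781), (nat_lit 9030400), (nat_lit 3216873), [(nat_lit 1083648000), (nat_lit 1614592000), (nat_lit 1911888000)], [], [(nat_lit 7637682482), (nat_lit 7483023761), (nat_lit 7260470952), (nat_lit 7104953963), (nat_lit 6677040891), (nat_lit 6520455591), (nat_lit 6290149824), (nat_lit 6137930299)], (nat_lit 1271251), (nat_lit 1271251), (nat_lit 1271251), (nat_lit 1271251), (nat_lit 780000), (nat_lit 3072501), [(nat_lit 1695001), (nat_lit 1271251), (nat_lit 1271251)], [(nat_lit 28), (nat_lit 65), (nat_lit 562), (nat_lit 250), (nat_lit 13)]⟩⟩) (.spl (nat_lit 0) (nat_lit 390) (.leaf ⟨(nat_lit 940), (nat_lit 0), (nat_lit 0), (nat_lit 60),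 (nat_lit 0), (nat_lit 3162), (nat_lit 642), (nat_lit 748), (nat_lit 0), (nat_lit 1025166), (nat_lit 235000), [((nat_lit 390), [((nat_lit 28), (nat_lit 0), (nat_lit 940))])], ⟨(nat_lit 7), false, true, true, (nat_lit 263), (nat_lit 1581), (nat_lit 2237), [(nat_lit 1591255), (nat_lit 1585955), (nat_lit 1659578), (nat_lit 1655900), (nat_lit 1662524), (nat_lit 1654249), (nat_lit 1730848), (nat_lit 1724195)]⟩, ⟨(nat_lit 5), false, true, true, (nat_lit 231), (nat_lit 1581), (nat_lit 2237), [(nat_lit 1477224), (nat_lit 1476683), (nat_lit 1522729), (nat_lit 1523269), (nat_lit 1634017), (nat_lit 1626932), (nat_lit 1679566), (nat_lit 1673562)]⟩, (nat_lit 5448636), (nat_lit 36100768), (nat_lit 17094976), (nat_lit 13804256), (nat_lit 0), (nat_lit 0), [⟨(nat_lit 1), (nat_lit 91), (nat_lit 38), (nat_lit 100), (nat_lit 426211088)⟩], [⟨(nat_lit 1), (nat_lit 93), (nat_lit 38), (nat_lit 100), (nat_lit 146180662)⟩, ⟨(nat_lit 1), (nat_lit 86), (nat_lit 44), (nat_lit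 100), (nat_lit 73007551)⟩], [], [],
 ⟨⟨[(nat_lit 40), (nat_lit 60)], [(nat_lit 0), (nat_lit 1539)], [((nat_lit 0), (nat_lit 0), (nat_lit 0)), ((nat_lit 1000), (nat_lit 478), (nat_lit 704))], ((nat_lit 48), (nat_lit 100), (nat_lit 69))⟩, (nat_lit 0), (nat_lit 62), (nat_lit 62), (nat_lit 0), (nat_lit 0), [(nat_lit 1577288046), (nat_lit 1180160000)], [(nat_lit 0), (nat_lit 0)], [(nat_lit 26080704622), (nat_lit 26623279039), (nat_lit 27940676974), (nat_lit 28446003437), (nat_lit 29070314342), (nat_lit 29544250071), (nat_lit 30676683460), (nat_lit 31115687100)], (nat_lit 0), (nat_lit 0), (nat_lit 0), (nat_lit 0), (nat_lit 0), (nat_lit 0), [], [(nat_lit 1), (nat_lit 38), (nat_lit 203), (nat_lit 0), (nat_lit 8)]⟩,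
 ⟨⟨[(nat_lit 120), (nat_lit 160), (nat_lit 180)], [(nat_lit 0), (nat_lit 533), (nat_lit 2066)], [((nat_lit 0), (nat_lit 0), (nat_lit 0)), ((nat_lit 960), (nat_lit 1000), (nat_lit 200)), ((nat_lit 615), (nat_lit 1000), (nat_lit 729))], ((nat_lit 100), (nat_lit 72), (nat_lit 63))⟩, (nat_lit 654106), (nat_lit 1492), (nat_lit 1492), (nat_lit 0), (nat_lit 2686337), [(nat_lit 478080000), (nat_lit 712320000), (nat_lit 843480000)], [], [(nat_lit 1588636931), (nat_lit 1542276114), (nat_lit 1655026661), (nat_lit 1649614207), (nat_lit 2104728693), (nat_lit 2136009660), (nat_lit 2296045719), (nat_lit 2300233695)], (nat_lit 1271251), (nat_lit 1271251), (nat_lit 1271251), (nat_lit 1271251), (nat_lit 780000), (nat_lit 3072501), [(nat_lit 1695001), (nat_lit 1271251), (nat_lit 1271251)], [(nat_lit 28), (nat_lit 65), (nat_lit 495), (nat_lit 250), (nat_lit 11)]⟩,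
 ⟨⟨[(nat_lit 120), (nat_lit 160), (nat_lit 180)], [(nat_lit 0), (nat_lit 533), (nat_lit 2066)], [((nat_lit 0), (nat_lit 0), (nat_lit 0)), ((nat_lit 960), (nat_lit 1000), (nat_lit 200)), ((nat_lit 615), (nat_lit 1000), (nat_lit 729))], ((nat_lit 100), (nat_lit 72), (nat_lit 63))⟩, (nat_lit 140488), (nat_lit 300), (nat_lit 1187), (nat_lit 3984000), (nat_lit 1974749), [(nat_lit 478080000), (nat_lit 712320000), (nat_lit 843480000)], [], [(nat_lit 2507519290), (nat_lit 2459014086), (nat_lit 2468258817), (nat_lit 2406930463), (nat_lit 3083725914), (nat_lit 2416174060), (nat_lit 2413812380), (nat_lit 2343258052)], (nat_lit 1271251), (nat_lit 1271251), (nat_lit 1271251), (nat_lit 1271251), (nat_lit 780000), (nat_lit 3072501), [(nat_lit 1695001), (nat_lit 1271251), (nat_lit 1271251)], [(nat_lit 28), (nat_lit 65), (nat_lit 483), (nat_lit 250), (nat_lit 11)]⟩⟩) (.trX (nat_lit 3) (nat_lit 0) (nat_lit 1) (nat_lit 32) (nat_lit 89) (nat_lit 100) (nat_lit 300)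 (.trX (nat_lit 4) (nat_lit 0) (nat_lit 2) (nat_lit 31) (nat_lit 92) (nat_lit 100) (nat_lit 290) (.leaf ⟨(nat_lit 947), (nat_lit 0), (nat_lit 0), (nat_lit 53), (nat_lit 0), (nat_lit 3167), (nat_lit 584), (nat_lit 688), (nat_lit 0), (nat_lit 38123), (nat_lit 236750), [((nat_lit 400), [((nat_lit 28), (nat_lit 0), (nat_lit 947))])], ⟨(nat_lit 7), false, true, true, (nat_lit 252), (nat_lit 0), (nat_lit 1582), [(nat_lit 1585951), (nat_lit 1574995), (nat_lit 1655899), (nat_lit 1649997), (nat_lit 1613268), (nat_lit 1599994), (nat_lit 1683216), (nat_lit 1674997)]⟩, ⟨(nat_lit 5), false, true, true, (nat_lit 223), (nat_lit 0), (nat_lit 1582), [(nat_lit 1476683), (nat_lit 1474999), (nat_lit 1522658), (nat_lit 1524343), (nat_lit 1599609), (nat_lit 1587494), (nat_lit 1646241), (nat_lit 1637496)]⟩, (nat_lit 5364975), (nat_lit 37267448), (nat_lit 16299647), (nat_lit 13432905), (nat_lit 0), (nat_lit 0), [⟨(nat_lit 1), (nat_lit 89), (nat_lit 32), (nat_lit 100), (nat_lit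 513995173)⟩], [⟨(nat_lit 1), (nat_lit 92), (nat_lit 31), (nat_lit 100), (nat_lit 290688887)⟩], [], [],
 ⟨⟨[(nat_lit 40), (nat_lit 60)], [(nat_lit 0), (nat_lit 2136)], [((nat_lit 0), (nat_lit 0), (nat_lit 0)), ((nat_lit 1000), (nat_lit 343), (nat_lit 808))], ((nat_lit 37), (nat_lit 100), (nat_lit 75))⟩, (nat_lit 0), (nat_lit 61), (nat_lit 61), (nat_lit 0), (nat_lit 0), [(nat_lit 1575644403), (nat_lit 1164508000)], [(nat_lit 0), (nat_lit 0)], [(nat_lit 26616636096), (nat_lit 27159573280), (nat_lit 27308815831), (nat_lit 27829639921), (nat_lit 28910580191), (nat_lit 29420449417), (nat_lit 29535289668), (nat_lit 30024812767)], (nat_lit 0), (nat_lit 0), (nat_lit 0), (nat_lit 0), (nat_lit 0), (nat_lit 0), [], [(nat_lit 1), (nat_lit 38), (nat_lit 203), (nat_lit 0), (nat_lit 8)]⟩,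
 ⟨⟨[(nat_lit 120), (nat_lit 160), (nat_lit 180)], [(nat_lit 0), (nat_lit 533), (nat_lit 2066)], [((nat_lit 0), (nat_lit 0), (nat_lit 0)), ((nat_lit 960), (nat_lit 1000), (nat_lit 200)), ((nat_lit 615), (nat_lit 1000), (nat_lit 729))], ((nat_lit 100), (nat_lit 72), (nat_lit 63))⟩, (nat_lit 633604), (nat_lit 1682), (nat_lit 1682), (nat_lit 0), (nat_lit 3080343), [(nat_lit 422304000), (nat_lit 629216000), (nat_lit 745074000)], [], [(nat_lit 1300604094), (nat_lit 1275803654), (nat_lit 1311823286), (nat_lit 1310396011), (nat_lit 1877930207), (nat_lit 1904139314), (nat_lit 1940933272), (nat_lit 1957633157)], (nat_lit 1271251), (nat_lit 1271251), (nat_lit 1271251), (nat_lit 1271251), (nat_lit 780000), (nat_lit 3072501), [(nat_lit 1695001), (nat_lit 1271251), (nat_lit 1271251)], [(nat_lit 28), (nat_lit 65), (nat_lit 538), (nat_lit 250), (nat_lit 12)]⟩,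
 ⟨⟨[(nat_lit 120), (nat_lit 160), (nat_lit 180)], [(nat_lit 0), (nat_lit 533), (nat_lit 2066)], [((nat_lit 0), (nat_lit 0), (nat_lit 0)), ((nat_lit 960), (nat_lit 1000), (nat_lit 200)), ((nat_lit 615), (nat_lit 1000), (nat_lit 729))], ((nat_lit 100), (nat_lit 72), (nat_lit 63))⟩, (nat_lit 124098), (nat_lit 300), (nat_lit 1322), (nat_lit 3519200), (nat_lit 2256759), [(nat_lit 422304000), (nat_lit 629216000), (nat_lit 745074000)], [], [(nat_lit 2180835960), (nat_lit 2103423367), (nat_lit 2107978849), (nat_lit 2052533147), (nat_lit 2759187392), (nat_lit 2106222416), (nat_lit 2088429510), (nat_lit 2035772754)], (nat_lit 1271251), (nat_lit 1271251), (nat_lit 1271251), (nat_lit 1271251), (nat_lit 780000), (nat_lit 3072501), [(nat_lit 1695001), (nat_lit 1271251), (nat_lit 1271251)], [(nat_lit 28), (nat_lit 65), (nat_lit 483), (nat_lit 250), (nat_lit 11)]⟩⟩)))))))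
noncomputable def c13_26 : Tr Lf :=
 (.ord (.spl (nat_lit 5) (nat_lit 120) (.spl (nat_lit 0) (nat_lit 390) (.leaf ⟨(nat_lit 857), (nat_lit 22), (nat_lit 0), (nat_lit 121), (nat_lit 0), (nat_lit 3004), (nat_lit 1387), (nat_lit 1388), (nat_lit 0), (nat_lit 635276427685), (nat_lit 342800), [((nat_lit 390), [((nat_lit 28), (nat_lit 1), (nat_lit 857))])], ⟨(nat_lit 5), false, true, true, (nat_lit 250), (nat_lit 1581), (nat_lit 2237), [(nat_lit 1522729), (nat_lit 1523269), (nat_lit 1545457), (nat_lit 1546538), (nat_lit 1708073), (nat_lit 1700880), (nat_lit 1730848), (nat_lit 1724195)]⟩, ⟨(nat_lit 5), false, true, true, (nat_lit 250), (nat_lit 1581), (nat_lit 2237), [(nat_lit 1522729), (nat_lit 1523269), (nat_lit 1545457), (nat_lit 1546538), (nat_lit 1708073), (nat_lit 1700880), (nat_lit 1730848), (nat_lit 1724195)]⟩, (nat_lit 5488218), (nat_lit 35770466), (nat_lit 15614767), (nat_lit 15614767), (nat_lit 5), (nat_lit 0), [], [], [], [⟨(nat_lit 0), (nat_lit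 100), (nat_lit 100), (nat_lit 65), (nat_lit 137390420)⟩],
 ⟨⟨[(nat_lit 40), (nat_lit 60)], [(nat_lit 0), (nat_lit 1539)], [((nat_lit 0), (nat_lit 0), (nat_lit 0)), ((nat_lit 1000), (nat_lit 478), (nat_lit 704))], ((nat_lit 48), (nat_lit 100), (nat_lit 69))⟩, (nat_lit 0), (nat_lit 64), (nat_lit 64), (nat_lit 0), (nat_lit 0), [(nat_lit 1452800402), (nat_lit 747679600)], [(nat_lit 0), (nat_lit 0)], [(nat_lit 23539141546), (nat_lit 24153136945), (nat_lit 27783705165), (nat_lit 28261875224), (nat_lit 27783705165), (nat_lit 28261875224), (nat_lit 31158061937), (nat_lit 31571294076)], (nat_lit 0), (nat_lit 0), (nat_lit 0), (nat_lit 0), (nat_lit 0), (nat_lit 0), [], [(nat_lit 1), (nat_lit 38), (nat_lit 203), (nat_lit 0), (nat_lit 9)]⟩,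
 ⟨⟨[(nat_lit 100), (nat_lit 140), (nat_lit 160)], [(nat_lit 0), (nat_lit 508), (nat_lit 1689)], [((nat_lit 0), (nat_lit 0), (nat_lit 0)), ((nat_lit 1000), (nat_lit 1000), (nat_lit 198)), ((nat_lit 811), (nat_lit 1000), (nat_lit 671))], ((nat_lit 100), (nat_lit 84), (nat_lit 63))⟩, (nat_lit 1507969), (nat_lit 899), (nat_lit 899), (nat_lit 0), (nat_lit 1350936), [(nat_lit 893750000), (nat_lit 1407406000), (nat_lit 1697696000)], [], [(nat_lit 3761247604), (nat_lit 3767994428), (nat_lit 4411408058), (nat_lit 4508423636), (nat_lit 3131367691), (nat_lit 3131430386), (nat_lit 3304499258), (nat_lit 3376138065)], (nat_lit 1271251), (nat_lit 1271251), (nat_lit 1271251), (nat_lit 1271251), (nat_lit 0), (nat_lit 780000), [(nat_lit 1412501), (nat_lit 1271251), (nat_lit 1271251)], [(nat_lit 23), (nat_lit 62), (nat_lit 401), (nat_lit 175), (nat_lit 10)]⟩,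
 ⟨⟨[(nat_lit 100), (nat_lit 140), (nat_lit 160)], [(nat_lit 0), (nat_lit 508), (nat_lit 1689)], [((nat_lit 0), (nat_lit 0), (nat_lit 0)), ((nat_lit 1000), (nat_lit 1000), (nat_lit 198)), ((nat_lit 811), (nat_lit 1000), (nat_lit 671))], ((nat_lit 100), (nat_lit 84), (nat_lit 63))⟩, (nat_lit 260102), (nat_lit 300), (nat_lit 899), (nat_lit 7562502), (nat_lit 1350936), [(nat_lit 756250000), (nat_lit 1190882000), (nat_lit 1436512000)], [], [(nat_lit 5103020126), (nat_lit 5063306756), (nat_lit 5246055613), (nat_lit 5240464517), (nat_lit 4160458790), (nat_lit 4119202864), (nat_lit 4210749756), (nat_lit 4174206347)], (nat_lit 1271251), (nat_lit 1271251), (nat_lit 1271251), (nat_lit 1271251), (nat_lit 0), (nat_lit 780000), [(nat_lit 1412501), (nat_lit 1271251), (nat_lit 1271251)], [(nat_lit 23), (nat_lit 62), (nat_lit 401), (nat_lit 175), (nat_lit 10)]⟩⟩) (.trX (nat_lit 3) (nat_lit 0) (nat_lit 1) (nat_lit 32) (nat_lit 89) (nat_lit 100) (nat_lit 300) (.trX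 (nat_lit 4) (nat_lit 0) (nat_lit 2) (nat_lit 32) (nat_lit 89) (nat_lit 100) (nat_lit 300) (.leaf ⟨(nat_lit 874), (nat_lit 6), (nat_lit 0), (nat_lit 120), (nat_lit 0), (nat_lit 3016), (nat_lit 1308), (nat_lit 1308), (nat_lit 0), (nat_lit 25516), (nat_lit 349600), [((nat_lit 400), [((nat_lit 28), (nat_lit 1), (nat_lit 874))])], ⟨(nat_lit 5), false, true, true, (nat_lit 240), (nat_lit 0), (nat_lit 1582), [(nat_lit 1522658), (nat_lit 1524343), (nat_lit 1545316), (nat_lit 1548686), (nat_lit 1659900), (nat_lit 1649996), (nat_lit 1683216), (nat_lit 1674997)]⟩, ⟨(nat_lit 5), false, true, true, (nat_lit 240), (nat_lit 0), (nat_lit 1582), [(nat_lit 1522658), (nat_lit 1524343), (nat_lit 1545316), (nat_lit 1548686), (nat_lit 1659900), (nat_lit 1649996), (nat_lit 1683216), (nat_lit 1674997)]⟩, (nat_lit 5401320), (nat_lit 36960450), (nat_lit 15019775), (nat_lit 15019775), (nat_lit 5), (nat_lit 0), [⟨(nat_lit 1), (nat_lit 94), (nat_lit 22), (nat_lit 100), (nat_lit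 106979912)⟩], [], [], [⟨(nat_lit 0), (nat_lit 100), (nat_lit 100), (nat_lit 50), (nat_lit 135974964)⟩],
 ⟨⟨[(nat_lit 40), (nat_lit 60)], [(nat_lit 0), (nat_lit 2136)], [((nat_lit 0), (nat_lit 0), (nat_lit 0)), ((nat_lit 1000), (nat_lit 343), (nat_lit 808))], ((nat_lit 37), (nat_lit 100), (nat_lit 75))⟩, (nat_lit 0), (nat_lit 61), (nat_lit 61), (nat_lit 0), (nat_lit 0), [(nat_lit 1445952802), (nat_lit 697407200)], [(nat_lit 0), (nat_lit 0)], [(nat_lit 24130202918), (nat_lit 24745296764), (nat_lit 27142947268), (nat_lit 27653556624), (nat_lit 27142947268), (nat_lit 27653556624), (nat_lit 29676456801), (nat_lit 30147261838)], (nat_lit 0), (nat_lit 0), (nat_lit 0), (nat_lit 0), (nat_lit 0), (nat_lit 0), [], [(nat_lit 1), (nat_lit 38), (nat_lit 203), (nat_lit 0), (nat_lit 8)]⟩,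
 ⟨⟨[(nat_lit 100), (nat_lit 140), (nat_lit 160)], [(nat_lit 0), (nat_lit 508), (nat_lit 1689)], [((nat_lit 0), (nat_lit 0), (nat_lit 0)), ((nat_lit 1000), (nat_lit 1000), (nat_lit 198)), ((nat_lit 811), (nat_lit 1000), (nat_lit 671))], ((nat_lit 100), (nat_lit 84), (nat_lit 63))⟩, (nat_lit 1459269), (nat_lit 988), (nat_lit 988), (nat_lit 0), (nat_lit 1533043), [(nat_lit 787500000), (nat_lit 1240092000), (nat_lit 1495872000)], [], [(nat_lit 2859947610), (nat_lit 2851497864), (nat_lit 3485676818), (nat_lit 3572978064), (nat_lit 2583630498), (nat_lit 2242266864), (nat_lit 2466389951), (nat_lit 2545751631)], (nat_lit 1271251), (nat_lit 1271251), (nat_lit 1271251), (nat_lit 1271251), (nat_lit 0), (nat_lit 780000), [(nat_lit 1412501), (nat_lit 1271251), (nat_lit 1271251)], [(nat_lit 23), (nat_lit 62), (nat_lit 401), (nat_lit 175), (nat_lit 10)]⟩,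
 ⟨⟨[(nat_lit 100), (nat_lit 140), (nat_lit 160)], [(nat_lit 0), (nat_lit 508), (nat_lit 1689)], [((nat_lit 0), (nat_lit 0), (nat_lit 0)), ((nat_lit 1000), (nat_lit 1000), (nat_lit 198)), ((nat_lit 811), (nat_lit 1000), (nat_lit 671))], ((nat_lit 100), (nat_lit 84), (nat_lit 63))⟩, (nat_lit 257953), (nat_lit 300), (nat_lit 988), (nat_lit 7500000), (nat_lit 1533043), [(nat_lit 750000000), (nat_lit 1181040000), (nat_lit 1424640000)], [], [(nat_lit 5272183272), (nat_lit 5236308216), (nat_lit 5245837302), (nat_lit 5219622276), (nat_lit 4392775944), (nat_lit 4355808996), (nat_lit 4312687583), (nat_lit 4272782064)], (nat_lit 1271251), (nat_lit 1271251), (nat_lit 1271251), (nat_lit 1271251), (nat_lit 0), (nat_lit 780000), [(nat_lit 1412501), (nat_lit 1271251), (nat_lit 1271251)], [(nat_lit 23), (nat_lit 62), (nat_lit 401), (nat_lit 175), (nat_lit 10)]⟩⟩)))) (.spl (nat_lit 3) (nat_lit 280) (.leaf ⟨(nat_lit 927), (nat_lit 0), (nat_lit 0), (nat_lit 73), (nat_lit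 0), (nat_lit 2941), (nat_lit 733), (nat_lit 778), (nat_lit 0), (nat_lit 63666259191), (nat_lit 370800), [((nat_lit 400), [((nat_lit 28), (nat_lit 1), (nat_lit 927))])], ⟨(nat_lit 5), false, true, true, (nat_lit 235), (nat_lit 0), (nat_lit 2237), [(nat_lit 1521847), (nat_lit 1524073), (nat_lit 1543695), (nat_lit 1548146), (nat_lit 1636802), (nat_lit 1624997), (nat_lit 1659577), (nat_lit 1649997)]⟩, ⟨(nat_lit 5), false, true, true, (nat_lit 249), (nat_lit 0), (nat_lit 2237), [(nat_lit 1521847), (nat_lit 1524073), (nat_lit 1543695), (nat_lit 1548146), (nat_lit 1708068), (nat_lit 1687494), (nat_lit 1730844), (nat_lit 1712494)]⟩, (nat_lit 5415179), (nat_lit 36739737), (nat_lit 14454280), (nat_lit 15805983), (nat_lit 0), (nat_lit 0), [], [⟨(nat_lit 1), (nat_lit 90), (nat_lit 32), (nat_lit 100), (nat_lit 307179988)⟩], [], [],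
 ⟨⟨[(nat_lit 40), (nat_lit 60)], [(nat_lit 0), (nat_lit 1539)], [((nat_lit 0), (nat_lit 0), (nat_lit 0)), ((nat_lit 1000), (nat_lit 478), (nat_lit 704))], ((nat_lit 48), (nat_lit 100), (nat_lit 69))⟩, (nat_lit 0), (nat_lit 65), (nat_lit 65), (nat_lit 0), (nat_lit 0), [(nat_lit 1424604430), (nat_lit 540675600)], [(nat_lit 0), (nat_lit 0)], [(nat_lit 23537020291), (nat_lit 24753477395), (nat_lit 25939691775), (nat_lit 26992771962), (nat_lit 27763998152), (nat_lit 28712005759), (nat_lit 29582354260), (nat_lit 30470050308)], (nat_lit 0), (nat_lit 0), (nat_lit 0), (nat_lit 0), (nat_lit 0), (nat_lit 0), [], [(nat_lit 1), (nat_lit 38), (nat_lit 203), (nat_lit 0), (nat_lit 9)]⟩,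
 ⟨⟨[(nat_lit 100), (nat_lit 140), (nat_lit 160)], [(nat_lit 0), (nat_lit 508), (nat_lit 1689)], [((nat_lit 0), (nat_lit 0), (nat_lit 0)), ((nat_lit 1000), (nat_lit 1000), (nat_lit 198)), ((nat_lit 811), (nat_lit 1000), (nat_lit 671))], ((nat_lit 100), (nat_lit 84), (nat_lit 63))⟩, (nat_lit 756635), (nat_lit 1190), (nat_lit 1190), (nat_lit 0), (nat_lit 2150309), [(nat_lit 456250000), (nat_lit 718466000), (nat_lit 866656000)], [], [(nat_lit 2660559812), (nat_lit 2269808140), (nat_lit 1486924460), (nat_lit 1470674871), (nat_lit 2486964279), (nat_lit 2364036546), (nat_lit 2535450045), (nat_lit 2549485684)], (nat_lit 1271251), (nat_lit 1271251), (nat_lit 1271251), (nat_lit 1271251), (nat_lit 780000), (nat_lit 3072501), [(nat_lit 1412501), (nat_lit 1271251), (nat_lit 1271251)], [(nat_lit 23), (nat_lit 62), (nat_lit 483), (nat_lit 250), (nat_lit 12)]⟩,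
 ⟨⟨[(nat_lit 100), (nat_lit 140), (nat_lit 160)], [(nat_lit 0), (nat_lit 508), (nat_lit 1689)], [((nat_lit 0), (nat_lit 0), (nat_lit 0)), ((nat_lit 1000), (nat_lit 1000), (nat_lit 198)), ((nat_lit 811), (nat_lit 1000), (nat_lit 671))], ((nat_lit 100), (nat_lit 84), (nat_lit 63))⟩, (nat_lit 156922), (nat_lit 300), (nat_lit 1190), (nat_lit 4562500), (nat_lit 2150309), [(nat_lit 456250000), (nat_lit 718466000), (nat_lit 866656000)], [], [(nat_lit 2752594327), (nat_lit 2722190923), (nat_lit 2705063597), (nat_lit 2685762844), (nat_lit 2702884078), (nat_lit 2685150666), (nat_lit 2793216414), (nat_lit 2795039340)], (nat_lit 1271251), (nat_lit 1271251), (nat_lit 1271251), (nat_lit 1271251), (nat_lit 780000), (nat_lit 3072501), [(nat_lit 1412501), (nat_lit 1271251), (nat_lit 1271251)], [(nat_lit 23), (nat_lit 62), (nat_lit 483), (nat_lit 250), (nat_lit 12)]⟩⟩) (.leaf ⟨(nat_lit 715), (nat_lit 0), (nat_lit 0), (nat_lit 285), (nat_lit 0), (nat_lit 3016), (nat_lit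 3092), (nat_lit 2898), (nat_lit 0), (nat_lit 394532), (nat_lit 429000), [((nat_lit 400), [((nat_lit 43), (nat_lit 2), (nat_lit 715))])], ⟨(nat_lit 7), false, true, true, (nat_lit 271), (nat_lit 0), (nat_lit 2237), [(nat_lit 1636802), (nat_lit 1624997), (nat_lit 1659577), (nat_lit 1649997), (nat_lit 1708068), (nat_lit 1687494), (nat_lit 1730844), (nat_lit 1712494)]⟩, ⟨(nat_lit 5), false, true, true, (nat_lit 249), (nat_lit 0), (nat_lit 2237), [(nat_lit 1521847), (nat_lit 1524073), (nat_lit 1543695), (nat_lit 1548146), (nat_lit 1708068), (nat_lit 1687494), (nat_lit 1730844), (nat_lit 1712494)]⟩, (nat_lit 5559262), (nat_lit 34611828), (nat_lit 17294753), (nat_lit 15093419), (nat_lit 0), (nat_lit 0), [⟨(nat_lit 1), (nat_lit 90), (nat_lit 32), (nat_lit 100), (nat_lit 1569379483)⟩], [], [], [],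
 ⟨⟨[(nat_lit 40), (nat_lit 60)], [(nat_lit 0), (nat_lit 1539)], [((nat_lit 0), (nat_lit 0), (nat_lit 0)), ((nat_lit 1000), (nat_lit 478), (nat_lit 704))], ((nat_lit 48), (nat_lit 100), (nat_lit 69))⟩, (nat_lit 518942), (nat_lit 66), (nat_lit 66), (nat_lit 0), (nat_lit 0), [(nat_lit 1507710011), (nat_lit 482632000)], [(nat_lit 0), (nat_lit 0)], [(nat_lit 26050126562), (nat_lit 27114089774), (nat_lit 27886536777), (nat_lit 28843584846), (nat_lit 29704209803), (nat_lit 30559100658), (nat_lit 31172007107), (nat_lit 31999516356)], (nat_lit 0), (nat_lit 0), (nat_lit 0), (nat_lit 0), (nat_lit 0), (nat_lit 0), [], [(nat_lit 1), (nat_lit 38), (nat_lit 203), (nat_lit 0), (nat_lit 8)]⟩,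
 ⟨⟨[(nat_lit 100), (nat_lit 140), (nat_lit 160)], [(nat_lit 0), (nat_lit 508), (nat_lit 1689)], [((nat_lit 0), (nat_lit 0), (nat_lit 0)), ((nat_lit 1000), (nat_lit 1000), (nat_lit 198)), ((nat_lit 811), (nat_lit 1000), (nat_lit 671))], ((nat_lit 100), (nat_lit 84), (nat_lit 63))⟩, (nat_lit 6039181), (nat_lit 1161), (nat_lit 1161), (nat_lit 0), (nat_lit 2150309), [(nat_lit 1781250000), (nat_lit 2804970000), (nat_lit 3383520000)], [], [(nat_lit 4465089122), (nat_lit 4544137182), (nat_lit 6216340409), (nat_lit 6508165581), (nat_lit 10141293371), (nat_lit 10189629210), (nat_lit 10970243166), (nat_lit 10975167695)], (nat_lit 1271251), (nat_lit 1271251), (nat_lit 1271251), (nat_lit 1271251), (nat_lit 780000), (nat_lit 3072501), [(nat_lit 1412501), (nat_lit 1271251), (nat_lit 1271251)], [(nat_lit 23), (nat_lit 62), (nat_lit 483), (nat_lit 250), (nat_lit 12)]⟩,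
 ⟨⟨[(nat_lit 100), (nat_lit 140), (nat_lit 160)], [(nat_lit 0), (nat_lit 508), (nat_lit 1689)], [((nat_lit 0), (nat_lit 0), (nat_lit 0)), ((nat_lit 1000), (nat_lit 1000), (nat_lit 198)), ((nat_lit 811), (nat_lit 1000), (nat_lit 671))], ((nat_lit 100), (nat_lit 84), (nat_lit 63))⟩, (nat_lit 975317), (nat_lit 300), (nat_lit 1190), (nat_lit 17812500), (nat_lit 2150309), [(nat_lit 1781250000), (nat_lit 2804970000), (nat_lit 3383520000)], [], [(nat_lit 11480711706), (nat_lit 11366055687), (nat_lit 11138008607), (nat_lit 11034004734), (nat_lit 10842779022), (nat_lit 10740402858), (nat_lit 10882159939), (nat_lit 10783346066)], (nat_lit 1271251), (nat_lit 1271251), (nat_lit 1271251), (nat_lit 1271251), (nat_lit 780000), (nat_lit 3072501), [(nat_lit 1412501), (nat_lit 1271251), (nat_lit 1271251)], [(nat_lit 23), (nat_lit 62), (nat_lit 483), (nat_lit 250), (nat_lit 12)]⟩⟩))))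
noncomputable def c13_27 : Tr Lf :=
 (.spl (nat_lit 5) (nat_lit 120) (.spl (nat_lit 0) (nat_lit 390) (.leaf ⟨(nat_lit 707), (nat_lit 39), (nat_lit 0), (nat_lit 254), (nat_lit 0), (nat_lit 3921), (nat_lit 3700), (nat_lit 3700), (nat_lit 0), (nat_lit 22633877583), (nat_lit 176750), [((nat_lit 390), [((nat_lit 28), (nat_lit 0), (nat_lit 707))])], ⟨(nat_lit 5), false, true, true, (nat_lit 241), (nat_lit 1581), (nat_lit 2237), [(nat_lit 1477224), (nat_lit 1476683), (nat_lit 1545457), (nat_lit 1546538), (nat_lit 1662524), (nat_lit 1654249), (nat_lit 1730848), (nat_lit 1724195)]⟩, ⟨(nat_lit 5), false, true, true, (nat_lit 241), (nat_lit 1581), (nat_lit 2237), [(nat_lit 1477224), (nat_lit 1476683), (nat_lit 1545457), (nat_lit 1546538), (nat_lit 1662524), (nat_lit 1654249), (nat_lit 1730848), (nat_lit 1724195)]⟩, (nat_lit 5405419), (nat_lit 36906396), (nat_lit 15046802), (nat_lit 15046802), (nat_lit 5), (nat_lit 0), [], [], [⟨(nat_lit 0), (nat_lit 100),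 (nat_lit 100), (nat_lit 10), (nat_lit 4328102)⟩], [⟨(nat_lit 0), (nat_lit 100), (nat_lit 100), (nat_lit 65), (nat_lit 76148883)⟩],
 ⟨⟨[(nat_lit 40), (nat_lit 60)], [(nat_lit 0), (nat_lit 1539)], [((nat_lit 0), (nat_lit 0), (nat_lit 0)), ((nat_lit 1000), (nat_lit 478), (nat_lit 704))], ((nat_lit 48), (nat_lit 100), (nat_lit 69))⟩, (nat_lit 0), (nat_lit 208), (nat_lit 208), (nat_lit 0), (nat_lit 582634), [(nat_lit 1631996409), (nat_lit 1701148000)], [(nat_lit 0), (nat_lit 0)], [(nat_lit 24157591045), (nat_lit 24705412685), (nat_lit 28739696082), (nat_lit 29330518081), (nat_lit 28739696082), (nat_lit 29330518081), (nat_lit 32223705302), (nat_lit 32676864100)], (nat_lit 1271251), (nat_lit 1271251), (nat_lit 1271251), (nat_lit 1271251), (nat_lit 1271251), (nat_lit 1271251), [(nat_lit 490000), (nat_lit 780000)], [(nat_lit 1), (nat_lit 38), (nat_lit 203), (nat_lit 0), (nat_lit 9)]⟩,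
 ⟨⟨[(nat_lit 120), (nat_lit 160), (nat_lit 180)], [(nat_lit 0), (nat_lit 533), (nat_lit 2066)], [((nat_lit 0), (nat_lit 0), (nat_lit 0)), ((nat_lit 960), (nat_lit 1000), (nat_lit 200)), ((nat_lit 615), (nat_lit 1000), (nat_lit 729))], ((nat_lit 100), (nat_lit 72), (nat_lit 63))⟩, (nat_lit 2128048), (nat_lit 636), (nat_lit 636), (nat_lit 0), (nat_lit 594971), [(nat_lit 2334624000), (nat_lit 3478496000), (nat_lit 4118994000)], [], [(nat_lit 10026356415), (nat_lit 10125511220), (nat_lit 11406023531), (nat_lit 11673050819), (nat_lit 11496963158), (nat_lit 7308965886), (nat_lit 8431835100), (nat_lit 8412669566)], (nat_lit 1271251), (nat_lit 1271251), (nat_lit 1271251), (nat_lit 1271251), (nat_lit 0), (nat_lit 780000), [(nat_lit 1695001), (nat_lit 1271251), (nat_lit 1271251)], [(nat_lit 28), (nat_lit 65), (nat_lit 401), (nat_lit 175), (nat_lit 9)]⟩,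
 ⟨⟨[(nat_lit 120), (nat_lit 160), (nat_lit 180)], [(nat_lit 0), (nat_lit 533), (nat_lit 2066)], [((nat_lit 0), (nat_lit 0), (nat_lit 0)), ((nat_lit 960), (nat_lit 1000), (nat_lit 200)), ((nat_lit 615), (nat_lit 1000), (nat_lit 729))], ((nat_lit 100), (nat_lit 72), (nat_lit 63))⟩, (nat_lit 594732), (nat_lit 300), (nat_lit 636), (nat_lit 16865600), (nat_lit 594971), [(nat_lit 2023872000), (nat_lit 3015488000), (nat_lit 3570732000)], [], [(nat_lit 12261863768), (nat_lit 12158893184), (nat_lit 12990834019), (nat_lit 12669303247), (nat_lit 9903186974), (nat_lit 9061684240), (nat_lit 9786392007), (nat_lit 9473967065)], (nat_lit 1271251), (nat_lit 1271251), (nat_lit 1271251), (nat_lit 1271251), (nat_lit 0), (nat_lit 780000), [(nat_lit 1695001), (nat_lit 1271251), (nat_lit 1271251)], [(nat_lit 28), (nat_lit 65), (nat_lit 401), (nat_lit 175), (nat_lit 9)]⟩⟩) (.trX (nat_lit 3) (nat_lit 0) (nat_lit 1) (nat_lit 32) (nat_lit 89) (nat_lit 100) (nat_lit 300) (.trX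 (nat_lit 4) (nat_lit 0) (nat_lit 2) (nat_lit 32) (nat_lit 89) (nat_lit 100) (nat_lit 300) (.leaf ⟨(nat_lit 754), (nat_lit 18), (nat_lit 0), (nat_lit 228), (nat_lit 0), (nat_lit 3783), (nat_lit 3321), (nat_lit 3321), (nat_lit 0), (nat_lit 542360), (nat_lit 204400), [((nat_lit 400), [((nat_lit 28), (nat_lit 0), (nat_lit 648)), ((nat_lit 28), (nat_lit 1), (nat_lit 106))])], ⟨(nat_lit 5), false, true, true, (nat_lit 231), (nat_lit 0), (nat_lit 1582), [(nat_lit 1476683), (nat_lit 1474999), (nat_lit 1545316), (nat_lit 1548686), (nat_lit 1613268), (nat_lit 1599994), (nat_lit 1683216), (nat_lit 1674997)]⟩, ⟨(nat_lit 5), false, true, true, (nat_lit 231), (nat_lit 0), (nat_lit 1582), [(nat_lit 1476683), (nat_lit 1474999), (nat_lit 1545316), (nat_lit 1548686), (nat_lit 1613268), (nat_lit 1599994), (nat_lit 1683216), (nat_lit 1674997)]⟩, (nat_lit 5304238), (nat_lit 38189382), (nat_lit 14405309), (nat_lit 14405309), (nat_lit 5), (nat_lit 0), [⟨(nat_lit 1), (nat_lit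 96), (nat_lit 22), (nat_lit 100), (nat_lit 16438290)⟩], [], [⟨(nat_lit 0), (nat_lit 100), (nat_lit 100), (nat_lit 10), (nat_lit 126393785)⟩], [⟨(nat_lit 0), (nat_lit 100), (nat_lit 100), (nat_lit 50), (nat_lit 90911374)⟩],
 ⟨⟨[(nat_lit 40), (nat_lit 60)], [(nat_lit 0), (nat_lit 2136)], [((nat_lit 0), (nat_lit 0), (nat_lit 0)), ((nat_lit 1000), (nat_lit 343), (nat_lit 808))], ((nat_lit 37), (nat_lit 100), (nat_lit 75))⟩, (nat_lit 0), (nat_lit 216), (nat_lit 216), (nat_lit 0), (nat_lit 618246), [(nat_lit 1603152852), (nat_lit 1519608800)], [(nat_lit 0), (nat_lit 0)], [(nat_lit 24812103268), (nat_lit 25352548499), (nat_lit 27896673888), (nat_lit 28522671972), (nat_lit 27896673888), (nat_lit 28522671972), (nat_lit 30511137984), (nat_lit 31025265338)], (nat_lit 1271251), (nat_lit 1271251), (nat_lit 1271251), (nat_lit 1271251), (nat_lit 1271251), (nat_lit 1271251), [(nat_lit 490000), (nat_lit 780000)], [(nat_lit 1), (nat_lit 38), (nat_lit 203), (nat_lit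 0), (nat_lit 8)]⟩,
 ⟨⟨[(nat_lit 120), (nat_lit 160), (nat_lit 180)], [(nat_lit 0), (nat_lit 533), (nat_lit 2066)], [((nat_lit 0), (nat_lit 0), (nat_lit 0)), ((nat_lit 960), (nat_lit 1000), (nat_lit 200)), ((nat_lit 615), (nat_lit 1000), (nat_lit 729))], ((nat_lit 100), (nat_lit 72), (nat_lit 63))⟩, (nat_lit 1658098), (nat_lit 667), (nat_lit 667), (nat_lit 0), (nat_lit 664921), [(nat_lit 1960128000), (nat_lit 2920512000), (nat_lit 3458268000)], [], [(nat_lit 8336472662), (nat_lit 8498341748), (nat_lit 9190514808), (nat_lit 9290088115), (nat_lit 9625097414), (nat_lit 5939034131), (nat_lit 6545206560), (nat_lit 6500468861)], (nat_lit 1271251), (nat_lit 1271251), (nat_lit 1271251), (nat_lit 1271251), (nat_lit 0), (nat_lit 780000), [(nat_lit 1695001), (nat_lit 1271251), (nat_lit 1271251)], [(nat_lit 28), (nat_lit 65), (nat_lit 401), (nat_lit 175), (nat_lit 9)]⟩,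
 ⟨⟨[(nat_lit 120), (nat_lit 160), (nat_lit 180)], [(nat_lit 0), (nat_lit 533), (nat_lit 2066)], [((nat_lit 0), (nat_lit 0), (nat_lit 0)), ((nat_lit 960), (nat_lit 1000), (nat_lit 200)), ((nat_lit 615), (nat_lit 1000), (nat_lit 729))], ((nat_lit 100), (nat_lit 72), (nat_lit 63))⟩, (nat_lit 533854), (nat_lit 300), (nat_lit 667), (nat_lit 15139200), (nat_lit 664921), [(nat_lit 1816704000), (nat_lit 2706816000), (nat_lit 3205224000)], [], [(nat_lit 11006893236), (nat_lit 10914371100), (nat_lit 11387007600), (nat_lit 11149824747), (nat_lit 8889508406), (nat_lit 8134447518), (nat_lit 8547146078), (nat_lit 8313459923)], (nat_lit 1271251), (nat_lit 1271251), (nat_lit 1271251), (nat_lit 1271251), (nat_lit 0), (nat_lit 780000), [(nat_lit 1695001), (nat_lit 1271251), (nat_lit 1271251)], [(nat_lit 28), (nat_lit 65), (nat_lit 401), (nat_lit 175), (nat_lit 9)]⟩⟩)))) (.spl (nat_lit 0) (nat_lit 390) (.leaf ⟨(nat_lit 849), (nat_lit 0), (nat_lit 0), (nat_lit 151),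 (nat_lit 0), (nat_lit 3463), (nat_lit 1600), (nat_lit 1716), (nat_lit 0), (nat_lit 732158), (nat_lit 339600), [((nat_lit 390), [((nat_lit 28), (nat_lit 1), (nat_lit 849))])], ⟨(nat_lit 5), false, true, true, (nat_lit 241), (nat_lit 1581), (nat_lit 2237), [(nat_lit 1477224), (nat_lit 1476683), (nat_lit 1545457), (nat_lit 1546538), (nat_lit 1662524), (nat_lit 1654249), (nat_lit 1730848), (nat_lit 1724195)]⟩, ⟨(nat_lit 5), false, true, true, (nat_lit 241), (nat_lit 1581), (nat_lit 2237), [(nat_lit 1477224), (nat_lit 1476683), (nat_lit 1545457), (nat_lit 1546538), (nat_lit 1662524), (nat_lit 1654249), (nat_lit 1730848), (nat_lit 1724195)]⟩, (nat_lit 5405419), (nat_lit 36906396), (nat_lit 15046802), (nat_lit 15046802), (nat_lit 0), (nat_lit 0), [⟨(nat_lit 1), (nat_lit 91), (nat_lit 38), (nat_lit 100), (nat_lit 16524862)⟩], [⟨(nat_lit 1), (nat_lit 91), (nat_lit 38), (nat_lit 100), (nat_lit 145014354)⟩], [], [],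
 ⟨⟨[(nat_lit 40), (nat_lit 60)], [(nat_lit 0), (nat_lit 1539)], [((nat_lit 0), (nat_lit 0), (nat_lit 0)), ((nat_lit 1000), (nat_lit 478), (nat_lit 704))], ((nat_lit 48), (nat_lit 100), (nat_lit 69))⟩, (nat_lit 0), (nat_lit 208), (nat_lit 208), (nat_lit 0), (nat_lit 582634), [(nat_lit 1456022816), (nat_lit 771337200)], [(nat_lit 0), (nat_lit 0)], [(nat_lit 24391282639), (nat_lit 24933019687), (nat_lit 28237665508), (nat_lit 28796779337), (nat_lit 28237665508), (nat_lit 28796779337), (nat_lit 31691464668), (nat_lit 32124681907)], (nat_lit 1271251), (nat_lit 1271251), (nat_lit 1271251), (nat_lit 1271251), (nat_lit 1271251), (nat_lit 1271251), [(nat_lit 490000), (nat_lit 780000)], [(nat_lit 1), (nat_lit 38), (nat_lit 203), (nat_lit 0), (nat_lit 9)]⟩,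
 ⟨⟨[(nat_lit 120), (nat_lit 160), (nat_lit 180)], [(nat_lit 0), (nat_lit 533), (nat_lit 2066)], [((nat_lit 0), (nat_lit 0), (nat_lit 0)), ((nat_lit 960), (nat_lit 1000), (nat_lit 200)), ((nat_lit 615), (nat_lit 1000), (nat_lit 729))], ((nat_lit 100), (nat_lit 72), (nat_lit 63))⟩, (nat_lit 1839441), (nat_lit 948), (nat_lit 948), (nat_lit 0), (nat_lit 1450297), [(nat_lit 1203168000), (nat_lit 1792672000), (nat_lit 2122758000)], [], [(nat_lit 5847662040), (nat_lit 4065078831), (nat_lit 4142790554), (nat_lit 4054022417), (nat_lit 7395753256), (nat_lit 5117968456), (nat_lit 5758368124), (nat_lit 5770798995)], (nat_lit 1271251), (nat_lit 1271251), (nat_lit 1271251), (nat_lit 1271251), (nat_lit 780000), (nat_lit 3072501), [(nat_lit 1695001), (nat_lit 1271251), (nat_lit 1271251)], [(nat_lit 28), (nat_lit 65), (nat_lit 483), (nat_lit 250), (nat_lit 11)]⟩,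
 ⟨⟨[(nat_lit 120), (nat_lit 160), (nat_lit 180)], [(nat_lit 0), (nat_lit 533), (nat_lit 2066)], [((nat_lit 0), (nat_lit 0), (nat_lit 0)), ((nat_lit 960), (nat_lit 1000), (nat_lit 200)), ((nat_lit 615), (nat_lit 1000), (nat_lit 729))], ((nat_lit 100), (nat_lit 72), (nat_lit 63))⟩, (nat_lit 353565), (nat_lit 300), (nat_lit 948), (nat_lit 10026400), (nat_lit 1450297), [(nat_lit 1203168000), (nat_lit 1792672000), (nat_lit 2122758000)], [], [(nat_lit 6871772998), (nat_lit 6641223155), (nat_lit 6679128669), (nat_lit 6471018622), (nat_lit 7545629374), (nat_lit 6278891356), (nat_lit 6380284163), (nat_lit 6140796436)], (nat_lit 1271251), (nat_lit 1271251), (nat_lit 1271251), (nat_lit 1271251), (nat_lit 780000), (nat_lit 3072501), [(nat_lit 1695001), (nat_lit 1271251), (nat_lit 1271251)], [(nat_lit 28), (nat_lit 65), (nat_lit 483), (nat_lit 250), (nat_lit 11)]⟩⟩) (.trX (nat_lit 3) (nat_lit 0) (nat_lit 1) (nat_lit 32) (nat_lit 89) (nat_lit 100) (nat_lit 300)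 (.trX (nat_lit 4) (nat_lit 0) (nat_lit 2) (nat_lit 32) (nat_lit 89) (nat_lit 100) (nat_lit 300) (.leaf ⟨(nat_lit 864), (nat_lit 0), (nat_lit 0), (nat_lit 136), (nat_lit 0), (nat_lit 3509), (nat_lit 1446), (nat_lit 1597), (nat_lit 0), (nat_lit 217810214467), (nat_lit 390800), [((nat_lit 400), [((nat_lit 28), (nat_lit 1), (nat_lit 638)), ((nat_lit 43), (nat_lit 2), (nat_lit 226))])], ⟨(nat_lit 5), false, true, true, (nat_lit 231), (nat_lit 0), (nat_lit 1582), [(nat_lit 1476683), (nat_lit 1474999), (nat_lit 1545316), (nat_lit 1548686), (nat_lit 1613268), (nat_lit 1599994), (nat_lit 1683216), (nat_lit 1674997)]⟩, ⟨(nat_lit 5), false, true, true, (nat_lit 231), (nat_lit 0), (nat_lit 1582), [(nat_lit 1476683), (nat_lit 1474999), (nat_lit 1545316), (nat_lit 1548686), (nat_lit 1613268), (nat_lit 1599994), (nat_lit 1683216), (nat_lit 1674997)]⟩, (nat_lit 5304238), (nat_lit 38189382), (nat_lit 14405309), (nat_lit 14405309), (nat_lit 0), (nat_lit 0), [⟨(nat_lit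 1), (nat_lit 96), (nat_lit 22), (nat_lit 100), (nat_lit 213515834)⟩], [⟨(nat_lit 1), (nat_lit 96), (nat_lit 22), (nat_lit 100), (nat_lit 273696755)⟩], [], [],
 ⟨⟨[(nat_lit 40), (nat_lit 60)], [(nat_lit 0), (nat_lit 2136)], [((nat_lit 0), (nat_lit 0), (nat_lit 0)), ((nat_lit 1000), (nat_lit 343), (nat_lit 808))], ((nat_lit 37), (nat_lit 100), (nat_lit 75))⟩, (nat_lit 0), (nat_lit 216), (nat_lit 216), (nat_lit 0), (nat_lit 618246), [(nat_lit 1449257605), (nat_lit 510471200)], [(nat_lit 0), (nat_lit 0)], [(nat_lit 24772228216), (nat_lit 25317199190), (nat_lit 27607397377), (nat_lit 28212021595), (nat_lit 27607397377), (nat_lit 28212021595), (nat_lit 30212959830), (nat_lit 30711610894)], (nat_lit 1271251), (nat_lit 1271251), (nat_lit 1271251), (nat_lit 1271251), (nat_lit 1271251), (nat_lit 1271251), [(nat_lit 490000), (nat_lit 780000)], [(nat_lit 1), (nat_lit 38), (nat_lit 203), (nat_lit 0), (nat_lit 8)]⟩,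
 ⟨⟨[(nat_lit 120), (nat_lit 160), (nat_lit 180)], [(nat_lit 0), (nat_lit 533), (nat_lit 2066)], [((nat_lit 0), (nat_lit 0), (nat_lit 0)), ((nat_lit 960), (nat_lit 1000), (nat_lit 200)), ((nat_lit 615), (nat_lit 1000), (nat_lit 729))], ((nat_lit 100), (nat_lit 72), (nat_lit 63))⟩, (nat_lit 1518173), (nat_lit 1024), (nat_lit 1024), (nat_lit 0), (nat_lit 1625884), [(nat_lit 1083648000), (nat_lit 1614592000), (nat_lit 1911888000)], [], [(nat_lit 5271784470), (nat_lit 3627497028), (nat_lit 3663032376), (nat_lit 3560980103), (nat_lit 6667458949), (nat_lit 4608910936), (nat_lit 4919190300), (nat_lit 4967204098)], (nat_lit 1271251), (nat_lit 1271251), (nat_lit 1271251), (nat_lit 1271251), (nat_lit 780000), (nat_lit 3072501), [(nat_lit 1695001), (nat_lit 1271251), (nat_lit 1271251)], [(nat_lit 28), (nat_lit 65), (nat_lit 483), (nat_lit 250), (nat_lit 11)]⟩,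
 ⟨⟨[(nat_lit 120), (nat_lit 160), (nat_lit 180)], [(nat_lit 0), (nat_lit 533), (nat_lit 2066)], [((nat_lit 0), (nat_lit 0), (nat_lit 0)), ((nat_lit 960), (nat_lit 1000), (nat_lit 200)), ((nat_lit 615), (nat_lit 1000), (nat_lit 729))], ((nat_lit 100), (nat_lit 72), (nat_lit 63))⟩, (nat_lit 318594), (nat_lit 300), (nat_lit 1024), (nat_lit 9030400), (nat_lit 1625884), [(nat_lit 1083648000), (nat_lit 1614592000), (nat_lit 1911888000)], [], [(nat_lit 5991700330), (nat_lit 5773176194), (nat_lit 5848086981), (nat_lit 5663449997), (nat_lit 6862556310), (nat_lit 5571121436), (nat_lit 5635911240), (nat_lit 5421600123)], (nat_lit 1271251), (nat_lit 1271251), (nat_lit 1271251), (nat_lit 1271251), (nat_lit 780000), (nat_lit 3072501), [(nat_lit 1695001), (nat_lit 1271251), (nat_lit 1271251)], [(nat_lit 28), (nat_lit 65), (nat_lit 483), (nat_lit 250), (nat_lit 11)]⟩⟩)))))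
noncomputable def c13_28 : Tr Lf :=
 (.spl (nat_lit 4) (nat_lit 120) (.leaf ⟨(nat_lit 1000), (nat_lit 0), (nat_lit 0), (nat_lit 0), (nat_lit 1804), (nat_lit 3824), (nat_lit 0), (nat_lit 0), (nat_lit 0), (nat_lit 347416004338), (nat_lit 332950), [((nat_lit 400), [((nat_lit 29), (nat_lit 0), (nat_lit 447)), ((nat_lit 29), (nat_lit 1), (nat_lit 553))])], ⟨(nat_lit 3), false, false, false, (nat_lit 124), (nat_lit 0), (nat_lit 2237), [(nat_lit 1177178), (nat_lit 1196337), (nat_lit 1308265), (nat_lit 1340778), (nat_lit 1294870), (nat_lit 1299999), (nat_lit 1425979), (nat_lit 1444462)]⟩, ⟨(nat_lit 3), false, false, false, (nat_lit 124), (nat_lit 0), (nat_lit 2237), [(nat_lit 1177178), (nat_lit 1196337), (nat_lit 1308265), (nat_lit 1340778), (nat_lit 1294870), (nat_lit 1299999), (nat_lit 1425979), (nat_lit 1444462)]⟩, (nat_lit 3294547), (nat_lit 54257954), (nat_lit 6371023), (nat_lit 6371023), (nat_lit 0), (nat_lit 0), [⟨(nat_lit 0), (nat_lit 100), (nat_lit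 31), (nat_lit 92), (nat_lit 630162379)⟩], [⟨(nat_lit 0), (nat_lit 100), (nat_lit 31), (nat_lit 92), (nat_lit 569254940)⟩], [], [],
 ⟨⟨[(nat_lit 40), (nat_lit 80), (nat_lit 100)], [(nat_lit 0), (nat_lit 2514), (nat_lit 3562)], [((nat_lit 0), (nat_lit 0), (nat_lit 0)), ((nat_lit 1000), (nat_lit 446), (nat_lit 804)), ((nat_lit 1000), (nat_lit 443), (nat_lit 819))], ((nat_lit 44), (nat_lit 100), (nat_lit 84))⟩, (nat_lit 0), (nat_lit 265), (nat_lit 265), (nat_lit 0), (nat_lit 209194), [(nat_lit 1471180801), (nat_lit 772180903), (nat_lit 850502800)], [(nat_lit 0), (nat_lit 0), (nat_lit 0)], [(nat_lit 24569736362), (nat_lit 26894900368), (nat_lit 22741870930), (nat_lit 24899120448), (nat_lit 22741870930), (nat_lit 24899120448), (nat_lit 21351624877), (nat_lit 23345364336)], (nat_lit 1271251), (nat_lit 1271251), (nat_lit 230000), (nat_lit 780000), (nat_lit 230000), (nat_lit 780000), [(nat_lit 490000), (nat_lit 1100000), (nat_lit 1442501)], [(nat_lit 3),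 (nat_lit 50), (nat_lit 272), (nat_lit 60), (nat_lit 10)]⟩,
 Rw.none,
 Rw.none⟩) (.spl (nat_lit 2) (nat_lit 180) (.trX (nat_lit 4) (nat_lit 0) (nat_lit 2) (nat_lit 44) (nat_lit 94) (nat_lit 100) (nat_lit 270) (.spl (nat_lit 1) (nat_lit 180) (.leaf ⟨(nat_lit 1000), (nat_lit 0), (nat_lit 0), (nat_lit 0), (nat_lit 2857), (nat_lit 3657), (nat_lit 0), (nat_lit 0), (nat_lit 0), (nat_lit 2535642354818), (nat_lit 322000), [((nat_lit 400), [((nat_lit 29), (nat_lit 0), (nat_lit 520)), ((nat_lit 29), (nat_lit 1), (nat_lit 480))])], ⟨(nat_lit 3), false, false, false, (nat_lit 111), (nat_lit 0), (nat_lit 2237), [(nat_lit 1177178), (nat_lit 1196337), (nat_lit 1242721), (nat_lit 1268557), (nat_lit 1294870), (nat_lit 1299999), (nat_lit 1360436), (nat_lit 1372242)]⟩, ⟨(nat_lit 3), false, false, true, (nat_lit 173), (nat_lit 0), (nat_lit 2237), [(nat_lit 1294870), (nat_lit 1299999), (nat_lit 1360436), (nat_lit 1372242), (nat_lit 1508671), (nat_lit 1487491), (nat_lit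 1576997), (nat_lit 1562495)]⟩, (nat_lit 3722771), (nat_lit 51099642), (nat_lit 5294581), (nat_lit 10605777), (nat_lit 0), (nat_lit 0), [⟨(nat_lit 0), (nat_lit 100), (nat_lit 32), (nat_lit 87), (nat_lit 335136431)⟩], [⟨(nat_lit 1), (nat_lit 100), (nat_lit 31), (nat_lit 97), (nat_lit 91256731)⟩, ⟨(nat_lit 1), (nat_lit 94), (nat_lit 44), (nat_lit 100), (nat_lit 97058582)⟩], [], [],
 ⟨⟨[(nat_lit 40), (nat_lit 80), (nat_lit 100)], [(nat_lit 0), (nat_lit 2514), (nat_lit 3562)], [((nat_lit 0), (nat_lit 0), (nat_lit 0)), ((nat_lit 1000), (nat_lit 446), (nat_lit 804)), ((nat_lit 1000), (nat_lit 443), (nat_lit 819))], ((nat_lit 44), (nat_lit 100), (nat_lit 84))⟩, (nat_lit 0), (nat_lit 247), (nat_lit 247), (nat_lit 0), (nat_lit 283760), [(nat_lit 1483328021), (nat_lit 810576206), (nat_lit 974048000)], [(nat_lit 0), (nat_lit 0), (nat_lit 0)], [(nat_lit 22421281865), (nat_lit 24523837714), (nat_lit 21888652849), (nat_lit 23158157219), (nat_lit 26297120370),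 (nat_lit 27895058611), (nat_lit 25009547317), (nat_lit 26493849351)], (nat_lit 1271251), (nat_lit 1271251), (nat_lit 230000), (nat_lit 780000), (nat_lit 780000), (nat_lit 2008126), [(nat_lit 490000), (nat_lit 1100000), (nat_lit 1442501)], [(nat_lit 3), (nat_lit 50), (nat_lit 317), (nat_lit 100), (nat_lit 11)]⟩,
 Rw.none,
 Rw.none⟩) (.trZ (nat_lit 0) (nat_lit 1) (nat_lit 3) (nat_lit 100) (nat_lit 44) (nat_lit 86) (nat_lit 90) (.leaf ⟨(nat_lit 1000), (nat_lit 0), (nat_lit 0), (nat_lit 0), (nat_lit 5107), (nat_lit 3185), (nat_lit 0), (nat_lit 0), (nat_lit 0), (nat_lit 0), (nat_lit 400000), [((nat_lit 400), [((nat_lit 29), (nat_lit 1), (nat_lit 1000))])], ⟨(nat_lit 4), false, false, false, (nat_lit 152), (nat_lit 0), (nat_lit 2237), [(nat_lit 1316293), (nat_lit 1333360), (nat_lit 1381836), (nat_lit 1405580), (nat_lit 1360436), (nat_lit 1372242), (nat_lit 1425979), (nat_lit 1444462)]⟩, ⟨(nat_lit 3), false, false, true, (nat_lit 173), (nat_lit 0), (nat_lit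 2237), [(nat_lit 1294870), (nat_lit 1299999), (nat_lit 1360436), (nat_lit 1372242), (nat_lit 1508671), (nat_lit 1487491), (nat_lit 1576997), (nat_lit 1562495)]⟩, (nat_lit 4231241), (nat_lit 48090878), (nat_lit 8494687), (nat_lit 10414435), (nat_lit 0), (nat_lit 0), [⟨(nat_lit 0), (nat_lit 100), (nat_lit 44), (nat_lit 86), (nat_lit 558224756)⟩], [⟨(nat_lit 1), (nat_lit 94), (nat_lit 44), (nat_lit 100), (nat_lit 173944868)⟩], [], [],
 ⟨⟨[(nat_lit 40), (nat_lit 80), (nat_lit 100)], [(nat_lit 0), (nat_lit 2514), (nat_lit 3562)], [((nat_lit 0), (nat_lit 0), (nat_lit 0)), ((nat_lit 1000), (nat_lit 446), (nat_lit 804)), ((nat_lit 1000), (nat_lit 443), (nat_lit 819))], ((nat_lit 44), (nat_lit 100), (nat_lit 84))⟩, (nat_lit 0), (nat_lit 194), (nat_lit 194), (nat_lit 0), (nat_lit 232748), [(nat_lit 1396800004), (nat_lit 372095033), (nat_lit 94000000)], [(nat_lit 0), (nat_lit 0), (nat_lit 0)], [(nat_lit 20916371431), (nat_lit 22264072553), (nat_lit 21220999412),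 (nat_lit 22489591398), (nat_lit 24348524007), (nat_lit 25787039873), (nat_lit 24479873457), (nat_lit 25866208177)], (nat_lit 1271251), (nat_lit 1271251), (nat_lit 559688), (nat_lit 780000), (nat_lit 780000), (nat_lit 2008126), [(nat_lit 490000), (nat_lit 1100000), (nat_lit 1442501)], [(nat_lit 3), (nat_lit 50), (nat_lit 317), (nat_lit 100), (nat_lit 11)]⟩,
 Rw.none,
 Rw.none⟩)))) (.ord (.trZ (nat_lit 0) (nat_lit 1) (nat_lit 3) (nat_lit 100) (nat_lit 44) (nat_lit 86) (nat_lit 90) (.spl (nat_lit 4) (nat_lit 240) (.leaf ⟨(nat_lit 1000), (nat_lit 0), (nat_lit 0), (nat_lit 0), (nat_lit 3090), (nat_lit 3644), (nat_lit 0), (nat_lit 0), (nat_lit 0), (nat_lit 3047735081667), (nat_lit 329350), [((nat_lit 400), [((nat_lit 29), (nat_lit 0), (nat_lit 471)), ((nat_lit 29), (nat_lit 1), (nat_lit 529))])], ⟨(nat_lit 4), false, false, false, (nat_lit 152), (nat_lit 0), (nat_lit 2237), [(nat_lit 1316293), (nat_lit 1333360), (nat_lit 1381836), (nat_lit 1405580), (nat_lit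 1360436), (nat_lit 1372242), (nat_lit 1425979), (nat_lit 1444462)]⟩, ⟨(nat_lit 4), false, false, false, (nat_lit 193), (nat_lit 0), (nat_lit 2237), [(nat_lit 1360436), (nat_lit 1372242), (nat_lit 1425979), (nat_lit 1444462), (nat_lit 1534237), (nat_lit 1524996), (nat_lit 1602531), (nat_lit 1599967)]⟩, (nat_lit 4421904), (nat_lit 46426002), (nat_lit 8371024), (nat_lit 12202974), (nat_lit 0), (nat_lit 0), [⟨(nat_lit 0), (nat_lit 100), (nat_lit 44), (nat_lit 86), (nat_lit 734934608)⟩], [], [], [],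
 ⟨⟨[(nat_lit 40), (nat_lit 80), (nat_lit 100)], [(nat_lit 0), (nat_lit 2514), (nat_lit 3562)], [((nat_lit 0), (nat_lit 0), (nat_lit 0)), ((nat_lit 1000), (nat_lit 446), (nat_lit 804)), ((nat_lit 1000), (nat_lit 443), (nat_lit 819))], ((nat_lit 44), (nat_lit 100), (nat_lit 84))⟩, (nat_lit 0), (nat_lit 172), (nat_lit 172), (nat_lit 0), (nat_lit 195590), [(nat_lit 1475174444), (nat_lit 893021108), (nat_lit 891120400)], [(nat_lit 0), (nat_lit 0), (nat_lit 0)], [(nat_lit 21275789559), (nat_lit 23009312526), (nat_lit 21504604955), (nat_lit 23082255816), (nat_lit 23545462673), (nat_lit 25190211610), (nat_lit 23648751052), (nat_lit 25231882120)], (nat_lit 1271251), (nat_lit 1271251), (nat_lit 559688), (nat_lit 780000), (nat_lit 780000), (nat_lit 1762501), [(nat_lit 490000), (nat_lit 1100000), (nat_lit 1442501)], [(nat_lit 3), (nat_lit 50), (nat_lit 317), (nat_lit 100), (nat_lit 11)]⟩,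
 Rw.none,
 Rw.none⟩) (.trX (nat_lit 5) (nat_lit 4) (nat_lit 3) (nat_lit 100) (nat_lit 59) (nat_lit 94) (nat_lit 370) (.spl (nat_lit 6) (nat_lit 68) (.leaf ⟨(nat_lit 1000), (nat_lit 0), (nat_lit 0), (nat_lit 0), (nat_lit 0), (nat_lit 3327), (nat_lit 0), (nat_lit 0), (nat_lit 0), (nat_lit 9793308947146), (nat_lit 250000), [((nat_lit 400), [((nat_lit 28), (nat_lit 0), (nat_lit 1000))])], ⟨(nat_lit 4), false, false, false, (nat_lit 152), (nat_lit 0), (nat_lit 2237), [(nat_lit 1316293), (nat_lit 1333360), (nat_lit 1381836), (nat_lit 1405580), (nat_lit 1360436), (nat_lit 1372242), (nat_lit 1425979), (nat_lit 1444462)]⟩, ⟨(nat_lit 6), false, true, true, (nat_lit 250), (nat_lit 0), (nat_lit 2237), [(nat_lit 1534237), (nat_lit 1524996), (nat_lit 1602531), (nat_lit 1599967), (nat_lit 1662517), (nat_lit 1637491), (nat_lit 1730844), (nat_lit 1712494)]⟩, (nat_lit 4816026), (nat_lit 41667495), (nat_lit 7898281), (nat_lit 17434224), (nat_lit 0), (nat_lit 0), [⟨(nat_lit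 0), (nat_lit 100), (nat_lit 44), (nat_lit 86), (nat_lit 1165133960)⟩], [⟨(nat_lit 1), (nat_lit 81), (nat_lit 44), (nat_lit 100), (nat_lit 388785943)⟩], [], [],
 ⟨⟨[(nat_lit 40), (nat_lit 60), (nat_lit 80)], [(nat_lit 0), (nat_lit 1539), (nat_lit 2453)], [((nat_lit 0), (nat_lit 0), (nat_lit 0)), ((nat_lit 1000), (nat_lit 478), (nat_lit 704)), ((nat_lit 1000), (nat_lit 474), (nat_lit 714))], ((nat_lit 45), (nat_lit 100), (nat_lit 78))⟩, (nat_lit 0), (nat_lit 153), (nat_lit 153), (nat_lit 0), (nat_lit 193111), [(nat_lit 1563200115), (nat_lit 1171766275), (nat_lit 1376400000)], [(nat_lit 0), (nat_lit 0), (nat_lit 0)], [(nat_lit 23876932324), (nat_lit 25065907030), (nat_lit 24113993706), (nat_lit 25260904736), (nat_lit 27331901960), (nat_lit 28601283460), (nat_lit 27352323006), (nat_lit 28579040098)], (nat_lit 1271251), (nat_lit 1271251), (nat_lit 559688), (nat_lit 780000), (nat_lit 1271251), (nat_lit 1271251), [(nat_lit 490000), (nat_lit 780000), (nat_lit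 1100000)], [(nat_lit 2), (nat_lit 44), (nat_lit 238), (nat_lit 30), (nat_lit 9)]⟩,
 Rw.none,
 Rw.none⟩) (.leaf ⟨(nat_lit 1000), (nat_lit 0), (nat_lit 0), (nat_lit 0), (nat_lit 25012), (nat_lit 3139), (nat_lit 0), (nat_lit 0), (nat_lit 0), (nat_lit 13119081318576), (nat_lit 338800), [((nat_lit 400), [((nat_lit 29), (nat_lit 0), (nat_lit 408)), ((nat_lit 29), (nat_lit 1), (nat_lit 592))])], ⟨(nat_lit 4), false, false, false, (nat_lit 152), (nat_lit 0), (nat_lit 2237), [(nat_lit 1316293), (nat_lit 1333360), (nat_lit 1381836), (nat_lit 1405580), (nat_lit 1360436), (nat_lit 1372242), (nat_lit 1425979), (nat_lit 1444462)]⟩, ⟨(nat_lit 6), false, true, true, (nat_lit 250), (nat_lit 0), (nat_lit 2237), [(nat_lit 1534237), (nat_lit 1524996), (nat_lit 1602531), (nat_lit 1599967), (nat_lit 1662517), (nat_lit 1637491), (nat_lit 1730844), (nat_lit 1712494)]⟩, (nat_lit 4816026), (nat_lit 41667495), (nat_lit 7898281), (nat_lit 17434224), (nat_lit 0), (nat_lit 0),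 [⟨(nat_lit 0), (nat_lit 100), (nat_lit 44), (nat_lit 86), (nat_lit 1634102073)⟩], [⟨(nat_lit 1), (nat_lit 81), (nat_lit 44), (nat_lit 100), (nat_lit 401833306)⟩], [], [],
 ⟨⟨[(nat_lit 40), (nat_lit 80), (nat_lit 100)], [(nat_lit 0), (nat_lit 2514), (nat_lit 3562)], [((nat_lit 0), (nat_lit 0), (nat_lit 0)), ((nat_lit 1000), (nat_lit 446), (nat_lit 804)), ((nat_lit 1000), (nat_lit 443), (nat_lit 819))], ((nat_lit 44), (nat_lit 100), (nat_lit 84))⟩, (nat_lit 0), (nat_lit 143), (nat_lit 143), (nat_lit 0), (nat_lit 92584), [(nat_lit 1464691236), (nat_lit 799177138), (nat_lit 784499200)], [(nat_lit 0), (nat_lit 0), (nat_lit 0)], [(nat_lit 23719844499), (nat_lit 24877979320), (nat_lit 23937005996), (nat_lit 25054973800), (nat_lit 27037791452), (nat_lit 28274653282), (nat_lit 27090649425), (nat_lit 28286450669)], (nat_lit 1271251), (nat_lit 1271251), (nat_lit 559688), (nat_lit 780000), (nat_lit 1271251), (nat_lit 1271251), [(nat_lit 490000), (nat_lit 1100000),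 (nat_lit 1442501)], [(nat_lit 3), (nat_lit 50), (nat_lit 238), (nat_lit 30), (nat_lit 7)]⟩,
 Rw.none,
 Rw.none⟩))))))))
noncomputable def c13_29 : Tr Lf :=
 (.spl (nat_lit 1) (nat_lit 180) (.leaf ⟨(nat_lit 1000), (nat_lit 0), (nat_lit 0), (nat_lit 0), (nat_lit 0), (nat_lit 3488), (nat_lit 0), (nat_lit 0), (nat_lit 0), (nat_lit 86873), (nat_lit 332650), [((nat_lit 400), [((nat_lit 29), (nat_lit 0), (nat_lit 449)), ((nat_lit 29), (nat_lit 1), (nat_lit 551))])], ⟨(nat_lit 3), false, false, true, (nat_lit 165), (nat_lit 0), (nat_lit 2237), [(nat_lit 1294870), (nat_lit 1299999), (nat_lit 1360436), (nat_lit 1372242), (nat_lit 1465911), (nat_lit 1449992), (nat_lit 1534237), (nat_lit 1524996)]⟩, ⟨(nat_lit 3), false, false, false, (nat_lit 122), (nat_lit 0), (nat_lit 2237), [(nat_lit 1177178), (nat_lit 1196337), (nat_lit 1242721), (nat_lit 1268557), (nat_lit 1351885), (nat_lit 1349998), (nat_lit 1419294), (nat_lit 1424084)]⟩, (nat_lit 3775975), (nat_lit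 51044124), (nat_lit 9841731), (nat_lit 6114145), (nat_lit 0), (nat_lit 0), [⟨(nat_lit 1), (nat_lit 100), (nat_lit 31), (nat_lit 97), (nat_lit 20604066)⟩], [⟨(nat_lit 0), (nat_lit 100), (nat_lit 32), (nat_lit 87), (nat_lit 81299884)⟩], [], [],
 ⟨⟨[(nat_lit 40), (nat_lit 80), (nat_lit 100)], [(nat_lit 0), (nat_lit 2514), (nat_lit 3562)], [((nat_lit 0), (nat_lit 0), (nat_lit 0)), ((nat_lit 1000), (nat_lit 446), (nat_lit 804)), ((nat_lit 1000), (nat_lit 443), (nat_lit 819))], ((nat_lit 44), (nat_lit 100), (nat_lit 84))⟩, (nat_lit 0), (nat_lit 270), (nat_lit 270), (nat_lit 0), (nat_lit 358327), [(nat_lit 1471513603), (nat_lit 798811154), (nat_lit 853887600)], [(nat_lit 0), (nat_lit 0), (nat_lit 0)], [(nat_lit 22314503470), (nat_lit 24144060576), (nat_lit 24580553604), (nat_lit 26249831808), (nat_lit 22494100913), (nat_lit 23672338761), (nat_lit 24560907481), (nat_lit 25548046191)], (nat_lit 1271251), (nat_lit 1271251), (nat_lit 780000), (nat_lit 1762501),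 (nat_lit 230000), (nat_lit 1100000), [(nat_lit 490000), (nat_lit 1100000), (nat_lit 1442501)], [(nat_lit 3), (nat_lit 50), (nat_lit 317), (nat_lit 100), (nat_lit 11)]⟩,
 Rw.none,
 Rw.none⟩) (.spl (nat_lit 4) (nat_lit 120) (.spl (nat_lit 3) (nat_lit 200) (.leaf ⟨(nat_lit 1000), (nat_lit 0), (nat_lit 0), (nat_lit 0), (nat_lit 25), (nat_lit 3850), (nat_lit 0), (nat_lit 0), (nat_lit 0), (nat_lit 0), (nat_lit 321100), [((nat_lit 400), [((nat_lit 29), (nat_lit 0), (nat_lit 526)), ((nat_lit 29), (nat_lit 1), (nat_lit 474))])], ⟨(nat_lit 4), false, false, false, (nat_lit 182), (nat_lit 0), (nat_lit 2237), [(nat_lit 1360436), (nat_lit 1372242), (nat_lit 1425979), (nat_lit 1444462), (nat_lit 1477224), (nat_lit 1474999), (nat_lit 1543695), (nat_lit 1548146)]⟩, ⟨(nat_lit 3), false, false, false, (nat_lit 111), (nat_lit 0), (nat_lit 2237), [(nat_lit 1177178), (nat_lit 1196337), (nat_lit 1242721), (nat_lit 1268557), (nat_lit 1294870), (nat_lit 1299999), (nat_lit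 1360436), (nat_lit 1372242)]⟩, (nat_lit 3822792), (nat_lit 50261742), (nat_lit 11463628), (nat_lit 5274630), (nat_lit 0), (nat_lit 0), [], [⟨(nat_lit 0), (nat_lit 100), (nat_lit 32), (nat_lit 87), (nat_lit 341254800)⟩], [], [],
 ⟨⟨[(nat_lit 40), (nat_lit 80), (nat_lit 100)], [(nat_lit 0), (nat_lit 2514), (nat_lit 3562)], [((nat_lit 0), (nat_lit 0), (nat_lit 0)), ((nat_lit 1000), (nat_lit 446), (nat_lit 804)), ((nat_lit 1000), (nat_lit 443), (nat_lit 819))], ((nat_lit 44), (nat_lit 100), (nat_lit 84))⟩, (nat_lit 0), (nat_lit 248), (nat_lit 248), (nat_lit 0), (nat_lit 288315), [(nat_lit 1484326403), (nat_lit 870583758), (nat_lit 984202400)], [(nat_lit 0), (nat_lit 0), (nat_lit 0)], [(nat_lit 22791783000), (nat_lit 24957547700), (nat_lit 24022761313), (nat_lit 25927693450), (nat_lit 21482011950), (nat_lit 23383368900), (nat_lit 22698498575), (nat_lit 24460578950)], (nat_lit 1271251), (nat_lit 1271251), (nat_lit 780000), (nat_lit 1435001), (nat_lit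 230000), (nat_lit 780000), [(nat_lit 490000), (nat_lit 1100000), (nat_lit 1442501)], [(nat_lit 3), (nat_lit 50), (nat_lit 317), (nat_lit 100), (nat_lit 11)]⟩,
 Rw.none,
 Rw.none⟩) (.trX (nat_lit 5) (nat_lit 3) (nat_lit 4) (nat_lit 100) (nat_lit 40) (nat_lit 92) (nat_lit 390) (.leaf ⟨(nat_lit 1000), (nat_lit 0), (nat_lit 0), (nat_lit 0), (nat_lit 0), (nat_lit 3809), (nat_lit 0), (nat_lit 0), (nat_lit 0), (nat_lit 0), (nat_lit 312850), [((nat_lit 400), [((nat_lit 29), (nat_lit 0), (nat_lit 581)), ((nat_lit 29), (nat_lit 1), (nat_lit 419))])], ⟨(nat_lit 5), false, true, true, (nat_lit 215), (nat_lit 0), (nat_lit 2237), [(nat_lit 1477224), (nat_lit 1474999), (nat_lit 1543695), (nat_lit 1548146), (nat_lit 1534237), (nat_lit 1524996), (nat_lit 1602531), (nat_lit 1599967)]⟩, ⟨(nat_lit 3), false, false, false, (nat_lit 111), (nat_lit 0), (nat_lit 2237), [(nat_lit 1177178), (nat_lit 1196337), (nat_lit 1242721), (nat_lit 1268557), (nat_lit 1294870), (nat_lit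 1299999), (nat_lit 1360436), (nat_lit 1372242)]⟩, (nat_lit 4130857), (nat_lit 47219722), (nat_lit 14615941), (nat_lit 5164337), (nat_lit 0), (nat_lit 0), [], [⟨(nat_lit 0), (nat_lit 100), (nat_lit 32), (nat_lit 87), (nat_lit 335567316)⟩], [], [],
 ⟨⟨[(nat_lit 40), (nat_lit 80), (nat_lit 100)], [(nat_lit 0), (nat_lit 2514), (nat_lit 3562)], [((nat_lit 0), (nat_lit 0), (nat_lit 0)), ((nat_lit 1000), (nat_lit 446), (nat_lit 804)), ((nat_lit 1000), (nat_lit 443), (nat_lit 819))], ((nat_lit 44), (nat_lit 100), (nat_lit 84))⟩, (nat_lit 0), (nat_lit 233), (nat_lit 233), (nat_lit 0), (nat_lit 288315), [(nat_lit 1493478401), (nat_lit 970556210), (nat_lit 1077284400)], [(nat_lit 0), (nat_lit 0), (nat_lit 0)], [(nat_lit 23952701487), (nat_lit 25846254453), (nat_lit 25133908010), (nat_lit 26883250194), (nat_lit 22916342851), (nat_lit 24409850183), (nat_lit 23813728452), (nat_lit 25434622570)], (nat_lit 1271251), (nat_lit 1271251), (nat_lit 1271251), (nat_lit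 1271251), (nat_lit 230000), (nat_lit 780000), [(nat_lit 490000), (nat_lit 1100000), (nat_lit 1442501)], [(nat_lit 3), (nat_lit 50), (nat_lit 238), (nat_lit 30), (nat_lit 8)]⟩,
 Rw.none,
 Rw.none⟩))) (.spl (nat_lit 3) (nat_lit 200) (.leaf ⟨(nat_lit 1000), (nat_lit 0), (nat_lit 0), (nat_lit 0), (nat_lit 0), (nat_lit 3382), (nat_lit 0), (nat_lit 0), (nat_lit 0), (nat_lit 0), (nat_lit 400000), [((nat_lit 400), [((nat_lit 29), (nat_lit 1), (nat_lit 1000))])], ⟨(nat_lit 4), false, false, false, (nat_lit 182), (nat_lit 0), (nat_lit 2237), [(nat_lit 1360436), (nat_lit 1372242), (nat_lit 1425979), (nat_lit 1444462), (nat_lit 1477224), (nat_lit 1474999), (nat_lit 1543695), (nat_lit 1548146)]⟩, ⟨(nat_lit 3), false, false, false, (nat_lit 144), (nat_lit 0), (nat_lit 2237), [(nat_lit 1294870), (nat_lit 1299999), (nat_lit 1360436), (nat_lit 1372242), (nat_lit 1351885), (nat_lit 1349998), (nat_lit 1419294), (nat_lit 1424084)]⟩, (nat_lit 4229137), (nat_lit 47943535),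 (nat_lit 11286297), (nat_lit 7770168), (nat_lit 0), (nat_lit 0), [⟨(nat_lit 0), (nat_lit 100), (nat_lit 31), (nat_lit 97), (nat_lit 67816254)⟩], [], [], [],
 ⟨⟨[(nat_lit 40), (nat_lit 80), (nat_lit 100)], [(nat_lit 0), (nat_lit 2514), (nat_lit 3562)], [((nat_lit 0), (nat_lit 0), (nat_lit 0)), ((nat_lit 1000), (nat_lit 446), (nat_lit 804)), ((nat_lit 1000), (nat_lit 443), (nat_lit 819))], ((nat_lit 44), (nat_lit 100), (nat_lit 84))⟩, (nat_lit 469), (nat_lit 227), (nat_lit 227), (nat_lit 0), (nat_lit 349881), [(nat_lit 1396800004), (nat_lit 307796794), (nat_lit 94000000)], [(nat_lit 0), (nat_lit 0), (nat_lit 0)], [(nat_lit 21367477241), (nat_lit 22699286748), (nat_lit 22660037188), (nat_lit 23881528634), (nat_lit 21760832140), (nat_lit 22922298562), (nat_lit 22987892975), (nat_lit 24026755710)], (nat_lit 1271251), (nat_lit 1271251), (nat_lit 780000), (nat_lit 1435001), (nat_lit 780000), (nat_lit 1100000), [(nat_lit 490000), (nat_lit 1100000), (nat_lit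 1442501)], [(nat_lit 3), (nat_lit 50), (nat_lit 317), (nat_lit 100), (nat_lit 11)]⟩,
 Rw.none,
 Rw.none⟩) (.spl (nat_lit 1) (nat_lit 220) (.leaf ⟨(nat_lit 1000), (nat_lit 0), (nat_lit 0), (nat_lit 0), (nat_lit 0), (nat_lit 3437), (nat_lit 0), (nat_lit 0), (nat_lit 0), (nat_lit 0), (nat_lit 347050), [((nat_lit 400), [((nat_lit 29), (nat_lit 0), (nat_lit 353)), ((nat_lit 29), (nat_lit 1), (nat_lit 647))])], ⟨(nat_lit 5), false, true, true, (nat_lit 211), (nat_lit 0), (nat_lit 2237), [(nat_lit 1477224), (nat_lit 1474999), (nat_lit 1521847), (nat_lit 1524073), (nat_lit 1534237), (nat_lit 1524996), (nat_lit 1579788), (nat_lit 1574999)]⟩, ⟨(nat_lit 3), false, false, false, (nat_lit 144), (nat_lit 0), (nat_lit 2237), [(nat_lit 1294870), (nat_lit 1299999), (nat_lit 1360436), (nat_lit 1372242), (nat_lit 1351885), (nat_lit 1349998), (nat_lit 1419294), (nat_lit 1424084)]⟩, (nat_lit 4476950), (nat_lit 45533544), (nat_lit 13869416), (nat_lit 7597040), (nat_lit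 0), (nat_lit 0), [], [⟨(nat_lit 1), (nat_lit 100), (nat_lit 31), (nat_lit 97), (nat_lit 59306973)⟩], [], [],
 ⟨⟨[(nat_lit 40), (nat_lit 80), (nat_lit 100)], [(nat_lit 0), (nat_lit 2514), (nat_lit 3562)], [((nat_lit 0), (nat_lit 0), (nat_lit 0)), ((nat_lit 1000), (nat_lit 446), (nat_lit 804)), ((nat_lit 1000), (nat_lit 443), (nat_lit 819))], ((nat_lit 44), (nat_lit 100), (nat_lit 84))⟩, (nat_lit 0), (nat_lit 202), (nat_lit 202), (nat_lit 0), (nat_lit 322935), [(nat_lit 1455539204), (nat_lit 721323664), (nat_lit 691417200)], [(nat_lit 0), (nat_lit 0), (nat_lit 0)], [(nat_lit 22837148311), (nat_lit 24009248339), (nat_lit 23771099805), (nat_lit 24977535010), (nat_lit 23145848858), (nat_lit 24259958158), (nat_lit 24035306955), (nat_lit 25077898140)], (nat_lit 1271251), (nat_lit 1271251), (nat_lit 1271251), (nat_lit 1271251), (nat_lit 780000), (nat_lit 1100000), [(nat_lit 490000), (nat_lit 1100000), (nat_lit 1442501)], [(nat_lit 3), (nat_lit 50), (nat_lit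 249), (nat_lit 40), (nat_lit 8)]⟩,
 Rw.none,
 Rw.none⟩) (.spl (nat_lit 0) (nat_lit 390) (.leaf ⟨(nat_lit 913), (nat_lit 63), (nat_lit 0), (nat_lit 24), (nat_lit 0), (nat_lit 3533), (nat_lit 1048), (nat_lit 288), (nat_lit 0), (nat_lit 0), (nat_lit 365200), [((nat_lit 390), [((nat_lit 29), (nat_lit 1), (nat_lit 913))])], ⟨(nat_lit 5), false, true, false, (nat_lit 225), (nat_lit 1581), (nat_lit 2237), [(nat_lit 1522729), (nat_lit 1523269), (nat_lit 1545457), (nat_lit 1546538), (nat_lit 1579788), (nat_lit 1577949), (nat_lit 1602558), (nat_lit 1601260)]⟩, ⟨(nat_lit 3), false, false, false, (nat_lit 143), (nat_lit 1581), (nat_lit 2237), [(nat_lit 1294870), (nat_lit 1297467), (nat_lit 1363068), (nat_lit 1367287), (nat_lit 1351886), (nat_lit 1352103), (nat_lit 1420170), (nat_lit 1422009)]⟩, (nat_lit 4580023), (nat_lit 44315783), (nat_lit 15206864), (nat_lit 7477353), (nat_lit 3), (nat_lit 0), [], [], [], [],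
 ⟨⟨[(nat_lit 40), (nat_lit 80), (nat_lit 100)], [(nat_lit 0), (nat_lit 2514), (nat_lit 3562)], [((nat_lit 0), (nat_lit 0), (nat_lit 0)), ((nat_lit 1000), (nat_lit 446), (nat_lit 804)), ((nat_lit 1000), (nat_lit 443), (nat_lit 819))], ((nat_lit 44), (nat_lit 100), (nat_lit 84))⟩, (nat_lit 0), (nat_lit 171), (nat_lit 171), (nat_lit 0), (nat_lit 289186), [(nat_lit 1431704467), (nat_lit 711826105), (nat_lit 629572000)], [(nat_lit 0), (nat_lit 0), (nat_lit 0)], [(nat_lit 22560254661), (nat_lit 23227210460), (nat_lit 23536833815), (nat_lit 24316163453), (nat_lit 22855236280), (nat_lit 23419279082), (nat_lit 23743817657), (nat_lit 24435256789)], (nat_lit 1271251), (nat_lit 1271251), (nat_lit 1271251), (nat_lit 1271251), (nat_lit 780000), (nat_lit 1100000), [(nat_lit 490000), (nat_lit 1100000), (nat_lit 1442501)], [(nat_lit 3), (nat_lit 50), (nat_lit 249), (nat_lit 40), (nat_lit 8)]⟩,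
 ⟨⟨[(nat_lit 100), (nat_lit 140), (nat_lit 180)], [(nat_lit 0), (nat_lit 508), (nat_lit 2854)], [((nat_lit 0), (nat_lit 0), (nat_lit 0)), ((nat_lit 1000), (nat_lit 1000), (nat_lit 198)), ((nat_lit 777), (nat_lit 1000), (nat_lit 712))], ((nat_lit 100), (nat_lit 64), (nat_lit 83))⟩, (nat_lit 139612), (nat_lit 762), (nat_lit 762), (nat_lit 0), (nat_lit 890600), [(nat_lit 543750000), (nat_lit 856254000), (nat_lit 1223046000)], [], [(nat_lit 3315814136), (nat_lit 3335519798), (nat_lit 3348279771), (nat_lit 3361288676), (nat_lit 3981884712), (nat_lit 3510304100), (nat_lit 3236678917), (nat_lit 3216901580)], (nat_lit 1271251), (nat_lit 1271251), (nat_lit 1271251), (nat_lit 1271251), (nat_lit 0), (nat_lit 2825001), [(nat_lit 1412501), (nat_lit 1271251), (nat_lit 1271251)], [(nat_lit 24), (nat_lit 63), (nat_lit 456), (nat_lit 225), (nat_lit 10)]⟩,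
 ⟨⟨[(nat_lit 140), (nat_lit 180), (nat_lit 200)], [(nat_lit 0), (nat_lit 0), (nat_lit 2835)], [((nat_lit 0), (nat_lit 0), (nat_lit 0)), ((nat_lit 0), (nat_lit 0), (nat_lit 0)), ((nat_lit 363), (nat_lit 1000), (nat_lit 798))], ((nat_lit 0), (nat_lit 0), (nat_lit 0))⟩, (nat_lit 6603), (nat_lit 300), (nat_lit 2073), (nat_lit 1874403), (nat_lit 3383009), [(nat_lit 236208000), (nat_lit 337392000), (nat_lit 393600000)], [], [(nat_lit 1797630000), (nat_lit 1731131688), (nat_lit 1742249760), (nat_lit 1676218920), (nat_lit 1582644576), (nat_lit 1811873664), (nat_lit 1722859872), (nat_lit 1956976032)], (nat_lit 780000), (nat_lit 1271251), (nat_lit 780000), (nat_lit 1100000), (nat_lit 0), (nat_lit 2825001), [(nat_lit 1977501), (nat_lit 1271251), (nat_lit 1271251)], [(nat_lit 32), (nat_lit 67), (nat_lit 611), (nat_lit 200), (nat_lit 13)]⟩⟩) (.leaf ⟨(nat_lit 927), (nat_lit 73), (nat_lit 0), (nat_lit 0), (nat_lit 0), (nat_lit 3566), (nat_lit 777), (nat_lit 0),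 (nat_lit 0), (nat_lit 0), (nat_lit 255150), [((nat_lit 400), [((nat_lit 29), (nat_lit 0), (nat_lit 771)), ((nat_lit 29), (nat_lit 1), (nat_lit 156))])], ⟨(nat_lit 5), false, true, false, (nat_lit 225), (nat_lit 0), (nat_lit 1582), [(nat_lit 1522658), (nat_lit 1524343), (nat_lit 1545316), (nat_lit 1548686), (nat_lit 1577949), (nat_lit 1574999), (nat_lit 1601257), (nat_lit 1599992)]⟩, ⟨(nat_lit 3), false, false, false, (nat_lit 144), (nat_lit 0), (nat_lit 1582), [(nat_lit 1297467), (nat_lit 1299999), (nat_lit 1365448), (nat_lit 1373034), (nat_lit 1352101), (nat_lit 1349997), (nat_lit 1421394), (nat_lit 1424345)]⟩, (nat_lit 4586334), (nat_lit 44287206), (nat_lit 15177675), (nat_lit 7535119), (nat_lit 3), (nat_lit 0), [], [⟨(nat_lit 1), (nat_lit 100), (nat_lit 22), (nat_lit 97), (nat_lit 58533054)⟩], [⟨(nat_lit 1), (nat_lit 40), (nat_lit 100), (nat_lit 98), (nat_lit 13892497)⟩], [],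
 ⟨⟨[(nat_lit 40), (nat_lit 60), (nat_lit 80)], [(nat_lit 0), (nat_lit 2136), (nat_lit 3185)], [((nat_lit 0), (nat_lit 0), (nat_lit 0)), ((nat_lit 1000), (nat_lit 343), (nat_lit 808)), ((nat_lit 1000), (nat_lit 338), (nat_lit 820))], ((nat_lit 32), (nat_lit 100), (nat_lit 86))⟩, (nat_lit 0), (nat_lit 177), (nat_lit 177), (nat_lit 0), (nat_lit 346218), [(nat_lit 1554382011), (nat_lit 1168385570), (nat_lit 1434254000)], [(nat_lit 0), (nat_lit 0), (nat_lit 0)], [(nat_lit 23379535032), (nat_lit 24109189442), (nat_lit 24352978030), (nat_lit 25136041180), (nat_lit 23677215381), (nat_lit 24279593406), (nat_lit 24624889744), (nat_lit 25208296200)], (nat_lit 1271251), (nat_lit 1271251), (nat_lit 1271251), (nat_lit 1271251), (nat_lit 780000), (nat_lit 1100000), [(nat_lit 490000), (nat_lit 780000), (nat_lit 1100000)], [(nat_lit 2), (nat_lit 44), (nat_lit 249), (nat_lit 40), (nat_lit 10)]⟩,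
 ⟨⟨[(nat_lit 100), (nat_lit 140), (nat_lit 180)], [(nat_lit 0), (nat_lit 508), (nat_lit 2854)], [((nat_lit 0), (nat_lit 0), (nat_lit 0)), ((nat_lit 1000), (nat_lit 1000), (nat_lit 198)), ((nat_lit 777), (nat_lit 1000), (nat_lit 712))], ((nat_lit 100), (nat_lit 64), (nat_lit 83))⟩, (nat_lit 214680), (nat_lit 877), (nat_lit 877), (nat_lit 0), (nat_lit 1160375), [(nat_lit 456250000), (nat_lit 718466000), (nat_lit 1026234000)], [], [(nat_lit 2569163644), (nat_lit 2559445892), (nat_lit 2555098818), (nat_lit 2557078752), (nat_lit 3320569376), (nat_lit 2970933750), (nat_lit 2625811329), (nat_lit 2449591060)], (nat_lit 1271251), (nat_lit 1271251), (nat_lit 1271251), (nat_lit 1271251), (nat_lit 0), (nat_lit 2825001), [(nat_lit 1412501), (nat_lit 1271251), (nat_lit 1271251)], [(nat_lit 24), (nat_lit 63), (nat_lit 456), (nat_lit 225), (nat_lit 10)]⟩,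
 Rw.none⟩))))))
noncomputable def c13_30 : Tr Lf :=
 (.spl (nat_lit 3) (nat_lit 200) (.leaf ⟨(nat_lit 1000), (nat_lit 0), (nat_lit 0), (nat_lit 0), (nat_lit 675), (nat_lit 3589), (nat_lit 0), (nat_lit 0), (nat_lit 0), (nat_lit 1637385915830), (nat_lit 316300), [((nat_lit 400), [((nat_lit 29), (nat_lit 0), (nat_lit 558)), ((nat_lit 29), (nat_lit 1), (nat_lit 442))])], ⟨(nat_lit 3), false, false, true, (nat_lit 154), (nat_lit 0), (nat_lit 2237), [(nat_lit 1294870), (nat_lit 1299999), (nat_lit 1360436), (nat_lit 1372242), (nat_lit 1408898), (nat_lit 1399996), (nat_lit 1477224), (nat_lit 1474999)]⟩, ⟨(nat_lit 4), false, false, true, (nat_lit 184), (nat_lit 0), (nat_lit 2237), [(nat_lit 1351885), (nat_lit 1349998), (nat_lit 1419294), (nat_lit 1424084), (nat_lit 1508671), (nat_lit 1487491), (nat_lit 1576997), (nat_lit 1562495)]⟩, (nat_lit 4363975), (nat_lit 47013274), (nat_lit 8627291), (nat_lit 11359435), (nat_lit 0), (nat_lit 0), [], [⟨(nat_lit 1),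 (nat_lit 100), (nat_lit 31), (nat_lit 97), (nat_lit 364347743)⟩], [], [],
 ⟨⟨[(nat_lit 40), (nat_lit 80), (nat_lit 100)], [(nat_lit 0), (nat_lit 2514), (nat_lit 3562)], [((nat_lit 0), (nat_lit 0), (nat_lit 0)), ((nat_lit 1000), (nat_lit 446), (nat_lit 804)), ((nat_lit 1000), (nat_lit 443), (nat_lit 819))], ((nat_lit 44), (nat_lit 100), (nat_lit 84))⟩, (nat_lit 0), (nat_lit 216), (nat_lit 216), (nat_lit 0), (nat_lit 358327), [(nat_lit 1489651251), (nat_lit 927729974), (nat_lit 1038359200)], [(nat_lit 0), (nat_lit 0), (nat_lit 0)], [(nat_lit 22117006001), (nat_lit 23328530794), (nat_lit 23274276604), (nat_lit 24410515052), (nat_lit 24933261108), (nat_lit 26403426470), (nat_lit 25882892118), (nat_lit 27190633767)], (nat_lit 1271251), (nat_lit 1271251), (nat_lit 780000), (nat_lit 1435001), (nat_lit 1100000), (nat_lit 2041876), [(nat_lit 490000), (nat_lit 1100000), (nat_lit 1442501)], [(nat_lit 3), (nat_lit 50), (nat_lit 345), (nat_lit 125), (nat_lit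 12)]⟩,
 Rw.none,
 Rw.none⟩) (.spl (nat_lit 0) (nat_lit 390) (.leaf ⟨(nat_lit 1000), (nat_lit 0), (nat_lit 0), (nat_lit 0), (nat_lit 956), (nat_lit 3637), (nat_lit 0), (nat_lit 0), (nat_lit 0), (nat_lit 2764288348907), (nat_lit 289900), [((nat_lit 390), [((nat_lit 29), (nat_lit 0), (nat_lit 734)), ((nat_lit 29), (nat_lit 1), (nat_lit 266))])], ⟨(nat_lit 5), false, false, true, (nat_lit 188), (nat_lit 1581), (nat_lit 2237), [(nat_lit 1408901), (nat_lit 1406738), (nat_lit 1477224), (nat_lit 1476683), (nat_lit 1465917), (nat_lit 1461374), (nat_lit 1534240), (nat_lit 1531319)]⟩, ⟨(nat_lit 4), false, false, true, (nat_lit 185), (nat_lit 1581), (nat_lit 2237), [(nat_lit 1351886), (nat_lit 1352103), (nat_lit 1420170), (nat_lit 1422009), (nat_lit 1508678), (nat_lit 1502350), (nat_lit 1577001), (nat_lit 1572296)]⟩, (nat_lit 4697744), (nat_lit 44396368), (nat_lit 11435480), (nat_lit 11168152), (nat_lit 0), (nat_lit 0), [], [⟨(nat_lit 1), (nat_lit 94), (nat_lit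 44), (nat_lit 100), (nat_lit 221538064)⟩], [], [],
 ⟨⟨[(nat_lit 40), (nat_lit 80), (nat_lit 100)], [(nat_lit 0), (nat_lit 2514), (nat_lit 3562)], [((nat_lit 0), (nat_lit 0), (nat_lit 0)), ((nat_lit 1000), (nat_lit 446), (nat_lit 804)), ((nat_lit 1000), (nat_lit 443), (nat_lit 819))], ((nat_lit 44), (nat_lit 100), (nat_lit 84))⟩, (nat_lit 0), (nat_lit 160), (nat_lit 160), (nat_lit 0), (nat_lit 291563), [(nat_lit 1518937605), (nat_lit 1078989587), (nat_lit 1336221600)], [(nat_lit 0), (nat_lit 0), (nat_lit 0)], [(nat_lit 23586932787), (nat_lit 24111776060), (nat_lit 24427794357), (nat_lit 24962123360), (nat_lit 26090460227), (nat_lit 26588573308), (nat_lit 26785142964), (nat_lit 27397614309)], (nat_lit 1271251), (nat_lit 1271251), (nat_lit 1271251), (nat_lit 1271251), (nat_lit 1100000), (nat_lit 2041876), [(nat_lit 490000), (nat_lit 1100000), (nat_lit 1442501)], [(nat_lit 3), (nat_lit 50), (nat_lit 289), (nat_lit 75), (nat_lit 9)]⟩,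
 Rw.none,
 Rw.none⟩) (.trX (nat_lit 4) (nat_lit 0) (nat_lit 2) (nat_lit 31) (nat_lit 98) (nat_lit 100) (nat_lit 250) (.leaf ⟨(nat_lit 1000), (nat_lit 0), (nat_lit 0), (nat_lit 0), (nat_lit 0), (nat_lit 3569), (nat_lit 0), (nat_lit 0), (nat_lit 0), (nat_lit 589031206241), (nat_lit 250000), [((nat_lit 400), [((nat_lit 29), (nat_lit 0), (nat_lit 1000))])], ⟨(nat_lit 5), false, false, true, (nat_lit 186), (nat_lit 0), (nat_lit 1582), [(nat_lit 1406735), (nat_lit 1399996), (nat_lit 1476683), (nat_lit 1474999), (nat_lit 1461369), (nat_lit 1449993), (nat_lit 1531317), (nat_lit 1524997)]⟩, ⟨(nat_lit 4), false, false, true, (nat_lit 178), (nat_lit 0), (nat_lit 1582), [(nat_lit 1352101), (nat_lit 1349997), (nat_lit 1421394), (nat_lit 1424345), (nat_lit 1475027), (nat_lit 1462493), (nat_lit 1544976), (nat_lit 1537497)]⟩, (nat_lit 4620808), (nat_lit 45053477), (nat_lit 11348691), (nat_lit 10597832), (nat_lit 0), (nat_lit 0), [⟨(nat_lit 1), (nat_lit 98), (nat_lit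 31), (nat_lit 100), (nat_lit 373248502)⟩], [⟨(nat_lit 1), (nat_lit 98), (nat_lit 31), (nat_lit 100), (nat_lit 328451222)⟩], [], [],
 ⟨⟨[(nat_lit 40), (nat_lit 60), (nat_lit 80)], [(nat_lit 0), (nat_lit 2136), (nat_lit 3185)], [((nat_lit 0), (nat_lit 0), (nat_lit 0)), ((nat_lit 1000), (nat_lit 343), (nat_lit 808)), ((nat_lit 1000), (nat_lit 338), (nat_lit 820))], ((nat_lit 32), (nat_lit 100), (nat_lit 86))⟩, (nat_lit 0), (nat_lit 168), (nat_lit 168), (nat_lit 0), (nat_lit 354556), [(nat_lit 1563200048), (nat_lit 1166819808), (nat_lit 1376400000)], [(nat_lit 0), (nat_lit 0), (nat_lit 0)], [(nat_lit 23683018962), (nat_lit 24307611480), (nat_lit 24653758242), (nat_lit 25236865980), (nat_lit 25808197231), (nat_lit 26429174086), (nat_lit 26618256410), (nat_lit 27251841915)], (nat_lit 1271251), (nat_lit 1271251), (nat_lit 1271251), (nat_lit 1271251), (nat_lit 1100000), (nat_lit 1870626), [(nat_lit 490000), (nat_lit 780000), (nat_lit 1100000)], [(nat_lit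 2), (nat_lit 44), (nat_lit 203), (nat_lit 0), (nat_lit 7)]⟩,
 Rw.none,
 Rw.none⟩))))
noncomputable def c13_31 : Tr Lf :=
 (.spl (nat_lit 3) (nat_lit 200) (.spl (nat_lit 0) (nat_lit 390) (.leaf ⟨(nat_lit 1000), (nat_lit 0), (nat_lit 0), (nat_lit 0), (nat_lit 0), (nat_lit 3575), (nat_lit 0), (nat_lit 0), (nat_lit 0), (nat_lit 0), (nat_lit 348400), [((nat_lit 390), [((nat_lit 29), (nat_lit 0), (nat_lit 344)), ((nat_lit 29), (nat_lit 1), (nat_lit 656))])], ⟨(nat_lit 4), false, false, false, (nat_lit 182), (nat_lit 1581), (nat_lit 2237), [(nat_lit 1363068), (nat_lit 1367287), (nat_lit 1431255), (nat_lit 1437096), (nat_lit 1477224), (nat_lit 1476683), (nat_lit 1545457), (nat_lit 1546538)]⟩, ⟨(nat_lit 4), false, false, true, (nat_lit 166), (nat_lit 1581), (nat_lit 2237), [(nat_lit 1351886), (nat_lit 1352103), (nat_lit 1420170), (nat_lit 1422009), (nat_lit 1408901), (nat_lit 1406738), (nat_lit 1477224), (nat_lit 1476683)]⟩, (nat_lit 4464102), (nat_lit 46317493),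 (nat_lit 11108372), (nat_lit 9574135), (nat_lit 0), (nat_lit 0), [], [], [], [],
 ⟨⟨[(nat_lit 40), (nat_lit 80), (nat_lit 100)], [(nat_lit 0), (nat_lit 2514), (nat_lit 3562)], [((nat_lit 0), (nat_lit 0), (nat_lit 0)), ((nat_lit 1000), (nat_lit 446), (nat_lit 804)), ((nat_lit 1000), (nat_lit 443), (nat_lit 819))], ((nat_lit 44), (nat_lit 100), (nat_lit 84))⟩, (nat_lit 0), (nat_lit 173), (nat_lit 173), (nat_lit 0), (nat_lit 289287), [(nat_lit 1454041601), (nat_lit 697712235), (nat_lit 676185600)], [(nat_lit 0), (nat_lit 0), (nat_lit 0)], [(nat_lit 21644637077), (nat_lit 22280867490), (nat_lit 22867293815), (nat_lit 23434393934), (nat_lit 22578314227), (nat_lit 23273891182), (nat_lit 23689748646), (nat_lit 24395235925)], (nat_lit 1271251), (nat_lit 1271251), (nat_lit 780000), (nat_lit 1435001), (nat_lit 1100000), (nat_lit 1442501), [(nat_lit 490000), (nat_lit 1100000), (nat_lit 1442501)], [(nat_lit 3), (nat_lit 50), (nat_lit 317), (nat_lit 100), (nat_lit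 11)]⟩,
 Rw.none,
 Rw.none⟩) (.leaf ⟨(nat_lit 1000), (nat_lit 0), (nat_lit 0), (nat_lit 0), (nat_lit 0), (nat_lit 3579), (nat_lit 0), (nat_lit 0), (nat_lit 0), (nat_lit 0), (nat_lit 250000), [((nat_lit 400), [((nat_lit 29), (nat_lit 0), (nat_lit 1000))])], ⟨(nat_lit 4), false, false, false, (nat_lit 183), (nat_lit 0), (nat_lit 1582), [(nat_lit 1365448), (nat_lit 1373034), (nat_lit 1433423), (nat_lit 1446064), (nat_lit 1476683), (nat_lit 1474999), (nat_lit 1545316), (nat_lit 1548686)]⟩, ⟨(nat_lit 4), false, false, true, (nat_lit 165), (nat_lit 0), (nat_lit 1582), [(nat_lit 1352101), (nat_lit 1349997), (nat_lit 1421394), (nat_lit 1424345), (nat_lit 1406735), (nat_lit 1399996), (nat_lit 1476683), (nat_lit 1474999)]⟩, (nat_lit 4468169), (nat_lit 46276853), (nat_lit 11195594), (nat_lit 9527553), (nat_lit 0), (nat_lit 0), [⟨(nat_lit 0), (nat_lit 100), (nat_lit 22), (nat_lit 99), (nat_lit 345990539)⟩], [⟨(nat_lit 1), (nat_lit 100), (nat_lit 22), (nat_lit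 97), (nat_lit 23394352)⟩], [], [],
 ⟨⟨[(nat_lit 40), (nat_lit 60), (nat_lit 80)], [(nat_lit 0), (nat_lit 2136), (nat_lit 3185)], [((nat_lit 0), (nat_lit 0), (nat_lit 0)), ((nat_lit 1000), (nat_lit 343), (nat_lit 808)), ((nat_lit 1000), (nat_lit 338), (nat_lit 820))], ((nat_lit 32), (nat_lit 100), (nat_lit 86))⟩, (nat_lit 0), (nat_lit 178), (nat_lit 178), (nat_lit 0), (nat_lit 346312), [(nat_lit 1563200001), (nat_lit 1170327430), (nat_lit 1376400000)], [(nat_lit 0), (nat_lit 0), (nat_lit 0)], [(nat_lit 22358306141), (nat_lit 23098533676), (nat_lit 23661604574), (nat_lit 24287044812), (nat_lit 23318175825), (nat_lit 24125274173), (nat_lit 24562017598), (nat_lit 25149108944)], (nat_lit 1271251), (nat_lit 1271251), (nat_lit 780000), (nat_lit 1435001), (nat_lit 1100000), (nat_lit 1442501), [(nat_lit 490000), (nat_lit 780000), (nat_lit 1100000)], [(nat_lit 2), (nat_lit 44), (nat_lit 260), (nat_lit 50), (nat_lit 10)]⟩,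
 Rw.none,
 Rw.none⟩)) (.spl (nat_lit 0) (nat_lit 390) (.leaf ⟨(nat_lit 1000), (nat_lit 0), (nat_lit 0), (nat_lit 0), (nat_lit 0), (nat_lit 3535), (nat_lit 0), (nat_lit 0), (nat_lit 0), (nat_lit 0), (nat_lit 342550), [((nat_lit 390), [((nat_lit 29), (nat_lit 0), (nat_lit 383)), ((nat_lit 29), (nat_lit 1), (nat_lit 617))])], ⟨(nat_lit 5), false, true, true, (nat_lit 216), (nat_lit 1581), (nat_lit 2237), [(nat_lit 1477224), (nat_lit 1476683), (nat_lit 1545457), (nat_lit 1546538), (nat_lit 1534240), (nat_lit 1531319), (nat_lit 1602558), (nat_lit 1601260)]⟩, ⟨(nat_lit 4), false, false, true, (nat_lit 166), (nat_lit 1581), (nat_lit 2237), [(nat_lit 1351886), (nat_lit 1352103), (nat_lit 1420170), (nat_lit 1422009), (nat_lit 1408901), (nat_lit 1406738), (nat_lit 1477224), (nat_lit 1476683)]⟩, (nat_lit 4737263), (nat_lit 43623981), (nat_lit 14090029), (nat_lit 9285990), (nat_lit 0), (nat_lit 0), [], [], [], [],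
 ⟨⟨[(nat_lit 40), (nat_lit 80), (nat_lit 100)], [(nat_lit 0), (nat_lit 2514), (nat_lit 3562)], [((nat_lit 0), (nat_lit 0), (nat_lit 0)), ((nat_lit 1000), (nat_lit 446), (nat_lit 804)), ((nat_lit 1000), (nat_lit 443), (nat_lit 819))], ((nat_lit 44), (nat_lit 100), (nat_lit 84))⟩, (nat_lit 0), (nat_lit 159), (nat_lit 159), (nat_lit 0), (nat_lit 289287), [(nat_lit 1460531265), (nat_lit 752396738), (nat_lit 742189200)], [(nat_lit 0), (nat_lit 0), (nat_lit 0)], [(nat_lit 23021734203), (nat_lit 23585922592), (nat_lit 23910297315), (nat_lit 24437952203), (nat_lit 23845023324), (nat_lit 24375410710), (nat_lit 24668312445), (nat_lit 25334053280)], (nat_lit 1271251), (nat_lit 1271251), (nat_lit 1271251), (nat_lit 1271251), (nat_lit 1100000), (nat_lit 1442501), [(nat_lit 490000), (nat_lit 1100000), (nat_lit 1442501)], [(nat_lit 3), (nat_lit 50), (nat_lit 260), (nat_lit 50), (nat_lit 8)]⟩,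
 Rw.none,
 Rw.none⟩) (.spl (nat_lit 2) (nat_lit 160) (.leaf ⟨(nat_lit 1000), (nat_lit 0), (nat_lit 0), (nat_lit 0), (nat_lit 0), (nat_lit 3344), (nat_lit 0), (nat_lit 0), (nat_lit 0), (nat_lit 0), (nat_lit 295600), [((nat_lit 400), [((nat_lit 29), (nat_lit 0), (nat_lit 696)), ((nat_lit 29), (nat_lit 1), (nat_lit 304))])], ⟨(nat_lit 5), false, true, true, (nat_lit 215), (nat_lit 0), (nat_lit 1582), [(nat_lit 1476683), (nat_lit 1474999), (nat_lit 1545316), (nat_lit 1548686), (nat_lit 1531317), (nat_lit 1524997), (nat_lit 1601257), (nat_lit 1599992)]⟩, ⟨(nat_lit 4), false, false, true, (nat_lit 161), (nat_lit 0), (nat_lit 1582), [(nat_lit 1352101), (nat_lit 1349997), (nat_lit 1398733), (nat_lit 1399999), (nat_lit 1406735), (nat_lit 1399996), (nat_lit 1453367), (nat_lit 1449998)]⟩, (nat_lit 4683303), (nat_lit 44024214), (nat_lit 14099499), (nat_lit 8876287), (nat_lit 0), (nat_lit 0), [], [⟨(nat_lit 1), (nat_lit 100), (nat_lit 22), (nat_lit 96), (nat_lit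 438559666)⟩], [], [],
 ⟨⟨[(nat_lit 40), (nat_lit 60), (nat_lit 80)], [(nat_lit 0), (nat_lit 2136), (nat_lit 3185)], [((nat_lit 0), (nat_lit 0), (nat_lit 0)), ((nat_lit 1000), (nat_lit 343), (nat_lit 808)), ((nat_lit 1000), (nat_lit 338), (nat_lit 820))], ((nat_lit 32), (nat_lit 100), (nat_lit 86))⟩, (nat_lit 0), (nat_lit 165), (nat_lit 165), (nat_lit 0), (nat_lit 345078), [(nat_lit 1512614505), (nat_lit 910495575), (nat_lit 1018044800)], [(nat_lit 0), (nat_lit 0), (nat_lit 0)], [(nat_lit 23570330916), (nat_lit 24154957266), (nat_lit 24485784822), (nat_lit 25032421266), (nat_lit 24421318272), (nat_lit 24970852866), (nat_lit 25272305628), (nat_lit 25839111008)], (nat_lit 1271251), (nat_lit 1271251), (nat_lit 1271251), (nat_lit 1271251), (nat_lit 1100000), (nat_lit 1442501), [(nat_lit 490000), (nat_lit 780000), (nat_lit 1100000)], [(nat_lit 2), (nat_lit 44), (nat_lit 203), (nat_lit 0), (nat_lit 7)]⟩,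
 Rw.none,
 Rw.none⟩) (.leaf ⟨(nat_lit 960), (nat_lit 7), (nat_lit 0), (nat_lit 33), (nat_lit 0), (nat_lit 3326), (nat_lit 648), (nat_lit 485), (nat_lit 0), (nat_lit 0), (nat_lit 306750), [((nat_lit 400), [((nat_lit 29), (nat_lit 0), (nat_lit 515)), ((nat_lit 29), (nat_lit 1), (nat_lit 445))])], ⟨(nat_lit 5), false, true, true, (nat_lit 215), (nat_lit 0), (nat_lit 1582), [(nat_lit 1476683), (nat_lit 1474999), (nat_lit 1545316), (nat_lit 1548686), (nat_lit 1531317), (nat_lit 1524997), (nat_lit 1601257), (nat_lit 1599992)]⟩, ⟨(nat_lit 4), false, false, true, (nat_lit 175), (nat_lit 0), (nat_lit 1582), [(nat_lit 1398733), (nat_lit 1399999), (nat_lit 1421394), (nat_lit 1424345), (nat_lit 1453367), (nat_lit 1449998), (nat_lit 1476683), (nat_lit 1474999)]⟩, (nat_lit 4816221), (nat_lit 43050985), (nat_lit 13919742), (nat_lit 10029273), (nat_lit 4), (nat_lit 0), [], [], [], [],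
 ⟨⟨[(nat_lit 40), (nat_lit 60), (nat_lit 80)], [(nat_lit 0), (nat_lit 2136), (nat_lit 3185)], [((nat_lit 0), (nat_lit 0), (nat_lit 0)), ((nat_lit 1000), (nat_lit 343), (nat_lit 808)), ((nat_lit 1000), (nat_lit 338), (nat_lit 820))], ((nat_lit 32), (nat_lit 100), (nat_lit 86))⟩, (nat_lit 0), (nat_lit 134), (nat_lit 134), (nat_lit 0), (nat_lit 271465), [(nat_lit 1498544010), (nat_lit 924644840), (nat_lit 984298000)], [(nat_lit 0), (nat_lit 0), (nat_lit 0)], [(nat_lit 23540296619), (nat_lit 24123483644), (nat_lit 24455849543), (nat_lit 25001190644), (nat_lit 24391598937), (nat_lit 24939826544), (nat_lit 25256745600), (nat_lit 25821868330)], (nat_lit 1271251), (nat_lit 1271251), (nat_lit 1271251), (nat_lit 1271251), (nat_lit 1100000), (nat_lit 1442501), [(nat_lit 490000), (nat_lit 780000), (nat_lit 1100000)], [(nat_lit 2), (nat_lit 44), (nat_lit 203), (nat_lit 0), (nat_lit 7)]⟩,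
 ⟨⟨[(nat_lit 120), (nat_lit 160), (nat_lit 200)], [(nat_lit 0), (nat_lit 533), (nat_lit 3597)], [((nat_lit 0), (nat_lit 0), (nat_lit 0)), ((nat_lit 960), (nat_lit 1000), (nat_lit 200)), ((nat_lit 612), (nat_lit 1000), (nat_lit 732))], ((nat_lit 0), (nat_lit 0), (nat_lit 0))⟩, (nat_lit 237794), (nat_lit 1039), (nat_lit 1039), (nat_lit 0), (nat_lit 1316300), [(nat_lit 318720000), (nat_lit 474880000), (nat_lit 656000000)], [], [(nat_lit 1324660364), (nat_lit 1345265676), (nat_lit 1342225788), (nat_lit 1351778214), (nat_lit 2980591712), (nat_lit 2127825008), (nat_lit 2408512040), (nat_lit 1566450944)], (nat_lit 1271251), (nat_lit 1271251), (nat_lit 1271251), (nat_lit 1271251), (nat_lit 0), (nat_lit 2825001), [(nat_lit 1695001), (nat_lit 1271251), (nat_lit 1271251)], [(nat_lit 29), (nat_lit 66), (nat_lit 456), (nat_lit 225), (nat_lit 10)]⟩,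
 ⟨⟨[(nat_lit 120), (nat_lit 160), (nat_lit 200)], [(nat_lit 0), (nat_lit 0), (nat_lit 3198)], [((nat_lit 0), (nat_lit 0), (nat_lit 0)), ((nat_lit 0), (nat_lit 0), (nat_lit 0)), ((nat_lit 572), (nat_lit 1000), (nat_lit 714))], ((nat_lit 0), (nat_lit 0), (nat_lit 0))⟩, (nat_lit 16098), (nat_lit 300), (nat_lit 1311), (nat_lit 2448600), (nat_lit 1876736), [(nat_lit 262944000), (nat_lit 391776000), (nat_lit 541200000)], [], [(nat_lit 2109438804), (nat_lit 2084017936), (nat_lit 2058597068), (nat_lit 2032582188), (nat_lit 2314946496), (nat_lit 2454354663), (nat_lit 2593760758), (nat_lit 2735839820)], (nat_lit 1100000), (nat_lit 1271251), (nat_lit 1100000), (nat_lit 1442501), (nat_lit 0), (nat_lit 2825001), [(nat_lit 1695001), (nat_lit 1271251), (nat_lit 1271251)], [(nat_lit 29), (nat_lit 66), (nat_lit 428), (nat_lit 200), (nat_lit 9)]⟩⟩))))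
noncomputable def c13_32 : Tr Lf :=
 (.spl (nat_lit 6) (nat_lit 68) (.spl (nat_lit 3) (nat_lit 200) (.spl (nat_lit 0) (nat_lit 385) (.leaf ⟨(nat_lit 974), (nat_lit 0), (nat_lit 0), (nat_lit 26), (nat_lit 0), (nat_lit 3360), (nat_lit 460), (nat_lit 370), (nat_lit 0), (nat_lit 0), (nat_lit 291200), [((nat_lit 385), [((nat_lit 28), (nat_lit 0), (nat_lit 656)), ((nat_lit 28), (nat_lit 1), (nat_lit 318))])], ⟨(nat_lit 4), false, false, false, (nat_lit 182), (nat_lit 1936), (nat_lit 2237), [(nat_lit 1363171), (nat_lit 1365187), (nat_lit 1431468), (nat_lit 1434194), (nat_lit 1477224), (nat_lit 1476988), (nat_lit 1545531), (nat_lit 1546004)]⟩, ⟨(nat_lit 5), false, false, true, (nat_lit 197), (nat_lit 1936), (nat_lit 2237), [(nat_lit 1408901), (nat_lit 1407955), (nat_lit 1477224), (nat_lit 1476988), (nat_lit 1508679), (nat_lit 1505761), (nat_lit 1577001), (nat_lit 1574794)]⟩, (nat_lit 4740924), (nat_lit 43976999), (nat_lit 10796961), (nat_lit 12226040),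 (nat_lit 0), (nat_lit 0), [], [⟨(nat_lit 1), (nat_lit 100), (nat_lit 41), (nat_lit 98), (nat_lit 194170386)⟩, ⟨(nat_lit 1), (nat_lit 94), (nat_lit 44), (nat_lit 100), (nat_lit 67088872)⟩], [], [],
 ⟨⟨[(nat_lit 40), (nat_lit 60), (nat_lit 80)], [(nat_lit 0), (nat_lit 1539), (nat_lit 2453)], [((nat_lit 0), (nat_lit 0), (nat_lit 0)), ((nat_lit 1000), (nat_lit 478), (nat_lit 704)), ((nat_lit 1000), (nat_lit 474), (nat_lit 714))], ((nat_lit 45), (nat_lit 100), (nat_lit 78))⟩, (nat_lit 0), (nat_lit 137), (nat_lit 137), (nat_lit 0), (nat_lit 255716), [(nat_lit 1515880809), (nat_lit 1014334395), (nat_lit 1087643200)], [(nat_lit 0), (nat_lit 0), (nat_lit 0)], [(nat_lit 22674140228), (nat_lit 22982534276), (nat_lit 23918158738), (nat_lit 24193506918), (nat_lit 24732098338), (nat_lit 25031162629), (nat_lit 25752406111), (nat_lit 25997917081)], (nat_lit 1271251), (nat_lit 1271251), (nat_lit 780000), (nat_lit 1435001), (nat_lit 1271251), (nat_lit 1271251), [(nat_lit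 490000), (nat_lit 780000), (nat_lit 1100000)], [(nat_lit 2), (nat_lit 44), (nat_lit 260), (nat_lit 50), (nat_lit 10)]⟩,
 ⟨⟨[(nat_lit 120), (nat_lit 160), (nat_lit 200)], [(nat_lit 0), (nat_lit 533), (nat_lit 3597)], [((nat_lit 0), (nat_lit 0), (nat_lit 0)), ((nat_lit 960), (nat_lit 1000), (nat_lit 200)), ((nat_lit 612), (nat_lit 1000), (nat_lit 732))], ((nat_lit 0), (nat_lit 0), (nat_lit 0))⟩, (nat_lit 177066), (nat_lit 942), (nat_lit 942), (nat_lit 0), (nat_lit 1033270), [(nat_lit 207168000), (nat_lit 308672000), (nat_lit 426400000)], [], [(nat_lit 914715970), (nat_lit 894323538), (nat_lit 1168271186), (nat_lit 825891398), (nat_lit 1866152686), (nat_lit 1245178216), (nat_lit 2316713800), (nat_lit 1711354720)], (nat_lit 1271251), (nat_lit 1271251), (nat_lit 780000), (nat_lit 1435001), (nat_lit 0), (nat_lit 2825001), [(nat_lit 1695001), (nat_lit 1271251), (nat_lit 1271251)], [(nat_lit 29), (nat_lit 66), (nat_lit 456), (nat_lit 225), (nat_lit 10)]⟩,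
 ⟨⟨[(nat_lit 140), (nat_lit 180), (nat_lit 200)], [(nat_lit 0), (nat_lit 0), (nat_lit 2835)], [((nat_lit 0), (nat_lit 0), (nat_lit 0)), ((nat_lit 0), (nat_lit 0), (nat_lit 0)), ((nat_lit 363), (nat_lit 1000), (nat_lit 798))], ((nat_lit 0), (nat_lit 0), (nat_lit 0))⟩, (nat_lit 7153), (nat_lit 300), (nat_lit 1805), (nat_lit 2030607), (nat_lit 2916161), [(nat_lit 255892000), (nat_lit 365508000), (nat_lit 426400000)], [], [(nat_lit 1761316568), (nat_lit 1678529032), (nat_lit 1715218701), (nat_lit 1629778631), (nat_lit 1906812136), (nat_lit 2204045850), (nat_lit 1344789166), (nat_lit 1652225214)], (nat_lit 780000), (nat_lit 1271251), (nat_lit 1271251), (nat_lit 1271251), (nat_lit 0), (nat_lit 2825001), [(nat_lit 1977501), (nat_lit 1271251), (nat_lit 1271251)], [(nat_lit 32), (nat_lit 67), (nat_lit 558), (nat_lit 225), (nat_lit 12)]⟩⟩) (.trX (nat_lit 4) (nat_lit 0) (nat_lit 2) (nat_lit 38) (nat_lit 96) (nat_lit 100) (nat_lit 260) (.leaf ⟨(nat_lit 975),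 (nat_lit 0), (nat_lit 0), (nat_lit 25), (nat_lit 0), (nat_lit 3356), (nat_lit 381), (nat_lit 353), (nat_lit 0), (nat_lit 0), (nat_lit 291600), [((nat_lit 390), [((nat_lit 28), (nat_lit 0), (nat_lit 656)), ((nat_lit 28), (nat_lit 1), (nat_lit 319))])], ⟨(nat_lit 4), false, false, false, (nat_lit 183), (nat_lit 1581), (nat_lit 1937), [(nat_lit 1365170), (nat_lit 1367372), (nat_lit 1434158), (nat_lit 1437274), (nat_lit 1476988), (nat_lit 1476683), (nat_lit 1545992), (nat_lit 1546601)]⟩, ⟨(nat_lit 5), false, false, true, (nat_lit 193), (nat_lit 1581), (nat_lit 1937), [(nat_lit 1407955), (nat_lit 1406738), (nat_lit 1476988), (nat_lit 1476683), (nat_lit 1491789), (nat_lit 1488692), (nat_lit 1560821), (nat_lit 1558637)]⟩, (nat_lit 4717566), (nat_lit 44202587), (nat_lit 10876250), (nat_lit 11921163), (nat_lit 0), (nat_lit 0), [], [⟨(nat_lit 1), (nat_lit 100), (nat_lit 35), (nat_lit 97), (nat_lit 342190645)⟩], [], [],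
 ⟨⟨[(nat_lit 40), (nat_lit 60), (nat_lit 80)], [(nat_lit 0), (nat_lit 1803), (nat_lit 2780)], [((nat_lit 0), (nat_lit 0), (nat_lit 0)), ((nat_lit 1000), (nat_lit 417), (nat_lit 754)), ((nat_lit 1000), (nat_lit 413), (nat_lit 764))], ((nat_lit 40), (nat_lit 100), (nat_lit 79))⟩, (nat_lit 327), (nat_lit 152), (nat_lit 152), (nat_lit 0), (nat_lit 285934), [(nat_lit 1515478019), (nat_lit 979609495), (nat_lit 1083152800)], [(nat_lit 0), (nat_lit 0), (nat_lit 0)], [(nat_lit 22983006777), (nat_lit 23291228264), (nat_lit 24194595645), (nat_lit 24469798604), (nat_lit 24657053993), (nat_lit 24961015896), (nat_lit 25685722666), (nat_lit 25934039342)], (nat_lit 1271251), (nat_lit 1271251), (nat_lit 780000), (nat_lit 1435001), (nat_lit 1271251), (nat_lit 1271251), [(nat_lit 490000), (nat_lit 780000), (nat_lit 1100000)], [(nat_lit 2), (nat_lit 44), (nat_lit 260), (nat_lit 50), (nat_lit 10)]⟩,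
 ⟨⟨[(nat_lit 120), (nat_lit 160), (nat_lit 200)], [(nat_lit 0), (nat_lit 533), (nat_lit 3597)], [((nat_lit 0), (nat_lit 0), (nat_lit 0)), ((nat_lit 960), (nat_lit 1000), (nat_lit 200)), ((nat_lit 612), (nat_lit 1000), (nat_lit 732))], ((nat_lit 0), (nat_lit 0), (nat_lit 0))⟩, (nat_lit 131172), (nat_lit 1047), (nat_lit 1047), (nat_lit 0), (nat_lit 1236587), [(nat_lit 199200000), (nat_lit 296800000), (nat_lit 410000000)], [], [(nat_lit 891725725), (nat_lit 925180196), (nat_lit 1100701316), (nat_lit 875057228), (nat_lit 1708807341), (nat_lit 1194478486), (nat_lit 2091068364), (nat_lit 1589673126)], (nat_lit 1271251), (nat_lit 1271251), (nat_lit 780000), (nat_lit 1435001), (nat_lit 0), (nat_lit 2825001), [(nat_lit 1695001), (nat_lit 1271251), (nat_lit 1271251)], [(nat_lit 29), (nat_lit 66), (nat_lit 456), (nat_lit 225), (nat_lit 10)]⟩,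
 ⟨⟨[(nat_lit 140), (nat_lit 180), (nat_lit 200)], [(nat_lit 0), (nat_lit 0), (nat_lit 2835)], [((nat_lit 0), (nat_lit 0), (nat_lit 0)), ((nat_lit 0), (nat_lit 0), (nat_lit 0)), ((nat_lit 363), (nat_lit 1000), (nat_lit 798))], ((nat_lit 0), (nat_lit 0), (nat_lit 0))⟩, (nat_lit 6878), (nat_lit 300), (nat_lit 2021), (nat_lit 1952505), (nat_lit 3358750), [(nat_lit 246050000), (nat_lit 351450000), (nat_lit 410000000)], [], [(nat_lit 1696513408), (nat_lit 1617708956), (nat_lit 1655369115), (nat_lit 1574553899), (nat_lit 1829532692), (nat_lit 2113492101), (nat_lit 1368850042), (nat_lit 1661192937)], (nat_lit 780000), (nat_lit 1271251), (nat_lit 1271251), (nat_lit 1271251), (nat_lit 0), (nat_lit 2825001), [(nat_lit 1977501), (nat_lit 1271251), (nat_lit 1271251)], [(nat_lit 32), (nat_lit 67), (nat_lit 611), (nat_lit 225), (nat_lit 13)]⟩⟩))) (.spl (nat_lit 1) (nat_lit 220) (.leaf ⟨(nat_lit 967), (nat_lit 7), (nat_lit 0), (nat_lit 26), (nat_lit 0), (nat_lit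 3370), (nat_lit 560), (nat_lit 370), (nat_lit 0), (nat_lit 0), (nat_lit 272200), [((nat_lit 390), [((nat_lit 28), (nat_lit 0), (nat_lit 764)), ((nat_lit 28), (nat_lit 1), (nat_lit 203))])], ⟨(nat_lit 5), false, true, true, (nat_lit 211), (nat_lit 1581), (nat_lit 2237), [(nat_lit 1477224), (nat_lit 1476683), (nat_lit 1522729), (nat_lit 1523269), (nat_lit 1534240), (nat_lit 1531319), (nat_lit 1579788), (nat_lit 1577949)]⟩, ⟨(nat_lit 5), false, false, true, (nat_lit 196), (nat_lit 1581), (nat_lit 2237), [(nat_lit 1408901), (nat_lit 1406738), (nat_lit 1477224), (nat_lit 1476683), (nat_lit 1508678), (nat_lit 1502350), (nat_lit 1577001), (nat_lit 1572296)]⟩, (nat_lit 4964199), (nat_lit 41873540), (nat_lit 13282219), (nat_lit 11844241), (nat_lit 5), (nat_lit 0), [], [⟨(nat_lit 1), (nat_lit 100), (nat_lit 38), (nat_lit 98), (nat_lit 303060339)⟩], [], [⟨(nat_lit 0), (nat_lit 96), (nat_lit 100), (nat_lit 54), (nat_lit 262895)⟩],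
 ⟨⟨[(nat_lit 40), (nat_lit 60), (nat_lit 80)], [(nat_lit 0), (nat_lit 1539), (nat_lit 2453)], [((nat_lit 0), (nat_lit 0), (nat_lit 0)), ((nat_lit 1000), (nat_lit 478), (nat_lit 704)), ((nat_lit 1000), (nat_lit 474), (nat_lit 714))], ((nat_lit 45), (nat_lit 100), (nat_lit 78))⟩, (nat_lit 0), (nat_lit 126), (nat_lit 126), (nat_lit 0), (nat_lit 256955), [(nat_lit 1536844401), (nat_lit 1064989860), (nat_lit 1246386400)], [(nat_lit 0), (nat_lit 0), (nat_lit 0)], [(nat_lit 24100231655), (nat_lit 24651654119), (nat_lit 24986046977), (nat_lit 25502186530), (nat_lit 25934994269), (nat_lit 26423162506), (nat_lit 26692084626), (nat_lit 27150307394)], (nat_lit 1271251), (nat_lit 1271251), (nat_lit 1271251), (nat_lit 1271251), (nat_lit 1271251), (nat_lit 1271251), [(nat_lit 490000), (nat_lit 780000), (nat_lit 1100000)], [(nat_lit 2), (nat_lit 44), (nat_lit 203), (nat_lit 0), (nat_lit 7)]⟩,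
 ⟨⟨[(nat_lit 120), (nat_lit 160), (nat_lit 200)], [(nat_lit 0), (nat_lit 533), (nat_lit 3597)], [((nat_lit 0), (nat_lit 0), (nat_lit 0)), ((nat_lit 960), (nat_lit 1000), (nat_lit 200)), ((nat_lit 612), (nat_lit 1000), (nat_lit 732))], ((nat_lit 0), (nat_lit 0), (nat_lit 0))⟩, (nat_lit 211214), (nat_lit 1002), (nat_lit 1002), (nat_lit 0), (nat_lit 1222638), [(nat_lit 262944000), (nat_lit 391776000), (nat_lit 541200000)], [], [(nat_lit 1085586128), (nat_lit 1071653314), (nat_lit 1075309964), (nat_lit 1079299628), (nat_lit 2498920620), (nat_lit 2007614700), (nat_lit 2004530780), (nat_lit 1519392700)], (nat_lit 1271251), (nat_lit 1271251), (nat_lit 1271251), (nat_lit 1271251), (nat_lit 0), (nat_lit 2825001), [(nat_lit 1695001), (nat_lit 1271251), (nat_lit 1271251)], [(nat_lit 29), (nat_lit 66), (nat_lit 456), (nat_lit 225), (nat_lit 10)]⟩,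
 ⟨⟨[(nat_lit 140), (nat_lit 180), (nat_lit 200)], [(nat_lit 0), (nat_lit 0), (nat_lit 2835)], [((nat_lit 0), (nat_lit 0), (nat_lit 0)), ((nat_lit 0), (nat_lit 0), (nat_lit 0)), ((nat_lit 363), (nat_lit 1000), (nat_lit 798))], ((nat_lit 0), (nat_lit 0), (nat_lit 0))⟩, (nat_lit 7153), (nat_lit 300), (nat_lit 1852), (nat_lit 2030607), (nat_lit 3015777), [(nat_lit 255892000), (nat_lit 365508000), (nat_lit 426400000)], [], [(nat_lit 1761316568), (nat_lit 1678529032), (nat_lit 1715218701), (nat_lit 1629778631), (nat_lit 1906812136), (nat_lit 2204045850), (nat_lit 1344789166), (nat_lit 1652225214)], (nat_lit 780000), (nat_lit 1271251), (nat_lit 1271251), (nat_lit 1271251), (nat_lit 0), (nat_lit 2825001), [(nat_lit 1977501), (nat_lit 1271251), (nat_lit 1271251)], [(nat_lit 32), (nat_lit 67), (nat_lit 570), (nat_lit 225), (nat_lit 12)]⟩⟩) (.leaf ⟨(nat_lit 906), (nat_lit 62), (nat_lit 0), (nat_lit 32), (nat_lit 0), (nat_lit 3326), (nat_lit 1049), (nat_lit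 364), (nat_lit 0), (nat_lit 0), (nat_lit 291600), [((nat_lit 390), [((nat_lit 28), (nat_lit 0), (nat_lit 472)), ((nat_lit 28), (nat_lit 1), (nat_lit 434))])], ⟨(nat_lit 5), false, true, false, (nat_lit 225), (nat_lit 1581), (nat_lit 2237), [(nat_lit 1522729), (nat_lit 1523269), (nat_lit 1545457), (nat_lit 1546538), (nat_lit 1579788), (nat_lit 1577949), (nat_lit 1602558), (nat_lit 1601260)]⟩, ⟨(nat_lit 5), false, false, true, (nat_lit 196), (nat_lit 1581), (nat_lit 2237), [(nat_lit 1408901), (nat_lit 1406738), (nat_lit 1477224), (nat_lit 1476683), (nat_lit 1508678), (nat_lit 1502350), (nat_lit 1577001), (nat_lit 1572296)]⟩, (nat_lit 5053110), (nat_lit 40860718), (nat_lit 14476348), (nat_lit 11662934), (nat_lit 5), (nat_lit 0), [], [⟨(nat_lit 1), (nat_lit 100), (nat_lit 38), (nat_lit 98), (nat_lit 284702198)⟩], [], [],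
 ⟨⟨[(nat_lit 40), (nat_lit 60), (nat_lit 80)], [(nat_lit 0), (nat_lit 1539), (nat_lit 2453)], [((nat_lit 0), (nat_lit 0), (nat_lit 0)), ((nat_lit 1000), (nat_lit 478), (nat_lit 704)), ((nat_lit 1000), (nat_lit 474), (nat_lit 714))], ((nat_lit 45), (nat_lit 100), (nat_lit 78))⟩, (nat_lit 0), (nat_lit 134), (nat_lit 134), (nat_lit 0), (nat_lit 286738), [(nat_lit 1512359203), (nat_lit 1022853414), (nat_lit 1176091200)], [(nat_lit 0), (nat_lit 0), (nat_lit 0)], [(nat_lit 24062794916), (nat_lit 24611022523), (nat_lit 24949056651), (nat_lit 25462324841), (nat_lit 25895290468), (nat_lit 26380846433), (nat_lit 26653909122), (nat_lit 27109584468)], (nat_lit 1271251), (nat_lit 1271251), (nat_lit 1271251), (nat_lit 1271251), (nat_lit 1271251), (nat_lit 1271251), [(nat_lit 490000), (nat_lit 780000), (nat_lit 1100000)], [(nat_lit 2), (nat_lit 44), (nat_lit 203), (nat_lit 0), (nat_lit 7)]⟩,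
 ⟨⟨[(nat_lit 100), (nat_lit 140), (nat_lit 180)], [(nat_lit 0), (nat_lit 508), (nat_lit 2854)], [((nat_lit 0), (nat_lit 0), (nat_lit 0)), ((nat_lit 1000), (nat_lit 1000), (nat_lit 198)), ((nat_lit 777), (nat_lit 1000), (nat_lit 712))], ((nat_lit 100), (nat_lit 74), (nat_lit 76))⟩, (nat_lit 355675), (nat_lit 759), (nat_lit 759), (nat_lit 0), (nat_lit 883289), [(nat_lit 587500000), (nat_lit 925148000), (nat_lit 1321452000)], [], [(nat_lit 2990300158), (nat_lit 2982723154), (nat_lit 2988936748), (nat_lit 2999148136), (nat_lit 4285535924), (nat_lit 3813505330), (nat_lit 3347567853), (nat_lit 3199832032)], (nat_lit 1271251), (nat_lit 1271251), (nat_lit 1271251), (nat_lit 1271251), (nat_lit 0), (nat_lit 2825001), [(nat_lit 1412501), (nat_lit 1271251), (nat_lit 1271251)], [(nat_lit 24), (nat_lit 63), (nat_lit 456), (nat_lit 225), (nat_lit 10)]⟩,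
 ⟨⟨[(nat_lit 140), (nat_lit 180), (nat_lit 200)], [(nat_lit 0), (nat_lit 0), (nat_lit 2835)], [((nat_lit 0), (nat_lit 0), (nat_lit 0)), ((nat_lit 0), (nat_lit 0), (nat_lit 0)), ((nat_lit 363), (nat_lit 1000), (nat_lit 798))], ((nat_lit 0), (nat_lit 0), (nat_lit 0))⟩, (nat_lit 8804), (nat_lit 300), (nat_lit 2021), (nat_lit 2499204), (nat_lit 3358750), [(nat_lit 314944000), (nat_lit 449856000), (nat_lit 524800000)], [], [(nat_lit 2341422752), (nat_lit 2256581908), (nat_lit 2274007814), (nat_lit 2190073818), (nat_lit 2216808688), (nat_lit 2521840908), (nat_lit 1774167014), (nat_lit 1978968715)], (nat_lit 780000), (nat_lit 1271251), (nat_lit 1271251), (nat_lit 1271251), (nat_lit 0), (nat_lit 2825001), [(nat_lit 1977501), (nat_lit 1271251), (nat_lit 1271251)], [(nat_lit 32), (nat_lit 67), (nat_lit 612), (nat_lit 225), (nat_lit 13)]⟩⟩))) (.spl (nat_lit 1) (nat_lit 220) (.spl (nat_lit 2) (nat_lit 160) (.trX (nat_lit 4) (nat_lit 0) (nat_lit 2) (nat_lit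 44) (nat_lit 99) (nat_lit 100) (nat_lit 250) (.leaf ⟨(nat_lit 1000), (nat_lit 0), (nat_lit 0), (nat_lit 0), (nat_lit 5035), (nat_lit 3499), (nat_lit 0), (nat_lit 0), (nat_lit 0), (nat_lit 0), (nat_lit 307000), [((nat_lit 390), [((nat_lit 29), (nat_lit 0), (nat_lit 620)), ((nat_lit 29), (nat_lit 1), (nat_lit 380))])], ⟨(nat_lit 4), false, false, false, (nat_lit 189), (nat_lit 1581), (nat_lit 2237), [(nat_lit 1363068), (nat_lit 1367287), (nat_lit 1408526), (nat_lit 1413826), (nat_lit 1534240), (nat_lit 1531319), (nat_lit 1579788), (nat_lit 1577949)]⟩, ⟨(nat_lit 5), false, false, true, (nat_lit 186), (nat_lit 1581), (nat_lit 2237), [(nat_lit 1408901), (nat_lit 1406738), (nat_lit 1454450), (nat_lit 1453368), (nat_lit 1480171), (nat_lit 1475033), (nat_lit 1525719), (nat_lit 1521663)]⟩, (nat_lit 4711868), (nat_lit 44272055), (nat_lit 11483596), (nat_lit 11244349), (nat_lit 0), (nat_lit 0), [], [⟨(nat_lit 1), (nat_lit 100), (nat_lit 38), (nat_lit 96),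 (nat_lit 312839284)⟩], [], [],
 ⟨⟨[(nat_lit 40), (nat_lit 80), (nat_lit 100)], [(nat_lit 0), (nat_lit 2514), (nat_lit 3562)], [((nat_lit 0), (nat_lit 0), (nat_lit 0)), ((nat_lit 1000), (nat_lit 446), (nat_lit 804)), ((nat_lit 1000), (nat_lit 443), (nat_lit 819))], ((nat_lit 44), (nat_lit 100), (nat_lit 84))⟩, (nat_lit 0), (nat_lit 126), (nat_lit 126), (nat_lit 0), (nat_lit 133297), [(nat_lit 1499968080), (nat_lit 1260596505), (nat_lit 1143288000)], [(nat_lit 0), (nat_lit 0), (nat_lit 0)], [(nat_lit 22990103418), (nat_lit 23624503913), (nat_lit 24968400957), (nat_lit 25492861037), (nat_lit 24309011229), (nat_lit 24918759130), (nat_lit 26045614750), (nat_lit 26556786864)], (nat_lit 1271251), (nat_lit 1271251), (nat_lit 780000), (nat_lit 1762501), (nat_lit 1271251), (nat_lit 1271251), [(nat_lit 490000), (nat_lit 1100000), (nat_lit 1442501)], [(nat_lit 3), (nat_lit 50), (nat_lit 272), (nat_lit 60), (nat_lit 9)]⟩,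
 Rw.none,
 Rw.none⟩)) (.spl (nat_lit 6) (nat_lit 80) (.leaf ⟨(nat_lit 966), (nat_lit 0), (nat_lit 0), (nat_lit 34), (nat_lit 5752), (nat_lit 3626), (nat_lit 427), (nat_lit 500), (nat_lit 0), (nat_lit 0), (nat_lit 241500), [((nat_lit 390), [((nat_lit 28), (nat_lit 0), (nat_lit 966))])], ⟨(nat_lit 4), false, false, false, (nat_lit 189), (nat_lit 1581), (nat_lit 2237), [(nat_lit 1363068), (nat_lit 1367287), (nat_lit 1408526), (nat_lit 1413826), (nat_lit 1534240), (nat_lit 1531319), (nat_lit 1579788), (nat_lit 1577949)]⟩, ⟨(nat_lit 5), false, false, true, (nat_lit 206), (nat_lit 1581), (nat_lit 2237), [(nat_lit 1454450), (nat_lit 1453368), (nat_lit 1477224), (nat_lit 1476683), (nat_lit 1554227), (nat_lit 1548981), (nat_lit 1577001), (nat_lit 1572296)]⟩, (nat_lit 4865538), (nat_lit 42818004), (nat_lit 11269092), (nat_lit 12912904), (nat_lit 0), (nat_lit 0), [], [⟨(nat_lit 1), (nat_lit 98), (nat_lit 38), (nat_lit 100), (nat_lit 266870174)⟩], [], [⟨(nat_lit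 0), (nat_lit 96), (nat_lit 100), (nat_lit 54), (nat_lit 914119)⟩],
 ⟨⟨[(nat_lit 40), (nat_lit 80), (nat_lit 100)], [(nat_lit 0), (nat_lit 2514), (nat_lit 3562)], [((nat_lit 0), (nat_lit 0), (nat_lit 0)), ((nat_lit 1000), (nat_lit 446), (nat_lit 804)), ((nat_lit 1000), (nat_lit 443), (nat_lit 819))], ((nat_lit 44), (nat_lit 100), (nat_lit 82))⟩, (nat_lit 0), (nat_lit 107), (nat_lit 107), (nat_lit 0), (nat_lit 54029), [(nat_lit 1571183240), (nat_lit 1948635893), (nat_lit 1436622907)], [(nat_lit 0), (nat_lit 0), (nat_lit 0)], [(nat_lit 23221641559), (nat_lit 23893489729), (nat_lit 25175200958), (nat_lit 25731932148), (nat_lit 25310644069), (nat_lit 25905677439), (nat_lit 26890839206), (nat_lit 27388067125)], (nat_lit 1271251), (nat_lit 1271251), (nat_lit 780000), (nat_lit 1762501), (nat_lit 1271251), (nat_lit 1271251), [(nat_lit 490000), (nat_lit 1100000), (nat_lit 1442501)], [(nat_lit 3), (nat_lit 50), (nat_lit 272), (nat_lit 60), (nat_lit 9)]⟩,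
 ⟨⟨[(nat_lit 120), (nat_lit 160), (nat_lit 200)], [(nat_lit 0), (nat_lit 533), (nat_lit 3597)], [((nat_lit 0), (nat_lit 0), (nat_lit 0)), ((nat_lit 960), (nat_lit 1000), (nat_lit 200)), ((nat_lit 612), (nat_lit 1000), (nat_lit 732))], ((nat_lit 0), (nat_lit 0), (nat_lit 0))⟩, (nat_lit 123556), (nat_lit 601), (nat_lit 601), (nat_lit 0), (nat_lit 240369), [(nat_lit 270912000), (nat_lit 403648000), (nat_lit 557600000)], [], [(nat_lit 1393625624), (nat_lit 1393855664), (nat_lit 1635361518), (nat_lit 1313529756), (nat_lit 2196741368), (nat_lit 1812457167), (nat_lit 2867764275), (nat_lit 2497846489)], (nat_lit 1271251), (nat_lit 1271251), (nat_lit 780000), (nat_lit 1762501), (nat_lit 0), (nat_lit 2825001), [(nat_lit 1695001), (nat_lit 1271251), (nat_lit 1271251)], [(nat_lit 29), (nat_lit 66), (nat_lit 456), (nat_lit 225), (nat_lit 10)]⟩,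
 ⟨⟨[(nat_lit 120), (nat_lit 160), (nat_lit 200)], [(nat_lit 0), (nat_lit 0), (nat_lit 3198)], [((nat_lit 0), (nat_lit 0), (nat_lit 0)), ((nat_lit 0), (nat_lit 0), (nat_lit 0)), ((nat_lit 572), (nat_lit 1000), (nat_lit 714))], ((nat_lit 0), (nat_lit 0), (nat_lit 0))⟩, (nat_lit 16585), (nat_lit 300), (nat_lit 614), (nat_lit 2522806), (nat_lit 351883), [(nat_lit 270912000), (nat_lit 403648000), (nat_lit 557600000)], [], [(nat_lit 2120596164), (nat_lit 2094219765), (nat_lit 2097126692), (nat_lit 2078286146), (nat_lit 2307178904), (nat_lit 2453638040), (nat_lit 1592565462), (nat_lit 1689310540)], (nat_lit 1100000), (nat_lit 1271251), (nat_lit 1271251), (nat_lit 1271251), (nat_lit 0), (nat_lit 2825001), [(nat_lit 1695001), (nat_lit 1271251), (nat_lit 1271251)], [(nat_lit 29), (nat_lit 66), (nat_lit 456), (nat_lit 225), (nat_lit 10)]⟩⟩) (.dle (nat_lit 0)))) (.trZ (nat_lit 0) (nat_lit 1) (nat_lit 3) (nat_lit 100) (nat_lit 44) (nat_lit 94) (nat_lit 130)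 (.spl (nat_lit 2) (nat_lit 160) (.trX (nat_lit 4) (nat_lit 0) (nat_lit 2) (nat_lit 44) (nat_lit 99) (nat_lit 100) (nat_lit 250) (.leaf ⟨(nat_lit 967), (nat_lit 13), (nat_lit 0), (nat_lit 20), (nat_lit 3267), (nat_lit 3527), (nat_lit 420), (nat_lit 293), (nat_lit 0), (nat_lit 0), (nat_lit 314350), [((nat_lit 390), [((nat_lit 29), (nat_lit 0), (nat_lit 483)), ((nat_lit 29), (nat_lit 1), (nat_lit 484))])], ⟨(nat_lit 5), false, false, false, (nat_lit 205), (nat_lit 1581), (nat_lit 2237), [(nat_lit 1422801), (nat_lit 1427507), (nat_lit 1445530), (nat_lit 1450776), (nat_lit 1579788), (nat_lit 1577949), (nat_lit 1602558), (nat_lit 1601260)]⟩, ⟨(nat_lit 5), false, false, true, (nat_lit 186), (nat_lit 1581), (nat_lit 2237), [(nat_lit 1408901), (nat_lit 1406738), (nat_lit 1454450), (nat_lit 1453368), (nat_lit 1480171), (nat_lit 1475033), (nat_lit 1525719), (nat_lit 1521663)]⟩, (nat_lit 4842915), (nat_lit 43017514), (nat_lit 12917932), (nat_lit 11064554),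 (nat_lit 5), (nat_lit 0), [], [⟨(nat_lit 1), (nat_lit 100), (nat_lit 38), (nat_lit 96), (nat_lit 285683246)⟩], [], [],
 ⟨⟨[(nat_lit 40), (nat_lit 80), (nat_lit 100)], [(nat_lit 0), (nat_lit 2514), (nat_lit 3562)], [((nat_lit 0), (nat_lit 0), (nat_lit 0)), ((nat_lit 1000), (nat_lit 446), (nat_lit 804)), ((nat_lit 1000), (nat_lit 443), (nat_lit 819))], ((nat_lit 44), (nat_lit 100), (nat_lit 84))⟩, (nat_lit 0), (nat_lit 131), (nat_lit 131), (nat_lit 0), (nat_lit 159649), [(nat_lit 1490410802), (nat_lit 1314617999), (nat_lit 1114577200)], [(nat_lit 0), (nat_lit 0), (nat_lit 0)], [(nat_lit 22990518505), (nat_lit 23640300837), (nat_lit 24895353337), (nat_lit 25452113975), (nat_lit 24316302828), (nat_lit 24920783167), (nat_lit 26002296030), (nat_lit 26581374683)], (nat_lit 1271251), (nat_lit 1271251), (nat_lit 857188), (nat_lit 1768126), (nat_lit 1271251), (nat_lit 1271251), [(nat_lit 490000), (nat_lit 1100000), (nat_lit 1442501)], [(nat_lit 3), (nat_lit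 50), (nat_lit 272), (nat_lit 60), (nat_lit 9)]⟩,
 ⟨⟨[(nat_lit 100), (nat_lit 140), (nat_lit 180)], [(nat_lit 0), (nat_lit 508), (nat_lit 2854)], [((nat_lit 0), (nat_lit 0), (nat_lit 0)), ((nat_lit 1000), (nat_lit 1000), (nat_lit 198)), ((nat_lit 777), (nat_lit 1000), (nat_lit 712))], ((nat_lit 100), (nat_lit 64), (nat_lit 83))⟩, (nat_lit 0), (nat_lit 589), (nat_lit 589), (nat_lit 0), (nat_lit 457013), [(nat_lit 206250000), (nat_lit 324786000), (nat_lit 463914000)], [], [(nat_lit 1459669349), (nat_lit 1459560674), (nat_lit 1434395193), (nat_lit 1439130612), (nat_lit 1457920718), (nat_lit 1453081481), (nat_lit 2039677020), (nat_lit 1853124360)], (nat_lit 1271251), (nat_lit 1271251), (nat_lit 857188), (nat_lit 1768126), (nat_lit 0), (nat_lit 2825001), [(nat_lit 1412501), (nat_lit 1271251), (nat_lit 1271251)], [(nat_lit 24), (nat_lit 63), (nat_lit 456), (nat_lit 225), (nat_lit 11)]⟩,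
 ⟨⟨[(nat_lit 140), (nat_lit 180), (nat_lit 200)], [(nat_lit 0), (nat_lit 0), (nat_lit 2835)], [((nat_lit 0), (nat_lit 0), (nat_lit 0)), ((nat_lit 0), (nat_lit 0), (nat_lit 0)), ((nat_lit 363), (nat_lit 1000), (nat_lit 798))], ((nat_lit 0), (nat_lit 0), (nat_lit 0))⟩, (nat_lit 5503), (nat_lit 300), (nat_lit 1312), (nat_lit 1562000), (nat_lit 1859896), [(nat_lit 196840000), (nat_lit 281160000), (nat_lit 328000000)], [], [(nat_lit 1345951508), (nat_lit 1295631910), (nat_lit 1313324360), (nat_lit 1262415529), (nat_lit 1478709572), (nat_lit 1623905726), (nat_lit 1159011705), (nat_lit 1308149149)], (nat_lit 780000), (nat_lit 1100000), (nat_lit 1271251), (nat_lit 1271251), (nat_lit 0), (nat_lit 2825001), [(nat_lit 1977501), (nat_lit 1271251), (nat_lit 1271251)], [(nat_lit 32), (nat_lit 67), (nat_lit 456), (nat_lit 225), (nat_lit 10)]⟩⟩)) (.leaf ⟨(nat_lit 931), (nat_lit 24), (nat_lit 0), (nat_lit 45), (nat_lit 6385), (nat_lit 3443), (nat_lit 793), (nat_lit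 618), (nat_lit 0), (nat_lit 0), (nat_lit 328150), [((nat_lit 390), [((nat_lit 29), (nat_lit 0), (nat_lit 295)), ((nat_lit 29), (nat_lit 1), (nat_lit 636))])], ⟨(nat_lit 5), false, false, false, (nat_lit 205), (nat_lit 1581), (nat_lit 2237), [(nat_lit 1422801), (nat_lit 1427507), (nat_lit 1445530), (nat_lit 1450776), (nat_lit 1579788), (nat_lit 1577949), (nat_lit 1602558), (nat_lit 1601260)]⟩, ⟨(nat_lit 5), false, false, true, (nat_lit 206), (nat_lit 1581), (nat_lit 2237), [(nat_lit 1454450), (nat_lit 1453368), (nat_lit 1477224), (nat_lit 1476683), (nat_lit 1554227), (nat_lit 1548981), (nat_lit 1577001), (nat_lit 1572296)]⟩, (nat_lit 4991433), (nat_lit 41639694), (nat_lit 12665264), (nat_lit 12695042), (nat_lit 5), (nat_lit 0), [], [⟨(nat_lit 1), (nat_lit 98), (nat_lit 38), (nat_lit 100), (nat_lit 272991366)⟩], [], [],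
 ⟨⟨[(nat_lit 40), (nat_lit 80), (nat_lit 100)], [(nat_lit 0), (nat_lit 2514), (nat_lit 3562)], [((nat_lit 0), (nat_lit 0), (nat_lit 0)), ((nat_lit 1000), (nat_lit 446), (nat_lit 804)), ((nat_lit 1000), (nat_lit 443), (nat_lit 819))], ((nat_lit 44), (nat_lit 100), (nat_lit 84))⟩, (nat_lit 0), (nat_lit 110), (nat_lit 110), (nat_lit 0), (nat_lit 76140), [(nat_lit 1473570869), (nat_lit 1126641849), (nat_lit 1018022000)], [(nat_lit 0), (nat_lit 0), (nat_lit 0)], [(nat_lit 22968333365), (nat_lit 23584577933), (nat_lit 24886296830), (nat_lit 25407142376), (nat_lit 24968104767), (nat_lit 25542271209), (nat_lit 26620152294), (nat_lit 27217923142)], (nat_lit 1271251), (nat_lit 1271251), (nat_lit 857188), (nat_lit 1768126), (nat_lit 1271251), (nat_lit 1271251), [(nat_lit 490000), (nat_lit 1100000), (nat_lit 1442501)], [(nat_lit 3), (nat_lit 50), (nat_lit 272), (nat_lit 60), (nat_lit 9)]⟩,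
 ⟨⟨[(nat_lit 100), (nat_lit 140), (nat_lit 180)], [(nat_lit 0), (nat_lit 508), (nat_lit 2854)], [((nat_lit 0), (nat_lit 0), (nat_lit 0)), ((nat_lit 1000), (nat_lit 1000), (nat_lit 198)), ((nat_lit 777), (nat_lit 1000), (nat_lit 712))], ((nat_lit 100), (nat_lit 64), (nat_lit 83))⟩, (nat_lit 200750), (nat_lit 444), (nat_lit 444), (nat_lit 0), (nat_lit 217573), [(nat_lit 431250000), (nat_lit 679098000), (nat_lit 970002000)], [], [(nat_lit 2831631679), (nat_lit 2410798404), (nat_lit 2376102352), (nat_lit 2387162708), (nat_lit 2977566306), (nat_lit 2612477829), (nat_lit 4154542281), (nat_lit 3802313092)], (nat_lit 1271251), (nat_lit 1271251), (nat_lit 857188), (nat_lit 1768126), (nat_lit 0), (nat_lit 2825001), [(nat_lit 1412501), (nat_lit 1271251), (nat_lit 1271251)], [(nat_lit 24), (nat_lit 63), (nat_lit 456), (nat_lit 225), (nat_lit 11)]⟩,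
 ⟨⟨[(nat_lit 120), (nat_lit 160), (nat_lit 200)], [(nat_lit 0), (nat_lit 0), (nat_lit 3198)], [((nat_lit 0), (nat_lit 0), (nat_lit 0)), ((nat_lit 0), (nat_lit 0), (nat_lit 0)), ((nat_lit 572), (nat_lit 1000), (nat_lit 714))], ((nat_lit 0), (nat_lit 0), (nat_lit 0))⟩, (nat_lit 21951), (nat_lit 300), (nat_lit 669), (nat_lit 3339004), (nat_lit 493964), [(nat_lit 358560000), (nat_lit 534240000), (nat_lit 738000000)], [], [(nat_lit 2862450210), (nat_lit 2830071351), (nat_lit 2784999546), (nat_lit 2750494568), (nat_lit 2995595628), (nat_lit 3178657692), (nat_lit 2117198746), (nat_lit 2233948902)], (nat_lit 1100000), (nat_lit 1271251), (nat_lit 1271251), (nat_lit 1271251), (nat_lit 0), (nat_lit 2825001), [(nat_lit 1695001), (nat_lit 1271251), (nat_lit 1271251)], [(nat_lit 29), (nat_lit 66), (nat_lit 456), (nat_lit 225), (nat_lit 10)]⟩⟩)))))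
noncomputable def c13_33 : Tr Lf :=
 (.trX (nat_lit 4) (nat_lit 0) (nat_lit 2) (nat_lit 31) (nat_lit 98) (nat_lit 100) (nat_lit 250) (.spl (nat_lit 3) (nat_lit 200) (.spl (nat_lit 1) (nat_lit 220) (.leaf ⟨(nat_lit 1000), (nat_lit 0), (nat_lit 0), (nat_lit 0), (nat_lit 0), (nat_lit 3589), (nat_lit 0), (nat_lit 0), (nat_lit 0), (nat_lit 0), (nat_lit 250000), [((nat_lit 400), [((nat_lit 29), (nat_lit 0), (nat_lit 1000))])], ⟨(nat_lit 4), false, false, false, (nat_lit 178), (nat_lit 0), (nat_lit 1582), [(nat_lit 1365448), (nat_lit 1373034), (nat_lit 1410764), (nat_lit 1421721), (nat_lit 1476683), (nat_lit 1474999), (nat_lit 1522658), (nat_lit 1524343)]⟩, ⟨(nat_lit 5), false, false, true, (nat_lit 189), (nat_lit 0), (nat_lit 1582), [(nat_lit 1406735), (nat_lit 1399996), (nat_lit 1476683), (nat_lit 1474999), (nat_lit 1475027), (nat_lit 1462493), (nat_lit 1544976), (nat_lit 1537497)]⟩, (nat_lit 4644240), (nat_lit 44844995), (nat_lit 10581060), (nat_lit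 11573945), (nat_lit 0), (nat_lit 0), [], [⟨(nat_lit 1), (nat_lit 100), (nat_lit 22), (nat_lit 97), (nat_lit 372141949)⟩, ⟨(nat_lit 1), (nat_lit 98), (nat_lit 31), (nat_lit 100), (nat_lit 189315209)⟩], [], [],
 ⟨⟨[(nat_lit 40), (nat_lit 60), (nat_lit 80)], [(nat_lit 0), (nat_lit 2136), (nat_lit 3185)], [((nat_lit 0), (nat_lit 0), (nat_lit 0)), ((nat_lit 1000), (nat_lit 343), (nat_lit 808)), ((nat_lit 1000), (nat_lit 338), (nat_lit 820))], ((nat_lit 32), (nat_lit 100), (nat_lit 86))⟩, (nat_lit 0), (nat_lit 169), (nat_lit 169), (nat_lit 0), (nat_lit 319461), [(nat_lit 1563200011), (nat_lit 1303983799), (nat_lit 1376400000)], [(nat_lit 0), (nat_lit 0), (nat_lit 0)], [(nat_lit 23301913394), (nat_lit 24137647043), (nat_lit 24540545379), (nat_lit 25158150217), (nat_lit 24808439121), (nat_lit 25577343470), (nat_lit 25766699789), (nat_lit 26449241321)], (nat_lit 1271251), (nat_lit 1271251), (nat_lit 780000), (nat_lit 1435001), (nat_lit 1271251), (nat_lit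 1271251), [(nat_lit 490000), (nat_lit 780000), (nat_lit 1100000)], [(nat_lit 2), (nat_lit 44), (nat_lit 260), (nat_lit 50), (nat_lit 10)]⟩,
 Rw.none,
 Rw.none⟩) (.trZ (nat_lit 0) (nat_lit 1) (nat_lit 3) (nat_lit 100) (nat_lit 31) (nat_lit 98) (nat_lit 150) (.leaf ⟨(nat_lit 1000), (nat_lit 0), (nat_lit 0), (nat_lit 0), (nat_lit 0), (nat_lit 3589), (nat_lit 0), (nat_lit 0), (nat_lit 0), (nat_lit 0), (nat_lit 250000), [((nat_lit 400), [((nat_lit 29), (nat_lit 0), (nat_lit 1000))])], ⟨(nat_lit 5), false, false, false, (nat_lit 201), (nat_lit 0), (nat_lit 1582), [(nat_lit 1452725), (nat_lit 1460204), (nat_lit 1475382), (nat_lit 1484547), (nat_lit 1522658), (nat_lit 1524343), (nat_lit 1545316), (nat_lit 1548686)]⟩, ⟨(nat_lit 5), false, false, true, (nat_lit 189), (nat_lit 0), (nat_lit 1582), [(nat_lit 1406735), (nat_lit 1399996), (nat_lit 1476683), (nat_lit 1474999), (nat_lit 1475027), (nat_lit 1462493), (nat_lit 1544976), (nat_lit 1537497)]⟩, (nat_lit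 4829065), (nat_lit 43186121), (nat_lit 12477157), (nat_lit 11336722), (nat_lit 0), (nat_lit 0), [], [⟨(nat_lit 1), (nat_lit 100), (nat_lit 22), (nat_lit 97), (nat_lit 174880086)⟩, ⟨(nat_lit 1), (nat_lit 98), (nat_lit 31), (nat_lit 100), (nat_lit 331224770)⟩], [], [],
 ⟨⟨[(nat_lit 40), (nat_lit 60), (nat_lit 80)], [(nat_lit 0), (nat_lit 2136), (nat_lit 3185)], [((nat_lit 0), (nat_lit 0), (nat_lit 0)), ((nat_lit 1000), (nat_lit 343), (nat_lit 808)), ((nat_lit 1000), (nat_lit 338), (nat_lit 820))], ((nat_lit 32), (nat_lit 100), (nat_lit 86))⟩, (nat_lit 0), (nat_lit 168), (nat_lit 168), (nat_lit 0), (nat_lit 346218), [(nat_lit 1563200029), (nat_lit 1155134793), (nat_lit 1376400000)], [(nat_lit 0), (nat_lit 0), (nat_lit 0)], [(nat_lit 23552688520), (nat_lit 24212728263), (nat_lit 24540545451), (nat_lit 25158150217), (nat_lit 24885905419), (nat_lit 25614897356), (nat_lit 25766699789), (nat_lit 26449241321)], (nat_lit 1271251), (nat_lit 1271251), (nat_lit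 1017188), (nat_lit 1440626), (nat_lit 1271251), (nat_lit 1271251), [(nat_lit 490000), (nat_lit 780000), (nat_lit 1100000)], [(nat_lit 2), (nat_lit 44), (nat_lit 260), (nat_lit 50), (nat_lit 10)]⟩,
 Rw.none,
 Rw.none⟩))) (.stt (nat_lit 3) (.spl (nat_lit 1) (nat_lit 220) (.leaf ⟨(nat_lit 941), (nat_lit 24), (nat_lit 0), (nat_lit 35), (nat_lit 0), (nat_lit 3569), (nat_lit 774), (nat_lit 466), (nat_lit 0), (nat_lit 0), (nat_lit 235250), [((nat_lit 400), [((nat_lit 29), (nat_lit 0), (nat_lit 941))])], ⟨(nat_lit 5), false, true, true, (nat_lit 210), (nat_lit 0), (nat_lit 1582), [(nat_lit 1476683), (nat_lit 1474999), (nat_lit 1522658), (nat_lit 1524343), (nat_lit 1531317), (nat_lit 1524997), (nat_lit 1577949), (nat_lit 1574999)]⟩, ⟨(nat_lit 5), true, false, true, (nat_lit 189), (nat_lit 0), (nat_lit 1582), [(nat_lit 1406735), (nat_lit 1399996), (nat_lit 1476683), (nat_lit 1474999), (nat_lit 1475027), (nat_lit 1462493), (nat_lit 1544976), (nat_lit 1537497)]⟩,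 (nat_lit 4900048), (nat_lit 42457624), (nat_lit 13318286), (nat_lit 11224090), (nat_lit 5), (nat_lit 0), [], [⟨(nat_lit 1), (nat_lit 100), (nat_lit 22), (nat_lit 97), (nat_lit 470402250)⟩, ⟨(nat_lit 1), (nat_lit 98), (nat_lit 31), (nat_lit 100), (nat_lit 1741835)⟩], [], [⟨(nat_lit 0), (nat_lit 99), (nat_lit 100), (nat_lit 45), (nat_lit 7714845)⟩],
 ⟨⟨[(nat_lit 40), (nat_lit 60), (nat_lit 80)], [(nat_lit 0), (nat_lit 2136), (nat_lit 3185)], [((nat_lit 0), (nat_lit 0), (nat_lit 0)), ((nat_lit 1000), (nat_lit 343), (nat_lit 808)), ((nat_lit 1000), (nat_lit 338), (nat_lit 820))], ((nat_lit 32), (nat_lit 100), (nat_lit 86))⟩, (nat_lit 0), (nat_lit 150), (nat_lit 150), (nat_lit 0), (nat_lit 319461), [(nat_lit 1577053202), (nat_lit 1273536323), (nat_lit 1571784400)], [(nat_lit 0), (nat_lit 0), (nat_lit 0)], [(nat_lit 24701829582), (nat_lit 25267701510), (nat_lit 25548879916), (nat_lit 26078005860), (nat_lit 25859572077), (nat_lit 26429174086), (nat_lit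 26619091080), (nat_lit 27251841915)], (nat_lit 1271251), (nat_lit 1271251), (nat_lit 1271251), (nat_lit 1271251), (nat_lit 1271251), (nat_lit 1271251), [(nat_lit 490000), (nat_lit 780000), (nat_lit 1100000)], [(nat_lit 2), (nat_lit 44), (nat_lit 203), (nat_lit 0), (nat_lit 7)]⟩,
 ⟨⟨[(nat_lit 120), (nat_lit 160), (nat_lit 200)], [(nat_lit 0), (nat_lit 533), (nat_lit 3597)], [((nat_lit 0), (nat_lit 0), (nat_lit 0)), ((nat_lit 960), (nat_lit 1000), (nat_lit 200)), ((nat_lit 612), (nat_lit 1000), (nat_lit 732))], ((nat_lit 0), (nat_lit 0), (nat_lit 0))⟩, (nat_lit 231341), (nat_lit 1188), (nat_lit 1188), (nat_lit 0), (nat_lit 1654676), [(nat_lit 470112000), (nat_lit 700448000), (nat_lit 967600000)], [], [(nat_lit 2285245546), (nat_lit 2263895751), (nat_lit 2267010281), (nat_lit 2239431425), (nat_lit 4110556996), (nat_lit 3431502028), (nat_lit 3427239610), (nat_lit 2756709478)], (nat_lit 1271251), (nat_lit 1271251), (nat_lit 1271251), (nat_lit 1271251),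 (nat_lit 0), (nat_lit 2825001), [(nat_lit 1695001), (nat_lit 1271251), (nat_lit 1271251)], [(nat_lit 29), (nat_lit 66), (nat_lit 456), (nat_lit 225), (nat_lit 10)]⟩,
 ⟨⟨[(nat_lit 140), (nat_lit 180), (nat_lit 200)], [(nat_lit 0), (nat_lit 0), (nat_lit 2835)], [((nat_lit 0), (nat_lit 0), (nat_lit 0)), ((nat_lit 0), (nat_lit 0), (nat_lit 0)), ((nat_lit 363), (nat_lit 1000), (nat_lit 798))], ((nat_lit 0), (nat_lit 0), (nat_lit 0))⟩, (nat_lit 9630), (nat_lit 300), (nat_lit 448), (nat_lit 2733500), (nat_lit 0), [(nat_lit 344470000), (nat_lit 492030000), (nat_lit 574000000)], [], [(nat_lit 2288740566), (nat_lit 2203697060), (nat_lit 2269410736), (nat_lit 2183877460), (nat_lit 1858361956), (nat_lit 1756171677), (nat_lit 1809170549), (nat_lit 1704979714)], (nat_lit 0), (nat_lit 0), (nat_lit 0), (nat_lit 0), (nat_lit 0), (nat_lit 0), [], [(nat_lit 32), (nat_lit 67), (nat_lit 456), (nat_lit 225), (nat_lit 10)]⟩⟩) (.leaf ⟨(nat_lit 901), (nat_lit 56), (nat_lit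 0), (nat_lit 43), (nat_lit 0), (nat_lit 3665), (nat_lit 1103), (nat_lit 572), (nat_lit 0), (nat_lit 0), (nat_lit 225250), [((nat_lit 400), [((nat_lit 29), (nat_lit 0), (nat_lit 901))])], ⟨(nat_lit 5), false, true, false, (nat_lit 225), (nat_lit 0), (nat_lit 1582), [(nat_lit 1522658), (nat_lit 1524343), (nat_lit 1545316), (nat_lit 1548686), (nat_lit 1577949), (nat_lit 1574999), (nat_lit 1601257), (nat_lit 1599992)]⟩, ⟨(nat_lit 5), true, false, true, (nat_lit 189), (nat_lit 0), (nat_lit 1582), [(nat_lit 1406735), (nat_lit 1399996), (nat_lit 1476683), (nat_lit 1474999), (nat_lit 1475027), (nat_lit 1462493), (nat_lit 1544976), (nat_lit 1537497)]⟩, (nat_lit 4994387), (nat_lit 41379149), (nat_lit 14572307), (nat_lit 11048544), (nat_lit 5), (nat_lit 0), [], [⟨(nat_lit 1), (nat_lit 100), (nat_lit 22), (nat_lit 97), (nat_lit 523284099)⟩], [], [⟨(nat_lit 0), (nat_lit 100), (nat_lit 100), (nat_lit 22), (nat_lit 324417)⟩, ⟨(nat_lit 0), (nat_lit 99), (nat_lit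 100), (nat_lit 45), (nat_lit 11528298)⟩],
 ⟨⟨[(nat_lit 40), (nat_lit 60), (nat_lit 80)], [(nat_lit 0), (nat_lit 2136), (nat_lit 3185)], [((nat_lit 0), (nat_lit 0), (nat_lit 0)), ((nat_lit 1000), (nat_lit 343), (nat_lit 808)), ((nat_lit 1000), (nat_lit 338), (nat_lit 820))], ((nat_lit 32), (nat_lit 100), (nat_lit 86))⟩, (nat_lit 0), (nat_lit 163), (nat_lit 163), (nat_lit 0), (nat_lit 346218), [(nat_lit 1586445235), (nat_lit 1334930510), (nat_lit 1704248400)], [(nat_lit 0), (nat_lit 0), (nat_lit 0)], [(nat_lit 24681512556), (nat_lit 25254355080), (nat_lit 25526883094), (nat_lit 26152818530), (nat_lit 25839360261), (nat_lit 26525496814), (nat_lit 26702557502), (nat_lit 27344123883)], (nat_lit 1271251), (nat_lit 1271251), (nat_lit 1271251), (nat_lit 1271251), (nat_lit 1271251), (nat_lit 1271251), [(nat_lit 490000), (nat_lit 780000), (nat_lit 1100000)], [(nat_lit 2), (nat_lit 44), (nat_lit 203), (nat_lit 0), (nat_lit 7)]⟩,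
 ⟨⟨[(nat_lit 100), (nat_lit 140), (nat_lit 180)], [(nat_lit 0), (nat_lit 508), (nat_lit 2854)], [((nat_lit 0), (nat_lit 0), (nat_lit 0)), ((nat_lit 1000), (nat_lit 1000), (nat_lit 198)), ((nat_lit 777), (nat_lit 1000), (nat_lit 712))], ((nat_lit 100), (nat_lit 64), (nat_lit 83))⟩, (nat_lit 371387), (nat_lit 877), (nat_lit 877), (nat_lit 0), (nat_lit 1160375), [(nat_lit 618750000), (nat_lit 974358000), (nat_lit 1391742000)], [], [(nat_lit 3161394289), (nat_lit 3153486500), (nat_lit 3156415222), (nat_lit 3167218556), (nat_lit 4513128965), (nat_lit 4016799370), (nat_lit 3526876551), (nat_lit 3368346108)], (nat_lit 1271251), (nat_lit 1271251), (nat_lit 1271251), (nat_lit 1271251), (nat_lit 0), (nat_lit 2825001), [(nat_lit 1412501), (nat_lit 1271251), (nat_lit 1271251)], [(nat_lit 24), (nat_lit 63), (nat_lit 456), (nat_lit 225), (nat_lit 10)]⟩,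
 ⟨⟨[(nat_lit 140), (nat_lit 180), (nat_lit 200)], [(nat_lit 0), (nat_lit 0), (nat_lit 2835)], [((nat_lit 0), (nat_lit 0), (nat_lit 0)), ((nat_lit 0), (nat_lit 0), (nat_lit 0)), ((nat_lit 363), (nat_lit 1000), (nat_lit 798))], ((nat_lit 0), (nat_lit 0), (nat_lit 0))⟩, (nat_lit 11831), (nat_lit 300), (nat_lit 448), (nat_lit 3358300), (nat_lit 0), [(nat_lit 423206000), (nat_lit 604494000), (nat_lit 705200000)], [], [(nat_lit 2811883871), (nat_lit 2707504723), (nat_lit 2787986960), (nat_lit 2683039365), (nat_lit 2283676556), (nat_lit 2158276875), (nat_lit 2223328372), (nat_lit 2095472302)], (nat_lit 0), (nat_lit 0), (nat_lit 0), (nat_lit 0), (nat_lit 0), (nat_lit 0), [], [(nat_lit 32), (nat_lit 67), (nat_lit 456), (nat_lit 225), (nat_lit 10)]⟩⟩)) (.leaf ⟨(nat_lit 1000), (nat_lit 0), (nat_lit 0), (nat_lit 0), (nat_lit 0), (nat_lit 3498), (nat_lit 0), (nat_lit 0), (nat_lit 0), (nat_lit 0), (nat_lit 250000), [((nat_lit 400), [((nat_lit 29), (nat_lit 0),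 (nat_lit 1000))])], ⟨(nat_lit 5), false, true, true, (nat_lit 215), (nat_lit 0), (nat_lit 1582), [(nat_lit 1476683), (nat_lit 1474999), (nat_lit 1545316), (nat_lit 1548686), (nat_lit 1531317), (nat_lit 1524997), (nat_lit 1601257), (nat_lit 1599992)]⟩, ⟨(nat_lit 5), false, false, true, (nat_lit 189), (nat_lit 0), (nat_lit 1582), [(nat_lit 1406735), (nat_lit 1399996), (nat_lit 1476683), (nat_lit 1474999), (nat_lit 1475027), (nat_lit 1462493), (nat_lit 1544976), (nat_lit 1537497)]⟩, (nat_lit 4932754), (nat_lit 42099706), (nat_lit 13733325), (nat_lit 11166969), (nat_lit 0), (nat_lit 0), [], [⟨(nat_lit 1), (nat_lit 98), (nat_lit 31), (nat_lit 100), (nat_lit 415961213)⟩], [], [],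
 ⟨⟨[(nat_lit 40), (nat_lit 60), (nat_lit 80)], [(nat_lit 0), (nat_lit 2136), (nat_lit 3185)], [((nat_lit 0), (nat_lit 0), (nat_lit 0)), ((nat_lit 1000), (nat_lit 343), (nat_lit 808)), ((nat_lit 1000), (nat_lit 338), (nat_lit 820))], ((nat_lit 32), (nat_lit 100), (nat_lit 86))⟩, (nat_lit 0), (nat_lit 136), (nat_lit 136), (nat_lit 0), (nat_lit 285712), [(nat_lit 1563200006), (nat_lit 1141580009), (nat_lit 1376400000)], [(nat_lit 0), (nat_lit 0), (nat_lit 0)], [(nat_lit 24605625473), (nat_lit 25166342064), (nat_lit 25453918156), (nat_lit 25989612436), (nat_lit 25763290156), (nat_lit 26357935402), (nat_lit 26555908728), (nat_lit 27183591709)], (nat_lit 1271251), (nat_lit 1271251), (nat_lit 1271251), (nat_lit 1271251), (nat_lit 1271251), (nat_lit 1271251), [(nat_lit 490000), (nat_lit 780000), (nat_lit 1100000)], [(nat_lit 2), (nat_lit 44), (nat_lit 203), (nat_lit 0), (nat_lit 7)]⟩,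
 Rw.none,
 Rw.none⟩))))
noncomputable def c13_34 : Tr Lf :=
 (.trX (nat_lit 3) (nat_lit 0) (nat_lit 1) (nat_lit 44) (nat_lit 94) (nat_lit 100) (nat_lit 270) (.leaf ⟨(nat_lit 1000), (nat_lit 0), (nat_lit 0), (nat_lit 0), (nat_lit 1932), (nat_lit 3421), (nat_lit 0), (nat_lit 0), (nat_lit 0), (nat_lit 107207), (nat_lit 322300), [((nat_lit 400), [((nat_lit 29), (nat_lit 0), (nat_lit 518)), ((nat_lit 29), (nat_lit 1), (nat_lit 482))])], ⟨(nat_lit 6), false, false, true, (nat_lit 206), (nat_lit 0), (nat_lit 2237), [(nat_lit 1465911), (nat_lit 1449992), (nat_lit 1534237), (nat_lit 1524996), (nat_lit 1508671), (nat_lit 1487491), (nat_lit 1576997), (nat_lit 1562495)]⟩, ⟨(nat_lit 3), false, false, false, (nat_lit 122), (nat_lit 0), (nat_lit 2237), [(nat_lit 1177178), (nat_lit 1196337), (nat_lit 1242721), (nat_lit 1268557), (nat_lit 1351885), (nat_lit 1349998), (nat_lit 1419294), (nat_lit 1424084)]⟩, (nat_lit 4182554), (nat_lit 47431723), (nat_lit 13592838),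 (nat_lit 5975439), (nat_lit 0), (nat_lit 0), [⟨(nat_lit 1), (nat_lit 94), (nat_lit 44), (nat_lit 100), (nat_lit 407442826)⟩], [⟨(nat_lit 0), (nat_lit 100), (nat_lit 32), (nat_lit 87), (nat_lit 66894742)⟩], [], [],
 ⟨⟨[(nat_lit 40), (nat_lit 80), (nat_lit 100)], [(nat_lit 0), (nat_lit 2514), (nat_lit 3562)], [((nat_lit 0), (nat_lit 0), (nat_lit 0)), ((nat_lit 1000), (nat_lit 446), (nat_lit 804)), ((nat_lit 1000), (nat_lit 443), (nat_lit 819))], ((nat_lit 44), (nat_lit 100), (nat_lit 84))⟩, (nat_lit 0), (nat_lit 254), (nat_lit 254), (nat_lit 0), (nat_lit 358327), [(nat_lit 1482995205), (nat_lit 856946177), (nat_lit 970663200)], [(nat_lit 0), (nat_lit 0), (nat_lit 0)], [(nat_lit 24836862910), (nat_lit 26117622986), (nat_lit 25858901307), (nat_lit 27403406183), (nat_lit 24881755539), (nat_lit 25860251983), (nat_lit 25789263237), (nat_lit 26728598451)], (nat_lit 1271251), (nat_lit 1271251), (nat_lit 1271251), (nat_lit 1271251), (nat_lit 230000), (nat_lit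 1100000), [(nat_lit 490000), (nat_lit 1100000), (nat_lit 1442501)], [(nat_lit 3), (nat_lit 50), (nat_lit 249), (nat_lit 40), (nat_lit 8)]⟩,
 Rw.none,
 Rw.none⟩))
def l021 : List St := [⟨⟨(nat_lit 380), (nat_lit 400), (nat_lit 120), (nat_lit 180), (nat_lit 120), (nat_lit 180), (nat_lit 40), (nat_lit 120), (nat_lit 40), (nat_lit 270), (nat_lit 0), (nat_lit 400), (nat_lit 0), (nat_lit 44)⟩, (nat_lit 3), (nat_lit 3), (nat_lit 3), true, false, false⟩,
  ⟨⟨(nat_lit 380), (nat_lit 400), (nat_lit 120), (nat_lit 180), (nat_lit 120), (nat_lit 180), (nat_lit 120), (nat_lit 270), (nat_lit 40), (nat_lit 160), (nat_lit 0), (nat_lit 400), (nat_lit 0), (nat_lit 44)⟩, (nat_lit 3), (nat_lit 3), (nat_lit 3), false, false, false⟩,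
  ⟨⟨(nat_lit 380), (nat_lit 400), (nat_lit 120), (nat_lit 160), (nat_lit 120), (nat_lit 180), (nat_lit 120), (nat_lit 200), (nat_lit 160), (nat_lit 270), (nat_lit 0), (nat_lit 400), (nat_lit 0), (nat_lit 44)⟩, (nat_lit 3), (nat_lit 3), (nat_lit 3), false, false, false⟩,
  ⟨⟨(nat_lit 380), (nat_lit 400), (nat_lit 160), (nat_lit 180), (nat_lit 120), (nat_lit 180), (nat_lit 120), (nat_lit 160), (nat_lit 160), (nat_lit 270), (nat_lit 0), (nat_lit 400), (nat_lit 0), (nat_lit 44)⟩, (nat_lit 3), (nat_lit 3), (nat_lit 3), false, false, false⟩,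
  ⟨⟨(nat_lit 380), (nat_lit 400), (nat_lit 160), (nat_lit 180), (nat_lit 120), (nat_lit 180), (nat_lit 160), (nat_lit 200), (nat_lit 160), (nat_lit 270), (nat_lit 0), (nat_lit 400), (nat_lit 0), (nat_lit 44)⟩, (nat_lit 3), (nat_lit 3), (nat_lit 3), false, false, false⟩,
  ⟨⟨(nat_lit 380), (nat_lit 400), (nat_lit 120), (nat_lit 180), (nat_lit 120), (nat_lit 180), (nat_lit 200), (nat_lit 270), (nat_lit 160), (nat_lit 270), (nat_lit 0), (nat_lit 400), (nat_lit 0), (nat_lit 44)⟩, (nat_lit 3), (nat_lit 3), (nat_lit 3), false, false, false⟩,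
  ⟨⟨(nat_lit 380), (nat_lit 400), (nat_lit 180), (nat_lit 240), (nat_lit 120), (nat_lit 180), (nat_lit 90), (nat_lit 330), (nat_lit 40), (nat_lit 120), (nat_lit 0), (nat_lit 400), (nat_lit 0), (nat_lit 44)⟩, (nat_lit 3), (nat_lit 3), (nat_lit 3), false, true, false⟩,
  ⟨⟨(nat_lit 380), (nat_lit 400), (nat_lit 180), (nat_lit 240), (nat_lit 120), (nat_lit 180), (nat_lit 90), (nat_lit 200), (nat_lit 120), (nat_lit 270), (nat_lit 0), (nat_lit 400), (nat_lit 0), (nat_lit 44)⟩, (nat_lit 3), (nat_lit 3), (nat_lit 0), false, false, false⟩,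
  ⟨⟨(nat_lit 380), (nat_lit 400), (nat_lit 180), (nat_lit 240), (nat_lit 120), (nat_lit 180), (nat_lit 90), (nat_lit 200), (nat_lit 120), (nat_lit 200), (nat_lit 0), (nat_lit 400), (nat_lit 0), (nat_lit 44)⟩, (nat_lit 3), (nat_lit 3), (nat_lit 1), false, false, false⟩,
  ⟨⟨(nat_lit 380), (nat_lit 400), (nat_lit 180), (nat_lit 240), (nat_lit 120), (nat_lit 180), (nat_lit 90), (nat_lit 120), (nat_lit 200), (nat_lit 270), (nat_lit 0), (nat_lit 400), (nat_lit 0), (nat_lit 44)⟩, (nat_lit 3), (nat_lit 3), (nat_lit 1), true, false, false⟩,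
  ⟨⟨(nat_lit 380), (nat_lit 400), (nat_lit 180), (nat_lit 240), (nat_lit 120), (nat_lit 180), (nat_lit 120), (nat_lit 200), (nat_lit 200), (nat_lit 270), (nat_lit 0), (nat_lit 400), (nat_lit 0), (nat_lit 44)⟩, (nat_lit 3), (nat_lit 0), (nat_lit 1), false, false, false⟩,
  ⟨⟨(nat_lit 380), (nat_lit 400), (nat_lit 180), (nat_lit 240), (nat_lit 120), (nat_lit 180), (nat_lit 120), (nat_lit 200), (nat_lit 200), (nat_lit 270), (nat_lit 0), (nat_lit 400), (nat_lit 0), (nat_lit 44)⟩, (nat_lit 3), (nat_lit 1), (nat_lit 1), false, false, false⟩,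
  ⟨⟨(nat_lit 380), (nat_lit 400), (nat_lit 180), (nat_lit 240), (nat_lit 120), (nat_lit 180), (nat_lit 200), (nat_lit 330), (nat_lit 120), (nat_lit 270), (nat_lit 0), (nat_lit 400), (nat_lit 0), (nat_lit 44)⟩, (nat_lit 3), (nat_lit 0), (nat_lit 0), false, false, false⟩,
  ⟨⟨(nat_lit 380), (nat_lit 400), (nat_lit 180), (nat_lit 240), (nat_lit 120), (nat_lit 180), (nat_lit 200), (nat_lit 330), (nat_lit 120), (nat_lit 200), (nat_lit 0), (nat_lit 400), (nat_lit 0), (nat_lit 44)⟩, (nat_lit 3), (nat_lit 1), (nat_lit 0), false, false, false⟩,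
  ⟨⟨(nat_lit 380), (nat_lit 400), (nat_lit 180), (nat_lit 240), (nat_lit 120), (nat_lit 180), (nat_lit 200), (nat_lit 330), (nat_lit 200), (nat_lit 270), (nat_lit 0), (nat_lit 400), (nat_lit 0), (nat_lit 44)⟩, (nat_lit 3), (nat_lit 1), (nat_lit 0), false, false, false⟩,
  ⟨⟨(nat_lit 380), (nat_lit 400), (nat_lit 180), (nat_lit 240), (nat_lit 120), (nat_lit 180), (nat_lit 200), (nat_lit 280), (nat_lit 120), (nat_lit 200), (nat_lit 0), (nat_lit 400), (nat_lit 0), (nat_lit 44)⟩, (nat_lit 3), (nat_lit 3), (nat_lit 1), false, false, false⟩,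
  ⟨⟨(nat_lit 380), (nat_lit 400), (nat_lit 180), (nat_lit 240), (nat_lit 120), (nat_lit 180), (nat_lit 200), (nat_lit 280), (nat_lit 200), (nat_lit 270), (nat_lit 0), (nat_lit 400), (nat_lit 0), (nat_lit 44)⟩, (nat_lit 3), (nat_lit 3), (nat_lit 1), false, false, false⟩,
  ⟨⟨(nat_lit 380), (nat_lit 400), (nat_lit 180), (nat_lit 240), (nat_lit 120), (nat_lit 180), (nat_lit 280), (nat_lit 330), (nat_lit 120), (nat_lit 200), (nat_lit 0), (nat_lit 400), (nat_lit 0), (nat_lit 44)⟩, (nat_lit 3), (nat_lit 3), (nat_lit 1), false, false, false⟩,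
  ⟨⟨(nat_lit 380), (nat_lit 400), (nat_lit 180), (nat_lit 240), (nat_lit 120), (nat_lit 180), (nat_lit 280), (nat_lit 330), (nat_lit 200), (nat_lit 270), (nat_lit 0), (nat_lit 400), (nat_lit 0), (nat_lit 44)⟩, (nat_lit 3), (nat_lit 3), (nat_lit 1), false, false, false⟩,
  ⟨⟨(nat_lit 380), (nat_lit 400), (nat_lit 180), (nat_lit 240), (nat_lit 180), (nat_lit 240), (nat_lit 90), (nat_lit 200), (nat_lit 90), (nat_lit 200), (nat_lit 0), (nat_lit 400), (nat_lit 0), (nat_lit 44)⟩, (nat_lit 3), (nat_lit 3), (nat_lit 3), false, false, false⟩,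
  ⟨⟨(nat_lit 380), (nat_lit 400), (nat_lit 180), (nat_lit 240), (nat_lit 180), (nat_lit 240), (nat_lit 90), (nat_lit 200), (nat_lit 200), (nat_lit 330), (nat_lit 0), (nat_lit 400), (nat_lit 0), (nat_lit 44)⟩, (nat_lit 3), (nat_lit 3), (nat_lit 0), false, false, false⟩,
  ⟨⟨(nat_lit 380), (nat_lit 400), (nat_lit 180), (nat_lit 240), (nat_lit 180), (nat_lit 240), (nat_lit 90), (nat_lit 200), (nat_lit 200), (nat_lit 330), (nat_lit 0), (nat_lit 400), (nat_lit 0), (nat_lit 44)⟩, (nat_lit 3), (nat_lit 3), (nat_lit 1), false, false, false⟩,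
  ⟨⟨(nat_lit 380), (nat_lit 400), (nat_lit 180), (nat_lit 240), (nat_lit 180), (nat_lit 240), (nat_lit 200), (nat_lit 330), (nat_lit 90), (nat_lit 200), (nat_lit 0), (nat_lit 400), (nat_lit 0), (nat_lit 44)⟩, (nat_lit 3), (nat_lit 0), (nat_lit 3), false, false, false⟩,
  ⟨⟨(nat_lit 380), (nat_lit 400), (nat_lit 180), (nat_lit 240), (nat_lit 180), (nat_lit 240), (nat_lit 200), (nat_lit 330), (nat_lit 90), (nat_lit 200), (nat_lit 0), (nat_lit 400), (nat_lit 0), (nat_lit 44)⟩, (nat_lit 3), (nat_lit 1), (nat_lit 3), false, false, false⟩,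
  ⟨⟨(nat_lit 380), (nat_lit 400), (nat_lit 180), (nat_lit 240), (nat_lit 180), (nat_lit 220), (nat_lit 200), (nat_lit 280), (nat_lit 200), (nat_lit 310), (nat_lit 0), (nat_lit 400), (nat_lit 0), (nat_lit 44)⟩, (nat_lit 0), (nat_lit 3), (nat_lit 3), false, false, false⟩,
  ⟨⟨(nat_lit 380), (nat_lit 400), (nat_lit 180), (nat_lit 240), (nat_lit 180), (nat_lit 220), (nat_lit 280), (nat_lit 330), (nat_lit 200), (nat_lit 310), (nat_lit 0), (nat_lit 400), (nat_lit 0), (nat_lit 44)⟩, (nat_lit 0), (nat_lit 3), (nat_lit 3), false, false, false⟩,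
  ⟨⟨(nat_lit 380), (nat_lit 400), (nat_lit 180), (nat_lit 240), (nat_lit 220), (nat_lit 240), (nat_lit 200), (nat_lit 330), (nat_lit 200), (nat_lit 330), (nat_lit 0), (nat_lit 400), (nat_lit 0), (nat_lit 44)⟩, (nat_lit 0), (nat_lit 3), (nat_lit 3), false, false, false⟩,
  ⟨⟨(nat_lit 380), (nat_lit 400), (nat_lit 180), (nat_lit 240), (nat_lit 180), (nat_lit 240), (nat_lit 200), (nat_lit 330), (nat_lit 200), (nat_lit 330), (nat_lit 0), (nat_lit 400), (nat_lit 0), (nat_lit 44)⟩, (nat_lit 1), (nat_lit 3), (nat_lit 3), false, false, false⟩,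
  ⟨⟨(nat_lit 380), (nat_lit 400), (nat_lit 120), (nat_lit 240), (nat_lit 120), (nat_lit 240), (nat_lit 40), (nat_lit 120), (nat_lit 40), (nat_lit 330), (nat_lit 0), (nat_lit 400), (nat_lit 44), (nat_lit 88)⟩, (nat_lit 3), (nat_lit 3), (nat_lit 3), true, false, false⟩,
  ⟨⟨(nat_lit 380), (nat_lit 400), (nat_lit 120), (nat_lit 240), (nat_lit 120), (nat_lit 180), (nat_lit 120), (nat_lit 240), (nat_lit 40), (nat_lit 160), (nat_lit 0), (nat_lit 400), (nat_lit 44), (nat_lit 88)⟩, (nat_lit 3), (nat_lit 3), (nat_lit 3), false, false, false⟩,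
  ⟨⟨(nat_lit 380), (nat_lit 400), (nat_lit 120), (nat_lit 180), (nat_lit 120), (nat_lit 180), (nat_lit 120), (nat_lit 240), (nat_lit 160), (nat_lit 270), (nat_lit 0), (nat_lit 400), (nat_lit 44), (nat_lit 88)⟩, (nat_lit 3), (nat_lit 3), (nat_lit 3), false, false, false⟩,
  ⟨⟨(nat_lit 380), (nat_lit 400), (nat_lit 180), (nat_lit 240), (nat_lit 120), (nat_lit 180), (nat_lit 120), (nat_lit 240), (nat_lit 160), (nat_lit 200), (nat_lit 0), (nat_lit 400), (nat_lit 44), (nat_lit 88)⟩, (nat_lit 3), (nat_lit 3), (nat_lit 3), false, false, false⟩,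
  ⟨⟨(nat_lit 380), (nat_lit 390), (nat_lit 180), (nat_lit 240), (nat_lit 120), (nat_lit 180), (nat_lit 120), (nat_lit 240), (nat_lit 200), (nat_lit 270), (nat_lit 0), (nat_lit 400), (nat_lit 44), (nat_lit 88)⟩, (nat_lit 3), (nat_lit 3), (nat_lit 3), false, false, false⟩,
  ⟨⟨(nat_lit 390), (nat_lit 400), (nat_lit 180), (nat_lit 240), (nat_lit 120), (nat_lit 180), (nat_lit 120), (nat_lit 240), (nat_lit 200), (nat_lit 270), (nat_lit 0), (nat_lit 400), (nat_lit 44), (nat_lit 88)⟩, (nat_lit 3), (nat_lit 3), (nat_lit 3), false, false, false⟩,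
  ⟨⟨(nat_lit 380), (nat_lit 400), (nat_lit 120), (nat_lit 180), (nat_lit 120), (nat_lit 180), (nat_lit 240), (nat_lit 330), (nat_lit 40), (nat_lit 160), (nat_lit 0), (nat_lit 390), (nat_lit 44), (nat_lit 88)⟩, (nat_lit 3), (nat_lit 3), (nat_lit 3), false, false, false⟩]
theorem t021 (h : EC env Ei) : ∀ τ ∈ l021, Dead τ :=
  List.forall_mem_cons.mpr ⟨chkT_sound0 h (T := c13_0) (by decide +kernel),
  List.forall_mem_cons.mpr ⟨chkT_sound0 h (T := c13_1) (by decide +kernel),
  List.forall_mem_cons.mpr ⟨chkT_sound0 h (T := c13_2) (by decide +kernel),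
  List.forall_mem_cons.mpr ⟨chkT_sound0 h (T := c13_3) (by decide +kernel),
  List.forall_mem_cons.mpr ⟨chkT_sound0 h (T := c13_4) (by decide +kernel),
  List.forall_mem_cons.mpr ⟨chkT_sound0 h (T := c13_5) (by decide +kernel),
  List.forall_mem_cons.mpr ⟨chkT_sound0 h (T := c13_6) (by decide +kernel),
  List.forall_mem_cons.mpr ⟨chkT_sound0 h (T := c13_7) (by decide +kernel),
  List.forall_mem_cons.mpr ⟨chkT_sound0 h (T := c13_8) (by decide +kernel),
  List.forall_mem_cons.mpr ⟨chkT_sound0 h (T := c13_9) (by decide +kernel),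
  List.forall_mem_cons.mpr ⟨chkT_sound0 h (T := c13_10) (by decide +kernel),
  List.forall_mem_cons.mpr ⟨chkT_sound0 h (T := c13_11) (by decide +kernel),
  List.forall_mem_cons.mpr ⟨chkT_sound0 h (T := c13_12) (by decide +kernel),
  List.forall_mem_cons.mpr ⟨chkT_sound0 h (T := c13_13) (by decide +kernel),
  List.forall_mem_cons.mpr ⟨chkT_sound0 h (T := c13_14) (by decide +kernel),
  List.forall_mem_cons.mpr ⟨chkT_sound0 h (T := c13_15) (by decide +kernel),
  List.forall_mem_cons.mpr ⟨chkT_sound0 h (T := c13_16) (by decide +kernel),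
  List.forall_mem_cons.mpr ⟨chkT_sound0 h (T := c13_17) (by decide +kernel),
  List.forall_mem_cons.mpr ⟨chkT_sound0 h (T := c13_18) (by decide +kernel),
  List.forall_mem_cons.mpr ⟨chkT_sound0 h (T := c13_19) (by decide +kernel),
  List.forall_mem_cons.mpr ⟨chkT_sound0 h (T := c13_20) (by decide +kernel),
  List.forall_mem_cons.mpr ⟨chkT_sound0 h (T := c13_21) (by decide +kernel),
  List.forall_mem_cons.mpr ⟨chkT_sound0 h (T := c13_22) (by decide +kernel),
  List.forall_mem_cons.mpr ⟨chkT_sound0 h (T := c13_23) (by decide +kernel),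
  List.forall_mem_cons.mpr ⟨chkT_sound0 h (T := c13_24) (by decide +kernel),
  List.forall_mem_cons.mpr ⟨chkT_sound0 h (T := c13_25) (by decide +kernel),
  List.forall_mem_cons.mpr ⟨chkT_sound0 h (T := c13_26) (by decide +kernel),
  List.forall_mem_cons.mpr ⟨chkT_sound0 h (T := c13_27) (by decide +kernel),
  List.forall_mem_cons.mpr ⟨chkT_sound0 h (T := c13_28) (by decide +kernel),
  List.forall_mem_cons.mpr ⟨chkT_sound0 h (T := c13_29) (by decide +kernel),
  List.forall_mem_cons.mpr ⟨chkT_sound0 h (T := c13_30) (by decide +kernel),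
  List.forall_mem_cons.mpr ⟨chkT_sound0 h (T := c13_31) (by decide +kernel),
  List.forall_mem_cons.mpr ⟨chkT_sound0 h (T := c13_32) (by decide +kernel),
  List.forall_mem_cons.mpr ⟨chkT_sound0 h (T := c13_33) (by decide +kernel),
  List.forall_mem_cons.mpr ⟨chkT_sound0 h (T := c13_34) (by decide +kernel),
  List.forall_mem_nil _⟩⟩⟩⟩⟩⟩⟩⟩⟩⟩⟩⟩⟩⟩⟩⟩⟩⟩⟩⟩⟩⟩⟩⟩⟩⟩⟩⟩⟩⟩⟩⟩⟩⟩⟩
end TC
end Pool.Agent.Lib.MP_6947cd_al
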