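import Pool.Agent.Lib.MP_6947cd_al.C.LeafF
import Pool.Agent.Lib.MP_6947cd_al.TC.E
import Pool.Agent.Lib.MP_6947cd_al.TC.F

/-!
Problem MP_6947cd_al (Chollet).  CASE C, tables and certificates.  Trees of leaves (part 22 of root 13).
-/

set_option autoImplicit false
set_option linter.all false
set_option maxRecDepth 100000
set_option maxHeartbeats 4000000
namespace Pool.Agent.Lib.MP_6947cd_al
namespace TC
open C1
noncomputable def c13_35 : Tr Lf :=
 (.spl (nat_lit 4) (nat_lit 120) (.trX (nat_lit 5) (nat_lit 3) (nat_lit 4) (nat_lit 100) (nat_lit 59) (nat_lit 94) (nat_lit 370) (.spl (nat_lit 4) (nat_lit 80) (.trX (nat_lit 5) (nat_lit 3) (nat_lit 4) (nat_lit 100) (nat_lit 76) (nat_lit 82) (nat_lit 340) (.leaf ⟨(nat_lit 946), (nat_lit 54), (nat_lit 0), (nat_lit 0), (nat_lit 55), (nat_lit 3700), (nat_lit 690), (nat_lit 0), (nat_lit 0), (nat_lit 0), (nat_lit 299650), [((nat_lit 400), [((nat_lit 29), (nat_lit 0), (nat_lit 525)), ((nat_lit 29), (nat_lit 1),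 (nat_lit 421))])], ⟨(nat_lit 6), false, true, true, (nat_lit 237), (nat_lit 0), (nat_lit 2237), [(nat_lit 1534237), (nat_lit 1524996), (nat_lit 1602531), (nat_lit 1599967), (nat_lit 1591251), (nat_lit 1574995), (nat_lit 1659577), (nat_lit 1649997)]⟩, ⟨(nat_lit 3), false, false, false, (nat_lit 100), (nat_lit 0), (nat_lit 2237), [(nat_lit 1177178), (nat_lit 1196337), (nat_lit 1242721), (nat_lit 1268557), (nat_lit 1236035), (nat_lit 1248179), (nat_lit 1301578), (nat_lit 1320399)]⟩, (nat_lit 4154876), (nat_lit 45828795), (nat_lit 16833196), (nat_lit 4338009), (nat_lit 3), (nat_lit 0), [], [⟨(nat_lit 0), (nat_lit 100), (nat_lit 32), (nat_lit 87), (nat_lit 581055221)⟩, ⟨(nat_lit 0), (nat_lit 100), (nat_lit 48), (nat_lit 71), (nat_lit 49643736)⟩], [], [⟨(nat_lit 1), (nat_lit 92), (nat_lit 100), (nat_lit 75), (nat_lit 2462361)⟩],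
 ⟨⟨[(nat_lit 40), (nat_lit 80), (nat_lit 100)], [(nat_lit 0), (nat_lit 2514), (nat_lit 3562)], [((nat_lit 0), (nat_lit 0), (nat_lit 0)), ((nat_lit 1000), (nat_lit 446), (nat_lit 804)), ((nat_lit 1000), (nat_lit 443), (nat_lit 819))], ((nat_lit 44), (nat_lit 100), (nat_lit 84))⟩, (nat_lit 0), (nat_lit 234), (nat_lit 234), (nat_lit 0), (nat_lit 288315), [(nat_lit 1505824809), (nat_lit 1094057939), (nat_lit 1314934000)], [(nat_lit 0), (nat_lit 0), (nat_lit 0)], [(nat_lit 24946008850), (nat_lit 26668164200), (nat_lit 26853950875), (nat_lit 28423464400), (nat_lit 24176388357), (nat_lit 25257116000), (nat_lit 25462933427), (nat_lit 26994571000)], (nat_lit 1271251), (nat_lit 1271251), (nat_lit 1271251), (nat_lit 1271251), (nat_lit 230000), (nat_lit 490000), [(nat_lit 490000), (nat_lit 1100000), (nat_lit 1442501)], [(nat_lit 3), (nat_lit 50), (nat_lit 226), (nat_lit 20), (nat_lit 7)]⟩,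
 ⟨⟨[(nat_lit 120), (nat_lit 160), (nat_lit 200)], [(nat_lit 0), (nat_lit 533), (nat_lit 3597)], [((nat_lit 0), (nat_lit 0), (nat_lit 0)), ((nat_lit 960), (nat_lit 1000), (nat_lit 200)), ((nat_lit 612), (nat_lit 1000), (nat_lit 732))], ((nat_lit 0), (nat_lit 0), (nat_lit 0))⟩, (nat_lit 173604), (nat_lit 1171), (nat_lit 1171), (nat_lit 0), (nat_lit 1675686), [(nat_lit 430272000), (nat_lit 641088000), (nat_lit 885600000)], [], [(nat_lit 2192134572), (nat_lit 2181475908), (nat_lit 2279905695), (nat_lit 2298615084), (nat_lit 2776766055), (nat_lit 1863027690), (nat_lit 2171359193), (nat_lit 1724632200)], (nat_lit 1271251), (nat_lit 1271251), (nat_lit 1271251), (nat_lit 1271251), (nat_lit 0), (nat_lit 2401251), [(nat_lit 1695001), (nat_lit 1271251), (nat_lit 1271251)], [(nat_lit 29), (nat_lit 66), (nat_lit 456), (nat_lit 225), (nat_lit 10)]⟩,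
 Rw.none⟩)) (.spl (nat_lit 0) (nat_lit 390) (.leaf ⟨(nat_lit 938), (nat_lit 55), (nat_lit 0), (nat_lit 7), (nat_lit 1692), (nat_lit 3538), (nat_lit 731), (nat_lit 84), (nat_lit 0), (nat_lit 0), (nat_lit 311300), [((nat_lit 390), [((nat_lit 29), (nat_lit 0), (nat_lit 426)), ((nat_lit 29), (nat_lit 1), (nat_lit 512))])], ⟨(nat_lit 6), false, true, true, (nat_lit 238), (nat_lit 1581), (nat_lit 2237), [(nat_lit 1534240), (nat_lit 1531319), (nat_lit 1602558), (nat_lit 1601260), (nat_lit 1591255), (nat_lit 1585955), (nat_lit 1659578), (nat_lit 1655900)]⟩, ⟨(nat_lit 3), false, false, false, (nat_lit 121), (nat_lit 1581), (nat_lit 2237), [(nat_lit 1237781), (nat_lit 1242757), (nat_lit 1305968), (nat_lit 1312566), (nat_lit 1294870), (nat_lit 1297467), (nat_lit 1363068), (nat_lit 1367287)]⟩, (nat_lit 4421514), (nat_lit 44511301), (nat_lit 16717240), (nat_lit 5771459), (nat_lit 3), (nat_lit 0), [], [], [], [],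
 ⟨⟨[(nat_lit 40), (nat_lit 80), (nat_lit 100)], [(nat_lit 0), (nat_lit 2514), (nat_lit 3562)], [((nat_lit 0), (nat_lit 0), (nat_lit 0)), ((nat_lit 1000), (nat_lit 446), (nat_lit 804)), ((nat_lit 1000), (nat_lit 443), (nat_lit 819))], ((nat_lit 44), (nat_lit 100), (nat_lit 84))⟩, (nat_lit 0), (nat_lit 173), (nat_lit 173), (nat_lit 0), (nat_lit 238111), [(nat_lit 1492560801), (nat_lit 1054980543), (nat_lit 1196634400)], [(nat_lit 0), (nat_lit 0), (nat_lit 0)], [(nat_lit 23985534622), (nat_lit 24513385807), (nat_lit 25335853942), (nat_lit 25988301498), (nat_lit 24201251766), (nat_lit 24729008953), (nat_lit 25519015248), (nat_lit 26033381123)], (nat_lit 1271251), (nat_lit 1271251), (nat_lit 1271251), (nat_lit 1271251), (nat_lit 490000), (nat_lit 780000), [(nat_lit 490000), (nat_lit 1100000), (nat_lit 1442501)], [(nat_lit 3), (nat_lit 50), (nat_lit 238), (nat_lit 30), (nat_lit 8)]⟩,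
 ⟨⟨[(nat_lit 120), (nat_lit 160), (nat_lit 200)], [(nat_lit 0), (nat_lit 533), (nat_lit 3597)], [((nat_lit 0), (nat_lit 0), (nat_lit 0)), ((nat_lit 960), (nat_lit 1000), (nat_lit 200)), ((nat_lit 612), (nat_lit 1000), (nat_lit 732))], ((nat_lit 0), (nat_lit 0), (nat_lit 0))⟩, (nat_lit 183357), (nat_lit 991), (nat_lit 991), (nat_lit 0), (nat_lit 1251101), [(nat_lit 494016000), (nat_lit 736064000), (nat_lit 1016800000)], [], [(nat_lit 2628940315), (nat_lit 2592041977), (nat_lit 2670585363), (nat_lit 2633797977), (nat_lit 3356683485), (nat_lit 2397708160), (nat_lit 2721265664), (nat_lit 2150199206)], (nat_lit 1271251), (nat_lit 1271251), (nat_lit 1271251), (nat_lit 1271251), (nat_lit 0), (nat_lit 2613125), [(nat_lit 1695001), (nat_lit 1271251), (nat_lit 1271251)], [(nat_lit 29), (nat_lit 66), (nat_lit 456), (nat_lit 225), (nat_lit 10)]⟩,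
 ⟨⟨[(nat_lit 140), (nat_lit 180), (nat_lit 200)], [(nat_lit 0), (nat_lit 0), (nat_lit 2835)], [((nat_lit 0), (nat_lit 0), (nat_lit 0)), ((nat_lit 0), (nat_lit 0), (nat_lit 0)), ((nat_lit 363), (nat_lit 1000), (nat_lit 798))], ((nat_lit 0), (nat_lit 0), (nat_lit 0))⟩, (nat_lit 1926), (nat_lit 300), (nat_lit 1315), (nat_lit 546700), (nat_lit 1720211), [(nat_lit 68894000), (nat_lit 98406000), (nat_lit 114800000)], [], [(nat_lit 540460620), (nat_lit 520928933), (nat_lit 524308050), (nat_lit 504912709), (nat_lit 428965779), (nat_lit 477002369), (nat_lit 441921487), (nat_lit 507681519)], (nat_lit 780000), (nat_lit 1271251), (nat_lit 490000), (nat_lit 780000), (nat_lit 0), (nat_lit 2613125), [(nat_lit 1977501), (nat_lit 1271251), (nat_lit 1271251)], [(nat_lit 32), (nat_lit 67), (nat_lit 413), (nat_lit 175), (nat_lit 9)]⟩⟩) (.leaf ⟨(nat_lit 949), (nat_lit 45), (nat_lit 0), (nat_lit 6), (nat_lit 0), (nat_lit 3498), (nat_lit 597), (nat_lit 75), (nat_lit 0),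 (nat_lit 0), (nat_lit 237250), [((nat_lit 400), [((nat_lit 29), (nat_lit 0), (nat_lit 949))])], ⟨(nat_lit 6), false, true, true, (nat_lit 236), (nat_lit 0), (nat_lit 1582), [(nat_lit 1531317), (nat_lit 1524997), (nat_lit 1601257), (nat_lit 1599992), (nat_lit 1585951), (nat_lit 1574995), (nat_lit 1655899), (nat_lit 1649997)]⟩, ⟨(nat_lit 3), false, false, false, (nat_lit 123), (nat_lit 0), (nat_lit 1582), [(nat_lit 1241527), (nat_lit 1248694), (nat_lit 1309501), (nat_lit 1321723), (nat_lit 1297467), (nat_lit 1299999), (nat_lit 1365448), (nat_lit 1373034)]⟩, (nat_lit 4429777), (nat_lit 44577801), (nat_lit 16515195), (nat_lit 5907004), (nat_lit 3), (nat_lit 0), [⟨(nat_lit 1), (nat_lit 96), (nat_lit 22), (nat_lit 100), (nat_lit 2609587)⟩], [⟨(nat_lit 0), (nat_lit 100), (nat_lit 23), (nat_lit 92), (nat_lit 184884146)⟩], [], [],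
 ⟨⟨[(nat_lit 40), (nat_lit 60), (nat_lit 80)], [(nat_lit 0), (nat_lit 2136), (nat_lit 3185)], [((nat_lit 0), (nat_lit 0), (nat_lit 0)), ((nat_lit 1000), (nat_lit 343), (nat_lit 808)), ((nat_lit 1000), (nat_lit 338), (nat_lit 820))], ((nat_lit 32), (nat_lit 100), (nat_lit 86))⟩, (nat_lit 0), (nat_lit 176), (nat_lit 176), (nat_lit 0), (nat_lit 285712), [(nat_lit 1575174817), (nat_lit 1338528373), (nat_lit 1545291600)], [(nat_lit 0), (nat_lit 0), (nat_lit 0)], [(nat_lit 24340180673), (nat_lit 24965678480), (nat_lit 25928987948), (nat_lit 26673566740), (nat_lit 24602480718), (nat_lit 25189222078), (nat_lit 25983720056), (nat_lit 26692396658)], (nat_lit 1271251), (nat_lit 1271251), (nat_lit 1271251), (nat_lit 1271251), (nat_lit 490000), (nat_lit 780000), [(nat_lit 490000), (nat_lit 780000), (nat_lit 1100000)], [(nat_lit 2), (nat_lit 44), (nat_lit 238), (nat_lit 30), (nat_lit 9)]⟩,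
 ⟨⟨[(nat_lit 120), (nat_lit 160), (nat_lit 200)], [(nat_lit 0), (nat_lit 533), (nat_lit 3597)], [((nat_lit 0), (nat_lit 0), (nat_lit 0)), ((nat_lit 960), (nat_lit 1000), (nat_lit 200)), ((nat_lit 612), (nat_lit 1000), (nat_lit 732))], ((nat_lit 0), (nat_lit 0), (nat_lit 0))⟩, (nat_lit 150156), (nat_lit 1166), (nat_lit 1166), (nat_lit 0), (nat_lit 1669213), [(nat_lit 406368000), (nat_lit 605472000), (nat_lit 836400000)], [], [(nat_lit 2177215746), (nat_lit 2141480808), (nat_lit 2205518546), (nat_lit 2170741998), (nat_lit 2758972716), (nat_lit 1975787669), (nat_lit 2240033675), (nat_lit 1772225511)], (nat_lit 1271251), (nat_lit 1271251), (nat_lit 1271251), (nat_lit 1271251), (nat_lit 0), (nat_lit 2613125), [(nat_lit 1695001), (nat_lit 1271251), (nat_lit 1271251)], [(nat_lit 29), (nat_lit 66), (nat_lit 456), (nat_lit 225), (nat_lit 10)]⟩,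
 ⟨⟨[(nat_lit 140), (nat_lit 180), (nat_lit 200)], [(nat_lit 0), (nat_lit 0), (nat_lit 2835)], [((nat_lit 0), (nat_lit 0), (nat_lit 0)), ((nat_lit 0), (nat_lit 0), (nat_lit 0)), ((nat_lit 363), (nat_lit 1000), (nat_lit 798))], ((nat_lit 0), (nat_lit 0), (nat_lit 0))⟩, (nat_lit 1651), (nat_lit 300), (nat_lit 1509), (nat_lit 468600), (nat_lit 2151947), [(nat_lit 59052000), (nat_lit 84348000), (nat_lit 98400000)], [], [(nat_lit 469051647), (nat_lit 439186899), (nat_lit 442280874), (nat_lit 424761005), (nat_lit 361324805), (nat_lit 413124584), (nat_lit 382003620), (nat_lit 440226683)], (nat_lit 780000), (nat_lit 1271251), (nat_lit 490000), (nat_lit 780000), (nat_lit 0), (nat_lit 2613125), [(nat_lit 1977501), (nat_lit 1271251), (nat_lit 1271251)], [(nat_lit 32), (nat_lit 67), (nat_lit 461), (nat_lit 175), (nat_lit 10)]⟩⟩)))) (.stt (nat_lit 1) (.leaf ⟨(nat_lit 1000), (nat_lit 0), (nat_lit 0), (nat_lit 0), (nat_lit 222), (nat_lit 3494), (nat_lit 0), (nat_lit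 0), (nat_lit 0), (nat_lit 0), (nat_lit 300250), [((nat_lit 400), [((nat_lit 29), (nat_lit 0), (nat_lit 665)), ((nat_lit 29), (nat_lit 1), (nat_lit 335))])], ⟨(nat_lit 6), false, true, true, (nat_lit 237), (nat_lit 0), (nat_lit 2237), [(nat_lit 1534237), (nat_lit 1524996), (nat_lit 1602531), (nat_lit 1599967), (nat_lit 1591251), (nat_lit 1574995), (nat_lit 1659577), (nat_lit 1649997)]⟩, ⟨(nat_lit 3), false, false, false, (nat_lit 144), (nat_lit 0), (nat_lit 2237), [(nat_lit 1294870), (nat_lit 1299999), (nat_lit 1360436), (nat_lit 1372242), (nat_lit 1351885), (nat_lit 1349998), (nat_lit 1419294), (nat_lit 1424084)]⟩, (nat_lit 4658746), (nat_lit 43287222), (nat_lit 16314765), (nat_lit 7398013), (nat_lit 0), (nat_lit 0), [], [], [], [],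
 ⟨⟨[(nat_lit 40), (nat_lit 80), (nat_lit 100)], [(nat_lit 0), (nat_lit 2514), (nat_lit 3562)], [((nat_lit 0), (nat_lit 0), (nat_lit 0)), ((nat_lit 1000), (nat_lit 446), (nat_lit 804)), ((nat_lit 1000), (nat_lit 443), (nat_lit 819))], ((nat_lit 44), (nat_lit 100), (nat_lit 84))⟩, (nat_lit 0), (nat_lit 93), (nat_lit 93), (nat_lit 0), (nat_lit 0), [(nat_lit 1507456024), (nat_lit 1330332476), (nat_lit 1219446000)], [(nat_lit 0), (nat_lit 0), (nat_lit 0)], [(nat_lit 24042468311), (nat_lit 25262508976), (nat_lit 25487309518), (nat_lit 26686942974), (nat_lit 24274893036), (nat_lit 25396614440), (nat_lit 25616433490), (nat_lit 26707113656)], (nat_lit 0), (nat_lit 0), (nat_lit 0), (nat_lit 0), (nat_lit 0), (nat_lit 0), [], [(nat_lit 3), (nat_lit 50), (nat_lit 249), (nat_lit 40), (nat_lit 8)]⟩,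
 Rw.none,
 Rw.none⟩) (.spl (nat_lit 5) (nat_lit 200) (.spl (nat_lit 0) (nat_lit 390) (.leaf ⟨(nat_lit 837), (nat_lit 163), (nat_lit 0), (nat_lit 0), (nat_lit 935), (nat_lit 3558), (nat_lit 1919), (nat_lit 0), (nat_lit 0), (nat_lit 0), (nat_lit 327900), [((nat_lit 390), [((nat_lit 29), (nat_lit 0), (nat_lit 46)), ((nat_lit 29), (nat_lit 1), (nat_lit 791))])], ⟨(nat_lit 6), false, true, true, (nat_lit 238), (nat_lit 1581), (nat_lit 2237), [(nat_lit 1534240), (nat_lit 1531319), (nat_lit 1602558), (nat_lit 1601260), (nat_lit 1591255), (nat_lit 1585955), (nat_lit 1659578), (nat_lit 1655900)]⟩, ⟨(nat_lit 3), false, false, false, (nat_lit 143), (nat_lit 1581), (nat_lit 2237), [(nat_lit 1294870), (nat_lit 1297467), (nat_lit 1363068), (nat_lit 1367287), (nat_lit 1351886), (nat_lit 1352103), (nat_lit 1420170), (nat_lit 1422009)]⟩, (nat_lit 4664096), (nat_lit 43194701), (nat_lit 16431897), (nat_lit 7373402), (nat_lit 3), (nat_lit 0), [], [], [], [⟨(nat_lit 0),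 (nat_lit 100), (nat_lit 94), (nat_lit 21), (nat_lit 9255652)⟩],
 ⟨⟨[(nat_lit 40), (nat_lit 80), (nat_lit 100)], [(nat_lit 0), (nat_lit 2514), (nat_lit 3562)], [((nat_lit 0), (nat_lit 0), (nat_lit 0)), ((nat_lit 1000), (nat_lit 446), (nat_lit 804)), ((nat_lit 1000), (nat_lit 443), (nat_lit 819))], ((nat_lit 44), (nat_lit 100), (nat_lit 84))⟩, (nat_lit 0), (nat_lit 175), (nat_lit 175), (nat_lit 0), (nat_lit 289287), [(nat_lit 1469850001), (nat_lit 1023039333), (nat_lit 1175278400)], [(nat_lit 0), (nat_lit 0), (nat_lit 0)], [(nat_lit 24084291136), (nat_lit 24628735143), (nat_lit 25431877726), (nat_lit 26058661648), (nat_lit 24318425900), (nat_lit 24847585735), (nat_lit 25602626071), (nat_lit 26099365023)], (nat_lit 1271251), (nat_lit 1271251), (nat_lit 1271251), (nat_lit 1271251), (nat_lit 780000), (nat_lit 1100000), [(nat_lit 490000), (nat_lit 1100000), (nat_lit 1442501)], [(nat_lit 3), (nat_lit 50), (nat_lit 249), (nat_lit 40), (nat_lit 8)]⟩,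
 ⟨⟨[(nat_lit 120), (nat_lit 160), (nat_lit 200)], [(nat_lit 0), (nat_lit 533), (nat_lit 3597)], [((nat_lit 0), (nat_lit 0), (nat_lit 0)), ((nat_lit 960), (nat_lit 1000), (nat_lit 200)), ((nat_lit 612), (nat_lit 1000), (nat_lit 732))], ((nat_lit 0), (nat_lit 0), (nat_lit 0))⟩, (nat_lit 487553), (nat_lit 682), (nat_lit 682), (nat_lit 0), (nat_lit 583048), [(nat_lit 1298784000), (nat_lit 1935136000), (nat_lit 2673200000)], [], [(nat_lit 6894865200), (nat_lit 6811169733), (nat_lit 7017288885), (nat_lit 6903017389), (nat_lit 6203295118), (nat_lit 5079772409), (nat_lit 5271729708), (nat_lit 5125577227)], (nat_lit 1271251), (nat_lit 1271251), (nat_lit 1271251), (nat_lit 1271251), (nat_lit 0), (nat_lit 1412501), [(nat_lit 1695001), (nat_lit 1271251), (nat_lit 1271251)], [(nat_lit 29), (nat_lit 66), (nat_lit 428), (nat_lit 200), (nat_lit 9)]⟩,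
 Rw.none⟩) (.leaf ⟨(nat_lit 842), (nat_lit 158), (nat_lit 0), (nat_lit 0), (nat_lit 0), (nat_lit 3799), (nat_lit 1921), (nat_lit 0), (nat_lit 0), (nat_lit 0), (nat_lit 210500), [((nat_lit 400), [((nat_lit 29), (nat_lit 0), (nat_lit 842))])], ⟨(nat_lit 6), false, true, true, (nat_lit 236), (nat_lit 0), (nat_lit 1582), [(nat_lit 1531317), (nat_lit 1524997), (nat_lit 1601257), (nat_lit 1599992), (nat_lit 1585951), (nat_lit 1574995), (nat_lit 1655899), (nat_lit 1649997)]⟩, ⟨(nat_lit 3), false, false, false, (nat_lit 144), (nat_lit 0), (nat_lit 1582), [(nat_lit 1297467), (nat_lit 1299999), (nat_lit 1365448), (nat_lit 1373034), (nat_lit 1352101), (nat_lit 1349997), (nat_lit 1421394), (nat_lit 1424345)]⟩, (nat_lit 4660376), (nat_lit 43309951), (nat_lit 16246035), (nat_lit 7444014), (nat_lit 3), (nat_lit 0), [⟨(nat_lit 1), (nat_lit 96), (nat_lit 22), (nat_lit 100), (nat_lit 469953658)⟩], [], [], [],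
 ⟨⟨[(nat_lit 40), (nat_lit 60), (nat_lit 80)], [(nat_lit 0), (nat_lit 2136), (nat_lit 3185)], [((nat_lit 0), (nat_lit 0), (nat_lit 0)), ((nat_lit 1000), (nat_lit 343), (nat_lit 808)), ((nat_lit 1000), (nat_lit 338), (nat_lit 820))], ((nat_lit 32), (nat_lit 100), (nat_lit 86))⟩, (nat_lit 0), (nat_lit 180), (nat_lit 180), (nat_lit 0), (nat_lit 346312), [(nat_lit 1600298401), (nat_lit 1440900483), (nat_lit 1899632800)], [(nat_lit 0), (nat_lit 0), (nat_lit 0)], [(nat_lit 24845296826), (nat_lit 25422335270), (nat_lit 26363291974), (nat_lit 27102786379), (nat_lit 25080054099), (nat_lit 25623646515), (nat_lit 26357386299), (nat_lit 27053677888)], (nat_lit 1271251), (nat_lit 1271251), (nat_lit 1271251), (nat_lit 1271251), (nat_lit 780000), (nat_lit 1100000), [(nat_lit 490000), (nat_lit 780000), (nat_lit 1100000)], [(nat_lit 2), (nat_lit 44), (nat_lit 249), (nat_lit 40), (nat_lit 9)]⟩,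
 ⟨⟨[(nat_lit 120), (nat_lit 160), (nat_lit 200)], [(nat_lit 0), (nat_lit 533), (nat_lit 3597)], [((nat_lit 0), (nat_lit 0), (nat_lit 0)), ((nat_lit 960), (nat_lit 1000), (nat_lit 200)), ((nat_lit 612), (nat_lit 1000), (nat_lit 732))], ((nat_lit 0), (nat_lit 0), (nat_lit 0))⟩, (nat_lit 561480), (nat_lit 752), (nat_lit 752), (nat_lit 0), (nat_lit 762794), [(nat_lit 1258944000), (nat_lit 1875776000), (nat_lit 2591200000)], [], [(nat_lit 6433187271), (nat_lit 6343569756), (nat_lit 6551429816), (nat_lit 6432654774), (nat_lit 5985407822), (nat_lit 4595355676), (nat_lit 4788957599), (nat_lit 4657149644)], (nat_lit 1271251), (nat_lit 1271251), (nat_lit 1271251), (nat_lit 1271251), (nat_lit 0), (nat_lit 1412501), [(nat_lit 1695001), (nat_lit 1271251), (nat_lit 1271251)], [(nat_lit 29), (nat_lit 66), (nat_lit 428), (nat_lit 200), (nat_lit 9)]⟩,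
 Rw.none⟩)) (.leaf ⟨(nat_lit 853), (nat_lit 96), (nat_lit 0), (nat_lit 51), (nat_lit 0), (nat_lit 3530), (nat_lit 1798), (nat_lit 601), (nat_lit 0), (nat_lit 0), (nat_lit 317350), [((nat_lit 400), [((nat_lit 29), (nat_lit 0), (nat_lit 159)), ((nat_lit 29), (nat_lit 1), (nat_lit 694))])], ⟨(nat_lit 6), false, true, true, (nat_lit 237), (nat_lit 0), (nat_lit 2237), [(nat_lit 1534237), (nat_lit 1524996), (nat_lit 1602531), (nat_lit 1599967), (nat_lit 1591251), (nat_lit 1574995), (nat_lit 1659577), (nat_lit 1649997)]⟩, ⟨(nat_lit 3), false, false, false, (nat_lit 144), (nat_lit 0), (nat_lit 2237), [(nat_lit 1294870), (nat_lit 1299999), (nat_lit 1360436), (nat_lit 1372242), (nat_lit 1351885), (nat_lit 1349998), (nat_lit 1419294), (nat_lit 1424084)]⟩, (nat_lit 4658746), (nat_lit 43287222), (nat_lit 16314765), (nat_lit 7398013), (nat_lit 5), (nat_lit 0), [⟨(nat_lit 1), (nat_lit 93), (nat_lit 31), (nat_lit 100), (nat_lit 210798172)⟩], [], [], [⟨(nat_lit 1),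 (nat_lit 60), (nat_lit 100), (nat_lit 100), (nat_lit 14550015)⟩],
 ⟨⟨[(nat_lit 40), (nat_lit 80), (nat_lit 100)], [(nat_lit 0), (nat_lit 2514), (nat_lit 3562)], [((nat_lit 0), (nat_lit 0), (nat_lit 0)), ((nat_lit 1000), (nat_lit 446), (nat_lit 804)), ((nat_lit 1000), (nat_lit 443), (nat_lit 819))], ((nat_lit 44), (nat_lit 100), (nat_lit 84))⟩, (nat_lit 0), (nat_lit 211), (nat_lit 211), (nat_lit 0), (nat_lit 349881), [(nat_lit 1482234026), (nat_lit 1062449858), (nat_lit 1268023600)], [(nat_lit 0), (nat_lit 0), (nat_lit 0)], [(nat_lit 24286164554), (nat_lit 25347523592), (nat_lit 25582962162), (nat_lit 26736026130), (nat_lit 24503098194), (nat_lit 25543670532), (nat_lit 25770890567), (nat_lit 26748410952)], (nat_lit 1271251), (nat_lit 1271251), (nat_lit 1271251), (nat_lit 1271251), (nat_lit 780000), (nat_lit 1100000), [(nat_lit 490000), (nat_lit 1100000), (nat_lit 1442501)], [(nat_lit 3), (nat_lit 50), (nat_lit 249), (nat_lit 40), (nat_lit 8)]⟩,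
 ⟨⟨[(nat_lit 120), (nat_lit 160), (nat_lit 200)], [(nat_lit 0), (nat_lit 533), (nat_lit 3597)], [((nat_lit 0), (nat_lit 0), (nat_lit 0)), ((nat_lit 960), (nat_lit 1000), (nat_lit 200)), ((nat_lit 612), (nat_lit 1000), (nat_lit 732))], ((nat_lit 0), (nat_lit 0), (nat_lit 0))⟩, (nat_lit 420782), (nat_lit 627), (nat_lit 627), (nat_lit 0), (nat_lit 765908), [(nat_lit 1171296000), (nat_lit 1745184000), (nat_lit 2410800000)], [], [(nat_lit 4524712090), (nat_lit 4404990746), (nat_lit 4586443339), (nat_lit 4443668055), (nat_lit 5356115240), (nat_lit 5213263568), (nat_lit 5451954561), (nat_lit 5281343992)], (nat_lit 1271251), (nat_lit 1271251), (nat_lit 1271251), (nat_lit 1271251), (nat_lit 1271251), (nat_lit 1271251), [(nat_lit 1695001), (nat_lit 1271251), (nat_lit 1271251)], [(nat_lit 29), (nat_lit 66), (nat_lit 483), (nat_lit 250), (nat_lit 10)]⟩,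
 ⟨⟨[(nat_lit 140), (nat_lit 180), (nat_lit 200)], [(nat_lit 0), (nat_lit 0), (nat_lit 2835)], [((nat_lit 0), (nat_lit 0), (nat_lit 0)), ((nat_lit 0), (nat_lit 0), (nat_lit 0)), ((nat_lit 363), (nat_lit 1000), (nat_lit 798))], ((nat_lit 0), (nat_lit 0), (nat_lit 0))⟩, (nat_lit 14032), (nat_lit 300), (nat_lit 1360), (nat_lit 3983100), (nat_lit 2151947), [(nat_lit 501942000), (nat_lit 716958000), (nat_lit 836400000)], [], [(nat_lit 3206214129), (nat_lit 3069848287), (nat_lit 3099338534), (nat_lit 2963693973), (nat_lit 3044824888), (nat_lit 2907998929), (nat_lit 2930391609), (nat_lit 2794488502)], (nat_lit 780000), (nat_lit 1271251), (nat_lit 780000), (nat_lit 1100000), (nat_lit 1271251), (nat_lit 1271251), [(nat_lit 1977501), (nat_lit 1271251), (nat_lit 1271251)], [(nat_lit 32), (nat_lit 67), (nat_lit 432), (nat_lit 200), (nat_lit 9)]⟩⟩))))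
noncomputable def c13_36 : Tr Lf :=
 (.stt (nat_lit 2) (.spl (nat_lit 2) (nat_lit 160) (.leaf ⟨(nat_lit 534), (nat_lit 436), (nat_lit 0), (nat_lit 30), (nat_lit 4449), (nat_lit 3895), (nat_lit 5443), (nat_lit 334), (nat_lit 0), (nat_lit 0), (nat_lit 320400), [((nat_lit 390), [((nat_lit 43), (nat_lit 2), (nat_lit 534))])], ⟨(nat_lit 7), true, false, true, (nat_lit 263), (nat_lit 1581), (nat_lit 2237), [(nat_lit 1591255), (nat_lit 1585955), (nat_lit 1659578), (nat_lit 1655900), (nat_lit 1662524), (nat_lit 1654249), (nat_lit 1730848), (nat_lit 1724195)]⟩, ⟨(nat_lit 3), false, false, false, (nat_lit 116), (nat_lit 1581), (nat_lit 2237), [(nat_lit 1180680), (nat_lit 1188036), (nat_lit 1226138), (nat_lit 1234575), (nat_lit 1351886), (nat_lit 1352103), (nat_lit 1397434), (nat_lit 1398733)]⟩, (nat_lit 4509455), (nat_lit 42501705), (nat_lit 19196723), (nat_lit 5301572), (nat_lit 3), (nat_lit 0), [⟨(nat_lit 1), (nat_lit 91), (nat_lit 38), (nat_lit 100), (nat_lit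 328009206)⟩], [], [], [⟨(nat_lit 1), (nat_lit 100), (nat_lit 97), (nat_lit 98), (nat_lit 2478155)⟩],
 ⟨⟨[(nat_lit 40), (nat_lit 80), (nat_lit 100)], [(nat_lit 0), (nat_lit 2514), (nat_lit 3562)], [((nat_lit 0), (nat_lit 0), (nat_lit 0)), ((nat_lit 1000), (nat_lit 446), (nat_lit 804)), ((nat_lit 1000), (nat_lit 443), (nat_lit 819))], ((nat_lit 44), (nat_lit 100), (nat_lit 84))⟩, (nat_lit 40963), (nat_lit 237), (nat_lit 237), (nat_lit 0), (nat_lit 288089), [(nat_lit 1581196002), (nat_lit 1451960013), (nat_lit 1758205600)], [(nat_lit 0), (nat_lit 0), (nat_lit 0)], [(nat_lit 27224684632), (nat_lit 28030768861), (nat_lit 29775760814), (nat_lit 30482829430), (nat_lit 25863753969), (nat_lit 26451602057), (nat_lit 28039471430), (nat_lit 28667859308)], (nat_lit 1271251), (nat_lit 1271251), (nat_lit 1271251), (nat_lit 1271251), (nat_lit 230000), (nat_lit 1100000), [(nat_lit 490000), (nat_lit 1100000), (nat_lit 1442501)], [(nat_lit 3), (nat_lit 50), (nat_lit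 249), (nat_lit 40), (nat_lit 8)]⟩,
 ⟨⟨[(nat_lit 120), (nat_lit 160), (nat_lit 200)], [(nat_lit 0), (nat_lit 533), (nat_lit 3597)], [((nat_lit 0), (nat_lit 0), (nat_lit 0)), ((nat_lit 960), (nat_lit 1000), (nat_lit 200)), ((nat_lit 612), (nat_lit 1000), (nat_lit 732))], ((nat_lit 0), (nat_lit 0), (nat_lit 0))⟩, (nat_lit 1374605), (nat_lit 401), (nat_lit 401), (nat_lit 0), (nat_lit 0), [(nat_lit 3713088000), (nat_lit 5532352000), (nat_lit 7642400000)], [], [(nat_lit 19551563087), (nat_lit 19756064673), (nat_lit 21112874103), (nat_lit 21090377278), (nat_lit 16610534514), (nat_lit 16187109122), (nat_lit 17222454580), (nat_lit 16950615818)], (nat_lit 0), (nat_lit 0), (nat_lit 0), (nat_lit 0), (nat_lit 0), (nat_lit 0), [], [(nat_lit 29), (nat_lit 66), (nat_lit 483), (nat_lit 250), (nat_lit 10)]⟩,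
 ⟨⟨[(nat_lit 140), (nat_lit 180), (nat_lit 200)], [(nat_lit 0), (nat_lit 0), (nat_lit 2835)], [((nat_lit 0), (nat_lit 0), (nat_lit 0)), ((nat_lit 0), (nat_lit 0), (nat_lit 0)), ((nat_lit 363), (nat_lit 1000), (nat_lit 798))], ((nat_lit 0), (nat_lit 0), (nat_lit 0))⟩, (nat_lit 8254), (nat_lit 300), (nat_lit 2120), (nat_lit 2343000), (nat_lit 3383009), [(nat_lit 295260000), (nat_lit 421740000), (nat_lit 492000000)], [], [(nat_lit 2491550640), (nat_lit 2433582784), (nat_lit 2275509792), (nat_lit 2227914566), (nat_lit 2026594383), (nat_lit 1971272289), (nat_lit 2028491440), (nat_lit 2196721081)], (nat_lit 780000), (nat_lit 1100000), (nat_lit 230000), (nat_lit 1100000), (nat_lit 0), (nat_lit 2613125), [(nat_lit 1977501), (nat_lit 1271251), (nat_lit 1271251)], [(nat_lit 32), (nat_lit 67), (nat_lit 617), (nat_lit 175), (nat_lit 13)]⟩⟩) (.trZ (nat_lit 0) (nat_lit 2) (nat_lit 4) (nat_lit 100) (nat_lit 44) (nat_lit 81) (nat_lit 70) (.leaf ⟨(nat_lit 441), (nat_lit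 481), (nat_lit 0), (nat_lit 78), (nat_lit 5895), (nat_lit 3767), (nat_lit 5031), (nat_lit 759), (nat_lit 0), (nat_lit 0), (nat_lit 264600), [((nat_lit 390), [((nat_lit 43), (nat_lit 2), (nat_lit 441))])], ⟨(nat_lit 7), true, false, true, (nat_lit 263), (nat_lit 1581), (nat_lit 2237), [(nat_lit 1591255), (nat_lit 1585955), (nat_lit 1659578), (nat_lit 1655900), (nat_lit 1662524), (nat_lit 1654249), (nat_lit 1730848), (nat_lit 1724195)]⟩, ⟨(nat_lit 4), false, false, false, (nat_lit 139), (nat_lit 1581), (nat_lit 2237), [(nat_lit 1268963), (nat_lit 1275616), (nat_lit 1291693), (nat_lit 1298886), (nat_lit 1397434), (nat_lit 1398733), (nat_lit 1420170), (nat_lit 1422009)]⟩, (nat_lit 4746695), (nat_lit 41329203), (nat_lit 18852774), (nat_lit 6818023), (nat_lit 4), (nat_lit 0), [⟨(nat_lit 1), (nat_lit 91), (nat_lit 38), (nat_lit 100), (nat_lit 326193149)⟩], [], [], [],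
 ⟨⟨[(nat_lit 40), (nat_lit 80), (nat_lit 100)], [(nat_lit 0), (nat_lit 2514), (nat_lit 3562)], [((nat_lit 0), (nat_lit 0), (nat_lit 0)), ((nat_lit 1000), (nat_lit 446), (nat_lit 804)), ((nat_lit 1000), (nat_lit 443), (nat_lit 819))], ((nat_lit 44), (nat_lit 100), (nat_lit 84))⟩, (nat_lit 265675), (nat_lit 183), (nat_lit 183), (nat_lit 0), (nat_lit 211963), [(nat_lit 1618954005), (nat_lit 2023585058), (nat_lit 2540484400)], [(nat_lit 0), (nat_lit 0), (nat_lit 0)], [(nat_lit 26003573435), (nat_lit 26689257642), (nat_lit 28404209357), (nat_lit 29088451272), (nat_lit 25940883929), (nat_lit 26455916552), (nat_lit 27890756982), (nat_lit 28509348292)], (nat_lit 1271251), (nat_lit 1271251), (nat_lit 1271251), (nat_lit 1271251), (nat_lit 422188), (nat_lit 1100000), [(nat_lit 490000), (nat_lit 1100000), (nat_lit 1442501)], [(nat_lit 3), (nat_lit 50), (nat_lit 249), (nat_lit 40), (nat_lit 8)]⟩,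
 ⟨⟨[(nat_lit 120), (nat_lit 160), (nat_lit 200)], [(nat_lit 0), (nat_lit 533), (nat_lit 3597)], [((nat_lit 0), (nat_lit 0), (nat_lit 0)), ((nat_lit 960), (nat_lit 1000), (nat_lit 200)), ((nat_lit 612), (nat_lit 1000), (nat_lit 732))], ((nat_lit 0), (nat_lit 0), (nat_lit 0))⟩, (nat_lit 1639411), (nat_lit 401), (nat_lit 401), (nat_lit 0), (nat_lit 0), [(nat_lit 4454112000), (nat_lit 6636448000), (nat_lit 9167600000)], [], [(nat_lit 21825187718), (nat_lit 22196605485), (nat_lit 23450734773), (nat_lit 23604220311), (nat_lit 20079330971), (nat_lit 20130156505), (nat_lit 21082943871), (nat_lit 20984273358)], (nat_lit 0), (nat_lit 0), (nat_lit 0), (nat_lit 0), (nat_lit 0), (nat_lit 0), [], [(nat_lit 29), (nat_lit 66), (nat_lit 483), (nat_lit 250), (nat_lit 10)]⟩,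
 ⟨⟨[(nat_lit 120), (nat_lit 160), (nat_lit 200)], [(nat_lit 0), (nat_lit 0), (nat_lit 3198)], [((nat_lit 0), (nat_lit 0), (nat_lit 0)), ((nat_lit 0), (nat_lit 0), (nat_lit 0)), ((nat_lit 572), (nat_lit 1000), (nat_lit 714))], ((nat_lit 0), (nat_lit 0), (nat_lit 0))⟩, (nat_lit 38049), (nat_lit 300), (nat_lit 1141), (nat_lit 5787600), (nat_lit 1383547), [(nat_lit 621504000), (nat_lit 926016000), (nat_lit 1279200000)], [], [(nat_lit 6283964556), (nat_lit 6237445879), (nat_lit 5959877232), (nat_lit 5913778938), (nat_lit 5277034437), (nat_lit 5228868448), (nat_lit 4966770782), (nat_lit 4921826008)], (nat_lit 1100000), (nat_lit 1271251), (nat_lit 422188), (nat_lit 1100000), (nat_lit 0), (nat_lit 2613125), [(nat_lit 1695001), (nat_lit 1271251), (nat_lit 1271251)], [(nat_lit 29), (nat_lit 66), (nat_lit 428), (nat_lit 200), (nat_lit 9)]⟩⟩))) (.spl (nat_lit 1) (nat_lit 220) (.trX (nat_lit 3) (nat_lit 0) (nat_lit 1) (nat_lit 44) (nat_lit 86) (nat_lit 100) (nat_lit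 310) (.spl (nat_lit 2) (nat_lit 160) (.leaf ⟨(nat_lit 947), (nat_lit 49), (nat_lit 0), (nat_lit 4), (nat_lit 3453), (nat_lit 3138), (nat_lit 610), (nat_lit 48), (nat_lit 0), (nat_lit 0), (nat_lit 338000), [((nat_lit 390), [((nat_lit 29), (nat_lit 0), (nat_lit 272)), ((nat_lit 29), (nat_lit 1), (nat_lit 675))])], ⟨(nat_lit 7), false, true, true, (nat_lit 253), (nat_lit 1581), (nat_lit 2237), [(nat_lit 1591255), (nat_lit 1585955), (nat_lit 1636804), (nat_lit 1632585), (nat_lit 1634017), (nat_lit 1626932), (nat_lit 1679566), (nat_lit 1673562)]⟩, ⟨(nat_lit 3), false, false, false, (nat_lit 116), (nat_lit 1581), (nat_lit 2237), [(nat_lit 1180680), (nat_lit 1188036), (nat_lit 1226138), (nat_lit 1234575), (nat_lit 1351886), (nat_lit 1352103), (nat_lit 1397434), (nat_lit 1398733)]⟩, (nat_lit 4457118), (nat_lit 43419114), (nat_lit 18214910), (nat_lit 5365976), (nat_lit 3), (nat_lit 0), [⟨(nat_lit 1), (nat_lit 86), (nat_lit 44), (nat_lit 100), (nat_lit 357160509)⟩],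 [⟨(nat_lit 0), (nat_lit 100), (nat_lit 40), (nat_lit 81), (nat_lit 14031423)⟩], [], [⟨(nat_lit 1), (nat_lit 97), (nat_lit 100), (nat_lit 98), (nat_lit 157186)⟩],
 ⟨⟨[(nat_lit 40), (nat_lit 80), (nat_lit 100)], [(nat_lit 0), (nat_lit 2514), (nat_lit 3562)], [((nat_lit 0), (nat_lit 0), (nat_lit 0)), ((nat_lit 1000), (nat_lit 446), (nat_lit 804)), ((nat_lit 1000), (nat_lit 443), (nat_lit 819))], ((nat_lit 44), (nat_lit 100), (nat_lit 84))⟩, (nat_lit 0), (nat_lit 201), (nat_lit 201), (nat_lit 0), (nat_lit 176128), [(nat_lit 1463324446), (nat_lit 795779495), (nat_lit 880600800)], [(nat_lit 0), (nat_lit 0), (nat_lit 0)], [(nat_lit 26094940704), (nat_lit 26621496339), (nat_lit 27142985143), (nat_lit 27814193757), (nat_lit 26056166051), (nat_lit 26522355962), (nat_lit 27034475574), (nat_lit 27515108946)], (nat_lit 1271251), (nat_lit 1271251), (nat_lit 1271251), (nat_lit 1271251), (nat_lit 230000), (nat_lit 1100000), [(nat_lit 490000), (nat_lit 1100000), (nat_lit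 1442501)], [(nat_lit 3), (nat_lit 50), (nat_lit 249), (nat_lit 40), (nat_lit 8)]⟩,
 ⟨⟨[(nat_lit 120), (nat_lit 160), (nat_lit 200)], [(nat_lit 0), (nat_lit 533), (nat_lit 3597)], [((nat_lit 0), (nat_lit 0), (nat_lit 0)), ((nat_lit 960), (nat_lit 1000), (nat_lit 200)), ((nat_lit 612), (nat_lit 1000), (nat_lit 732))], ((nat_lit 0), (nat_lit 0), (nat_lit 0))⟩, (nat_lit 152245), (nat_lit 952), (nat_lit 952), (nat_lit 0), (nat_lit 1228414), [(nat_lit 422304000), (nat_lit 629216000), (nat_lit 869200000)], [], [(nat_lit 2316642013), (nat_lit 2293296348), (nat_lit 2347686818), (nat_lit 2331217202), (nat_lit 2331681700), (nat_lit 1873582974), (nat_lit 1936408399), (nat_lit 1900244416)], (nat_lit 1271251), (nat_lit 1271251), (nat_lit 1271251), (nat_lit 1271251), (nat_lit 0), (nat_lit 2613125), [(nat_lit 1695001), (nat_lit 1271251), (nat_lit 1271251)], [(nat_lit 29), (nat_lit 66), (nat_lit 456), (nat_lit 225), (nat_lit 9)]⟩,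
 ⟨⟨[(nat_lit 140), (nat_lit 180), (nat_lit 200)], [(nat_lit 0), (nat_lit 0), (nat_lit 2835)], [((nat_lit 0), (nat_lit 0), (nat_lit 0)), ((nat_lit 0), (nat_lit 0), (nat_lit 0)), ((nat_lit 363), (nat_lit 1000), (nat_lit 798))], ((nat_lit 0), (nat_lit 0), (nat_lit 0))⟩, (nat_lit 1101), (nat_lit 300), (nat_lit 1547), (nat_lit 312400), (nat_lit 2175972), [(nat_lit 39368000), (nat_lit 56232000), (nat_lit 65600000)], [], [(nat_lit 342990695), (nat_lit 315916344), (nat_lit 290374560), (nat_lit 282232960), (nat_lit 260662407), (nat_lit 252342826), (nat_lit 275466192), (nat_lit 299244344)], (nat_lit 780000), (nat_lit 1100000), (nat_lit 230000), (nat_lit 1100000), (nat_lit 0), (nat_lit 2613125), [(nat_lit 1977501), (nat_lit 1271251), (nat_lit 1271251)], [(nat_lit 32), (nat_lit 67), (nat_lit 473), (nat_lit 175), (nat_lit 11)]⟩⟩) (.trZ (nat_lit 0) (nat_lit 2) (nat_lit 4) (nat_lit 100) (nat_lit 44) (nat_lit 81) (nat_lit 70) (.spl (nat_lit 6) (nat_lit 80) (.leaf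 ⟨(nat_lit 944), (nat_lit 51), (nat_lit 0), (nat_lit 5), (nat_lit 3961), (nat_lit 3059), (nat_lit 645), (nat_lit 61), (nat_lit 0), (nat_lit 0), (nat_lit 361250), [((nat_lit 390), [((nat_lit 28), (nat_lit 0), (nat_lit 109)), ((nat_lit 28), (nat_lit 1), (nat_lit 835))])], ⟨(nat_lit 7), false, true, true, (nat_lit 253), (nat_lit 1581), (nat_lit 2237), [(nat_lit 1591255), (nat_lit 1585955), (nat_lit 1636804), (nat_lit 1632585), (nat_lit 1634017), (nat_lit 1626932), (nat_lit 1679566), (nat_lit 1673562)]⟩, ⟨(nat_lit 4), false, false, false, (nat_lit 139), (nat_lit 1581), (nat_lit 2237), [(nat_lit 1268963), (nat_lit 1275616), (nat_lit 1291693), (nat_lit 1298886), (nat_lit 1397434), (nat_lit 1398733), (nat_lit 1420170), (nat_lit 1422009)]⟩, (nat_lit 4697905), (nat_lit 42197484), (nat_lit 17898409), (nat_lit 6904107), (nat_lit 4), (nat_lit 0), [⟨(nat_lit 1), (nat_lit 86), (nat_lit 44), (nat_lit 100), (nat_lit 353071985)⟩], [⟨(nat_lit 0), (nat_lit 100), (nat_lit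 38), (nat_lit 87), (nat_lit 5191082)⟩], [], [],
 ⟨⟨[(nat_lit 40), (nat_lit 80), (nat_lit 100)], [(nat_lit 0), (nat_lit 2514), (nat_lit 3562)], [((nat_lit 0), (nat_lit 0), (nat_lit 0)), ((nat_lit 1000), (nat_lit 446), (nat_lit 804)), ((nat_lit 1000), (nat_lit 443), (nat_lit 819))], ((nat_lit 44), (nat_lit 100), (nat_lit 82))⟩, (nat_lit 0), (nat_lit 155), (nat_lit 155), (nat_lit 0), (nat_lit 129772), [(nat_lit 1436068804), (nat_lit 913593557), (nat_lit 267377643)], [(nat_lit 0), (nat_lit 0), (nat_lit 0)], [(nat_lit 25132134228), (nat_lit 25641970763), (nat_lit 26176675430), (nat_lit 26830403949), (nat_lit 25531622626), (nat_lit 26012668946), (nat_lit 26537357173), (nat_lit 27041647899)], (nat_lit 1271251), (nat_lit 1271251), (nat_lit 1271251), (nat_lit 1271251), (nat_lit 422188), (nat_lit 1100000), [(nat_lit 490000), (nat_lit 1100000), (nat_lit 1442501)], [(nat_lit 3), (nat_lit 50), (nat_lit 249), (nat_lit 40), (nat_lit 8)]⟩,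
 ⟨⟨[(nat_lit 120), (nat_lit 160), (nat_lit 200)], [(nat_lit 0), (nat_lit 533), (nat_lit 3597)], [((nat_lit 0), (nat_lit 0), (nat_lit 0)), ((nat_lit 960), (nat_lit 1000), (nat_lit 200)), ((nat_lit 612), (nat_lit 1000), (nat_lit 732))], ((nat_lit 0), (nat_lit 0), (nat_lit 0))⟩, (nat_lit 168516), (nat_lit 821), (nat_lit 821), (nat_lit 0), (nat_lit 890943), [(nat_lit 446208000), (nat_lit 664832000), (nat_lit 918400000)], [], [(nat_lit 2434694251), (nat_lit 2409979021), (nat_lit 2466313975), (nat_lit 2436442996), (nat_lit 2463491365), (nat_lit 1952032048), (nat_lit 2042994277), (nat_lit 2003451664)], (nat_lit 1271251), (nat_lit 1271251), (nat_lit 1271251), (nat_lit 1271251), (nat_lit 0), (nat_lit 2613125), [(nat_lit 1695001), (nat_lit 1271251), (nat_lit 1271251)], [(nat_lit 29), (nat_lit 66), (nat_lit 456), (nat_lit 225), (nat_lit 9)]⟩,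
 ⟨⟨[(nat_lit 120), (nat_lit 160), (nat_lit 200)], [(nat_lit 0), (nat_lit 0), (nat_lit 3198)], [((nat_lit 0), (nat_lit 0), (nat_lit 0)), ((nat_lit 0), (nat_lit 0), (nat_lit 0)), ((nat_lit 572), (nat_lit 1000), (nat_lit 714))], ((nat_lit 0), (nat_lit 0), (nat_lit 0))⟩, (nat_lit 2439), (nat_lit 300), (nat_lit 922), (nat_lit 371001), (nat_lit 884979), [(nat_lit 39840000), (nat_lit 59360000), (nat_lit 82000000)], [], [(nat_lit 362613673), (nat_lit 359492651), (nat_lit 334368576), (nat_lit 330740252), (nat_lit 287111976), (nat_lit 283568470), (nat_lit 317427809), (nat_lit 335277782)], (nat_lit 1100000), (nat_lit 1271251), (nat_lit 422188), (nat_lit 1100000), (nat_lit 0), (nat_lit 2613125), [(nat_lit 1695001), (nat_lit 1271251), (nat_lit 1271251)], [(nat_lit 29), (nat_lit 66), (nat_lit 428), (nat_lit 200), (nat_lit 9)]⟩⟩) (.dle (nat_lit 0)))))) (.spl (nat_lit 5) (nat_lit 200) (.spl (nat_lit 0) (nat_lit 385) (.leaf ⟨(nat_lit 772), (nat_lit 228), (nat_lit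 0), (nat_lit 0), (nat_lit 0), (nat_lit 3325), (nat_lit 2243), (nat_lit 0), (nat_lit 0), (nat_lit 0), (nat_lit 321200), [((nat_lit 385), [((nat_lit 29), (nat_lit 1), (nat_lit 710)), ((nat_lit 43), (nat_lit 2), (nat_lit 62))])], ⟨(nat_lit 7), false, true, true, (nat_lit 273), (nat_lit 1936), (nat_lit 2237), [(nat_lit 1636804), (nat_lit 1634788), (nat_lit 1659578), (nat_lit 1657798), (nat_lit 1708073), (nat_lit 1704649), (nat_lit 1730848), (nat_lit 1727660)]⟩, ⟨(nat_lit 3), false, false, false, (nat_lit 121), (nat_lit 1936), (nat_lit 2237), [(nat_lit 1180811), (nat_lit 1184371), (nat_lit 1249108), (nat_lit 1253377), (nat_lit 1351886), (nat_lit 1352066), (nat_lit 1420202), (nat_lit 1421092)]⟩, (nat_lit 4599378), (nat_lit 41421646), (nat_lit 20068091), (nat_lit 5510263), (nat_lit 3), (nat_lit 0), [⟨(nat_lit 1), (nat_lit 85), (nat_lit 41), (nat_lit 100), (nat_lit 192970412)⟩], [], [], [⟨(nat_lit 0), (nat_lit 100), (nat_lit 98), (nat_lit 3), (nat_lit 8253141)⟩],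
 ⟨⟨[(nat_lit 40), (nat_lit 80), (nat_lit 100)], [(nat_lit 0), (nat_lit 2514), (nat_lit 3562)], [((nat_lit 0), (nat_lit 0), (nat_lit 0)), ((nat_lit 1000), (nat_lit 446), (nat_lit 804)), ((nat_lit 1000), (nat_lit 443), (nat_lit 819))], ((nat_lit 44), (nat_lit 100), (nat_lit 84))⟩, (nat_lit 760), (nat_lit 201), (nat_lit 201), (nat_lit 0), (nat_lit 171188), [(nat_lit 1487976001), (nat_lit 1124096011), (nat_lit 1357720800)], [(nat_lit 0), (nat_lit 0), (nat_lit 0)], [(nat_lit 26459339177), (nat_lit 26704870784), (nat_lit 28550458283), (nat_lit 28878282430), (nat_lit 26261900840), (nat_lit 26479414648), (nat_lit 27889886876), (nat_lit 28105227997)], (nat_lit 1271251), (nat_lit 1271251), (nat_lit 1271251), (nat_lit 1271251), (nat_lit 230000), (nat_lit 1100000), [(nat_lit 490000), (nat_lit 1100000), (nat_lit 1442501)], [(nat_lit 3), (nat_lit 50), (nat_lit 249), (nat_lit 40), (nat_lit 8)]⟩,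
 ⟨⟨[(nat_lit 100), (nat_lit 140), (nat_lit 180)], [(nat_lit 0), (nat_lit 508), (nat_lit 2854)], [((nat_lit 0), (nat_lit 0), (nat_lit 0)), ((nat_lit 1000), (nat_lit 1000), (nat_lit 198)), ((nat_lit 777), (nat_lit 1000), (nat_lit 712))], ((nat_lit 100), (nat_lit 64), (nat_lit 83))⟩, (nat_lit 774460), (nat_lit 658), (nat_lit 658), (nat_lit 0), (nat_lit 759154), [(nat_lit 1425000000), (nat_lit 2243976000), (nat_lit 3205224000)], [], [(nat_lit 8468844139), (nat_lit 8442116594), (nat_lit 8665130939), (nat_lit 8629657500), (nat_lit 6720198367), (nat_lit 6678065967), (nat_lit 6841393531), (nat_lit 6787591840)], (nat_lit 1271251), (nat_lit 1271251), (nat_lit 1271251), (nat_lit 1271251), (nat_lit 0), (nat_lit 1412501), [(nat_lit 1412501), (nat_lit 1271251), (nat_lit 1271251)], [(nat_lit 24), (nat_lit 63), (nat_lit 428), (nat_lit 200), (nat_lit 10)]⟩,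
 Rw.none⟩) (.trX (nat_lit 3) (nat_lit 0) (nat_lit 1) (nat_lit 39) (nat_lit 85) (nat_lit 100) (nat_lit 320) (.trZ (nat_lit 0) (nat_lit 2) (nat_lit 4) (nat_lit 100) (nat_lit 41) (nat_lit 76) (nat_lit 50) (.leaf ⟨(nat_lit 843), (nat_lit 157), (nat_lit 0), (nat_lit 0), (nat_lit 0), (nat_lit 3431), (nat_lit 1564), (nat_lit 0), (nat_lit 0), (nat_lit 0), (nat_lit 210750), [((nat_lit 390), [((nat_lit 29), (nat_lit 0), (nat_lit 843))])], ⟨(nat_lit 7), false, true, true, (nat_lit 269), (nat_lit 1581), (nat_lit 1937), [(nat_lit 1634788), (nat_lit 1632585), (nat_lit 1657798), (nat_lit 1655900), (nat_lit 1690677), (nat_lit 1687221), (nat_lit 1713688), (nat_lit 1710536)]⟩, ⟨(nat_lit 3), false, false, false, (nat_lit 124), (nat_lit 1581), (nat_lit 1937), [(nat_lit 1198326), (nat_lit 1201810), (nat_lit 1267315), (nat_lit 1271711), (nat_lit 1352066), (nat_lit 1352103), (nat_lit 1421086), (nat_lit 1422035)]⟩, (nat_lit 4622904), (nat_lit 41573500), (nat_lit 19643470),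 (nat_lit 5783030), (nat_lit 3), (nat_lit 0), [⟨(nat_lit 1), (nat_lit 88), (nat_lit 35), (nat_lit 100), (nat_lit 319372483)⟩], [], [], [⟨(nat_lit 0), (nat_lit 100), (nat_lit 98), (nat_lit 3), (nat_lit 6497542)⟩],
 ⟨⟨[(nat_lit 40), (nat_lit 60), (nat_lit 80)], [(nat_lit 0), (nat_lit 1803), (nat_lit 2780)], [((nat_lit 0), (nat_lit 0), (nat_lit 0)), ((nat_lit 1000), (nat_lit 417), (nat_lit 754)), ((nat_lit 1000), (nat_lit 413), (nat_lit 764))], ((nat_lit 39), (nat_lit 100), (nat_lit 85))⟩, (nat_lit 0), (nat_lit 171), (nat_lit 171), (nat_lit 0), (nat_lit 191312), [(nat_lit 1600063618), (nat_lit 1425931902), (nat_lit 1896321200)], [(nat_lit 0), (nat_lit 0), (nat_lit 0)], [(nat_lit 26482360620), (nat_lit 26780807593), (nat_lit 28223986703), (nat_lit 28563683600), (nat_lit 26440316377), (nat_lit 26696381984), (nat_lit 27772559077), (nat_lit 28008241655)], (nat_lit 1271251), (nat_lit 1271251), (nat_lit 1271251), (nat_lit 1271251), (nat_lit 292188), (nat_lit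 1100000), [(nat_lit 490000), (nat_lit 780000), (nat_lit 1100000)], [(nat_lit 2), (nat_lit 44), (nat_lit 249), (nat_lit 40), (nat_lit 9)]⟩,
 ⟨⟨[(nat_lit 100), (nat_lit 140), (nat_lit 180)], [(nat_lit 0), (nat_lit 508), (nat_lit 2854)], [((nat_lit 0), (nat_lit 0), (nat_lit 0)), ((nat_lit 1000), (nat_lit 1000), (nat_lit 198)), ((nat_lit 777), (nat_lit 1000), (nat_lit 712))], ((nat_lit 100), (nat_lit 64), (nat_lit 83))⟩, (nat_lit 529304), (nat_lit 738), (nat_lit 738), (nat_lit 0), (nat_lit 890337), [(nat_lit 981250000), (nat_lit 1545194000), (nat_lit 2207106000)], [], [(nat_lit 5777915408), (nat_lit 5758583534), (nat_lit 5869087150), (nat_lit 5841886672), (nat_lit 4553093101), (nat_lit 4523070278), (nat_lit 4604422748), (nat_lit 4568069144)], (nat_lit 1271251), (nat_lit 1271251), (nat_lit 1271251), (nat_lit 1271251), (nat_lit 0), (nat_lit 1412501), [(nat_lit 1412501), (nat_lit 1271251), (nat_lit 1271251)], [(nat_lit 24), (nat_lit 63), (nat_lit 428), (nat_lit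 200), (nat_lit 10)]⟩,
 Rw.none⟩)))) (.leaf ⟨(nat_lit 830), (nat_lit 125), (nat_lit 0), (nat_lit 45), (nat_lit 0), (nat_lit 3091), (nat_lit 1702), (nat_lit 585), (nat_lit 0), (nat_lit 0), (nat_lit 347000), [((nat_lit 390), [((nat_lit 29), (nat_lit 1), (nat_lit 755)), ((nat_lit 43), (nat_lit 2), (nat_lit 75))])], ⟨(nat_lit 7), false, true, true, (nat_lit 272), (nat_lit 1581), (nat_lit 2237), [(nat_lit 1636804), (nat_lit 1632585), (nat_lit 1659578), (nat_lit 1655900), (nat_lit 1708073), (nat_lit 1700880), (nat_lit 1730848), (nat_lit 1724195)]⟩, ⟨(nat_lit 3), false, false, false, (nat_lit 121), (nat_lit 1581), (nat_lit 2237), [(nat_lit 1180680), (nat_lit 1188036), (nat_lit 1248867), (nat_lit 1257845), (nat_lit 1351886), (nat_lit 1352103), (nat_lit 1420170), (nat_lit 1422009)]⟩, (nat_lit 4601748), (nat_lit 41449766), (nat_lit 20007226), (nat_lit 5543008), (nat_lit 5), (nat_lit 0), [⟨(nat_lit 1), (nat_lit 87), (nat_lit 38), (nat_lit 100), (nat_lit 251320587)⟩],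 [], [], [⟨(nat_lit 1), (nat_lit 100), (nat_lit 94), (nat_lit 92), (nat_lit 29396639)⟩],
 ⟨⟨[(nat_lit 40), (nat_lit 80), (nat_lit 100)], [(nat_lit 0), (nat_lit 2514), (nat_lit 3562)], [((nat_lit 0), (nat_lit 0), (nat_lit 0)), ((nat_lit 1000), (nat_lit 446), (nat_lit 804)), ((nat_lit 1000), (nat_lit 443), (nat_lit 819))], ((nat_lit 44), (nat_lit 100), (nat_lit 84))⟩, (nat_lit 1729), (nat_lit 209), (nat_lit 209), (nat_lit 0), (nat_lit 191965), [(nat_lit 1464644029), (nat_lit 882992170), (nat_lit 971350000)], [(nat_lit 0), (nat_lit 0), (nat_lit 0)], [(nat_lit 26235360660), (nat_lit 26758631060), (nat_lit 28047439350), (nat_lit 28681978247), (nat_lit 26228585311), (nat_lit 26692069091), (nat_lit 27886437232), (nat_lit 28344532125)], (nat_lit 1271251), (nat_lit 1271251), (nat_lit 1271251), (nat_lit 1271251), (nat_lit 230000), (nat_lit 1100000), [(nat_lit 490000), (nat_lit 1100000), (nat_lit 1442501)], [(nat_lit 3), (nat_lit 50), (nat_lit 249), (nat_lit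 40), (nat_lit 8)]⟩,
 ⟨⟨[(nat_lit 100), (nat_lit 140), (nat_lit 180)], [(nat_lit 0), (nat_lit 508), (nat_lit 2854)], [((nat_lit 0), (nat_lit 0), (nat_lit 0)), ((nat_lit 1000), (nat_lit 1000), (nat_lit 198)), ((nat_lit 777), (nat_lit 1000), (nat_lit 712))], ((nat_lit 100), (nat_lit 64), (nat_lit 83))⟩, (nat_lit 459713), (nat_lit 593), (nat_lit 593), (nat_lit 0), (nat_lit 890600), [(nat_lit 1062500000), (nat_lit 1673140000), (nat_lit 2389860000)], [], [(nat_lit 4984679001), (nat_lit 4961068426), (nat_lit 5165387226), (nat_lit 5146396728), (nat_lit 5709882448), (nat_lit 5691736359), (nat_lit 5941227199), (nat_lit 5908764104)], (nat_lit 1271251), (nat_lit 1271251), (nat_lit 1271251), (nat_lit 1271251), (nat_lit 1271251), (nat_lit 1271251), [(nat_lit 1412501), (nat_lit 1271251), (nat_lit 1271251)], [(nat_lit 24), (nat_lit 63), (nat_lit 483), (nat_lit 250), (nat_lit 10)]⟩,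
 ⟨⟨[(nat_lit 140), (nat_lit 180), (nat_lit 200)], [(nat_lit 0), (nat_lit 0), (nat_lit 2835)], [((nat_lit 0), (nat_lit 0), (nat_lit 0)), ((nat_lit 0), (nat_lit 0), (nat_lit 0)), ((nat_lit 363), (nat_lit 1000), (nat_lit 798))], ((nat_lit 0), (nat_lit 0), (nat_lit 0))⟩, (nat_lit 12381), (nat_lit 300), (nat_lit 1512), (nat_lit 3514500), (nat_lit 2359749), [(nat_lit 442890000), (nat_lit 632610000), (nat_lit 738000000)], [], [(nat_lit 2915479305), (nat_lit 2791463468), (nat_lit 2515358340), (nat_lit 2492483850), (nat_lit 2853160088), (nat_lit 2725224663), (nat_lit 2437218270), (nat_lit 2303402226)], (nat_lit 780000), (nat_lit 1271251), (nat_lit 230000), (nat_lit 1100000), (nat_lit 1271251), (nat_lit 1271251), [(nat_lit 1977501), (nat_lit 1271251), (nat_lit 1271251)], [(nat_lit 32), (nat_lit 67), (nat_lit 467), (nat_lit 200), (nat_lit 10)]⟩⟩))))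
noncomputable def c13_37 : Tr Lf :=
 (.trX (nat_lit 3) (nat_lit 0) (nat_lit 1) (nat_lit 32) (nat_lit 89) (nat_lit 100) (nat_lit 300) (.trZ (nat_lit 0) (nat_lit 2) (nat_lit 4) (nat_lit 100) (nat_lit 34) (nat_lit 81) (nat_lit 60) (.spl (nat_lit 1) (nat_lit 220) (.trX (nat_lit 3) (nat_lit 0) (nat_lit 1) (nat_lit 31) (nat_lit 92) (nat_lit 100) (nat_lit 290) (.leaf ⟨(nat_lit 934), (nat_lit 66), (nat_lit 0), (nat_lit 0), (nat_lit 148), (nat_lit 3574), (nat_lit 867), (nat_lit 0), (nat_lit 0), (nat_lit 0), (nat_lit 233500), [((nat_lit 400), [((nat_lit 29), (nat_lit 0), (nat_lit 934))])], ⟨(nat_lit 7), false, true, true, (nat_lit 244), (nat_lit 0), (nat_lit 1582), [(nat_lit 1585951), (nat_lit 1574995), (nat_lit 1632583), (nat_lit 1624997), (nat_lit 1599609), (nat_lit 1587494), (nat_lit 1646241), (nat_lit 1637496)]⟩, ⟨(nat_lit 3), false, false, false, (nat_lit 128), (nat_lit 0), (nat_lit 1582), [(nat_lit 1213552), (nat_lit 1223038), (nat_lit 1281527), (nat_lit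 1296068), (nat_lit 1352101), (nat_lit 1349997), (nat_lit 1421394), (nat_lit 1424345)]⟩, (nat_lit 4538914), (nat_lit 43541662), (nat_lit 17238514), (nat_lit 6219824), (nat_lit 3), (nat_lit 0), [⟨(nat_lit 1), (nat_lit 92), (nat_lit 31), (nat_lit 100), (nat_lit 717830662)⟩], [⟨(nat_lit 0), (nat_lit 100), (nat_lit 34), (nat_lit 81), (nat_lit 9155283)⟩], [], [⟨(nat_lit 1), (nat_lit 87), (nat_lit 100), (nat_lit 99), (nat_lit 5039149)⟩],
 ⟨⟨[(nat_lit 40), (nat_lit 60), (nat_lit 80)], [(nat_lit 0), (nat_lit 2136), (nat_lit 3185)], [((nat_lit 0), (nat_lit 0), (nat_lit 0)), ((nat_lit 1000), (nat_lit 343), (nat_lit 808)), ((nat_lit 1000), (nat_lit 338), (nat_lit 820))], ((nat_lit 32), (nat_lit 100), (nat_lit 86))⟩, (nat_lit 0), (nat_lit 198), (nat_lit 198), (nat_lit 0), (nat_lit 319461), [(nat_lit 1578696804), (nat_lit 1273269330), (nat_lit 1594965600)], [(nat_lit 0), (nat_lit 0), (nat_lit 0)], [(nat_lit 26713529732), (nat_lit 27475346164), (nat_lit 27163733351),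 (nat_lit 27907325090), (nat_lit 26513839545), (nat_lit 27004229784), (nat_lit 26828647255), (nat_lit 27309437299)], (nat_lit 1271251), (nat_lit 1271251), (nat_lit 1271251), (nat_lit 1271251), (nat_lit 356250), (nat_lit 1100000), [(nat_lit 490000), (nat_lit 780000), (nat_lit 1100000)], [(nat_lit 2), (nat_lit 44), (nat_lit 249), (nat_lit 40), (nat_lit 9)]⟩,
 ⟨⟨[(nat_lit 120), (nat_lit 160), (nat_lit 200)], [(nat_lit 0), (nat_lit 533), (nat_lit 3597)], [((nat_lit 0), (nat_lit 0), (nat_lit 0)), ((nat_lit 960), (nat_lit 1000), (nat_lit 200)), ((nat_lit 612), (nat_lit 1000), (nat_lit 732))], ((nat_lit 0), (nat_lit 0), (nat_lit 0))⟩, (nat_lit 206718), (nat_lit 1144), (nat_lit 1144), (nat_lit 0), (nat_lit 1654676), [(nat_lit 525888000), (nat_lit 783552000), (nat_lit 1082400000)], [], [(nat_lit 2832469682), (nat_lit 2846386409), (nat_lit 2875669328), (nat_lit 2884985722), (nat_lit 2864377133), (nat_lit 2250374649), (nat_lit 2675968361), (nat_lit 2281475327)],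 (nat_lit 1271251), (nat_lit 1271251), (nat_lit 1271251), (nat_lit 1271251), (nat_lit 0), (nat_lit 2613125), [(nat_lit 1695001), (nat_lit 1271251), (nat_lit 1271251)], [(nat_lit 29), (nat_lit 66), (nat_lit 456), (nat_lit 225), (nat_lit 9)]⟩,
 Rw.none⟩)) (.spl (nat_lit 2) (nat_lit 160) (.leaf ⟨(nat_lit 882), (nat_lit 118), (nat_lit 0), (nat_lit 0), (nat_lit 0), (nat_lit 3429), (nat_lit 1132), (nat_lit 0), (nat_lit 0), (nat_lit 0), (nat_lit 297300), [((nat_lit 400), [((nat_lit 29), (nat_lit 0), (nat_lit 370)), ((nat_lit 29), (nat_lit 1), (nat_lit 512))])], ⟨(nat_lit 7), false, true, true, (nat_lit 262), (nat_lit 0), (nat_lit 1582), [(nat_lit 1632583), (nat_lit 1624997), (nat_lit 1655899), (nat_lit 1649997), (nat_lit 1659900), (nat_lit 1649996), (nat_lit 1683216), (nat_lit 1674997)]⟩, ⟨(nat_lit 3), false, false, false, (nat_lit 123), (nat_lit 0), (nat_lit 1582), [(nat_lit 1213552), (nat_lit 1223038), (nat_lit 1258869), (nat_lit 1271724), (nat_lit 1352101),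 (nat_lit 1349997), (nat_lit 1398733), (nat_lit 1399999)]⟩, (nat_lit 4578312), (nat_lit 42287711), (nat_lit 18936684), (nat_lit 5775605), (nat_lit 3), (nat_lit 0), [⟨(nat_lit 1), (nat_lit 94), (nat_lit 22), (nat_lit 100), (nat_lit 535281356)⟩], [], [], [⟨(nat_lit 1), (nat_lit 90), (nat_lit 100), (nat_lit 100), (nat_lit 13198241)⟩],
 ⟨⟨[(nat_lit 40), (nat_lit 60), (nat_lit 80)], [(nat_lit 0), (nat_lit 2136), (nat_lit 3185)], [((nat_lit 0), (nat_lit 0), (nat_lit 0)), ((nat_lit 1000), (nat_lit 343), (nat_lit 808)), ((nat_lit 1000), (nat_lit 338), (nat_lit 820))], ((nat_lit 32), (nat_lit 100), (nat_lit 86))⟩, (nat_lit 0), (nat_lit 206), (nat_lit 206), (nat_lit 0), (nat_lit 344987), [(nat_lit 1505709604), (nat_lit 1044079530), (nat_lit 1163623200)], [(nat_lit 0), (nat_lit 0), (nat_lit 0)], [(nat_lit 26460257570), (nat_lit 27206438444), (nat_lit 27348952438), (nat_lit 28059773378), (nat_lit 26202465143), (nat_lit 26684441974), (nat_lit 26826247900), (nat_lit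 27414445522)], (nat_lit 1271251), (nat_lit 1271251), (nat_lit 1271251), (nat_lit 1271251), (nat_lit 356250), (nat_lit 1100000), [(nat_lit 490000), (nat_lit 780000), (nat_lit 1100000)], [(nat_lit 2), (nat_lit 44), (nat_lit 249), (nat_lit 40), (nat_lit 9)]⟩,
 ⟨⟨[(nat_lit 100), (nat_lit 140), (nat_lit 180)], [(nat_lit 0), (nat_lit 508), (nat_lit 2854)], [((nat_lit 0), (nat_lit 0), (nat_lit 0)), ((nat_lit 1000), (nat_lit 1000), (nat_lit 198)), ((nat_lit 777), (nat_lit 1000), (nat_lit 712))], ((nat_lit 100), (nat_lit 64), (nat_lit 83))⟩, (nat_lit 372020), (nat_lit 841), (nat_lit 841), (nat_lit 0), (nat_lit 1156512), [(nat_lit 737500000), (nat_lit 1161356000), (nat_lit 1658844000)], [], [(nat_lit 4593880168), (nat_lit 4566537048), (nat_lit 4604506549), (nat_lit 4575159180), (nat_lit 3828516898), (nat_lit 3818412141), (nat_lit 3884050471), (nat_lit 3870531297)], (nat_lit 1271251), (nat_lit 1271251), (nat_lit 1271251), (nat_lit 1271251), (nat_lit 0), (nat_lit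 2613125), [(nat_lit 1412501), (nat_lit 1271251), (nat_lit 1271251)], [(nat_lit 24), (nat_lit 63), (nat_lit 483), (nat_lit 250), (nat_lit 11)]⟩,
 Rw.none⟩) (.trZ (nat_lit 0) (nat_lit 2) (nat_lit 4) (nat_lit 100) (nat_lit 32) (nat_lit 89) (nat_lit 100) (.leaf ⟨(nat_lit 878), (nat_lit 101), (nat_lit 0), (nat_lit 21), (nat_lit 0), (nat_lit 3541), (nat_lit 1242), (nat_lit 256), (nat_lit 0), (nat_lit 0), (nat_lit 219500), [((nat_lit 400), [((nat_lit 29), (nat_lit 0), (nat_lit 878))])], ⟨(nat_lit 7), false, true, true, (nat_lit 262), (nat_lit 0), (nat_lit 1582), [(nat_lit 1632583), (nat_lit 1624997), (nat_lit 1655899), (nat_lit 1649997), (nat_lit 1659900), (nat_lit 1649996), (nat_lit 1683216), (nat_lit 1674997)]⟩, ⟨(nat_lit 4), false, false, false, (nat_lit 148), (nat_lit 0), (nat_lit 1582), [(nat_lit 1314816), (nat_lit 1323036), (nat_lit 1337475), (nat_lit 1347379), (nat_lit 1398733), (nat_lit 1399999), (nat_lit 1421394), (nat_lit 1424345)]⟩, (nat_lit 4834893),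 (nat_lit 40937314), (nat_lit 18539221), (nat_lit 7523465), (nat_lit 4), (nat_lit 0), [⟨(nat_lit 1), (nat_lit 94), (nat_lit 22), (nat_lit 100), (nat_lit 68641039)⟩, ⟨(nat_lit 1), (nat_lit 89), (nat_lit 32), (nat_lit 100), (nat_lit 438240242)⟩], [⟨(nat_lit 0), (nat_lit 100), (nat_lit 22), (nat_lit 94), (nat_lit 6473879)⟩], [], [],
 ⟨⟨[(nat_lit 40), (nat_lit 60), (nat_lit 80)], [(nat_lit 0), (nat_lit 2136), (nat_lit 3185)], [((nat_lit 0), (nat_lit 0), (nat_lit 0)), ((nat_lit 1000), (nat_lit 343), (nat_lit 808)), ((nat_lit 1000), (nat_lit 338), (nat_lit 820))], ((nat_lit 32), (nat_lit 100), (nat_lit 86))⟩, (nat_lit 0), (nat_lit 169), (nat_lit 169), (nat_lit 0), (nat_lit 271378), [(nat_lit 1591845601), (nat_lit 1373051494), (nat_lit 1780415200)], [(nat_lit 0), (nat_lit 0), (nat_lit 0)], [(nat_lit 26090685989), (nat_lit 26746461546), (nat_lit 26889259326), (nat_lit 27586432296), (nat_lit 26378635472), (nat_lit 26897746762), (nat_lit 27039495742), (nat_lit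 27548757938)], (nat_lit 1271251), (nat_lit 1271251), (nat_lit 1271251), (nat_lit 1271251), (nat_lit 631250), (nat_lit 1100000), [(nat_lit 490000), (nat_lit 780000), (nat_lit 1100000)], [(nat_lit 2), (nat_lit 44), (nat_lit 249), (nat_lit 40), (nat_lit 9)]⟩,
 ⟨⟨[(nat_lit 100), (nat_lit 140), (nat_lit 180)], [(nat_lit 0), (nat_lit 508), (nat_lit 2854)], [((nat_lit 0), (nat_lit 0), (nat_lit 0)), ((nat_lit 1000), (nat_lit 1000), (nat_lit 198)), ((nat_lit 777), (nat_lit 1000), (nat_lit 712))], ((nat_lit 100), (nat_lit 64), (nat_lit 83))⟩, (nat_lit 399437), (nat_lit 742), (nat_lit 742), (nat_lit 0), (nat_lit 900460), [(nat_lit 762500000), (nat_lit 1200724000), (nat_lit 1715076000)], [], [(nat_lit 4429367090), (nat_lit 4413075432), (nat_lit 4464532287), (nat_lit 4445825804), (nat_lit 3892495039), (nat_lit 3878639827), (nat_lit 3986299581), (nat_lit 4019724755)], (nat_lit 1271251), (nat_lit 1271251), (nat_lit 1271251), (nat_lit 1271251), (nat_lit 0), (nat_lit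 2613125), [(nat_lit 1412501), (nat_lit 1271251), (nat_lit 1271251)], [(nat_lit 24), (nat_lit 63), (nat_lit 483), (nat_lit 250), (nat_lit 11)]⟩,
 ⟨⟨[(nat_lit 120), (nat_lit 160), (nat_lit 200)], [(nat_lit 0), (nat_lit 0), (nat_lit 3198)], [((nat_lit 0), (nat_lit 0), (nat_lit 0)), ((nat_lit 0), (nat_lit 0), (nat_lit 0)), ((nat_lit 572), (nat_lit 1000), (nat_lit 714))], ((nat_lit 0), (nat_lit 0), (nat_lit 0))⟩, (nat_lit 10244), (nat_lit 300), (nat_lit 1343), (nat_lit 1558200), (nat_lit 1876736), [(nat_lit 167328000), (nat_lit 249312000), (nat_lit 344400000)], [], [(nat_lit 1478398928), (nat_lit 1463012508), (nat_lit 1404909344), (nat_lit 1389544095), (nat_lit 1167127484), (nat_lit 1239773024), (nat_lit 1332923732), (nat_lit 1407846320)], (nat_lit 1100000), (nat_lit 1271251), (nat_lit 631250), (nat_lit 1100000), (nat_lit 0), (nat_lit 2613125), [(nat_lit 1695001), (nat_lit 1271251), (nat_lit 1271251)], [(nat_lit 29), (nat_lit 66), (nat_lit 428), (nat_lit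 200), (nat_lit 9)]⟩⟩))))))
noncomputable def c13_38 : Tr Lf :=
 (.trX (nat_lit 3) (nat_lit 0) (nat_lit 1) (nat_lit 44) (nat_lit 94) (nat_lit 100) (nat_lit 270) (.spl (nat_lit 6) (nat_lit 68) (.leaf ⟨(nat_lit 1000), (nat_lit 0), (nat_lit 0), (nat_lit 0), (nat_lit 0), (nat_lit 3573), (nat_lit 0), (nat_lit 0), (nat_lit 0), (nat_lit 361614197024), (nat_lit 250000), [((nat_lit 400), [((nat_lit 28), (nat_lit 0), (nat_lit 1000))])], ⟨(nat_lit 6), false, false, true, (nat_lit 206), (nat_lit 0), (nat_lit 2237), [(nat_lit 1465911), (nat_lit 1449992), (nat_lit 1534237), (nat_lit 1524996), (nat_lit 1508671), (nat_lit 1487491), (nat_lit 1576997), (nat_lit 1562495)]⟩, ⟨(nat_lit 4), false, false, true, (nat_lit 184), (nat_lit 0), (nat_lit 2237), [(nat_lit 1351885), (nat_lit 1349998), (nat_lit 1419294), (nat_lit 1424084), (nat_lit 1508671), (nat_lit 1487491), (nat_lit 1576997), (nat_lit 1562495)]⟩, (nat_lit 4825122), (nat_lit 43166977), (nat_lit 12957319), (nat_lit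 10875704), (nat_lit 0), (nat_lit 0), [⟨(nat_lit 1), (nat_lit 94), (nat_lit 44), (nat_lit 100), (nat_lit 426098206)⟩], [⟨(nat_lit 1), (nat_lit 94), (nat_lit 44), (nat_lit 100), (nat_lit 255472775)⟩], [], [],
 ⟨⟨[(nat_lit 40), (nat_lit 60), (nat_lit 80)], [(nat_lit 0), (nat_lit 1539), (nat_lit 2453)], [((nat_lit 0), (nat_lit 0), (nat_lit 0)), ((nat_lit 1000), (nat_lit 478), (nat_lit 704)), ((nat_lit 1000), (nat_lit 474), (nat_lit 714))], ((nat_lit 45), (nat_lit 100), (nat_lit 78))⟩, (nat_lit 0), (nat_lit 170), (nat_lit 170), (nat_lit 0), (nat_lit 355664), [(nat_lit 1563200003), (nat_lit 1182657800), (nat_lit 1376400000)], [(nat_lit 0), (nat_lit 0), (nat_lit 0)], [(nat_lit 24061806516), (nat_lit 25228633208), (nat_lit 25131079151), (nat_lit 26401266007), (nat_lit 26730444651), (nat_lit 27946224846), (nat_lit 27771391469), (nat_lit 28914838639)], (nat_lit 1271251), (nat_lit 1271251), (nat_lit 1271251), (nat_lit 1271251), (nat_lit 1100000), (nat_lit 2041876),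 [(nat_lit 490000), (nat_lit 780000), (nat_lit 1100000)], [(nat_lit 2), (nat_lit 44), (nat_lit 203), (nat_lit 0), (nat_lit 7)]⟩,
 Rw.none,
 Rw.none⟩) (.leaf ⟨(nat_lit 1000), (nat_lit 0), (nat_lit 0), (nat_lit 0), (nat_lit 7153), (nat_lit 3650), (nat_lit 0), (nat_lit 0), (nat_lit 0), (nat_lit 1530619), (nat_lit 281650), [((nat_lit 400), [((nat_lit 29), (nat_lit 0), (nat_lit 789)), ((nat_lit 29), (nat_lit 1), (nat_lit 211))])], ⟨(nat_lit 6), false, false, true, (nat_lit 206), (nat_lit 0), (nat_lit 2237), [(nat_lit 1465911), (nat_lit 1449992), (nat_lit 1534237), (nat_lit 1524996), (nat_lit 1508671), (nat_lit 1487491), (nat_lit 1576997), (nat_lit 1562495)]⟩, ⟨(nat_lit 4), false, false, true, (nat_lit 184), (nat_lit 0), (nat_lit 2237), [(nat_lit 1351885), (nat_lit 1349998), (nat_lit 1419294), (nat_lit 1424084), (nat_lit 1508671), (nat_lit 1487491), (nat_lit 1576997), (nat_lit 1562495)]⟩, (nat_lit 4825122), (nat_lit 43166977), (nat_lit 12957319), (nat_lit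 10875704), (nat_lit 0), (nat_lit 0), [⟨(nat_lit 1), (nat_lit 100), (nat_lit 31), (nat_lit 97), (nat_lit 517949023)⟩, ⟨(nat_lit 1), (nat_lit 94), (nat_lit 44), (nat_lit 100), (nat_lit 45011130)⟩], [⟨(nat_lit 1), (nat_lit 100), (nat_lit 31), (nat_lit 97), (nat_lit 331138575)⟩], [], [],
 ⟨⟨[(nat_lit 40), (nat_lit 80), (nat_lit 100)], [(nat_lit 0), (nat_lit 2514), (nat_lit 3562)], [((nat_lit 0), (nat_lit 0), (nat_lit 0)), ((nat_lit 1000), (nat_lit 446), (nat_lit 804)), ((nat_lit 1000), (nat_lit 443), (nat_lit 819))], ((nat_lit 44), (nat_lit 100), (nat_lit 84))⟩, (nat_lit 0), (nat_lit 156), (nat_lit 156), (nat_lit 0), (nat_lit 255622), [(nat_lit 1528089681), (nat_lit 1129031403), (nat_lit 1429303600)], [(nat_lit 0), (nat_lit 0), (nat_lit 0)], [(nat_lit 24514538112), (nat_lit 25584897362), (nat_lit 25483416931), (nat_lit 26550753300), (nat_lit 26871967313), (nat_lit 28023539275), (nat_lit 27841790021), (nat_lit 28996096629)], (nat_lit 1271251), (nat_lit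 1271251), (nat_lit 1271251), (nat_lit 1271251), (nat_lit 1100000), (nat_lit 2041876), [(nat_lit 490000), (nat_lit 1100000), (nat_lit 1442501)], [(nat_lit 3), (nat_lit 50), (nat_lit 289), (nat_lit 75), (nat_lit 9)]⟩,
 Rw.none,
 Rw.none⟩)))
noncomputable def c13_39 : Tr Lf :=
 (.spl (nat_lit 1) (nat_lit 220) (.trX (nat_lit 3) (nat_lit 0) (nat_lit 1) (nat_lit 44) (nat_lit 86) (nat_lit 100) (nat_lit 310) (.spl (nat_lit 2) (nat_lit 160) (.trX (nat_lit 4) (nat_lit 0) (nat_lit 2) (nat_lit 44) (nat_lit 99) (nat_lit 100) (nat_lit 250) (.stt (nat_lit 1) (.leaf ⟨(nat_lit 986), (nat_lit 6), (nat_lit 0), (nat_lit 8), (nat_lit 5283), (nat_lit 3247), (nat_lit 173), (nat_lit 99), (nat_lit 0), (nat_lit 0), (nat_lit 246500), [((nat_lit 390), [((nat_lit 29), (nat_lit 0), (nat_lit 986))])], ⟨(nat_lit 6), false, true, true, (nat_lit 242), (nat_lit 1581), (nat_lit 2237), [(nat_lit 1534240), (nat_lit 1531319), (nat_lit 1579788), (nat_lit 1577949), (nat_lit 1634017), (nat_lit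 1626932), (nat_lit 1679566), (nat_lit 1673562)]⟩, ⟨(nat_lit 4), false, false, true, (nat_lit 175), (nat_lit 1581), (nat_lit 2237), [(nat_lit 1351886), (nat_lit 1352103), (nat_lit 1397434), (nat_lit 1398733), (nat_lit 1480171), (nat_lit 1475033), (nat_lit 1525719), (nat_lit 1521663)]⟩, (nat_lit 4980368), (nat_lit 40953083), (nat_lit 16302673), (nat_lit 9744244), (nat_lit 4), (nat_lit 0), [⟨(nat_lit 1), (nat_lit 86), (nat_lit 44), (nat_lit 100), (nat_lit 313914366)⟩], [⟨(nat_lit 1), (nat_lit 99), (nat_lit 44), (nat_lit 100), (nat_lit 194775940)⟩], [], [⟨(nat_lit 0), (nat_lit 100), (nat_lit 86), (nat_lit 77), (nat_lit 12729234)⟩],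
 ⟨⟨[(nat_lit 40), (nat_lit 80), (nat_lit 100)], [(nat_lit 0), (nat_lit 2514), (nat_lit 3562)], [((nat_lit 0), (nat_lit 0), (nat_lit 0)), ((nat_lit 1000), (nat_lit 446), (nat_lit 804)), ((nat_lit 1000), (nat_lit 443), (nat_lit 819))], ((nat_lit 44), (nat_lit 100), (nat_lit 84))⟩, (nat_lit 0), (nat_lit 72), (nat_lit 72), (nat_lit 0), (nat_lit 0), [(nat_lit 1566487279), (nat_lit 1422762479), (nat_lit 1848890400)], [(nat_lit 0), (nat_lit 0), (nat_lit 0)], [(nat_lit 24101125010), (nat_lit 24674431430), (nat_lit 26550323676), (nat_lit 27048696879), (nat_lit 26102696673), (nat_lit 26598491318), (nat_lit 28214507587), (nat_lit 28737542896)], (nat_lit 0), (nat_lit 0), (nat_lit 0), (nat_lit 0), (nat_lit 0), (nat_lit 0), [], [(nat_lit 3), (nat_lit 50), (nat_lit 289), (nat_lit 75), (nat_lit 9)]⟩,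
 ⟨⟨[(nat_lit 120), (nat_lit 160), (nat_lit 200)], [(nat_lit 0), (nat_lit 533), (nat_lit 3597)], [((nat_lit 0), (nat_lit 0), (nat_lit 0)), ((nat_lit 960), (nat_lit 1000), (nat_lit 200)), ((nat_lit 612), (nat_lit 1000), (nat_lit 732))], ((nat_lit 0), (nat_lit 0), (nat_lit 0))⟩, (nat_lit 53911), (nat_lit 882), (nat_lit 882), (nat_lit 0), (nat_lit 1019639), [(nat_lit 111552000), (nat_lit 166208000), (nat_lit 229600000)], [], [(nat_lit 558434074), (nat_lit 552881264), (nat_lit 581121155), (nat_lit 580430643), (nat_lit 433656255), (nat_lit 427583786), (nat_lit 448500085), (nat_lit 443317799)], (nat_lit 1271251), (nat_lit 1271251), (nat_lit 1271251), (nat_lit 1271251), (nat_lit 0), (nat_lit 780000), [(nat_lit 1695001), (nat_lit 1271251), (nat_lit 1271251)], [(nat_lit 29), (nat_lit 66), (nat_lit 401), (nat_lit 175), (nat_lit 8)]⟩,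
 ⟨⟨[(nat_lit 140), (nat_lit 180), (nat_lit 200)], [(nat_lit 0), (nat_lit 0), (nat_lit 2835)], [((nat_lit 0), (nat_lit 0), (nat_lit 0)), ((nat_lit 0), (nat_lit 0), (nat_lit 0)), ((nat_lit 363), (nat_lit 1000), (nat_lit 798))], ((nat_lit 0), (nat_lit 0), (nat_lit 0))⟩, (nat_lit 2201), (nat_lit 300), (nat_lit 1476), (nat_lit 624801), (nat_lit 2175972), [(nat_lit 78736000), (nat_lit 112464000), (nat_lit 131200000)], [], [(nat_lit 572919032), (nat_lit 555996448), (nat_lit 547735973), (nat_lit 531262663), (nat_lit 496038458), (nat_lit 479914276), (nat_lit 471408087), (nat_lit 509467961)], (nat_lit 780000), (nat_lit 1100000), (nat_lit 1100000), (nat_lit 1870626), (nat_lit 0), (nat_lit 780000), [(nat_lit 1977501), (nat_lit 1271251), (nat_lit 1271251)], [(nat_lit 32), (nat_lit 67), (nat_lit 436), (nat_lit 150), (nat_lit 10)]⟩⟩) (.spl (nat_lit 0) (nat_lit 385) (.leaf ⟨(nat_lit 776), (nat_lit 224), (nat_lit 0), (nat_lit 0), (nat_lit 5542), (nat_lit 3433), (nat_lit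 2694), (nat_lit 0), (nat_lit 0), (nat_lit 0), (nat_lit 313000), [((nat_lit 385), [((nat_lit 29), (nat_lit 1), (nat_lit 763)), ((nat_lit 43), (nat_lit 2), (nat_lit 13))])], ⟨(nat_lit 6), false, true, true, (nat_lit 242), (nat_lit 1936), (nat_lit 2237), [(nat_lit 1534240), (nat_lit 1532877), (nat_lit 1579788), (nat_lit 1578898), (nat_lit 1634017), (nat_lit 1630683), (nat_lit 1679566), (nat_lit 1676705)]⟩, ⟨(nat_lit 4), false, false, true, (nat_lit 175), (nat_lit 1936), (nat_lit 2237), [(nat_lit 1351886), (nat_lit 1352066), (nat_lit 1397434), (nat_lit 1398088), (nat_lit 1480171), (nat_lit 1477817), (nat_lit 1525719), (nat_lit 1523838)]⟩, (nat_lit 4984631), (nat_lit 40903364), (nat_lit 16341268), (nat_lit 9755368), (nat_lit 4), (nat_lit 0), [⟨(nat_lit 1), (nat_lit 91), (nat_lit 41), (nat_lit 100), (nat_lit 84377976)⟩], [⟨(nat_lit 1), (nat_lit 100), (nat_lit 41), (nat_lit 96), (nat_lit 7100933)⟩, ⟨(nat_lit 1), (nat_lit 99), (nat_lit 44), (nat_lit 100),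 (nat_lit 207291256)⟩], [], [⟨(nat_lit 0), (nat_lit 100), (nat_lit 86), (nat_lit 77), (nat_lit 69113950)⟩],
 ⟨⟨[(nat_lit 40), (nat_lit 80), (nat_lit 100)], [(nat_lit 0), (nat_lit 2514), (nat_lit 3562)], [((nat_lit 0), (nat_lit 0), (nat_lit 0)), ((nat_lit 1000), (nat_lit 446), (nat_lit 804)), ((nat_lit 1000), (nat_lit 443), (nat_lit 819))], ((nat_lit 44), (nat_lit 100), (nat_lit 84))⟩, (nat_lit 9106), (nat_lit 146), (nat_lit 146), (nat_lit 0), (nat_lit 225319), [(nat_lit 1486606442), (nat_lit 1341366538), (nat_lit 1443621200)], [(nat_lit 0), (nat_lit 0), (nat_lit 0)], [(nat_lit 24519562704), (nat_lit 24796142193), (nat_lit 26876820207), (nat_lit 27130592731), (nat_lit 26383293077), (nat_lit 26622519352), (nat_lit 28442385084), (nat_lit 28662445437)], (nat_lit 1271251), (nat_lit 1271251), (nat_lit 1271251), (nat_lit 1271251), (nat_lit 1100000), (nat_lit 1870626), [(nat_lit 490000), (nat_lit 1100000), (nat_lit 1442501)], [(nat_lit 3), (nat_lit 50), (nat_lit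 289), (nat_lit 75), (nat_lit 9)]⟩,
 ⟨⟨[(nat_lit 120), (nat_lit 160), (nat_lit 200)], [(nat_lit 0), (nat_lit 533), (nat_lit 3597)], [((nat_lit 0), (nat_lit 0), (nat_lit 0)), ((nat_lit 960), (nat_lit 1000), (nat_lit 200)), ((nat_lit 612), (nat_lit 1000), (nat_lit 732))], ((nat_lit 0), (nat_lit 0), (nat_lit 0))⟩, (nat_lit 809313), (nat_lit 528), (nat_lit 528), (nat_lit 0), (nat_lit 302166), [(nat_lit 1784832000), (nat_lit 2659328000), (nat_lit 3673600000)], [], [(nat_lit 8764589758), (nat_lit 8738789050), (nat_lit 9392065182), (nat_lit 9386430949), (nat_lit 6639812603), (nat_lit 6698862933), (nat_lit 7276457881), (nat_lit 7261596049)], (nat_lit 1271251), (nat_lit 1271251), (nat_lit 1271251), (nat_lit 1271251), (nat_lit 0), (nat_lit 780000), [(nat_lit 1695001), (nat_lit 1271251), (nat_lit 1271251)], [(nat_lit 29), (nat_lit 66), (nat_lit 401), (nat_lit 175), (nat_lit 8)]⟩,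
 Rw.none⟩) (.trX (nat_lit 3) (nat_lit 0) (nat_lit 1) (nat_lit 38) (nat_lit 89) (nat_lit 100) (nat_lit 300) (.trX (nat_lit 4) (nat_lit 0) (nat_lit 2) (nat_lit 39) (nat_lit 100) (nat_lit 100) (nat_lit 240) (.leaf ⟨(nat_lit 742), (nat_lit 258), (nat_lit 0), (nat_lit 0), (nat_lit 1256), (nat_lit 3805), (nat_lit 3128), (nat_lit 0), (nat_lit 0), (nat_lit 0), (nat_lit 185500), [((nat_lit 390), [((nat_lit 29), (nat_lit 0), (nat_lit 742))])], ⟨(nat_lit 6), false, true, true, (nat_lit 239), (nat_lit 1581), (nat_lit 1937), [(nat_lit 1532877), (nat_lit 1531319), (nat_lit 1578898), (nat_lit 1577949), (nat_lit 1616711), (nat_lit 1613273), (nat_lit 1662732), (nat_lit 1659903)]⟩, ⟨(nat_lit 4), false, false, true, (nat_lit 172), (nat_lit 1581), (nat_lit 1937), [(nat_lit 1352066), (nat_lit 1352103), (nat_lit 1398088), (nat_lit 1398733), (nat_lit 1463844), (nat_lit 1461374), (nat_lit 1509866), (nat_lit 1508004)]⟩, (nat_lit 4938307), (nat_lit 41383846), (nat_lit 16063677),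 (nat_lit 9552477), (nat_lit 4), (nat_lit 0), [⟨(nat_lit 1), (nat_lit 94), (nat_lit 35), (nat_lit 100), (nat_lit 122821132)⟩], [⟨(nat_lit 1), (nat_lit 100), (nat_lit 39), (nat_lit 100), (nat_lit 259636339)⟩], [], [⟨(nat_lit 0), (nat_lit 100), (nat_lit 88), (nat_lit 68), (nat_lit 78199199)⟩],
 ⟨⟨[(nat_lit 40), (nat_lit 60), (nat_lit 80)], [(nat_lit 0), (nat_lit 1803), (nat_lit 2780)], [((nat_lit 0), (nat_lit 0), (nat_lit 0)), ((nat_lit 1000), (nat_lit 417), (nat_lit 754)), ((nat_lit 1000), (nat_lit 413), (nat_lit 764))], ((nat_lit 39), (nat_lit 100), (nat_lit 85))⟩, (nat_lit 0), (nat_lit 133), (nat_lit 133), (nat_lit 0), (nat_lit 257354), [(nat_lit 1623778410), (nat_lit 1630261258), (nat_lit 2230792800)], [(nat_lit 0), (nat_lit 0), (nat_lit 0)], [(nat_lit 24862630378), (nat_lit 25139518408), (nat_lit 26947112995), (nat_lit 27235401892), (nat_lit 26393747693), (nat_lit 26648368775), (nat_lit 28352280530), (nat_lit 28644812992)], (nat_lit 1271251), (nat_lit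 1271251), (nat_lit 1271251), (nat_lit 1271251), (nat_lit 1100000), (nat_lit 1785001), [(nat_lit 490000), (nat_lit 780000), (nat_lit 1100000)], [(nat_lit 2), (nat_lit 44), (nat_lit 203), (nat_lit 0), (nat_lit 7)]⟩,
 ⟨⟨[(nat_lit 120), (nat_lit 160), (nat_lit 200)], [(nat_lit 0), (nat_lit 533), (nat_lit 3597)], [((nat_lit 0), (nat_lit 0), (nat_lit 0)), ((nat_lit 960), (nat_lit 1000), (nat_lit 200)), ((nat_lit 612), (nat_lit 1000), (nat_lit 732))], ((nat_lit 0), (nat_lit 0), (nat_lit 0))⟩, (nat_lit 934118), (nat_lit 552), (nat_lit 552), (nat_lit 0), (nat_lit 359881), [(nat_lit 2055744000), (nat_lit 3062976000), (nat_lit 4231200000)], [], [(nat_lit 10080917296), (nat_lit 10046171828), (nat_lit 10682337871), (nat_lit 10687629557), (nat_lit 7607029714), (nat_lit 7673817454), (nat_lit 8237662854), (nat_lit 8230969161)], (nat_lit 1271251), (nat_lit 1271251), (nat_lit 1271251), (nat_lit 1271251), (nat_lit 0), (nat_lit 780000), [(nat_lit 1695001), (nat_lit 1271251),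 (nat_lit 1271251)], [(nat_lit 29), (nat_lit 66), (nat_lit 401), (nat_lit 175), (nat_lit 8)]⟩,
 Rw.none⟩)))))) (.spl (nat_lit 6) (nat_lit 80) (.spl (nat_lit 0) (nat_lit 385) (.spl (nat_lit 6) (nat_lit 72) (.leaf ⟨(nat_lit 892), (nat_lit 44), (nat_lit 0), (nat_lit 64), (nat_lit 0), (nat_lit 3379), (nat_lit 1408), (nat_lit 877), (nat_lit 0), (nat_lit 0), (nat_lit 223000), [((nat_lit 385), [((nat_lit 28), (nat_lit 0), (nat_lit 892))])], ⟨(nat_lit 6), false, true, true, (nat_lit 242), (nat_lit 1936), (nat_lit 2237), [(nat_lit 1534240), (nat_lit 1532877), (nat_lit 1579788), (nat_lit 1578898), (nat_lit 1634017), (nat_lit 1630683), (nat_lit 1679566), (nat_lit 1676705)]⟩, ⟨(nat_lit 4), false, false, true, (nat_lit 195), (nat_lit 1936), (nat_lit 2237), [(nat_lit 1397434), (nat_lit 1398088), (nat_lit 1420202), (nat_lit 1421092), (nat_lit 1554227), (nat_lit 1551783), (nat_lit 1577001), (nat_lit 1574794)]⟩, (nat_lit 5136023), (nat_lit 39702207), (nat_lit 16015126),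 (nat_lit 11282667), (nat_lit 4), (nat_lit 0), [⟨(nat_lit 1), (nat_lit 86), (nat_lit 44), (nat_lit 100), (nat_lit 142421627)⟩], [], [], [⟨(nat_lit 0), (nat_lit 100), (nat_lit 93), (nat_lit 44), (nat_lit 44850668)⟩, ⟨(nat_lit 0), (nat_lit 100), (nat_lit 89), (nat_lit 86), (nat_lit 41463915)⟩],
 ⟨⟨[(nat_lit 40), (nat_lit 60), (nat_lit 80)], [(nat_lit 0), (nat_lit 1539), (nat_lit 2453)], [((nat_lit 0), (nat_lit 0), (nat_lit 0)), ((nat_lit 1000), (nat_lit 478), (nat_lit 704)), ((nat_lit 1000), (nat_lit 474), (nat_lit 714))], ((nat_lit 45), (nat_lit 100), (nat_lit 79))⟩, (nat_lit 0), (nat_lit 107), (nat_lit 107), (nat_lit 0), (nat_lit 151773), [(nat_lit 1588558578), (nat_lit 1445193395), (nat_lit 1734052800)], [(nat_lit 0), (nat_lit 0), (nat_lit 0)], [(nat_lit 24281487542), (nat_lit 24573312512), (nat_lit 26755540306), (nat_lit 27008822352), (nat_lit 26899778892), (nat_lit 27142401828), (nat_lit 28964915918), (nat_lit 29220773975)], (nat_lit 1271251), (nat_lit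 1271251), (nat_lit 1271251), (nat_lit 1271251), (nat_lit 1100000), (nat_lit 2041876), [(nat_lit 490000), (nat_lit 780000), (nat_lit 1100000)], [(nat_lit 2), (nat_lit 44), (nat_lit 203), (nat_lit 0), (nat_lit 7)]⟩,
 ⟨⟨[(nat_lit 120), (nat_lit 160), (nat_lit 200)], [(nat_lit 0), (nat_lit 533), (nat_lit 3597)], [((nat_lit 0), (nat_lit 0), (nat_lit 0)), ((nat_lit 960), (nat_lit 1000), (nat_lit 200)), ((nat_lit 612), (nat_lit 1000), (nat_lit 732))], ((nat_lit 0), (nat_lit 0), (nat_lit 0))⟩, (nat_lit 463558), (nat_lit 665), (nat_lit 665), (nat_lit 0), (nat_lit 541297), [(nat_lit 860544000), (nat_lit 1282176000), (nat_lit 1771200000)], [], [(nat_lit 4101330478), (nat_lit 4061446468), (nat_lit 4395055112), (nat_lit 4384469005), (nat_lit 3076010452), (nat_lit 3022295200), (nat_lit 3273283586), (nat_lit 3258190485)], (nat_lit 1271251), (nat_lit 1271251), (nat_lit 1271251), (nat_lit 1271251), (nat_lit 0), (nat_lit 780000), [(nat_lit 1695001), (nat_lit 1271251),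 (nat_lit 1271251)], [(nat_lit 29), (nat_lit 66), (nat_lit 401), (nat_lit 175), (nat_lit 8)]⟩,
 ⟨⟨[(nat_lit 120), (nat_lit 160), (nat_lit 200)], [(nat_lit 0), (nat_lit 0), (nat_lit 3198)], [((nat_lit 0), (nat_lit 0), (nat_lit 0)), ((nat_lit 0), (nat_lit 0), (nat_lit 0)), ((nat_lit 572), (nat_lit 1000), (nat_lit 714))], ((nat_lit 0), (nat_lit 0), (nat_lit 0))⟩, (nat_lit 31220), (nat_lit 300), (nat_lit 793), (nat_lit 4748800), (nat_lit 702345), [(nat_lit 509952000), (nat_lit 759808000), (nat_lit 1049600000)], [], [(nat_lit 4162591940), (nat_lit 4118046497), (nat_lit 3963758291), (nat_lit 3914836475), (nat_lit 3429848462), (nat_lit 3387026357), (nat_lit 3700471322), (nat_lit 3933039073)], (nat_lit 1100000), (nat_lit 1271251), (nat_lit 1100000), (nat_lit 2041876), (nat_lit 0), (nat_lit 780000), [(nat_lit 1695001), (nat_lit 1271251), (nat_lit 1271251)], [(nat_lit 29), (nat_lit 66), (nat_lit 373), (nat_lit 150), (nat_lit 8)]⟩⟩) (.dle (nat_lit 0))) (.trX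 (nat_lit 3) (nat_lit 0) (nat_lit 1) (nat_lit 38) (nat_lit 89) (nat_lit 100) (nat_lit 300) (.trX (nat_lit 4) (nat_lit 0) (nat_lit 2) (nat_lit 38) (nat_lit 96) (nat_lit 100) (nat_lit 260) (.leaf ⟨(nat_lit 906), (nat_lit 40), (nat_lit 0), (nat_lit 54), (nat_lit 328), (nat_lit 3368), (nat_lit 1162), (nat_lit 751), (nat_lit 0), (nat_lit 0), (nat_lit 226500), [((nat_lit 390), [((nat_lit 28), (nat_lit 0), (nat_lit 906))])], ⟨(nat_lit 6), false, true, true, (nat_lit 239), (nat_lit 1581), (nat_lit 1937), [(nat_lit 1532877), (nat_lit 1531319), (nat_lit 1578898), (nat_lit 1577949), (nat_lit 1616711), (nat_lit 1613273), (nat_lit 1662732), (nat_lit 1659903)]⟩, ⟨(nat_lit 4), false, false, true, (nat_lit 192), (nat_lit 1581), (nat_lit 1937), [(nat_lit 1398088), (nat_lit 1398733), (nat_lit 1421086), (nat_lit 1422035), (nat_lit 1537811), (nat_lit 1535322), (nat_lit 1560821), (nat_lit 1558637)]⟩, (nat_lit 5094343), (nat_lit 40166054), (nat_lit 15748774), (nat_lit 11085172),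 (nat_lit 4), (nat_lit 0), [⟨(nat_lit 1), (nat_lit 89), (nat_lit 38), (nat_lit 100), (nat_lit 152348769)⟩], [], [], [⟨(nat_lit 0), (nat_lit 100), (nat_lit 94), (nat_lit 40), (nat_lit 1015240)⟩, ⟨(nat_lit 0), (nat_lit 100), (nat_lit 91), (nat_lit 77), (nat_lit 74160328)⟩],
 ⟨⟨[(nat_lit 40), (nat_lit 60), (nat_lit 80)], [(nat_lit 0), (nat_lit 1803), (nat_lit 2780)], [((nat_lit 0), (nat_lit 0), (nat_lit 0)), ((nat_lit 1000), (nat_lit 417), (nat_lit 754)), ((nat_lit 1000), (nat_lit 413), (nat_lit 764))], ((nat_lit 39), (nat_lit 100), (nat_lit 83))⟩, (nat_lit 0), (nat_lit 116), (nat_lit 116), (nat_lit 0), (nat_lit 185238), [(nat_lit 1585271231), (nat_lit 1409586926), (nat_lit 1687690400)], [(nat_lit 0), (nat_lit 0), (nat_lit 0)], [(nat_lit 24535981709), (nat_lit 24827375699), (nat_lit 26621863159), (nat_lit 26880297236), (nat_lit 26799823481), (nat_lit 27046794347), (nat_lit 28558892368), (nat_lit 28825513110)], (nat_lit 1271251), (nat_lit 1271251), (nat_lit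 1271251), (nat_lit 1271251), (nat_lit 1100000), (nat_lit 1956251), [(nat_lit 490000), (nat_lit 780000), (nat_lit 1100000)], [(nat_lit 2), (nat_lit 44), (nat_lit 203), (nat_lit 0), (nat_lit 7)]⟩,
 ⟨⟨[(nat_lit 120), (nat_lit 160), (nat_lit 200)], [(nat_lit 0), (nat_lit 533), (nat_lit 3597)], [((nat_lit 0), (nat_lit 0), (nat_lit 0)), ((nat_lit 960), (nat_lit 1000), (nat_lit 200)), ((nat_lit 612), (nat_lit 1000), (nat_lit 732))], ((nat_lit 0), (nat_lit 0), (nat_lit 0))⟩, (nat_lit 355383), (nat_lit 728), (nat_lit 728), (nat_lit 0), (nat_lit 701990), [(nat_lit 748992000), (nat_lit 1115968000), (nat_lit 1541600000)], [], [(nat_lit 3759263849), (nat_lit 3721940845), (nat_lit 3864583381), (nat_lit 3864691108), (nat_lit 2921103683), (nat_lit 2880291291), (nat_lit 3006521546), (nat_lit 2949067824)], (nat_lit 1271251), (nat_lit 1271251), (nat_lit 1271251), (nat_lit 1271251), (nat_lit 0), (nat_lit 780000), [(nat_lit 1695001), (nat_lit 1271251), (nat_lit 1271251)],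 [(nat_lit 29), (nat_lit 66), (nat_lit 401), (nat_lit 175), (nat_lit 8)]⟩,
 ⟨⟨[(nat_lit 120), (nat_lit 160), (nat_lit 200)], [(nat_lit 0), (nat_lit 0), (nat_lit 3198)], [((nat_lit 0), (nat_lit 0), (nat_lit 0)), ((nat_lit 0), (nat_lit 0), (nat_lit 0)), ((nat_lit 572), (nat_lit 1000), (nat_lit 714))], ((nat_lit 0), (nat_lit 0), (nat_lit 0))⟩, (nat_lit 26341), (nat_lit 300), (nat_lit 870), (nat_lit 4006808), (nat_lit 884979), [(nat_lit 430272000), (nat_lit 641088000), (nat_lit 885600000)], [], [(nat_lit 3499781196), (nat_lit 3461371205), (nat_lit 3334067350), (nat_lit 3293127738), (nat_lit 2871137118), (nat_lit 2834211397), (nat_lit 3036467465), (nat_lit 3233886019)], (nat_lit 1100000), (nat_lit 1271251), (nat_lit 1100000), (nat_lit 1956251), (nat_lit 0), (nat_lit 780000), [(nat_lit 1695001), (nat_lit 1271251), (nat_lit 1271251)], [(nat_lit 29), (nat_lit 66), (nat_lit 373), (nat_lit 150), (nat_lit 8)]⟩⟩)))) (.dle (nat_lit 0))))) (.spl (nat_lit 6) (nat_lit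 68) (.spl (nat_lit 0) (nat_lit 385) (.leaf ⟨(nat_lit 745), (nat_lit 218), (nat_lit 0), (nat_lit 37), (nat_lit 0), (nat_lit 3654), (nat_lit 2622), (nat_lit 482), (nat_lit 0), (nat_lit 0), (nat_lit 199300), [((nat_lit 385), [((nat_lit 28), (nat_lit 0), (nat_lit 658)), ((nat_lit 28), (nat_lit 1), (nat_lit 87))])], ⟨(nat_lit 6), false, true, true, (nat_lit 262), (nat_lit 1936), (nat_lit 2237), [(nat_lit 1579788), (nat_lit 1578898), (nat_lit 1602562), (nat_lit 1601908), (nat_lit 1708073), (nat_lit 1704649), (nat_lit 1730848), (nat_lit 1727660)]⟩, ⟨(nat_lit 4), false, false, true, (nat_lit 186), (nat_lit 1936), (nat_lit 2237), [(nat_lit 1351886), (nat_lit 1352066), (nat_lit 1420202), (nat_lit 1421092), (nat_lit 1508679), (nat_lit 1505761), (nat_lit 1577001), (nat_lit 1574794)]⟩, (nat_lit 5155598), (nat_lit 38819437), (nat_lit 17880823), (nat_lit 10299740), (nat_lit 4), (nat_lit 0), [⟨(nat_lit 1), (nat_lit 85), (nat_lit 41), (nat_lit 100), (nat_lit 118523683)⟩],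 [⟨(nat_lit 1), (nat_lit 100), (nat_lit 41), (nat_lit 98), (nat_lit 225335076)⟩], [], [⟨(nat_lit 0), (nat_lit 100), (nat_lit 91), (nat_lit 49), (nat_lit 64799075)⟩],
 ⟨⟨[(nat_lit 40), (nat_lit 60), (nat_lit 80)], [(nat_lit 0), (nat_lit 1539), (nat_lit 2453)], [((nat_lit 0), (nat_lit 0), (nat_lit 0)), ((nat_lit 1000), (nat_lit 478), (nat_lit 704)), ((nat_lit 1000), (nat_lit 474), (nat_lit 714))], ((nat_lit 45), (nat_lit 100), (nat_lit 78))⟩, (nat_lit 0), (nat_lit 137), (nat_lit 137), (nat_lit 0), (nat_lit 255691), [(nat_lit 1608458002), (nat_lit 1580357999), (nat_lit 2118302400)], [(nat_lit 0), (nat_lit 0), (nat_lit 0)], [(nat_lit 24714193465), (nat_lit 24986008499), (nat_lit 27826825902), (nat_lit 28064441397), (nat_lit 27183828147), (nat_lit 27420383619), (nat_lit 30030960294), (nat_lit 30282839907)], (nat_lit 1271251), (nat_lit 1271251), (nat_lit 1271251), (nat_lit 1271251), (nat_lit 1100000), (nat_lit 2041876), [(nat_lit 490000), (nat_lit 780000),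 (nat_lit 1100000)], [(nat_lit 2), (nat_lit 44), (nat_lit 203), (nat_lit 0), (nat_lit 7)]⟩,
 ⟨⟨[(nat_lit 100), (nat_lit 140), (nat_lit 180)], [(nat_lit 0), (nat_lit 508), (nat_lit 2854)], [((nat_lit 0), (nat_lit 0), (nat_lit 0)), ((nat_lit 1000), (nat_lit 1000), (nat_lit 198)), ((nat_lit 777), (nat_lit 1000), (nat_lit 712))], ((nat_lit 100), (nat_lit 74), (nat_lit 76))⟩, (nat_lit 1107017), (nat_lit 613), (nat_lit 613), (nat_lit 0), (nat_lit 624154), [(nat_lit 1593750000), (nat_lit 2509710000), (nat_lit 3584790000)], [], [(nat_lit 8340201018), (nat_lit 8373972216), (nat_lit 9071945326), (nat_lit 9121687243), (nat_lit 6655315388), (nat_lit 6678035682), (nat_lit 7282845467), (nat_lit 7266176824)], (nat_lit 1271251), (nat_lit 1271251), (nat_lit 1271251), (nat_lit 1271251), (nat_lit 0), (nat_lit 780000), [(nat_lit 1412501), (nat_lit 1271251), (nat_lit 1271251)], [(nat_lit 24), (nat_lit 63), (nat_lit 401), (nat_lit 175), (nat_lit 9)]⟩,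
 ⟨⟨[(nat_lit 140), (nat_lit 180), (nat_lit 200)], [(nat_lit 0), (nat_lit 0), (nat_lit 2835)], [((nat_lit 0), (nat_lit 0), (nat_lit 0)), ((nat_lit 0), (nat_lit 0), (nat_lit 0)), ((nat_lit 363), (nat_lit 1000), (nat_lit 798))], ((nat_lit 0), (nat_lit 0), (nat_lit 0))⟩, (nat_lit 10180), (nat_lit 300), (nat_lit 1409), (nat_lit 2889700), (nat_lit 2022496), [(nat_lit 364154000), (nat_lit 520146000), (nat_lit 606800000)], [], [(nat_lit 2600947952), (nat_lit 2497339453), (nat_lit 2497499979), (nat_lit 2390123844), (nat_lit 2209935024), (nat_lit 2101759681), (nat_lit 2304100650), (nat_lit 2653618248)], (nat_lit 780000), (nat_lit 1271251), (nat_lit 1100000), (nat_lit 2041876), (nat_lit 0), (nat_lit 780000), [(nat_lit 1977501), (nat_lit 1271251), (nat_lit 1271251)], [(nat_lit 32), (nat_lit 67), (nat_lit 424), (nat_lit 150), (nat_lit 9)]⟩⟩) (.trX (nat_lit 3) (nat_lit 0) (nat_lit 1) (nat_lit 39) (nat_lit 85) (nat_lit 100) (nat_lit 320) (.trX (nat_lit 4) (nat_lit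 0) (nat_lit 2) (nat_lit 38) (nat_lit 96) (nat_lit 100) (nat_lit 260) (.leaf ⟨(nat_lit 825), (nat_lit 133), (nat_lit 0), (nat_lit 42), (nat_lit 0), (nat_lit 3606), (nat_lit 1814), (nat_lit 533), (nat_lit 0), (nat_lit 0), (nat_lit 206250), [((nat_lit 390), [((nat_lit 28), (nat_lit 0), (nat_lit 825))])], ⟨(nat_lit 6), false, true, true, (nat_lit 258), (nat_lit 1581), (nat_lit 1937), [(nat_lit 1578898), (nat_lit 1577949), (nat_lit 1601908), (nat_lit 1601263), (nat_lit 1690677), (nat_lit 1687221), (nat_lit 1713688), (nat_lit 1710536)]⟩, ⟨(nat_lit 4), false, false, true, (nat_lit 182), (nat_lit 1581), (nat_lit 1937), [(nat_lit 1352066), (nat_lit 1352103), (nat_lit 1421086), (nat_lit 1422035), (nat_lit 1491789), (nat_lit 1488692), (nat_lit 1560821), (nat_lit 1558637)]⟩, (nat_lit 5115973), (nat_lit 39276134), (nat_lit 17622593), (nat_lit 10101273), (nat_lit 4), (nat_lit 0), [⟨(nat_lit 1), (nat_lit 88), (nat_lit 35), (nat_lit 100), (nat_lit 146186217)⟩], [⟨(nat_lit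 1), (nat_lit 100), (nat_lit 35), (nat_lit 97), (nat_lit 155694283)⟩], [], [⟨(nat_lit 0), (nat_lit 100), (nat_lit 84), (nat_lit 85), (nat_lit 61113121)⟩],
 ⟨⟨[(nat_lit 40), (nat_lit 60), (nat_lit 80)], [(nat_lit 0), (nat_lit 1803), (nat_lit 2780)], [((nat_lit 0), (nat_lit 0), (nat_lit 0)), ((nat_lit 1000), (nat_lit 417), (nat_lit 754)), ((nat_lit 1000), (nat_lit 413), (nat_lit 764))], ((nat_lit 40), (nat_lit 100), (nat_lit 79))⟩, (nat_lit 0), (nat_lit 146), (nat_lit 146), (nat_lit 0), (nat_lit 285910), [(nat_lit 1604290032), (nat_lit 1489086831), (nat_lit 1955930000)], [(nat_lit 0), (nat_lit 0), (nat_lit 0)], [(nat_lit 24859189087), (nat_lit 25141934527), (nat_lit 27556538917), (nat_lit 27797425167), (nat_lit 27041482892), (nat_lit 27281267709), (nat_lit 29495123505), (nat_lit 29757072290)], (nat_lit 1271251), (nat_lit 1271251), (nat_lit 1271251), (nat_lit 1271251), (nat_lit 1100000), (nat_lit 1956251), [(nat_lit 490000), (nat_lit 780000), (nat_lit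 1100000)], [(nat_lit 2), (nat_lit 44), (nat_lit 203), (nat_lit 0), (nat_lit 7)]⟩,
 ⟨⟨[(nat_lit 100), (nat_lit 140), (nat_lit 180)], [(nat_lit 0), (nat_lit 508), (nat_lit 2854)], [((nat_lit 0), (nat_lit 0), (nat_lit 0)), ((nat_lit 1000), (nat_lit 1000), (nat_lit 198)), ((nat_lit 777), (nat_lit 1000), (nat_lit 712))], ((nat_lit 100), (nat_lit 74), (nat_lit 76))⟩, (nat_lit 737558), (nat_lit 656), (nat_lit 656), (nat_lit 0), (nat_lit 734732), [(nat_lit 1093750000), (nat_lit 1722350000), (nat_lit 2460150000)], [], [(nat_lit 5728185430), (nat_lit 5750965876), (nat_lit 6149879551), (nat_lit 6148159060), (nat_lit 4560034432), (nat_lit 4575195358), (nat_lit 4919820118), (nat_lit 4911073384)], (nat_lit 1271251), (nat_lit 1271251), (nat_lit 1271251), (nat_lit 1271251), (nat_lit 0), (nat_lit 780000), [(nat_lit 1412501), (nat_lit 1271251), (nat_lit 1271251)], [(nat_lit 24), (nat_lit 63), (nat_lit 401), (nat_lit 175), (nat_lit 9)]⟩,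
 ⟨⟨[(nat_lit 140), (nat_lit 180), (nat_lit 200)], [(nat_lit 0), (nat_lit 0), (nat_lit 2835)], [((nat_lit 0), (nat_lit 0), (nat_lit 0)), ((nat_lit 0), (nat_lit 0), (nat_lit 0)), ((nat_lit 363), (nat_lit 1000), (nat_lit 798))], ((nat_lit 0), (nat_lit 0), (nat_lit 0))⟩, (nat_lit 11556), (nat_lit 300), (nat_lit 1546), (nat_lit 3280200), (nat_lit 2335490), [(nat_lit 413364000), (nat_lit 590436000), (nat_lit 688800000)], [], [(nat_lit 2973234296), (nat_lit 2851777135), (nat_lit 2856133819), (nat_lit 2737924410), (nat_lit 2557931646), (nat_lit 2439156971), (nat_lit 2527791696), (nat_lit 2913970432)], (nat_lit 780000), (nat_lit 1271251), (nat_lit 1100000), (nat_lit 1956251), (nat_lit 0), (nat_lit 780000), [(nat_lit 1977501), (nat_lit 1271251), (nat_lit 1271251)], [(nat_lit 32), (nat_lit 67), (nat_lit 457), (nat_lit 150), (nat_lit 10)]⟩⟩)))) (.leaf ⟨(nat_lit 357), (nat_lit 643), (nat_lit 0), (nat_lit 0), (nat_lit 4037), (nat_lit 3797), (nat_lit 6251), (nat_lit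 0), (nat_lit 0), (nat_lit 0), (nat_lit 354200), [((nat_lit 390), [((nat_lit 43), (nat_lit 2), (nat_lit 7)), ((nat_lit 29), (nat_lit 2), (nat_lit 350))])], ⟨(nat_lit 6), false, true, true, (nat_lit 261), (nat_lit 1581), (nat_lit 2237), [(nat_lit 1579788), (nat_lit 1577949), (nat_lit 1602558), (nat_lit 1601260), (nat_lit 1708073), (nat_lit 1700880), (nat_lit 1730848), (nat_lit 1724195)]⟩, ⟨(nat_lit 4), false, false, true, (nat_lit 185), (nat_lit 1581), (nat_lit 2237), [(nat_lit 1351886), (nat_lit 1352103), (nat_lit 1420170), (nat_lit 1422009), (nat_lit 1508678), (nat_lit 1502350), (nat_lit 1577001), (nat_lit 1572296)]⟩, (nat_lit 5151925), (nat_lit 38866713), (nat_lit 17846700), (nat_lit 10286587), (nat_lit 4), (nat_lit 0), [], [⟨(nat_lit 1), (nat_lit 100), (nat_lit 38), (nat_lit 98), (nat_lit 527535746)⟩], [], [⟨(nat_lit 0), (nat_lit 100), (nat_lit 91), (nat_lit 49), (nat_lit 114838893)⟩],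
 ⟨⟨[(nat_lit 40), (nat_lit 80), (nat_lit 100)], [(nat_lit 0), (nat_lit 2514), (nat_lit 3562)], [((nat_lit 0), (nat_lit 0), (nat_lit 0)), ((nat_lit 1000), (nat_lit 446), (nat_lit 804)), ((nat_lit 1000), (nat_lit 443), (nat_lit 819))], ((nat_lit 44), (nat_lit 100), (nat_lit 84))⟩, (nat_lit 0), (nat_lit 134), (nat_lit 134), (nat_lit 0), (nat_lit 160808), [(nat_lit 1695618183), (nat_lit 1590491794), (nat_lit 1670098800)], [(nat_lit 0), (nat_lit 0), (nat_lit 0)], [(nat_lit 24547228889), (nat_lit 25139844192), (nat_lit 27925611931), (nat_lit 28546499311), (nat_lit 27042002924), (nat_lit 27548929300), (nat_lit 30183603245), (nat_lit 30695345062)], (nat_lit 1271251), (nat_lit 1271251), (nat_lit 1271251), (nat_lit 1271251), (nat_lit 1100000), (nat_lit 2041876), [(nat_lit 490000), (nat_lit 1100000), (nat_lit 1442501)], [(nat_lit 3), (nat_lit 50), (nat_lit 289), (nat_lit 75), (nat_lit 9)]⟩,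
 ⟨⟨[(nat_lit 100), (nat_lit 140), (nat_lit 180)], [(nat_lit 0), (nat_lit 508), (nat_lit 2854)], [((nat_lit 0), (nat_lit 0), (nat_lit 0)), ((nat_lit 1000), (nat_lit 1000), (nat_lit 198)), ((nat_lit 777), (nat_lit 1000), (nat_lit 712))], ((nat_lit 100), (nat_lit 64), (nat_lit 83))⟩, (nat_lit 2525635), (nat_lit 477), (nat_lit 477), (nat_lit 0), (nat_lit 383824), [(nat_lit 4018750000), (nat_lit 6328406000), (nat_lit 9039294000)], [], [(nat_lit 20633814754), (nat_lit 20764939786), (nat_lit 23394392228), (nat_lit 23530413846), (nat_lit 16121181975), (nat_lit 16378919256), (nat_lit 18881843552), (nat_lit 18995414911)], (nat_lit 1271251), (nat_lit 1271251), (nat_lit 1271251), (nat_lit 1271251), (nat_lit 0), (nat_lit 780000), [(nat_lit 1412501), (nat_lit 1271251), (nat_lit 1271251)], [(nat_lit 24), (nat_lit 63), (nat_lit 401), (nat_lit 175), (nat_lit 9)]⟩,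
 Rw.none⟩)))
noncomputable def c13_40 : Tr Lf :=
 (.spl (nat_lit 2) (nat_lit 160) (.trX (nat_lit 4) (nat_lit 0) (nat_lit 2) (nat_lit 44) (nat_lit 99) (nat_lit 100) (nat_lit 250) (.stt (nat_lit 1) (.spl (nat_lit 2) (nat_lit 140) (.trX (nat_lit 4) (nat_lit 0) (nat_lit 2) (nat_lit 44) (nat_lit 100) (nat_lit 96) (nat_lit 230) (.leaf ⟨(nat_lit 910), (nat_lit 62), (nat_lit 0), (nat_lit 28), (nat_lit 0), (nat_lit 3346), (nat_lit 1037), (nat_lit 308), (nat_lit 0), (nat_lit 0), (nat_lit 227500), [((nat_lit 390), [((nat_lit 29), (nat_lit 0), (nat_lit 910))])], ⟨(nat_lit 6), false, true, true, (nat_lit 252), (nat_lit 1581), (nat_lit 2237), [(nat_lit 1534240), (nat_lit 1531319), (nat_lit 1602558), (nat_lit 1601260), (nat_lit 1662524), (nat_lit 1654249), (nat_lit 1730848), (nat_lit 1724195)]⟩, ⟨(nat_lit 4), false, false, true, (nat_lit 165), (nat_lit 1581), (nat_lit 2237), [(nat_lit 1351886), (nat_lit 1352103), (nat_lit 1374660), (nat_lit 1375418), (nat_lit 1451663),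 (nat_lit 1447715), (nat_lit 1474437), (nat_lit 1471030)]⟩, (nat_lit 4943963), (nat_lit 40764338), (nat_lit 17388970), (nat_lit 8846692), (nat_lit 4), (nat_lit 0), [⟨(nat_lit 1), (nat_lit 81), (nat_lit 44), (nat_lit 100), (nat_lit 299921655)⟩], [⟨(nat_lit 1), (nat_lit 100), (nat_lit 38), (nat_lit 94), (nat_lit 237993759)⟩], [], [],
 ⟨⟨[(nat_lit 40), (nat_lit 80), (nat_lit 100)], [(nat_lit 0), (nat_lit 2514), (nat_lit 3562)], [((nat_lit 0), (nat_lit 0), (nat_lit 0)), ((nat_lit 1000), (nat_lit 446), (nat_lit 804)), ((nat_lit 1000), (nat_lit 443), (nat_lit 819))], ((nat_lit 44), (nat_lit 100), (nat_lit 84))⟩, (nat_lit 0), (nat_lit 77), (nat_lit 77), (nat_lit 0), (nat_lit 0), [(nat_lit 1584332021), (nat_lit 1674444014), (nat_lit 2188124000)], [(nat_lit 0), (nat_lit 0), (nat_lit 0)], [(nat_lit 24255901971), (nat_lit 24836966031), (nat_lit 27504053359), (nat_lit 27987995653), (nat_lit 25734151578), (nat_lit 26254088099), (nat_lit 28640261264), (nat_lit 29164757912)],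 (nat_lit 0), (nat_lit 0), (nat_lit 0), (nat_lit 0), (nat_lit 0), (nat_lit 0), [], [(nat_lit 3), (nat_lit 50), (nat_lit 272), (nat_lit 60), (nat_lit 8)]⟩,
 ⟨⟨[(nat_lit 120), (nat_lit 160), (nat_lit 200)], [(nat_lit 0), (nat_lit 533), (nat_lit 3597)], [((nat_lit 0), (nat_lit 0), (nat_lit 0)), ((nat_lit 960), (nat_lit 1000), (nat_lit 200)), ((nat_lit 612), (nat_lit 1000), (nat_lit 732))], ((nat_lit 0), (nat_lit 0), (nat_lit 0))⟩, (nat_lit 209680), (nat_lit 888), (nat_lit 888), (nat_lit 0), (nat_lit 1240562), [(nat_lit 717120000), (nat_lit 1068480000), (nat_lit 1476000000)], [], [(nat_lit 3305991208), (nat_lit 3205729802), (nat_lit 3384976247), (nat_lit 3314637409), (nat_lit 3524848578), (nat_lit 3425727232), (nat_lit 3648869341), (nat_lit 3535768558)], (nat_lit 1271251), (nat_lit 1271251), (nat_lit 1271251), (nat_lit 1271251), (nat_lit 780000), (nat_lit 3072501), [(nat_lit 1695001), (nat_lit 1271251), (nat_lit 1271251)], [(nat_lit 29), (nat_lit 66),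 (nat_lit 483), (nat_lit 250), (nat_lit 10)]⟩,
 ⟨⟨[(nat_lit 140), (nat_lit 180), (nat_lit 200)], [(nat_lit 0), (nat_lit 0), (nat_lit 2835)], [((nat_lit 0), (nat_lit 0), (nat_lit 0)), ((nat_lit 0), (nat_lit 0), (nat_lit 0)), ((nat_lit 363), (nat_lit 1000), (nat_lit 798))], ((nat_lit 0), (nat_lit 0), (nat_lit 0))⟩, (nat_lit 7704), (nat_lit 300), (nat_lit 1973), (nat_lit 2186800), (nat_lit 3383009), [(nat_lit 275576000), (nat_lit 393624000), (nat_lit 459200000)], [], [(nat_lit 1988910830), (nat_lit 1966959143), (nat_lit 1920657988), (nat_lit 1898820705), (nat_lit 1742430189), (nat_lit 1720763299), (nat_lit 1674437713), (nat_lit 1721610590)], (nat_lit 780000), (nat_lit 936250), (nat_lit 1100000), (nat_lit 1699376), (nat_lit 780000), (nat_lit 3072501), [(nat_lit 1977501), (nat_lit 1271251), (nat_lit 1271251)], [(nat_lit 32), (nat_lit 67), (nat_lit 590), (nat_lit 200), (nat_lit 12)]⟩⟩)) (.spl (nat_lit 1) (nat_lit 220) (.trX (nat_lit 3) (nat_lit 0) (nat_lit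 1) (nat_lit 44) (nat_lit 86) (nat_lit 100) (nat_lit 310) (.leaf ⟨(nat_lit 898), (nat_lit 51), (nat_lit 0), (nat_lit 51), (nat_lit 0), (nat_lit 3401), (nat_lit 1257), (nat_lit 573), (nat_lit 0), (nat_lit 0), (nat_lit 224500), [((nat_lit 390), [((nat_lit 29), (nat_lit 0), (nat_lit 898))])], ⟨(nat_lit 6), false, true, true, (nat_lit 242), (nat_lit 1581), (nat_lit 2237), [(nat_lit 1534240), (nat_lit 1531319), (nat_lit 1579788), (nat_lit 1577949), (nat_lit 1634017), (nat_lit 1626932), (nat_lit 1679566), (nat_lit 1673562)]⟩, ⟨(nat_lit 4), false, false, true, (nat_lit 180), (nat_lit 1581), (nat_lit 2237), [(nat_lit 1374660), (nat_lit 1375418), (nat_lit 1397434), (nat_lit 1398733), (nat_lit 1502945), (nat_lit 1498348), (nat_lit 1525719), (nat_lit 1521663)]⟩, (nat_lit 5018392), (nat_lit 40668359), (nat_lit 16227368), (nat_lit 10104273), (nat_lit 4), (nat_lit 0), [⟨(nat_lit 1), (nat_lit 86), (nat_lit 44), (nat_lit 100), (nat_lit 281593974)⟩], [⟨(nat_lit 1),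 (nat_lit 100), (nat_lit 38), (nat_lit 98), (nat_lit 194890465)⟩], [], [],
 ⟨⟨[(nat_lit 40), (nat_lit 80), (nat_lit 100)], [(nat_lit 0), (nat_lit 2514), (nat_lit 3562)], [((nat_lit 0), (nat_lit 0), (nat_lit 0)), ((nat_lit 1000), (nat_lit 446), (nat_lit 804)), ((nat_lit 1000), (nat_lit 443), (nat_lit 819))], ((nat_lit 44), (nat_lit 100), (nat_lit 84))⟩, (nat_lit 0), (nat_lit 72), (nat_lit 72), (nat_lit 0), (nat_lit 0), [(nat_lit 1587149618), (nat_lit 1714183218), (nat_lit 2241687200)], [(nat_lit 0), (nat_lit 0), (nat_lit 0)], [(nat_lit 24234709152), (nat_lit 24820083012), (nat_lit 26712904266), (nat_lit 27220833506), (nat_lit 26232181836), (nat_lit 26737496202), (nat_lit 28363211988), (nat_lit 28897074001)], (nat_lit 0), (nat_lit 0), (nat_lit 0), (nat_lit 0), (nat_lit 0), (nat_lit 0), [], [(nat_lit 3), (nat_lit 50), (nat_lit 289), (nat_lit 75), (nat_lit 9)]⟩,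
 ⟨⟨[(nat_lit 120), (nat_lit 160), (nat_lit 200)], [(nat_lit 0), (nat_lit 533), (nat_lit 3597)], [((nat_lit 0), (nat_lit 0), (nat_lit 0)), ((nat_lit 960), (nat_lit 1000), (nat_lit 200)), ((nat_lit 612), (nat_lit 1000), (nat_lit 732))], ((nat_lit 0), (nat_lit 0), (nat_lit 0))⟩, (nat_lit 273340), (nat_lit 802), (nat_lit 802), (nat_lit 0), (nat_lit 1027346), [(nat_lit 812736000), (nat_lit 1210944000), (nat_lit 1672800000)], [], [(nat_lit 3359497094), (nat_lit 3315575621), (nat_lit 3521723668), (nat_lit 3467694142), (nat_lit 4022329530), (nat_lit 3777860370), (nat_lit 3955019234), (nat_lit 3961012564)], (nat_lit 1271251), (nat_lit 1271251), (nat_lit 1271251), (nat_lit 1271251), (nat_lit 780000), (nat_lit 3072501), [(nat_lit 1695001), (nat_lit 1271251), (nat_lit 1271251)], [(nat_lit 29), (nat_lit 66), (nat_lit 483), (nat_lit 250), (nat_lit 10)]⟩,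
 ⟨⟨[(nat_lit 140), (nat_lit 180), (nat_lit 200)], [(nat_lit 0), (nat_lit 608), (nat_lit 3317)], [((nat_lit 0), (nat_lit 0), (nat_lit 0)), ((nat_lit 913), (nat_lit 1000), (nat_lit 217)), ((nat_lit 385), (nat_lit 1000), (nat_lit 814))], ((nat_lit 0), (nat_lit 0), (nat_lit 0))⟩, (nat_lit 15060), (nat_lit 300), (nat_lit 1240), (nat_lit 3932231), (nat_lit 1859932), [(nat_lit 501942000), (nat_lit 716958000), (nat_lit 836400000)], [], [(nat_lit 3338714220), (nat_lit 3292856592), (nat_lit 3176784282), (nat_lit 3130444529), (nat_lit 2952307618), (nat_lit 2904209524), (nat_lit 3318048981), (nat_lit 3457658528)], (nat_lit 936250), (nat_lit 1100000), (nat_lit 1100000), (nat_lit 1870626), (nat_lit 780000), (nat_lit 3072501), [(nat_lit 1977501), (nat_lit 1271251), (nat_lit 1271251)], [(nat_lit 32), (nat_lit 67), (nat_lit 456), (nat_lit 225), (nat_lit 10)]⟩⟩)) (.leaf ⟨(nat_lit 816), (nat_lit 122), (nat_lit 0), (nat_lit 62), (nat_lit 0), (nat_lit 3481), (nat_lit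 1684), (nat_lit 591), (nat_lit 0), (nat_lit 0), (nat_lit 204000), [((nat_lit 390), [((nat_lit 29), (nat_lit 0), (nat_lit 816))])], ⟨(nat_lit 6), false, true, true, (nat_lit 261), (nat_lit 1581), (nat_lit 2237), [(nat_lit 1579788), (nat_lit 1577949), (nat_lit 1602558), (nat_lit 1601260), (nat_lit 1708073), (nat_lit 1700880), (nat_lit 1730848), (nat_lit 1724195)]⟩, ⟨(nat_lit 4), false, false, true, (nat_lit 180), (nat_lit 1581), (nat_lit 2237), [(nat_lit 1374660), (nat_lit 1375418), (nat_lit 1397434), (nat_lit 1398733), (nat_lit 1502945), (nat_lit 1498348), (nat_lit 1525719), (nat_lit 1521663)]⟩, (nat_lit 5108672), (nat_lit 39187844), (nat_lit 17952229), (nat_lit 9859927), (nat_lit 4), (nat_lit 0), [⟨(nat_lit 1), (nat_lit 87), (nat_lit 38), (nat_lit 100), (nat_lit 254126844)⟩], [⟨(nat_lit 1), (nat_lit 100), (nat_lit 38), (nat_lit 98), (nat_lit 208120509)⟩], [], [],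
 ⟨⟨[(nat_lit 40), (nat_lit 80), (nat_lit 100)], [(nat_lit 0), (nat_lit 2514), (nat_lit 3562)], [((nat_lit 0), (nat_lit 0), (nat_lit 0)), ((nat_lit 1000), (nat_lit 446), (nat_lit 804)), ((nat_lit 1000), (nat_lit 443), (nat_lit 819))], ((nat_lit 44), (nat_lit 100), (nat_lit 84))⟩, (nat_lit 0), (nat_lit 77), (nat_lit 77), (nat_lit 0), (nat_lit 0), [(nat_lit 1606403237), (nat_lit 1985734408), (nat_lit 2607702400)], [(nat_lit 0), (nat_lit 0), (nat_lit 0)], [(nat_lit 24432787241), (nat_lit 25024429901), (nat_lit 27716149785), (nat_lit 28206896125), (nat_lit 26428130585), (nat_lit 26938390261), (nat_lit 29252977314), (nat_lit 29767023235)], (nat_lit 0), (nat_lit 0), (nat_lit 0), (nat_lit 0), (nat_lit 0), (nat_lit 0), [], [(nat_lit 3), (nat_lit 50), (nat_lit 289), (nat_lit 75), (nat_lit 9)]⟩,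
 ⟨⟨[(nat_lit 100), (nat_lit 140), (nat_lit 180)], [(nat_lit 0), (nat_lit 508), (nat_lit 2854)], [((nat_lit 0), (nat_lit 0), (nat_lit 0)), ((nat_lit 1000), (nat_lit 1000), (nat_lit 198)), ((nat_lit 777), (nat_lit 1000), (nat_lit 712))], ((nat_lit 100), (nat_lit 64), (nat_lit 83))⟩, (nat_lit 488727), (nat_lit 574), (nat_lit 574), (nat_lit 0), (nat_lit 741219), [(nat_lit 1150000000), (nat_lit 1810928000), (nat_lit 2586672000)], [], [(nat_lit 6026212622), (nat_lit 6022599110), (nat_lit 6331462787), (nat_lit 6306903908), (nat_lit 6444890068), (nat_lit 6407377188), (nat_lit 6759691131), (nat_lit 6725306070)], (nat_lit 1271251), (nat_lit 1271251), (nat_lit 1271251), (nat_lit 1271251), (nat_lit 780000), (nat_lit 3072501), [(nat_lit 1412501), (nat_lit 1271251), (nat_lit 1271251)], [(nat_lit 24), (nat_lit 63), (nat_lit 483), (nat_lit 250), (nat_lit 11)]⟩,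
 ⟨⟨[(nat_lit 140), (nat_lit 180), (nat_lit 200)], [(nat_lit 0), (nat_lit 608), (nat_lit 3317)], [((nat_lit 0), (nat_lit 0), (nat_lit 0)), ((nat_lit 913), (nat_lit 1000), (nat_lit 217)), ((nat_lit 385), (nat_lit 1000), (nat_lit 814))], ((nat_lit 0), (nat_lit 0), (nat_lit 0))⟩, (nat_lit 143171), (nat_lit 300), (nat_lit 1343), (nat_lit 4358601), (nat_lit 2094268), [(nat_lit 610204000), (nat_lit 871596000), (nat_lit 1016800000)], [], [(nat_lit 4328960832), (nat_lit 4284416756), (nat_lit 4168423758), (nat_lit 4123982956), (nat_lit 3894354836), (nat_lit 3849565355), (nat_lit 3792084267), (nat_lit 3942235083)], (nat_lit 936250), (nat_lit 1100000), (nat_lit 1100000), (nat_lit 1870626), (nat_lit 780000), (nat_lit 3072501), [(nat_lit 1977501), (nat_lit 1271251), (nat_lit 1271251)], [(nat_lit 32), (nat_lit 67), (nat_lit 456), (nat_lit 225), (nat_lit 10)]⟩⟩))) (.spl (nat_lit 0) (nat_lit 385) (.leaf ⟨(nat_lit 728), (nat_lit 177), (nat_lit 0), (nat_lit 95), (nat_lit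 0), (nat_lit 3682), (nat_lit 2956), (nat_lit 951), (nat_lit 0), (nat_lit 0), (nat_lit 298600), [((nat_lit 385), [((nat_lit 29), (nat_lit 1), (nat_lit 691)), ((nat_lit 43), (nat_lit 2), (nat_lit 37))])], ⟨(nat_lit 6), false, true, true, (nat_lit 253), (nat_lit 1936), (nat_lit 2237), [(nat_lit 1534240), (nat_lit 1532877), (nat_lit 1602562), (nat_lit 1601908), (nat_lit 1662525), (nat_lit 1658627), (nat_lit 1730848), (nat_lit 1727660)]⟩, ⟨(nat_lit 4), false, false, true, (nat_lit 175), (nat_lit 1936), (nat_lit 2237), [(nat_lit 1351886), (nat_lit 1352066), (nat_lit 1397434), (nat_lit 1398088), (nat_lit 1480171), (nat_lit 1477817), (nat_lit 1525719), (nat_lit 1523838)]⟩, (nat_lit 5035142), (nat_lit 40111121), (nat_lit 17255808), (nat_lit 9633071), (nat_lit 4), (nat_lit 0), [⟨(nat_lit 1), (nat_lit 89), (nat_lit 41), (nat_lit 100), (nat_lit 175626563)⟩], [⟨(nat_lit 1), (nat_lit 100), (nat_lit 41), (nat_lit 96), (nat_lit 161868762)⟩], [], [],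
 ⟨⟨[(nat_lit 40), (nat_lit 80), (nat_lit 100)], [(nat_lit 0), (nat_lit 2514), (nat_lit 3562)], [((nat_lit 0), (nat_lit 0), (nat_lit 0)), ((nat_lit 1000), (nat_lit 446), (nat_lit 804)), ((nat_lit 1000), (nat_lit 443), (nat_lit 819))], ((nat_lit 44), (nat_lit 100), (nat_lit 84))⟩, (nat_lit 7063), (nat_lit 159), (nat_lit 159), (nat_lit 0), (nat_lit 256997), [(nat_lit 1505748849), (nat_lit 1360913710), (nat_lit 1684974800)], [(nat_lit 0), (nat_lit 0), (nat_lit 0)], [(nat_lit 24864759945), (nat_lit 25108599990), (nat_lit 27848249116), (nat_lit 28098044182), (nat_lit 26481259860), (nat_lit 26728038884), (nat_lit 29462574517), (nat_lit 29725616698)], (nat_lit 1271251), (nat_lit 1271251), (nat_lit 1271251), (nat_lit 1271251), (nat_lit 1100000), (nat_lit 1870626), [(nat_lit 490000), (nat_lit 1100000), (nat_lit 1442501)], [(nat_lit 3), (nat_lit 50), (nat_lit 289), (nat_lit 75), (nat_lit 9)]⟩,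
 ⟨⟨[(nat_lit 120), (nat_lit 160), (nat_lit 200)], [(nat_lit 0), (nat_lit 533), (nat_lit 3597)], [((nat_lit 0), (nat_lit 0), (nat_lit 0)), ((nat_lit 960), (nat_lit 1000), (nat_lit 200)), ((nat_lit 612), (nat_lit 1000), (nat_lit 732))], ((nat_lit 0), (nat_lit 0), (nat_lit 0))⟩, (nat_lit 750782), (nat_lit 507), (nat_lit 507), (nat_lit 0), (nat_lit 486727), [(nat_lit 2167296000), (nat_lit 3229184000), (nat_lit 4460800000)], [], [(nat_lit 9299711718), (nat_lit 9239754996), (nat_lit 9953244175), (nat_lit 9769975610), (nat_lit 10592968376), (nat_lit 9970797156), (nat_lit 10658301032), (nat_lit 10480362050)], (nat_lit 1271251), (nat_lit 1271251), (nat_lit 1271251), (nat_lit 1271251), (nat_lit 780000), (nat_lit 3072501), [(nat_lit 1695001), (nat_lit 1271251), (nat_lit 1271251)], [(nat_lit 29), (nat_lit 66), (nat_lit 483), (nat_lit 250), (nat_lit 10)]⟩,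
 ⟨⟨[(nat_lit 140), (nat_lit 180), (nat_lit 200)], [(nat_lit 0), (nat_lit 0), (nat_lit 2835)], [((nat_lit 0), (nat_lit 0), (nat_lit 0)), ((nat_lit 0), (nat_lit 0), (nat_lit 0)), ((nat_lit 363), (nat_lit 1000), (nat_lit 798))], ((nat_lit 0), (nat_lit 0), (nat_lit 0))⟩, (nat_lit 26138), (nat_lit 300), (nat_lit 1087), (nat_lit 7419500), (nat_lit 1506609), [(nat_lit 934990000), (nat_lit 1335510000), (nat_lit 1558000000)], [], [(nat_lit 7054854782), (nat_lit 6907179011), (nat_lit 6804748362), (nat_lit 6656813654), (nat_lit 6406467892), (nat_lit 6255471469), (nat_lit 6138315250), (nat_lit 6152914959)], (nat_lit 780000), (nat_lit 1100000), (nat_lit 1100000), (nat_lit 1870626), (nat_lit 780000), (nat_lit 3072501), [(nat_lit 1977501), (nat_lit 1271251), (nat_lit 1271251)], [(nat_lit 32), (nat_lit 67), (nat_lit 456), (nat_lit 225), (nat_lit 10)]⟩⟩) (.trX (nat_lit 3) (nat_lit 0) (nat_lit 1) (nat_lit 39) (nat_lit 85) (nat_lit 100) (nat_lit 320) (.trX (nat_lit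 4) (nat_lit 0) (nat_lit 2) (nat_lit 39) (nat_lit 100) (nat_lit 100) (nat_lit 240) (.leaf ⟨(nat_lit 788), (nat_lit 141), (nat_lit 0), (nat_lit 71), (nat_lit 0), (nat_lit 3656), (nat_lit 2344), (nat_lit 727), (nat_lit 0), (nat_lit 0), (nat_lit 197000), [((nat_lit 390), [((nat_lit 29), (nat_lit 0), (nat_lit 788))])], ⟨(nat_lit 6), false, true, true, (nat_lit 249), (nat_lit 1581), (nat_lit 1937), [(nat_lit 1532877), (nat_lit 1531319), (nat_lit 1601908), (nat_lit 1601263), (nat_lit 1644655), (nat_lit 1640591), (nat_lit 1713688), (nat_lit 1710536)]⟩, ⟨(nat_lit 4), false, false, true, (nat_lit 172), (nat_lit 1581), (nat_lit 1937), [(nat_lit 1352066), (nat_lit 1352103), (nat_lit 1398088), (nat_lit 1398733), (nat_lit 1463844), (nat_lit 1461374), (nat_lit 1509866), (nat_lit 1508004)]⟩, (nat_lit 4991124), (nat_lit 40587659), (nat_lit 16976465), (nat_lit 9435876), (nat_lit 4), (nat_lit 0), [⟨(nat_lit 1), (nat_lit 92), (nat_lit 35), (nat_lit 100), (nat_lit 260070010)⟩],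 [⟨(nat_lit 1), (nat_lit 100), (nat_lit 35), (nat_lit 96), (nat_lit 214713580)⟩], [], [],
 ⟨⟨[(nat_lit 40), (nat_lit 60), (nat_lit 80)], [(nat_lit 0), (nat_lit 1803), (nat_lit 2780)], [((nat_lit 0), (nat_lit 0), (nat_lit 0)), ((nat_lit 1000), (nat_lit 417), (nat_lit 754)), ((nat_lit 1000), (nat_lit 413), (nat_lit 764))], ((nat_lit 39), (nat_lit 100), (nat_lit 85))⟩, (nat_lit 0), (nat_lit 147), (nat_lit 147), (nat_lit 0), (nat_lit 287155), [(nat_lit 1612977602), (nat_lit 1538199983), (nat_lit 2078459200)], [(nat_lit 0), (nat_lit 0), (nat_lit 0)], [(nat_lit 24908537364), (nat_lit 25193081892), (nat_lit 27615277032), (nat_lit 27857141148), (nat_lit 26497459896), (nat_lit 26747718780), (nat_lit 28942518292), (nat_lit 29216609560)], (nat_lit 1271251), (nat_lit 1271251), (nat_lit 1271251), (nat_lit 1271251), (nat_lit 1100000), (nat_lit 1785001), [(nat_lit 490000), (nat_lit 780000), (nat_lit 1100000)], [(nat_lit 2), (nat_lit 44), (nat_lit 203), (nat_lit 0),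 (nat_lit 7)]⟩,
 ⟨⟨[(nat_lit 120), (nat_lit 160), (nat_lit 200)], [(nat_lit 0), (nat_lit 533), (nat_lit 3597)], [((nat_lit 0), (nat_lit 0), (nat_lit 0)), ((nat_lit 960), (nat_lit 1000), (nat_lit 200)), ((nat_lit 612), (nat_lit 1000), (nat_lit 732))], ((nat_lit 0), (nat_lit 0), (nat_lit 0))⟩, (nat_lit 589559), (nat_lit 546), (nat_lit 546), (nat_lit 0), (nat_lit 575748), [(nat_lit 1689216000), (nat_lit 2516864000), (nat_lit 3476800000)], [], [(nat_lit 7182171924), (nat_lit 7130254794), (nat_lit 7600769226), (nat_lit 7463652570), (nat_lit 8269762928), (nat_lit 7740774085), (nat_lit 8194080589), (nat_lit 8053396928)], (nat_lit 1271251), (nat_lit 1271251), (nat_lit 1271251), (nat_lit 1271251), (nat_lit 780000), (nat_lit 3072501), [(nat_lit 1695001), (nat_lit 1271251), (nat_lit 1271251)], [(nat_lit 29), (nat_lit 66), (nat_lit 483), (nat_lit 250), (nat_lit 10)]⟩,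
 ⟨⟨[(nat_lit 140), (nat_lit 180), (nat_lit 200)], [(nat_lit 0), (nat_lit 0), (nat_lit 2835)], [((nat_lit 0), (nat_lit 0), (nat_lit 0)), ((nat_lit 0), (nat_lit 0), (nat_lit 0)), ((nat_lit 363), (nat_lit 1000), (nat_lit 798))], ((nat_lit 0), (nat_lit 0), (nat_lit 0))⟩, (nat_lit 19534), (nat_lit 300), (nat_lit 1179), (nat_lit 5545106), (nat_lit 1720211), [(nat_lit 698782000), (nat_lit 998118000), (nat_lit 1164400000)], [], [(nat_lit 5208459559), (nat_lit 5095840430), (nat_lit 5027960694), (nat_lit 4915449608), (nat_lit 4687403697), (nat_lit 4573140644), (nat_lit 4498131381), (nat_lit 4533261116)], (nat_lit 780000), (nat_lit 1100000), (nat_lit 1100000), (nat_lit 1785001), (nat_lit 780000), (nat_lit 3072501), [(nat_lit 1977501), (nat_lit 1271251), (nat_lit 1271251)], [(nat_lit 32), (nat_lit 67), (nat_lit 428), (nat_lit 200), (nat_lit 9)]⟩⟩)))))) (.spl (nat_lit 1) (nat_lit 220) (.trX (nat_lit 3) (nat_lit 0) (nat_lit 1) (nat_lit 44) (nat_lit 86) (nat_lit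 100) (nat_lit 310) (.spl (nat_lit 6) (nat_lit 80) (.leaf ⟨(nat_lit 894), (nat_lit 27), (nat_lit 0), (nat_lit 79), (nat_lit 0), (nat_lit 3683), (nat_lit 1437), (nat_lit 877), (nat_lit 0), (nat_lit 0), (nat_lit 235050), [((nat_lit 390), [((nat_lit 28), (nat_lit 0), (nat_lit 817)), ((nat_lit 28), (nat_lit 1), (nat_lit 77))])], ⟨(nat_lit 6), false, true, true, (nat_lit 242), (nat_lit 1581), (nat_lit 2237), [(nat_lit 1534240), (nat_lit 1531319), (nat_lit 1579788), (nat_lit 1577949), (nat_lit 1634017), (nat_lit 1626932), (nat_lit 1679566), (nat_lit 1673562)]⟩, ⟨(nat_lit 4), false, false, true, (nat_lit 195), (nat_lit 1581), (nat_lit 2237), [(nat_lit 1397434), (nat_lit 1398733), (nat_lit 1420170), (nat_lit 1422009), (nat_lit 1554227), (nat_lit 1548981), (nat_lit 1577001), (nat_lit 1572296)]⟩, (nat_lit 5132285), (nat_lit 39748397), (nat_lit 15977410), (nat_lit 11274193), (nat_lit 4), (nat_lit 0), [⟨(nat_lit 1), (nat_lit 93), (nat_lit 38), (nat_lit 100), (nat_lit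 380039428)⟩], [⟨(nat_lit 1), (nat_lit 98), (nat_lit 38), (nat_lit 100), (nat_lit 151765424)⟩], [], [],
 ⟨⟨[(nat_lit 40), (nat_lit 80), (nat_lit 100)], [(nat_lit 0), (nat_lit 2514), (nat_lit 3562)], [((nat_lit 0), (nat_lit 0), (nat_lit 0)), ((nat_lit 1000), (nat_lit 446), (nat_lit 804)), ((nat_lit 1000), (nat_lit 443), (nat_lit 819))], ((nat_lit 44), (nat_lit 100), (nat_lit 82))⟩, (nat_lit 478), (nat_lit 137), (nat_lit 137), (nat_lit 0), (nat_lit 186037), [(nat_lit 1575152855), (nat_lit 2116292838), (nat_lit 1609946762)], [(nat_lit 0), (nat_lit 0), (nat_lit 0)], [(nat_lit 24535103507), (nat_lit 25121871595), (nat_lit 27001751080), (nat_lit 27524493941), (nat_lit 27060560857), (nat_lit 27535501827), (nat_lit 29269549995), (nat_lit 29799734038)], (nat_lit 1271251), (nat_lit 1271251), (nat_lit 1271251), (nat_lit 1271251), (nat_lit 1100000), (nat_lit 2041876), [(nat_lit 490000), (nat_lit 1100000), (nat_lit 1442501)], [(nat_lit 3), (nat_lit 50), (nat_lit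 289), (nat_lit 75), (nat_lit 9)]⟩,
 ⟨⟨[(nat_lit 120), (nat_lit 160), (nat_lit 200)], [(nat_lit 0), (nat_lit 533), (nat_lit 3597)], [((nat_lit 0), (nat_lit 0), (nat_lit 0)), ((nat_lit 960), (nat_lit 1000), (nat_lit 200)), ((nat_lit 612), (nat_lit 1000), (nat_lit 732))], ((nat_lit 0), (nat_lit 0), (nat_lit 0))⟩, (nat_lit 405947), (nat_lit 717), (nat_lit 717), (nat_lit 0), (nat_lit 890943), [(nat_lit 844608000), (nat_lit 1258432000), (nat_lit 1738400000)], [], [(nat_lit 2952602529), (nat_lit 2894728888), (nat_lit 3185774602), (nat_lit 3167068033), (nat_lit 4224047074), (nat_lit 3822007693), (nat_lit 4266299221), (nat_lit 4263361082)], (nat_lit 1271251), (nat_lit 1271251), (nat_lit 1271251), (nat_lit 1271251), (nat_lit 780000), (nat_lit 3072501), [(nat_lit 1695001), (nat_lit 1271251), (nat_lit 1271251)], [(nat_lit 29), (nat_lit 66), (nat_lit 483), (nat_lit 250), (nat_lit 10)]⟩,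
 ⟨⟨[(nat_lit 120), (nat_lit 160), (nat_lit 200)], [(nat_lit 0), (nat_lit 0), (nat_lit 3198)], [((nat_lit 0), (nat_lit 0), (nat_lit 0)), ((nat_lit 0), (nat_lit 0), (nat_lit 0)), ((nat_lit 572), (nat_lit 1000), (nat_lit 714))], ((nat_lit 0), (nat_lit 0), (nat_lit 0))⟩, (nat_lit 38537), (nat_lit 300), (nat_lit 920), (nat_lit 5861800), (nat_lit 1217360), [(nat_lit 629472000), (nat_lit 937888000), (nat_lit 1295600000)], [], [(nat_lit 4864555048), (nat_lit 4815538728), (nat_lit 4628132723), (nat_lit 4576750858), (nat_lit 4364114436), (nat_lit 4308145599), (nat_lit 5169608619), (nat_lit 5418022408)], (nat_lit 1100000), (nat_lit 1271251), (nat_lit 1100000), (nat_lit 2041876), (nat_lit 780000), (nat_lit 3072501), [(nat_lit 1695001), (nat_lit 1271251), (nat_lit 1271251)], [(nat_lit 29), (nat_lit 66), (nat_lit 456), (nat_lit 225), (nat_lit 10)]⟩⟩) (.dle (nat_lit 0)))) (.leaf ⟨(nat_lit 702), (nat_lit 173), (nat_lit 0), (nat_lit 125), (nat_lit 0), (nat_lit 3422),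 (nat_lit 2689), (nat_lit 1204), (nat_lit 0), (nat_lit 0), (nat_lit 337200), [((nat_lit 390), [((nat_lit 29), (nat_lit 1), (nat_lit 420)), ((nat_lit 43), (nat_lit 2), (nat_lit 282))])], ⟨(nat_lit 6), false, true, true, (nat_lit 261), (nat_lit 1581), (nat_lit 2237), [(nat_lit 1579788), (nat_lit 1577949), (nat_lit 1602558), (nat_lit 1601260), (nat_lit 1708073), (nat_lit 1700880), (nat_lit 1730848), (nat_lit 1724195)]⟩, ⟨(nat_lit 4), false, false, true, (nat_lit 195), (nat_lit 1581), (nat_lit 2237), [(nat_lit 1397434), (nat_lit 1398733), (nat_lit 1420170), (nat_lit 1422009), (nat_lit 1554227), (nat_lit 1548981), (nat_lit 1577001), (nat_lit 1572296)]⟩, (nat_lit 5219670), (nat_lit 38333550), (nat_lit 17668720), (nat_lit 10997730), (nat_lit 4), (nat_lit 0), [⟨(nat_lit 1), (nat_lit 87), (nat_lit 38), (nat_lit 100), (nat_lit 186796232)⟩], [⟨(nat_lit 1), (nat_lit 98), (nat_lit 38), (nat_lit 100), (nat_lit 155552987)⟩], [], [],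
 ⟨⟨[(nat_lit 40), (nat_lit 80), (nat_lit 100)], [(nat_lit 0), (nat_lit 2514), (nat_lit 3562)], [((nat_lit 0), (nat_lit 0), (nat_lit 0)), ((nat_lit 1000), (nat_lit 446), (nat_lit 804)), ((nat_lit 1000), (nat_lit 443), (nat_lit 819))], ((nat_lit 44), (nat_lit 100), (nat_lit 84))⟩, (nat_lit 0), (nat_lit 148), (nat_lit 148), (nat_lit 0), (nat_lit 211870), [(nat_lit 1515004025), (nat_lit 1093971096), (nat_lit 1292408800)], [(nat_lit 0), (nat_lit 0), (nat_lit 0)], [(nat_lit 24829341475), (nat_lit 25303922747), (nat_lit 27717238949), (nat_lit 28152551109), (nat_lit 27146322039), (nat_lit 27581610615), (nat_lit 29783315788), (nat_lit 30274124232)], (nat_lit 1271251), (nat_lit 1271251), (nat_lit 1271251), (nat_lit 1271251), (nat_lit 1100000), (nat_lit 2041876), [(nat_lit 490000), (nat_lit 1100000), (nat_lit 1442501)], [(nat_lit 3), (nat_lit 50), (nat_lit 289), (nat_lit 75), (nat_lit 9)]⟩,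
 ⟨⟨[(nat_lit 100), (nat_lit 140), (nat_lit 180)], [(nat_lit 0), (nat_lit 508), (nat_lit 2854)], [((nat_lit 0), (nat_lit 0), (nat_lit 0)), ((nat_lit 1000), (nat_lit 1000), (nat_lit 198)), ((nat_lit 777), (nat_lit 1000), (nat_lit 712))], ((nat_lit 100), (nat_lit 64), (nat_lit 83))⟩, (nat_lit 960714), (nat_lit 491), (nat_lit 491), (nat_lit 0), (nat_lit 638461), [(nat_lit 1862500000), (nat_lit 2932916000), (nat_lit 4189284000)], [], [(nat_lit 8492245980), (nat_lit 8528805258), (nat_lit 9375988961), (nat_lit 9383220192), (nat_lit 10161599731), (nat_lit 10139184808), (nat_lit 10820813933), (nat_lit 10847806988)], (nat_lit 1271251), (nat_lit 1271251), (nat_lit 1271251), (nat_lit 1271251), (nat_lit 780000), (nat_lit 3072501), [(nat_lit 1412501), (nat_lit 1271251), (nat_lit 1271251)], [(nat_lit 24), (nat_lit 63), (nat_lit 483), (nat_lit 250), (nat_lit 11)]⟩,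
 ⟨⟨[(nat_lit 120), (nat_lit 160), (nat_lit 200)], [(nat_lit 0), (nat_lit 0), (nat_lit 3198)], [((nat_lit 0), (nat_lit 0), (nat_lit 0)), ((nat_lit 0), (nat_lit 0), (nat_lit 0)), ((nat_lit 572), (nat_lit 1000), (nat_lit 714))], ((nat_lit 0), (nat_lit 0), (nat_lit 0))⟩, (nat_lit 60976), (nat_lit 300), (nat_lit 1012), (nat_lit 9275000), (nat_lit 1383547), [(nat_lit 996000000), (nat_lit 1484000000), (nat_lit 2050000000)], [], [(nat_lit 8779358710), (nat_lit 8708534946), (nat_lit 8426345042), (nat_lit 8353718340), (nat_lit 7998115964), (nat_lit 7921694703), (nat_lit 7720625372), (nat_lit 8072995868)], (nat_lit 1100000), (nat_lit 1271251), (nat_lit 1100000), (nat_lit 2041876), (nat_lit 780000), (nat_lit 3072501), [(nat_lit 1695001), (nat_lit 1271251), (nat_lit 1271251)], [(nat_lit 29), (nat_lit 66), (nat_lit 456), (nat_lit 225), (nat_lit 10)]⟩⟩)))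
noncomputable def c13_41 : Tr Lf :=
 (.spl (nat_lit 4) (nat_lit 200) (.leaf ⟨(nat_lit 1000), (nat_lit 0), (nat_lit 0), (nat_lit 0), (nat_lit 5366), (nat_lit 3257), (nat_lit 0), (nat_lit 0), (nat_lit 0), (nat_lit 0), (nat_lit 250000), [((nat_lit 400), [((nat_lit 29), (nat_lit 0), (nat_lit 1000))])], ⟨(nat_lit 6), false, true, true, (nat_lit 241), (nat_lit 0), (nat_lit 1582), [(nat_lit 1531317), (nat_lit 1524997), (nat_lit 1601257), (nat_lit 1599992), (nat_lit 1613268), (nat_lit 1599994), (nat_lit 1683216), (nat_lit 1674997)]⟩, ⟨(nat_lit 4), false, false, true, (nat_lit 165), (nat_lit 0), (nat_lit 1582), [(nat_lit 1352101), (nat_lit 1349997), (nat_lit 1421394), (nat_lit 1424345), (nat_lit 1406735), (nat_lit 1399996), (nat_lit 1476683), (nat_lit 1474999)]⟩, (nat_lit 4893006), (nat_lit 41589579), (nat_lit 16421053), (nat_lit 8989368), (nat_lit 0), (nat_lit 0), [⟨(nat_lit 1), (nat_lit 89), (nat_lit 32), (nat_lit 100), (nat_lit 529548901)⟩], [], [], [],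
 ⟨⟨[(nat_lit 40), (nat_lit 60), (nat_lit 80)], [(nat_lit 0), (nat_lit 2136), (nat_lit 3185)], [((nat_lit 0), (nat_lit 0), (nat_lit 0)), ((nat_lit 1000), (nat_lit 343), (nat_lit 808)), ((nat_lit 1000), (nat_lit 338), (nat_lit 820))], ((nat_lit 32), (nat_lit 100), (nat_lit 86))⟩, (nat_lit 0), (nat_lit 69), (nat_lit 69), (nat_lit 0), (nat_lit 0), [(nat_lit 1563200002), (nat_lit 1231531667), (nat_lit 1376400000)], [(nat_lit 0), (nat_lit 0), (nat_lit 0)], [(nat_lit 24613974434), (nat_lit 25188064454), (nat_lit 26650533226), (nat_lit 27208180026), (nat_lit 25426411808), (nat_lit 25966220726), (nat_lit 27341347448), (nat_lit 27926313949)], (nat_lit 0), (nat_lit 0), (nat_lit 0), (nat_lit 0), (nat_lit 0), (nat_lit 0), [], [(nat_lit 2), (nat_lit 44), (nat_lit 203), (nat_lit 0), (nat_lit 7)]⟩,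
 Rw.none,
 Rw.none⟩) (.spl (nat_lit 3) (nat_lit 280) (.spl (nat_lit 1) (nat_lit 220) (.leaf ⟨(nat_lit 1000), (nat_lit 0), (nat_lit 0), (nat_lit 0), (nat_lit 5424), (nat_lit 3203), (nat_lit 0), (nat_lit 0), (nat_lit 0), (nat_lit 0), (nat_lit 250000), [((nat_lit 400), [((nat_lit 29), (nat_lit 0), (nat_lit 1000))])], ⟨(nat_lit 6), false, true, true, (nat_lit 231), (nat_lit 0), (nat_lit 1582), [(nat_lit 1531317), (nat_lit 1524997), (nat_lit 1577949), (nat_lit 1574999), (nat_lit 1585951), (nat_lit 1574995), (nat_lit 1632583), (nat_lit 1624997)]⟩, ⟨(nat_lit 5), false, false, true, (nat_lit 189), (nat_lit 0), (nat_lit 1582), [(nat_lit 1406735), (nat_lit 1399996), (nat_lit 1476683), (nat_lit 1474999), (nat_lit 1475027), (nat_lit 1462493), (nat_lit 1544976), (nat_lit 1537497)]⟩, (nat_lit 5033691), (nat_lit 40882193), (nat_lit 15153528), (nat_lit 10964279), (nat_lit 0), (nat_lit 0), [⟨(nat_lit 1), (nat_lit 92), (nat_lit 31), (nat_lit 100), (nat_lit 78470925)⟩],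 [⟨(nat_lit 1), (nat_lit 98), (nat_lit 31), (nat_lit 100), (nat_lit 420341954)⟩], [], [],
 ⟨⟨[(nat_lit 40), (nat_lit 60), (nat_lit 80)], [(nat_lit 0), (nat_lit 2136), (nat_lit 3185)], [((nat_lit 0), (nat_lit 0), (nat_lit 0)), ((nat_lit 1000), (nat_lit 343), (nat_lit 808)), ((nat_lit 1000), (nat_lit 338), (nat_lit 820))], ((nat_lit 32), (nat_lit 100), (nat_lit 86))⟩, (nat_lit 0), (nat_lit 58), (nat_lit 58), (nat_lit 0), (nat_lit 0), [(nat_lit 1563200057), (nat_lit 1094840418), (nat_lit 1376400000)], [(nat_lit 0), (nat_lit 0), (nat_lit 0)], [(nat_lit 25179495494), (nat_lit 25769624042), (nat_lit 26567586670), (nat_lit 27143832003), (nat_lit 26392152866), (nat_lit 26933695400), (nat_lit 27665908761), (nat_lit 28221685951)], (nat_lit 0), (nat_lit 0), (nat_lit 0), (nat_lit 0), (nat_lit 0), (nat_lit 0), [], [(nat_lit 2), (nat_lit 44), (nat_lit 203), (nat_lit 0), (nat_lit 6)]⟩,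
 Rw.none,
 Rw.none⟩) (.leaf ⟨(nat_lit 1000), (nat_lit 0), (nat_lit 0), (nat_lit 0), (nat_lit 5274), (nat_lit 3203), (nat_lit 0), (nat_lit 0), (nat_lit 0), (nat_lit 0), (nat_lit 250000), [((nat_lit 400), [((nat_lit 29), (nat_lit 0), (nat_lit 1000))])], ⟨(nat_lit 6), false, true, true, (nat_lit 246), (nat_lit 0), (nat_lit 1582), [(nat_lit 1577949), (nat_lit 1574999), (nat_lit 1601257), (nat_lit 1599992), (nat_lit 1632583), (nat_lit 1624997), (nat_lit 1655899), (nat_lit 1649997)]⟩, ⟨(nat_lit 5), false, false, true, (nat_lit 189), (nat_lit 0), (nat_lit 1582), [(nat_lit 1406735), (nat_lit 1399996), (nat_lit 1476683), (nat_lit 1474999), (nat_lit 1475027), (nat_lit 1462493), (nat_lit 1544976), (nat_lit 1537497)]⟩, (nat_lit 5110528), (nat_lit 39799689), (nat_lit 16426576), (nat_lit 10773735), (nat_lit 0), (nat_lit 0), [], [⟨(nat_lit 1), (nat_lit 98), (nat_lit 31), (nat_lit 100), (nat_lit 425255706)⟩], [], [],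
 ⟨⟨[(nat_lit 40), (nat_lit 60), (nat_lit 80)], [(nat_lit 0), (nat_lit 2136), (nat_lit 3185)], [((nat_lit 0), (nat_lit 0), (nat_lit 0)), ((nat_lit 1000), (nat_lit 343), (nat_lit 808)), ((nat_lit 1000), (nat_lit 338), (nat_lit 820))], ((nat_lit 32), (nat_lit 100), (nat_lit 86))⟩, (nat_lit 0), (nat_lit 58), (nat_lit 58), (nat_lit 0), (nat_lit 0), [(nat_lit 1563200002), (nat_lit 1103774560), (nat_lit 1376400000)], [(nat_lit 0), (nat_lit 0), (nat_lit 0)], [(nat_lit 25179495384), (nat_lit 25769623932), (nat_lit 26567586560), (nat_lit 27143832003), (nat_lit 26392152756), (nat_lit 26933695290), (nat_lit 27665908651), (nat_lit 28221685951)], (nat_lit 0), (nat_lit 0), (nat_lit 0), (nat_lit 0), (nat_lit 0), (nat_lit 0), [], [(nat_lit 2), (nat_lit 44), (nat_lit 203), (nat_lit 0), (nat_lit 6)]⟩,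
 Rw.none,
 Rw.none⟩)) (.trZ (nat_lit 3) (nat_lit 4) (nat_lit 5) (nat_lit 100) (nat_lit 92) (nat_lit 40) (nat_lit 10) (.spl (nat_lit 6) (nat_lit 68) (.leaf ⟨(nat_lit 1000), (nat_lit 0), (nat_lit 0), (nat_lit 0), (nat_lit 0), (nat_lit 3204), (nat_lit 0), (nat_lit 0), (nat_lit 0), (nat_lit 0), (nat_lit 250000), [((nat_lit 400), [((nat_lit 28), (nat_lit 0), (nat_lit 1000))])], ⟨(nat_lit 7), false, true, true, (nat_lit 252), (nat_lit 0), (nat_lit 1582), [(nat_lit 1585951), (nat_lit 1574995), (nat_lit 1655899), (nat_lit 1649997), (nat_lit 1613268), (nat_lit 1599994), (nat_lit 1683216), (nat_lit 1674997)]⟩, ⟨(nat_lit 5), false, false, true, (nat_lit 189), (nat_lit 0), (nat_lit 1582), [(nat_lit 1406735), (nat_lit 1399996), (nat_lit 1476683), (nat_lit 1474999), (nat_lit 1475027), (nat_lit 1462493), (nat_lit 1544976), (nat_lit 1537497)]⟩, (nat_lit 5138913), (nat_lit 39351421), (nat_lit 16956447), (nat_lit 10692132), (nat_lit 0), (nat_lit 0), [⟨(nat_lit 1),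 (nat_lit 89), (nat_lit 32), (nat_lit 100), (nat_lit 518188388)⟩], [⟨(nat_lit 1), (nat_lit 98), (nat_lit 31), (nat_lit 100), (nat_lit 381680787)⟩], [], [],
 ⟨⟨[(nat_lit 40), (nat_lit 60), (nat_lit 80)], [(nat_lit 0), (nat_lit 2136), (nat_lit 3185)], [((nat_lit 0), (nat_lit 0), (nat_lit 0)), ((nat_lit 1000), (nat_lit 343), (nat_lit 808)), ((nat_lit 1000), (nat_lit 338), (nat_lit 820))], ((nat_lit 34), (nat_lit 100), (nat_lit 82))⟩, (nat_lit 0), (nat_lit 61), (nat_lit 61), (nat_lit 0), (nat_lit 0), [(nat_lit 1563200043), (nat_lit 1186371217), (nat_lit 1376400000)], [(nat_lit 0), (nat_lit 0), (nat_lit 0)], [(nat_lit 26757280717), (nat_lit 27254091715), (nat_lit 27393285927), (nat_lit 27870481287), (nat_lit 27765709106), (nat_lit 28223593284), (nat_lit 28350818231), (nat_lit 28883601510)], (nat_lit 0), (nat_lit 0), (nat_lit 0), (nat_lit 0), (nat_lit 0), (nat_lit 0), [], [(nat_lit 2), (nat_lit 44), (nat_lit 203), (nat_lit 0), (nat_lit 6)]⟩,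
 Rw.none,
 Rw.none⟩) (.spl (nat_lit 1) (nat_lit 220) (.trX (nat_lit 3) (nat_lit 0) (nat_lit 1) (nat_lit 31) (nat_lit 92) (nat_lit 100) (nat_lit 290) (.leaf ⟨(nat_lit 974), (nat_lit 11), (nat_lit 0), (nat_lit 15), (nat_lit 6594), (nat_lit 3211), (nat_lit 324), (nat_lit 220), (nat_lit 0), (nat_lit 0), (nat_lit 243500), [((nat_lit 400), [((nat_lit 29), (nat_lit 0), (nat_lit 974))])], ⟨(nat_lit 7), false, true, true, (nat_lit 244), (nat_lit 0), (nat_lit 1582), [(nat_lit 1585951), (nat_lit 1574995), (nat_lit 1632583), (nat_lit 1624997), (nat_lit 1599609), (nat_lit 1587494), (nat_lit 1646241), (nat_lit 1637496)]⟩, ⟨(nat_lit 5), false, false, true, (nat_lit 189), (nat_lit 0), (nat_lit 1582), [(nat_lit 1406735), (nat_lit 1399996), (nat_lit 1476683), (nat_lit 1474999), (nat_lit 1475027), (nat_lit 1462493), (nat_lit 1544976), (nat_lit 1537497)]⟩, (nat_lit 5103566), (nat_lit 39905083), (nat_lit 16302221), (nat_lit 10792696), (nat_lit 5), (nat_lit 0), [⟨(nat_lit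 1), (nat_lit 92), (nat_lit 31), (nat_lit 100), (nat_lit 614714996)⟩], [⟨(nat_lit 1), (nat_lit 98), (nat_lit 31), (nat_lit 100), (nat_lit 389079426)⟩], [], [⟨(nat_lit 0), (nat_lit 100), (nat_lit 91), (nat_lit 54), (nat_lit 2388659)⟩],
 ⟨⟨[(nat_lit 40), (nat_lit 60), (nat_lit 80)], [(nat_lit 0), (nat_lit 2136), (nat_lit 3185)], [((nat_lit 0), (nat_lit 0), (nat_lit 0)), ((nat_lit 1000), (nat_lit 343), (nat_lit 808)), ((nat_lit 1000), (nat_lit 338), (nat_lit 820))], ((nat_lit 32), (nat_lit 100), (nat_lit 86))⟩, (nat_lit 0), (nat_lit 60), (nat_lit 60), (nat_lit 0), (nat_lit 0), [(nat_lit 1569304801), (nat_lit 1140138705), (nat_lit 1462501600)], [(nat_lit 0), (nat_lit 0), (nat_lit 0)], [(nat_lit 26574427106), (nat_lit 27152484811), (nat_lit 26921657217), (nat_lit 27513322889), (nat_lit 27673235772), (nat_lit 28230014885), (nat_lit 28015573819), (nat_lit 28560591837)], (nat_lit 0), (nat_lit 0), (nat_lit 0), (nat_lit 0), (nat_lit 0), (nat_lit 0), [], [(nat_lit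 2), (nat_lit 44), (nat_lit 203), (nat_lit 0), (nat_lit 6)]⟩,
 ⟨⟨[(nat_lit 120), (nat_lit 160), (nat_lit 200)], [(nat_lit 0), (nat_lit 533), (nat_lit 3597)], [((nat_lit 0), (nat_lit 0), (nat_lit 0)), ((nat_lit 960), (nat_lit 1000), (nat_lit 200)), ((nat_lit 612), (nat_lit 1000), (nat_lit 732))], ((nat_lit 0), (nat_lit 0), (nat_lit 0))⟩, (nat_lit 94491), (nat_lit 867), (nat_lit 867), (nat_lit 0), (nat_lit 1028280), [(nat_lit 207168000), (nat_lit 308672000), (nat_lit 426400000)], [], [(nat_lit 1036564478), (nat_lit 1023825856), (nat_lit 1041365636), (nat_lit 1038549604), (nat_lit 1248414868), (nat_lit 971116876), (nat_lit 1178666740), (nat_lit 984127414)], (nat_lit 1271251), (nat_lit 1271251), (nat_lit 1271251), (nat_lit 1271251), (nat_lit 54688), (nat_lit 2845626), [(nat_lit 1695001), (nat_lit 1271251), (nat_lit 1271251)], [(nat_lit 29), (nat_lit 66), (nat_lit 483), (nat_lit 250), (nat_lit 10)]⟩,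
 ⟨⟨[(nat_lit 140), (nat_lit 180), (nat_lit 200)], [(nat_lit 0), (nat_lit 0), (nat_lit 2835)], [((nat_lit 0), (nat_lit 0), (nat_lit 0)), ((nat_lit 0), (nat_lit 0), (nat_lit 0)), ((nat_lit 363), (nat_lit 1000), (nat_lit 798))], ((nat_lit 0), (nat_lit 0), (nat_lit 0))⟩, (nat_lit 4127), (nat_lit 300), (nat_lit 1579), (nat_lit 1171500), (nat_lit 2467583), [(nat_lit 147630000), (nat_lit 210870000), (nat_lit 246000000)], [], [(nat_lit 990955408), (nat_lit 941619938), (nat_lit 966586381), (nat_lit 916560645), (nat_lit 1128775420), (nat_lit 1304606140), (nat_lit 888729240), (nat_lit 1068943378)], (nat_lit 780000), (nat_lit 1271251), (nat_lit 1271251), (nat_lit 1271251), (nat_lit 54688), (nat_lit 2845626), [(nat_lit 1977501), (nat_lit 1271251), (nat_lit 1271251)], [(nat_lit 32), (nat_lit 67), (nat_lit 499), (nat_lit 225), (nat_lit 11)]⟩⟩)) (.leaf ⟨(nat_lit 838), (nat_lit 124), (nat_lit 0), (nat_lit 38), (nat_lit 0), (nat_lit 3524), (nat_lit 1620), (nat_lit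 422), (nat_lit 0), (nat_lit 0), (nat_lit 209500), [((nat_lit 400), [((nat_lit 29), (nat_lit 0), (nat_lit 838))])], ⟨(nat_lit 7), false, true, true, (nat_lit 262), (nat_lit 0), (nat_lit 1582), [(nat_lit 1632583), (nat_lit 1624997), (nat_lit 1655899), (nat_lit 1649997), (nat_lit 1659900), (nat_lit 1649996), (nat_lit 1683216), (nat_lit 1674997)]⟩, ⟨(nat_lit 5), false, false, true, (nat_lit 189), (nat_lit 0), (nat_lit 1582), [(nat_lit 1406735), (nat_lit 1399996), (nat_lit 1476683), (nat_lit 1474999), (nat_lit 1475027), (nat_lit 1462493), (nat_lit 1544976), (nat_lit 1537497)]⟩, (nat_lit 5180109), (nat_lit 38636847), (nat_lit 17804235), (nat_lit 10558918), (nat_lit 5), (nat_lit 0), [⟨(nat_lit 1), (nat_lit 89), (nat_lit 32), (nat_lit 100), (nat_lit 372906412)⟩], [⟨(nat_lit 1), (nat_lit 98), (nat_lit 31), (nat_lit 100), (nat_lit 284319945)⟩], [], [],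
 ⟨⟨[(nat_lit 40), (nat_lit 60), (nat_lit 80)], [(nat_lit 0), (nat_lit 2136), (nat_lit 3185)], [((nat_lit 0), (nat_lit 0), (nat_lit 0)), ((nat_lit 1000), (nat_lit 343), (nat_lit 808)), ((nat_lit 1000), (nat_lit 338), (nat_lit 820))], ((nat_lit 32), (nat_lit 100), (nat_lit 86))⟩, (nat_lit 0), (nat_lit 61), (nat_lit 61), (nat_lit 0), (nat_lit 0), [(nat_lit 1601237634), (nat_lit 1568873237), (nat_lit 1912879200)], [(nat_lit 0), (nat_lit 0), (nat_lit 0)], [(nat_lit 27002687388), (nat_lit 27519494266), (nat_lit 27651823418), (nat_lit 28229028002), (nat_lit 28000131437), (nat_lit 28555884427), (nat_lit 28675098641), (nat_lit 29229534270)], (nat_lit 0), (nat_lit 0), (nat_lit 0), (nat_lit 0), (nat_lit 0), (nat_lit 0), [], [(nat_lit 2), (nat_lit 44), (nat_lit 203), (nat_lit 0), (nat_lit 6)]⟩,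
 ⟨⟨[(nat_lit 100), (nat_lit 140), (nat_lit 180)], [(nat_lit 0), (nat_lit 508), (nat_lit 2854)], [((nat_lit 0), (nat_lit 0), (nat_lit 0)), ((nat_lit 1000), (nat_lit 1000), (nat_lit 198)), ((nat_lit 777), (nat_lit 1000), (nat_lit 712))], ((nat_lit 100), (nat_lit 64), (nat_lit 83))⟩, (nat_lit 415416), (nat_lit 638), (nat_lit 638), (nat_lit 0), (nat_lit 725177), [(nat_lit 1012500000), (nat_lit 1594404000), (nat_lit 2277396000)], [], [(nat_lit 6111716585), (nat_lit 6096852437), (nat_lit 6175410176), (nat_lit 6158483538), (nat_lit 5779932693), (nat_lit 5750707488), (nat_lit 5841046343), (nat_lit 5807378430)], (nat_lit 1271251), (nat_lit 1271251), (nat_lit 1271251), (nat_lit 1271251), (nat_lit 54688), (nat_lit 2845626), [(nat_lit 1412501), (nat_lit 1271251), (nat_lit 1271251)], [(nat_lit 24), (nat_lit 63), (nat_lit 483), (nat_lit 250), (nat_lit 11)]⟩,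
 ⟨⟨[(nat_lit 140), (nat_lit 180), (nat_lit 200)], [(nat_lit 0), (nat_lit 0), (nat_lit 2835)], [((nat_lit 0), (nat_lit 0), (nat_lit 0)), ((nat_lit 0), (nat_lit 0), (nat_lit 0)), ((nat_lit 363), (nat_lit 1000), (nat_lit 798))], ((nat_lit 0), (nat_lit 0), (nat_lit 0))⟩, (nat_lit 10455), (nat_lit 300), (nat_lit 1717), (nat_lit 2967801), (nat_lit 2753266), [(nat_lit 373996000), (nat_lit 534204000), (nat_lit 623200000)], [], [(nat_lit 2801051740), (nat_lit 2703692380), (nat_lit 2736765294), (nat_lit 2639046470), (nat_lit 2655824936), (nat_lit 3011231854), (nat_lit 2195372718), (nat_lit 2559187828)], (nat_lit 780000), (nat_lit 1271251), (nat_lit 1271251), (nat_lit 1271251), (nat_lit 54688), (nat_lit 2845626), [(nat_lit 1977501), (nat_lit 1271251), (nat_lit 1271251)], [(nat_lit 32), (nat_lit 67), (nat_lit 533), (nat_lit 225), (nat_lit 11)]⟩⟩))))))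
noncomputable def c13_42 : Tr Lf :=
 (.spl (nat_lit 5) (nat_lit 120) (.spl (nat_lit 1) (nat_lit 220) (.trX (nat_lit 3) (nat_lit 0) (nat_lit 1) (nat_lit 31) (nat_lit 92) (nat_lit 100) (nat_lit 290) (.spl (nat_lit 0) (nat_lit 395) (.leaf ⟨(nat_lit 794), (nat_lit 170), (nat_lit 0), (nat_lit 36), (nat_lit 1397), (nat_lit 3732), (nat_lit 2744), (nat_lit 517), (nat_lit 0), (nat_lit 0), (nat_lit 198500), [((nat_lit 395), [((nat_lit 29), (nat_lit 0), (nat_lit 794))])], ⟨(nat_lit 6), false, true, true, (nat_lit 235), (nat_lit 1118), (nat_lit 1582), [(nat_lit 1531319), (nat_lit 1529375), (nat_lit 1577949), (nat_lit 1576877), (nat_lit 1599614), (nat_lit 1595784), (nat_lit 1646244), (nat_lit 1643285)]⟩, ⟨(nat_lit 4), false, false, true, (nat_lit 179), (nat_lit 1118), (nat_lit 1582), [(nat_lit 1352103), (nat_lit 1351868), (nat_lit 1422017), (nat_lit 1423090), (nat_lit 1475033), (nat_lit 1471404), (nat_lit 1544978), (nat_lit 1542657)]⟩, (nat_lit 4976434), (nat_lit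 41231707), (nat_lit 15627668), (nat_lit 10140625), (nat_lit 4), (nat_lit 0), [⟨(nat_lit 1), (nat_lit 92), (nat_lit 31), (nat_lit 100), (nat_lit 191887001)⟩], [⟨(nat_lit 1), (nat_lit 98), (nat_lit 31), (nat_lit 100), (nat_lit 162554145)⟩], [], [⟨(nat_lit 0), (nat_lit 100), (nat_lit 92), (nat_lit 68), (nat_lit 86543191)⟩],
 ⟨⟨[(nat_lit 40), (nat_lit 60), (nat_lit 80)], [(nat_lit 0), (nat_lit 2136), (nat_lit 3185)], [((nat_lit 0), (nat_lit 0), (nat_lit 0)), ((nat_lit 1000), (nat_lit 343), (nat_lit 808)), ((nat_lit 1000), (nat_lit 338), (nat_lit 820))], ((nat_lit 32), (nat_lit 100), (nat_lit 86))⟩, (nat_lit 0), (nat_lit 143), (nat_lit 143), (nat_lit 0), (nat_lit 289059), [(nat_lit 1611568826), (nat_lit 1532231980), (nat_lit 2058589600)], [(nat_lit 0), (nat_lit 0), (nat_lit 0)], [(nat_lit 25035484138), (nat_lit 25322763279), (nat_lit 26709037377), (nat_lit 27037555830), (nat_lit 26878373081), (nat_lit 27126238549), (nat_lit 28531799529), (nat_lit 28822606583)],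 (nat_lit 1271251), (nat_lit 1271251), (nat_lit 1271251), (nat_lit 1271251), (nat_lit 1100000), (nat_lit 1870626), [(nat_lit 490000), (nat_lit 780000), (nat_lit 1100000)], [(nat_lit 2), (nat_lit 44), (nat_lit 203), (nat_lit 0), (nat_lit 7)]⟩,
 ⟨⟨[(nat_lit 120), (nat_lit 160), (nat_lit 200)], [(nat_lit 0), (nat_lit 533), (nat_lit 3597)], [((nat_lit 0), (nat_lit 0), (nat_lit 0)), ((nat_lit 960), (nat_lit 1000), (nat_lit 200)), ((nat_lit 612), (nat_lit 1000), (nat_lit 732))], ((nat_lit 0), (nat_lit 0), (nat_lit 0))⟩, (nat_lit 897841), (nat_lit 617), (nat_lit 617), (nat_lit 0), (nat_lit 416709), [(nat_lit 1641408000), (nat_lit 2445632000), (nat_lit 3378400000)], [], [(nat_lit 7697459677), (nat_lit 7692855334), (nat_lit 8137824038), (nat_lit 8137010268), (nat_lit 5691876352), (nat_lit 5583957942), (nat_lit 5970298801), (nat_lit 5958502607)], (nat_lit 1271251), (nat_lit 1271251), (nat_lit 1271251), (nat_lit 1271251), (nat_lit 0), (nat_lit 780000), [(nat_lit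 1695001), (nat_lit 1271251), (nat_lit 1271251)], [(nat_lit 29), (nat_lit 66), (nat_lit 401), (nat_lit 175), (nat_lit 8)]⟩,
 ⟨⟨[(nat_lit 140), (nat_lit 180), (nat_lit 200)], [(nat_lit 0), (nat_lit 0), (nat_lit 2835)], [((nat_lit 0), (nat_lit 0), (nat_lit 0)), ((nat_lit 0), (nat_lit 0), (nat_lit 0)), ((nat_lit 363), (nat_lit 1000), (nat_lit 798))], ((nat_lit 0), (nat_lit 0), (nat_lit 0))⟩, (nat_lit 9905), (nat_lit 300), (nat_lit 834), (nat_lit 2811600), (nat_lit 733762), [(nat_lit 354312000), (nat_lit 506088000), (nat_lit 590400000)], [], [(nat_lit 2486807420), (nat_lit 2372220821), (nat_lit 2376787064), (nat_lit 2259214842), (nat_lit 2046987420), (nat_lit 1938772513), (nat_lit 2157703767), (nat_lit 2520597800)], (nat_lit 780000), (nat_lit 1271251), (nat_lit 1100000), (nat_lit 1870626), (nat_lit 0), (nat_lit 780000), [(nat_lit 1977501), (nat_lit 1271251), (nat_lit 1271251)], [(nat_lit 32), (nat_lit 67), (nat_lit 373), (nat_lit 150), (nat_lit 8)]⟩⟩)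 (.trX (nat_lit 3) (nat_lit 0) (nat_lit 1) (nat_lit 22) (nat_lit 95) (nat_lit 100) (nat_lit 270) (.trX (nat_lit 4) (nat_lit 0) (nat_lit 2) (nat_lit 22) (nat_lit 100) (nat_lit 100) (nat_lit 230) (.leaf ⟨(nat_lit 771), (nat_lit 229), (nat_lit 0), (nat_lit 0), (nat_lit 14), (nat_lit 3760), (nat_lit 2991), (nat_lit 0), (nat_lit 0), (nat_lit 0), (nat_lit 192750), [((nat_lit 400), [((nat_lit 29), (nat_lit 0), (nat_lit 771))])], ⟨(nat_lit 6), false, true, true, (nat_lit 228), (nat_lit 0), (nat_lit 1119), [(nat_lit 1529372), (nat_lit 1524996), (nat_lit 1576876), (nat_lit 1574998), (nat_lit 1569216), (nat_lit 1562495), (nat_lit 1616720), (nat_lit 1612497)]⟩, ⟨(nat_lit 4), false, false, true, (nat_lit 173), (nat_lit 0), (nat_lit 1119), [(nat_lit 1351866), (nat_lit 1349997), (nat_lit 1422657), (nat_lit 1424535), (nat_lit 1444835), (nat_lit 1437494), (nat_lit 1516091), (nat_lit 1512496)]⟩, (nat_lit 4885116), (nat_lit 42145358), (nat_lit 15125094), (nat_lit 9729548),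 (nat_lit 4), (nat_lit 0), [⟨(nat_lit 1), (nat_lit 95), (nat_lit 22), (nat_lit 100), (nat_lit 365749798)⟩], [⟨(nat_lit 1), (nat_lit 100), (nat_lit 22), (nat_lit 100), (nat_lit 459854185)⟩], [], [⟨(nat_lit 0), (nat_lit 100), (nat_lit 95), (nat_lit 49), (nat_lit 64646940)⟩],
 ⟨⟨[(nat_lit 40), (nat_lit 60), (nat_lit 80)], [(nat_lit 0), (nat_lit 2600), (nat_lit 3731)], [((nat_lit 0), (nat_lit 0), (nat_lit 0)), ((nat_lit 1000), (nat_lit 245), (nat_lit 872)), ((nat_lit 1000), (nat_lit 240), (nat_lit 884))], ((nat_lit 24), (nat_lit 100), (nat_lit 89))⟩, (nat_lit 0), (nat_lit 159), (nat_lit 159), (nat_lit 0), (nat_lit 318549), [(nat_lit 1616969206), (nat_lit 1579117184), (nat_lit 2134756400)], [(nat_lit 0), (nat_lit 0), (nat_lit 0)], [(nat_lit 25361034422), (nat_lit 25649321052), (nat_lit 26350743944), (nat_lit 26656940960), (nat_lit 26685363539), (nat_lit 26945206580), (nat_lit 27626267514), (nat_lit 27943273320)], (nat_lit 1271251), (nat_lit 1271251), (nat_lit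 1271251), (nat_lit 1271251), (nat_lit 1100000), (nat_lit 1699376), [(nat_lit 490000), (nat_lit 780000), (nat_lit 1100000)], [(nat_lit 2), (nat_lit 44), (nat_lit 203), (nat_lit 0), (nat_lit 7)]⟩,
 ⟨⟨[(nat_lit 120), (nat_lit 160), (nat_lit 200)], [(nat_lit 0), (nat_lit 533), (nat_lit 3597)], [((nat_lit 0), (nat_lit 0), (nat_lit 0)), ((nat_lit 960), (nat_lit 1000), (nat_lit 200)), ((nat_lit 612), (nat_lit 1000), (nat_lit 732))], ((nat_lit 0), (nat_lit 0), (nat_lit 0))⟩, (nat_lit 930675), (nat_lit 639), (nat_lit 639), (nat_lit 0), (nat_lit 473815), [(nat_lit 1824672000), (nat_lit 2718688000), (nat_lit 3755600000)], [], [(nat_lit 8770073614), (nat_lit 8664254836), (nat_lit 8928680089), (nat_lit 8957467684), (nat_lit 6591299569), (nat_lit 6476886989), (nat_lit 6693497212), (nat_lit 6617139008)], (nat_lit 1271251), (nat_lit 1271251), (nat_lit 1271251), (nat_lit 1271251), (nat_lit 0), (nat_lit 780000), [(nat_lit 1695001), (nat_lit 1271251), (nat_lit 1271251)],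 [(nat_lit 29), (nat_lit 66), (nat_lit 401), (nat_lit 175), (nat_lit 8)]⟩,
 Rw.none⟩))))) (.leaf ⟨(nat_lit 0), (nat_lit 978), (nat_lit 0), (nat_lit 22), (nat_lit 0), (nat_lit 5851), (nat_lit 11171), (nat_lit 316), (nat_lit 0), (nat_lit 0), (nat_lit 0), [], Pd.none, Pd.none, (nat_lit 0), (nat_lit 1), (nat_lit 0), (nat_lit 0), (nat_lit 4), (nat_lit 0), [], [⟨(nat_lit 1), (nat_lit 98), (nat_lit 31), (nat_lit 100), (nat_lit 608151134)⟩], [], [⟨(nat_lit 0), (nat_lit 100), (nat_lit 94), (nat_lit 37), (nat_lit 213717431)⟩],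
 ⟨⟨[(nat_lit 40), (nat_lit 60), (nat_lit 80)], [(nat_lit 0), (nat_lit 2136), (nat_lit 3185)], [((nat_lit 0), (nat_lit 0), (nat_lit 0)), ((nat_lit 1000), (nat_lit 343), (nat_lit 808)), ((nat_lit 1000), (nat_lit 338), (nat_lit 820))], ((nat_lit 32), (nat_lit 100), (nat_lit 86))⟩, (nat_lit 0), (nat_lit 171), (nat_lit 171), (nat_lit 0), (nat_lit 346218), [(nat_lit 2447460402), (nat_lit 3426356058), (nat_lit 4688000000)], [], [(nat_lit 26820648689), (nat_lit 27649446080), (nat_lit 29472398986), (nat_lit 30318951518), (nat_lit 28671361551), (nat_lit 29445461196), (nat_lit 31033225247), (nat_lit 31745114059)], (nat_lit 1271251), (nat_lit 1271251), (nat_lit 1271251), (nat_lit 1271251), (nat_lit 1100000), (nat_lit 1870626), [(nat_lit 490000), (nat_lit 780000), (nat_lit 1100000)], [(nat_lit 2), (nat_lit 44), (nat_lit 203), (nat_lit 0), (nat_lit 7)]⟩,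
 ⟨⟨[(nat_lit 100), (nat_lit 140), (nat_lit 180)], [(nat_lit 0), (nat_lit 508), (nat_lit 2854)], [((nat_lit 0), (nat_lit 0), (nat_lit 0)), ((nat_lit 1000), (nat_lit 1000), (nat_lit 198)), ((nat_lit 777), (nat_lit 1000), (nat_lit 712))], ((nat_lit 100), (nat_lit 64), (nat_lit 83))⟩, (nat_lit 4392873), (nat_lit 469), (nat_lit 469), (nat_lit 0), (nat_lit 364794), [(nat_lit 6250000000), (nat_lit 9842000000), (nat_lit 14058000000)], [], [(nat_lit 29644808411), (nat_lit 30171378290), (nat_lit 33705619164), (nat_lit 34011977075), (nat_lit 21968894311), (nat_lit 22361472038), (nat_lit 24903873267), (nat_lit 25129636228)], (nat_lit 1271251), (nat_lit 1271251), (nat_lit 1271251), (nat_lit 1271251), (nat_lit 0), (nat_lit 780000), [(nat_lit 1412501), (nat_lit 1271251), (nat_lit 1271251)], [(nat_lit 24), (nat_lit 63), (nat_lit 401), (nat_lit 175), (nat_lit 9)]⟩,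
 ⟨⟨[(nat_lit 140), (nat_lit 180), (nat_lit 200)], [(nat_lit 0), (nat_lit 0), (nat_lit 2835)], [((nat_lit 0), (nat_lit 0), (nat_lit 0)), ((nat_lit 0), (nat_lit 0), (nat_lit 0)), ((nat_lit 363), (nat_lit 1000), (nat_lit 798))], ((nat_lit 0), (nat_lit 0), (nat_lit 0))⟩, (nat_lit 6053), (nat_lit 300), (nat_lit 890), (nat_lit 1718200), (nat_lit 866752), [(nat_lit 216524000), (nat_lit 309276000), (nat_lit 360800000)], [], [(nat_lit 1519664928), (nat_lit 1449623846), (nat_lit 1452412590), (nat_lit 1380695526), (nat_lit 1250833068), (nat_lit 1184686586), (nat_lit 1318645604), (nat_lit 1540445574)], (nat_lit 780000), (nat_lit 1271251), (nat_lit 1100000), (nat_lit 1870626), (nat_lit 0), (nat_lit 780000), [(nat_lit 1977501), (nat_lit 1271251), (nat_lit 1271251)], [(nat_lit 32), (nat_lit 67), (nat_lit 373), (nat_lit 150), (nat_lit 8)]⟩⟩)) (.leaf ⟨(nat_lit 823), (nat_lit 107), (nat_lit 0), (nat_lit 70), (nat_lit 0), (nat_lit 3612), (nat_lit 2088), (nat_lit 745),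 (nat_lit 0), (nat_lit 0), (nat_lit 205750), [((nat_lit 400), [((nat_lit 29), (nat_lit 0), (nat_lit 823))])], ⟨(nat_lit 6), false, true, true, (nat_lit 241), (nat_lit 0), (nat_lit 1582), [(nat_lit 1531317), (nat_lit 1524997), (nat_lit 1601257), (nat_lit 1599992), (nat_lit 1613268), (nat_lit 1599994), (nat_lit 1683216), (nat_lit 1674997)]⟩, ⟨(nat_lit 4), false, false, true, (nat_lit 178), (nat_lit 0), (nat_lit 1582), [(nat_lit 1352101), (nat_lit 1349997), (nat_lit 1421394), (nat_lit 1424345), (nat_lit 1475027), (nat_lit 1462493), (nat_lit 1544976), (nat_lit 1537497)]⟩, (nat_lit 5005157), (nat_lit 40784244), (nat_lit 16212491), (nat_lit 10003265), (nat_lit 4), (nat_lit 0), [⟨(nat_lit 1), (nat_lit 96), (nat_lit 22), (nat_lit 100), (nat_lit 209300291)⟩, ⟨(nat_lit 1), (nat_lit 89), (nat_lit 32), (nat_lit 100), (nat_lit 160448043)⟩], [⟨(nat_lit 1), (nat_lit 100), (nat_lit 22), (nat_lit 97), (nat_lit 378775407)⟩], [], [],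
 ⟨⟨[(nat_lit 40), (nat_lit 60), (nat_lit 80)], [(nat_lit 0), (nat_lit 2136), (nat_lit 3185)], [((nat_lit 0), (nat_lit 0), (nat_lit 0)), ((nat_lit 1000), (nat_lit 343), (nat_lit 808)), ((nat_lit 1000), (nat_lit 338), (nat_lit 820))], ((nat_lit 32), (nat_lit 100), (nat_lit 86))⟩, (nat_lit 0), (nat_lit 171), (nat_lit 171), (nat_lit 0), (nat_lit 346312), [(nat_lit 1604759605), (nat_lit 1491309062), (nat_lit 1962553200)], [(nat_lit 0), (nat_lit 0), (nat_lit 0)], [(nat_lit 25138846036), (nat_lit 25704768698), (nat_lit 27130973958), (nat_lit 27633902416), (nat_lit 26987040531), (nat_lit 27475960934), (nat_lit 28764275753), (nat_lit 29324665779)], (nat_lit 1271251), (nat_lit 1271251), (nat_lit 1271251), (nat_lit 1271251), (nat_lit 1100000), (nat_lit 1870626), [(nat_lit 490000), (nat_lit 780000), (nat_lit 1100000)], [(nat_lit 2), (nat_lit 44), (nat_lit 203), (nat_lit 0), (nat_lit 7)]⟩,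
 ⟨⟨[(nat_lit 120), (nat_lit 160), (nat_lit 200)], [(nat_lit 0), (nat_lit 533), (nat_lit 3597)], [((nat_lit 0), (nat_lit 0), (nat_lit 0)), ((nat_lit 960), (nat_lit 1000), (nat_lit 200)), ((nat_lit 612), (nat_lit 1000), (nat_lit 732))], ((nat_lit 0), (nat_lit 0), (nat_lit 0))⟩, (nat_lit 462034), (nat_lit 664), (nat_lit 664), (nat_lit 0), (nat_lit 762794), [(nat_lit 1410336000), (nat_lit 2101344000), (nat_lit 2902800000)], [], [(nat_lit 6094644449), (nat_lit 5993409186), (nat_lit 6257793234), (nat_lit 6111515617), (nat_lit 6948543624), (nat_lit 6551085834), (nat_lit 6881010780), (nat_lit 6684819009)], (nat_lit 1271251), (nat_lit 1271251), (nat_lit 1271251), (nat_lit 1271251), (nat_lit 780000), (nat_lit 3072501), [(nat_lit 1695001), (nat_lit 1271251), (nat_lit 1271251)], [(nat_lit 29), (nat_lit 66), (nat_lit 483), (nat_lit 250), (nat_lit 10)]⟩,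
 ⟨⟨[(nat_lit 140), (nat_lit 180), (nat_lit 200)], [(nat_lit 0), (nat_lit 0), (nat_lit 2835)], [((nat_lit 0), (nat_lit 0), (nat_lit 0)), ((nat_lit 0), (nat_lit 0), (nat_lit 0)), ((nat_lit 363), (nat_lit 1000), (nat_lit 798))], ((nat_lit 0), (nat_lit 0), (nat_lit 0))⟩, (nat_lit 19259), (nat_lit 300), (nat_lit 1379), (nat_lit 5467004), (nat_lit 2151947), [(nat_lit 688940000), (nat_lit 984060000), (nat_lit 1148000000)], [], [(nat_lit 5028795617), (nat_lit 4866260758), (nat_lit 4818626020), (nat_lit 4656287689), (nat_lit 4463022080), (nat_lit 4294633540), (nat_lit 4299801405), (nat_lit 4858541254)], (nat_lit 780000), (nat_lit 1271251), (nat_lit 1100000), (nat_lit 1870626), (nat_lit 780000), (nat_lit 3072501), [(nat_lit 1977501), (nat_lit 1271251), (nat_lit 1271251)], [(nat_lit 32), (nat_lit 67), (nat_lit 456), (nat_lit 225), (nat_lit 10)]⟩⟩))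
noncomputable def c13_43 : Tr Lf :=
 (.spl (nat_lit 2) (nat_lit 220) (.spl (nat_lit 0) (nat_lit 390) (.spl (nat_lit 6) (nat_lit 80) (.spl (nat_lit 2) (nat_lit 200) (.spl (nat_lit 0) (nat_lit 385) (.spl (nat_lit 6) (nat_lit 72) (.leaf ⟨(nat_lit 977), (nat_lit 0), (nat_lit 0), (nat_lit 23), (nat_lit 0), (nat_lit 3400), (nat_lit 300), (nat_lit 327), (nat_lit 0), (nat_lit 12466), (nat_lit 301850), [((nat_lit 385), [((nat_lit 28), (nat_lit 0), (nat_lit 593)), ((nat_lit 28), (nat_lit 1), (nat_lit 384))])], ⟨(nat_lit 4), false, false, false, (nat_lit 193), (nat_lit 1936), (nat_lit 2237), [(nat_lit 1363171), (nat_lit 1365187), (nat_lit 1431468), (nat_lit 1434194), (nat_lit 1534240), (nat_lit 1532877), (nat_lit 1602562), (nat_lit 1601908)]⟩, ⟨(nat_lit 4), false, false, false, (nat_lit 164), (nat_lit 1936), (nat_lit 2237), [(nat_lit 1320397), (nat_lit 1323258), (nat_lit 1343163), (nat_lit 1346260), (nat_lit 1477224), (nat_lit 1476988), (nat_lit 1499999), (nat_lit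 1499999)]⟩, (nat_lit 4548410), (nat_lit 45535975), (nat_lit 12093973), (nat_lit 9370052), (nat_lit 0), (nat_lit 0), [], [], [], [],
 ⟨⟨[(nat_lit 40), (nat_lit 60), (nat_lit 80)], [(nat_lit 0), (nat_lit 1539), (nat_lit 2453)], [((nat_lit 0), (nat_lit 0), (nat_lit 0)), ((nat_lit 1000), (nat_lit 478), (nat_lit 704)), ((nat_lit 1000), (nat_lit 474), (nat_lit 714))], ((nat_lit 45), (nat_lit 100), (nat_lit 79))⟩, (nat_lit 0), (nat_lit 124), (nat_lit 124), (nat_lit 0), (nat_lit 158985), [(nat_lit 1504088402), (nat_lit 988814436), (nat_lit 999907600)], [(nat_lit 0), (nat_lit 0), (nat_lit 0)], [(nat_lit 20759267779), (nat_lit 21156864713), (nat_lit 23265875029), (nat_lit 23661240594), (nat_lit 22494318804), (nat_lit 22804438454), (nat_lit 24617959404), (nat_lit 24877624781)], (nat_lit 1271251), (nat_lit 1271251), (nat_lit 780000), (nat_lit 1762501), (nat_lit 559688), (nat_lit 1429376), [(nat_lit 490000), (nat_lit 780000), (nat_lit 1100000)], [(nat_lit 2),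 (nat_lit 44), (nat_lit 345), (nat_lit 125), (nat_lit 15)]⟩,
 ⟨⟨[(nat_lit 120), (nat_lit 160), (nat_lit 200)], [(nat_lit 0), (nat_lit 533), (nat_lit 3597)], [((nat_lit 0), (nat_lit 0), (nat_lit 0)), ((nat_lit 960), (nat_lit 1000), (nat_lit 200)), ((nat_lit 612), (nat_lit 1000), (nat_lit 732))], ((nat_lit 0), (nat_lit 0), (nat_lit 0))⟩, (nat_lit 90078), (nat_lit 754), (nat_lit 754), (nat_lit 0), (nat_lit 634379), [(nat_lit 183264000), (nat_lit 273056000), (nat_lit 377200000)], [], [(nat_lit 940798826), (nat_lit 934215710), (nat_lit 1113718888), (nat_lit 877453480), (nat_lit 1501589438), (nat_lit 1096606088), (nat_lit 1969545880), (nat_lit 1579702780)], (nat_lit 1271251), (nat_lit 1271251), (nat_lit 780000), (nat_lit 1762501), (nat_lit 0), (nat_lit 2825001), [(nat_lit 1695001), (nat_lit 1271251), (nat_lit 1271251)], [(nat_lit 29), (nat_lit 66), (nat_lit 456), (nat_lit 225), (nat_lit 10)]⟩,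
 ⟨⟨[(nat_lit 120), (nat_lit 160), (nat_lit 200)], [(nat_lit 0), (nat_lit 533), (nat_lit 3597)], [((nat_lit 0), (nat_lit 0), (nat_lit 0)), ((nat_lit 960), (nat_lit 1000), (nat_lit 200)), ((nat_lit 612), (nat_lit 1000), (nat_lit 732))], ((nat_lit 0), (nat_lit 0), (nat_lit 0))⟩, (nat_lit 12243), (nat_lit 300), (nat_lit 866), (nat_lit 1665816), (nat_lit 794620), [(nat_lit 183264000), (nat_lit 273056000), (nat_lit 377200000)], [], [(nat_lit 1554233656), (nat_lit 1537458746), (nat_lit 1406974020), (nat_lit 1389579772), (nat_lit 1452978362), (nat_lit 1304409877), (nat_lit 1863525468), (nat_lit 1720081686)], (nat_lit 1271251), (nat_lit 1271251), (nat_lit 559688), (nat_lit 1429376), (nat_lit 0), (nat_lit 2825001), [(nat_lit 1695001), (nat_lit 1271251), (nat_lit 1271251)], [(nat_lit 29), (nat_lit 66), (nat_lit 428), (nat_lit 200), (nat_lit 9)]⟩⟩) (.dle (nat_lit 0))) (.trZ (nat_lit 0) (nat_lit 2) (nat_lit 4) (nat_lit 100) (nat_lit 38) (nat_lit 89) (nat_lit 100)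 (.leaf ⟨(nat_lit 970), (nat_lit 0), (nat_lit 0), (nat_lit 30), (nat_lit 0), (nat_lit 3380), (nat_lit 386), (nat_lit 410), (nat_lit 0), (nat_lit 173869), (nat_lit 300250), [((nat_lit 390), [((nat_lit 28), (nat_lit 0), (nat_lit 585)), ((nat_lit 28), (nat_lit 1), (nat_lit 385))])], ⟨(nat_lit 4), false, false, false, (nat_lit 194), (nat_lit 1581), (nat_lit 1937), [(nat_lit 1365170), (nat_lit 1367372), (nat_lit 1434158), (nat_lit 1437274), (nat_lit 1532877), (nat_lit 1531319), (nat_lit 1601908), (nat_lit 1601263)]⟩, ⟨(nat_lit 4), false, false, false, (nat_lit 168), (nat_lit 1581), (nat_lit 1937), [(nat_lit 1337211), (nat_lit 1340040), (nat_lit 1360207), (nat_lit 1363340), (nat_lit 1476988), (nat_lit 1476683), (nat_lit 1499999), (nat_lit 1499999)]⟩, (nat_lit 4583502), (nat_lit 45269796), (nat_lit 12086833), (nat_lit 9643371), (nat_lit 0), (nat_lit 0), [], [], [], [],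
 ⟨⟨[(nat_lit 40), (nat_lit 60), (nat_lit 80)], [(nat_lit 0), (nat_lit 1803), (nat_lit 2780)], [((nat_lit 0), (nat_lit 0), (nat_lit 0)), ((nat_lit 1000), (nat_lit 417), (nat_lit 754)), ((nat_lit 1000), (nat_lit 413), (nat_lit 764))], ((nat_lit 39), (nat_lit 100), (nat_lit 83))⟩, (nat_lit 0), (nat_lit 133), (nat_lit 133), (nat_lit 0), (nat_lit 190758), [(nat_lit 1505564011), (nat_lit 1014604273), (nat_lit 1021910000)], [(nat_lit 0), (nat_lit 0), (nat_lit 0)], [(nat_lit 21276422502), (nat_lit 21663790167), (nat_lit 23695678232), (nat_lit 24070159758), (nat_lit 22862779776), (nat_lit 23172036625), (nat_lit 24938706940), (nat_lit 25197380790)], (nat_lit 1271251), (nat_lit 1271251), (nat_lit 780000), (nat_lit 1762501), (nat_lit 631250), (nat_lit 1431250), [(nat_lit 490000), (nat_lit 780000), (nat_lit 1100000)], [(nat_lit 2), (nat_lit 44), (nat_lit 345), (nat_lit 125), (nat_lit 15)]⟩,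
 ⟨⟨[(nat_lit 120), (nat_lit 160), (nat_lit 200)], [(nat_lit 0), (nat_lit 533), (nat_lit 3597)], [((nat_lit 0), (nat_lit 0), (nat_lit 0)), ((nat_lit 960), (nat_lit 1000), (nat_lit 200)), ((nat_lit 612), (nat_lit 1000), (nat_lit 732))], ((nat_lit 0), (nat_lit 0), (nat_lit 0))⟩, (nat_lit 113818), (nat_lit 863), (nat_lit 863), (nat_lit 0), (nat_lit 830822), [(nat_lit 239040000), (nat_lit 356160000), (nat_lit 492000000)], [], [(nat_lit 1240554658), (nat_lit 1232573158), (nat_lit 1449134132), (nat_lit 1152254066), (nat_lit 1951191373), (nat_lit 1430112796), (nat_lit 2554893530), (nat_lit 2053295408)], (nat_lit 1271251), (nat_lit 1271251), (nat_lit 780000), (nat_lit 1762501), (nat_lit 0), (nat_lit 2825001), [(nat_lit 1695001), (nat_lit 1271251), (nat_lit 1271251)], [(nat_lit 29), (nat_lit 66), (nat_lit 456), (nat_lit 225), (nat_lit 10)]⟩,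
 ⟨⟨[(nat_lit 120), (nat_lit 160), (nat_lit 200)], [(nat_lit 0), (nat_lit 533), (nat_lit 3597)], [((nat_lit 0), (nat_lit 0), (nat_lit 0)), ((nat_lit 960), (nat_lit 1000), (nat_lit 200)), ((nat_lit 612), (nat_lit 1000), (nat_lit 732))], ((nat_lit 0), (nat_lit 0), (nat_lit 0))⟩, (nat_lit 15969), (nat_lit 300), (nat_lit 932), (nat_lit 2172804), (nat_lit 980923), [(nat_lit 239040000), (nat_lit 356160000), (nat_lit 492000000)], [], [(nat_lit 2020125940), (nat_lit 1999461860), (nat_lit 1857495980), (nat_lit 1836061880), (nat_lit 1908572543), (nat_lit 1722889385), (nat_lit 2397559080), (nat_lit 2217706020)], (nat_lit 1271251), (nat_lit 1271251), (nat_lit 631250), (nat_lit 1431250), (nat_lit 0), (nat_lit 2825001), [(nat_lit 1695001), (nat_lit 1271251), (nat_lit 1271251)], [(nat_lit 29), (nat_lit 66), (nat_lit 428), (nat_lit 200), (nat_lit 9)]⟩⟩))) (.ord (.trZ (nat_lit 0) (nat_lit 2) (nat_lit 4) (nat_lit 100) (nat_lit 44) (nat_lit 90) (nat_lit 110) (.leaf ⟨(nat_lit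 938), (nat_lit 13), (nat_lit 0), (nat_lit 49), (nat_lit 1206), (nat_lit 3281), (nat_lit 770), (nat_lit 751), (nat_lit 0), (nat_lit 2460411), (nat_lit 391000), [((nat_lit 390), [((nat_lit 28), (nat_lit 1), (nat_lit 859)), ((nat_lit 43), (nat_lit 2), (nat_lit 79))])], ⟨(nat_lit 5), false, false, false, (nat_lit 198), (nat_lit 1581), (nat_lit 2237), [(nat_lit 1385797), (nat_lit 1390557), (nat_lit 1431255), (nat_lit 1437096), (nat_lit 1557014), (nat_lit 1554634), (nat_lit 1602558), (nat_lit 1601260)]⟩, ⟨(nat_lit 5), false, false, false, (nat_lit 179), (nat_lit 1581), (nat_lit 2237), [(nat_lit 1371522), (nat_lit 1376877), (nat_lit 1394251), (nat_lit 1400146), (nat_lit 1499999), (nat_lit 1499999), (nat_lit 1522729), (nat_lit 1523269)]⟩, (nat_lit 4727789), (nat_lit 44073502), (nat_lit 12354022), (nat_lit 10572476), (nat_lit 5), (nat_lit 0), [], [⟨(nat_lit 0), (nat_lit 100), (nat_lit 38), (nat_lit 94), (nat_lit 29547505)⟩], [], [],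
 ⟨⟨[(nat_lit 40), (nat_lit 80), (nat_lit 100)], [(nat_lit 0), (nat_lit 2514), (nat_lit 3562)], [((nat_lit 0), (nat_lit 0), (nat_lit 0)), ((nat_lit 1000), (nat_lit 446), (nat_lit 804)), ((nat_lit 1000), (nat_lit 443), (nat_lit 819))], ((nat_lit 44), (nat_lit 100), (nat_lit 82))⟩, (nat_lit 0), (nat_lit 157), (nat_lit 157), (nat_lit 0), (nat_lit 187042), [(nat_lit 1419920924), (nat_lit 697949947), (nat_lit 0)], [(nat_lit 0), (nat_lit 0), (nat_lit 63713547)], [(nat_lit 20892738306), (nat_lit 21579556441), (nat_lit 23232005310), (nat_lit 23992272524), (nat_lit 22282771840), (nat_lit 22947126131), (nat_lit 24526292169), (nat_lit 25110086748)], (nat_lit 1271251), (nat_lit 1271251), (nat_lit 780000), (nat_lit 1762501), (nat_lit 704688), (nat_lit 1433125), [(nat_lit 490000), (nat_lit 1100000), (nat_lit 1442501)], [(nat_lit 3), (nat_lit 50), (nat_lit 345), (nat_lit 125), (nat_lit 12)]⟩,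
 ⟨⟨[(nat_lit 100), (nat_lit 140), (nat_lit 180)], [(nat_lit 0), (nat_lit 0), (nat_lit 2434)], [((nat_lit 0), (nat_lit 0), (nat_lit 0)), ((nat_lit 0), (nat_lit 0), (nat_lit 0)), ((nat_lit 726), (nat_lit 1000), (nat_lit 688))], ((nat_lit 100), (nat_lit 60), (nat_lit 80))⟩, (nat_lit 222233), (nat_lit 722), (nat_lit 722), (nat_lit 0), (nat_lit 681211), [(nat_lit 387500000), (nat_lit 610204000), (nat_lit 871596000)], [], [(nat_lit 3201035790), (nat_lit 2380275080), (nat_lit 2201108592), (nat_lit 2178813592), (nat_lit 2958246992), (nat_lit 2246887112), (nat_lit 4130707420), (nat_lit 3446681000)], (nat_lit 1271251), (nat_lit 1271251), (nat_lit 780000), (nat_lit 1762501), (nat_lit 0), (nat_lit 2825001), [(nat_lit 1412501), (nat_lit 1271251), (nat_lit 1271251)], [(nat_lit 24), (nat_lit 63), (nat_lit 456), (nat_lit 225), (nat_lit 11)]⟩,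
 ⟨⟨[(nat_lit 100), (nat_lit 140), (nat_lit 180)], [(nat_lit 0), (nat_lit 0), (nat_lit 2434)], [((nat_lit 0), (nat_lit 0), (nat_lit 0)), ((nat_lit 0), (nat_lit 0), (nat_lit 0)), ((nat_lit 726), (nat_lit 1000), (nat_lit 688))], ((nat_lit 100), (nat_lit 60), (nat_lit 80))⟩, (nat_lit 28265), (nat_lit 300), (nat_lit 757), (nat_lit 3444700), (nat_lit 756784), [(nat_lit 306250000), (nat_lit 482258000), (nat_lit 688842000)], [], [(nat_lit 2949396557), (nat_lit 2579260882), (nat_lit 2417754520), (nat_lit 2409705498), (nat_lit 2343012631), (nat_lit 2180800176), (nat_lit 3130880263), (nat_lit 2792944157)], (nat_lit 1271251), (nat_lit 1271251), (nat_lit 704688), (nat_lit 1433125), (nat_lit 0), (nat_lit 2825001), [(nat_lit 1412501), (nat_lit 1271251), (nat_lit 1271251)], [(nat_lit 24), (nat_lit 63), (nat_lit 456), (nat_lit 225), (nat_lit 11)]⟩⟩)))) (.dle (nat_lit 0))) (.trZ (nat_lit 0) (nat_lit 2) (nat_lit 4) (nat_lit 100) (nat_lit 31) (nat_lit 92) (nat_lit 110)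 (.spl (nat_lit 1) (nat_lit 220) (.spl (nat_lit 3) (nat_lit 200) (.leaf ⟨(nat_lit 963), (nat_lit 0), (nat_lit 0), (nat_lit 37), (nat_lit 0), (nat_lit 3370), (nat_lit 606), (nat_lit 520), (nat_lit 0), (nat_lit 326878436556), (nat_lit 299100), [((nat_lit 400), [((nat_lit 29), (nat_lit 0), (nat_lit 574)), ((nat_lit 29), (nat_lit 1), (nat_lit 389))])], ⟨(nat_lit 4), false, false, false, (nat_lit 178), (nat_lit 0), (nat_lit 1582), [(nat_lit 1365448), (nat_lit 1373034), (nat_lit 1410764), (nat_lit 1421721), (nat_lit 1476683), (nat_lit 1474999), (nat_lit 1522658), (nat_lit 1524343)]⟩, ⟨(nat_lit 4), false, false, false, (nat_lit 176), (nat_lit 0), (nat_lit 1582), [(nat_lit 1351461), (nat_lit 1360206), (nat_lit 1396777), (nat_lit 1408893), (nat_lit 1476683), (nat_lit 1474999), (nat_lit 1522658), (nat_lit 1524343)]⟩, (nat_lit 4526398), (nat_lit 45853241), (nat_lit 10699317), (nat_lit 10447442), (nat_lit 0), (nat_lit 0), [], [], [], [],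
 ⟨⟨[(nat_lit 40), (nat_lit 60), (nat_lit 80)], [(nat_lit 0), (nat_lit 2136), (nat_lit 3185)], [((nat_lit 0), (nat_lit 0), (nat_lit 0)), ((nat_lit 1000), (nat_lit 343), (nat_lit 808)), ((nat_lit 1000), (nat_lit 338), (nat_lit 820))], ((nat_lit 32), (nat_lit 100), (nat_lit 86))⟩, (nat_lit 0), (nat_lit 159), (nat_lit 159), (nat_lit 0), (nat_lit 231841), [(nat_lit 1507158001), (nat_lit 999106891), (nat_lit 1040376000)], [(nat_lit 0), (nat_lit 0), (nat_lit 0)], [(nat_lit 21765905583), (nat_lit 22642644655), (nat_lit 23128506693), (nat_lit 23830131268), (nat_lit 23209953056), (nat_lit 23866681190), (nat_lit 24386270919), (nat_lit 24938700610)], (nat_lit 1271251), (nat_lit 1271251), (nat_lit 780000), (nat_lit 1435001), (nat_lit 704688), (nat_lit 1433125), [(nat_lit 490000), (nat_lit 780000), (nat_lit 1100000)], [(nat_lit 2), (nat_lit 44), (nat_lit 317), (nat_lit 100), (nat_lit 13)]⟩,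
 ⟨⟨[(nat_lit 120), (nat_lit 160), (nat_lit 200)], [(nat_lit 0), (nat_lit 533), (nat_lit 3597)], [((nat_lit 0), (nat_lit 0), (nat_lit 0)), ((nat_lit 960), (nat_lit 1000), (nat_lit 200)), ((nat_lit 612), (nat_lit 1000), (nat_lit 732))], ((nat_lit 0), (nat_lit 0), (nat_lit 0))⟩, (nat_lit 219111), (nat_lit 1056), (nat_lit 1056), (nat_lit 0), (nat_lit 1259248), [(nat_lit 294816000), (nat_lit 439264000), (nat_lit 606800000)], [], [(nat_lit 1303784853), (nat_lit 1314212043), (nat_lit 1644589725), (nat_lit 1234854185), (nat_lit 2587823875), (nat_lit 2042446297), (nat_lit 3188588484), (nat_lit 2656925292)], (nat_lit 1271251), (nat_lit 1271251), (nat_lit 780000), (nat_lit 1435001), (nat_lit 0), (nat_lit 2825001), [(nat_lit 1695001), (nat_lit 1271251), (nat_lit 1271251)], [(nat_lit 29), (nat_lit 66), (nat_lit 456), (nat_lit 225), (nat_lit 10)]⟩,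
 ⟨⟨[(nat_lit 120), (nat_lit 160), (nat_lit 200)], [(nat_lit 0), (nat_lit 533), (nat_lit 3597)], [((nat_lit 0), (nat_lit 0), (nat_lit 0)), ((nat_lit 960), (nat_lit 1000), (nat_lit 200)), ((nat_lit 612), (nat_lit 1000), (nat_lit 732))], ((nat_lit 0), (nat_lit 0), (nat_lit 0))⟩, (nat_lit 19695), (nat_lit 300), (nat_lit 1061), (nat_lit 2679792), (nat_lit 1259248), [(nat_lit 294816000), (nat_lit 439264000), (nat_lit 606800000)], [], [(nat_lit 2453814461), (nat_lit 2400640071), (nat_lit 2271555169), (nat_lit 2218590876), (nat_lit 2417744491), (nat_lit 1948253521), (nat_lit 2992874372), (nat_lit 2536661732)], (nat_lit 1271251), (nat_lit 1271251), (nat_lit 704688), (nat_lit 1433125), (nat_lit 0), (nat_lit 2825001), [(nat_lit 1695001), (nat_lit 1271251), (nat_lit 1271251)], [(nat_lit 29), (nat_lit 66), (nat_lit 456), (nat_lit 225), (nat_lit 10)]⟩⟩) (.leaf ⟨(nat_lit 940), (nat_lit 19), (nat_lit 0), (nat_lit 41), (nat_lit 0), (nat_lit 3333), (nat_lit 791), (nat_lit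 593), (nat_lit 0), (nat_lit 2298639658249), (nat_lit 300850), [((nat_lit 400), [((nat_lit 29), (nat_lit 0), (nat_lit 501)), ((nat_lit 29), (nat_lit 1), (nat_lit 439))])], ⟨(nat_lit 5), false, true, true, (nat_lit 210), (nat_lit 0), (nat_lit 1582), [(nat_lit 1476683), (nat_lit 1474999), (nat_lit 1522658), (nat_lit 1524343), (nat_lit 1531317), (nat_lit 1524997), (nat_lit 1577949), (nat_lit 1574999)]⟩, ⟨(nat_lit 4), false, false, false, (nat_lit 176), (nat_lit 0), (nat_lit 1582), [(nat_lit 1351461), (nat_lit 1360206), (nat_lit 1396777), (nat_lit 1408893), (nat_lit 1476683), (nat_lit 1474999), (nat_lit 1522658), (nat_lit 1524343)]⟩, (nat_lit 4789758), (nat_lit 43367605), (nat_lit 13486413), (nat_lit 10145982), (nat_lit 4), (nat_lit 0), [], [⟨(nat_lit 0), (nat_lit 100), (nat_lit 22), (nat_lit 98), (nat_lit 2638278)⟩], [], [],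
 ⟨⟨[(nat_lit 40), (nat_lit 60), (nat_lit 80)], [(nat_lit 0), (nat_lit 2136), (nat_lit 3185)], [((nat_lit 0), (nat_lit 0), (nat_lit 0)), ((nat_lit 1000), (nat_lit 343), (nat_lit 808)), ((nat_lit 1000), (nat_lit 338), (nat_lit 820))], ((nat_lit 32), (nat_lit 100), (nat_lit 86))⟩, (nat_lit 0), (nat_lit 137), (nat_lit 137), (nat_lit 0), (nat_lit 231841), [(nat_lit 1504238402), (nat_lit 983868069), (nat_lit 1057602800)], [(nat_lit 0), (nat_lit 0), (nat_lit 0)], [(nat_lit 23198738976), (nat_lit 23820875450), (nat_lit 24169196829), (nat_lit 24819216088), (nat_lit 24463782567), (nat_lit 25012518446), (nat_lit 25314962399), (nat_lit 25829039856)], (nat_lit 1271251), (nat_lit 1271251), (nat_lit 1271251), (nat_lit 1271251), (nat_lit 704688), (nat_lit 1433125), [(nat_lit 490000), (nat_lit 780000), (nat_lit 1100000)], [(nat_lit 2), (nat_lit 44), (nat_lit 260), (nat_lit 50), (nat_lit 10)]⟩,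
 ⟨⟨[(nat_lit 120), (nat_lit 160), (nat_lit 200)], [(nat_lit 0), (nat_lit 533), (nat_lit 3597)], [((nat_lit 0), (nat_lit 0), (nat_lit 0)), ((nat_lit 960), (nat_lit 1000), (nat_lit 200)), ((nat_lit 612), (nat_lit 1000), (nat_lit 732))], ((nat_lit 0), (nat_lit 0), (nat_lit 0))⟩, (nat_lit 237677), (nat_lit 1017), (nat_lit 1017), (nat_lit 0), (nat_lit 1259248), [(nat_lit 478080000), (nat_lit 712320000), (nat_lit 984000000)], [], [(nat_lit 2313547980), (nat_lit 2291501561), (nat_lit 2294681954), (nat_lit 2271595304), (nat_lit 4186329504), (nat_lit 3492359892), (nat_lit 3488003855), (nat_lit 2802746317)], (nat_lit 1271251), (nat_lit 1271251), (nat_lit 1271251), (nat_lit 1271251), (nat_lit 0), (nat_lit 2825001), [(nat_lit 1695001), (nat_lit 1271251), (nat_lit 1271251)], [(nat_lit 29), (nat_lit 66), (nat_lit 456), (nat_lit 225), (nat_lit 10)]⟩,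
 ⟨⟨[(nat_lit 120), (nat_lit 160), (nat_lit 200)], [(nat_lit 0), (nat_lit 533), (nat_lit 3597)], [((nat_lit 0), (nat_lit 0), (nat_lit 0)), ((nat_lit 960), (nat_lit 1000), (nat_lit 200)), ((nat_lit 612), (nat_lit 1000), (nat_lit 732))], ((nat_lit 0), (nat_lit 0), (nat_lit 0))⟩, (nat_lit 21824), (nat_lit 300), (nat_lit 1061), (nat_lit 2969499), (nat_lit 1259248), [(nat_lit 326688000), (nat_lit 486752000), (nat_lit 672400000)], [], [(nat_lit 2703955500), (nat_lit 2642517808), (nat_lit 2494928804), (nat_lit 2458819651), (nat_lit 2701292736), (nat_lit 2165892457), (nat_lit 3353682316), (nat_lit 2833424440)], (nat_lit 1271251), (nat_lit 1271251), (nat_lit 704688), (nat_lit 1433125), (nat_lit 0), (nat_lit 2825001), [(nat_lit 1695001), (nat_lit 1271251), (nat_lit 1271251)], [(nat_lit 29), (nat_lit 66), (nat_lit 456), (nat_lit 225), (nat_lit 10)]⟩⟩)) (.trZ (nat_lit 0) (nat_lit 1) (nat_lit 3) (nat_lit 100) (nat_lit 31) (nat_lit 98) (nat_lit 150) (.leaf ⟨(nat_lit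 910), (nat_lit 38), (nat_lit 0), (nat_lit 52), (nat_lit 0), (nat_lit 3418), (nat_lit 1005), (nat_lit 668), (nat_lit 0), (nat_lit 0), (nat_lit 281650), [((nat_lit 400), [((nat_lit 29), (nat_lit 0), (nat_lit 549)), ((nat_lit 29), (nat_lit 1), (nat_lit 361))])], ⟨(nat_lit 5), false, false, false, (nat_lit 211), (nat_lit 0), (nat_lit 1582), [(nat_lit 1452725), (nat_lit 1460204), (nat_lit 1475382), (nat_lit 1484547), (nat_lit 1577949), (nat_lit 1574999), (nat_lit 1601257), (nat_lit 1599992)]⟩, ⟨(nat_lit 4), false, false, false, (nat_lit 176), (nat_lit 0), (nat_lit 1582), [(nat_lit 1351461), (nat_lit 1360206), (nat_lit 1396777), (nat_lit 1408893), (nat_lit 1476683), (nat_lit 1474999), (nat_lit 1522658), (nat_lit 1524343)]⟩, (nat_lit 4796629), (nat_lit 43292880), (nat_lit 13571065), (nat_lit 10136055), (nat_lit 4), (nat_lit 0), [], [⟨(nat_lit 0), (nat_lit 100), (nat_lit 22), (nat_lit 98), (nat_lit 2547198)⟩], [], [],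
 ⟨⟨[(nat_lit 40), (nat_lit 60), (nat_lit 80)], [(nat_lit 0), (nat_lit 2136), (nat_lit 3185)], [((nat_lit 0), (nat_lit 0), (nat_lit 0)), ((nat_lit 1000), (nat_lit 343), (nat_lit 808)), ((nat_lit 1000), (nat_lit 338), (nat_lit 820))], ((nat_lit 32), (nat_lit 100), (nat_lit 86))⟩, (nat_lit 0), (nat_lit 152), (nat_lit 152), (nat_lit 0), (nat_lit 251676), [(nat_lit 1524261645), (nat_lit 1105512589), (nat_lit 1248897200)], [(nat_lit 0), (nat_lit 0), (nat_lit 0)], [(nat_lit 22227766340), (nat_lit 22908505109), (nat_lit 24265643873), (nat_lit 24928206275), (nat_lit 23613798705), (nat_lit 24212154472), (nat_lit 25392909374), (nat_lit 25912181322)], (nat_lit 1271251), (nat_lit 1271251), (nat_lit 1017188), (nat_lit 1779376), (nat_lit 704688), (nat_lit 1433125), [(nat_lit 490000), (nat_lit 780000), (nat_lit 1100000)], [(nat_lit 2), (nat_lit 44), (nat_lit 345), (nat_lit 125), (nat_lit 15)]⟩,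
 ⟨⟨[(nat_lit 100), (nat_lit 140), (nat_lit 180)], [(nat_lit 0), (nat_lit 508), (nat_lit 2854)], [((nat_lit 0), (nat_lit 0), (nat_lit 0)), ((nat_lit 1000), (nat_lit 1000), (nat_lit 198)), ((nat_lit 777), (nat_lit 1000), (nat_lit 712))], ((nat_lit 100), (nat_lit 64), (nat_lit 83))⟩, (nat_lit 342001), (nat_lit 760), (nat_lit 760), (nat_lit 0), (nat_lit 835575), [(nat_lit 562500000), (nat_lit 885780000), (nat_lit 1265220000)], [], [(nat_lit 3140125735), (nat_lit 2901887446), (nat_lit 2858241276), (nat_lit 2868000816), (nat_lit 5232501270), (nat_lit 4772891655), (nat_lit 3204675585), (nat_lit 3064268880)], (nat_lit 1271251), (nat_lit 1271251), (nat_lit 1271251), (nat_lit 1271251), (nat_lit 0), (nat_lit 2825001), [(nat_lit 1412501), (nat_lit 1271251), (nat_lit 1271251)], [(nat_lit 24), (nat_lit 63), (nat_lit 456), (nat_lit 225), (nat_lit 11)]⟩,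
 ⟨⟨[(nat_lit 120), (nat_lit 160), (nat_lit 200)], [(nat_lit 0), (nat_lit 533), (nat_lit 3597)], [((nat_lit 0), (nat_lit 0), (nat_lit 0)), ((nat_lit 960), (nat_lit 1000), (nat_lit 200)), ((nat_lit 612), (nat_lit 1000), (nat_lit 732))], ((nat_lit 0), (nat_lit 0), (nat_lit 0))⟩, (nat_lit 27679), (nat_lit 300), (nat_lit 1102), (nat_lit 3766195), (nat_lit 1363736), [(nat_lit 414336000), (nat_lit 617344000), (nat_lit 852800000)], [], [(nat_lit 3505249040), (nat_lit 3439928424), (nat_lit 3277280720), (nat_lit 3209452896), (nat_lit 3314941527), (nat_lit 2711826204), (nat_lit 4066784432), (nat_lit 3480726656)], (nat_lit 1271251), (nat_lit 1271251), (nat_lit 704688), (nat_lit 1433125), (nat_lit 0), (nat_lit 2825001), [(nat_lit 1695001), (nat_lit 1271251), (nat_lit 1271251)], [(nat_lit 29), (nat_lit 66), (nat_lit 456), (nat_lit 225), (nat_lit 10)]⟩⟩))))) (.ord (.trZ (nat_lit 0) (nat_lit 1) (nat_lit 3) (nat_lit 100) (nat_lit 44) (nat_lit 94) (nat_lit 130) (.trZ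 (nat_lit 0) (nat_lit 2) (nat_lit 4) (nat_lit 100) (nat_lit 44) (nat_lit 94) (nat_lit 130) (.spl (nat_lit 0) (nat_lit 390) (.spl (nat_lit 6) (nat_lit 80) (.leaf ⟨(nat_lit 905), (nat_lit 16), (nat_lit 0), (nat_lit 79), (nat_lit 6), (nat_lit 3612), (nat_lit 1091), (nat_lit 1158), (nat_lit 0), (nat_lit 2660187887643), (nat_lit 327950), [((nat_lit 390), [((nat_lit 28), (nat_lit 0), (nat_lit 227)), ((nat_lit 28), (nat_lit 1), (nat_lit 678))])], ⟨(nat_lit 5), false, false, false, (nat_lit 205), (nat_lit 1581), (nat_lit 2237), [(nat_lit 1422801), (nat_lit 1427507), (nat_lit 1445530), (nat_lit 1450776), (nat_lit 1579788), (nat_lit 1577949), (nat_lit 1602558), (nat_lit 1601260)]⟩, ⟨(nat_lit 5), false, false, false, (nat_lit 194), (nat_lit 1581), (nat_lit 2237), [(nat_lit 1422801), (nat_lit 1427507), (nat_lit 1445530), (nat_lit 1450776), (nat_lit 1522729), (nat_lit 1523269), (nat_lit 1545457), (nat_lit 1546538)]⟩, (nat_lit 4906360), (nat_lit 42455837), (nat_lit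 12817307), (nat_lit 11726856), (nat_lit 5), (nat_lit 0), [⟨(nat_lit 0), (nat_lit 100), (nat_lit 38), (nat_lit 98), (nat_lit 5811781)⟩], [⟨(nat_lit 0), (nat_lit 100), (nat_lit 38), (nat_lit 98), (nat_lit 64867849)⟩], [⟨(nat_lit 0), (nat_lit 100), (nat_lit 100), (nat_lit 30), (nat_lit 9256227)⟩], [],
 ⟨⟨[(nat_lit 40), (nat_lit 80), (nat_lit 100)], [(nat_lit 0), (nat_lit 2514), (nat_lit 3562)], [((nat_lit 0), (nat_lit 0), (nat_lit 0)), ((nat_lit 1000), (nat_lit 446), (nat_lit 804)), ((nat_lit 1000), (nat_lit 443), (nat_lit 819))], ((nat_lit 44), (nat_lit 100), (nat_lit 82))⟩, (nat_lit 0), (nat_lit 153), (nat_lit 153), (nat_lit 0), (nat_lit 202126), [(nat_lit 1471602033), (nat_lit 1362902603), (nat_lit 568051997)], [(nat_lit 0), (nat_lit 0), (nat_lit 0)], [(nat_lit 21228918881), (nat_lit 22149230085), (nat_lit 23651828807), (nat_lit 24429996989), (nat_lit 22510175377), (nat_lit 23349962978), (nat_lit 24702874708), (nat_lit 25401948646)], (nat_lit 1271251),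 (nat_lit 1271251), (nat_lit 857188), (nat_lit 1768126), (nat_lit 857188), (nat_lit 1436876), [(nat_lit 490000), (nat_lit 1100000), (nat_lit 1442501)], [(nat_lit 3), (nat_lit 50), (nat_lit 345), (nat_lit 125), (nat_lit 12)]⟩,
 ⟨⟨[(nat_lit 100), (nat_lit 140), (nat_lit 180)], [(nat_lit 0), (nat_lit 508), (nat_lit 2854)], [((nat_lit 0), (nat_lit 0), (nat_lit 0)), ((nat_lit 1000), (nat_lit 1000), (nat_lit 198)), ((nat_lit 777), (nat_lit 1000), (nat_lit 712))], ((nat_lit 100), (nat_lit 68), (nat_lit 80))⟩, (nat_lit 275177), (nat_lit 658), (nat_lit 658), (nat_lit 0), (nat_lit 634030), [(nat_lit 593750000), (nat_lit 934990000), (nat_lit 1335510000)], [], [(nat_lit 3898020383), (nat_lit 3323632965), (nat_lit 3276033802), (nat_lit 3291281822), (nat_lit 4099444758), (nat_lit 3597160359), (nat_lit 5718971667), (nat_lit 5234378924)], (nat_lit 1271251), (nat_lit 1271251), (nat_lit 857188), (nat_lit 1768126), (nat_lit 0), (nat_lit 2825001), [(nat_lit 1412501),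 (nat_lit 1271251), (nat_lit 1271251)], [(nat_lit 24), (nat_lit 63), (nat_lit 456), (nat_lit 225), (nat_lit 11)]⟩,
 ⟨⟨[(nat_lit 100), (nat_lit 140), (nat_lit 180)], [(nat_lit 0), (nat_lit 508), (nat_lit 2854)], [((nat_lit 0), (nat_lit 0), (nat_lit 0)), ((nat_lit 1000), (nat_lit 1000), (nat_lit 198)), ((nat_lit 777), (nat_lit 1000), (nat_lit 712))], ((nat_lit 100), (nat_lit 68), (nat_lit 80))⟩, (nat_lit 50397), (nat_lit 300), (nat_lit 658), (nat_lit 5370831), (nat_lit 634030), [(nat_lit 493750000), (nat_lit 777518000), (nat_lit 1110582000)], [], [(nat_lit 4024153698), (nat_lit 3995631196), (nat_lit 3835266980), (nat_lit 3824314920), (nat_lit 3440851356), (nat_lit 3349893962), (nat_lit 4476683797), (nat_lit 3955605220)], (nat_lit 1271251), (nat_lit 1271251), (nat_lit 857188), (nat_lit 1436876), (nat_lit 0), (nat_lit 2825001), [(nat_lit 1412501), (nat_lit 1271251), (nat_lit 1271251)], [(nat_lit 24), (nat_lit 63), (nat_lit 456), (nat_lit 225), (nat_lit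 11)]⟩⟩) (.dle (nat_lit 0))) (.trZ (nat_lit 0) (nat_lit 1) (nat_lit 3) (nat_lit 100) (nat_lit 31) (nat_lit 98) (nat_lit 150) (.trZ (nat_lit 0) (nat_lit 2) (nat_lit 4) (nat_lit 100) (nat_lit 31) (nat_lit 98) (nat_lit 150) (.leaf ⟨(nat_lit 906), (nat_lit 15), (nat_lit 0), (nat_lit 79), (nat_lit 0), (nat_lit 3625), (nat_lit 1071), (nat_lit 1097), (nat_lit 0), (nat_lit 248617813740), (nat_lit 226500), [((nat_lit 400), [((nat_lit 29), (nat_lit 0), (nat_lit 906))])], ⟨(nat_lit 5), false, false, false, (nat_lit 211), (nat_lit 0), (nat_lit 1582), [(nat_lit 1452725), (nat_lit 1460204), (nat_lit 1475382), (nat_lit 1484547), (nat_lit 1577949), (nat_lit 1574999), (nat_lit 1601257), (nat_lit 1599992)]⟩, ⟨(nat_lit 5), false, false, false, (nat_lit 201), (nat_lit 0), (nat_lit 1582), [(nat_lit 1452725), (nat_lit 1460204), (nat_lit 1475382), (nat_lit 1484547), (nat_lit 1522658), (nat_lit 1524343), (nat_lit 1545316), (nat_lit 1548686)]⟩, (nat_lit 4996634), (nat_lit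 41566877), (nat_lit 13240532), (nat_lit 12192591), (nat_lit 5), (nat_lit 0), [], [⟨(nat_lit 0), (nat_lit 99), (nat_lit 22), (nat_lit 100), (nat_lit 284268865)⟩], [⟨(nat_lit 0), (nat_lit 100), (nat_lit 100), (nat_lit 30), (nat_lit 2175492)⟩, ⟨(nat_lit 0), (nat_lit 100), (nat_lit 100), (nat_lit 40), (nat_lit 11993696)⟩], [],
 ⟨⟨[(nat_lit 40), (nat_lit 60), (nat_lit 80)], [(nat_lit 0), (nat_lit 2136), (nat_lit 3185)], [((nat_lit 0), (nat_lit 0), (nat_lit 0)), ((nat_lit 1000), (nat_lit 343), (nat_lit 808)), ((nat_lit 1000), (nat_lit 338), (nat_lit 820))], ((nat_lit 32), (nat_lit 100), (nat_lit 86))⟩, (nat_lit 0), (nat_lit 136), (nat_lit 136), (nat_lit 0), (nat_lit 256831), [(nat_lit 1585271272), (nat_lit 1331398555), (nat_lit 1687690400)], [(nat_lit 0), (nat_lit 0), (nat_lit 0)], [(nat_lit 22805370783), (nat_lit 23470534515), (nat_lit 24741133835), (nat_lit 25315429632), (nat_lit 23815716597), (nat_lit 24430951538), (nat_lit 25580162538), (nat_lit 26113727250)],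 (nat_lit 1271251), (nat_lit 1271251), (nat_lit 1017188), (nat_lit 1779376), (nat_lit 1017188), (nat_lit 1440626), [(nat_lit 490000), (nat_lit 780000), (nat_lit 1100000)], [(nat_lit 2), (nat_lit 44), (nat_lit 345), (nat_lit 125), (nat_lit 14)]⟩,
 ⟨⟨[(nat_lit 100), (nat_lit 140), (nat_lit 180)], [(nat_lit 0), (nat_lit 508), (nat_lit 2854)], [((nat_lit 0), (nat_lit 0), (nat_lit 0)), ((nat_lit 1000), (nat_lit 1000), (nat_lit 198)), ((nat_lit 777), (nat_lit 1000), (nat_lit 712))], ((nat_lit 100), (nat_lit 64), (nat_lit 83))⟩, (nat_lit 398849), (nat_lit 775), (nat_lit 775), (nat_lit 0), (nat_lit 874803), [(nat_lit 587500000), (nat_lit 925148000), (nat_lit 1321452000)], [], [(nat_lit 3284253319), (nat_lit 2882654413), (nat_lit 2879024028), (nat_lit 2888638424), (nat_lit 5493310194), (nat_lit 5003517261), (nat_lit 3332313867), (nat_lit 3220509040)], (nat_lit 1271251), (nat_lit 1271251), (nat_lit 1271251), (nat_lit 1271251), (nat_lit 0), (nat_lit 2825001),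 [(nat_lit 1412501), (nat_lit 1271251), (nat_lit 1271251)], [(nat_lit 24), (nat_lit 63), (nat_lit 456), (nat_lit 225), (nat_lit 11)]⟩,
 ⟨⟨[(nat_lit 100), (nat_lit 140), (nat_lit 180)], [(nat_lit 0), (nat_lit 508), (nat_lit 2854)], [((nat_lit 0), (nat_lit 0), (nat_lit 0)), ((nat_lit 1000), (nat_lit 1000), (nat_lit 198)), ((nat_lit 777), (nat_lit 1000), (nat_lit 712))], ((nat_lit 100), (nat_lit 64), (nat_lit 83))⟩, (nat_lit 50397), (nat_lit 300), (nat_lit 775), (nat_lit 5370831), (nat_lit 874803), [(nat_lit 493750000), (nat_lit 777518000), (nat_lit 1110582000)], [], [(nat_lit 4011939940), (nat_lit 3976047453), (nat_lit 3884039466), (nat_lit 3845215228), (nat_lit 3682380666), (nat_lit 3248547833), (nat_lit 4441663016), (nat_lit 3948033310)], (nat_lit 1271251), (nat_lit 1271251), (nat_lit 1017188), (nat_lit 1440626), (nat_lit 0), (nat_lit 2825001), [(nat_lit 1412501), (nat_lit 1271251), (nat_lit 1271251)], [(nat_lit 24), (nat_lit 63), (nat_lit 456), (nat_lit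 225), (nat_lit 11)]⟩⟩))))))))
noncomputable def c13_44 : Tr Lf :=
 (.ord (.trX (nat_lit 3) (nat_lit 0) (nat_lit 1) (nat_lit 44) (nat_lit 86) (nat_lit 100) (nat_lit 310) (.spl (nat_lit 0) (nat_lit 390) (.spl (nat_lit 6) (nat_lit 76) (.spl (nat_lit 2) (nat_lit 200) (.spl (nat_lit 0) (nat_lit 385) (.spl (nat_lit 6) (nat_lit 68) (.leaf ⟨(nat_lit 929), (nat_lit 51), (nat_lit 0), (nat_lit 20), (nat_lit 0), (nat_lit 3487), (nat_lit 840), (nat_lit 295), (nat_lit 0), (nat_lit 294169), (nat_lit 232250), [((nat_lit 385), [((nat_lit 28), (nat_lit 0), (nat_lit 929))])], ⟨(nat_lit 6), false, true, true, (nat_lit 242), (nat_lit 1936), (nat_lit 2237), [(nat_lit 1534240), (nat_lit 1532877), (nat_lit 1579788), (nat_lit 1578898), (nat_lit 1634017), (nat_lit 1630683), (nat_lit 1679566), (nat_lit 1676705)]⟩, ⟨(nat_lit 4), false, false, false, (nat_lit 164), (nat_lit 1936), (nat_lit 2237), [(nat_lit 1320397), (nat_lit 1323258), (nat_lit 1343163), (nat_lit 1346260), (nat_lit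 1477224), (nat_lit 1476988), (nat_lit 1499999), (nat_lit 1499999)]⟩, (nat_lit 4889300), (nat_lit 41576386), (nat_lit 16516287), (nat_lit 8907327), (nat_lit 4), (nat_lit 0), [⟨(nat_lit 1), (nat_lit 91), (nat_lit 41), (nat_lit 100), (nat_lit 185236625)⟩, ⟨(nat_lit 1), (nat_lit 86), (nat_lit 44), (nat_lit 100), (nat_lit 22705625)⟩], [], [], [],
 ⟨⟨[(nat_lit 40), (nat_lit 60), (nat_lit 80)], [(nat_lit 0), (nat_lit 1539), (nat_lit 2453)], [((nat_lit 0), (nat_lit 0), (nat_lit 0)), ((nat_lit 1000), (nat_lit 478), (nat_lit 704)), ((nat_lit 1000), (nat_lit 474), (nat_lit 714))], ((nat_lit 45), (nat_lit 100), (nat_lit 78))⟩, (nat_lit 0), (nat_lit 123), (nat_lit 123), (nat_lit 0), (nat_lit 134478), [(nat_lit 1579870826), (nat_lit 1293052830), (nat_lit 1611523600)], [(nat_lit 0), (nat_lit 0), (nat_lit 0)], [(nat_lit 23890402346), (nat_lit 24194205513), (nat_lit 26562556127), (nat_lit 26904017378), (nat_lit 25218459605), (nat_lit 25480346989), (nat_lit 27449505827),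 (nat_lit 27677956238)], (nat_lit 1271251), (nat_lit 1271251), (nat_lit 1271251), (nat_lit 1271251), (nat_lit 559688), (nat_lit 1429376), [(nat_lit 490000), (nat_lit 780000), (nat_lit 1100000)], [(nat_lit 2), (nat_lit 44), (nat_lit 260), (nat_lit 50), (nat_lit 10)]⟩,
 ⟨⟨[(nat_lit 120), (nat_lit 160), (nat_lit 200)], [(nat_lit 0), (nat_lit 533), (nat_lit 3597)], [((nat_lit 0), (nat_lit 0), (nat_lit 0)), ((nat_lit 960), (nat_lit 1000), (nat_lit 200)), ((nat_lit 612), (nat_lit 1000), (nat_lit 732))], ((nat_lit 0), (nat_lit 0), (nat_lit 0))⟩, (nat_lit 247254), (nat_lit 696), (nat_lit 696), (nat_lit 0), (nat_lit 620306), [(nat_lit 565728000), (nat_lit 842912000), (nat_lit 1164400000)], [], [(nat_lit 2940196592), (nat_lit 2915509604), (nat_lit 3033466088), (nat_lit 2993176053), (nat_lit 4061286460), (nat_lit 3333579340), (nat_lit 2795487100), (nat_lit 2717841373)], (nat_lit 1271251), (nat_lit 1271251), (nat_lit 1271251), (nat_lit 1271251), (nat_lit 0), (nat_lit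 2825001), [(nat_lit 1695001), (nat_lit 1271251), (nat_lit 1271251)], [(nat_lit 29), (nat_lit 66), (nat_lit 483), (nat_lit 250), (nat_lit 10)]⟩,
 ⟨⟨[(nat_lit 120), (nat_lit 160), (nat_lit 200)], [(nat_lit 0), (nat_lit 533), (nat_lit 3597)], [((nat_lit 0), (nat_lit 0), (nat_lit 0)), ((nat_lit 960), (nat_lit 1000), (nat_lit 200)), ((nat_lit 612), (nat_lit 1000), (nat_lit 732))], ((nat_lit 0), (nat_lit 0), (nat_lit 0))⟩, (nat_lit 10646), (nat_lit 300), (nat_lit 819), (nat_lit 1448536), (nat_lit 673685), [(nat_lit 159360000), (nat_lit 237440000), (nat_lit 328000000)], [], [(nat_lit 1343170967), (nat_lit 1327785449), (nat_lit 1217828615), (nat_lit 1208691490), (nat_lit 1276176342), (nat_lit 1142146669), (nat_lit 1643941180), (nat_lit 1514534710)], (nat_lit 1271251), (nat_lit 1271251), (nat_lit 559688), (nat_lit 1429376), (nat_lit 0), (nat_lit 2825001), [(nat_lit 1695001), (nat_lit 1271251), (nat_lit 1271251)], [(nat_lit 29), (nat_lit 66), (nat_lit 428),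 (nat_lit 200), (nat_lit 9)]⟩⟩) (.dle (nat_lit 0))) (.trX (nat_lit 3) (nat_lit 0) (nat_lit 1) (nat_lit 38) (nat_lit 89) (nat_lit 100) (nat_lit 300) (.trZ (nat_lit 0) (nat_lit 2) (nat_lit 4) (nat_lit 100) (nat_lit 38) (nat_lit 89) (nat_lit 100) (.leaf ⟨(nat_lit 931), (nat_lit 43), (nat_lit 0), (nat_lit 26), (nat_lit 0), (nat_lit 3495), (nat_lit 828), (nat_lit 373), (nat_lit 0), (nat_lit 8053), (nat_lit 232750), [((nat_lit 390), [((nat_lit 28), (nat_lit 0), (nat_lit 931))])], ⟨(nat_lit 6), false, true, true, (nat_lit 239), (nat_lit 1581), (nat_lit 1937), [(nat_lit 1532877), (nat_lit 1531319), (nat_lit 1578898), (nat_lit 1577949), (nat_lit 1616711), (nat_lit 1613273), (nat_lit 1662732), (nat_lit 1659903)]⟩, ⟨(nat_lit 4), false, false, false, (nat_lit 168), (nat_lit 1581), (nat_lit 1937), [(nat_lit 1337211), (nat_lit 1340040), (nat_lit 1360207), (nat_lit 1363340), (nat_lit 1476988), (nat_lit 1476683), (nat_lit 1499999), (nat_lit 1499999)]⟩, (nat_lit 4899235),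 (nat_lit 41662160), (nat_lit 16133102), (nat_lit 9204738), (nat_lit 4), (nat_lit 0), [⟨(nat_lit 1), (nat_lit 89), (nat_lit 38), (nat_lit 100), (nat_lit 278989774)⟩], [], [], [],
 ⟨⟨[(nat_lit 40), (nat_lit 60), (nat_lit 80)], [(nat_lit 0), (nat_lit 1803), (nat_lit 2780)], [((nat_lit 0), (nat_lit 0), (nat_lit 0)), ((nat_lit 1000), (nat_lit 417), (nat_lit 754)), ((nat_lit 1000), (nat_lit 413), (nat_lit 764))], ((nat_lit 40), (nat_lit 100), (nat_lit 82))⟩, (nat_lit 0), (nat_lit 128), (nat_lit 128), (nat_lit 0), (nat_lit 167651), [(nat_lit 1579401201), (nat_lit 1295214207), (nat_lit 1604900400)], [(nat_lit 0), (nat_lit 0), (nat_lit 0)], [(nat_lit 24243534858), (nat_lit 24544040331), (nat_lit 26476137246), (nat_lit 26822521971), (nat_lit 25458086432), (nat_lit 25720234849), (nat_lit 27342691113), (nat_lit 27592616826)], (nat_lit 1271251), (nat_lit 1271251), (nat_lit 1271251), (nat_lit 1271251), (nat_lit 631250), (nat_lit 1431250), [(nat_lit 490000), (nat_lit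 780000), (nat_lit 1100000)], [(nat_lit 2), (nat_lit 44), (nat_lit 260), (nat_lit 50), (nat_lit 10)]⟩,
 ⟨⟨[(nat_lit 120), (nat_lit 160), (nat_lit 200)], [(nat_lit 0), (nat_lit 533), (nat_lit 3597)], [((nat_lit 0), (nat_lit 0), (nat_lit 0)), ((nat_lit 960), (nat_lit 1000), (nat_lit 200)), ((nat_lit 612), (nat_lit 1000), (nat_lit 732))], ((nat_lit 0), (nat_lit 0), (nat_lit 0))⟩, (nat_lit 243530), (nat_lit 804), (nat_lit 804), (nat_lit 0), (nat_lit 817688), [(nat_lit 549792000), (nat_lit 819168000), (nat_lit 1131600000)], [], [(nat_lit 2831488068), (nat_lit 2806412088), (nat_lit 2909058990), (nat_lit 2871529994), (nat_lit 3954922680), (nat_lit 3237611376), (nat_lit 2885451384), (nat_lit 2615907404)], (nat_lit 1271251), (nat_lit 1271251), (nat_lit 1271251), (nat_lit 1271251), (nat_lit 0), (nat_lit 2825001), [(nat_lit 1695001), (nat_lit 1271251), (nat_lit 1271251)], [(nat_lit 29), (nat_lit 66), (nat_lit 483), (nat_lit 250), (nat_lit 10)]⟩,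
 ⟨⟨[(nat_lit 120), (nat_lit 160), (nat_lit 200)], [(nat_lit 0), (nat_lit 533), (nat_lit 3597)], [((nat_lit 0), (nat_lit 0), (nat_lit 0)), ((nat_lit 960), (nat_lit 1000), (nat_lit 200)), ((nat_lit 612), (nat_lit 1000), (nat_lit 732))], ((nat_lit 0), (nat_lit 0), (nat_lit 0))⟩, (nat_lit 13839), (nat_lit 300), (nat_lit 887), (nat_lit 1883106), (nat_lit 864184), [(nat_lit 207168000), (nat_lit 308672000), (nat_lit 426400000)], [], [(nat_lit 1735901925), (nat_lit 1716669032), (nat_lit 1585977013), (nat_lit 1570459572), (nat_lit 1676243778), (nat_lit 1507317393), (nat_lit 2116965676), (nat_lit 1953343258)], (nat_lit 1271251), (nat_lit 1271251), (nat_lit 631250), (nat_lit 1431250), (nat_lit 0), (nat_lit 2825001), [(nat_lit 1695001), (nat_lit 1271251), (nat_lit 1271251)], [(nat_lit 29), (nat_lit 66), (nat_lit 428), (nat_lit 200), (nat_lit 9)]⟩⟩)))) (.ord (.trZ (nat_lit 0) (nat_lit 2) (nat_lit 4) (nat_lit 100) (nat_lit 44) (nat_lit 90) (nat_lit 110) (.leaf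 ⟨(nat_lit 900), (nat_lit 46), (nat_lit 0), (nat_lit 54), (nat_lit 428), (nat_lit 3518), (nat_lit 1098), (nat_lit 831), (nat_lit 0), (nat_lit 4590905), (nat_lit 225000), [((nat_lit 390), [((nat_lit 28), (nat_lit 0), (nat_lit 900))])], ⟨(nat_lit 6), false, true, true, (nat_lit 246), (nat_lit 1581), (nat_lit 2237), [(nat_lit 1557014), (nat_lit 1554634), (nat_lit 1579788), (nat_lit 1577949), (nat_lit 1656791), (nat_lit 1650247), (nat_lit 1679566), (nat_lit 1673562)]⟩, ⟨(nat_lit 5), false, false, false, (nat_lit 179), (nat_lit 1581), (nat_lit 2237), [(nat_lit 1371522), (nat_lit 1376877), (nat_lit 1394251), (nat_lit 1400146), (nat_lit 1499999), (nat_lit 1499999), (nat_lit 1522729), (nat_lit 1523269)]⟩, (nat_lit 5039337), (nat_lit 40333854), (nat_lit 16642552), (nat_lit 10023594), (nat_lit 5), (nat_lit 0), [⟨(nat_lit 1), (nat_lit 86), (nat_lit 44), (nat_lit 100), (nat_lit 261538237)⟩], [⟨(nat_lit 0), (nat_lit 100), (nat_lit 38), (nat_lit 94), (nat_lit 60663497)⟩],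 [⟨(nat_lit 0), (nat_lit 100), (nat_lit 100), (nat_lit 20), (nat_lit 16968183)⟩], [],
 ⟨⟨[(nat_lit 40), (nat_lit 60), (nat_lit 80)], [(nat_lit 0), (nat_lit 1539), (nat_lit 2453)], [((nat_lit 0), (nat_lit 0), (nat_lit 0)), ((nat_lit 1000), (nat_lit 478), (nat_lit 704)), ((nat_lit 1000), (nat_lit 474), (nat_lit 714))], ((nat_lit 45), (nat_lit 100), (nat_lit 80))⟩, (nat_lit 0), (nat_lit 127), (nat_lit 127), (nat_lit 0), (nat_lit 168956), [(nat_lit 1586680014), (nat_lit 1334439111), (nat_lit 1707560000)], [(nat_lit 0), (nat_lit 0), (nat_lit 0)], [(nat_lit 24094865222), (nat_lit 24690444774), (nat_lit 26622301890), (nat_lit 27290876762), (nat_lit 25270147713), (nat_lit 25795945487), (nat_lit 27505654723), (nat_lit 27999871788)], (nat_lit 1271251), (nat_lit 1271251), (nat_lit 1271251), (nat_lit 1271251), (nat_lit 704688), (nat_lit 1433125), [(nat_lit 490000), (nat_lit 780000), (nat_lit 1100000)], [(nat_lit 2), (nat_lit 44), (nat_lit 260), (nat_lit 50), (nat_lit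 10)]⟩,
 ⟨⟨[(nat_lit 100), (nat_lit 140), (nat_lit 180)], [(nat_lit 0), (nat_lit 0), (nat_lit 2434)], [((nat_lit 0), (nat_lit 0), (nat_lit 0)), ((nat_lit 0), (nat_lit 0), (nat_lit 0)), ((nat_lit 726), (nat_lit 1000), (nat_lit 688))], ((nat_lit 100), (nat_lit 62), (nat_lit 78))⟩, (nat_lit 294678), (nat_lit 639), (nat_lit 639), (nat_lit 0), (nat_lit 672931), [(nat_lit 625000000), (nat_lit 984200000), (nat_lit 1405800000)], [], [(nat_lit 3866270204), (nat_lit 3858908124), (nat_lit 4015612733), (nat_lit 4007054166), (nat_lit 4061395380), (nat_lit 3573693426), (nat_lit 3724579795), (nat_lit 3732228838)], (nat_lit 1271251), (nat_lit 1271251), (nat_lit 1271251), (nat_lit 1271251), (nat_lit 0), (nat_lit 2825001), [(nat_lit 1412501), (nat_lit 1271251), (nat_lit 1271251)], [(nat_lit 24), (nat_lit 63), (nat_lit 483), (nat_lit 250), (nat_lit 11)]⟩,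
 ⟨⟨[(nat_lit 100), (nat_lit 140), (nat_lit 180)], [(nat_lit 0), (nat_lit 0), (nat_lit 2434)], [((nat_lit 0), (nat_lit 0), (nat_lit 0)), ((nat_lit 0), (nat_lit 0), (nat_lit 0)), ((nat_lit 726), (nat_lit 1000), (nat_lit 688))], ((nat_lit 100), (nat_lit 62), (nat_lit 78))⟩, (nat_lit 31149), (nat_lit 300), (nat_lit 724), (nat_lit 3796200), (nat_lit 672931), [(nat_lit 337500000), (nat_lit 531468000), (nat_lit 759132000)], [], [(nat_lit 3256439457), (nat_lit 2842237774), (nat_lit 2663568720), (nat_lit 2654569218), (nat_lit 2583574791), (nat_lit 2404191557), (nat_lit 3454729563), (nat_lit 3080794937)], (nat_lit 1271251), (nat_lit 1271251), (nat_lit 704688), (nat_lit 1433125), (nat_lit 0), (nat_lit 2825001), [(nat_lit 1412501), (nat_lit 1271251), (nat_lit 1271251)], [(nat_lit 24), (nat_lit 63), (nat_lit 456), (nat_lit 225), (nat_lit 11)]⟩⟩)))) (.dle (nat_lit 0))) (.trX (nat_lit 3) (nat_lit 0) (nat_lit 1) (nat_lit 31) (nat_lit 92) (nat_lit 100) (nat_lit 290)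 (.trZ (nat_lit 0) (nat_lit 2) (nat_lit 4) (nat_lit 100) (nat_lit 31) (nat_lit 92) (nat_lit 110) (.spl (nat_lit 6) (nat_lit 68) (.spl (nat_lit 1) (nat_lit 200) (.ord (.trX (nat_lit 3) (nat_lit 0) (nat_lit 1) (nat_lit 31) (nat_lit 95) (nat_lit 100) (nat_lit 270) (.leaf ⟨(nat_lit 958), (nat_lit 11), (nat_lit 0), (nat_lit 31), (nat_lit 0), (nat_lit 3296), (nat_lit 686), (nat_lit 441), (nat_lit 0), (nat_lit 6513935), (nat_lit 306700), [((nat_lit 400), [((nat_lit 28), (nat_lit 0), (nat_lit 510)), ((nat_lit 28), (nat_lit 1), (nat_lit 448))])], ⟨(nat_lit 6), false, true, true, (nat_lit 224), (nat_lit 0), (nat_lit 1582), [(nat_lit 1531317), (nat_lit 1524997), (nat_lit 1554633), (nat_lit 1549998), (nat_lit 1572292), (nat_lit 1562495), (nat_lit 1595608), (nat_lit 1587496)]⟩, ⟨(nat_lit 4), false, false, false, (nat_lit 171), (nat_lit 0), (nat_lit 1582), [(nat_lit 1351461), (nat_lit 1360206), (nat_lit 1374119), (nat_lit 1384550), (nat_lit 1476683), (nat_lit 1474999),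 (nat_lit 1499999), (nat_lit 1499999)]⟩, (nat_lit 4840705), (nat_lit 42617715), (nat_lit 14755772), (nat_lit 9626513), (nat_lit 4), (nat_lit 0), [⟨(nat_lit 1), (nat_lit 99), (nat_lit 22), (nat_lit 100), (nat_lit 25976874)⟩, ⟨(nat_lit 1), (nat_lit 95), (nat_lit 31), (nat_lit 100), (nat_lit 505461686)⟩], [], [], [],
 ⟨⟨[(nat_lit 40), (nat_lit 60), (nat_lit 80)], [(nat_lit 0), (nat_lit 2136), (nat_lit 3185)], [((nat_lit 0), (nat_lit 0), (nat_lit 0)), ((nat_lit 1000), (nat_lit 343), (nat_lit 808)), ((nat_lit 1000), (nat_lit 338), (nat_lit 820))], ((nat_lit 34), (nat_lit 100), (nat_lit 82))⟩, (nat_lit 0), (nat_lit 138), (nat_lit 138), (nat_lit 0), (nat_lit 222397), [(nat_lit 1497797602), (nat_lit 967716529), (nat_lit 987384800)], [(nat_lit 0), (nat_lit 0), (nat_lit 0)], [(nat_lit 24144815725), (nat_lit 24771773300), (nat_lit 25279678912), (nat_lit 25993603199), (nat_lit 25299258478), (nat_lit 25862107606), (nat_lit 26301605155), (nat_lit 26881366040)],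 (nat_lit 1271251), (nat_lit 1271251), (nat_lit 1271251), (nat_lit 1271251), (nat_lit 704688), (nat_lit 1433125), [(nat_lit 490000), (nat_lit 780000), (nat_lit 1100000)], [(nat_lit 2), (nat_lit 44), (nat_lit 260), (nat_lit 50), (nat_lit 10)]⟩,
 ⟨⟨[(nat_lit 120), (nat_lit 160), (nat_lit 200)], [(nat_lit 0), (nat_lit 533), (nat_lit 3597)], [((nat_lit 0), (nat_lit 0), (nat_lit 0)), ((nat_lit 960), (nat_lit 1000), (nat_lit 200)), ((nat_lit 612), (nat_lit 1000), (nat_lit 732))], ((nat_lit 0), (nat_lit 0), (nat_lit 0))⟩, (nat_lit 255083), (nat_lit 959), (nat_lit 959), (nat_lit 0), (nat_lit 1216507), [(nat_lit 334656000), (nat_lit 498624000), (nat_lit 688800000)], [], [(nat_lit 1400053838), (nat_lit 1403118074), (nat_lit 1475815035), (nat_lit 1478413399), (nat_lit 2532797750), (nat_lit 2235650676), (nat_lit 2089767974), (nat_lit 1795311735)], (nat_lit 1271251), (nat_lit 1271251), (nat_lit 1271251), (nat_lit 1271251), (nat_lit 0), (nat_lit 2825001), [(nat_lit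 1695001), (nat_lit 1271251), (nat_lit 1271251)], [(nat_lit 29), (nat_lit 66), (nat_lit 456), (nat_lit 225), (nat_lit 10)]⟩,
 ⟨⟨[(nat_lit 120), (nat_lit 160), (nat_lit 200)], [(nat_lit 0), (nat_lit 533), (nat_lit 3597)], [((nat_lit 0), (nat_lit 0), (nat_lit 0)), ((nat_lit 960), (nat_lit 1000), (nat_lit 200)), ((nat_lit 612), (nat_lit 1000), (nat_lit 732))], ((nat_lit 0), (nat_lit 0), (nat_lit 0))⟩, (nat_lit 16501), (nat_lit 300), (nat_lit 1044), (nat_lit 2245232), (nat_lit 1216507), [(nat_lit 247008000), (nat_lit 368032000), (nat_lit 508400000)], [], [(nat_lit 2051097507), (nat_lit 2028422876), (nat_lit 1896005034), (nat_lit 1872540812), (nat_lit 2032710959), (nat_lit 1833628730), (nat_lit 2519361476), (nat_lit 2325909770)], (nat_lit 1271251), (nat_lit 1271251), (nat_lit 704688), (nat_lit 1433125), (nat_lit 0), (nat_lit 2825001), [(nat_lit 1695001), (nat_lit 1271251), (nat_lit 1271251)], [(nat_lit 29), (nat_lit 66), (nat_lit 428), (nat_lit 200), (nat_lit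 9)]⟩⟩))) (.leaf ⟨(nat_lit 921), (nat_lit 39), (nat_lit 0), (nat_lit 40), (nat_lit 0), (nat_lit 3226), (nat_lit 937), (nat_lit 582), (nat_lit 0), (nat_lit 21097274912), (nat_lit 317700), [((nat_lit 400), [((nat_lit 28), (nat_lit 0), (nat_lit 338)), ((nat_lit 28), (nat_lit 1), (nat_lit 583))])], ⟨(nat_lit 6), false, true, true, (nat_lit 239), (nat_lit 0), (nat_lit 1582), [(nat_lit 1554633), (nat_lit 1549998), (nat_lit 1577949), (nat_lit 1574999), (nat_lit 1622925), (nat_lit 1612495), (nat_lit 1646241), (nat_lit 1637496)]⟩, ⟨(nat_lit 4), false, false, false, (nat_lit 176), (nat_lit 0), (nat_lit 1582), [(nat_lit 1351461), (nat_lit 1360206), (nat_lit 1396777), (nat_lit 1408893), (nat_lit 1476683), (nat_lit 1474999), (nat_lit 1522658), (nat_lit 1524343)]⟩, (nat_lit 4969678), (nat_lit 41147649), (nat_lit 16020778), (nat_lit 9831573), (nat_lit 4), (nat_lit 0), [⟨(nat_lit 1), (nat_lit 96), (nat_lit 22), (nat_lit 100), (nat_lit 275703512)⟩, ⟨(nat_lit 1), (nat_lit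 92), (nat_lit 31), (nat_lit 100), (nat_lit 239412160)⟩], [], [⟨(nat_lit 0), (nat_lit 100), (nat_lit 100), (nat_lit 20), (nat_lit 649855)⟩], [⟨(nat_lit 0), (nat_lit 100), (nat_lit 97), (nat_lit 11), (nat_lit 8855392)⟩],
 ⟨⟨[(nat_lit 40), (nat_lit 60), (nat_lit 80)], [(nat_lit 0), (nat_lit 2136), (nat_lit 3185)], [((nat_lit 0), (nat_lit 0), (nat_lit 0)), ((nat_lit 1000), (nat_lit 343), (nat_lit 808)), ((nat_lit 1000), (nat_lit 338), (nat_lit 820))], ((nat_lit 34), (nat_lit 100), (nat_lit 82))⟩, (nat_lit 0), (nat_lit 146), (nat_lit 146), (nat_lit 0), (nat_lit 229459), [(nat_lit 1483805206), (nat_lit 920143762), (nat_lit 950776000)], [(nat_lit 0), (nat_lit 0), (nat_lit 0)], [(nat_lit 24191311179), (nat_lit 24763785391), (nat_lit 26031314517), (nat_lit 26706358900), (nat_lit 25361702863), (nat_lit 25919246918), (nat_lit 27023940781), (nat_lit 27530206358)], (nat_lit 1271251), (nat_lit 1271251), (nat_lit 1271251), (nat_lit 1271251), (nat_lit 704688), (nat_lit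 1433125), [(nat_lit 490000), (nat_lit 780000), (nat_lit 1100000)], [(nat_lit 2), (nat_lit 44), (nat_lit 260), (nat_lit 50), (nat_lit 10)]⟩,
 ⟨⟨[(nat_lit 100), (nat_lit 140), (nat_lit 180)], [(nat_lit 0), (nat_lit 0), (nat_lit 2434)], [((nat_lit 0), (nat_lit 0), (nat_lit 0)), ((nat_lit 0), (nat_lit 0), (nat_lit 0)), ((nat_lit 726), (nat_lit 1000), (nat_lit 688))], ((nat_lit 100), (nat_lit 66), (nat_lit 75))⟩, (nat_lit 269496), (nat_lit 788), (nat_lit 788), (nat_lit 0), (nat_lit 975829), [(nat_lit 493750000), (nat_lit 777518000), (nat_lit 1110582000)], [], [(nat_lit 2941881864), (nat_lit 2929595242), (nat_lit 3001324299), (nat_lit 2984767614), (nat_lit 3191163710), (nat_lit 2774973609), (nat_lit 2930465103), (nat_lit 2939103521)], (nat_lit 1271251), (nat_lit 1271251), (nat_lit 1271251), (nat_lit 1271251), (nat_lit 0), (nat_lit 2825001), [(nat_lit 1412501), (nat_lit 1271251), (nat_lit 1271251)], [(nat_lit 24), (nat_lit 63), (nat_lit 483), (nat_lit 250),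 (nat_lit 11)]⟩,
 ⟨⟨[(nat_lit 120), (nat_lit 160), (nat_lit 200)], [(nat_lit 0), (nat_lit 533), (nat_lit 3597)], [((nat_lit 0), (nat_lit 0), (nat_lit 0)), ((nat_lit 960), (nat_lit 1000), (nat_lit 200)), ((nat_lit 612), (nat_lit 1000), (nat_lit 732))], ((nat_lit 0), (nat_lit 0), (nat_lit 0))⟩, (nat_lit 21292), (nat_lit 300), (nat_lit 1056), (nat_lit 2897072), (nat_lit 1247831), [(nat_lit 318720000), (nat_lit 474880000), (nat_lit 656000000)], [], [(nat_lit 2634881851), (nat_lit 2574433838), (nat_lit 2434554294), (nat_lit 2398927026), (nat_lit 2639982529), (nat_lit 2114513789), (nat_lit 3279572720), (nat_lit 2768965496)], (nat_lit 1271251), (nat_lit 1271251), (nat_lit 704688), (nat_lit 1433125), (nat_lit 0), (nat_lit 2825001), [(nat_lit 1695001), (nat_lit 1271251), (nat_lit 1271251)], [(nat_lit 29), (nat_lit 66), (nat_lit 456), (nat_lit 225), (nat_lit 10)]⟩⟩)) (.spl (nat_lit 0) (nat_lit 395) (.leaf ⟨(nat_lit 920), (nat_lit 40), (nat_lit 0), (nat_lit 40),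 (nat_lit 6220), (nat_lit 3397), (nat_lit 972), (nat_lit 582), (nat_lit 0), (nat_lit 610288627122), (nat_lit 230000), [((nat_lit 395), [((nat_lit 29), (nat_lit 0), (nat_lit 920))])], ⟨(nat_lit 6), false, true, true, (nat_lit 235), (nat_lit 1118), (nat_lit 1582), [(nat_lit 1531319), (nat_lit 1529375), (nat_lit 1577949), (nat_lit 1576877), (nat_lit 1599614), (nat_lit 1595784), (nat_lit 1646244), (nat_lit 1643285)]⟩, ⟨(nat_lit 4), false, false, false, (nat_lit 176), (nat_lit 1118), (nat_lit 1582), [(nat_lit 1353643), (nat_lit 1356601), (nat_lit 1400208), (nat_lit 1404039), (nat_lit 1476683), (nat_lit 1476248), (nat_lit 1523282), (nat_lit 1523718)]⟩, (nat_lit 4947779), (nat_lit 41449462), (nat_lit 15680975), (nat_lit 9869563), (nat_lit 4), (nat_lit 0), [⟨(nat_lit 1), (nat_lit 96), (nat_lit 27), (nat_lit 100), (nat_lit 533652081)⟩], [], [], [⟨(nat_lit 0), (nat_lit 100), (nat_lit 97), (nat_lit 11), (nat_lit 1507002)⟩, ⟨(nat_lit 0), (nat_lit 100), (nat_lit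 89), (nat_lit 45), (nat_lit 491629)⟩],
 ⟨⟨[(nat_lit 40), (nat_lit 60), (nat_lit 80)], [(nat_lit 0), (nat_lit 2136), (nat_lit 3185)], [((nat_lit 0), (nat_lit 0), (nat_lit 0)), ((nat_lit 1000), (nat_lit 343), (nat_lit 808)), ((nat_lit 1000), (nat_lit 338), (nat_lit 820))], ((nat_lit 32), (nat_lit 100), (nat_lit 86))⟩, (nat_lit 0), (nat_lit 102), (nat_lit 102), (nat_lit 0), (nat_lit 67867), [(nat_lit 1581984003), (nat_lit 1437241250), (nat_lit 1641328000)], [(nat_lit 0), (nat_lit 0), (nat_lit 0)], [(nat_lit 24431046251), (nat_lit 24742652441), (nat_lit 26263297972), (nat_lit 26609166891), (nat_lit 25554648664), (nat_lit 25829527936), (nat_lit 27164460504), (nat_lit 27414520379)], (nat_lit 1271251), (nat_lit 1271251), (nat_lit 1271251), (nat_lit 1271251), (nat_lit 704688), (nat_lit 1433125), [(nat_lit 490000), (nat_lit 780000), (nat_lit 1100000)], [(nat_lit 2), (nat_lit 44), (nat_lit 260), (nat_lit 50), (nat_lit 10)]⟩,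
 ⟨⟨[(nat_lit 120), (nat_lit 160), (nat_lit 200)], [(nat_lit 0), (nat_lit 533), (nat_lit 3597)], [((nat_lit 0), (nat_lit 0), (nat_lit 0)), ((nat_lit 960), (nat_lit 1000), (nat_lit 200)), ((nat_lit 612), (nat_lit 1000), (nat_lit 732))], ((nat_lit 0), (nat_lit 0), (nat_lit 0))⟩, (nat_lit 286707), (nat_lit 551), (nat_lit 551), (nat_lit 0), (nat_lit 358154), [(nat_lit 637440000), (nat_lit 949760000), (nat_lit 1312000000)], [], [(nat_lit 3137527258), (nat_lit 3117810330), (nat_lit 3276985199), (nat_lit 3282715328), (nat_lit 4593689260), (nat_lit 3751628164), (nat_lit 3547467340), (nat_lit 3001235004)], (nat_lit 1271251), (nat_lit 1271251), (nat_lit 1271251), (nat_lit 1271251), (nat_lit 0), (nat_lit 2825001), [(nat_lit 1695001), (nat_lit 1271251), (nat_lit 1271251)], [(nat_lit 29), (nat_lit 66), (nat_lit 483), (nat_lit 250), (nat_lit 10)]⟩,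
 ⟨⟨[(nat_lit 120), (nat_lit 160), (nat_lit 200)], [(nat_lit 0), (nat_lit 533), (nat_lit 3597)], [((nat_lit 0), (nat_lit 0), (nat_lit 0)), ((nat_lit 960), (nat_lit 1000), (nat_lit 200)), ((nat_lit 612), (nat_lit 1000), (nat_lit 732))], ((nat_lit 0), (nat_lit 0), (nat_lit 0))⟩, (nat_lit 21291), (nat_lit 300), (nat_lit 652), (nat_lit 2897082), (nat_lit 358154), [(nat_lit 318720000), (nat_lit 474880000), (nat_lit 656000000)], [], [(nat_lit 2634887851), (nat_lit 2574437838), (nat_lit 2434558294), (nat_lit 2398931026), (nat_lit 2639982529), (nat_lit 2114513789), (nat_lit 3279572720), (nat_lit 2768965496)], (nat_lit 1271251), (nat_lit 1271251), (nat_lit 704688), (nat_lit 1433125), (nat_lit 0), (nat_lit 2825001), [(nat_lit 1695001), (nat_lit 1271251), (nat_lit 1271251)], [(nat_lit 29), (nat_lit 66), (nat_lit 456), (nat_lit 225), (nat_lit 10)]⟩⟩) (.trX (nat_lit 3) (nat_lit 0) (nat_lit 1) (nat_lit 22) (nat_lit 95) (nat_lit 100) (nat_lit 270) (.trZ (nat_lit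 0) (nat_lit 2) (nat_lit 4) (nat_lit 100) (nat_lit 22) (nat_lit 95) (nat_lit 130) (.leaf ⟨(nat_lit 927), (nat_lit 21), (nat_lit 0), (nat_lit 52), (nat_lit 3964), (nat_lit 3436), (nat_lit 954), (nat_lit 754), (nat_lit 0), (nat_lit 8516915613), (nat_lit 231750), [((nat_lit 400), [((nat_lit 29), (nat_lit 0), (nat_lit 927))])], ⟨(nat_lit 6), false, true, true, (nat_lit 228), (nat_lit 0), (nat_lit 1119), [(nat_lit 1529372), (nat_lit 1524996), (nat_lit 1576876), (nat_lit 1574998), (nat_lit 1569216), (nat_lit 1562495), (nat_lit 1616720), (nat_lit 1612497)]⟩, ⟨(nat_lit 4), false, false, false, (nat_lit 182), (nat_lit 0), (nat_lit 1119), [(nat_lit 1382114), (nat_lit 1386338), (nat_lit 1428685), (nat_lit 1435407), (nat_lit 1476247), (nat_lit 1474998), (nat_lit 1523285), (nat_lit 1524534)]⟩, (nat_lit 4957537), (nat_lit 41588296), (nat_lit 14999005), (nat_lit 10412699), (nat_lit 4), (nat_lit 0), [⟨(nat_lit 1), (nat_lit 95), (nat_lit 22), (nat_lit 100), (nat_lit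 657536805)⟩], [], [], [⟨(nat_lit 0), (nat_lit 100), (nat_lit 94), (nat_lit 35), (nat_lit 6781904)⟩],
 ⟨⟨[(nat_lit 40), (nat_lit 60), (nat_lit 80)], [(nat_lit 0), (nat_lit 2600), (nat_lit 3731)], [((nat_lit 0), (nat_lit 0), (nat_lit 0)), ((nat_lit 1000), (nat_lit 245), (nat_lit 872)), ((nat_lit 1000), (nat_lit 240), (nat_lit 884))], ((nat_lit 24), (nat_lit 100), (nat_lit 89))⟩, (nat_lit 0), (nat_lit 104), (nat_lit 104), (nat_lit 0), (nat_lit 101344), [(nat_lit 1580340469), (nat_lit 1410916778), (nat_lit 1618146800)], [(nat_lit 0), (nat_lit 0), (nat_lit 0)], [(nat_lit 24800547175), (nat_lit 25106141093), (nat_lit 25857020178), (nat_lit 26212384397), (nat_lit 25762778109), (nat_lit 26039043221), (nat_lit 26715607361), (nat_lit 27029139015)], (nat_lit 1271251), (nat_lit 1271251), (nat_lit 1271251), (nat_lit 1271251), (nat_lit 857188), (nat_lit 1436876), [(nat_lit 490000), (nat_lit 780000), (nat_lit 1100000)], [(nat_lit 2), (nat_lit 44), (nat_lit 260),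 (nat_lit 50), (nat_lit 10)]⟩,
 ⟨⟨[(nat_lit 120), (nat_lit 160), (nat_lit 200)], [(nat_lit 0), (nat_lit 533), (nat_lit 3597)], [((nat_lit 0), (nat_lit 0), (nat_lit 0)), ((nat_lit 960), (nat_lit 1000), (nat_lit 200)), ((nat_lit 612), (nat_lit 1000), (nat_lit 732))], ((nat_lit 0), (nat_lit 0), (nat_lit 0))⟩, (nat_lit 296665), (nat_lit 669), (nat_lit 669), (nat_lit 0), (nat_lit 551556), [(nat_lit 581664000), (nat_lit 866656000), (nat_lit 1197200000)], [], [(nat_lit 2794767637), (nat_lit 2761451602), (nat_lit 2845964864), (nat_lit 2855804052), (nat_lit 4237959350), (nat_lit 3411491978), (nat_lit 3621850886), (nat_lit 2802867644)], (nat_lit 1271251), (nat_lit 1271251), (nat_lit 1271251), (nat_lit 1271251), (nat_lit 0), (nat_lit 2825001), [(nat_lit 1695001), (nat_lit 1271251), (nat_lit 1271251)], [(nat_lit 29), (nat_lit 66), (nat_lit 456), (nat_lit 225), (nat_lit 10)]⟩,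
 ⟨⟨[(nat_lit 120), (nat_lit 160), (nat_lit 200)], [(nat_lit 0), (nat_lit 533), (nat_lit 3597)], [((nat_lit 0), (nat_lit 0), (nat_lit 0)), ((nat_lit 960), (nat_lit 1000), (nat_lit 200)), ((nat_lit 612), (nat_lit 1000), (nat_lit 732))], ((nat_lit 0), (nat_lit 0), (nat_lit 0))⟩, (nat_lit 27679), (nat_lit 300), (nat_lit 716), (nat_lit 3766195), (nat_lit 551556), [(nat_lit 414336000), (nat_lit 617344000), (nat_lit 852800000)], [], [(nat_lit 3352964373), (nat_lit 3274607699), (nat_lit 3164562688), (nat_lit 3118546640), (nat_lit 3578726974), (nat_lit 2902344676), (nat_lit 4269766696), (nat_lit 3608258368)], (nat_lit 1271251), (nat_lit 1271251), (nat_lit 857188), (nat_lit 1436876), (nat_lit 0), (nat_lit 2825001), [(nat_lit 1695001), (nat_lit 1271251), (nat_lit 1271251)], [(nat_lit 29), (nat_lit 66), (nat_lit 456), (nat_lit 225), (nat_lit 10)]⟩⟩))))))))))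
noncomputable def c13_45 : Tr Lf :=
 (.spl (nat_lit 5) (nat_lit 120) (.spl (nat_lit 6) (nat_lit 68) (.spl (nat_lit 1) (nat_lit 230) (.ord (.trX (nat_lit 3) (nat_lit 0) (nat_lit 1) (nat_lit 44) (nat_lit 83) (nat_lit 100) (nat_lit 320) (.spl (nat_lit 0) (nat_lit 390) (.leaf ⟨(nat_lit 834), (nat_lit 90), (nat_lit 0), (nat_lit 76), (nat_lit 0), (nat_lit 3569), (nat_lit 1732), (nat_lit 1100), (nat_lit 0), (nat_lit 212640785232), (nat_lit 208500), [((nat_lit 390), [((nat_lit 28), (nat_lit 0), (nat_lit 834))])], ⟨(nat_lit 6), false, true, true, (nat_lit 256), (nat_lit 1581), (nat_lit 2237), [(nat_lit 1579788), (nat_lit 1577949), (nat_lit 1591175), (nat_lit 1589607), (nat_lit 1693819), (nat_lit 1687221), (nat_lit 1705207), (nat_lit 1698878)]⟩, ⟨(nat_lit 4), false, false, false, (nat_lit 172), (nat_lit 1581), (nat_lit 2237), [(nat_lit 1320243), (nat_lit 1326247), (nat_lit 1377065), (nat_lit 1384420), (nat_lit 1477224), (nat_lit 1476683), (nat_lit 1534093),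 (nat_lit 1534904)]⟩, (nat_lit 5019938), (nat_lit 40053728), (nat_lit 17647079), (nat_lit 9299193), (nat_lit 4), (nat_lit 0), [⟨(nat_lit 1), (nat_lit 88), (nat_lit 38), (nat_lit 100), (nat_lit 258999267)⟩], [⟨(nat_lit 0), (nat_lit 100), (nat_lit 32), (nat_lit 100), (nat_lit 129267505)⟩], [⟨(nat_lit 0), (nat_lit 100), (nat_lit 100), (nat_lit 30), (nat_lit 123109496)⟩], [],
 ⟨⟨[(nat_lit 40), (nat_lit 60), (nat_lit 80)], [(nat_lit 0), (nat_lit 1539), (nat_lit 2453)], [((nat_lit 0), (nat_lit 0), (nat_lit 0)), ((nat_lit 1000), (nat_lit 478), (nat_lit 704)), ((nat_lit 1000), (nat_lit 474), (nat_lit 714))], ((nat_lit 45), (nat_lit 100), (nat_lit 78))⟩, (nat_lit 0), (nat_lit 138), (nat_lit 138), (nat_lit 0), (nat_lit 182887), [(nat_lit 1602176805), (nat_lit 1460452833), (nat_lit 1926125600)], [(nat_lit 0), (nat_lit 0), (nat_lit 0)], [(nat_lit 24118931367), (nat_lit 24733261177), (nat_lit 27142057609), (nat_lit 27815116083), (nat_lit 25424342378), (nat_lit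 25953468322), (nat_lit 27987594635), (nat_lit 28439645781)], (nat_lit 1271251), (nat_lit 1271251), (nat_lit 1271251), (nat_lit 1271251), (nat_lit 559688), (nat_lit 1429376), [(nat_lit 490000), (nat_lit 780000), (nat_lit 1100000)], [(nat_lit 2), (nat_lit 44), (nat_lit 260), (nat_lit 50), (nat_lit 10)]⟩,
 ⟨⟨[(nat_lit 100), (nat_lit 140), (nat_lit 180)], [(nat_lit 0), (nat_lit 508), (nat_lit 2854)], [((nat_lit 0), (nat_lit 0), (nat_lit 0)), ((nat_lit 1000), (nat_lit 1000), (nat_lit 198)), ((nat_lit 777), (nat_lit 1000), (nat_lit 712))], ((nat_lit 100), (nat_lit 74), (nat_lit 76))⟩, (nat_lit 708449), (nat_lit 543), (nat_lit 543), (nat_lit 0), (nat_lit 443599), [(nat_lit 1037500000), (nat_lit 1633772000), (nat_lit 2333628000)], [], [(nat_lit 5397505304), (nat_lit 5408156542), (nat_lit 5798195306), (nat_lit 5796065767), (nat_lit 4280253263), (nat_lit 4287276908), (nat_lit 4621927820), (nat_lit 4617549484)], (nat_lit 1271251), (nat_lit 1271251), (nat_lit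 1271251), (nat_lit 1271251), (nat_lit 0), (nat_lit 780000), [(nat_lit 1412501), (nat_lit 1271251), (nat_lit 1271251)], [(nat_lit 24), (nat_lit 63), (nat_lit 401), (nat_lit 175), (nat_lit 9)]⟩,
 ⟨⟨[(nat_lit 120), (nat_lit 160), (nat_lit 200)], [(nat_lit 0), (nat_lit 533), (nat_lit 3597)], [((nat_lit 0), (nat_lit 0), (nat_lit 0)), ((nat_lit 960), (nat_lit 1000), (nat_lit 200)), ((nat_lit 612), (nat_lit 1000), (nat_lit 732))], ((nat_lit 0), (nat_lit 0), (nat_lit 0))⟩, (nat_lit 40454), (nat_lit 300), (nat_lit 814), (nat_lit 5504438), (nat_lit 660724), [(nat_lit 605568000), (nat_lit 902272000), (nat_lit 1246400000)], [], [(nat_lit 5120485737), (nat_lit 4978946793), (nat_lit 4624854010), (nat_lit 4541074115), (nat_lit 4172213814), (nat_lit 4036367623), (nat_lit 3707891506), (nat_lit 3562512976)], (nat_lit 1271251), (nat_lit 1271251), (nat_lit 559688), (nat_lit 1429376), (nat_lit 0), (nat_lit 780000), [(nat_lit 1695001), (nat_lit 1271251), (nat_lit 1271251)],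 [(nat_lit 29), (nat_lit 66), (nat_lit 373), (nat_lit 150), (nat_lit 8)]⟩⟩) (.trX (nat_lit 3) (nat_lit 0) (nat_lit 1) (nat_lit 32) (nat_lit 90) (nat_lit 100) (nat_lit 300) (.trZ (nat_lit 0) (nat_lit 2) (nat_lit 4) (nat_lit 100) (nat_lit 31) (nat_lit 92) (nat_lit 110) (.leaf ⟨(nat_lit 868), (nat_lit 64), (nat_lit 0), (nat_lit 68), (nat_lit 0), (nat_lit 3227), (nat_lit 1421), (nat_lit 965), (nat_lit 0), (nat_lit 660507), (nat_lit 303400), [((nat_lit 400), [((nat_lit 28), (nat_lit 0), (nat_lit 292)), ((nat_lit 28), (nat_lit 1), (nat_lit 576))])], ⟨(nat_lit 6), false, true, true, (nat_lit 249), (nat_lit 0), (nat_lit 1582), [(nat_lit 1577949), (nat_lit 1574999), (nat_lit 1589607), (nat_lit 1587498), (nat_lit 1659900), (nat_lit 1649996), (nat_lit 1671558), (nat_lit 1662496)]⟩, ⟨(nat_lit 4), false, false, false, (nat_lit 178), (nat_lit 0), (nat_lit 1582), [(nat_lit 1351461), (nat_lit 1360206), (nat_lit 1408106), (nat_lit 1421064), (nat_lit 1476683), (nat_lit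 1474999), (nat_lit 1533986), (nat_lit 1536514)]⟩, (nat_lit 5039764), (nat_lit 40241378), (nat_lit 16862510), (nat_lit 9896112), (nat_lit 4), (nat_lit 0), [⟨(nat_lit 1), (nat_lit 95), (nat_lit 22), (nat_lit 100), (nat_lit 327762494)⟩, ⟨(nat_lit 1), (nat_lit 90), (nat_lit 32), (nat_lit 100), (nat_lit 106552410)⟩], [⟨(nat_lit 0), (nat_lit 100), (nat_lit 22), (nat_lit 98), (nat_lit 81435377)⟩], [⟨(nat_lit 0), (nat_lit 100), (nat_lit 100), (nat_lit 30), (nat_lit 108581994)⟩], [],
 ⟨⟨[(nat_lit 40), (nat_lit 60), (nat_lit 80)], [(nat_lit 0), (nat_lit 2136), (nat_lit 3185)], [((nat_lit 0), (nat_lit 0), (nat_lit 0)), ((nat_lit 1000), (nat_lit 343), (nat_lit 808)), ((nat_lit 1000), (nat_lit 338), (nat_lit 820))], ((nat_lit 34), (nat_lit 100), (nat_lit 82))⟩, (nat_lit 0), (nat_lit 154), (nat_lit 154), (nat_lit 0), (nat_lit 239157), [(nat_lit 1497425602), (nat_lit 1025357026), (nat_lit 1134542400)], [(nat_lit 0), (nat_lit 0), (nat_lit 0)], [(nat_lit 24400731385),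 (nat_lit 24973284725), (nat_lit 26454151341), (nat_lit 27112715998), (nat_lit 25569567630), (nat_lit 26076375252), (nat_lit 27395900786), (nat_lit 27892301134)], (nat_lit 1271251), (nat_lit 1271251), (nat_lit 1271251), (nat_lit 1271251), (nat_lit 704688), (nat_lit 1433125), [(nat_lit 490000), (nat_lit 780000), (nat_lit 1100000)], [(nat_lit 2), (nat_lit 44), (nat_lit 260), (nat_lit 50), (nat_lit 10)]⟩,
 ⟨⟨[(nat_lit 100), (nat_lit 140), (nat_lit 180)], [(nat_lit 0), (nat_lit 508), (nat_lit 2854)], [((nat_lit 0), (nat_lit 0), (nat_lit 0)), ((nat_lit 1000), (nat_lit 1000), (nat_lit 198)), ((nat_lit 777), (nat_lit 1000), (nat_lit 712))], ((nat_lit 100), (nat_lit 74), (nat_lit 76))⟩, (nat_lit 585437), (nat_lit 621), (nat_lit 621), (nat_lit 0), (nat_lit 643834), [(nat_lit 825000000), (nat_lit 1299144000), (nat_lit 1855656000)], [], [(nat_lit 4170600208), (nat_lit 4178476308), (nat_lit 4411550591), (nat_lit 4412195051), (nat_lit 3246626508), (nat_lit 3251564688),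 (nat_lit 3451535725), (nat_lit 3449491102)], (nat_lit 1271251), (nat_lit 1271251), (nat_lit 1271251), (nat_lit 1271251), (nat_lit 0), (nat_lit 780000), [(nat_lit 1412501), (nat_lit 1271251), (nat_lit 1271251)], [(nat_lit 24), (nat_lit 63), (nat_lit 401), (nat_lit 175), (nat_lit 9)]⟩,
 ⟨⟨[(nat_lit 120), (nat_lit 160), (nat_lit 200)], [(nat_lit 0), (nat_lit 533), (nat_lit 3597)], [((nat_lit 0), (nat_lit 0), (nat_lit 0)), ((nat_lit 960), (nat_lit 1000), (nat_lit 200)), ((nat_lit 612), (nat_lit 1000), (nat_lit 732))], ((nat_lit 0), (nat_lit 0), (nat_lit 0))⟩, (nat_lit 72272), (nat_lit 300), (nat_lit 910), (nat_lit 4804844), (nat_lit 937818), [(nat_lit 541824000), (nat_lit 807296000), (nat_lit 1115200000)], [], [(nat_lit 4429196663), (nat_lit 4305459281), (nat_lit 4090050311), (nat_lit 4015111238), (nat_lit 3605560339), (nat_lit 3487001654), (nat_lit 3323402864), (nat_lit 3162641405)], (nat_lit 1271251), (nat_lit 1271251), (nat_lit 704688), (nat_lit 1433125),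 (nat_lit 0), (nat_lit 780000), [(nat_lit 1695001), (nat_lit 1271251), (nat_lit 1271251)], [(nat_lit 29), (nat_lit 66), (nat_lit 373), (nat_lit 150), (nat_lit 8)]⟩⟩)))))) (.leaf ⟨(nat_lit 748), (nat_lit 162), (nat_lit 0), (nat_lit 90), (nat_lit 0), (nat_lit 3777), (nat_lit 2239), (nat_lit 1351), (nat_lit 0), (nat_lit 385120), (nat_lit 190900), [((nat_lit 400), [((nat_lit 28), (nat_lit 0), (nat_lit 722)), ((nat_lit 28), (nat_lit 1), (nat_lit 26))])], ⟨(nat_lit 6), false, true, true, (nat_lit 262), (nat_lit 0), (nat_lit 2237), [(nat_lit 1591175), (nat_lit 1587498), (nat_lit 1602531), (nat_lit 1599967), (nat_lit 1719456), (nat_lit 1699995), (nat_lit 1730844), (nat_lit 1712494)]⟩, ⟨(nat_lit 4), false, false, false, (nat_lit 174), (nat_lit 0), (nat_lit 2237), [(nat_lit 1316293), (nat_lit 1333360), (nat_lit 1381836), (nat_lit 1405580), (nat_lit 1477224), (nat_lit 1474999), (nat_lit 1543695), (nat_lit 1548146)]⟩, (nat_lit 5066606), (nat_lit 39442990), (nat_lit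 18140289), (nat_lit 9416721), (nat_lit 4), (nat_lit 0), [⟨(nat_lit 1), (nat_lit 89), (nat_lit 32), (nat_lit 100), (nat_lit 417368873)⟩], [⟨(nat_lit 0), (nat_lit 100), (nat_lit 31), (nat_lit 97), (nat_lit 135942817)⟩], [⟨(nat_lit 0), (nat_lit 100), (nat_lit 99), (nat_lit 22), (nat_lit 66757674)⟩, ⟨(nat_lit 0), (nat_lit 100), (nat_lit 100), (nat_lit 40), (nat_lit 72235827)⟩], [],
 ⟨⟨[(nat_lit 40), (nat_lit 60), (nat_lit 80)], [(nat_lit 0), (nat_lit 1539), (nat_lit 2453)], [((nat_lit 0), (nat_lit 0), (nat_lit 0)), ((nat_lit 1000), (nat_lit 478), (nat_lit 704)), ((nat_lit 1000), (nat_lit 474), (nat_lit 714))], ((nat_lit 45), (nat_lit 100), (nat_lit 78))⟩, (nat_lit 0), (nat_lit 173), (nat_lit 173), (nat_lit 0), (nat_lit 257853), [(nat_lit 1618001619), (nat_lit 1590888880), (nat_lit 2180274400)], [(nat_lit 0), (nat_lit 0), (nat_lit 0)], [(nat_lit 24127835902), (nat_lit 25442524096), (nat_lit 28035889877), (nat_lit 29383111013), (nat_lit 25321203166), (nat_lit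 26406782232), (nat_lit 28581852408), (nat_lit 29743557645)], (nat_lit 1271251), (nat_lit 1271251), (nat_lit 1271251), (nat_lit 1271251), (nat_lit 559688), (nat_lit 1429376), [(nat_lit 490000), (nat_lit 780000), (nat_lit 1100000)], [(nat_lit 2), (nat_lit 44), (nat_lit 260), (nat_lit 50), (nat_lit 10)]⟩,
 ⟨⟨[(nat_lit 100), (nat_lit 140), (nat_lit 180)], [(nat_lit 0), (nat_lit 766), (nat_lit 3056)], [((nat_lit 0), (nat_lit 0), (nat_lit 0)), ((nat_lit 1000), (nat_lit 1000), (nat_lit 299)), ((nat_lit 809), (nat_lit 1000), (nat_lit 722))], ((nat_lit 100), (nat_lit 77), (nat_lit 76))⟩, (nat_lit 1637051), (nat_lit 605), (nat_lit 605), (nat_lit 0), (nat_lit 610140), [(nat_lit 1575000000), (nat_lit 2480184000), (nat_lit 3542616000)], [], [(nat_lit 6875073965), (nat_lit 6896809188), (nat_lit 7842119639), (nat_lit 7910246315), (nat_lit 5646614638), (nat_lit 5662478588), (nat_lit 6332190646), (nat_lit 6357161249)], (nat_lit 1271251), (nat_lit 1271251), (nat_lit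 1271251), (nat_lit 1271251), (nat_lit 0), (nat_lit 780000), [(nat_lit 1412501), (nat_lit 1271251), (nat_lit 1271251)], [(nat_lit 24), (nat_lit 63), (nat_lit 401), (nat_lit 175), (nat_lit 9)]⟩,
 ⟨⟨[(nat_lit 120), (nat_lit 160), (nat_lit 200)], [(nat_lit 0), (nat_lit 533), (nat_lit 3597)], [((nat_lit 0), (nat_lit 0), (nat_lit 0)), ((nat_lit 960), (nat_lit 1000), (nat_lit 200)), ((nat_lit 612), (nat_lit 1000), (nat_lit 732))], ((nat_lit 0), (nat_lit 0), (nat_lit 0))⟩, (nat_lit 47906), (nat_lit 300), (nat_lit 935), (nat_lit 6518414), (nat_lit 973764), [(nat_lit 717120000), (nat_lit 1068480000), (nat_lit 1476000000)], [], [(nat_lit 6025878620), (nat_lit 5903541857), (nat_lit 5483469442), (nat_lit 5356059076), (nat_lit 4856306215), (nat_lit 4652827679), (nat_lit 4415284303), (nat_lit 4149866279)], (nat_lit 1271251), (nat_lit 1271251), (nat_lit 559688), (nat_lit 1429376), (nat_lit 0), (nat_lit 780000), [(nat_lit 1695001), (nat_lit 1271251), (nat_lit 1271251)],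 [(nat_lit 29), (nat_lit 66), (nat_lit 373), (nat_lit 150), (nat_lit 8)]⟩⟩)) (.spl (nat_lit 0) (nat_lit 390) (.spl (nat_lit 6) (nat_lit 80) (.leaf ⟨(nat_lit 46), (nat_lit 779), (nat_lit 0), (nat_lit 175), (nat_lit 16152), (nat_lit 4315), (nat_lit 9893), (nat_lit 1987), (nat_lit 0), (nat_lit 3250386733631), (nat_lit 11500), [((nat_lit 390), [((nat_lit 28), (nat_lit 0), (nat_lit 46))])], ⟨(nat_lit 6), false, true, true, (nat_lit 261), (nat_lit 1581), (nat_lit 2237), [(nat_lit 1579788), (nat_lit 1577949), (nat_lit 1602558), (nat_lit 1601260), (nat_lit 1708073), (nat_lit 1700880), (nat_lit 1730848), (nat_lit 1724195)]⟩, ⟨(nat_lit 4), false, false, false, (nat_lit 174), (nat_lit 1581), (nat_lit 2237), [(nat_lit 1320243), (nat_lit 1326247), (nat_lit 1388429), (nat_lit 1396055), (nat_lit 1477224), (nat_lit 1476683), (nat_lit 1545457), (nat_lit 1546538)]⟩, (nat_lit 5061055), (nat_lit 39526070), (nat_lit 18061981), (nat_lit 9411949), (nat_lit 4), (nat_lit 0),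 [], [], [⟨(nat_lit 0), (nat_lit 100), (nat_lit 99), (nat_lit 20), (nat_lit 366515572)⟩], [],
 ⟨⟨[(nat_lit 40), (nat_lit 80), (nat_lit 100)], [(nat_lit 0), (nat_lit 2514), (nat_lit 3562)], [((nat_lit 0), (nat_lit 0), (nat_lit 0)), ((nat_lit 1000), (nat_lit 446), (nat_lit 804)), ((nat_lit 1000), (nat_lit 443), (nat_lit 819))], ((nat_lit 44), (nat_lit 100), (nat_lit 82))⟩, (nat_lit 818982), (nat_lit 128), (nat_lit 128), (nat_lit 0), (nat_lit 52384), [(nat_lit 1973985143), (nat_lit 5130111846), (nat_lit 5411090954)], [(nat_lit 0), (nat_lit 0), (nat_lit 0)], [(nat_lit 25019556069), (nat_lit 25736142647), (nat_lit 28877546543), (nat_lit 29597687915), (nat_lit 25918084747), (nat_lit 26495893346), (nat_lit 29263811709), (nat_lit 29797211747)], (nat_lit 1271251), (nat_lit 1271251), (nat_lit 1271251), (nat_lit 1271251), (nat_lit 559688), (nat_lit 1429376), [(nat_lit 490000), (nat_lit 1100000), (nat_lit 1442501)], [(nat_lit 3), (nat_lit 50), (nat_lit 260), (nat_lit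 50), (nat_lit 8)]⟩,
 ⟨⟨[(nat_lit 100), (nat_lit 140), (nat_lit 180)], [(nat_lit 0), (nat_lit 508), (nat_lit 2854)], [((nat_lit 0), (nat_lit 0), (nat_lit 0)), ((nat_lit 1000), (nat_lit 1000), (nat_lit 198)), ((nat_lit 777), (nat_lit 1000), (nat_lit 712))], ((nat_lit 100), (nat_lit 68), (nat_lit 80))⟩, (nat_lit 4078168), (nat_lit 373), (nat_lit 373), (nat_lit 0), (nat_lit 117872), [(nat_lit 5962500000), (nat_lit 9389268000), (nat_lit 13411332000)], [], [(nat_lit 29124686321), (nat_lit 29567099792), (nat_lit 33966973652), (nat_lit 34168968654), (nat_lit 22459599545), (nat_lit 22838472350), (nat_lit 26685946236), (nat_lit 26838759295)], (nat_lit 1271251), (nat_lit 1271251), (nat_lit 1271251), (nat_lit 1271251), (nat_lit 0), (nat_lit 780000), [(nat_lit 1412501), (nat_lit 1271251), (nat_lit 1271251)], [(nat_lit 24), (nat_lit 63), (nat_lit 401), (nat_lit 175), (nat_lit 9)]⟩,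
 ⟨⟨[(nat_lit 120), (nat_lit 160), (nat_lit 200)], [(nat_lit 0), (nat_lit 533), (nat_lit 3597)], [((nat_lit 0), (nat_lit 0), (nat_lit 0)), ((nat_lit 960), (nat_lit 1000), (nat_lit 200)), ((nat_lit 612), (nat_lit 1000), (nat_lit 732))], ((nat_lit 0), (nat_lit 0), (nat_lit 0))⟩, (nat_lit 93150), (nat_lit 300), (nat_lit 552), (nat_lit 12674698), (nat_lit 194425), [(nat_lit 1394400000), (nat_lit 2077600000), (nat_lit 2870000000)], [], [(nat_lit 11265878517), (nat_lit 11159019238), (nat_lit 10574076117), (nat_lit 10436871982), (nat_lit 9636629172), (nat_lit 9446799775), (nat_lit 8944483457), (nat_lit 8731736353)], (nat_lit 1271251), (nat_lit 1271251), (nat_lit 559688), (nat_lit 1429376), (nat_lit 0), (nat_lit 780000), [(nat_lit 1695001), (nat_lit 1271251), (nat_lit 1271251)], [(nat_lit 29), (nat_lit 66), (nat_lit 373), (nat_lit 150), (nat_lit 8)]⟩⟩) (.dle (nat_lit 0))) (.trX (nat_lit 3) (nat_lit 0) (nat_lit 1) (nat_lit 32) (nat_lit 89) (nat_lit 100) (nat_lit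 300) (.trZ (nat_lit 0) (nat_lit 2) (nat_lit 4) (nat_lit 100) (nat_lit 31) (nat_lit 92) (nat_lit 110) (.leaf ⟨(nat_lit 568), (nat_lit 303), (nat_lit 0), (nat_lit 129), (nat_lit 0), (nat_lit 3723), (nat_lit 3964), (nat_lit 1932), (nat_lit 0), (nat_lit 174814), (nat_lit 142000), [((nat_lit 400), [((nat_lit 29), (nat_lit 0), (nat_lit 568))])], ⟨(nat_lit 6), false, true, true, (nat_lit 251), (nat_lit 0), (nat_lit 1582), [(nat_lit 1577949), (nat_lit 1574999), (nat_lit 1601257), (nat_lit 1599992), (nat_lit 1659900), (nat_lit 1649996), (nat_lit 1683216), (nat_lit 1674997)]⟩, ⟨(nat_lit 4), false, false, false, (nat_lit 181), (nat_lit 0), (nat_lit 1582), [(nat_lit 1351461), (nat_lit 1360206), (nat_lit 1419436), (nat_lit 1433236), (nat_lit 1476683), (nat_lit 1474999), (nat_lit 1545316), (nat_lit 1548686)]⟩, (nat_lit 5070152), (nat_lit 39915645), (nat_lit 17036455), (nat_lit 10047900), (nat_lit 4), (nat_lit 0), [⟨(nat_lit 1), (nat_lit 94), (nat_lit 22), (nat_lit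 100), (nat_lit 324372031)⟩], [⟨(nat_lit 0), (nat_lit 100), (nat_lit 22), (nat_lit 99), (nat_lit 146004148)⟩], [⟨(nat_lit 0), (nat_lit 100), (nat_lit 99), (nat_lit 20), (nat_lit 203625843)⟩], [⟨(nat_lit 0), (nat_lit 100), (nat_lit 96), (nat_lit 13), (nat_lit 12164671)⟩],
 ⟨⟨[(nat_lit 40), (nat_lit 60), (nat_lit 80)], [(nat_lit 0), (nat_lit 2136), (nat_lit 3185)], [((nat_lit 0), (nat_lit 0), (nat_lit 0)), ((nat_lit 1000), (nat_lit 343), (nat_lit 808)), ((nat_lit 1000), (nat_lit 338), (nat_lit 820))], ((nat_lit 32), (nat_lit 100), (nat_lit 86))⟩, (nat_lit 182737), (nat_lit 118), (nat_lit 118), (nat_lit 0), (nat_lit 118469), [(nat_lit 1664633635), (nat_lit 2285020983), (nat_lit 2807011200)], [(nat_lit 0), (nat_lit 0), (nat_lit 0)], [(nat_lit 24851086099), (nat_lit 25542705455), (nat_lit 27181078274), (nat_lit 27851088196), (nat_lit 25859079236), (nat_lit 26466502023), (nat_lit 27916796616), (nat_lit 28454646342)], (nat_lit 1271251), (nat_lit 1271251),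 (nat_lit 1271251), (nat_lit 1271251), (nat_lit 704688), (nat_lit 1433125), [(nat_lit 490000), (nat_lit 780000), (nat_lit 1100000)], [(nat_lit 2), (nat_lit 44), (nat_lit 260), (nat_lit 50), (nat_lit 10)]⟩,
 ⟨⟨[(nat_lit 100), (nat_lit 140), (nat_lit 180)], [(nat_lit 0), (nat_lit 508), (nat_lit 2854)], [((nat_lit 0), (nat_lit 0), (nat_lit 0)), ((nat_lit 1000), (nat_lit 1000), (nat_lit 198)), ((nat_lit 777), (nat_lit 1000), (nat_lit 712))], ((nat_lit 100), (nat_lit 64), (nat_lit 83))⟩, (nat_lit 1770744), (nat_lit 438), (nat_lit 438), (nat_lit 0), (nat_lit 287404), [(nat_lit 2700000000), (nat_lit 4251744000), (nat_lit 6073056000)], [], [(nat_lit 13757859188), (nat_lit 13958935616), (nat_lit 15071898610), (nat_lit 15204320756), (nat_lit 11418773978), (nat_lit 11525413536), (nat_lit 12340099944), (nat_lit 12453718646)], (nat_lit 1271251), (nat_lit 1271251), (nat_lit 1271251), (nat_lit 1271251), (nat_lit 0), (nat_lit 780000), [(nat_lit 1412501), (nat_lit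 1271251), (nat_lit 1271251)], [(nat_lit 24), (nat_lit 63), (nat_lit 401), (nat_lit 175), (nat_lit 9)]⟩,
 ⟨⟨[(nat_lit 120), (nat_lit 160), (nat_lit 200)], [(nat_lit 0), (nat_lit 533), (nat_lit 3597)], [((nat_lit 0), (nat_lit 0), (nat_lit 0)), ((nat_lit 960), (nat_lit 1000), (nat_lit 200)), ((nat_lit 612), (nat_lit 1000), (nat_lit 732))], ((nat_lit 0), (nat_lit 0), (nat_lit 0))⟩, (nat_lit 68665), (nat_lit 300), (nat_lit 693), (nat_lit 9343060), (nat_lit 463823), [(nat_lit 1027872000), (nat_lit 1531488000), (nat_lit 2115600000)], [], [(nat_lit 8447850119), (nat_lit 8274129255), (nat_lit 7859028297), (nat_lit 7677172546), (nat_lit 6788401384), (nat_lit 6501601434), (nat_lit 6357248130), (nat_lit 5952729967)], (nat_lit 1271251), (nat_lit 1271251), (nat_lit 704688), (nat_lit 1433125), (nat_lit 0), (nat_lit 780000), [(nat_lit 1695001), (nat_lit 1271251), (nat_lit 1271251)], [(nat_lit 29), (nat_lit 66), (nat_lit 373), (nat_lit 150), (nat_lit 8)]⟩⟩))))) (.spl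 (nat_lit 0) (nat_lit 390) (.spl (nat_lit 6) (nat_lit 80) (.leaf ⟨(nat_lit 712), (nat_lit 110), (nat_lit 0), (nat_lit 178), (nat_lit 0), (nat_lit 3218), (nat_lit 2580), (nat_lit 1508), (nat_lit 0), (nat_lit 4406), (nat_lit 392400), [((nat_lit 390), [((nat_lit 28), (nat_lit 1), (nat_lit 174)), ((nat_lit 43), (nat_lit 2), (nat_lit 538))])], ⟨(nat_lit 6), false, true, true, (nat_lit 261), (nat_lit 1581), (nat_lit 2237), [(nat_lit 1579788), (nat_lit 1577949), (nat_lit 1602558), (nat_lit 1601260), (nat_lit 1708073), (nat_lit 1700880), (nat_lit 1730848), (nat_lit 1724195)]⟩, ⟨(nat_lit 4), false, false, false, (nat_lit 174), (nat_lit 1581), (nat_lit 2237), [(nat_lit 1320243), (nat_lit 1326247), (nat_lit 1388429), (nat_lit 1396055), (nat_lit 1477224), (nat_lit 1476683), (nat_lit 1545457), (nat_lit 1546538)]⟩, (nat_lit 5061055), (nat_lit 39526070), (nat_lit 18061981), (nat_lit 9411949), (nat_lit 4), (nat_lit 0), [⟨(nat_lit 1), (nat_lit 87), (nat_lit 38), (nat_lit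 100), (nat_lit 259080741)⟩], [⟨(nat_lit 0), (nat_lit 99), (nat_lit 31), (nat_lit 100), (nat_lit 213584883)⟩], [], [],
 ⟨⟨[(nat_lit 40), (nat_lit 80), (nat_lit 100)], [(nat_lit 0), (nat_lit 2514), (nat_lit 3562)], [((nat_lit 0), (nat_lit 0), (nat_lit 0)), ((nat_lit 1000), (nat_lit 446), (nat_lit 804)), ((nat_lit 1000), (nat_lit 443), (nat_lit 819))], ((nat_lit 44), (nat_lit 100), (nat_lit 82))⟩, (nat_lit 862), (nat_lit 169), (nat_lit 169), (nat_lit 0), (nat_lit 202340), [(nat_lit 1509484801), (nat_lit 976471157), (nat_lit 313261643)], [(nat_lit 0), (nat_lit 0), (nat_lit 0)], [(nat_lit 23708015293), (nat_lit 24209269350), (nat_lit 27161380442), (nat_lit 27786643947), (nat_lit 24945445383), (nat_lit 25450675542), (nat_lit 28047055856), (nat_lit 28511812201)], (nat_lit 1271251), (nat_lit 1271251), (nat_lit 1271251), (nat_lit 1271251), (nat_lit 559688), (nat_lit 1429376), [(nat_lit 490000), (nat_lit 1100000), (nat_lit 1442501)], [(nat_lit 3), (nat_lit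 50), (nat_lit 260), (nat_lit 50), (nat_lit 8)]⟩,
 ⟨⟨[(nat_lit 100), (nat_lit 140), (nat_lit 180)], [(nat_lit 0), (nat_lit 508), (nat_lit 2854)], [((nat_lit 0), (nat_lit 0), (nat_lit 0)), ((nat_lit 1000), (nat_lit 1000), (nat_lit 198)), ((nat_lit 777), (nat_lit 1000), (nat_lit 712))], ((nat_lit 100), (nat_lit 68), (nat_lit 80))⟩, (nat_lit 902217), (nat_lit 490), (nat_lit 490), (nat_lit 0), (nat_lit 635201), [(nat_lit 1800000000), (nat_lit 2834496000), (nat_lit 4048704000)], [], [(nat_lit 8304854760), (nat_lit 8359977510), (nat_lit 9176276778), (nat_lit 9184038642), (nat_lit 9879667812), (nat_lit 9858937224), (nat_lit 10435285418), (nat_lit 10462126110)], (nat_lit 1271251), (nat_lit 1271251), (nat_lit 1271251), (nat_lit 1271251), (nat_lit 780000), (nat_lit 3072501), [(nat_lit 1412501), (nat_lit 1271251), (nat_lit 1271251)], [(nat_lit 24), (nat_lit 63), (nat_lit 483), (nat_lit 250), (nat_lit 11)]⟩,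
 ⟨⟨[(nat_lit 120), (nat_lit 160), (nat_lit 200)], [(nat_lit 0), (nat_lit 533), (nat_lit 3597)], [((nat_lit 0), (nat_lit 0), (nat_lit 0)), ((nat_lit 960), (nat_lit 1000), (nat_lit 200)), ((nat_lit 612), (nat_lit 1000), (nat_lit 732))], ((nat_lit 0), (nat_lit 0), (nat_lit 0))⟩, (nat_lit 416780), (nat_lit 300), (nat_lit 858), (nat_lit 11819202), (nat_lit 989121), [(nat_lit 1418304000), (nat_lit 2113216000), (nat_lit 2919200000)], [], [(nat_lit 12007665015), (nat_lit 11784397804), (nat_lit 11429152026), (nat_lit 11201014945), (nat_lit 11693003161), (nat_lit 11011253079), (nat_lit 13836526832), (nat_lit 11852001848)], (nat_lit 1271251), (nat_lit 1271251), (nat_lit 559688), (nat_lit 1429376), (nat_lit 780000), (nat_lit 3072501), [(nat_lit 1695001), (nat_lit 1271251), (nat_lit 1271251)], [(nat_lit 29), (nat_lit 66), (nat_lit 456), (nat_lit 225), (nat_lit 10)]⟩⟩) (.dle (nat_lit 0))) (.trX (nat_lit 3) (nat_lit 0) (nat_lit 1) (nat_lit 32) (nat_lit 89) (nat_lit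 100) (nat_lit 300) (.trZ (nat_lit 0) (nat_lit 2) (nat_lit 4) (nat_lit 100) (nat_lit 31) (nat_lit 92) (nat_lit 110) (.leaf ⟨(nat_lit 866), (nat_lit 40), (nat_lit 0), (nat_lit 94), (nat_lit 0), (nat_lit 3539), (nat_lit 1429), (nat_lit 846), (nat_lit 0), (nat_lit 19976), (nat_lit 216500), [((nat_lit 400), [((nat_lit 29), (nat_lit 0), (nat_lit 866))])], ⟨(nat_lit 6), false, true, true, (nat_lit 251), (nat_lit 0), (nat_lit 1582), [(nat_lit 1577949), (nat_lit 1574999), (nat_lit 1601257), (nat_lit 1599992), (nat_lit 1659900), (nat_lit 1649996), (nat_lit 1683216), (nat_lit 1674997)]⟩, ⟨(nat_lit 4), false, false, false, (nat_lit 181), (nat_lit 0), (nat_lit 1582), [(nat_lit 1351461), (nat_lit 1360206), (nat_lit 1419436), (nat_lit 1433236), (nat_lit 1476683), (nat_lit 1474999), (nat_lit 1545316), (nat_lit 1548686)]⟩, (nat_lit 5070152), (nat_lit 39915645), (nat_lit 17036455), (nat_lit 10047900), (nat_lit 4), (nat_lit 0), [⟨(nat_lit 1), (nat_lit 94), (nat_lit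 22), (nat_lit 100), (nat_lit 504188411)⟩], [⟨(nat_lit 0), (nat_lit 100), (nat_lit 22), (nat_lit 99), (nat_lit 139838082)⟩], [], [],
 ⟨⟨[(nat_lit 40), (nat_lit 60), (nat_lit 80)], [(nat_lit 0), (nat_lit 2136), (nat_lit 3185)], [((nat_lit 0), (nat_lit 0), (nat_lit 0)), ((nat_lit 1000), (nat_lit 343), (nat_lit 808)), ((nat_lit 1000), (nat_lit 338), (nat_lit 820))], ((nat_lit 32), (nat_lit 100), (nat_lit 86))⟩, (nat_lit 0), (nat_lit 162), (nat_lit 162), (nat_lit 0), (nat_lit 257369), [(nat_lit 1594663203), (nat_lit 1390562462), (nat_lit 1820154400)], [(nat_lit 0), (nat_lit 0), (nat_lit 0)], [(nat_lit 24785678838), (nat_lit 25382920075), (nat_lit 26888448460), (nat_lit 27577175929), (nat_lit 25886608946), (nat_lit 26413777142), (nat_lit 27747415023), (nat_lit 28246034410)], (nat_lit 1271251), (nat_lit 1271251), (nat_lit 1271251), (nat_lit 1271251), (nat_lit 704688), (nat_lit 1433125), [(nat_lit 490000), (nat_lit 780000), (nat_lit 1100000)], [(nat_lit 2),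 (nat_lit 44), (nat_lit 260), (nat_lit 50), (nat_lit 10)]⟩,
 ⟨⟨[(nat_lit 100), (nat_lit 140), (nat_lit 180)], [(nat_lit 0), (nat_lit 508), (nat_lit 2854)], [((nat_lit 0), (nat_lit 0), (nat_lit 0)), ((nat_lit 1000), (nat_lit 1000), (nat_lit 198)), ((nat_lit 777), (nat_lit 1000), (nat_lit 712))], ((nat_lit 100), (nat_lit 64), (nat_lit 83))⟩, (nat_lit 408667), (nat_lit 629), (nat_lit 629), (nat_lit 0), (nat_lit 877001), [(nat_lit 837500000), (nat_lit 1318828000), (nat_lit 1883772000)], [], [(nat_lit 3638575642), (nat_lit 3627313540), (nat_lit 3824523804), (nat_lit 3825841650), (nat_lit 4474186279), (nat_lit 4499071712), (nat_lit 4883083318), (nat_lit 4898712977)], (nat_lit 1271251), (nat_lit 1271251), (nat_lit 1271251), (nat_lit 1271251), (nat_lit 780000), (nat_lit 3072501), [(nat_lit 1412501), (nat_lit 1271251), (nat_lit 1271251)], [(nat_lit 24), (nat_lit 63), (nat_lit 483), (nat_lit 250), (nat_lit 11)]⟩,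
 ⟨⟨[(nat_lit 120), (nat_lit 160), (nat_lit 200)], [(nat_lit 0), (nat_lit 533), (nat_lit 3597)], [((nat_lit 0), (nat_lit 0), (nat_lit 0)), ((nat_lit 960), (nat_lit 1000), (nat_lit 200)), ((nat_lit 612), (nat_lit 1000), (nat_lit 732))], ((nat_lit 0), (nat_lit 0), (nat_lit 0))⟩, (nat_lit 220098), (nat_lit 300), (nat_lit 1023), (nat_lit 6241600), (nat_lit 1366417), [(nat_lit 748992000), (nat_lit 1115968000), (nat_lit 1541600000)], [], [(nat_lit 6317436110), (nat_lit 6172523607), (nat_lit 6044084681), (nat_lit 5898121086), (nat_lit 6445421740), (nat_lit 5632547539), (nat_lit 7479609704), (nat_lit 6366275396)], (nat_lit 1271251), (nat_lit 1271251), (nat_lit 704688), (nat_lit 1433125), (nat_lit 780000), (nat_lit 3072501), [(nat_lit 1695001), (nat_lit 1271251), (nat_lit 1271251)], [(nat_lit 29), (nat_lit 66), (nat_lit 456), (nat_lit 225), (nat_lit 10)]⟩⟩)))))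
noncomputable def c13_46 : Tr Lf :=
 (.trX (nat_lit 4) (nat_lit 0) (nat_lit 2) (nat_lit 44) (nat_lit 90) (nat_lit 100) (nat_lit 290) (.spl (nat_lit 6) (nat_lit 64) (.stt (nat_lit 2) (.leaf ⟨(nat_lit 853), (nat_lit 86), (nat_lit 0), (nat_lit 61), (nat_lit 0), (nat_lit 3495), (nat_lit 1583), (nat_lit 828), (nat_lit 0), (nat_lit 13964), (nat_lit 242200), [((nat_lit 390), [((nat_lit 28), (nat_lit 0), (nat_lit 660)), ((nat_lit 28), (nat_lit 1), (nat_lit 193))])], ⟨(nat_lit 4), true, false, false, (nat_lit 193), (nat_lit 1581), (nat_lit 2237), [(nat_lit 1363068), (nat_lit 1367287), (nat_lit 1431255), (nat_lit 1437096), (nat_lit 1534240), (nat_lit 1531319), (nat_lit 1602558), (nat_lit 1601260)]⟩, ⟨(nat_lit 5), false, true, true, (nat_lit 221), (nat_lit 1581), (nat_lit 2237), [(nat_lit 1477224), (nat_lit 1476683), (nat_lit 1499999), (nat_lit 1499999), (nat_lit 1605509), (nat_lit 1599614), (nat_lit 1628284), (nat_lit 1622929)]⟩, (nat_lit 5002455), (nat_lit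 41396158), (nat_lit 11468599), (nat_lit 14135243), (nat_lit 5), (nat_lit 0), [⟨(nat_lit 0), (nat_lit 100), (nat_lit 38), (nat_lit 94), (nat_lit 63710007)⟩], [⟨(nat_lit 1), (nat_lit 94), (nat_lit 38), (nat_lit 100), (nat_lit 279328008)⟩], [⟨(nat_lit 0), (nat_lit 100), (nat_lit 98), (nat_lit 20), (nat_lit 1653726)⟩], [],
 ⟨⟨[(nat_lit 40), (nat_lit 60), (nat_lit 80)], [(nat_lit 0), (nat_lit 1539), (nat_lit 2453)], [((nat_lit 0), (nat_lit 0), (nat_lit 0)), ((nat_lit 1000), (nat_lit 478), (nat_lit 704)), ((nat_lit 1000), (nat_lit 474), (nat_lit 714))], ((nat_lit 46), (nat_lit 100), (nat_lit 77))⟩, (nat_lit 0), (nat_lit 127), (nat_lit 127), (nat_lit 0), (nat_lit 190336), [(nat_lit 1565291603), (nat_lit 1301311128), (nat_lit 1635696800)], [(nat_lit 0), (nat_lit 0), (nat_lit 0)], [(nat_lit 23089824508), (nat_lit 23718260420), (nat_lit 25198515219), (nat_lit 25722812053), (nat_lit 25872860156), (nat_lit 26405342265), (nat_lit 27504007476), (nat_lit 27978901251)],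 (nat_lit 1271251), (nat_lit 1271251), (nat_lit 780000), (nat_lit 1762501), (nat_lit 1271251), (nat_lit 1271251), [(nat_lit 490000), (nat_lit 780000), (nat_lit 1100000)], [(nat_lit 2), (nat_lit 44), (nat_lit 272), (nat_lit 60), (nat_lit 11)]⟩,
 ⟨⟨[(nat_lit 120), (nat_lit 160), (nat_lit 180)], [(nat_lit 0), (nat_lit 533), (nat_lit 2066)], [((nat_lit 0), (nat_lit 0), (nat_lit 0)), ((nat_lit 960), (nat_lit 1000), (nat_lit 200)), ((nat_lit 615), (nat_lit 1000), (nat_lit 729))], ((nat_lit 100), (nat_lit 61), (nat_lit 74))⟩, (nat_lit 622016), (nat_lit 367), (nat_lit 367), (nat_lit 0), (nat_lit 0), [(nat_lit 1171296000), (nat_lit 1745184000), (nat_lit 2066526000)], [], [(nat_lit 4592923381), (nat_lit 4808053848), (nat_lit 4759172065), (nat_lit 4958833028), (nat_lit 5456341996), (nat_lit 5485266164), (nat_lit 5246448490), (nat_lit 5218925800)], (nat_lit 0), (nat_lit 0), (nat_lit 0), (nat_lit 0), (nat_lit 0), (nat_lit 0), [], [(nat_lit 28), (nat_lit 65), (nat_lit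 456), (nat_lit 225), (nat_lit 11)]⟩,
 ⟨⟨[(nat_lit 120), (nat_lit 160), (nat_lit 180)], [(nat_lit 0), (nat_lit 533), (nat_lit 2066)], [((nat_lit 0), (nat_lit 0), (nat_lit 0)), ((nat_lit 960), (nat_lit 1000), (nat_lit 200)), ((nat_lit 615), (nat_lit 1000), (nat_lit 729))], ((nat_lit 100), (nat_lit 61), (nat_lit 74))⟩, (nat_lit 29203), (nat_lit 300), (nat_lit 816), (nat_lit 4428918), (nat_lit 975543), [(nat_lit 486048000), (nat_lit 724192000), (nat_lit 857538000)], [], [(nat_lit 3240191856), (nat_lit 3211201375), (nat_lit 3191493675), (nat_lit 3163602925), (nat_lit 4293544892), (nat_lit 3930329444), (nat_lit 2671328120), (nat_lit 2546411080)], (nat_lit 1271251), (nat_lit 1271251), (nat_lit 1271251), (nat_lit 1271251), (nat_lit 0), (nat_lit 2825001), [(nat_lit 1695001), (nat_lit 1271251), (nat_lit 1271251)], [(nat_lit 28), (nat_lit 65), (nat_lit 456), (nat_lit 225), (nat_lit 11)]⟩⟩) (.leaf ⟨(nat_lit 948), (nat_lit 0), (nat_lit 0), (nat_lit 52), (nat_lit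 0), (nat_lit 3374), (nat_lit 599), (nat_lit 786), (nat_lit 0), (nat_lit 42402), (nat_lit 237000), [((nat_lit 390), [((nat_lit 28), (nat_lit 0), (nat_lit 948))])], ⟨(nat_lit 4), false, false, false, (nat_lit 193), (nat_lit 1581), (nat_lit 2237), [(nat_lit 1363068), (nat_lit 1367287), (nat_lit 1431255), (nat_lit 1437096), (nat_lit 1534240), (nat_lit 1531319), (nat_lit 1602558), (nat_lit 1601260)]⟩, ⟨(nat_lit 5), false, true, true, (nat_lit 221), (nat_lit 1581), (nat_lit 2237), [(nat_lit 1477224), (nat_lit 1476683), (nat_lit 1499999), (nat_lit 1499999), (nat_lit 1605509), (nat_lit 1599614), (nat_lit 1628284), (nat_lit 1622929)]⟩, (nat_lit 5002455), (nat_lit 41396158), (nat_lit 11468599), (nat_lit 14135243), (nat_lit 0), (nat_lit 0), [], [⟨(nat_lit 1), (nat_lit 94), (nat_lit 38), (nat_lit 100), (nat_lit 272146826)⟩], [], [],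
 ⟨⟨[(nat_lit 40), (nat_lit 60), (nat_lit 80)], [(nat_lit 0), (nat_lit 1539), (nat_lit 2453)], [((nat_lit 0), (nat_lit 0), (nat_lit 0)), ((nat_lit 1000), (nat_lit 478), (nat_lit 704)), ((nat_lit 1000), (nat_lit 474), (nat_lit 714))], ((nat_lit 46), (nat_lit 100), (nat_lit 77))⟩, (nat_lit 0), (nat_lit 112), (nat_lit 112), (nat_lit 0), (nat_lit 130403), [(nat_lit 1575409605), (nat_lit 1251085728), (nat_lit 1548603200)], [(nat_lit 0), (nat_lit 0), (nat_lit 0)], [(nat_lit 22770180674), (nat_lit 23428391553), (nat_lit 24932767848), (nat_lit 25480891811), (nat_lit 25652987535), (nat_lit 26247904991), (nat_lit 27365781290), (nat_lit 27861004916)], (nat_lit 1271251), (nat_lit 1271251), (nat_lit 780000), (nat_lit 1762501), (nat_lit 1271251), (nat_lit 1271251), [(nat_lit 490000), (nat_lit 780000), (nat_lit 1100000)], [(nat_lit 2), (nat_lit 44), (nat_lit 272), (nat_lit 60), (nat_lit 11)]⟩,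
 ⟨⟨[(nat_lit 120), (nat_lit 160), (nat_lit 180)], [(nat_lit 0), (nat_lit 533), (nat_lit 2066)], [((nat_lit 0), (nat_lit 0), (nat_lit 0)), ((nat_lit 960), (nat_lit 1000), (nat_lit 200)), ((nat_lit 615), (nat_lit 1000), (nat_lit 729))], ((nat_lit 100), (nat_lit 61), (nat_lit 74))⟩, (nat_lit 117770), (nat_lit 792), (nat_lit 792), (nat_lit 0), (nat_lit 828057), [(nat_lit 414336000), (nat_lit 617344000), (nat_lit 731016000)], [], [(nat_lit 2476105957), (nat_lit 2431047152), (nat_lit 2465036230), (nat_lit 2268286380), (nat_lit 3284269462), (nat_lit 2475652706), (nat_lit 4242503815), (nat_lit 3464117092)], (nat_lit 1271251), (nat_lit 1271251), (nat_lit 780000), (nat_lit 1762501), (nat_lit 0), (nat_lit 2825001), [(nat_lit 1695001), (nat_lit 1271251), (nat_lit 1271251)], [(nat_lit 28), (nat_lit 65), (nat_lit 456), (nat_lit 225), (nat_lit 11)]⟩,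
 ⟨⟨[(nat_lit 120), (nat_lit 160), (nat_lit 180)], [(nat_lit 0), (nat_lit 533), (nat_lit 2066)], [((nat_lit 0), (nat_lit 0), (nat_lit 0)), ((nat_lit 960), (nat_lit 1000), (nat_lit 200)), ((nat_lit 615), (nat_lit 1000), (nat_lit 729))], ((nat_lit 100), (nat_lit 61), (nat_lit 74))⟩, (nat_lit 24894), (nat_lit 300), (nat_lit 680), (nat_lit 3775473), (nat_lit 695772), [(nat_lit 414336000), (nat_lit 617344000), (nat_lit 731016000)], [], [(nat_lit 2641626646), (nat_lit 2612028580), (nat_lit 2689205064), (nat_lit 2670990922), (nat_lit 3786100304), (nat_lit 3441308828), (nat_lit 2246169890), (nat_lit 2156189231)], (nat_lit 1271251), (nat_lit 1271251), (nat_lit 1271251), (nat_lit 1271251), (nat_lit 0), (nat_lit 2825001), [(nat_lit 1695001), (nat_lit 1271251), (nat_lit 1271251)], [(nat_lit 28), (nat_lit 65), (nat_lit 456), (nat_lit 225), (nat_lit 11)]⟩⟩)) (.spl (nat_lit 4) (nat_lit 240) (.leaf ⟨(nat_lit 945), (nat_lit 0), (nat_lit 0), (nat_lit 55), (nat_lit 2428),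 (nat_lit 3810), (nat_lit 646), (nat_lit 759), (nat_lit 0), (nat_lit 542186), (nat_lit 236250), [((nat_lit 390), [((nat_lit 28), (nat_lit 0), (nat_lit 945))])], ⟨(nat_lit 4), false, false, false, (nat_lit 193), (nat_lit 1581), (nat_lit 2237), [(nat_lit 1363068), (nat_lit 1367287), (nat_lit 1431255), (nat_lit 1437096), (nat_lit 1534240), (nat_lit 1531319), (nat_lit 1602558), (nat_lit 1601260)]⟩, ⟨(nat_lit 5), false, true, true, (nat_lit 207), (nat_lit 1581), (nat_lit 2237), [(nat_lit 1477224), (nat_lit 1476683), (nat_lit 1499999), (nat_lit 1499999), (nat_lit 1534240), (nat_lit 1531319), (nat_lit 1557014), (nat_lit 1554634)]⟩, (nat_lit 4908208), (nat_lit 42429547), (nat_lit 11643633), (nat_lit 12926820), (nat_lit 0), (nat_lit 0), [], [], [], [⟨(nat_lit 0), (nat_lit 100), (nat_lit 100), (nat_lit 40), (nat_lit 10690307)⟩],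
 ⟨⟨[(nat_lit 40), (nat_lit 80), (nat_lit 100)], [(nat_lit 0), (nat_lit 2514), (nat_lit 3562)], [((nat_lit 0), (nat_lit 0), (nat_lit 0)), ((nat_lit 1000), (nat_lit 446), (nat_lit 804)), ((nat_lit 1000), (nat_lit 443), (nat_lit 819))], ((nat_lit 44), (nat_lit 100), (nat_lit 82))⟩, (nat_lit 0), (nat_lit 108), (nat_lit 108), (nat_lit 0), (nat_lit 73855), [(nat_lit 1590711903), (nat_lit 2051247404), (nat_lit 1497353596)], [(nat_lit 0), (nat_lit 0), (nat_lit 0)], [(nat_lit 23222485884), (nat_lit 23918942995), (nat_lit 25137349381), (nat_lit 25714179339), (nat_lit 24206742396), (nat_lit 24854541116), (nat_lit 25927785176), (nat_lit 26466263786)], (nat_lit 1271251), (nat_lit 1271251), (nat_lit 780000), (nat_lit 1762501), (nat_lit 1271251), (nat_lit 1271251), [(nat_lit 490000), (nat_lit 1100000), (nat_lit 1442501)], [(nat_lit 3), (nat_lit 50), (nat_lit 272), (nat_lit 60), (nat_lit 9)]⟩,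
 ⟨⟨[(nat_lit 120), (nat_lit 160), (nat_lit 200)], [(nat_lit 0), (nat_lit 533), (nat_lit 3597)], [((nat_lit 0), (nat_lit 0), (nat_lit 0)), ((nat_lit 960), (nat_lit 1000), (nat_lit 200)), ((nat_lit 612), (nat_lit 1000), (nat_lit 732))], ((nat_lit 0), (nat_lit 0), (nat_lit 0))⟩, (nat_lit 189703), (nat_lit 610), (nat_lit 610), (nat_lit 0), (nat_lit 265163), [(nat_lit 438240000), (nat_lit 652960000), (nat_lit 902000000)], [], [(nat_lit 2290783825), (nat_lit 2296005530), (nat_lit 2615559852), (nat_lit 2175508614), (nat_lit 3491112903), (nat_lit 2619048756), (nat_lit 4520289330), (nat_lit 3680827188)], (nat_lit 1271251), (nat_lit 1271251), (nat_lit 780000), (nat_lit 1762501), (nat_lit 0), (nat_lit 2825001), [(nat_lit 1695001), (nat_lit 1271251), (nat_lit 1271251)], [(nat_lit 29), (nat_lit 66), (nat_lit 456), (nat_lit 225), (nat_lit 10)]⟩,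
 ⟨⟨[(nat_lit 120), (nat_lit 160), (nat_lit 200)], [(nat_lit 0), (nat_lit 533), (nat_lit 3597)], [((nat_lit 0), (nat_lit 0), (nat_lit 0)), ((nat_lit 960), (nat_lit 1000), (nat_lit 200)), ((nat_lit 612), (nat_lit 1000), (nat_lit 732))], ((nat_lit 0), (nat_lit 0), (nat_lit 0))⟩, (nat_lit 29276), (nat_lit 300), (nat_lit 616), (nat_lit 3983475), (nat_lit 376533), [(nat_lit 438240000), (nat_lit 652960000), (nat_lit 902000000)], [], [(nat_lit 3395506428), (nat_lit 3355653956), (nat_lit 3316974348), (nat_lit 3275949012), (nat_lit 3890790596), (nat_lit 3557843102), (nat_lit 3220715795), (nat_lit 2891948114)], (nat_lit 1271251), (nat_lit 1271251), (nat_lit 1271251), (nat_lit 1271251), (nat_lit 0), (nat_lit 2825001), [(nat_lit 1695001), (nat_lit 1271251), (nat_lit 1271251)], [(nat_lit 29), (nat_lit 66), (nat_lit 456), (nat_lit 225), (nat_lit 10)]⟩⟩) (.spl (nat_lit 0) (nat_lit 385) (.spl (nat_lit 6) (nat_lit 72) (.leaf ⟨(nat_lit 930), (nat_lit 0), (nat_lit 0),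 (nat_lit 70), (nat_lit 7024), (nat_lit 3423), (nat_lit 744), (nat_lit 851), (nat_lit 0), (nat_lit 28990), (nat_lit 232500), [((nat_lit 385), [((nat_lit 28), (nat_lit 0), (nat_lit 930))])], ⟨(nat_lit 4), false, false, false, (nat_lit 193), (nat_lit 1936), (nat_lit 2237), [(nat_lit 1363171), (nat_lit 1365187), (nat_lit 1431468), (nat_lit 1434194), (nat_lit 1534240), (nat_lit 1532877), (nat_lit 1602562), (nat_lit 1601908)]⟩, ⟨(nat_lit 6), false, true, true, (nat_lit 232), (nat_lit 1936), (nat_lit 2237), [(nat_lit 1534240), (nat_lit 1532877), (nat_lit 1557014), (nat_lit 1555888), (nat_lit 1605509), (nat_lit 1602738), (nat_lit 1628284), (nat_lit 1625749)]⟩, (nat_lit 5070896), (nat_lit 40546268), (nat_lit 11306085), (nat_lit 15147647), (nat_lit 0), (nat_lit 0), [], [⟨(nat_lit 1), (nat_lit 93), (nat_lit 41), (nat_lit 100), (nat_lit 298965111)⟩], [⟨(nat_lit 0), (nat_lit 100), (nat_lit 98), (nat_lit 20), (nat_lit 344426)⟩], [⟨(nat_lit 0), (nat_lit 95), (nat_lit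 100), (nat_lit 23), (nat_lit 19161519)⟩],
 ⟨⟨[(nat_lit 40), (nat_lit 60), (nat_lit 80)], [(nat_lit 0), (nat_lit 1539), (nat_lit 2453)], [((nat_lit 0), (nat_lit 0), (nat_lit 0)), ((nat_lit 1000), (nat_lit 478), (nat_lit 704)), ((nat_lit 1000), (nat_lit 474), (nat_lit 714))], ((nat_lit 45), (nat_lit 100), (nat_lit 79))⟩, (nat_lit 0), (nat_lit 88), (nat_lit 88), (nat_lit 0), (nat_lit 39381), [(nat_lit 1579636008), (nat_lit 1415955244), (nat_lit 1608212000)], [(nat_lit 0), (nat_lit 0), (nat_lit 0)], [(nat_lit 23816988954), (nat_lit 24125878718), (nat_lit 25781684287), (nat_lit 26039741729), (nat_lit 25675022526), (nat_lit 25968694919), (nat_lit 27337767900), (nat_lit 27623257980)], (nat_lit 1271251), (nat_lit 1271251), (nat_lit 780000), (nat_lit 1762501), (nat_lit 1271251), (nat_lit 1271251), [(nat_lit 490000), (nat_lit 780000), (nat_lit 1100000)], [(nat_lit 2), (nat_lit 44), (nat_lit 272), (nat_lit 60), (nat_lit 10)]⟩,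
 ⟨⟨[(nat_lit 120), (nat_lit 160), (nat_lit 200)], [(nat_lit 0), (nat_lit 533), (nat_lit 3597)], [((nat_lit 0), (nat_lit 0), (nat_lit 0)), ((nat_lit 960), (nat_lit 1000), (nat_lit 200)), ((nat_lit 612), (nat_lit 1000), (nat_lit 732))], ((nat_lit 0), (nat_lit 0), (nat_lit 0))⟩, (nat_lit 266355), (nat_lit 511), (nat_lit 511), (nat_lit 0), (nat_lit 140430), [(nat_lit 557760000), (nat_lit 831040000), (nat_lit 1148000000)], [], [(nat_lit 2802857503), (nat_lit 2817719126), (nat_lit 3276678128), (nat_lit 2796864938), (nat_lit 4334112292), (nat_lit 3329753584), (nat_lit 5545577120), (nat_lit 4578766232)], (nat_lit 1271251), (nat_lit 1271251), (nat_lit 780000), (nat_lit 1762501), (nat_lit 0), (nat_lit 2825001), [(nat_lit 1695001), (nat_lit 1271251), (nat_lit 1271251)], [(nat_lit 29), (nat_lit 66), (nat_lit 456), (nat_lit 225), (nat_lit 10)]⟩,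
 ⟨⟨[(nat_lit 120), (nat_lit 160), (nat_lit 200)], [(nat_lit 0), (nat_lit 533), (nat_lit 3597)], [((nat_lit 0), (nat_lit 0), (nat_lit 0)), ((nat_lit 960), (nat_lit 1000), (nat_lit 200)), ((nat_lit 612), (nat_lit 1000), (nat_lit 732))], ((nat_lit 0), (nat_lit 0), (nat_lit 0))⟩, (nat_lit 37260), (nat_lit 300), (nat_lit 484), (nat_lit 5069879), (nat_lit 196233), [(nat_lit 557760000), (nat_lit 831040000), (nat_lit 1148000000)], [], [(nat_lit 4197123026), (nat_lit 4172789356), (nat_lit 4248098187), (nat_lit 4218494030), (nat_lit 4019822755), (nat_lit 3651204446), (nat_lit 3351077907), (nat_lit 3304974402)], (nat_lit 1271251), (nat_lit 1271251), (nat_lit 1271251), (nat_lit 1271251), (nat_lit 0), (nat_lit 2825001), [(nat_lit 1695001), (nat_lit 1271251), (nat_lit 1271251)], [(nat_lit 29), (nat_lit 66), (nat_lit 456), (nat_lit 225), (nat_lit 10)]⟩⟩) (.dle (nat_lit 0))) (.trX (nat_lit 4) (nat_lit 0) (nat_lit 2) (nat_lit 38) (nat_lit 93) (nat_lit 100) (nat_lit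 280) (.spl (nat_lit 1) (nat_lit 220) (.leaf ⟨(nat_lit 925), (nat_lit 0), (nat_lit 0), (nat_lit 75), (nat_lit 5290), (nat_lit 3407), (nat_lit 659), (nat_lit 809), (nat_lit 0), (nat_lit 6776317), (nat_lit 231250), [((nat_lit 390), [((nat_lit 28), (nat_lit 0), (nat_lit 925))])], ⟨(nat_lit 4), false, false, false, (nat_lit 189), (nat_lit 1581), (nat_lit 1937), [(nat_lit 1365170), (nat_lit 1367372), (nat_lit 1411162), (nat_lit 1413972), (nat_lit 1532877), (nat_lit 1531319), (nat_lit 1578898), (nat_lit 1577949)]⟩, ⟨(nat_lit 6), false, true, true, (nat_lit 229), (nat_lit 1581), (nat_lit 1937), [(nat_lit 1532877), (nat_lit 1531319), (nat_lit 1555888), (nat_lit 1554634), (nat_lit 1588766), (nat_lit 1585955), (nat_lit 1611777), (nat_lit 1609270)]⟩, (nat_lit 5017150), (nat_lit 41095840), (nat_lit 11002197), (nat_lit 14901963), (nat_lit 0), (nat_lit 0), [], [⟨(nat_lit 1), (nat_lit 95), (nat_lit 35), (nat_lit 100), (nat_lit 299715502)⟩], [], [⟨(nat_lit 0), (nat_lit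 96), (nat_lit 100), (nat_lit 20), (nat_lit 410340)⟩, ⟨(nat_lit 0), (nat_lit 94), (nat_lit 100), (nat_lit 59), (nat_lit 22938813)⟩],
 ⟨⟨[(nat_lit 40), (nat_lit 60), (nat_lit 80)], [(nat_lit 0), (nat_lit 1803), (nat_lit 2780)], [((nat_lit 0), (nat_lit 0), (nat_lit 0)), ((nat_lit 1000), (nat_lit 417), (nat_lit 754)), ((nat_lit 1000), (nat_lit 413), (nat_lit 764))], ((nat_lit 39), (nat_lit 100), (nat_lit 83))⟩, (nat_lit 0), (nat_lit 92), (nat_lit 92), (nat_lit 0), (nat_lit 53614), [(nat_lit 1580810149), (nat_lit 1401654736), (nat_lit 1624770000)], [(nat_lit 0), (nat_lit 0), (nat_lit 0)], [(nat_lit 24158983357), (nat_lit 24467196954), (nat_lit 26076229682), (nat_lit 26333776903), (nat_lit 25619781539), (nat_lit 25904286153), (nat_lit 27299941261), (nat_lit 27538868426)], (nat_lit 1271251), (nat_lit 1271251), (nat_lit 780000), (nat_lit 1762501), (nat_lit 1271251), (nat_lit 1271251), [(nat_lit 490000), (nat_lit 780000), (nat_lit 1100000)], [(nat_lit 2),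 (nat_lit 44), (nat_lit 272), (nat_lit 60), (nat_lit 10)]⟩,
 ⟨⟨[(nat_lit 120), (nat_lit 160), (nat_lit 200)], [(nat_lit 0), (nat_lit 533), (nat_lit 3597)], [((nat_lit 0), (nat_lit 0), (nat_lit 0)), ((nat_lit 960), (nat_lit 1000), (nat_lit 200)), ((nat_lit 612), (nat_lit 1000), (nat_lit 732))], ((nat_lit 0), (nat_lit 0), (nat_lit 0))⟩, (nat_lit 189176), (nat_lit 606), (nat_lit 606), (nat_lit 0), (nat_lit 255085), [(nat_lit 597600000), (nat_lit 890400000), (nat_lit 1230000000)], [], [(nat_lit 3422552973), (nat_lit 3425002067), (nat_lit 3418463438), (nat_lit 3333331710), (nat_lit 4450878780), (nat_lit 3857803163), (nat_lit 5575016495), (nat_lit 5004112933)], (nat_lit 1271251), (nat_lit 1271251), (nat_lit 780000), (nat_lit 1762501), (nat_lit 0), (nat_lit 2825001), [(nat_lit 1695001), (nat_lit 1271251), (nat_lit 1271251)], [(nat_lit 29), (nat_lit 66), (nat_lit 456), (nat_lit 225), (nat_lit 10)]⟩,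
 ⟨⟨[(nat_lit 120), (nat_lit 160), (nat_lit 200)], [(nat_lit 0), (nat_lit 533), (nat_lit 3597)], [((nat_lit 0), (nat_lit 0), (nat_lit 0)), ((nat_lit 960), (nat_lit 1000), (nat_lit 200)), ((nat_lit 612), (nat_lit 1000), (nat_lit 732))], ((nat_lit 0), (nat_lit 0), (nat_lit 0))⟩, (nat_lit 39922), (nat_lit 300), (nat_lit 517), (nat_lit 5432010), (nat_lit 275234), [(nat_lit 597600000), (nat_lit 890400000), (nat_lit 1230000000)], [], [(nat_lit 4502412654), (nat_lit 4474550323), (nat_lit 4540352838), (nat_lit 4516376670), (nat_lit 4236102245), (nat_lit 3885676614), (nat_lit 3759720678), (nat_lit 3719043420)], (nat_lit 1271251), (nat_lit 1271251), (nat_lit 1271251), (nat_lit 1271251), (nat_lit 0), (nat_lit 2825001), [(nat_lit 1695001), (nat_lit 1271251), (nat_lit 1271251)], [(nat_lit 29), (nat_lit 66), (nat_lit 456), (nat_lit 225), (nat_lit 10)]⟩⟩) (.trZ (nat_lit 0) (nat_lit 1) (nat_lit 3) (nat_lit 100) (nat_lit 38) (nat_lit 96) (nat_lit 140) (.leaf ⟨(nat_lit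 913), (nat_lit 21), (nat_lit 0), (nat_lit 66), (nat_lit 4707), (nat_lit 3494), (nat_lit 970), (nat_lit 871), (nat_lit 0), (nat_lit 0), (nat_lit 228250), [((nat_lit 390), [((nat_lit 28), (nat_lit 0), (nat_lit 913))])], ⟨(nat_lit 5), false, false, false, (nat_lit 208), (nat_lit 1581), (nat_lit 1937), [(nat_lit 1439120), (nat_lit 1441305), (nat_lit 1462116), (nat_lit 1464605), (nat_lit 1578898), (nat_lit 1577949), (nat_lit 1601908), (nat_lit 1601263)]⟩, ⟨(nat_lit 6), false, true, true, (nat_lit 229), (nat_lit 1581), (nat_lit 1937), [(nat_lit 1532877), (nat_lit 1531319), (nat_lit 1555888), (nat_lit 1554634), (nat_lit 1588766), (nat_lit 1585955), (nat_lit 1611777), (nat_lit 1609270)]⟩, (nat_lit 5156783), (nat_lit 39821714), (nat_lit 12585569), (nat_lit 14592717), (nat_lit 6), (nat_lit 0), [], [⟨(nat_lit 1), (nat_lit 95), (nat_lit 35), (nat_lit 100), (nat_lit 396573764)⟩], [⟨(nat_lit 0), (nat_lit 100), (nat_lit 98), (nat_lit 20), (nat_lit 3481676)⟩], [⟨(nat_lit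 0), (nat_lit 96), (nat_lit 100), (nat_lit 25), (nat_lit 6358245)⟩],
 ⟨⟨[(nat_lit 40), (nat_lit 60), (nat_lit 80)], [(nat_lit 0), (nat_lit 1803), (nat_lit 2780)], [((nat_lit 0), (nat_lit 0), (nat_lit 0)), ((nat_lit 1000), (nat_lit 417), (nat_lit 754)), ((nat_lit 1000), (nat_lit 413), (nat_lit 764))], ((nat_lit 39), (nat_lit 100), (nat_lit 83))⟩, (nat_lit 0), (nat_lit 91), (nat_lit 91), (nat_lit 0), (nat_lit 73497), [(nat_lit 1583627628), (nat_lit 1434129306), (nat_lit 1664509200)], [(nat_lit 0), (nat_lit 0), (nat_lit 0)], [(nat_lit 24244000540), (nat_lit 24548111000), (nat_lit 26016801633), (nat_lit 26277123175), (nat_lit 25681179908), (nat_lit 26005117655), (nat_lit 27327076302), (nat_lit 27621544221)], (nat_lit 1271251), (nat_lit 1271251), (nat_lit 936250), (nat_lit 1773751), (nat_lit 1271251), (nat_lit 1271251), [(nat_lit 490000), (nat_lit 780000), (nat_lit 1100000)], [(nat_lit 2), (nat_lit 44), (nat_lit 272), (nat_lit 60), (nat_lit 10)]⟩,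
 ⟨⟨[(nat_lit 100), (nat_lit 140), (nat_lit 180)], [(nat_lit 0), (nat_lit 508), (nat_lit 2854)], [((nat_lit 0), (nat_lit 0), (nat_lit 0)), ((nat_lit 1000), (nat_lit 1000), (nat_lit 198)), ((nat_lit 777), (nat_lit 1000), (nat_lit 712))], ((nat_lit 100), (nat_lit 68), (nat_lit 80))⟩, (nat_lit 326276), (nat_lit 436), (nat_lit 436), (nat_lit 0), (nat_lit 210595), [(nat_lit 543750000), (nat_lit 856254000), (nat_lit 1223046000)], [], [(nat_lit 3291630778), (nat_lit 2778636820), (nat_lit 2768179105), (nat_lit 2783372644), (nat_lit 3862258932), (nat_lit 3417168612), (nat_lit 5223463110), (nat_lit 4792615300)], (nat_lit 1271251), (nat_lit 1271251), (nat_lit 936250), (nat_lit 1773751), (nat_lit 0), (nat_lit 2825001), [(nat_lit 1412501), (nat_lit 1271251), (nat_lit 1271251)], [(nat_lit 24), (nat_lit 63), (nat_lit 456), (nat_lit 225), (nat_lit 11)]⟩,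
 ⟨⟨[(nat_lit 120), (nat_lit 160), (nat_lit 200)], [(nat_lit 0), (nat_lit 533), (nat_lit 3597)], [((nat_lit 0), (nat_lit 0), (nat_lit 0)), ((nat_lit 960), (nat_lit 1000), (nat_lit 200)), ((nat_lit 612), (nat_lit 1000), (nat_lit 732))], ((nat_lit 0), (nat_lit 0), (nat_lit 0))⟩, (nat_lit 35131), (nat_lit 300), (nat_lit 601), (nat_lit 4780170), (nat_lit 376533), [(nat_lit 525888000), (nat_lit 783552000), (nat_lit 1082400000)], [], [(nat_lit 4040114709), (nat_lit 3993950458), (nat_lit 4012272605), (nat_lit 3964573647), (nat_lit 3837424615), (nat_lit 3460143126), (nat_lit 3087416967), (nat_lit 3008539440)], (nat_lit 1271251), (nat_lit 1271251), (nat_lit 1271251), (nat_lit 1271251), (nat_lit 0), (nat_lit 2825001), [(nat_lit 1695001), (nat_lit 1271251), (nat_lit 1271251)], [(nat_lit 29), (nat_lit 66), (nat_lit 456), (nat_lit 225), (nat_lit 10)]⟩⟩))))))))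
noncomputable def c13_47 : Tr Lf :=
 (.ord (.spl (nat_lit 6) (nat_lit 64) (.stt (nat_lit 2) (.leaf ⟨(nat_lit 720), (nat_lit 171), (nat_lit 0), (nat_lit 109), (nat_lit 0), (nat_lit 3664), (nat_lit 2391), (nat_lit 1380), (nat_lit 0), (nat_lit 20303104434), (nat_lit 204450), [((nat_lit 390), [((nat_lit 28), (nat_lit 0), (nat_lit 557)), ((nat_lit 28), (nat_lit 1), (nat_lit 163))])], ⟨(nat_lit 5), true, false, false, (nat_lit 198), (nat_lit 1581), (nat_lit 2237), [(nat_lit 1385797), (nat_lit 1390557), (nat_lit 1431255), (nat_lit 1437096), (nat_lit 1557014), (nat_lit 1554634), (nat_lit 1602558), (nat_lit 1601260)]⟩, ⟨(nat_lit 5), false, true, true, (nat_lit 235), (nat_lit 1581), (nat_lit 2237), [(nat_lit 1499999), (nat_lit 1499999), (nat_lit 1522729), (nat_lit 1523269), (nat_lit 1656791), (nat_lit 1650247), (nat_lit 1679566), (nat_lit 1673562)]⟩, (nat_lit 5123029), (nat_lit 40008105), (nat_lit 11643968), (nat_lit 15347927), (nat_lit 5), (nat_lit 0), [⟨(nat_lit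 0), (nat_lit 100), (nat_lit 38), (nat_lit 96), (nat_lit 163138099)⟩], [⟨(nat_lit 1), (nat_lit 91), (nat_lit 38), (nat_lit 100), (nat_lit 252457299)⟩], [⟨(nat_lit 0), (nat_lit 100), (nat_lit 100), (nat_lit 15), (nat_lit 12832474)⟩], [],
 ⟨⟨[(nat_lit 40), (nat_lit 60), (nat_lit 80)], [(nat_lit 0), (nat_lit 1539), (nat_lit 2453)], [((nat_lit 0), (nat_lit 0), (nat_lit 0)), ((nat_lit 1000), (nat_lit 478), (nat_lit 704)), ((nat_lit 1000), (nat_lit 474), (nat_lit 714))], ((nat_lit 46), (nat_lit 100), (nat_lit 77))⟩, (nat_lit 395), (nat_lit 129), (nat_lit 129), (nat_lit 0), (nat_lit 185968), [(nat_lit 1601560003), (nat_lit 1554524409), (nat_lit 2111503600)], [(nat_lit 0), (nat_lit 0), (nat_lit 0)], [(nat_lit 23434996682), (nat_lit 24048545027), (nat_lit 25429916796), (nat_lit 25965203529), (nat_lit 26877659382), (nat_lit 27490405127), (nat_lit 28347214879), (nat_lit 28864509887)], (nat_lit 1271251), (nat_lit 1271251), (nat_lit 780000), (nat_lit 1762501),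 (nat_lit 1271251), (nat_lit 1271251), [(nat_lit 490000), (nat_lit 780000), (nat_lit 1100000)], [(nat_lit 2), (nat_lit 44), (nat_lit 272), (nat_lit 60), (nat_lit 11)]⟩,
 ⟨⟨[(nat_lit 100), (nat_lit 140), (nat_lit 180)], [(nat_lit 0), (nat_lit 0), (nat_lit 2434)], [((nat_lit 0), (nat_lit 0), (nat_lit 0)), ((nat_lit 0), (nat_lit 0), (nat_lit 0)), ((nat_lit 726), (nat_lit 1000), (nat_lit 688))], ((nat_lit 100), (nat_lit 68), (nat_lit 73))⟩, (nat_lit 1403434), (nat_lit 362), (nat_lit 362), (nat_lit 0), (nat_lit 0), [(nat_lit 1750000000), (nat_lit 2755760000), (nat_lit 3936240000)], [], [(nat_lit 7300070329), (nat_lit 7715854518), (nat_lit 8066811706), (nat_lit 8443731952), (nat_lit 9847275931), (nat_lit 9979276670), (nat_lit 9768285436), (nat_lit 9830852072)], (nat_lit 0), (nat_lit 0), (nat_lit 0), (nat_lit 0), (nat_lit 0), (nat_lit 0), [], [(nat_lit 24), (nat_lit 63), (nat_lit 456), (nat_lit 225), (nat_lit 11)]⟩,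
 ⟨⟨[(nat_lit 100), (nat_lit 140), (nat_lit 180)], [(nat_lit 0), (nat_lit 0), (nat_lit 2434)], [((nat_lit 0), (nat_lit 0), (nat_lit 0)), ((nat_lit 0), (nat_lit 0), (nat_lit 0)), ((nat_lit 726), (nat_lit 1000), (nat_lit 688))], ((nat_lit 100), (nat_lit 68), (nat_lit 73))⟩, (nat_lit 62874), (nat_lit 300), (nat_lit 692), (nat_lit 7662704), (nat_lit 752954), [(nat_lit 681250000), (nat_lit 1072778000), (nat_lit 1532322000)], [], [(nat_lit 5758064695), (nat_lit 5712327663), (nat_lit 5683934536), (nat_lit 5626191323), (nat_lit 5623223280), (nat_lit 5002248810), (nat_lit 4566316652), (nat_lit 4524277684)], (nat_lit 1271251), (nat_lit 1271251), (nat_lit 1271251), (nat_lit 1271251), (nat_lit 0), (nat_lit 2825001), [(nat_lit 1412501), (nat_lit 1271251), (nat_lit 1271251)], [(nat_lit 24), (nat_lit 63), (nat_lit 483), (nat_lit 250), (nat_lit 11)]⟩⟩) (.spl (nat_lit 1) (nat_lit 220) (.leaf ⟨(nat_lit 933), (nat_lit 0), (nat_lit 0), (nat_lit 67), (nat_lit 0), (nat_lit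 3341), (nat_lit 754), (nat_lit 1017), (nat_lit 0), (nat_lit 3496415015987), (nat_lit 233250), [((nat_lit 390), [((nat_lit 28), (nat_lit 0), (nat_lit 933))])], ⟨(nat_lit 5), false, false, false, (nat_lit 193), (nat_lit 1581), (nat_lit 2237), [(nat_lit 1385797), (nat_lit 1390557), (nat_lit 1408526), (nat_lit 1413826), (nat_lit 1557014), (nat_lit 1554634), (nat_lit 1579788), (nat_lit 1577949)]⟩, ⟨(nat_lit 5), false, true, true, (nat_lit 235), (nat_lit 1581), (nat_lit 2237), [(nat_lit 1499999), (nat_lit 1499999), (nat_lit 1522729), (nat_lit 1523269), (nat_lit 1656791), (nat_lit 1650247), (nat_lit 1679566), (nat_lit 1673562)]⟩, (nat_lit 5089506), (nat_lit 40302615), (nat_lit 11273124), (nat_lit 15424261), (nat_lit 0), (nat_lit 0), [], [⟨(nat_lit 1), (nat_lit 91), (nat_lit 38), (nat_lit 100), (nat_lit 220946969)⟩], [], [⟨(nat_lit 0), (nat_lit 97), (nat_lit 100), (nat_lit 18), (nat_lit 23878419)⟩],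
 ⟨⟨[(nat_lit 40), (nat_lit 60), (nat_lit 80)], [(nat_lit 0), (nat_lit 1539), (nat_lit 2453)], [((nat_lit 0), (nat_lit 0), (nat_lit 0)), ((nat_lit 1000), (nat_lit 478), (nat_lit 704)), ((nat_lit 1000), (nat_lit 474), (nat_lit 714))], ((nat_lit 46), (nat_lit 100), (nat_lit 77))⟩, (nat_lit 0), (nat_lit 113), (nat_lit 113), (nat_lit 0), (nat_lit 120926), [(nat_lit 1578931690), (nat_lit 1272615372), (nat_lit 1598277200)], [(nat_lit 0), (nat_lit 0), (nat_lit 0)], [(nat_lit 22856848874), (nat_lit 23511960962), (nat_lit 25024956915), (nat_lit 25570735609), (nat_lit 26472629002), (nat_lit 27046166754), (nat_lit 28071396249), (nat_lit 28534256397)], (nat_lit 1271251), (nat_lit 1271251), (nat_lit 780000), (nat_lit 1762501), (nat_lit 1271251), (nat_lit 1271251), [(nat_lit 490000), (nat_lit 780000), (nat_lit 1100000)], [(nat_lit 2), (nat_lit 44), (nat_lit 272), (nat_lit 60), (nat_lit 11)]⟩,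
 ⟨⟨[(nat_lit 100), (nat_lit 140), (nat_lit 180)], [(nat_lit 0), (nat_lit 0), (nat_lit 2434)], [((nat_lit 0), (nat_lit 0), (nat_lit 0)), ((nat_lit 0), (nat_lit 0), (nat_lit 0)), ((nat_lit 726), (nat_lit 1000), (nat_lit 688))], ((nat_lit 100), (nat_lit 68), (nat_lit 73))⟩, (nat_lit 106975), (nat_lit 703), (nat_lit 703), (nat_lit 0), (nat_lit 670398), [(nat_lit 418750000), (nat_lit 659414000), (nat_lit 941886000)], [], [(nat_lit 3338891142), (nat_lit 2937038171), (nat_lit 2788973404), (nat_lit 2771778024), (nat_lit 3157019056), (nat_lit 2808729868), (nat_lit 4329829760), (nat_lit 3994923318)], (nat_lit 1271251), (nat_lit 1271251), (nat_lit 780000), (nat_lit 1762501), (nat_lit 0), (nat_lit 2825001), [(nat_lit 1412501), (nat_lit 1271251), (nat_lit 1271251)], [(nat_lit 24), (nat_lit 63), (nat_lit 456), (nat_lit 225), (nat_lit 11)]⟩,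
 ⟨⟨[(nat_lit 100), (nat_lit 140), (nat_lit 180)], [(nat_lit 0), (nat_lit 0), (nat_lit 2434)], [((nat_lit 0), (nat_lit 0), (nat_lit 0)), ((nat_lit 0), (nat_lit 0), (nat_lit 0)), ((nat_lit 726), (nat_lit 1000), (nat_lit 688))], ((nat_lit 100), (nat_lit 68), (nat_lit 73))⟩, (nat_lit 38648), (nat_lit 300), (nat_lit 581), (nat_lit 4710100), (nat_lit 493241), [(nat_lit 418750000), (nat_lit 659414000), (nat_lit 941886000)], [], [(nat_lit 3308535880), (nat_lit 3297908918), (nat_lit 3423372773), (nat_lit 3396395672), (nat_lit 3566290161), (nat_lit 3108658976), (nat_lit 2821777919), (nat_lit 2817037485)], (nat_lit 1271251), (nat_lit 1271251), (nat_lit 1271251), (nat_lit 1271251), (nat_lit 0), (nat_lit 2825001), [(nat_lit 1412501), (nat_lit 1271251), (nat_lit 1271251)], [(nat_lit 24), (nat_lit 63), (nat_lit 483), (nat_lit 250), (nat_lit 11)]⟩⟩) (.trZ (nat_lit 0) (nat_lit 1) (nat_lit 3) (nat_lit 100) (nat_lit 44) (nat_lit 94) (nat_lit 130) (.leaf ⟨(nat_lit 911),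 (nat_lit 0), (nat_lit 0), (nat_lit 89), (nat_lit 0), (nat_lit 3335), (nat_lit 855), (nat_lit 1126), (nat_lit 0), (nat_lit 0), (nat_lit 236150), [((nat_lit 390), [((nat_lit 28), (nat_lit 0), (nat_lit 855)), ((nat_lit 28), (nat_lit 1), (nat_lit 56))])], ⟨(nat_lit 5), false, false, false, (nat_lit 205), (nat_lit 1581), (nat_lit 2237), [(nat_lit 1422801), (nat_lit 1427507), (nat_lit 1445530), (nat_lit 1450776), (nat_lit 1579788), (nat_lit 1577949), (nat_lit 1602558), (nat_lit 1601260)]⟩, ⟨(nat_lit 5), false, true, true, (nat_lit 235), (nat_lit 1581), (nat_lit 2237), [(nat_lit 1499999), (nat_lit 1499999), (nat_lit 1522729), (nat_lit 1523269), (nat_lit 1656791), (nat_lit 1650247), (nat_lit 1679566), (nat_lit 1673562)]⟩, (nat_lit 5174373), (nat_lit 39533800), (nat_lit 12243236), (nat_lit 15222964), (nat_lit 0), (nat_lit 0), [⟨(nat_lit 0), (nat_lit 100), (nat_lit 38), (nat_lit 98), (nat_lit 10402603)⟩, ⟨(nat_lit 0), (nat_lit 99), (nat_lit 31), (nat_lit 100),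 (nat_lit 30337418)⟩], [⟨(nat_lit 1), (nat_lit 91), (nat_lit 38), (nat_lit 100), (nat_lit 182994792)⟩], [⟨(nat_lit 0), (nat_lit 100), (nat_lit 98), (nat_lit 30), (nat_lit 32080439)⟩], [],
 ⟨⟨[(nat_lit 40), (nat_lit 60), (nat_lit 80)], [(nat_lit 0), (nat_lit 1539), (nat_lit 2453)], [((nat_lit 0), (nat_lit 0), (nat_lit 0)), ((nat_lit 1000), (nat_lit 478), (nat_lit 704)), ((nat_lit 1000), (nat_lit 474), (nat_lit 714))], ((nat_lit 46), (nat_lit 100), (nat_lit 77))⟩, (nat_lit 0), (nat_lit 112), (nat_lit 112), (nat_lit 0), (nat_lit 130288), [(nat_lit 1574689210), (nat_lit 1327242419), (nat_lit 1605119600)], [(nat_lit 0), (nat_lit 0), (nat_lit 0)], [(nat_lit 22950219515), (nat_lit 23596508455), (nat_lit 25034646468), (nat_lit 25579998749), (nat_lit 26523853713), (nat_lit 27047086569), (nat_lit 28067225941), (nat_lit 28529224506)], (nat_lit 1271251), (nat_lit 1271251), (nat_lit 857188), (nat_lit 1768126), (nat_lit 1271251), (nat_lit 1271251), [(nat_lit 490000),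 (nat_lit 780000), (nat_lit 1100000)], [(nat_lit 2), (nat_lit 44), (nat_lit 272), (nat_lit 60), (nat_lit 11)]⟩,
 ⟨⟨[(nat_lit 100), (nat_lit 140), (nat_lit 180)], [(nat_lit 0), (nat_lit 508), (nat_lit 2854)], [((nat_lit 0), (nat_lit 0), (nat_lit 0)), ((nat_lit 1000), (nat_lit 1000), (nat_lit 198)), ((nat_lit 777), (nat_lit 1000), (nat_lit 712))], ((nat_lit 100), (nat_lit 75), (nat_lit 74))⟩, (nat_lit 315800), (nat_lit 634), (nat_lit 634), (nat_lit 0), (nat_lit 571869), [(nat_lit 556250000), (nat_lit 875938000), (nat_lit 1251162000)], [], [(nat_lit 3527693000), (nat_lit 3153325536), (nat_lit 3139017966), (nat_lit 3152436448), (nat_lit 3819315102), (nat_lit 3425682507), (nat_lit 5141529975), (nat_lit 4761762060)], (nat_lit 1271251), (nat_lit 1271251), (nat_lit 857188), (nat_lit 1768126), (nat_lit 0), (nat_lit 2825001), [(nat_lit 1412501), (nat_lit 1271251), (nat_lit 1271251)], [(nat_lit 24), (nat_lit 63), (nat_lit 456), (nat_lit 225), (nat_lit 11)]⟩,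
 ⟨⟨[(nat_lit 100), (nat_lit 140), (nat_lit 180)], [(nat_lit 0), (nat_lit 0), (nat_lit 2434)], [((nat_lit 0), (nat_lit 0), (nat_lit 0)), ((nat_lit 0), (nat_lit 0), (nat_lit 0)), ((nat_lit 726), (nat_lit 1000), (nat_lit 688))], ((nat_lit 100), (nat_lit 68), (nat_lit 73))⟩, (nat_lit 51338), (nat_lit 300), (nat_lit 599), (nat_lit 6256700), (nat_lit 540558), [(nat_lit 556250000), (nat_lit 875938000), (nat_lit 1251162000)], [], [(nat_lit 4702771415), (nat_lit 4665474577), (nat_lit 4642411621), (nat_lit 4594748796), (nat_lit 4590925738), (nat_lit 4084246569), (nat_lit 3728604750), (nat_lit 3694327043)], (nat_lit 1271251), (nat_lit 1271251), (nat_lit 1271251), (nat_lit 1271251), (nat_lit 0), (nat_lit 2825001), [(nat_lit 1412501), (nat_lit 1271251), (nat_lit 1271251)], [(nat_lit 24), (nat_lit 63), (nat_lit 483), (nat_lit 250), (nat_lit 11)]⟩⟩)))) (.spl (nat_lit 0) (nat_lit 385) (.spl (nat_lit 6) (nat_lit 72) (.leaf ⟨(nat_lit 803), (nat_lit 0), (nat_lit 0),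 (nat_lit 197), (nat_lit 6748), (nat_lit 3456), (nat_lit 1659), (nat_lit 2021), (nat_lit 0), (nat_lit 128232929595), (nat_lit 226850), [((nat_lit 385), [((nat_lit 28), (nat_lit 0), (nat_lit 629)), ((nat_lit 28), (nat_lit 1), (nat_lit 174))])], ⟨(nat_lit 5), false, false, false, (nat_lit 198), (nat_lit 1936), (nat_lit 2237), [(nat_lit 1385936), (nat_lit 1388189), (nat_lit 1431468), (nat_lit 1434194), (nat_lit 1557014), (nat_lit 1555888), (nat_lit 1602562), (nat_lit 1601908)]⟩, ⟨(nat_lit 5), false, true, true, (nat_lit 236), (nat_lit 1936), (nat_lit 2237), [(nat_lit 1499999), (nat_lit 1499999), (nat_lit 1522765), (nat_lit 1523002), (nat_lit 1656791), (nat_lit 1653694), (nat_lit 1679566), (nat_lit 1676705)]⟩, (nat_lit 5123663), (nat_lit 39994630), (nat_lit 11627347), (nat_lit 15378023), (nat_lit 0), (nat_lit 0), [⟨(nat_lit 0), (nat_lit 100), (nat_lit 41), (nat_lit 95), (nat_lit 148830648)⟩], [⟨(nat_lit 1), (nat_lit 89), (nat_lit 41), (nat_lit 100), (nat_lit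 46166763)⟩], [], [],
 ⟨⟨[(nat_lit 40), (nat_lit 60), (nat_lit 80)], [(nat_lit 0), (nat_lit 1539), (nat_lit 2453)], [((nat_lit 0), (nat_lit 0), (nat_lit 0)), ((nat_lit 1000), (nat_lit 478), (nat_lit 704)), ((nat_lit 1000), (nat_lit 474), (nat_lit 714))], ((nat_lit 45), (nat_lit 100), (nat_lit 79))⟩, (nat_lit 0), (nat_lit 89), (nat_lit 89), (nat_lit 0), (nat_lit 30358), [(nat_lit 1580223611), (nat_lit 1528768770), (nat_lit 1823674000)], [(nat_lit 0), (nat_lit 0), (nat_lit 0)], [(nat_lit 22966892347), (nat_lit 23299847799), (nat_lit 25115761003), (nat_lit 25392736803), (nat_lit 26608114076), (nat_lit 26876478859), (nat_lit 28138745289), (nat_lit 28377856097)], (nat_lit 1271251), (nat_lit 1271251), (nat_lit 780000), (nat_lit 1762501), (nat_lit 1271251), (nat_lit 1271251), [(nat_lit 490000), (nat_lit 780000), (nat_lit 1100000)], [(nat_lit 2), (nat_lit 44), (nat_lit 272), (nat_lit 60), (nat_lit 11)]⟩,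
 ⟨⟨[(nat_lit 100), (nat_lit 140), (nat_lit 180)], [(nat_lit 0), (nat_lit 0), (nat_lit 2434)], [((nat_lit 0), (nat_lit 0), (nat_lit 0)), ((nat_lit 0), (nat_lit 0), (nat_lit 0)), ((nat_lit 726), (nat_lit 1000), (nat_lit 688))], ((nat_lit 100), (nat_lit 64), (nat_lit 77))⟩, (nat_lit 0), (nat_lit 410), (nat_lit 410), (nat_lit 0), (nat_lit 113810), [(nat_lit 1231250000), (nat_lit 1938874000), (nat_lit 2769426000)], [], [(nat_lit 8959361031), (nat_lit 9087902930), (nat_lit 9032602148), (nat_lit 9125570304), (nat_lit 9153362012), (nat_lit 9119862486), (nat_lit 11773595610), (nat_lit 10299829596)], (nat_lit 1271251), (nat_lit 1271251), (nat_lit 780000), (nat_lit 1762501), (nat_lit 0), (nat_lit 2825001), [(nat_lit 1412501), (nat_lit 1271251), (nat_lit 1271251)], [(nat_lit 24), (nat_lit 63), (nat_lit 456), (nat_lit 225), (nat_lit 11)]⟩,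
 ⟨⟨[(nat_lit 100), (nat_lit 140), (nat_lit 180)], [(nat_lit 0), (nat_lit 0), (nat_lit 2434)], [((nat_lit 0), (nat_lit 0), (nat_lit 0)), ((nat_lit 0), (nat_lit 0), (nat_lit 0)), ((nat_lit 726), (nat_lit 1000), (nat_lit 688))], ((nat_lit 100), (nat_lit 64), (nat_lit 77))⟩, (nat_lit 113635), (nat_lit 300), (nat_lit 381), (nat_lit 13849103), (nat_lit 116385), [(nat_lit 1231250000), (nat_lit 1938874000), (nat_lit 2769426000)], [], [(nat_lit 10011975626), (nat_lit 10012612992), (nat_lit 10370507621), (nat_lit 10342006308), (nat_lit 9855174053), (nat_lit 8945761442), (nat_lit 8845935266), (nat_lit 8761867627)], (nat_lit 1271251), (nat_lit 1271251), (nat_lit 1271251), (nat_lit 1271251), (nat_lit 0), (nat_lit 2825001), [(nat_lit 1412501), (nat_lit 1271251), (nat_lit 1271251)], [(nat_lit 24), (nat_lit 63), (nat_lit 483), (nat_lit 250), (nat_lit 11)]⟩⟩) (.dle (nat_lit 0))) (.trX (nat_lit 4) (nat_lit 0) (nat_lit 2) (nat_lit 38) (nat_lit 89) (nat_lit 100) (nat_lit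 300) (.leaf ⟨(nat_lit 857), (nat_lit 0), (nat_lit 0), (nat_lit 143), (nat_lit 5464), (nat_lit 3485), (nat_lit 1054), (nat_lit 1433), (nat_lit 0), (nat_lit 322909392826), (nat_lit 214250), [((nat_lit 390), [((nat_lit 28), (nat_lit 0), (nat_lit 857))])], ⟨(nat_lit 5), false, false, false, (nat_lit 198), (nat_lit 1581), (nat_lit 1937), [(nat_lit 1388166), (nat_lit 1390672), (nat_lit 1434158), (nat_lit 1437274), (nat_lit 1555888), (nat_lit 1554634), (nat_lit 1601908), (nat_lit 1601263)]⟩, ⟨(nat_lit 5), false, true, true, (nat_lit 232), (nat_lit 1581), (nat_lit 1937), [(nat_lit 1499999), (nat_lit 1499999), (nat_lit 1522995), (nat_lit 1523300), (nat_lit 1639721), (nat_lit 1636588), (nat_lit 1662732), (nat_lit 1659903)]⟩, (nat_lit 5107690), (nat_lit 40217340), (nat_lit 11701964), (nat_lit 15080696), (nat_lit 0), (nat_lit 0), [⟨(nat_lit 0), (nat_lit 100), (nat_lit 35), (nat_lit 97), (nat_lit 138565538)⟩], [⟨(nat_lit 1), (nat_lit 92), (nat_lit 35), (nat_lit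 100), (nat_lit 122259135)⟩], [⟨(nat_lit 0), (nat_lit 100), (nat_lit 100), (nat_lit 15), (nat_lit 55124741)⟩], [],
 ⟨⟨[(nat_lit 40), (nat_lit 60), (nat_lit 80)], [(nat_lit 0), (nat_lit 1803), (nat_lit 2780)], [((nat_lit 0), (nat_lit 0), (nat_lit 0)), ((nat_lit 1000), (nat_lit 417), (nat_lit 754)), ((nat_lit 1000), (nat_lit 413), (nat_lit 764))], ((nat_lit 39), (nat_lit 100), (nat_lit 83))⟩, (nat_lit 0), (nat_lit 97), (nat_lit 97), (nat_lit 0), (nat_lit 62898), [(nat_lit 1596776405), (nat_lit 1591281201), (nat_lit 1849958800)], [(nat_lit 0), (nat_lit 0), (nat_lit 0)], [(nat_lit 23314632095), (nat_lit 23648949137), (nat_lit 25402338335), (nat_lit 25680344632), (nat_lit 26529847367), (nat_lit 26818274109), (nat_lit 28069682105), (nat_lit 28325323952)], (nat_lit 1271251), (nat_lit 1271251), (nat_lit 780000), (nat_lit 1762501), (nat_lit 1271251), (nat_lit 1271251), [(nat_lit 490000), (nat_lit 780000), (nat_lit 1100000)], [(nat_lit 2), (nat_lit 44), (nat_lit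 272), (nat_lit 60), (nat_lit 11)]⟩,
 ⟨⟨[(nat_lit 100), (nat_lit 140), (nat_lit 180)], [(nat_lit 0), (nat_lit 0), (nat_lit 2434)], [((nat_lit 0), (nat_lit 0), (nat_lit 0)), ((nat_lit 0), (nat_lit 0), (nat_lit 0)), ((nat_lit 726), (nat_lit 1000), (nat_lit 688))], ((nat_lit 100), (nat_lit 60), (nat_lit 80))⟩, (nat_lit 424468), (nat_lit 443), (nat_lit 443), (nat_lit 0), (nat_lit 192193), [(nat_lit 893750000), (nat_lit 1407406000), (nat_lit 2010294000)], [], [(nat_lit 6270985082), (nat_lit 5840311328), (nat_lit 5745660424), (nat_lit 5794188664), (nat_lit 6455156112), (nat_lit 5939212206), (nat_lit 8288517320), (nat_lit 7352200636)], (nat_lit 1271251), (nat_lit 1271251), (nat_lit 780000), (nat_lit 1762501), (nat_lit 0), (nat_lit 2825001), [(nat_lit 1412501), (nat_lit 1271251), (nat_lit 1271251)], [(nat_lit 24), (nat_lit 63), (nat_lit 456), (nat_lit 225), (nat_lit 11)]⟩,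
 ⟨⟨[(nat_lit 100), (nat_lit 140), (nat_lit 180)], [(nat_lit 0), (nat_lit 0), (nat_lit 2434)], [((nat_lit 0), (nat_lit 0), (nat_lit 0)), ((nat_lit 0), (nat_lit 0), (nat_lit 0)), ((nat_lit 726), (nat_lit 1000), (nat_lit 688))], ((nat_lit 100), (nat_lit 60), (nat_lit 80))⟩, (nat_lit 82486), (nat_lit 300), (nat_lit 440), (nat_lit 10052906), (nat_lit 257855), [(nat_lit 893750000), (nat_lit 1407406000), (nat_lit 2010294000)], [], [(nat_lit 7356079351), (nat_lit 7347295732), (nat_lit 7500302496), (nat_lit 7483563705), (nat_lit 7131616289), (nat_lit 6507166488), (nat_lit 6477750670), (nat_lit 6420446480)], (nat_lit 1271251), (nat_lit 1271251), (nat_lit 1271251), (nat_lit 1271251), (nat_lit 0), (nat_lit 2825001), [(nat_lit 1412501), (nat_lit 1271251), (nat_lit 1271251)], [(nat_lit 24), (nat_lit 63), (nat_lit 483), (nat_lit 250), (nat_lit 11)]⟩⟩)))))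
noncomputable def c13_48 : Tr Lf :=
 (.spl (nat_lit 4) (nat_lit 240) (.spl (nat_lit 3) (nat_lit 200) (.leaf ⟨(nat_lit 940), (nat_lit 0), (nat_lit 0), (nat_lit 60), (nat_lit 0), (nat_lit 3403), (nat_lit 858), (nat_lit 879), (nat_lit 0), (nat_lit 919119485455), (nat_lit 281950), [((nat_lit 400), [((nat_lit 29), (nat_lit 0), (nat_lit 627)), ((nat_lit 29), (nat_lit 1), (nat_lit 313))])], ⟨(nat_lit 4), false, false, false, (nat_lit 178), (nat_lit 0), (nat_lit 1582), [(nat_lit 1365448), (nat_lit 1373034), (nat_lit 1410764), (nat_lit 1421721), (nat_lit 1476683), (nat_lit 1474999), (nat_lit 1522658), (nat_lit 1524343)]⟩, ⟨(nat_lit 5), false, true, true, (nat_lit 210), (nat_lit 0), (nat_lit 1582), [(nat_lit 1476683), (nat_lit 1474999), (nat_lit 1522658), (nat_lit 1524343), (nat_lit 1531317), (nat_lit 1524997), (nat_lit 1577949), (nat_lit 1574999)]⟩, (nat_lit 4813153), (nat_lit 43182245), (nat_lit 10364834), (nat_lit 13452921), (nat_lit 0), (nat_lit 0), [⟨(nat_lit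 0), (nat_lit 100), (nat_lit 22), (nat_lit 98), (nat_lit 38795367)⟩], [], [⟨(nat_lit 0), (nat_lit 100), (nat_lit 100), (nat_lit 20), (nat_lit 62225924)⟩], [],
 ⟨⟨[(nat_lit 40), (nat_lit 60), (nat_lit 80)], [(nat_lit 0), (nat_lit 2136), (nat_lit 3185)], [((nat_lit 0), (nat_lit 0), (nat_lit 0)), ((nat_lit 1000), (nat_lit 343), (nat_lit 808)), ((nat_lit 1000), (nat_lit 338), (nat_lit 820))], ((nat_lit 32), (nat_lit 100), (nat_lit 86))⟩, (nat_lit 589), (nat_lit 134), (nat_lit 134), (nat_lit 0), (nat_lit 231841), [(nat_lit 1525204801), (nat_lit 1143173408), (nat_lit 1206131600)], [(nat_lit 0), (nat_lit 0), (nat_lit 0)], [(nat_lit 23356260202), (nat_lit 23976758342), (nat_lit 24527268653), (nat_lit 25081087259), (nat_lit 24315843336), (nat_lit 24935758190), (nat_lit 25377223635), (nat_lit 25896770646)], (nat_lit 1271251), (nat_lit 1271251), (nat_lit 780000), (nat_lit 1435001), (nat_lit 1271251), (nat_lit 1271251), [(nat_lit 490000), (nat_lit 780000), (nat_lit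 1100000)], [(nat_lit 2), (nat_lit 44), (nat_lit 260), (nat_lit 50), (nat_lit 10)]⟩,
 ⟨⟨[(nat_lit 120), (nat_lit 160), (nat_lit 200)], [(nat_lit 0), (nat_lit 533), (nat_lit 3597)], [((nat_lit 0), (nat_lit 0), (nat_lit 0)), ((nat_lit 960), (nat_lit 1000), (nat_lit 200)), ((nat_lit 612), (nat_lit 1000), (nat_lit 732))], ((nat_lit 0), (nat_lit 0), (nat_lit 0))⟩, (nat_lit 275846), (nat_lit 909), (nat_lit 909), (nat_lit 0), (nat_lit 948442), [(nat_lit 478080000), (nat_lit 712320000), (nat_lit 984000000)], [], [(nat_lit 2281622886), (nat_lit 2264439726), (nat_lit 2620858839), (nat_lit 2165612497), (nat_lit 2224435173), (nat_lit 1625991210), (nat_lit 2942689335), (nat_lit 2116926969)], (nat_lit 1271251), (nat_lit 1271251), (nat_lit 780000), (nat_lit 1435001), (nat_lit 0), (nat_lit 780000), [(nat_lit 1695001), (nat_lit 1271251), (nat_lit 1271251)], [(nat_lit 29), (nat_lit 66), (nat_lit 373), (nat_lit 150), (nat_lit 8)]⟩,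
 ⟨⟨[(nat_lit 120), (nat_lit 160), (nat_lit 200)], [(nat_lit 0), (nat_lit 533), (nat_lit 3597)], [((nat_lit 0), (nat_lit 0), (nat_lit 0)), ((nat_lit 960), (nat_lit 1000), (nat_lit 200)), ((nat_lit 612), (nat_lit 1000), (nat_lit 732))], ((nat_lit 0), (nat_lit 0), (nat_lit 0))⟩, (nat_lit 31937), (nat_lit 300), (nat_lit 871), (nat_lit 4345614), (nat_lit 948442), [(nat_lit 478080000), (nat_lit 712320000), (nat_lit 984000000)], [], [(nat_lit 3652661043), (nat_lit 3598529217), (nat_lit 3601321944), (nat_lit 3541604664), (nat_lit 2900178080), (nat_lit 2814705858), (nat_lit 2817447536), (nat_lit 2760559547)], (nat_lit 1271251), (nat_lit 1271251), (nat_lit 1271251), (nat_lit 1271251), (nat_lit 0), (nat_lit 780000), [(nat_lit 1695001), (nat_lit 1271251), (nat_lit 1271251)], [(nat_lit 29), (nat_lit 66), (nat_lit 373), (nat_lit 150), (nat_lit 8)]⟩⟩) (.leaf ⟨(nat_lit 933), (nat_lit 0), (nat_lit 0), (nat_lit 67), (nat_lit 0), (nat_lit 3353), (nat_lit 906), (nat_lit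 939), (nat_lit 0), (nat_lit 126517), (nat_lit 289500), [((nat_lit 400), [((nat_lit 29), (nat_lit 0), (nat_lit 558)), ((nat_lit 29), (nat_lit 1), (nat_lit 375))])], ⟨(nat_lit 5), false, true, true, (nat_lit 210), (nat_lit 0), (nat_lit 1582), [(nat_lit 1476683), (nat_lit 1474999), (nat_lit 1522658), (nat_lit 1524343), (nat_lit 1531317), (nat_lit 1524997), (nat_lit 1577949), (nat_lit 1574999)]⟩, ⟨(nat_lit 5), false, true, true, (nat_lit 210), (nat_lit 0), (nat_lit 1582), [(nat_lit 1476683), (nat_lit 1474999), (nat_lit 1522658), (nat_lit 1524343), (nat_lit 1531317), (nat_lit 1524997), (nat_lit 1577949), (nat_lit 1574999)]⟩, (nat_lit 5058104), (nat_lit 40956784), (nat_lit 13021608), (nat_lit 13021608), (nat_lit 0), (nat_lit 0), [], [], [], [⟨(nat_lit 0), (nat_lit 100), (nat_lit 100), (nat_lit 20), (nat_lit 100555726)⟩],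
 ⟨⟨[(nat_lit 40), (nat_lit 60), (nat_lit 80)], [(nat_lit 0), (nat_lit 2136), (nat_lit 3185)], [((nat_lit 0), (nat_lit 0), (nat_lit 0)), ((nat_lit 1000), (nat_lit 343), (nat_lit 808)), ((nat_lit 1000), (nat_lit 338), (nat_lit 820))], ((nat_lit 32), (nat_lit 100), (nat_lit 86))⟩, (nat_lit 0), (nat_lit 123), (nat_lit 123), (nat_lit 0), (nat_lit 231841), [(nat_lit 1516531601), (nat_lit 1055489146), (nat_lit 1156227200)], [(nat_lit 0), (nat_lit 0), (nat_lit 0)], [(nat_lit 24551250637), (nat_lit 25101438724), (nat_lit 25402080512), (nat_lit 25917110674), (nat_lit 25402080512), (nat_lit 25917110674), (nat_lit 26188335865), (nat_lit 26703647992)], (nat_lit 1271251), (nat_lit 1271251), (nat_lit 1271251), (nat_lit 1271251), (nat_lit 1271251), (nat_lit 1271251), [(nat_lit 490000), (nat_lit 780000), (nat_lit 1100000)], [(nat_lit 2), (nat_lit 44), (nat_lit 203), (nat_lit 0), (nat_lit 7)]⟩,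
 ⟨⟨[(nat_lit 120), (nat_lit 160), (nat_lit 200)], [(nat_lit 0), (nat_lit 533), (nat_lit 3597)], [((nat_lit 0), (nat_lit 0), (nat_lit 0)), ((nat_lit 960), (nat_lit 1000), (nat_lit 200)), ((nat_lit 612), (nat_lit 1000), (nat_lit 732))], ((nat_lit 0), (nat_lit 0), (nat_lit 0))⟩, (nat_lit 279717), (nat_lit 871), (nat_lit 871), (nat_lit 0), (nat_lit 948442), [(nat_lit 533856000), (nat_lit 795424000), (nat_lit 1098800000)], [], [(nat_lit 2522131716), (nat_lit 2495553925), (nat_lit 2499181885), (nat_lit 2506257783), (nat_lit 2621276327), (nat_lit 1831973602), (nat_lit 1835315070), (nat_lit 1804808772)], (nat_lit 1271251), (nat_lit 1271251), (nat_lit 1271251), (nat_lit 1271251), (nat_lit 0), (nat_lit 780000), [(nat_lit 1695001), (nat_lit 1271251), (nat_lit 1271251)], [(nat_lit 29), (nat_lit 66), (nat_lit 373), (nat_lit 150), (nat_lit 8)]⟩,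
 ⟨⟨[(nat_lit 120), (nat_lit 160), (nat_lit 200)], [(nat_lit 0), (nat_lit 533), (nat_lit 3597)], [((nat_lit 0), (nat_lit 0), (nat_lit 0)), ((nat_lit 960), (nat_lit 1000), (nat_lit 200)), ((nat_lit 612), (nat_lit 1000), (nat_lit 732))], ((nat_lit 0), (nat_lit 0), (nat_lit 0))⟩, (nat_lit 35663), (nat_lit 300), (nat_lit 871), (nat_lit 4852601), (nat_lit 948442), [(nat_lit 533856000), (nat_lit 795424000), (nat_lit 1098800000)], [], [(nat_lit 4116899892), (nat_lit 4017618772), (nat_lit 4020398455), (nat_lit 3958835477), (nat_lit 3335728140), (nat_lit 3240199092), (nat_lit 3241629494), (nat_lit 3143239641)], (nat_lit 1271251), (nat_lit 1271251), (nat_lit 1271251), (nat_lit 1271251), (nat_lit 0), (nat_lit 780000), [(nat_lit 1695001), (nat_lit 1271251), (nat_lit 1271251)], [(nat_lit 29), (nat_lit 66), (nat_lit 373), (nat_lit 150), (nat_lit 8)]⟩⟩)) (.spl (nat_lit 3) (nat_lit 200) (.spl (nat_lit 6) (nat_lit 68) (.leaf ⟨(nat_lit 933), (nat_lit 0), (nat_lit 0),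 (nat_lit 67), (nat_lit 0), (nat_lit 3220), (nat_lit 968), (nat_lit 912), (nat_lit 0), (nat_lit 3647801164608), (nat_lit 309900), [((nat_lit 400), [((nat_lit 28), (nat_lit 0), (nat_lit 422)), ((nat_lit 28), (nat_lit 1), (nat_lit 511))])], ⟨(nat_lit 4), false, false, false, (nat_lit 178), (nat_lit 0), (nat_lit 1582), [(nat_lit 1365448), (nat_lit 1373034), (nat_lit 1410764), (nat_lit 1421721), (nat_lit 1476683), (nat_lit 1474999), (nat_lit 1522658), (nat_lit 1524343)]⟩, ⟨(nat_lit 6), false, true, true, (nat_lit 234), (nat_lit 0), (nat_lit 1582), [(nat_lit 1531317), (nat_lit 1524997), (nat_lit 1577949), (nat_lit 1574999), (nat_lit 1599609), (nat_lit 1587494), (nat_lit 1646241), (nat_lit 1637496)]⟩, (nat_lit 4965086), (nat_lit 41353107), (nat_lit 10099291), (nat_lit 15547602), (nat_lit 0), (nat_lit 0), [⟨(nat_lit 0), (nat_lit 100), (nat_lit 22), (nat_lit 98), (nat_lit 39235584)⟩], [⟨(nat_lit 1), (nat_lit 92), (nat_lit 31), (nat_lit 100), (nat_lit 445080021)⟩],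 [⟨(nat_lit 0), (nat_lit 100), (nat_lit 100), (nat_lit 20), (nat_lit 63512006)⟩], [],
 ⟨⟨[(nat_lit 40), (nat_lit 60), (nat_lit 80)], [(nat_lit 0), (nat_lit 2136), (nat_lit 3185)], [((nat_lit 0), (nat_lit 0), (nat_lit 0)), ((nat_lit 1000), (nat_lit 343), (nat_lit 808)), ((nat_lit 1000), (nat_lit 338), (nat_lit 820))], ((nat_lit 34), (nat_lit 100), (nat_lit 82))⟩, (nat_lit 0), (nat_lit 140), (nat_lit 140), (nat_lit 0), (nat_lit 229687), [(nat_lit 1493083602), (nat_lit 970090919), (nat_lit 995910400)], [(nat_lit 0), (nat_lit 0), (nat_lit 0)], [(nat_lit 24340560614), (nat_lit 24905702764), (nat_lit 25434884069), (nat_lit 25955577806), (nat_lit 26048012362), (nat_lit 26713981875), (nat_lit 27060011543), (nat_lit 27565889606)], (nat_lit 1271251), (nat_lit 1271251), (nat_lit 780000), (nat_lit 1435001), (nat_lit 1271251), (nat_lit 1271251), [(nat_lit 490000), (nat_lit 780000), (nat_lit 1100000)], [(nat_lit 2), (nat_lit 44), (nat_lit 260), (nat_lit 50), (nat_lit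 10)]⟩,
 ⟨⟨[(nat_lit 120), (nat_lit 160), (nat_lit 200)], [(nat_lit 0), (nat_lit 533), (nat_lit 3597)], [((nat_lit 0), (nat_lit 0), (nat_lit 0)), ((nat_lit 960), (nat_lit 1000), (nat_lit 200)), ((nat_lit 612), (nat_lit 1000), (nat_lit 732))], ((nat_lit 0), (nat_lit 0), (nat_lit 0))⟩, (nat_lit 321370), (nat_lit 905), (nat_lit 905), (nat_lit 0), (nat_lit 938494), [(nat_lit 533856000), (nat_lit 795424000), (nat_lit 1098800000)], [], [(nat_lit 2512388342), (nat_lit 2492447486), (nat_lit 2930281036), (nat_lit 2397751010), (nat_lit 2482687672), (nat_lit 1770969665), (nat_lit 3291211852), (nat_lit 2359582516)], (nat_lit 1271251), (nat_lit 1271251), (nat_lit 780000), (nat_lit 1435001), (nat_lit 0), (nat_lit 780000), [(nat_lit 1695001), (nat_lit 1271251), (nat_lit 1271251)], [(nat_lit 29), (nat_lit 66), (nat_lit 373), (nat_lit 150), (nat_lit 8)]⟩,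
 ⟨⟨[(nat_lit 120), (nat_lit 160), (nat_lit 200)], [(nat_lit 0), (nat_lit 533), (nat_lit 3597)], [((nat_lit 0), (nat_lit 0), (nat_lit 0)), ((nat_lit 960), (nat_lit 1000), (nat_lit 200)), ((nat_lit 612), (nat_lit 1000), (nat_lit 732))], ((nat_lit 0), (nat_lit 0), (nat_lit 0))⟩, (nat_lit 35663), (nat_lit 300), (nat_lit 851), (nat_lit 4852601), (nat_lit 938494), [(nat_lit 533856000), (nat_lit 795424000), (nat_lit 1098800000)], [], [(nat_lit 4059594753), (nat_lit 3961583499), (nat_lit 4065724879), (nat_lit 3996308822), (nat_lit 3307225832), (nat_lit 3212848827), (nat_lit 3266619002), (nat_lit 3186445422)], (nat_lit 1271251), (nat_lit 1271251), (nat_lit 1271251), (nat_lit 1271251), (nat_lit 0), (nat_lit 780000), [(nat_lit 1695001), (nat_lit 1271251), (nat_lit 1271251)], [(nat_lit 29), (nat_lit 66), (nat_lit 401), (nat_lit 175), (nat_lit 8)]⟩⟩) (.leaf ⟨(nat_lit 940), (nat_lit 0), (nat_lit 0), (nat_lit 60), (nat_lit 7018), (nat_lit 3345), (nat_lit 858), (nat_lit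 1117), (nat_lit 0), (nat_lit 1886577834909), (nat_lit 235000), [((nat_lit 400), [((nat_lit 29), (nat_lit 0), (nat_lit 940))])], ⟨(nat_lit 4), false, false, false, (nat_lit 178), (nat_lit 0), (nat_lit 1582), [(nat_lit 1365448), (nat_lit 1373034), (nat_lit 1410764), (nat_lit 1421721), (nat_lit 1476683), (nat_lit 1474999), (nat_lit 1522658), (nat_lit 1524343)]⟩, ⟨(nat_lit 6), false, true, true, (nat_lit 234), (nat_lit 0), (nat_lit 1582), [(nat_lit 1531317), (nat_lit 1524997), (nat_lit 1577949), (nat_lit 1574999), (nat_lit 1599609), (nat_lit 1587494), (nat_lit 1646241), (nat_lit 1637496)]⟩, (nat_lit 4965086), (nat_lit 41353107), (nat_lit 10099291), (nat_lit 15547602), (nat_lit 0), (nat_lit 0), [⟨(nat_lit 0), (nat_lit 100), (nat_lit 22), (nat_lit 98), (nat_lit 25999859)⟩], [⟨(nat_lit 1), (nat_lit 98), (nat_lit 22), (nat_lit 100), (nat_lit 679559300)⟩], [⟨(nat_lit 0), (nat_lit 100), (nat_lit 100), (nat_lit 20), (nat_lit 69485195)⟩], [],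
 ⟨⟨[(nat_lit 40), (nat_lit 60), (nat_lit 80)], [(nat_lit 0), (nat_lit 2136), (nat_lit 3185)], [((nat_lit 0), (nat_lit 0), (nat_lit 0)), ((nat_lit 1000), (nat_lit 343), (nat_lit 808)), ((nat_lit 1000), (nat_lit 338), (nat_lit 820))], ((nat_lit 32), (nat_lit 100), (nat_lit 86))⟩, (nat_lit 0), (nat_lit 110), (nat_lit 110), (nat_lit 0), (nat_lit 102067), [(nat_lit 1577288003), (nat_lit 1343370934), (nat_lit 1575096000)], [(nat_lit 0), (nat_lit 0), (nat_lit 0)], [(nat_lit 24470949095), (nat_lit 25082136003), (nat_lit 25541468575), (nat_lit 26087531543), (nat_lit 26258787269), (nat_lit 26888618594), (nat_lit 27145946019), (nat_lit 27661752109)], (nat_lit 1271251), (nat_lit 1271251), (nat_lit 780000), (nat_lit 1435001), (nat_lit 1271251), (nat_lit 1271251), [(nat_lit 490000), (nat_lit 780000), (nat_lit 1100000)], [(nat_lit 2), (nat_lit 44), (nat_lit 260), (nat_lit 50), (nat_lit 10)]⟩,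
 ⟨⟨[(nat_lit 120), (nat_lit 160), (nat_lit 200)], [(nat_lit 0), (nat_lit 533), (nat_lit 3597)], [((nat_lit 0), (nat_lit 0), (nat_lit 0)), ((nat_lit 960), (nat_lit 1000), (nat_lit 200)), ((nat_lit 612), (nat_lit 1000), (nat_lit 732))], ((nat_lit 0), (nat_lit 0), (nat_lit 0))⟩, (nat_lit 275846), (nat_lit 674), (nat_lit 674), (nat_lit 0), (nat_lit 428994), [(nat_lit 478080000), (nat_lit 712320000), (nat_lit 984000000)], [], [(nat_lit 2281622886), (nat_lit 2264439726), (nat_lit 2620858839), (nat_lit 2165612497), (nat_lit 2224435173), (nat_lit 1625991210), (nat_lit 2942689335), (nat_lit 2116926969)], (nat_lit 1271251), (nat_lit 1271251), (nat_lit 780000), (nat_lit 1435001), (nat_lit 0), (nat_lit 780000), [(nat_lit 1695001), (nat_lit 1271251), (nat_lit 1271251)], [(nat_lit 29), (nat_lit 66), (nat_lit 373), (nat_lit 150), (nat_lit 8)]⟩,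
 ⟨⟨[(nat_lit 120), (nat_lit 160), (nat_lit 200)], [(nat_lit 0), (nat_lit 533), (nat_lit 3597)], [((nat_lit 0), (nat_lit 0), (nat_lit 0)), ((nat_lit 960), (nat_lit 1000), (nat_lit 200)), ((nat_lit 612), (nat_lit 1000), (nat_lit 732))], ((nat_lit 0), (nat_lit 0), (nat_lit 0))⟩, (nat_lit 31937), (nat_lit 300), (nat_lit 621), (nat_lit 4345614), (nat_lit 428994), [(nat_lit 478080000), (nat_lit 712320000), (nat_lit 984000000)], [], [(nat_lit 3607347152), (nat_lit 3518984192), (nat_lit 3639983946), (nat_lit 3538555607), (nat_lit 2584844067), (nat_lit 2500521580), (nat_lit 2608873740), (nat_lit 2512389028)], (nat_lit 1271251), (nat_lit 1271251), (nat_lit 1271251), (nat_lit 1271251), (nat_lit 0), (nat_lit 780000), [(nat_lit 1695001), (nat_lit 1271251), (nat_lit 1271251)], [(nat_lit 29), (nat_lit 66), (nat_lit 401), (nat_lit 175), (nat_lit 8)]⟩⟩)) (.spl (nat_lit 0) (nat_lit 395) (.leaf ⟨(nat_lit 925), (nat_lit 0), (nat_lit 0), (nat_lit 75), (nat_lit 360), (nat_lit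 3415), (nat_lit 1002), (nat_lit 1050), (nat_lit 0), (nat_lit 1268691800828), (nat_lit 231250), [((nat_lit 395), [((nat_lit 29), (nat_lit 0), (nat_lit 925))])], ⟨(nat_lit 5), false, true, true, (nat_lit 211), (nat_lit 1118), (nat_lit 1582), [(nat_lit 1476683), (nat_lit 1476248), (nat_lit 1523282), (nat_lit 1523718), (nat_lit 1531319), (nat_lit 1529375), (nat_lit 1577949), (nat_lit 1576877)]⟩, ⟨(nat_lit 6), false, true, true, (nat_lit 235), (nat_lit 1118), (nat_lit 1582), [(nat_lit 1531319), (nat_lit 1529375), (nat_lit 1577949), (nat_lit 1576877), (nat_lit 1599614), (nat_lit 1595784), (nat_lit 1646244), (nat_lit 1643285)]⟩, (nat_lit 5208143), (nat_lit 39209401), (nat_lit 12684236), (nat_lit 15106363), (nat_lit 0), (nat_lit 0), [], [⟨(nat_lit 1), (nat_lit 92), (nat_lit 31), (nat_lit 100), (nat_lit 259133561)⟩], [], [⟨(nat_lit 0), (nat_lit 95), (nat_lit 100), (nat_lit 42), (nat_lit 122991020)⟩],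
 ⟨⟨[(nat_lit 40), (nat_lit 60), (nat_lit 80)], [(nat_lit 0), (nat_lit 2136), (nat_lit 3185)], [((nat_lit 0), (nat_lit 0), (nat_lit 0)), ((nat_lit 1000), (nat_lit 343), (nat_lit 808)), ((nat_lit 1000), (nat_lit 338), (nat_lit 820))], ((nat_lit 32), (nat_lit 100), (nat_lit 86))⟩, (nat_lit 0), (nat_lit 117), (nat_lit 117), (nat_lit 0), (nat_lit 200244), [(nat_lit 1580810004), (nat_lit 1367204181), (nat_lit 1624770000)], [(nat_lit 0), (nat_lit 0), (nat_lit 0)], [(nat_lit 25516927003), (nat_lit 25792445894), (nat_lit 26324653962), (nat_lit 26582456293), (nat_lit 27128585365), (nat_lit 27433730295), (nat_lit 27900953261), (nat_lit 28186153155)], (nat_lit 1271251), (nat_lit 1271251), (nat_lit 1271251), (nat_lit 1271251), (nat_lit 1271251), (nat_lit 1271251), [(nat_lit 490000), (nat_lit 780000), (nat_lit 1100000)], [(nat_lit 2), (nat_lit 44), (nat_lit 203), (nat_lit 0), (nat_lit 6)]⟩,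
 ⟨⟨[(nat_lit 120), (nat_lit 160), (nat_lit 200)], [(nat_lit 0), (nat_lit 533), (nat_lit 3597)], [((nat_lit 0), (nat_lit 0), (nat_lit 0)), ((nat_lit 960), (nat_lit 1000), (nat_lit 200)), ((nat_lit 612), (nat_lit 1000), (nat_lit 732))], ((nat_lit 0), (nat_lit 0), (nat_lit 0))⟩, (nat_lit 280151), (nat_lit 808), (nat_lit 808), (nat_lit 0), (nat_lit 787589), [(nat_lit 597600000), (nat_lit 890400000), (nat_lit 1230000000)], [], [(nat_lit 2896605434), (nat_lit 2868926013), (nat_lit 2876315685), (nat_lit 2912413149), (nat_lit 2935833975), (nat_lit 2135495182), (nat_lit 2139197876), (nat_lit 2099629217)], (nat_lit 1271251), (nat_lit 1271251), (nat_lit 1271251), (nat_lit 1271251), (nat_lit 0), (nat_lit 780000), [(nat_lit 1695001), (nat_lit 1271251), (nat_lit 1271251)], [(nat_lit 29), (nat_lit 66), (nat_lit 373), (nat_lit 150), (nat_lit 8)]⟩,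
 ⟨⟨[(nat_lit 120), (nat_lit 160), (nat_lit 200)], [(nat_lit 0), (nat_lit 533), (nat_lit 3597)], [((nat_lit 0), (nat_lit 0), (nat_lit 0)), ((nat_lit 960), (nat_lit 1000), (nat_lit 200)), ((nat_lit 612), (nat_lit 1000), (nat_lit 732))], ((nat_lit 0), (nat_lit 0), (nat_lit 0))⟩, (nat_lit 39922), (nat_lit 300), (nat_lit 765), (nat_lit 5432010), (nat_lit 787589), [(nat_lit 597600000), (nat_lit 890400000), (nat_lit 1230000000)], [], [(nat_lit 4500628875), (nat_lit 4431636225), (nat_lit 4551088697), (nat_lit 4469578491), (nat_lit 3631405688), (nat_lit 3521434163), (nat_lit 3611189757), (nat_lit 3533849232)], (nat_lit 1271251), (nat_lit 1271251), (nat_lit 1271251), (nat_lit 1271251), (nat_lit 0), (nat_lit 780000), [(nat_lit 1695001), (nat_lit 1271251), (nat_lit 1271251)], [(nat_lit 29), (nat_lit 66), (nat_lit 401), (nat_lit 175), (nat_lit 8)]⟩⟩) (.trX (nat_lit 4) (nat_lit 0) (nat_lit 2) (nat_lit 22) (nat_lit 95) (nat_lit 100) (nat_lit 270) (.leaf ⟨(nat_lit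 921), (nat_lit 0), (nat_lit 0), (nat_lit 79), (nat_lit 0), (nat_lit 3586), (nat_lit 1082), (nat_lit 1075), (nat_lit 0), (nat_lit 1103203178441), (nat_lit 230250), [((nat_lit 400), [((nat_lit 29), (nat_lit 0), (nat_lit 921))])], ⟨(nat_lit 5), false, true, true, (nat_lit 210), (nat_lit 0), (nat_lit 1119), [(nat_lit 1476247), (nat_lit 1474998), (nat_lit 1523285), (nat_lit 1524534), (nat_lit 1529372), (nat_lit 1524996), (nat_lit 1576876), (nat_lit 1574998)]⟩, ⟨(nat_lit 6), false, true, true, (nat_lit 228), (nat_lit 0), (nat_lit 1119), [(nat_lit 1529372), (nat_lit 1524996), (nat_lit 1576876), (nat_lit 1574998), (nat_lit 1569216), (nat_lit 1562495), (nat_lit 1616720), (nat_lit 1612497)]⟩, (nat_lit 5168382), (nat_lit 39707869), (nat_lit 12744925), (nat_lit 14547206), (nat_lit 0), (nat_lit 0), [], [⟨(nat_lit 1), (nat_lit 99), (nat_lit 16), (nat_lit 100), (nat_lit 93592463)⟩, ⟨(nat_lit 1), (nat_lit 95), (nat_lit 22), (nat_lit 100), (nat_lit 452273540)⟩], [],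 [⟨(nat_lit 0), (nat_lit 97), (nat_lit 100), (nat_lit 37), (nat_lit 97896509)⟩],
 ⟨⟨[(nat_lit 40), (nat_lit 60), (nat_lit 80)], [(nat_lit 0), (nat_lit 2600), (nat_lit 3731)], [((nat_lit 0), (nat_lit 0), (nat_lit 0)), ((nat_lit 1000), (nat_lit 245), (nat_lit 872)), ((nat_lit 1000), (nat_lit 240), (nat_lit 884))], ((nat_lit 24), (nat_lit 100), (nat_lit 89))⟩, (nat_lit 18919), (nat_lit 124), (nat_lit 124), (nat_lit 0), (nat_lit 231030), [(nat_lit 1581749206), (nat_lit 1344359818), (nat_lit 1638016400)], [(nat_lit 0), (nat_lit 0), (nat_lit 0)], [(nat_lit 25788356020), (nat_lit 26075613252), (nat_lit 26598612721), (nat_lit 26922636304), (nat_lit 26860661939), (nat_lit 27187467203), (nat_lit 27654826920), (nat_lit 27959277931)], (nat_lit 1271251), (nat_lit 1271251), (nat_lit 1271251), (nat_lit 1271251), (nat_lit 1271251), (nat_lit 1271251), [(nat_lit 490000), (nat_lit 780000), (nat_lit 1100000)], [(nat_lit 2), (nat_lit 44), (nat_lit 203), (nat_lit 0), (nat_lit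 6)]⟩,
 ⟨⟨[(nat_lit 120), (nat_lit 160), (nat_lit 200)], [(nat_lit 0), (nat_lit 533), (nat_lit 3597)], [((nat_lit 0), (nat_lit 0), (nat_lit 0)), ((nat_lit 960), (nat_lit 1000), (nat_lit 200)), ((nat_lit 612), (nat_lit 1000), (nat_lit 732))], ((nat_lit 0), (nat_lit 0), (nat_lit 0))⟩, (nat_lit 331991), (nat_lit 871), (nat_lit 871), (nat_lit 0), (nat_lit 948038), [(nat_lit 629472000), (nat_lit 937888000), (nat_lit 1295600000)], [], [(nat_lit 2947138636), (nat_lit 2915496657), (nat_lit 2923448397), (nat_lit 2960477237), (nat_lit 3088989199), (nat_lit 2120455387), (nat_lit 2124437894), (nat_lit 2103986812)], (nat_lit 1271251), (nat_lit 1271251), (nat_lit 1271251), (nat_lit 1271251), (nat_lit 0), (nat_lit 780000), [(nat_lit 1695001), (nat_lit 1271251), (nat_lit 1271251)], [(nat_lit 29), (nat_lit 66), (nat_lit 373), (nat_lit 150), (nat_lit 8)]⟩,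
 ⟨⟨[(nat_lit 120), (nat_lit 160), (nat_lit 200)], [(nat_lit 0), (nat_lit 533), (nat_lit 3597)], [((nat_lit 0), (nat_lit 0), (nat_lit 0)), ((nat_lit 960), (nat_lit 1000), (nat_lit 200)), ((nat_lit 612), (nat_lit 1000), (nat_lit 732))], ((nat_lit 0), (nat_lit 0), (nat_lit 0))⟩, (nat_lit 42051), (nat_lit 300), (nat_lit 854), (nat_lit 5721718), (nat_lit 948038), [(nat_lit 629472000), (nat_lit 937888000), (nat_lit 1295600000)], [], [(nat_lit 4787198328), (nat_lit 4671685712), (nat_lit 4772209150), (nat_lit 4695640370), (nat_lit 3900395452), (nat_lit 3789166123), (nat_lit 3871689553), (nat_lit 3756622702)], (nat_lit 1271251), (nat_lit 1271251), (nat_lit 1271251), (nat_lit 1271251), (nat_lit 0), (nat_lit 780000), [(nat_lit 1695001), (nat_lit 1271251), (nat_lit 1271251)], [(nat_lit 29), (nat_lit 66), (nat_lit 401), (nat_lit 175), (nat_lit 8)]⟩⟩)))))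
noncomputable def c13_49 : Tr Lf :=
 (.trZ (nat_lit 0) (nat_lit 1) (nat_lit 3) (nat_lit 100) (nat_lit 31) (nat_lit 98) (nat_lit 150) (.spl (nat_lit 4) (nat_lit 240) (.leaf ⟨(nat_lit 878), (nat_lit 51), (nat_lit 0), (nat_lit 71), (nat_lit 0), (nat_lit 3581), (nat_lit 1358), (nat_lit 969), (nat_lit 0), (nat_lit 0), (nat_lit 231200), [((nat_lit 400), [((nat_lit 29), (nat_lit 0), (nat_lit 800)), ((nat_lit 29), (nat_lit 1), (nat_lit 78))])], ⟨(nat_lit 5), false, false, false, (nat_lit 211), (nat_lit 0), (nat_lit 1582), [(nat_lit 1452725), (nat_lit 1460204), (nat_lit 1475382), (nat_lit 1484547), (nat_lit 1577949), (nat_lit 1574999), (nat_lit 1601257), (nat_lit 1599992)]⟩, ⟨(nat_lit 5), false, true, true, (nat_lit 210), (nat_lit 0), (nat_lit 1582), [(nat_lit 1476683), (nat_lit 1474999), (nat_lit 1522658), (nat_lit 1524343), (nat_lit 1531317), (nat_lit 1524997), (nat_lit 1577949), (nat_lit 1574999)]⟩, (nat_lit 5064493), (nat_lit 40889863), (nat_lit 13102291),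 (nat_lit 13007846), (nat_lit 5), (nat_lit 0), [], [], [⟨(nat_lit 0), (nat_lit 100), (nat_lit 98), (nat_lit 30), (nat_lit 71185738)⟩], [],
 ⟨⟨[(nat_lit 40), (nat_lit 60), (nat_lit 80)], [(nat_lit 0), (nat_lit 2136), (nat_lit 3185)], [((nat_lit 0), (nat_lit 0), (nat_lit 0)), ((nat_lit 1000), (nat_lit 343), (nat_lit 808)), ((nat_lit 1000), (nat_lit 338), (nat_lit 820))], ((nat_lit 32), (nat_lit 100), (nat_lit 86))⟩, (nat_lit 2046), (nat_lit 132), (nat_lit 132), (nat_lit 0), (nat_lit 251676), [(nat_lit 1578866513), (nat_lit 1326789754), (nat_lit 1688468800)], [(nat_lit 0), (nat_lit 0), (nat_lit 0)], [(nat_lit 23873455736), (nat_lit 24485102833), (nat_lit 25641018817), (nat_lit 26170927860), (nat_lit 24799036598), (nat_lit 25370102954), (nat_lit 26420549367), (nat_lit 26917936984)], (nat_lit 1271251), (nat_lit 1271251), (nat_lit 1017188), (nat_lit 1779376), (nat_lit 1271251), (nat_lit 1271251), [(nat_lit 490000), (nat_lit 780000), (nat_lit 1100000)], [(nat_lit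 2), (nat_lit 44), (nat_lit 272), (nat_lit 60), (nat_lit 10)]⟩,
 ⟨⟨[(nat_lit 100), (nat_lit 140), (nat_lit 180)], [(nat_lit 0), (nat_lit 508), (nat_lit 2854)], [((nat_lit 0), (nat_lit 0), (nat_lit 0)), ((nat_lit 1000), (nat_lit 1000), (nat_lit 198)), ((nat_lit 777), (nat_lit 1000), (nat_lit 712))], ((nat_lit 100), (nat_lit 64), (nat_lit 83))⟩, (nat_lit 456521), (nat_lit 655), (nat_lit 655), (nat_lit 0), (nat_lit 652331), [(nat_lit 762500000), (nat_lit 1200724000), (nat_lit 1715076000)], [], [(nat_lit 4255687327), (nat_lit 3886402020), (nat_lit 3893984728), (nat_lit 3907331916), (nat_lit 2987638150), (nat_lit 3011285736), (nat_lit 4045706907), (nat_lit 3383154324)], (nat_lit 1271251), (nat_lit 1271251), (nat_lit 1017188), (nat_lit 1779376), (nat_lit 0), (nat_lit 780000), [(nat_lit 1412501), (nat_lit 1271251), (nat_lit 1271251)], [(nat_lit 24), (nat_lit 63), (nat_lit 373), (nat_lit 150), (nat_lit 9)]⟩,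
 ⟨⟨[(nat_lit 120), (nat_lit 160), (nat_lit 200)], [(nat_lit 0), (nat_lit 533), (nat_lit 3597)], [((nat_lit 0), (nat_lit 0), (nat_lit 0)), ((nat_lit 960), (nat_lit 1000), (nat_lit 200)), ((nat_lit 612), (nat_lit 1000), (nat_lit 732))], ((nat_lit 0), (nat_lit 0), (nat_lit 0))⟩, (nat_lit 37793), (nat_lit 300), (nat_lit 883), (nat_lit 5142303), (nat_lit 980313), [(nat_lit 565728000), (nat_lit 842912000), (nat_lit 1164400000)], [], [(nat_lit 4397874570), (nat_lit 4296622238), (nat_lit 4298124030), (nat_lit 4197658473), (nat_lit 3594400808), (nat_lit 3496982136), (nat_lit 3498468188), (nat_lit 3398077411)], (nat_lit 1271251), (nat_lit 1271251), (nat_lit 1271251), (nat_lit 1271251), (nat_lit 0), (nat_lit 780000), [(nat_lit 1695001), (nat_lit 1271251), (nat_lit 1271251)], [(nat_lit 29), (nat_lit 66), (nat_lit 373), (nat_lit 150), (nat_lit 8)]⟩⟩) (.spl (nat_lit 0) (nat_lit 395) (.leaf ⟨(nat_lit 889), (nat_lit 19), (nat_lit 0), (nat_lit 92), (nat_lit 0), (nat_lit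 3637), (nat_lit 1419), (nat_lit 1233), (nat_lit 0), (nat_lit 0), (nat_lit 222250), [((nat_lit 395), [((nat_lit 29), (nat_lit 0), (nat_lit 889))])], ⟨(nat_lit 5), false, false, false, (nat_lit 211), (nat_lit 1118), (nat_lit 1582), [(nat_lit 1454908), (nat_lit 1457229), (nat_lit 1478190), (nat_lit 1480948), (nat_lit 1577949), (nat_lit 1576877), (nat_lit 1601263), (nat_lit 1600626)]⟩, ⟨(nat_lit 6), false, true, true, (nat_lit 235), (nat_lit 1118), (nat_lit 1582), [(nat_lit 1531319), (nat_lit 1529375), (nat_lit 1577949), (nat_lit 1576877), (nat_lit 1599614), (nat_lit 1595784), (nat_lit 1646244), (nat_lit 1643285)]⟩, (nat_lit 5212162), (nat_lit 39169098), (nat_lit 12735387), (nat_lit 15095515), (nat_lit 6), (nat_lit 0), [], [⟨(nat_lit 1), (nat_lit 92), (nat_lit 31), (nat_lit 100), (nat_lit 423336983)⟩], [⟨(nat_lit 0), (nat_lit 100), (nat_lit 98), (nat_lit 30), (nat_lit 85958841)⟩], [⟨(nat_lit 0), (nat_lit 95), (nat_lit 100), (nat_lit 30), (nat_lit 24418110)⟩],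
 ⟨⟨[(nat_lit 40), (nat_lit 60), (nat_lit 80)], [(nat_lit 0), (nat_lit 2136), (nat_lit 3185)], [((nat_lit 0), (nat_lit 0), (nat_lit 0)), ((nat_lit 1000), (nat_lit 343), (nat_lit 808)), ((nat_lit 1000), (nat_lit 338), (nat_lit 820))], ((nat_lit 32), (nat_lit 100), (nat_lit 86))⟩, (nat_lit 0), (nat_lit 128), (nat_lit 128), (nat_lit 0), (nat_lit 221667), [(nat_lit 1589262827), (nat_lit 1376793702), (nat_lit 1743987600)], [(nat_lit 0), (nat_lit 0), (nat_lit 0)], [(nat_lit 24784564039), (nat_lit 25072152315), (nat_lit 26400666081), (nat_lit 26650368712), (nat_lit 26593747102), (nat_lit 26933929437), (nat_lit 28117258933), (nat_lit 28410511502)], (nat_lit 1271251), (nat_lit 1271251), (nat_lit 1017188), (nat_lit 1779376), (nat_lit 1271251), (nat_lit 1271251), [(nat_lit 490000), (nat_lit 780000), (nat_lit 1100000)], [(nat_lit 2), (nat_lit 44), (nat_lit 272), (nat_lit 60), (nat_lit 10)]⟩,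
 ⟨⟨[(nat_lit 100), (nat_lit 140), (nat_lit 180)], [(nat_lit 0), (nat_lit 508), (nat_lit 2854)], [((nat_lit 0), (nat_lit 0), (nat_lit 0)), ((nat_lit 1000), (nat_lit 1000), (nat_lit 198)), ((nat_lit 777), (nat_lit 1000), (nat_lit 712))], ((nat_lit 100), (nat_lit 64), (nat_lit 83))⟩, (nat_lit 337390), (nat_lit 614), (nat_lit 614), (nat_lit 0), (nat_lit 549421), [(nat_lit 693750000), (nat_lit 1092462000), (nat_lit 1560438000)], [], [(nat_lit 3911244051), (nat_lit 3686892296), (nat_lit 3822775604), (nat_lit 3881434112), (nat_lit 2567712029), (nat_lit 2596443846), (nat_lit 3614333504), (nat_lit 2922019722)], (nat_lit 1271251), (nat_lit 1271251), (nat_lit 1017188), (nat_lit 1779376), (nat_lit 0), (nat_lit 780000), [(nat_lit 1412501), (nat_lit 1271251), (nat_lit 1271251)], [(nat_lit 24), (nat_lit 63), (nat_lit 373), (nat_lit 150), (nat_lit 9)]⟩,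
 ⟨⟨[(nat_lit 120), (nat_lit 160), (nat_lit 200)], [(nat_lit 0), (nat_lit 533), (nat_lit 3597)], [((nat_lit 0), (nat_lit 0), (nat_lit 0)), ((nat_lit 960), (nat_lit 1000), (nat_lit 200)), ((nat_lit 612), (nat_lit 1000), (nat_lit 732))], ((nat_lit 0), (nat_lit 0), (nat_lit 0))⟩, (nat_lit 48970), (nat_lit 300), (nat_lit 812), (nat_lit 6663275), (nat_lit 840236), [(nat_lit 733056000), (nat_lit 1092224000), (nat_lit 1508800000)], [], [(nat_lit 5603339925), (nat_lit 5471730783), (nat_lit 5582849160), (nat_lit 5490055038), (nat_lit 4588152120), (nat_lit 4461428036), (nat_lit 4534447079), (nat_lit 4400366371)], (nat_lit 1271251), (nat_lit 1271251), (nat_lit 1271251), (nat_lit 1271251), (nat_lit 0), (nat_lit 780000), [(nat_lit 1695001), (nat_lit 1271251), (nat_lit 1271251)], [(nat_lit 29), (nat_lit 66), (nat_lit 401), (nat_lit 175), (nat_lit 8)]⟩⟩) (.trZ (nat_lit 0) (nat_lit 1) (nat_lit 3) (nat_lit 100) (nat_lit 22) (nat_lit 100) (nat_lit 170) (.trX (nat_lit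 4) (nat_lit 0) (nat_lit 2) (nat_lit 22) (nat_lit 95) (nat_lit 100) (nat_lit 270) (.leaf ⟨(nat_lit 870), (nat_lit 39), (nat_lit 0), (nat_lit 91), (nat_lit 0), (nat_lit 3694), (nat_lit 1564), (nat_lit 1241), (nat_lit 0), (nat_lit 0), (nat_lit 217500), [((nat_lit 400), [((nat_lit 29), (nat_lit 0), (nat_lit 870))])], ⟨(nat_lit 5), false, false, false, (nat_lit 217), (nat_lit 0), (nat_lit 1119), [(nat_lit 1482742), (nat_lit 1486337), (nat_lit 1506029), (nat_lit 1510872), (nat_lit 1576876), (nat_lit 1574998), (nat_lit 1600626), (nat_lit 1599998)]⟩, ⟨(nat_lit 6), false, true, true, (nat_lit 228), (nat_lit 0), (nat_lit 1119), [(nat_lit 1529372), (nat_lit 1524996), (nat_lit 1576876), (nat_lit 1574998), (nat_lit 1569216), (nat_lit 1562495), (nat_lit 1616720), (nat_lit 1612497)]⟩, (nat_lit 5210542), (nat_lit 39269458), (nat_lit 13294138), (nat_lit 14436404), (nat_lit 6), (nat_lit 0), [⟨(nat_lit 0), (nat_lit 99), (nat_lit 16), (nat_lit 100), (nat_lit 17641235)⟩],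 [⟨(nat_lit 1), (nat_lit 99), (nat_lit 16), (nat_lit 100), (nat_lit 439282658)⟩, ⟨(nat_lit 1), (nat_lit 95), (nat_lit 22), (nat_lit 100), (nat_lit 263100541)⟩], [], [⟨(nat_lit 0), (nat_lit 96), (nat_lit 100), (nat_lit 30), (nat_lit 83007480)⟩],
 ⟨⟨[(nat_lit 40), (nat_lit 60), (nat_lit 80)], [(nat_lit 0), (nat_lit 2600), (nat_lit 3731)], [((nat_lit 0), (nat_lit 0), (nat_lit 0)), ((nat_lit 1000), (nat_lit 245), (nat_lit 872)), ((nat_lit 1000), (nat_lit 240), (nat_lit 884))], ((nat_lit 24), (nat_lit 100), (nat_lit 89))⟩, (nat_lit 0), (nat_lit 131), (nat_lit 131), (nat_lit 0), (nat_lit 250912), [(nat_lit 1593724002), (nat_lit 1434784179), (nat_lit 1806908000)], [(nat_lit 0), (nat_lit 0), (nat_lit 0)], [(nat_lit 25291211881), (nat_lit 25572806160), (nat_lit 26695485859), (nat_lit 27024141616), (nat_lit 26378154160), (nat_lit 26726771909), (nat_lit 27759064558), (nat_lit 28067718949)], (nat_lit 1271251), (nat_lit 1271251), (nat_lit 1184688), (nat_lit 1790626),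 (nat_lit 1271251), (nat_lit 1271251), [(nat_lit 490000), (nat_lit 780000), (nat_lit 1100000)], [(nat_lit 2), (nat_lit 44), (nat_lit 203), (nat_lit 0), (nat_lit 7)]⟩,
 ⟨⟨[(nat_lit 100), (nat_lit 140), (nat_lit 180)], [(nat_lit 0), (nat_lit 508), (nat_lit 2854)], [((nat_lit 0), (nat_lit 0), (nat_lit 0)), ((nat_lit 1000), (nat_lit 1000), (nat_lit 198)), ((nat_lit 777), (nat_lit 1000), (nat_lit 712))], ((nat_lit 100), (nat_lit 64), (nat_lit 83))⟩, (nat_lit 563190), (nat_lit 646), (nat_lit 646), (nat_lit 0), (nat_lit 652145), [(nat_lit 812500000), (nat_lit 1279460000), (nat_lit 1827540000)], [], [(nat_lit 3744912918), (nat_lit 3770248642), (nat_lit 3940897730), (nat_lit 4009514948), (nat_lit 2928993455), (nat_lit 2742018434), (nat_lit 4344771630), (nat_lit 3581714016)], (nat_lit 1271251), (nat_lit 1271251), (nat_lit 1184688), (nat_lit 1790626), (nat_lit 0), (nat_lit 780000), [(nat_lit 1412501), (nat_lit 1271251), (nat_lit 1271251)], [(nat_lit 24), (nat_lit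 63), (nat_lit 373), (nat_lit 150), (nat_lit 9)]⟩,
 ⟨⟨[(nat_lit 120), (nat_lit 160), (nat_lit 200)], [(nat_lit 0), (nat_lit 533), (nat_lit 3597)], [((nat_lit 0), (nat_lit 0), (nat_lit 0)), ((nat_lit 960), (nat_lit 1000), (nat_lit 200)), ((nat_lit 612), (nat_lit 1000), (nat_lit 732))], ((nat_lit 0), (nat_lit 0), (nat_lit 0))⟩, (nat_lit 48438), (nat_lit 300), (nat_lit 867), (nat_lit 6590843), (nat_lit 980313), [(nat_lit 725088000), (nat_lit 1080352000), (nat_lit 1492400000)], [], [(nat_lit 5510303274), (nat_lit 5380190085), (nat_lit 5497125203), (nat_lit 5408582782), (nat_lit 4486281390), (nat_lit 4357753865), (nat_lit 4453042148), (nat_lit 4320086298)], (nat_lit 1271251), (nat_lit 1271251), (nat_lit 1271251), (nat_lit 1271251), (nat_lit 0), (nat_lit 780000), [(nat_lit 1695001), (nat_lit 1271251), (nat_lit 1271251)], [(nat_lit 29), (nat_lit 66), (nat_lit 401), (nat_lit 175), (nat_lit 8)]⟩⟩))))))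
noncomputable def c13_50 : Tr Lf :=
 (.spl (nat_lit 0) (nat_lit 395) (.leaf ⟨(nat_lit 936), (nat_lit 0), (nat_lit 0), (nat_lit 64), (nat_lit 0), (nat_lit 3404), (nat_lit 714), (nat_lit 898), (nat_lit 0), (nat_lit 7875), (nat_lit 249150), [((nat_lit 395), [((nat_lit 29), (nat_lit 0), (nat_lit 835)), ((nat_lit 29), (nat_lit 1), (nat_lit 101))])], ⟨(nat_lit 4), false, false, false, (nat_lit 194), (nat_lit 1118), (nat_lit 1582), [(nat_lit 1367318), (nat_lit 1369899), (nat_lit 1437165), (nat_lit 1441054), (nat_lit 1531319), (nat_lit 1529375), (nat_lit 1601263), (nat_lit 1600626)]⟩, ⟨(nat_lit 5), false, true, true, (nat_lit 224), (nat_lit 1118), (nat_lit 1582), [(nat_lit 1476683), (nat_lit 1476248), (nat_lit 1523282), (nat_lit 1523718), (nat_lit 1599614), (nat_lit 1595784), (nat_lit 1646244), (nat_lit 1643285)]⟩, (nat_lit 5029381), (nat_lit 41087038), (nat_lit 11460777), (nat_lit 14452185), (nat_lit 0), (nat_lit 0), [], [⟨(nat_lit 1), (nat_lit 96), (nat_lit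 27), (nat_lit 100), (nat_lit 300296502)⟩], [], [],
 ⟨⟨[(nat_lit 40), (nat_lit 60), (nat_lit 80)], [(nat_lit 0), (nat_lit 2136), (nat_lit 3185)], [((nat_lit 0), (nat_lit 0), (nat_lit 0)), ((nat_lit 1000), (nat_lit 343), (nat_lit 808)), ((nat_lit 1000), (nat_lit 338), (nat_lit 820))], ((nat_lit 32), (nat_lit 100), (nat_lit 86))⟩, (nat_lit 0), (nat_lit 136), (nat_lit 136), (nat_lit 0), (nat_lit 221694), [(nat_lit 1561420801), (nat_lit 1237108859), (nat_lit 1469283600)], [(nat_lit 0), (nat_lit 0), (nat_lit 0)], [(nat_lit 23692093922), (nat_lit 24002386132), (nat_lit 25712878965), (nat_lit 25972058132), (nat_lit 26366361840), (nat_lit 26628997437), (nat_lit 27937072805), (nat_lit 28175036299)], (nat_lit 1271251), (nat_lit 1271251), (nat_lit 780000), (nat_lit 1762501), (nat_lit 1271251), (nat_lit 1271251), [(nat_lit 490000), (nat_lit 780000), (nat_lit 1100000)], [(nat_lit 2), (nat_lit 44), (nat_lit 272), (nat_lit 60), (nat_lit 11)]⟩,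
 ⟨⟨[(nat_lit 120), (nat_lit 160), (nat_lit 200)], [(nat_lit 0), (nat_lit 533), (nat_lit 3597)], [((nat_lit 0), (nat_lit 0), (nat_lit 0)), ((nat_lit 960), (nat_lit 1000), (nat_lit 200)), ((nat_lit 612), (nat_lit 1000), (nat_lit 732))], ((nat_lit 0), (nat_lit 0), (nat_lit 0))⟩, (nat_lit 127983), (nat_lit 875), (nat_lit 875), (nat_lit 0), (nat_lit 1072904), [(nat_lit 509952000), (nat_lit 759808000), (nat_lit 1049600000)], [], [(nat_lit 4049453078), (nat_lit 2889730902), (nat_lit 2487072175), (nat_lit 2419954672), (nat_lit 3036053475), (nat_lit 2715277321), (nat_lit 4027448020), (nat_lit 3024876352)], (nat_lit 1271251), (nat_lit 1271251), (nat_lit 780000), (nat_lit 1762501), (nat_lit 780000), (nat_lit 3072501), [(nat_lit 1695001), (nat_lit 1271251), (nat_lit 1271251)], [(nat_lit 29), (nat_lit 66), (nat_lit 456), (nat_lit 225), (nat_lit 10)]⟩,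
 ⟨⟨[(nat_lit 120), (nat_lit 160), (nat_lit 200)], [(nat_lit 0), (nat_lit 533), (nat_lit 3597)], [((nat_lit 0), (nat_lit 0), (nat_lit 0)), ((nat_lit 960), (nat_lit 1000), (nat_lit 200)), ((nat_lit 612), (nat_lit 1000), (nat_lit 732))], ((nat_lit 0), (nat_lit 0), (nat_lit 0))⟩, (nat_lit 34066), (nat_lit 300), (nat_lit 877), (nat_lit 4635323), (nat_lit 1172257), [(nat_lit 509952000), (nat_lit 759808000), (nat_lit 1049600000)], [], [(nat_lit 3183982187), (nat_lit 3092577665), (nat_lit 3079529471), (nat_lit 3013282315), (nat_lit 3418683463), (nat_lit 2910467688), (nat_lit 2956527785), (nat_lit 2886710891)], (nat_lit 1271251), (nat_lit 1271251), (nat_lit 1271251), (nat_lit 1271251), (nat_lit 780000), (nat_lit 3072501), [(nat_lit 1695001), (nat_lit 1271251), (nat_lit 1271251)], [(nat_lit 29), (nat_lit 66), (nat_lit 483), (nat_lit 250), (nat_lit 10)]⟩⟩) (.trZ (nat_lit 0) (nat_lit 1) (nat_lit 3) (nat_lit 100) (nat_lit 22) (nat_lit 95) (nat_lit 130) (.trX (nat_lit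 4) (nat_lit 0) (nat_lit 2) (nat_lit 22) (nat_lit 95) (nat_lit 100) (nat_lit 270) (.leaf ⟨(nat_lit 940), (nat_lit 0), (nat_lit 0), (nat_lit 60), (nat_lit 0), (nat_lit 3367), (nat_lit 719), (nat_lit 825), (nat_lit 0), (nat_lit 3486), (nat_lit 235000), [((nat_lit 400), [((nat_lit 29), (nat_lit 0), (nat_lit 940))])], ⟨(nat_lit 4), false, false, false, (nat_lit 197), (nat_lit 0), (nat_lit 1119), [(nat_lit 1382114), (nat_lit 1386338), (nat_lit 1451972), (nat_lit 1459942), (nat_lit 1529372), (nat_lit 1524996), (nat_lit 1600626), (nat_lit 1599998)]⟩, ⟨(nat_lit 5), false, true, true, (nat_lit 218), (nat_lit 0), (nat_lit 1119), [(nat_lit 1476247), (nat_lit 1474998), (nat_lit 1523285), (nat_lit 1524534), (nat_lit 1569216), (nat_lit 1562495), (nat_lit 1616720), (nat_lit 1612497)]⟩, (nat_lit 5011692), (nat_lit 41353385), (nat_lit 11778298), (nat_lit 13868317), (nat_lit 0), (nat_lit 0), [], [⟨(nat_lit 1), (nat_lit 99), (nat_lit 16), (nat_lit 100), (nat_lit 495938784)⟩],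 [], [],
 ⟨⟨[(nat_lit 40), (nat_lit 60), (nat_lit 80)], [(nat_lit 0), (nat_lit 2600), (nat_lit 3731)], [((nat_lit 0), (nat_lit 0), (nat_lit 0)), ((nat_lit 1000), (nat_lit 245), (nat_lit 872)), ((nat_lit 1000), (nat_lit 240), (nat_lit 884))], ((nat_lit 24), (nat_lit 100), (nat_lit 89))⟩, (nat_lit 123098), (nat_lit 140), (nat_lit 140), (nat_lit 0), (nat_lit 251036), [(nat_lit 1577288001), (nat_lit 1343540524), (nat_lit 1575096000)], [(nat_lit 0), (nat_lit 0), (nat_lit 0)], [(nat_lit 23816917268), (nat_lit 24121747475), (nat_lit 25715931360), (nat_lit 26000046353), (nat_lit 25772596726), (nat_lit 26124474882), (nat_lit 27487805558), (nat_lit 27739383645)], (nat_lit 1271251), (nat_lit 1271251), (nat_lit 857188), (nat_lit 1768126), (nat_lit 1271251), (nat_lit 1271251), [(nat_lit 490000), (nat_lit 780000), (nat_lit 1100000)], [(nat_lit 2), (nat_lit 44), (nat_lit 272), (nat_lit 60), (nat_lit 11)]⟩,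
 ⟨⟨[(nat_lit 120), (nat_lit 160), (nat_lit 200)], [(nat_lit 0), (nat_lit 533), (nat_lit 3597)], [((nat_lit 0), (nat_lit 0), (nat_lit 0)), ((nat_lit 960), (nat_lit 1000), (nat_lit 200)), ((nat_lit 612), (nat_lit 1000), (nat_lit 732))], ((nat_lit 0), (nat_lit 0), (nat_lit 0))⟩, (nat_lit 151266), (nat_lit 948), (nat_lit 948), (nat_lit 0), (nat_lit 1267302), [(nat_lit 478080000), (nat_lit 712320000), (nat_lit 984000000)], [], [(nat_lit 3757242697), (nat_lit 2593960598), (nat_lit 2071898181), (nat_lit 2009191898), (nat_lit 2972975264), (nat_lit 2416578108), (nat_lit 3907470666), (nat_lit 2897878188)], (nat_lit 1271251), (nat_lit 1271251), (nat_lit 857188), (nat_lit 1768126), (nat_lit 780000), (nat_lit 3072501), [(nat_lit 1695001), (nat_lit 1271251), (nat_lit 1271251)], [(nat_lit 29), (nat_lit 66), (nat_lit 456), (nat_lit 225), (nat_lit 10)]⟩,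
 ⟨⟨[(nat_lit 120), (nat_lit 160), (nat_lit 200)], [(nat_lit 0), (nat_lit 533), (nat_lit 3597)], [((nat_lit 0), (nat_lit 0), (nat_lit 0)), ((nat_lit 960), (nat_lit 1000), (nat_lit 200)), ((nat_lit 612), (nat_lit 1000), (nat_lit 732))], ((nat_lit 0), (nat_lit 0), (nat_lit 0))⟩, (nat_lit 140488), (nat_lit 300), (nat_lit 955), (nat_lit 3984000), (nat_lit 1364229), [(nat_lit 478080000), (nat_lit 712320000), (nat_lit 984000000)], [], [(nat_lit 2806561583), (nat_lit 2723339348), (nat_lit 2745916256), (nat_lit 2689652049), (nat_lit 3183212648), (nat_lit 2607979365), (nat_lit 2588158034), (nat_lit 2495987590)], (nat_lit 1271251), (nat_lit 1271251), (nat_lit 1271251), (nat_lit 1271251), (nat_lit 780000), (nat_lit 3072501), [(nat_lit 1695001), (nat_lit 1271251), (nat_lit 1271251)], [(nat_lit 29), (nat_lit 66), (nat_lit 456), (nat_lit 225), (nat_lit 9)]⟩⟩))))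
noncomputable def c13_51 : Tr Lf :=
 (.ord (.trZ (nat_lit 0) (nat_lit 1) (nat_lit 3) (nat_lit 100) (nat_lit 44) (nat_lit 94) (nat_lit 130) (.spl (nat_lit 5) (nat_lit 120) (.spl (nat_lit 0) (nat_lit 390) (.spl (nat_lit 6) (nat_lit 80) (.spl (nat_lit 0) (nat_lit 385) (.spl (nat_lit 6) (nat_lit 72) (.leaf ⟨(nat_lit 703), (nat_lit 0), (nat_lit 0), (nat_lit 297), (nat_lit 0), (nat_lit 3779), (nat_lit 2503), (nat_lit 2789), (nat_lit 0), (nat_lit 2234305899916), (nat_lit 251350), [((nat_lit 385), [((nat_lit 28), (nat_lit 0), (nat_lit 199)), ((nat_lit 28), (nat_lit 1), (nat_lit 504))])], ⟨(nat_lit 5), false, false, false, (nat_lit 205), (nat_lit 1936), (nat_lit 2237), [(nat_lit 1422960), (nat_lit 1425168), (nat_lit 1445726), (nat_lit 1448170), (nat_lit 1579788), (nat_lit 1578898), (nat_lit 1602562), (nat_lit 1601908)]⟩, ⟨(nat_lit 5), false, true, true, (nat_lit 250), (nat_lit 1936), (nat_lit 2237), [(nat_lit 1522765), (nat_lit 1523002), (nat_lit 1545531),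 (nat_lit 1546004), (nat_lit 1708073), (nat_lit 1704649), (nat_lit 1730848), (nat_lit 1727660)]⟩, (nat_lit 5247323), (nat_lit 38473398), (nat_lit 12001884), (nat_lit 16524718), (nat_lit 0), (nat_lit 0), [⟨(nat_lit 0), (nat_lit 100), (nat_lit 41), (nat_lit 97), (nat_lit 295418648)⟩], [], [⟨(nat_lit 0), (nat_lit 100), (nat_lit 100), (nat_lit 20), (nat_lit 331752567)⟩], [],
 ⟨⟨[(nat_lit 40), (nat_lit 60), (nat_lit 80)], [(nat_lit 0), (nat_lit 1539), (nat_lit 2453)], [((nat_lit 0), (nat_lit 0), (nat_lit 0)), ((nat_lit 1000), (nat_lit 478), (nat_lit 704)), ((nat_lit 1000), (nat_lit 474), (nat_lit 714))], ((nat_lit 45), (nat_lit 100), (nat_lit 79))⟩, (nat_lit 484), (nat_lit 125), (nat_lit 125), (nat_lit 0), (nat_lit 172491), [(nat_lit 1548263630), (nat_lit 1397597508), (nat_lit 1765830000)], [(nat_lit 0), (nat_lit 0), (nat_lit 0)], [(nat_lit 22773524086), (nat_lit 23096847726), (nat_lit 24834175786), (nat_lit 25191689009), (nat_lit 27962264569), (nat_lit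 28283649539), (nat_lit 29263390401), (nat_lit 29534626614)], (nat_lit 1271251), (nat_lit 1271251), (nat_lit 857188), (nat_lit 1768126), (nat_lit 1271251), (nat_lit 1271251), [(nat_lit 490000), (nat_lit 780000), (nat_lit 1100000)], [(nat_lit 2), (nat_lit 44), (nat_lit 272), (nat_lit 60), (nat_lit 11)]⟩,
 ⟨⟨[(nat_lit 100), (nat_lit 140), (nat_lit 180)], [(nat_lit 0), (nat_lit 508), (nat_lit 2854)], [((nat_lit 0), (nat_lit 0), (nat_lit 0)), ((nat_lit 1000), (nat_lit 1000), (nat_lit 198)), ((nat_lit 777), (nat_lit 1000), (nat_lit 712))], ((nat_lit 100), (nat_lit 72), (nat_lit 77))⟩, (nat_lit 600672), (nat_lit 556), (nat_lit 556), (nat_lit 0), (nat_lit 373269), [(nat_lit 1856250000), (nat_lit 2923074000), (nat_lit 4175226000)], [], [(nat_lit 11512019678), (nat_lit 11624965606), (nat_lit 11667163466), (nat_lit 11737197504), (nat_lit 9968204846), (nat_lit 10032113250), (nat_lit 10014476270), (nat_lit 10004101162)], (nat_lit 1271251), (nat_lit 1271251), (nat_lit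 857188), (nat_lit 1768126), (nat_lit 0), (nat_lit 780000), [(nat_lit 1412501), (nat_lit 1271251), (nat_lit 1271251)], [(nat_lit 24), (nat_lit 63), (nat_lit 373), (nat_lit 150), (nat_lit 9)]⟩,
 ⟨⟨[(nat_lit 100), (nat_lit 140), (nat_lit 180)], [(nat_lit 0), (nat_lit 508), (nat_lit 2854)], [((nat_lit 0), (nat_lit 0), (nat_lit 0)), ((nat_lit 1000), (nat_lit 1000), (nat_lit 198)), ((nat_lit 777), (nat_lit 1000), (nat_lit 712))], ((nat_lit 100), (nat_lit 72), (nat_lit 77))⟩, (nat_lit 638433), (nat_lit 300), (nat_lit 483), (nat_lit 18562501), (nat_lit 373269), [(nat_lit 1856250000), (nat_lit 2923074000), (nat_lit 4175226000)], [], [(nat_lit 14514908787), (nat_lit 14489824289), (nat_lit 15052211756), (nat_lit 15012293014), (nat_lit 12528521017), (nat_lit 12499962218), (nat_lit 12811398128), (nat_lit 12772254117)], (nat_lit 1271251), (nat_lit 1271251), (nat_lit 1271251), (nat_lit 1271251), (nat_lit 0), (nat_lit 780000), [(nat_lit 1412501), (nat_lit 1271251),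 (nat_lit 1271251)], [(nat_lit 24), (nat_lit 63), (nat_lit 401), (nat_lit 175), (nat_lit 9)]⟩⟩) (.dle (nat_lit 0))) (.trZ (nat_lit 0) (nat_lit 1) (nat_lit 3) (nat_lit 100) (nat_lit 38) (nat_lit 96) (nat_lit 140) (.trX (nat_lit 4) (nat_lit 0) (nat_lit 2) (nat_lit 39) (nat_lit 85) (nat_lit 100) (nat_lit 320) (.leaf ⟨(nat_lit 801), (nat_lit 0), (nat_lit 0), (nat_lit 199), (nat_lit 0), (nat_lit 3611), (nat_lit 2191), (nat_lit 2299), (nat_lit 0), (nat_lit 1261788014996), (nat_lit 200250), [((nat_lit 390), [((nat_lit 28), (nat_lit 0), (nat_lit 801))])], ⟨(nat_lit 5), false, false, false, (nat_lit 208), (nat_lit 1581), (nat_lit 1937), [(nat_lit 1439120), (nat_lit 1441305), (nat_lit 1462116), (nat_lit 1464605), (nat_lit 1578898), (nat_lit 1577949), (nat_lit 1601908), (nat_lit 1601263)]⟩, ⟨(nat_lit 5), false, true, true, (nat_lit 247), (nat_lit 1581), (nat_lit 1937), [(nat_lit 1522995), (nat_lit 1523300), (nat_lit 1545992), (nat_lit 1546601), (nat_lit 1690677),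 (nat_lit 1687221), (nat_lit 1713688), (nat_lit 1710536)]⟩, (nat_lit 5252195), (nat_lit 38521160), (nat_lit 12301618), (nat_lit 16177222), (nat_lit 0), (nat_lit 0), [⟨(nat_lit 0), (nat_lit 99), (nat_lit 31), (nat_lit 100), (nat_lit 217912859)⟩], [], [⟨(nat_lit 0), (nat_lit 100), (nat_lit 100), (nat_lit 20), (nat_lit 221278875)⟩], [],
 ⟨⟨[(nat_lit 40), (nat_lit 60), (nat_lit 80)], [(nat_lit 0), (nat_lit 1803), (nat_lit 2780)], [((nat_lit 0), (nat_lit 0), (nat_lit 0)), ((nat_lit 1000), (nat_lit 417), (nat_lit 754)), ((nat_lit 1000), (nat_lit 413), (nat_lit 764))], ((nat_lit 39), (nat_lit 100), (nat_lit 83))⟩, (nat_lit 0), (nat_lit 128), (nat_lit 128), (nat_lit 0), (nat_lit 201419), [(nat_lit 1609925204), (nat_lit 1494130910), (nat_lit 2035408400)], [(nat_lit 0), (nat_lit 0), (nat_lit 0)], [(nat_lit 23860907624), (nat_lit 24164208611), (nat_lit 25736519886), (nat_lit 26002453282), (nat_lit 27575225496), (nat_lit 27825730246), (nat_lit 28896878977), (nat_lit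 29169516610)], (nat_lit 1271251), (nat_lit 1271251), (nat_lit 936250), (nat_lit 1773751), (nat_lit 1271251), (nat_lit 1271251), [(nat_lit 490000), (nat_lit 780000), (nat_lit 1100000)], [(nat_lit 2), (nat_lit 44), (nat_lit 272), (nat_lit 60), (nat_lit 11)]⟩,
 ⟨⟨[(nat_lit 100), (nat_lit 140), (nat_lit 180)], [(nat_lit 0), (nat_lit 508), (nat_lit 2854)], [((nat_lit 0), (nat_lit 0), (nat_lit 0)), ((nat_lit 1000), (nat_lit 1000), (nat_lit 198)), ((nat_lit 777), (nat_lit 1000), (nat_lit 712))], ((nat_lit 100), (nat_lit 68), (nat_lit 80))⟩, (nat_lit 468478), (nat_lit 584), (nat_lit 584), (nat_lit 0), (nat_lit 459293), [(nat_lit 1243750000), (nat_lit 1958558000), (nat_lit 2797542000)], [], [(nat_lit 7515861475), (nat_lit 7461259214), (nat_lit 7282758764), (nat_lit 7317023860), (nat_lit 5937428057), (nat_lit 5939050301), (nat_lit 6554118482), (nat_lit 5734130888)], (nat_lit 1271251), (nat_lit 1271251), (nat_lit 936250), (nat_lit 1773751), (nat_lit 0), (nat_lit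 780000), [(nat_lit 1412501), (nat_lit 1271251), (nat_lit 1271251)], [(nat_lit 24), (nat_lit 63), (nat_lit 373), (nat_lit 150), (nat_lit 9)]⟩,
 ⟨⟨[(nat_lit 100), (nat_lit 140), (nat_lit 180)], [(nat_lit 0), (nat_lit 508), (nat_lit 2854)], [((nat_lit 0), (nat_lit 0), (nat_lit 0)), ((nat_lit 1000), (nat_lit 1000), (nat_lit 198)), ((nat_lit 777), (nat_lit 1000), (nat_lit 712))], ((nat_lit 100), (nat_lit 68), (nat_lit 80))⟩, (nat_lit 427772), (nat_lit 300), (nat_lit 561), (nat_lit 12437500), (nat_lit 459293), [(nat_lit 1243750000), (nat_lit 1958558000), (nat_lit 2797542000)], [], [(nat_lit 9948990414), (nat_lit 9878922172), (nat_lit 9844722195), (nat_lit 9798567844), (nat_lit 8194898314), (nat_lit 8125305499), (nat_lit 8064792434), (nat_lit 7973201120)], (nat_lit 1271251), (nat_lit 1271251), (nat_lit 1271251), (nat_lit 1271251), (nat_lit 0), (nat_lit 780000), [(nat_lit 1412501), (nat_lit 1271251), (nat_lit 1271251)], [(nat_lit 24), (nat_lit 63), (nat_lit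 401), (nat_lit 175), (nat_lit 9)]⟩⟩)))) (.dle (nat_lit 0))) (.trZ (nat_lit 0) (nat_lit 1) (nat_lit 3) (nat_lit 100) (nat_lit 31) (nat_lit 98) (nat_lit 150) (.trX (nat_lit 4) (nat_lit 0) (nat_lit 2) (nat_lit 32) (nat_lit 89) (nat_lit 100) (nat_lit 300) (.leaf ⟨(nat_lit 819), (nat_lit 8), (nat_lit 0), (nat_lit 173), (nat_lit 0), (nat_lit 3746), (nat_lit 1941), (nat_lit 2047), (nat_lit 0), (nat_lit 2451534508917), (nat_lit 204750), [((nat_lit 400), [((nat_lit 29), (nat_lit 0), (nat_lit 819))])], ⟨(nat_lit 5), false, false, false, (nat_lit 211), (nat_lit 0), (nat_lit 1582), [(nat_lit 1452725), (nat_lit 1460204), (nat_lit 1475382), (nat_lit 1484547), (nat_lit 1577949), (nat_lit 1574999), (nat_lit 1601257), (nat_lit 1599992)]⟩, ⟨(nat_lit 5), false, true, true, (nat_lit 240), (nat_lit 0), (nat_lit 1582), [(nat_lit 1522658), (nat_lit 1524343), (nat_lit 1545316), (nat_lit 1548686), (nat_lit 1659900), (nat_lit 1649996), (nat_lit 1683216), (nat_lit 1674997)]⟩,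 (nat_lit 5239703), (nat_lit 38794358), (nat_lit 12646414), (nat_lit 15559228), (nat_lit 5), (nat_lit 0), [⟨(nat_lit 0), (nat_lit 99), (nat_lit 22), (nat_lit 100), (nat_lit 371091442)⟩], [⟨(nat_lit 1), (nat_lit 94), (nat_lit 22), (nat_lit 100), (nat_lit 1467227)⟩], [], [⟨(nat_lit 0), (nat_lit 97), (nat_lit 100), (nat_lit 23), (nat_lit 172564671)⟩],
 ⟨⟨[(nat_lit 40), (nat_lit 60), (nat_lit 80)], [(nat_lit 0), (nat_lit 2136), (nat_lit 3185)], [((nat_lit 0), (nat_lit 0), (nat_lit 0)), ((nat_lit 1000), (nat_lit 343), (nat_lit 808)), ((nat_lit 1000), (nat_lit 338), (nat_lit 820))], ((nat_lit 32), (nat_lit 100), (nat_lit 86))⟩, (nat_lit 0), (nat_lit 140), (nat_lit 140), (nat_lit 0), (nat_lit 256831), [(nat_lit 1605698802), (nat_lit 1490014005), (nat_lit 1975799600)], [(nat_lit 0), (nat_lit 0), (nat_lit 0)], [(nat_lit 23934892248), (nat_lit 24559993760), (nat_lit 25690766054), (nat_lit 26231978372), (nat_lit 27138874969), (nat_lit 27812743549), (nat_lit 28585907200),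 (nat_lit 29166848038)], (nat_lit 1271251), (nat_lit 1271251), (nat_lit 1017188), (nat_lit 1779376), (nat_lit 1271251), (nat_lit 1271251), [(nat_lit 490000), (nat_lit 780000), (nat_lit 1100000)], [(nat_lit 2), (nat_lit 44), (nat_lit 272), (nat_lit 60), (nat_lit 10)]⟩,
 ⟨⟨[(nat_lit 100), (nat_lit 140), (nat_lit 180)], [(nat_lit 0), (nat_lit 508), (nat_lit 2854)], [((nat_lit 0), (nat_lit 0), (nat_lit 0)), ((nat_lit 1000), (nat_lit 1000), (nat_lit 198)), ((nat_lit 777), (nat_lit 1000), (nat_lit 712))], ((nat_lit 100), (nat_lit 64), (nat_lit 83))⟩, (nat_lit 615660), (nat_lit 649), (nat_lit 649), (nat_lit 0), (nat_lit 637229), [(nat_lit 1131250000), (nat_lit 1781402000), (nat_lit 2544498000)], [], [(nat_lit 6297981930), (nat_lit 6078604879), (nat_lit 6018939582), (nat_lit 6050701176), (nat_lit 4739573735), (nat_lit 4759890774), (nat_lit 6029006849), (nat_lit 5082015270)], (nat_lit 1271251), (nat_lit 1271251), (nat_lit 1017188), (nat_lit 1779376), (nat_lit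 0), (nat_lit 780000), [(nat_lit 1412501), (nat_lit 1271251), (nat_lit 1271251)], [(nat_lit 24), (nat_lit 63), (nat_lit 373), (nat_lit 150), (nat_lit 9)]⟩,
 ⟨⟨[(nat_lit 100), (nat_lit 140), (nat_lit 180)], [(nat_lit 0), (nat_lit 508), (nat_lit 2854)], [((nat_lit 0), (nat_lit 0), (nat_lit 0)), ((nat_lit 1000), (nat_lit 1000), (nat_lit 198)), ((nat_lit 777), (nat_lit 1000), (nat_lit 712))], ((nat_lit 100), (nat_lit 64), (nat_lit 83))⟩, (nat_lit 371882), (nat_lit 300), (nat_lit 631), (nat_lit 10812500), (nat_lit 637229), [(nat_lit 1081250000), (nat_lit 1702666000), (nat_lit 2432034000)], [], [(nat_lit 8570512921), (nat_lit 8506651736), (nat_lit 8460509561), (nat_lit 8416106519), (nat_lit 7002322098), (nat_lit 6938937325), (nat_lit 6875829969), (nat_lit 6796516568)], (nat_lit 1271251), (nat_lit 1271251), (nat_lit 1271251), (nat_lit 1271251), (nat_lit 0), (nat_lit 780000), [(nat_lit 1412501), (nat_lit 1271251), (nat_lit 1271251)], [(nat_lit 24), (nat_lit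 63), (nat_lit 401), (nat_lit 175), (nat_lit 9)]⟩⟩)))) (.leaf ⟨(nat_lit 22), (nat_lit 0), (nat_lit 0), (nat_lit 978), (nat_lit 0), (nat_lit 4056), (nat_lit 9543), (nat_lit 9543), (nat_lit 0), (nat_lit 6582338455872), (nat_lit 88000), [((nat_lit 400), [((nat_lit 43), (nat_lit 5), (nat_lit 22))])], ⟨(nat_lit 5), false, false, false, (nat_lit 205), (nat_lit 0), (nat_lit 2237), [(nat_lit 1418846), (nat_lit 1433349), (nat_lit 1440694), (nat_lit 1457423), (nat_lit 1579788), (nat_lit 1574999), (nat_lit 1602531), (nat_lit 1599967)]⟩, ⟨(nat_lit 5), false, true, true, (nat_lit 249), (nat_lit 0), (nat_lit 2237), [(nat_lit 1521847), (nat_lit 1524073), (nat_lit 1543695), (nat_lit 1548146), (nat_lit 1708068), (nat_lit 1687494), (nat_lit 1730844), (nat_lit 1712494)]⟩, (nat_lit 5240928), (nat_lit 38578439), (nat_lit 12036048), (nat_lit 16385513), (nat_lit 0), (nat_lit 0), [⟨(nat_lit 0), (nat_lit 100), (nat_lit 32), (nat_lit 100), (nat_lit 693521876)⟩], [], [], [],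
 ⟨⟨[(nat_lit 40), (nat_lit 80), (nat_lit 100)], [(nat_lit 0), (nat_lit 2514), (nat_lit 3562)], [((nat_lit 0), (nat_lit 0), (nat_lit 0)), ((nat_lit 1000), (nat_lit 446), (nat_lit 804)), ((nat_lit 1000), (nat_lit 443), (nat_lit 819))], ((nat_lit 44), (nat_lit 100), (nat_lit 84))⟩, (nat_lit 1016297), (nat_lit 175), (nat_lit 175), (nat_lit 0), (nat_lit 259594), [(nat_lit 1823484007), (nat_lit 4036044010), (nat_lit 5224571200)], [(nat_lit 0), (nat_lit 0), (nat_lit 0)], [(nat_lit 23512739579), (nat_lit 24715915590), (nat_lit 25251983344), (nat_lit 26534935792), (nat_lit 28331884635), (nat_lit 29662188366), (nat_lit 29548822731), (nat_lit 30668075660)], (nat_lit 1271251), (nat_lit 1271251), (nat_lit 857188), (nat_lit 1768126), (nat_lit 1271251), (nat_lit 1271251), [(nat_lit 490000), (nat_lit 1100000), (nat_lit 1442501)], [(nat_lit 3), (nat_lit 50), (nat_lit 272), (nat_lit 60), (nat_lit 9)]⟩,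
 ⟨⟨[(nat_lit 100), (nat_lit 140), (nat_lit 180)], [(nat_lit 0), (nat_lit 508), (nat_lit 2854)], [((nat_lit 0), (nat_lit 0), (nat_lit 0)), ((nat_lit 1000), (nat_lit 1000), (nat_lit 198)), ((nat_lit 777), (nat_lit 1000), (nat_lit 712))], ((nat_lit 100), (nat_lit 64), (nat_lit 83))⟩, (nat_lit 2691227), (nat_lit 670), (nat_lit 670), (nat_lit 0), (nat_lit 875289), [(nat_lit 6112500000), (nat_lit 9625476000), (nat_lit 13748724000)], [], [(nat_lit 32456841650), (nat_lit 32456501855), (nat_lit 32446187906), (nat_lit 31372343728), (nat_lit 52404085278), (nat_lit 48010593051), (nat_lit 67105873071), (nat_lit 62867130132)], (nat_lit 1271251), (nat_lit 1271251), (nat_lit 857188), (nat_lit 1768126), (nat_lit 780000), (nat_lit 3072501), [(nat_lit 1412501), (nat_lit 1271251), (nat_lit 1271251)], [(nat_lit 24), (nat_lit 63), (nat_lit 456), (nat_lit 225), (nat_lit 10)]⟩,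
 ⟨⟨[(nat_lit 100), (nat_lit 140), (nat_lit 180)], [(nat_lit 0), (nat_lit 508), (nat_lit 2854)], [((nat_lit 0), (nat_lit 0), (nat_lit 0)), ((nat_lit 1000), (nat_lit 1000), (nat_lit 198)), ((nat_lit 777), (nat_lit 1000), (nat_lit 712))], ((nat_lit 100), (nat_lit 64), (nat_lit 83))⟩, (nat_lit 2102315), (nat_lit 300), (nat_lit 641), (nat_lit 61125000), (nat_lit 875289), [(nat_lit 6112500000), (nat_lit 9625476000), (nat_lit 13748724000)], [], [(nat_lit 44698141565), (nat_lit 44460811848), (nat_lit 44639322753), (nat_lit 44297288884), (nat_lit 43303939848), (nat_lit 42872638332), (nat_lit 41809027263), (nat_lit 41409135333)], (nat_lit 1271251), (nat_lit 1271251), (nat_lit 1271251), (nat_lit 1271251), (nat_lit 780000), (nat_lit 3072501), [(nat_lit 1412501), (nat_lit 1271251), (nat_lit 1271251)], [(nat_lit 24), (nat_lit 63), (nat_lit 483), (nat_lit 250), (nat_lit 11)]⟩⟩))))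
noncomputable def c13_52 : Tr Lf :=
 (.ord (.trX (nat_lit 3) (nat_lit 0) (nat_lit 1) (nat_lit 44) (nat_lit 86) (nat_lit 100) (nat_lit 310) (.trX (nat_lit 4) (nat_lit 0) (nat_lit 2) (nat_lit 44) (nat_lit 86) (nat_lit 100) (nat_lit 310) (.spl (nat_lit 0) (nat_lit 390) (.spl (nat_lit 6) (nat_lit 76) (.leaf ⟨(nat_lit 909), (nat_lit 6), (nat_lit 0), (nat_lit 85), (nat_lit 0), (nat_lit 3430), (nat_lit 1224), (nat_lit 1191), (nat_lit 0), (nat_lit 26925057369), (nat_lit 227250), [((nat_lit 390), [((nat_lit 28), (nat_lit 0), (nat_lit 909))])], ⟨(nat_lit 6), false, true, true, (nat_lit 242), (nat_lit 1581), (nat_lit 2237), [(nat_lit 1534240), (nat_lit 1531319), (nat_lit 1579788), (nat_lit 1577949), (nat_lit 1634017), (nat_lit 1626932), (nat_lit 1679566), (nat_lit 1673562)]⟩, ⟨(nat_lit 5), false, true, true, (nat_lit 231), (nat_lit 1581), (nat_lit 2237), [(nat_lit 1477224), (nat_lit 1476683), (nat_lit 1522729), (nat_lit 1523269), (nat_lit 1634017), (nat_lit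 1626932), (nat_lit 1679566), (nat_lit 1673562)]⟩, (nat_lit 5358996), (nat_lit 37482642), (nat_lit 15321507), (nat_lit 14195851), (nat_lit 5), (nat_lit 0), [⟨(nat_lit 1), (nat_lit 93), (nat_lit 38), (nat_lit 100), (nat_lit 132277486)⟩], [], [], [⟨(nat_lit 0), (nat_lit 100), (nat_lit 96), (nat_lit 64), (nat_lit 139089857)⟩],
 ⟨⟨[(nat_lit 40), (nat_lit 60), (nat_lit 80)], [(nat_lit 0), (nat_lit 1539), (nat_lit 2453)], [((nat_lit 0), (nat_lit 0), (nat_lit 0)), ((nat_lit 1000), (nat_lit 478), (nat_lit 704)), ((nat_lit 1000), (nat_lit 474), (nat_lit 714))], ((nat_lit 45), (nat_lit 100), (nat_lit 80))⟩, (nat_lit 0), (nat_lit 110), (nat_lit 110), (nat_lit 0), (nat_lit 169354), [(nat_lit 1584566807), (nat_lit 1415870226), (nat_lit 1677755600)], [(nat_lit 0), (nat_lit 0), (nat_lit 0)], [(nat_lit 25004907542), (nat_lit 25557011355), (nat_lit 27335432291), (nat_lit 27904413527), (nat_lit 28079037988), (nat_lit 28625255037), (nat_lit 30265334699), (nat_lit 30738278789)],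 (nat_lit 1271251), (nat_lit 1271251), (nat_lit 1271251), (nat_lit 1271251), (nat_lit 1271251), (nat_lit 1271251), [(nat_lit 490000), (nat_lit 780000), (nat_lit 1100000)], [(nat_lit 2), (nat_lit 44), (nat_lit 203), (nat_lit 0), (nat_lit 7)]⟩,
 ⟨⟨[(nat_lit 120), (nat_lit 160), (nat_lit 200)], [(nat_lit 0), (nat_lit 533), (nat_lit 3597)], [((nat_lit 0), (nat_lit 0), (nat_lit 0)), ((nat_lit 960), (nat_lit 1000), (nat_lit 200)), ((nat_lit 612), (nat_lit 1000), (nat_lit 732))], ((nat_lit 0), (nat_lit 0), (nat_lit 0))⟩, (nat_lit 415688), (nat_lit 702), (nat_lit 702), (nat_lit 0), (nat_lit 634835), [(nat_lit 725088000), (nat_lit 1080352000), (nat_lit 1492400000)], [], [(nat_lit 3348814714), (nat_lit 3369971472), (nat_lit 3657495034), (nat_lit 3646370394), (nat_lit 2452731312), (nat_lit 2423528473), (nat_lit 2677207589), (nat_lit 2661756137)], (nat_lit 1271251), (nat_lit 1271251), (nat_lit 1271251), (nat_lit 1271251), (nat_lit 0), (nat_lit 780000), [(nat_lit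 1695001), (nat_lit 1271251), (nat_lit 1271251)], [(nat_lit 29), (nat_lit 66), (nat_lit 401), (nat_lit 175), (nat_lit 8)]⟩,
 ⟨⟨[(nat_lit 120), (nat_lit 160), (nat_lit 200)], [(nat_lit 0), (nat_lit 533), (nat_lit 3597)], [((nat_lit 0), (nat_lit 0), (nat_lit 0)), ((nat_lit 960), (nat_lit 1000), (nat_lit 200)), ((nat_lit 612), (nat_lit 1000), (nat_lit 732))], ((nat_lit 0), (nat_lit 0), (nat_lit 0))⟩, (nat_lit 45244), (nat_lit 300), (nat_lit 717), (nat_lit 6156287), (nat_lit 634835), [(nat_lit 677280000), (nat_lit 1009120000), (nat_lit 1394000000)], [], [(nat_lit 5223296802), (nat_lit 5097383926), (nat_lit 5180861453), (nat_lit 5082576844), (nat_lit 4232508890), (nat_lit 4111354636), (nat_lit 4110582238), (nat_lit 4017428815)], (nat_lit 1271251), (nat_lit 1271251), (nat_lit 1271251), (nat_lit 1271251), (nat_lit 0), (nat_lit 780000), [(nat_lit 1695001), (nat_lit 1271251), (nat_lit 1271251)], [(nat_lit 29), (nat_lit 66), (nat_lit 401), (nat_lit 175), (nat_lit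 9)]⟩⟩) (.dle (nat_lit 0))) (.trX (nat_lit 3) (nat_lit 0) (nat_lit 1) (nat_lit 31) (nat_lit 92) (nat_lit 100) (nat_lit 290) (.trX (nat_lit 4) (nat_lit 0) (nat_lit 2) (nat_lit 31) (nat_lit 92) (nat_lit 100) (nat_lit 290) (.stt (nat_lit 1) (.spl (nat_lit 0) (nat_lit 395) (.leaf ⟨(nat_lit 908), (nat_lit 6), (nat_lit 0), (nat_lit 86), (nat_lit 0), (nat_lit 3211), (nat_lit 1229), (nat_lit 1158), (nat_lit 0), (nat_lit 59387), (nat_lit 227000), [((nat_lit 395), [((nat_lit 29), (nat_lit 0), (nat_lit 908))])], ⟨(nat_lit 6), false, true, true, (nat_lit 235), (nat_lit 1118), (nat_lit 1582), [(nat_lit 1531319), (nat_lit 1529375), (nat_lit 1577949), (nat_lit 1576877), (nat_lit 1599614), (nat_lit 1595784), (nat_lit 1646244), (nat_lit 1643285)]⟩, ⟨(nat_lit 5), false, true, true, (nat_lit 224), (nat_lit 1118), (nat_lit 1582), [(nat_lit 1476683), (nat_lit 1476248), (nat_lit 1523282), (nat_lit 1523718), (nat_lit 1599614), (nat_lit 1595784), (nat_lit 1646244), (nat_lit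 1643285)]⟩, (nat_lit 5289665), (nat_lit 38343201), (nat_lit 14869489), (nat_lit 13787310), (nat_lit 5), (nat_lit 0), [⟨(nat_lit 1), (nat_lit 96), (nat_lit 27), (nat_lit 100), (nat_lit 265221202)⟩], [], [], [⟨(nat_lit 0), (nat_lit 100), (nat_lit 97), (nat_lit 54), (nat_lit 137226046)⟩],
 ⟨⟨[(nat_lit 40), (nat_lit 60), (nat_lit 80)], [(nat_lit 0), (nat_lit 2136), (nat_lit 3185)], [((nat_lit 0), (nat_lit 0), (nat_lit 0)), ((nat_lit 1000), (nat_lit 343), (nat_lit 808)), ((nat_lit 1000), (nat_lit 338), (nat_lit 820))], ((nat_lit 32), (nat_lit 100), (nat_lit 86))⟩, (nat_lit 0), (nat_lit 58), (nat_lit 58), (nat_lit 0), (nat_lit 0), [(nat_lit 1584801602), (nat_lit 1295326393), (nat_lit 1681067200)], [(nat_lit 0), (nat_lit 0), (nat_lit 0)], [(nat_lit 25216500264), (nat_lit 25511894002), (nat_lit 26952650819), (nat_lit 27220133346), (nat_lit 27729140361), (nat_lit 27979986024), (nat_lit 29269125546), (nat_lit 29520470041)], (nat_lit 0), (nat_lit 0), (nat_lit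 0), (nat_lit 0), (nat_lit 0), (nat_lit 0), [], [(nat_lit 2), (nat_lit 44), (nat_lit 203), (nat_lit 0), (nat_lit 6)]⟩,
 ⟨⟨[(nat_lit 120), (nat_lit 160), (nat_lit 200)], [(nat_lit 0), (nat_lit 533), (nat_lit 3597)], [((nat_lit 0), (nat_lit 0), (nat_lit 0)), ((nat_lit 960), (nat_lit 1000), (nat_lit 200)), ((nat_lit 612), (nat_lit 1000), (nat_lit 732))], ((nat_lit 0), (nat_lit 0), (nat_lit 0))⟩, (nat_lit 401945), (nat_lit 765), (nat_lit 765), (nat_lit 0), (nat_lit 787589), [(nat_lit 733056000), (nat_lit 1092224000), (nat_lit 1508800000)], [], [(nat_lit 3429896704), (nat_lit 3432232116), (nat_lit 3631431885), (nat_lit 3634218585), (nat_lit 2531187636), (nat_lit 2483066979), (nat_lit 2660151756), (nat_lit 2654651459)], (nat_lit 1271251), (nat_lit 1271251), (nat_lit 1271251), (nat_lit 1271251), (nat_lit 0), (nat_lit 780000), [(nat_lit 1695001), (nat_lit 1271251), (nat_lit 1271251)], [(nat_lit 29), (nat_lit 66), (nat_lit 401), (nat_lit 175), (nat_lit 8)]⟩,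
 ⟨⟨[(nat_lit 120), (nat_lit 160), (nat_lit 200)], [(nat_lit 0), (nat_lit 533), (nat_lit 3597)], [((nat_lit 0), (nat_lit 0), (nat_lit 0)), ((nat_lit 960), (nat_lit 1000), (nat_lit 200)), ((nat_lit 612), (nat_lit 1000), (nat_lit 732))], ((nat_lit 0), (nat_lit 0), (nat_lit 0))⟩, (nat_lit 45777), (nat_lit 300), (nat_lit 808), (nat_lit 6228706), (nat_lit 787589), [(nat_lit 685248000), (nat_lit 1020992000), (nat_lit 1410400000)], [], [(nat_lit 5348230728), (nat_lit 5227973192), (nat_lit 5218729886), (nat_lit 5131279752), (nat_lit 4389687084), (nat_lit 4273987235), (nat_lit 4224990748), (nat_lit 4104407046)], (nat_lit 1271251), (nat_lit 1271251), (nat_lit 1271251), (nat_lit 1271251), (nat_lit 0), (nat_lit 780000), [(nat_lit 1695001), (nat_lit 1271251), (nat_lit 1271251)], [(nat_lit 29), (nat_lit 66), (nat_lit 401), (nat_lit 175), (nat_lit 9)]⟩⟩) (.trX (nat_lit 3) (nat_lit 0) (nat_lit 1) (nat_lit 22) (nat_lit 95) (nat_lit 100) (nat_lit 270) (.trX (nat_lit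 4) (nat_lit 0) (nat_lit 2) (nat_lit 22) (nat_lit 95) (nat_lit 100) (nat_lit 270) (.leaf ⟨(nat_lit 916), (nat_lit 9), (nat_lit 0), (nat_lit 75), (nat_lit 0), (nat_lit 3237), (nat_lit 1115), (nat_lit 1028), (nat_lit 0), (nat_lit 752722), (nat_lit 229000), [((nat_lit 400), [((nat_lit 29), (nat_lit 0), (nat_lit 916))])], ⟨(nat_lit 6), false, true, true, (nat_lit 228), (nat_lit 0), (nat_lit 1119), [(nat_lit 1529372), (nat_lit 1524996), (nat_lit 1576876), (nat_lit 1574998), (nat_lit 1569216), (nat_lit 1562495), (nat_lit 1616720), (nat_lit 1612497)]⟩, ⟨(nat_lit 5), false, true, true, (nat_lit 218), (nat_lit 0), (nat_lit 1119), [(nat_lit 1476247), (nat_lit 1474998), (nat_lit 1523285), (nat_lit 1524534), (nat_lit 1569216), (nat_lit 1562495), (nat_lit 1616720), (nat_lit 1612497)]⟩, (nat_lit 5217118), (nat_lit 39198624), (nat_lit 14418316), (nat_lit 13383060), (nat_lit 5), (nat_lit 0), [⟨(nat_lit 1), (nat_lit 99), (nat_lit 16), (nat_lit 100), (nat_lit 96713524)⟩,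 ⟨(nat_lit 1), (nat_lit 95), (nat_lit 22), (nat_lit 100), (nat_lit 393791942)⟩], [⟨(nat_lit 1), (nat_lit 99), (nat_lit 16), (nat_lit 100), (nat_lit 103309033)⟩], [], [⟨(nat_lit 0), (nat_lit 100), (nat_lit 98), (nat_lit 45), (nat_lit 120481168)⟩],
 ⟨⟨[(nat_lit 40), (nat_lit 60), (nat_lit 80)], [(nat_lit 0), (nat_lit 2600), (nat_lit 3731)], [((nat_lit 0), (nat_lit 0), (nat_lit 0)), ((nat_lit 1000), (nat_lit 245), (nat_lit 872)), ((nat_lit 1000), (nat_lit 240), (nat_lit 884))], ((nat_lit 24), (nat_lit 100), (nat_lit 89))⟩, (nat_lit 0), (nat_lit 57), (nat_lit 57), (nat_lit 0), (nat_lit 0), [(nat_lit 1582923222), (nat_lit 1264392723), (nat_lit 1654574400)], [(nat_lit 0), (nat_lit 0), (nat_lit 0)], [(nat_lit 25489063460), (nat_lit 25785527956), (nat_lit 26515932735), (nat_lit 26819090287), (nat_lit 27318161978), (nat_lit 27608852790), (nat_lit 28286243189), (nat_lit 28560258322)], (nat_lit 0), (nat_lit 0), (nat_lit 0), (nat_lit 0), (nat_lit 0), (nat_lit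 0), [], [(nat_lit 2), (nat_lit 44), (nat_lit 203), (nat_lit 0), (nat_lit 6)]⟩,
 ⟨⟨[(nat_lit 120), (nat_lit 160), (nat_lit 200)], [(nat_lit 0), (nat_lit 533), (nat_lit 3597)], [((nat_lit 0), (nat_lit 0), (nat_lit 0)), ((nat_lit 960), (nat_lit 1000), (nat_lit 200)), ((nat_lit 612), (nat_lit 1000), (nat_lit 732))], ((nat_lit 0), (nat_lit 0), (nat_lit 0))⟩, (nat_lit 352764), (nat_lit 854), (nat_lit 854), (nat_lit 0), (nat_lit 948038), [(nat_lit 669312000), (nat_lit 997248000), (nat_lit 1377600000)], [], [(nat_lit 3167056301), (nat_lit 3153762250), (nat_lit 3252722163), (nat_lit 3262899646), (nat_lit 2352589150), (nat_lit 2308949677), (nat_lit 2389870312), (nat_lit 2387383681)], (nat_lit 1271251), (nat_lit 1271251), (nat_lit 1271251), (nat_lit 1271251), (nat_lit 0), (nat_lit 780000), [(nat_lit 1695001), (nat_lit 1271251), (nat_lit 1271251)], [(nat_lit 29), (nat_lit 66), (nat_lit 401), (nat_lit 175), (nat_lit 8)]⟩,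
 ⟨⟨[(nat_lit 120), (nat_lit 160), (nat_lit 200)], [(nat_lit 0), (nat_lit 533), (nat_lit 3597)], [((nat_lit 0), (nat_lit 0), (nat_lit 0)), ((nat_lit 960), (nat_lit 1000), (nat_lit 200)), ((nat_lit 612), (nat_lit 1000), (nat_lit 732))], ((nat_lit 0), (nat_lit 0), (nat_lit 0))⟩, (nat_lit 39922), (nat_lit 300), (nat_lit 871), (nat_lit 5432010), (nat_lit 948038), [(nat_lit 597600000), (nat_lit 890400000), (nat_lit 1230000000)], [], [(nat_lit 4639688531), (nat_lit 4532062613), (nat_lit 4530638931), (nat_lit 4457006371), (nat_lit 3786831936), (nat_lit 3683279750), (nat_lit 3657127711), (nat_lit 3546761059)], (nat_lit 1271251), (nat_lit 1271251), (nat_lit 1271251), (nat_lit 1271251), (nat_lit 0), (nat_lit 780000), [(nat_lit 1695001), (nat_lit 1271251), (nat_lit 1271251)], [(nat_lit 29), (nat_lit 66), (nat_lit 401), (nat_lit 175), (nat_lit 9)]⟩⟩)))) (.leaf ⟨(nat_lit 810), (nat_lit 28), (nat_lit 0), (nat_lit 162), (nat_lit 0), (nat_lit 3809), (nat_lit 2379),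 (nat_lit 1798), (nat_lit 0), (nat_lit 829453949304), (nat_lit 202500), [((nat_lit 400), [((nat_lit 29), (nat_lit 0), (nat_lit 810))])], ⟨(nat_lit 6), false, true, true, (nat_lit 234), (nat_lit 0), (nat_lit 1582), [(nat_lit 1531317), (nat_lit 1524997), (nat_lit 1577949), (nat_lit 1574999), (nat_lit 1599609), (nat_lit 1587494), (nat_lit 1646241), (nat_lit 1637496)]⟩, ⟨(nat_lit 5), false, true, true, (nat_lit 223), (nat_lit 0), (nat_lit 1582), [(nat_lit 1476683), (nat_lit 1474999), (nat_lit 1522658), (nat_lit 1524343), (nat_lit 1599609), (nat_lit 1587494), (nat_lit 1646241), (nat_lit 1637496)]⟩, (nat_lit 5280002), (nat_lit 38460465), (nat_lit 14797979), (nat_lit 13741556), (nat_lit 5), (nat_lit 0), [⟨(nat_lit 1), (nat_lit 98), (nat_lit 22), (nat_lit 100), (nat_lit 71280622)⟩], [], [⟨(nat_lit 0), (nat_lit 100), (nat_lit 100), (nat_lit 20), (nat_lit 20084478)⟩], [⟨(nat_lit 0), (nat_lit 100), (nat_lit 97), (nat_lit 54), (nat_lit 223745830)⟩],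
 ⟨⟨[(nat_lit 40), (nat_lit 60), (nat_lit 80)], [(nat_lit 0), (nat_lit 2136), (nat_lit 3185)], [((nat_lit 0), (nat_lit 0), (nat_lit 0)), ((nat_lit 1000), (nat_lit 343), (nat_lit 808)), ((nat_lit 1000), (nat_lit 338), (nat_lit 820))], ((nat_lit 32), (nat_lit 100), (nat_lit 86))⟩, (nat_lit 0), (nat_lit 126), (nat_lit 126), (nat_lit 0), (nat_lit 231841), [(nat_lit 1607812002), (nat_lit 1593291884), (nat_lit 2005604000)], [(nat_lit 0), (nat_lit 0), (nat_lit 0)], [(nat_lit 25611104896), (nat_lit 26293547138), (nat_lit 27532712065), (nat_lit 28175715977), (nat_lit 28284847112), (nat_lit 28883830269), (nat_lit 29901081173), (nat_lit 30440262263)], (nat_lit 1271251), (nat_lit 1271251), (nat_lit 1271251), (nat_lit 1271251), (nat_lit 1271251), (nat_lit 1271251), [(nat_lit 490000), (nat_lit 780000), (nat_lit 1100000)], [(nat_lit 2), (nat_lit 44), (nat_lit 203), (nat_lit 0), (nat_lit 6)]⟩,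
 ⟨⟨[(nat_lit 120), (nat_lit 160), (nat_lit 200)], [(nat_lit 0), (nat_lit 533), (nat_lit 3597)], [((nat_lit 0), (nat_lit 0), (nat_lit 0)), ((nat_lit 960), (nat_lit 1000), (nat_lit 200)), ((nat_lit 612), (nat_lit 1000), (nat_lit 732))], ((nat_lit 0), (nat_lit 0), (nat_lit 0))⟩, (nat_lit 726982), (nat_lit 540), (nat_lit 540), (nat_lit 0), (nat_lit 330128), [(nat_lit 1513920000), (nat_lit 2255680000), (nat_lit 3116000000)], [], [(nat_lit 7244997874), (nat_lit 7305742822), (nat_lit 7695643351), (nat_lit 7704927728), (nat_lit 5444619353), (nat_lit 5490119242), (nat_lit 5836918300), (nat_lit 5836040096)], (nat_lit 1271251), (nat_lit 1271251), (nat_lit 1271251), (nat_lit 1271251), (nat_lit 0), (nat_lit 780000), [(nat_lit 1695001), (nat_lit 1271251), (nat_lit 1271251)], [(nat_lit 29), (nat_lit 66), (nat_lit 401), (nat_lit 175), (nat_lit 8)]⟩,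
 ⟨⟨[(nat_lit 120), (nat_lit 160), (nat_lit 200)], [(nat_lit 0), (nat_lit 533), (nat_lit 3597)], [((nat_lit 0), (nat_lit 0), (nat_lit 0)), ((nat_lit 960), (nat_lit 1000), (nat_lit 200)), ((nat_lit 612), (nat_lit 1000), (nat_lit 732))], ((nat_lit 0), (nat_lit 0), (nat_lit 0))⟩, (nat_lit 86230), (nat_lit 300), (nat_lit 553), (nat_lit 11733154), (nat_lit 330128), [(nat_lit 1290816000), (nat_lit 1923264000), (nat_lit 2656800000)], [], [(nat_lit 9782868411), (nat_lit 9702960577), (nat_lit 9831865657), (nat_lit 9717260224), (nat_lit 8373382080), (nat_lit 8247125915), (nat_lit 8275401616), (nat_lit 8167074521)], (nat_lit 1271251), (nat_lit 1271251), (nat_lit 1271251), (nat_lit 1271251), (nat_lit 0), (nat_lit 780000), [(nat_lit 1695001), (nat_lit 1271251), (nat_lit 1271251)], [(nat_lit 29), (nat_lit 66), (nat_lit 401), (nat_lit 175), (nat_lit 9)]⟩⟩))))))))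
noncomputable def c13_53 : Tr Lf :=
 (.spl (nat_lit 0) (nat_lit 390) (.spl (nat_lit 6) (nat_lit 80) (.spl (nat_lit 0) (nat_lit 385) (.spl (nat_lit 6) (nat_lit 72) (.leaf ⟨(nat_lit 440), (nat_lit 304), (nat_lit 0), (nat_lit 256), (nat_lit 0), (nat_lit 3686), (nat_lit 5138), (nat_lit 3442), (nat_lit 0), (nat_lit 6047893401), (nat_lit 264000), [((nat_lit 385), [((nat_lit 43), (nat_lit 2), (nat_lit 440))])], ⟨(nat_lit 6), false, true, true, (nat_lit 262), (nat_lit 1936), (nat_lit 2237), [(nat_lit 1579788), (nat_lit 1578898), (nat_lit 1602562), (nat_lit 1601908), (nat_lit 1708073), (nat_lit 1704649), (nat_lit 1730848), (nat_lit 1727660)]⟩, ⟨(nat_lit 5), false, true, true, (nat_lit 241), (nat_lit 1936), (nat_lit 2237), [(nat_lit 1477224), (nat_lit 1476988), (nat_lit 1545531), (nat_lit 1546004), (nat_lit 1662525), (nat_lit 1658627), (nat_lit 1730848), (nat_lit 1727660)]⟩, (nat_lit 5495054), (nat_lit 35581988), (nat_lit 16745359), (nat_lit 14672653), (nat_lit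 5), (nat_lit 0), [], [], [⟨(nat_lit 0), (nat_lit 100), (nat_lit 99), (nat_lit 20), (nat_lit 245408927)⟩], [⟨(nat_lit 0), (nat_lit 100), (nat_lit 96), (nat_lit 74), (nat_lit 120150490)⟩],
 ⟨⟨[(nat_lit 40), (nat_lit 60), (nat_lit 80)], [(nat_lit 0), (nat_lit 1539), (nat_lit 2453)], [((nat_lit 0), (nat_lit 0), (nat_lit 0)), ((nat_lit 1000), (nat_lit 478), (nat_lit 704)), ((nat_lit 1000), (nat_lit 474), (nat_lit 714))], ((nat_lit 45), (nat_lit 100), (nat_lit 79))⟩, (nat_lit 103106), (nat_lit 113), (nat_lit 113), (nat_lit 0), (nat_lit 172513), [(nat_lit 1619360003), (nat_lit 1777500400), (nat_lit 2021600000)], [(nat_lit 0), (nat_lit 0), (nat_lit 0)], [(nat_lit 24828135112), (nat_lit 25114127381), (nat_lit 28482103975), (nat_lit 28769380237), (nat_lit 29167559330), (nat_lit 29435915894), (nat_lit 31950612400), (nat_lit 32172075788)], (nat_lit 1271251), (nat_lit 1271251), (nat_lit 1271251), (nat_lit 1271251), (nat_lit 1271251), (nat_lit 1271251), [(nat_lit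 490000), (nat_lit 780000), (nat_lit 1100000)], [(nat_lit 2), (nat_lit 44), (nat_lit 203), (nat_lit 0), (nat_lit 7)]⟩,
 ⟨⟨[(nat_lit 100), (nat_lit 140), (nat_lit 180)], [(nat_lit 0), (nat_lit 508), (nat_lit 2854)], [((nat_lit 0), (nat_lit 0), (nat_lit 0)), ((nat_lit 1000), (nat_lit 1000), (nat_lit 198)), ((nat_lit 777), (nat_lit 1000), (nat_lit 712))], ((nat_lit 100), (nat_lit 72), (nat_lit 77))⟩, (nat_lit 2295409), (nat_lit 473), (nat_lit 473), (nat_lit 0), (nat_lit 373820), [(nat_lit 3500000000), (nat_lit 5511520000), (nat_lit 7872480000)], [], [(nat_lit 17834730224), (nat_lit 18095411848), (nat_lit 20490227891), (nat_lit 20615971239), (nat_lit 14803572591), (nat_lit 14941818552), (nat_lit 16838217607), (nat_lit 16944892870)], (nat_lit 1271251), (nat_lit 1271251), (nat_lit 1271251), (nat_lit 1271251), (nat_lit 0), (nat_lit 780000), [(nat_lit 1412501), (nat_lit 1271251), (nat_lit 1271251)], [(nat_lit 24), (nat_lit 63), (nat_lit 401), (nat_lit 175),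 (nat_lit 9)]⟩,
 ⟨⟨[(nat_lit 120), (nat_lit 160), (nat_lit 200)], [(nat_lit 0), (nat_lit 533), (nat_lit 3597)], [((nat_lit 0), (nat_lit 0), (nat_lit 0)), ((nat_lit 960), (nat_lit 1000), (nat_lit 200)), ((nat_lit 612), (nat_lit 1000), (nat_lit 732))], ((nat_lit 0), (nat_lit 0), (nat_lit 0))⟩, (nat_lit 599415), (nat_lit 300), (nat_lit 692), (nat_lit 16998400), (nat_lit 571791), [(nat_lit 2039808000), (nat_lit 3039232000), (nat_lit 4198400000)], [], [(nat_lit 15001442686), (nat_lit 14631840928), (nat_lit 15120864395), (nat_lit 14678210909), (nat_lit 12152837723), (nat_lit 11637337316), (nat_lit 12026494482), (nat_lit 11607849723)], (nat_lit 1271251), (nat_lit 1271251), (nat_lit 1271251), (nat_lit 1271251), (nat_lit 0), (nat_lit 780000), [(nat_lit 1695001), (nat_lit 1271251), (nat_lit 1271251)], [(nat_lit 29), (nat_lit 66), (nat_lit 401), (nat_lit 175), (nat_lit 9)]⟩⟩) (.dle (nat_lit 0))) (.trX (nat_lit 3) (nat_lit 0) (nat_lit 1) (nat_lit 39) (nat_lit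 85) (nat_lit 100) (nat_lit 320) (.trX (nat_lit 4) (nat_lit 0) (nat_lit 2) (nat_lit 39) (nat_lit 85) (nat_lit 100) (nat_lit 320) (.leaf ⟨(nat_lit 793), (nat_lit 95), (nat_lit 0), (nat_lit 112), (nat_lit 0), (nat_lit 3814), (nat_lit 2176), (nat_lit 1467), (nat_lit 0), (nat_lit 2062820832419), (nat_lit 198250), [((nat_lit 390), [((nat_lit 28), (nat_lit 0), (nat_lit 793))])], ⟨(nat_lit 6), false, true, true, (nat_lit 258), (nat_lit 1581), (nat_lit 1937), [(nat_lit 1578898), (nat_lit 1577949), (nat_lit 1601908), (nat_lit 1601263), (nat_lit 1690677), (nat_lit 1687221), (nat_lit 1713688), (nat_lit 1710536)]⟩, ⟨(nat_lit 5), false, true, true, (nat_lit 238), (nat_lit 1581), (nat_lit 1937), [(nat_lit 1476988), (nat_lit 1476683), (nat_lit 1545992), (nat_lit 1546601), (nat_lit 1644655), (nat_lit 1640591), (nat_lit 1713688), (nat_lit 1710536)]⟩, (nat_lit 5464852), (nat_lit 36012037), (nat_lit 16522724), (nat_lit 14465239), (nat_lit 5), (nat_lit 0), [], [], [],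 [⟨(nat_lit 0), (nat_lit 100), (nat_lit 96), (nat_lit 69), (nat_lit 173286223)⟩],
 ⟨⟨[(nat_lit 40), (nat_lit 60), (nat_lit 80)], [(nat_lit 0), (nat_lit 1803), (nat_lit 2780)], [((nat_lit 0), (nat_lit 0), (nat_lit 0)), ((nat_lit 1000), (nat_lit 417), (nat_lit 754)), ((nat_lit 1000), (nat_lit 413), (nat_lit 764))], ((nat_lit 39), (nat_lit 100), (nat_lit 83))⟩, (nat_lit 0), (nat_lit 119), (nat_lit 119), (nat_lit 0), (nat_lit 201563), [(nat_lit 1611803606), (nat_lit 1561943410), (nat_lit 2061901200)], [(nat_lit 0), (nat_lit 0), (nat_lit 0)], [(nat_lit 25393805025), (nat_lit 25666362133), (nat_lit 28413299183), (nat_lit 28712515082), (nat_lit 29102762998), (nat_lit 29381958140), (nat_lit 31537650386), (nat_lit 31772989620)], (nat_lit 1271251), (nat_lit 1271251), (nat_lit 1271251), (nat_lit 1271251), (nat_lit 1271251), (nat_lit 1271251), [(nat_lit 490000), (nat_lit 780000), (nat_lit 1100000)], [(nat_lit 2), (nat_lit 44), (nat_lit 203), (nat_lit 0), (nat_lit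 6)]⟩,
 ⟨⟨[(nat_lit 100), (nat_lit 140), (nat_lit 180)], [(nat_lit 0), (nat_lit 508), (nat_lit 2854)], [((nat_lit 0), (nat_lit 0), (nat_lit 0)), ((nat_lit 1000), (nat_lit 1000), (nat_lit 198)), ((nat_lit 777), (nat_lit 1000), (nat_lit 712))], ((nat_lit 100), (nat_lit 68), (nat_lit 80))⟩, (nat_lit 898145), (nat_lit 549), (nat_lit 549), (nat_lit 0), (nat_lit 459979), [(nat_lit 1293750000), (nat_lit 2037294000), (nat_lit 2910006000)], [], [(nat_lit 6675675506), (nat_lit 6701799376), (nat_lit 7176548667), (nat_lit 7223499790), (nat_lit 5269295024), (nat_lit 5286332226), (nat_lit 5695922267), (nat_lit 5684342476)], (nat_lit 1271251), (nat_lit 1271251), (nat_lit 1271251), (nat_lit 1271251), (nat_lit 0), (nat_lit 780000), [(nat_lit 1412501), (nat_lit 1271251), (nat_lit 1271251)], [(nat_lit 24), (nat_lit 63), (nat_lit 401), (nat_lit 175), (nat_lit 9)]⟩,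
 ⟨⟨[(nat_lit 120), (nat_lit 160), (nat_lit 200)], [(nat_lit 0), (nat_lit 533), (nat_lit 3597)], [((nat_lit 0), (nat_lit 0), (nat_lit 0)), ((nat_lit 960), (nat_lit 1000), (nat_lit 200)), ((nat_lit 612), (nat_lit 1000), (nat_lit 732))], ((nat_lit 0), (nat_lit 0), (nat_lit 0))⟩, (nat_lit 262244), (nat_lit 300), (nat_lit 745), (nat_lit 7436800), (nat_lit 704938), [(nat_lit 892416000), (nat_lit 1329664000), (nat_lit 1836800000)], [], [(nat_lit 6615630813), (nat_lit 6402785744), (nat_lit 6573748227), (nat_lit 6394809888), (nat_lit 5405668453), (nat_lit 5188670534), (nat_lit 5264278486), (nat_lit 5094920056)], (nat_lit 1271251), (nat_lit 1271251), (nat_lit 1271251), (nat_lit 1271251), (nat_lit 0), (nat_lit 780000), [(nat_lit 1695001), (nat_lit 1271251), (nat_lit 1271251)], [(nat_lit 29), (nat_lit 66), (nat_lit 401), (nat_lit 175), (nat_lit 9)]⟩⟩)))) (.dle (nat_lit 0))) (.trX (nat_lit 3) (nat_lit 0) (nat_lit 1) (nat_lit 32) (nat_lit 89) (nat_lit 100) (nat_lit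 300) (.trX (nat_lit 4) (nat_lit 0) (nat_lit 2) (nat_lit 32) (nat_lit 89) (nat_lit 100) (nat_lit 300) (.spl (nat_lit 2) (nat_lit 220) (.trX (nat_lit 4) (nat_lit 0) (nat_lit 2) (nat_lit 31) (nat_lit 92) (nat_lit 100) (nat_lit 290) (.spl (nat_lit 0) (nat_lit 395) (.leaf ⟨(nat_lit 817), (nat_lit 83), (nat_lit 0), (nat_lit 100), (nat_lit 0), (nat_lit 3670), (nat_lit 2015), (nat_lit 1347), (nat_lit 0), (nat_lit 0), (nat_lit 204250), [((nat_lit 395), [((nat_lit 29), (nat_lit 0), (nat_lit 817))])], ⟨(nat_lit 6), false, true, true, (nat_lit 252), (nat_lit 1118), (nat_lit 1582), [(nat_lit 1577949), (nat_lit 1576877), (nat_lit 1601263), (nat_lit 1600626), (nat_lit 1659903), (nat_lit 1656567), (nat_lit 1683218), (nat_lit 1680318)]⟩, ⟨(nat_lit 5), false, true, true, (nat_lit 224), (nat_lit 1118), (nat_lit 1582), [(nat_lit 1476683), (nat_lit 1476248), (nat_lit 1523282), (nat_lit 1523718), (nat_lit 1599614), (nat_lit 1595784), (nat_lit 1646244), (nat_lit 1643285)]⟩,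 (nat_lit 5368920), (nat_lit 37226359), (nat_lit 16277807), (nat_lit 13495834), (nat_lit 5), (nat_lit 0), [⟨(nat_lit 1), (nat_lit 92), (nat_lit 27), (nat_lit 100), (nat_lit 56964229)⟩], [], [], [⟨(nat_lit 0), (nat_lit 100), (nat_lit 96), (nat_lit 57), (nat_lit 163125106)⟩],
 ⟨⟨[(nat_lit 40), (nat_lit 60), (nat_lit 80)], [(nat_lit 0), (nat_lit 2136), (nat_lit 3185)], [((nat_lit 0), (nat_lit 0), (nat_lit 0)), ((nat_lit 1000), (nat_lit 343), (nat_lit 808)), ((nat_lit 1000), (nat_lit 338), (nat_lit 820))], ((nat_lit 32), (nat_lit 100), (nat_lit 86))⟩, (nat_lit 0), (nat_lit 123), (nat_lit 123), (nat_lit 0), (nat_lit 221667), [(nat_lit 1606168408), (nat_lit 1565742212), (nat_lit 1982422800)], [(nat_lit 0), (nat_lit 0), (nat_lit 0)], [(nat_lit 25835480669), (nat_lit 26103339183), (nat_lit 27777373721), (nat_lit 28085965378), (nat_lit 28149412479), (nat_lit 28443862067), (nat_lit 30075143676), (nat_lit 30334673047)], (nat_lit 1271251), (nat_lit 1271251), (nat_lit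 1271251), (nat_lit 1271251), (nat_lit 1271251), (nat_lit 1271251), [(nat_lit 490000), (nat_lit 780000), (nat_lit 1100000)], [(nat_lit 2), (nat_lit 44), (nat_lit 203), (nat_lit 0), (nat_lit 6)]⟩,
 ⟨⟨[(nat_lit 100), (nat_lit 140), (nat_lit 180)], [(nat_lit 0), (nat_lit 508), (nat_lit 2854)], [((nat_lit 0), (nat_lit 0), (nat_lit 0)), ((nat_lit 1000), (nat_lit 1000), (nat_lit 198)), ((nat_lit 777), (nat_lit 1000), (nat_lit 712))], ((nat_lit 100), (nat_lit 64), (nat_lit 83))⟩, (nat_lit 851613), (nat_lit 584), (nat_lit 584), (nat_lit 0), (nat_lit 549421), [(nat_lit 1143750000), (nat_lit 1801086000), (nat_lit 2572614000)], [], [(nat_lit 5630841430), (nat_lit 5651459204), (nat_lit 6014879456), (nat_lit 6065537752), (nat_lit 4313321534), (nat_lit 4325683602), (nat_lit 4598571715), (nat_lit 4600160607)], (nat_lit 1271251), (nat_lit 1271251), (nat_lit 1271251), (nat_lit 1271251), (nat_lit 0), (nat_lit 780000), [(nat_lit 1412501), (nat_lit 1271251), (nat_lit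 1271251)], [(nat_lit 24), (nat_lit 63), (nat_lit 401), (nat_lit 175), (nat_lit 9)]⟩,
 ⟨⟨[(nat_lit 120), (nat_lit 160), (nat_lit 200)], [(nat_lit 0), (nat_lit 533), (nat_lit 3597)], [((nat_lit 0), (nat_lit 0), (nat_lit 0)), ((nat_lit 960), (nat_lit 1000), (nat_lit 200)), ((nat_lit 612), (nat_lit 1000), (nat_lit 732))], ((nat_lit 0), (nat_lit 0), (nat_lit 0))⟩, (nat_lit 179207), (nat_lit 300), (nat_lit 829), (nat_lit 6823017), (nat_lit 840236), [(nat_lit 796800000), (nat_lit 1187200000), (nat_lit 1640000000)], [], [(nat_lit 5966414769), (nat_lit 5826999361), (nat_lit 5900423239), (nat_lit 5798673178), (nat_lit 4851373084), (nat_lit 4716766907), (nat_lit 4700643879), (nat_lit 4604145747)], (nat_lit 1271251), (nat_lit 1271251), (nat_lit 1271251), (nat_lit 1271251), (nat_lit 0), (nat_lit 780000), [(nat_lit 1695001), (nat_lit 1271251), (nat_lit 1271251)], [(nat_lit 29), (nat_lit 66), (nat_lit 401), (nat_lit 175), (nat_lit 9)]⟩⟩) (.trX (nat_lit 3) (nat_lit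 0) (nat_lit 1) (nat_lit 23) (nat_lit 93) (nat_lit 100) (nat_lit 290) (.trX (nat_lit 4) (nat_lit 0) (nat_lit 2) (nat_lit 22) (nat_lit 95) (nat_lit 100) (nat_lit 270) (.leaf ⟨(nat_lit 842), (nat_lit 72), (nat_lit 0), (nat_lit 86), (nat_lit 0), (nat_lit 3647), (nat_lit 1837), (nat_lit 1179), (nat_lit 0), (nat_lit 0), (nat_lit 210500), [((nat_lit 400), [((nat_lit 29), (nat_lit 0), (nat_lit 842))])], ⟨(nat_lit 6), false, true, true, (nat_lit 248), (nat_lit 0), (nat_lit 1119), [(nat_lit 1576876), (nat_lit 1574998), (nat_lit 1600626), (nat_lit 1599998), (nat_lit 1643282), (nat_lit 1637496), (nat_lit 1667034), (nat_lit 1662497)]⟩, ⟨(nat_lit 5), false, true, true, (nat_lit 218), (nat_lit 0), (nat_lit 1119), [(nat_lit 1476247), (nat_lit 1474998), (nat_lit 1523285), (nat_lit 1524534), (nat_lit 1569216), (nat_lit 1562495), (nat_lit 1616720), (nat_lit 1612497)]⟩, (nat_lit 5316856), (nat_lit 37854029), (nat_lit 16088231), (nat_lit 13057740), (nat_lit 5), (nat_lit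 0), [⟨(nat_lit 1), (nat_lit 96), (nat_lit 16), (nat_lit 100), (nat_lit 434646298)⟩], [⟨(nat_lit 1), (nat_lit 99), (nat_lit 16), (nat_lit 100), (nat_lit 65517773)⟩], [], [⟨(nat_lit 0), (nat_lit 100), (nat_lit 96), (nat_lit 49), (nat_lit 144033238)⟩],
 ⟨⟨[(nat_lit 40), (nat_lit 60), (nat_lit 80)], [(nat_lit 0), (nat_lit 2600), (nat_lit 3731)], [((nat_lit 0), (nat_lit 0), (nat_lit 0)), ((nat_lit 1000), (nat_lit 245), (nat_lit 872)), ((nat_lit 1000), (nat_lit 240), (nat_lit 884))], ((nat_lit 24), (nat_lit 100), (nat_lit 89))⟩, (nat_lit 0), (nat_lit 131), (nat_lit 131), (nat_lit 0), (nat_lit 250912), [(nat_lit 1600298410), (nat_lit 1480433974), (nat_lit 1899632800)], [(nat_lit 0), (nat_lit 0), (nat_lit 0)], [(nat_lit 26049565305), (nat_lit 26316673348), (nat_lit 27681324774), (nat_lit 27996271696), (nat_lit 27713701882), (nat_lit 28020527025), (nat_lit 29364965170), (nat_lit 29641199872)], (nat_lit 1271251), (nat_lit 1271251), (nat_lit 1271251), (nat_lit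 1271251), (nat_lit 1271251), (nat_lit 1271251), [(nat_lit 490000), (nat_lit 780000), (nat_lit 1100000)], [(nat_lit 2), (nat_lit 44), (nat_lit 203), (nat_lit 0), (nat_lit 6)]⟩,
 ⟨⟨[(nat_lit 100), (nat_lit 140), (nat_lit 180)], [(nat_lit 0), (nat_lit 508), (nat_lit 2854)], [((nat_lit 0), (nat_lit 0), (nat_lit 0)), ((nat_lit 1000), (nat_lit 1000), (nat_lit 198)), ((nat_lit 777), (nat_lit 1000), (nat_lit 712))], ((nat_lit 100), (nat_lit 64), (nat_lit 83))⟩, (nat_lit 805525), (nat_lit 624), (nat_lit 624), (nat_lit 0), (nat_lit 652145), [(nat_lit 987500000), (nat_lit 1555036000), (nat_lit 2221164000)], [], [(nat_lit 4559478548), (nat_lit 4574977304), (nat_lit 4954628617), (nat_lit 5007873889), (nat_lit 3342886561), (nat_lit 3350683064), (nat_lit 3621416330), (nat_lit 3660291536)], (nat_lit 1271251), (nat_lit 1271251), (nat_lit 1271251), (nat_lit 1271251), (nat_lit 0), (nat_lit 780000), [(nat_lit 1412501), (nat_lit 1271251), (nat_lit 1271251)], [(nat_lit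 24), (nat_lit 63), (nat_lit 401), (nat_lit 175), (nat_lit 9)]⟩,
 ⟨⟨[(nat_lit 120), (nat_lit 160), (nat_lit 200)], [(nat_lit 0), (nat_lit 533), (nat_lit 3597)], [((nat_lit 0), (nat_lit 0), (nat_lit 0)), ((nat_lit 960), (nat_lit 1000), (nat_lit 200)), ((nat_lit 612), (nat_lit 1000), (nat_lit 732))], ((nat_lit 0), (nat_lit 0), (nat_lit 0))⟩, (nat_lit 45777), (nat_lit 300), (nat_lit 883), (nat_lit 6228706), (nat_lit 980313), [(nat_lit 685248000), (nat_lit 1020992000), (nat_lit 1410400000)], [], [(nat_lit 5319870795), (nat_lit 5196425333), (nat_lit 5195134980), (nat_lit 5110674282), (nat_lit 4341716899), (nat_lit 4222943889), (nat_lit 4192942005), (nat_lit 4066405729)], (nat_lit 1271251), (nat_lit 1271251), (nat_lit 1271251), (nat_lit 1271251), (nat_lit 0), (nat_lit 780000), [(nat_lit 1695001), (nat_lit 1271251), (nat_lit 1271251)], [(nat_lit 29), (nat_lit 66), (nat_lit 401), (nat_lit 175), (nat_lit 9)]⟩⟩))))) (.leaf ⟨(nat_lit 652), (nat_lit 42), (nat_lit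 0), (nat_lit 306), (nat_lit 0), (nat_lit 3814), (nat_lit 4134), (nat_lit 4104), (nat_lit 0), (nat_lit 31756), (nat_lit 163000), [((nat_lit 400), [((nat_lit 29), (nat_lit 0), (nat_lit 652))])], ⟨(nat_lit 6), false, true, true, (nat_lit 251), (nat_lit 0), (nat_lit 1582), [(nat_lit 1577949), (nat_lit 1574999), (nat_lit 1601257), (nat_lit 1599992), (nat_lit 1659900), (nat_lit 1649996), (nat_lit 1683216), (nat_lit 1674997)]⟩, ⟨(nat_lit 5), false, true, true, (nat_lit 240), (nat_lit 0), (nat_lit 1582), [(nat_lit 1522658), (nat_lit 1524343), (nat_lit 1545316), (nat_lit 1548686), (nat_lit 1659900), (nat_lit 1649996), (nat_lit 1683216), (nat_lit 1674997)]⟩, (nat_lit 5449275), (nat_lit 36291619), (nat_lit 15893570), (nat_lit 14814811), (nat_lit 5), (nat_lit 0), [⟨(nat_lit 1), (nat_lit 94), (nat_lit 22), (nat_lit 100), (nat_lit 500055113)⟩], [], [⟨(nat_lit 0), (nat_lit 100), (nat_lit 100), (nat_lit 30), (nat_lit 435961177)⟩], [],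
 ⟨⟨[(nat_lit 40), (nat_lit 60), (nat_lit 80)], [(nat_lit 0), (nat_lit 2136), (nat_lit 3185)], [((nat_lit 0), (nat_lit 0), (nat_lit 0)), ((nat_lit 1000), (nat_lit 343), (nat_lit 808)), ((nat_lit 1000), (nat_lit 338), (nat_lit 820))], ((nat_lit 32), (nat_lit 100), (nat_lit 86))⟩, (nat_lit 140349), (nat_lit 133), (nat_lit 133), (nat_lit 0), (nat_lit 256831), [(nat_lit 1644910404), (nat_lit 1860615780), (nat_lit 2528836800)], [(nat_lit 0), (nat_lit 0), (nat_lit 0)], [(nat_lit 25752499764), (nat_lit 26298433548), (nat_lit 27929402252), (nat_lit 28557818547), (nat_lit 28653798621), (nat_lit 29239492642), (nat_lit 30544873468), (nat_lit 31060751790)], (nat_lit 1271251), (nat_lit 1271251), (nat_lit 1271251), (nat_lit 1271251), (nat_lit 1271251), (nat_lit 1271251), [(nat_lit 490000), (nat_lit 780000), (nat_lit 1100000)], [(nat_lit 2), (nat_lit 44), (nat_lit 203), (nat_lit 0), (nat_lit 6)]⟩,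
 ⟨⟨[(nat_lit 100), (nat_lit 140), (nat_lit 180)], [(nat_lit 0), (nat_lit 508), (nat_lit 2854)], [((nat_lit 0), (nat_lit 0), (nat_lit 0)), ((nat_lit 1000), (nat_lit 1000), (nat_lit 198)), ((nat_lit 777), (nat_lit 1000), (nat_lit 712))], ((nat_lit 100), (nat_lit 64), (nat_lit 83))⟩, (nat_lit 1842098), (nat_lit 618), (nat_lit 618), (nat_lit 0), (nat_lit 637229), [(nat_lit 2175000000), (nat_lit 3425016000), (nat_lit 4892184000)], [], [(nat_lit 9762859790), (nat_lit 9923510384), (nat_lit 11029262700), (nat_lit 11131838638), (nat_lit 7011484602), (nat_lit 7026055632), (nat_lit 7932712641), (nat_lit 8006676731)], (nat_lit 1271251), (nat_lit 1271251), (nat_lit 1271251), (nat_lit 1271251), (nat_lit 0), (nat_lit 780000), [(nat_lit 1412501), (nat_lit 1271251), (nat_lit 1271251)], [(nat_lit 24), (nat_lit 63), (nat_lit 401), (nat_lit 175), (nat_lit 9)]⟩,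
 ⟨⟨[(nat_lit 100), (nat_lit 140), (nat_lit 180)], [(nat_lit 0), (nat_lit 508), (nat_lit 2854)], [((nat_lit 0), (nat_lit 0), (nat_lit 0)), ((nat_lit 1000), (nat_lit 1000), (nat_lit 198)), ((nat_lit 777), (nat_lit 1000), (nat_lit 712))], ((nat_lit 100), (nat_lit 64), (nat_lit 83))⟩, (nat_lit 657780), (nat_lit 300), (nat_lit 631), (nat_lit 19125000), (nat_lit 637229), [(nat_lit 1912500000), (nat_lit 3011652000), (nat_lit 4301748000)], [], [(nat_lit 14373999081), (nat_lit 14339603664), (nat_lit 14771188557), (nat_lit 14683089708), (nat_lit 11167818210), (nat_lit 11026884510), (nat_lit 11304491533), (nat_lit 11217467511)], (nat_lit 1271251), (nat_lit 1271251), (nat_lit 1271251), (nat_lit 1271251), (nat_lit 0), (nat_lit 780000), [(nat_lit 1412501), (nat_lit 1271251), (nat_lit 1271251)], [(nat_lit 24), (nat_lit 63), (nat_lit 401), (nat_lit 175), (nat_lit 9)]⟩⟩)))))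
noncomputable def c13_54 : Tr Lf :=
 (.spl (nat_lit 1) (nat_lit 220) (.ord (.trX (nat_lit 3) (nat_lit 0) (nat_lit 1) (nat_lit 44) (nat_lit 86) (nat_lit 100) (nat_lit 310) (.trX (nat_lit 4) (nat_lit 0) (nat_lit 2) (nat_lit 44) (nat_lit 86) (nat_lit 100) (nat_lit 310) (.spl (nat_lit 0) (nat_lit 390) (.spl (nat_lit 6) (nat_lit 76) (.leaf ⟨(nat_lit 754), (nat_lit 0), (nat_lit 0), (nat_lit 246), (nat_lit 0), (nat_lit 3271), (nat_lit 3367), (nat_lit 3211), (nat_lit 0), (nat_lit 25562615591), (nat_lit 280600), [((nat_lit 390), [((nat_lit 28), (nat_lit 0), (nat_lit 140)), ((nat_lit 28), (nat_lit 1), (nat_lit 614))])], ⟨(nat_lit 6), false, true, true, (nat_lit 242), (nat_lit 1581), (nat_lit 2237), [(nat_lit 1534240), (nat_lit 1531319), (nat_lit 1579788), (nat_lit 1577949), (nat_lit 1634017), (nat_lit 1626932), (nat_lit 1679566), (nat_lit 1673562)]⟩, ⟨(nat_lit 5), false, true, true, (nat_lit 231), (nat_lit 1581), (nat_lit 2237), [(nat_lit 1477224), (nat_lit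 1476683), (nat_lit 1522729), (nat_lit 1523269), (nat_lit 1634017), (nat_lit 1626932), (nat_lit 1679566), (nat_lit 1673562)]⟩, (nat_lit 5358996), (nat_lit 37482642), (nat_lit 15321507), (nat_lit 14195851), (nat_lit 0), (nat_lit 0), [⟨(nat_lit 1), (nat_lit 93), (nat_lit 38), (nat_lit 100), (nat_lit 255366678)⟩], [], [], [],
 ⟨⟨[(nat_lit 40), (nat_lit 60), (nat_lit 80)], [(nat_lit 0), (nat_lit 1539), (nat_lit 2453)], [((nat_lit 0), (nat_lit 0), (nat_lit 0)), ((nat_lit 1000), (nat_lit 478), (nat_lit 704)), ((nat_lit 1000), (nat_lit 474), (nat_lit 714))], ((nat_lit 45), (nat_lit 100), (nat_lit 80))⟩, (nat_lit 0), (nat_lit 110), (nat_lit 110), (nat_lit 0), (nat_lit 169354), [(nat_lit 1517808801), (nat_lit 1318039771), (nat_lit 1467270400)], [(nat_lit 0), (nat_lit 0), (nat_lit 0)], [(nat_lit 24915539611), (nat_lit 25456343492), (nat_lit 27242765548), (nat_lit 27731937805), (nat_lit 27987860786), (nat_lit 28462684433), (nat_lit 30096064069), (nat_lit 30560727606)],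 (nat_lit 1271251), (nat_lit 1271251), (nat_lit 1271251), (nat_lit 1271251), (nat_lit 1271251), (nat_lit 1271251), [(nat_lit 490000), (nat_lit 780000), (nat_lit 1100000)], [(nat_lit 2), (nat_lit 44), (nat_lit 203), (nat_lit 0), (nat_lit 7)]⟩,
 ⟨⟨[(nat_lit 120), (nat_lit 160), (nat_lit 200)], [(nat_lit 0), (nat_lit 533), (nat_lit 3597)], [((nat_lit 0), (nat_lit 0), (nat_lit 0)), ((nat_lit 960), (nat_lit 1000), (nat_lit 200)), ((nat_lit 612), (nat_lit 1000), (nat_lit 732))], ((nat_lit 0), (nat_lit 0), (nat_lit 0))⟩, (nat_lit 961773), (nat_lit 707), (nat_lit 707), (nat_lit 0), (nat_lit 867965), [(nat_lit 1960128000), (nat_lit 2920512000), (nat_lit 4034400000)], [], [(nat_lit 6736520139), (nat_lit 6632019698), (nat_lit 7326333328), (nat_lit 7280371891), (nat_lit 9813769734), (nat_lit 8900689063), (nat_lit 9939361202), (nat_lit 9930293026)], (nat_lit 1271251), (nat_lit 1271251), (nat_lit 1271251), (nat_lit 1271251), (nat_lit 780000), (nat_lit 3072501),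 [(nat_lit 1695001), (nat_lit 1271251), (nat_lit 1271251)], [(nat_lit 29), (nat_lit 66), (nat_lit 483), (nat_lit 250), (nat_lit 10)]⟩,
 ⟨⟨[(nat_lit 120), (nat_lit 160), (nat_lit 200)], [(nat_lit 0), (nat_lit 533), (nat_lit 3597)], [((nat_lit 0), (nat_lit 0), (nat_lit 0)), ((nat_lit 960), (nat_lit 1000), (nat_lit 200)), ((nat_lit 612), (nat_lit 1000), (nat_lit 732))], ((nat_lit 0), (nat_lit 0), (nat_lit 0))⟩, (nat_lit 576000), (nat_lit 300), (nat_lit 723), (nat_lit 16334400), (nat_lit 867965), [(nat_lit 1960128000), (nat_lit 2920512000), (nat_lit 4034400000)], [], [(nat_lit 11898658995), (nat_lit 11582545313), (nat_lit 11545167352), (nat_lit 11305960009), (nat_lit 12829587767), (nat_lit 10950356245), (nat_lit 10779057812), (nat_lit 10411748584)], (nat_lit 1271251), (nat_lit 1271251), (nat_lit 1271251), (nat_lit 1271251), (nat_lit 780000), (nat_lit 3072501), [(nat_lit 1695001), (nat_lit 1271251), (nat_lit 1271251)], [(nat_lit 29), (nat_lit 66), (nat_lit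 483), (nat_lit 250), (nat_lit 10)]⟩⟩) (.dle (nat_lit 0))) (.trX (nat_lit 3) (nat_lit 0) (nat_lit 1) (nat_lit 31) (nat_lit 92) (nat_lit 100) (nat_lit 290) (.trX (nat_lit 4) (nat_lit 0) (nat_lit 2) (nat_lit 31) (nat_lit 92) (nat_lit 100) (nat_lit 290) (.leaf ⟨(nat_lit 903), (nat_lit 0), (nat_lit 0), (nat_lit 97), (nat_lit 0), (nat_lit 3626), (nat_lit 1347), (nat_lit 1286), (nat_lit 0), (nat_lit 53215), (nat_lit 225750), [((nat_lit 400), [((nat_lit 29), (nat_lit 0), (nat_lit 903))])], ⟨(nat_lit 6), false, true, true, (nat_lit 234), (nat_lit 0), (nat_lit 1582), [(nat_lit 1531317), (nat_lit 1524997), (nat_lit 1577949), (nat_lit 1574999), (nat_lit 1599609), (nat_lit 1587494), (nat_lit 1646241), (nat_lit 1637496)]⟩, ⟨(nat_lit 5), false, true, true, (nat_lit 223), (nat_lit 0), (nat_lit 1582), [(nat_lit 1476683), (nat_lit 1474999), (nat_lit 1522658), (nat_lit 1524343), (nat_lit 1599609), (nat_lit 1587494), (nat_lit 1646241), (nat_lit 1637496)]⟩, (nat_lit 5280002),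 (nat_lit 38460465), (nat_lit 14797979), (nat_lit 13741556), (nat_lit 0), (nat_lit 0), [⟨(nat_lit 1), (nat_lit 98), (nat_lit 22), (nat_lit 100), (nat_lit 762352066)⟩], [⟨(nat_lit 1), (nat_lit 98), (nat_lit 22), (nat_lit 100), (nat_lit 393283648)⟩], [], [],
 ⟨⟨[(nat_lit 40), (nat_lit 60), (nat_lit 80)], [(nat_lit 0), (nat_lit 2136), (nat_lit 3185)], [((nat_lit 0), (nat_lit 0), (nat_lit 0)), ((nat_lit 1000), (nat_lit 343), (nat_lit 808)), ((nat_lit 1000), (nat_lit 338), (nat_lit 820))], ((nat_lit 32), (nat_lit 100), (nat_lit 86))⟩, (nat_lit 0), (nat_lit 126), (nat_lit 126), (nat_lit 0), (nat_lit 231841), [(nat_lit 1585975602), (nat_lit 1424264277), (nat_lit 1697625200)], [(nat_lit 0), (nat_lit 0), (nat_lit 0)], [(nat_lit 25589701364), (nat_lit 26122547028), (nat_lit 27344816009), (nat_lit 27973010400), (nat_lit 28106541085), (nat_lit 28692248209), (nat_lit 29707690070), (nat_lit 30235703845)], (nat_lit 1271251), (nat_lit 1271251), (nat_lit 1271251),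 (nat_lit 1271251), (nat_lit 1271251), (nat_lit 1271251), [(nat_lit 490000), (nat_lit 780000), (nat_lit 1100000)], [(nat_lit 2), (nat_lit 44), (nat_lit 203), (nat_lit 0), (nat_lit 6)]⟩,
 ⟨⟨[(nat_lit 120), (nat_lit 160), (nat_lit 200)], [(nat_lit 0), (nat_lit 533), (nat_lit 3597)], [((nat_lit 0), (nat_lit 0), (nat_lit 0)), ((nat_lit 960), (nat_lit 1000), (nat_lit 200)), ((nat_lit 612), (nat_lit 1000), (nat_lit 732))], ((nat_lit 0), (nat_lit 0), (nat_lit 0))⟩, (nat_lit 347593), (nat_lit 896), (nat_lit 896), (nat_lit 0), (nat_lit 1259248), [(nat_lit 772896000), (nat_lit 1151584000), (nat_lit 1590800000)], [], [(nat_lit 2655923839), (nat_lit 2618124133), (nat_lit 2869021929), (nat_lit 2880256787), (nat_lit 3876171910), (nat_lit 3528180985), (nat_lit 3811197870), (nat_lit 3820466711)], (nat_lit 1271251), (nat_lit 1271251), (nat_lit 1271251), (nat_lit 1271251), (nat_lit 780000), (nat_lit 3072501), [(nat_lit 1695001), (nat_lit 1271251), (nat_lit 1271251)],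 [(nat_lit 29), (nat_lit 66), (nat_lit 483), (nat_lit 250), (nat_lit 10)]⟩,
 ⟨⟨[(nat_lit 120), (nat_lit 160), (nat_lit 200)], [(nat_lit 0), (nat_lit 533), (nat_lit 3597)], [((nat_lit 0), (nat_lit 0), (nat_lit 0)), ((nat_lit 960), (nat_lit 1000), (nat_lit 200)), ((nat_lit 612), (nat_lit 1000), (nat_lit 732))], ((nat_lit 0), (nat_lit 0), (nat_lit 0))⟩, (nat_lit 162364), (nat_lit 300), (nat_lit 912), (nat_lit 6656525), (nat_lit 1259248), [(nat_lit 772896000), (nat_lit 1151584000), (nat_lit 1590800000)], [], [(nat_lit 4775784621), (nat_lit 4648229791), (nat_lit 4595722944), (nat_lit 4504692562), (nat_lit 5084499085), (nat_lit 4374257129), (nat_lit 4324490680), (nat_lit 4179719250)], (nat_lit 1271251), (nat_lit 1271251), (nat_lit 1271251), (nat_lit 1271251), (nat_lit 780000), (nat_lit 3072501), [(nat_lit 1695001), (nat_lit 1271251), (nat_lit 1271251)], [(nat_lit 29), (nat_lit 66), (nat_lit 483), (nat_lit 250), (nat_lit 10)]⟩⟩))))))) (.spl (nat_lit 0) (nat_lit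 390) (.spl (nat_lit 6) (nat_lit 80) (.leaf ⟨(nat_lit 0), (nat_lit 489), (nat_lit 0), (nat_lit 511), (nat_lit 0), (nat_lit 4045), (nat_lit 9603), (nat_lit 6178), (nat_lit 0), (nat_lit 102625), (nat_lit 0), [], Pd.none, Pd.none, (nat_lit 0), (nat_lit 1), (nat_lit 0), (nat_lit 0), (nat_lit 5), (nat_lit 0), [], [], [], [],
 ⟨⟨[(nat_lit 40), (nat_lit 80), (nat_lit 100)], [(nat_lit 0), (nat_lit 2514), (nat_lit 3562)], [((nat_lit 0), (nat_lit 0), (nat_lit 0)), ((nat_lit 1000), (nat_lit 446), (nat_lit 804)), ((nat_lit 1000), (nat_lit 443), (nat_lit 819))], ((nat_lit 44), (nat_lit 100), (nat_lit 82))⟩, (nat_lit 1320662), (nat_lit 140), (nat_lit 140), (nat_lit 0), (nat_lit 202340), [(nat_lit 2032000026), (nat_lit 4914447987), (nat_lit 6250000000)], [], [(nat_lit 25224745790), (nat_lit 25784554925), (nat_lit 28875617024), (nat_lit 29475023768), (nat_lit 29537487874), (nat_lit 30096433131), (nat_lit 32367805386), (nat_lit 32826363209)], (nat_lit 1271251), (nat_lit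 1271251), (nat_lit 1271251), (nat_lit 1271251), (nat_lit 1271251), (nat_lit 1271251), [(nat_lit 490000), (nat_lit 1100000), (nat_lit 1442501)], [(nat_lit 3), (nat_lit 50), (nat_lit 203), (nat_lit 0), (nat_lit 6)]⟩,
 ⟨⟨[(nat_lit 100), (nat_lit 140), (nat_lit 180)], [(nat_lit 0), (nat_lit 508), (nat_lit 2854)], [((nat_lit 0), (nat_lit 0), (nat_lit 0)), ((nat_lit 1000), (nat_lit 1000), (nat_lit 198)), ((nat_lit 777), (nat_lit 1000), (nat_lit 712))], ((nat_lit 100), (nat_lit 68), (nat_lit 80))⟩, (nat_lit 3781599), (nat_lit 490), (nat_lit 490), (nat_lit 0), (nat_lit 635201), [(nat_lit 6250000000), (nat_lit 9842000000), (nat_lit 14058000000)], [], [(nat_lit 25841547586), (nat_lit 25846671720), (nat_lit 29704134082), (nat_lit 29883769965), (nat_lit 32666275590), (nat_lit 32738961284), (nat_lit 37003651297), (nat_lit 37070963893)], (nat_lit 1271251), (nat_lit 1271251), (nat_lit 1271251), (nat_lit 1271251), (nat_lit 780000), (nat_lit 3072501), [(nat_lit 1412501),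 (nat_lit 1271251), (nat_lit 1271251)], [(nat_lit 24), (nat_lit 63), (nat_lit 483), (nat_lit 250), (nat_lit 11)]⟩,
 ⟨⟨[(nat_lit 120), (nat_lit 160), (nat_lit 200)], [(nat_lit 0), (nat_lit 533), (nat_lit 3597)], [((nat_lit 0), (nat_lit 0), (nat_lit 0)), ((nat_lit 960), (nat_lit 1000), (nat_lit 200)), ((nat_lit 612), (nat_lit 1000), (nat_lit 732))], ((nat_lit 0), (nat_lit 0), (nat_lit 0))⟩, (nat_lit 1196488), (nat_lit 300), (nat_lit 802), (nat_lit 33930400), (nat_lit 989121), [(nat_lit 4071648000), (nat_lit 6066592000), (nat_lit 8380400000)], [], [(nat_lit 25840202288), (nat_lit 24963238865), (nat_lit 24935277995), (nat_lit 24016907950), (nat_lit 26014391935), (nat_lit 23181657434), (nat_lit 23203520056), (nat_lit 22150809051)], (nat_lit 1271251), (nat_lit 1271251), (nat_lit 1271251), (nat_lit 1271251), (nat_lit 780000), (nat_lit 3072501), [(nat_lit 1695001), (nat_lit 1271251), (nat_lit 1271251)], [(nat_lit 29), (nat_lit 66), (nat_lit 483), (nat_lit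 250), (nat_lit 10)]⟩⟩) (.dle (nat_lit 0))) (.trX (nat_lit 3) (nat_lit 0) (nat_lit 1) (nat_lit 32) (nat_lit 89) (nat_lit 100) (nat_lit 300) (.trX (nat_lit 4) (nat_lit 0) (nat_lit 2) (nat_lit 32) (nat_lit 89) (nat_lit 100) (nat_lit 300) (.leaf ⟨(nat_lit 819), (nat_lit 48), (nat_lit 0), (nat_lit 133), (nat_lit 0), (nat_lit 3652), (nat_lit 1990), (nat_lit 1504), (nat_lit 0), (nat_lit 620614), (nat_lit 204750), [((nat_lit 400), [((nat_lit 29), (nat_lit 0), (nat_lit 819))])], ⟨(nat_lit 6), false, true, true, (nat_lit 251), (nat_lit 0), (nat_lit 1582), [(nat_lit 1577949), (nat_lit 1574999), (nat_lit 1601257), (nat_lit 1599992), (nat_lit 1659900), (nat_lit 1649996), (nat_lit 1683216), (nat_lit 1674997)]⟩, ⟨(nat_lit 5), false, true, true, (nat_lit 231), (nat_lit 0), (nat_lit 1582), [(nat_lit 1476683), (nat_lit 1474999), (nat_lit 1545316), (nat_lit 1548686), (nat_lit 1613268), (nat_lit 1599994), (nat_lit 1683216), (nat_lit 1674997)]⟩, (nat_lit 5401534), (nat_lit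 36872932), (nat_lit 16086374), (nat_lit 14040694), (nat_lit 5), (nat_lit 0), [⟨(nat_lit 1), (nat_lit 94), (nat_lit 22), (nat_lit 100), (nat_lit 549493487)⟩], [⟨(nat_lit 1), (nat_lit 96), (nat_lit 22), (nat_lit 100), (nat_lit 357394749)⟩], [], [],
 ⟨⟨[(nat_lit 40), (nat_lit 60), (nat_lit 80)], [(nat_lit 0), (nat_lit 2136), (nat_lit 3185)], [((nat_lit 0), (nat_lit 0), (nat_lit 0)), ((nat_lit 1000), (nat_lit 343), (nat_lit 808)), ((nat_lit 1000), (nat_lit 338), (nat_lit 820))], ((nat_lit 32), (nat_lit 100), (nat_lit 86))⟩, (nat_lit 0), (nat_lit 133), (nat_lit 133), (nat_lit 0), (nat_lit 257369), [(nat_lit 1605698884), (nat_lit 1538523167), (nat_lit 1975799600)], [(nat_lit 0), (nat_lit 0), (nat_lit 0)], [(nat_lit 25860401837), (nat_lit 26394944216), (nat_lit 27758370155), (nat_lit 28374149346), (nat_lit 28492057294), (nat_lit 29066427556), (nat_lit 30368578355), (nat_lit 30875306461)], (nat_lit 1271251), (nat_lit 1271251), (nat_lit 1271251), (nat_lit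 1271251), (nat_lit 1271251), (nat_lit 1271251), [(nat_lit 490000), (nat_lit 780000), (nat_lit 1100000)], [(nat_lit 2), (nat_lit 44), (nat_lit 203), (nat_lit 0), (nat_lit 6)]⟩,
 ⟨⟨[(nat_lit 100), (nat_lit 140), (nat_lit 180)], [(nat_lit 0), (nat_lit 508), (nat_lit 2854)], [((nat_lit 0), (nat_lit 0), (nat_lit 0)), ((nat_lit 1000), (nat_lit 1000), (nat_lit 198)), ((nat_lit 777), (nat_lit 1000), (nat_lit 712))], ((nat_lit 100), (nat_lit 64), (nat_lit 83))⟩, (nat_lit 594312), (nat_lit 629), (nat_lit 629), (nat_lit 0), (nat_lit 877001), [(nat_lit 1131250000), (nat_lit 1781402000), (nat_lit 2544498000)], [], [(nat_lit 4666606620), (nat_lit 4664831410), (nat_lit 4934571494), (nat_lit 4962717474), (nat_lit 6081724712), (nat_lit 6133292764), (nat_lit 6661630193), (nat_lit 6680785255)], (nat_lit 1271251), (nat_lit 1271251), (nat_lit 1271251), (nat_lit 1271251), (nat_lit 780000), (nat_lit 3072501), [(nat_lit 1412501), (nat_lit 1271251), (nat_lit 1271251)], [(nat_lit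 24), (nat_lit 63), (nat_lit 483), (nat_lit 250), (nat_lit 11)]⟩,
 ⟨⟨[(nat_lit 120), (nat_lit 160), (nat_lit 200)], [(nat_lit 0), (nat_lit 533), (nat_lit 3597)], [((nat_lit 0), (nat_lit 0), (nat_lit 0)), ((nat_lit 960), (nat_lit 1000), (nat_lit 200)), ((nat_lit 612), (nat_lit 1000), (nat_lit 732))], ((nat_lit 0), (nat_lit 0), (nat_lit 0))⟩, (nat_lit 311415), (nat_lit 300), (nat_lit 956), (nat_lit 8831200), (nat_lit 1366417), [(nat_lit 1059744000), (nat_lit 1578976000), (nat_lit 2181200000)], [], [(nat_lit 7002593825), (nat_lit 6757608575), (nat_lit 6770907853), (nat_lit 6541484560), (nat_lit 6636532840), (nat_lit 6197669762), (nat_lit 6219196387), (nat_lit 5980412581)], (nat_lit 1271251), (nat_lit 1271251), (nat_lit 1271251), (nat_lit 1271251), (nat_lit 780000), (nat_lit 3072501), [(nat_lit 1695001), (nat_lit 1271251), (nat_lit 1271251)], [(nat_lit 29), (nat_lit 66), (nat_lit 483), (nat_lit 250), (nat_lit 10)]⟩⟩)))))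
noncomputable def c13_55 : Tr Lf :=
 (.spl (nat_lit 4) (nat_lit 160) (.spl (nat_lit 1) (nat_lit 180) (.spl (nat_lit 0) (nat_lit 385) (.spl (nat_lit 6) (nat_lit 112) (.leaf ⟨(nat_lit 1000), (nat_lit 0), (nat_lit 0), (nat_lit 0), (nat_lit 7936), (nat_lit 3213), (nat_lit 0), (nat_lit 0), (nat_lit 0), (nat_lit 1187624758161), (nat_lit 360400), [((nat_lit 385), [((nat_lit 29), (nat_lit 0), (nat_lit 264)), ((nat_lit 29), (nat_lit 1), (nat_lit 736))])], ⟨(nat_lit 3), false, false, false, (nat_lit 132), (nat_lit 1936), (nat_lit 2237), [(nat_lit 1180811), (nat_lit 1184371), (nat_lit 1249108), (nat_lit 1253377), (nat_lit 1408901), (nat_lit 1407955), (nat_lit 1477224), (nat_lit 1476988)]⟩, ⟨(nat_lit 3), false, false, false, (nat_lit 121), (nat_lit 1936), (nat_lit 2237), [(nat_lit 1180811), (nat_lit 1184371), (nat_lit 1249108), (nat_lit 1253377), (nat_lit 1351886), (nat_lit 1352066), (nat_lit 1420202), (nat_lit 1421092)]⟩, (nat_lit 3346341), (nat_lit 53941514),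 (nat_lit 6978769), (nat_lit 6079717), (nat_lit 0), (nat_lit 0), [], [⟨(nat_lit 0), (nat_lit 100), (nat_lit 42), (nat_lit 81), (nat_lit 1427720)⟩], [], [],
 ⟨⟨[(nat_lit 40), (nat_lit 80), (nat_lit 100)], [(nat_lit 0), (nat_lit 2514), (nat_lit 3562)], [((nat_lit 0), (nat_lit 0), (nat_lit 0)), ((nat_lit 1000), (nat_lit 446), (nat_lit 804)), ((nat_lit 1000), (nat_lit 443), (nat_lit 819))], ((nat_lit 44), (nat_lit 100), (nat_lit 90))⟩, (nat_lit 0), (nat_lit 215), (nat_lit 215), (nat_lit 0), (nat_lit 70935), [(nat_lit 1440729634), (nat_lit 572726517), (nat_lit 540793600)], [(nat_lit 0), (nat_lit 0), (nat_lit 0)], [(nat_lit 22870304476), (nat_lit 23396870842), (nat_lit 23227499732), (nat_lit 23535061740), (nat_lit 22235566145), (nat_lit 22563385098), (nat_lit 23388167894), (nat_lit 23658542375)], (nat_lit 1271251), (nat_lit 1271251), (nat_lit 230000), (nat_lit 1420001), (nat_lit 230000), (nat_lit 1100000), [(nat_lit 490000), (nat_lit 1100000), (nat_lit 1442501)],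 [(nat_lit 3), (nat_lit 50), (nat_lit 317), (nat_lit 100), (nat_lit 12)]⟩,
 Rw.none,
 Rw.none⟩) (.dle (nat_lit 0))) (.trZ (nat_lit 0) (nat_lit 1) (nat_lit 3) (nat_lit 100) (nat_lit 41) (nat_lit 76) (nat_lit 50) (.trZ (nat_lit 0) (nat_lit 2) (nat_lit 4) (nat_lit 100) (nat_lit 41) (nat_lit 76) (nat_lit 50) (.leaf ⟨(nat_lit 1000), (nat_lit 0), (nat_lit 0), (nat_lit 0), (nat_lit 7852), (nat_lit 3346), (nat_lit 0), (nat_lit 0), (nat_lit 0), (nat_lit 1309469265254), (nat_lit 400000), [((nat_lit 390), [((nat_lit 43), (nat_lit 1), (nat_lit 1000))])], ⟨(nat_lit 3), false, false, false, (nat_lit 135), (nat_lit 1581), (nat_lit 1937), [(nat_lit 1198326), (nat_lit 1201810), (nat_lit 1267315), (nat_lit 1271711), (nat_lit 1407955), (nat_lit 1406738), (nat_lit 1476988), (nat_lit 1476683)]⟩, ⟨(nat_lit 3), false, false, false, (nat_lit 124), (nat_lit 1581), (nat_lit 1937), [(nat_lit 1198326), (nat_lit 1201810), (nat_lit 1267315), (nat_lit 1271711), (nat_lit 1352066),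 (nat_lit 1352103), (nat_lit 1421086), (nat_lit 1422035)]⟩, (nat_lit 3443620), (nat_lit 53369883), (nat_lit 7262452), (nat_lit 6367665), (nat_lit 0), (nat_lit 0), [], [], [], [],
 ⟨⟨[(nat_lit 40), (nat_lit 80), (nat_lit 120)], [(nat_lit 0), (nat_lit 2833), (nat_lit 5014)], [((nat_lit 0), (nat_lit 0), (nat_lit 0)), ((nat_lit 1000), (nat_lit 389), (nat_lit 842)), ((nat_lit 1000), (nat_lit 387), (nat_lit 852))], ((nat_lit 38), (nat_lit 100), (nat_lit 93))⟩, (nat_lit 71518), (nat_lit 259), (nat_lit 259), (nat_lit 0), (nat_lit 111206), [(nat_lit 1390400006), (nat_lit 587390364), (nat_lit 37200000)], [(nat_lit 0), (nat_lit 0), (nat_lit 0)], [(nat_lit 22996208082), (nat_lit 23528525174), (nat_lit 23414045652), (nat_lit 23739690436), (nat_lit 22491527556), (nat_lit 22839225335), (nat_lit 23427544633), (nat_lit 23684831310)], (nat_lit 1271251), (nat_lit 1271251), (nat_lit 292188), (nat_lit 1421875), (nat_lit 292188), (nat_lit 1100000), [(nat_lit 490000), (nat_lit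 1100000), (nat_lit 1785001)], [(nat_lit 4), (nat_lit 51), (nat_lit 317), (nat_lit 100), (nat_lit 10)]⟩,
 Rw.none,
 Rw.none⟩)))) (.trZ (nat_lit 0) (nat_lit 1) (nat_lit 3) (nat_lit 100) (nat_lit 44) (nat_lit 86) (nat_lit 90) (.spl (nat_lit 6) (nat_lit 108) (.leaf ⟨(nat_lit 1000), (nat_lit 0), (nat_lit 0), (nat_lit 0), (nat_lit 6754), (nat_lit 3393), (nat_lit 0), (nat_lit 0), (nat_lit 0), (nat_lit 0), (nat_lit 323500), [((nat_lit 390), [((nat_lit 29), (nat_lit 0), (nat_lit 510)), ((nat_lit 29), (nat_lit 1), (nat_lit 490))])], ⟨(nat_lit 4), false, false, false, (nat_lit 174), (nat_lit 1581), (nat_lit 2237), [(nat_lit 1320243), (nat_lit 1326247), (nat_lit 1388429), (nat_lit 1396055), (nat_lit 1477224), (nat_lit 1476683), (nat_lit 1545457), (nat_lit 1546538)]⟩, ⟨(nat_lit 3), false, false, false, (nat_lit 121), (nat_lit 1581), (nat_lit 2237), [(nat_lit 1180680), (nat_lit 1188036), (nat_lit 1248867), (nat_lit 1257845), (nat_lit 1351886), (nat_lit 1352103),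 (nat_lit 1420170), (nat_lit 1422009)]⟩, (nat_lit 3867936), (nat_lit 50305956), (nat_lit 10632912), (nat_lit 6061132), (nat_lit 0), (nat_lit 0), [], [⟨(nat_lit 0), (nat_lit 100), (nat_lit 39), (nat_lit 83), (nat_lit 4583458)⟩], [], [],
 ⟨⟨[(nat_lit 40), (nat_lit 80), (nat_lit 100)], [(nat_lit 0), (nat_lit 2514), (nat_lit 3562)], [((nat_lit 0), (nat_lit 0), (nat_lit 0)), ((nat_lit 1000), (nat_lit 446), (nat_lit 804)), ((nat_lit 1000), (nat_lit 443), (nat_lit 819))], ((nat_lit 44), (nat_lit 100), (nat_lit 89))⟩, (nat_lit 0), (nat_lit 170), (nat_lit 170), (nat_lit 0), (nat_lit 70866), [(nat_lit 1481664008), (nat_lit 857173468), (nat_lit 957124000)], [(nat_lit 0), (nat_lit 0), (nat_lit 0)], [(nat_lit 21970819352), (nat_lit 22847763497), (nat_lit 23501240455), (nat_lit 24132220964), (nat_lit 22112442621), (nat_lit 22694886326), (nat_lit 23546808472), (nat_lit 24100660219)], (nat_lit 1271251), (nat_lit 1271251), (nat_lit 559688), (nat_lit 1429376), (nat_lit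 230000), (nat_lit 1100000), [(nat_lit 490000), (nat_lit 1100000), (nat_lit 1442501)], [(nat_lit 3), (nat_lit 50), (nat_lit 317), (nat_lit 100), (nat_lit 12)]⟩,
 Rw.none,
 Rw.none⟩) (.dle (nat_lit 0))))) (.spl (nat_lit 1) (nat_lit 180) (.spl (nat_lit 0) (nat_lit 385) (.spl (nat_lit 6) (nat_lit 112) (.leaf ⟨(nat_lit 1000), (nat_lit 0), (nat_lit 0), (nat_lit 0), (nat_lit 11078), (nat_lit 3454), (nat_lit 0), (nat_lit 0), (nat_lit 0), (nat_lit 3209986224819), (nat_lit 292150), [((nat_lit 385), [((nat_lit 29), (nat_lit 0), (nat_lit 719)), ((nat_lit 29), (nat_lit 1), (nat_lit 281))])], ⟨(nat_lit 3), false, false, false, (nat_lit 132), (nat_lit 1936), (nat_lit 2237), [(nat_lit 1180811), (nat_lit 1184371), (nat_lit 1249108), (nat_lit 1253377), (nat_lit 1408901), (nat_lit 1407955), (nat_lit 1477224), (nat_lit 1476988)]⟩, ⟨(nat_lit 4), false, false, true, (nat_lit 186), (nat_lit 1936), (nat_lit 2237), [(nat_lit 1351886), (nat_lit 1352066), (nat_lit 1420202),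 (nat_lit 1421092), (nat_lit 1508679), (nat_lit 1505761), (nat_lit 1577001), (nat_lit 1574794)]⟩, (nat_lit 4124080), (nat_lit 48504351), (nat_lit 6842006), (nat_lit 11653643), (nat_lit 0), (nat_lit 0), [], [⟨(nat_lit 1), (nat_lit 100), (nat_lit 41), (nat_lit 98), (nat_lit 261199006)⟩], [], [],
 ⟨⟨[(nat_lit 40), (nat_lit 80), (nat_lit 100)], [(nat_lit 0), (nat_lit 2514), (nat_lit 3562)], [((nat_lit 0), (nat_lit 0), (nat_lit 0)), ((nat_lit 1000), (nat_lit 446), (nat_lit 804)), ((nat_lit 1000), (nat_lit 443), (nat_lit 819))], ((nat_lit 44), (nat_lit 100), (nat_lit 90))⟩, (nat_lit 0), (nat_lit 150), (nat_lit 150), (nat_lit 0), (nat_lit 70935), [(nat_lit 1516441617), (nat_lit 1233088988), (nat_lit 1310835600)], [(nat_lit 0), (nat_lit 0), (nat_lit 0)], [(nat_lit 22761741676), (nat_lit 23145442847), (nat_lit 23504529891), (nat_lit 23801396141), (nat_lit 25994728385), (nat_lit 26308171824), (nat_lit 26149987027), (nat_lit 26396382207)], (nat_lit 1271251),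 (nat_lit 1271251), (nat_lit 230000), (nat_lit 1420001), (nat_lit 1100000), (nat_lit 2041876), [(nat_lit 490000), (nat_lit 1100000), (nat_lit 1442501)], [(nat_lit 3), (nat_lit 50), (nat_lit 345), (nat_lit 125), (nat_lit 12)]⟩,
 Rw.none,
 Rw.none⟩) (.dle (nat_lit 0))) (.trZ (nat_lit 0) (nat_lit 1) (nat_lit 3) (nat_lit 100) (nat_lit 41) (nat_lit 76) (nat_lit 50) (.trX (nat_lit 4) (nat_lit 0) (nat_lit 2) (nat_lit 38) (nat_lit 96) (nat_lit 100) (nat_lit 260) (.leaf ⟨(nat_lit 1000), (nat_lit 0), (nat_lit 0), (nat_lit 0), (nat_lit 9699), (nat_lit 3533), (nat_lit 0), (nat_lit 0), (nat_lit 0), (nat_lit 3082885208481), (nat_lit 383340), [((nat_lit 390), [((nat_lit 42), (nat_lit 0), (nat_lit 119)), ((nat_lit 43), (nat_lit 1), (nat_lit 881))])], ⟨(nat_lit 3), false, false, false, (nat_lit 135), (nat_lit 1581), (nat_lit 1937), [(nat_lit 1198326), (nat_lit 1201810), (nat_lit 1267315), (nat_lit 1271711), (nat_lit 1407955), (nat_lit 1406738), (nat_lit 1476988), (nat_lit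 1476683)]⟩, ⟨(nat_lit 4), false, false, true, (nat_lit 182), (nat_lit 1581), (nat_lit 1937), [(nat_lit 1352066), (nat_lit 1352103), (nat_lit 1421086), (nat_lit 1422035), (nat_lit 1491789), (nat_lit 1488692), (nat_lit 1560821), (nat_lit 1558637)]⟩, (nat_lit 4133319), (nat_lit 48539556), (nat_lit 7121350), (nat_lit 11339094), (nat_lit 0), (nat_lit 0), [], [⟨(nat_lit 1), (nat_lit 100), (nat_lit 35), (nat_lit 97), (nat_lit 286333919)⟩], [], [],
 ⟨⟨[(nat_lit 40), (nat_lit 80), (nat_lit 120)], [(nat_lit 0), (nat_lit 2833), (nat_lit 5014)], [((nat_lit 0), (nat_lit 0), (nat_lit 0)), ((nat_lit 1000), (nat_lit 389), (nat_lit 842)), ((nat_lit 1000), (nat_lit 387), (nat_lit 852))], ((nat_lit 38), (nat_lit 100), (nat_lit 93))⟩, (nat_lit 0), (nat_lit 176), (nat_lit 176), (nat_lit 0), (nat_lit 111206), [(nat_lit 1406584009), (nat_lit 650982156), (nat_lit 288099600)], [(nat_lit 0), (nat_lit 0), (nat_lit 0)], [(nat_lit 23159140427), (nat_lit 23516257993), (nat_lit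 23725835240), (nat_lit 23989586198), (nat_lit 25709027150), (nat_lit 26072739715), (nat_lit 25849191260), (nat_lit 26099590490)], (nat_lit 1271251), (nat_lit 1271251), (nat_lit 292188), (nat_lit 1421875), (nat_lit 1100000), (nat_lit 1956251), [(nat_lit 490000), (nat_lit 1100000), (nat_lit 1785001)], [(nat_lit 4), (nat_lit 51), (nat_lit 345), (nat_lit 125), (nat_lit 11)]⟩,
 Rw.none,
 Rw.none⟩)))) (.trZ (nat_lit 0) (nat_lit 1) (nat_lit 3) (nat_lit 100) (nat_lit 44) (nat_lit 86) (nat_lit 90) (.spl (nat_lit 6) (nat_lit 108) (.leaf ⟨(nat_lit 1000), (nat_lit 0), (nat_lit 0), (nat_lit 0), (nat_lit 12901), (nat_lit 3555), (nat_lit 0), (nat_lit 0), (nat_lit 0), (nat_lit 0), (nat_lit 300100), [((nat_lit 390), [((nat_lit 29), (nat_lit 0), (nat_lit 666)), ((nat_lit 29), (nat_lit 1), (nat_lit 334))])], ⟨(nat_lit 4), false, false, false, (nat_lit 174), (nat_lit 1581), (nat_lit 2237), [(nat_lit 1320243), (nat_lit 1326247), (nat_lit 1388429), (nat_lit 1396055), (nat_lit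 1477224), (nat_lit 1476683), (nat_lit 1545457), (nat_lit 1546538)]⟩, ⟨(nat_lit 4), false, false, true, (nat_lit 185), (nat_lit 1581), (nat_lit 2237), [(nat_lit 1351886), (nat_lit 1352103), (nat_lit 1420170), (nat_lit 1422009), (nat_lit 1508678), (nat_lit 1502350), (nat_lit 1577001), (nat_lit 1572296)]⟩, (nat_lit 4570171), (nat_lit 45469774), (nat_lit 10223303), (nat_lit 11306923), (nat_lit 0), (nat_lit 0), [], [⟨(nat_lit 1), (nat_lit 100), (nat_lit 38), (nat_lit 98), (nat_lit 309742806)⟩], [], [],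
 ⟨⟨[(nat_lit 40), (nat_lit 80), (nat_lit 100)], [(nat_lit 0), (nat_lit 2514), (nat_lit 3562)], [((nat_lit 0), (nat_lit 0), (nat_lit 0)), ((nat_lit 1000), (nat_lit 446), (nat_lit 804)), ((nat_lit 1000), (nat_lit 443), (nat_lit 819))], ((nat_lit 44), (nat_lit 100), (nat_lit 89))⟩, (nat_lit 0), (nat_lit 122), (nat_lit 122), (nat_lit 0), (nat_lit 70866), [(nat_lit 1507622469), (nat_lit 1288193452), (nat_lit 1221138400)], [(nat_lit 0), (nat_lit 0), (nat_lit 0)], [(nat_lit 21829475576), (nat_lit 22576385860), (nat_lit 23284680324), (nat_lit 23886421467), (nat_lit 25008750118), (nat_lit 25619916315), (nat_lit 25976828484), (nat_lit 26503920139)], (nat_lit 1271251), (nat_lit 1271251), (nat_lit 559688), (nat_lit 1429376), (nat_lit 1100000), (nat_lit 2041876), [(nat_lit 490000), (nat_lit 1100000), (nat_lit 1442501)], [(nat_lit 3), (nat_lit 50), (nat_lit 345), (nat_lit 125), (nat_lit 12)]⟩,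
 Rw.none,
 Rw.none⟩) (.dle (nat_lit 0))))))
noncomputable def c13_56 : Tr Lf :=
 (.spl (nat_lit 1) (nat_lit 180) (.trX (nat_lit 3) (nat_lit 0) (nat_lit 1) (nat_lit 44) (nat_lit 94) (nat_lit 100) (nat_lit 270) (.leaf ⟨(nat_lit 1000), (nat_lit 0), (nat_lit 0), (nat_lit 0), (nat_lit 12074), (nat_lit 3175), (nat_lit 0), (nat_lit 0), (nat_lit 0), (nat_lit 19491), (nat_lit 402000), [((nat_lit 390), [((nat_lit 43), (nat_lit 1), (nat_lit 990)), ((nat_lit 43), (nat_lit 2), (nat_lit 10))])], ⟨(nat_lit 5), false, false, true, (nat_lit 196), (nat_lit 1581), (nat_lit 2237), [(nat_lit 1408901), (nat_lit 1406738), (nat_lit 1477224), (nat_lit 1476683), (nat_lit 1508678), (nat_lit 1502350), (nat_lit 1577001), (nat_lit 1572296)]⟩, ⟨(nat_lit 3), false, false, false, (nat_lit 121), (nat_lit 1581), (nat_lit 2237), [(nat_lit 1180680), (nat_lit 1188036), (nat_lit 1248867), (nat_lit 1257845), (nat_lit 1351886), (nat_lit 1352103), (nat_lit 1420170), (nat_lit 1422009)]⟩, (nat_lit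 4096406), (nat_lit 48276757), (nat_lit 12739266), (nat_lit 5983977), (nat_lit 0), (nat_lit 0), [⟨(nat_lit 1), (nat_lit 100), (nat_lit 38), (nat_lit 98), (nat_lit 378508641)⟩], [], [], [],
 ⟨⟨[(nat_lit 40), (nat_lit 80), (nat_lit 120)], [(nat_lit 0), (nat_lit 2514), (nat_lit 4610)], [((nat_lit 0), (nat_lit 0), (nat_lit 0)), ((nat_lit 1000), (nat_lit 446), (nat_lit 804)), ((nat_lit 1000), (nat_lit 443), (nat_lit 819))], ((nat_lit 44), (nat_lit 100), (nat_lit 94))⟩, (nat_lit 0), (nat_lit 183), (nat_lit 183), (nat_lit 0), (nat_lit 112202), [(nat_lit 1390416008), (nat_lit 418469724), (nat_lit 7092000)], [(nat_lit 0), (nat_lit 0), (nat_lit 0)], [(nat_lit 23747751060), (nat_lit 24318501676), (nat_lit 25642494612), (nat_lit 26147428527), (nat_lit 23818524829), (nat_lit 24321939023), (nat_lit 25519309982), (nat_lit 25966958574)], (nat_lit 1271251), (nat_lit 1271251), (nat_lit 1271251), (nat_lit 1271251), (nat_lit 230000), (nat_lit 1100000), [(nat_lit 490000),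 (nat_lit 1100000), (nat_lit 1785001)], [(nat_lit 4), (nat_lit 51), (nat_lit 345), (nat_lit 125), (nat_lit 10)]⟩,
 Rw.none,
 Rw.none⟩)) (.spl (nat_lit 6) (nat_lit 108) (.spl (nat_lit 3) (nat_lit 280) (.spl (nat_lit 5) (nat_lit 200) (.spl (nat_lit 1) (nat_lit 220) (.leaf ⟨(nat_lit 894), (nat_lit 106), (nat_lit 0), (nat_lit 0), (nat_lit 10229), (nat_lit 3262), (nat_lit 1010), (nat_lit 0), (nat_lit 0), (nat_lit 0), (nat_lit 319800), [((nat_lit 390), [((nat_lit 29), (nat_lit 0), (nat_lit 252)), ((nat_lit 29), (nat_lit 1), (nat_lit 642))])], ⟨(nat_lit 5), false, true, true, (nat_lit 222), (nat_lit 1581), (nat_lit 2237), [(nat_lit 1477224), (nat_lit 1476683), (nat_lit 1522729), (nat_lit 1523269), (nat_lit 1591255), (nat_lit 1585955), (nat_lit 1636804), (nat_lit 1632585)]⟩, ⟨(nat_lit 3), false, false, false, (nat_lit 121), (nat_lit 1581), (nat_lit 2237), [(nat_lit 1180680), (nat_lit 1188036), (nat_lit 1248867), (nat_lit 1257845), (nat_lit 1351886), (nat_lit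 1352103), (nat_lit 1420170), (nat_lit 1422009)]⟩, (nat_lit 4312420), (nat_lit 45938236), (nat_lit 15200567), (nat_lit 5861197), (nat_lit 3), (nat_lit 0), [], [], [], [],
 ⟨⟨[(nat_lit 40), (nat_lit 80), (nat_lit 100)], [(nat_lit 0), (nat_lit 2514), (nat_lit 3562)], [((nat_lit 0), (nat_lit 0), (nat_lit 0)), ((nat_lit 1000), (nat_lit 446), (nat_lit 804)), ((nat_lit 1000), (nat_lit 443), (nat_lit 819))], ((nat_lit 44), (nat_lit 100), (nat_lit 89))⟩, (nat_lit 0), (nat_lit 148), (nat_lit 148), (nat_lit 0), (nat_lit 46178), [(nat_lit 1481260016), (nat_lit 1101163902), (nat_lit 1173020800)], [(nat_lit 0), (nat_lit 0), (nat_lit 0)], [(nat_lit 23596822513), (nat_lit 24292700162), (nat_lit 26160994294), (nat_lit 26758788399), (nat_lit 23562186738), (nat_lit 24140694885), (nat_lit 25803069095), (nat_lit 26304289714)], (nat_lit 1271251), (nat_lit 1271251), (nat_lit 1271251), (nat_lit 1271251), (nat_lit 230000), (nat_lit 1100000), [(nat_lit 490000), (nat_lit 1100000),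 (nat_lit 1442501)], [(nat_lit 3), (nat_lit 50), (nat_lit 249), (nat_lit 40), (nat_lit 8)]⟩,
 ⟨⟨[(nat_lit 120), (nat_lit 160), (nat_lit 200)], [(nat_lit 0), (nat_lit 533), (nat_lit 3597)], [((nat_lit 0), (nat_lit 0), (nat_lit 0)), ((nat_lit 960), (nat_lit 1000), (nat_lit 200)), ((nat_lit 612), (nat_lit 1000), (nat_lit 732))], ((nat_lit 0), (nat_lit 0), (nat_lit 0))⟩, (nat_lit 329679), (nat_lit 491), (nat_lit 491), (nat_lit 0), (nat_lit 182056), [(nat_lit 844608000), (nat_lit 1258432000), (nat_lit 1738400000)], [], [(nat_lit 4416609028), (nat_lit 4424980840), (nat_lit 4546568471), (nat_lit 4531261384), (nat_lit 5094145818), (nat_lit 4148320713), (nat_lit 3736853382), (nat_lit 3719059846)], (nat_lit 1271251), (nat_lit 1271251), (nat_lit 1271251), (nat_lit 1271251), (nat_lit 0), (nat_lit 1412501), [(nat_lit 1695001), (nat_lit 1271251), (nat_lit 1271251)], [(nat_lit 29), (nat_lit 66), (nat_lit 401), (nat_lit 175), (nat_lit 9)]⟩,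
 Rw.none⟩) (.leaf ⟨(nat_lit 664), (nat_lit 336), (nat_lit 0), (nat_lit 0), (nat_lit 8791), (nat_lit 4000), (nat_lit 2867), (nat_lit 0), (nat_lit 0), (nat_lit 0), (nat_lit 283200), [((nat_lit 390), [((nat_lit 29), (nat_lit 1), (nat_lit 576)), ((nat_lit 43), (nat_lit 2), (nat_lit 88))])], ⟨(nat_lit 5), false, true, true, (nat_lit 236), (nat_lit 1581), (nat_lit 2237), [(nat_lit 1522729), (nat_lit 1523269), (nat_lit 1545457), (nat_lit 1546538), (nat_lit 1636804), (nat_lit 1632585), (nat_lit 1659578), (nat_lit 1655900)]⟩, ⟨(nat_lit 3), false, false, false, (nat_lit 121), (nat_lit 1581), (nat_lit 2237), [(nat_lit 1180680), (nat_lit 1188036), (nat_lit 1248867), (nat_lit 1257845), (nat_lit 1351886), (nat_lit 1352103), (nat_lit 1420170), (nat_lit 1422009)]⟩, (nat_lit 4408801), (nat_lit 44688593), (nat_lit 16528751), (nat_lit 5782656), (nat_lit 3), (nat_lit 0), [], [], [], [],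
 ⟨⟨[(nat_lit 40), (nat_lit 80), (nat_lit 100)], [(nat_lit 0), (nat_lit 2514), (nat_lit 3562)], [((nat_lit 0), (nat_lit 0), (nat_lit 0)), ((nat_lit 1000), (nat_lit 446), (nat_lit 804)), ((nat_lit 1000), (nat_lit 443), (nat_lit 819))], ((nat_lit 44), (nat_lit 100), (nat_lit 89))⟩, (nat_lit 0), (nat_lit 154), (nat_lit 154), (nat_lit 0), (nat_lit 70866), [(nat_lit 1531181101), (nat_lit 1568250065), (nat_lit 1963923200)], [(nat_lit 0), (nat_lit 0), (nat_lit 0)], [(nat_lit 24620476200), (nat_lit 25393894200), (nat_lit 27424310500), (nat_lit 28241878750), (nat_lit 23925754866), (nat_lit 24466552616), (nat_lit 26177275700), (nat_lit 26756932450)], (nat_lit 1271251), (nat_lit 1271251), (nat_lit 1271251), (nat_lit 1271251), (nat_lit 230000), (nat_lit 1100000), [(nat_lit 490000), (nat_lit 1100000), (nat_lit 1442501)], [(nat_lit 3), (nat_lit 50), (nat_lit 249), (nat_lit 40), (nat_lit 8)]⟩,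
 ⟨⟨[(nat_lit 100), (nat_lit 160), (nat_lit 200)], [(nat_lit 0), (nat_lit 761), (nat_lit 5273)], [((nat_lit 0), (nat_lit 0), (nat_lit 0)), ((nat_lit 1000), (nat_lit 1000), (nat_lit 198)), ((nat_lit 518), (nat_lit 1000), (nat_lit 909))], ((nat_lit 0), (nat_lit 0), (nat_lit 0))⟩, (nat_lit 739790), (nat_lit 487), (nat_lit 487), (nat_lit 0), (nat_lit 203593), [(nat_lit 2100000000), (nat_lit 3988992000), (nat_lit 5510400000)], [], [(nat_lit 13958437959), (nat_lit 13985128180), (nat_lit 14558254844), (nat_lit 14616126270), (nat_lit 11855094713), (nat_lit 11885041818), (nat_lit 12263551336), (nat_lit 12290150248)], (nat_lit 1271251), (nat_lit 1271251), (nat_lit 1271251), (nat_lit 1271251), (nat_lit 0), (nat_lit 1412501), [(nat_lit 1412501), (nat_lit 1271251), (nat_lit 1271251)], [(nat_lit 25), (nat_lit 66), (nat_lit 428), (nat_lit 200), (nat_lit 9)]⟩,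
 Rw.none⟩)) (.spl (nat_lit 0) (nat_lit 385) (.spl (nat_lit 6) (nat_lit 100) (.leaf ⟨(nat_lit 599), (nat_lit 208), (nat_lit 0), (nat_lit 193), (nat_lit 8634), (nat_lit 3329), (nat_lit 4835), (nat_lit 2411), (nat_lit 0), (nat_lit 0), (nat_lit 359400), [((nat_lit 385), [((nat_lit 43), (nat_lit 2), (nat_lit 599))])], ⟨(nat_lit 5), false, true, true, (nat_lit 227), (nat_lit 1936), (nat_lit 2237), [(nat_lit 1477224), (nat_lit 1476988), (nat_lit 1545531), (nat_lit 1546004), (nat_lit 1591255), (nat_lit 1588766), (nat_lit 1659578), (nat_lit 1657798)]⟩, ⟨(nat_lit 3), false, false, false, (nat_lit 121), (nat_lit 1936), (nat_lit 2237), [(nat_lit 1180811), (nat_lit 1184371), (nat_lit 1249108), (nat_lit 1253377), (nat_lit 1351886), (nat_lit 1352066), (nat_lit 1420202), (nat_lit 1421092)]⟩, (nat_lit 4342551), (nat_lit 45526690), (nat_lit 15669171), (nat_lit 5804139), (nat_lit 5), (nat_lit 0), [], [⟨(nat_lit 0), (nat_lit 100), (nat_lit 42), (nat_lit 81), (nat_lit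 330781955)⟩], [], [⟨(nat_lit 1), (nat_lit 88), (nat_lit 100), (nat_lit 68), (nat_lit 483225)⟩],
 ⟨⟨[(nat_lit 40), (nat_lit 80), (nat_lit 100)], [(nat_lit 0), (nat_lit 2514), (nat_lit 3562)], [((nat_lit 0), (nat_lit 0), (nat_lit 0)), ((nat_lit 1000), (nat_lit 446), (nat_lit 804)), ((nat_lit 1000), (nat_lit 443), (nat_lit 819))], ((nat_lit 44), (nat_lit 100), (nat_lit 87))⟩, (nat_lit 121919), (nat_lit 142), (nat_lit 142), (nat_lit 0), (nat_lit 34068), [(nat_lit 1554806013), (nat_lit 1216269481), (nat_lit 1211451600)], [(nat_lit 0), (nat_lit 0), (nat_lit 0)], [(nat_lit 23240722382), (nat_lit 23573030048), (nat_lit 26148606139), (nat_lit 26520696084), (nat_lit 23159399684), (nat_lit 23451310090), (nat_lit 25427443831), (nat_lit 25705576132)], (nat_lit 1271251), (nat_lit 1271251), (nat_lit 1271251), (nat_lit 1271251), (nat_lit 230000), (nat_lit 1100000), [(nat_lit 490000), (nat_lit 1100000), (nat_lit 1442501)], [(nat_lit 3), (nat_lit 50), (nat_lit 249),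 (nat_lit 40), (nat_lit 8)]⟩,
 ⟨⟨[(nat_lit 120), (nat_lit 160), (nat_lit 200)], [(nat_lit 0), (nat_lit 533), (nat_lit 3597)], [((nat_lit 0), (nat_lit 0), (nat_lit 0)), ((nat_lit 960), (nat_lit 1000), (nat_lit 200)), ((nat_lit 612), (nat_lit 1000), (nat_lit 732))], ((nat_lit 0), (nat_lit 0), (nat_lit 0))⟩, (nat_lit 1246049), (nat_lit 274), (nat_lit 274), (nat_lit 0), (nat_lit 140301), [(nat_lit 3195168000), (nat_lit 4760672000), (nat_lit 6576400000)], [], [(nat_lit 10732617797), (nat_lit 11005411914), (nat_lit 11700549808), (nat_lit 11752201603), (nat_lit 14745704865), (nat_lit 14382613093), (nat_lit 14890051807), (nat_lit 14833838768)], (nat_lit 1271251), (nat_lit 1271251), (nat_lit 1271251), (nat_lit 1271251), (nat_lit 1271251), (nat_lit 1271251), [(nat_lit 1695001), (nat_lit 1271251), (nat_lit 1271251)], [(nat_lit 29), (nat_lit 66), (nat_lit 483), (nat_lit 250), (nat_lit 10)]⟩,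
 ⟨⟨[(nat_lit 140), (nat_lit 180), (nat_lit 200)], [(nat_lit 0), (nat_lit 0), (nat_lit 2835)], [((nat_lit 0), (nat_lit 0), (nat_lit 0)), ((nat_lit 0), (nat_lit 0), (nat_lit 0)), ((nat_lit 363), (nat_lit 1000), (nat_lit 798))], ((nat_lit 0), (nat_lit 0), (nat_lit 0))⟩, (nat_lit 53101), (nat_lit 300), (nat_lit 614), (nat_lit 15073300), (nat_lit 388001), [(nat_lit 1899506000), (nat_lit 2713194000), (nat_lit 3165200000)], [], [(nat_lit 12643715759), (nat_lit 12139492702), (nat_lit 10995984364), (nat_lit 10635449486), (nat_lit 12469360684), (nat_lit 11931123145), (nat_lit 10747934400), (nat_lit 10188812215)], (nat_lit 780000), (nat_lit 1271251), (nat_lit 230000), (nat_lit 1100000), (nat_lit 1271251), (nat_lit 1271251), [(nat_lit 1977501), (nat_lit 1271251), (nat_lit 1271251)], [(nat_lit 32), (nat_lit 67), (nat_lit 428), (nat_lit 200), (nat_lit 9)]⟩⟩) (.dle (nat_lit 0))) (.trZ (nat_lit 0) (nat_lit 2) (nat_lit 4) (nat_lit 100) (nat_lit 41) (nat_lit 76) (nat_lit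 50) (.leaf ⟨(nat_lit 825), (nat_lit 119), (nat_lit 0), (nat_lit 56), (nat_lit 2709), (nat_lit 3331), (nat_lit 2075), (nat_lit 714), (nat_lit 0), (nat_lit 0), (nat_lit 206250), [((nat_lit 390), [((nat_lit 29), (nat_lit 0), (nat_lit 825))])], ⟨(nat_lit 5), false, true, true, (nat_lit 227), (nat_lit 1581), (nat_lit 1937), [(nat_lit 1476988), (nat_lit 1476683), (nat_lit 1545992), (nat_lit 1546601), (nat_lit 1588766), (nat_lit 1585955), (nat_lit 1657798), (nat_lit 1655900)]⟩, ⟨(nat_lit 3), false, false, false, (nat_lit 124), (nat_lit 1581), (nat_lit 1937), [(nat_lit 1198326), (nat_lit 1201810), (nat_lit 1267315), (nat_lit 1271711), (nat_lit 1352066), (nat_lit 1352103), (nat_lit 1421086), (nat_lit 1422035)]⟩, (nat_lit 4382160), (nat_lit 45343885), (nat_lit 15589661), (nat_lit 6066454), (nat_lit 5), (nat_lit 0), [], [⟨(nat_lit 0), (nat_lit 100), (nat_lit 36), (nat_lit 85), (nat_lit 51735135)⟩], [], [⟨(nat_lit 1), (nat_lit 65), (nat_lit 100), (nat_lit 90),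 (nat_lit 26208330)⟩, ⟨(nat_lit 1), (nat_lit 88), (nat_lit 100), (nat_lit 68), (nat_lit 1727044)⟩],
 ⟨⟨[(nat_lit 40), (nat_lit 80), (nat_lit 100)], [(nat_lit 0), (nat_lit 2833), (nat_lit 3923)], [((nat_lit 0), (nat_lit 0), (nat_lit 0)), ((nat_lit 1000), (nat_lit 389), (nat_lit 842)), ((nat_lit 1000), (nat_lit 387), (nat_lit 852))], ((nat_lit 38), (nat_lit 100), (nat_lit 89))⟩, (nat_lit 349662), (nat_lit 148), (nat_lit 148), (nat_lit 0), (nat_lit 70506), [(nat_lit 1604290024), (nat_lit 2121272204), (nat_lit 2567530000)], [(nat_lit 0), (nat_lit 0), (nat_lit 0)], [(nat_lit 23865960509), (nat_lit 24195880250), (nat_lit 26309960513), (nat_lit 26593816694), (nat_lit 23917100609), (nat_lit 24209090308), (nat_lit 26124518868), (nat_lit 26377291697)], (nat_lit 1271251), (nat_lit 1271251), (nat_lit 1271251), (nat_lit 1271251), (nat_lit 292188), (nat_lit 1100000), [(nat_lit 490000), (nat_lit 1100000), (nat_lit 1442501)], [(nat_lit 3), (nat_lit 50), (nat_lit 249),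 (nat_lit 40), (nat_lit 8)]⟩,
 ⟨⟨[(nat_lit 120), (nat_lit 160), (nat_lit 200)], [(nat_lit 0), (nat_lit 533), (nat_lit 3597)], [((nat_lit 0), (nat_lit 0), (nat_lit 0)), ((nat_lit 960), (nat_lit 1000), (nat_lit 200)), ((nat_lit 612), (nat_lit 1000), (nat_lit 732))], ((nat_lit 0), (nat_lit 0), (nat_lit 0))⟩, (nat_lit 487528), (nat_lit 307), (nat_lit 307), (nat_lit 0), (nat_lit 219891), [(nat_lit 1394400000), (nat_lit 2077600000), (nat_lit 2870000000)], [], [(nat_lit 4895611959), (nat_lit 5016710109), (nat_lit 5316679341), (nat_lit 5342644284), (nat_lit 6632690997), (nat_lit 6480286534), (nat_lit 6641109709), (nat_lit 6437689900)], (nat_lit 1271251), (nat_lit 1271251), (nat_lit 1271251), (nat_lit 1271251), (nat_lit 1271251), (nat_lit 1271251), [(nat_lit 1695001), (nat_lit 1271251), (nat_lit 1271251)], [(nat_lit 29), (nat_lit 66), (nat_lit 483), (nat_lit 250), (nat_lit 10)]⟩,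
 ⟨⟨[(nat_lit 140), (nat_lit 180), (nat_lit 200)], [(nat_lit 0), (nat_lit 0), (nat_lit 2835)], [((nat_lit 0), (nat_lit 0), (nat_lit 0)), ((nat_lit 0), (nat_lit 0), (nat_lit 0)), ((nat_lit 363), (nat_lit 1000), (nat_lit 798))], ((nat_lit 0), (nat_lit 0), (nat_lit 0))⟩, (nat_lit 15407), (nat_lit 300), (nat_lit 809), (nat_lit 4373606), (nat_lit 817338), [(nat_lit 551152000), (nat_lit 787248000), (nat_lit 918400000)], [], [(nat_lit 3604212841), (nat_lit 3440837755), (nat_lit 3184458268), (nat_lit 3093966708), (nat_lit 3551522225), (nat_lit 3392586459), (nat_lit 3080895008), (nat_lit 2923652570)], (nat_lit 780000), (nat_lit 1271251), (nat_lit 292188), (nat_lit 1100000), (nat_lit 1271251), (nat_lit 1271251), [(nat_lit 1977501), (nat_lit 1271251), (nat_lit 1271251)], [(nat_lit 32), (nat_lit 67), (nat_lit 428), (nat_lit 200), (nat_lit 9)]⟩⟩)))) (.trX (nat_lit 5) (nat_lit 3) (nat_lit 4) (nat_lit 94) (nat_lit 59) (nat_lit 100) (nat_lit 370) (.spl (nat_lit 5)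 (nat_lit 200) (.spl (nat_lit 1) (nat_lit 220) (.trX (nat_lit 3) (nat_lit 0) (nat_lit 1) (nat_lit 44) (nat_lit 86) (nat_lit 100) (nat_lit 310) (.leaf ⟨(nat_lit 852), (nat_lit 148), (nat_lit 0), (nat_lit 0), (nat_lit 10520), (nat_lit 3514), (nat_lit 1410), (nat_lit 0), (nat_lit 0), (nat_lit 0), (nat_lit 294600), [((nat_lit 390), [((nat_lit 29), (nat_lit 0), (nat_lit 308)), ((nat_lit 29), (nat_lit 1), (nat_lit 544))])], ⟨(nat_lit 7), false, true, true, (nat_lit 253), (nat_lit 1581), (nat_lit 2237), [(nat_lit 1591255), (nat_lit 1585955), (nat_lit 1636804), (nat_lit 1632585), (nat_lit 1634017), (nat_lit 1626932), (nat_lit 1679566), (nat_lit 1673562)]⟩, ⟨(nat_lit 3), false, false, false, (nat_lit 121), (nat_lit 1581), (nat_lit 2237), [(nat_lit 1180680), (nat_lit 1188036), (nat_lit 1248867), (nat_lit 1257845), (nat_lit 1351886), (nat_lit 1352103), (nat_lit 1420170), (nat_lit 1422009)]⟩, (nat_lit 4509124), (nat_lit 43171035), (nat_lit 18152479), (nat_lit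 5676486), (nat_lit 3), (nat_lit 0), [⟨(nat_lit 1), (nat_lit 93), (nat_lit 38), (nat_lit 100), (nat_lit 520513320)⟩], [], [], [],
 ⟨⟨[(nat_lit 40), (nat_lit 80), (nat_lit 100)], [(nat_lit 0), (nat_lit 2514), (nat_lit 3562)], [((nat_lit 0), (nat_lit 0), (nat_lit 0)), ((nat_lit 1000), (nat_lit 446), (nat_lit 804)), ((nat_lit 1000), (nat_lit 443), (nat_lit 819))], ((nat_lit 44), (nat_lit 100), (nat_lit 89))⟩, (nat_lit 0), (nat_lit 153), (nat_lit 153), (nat_lit 0), (nat_lit 46178), [(nat_lit 1507428803), (nat_lit 1225345318), (nat_lit 1526347200)], [(nat_lit 0), (nat_lit 0), (nat_lit 0)], [(nat_lit 26626381818), (nat_lit 27264741548), (nat_lit 27906543648), (nat_lit 28615856342), (nat_lit 26152015628), (nat_lit 26596443390), (nat_lit 27069014753), (nat_lit 27528022323)], (nat_lit 1271251), (nat_lit 1271251), (nat_lit 1271251), (nat_lit 1271251), (nat_lit 230000), (nat_lit 1100000), [(nat_lit 490000), (nat_lit 1100000), (nat_lit 1442501)], [(nat_lit 3),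 (nat_lit 50), (nat_lit 249), (nat_lit 40), (nat_lit 8)]⟩,
 ⟨⟨[(nat_lit 120), (nat_lit 160), (nat_lit 200)], [(nat_lit 0), (nat_lit 533), (nat_lit 3597)], [((nat_lit 0), (nat_lit 0), (nat_lit 0)), ((nat_lit 960), (nat_lit 1000), (nat_lit 200)), ((nat_lit 612), (nat_lit 1000), (nat_lit 732))], ((nat_lit 0), (nat_lit 0), (nat_lit 0))⟩, (nat_lit 460306), (nat_lit 474), (nat_lit 474), (nat_lit 0), (nat_lit 182056), [(nat_lit 1179264000), (nat_lit 1757056000), (nat_lit 2427200000)], [], [(nat_lit 6348082113), (nat_lit 6327021998), (nat_lit 6471525634), (nat_lit 6494454330), (nat_lit 5218042337), (nat_lit 5193215999), (nat_lit 5301851138), (nat_lit 5265788141)], (nat_lit 1271251), (nat_lit 1271251), (nat_lit 1271251), (nat_lit 1271251), (nat_lit 0), (nat_lit 1412501), [(nat_lit 1695001), (nat_lit 1271251), (nat_lit 1271251)], [(nat_lit 29), (nat_lit 66), (nat_lit 428), (nat_lit 200), (nat_lit 9)]⟩,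
 Rw.none⟩)) (.leaf ⟨(nat_lit 0), (nat_lit 1000), (nat_lit 0), (nat_lit 0), (nat_lit 13349), (nat_lit 5827), (nat_lit 8075), (nat_lit 0), (nat_lit 0), (nat_lit 0), (nat_lit 0), [], Pd.none, Pd.none, (nat_lit 0), (nat_lit 1), (nat_lit 0), (nat_lit 0), (nat_lit 3), (nat_lit 0), [], [], [], [],
 ⟨⟨[(nat_lit 40), (nat_lit 80), (nat_lit 100)], [(nat_lit 0), (nat_lit 2514), (nat_lit 3562)], [((nat_lit 0), (nat_lit 0), (nat_lit 0)), ((nat_lit 1000), (nat_lit 446), (nat_lit 804)), ((nat_lit 1000), (nat_lit 443), (nat_lit 819))], ((nat_lit 44), (nat_lit 100), (nat_lit 89))⟩, (nat_lit 527152), (nat_lit 163), (nat_lit 163), (nat_lit 0), (nat_lit 70866), [(nat_lit 2418856720), (nat_lit 4807542258), (nat_lit 6250000000)], [], [(nat_lit 30897800617), (nat_lit 31915190826), (nat_lit 33928891497), (nat_lit 34810247946), (nat_lit 27922591371), (nat_lit 28626154348), (nat_lit 30284130129), (nat_lit 31060384955)], (nat_lit 1271251), (nat_lit 1271251), (nat_lit 1271251),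 (nat_lit 1271251), (nat_lit 230000), (nat_lit 1100000), [(nat_lit 490000), (nat_lit 1100000), (nat_lit 1442501)], [(nat_lit 3), (nat_lit 50), (nat_lit 249), (nat_lit 40), (nat_lit 8)]⟩,
 ⟨⟨[(nat_lit 100), (nat_lit 160), (nat_lit 200)], [(nat_lit 0), (nat_lit 761), (nat_lit 5273)], [((nat_lit 0), (nat_lit 0), (nat_lit 0)), ((nat_lit 1000), (nat_lit 1000), (nat_lit 198)), ((nat_lit 518), (nat_lit 1000), (nat_lit 909))], ((nat_lit 0), (nat_lit 0), (nat_lit 0))⟩, (nat_lit 1977273), (nat_lit 469), (nat_lit 469), (nat_lit 0), (nat_lit 203593), [(nat_lit 6250000000), (nat_lit 11872000000), (nat_lit 16400000000)], [], [(nat_lit 44120956281), (nat_lit 44139357144), (nat_lit 45893918994), (nat_lit 45984018132), (nat_lit 37870729801), (nat_lit 37889165369), (nat_lit 39129713298), (nat_lit 39149644769)], (nat_lit 1271251), (nat_lit 1271251), (nat_lit 1271251), (nat_lit 1271251), (nat_lit 0), (nat_lit 1412501), [(nat_lit 1412501), (nat_lit 1271251), (nat_lit 1271251)],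 [(nat_lit 25), (nat_lit 66), (nat_lit 428), (nat_lit 200), (nat_lit 9)]⟩,
 Rw.none⟩)) (.leaf ⟨(nat_lit 362), (nat_lit 449), (nat_lit 0), (nat_lit 189), (nat_lit 2012), (nat_lit 3573), (nat_lit 5855), (nat_lit 2463), (nat_lit 0), (nat_lit 0), (nat_lit 217200), [((nat_lit 390), [((nat_lit 43), (nat_lit 2), (nat_lit 362))])], ⟨(nat_lit 7), false, true, true, (nat_lit 263), (nat_lit 1581), (nat_lit 2237), [(nat_lit 1591255), (nat_lit 1585955), (nat_lit 1659578), (nat_lit 1655900), (nat_lit 1662524), (nat_lit 1654249), (nat_lit 1730848), (nat_lit 1724195)]⟩, ⟨(nat_lit 3), false, false, false, (nat_lit 121), (nat_lit 1581), (nat_lit 2237), [(nat_lit 1180680), (nat_lit 1188036), (nat_lit 1248867), (nat_lit 1257845), (nat_lit 1351886), (nat_lit 1352103), (nat_lit 1420170), (nat_lit 1422009)]⟩, (nat_lit 4560691), (nat_lit 42263640), (nat_lit 19128592), (nat_lit 5607768), (nat_lit 5), (nat_lit 0), [⟨(nat_lit 1), (nat_lit 91), (nat_lit 38), (nat_lit 100), (nat_lit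 566280)⟩], [⟨(nat_lit 0), (nat_lit 100), (nat_lit 39), (nat_lit 83), (nat_lit 95408349)⟩], [], [⟨(nat_lit 1), (nat_lit 100), (nat_lit 94), (nat_lit 92), (nat_lit 79856087)⟩],
 ⟨⟨[(nat_lit 40), (nat_lit 80), (nat_lit 100)], [(nat_lit 0), (nat_lit 2514), (nat_lit 3562)], [((nat_lit 0), (nat_lit 0), (nat_lit 0)), ((nat_lit 1000), (nat_lit 446), (nat_lit 804)), ((nat_lit 1000), (nat_lit 443), (nat_lit 819))], ((nat_lit 44), (nat_lit 100), (nat_lit 89))⟩, (nat_lit 440902), (nat_lit 163), (nat_lit 163), (nat_lit 0), (nat_lit 70866), [(nat_lit 1651028002), (nat_lit 2494280019), (nat_lit 3205000800)], [(nat_lit 0), (nat_lit 0), (nat_lit 0)], [(nat_lit 26802171634), (nat_lit 27383873760), (nat_lit 29083572367), (nat_lit 29761593011), (nat_lit 26438218781), (nat_lit 26888259396), (nat_lit 28075932748), (nat_lit 28518452308)], (nat_lit 1271251), (nat_lit 1271251), (nat_lit 1271251), (nat_lit 1271251), (nat_lit 230000), (nat_lit 1100000), [(nat_lit 490000), (nat_lit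 1100000), (nat_lit 1442501)], [(nat_lit 3), (nat_lit 50), (nat_lit 249), (nat_lit 40), (nat_lit 8)]⟩,
 ⟨⟨[(nat_lit 120), (nat_lit 160), (nat_lit 200)], [(nat_lit 0), (nat_lit 533), (nat_lit 3597)], [((nat_lit 0), (nat_lit 0), (nat_lit 0)), ((nat_lit 960), (nat_lit 1000), (nat_lit 200)), ((nat_lit 612), (nat_lit 1000), (nat_lit 732))], ((nat_lit 0), (nat_lit 0), (nat_lit 0))⟩, (nat_lit 1769349), (nat_lit 289), (nat_lit 289), (nat_lit 0), (nat_lit 219891), [(nat_lit 5083584000), (nat_lit 7574336000), (nat_lit 10463200000)], [], [(nat_lit 20057500496), (nat_lit 20068587325), (nat_lit 21262447142), (nat_lit 21319646338), (nat_lit 23273995072), (nat_lit 22975963847), (nat_lit 24085148651), (nat_lit 23955381539)], (nat_lit 1271251), (nat_lit 1271251), (nat_lit 1271251), (nat_lit 1271251), (nat_lit 1271251), (nat_lit 1271251), [(nat_lit 1695001), (nat_lit 1271251), (nat_lit 1271251)], [(nat_lit 29), (nat_lit 66), (nat_lit 483), (nat_lit 250), (nat_lit 10)]⟩,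
 ⟨⟨[(nat_lit 140), (nat_lit 180), (nat_lit 200)], [(nat_lit 0), (nat_lit 0), (nat_lit 2835)], [((nat_lit 0), (nat_lit 0), (nat_lit 0)), ((nat_lit 0), (nat_lit 0), (nat_lit 0)), ((nat_lit 363), (nat_lit 1000), (nat_lit 798))], ((nat_lit 0), (nat_lit 0), (nat_lit 0))⟩, (nat_lit 52000), (nat_lit 300), (nat_lit 818), (nat_lit 14760900), (nat_lit 817338), [(nat_lit 1860138000), (nat_lit 2656962000), (nat_lit 3099600000)], [], [(nat_lit 12236469267), (nat_lit 11713908846), (nat_lit 10541263704), (nat_lit 10471771158), (nat_lit 11972700102), (nat_lit 11443790124), (nat_lit 10220808057), (nat_lit 9657032255)], (nat_lit 780000), (nat_lit 1271251), (nat_lit 230000), (nat_lit 1100000), (nat_lit 1271251), (nat_lit 1271251), [(nat_lit 1977501), (nat_lit 1271251), (nat_lit 1271251)], [(nat_lit 32), (nat_lit 67), (nat_lit 428), (nat_lit 200), (nat_lit 9)]⟩⟩)))) (.dle (nat_lit 0))))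
noncomputable def c13_57 : Tr Lf :=
 (.spl (nat_lit 1) (nat_lit 180) (.trX (nat_lit 3) (nat_lit 0) (nat_lit 1) (nat_lit 44) (nat_lit 94) (nat_lit 100) (nat_lit 270) (.leaf ⟨(nat_lit 1000), (nat_lit 0), (nat_lit 0), (nat_lit 0), (nat_lit 16168), (nat_lit 3275), (nat_lit 0), (nat_lit 0), (nat_lit 0), (nat_lit 144613574374), (nat_lit 401000), [((nat_lit 390), [((nat_lit 43), (nat_lit 1), (nat_lit 995)), ((nat_lit 43), (nat_lit 2), (nat_lit 5))])], ⟨(nat_lit 5), false, false, true, (nat_lit 196), (nat_lit 1581), (nat_lit 2237), [(nat_lit 1408901), (nat_lit 1406738), (nat_lit 1477224), (nat_lit 1476683), (nat_lit 1508678), (nat_lit 1502350), (nat_lit 1577001), (nat_lit 1572296)]⟩, ⟨(nat_lit 4), false, false, true, (nat_lit 185), (nat_lit 1581), (nat_lit 2237), [(nat_lit 1351886), (nat_lit 1352103), (nat_lit 1420170), (nat_lit 1422009), (nat_lit 1508678), (nat_lit 1502350), (nat_lit 1577001), (nat_lit 1572296)]⟩, (nat_lit 4766513), (nat_lit 43762879), (nat_lit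 12156324), (nat_lit 11080797), (nat_lit 0), (nat_lit 0), [⟨(nat_lit 1), (nat_lit 100), (nat_lit 38), (nat_lit 98), (nat_lit 392454451)⟩], [⟨(nat_lit 1), (nat_lit 100), (nat_lit 38), (nat_lit 98), (nat_lit 282467807)⟩], [], [],
 ⟨⟨[(nat_lit 40), (nat_lit 80), (nat_lit 120)], [(nat_lit 0), (nat_lit 2514), (nat_lit 4610)], [((nat_lit 0), (nat_lit 0), (nat_lit 0)), ((nat_lit 1000), (nat_lit 446), (nat_lit 804)), ((nat_lit 1000), (nat_lit 443), (nat_lit 819))], ((nat_lit 44), (nat_lit 100), (nat_lit 94))⟩, (nat_lit 0), (nat_lit 129), (nat_lit 129), (nat_lit 0), (nat_lit 112202), [(nat_lit 1390408004), (nat_lit 803563205), (nat_lit 22146000)], [(nat_lit 0), (nat_lit 0), (nat_lit 0)], [(nat_lit 23338287992), (nat_lit 23879376148), (nat_lit 25109201736), (nat_lit 25588426620), (nat_lit 25780442042), (nat_lit 26232644693), (nat_lit 27498939931), (nat_lit 28049649799)], (nat_lit 1271251), (nat_lit 1271251), (nat_lit 1271251), (nat_lit 1271251), (nat_lit 1100000),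 (nat_lit 2041876), [(nat_lit 490000), (nat_lit 1100000), (nat_lit 1785001)], [(nat_lit 4), (nat_lit 51), (nat_lit 373), (nat_lit 150), (nat_lit 11)]⟩,
 Rw.none,
 Rw.none⟩)) (.spl (nat_lit 6) (nat_lit 108) (.spl (nat_lit 3) (nat_lit 280) (.spl (nat_lit 2) (nat_lit 160) (.trX (nat_lit 4) (nat_lit 0) (nat_lit 2) (nat_lit 44) (nat_lit 99) (nat_lit 100) (nat_lit 250) (.spl (nat_lit 5) (nat_lit 120) (.spl (nat_lit 1) (nat_lit 220) (.leaf ⟨(nat_lit 855), (nat_lit 145), (nat_lit 0), (nat_lit 0), (nat_lit 13295), (nat_lit 3574), (nat_lit 1716), (nat_lit 0), (nat_lit 0), (nat_lit 0), (nat_lit 213750), [((nat_lit 390), [((nat_lit 29), (nat_lit 0), (nat_lit 855))])], ⟨(nat_lit 5), false, true, true, (nat_lit 222), (nat_lit 1581), (nat_lit 2237), [(nat_lit 1477224), (nat_lit 1476683), (nat_lit 1522729), (nat_lit 1523269), (nat_lit 1591255), (nat_lit 1585955), (nat_lit 1636804), (nat_lit 1632585)]⟩, ⟨(nat_lit 4), false, false, true, (nat_lit 175), (nat_lit 1581),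 (nat_lit 2237), [(nat_lit 1351886), (nat_lit 1352103), (nat_lit 1397434), (nat_lit 1398733), (nat_lit 1480171), (nat_lit 1475033), (nat_lit 1525719), (nat_lit 1521663)]⟩, (nat_lit 4865636), (nat_lit 42478961), (nat_lit 14555483), (nat_lit 9965556), (nat_lit 4), (nat_lit 0), [], [⟨(nat_lit 1), (nat_lit 100), (nat_lit 38), (nat_lit 96), (nat_lit 373493664)⟩], [], [⟨(nat_lit 0), (nat_lit 100), (nat_lit 98), (nat_lit 22), (nat_lit 37181271)⟩],
 ⟨⟨[(nat_lit 40), (nat_lit 80), (nat_lit 100)], [(nat_lit 0), (nat_lit 2514), (nat_lit 3562)], [((nat_lit 0), (nat_lit 0), (nat_lit 0)), ((nat_lit 1000), (nat_lit 446), (nat_lit 804)), ((nat_lit 1000), (nat_lit 443), (nat_lit 819))], ((nat_lit 44), (nat_lit 100), (nat_lit 89))⟩, (nat_lit 0), (nat_lit 78), (nat_lit 78), (nat_lit 0), (nat_lit 46025), [(nat_lit 1597246017), (nat_lit 1856582013), (nat_lit 2433622000)], [(nat_lit 0), (nat_lit 0), (nat_lit 0)], [(nat_lit 23200362670), (nat_lit 23842688598), (nat_lit 25621407983),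 (nat_lit 26174471911), (nat_lit 25362457453), (nat_lit 25914193546), (nat_lit 27441514403), (nat_lit 28024727334)], (nat_lit 1271251), (nat_lit 1271251), (nat_lit 1271251), (nat_lit 1271251), (nat_lit 1100000), (nat_lit 1870626), [(nat_lit 490000), (nat_lit 1100000), (nat_lit 1442501)], [(nat_lit 3), (nat_lit 50), (nat_lit 289), (nat_lit 75), (nat_lit 9)]⟩,
 ⟨⟨[(nat_lit 120), (nat_lit 160), (nat_lit 200)], [(nat_lit 0), (nat_lit 533), (nat_lit 3597)], [((nat_lit 0), (nat_lit 0), (nat_lit 0)), ((nat_lit 960), (nat_lit 1000), (nat_lit 200)), ((nat_lit 612), (nat_lit 1000), (nat_lit 732))], ((nat_lit 0), (nat_lit 0), (nat_lit 0))⟩, (nat_lit 484070), (nat_lit 478), (nat_lit 478), (nat_lit 0), (nat_lit 151393), [(nat_lit 1155360000), (nat_lit 1721440000), (nat_lit 2378000000)], [], [(nat_lit 5851728023), (nat_lit 5836345736), (nat_lit 6010137178), (nat_lit 5956047451), (nat_lit 5704450070), (nat_lit 4435604520), (nat_lit 4617277892), (nat_lit 4629903955)],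 (nat_lit 1271251), (nat_lit 1271251), (nat_lit 1271251), (nat_lit 1271251), (nat_lit 0), (nat_lit 780000), [(nat_lit 1695001), (nat_lit 1271251), (nat_lit 1271251)], [(nat_lit 29), (nat_lit 66), (nat_lit 401), (nat_lit 175), (nat_lit 9)]⟩,
 Rw.none⟩) (.leaf ⟨(nat_lit 763), (nat_lit 237), (nat_lit 0), (nat_lit 0), (nat_lit 10110), (nat_lit 4803), (nat_lit 2907), (nat_lit 0), (nat_lit 0), (nat_lit 0), (nat_lit 190750), [((nat_lit 390), [((nat_lit 29), (nat_lit 0), (nat_lit 763))])], ⟨(nat_lit 5), false, true, true, (nat_lit 236), (nat_lit 1581), (nat_lit 2237), [(nat_lit 1522729), (nat_lit 1523269), (nat_lit 1545457), (nat_lit 1546538), (nat_lit 1636804), (nat_lit 1632585), (nat_lit 1659578), (nat_lit 1655900)]⟩, ⟨(nat_lit 4), false, false, true, (nat_lit 175), (nat_lit 1581), (nat_lit 2237), [(nat_lit 1351886), (nat_lit 1352103), (nat_lit 1397434), (nat_lit 1398733), (nat_lit 1480171), (nat_lit 1475033), (nat_lit 1525719), (nat_lit 1521663)]⟩, (nat_lit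 4949179), (nat_lit 41399004), (nat_lit 15790233), (nat_lit 9810763), (nat_lit 4), (nat_lit 0), [], [⟨(nat_lit 1), (nat_lit 100), (nat_lit 38), (nat_lit 96), (nat_lit 382330769)⟩], [], [⟨(nat_lit 0), (nat_lit 100), (nat_lit 98), (nat_lit 22), (nat_lit 65036004)⟩],
 ⟨⟨[(nat_lit 40), (nat_lit 80), (nat_lit 100)], [(nat_lit 0), (nat_lit 2514), (nat_lit 3562)], [((nat_lit 0), (nat_lit 0), (nat_lit 0)), ((nat_lit 1000), (nat_lit 446), (nat_lit 804)), ((nat_lit 1000), (nat_lit 443), (nat_lit 819))], ((nat_lit 44), (nat_lit 100), (nat_lit 89))⟩, (nat_lit 0), (nat_lit 97), (nat_lit 97), (nat_lit 0), (nat_lit 70545), [(nat_lit 1772952679), (nat_lit 2532078308), (nat_lit 2844273200)], [(nat_lit 0), (nat_lit 0), (nat_lit 0)], [(nat_lit 24305222897), (nat_lit 25051225097), (nat_lit 26766204955), (nat_lit 27400656142), (nat_lit 26346748748), (nat_lit 26979670890), (nat_lit 28542054253), (nat_lit 29214763502)], (nat_lit 1271251), (nat_lit 1271251), (nat_lit 1271251),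 (nat_lit 1271251), (nat_lit 1100000), (nat_lit 1870626), [(nat_lit 490000), (nat_lit 1100000), (nat_lit 1442501)], [(nat_lit 3), (nat_lit 50), (nat_lit 289), (nat_lit 75), (nat_lit 9)]⟩,
 ⟨⟨[(nat_lit 100), (nat_lit 160), (nat_lit 200)], [(nat_lit 0), (nat_lit 761), (nat_lit 5273)], [((nat_lit 0), (nat_lit 0), (nat_lit 0)), ((nat_lit 1000), (nat_lit 1000), (nat_lit 198)), ((nat_lit 518), (nat_lit 1000), (nat_lit 909))], ((nat_lit 0), (nat_lit 0), (nat_lit 0))⟩, (nat_lit 579907), (nat_lit 473), (nat_lit 473), (nat_lit 0), (nat_lit 170711), [(nat_lit 1481250000), (nat_lit 2813664000), (nat_lit 3886800000)], [], [(nat_lit 9283458968), (nat_lit 9266786198), (nat_lit 9632567792), (nat_lit 9646747885), (nat_lit 6950186441), (nat_lit 6998215469), (nat_lit 7370697290), (nat_lit 7377823544)], (nat_lit 1271251), (nat_lit 1271251), (nat_lit 1271251), (nat_lit 1271251), (nat_lit 0), (nat_lit 780000), [(nat_lit 1412501), (nat_lit 1271251), (nat_lit 1271251)], [(nat_lit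 25), (nat_lit 66), (nat_lit 401), (nat_lit 175), (nat_lit 8)]⟩,
 Rw.none⟩)) (.leaf ⟨(nat_lit 842), (nat_lit 95), (nat_lit 0), (nat_lit 63), (nat_lit 5101), (nat_lit 4313), (nat_lit 1475), (nat_lit 583), (nat_lit 0), (nat_lit 0), (nat_lit 210500), [((nat_lit 390), [((nat_lit 29), (nat_lit 0), (nat_lit 842))])], ⟨(nat_lit 5), false, true, true, (nat_lit 227), (nat_lit 1581), (nat_lit 2237), [(nat_lit 1477224), (nat_lit 1476683), (nat_lit 1545457), (nat_lit 1546538), (nat_lit 1591255), (nat_lit 1585955), (nat_lit 1659578), (nat_lit 1655900)]⟩, ⟨(nat_lit 4), false, false, true, (nat_lit 175), (nat_lit 1581), (nat_lit 2237), [(nat_lit 1351886), (nat_lit 1352103), (nat_lit 1397434), (nat_lit 1398733), (nat_lit 1480171), (nat_lit 1475033), (nat_lit 1525719), (nat_lit 1521663)]⟩, (nat_lit 4894789), (nat_lit 42118637), (nat_lit 14966437), (nat_lit 9914926), (nat_lit 4), (nat_lit 0), [], [⟨(nat_lit 1), (nat_lit 100), (nat_lit 38), (nat_lit 96), (nat_lit 182846518)⟩],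 [], [],
 ⟨⟨[(nat_lit 40), (nat_lit 80), (nat_lit 100)], [(nat_lit 0), (nat_lit 2514), (nat_lit 3562)], [((nat_lit 0), (nat_lit 0), (nat_lit 0)), ((nat_lit 1000), (nat_lit 446), (nat_lit 804)), ((nat_lit 1000), (nat_lit 443), (nat_lit 819))], ((nat_lit 44), (nat_lit 100), (nat_lit 89))⟩, (nat_lit 0), (nat_lit 97), (nat_lit 97), (nat_lit 0), (nat_lit 70545), [(nat_lit 1698462119), (nat_lit 2212145804), (nat_lit 2491648800)], [(nat_lit 0), (nat_lit 0), (nat_lit 0)], [(nat_lit 24174568987), (nat_lit 24878472102), (nat_lit 26591408905), (nat_lit 27192293159), (nat_lit 26227272902), (nat_lit 26826995798), (nat_lit 28225993572), (nat_lit 28740668604)], (nat_lit 1271251), (nat_lit 1271251), (nat_lit 1271251), (nat_lit 1271251), (nat_lit 1100000), (nat_lit 1870626), [(nat_lit 490000), (nat_lit 1100000), (nat_lit 1442501)], [(nat_lit 3), (nat_lit 50), (nat_lit 289), (nat_lit 75), (nat_lit 9)]⟩,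
 ⟨⟨[(nat_lit 120), (nat_lit 160), (nat_lit 200)], [(nat_lit 0), (nat_lit 533), (nat_lit 3597)], [((nat_lit 0), (nat_lit 0), (nat_lit 0)), ((nat_lit 960), (nat_lit 1000), (nat_lit 200)), ((nat_lit 612), (nat_lit 1000), (nat_lit 732))], ((nat_lit 0), (nat_lit 0), (nat_lit 0))⟩, (nat_lit 411976), (nat_lit 401), (nat_lit 401), (nat_lit 0), (nat_lit 218083), [(nat_lit 1258944000), (nat_lit 1875776000), (nat_lit 2591200000)], [], [(nat_lit 5916525195), (nat_lit 4992143118), (nat_lit 5182750219), (nat_lit 5212815604), (nat_lit 7481265211), (nat_lit 5966070916), (nat_lit 6096386575), (nat_lit 5989115048)], (nat_lit 1271251), (nat_lit 1271251), (nat_lit 1271251), (nat_lit 1271251), (nat_lit 780000), (nat_lit 3072501), [(nat_lit 1695001), (nat_lit 1271251), (nat_lit 1271251)], [(nat_lit 29), (nat_lit 66), (nat_lit 483), (nat_lit 250), (nat_lit 10)]⟩,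
 ⟨⟨[(nat_lit 140), (nat_lit 180), (nat_lit 200)], [(nat_lit 0), (nat_lit 0), (nat_lit 2835)], [((nat_lit 0), (nat_lit 0), (nat_lit 0)), ((nat_lit 0), (nat_lit 0), (nat_lit 0)), ((nat_lit 363), (nat_lit 1000), (nat_lit 798))], ((nat_lit 0), (nat_lit 0), (nat_lit 0))⟩, (nat_lit 17333), (nat_lit 300), (nat_lit 759), (nat_lit 4920305), (nat_lit 817338), [(nat_lit 620046000), (nat_lit 885654000), (nat_lit 1033200000)], [], [(nat_lit 4434247830), (nat_lit 4350755419), (nat_lit 4320793136), (nat_lit 4235706791), (nat_lit 4188686995), (nat_lit 4097660864), (nat_lit 4046470100), (nat_lit 3962450087)], (nat_lit 780000), (nat_lit 1100000), (nat_lit 1100000), (nat_lit 1870626), (nat_lit 780000), (nat_lit 3072501), [(nat_lit 1977501), (nat_lit 1271251), (nat_lit 1271251)], [(nat_lit 32), (nat_lit 67), (nat_lit 456), (nat_lit 225), (nat_lit 10)]⟩⟩))) (.dle (nat_lit 0))) (.spl (nat_lit 5) (nat_lit 120) (.spl (nat_lit 1) (nat_lit 220) (.trX (nat_lit 3) (nat_lit 0)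 (nat_lit 1) (nat_lit 44) (nat_lit 86) (nat_lit 100) (nat_lit 310) (.leaf ⟨(nat_lit 892), (nat_lit 108), (nat_lit 0), (nat_lit 0), (nat_lit 17140), (nat_lit 3450), (nat_lit 1283), (nat_lit 0), (nat_lit 0), (nat_lit 0), (nat_lit 298600), [((nat_lit 390), [((nat_lit 29), (nat_lit 0), (nat_lit 388)), ((nat_lit 29), (nat_lit 1), (nat_lit 504))])], ⟨(nat_lit 7), false, true, true, (nat_lit 253), (nat_lit 1581), (nat_lit 2237), [(nat_lit 1591255), (nat_lit 1585955), (nat_lit 1636804), (nat_lit 1632585), (nat_lit 1634017), (nat_lit 1626932), (nat_lit 1679566), (nat_lit 1673562)]⟩, ⟨(nat_lit 4), false, false, true, (nat_lit 185), (nat_lit 1581), (nat_lit 2237), [(nat_lit 1351886), (nat_lit 1352103), (nat_lit 1420170), (nat_lit 1422009), (nat_lit 1508678), (nat_lit 1502350), (nat_lit 1577001), (nat_lit 1572296)]⟩, (nat_lit 5116691), (nat_lit 39482878), (nat_lit 17120086), (nat_lit 10397036), (nat_lit 4), (nat_lit 0), [⟨(nat_lit 1), (nat_lit 93), (nat_lit 38),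 (nat_lit 100), (nat_lit 396260436)⟩], [⟨(nat_lit 1), (nat_lit 100), (nat_lit 38), (nat_lit 98), (nat_lit 298020408)⟩], [], [⟨(nat_lit 0), (nat_lit 100), (nat_lit 88), (nat_lit 54), (nat_lit 31035596)⟩],
 ⟨⟨[(nat_lit 40), (nat_lit 80), (nat_lit 100)], [(nat_lit 0), (nat_lit 2514), (nat_lit 3562)], [((nat_lit 0), (nat_lit 0), (nat_lit 0)), ((nat_lit 1000), (nat_lit 446), (nat_lit 804)), ((nat_lit 1000), (nat_lit 443), (nat_lit 819))], ((nat_lit 44), (nat_lit 100), (nat_lit 89))⟩, (nat_lit 0), (nat_lit 91), (nat_lit 91), (nat_lit 0), (nat_lit 46178), [(nat_lit 1504692855), (nat_lit 1406279359), (nat_lit 1415499200)], [(nat_lit 0), (nat_lit 0), (nat_lit 0)], [(nat_lit 25858806580), (nat_lit 26371811368), (nat_lit 26876229100), (nat_lit 27384807600), (nat_lit 28102745960), (nat_lit 28554513422), (nat_lit 29036064008), (nat_lit 29552093356)], (nat_lit 1271251), (nat_lit 1271251), (nat_lit 1271251), (nat_lit 1271251), (nat_lit 1100000), (nat_lit 2041876),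 [(nat_lit 490000), (nat_lit 1100000), (nat_lit 1442501)], [(nat_lit 3), (nat_lit 50), (nat_lit 289), (nat_lit 75), (nat_lit 9)]⟩,
 ⟨⟨[(nat_lit 120), (nat_lit 160), (nat_lit 200)], [(nat_lit 0), (nat_lit 533), (nat_lit 3597)], [((nat_lit 0), (nat_lit 0), (nat_lit 0)), ((nat_lit 960), (nat_lit 1000), (nat_lit 200)), ((nat_lit 612), (nat_lit 1000), (nat_lit 732))], ((nat_lit 0), (nat_lit 0), (nat_lit 0))⟩, (nat_lit 360990), (nat_lit 462), (nat_lit 462), (nat_lit 0), (nat_lit 151393), [(nat_lit 860544000), (nat_lit 1282176000), (nat_lit 1771200000)], [], [(nat_lit 4473635540), (nat_lit 4432989475), (nat_lit 4603101212), (nat_lit 4612809242), (nat_lit 3431392832), (nat_lit 3440492552), (nat_lit 3562276769), (nat_lit 3556265996)], (nat_lit 1271251), (nat_lit 1271251), (nat_lit 1271251), (nat_lit 1271251), (nat_lit 0), (nat_lit 780000), [(nat_lit 1695001), (nat_lit 1271251), (nat_lit 1271251)], [(nat_lit 29), (nat_lit 66), (nat_lit 401), (nat_lit 175), (nat_lit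 8)]⟩,
 Rw.none⟩)) (.leaf ⟨(nat_lit 0), (nat_lit 1000), (nat_lit 0), (nat_lit 0), (nat_lit 14905), (nat_lit 6940), (nat_lit 11850), (nat_lit 0), (nat_lit 0), (nat_lit 0), (nat_lit 0), [], Pd.none, Pd.none, (nat_lit 0), (nat_lit 1), (nat_lit 0), (nat_lit 0), (nat_lit 4), (nat_lit 0), [], [⟨(nat_lit 1), (nat_lit 100), (nat_lit 38), (nat_lit 98), (nat_lit 399265626)⟩], [], [⟨(nat_lit 0), (nat_lit 100), (nat_lit 85), (nat_lit 59), (nat_lit 297644093)⟩],
 ⟨⟨[(nat_lit 40), (nat_lit 80), (nat_lit 100)], [(nat_lit 0), (nat_lit 2514), (nat_lit 3562)], [((nat_lit 0), (nat_lit 0), (nat_lit 0)), ((nat_lit 1000), (nat_lit 446), (nat_lit 804)), ((nat_lit 1000), (nat_lit 443), (nat_lit 819))], ((nat_lit 44), (nat_lit 100), (nat_lit 89))⟩, (nat_lit 0), (nat_lit 109), (nat_lit 109), (nat_lit 0), (nat_lit 70866), [(nat_lit 2682247088), (nat_lit 5248817103), (nat_lit 6250000000)], [], [(nat_lit 29396382400), (nat_lit 30175428480), (nat_lit 31723401905), (nat_lit 32438687774),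 (nat_lit 31435658337), (nat_lit 32059568406), (nat_lit 33538545851), (nat_lit 34225737246)], (nat_lit 1271251), (nat_lit 1271251), (nat_lit 1271251), (nat_lit 1271251), (nat_lit 1100000), (nat_lit 2041876), [(nat_lit 490000), (nat_lit 1100000), (nat_lit 1442501)], [(nat_lit 3), (nat_lit 50), (nat_lit 289), (nat_lit 75), (nat_lit 9)]⟩,
 ⟨⟨[(nat_lit 100), (nat_lit 160), (nat_lit 200)], [(nat_lit 0), (nat_lit 761), (nat_lit 5273)], [((nat_lit 0), (nat_lit 0), (nat_lit 0)), ((nat_lit 1000), (nat_lit 1000), (nat_lit 198)), ((nat_lit 518), (nat_lit 1000), (nat_lit 909))], ((nat_lit 0), (nat_lit 0), (nat_lit 0))⟩, (nat_lit 2261664), (nat_lit 456), (nat_lit 456), (nat_lit 0), (nat_lit 170711), [(nat_lit 6250000000), (nat_lit 11872000000), (nat_lit 16400000000)], [], [(nat_lit 41211314299), (nat_lit 41254508092), (nat_lit 44161823647), (nat_lit 44138916103), (nat_lit 32022945405), (nat_lit 32065998992), (nat_lit 34009159111), (nat_lit 33933149580)], (nat_lit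 1271251), (nat_lit 1271251), (nat_lit 1271251), (nat_lit 1271251), (nat_lit 0), (nat_lit 780000), [(nat_lit 1412501), (nat_lit 1271251), (nat_lit 1271251)], [(nat_lit 25), (nat_lit 66), (nat_lit 401), (nat_lit 175), (nat_lit 8)]⟩,
 Rw.none⟩)) (.spl (nat_lit 0) (nat_lit 385) (.spl (nat_lit 6) (nat_lit 100) (.leaf ⟨(nat_lit 0), (nat_lit 541), (nat_lit 0), (nat_lit 459), (nat_lit 29689), (nat_lit 7324), (nat_lit 9686), (nat_lit 4241), (nat_lit 0), (nat_lit 0), (nat_lit 0), [], Pd.none, Pd.none, (nat_lit 0), (nat_lit 1), (nat_lit 0), (nat_lit 0), (nat_lit 4), (nat_lit 0), [⟨(nat_lit 1), (nat_lit 89), (nat_lit 41), (nat_lit 100), (nat_lit 109398494)⟩], [], [], [],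
 ⟨⟨[(nat_lit 40), (nat_lit 80), (nat_lit 100)], [(nat_lit 0), (nat_lit 2514), (nat_lit 3562)], [((nat_lit 0), (nat_lit 0), (nat_lit 0)), ((nat_lit 1000), (nat_lit 446), (nat_lit 804)), ((nat_lit 1000), (nat_lit 443), (nat_lit 819))], ((nat_lit 44), (nat_lit 100), (nat_lit 87))⟩, (nat_lit 0), (nat_lit 89), (nat_lit 89), (nat_lit 0), (nat_lit 34068), [(nat_lit 2950358203), (nat_lit 5483045099), (nat_lit 6250000000)], [], [(nat_lit 29257023040), (nat_lit 29659567424), (nat_lit 32023392072), (nat_lit 32468806447), (nat_lit 31630141057), (nat_lit 32037648471), (nat_lit 33948440207), (nat_lit 34302753791)], (nat_lit 1271251), (nat_lit 1271251), (nat_lit 1271251), (nat_lit 1271251), (nat_lit 1100000), (nat_lit 2041876), [(nat_lit 490000), (nat_lit 1100000), (nat_lit 1442501)], [(nat_lit 3), (nat_lit 50), (nat_lit 289), (nat_lit 75), (nat_lit 9)]⟩,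
 ⟨⟨[(nat_lit 120), (nat_lit 160), (nat_lit 200)], [(nat_lit 0), (nat_lit 533), (nat_lit 3597)], [((nat_lit 0), (nat_lit 0), (nat_lit 0)), ((nat_lit 960), (nat_lit 1000), (nat_lit 200)), ((nat_lit 612), (nat_lit 1000), (nat_lit 732))], ((nat_lit 0), (nat_lit 0), (nat_lit 0))⟩, (nat_lit 3347956), (nat_lit 288), (nat_lit 288), (nat_lit 0), (nat_lit 140301), [(nat_lit 7968000000), (nat_lit 11872000000), (nat_lit 16400000000)], [], [(nat_lit 29703507018), (nat_lit 30307837020), (nat_lit 32440980828), (nat_lit 32666522120), (nat_lit 37518522595), (nat_lit 37277701048), (nat_lit 39079934731), (nat_lit 38585120905)], (nat_lit 1271251), (nat_lit 1271251), (nat_lit 1271251), (nat_lit 1271251), (nat_lit 780000), (nat_lit 3072501), [(nat_lit 1695001), (nat_lit 1271251), (nat_lit 1271251)], [(nat_lit 29), (nat_lit 66), (nat_lit 483), (nat_lit 250), (nat_lit 10)]⟩,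
 ⟨⟨[(nat_lit 140), (nat_lit 180), (nat_lit 200)], [(nat_lit 0), (nat_lit 0), (nat_lit 2835)], [((nat_lit 0), (nat_lit 0), (nat_lit 0)), ((nat_lit 0), (nat_lit 0), (nat_lit 0)), ((nat_lit 363), (nat_lit 1000), (nat_lit 798))], ((nat_lit 0), (nat_lit 0), (nat_lit 0))⟩, (nat_lit 126286), (nat_lit 300), (nat_lit 534), (nat_lit 35847900), (nat_lit 388001), [(nat_lit 4517478000), (nat_lit 6452622000), (nat_lit 7527600000)], [], [(nat_lit 28314474369), (nat_lit 27682821032), (nat_lit 27958265532), (nat_lit 27256115768), (nat_lit 28042239737), (nat_lit 27207229975), (nat_lit 28055092631), (nat_lit 31393718813)], (nat_lit 780000), (nat_lit 1271251), (nat_lit 1100000), (nat_lit 2041876), (nat_lit 780000), (nat_lit 3072501), [(nat_lit 1977501), (nat_lit 1271251), (nat_lit 1271251)], [(nat_lit 32), (nat_lit 67), (nat_lit 456), (nat_lit 225), (nat_lit 10)]⟩⟩) (.dle (nat_lit 0))) (.trX (nat_lit 3) (nat_lit 0) (nat_lit 1) (nat_lit 39) (nat_lit 85) (nat_lit 100)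 (nat_lit 320) (.trX (nat_lit 4) (nat_lit 0) (nat_lit 2) (nat_lit 38) (nat_lit 96) (nat_lit 100) (nat_lit 260) (.leaf ⟨(nat_lit 631), (nat_lit 221), (nat_lit 0), (nat_lit 148), (nat_lit 2747), (nat_lit 4987), (nat_lit 3446), (nat_lit 1273), (nat_lit 0), (nat_lit 0), (nat_lit 157750), [((nat_lit 390), [((nat_lit 29), (nat_lit 0), (nat_lit 631))])], ⟨(nat_lit 7), false, true, true, (nat_lit 260), (nat_lit 1581), (nat_lit 1937), [(nat_lit 1588766), (nat_lit 1585955), (nat_lit 1657798), (nat_lit 1655900), (nat_lit 1644655), (nat_lit 1640591), (nat_lit 1713688), (nat_lit 1710536)]⟩, ⟨(nat_lit 4), false, false, true, (nat_lit 182), (nat_lit 1581), (nat_lit 1937), [(nat_lit 1352066), (nat_lit 1352103), (nat_lit 1421086), (nat_lit 1422035), (nat_lit 1491789), (nat_lit 1488692), (nat_lit 1560821), (nat_lit 1558637)]⟩, (nat_lit 5123478), (nat_lit 39141504), (nat_lit 17780688), (nat_lit 10077808), (nat_lit 4), (nat_lit 0), [⟨(nat_lit 1), (nat_lit 92), (nat_lit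 35), (nat_lit 100), (nat_lit 300036232)⟩], [⟨(nat_lit 1), (nat_lit 100), (nat_lit 35), (nat_lit 97), (nat_lit 140064003)⟩], [], [],
 ⟨⟨[(nat_lit 40), (nat_lit 80), (nat_lit 100)], [(nat_lit 0), (nat_lit 2833), (nat_lit 3923)], [((nat_lit 0), (nat_lit 0), (nat_lit 0)), ((nat_lit 1000), (nat_lit 389), (nat_lit 842)), ((nat_lit 1000), (nat_lit 387), (nat_lit 852))], ((nat_lit 38), (nat_lit 100), (nat_lit 89))⟩, (nat_lit 0), (nat_lit 106), (nat_lit 106), (nat_lit 0), (nat_lit 70506), [(nat_lit 1867625287), (nat_lit 3007018745), (nat_lit 3433468400)], [(nat_lit 0), (nat_lit 0), (nat_lit 0)], [(nat_lit 27611921094), (nat_lit 27935218392), (nat_lit 29131712952), (nat_lit 29428378572), (nat_lit 29430294108), (nat_lit 29745523151), (nat_lit 30931637979), (nat_lit 31235298143)], (nat_lit 1271251), (nat_lit 1271251), (nat_lit 1271251), (nat_lit 1271251), (nat_lit 1100000), (nat_lit 1956251), [(nat_lit 490000), (nat_lit 1100000), (nat_lit 1442501)], [(nat_lit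 3), (nat_lit 50), (nat_lit 289), (nat_lit 75), (nat_lit 9)]⟩,
 ⟨⟨[(nat_lit 120), (nat_lit 160), (nat_lit 200)], [(nat_lit 0), (nat_lit 533), (nat_lit 3597)], [((nat_lit 0), (nat_lit 0), (nat_lit 0)), ((nat_lit 960), (nat_lit 1000), (nat_lit 200)), ((nat_lit 612), (nat_lit 1000), (nat_lit 732))], ((nat_lit 0), (nat_lit 0), (nat_lit 0))⟩, (nat_lit 1033917), (nat_lit 324), (nat_lit 324), (nat_lit 0), (nat_lit 219891), [(nat_lit 2940192000), (nat_lit 4380768000), (nat_lit 6051600000)], [], [(nat_lit 11844342964), (nat_lit 11914931402), (nat_lit 12414528521), (nat_lit 12542140335), (nat_lit 13979608073), (nat_lit 13909733079), (nat_lit 14384048407), (nat_lit 14243858023)], (nat_lit 1271251), (nat_lit 1271251), (nat_lit 1271251), (nat_lit 1271251), (nat_lit 780000), (nat_lit 3072501), [(nat_lit 1695001), (nat_lit 1271251), (nat_lit 1271251)], [(nat_lit 29), (nat_lit 66), (nat_lit 483), (nat_lit 250), (nat_lit 10)]⟩,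
 ⟨⟨[(nat_lit 140), (nat_lit 180), (nat_lit 200)], [(nat_lit 0), (nat_lit 0), (nat_lit 2835)], [((nat_lit 0), (nat_lit 0), (nat_lit 0)), ((nat_lit 0), (nat_lit 0), (nat_lit 0)), ((nat_lit 363), (nat_lit 1000), (nat_lit 798))], ((nat_lit 0), (nat_lit 0), (nat_lit 0))⟩, (nat_lit 40720), (nat_lit 300), (nat_lit 759), (nat_lit 11558800), (nat_lit 817338), [(nat_lit 1456616000), (nat_lit 2080584000), (nat_lit 2427200000)], [], [(nat_lit 10733471494), (nat_lit 10500000067), (nat_lit 10488879537), (nat_lit 10246867211), (nat_lit 10239991128), (nat_lit 9976291793), (nat_lit 9921686541), (nat_lit 9654047482)], (nat_lit 780000), (nat_lit 1271251), (nat_lit 1100000), (nat_lit 1956251), (nat_lit 780000), (nat_lit 3072501), [(nat_lit 1977501), (nat_lit 1271251), (nat_lit 1271251)], [(nat_lit 32), (nat_lit 67), (nat_lit 456), (nat_lit 225), (nat_lit 10)]⟩⟩)))))) (.dle (nat_lit 0))))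
noncomputable def c13_58 : Tr Lf :=
 (.ord (.trX (nat_lit 3) (nat_lit 0) (nat_lit 1) (nat_lit 31) (nat_lit 98) (nat_lit 100) (nat_lit 250) (.trX (nat_lit 4) (nat_lit 0) (nat_lit 2) (nat_lit 31) (nat_lit 98) (nat_lit 100) (nat_lit 250) (.spl (nat_lit 3) (nat_lit 160) (.spl (nat_lit 4) (nat_lit 160) (.spl (nat_lit 0) (nat_lit 395) (.spl (nat_lit 6) (nat_lit 152) (.leaf ⟨(nat_lit 1000), (nat_lit 0), (nat_lit 0), (nat_lit 0), (nat_lit 8159), (nat_lit 3466), (nat_lit 0), (nat_lit 0), (nat_lit 0), (nat_lit 2224575453), (nat_lit 260000), [((nat_lit 395), [((nat_lit 42), (nat_lit 0), (nat_lit 1000))])], ⟨(nat_lit 3), false, false, false, (nat_lit 128), (nat_lit 1118), (nat_lit 1582), [(nat_lit 1215422), (nat_lit 1218958), (nat_lit 1285268), (nat_lit 1290113), (nat_lit 1352103), (nat_lit 1351868), (nat_lit 1422017), (nat_lit 1423090)]⟩, ⟨(nat_lit 3), false, false, false, (nat_lit 128), (nat_lit 1118), (nat_lit 1582), [(nat_lit 1215422), (nat_lit 1218958),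 (nat_lit 1285268), (nat_lit 1290113), (nat_lit 1352103), (nat_lit 1351868), (nat_lit 1422017), (nat_lit 1423090)]⟩, (nat_lit 3392682), (nat_lit 53688136), (nat_lit 6655932), (nat_lit 6655932), (nat_lit 0), (nat_lit 0), [], [], [], [],
 ⟨⟨[(nat_lit 40), (nat_lit 80), (nat_lit 120)], [(nat_lit 0), (nat_lit 3225), (nat_lit 5518)], [((nat_lit 0), (nat_lit 0), (nat_lit 0)), ((nat_lit 1000), (nat_lit 321), (nat_lit 877)), ((nat_lit 1000), (nat_lit 317), (nat_lit 896))], ((nat_lit 31), (nat_lit 100), (nat_lit 97))⟩, (nat_lit 377704), (nat_lit 258), (nat_lit 258), (nat_lit 0), (nat_lit 149591), [(nat_lit 1526400046), (nat_lit 1706936744), (nat_lit 2145600000)], [(nat_lit 0), (nat_lit 0), (nat_lit 0)], [(nat_lit 23188275437), (nat_lit 23582651737), (nat_lit 23124598529), (nat_lit 23436053945), (nat_lit 23124598529), (nat_lit 23436053945), (nat_lit 23340173413), (nat_lit 23617881409)], (nat_lit 1271251), (nat_lit 1271251), (nat_lit 356250), (nat_lit 1100000),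 (nat_lit 356250), (nat_lit 1100000), [(nat_lit 490000), (nat_lit 1100000), (nat_lit 1785001)], [(nat_lit 4), (nat_lit 51), (nat_lit 317), (nat_lit 100), (nat_lit 10)]⟩,
 Rw.none,
 Rw.none⟩) (.dle (nat_lit 0))) (.trZ (nat_lit 0) (nat_lit 1) (nat_lit 3) (nat_lit 100) (nat_lit 24) (nat_lit 88) (nat_lit 80) (.trZ (nat_lit 0) (nat_lit 2) (nat_lit 4) (nat_lit 100) (nat_lit 24) (nat_lit 88) (nat_lit 80) (.leaf ⟨(nat_lit 1000), (nat_lit 0), (nat_lit 0), (nat_lit 0), (nat_lit 8167), (nat_lit 3620), (nat_lit 0), (nat_lit 0), (nat_lit 0), (nat_lit 10135720698), (nat_lit 280000), [((nat_lit 400), [((nat_lit 43), (nat_lit 0), (nat_lit 1000))])], ⟨(nat_lit 3), false, false, false, (nat_lit 134), (nat_lit 0), (nat_lit 1119), [(nat_lit 1244686), (nat_lit 1249071), (nat_lit 1314543), (nat_lit 1322675), (nat_lit 1351866), (nat_lit 1349997), (nat_lit 1422657), (nat_lit 1424535)]⟩, ⟨(nat_lit 3), false, false, false, (nat_lit 134), (nat_lit 0), (nat_lit 1119), [(nat_lit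 1244686), (nat_lit 1249071), (nat_lit 1314543), (nat_lit 1322675), (nat_lit 1351866), (nat_lit 1349997), (nat_lit 1422657), (nat_lit 1424535)]⟩, (nat_lit 3555403), (nat_lit 52711718), (nat_lit 7144141), (nat_lit 7144141), (nat_lit 0), (nat_lit 0), [⟨(nat_lit 1), (nat_lit 100), (nat_lit 16), (nat_lit 97), (nat_lit 124579637)⟩], [⟨(nat_lit 1), (nat_lit 100), (nat_lit 16), (nat_lit 97), (nat_lit 126639986)⟩], [], [],
 ⟨⟨[(nat_lit 40), (nat_lit 80), (nat_lit 120)], [(nat_lit 0), (nat_lit 3758), (nat_lit 6151)], [((nat_lit 0), (nat_lit 0), (nat_lit 0)), ((nat_lit 1000), (nat_lit 228), (nat_lit 923)), ((nat_lit 1000), (nat_lit 226), (nat_lit 935))], ((nat_lit 22), (nat_lit 100), (nat_lit 99))⟩, (nat_lit 334895), (nat_lit 243), (nat_lit 243), (nat_lit 0), (nat_lit 186956), [(nat_lit 1486400003), (nat_lit 1572025948), (nat_lit 1844400000)], [(nat_lit 0), (nat_lit 0), (nat_lit 0)], [(nat_lit 22330054075), (nat_lit 22866329360), (nat_lit 22644951205), (nat_lit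 23023142800), (nat_lit 22644951205), (nat_lit 23023142800), (nat_lit 22993082556), (nat_lit 23276706455)], (nat_lit 1271251), (nat_lit 1271251), (nat_lit 490000), (nat_lit 1100000), (nat_lit 490000), (nat_lit 1100000), [(nat_lit 490000), (nat_lit 1100000), (nat_lit 1785001)], [(nat_lit 4), (nat_lit 51), (nat_lit 317), (nat_lit 100), (nat_lit 10)]⟩,
 Rw.none,
 Rw.none⟩)))) (.spl (nat_lit 0) (nat_lit 395) (.spl (nat_lit 6) (nat_lit 152) (.leaf ⟨(nat_lit 1000), (nat_lit 0), (nat_lit 0), (nat_lit 0), (nat_lit 10557), (nat_lit 3550), (nat_lit 0), (nat_lit 0), (nat_lit 0), (nat_lit 2590055050970), (nat_lit 260000), [((nat_lit 395), [((nat_lit 42), (nat_lit 0), (nat_lit 1000))])], ⟨(nat_lit 3), false, false, false, (nat_lit 128), (nat_lit 1118), (nat_lit 1582), [(nat_lit 1215422), (nat_lit 1218958), (nat_lit 1285268), (nat_lit 1290113), (nat_lit 1352103), (nat_lit 1351868), (nat_lit 1422017), (nat_lit 1423090)]⟩, ⟨(nat_lit 4), false, false, true, (nat_lit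 179), (nat_lit 1118), (nat_lit 1582), [(nat_lit 1352103), (nat_lit 1351868), (nat_lit 1422017), (nat_lit 1423090), (nat_lit 1475033), (nat_lit 1471404), (nat_lit 1544978), (nat_lit 1542657)]⟩, (nat_lit 4010881), (nat_lit 49349301), (nat_lit 6562578), (nat_lit 11088121), (nat_lit 0), (nat_lit 0), [], [⟨(nat_lit 1), (nat_lit 100), (nat_lit 27), (nat_lit 97), (nat_lit 417683231)⟩], [], [],
 ⟨⟨[(nat_lit 40), (nat_lit 80), (nat_lit 120)], [(nat_lit 0), (nat_lit 3225), (nat_lit 5518)], [((nat_lit 0), (nat_lit 0), (nat_lit 0)), ((nat_lit 1000), (nat_lit 321), (nat_lit 877)), ((nat_lit 1000), (nat_lit 317), (nat_lit 896))], ((nat_lit 31), (nat_lit 100), (nat_lit 97))⟩, (nat_lit 335035), (nat_lit 183), (nat_lit 183), (nat_lit 0), (nat_lit 149591), [(nat_lit 1526400093), (nat_lit 1599108719), (nat_lit 2145600000)], [(nat_lit 0), (nat_lit 0), (nat_lit 0)], [(nat_lit 23287891708), (nat_lit 23643326014), (nat_lit 23426509331), (nat_lit 23707239794), (nat_lit 25427486920),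 (nat_lit 25731259904), (nat_lit 25277445028), (nat_lit 25520145842)], (nat_lit 1271251), (nat_lit 1271251), (nat_lit 356250), (nat_lit 1100000), (nat_lit 1100000), (nat_lit 1870626), [(nat_lit 490000), (nat_lit 1100000), (nat_lit 1785001)], [(nat_lit 4), (nat_lit 51), (nat_lit 345), (nat_lit 125), (nat_lit 10)]⟩,
 Rw.none,
 Rw.none⟩) (.dle (nat_lit 0))) (.trZ (nat_lit 0) (nat_lit 1) (nat_lit 3) (nat_lit 100) (nat_lit 24) (nat_lit 88) (nat_lit 80) (.trX (nat_lit 4) (nat_lit 0) (nat_lit 2) (nat_lit 22) (nat_lit 100) (nat_lit 100) (nat_lit 230) (.leaf ⟨(nat_lit 1000), (nat_lit 0), (nat_lit 0), (nat_lit 0), (nat_lit 11410), (nat_lit 3645), (nat_lit 0), (nat_lit 0), (nat_lit 0), (nat_lit 3311278270358), (nat_lit 280000), [((nat_lit 400), [((nat_lit 43), (nat_lit 0), (nat_lit 1000))])], ⟨(nat_lit 3), false, false, false, (nat_lit 134), (nat_lit 0), (nat_lit 1119), [(nat_lit 1244686), (nat_lit 1249071), (nat_lit 1314543), (nat_lit 1322675), (nat_lit 1351866),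 (nat_lit 1349997), (nat_lit 1422657), (nat_lit 1424535)]⟩, ⟨(nat_lit 4), false, false, true, (nat_lit 173), (nat_lit 0), (nat_lit 1119), [(nat_lit 1351866), (nat_lit 1349997), (nat_lit 1422657), (nat_lit 1424535), (nat_lit 1444835), (nat_lit 1437494), (nat_lit 1516091), (nat_lit 1512496)]⟩, (nat_lit 4020544), (nat_lit 49447201), (nat_lit 7052784), (nat_lit 10500015), (nat_lit 0), (nat_lit 0), [], [⟨(nat_lit 1), (nat_lit 100), (nat_lit 16), (nat_lit 97), (nat_lit 843328361)⟩], [], [],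
 ⟨⟨[(nat_lit 40), (nat_lit 80), (nat_lit 120)], [(nat_lit 0), (nat_lit 3758), (nat_lit 6151)], [((nat_lit 0), (nat_lit 0), (nat_lit 0)), ((nat_lit 1000), (nat_lit 228), (nat_lit 923)), ((nat_lit 1000), (nat_lit 226), (nat_lit 935))], ((nat_lit 22), (nat_lit 100), (nat_lit 99))⟩, (nat_lit 329858), (nat_lit 183), (nat_lit 183), (nat_lit 0), (nat_lit 186956), [(nat_lit 1486400009), (nat_lit 1562147222), (nat_lit 1844400000)], [(nat_lit 0), (nat_lit 0), (nat_lit 0)], [(nat_lit 22677965167), (nat_lit 23059461300), (nat_lit 22980950096), (nat_lit 23302057460), (nat_lit 24488222624), (nat_lit 24912976338), (nat_lit 24657099811), (nat_lit 25040157495)], (nat_lit 1271251), (nat_lit 1271251), (nat_lit 490000), (nat_lit 1100000), (nat_lit 1100000), (nat_lit 1699376), [(nat_lit 490000), (nat_lit 1100000), (nat_lit 1785001)], [(nat_lit 4), (nat_lit 51), (nat_lit 317), (nat_lit 100), (nat_lit 9)]⟩,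
 Rw.none,
 Rw.none⟩))))) (.spl (nat_lit 4) (nat_lit 160) (.spl (nat_lit 1) (nat_lit 160) (.ord (.trX (nat_lit 3) (nat_lit 0) (nat_lit 1) (nat_lit 31) (nat_lit 100) (nat_lit 99) (nat_lit 230) (.leaf ⟨(nat_lit 1000), (nat_lit 0), (nat_lit 0), (nat_lit 0), (nat_lit 9809), (nat_lit 3702), (nat_lit 0), (nat_lit 0), (nat_lit 0), (nat_lit 98354), (nat_lit 260000), [((nat_lit 400), [((nat_lit 42), (nat_lit 0), (nat_lit 1000))])], ⟨(nat_lit 4), false, false, true, (nat_lit 168), (nat_lit 0), (nat_lit 1582), [(nat_lit 1352101), (nat_lit 1349997), (nat_lit 1398733), (nat_lit 1399999), (nat_lit 1447710), (nat_lit 1437494), (nat_lit 1494343), (nat_lit 1487497)]⟩, ⟨(nat_lit 3), false, false, false, (nat_lit 123), (nat_lit 0), (nat_lit 1582), [(nat_lit 1213552), (nat_lit 1223038), (nat_lit 1258869), (nat_lit 1271724), (nat_lit 1352101), (nat_lit 1349997), (nat_lit 1398733), (nat_lit 1399999)]⟩, (nat_lit 3837580), (nat_lit 50620422), (nat_lit 10129267), (nat_lit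 6250311), (nat_lit 0), (nat_lit 0), [⟨(nat_lit 1), (nat_lit 100), (nat_lit 22), (nat_lit 96), (nat_lit 564575382)⟩], [], [], [],
 ⟨⟨[(nat_lit 40), (nat_lit 80), (nat_lit 120)], [(nat_lit 0), (nat_lit 3225), (nat_lit 5518)], [((nat_lit 0), (nat_lit 0), (nat_lit 0)), ((nat_lit 1000), (nat_lit 321), (nat_lit 877)), ((nat_lit 1000), (nat_lit 317), (nat_lit 896))], ((nat_lit 31), (nat_lit 100), (nat_lit 99))⟩, (nat_lit 322342), (nat_lit 196), (nat_lit 196), (nat_lit 0), (nat_lit 186174), [(nat_lit 1526400024), (nat_lit 1648203108), (nat_lit 2145600000)], [(nat_lit 0), (nat_lit 0), (nat_lit 0)], [(nat_lit 23396165268), (nat_lit 24122209902), (nat_lit 24956981781), (nat_lit 25703898724), (nat_lit 23226727963), (nat_lit 23839653004), (nat_lit 24619865417), (nat_lit 25195212580)], (nat_lit 1271251), (nat_lit 1271251), (nat_lit 1100000), (nat_lit 1699376), (nat_lit 356250), (nat_lit 1100000), [(nat_lit 490000), (nat_lit 1100000), (nat_lit 1785001)], [(nat_lit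 4), (nat_lit 51), (nat_lit 317), (nat_lit 100), (nat_lit 10)]⟩,
 Rw.none,
 Rw.none⟩))) (.spl (nat_lit 6) (nat_lit 132) (.leaf ⟨(nat_lit 1000), (nat_lit 0), (nat_lit 0), (nat_lit 0), (nat_lit 6927), (nat_lit 3647), (nat_lit 0), (nat_lit 0), (nat_lit 0), (nat_lit 11875), (nat_lit 260000), [((nat_lit 400), [((nat_lit 42), (nat_lit 0), (nat_lit 1000))])], ⟨(nat_lit 4), false, false, true, (nat_lit 188), (nat_lit 0), (nat_lit 1582), [(nat_lit 1398733), (nat_lit 1399999), (nat_lit 1421394), (nat_lit 1424345), (nat_lit 1521659), (nat_lit 1512494), (nat_lit 1544976), (nat_lit 1537497)]⟩, ⟨(nat_lit 3), false, false, false, (nat_lit 128), (nat_lit 0), (nat_lit 1582), [(nat_lit 1213552), (nat_lit 1223038), (nat_lit 1281527), (nat_lit 1296068), (nat_lit 1352101), (nat_lit 1349997), (nat_lit 1421394), (nat_lit 1424345)]⟩, (nat_lit 4102077), (nat_lit 48554183), (nat_lit 11905884), (nat_lit 6539933), (nat_lit 0), (nat_lit 0), [⟨(nat_lit 1), (nat_lit 100), (nat_lit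 22), (nat_lit 99), (nat_lit 466824126)⟩], [⟨(nat_lit 0), (nat_lit 100), (nat_lit 23), (nat_lit 92), (nat_lit 18727495)⟩], [], [],
 ⟨⟨[(nat_lit 40), (nat_lit 80), (nat_lit 100)], [(nat_lit 0), (nat_lit 3225), (nat_lit 4371)], [((nat_lit 0), (nat_lit 0), (nat_lit 0)), ((nat_lit 1000), (nat_lit 321), (nat_lit 877)), ((nat_lit 1000), (nat_lit 317), (nat_lit 896))], ((nat_lit 31), (nat_lit 100), (nat_lit 94))⟩, (nat_lit 75035), (nat_lit 157), (nat_lit 157), (nat_lit 0), (nat_lit 123744), [(nat_lit 1526400003), (nat_lit 1303036573), (nat_lit 1673600000)], [(nat_lit 0), (nat_lit 0), (nat_lit 0)], [(nat_lit 23143955534), (nat_lit 23921710897), (nat_lit 25481583448), (nat_lit 26306768382), (nat_lit 23313768011), (nat_lit 23877481609), (nat_lit 25281172895), (nat_lit 25806408787)], (nat_lit 1271251), (nat_lit 1271251), (nat_lit 1100000), (nat_lit 1870626), (nat_lit 356250), (nat_lit 1100000), [(nat_lit 490000), (nat_lit 1100000), (nat_lit 1442501)], [(nat_lit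 3), (nat_lit 50), (nat_lit 345), (nat_lit 125), (nat_lit 12)]⟩,
 Rw.none,
 Rw.none⟩) (.dle (nat_lit 0)))) (.spl (nat_lit 0) (nat_lit 395) (.spl (nat_lit 6) (nat_lit 152) (.leaf ⟨(nat_lit 1000), (nat_lit 0), (nat_lit 0), (nat_lit 0), (nat_lit 13645), (nat_lit 3482), (nat_lit 0), (nat_lit 0), (nat_lit 0), (nat_lit 138771500757), (nat_lit 260000), [((nat_lit 395), [((nat_lit 42), (nat_lit 0), (nat_lit 1000))])], ⟨(nat_lit 4), false, false, true, (nat_lit 179), (nat_lit 1118), (nat_lit 1582), [(nat_lit 1352103), (nat_lit 1351868), (nat_lit 1422017), (nat_lit 1423090), (nat_lit 1475033), (nat_lit 1471404), (nat_lit 1544978), (nat_lit 1542657)]⟩, ⟨(nat_lit 4), false, false, true, (nat_lit 179), (nat_lit 1118), (nat_lit 1582), [(nat_lit 1352103), (nat_lit 1351868), (nat_lit 1422017), (nat_lit 1423090), (nat_lit 1475033), (nat_lit 1471404), (nat_lit 1544978), (nat_lit 1542657)]⟩, (nat_lit 4563817), (nat_lit 45544462), (nat_lit 10727769), (nat_lit 10727769),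 (nat_lit 0), (nat_lit 0), [⟨(nat_lit 1), (nat_lit 100), (nat_lit 27), (nat_lit 97), (nat_lit 396989629)⟩], [⟨(nat_lit 1), (nat_lit 100), (nat_lit 27), (nat_lit 97), (nat_lit 396989509)⟩], [], [],
 ⟨⟨[(nat_lit 40), (nat_lit 80), (nat_lit 120)], [(nat_lit 0), (nat_lit 3225), (nat_lit 5518)], [((nat_lit 0), (nat_lit 0), (nat_lit 0)), ((nat_lit 1000), (nat_lit 321), (nat_lit 877)), ((nat_lit 1000), (nat_lit 317), (nat_lit 896))], ((nat_lit 31), (nat_lit 100), (nat_lit 97))⟩, (nat_lit 353128), (nat_lit 144), (nat_lit 144), (nat_lit 0), (nat_lit 149591), [(nat_lit 1526400028), (nat_lit 2032562477), (nat_lit 2145600000)], [(nat_lit 0), (nat_lit 0), (nat_lit 0)], [(nat_lit 23154651256), (nat_lit 23450511766), (nat_lit 25068568456), (nat_lit 25323846291), (nat_lit 25068568456), (nat_lit 25323846291), (nat_lit 26890304928), (nat_lit 27197251422)], (nat_lit 1271251), (nat_lit 1271251), (nat_lit 1100000), (nat_lit 1870626), (nat_lit 1100000), (nat_lit 1870626),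 [(nat_lit 490000), (nat_lit 1100000), (nat_lit 1785001)], [(nat_lit 4), (nat_lit 51), (nat_lit 345), (nat_lit 125), (nat_lit 10)]⟩,
 Rw.none,
 Rw.none⟩) (.dle (nat_lit 0))) (.trX (nat_lit 3) (nat_lit 0) (nat_lit 1) (nat_lit 22) (nat_lit 100) (nat_lit 100) (nat_lit 230) (.trX (nat_lit 4) (nat_lit 0) (nat_lit 2) (nat_lit 22) (nat_lit 100) (nat_lit 100) (nat_lit 230) (.leaf ⟨(nat_lit 1000), (nat_lit 0), (nat_lit 0), (nat_lit 0), (nat_lit 15413), (nat_lit 3327), (nat_lit 0), (nat_lit 0), (nat_lit 0), (nat_lit 143234626879), (nat_lit 280000), [((nat_lit 400), [((nat_lit 43), (nat_lit 0), (nat_lit 1000))])], ⟨(nat_lit 4), false, false, true, (nat_lit 173), (nat_lit 0), (nat_lit 1119), [(nat_lit 1351866), (nat_lit 1349997), (nat_lit 1422657), (nat_lit 1424535), (nat_lit 1444835), (nat_lit 1437494), (nat_lit 1516091), (nat_lit 1512496)]⟩, ⟨(nat_lit 4), false, false, true, (nat_lit 173), (nat_lit 0), (nat_lit 1119), [(nat_lit 1351866), (nat_lit 1349997), (nat_lit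 1422657), (nat_lit 1424535), (nat_lit 1444835), (nat_lit 1437494), (nat_lit 1516091), (nat_lit 1512496)]⟩, (nat_lit 4447537), (nat_lit 46493828), (nat_lit 10253086), (nat_lit 10253086), (nat_lit 0), (nat_lit 0), [⟨(nat_lit 1), (nat_lit 100), (nat_lit 16), (nat_lit 97), (nat_lit 762658983)⟩], [⟨(nat_lit 1), (nat_lit 100), (nat_lit 16), (nat_lit 97), (nat_lit 762658850)⟩], [], [],
 ⟨⟨[(nat_lit 40), (nat_lit 80), (nat_lit 120)], [(nat_lit 0), (nat_lit 3758), (nat_lit 6151)], [((nat_lit 0), (nat_lit 0), (nat_lit 0)), ((nat_lit 1000), (nat_lit 228), (nat_lit 923)), ((nat_lit 1000), (nat_lit 226), (nat_lit 935))], ((nat_lit 22), (nat_lit 100), (nat_lit 99))⟩, (nat_lit 377484), (nat_lit 158), (nat_lit 158), (nat_lit 0), (nat_lit 186956), [(nat_lit 1486400010), (nat_lit 1772129257), (nat_lit 1844400000)], [(nat_lit 0), (nat_lit 0), (nat_lit 0)], [(nat_lit 22897407288), (nat_lit 23187194898), (nat_lit 24411105363), (nat_lit 24717243939), (nat_lit 24411105363),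 (nat_lit 24717243939), (nat_lit 25921903516), (nat_lit 26246468711)], (nat_lit 1271251), (nat_lit 1271251), (nat_lit 1100000), (nat_lit 1699376), (nat_lit 1100000), (nat_lit 1699376), [(nat_lit 490000), (nat_lit 1100000), (nat_lit 1785001)], [(nat_lit 4), (nat_lit 51), (nat_lit 345), (nat_lit 125), (nat_lit 10)]⟩,
 Rw.none,
 Rw.none⟩)))))))))
noncomputable def c13_59 : Tr Lf :=
 (.spl (nat_lit 0) (nat_lit 395) (.spl (nat_lit 6) (nat_lit 120) (.leaf ⟨(nat_lit 1000), (nat_lit 0), (nat_lit 0), (nat_lit 0), (nat_lit 5236), (nat_lit 3769), (nat_lit 0), (nat_lit 0), (nat_lit 0), (nat_lit 0), (nat_lit 250000), [((nat_lit 395), [((nat_lit 29), (nat_lit 0), (nat_lit 1000))])], ⟨(nat_lit 4), false, false, false, (nat_lit 180), (nat_lit 1118), (nat_lit 1582), [(nat_lit 1353643), (nat_lit 1356601), (nat_lit 1423491), (nat_lit 1427757), (nat_lit 1476683), (nat_lit 1476248), (nat_lit 1546564), (nat_lit 1547436)]⟩, ⟨(nat_lit 3), false, false, false, (nat_lit 128),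 (nat_lit 1118), (nat_lit 1582), [(nat_lit 1215422), (nat_lit 1218958), (nat_lit 1285268), (nat_lit 1290113), (nat_lit 1352103), (nat_lit 1351868), (nat_lit 1422017), (nat_lit 1423090)]⟩, (nat_lit 4023898), (nat_lit 49238273), (nat_lit 11203767), (nat_lit 6557960), (nat_lit 0), (nat_lit 0), [], [], [], [],
 ⟨⟨[(nat_lit 40), (nat_lit 80), (nat_lit 100)], [(nat_lit 0), (nat_lit 3225), (nat_lit 4371)], [((nat_lit 0), (nat_lit 0), (nat_lit 0)), ((nat_lit 1000), (nat_lit 321), (nat_lit 877)), ((nat_lit 1000), (nat_lit 317), (nat_lit 896))], ((nat_lit 31), (nat_lit 100), (nat_lit 92))⟩, (nat_lit 89294), (nat_lit 164), (nat_lit 164), (nat_lit 0), (nat_lit 105758), [(nat_lit 1563200085), (nat_lit 1440876981), (nat_lit 1786400000)], [(nat_lit 0), (nat_lit 0), (nat_lit 0)], [(nat_lit 22986678002), (nat_lit 23450361428), (nat_lit 24198711018), (nat_lit 24568158280), (nat_lit 22940844124), (nat_lit 23239454405), (nat_lit 24020774437), (nat_lit 24311385442)], (nat_lit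 1271251), (nat_lit 1271251), (nat_lit 704688), (nat_lit 1433125), (nat_lit 356250), (nat_lit 1100000), [(nat_lit 490000), (nat_lit 1100000), (nat_lit 1442501)], [(nat_lit 3), (nat_lit 50), (nat_lit 317), (nat_lit 100), (nat_lit 11)]⟩,
 Rw.none,
 Rw.none⟩) (.dle (nat_lit 0))) (.trZ (nat_lit 0) (nat_lit 1) (nat_lit 3) (nat_lit 100) (nat_lit 22) (nat_lit 95) (nat_lit 130) (.trZ (nat_lit 0) (nat_lit 2) (nat_lit 4) (nat_lit 100) (nat_lit 24) (nat_lit 88) (nat_lit 80) (.leaf ⟨(nat_lit 1000), (nat_lit 0), (nat_lit 0), (nat_lit 0), (nat_lit 5388), (nat_lit 3718), (nat_lit 0), (nat_lit 0), (nat_lit 0), (nat_lit 0), (nat_lit 260000), [((nat_lit 400), [((nat_lit 42), (nat_lit 0), (nat_lit 1000))])], ⟨(nat_lit 4), false, false, false, (nat_lit 186), (nat_lit 0), (nat_lit 1119), [(nat_lit 1382114), (nat_lit 1386338), (nat_lit 1451972), (nat_lit 1459942), (nat_lit 1476247), (nat_lit 1474998), (nat_lit 1546570), (nat_lit 1549069)]⟩, ⟨(nat_lit 3), false, false, false,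 (nat_lit 134), (nat_lit 0), (nat_lit 1119), [(nat_lit 1244686), (nat_lit 1249071), (nat_lit 1314543), (nat_lit 1322675), (nat_lit 1351866), (nat_lit 1349997), (nat_lit 1422657), (nat_lit 1424535)]⟩, (nat_lit 4156330), (nat_lit 48290083), (nat_lit 11712995), (nat_lit 6996922), (nat_lit 0), (nat_lit 0), [⟨(nat_lit 0), (nat_lit 100), (nat_lit 16), (nat_lit 100), (nat_lit 829518585)⟩], [], [], [],
 ⟨⟨[(nat_lit 40), (nat_lit 80), (nat_lit 100)], [(nat_lit 0), (nat_lit 3758), (nat_lit 4955)], [((nat_lit 0), (nat_lit 0), (nat_lit 0)), ((nat_lit 1000), (nat_lit 228), (nat_lit 923)), ((nat_lit 1000), (nat_lit 226), (nat_lit 935))], ((nat_lit 22), (nat_lit 100), (nat_lit 95))⟩, (nat_lit 129945), (nat_lit 157), (nat_lit 157), (nat_lit 0), (nat_lit 139928), [(nat_lit 1526400034), (nat_lit 1449818129), (nat_lit 1673600000)], [(nat_lit 0), (nat_lit 0), (nat_lit 0)], [(nat_lit 22613301323), (nat_lit 23123232314), (nat_lit 23769358069), (nat_lit 24224298500), (nat_lit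 22947283622), (nat_lit 23310370206), (nat_lit 23962051517), (nat_lit 24370215632)], (nat_lit 1271251), (nat_lit 1271251), (nat_lit 857188), (nat_lit 1436876), (nat_lit 490000), (nat_lit 1100000), [(nat_lit 490000), (nat_lit 1100000), (nat_lit 1442501)], [(nat_lit 3), (nat_lit 50), (nat_lit 317), (nat_lit 100), (nat_lit 11)]⟩,
 Rw.none,
 Rw.none⟩))))
noncomputable def c13_60 : Tr Lf :=
 (.spl (nat_lit 0) (nat_lit 395) (.spl (nat_lit 6) (nat_lit 120) (.leaf ⟨(nat_lit 1000), (nat_lit 0), (nat_lit 0), (nat_lit 0), (nat_lit 4961), (nat_lit 3393), (nat_lit 0), (nat_lit 0), (nat_lit 0), (nat_lit 0), (nat_lit 250000), [((nat_lit 395), [((nat_lit 29), (nat_lit 0), (nat_lit 1000))])], ⟨(nat_lit 5), false, true, true, (nat_lit 215), (nat_lit 1118), (nat_lit 1582), [(nat_lit 1476683), (nat_lit 1476248), (nat_lit 1546564), (nat_lit 1547436), (nat_lit 1531319), (nat_lit 1529375), (nat_lit 1601263), (nat_lit 1600626)]⟩, ⟨(nat_lit 3), false, false, false, (nat_lit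 128), (nat_lit 1118), (nat_lit 1582), [(nat_lit 1215422), (nat_lit 1218958), (nat_lit 1285268), (nat_lit 1290113), (nat_lit 1352103), (nat_lit 1351868), (nat_lit 1422017), (nat_lit 1423090)]⟩, (nat_lit 4340114), (nat_lit 46127409), (nat_lit 14480389), (nat_lit 6392202), (nat_lit 0), (nat_lit 0), [], [], [], [],
 ⟨⟨[(nat_lit 40), (nat_lit 80), (nat_lit 100)], [(nat_lit 0), (nat_lit 3225), (nat_lit 4371)], [((nat_lit 0), (nat_lit 0), (nat_lit 0)), ((nat_lit 1000), (nat_lit 321), (nat_lit 877)), ((nat_lit 1000), (nat_lit 317), (nat_lit 896))], ((nat_lit 31), (nat_lit 100), (nat_lit 92))⟩, (nat_lit 180536), (nat_lit 148), (nat_lit 148), (nat_lit 0), (nat_lit 105758), [(nat_lit 1563200087), (nat_lit 1500683235), (nat_lit 1786400000)], [(nat_lit 0), (nat_lit 0), (nat_lit 0)], [(nat_lit 23741981213), (nat_lit 24074360805), (nat_lit 24709888766), (nat_lit 25032041189), (nat_lit 23899905960), (nat_lit 24194353758), (nat_lit 24780936162), (nat_lit 25056090271)],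 (nat_lit 1271251), (nat_lit 1271251), (nat_lit 1271251), (nat_lit 1271251), (nat_lit 356250), (nat_lit 1100000), [(nat_lit 490000), (nat_lit 1100000), (nat_lit 1442501)], [(nat_lit 3), (nat_lit 50), (nat_lit 249), (nat_lit 40), (nat_lit 8)]⟩,
 Rw.none,
 Rw.none⟩) (.dle (nat_lit 0))) (.trZ (nat_lit 0) (nat_lit 2) (nat_lit 4) (nat_lit 100) (nat_lit 24) (nat_lit 88) (nat_lit 80) (.spl (nat_lit 6) (nat_lit 112) (.leaf ⟨(nat_lit 1000), (nat_lit 0), (nat_lit 0), (nat_lit 0), (nat_lit 1648), (nat_lit 3533), (nat_lit 0), (nat_lit 0), (nat_lit 0), (nat_lit 0), (nat_lit 250000), [((nat_lit 400), [((nat_lit 29), (nat_lit 0), (nat_lit 1000))])], ⟨(nat_lit 5), false, true, true, (nat_lit 215), (nat_lit 0), (nat_lit 1119), [(nat_lit 1476247), (nat_lit 1474998), (nat_lit 1546570), (nat_lit 1549069), (nat_lit 1529372), (nat_lit 1524996), (nat_lit 1600626), (nat_lit 1599998)]⟩, ⟨(nat_lit 3), false, false, false, (nat_lit 134), (nat_lit 0), (nat_lit 1119), [(nat_lit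 1244686), (nat_lit 1249071), (nat_lit 1314543), (nat_lit 1322675), (nat_lit 1351866), (nat_lit 1349997), (nat_lit 1422657), (nat_lit 1424535)]⟩, (nat_lit 4406004), (nat_lit 45774439), (nat_lit 14385086), (nat_lit 6840475), (nat_lit 0), (nat_lit 0), [], [], [], [],
 ⟨⟨[(nat_lit 40), (nat_lit 60), (nat_lit 80)], [(nat_lit 0), (nat_lit 2600), (nat_lit 3731)], [((nat_lit 0), (nat_lit 0), (nat_lit 0)), ((nat_lit 1000), (nat_lit 245), (nat_lit 872)), ((nat_lit 1000), (nat_lit 240), (nat_lit 884))], ((nat_lit 23), (nat_lit 100), (nat_lit 92))⟩, (nat_lit 0), (nat_lit 122), (nat_lit 122), (nat_lit 0), (nat_lit 138955), [(nat_lit 1563200001), (nat_lit 1153783473), (nat_lit 1376400000)], [(nat_lit 0), (nat_lit 0), (nat_lit 0)], [(nat_lit 23513972830), (nat_lit 23956464750), (nat_lit 24606622598), (nat_lit 25016175080), (nat_lit 23995265063), (nat_lit 24295134694), (nat_lit 24889928422), (nat_lit 25174811100)], (nat_lit 1271251), (nat_lit 1271251), (nat_lit 1271251),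 (nat_lit 1271251), (nat_lit 490000), (nat_lit 1100000), [(nat_lit 490000), (nat_lit 780000), (nat_lit 1100000)], [(nat_lit 2), (nat_lit 44), (nat_lit 249), (nat_lit 40), (nat_lit 10)]⟩,
 Rw.none,
 Rw.none⟩) (.leaf ⟨(nat_lit 1000), (nat_lit 0), (nat_lit 0), (nat_lit 0), (nat_lit 7560), (nat_lit 3510), (nat_lit 0), (nat_lit 0), (nat_lit 0), (nat_lit 0), (nat_lit 260000), [((nat_lit 400), [((nat_lit 42), (nat_lit 0), (nat_lit 1000))])], ⟨(nat_lit 5), false, true, true, (nat_lit 215), (nat_lit 0), (nat_lit 1119), [(nat_lit 1476247), (nat_lit 1474998), (nat_lit 1546570), (nat_lit 1549069), (nat_lit 1529372), (nat_lit 1524996), (nat_lit 1600626), (nat_lit 1599998)]⟩, ⟨(nat_lit 3), false, false, false, (nat_lit 134), (nat_lit 0), (nat_lit 1119), [(nat_lit 1244686), (nat_lit 1249071), (nat_lit 1314543), (nat_lit 1322675), (nat_lit 1351866), (nat_lit 1349997), (nat_lit 1422657), (nat_lit 1424535)]⟩, (nat_lit 4406004), (nat_lit 45774439), (nat_lit 14385086),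 (nat_lit 6840475), (nat_lit 0), (nat_lit 0), [], [⟨(nat_lit 1), (nat_lit 100), (nat_lit 16), (nat_lit 97), (nat_lit 151207113)⟩], [], [],
 ⟨⟨[(nat_lit 40), (nat_lit 80), (nat_lit 100)], [(nat_lit 0), (nat_lit 3758), (nat_lit 4955)], [((nat_lit 0), (nat_lit 0), (nat_lit 0)), ((nat_lit 1000), (nat_lit 228), (nat_lit 923)), ((nat_lit 1000), (nat_lit 226), (nat_lit 935))], ((nat_lit 22), (nat_lit 100), (nat_lit 95))⟩, (nat_lit 140104), (nat_lit 121), (nat_lit 121), (nat_lit 0), (nat_lit 52462), [(nat_lit 1526400108), (nat_lit 1533746175), (nat_lit 1673600000)], [(nat_lit 0), (nat_lit 0), (nat_lit 0)], [(nat_lit 23607228589), (nat_lit 23958450780), (nat_lit 24574830693), (nat_lit 24982991600), (nat_lit 24013023001), (nat_lit 24312109468), (nat_lit 24872393803), (nat_lit 25151717148)], (nat_lit 1271251), (nat_lit 1271251), (nat_lit 1271251), (nat_lit 1271251), (nat_lit 490000), (nat_lit 1100000), [(nat_lit 490000), (nat_lit 1100000), (nat_lit 1442501)],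 [(nat_lit 3), (nat_lit 50), (nat_lit 249), (nat_lit 40), (nat_lit 8)]⟩,
 Rw.none,
 Rw.none⟩))))
noncomputable def c13_61 : Tr Lf :=
 (.trX (nat_lit 3) (nat_lit 0) (nat_lit 1) (nat_lit 31) (nat_lit 92) (nat_lit 100) (nat_lit 290) (.spl (nat_lit 6) (nat_lit 124) (.spl (nat_lit 0) (nat_lit 395) (.spl (nat_lit 6) (nat_lit 112) (.leaf ⟨(nat_lit 1000), (nat_lit 0), (nat_lit 0), (nat_lit 0), (nat_lit 6923), (nat_lit 3222), (nat_lit 0), (nat_lit 0), (nat_lit 0), (nat_lit 0), (nat_lit 250000), [((nat_lit 395), [((nat_lit 29), (nat_lit 0), (nat_lit 1000))])], ⟨(nat_lit 6), false, true, true, (nat_lit 235), (nat_lit 1118), (nat_lit 1582), [(nat_lit 1531319), (nat_lit 1529375), (nat_lit 1577949), (nat_lit 1576877), (nat_lit 1599614), (nat_lit 1595784), (nat_lit 1646244), (nat_lit 1643285)]⟩, ⟨(nat_lit 3), false, false, false, (nat_lit 128), (nat_lit 1118), (nat_lit 1582), [(nat_lit 1215422), (nat_lit 1218958), (nat_lit 1285268), (nat_lit 1290113), (nat_lit 1352103),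 (nat_lit 1351868), (nat_lit 1422017), (nat_lit 1423090)]⟩, (nat_lit 4479200), (nat_lit 44387510), (nat_lit 16340134), (nat_lit 6272356), (nat_lit 0), (nat_lit 0), [⟨(nat_lit 1), (nat_lit 96), (nat_lit 27), (nat_lit 100), (nat_lit 628150392)⟩], [], [], [],
 ⟨⟨[(nat_lit 40), (nat_lit 80), (nat_lit 100)], [(nat_lit 0), (nat_lit 3225), (nat_lit 4371)], [((nat_lit 0), (nat_lit 0), (nat_lit 0)), ((nat_lit 1000), (nat_lit 321), (nat_lit 877)), ((nat_lit 1000), (nat_lit 317), (nat_lit 896))], ((nat_lit 32), (nat_lit 100), (nat_lit 91))⟩, (nat_lit 189648), (nat_lit 148), (nat_lit 148), (nat_lit 0), (nat_lit 82613), [(nat_lit 1563200010), (nat_lit 1480413776), (nat_lit 1786400000)], [(nat_lit 0), (nat_lit 0), (nat_lit 0)], [(nat_lit 24774275104), (nat_lit 25074996317), (nat_lit 26535195407), (nat_lit 26888155672), (nat_lit 24935745376), (nat_lit 25204805985), (nat_lit 26532148718), (nat_lit 26776646796)], (nat_lit 1271251), (nat_lit 1271251), (nat_lit 1271251),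 (nat_lit 1271251), (nat_lit 356250), (nat_lit 1100000), [(nat_lit 490000), (nat_lit 1100000), (nat_lit 1442501)], [(nat_lit 3), (nat_lit 50), (nat_lit 249), (nat_lit 40), (nat_lit 8)]⟩,
 Rw.none,
 Rw.none⟩) (.dle (nat_lit 0))) (.trX (nat_lit 3) (nat_lit 0) (nat_lit 1) (nat_lit 22) (nat_lit 95) (nat_lit 100) (nat_lit 270) (.trZ (nat_lit 0) (nat_lit 2) (nat_lit 4) (nat_lit 100) (nat_lit 24) (nat_lit 88) (nat_lit 80) (.leaf ⟨(nat_lit 1000), (nat_lit 0), (nat_lit 0), (nat_lit 0), (nat_lit 6096), (nat_lit 3478), (nat_lit 0), (nat_lit 0), (nat_lit 0), (nat_lit 0), (nat_lit 260000), [((nat_lit 400), [((nat_lit 42), (nat_lit 0), (nat_lit 1000))])], ⟨(nat_lit 6), false, true, true, (nat_lit 228), (nat_lit 0), (nat_lit 1119), [(nat_lit 1529372), (nat_lit 1524996), (nat_lit 1576876), (nat_lit 1574998), (nat_lit 1569216), (nat_lit 1562495), (nat_lit 1616720), (nat_lit 1612497)]⟩, ⟨(nat_lit 3), false, false, false, (nat_lit 134), (nat_lit 0), (nat_lit 1119), [(nat_lit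 1244686), (nat_lit 1249071), (nat_lit 1314543), (nat_lit 1322675), (nat_lit 1351866), (nat_lit 1349997), (nat_lit 1422657), (nat_lit 1424535)]⟩, (nat_lit 4501998), (nat_lit 44610560), (nat_lit 15635762), (nat_lit 6753678), (nat_lit 0), (nat_lit 0), [⟨(nat_lit 1), (nat_lit 99), (nat_lit 16), (nat_lit 100), (nat_lit 948313385)⟩, ⟨(nat_lit 1), (nat_lit 95), (nat_lit 22), (nat_lit 100), (nat_lit 89608293)⟩], [], [], [],
 ⟨⟨[(nat_lit 40), (nat_lit 80), (nat_lit 100)], [(nat_lit 0), (nat_lit 3758), (nat_lit 4955)], [((nat_lit 0), (nat_lit 0), (nat_lit 0)), ((nat_lit 1000), (nat_lit 228), (nat_lit 923)), ((nat_lit 1000), (nat_lit 226), (nat_lit 935))], ((nat_lit 23), (nat_lit 100), (nat_lit 94))⟩, (nat_lit 122554), (nat_lit 143), (nat_lit 143), (nat_lit 0), (nat_lit 118132), [(nat_lit 1526400009), (nat_lit 1440987242), (nat_lit 1673600000)], [(nat_lit 0), (nat_lit 0), (nat_lit 0)], [(nat_lit 24648847468), (nat_lit 24974234474), (nat_lit 25835567862), (nat_lit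 26215543925), (nat_lit 24994637106), (nat_lit 25272820147), (nat_lit 25952806881), (nat_lit 26296104902)], (nat_lit 1271251), (nat_lit 1271251), (nat_lit 1271251), (nat_lit 1271251), (nat_lit 490000), (nat_lit 1100000), [(nat_lit 490000), (nat_lit 1100000), (nat_lit 1442501)], [(nat_lit 3), (nat_lit 50), (nat_lit 249), (nat_lit 40), (nat_lit 8)]⟩,
 Rw.none,
 Rw.none⟩)))) (.dle (nat_lit 0))))
noncomputable def c13_62 : Tr Lf :=
 (.stt (nat_lit 1) (.spl (nat_lit 0) (nat_lit 395) (.spl (nat_lit 6) (nat_lit 120) (.spl (nat_lit 1) (nat_lit 230) (.leaf ⟨(nat_lit 988), (nat_lit 12), (nat_lit 0), (nat_lit 0), (nat_lit 9109), (nat_lit 3453), (nat_lit 97), (nat_lit 0), (nat_lit 0), (nat_lit 0), (nat_lit 247000), [((nat_lit 395), [((nat_lit 29), (nat_lit 0), (nat_lit 988))])], ⟨(nat_lit 6), false, true, true, (nat_lit 249), (nat_lit 1118), (nat_lit 1582), [(nat_lit 1577949), (nat_lit 1576877), (nat_lit 1589607), (nat_lit 1588752), (nat_lit 1659903), (nat_lit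 1656567), (nat_lit 1671561), (nat_lit 1668443)]⟩, ⟨(nat_lit 3), false, false, false, (nat_lit 128), (nat_lit 1118), (nat_lit 1582), [(nat_lit 1215422), (nat_lit 1218958), (nat_lit 1285268), (nat_lit 1290113), (nat_lit 1352103), (nat_lit 1351868), (nat_lit 1422017), (nat_lit 1423090)]⟩, (nat_lit 4565560), (nat_lit 43108235), (nat_lit 17718307), (nat_lit 6173458), (nat_lit 3), (nat_lit 0), [⟨(nat_lit 1), (nat_lit 93), (nat_lit 27), (nat_lit 100), (nat_lit 596408653)⟩], [], [], [],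
 ⟨⟨[(nat_lit 40), (nat_lit 80), (nat_lit 100)], [(nat_lit 0), (nat_lit 3225), (nat_lit 4371)], [((nat_lit 0), (nat_lit 0), (nat_lit 0)), ((nat_lit 1000), (nat_lit 321), (nat_lit 877)), ((nat_lit 1000), (nat_lit 317), (nat_lit 896))], ((nat_lit 31), (nat_lit 100), (nat_lit 92))⟩, (nat_lit 92417), (nat_lit 127), (nat_lit 127), (nat_lit 0), (nat_lit 0), [(nat_lit 1566017673), (nat_lit 1630595952), (nat_lit 1839963200)], [(nat_lit 0), (nat_lit 0), (nat_lit 0)], [(nat_lit 25155893719), (nat_lit 25484754039), (nat_lit 27392811947), (nat_lit 27749426232), (nat_lit 25154191117), (nat_lit 25431483296), (nat_lit 27098623973), (nat_lit 27344872508)], (nat_lit 0), (nat_lit 0), (nat_lit 0), (nat_lit 0), (nat_lit 0), (nat_lit 0), [], [(nat_lit 3), (nat_lit 50), (nat_lit 249), (nat_lit 40), (nat_lit 8)]⟩,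
 ⟨⟨[(nat_lit 100), (nat_lit 160), (nat_lit 200)], [(nat_lit 0), (nat_lit 761), (nat_lit 5273)], [((nat_lit 0), (nat_lit 0), (nat_lit 0)), ((nat_lit 1000), (nat_lit 1000), (nat_lit 198)), ((nat_lit 518), (nat_lit 1000), (nat_lit 909))], ((nat_lit 0), (nat_lit 0), (nat_lit 0))⟩, (nat_lit 23326), (nat_lit 512), (nat_lit 512), (nat_lit 0), (nat_lit 297378), [(nat_lit 75000000), (nat_lit 142464000), (nat_lit 196800000)], [], [(nat_lit 520321324), (nat_lit 520656320), (nat_lit 537601072), (nat_lit 537455507), (nat_lit 445523816), (nat_lit 445918143), (nat_lit 459388172), (nat_lit 459353709)], (nat_lit 1271251), (nat_lit 1271251), (nat_lit 1271251), (nat_lit 1271251), (nat_lit 0), (nat_lit 1412501), [(nat_lit 1412501), (nat_lit 1271251), (nat_lit 1271251)], [(nat_lit 25), (nat_lit 66), (nat_lit 428), (nat_lit 200), (nat_lit 9)]⟩,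
 Rw.none⟩) (.leaf ⟨(nat_lit 372), (nat_lit 628), (nat_lit 0), (nat_lit 0), (nat_lit 5699), (nat_lit 3776), (nat_lit 5274), (nat_lit 0), (nat_lit 0), (nat_lit 0), (nat_lit 93000), [((nat_lit 395), [((nat_lit 29), (nat_lit 0), (nat_lit 372))])], ⟨(nat_lit 6), false, true, true, (nat_lit 254), (nat_lit 1118), (nat_lit 1582), [(nat_lit 1589607), (nat_lit 1588752), (nat_lit 1601263), (nat_lit 1600626), (nat_lit 1671561), (nat_lit 1668443), (nat_lit 1683218), (nat_lit 1680318)]⟩, ⟨(nat_lit 3), false, false, false, (nat_lit 128), (nat_lit 1118), (nat_lit 1582), [(nat_lit 1215422), (nat_lit 1218958), (nat_lit 1285268), (nat_lit 1290113), (nat_lit 1352103), (nat_lit 1351868), (nat_lit 1422017), (nat_lit 1423090)]⟩, (nat_lit 4590732), (nat_lit 42694236), (nat_lit 18166131), (nat_lit 6139633), (nat_lit 3), (nat_lit 0), [], [], [], [],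
 ⟨⟨[(nat_lit 40), (nat_lit 80), (nat_lit 100)], [(nat_lit 0), (nat_lit 3225), (nat_lit 4371)], [((nat_lit 0), (nat_lit 0), (nat_lit 0)), ((nat_lit 1000), (nat_lit 321), (nat_lit 877)), ((nat_lit 1000), (nat_lit 317), (nat_lit 896))], ((nat_lit 31), (nat_lit 100), (nat_lit 92))⟩, (nat_lit 666462), (nat_lit 127), (nat_lit 127), (nat_lit 0), (nat_lit 0), [(nat_lit 1710654540), (nat_lit 3784018971), (nat_lit 4589540800)], [(nat_lit 0), (nat_lit 0), (nat_lit 0)], [(nat_lit 25459111218), (nat_lit 25802655744), (nat_lit 27983087835), (nat_lit 28355903473), (nat_lit 25171605630), (nat_lit 25460542744), (nat_lit 27226186895), (nat_lit 27496641047)], (nat_lit 0), (nat_lit 0), (nat_lit 0), (nat_lit 0), (nat_lit 0), (nat_lit 0), [], [(nat_lit 3), (nat_lit 50), (nat_lit 249), (nat_lit 40), (nat_lit 8)]⟩,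
 ⟨⟨[(nat_lit 100), (nat_lit 160), (nat_lit 200)], [(nat_lit 0), (nat_lit 1149), (nat_lit 5505)], [((nat_lit 0), (nat_lit 0), (nat_lit 0)), ((nat_lit 1000), (nat_lit 1000), (nat_lit 299)), ((nat_lit 546), (nat_lit 1000), (nat_lit 924))], ((nat_lit 0), (nat_lit 0), (nat_lit 0))⟩, (nat_lit 1379124), (nat_lit 514), (nat_lit 514), (nat_lit 0), (nat_lit 310014), [(nat_lit 3925000000), (nat_lit 7455616000), (nat_lit 10299200000)], [], [(nat_lit 25368573244), (nat_lit 25448094464), (nat_lit 26695364999), (nat_lit 26738563634), (nat_lit 21443494001), (nat_lit 21460353828), (nat_lit 22362421120), (nat_lit 22379189762)], (nat_lit 1271251), (nat_lit 1271251), (nat_lit 1271251), (nat_lit 1271251), (nat_lit 0), (nat_lit 1412501), [(nat_lit 1412501), (nat_lit 1271251), (nat_lit 1271251)], [(nat_lit 25), (nat_lit 66), (nat_lit 428), (nat_lit 200), (nat_lit 9)]⟩,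
 Rw.none⟩)) (.dle (nat_lit 0))) (.trX (nat_lit 3) (nat_lit 0) (nat_lit 1) (nat_lit 23) (nat_lit 93) (nat_lit 100) (nat_lit 290) (.trZ (nat_lit 0) (nat_lit 2) (nat_lit 4) (nat_lit 100) (nat_lit 24) (nat_lit 88) (nat_lit 80) (.spl (nat_lit 6) (nat_lit 112) (.leaf ⟨(nat_lit 978), (nat_lit 22), (nat_lit 0), (nat_lit 0), (nat_lit 6507), (nat_lit 3328), (nat_lit 265), (nat_lit 0), (nat_lit 0), (nat_lit 0), (nat_lit 244500), [((nat_lit 400), [((nat_lit 29), (nat_lit 0), (nat_lit 978))])], ⟨(nat_lit 6), false, true, true, (nat_lit 248), (nat_lit 0), (nat_lit 1119), [(nat_lit 1576876), (nat_lit 1574998), (nat_lit 1600626), (nat_lit 1599998), (nat_lit 1643282), (nat_lit 1637496), (nat_lit 1667034), (nat_lit 1662497)]⟩, ⟨(nat_lit 3), false, false, false, (nat_lit 134), (nat_lit 0), (nat_lit 1119), [(nat_lit 1244686), (nat_lit 1249071), (nat_lit 1314543), (nat_lit 1322675), (nat_lit 1351866), (nat_lit 1349997), (nat_lit 1422657), (nat_lit 1424535)]⟩, (nat_lit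 4623274), (nat_lit 42883873), (nat_lit 17506085), (nat_lit 6610042), (nat_lit 3), (nat_lit 0), [⟨(nat_lit 1), (nat_lit 93), (nat_lit 23), (nat_lit 100), (nat_lit 711569914)⟩], [], [], [⟨(nat_lit 0), (nat_lit 100), (nat_lit 91), (nat_lit 27), (nat_lit 2819940)⟩],
 ⟨⟨[(nat_lit 40), (nat_lit 60), (nat_lit 80)], [(nat_lit 0), (nat_lit 2600), (nat_lit 3731)], [((nat_lit 0), (nat_lit 0), (nat_lit 0)), ((nat_lit 1000), (nat_lit 245), (nat_lit 872)), ((nat_lit 1000), (nat_lit 240), (nat_lit 884))], ((nat_lit 23), (nat_lit 100), (nat_lit 92))⟩, (nat_lit 0), (nat_lit 97), (nat_lit 97), (nat_lit 0), (nat_lit 0), [(nat_lit 1568365622), (nat_lit 1289917113), (nat_lit 1449255200)], [(nat_lit 0), (nat_lit 0), (nat_lit 0)], [(nat_lit 24408260948), (nat_lit 24728184214), (nat_lit 26469385009), (nat_lit 26824165980), (nat_lit 24905090640), (nat_lit 25194917430), (nat_lit 26583711225), (nat_lit 26905570020)], (nat_lit 0), (nat_lit 0), (nat_lit 0), (nat_lit 0), (nat_lit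 0), (nat_lit 0), [], [(nat_lit 2), (nat_lit 44), (nat_lit 249), (nat_lit 40), (nat_lit 9)]⟩,
 ⟨⟨[(nat_lit 100), (nat_lit 160), (nat_lit 200)], [(nat_lit 0), (nat_lit 761), (nat_lit 5273)], [((nat_lit 0), (nat_lit 0), (nat_lit 0)), ((nat_lit 1000), (nat_lit 1000), (nat_lit 198)), ((nat_lit 518), (nat_lit 1000), (nat_lit 909))], ((nat_lit 0), (nat_lit 0), (nat_lit 0))⟩, (nat_lit 52325), (nat_lit 606), (nat_lit 606), (nat_lit 0), (nat_lit 428362), [(nat_lit 137500000), (nat_lit 261184000), (nat_lit 360800000)], [], [(nat_lit 897629710), (nat_lit 893585597), (nat_lit 914725054), (nat_lit 910034281), (nat_lit 658779177), (nat_lit 653013789), (nat_lit 667633456), (nat_lit 662622521)], (nat_lit 1271251), (nat_lit 1271251), (nat_lit 1271251), (nat_lit 1271251), (nat_lit 0), (nat_lit 1412501), [(nat_lit 1412501), (nat_lit 1271251), (nat_lit 1271251)], [(nat_lit 25), (nat_lit 66), (nat_lit 428), (nat_lit 200), (nat_lit 9)]⟩,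
 Rw.none⟩) (.leaf ⟨(nat_lit 763), (nat_lit 237), (nat_lit 0), (nat_lit 0), (nat_lit 12958), (nat_lit 3617), (nat_lit 1980), (nat_lit 0), (nat_lit 0), (nat_lit 0), (nat_lit 198380), [((nat_lit 400), [((nat_lit 42), (nat_lit 0), (nat_lit 763))])], ⟨(nat_lit 6), false, true, true, (nat_lit 248), (nat_lit 0), (nat_lit 1119), [(nat_lit 1576876), (nat_lit 1574998), (nat_lit 1600626), (nat_lit 1599998), (nat_lit 1643282), (nat_lit 1637496), (nat_lit 1667034), (nat_lit 1662497)]⟩, ⟨(nat_lit 3), false, false, false, (nat_lit 134), (nat_lit 0), (nat_lit 1119), [(nat_lit 1244686), (nat_lit 1249071), (nat_lit 1314543), (nat_lit 1322675), (nat_lit 1351866), (nat_lit 1349997), (nat_lit 1422657), (nat_lit 1424535)]⟩, (nat_lit 4623274), (nat_lit 42883873), (nat_lit 17506085), (nat_lit 6610042), (nat_lit 3), (nat_lit 0), [⟨(nat_lit 1), (nat_lit 96), (nat_lit 16), (nat_lit 100), (nat_lit 720224038)⟩], [⟨(nat_lit 1), (nat_lit 100), (nat_lit 16), (nat_lit 97), (nat_lit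 304946562)⟩], [], [],
 ⟨⟨[(nat_lit 40), (nat_lit 80), (nat_lit 100)], [(nat_lit 0), (nat_lit 3758), (nat_lit 4955)], [((nat_lit 0), (nat_lit 0), (nat_lit 0)), ((nat_lit 1000), (nat_lit 228), (nat_lit 923)), ((nat_lit 1000), (nat_lit 226), (nat_lit 935))], ((nat_lit 22), (nat_lit 100), (nat_lit 95))⟩, (nat_lit 263240), (nat_lit 114), (nat_lit 114), (nat_lit 0), (nat_lit 0), [(nat_lit 1590769283), (nat_lit 2335849891), (nat_lit 2758206800)], [(nat_lit 0), (nat_lit 0), (nat_lit 0)], [(nat_lit 25039427907), (nat_lit 25371020116), (nat_lit 26924391315), (nat_lit 27293999783), (nat_lit 25293252859), (nat_lit 25593169020), (nat_lit 26972648647), (nat_lit 27243664380)], (nat_lit 0), (nat_lit 0), (nat_lit 0), (nat_lit 0), (nat_lit 0), (nat_lit 0), [], [(nat_lit 3), (nat_lit 50), (nat_lit 249), (nat_lit 40), (nat_lit 8)]⟩,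
 ⟨⟨[(nat_lit 100), (nat_lit 160), (nat_lit 200)], [(nat_lit 0), (nat_lit 761), (nat_lit 5273)], [((nat_lit 0), (nat_lit 0), (nat_lit 0)), ((nat_lit 1000), (nat_lit 1000), (nat_lit 198)), ((nat_lit 518), (nat_lit 1000), (nat_lit 909))], ((nat_lit 0), (nat_lit 0), (nat_lit 0))⟩, (nat_lit 496155), (nat_lit 456), (nat_lit 456), (nat_lit 0), (nat_lit 159887), [(nat_lit 1481250000), (nat_lit 2813664000), (nat_lit 3886800000)], [], [(nat_lit 10041560268), (nat_lit 10051963554), (nat_lit 10419604383), (nat_lit 10457136020), (nat_lit 8557295513), (nat_lit 8570416308), (nat_lit 8828877179), (nat_lit 8845578933)], (nat_lit 1271251), (nat_lit 1271251), (nat_lit 1271251), (nat_lit 1271251), (nat_lit 0), (nat_lit 1412501), [(nat_lit 1412501), (nat_lit 1271251), (nat_lit 1271251)], [(nat_lit 25), (nat_lit 66), (nat_lit 428), (nat_lit 200), (nat_lit 9)]⟩,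
 Rw.none⟩))))) (.spl (nat_lit 0) (nat_lit 395) (.spl (nat_lit 6) (nat_lit 120) (.leaf ⟨(nat_lit 189), (nat_lit 811), (nat_lit 0), (nat_lit 0), (nat_lit 12146), (nat_lit 4057), (nat_lit 9796), (nat_lit 0), (nat_lit 0), (nat_lit 0), (nat_lit 47250), [((nat_lit 395), [((nat_lit 29), (nat_lit 0), (nat_lit 189))])], ⟨(nat_lit 6), false, true, true, (nat_lit 252), (nat_lit 1118), (nat_lit 1582), [(nat_lit 1577949), (nat_lit 1576877), (nat_lit 1601263), (nat_lit 1600626), (nat_lit 1659903), (nat_lit 1656567), (nat_lit 1683218), (nat_lit 1680318)]⟩, ⟨(nat_lit 3), false, false, false, (nat_lit 128), (nat_lit 1118), (nat_lit 1582), [(nat_lit 1215422), (nat_lit 1218958), (nat_lit 1285268), (nat_lit 1290113), (nat_lit 1352103), (nat_lit 1351868), (nat_lit 1422017), (nat_lit 1423090)]⟩, (nat_lit 4578322), (nat_lit 42901080), (nat_lit 17942280), (nat_lit 6156640), (nat_lit 3), (nat_lit 0), [], [], [], [],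
 ⟨⟨[(nat_lit 40), (nat_lit 80), (nat_lit 100)], [(nat_lit 0), (nat_lit 3225), (nat_lit 4371)], [((nat_lit 0), (nat_lit 0), (nat_lit 0)), ((nat_lit 1000), (nat_lit 321), (nat_lit 877)), ((nat_lit 1000), (nat_lit 317), (nat_lit 896))], ((nat_lit 31), (nat_lit 100), (nat_lit 92))⟩, (nat_lit 836459), (nat_lit 156), (nat_lit 156), (nat_lit 0), (nat_lit 105735), [(nat_lit 1793179610), (nat_lit 4141725373), (nat_lit 5406379600)], [(nat_lit 0), (nat_lit 0), (nat_lit 0)], [(nat_lit 25678344939), (nat_lit 26125372840), (nat_lit 28496609584), (nat_lit 28883519896), (nat_lit 25155945751), (nat_lit 25437004452), (nat_lit 27475490186), (nat_lit 27821522306)], (nat_lit 1271251), (nat_lit 1271251), (nat_lit 1271251), (nat_lit 1271251), (nat_lit 356250), (nat_lit 1100000), [(nat_lit 490000), (nat_lit 1100000), (nat_lit 1442501)], [(nat_lit 3), (nat_lit 50), (nat_lit 249), (nat_lit 40), (nat_lit 8)]⟩,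
 ⟨⟨[(nat_lit 100), (nat_lit 160), (nat_lit 200)], [(nat_lit 0), (nat_lit 761), (nat_lit 5273)], [((nat_lit 0), (nat_lit 0), (nat_lit 0)), ((nat_lit 1000), (nat_lit 1000), (nat_lit 198)), ((nat_lit 518), (nat_lit 1000), (nat_lit 909))], ((nat_lit 0), (nat_lit 0), (nat_lit 0))⟩, (nat_lit 1971422), (nat_lit 458), (nat_lit 458), (nat_lit 0), (nat_lit 163547), [(nat_lit 5068750000), (nat_lit 9628192000), (nat_lit 13300400000)], [], [(nat_lit 31733701026), (nat_lit 31871387144), (nat_lit 33746755334), (nat_lit 33778990817), (nat_lit 23199853812), (nat_lit 23224949320), (nat_lit 24606114766), (nat_lit 24529610278)], (nat_lit 1271251), (nat_lit 1271251), (nat_lit 1271251), (nat_lit 1271251), (nat_lit 0), (nat_lit 1412501), [(nat_lit 1412501), (nat_lit 1271251), (nat_lit 1271251)], [(nat_lit 25), (nat_lit 66), (nat_lit 428), (nat_lit 200), (nat_lit 9)]⟩,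
 Rw.none⟩) (.dle (nat_lit 0))) (.trX (nat_lit 3) (nat_lit 0) (nat_lit 1) (nat_lit 23) (nat_lit 93) (nat_lit 100) (nat_lit 290) (.trZ (nat_lit 0) (nat_lit 2) (nat_lit 4) (nat_lit 100) (nat_lit 24) (nat_lit 88) (nat_lit 80) (.leaf ⟨(nat_lit 590), (nat_lit 410), (nat_lit 0), (nat_lit 0), (nat_lit 9043), (nat_lit 3843), (nat_lit 3425), (nat_lit 0), (nat_lit 0), (nat_lit 0), (nat_lit 153400), [((nat_lit 400), [((nat_lit 42), (nat_lit 0), (nat_lit 590))])], ⟨(nat_lit 6), false, true, true, (nat_lit 248), (nat_lit 0), (nat_lit 1119), [(nat_lit 1576876), (nat_lit 1574998), (nat_lit 1600626), (nat_lit 1599998), (nat_lit 1643282), (nat_lit 1637496), (nat_lit 1667034), (nat_lit 1662497)]⟩, ⟨(nat_lit 3), false, false, false, (nat_lit 134), (nat_lit 0), (nat_lit 1119), [(nat_lit 1244686), (nat_lit 1249071), (nat_lit 1314543), (nat_lit 1322675), (nat_lit 1351866), (nat_lit 1349997), (nat_lit 1422657), (nat_lit 1424535)]⟩, (nat_lit 4623274), (nat_lit 42883873),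 (nat_lit 17506085), (nat_lit 6610042), (nat_lit 3), (nat_lit 0), [⟨(nat_lit 1), (nat_lit 96), (nat_lit 16), (nat_lit 100), (nat_lit 420001940)⟩], [], [], [],
 ⟨⟨[(nat_lit 40), (nat_lit 80), (nat_lit 100)], [(nat_lit 0), (nat_lit 3758), (nat_lit 4955)], [((nat_lit 0), (nat_lit 0), (nat_lit 0)), ((nat_lit 1000), (nat_lit 228), (nat_lit 923)), ((nat_lit 1000), (nat_lit 226), (nat_lit 935))], ((nat_lit 22), (nat_lit 100), (nat_lit 95))⟩, (nat_lit 360450), (nat_lit 152), (nat_lit 152), (nat_lit 0), (nat_lit 139905), [(nat_lit 1637756090), (nat_lit 2703262241), (nat_lit 3549924000)], [(nat_lit 0), (nat_lit 0), (nat_lit 0)], [(nat_lit 25354465569), (nat_lit 25696146814), (nat_lit 27280209394), (nat_lit 27661413068), (nat_lit 25524797135), (nat_lit 25833661430), (nat_lit 27228473264), (nat_lit 27507329495)], (nat_lit 1271251), (nat_lit 1271251), (nat_lit 1271251), (nat_lit 1271251), (nat_lit 490000), (nat_lit 1100000), [(nat_lit 490000), (nat_lit 1100000),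 (nat_lit 1442501)], [(nat_lit 3), (nat_lit 50), (nat_lit 249), (nat_lit 40), (nat_lit 8)]⟩,
 ⟨⟨[(nat_lit 100), (nat_lit 160), (nat_lit 200)], [(nat_lit 0), (nat_lit 761), (nat_lit 5273)], [((nat_lit 0), (nat_lit 0), (nat_lit 0)), ((nat_lit 1000), (nat_lit 1000), (nat_lit 198)), ((nat_lit 518), (nat_lit 1000), (nat_lit 909))], ((nat_lit 0), (nat_lit 0), (nat_lit 0))⟩, (nat_lit 858327), (nat_lit 481), (nat_lit 481), (nat_lit 0), (nat_lit 221865), [(nat_lit 2562500000), (nat_lit 4867520000), (nat_lit 6724000000)], [], [(nat_lit 17371579222), (nat_lit 17389630166), (nat_lit 18025667738), (nat_lit 18090606104), (nat_lit 14804685581), (nat_lit 14827396096), (nat_lit 15274153550), (nat_lit 15303059109)], (nat_lit 1271251), (nat_lit 1271251), (nat_lit 1271251), (nat_lit 1271251), (nat_lit 0), (nat_lit 1412501), [(nat_lit 1412501), (nat_lit 1271251), (nat_lit 1271251)], [(nat_lit 25), (nat_lit 66), (nat_lit 428), (nat_lit 200), (nat_lit 9)]⟩,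
 Rw.none⟩)))))
noncomputable def c13_63 : Tr Lf :=
 (.stt (nat_lit 2) (.leaf ⟨(nat_lit 0), (nat_lit 872), (nat_lit 0), (nat_lit 128), (nat_lit 0), (nat_lit 4360), (nat_lit 7450), (nat_lit 1485), (nat_lit 0), (nat_lit 0), (nat_lit 0), [], Pd.none, Pd.none, (nat_lit 0), (nat_lit 1), (nat_lit 0), (nat_lit 0), (nat_lit 5), (nat_lit 0), [], [], [⟨(nat_lit 1), (nat_lit 40), (nat_lit 100), (nat_lit 98), (nat_lit 391554302)⟩], [⟨(nat_lit 1), (nat_lit 78), (nat_lit 100), (nat_lit 95), (nat_lit 27678040)⟩],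
 ⟨⟨[(nat_lit 40), (nat_lit 80), (nat_lit 100)], [(nat_lit 0), (nat_lit 3225), (nat_lit 4371)], [((nat_lit 0), (nat_lit 0), (nat_lit 0)), ((nat_lit 1000), (nat_lit 321), (nat_lit 877)), ((nat_lit 1000), (nat_lit 317), (nat_lit 896))], ((nat_lit 31), (nat_lit 100), (nat_lit 94))⟩, (nat_lit 948724), (nat_lit 167), (nat_lit 167), (nat_lit 0), (nat_lit 140726), [(nat_lit 2032000034), (nat_lit 4769953400), (nat_lit 6250000000)], [], [(nat_lit 26158646790), (nat_lit 27089928680), (nat_lit 29050335882), (nat_lit 29854552850), (nat_lit 25431965324), (nat_lit 26013968000), (nat_lit 27812760735), (nat_lit 28530917480)], (nat_lit 1271251), (nat_lit 1271251), (nat_lit 1271251), (nat_lit 1271251), (nat_lit 356250), (nat_lit 1100000), [(nat_lit 490000), (nat_lit 1100000), (nat_lit 1442501)], [(nat_lit 3), (nat_lit 50), (nat_lit 249), (nat_lit 40), (nat_lit 8)]⟩,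
 ⟨⟨[(nat_lit 100), (nat_lit 160), (nat_lit 200)], [(nat_lit 0), (nat_lit 761), (nat_lit 5273)], [((nat_lit 0), (nat_lit 0), (nat_lit 0)), ((nat_lit 1000), (nat_lit 1000), (nat_lit 198)), ((nat_lit 518), (nat_lit 1000), (nat_lit 909))], ((nat_lit 0), (nat_lit 0), (nat_lit 0))⟩, (nat_lit 0), (nat_lit 120), (nat_lit 120), (nat_lit 0), (nat_lit 0), [(nat_lit 6250000000), (nat_lit 11872000000), (nat_lit 16400000000)], [], [(nat_lit 16836060000), (nat_lit 17711772100), (nat_lit 21075870450), (nat_lit 21749254375), (nat_lit 29214528982), (nat_lit 29574765850), (nat_lit 32026057749), (nat_lit 32283992838)], (nat_lit 0), (nat_lit 0), (nat_lit 0), (nat_lit 0), (nat_lit 0), (nat_lit 0), [], [(nat_lit 25), (nat_lit 66), (nat_lit 483), (nat_lit 250), (nat_lit 10)]⟩,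
 ⟨⟨[(nat_lit 140), (nat_lit 180), (nat_lit 200)], [(nat_lit 0), (nat_lit 0), (nat_lit 2835)], [((nat_lit 0), (nat_lit 0), (nat_lit 0)), ((nat_lit 0), (nat_lit 0), (nat_lit 0)), ((nat_lit 363), (nat_lit 1000), (nat_lit 798))], ((nat_lit 0), (nat_lit 0), (nat_lit 0))⟩, (nat_lit 35217), (nat_lit 300), (nat_lit 1204), (nat_lit 9996800), (nat_lit 1709558), [(nat_lit 1259776000), (nat_lit 1799424000), (nat_lit 2099200000)], [], [(nat_lit 8635461103), (nat_lit 8295460692), (nat_lit 7909884766), (nat_lit 7576050968), (nat_lit 8219020323), (nat_lit 7876075914), (nat_lit 7434164372), (nat_lit 7088434931)], (nat_lit 780000), (nat_lit 1271251), (nat_lit 356250), (nat_lit 1100000), (nat_lit 1271251), (nat_lit 1271251), [(nat_lit 1977501), (nat_lit 1271251), (nat_lit 1271251)], [(nat_lit 32), (nat_lit 67), (nat_lit 428), (nat_lit 200), (nat_lit 9)]⟩⟩) (.spl (nat_lit 0) (nat_lit 395) (.spl (nat_lit 6) (nat_lit 120) (.leaf ⟨(nat_lit 473), (nat_lit 371), (nat_lit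 0), (nat_lit 156), (nat_lit 0), (nat_lit 3523), (nat_lit 5643), (nat_lit 1957), (nat_lit 0), (nat_lit 0), (nat_lit 118250), [((nat_lit 395), [((nat_lit 29), (nat_lit 0), (nat_lit 473))])], ⟨(nat_lit 6), false, true, true, (nat_lit 252), (nat_lit 1118), (nat_lit 1582), [(nat_lit 1577949), (nat_lit 1576877), (nat_lit 1601263), (nat_lit 1600626), (nat_lit 1659903), (nat_lit 1656567), (nat_lit 1683218), (nat_lit 1680318)]⟩, ⟨(nat_lit 3), false, false, false, (nat_lit 128), (nat_lit 1118), (nat_lit 1582), [(nat_lit 1215422), (nat_lit 1218958), (nat_lit 1285268), (nat_lit 1290113), (nat_lit 1352103), (nat_lit 1351868), (nat_lit 1422017), (nat_lit 1423090)]⟩, (nat_lit 4578322), (nat_lit 42901080), (nat_lit 17942280), (nat_lit 6156640), (nat_lit 5), (nat_lit 0), [], [], [], [⟨(nat_lit 1), (nat_lit 78), (nat_lit 100), (nat_lit 95), (nat_lit 79285638)⟩],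
 ⟨⟨[(nat_lit 40), (nat_lit 80), (nat_lit 100)], [(nat_lit 0), (nat_lit 3225), (nat_lit 4371)], [((nat_lit 0), (nat_lit 0), (nat_lit 0)), ((nat_lit 1000), (nat_lit 321), (nat_lit 877)), ((nat_lit 1000), (nat_lit 317), (nat_lit 896))], ((nat_lit 31), (nat_lit 100), (nat_lit 92))⟩, (nat_lit 677875), (nat_lit 147), (nat_lit 147), (nat_lit 0), (nat_lit 72484), [(nat_lit 1686939602), (nat_lit 3384159554), (nat_lit 4138717200)], [(nat_lit 0), (nat_lit 0), (nat_lit 0)], [(nat_lit 24932848960), (nat_lit 25246252545), (nat_lit 27520735514), (nat_lit 27880860929), (nat_lit 24935153818), (nat_lit 25214940412), (nat_lit 26888298445), (nat_lit 27204132299)], (nat_lit 1271251), (nat_lit 1271251), (nat_lit 1271251), (nat_lit 1271251), (nat_lit 356250), (nat_lit 1100000), [(nat_lit 490000), (nat_lit 1100000), (nat_lit 1442501)], [(nat_lit 3), (nat_lit 50), (nat_lit 249), (nat_lit 40), (nat_lit 8)]⟩,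
 ⟨⟨[(nat_lit 100), (nat_lit 160), (nat_lit 200)], [(nat_lit 0), (nat_lit 761), (nat_lit 5273)], [((nat_lit 0), (nat_lit 0), (nat_lit 0)), ((nat_lit 1000), (nat_lit 1000), (nat_lit 198)), ((nat_lit 518), (nat_lit 1000), (nat_lit 909))], ((nat_lit 0), (nat_lit 0), (nat_lit 0))⟩, (nat_lit 1050939), (nat_lit 318), (nat_lit 318), (nat_lit 0), (nat_lit 312939), [(nat_lit 3293750000), (nat_lit 6256544000), (nat_lit 8642800000)], [], [(nat_lit 15141100066), (nat_lit 15236814625), (nat_lit 16401868123), (nat_lit 16422699937), (nat_lit 18844205824), (nat_lit 18735365659), (nat_lit 19582708821), (nat_lit 19509746467)], (nat_lit 1271251), (nat_lit 1271251), (nat_lit 1271251), (nat_lit 1271251), (nat_lit 1271251), (nat_lit 1271251), [(nat_lit 1412501), (nat_lit 1271251), (nat_lit 1271251)], [(nat_lit 25), (nat_lit 66), (nat_lit 483), (nat_lit 250), (nat_lit 10)]⟩,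
 ⟨⟨[(nat_lit 140), (nat_lit 180), (nat_lit 200)], [(nat_lit 0), (nat_lit 0), (nat_lit 2835)], [((nat_lit 0), (nat_lit 0), (nat_lit 0)), ((nat_lit 0), (nat_lit 0), (nat_lit 0)), ((nat_lit 363), (nat_lit 1000), (nat_lit 798))], ((nat_lit 0), (nat_lit 0), (nat_lit 0))⟩, (nat_lit 42921), (nat_lit 300), (nat_lit 835), (nat_lit 12183600), (nat_lit 898613), [(nat_lit 1535352000), (nat_lit 2193048000), (nat_lit 2558400000)], [], [(nat_lit 9997486681), (nat_lit 9553810774), (nat_lit 8994931246), (nat_lit 8601099322), (nat_lit 9729319187), (nat_lit 9266878921), (nat_lit 8654856014), (nat_lit 8204211203)], (nat_lit 780000), (nat_lit 1271251), (nat_lit 356250), (nat_lit 1100000), (nat_lit 1271251), (nat_lit 1271251), [(nat_lit 1977501), (nat_lit 1271251), (nat_lit 1271251)], [(nat_lit 32), (nat_lit 67), (nat_lit 428), (nat_lit 200), (nat_lit 9)]⟩⟩) (.dle (nat_lit 0))) (.trX (nat_lit 3) (nat_lit 0) (nat_lit 1) (nat_lit 23) (nat_lit 93) (nat_lit 100) (nat_lit 290)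 (.trZ (nat_lit 0) (nat_lit 2) (nat_lit 4) (nat_lit 100) (nat_lit 24) (nat_lit 88) (nat_lit 80) (.leaf ⟨(nat_lit 733), (nat_lit 167), (nat_lit 0), (nat_lit 100), (nat_lit 0), (nat_lit 3431), (nat_lit 3218), (nat_lit 1171), (nat_lit 0), (nat_lit 0), (nat_lit 190580), [((nat_lit 400), [((nat_lit 42), (nat_lit 0), (nat_lit 733))])], ⟨(nat_lit 6), false, true, true, (nat_lit 248), (nat_lit 0), (nat_lit 1119), [(nat_lit 1576876), (nat_lit 1574998), (nat_lit 1600626), (nat_lit 1599998), (nat_lit 1643282), (nat_lit 1637496), (nat_lit 1667034), (nat_lit 1662497)]⟩, ⟨(nat_lit 3), false, false, false, (nat_lit 134), (nat_lit 0), (nat_lit 1119), [(nat_lit 1244686), (nat_lit 1249071), (nat_lit 1314543), (nat_lit 1322675), (nat_lit 1351866), (nat_lit 1349997), (nat_lit 1422657), (nat_lit 1424535)]⟩, (nat_lit 4623274), (nat_lit 42883873), (nat_lit 17506085), (nat_lit 6610042), (nat_lit 5), (nat_lit 0), [⟨(nat_lit 1), (nat_lit 96), (nat_lit 16), (nat_lit 100), (nat_lit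 401621600)⟩], [⟨(nat_lit 0), (nat_lit 100), (nat_lit 16), (nat_lit 95), (nat_lit 1199898)⟩], [], [⟨(nat_lit 1), (nat_lit 71), (nat_lit 100), (nat_lit 97), (nat_lit 16866244)⟩],
 ⟨⟨[(nat_lit 40), (nat_lit 80), (nat_lit 100)], [(nat_lit 0), (nat_lit 3758), (nat_lit 4955)], [((nat_lit 0), (nat_lit 0), (nat_lit 0)), ((nat_lit 1000), (nat_lit 228), (nat_lit 923)), ((nat_lit 1000), (nat_lit 226), (nat_lit 935))], ((nat_lit 22), (nat_lit 100), (nat_lit 95))⟩, (nat_lit 334532), (nat_lit 140), (nat_lit 140), (nat_lit 0), (nat_lit 96283), [(nat_lit 1598917345), (nat_lit 2398973543), (nat_lit 2895498800)], [(nat_lit 0), (nat_lit 0), (nat_lit 0)], [(nat_lit 24890695436), (nat_lit 25195635481), (nat_lit 26631684415), (nat_lit 26991615398), (nat_lit 25290524382), (nat_lit 25567032601), (nat_lit 26882851812), (nat_lit 27133608404)], (nat_lit 1271251), (nat_lit 1271251), (nat_lit 1271251), (nat_lit 1271251), (nat_lit 490000), (nat_lit 1100000), [(nat_lit 490000),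 (nat_lit 1100000), (nat_lit 1442501)], [(nat_lit 3), (nat_lit 50), (nat_lit 249), (nat_lit 40), (nat_lit 8)]⟩,
 ⟨⟨[(nat_lit 100), (nat_lit 160), (nat_lit 200)], [(nat_lit 0), (nat_lit 761), (nat_lit 5273)], [((nat_lit 0), (nat_lit 0), (nat_lit 0)), ((nat_lit 1000), (nat_lit 1000), (nat_lit 198)), ((nat_lit 518), (nat_lit 1000), (nat_lit 909))], ((nat_lit 0), (nat_lit 0), (nat_lit 0))⟩, (nat_lit 509415), (nat_lit 432), (nat_lit 432), (nat_lit 0), (nat_lit 431545), [(nat_lit 1668750000), (nat_lit 3169824000), (nat_lit 4378800000)], [], [(nat_lit 8078211125), (nat_lit 8026611790), (nat_lit 8292017068), (nat_lit 8229603478), (nat_lit 9624340486), (nat_lit 9540629567), (nat_lit 9801491301), (nat_lit 9697031341)], (nat_lit 1271251), (nat_lit 1271251), (nat_lit 1271251), (nat_lit 1271251), (nat_lit 1271251), (nat_lit 1271251), [(nat_lit 1412501), (nat_lit 1271251), (nat_lit 1271251)], [(nat_lit 25), (nat_lit 66), (nat_lit 483), (nat_lit 250), (nat_lit 10)]⟩,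
 ⟨⟨[(nat_lit 140), (nat_lit 180), (nat_lit 200)], [(nat_lit 0), (nat_lit 0), (nat_lit 2835)], [((nat_lit 0), (nat_lit 0), (nat_lit 0)), ((nat_lit 0), (nat_lit 0), (nat_lit 0)), ((nat_lit 363), (nat_lit 1000), (nat_lit 798))], ((nat_lit 0), (nat_lit 0), (nat_lit 0))⟩, (nat_lit 27513), (nat_lit 300), (nat_lit 958), (nat_lit 7810004), (nat_lit 1225709), [(nat_lit 984200000), (nat_lit 1405800000), (nat_lit 1640000000)], [], [(nat_lit 6509542158), (nat_lit 6251818143), (nat_lit 6089376866), (nat_lit 5834067500), (nat_lit 6210481897), (nat_lit 5942609243), (nat_lit 5765203175), (nat_lit 5500915009)], (nat_lit 780000), (nat_lit 1271251), (nat_lit 490000), (nat_lit 1100000), (nat_lit 1271251), (nat_lit 1271251), [(nat_lit 1977501), (nat_lit 1271251), (nat_lit 1271251)], [(nat_lit 32), (nat_lit 67), (nat_lit 428), (nat_lit 200), (nat_lit 9)]⟩⟩)))))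
noncomputable def c13_64 : Tr Lf :=
 (.spl (nat_lit 0) (nat_lit 395) (.spl (nat_lit 6) (nat_lit 120) (.leaf ⟨(nat_lit 1000), (nat_lit 0), (nat_lit 0), (nat_lit 0), (nat_lit 9243), (nat_lit 3623), (nat_lit 0), (nat_lit 0), (nat_lit 0), (nat_lit 0), (nat_lit 250000), [((nat_lit 395), [((nat_lit 29), (nat_lit 0), (nat_lit 1000))])], ⟨(nat_lit 4), false, false, false, (nat_lit 180), (nat_lit 1118), (nat_lit 1582), [(nat_lit 1353643), (nat_lit 1356601), (nat_lit 1423491), (nat_lit 1427757), (nat_lit 1476683), (nat_lit 1476248), (nat_lit 1546564), (nat_lit 1547436)]⟩, ⟨(nat_lit 4), false, false, true, (nat_lit 179), (nat_lit 1118), (nat_lit 1582), [(nat_lit 1352103), (nat_lit 1351868), (nat_lit 1422017), (nat_lit 1423090), (nat_lit 1475033), (nat_lit 1471404), (nat_lit 1544978), (nat_lit 1542657)]⟩, (nat_lit 4575361), (nat_lit 45447695), (nat_lit 10835816), (nat_lit 10716489), (nat_lit 0), (nat_lit 0), [], [⟨(nat_lit 1), (nat_lit 100), (nat_lit 27), (nat_lit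 97), (nat_lit 407171660)⟩], [], [],
 ⟨⟨[(nat_lit 40), (nat_lit 80), (nat_lit 100)], [(nat_lit 0), (nat_lit 3225), (nat_lit 4371)], [((nat_lit 0), (nat_lit 0), (nat_lit 0)), ((nat_lit 1000), (nat_lit 321), (nat_lit 877)), ((nat_lit 1000), (nat_lit 317), (nat_lit 896))], ((nat_lit 31), (nat_lit 100), (nat_lit 92))⟩, (nat_lit 123443), (nat_lit 125), (nat_lit 125), (nat_lit 0), (nat_lit 105758), [(nat_lit 1563200222), (nat_lit 1626717676), (nat_lit 1786400000)], [(nat_lit 0), (nat_lit 0), (nat_lit 0)], [(nat_lit 22710453673), (nat_lit 23078172995), (nat_lit 23891393733), (nat_lit 24209252619), (nat_lit 24968849535), (nat_lit 25282562817), (nat_lit 25863738916), (nat_lit 26140510579)], (nat_lit 1271251), (nat_lit 1271251), (nat_lit 704688), (nat_lit 1433125), (nat_lit 1100000), (nat_lit 1870626), [(nat_lit 490000), (nat_lit 1100000), (nat_lit 1442501)], [(nat_lit 3), (nat_lit 50), (nat_lit 345), (nat_lit 125), (nat_lit 12)]⟩,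
 Rw.none,
 Rw.none⟩) (.dle (nat_lit 0))) (.trZ (nat_lit 0) (nat_lit 1) (nat_lit 3) (nat_lit 100) (nat_lit 22) (nat_lit 95) (nat_lit 130) (.trX (nat_lit 4) (nat_lit 0) (nat_lit 2) (nat_lit 22) (nat_lit 100) (nat_lit 100) (nat_lit 230) (.leaf ⟨(nat_lit 1000), (nat_lit 0), (nat_lit 0), (nat_lit 0), (nat_lit 9748), (nat_lit 3556), (nat_lit 0), (nat_lit 0), (nat_lit 0), (nat_lit 0), (nat_lit 260000), [((nat_lit 400), [((nat_lit 42), (nat_lit 0), (nat_lit 1000))])], ⟨(nat_lit 4), false, false, false, (nat_lit 186), (nat_lit 0), (nat_lit 1119), [(nat_lit 1382114), (nat_lit 1386338), (nat_lit 1451972), (nat_lit 1459942), (nat_lit 1476247), (nat_lit 1474998), (nat_lit 1546570), (nat_lit 1549069)]⟩, ⟨(nat_lit 4), false, false, true, (nat_lit 173), (nat_lit 0), (nat_lit 1119), [(nat_lit 1351866), (nat_lit 1349997), (nat_lit 1422657), (nat_lit 1424535), (nat_lit 1444835), (nat_lit 1437494), (nat_lit 1516091), (nat_lit 1512496)]⟩, (nat_lit 4571411), (nat_lit 45451720),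 (nat_lit 11404919), (nat_lit 10143361), (nat_lit 0), (nat_lit 0), [⟨(nat_lit 0), (nat_lit 100), (nat_lit 16), (nat_lit 100), (nat_lit 560064231)⟩], [⟨(nat_lit 1), (nat_lit 100), (nat_lit 16), (nat_lit 97), (nat_lit 647694487)⟩], [], [],
 ⟨⟨[(nat_lit 40), (nat_lit 80), (nat_lit 100)], [(nat_lit 0), (nat_lit 3758), (nat_lit 4955)], [((nat_lit 0), (nat_lit 0), (nat_lit 0)), ((nat_lit 1000), (nat_lit 228), (nat_lit 923)), ((nat_lit 1000), (nat_lit 226), (nat_lit 935))], ((nat_lit 22), (nat_lit 100), (nat_lit 95))⟩, (nat_lit 123865), (nat_lit 132), (nat_lit 132), (nat_lit 0), (nat_lit 139928), [(nat_lit 1526400001), (nat_lit 1712638728), (nat_lit 1673600000)], [(nat_lit 0), (nat_lit 0), (nat_lit 0)], [(nat_lit 23005279535), (nat_lit 23360255827), (nat_lit 24043987355), (nat_lit 24363419517), (nat_lit 24590204343), (nat_lit 24905339058), (nat_lit 25462486791), (nat_lit 25815991711)], (nat_lit 1271251), (nat_lit 1271251), (nat_lit 857188), (nat_lit 1436876),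 (nat_lit 1100000), (nat_lit 1699376), [(nat_lit 490000), (nat_lit 1100000), (nat_lit 1442501)], [(nat_lit 3), (nat_lit 50), (nat_lit 345), (nat_lit 125), (nat_lit 12)]⟩,
 Rw.none,
 Rw.none⟩))))
noncomputable def c13_65 : Tr Lf :=
 (.spl (nat_lit 2) (nat_lit 160) (.trX (nat_lit 4) (nat_lit 0) (nat_lit 2) (nat_lit 31) (nat_lit 100) (nat_lit 99) (nat_lit 230) (.spl (nat_lit 0) (nat_lit 395) (.spl (nat_lit 6) (nat_lit 120) (.leaf ⟨(nat_lit 1000), (nat_lit 0), (nat_lit 0), (nat_lit 0), (nat_lit 7234), (nat_lit 3581), (nat_lit 0), (nat_lit 0), (nat_lit 0), (nat_lit 0), (nat_lit 250000), [((nat_lit 395), [((nat_lit 29), (nat_lit 0), (nat_lit 1000))])], ⟨(nat_lit 5), false, true, true, (nat_lit 215), (nat_lit 1118), (nat_lit 1582), [(nat_lit 1476683), (nat_lit 1476248), (nat_lit 1546564), (nat_lit 1547436), (nat_lit 1531319), (nat_lit 1529375), (nat_lit 1601263), (nat_lit 1600626)]⟩, ⟨(nat_lit 4), false, false, true, (nat_lit 169), (nat_lit 1118), (nat_lit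 1582), [(nat_lit 1352103), (nat_lit 1351868), (nat_lit 1398733), (nat_lit 1399370), (nat_lit 1447715), (nat_lit 1444840), (nat_lit 1494345), (nat_lit 1492342)]⟩, (nat_lit 4765493), (nat_lit 43426234), (nat_lit 14023142), (nat_lit 9550624), (nat_lit 0), (nat_lit 0), [], [⟨(nat_lit 1), (nat_lit 100), (nat_lit 27), (nat_lit 95), (nat_lit 415173347)⟩], [], [],
 ⟨⟨[(nat_lit 40), (nat_lit 80), (nat_lit 100)], [(nat_lit 0), (nat_lit 3225), (nat_lit 4371)], [((nat_lit 0), (nat_lit 0), (nat_lit 0)), ((nat_lit 1000), (nat_lit 321), (nat_lit 877)), ((nat_lit 1000), (nat_lit 317), (nat_lit 896))], ((nat_lit 31), (nat_lit 100), (nat_lit 92))⟩, (nat_lit 141744), (nat_lit 108), (nat_lit 108), (nat_lit 0), (nat_lit 105218), [(nat_lit 1563200024), (nat_lit 1570234205), (nat_lit 1786400000)], [(nat_lit 0), (nat_lit 0), (nat_lit 0)], [(nat_lit 23858524935), (nat_lit 24160426322), (nat_lit 24736508127), (nat_lit 25018479696), (nat_lit 25280010874), (nat_lit 25559390936),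 (nat_lit 26052550447), (nat_lit 26376263514)], (nat_lit 1271251), (nat_lit 1271251), (nat_lit 1271251), (nat_lit 1271251), (nat_lit 1100000), (nat_lit 1699376), [(nat_lit 490000), (nat_lit 1100000), (nat_lit 1442501)], [(nat_lit 3), (nat_lit 50), (nat_lit 272), (nat_lit 60), (nat_lit 9)]⟩,
 Rw.none,
 Rw.none⟩) (.dle (nat_lit 0))) (.trX (nat_lit 4) (nat_lit 0) (nat_lit 2) (nat_lit 22) (nat_lit 100) (nat_lit 98) (nat_lit 210) (.leaf ⟨(nat_lit 1000), (nat_lit 0), (nat_lit 0), (nat_lit 0), (nat_lit 7716), (nat_lit 3532), (nat_lit 0), (nat_lit 0), (nat_lit 0), (nat_lit 0), (nat_lit 260000), [((nat_lit 400), [((nat_lit 42), (nat_lit 0), (nat_lit 1000))])], ⟨(nat_lit 5), false, true, true, (nat_lit 215), (nat_lit 0), (nat_lit 1119), [(nat_lit 1476247), (nat_lit 1474998), (nat_lit 1546570), (nat_lit 1549069), (nat_lit 1529372), (nat_lit 1524996), (nat_lit 1600626), (nat_lit 1599998)]⟩, ⟨(nat_lit 4), false, false, true, (nat_lit 163), (nat_lit 0), (nat_lit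 1119), [(nat_lit 1351866), (nat_lit 1349997), (nat_lit 1399370), (nat_lit 1399999), (nat_lit 1418272), (nat_lit 1412494), (nat_lit 1465776), (nat_lit 1462497)]⟩, (nat_lit 4706427), (nat_lit 43864376), (nat_lit 14063566), (nat_lit 9072058), (nat_lit 0), (nat_lit 0), [], [⟨(nat_lit 1), (nat_lit 100), (nat_lit 16), (nat_lit 96), (nat_lit 790068148)⟩], [], [],
 ⟨⟨[(nat_lit 40), (nat_lit 80), (nat_lit 100)], [(nat_lit 0), (nat_lit 3758), (nat_lit 4955)], [((nat_lit 0), (nat_lit 0), (nat_lit 0)), ((nat_lit 1000), (nat_lit 228), (nat_lit 923)), ((nat_lit 1000), (nat_lit 226), (nat_lit 935))], ((nat_lit 22), (nat_lit 100), (nat_lit 95))⟩, (nat_lit 134215), (nat_lit 121), (nat_lit 121), (nat_lit 0), (nat_lit 138847), [(nat_lit 1526400024), (nat_lit 1553395186), (nat_lit 1673600000)], [(nat_lit 0), (nat_lit 0), (nat_lit 0)], [(nat_lit 24018390579), (nat_lit 24318883299), (nat_lit 24877316547), (nat_lit 25174038995), (nat_lit 25014347133), (nat_lit 25331484903),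 (nat_lit 25895387050), (nat_lit 26235100930)], (nat_lit 1271251), (nat_lit 1271251), (nat_lit 1271251), (nat_lit 1271251), (nat_lit 1100000), (nat_lit 1528126), [(nat_lit 490000), (nat_lit 1100000), (nat_lit 1442501)], [(nat_lit 3), (nat_lit 50), (nat_lit 272), (nat_lit 60), (nat_lit 9)]⟩,
 Rw.none,
 Rw.none⟩)))) (.spl (nat_lit 6) (nat_lit 104) (.leaf ⟨(nat_lit 1000), (nat_lit 0), (nat_lit 0), (nat_lit 0), (nat_lit 7810), (nat_lit 3298), (nat_lit 0), (nat_lit 0), (nat_lit 0), (nat_lit 0), (nat_lit 250000), [((nat_lit 400), [((nat_lit 29), (nat_lit 0), (nat_lit 1000))])], ⟨(nat_lit 5), false, true, true, (nat_lit 215), (nat_lit 0), (nat_lit 1582), [(nat_lit 1476683), (nat_lit 1474999), (nat_lit 1545316), (nat_lit 1548686), (nat_lit 1531317), (nat_lit 1524997), (nat_lit 1601257), (nat_lit 1599992)]⟩, ⟨(nat_lit 4), false, false, true, (nat_lit 188), (nat_lit 0), (nat_lit 1582), [(nat_lit 1398733), (nat_lit 1399999), (nat_lit 1421394), (nat_lit 1424345),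 (nat_lit 1521659), (nat_lit 1512494), (nat_lit 1544976), (nat_lit 1537497)]⟩, (nat_lit 4925863), (nat_lit 42158976), (nat_lit 13745237), (nat_lit 11095787), (nat_lit 0), (nat_lit 0), [], [⟨(nat_lit 1), (nat_lit 100), (nat_lit 22), (nat_lit 99), (nat_lit 429076320)⟩], [], [],
 ⟨⟨[(nat_lit 40), (nat_lit 80), (nat_lit 100)], [(nat_lit 0), (nat_lit 3225), (nat_lit 4371)], [((nat_lit 0), (nat_lit 0), (nat_lit 0)), ((nat_lit 1000), (nat_lit 321), (nat_lit 877)), ((nat_lit 1000), (nat_lit 317), (nat_lit 896))], ((nat_lit 32), (nat_lit 100), (nat_lit 89))⟩, (nat_lit 0), (nat_lit 79), (nat_lit 79), (nat_lit 0), (nat_lit 50997), [(nat_lit 1563200236), (nat_lit 1376400241), (nat_lit 1786400000)], [(nat_lit 0), (nat_lit 0), (nat_lit 0)], [(nat_lit 23625379913), (nat_lit 24243667069), (nat_lit 24569665225), (nat_lit 25146968005), (nat_lit 25700811470), (nat_lit 26233524720), (nat_lit 26491523934), (nat_lit 26991337609)], (nat_lit 1271251), (nat_lit 1271251), (nat_lit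 1271251), (nat_lit 1271251), (nat_lit 1100000), (nat_lit 1870626), [(nat_lit 490000), (nat_lit 1100000), (nat_lit 1442501)], [(nat_lit 3), (nat_lit 50), (nat_lit 289), (nat_lit 75), (nat_lit 9)]⟩,
 Rw.none,
 Rw.none⟩) (.dle (nat_lit 0))))
noncomputable def c13_66 : Tr Lf :=
 (.spl (nat_lit 1) (nat_lit 220) (.trX (nat_lit 3) (nat_lit 0) (nat_lit 1) (nat_lit 31) (nat_lit 92) (nat_lit 100) (nat_lit 290) (.spl (nat_lit 6) (nat_lit 124) (.spl (nat_lit 2) (nat_lit 160) (.trX (nat_lit 4) (nat_lit 0) (nat_lit 2) (nat_lit 31) (nat_lit 100) (nat_lit 99) (nat_lit 230) (.leaf ⟨(nat_lit 1000), (nat_lit 0), (nat_lit 0), (nat_lit 0), (nat_lit 9757), (nat_lit 3461), (nat_lit 0), (nat_lit 0), (nat_lit 0), (nat_lit 0), (nat_lit 260000), [((nat_lit 400), [((nat_lit 42), (nat_lit 0), (nat_lit 1000))])], ⟨(nat_lit 6), false, true, true, (nat_lit 234), (nat_lit 0), (nat_lit 1582), [(nat_lit 1531317), (nat_lit 1524997), (nat_lit 1577949), (nat_lit 1574999), (nat_lit 1599609),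 (nat_lit 1587494), (nat_lit 1646241), (nat_lit 1637496)]⟩, ⟨(nat_lit 4), false, false, true, (nat_lit 168), (nat_lit 0), (nat_lit 1582), [(nat_lit 1352101), (nat_lit 1349997), (nat_lit 1398733), (nat_lit 1399999), (nat_lit 1447710), (nat_lit 1437494), (nat_lit 1494343), (nat_lit 1487497)]⟩, (nat_lit 4878481), (nat_lit 41992668), (nat_lit 15700364), (nat_lit 9306968), (nat_lit 0), (nat_lit 0), [⟨(nat_lit 1), (nat_lit 98), (nat_lit 22), (nat_lit 100), (nat_lit 227120119)⟩, ⟨(nat_lit 1), (nat_lit 92), (nat_lit 31), (nat_lit 100), (nat_lit 397104205)⟩], [⟨(nat_lit 1), (nat_lit 100), (nat_lit 22), (nat_lit 96), (nat_lit 509891272)⟩], [], [],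
 ⟨⟨[(nat_lit 40), (nat_lit 80), (nat_lit 100)], [(nat_lit 0), (nat_lit 3225), (nat_lit 4371)], [((nat_lit 0), (nat_lit 0), (nat_lit 0)), ((nat_lit 1000), (nat_lit 321), (nat_lit 877)), ((nat_lit 1000), (nat_lit 317), (nat_lit 896))], ((nat_lit 31), (nat_lit 100), (nat_lit 93))⟩, (nat_lit 90447), (nat_lit 119), (nat_lit 119), (nat_lit 0), (nat_lit 118206), [(nat_lit 1526400014), (nat_lit 1526635466), (nat_lit 1673600000)], [(nat_lit 0), (nat_lit 0), (nat_lit 0)], [(nat_lit 24947715264), (nat_lit 25502869773), (nat_lit 26568905670), (nat_lit 27100384903), (nat_lit 26262479689), (nat_lit 26759626687), (nat_lit 27753180399), (nat_lit 28337193484)], (nat_lit 1271251), (nat_lit 1271251), (nat_lit 1271251), (nat_lit 1271251), (nat_lit 1100000), (nat_lit 1699376), [(nat_lit 490000), (nat_lit 1100000), (nat_lit 1442501)], [(nat_lit 3), (nat_lit 50), (nat_lit 272), (nat_lit 60), (nat_lit 8)]⟩,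
 Rw.none,
 Rw.none⟩)) (.spl (nat_lit 6) (nat_lit 100) (.leaf ⟨(nat_lit 1000), (nat_lit 0), (nat_lit 0), (nat_lit 0), (nat_lit 26174), (nat_lit 3298), (nat_lit 0), (nat_lit 0), (nat_lit 0), (nat_lit 0), (nat_lit 250000), [((nat_lit 400), [((nat_lit 29), (nat_lit 0), (nat_lit 1000))])], ⟨(nat_lit 6), false, true, true, (nat_lit 234), (nat_lit 0), (nat_lit 1582), [(nat_lit 1531317), (nat_lit 1524997), (nat_lit 1577949), (nat_lit 1574999), (nat_lit 1599609), (nat_lit 1587494), (nat_lit 1646241), (nat_lit 1637496)]⟩, ⟨(nat_lit 4), false, false, true, (nat_lit 188), (nat_lit 0), (nat_lit 1582), [(nat_lit 1398733), (nat_lit 1399999), (nat_lit 1421394), (nat_lit 1424345), (nat_lit 1521659), (nat_lit 1512494), (nat_lit 1544976), (nat_lit 1537497)]⟩, (nat_lit 5041799), (nat_lit 40741817), (nat_lit 15396989), (nat_lit 10861194), (nat_lit 0), (nat_lit 0), [⟨(nat_lit 1), (nat_lit 98), (nat_lit 22), (nat_lit 100), (nat_lit 896421215)⟩], [⟨(nat_lit 1), (nat_lit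 100), (nat_lit 22), (nat_lit 99), (nat_lit 510216182)⟩], [], [],
 ⟨⟨[(nat_lit 40), (nat_lit 60), (nat_lit 80)], [(nat_lit 0), (nat_lit 2136), (nat_lit 3185)], [((nat_lit 0), (nat_lit 0), (nat_lit 0)), ((nat_lit 1000), (nat_lit 343), (nat_lit 808)), ((nat_lit 1000), (nat_lit 338), (nat_lit 820))], ((nat_lit 32), (nat_lit 100), (nat_lit 88))⟩, (nat_lit 0), (nat_lit 82), (nat_lit 82), (nat_lit 0), (nat_lit 35032), [(nat_lit 1563200002), (nat_lit 1237441034), (nat_lit 1376400000)], [(nat_lit 0), (nat_lit 0), (nat_lit 0)], [(nat_lit 24569664750), (nat_lit 25146967530), (nat_lit 26271833657), (nat_lit 26870516070), (nat_lit 26491523459), (nat_lit 26991337609), (nat_lit 28101776576), (nat_lit 28652905650)], (nat_lit 1271251), (nat_lit 1271251), (nat_lit 1271251), (nat_lit 1271251), (nat_lit 1100000), (nat_lit 1870626), [(nat_lit 490000), (nat_lit 780000), (nat_lit 1100000)], [(nat_lit 2), (nat_lit 44), (nat_lit 203), (nat_lit 0), (nat_lit 7)]⟩,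
 Rw.none,
 Rw.none⟩) (.dle (nat_lit 0)))) (.dle (nat_lit 0)))) (.spl (nat_lit 5) (nat_lit 120) (.stt (nat_lit 1) (.spl (nat_lit 0) (nat_lit 395) (.spl (nat_lit 6) (nat_lit 120) (.leaf ⟨(nat_lit 612), (nat_lit 388), (nat_lit 0), (nat_lit 0), (nat_lit 11616), (nat_lit 4026), (nat_lit 3180), (nat_lit 0), (nat_lit 0), (nat_lit 0), (nat_lit 153000), [((nat_lit 395), [((nat_lit 29), (nat_lit 0), (nat_lit 612))])], ⟨(nat_lit 6), false, true, true, (nat_lit 252), (nat_lit 1118), (nat_lit 1582), [(nat_lit 1577949), (nat_lit 1576877), (nat_lit 1601263), (nat_lit 1600626), (nat_lit 1659903), (nat_lit 1656567), (nat_lit 1683218), (nat_lit 1680318)]⟩, ⟨(nat_lit 4), false, false, true, (nat_lit 179), (nat_lit 1118), (nat_lit 1582), [(nat_lit 1352103), (nat_lit 1351868), (nat_lit 1422017), (nat_lit 1423090), (nat_lit 1475033), (nat_lit 1471404), (nat_lit 1544978), (nat_lit 1542657)]⟩, (nat_lit 5062753), (nat_lit 39940850), (nat_lit 17124197), (nat_lit 9934953),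 (nat_lit 4), (nat_lit 0), [⟨(nat_lit 1), (nat_lit 92), (nat_lit 27), (nat_lit 100), (nat_lit 62659596)⟩], [⟨(nat_lit 1), (nat_lit 100), (nat_lit 27), (nat_lit 97), (nat_lit 591019577)⟩], [], [⟨(nat_lit 0), (nat_lit 100), (nat_lit 94), (nat_lit 37), (nat_lit 47736635)⟩],
 ⟨⟨[(nat_lit 40), (nat_lit 80), (nat_lit 100)], [(nat_lit 0), (nat_lit 3225), (nat_lit 4371)], [((nat_lit 0), (nat_lit 0), (nat_lit 0)), ((nat_lit 1000), (nat_lit 321), (nat_lit 877)), ((nat_lit 1000), (nat_lit 317), (nat_lit 896))], ((nat_lit 31), (nat_lit 100), (nat_lit 92))⟩, (nat_lit 0), (nat_lit 72), (nat_lit 72), (nat_lit 0), (nat_lit 0), [(nat_lit 1693534405), (nat_lit 2661300801), (nat_lit 3518276800)], [(nat_lit 0), (nat_lit 0), (nat_lit 0)], [(nat_lit 25383034852), (nat_lit 25719992867), (nat_lit 27629682081), (nat_lit 27925659982), (nat_lit 27317680720), (nat_lit 27605694081), (nat_lit 29224120795), (nat_lit 29478306688)], (nat_lit 0), (nat_lit 0), (nat_lit 0), (nat_lit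 0), (nat_lit 0), (nat_lit 0), [], [(nat_lit 3), (nat_lit 50), (nat_lit 289), (nat_lit 75), (nat_lit 9)]⟩,
 ⟨⟨[(nat_lit 100), (nat_lit 160), (nat_lit 200)], [(nat_lit 0), (nat_lit 761), (nat_lit 5273)], [((nat_lit 0), (nat_lit 0), (nat_lit 0)), ((nat_lit 1000), (nat_lit 1000), (nat_lit 198)), ((nat_lit 518), (nat_lit 1000), (nat_lit 909))], ((nat_lit 0), (nat_lit 0), (nat_lit 0))⟩, (nat_lit 748911), (nat_lit 498), (nat_lit 498), (nat_lit 0), (nat_lit 262296), [(nat_lit 2425000000), (nat_lit 4606336000), (nat_lit 6363200000)], [], [(nat_lit 16841557338), (nat_lit 16861297682), (nat_lit 17400743877), (nat_lit 17387267786), (nat_lit 14528282156), (nat_lit 14575676474), (nat_lit 15072319976), (nat_lit 15101216866)], (nat_lit 1271251), (nat_lit 1271251), (nat_lit 1271251), (nat_lit 1271251), (nat_lit 0), (nat_lit 780000), [(nat_lit 1412501), (nat_lit 1271251), (nat_lit 1271251)], [(nat_lit 25), (nat_lit 66), (nat_lit 401), (nat_lit 175), (nat_lit 8)]⟩,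
 Rw.none⟩) (.dle (nat_lit 0))) (.trX (nat_lit 3) (nat_lit 0) (nat_lit 1) (nat_lit 23) (nat_lit 93) (nat_lit 100) (nat_lit 290) (.trX (nat_lit 4) (nat_lit 0) (nat_lit 2) (nat_lit 22) (nat_lit 100) (nat_lit 100) (nat_lit 230) (.leaf ⟨(nat_lit 802), (nat_lit 198), (nat_lit 0), (nat_lit 0), (nat_lit 11883), (nat_lit 3574), (nat_lit 1635), (nat_lit 0), (nat_lit 0), (nat_lit 0), (nat_lit 208520), [((nat_lit 400), [((nat_lit 42), (nat_lit 0), (nat_lit 802))])], ⟨(nat_lit 6), false, true, true, (nat_lit 248), (nat_lit 0), (nat_lit 1119), [(nat_lit 1576876), (nat_lit 1574998), (nat_lit 1600626), (nat_lit 1599998), (nat_lit 1643282), (nat_lit 1637496), (nat_lit 1667034), (nat_lit 1662497)]⟩, ⟨(nat_lit 4), false, false, true, (nat_lit 173), (nat_lit 0), (nat_lit 1119), [(nat_lit 1351866), (nat_lit 1349997), (nat_lit 1422657), (nat_lit 1424535), (nat_lit 1444835), (nat_lit 1437494), (nat_lit 1516091), (nat_lit 1512496)]⟩, (nat_lit 4994388), (nat_lit 40594749),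 (nat_lit 16900102), (nat_lit 9505149), (nat_lit 4), (nat_lit 0), [⟨(nat_lit 1), (nat_lit 96), (nat_lit 16), (nat_lit 100), (nat_lit 629991926)⟩, ⟨(nat_lit 1), (nat_lit 93), (nat_lit 23), (nat_lit 100), (nat_lit 29927147)⟩], [⟨(nat_lit 1), (nat_lit 100), (nat_lit 16), (nat_lit 97), (nat_lit 806317901)⟩], [], [⟨(nat_lit 0), (nat_lit 100), (nat_lit 95), (nat_lit 30), (nat_lit 24166082)⟩],
 ⟨⟨[(nat_lit 40), (nat_lit 80), (nat_lit 100)], [(nat_lit 0), (nat_lit 3758), (nat_lit 4955)], [((nat_lit 0), (nat_lit 0), (nat_lit 0)), ((nat_lit 1000), (nat_lit 228), (nat_lit 923)), ((nat_lit 1000), (nat_lit 226), (nat_lit 935))], ((nat_lit 22), (nat_lit 100), (nat_lit 95))⟩, (nat_lit 0), (nat_lit 73), (nat_lit 73), (nat_lit 0), (nat_lit 0), [(nat_lit 1580178823), (nat_lit 1969220020), (nat_lit 2579727200)], [(nat_lit 0), (nat_lit 0), (nat_lit 0)], [(nat_lit 25180648837), (nat_lit 25480113907), (nat_lit 26935728763), (nat_lit 27222235105), (nat_lit 26553857244),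 (nat_lit 26836899052), (nat_lit 28160986154), (nat_lit 28457209944)], (nat_lit 0), (nat_lit 0), (nat_lit 0), (nat_lit 0), (nat_lit 0), (nat_lit 0), [], [(nat_lit 3), (nat_lit 50), (nat_lit 272), (nat_lit 60), (nat_lit 8)]⟩,
 ⟨⟨[(nat_lit 100), (nat_lit 160), (nat_lit 200)], [(nat_lit 0), (nat_lit 761), (nat_lit 5273)], [((nat_lit 0), (nat_lit 0), (nat_lit 0)), ((nat_lit 1000), (nat_lit 1000), (nat_lit 198)), ((nat_lit 518), (nat_lit 1000), (nat_lit 909))], ((nat_lit 0), (nat_lit 0), (nat_lit 0))⟩, (nat_lit 387884), (nat_lit 538), (nat_lit 538), (nat_lit 0), (nat_lit 361008), [(nat_lit 1237500000), (nat_lit 2350656000), (nat_lit 3247200000)], [], [(nat_lit 8556010996), (nat_lit 8565546760), (nat_lit 8793920070), (nat_lit 8789211288), (nat_lit 7372555405), (nat_lit 7396341808), (nat_lit 7604084680), (nat_lit 7618857486)], (nat_lit 1271251), (nat_lit 1271251), (nat_lit 1271251), (nat_lit 1271251), (nat_lit 0), (nat_lit 780000), [(nat_lit 1412501), (nat_lit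 1271251), (nat_lit 1271251)], [(nat_lit 25), (nat_lit 66), (nat_lit 401), (nat_lit 175), (nat_lit 8)]⟩,
 Rw.none⟩)))) (.leaf ⟨(nat_lit 469), (nat_lit 531), (nat_lit 0), (nat_lit 0), (nat_lit 13964), (nat_lit 5481), (nat_lit 6403), (nat_lit 0), (nat_lit 0), (nat_lit 0), (nat_lit 121940), [((nat_lit 400), [((nat_lit 42), (nat_lit 0), (nat_lit 469))])], ⟨(nat_lit 6), false, true, true, (nat_lit 251), (nat_lit 0), (nat_lit 1582), [(nat_lit 1577949), (nat_lit 1574999), (nat_lit 1601257), (nat_lit 1599992), (nat_lit 1659900), (nat_lit 1649996), (nat_lit 1683216), (nat_lit 1674997)]⟩, ⟨(nat_lit 4), false, false, true, (nat_lit 178), (nat_lit 0), (nat_lit 1582), [(nat_lit 1352101), (nat_lit 1349997), (nat_lit 1421394), (nat_lit 1424345), (nat_lit 1475027), (nat_lit 1462493), (nat_lit 1544976), (nat_lit 1537497)]⟩, (nat_lit 5053215), (nat_lit 40041681), (nat_lit 17073497), (nat_lit 9884822), (nat_lit 4), (nat_lit 0), [⟨(nat_lit 1), (nat_lit 94), (nat_lit 22),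 (nat_lit 100), (nat_lit 50669427)⟩], [⟨(nat_lit 1), (nat_lit 100), (nat_lit 22), (nat_lit 97), (nat_lit 734604865)⟩], [], [⟨(nat_lit 0), (nat_lit 100), (nat_lit 94), (nat_lit 37), (nat_lit 141672904)⟩],
 ⟨⟨[(nat_lit 40), (nat_lit 80), (nat_lit 100)], [(nat_lit 0), (nat_lit 3225), (nat_lit 4371)], [((nat_lit 0), (nat_lit 0), (nat_lit 0)), ((nat_lit 1000), (nat_lit 321), (nat_lit 877)), ((nat_lit 1000), (nat_lit 317), (nat_lit 896))], ((nat_lit 31), (nat_lit 100), (nat_lit 94))⟩, (nat_lit 0), (nat_lit 127), (nat_lit 127), (nat_lit 0), (nat_lit 140726), [(nat_lit 1890176446), (nat_lit 3529488002), (nat_lit 4103668400)], [(nat_lit 0), (nat_lit 0), (nat_lit 0)], [(nat_lit 26925190830), (nat_lit 27669357460), (nat_lit 29226866407), (nat_lit 29875240858), (nat_lit 28615999648), (nat_lit 29245568432), (nat_lit 30658276023), (nat_lit 31345129305)], (nat_lit 1271251), (nat_lit 1271251), (nat_lit 1271251), (nat_lit 1271251), (nat_lit 1100000), (nat_lit 1870626),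 [(nat_lit 490000), (nat_lit 1100000), (nat_lit 1442501)], [(nat_lit 3), (nat_lit 50), (nat_lit 289), (nat_lit 75), (nat_lit 9)]⟩,
 ⟨⟨[(nat_lit 100), (nat_lit 160), (nat_lit 200)], [(nat_lit 0), (nat_lit 761), (nat_lit 5273)], [((nat_lit 0), (nat_lit 0), (nat_lit 0)), ((nat_lit 1000), (nat_lit 1000), (nat_lit 198)), ((nat_lit 518), (nat_lit 1000), (nat_lit 909))], ((nat_lit 0), (nat_lit 0), (nat_lit 0))⟩, (nat_lit 1289977), (nat_lit 454), (nat_lit 454), (nat_lit 0), (nat_lit 153495), [(nat_lit 3318750000), (nat_lit 6304032000), (nat_lit 8708400000)], [], [(nat_lit 20786060320), (nat_lit 20876543398), (nat_lit 22103265093), (nat_lit 22109873638), (nat_lit 15935098891), (nat_lit 16004679584), (nat_lit 17079576844), (nat_lit 17073895736)], (nat_lit 1271251), (nat_lit 1271251), (nat_lit 1271251), (nat_lit 1271251), (nat_lit 0), (nat_lit 780000), [(nat_lit 1412501), (nat_lit 1271251), (nat_lit 1271251)], [(nat_lit 25), (nat_lit 66), (nat_lit 401), (nat_lit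 175), (nat_lit 8)]⟩,
 Rw.none⟩)) (.stt (nat_lit 1) (.spl (nat_lit 0) (nat_lit 395) (.spl (nat_lit 6) (nat_lit 120) (.leaf ⟨(nat_lit 683), (nat_lit 211), (nat_lit 0), (nat_lit 106), (nat_lit 2746), (nat_lit 3874), (nat_lit 3622), (nat_lit 991), (nat_lit 0), (nat_lit 0), (nat_lit 170750), [((nat_lit 395), [((nat_lit 29), (nat_lit 0), (nat_lit 683))])], ⟨(nat_lit 6), false, true, true, (nat_lit 252), (nat_lit 1118), (nat_lit 1582), [(nat_lit 1577949), (nat_lit 1576877), (nat_lit 1601263), (nat_lit 1600626), (nat_lit 1659903), (nat_lit 1656567), (nat_lit 1683218), (nat_lit 1680318)]⟩, ⟨(nat_lit 4), false, false, true, (nat_lit 179), (nat_lit 1118), (nat_lit 1582), [(nat_lit 1352103), (nat_lit 1351868), (nat_lit 1422017), (nat_lit 1423090), (nat_lit 1475033), (nat_lit 1471404), (nat_lit 1544978), (nat_lit 1542657)]⟩, (nat_lit 5062753), (nat_lit 39940850), (nat_lit 17124197), (nat_lit 9934953), (nat_lit 4), (nat_lit 0), [⟨(nat_lit 1), (nat_lit 92), (nat_lit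 27), (nat_lit 100), (nat_lit 245057988)⟩], [⟨(nat_lit 1), (nat_lit 100), (nat_lit 27), (nat_lit 97), (nat_lit 305505634)⟩], [], [],
 ⟨⟨[(nat_lit 40), (nat_lit 80), (nat_lit 100)], [(nat_lit 0), (nat_lit 3225), (nat_lit 4371)], [((nat_lit 0), (nat_lit 0), (nat_lit 0)), ((nat_lit 1000), (nat_lit 321), (nat_lit 877)), ((nat_lit 1000), (nat_lit 317), (nat_lit 896))], ((nat_lit 31), (nat_lit 100), (nat_lit 92))⟩, (nat_lit 0), (nat_lit 72), (nat_lit 72), (nat_lit 0), (nat_lit 0), [(nat_lit 1662371217), (nat_lit 2426177213), (nat_lit 3201361200)], [(nat_lit 0), (nat_lit 0), (nat_lit 0)], [(nat_lit 25196974812), (nat_lit 25527482973), (nat_lit 27419475359), (nat_lit 27710164895), (nat_lit 27138611264), (nat_lit 27421538919), (nat_lit 29029868071), (nat_lit 29318839283)], (nat_lit 0), (nat_lit 0), (nat_lit 0), (nat_lit 0), (nat_lit 0), (nat_lit 0), [], [(nat_lit 3), (nat_lit 50), (nat_lit 289), (nat_lit 75), (nat_lit 9)]⟩,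
 ⟨⟨[(nat_lit 100), (nat_lit 160), (nat_lit 200)], [(nat_lit 0), (nat_lit 761), (nat_lit 5273)], [((nat_lit 0), (nat_lit 0), (nat_lit 0)), ((nat_lit 1000), (nat_lit 1000), (nat_lit 198)), ((nat_lit 518), (nat_lit 1000), (nat_lit 909))], ((nat_lit 0), (nat_lit 0), (nat_lit 0))⟩, (nat_lit 627825), (nat_lit 418), (nat_lit 418), (nat_lit 0), (nat_lit 312939), [(nat_lit 1981250000), (nat_lit 3763424000), (nat_lit 5198800000)], [], [(nat_lit 10389799866), (nat_lit 10358871412), (nat_lit 10795426751), (nat_lit 10731751663), (nat_lit 11513165550), (nat_lit 11416919371), (nat_lit 11911982472), (nat_lit 11847238351)], (nat_lit 1271251), (nat_lit 1271251), (nat_lit 1271251), (nat_lit 1271251), (nat_lit 780000), (nat_lit 3072501), [(nat_lit 1412501), (nat_lit 1271251), (nat_lit 1271251)], [(nat_lit 25), (nat_lit 66), (nat_lit 483), (nat_lit 250), (nat_lit 10)]⟩,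
 ⟨⟨[(nat_lit 140), (nat_lit 180), (nat_lit 200)], [(nat_lit 0), (nat_lit 0), (nat_lit 2835)], [((nat_lit 0), (nat_lit 0), (nat_lit 0)), ((nat_lit 0), (nat_lit 0), (nat_lit 0)), ((nat_lit 363), (nat_lit 1000), (nat_lit 798))], ((nat_lit 0), (nat_lit 0), (nat_lit 0))⟩, (nat_lit 29164), (nat_lit 300), (nat_lit 967), (nat_lit 8278601), (nat_lit 1258046), [(nat_lit 1043252000), (nat_lit 1490148000), (nat_lit 1738400000)], [], [(nat_lit 7986742396), (nat_lit 7782392583), (nat_lit 7749159470), (nat_lit 7542458368), (nat_lit 7397222874), (nat_lit 7181167567), (nat_lit 7132353821), (nat_lit 6987159892)], (nat_lit 780000), (nat_lit 1271251), (nat_lit 1100000), (nat_lit 1870626), (nat_lit 780000), (nat_lit 3072501), [(nat_lit 1977501), (nat_lit 1271251), (nat_lit 1271251)], [(nat_lit 32), (nat_lit 67), (nat_lit 456), (nat_lit 225), (nat_lit 10)]⟩⟩) (.dle (nat_lit 0))) (.trX (nat_lit 3) (nat_lit 0) (nat_lit 1) (nat_lit 23) (nat_lit 93) (nat_lit 100) (nat_lit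 290) (.trX (nat_lit 4) (nat_lit 0) (nat_lit 2) (nat_lit 22) (nat_lit 100) (nat_lit 100) (nat_lit 230) (.leaf ⟨(nat_lit 926), (nat_lit 51), (nat_lit 0), (nat_lit 23), (nat_lit 10125), (nat_lit 3362), (nat_lit 865), (nat_lit 251), (nat_lit 0), (nat_lit 0), (nat_lit 240760), [((nat_lit 400), [((nat_lit 42), (nat_lit 0), (nat_lit 926))])], ⟨(nat_lit 6), false, true, true, (nat_lit 248), (nat_lit 0), (nat_lit 1119), [(nat_lit 1576876), (nat_lit 1574998), (nat_lit 1600626), (nat_lit 1599998), (nat_lit 1643282), (nat_lit 1637496), (nat_lit 1667034), (nat_lit 1662497)]⟩, ⟨(nat_lit 4), false, false, true, (nat_lit 173), (nat_lit 0), (nat_lit 1119), [(nat_lit 1351866), (nat_lit 1349997), (nat_lit 1422657), (nat_lit 1424535), (nat_lit 1444835), (nat_lit 1437494), (nat_lit 1516091), (nat_lit 1512496)]⟩, (nat_lit 4994388), (nat_lit 40594749), (nat_lit 16900102), (nat_lit 9505149), (nat_lit 4), (nat_lit 0), [⟨(nat_lit 1), (nat_lit 93), (nat_lit 23), (nat_lit 100),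 (nat_lit 619399642)⟩], [⟨(nat_lit 1), (nat_lit 100), (nat_lit 16), (nat_lit 97), (nat_lit 576768966)⟩, ⟨(nat_lit 1), (nat_lit 100), (nat_lit 22), (nat_lit 100), (nat_lit 63451349)⟩], [], [],
 ⟨⟨[(nat_lit 40), (nat_lit 80), (nat_lit 100)], [(nat_lit 0), (nat_lit 3758), (nat_lit 4955)], [((nat_lit 0), (nat_lit 0), (nat_lit 0)), ((nat_lit 1000), (nat_lit 228), (nat_lit 923)), ((nat_lit 1000), (nat_lit 226), (nat_lit 935))], ((nat_lit 22), (nat_lit 100), (nat_lit 95))⟩, (nat_lit 0), (nat_lit 73), (nat_lit 73), (nat_lit 0), (nat_lit 0), [(nat_lit 1546498422), (nat_lit 1548860022), (nat_lit 2012253600)], [(nat_lit 0), (nat_lit 0), (nat_lit 0)], [(nat_lit 24947415766), (nat_lit 25238574676), (nat_lit 26630015005), (nat_lit 26945297830), (nat_lit 26333037230), (nat_lit 26593530292), (nat_lit 27943734535), (nat_lit 28232046321)], (nat_lit 0), (nat_lit 0), (nat_lit 0), (nat_lit 0), (nat_lit 0), (nat_lit 0), [], [(nat_lit 3), (nat_lit 50), (nat_lit 272), (nat_lit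 60), (nat_lit 8)]⟩,
 ⟨⟨[(nat_lit 100), (nat_lit 160), (nat_lit 200)], [(nat_lit 0), (nat_lit 761), (nat_lit 5273)], [((nat_lit 0), (nat_lit 0), (nat_lit 0)), ((nat_lit 1000), (nat_lit 1000), (nat_lit 198)), ((nat_lit 518), (nat_lit 1000), (nat_lit 909))], ((nat_lit 0), (nat_lit 0), (nat_lit 0))⟩, (nat_lit 137524), (nat_lit 469), (nat_lit 469), (nat_lit 0), (nat_lit 431545), [(nat_lit 462500000), (nat_lit 878528000), (nat_lit 1213600000)], [], [(nat_lit 2454863336), (nat_lit 2446802544), (nat_lit 2533754753), (nat_lit 2519199219), (nat_lit 2733402934), (nat_lit 2709762716), (nat_lit 2777495585), (nat_lit 2748541007)], (nat_lit 1271251), (nat_lit 1271251), (nat_lit 1271251), (nat_lit 1271251), (nat_lit 780000), (nat_lit 3072501), [(nat_lit 1412501), (nat_lit 1271251), (nat_lit 1271251)], [(nat_lit 25), (nat_lit 66), (nat_lit 483), (nat_lit 250), (nat_lit 10)]⟩,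
 ⟨⟨[(nat_lit 140), (nat_lit 180), (nat_lit 200)], [(nat_lit 0), (nat_lit 0), (nat_lit 2835)], [((nat_lit 0), (nat_lit 0), (nat_lit 0)), ((nat_lit 0), (nat_lit 0), (nat_lit 0)), ((nat_lit 363), (nat_lit 1000), (nat_lit 798))], ((nat_lit 0), (nat_lit 0), (nat_lit 0))⟩, (nat_lit 6328), (nat_lit 300), (nat_lit 1174), (nat_lit 1796301), (nat_lit 1709558), [(nat_lit 226366000), (nat_lit 323334000), (nat_lit 377200000)], [], [(nat_lit 1584917476), (nat_lit 1529238961), (nat_lit 1530807811), (nat_lit 1474912507), (nat_lit 1413335984), (nat_lit 1355466923), (nat_lit 1357466107), (nat_lit 1542189777)], (nat_lit 780000), (nat_lit 1271251), (nat_lit 1100000), (nat_lit 1699376), (nat_lit 780000), (nat_lit 3072501), [(nat_lit 1977501), (nat_lit 1271251), (nat_lit 1271251)], [(nat_lit 32), (nat_lit 67), (nat_lit 456), (nat_lit 225), (nat_lit 10)]⟩⟩)))) (.leaf ⟨(nat_lit 0), (nat_lit 627), (nat_lit 0), (nat_lit 373), (nat_lit 128), (nat_lit 7332), (nat_lit 11882),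 (nat_lit 3896), (nat_lit 0), (nat_lit 0), (nat_lit 0), [], Pd.none, Pd.none, (nat_lit 0), (nat_lit 1), (nat_lit 0), (nat_lit 0), (nat_lit 4), (nat_lit 0), [], [⟨(nat_lit 1), (nat_lit 100), (nat_lit 22), (nat_lit 97), (nat_lit 1095806573)⟩], [], [],
 ⟨⟨[(nat_lit 40), (nat_lit 80), (nat_lit 100)], [(nat_lit 0), (nat_lit 3225), (nat_lit 4371)], [((nat_lit 0), (nat_lit 0), (nat_lit 0)), ((nat_lit 1000), (nat_lit 321), (nat_lit 877)), ((nat_lit 1000), (nat_lit 317), (nat_lit 896))], ((nat_lit 31), (nat_lit 100), (nat_lit 94))⟩, (nat_lit 0), (nat_lit 127), (nat_lit 127), (nat_lit 0), (nat_lit 140726), [(nat_lit 2721517061), (nat_lit 5217583349), (nat_lit 6250000000)], [], [(nat_lit 28359016074), (nat_lit 29246062320), (nat_lit 31120906195), (nat_lit 32094993376), (nat_lit 29922683589), (nat_lit 30869102806), (nat_lit 32534035520), (nat_lit 33346134114)], (nat_lit 1271251), (nat_lit 1271251), (nat_lit 1271251), (nat_lit 1271251), (nat_lit 1100000), (nat_lit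 1870626), [(nat_lit 490000), (nat_lit 1100000), (nat_lit 1442501)], [(nat_lit 3), (nat_lit 50), (nat_lit 289), (nat_lit 75), (nat_lit 9)]⟩,
 ⟨⟨[(nat_lit 100), (nat_lit 160), (nat_lit 200)], [(nat_lit 0), (nat_lit 761), (nat_lit 5273)], [((nat_lit 0), (nat_lit 0), (nat_lit 0)), ((nat_lit 1000), (nat_lit 1000), (nat_lit 198)), ((nat_lit 518), (nat_lit 1000), (nat_lit 909))], ((nat_lit 0), (nat_lit 0), (nat_lit 0))⟩, (nat_lit 2051955), (nat_lit 312), (nat_lit 312), (nat_lit 0), (nat_lit 222004), [(nat_lit 6250000000), (nat_lit 11872000000), (nat_lit 16400000000)], [], [(nat_lit 29271602019), (nat_lit 29532599853), (nat_lit 32273793867), (nat_lit 32359219737), (nat_lit 35899107477), (nat_lit 35787591941), (nat_lit 37781779754), (nat_lit 37858561246)], (nat_lit 1271251), (nat_lit 1271251), (nat_lit 1271251), (nat_lit 1271251), (nat_lit 780000), (nat_lit 3072501), [(nat_lit 1412501), (nat_lit 1271251), (nat_lit 1271251)], [(nat_lit 25), (nat_lit 66), (nat_lit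 483), (nat_lit 250), (nat_lit 10)]⟩,
 ⟨⟨[(nat_lit 140), (nat_lit 180), (nat_lit 200)], [(nat_lit 0), (nat_lit 0), (nat_lit 2835)], [((nat_lit 0), (nat_lit 0), (nat_lit 0)), ((nat_lit 0), (nat_lit 0), (nat_lit 0)), ((nat_lit 363), (nat_lit 1000), (nat_lit 798))], ((nat_lit 0), (nat_lit 0), (nat_lit 0))⟩, (nat_lit 102624), (nat_lit 300), (nat_lit 814), (nat_lit 29131305), (nat_lit 903143), [(nat_lit 3671066000), (nat_lit 5243634000), (nat_lit 6117200000)], [], [(nat_lit 25675233963), (nat_lit 24857078969), (nat_lit 24771115602), (nat_lit 23938748429), (nat_lit 23543740325), (nat_lit 22659081563), (nat_lit 22754414208), (nat_lit 25689984267)], (nat_lit 780000), (nat_lit 1271251), (nat_lit 1100000), (nat_lit 1870626), (nat_lit 780000), (nat_lit 3072501), [(nat_lit 1977501), (nat_lit 1271251), (nat_lit 1271251)], [(nat_lit 32), (nat_lit 67), (nat_lit 456), (nat_lit 225), (nat_lit 10)]⟩⟩))))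
def l022 : List St := [⟨⟨(nat_lit 380), (nat_lit 400), (nat_lit 180), (nat_lit 240), (nat_lit 120), (nat_lit 180), (nat_lit 240), (nat_lit 280), (nat_lit 40), (nat_lit 160), (nat_lit 0), (nat_lit 390), (nat_lit 44), (nat_lit 88)⟩, (nat_lit 3), (nat_lit 3), (nat_lit 3), false, false, false⟩,
  ⟨⟨(nat_lit 380), (nat_lit 390), (nat_lit 180), (nat_lit 240), (nat_lit 120), (nat_lit 180), (nat_lit 280), (nat_lit 330), (nat_lit 40), (nat_lit 160), (nat_lit 0), (nat_lit 370), (nat_lit 44), (nat_lit 88)⟩, (nat_lit 3), (nat_lit 3), (nat_lit 3), false, false, false⟩,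
  ⟨⟨(nat_lit 390), (nat_lit 400), (nat_lit 180), (nat_lit 240), (nat_lit 120), (nat_lit 180), (nat_lit 280), (nat_lit 330), (nat_lit 40), (nat_lit 160), (nat_lit 0), (nat_lit 370), (nat_lit 44), (nat_lit 88)⟩, (nat_lit 3), (nat_lit 3), (nat_lit 3), false, false, false⟩,
  ⟨⟨(nat_lit 380), (nat_lit 400), (nat_lit 120), (nat_lit 180), (nat_lit 120), (nat_lit 180), (nat_lit 240), (nat_lit 330), (nat_lit 160), (nat_lit 270), (nat_lit 0), (nat_lit 400), (nat_lit 44), (nat_lit 88)⟩, (nat_lit 3), (nat_lit 3), (nat_lit 3), false, false, false⟩,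
  ⟨⟨(nat_lit 380), (nat_lit 390), (nat_lit 180), (nat_lit 240), (nat_lit 120), (nat_lit 180), (nat_lit 240), (nat_lit 330), (nat_lit 160), (nat_lit 270), (nat_lit 0), (nat_lit 120), (nat_lit 44), (nat_lit 88)⟩, (nat_lit 3), (nat_lit 3), (nat_lit 3), false, false, true⟩,
  ⟨⟨(nat_lit 380), (nat_lit 390), (nat_lit 180), (nat_lit 240), (nat_lit 120), (nat_lit 180), (nat_lit 240), (nat_lit 330), (nat_lit 160), (nat_lit 270), (nat_lit 120), (nat_lit 400), (nat_lit 44), (nat_lit 88)⟩, (nat_lit 3), (nat_lit 3), (nat_lit 3), false, false, false⟩,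
  ⟨⟨(nat_lit 390), (nat_lit 400), (nat_lit 180), (nat_lit 240), (nat_lit 120), (nat_lit 180), (nat_lit 240), (nat_lit 300), (nat_lit 160), (nat_lit 250), (nat_lit 0), (nat_lit 400), (nat_lit 44), (nat_lit 88)⟩, (nat_lit 0), (nat_lit 3), (nat_lit 3), false, false, false⟩,
  ⟨⟨(nat_lit 390), (nat_lit 400), (nat_lit 180), (nat_lit 240), (nat_lit 120), (nat_lit 180), (nat_lit 240), (nat_lit 300), (nat_lit 160), (nat_lit 250), (nat_lit 0), (nat_lit 400), (nat_lit 44), (nat_lit 88)⟩, (nat_lit 1), (nat_lit 3), (nat_lit 3), false, false, false⟩,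
  ⟨⟨(nat_lit 380), (nat_lit 400), (nat_lit 180), (nat_lit 240), (nat_lit 180), (nat_lit 240), (nat_lit 120), (nat_lit 240), (nat_lit 90), (nat_lit 200), (nat_lit 0), (nat_lit 400), (nat_lit 44), (nat_lit 88)⟩, (nat_lit 3), (nat_lit 3), (nat_lit 3), false, false, false⟩,
  ⟨⟨(nat_lit 380), (nat_lit 400), (nat_lit 180), (nat_lit 220), (nat_lit 180), (nat_lit 240), (nat_lit 240), (nat_lit 330), (nat_lit 90), (nat_lit 200), (nat_lit 0), (nat_lit 400), (nat_lit 44), (nat_lit 88)⟩, (nat_lit 3), (nat_lit 3), (nat_lit 3), false, false, false⟩,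
  ⟨⟨(nat_lit 380), (nat_lit 400), (nat_lit 220), (nat_lit 240), (nat_lit 180), (nat_lit 240), (nat_lit 240), (nat_lit 330), (nat_lit 90), (nat_lit 200), (nat_lit 0), (nat_lit 400), (nat_lit 44), (nat_lit 88)⟩, (nat_lit 3), (nat_lit 3), (nat_lit 3), false, false, false⟩,
  ⟨⟨(nat_lit 380), (nat_lit 390), (nat_lit 180), (nat_lit 240), (nat_lit 180), (nat_lit 200), (nat_lit 120), (nat_lit 240), (nat_lit 200), (nat_lit 310), (nat_lit 0), (nat_lit 400), (nat_lit 44), (nat_lit 80)⟩, (nat_lit 3), (nat_lit 3), (nat_lit 3), false, false, false⟩,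
  ⟨⟨(nat_lit 380), (nat_lit 390), (nat_lit 180), (nat_lit 240), (nat_lit 200), (nat_lit 220), (nat_lit 120), (nat_lit 240), (nat_lit 200), (nat_lit 310), (nat_lit 0), (nat_lit 400), (nat_lit 44), (nat_lit 80)⟩, (nat_lit 3), (nat_lit 3), (nat_lit 3), false, false, false⟩,
  ⟨⟨(nat_lit 390), (nat_lit 400), (nat_lit 180), (nat_lit 220), (nat_lit 180), (nat_lit 220), (nat_lit 120), (nat_lit 240), (nat_lit 200), (nat_lit 290), (nat_lit 0), (nat_lit 120), (nat_lit 44), (nat_lit 88)⟩, (nat_lit 3), (nat_lit 3), (nat_lit 3), false, false, true⟩,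
  ⟨⟨(nat_lit 390), (nat_lit 400), (nat_lit 220), (nat_lit 240), (nat_lit 180), (nat_lit 220), (nat_lit 120), (nat_lit 240), (nat_lit 200), (nat_lit 290), (nat_lit 0), (nat_lit 120), (nat_lit 44), (nat_lit 88)⟩, (nat_lit 3), (nat_lit 3), (nat_lit 3), false, false, true⟩,
  ⟨⟨(nat_lit 390), (nat_lit 400), (nat_lit 180), (nat_lit 240), (nat_lit 180), (nat_lit 220), (nat_lit 120), (nat_lit 240), (nat_lit 200), (nat_lit 290), (nat_lit 120), (nat_lit 400), (nat_lit 44), (nat_lit 88)⟩, (nat_lit 3), (nat_lit 3), (nat_lit 3), false, false, false⟩,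
  ⟨⟨(nat_lit 380), (nat_lit 400), (nat_lit 180), (nat_lit 240), (nat_lit 220), (nat_lit 240), (nat_lit 120), (nat_lit 240), (nat_lit 200), (nat_lit 330), (nat_lit 0), (nat_lit 400), (nat_lit 44), (nat_lit 88)⟩, (nat_lit 3), (nat_lit 3), (nat_lit 3), false, false, false⟩,
  ⟨⟨(nat_lit 380), (nat_lit 400), (nat_lit 180), (nat_lit 220), (nat_lit 180), (nat_lit 240), (nat_lit 240), (nat_lit 330), (nat_lit 200), (nat_lit 330), (nat_lit 0), (nat_lit 120), (nat_lit 44), (nat_lit 88)⟩, (nat_lit 3), (nat_lit 3), (nat_lit 3), false, false, true⟩,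
  ⟨⟨(nat_lit 380), (nat_lit 400), (nat_lit 220), (nat_lit 240), (nat_lit 180), (nat_lit 240), (nat_lit 240), (nat_lit 330), (nat_lit 200), (nat_lit 330), (nat_lit 0), (nat_lit 120), (nat_lit 44), (nat_lit 88)⟩, (nat_lit 3), (nat_lit 3), (nat_lit 3), false, false, true⟩,
  ⟨⟨(nat_lit 380), (nat_lit 400), (nat_lit 180), (nat_lit 240), (nat_lit 180), (nat_lit 240), (nat_lit 240), (nat_lit 330), (nat_lit 200), (nat_lit 330), (nat_lit 120), (nat_lit 400), (nat_lit 44), (nat_lit 88)⟩, (nat_lit 3), (nat_lit 3), (nat_lit 3), false, false, false⟩,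
  ⟨⟨(nat_lit 380), (nat_lit 390), (nat_lit 120), (nat_lit 240), (nat_lit 120), (nat_lit 180), (nat_lit 40), (nat_lit 200), (nat_lit 40), (nat_lit 270), (nat_lit 0), (nat_lit 400), (nat_lit 88), (nat_lit 128)⟩, (nat_lit 3), (nat_lit 3), (nat_lit 3), false, false, false⟩,
  ⟨⟨(nat_lit 380), (nat_lit 390), (nat_lit 120), (nat_lit 240), (nat_lit 120), (nat_lit 180), (nat_lit 200), (nat_lit 330), (nat_lit 40), (nat_lit 160), (nat_lit 0), (nat_lit 400), (nat_lit 88), (nat_lit 128)⟩, (nat_lit 3), (nat_lit 3), (nat_lit 3), false, false, false⟩,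
  ⟨⟨(nat_lit 380), (nat_lit 390), (nat_lit 120), (nat_lit 240), (nat_lit 120), (nat_lit 180), (nat_lit 200), (nat_lit 330), (nat_lit 160), (nat_lit 270), (nat_lit 0), (nat_lit 400), (nat_lit 88), (nat_lit 128)⟩, (nat_lit 3), (nat_lit 3), (nat_lit 3), false, false, false⟩,
  ⟨⟨(nat_lit 390), (nat_lit 400), (nat_lit 120), (nat_lit 180), (nat_lit 120), (nat_lit 240), (nat_lit 60), (nat_lit 300), (nat_lit 60), (nat_lit 300), (nat_lit 0), (nat_lit 400), (nat_lit 88), (nat_lit 172)⟩, (nat_lit 3), (nat_lit 3), (nat_lit 3), false, false, false⟩,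
  ⟨⟨(nat_lit 390), (nat_lit 400), (nat_lit 180), (nat_lit 240), (nat_lit 120), (nat_lit 180), (nat_lit 110), (nat_lit 200), (nat_lit 60), (nat_lit 160), (nat_lit 0), (nat_lit 400), (nat_lit 88), (nat_lit 132)⟩, (nat_lit 3), (nat_lit 3), (nat_lit 3), false, false, false⟩,
  ⟨⟨(nat_lit 390), (nat_lit 400), (nat_lit 180), (nat_lit 240), (nat_lit 120), (nat_lit 180), (nat_lit 200), (nat_lit 240), (nat_lit 60), (nat_lit 160), (nat_lit 0), (nat_lit 400), (nat_lit 88), (nat_lit 132)⟩, (nat_lit 3), (nat_lit 3), (nat_lit 3), false, false, false⟩,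
  ⟨⟨(nat_lit 390), (nat_lit 400), (nat_lit 180), (nat_lit 220), (nat_lit 120), (nat_lit 180), (nat_lit 240), (nat_lit 300), (nat_lit 60), (nat_lit 160), (nat_lit 0), (nat_lit 390), (nat_lit 88), (nat_lit 132)⟩, (nat_lit 3), (nat_lit 3), (nat_lit 3), false, false, false⟩,
  ⟨⟨(nat_lit 390), (nat_lit 400), (nat_lit 220), (nat_lit 240), (nat_lit 120), (nat_lit 180), (nat_lit 240), (nat_lit 300), (nat_lit 60), (nat_lit 160), (nat_lit 0), (nat_lit 200), (nat_lit 88), (nat_lit 132)⟩, (nat_lit 3), (nat_lit 3), (nat_lit 3), false, false, false⟩,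
  ⟨⟨(nat_lit 390), (nat_lit 400), (nat_lit 220), (nat_lit 240), (nat_lit 120), (nat_lit 180), (nat_lit 240), (nat_lit 300), (nat_lit 60), (nat_lit 160), (nat_lit 200), (nat_lit 390), (nat_lit 88), (nat_lit 132)⟩, (nat_lit 3), (nat_lit 3), (nat_lit 3), false, false, false⟩,
  ⟨⟨(nat_lit 390), (nat_lit 400), (nat_lit 180), (nat_lit 240), (nat_lit 120), (nat_lit 180), (nat_lit 110), (nat_lit 200), (nat_lit 160), (nat_lit 250), (nat_lit 0), (nat_lit 400), (nat_lit 88), (nat_lit 132)⟩, (nat_lit 3), (nat_lit 3), (nat_lit 3), false, false, false⟩,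
  ⟨⟨(nat_lit 390), (nat_lit 400), (nat_lit 180), (nat_lit 240), (nat_lit 120), (nat_lit 180), (nat_lit 200), (nat_lit 240), (nat_lit 160), (nat_lit 250), (nat_lit 0), (nat_lit 400), (nat_lit 88), (nat_lit 132)⟩, (nat_lit 3), (nat_lit 3), (nat_lit 3), false, false, false⟩,
  ⟨⟨(nat_lit 390), (nat_lit 400), (nat_lit 180), (nat_lit 240), (nat_lit 120), (nat_lit 180), (nat_lit 240), (nat_lit 300), (nat_lit 160), (nat_lit 250), (nat_lit 0), (nat_lit 400), (nat_lit 88), (nat_lit 132)⟩, (nat_lit 3), (nat_lit 3), (nat_lit 3), false, false, false⟩]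
theorem t022 (h : EC env Ei) : ∀ τ ∈ l022, Dead τ :=
  List.forall_mem_cons.mpr ⟨chkT_sound0 h (T := c13_35) (by decide +kernel),
  List.forall_mem_cons.mpr ⟨chkT_sound0 h (T := c13_36) (by decide +kernel),
  List.forall_mem_cons.mpr ⟨chkT_sound0 h (T := c13_37) (by decide +kernel),
  List.forall_mem_cons.mpr ⟨chkT_sound0 h (T := c13_38) (by decide +kernel),
  List.forall_mem_cons.mpr ⟨chkT_sound0 h (T := c13_39) (by decide +kernel),
  List.forall_mem_cons.mpr ⟨chkT_sound0 h (T := c13_40) (by decide +kernel),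
  List.forall_mem_cons.mpr ⟨chkT_sound0 h (T := c13_41) (by decide +kernel),
  List.forall_mem_cons.mpr ⟨chkT_sound0 h (T := c13_42) (by decide +kernel),
  List.forall_mem_cons.mpr ⟨chkT_sound0 h (T := c13_43) (by decide +kernel),
  List.forall_mem_cons.mpr ⟨chkT_sound0 h (T := c13_44) (by decide +kernel),
  List.forall_mem_cons.mpr ⟨chkT_sound0 h (T := c13_45) (by decide +kernel),
  List.forall_mem_cons.mpr ⟨chkT_sound0 h (T := c13_46) (by decide +kernel),
  List.forall_mem_cons.mpr ⟨chkT_sound0 h (T := c13_47) (by decide +kernel),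
  List.forall_mem_cons.mpr ⟨chkT_sound0 h (T := c13_48) (by decide +kernel),
  List.forall_mem_cons.mpr ⟨chkT_sound0 h (T := c13_49) (by decide +kernel),
  List.forall_mem_cons.mpr ⟨chkT_sound0 h (T := c13_50) (by decide +kernel),
  List.forall_mem_cons.mpr ⟨chkT_sound0 h (T := c13_51) (by decide +kernel),
  List.forall_mem_cons.mpr ⟨chkT_sound0 h (T := c13_52) (by decide +kernel),
  List.forall_mem_cons.mpr ⟨chkT_sound0 h (T := c13_53) (by decide +kernel),
  List.forall_mem_cons.mpr ⟨chkT_sound0 h (T := c13_54) (by decide +kernel),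
  List.forall_mem_cons.mpr ⟨chkT_sound0 h (T := c13_55) (by decide +kernel),
  List.forall_mem_cons.mpr ⟨chkT_sound0 h (T := c13_56) (by decide +kernel),
  List.forall_mem_cons.mpr ⟨chkT_sound0 h (T := c13_57) (by decide +kernel),
  List.forall_mem_cons.mpr ⟨chkT_sound0 h (T := c13_58) (by decide +kernel),
  List.forall_mem_cons.mpr ⟨chkT_sound0 h (T := c13_59) (by decide +kernel),
  List.forall_mem_cons.mpr ⟨chkT_sound0 h (T := c13_60) (by decide +kernel),
  List.forall_mem_cons.mpr ⟨chkT_sound0 h (T := c13_61) (by decide +kernel),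
  List.forall_mem_cons.mpr ⟨chkT_sound0 h (T := c13_62) (by decide +kernel),
  List.forall_mem_cons.mpr ⟨chkT_sound0 h (T := c13_63) (by decide +kernel),
  List.forall_mem_cons.mpr ⟨chkT_sound0 h (T := c13_64) (by decide +kernel),
  List.forall_mem_cons.mpr ⟨chkT_sound0 h (T := c13_65) (by decide +kernel),
  List.forall_mem_cons.mpr ⟨chkT_sound0 h (T := c13_66) (by decide +kernel),
  List.forall_mem_nil _⟩⟩⟩⟩⟩⟩⟩⟩⟩⟩⟩⟩⟩⟩⟩⟩⟩⟩⟩⟩⟩⟩⟩⟩⟩⟩⟩⟩⟩⟩⟩⟩
end TC
end Pool.Agent.Lib.MP_6947cd_al
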