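import Pool.Agent.Lib.MP_6947cd_al.C.LeafF
import Pool.Agent.Lib.MP_6947cd_al.TC.E
import Pool.Agent.Lib.MP_6947cd_al.TC.F

/-!
Problem MP_6947cd_al (Chollet).  CASE C, tables and certificates.  Trees of leaves (part 23 of root 13).
-/

set_option autoImplicit false
set_option linter.all false
set_option maxRecDepth 100000
set_option maxHeartbeats 4000000
namespace Pool.Agent.Lib.MP_6947cd_al
namespace TC
open C1
noncomputable def c13_67 : Tr Lf :=
 (.trZ (nat_lit 0) (nat_lit 2) (nat_lit 4) (nat_lit 100) (nat_lit 31) (nat_lit 92) (nat_lit 110) (.spl (nat_lit 6) (nat_lit 96) (.spl (nat_lit 1) (nat_lit 220) (.ord (.trX (nat_lit 3) (nat_lit 0) (nat_lit 1) (nat_lit 31) (nat_lit 92) (nat_lit 100) (nat_lit 290) (.trX (nat_lit 4) (nat_lit 0) (nat_lit 2) (nat_lit 31) (nat_lit 92) (nat_lit 100) (nat_lit 290) (.spl (nat_lit 0) (nat_lit 395) (.dle (nat_lit 0)) (.trZ (nat_lit 0) (nat_lit 1) (nat_lit 3) (nat_lit 100) (nat_lit 22) (nat_lit 95) (nat_lit 130) (.trX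 (nat_lit 3) (nat_lit 0) (nat_lit 1) (nat_lit 22) (nat_lit 95) (nat_lit 100) (nat_lit 270) (.trZ (nat_lit 0) (nat_lit 2) (nat_lit 4) (nat_lit 100) (nat_lit 22) (nat_lit 95) (nat_lit 130) (.trX (nat_lit 4) (nat_lit 0) (nat_lit 2) (nat_lit 22) (nat_lit 95) (nat_lit 100) (nat_lit 270) (.spl (nat_lit 2) (nat_lit 200) (.trX (nat_lit 4) (nat_lit 0) (nat_lit 2) (nat_lit 22) (nat_lit 98) (nat_lit 100) (nat_lit 250) (.spl (nat_lit 4) (nat_lit 200) (.leaf ⟨(nat_lit 1000), (nat_lit 0), (nat_lit 0), (nat_lit 0), (nat_lit 10262), (nat_lit 3283), (nat_lit 0), (nat_lit 0), (nat_lit 0), (nat_lit 66473), (nat_lit 250000), [((nat_lit 400), [((nat_lit 29), (nat_lit 0), (nat_lit 1000))])], ⟨(nat_lit 4), false, false, true, (nat_lit 200), (nat_lit 0), (nat_lit 1119), [(nat_lit 1382114), (nat_lit 1386338), (nat_lit 1428685), (nat_lit 1435407), (nat_lit 1569216), (nat_lit 1562495), (nat_lit 1616720), (nat_lit 1612497)]⟩, ⟨(nat_lit 4), false, false, false, (nat_lit 177),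 (nat_lit 0), (nat_lit 1119), [(nat_lit 1382114), (nat_lit 1386338), (nat_lit 1405400), (nat_lit 1410872), (nat_lit 1476247), (nat_lit 1474998), (nat_lit 1499999), (nat_lit 1499999)]⟩, (nat_lit 4717568), (nat_lit 44134316), (nat_lit 12529174), (nat_lit 10336510), (nat_lit 0), (nat_lit 0), [⟨(nat_lit 1), (nat_lit 99), (nat_lit 16), (nat_lit 100), (nat_lit 341891078)⟩], [], [], [],
 ⟨⟨[(nat_lit 40), (nat_lit 60), (nat_lit 80)], [(nat_lit 0), (nat_lit 2600), (nat_lit 3731)], [((nat_lit 0), (nat_lit 0), (nat_lit 0)), ((nat_lit 1000), (nat_lit 245), (nat_lit 872)), ((nat_lit 1000), (nat_lit 240), (nat_lit 884))], ((nat_lit 23), (nat_lit 100), (nat_lit 90))⟩, (nat_lit 0), (nat_lit 91), (nat_lit 91), (nat_lit 0), (nat_lit 27807), [(nat_lit 1563200015), (nat_lit 1207184084), (nat_lit 1376400000)], [(nat_lit 0), (nat_lit 0), (nat_lit 0)], [(nat_lit 22511259158), (nat_lit 22867502828), (nat_lit 25720757277), (nat_lit 26017454603), (nat_lit 23726927951), (nat_lit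 24047675186), (nat_lit 26612270581), (nat_lit 26868132975)], (nat_lit 1271251), (nat_lit 1271251), (nat_lit 857188), (nat_lit 2016563), (nat_lit 857188), (nat_lit 1436876), [(nat_lit 490000), (nat_lit 780000), (nat_lit 1100000)], [(nat_lit 2), (nat_lit 44), (nat_lit 345), (nat_lit 125), (nat_lit 15)]⟩,
 Rw.none,
 Rw.none⟩) (.leaf ⟨(nat_lit 1000), (nat_lit 0), (nat_lit 0), (nat_lit 0), (nat_lit 44537), (nat_lit 3283), (nat_lit 0), (nat_lit 0), (nat_lit 0), (nat_lit 570503), (nat_lit 250000), [((nat_lit 400), [((nat_lit 29), (nat_lit 0), (nat_lit 1000))])], ⟨(nat_lit 4), false, false, true, (nat_lit 200), (nat_lit 0), (nat_lit 1119), [(nat_lit 1382114), (nat_lit 1386338), (nat_lit 1428685), (nat_lit 1435407), (nat_lit 1569216), (nat_lit 1562495), (nat_lit 1616720), (nat_lit 1612497)]⟩, ⟨(nat_lit 5), false, true, true, (nat_lit 208), (nat_lit 0), (nat_lit 1119), [(nat_lit 1476247), (nat_lit 1474998), (nat_lit 1499999), (nat_lit 1499999), (nat_lit 1542653),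 (nat_lit 1537495), (nat_lit 1566405), (nat_lit 1562497)]⟩, (nat_lit 4966147), (nat_lit 41880145), (nat_lit 12150978), (nat_lit 12968877), (nat_lit 0), (nat_lit 0), [⟨(nat_lit 1), (nat_lit 99), (nat_lit 16), (nat_lit 100), (nat_lit 321399518)⟩], [⟨(nat_lit 1), (nat_lit 100), (nat_lit 16), (nat_lit 100), (nat_lit 825509089)⟩], [], [],
 ⟨⟨[(nat_lit 40), (nat_lit 60), (nat_lit 80)], [(nat_lit 0), (nat_lit 2600), (nat_lit 3731)], [((nat_lit 0), (nat_lit 0), (nat_lit 0)), ((nat_lit 1000), (nat_lit 245), (nat_lit 872)), ((nat_lit 1000), (nat_lit 240), (nat_lit 884))], ((nat_lit 23), (nat_lit 100), (nat_lit 90))⟩, (nat_lit 0), (nat_lit 83), (nat_lit 83), (nat_lit 0), (nat_lit 27807), [(nat_lit 1563200105), (nat_lit 1276336847), (nat_lit 1376400000)], [(nat_lit 0), (nat_lit 0), (nat_lit 0)], [(nat_lit 23726928041), (nat_lit 24047675276), (nat_lit 26612270671), (nat_lit 26868133065), (nat_lit 25028285753), (nat_lit 25321853926), (nat_lit 27685976644), (nat_lit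 27972961106)], (nat_lit 1271251), (nat_lit 1271251), (nat_lit 857188), (nat_lit 2016563), (nat_lit 1271251), (nat_lit 1271251), [(nat_lit 490000), (nat_lit 780000), (nat_lit 1100000)], [(nat_lit 2), (nat_lit 44), (nat_lit 289), (nat_lit 75), (nat_lit 11)]⟩,
 Rw.none,
 Rw.none⟩))) (.ord (.trZ (nat_lit 0) (nat_lit 1) (nat_lit 3) (nat_lit 100) (nat_lit 22) (nat_lit 98) (nat_lit 150) (.trZ (nat_lit 0) (nat_lit 2) (nat_lit 4) (nat_lit 100) (nat_lit 22) (nat_lit 98) (nat_lit 150) (.dle (nat_lit 0)))))))))))))) (.trZ (nat_lit 0) (nat_lit 1) (nat_lit 3) (nat_lit 100) (nat_lit 31) (nat_lit 98) (nat_lit 150) (.spl (nat_lit 4) (nat_lit 200) (.leaf ⟨(nat_lit 757), (nat_lit 122), (nat_lit 0), (nat_lit 121), (nat_lit 7784), (nat_lit 3643), (nat_lit 1798), (nat_lit 1264), (nat_lit 0), (nat_lit 170209), (nat_lit 189250), [((nat_lit 400), [((nat_lit 29), (nat_lit 0), (nat_lit 757))])], ⟨(nat_lit 5), false, false, true, (nat_lit 227), (nat_lit 0), (nat_lit 1582),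 [(nat_lit 1452725), (nat_lit 1460204), (nat_lit 1475382), (nat_lit 1484547), (nat_lit 1659900), (nat_lit 1649996), (nat_lit 1683216), (nat_lit 1674997)]⟩, ⟨(nat_lit 4), false, false, false, (nat_lit 181), (nat_lit 0), (nat_lit 1582), [(nat_lit 1351461), (nat_lit 1360206), (nat_lit 1419436), (nat_lit 1433236), (nat_lit 1476683), (nat_lit 1474999), (nat_lit 1545316), (nat_lit 1548686)]⟩, (nat_lit 4940723), (nat_lit 41759355), (nat_lit 14898919), (nat_lit 10341726), (nat_lit 4), (nat_lit 0), [⟨(nat_lit 0), (nat_lit 99), (nat_lit 22), (nat_lit 100), (nat_lit 63203159)⟩], [⟨(nat_lit 0), (nat_lit 100), (nat_lit 22), (nat_lit 99), (nat_lit 190092033)⟩], [], [],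
 ⟨⟨[(nat_lit 40), (nat_lit 60), (nat_lit 80)], [(nat_lit 0), (nat_lit 2136), (nat_lit 3185)], [((nat_lit 0), (nat_lit 0), (nat_lit 0)), ((nat_lit 1000), (nat_lit 343), (nat_lit 808)), ((nat_lit 1000), (nat_lit 338), (nat_lit 820))], ((nat_lit 32), (nat_lit 100), (nat_lit 88))⟩, (nat_lit 0), (nat_lit 97), (nat_lit 97), (nat_lit 0), (nat_lit 30540), [(nat_lit 1620256607), (nat_lit 1809433140), (nat_lit 2181118800)], [(nat_lit 0), (nat_lit 0), (nat_lit 0)], [(nat_lit 22714823538), (nat_lit 23514160762), (nat_lit 27130778453), (nat_lit 27732069223), (nat_lit 24051546080), (nat_lit 24708759327), (nat_lit 27890645156), (nat_lit 28421690246)], (nat_lit 1271251), (nat_lit 1271251), (nat_lit 1017188), (nat_lit 2287501), (nat_lit 704688), (nat_lit 1433125), [(nat_lit 490000), (nat_lit 780000), (nat_lit 1100000)], [(nat_lit 2), (nat_lit 44), (nat_lit 345), (nat_lit 125), (nat_lit 15)]⟩,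
 ⟨⟨[(nat_lit 100), (nat_lit 140), (nat_lit 180)], [(nat_lit 0), (nat_lit 508), (nat_lit 2854)], [((nat_lit 0), (nat_lit 0), (nat_lit 0)), ((nat_lit 1000), (nat_lit 1000), (nat_lit 198)), ((nat_lit 777), (nat_lit 1000), (nat_lit 712))], ((nat_lit 100), (nat_lit 61), (nat_lit 86))⟩, (nat_lit 0), (nat_lit 385), (nat_lit 385), (nat_lit 0), (nat_lit 102012), [(nat_lit 1518750000), (nat_lit 2391606000), (nat_lit 3416094000)], [], [(nat_lit 9511447286), (nat_lit 9642674300), (nat_lit 10531907640), (nat_lit 10604777388), (nat_lit 12915289032), (nat_lit 12093022278), (nat_lit 10692962340), (nat_lit 10679351070)], (nat_lit 1271251), (nat_lit 1271251), (nat_lit 1271251), (nat_lit 1271251), (nat_lit 0), (nat_lit 2825001), [(nat_lit 1412501), (nat_lit 1271251), (nat_lit 1271251)], [(nat_lit 24), (nat_lit 63), (nat_lit 483), (nat_lit 250), (nat_lit 11)]⟩,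
 ⟨⟨[(nat_lit 120), (nat_lit 160), (nat_lit 200)], [(nat_lit 0), (nat_lit 533), (nat_lit 3597)], [((nat_lit 0), (nat_lit 0), (nat_lit 0)), ((nat_lit 960), (nat_lit 1000), (nat_lit 200)), ((nat_lit 612), (nat_lit 1000), (nat_lit 732))], ((nat_lit 0), (nat_lit 0), (nat_lit 0))⟩, (nat_lit 64407), (nat_lit 300), (nat_lit 520), (nat_lit 8763645), (nat_lit 147449), [(nat_lit 964128000), (nat_lit 1436512000), (nat_lit 1984400000)], [], [(nat_lit 7726060184), (nat_lit 7622122015), (nat_lit 7386325283), (nat_lit 7268488445), (nat_lit 7330031722), (nat_lit 6502860206), (nat_lit 8818545236), (nat_lit 7155123764)], (nat_lit 1271251), (nat_lit 1271251), (nat_lit 704688), (nat_lit 1433125), (nat_lit 0), (nat_lit 2825001), [(nat_lit 1695001), (nat_lit 1271251), (nat_lit 1271251)], [(nat_lit 29), (nat_lit 66), (nat_lit 456), (nat_lit 225), (nat_lit 10)]⟩⟩) (.leaf ⟨(nat_lit 315), (nat_lit 364), (nat_lit 0), (nat_lit 321), (nat_lit 17235), (nat_lit 4663), (nat_lit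 5105), (nat_lit 3378), (nat_lit 0), (nat_lit 501), (nat_lit 78750), [((nat_lit 400), [((nat_lit 29), (nat_lit 0), (nat_lit 315))])], ⟨(nat_lit 5), false, false, true, (nat_lit 227), (nat_lit 0), (nat_lit 1582), [(nat_lit 1452725), (nat_lit 1460204), (nat_lit 1475382), (nat_lit 1484547), (nat_lit 1659900), (nat_lit 1649996), (nat_lit 1683216), (nat_lit 1674997)]⟩, ⟨(nat_lit 5), false, true, true, (nat_lit 231), (nat_lit 0), (nat_lit 1582), [(nat_lit 1476683), (nat_lit 1474999), (nat_lit 1545316), (nat_lit 1548686), (nat_lit 1613268), (nat_lit 1599994), (nat_lit 1683216), (nat_lit 1674997)]⟩, (nat_lit 5283468), (nat_lit 38437790), (nat_lit 14089947), (nat_lit 14472263), (nat_lit 5), (nat_lit 0), [⟨(nat_lit 0), (nat_lit 99), (nat_lit 22), (nat_lit 100), (nat_lit 808683673)⟩], [⟨(nat_lit 1), (nat_lit 96), (nat_lit 22), (nat_lit 100), (nat_lit 83682631)⟩], [], [],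
 ⟨⟨[(nat_lit 40), (nat_lit 60), (nat_lit 80)], [(nat_lit 0), (nat_lit 2136), (nat_lit 3185)], [((nat_lit 0), (nat_lit 0), (nat_lit 0)), ((nat_lit 1000), (nat_lit 343), (nat_lit 808)), ((nat_lit 1000), (nat_lit 338), (nat_lit 820))], ((nat_lit 32), (nat_lit 100), (nat_lit 88))⟩, (nat_lit 0), (nat_lit 85), (nat_lit 85), (nat_lit 0), (nat_lit 30540), [(nat_lit 1906113488), (nat_lit 2813800721), (nat_lit 3644846000)], [(nat_lit 0), (nat_lit 0), (nat_lit 0)], [(nat_lit 25194865071), (nat_lit 25991625737), (nat_lit 29128396519), (nat_lit 29723613316), (nat_lit 28542329037), (nat_lit 29187196531), (nat_lit 31478373342), (nat_lit 32032622678)], (nat_lit 1271251), (nat_lit 1271251), (nat_lit 1017188), (nat_lit 2287501), (nat_lit 1271251), (nat_lit 1271251), [(nat_lit 490000), (nat_lit 780000), (nat_lit 1100000)], [(nat_lit 2), (nat_lit 44), (nat_lit 289), (nat_lit 75), (nat_lit 11)]⟩,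
 ⟨⟨[(nat_lit 100), (nat_lit 140), (nat_lit 180)], [(nat_lit 0), (nat_lit 508), (nat_lit 2854)], [((nat_lit 0), (nat_lit 0), (nat_lit 0)), ((nat_lit 1000), (nat_lit 1000), (nat_lit 198)), ((nat_lit 777), (nat_lit 1000), (nat_lit 712))], ((nat_lit 100), (nat_lit 61), (nat_lit 86))⟩, (nat_lit 0), (nat_lit 385), (nat_lit 385), (nat_lit 0), (nat_lit 102012), [(nat_lit 4281250000), (nat_lit 6741770000), (nat_lit 9629730000)], [], [(nat_lit 26790278440), (nat_lit 27160387385), (nat_lit 29670749537), (nat_lit 29922317225), (nat_lit 36455720370), (nat_lit 34121086455), (nat_lit 30133861270), (nat_lit 30093326590)], (nat_lit 1271251), (nat_lit 1271251), (nat_lit 1271251), (nat_lit 1271251), (nat_lit 0), (nat_lit 2825001), [(nat_lit 1412501), (nat_lit 1271251), (nat_lit 1271251)], [(nat_lit 24), (nat_lit 63), (nat_lit 483), (nat_lit 250), (nat_lit 11)]⟩,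
 ⟨⟨[(nat_lit 120), (nat_lit 160), (nat_lit 200)], [(nat_lit 0), (nat_lit 533), (nat_lit 3597)], [((nat_lit 0), (nat_lit 0), (nat_lit 0)), ((nat_lit 960), (nat_lit 1000), (nat_lit 200)), ((nat_lit 612), (nat_lit 1000), (nat_lit 732))], ((nat_lit 0), (nat_lit 0), (nat_lit 0))⟩, (nat_lit 170864), (nat_lit 300), (nat_lit 477), (nat_lit 23249011), (nat_lit 147449), [(nat_lit 2557728000), (nat_lit 3810912000), (nat_lit 5264400000)], [], [(nat_lit 19494546804), (nat_lit 19217190700), (nat_lit 19531989887), (nat_lit 19214719207), (nat_lit 21054487692), (nat_lit 16609046448), (nat_lit 16194411914), (nat_lit 15678666367)], (nat_lit 1271251), (nat_lit 1271251), (nat_lit 1271251), (nat_lit 1271251), (nat_lit 0), (nat_lit 2825001), [(nat_lit 1695001), (nat_lit 1271251), (nat_lit 1271251)], [(nat_lit 29), (nat_lit 66), (nat_lit 483), (nat_lit 250), (nat_lit 10)]⟩⟩)))) (.dle (nat_lit 0))))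
def l023 : List St := [⟨⟨(nat_lit 390), (nat_lit 400), (nat_lit 180), (nat_lit 240), (nat_lit 180), (nat_lit 240), (nat_lit 110), (nat_lit 300), (nat_lit 60), (nat_lit 300), (nat_lit 0), (nat_lit 400), (nat_lit 88), (nat_lit 132)⟩, (nat_lit 3), (nat_lit 3), (nat_lit 3), false, false, false⟩]
theorem t023 (h : EC env Ei) : ∀ τ ∈ l023, Dead τ :=
  List.forall_mem_cons.mpr ⟨chkT_sound0 h (T := c13_67) (by decide +kernel),
  List.forall_mem_nil _⟩
end TC
end Pool.Agent.Lib.MP_6947cd_al
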