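import Pool.Agent.Lib.MP_6947cd_al.C.LeafF
import Pool.Agent.Lib.MP_6947cd_al.TC.E
import Pool.Agent.Lib.MP_6947cd_al.TC.F

/-!
Problem MP_6947cd_al (Chollet).  CASE C, tables and certificates.  Trees of leaves (part 24 of root 14).
-/

set_option autoImplicit false
set_option linter.all false
set_option maxRecDepth 100000
set_option maxHeartbeats 4000000
namespace Pool.Agent.Lib.MP_6947cd_al
namespace TC
open C1
noncomputable def c14_0 : Tr Lf :=
 (.leaf ⟨(nat_lit 22), (nat_lit 738), (nat_lit 0), (nat_lit 240), (nat_lit 0), (nat_lit 4728), (nat_lit 6368), (nat_lit 3232), (nat_lit 0), (nat_lit 0), (nat_lit 88000), [((nat_lit 400), [((nat_lit 43), (nat_lit 5), (nat_lit 22))])], ⟨(nat_lit 6), true, false, false, (nat_lit 272), (nat_lit 0), (nat_lit 2237), [(nat_lit 1470123), (nat_lit 1483344), (nat_lit 1557514), (nat_lit 1579638), (nat_lit 1802110), (nat_lit 1774991), (nat_lit 1893212), (nat_lit 1874997)]⟩, ⟨(nat_lit 3), true, false, true, (nat_lit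 171), (nat_lit 0), (nat_lit 2237), [(nat_lit 1177178), (nat_lit 1196337), (nat_lit 1286416), (nat_lit 1316704), (nat_lit 1565684), (nat_lit 1537489), (nat_lit 1679562), (nat_lit 1662495)]⟩, (nat_lit 5079124), (nat_lit 38868909), (nat_lit 19054021), (nat_lit 9077070), (nat_lit 3), (nat_lit 0), [⟨(nat_lit 0), (nat_lit 92), (nat_lit 31), (nat_lit 100), (nat_lit 448981360)⟩], [], [], [],
 ⟨⟨[(nat_lit 40), (nat_lit 60)], [(nat_lit 0), (nat_lit 1539)], [((nat_lit 0), (nat_lit 0), (nat_lit 0)), ((nat_lit 1000), (nat_lit 478), (nat_lit 704))], ((nat_lit 48), (nat_lit 100), (nat_lit 69))⟩, (nat_lit 67270), (nat_lit 300), (nat_lit 375), (nat_lit 45587102), (nat_lit 911194), [(nat_lit 1823484051), (nat_lit 2838752800)], [(nat_lit 0), (nat_lit 0)], [(nat_lit 27458732393), (nat_lit 28595294275), (nat_lit 34905311606), (nat_lit 36240867356), (nat_lit 30306427385), (nat_lit 31066141655), (nat_lit 34654175942), (nat_lit 35545637387)], (nat_lit 1271251), (nat_lit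 1271251), (nat_lit 1017188), (nat_lit 2965001), (nat_lit 230000), (nat_lit 2238126), [(nat_lit 490000), (nat_lit 780000)], [(nat_lit 1), (nat_lit 38), (nat_lit 317), (nat_lit 100), (nat_lit 18)]⟩,
 ⟨⟨[(nat_lit 80), (nat_lit 120), (nat_lit 160)], [(nat_lit 0), (nat_lit 0), (nat_lit 2132)], [((nat_lit 0), (nat_lit 0), (nat_lit 0)), ((nat_lit 0), (nat_lit 0), (nat_lit 0)), ((nat_lit 858), (nat_lit 1000), (nat_lit 713))], ((nat_lit 100), (nat_lit 91), (nat_lit 64))⟩, (nat_lit 3459653), (nat_lit 247), (nat_lit 247), (nat_lit 0), (nat_lit 0), [(nat_lit 4584864000), (nat_lit 7792704000), (nat_lit 11610816000)], [], [(nat_lit 24191762542), (nat_lit 29025425191), (nat_lit 35053491094), (nat_lit 38572325780), (nat_lit 31511355607), (nat_lit 34311285768), (nat_lit 37112102738), (nat_lit 38434511572)], (nat_lit 0), (nat_lit 0), (nat_lit 0), (nat_lit 0), (nat_lit 0), (nat_lit 0), [], [(nat_lit 18), (nat_lit 59), (nat_lit 538), (nat_lit 300), (nat_lit 14)]⟩,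
 ⟨⟨[(nat_lit 140), (nat_lit 180), (nat_lit 200)], [(nat_lit 0), (nat_lit 0), (nat_lit 2835)], [((nat_lit 0), (nat_lit 0), (nat_lit 0)), ((nat_lit 0), (nat_lit 0), (nat_lit 0)), ((nat_lit 363), (nat_lit 1000), (nat_lit 798))], ((nat_lit 0), (nat_lit 0), (nat_lit 0))⟩, (nat_lit 89241), (nat_lit 300), (nat_lit 569), (nat_lit 18744000), (nat_lit 0), [(nat_lit 2362080000), (nat_lit 3373920000), (nat_lit 3936000000)], [], [(nat_lit 18429568288), (nat_lit 17668958800), (nat_lit 15829007360), (nat_lit 14914985574), (nat_lit 15499199776), (nat_lit 14426536984), (nat_lit 12229772400), (nat_lit 11101130382)], (nat_lit 0), (nat_lit 0), (nat_lit 0), (nat_lit 0), (nat_lit 0), (nat_lit 0), [], [(nat_lit 32), (nat_lit 67), (nat_lit 483), (nat_lit 250), (nat_lit 11)]⟩⟩)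
noncomputable def c14_1 : Tr Lf :=
 (.spl (nat_lit 1) (nat_lit 280) (.trX (nat_lit 3) (nat_lit 0) (nat_lit 1) (nat_lit 48) (nat_lit 71) (nat_lit 100) (nat_lit 360) (.spl (nat_lit 5) (nat_lit 200) (.leaf ⟨(nat_lit 0), (nat_lit 1000), (nat_lit 0), (nat_lit 0), (nat_lit 0), (nat_lit 5085), (nat_lit 8668), (nat_lit 0), (nat_lit 0), (nat_lit 0), (nat_lit 0), [], Pd.none, Pd.none, (nat_lit 0), (nat_lit 1), (nat_lit 0), (nat_lit 0), (nat_lit 3), (nat_lit 0), [⟨(nat_lit 0), (nat_lit 95), (nat_lit 31), (nat_lit 100), (nat_lit 46870766)⟩], [⟨(nat_lit 0), (nat_lit 100), (nat_lit 32), (nat_lit 90), (nat_lit 493082977)⟩], [], [],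
 ⟨⟨[(nat_lit 40), (nat_lit 60)], [(nat_lit 0), (nat_lit 1539)], [((nat_lit 0), (nat_lit 0), (nat_lit 0)), ((nat_lit 1000), (nat_lit 478), (nat_lit 704))], ((nat_lit 48), (nat_lit 100), (nat_lit 69))⟩, (nat_lit 0), (nat_lit 282), (nat_lit 282), (nat_lit 0), (nat_lit 628747), [(nat_lit 2032000003), (nat_lit 3282000000)], [], [(nat_lit 24990150403), (nat_lit 27453549753), (nat_lit 34413331952), (nat_lit 35896661165), (nat_lit 23127203165), (nat_lit 24842300620), (nat_lit 31275284678), (nat_lit 32592150400)], (nat_lit 1271251), (nat_lit 1271251), (nat_lit 1017188), (nat_lit 2795626), (nat_lit 230000), (nat_lit 1100000), [(nat_lit 490000), (nat_lit 780000)], [(nat_lit 1), (nat_lit 38), (nat_lit 249), (nat_lit 40), (nat_lit 13)]⟩,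
 ⟨⟨[(nat_lit 80), (nat_lit 120), (nat_lit 160)], [(nat_lit 0), (nat_lit 0), (nat_lit 2132)], [((nat_lit 0), (nat_lit 0), (nat_lit 0)), ((nat_lit 0), (nat_lit 0), (nat_lit 0)), ((nat_lit 858), (nat_lit 1000), (nat_lit 713))], ((nat_lit 100), (nat_lit 91), (nat_lit 64))⟩, (nat_lit 3671011), (nat_lit 238), (nat_lit 238), (nat_lit 0), (nat_lit 0), [(nat_lit 4688000000), (nat_lit 7968000000), (nat_lit 11872000000)], [], [(nat_lit 24284455824), (nat_lit 27561986695), (nat_lit 35891158804), (nat_lit 37572801928), (nat_lit 19098003611), (nat_lit 21607588196), (nat_lit 28403366928), (nat_lit 30120470088)], (nat_lit 0), (nat_lit 0), (nat_lit 0), (nat_lit 0), (nat_lit 0), (nat_lit 0), [], [(nat_lit 18), (nat_lit 59), (nat_lit 456), (nat_lit 225), (nat_lit 12)]⟩,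
 Rw.none⟩) (.leaf ⟨(nat_lit 22), (nat_lit 978), (nat_lit 0), (nat_lit 0), (nat_lit 0), (nat_lit 4515), (nat_lit 5789), (nat_lit 0), (nat_lit 0), (nat_lit 0), (nat_lit 88000), [((nat_lit 400), [((nat_lit 43), (nat_lit 5), (nat_lit 22))])], ⟨(nat_lit 6), true, false, true, (nat_lit 257), (nat_lit 0), (nat_lit 2237), [(nat_lit 1470123), (nat_lit 1483344), (nat_lit 1513819), (nat_lit 1531491), (nat_lit 1773604), (nat_lit 1749994), (nat_lit 1819154), (nat_lit 1799995)]⟩, ⟨(nat_lit 3), false, false, false, (nat_lit 131), (nat_lit 0), (nat_lit 2237), [(nat_lit 1177178), (nat_lit 1196337), (nat_lit 1286416), (nat_lit 1316704), (nat_lit 1351885), (nat_lit 1349998), (nat_lit 1462989), (nat_lit 1472231)]⟩, (nat_lit 4634835), (nat_lit 42291662), (nat_lit 18399605), (nat_lit 6308733), (nat_lit 5), (nat_lit 0), [⟨(nat_lit 0), (nat_lit 95), (nat_lit 31), (nat_lit 100), (nat_lit 352658493)⟩], [], [⟨(nat_lit 1), (nat_lit 10), (nat_lit 98), (nat_lit 100), (nat_lit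 481389963)⟩], [],
 ⟨⟨[(nat_lit 40), (nat_lit 60)], [(nat_lit 0), (nat_lit 1539)], [((nat_lit 0), (nat_lit 0), (nat_lit 0)), ((nat_lit 1000), (nat_lit 478), (nat_lit 704))], ((nat_lit 48), (nat_lit 100), (nat_lit 69))⟩, (nat_lit 1294398), (nat_lit 282), (nat_lit 282), (nat_lit 0), (nat_lit 628747), [(nat_lit 1823484001), (nat_lit 2838752800)], [(nat_lit 0), (nat_lit 0)], [(nat_lit 23992534123), (nat_lit 26278593648), (nat_lit 33066445749), (nat_lit 34460005235), (nat_lit 22581189491), (nat_lit 24220617580), (nat_lit 30509471723), (nat_lit 31750009600)], (nat_lit 1271251), (nat_lit 1271251), (nat_lit 1017188), (nat_lit 2795626), (nat_lit 230000), (nat_lit 1100000), [(nat_lit 490000), (nat_lit 780000)], [(nat_lit 1), (nat_lit 38), (nat_lit 249), (nat_lit 40), (nat_lit 13)]⟩,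
 ⟨⟨[(nat_lit 80), (nat_lit 120), (nat_lit 160)], [(nat_lit 0), (nat_lit 0), (nat_lit 2132)], [((nat_lit 0), (nat_lit 0), (nat_lit 0)), ((nat_lit 0), (nat_lit 0), (nat_lit 0)), ((nat_lit 858), (nat_lit 1000), (nat_lit 713))], ((nat_lit 100), (nat_lit 91), (nat_lit 64))⟩, (nat_lit 112054), (nat_lit 103), (nat_lit 103), (nat_lit 0), (nat_lit 0), [(nat_lit 4584864000), (nat_lit 7792704000), (nat_lit 11610816000)], [], [(nat_lit 12950831393), (nat_lit 15996789583), (nat_lit 24658962183), (nat_lit 26391213803), (nat_lit 27094793470), (nat_lit 28946644879), (nat_lit 33679064210), (nat_lit 34701985982)], (nat_lit 0), (nat_lit 0), (nat_lit 0), (nat_lit 0), (nat_lit 0), (nat_lit 0), [], [(nat_lit 18), (nat_lit 59), (nat_lit 538), (nat_lit 300), (nat_lit 13)]⟩,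
 Rw.none⟩))) (.trZ (nat_lit 0) (nat_lit 1) (nat_lit 3) (nat_lit 92) (nat_lit 44) (nat_lit 100) (nat_lit 190) (.spl (nat_lit 2) (nat_lit 180) (.trX (nat_lit 5) (nat_lit 1) (nat_lit 2) (nat_lit 92) (nat_lit 49) (nat_lit 100) (nat_lit 380) (.leaf ⟨(nat_lit 22), (nat_lit 978), (nat_lit 0), (nat_lit 0), (nat_lit 0), (nat_lit 5205), (nat_lit 6119), (nat_lit 0), (nat_lit 0), (nat_lit 0), (nat_lit 88000), [((nat_lit 400), [((nat_lit 43), (nat_lit 5), (nat_lit 22))])], ⟨(nat_lit 7), true, false, false, (nat_lit 292), (nat_lit 0), (nat_lit 2237), [(nat_lit 1572676), (nat_lit 1583333), (nat_lit 1616372), (nat_lit 1631480), (nat_lit 1847661), (nat_lit 1824994), (nat_lit 1893212), (nat_lit 1874997)]⟩, ⟨(nat_lit 3), false, false, false, (nat_lit 122), (nat_lit 0), (nat_lit 2237), [(nat_lit 1177178), (nat_lit 1196337), (nat_lit 1242721), (nat_lit 1268557), (nat_lit 1351885), (nat_lit 1349998), (nat_lit 1419294), (nat_lit 1424084)]⟩, (nat_lit 4677341), (nat_lit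 39709213), (nat_lit 21866638), (nat_lit 5424149), (nat_lit 3), (nat_lit 0), [⟨(nat_lit 0), (nat_lit 88), (nat_lit 32), (nat_lit 100), (nat_lit 134211460)⟩], [], [⟨(nat_lit 1), (nat_lit 49), (nat_lit 92), (nat_lit 100), (nat_lit 213695694)⟩], [],
 ⟨⟨[(nat_lit 40), (nat_lit 60)], [(nat_lit 0), (nat_lit 1539)], [((nat_lit 0), (nat_lit 0), (nat_lit 0)), ((nat_lit 1000), (nat_lit 478), (nat_lit 704))], ((nat_lit 48), (nat_lit 100), (nat_lit 69))⟩, (nat_lit 67269), (nat_lit 300), (nat_lit 327), (nat_lit 45587101), (nat_lit 757280), [(nat_lit 1823484010), (nat_lit 2838752800)], [(nat_lit 0), (nat_lit 0)], [(nat_lit 26037592333), (nat_lit 28364458849), (nat_lit 36100273582), (nat_lit 37503660223), (nat_lit 24577884039), (nat_lit 25653531275), (nat_lit 32686533524), (nat_lit 33936558590)], (nat_lit 1271251), (nat_lit 1271251), (nat_lit 1271251), (nat_lit 1271251), (nat_lit 230000), (nat_lit 1100000), [(nat_lit 490000), (nat_lit 780000)], [(nat_lit 1),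 (nat_lit 38), (nat_lit 249), (nat_lit 40), (nat_lit 13)]⟩,
 ⟨⟨[(nat_lit 60), (nat_lit 100), (nat_lit 140)], [(nat_lit 0), (nat_lit 0), (nat_lit 2047)], [((nat_lit 0), (nat_lit 0), (nat_lit 0)), ((nat_lit 0), (nat_lit 0), (nat_lit 0)), ((nat_lit 1000), (nat_lit 993), (nat_lit 781))], ((nat_lit 95), (nat_lit 100), (nat_lit 65))⟩, (nat_lit 2631538), (nat_lit 213), (nat_lit 213), (nat_lit 0), (nat_lit 0), [(nat_lit 3209796000), (nat_lit 6112500000), (nat_lit 9625476000)], [], [(nat_lit 23973805750), (nat_lit 26794409254), (nat_lit 34408732041), (nat_lit 36026362794), (nat_lit 29412353700), (nat_lit 30952935475), (nat_lit 35128908918), (nat_lit 36093163837)], (nat_lit 0), (nat_lit 0), (nat_lit 0), (nat_lit 0), (nat_lit 0), (nat_lit 0), [], [(nat_lit 11), (nat_lit 55), (nat_lit 428), (nat_lit 200), (nat_lit 12)]⟩,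
 Rw.none⟩)) (.trZ (nat_lit 0) (nat_lit 2) (nat_lit 4) (nat_lit 100) (nat_lit 44) (nat_lit 86) (nat_lit 90) (.leaf ⟨(nat_lit 22), (nat_lit 978), (nat_lit 0), (nat_lit 0), (nat_lit 0), (nat_lit 4514), (nat_lit 6208), (nat_lit 0), (nat_lit 0), (nat_lit 0), (nat_lit 88000), [((nat_lit 400), [((nat_lit 43), (nat_lit 5), (nat_lit 22))])], ⟨(nat_lit 7), true, false, false, (nat_lit 292), (nat_lit 0), (nat_lit 2237), [(nat_lit 1572676), (nat_lit 1583333), (nat_lit 1616372), (nat_lit 1631480), (nat_lit 1847661), (nat_lit 1824994), (nat_lit 1893212), (nat_lit 1874997)]⟩, ⟨(nat_lit 4), false, false, false, (nat_lit 158), (nat_lit 0), (nat_lit 2237), [(nat_lit 1316293), (nat_lit 1333360), (nat_lit 1359989), (nat_lit 1381507), (nat_lit 1419294), (nat_lit 1424084), (nat_lit 1462989), (nat_lit 1472231)]⟩, (nat_lit 5035290), (nat_lit 37938231), (nat_lit 21137537), (nat_lit 7924232), (nat_lit 4), (nat_lit 0), [⟨(nat_lit 0), (nat_lit 88), (nat_lit 32), (nat_lit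 100), (nat_lit 190738077)⟩], [⟨(nat_lit 0), (nat_lit 100), (nat_lit 31), (nat_lit 95), (nat_lit 172256983)⟩], [⟨(nat_lit 1), (nat_lit 31), (nat_lit 92), (nat_lit 100), (nat_lit 227369790)⟩], [],
 ⟨⟨[(nat_lit 40), (nat_lit 60)], [(nat_lit 0), (nat_lit 1539)], [((nat_lit 0), (nat_lit 0), (nat_lit 0)), ((nat_lit 1000), (nat_lit 478), (nat_lit 704))], ((nat_lit 48), (nat_lit 100), (nat_lit 69))⟩, (nat_lit 0), (nat_lit 263), (nat_lit 263), (nat_lit 0), (nat_lit 626990), [(nat_lit 1823484015), (nat_lit 2838752800)], [(nat_lit 0), (nat_lit 0)], [(nat_lit 23268423305), (nat_lit 25091615935), (nat_lit 32354482413), (nat_lit 33620729121), (nat_lit 23756877077), (nat_lit 24943632455), (nat_lit 31674450182), (nat_lit 32840772172)], (nat_lit 1271251), (nat_lit 1271251), (nat_lit 1271251), (nat_lit 1271251), (nat_lit 559688), (nat_lit 1100000), [(nat_lit 490000), (nat_lit 780000)], [(nat_lit 1), (nat_lit 38), (nat_lit 249), (nat_lit 40), (nat_lit 13)]⟩,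
 ⟨⟨[(nat_lit 60), (nat_lit 100), (nat_lit 140)], [(nat_lit 0), (nat_lit 0), (nat_lit 2047)], [((nat_lit 0), (nat_lit 0), (nat_lit 0)), ((nat_lit 0), (nat_lit 0), (nat_lit 0)), ((nat_lit 1000), (nat_lit 993), (nat_lit 781))], ((nat_lit 95), (nat_lit 100), (nat_lit 65))⟩, (nat_lit 2527017), (nat_lit 213), (nat_lit 213), (nat_lit 0), (nat_lit 0), [(nat_lit 3209796000), (nat_lit 6112500000), (nat_lit 9625476000)], [], [(nat_lit 24199089870), (nat_lit 27042141510), (nat_lit 34705582730), (nat_lit 36258186078), (nat_lit 30746659986), (nat_lit 32161889861), (nat_lit 36239257843), (nat_lit 37170476666)], (nat_lit 0), (nat_lit 0), (nat_lit 0), (nat_lit 0), (nat_lit 0), (nat_lit 0), [], [(nat_lit 11), (nat_lit 55), (nat_lit 428), (nat_lit 200), (nat_lit 12)]⟩,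
 Rw.none⟩)))))
noncomputable def c14_2 : Tr Lf :=
 (.spl (nat_lit 2) (nat_lit 180) (.trX (nat_lit 4) (nat_lit 0) (nat_lit 2) (nat_lit 44) (nat_lit 94) (nat_lit 100) (nat_lit 270) (.spl (nat_lit 5) (nat_lit 200) (.leaf ⟨(nat_lit 0), (nat_lit 1000), (nat_lit 0), (nat_lit 0), (nat_lit 0), (nat_lit 4705), (nat_lit 8794), (nat_lit 0), (nat_lit 0), (nat_lit 0), (nat_lit 0), [], Pd.none, Pd.none, (nat_lit 0), (nat_lit 1), (nat_lit 0), (nat_lit 0), (nat_lit 4), (nat_lit 0), [⟨(nat_lit 0), (nat_lit 100), (nat_lit 44), (nat_lit 99), (nat_lit 325152175)⟩], [⟨(nat_lit 1), (nat_lit 94), (nat_lit 44), (nat_lit 100), (nat_lit 752505350)⟩], [], [],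
 ⟨⟨[(nat_lit 40), (nat_lit 60)], [(nat_lit 0), (nat_lit 1539)], [((nat_lit 0), (nat_lit 0), (nat_lit 0)), ((nat_lit 1000), (nat_lit 478), (nat_lit 704))], ((nat_lit 48), (nat_lit 100), (nat_lit 69))⟩, (nat_lit 0), (nat_lit 222), (nat_lit 222), (nat_lit 0), (nat_lit 628747), [(nat_lit 2032000001), (nat_lit 3282000000)], [], [(nat_lit 23134717484), (nat_lit 24521619764), (nat_lit 26513052098), (nat_lit 28084444960), (nat_lit 26089956908), (nat_lit 27712614076), (nat_lit 29178176621), (nat_lit 30451633027)], (nat_lit 1271251), (nat_lit 1271251), (nat_lit 1017188), (nat_lit 2118126), (nat_lit 1100000), (nat_lit 2041876), [(nat_lit 490000), (nat_lit 780000)], [(nat_lit 1), (nat_lit 38), (nat_lit 203), (nat_lit 0), (nat_lit 9)]⟩,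
 ⟨⟨[(nat_lit 80), (nat_lit 120), (nat_lit 160)], [(nat_lit 0), (nat_lit 0), (nat_lit 2132)], [((nat_lit 0), (nat_lit 0), (nat_lit 0)), ((nat_lit 0), (nat_lit 0), (nat_lit 0)), ((nat_lit 858), (nat_lit 1000), (nat_lit 713))], ((nat_lit 100), (nat_lit 91), (nat_lit 64))⟩, (nat_lit 4659515), (nat_lit 213), (nat_lit 213), (nat_lit 0), (nat_lit 0), [(nat_lit 4688000000), (nat_lit 7968000000), (nat_lit 11872000000)], [], [(nat_lit 22203467128), (nat_lit 25509981559), (nat_lit 27683799968), (nat_lit 30607827690), (nat_lit 16882363787), (nat_lit 19624453951), (nat_lit 22258606482), (nat_lit 24618456093)], (nat_lit 0), (nat_lit 0), (nat_lit 0), (nat_lit 0), (nat_lit 0), (nat_lit 0), [], [(nat_lit 18), (nat_lit 59), (nat_lit 428), (nat_lit 200), (nat_lit 11)]⟩,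
 Rw.none⟩) (.spl (nat_lit 5) (nat_lit 320) (.leaf ⟨(nat_lit 22), (nat_lit 978), (nat_lit 0), (nat_lit 0), (nat_lit 0), (nat_lit 4101), (nat_lit 6807), (nat_lit 0), (nat_lit 0), (nat_lit 0), (nat_lit 88000), [((nat_lit 400), [((nat_lit 43), (nat_lit 5), (nat_lit 22))])], ⟨(nat_lit 6), true, false, false, (nat_lit 236), (nat_lit 0), (nat_lit 2237), [(nat_lit 1470123), (nat_lit 1483344), (nat_lit 1513819), (nat_lit 1531491), (nat_lit 1659577), (nat_lit 1649997), (nat_lit 1705063), (nat_lit 1699935)]⟩, ⟨(nat_lit 4), false, false, true, (nat_lit 184), (nat_lit 0), (nat_lit 2237), [(nat_lit 1351885), (nat_lit 1349998), (nat_lit 1419294), (nat_lit 1424084), (nat_lit 1508671), (nat_lit 1487491), (nat_lit 1576997), (nat_lit 1562495)]⟩, (nat_lit 5019599), (nat_lit 40872045), (nat_lit 15607650), (nat_lit 10520305), (nat_lit 5), (nat_lit 0), [⟨(nat_lit 0), (nat_lit 100), (nat_lit 44), (nat_lit 99), (nat_lit 371611351)⟩], [⟨(nat_lit 1), (nat_lit 94), (nat_lit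 44), (nat_lit 100), (nat_lit 703825417)⟩], [], [],
 ⟨⟨[(nat_lit 40), (nat_lit 60)], [(nat_lit 0), (nat_lit 1539)], [((nat_lit 0), (nat_lit 0), (nat_lit 0)), ((nat_lit 1000), (nat_lit 478), (nat_lit 704))], ((nat_lit 48), (nat_lit 100), (nat_lit 69))⟩, (nat_lit 1325092), (nat_lit 222), (nat_lit 222), (nat_lit 0), (nat_lit 628747), [(nat_lit 1823484049), (nat_lit 2838752800)], [(nat_lit 0), (nat_lit 0)], [(nat_lit 22452470907), (nat_lit 23805861763), (nat_lit 25936565266), (nat_lit 27397266912), (nat_lit 25496300958), (nat_lit 27010369663), (nat_lit 28612698760), (nat_lit 29803921396)], (nat_lit 1271251), (nat_lit 1271251), (nat_lit 1017188), (nat_lit 2118126), (nat_lit 1100000), (nat_lit 2041876), [(nat_lit 490000), (nat_lit 780000)], [(nat_lit 1), (nat_lit 38), (nat_lit 203), (nat_lit 0), (nat_lit 9)]⟩,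
 ⟨⟨[(nat_lit 80), (nat_lit 120), (nat_lit 160)], [(nat_lit 0), (nat_lit 0), (nat_lit 2132)], [((nat_lit 0), (nat_lit 0), (nat_lit 0)), ((nat_lit 0), (nat_lit 0), (nat_lit 0)), ((nat_lit 858), (nat_lit 1000), (nat_lit 713))], ((nat_lit 100), (nat_lit 91), (nat_lit 64))⟩, (nat_lit 113811), (nat_lit 53), (nat_lit 53), (nat_lit 0), (nat_lit 0), [(nat_lit 4584864000), (nat_lit 7792704000), (nat_lit 11610816000)], [], [(nat_lit 11375840837), (nat_lit 14727295992), (nat_lit 17958884844), (nat_lit 20413378707), (nat_lit 19568852714), (nat_lit 22263681853), (nat_lit 24419122914), (nat_lit 26478892809)], (nat_lit 0), (nat_lit 0), (nat_lit 0), (nat_lit 0), (nat_lit 0), (nat_lit 0), [], [(nat_lit 18), (nat_lit 59), (nat_lit 456), (nat_lit 225), (nat_lit 11)]⟩,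
 Rw.none⟩) (.leaf ⟨(nat_lit 22), (nat_lit 978), (nat_lit 0), (nat_lit 0), (nat_lit 0), (nat_lit 3994), (nat_lit 5789), (nat_lit 0), (nat_lit 0), (nat_lit 0), (nat_lit 88000), [((nat_lit 400), [((nat_lit 43), (nat_lit 5), (nat_lit 22))])], ⟨(nat_lit 6), true, false, false, (nat_lit 236), (nat_lit 0), (nat_lit 2237), [(nat_lit 1470123), (nat_lit 1483344), (nat_lit 1513819), (nat_lit 1531491), (nat_lit 1659577), (nat_lit 1649997), (nat_lit 1705063), (nat_lit 1699935)]⟩, ⟨(nat_lit 4), false, false, true, (nat_lit 184), (nat_lit 0), (nat_lit 2237), [(nat_lit 1351885), (nat_lit 1349998), (nat_lit 1419294), (nat_lit 1424084), (nat_lit 1508671), (nat_lit 1487491), (nat_lit 1576997), (nat_lit 1562495)]⟩, (nat_lit 5019599), (nat_lit 40872045), (nat_lit 15607650), (nat_lit 10520305), (nat_lit 8), (nat_lit 0), [], [⟨(nat_lit 1), (nat_lit 100), (nat_lit 31), (nat_lit 97), (nat_lit 189726395)⟩, ⟨(nat_lit 1), (nat_lit 94), (nat_lit 44), (nat_lit 100), (nat_lit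 28768020)⟩], [⟨(nat_lit 1), (nat_lit 30), (nat_lit 98), (nat_lit 100), (nat_lit 285578870)⟩], [⟨(nat_lit 2), (nat_lit 60), (nat_lit 100), (nat_lit 85), (nat_lit 396695675)⟩],
 ⟨⟨[(nat_lit 40), (nat_lit 60)], [(nat_lit 0), (nat_lit 1539)], [((nat_lit 0), (nat_lit 0), (nat_lit 0)), ((nat_lit 1000), (nat_lit 478), (nat_lit 704))], ((nat_lit 48), (nat_lit 100), (nat_lit 69))⟩, (nat_lit 1144880), (nat_lit 222), (nat_lit 222), (nat_lit 0), (nat_lit 628747), [(nat_lit 1823484044), (nat_lit 2838752800)], [(nat_lit 0), (nat_lit 0)], [(nat_lit 22753459327), (nat_lit 24088313115), (nat_lit 26193293863), (nat_lit 27275531728), (nat_lit 25786185343), (nat_lit 26887664172), (nat_lit 28512523046), (nat_lit 29689177779)], (nat_lit 1271251), (nat_lit 1271251), (nat_lit 1017188), (nat_lit 2118126), (nat_lit 1100000), (nat_lit 2041876), [(nat_lit 490000), (nat_lit 780000)], [(nat_lit 1), (nat_lit 38), (nat_lit 203), (nat_lit 0), (nat_lit 9)]⟩,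
 ⟨⟨[(nat_lit 80), (nat_lit 120), (nat_lit 160)], [(nat_lit 0), (nat_lit 0), (nat_lit 2132)], [((nat_lit 0), (nat_lit 0), (nat_lit 0)), ((nat_lit 0), (nat_lit 0), (nat_lit 0)), ((nat_lit 858), (nat_lit 1000), (nat_lit 713))], ((nat_lit 100), (nat_lit 91), (nat_lit 64))⟩, (nat_lit 69536), (nat_lit 103), (nat_lit 103), (nat_lit 0), (nat_lit 0), [(nat_lit 4584864000), (nat_lit 7792704000), (nat_lit 11610816000)], [], [(nat_lit 20468760133), (nat_lit 22668459811), (nat_lit 24578076730), (nat_lit 26218886505), (nat_lit 27094793470), (nat_lit 28946644879), (nat_lit 30022176414), (nat_lit 31399471189)], (nat_lit 0), (nat_lit 0), (nat_lit 0), (nat_lit 0), (nat_lit 0), (nat_lit 0), [], [(nat_lit 18), (nat_lit 59), (nat_lit 373), (nat_lit 150), (nat_lit 9)]⟩,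
 Rw.none⟩)))) (.spl (nat_lit 5) (nat_lit 200) (.leaf ⟨(nat_lit 0), (nat_lit 892), (nat_lit 0), (nat_lit 108), (nat_lit 0), (nat_lit 4584), (nat_lit 8076), (nat_lit 1155), (nat_lit 0), (nat_lit 0), (nat_lit 0), [], Pd.none, Pd.none, (nat_lit 0), (nat_lit 1), (nat_lit 0), (nat_lit 0), (nat_lit 4), (nat_lit 0), [⟨(nat_lit 0), (nat_lit 100), (nat_lit 44), (nat_lit 99), (nat_lit 343701757)⟩], [⟨(nat_lit 1), (nat_lit 86), (nat_lit 44), (nat_lit 100), (nat_lit 557758266)⟩], [], [],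
 ⟨⟨[(nat_lit 40), (nat_lit 60)], [(nat_lit 0), (nat_lit 1539)], [((nat_lit 0), (nat_lit 0), (nat_lit 0)), ((nat_lit 1000), (nat_lit 478), (nat_lit 704))], ((nat_lit 48), (nat_lit 100), (nat_lit 69))⟩, (nat_lit 0), (nat_lit 198), (nat_lit 198), (nat_lit 0), (nat_lit 518480), [(nat_lit 2032000003), (nat_lit 3282000000)], [], [(nat_lit 23492865588), (nat_lit 24860181160), (nat_lit 26819578604), (nat_lit 27946781808), (nat_lit 27841705455), (nat_lit 29297619304), (nat_lit 30502791340), (nat_lit 31646692314)], (nat_lit 1271251), (nat_lit 1271251), (nat_lit 1017188), (nat_lit 2118126), (nat_lit 1100000), (nat_lit 2384376), [(nat_lit 490000), (nat_lit 780000)], [(nat_lit 1), (nat_lit 38), (nat_lit 203), (nat_lit 0), (nat_lit 9)]⟩,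
 ⟨⟨[(nat_lit 80), (nat_lit 120), (nat_lit 160)], [(nat_lit 0), (nat_lit 0), (nat_lit 2132)], [((nat_lit 0), (nat_lit 0), (nat_lit 0)), ((nat_lit 0), (nat_lit 0), (nat_lit 0)), ((nat_lit 858), (nat_lit 1000), (nat_lit 713))], ((nat_lit 100), (nat_lit 91), (nat_lit 64))⟩, (nat_lit 4773196), (nat_lit 213), (nat_lit 213), (nat_lit 0), (nat_lit 0), [(nat_lit 4688000000), (nat_lit 7968000000), (nat_lit 11872000000)], [], [(nat_lit 21810080860), (nat_lit 24951435007), (nat_lit 27501174928), (nat_lit 30455335260), (nat_lit 18032227534), (nat_lit 20601108266), (nat_lit 23012755628), (nat_lit 25270159922)], (nat_lit 0), (nat_lit 0), (nat_lit 0), (nat_lit 0), (nat_lit 0), (nat_lit 0), [], [(nat_lit 18), (nat_lit 59), (nat_lit 428), (nat_lit 200), (nat_lit 11)]⟩,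
 ⟨⟨[(nat_lit 120), (nat_lit 160), (nat_lit 180)], [(nat_lit 0), (nat_lit 533), (nat_lit 2066)], [((nat_lit 0), (nat_lit 0), (nat_lit 0)), ((nat_lit 960), (nat_lit 1000), (nat_lit 200)), ((nat_lit 615), (nat_lit 1000), (nat_lit 729))], ((nat_lit 100), (nat_lit 72), (nat_lit 63))⟩, (nat_lit 252878), (nat_lit 300), (nat_lit 2106), (nat_lit 7171201), (nat_lit 3673312), [(nat_lit 860544000), (nat_lit 1282176000), (nat_lit 1518264000)], [], [(nat_lit 6126067302), (nat_lit 6016791681), (nat_lit 6215744105), (nat_lit 5745331902), (nat_lit 5475620051), (nat_lit 4923862064), (nat_lit 7931239473), (nat_lit 6888334389)], (nat_lit 1271251), (nat_lit 1271251), (nat_lit 1100000), (nat_lit 2384376), (nat_lit 0), (nat_lit 1412501), [(nat_lit 1695001), (nat_lit 1271251), (nat_lit 1271251)], [(nat_lit 28), (nat_lit 65), (nat_lit 618), (nat_lit 200), (nat_lit 14)]⟩⟩) (.leaf ⟨(nat_lit 50), (nat_lit 843), (nat_lit 0), (nat_lit 107), (nat_lit 0), (nat_lit 3970),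 (nat_lit 5624), (nat_lit 1054), (nat_lit 0), (nat_lit 0), (nat_lit 89000), [((nat_lit 400), [((nat_lit 28), (nat_lit 2), (nat_lit 37)), ((nat_lit 43), (nat_lit 5), (nat_lit 13))])], ⟨(nat_lit 6), true, false, false, (nat_lit 236), (nat_lit 0), (nat_lit 2237), [(nat_lit 1470123), (nat_lit 1483344), (nat_lit 1513819), (nat_lit 1531491), (nat_lit 1659577), (nat_lit 1649997), (nat_lit 1705063), (nat_lit 1699935)]⟩, ⟨(nat_lit 4), false, false, true, (nat_lit 218), (nat_lit 0), (nat_lit 2237), [(nat_lit 1419294), (nat_lit 1424084), (nat_lit 1462989), (nat_lit 1472231), (nat_lit 1634011), (nat_lit 1612493), (nat_lit 1679562), (nat_lit 1662495)]⟩, (nat_lit 5258643), (nat_lit 38677795), (nat_lit 15028348), (nat_lit 13293857), (nat_lit 5), (nat_lit 0), [⟨(nat_lit 0), (nat_lit 100), (nat_lit 44), (nat_lit 99), (nat_lit 375795302)⟩], [⟨(nat_lit 1), (nat_lit 86), (nat_lit 44), (nat_lit 100), (nat_lit 498142236)⟩], [], [⟨(nat_lit 2), (nat_lit 10), (nat_lit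 99), (nat_lit 100), (nat_lit 400301803)⟩],
 ⟨⟨[(nat_lit 40), (nat_lit 60)], [(nat_lit 0), (nat_lit 1539)], [((nat_lit 0), (nat_lit 0), (nat_lit 0)), ((nat_lit 1000), (nat_lit 478), (nat_lit 704))], ((nat_lit 48), (nat_lit 100), (nat_lit 69))⟩, (nat_lit 1421059), (nat_lit 198), (nat_lit 198), (nat_lit 0), (nat_lit 518480), [(nat_lit 1802621601), (nat_lit 2804312000)], [(nat_lit 0), (nat_lit 0)], [(nat_lit 22716658539), (nat_lit 24047354480), (nat_lit 26154212220), (nat_lit 27248226640), (nat_lit 27155012866), (nat_lit 28506426234), (nat_lit 29877915482), (nat_lit 30949877683)], (nat_lit 1271251), (nat_lit 1271251), (nat_lit 1017188), (nat_lit 2118126), (nat_lit 1100000), (nat_lit 2384376), [(nat_lit 490000), (nat_lit 780000)], [(nat_lit 1), (nat_lit 38), (nat_lit 203), (nat_lit 0), (nat_lit 9)]⟩,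
 ⟨⟨[(nat_lit 80), (nat_lit 120), (nat_lit 160)], [(nat_lit 0), (nat_lit 0), (nat_lit 2132)], [((nat_lit 0), (nat_lit 0), (nat_lit 0)), ((nat_lit 0), (nat_lit 0), (nat_lit 0)), ((nat_lit 858), (nat_lit 1000), (nat_lit 713))], ((nat_lit 100), (nat_lit 91), (nat_lit 64))⟩, (nat_lit 73322), (nat_lit 103), (nat_lit 103), (nat_lit 0), (nat_lit 0), [(nat_lit 4453600000), (nat_lit 7569600000), (nat_lit 11278400000)], [], [(nat_lit 12578908780), (nat_lit 15537883166), (nat_lit 18552365662), (nat_lit 20747931562), (nat_lit 26319553255), (nat_lit 28118788142), (nat_lit 29163402860), (nat_lit 30501312028)], (nat_lit 0), (nat_lit 0), (nat_lit 0), (nat_lit 0), (nat_lit 0), (nat_lit 0), [], [(nat_lit 18), (nat_lit 59), (nat_lit 483), (nat_lit 250), (nat_lit 12)]⟩,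
 ⟨⟨[(nat_lit 120), (nat_lit 160), (nat_lit 180)], [(nat_lit 0), (nat_lit 533), (nat_lit 2066)], [((nat_lit 0), (nat_lit 0), (nat_lit 0)), ((nat_lit 960), (nat_lit 1000), (nat_lit 200)), ((nat_lit 615), (nat_lit 1000), (nat_lit 729))], ((nat_lit 100), (nat_lit 72), (nat_lit 63))⟩, (nat_lit 715267), (nat_lit 300), (nat_lit 1996), (nat_lit 7104800), (nat_lit 3673312), [(nat_lit 852576000), (nat_lit 1270304000), (nat_lit 1504206000)], [], [(nat_lit 5832765527), (nat_lit 5710396210), (nat_lit 5406302399), (nat_lit 5283836960), (nat_lit 5327762195), (nat_lit 5204426491), (nat_lit 4896005424), (nat_lit 4772877816)], (nat_lit 1271251), (nat_lit 1271251), (nat_lit 1100000), (nat_lit 2384376), (nat_lit 1271251), (nat_lit 1271251), [(nat_lit 1695001), (nat_lit 1271251), (nat_lit 1271251)], [(nat_lit 28), (nat_lit 65), (nat_lit 616), (nat_lit 250), (nat_lit 14)]⟩⟩)))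
noncomputable def c14_3 : Tr Lf :=
 (.trZ (nat_lit 0) (nat_lit 1) (nat_lit 3) (nat_lit 92) (nat_lit 44) (nat_lit 100) (nat_lit 190) (.spl (nat_lit 5) (nat_lit 200) (.leaf ⟨(nat_lit 0), (nat_lit 1000), (nat_lit 0), (nat_lit 0), (nat_lit 0), (nat_lit 4696), (nat_lit 7879), (nat_lit 0), (nat_lit 0), (nat_lit 0), (nat_lit 0), [], Pd.none, Pd.none, (nat_lit 0), (nat_lit 1), (nat_lit 0), (nat_lit 0), (nat_lit 4), (nat_lit 0), [⟨(nat_lit 0), (nat_lit 92), (nat_lit 44), (nat_lit 100), (nat_lit 341245205)⟩], [⟨(nat_lit 1), (nat_lit 86), (nat_lit 44), (nat_lit 100), (nat_lit 764992504)⟩], [], [],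
 ⟨⟨[(nat_lit 40), (nat_lit 60)], [(nat_lit 0), (nat_lit 1539)], [((nat_lit 0), (nat_lit 0), (nat_lit 0)), ((nat_lit 1000), (nat_lit 478), (nat_lit 704))], ((nat_lit 48), (nat_lit 100), (nat_lit 69))⟩, (nat_lit 0), (nat_lit 262), (nat_lit 262), (nat_lit 0), (nat_lit 757280), [(nat_lit 2032000001), (nat_lit 3282000000)], [], [(nat_lit 24598527583), (nat_lit 25809744125), (nat_lit 27012599973), (nat_lit 28074205552), (nat_lit 28427585454), (nat_lit 29808941190), (nat_lit 30616775210), (nat_lit 31773798566)], (nat_lit 1271251), (nat_lit 1271251), (nat_lit 1271251), (nat_lit 1271251), (nat_lit 1100000), (nat_lit 2384376), [(nat_lit 490000), (nat_lit 780000)], [(nat_lit 1), (nat_lit 38), (nat_lit 203), (nat_lit 0), (nat_lit 9)]⟩,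
 ⟨⟨[(nat_lit 60), (nat_lit 100), (nat_lit 140)], [(nat_lit 0), (nat_lit 0), (nat_lit 2047)], [((nat_lit 0), (nat_lit 0), (nat_lit 0)), ((nat_lit 0), (nat_lit 0), (nat_lit 0)), ((nat_lit 1000), (nat_lit 993), (nat_lit 781))], ((nat_lit 95), (nat_lit 100), (nat_lit 65))⟩, (nat_lit 3159885), (nat_lit 183), (nat_lit 183), (nat_lit 0), (nat_lit 0), [(nat_lit 3282000000), (nat_lit 6250000000), (nat_lit 9842000000)], [], [(nat_lit 23759266446), (nat_lit 27052519320), (nat_lit 28163380025), (nat_lit 30742652302), (nat_lit 19309696298), (nat_lit 21828305006), (nat_lit 22640915979), (nat_lit 24857062511)], (nat_lit 0), (nat_lit 0), (nat_lit 0), (nat_lit 0), (nat_lit 0), (nat_lit 0), [], [(nat_lit 11), (nat_lit 55), (nat_lit 345), (nat_lit 125), (nat_lit 10)]⟩,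
 Rw.none⟩) (.spl (nat_lit 5) (nat_lit 320) (.leaf ⟨(nat_lit 22), (nat_lit 978), (nat_lit 0), (nat_lit 0), (nat_lit 0), (nat_lit 4092), (nat_lit 4804), (nat_lit 0), (nat_lit 0), (nat_lit 0), (nat_lit 88000), [((nat_lit 400), [((nat_lit 43), (nat_lit 5), (nat_lit 22))])], ⟨(nat_lit 7), true, false, false, (nat_lit 265), (nat_lit 0), (nat_lit 2237), [(nat_lit 1572676), (nat_lit 1583333), (nat_lit 1616372), (nat_lit 1631480), (nat_lit 1705063), (nat_lit 1699935), (nat_lit 1748802), (nat_lit 1748125)]⟩, ⟨(nat_lit 4), false, false, true, (nat_lit 204), (nat_lit 0), (nat_lit 2237), [(nat_lit 1351885), (nat_lit 1349998), (nat_lit 1462989), (nat_lit 1472231), (nat_lit 1565684), (nat_lit 1537489), (nat_lit 1679562), (nat_lit 1662495)]⟩, (nat_lit 5300347), (nat_lit 37495614), (nat_lit 17823921), (nat_lit 11680465), (nat_lit 5), (nat_lit 0), [⟨(nat_lit 0), (nat_lit 92), (nat_lit 44), (nat_lit 100), (nat_lit 393758482)⟩], [⟨(nat_lit 1), (nat_lit 86), (nat_lit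 44), (nat_lit 100), (nat_lit 706011141)⟩], [], [],
 ⟨⟨[(nat_lit 40), (nat_lit 60)], [(nat_lit 0), (nat_lit 1539)], [((nat_lit 0), (nat_lit 0), (nat_lit 0)), ((nat_lit 1000), (nat_lit 478), (nat_lit 704))], ((nat_lit 48), (nat_lit 100), (nat_lit 69))⟩, (nat_lit 1822835), (nat_lit 262), (nat_lit 262), (nat_lit 0), (nat_lit 757280), [(nat_lit 1823484127), (nat_lit 2838752800)], [(nat_lit 0), (nat_lit 0)], [(nat_lit 24084353539), (nat_lit 25269333046), (nat_lit 26564855034), (nat_lit 27573957426), (nat_lit 28032593773), (nat_lit 29097807936), (nat_lit 30002076483), (nat_lit 31088332707)], (nat_lit 1271251), (nat_lit 1271251), (nat_lit 1271251), (nat_lit 1271251), (nat_lit 1100000), (nat_lit 2384376), [(nat_lit 490000), (nat_lit 780000)], [(nat_lit 1), (nat_lit 38), (nat_lit 203), (nat_lit 0), (nat_lit 9)]⟩,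
 ⟨⟨[(nat_lit 60), (nat_lit 100), (nat_lit 140)], [(nat_lit 0), (nat_lit 0), (nat_lit 2047)], [((nat_lit 0), (nat_lit 0), (nat_lit 0)), ((nat_lit 0), (nat_lit 0), (nat_lit 0)), ((nat_lit 1000), (nat_lit 993), (nat_lit 781))], ((nat_lit 95), (nat_lit 100), (nat_lit 65))⟩, (nat_lit 56898), (nat_lit 54), (nat_lit 54), (nat_lit 0), (nat_lit 0), [(nat_lit 3209796000), (nat_lit 6112500000), (nat_lit 9625476000)], [], [(nat_lit 16346796926), (nat_lit 19068862552), (nat_lit 20461791783), (nat_lit 22665143718), (nat_lit 22408862406), (nat_lit 24409164466), (nat_lit 25352431648), (nat_lit 27134896208)], (nat_lit 0), (nat_lit 0), (nat_lit 0), (nat_lit 0), (nat_lit 0), (nat_lit 0), [], [(nat_lit 11), (nat_lit 55), (nat_lit 373), (nat_lit 150), (nat_lit 10)]⟩,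
 Rw.none⟩) (.spl (nat_lit 2) (nat_lit 180) (.trX (nat_lit 4) (nat_lit 0) (nat_lit 2) (nat_lit 44) (nat_lit 94) (nat_lit 100) (nat_lit 270) (.trX (nat_lit 5) (nat_lit 1) (nat_lit 2) (nat_lit 92) (nat_lit 49) (nat_lit 100) (nat_lit 380) (.leaf ⟨(nat_lit 22), (nat_lit 978), (nat_lit 0), (nat_lit 0), (nat_lit 0), (nat_lit 4247), (nat_lit 4586), (nat_lit 0), (nat_lit 0), (nat_lit 0), (nat_lit 88000), [((nat_lit 400), [((nat_lit 43), (nat_lit 5), (nat_lit 22))])], ⟨(nat_lit 7), true, false, false, (nat_lit 265), (nat_lit 0), (nat_lit 2237), [(nat_lit 1572676), (nat_lit 1583333), (nat_lit 1616372), (nat_lit 1631480), (nat_lit 1705063), (nat_lit 1699935), (nat_lit 1748802), (nat_lit 1748125)]⟩, ⟨(nat_lit 4), false, false, true, (nat_lit 184), (nat_lit 0), (nat_lit 2237), [(nat_lit 1351885), (nat_lit 1349998), (nat_lit 1419294), (nat_lit 1424084), (nat_lit 1508671), (nat_lit 1487491), (nat_lit 1576997), (nat_lit 1562495)]⟩, (nat_lit 5157984), (nat_lit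 38640775), (nat_lit 18224638), (nat_lit 10134587), (nat_lit 8), (nat_lit 0), [⟨(nat_lit 0), (nat_lit 92), (nat_lit 44), (nat_lit 100), (nat_lit 346545934)⟩], [⟨(nat_lit 1), (nat_lit 94), (nat_lit 44), (nat_lit 100), (nat_lit 644223234)⟩], [⟨(nat_lit 1), (nat_lit 49), (nat_lit 92), (nat_lit 100), (nat_lit 653296060)⟩], [],
 ⟨⟨[(nat_lit 40), (nat_lit 60)], [(nat_lit 0), (nat_lit 1539)], [((nat_lit 0), (nat_lit 0), (nat_lit 0)), ((nat_lit 1000), (nat_lit 478), (nat_lit 704))], ((nat_lit 48), (nat_lit 100), (nat_lit 69))⟩, (nat_lit 1852271), (nat_lit 262), (nat_lit 262), (nat_lit 0), (nat_lit 757280), [(nat_lit 1823484004), (nat_lit 2838752800)], [(nat_lit 0), (nat_lit 0)], [(nat_lit 23558281794), (nat_lit 24765590368), (nat_lit 26075661729), (nat_lit 27563372864), (nat_lit 26255595728), (nat_lit 27700714155), (nat_lit 28749387117), (nat_lit 29960487452)], (nat_lit 1271251), (nat_lit 1271251), (nat_lit 1271251), (nat_lit 1271251), (nat_lit 1100000),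 (nat_lit 2041876), [(nat_lit 490000), (nat_lit 780000)], [(nat_lit 1), (nat_lit 38), (nat_lit 203), (nat_lit 0), (nat_lit 9)]⟩,
 ⟨⟨[(nat_lit 60), (nat_lit 100), (nat_lit 140)], [(nat_lit 0), (nat_lit 0), (nat_lit 2047)], [((nat_lit 0), (nat_lit 0), (nat_lit 0)), ((nat_lit 0), (nat_lit 0), (nat_lit 0)), ((nat_lit 1000), (nat_lit 993), (nat_lit 781))], ((nat_lit 95), (nat_lit 100), (nat_lit 65))⟩, (nat_lit 79913), (nat_lit 78), (nat_lit 78), (nat_lit 0), (nat_lit 0), [(nat_lit 3209796000), (nat_lit 6112500000), (nat_lit 9625476000)], [], [(nat_lit 22545902983), (nat_lit 24506941120), (nat_lit 25429411866), (nat_lit 27034209212), (nat_lit 26494162268), (nat_lit 28226375234), (nat_lit 28875415919), (nat_lit 30290060947)], (nat_lit 0), (nat_lit 0), (nat_lit 0), (nat_lit 0), (nat_lit 0), (nat_lit 0), [], [(nat_lit 11), (nat_lit 55), (nat_lit 289), (nat_lit 75), (nat_lit 7)]⟩,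
 Rw.none⟩))) (.leaf ⟨(nat_lit 22), (nat_lit 888), (nat_lit 0), (nat_lit 90), (nat_lit 0), (nat_lit 4003), (nat_lit 6951), (nat_lit 900), (nat_lit 0), (nat_lit 0), (nat_lit 88000), [((nat_lit 400), [((nat_lit 43), (nat_lit 5), (nat_lit 22))])], ⟨(nat_lit 7), true, false, false, (nat_lit 265), (nat_lit 0), (nat_lit 2237), [(nat_lit 1572676), (nat_lit 1583333), (nat_lit 1616372), (nat_lit 1631480), (nat_lit 1705063), (nat_lit 1699935), (nat_lit 1748802), (nat_lit 1748125)]⟩, ⟨(nat_lit 4), false, false, true, (nat_lit 218), (nat_lit 0), (nat_lit 2237), [(nat_lit 1419294), (nat_lit 1424084), (nat_lit 1462989), (nat_lit 1472231), (nat_lit 1634011), (nat_lit 1612493), (nat_lit 1679562), (nat_lit 1662495)]⟩, (nat_lit 5388345), (nat_lit 36677844), (nat_lit 17528496), (nat_lit 12793660), (nat_lit 8), (nat_lit 0), [⟨(nat_lit 0), (nat_lit 92), (nat_lit 44), (nat_lit 100), (nat_lit 240406377)⟩], [⟨(nat_lit 1), (nat_lit 86), (nat_lit 44), (nat_lit 100),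 (nat_lit 380325301)⟩], [⟨(nat_lit 1), (nat_lit 31), (nat_lit 92), (nat_lit 100), (nat_lit 502487389)⟩], [⟨(nat_lit 2), (nat_lit 61), (nat_lit 100), (nat_lit 91), (nat_lit 113440172)⟩],
 ⟨⟨[(nat_lit 40), (nat_lit 60)], [(nat_lit 0), (nat_lit 1539)], [((nat_lit 0), (nat_lit 0), (nat_lit 0)), ((nat_lit 1000), (nat_lit 478), (nat_lit 704))], ((nat_lit 48), (nat_lit 100), (nat_lit 69))⟩, (nat_lit 1066756), (nat_lit 220), (nat_lit 220), (nat_lit 0), (nat_lit 626990), [(nat_lit 1823484031), (nat_lit 2838752800)], [(nat_lit 0), (nat_lit 0)], [(nat_lit 23557986933), (nat_lit 24814201679), (nat_lit 26168832334), (nat_lit 27285771136), (nat_lit 27716359360), (nat_lit 28993021744), (nat_lit 29911500015), (nat_lit 30987328632)], (nat_lit 1271251), (nat_lit 1271251), (nat_lit 1271251), (nat_lit 1271251), (nat_lit 1100000), (nat_lit 2384376), [(nat_lit 490000), (nat_lit 780000)], [(nat_lit 1), (nat_lit 38), (nat_lit 203), (nat_lit 0), (nat_lit 9)]⟩,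
 ⟨⟨[(nat_lit 60), (nat_lit 100), (nat_lit 140)], [(nat_lit 0), (nat_lit 0), (nat_lit 2047)], [((nat_lit 0), (nat_lit 0), (nat_lit 0)), ((nat_lit 0), (nat_lit 0), (nat_lit 0)), ((nat_lit 1000), (nat_lit 993), (nat_lit 781))], ((nat_lit 95), (nat_lit 100), (nat_lit 65))⟩, (nat_lit 67912), (nat_lit 86), (nat_lit 86), (nat_lit 0), (nat_lit 0), [(nat_lit 3209796000), (nat_lit 6112500000), (nat_lit 9625476000)], [], [(nat_lit 24688086495), (nat_lit 26739318920), (nat_lit 27369431886), (nat_lit 28990988934), (nat_lit 30542456481), (nat_lit 32392190787), (nat_lit 32663723703), (nat_lit 34113651612)], (nat_lit 0), (nat_lit 0), (nat_lit 0), (nat_lit 0), (nat_lit 0), (nat_lit 0), [], [(nat_lit 11), (nat_lit 55), (nat_lit 289), (nat_lit 75), (nat_lit 7)]⟩,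
 ⟨⟨[(nat_lit 120), (nat_lit 160), (nat_lit 180)], [(nat_lit 0), (nat_lit 533), (nat_lit 2066)], [((nat_lit 0), (nat_lit 0), (nat_lit 0)), ((nat_lit 960), (nat_lit 1000), (nat_lit 200)), ((nat_lit 615), (nat_lit 1000), (nat_lit 729))], ((nat_lit 100), (nat_lit 72), (nat_lit 63))⟩, (nat_lit 605851), (nat_lit 300), (nat_lit 2306), (nat_lit 5976000), (nat_lit 4361678), [(nat_lit 717120000), (nat_lit 1068480000), (nat_lit 1265220000)], [], [(nat_lit 4531334396), (nat_lit 4429629806), (nat_lit 4172343553), (nat_lit 4070979964), (nat_lit 4376957129), (nat_lit 4274980557), (nat_lit 4055601465), (nat_lit 3963750255)], (nat_lit 1271251), (nat_lit 1271251), (nat_lit 1100000), (nat_lit 2384376), (nat_lit 1271251), (nat_lit 1271251), [(nat_lit 1695001), (nat_lit 1271251), (nat_lit 1271251)], [(nat_lit 28), (nat_lit 65), (nat_lit 693), (nat_lit 250), (nat_lit 15)]⟩⟩)))))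
noncomputable def c14_4 : Tr Lf :=
 (.spl (nat_lit 5) (nat_lit 200) (.leaf ⟨(nat_lit 5), (nat_lit 995), (nat_lit 0), (nat_lit 0), (nat_lit 0), (nat_lit 4448), (nat_lit 7668), (nat_lit 0), (nat_lit 0), (nat_lit 0), (nat_lit 20000), [((nat_lit 400), [((nat_lit 43), (nat_lit 5), (nat_lit 5))])], ⟨(nat_lit 7), true, false, true, (nat_lit 308), (nat_lit 0), (nat_lit 2237), [(nat_lit 1659577), (nat_lit 1649997), (nat_lit 1748802), (nat_lit 1748125), (nat_lit 1802110), (nat_lit 1774991), (nat_lit 1893212), (nat_lit 1874997)]⟩, ⟨(nat_lit 4), false, false, true, (nat_lit 204), (nat_lit 0), (nat_lit 2237), [(nat_lit 1351885), (nat_lit 1349998), (nat_lit 1462989), (nat_lit 1472231), (nat_lit 1565684), (nat_lit 1537489), (nat_lit 1679562), (nat_lit 1662495)]⟩, (nat_lit 5411413), (nat_lit 34586443), (nat_lit 21416872), (nat_lit 10996685), (nat_lit 4), (nat_lit 0), [], [⟨(nat_lit 1), (nat_lit 86), (nat_lit 44), (nat_lit 100), (nat_lit 630676552)⟩], [], [⟨(nat_lit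 0), (nat_lit 100), (nat_lit 77), (nat_lit 79), (nat_lit 37756548)⟩],
 ⟨⟨[(nat_lit 40), (nat_lit 60)], [(nat_lit 0), (nat_lit 1539)], [((nat_lit 0), (nat_lit 0), (nat_lit 0)), ((nat_lit 1000), (nat_lit 478), (nat_lit 704))], ((nat_lit 48), (nat_lit 100), (nat_lit 69))⟩, (nat_lit 0), (nat_lit 277), (nat_lit 277), (nat_lit 0), (nat_lit 757629), [(nat_lit 1984610039), (nat_lit 3181262000)], [(nat_lit 0), (nat_lit 0)], [(nat_lit 28268307406), (nat_lit 29204425050), (nat_lit 31734264362), (nat_lit 32736109504), (nat_lit 31188733710), (nat_lit 31911596746), (nat_lit 34290338464), (nat_lit 35161341517)], (nat_lit 1271251), (nat_lit 1271251), (nat_lit 1271251), (nat_lit 1271251), (nat_lit 1100000), (nat_lit 2384376), [(nat_lit 490000), (nat_lit 780000)], [(nat_lit 1), (nat_lit 38), (nat_lit 206), (nat_lit 0), (nat_lit 8)]⟩,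
 ⟨⟨[(nat_lit 80), (nat_lit 120), (nat_lit 160)], [(nat_lit 0), (nat_lit 0), (nat_lit 2132)], [((nat_lit 0), (nat_lit 0), (nat_lit 0)), ((nat_lit 0), (nat_lit 0), (nat_lit 0)), ((nat_lit 858), (nat_lit 1000), (nat_lit 713))], ((nat_lit 100), (nat_lit 91), (nat_lit 64))⟩, (nat_lit 3182944), (nat_lit 247), (nat_lit 247), (nat_lit 0), (nat_lit 0), [(nat_lit 4664560000), (nat_lit 7928160000), (nat_lit 11812640000)], [], [(nat_lit 30185041948), (nat_lit 34581829368), (nat_lit 37509036334), (nat_lit 40410592942), (nat_lit 24769593205), (nat_lit 28159769449), (nat_lit 30490806414), (nat_lit 33392363022)], (nat_lit 0), (nat_lit 0), (nat_lit 0), (nat_lit 0), (nat_lit 0), (nat_lit 0), [], [(nat_lit 18), (nat_lit 59), (nat_lit 456), (nat_lit 225), (nat_lit 11)]⟩,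
 Rw.none⟩) (.spl (nat_lit 5) (nat_lit 320) (.leaf ⟨(nat_lit 22), (nat_lit 978), (nat_lit 0), (nat_lit 0), (nat_lit 0), (nat_lit 4051), (nat_lit 5416), (nat_lit 0), (nat_lit 0), (nat_lit 0), (nat_lit 88000), [((nat_lit 400), [((nat_lit 43), (nat_lit 5), (nat_lit 22))])], ⟨(nat_lit 7), true, false, true, (nat_lit 308), (nat_lit 0), (nat_lit 2237), [(nat_lit 1659577), (nat_lit 1649997), (nat_lit 1748802), (nat_lit 1748125), (nat_lit 1802110), (nat_lit 1774991), (nat_lit 1893212), (nat_lit 1874997)]⟩, ⟨(nat_lit 4), false, false, true, (nat_lit 204), (nat_lit 0), (nat_lit 2237), [(nat_lit 1351885), (nat_lit 1349998), (nat_lit 1462989), (nat_lit 1472231), (nat_lit 1565684), (nat_lit 1537489), (nat_lit 1679562), (nat_lit 1662495)]⟩, (nat_lit 5411413), (nat_lit 34586443), (nat_lit 21416872), (nat_lit 10996685), (nat_lit 5), (nat_lit 0), [], [⟨(nat_lit 1), (nat_lit 86), (nat_lit 44), (nat_lit 100), (nat_lit 656307221)⟩], [], [],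
 ⟨⟨[(nat_lit 40), (nat_lit 60)], [(nat_lit 0), (nat_lit 1539)], [((nat_lit 0), (nat_lit 0), (nat_lit 0)), ((nat_lit 1000), (nat_lit 478), (nat_lit 704))], ((nat_lit 48), (nat_lit 100), (nat_lit 69))⟩, (nat_lit 1366476), (nat_lit 277), (nat_lit 277), (nat_lit 0), (nat_lit 757629), [(nat_lit 1823484020), (nat_lit 2838752800)], [(nat_lit 0), (nat_lit 0)], [(nat_lit 27480574907), (nat_lit 28420720766), (nat_lit 30996310403), (nat_lit 32106547698), (nat_lit 30554977519), (nat_lit 31285226821), (nat_lit 33774468898), (nat_lit 34616464873)], (nat_lit 1271251), (nat_lit 1271251), (nat_lit 1271251), (nat_lit 1271251), (nat_lit 1100000), (nat_lit 2384376), [(nat_lit 490000), (nat_lit 780000)], [(nat_lit 1), (nat_lit 38), (nat_lit 206), (nat_lit 0), (nat_lit 8)]⟩,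
 ⟨⟨[(nat_lit 80), (nat_lit 120), (nat_lit 160)], [(nat_lit 0), (nat_lit 0), (nat_lit 2132)], [((nat_lit 0), (nat_lit 0), (nat_lit 0)), ((nat_lit 0), (nat_lit 0), (nat_lit 0)), ((nat_lit 858), (nat_lit 1000), (nat_lit 713))], ((nat_lit 100), (nat_lit 91), (nat_lit 64))⟩, (nat_lit 149744), (nat_lit 89), (nat_lit 89), (nat_lit 0), (nat_lit 0), [(nat_lit 4584864000), (nat_lit 7792704000), (nat_lit 11610816000)], [], [(nat_lit 19518142986), (nat_lit 23895977362), (nat_lit 26338708658), (nat_lit 29463464817), (nat_lit 24853573784), (nat_lit 28056634312), (nat_lit 30002230166), (nat_lit 32458495482)], (nat_lit 0), (nat_lit 0), (nat_lit 0), (nat_lit 0), (nat_lit 0), (nat_lit 0), [], [(nat_lit 18), (nat_lit 59), (nat_lit 538), (nat_lit 300), (nat_lit 13)]⟩,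
 Rw.none⟩) (.spl (nat_lit 2) (nat_lit 180) (.trX (nat_lit 4) (nat_lit 0) (nat_lit 2) (nat_lit 44) (nat_lit 94) (nat_lit 100) (nat_lit 270) (.leaf ⟨(nat_lit 22), (nat_lit 978), (nat_lit 0), (nat_lit 0), (nat_lit 0), (nat_lit 4256), (nat_lit 7469), (nat_lit 0), (nat_lit 0), (nat_lit 0), (nat_lit 88000), [((nat_lit 400), [((nat_lit 43), (nat_lit 5), (nat_lit 22))])], ⟨(nat_lit 7), true, false, true, (nat_lit 308), (nat_lit 0), (nat_lit 2237), [(nat_lit 1659577), (nat_lit 1649997), (nat_lit 1748802), (nat_lit 1748125), (nat_lit 1802110), (nat_lit 1774991), (nat_lit 1893212), (nat_lit 1874997)]⟩, ⟨(nat_lit 4), false, false, true, (nat_lit 184), (nat_lit 0), (nat_lit 2237), [(nat_lit 1351885), (nat_lit 1349998), (nat_lit 1419294), (nat_lit 1424084), (nat_lit 1508671), (nat_lit 1487491), (nat_lit 1576997), (nat_lit 1562495)]⟩, (nat_lit 5273712), (nat_lit 35549556), (nat_lit 21907010), (nat_lit 9543434), (nat_lit 8), (nat_lit 0), [], [⟨(nat_lit 1),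 (nat_lit 94), (nat_lit 44), (nat_lit 100), (nat_lit 541871247)⟩], [⟨(nat_lit 1), (nat_lit 30), (nat_lit 98), (nat_lit 100), (nat_lit 534077608)⟩], [],
 ⟨⟨[(nat_lit 40), (nat_lit 60)], [(nat_lit 0), (nat_lit 1539)], [((nat_lit 0), (nat_lit 0), (nat_lit 0)), ((nat_lit 1000), (nat_lit 478), (nat_lit 704))], ((nat_lit 48), (nat_lit 100), (nat_lit 69))⟩, (nat_lit 1541280), (nat_lit 277), (nat_lit 277), (nat_lit 0), (nat_lit 757629), [(nat_lit 1823484020), (nat_lit 2838752800)], [(nat_lit 0), (nat_lit 0)], [(nat_lit 26692332892), (nat_lit 27653267596), (nat_lit 31296566676), (nat_lit 32431636288), (nat_lit 28759286488), (nat_lit 29970138784), (nat_lit 33012718084), (nat_lit 33948383281)], (nat_lit 1271251), (nat_lit 1271251), (nat_lit 1271251), (nat_lit 1271251), (nat_lit 1100000), (nat_lit 2041876), [(nat_lit 490000), (nat_lit 780000)], [(nat_lit 1), (nat_lit 38), (nat_lit 203), (nat_lit 0), (nat_lit 8)]⟩,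
 ⟨⟨[(nat_lit 80), (nat_lit 120), (nat_lit 160)], [(nat_lit 0), (nat_lit 0), (nat_lit 2132)], [((nat_lit 0), (nat_lit 0), (nat_lit 0)), ((nat_lit 0), (nat_lit 0), (nat_lit 0)), ((nat_lit 858), (nat_lit 1000), (nat_lit 713))], ((nat_lit 100), (nat_lit 91), (nat_lit 64))⟩, (nat_lit 76231), (nat_lit 105), (nat_lit 105), (nat_lit 0), (nat_lit 0), [(nat_lit 4584864000), (nat_lit 7792704000), (nat_lit 11610816000)], [], [(nat_lit 27955701618), (nat_lit 30960795386), (nat_lit 33090526585), (nat_lit 35066480571), (nat_lit 33045227788), (nat_lit 35117739642), (nat_lit 37035867525), (nat_lit 38901591337)], (nat_lit 0), (nat_lit 0), (nat_lit 0), (nat_lit 0), (nat_lit 0), (nat_lit 0), [], [(nat_lit 18), (nat_lit 59), (nat_lit 401), (nat_lit 175), (nat_lit 9)]⟩,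
 Rw.none⟩)) (.leaf ⟨(nat_lit 22), (nat_lit 889), (nat_lit 0), (nat_lit 89), (nat_lit 0), (nat_lit 4048), (nat_lit 7604), (nat_lit 888), (nat_lit 0), (nat_lit 0), (nat_lit 88000), [((nat_lit 400), [((nat_lit 43), (nat_lit 5), (nat_lit 22))])], ⟨(nat_lit 7), true, false, true, (nat_lit 308), (nat_lit 0), (nat_lit 2237), [(nat_lit 1659577), (nat_lit 1649997), (nat_lit 1748802), (nat_lit 1748125), (nat_lit 1802110), (nat_lit 1774991), (nat_lit 1893212), (nat_lit 1874997)]⟩, ⟨(nat_lit 4), false, false, true, (nat_lit 218), (nat_lit 0), (nat_lit 2237), [(nat_lit 1419294), (nat_lit 1424084), (nat_lit 1462989), (nat_lit 1472231), (nat_lit 1634011), (nat_lit 1612493), (nat_lit 1679562), (nat_lit 1662495)]⟩, (nat_lit 5497248), (nat_lit 33896425), (nat_lit 21059234), (nat_lit 12044341), (nat_lit 8), (nat_lit 0), [], [⟨(nat_lit 1), (nat_lit 95), (nat_lit 31), (nat_lit 100), (nat_lit 179481624)⟩, ⟨(nat_lit 1), (nat_lit 86), (nat_lit 44), (nat_lit 100),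 (nat_lit 320159684)⟩], [⟨(nat_lit 1), (nat_lit 40), (nat_lit 92), (nat_lit 100), (nat_lit 246082949)⟩, ⟨(nat_lit 1), (nat_lit 10), (nat_lit 98), (nat_lit 100), (nat_lit 240387732)⟩], [],
 ⟨⟨[(nat_lit 40), (nat_lit 60)], [(nat_lit 0), (nat_lit 1539)], [((nat_lit 0), (nat_lit 0), (nat_lit 0)), ((nat_lit 1000), (nat_lit 478), (nat_lit 704))], ((nat_lit 48), (nat_lit 100), (nat_lit 69))⟩, (nat_lit 924133), (nat_lit 243), (nat_lit 243), (nat_lit 0), (nat_lit 627301), [(nat_lit 1823484064), (nat_lit 2838752800)], [(nat_lit 0), (nat_lit 0)], [(nat_lit 26709948352), (nat_lit 27714121600), (nat_lit 30991916408), (nat_lit 32101790304), (nat_lit 29959283569), (nat_lit 31038398108), (nat_lit 33770570639), (nat_lit 34612347417)], (nat_lit 1271251), (nat_lit 1271251), (nat_lit 1271251), (nat_lit 1271251), (nat_lit 1100000), (nat_lit 2384376), [(nat_lit 490000), (nat_lit 780000)], [(nat_lit 1), (nat_lit 38), (nat_lit 203), (nat_lit 0), (nat_lit 8)]⟩,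
 ⟨⟨[(nat_lit 80), (nat_lit 120), (nat_lit 160)], [(nat_lit 0), (nat_lit 0), (nat_lit 2132)], [((nat_lit 0), (nat_lit 0), (nat_lit 0)), ((nat_lit 0), (nat_lit 0), (nat_lit 0)), ((nat_lit 858), (nat_lit 1000), (nat_lit 713))], ((nat_lit 100), (nat_lit 91), (nat_lit 64))⟩, (nat_lit 59280), (nat_lit 105), (nat_lit 105), (nat_lit 0), (nat_lit 0), [(nat_lit 4584864000), (nat_lit 7792704000), (nat_lit 11610816000)], [], [(nat_lit 27848866668), (nat_lit 30873107756), (nat_lit 33029752150), (nat_lit 35009333856), (nat_lit 32990853568), (nat_lit 35068354752), (nat_lit 37220845200), (nat_lit 39086920822)], (nat_lit 0), (nat_lit 0), (nat_lit 0), (nat_lit 0), (nat_lit 0), (nat_lit 0), [], [(nat_lit 18), (nat_lit 59), (nat_lit 401), (nat_lit 175), (nat_lit 9)]⟩,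
 ⟨⟨[(nat_lit 120), (nat_lit 160), (nat_lit 180)], [(nat_lit 0), (nat_lit 533), (nat_lit 2066)], [((nat_lit 0), (nat_lit 0), (nat_lit 0)), ((nat_lit 960), (nat_lit 1000), (nat_lit 200)), ((nat_lit 615), (nat_lit 1000), (nat_lit 729))], ((nat_lit 100), (nat_lit 72), (nat_lit 63))⟩, (nat_lit 595158), (nat_lit 300), (nat_lit 2306), (nat_lit 5909600), (nat_lit 4361714), [(nat_lit 709152000), (nat_lit 1056608000), (nat_lit 1251162000)], [], [(nat_lit 4515886537), (nat_lit 4415589605), (nat_lit 4161878217), (nat_lit 4061916398), (nat_lit 4363680353), (nat_lit 4263114251), (nat_lit 4017172076), (nat_lit 3926657647)], (nat_lit 1271251), (nat_lit 1271251), (nat_lit 1100000), (nat_lit 2384376), (nat_lit 1271251), (nat_lit 1271251), [(nat_lit 1695001), (nat_lit 1271251), (nat_lit 1271251)], [(nat_lit 28), (nat_lit 65), (nat_lit 693), (nat_lit 250), (nat_lit 15)]⟩⟩))))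
noncomputable def c14_5 : Tr Lf :=
 (.spl (nat_lit 1) (nat_lit 280) (.leaf ⟨(nat_lit 1000), (nat_lit 0), (nat_lit 0), (nat_lit 0), (nat_lit 0), (nat_lit 3096), (nat_lit 0), (nat_lit 0), (nat_lit 0), (nat_lit 0), (nat_lit 250000), [((nat_lit 400), [((nat_lit 28), (nat_lit 0), (nat_lit 1000))])], ⟨(nat_lit 6), false, false, false, (nat_lit 236), (nat_lit 0), (nat_lit 2237), [(nat_lit 1470123), (nat_lit 1483344), (nat_lit 1513819), (nat_lit 1531491), (nat_lit 1659577), (nat_lit 1649997), (nat_lit 1705063), (nat_lit 1699935)]⟩, ⟨(nat_lit 3), false, false, false, (nat_lit 122), (nat_lit 0), (nat_lit 2237), [(nat_lit 1177178), (nat_lit 1196337), (nat_lit 1242721), (nat_lit 1268557), (nat_lit 1351885), (nat_lit 1349998), (nat_lit 1419294), (nat_lit 1424084)]⟩, (nat_lit 4410558), (nat_lit 44706968), (nat_lit 16478094), (nat_lit 5814938), (nat_lit 0), (nat_lit 0), [], [⟨(nat_lit 0), (nat_lit 100), (nat_lit 32), (nat_lit 87), (nat_lit 55313147)⟩], [],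 [],
 ⟨⟨[(nat_lit 40), (nat_lit 60)], [(nat_lit 0), (nat_lit 1539)], [((nat_lit 0), (nat_lit 0), (nat_lit 0)), ((nat_lit 1000), (nat_lit 478), (nat_lit 704))], ((nat_lit 48), (nat_lit 100), (nat_lit 69))⟩, (nat_lit 0), (nat_lit 100), (nat_lit 100), (nat_lit 0), (nat_lit 0), [(nat_lit 1563200002), (nat_lit 1046000000)], [(nat_lit 0), (nat_lit 0)], [(nat_lit 21666070677), (nat_lit 23353571344), (nat_lit 25705626830), (nat_lit 27143019432), (nat_lit 22140294597), (nat_lit 23486718590), (nat_lit 25787086114), (nat_lit 26865276710)], (nat_lit 0), (nat_lit 0), (nat_lit 0), (nat_lit 0), (nat_lit 0), (nat_lit 0), [], [(nat_lit 1), (nat_lit 38), (nat_lit 249), (nat_lit 40), (nat_lit 13)]⟩,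
 Rw.none,
 Rw.none⟩) (.trZ (nat_lit 0) (nat_lit 1) (nat_lit 3) (nat_lit 92) (nat_lit 44) (nat_lit 100) (nat_lit 190) (.trX (nat_lit 5) (nat_lit 1) (nat_lit 2) (nat_lit 92) (nat_lit 49) (nat_lit 100) (nat_lit 380) (.spl (nat_lit 1) (nat_lit 300) (.leaf ⟨(nat_lit 959), (nat_lit 41), (nat_lit 0), (nat_lit 0), (nat_lit 0), (nat_lit 3107), (nat_lit 332), (nat_lit 0), (nat_lit 0), (nat_lit 0), (nat_lit 239750), [((nat_lit 400), [((nat_lit 28), (nat_lit 0), (nat_lit 959))])], ⟨(nat_lit 7), false, true, false, (nat_lit 261), (nat_lit 0), (nat_lit 2237), [(nat_lit 1572676), (nat_lit 1583333), (nat_lit 1594524), (nat_lit 1607407), (nat_lit 1705063), (nat_lit 1699935), (nat_lit 1726954), (nat_lit 1724051)]⟩, ⟨(nat_lit 3), false, false, false, (nat_lit 122), (nat_lit 0), (nat_lit 2237), [(nat_lit 1177178), (nat_lit 1196337), (nat_lit 1242721), (nat_lit 1268557), (nat_lit 1351885), (nat_lit 1349998), (nat_lit 1419294), (nat_lit 1424084)]⟩, (nat_lit 4553186),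 (nat_lit 42465780), (nat_lit 18880637), (nat_lit 5653583), (nat_lit 3), (nat_lit 0), [], [⟨(nat_lit 0), (nat_lit 100), (nat_lit 32), (nat_lit 87), (nat_lit 14415958)⟩], [], [⟨(nat_lit 1), (nat_lit 65), (nat_lit 100), (nat_lit 88), (nat_lit 6189676)⟩],
 ⟨⟨[(nat_lit 40), (nat_lit 60)], [(nat_lit 0), (nat_lit 1539)], [((nat_lit 0), (nat_lit 0), (nat_lit 0)), ((nat_lit 1000), (nat_lit 478), (nat_lit 704))], ((nat_lit 48), (nat_lit 100), (nat_lit 69))⟩, (nat_lit 0), (nat_lit 100), (nat_lit 100), (nat_lit 0), (nat_lit 0), [(nat_lit 1572827318), (nat_lit 1137676000)], [(nat_lit 0), (nat_lit 0)], [(nat_lit 22670860290), (nat_lit 24190320534), (nat_lit 25726540017), (nat_lit 27166338794), (nat_lit 23053068396), (nat_lit 24322104351), (nat_lit 25800178090), (nat_lit 26879989822)], (nat_lit 0), (nat_lit 0), (nat_lit 0), (nat_lit 0), (nat_lit 0), (nat_lit 0), [], [(nat_lit 1), (nat_lit 38), (nat_lit 249), (nat_lit 40), (nat_lit 13)]⟩,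
 ⟨⟨[(nat_lit 60), (nat_lit 100), (nat_lit 140)], [(nat_lit 0), (nat_lit 0), (nat_lit 2047)], [((nat_lit 0), (nat_lit 0), (nat_lit 0)), ((nat_lit 0), (nat_lit 0), (nat_lit 0)), ((nat_lit 1000), (nat_lit 993), (nat_lit 781))], ((nat_lit 95), (nat_lit 100), (nat_lit 65))⟩, (nat_lit 61184), (nat_lit 950), (nat_lit 950), (nat_lit 0), (nat_lit 1659051), [(nat_lit 134562000), (nat_lit 256250000), (nat_lit 403522000)], [], [(nat_lit 1588788047), (nat_lit 1595023082), (nat_lit 1585670988), (nat_lit 1589234293), (nat_lit 1480545791), (nat_lit 1407210581), (nat_lit 1381606188), (nat_lit 1379596919)], (nat_lit 1271251), (nat_lit 1271251), (nat_lit 1271251), (nat_lit 1271251), (nat_lit 0), (nat_lit 2683751), [(nat_lit 780000), (nat_lit 1435001), (nat_lit 1271251)], [(nat_lit 11), (nat_lit 55), (nat_lit 401), (nat_lit 175), (nat_lit 11)]⟩,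
 Rw.none⟩) (.trZ (nat_lit 0) (nat_lit 1) (nat_lit 3) (nat_lit 87) (nat_lit 44) (nat_lit 100) (nat_lit 210) (.trX (nat_lit 5) (nat_lit 1) (nat_lit 2) (nat_lit 87) (nat_lit 59) (nat_lit 100) (nat_lit 370) (.leaf ⟨(nat_lit 894), (nat_lit 106), (nat_lit 0), (nat_lit 0), (nat_lit 0), (nat_lit 3379), (nat_lit 700), (nat_lit 0), (nat_lit 0), (nat_lit 0), (nat_lit 223500), [((nat_lit 400), [((nat_lit 28), (nat_lit 0), (nat_lit 894))])], ⟨(nat_lit 7), false, true, false, (nat_lit 275), (nat_lit 0), (nat_lit 2237), [(nat_lit 1623954), (nat_lit 1633328), (nat_lit 1645800), (nat_lit 1657401), (nat_lit 1726954), (nat_lit 1724051), (nat_lit 1748802), (nat_lit 1748125)]⟩, ⟨(nat_lit 3), false, false, false, (nat_lit 122), (nat_lit 0), (nat_lit 2237), [(nat_lit 1177178), (nat_lit 1196337), (nat_lit 1242721), (nat_lit 1268557), (nat_lit 1351885), (nat_lit 1349998), (nat_lit 1419294), (nat_lit 1424084)]⟩, (nat_lit 4618487), (nat_lit 41167495), (nat_lit 20283008),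 (nat_lit 5549497), (nat_lit 3), (nat_lit 0), [⟨(nat_lit 0), (nat_lit 87), (nat_lit 32), (nat_lit 100), (nat_lit 24770194)⟩], [⟨(nat_lit 0), (nat_lit 100), (nat_lit 32), (nat_lit 87), (nat_lit 53928544)⟩], [], [⟨(nat_lit 1), (nat_lit 70), (nat_lit 100), (nat_lit 89), (nat_lit 20905146)⟩],
 ⟨⟨[(nat_lit 40), (nat_lit 60)], [(nat_lit 0), (nat_lit 1539)], [((nat_lit 0), (nat_lit 0), (nat_lit 0)), ((nat_lit 1000), (nat_lit 478), (nat_lit 704))], ((nat_lit 48), (nat_lit 100), (nat_lit 69))⟩, (nat_lit 0), (nat_lit 100), (nat_lit 100), (nat_lit 0), (nat_lit 0), [(nat_lit 1588088824), (nat_lit 1283016000)], [(nat_lit 0), (nat_lit 0)], [(nat_lit 23511609386), (nat_lit 25252790061), (nat_lit 26243666077), (nat_lit 27742963018), (nat_lit 23192821712), (nat_lit 24469884480), (nat_lit 25455519664), (nat_lit 26575838848)], (nat_lit 0), (nat_lit 0), (nat_lit 0), (nat_lit 0), (nat_lit 0), (nat_lit 0), [], [(nat_lit 1), (nat_lit 38), (nat_lit 249), (nat_lit 40),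 (nat_lit 13)]⟩,
 ⟨⟨[(nat_lit 60), (nat_lit 100), (nat_lit 120)], [(nat_lit 0), (nat_lit 609), (nat_lit 1609)], [((nat_lit 0), (nat_lit 0), (nat_lit 0)), ((nat_lit 1000), (nat_lit 905), (nat_lit 238)), ((nat_lit 1000), (nat_lit 882), (nat_lit 668))], ((nat_lit 88), (nat_lit 100), (nat_lit 63))⟩, (nat_lit 182881), (nat_lit 827), (nat_lit 827), (nat_lit 0), (nat_lit 1556629), [(nat_lit 347892000), (nat_lit 662500000), (nat_lit 844608000)], [], [(nat_lit 3486197540), (nat_lit 3524513801), (nat_lit 3562822708), (nat_lit 3594424865), (nat_lit 3394043347), (nat_lit 3410200978), (nat_lit 3408483526), (nat_lit 3422487683)], (nat_lit 1271251), (nat_lit 1271251), (nat_lit 1271251), (nat_lit 1271251), (nat_lit 0), (nat_lit 2613125), [(nat_lit 780000), (nat_lit 1435001), (nat_lit 1271251)], [(nat_lit 10), (nat_lit 54), (nat_lit 401), (nat_lit 175), (nat_lit 13)]⟩,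
 Rw.none⟩)))))))
noncomputable def c14_6 : Tr Lf :=
 (.spl (nat_lit 2) (nat_lit 160) (.trX (nat_lit 4) (nat_lit 0) (nat_lit 2) (nat_lit 44) (nat_lit 99) (nat_lit 100) (nat_lit 250) (.trX (nat_lit 5) (nat_lit 1) (nat_lit 2) (nat_lit 100) (nat_lit 40) (nat_lit 100) (nat_lit 390) (.leaf ⟨(nat_lit 1000), (nat_lit 0), (nat_lit 0), (nat_lit 0), (nat_lit 0), (nat_lit 3236), (nat_lit 0), (nat_lit 0), (nat_lit 0), (nat_lit 0), (nat_lit 250000), [((nat_lit 400), [((nat_lit 28), (nat_lit 0), (nat_lit 1000))])], ⟨(nat_lit 6), false, false, false, (nat_lit 236), (nat_lit 0), (nat_lit 2237), [(nat_lit 1470123), (nat_lit 1483344), (nat_lit 1513819), (nat_lit 1531491), (nat_lit 1659577), (nat_lit 1649997), (nat_lit 1705063), (nat_lit 1699935)]⟩, ⟨(nat_lit 4), false, false, true, (nat_lit 174), (nat_lit 0), (nat_lit 2237), [(nat_lit 1351885), (nat_lit 1349998), (nat_lit 1397434), (nat_lit 1399999), (nat_lit 1480164), (nat_lit 1462492), (nat_lit 1525715), (nat_lit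 1512494)]⟩, (nat_lit 4936916), (nat_lit 41507239), (nat_lit 15765072), (nat_lit 9727689), (nat_lit 0), (nat_lit 0), [], [⟨(nat_lit 1), (nat_lit 99), (nat_lit 44), (nat_lit 100), (nat_lit 266423322)⟩], [], [],
 ⟨⟨[(nat_lit 40), (nat_lit 60)], [(nat_lit 0), (nat_lit 1539)], [((nat_lit 0), (nat_lit 0), (nat_lit 0)), ((nat_lit 1000), (nat_lit 478), (nat_lit 704))], ((nat_lit 48), (nat_lit 100), (nat_lit 69))⟩, (nat_lit 0), (nat_lit 61), (nat_lit 61), (nat_lit 0), (nat_lit 0), [(nat_lit 1563200104), (nat_lit 1046000000)], [(nat_lit 0), (nat_lit 0)], [(nat_lit 21375894840), (nat_lit 22843291930), (nat_lit 25164816792), (nat_lit 26413146032), (nat_lit 23938604232), (nat_lit 25226706631), (nat_lit 27139339695), (nat_lit 28256042803)], (nat_lit 0), (nat_lit 0), (nat_lit 0), (nat_lit 0), (nat_lit 0), (nat_lit 0), [], [(nat_lit 1), (nat_lit 38), (nat_lit 203), (nat_lit 0), (nat_lit 9)]⟩,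
 Rw.none,
 Rw.none⟩))) (.spl (nat_lit 3) (nat_lit 200) (.leaf ⟨(nat_lit 1000), (nat_lit 0), (nat_lit 0), (nat_lit 0), (nat_lit 0), (nat_lit 3276), (nat_lit 0), (nat_lit 0), (nat_lit 0), (nat_lit 0), (nat_lit 250000), [((nat_lit 400), [((nat_lit 28), (nat_lit 0), (nat_lit 1000))])], ⟨(nat_lit 6), false, false, false, (nat_lit 214), (nat_lit 0), (nat_lit 2237), [(nat_lit 1470123), (nat_lit 1483344), (nat_lit 1513819), (nat_lit 1531491), (nat_lit 1543695), (nat_lit 1548146), (nat_lit 1587391), (nat_lit 1596294)]⟩, ⟨(nat_lit 4), false, false, true, (nat_lit 194), (nat_lit 0), (nat_lit 2237), [(nat_lit 1397434), (nat_lit 1399999), (nat_lit 1419294), (nat_lit 1424084), (nat_lit 1554222), (nat_lit 1537494), (nat_lit 1576997), (nat_lit 1562495)]⟩, (nat_lit 4959559), (nat_lit 41885840), (nat_lit 13542795), (nat_lit 11571365), (nat_lit 0), (nat_lit 0), [], [⟨(nat_lit 1), (nat_lit 94), (nat_lit 44), (nat_lit 100), (nat_lit 283409890)⟩], [], [],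
 ⟨⟨[(nat_lit 40), (nat_lit 60)], [(nat_lit 0), (nat_lit 1539)], [((nat_lit 0), (nat_lit 0), (nat_lit 0)), ((nat_lit 1000), (nat_lit 478), (nat_lit 704))], ((nat_lit 48), (nat_lit 100), (nat_lit 69))⟩, (nat_lit 0), (nat_lit 62), (nat_lit 62), (nat_lit 0), (nat_lit 0), [(nat_lit 1563200014), (nat_lit 1046000000)], [(nat_lit 0), (nat_lit 0)], [(nat_lit 21341928390), (nat_lit 22869274972), (nat_lit 22524463980), (nat_lit 23916359424), (nat_lit 24696597415), (nat_lit 26051178205), (nat_lit 25607509969), (nat_lit 26860255615)], (nat_lit 0), (nat_lit 0), (nat_lit 0), (nat_lit 0), (nat_lit 0), (nat_lit 0), [], [(nat_lit 1), (nat_lit 38), (nat_lit 203), (nat_lit 0), (nat_lit 9)]⟩,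
 Rw.none,
 Rw.none⟩) (.spl (nat_lit 5) (nat_lit 120) (.leaf ⟨(nat_lit 932), (nat_lit 40), (nat_lit 0), (nat_lit 28), (nat_lit 0), (nat_lit 3227), (nat_lit 734), (nat_lit 340), (nat_lit 0), (nat_lit 0), (nat_lit 233000), [((nat_lit 400), [((nat_lit 28), (nat_lit 0), (nat_lit 932))])], ⟨(nat_lit 6), false, true, false, (nat_lit 250), (nat_lit 0), (nat_lit 2237), [(nat_lit 1543695), (nat_lit 1548146), (nat_lit 1587391), (nat_lit 1596294), (nat_lit 1659577), (nat_lit 1649997), (nat_lit 1705063), (nat_lit 1699935)]⟩, ⟨(nat_lit 4), false, false, true, (nat_lit 194), (nat_lit 0), (nat_lit 2237), [(nat_lit 1397434), (nat_lit 1399999), (nat_lit 1419294), (nat_lit 1424084), (nat_lit 1554222), (nat_lit 1537494), (nat_lit 1576997), (nat_lit 1562495)]⟩, (nat_lit 5162381), (nat_lit 39246927), (nat_lit 16660366), (nat_lit 11092707), (nat_lit 4), (nat_lit 0), [], [⟨(nat_lit 1), (nat_lit 100), (nat_lit 32), (nat_lit 100), (nat_lit 240743316)⟩], [], [⟨(nat_lit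 0), (nat_lit 100), (nat_lit 98), (nat_lit 74), (nat_lit 24898475)⟩],
 ⟨⟨[(nat_lit 40), (nat_lit 60)], [(nat_lit 0), (nat_lit 1539)], [((nat_lit 0), (nat_lit 0), (nat_lit 0)), ((nat_lit 1000), (nat_lit 478), (nat_lit 704))], ((nat_lit 48), (nat_lit 100), (nat_lit 69))⟩, (nat_lit 0), (nat_lit 61), (nat_lit 61), (nat_lit 0), (nat_lit 0), [(nat_lit 1579166402), (nat_lit 1198048000)], [(nat_lit 0), (nat_lit 0)], [(nat_lit 22598817183), (nat_lit 23952239342), (nat_lit 25203181067), (nat_lit 26402906624), (nat_lit 25677273330), (nat_lit 26808535074), (nat_lit 27796067311), (nat_lit 28866669797)], (nat_lit 0), (nat_lit 0), (nat_lit 0), (nat_lit 0), (nat_lit 0), (nat_lit 0), [], [(nat_lit 1), (nat_lit 38), (nat_lit 203), (nat_lit 0), (nat_lit 9)]⟩,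
 ⟨⟨[(nat_lit 80), (nat_lit 120), (nat_lit 160)], [(nat_lit 0), (nat_lit 0), (nat_lit 2132)], [((nat_lit 0), (nat_lit 0), (nat_lit 0)), ((nat_lit 0), (nat_lit 0), (nat_lit 0)), ((nat_lit 858), (nat_lit 1000), (nat_lit 713))], ((nat_lit 100), (nat_lit 91), (nat_lit 64))⟩, (nat_lit 287202), (nat_lit 924), (nat_lit 924), (nat_lit 0), (nat_lit 1444087), [(nat_lit 318784000), (nat_lit 541824000), (nat_lit 807296000)], [], [(nat_lit 2122006668), (nat_lit 2144257470), (nat_lit 2129125468), (nat_lit 2182670394), (nat_lit 2254451384), (nat_lit 1741597513), (nat_lit 1709896642), (nat_lit 1736080436)], (nat_lit 1271251), (nat_lit 1271251), (nat_lit 1271251), (nat_lit 1271251), (nat_lit 0), (nat_lit 780000), [(nat_lit 1100000), (nat_lit 1785001), (nat_lit 1271251)], [(nat_lit 18), (nat_lit 59), (nat_lit 401), (nat_lit 175), (nat_lit 10)]⟩,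
 ⟨⟨[(nat_lit 120), (nat_lit 160), (nat_lit 180)], [(nat_lit 0), (nat_lit 0), (nat_lit 1613)], [((nat_lit 0), (nat_lit 0), (nat_lit 0)), ((nat_lit 0), (nat_lit 0), (nat_lit 0)), ((nat_lit 620), (nat_lit 1000), (nat_lit 670))], ((nat_lit 100), (nat_lit 65), (nat_lit 64))⟩, (nat_lit 12186), (nat_lit 300), (nat_lit 1867), (nat_lit 2077600), (nat_lit 3177301), [(nat_lit 223104000), (nat_lit 332416000), (nat_lit 393624000)], [], [(nat_lit 1642335216), (nat_lit 1626788676), (nat_lit 1571873136), (nat_lit 1554706564), (nat_lit 1394205568), (nat_lit 1378916202), (nat_lit 1572548621), (nat_lit 1664895607)], (nat_lit 1100000), (nat_lit 1271251), (nat_lit 1100000), (nat_lit 2041876), (nat_lit 0), (nat_lit 780000), [(nat_lit 1695001), (nat_lit 1271251), (nat_lit 1271251)], [(nat_lit 28), (nat_lit 65), (nat_lit 538), (nat_lit 150), (nat_lit 13)]⟩⟩) (.leaf ⟨(nat_lit 946), (nat_lit 21), (nat_lit 0), (nat_lit 33), (nat_lit 0), (nat_lit 3224), (nat_lit 551),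 (nat_lit 343), (nat_lit 0), (nat_lit 0), (nat_lit 236500), [((nat_lit 400), [((nat_lit 28), (nat_lit 0), (nat_lit 946))])], ⟨(nat_lit 6), false, true, false, (nat_lit 250), (nat_lit 0), (nat_lit 2237), [(nat_lit 1543695), (nat_lit 1548146), (nat_lit 1587391), (nat_lit 1596294), (nat_lit 1659577), (nat_lit 1649997), (nat_lit 1705063), (nat_lit 1699935)]⟩, ⟨(nat_lit 4), false, false, true, (nat_lit 194), (nat_lit 0), (nat_lit 2237), [(nat_lit 1397434), (nat_lit 1399999), (nat_lit 1419294), (nat_lit 1424084), (nat_lit 1554222), (nat_lit 1537494), (nat_lit 1576997), (nat_lit 1562495)]⟩, (nat_lit 5162381), (nat_lit 39246927), (nat_lit 16660366), (nat_lit 11092707), (nat_lit 4), (nat_lit 0), [], [⟨(nat_lit 1), (nat_lit 100), (nat_lit 32), (nat_lit 100), (nat_lit 282377543)⟩], [], [],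
 ⟨⟨[(nat_lit 40), (nat_lit 60)], [(nat_lit 0), (nat_lit 1539)], [((nat_lit 0), (nat_lit 0), (nat_lit 0)), ((nat_lit 1000), (nat_lit 478), (nat_lit 704))], ((nat_lit 48), (nat_lit 100), (nat_lit 69))⟩, (nat_lit 0), (nat_lit 61), (nat_lit 61), (nat_lit 0), (nat_lit 0), [(nat_lit 1575879222), (nat_lit 1166744000)], [(nat_lit 0), (nat_lit 0)], [(nat_lit 22594839992), (nat_lit 23947657900), (nat_lit 25198750600), (nat_lit 26399493488), (nat_lit 25673015128), (nat_lit 26805368510), (nat_lit 27791648364), (nat_lit 28863452686)], (nat_lit 0), (nat_lit 0), (nat_lit 0), (nat_lit 0), (nat_lit 0), (nat_lit 0), [], [(nat_lit 1), (nat_lit 38), (nat_lit 203), (nat_lit 0), (nat_lit 9)]⟩,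
 ⟨⟨[(nat_lit 80), (nat_lit 120), (nat_lit 160)], [(nat_lit 0), (nat_lit 0), (nat_lit 2132)], [((nat_lit 0), (nat_lit 0), (nat_lit 0)), ((nat_lit 0), (nat_lit 0), (nat_lit 0)), ((nat_lit 858), (nat_lit 1000), (nat_lit 713))], ((nat_lit 100), (nat_lit 91), (nat_lit 64))⟩, (nat_lit 71897), (nat_lit 1025), (nat_lit 1025), (nat_lit 0), (nat_lit 1823834), [(nat_lit 253152000), (nat_lit 430272000), (nat_lit 641088000)], [], [(nat_lit 1654588275), (nat_lit 1646748347), (nat_lit 1615189898), (nat_lit 1628838157), (nat_lit 2956171130), (nat_lit 2472761198), (nat_lit 1989351266), (nat_lit 1985854469)], (nat_lit 1271251), (nat_lit 1271251), (nat_lit 1271251), (nat_lit 1271251), (nat_lit 780000), (nat_lit 3072501), [(nat_lit 1100000), (nat_lit 1785001), (nat_lit 1271251)], [(nat_lit 18), (nat_lit 59), (nat_lit 483), (nat_lit 250), (nat_lit 12)]⟩,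
 ⟨⟨[(nat_lit 120), (nat_lit 160), (nat_lit 180)], [(nat_lit 0), (nat_lit 0), (nat_lit 1613)], [((nat_lit 0), (nat_lit 0), (nat_lit 0)), ((nat_lit 0), (nat_lit 0), (nat_lit 0)), ((nat_lit 620), (nat_lit 1000), (nat_lit 670))], ((nat_lit 100), (nat_lit 65), (nat_lit 64))⟩, (nat_lit 14362), (nat_lit 300), (nat_lit 1793), (nat_lit 2448601), (nat_lit 3177301), [(nat_lit 262944000), (nat_lit 391776000), (nat_lit 463914000)], [], [(nat_lit 2105786811), (nat_lit 2085335739), (nat_lit 1998606316), (nat_lit 1978108345), (nat_lit 1851422214), (nat_lit 1830744305), (nat_lit 2101103665), (nat_lit 2199700104)], (nat_lit 1100000), (nat_lit 1271251), (nat_lit 1100000), (nat_lit 2041876), (nat_lit 780000), (nat_lit 3072501), [(nat_lit 1695001), (nat_lit 1271251), (nat_lit 1271251)], [(nat_lit 28), (nat_lit 65), (nat_lit 555), (nat_lit 225), (nat_lit 13)]⟩⟩))))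
noncomputable def c14_7 : Tr Lf :=
 (.trZ (nat_lit 0) (nat_lit 1) (nat_lit 3) (nat_lit 92) (nat_lit 44) (nat_lit 100) (nat_lit 190) (.trX (nat_lit 5) (nat_lit 1) (nat_lit 2) (nat_lit 92) (nat_lit 49) (nat_lit 100) (nat_lit 380) (.spl (nat_lit 2) (nat_lit 160) (.trX (nat_lit 4) (nat_lit 0) (nat_lit 2) (nat_lit 44) (nat_lit 99) (nat_lit 100) (nat_lit 250) (.trX (nat_lit 5) (nat_lit 1) (nat_lit 2) (nat_lit 94) (nat_lit 59) (nat_lit 100) (nat_lit 370) (.spl (nat_lit 1) (nat_lit 300) (.leaf ⟨(nat_lit 1000), (nat_lit 0), (nat_lit 0), (nat_lit 0), (nat_lit 0), (nat_lit 3236), (nat_lit 0), (nat_lit 0), (nat_lit 0), (nat_lit 0), (nat_lit 250000), [((nat_lit 400), [((nat_lit 28), (nat_lit 0), (nat_lit 1000))])], ⟨(nat_lit 7), false, true, false, (nat_lit 261), (nat_lit 0), (nat_lit 2237), [(nat_lit 1572676), (nat_lit 1583333), (nat_lit 1594524), (nat_lit 1607407), (nat_lit 1705063), (nat_lit 1699935), (nat_lit 1726954), (nat_lit 1724051)]⟩, ⟨(nat_lit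 4), false, false, true, (nat_lit 174), (nat_lit 0), (nat_lit 2237), [(nat_lit 1351885), (nat_lit 1349998), (nat_lit 1397434), (nat_lit 1399999), (nat_lit 1480164), (nat_lit 1462492), (nat_lit 1525715), (nat_lit 1512494)]⟩, (nat_lit 5059994), (nat_lit 39561371), (nat_lit 18007068), (nat_lit 9431561), (nat_lit 0), (nat_lit 0), [], [⟨(nat_lit 1), (nat_lit 99), (nat_lit 44), (nat_lit 100), (nat_lit 272668116)⟩], [], [],
 ⟨⟨[(nat_lit 40), (nat_lit 60)], [(nat_lit 0), (nat_lit 1539)], [((nat_lit 0), (nat_lit 0), (nat_lit 0)), ((nat_lit 1000), (nat_lit 478), (nat_lit 704))], ((nat_lit 48), (nat_lit 100), (nat_lit 69))⟩, (nat_lit 0), (nat_lit 61), (nat_lit 61), (nat_lit 0), (nat_lit 0), [(nat_lit 1563200026), (nat_lit 1046000000)], [(nat_lit 0), (nat_lit 0)], [(nat_lit 22290067583), (nat_lit 23668359306), (nat_lit 25164816636), (nat_lit 26413146032), (nat_lit 24694538363), (nat_lit 25885883570), (nat_lit 27139339539), (nat_lit 28256042803)], (nat_lit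 0), (nat_lit 0), (nat_lit 0), (nat_lit 0), (nat_lit 0), (nat_lit 0), [], [(nat_lit 1), (nat_lit 38), (nat_lit 203), (nat_lit 0), (nat_lit 9)]⟩,
 Rw.none,
 Rw.none⟩) (.trZ (nat_lit 0) (nat_lit 1) (nat_lit 3) (nat_lit 87) (nat_lit 44) (nat_lit 100) (nat_lit 210) (.trX (nat_lit 5) (nat_lit 1) (nat_lit 2) (nat_lit 88) (nat_lit 68) (nat_lit 100) (nat_lit 350) (.stt (nat_lit 3) (.leaf ⟨(nat_lit 706), (nat_lit 224), (nat_lit 0), (nat_lit 70), (nat_lit 0), (nat_lit 3133), (nat_lit 1920), (nat_lit 969), (nat_lit 0), (nat_lit 0), (nat_lit 282400), [((nat_lit 400), [((nat_lit 28), (nat_lit 1), (nat_lit 706))])], ⟨(nat_lit 7), false, true, false, (nat_lit 275), (nat_lit 0), (nat_lit 2237), [(nat_lit 1623954), (nat_lit 1633328), (nat_lit 1645800), (nat_lit 1657401), (nat_lit 1726954), (nat_lit 1724051), (nat_lit 1748802), (nat_lit 1748125)]⟩, ⟨(nat_lit 4), true, false, true, (nat_lit 174), (nat_lit 0), (nat_lit 2237), [(nat_lit 1351885), (nat_lit 1349998),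 (nat_lit 1397434), (nat_lit 1399999), (nat_lit 1480164), (nat_lit 1462492), (nat_lit 1525715), (nat_lit 1512494)]⟩, (nat_lit 5115599), (nat_lit 38432876), (nat_lit 19319175), (nat_lit 9247949), (nat_lit 4), (nat_lit 0), [⟨(nat_lit 0), (nat_lit 87), (nat_lit 32), (nat_lit 100), (nat_lit 8865130)⟩], [⟨(nat_lit 1), (nat_lit 100), (nat_lit 31), (nat_lit 95), (nat_lit 425690879)⟩], [⟨(nat_lit 0), (nat_lit 100), (nat_lit 82), (nat_lit 44), (nat_lit 255960)⟩], [],
 ⟨⟨[(nat_lit 40), (nat_lit 60)], [(nat_lit 0), (nat_lit 1539)], [((nat_lit 0), (nat_lit 0), (nat_lit 0)), ((nat_lit 1000), (nat_lit 478), (nat_lit 704))], ((nat_lit 48), (nat_lit 100), (nat_lit 69))⟩, (nat_lit 0), (nat_lit 61), (nat_lit 61), (nat_lit 0), (nat_lit 0), [(nat_lit 1513623213), (nat_lit 1194216800)], [(nat_lit 0), (nat_lit 0)], [(nat_lit 22817651965), (nat_lit 24129600506), (nat_lit 25139270003), (nat_lit 26295961696), (nat_lit 25132425444), (nat_lit 26260767841), (nat_lit 27117914831),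 (nat_lit 28148807778)], (nat_lit 0), (nat_lit 0), (nat_lit 0), (nat_lit 0), (nat_lit 0), (nat_lit 0), [], [(nat_lit 1), (nat_lit 38), (nat_lit 203), (nat_lit 0), (nat_lit 9)]⟩,
 ⟨⟨[(nat_lit 60), (nat_lit 100), (nat_lit 120)], [(nat_lit 0), (nat_lit 609), (nat_lit 1609)], [((nat_lit 0), (nat_lit 0), (nat_lit 0)), ((nat_lit 1000), (nat_lit 905), (nat_lit 238)), ((nat_lit 1000), (nat_lit 882), (nat_lit 668))], ((nat_lit 88), (nat_lit 100), (nat_lit 63))⟩, (nat_lit 1622701), (nat_lit 825), (nat_lit 825), (nat_lit 0), (nat_lit 1553739), [(nat_lit 964908000), (nat_lit 1837500000), (nat_lit 2342592000)], [], [(nat_lit 7785880925), (nat_lit 7944830193), (nat_lit 8190444852), (nat_lit 8346465960), (nat_lit 8127056349), (nat_lit 8450292224), (nat_lit 8811334855), (nat_lit 9079107887)], (nat_lit 1271251), (nat_lit 1271251), (nat_lit 1271251), (nat_lit 1271251), (nat_lit 0), (nat_lit 2471876), [(nat_lit 780000), (nat_lit 1435001), (nat_lit 1271251)], [(nat_lit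 10), (nat_lit 54), (nat_lit 401), (nat_lit 175), (nat_lit 13)]⟩,
 ⟨⟨[(nat_lit 140), (nat_lit 180), (nat_lit 200)], [(nat_lit 0), (nat_lit 0), (nat_lit 2835)], [((nat_lit 0), (nat_lit 0), (nat_lit 0)), ((nat_lit 0), (nat_lit 0), (nat_lit 0)), ((nat_lit 363), (nat_lit 1000), (nat_lit 798))], ((nat_lit 0), (nat_lit 0), (nat_lit 0))⟩, (nat_lit 19259), (nat_lit 300), (nat_lit 462), (nat_lit 5467004), (nat_lit 0), [(nat_lit 688940000), (nat_lit 984060000), (nat_lit 1148000000)], [], [(nat_lit 4636211158), (nat_lit 4491245968), (nat_lit 4549343504), (nat_lit 4401093825), (nat_lit 3649503871), (nat_lit 3496975336), (nat_lit 3477452633), (nat_lit 3320339974)], (nat_lit 0), (nat_lit 0), (nat_lit 0), (nat_lit 0), (nat_lit 0), (nat_lit 0), [], [(nat_lit 32), (nat_lit 67), (nat_lit 428), (nat_lit 200), (nat_lit 9)]⟩⟩) (.leaf ⟨(nat_lit 793), (nat_lit 207), (nat_lit 0), (nat_lit 0), (nat_lit 0), (nat_lit 3295), (nat_lit 1324), (nat_lit 0), (nat_lit 0), (nat_lit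 0), (nat_lit 198250), [((nat_lit 400), [((nat_lit 28), (nat_lit 0), (nat_lit 793))])], ⟨(nat_lit 7), false, true, false, (nat_lit 275), (nat_lit 0), (nat_lit 2237), [(nat_lit 1623954), (nat_lit 1633328), (nat_lit 1645800), (nat_lit 1657401), (nat_lit 1726954), (nat_lit 1724051), (nat_lit 1748802), (nat_lit 1748125)]⟩, ⟨(nat_lit 4), false, false, true, (nat_lit 174), (nat_lit 0), (nat_lit 2237), [(nat_lit 1351885), (nat_lit 1349998), (nat_lit 1397434), (nat_lit 1399999), (nat_lit 1480164), (nat_lit 1462492), (nat_lit 1525715), (nat_lit 1512494)]⟩, (nat_lit 5115599), (nat_lit 38432876), (nat_lit 19319175), (nat_lit 9247949), (nat_lit 4), (nat_lit 0), [], [⟨(nat_lit 1), (nat_lit 99), (nat_lit 44), (nat_lit 100), (nat_lit 361125577)⟩], [⟨(nat_lit 1), (nat_lit 81), (nat_lit 88), (nat_lit 100), (nat_lit 40392454)⟩], [],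
 ⟨⟨[(nat_lit 40), (nat_lit 60)], [(nat_lit 0), (nat_lit 1539)], [((nat_lit 0), (nat_lit 0), (nat_lit 0)), ((nat_lit 1000), (nat_lit 478), (nat_lit 704))], ((nat_lit 48), (nat_lit 100), (nat_lit 69))⟩, (nat_lit 0), (nat_lit 61), (nat_lit 61), (nat_lit 0), (nat_lit 0), [(nat_lit 1611803601), (nat_lit 1508852000)], [(nat_lit 0), (nat_lit 0)], [(nat_lit 22935187455), (nat_lit 24218289845), (nat_lit 25219860557), (nat_lit 26480271040), (nat_lit 25193919833), (nat_lit 26362803175), (nat_lit 27192022357), (nat_lit 28317468692)], (nat_lit 0), (nat_lit 0), (nat_lit 0), (nat_lit 0), (nat_lit 0), (nat_lit 0), [], [(nat_lit 1), (nat_lit 38), (nat_lit 203), (nat_lit 0), (nat_lit 9)]⟩,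
 ⟨⟨[(nat_lit 60), (nat_lit 100), (nat_lit 120)], [(nat_lit 0), (nat_lit 609), (nat_lit 1609)], [((nat_lit 0), (nat_lit 0), (nat_lit 0)), ((nat_lit 1000), (nat_lit 905), (nat_lit 238)), ((nat_lit 1000), (nat_lit 882), (nat_lit 668))], ((nat_lit 88), (nat_lit 100), (nat_lit 63))⟩, (nat_lit 551049), (nat_lit 722), (nat_lit 722), (nat_lit 0), (nat_lit 1308604), [(nat_lit 679374000), (nat_lit 1293750000), (nat_lit 1649376000)], [], [(nat_lit 6227423033), (nat_lit 6337480297), (nat_lit 6471972118), (nat_lit 6564527081), (nat_lit 6241481783), (nat_lit 6293175284), (nat_lit 6324722700), (nat_lit 6368230205)], (nat_lit 1271251), (nat_lit 1271251), (nat_lit 1271251), (nat_lit 1271251), (nat_lit 0), (nat_lit 2471876), [(nat_lit 780000), (nat_lit 1435001), (nat_lit 1271251)], [(nat_lit 10), (nat_lit 54), (nat_lit 401), (nat_lit 175), (nat_lit 13)]⟩,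
 Rw.none⟩))))))) (.spl (nat_lit 5) (nat_lit 120) (.leaf ⟨(nat_lit 821), (nat_lit 138), (nat_lit 0), (nat_lit 41), (nat_lit 0), (nat_lit 3093), (nat_lit 1575), (nat_lit 504), (nat_lit 0), (nat_lit 0), (nat_lit 328400), [((nat_lit 400), [((nat_lit 28), (nat_lit 1), (nat_lit 821))])], ⟨(nat_lit 7), false, true, false, (nat_lit 265), (nat_lit 0), (nat_lit 2237), [(nat_lit 1572676), (nat_lit 1583333), (nat_lit 1616372), (nat_lit 1631480), (nat_lit 1705063), (nat_lit 1699935), (nat_lit 1748802), (nat_lit 1748125)]⟩, ⟨(nat_lit 4), false, false, true, (nat_lit 194), (nat_lit 0), (nat_lit 2237), [(nat_lit 1397434), (nat_lit 1399999), (nat_lit 1419294), (nat_lit 1424084), (nat_lit 1554222), (nat_lit 1537494), (nat_lit 1576997), (nat_lit 1562495)]⟩, (nat_lit 5228461), (nat_lit 38097083), (nat_lit 18036334), (nat_lit 10866583), (nat_lit 4), (nat_lit 0), [⟨(nat_lit 0), (nat_lit 88), (nat_lit 32), (nat_lit 100), (nat_lit 34280766)⟩], [⟨(nat_lit 1), (nat_lit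 100), (nat_lit 32), (nat_lit 100), (nat_lit 93381094)⟩, ⟨(nat_lit 1), (nat_lit 94), (nat_lit 44), (nat_lit 100), (nat_lit 181568615)⟩], [⟨(nat_lit 0), (nat_lit 100), (nat_lit 80), (nat_lit 52), (nat_lit 37494913)⟩], [],
 ⟨⟨[(nat_lit 40), (nat_lit 60)], [(nat_lit 0), (nat_lit 1539)], [((nat_lit 0), (nat_lit 0), (nat_lit 0)), ((nat_lit 1000), (nat_lit 478), (nat_lit 704))], ((nat_lit 48), (nat_lit 100), (nat_lit 69))⟩, (nat_lit 0), (nat_lit 61), (nat_lit 61), (nat_lit 0), (nat_lit 0), [(nat_lit 1467301211), (nat_lit 854138800)], [(nat_lit 0), (nat_lit 0)], [(nat_lit 22222737725), (nat_lit 23571509887), (nat_lit 25075211239), (nat_lit 26250453216), (nat_lit 25342132965), (nat_lit 26467802842), (nat_lit 27668987362), (nat_lit 28722972184)], (nat_lit 0), (nat_lit 0), (nat_lit 0), (nat_lit 0), (nat_lit 0), (nat_lit 0), [], [(nat_lit 1), (nat_lit 38), (nat_lit 203), (nat_lit 0), (nat_lit 9)]⟩,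
 ⟨⟨[(nat_lit 60), (nat_lit 100), (nat_lit 140)], [(nat_lit 0), (nat_lit 0), (nat_lit 2047)], [((nat_lit 0), (nat_lit 0), (nat_lit 0)), ((nat_lit 0), (nat_lit 0), (nat_lit 0)), ((nat_lit 1000), (nat_lit 993), (nat_lit 781))], ((nat_lit 95), (nat_lit 100), (nat_lit 65))⟩, (nat_lit 467803), (nat_lit 751), (nat_lit 751), (nat_lit 0), (nat_lit 1212083), [(nat_lit 587478000), (nat_lit 1118750000), (nat_lit 1761718000)], [], [(nat_lit 5487281020), (nat_lit 5662114742), (nat_lit 5659359619), (nat_lit 5791452645), (nat_lit 4761234997), (nat_lit 4907697388), (nat_lit 4890337162), (nat_lit 4997256151)], (nat_lit 1271251), (nat_lit 1271251), (nat_lit 1271251), (nat_lit 1271251), (nat_lit 0), (nat_lit 780000), [(nat_lit 780000), (nat_lit 1435001), (nat_lit 1271251)], [(nat_lit 11), (nat_lit 55), (nat_lit 317), (nat_lit 100), (nat_lit 9)]⟩,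
 ⟨⟨[(nat_lit 120), (nat_lit 160), (nat_lit 180)], [(nat_lit 0), (nat_lit 0), (nat_lit 1613)], [((nat_lit 0), (nat_lit 0), (nat_lit 0)), ((nat_lit 0), (nat_lit 0), (nat_lit 0)), ((nat_lit 620), (nat_lit 1000), (nat_lit 670))], ((nat_lit 100), (nat_lit 65), (nat_lit 64))⟩, (nat_lit 17844), (nat_lit 300), (nat_lit 2081), (nat_lit 3042200), (nat_lit 3605252), [(nat_lit 326688000), (nat_lit 486752000), (nat_lit 576378000)], [], [(nat_lit 2387758296), (nat_lit 2364557804), (nat_lit 2284737736), (nat_lit 2265685638), (nat_lit 2019232610), (nat_lit 1996418425), (nat_lit 2309185806), (nat_lit 2445730101)], (nat_lit 1100000), (nat_lit 1271251), (nat_lit 1100000), (nat_lit 2041876), (nat_lit 0), (nat_lit 780000), [(nat_lit 1695001), (nat_lit 1271251), (nat_lit 1271251)], [(nat_lit 28), (nat_lit 65), (nat_lit 592), (nat_lit 150), (nat_lit 14)]⟩⟩) (.spl (nat_lit 1) (nat_lit 300) (.leaf ⟨(nat_lit 909), (nat_lit 56), (nat_lit 0), (nat_lit 35), (nat_lit 0),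 (nat_lit 3235), (nat_lit 718), (nat_lit 371), (nat_lit 0), (nat_lit 0), (nat_lit 227250), [((nat_lit 400), [((nat_lit 28), (nat_lit 0), (nat_lit 909))])], ⟨(nat_lit 7), false, true, false, (nat_lit 261), (nat_lit 0), (nat_lit 2237), [(nat_lit 1572676), (nat_lit 1583333), (nat_lit 1594524), (nat_lit 1607407), (nat_lit 1705063), (nat_lit 1699935), (nat_lit 1726954), (nat_lit 1724051)]⟩, ⟨(nat_lit 4), false, false, true, (nat_lit 194), (nat_lit 0), (nat_lit 2237), [(nat_lit 1397434), (nat_lit 1399999), (nat_lit 1419294), (nat_lit 1424084), (nat_lit 1554222), (nat_lit 1537494), (nat_lit 1576997), (nat_lit 1562495)]⟩, (nat_lit 5210647), (nat_lit 38430318), (nat_lit 17636539), (nat_lit 10933143), (nat_lit 4), (nat_lit 0), [], [⟨(nat_lit 1), (nat_lit 100), (nat_lit 32), (nat_lit 100), (nat_lit 91636519)⟩, ⟨(nat_lit 1), (nat_lit 94), (nat_lit 44), (nat_lit 100), (nat_lit 169325426)⟩], [], [],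
 ⟨⟨[(nat_lit 40), (nat_lit 60)], [(nat_lit 0), (nat_lit 1539)], [((nat_lit 0), (nat_lit 0), (nat_lit 0)), ((nat_lit 1000), (nat_lit 478), (nat_lit 704))], ((nat_lit 48), (nat_lit 100), (nat_lit 69))⟩, (nat_lit 0), (nat_lit 61), (nat_lit 61), (nat_lit 0), (nat_lit 0), [(nat_lit 1584566801), (nat_lit 1249476000)], [(nat_lit 0), (nat_lit 0)], [(nat_lit 22333671537), (nat_lit 23711756830), (nat_lit 25208264817), (nat_lit 26412008320), (nat_lit 25467896360), (nat_lit 26619512900), (nat_lit 27801930832), (nat_lit 28875248759)], (nat_lit 0), (nat_lit 0), (nat_lit 0), (nat_lit 0), (nat_lit 0), (nat_lit 0), [], [(nat_lit 1), (nat_lit 38), (nat_lit 203), (nat_lit 0), (nat_lit 9)]⟩,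
 ⟨⟨[(nat_lit 60), (nat_lit 100), (nat_lit 140)], [(nat_lit 0), (nat_lit 0), (nat_lit 2047)], [((nat_lit 0), (nat_lit 0), (nat_lit 0)), ((nat_lit 0), (nat_lit 0), (nat_lit 0)), ((nat_lit 1000), (nat_lit 993), (nat_lit 781))], ((nat_lit 95), (nat_lit 100), (nat_lit 65))⟩, (nat_lit 176140), (nat_lit 796), (nat_lit 796), (nat_lit 0), (nat_lit 1507511), [(nat_lit 298662000), (nat_lit 568750000), (nat_lit 895622000)], [], [(nat_lit 2911440146), (nat_lit 2940024037), (nat_lit 2955079096), (nat_lit 2975672701), (nat_lit 3047392749), (nat_lit 3060201509), (nat_lit 3034189427), (nat_lit 3043097642)], (nat_lit 1271251), (nat_lit 1271251), (nat_lit 1271251), (nat_lit 1271251), (nat_lit 780000), (nat_lit 2908751), [(nat_lit 780000), (nat_lit 1435001), (nat_lit 1271251)], [(nat_lit 11), (nat_lit 55), (nat_lit 401), (nat_lit 175), (nat_lit 11)]⟩,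
 ⟨⟨[(nat_lit 120), (nat_lit 160), (nat_lit 180)], [(nat_lit 0), (nat_lit 0), (nat_lit 1613)], [((nat_lit 0), (nat_lit 0), (nat_lit 0)), ((nat_lit 0), (nat_lit 0), (nat_lit 0)), ((nat_lit 620), (nat_lit 1000), (nat_lit 670))], ((nat_lit 100), (nat_lit 65), (nat_lit 64))⟩, (nat_lit 15232), (nat_lit 300), (nat_lit 1891), (nat_lit 2597005), (nat_lit 3373337), [(nat_lit 278880000), (nat_lit 415520000), (nat_lit 492030000)], [], [(nat_lit 2156939890), (nat_lit 2134840318), (nat_lit 2040756314), (nat_lit 2018635138), (nat_lit 1895512978), (nat_lit 1873292156), (nat_lit 2157198394), (nat_lit 2262189859)], (nat_lit 1100000), (nat_lit 1271251), (nat_lit 1100000), (nat_lit 2041876), (nat_lit 780000), (nat_lit 2908751), [(nat_lit 1695001), (nat_lit 1271251), (nat_lit 1271251)], [(nat_lit 28), (nat_lit 65), (nat_lit 577), (nat_lit 225), (nat_lit 13)]⟩⟩) (.trZ (nat_lit 0) (nat_lit 1) (nat_lit 3) (nat_lit 87) (nat_lit 44) (nat_lit 100) (nat_lit 210) (.trX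 (nat_lit 5) (nat_lit 1) (nat_lit 2) (nat_lit 87) (nat_lit 59) (nat_lit 100) (nat_lit 370) (.leaf ⟨(nat_lit 719), (nat_lit 210), (nat_lit 0), (nat_lit 71), (nat_lit 0), (nat_lit 3202), (nat_lit 1683), (nat_lit 719), (nat_lit 0), (nat_lit 0), (nat_lit 287600), [((nat_lit 400), [((nat_lit 28), (nat_lit 1), (nat_lit 719))])], ⟨(nat_lit 7), false, true, false, (nat_lit 275), (nat_lit 0), (nat_lit 2237), [(nat_lit 1623954), (nat_lit 1633328), (nat_lit 1645800), (nat_lit 1657401), (nat_lit 1726954), (nat_lit 1724051), (nat_lit 1748802), (nat_lit 1748125)]⟩, ⟨(nat_lit 4), false, false, true, (nat_lit 194), (nat_lit 0), (nat_lit 2237), [(nat_lit 1397434), (nat_lit 1399999), (nat_lit 1419294), (nat_lit 1424084), (nat_lit 1554222), (nat_lit 1537494), (nat_lit 1576997), (nat_lit 1562495)]⟩, (nat_lit 5263787), (nat_lit 37366183), (nat_lit 18916057), (nat_lit 10717760), (nat_lit 4), (nat_lit 0), [⟨(nat_lit 0), (nat_lit 87), (nat_lit 32), (nat_lit 100), (nat_lit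 20927688)⟩, ⟨(nat_lit 0), (nat_lit 87), (nat_lit 44), (nat_lit 100), (nat_lit 8460528)⟩], [⟨(nat_lit 1), (nat_lit 100), (nat_lit 32), (nat_lit 100), (nat_lit 411996732)⟩], [⟨(nat_lit 1), (nat_lit 68), (nat_lit 84), (nat_lit 100), (nat_lit 20574524)⟩], [],
 ⟨⟨[(nat_lit 40), (nat_lit 60)], [(nat_lit 0), (nat_lit 1539)], [((nat_lit 0), (nat_lit 0), (nat_lit 0)), ((nat_lit 1000), (nat_lit 478), (nat_lit 704))], ((nat_lit 48), (nat_lit 100), (nat_lit 69))⟩, (nat_lit 0), (nat_lit 61), (nat_lit 61), (nat_lit 0), (nat_lit 0), [(nat_lit 1508386833), (nat_lit 1155773200)], [(nat_lit 0), (nat_lit 0)], [(nat_lit 22747767307), (nat_lit 24090017186), (nat_lit 25080074031), (nat_lit 26374463824), (nat_lit 25769217577), (nat_lit 26980037749), (nat_lit 27771035519), (nat_lit 28839860541)], (nat_lit 0), (nat_lit 0), (nat_lit 0), (nat_lit 0), (nat_lit 0), (nat_lit 0), [], [(nat_lit 1), (nat_lit 38), (nat_lit 203), (nat_lit 0), (nat_lit 9)]⟩,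
 ⟨⟨[(nat_lit 60), (nat_lit 100), (nat_lit 120)], [(nat_lit 0), (nat_lit 609), (nat_lit 1609)], [((nat_lit 0), (nat_lit 0), (nat_lit 0)), ((nat_lit 1000), (nat_lit 905), (nat_lit 238)), ((nat_lit 1000), (nat_lit 882), (nat_lit 668))], ((nat_lit 88), (nat_lit 100), (nat_lit 63))⟩, (nat_lit 1289423), (nat_lit 685), (nat_lit 685), (nat_lit 0), (nat_lit 1416934), [(nat_lit 922242000), (nat_lit 1756250000), (nat_lit 2239008000)], [], [(nat_lit 7689220221), (nat_lit 7837483926), (nat_lit 8034172261), (nat_lit 8160326032), (nat_lit 8642663112), (nat_lit 8722724941), (nat_lit 8817908729), (nat_lit 8903289868)], (nat_lit 1271251), (nat_lit 1271251), (nat_lit 1271251), (nat_lit 1271251), (nat_lit 780000), (nat_lit 2826876), [(nat_lit 780000), (nat_lit 1435001), (nat_lit 1271251)], [(nat_lit 10), (nat_lit 54), (nat_lit 401), (nat_lit 175), (nat_lit 12)]⟩,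
 ⟨⟨[(nat_lit 120), (nat_lit 160), (nat_lit 180)], [(nat_lit 0), (nat_lit 0), (nat_lit 1613)], [((nat_lit 0), (nat_lit 0), (nat_lit 0)), ((nat_lit 0), (nat_lit 0), (nat_lit 0)), ((nat_lit 620), (nat_lit 1000), (nat_lit 670))], ((nat_lit 100), (nat_lit 65), (nat_lit 64))⟩, (nat_lit 30900), (nat_lit 300), (nat_lit 2011), (nat_lit 5268202), (nat_lit 3605252), [(nat_lit 565728000), (nat_lit 842912000), (nat_lit 998118000)], [], [(nat_lit 4921955601), (nat_lit 4879838525), (nat_lit 4699946909), (nat_lit 4657844313), (nat_lit 4436255837), (nat_lit 4394074129), (nat_lit 4213195246), (nat_lit 4414999896)], (nat_lit 1100000), (nat_lit 1271251), (nat_lit 1100000), (nat_lit 2041876), (nat_lit 780000), (nat_lit 2826876), [(nat_lit 1695001), (nat_lit 1271251), (nat_lit 1271251)], [(nat_lit 28), (nat_lit 65), (nat_lit 606), (nat_lit 225), (nat_lit 14)]⟩⟩))))))))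
noncomputable def c14_8 : Tr Lf :=
 (.spl (nat_lit 1) (nat_lit 280) (.spl (nat_lit 5) (nat_lit 200) (.spl (nat_lit 2) (nat_lit 160) (.leaf ⟨(nat_lit 752), (nat_lit 232), (nat_lit 0), (nat_lit 16), (nat_lit 0), (nat_lit 3541), (nat_lit 1589), (nat_lit 231), (nat_lit 0), (nat_lit 0), (nat_lit 300800), [((nat_lit 400), [((nat_lit 28), (nat_lit 1), (nat_lit 752))])], ⟨(nat_lit 6), false, false, false, (nat_lit 236), (nat_lit 0), (nat_lit 2237), [(nat_lit 1470123), (nat_lit 1483344), (nat_lit 1513819), (nat_lit 1531491), (nat_lit 1659577), (nat_lit 1649997), (nat_lit 1705063), (nat_lit 1699935)]⟩, ⟨(nat_lit 3), false, false, false, (nat_lit 117), (nat_lit 0), (nat_lit 2237), [(nat_lit 1177178), (nat_lit 1196337), (nat_lit 1220873), (nat_lit 1244484), (nat_lit 1351885), (nat_lit 1349998), (nat_lit 1397434), (nat_lit 1399999)]⟩, (nat_lit 4357305), (nat_lit 44972118), (nat_lit 16530612), (nat_lit 5497270), (nat_lit 3), (nat_lit 0), [], [⟨(nat_lit 0),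 (nat_lit 100), (nat_lit 33), (nat_lit 85), (nat_lit 69777308)⟩], [], [],
 ⟨⟨[(nat_lit 40), (nat_lit 60)], [(nat_lit 0), (nat_lit 1539)], [((nat_lit 0), (nat_lit 0), (nat_lit 0)), ((nat_lit 1000), (nat_lit 478), (nat_lit 704))], ((nat_lit 48), (nat_lit 100), (nat_lit 69))⟩, (nat_lit 0), (nat_lit 217), (nat_lit 217), (nat_lit 0), (nat_lit 458692), [(nat_lit 1495094401), (nat_lit 1058185600)], [(nat_lit 0), (nat_lit 0)], [(nat_lit 22287835427), (nat_lit 24270861637), (nat_lit 26551660274), (nat_lit 28086393622), (nat_lit 22385789297), (nat_lit 23642163723), (nat_lit 25782572695), (nat_lit 26792298289)], (nat_lit 1271251), (nat_lit 1271251), (nat_lit 1017188), (nat_lit 2118126), (nat_lit 230000), (nat_lit 1100000), [(nat_lit 490000), (nat_lit 780000)], [(nat_lit 1), (nat_lit 38), (nat_lit 249), (nat_lit 40), (nat_lit 13)]⟩,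
 ⟨⟨[(nat_lit 80), (nat_lit 120), (nat_lit 160)], [(nat_lit 0), (nat_lit 0), (nat_lit 2132)], [((nat_lit 0), (nat_lit 0), (nat_lit 0)), ((nat_lit 0), (nat_lit 0), (nat_lit 0)), ((nat_lit 858), (nat_lit 1000), (nat_lit 713))], ((nat_lit 100), (nat_lit 91), (nat_lit 64))⟩, (nat_lit 562615), (nat_lit 704), (nat_lit 704), (nat_lit 0), (nat_lit 907487), [(nat_lit 1162624000), (nat_lit 1976064000), (nat_lit 2944256000)], [], [(nat_lit 11324294442), (nat_lit 11518685235), (nat_lit 11561407468), (nat_lit 11697898280), (nat_lit 10539747759), (nat_lit 10681080183), (nat_lit 11506837981), (nat_lit 10765380778)], (nat_lit 1271251), (nat_lit 1271251), (nat_lit 1017188), (nat_lit 2118126), (nat_lit 0), (nat_lit 1412501), [(nat_lit 1100000), (nat_lit 1785001), (nat_lit 1271251)], [(nat_lit 18), (nat_lit 59), (nat_lit 428), (nat_lit 200), (nat_lit 11)]⟩,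
 ⟨⟨[(nat_lit 140), (nat_lit 180), (nat_lit 200)], [(nat_lit 0), (nat_lit 0), (nat_lit 2835)], [((nat_lit 0), (nat_lit 0), (nat_lit 0)), ((nat_lit 0), (nat_lit 0), (nat_lit 0)), ((nat_lit 363), (nat_lit 1000), (nat_lit 798))], ((nat_lit 0), (nat_lit 0), (nat_lit 0))⟩, (nat_lit 4402), (nat_lit 300), (nat_lit 1202), (nat_lit 1249602), (nat_lit 1378916), [(nat_lit 157472000), (nat_lit 224928000), (nat_lit 262400000)], [], [(nat_lit 1500822697), (nat_lit 1367041083), (nat_lit 1104133156), (nat_lit 1064870012), (nat_lit 1003864777), (nat_lit 965370905), (nat_lit 877657218), (nat_lit 976078928)], (nat_lit 780000), (nat_lit 1100000), (nat_lit 230000), (nat_lit 1100000), (nat_lit 0), (nat_lit 1412501), [(nat_lit 1977501), (nat_lit 1271251), (nat_lit 1271251)], [(nat_lit 32), (nat_lit 67), (nat_lit 373), (nat_lit 150), (nat_lit 9)]⟩⟩) (.trZ (nat_lit 0) (nat_lit 2) (nat_lit 4) (nat_lit 100) (nat_lit 44) (nat_lit 81) (nat_lit 70) (.leaf ⟨(nat_lit 799),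 (nat_lit 143), (nat_lit 0), (nat_lit 58), (nat_lit 0), (nat_lit 3519), (nat_lit 1649), (nat_lit 761), (nat_lit 0), (nat_lit 0), (nat_lit 319600), [((nat_lit 400), [((nat_lit 28), (nat_lit 1), (nat_lit 799))])], ⟨(nat_lit 6), false, false, false, (nat_lit 236), (nat_lit 0), (nat_lit 2237), [(nat_lit 1470123), (nat_lit 1483344), (nat_lit 1513819), (nat_lit 1531491), (nat_lit 1659577), (nat_lit 1649997), (nat_lit 1705063), (nat_lit 1699935)]⟩, ⟨(nat_lit 4), false, false, false, (nat_lit 139), (nat_lit 0), (nat_lit 2237), [(nat_lit 1265016), (nat_lit 1283365), (nat_lit 1286864), (nat_lit 1307439), (nat_lit 1397434), (nat_lit 1399999), (nat_lit 1419294), (nat_lit 1424084)]⟩, (nat_lit 4604962), (nat_lit 43660539), (nat_lit 16260531), (nat_lit 7078930), (nat_lit 4), (nat_lit 0), [], [⟨(nat_lit 0), (nat_lit 100), (nat_lit 32), (nat_lit 90), (nat_lit 136743048)⟩], [], [],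
 ⟨⟨[(nat_lit 40), (nat_lit 60)], [(nat_lit 0), (nat_lit 1539)], [((nat_lit 0), (nat_lit 0), (nat_lit 0)), ((nat_lit 1000), (nat_lit 478), (nat_lit 704))], ((nat_lit 48), (nat_lit 100), (nat_lit 69))⟩, (nat_lit 0), (nat_lit 196), (nat_lit 196), (nat_lit 0), (nat_lit 433631), [(nat_lit 1476162806), (nat_lit 919197200)], [(nat_lit 0), (nat_lit 0)], [(nat_lit 21543885894), (nat_lit 23194730916), (nat_lit 25537445965), (nat_lit 27040142577), (nat_lit 22353016797), (nat_lit 23605579863), (nat_lit 25747709411), (nat_lit 26754723186)], (nat_lit 1271251), (nat_lit 1271251), (nat_lit 1017188), (nat_lit 2118126), (nat_lit 422188), (nat_lit 1100000), [(nat_lit 490000), (nat_lit 780000)], [(nat_lit 1), (nat_lit 38), (nat_lit 249), (nat_lit 40), (nat_lit 13)]⟩,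
 ⟨⟨[(nat_lit 80), (nat_lit 120), (nat_lit 160)], [(nat_lit 0), (nat_lit 0), (nat_lit 2132)], [((nat_lit 0), (nat_lit 0), (nat_lit 0)), ((nat_lit 0), (nat_lit 0), (nat_lit 0)), ((nat_lit 858), (nat_lit 1000), (nat_lit 713))], ((nat_lit 100), (nat_lit 91), (nat_lit 64))⟩, (nat_lit 584722), (nat_lit 694), (nat_lit 694), (nat_lit 0), (nat_lit 882487), [(nat_lit 942288000), (nat_lit 1601568000), (nat_lit 2386272000)], [], [(nat_lit 8863679087), (nat_lit 7801351794), (nat_lit 7893895236), (nat_lit 8076208376), (nat_lit 6704807921), (nat_lit 6863012391), (nat_lit 9430210937), (nat_lit 7964831210)], (nat_lit 1271251), (nat_lit 1271251), (nat_lit 1017188), (nat_lit 2118126), (nat_lit 0), (nat_lit 1412501), [(nat_lit 1100000), (nat_lit 1785001), (nat_lit 1271251)], [(nat_lit 18), (nat_lit 59), (nat_lit 428), (nat_lit 200), (nat_lit 11)]⟩,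
 ⟨⟨[(nat_lit 120), (nat_lit 160), (nat_lit 180)], [(nat_lit 0), (nat_lit 0), (nat_lit 1613)], [((nat_lit 0), (nat_lit 0), (nat_lit 0)), ((nat_lit 0), (nat_lit 0), (nat_lit 0)), ((nat_lit 620), (nat_lit 1000), (nat_lit 670))], ((nat_lit 100), (nat_lit 65), (nat_lit 64))⟩, (nat_lit 25242), (nat_lit 300), (nat_lit 846), (nat_lit 4303604), (nat_lit 865658), [(nat_lit 462144000), (nat_lit 688576000), (nat_lit 815364000)], [], [(nat_lit 3661804680), (nat_lit 3566173423), (nat_lit 3244201332), (nat_lit 3220215119), (nat_lit 2790891227), (nat_lit 2755930410), (nat_lit 2845840786), (nat_lit 3045735264)], (nat_lit 1100000), (nat_lit 1271251), (nat_lit 422188), (nat_lit 1100000), (nat_lit 0), (nat_lit 1412501), [(nat_lit 1695001), (nat_lit 1271251), (nat_lit 1271251)], [(nat_lit 28), (nat_lit 65), (nat_lit 373), (nat_lit 150), (nat_lit 9)]⟩⟩))) (.leaf ⟨(nat_lit 778), (nat_lit 144), (nat_lit 0), (nat_lit 78), (nat_lit 0), (nat_lit 3370), (nat_lit 1658),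 (nat_lit 1003), (nat_lit 0), (nat_lit 0), (nat_lit 293650), [((nat_lit 400), [((nat_lit 28), (nat_lit 0), (nat_lit 117)), ((nat_lit 28), (nat_lit 1), (nat_lit 661))])], ⟨(nat_lit 6), false, false, false, (nat_lit 236), (nat_lit 0), (nat_lit 2237), [(nat_lit 1470123), (nat_lit 1483344), (nat_lit 1513819), (nat_lit 1531491), (nat_lit 1659577), (nat_lit 1649997), (nat_lit 1705063), (nat_lit 1699935)]⟩, ⟨(nat_lit 3), false, false, false, (nat_lit 122), (nat_lit 0), (nat_lit 2237), [(nat_lit 1177178), (nat_lit 1196337), (nat_lit 1242721), (nat_lit 1268557), (nat_lit 1351885), (nat_lit 1349998), (nat_lit 1419294), (nat_lit 1424084)]⟩, (nat_lit 4410558), (nat_lit 44706968), (nat_lit 16478094), (nat_lit 5814938), (nat_lit 5), (nat_lit 0), [], [⟨(nat_lit 0), (nat_lit 100), (nat_lit 32), (nat_lit 87), (nat_lit 182636068)⟩], [], [],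
 ⟨⟨[(nat_lit 40), (nat_lit 60)], [(nat_lit 0), (nat_lit 1539)], [((nat_lit 0), (nat_lit 0), (nat_lit 0)), ((nat_lit 1000), (nat_lit 478), (nat_lit 704))], ((nat_lit 48), (nat_lit 100), (nat_lit 69))⟩, (nat_lit 0), (nat_lit 218), (nat_lit 218), (nat_lit 0), (nat_lit 460350), [(nat_lit 1504277611), (nat_lit 1065678800)], [(nat_lit 0), (nat_lit 0)], [(nat_lit 22339462942), (nat_lit 23918374805), (nat_lit 26226555288), (nat_lit 27723883540), (nat_lit 22912724264), (nat_lit 24139474030), (nat_lit 26293256570), (nat_lit 27281903935)], (nat_lit 1271251), (nat_lit 1271251), (nat_lit 1017188), (nat_lit 2118126), (nat_lit 230000), (nat_lit 1100000), [(nat_lit 490000), (nat_lit 780000)], [(nat_lit 1), (nat_lit 38), (nat_lit 249), (nat_lit 40), (nat_lit 13)]⟩,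
 ⟨⟨[(nat_lit 80), (nat_lit 120), (nat_lit 160)], [(nat_lit 0), (nat_lit 0), (nat_lit 2132)], [((nat_lit 0), (nat_lit 0), (nat_lit 0)), ((nat_lit 0), (nat_lit 0), (nat_lit 0)), ((nat_lit 858), (nat_lit 1000), (nat_lit 713))], ((nat_lit 100), (nat_lit 91), (nat_lit 64))⟩, (nat_lit 423983), (nat_lit 565), (nat_lit 565), (nat_lit 0), (nat_lit 911786), [(nat_lit 1040736000), (nat_lit 1768896000), (nat_lit 2635584000)], [], [(nat_lit 7705162040), (nat_lit 7858247594), (nat_lit 8896691440), (nat_lit 7960831064), (nat_lit 8644824734), (nat_lit 8749760394), (nat_lit 8601384436), (nat_lit 8659541402)], (nat_lit 1271251), (nat_lit 1271251), (nat_lit 1017188), (nat_lit 2118126), (nat_lit 1271251), (nat_lit 1271251), [(nat_lit 1100000), (nat_lit 1785001), (nat_lit 1271251)], [(nat_lit 18), (nat_lit 59), (nat_lit 483), (nat_lit 250), (nat_lit 12)]⟩,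
 ⟨⟨[(nat_lit 140), (nat_lit 180), (nat_lit 200)], [(nat_lit 0), (nat_lit 0), (nat_lit 2835)], [((nat_lit 0), (nat_lit 0), (nat_lit 0)), ((nat_lit 0), (nat_lit 0), (nat_lit 0)), ((nat_lit 363), (nat_lit 1000), (nat_lit 798))], ((nat_lit 0), (nat_lit 0), (nat_lit 0))⟩, (nat_lit 21460), (nat_lit 300), (nat_lit 1068), (nat_lit 6091805), (nat_lit 1378916), [(nat_lit 767676000), (nat_lit 1096524000), (nat_lit 1279200000)], [], [(nat_lit 5069164121), (nat_lit 4857308826), (nat_lit 4402567550), (nat_lit 4314183862), (nat_lit 5038470630), (nat_lit 4812569192), (nat_lit 4276688068), (nat_lit 4062030697)], (nat_lit 780000), (nat_lit 1271251), (nat_lit 230000), (nat_lit 1100000), (nat_lit 1271251), (nat_lit 1271251), [(nat_lit 1977501), (nat_lit 1271251), (nat_lit 1271251)], [(nat_lit 32), (nat_lit 67), (nat_lit 428), (nat_lit 200), (nat_lit 9)]⟩⟩)) (.trZ (nat_lit 0) (nat_lit 1) (nat_lit 3) (nat_lit 92) (nat_lit 44) (nat_lit 100) (nat_lit 190) (.trX (nat_lit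 5) (nat_lit 1) (nat_lit 2) (nat_lit 92) (nat_lit 49) (nat_lit 100) (nat_lit 380) (.leaf ⟨(nat_lit 604), (nat_lit 316), (nat_lit 0), (nat_lit 80), (nat_lit 0), (nat_lit 3893), (nat_lit 2635), (nat_lit 893), (nat_lit 0), (nat_lit 0), (nat_lit 267000), [((nat_lit 400), [((nat_lit 28), (nat_lit 1), (nat_lit 477)), ((nat_lit 43), (nat_lit 2), (nat_lit 127))])], ⟨(nat_lit 7), false, true, false, (nat_lit 265), (nat_lit 0), (nat_lit 2237), [(nat_lit 1572676), (nat_lit 1583333), (nat_lit 1616372), (nat_lit 1631480), (nat_lit 1705063), (nat_lit 1699935), (nat_lit 1748802), (nat_lit 1748125)]⟩, ⟨(nat_lit 3), false, false, false, (nat_lit 122), (nat_lit 0), (nat_lit 2237), [(nat_lit 1177178), (nat_lit 1196337), (nat_lit 1242721), (nat_lit 1268557), (nat_lit 1351885), (nat_lit 1349998), (nat_lit 1419294), (nat_lit 1424084)]⟩, (nat_lit 4574982), (nat_lit 42058953), (nat_lit 19319285), (nat_lit 5621762), (nat_lit 3), (nat_lit 0), [⟨(nat_lit 0), (nat_lit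 88), (nat_lit 32), (nat_lit 100), (nat_lit 224912574)⟩], [⟨(nat_lit 0), (nat_lit 100), (nat_lit 32), (nat_lit 87), (nat_lit 54214606)⟩], [], [],
 ⟨⟨[(nat_lit 40), (nat_lit 60)], [(nat_lit 0), (nat_lit 1539)], [((nat_lit 0), (nat_lit 0), (nat_lit 0)), ((nat_lit 1000), (nat_lit 478), (nat_lit 704))], ((nat_lit 48), (nat_lit 100), (nat_lit 69))⟩, (nat_lit 0), (nat_lit 240), (nat_lit 240), (nat_lit 0), (nat_lit 518621), [(nat_lit 1554302403), (nat_lit 1374185200)], [(nat_lit 0), (nat_lit 0)], [(nat_lit 23800620607), (nat_lit 25754130217), (nat_lit 27220882234), (nat_lit 28832613206), (nat_lit 23144670489), (nat_lit 24302361515), (nat_lit 25738400442), (nat_lit 27160622816)], (nat_lit 1271251), (nat_lit 1271251), (nat_lit 1271251), (nat_lit 1271251), (nat_lit 230000), (nat_lit 1100000), [(nat_lit 490000), (nat_lit 780000)], [(nat_lit 1), (nat_lit 38), (nat_lit 249), (nat_lit 40), (nat_lit 13)]⟩,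
 ⟨⟨[(nat_lit 60), (nat_lit 100), (nat_lit 140)], [(nat_lit 0), (nat_lit 0), (nat_lit 2047)], [((nat_lit 0), (nat_lit 0), (nat_lit 0)), ((nat_lit 0), (nat_lit 0), (nat_lit 0)), ((nat_lit 1000), (nat_lit 993), (nat_lit 781))], ((nat_lit 95), (nat_lit 100), (nat_lit 65))⟩, (nat_lit 966239), (nat_lit 566), (nat_lit 566), (nat_lit 0), (nat_lit 790339), [(nat_lit 1299672000), (nat_lit 2475000000), (nat_lit 3897432000)], [], [(nat_lit 13642595632), (nat_lit 14158394812), (nat_lit 14317407724), (nat_lit 14743987309), (nat_lit 14783765870), (nat_lit 14505725346), (nat_lit 14487173503), (nat_lit 14698847793)], (nat_lit 1271251), (nat_lit 1271251), (nat_lit 1271251), (nat_lit 1271251), (nat_lit 0), (nat_lit 2683751), [(nat_lit 780000), (nat_lit 1435001), (nat_lit 1271251)], [(nat_lit 11), (nat_lit 55), (nat_lit 401), (nat_lit 175), (nat_lit 11)]⟩,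
 ⟨⟨[(nat_lit 140), (nat_lit 180), (nat_lit 200)], [(nat_lit 0), (nat_lit 0), (nat_lit 2835)], [((nat_lit 0), (nat_lit 0), (nat_lit 0)), ((nat_lit 0), (nat_lit 0), (nat_lit 0)), ((nat_lit 363), (nat_lit 1000), (nat_lit 798))], ((nat_lit 0), (nat_lit 0), (nat_lit 0))⟩, (nat_lit 22011), (nat_lit 300), (nat_lit 1273), (nat_lit 6248000), (nat_lit 1549729), [(nat_lit 787360000), (nat_lit 1124640000), (nat_lit 1312000000)], [], [(nat_lit 6638440183), (nat_lit 6422204995), (nat_lit 6045622952), (nat_lit 5838844828), (nat_lit 5392617094), (nat_lit 5231195306), (nat_lit 5486670596), (nat_lit 6215987887)], (nat_lit 780000), (nat_lit 1271251), (nat_lit 230000), (nat_lit 1100000), (nat_lit 0), (nat_lit 2683751), [(nat_lit 1977501), (nat_lit 1271251), (nat_lit 1271251)], [(nat_lit 32), (nat_lit 67), (nat_lit 428), (nat_lit 200), (nat_lit 10)]⟩⟩))))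
noncomputable def c14_9 : Tr Lf :=
 (.spl (nat_lit 1) (nat_lit 280) (.spl (nat_lit 2) (nat_lit 160) (.trX (nat_lit 4) (nat_lit 0) (nat_lit 2) (nat_lit 44) (nat_lit 99) (nat_lit 100) (nat_lit 250) (.trX (nat_lit 5) (nat_lit 1) (nat_lit 2) (nat_lit 100) (nat_lit 40) (nat_lit 100) (nat_lit 390) (.spl (nat_lit 5) (nat_lit 120) (.spl (nat_lit 0) (nat_lit 390) (.leaf ⟨(nat_lit 620), (nat_lit 278), (nat_lit 0), (nat_lit 102), (nat_lit 0), (nat_lit 3504), (nat_lit 2697), (nat_lit 1147), (nat_lit 0), (nat_lit 0), (nat_lit 248000), [((nat_lit 390), [((nat_lit 28), (nat_lit 1), (nat_lit 620))])], ⟨(nat_lit 6), false, false, false, (nat_lit 236), (nat_lit 1581), (nat_lit 2237), [(nat_lit 1474080), (nat_lit 1478137), (nat_lit 1519538), (nat_lit 1524676), (nat_lit 1659578), (nat_lit 1655900), (nat_lit 1705117), (nat_lit 1702521)]⟩, ⟨(nat_lit 4), false, false, true, (nat_lit 175), (nat_lit 1581), (nat_lit 2237), [(nat_lit 1351886), (nat_lit 1352103), (nat_lit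 1397434), (nat_lit 1398733), (nat_lit 1480171), (nat_lit 1475033), (nat_lit 1525719), (nat_lit 1521663)]⟩, (nat_lit 4948247), (nat_lit 41411921), (nat_lit 15775411), (nat_lit 9812668), (nat_lit 4), (nat_lit 0), [], [⟨(nat_lit 1), (nat_lit 100), (nat_lit 38), (nat_lit 96), (nat_lit 248255302)⟩], [], [],
 ⟨⟨[(nat_lit 40), (nat_lit 60)], [(nat_lit 0), (nat_lit 1539)], [((nat_lit 0), (nat_lit 0), (nat_lit 0)), ((nat_lit 1000), (nat_lit 478), (nat_lit 704))], ((nat_lit 48), (nat_lit 100), (nat_lit 69))⟩, (nat_lit 0), (nat_lit 160), (nat_lit 160), (nat_lit 0), (nat_lit 435490), [(nat_lit 1548264005), (nat_lit 1448536000)], [(nat_lit 0), (nat_lit 0)], [(nat_lit 22169884167), (nat_lit 22807905531), (nat_lit 25575115759), (nat_lit 26107808078), (nat_lit 24477373178), (nat_lit 25026651998), (nat_lit 27417499793), (nat_lit 27956946592)], (nat_lit 1271251), (nat_lit 1271251), (nat_lit 1017188), (nat_lit 2118126), (nat_lit 1100000), (nat_lit 1870626), [(nat_lit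 490000), (nat_lit 780000)], [(nat_lit 1), (nat_lit 38), (nat_lit 203), (nat_lit 0), (nat_lit 9)]⟩,
 ⟨⟨[(nat_lit 80), (nat_lit 120), (nat_lit 160)], [(nat_lit 0), (nat_lit 0), (nat_lit 2132)], [((nat_lit 0), (nat_lit 0), (nat_lit 0)), ((nat_lit 0), (nat_lit 0), (nat_lit 0)), ((nat_lit 858), (nat_lit 1000), (nat_lit 713))], ((nat_lit 100), (nat_lit 91), (nat_lit 64))⟩, (nat_lit 694930), (nat_lit 518), (nat_lit 518), (nat_lit 0), (nat_lit 516500), [(nat_lit 1781440000), (nat_lit 3027840000), (nat_lit 4511360000)], [], [(nat_lit 14916717080), (nat_lit 15364836705), (nat_lit 17409785212), (nat_lit 15920899401), (nat_lit 14099595476), (nat_lit 13982996997), (nat_lit 19599610465), (nat_lit 17202928158)], (nat_lit 1271251), (nat_lit 1271251), (nat_lit 1017188), (nat_lit 2118126), (nat_lit 0), (nat_lit 780000), [(nat_lit 1100000), (nat_lit 1785001), (nat_lit 1271251)], [(nat_lit 18), (nat_lit 59), (nat_lit 401), (nat_lit 175), (nat_lit 10)]⟩,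
 ⟨⟨[(nat_lit 140), (nat_lit 180), (nat_lit 200)], [(nat_lit 0), (nat_lit 0), (nat_lit 2835)], [((nat_lit 0), (nat_lit 0), (nat_lit 0)), ((nat_lit 0), (nat_lit 0), (nat_lit 0)), ((nat_lit 363), (nat_lit 1000), (nat_lit 798))], ((nat_lit 0), (nat_lit 0), (nat_lit 0))⟩, (nat_lit 28064), (nat_lit 300), (nat_lit 1070), (nat_lit 7966200), (nat_lit 1268060), [(nat_lit 1003884000), (nat_lit 1433916000), (nat_lit 1672800000)], [], [(nat_lit 7671034088), (nat_lit 7478433072), (nat_lit 7352819685), (nat_lit 7160020159), (nat_lit 6851783688), (nat_lit 6666654678), (nat_lit 6542394724), (nat_lit 6356835233)], (nat_lit 780000), (nat_lit 1100000), (nat_lit 1100000), (nat_lit 1870626), (nat_lit 0), (nat_lit 780000), [(nat_lit 1977501), (nat_lit 1271251), (nat_lit 1271251)], [(nat_lit 32), (nat_lit 67), (nat_lit 373), (nat_lit 150), (nat_lit 8)]⟩⟩) (.trZ (nat_lit 0) (nat_lit 1) (nat_lit 3) (nat_lit 99) (nat_lit 31) (nat_lit 100) (nat_lit 170) (.trX (nat_lit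 4) (nat_lit 0) (nat_lit 2) (nat_lit 31) (nat_lit 100) (nat_lit 99) (nat_lit 230) (.leaf ⟨(nat_lit 452), (nat_lit 548), (nat_lit 0), (nat_lit 0), (nat_lit 0), (nat_lit 4007), (nat_lit 3783), (nat_lit 0), (nat_lit 0), (nat_lit 0), (nat_lit 113000), [((nat_lit 400), [((nat_lit 28), (nat_lit 0), (nat_lit 452))])], ⟨(nat_lit 6), false, false, false, (nat_lit 241), (nat_lit 0), (nat_lit 1582), [(nat_lit 1503356), (nat_lit 1510203), (nat_lit 1548673), (nat_lit 1558889), (nat_lit 1655899), (nat_lit 1649997), (nat_lit 1702515), (nat_lit 1699984)]⟩, ⟨(nat_lit 4), false, false, true, (nat_lit 168), (nat_lit 0), (nat_lit 1582), [(nat_lit 1352101), (nat_lit 1349997), (nat_lit 1398733), (nat_lit 1399999), (nat_lit 1447710), (nat_lit 1437494), (nat_lit 1494343), (nat_lit 1487497)]⟩, (nat_lit 4920436), (nat_lit 41398842), (nat_lit 16375040), (nat_lit 9226118), (nat_lit 4), (nat_lit 0), [], [⟨(nat_lit 1), (nat_lit 100), (nat_lit 31), (nat_lit 99), (nat_lit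 696784448)⟩], [], [],
 ⟨⟨[(nat_lit 40), (nat_lit 60)], [(nat_lit 0), (nat_lit 2136)], [((nat_lit 0), (nat_lit 0), (nat_lit 0)), ((nat_lit 1000), (nat_lit 343), (nat_lit 808))], ((nat_lit 37), (nat_lit 100), (nat_lit 75))⟩, (nat_lit 0), (nat_lit 175), (nat_lit 175), (nat_lit 0), (nat_lit 456672), [(nat_lit 1691870409), (nat_lit 2271328000)], [(nat_lit 0), (nat_lit 0)], [(nat_lit 23230720146), (nat_lit 23925359419), (nat_lit 26568665997), (nat_lit 27290321984), (nat_lit 24829519906), (nat_lit 25621316794), (nat_lit 27916498785), (nat_lit 28555777125)], (nat_lit 1271251), (nat_lit 1271251), (nat_lit 1184688), (nat_lit 2136876), (nat_lit 1100000), (nat_lit 1699376), [(nat_lit 490000), (nat_lit 780000)], [(nat_lit 1), (nat_lit 38), (nat_lit 203), (nat_lit 0), (nat_lit 9)]⟩,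
 ⟨⟨[(nat_lit 80), (nat_lit 120), (nat_lit 160)], [(nat_lit 0), (nat_lit 0), (nat_lit 2132)], [((nat_lit 0), (nat_lit 0), (nat_lit 0)), ((nat_lit 0), (nat_lit 0), (nat_lit 0)), ((nat_lit 858), (nat_lit 1000), (nat_lit 713))], ((nat_lit 100), (nat_lit 91), (nat_lit 64))⟩, (nat_lit 1449245), (nat_lit 533), (nat_lit 533), (nat_lit 0), (nat_lit 573384), [(nat_lit 2569024000), (nat_lit 4366464000), (nat_lit 6505856000)], [], [(nat_lit 20870990552), (nat_lit 21488213686), (nat_lit 21788257944), (nat_lit 22247449065), (nat_lit 19028826554), (nat_lit 19567973464), (nat_lit 21771596548), (nat_lit 20237604048)], (nat_lit 1271251), (nat_lit 1271251), (nat_lit 1184688), (nat_lit 2136876), (nat_lit 0), (nat_lit 780000), [(nat_lit 1100000), (nat_lit 1785001), (nat_lit 1271251)], [(nat_lit 18), (nat_lit 59), (nat_lit 401), (nat_lit 175), (nat_lit 10)]⟩,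
 Rw.none⟩)))) (.leaf ⟨(nat_lit 852), (nat_lit 35), (nat_lit 0), (nat_lit 113), (nat_lit 0), (nat_lit 3392), (nat_lit 1652), (nat_lit 1124), (nat_lit 0), (nat_lit 0), (nat_lit 340800), [((nat_lit 400), [((nat_lit 28), (nat_lit 1), (nat_lit 852))])], ⟨(nat_lit 6), false, false, false, (nat_lit 236), (nat_lit 0), (nat_lit 2237), [(nat_lit 1470123), (nat_lit 1483344), (nat_lit 1513819), (nat_lit 1531491), (nat_lit 1659577), (nat_lit 1649997), (nat_lit 1705063), (nat_lit 1699935)]⟩, ⟨(nat_lit 4), false, false, true, (nat_lit 174), (nat_lit 0), (nat_lit 2237), [(nat_lit 1351885), (nat_lit 1349998), (nat_lit 1397434), (nat_lit 1399999), (nat_lit 1480164), (nat_lit 1462492), (nat_lit 1525715), (nat_lit 1512494)]⟩, (nat_lit 4936916), (nat_lit 41507239), (nat_lit 15765072), (nat_lit 9727689), (nat_lit 4), (nat_lit 0), [⟨(nat_lit 0), (nat_lit 95), (nat_lit 31), (nat_lit 100), (nat_lit 25700196)⟩], [⟨(nat_lit 1), (nat_lit 100), (nat_lit 31), (nat_lit 95),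 (nat_lit 253492169)⟩], [], [],
 ⟨⟨[(nat_lit 40), (nat_lit 60)], [(nat_lit 0), (nat_lit 1539)], [((nat_lit 0), (nat_lit 0), (nat_lit 0)), ((nat_lit 1000), (nat_lit 478), (nat_lit 704))], ((nat_lit 48), (nat_lit 100), (nat_lit 69))⟩, (nat_lit 0), (nat_lit 175), (nat_lit 175), (nat_lit 0), (nat_lit 458692), [(nat_lit 1454814404), (nat_lit 762465600)], [(nat_lit 0), (nat_lit 0)], [(nat_lit 21894776055), (nat_lit 23211664932), (nat_lit 25434037164), (nat_lit 26590629104), (nat_lit 24294497156), (nat_lit 25427180481), (nat_lit 27283555759), (nat_lit 28418457016)], (nat_lit 1271251), (nat_lit 1271251), (nat_lit 1017188), (nat_lit 2118126), (nat_lit 1100000), (nat_lit 1870626), [(nat_lit 490000), (nat_lit 780000)], [(nat_lit 1), (nat_lit 38), (nat_lit 203), (nat_lit 0), (nat_lit 9)]⟩,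
 ⟨⟨[(nat_lit 80), (nat_lit 120), (nat_lit 160)], [(nat_lit 0), (nat_lit 0), (nat_lit 2132)], [((nat_lit 0), (nat_lit 0), (nat_lit 0)), ((nat_lit 0), (nat_lit 0), (nat_lit 0)), ((nat_lit 858), (nat_lit 1000), (nat_lit 713))], ((nat_lit 100), (nat_lit 91), (nat_lit 64))⟩, (nat_lit 537863), (nat_lit 593), (nat_lit 593), (nat_lit 0), (nat_lit 907487), [(nat_lit 693824000), (nat_lit 1179264000), (nat_lit 1757056000)], [], [(nat_lit 5363171879), (nat_lit 3648312040), (nat_lit 3453247072), (nat_lit 3567928120), (nat_lit 9873506730), (nat_lit 8396330095), (nat_lit 5166468639), (nat_lit 5441005613)], (nat_lit 1271251), (nat_lit 1271251), (nat_lit 1271251), (nat_lit 1271251), (nat_lit 780000), (nat_lit 2990626), [(nat_lit 1100000), (nat_lit 1785001), (nat_lit 1271251)], [(nat_lit 18), (nat_lit 59), (nat_lit 483), (nat_lit 250), (nat_lit 12)]⟩,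
 ⟨⟨[(nat_lit 140), (nat_lit 180), (nat_lit 200)], [(nat_lit 0), (nat_lit 0), (nat_lit 2835)], [((nat_lit 0), (nat_lit 0), (nat_lit 0)), ((nat_lit 0), (nat_lit 0), (nat_lit 0)), ((nat_lit 363), (nat_lit 1000), (nat_lit 798))], ((nat_lit 0), (nat_lit 0), (nat_lit 0))⟩, (nat_lit 31090), (nat_lit 300), (nat_lit 1032), (nat_lit 8825300), (nat_lit 1378916), [(nat_lit 1112146000), (nat_lit 1588554000), (nat_lit 1853200000)], [], [(nat_lit 8385804956), (nat_lit 8210719856), (nat_lit 8094618588), (nat_lit 7919050903), (nat_lit 7653917824), (nat_lit 7474544784), (nat_lit 7339930345), (nat_lit 7161581732)], (nat_lit 780000), (nat_lit 1100000), (nat_lit 1100000), (nat_lit 1870626), (nat_lit 780000), (nat_lit 2990626), [(nat_lit 1977501), (nat_lit 1271251), (nat_lit 1271251)], [(nat_lit 32), (nat_lit 67), (nat_lit 428), (nat_lit 200), (nat_lit 9)]⟩⟩)))) (.spl (nat_lit 3) (nat_lit 200) (.leaf ⟨(nat_lit 860), (nat_lit 0), (nat_lit 0), (nat_lit 140), (nat_lit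 0), (nat_lit 3445), (nat_lit 1216), (nat_lit 1701), (nat_lit 0), (nat_lit 0), (nat_lit 344000), [((nat_lit 400), [((nat_lit 28), (nat_lit 1), (nat_lit 860))])], ⟨(nat_lit 6), false, false, false, (nat_lit 214), (nat_lit 0), (nat_lit 2237), [(nat_lit 1470123), (nat_lit 1483344), (nat_lit 1513819), (nat_lit 1531491), (nat_lit 1543695), (nat_lit 1548146), (nat_lit 1587391), (nat_lit 1596294)]⟩, ⟨(nat_lit 4), false, false, true, (nat_lit 194), (nat_lit 0), (nat_lit 2237), [(nat_lit 1397434), (nat_lit 1399999), (nat_lit 1419294), (nat_lit 1424084), (nat_lit 1554222), (nat_lit 1537494), (nat_lit 1576997), (nat_lit 1562495)]⟩, (nat_lit 4959559), (nat_lit 41885840), (nat_lit 13542795), (nat_lit 11571365), (nat_lit 0), (nat_lit 0), [⟨(nat_lit 0), (nat_lit 95), (nat_lit 31), (nat_lit 100), (nat_lit 314257034)⟩], [⟨(nat_lit 1), (nat_lit 100), (nat_lit 32), (nat_lit 100), (nat_lit 5713229)⟩], [], [],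
 ⟨⟨[(nat_lit 40), (nat_lit 60)], [(nat_lit 0), (nat_lit 1539)], [((nat_lit 0), (nat_lit 0), (nat_lit 0)), ((nat_lit 1000), (nat_lit 478), (nat_lit 704))], ((nat_lit 48), (nat_lit 100), (nat_lit 69))⟩, (nat_lit 0), (nat_lit 167), (nat_lit 167), (nat_lit 0), (nat_lit 433631), [(nat_lit 1451592012), (nat_lit 738808000)], [(nat_lit 0), (nat_lit 0)], [(nat_lit 21764630520), (nat_lit 23091585408), (nat_lit 22888042108), (nat_lit 24116203688), (nat_lit 24882050980), (nat_lit 26247667122), (nat_lit 25759234637), (nat_lit 27038638707)], (nat_lit 1271251), (nat_lit 1271251), (nat_lit 1017188), (nat_lit 1440626), (nat_lit 1100000), (nat_lit 2041876), [(nat_lit 490000), (nat_lit 780000)], [(nat_lit 1), (nat_lit 38), (nat_lit 203), (nat_lit 0), (nat_lit 9)]⟩,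
 ⟨⟨[(nat_lit 80), (nat_lit 120), (nat_lit 160)], [(nat_lit 0), (nat_lit 0), (nat_lit 2132)], [((nat_lit 0), (nat_lit 0), (nat_lit 0)), ((nat_lit 0), (nat_lit 0), (nat_lit 0)), ((nat_lit 858), (nat_lit 1000), (nat_lit 713))], ((nat_lit 100), (nat_lit 91), (nat_lit 64))⟩, (nat_lit 391248), (nat_lit 694), (nat_lit 694), (nat_lit 0), (nat_lit 882487), [(nat_lit 656320000), (nat_lit 1115520000), (nat_lit 1662080000)], [], [(nat_lit 6294731456), (nat_lit 5271637139), (nat_lit 5126855056), (nat_lit 5249327508), (nat_lit 6373133248), (nat_lit 5316342304), (nat_lit 7346361088), (nat_lit 6305637760)], (nat_lit 1271251), (nat_lit 1271251), (nat_lit 1017188), (nat_lit 1440626), (nat_lit 0), (nat_lit 2825001), [(nat_lit 1100000), (nat_lit 1785001), (nat_lit 1271251)], [(nat_lit 18), (nat_lit 59), (nat_lit 456), (nat_lit 225), (nat_lit 12)]⟩,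
 ⟨⟨[(nat_lit 120), (nat_lit 160), (nat_lit 180)], [(nat_lit 0), (nat_lit 0), (nat_lit 1613)], [((nat_lit 0), (nat_lit 0), (nat_lit 0)), ((nat_lit 0), (nat_lit 0), (nat_lit 0)), ((nat_lit 620), (nat_lit 1000), (nat_lit 670))], ((nat_lit 100), (nat_lit 65), (nat_lit 64))⟩, (nat_lit 60930), (nat_lit 300), (nat_lit 793), (nat_lit 10388000), (nat_lit 865658), [(nat_lit 1115520000), (nat_lit 1662080000), (nat_lit 1968120000)], [], [(nat_lit 8208894036), (nat_lit 8131090373), (nat_lit 7856235118), (nat_lit 7770327704), (nat_lit 9275728028), (nat_lit 9781282119), (nat_lit 12084344612), (nat_lit 12615305689)], (nat_lit 1100000), (nat_lit 1271251), (nat_lit 1100000), (nat_lit 2041876), (nat_lit 0), (nat_lit 2825001), [(nat_lit 1695001), (nat_lit 1271251), (nat_lit 1271251)], [(nat_lit 28), (nat_lit 65), (nat_lit 456), (nat_lit 225), (nat_lit 11)]⟩⟩) (.leaf ⟨(nat_lit 822), (nat_lit 47), (nat_lit 0), (nat_lit 131), (nat_lit 0), (nat_lit 3375), (nat_lit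 1666), (nat_lit 1622), (nat_lit 0), (nat_lit 0), (nat_lit 328800), [((nat_lit 400), [((nat_lit 28), (nat_lit 1), (nat_lit 822))])], ⟨(nat_lit 6), false, true, false, (nat_lit 250), (nat_lit 0), (nat_lit 2237), [(nat_lit 1543695), (nat_lit 1548146), (nat_lit 1587391), (nat_lit 1596294), (nat_lit 1659577), (nat_lit 1649997), (nat_lit 1705063), (nat_lit 1699935)]⟩, ⟨(nat_lit 4), false, false, true, (nat_lit 194), (nat_lit 0), (nat_lit 2237), [(nat_lit 1397434), (nat_lit 1399999), (nat_lit 1419294), (nat_lit 1424084), (nat_lit 1554222), (nat_lit 1537494), (nat_lit 1576997), (nat_lit 1562495)]⟩, (nat_lit 5162381), (nat_lit 39246927), (nat_lit 16660366), (nat_lit 11092707), (nat_lit 4), (nat_lit 0), [], [⟨(nat_lit 1), (nat_lit 100), (nat_lit 32), (nat_lit 100), (nat_lit 134671624)⟩], [], [],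
 ⟨⟨[(nat_lit 40), (nat_lit 60)], [(nat_lit 0), (nat_lit 1539)], [((nat_lit 0), (nat_lit 0), (nat_lit 0)), ((nat_lit 1000), (nat_lit 478), (nat_lit 704))], ((nat_lit 48), (nat_lit 100), (nat_lit 69))⟩, (nat_lit 0), (nat_lit 165), (nat_lit 165), (nat_lit 0), (nat_lit 433631), [(nat_lit 1466898401), (nat_lit 851181600)], [(nat_lit 0), (nat_lit 0)], [(nat_lit 23105101104), (nat_lit 24321394604), (nat_lit 25518070917), (nat_lit 26571288000), (nat_lit 25971074136), (nat_lit 26982134229), (nat_lit 27937784808), (nat_lit 29025380594)], (nat_lit 1271251), (nat_lit 1271251), (nat_lit 1271251), (nat_lit 1271251), (nat_lit 1100000), (nat_lit 2041876), [(nat_lit 490000), (nat_lit 780000)], [(nat_lit 1), (nat_lit 38), (nat_lit 203), (nat_lit 0), (nat_lit 9)]⟩,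
 ⟨⟨[(nat_lit 80), (nat_lit 120), (nat_lit 160)], [(nat_lit 0), (nat_lit 0), (nat_lit 2132)], [((nat_lit 0), (nat_lit 0), (nat_lit 0)), ((nat_lit 0), (nat_lit 0), (nat_lit 0)), ((nat_lit 858), (nat_lit 1000), (nat_lit 713))], ((nat_lit 100), (nat_lit 91), (nat_lit 64))⟩, (nat_lit 479303), (nat_lit 678), (nat_lit 678), (nat_lit 0), (nat_lit 882487), [(nat_lit 834464000), (nat_lit 1418304000), (nat_lit 2113216000)], [], [(nat_lit 6192611060), (nat_lit 6349053728), (nat_lit 6346204300), (nat_lit 6509681392), (nat_lit 7771480764), (nat_lit 6309845652), (nat_lit 6092146744), (nat_lit 6381097958)], (nat_lit 1271251), (nat_lit 1271251), (nat_lit 1271251), (nat_lit 1271251), (nat_lit 0), (nat_lit 2825001), [(nat_lit 1100000), (nat_lit 1785001), (nat_lit 1271251)], [(nat_lit 18), (nat_lit 59), (nat_lit 483), (nat_lit 250), (nat_lit 12)]⟩,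
 ⟨⟨[(nat_lit 120), (nat_lit 160), (nat_lit 180)], [(nat_lit 0), (nat_lit 0), (nat_lit 1613)], [((nat_lit 0), (nat_lit 0), (nat_lit 0)), ((nat_lit 0), (nat_lit 0), (nat_lit 0)), ((nat_lit 620), (nat_lit 1000), (nat_lit 670))], ((nat_lit 100), (nat_lit 65), (nat_lit 64))⟩, (nat_lit 57013), (nat_lit 300), (nat_lit 793), (nat_lit 9720201), (nat_lit 865658), [(nat_lit 1043808000), (nat_lit 1555232000), (nat_lit 1841598000)], [], [(nat_lit 7596745104), (nat_lit 7521789378), (nat_lit 7281425962), (nat_lit 7219789856), (nat_lit 8725840868), (nat_lit 9206204274), (nat_lit 11394605109), (nat_lit 11899195518)], (nat_lit 1100000), (nat_lit 1271251), (nat_lit 1100000), (nat_lit 2041876), (nat_lit 0), (nat_lit 2825001), [(nat_lit 1695001), (nat_lit 1271251), (nat_lit 1271251)], [(nat_lit 28), (nat_lit 65), (nat_lit 456), (nat_lit 225), (nat_lit 11)]⟩⟩))) (.trZ (nat_lit 0) (nat_lit 1) (nat_lit 3) (nat_lit 92) (nat_lit 44) (nat_lit 100) (nat_lit 190) (.trX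 (nat_lit 5) (nat_lit 1) (nat_lit 2) (nat_lit 92) (nat_lit 49) (nat_lit 100) (nat_lit 380) (.spl (nat_lit 0) (nat_lit 390) (.leaf ⟨(nat_lit 703), (nat_lit 174), (nat_lit 0), (nat_lit 123), (nat_lit 0), (nat_lit 3490), (nat_lit 2459), (nat_lit 1139), (nat_lit 0), (nat_lit 0), (nat_lit 281200), [((nat_lit 390), [((nat_lit 28), (nat_lit 1), (nat_lit 703))])], ⟨(nat_lit 7), false, true, false, (nat_lit 266), (nat_lit 1581), (nat_lit 2237), [(nat_lit 1576639), (nat_lit 1579397), (nat_lit 1622097), (nat_lit 1625936), (nat_lit 1705117), (nat_lit 1702521), (nat_lit 1750574), (nat_lit 1749059)]⟩, ⟨(nat_lit 4), false, false, true, (nat_lit 185), (nat_lit 1581), (nat_lit 2237), [(nat_lit 1351886), (nat_lit 1352103), (nat_lit 1420170), (nat_lit 1422009), (nat_lit 1508678), (nat_lit 1502350), (nat_lit 1577001), (nat_lit 1572296)]⟩, (nat_lit 5168763), (nat_lit 38547568), (nat_lit 18224127), (nat_lit 10228305), (nat_lit 4), (nat_lit 0), [⟨(nat_lit 0), (nat_lit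 87), (nat_lit 38), (nat_lit 100), (nat_lit 109455216)⟩, ⟨(nat_lit 0), (nat_lit 84), (nat_lit 33), (nat_lit 100), (nat_lit 9458992)⟩], [⟨(nat_lit 1), (nat_lit 100), (nat_lit 38), (nat_lit 98), (nat_lit 165618246)⟩], [], [],
 ⟨⟨[(nat_lit 40), (nat_lit 60)], [(nat_lit 0), (nat_lit 1539)], [((nat_lit 0), (nat_lit 0), (nat_lit 0)), ((nat_lit 1000), (nat_lit 478), (nat_lit 704))], ((nat_lit 48), (nat_lit 100), (nat_lit 69))⟩, (nat_lit 0), (nat_lit 185), (nat_lit 185), (nat_lit 0), (nat_lit 502722), [(nat_lit 1514831601), (nat_lit 1203088400)], [(nat_lit 0), (nat_lit 0)], [(nat_lit 22788066799), (nat_lit 23416168217), (nat_lit 25468318839), (nat_lit 26028290488), (nat_lit 25715077211), (nat_lit 26235913608), (nat_lit 28040667347), (nat_lit 28594685260)], (nat_lit 1271251), (nat_lit 1271251), (nat_lit 1271251), (nat_lit 1271251), (nat_lit 1100000), (nat_lit 2041876), [(nat_lit 490000), (nat_lit 780000)], [(nat_lit 1), (nat_lit 38), (nat_lit 203), (nat_lit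 0), (nat_lit 9)]⟩,
 ⟨⟨[(nat_lit 60), (nat_lit 100), (nat_lit 140)], [(nat_lit 0), (nat_lit 0), (nat_lit 2047)], [((nat_lit 0), (nat_lit 0), (nat_lit 0)), ((nat_lit 0), (nat_lit 0), (nat_lit 0)), ((nat_lit 1000), (nat_lit 993), (nat_lit 781))], ((nat_lit 95), (nat_lit 100), (nat_lit 65))⟩, (nat_lit 716415), (nat_lit 511), (nat_lit 511), (nat_lit 0), (nat_lit 725841), [(nat_lit 974754000), (nat_lit 1856250000), (nat_lit 2923074000)], [], [(nat_lit 8801911925), (nat_lit 9235651858), (nat_lit 9314214510), (nat_lit 9649397823), (nat_lit 10679200273), (nat_lit 9698384313), (nat_lit 9788949559), (nat_lit 10305446286)], (nat_lit 1271251), (nat_lit 1271251), (nat_lit 1271251), (nat_lit 1271251), (nat_lit 0), (nat_lit 2683751), [(nat_lit 780000), (nat_lit 1435001), (nat_lit 1271251)], [(nat_lit 11), (nat_lit 55), (nat_lit 401), (nat_lit 175), (nat_lit 11)]⟩,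
 ⟨⟨[(nat_lit 140), (nat_lit 180), (nat_lit 200)], [(nat_lit 0), (nat_lit 0), (nat_lit 2835)], [((nat_lit 0), (nat_lit 0), (nat_lit 0)), ((nat_lit 0), (nat_lit 0), (nat_lit 0)), ((nat_lit 363), (nat_lit 1000), (nat_lit 798))], ((nat_lit 0), (nat_lit 0), (nat_lit 0))⟩, (nat_lit 33841), (nat_lit 300), (nat_lit 1147), (nat_lit 9606304), (nat_lit 1453021), [(nat_lit 1210566000), (nat_lit 1729134000), (nat_lit 2017200000)], [], [(nat_lit 10541309424), (nat_lit 10293557650), (nat_lit 10191917758), (nat_lit 9942479015), (nat_lit 9058274061), (nat_lit 9056179538), (nat_lit 10092650186), (nat_lit 11114477709)], (nat_lit 780000), (nat_lit 1271251), (nat_lit 1100000), (nat_lit 2041876), (nat_lit 0), (nat_lit 2683751), [(nat_lit 1977501), (nat_lit 1271251), (nat_lit 1271251)], [(nat_lit 32), (nat_lit 67), (nat_lit 456), (nat_lit 225), (nat_lit 10)]⟩⟩) (.trZ (nat_lit 0) (nat_lit 1) (nat_lit 3) (nat_lit 92) (nat_lit 31) (nat_lit 100) (nat_lit 210) (.trX (nat_lit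 4) (nat_lit 0) (nat_lit 2) (nat_lit 31) (nat_lit 98) (nat_lit 100) (nat_lit 250) (.leaf ⟨(nat_lit 642), (nat_lit 238), (nat_lit 0), (nat_lit 120), (nat_lit 0), (nat_lit 3706), (nat_lit 2697), (nat_lit 1168), (nat_lit 0), (nat_lit 0), (nat_lit 255450), [((nat_lit 400), [((nat_lit 28), (nat_lit 0), (nat_lit 9)), ((nat_lit 28), (nat_lit 1), (nat_lit 633))])], ⟨(nat_lit 7), false, true, false, (nat_lit 271), (nat_lit 0), (nat_lit 1582), [(nat_lit 1604619), (nat_lit 1610200), (nat_lit 1649935), (nat_lit 1658886), (nat_lit 1702515), (nat_lit 1699984), (nat_lit 1747842), (nat_lit 1748680)]⟩, ⟨(nat_lit 4), false, false, true, (nat_lit 178), (nat_lit 0), (nat_lit 1582), [(nat_lit 1352101), (nat_lit 1349997), (nat_lit 1421394), (nat_lit 1424345), (nat_lit 1475027), (nat_lit 1462493), (nat_lit 1544976), (nat_lit 1537497)]⟩, (nat_lit 5135722), (nat_lit 38518676), (nat_lit 18851668), (nat_lit 9629656), (nat_lit 4), (nat_lit 0), [⟨(nat_lit 0), (nat_lit 91),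 (nat_lit 23), (nat_lit 100), (nat_lit 84762880)⟩], [⟨(nat_lit 1), (nat_lit 100), (nat_lit 22), (nat_lit 97), (nat_lit 299238457)⟩], [], [],
 ⟨⟨[(nat_lit 40), (nat_lit 60)], [(nat_lit 0), (nat_lit 2136)], [((nat_lit 0), (nat_lit 0), (nat_lit 0)), ((nat_lit 1000), (nat_lit 343), (nat_lit 808))], ((nat_lit 37), (nat_lit 100), (nat_lit 75))⟩, (nat_lit 0), (nat_lit 192), (nat_lit 192), (nat_lit 0), (nat_lit 516618), [(nat_lit 1540914422), (nat_lit 1389968400)], [(nat_lit 0), (nat_lit 0)], [(nat_lit 24056569169), (nat_lit 24641666953), (nat_lit 26254056658), (nat_lit 26947870672), (nat_lit 26089584067), (nat_lit 26770859978), (nat_lit 28152542447), (nat_lit 28745367676)], (nat_lit 1271251), (nat_lit 1271251), (nat_lit 1271251), (nat_lit 1271251), (nat_lit 1100000), (nat_lit 1870626), [(nat_lit 490000), (nat_lit 780000)], [(nat_lit 1), (nat_lit 38), (nat_lit 203), (nat_lit 0), (nat_lit 9)]⟩,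
 ⟨⟨[(nat_lit 60), (nat_lit 100), (nat_lit 140)], [(nat_lit 0), (nat_lit 0), (nat_lit 2047)], [((nat_lit 0), (nat_lit 0), (nat_lit 0)), ((nat_lit 0), (nat_lit 0), (nat_lit 0)), ((nat_lit 1000), (nat_lit 993), (nat_lit 781))], ((nat_lit 95), (nat_lit 100), (nat_lit 65))⟩, (nat_lit 904149), (nat_lit 561), (nat_lit 561), (nat_lit 0), (nat_lit 789828), [(nat_lit 1174956000), (nat_lit 2237500000), (nat_lit 3523436000)], [], [(nat_lit 11409277167), (nat_lit 11891527956), (nat_lit 11941141256), (nat_lit 12410457680), (nat_lit 11683101444), (nat_lit 11918296674), (nat_lit 11870446282), (nat_lit 12144835203)], (nat_lit 1271251), (nat_lit 1271251), (nat_lit 1271251), (nat_lit 1271251), (nat_lit 0), (nat_lit 2683751), [(nat_lit 780000), (nat_lit 1435001), (nat_lit 1271251)], [(nat_lit 11), (nat_lit 55), (nat_lit 401), (nat_lit 175), (nat_lit 11)]⟩,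
 ⟨⟨[(nat_lit 140), (nat_lit 180), (nat_lit 200)], [(nat_lit 0), (nat_lit 0), (nat_lit 2835)], [((nat_lit 0), (nat_lit 0), (nat_lit 0)), ((nat_lit 0), (nat_lit 0), (nat_lit 0)), ((nat_lit 363), (nat_lit 1000), (nat_lit 798))], ((nat_lit 0), (nat_lit 0), (nat_lit 0))⟩, (nat_lit 33016), (nat_lit 300), (nat_lit 1195), (nat_lit 9372000), (nat_lit 1549729), [(nat_lit 1181040000), (nat_lit 1686960000), (nat_lit 1968000000)], [], [(nat_lit 10092687688), (nat_lit 9832377902), (nat_lit 9769638764), (nat_lit 9508971894), (nat_lit 8530865564), (nat_lit 8956848264), (nat_lit 9629252600), (nat_lit 10655996656)], (nat_lit 780000), (nat_lit 1271251), (nat_lit 1100000), (nat_lit 1870626), (nat_lit 0), (nat_lit 2683751), [(nat_lit 1977501), (nat_lit 1271251), (nat_lit 1271251)], [(nat_lit 32), (nat_lit 67), (nat_lit 456), (nat_lit 225), (nat_lit 10)]⟩⟩)))))))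
noncomputable def c14_10 : Tr Lf :=
 (.spl (nat_lit 4) (nat_lit 120) (.trX (nat_lit 5) (nat_lit 3) (nat_lit 4) (nat_lit 100) (nat_lit 80) (nat_lit 100) (nat_lit 340) (.spl (nat_lit 4) (nat_lit 80) (.trX (nat_lit 5) (nat_lit 3) (nat_lit 4) (nat_lit 100) (nat_lit 95) (nat_lit 87) (nat_lit 300) (.leaf ⟨(nat_lit 923), (nat_lit 73), (nat_lit 0), (nat_lit 4), (nat_lit 0), (nat_lit 3244), (nat_lit 730), (nat_lit 46), (nat_lit 0), (nat_lit 0), (nat_lit 230750), [((nat_lit 400), [((nat_lit 28), (nat_lit 0), (nat_lit 923))])], ⟨(nat_lit 7), false, true, true, (nat_lit 292), (nat_lit 0), (nat_lit 2237), [(nat_lit 1659577), (nat_lit 1649997), (nat_lit 1748802), (nat_lit 1748125), (nat_lit 1716590), (nat_lit 1699995), (nat_lit 1807594), (nat_lit 1799902)]⟩, ⟨(nat_lit 3), false, false, false, (nat_lit 100), (nat_lit 0), (nat_lit 2237), [(nat_lit 1177178), (nat_lit 1196337), (nat_lit 1242721), (nat_lit 1268557), (nat_lit 1236035), (nat_lit 1248179), (nat_lit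 1301578), (nat_lit 1320399)]⟩, (nat_lit 4431354), (nat_lit 40752315), (nat_lit 22181656), (nat_lit 4066029), (nat_lit 3), (nat_lit 0), [], [⟨(nat_lit 0), (nat_lit 100), (nat_lit 48), (nat_lit 71), (nat_lit 378359387)⟩], [], [],
 ⟨⟨[(nat_lit 40), (nat_lit 60)], [(nat_lit 0), (nat_lit 1539)], [((nat_lit 0), (nat_lit 0), (nat_lit 0)), ((nat_lit 1000), (nat_lit 478), (nat_lit 704))], ((nat_lit 48), (nat_lit 100), (nat_lit 69))⟩, (nat_lit 0), (nat_lit 111), (nat_lit 111), (nat_lit 0), (nat_lit 0), [(nat_lit 1581279602), (nat_lit 1218172000)], [(nat_lit 0), (nat_lit 0)], [(nat_lit 25987004245), (nat_lit 27456770848), (nat_lit 27814073188), (nat_lit 29145186792), (nat_lit 25043350280), (nat_lit 26269927720), (nat_lit 26642455462), (nat_lit 27940638000)], (nat_lit 0), (nat_lit 0), (nat_lit 0), (nat_lit 0), (nat_lit 0), (nat_lit 0), [], [(nat_lit 1), (nat_lit 38), (nat_lit 226), (nat_lit 20), (nat_lit 11)]⟩,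
 ⟨⟨[(nat_lit 80), (nat_lit 120), (nat_lit 160)], [(nat_lit 0), (nat_lit 0), (nat_lit 2132)], [((nat_lit 0), (nat_lit 0), (nat_lit 0)), ((nat_lit 0), (nat_lit 0), (nat_lit 0)), ((nat_lit 858), (nat_lit 1000), (nat_lit 713))], ((nat_lit 100), (nat_lit 91), (nat_lit 64))⟩, (nat_lit 192435), (nat_lit 1182), (nat_lit 1182), (nat_lit 0), (nat_lit 2056638), [(nat_lit 360976000), (nat_lit 613536000), (nat_lit 914144000)], [], [(nat_lit 3124147088), (nat_lit 3073597724), (nat_lit 3101943348), (nat_lit 3048981724), (nat_lit 2514062313), (nat_lit 2440241926), (nat_lit 2479408606), (nat_lit 2464014512)], (nat_lit 1271251), (nat_lit 1271251), (nat_lit 1271251), (nat_lit 1271251), (nat_lit 0), (nat_lit 2118750), [(nat_lit 1100000), (nat_lit 1785001), (nat_lit 1271251)], [(nat_lit 18), (nat_lit 59), (nat_lit 483), (nat_lit 250), (nat_lit 12)]⟩,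
 ⟨⟨[(nat_lit 140), (nat_lit 180), (nat_lit 200)], [(nat_lit 0), (nat_lit 0), (nat_lit 2835)], [((nat_lit 0), (nat_lit 0), (nat_lit 0)), ((nat_lit 0), (nat_lit 0), (nat_lit 0)), ((nat_lit 363), (nat_lit 1000), (nat_lit 798))], ((nat_lit 0), (nat_lit 0), (nat_lit 0))⟩, (nat_lit 1101), (nat_lit 300), (nat_lit 1273), (nat_lit 312400), (nat_lit 1549828), [(nat_lit 39368000), (nat_lit 56232000), (nat_lit 65600000)], [], [(nat_lit 336382524), (nat_lit 317162836), (nat_lit 313509712), (nat_lit 302629130), (nat_lit 267290312), (nat_lit 256731056), (nat_lit 254204170), (nat_lit 244325484)], (nat_lit 780000), (nat_lit 1271251), (nat_lit 230000), (nat_lit 490000), (nat_lit 0), (nat_lit 2118750), [(nat_lit 1977501), (nat_lit 1271251), (nat_lit 1271251)], [(nat_lit 32), (nat_lit 67), (nat_lit 389), (nat_lit 150), (nat_lit 9)]⟩⟩)) (.spl (nat_lit 1) (nat_lit 280) (.leaf ⟨(nat_lit 994), (nat_lit 6), (nat_lit 0), (nat_lit 0), (nat_lit 0), (nat_lit 3061), (nat_lit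 56), (nat_lit 0), (nat_lit 0), (nat_lit 0), (nat_lit 248500), [((nat_lit 400), [((nat_lit 28), (nat_lit 0), (nat_lit 994))])], ⟨(nat_lit 7), false, true, true, (nat_lit 282), (nat_lit 0), (nat_lit 2237), [(nat_lit 1659577), (nat_lit 1649997), (nat_lit 1705063), (nat_lit 1699935), (nat_lit 1716590), (nat_lit 1699995), (nat_lit 1762141), (nat_lit 1749998)]⟩, ⟨(nat_lit 3), false, false, false, (nat_lit 122), (nat_lit 0), (nat_lit 2237), [(nat_lit 1236035), (nat_lit 1248179), (nat_lit 1301578), (nat_lit 1320399), (nat_lit 1294870), (nat_lit 1299999), (nat_lit 1360436), (nat_lit 1372242)]⟩, (nat_lit 4646021), (nat_lit 40570370), (nat_lit 20917621), (nat_lit 5512009), (nat_lit 3), (nat_lit 0), [], [], [], [⟨(nat_lit 1), (nat_lit 100), (nat_lit 100), (nat_lit 100), (nat_lit 421159)⟩],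
 ⟨⟨[(nat_lit 40), (nat_lit 60)], [(nat_lit 0), (nat_lit 1539)], [((nat_lit 0), (nat_lit 0), (nat_lit 0)), ((nat_lit 1000), (nat_lit 478), (nat_lit 704))], ((nat_lit 48), (nat_lit 100), (nat_lit 69))⟩, (nat_lit 0), (nat_lit 86), (nat_lit 86), (nat_lit 0), (nat_lit 0), [(nat_lit 1564608804), (nat_lit 1059416000)], [(nat_lit 0), (nat_lit 0)], [(nat_lit 24708426987), (nat_lit 25979116930), (nat_lit 26354503228), (nat_lit 27623041500), (nat_lit 25000560802), (nat_lit 26195511811), (nat_lit 26576126966), (nat_lit 27677630832)], (nat_lit 0), (nat_lit 0), (nat_lit 0), (nat_lit 0), (nat_lit 0), (nat_lit 0), [], [(nat_lit 1), (nat_lit 38), (nat_lit 238), (nat_lit 30), (nat_lit 11)]⟩,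
 ⟨⟨[(nat_lit 80), (nat_lit 120), (nat_lit 160)], [(nat_lit 0), (nat_lit 0), (nat_lit 2132)], [((nat_lit 0), (nat_lit 0), (nat_lit 0)), ((nat_lit 0), (nat_lit 0), (nat_lit 0)), ((nat_lit 858), (nat_lit 1000), (nat_lit 713))], ((nat_lit 100), (nat_lit 91), (nat_lit 64))⟩, (nat_lit 15107), (nat_lit 1163), (nat_lit 1163), (nat_lit 0), (nat_lit 2008202), [(nat_lit 28128000), (nat_lit 47808000), (nat_lit 71232000)], [], [(nat_lit 245577648), (nat_lit 244494886), (nat_lit 244794528), (nat_lit 243412124), (nat_lit 199212430), (nat_lit 196750270), (nat_lit 196954004), (nat_lit 194960399)], (nat_lit 1271251), (nat_lit 1271251), (nat_lit 1271251), (nat_lit 1271251), (nat_lit 0), (nat_lit 2401251), [(nat_lit 1100000), (nat_lit 1785001), (nat_lit 1271251)], [(nat_lit 18), (nat_lit 59), (nat_lit 483), (nat_lit 250), (nat_lit 12)]⟩,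
 Rw.none⟩) (.leaf ⟨(nat_lit 926), (nat_lit 60), (nat_lit 0), (nat_lit 14), (nat_lit 0), (nat_lit 3075), (nat_lit 623), (nat_lit 177), (nat_lit 0), (nat_lit 0), (nat_lit 231500), [((nat_lit 400), [((nat_lit 28), (nat_lit 0), (nat_lit 926))])], ⟨(nat_lit 7), false, true, false, (nat_lit 301), (nat_lit 0), (nat_lit 2237), [(nat_lit 1705063), (nat_lit 1699935), (nat_lit 1748802), (nat_lit 1748125), (nat_lit 1762141), (nat_lit 1749998), (nat_lit 1807594), (nat_lit 1799902)]⟩, ⟨(nat_lit 3), false, false, false, (nat_lit 122), (nat_lit 0), (nat_lit 2237), [(nat_lit 1236035), (nat_lit 1248179), (nat_lit 1301578), (nat_lit 1320399), (nat_lit 1294870), (nat_lit 1299999), (nat_lit 1360436), (nat_lit 1372242)]⟩, (nat_lit 4703865), (nat_lit 38946342), (nat_lit 22685965), (nat_lit 5367693), (nat_lit 3), (nat_lit 0), [], [⟨(nat_lit 0), (nat_lit 100), (nat_lit 32), (nat_lit 87), (nat_lit 41811031)⟩], [], [],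
 ⟨⟨[(nat_lit 40), (nat_lit 60)], [(nat_lit 0), (nat_lit 1539)], [((nat_lit 0), (nat_lit 0), (nat_lit 0)), ((nat_lit 1000), (nat_lit 478), (nat_lit 704))], ((nat_lit 48), (nat_lit 100), (nat_lit 69))⟩, (nat_lit 0), (nat_lit 86), (nat_lit 86), (nat_lit 0), (nat_lit 0), [(nat_lit 1580575251), (nat_lit 1211464000)], [(nat_lit 0), (nat_lit 0)], [(nat_lit 24735117427), (nat_lit 26001364750), (nat_lit 26382025352), (nat_lit 27647338500), (nat_lit 25024870052), (nat_lit 26222234227), (nat_lit 26602479565), (nat_lit 27699109902)], (nat_lit 0), (nat_lit 0), (nat_lit 0), (nat_lit 0), (nat_lit 0), (nat_lit 0), [], [(nat_lit 1), (nat_lit 38), (nat_lit 238), (nat_lit 30), (nat_lit 11)]⟩,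
 ⟨⟨[(nat_lit 60), (nat_lit 100), (nat_lit 140)], [(nat_lit 0), (nat_lit 0), (nat_lit 2047)], [((nat_lit 0), (nat_lit 0), (nat_lit 0)), ((nat_lit 0), (nat_lit 0), (nat_lit 0)), ((nat_lit 1000), (nat_lit 993), (nat_lit 781))], ((nat_lit 95), (nat_lit 100), (nat_lit 65))⟩, (nat_lit 100999), (nat_lit 926), (nat_lit 926), (nat_lit 0), (nat_lit 1670510), [(nat_lit 242868000), (nat_lit 462500000), (nat_lit 728308000)], [], [(nat_lit 2718496726), (nat_lit 2730046491), (nat_lit 2730046491), (nat_lit 2739574627), (nat_lit 2298553881), (nat_lit 2386797019), (nat_lit 2386797019), (nat_lit 2484766906)], (nat_lit 1271251), (nat_lit 1271251), (nat_lit 1271251), (nat_lit 1271251), (nat_lit 0), (nat_lit 2401251), [(nat_lit 780000), (nat_lit 1435001), (nat_lit 1271251)], [(nat_lit 11), (nat_lit 55), (nat_lit 354), (nat_lit 100), (nat_lit 10)]⟩,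
 ⟨⟨[(nat_lit 140), (nat_lit 180), (nat_lit 200)], [(nat_lit 0), (nat_lit 0), (nat_lit 2835)], [((nat_lit 0), (nat_lit 0), (nat_lit 0)), ((nat_lit 0), (nat_lit 0), (nat_lit 0)), ((nat_lit 363), (nat_lit 1000), (nat_lit 798))], ((nat_lit 0), (nat_lit 0), (nat_lit 0))⟩, (nat_lit 3852), (nat_lit 300), (nat_lit 1243), (nat_lit 1093400), (nat_lit 1549729), [(nat_lit 137788000), (nat_lit 196812000), (nat_lit 229600000)], [], [(nat_lit 1099539229), (nat_lit 1019887021), (nat_lit 1027238022), (nat_lit 985761466), (nat_lit 834724475), (nat_lit 925170401), (nat_lit 852646176), (nat_lit 987423608)], (nat_lit 780000), (nat_lit 1271251), (nat_lit 490000), (nat_lit 780000), (nat_lit 0), (nat_lit 2401251), [(nat_lit 1977501), (nat_lit 1271251), (nat_lit 1271251)], [(nat_lit 32), (nat_lit 67), (nat_lit 401), (nat_lit 175), (nat_lit 9)]⟩⟩)))) (.spl (nat_lit 2) (nat_lit 160) (.leaf ⟨(nat_lit 1000), (nat_lit 0), (nat_lit 0), (nat_lit 0), (nat_lit 0), (nat_lit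 3192), (nat_lit 0), (nat_lit 0), (nat_lit 0), (nat_lit 0), (nat_lit 250000), [((nat_lit 400), [((nat_lit 28), (nat_lit 0), (nat_lit 1000))])], ⟨(nat_lit 7), false, true, true, (nat_lit 292), (nat_lit 0), (nat_lit 2237), [(nat_lit 1659577), (nat_lit 1649997), (nat_lit 1748802), (nat_lit 1748125), (nat_lit 1716590), (nat_lit 1699995), (nat_lit 1807594), (nat_lit 1799902)]⟩, ⟨(nat_lit 3), false, false, false, (nat_lit 139), (nat_lit 0), (nat_lit 2237), [(nat_lit 1294870), (nat_lit 1299999), (nat_lit 1338589), (nat_lit 1348168), (nat_lit 1351885), (nat_lit 1349998), (nat_lit 1397434), (nat_lit 1399999)]⟩, (nat_lit 4853653), (nat_lit 38942994), (nat_lit 21468099), (nat_lit 6588907), (nat_lit 0), (nat_lit 0), [], [], [], [],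
 ⟨⟨[(nat_lit 40), (nat_lit 60)], [(nat_lit 0), (nat_lit 1539)], [((nat_lit 0), (nat_lit 0), (nat_lit 0)), ((nat_lit 1000), (nat_lit 478), (nat_lit 704))], ((nat_lit 48), (nat_lit 100), (nat_lit 69))⟩, (nat_lit 0), (nat_lit 77), (nat_lit 77), (nat_lit 0), (nat_lit 0), [(nat_lit 1563200002), (nat_lit 1046000000)], [(nat_lit 0), (nat_lit 0)], [(nat_lit 24926407672), (nat_lit 26275189832), (nat_lit 26638736348), (nat_lit 27873883504), (nat_lit 25196260352), (nat_lit 26363086704), (nat_lit 26720058508), (nat_lit 27897375008)], (nat_lit 0), (nat_lit 0), (nat_lit 0), (nat_lit 0), (nat_lit 0), (nat_lit 0), [], [(nat_lit 1), (nat_lit 38), (nat_lit 203), (nat_lit 0), (nat_lit 9)]⟩,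
 Rw.none,
 Rw.none⟩) (.spl (nat_lit 1) (nat_lit 280) (.leaf ⟨(nat_lit 1000), (nat_lit 0), (nat_lit 0), (nat_lit 0), (nat_lit 0), (nat_lit 3124), (nat_lit 0), (nat_lit 0), (nat_lit 0), (nat_lit 0), (nat_lit 250000), [((nat_lit 400), [((nat_lit 28), (nat_lit 0), (nat_lit 1000))])], ⟨(nat_lit 7), false, true, true, (nat_lit 282), (nat_lit 0), (nat_lit 2237), [(nat_lit 1659577), (nat_lit 1649997), (nat_lit 1705063), (nat_lit 1699935), (nat_lit 1716590), (nat_lit 1699995), (nat_lit 1762141), (nat_lit 1749998)]⟩, ⟨(nat_lit 4), false, false, false, (nat_lit 153), (nat_lit 0), (nat_lit 2237), [(nat_lit 1338589), (nat_lit 1348168), (nat_lit 1360436), (nat_lit 1372242), (nat_lit 1397434), (nat_lit 1399999), (nat_lit 1419294), (nat_lit 1424084)]⟩, (nat_lit 4957042), (nat_lit 39010955), (nat_lit 20340564), (nat_lit 7648481), (nat_lit 0), (nat_lit 0), [], [], [], [],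
 ⟨⟨[(nat_lit 40), (nat_lit 60)], [(nat_lit 0), (nat_lit 1539)], [((nat_lit 0), (nat_lit 0), (nat_lit 0)), ((nat_lit 1000), (nat_lit 478), (nat_lit 704))], ((nat_lit 48), (nat_lit 100), (nat_lit 69))⟩, (nat_lit 0), (nat_lit 77), (nat_lit 77), (nat_lit 0), (nat_lit 0), [(nat_lit 1563200002), (nat_lit 1046000000)], [(nat_lit 0), (nat_lit 0)], [(nat_lit 24963436800), (nat_lit 26182477204), (nat_lit 26548513506), (nat_lit 27772011888), (nat_lit 25244855260), (nat_lit 26392546644), (nat_lit 26759652392), (nat_lit 27812340148)], (nat_lit 0), (nat_lit 0), (nat_lit 0), (nat_lit 0), (nat_lit 0), (nat_lit 0), [], [(nat_lit 1), (nat_lit 38), (nat_lit 203), (nat_lit 0), (nat_lit 9)]⟩,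
 Rw.none,
 Rw.none⟩) (.leaf ⟨(nat_lit 932), (nat_lit 48), (nat_lit 0), (nat_lit 20), (nat_lit 0), (nat_lit 3109), (nat_lit 566), (nat_lit 249), (nat_lit 0), (nat_lit 0), (nat_lit 233000), [((nat_lit 400), [((nat_lit 28), (nat_lit 0), (nat_lit 932))])], ⟨(nat_lit 7), false, true, false, (nat_lit 301), (nat_lit 0), (nat_lit 2237), [(nat_lit 1705063), (nat_lit 1699935), (nat_lit 1748802), (nat_lit 1748125), (nat_lit 1762141), (nat_lit 1749998), (nat_lit 1807594), (nat_lit 1799902)]⟩, ⟨(nat_lit 4), false, false, false, (nat_lit 153), (nat_lit 0), (nat_lit 2237), [(nat_lit 1338589), (nat_lit 1348168), (nat_lit 1360436), (nat_lit 1372242), (nat_lit 1397434), (nat_lit 1399999), (nat_lit 1419294), (nat_lit 1424084)]⟩, (nat_lit 5008242), (nat_lit 37510695), (nat_lit 22044721), (nat_lit 7444584), (nat_lit 4), (nat_lit 0), [], [], [], [],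
 ⟨⟨[(nat_lit 40), (nat_lit 60)], [(nat_lit 0), (nat_lit 1539)], [((nat_lit 0), (nat_lit 0), (nat_lit 0)), ((nat_lit 1000), (nat_lit 478), (nat_lit 704))], ((nat_lit 48), (nat_lit 100), (nat_lit 69))⟩, (nat_lit 0), (nat_lit 77), (nat_lit 77), (nat_lit 0), (nat_lit 0), [(nat_lit 1579166412), (nat_lit 1198048000)], [(nat_lit 0), (nat_lit 0)], [(nat_lit 25003537810), (nat_lit 26206762531), (nat_lit 26586109742), (nat_lit 27749540208), (nat_lit 25287507545), (nat_lit 26432799064), (nat_lit 26800319157), (nat_lit 27850927628)], (nat_lit 0), (nat_lit 0), (nat_lit 0), (nat_lit 0), (nat_lit 0), (nat_lit 0), [], [(nat_lit 1), (nat_lit 38), (nat_lit 203), (nat_lit 0), (nat_lit 9)]⟩,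
 ⟨⟨[(nat_lit 60), (nat_lit 100), (nat_lit 140)], [(nat_lit 0), (nat_lit 0), (nat_lit 2047)], [((nat_lit 0), (nat_lit 0), (nat_lit 0)), ((nat_lit 0), (nat_lit 0), (nat_lit 0)), ((nat_lit 1000), (nat_lit 993), (nat_lit 781))], ((nat_lit 95), (nat_lit 100), (nat_lit 65))⟩, (nat_lit 74527), (nat_lit 867), (nat_lit 867), (nat_lit 0), (nat_lit 1517715), [(nat_lit 223176000), (nat_lit 425000000), (nat_lit 669256000)], [], [(nat_lit 2510493001), (nat_lit 2533115791), (nat_lit 2533115791), (nat_lit 2550489271), (nat_lit 2262490282), (nat_lit 2337182959), (nat_lit 2337182959), (nat_lit 2417444662)], (nat_lit 1271251), (nat_lit 1271251), (nat_lit 1271251), (nat_lit 1271251), (nat_lit 0), (nat_lit 2613125), [(nat_lit 780000), (nat_lit 1435001), (nat_lit 1271251)], [(nat_lit 11), (nat_lit 55), (nat_lit 343), (nat_lit 100), (nat_lit 9)]⟩,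
 ⟨⟨[(nat_lit 120), (nat_lit 160), (nat_lit 180)], [(nat_lit 0), (nat_lit 0), (nat_lit 1613)], [((nat_lit 0), (nat_lit 0), (nat_lit 0)), ((nat_lit 0), (nat_lit 0), (nat_lit 0)), ((nat_lit 620), (nat_lit 1000), (nat_lit 670))], ((nat_lit 100), (nat_lit 65), (nat_lit 64))⟩, (nat_lit 8704), (nat_lit 300), (nat_lit 2102), (nat_lit 1484003), (nat_lit 3605252), [(nat_lit 159360000), (nat_lit 237440000), (nat_lit 281160000)], [], [(nat_lit 1198526720), (nat_lit 1187120993), (nat_lit 1156009044), (nat_lit 1144468457), (nat_lit 1161491603), (nat_lit 1232597342), (nat_lit 1276537881), (nat_lit 1349120143)], (nat_lit 1100000), (nat_lit 1271251), (nat_lit 780000), (nat_lit 1100000), (nat_lit 0), (nat_lit 2613125), [(nat_lit 1695001), (nat_lit 1271251), (nat_lit 1271251)], [(nat_lit 28), (nat_lit 65), (nat_lit 615), (nat_lit 200), (nat_lit 14)]⟩⟩))))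
noncomputable def c14_11 : Tr Lf :=
 (.trX (nat_lit 3) (nat_lit 0) (nat_lit 1) (nat_lit 48) (nat_lit 71) (nat_lit 100) (nat_lit 360) (.spl (nat_lit 1) (nat_lit 260) (.trX (nat_lit 3) (nat_lit 0) (nat_lit 1) (nat_lit 46) (nat_lit 76) (nat_lit 100) (nat_lit 340) (.leaf ⟨(nat_lit 949), (nat_lit 51), (nat_lit 0), (nat_lit 0), (nat_lit 0), (nat_lit 2989), (nat_lit 486), (nat_lit 0), (nat_lit 0), (nat_lit 0), (nat_lit 237250), [((nat_lit 400), [((nat_lit 28), (nat_lit 0), (nat_lit 949))])], ⟨(nat_lit 8), false, true, true, (nat_lit 293), (nat_lit 0), (nat_lit 2237), [(nat_lit 1716590), (nat_lit 1699995), (nat_lit 1739366), (nat_lit 1724997), (nat_lit 1745097), (nat_lit 1724995), (nat_lit 1767872), (nat_lit 1749995)]⟩, ⟨(nat_lit 3), false, false, false, (nat_lit 122), (nat_lit 0), (nat_lit 2237), [(nat_lit 1177178), (nat_lit 1196337), (nat_lit 1242721), (nat_lit 1268557), (nat_lit 1351885), (nat_lit 1349998), (nat_lit 1419294), (nat_lit 1424084)]⟩,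 (nat_lit 4680955), (nat_lit 39605490), (nat_lit 21979600), (nat_lit 5414910), (nat_lit 3), (nat_lit 0), [⟨(nat_lit 1), (nat_lit 76), (nat_lit 46), (nat_lit 100), (nat_lit 408444226)⟩], [⟨(nat_lit 0), (nat_lit 100), (nat_lit 32), (nat_lit 87), (nat_lit 18310254)⟩], [], [⟨(nat_lit 1), (nat_lit 100), (nat_lit 81), (nat_lit 92), (nat_lit 7079356)⟩],
 ⟨⟨[(nat_lit 40), (nat_lit 60)], [(nat_lit 0), (nat_lit 1539)], [((nat_lit 0), (nat_lit 0), (nat_lit 0)), ((nat_lit 1000), (nat_lit 478), (nat_lit 704))], ((nat_lit 48), (nat_lit 100), (nat_lit 69))⟩, (nat_lit 0), (nat_lit 119), (nat_lit 119), (nat_lit 0), (nat_lit 0), [(nat_lit 1575174824), (nat_lit 1160036000)], [(nat_lit 0), (nat_lit 0)], [(nat_lit 27418763936), (nat_lit 28567199202), (nat_lit 28372306944), (nat_lit 29590499632), (nat_lit 27406129685), (nat_lit 28384372796), (nat_lit 28258158479), (nat_lit 29194330150)], (nat_lit 0), (nat_lit 0), (nat_lit 0), (nat_lit 0), (nat_lit 0), (nat_lit 0),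 [], [(nat_lit 1), (nat_lit 38), (nat_lit 249), (nat_lit 40), (nat_lit 12)]⟩,
 ⟨⟨[(nat_lit 80), (nat_lit 120), (nat_lit 160)], [(nat_lit 0), (nat_lit 0), (nat_lit 2132)], [((nat_lit 0), (nat_lit 0), (nat_lit 0)), ((nat_lit 0), (nat_lit 0), (nat_lit 0)), ((nat_lit 858), (nat_lit 1000), (nat_lit 713))], ((nat_lit 100), (nat_lit 91), (nat_lit 64))⟩, (nat_lit 116828), (nat_lit 1146), (nat_lit 1146), (nat_lit 0), (nat_lit 1996051), [(nat_lit 239088000), (nat_lit 406368000), (nat_lit 605472000)], [], [(nat_lit 2005950048), (nat_lit 1999656471), (nat_lit 2010511926), (nat_lit 2003503856), (nat_lit 1628956376), (nat_lit 1652317231), (nat_lit 1679935409), (nat_lit 1700680857)], (nat_lit 1271251), (nat_lit 1271251), (nat_lit 1271251), (nat_lit 1271251), (nat_lit 0), (nat_lit 2401251), [(nat_lit 1100000), (nat_lit 1785001), (nat_lit 1271251)], [(nat_lit 18), (nat_lit 59), (nat_lit 404), (nat_lit 150), (nat_lit 10)]⟩,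
 Rw.none⟩)) (.spl (nat_lit 2) (nat_lit 160) (.leaf ⟨(nat_lit 912), (nat_lit 88), (nat_lit 0), (nat_lit 0), (nat_lit 0), (nat_lit 2987), (nat_lit 668), (nat_lit 0), (nat_lit 0), (nat_lit 0), (nat_lit 228000), [((nat_lit 400), [((nat_lit 28), (nat_lit 0), (nat_lit 912))])], ⟨(nat_lit 8), false, true, true, (nat_lit 308), (nat_lit 0), (nat_lit 2237), [(nat_lit 1739366), (nat_lit 1724997), (nat_lit 1762141), (nat_lit 1749998), (nat_lit 1796379), (nat_lit 1774994), (nat_lit 1819154), (nat_lit 1799995)]⟩, ⟨(nat_lit 3), false, false, false, (nat_lit 117), (nat_lit 0), (nat_lit 2237), [(nat_lit 1177178), (nat_lit 1196337), (nat_lit 1220873), (nat_lit 1244484), (nat_lit 1351885), (nat_lit 1349998), (nat_lit 1397434), (nat_lit 1399999)]⟩, (nat_lit 4670814), (nat_lit 38535835), (nat_lit 23451746), (nat_lit 5012419), (nat_lit 3), (nat_lit 0), [⟨(nat_lit 1), (nat_lit 71), (nat_lit 48), (nat_lit 100), (nat_lit 360588761)⟩], [], [], [⟨(nat_lit 1), (nat_lit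 100), (nat_lit 74), (nat_lit 90), (nat_lit 16043640)⟩],
 ⟨⟨[(nat_lit 40), (nat_lit 60)], [(nat_lit 0), (nat_lit 1539)], [((nat_lit 0), (nat_lit 0), (nat_lit 0)), ((nat_lit 1000), (nat_lit 478), (nat_lit 704))], ((nat_lit 48), (nat_lit 100), (nat_lit 69))⟩, (nat_lit 0), (nat_lit 125), (nat_lit 125), (nat_lit 0), (nat_lit 0), [(nat_lit 1583862408), (nat_lit 1242768000)], [(nat_lit 0), (nat_lit 0)], [(nat_lit 27446016136), (nat_lit 28562665966), (nat_lit 29455845543), (nat_lit 30608759163), (nat_lit 27434819203), (nat_lit 28412806516), (nat_lit 29138482533), (nat_lit 30032366080)], (nat_lit 0), (nat_lit 0), (nat_lit 0), (nat_lit 0), (nat_lit 0), (nat_lit 0), [], [(nat_lit 1), (nat_lit 38), (nat_lit 249), (nat_lit 40), (nat_lit 12)]⟩,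
 ⟨⟨[(nat_lit 80), (nat_lit 120), (nat_lit 140)], [(nat_lit 0), (nat_lit 528), (nat_lit 1572)], [((nat_lit 0), (nat_lit 0), (nat_lit 0)), ((nat_lit 1000), (nat_lit 959), (nat_lit 206)), ((nat_lit 966), (nat_lit 1000), (nat_lit 679))], ((nat_lit 100), (nat_lit 98), (nat_lit 66))⟩, (nat_lit 228215), (nat_lit 989), (nat_lit 989), (nat_lit 0), (nat_lit 1796599), [(nat_lit 412544000), (nat_lit 701184000), (nat_lit 866096000)], [], [(nat_lit 3311420772), (nat_lit 3316376632), (nat_lit 3351807730), (nat_lit 3354233380), (nat_lit 2909697195), (nat_lit 2903980274), (nat_lit 2958859485), (nat_lit 2976120149)], (nat_lit 1271251), (nat_lit 1271251), (nat_lit 1271251), (nat_lit 1271251), (nat_lit 0), (nat_lit 2401251), [(nat_lit 1100000), (nat_lit 1785001), (nat_lit 1271251)], [(nat_lit 17), (nat_lit 58), (nat_lit 401), (nat_lit 175), (nat_lit 11)]⟩,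
 Rw.none⟩) (.trZ (nat_lit 0) (nat_lit 2) (nat_lit 4) (nat_lit 100) (nat_lit 44) (nat_lit 81) (nat_lit 70) (.leaf ⟨(nat_lit 843), (nat_lit 120), (nat_lit 0), (nat_lit 37), (nat_lit 0), (nat_lit 3033), (nat_lit 1153), (nat_lit 479), (nat_lit 0), (nat_lit 0), (nat_lit 337200), [((nat_lit 400), [((nat_lit 28), (nat_lit 1), (nat_lit 843))])], ⟨(nat_lit 8), false, true, true, (nat_lit 308), (nat_lit 0), (nat_lit 2237), [(nat_lit 1739366), (nat_lit 1724997), (nat_lit 1762141), (nat_lit 1749998), (nat_lit 1796379), (nat_lit 1774994), (nat_lit 1819154), (nat_lit 1799995)]⟩, ⟨(nat_lit 4), false, false, false, (nat_lit 139), (nat_lit 0), (nat_lit 2237), [(nat_lit 1265016), (nat_lit 1283365), (nat_lit 1286864), (nat_lit 1307439), (nat_lit 1397434), (nat_lit 1399999), (nat_lit 1419294), (nat_lit 1424084)]⟩, (nat_lit 4895431), (nat_lit 37567918), (nat_lit 22994508), (nat_lit 6437574), (nat_lit 4), (nat_lit 0), [⟨(nat_lit 1), (nat_lit 71), (nat_lit 48), (nat_lit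 100), (nat_lit 432912854)⟩], [⟨(nat_lit 0), (nat_lit 100), (nat_lit 32), (nat_lit 90), (nat_lit 74807609)⟩], [], [],
 ⟨⟨[(nat_lit 40), (nat_lit 60)], [(nat_lit 0), (nat_lit 1539)], [((nat_lit 0), (nat_lit 0), (nat_lit 0)), ((nat_lit 1000), (nat_lit 478), (nat_lit 704))], ((nat_lit 48), (nat_lit 100), (nat_lit 69))⟩, (nat_lit 0), (nat_lit 102), (nat_lit 102), (nat_lit 0), (nat_lit 0), [(nat_lit 1458439615), (nat_lit 789080400)], [(nat_lit 0), (nat_lit 0)], [(nat_lit 26620267979), (nat_lit 27847568224), (nat_lit 28736043750), (nat_lit 29879145879), (nat_lit 26998135206), (nat_lit 27982005873), (nat_lit 28710866447), (nat_lit 29609733749)], (nat_lit 0), (nat_lit 0), (nat_lit 0), (nat_lit 0), (nat_lit 0), (nat_lit 0), [], [(nat_lit 1), (nat_lit 38), (nat_lit 249), (nat_lit 40), (nat_lit 12)]⟩,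
 ⟨⟨[(nat_lit 80), (nat_lit 120), (nat_lit 140)], [(nat_lit 0), (nat_lit 528), (nat_lit 1572)], [((nat_lit 0), (nat_lit 0), (nat_lit 0)), ((nat_lit 1000), (nat_lit 959), (nat_lit 206)), ((nat_lit 966), (nat_lit 1000), (nat_lit 679))], ((nat_lit 100), (nat_lit 98), (nat_lit 66))⟩, (nat_lit 885690), (nat_lit 913), (nat_lit 913), (nat_lit 0), (nat_lit 1634347), [(nat_lit 736016000), (nat_lit 1250976000), (nat_lit 1545194000)], [], [(nat_lit 5312057355), (nat_lit 5331693884), (nat_lit 5418057089), (nat_lit 5441406052), (nat_lit 4810850583), (nat_lit 4847458691), (nat_lit 5154545475), (nat_lit 5268761615)], (nat_lit 1271251), (nat_lit 1271251), (nat_lit 1271251), (nat_lit 1271251), (nat_lit 0), (nat_lit 2401251), [(nat_lit 1100000), (nat_lit 1785001), (nat_lit 1271251)], [(nat_lit 17), (nat_lit 58), (nat_lit 401), (nat_lit 175), (nat_lit 11)]⟩,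
 ⟨⟨[(nat_lit 120), (nat_lit 160), (nat_lit 180)], [(nat_lit 0), (nat_lit 0), (nat_lit 1613)], [((nat_lit 0), (nat_lit 0), (nat_lit 0)), ((nat_lit 0), (nat_lit 0), (nat_lit 0)), ((nat_lit 620), (nat_lit 1000), (nat_lit 670))], ((nat_lit 100), (nat_lit 65), (nat_lit 64))⟩, (nat_lit 16103), (nat_lit 300), (nat_lit 1915), (nat_lit 2745400), (nat_lit 3177245), [(nat_lit 294816000), (nat_lit 439264000), (nat_lit 520146000)], [], [(nat_lit 2326991743), (nat_lit 2268139517), (nat_lit 2087562228), (nat_lit 2064909971), (nat_lit 1883167576), (nat_lit 2013134422), (nat_lit 2276826046), (nat_lit 2413355836)], (nat_lit 1100000), (nat_lit 1271251), (nat_lit 422188), (nat_lit 1100000), (nat_lit 0), (nat_lit 2401251), [(nat_lit 1695001), (nat_lit 1271251), (nat_lit 1271251)], [(nat_lit 28), (nat_lit 65), (nat_lit 564), (nat_lit 175), (nat_lit 13)]⟩⟩)))))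
noncomputable def c14_12 : Tr Lf :=
 (.spl (nat_lit 4) (nat_lit 120) (.trX (nat_lit 5) (nat_lit 3) (nat_lit 4) (nat_lit 87) (nat_lit 95) (nat_lit 100) (nat_lit 300) (.spl (nat_lit 1) (nat_lit 290) (.trX (nat_lit 3) (nat_lit 0) (nat_lit 1) (nat_lit 49) (nat_lit 68) (nat_lit 100) (nat_lit 360) (.leaf ⟨(nat_lit 890), (nat_lit 101), (nat_lit 0), (nat_lit 9), (nat_lit 0), (nat_lit 2789), (nat_lit 903), (nat_lit 108), (nat_lit 0), (nat_lit 0), (nat_lit 356000), [((nat_lit 400), [((nat_lit 28), (nat_lit 1), (nat_lit 890))])], ⟨(nat_lit 8), false, true, true, (nat_lit 316), (nat_lit 0), (nat_lit 2237), [(nat_lit 1762141), (nat_lit 1749998), (nat_lit 1773529), (nat_lit 1762499), (nat_lit 1819154), (nat_lit 1799995), (nat_lit 1830542), (nat_lit 1812496)]⟩, ⟨(nat_lit 3), false, false, false, (nat_lit 106), (nat_lit 0), (nat_lit 2237), [(nat_lit 1177178), (nat_lit 1196337), (nat_lit 1220873), (nat_lit 1244484), (nat_lit 1294870), (nat_lit 1299999), (nat_lit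 1338589), (nat_lit 1348168)]⟩, (nat_lit 4568265), (nat_lit 38368463), (nat_lit 24327283), (nat_lit 4304254), (nat_lit 3), (nat_lit 0), [⟨(nat_lit 1), (nat_lit 68), (nat_lit 49), (nat_lit 100), (nat_lit 353070462)⟩], [⟨(nat_lit 0), (nat_lit 100), (nat_lit 48), (nat_lit 71), (nat_lit 48640781)⟩], [], [],
 ⟨⟨[(nat_lit 40), (nat_lit 60)], [(nat_lit 0), (nat_lit 1539)], [((nat_lit 0), (nat_lit 0), (nat_lit 0)), ((nat_lit 1000), (nat_lit 478), (nat_lit 704))], ((nat_lit 48), (nat_lit 100), (nat_lit 69))⟩, (nat_lit 1266), (nat_lit 125), (nat_lit 125), (nat_lit 0), (nat_lit 0), [(nat_lit 1439508001), (nat_lit 650092000)], [(nat_lit 0), (nat_lit 0)], [(nat_lit 27130708267), (nat_lit 28202678695), (nat_lit 28988107758), (nat_lit 30109710261), (nat_lit 26961177903), (nat_lit 27958698811), (nat_lit 28699093801), (nat_lit 29610906070)], (nat_lit 0), (nat_lit 0), (nat_lit 0), (nat_lit 0), (nat_lit 0), (nat_lit 0), [], [(nat_lit 1), (nat_lit 38), (nat_lit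 238), (nat_lit 30), (nat_lit 11)]⟩,
 ⟨⟨[(nat_lit 60), (nat_lit 100), (nat_lit 140)], [(nat_lit 0), (nat_lit 0), (nat_lit 2047)], [((nat_lit 0), (nat_lit 0), (nat_lit 0)), ((nat_lit 0), (nat_lit 0), (nat_lit 0)), ((nat_lit 1000), (nat_lit 993), (nat_lit 781))], ((nat_lit 95), (nat_lit 100), (nat_lit 65))⟩, (nat_lit 178469), (nat_lit 911), (nat_lit 911), (nat_lit 0), (nat_lit 1653091), [(nat_lit 361020000), (nat_lit 687500000), (nat_lit 1082620000)], [], [(nat_lit 4159412977), (nat_lit 4162302518), (nat_lit 4212260398), (nat_lit 4216090342), (nat_lit 3558030663), (nat_lit 3556728937), (nat_lit 3588884363), (nat_lit 3586094497)], (nat_lit 1271251), (nat_lit 1271251), (nat_lit 1271251), (nat_lit 1271251), (nat_lit 0), (nat_lit 2118750), [(nat_lit 780000), (nat_lit 1435001), (nat_lit 1271251)], [(nat_lit 11), (nat_lit 55), (nat_lit 347), (nat_lit 75), (nat_lit 9)]⟩,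
 ⟨⟨[(nat_lit 140), (nat_lit 180), (nat_lit 200)], [(nat_lit 0), (nat_lit 0), (nat_lit 2835)], [((nat_lit 0), (nat_lit 0), (nat_lit 0)), ((nat_lit 0), (nat_lit 0), (nat_lit 0)), ((nat_lit 363), (nat_lit 1000), (nat_lit 798))], ((nat_lit 0), (nat_lit 0), (nat_lit 0))⟩, (nat_lit 4193), (nat_lit 300), (nat_lit 1218), (nat_lit 702900), (nat_lit 1416283), [(nat_lit 88578000), (nat_lit 126522000), (nat_lit 147600000)], [], [(nat_lit 771729063), (nat_lit 710811774), (nat_lit 674110350), (nat_lit 655621920), (nat_lit 585941495), (nat_lit 567596268), (nat_lit 534734645), (nat_lit 560437200)], (nat_lit 780000), (nat_lit 1100000), (nat_lit 230000), (nat_lit 780000), (nat_lit 0), (nat_lit 2118750), [(nat_lit 1977501), (nat_lit 1271251), (nat_lit 1271251)], [(nat_lit 32), (nat_lit 67), (nat_lit 377), (nat_lit 150), (nat_lit 9)]⟩⟩)) (.leaf ⟨(nat_lit 735), (nat_lit 231), (nat_lit 0), (nat_lit 34), (nat_lit 0), (nat_lit 2909), (nat_lit 1683), (nat_lit 381),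 (nat_lit 0), (nat_lit 0), (nat_lit 224550), [((nat_lit 400), [((nat_lit 28), (nat_lit 0), (nat_lit 463)), ((nat_lit 28), (nat_lit 1), (nat_lit 272))])], ⟨(nat_lit 8), false, true, true, (nat_lit 323), (nat_lit 0), (nat_lit 2237), [(nat_lit 1773529), (nat_lit 1762499), (nat_lit 1784917), (nat_lit 1774999), (nat_lit 1844795), (nat_lit 1824995), (nat_lit 1856183), (nat_lit 1837496)]⟩, ⟨(nat_lit 3), false, false, false, (nat_lit 106), (nat_lit 0), (nat_lit 2237), [(nat_lit 1177178), (nat_lit 1196337), (nat_lit 1220873), (nat_lit 1244484), (nat_lit 1294870), (nat_lit 1299999), (nat_lit 1338589), (nat_lit 1348168)]⟩, (nat_lit 4581667), (nat_lit 37731012), (nat_lit 25013710), (nat_lit 4255278), (nat_lit 3), (nat_lit 0), [⟨(nat_lit 1), (nat_lit 78), (nat_lit 35), (nat_lit 100), (nat_lit 414145129)⟩], [⟨(nat_lit 0), (nat_lit 100), (nat_lit 33), (nat_lit 85), (nat_lit 111909422)⟩], [], [],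
 ⟨⟨[(nat_lit 40), (nat_lit 60)], [(nat_lit 0), (nat_lit 1539)], [((nat_lit 0), (nat_lit 0), (nat_lit 0)), ((nat_lit 1000), (nat_lit 478), (nat_lit 704))], ((nat_lit 48), (nat_lit 100), (nat_lit 69))⟩, (nat_lit 0), (nat_lit 127), (nat_lit 127), (nat_lit 0), (nat_lit 0), [(nat_lit 1579726008), (nat_lit 1442373600)], [(nat_lit 0), (nat_lit 0)], [(nat_lit 27479995408), (nat_lit 28570464076), (nat_lit 29837439447), (nat_lit 30918737736), (nat_lit 27245148635), (nat_lit 28258641472), (nat_lit 29448930232), (nat_lit 30352735196)], (nat_lit 0), (nat_lit 0), (nat_lit 0), (nat_lit 0), (nat_lit 0), (nat_lit 0), [], [(nat_lit 1), (nat_lit 38), (nat_lit 238), (nat_lit 30), (nat_lit 11)]⟩,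
 ⟨⟨[(nat_lit 60), (nat_lit 100), (nat_lit 140)], [(nat_lit 0), (nat_lit 302), (nat_lit 2304)], [((nat_lit 0), (nat_lit 0), (nat_lit 0)), ((nat_lit 1000), (nat_lit 953), (nat_lit 118)), ((nat_lit 1000), (nat_lit 952), (nat_lit 781))], ((nat_lit 91), (nat_lit 100), (nat_lit 64))⟩, (nat_lit 1794976), (nat_lit 888), (nat_lit 888), (nat_lit 0), (nat_lit 1598113), [(nat_lit 869730000), (nat_lit 1656250000), (nat_lit 2608130000)], [], [(nat_lit 8971650796), (nat_lit 8998474472), (nat_lit 9204286854), (nat_lit 9232225176), (nat_lit 8256777352), (nat_lit 8267455182), (nat_lit 8393189989), (nat_lit 8476644135)], (nat_lit 1271251), (nat_lit 1271251), (nat_lit 1271251), (nat_lit 1271251), (nat_lit 0), (nat_lit 2118750), [(nat_lit 780000), (nat_lit 1435001), (nat_lit 1271251)], [(nat_lit 11), (nat_lit 55), (nat_lit 344), (nat_lit 75), (nat_lit 9)]⟩,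
 ⟨⟨[(nat_lit 140), (nat_lit 180), (nat_lit 200)], [(nat_lit 0), (nat_lit 0), (nat_lit 2835)], [((nat_lit 0), (nat_lit 0), (nat_lit 0)), ((nat_lit 0), (nat_lit 0), (nat_lit 0)), ((nat_lit 363), (nat_lit 1000), (nat_lit 798))], ((nat_lit 0), (nat_lit 0), (nat_lit 0))⟩, (nat_lit 9355), (nat_lit 300), (nat_lit 1235), (nat_lit 2655400), (nat_lit 1457411), [(nat_lit 334628000), (nat_lit 477972000), (nat_lit 557600000)], [], [(nat_lit 2826210603), (nat_lit 2748565588), (nat_lit 2633640408), (nat_lit 2569196994), (nat_lit 2316779278), (nat_lit 2253324948), (nat_lit 2150100062), (nat_lit 2089041692)], (nat_lit 780000), (nat_lit 1100000), (nat_lit 230000), (nat_lit 780000), (nat_lit 0), (nat_lit 2118750), [(nat_lit 1977501), (nat_lit 1271251), (nat_lit 1271251)], [(nat_lit 32), (nat_lit 67), (nat_lit 382), (nat_lit 150), (nat_lit 9)]⟩⟩))) (.stt (nat_lit 3) (.spl (nat_lit 0) (nat_lit 390) (.leaf ⟨(nat_lit 910), (nat_lit 76), (nat_lit 0), (nat_lit 14),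 (nat_lit 0), (nat_lit 3088), (nat_lit 721), (nat_lit 194), (nat_lit 0), (nat_lit 0), (nat_lit 227500), [((nat_lit 390), [((nat_lit 28), (nat_lit 0), (nat_lit 910))])], ⟨(nat_lit 8), false, true, true, (nat_lit 322), (nat_lit 1581), (nat_lit 2237), [(nat_lit 1762142), (nat_lit 1757166), (nat_lit 1784917), (nat_lit 1780481), (nat_lit 1833412), (nat_lit 1825461), (nat_lit 1856186), (nat_lit 1848776)]⟩, ⟨(nat_lit 3), true, false, false, (nat_lit 139), (nat_lit 1581), (nat_lit 2237), [(nat_lit 1294870), (nat_lit 1297467), (nat_lit 1340340), (nat_lit 1344018), (nat_lit 1351886), (nat_lit 1352103), (nat_lit 1397434), (nat_lit 1398733)]⟩, (nat_lit 4915353), (nat_lit 36460900), (nat_lit 24259950), (nat_lit 6279150), (nat_lit 3), (nat_lit 0), [⟨(nat_lit 1), (nat_lit 65), (nat_lit 50), (nat_lit 100), (nat_lit 393541292)⟩], [], [], [],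
 ⟨⟨[(nat_lit 40), (nat_lit 60)], [(nat_lit 0), (nat_lit 1539)], [((nat_lit 0), (nat_lit 0), (nat_lit 0)), ((nat_lit 1000), (nat_lit 478), (nat_lit 704))], ((nat_lit 48), (nat_lit 100), (nat_lit 69))⟩, (nat_lit 0), (nat_lit 86), (nat_lit 86), (nat_lit 0), (nat_lit 0), [(nat_lit 1584332001), (nat_lit 1247240000)], [(nat_lit 0), (nat_lit 0)], [(nat_lit 26604811362), (nat_lit 27154097530), (nat_lit 29095323642), (nat_lit 29629197119), (nat_lit 26822877858), (nat_lit 27346726594), (nat_lit 29089344083), (nat_lit 29599804366)], (nat_lit 0), (nat_lit 0), (nat_lit 0), (nat_lit 0), (nat_lit 0), (nat_lit 0), [], [(nat_lit 1), (nat_lit 38), (nat_lit 203), (nat_lit 0), (nat_lit 8)]⟩,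
 ⟨⟨[(nat_lit 60), (nat_lit 100), (nat_lit 140)], [(nat_lit 0), (nat_lit 0), (nat_lit 2047)], [((nat_lit 0), (nat_lit 0), (nat_lit 0)), ((nat_lit 0), (nat_lit 0), (nat_lit 0)), ((nat_lit 1000), (nat_lit 993), (nat_lit 781))], ((nat_lit 95), (nat_lit 100), (nat_lit 65))⟩, (nat_lit 159041), (nat_lit 851), (nat_lit 851), (nat_lit 0), (nat_lit 1498363), [(nat_lit 295380000), (nat_lit 562500000), (nat_lit 885780000)], [], [(nat_lit 3396365257), (nat_lit 3408497891), (nat_lit 3479308913), (nat_lit 3495687392), (nat_lit 2975575182), (nat_lit 2976803874), (nat_lit 3144939299), (nat_lit 3208812216)], (nat_lit 1271251), (nat_lit 1271251), (nat_lit 1271251), (nat_lit 1271251), (nat_lit 0), (nat_lit 2401251), [(nat_lit 780000), (nat_lit 1435001), (nat_lit 1271251)], [(nat_lit 11), (nat_lit 55), (nat_lit 339), (nat_lit 100), (nat_lit 9)]⟩,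
 ⟨⟨[(nat_lit 140), (nat_lit 180), (nat_lit 200)], [(nat_lit 0), (nat_lit 0), (nat_lit 2835)], [((nat_lit 0), (nat_lit 0), (nat_lit 0)), ((nat_lit 0), (nat_lit 0), (nat_lit 0)), ((nat_lit 363), (nat_lit 1000), (nat_lit 798))], ((nat_lit 0), (nat_lit 0), (nat_lit 0))⟩, (nat_lit 3852), (nat_lit 300), (nat_lit 491), (nat_lit 1093400), (nat_lit 0), [(nat_lit 137788000), (nat_lit 196812000), (nat_lit 229600000)], [], [(nat_lit 964149570), (nat_lit 934236824), (nat_lit 927614380), (nat_lit 898309952), (nat_lit 760724153), (nat_lit 730328623), (nat_lit 724678718), (nat_lit 694549524)], (nat_lit 0), (nat_lit 0), (nat_lit 0), (nat_lit 0), (nat_lit 0), (nat_lit 0), [], [(nat_lit 32), (nat_lit 67), (nat_lit 401), (nat_lit 175), (nat_lit 9)]⟩⟩) (.trX (nat_lit 3) (nat_lit 0) (nat_lit 1) (nat_lit 36) (nat_lit 77) (nat_lit 100) (nat_lit 350) (.leaf ⟨(nat_lit 916), (nat_lit 71), (nat_lit 0), (nat_lit 13), (nat_lit 0), (nat_lit 3108), (nat_lit 696), (nat_lit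 180), (nat_lit 0), (nat_lit 0), (nat_lit 229000), [((nat_lit 400), [((nat_lit 28), (nat_lit 0), (nat_lit 916))])], ⟨(nat_lit 8), false, true, true, (nat_lit 314), (nat_lit 0), (nat_lit 1582), [(nat_lit 1757165), (nat_lit 1749998), (nat_lit 1780481), (nat_lit 1774999), (nat_lit 1798140), (nat_lit 1787496), (nat_lit 1821456), (nat_lit 1812497)]⟩, ⟨(nat_lit 3), true, false, false, (nat_lit 139), (nat_lit 0), (nat_lit 1582), [(nat_lit 1297467), (nat_lit 1299999), (nat_lit 1342789), (nat_lit 1348691), (nat_lit 1352101), (nat_lit 1349997), (nat_lit 1398733), (nat_lit 1399999)]⟩, (nat_lit 4909002), (nat_lit 37092737), (nat_lit 23504933), (nat_lit 6402330), (nat_lit 3), (nat_lit 0), [⟨(nat_lit 1), (nat_lit 77), (nat_lit 36), (nat_lit 100), (nat_lit 552471910)⟩], [], [], [],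
 ⟨⟨[(nat_lit 40), (nat_lit 60)], [(nat_lit 0), (nat_lit 2136)], [((nat_lit 0), (nat_lit 0), (nat_lit 0)), ((nat_lit 1000), (nat_lit 343), (nat_lit 808))], ((nat_lit 37), (nat_lit 100), (nat_lit 75))⟩, (nat_lit 0), (nat_lit 84), (nat_lit 84), (nat_lit 0), (nat_lit 0), [(nat_lit 1582923207), (nat_lit 1233824000)], [(nat_lit 0), (nat_lit 0)], [(nat_lit 27144801937), (nat_lit 27748042096), (nat_lit 28653231792), (nat_lit 29218529425), (nat_lit 27333649936), (nat_lit 27858884862), (nat_lit 28661285631), (nat_lit 29201307188)], (nat_lit 0), (nat_lit 0), (nat_lit 0), (nat_lit 0), (nat_lit 0), (nat_lit 0), [], [(nat_lit 1), (nat_lit 38), (nat_lit 203), (nat_lit 0), (nat_lit 8)]⟩,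
 ⟨⟨[(nat_lit 60), (nat_lit 100), (nat_lit 140)], [(nat_lit 0), (nat_lit 0), (nat_lit 2047)], [((nat_lit 0), (nat_lit 0), (nat_lit 0)), ((nat_lit 0), (nat_lit 0), (nat_lit 0)), ((nat_lit 1000), (nat_lit 993), (nat_lit 781))], ((nat_lit 95), (nat_lit 100), (nat_lit 65))⟩, (nat_lit 134816), (nat_lit 912), (nat_lit 912), (nat_lit 0), (nat_lit 1655644), [(nat_lit 275688000), (nat_lit 525000000), (nat_lit 826728000)], [], [(nat_lit 3134881912), (nat_lit 3139097716), (nat_lit 3164844037), (nat_lit 3169332204), (nat_lit 2675762280), (nat_lit 2734160871), (nat_lit 2839127697), (nat_lit 2905757445)], (nat_lit 1271251), (nat_lit 1271251), (nat_lit 1271251), (nat_lit 1271251), (nat_lit 0), (nat_lit 2401251), [(nat_lit 780000), (nat_lit 1435001), (nat_lit 1271251)], [(nat_lit 11), (nat_lit 55), (nat_lit 352), (nat_lit 100), (nat_lit 9)]⟩,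
 ⟨⟨[(nat_lit 140), (nat_lit 180), (nat_lit 200)], [(nat_lit 0), (nat_lit 0), (nat_lit 2835)], [((nat_lit 0), (nat_lit 0), (nat_lit 0)), ((nat_lit 0), (nat_lit 0), (nat_lit 0)), ((nat_lit 363), (nat_lit 1000), (nat_lit 798))], ((nat_lit 0), (nat_lit 0), (nat_lit 0))⟩, (nat_lit 3577), (nat_lit 300), (nat_lit 491), (nat_lit 1015300), (nat_lit 0), [(nat_lit 127946000), (nat_lit 182754000), (nat_lit 213200000)], [], [(nat_lit 895282334), (nat_lit 867535324), (nat_lit 861390514), (nat_lit 834101328), (nat_lit 706492871), (nat_lit 678297457), (nat_lit 673055045), (nat_lit 645106662)], (nat_lit 0), (nat_lit 0), (nat_lit 0), (nat_lit 0), (nat_lit 0), (nat_lit 0), [], [(nat_lit 32), (nat_lit 67), (nat_lit 401), (nat_lit 175), (nat_lit 9)]⟩⟩))) (.spl (nat_lit 0) (nat_lit 390) (.leaf ⟨(nat_lit 876), (nat_lit 124), (nat_lit 0), (nat_lit 0), (nat_lit 0), (nat_lit 3074), (nat_lit 946), (nat_lit 0), (nat_lit 0), (nat_lit 0), (nat_lit 219000), [((nat_lit 390),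 [((nat_lit 28), (nat_lit 0), (nat_lit 876))])], ⟨(nat_lit 8), false, true, true, (nat_lit 322), (nat_lit 1581), (nat_lit 2237), [(nat_lit 1762142), (nat_lit 1757166), (nat_lit 1784917), (nat_lit 1780481), (nat_lit 1833412), (nat_lit 1825461), (nat_lit 1856186), (nat_lit 1848776)]⟩, ⟨(nat_lit 3), false, false, false, (nat_lit 139), (nat_lit 1581), (nat_lit 2237), [(nat_lit 1294870), (nat_lit 1297467), (nat_lit 1340340), (nat_lit 1344018), (nat_lit 1351886), (nat_lit 1352103), (nat_lit 1397434), (nat_lit 1398733)]⟩, (nat_lit 4915353), (nat_lit 36460900), (nat_lit 24259950), (nat_lit 6279150), (nat_lit 3), (nat_lit 0), [⟨(nat_lit 1), (nat_lit 65), (nat_lit 50), (nat_lit 100), (nat_lit 331633349)⟩], [], [], [⟨(nat_lit 1), (nat_lit 94), (nat_lit 72), (nat_lit 100), (nat_lit 20575270)⟩],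
 ⟨⟨[(nat_lit 40), (nat_lit 60)], [(nat_lit 0), (nat_lit 1539)], [((nat_lit 0), (nat_lit 0), (nat_lit 0)), ((nat_lit 1000), (nat_lit 478), (nat_lit 704))], ((nat_lit 48), (nat_lit 100), (nat_lit 69))⟩, (nat_lit 0), (nat_lit 86), (nat_lit 86), (nat_lit 0), (nat_lit 0), [(nat_lit 1592315202), (nat_lit 1323264000)], [(nat_lit 0), (nat_lit 0)], [(nat_lit 26626358059), (nat_lit 27174598536), (nat_lit 29072193154), (nat_lit 29605107575), (nat_lit 26846995942), (nat_lit 27369874345), (nat_lit 29109735367), (nat_lit 29579254347)], (nat_lit 0), (nat_lit 0), (nat_lit 0), (nat_lit 0), (nat_lit 0), (nat_lit 0), [], [(nat_lit 1), (nat_lit 38), (nat_lit 203), (nat_lit 0), (nat_lit 8)]⟩,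
 ⟨⟨[(nat_lit 60), (nat_lit 100), (nat_lit 140)], [(nat_lit 0), (nat_lit 0), (nat_lit 2047)], [((nat_lit 0), (nat_lit 0), (nat_lit 0)), ((nat_lit 0), (nat_lit 0), (nat_lit 0)), ((nat_lit 1000), (nat_lit 993), (nat_lit 781))], ((nat_lit 95), (nat_lit 100), (nat_lit 65))⟩, (nat_lit 207960), (nat_lit 741), (nat_lit 741), (nat_lit 0), (nat_lit 1254842), [(nat_lit 406968000), (nat_lit 775000000), (nat_lit 1220408000)], [], [(nat_lit 4800562860), (nat_lit 4829587734), (nat_lit 4942799455), (nat_lit 4964313609), (nat_lit 4273212919), (nat_lit 4284506862), (nat_lit 4360130968), (nat_lit 4369139668)], (nat_lit 1271251), (nat_lit 1271251), (nat_lit 1271251), (nat_lit 1271251), (nat_lit 0), (nat_lit 2401251), [(nat_lit 780000), (nat_lit 1435001), (nat_lit 1271251)], [(nat_lit 11), (nat_lit 55), (nat_lit 317), (nat_lit 100), (nat_lit 8)]⟩,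
 Rw.none⟩) (.trX (nat_lit 3) (nat_lit 0) (nat_lit 1) (nat_lit 36) (nat_lit 77) (nat_lit 100) (nat_lit 350) (.leaf ⟨(nat_lit 885), (nat_lit 115), (nat_lit 0), (nat_lit 0), (nat_lit 0), (nat_lit 3117), (nat_lit 908), (nat_lit 0), (nat_lit 0), (nat_lit 0), (nat_lit 221250), [((nat_lit 400), [((nat_lit 28), (nat_lit 0), (nat_lit 885))])], ⟨(nat_lit 8), false, true, true, (nat_lit 314), (nat_lit 0), (nat_lit 1582), [(nat_lit 1757165), (nat_lit 1749998), (nat_lit 1780481), (nat_lit 1774999), (nat_lit 1798140), (nat_lit 1787496), (nat_lit 1821456), (nat_lit 1812497)]⟩, ⟨(nat_lit 3), false, false, false, (nat_lit 139), (nat_lit 0), (nat_lit 1582), [(nat_lit 1297467), (nat_lit 1299999), (nat_lit 1342789), (nat_lit 1348691), (nat_lit 1352101), (nat_lit 1349997), (nat_lit 1398733), (nat_lit 1399999)]⟩, (nat_lit 4909002), (nat_lit 37092737), (nat_lit 23504933), (nat_lit 6402330), (nat_lit 3), (nat_lit 0), [⟨(nat_lit 1), (nat_lit 77), (nat_lit 36), (nat_lit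 100), (nat_lit 480693609)⟩], [], [], [⟨(nat_lit 1), (nat_lit 91), (nat_lit 77), (nat_lit 100), (nat_lit 16455976)⟩],
 ⟨⟨[(nat_lit 40), (nat_lit 60)], [(nat_lit 0), (nat_lit 2136)], [((nat_lit 0), (nat_lit 0), (nat_lit 0)), ((nat_lit 1000), (nat_lit 343), (nat_lit 808))], ((nat_lit 37), (nat_lit 100), (nat_lit 75))⟩, (nat_lit 0), (nat_lit 84), (nat_lit 84), (nat_lit 0), (nat_lit 0), [(nat_lit 1590202012), (nat_lit 1303140000)], [(nat_lit 0), (nat_lit 0)], [(nat_lit 27156444445), (nat_lit 27761525104), (nat_lit 28667608327), (nat_lit 29233584232), (nat_lit 27343590965), (nat_lit 27869449676), (nat_lit 28673390902), (nat_lit 29214116537)], (nat_lit 0), (nat_lit 0), (nat_lit 0), (nat_lit 0), (nat_lit 0), (nat_lit 0), [], [(nat_lit 1), (nat_lit 38), (nat_lit 203), (nat_lit 0), (nat_lit 8)]⟩,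
 ⟨⟨[(nat_lit 60), (nat_lit 100), (nat_lit 140)], [(nat_lit 0), (nat_lit 0), (nat_lit 2047)], [((nat_lit 0), (nat_lit 0), (nat_lit 0)), ((nat_lit 0), (nat_lit 0), (nat_lit 0)), ((nat_lit 1000), (nat_lit 993), (nat_lit 781))], ((nat_lit 95), (nat_lit 100), (nat_lit 65))⟩, (nat_lit 170082), (nat_lit 791), (nat_lit 791), (nat_lit 0), (nat_lit 1390113), [(nat_lit 377430000), (nat_lit 718750000), (nat_lit 1131830000)], [], [(nat_lit 4486660618), (nat_lit 4502482440), (nat_lit 4545433356), (nat_lit 4557784755), (nat_lit 3911215620), (nat_lit 3908355604), (nat_lit 3935389704), (nat_lit 3933245055)], (nat_lit 1271251), (nat_lit 1271251), (nat_lit 1271251), (nat_lit 1271251), (nat_lit 0), (nat_lit 2401251), [(nat_lit 780000), (nat_lit 1435001), (nat_lit 1271251)], [(nat_lit 11), (nat_lit 55), (nat_lit 322), (nat_lit 100), (nat_lit 9)]⟩,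
 Rw.none⟩)))))
noncomputable def c14_13 : Tr Lf :=
 (.trZ (nat_lit 0) (nat_lit 2) (nat_lit 4) (nat_lit 100) (nat_lit 44) (nat_lit 81) (nat_lit 70) (.spl (nat_lit 5) (nat_lit 120) (.leaf ⟨(nat_lit 773), (nat_lit 227), (nat_lit 0), (nat_lit 0), (nat_lit 0), (nat_lit 3060), (nat_lit 1786), (nat_lit 0), (nat_lit 0), (nat_lit 0), (nat_lit 463800), [((nat_lit 400), [((nat_lit 43), (nat_lit 2), (nat_lit 773))])], ⟨(nat_lit 8), false, true, true, (nat_lit 321), (nat_lit 0), (nat_lit 2237), [(nat_lit 1762141), (nat_lit 1749998), (nat_lit 1784917), (nat_lit 1774999), (nat_lit 1833408), (nat_lit 1812495), (nat_lit 1856183), (nat_lit 1837496)]⟩, ⟨(nat_lit 4), false, false, false, (nat_lit 139), (nat_lit 0), (nat_lit 2237), [(nat_lit 1265016), (nat_lit 1283365), (nat_lit 1286864), (nat_lit 1307439), (nat_lit 1397434), (nat_lit 1399999), (nat_lit 1419294), (nat_lit 1424084)]⟩, (nat_lit 4916003), (nat_lit 36592616), (nat_lit 24088722), (nat_lit 6318662),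 (nat_lit 4), (nat_lit 0), [⟨(nat_lit 1), (nat_lit 79), (nat_lit 35), (nat_lit 100), (nat_lit 458783807)⟩], [], [], [⟨(nat_lit 0), (nat_lit 100), (nat_lit 76), (nat_lit 40), (nat_lit 9112729)⟩],
 ⟨⟨[(nat_lit 40), (nat_lit 60)], [(nat_lit 0), (nat_lit 1539)], [((nat_lit 0), (nat_lit 0), (nat_lit 0)), ((nat_lit 1000), (nat_lit 478), (nat_lit 704))], ((nat_lit 48), (nat_lit 100), (nat_lit 69))⟩, (nat_lit 7270), (nat_lit 107), (nat_lit 107), (nat_lit 0), (nat_lit 0), [(nat_lit 1484162002), (nat_lit 255550400)], [(nat_lit 0), (nat_lit 0)], [(nat_lit 26673686601), (nat_lit 27898011770), (nat_lit 29330676605), (nat_lit 30445928402), (nat_lit 27039841026), (nat_lit 28027164966), (nat_lit 29187408164), (nat_lit 30067817866)], (nat_lit 0), (nat_lit 0), (nat_lit 0), (nat_lit 0), (nat_lit 0), (nat_lit 0), [], [(nat_lit 1), (nat_lit 38), (nat_lit 249), (nat_lit 40), (nat_lit 12)]⟩,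
 ⟨⟨[(nat_lit 60), (nat_lit 100), (nat_lit 140)], [(nat_lit 0), (nat_lit 0), (nat_lit 2047)], [((nat_lit 0), (nat_lit 0), (nat_lit 0)), ((nat_lit 0), (nat_lit 0), (nat_lit 0)), ((nat_lit 1000), (nat_lit 993), (nat_lit 781))], ((nat_lit 95), (nat_lit 100), (nat_lit 65))⟩, (nat_lit 530565), (nat_lit 722), (nat_lit 722), (nat_lit 0), (nat_lit 1204276), [(nat_lit 745014000), (nat_lit 1418750000), (nat_lit 2234134000)], [], [(nat_lit 8370967184), (nat_lit 8441743992), (nat_lit 8687052449), (nat_lit 8741737665), (nat_lit 7509709488), (nat_lit 7568274683), (nat_lit 7784540158), (nat_lit 7828821034)], (nat_lit 1271251), (nat_lit 1271251), (nat_lit 1271251), (nat_lit 1271251), (nat_lit 0), (nat_lit 780000), [(nat_lit 780000), (nat_lit 1435001), (nat_lit 1271251)], [(nat_lit 11), (nat_lit 55), (nat_lit 280), (nat_lit 30), (nat_lit 7)]⟩,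
 Rw.none⟩) (.spl (nat_lit 0) (nat_lit 390) (.leaf ⟨(nat_lit 874), (nat_lit 87), (nat_lit 0), (nat_lit 39), (nat_lit 0), (nat_lit 2902), (nat_lit 964), (nat_lit 429), (nat_lit 0), (nat_lit 0), (nat_lit 349600), [((nat_lit 390), [((nat_lit 28), (nat_lit 1), (nat_lit 874))])], ⟨(nat_lit 8), false, true, true, (nat_lit 322), (nat_lit 1581), (nat_lit 2237), [(nat_lit 1762142), (nat_lit 1757166), (nat_lit 1784917), (nat_lit 1780481), (nat_lit 1833412), (nat_lit 1825461), (nat_lit 1856186), (nat_lit 1848776)]⟩, ⟨(nat_lit 4), false, false, false, (nat_lit 139), (nat_lit 1581), (nat_lit 2237), [(nat_lit 1268963), (nat_lit 1275616), (nat_lit 1291693), (nat_lit 1298886), (nat_lit 1397434), (nat_lit 1398733), (nat_lit 1420170), (nat_lit 1422009)]⟩, (nat_lit 4913771), (nat_lit 36467885), (nat_lit 24263750), (nat_lit 6268365), (nat_lit 4), (nat_lit 0), [⟨(nat_lit 1), (nat_lit 73), (nat_lit 43), (nat_lit 100), (nat_lit 85470210)⟩, ⟨(nat_lit 1), (nat_lit 65),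 (nat_lit 50), (nat_lit 100), (nat_lit 255778310)⟩], [], [], [⟨(nat_lit 1), (nat_lit 100), (nat_lit 73), (nat_lit 95), (nat_lit 8504251)⟩],
 ⟨⟨[(nat_lit 40), (nat_lit 60)], [(nat_lit 0), (nat_lit 1539)], [((nat_lit 0), (nat_lit 0), (nat_lit 0)), ((nat_lit 1000), (nat_lit 478), (nat_lit 704))], ((nat_lit 48), (nat_lit 100), (nat_lit 69))⟩, (nat_lit 0), (nat_lit 102), (nat_lit 102), (nat_lit 0), (nat_lit 0), [(nat_lit 1445952806), (nat_lit 697407200)], [(nat_lit 0), (nat_lit 0)], [(nat_lit 26698031942), (nat_lit 27231375608), (nat_lit 29009350743), (nat_lit 29555337328), (nat_lit 27132727952), (nat_lit 27616285901), (nat_lit 29241362211), (nat_lit 29673394246)], (nat_lit 0), (nat_lit 0), (nat_lit 0), (nat_lit 0), (nat_lit 0), (nat_lit 0), [], [(nat_lit 1), (nat_lit 38), (nat_lit 249), (nat_lit 40), (nat_lit 12)]⟩,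
 ⟨⟨[(nat_lit 60), (nat_lit 100), (nat_lit 140)], [(nat_lit 0), (nat_lit 0), (nat_lit 2047)], [((nat_lit 0), (nat_lit 0), (nat_lit 0)), ((nat_lit 0), (nat_lit 0), (nat_lit 0)), ((nat_lit 1000), (nat_lit 993), (nat_lit 781))], ((nat_lit 95), (nat_lit 100), (nat_lit 65))⟩, (nat_lit 226977), (nat_lit 709), (nat_lit 709), (nat_lit 0), (nat_lit 1355802), [(nat_lit 413532000), (nat_lit 787500000), (nat_lit 1240092000)], [], [(nat_lit 4354331363), (nat_lit 4378204980), (nat_lit 4479690950), (nat_lit 4496791613), (nat_lit 4325698456), (nat_lit 4337093486), (nat_lit 4413968720), (nat_lit 4442612767)], (nat_lit 1271251), (nat_lit 1271251), (nat_lit 1271251), (nat_lit 1271251), (nat_lit 780000), (nat_lit 2581251), [(nat_lit 780000), (nat_lit 1435001), (nat_lit 1271251)], [(nat_lit 11), (nat_lit 55), (nat_lit 317), (nat_lit 100), (nat_lit 8)]⟩,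
 ⟨⟨[(nat_lit 120), (nat_lit 160), (nat_lit 180)], [(nat_lit 0), (nat_lit 0), (nat_lit 1613)], [((nat_lit 0), (nat_lit 0), (nat_lit 0)), ((nat_lit 0), (nat_lit 0), (nat_lit 0)), ((nat_lit 620), (nat_lit 1000), (nat_lit 670))], ((nat_lit 100), (nat_lit 65), (nat_lit 64))⟩, (nat_lit 16973), (nat_lit 300), (nat_lit 1777), (nat_lit 2893804), (nat_lit 3051329), [(nat_lit 310752000), (nat_lit 463008000), (nat_lit 548262000)], [], [(nat_lit 2350724795), (nat_lit 2325874055), (nat_lit 2190534966), (nat_lit 2165091230), (nat_lit 2277211565), (nat_lit 2397627574), (nat_lit 2645672250), (nat_lit 2771966136)], (nat_lit 1100000), (nat_lit 1271251), (nat_lit 422188), (nat_lit 1100000), (nat_lit 780000), (nat_lit 2581251), [(nat_lit 1695001), (nat_lit 1271251), (nat_lit 1271251)], [(nat_lit 28), (nat_lit 65), (nat_lit 530), (nat_lit 175), (nat_lit 12)]⟩⟩) (.trX (nat_lit 3) (nat_lit 0) (nat_lit 1) (nat_lit 36) (nat_lit 77) (nat_lit 100) (nat_lit 350) (.trZ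 (nat_lit 0) (nat_lit 2) (nat_lit 4) (nat_lit 100) (nat_lit 32) (nat_lit 89) (nat_lit 100) (.leaf ⟨(nat_lit 879), (nat_lit 81), (nat_lit 0), (nat_lit 40), (nat_lit 0), (nat_lit 3067), (nat_lit 940), (nat_lit 430), (nat_lit 0), (nat_lit 0), (nat_lit 351600), [((nat_lit 400), [((nat_lit 28), (nat_lit 1), (nat_lit 879))])], ⟨(nat_lit 8), false, true, true, (nat_lit 314), (nat_lit 0), (nat_lit 1582), [(nat_lit 1757165), (nat_lit 1749998), (nat_lit 1780481), (nat_lit 1774999), (nat_lit 1798140), (nat_lit 1787496), (nat_lit 1821456), (nat_lit 1812497)]⟩, ⟨(nat_lit 4), false, false, false, (nat_lit 148), (nat_lit 0), (nat_lit 1582), [(nat_lit 1314816), (nat_lit 1323036), (nat_lit 1337475), (nat_lit 1347379), (nat_lit 1398733), (nat_lit 1399999), (nat_lit 1421394), (nat_lit 1424345)]⟩, (nat_lit 4991306), (nat_lit 36704092), (nat_lit 23307440), (nat_lit 6988468), (nat_lit 4), (nat_lit 0), [⟨(nat_lit 1), (nat_lit 77), (nat_lit 36), (nat_lit 100), (nat_lit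 501458618)⟩], [], [], [],
 ⟨⟨[(nat_lit 40), (nat_lit 60)], [(nat_lit 0), (nat_lit 2136)], [((nat_lit 0), (nat_lit 0), (nat_lit 0)), ((nat_lit 1000), (nat_lit 343), (nat_lit 808))], ((nat_lit 37), (nat_lit 100), (nat_lit 75))⟩, (nat_lit 0), (nat_lit 89), (nat_lit 89), (nat_lit 0), (nat_lit 0), [(nat_lit 1443938801), (nat_lit 682621200)], [(nat_lit 0), (nat_lit 0)], [(nat_lit 27059551955), (nat_lit 27660037002), (nat_lit 28578740407), (nat_lit 29153442885), (nat_lit 27404087359), (nat_lit 27898196975), (nat_lit 28661536959), (nat_lit 29142953487)], (nat_lit 0), (nat_lit 0), (nat_lit 0), (nat_lit 0), (nat_lit 0), (nat_lit 0), [], [(nat_lit 1), (nat_lit 38), (nat_lit 249), (nat_lit 40), (nat_lit 11)]⟩,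
 ⟨⟨[(nat_lit 60), (nat_lit 100), (nat_lit 140)], [(nat_lit 0), (nat_lit 0), (nat_lit 2047)], [((nat_lit 0), (nat_lit 0), (nat_lit 0)), ((nat_lit 0), (nat_lit 0), (nat_lit 0)), ((nat_lit 1000), (nat_lit 993), (nat_lit 781))], ((nat_lit 95), (nat_lit 100), (nat_lit 65))⟩, (nat_lit 199407), (nat_lit 767), (nat_lit 767), (nat_lit 0), (nat_lit 1507246), [(nat_lit 397122000), (nat_lit 756250000), (nat_lit 1190882000)], [], [(nat_lit 4138685950), (nat_lit 4161333836), (nat_lit 4211023443), (nat_lit 4229688685), (nat_lit 4069746529), (nat_lit 4079115990), (nat_lit 4119300102), (nat_lit 4126575198)], (nat_lit 1271251), (nat_lit 1271251), (nat_lit 1271251), (nat_lit 1271251), (nat_lit 780000), (nat_lit 2581251), [(nat_lit 780000), (nat_lit 1435001), (nat_lit 1271251)], [(nat_lit 11), (nat_lit 55), (nat_lit 317), (nat_lit 100), (nat_lit 8)]⟩,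
 ⟨⟨[(nat_lit 120), (nat_lit 160), (nat_lit 180)], [(nat_lit 0), (nat_lit 0), (nat_lit 1613)], [((nat_lit 0), (nat_lit 0), (nat_lit 0)), ((nat_lit 0), (nat_lit 0), (nat_lit 0)), ((nat_lit 620), (nat_lit 1000), (nat_lit 670))], ((nat_lit 100), (nat_lit 65), (nat_lit 64))⟩, (nat_lit 17409), (nat_lit 300), (nat_lit 1922), (nat_lit 2968000), (nat_lit 3373337), [(nat_lit 318720000), (nat_lit 474880000), (nat_lit 562320000)], [], [(nat_lit 2477533641), (nat_lit 2451791102), (nat_lit 2385534216), (nat_lit 2359901381), (nat_lit 2412879340), (nat_lit 2536187372), (nat_lit 2694294820), (nat_lit 2821505828)], (nat_lit 1100000), (nat_lit 1271251), (nat_lit 631250), (nat_lit 1100000), (nat_lit 780000), (nat_lit 2581251), [(nat_lit 1695001), (nat_lit 1271251), (nat_lit 1271251)], [(nat_lit 28), (nat_lit 65), (nat_lit 566), (nat_lit 175), (nat_lit 13)]⟩⟩))))))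
noncomputable def c14_14 : Tr Lf :=
 (.stt (nat_lit 3) (.leaf ⟨(nat_lit 709), (nat_lit 238), (nat_lit 0), (nat_lit 53), (nat_lit 0), (nat_lit 2801), (nat_lit 1734), (nat_lit 712), (nat_lit 0), (nat_lit 0), (nat_lit 283600), [((nat_lit 400), [((nat_lit 28), (nat_lit 1), (nat_lit 709))])], ⟨(nat_lit 8), false, true, true, (nat_lit 333), (nat_lit 0), (nat_lit 2237), [(nat_lit 1784917), (nat_lit 1774999), (nat_lit 1807594), (nat_lit 1799902), (nat_lit 1870437), (nat_lit 1849996), (nat_lit 1893212), (nat_lit 1874997)]⟩, ⟨(nat_lit 3), true, false, false, (nat_lit 122), (nat_lit 0), (nat_lit 2237), [(nat_lit 1177178), (nat_lit 1196337), (nat_lit 1242721), (nat_lit 1268557), (nat_lit 1351885), (nat_lit 1349998), (nat_lit 1419294), (nat_lit 1424084)]⟩, (nat_lit 4757309), (nat_lit 36325213), (nat_lit 25572393), (nat_lit 5102394), (nat_lit 3), (nat_lit 0), [⟨(nat_lit 1), (nat_lit 74), (nat_lit 37), (nat_lit 100), (nat_lit 355698988)⟩], [⟨(nat_lit 0),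 (nat_lit 100), (nat_lit 32), (nat_lit 87), (nat_lit 56245126)⟩], [], [],
 ⟨⟨[(nat_lit 40), (nat_lit 60)], [(nat_lit 0), (nat_lit 1539)], [((nat_lit 0), (nat_lit 0), (nat_lit 0)), ((nat_lit 1000), (nat_lit 478), (nat_lit 704))], ((nat_lit 48), (nat_lit 100), (nat_lit 69))⟩, (nat_lit 0), (nat_lit 130), (nat_lit 130), (nat_lit 0), (nat_lit 0), [(nat_lit 1512414817), (nat_lit 1185345200)], [(nat_lit 0), (nat_lit 0)], [(nat_lit 27342292027), (nat_lit 28416112279), (nat_lit 30132674624), (nat_lit 31139395965), (nat_lit 27464765668), (nat_lit 28418963767), (nat_lit 29965261811), (nat_lit 30798760525)], (nat_lit 0), (nat_lit 0), (nat_lit 0), (nat_lit 0), (nat_lit 0), (nat_lit 0), [], [(nat_lit 1), (nat_lit 38), (nat_lit 249), (nat_lit 40), (nat_lit 12)]⟩,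
 ⟨⟨[(nat_lit 60), (nat_lit 100), (nat_lit 120)], [(nat_lit 0), (nat_lit 609), (nat_lit 1609)], [((nat_lit 0), (nat_lit 0), (nat_lit 0)), ((nat_lit 1000), (nat_lit 905), (nat_lit 238)), ((nat_lit 1000), (nat_lit 882), (nat_lit 668))], ((nat_lit 88), (nat_lit 100), (nat_lit 63))⟩, (nat_lit 1265064), (nat_lit 803), (nat_lit 803), (nat_lit 0), (nat_lit 1556629), [(nat_lit 955062000), (nat_lit 1818750000), (nat_lit 2318688000)], [], [(nat_lit 9973952889), (nat_lit 10075632396), (nat_lit 10409508951), (nat_lit 10493709789), (nat_lit 9760889754), (nat_lit 9818563491), (nat_lit 10046439382), (nat_lit 10090892291)], (nat_lit 1271251), (nat_lit 1271251), (nat_lit 1271251), (nat_lit 1271251), (nat_lit 0), (nat_lit 2401251), [(nat_lit 780000), (nat_lit 1435001), (nat_lit 1271251)], [(nat_lit 10), (nat_lit 54), (nat_lit 331), (nat_lit 100), (nat_lit 10)]⟩,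
 ⟨⟨[(nat_lit 140), (nat_lit 180), (nat_lit 200)], [(nat_lit 0), (nat_lit 0), (nat_lit 2835)], [((nat_lit 0), (nat_lit 0), (nat_lit 0)), ((nat_lit 0), (nat_lit 0), (nat_lit 0)), ((nat_lit 363), (nat_lit 1000), (nat_lit 798))], ((nat_lit 0), (nat_lit 0), (nat_lit 0))⟩, (nat_lit 14582), (nat_lit 300), (nat_lit 569), (nat_lit 4139301), (nat_lit 0), [(nat_lit 521626000), (nat_lit 745074000), (nat_lit 869200000)], [], [(nat_lit 4067490651), (nat_lit 3936598484), (nat_lit 3535159630), (nat_lit 3392327082), (nat_lit 3289051068), (nat_lit 3142778213), (nat_lit 2765264509), (nat_lit 2625473316)], (nat_lit 0), (nat_lit 0), (nat_lit 0), (nat_lit 0), (nat_lit 0), (nat_lit 0), [], [(nat_lit 32), (nat_lit 67), (nat_lit 401), (nat_lit 175), (nat_lit 9)]⟩⟩) (.leaf ⟨(nat_lit 642), (nat_lit 358), (nat_lit 0), (nat_lit 0), (nat_lit 0), (nat_lit 3303), (nat_lit 2153), (nat_lit 0), (nat_lit 0), (nat_lit 0), (nat_lit 217350), [((nat_lit 400), [((nat_lit 28), (nat_lit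 0), (nat_lit 263)), ((nat_lit 28), (nat_lit 1), (nat_lit 379))])], ⟨(nat_lit 8), false, true, true, (nat_lit 333), (nat_lit 0), (nat_lit 2237), [(nat_lit 1784917), (nat_lit 1774999), (nat_lit 1807594), (nat_lit 1799902), (nat_lit 1870437), (nat_lit 1849996), (nat_lit 1893212), (nat_lit 1874997)]⟩, ⟨(nat_lit 3), false, false, false, (nat_lit 122), (nat_lit 0), (nat_lit 2237), [(nat_lit 1177178), (nat_lit 1196337), (nat_lit 1242721), (nat_lit 1268557), (nat_lit 1351885), (nat_lit 1349998), (nat_lit 1419294), (nat_lit 1424084)]⟩, (nat_lit 4757309), (nat_lit 36325213), (nat_lit 25572393), (nat_lit 5102394), (nat_lit 3), (nat_lit 0), [⟨(nat_lit 1), (nat_lit 74), (nat_lit 37), (nat_lit 100), (nat_lit 358384018)⟩], [], [], [⟨(nat_lit 1), (nat_lit 100), (nat_lit 67), (nat_lit 88), (nat_lit 101895695)⟩],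
 ⟨⟨[(nat_lit 40), (nat_lit 60)], [(nat_lit 0), (nat_lit 1539)], [((nat_lit 0), (nat_lit 0), (nat_lit 0)), ((nat_lit 1000), (nat_lit 478), (nat_lit 704))], ((nat_lit 48), (nat_lit 100), (nat_lit 69))⟩, (nat_lit 0), (nat_lit 130), (nat_lit 130), (nat_lit 0), (nat_lit 0), [(nat_lit 1583586410), (nat_lit 1573153200)], [(nat_lit 0), (nat_lit 0)], [(nat_lit 27936707756), (nat_lit 29278917254), (nat_lit 31335456647), (nat_lit 32468372944), (nat_lit 27061139015), (nat_lit 28037365578), (nat_lit 29900741170), (nat_lit 30920370794)], (nat_lit 0), (nat_lit 0), (nat_lit 0), (nat_lit 0), (nat_lit 0), (nat_lit 0), [], [(nat_lit 1), (nat_lit 38), (nat_lit 249), (nat_lit 40), (nat_lit 12)]⟩,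
 ⟨⟨[(nat_lit 60), (nat_lit 100), (nat_lit 120)], [(nat_lit 0), (nat_lit 609), (nat_lit 1609)], [((nat_lit 0), (nat_lit 0), (nat_lit 0)), ((nat_lit 1000), (nat_lit 905), (nat_lit 238)), ((nat_lit 1000), (nat_lit 882), (nat_lit 668))], ((nat_lit 88), (nat_lit 100), (nat_lit 63))⟩, (nat_lit 1529698), (nat_lit 694), (nat_lit 694), (nat_lit 0), (nat_lit 1308604), [(nat_lit 1174956000), (nat_lit 2237500000), (nat_lit 2852544000)], [], [(nat_lit 11424837653), (nat_lit 11568266468), (nat_lit 12541351439), (nat_lit 12961264798), (nat_lit 11159188091), (nat_lit 11243423542), (nat_lit 12186070426), (nat_lit 12411639164)], (nat_lit 1271251), (nat_lit 1271251), (nat_lit 1271251), (nat_lit 1271251), (nat_lit 0), (nat_lit 2401251), [(nat_lit 780000), (nat_lit 1435001), (nat_lit 1271251)], [(nat_lit 10), (nat_lit 54), (nat_lit 317), (nat_lit 100), (nat_lit 9)]⟩,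
 Rw.none⟩))
noncomputable def c14_15 : Tr Lf :=
 (.trX (nat_lit 5) (nat_lit 3) (nat_lit 4) (nat_lit 92) (nat_lit 40) (nat_lit 100) (nat_lit 390) (.spl (nat_lit 1) (nat_lit 280) (.leaf ⟨(nat_lit 1000), (nat_lit 0), (nat_lit 0), (nat_lit 0), (nat_lit 0), (nat_lit 3126), (nat_lit 0), (nat_lit 0), (nat_lit 0), (nat_lit 0), (nat_lit 250000), [((nat_lit 400), [((nat_lit 28), (nat_lit 0), (nat_lit 1000))])], ⟨(nat_lit 7), false, true, true, (nat_lit 282), (nat_lit 0), (nat_lit 2237), [(nat_lit 1659577), (nat_lit 1649997), (nat_lit 1705063), (nat_lit 1699935), (nat_lit 1716590), (nat_lit 1699995), (nat_lit 1762141), (nat_lit 1749998)]⟩, ⟨(nat_lit 4), false, false, true, (nat_lit 165), (nat_lit 0), (nat_lit 2237), [(nat_lit 1351885), (nat_lit 1349998), (nat_lit 1419294), (nat_lit 1424084), (nat_lit 1408898), (nat_lit 1399996), (nat_lit 1477224), (nat_lit 1474999)]⟩, (nat_lit 5065397), (nat_lit 38375501), (nat_lit 20095518), (nat_lit 8528981), (nat_lit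 0), (nat_lit 0), [⟨(nat_lit 1), (nat_lit 85), (nat_lit 33), (nat_lit 100), (nat_lit 40968377)⟩], [], [], [],
 ⟨⟨[(nat_lit 40), (nat_lit 60)], [(nat_lit 0), (nat_lit 1539)], [((nat_lit 0), (nat_lit 0), (nat_lit 0)), ((nat_lit 1000), (nat_lit 478), (nat_lit 704))], ((nat_lit 48), (nat_lit 100), (nat_lit 69))⟩, (nat_lit 0), (nat_lit 67), (nat_lit 67), (nat_lit 0), (nat_lit 0), [(nat_lit 1563200003), (nat_lit 1046000000)], [(nat_lit 0), (nat_lit 0)], [(nat_lit 25243426000), (nat_lit 26391437366), (nat_lit 26758487868), (nat_lit 27814167224), (nat_lit 26079301196), (nat_lit 27159226178), (nat_lit 27503234542), (nat_lit 28495511774)], (nat_lit 0), (nat_lit 0), (nat_lit 0), (nat_lit 0), (nat_lit 0), (nat_lit 0), [], [(nat_lit 1), (nat_lit 38), (nat_lit 203), (nat_lit 0), (nat_lit 8)]⟩,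
 Rw.none,
 Rw.none⟩) (.trX (nat_lit 5) (nat_lit 1) (nat_lit 2) (nat_lit 92) (nat_lit 49) (nat_lit 100) (nat_lit 380) (.spl (nat_lit 2) (nat_lit 160) (.trX (nat_lit 5) (nat_lit 1) (nat_lit 2) (nat_lit 94) (nat_lit 59) (nat_lit 100) (nat_lit 370) (.spl (nat_lit 1) (nat_lit 300) (.leaf ⟨(nat_lit 1000), (nat_lit 0), (nat_lit 0), (nat_lit 0), (nat_lit 0), (nat_lit 3126), (nat_lit 0), (nat_lit 0), (nat_lit 0), (nat_lit 0), (nat_lit 250000), [((nat_lit 400), [((nat_lit 28), (nat_lit 0), (nat_lit 1000))])], ⟨(nat_lit 7), false, true, true, (nat_lit 296), (nat_lit 0), (nat_lit 2237), [(nat_lit 1705063), (nat_lit 1699935), (nat_lit 1726954), (nat_lit 1724051), (nat_lit 1762141), (nat_lit 1749998), (nat_lit 1784917), (nat_lit 1774999)]⟩, ⟨(nat_lit 4), false, false, true, (nat_lit 161), (nat_lit 0), (nat_lit 2237), [(nat_lit 1351885), (nat_lit 1349998), (nat_lit 1397434), (nat_lit 1399999), (nat_lit 1408898), (nat_lit 1399996), (nat_lit 1454449), (nat_lit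 1449998)]⟩, (nat_lit 5064335), (nat_lit 37509241), (nat_lit 21463668), (nat_lit 8027091), (nat_lit 0), (nat_lit 0), [], [⟨(nat_lit 1), (nat_lit 100), (nat_lit 31), (nat_lit 95), (nat_lit 32439566)⟩], [], [],
 ⟨⟨[(nat_lit 40), (nat_lit 60)], [(nat_lit 0), (nat_lit 1539)], [((nat_lit 0), (nat_lit 0), (nat_lit 0)), ((nat_lit 1000), (nat_lit 478), (nat_lit 704))], ((nat_lit 48), (nat_lit 100), (nat_lit 69))⟩, (nat_lit 0), (nat_lit 67), (nat_lit 67), (nat_lit 0), (nat_lit 0), [(nat_lit 1563200021), (nat_lit 1046000000)], [(nat_lit 0), (nat_lit 0)], [(nat_lit 25243426036), (nat_lit 26391437402), (nat_lit 26758487904), (nat_lit 27814167224), (nat_lit 26079301232), (nat_lit 27159226214), (nat_lit 27503234578), (nat_lit 28495511810)], (nat_lit 0), (nat_lit 0), (nat_lit 0), (nat_lit 0), (nat_lit 0), (nat_lit 0), [], [(nat_lit 1), (nat_lit 38), (nat_lit 203), (nat_lit 0), (nat_lit 8)]⟩,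
 Rw.none,
 Rw.none⟩) (.trX (nat_lit 5) (nat_lit 1) (nat_lit 2) (nat_lit 88) (nat_lit 68) (nat_lit 100) (nat_lit 350) (.stt (nat_lit 3) (.leaf ⟨(nat_lit 779), (nat_lit 154), (nat_lit 0), (nat_lit 67), (nat_lit 0), (nat_lit 3033), (nat_lit 1414), (nat_lit 927), (nat_lit 0), (nat_lit 0), (nat_lit 311600), [((nat_lit 400), [((nat_lit 28), (nat_lit 1), (nat_lit 779))])], ⟨(nat_lit 7), false, true, false, (nat_lit 306), (nat_lit 0), (nat_lit 2237), [(nat_lit 1726954), (nat_lit 1724051), (nat_lit 1748802), (nat_lit 1748125), (nat_lit 1784917), (nat_lit 1774999), (nat_lit 1807594), (nat_lit 1799902)]⟩, ⟨(nat_lit 4), true, false, true, (nat_lit 161), (nat_lit 0), (nat_lit 2237), [(nat_lit 1351885), (nat_lit 1349998), (nat_lit 1397434), (nat_lit 1399999), (nat_lit 1408898), (nat_lit 1399996), (nat_lit 1454449), (nat_lit 1449998)]⟩, (nat_lit 5084521), (nat_lit 36789917), (nat_lit 22293044), (nat_lit 7917039), (nat_lit 4), (nat_lit 0), [], [⟨(nat_lit 1),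 (nat_lit 100), (nat_lit 31), (nat_lit 95), (nat_lit 267432819)⟩], [], [⟨(nat_lit 0), (nat_lit 100), (nat_lit 80), (nat_lit 60), (nat_lit 19670123)⟩],
 ⟨⟨[(nat_lit 40), (nat_lit 60)], [(nat_lit 0), (nat_lit 1539)], [((nat_lit 0), (nat_lit 0), (nat_lit 0)), ((nat_lit 1000), (nat_lit 478), (nat_lit 704))], ((nat_lit 48), (nat_lit 100), (nat_lit 69))⟩, (nat_lit 0), (nat_lit 67), (nat_lit 67), (nat_lit 0), (nat_lit 0), [(nat_lit 1484218859), (nat_lit 978341200)], [(nat_lit 0), (nat_lit 0)], [(nat_lit 25151924395), (nat_lit 26285056598), (nat_lit 26654676039), (nat_lit 27696919892), (nat_lit 25990501613), (nat_lit 27056931644), (nat_lit 27403882156), (nat_lit 28384743360)], (nat_lit 0), (nat_lit 0), (nat_lit 0), (nat_lit 0), (nat_lit 0), (nat_lit 0), [], [(nat_lit 1), (nat_lit 38), (nat_lit 203), (nat_lit 0), (nat_lit 8)]⟩,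
 ⟨⟨[(nat_lit 60), (nat_lit 100), (nat_lit 120)], [(nat_lit 0), (nat_lit 609), (nat_lit 1609)], [((nat_lit 0), (nat_lit 0), (nat_lit 0)), ((nat_lit 1000), (nat_lit 905), (nat_lit 238)), ((nat_lit 1000), (nat_lit 882), (nat_lit 668))], ((nat_lit 88), (nat_lit 100), (nat_lit 63))⟩, (nat_lit 1085581), (nat_lit 808), (nat_lit 808), (nat_lit 0), (nat_lit 1553739), [(nat_lit 725322000), (nat_lit 1381250000), (nat_lit 1760928000)], [], [(nat_lit 6654878099), (nat_lit 6741503509), (nat_lit 6818598946), (nat_lit 6917047124), (nat_lit 6615913473), (nat_lit 6799326591), (nat_lit 6974051696), (nat_lit 7148776801)], (nat_lit 1271251), (nat_lit 1271251), (nat_lit 1271251), (nat_lit 1271251), (nat_lit 0), (nat_lit 2471876), [(nat_lit 780000), (nat_lit 1435001), (nat_lit 1271251)], [(nat_lit 10), (nat_lit 54), (nat_lit 326), (nat_lit 100), (nat_lit 10)]⟩,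
 ⟨⟨[(nat_lit 140), (nat_lit 180), (nat_lit 200)], [(nat_lit 0), (nat_lit 0), (nat_lit 2835)], [((nat_lit 0), (nat_lit 0), (nat_lit 0)), ((nat_lit 0), (nat_lit 0), (nat_lit 0)), ((nat_lit 363), (nat_lit 1000), (nat_lit 798))], ((nat_lit 0), (nat_lit 0), (nat_lit 0))⟩, (nat_lit 18434), (nat_lit 300), (nat_lit 462), (nat_lit 5232700), (nat_lit 0), [(nat_lit 659414000), (nat_lit 941886000), (nat_lit 1098800000)], [], [(nat_lit 4437516149), (nat_lit 4298625960), (nat_lit 4387667786), (nat_lit 4250406044), (nat_lit 3493549265), (nat_lit 3347653329), (nat_lit 3412723567), (nat_lit 3265123005)], (nat_lit 0), (nat_lit 0), (nat_lit 0), (nat_lit 0), (nat_lit 0), (nat_lit 0), [], [(nat_lit 32), (nat_lit 67), (nat_lit 428), (nat_lit 200), (nat_lit 9)]⟩⟩) (.leaf ⟨(nat_lit 845), (nat_lit 155), (nat_lit 0), (nat_lit 0), (nat_lit 0), (nat_lit 3169), (nat_lit 993), (nat_lit 0), (nat_lit 0), (nat_lit 0), (nat_lit 211250), [((nat_lit 400), [((nat_lit 28), (nat_lit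 0), (nat_lit 845))])], ⟨(nat_lit 7), false, true, false, (nat_lit 306), (nat_lit 0), (nat_lit 2237), [(nat_lit 1726954), (nat_lit 1724051), (nat_lit 1748802), (nat_lit 1748125), (nat_lit 1784917), (nat_lit 1774999), (nat_lit 1807594), (nat_lit 1799902)]⟩, ⟨(nat_lit 4), false, false, true, (nat_lit 161), (nat_lit 0), (nat_lit 2237), [(nat_lit 1351885), (nat_lit 1349998), (nat_lit 1397434), (nat_lit 1399999), (nat_lit 1408898), (nat_lit 1399996), (nat_lit 1454449), (nat_lit 1449998)]⟩, (nat_lit 5084521), (nat_lit 36789917), (nat_lit 22293044), (nat_lit 7917039), (nat_lit 4), (nat_lit 0), [], [⟨(nat_lit 1), (nat_lit 100), (nat_lit 31), (nat_lit 95), (nat_lit 154209923)⟩], [⟨(nat_lit 1), (nat_lit 68), (nat_lit 88), (nat_lit 100), (nat_lit 29856769)⟩], [],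
 ⟨⟨[(nat_lit 40), (nat_lit 60)], [(nat_lit 0), (nat_lit 1539)], [((nat_lit 0), (nat_lit 0), (nat_lit 0)), ((nat_lit 1000), (nat_lit 478), (nat_lit 704))], ((nat_lit 48), (nat_lit 100), (nat_lit 69))⟩, (nat_lit 0), (nat_lit 67), (nat_lit 67), (nat_lit 0), (nat_lit 0), [(nat_lit 1599594001), (nat_lit 1392580000)], [(nat_lit 0), (nat_lit 0)], [(nat_lit 25285484863), (nat_lit 26440375842), (nat_lit 26806238555), (nat_lit 27868378356), (nat_lit 26120110737), (nat_lit 27206275320), (nat_lit 27548923336), (nat_lit 28546596294)], (nat_lit 0), (nat_lit 0), (nat_lit 0), (nat_lit 0), (nat_lit 0), (nat_lit 0), [], [(nat_lit 1), (nat_lit 38), (nat_lit 203), (nat_lit 0), (nat_lit 8)]⟩,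
 ⟨⟨[(nat_lit 60), (nat_lit 100), (nat_lit 120)], [(nat_lit 0), (nat_lit 609), (nat_lit 1609)], [((nat_lit 0), (nat_lit 0), (nat_lit 0)), ((nat_lit 1000), (nat_lit 905), (nat_lit 238)), ((nat_lit 1000), (nat_lit 882), (nat_lit 668))], ((nat_lit 88), (nat_lit 100), (nat_lit 63))⟩, (nat_lit 313939), (nat_lit 699), (nat_lit 699), (nat_lit 0), (nat_lit 1308604), [(nat_lit 508710000), (nat_lit 968750000), (nat_lit 1235040000)], [], [(nat_lit 5033540411), (nat_lit 5096544667), (nat_lit 5152286629), (nat_lit 5209954423), (nat_lit 4905763020), (nat_lit 4936583411), (nat_lit 4962693199), (nat_lit 5015065564)], (nat_lit 1271251), (nat_lit 1271251), (nat_lit 1271251), (nat_lit 1271251), (nat_lit 0), (nat_lit 2471876), [(nat_lit 780000), (nat_lit 1435001), (nat_lit 1271251)], [(nat_lit 10), (nat_lit 54), (nat_lit 317), (nat_lit 100), (nat_lit 10)]⟩,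
 Rw.none⟩))))) (.spl (nat_lit 1) (nat_lit 300) (.leaf ⟨(nat_lit 942), (nat_lit 37), (nat_lit 0), (nat_lit 21), (nat_lit 0), (nat_lit 3142), (nat_lit 491), (nat_lit 243), (nat_lit 0), (nat_lit 0), (nat_lit 235500), [((nat_lit 400), [((nat_lit 28), (nat_lit 0), (nat_lit 942))])], ⟨(nat_lit 7), false, true, true, (nat_lit 296), (nat_lit 0), (nat_lit 2237), [(nat_lit 1705063), (nat_lit 1699935), (nat_lit 1726954), (nat_lit 1724051), (nat_lit 1762141), (nat_lit 1749998), (nat_lit 1784917), (nat_lit 1774999)]⟩, ⟨(nat_lit 4), false, false, true, (nat_lit 175), (nat_lit 0), (nat_lit 2237), [(nat_lit 1397434), (nat_lit 1399999), (nat_lit 1419294), (nat_lit 1424084), (nat_lit 1454449), (nat_lit 1449998), (nat_lit 1477224), (nat_lit 1474999)]⟩, (nat_lit 5181668), (nat_lit 36809599), (nat_lit 21150924), (nat_lit 9039477), (nat_lit 4), (nat_lit 0), [], [], [], [],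
 ⟨⟨[(nat_lit 40), (nat_lit 60)], [(nat_lit 0), (nat_lit 1539)], [((nat_lit 0), (nat_lit 0), (nat_lit 0)), ((nat_lit 1000), (nat_lit 478), (nat_lit 704))], ((nat_lit 48), (nat_lit 100), (nat_lit 69))⟩, (nat_lit 0), (nat_lit 67), (nat_lit 67), (nat_lit 0), (nat_lit 0), [(nat_lit 1576818442), (nat_lit 1175688000)], [(nat_lit 0), (nat_lit 0)], [(nat_lit 25259228782), (nat_lit 26409800004), (nat_lit 26776408538), (nat_lit 27834338808), (nat_lit 26094639114), (nat_lit 27176885808), (nat_lit 27520387996), (nat_lit 28514672940)], (nat_lit 0), (nat_lit 0), (nat_lit 0), (nat_lit 0), (nat_lit 0), (nat_lit 0), [], [(nat_lit 1), (nat_lit 38), (nat_lit 203), (nat_lit 0), (nat_lit 8)]⟩,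
 ⟨⟨[(nat_lit 60), (nat_lit 100), (nat_lit 140)], [(nat_lit 0), (nat_lit 0), (nat_lit 2047)], [((nat_lit 0), (nat_lit 0), (nat_lit 0)), ((nat_lit 0), (nat_lit 0), (nat_lit 0)), ((nat_lit 1000), (nat_lit 993), (nat_lit 781))], ((nat_lit 95), (nat_lit 100), (nat_lit 65))⟩, (nat_lit 52668), (nat_lit 863), (nat_lit 863), (nat_lit 0), (nat_lit 1507511), [(nat_lit 190356000), (nat_lit 362500000), (nat_lit 570836000)], [], [(nat_lit 2114930129), (nat_lit 2124411587), (nat_lit 2133893044), (nat_lit 2141078634), (nat_lit 1980790489), (nat_lit 2011012515), (nat_lit 2041234541), (nat_lit 2067234030)], (nat_lit 1271251), (nat_lit 1271251), (nat_lit 1271251), (nat_lit 1271251), (nat_lit 0), (nat_lit 2683751), [(nat_lit 780000), (nat_lit 1435001), (nat_lit 1271251)], [(nat_lit 11), (nat_lit 55), (nat_lit 341), (nat_lit 100), (nat_lit 9)]⟩,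
 ⟨⟨[(nat_lit 120), (nat_lit 160), (nat_lit 180)], [(nat_lit 0), (nat_lit 0), (nat_lit 1613)], [((nat_lit 0), (nat_lit 0), (nat_lit 0)), ((nat_lit 0), (nat_lit 0), (nat_lit 0)), ((nat_lit 620), (nat_lit 1000), (nat_lit 670))], ((nat_lit 100), (nat_lit 65), (nat_lit 64))⟩, (nat_lit 9139), (nat_lit 300), (nat_lit 1961), (nat_lit 1558205), (nat_lit 3373337), [(nat_lit 167328000), (nat_lit 249312000), (nat_lit 295218000)], [], [(nat_lit 1270185180), (nat_lit 1257137106), (nat_lit 1244089032), (nat_lit 1232336870), (nat_lit 1334377026), (nat_lit 1406578311), (nat_lit 1478778539), (nat_lit 1552336340)], (nat_lit 1100000), (nat_lit 1271251), (nat_lit 1100000), (nat_lit 1442501), (nat_lit 0), (nat_lit 2683751), [(nat_lit 1695001), (nat_lit 1271251), (nat_lit 1271251)], [(nat_lit 28), (nat_lit 65), (nat_lit 586), (nat_lit 200), (nat_lit 14)]⟩⟩) (.trZ (nat_lit 1) (nat_lit 2) (nat_lit 5) (nat_lit 100) (nat_lit 88) (nat_lit 32) (nat_lit 10) (.trX (nat_lit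 5) (nat_lit 1) (nat_lit 2) (nat_lit 87) (nat_lit 59) (nat_lit 100) (nat_lit 370) (.leaf ⟨(nat_lit 833), (nat_lit 125), (nat_lit 0), (nat_lit 42), (nat_lit 0), (nat_lit 3173), (nat_lit 1013), (nat_lit 417), (nat_lit 0), (nat_lit 0), (nat_lit 208250), [((nat_lit 400), [((nat_lit 28), (nat_lit 0), (nat_lit 833))])], ⟨(nat_lit 7), false, true, false, (nat_lit 306), (nat_lit 0), (nat_lit 2237), [(nat_lit 1726954), (nat_lit 1724051), (nat_lit 1748802), (nat_lit 1748125), (nat_lit 1784917), (nat_lit 1774999), (nat_lit 1807594), (nat_lit 1799902)]⟩, ⟨(nat_lit 4), false, false, true, (nat_lit 175), (nat_lit 0), (nat_lit 2237), [(nat_lit 1397434), (nat_lit 1399999), (nat_lit 1419294), (nat_lit 1424084), (nat_lit 1454449), (nat_lit 1449998), (nat_lit 1477224), (nat_lit 1474999)]⟩, (nat_lit 5200919), (nat_lit 36118106), (nat_lit 21966645), (nat_lit 8915249), (nat_lit 4), (nat_lit 0), [], [], [], [],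
 ⟨⟨[(nat_lit 40), (nat_lit 60)], [(nat_lit 0), (nat_lit 1539)], [((nat_lit 0), (nat_lit 0), (nat_lit 0)), ((nat_lit 1000), (nat_lit 478), (nat_lit 704))], ((nat_lit 48), (nat_lit 100), (nat_lit 69))⟩, (nat_lit 0), (nat_lit 67), (nat_lit 67), (nat_lit 0), (nat_lit 0), [(nat_lit 1602411603), (nat_lit 1419412000)], [(nat_lit 0), (nat_lit 0)], [(nat_lit 25288261543), (nat_lit 26443792486), (nat_lit 26809544707), (nat_lit 27873421252), (nat_lit 26122771201), (nat_lit 27209516212), (nat_lit 27552037684), (nat_lit 28550772160)], (nat_lit 0), (nat_lit 0), (nat_lit 0), (nat_lit 0), (nat_lit 0), (nat_lit 0), [], [(nat_lit 1), (nat_lit 38), (nat_lit 203), (nat_lit 0), (nat_lit 8)]⟩,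
 ⟨⟨[(nat_lit 60), (nat_lit 100), (nat_lit 120)], [(nat_lit 0), (nat_lit 609), (nat_lit 1609)], [((nat_lit 0), (nat_lit 0), (nat_lit 0)), ((nat_lit 1000), (nat_lit 905), (nat_lit 238)), ((nat_lit 1000), (nat_lit 882), (nat_lit 668))], ((nat_lit 88), (nat_lit 100), (nat_lit 63))⟩, (nat_lit 655491), (nat_lit 746), (nat_lit 746), (nat_lit 0), (nat_lit 1416934), [(nat_lit 548094000), (nat_lit 1043750000), (nat_lit 1330656000)], [], [(nat_lit 5285461580), (nat_lit 5349217676), (nat_lit 5405962833), (nat_lit 5462707991), (nat_lit 5358763960), (nat_lit 5391569367), (nat_lit 5423122640), (nat_lit 5542414995)], (nat_lit 1271251), (nat_lit 1271251), (nat_lit 1271251), (nat_lit 1271251), (nat_lit 54688), (nat_lit 2630938), [(nat_lit 780000), (nat_lit 1435001), (nat_lit 1271251)], [(nat_lit 10), (nat_lit 54), (nat_lit 317), (nat_lit 100), (nat_lit 10)]⟩,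
 ⟨⟨[(nat_lit 120), (nat_lit 160), (nat_lit 180)], [(nat_lit 0), (nat_lit 0), (nat_lit 1613)], [((nat_lit 0), (nat_lit 0), (nat_lit 0)), ((nat_lit 0), (nat_lit 0), (nat_lit 0)), ((nat_lit 620), (nat_lit 1000), (nat_lit 670))], ((nat_lit 100), (nat_lit 65), (nat_lit 64))⟩, (nat_lit 18279), (nat_lit 300), (nat_lit 2075), (nat_lit 3116400), (nat_lit 3605252), [(nat_lit 334656000), (nat_lit 498624000), (nat_lit 590436000)], [], [(nat_lit 3240240967), (nat_lit 3215760659), (nat_lit 3191280352), (nat_lit 3166819050), (nat_lit 2778005203), (nat_lit 2753844351), (nat_lit 2823604215), (nat_lit 2953327867)], (nat_lit 1100000), (nat_lit 1271251), (nat_lit 1100000), (nat_lit 1442501), (nat_lit 54688), (nat_lit 2630938), [(nat_lit 1695001), (nat_lit 1271251), (nat_lit 1271251)], [(nat_lit 28), (nat_lit 65), (nat_lit 613), (nat_lit 200), (nat_lit 14)]⟩⟩))))))))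
noncomputable def c14_16 : Tr Lf :=
 (.spl (nat_lit 4) (nat_lit 220) (.leaf ⟨(nat_lit 1000), (nat_lit 0), (nat_lit 0), (nat_lit 0), (nat_lit 0), (nat_lit 3127), (nat_lit 0), (nat_lit 0), (nat_lit 0), (nat_lit 0), (nat_lit 250000), [((nat_lit 400), [((nat_lit 28), (nat_lit 0), (nat_lit 1000))])], ⟨(nat_lit 7), false, true, true, (nat_lit 282), (nat_lit 0), (nat_lit 2237), [(nat_lit 1659577), (nat_lit 1649997), (nat_lit 1705063), (nat_lit 1699935), (nat_lit 1716590), (nat_lit 1699995), (nat_lit 1762141), (nat_lit 1749998)]⟩, ⟨(nat_lit 5), false, false, true, (nat_lit 177), (nat_lit 0), (nat_lit 2237), [(nat_lit 1408898), (nat_lit 1399996), (nat_lit 1454449), (nat_lit 1449998), (nat_lit 1437404), (nat_lit 1424994), (nat_lit 1482955), (nat_lit 1474996)]⟩, (nat_lit 5158418), (nat_lit 37780321), (nat_lit 19861131), (nat_lit 9358548), (nat_lit 0), (nat_lit 0), [], [⟨(nat_lit 1), (nat_lit 100), (nat_lit 31), (nat_lit 95), (nat_lit 73016686)⟩], [],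 [],
 ⟨⟨[(nat_lit 40), (nat_lit 60)], [(nat_lit 0), (nat_lit 1539)], [((nat_lit 0), (nat_lit 0), (nat_lit 0)), ((nat_lit 1000), (nat_lit 478), (nat_lit 704))], ((nat_lit 48), (nat_lit 100), (nat_lit 69))⟩, (nat_lit 0), (nat_lit 63), (nat_lit 63), (nat_lit 0), (nat_lit 0), [(nat_lit 1563200164), (nat_lit 1046000000)], [(nat_lit 0), (nat_lit 0)], [(nat_lit 26078557833), (nat_lit 27158627922), (nat_lit 27502604650), (nat_lit 28496219840), (nat_lit 26496480904), (nat_lit 27542500359), (nat_lit 27874954012), (nat_lit 28837006276)], (nat_lit 0), (nat_lit 0), (nat_lit 0), (nat_lit 0), (nat_lit 0), (nat_lit 0), [], [(nat_lit 1), (nat_lit 38), (nat_lit 203), (nat_lit 0), (nat_lit 8)]⟩,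
 Rw.none,
 Rw.none⟩) (.trZ (nat_lit 3) (nat_lit 4) (nat_lit 5) (nat_lit 100) (nat_lit 92) (nat_lit 49) (nat_lit 20) (.spl (nat_lit 4) (nat_lit 240) (.leaf ⟨(nat_lit 1000), (nat_lit 0), (nat_lit 0), (nat_lit 0), (nat_lit 0), (nat_lit 3186), (nat_lit 0), (nat_lit 0), (nat_lit 0), (nat_lit 0), (nat_lit 250000), [((nat_lit 400), [((nat_lit 28), (nat_lit 0), (nat_lit 1000))])], ⟨(nat_lit 7), false, true, true, (nat_lit 282), (nat_lit 0), (nat_lit 2237), [(nat_lit 1659577), (nat_lit 1649997), (nat_lit 1705063), (nat_lit 1699935), (nat_lit 1716590), (nat_lit 1699995), (nat_lit 1762141), (nat_lit 1749998)]⟩, ⟨(nat_lit 5), false, false, true, (nat_lit 187), (nat_lit 0), (nat_lit 2237), [(nat_lit 1437404), (nat_lit 1424994), (nat_lit 1482955), (nat_lit 1474996), (nat_lit 1465911), (nat_lit 1449992), (nat_lit 1511462), (nat_lit 1499995)]⟩, (nat_lit 5239811), (nat_lit 37214166), (nat_lit 19633977), (nat_lit 10151857), (nat_lit 0), (nat_lit 0), [], [⟨(nat_lit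 1), (nat_lit 99), (nat_lit 44), (nat_lit 100), (nat_lit 114220361)⟩], [], [],
 ⟨⟨[(nat_lit 40), (nat_lit 60)], [(nat_lit 0), (nat_lit 1539)], [((nat_lit 0), (nat_lit 0), (nat_lit 0)), ((nat_lit 1000), (nat_lit 478), (nat_lit 704))], ((nat_lit 48), (nat_lit 100), (nat_lit 69))⟩, (nat_lit 0), (nat_lit 61), (nat_lit 61), (nat_lit 0), (nat_lit 0), [(nat_lit 1563200026), (nat_lit 1046000000)], [(nat_lit 0), (nat_lit 0)], [(nat_lit 26451746120), (nat_lit 27510036963), (nat_lit 27836356555), (nat_lit 28904378348), (nat_lit 26868812098), (nat_lit 27894629140), (nat_lit 28207291362), (nat_lit 29242567576)], (nat_lit 0), (nat_lit 0), (nat_lit 0), (nat_lit 0), (nat_lit 0), (nat_lit 0), [], [(nat_lit 1), (nat_lit 38), (nat_lit 203), (nat_lit 0), (nat_lit 8)]⟩,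
 Rw.none,
 Rw.none⟩) (.trZ (nat_lit 3) (nat_lit 4) (nat_lit 5) (nat_lit 100) (nat_lit 94) (nat_lit 59) (nat_lit 30) (.spl (nat_lit 3) (nat_lit 300) (.leaf ⟨(nat_lit 1000), (nat_lit 0), (nat_lit 0), (nat_lit 0), (nat_lit 0), (nat_lit 3205), (nat_lit 0), (nat_lit 0), (nat_lit 0), (nat_lit 0), (nat_lit 250000), [((nat_lit 400), [((nat_lit 28), (nat_lit 0), (nat_lit 1000))])], ⟨(nat_lit 7), false, true, true, (nat_lit 277), (nat_lit 0), (nat_lit 2237), [(nat_lit 1659577), (nat_lit 1649997), (nat_lit 1705063), (nat_lit 1699935), (nat_lit 1688084), (nat_lit 1674997), (nat_lit 1733634), (nat_lit 1724999)]⟩, ⟨(nat_lit 6), false, false, true, (nat_lit 195), (nat_lit 0), (nat_lit 2237), [(nat_lit 1465911), (nat_lit 1449992), (nat_lit 1511462), (nat_lit 1499995), (nat_lit 1480164), (nat_lit 1462492), (nat_lit 1525715), (nat_lit 1512494)]⟩, (nat_lit 5280877), (nat_lit 37167424), (nat_lit 18998254), (nat_lit 10834322), (nat_lit 0), (nat_lit 0), [], [⟨(nat_lit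 1), (nat_lit 99), (nat_lit 44), (nat_lit 100), (nat_lit 386924130)⟩], [], [],
 ⟨⟨[(nat_lit 40), (nat_lit 60)], [(nat_lit 0), (nat_lit 1539)], [((nat_lit 0), (nat_lit 0), (nat_lit 0)), ((nat_lit 1000), (nat_lit 478), (nat_lit 704))], ((nat_lit 48), (nat_lit 100), (nat_lit 69))⟩, (nat_lit 0), (nat_lit 57), (nat_lit 57), (nat_lit 0), (nat_lit 0), [(nat_lit 1563200004), (nat_lit 1046000000)], [(nat_lit 0), (nat_lit 0)], [(nat_lit 26854130013), (nat_lit 27914113450), (nat_lit 27524268098), (nat_lit 28588896115), (nat_lit 27162733635), (nat_lit 28223768184), (nat_lit 27819639010), (nat_lit 28884682550)], (nat_lit 0), (nat_lit 0), (nat_lit 0), (nat_lit 0), (nat_lit 0), (nat_lit 0), [], [(nat_lit 1), (nat_lit 38), (nat_lit 203), (nat_lit 0), (nat_lit 8)]⟩,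
 Rw.none,
 Rw.none⟩) (.trZ (nat_lit 3) (nat_lit 4) (nat_lit 5) (nat_lit 100) (nat_lit 88) (nat_lit 68) (nat_lit 50) (.spl (nat_lit 2) (nat_lit 140) (.emL (nat_lit 4) (nat_lit 0) (nat_lit 2) (nat_lit 44) (nat_lit 100) (nat_lit 96)) (.spl (nat_lit 0) (nat_lit 390) (.leaf ⟨(nat_lit 934), (nat_lit 45), (nat_lit 0), (nat_lit 21), (nat_lit 0), (nat_lit 3193), (nat_lit 654), (nat_lit 294), (nat_lit 0), (nat_lit 0), (nat_lit 233500), [((nat_lit 390), [((nat_lit 28), (nat_lit 0), (nat_lit 934))])], ⟨(nat_lit 7), false, true, true, (nat_lit 289), (nat_lit 1581), (nat_lit 2237), [(nat_lit 1688086), (nat_lit 1683218), (nat_lit 1733634), (nat_lit 1729848), (nat_lit 1716594), (nat_lit 1710536), (nat_lit 1762142), (nat_lit 1757166)]⟩, ⟨(nat_lit 6), false, false, true, (nat_lit 202), (nat_lit 1581), (nat_lit 2237), [(nat_lit 1488691), (nat_lit 1484689), (nat_lit 1511466), (nat_lit 1508004), (nat_lit 1502945), (nat_lit 1498348), (nat_lit 1525719), (nat_lit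 1521663)]⟩, (nat_lit 5360193), (nat_lit 35952135), (nat_lit 19900975), (nat_lit 11146890), (nat_lit 6), (nat_lit 0), [], [⟨(nat_lit 1), (nat_lit 99), (nat_lit 44), (nat_lit 100), (nat_lit 353737713)⟩], [], [],
 ⟨⟨[(nat_lit 40), (nat_lit 60)], [(nat_lit 0), (nat_lit 1539)], [((nat_lit 0), (nat_lit 0), (nat_lit 0)), ((nat_lit 1000), (nat_lit 478), (nat_lit 704))], ((nat_lit 48), (nat_lit 100), (nat_lit 69))⟩, (nat_lit 0), (nat_lit 55), (nat_lit 55), (nat_lit 0), (nat_lit 0), [(nat_lit 1578696801), (nat_lit 1193576000)], [(nat_lit 0), (nat_lit 0)], [(nat_lit 27563967116), (nat_lit 28053887147), (nat_lit 28233537757), (nat_lit 28732075430), (nat_lit 27859154281), (nat_lit 28340294259), (nat_lit 28515525537), (nat_lit 29023535744)], (nat_lit 0), (nat_lit 0), (nat_lit 0), (nat_lit 0), (nat_lit 0), (nat_lit 0), [], [(nat_lit 1), (nat_lit 38), (nat_lit 203), (nat_lit 0), (nat_lit 7)]⟩,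
 ⟨⟨[(nat_lit 80), (nat_lit 120), (nat_lit 160)], [(nat_lit 0), (nat_lit 0), (nat_lit 2132)], [((nat_lit 0), (nat_lit 0), (nat_lit 0)), ((nat_lit 0), (nat_lit 0), (nat_lit 0)), ((nat_lit 858), (nat_lit 1000), (nat_lit 713))], ((nat_lit 100), (nat_lit 91), (nat_lit 64))⟩, (nat_lit 151719), (nat_lit 971), (nat_lit 971), (nat_lit 0), (nat_lit 1671523), [(nat_lit 309408000), (nat_lit 525888000), (nat_lit 783552000)], [], [(nat_lit 2227615485), (nat_lit 2221218115), (nat_lit 2227626759), (nat_lit 2220021683), (nat_lit 2292784375), (nat_lit 2400084833), (nat_lit 2360195094), (nat_lit 2458321892)], (nat_lit 1271251), (nat_lit 1271251), (nat_lit 1271251), (nat_lit 1271251), (nat_lit 292188), (nat_lit 2852813), [(nat_lit 1100000), (nat_lit 1785001), (nat_lit 1271251)], [(nat_lit 18), (nat_lit 59), (nat_lit 483), (nat_lit 250), (nat_lit 12)]⟩,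
 ⟨⟨[(nat_lit 140), (nat_lit 180), (nat_lit 200)], [(nat_lit 0), (nat_lit 608), (nat_lit 3317)], [((nat_lit 0), (nat_lit 0), (nat_lit 0)), ((nat_lit 913), (nat_lit 1000), (nat_lit 217)), ((nat_lit 385), (nat_lit 1000), (nat_lit 814))], ((nat_lit 0), (nat_lit 0), (nat_lit 0))⟩, (nat_lit 48493), (nat_lit 300), (nat_lit 2209), (nat_lit 1476302), (nat_lit 3850487), [(nat_lit 206682000), (nat_lit 295218000), (nat_lit 344400000)], [], [(nat_lit 1156076954), (nat_lit 1130529806), (nat_lit 1152635132), (nat_lit 1128168574), (nat_lit 973556259), (nat_lit 948692653), (nat_lit 971523888), (nat_lit 946527927)], (nat_lit 936250), (nat_lit 1100000), (nat_lit 1271251), (nat_lit 1271251), (nat_lit 292188), (nat_lit 2852813), [(nat_lit 1977501), (nat_lit 1271251), (nat_lit 1271251)], [(nat_lit 32), (nat_lit 67), (nat_lit 653), (nat_lit 200), (nat_lit 13)]⟩⟩) (.emL (nat_lit 4) (nat_lit 0) (nat_lit 2) (nat_lit 31) (nat_lit 100) (nat_lit 99))))))))))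
noncomputable def c14_17 : Tr Lf :=
 (.trX (nat_lit 5) (nat_lit 1) (nat_lit 2) (nat_lit 94) (nat_lit 59) (nat_lit 100) (nat_lit 370) (.stt (nat_lit 3) (.leaf ⟨(nat_lit 918), (nat_lit 0), (nat_lit 0), (nat_lit 82), (nat_lit 0), (nat_lit 3143), (nat_lit 695), (nat_lit 1297), (nat_lit 0), (nat_lit 0), (nat_lit 229500), [((nat_lit 400), [((nat_lit 28), (nat_lit 0), (nat_lit 918))])], ⟨(nat_lit 7), false, true, false, (nat_lit 301), (nat_lit 0), (nat_lit 2237), [(nat_lit 1705063), (nat_lit 1699935), (nat_lit 1748802), (nat_lit 1748125), (nat_lit 1762141), (nat_lit 1749998), (nat_lit 1807594), (nat_lit 1799902)]⟩, ⟨(nat_lit 5), true, false, true, (nat_lit 185), (nat_lit 0), (nat_lit 2237), [(nat_lit 1408898), (nat_lit 1399996), (nat_lit 1454449), (nat_lit 1449998), (nat_lit 1480164), (nat_lit 1462492), (nat_lit 1525715), (nat_lit 1512494)]⟩, (nat_lit 5266560), (nat_lit 35983604), (nat_lit 21331804), (nat_lit 9684592), (nat_lit 0), (nat_lit 0), [],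 [⟨(nat_lit 1), (nat_lit 100), (nat_lit 31), (nat_lit 95), (nat_lit 154573777)⟩], [], [⟨(nat_lit 0), (nat_lit 100), (nat_lit 87), (nat_lit 61), (nat_lit 67379781)⟩],
 ⟨⟨[(nat_lit 40), (nat_lit 60)], [(nat_lit 0), (nat_lit 1539)], [((nat_lit 0), (nat_lit 0), (nat_lit 0)), ((nat_lit 1000), (nat_lit 478), (nat_lit 704))], ((nat_lit 48), (nat_lit 100), (nat_lit 69))⟩, (nat_lit 0), (nat_lit 63), (nat_lit 63), (nat_lit 0), (nat_lit 0), [(nat_lit 1582453608), (nat_lit 1229352000)], [(nat_lit 0), (nat_lit 0)], [(nat_lit 26105165761), (nat_lit 27187557562), (nat_lit 27531028114), (nat_lit 28525438540), (nat_lit 27248029124), (nat_lit 28243789258), (nat_lit 28556320644), (nat_lit 29476097209)], (nat_lit 0), (nat_lit 0), (nat_lit 0), (nat_lit 0), (nat_lit 0), (nat_lit 0), [], [(nat_lit 1), (nat_lit 38), (nat_lit 203), (nat_lit 0), (nat_lit 8)]⟩,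
 ⟨⟨[(nat_lit 60), (nat_lit 100), (nat_lit 140)], [(nat_lit 0), (nat_lit 0), (nat_lit 2047)], [((nat_lit 0), (nat_lit 0), (nat_lit 0)), ((nat_lit 0), (nat_lit 0), (nat_lit 0)), ((nat_lit 1000), (nat_lit 993), (nat_lit 781))], ((nat_lit 95), (nat_lit 100), (nat_lit 65))⟩, (nat_lit 136113), (nat_lit 918), (nat_lit 918), (nat_lit 0), (nat_lit 1666914), [(nat_lit 269124000), (nat_lit 512500000), (nat_lit 807044000)], [], [(nat_lit 2898528554), (nat_lit 2910689823), (nat_lit 2910689823), (nat_lit 2926899327), (nat_lit 2646715724), (nat_lit 2798293668), (nat_lit 2798293668), (nat_lit 2928203779)], (nat_lit 1271251), (nat_lit 1271251), (nat_lit 1271251), (nat_lit 1271251), (nat_lit 54688), (nat_lit 2630938), [(nat_lit 780000), (nat_lit 1435001), (nat_lit 1271251)], [(nat_lit 11), (nat_lit 55), (nat_lit 356), (nat_lit 100), (nat_lit 10)]⟩,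
 ⟨⟨[(nat_lit 140), (nat_lit 180), (nat_lit 200)], [(nat_lit 0), (nat_lit 0), (nat_lit 2835)], [((nat_lit 0), (nat_lit 0), (nat_lit 0)), ((nat_lit 0), (nat_lit 0), (nat_lit 0)), ((nat_lit 363), (nat_lit 1000), (nat_lit 798))], ((nat_lit 0), (nat_lit 0), (nat_lit 0))⟩, (nat_lit 22561), (nat_lit 300), (nat_lit 436), (nat_lit 6404200), (nat_lit 0), [(nat_lit 807044000), (nat_lit 1152756000), (nat_lit 1344800000)], [], [(nat_lit 5313470332), (nat_lit 5115029540), (nat_lit 5255434954), (nat_lit 5050785652), (nat_lit 4053143062), (nat_lit 3834209139), (nat_lit 3916707572), (nat_lit 3694609861)], (nat_lit 0), (nat_lit 0), (nat_lit 0), (nat_lit 0), (nat_lit 0), (nat_lit 0), [], [(nat_lit 32), (nat_lit 67), (nat_lit 428), (nat_lit 200), (nat_lit 9)]⟩⟩) (.spl (nat_lit 1) (nat_lit 300) (.spl (nat_lit 6) (nat_lit 24) (.leaf ⟨(nat_lit 1000), (nat_lit 0), (nat_lit 0), (nat_lit 0), (nat_lit 0), (nat_lit 3173), (nat_lit 0), (nat_lit 0), (nat_lit 0), (nat_lit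 0), (nat_lit 250000), [((nat_lit 400), [((nat_lit 27), (nat_lit 0), (nat_lit 1000))])], ⟨(nat_lit 7), false, true, true, (nat_lit 296), (nat_lit 0), (nat_lit 2237), [(nat_lit 1705063), (nat_lit 1699935), (nat_lit 1726954), (nat_lit 1724051), (nat_lit 1762141), (nat_lit 1749998), (nat_lit 1784917), (nat_lit 1774999)]⟩, ⟨(nat_lit 5), false, false, true, (nat_lit 185), (nat_lit 0), (nat_lit 2237), [(nat_lit 1408898), (nat_lit 1399996), (nat_lit 1454449), (nat_lit 1449998), (nat_lit 1480164), (nat_lit 1462492), (nat_lit 1525715), (nat_lit 1512494)]⟩, (nat_lit 5256690), (nat_lit 36320179), (nat_lit 20928428), (nat_lit 9751393), (nat_lit 0), (nat_lit 0), [], [⟨(nat_lit 1), (nat_lit 99), (nat_lit 44), (nat_lit 100), (nat_lit 277490460)⟩], [], [],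
 ⟨⟨[(nat_lit 40), (nat_lit 60)], [(nat_lit 0), (nat_lit 1539)], [((nat_lit 0), (nat_lit 0), (nat_lit 0)), ((nat_lit 1000), (nat_lit 478), (nat_lit 704))], ((nat_lit 54), (nat_lit 100), (nat_lit 59))⟩, (nat_lit 0), (nat_lit 63), (nat_lit 63), (nat_lit 0), (nat_lit 0), [(nat_lit 1561600076), (nat_lit 1042800000)], [(nat_lit 0), (nat_lit 0)], [(nat_lit 26041148147), (nat_lit 27127893158), (nat_lit 27470414630), (nat_lit 28550772160), (nat_lit 27183682569), (nat_lit 28190452448), (nat_lit 28495007139), (nat_lit 29509726099)], (nat_lit 0), (nat_lit 0), (nat_lit 0), (nat_lit 0), (nat_lit 0), (nat_lit 0), [], [(nat_lit 1), (nat_lit 38), (nat_lit 203), (nat_lit 0), (nat_lit 8)]⟩,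
 Rw.none,
 Rw.none⟩) (.spl (nat_lit 2) (nat_lit 140) (.trX (nat_lit 4) (nat_lit 0) (nat_lit 2) (nat_lit 44) (nat_lit 100) (nat_lit 96) (nat_lit 230) (.trX (nat_lit 5) (nat_lit 1) (nat_lit 2) (nat_lit 96) (nat_lit 69) (nat_lit 100) (nat_lit 360) (.leaf ⟨(nat_lit 849), (nat_lit 151), (nat_lit 0), (nat_lit 0), (nat_lit 0), (nat_lit 3230), (nat_lit 1164), (nat_lit 0), (nat_lit 0), (nat_lit 0), (nat_lit 212250), [((nat_lit 400), [((nat_lit 28), (nat_lit 0), (nat_lit 849))])], ⟨(nat_lit 7), false, true, true, (nat_lit 296), (nat_lit 0), (nat_lit 2237), [(nat_lit 1705063), (nat_lit 1699935), (nat_lit 1726954), (nat_lit 1724051), (nat_lit 1762141), (nat_lit 1749998), (nat_lit 1784917), (nat_lit 1774999)]⟩, ⟨(nat_lit 5), false, false, true, (nat_lit 175), (nat_lit 0), (nat_lit 2237), [(nat_lit 1408898), (nat_lit 1399996), (nat_lit 1431673), (nat_lit 1424996), (nat_lit 1451658), (nat_lit 1437494), (nat_lit 1474433), (nat_lit 1462494)]⟩, (nat_lit 5179366),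 (nat_lit 36824056), (nat_lit 21157450), (nat_lit 9018494), (nat_lit 5), (nat_lit 0), [], [⟨(nat_lit 1), (nat_lit 100), (nat_lit 31), (nat_lit 94), (nat_lit 79710446)⟩, ⟨(nat_lit 1), (nat_lit 100), (nat_lit 44), (nat_lit 96), (nat_lit 268129065)⟩], [⟨(nat_lit 1), (nat_lit 78), (nat_lit 95), (nat_lit 100), (nat_lit 22309429)⟩], [],
 ⟨⟨[(nat_lit 40), (nat_lit 60)], [(nat_lit 0), (nat_lit 1539)], [((nat_lit 0), (nat_lit 0), (nat_lit 0)), ((nat_lit 1000), (nat_lit 478), (nat_lit 704))], ((nat_lit 48), (nat_lit 100), (nat_lit 69))⟩, (nat_lit 0), (nat_lit 63), (nat_lit 63), (nat_lit 0), (nat_lit 0), [(nat_lit 1598654811), (nat_lit 1383636000)], [(nat_lit 0), (nat_lit 0)], [(nat_lit 26072867572), (nat_lit 27173035230), (nat_lit 27508601902), (nat_lit 28618369600), (nat_lit 26697507757), (nat_lit 27748071833), (nat_lit 28064051424), (nat_lit 29123184910)], (nat_lit 0), (nat_lit 0), (nat_lit 0), (nat_lit 0), (nat_lit 0), (nat_lit 0), [], [(nat_lit 1),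 (nat_lit 38), (nat_lit 203), (nat_lit 0), (nat_lit 8)]⟩,
 ⟨⟨[(nat_lit 60), (nat_lit 100), (nat_lit 140)], [(nat_lit 0), (nat_lit 0), (nat_lit 2047)], [((nat_lit 0), (nat_lit 0), (nat_lit 0)), ((nat_lit 0), (nat_lit 0), (nat_lit 0)), ((nat_lit 1000), (nat_lit 993), (nat_lit 781))], ((nat_lit 95), (nat_lit 100), (nat_lit 65))⟩, (nat_lit 256006), (nat_lit 630), (nat_lit 630), (nat_lit 0), (nat_lit 1023087), [(nat_lit 495582000), (nat_lit 943750000), (nat_lit 1486142000)], [], [(nat_lit 5391712540), (nat_lit 5451796265), (nat_lit 5511879991), (nat_lit 5563329433), (nat_lit 5001689058), (nat_lit 5019650622), (nat_lit 5037612186), (nat_lit 5050427746)], (nat_lit 1271251), (nat_lit 1271251), (nat_lit 1271251), (nat_lit 1271251), (nat_lit 54688), (nat_lit 2559376), [(nat_lit 780000), (nat_lit 1435001), (nat_lit 1271251)], [(nat_lit 11), (nat_lit 55), (nat_lit 317), (nat_lit 100), (nat_lit 9)]⟩,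
 Rw.none⟩))) (.leaf ⟨(nat_lit 752), (nat_lit 196), (nat_lit 0), (nat_lit 52), (nat_lit 0), (nat_lit 3195), (nat_lit 1851), (nat_lit 511), (nat_lit 0), (nat_lit 0), (nat_lit 188000), [((nat_lit 400), [((nat_lit 28), (nat_lit 0), (nat_lit 752))])], ⟨(nat_lit 7), false, true, true, (nat_lit 296), (nat_lit 0), (nat_lit 2237), [(nat_lit 1705063), (nat_lit 1699935), (nat_lit 1726954), (nat_lit 1724051), (nat_lit 1762141), (nat_lit 1749998), (nat_lit 1784917), (nat_lit 1774999)]⟩, ⟨(nat_lit 5), false, false, true, (nat_lit 189), (nat_lit 0), (nat_lit 2237), [(nat_lit 1431673), (nat_lit 1424996), (nat_lit 1454449), (nat_lit 1449998), (nat_lit 1502940), (nat_lit 1487494), (nat_lit 1525715), (nat_lit 1512494)]⟩, (nat_lit 5291360), (nat_lit 36080968), (nat_lit 20818603), (nat_lit 10100429), (nat_lit 5), (nat_lit 0), [], [⟨(nat_lit 1), (nat_lit 100), (nat_lit 31), (nat_lit 97), (nat_lit 418570404)⟩], [], [],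
 ⟨⟨[(nat_lit 40), (nat_lit 60)], [(nat_lit 0), (nat_lit 1539)], [((nat_lit 0), (nat_lit 0), (nat_lit 0)), ((nat_lit 1000), (nat_lit 478), (nat_lit 704))], ((nat_lit 48), (nat_lit 100), (nat_lit 69))⟩, (nat_lit 0), (nat_lit 63), (nat_lit 63), (nat_lit 0), (nat_lit 0), [(nat_lit 1621430407), (nat_lit 1600528000)], [(nat_lit 0), (nat_lit 0)], [(nat_lit 26188990010), (nat_lit 27234385104), (nat_lit 27576210584), (nat_lit 28577146074), (nat_lit 27290672858), (nat_lit 28289062871), (nat_lit 28599661489), (nat_lit 29534387285)], (nat_lit 0), (nat_lit 0), (nat_lit 0), (nat_lit 0), (nat_lit 0), (nat_lit 0), [], [(nat_lit 1), (nat_lit 38), (nat_lit 203), (nat_lit 0), (nat_lit 8)]⟩,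
 ⟨⟨[(nat_lit 60), (nat_lit 100), (nat_lit 140)], [(nat_lit 0), (nat_lit 0), (nat_lit 2047)], [((nat_lit 0), (nat_lit 0), (nat_lit 0)), ((nat_lit 0), (nat_lit 0), (nat_lit 0)), ((nat_lit 1000), (nat_lit 993), (nat_lit 781))], ((nat_lit 95), (nat_lit 100), (nat_lit 65))⟩, (nat_lit 458173), (nat_lit 592), (nat_lit 592), (nat_lit 0), (nat_lit 918384), [(nat_lit 813936000), (nat_lit 1550000000), (nat_lit 2440816000)], [], [(nat_lit 8563110007), (nat_lit 8698654445), (nat_lit 8834198882), (nat_lit 8952103747), (nat_lit 8253590421), (nat_lit 8301884358), (nat_lit 8350178296), (nat_lit 8405708121)], (nat_lit 1271251), (nat_lit 1271251), (nat_lit 1271251), (nat_lit 1271251), (nat_lit 54688), (nat_lit 2630938), [(nat_lit 780000), (nat_lit 1435001), (nat_lit 1271251)], [(nat_lit 11), (nat_lit 55), (nat_lit 317), (nat_lit 100), (nat_lit 9)]⟩,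
 ⟨⟨[(nat_lit 140), (nat_lit 180), (nat_lit 200)], [(nat_lit 0), (nat_lit 608), (nat_lit 3317)], [((nat_lit 0), (nat_lit 0), (nat_lit 0)), ((nat_lit 913), (nat_lit 1000), (nat_lit 217)), ((nat_lit 385), (nat_lit 1000), (nat_lit 814))], ((nat_lit 0), (nat_lit 0), (nat_lit 0))⟩, (nat_lit 113614), (nat_lit 300), (nat_lit 2006), (nat_lit 3677438), (nat_lit 3362427), [(nat_lit 511784000), (nat_lit 731016000), (nat_lit 852800000)], [], [(nat_lit 3937362348), (nat_lit 3901178607), (nat_lit 3859656393), (nat_lit 3823597673), (nat_lit 3518237293), (nat_lit 3662112087), (nat_lit 3258543253), (nat_lit 3223650323)], (nat_lit 936250), (nat_lit 1100000), (nat_lit 1271251), (nat_lit 1271251), (nat_lit 54688), (nat_lit 2630938), [(nat_lit 1977501), (nat_lit 1271251), (nat_lit 1271251)], [(nat_lit 32), (nat_lit 67), (nat_lit 599), (nat_lit 200), (nat_lit 13)]⟩⟩))) (.trX (nat_lit 5) (nat_lit 1) (nat_lit 2) (nat_lit 88) (nat_lit 68) (nat_lit 100) (nat_lit 350)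 (.spl (nat_lit 6) (nat_lit 24) (.leaf ⟨(nat_lit 742), (nat_lit 258), (nat_lit 0), (nat_lit 0), (nat_lit 0), (nat_lit 3098), (nat_lit 1556), (nat_lit 0), (nat_lit 0), (nat_lit 0), (nat_lit 296800), [((nat_lit 400), [((nat_lit 27), (nat_lit 1), (nat_lit 742))])], ⟨(nat_lit 7), false, true, false, (nat_lit 306), (nat_lit 0), (nat_lit 2237), [(nat_lit 1726954), (nat_lit 1724051), (nat_lit 1748802), (nat_lit 1748125), (nat_lit 1784917), (nat_lit 1774999), (nat_lit 1807594), (nat_lit 1799902)]⟩, ⟨(nat_lit 5), false, false, true, (nat_lit 185), (nat_lit 0), (nat_lit 2237), [(nat_lit 1408898), (nat_lit 1399996), (nat_lit 1454449), (nat_lit 1449998), (nat_lit 1480164), (nat_lit 1462492), (nat_lit 1525715), (nat_lit 1512494)]⟩, (nat_lit 5275420), (nat_lit 35647908), (nat_lit 21734816), (nat_lit 9617276), (nat_lit 5), (nat_lit 0), [], [⟨(nat_lit 1), (nat_lit 99), (nat_lit 44), (nat_lit 100), (nat_lit 383823007)⟩], [⟨(nat_lit 1), (nat_lit 68), (nat_lit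 88), (nat_lit 100), (nat_lit 55198635)⟩], [],
 ⟨⟨[(nat_lit 40), (nat_lit 60)], [(nat_lit 0), (nat_lit 1539)], [((nat_lit 0), (nat_lit 0), (nat_lit 0)), ((nat_lit 1000), (nat_lit 478), (nat_lit 704))], ((nat_lit 54), (nat_lit 100), (nat_lit 59))⟩, (nat_lit 0), (nat_lit 63), (nat_lit 63), (nat_lit 0), (nat_lit 0), [(nat_lit 1499122407), (nat_lit 1087460800)], [(nat_lit 0), (nat_lit 0)], [(nat_lit 25971969184), (nat_lit 27047831170), (nat_lit 27392725342), (nat_lit 28461828160), (nat_lit 27115325958), (nat_lit 28112368692), (nat_lit 28420310926), (nat_lit 29425653874)], (nat_lit 0), (nat_lit 0), (nat_lit 0), (nat_lit 0), (nat_lit 0), (nat_lit 0), [], [(nat_lit 1), (nat_lit 38), (nat_lit 203), (nat_lit 0), (nat_lit 8)]⟩,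
 ⟨⟨[(nat_lit 60), (nat_lit 80), (nat_lit 100)], [(nat_lit 0), (nat_lit 304), (nat_lit 825)], [((nat_lit 0), (nat_lit 0), (nat_lit 0)), ((nat_lit 1000), (nat_lit 905), (nat_lit 238)), ((nat_lit 1000), (nat_lit 871), (nat_lit 407))], ((nat_lit 87), (nat_lit 100), (nat_lit 48))⟩, (nat_lit 970035), (nat_lit 627), (nat_lit 627), (nat_lit 0), (nat_lit 1302074), [(nat_lit 846756000), (nat_lit 1209504000), (nat_lit 1612500000)], [], [(nat_lit 7739953812), (nat_lit 7873647359), (nat_lit 7993635914), (nat_lit 8113624468), (nat_lit 7928292059), (nat_lit 7994277973), (nat_lit 8055432269), (nat_lit 8255555637)], (nat_lit 1271251), (nat_lit 1271251), (nat_lit 1271251), (nat_lit 1271251), (nat_lit 54688), (nat_lit 2487813), [(nat_lit 780000), (nat_lit 1100000), (nat_lit 1442501)], [(nat_lit 9), (nat_lit 50), (nat_lit 317), (nat_lit 100), (nat_lit 11)]⟩,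
 Rw.none⟩) (.leaf ⟨(nat_lit 477), (nat_lit 523), (nat_lit 0), (nat_lit 0), (nat_lit 0), (nat_lit 3240), (nat_lit 3128), (nat_lit 0), (nat_lit 0), (nat_lit 0), (nat_lit 198400), [((nat_lit 400), [((nat_lit 28), (nat_lit 1), (nat_lit 439)), ((nat_lit 43), (nat_lit 2), (nat_lit 38))])], ⟨(nat_lit 7), false, true, false, (nat_lit 306), (nat_lit 0), (nat_lit 2237), [(nat_lit 1726954), (nat_lit 1724051), (nat_lit 1748802), (nat_lit 1748125), (nat_lit 1784917), (nat_lit 1774999), (nat_lit 1807594), (nat_lit 1799902)]⟩, ⟨(nat_lit 5), false, false, true, (nat_lit 185), (nat_lit 0), (nat_lit 2237), [(nat_lit 1408898), (nat_lit 1399996), (nat_lit 1454449), (nat_lit 1449998), (nat_lit 1480164), (nat_lit 1462492), (nat_lit 1525715), (nat_lit 1512494)]⟩, (nat_lit 5275420), (nat_lit 35647908), (nat_lit 21734816), (nat_lit 9617276), (nat_lit 5), (nat_lit 0), [], [⟨(nat_lit 1), (nat_lit 100), (nat_lit 31), (nat_lit 95), (nat_lit 622660054)⟩, ⟨(nat_lit 1), (nat_lit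 99), (nat_lit 44), (nat_lit 100), (nat_lit 77391370)⟩], [⟨(nat_lit 1), (nat_lit 68), (nat_lit 88), (nat_lit 100), (nat_lit 109950946)⟩], [],
 ⟨⟨[(nat_lit 40), (nat_lit 60)], [(nat_lit 0), (nat_lit 1539)], [((nat_lit 0), (nat_lit 0), (nat_lit 0)), ((nat_lit 1000), (nat_lit 478), (nat_lit 704))], ((nat_lit 48), (nat_lit 100), (nat_lit 69))⟩, (nat_lit 149029), (nat_lit 63), (nat_lit 63), (nat_lit 0), (nat_lit 0), [(nat_lit 1605742863), (nat_lit 1835011600)], [(nat_lit 0), (nat_lit 0)], [(nat_lit 26135482862), (nat_lit 27185508672), (nat_lit 27516512112), (nat_lit 28630228800), (nat_lit 27236408825), (nat_lit 28260207270), (nat_lit 28561735755), (nat_lit 29584830620)], (nat_lit 0), (nat_lit 0), (nat_lit 0), (nat_lit 0), (nat_lit 0), (nat_lit 0), [], [(nat_lit 1), (nat_lit 38), (nat_lit 203), (nat_lit 0), (nat_lit 8)]⟩,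
 ⟨⟨[(nat_lit 60), (nat_lit 100), (nat_lit 120)], [(nat_lit 0), (nat_lit 609), (nat_lit 1609)], [((nat_lit 0), (nat_lit 0), (nat_lit 0)), ((nat_lit 1000), (nat_lit 905), (nat_lit 238)), ((nat_lit 1000), (nat_lit 882), (nat_lit 668))], ((nat_lit 88), (nat_lit 100), (nat_lit 63))⟩, (nat_lit 1757631), (nat_lit 553), (nat_lit 553), (nat_lit 0), (nat_lit 985084), [(nat_lit 1716486000), (nat_lit 3268750000), (nat_lit 4167264000)], [], [(nat_lit 15732073560), (nat_lit 16032028678), (nat_lit 16300052696), (nat_lit 16568076713), (nat_lit 16018306955), (nat_lit 16169573305), (nat_lit 16305561443), (nat_lit 16710171204)], (nat_lit 1271251), (nat_lit 1271251), (nat_lit 1271251), (nat_lit 1271251), (nat_lit 54688), (nat_lit 2487813), [(nat_lit 780000), (nat_lit 1435001), (nat_lit 1271251)], [(nat_lit 10), (nat_lit 54), (nat_lit 317), (nat_lit 100), (nat_lit 10)]⟩,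
 Rw.none⟩))))))
noncomputable def c14_18 : Tr Lf :=
 (.spl (nat_lit 1) (nat_lit 280) (.spl (nat_lit 5) (nat_lit 120) (.leaf ⟨(nat_lit 918), (nat_lit 57), (nat_lit 0), (nat_lit 25), (nat_lit 0), (nat_lit 3122), (nat_lit 848), (nat_lit 374), (nat_lit 0), (nat_lit 0), (nat_lit 229500), [((nat_lit 400), [((nat_lit 28), (nat_lit 0), (nat_lit 918))])], ⟨(nat_lit 7), false, true, true, (nat_lit 282), (nat_lit 0), (nat_lit 2237), [(nat_lit 1659577), (nat_lit 1649997), (nat_lit 1705063), (nat_lit 1699935), (nat_lit 1716590), (nat_lit 1699995), (nat_lit 1762141), (nat_lit 1749998)]⟩, ⟨(nat_lit 5), false, false, true, (nat_lit 204), (nat_lit 0), (nat_lit 2237), [(nat_lit 1454449), (nat_lit 1449998), (nat_lit 1477224), (nat_lit 1474999), (nat_lit 1554222), (nat_lit 1537494), (nat_lit 1576997), (nat_lit 1562495)]⟩, (nat_lit 5356919), (nat_lit 36305915), (nat_lit 19261403), (nat_lit 11432682), (nat_lit 5), (nat_lit 0), [], [⟨(nat_lit 1), (nat_lit 100), (nat_lit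 32), (nat_lit 100), (nat_lit 274591032)⟩], [], [⟨(nat_lit 0), (nat_lit 100), (nat_lit 88), (nat_lit 65), (nat_lit 10399725)⟩, ⟨(nat_lit 0), (nat_lit 100), (nat_lit 85), (nat_lit 90), (nat_lit 37104003)⟩],
 ⟨⟨[(nat_lit 40), (nat_lit 60)], [(nat_lit 0), (nat_lit 1539)], [((nat_lit 0), (nat_lit 0), (nat_lit 0)), ((nat_lit 1000), (nat_lit 478), (nat_lit 704))], ((nat_lit 48), (nat_lit 100), (nat_lit 69))⟩, (nat_lit 0), (nat_lit 63), (nat_lit 63), (nat_lit 0), (nat_lit 0), [(nat_lit 1582453606), (nat_lit 1229352000)], [(nat_lit 0), (nat_lit 0)], [(nat_lit 26120783142), (nat_lit 27200127696), (nat_lit 27544262604), (nat_lit 28536037908), (nat_lit 27878081180), (nat_lit 28834776299), (nat_lit 29132494438), (nat_lit 30014758654)], (nat_lit 0), (nat_lit 0), (nat_lit 0), (nat_lit 0), (nat_lit 0), (nat_lit 0), [], [(nat_lit 1), (nat_lit 38), (nat_lit 203), (nat_lit 0), (nat_lit 8)]⟩,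
 ⟨⟨[(nat_lit 80), (nat_lit 120), (nat_lit 160)], [(nat_lit 0), (nat_lit 0), (nat_lit 2132)], [((nat_lit 0), (nat_lit 0), (nat_lit 0)), ((nat_lit 0), (nat_lit 0), (nat_lit 0)), ((nat_lit 858), (nat_lit 1000), (nat_lit 713))], ((nat_lit 100), (nat_lit 91), (nat_lit 64))⟩, (nat_lit 329472), (nat_lit 893), (nat_lit 893), (nat_lit 0), (nat_lit 1444087), [(nat_lit 384416000), (nat_lit 653376000), (nat_lit 973504000)], [], [(nat_lit 2701069868), (nat_lit 2714747238), (nat_lit 2724585520), (nat_lit 2779351523), (nat_lit 2283037900), (nat_lit 2289905743), (nat_lit 2296601508), (nat_lit 2306413698)], (nat_lit 1271251), (nat_lit 1271251), (nat_lit 1271251), (nat_lit 1271251), (nat_lit 54688), (nat_lit 780000), [(nat_lit 1100000), (nat_lit 1785001), (nat_lit 1271251)], [(nat_lit 18), (nat_lit 59), (nat_lit 428), (nat_lit 200), (nat_lit 11)]⟩,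
 ⟨⟨[(nat_lit 120), (nat_lit 160), (nat_lit 180)], [(nat_lit 0), (nat_lit 0), (nat_lit 1613)], [((nat_lit 0), (nat_lit 0), (nat_lit 0)), ((nat_lit 0), (nat_lit 0), (nat_lit 0)), ((nat_lit 620), (nat_lit 1000), (nat_lit 670))], ((nat_lit 100), (nat_lit 65), (nat_lit 64))⟩, (nat_lit 10880), (nat_lit 300), (nat_lit 1843), (nat_lit 1855004), (nat_lit 3177301), [(nat_lit 199200000), (nat_lit 296800000), (nat_lit 351450000)], [], [(nat_lit 1281800336), (nat_lit 1267876936), (nat_lit 1267363585), (nat_lit 1260092947), (nat_lit 1014292511), (nat_lit 1000470230), (nat_lit 988245527), (nat_lit 975121940)], (nat_lit 1100000), (nat_lit 1271251), (nat_lit 1271251), (nat_lit 1271251), (nat_lit 54688), (nat_lit 780000), [(nat_lit 1695001), (nat_lit 1271251), (nat_lit 1271251)], [(nat_lit 28), (nat_lit 65), (nat_lit 532), (nat_lit 150), (nat_lit 12)]⟩⟩) (.leaf ⟨(nat_lit 939), (nat_lit 28), (nat_lit 0), (nat_lit 33), (nat_lit 0), (nat_lit 3169), (nat_lit 625),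 (nat_lit 369), (nat_lit 0), (nat_lit 0), (nat_lit 234750), [((nat_lit 400), [((nat_lit 28), (nat_lit 0), (nat_lit 939))])], ⟨(nat_lit 7), false, true, true, (nat_lit 282), (nat_lit 0), (nat_lit 2237), [(nat_lit 1659577), (nat_lit 1649997), (nat_lit 1705063), (nat_lit 1699935), (nat_lit 1716590), (nat_lit 1699995), (nat_lit 1762141), (nat_lit 1749998)]⟩, ⟨(nat_lit 5), false, false, true, (nat_lit 204), (nat_lit 0), (nat_lit 2237), [(nat_lit 1454449), (nat_lit 1449998), (nat_lit 1477224), (nat_lit 1474999), (nat_lit 1554222), (nat_lit 1537494), (nat_lit 1576997), (nat_lit 1562495)]⟩, (nat_lit 5356919), (nat_lit 36305915), (nat_lit 19261403), (nat_lit 11432682), (nat_lit 5), (nat_lit 0), [], [⟨(nat_lit 1), (nat_lit 100), (nat_lit 32), (nat_lit 100), (nat_lit 344736874)⟩], [], [],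
 ⟨⟨[(nat_lit 40), (nat_lit 60)], [(nat_lit 0), (nat_lit 1539)], [((nat_lit 0), (nat_lit 0), (nat_lit 0)), ((nat_lit 1000), (nat_lit 478), (nat_lit 704))], ((nat_lit 48), (nat_lit 100), (nat_lit 69))⟩, (nat_lit 0), (nat_lit 63), (nat_lit 63), (nat_lit 0), (nat_lit 0), [(nat_lit 1577522816), (nat_lit 1182396000)], [(nat_lit 0), (nat_lit 0)], [(nat_lit 26075968367), (nat_lit 27162132950), (nat_lit 27504780966), (nat_lit 28546028480), (nat_lit 27834451460), (nat_lit 28804472323), (nat_lit 29092590470), (nat_lit 30068369533)], (nat_lit 0), (nat_lit 0), (nat_lit 0), (nat_lit 0), (nat_lit 0), (nat_lit 0), [], [(nat_lit 1), (nat_lit 38), (nat_lit 203), (nat_lit 0), (nat_lit 8)]⟩,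
 ⟨⟨[(nat_lit 80), (nat_lit 120), (nat_lit 160)], [(nat_lit 0), (nat_lit 0), (nat_lit 2132)], [((nat_lit 0), (nat_lit 0), (nat_lit 0)), ((nat_lit 0), (nat_lit 0), (nat_lit 0)), ((nat_lit 858), (nat_lit 1000), (nat_lit 713))], ((nat_lit 100), (nat_lit 91), (nat_lit 64))⟩, (nat_lit 169486), (nat_lit 999), (nat_lit 999), (nat_lit 0), (nat_lit 1823834), [(nat_lit 285968000), (nat_lit 486048000), (nat_lit 724192000)], [], [(nat_lit 1752306320), (nat_lit 1744204470), (nat_lit 1748013062), (nat_lit 1746941029), (nat_lit 2143203748), (nat_lit 2245605947), (nat_lit 2262303172), (nat_lit 2348008146)], (nat_lit 1271251), (nat_lit 1271251), (nat_lit 1271251), (nat_lit 1271251), (nat_lit 780000), (nat_lit 3072501), [(nat_lit 1100000), (nat_lit 1785001), (nat_lit 1271251)], [(nat_lit 18), (nat_lit 59), (nat_lit 483), (nat_lit 250), (nat_lit 12)]⟩,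
 ⟨⟨[(nat_lit 120), (nat_lit 160), (nat_lit 180)], [(nat_lit 0), (nat_lit 0), (nat_lit 1613)], [((nat_lit 0), (nat_lit 0), (nat_lit 0)), ((nat_lit 0), (nat_lit 0), (nat_lit 0)), ((nat_lit 620), (nat_lit 1000), (nat_lit 670))], ((nat_lit 100), (nat_lit 65), (nat_lit 64))⟩, (nat_lit 14362), (nat_lit 300), (nat_lit 1771), (nat_lit 2448601), (nat_lit 3177301), [(nat_lit 262944000), (nat_lit 391776000), (nat_lit 463914000)], [], [(nat_lit 1767795513), (nat_lit 1746588558), (nat_lit 1707474093), (nat_lit 1687294175), (nat_lit 1577203116), (nat_lit 1641266948), (nat_lit 1530410321), (nat_lit 1511247879)], (nat_lit 1100000), (nat_lit 1271251), (nat_lit 1271251), (nat_lit 1271251), (nat_lit 780000), (nat_lit 3072501), [(nat_lit 1695001), (nat_lit 1271251), (nat_lit 1271251)], [(nat_lit 28), (nat_lit 65), (nat_lit 549), (nat_lit 225), (nat_lit 12)]⟩⟩)) (.trX (nat_lit 5) (nat_lit 1) (nat_lit 2) (nat_lit 92) (nat_lit 49) (nat_lit 100) (nat_lit 380) (.spl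 (nat_lit 5) (nat_lit 120) (.leaf ⟨(nat_lit 820), (nat_lit 145), (nat_lit 0), (nat_lit 35), (nat_lit 0), (nat_lit 2985), (nat_lit 1541), (nat_lit 518), (nat_lit 0), (nat_lit 0), (nat_lit 328000), [((nat_lit 400), [((nat_lit 28), (nat_lit 1), (nat_lit 820))])], ⟨(nat_lit 7), false, true, false, (nat_lit 301), (nat_lit 0), (nat_lit 2237), [(nat_lit 1705063), (nat_lit 1699935), (nat_lit 1748802), (nat_lit 1748125), (nat_lit 1762141), (nat_lit 1749998), (nat_lit 1807594), (nat_lit 1799902)]⟩, ⟨(nat_lit 5), false, false, true, (nat_lit 204), (nat_lit 0), (nat_lit 2237), [(nat_lit 1454449), (nat_lit 1449998), (nat_lit 1477224), (nat_lit 1474999), (nat_lit 1554222), (nat_lit 1537494), (nat_lit 1576997), (nat_lit 1562495)]⟩, (nat_lit 5401631), (nat_lit 35012350), (nat_lit 20863341), (nat_lit 11124309), (nat_lit 5), (nat_lit 0), [], [⟨(nat_lit 1), (nat_lit 100), (nat_lit 32), (nat_lit 100), (nat_lit 355293923)⟩], [], [⟨(nat_lit 0), (nat_lit 100), (nat_lit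 88), (nat_lit 65), (nat_lit 56051110)⟩],
 ⟨⟨[(nat_lit 40), (nat_lit 60)], [(nat_lit 0), (nat_lit 1539)], [((nat_lit 0), (nat_lit 0), (nat_lit 0)), ((nat_lit 1000), (nat_lit 478), (nat_lit 704))], ((nat_lit 48), (nat_lit 100), (nat_lit 69))⟩, (nat_lit 325), (nat_lit 63), (nat_lit 63), (nat_lit 0), (nat_lit 0), [(nat_lit 1467704001), (nat_lit 857096000)], [(nat_lit 0), (nat_lit 0)], [(nat_lit 25993168777), (nat_lit 27052633672), (nat_lit 27401102712), (nat_lit 28375686982), (nat_lit 27747012506), (nat_lit 28687525279), (nat_lit 28990751897), (nat_lit 29858868205)], (nat_lit 0), (nat_lit 0), (nat_lit 0), (nat_lit 0), (nat_lit 0), (nat_lit 0), [], [(nat_lit 1), (nat_lit 38), (nat_lit 203), (nat_lit 0), (nat_lit 8)]⟩,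
 ⟨⟨[(nat_lit 60), (nat_lit 100), (nat_lit 140)], [(nat_lit 0), (nat_lit 0), (nat_lit 2047)], [((nat_lit 0), (nat_lit 0), (nat_lit 0)), ((nat_lit 0), (nat_lit 0), (nat_lit 0)), ((nat_lit 1000), (nat_lit 993), (nat_lit 781))], ((nat_lit 95), (nat_lit 100), (nat_lit 65))⟩, (nat_lit 390831), (nat_lit 724), (nat_lit 724), (nat_lit 0), (nat_lit 1212083), [(nat_lit 590760000), (nat_lit 1125000000), (nat_lit 1771560000)], [], [(nat_lit 5821816049), (nat_lit 5951306310), (nat_lit 5951306310), (nat_lit 6251144781), (nat_lit 5154456723), (nat_lit 5262593095), (nat_lit 5262593095), (nat_lit 5352438084)], (nat_lit 1271251), (nat_lit 1271251), (nat_lit 1271251), (nat_lit 1271251), (nat_lit 54688), (nat_lit 780000), [(nat_lit 780000), (nat_lit 1435001), (nat_lit 1271251)], [(nat_lit 11), (nat_lit 55), (nat_lit 276), (nat_lit 30), (nat_lit 7)]⟩,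
 ⟨⟨[(nat_lit 120), (nat_lit 160), (nat_lit 180)], [(nat_lit 0), (nat_lit 0), (nat_lit 1613)], [((nat_lit 0), (nat_lit 0), (nat_lit 0)), ((nat_lit 0), (nat_lit 0), (nat_lit 0)), ((nat_lit 620), (nat_lit 1000), (nat_lit 670))], ((nat_lit 100), (nat_lit 65), (nat_lit 64))⟩, (nat_lit 15612), (nat_lit 300), (nat_lit 2057), (nat_lit 2597000), (nat_lit 3605252), [(nat_lit 278880000), (nat_lit 415520000), (nat_lit 492030000)], [], [(nat_lit 1803081846), (nat_lit 1783928933), (nat_lit 1776171795), (nat_lit 1766252845), (nat_lit 1433115397), (nat_lit 1414098140), (nat_lit 1397505771), (nat_lit 1375917726)], (nat_lit 1100000), (nat_lit 1271251), (nat_lit 1271251), (nat_lit 1271251), (nat_lit 54688), (nat_lit 780000), [(nat_lit 1695001), (nat_lit 1271251), (nat_lit 1271251)], [(nat_lit 28), (nat_lit 65), (nat_lit 586), (nat_lit 150), (nat_lit 13)]⟩⟩) (.spl (nat_lit 1) (nat_lit 300) (.leaf ⟨(nat_lit 878), (nat_lit 80), (nat_lit 0), (nat_lit 42), (nat_lit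 0), (nat_lit 3009), (nat_lit 968), (nat_lit 476), (nat_lit 0), (nat_lit 0), (nat_lit 351200), [((nat_lit 400), [((nat_lit 28), (nat_lit 1), (nat_lit 878))])], ⟨(nat_lit 7), false, true, true, (nat_lit 296), (nat_lit 0), (nat_lit 2237), [(nat_lit 1705063), (nat_lit 1699935), (nat_lit 1726954), (nat_lit 1724051), (nat_lit 1762141), (nat_lit 1749998), (nat_lit 1784917), (nat_lit 1774999)]⟩, ⟨(nat_lit 5), false, false, true, (nat_lit 204), (nat_lit 0), (nat_lit 2237), [(nat_lit 1454449), (nat_lit 1449998), (nat_lit 1477224), (nat_lit 1474999), (nat_lit 1554222), (nat_lit 1537494), (nat_lit 1576997), (nat_lit 1562495)]⟩, (nat_lit 5392150), (nat_lit 35329714), (nat_lit 20469242), (nat_lit 11201044), (nat_lit 5), (nat_lit 0), [], [⟨(nat_lit 1), (nat_lit 100), (nat_lit 32), (nat_lit 100), (nat_lit 372559285)⟩], [], [],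
 ⟨⟨[(nat_lit 40), (nat_lit 60)], [(nat_lit 0), (nat_lit 1539)], [((nat_lit 0), (nat_lit 0), (nat_lit 0)), ((nat_lit 1000), (nat_lit 478), (nat_lit 704))], ((nat_lit 48), (nat_lit 100), (nat_lit 69))⟩, (nat_lit 0), (nat_lit 63), (nat_lit 63), (nat_lit 0), (nat_lit 0), [(nat_lit 1444341623), (nat_lit 685578400)], [(nat_lit 0), (nat_lit 0)], [(nat_lit 25928595581), (nat_lit 26991543044), (nat_lit 27339252820), (nat_lit 28356281280), (nat_lit 27683044444), (nat_lit 28632893083), (nat_lit 28928743990), (nat_lit 29885864413)], (nat_lit 0), (nat_lit 0), (nat_lit 0), (nat_lit 0), (nat_lit 0), (nat_lit 0), [], [(nat_lit 1), (nat_lit 38), (nat_lit 203), (nat_lit 0), (nat_lit 8)]⟩,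
 ⟨⟨[(nat_lit 60), (nat_lit 100), (nat_lit 140)], [(nat_lit 0), (nat_lit 0), (nat_lit 2047)], [((nat_lit 0), (nat_lit 0), (nat_lit 0)), ((nat_lit 0), (nat_lit 0), (nat_lit 0)), ((nat_lit 1000), (nat_lit 993), (nat_lit 781))], ((nat_lit 95), (nat_lit 100), (nat_lit 65))⟩, (nat_lit 229465), (nat_lit 774), (nat_lit 774), (nat_lit 0), (nat_lit 1507511), [(nat_lit 400404000), (nat_lit 762500000), (nat_lit 1200724000)], [], [(nat_lit 3944923076), (nat_lit 3972449498), (nat_lit 3999975919), (nat_lit 4022415878), (nat_lit 4035676725), (nat_lit 4085149491), (nat_lit 4189516147), (nat_lit 4279238939)], (nat_lit 1271251), (nat_lit 1271251), (nat_lit 1271251), (nat_lit 1271251), (nat_lit 780000), (nat_lit 2908751), [(nat_lit 780000), (nat_lit 1435001), (nat_lit 1271251)], [(nat_lit 11), (nat_lit 55), (nat_lit 319), (nat_lit 100), (nat_lit 8)]⟩,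
 ⟨⟨[(nat_lit 120), (nat_lit 160), (nat_lit 180)], [(nat_lit 0), (nat_lit 0), (nat_lit 1613)], [((nat_lit 0), (nat_lit 0), (nat_lit 0)), ((nat_lit 0), (nat_lit 0), (nat_lit 0)), ((nat_lit 620), (nat_lit 1000), (nat_lit 670))], ((nat_lit 100), (nat_lit 65), (nat_lit 64))⟩, (nat_lit 18281), (nat_lit 300), (nat_lit 1873), (nat_lit 3116400), (nat_lit 3373337), [(nat_lit 334656000), (nat_lit 498624000), (nat_lit 590436000)], [], [(nat_lit 2209182920), (nat_lit 2183906060), (nat_lit 2138004372), (nat_lit 2111830822), (nat_lit 1977596796), (nat_lit 1988463526), (nat_lit 1918187250), (nat_lit 1894110857)], (nat_lit 1100000), (nat_lit 1271251), (nat_lit 1271251), (nat_lit 1271251), (nat_lit 780000), (nat_lit 2908751), [(nat_lit 1695001), (nat_lit 1271251), (nat_lit 1271251)], [(nat_lit 28), (nat_lit 65), (nat_lit 572), (nat_lit 225), (nat_lit 13)]⟩⟩) (.trX (nat_lit 5) (nat_lit 1) (nat_lit 2) (nat_lit 87) (nat_lit 59) (nat_lit 100) (nat_lit 370) (.leaf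 ⟨(nat_lit 664), (nat_lit 259), (nat_lit 0), (nat_lit 77), (nat_lit 0), (nat_lit 3087), (nat_lit 1979), (nat_lit 842), (nat_lit 0), (nat_lit 0), (nat_lit 310600), [((nat_lit 400), [((nat_lit 28), (nat_lit 1), (nat_lit 439)), ((nat_lit 43), (nat_lit 2), (nat_lit 225))])], ⟨(nat_lit 7), false, true, false, (nat_lit 306), (nat_lit 0), (nat_lit 2237), [(nat_lit 1726954), (nat_lit 1724051), (nat_lit 1748802), (nat_lit 1748125), (nat_lit 1784917), (nat_lit 1774999), (nat_lit 1807594), (nat_lit 1799902)]⟩, ⟨(nat_lit 5), false, false, true, (nat_lit 204), (nat_lit 0), (nat_lit 2237), [(nat_lit 1454449), (nat_lit 1449998), (nat_lit 1477224), (nat_lit 1474999), (nat_lit 1554222), (nat_lit 1537494), (nat_lit 1576997), (nat_lit 1562495)]⟩, (nat_lit 5410137), (nat_lit 34695708), (nat_lit 21257224), (nat_lit 11047068), (nat_lit 5), (nat_lit 0), [], [⟨(nat_lit 1), (nat_lit 100), (nat_lit 32), (nat_lit 100), (nat_lit 470001727)⟩], [⟨(nat_lit 1), (nat_lit 68),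 (nat_lit 84), (nat_lit 100), (nat_lit 35326317)⟩], [],
 ⟨⟨[(nat_lit 40), (nat_lit 60)], [(nat_lit 0), (nat_lit 1539)], [((nat_lit 0), (nat_lit 0), (nat_lit 0)), ((nat_lit 1000), (nat_lit 478), (nat_lit 704))], ((nat_lit 48), (nat_lit 100), (nat_lit 69))⟩, (nat_lit 1029), (nat_lit 63), (nat_lit 63), (nat_lit 0), (nat_lit 0), [(nat_lit 1529820803), (nat_lit 1102869200)], [(nat_lit 0), (nat_lit 0)], [(nat_lit 26041546511), (nat_lit 27115812320), (nat_lit 27461054488), (nat_lit 28448783040), (nat_lit 27797962062), (nat_lit 28750523004), (nat_lit 29049648419), (nat_lit 29974835659)], (nat_lit 0), (nat_lit 0), (nat_lit 0), (nat_lit 0), (nat_lit 0), (nat_lit 0), [], [(nat_lit 1), (nat_lit 38), (nat_lit 203), (nat_lit 0), (nat_lit 8)]⟩,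
 ⟨⟨[(nat_lit 60), (nat_lit 100), (nat_lit 120)], [(nat_lit 0), (nat_lit 609), (nat_lit 1609)], [((nat_lit 0), (nat_lit 0), (nat_lit 0)), ((nat_lit 1000), (nat_lit 905), (nat_lit 238)), ((nat_lit 1000), (nat_lit 882), (nat_lit 668))], ((nat_lit 88), (nat_lit 100), (nat_lit 63))⟩, (nat_lit 1759156), (nat_lit 672), (nat_lit 672), (nat_lit 0), (nat_lit 1416934), [(nat_lit 1102752000), (nat_lit 2100000000), (nat_lit 2677248000)], [], [(nat_lit 9688431527), (nat_lit 9838916802), (nat_lit 9976445711), (nat_lit 10132639576), (nat_lit 10758549149), (nat_lit 10852378641), (nat_lit 10935021777), (nat_lit 11089327456)], (nat_lit 1271251), (nat_lit 1271251), (nat_lit 1271251), (nat_lit 1271251), (nat_lit 780000), (nat_lit 2826876), [(nat_lit 780000), (nat_lit 1435001), (nat_lit 1271251)], [(nat_lit 10), (nat_lit 54), (nat_lit 317), (nat_lit 100), (nat_lit 9)]⟩,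
 ⟨⟨[(nat_lit 120), (nat_lit 160), (nat_lit 180)], [(nat_lit 0), (nat_lit 0), (nat_lit 1613)], [((nat_lit 0), (nat_lit 0), (nat_lit 0)), ((nat_lit 0), (nat_lit 0), (nat_lit 0)), ((nat_lit 620), (nat_lit 1000), (nat_lit 670))], ((nat_lit 100), (nat_lit 65), (nat_lit 64))⟩, (nat_lit 34732), (nat_lit 300), (nat_lit 1992), (nat_lit 5713400), (nat_lit 3605252), [(nat_lit 613536000), (nat_lit 914144000), (nat_lit 1082466000)], [], [(nat_lit 4337077226), (nat_lit 4286776588), (nat_lit 4172259145), (nat_lit 4121951858), (nat_lit 3766652447), (nat_lit 3717518362), (nat_lit 3636553454), (nat_lit 3589456539)], (nat_lit 1100000), (nat_lit 1271251), (nat_lit 1271251), (nat_lit 1271251), (nat_lit 780000), (nat_lit 2826876), [(nat_lit 1695001), (nat_lit 1271251), (nat_lit 1271251)], [(nat_lit 28), (nat_lit 65), (nat_lit 601), (nat_lit 225), (nat_lit 14)]⟩⟩))))))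
noncomputable def c14_19 : Tr Lf :=
 (.spl (nat_lit 2) (nat_lit 160) (.leaf ⟨(nat_lit 1000), (nat_lit 0), (nat_lit 0), (nat_lit 0), (nat_lit 0), (nat_lit 3093), (nat_lit 0), (nat_lit 0), (nat_lit 0), (nat_lit 0), (nat_lit 250000), [((nat_lit 400), [((nat_lit 28), (nat_lit 0), (nat_lit 1000))])], ⟨(nat_lit 8), false, true, true, (nat_lit 304), (nat_lit 0), (nat_lit 2237), [(nat_lit 1716590), (nat_lit 1699995), (nat_lit 1762141), (nat_lit 1749998), (nat_lit 1773604), (nat_lit 1749994), (nat_lit 1819154), (nat_lit 1799995)]⟩, ⟨(nat_lit 4), false, false, true, (nat_lit 161), (nat_lit 0), (nat_lit 2237), [(nat_lit 1351885), (nat_lit 1349998), (nat_lit 1397434), (nat_lit 1399999), (nat_lit 1408898), (nat_lit 1399996), (nat_lit 1454449), (nat_lit 1449998)]⟩, (nat_lit 5080181), (nat_lit 36957647), (nat_lit 22099411), (nat_lit 7942942), (nat_lit 0), (nat_lit 0), [⟨(nat_lit 1), (nat_lit 71), (nat_lit 48), (nat_lit 100), (nat_lit 464188580)⟩], [], [],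 [],
 ⟨⟨[(nat_lit 40), (nat_lit 60)], [(nat_lit 0), (nat_lit 1539)], [((nat_lit 0), (nat_lit 0), (nat_lit 0)), ((nat_lit 1000), (nat_lit 478), (nat_lit 704))], ((nat_lit 48), (nat_lit 100), (nat_lit 69))⟩, (nat_lit 0), (nat_lit 76), (nat_lit 76), (nat_lit 0), (nat_lit 0), [(nat_lit 1563200005), (nat_lit 1046000000)], [(nat_lit 0), (nat_lit 0)], [(nat_lit 26777702551), (nat_lit 27826093118), (nat_lit 28598969930), (nat_lit 29649089920), (nat_lit 27524031608), (nat_lit 28512167934), (nat_lit 29239077249), (nat_lit 30228668613)], (nat_lit 0), (nat_lit 0), (nat_lit 0), (nat_lit 0), (nat_lit 0), (nat_lit 0), [], [(nat_lit 1), (nat_lit 38), (nat_lit 203), (nat_lit 0), (nat_lit 8)]⟩,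
 Rw.none,
 Rw.none⟩) (.leaf ⟨(nat_lit 933), (nat_lit 43), (nat_lit 0), (nat_lit 24), (nat_lit 0), (nat_lit 3111), (nat_lit 611), (nat_lit 314), (nat_lit 0), (nat_lit 0), (nat_lit 233250), [((nat_lit 400), [((nat_lit 28), (nat_lit 0), (nat_lit 933))])], ⟨(nat_lit 8), false, true, true, (nat_lit 304), (nat_lit 0), (nat_lit 2237), [(nat_lit 1716590), (nat_lit 1699995), (nat_lit 1762141), (nat_lit 1749998), (nat_lit 1773604), (nat_lit 1749994), (nat_lit 1819154), (nat_lit 1799995)]⟩, ⟨(nat_lit 4), false, false, true, (nat_lit 175), (nat_lit 0), (nat_lit 2237), [(nat_lit 1397434), (nat_lit 1399999), (nat_lit 1419294), (nat_lit 1424084), (nat_lit 1454449), (nat_lit 1449998), (nat_lit 1477224), (nat_lit 1474999)]⟩, (nat_lit 5196788), (nat_lit 36279372), (nat_lit 21776162), (nat_lit 8944466), (nat_lit 4), (nat_lit 0), [⟨(nat_lit 1), (nat_lit 71), (nat_lit 48), (nat_lit 100), (nat_lit 411478312)⟩], [], [], [],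
 ⟨⟨[(nat_lit 40), (nat_lit 60)], [(nat_lit 0), (nat_lit 1539)], [((nat_lit 0), (nat_lit 0), (nat_lit 0)), ((nat_lit 1000), (nat_lit 478), (nat_lit 704))], ((nat_lit 48), (nat_lit 100), (nat_lit 69))⟩, (nat_lit 830), (nat_lit 76), (nat_lit 76), (nat_lit 0), (nat_lit 0), [(nat_lit 1578931608), (nat_lit 1195812000)], [(nat_lit 0), (nat_lit 0)], [(nat_lit 26798685023), (nat_lit 27849570732), (nat_lit 28623153497), (nat_lit 29675683840), (nat_lit 27544150962), (nat_lit 28534545964), (nat_lit 29262192806), (nat_lit 30253520151)], (nat_lit 0), (nat_lit 0), (nat_lit 0), (nat_lit 0), (nat_lit 0), (nat_lit 0), [], [(nat_lit 1), (nat_lit 38), (nat_lit 203), (nat_lit 0), (nat_lit 8)]⟩,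
 ⟨⟨[(nat_lit 80), (nat_lit 120), (nat_lit 160)], [(nat_lit 0), (nat_lit 0), (nat_lit 2132)], [((nat_lit 0), (nat_lit 0), (nat_lit 0)), ((nat_lit 0), (nat_lit 0), (nat_lit 0)), ((nat_lit 858), (nat_lit 1000), (nat_lit 713))], ((nat_lit 100), (nat_lit 91), (nat_lit 64))⟩, (nat_lit 128226), (nat_lit 1053), (nat_lit 1053), (nat_lit 0), (nat_lit 1823834), [(nat_lit 314096000), (nat_lit 533856000), (nat_lit 795424000)], [], [(nat_lit 2741282658), (nat_lit 2737356531), (nat_lit 2769071337), (nat_lit 2760568135), (nat_lit 2284354648), (nat_lit 2332917534), (nat_lit 2400920934), (nat_lit 2464958056)], (nat_lit 1271251), (nat_lit 1271251), (nat_lit 1271251), (nat_lit 1271251), (nat_lit 54688), (nat_lit 2559376), [(nat_lit 1100000), (nat_lit 1785001), (nat_lit 1271251)], [(nat_lit 18), (nat_lit 59), (nat_lit 401), (nat_lit 175), (nat_lit 10)]⟩,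
 ⟨⟨[(nat_lit 120), (nat_lit 160), (nat_lit 180)], [(nat_lit 0), (nat_lit 0), (nat_lit 1613)], [((nat_lit 0), (nat_lit 0), (nat_lit 0)), ((nat_lit 0), (nat_lit 0), (nat_lit 0)), ((nat_lit 620), (nat_lit 1000), (nat_lit 670))], ((nat_lit 100), (nat_lit 65), (nat_lit 64))⟩, (nat_lit 11249), (nat_lit 300), (nat_lit 1861), (nat_lit 1780800), (nat_lit 3177301), [(nat_lit 191232000), (nat_lit 284928000), (nat_lit 337392000)], [], [(nat_lit 1322370722), (nat_lit 1309216043), (nat_lit 1299408488), (nat_lit 1288775369), (nat_lit 1551488840), (nat_lit 1641726001), (nat_lit 1731961810), (nat_lit 1823975505)], (nat_lit 1100000), (nat_lit 1271251), (nat_lit 1100000), (nat_lit 1442501), (nat_lit 54688), (nat_lit 2559376), [(nat_lit 1695001), (nat_lit 1271251), (nat_lit 1271251)], [(nat_lit 28), (nat_lit 65), (nat_lit 558), (nat_lit 200), (nat_lit 13)]⟩⟩))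
noncomputable def c14_20 : Tr Lf :=
 (.spl (nat_lit 5) (nat_lit 120) (.leaf ⟨(nat_lit 832), (nat_lit 118), (nat_lit 0), (nat_lit 50), (nat_lit 0), (nat_lit 2966), (nat_lit 1326), (nat_lit 1599), (nat_lit 0), (nat_lit 0), (nat_lit 295450), [((nat_lit 400), [((nat_lit 28), (nat_lit 0), (nat_lit 249)), ((nat_lit 28), (nat_lit 1), (nat_lit 583))])], ⟨(nat_lit 8), false, true, true, (nat_lit 323), (nat_lit 0), (nat_lit 2237), [(nat_lit 1762141), (nat_lit 1749998), (nat_lit 1807594), (nat_lit 1799902), (nat_lit 1819154), (nat_lit 1799995), (nat_lit 1864705), (nat_lit 1849998)]⟩, ⟨(nat_lit 4), true, false, true, (nat_lit 165), (nat_lit 0), (nat_lit 2237), [(nat_lit 1351885), (nat_lit 1349998), (nat_lit 1419294), (nat_lit 1424084), (nat_lit 1408898), (nat_lit 1399996), (nat_lit 1477224), (nat_lit 1474999)]⟩, (nat_lit 5149239), (nat_lit 35310251), (nat_lit 23656859), (nat_lit 8032890), (nat_lit 4), (nat_lit 0), [⟨(nat_lit 1), (nat_lit 77), (nat_lit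 36), (nat_lit 100), (nat_lit 236251475)⟩], [⟨(nat_lit 1), (nat_lit 100), (nat_lit 31), (nat_lit 97), (nat_lit 8222136)⟩], [], [⟨(nat_lit 0), (nat_lit 100), (nat_lit 72), (nat_lit 63), (nat_lit 145812718)⟩],
 ⟨⟨[(nat_lit 40), (nat_lit 60)], [(nat_lit 0), (nat_lit 1539)], [((nat_lit 0), (nat_lit 0), (nat_lit 0)), ((nat_lit 1000), (nat_lit 478), (nat_lit 704))], ((nat_lit 48), (nat_lit 100), (nat_lit 69))⟩, (nat_lit 0), (nat_lit 76), (nat_lit 76), (nat_lit 0), (nat_lit 0), [(nat_lit 1504702401), (nat_lit 1001188400)], [(nat_lit 0), (nat_lit 0)], [(nat_lit 26734654744), (nat_lit 27765440698), (nat_lit 28521846604), (nat_lit 29461455040), (nat_lit 27487073578), (nat_lit 28459273690), (nat_lit 29177325592), (nat_lit 30064809634)], (nat_lit 0), (nat_lit 0), (nat_lit 0), (nat_lit 0), (nat_lit 0), (nat_lit 0), [], [(nat_lit 1), (nat_lit 38), (nat_lit 203), (nat_lit 0), (nat_lit 8)]⟩,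
 ⟨⟨[(nat_lit 60), (nat_lit 100), (nat_lit 140)], [(nat_lit 0), (nat_lit 0), (nat_lit 2047)], [((nat_lit 0), (nat_lit 0), (nat_lit 0)), ((nat_lit 0), (nat_lit 0), (nat_lit 0)), ((nat_lit 1000), (nat_lit 993), (nat_lit 781))], ((nat_lit 95), (nat_lit 100), (nat_lit 65))⟩, (nat_lit 309220), (nat_lit 788), (nat_lit 788), (nat_lit 0), (nat_lit 1398890), [(nat_lit 551376000), (nat_lit 1050000000), (nat_lit 1653456000)], [], [(nat_lit 6159085093), (nat_lit 6235343297), (nat_lit 6312725935), (nat_lit 6378576858), (nat_lit 5561623844), (nat_lit 5623698464), (nat_lit 5697368178), (nat_lit 5766993948)], (nat_lit 1271251), (nat_lit 1271251), (nat_lit 1271251), (nat_lit 1271251), (nat_lit 54688), (nat_lit 780000), [(nat_lit 780000), (nat_lit 1435001), (nat_lit 1271251)], [(nat_lit 11), (nat_lit 55), (nat_lit 297), (nat_lit 30), (nat_lit 8)]⟩,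
 ⟨⟨[(nat_lit 140), (nat_lit 180), (nat_lit 200)], [(nat_lit 0), (nat_lit 0), (nat_lit 2835)], [((nat_lit 0), (nat_lit 0), (nat_lit 0)), ((nat_lit 0), (nat_lit 0), (nat_lit 0)), ((nat_lit 363), (nat_lit 1000), (nat_lit 798))], ((nat_lit 0), (nat_lit 0), (nat_lit 0))⟩, (nat_lit 13757), (nat_lit 300), (nat_lit 450), (nat_lit 3905000), (nat_lit 0), [(nat_lit 492100000), (nat_lit 702900000), (nat_lit 820000000)], [], [(nat_lit 3608074493), (nat_lit 3263740953), (nat_lit 3477739411), (nat_lit 3285714380), (nat_lit 2203205416), (nat_lit 1881955444), (nat_lit 2078815590), (nat_lit 1845288897)], (nat_lit 0), (nat_lit 0), (nat_lit 0), (nat_lit 0), (nat_lit 0), (nat_lit 0), [], [(nat_lit 32), (nat_lit 67), (nat_lit 345), (nat_lit 125), (nat_lit 8)]⟩⟩) (.leaf ⟨(nat_lit 0), (nat_lit 0), (nat_lit 0), (nat_lit 1000), (nat_lit 0), (nat_lit 3675), (nat_lit 7851), (nat_lit 40613), (nat_lit 0), (nat_lit 0), (nat_lit 0), [], Pd.none, Pd.none, (nat_lit 0), (nat_lit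 1), (nat_lit 0), (nat_lit 0), (nat_lit 0), (nat_lit 0), [⟨(nat_lit 1), (nat_lit 77), (nat_lit 36), (nat_lit 100), (nat_lit 571621220)⟩], [⟨(nat_lit 1), (nat_lit 100), (nat_lit 31), (nat_lit 97), (nat_lit 2027460464)⟩], [], [],
 ⟨⟨[(nat_lit 40), (nat_lit 60)], [(nat_lit 0), (nat_lit 1539)], [((nat_lit 0), (nat_lit 0), (nat_lit 0)), ((nat_lit 1000), (nat_lit 478), (nat_lit 704))], ((nat_lit 48), (nat_lit 100), (nat_lit 69))⟩, (nat_lit 1109649), (nat_lit 76), (nat_lit 76), (nat_lit 0), (nat_lit 0), [(nat_lit 2032000053), (nat_lit 3282000000)], [], [(nat_lit 27376425581), (nat_lit 28506304700), (nat_lit 29380905263), (nat_lit 30508960000), (nat_lit 28094847156), (nat_lit 29156014006), (nat_lit 29972276775), (nat_lit 31032201675)], (nat_lit 0), (nat_lit 0), (nat_lit 0), (nat_lit 0), (nat_lit 0), (nat_lit 0), [], [(nat_lit 1), (nat_lit 38), (nat_lit 203), (nat_lit 0), (nat_lit 8)]⟩,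
 ⟨⟨[(nat_lit 60), (nat_lit 100), (nat_lit 140)], [(nat_lit 0), (nat_lit 0), (nat_lit 2047)], [((nat_lit 0), (nat_lit 0), (nat_lit 0)), ((nat_lit 0), (nat_lit 0), (nat_lit 0)), ((nat_lit 1000), (nat_lit 993), (nat_lit 781))], ((nat_lit 95), (nat_lit 100), (nat_lit 65))⟩, (nat_lit 1958838), (nat_lit 849), (nat_lit 849), (nat_lit 0), (nat_lit 1670510), [(nat_lit 3282000000), (nat_lit 6250000000), (nat_lit 9842000000)], [], [(nat_lit 34868160210), (nat_lit 35189295976), (nat_lit 35585386178), (nat_lit 35825640607), (nat_lit 34385967462), (nat_lit 34393886274), (nat_lit 35380266654), (nat_lit 36727597091)], (nat_lit 1271251), (nat_lit 1271251), (nat_lit 1271251), (nat_lit 1271251), (nat_lit 780000), (nat_lit 2745001), [(nat_lit 780000), (nat_lit 1435001), (nat_lit 1271251)], [(nat_lit 11), (nat_lit 55), (nat_lit 343), (nat_lit 100), (nat_lit 9)]⟩,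
 ⟨⟨[(nat_lit 140), (nat_lit 180), (nat_lit 200)], [(nat_lit 0), (nat_lit 0), (nat_lit 2835)], [((nat_lit 0), (nat_lit 0), (nat_lit 0)), ((nat_lit 0), (nat_lit 0), (nat_lit 0)), ((nat_lit 363), (nat_lit 1000), (nat_lit 798))], ((nat_lit 0), (nat_lit 0), (nat_lit 0))⟩, (nat_lit 8675610), (nat_lit 242), (nat_lit 242), (nat_lit 0), (nat_lit 0), [(nat_lit 9842000000), (nat_lit 14058000000), (nat_lit 16400000000)], [], [(nat_lit 16645005124), (nat_lit 15088126848), (nat_lit 19383875508), (nat_lit 17036594140), (nat_lit 42512886502), (nat_lit 40430919448), (nat_lit 45474257839), (nat_lit 42604377833)], (nat_lit 0), (nat_lit 0), (nat_lit 0), (nat_lit 0), (nat_lit 0), (nat_lit 0), [], [(nat_lit 32), (nat_lit 67), (nat_lit 428), (nat_lit 200), (nat_lit 9)]⟩⟩))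
noncomputable def c14_21 : Tr Lf :=
 (.spl (nat_lit 1) (nat_lit 300) (.spl (nat_lit 2) (nat_lit 160) (.spl (nat_lit 1) (nat_lit 290) (.spl (nat_lit 0) (nat_lit 390) (.leaf ⟨(nat_lit 889), (nat_lit 111), (nat_lit 0), (nat_lit 0), (nat_lit 0), (nat_lit 3108), (nat_lit 849), (nat_lit 0), (nat_lit 0), (nat_lit 0), (nat_lit 222250), [((nat_lit 390), [((nat_lit 28), (nat_lit 0), (nat_lit 889))])], ⟨(nat_lit 8), false, true, true, (nat_lit 317), (nat_lit 1581), (nat_lit 2237), [(nat_lit 1762142), (nat_lit 1757166), (nat_lit 1773529), (nat_lit 1768823), (nat_lit 1819158), (nat_lit 1811802), (nat_lit 1830545), (nat_lit 1823459)]⟩, ⟨(nat_lit 4), false, false, true, (nat_lit 161), (nat_lit 1581), (nat_lit 2237), [(nat_lit 1351886), (nat_lit 1352103), (nat_lit 1397434), (nat_lit 1398733), (nat_lit 1408901), (nat_lit 1406738), (nat_lit 1454450), (nat_lit 1453368)]⟩, (nat_lit 5108225), (nat_lit 35889598), (nat_lit 23293681), (nat_lit 7816721), (nat_lit 4),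 (nat_lit 0), [⟨(nat_lit 1), (nat_lit 68), (nat_lit 49), (nat_lit 100), (nat_lit 327939291)⟩], [], [], [⟨(nat_lit 1), (nat_lit 77), (nat_lit 72), (nat_lit 100), (nat_lit 20264240)⟩],
 ⟨⟨[(nat_lit 40), (nat_lit 60)], [(nat_lit 0), (nat_lit 1539)], [((nat_lit 0), (nat_lit 0), (nat_lit 0)), ((nat_lit 1000), (nat_lit 478), (nat_lit 704))], ((nat_lit 48), (nat_lit 100), (nat_lit 69))⟩, (nat_lit 0), (nat_lit 73), (nat_lit 73), (nat_lit 0), (nat_lit 0), [(nat_lit 1589263034), (nat_lit 1294196000)], [(nat_lit 0), (nat_lit 0)], [(nat_lit 26821094664), (nat_lit 27346329590), (nat_lit 28638526844), (nat_lit 29145187211), (nat_lit 27566704456), (nat_lit 28061713734), (nat_lit 29284171338), (nat_lit 29753676186)], (nat_lit 0), (nat_lit 0), (nat_lit 0), (nat_lit 0), (nat_lit 0), (nat_lit 0), [], [(nat_lit 1), (nat_lit 38), (nat_lit 203), (nat_lit 0), (nat_lit 8)]⟩,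
 ⟨⟨[(nat_lit 60), (nat_lit 100), (nat_lit 140)], [(nat_lit 0), (nat_lit 0), (nat_lit 2047)], [((nat_lit 0), (nat_lit 0), (nat_lit 0)), ((nat_lit 0), (nat_lit 0), (nat_lit 0)), ((nat_lit 1000), (nat_lit 993), (nat_lit 781))], ((nat_lit 95), (nat_lit 100), (nat_lit 65))⟩, (nat_lit 155635), (nat_lit 733), (nat_lit 733), (nat_lit 0), (nat_lit 1252697), [(nat_lit 364302000), (nat_lit 693750000), (nat_lit 1092462000)], [], [(nat_lit 4305857393), (nat_lit 4318669511), (nat_lit 4406806805), (nat_lit 4416946299), (nat_lit 3897997124), (nat_lit 3899317739), (nat_lit 3942786733), (nat_lit 3942422615)], (nat_lit 1271251), (nat_lit 1271251), (nat_lit 1271251), (nat_lit 1271251), (nat_lit 54688), (nat_lit 2559376), [(nat_lit 780000), (nat_lit 1435001), (nat_lit 1271251)], [(nat_lit 11), (nat_lit 55), (nat_lit 317), (nat_lit 100), (nat_lit 8)]⟩,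
 Rw.none⟩) (.trX (nat_lit 3) (nat_lit 0) (nat_lit 1) (nat_lit 35) (nat_lit 79) (nat_lit 100) (nat_lit 350) (.leaf ⟨(nat_lit 904), (nat_lit 96), (nat_lit 0), (nat_lit 0), (nat_lit 0), (nat_lit 3116), (nat_lit 740), (nat_lit 0), (nat_lit 0), (nat_lit 0), (nat_lit 226000), [((nat_lit 400), [((nat_lit 28), (nat_lit 0), (nat_lit 904))])], ⟨(nat_lit 8), false, true, true, (nat_lit 312), (nat_lit 0), (nat_lit 1582), [(nat_lit 1757165), (nat_lit 1749998), (nat_lit 1768823), (nat_lit 1762499), (nat_lit 1798140), (nat_lit 1787496), (nat_lit 1809798), (nat_lit 1799997)]⟩, ⟨(nat_lit 4), false, false, true, (nat_lit 161), (nat_lit 0), (nat_lit 1582), [(nat_lit 1352101), (nat_lit 1349997), (nat_lit 1398733), (nat_lit 1399999), (nat_lit 1406735), (nat_lit 1399996), (nat_lit 1453367), (nat_lit 1449998)]⟩, (nat_lit 5094357), (nat_lit 36343006), (nat_lit 22816236), (nat_lit 7840758), (nat_lit 4), (nat_lit 0), [⟨(nat_lit 1), (nat_lit 79), (nat_lit 35), (nat_lit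 100), (nat_lit 495303792)⟩], [], [], [⟨(nat_lit 1), (nat_lit 75), (nat_lit 74), (nat_lit 100), (nat_lit 17161553)⟩],
 ⟨⟨[(nat_lit 40), (nat_lit 60)], [(nat_lit 0), (nat_lit 2136)], [((nat_lit 0), (nat_lit 0), (nat_lit 0)), ((nat_lit 1000), (nat_lit 343), (nat_lit 808))], ((nat_lit 37), (nat_lit 100), (nat_lit 75))⟩, (nat_lit 0), (nat_lit 74), (nat_lit 74), (nat_lit 0), (nat_lit 0), [(nat_lit 1585740802), (nat_lit 1260656000)], [(nat_lit 0), (nat_lit 0)], [(nat_lit 27335181498), (nat_lit 27860970900), (nat_lit 28672037789), (nat_lit 29212693276), (nat_lit 28050129486), (nat_lit 28545640692), (nat_lit 29306957445), (nat_lit 29816111197)], (nat_lit 0), (nat_lit 0), (nat_lit 0), (nat_lit 0), (nat_lit 0), (nat_lit 0), [], [(nat_lit 1), (nat_lit 38), (nat_lit 203), (nat_lit 0), (nat_lit 8)]⟩,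
 ⟨⟨[(nat_lit 60), (nat_lit 100), (nat_lit 140)], [(nat_lit 0), (nat_lit 0), (nat_lit 2047)], [((nat_lit 0), (nat_lit 0), (nat_lit 0)), ((nat_lit 0), (nat_lit 0), (nat_lit 0)), ((nat_lit 1000), (nat_lit 993), (nat_lit 781))], ((nat_lit 95), (nat_lit 100), (nat_lit 65))⟩, (nat_lit 140531), (nat_lit 784), (nat_lit 784), (nat_lit 0), (nat_lit 1388095), [(nat_lit 315072000), (nat_lit 600000000), (nat_lit 944832000)], [], [(nat_lit 3682927962), (nat_lit 3693963078), (nat_lit 3748497960), (nat_lit 3757788449), (nat_lit 3323659619), (nat_lit 3324697677), (nat_lit 3352580014), (nat_lit 3353096726)], (nat_lit 1271251), (nat_lit 1271251), (nat_lit 1271251), (nat_lit 1271251), (nat_lit 54688), (nat_lit 2559376), [(nat_lit 780000), (nat_lit 1435001), (nat_lit 1271251)], [(nat_lit 11), (nat_lit 55), (nat_lit 321), (nat_lit 100), (nat_lit 8)]⟩,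
 Rw.none⟩))) (.spl (nat_lit 5) (nat_lit 200) (.leaf ⟨(nat_lit 22), (nat_lit 978), (nat_lit 0), (nat_lit 0), (nat_lit 0), (nat_lit 3393), (nat_lit 6592), (nat_lit 0), (nat_lit 0), (nat_lit 0), (nat_lit 88000), [((nat_lit 400), [((nat_lit 43), (nat_lit 5), (nat_lit 22))])], ⟨(nat_lit 8), false, true, true, (nat_lit 320), (nat_lit 0), (nat_lit 2237), [(nat_lit 1773529), (nat_lit 1762499), (nat_lit 1784917), (nat_lit 1774999), (nat_lit 1830542), (nat_lit 1812496), (nat_lit 1841930), (nat_lit 1824997)]⟩, ⟨(nat_lit 4), false, false, true, (nat_lit 161), (nat_lit 0), (nat_lit 2237), [(nat_lit 1351885), (nat_lit 1349998), (nat_lit 1397434), (nat_lit 1399999), (nat_lit 1408898), (nat_lit 1399996), (nat_lit 1454449), (nat_lit 1449998)]⟩, (nat_lit 5107496), (nat_lit 35691677), (nat_lit 23564414), (nat_lit 7743909), (nat_lit 4), (nat_lit 0), [⟨(nat_lit 1), (nat_lit 78), (nat_lit 35), (nat_lit 100), (nat_lit 731229378)⟩], [⟨(nat_lit 1), (nat_lit 100), (nat_lit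 31), (nat_lit 95), (nat_lit 881853272)⟩], [], [],
 ⟨⟨[(nat_lit 40), (nat_lit 60)], [(nat_lit 0), (nat_lit 1539)], [((nat_lit 0), (nat_lit 0), (nat_lit 0)), ((nat_lit 1000), (nat_lit 478), (nat_lit 704))], ((nat_lit 48), (nat_lit 100), (nat_lit 69))⟩, (nat_lit 614594), (nat_lit 76), (nat_lit 76), (nat_lit 0), (nat_lit 0), [(nat_lit 1823484039), (nat_lit 2838752800)], [(nat_lit 0), (nat_lit 0)], [(nat_lit 27184885404), (nat_lit 28229091325), (nat_lit 29002029380), (nat_lit 30092321920), (nat_lit 27891282669), (nat_lit 28881316402), (nat_lit 29627623748), (nat_lit 30642860913)], (nat_lit 0), (nat_lit 0), (nat_lit 0), (nat_lit 0), (nat_lit 0), (nat_lit 0), [], [(nat_lit 1), (nat_lit 38), (nat_lit 203), (nat_lit 0), (nat_lit 8)]⟩,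
 ⟨⟨[(nat_lit 60), (nat_lit 100), (nat_lit 140)], [(nat_lit 0), (nat_lit 302), (nat_lit 2304)], [((nat_lit 0), (nat_lit 0), (nat_lit 0)), ((nat_lit 1000), (nat_lit 953), (nat_lit 118)), ((nat_lit 1000), (nat_lit 952), (nat_lit 781))], ((nat_lit 91), (nat_lit 100), (nat_lit 64))⟩, (nat_lit 8261489), (nat_lit 766), (nat_lit 766), (nat_lit 0), (nat_lit 1344116), [(nat_lit 3209796000), (nat_lit 6112500000), (nat_lit 9625476000)], [], [(nat_lit 28216514658), (nat_lit 29005925213), (nat_lit 32545787230), (nat_lit 33211315240), (nat_lit 24351423588), (nat_lit 24471549123), (nat_lit 27287917959), (nat_lit 27822906954)], (nat_lit 1271251), (nat_lit 1271251), (nat_lit 1271251), (nat_lit 1271251), (nat_lit 54688), (nat_lit 1414376), [(nat_lit 780000), (nat_lit 1435001), (nat_lit 1271251)], [(nat_lit 11), (nat_lit 55), (nat_lit 299), (nat_lit 50), (nat_lit 8)]⟩,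
 Rw.none⟩) (.leaf ⟨(nat_lit 849), (nat_lit 151), (nat_lit 0), (nat_lit 0), (nat_lit 0), (nat_lit 3082), (nat_lit 1030), (nat_lit 0), (nat_lit 0), (nat_lit 0), (nat_lit 212250), [((nat_lit 400), [((nat_lit 28), (nat_lit 0), (nat_lit 849))])], ⟨(nat_lit 8), false, true, true, (nat_lit 320), (nat_lit 0), (nat_lit 2237), [(nat_lit 1773529), (nat_lit 1762499), (nat_lit 1784917), (nat_lit 1774999), (nat_lit 1830542), (nat_lit 1812496), (nat_lit 1841930), (nat_lit 1824997)]⟩, ⟨(nat_lit 4), false, false, true, (nat_lit 161), (nat_lit 0), (nat_lit 2237), [(nat_lit 1351885), (nat_lit 1349998), (nat_lit 1397434), (nat_lit 1399999), (nat_lit 1408898), (nat_lit 1399996), (nat_lit 1454449), (nat_lit 1449998)]⟩, (nat_lit 5107496), (nat_lit 35691677), (nat_lit 23564414), (nat_lit 7743909), (nat_lit 5), (nat_lit 0), [⟨(nat_lit 1), (nat_lit 78), (nat_lit 35), (nat_lit 100), (nat_lit 346010133)⟩], [], [], [⟨(nat_lit 1), (nat_lit 77), (nat_lit 72), (nat_lit 100),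 (nat_lit 60314836)⟩],
 ⟨⟨[(nat_lit 40), (nat_lit 60)], [(nat_lit 0), (nat_lit 1539)], [((nat_lit 0), (nat_lit 0), (nat_lit 0)), ((nat_lit 1000), (nat_lit 478), (nat_lit 704))], ((nat_lit 48), (nat_lit 100), (nat_lit 69))⟩, (nat_lit 0), (nat_lit 76), (nat_lit 76), (nat_lit 0), (nat_lit 0), [(nat_lit 1598654801), (nat_lit 1383636000)], [(nat_lit 0), (nat_lit 0)], [(nat_lit 26855017036), (nat_lit 27901882794), (nat_lit 28666912256), (nat_lit 29632838080), (nat_lit 27601873554), (nat_lit 28588629578), (nat_lit 29314357432), (nat_lit 30214104066)], (nat_lit 0), (nat_lit 0), (nat_lit 0), (nat_lit 0), (nat_lit 0), (nat_lit 0), [], [(nat_lit 1), (nat_lit 38), (nat_lit 203), (nat_lit 0), (nat_lit 8)]⟩,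
 ⟨⟨[(nat_lit 60), (nat_lit 100), (nat_lit 140)], [(nat_lit 0), (nat_lit 302), (nat_lit 2304)], [((nat_lit 0), (nat_lit 0), (nat_lit 0)), ((nat_lit 1000), (nat_lit 953), (nat_lit 118)), ((nat_lit 1000), (nat_lit 952), (nat_lit 781))], ((nat_lit 91), (nat_lit 100), (nat_lit 64))⟩, (nat_lit 368290), (nat_lit 652), (nat_lit 652), (nat_lit 0), (nat_lit 1344116), [(nat_lit 495582000), (nat_lit 943750000), (nat_lit 1486142000)], [], [(nat_lit 4911218038), (nat_lit 4928418336), (nat_lit 5036450193), (nat_lit 5056668798), (nat_lit 5152212600), (nat_lit 5164774932), (nat_lit 5257608433), (nat_lit 5267883718)], (nat_lit 1271251), (nat_lit 1271251), (nat_lit 1271251), (nat_lit 1271251), (nat_lit 1271251), (nat_lit 1271251), [(nat_lit 780000), (nat_lit 1435001), (nat_lit 1271251)], [(nat_lit 11), (nat_lit 55), (nat_lit 317), (nat_lit 100), (nat_lit 8)]⟩,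
 Rw.none⟩))) (.leaf ⟨(nat_lit 828), (nat_lit 130), (nat_lit 0), (nat_lit 42), (nat_lit 0), (nat_lit 2926), (nat_lit 1301), (nat_lit 448), (nat_lit 0), (nat_lit 0), (nat_lit 331200), [((nat_lit 400), [((nat_lit 28), (nat_lit 1), (nat_lit 828))])], ⟨(nat_lit 8), false, true, true, (nat_lit 318), (nat_lit 0), (nat_lit 2237), [(nat_lit 1762141), (nat_lit 1749998), (nat_lit 1784917), (nat_lit 1774999), (nat_lit 1819154), (nat_lit 1799995), (nat_lit 1841930), (nat_lit 1824997)]⟩, ⟨(nat_lit 4), false, false, true, (nat_lit 175), (nat_lit 0), (nat_lit 2237), [(nat_lit 1397434), (nat_lit 1399999), (nat_lit 1419294), (nat_lit 1424084), (nat_lit 1454449), (nat_lit 1449998), (nat_lit 1477224), (nat_lit 1474999)]⟩, (nat_lit 5219738), (nat_lit 35234035), (nat_lit 23013475), (nat_lit 8752490), (nat_lit 4), (nat_lit 0), [⟨(nat_lit 1), (nat_lit 79), (nat_lit 35), (nat_lit 100), (nat_lit 299935532)⟩, ⟨(nat_lit 1), (nat_lit 65), (nat_lit 50), (nat_lit 100), (nat_lit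 107095624)⟩], [], [], [],
 ⟨⟨[(nat_lit 40), (nat_lit 60)], [(nat_lit 0), (nat_lit 1539)], [((nat_lit 0), (nat_lit 0), (nat_lit 0)), ((nat_lit 1000), (nat_lit 478), (nat_lit 704))], ((nat_lit 48), (nat_lit 100), (nat_lit 69))⟩, (nat_lit 0), (nat_lit 76), (nat_lit 76), (nat_lit 0), (nat_lit 0), [(nat_lit 1464481654), (nat_lit 833438400)], [(nat_lit 0), (nat_lit 0)], [(nat_lit 26677503770), (nat_lit 27702744964), (nat_lit 28456177230), (nat_lit 29402357440), (nat_lit 27431840644), (nat_lit 28399021476), (nat_lit 29114426498), (nat_lit 29998101566)], (nat_lit 0), (nat_lit 0), (nat_lit 0), (nat_lit 0), (nat_lit 0), (nat_lit 0), [], [(nat_lit 1), (nat_lit 38), (nat_lit 203), (nat_lit 0), (nat_lit 8)]⟩,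
 ⟨⟨[(nat_lit 60), (nat_lit 100), (nat_lit 140)], [(nat_lit 0), (nat_lit 0), (nat_lit 2047)], [((nat_lit 0), (nat_lit 0), (nat_lit 0)), ((nat_lit 0), (nat_lit 0), (nat_lit 0)), ((nat_lit 1000), (nat_lit 993), (nat_lit 781))], ((nat_lit 95), (nat_lit 100), (nat_lit 65))⟩, (nat_lit 314994), (nat_lit 715), (nat_lit 715), (nat_lit 0), (nat_lit 1204276), [(nat_lit 564504000), (nat_lit 1075000000), (nat_lit 1692824000)], [], [(nat_lit 6594544247), (nat_lit 6634482319), (nat_lit 6750667650), (nat_lit 6782397794), (nat_lit 6046307989), (nat_lit 6059183771), (nat_lit 6135843599), (nat_lit 6145313244)], (nat_lit 1271251), (nat_lit 1271251), (nat_lit 1271251), (nat_lit 1271251), (nat_lit 54688), (nat_lit 2559376), [(nat_lit 780000), (nat_lit 1435001), (nat_lit 1271251)], [(nat_lit 11), (nat_lit 55), (nat_lit 317), (nat_lit 100), (nat_lit 8)]⟩,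
 ⟨⟨[(nat_lit 120), (nat_lit 160), (nat_lit 180)], [(nat_lit 0), (nat_lit 0), (nat_lit 1613)], [((nat_lit 0), (nat_lit 0), (nat_lit 0)), ((nat_lit 0), (nat_lit 0), (nat_lit 0)), ((nat_lit 620), (nat_lit 1000), (nat_lit 670))], ((nat_lit 100), (nat_lit 65), (nat_lit 64))⟩, (nat_lit 18279), (nat_lit 300), (nat_lit 1955), (nat_lit 3116400), (nat_lit 3373337), [(nat_lit 334656000), (nat_lit 498624000), (nat_lit 590436000)], [], [(nat_lit 2759927164), (nat_lit 2732971732), (nat_lit 2706016300), (nat_lit 2679073571), (nat_lit 2575215328), (nat_lit 2709275576), (nat_lit 2843333864), (nat_lit 2979928784)], (nat_lit 1100000), (nat_lit 1271251), (nat_lit 1100000), (nat_lit 1442501), (nat_lit 54688), (nat_lit 2559376), [(nat_lit 1695001), (nat_lit 1271251), (nat_lit 1271251)], [(nat_lit 28), (nat_lit 65), (nat_lit 582), (nat_lit 200), (nat_lit 14)]⟩⟩)) (.spl (nat_lit 2) (nat_lit 160) (.trX (nat_lit 5) (nat_lit 1) (nat_lit 2) (nat_lit 88) (nat_lit 68) (nat_lit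 100) (nat_lit 350) (.spl (nat_lit 1) (nat_lit 310) (.leaf ⟨(nat_lit 788), (nat_lit 212), (nat_lit 0), (nat_lit 0), (nat_lit 0), (nat_lit 3099), (nat_lit 1273), (nat_lit 0), (nat_lit 0), (nat_lit 0), (nat_lit 197000), [((nat_lit 400), [((nat_lit 28), (nat_lit 0), (nat_lit 788))])], ⟨(nat_lit 8), false, true, true, (nat_lit 325), (nat_lit 0), (nat_lit 2237), [(nat_lit 1784917), (nat_lit 1774999), (nat_lit 1796304), (nat_lit 1787499), (nat_lit 1841930), (nat_lit 1824997), (nat_lit 1853318), (nat_lit 1837498)]⟩, ⟨(nat_lit 4), false, false, true, (nat_lit 161), (nat_lit 0), (nat_lit 2237), [(nat_lit 1351885), (nat_lit 1349998), (nat_lit 1397434), (nat_lit 1399999), (nat_lit 1408898), (nat_lit 1399996), (nat_lit 1454449), (nat_lit 1449998)]⟩, (nat_lit 5112936), (nat_lit 35335498), (nat_lit 23978022), (nat_lit 7686480), (nat_lit 4), (nat_lit 0), [⟨(nat_lit 1), (nat_lit 76), (nat_lit 37), (nat_lit 100), (nat_lit 333872752)⟩], [], [], [⟨(nat_lit 1),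 (nat_lit 77), (nat_lit 72), (nat_lit 100), (nat_lit 51195394)⟩],
 ⟨⟨[(nat_lit 40), (nat_lit 60)], [(nat_lit 0), (nat_lit 1539)], [((nat_lit 0), (nat_lit 0), (nat_lit 0)), ((nat_lit 1000), (nat_lit 478), (nat_lit 704))], ((nat_lit 48), (nat_lit 100), (nat_lit 69))⟩, (nat_lit 0), (nat_lit 76), (nat_lit 76), (nat_lit 0), (nat_lit 0), [(nat_lit 1612977640), (nat_lit 1520032000)], [(nat_lit 0), (nat_lit 0)], [(nat_lit 26873764243), (nat_lit 27922986524), (nat_lit 28689279783), (nat_lit 29657954560), (nat_lit 27619805594), (nat_lit 28608694812), (nat_lit 29335547590), (nat_lit 30237091328)], (nat_lit 0), (nat_lit 0), (nat_lit 0), (nat_lit 0), (nat_lit 0), (nat_lit 0), [], [(nat_lit 1), (nat_lit 38), (nat_lit 203), (nat_lit 0), (nat_lit 8)]⟩,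
 ⟨⟨[(nat_lit 60), (nat_lit 100), (nat_lit 120)], [(nat_lit 0), (nat_lit 609), (nat_lit 1609)], [((nat_lit 0), (nat_lit 0), (nat_lit 0)), ((nat_lit 1000), (nat_lit 905), (nat_lit 238)), ((nat_lit 1000), (nat_lit 882), (nat_lit 668))], ((nat_lit 88), (nat_lit 100), (nat_lit 63))⟩, (nat_lit 622227), (nat_lit 687), (nat_lit 687), (nat_lit 0), (nat_lit 1306520), [(nat_lit 695784000), (nat_lit 1325000000), (nat_lit 1689216000)], [], [(nat_lit 7112597109), (nat_lit 7154165694), (nat_lit 7350771494), (nat_lit 7387099276), (nat_lit 7003808422), (nat_lit 7023167719), (nat_lit 7138488751), (nat_lit 7155570661)], (nat_lit 1271251), (nat_lit 1271251), (nat_lit 1271251), (nat_lit 1271251), (nat_lit 54688), (nat_lit 2487813), [(nat_lit 780000), (nat_lit 1435001), (nat_lit 1271251)], [(nat_lit 10), (nat_lit 54), (nat_lit 317), (nat_lit 100), (nat_lit 9)]⟩,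
 Rw.none⟩) (.leaf ⟨(nat_lit 701), (nat_lit 299), (nat_lit 0), (nat_lit 0), (nat_lit 0), (nat_lit 3008), (nat_lit 1730), (nat_lit 0), (nat_lit 0), (nat_lit 0), (nat_lit 263450), [((nat_lit 400), [((nat_lit 28), (nat_lit 0), (nat_lit 113)), ((nat_lit 28), (nat_lit 1), (nat_lit 588))])], ⟨(nat_lit 8), false, true, true, (nat_lit 330), (nat_lit 0), (nat_lit 2237), [(nat_lit 1796304), (nat_lit 1787499), (nat_lit 1807594), (nat_lit 1799902), (nat_lit 1853318), (nat_lit 1837498), (nat_lit 1864705), (nat_lit 1849998)]⟩, ⟨(nat_lit 4), false, false, true, (nat_lit 161), (nat_lit 0), (nat_lit 2237), [(nat_lit 1351885), (nat_lit 1349998), (nat_lit 1397434), (nat_lit 1399999), (nat_lit 1408898), (nat_lit 1399996), (nat_lit 1454449), (nat_lit 1449998)]⟩, (nat_lit 5117364), (nat_lit 34982607), (nat_lit 24388411), (nat_lit 7628982), (nat_lit 4), (nat_lit 0), [⟨(nat_lit 1), (nat_lit 73), (nat_lit 38), (nat_lit 100), (nat_lit 195051048)⟩], [⟨(nat_lit 1), (nat_lit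 100), (nat_lit 31), (nat_lit 95), (nat_lit 140530002)⟩], [], [⟨(nat_lit 1), (nat_lit 77), (nat_lit 72), (nat_lit 100), (nat_lit 76684832)⟩],
 ⟨⟨[(nat_lit 40), (nat_lit 60)], [(nat_lit 0), (nat_lit 1539)], [((nat_lit 0), (nat_lit 0), (nat_lit 0)), ((nat_lit 1000), (nat_lit 478), (nat_lit 704))], ((nat_lit 48), (nat_lit 100), (nat_lit 69))⟩, (nat_lit 0), (nat_lit 76), (nat_lit 76), (nat_lit 0), (nat_lit 0), [(nat_lit 1534621201), (nat_lit 1290498400)], [(nat_lit 0), (nat_lit 0)], [(nat_lit 26770037298), (nat_lit 27806645250), (nat_lit 28566173478), (nat_lit 29523507520), (nat_lit 27520442190), (nat_lit 28497912546), (nat_lit 29218743672), (nat_lit 30111314128)], (nat_lit 0), (nat_lit 0), (nat_lit 0), (nat_lit 0), (nat_lit 0), (nat_lit 0), [], [(nat_lit 1), (nat_lit 38), (nat_lit 203), (nat_lit 0), (nat_lit 8)]⟩,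
 ⟨⟨[(nat_lit 60), (nat_lit 100), (nat_lit 120)], [(nat_lit 0), (nat_lit 909), (nat_lit 1866)], [((nat_lit 0), (nat_lit 0), (nat_lit 0)), ((nat_lit 1000), (nat_lit 858), (nat_lit 354)), ((nat_lit 1000), (nat_lit 849), (nat_lit 705))], ((nat_lit 84), (nat_lit 100), (nat_lit 63))⟩, (nat_lit 850239), (nat_lit 673), (nat_lit 673), (nat_lit 0), (nat_lit 1274341), [(nat_lit 981318000), (nat_lit 1868750000), (nat_lit 2382432000)], [], [(nat_lit 9796745740), (nat_lit 9865162023), (nat_lit 10163372495), (nat_lit 10223850380), (nat_lit 9874638938), (nat_lit 9908306999), (nat_lit 10086303043), (nat_lit 10117871796)], (nat_lit 1271251), (nat_lit 1271251), (nat_lit 1271251), (nat_lit 1271251), (nat_lit 54688), (nat_lit 2487813), [(nat_lit 780000), (nat_lit 1435001), (nat_lit 1271251)], [(nat_lit 10), (nat_lit 54), (nat_lit 317), (nat_lit 100), (nat_lit 9)]⟩,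
 Rw.none⟩))) (.leaf ⟨(nat_lit 22), (nat_lit 795), (nat_lit 0), (nat_lit 183), (nat_lit 0), (nat_lit 3345), (nat_lit 5709), (nat_lit 1805), (nat_lit 0), (nat_lit 0), (nat_lit 88000), [((nat_lit 400), [((nat_lit 43), (nat_lit 5), (nat_lit 22))])], ⟨(nat_lit 8), false, true, true, (nat_lit 327), (nat_lit 0), (nat_lit 2237), [(nat_lit 1784917), (nat_lit 1774999), (nat_lit 1807594), (nat_lit 1799902), (nat_lit 1841930), (nat_lit 1824997), (nat_lit 1864705), (nat_lit 1849998)]⟩, ⟨(nat_lit 4), false, false, true, (nat_lit 175), (nat_lit 0), (nat_lit 2237), [(nat_lit 1397434), (nat_lit 1399999), (nat_lit 1419294), (nat_lit 1424084), (nat_lit 1454449), (nat_lit 1449998), (nat_lit 1477224), (nat_lit 1474999)]⟩, (nat_lit 5229906), (nat_lit 34549248), (nat_lit 23827257), (nat_lit 8623495), (nat_lit 4), (nat_lit 0), [⟨(nat_lit 1), (nat_lit 74), (nat_lit 37), (nat_lit 100), (nat_lit 111084571)⟩], [], [], [⟨(nat_lit 1), (nat_lit 77), (nat_lit 72), (nat_lit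 100), (nat_lit 74093872)⟩],
 ⟨⟨[(nat_lit 40), (nat_lit 60)], [(nat_lit 0), (nat_lit 1539)], [((nat_lit 0), (nat_lit 0), (nat_lit 0)), ((nat_lit 1000), (nat_lit 478), (nat_lit 704))], ((nat_lit 48), (nat_lit 100), (nat_lit 69))⟩, (nat_lit 705740), (nat_lit 76), (nat_lit 76), (nat_lit 0), (nat_lit 0), [(nat_lit 1823484033), (nat_lit 2838752800)], [(nat_lit 0), (nat_lit 0)], [(nat_lit 27151540331), (nat_lit 28234862886), (nat_lit 29019444031), (nat_lit 30021404800), (nat_lit 27885785736), (nat_lit 28905543526), (nat_lit 29648674616), (nat_lit 30576590145)], (nat_lit 0), (nat_lit 0), (nat_lit 0), (nat_lit 0), (nat_lit 0), (nat_lit 0), [], [(nat_lit 1), (nat_lit 38), (nat_lit 203), (nat_lit 0), (nat_lit 8)]⟩,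
 ⟨⟨[(nat_lit 60), (nat_lit 100), (nat_lit 120)], [(nat_lit 0), (nat_lit 609), (nat_lit 1609)], [((nat_lit 0), (nat_lit 0), (nat_lit 0)), ((nat_lit 1000), (nat_lit 905), (nat_lit 238)), ((nat_lit 1000), (nat_lit 882), (nat_lit 668))], ((nat_lit 88), (nat_lit 100), (nat_lit 63))⟩, (nat_lit 5466058), (nat_lit 622), (nat_lit 622), (nat_lit 0), (nat_lit 1136282), [(nat_lit 3209796000), (nat_lit 6112500000), (nat_lit 7792704000)], [], [(nat_lit 29456317896), (nat_lit 30043041429), (nat_lit 31289564250), (nat_lit 32527847820), (nat_lit 30998452889), (nat_lit 31669237824), (nat_lit 33028573682), (nat_lit 33644599269)], (nat_lit 1271251), (nat_lit 1271251), (nat_lit 1271251), (nat_lit 1271251), (nat_lit 54688), (nat_lit 2559376), [(nat_lit 780000), (nat_lit 1435001), (nat_lit 1271251)], [(nat_lit 10), (nat_lit 54), (nat_lit 317), (nat_lit 100), (nat_lit 9)]⟩,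
 ⟨⟨[(nat_lit 120), (nat_lit 160), (nat_lit 180)], [(nat_lit 0), (nat_lit 0), (nat_lit 1613)], [((nat_lit 0), (nat_lit 0), (nat_lit 0)), ((nat_lit 0), (nat_lit 0), (nat_lit 0)), ((nat_lit 620), (nat_lit 1000), (nat_lit 670))], ((nat_lit 100), (nat_lit 65), (nat_lit 64))⟩, (nat_lit 106173), (nat_lit 300), (nat_lit 2075), (nat_lit 13578600), (nat_lit 3605252), [(nat_lit 1458144000), (nat_lit 2172576000), (nat_lit 2572614000)], [], [(nat_lit 14290276475), (nat_lit 14184490017), (nat_lit 14078703559), (nat_lit 13972997991), (nat_lit 12330246296), (nat_lit 12225895775), (nat_lit 12121545254), (nat_lit 12676899877)], (nat_lit 1100000), (nat_lit 1271251), (nat_lit 1100000), (nat_lit 1442501), (nat_lit 54688), (nat_lit 2559376), [(nat_lit 1695001), (nat_lit 1271251), (nat_lit 1271251)], [(nat_lit 28), (nat_lit 65), (nat_lit 612), (nat_lit 200), (nat_lit 14)]⟩⟩)))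
noncomputable def c14_22 : Tr Lf :=
 (.spl (nat_lit 0) (nat_lit 390) (.leaf ⟨(nat_lit 911), (nat_lit 0), (nat_lit 0), (nat_lit 89), (nat_lit 0), (nat_lit 3091), (nat_lit 800), (nat_lit 2044), (nat_lit 0), (nat_lit 0), (nat_lit 227750), [((nat_lit 390), [((nat_lit 28), (nat_lit 0), (nat_lit 911))])], ⟨(nat_lit 8), false, true, true, (nat_lit 315), (nat_lit 1581), (nat_lit 2237), [(nat_lit 1716594), (nat_lit 1710536), (nat_lit 1807675), (nat_lit 1803781), (nat_lit 1773609), (nat_lit 1765172), (nat_lit 1864706), (nat_lit 1858432)]⟩, ⟨(nat_lit 5), true, false, true, (nat_lit 186), (nat_lit 1581), (nat_lit 2237), [(nat_lit 1408901), (nat_lit 1406738), (nat_lit 1454450), (nat_lit 1453368), (nat_lit 1480171), (nat_lit 1475033), (nat_lit 1525719), (nat_lit 1521663)]⟩, (nat_lit 5301480), (nat_lit 34917442), (nat_lit 22486081), (nat_lit 9596477), (nat_lit 0), (nat_lit 0), [⟨(nat_lit 1), (nat_lit 76), (nat_lit 41), (nat_lit 100), (nat_lit 32989150)⟩],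 [⟨(nat_lit 1), (nat_lit 100), (nat_lit 38), (nat_lit 96), (nat_lit 132461879)⟩], [], [⟨(nat_lit 0), (nat_lit 100), (nat_lit 72), (nat_lit 79), (nat_lit 61340247)⟩],
 ⟨⟨[(nat_lit 40), (nat_lit 60)], [(nat_lit 0), (nat_lit 1539)], [((nat_lit 0), (nat_lit 0), (nat_lit 0)), ((nat_lit 1000), (nat_lit 478), (nat_lit 704))], ((nat_lit 48), (nat_lit 100), (nat_lit 69))⟩, (nat_lit 0), (nat_lit 69), (nat_lit 69), (nat_lit 0), (nat_lit 0), [(nat_lit 1584097201), (nat_lit 1245004000)], [(nat_lit 0), (nat_lit 0)], [(nat_lit 27567086428), (nat_lit 28061029109), (nat_lit 29281295192), (nat_lit 29731644213), (nat_lit 28594220584), (nat_lit 29049919748), (nat_lit 30181455226), (nat_lit 30601216089)], (nat_lit 0), (nat_lit 0), (nat_lit 0), (nat_lit 0), (nat_lit 0), (nat_lit 0), [], [(nat_lit 1), (nat_lit 38), (nat_lit 203), (nat_lit 0), (nat_lit 8)]⟩,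
 ⟨⟨[(nat_lit 80), (nat_lit 120), (nat_lit 160)], [(nat_lit 0), (nat_lit 0), (nat_lit 2132)], [((nat_lit 0), (nat_lit 0), (nat_lit 0)), ((nat_lit 0), (nat_lit 0), (nat_lit 0)), ((nat_lit 858), (nat_lit 1000), (nat_lit 713))], ((nat_lit 100), (nat_lit 91), (nat_lit 64))⟩, (nat_lit 144308), (nat_lit 1033), (nat_lit 1033), (nat_lit 0), (nat_lit 1822316), [(nat_lit 417232000), (nat_lit 709152000), (nat_lit 1056608000)], [], [(nat_lit 3623922200), (nat_lit 3594508720), (nat_lit 3647766945), (nat_lit 3609532042), (nat_lit 3226045497), (nat_lit 3353785589), (nat_lit 3370342117), (nat_lit 3553498940)], (nat_lit 1271251), (nat_lit 1271251), (nat_lit 1271251), (nat_lit 1271251), (nat_lit 230000), (nat_lit 2833126), [(nat_lit 1100000), (nat_lit 1785001), (nat_lit 1271251)], [(nat_lit 18), (nat_lit 59), (nat_lit 428), (nat_lit 200), (nat_lit 10)]⟩,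
 ⟨⟨[(nat_lit 140), (nat_lit 180), (nat_lit 200)], [(nat_lit 0), (nat_lit 0), (nat_lit 2835)], [((nat_lit 0), (nat_lit 0), (nat_lit 0)), ((nat_lit 0), (nat_lit 0), (nat_lit 0)), ((nat_lit 363), (nat_lit 1000), (nat_lit 798))], ((nat_lit 0), (nat_lit 0), (nat_lit 0))⟩, (nat_lit 24487), (nat_lit 300), (nat_lit 343), (nat_lit 6950900), (nat_lit 0), [(nat_lit 875938000), (nat_lit 1251162000), (nat_lit 1459600000)], [], [(nat_lit 4741260957), (nat_lit 4459389487), (nat_lit 4858531785), (nat_lit 4619751484), (nat_lit 4647044406), (nat_lit 4310330013), (nat_lit 4526360093), (nat_lit 4179941221)], (nat_lit 0), (nat_lit 0), (nat_lit 0), (nat_lit 0), (nat_lit 0), (nat_lit 0), [], [(nat_lit 32), (nat_lit 67), (nat_lit 428), (nat_lit 200), (nat_lit 9)]⟩⟩) (.trX (nat_lit 4) (nat_lit 0) (nat_lit 2) (nat_lit 31) (nat_lit 100) (nat_lit 99) (nat_lit 230) (.trX (nat_lit 5) (nat_lit 3) (nat_lit 4) (nat_lit 81) (nat_lit 48) (nat_lit 100) (nat_lit 380) (.leaf ⟨(nat_lit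 906), (nat_lit 0), (nat_lit 0), (nat_lit 94), (nat_lit 0), (nat_lit 3093), (nat_lit 861), (nat_lit 2159), (nat_lit 0), (nat_lit 0), (nat_lit 226500), [((nat_lit 400), [((nat_lit 28), (nat_lit 0), (nat_lit 906))])], ⟨(nat_lit 8), false, true, true, (nat_lit 312), (nat_lit 0), (nat_lit 1582), [(nat_lit 1710533), (nat_lit 1699996), (nat_lit 1803773), (nat_lit 1799976), (nat_lit 1765166), (nat_lit 1749993), (nat_lit 1858431), (nat_lit 1849998)]⟩, ⟨(nat_lit 5), true, false, true, (nat_lit 179), (nat_lit 0), (nat_lit 1582), [(nat_lit 1406735), (nat_lit 1399996), (nat_lit 1453367), (nat_lit 1449998), (nat_lit 1447710), (nat_lit 1437494), (nat_lit 1494343), (nat_lit 1487497)]⟩, (nat_lit 5241878), (nat_lit 35485308), (nat_lit 22400837), (nat_lit 9113855), (nat_lit 0), (nat_lit 0), [⟨(nat_lit 1), (nat_lit 72), (nat_lit 39), (nat_lit 100), (nat_lit 269155491)⟩], [⟨(nat_lit 1), (nat_lit 100), (nat_lit 31), (nat_lit 99), (nat_lit 144790461)⟩], [], [⟨(nat_lit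 0), (nat_lit 100), (nat_lit 61), (nat_lit 89), (nat_lit 79265277)⟩],
 ⟨⟨[(nat_lit 40), (nat_lit 60)], [(nat_lit 0), (nat_lit 2136)], [((nat_lit 0), (nat_lit 0), (nat_lit 0)), ((nat_lit 1000), (nat_lit 343), (nat_lit 808))], ((nat_lit 37), (nat_lit 100), (nat_lit 75))⟩, (nat_lit 0), (nat_lit 72), (nat_lit 72), (nat_lit 0), (nat_lit 0), [(nat_lit 1585271203), (nat_lit 1256184000)], [(nat_lit 0), (nat_lit 0)], [(nat_lit 28062242167), (nat_lit 28556310330), (nat_lit 29733872931), (nat_lit 30228668613), (nat_lit 28599393620), (nat_lit 29070866442), (nat_lit 30198245828), (nat_lit 30663352633)], (nat_lit 0), (nat_lit 0), (nat_lit 0), (nat_lit 0), (nat_lit 0), (nat_lit 0), [], [(nat_lit 1), (nat_lit 38), (nat_lit 203), (nat_lit 0), (nat_lit 7)]⟩,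
 ⟨⟨[(nat_lit 80), (nat_lit 120), (nat_lit 160)], [(nat_lit 0), (nat_lit 0), (nat_lit 2132)], [((nat_lit 0), (nat_lit 0), (nat_lit 0)), ((nat_lit 0), (nat_lit 0), (nat_lit 0)), ((nat_lit 858), (nat_lit 1000), (nat_lit 713))], ((nat_lit 100), (nat_lit 91), (nat_lit 64))⟩, (nat_lit 182464), (nat_lit 1141), (nat_lit 1141), (nat_lit 0), (nat_lit 2045480), [(nat_lit 440672000), (nat_lit 748992000), (nat_lit 1115968000)], [], [(nat_lit 3789246514), (nat_lit 3746773418), (nat_lit 3805798361), (nat_lit 3757314763), (nat_lit 3287776419), (nat_lit 3492269410), (nat_lit 3479297837), (nat_lit 3713877388)], (nat_lit 1271251), (nat_lit 1271251), (nat_lit 1271251), (nat_lit 1271251), (nat_lit 230000), (nat_lit 2758751), [(nat_lit 1100000), (nat_lit 1785001), (nat_lit 1271251)], [(nat_lit 18), (nat_lit 59), (nat_lit 418), (nat_lit 175), (nat_lit 10)]⟩,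
 ⟨⟨[(nat_lit 140), (nat_lit 180), (nat_lit 200)], [(nat_lit 0), (nat_lit 0), (nat_lit 2835)], [((nat_lit 0), (nat_lit 0), (nat_lit 0)), ((nat_lit 0), (nat_lit 0), (nat_lit 0)), ((nat_lit 363), (nat_lit 1000), (nat_lit 798))], ((nat_lit 0), (nat_lit 0), (nat_lit 0))⟩, (nat_lit 25862), (nat_lit 300), (nat_lit 343), (nat_lit 7341407), (nat_lit 0), [(nat_lit 925148000), (nat_lit 1321452000), (nat_lit 1541600000)], [], [(nat_lit 5007625838), (nat_lit 4709936069), (nat_lit 5008334357), (nat_lit 4768415918), (nat_lit 4789380129), (nat_lit 4442270207), (nat_lit 4689523038), (nat_lit 4337033280)], (nat_lit 0), (nat_lit 0), (nat_lit 0), (nat_lit 0), (nat_lit 0), (nat_lit 0), [], [(nat_lit 32), (nat_lit 67), (nat_lit 428), (nat_lit 200), (nat_lit 9)]⟩⟩))))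
noncomputable def c14_23 : Tr Lf :=
 (.spl (nat_lit 1) (nat_lit 260) (.trX (nat_lit 3) (nat_lit 0) (nat_lit 1) (nat_lit 46) (nat_lit 76) (nat_lit 100) (nat_lit 340) (.leaf ⟨(nat_lit 1000), (nat_lit 0), (nat_lit 0), (nat_lit 0), (nat_lit 0), (nat_lit 3131), (nat_lit 0), (nat_lit 0), (nat_lit 0), (nat_lit 0), (nat_lit 250000), [((nat_lit 400), [((nat_lit 28), (nat_lit 0), (nat_lit 1000))])], ⟨(nat_lit 8), false, true, true, (nat_lit 293), (nat_lit 0), (nat_lit 2237), [(nat_lit 1716590), (nat_lit 1699995), (nat_lit 1739366), (nat_lit 1724997), (nat_lit 1745097), (nat_lit 1724995), (nat_lit 1767872), (nat_lit 1749995)]⟩, ⟨(nat_lit 5), false, false, true, (nat_lit 185), (nat_lit 0), (nat_lit 2237), [(nat_lit 1408898), (nat_lit 1399996), (nat_lit 1454449), (nat_lit 1449998), (nat_lit 1480164), (nat_lit 1462492), (nat_lit 1525715), (nat_lit 1512494)]⟩, (nat_lit 5249901), (nat_lit 36534047), (nat_lit 20672479), (nat_lit 9793474), (nat_lit 0), (nat_lit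 0), [⟨(nat_lit 1), (nat_lit 76), (nat_lit 46), (nat_lit 100), (nat_lit 452510392)⟩], [⟨(nat_lit 1), (nat_lit 99), (nat_lit 44), (nat_lit 100), (nat_lit 262444977)⟩], [], [],
 ⟨⟨[(nat_lit 40), (nat_lit 60)], [(nat_lit 0), (nat_lit 1539)], [((nat_lit 0), (nat_lit 0), (nat_lit 0)), ((nat_lit 1000), (nat_lit 478), (nat_lit 704))], ((nat_lit 48), (nat_lit 100), (nat_lit 69))⟩, (nat_lit 0), (nat_lit 67), (nat_lit 67), (nat_lit 0), (nat_lit 0), [(nat_lit 1563200001), (nat_lit 1046000000)], [(nat_lit 0), (nat_lit 0)], [(nat_lit 27500083468), (nat_lit 28500963520), (nat_lit 28361020930), (nat_lit 29391048246), (nat_lit 28525800989), (nat_lit 29462645653), (nat_lit 29322836858), (nat_lit 30285702320)], (nat_lit 0), (nat_lit 0), (nat_lit 0), (nat_lit 0), (nat_lit 0), (nat_lit 0), [], [(nat_lit 1), (nat_lit 38), (nat_lit 203), (nat_lit 0), (nat_lit 8)]⟩,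
 Rw.none,
 Rw.none⟩)) (.trX (nat_lit 5) (nat_lit 1) (nat_lit 2) (nat_lit 97) (nat_lit 49) (nat_lit 100) (nat_lit 380) (.spl (nat_lit 5) (nat_lit 200) (.leaf ⟨(nat_lit 769), (nat_lit 231), (nat_lit 0), (nat_lit 0), (nat_lit 0), (nat_lit 2999), (nat_lit 1767), (nat_lit 0), (nat_lit 0), (nat_lit 0), (nat_lit 307600), [((nat_lit 400), [((nat_lit 28), (nat_lit 1), (nat_lit 769))])], ⟨(nat_lit 8), false, true, true, (nat_lit 308), (nat_lit 0), (nat_lit 2237), [(nat_lit 1739366), (nat_lit 1724997), (nat_lit 1762141), (nat_lit 1749998), (nat_lit 1796379), (nat_lit 1774994), (nat_lit 1819154), (nat_lit 1799995)]⟩, ⟨(nat_lit 5), false, false, true, (nat_lit 185), (nat_lit 0), (nat_lit 2237), [(nat_lit 1408898), (nat_lit 1399996), (nat_lit 1454449), (nat_lit 1449998), (nat_lit 1480164), (nat_lit 1462492), (nat_lit 1525715), (nat_lit 1512494)]⟩, (nat_lit 5279865), (nat_lit 35463754), (nat_lit 21956186), (nat_lit 9580060), (nat_lit 5), (nat_lit 0), [⟨(nat_lit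 1), (nat_lit 71), (nat_lit 48), (nat_lit 100), (nat_lit 306176030)⟩], [⟨(nat_lit 1), (nat_lit 99), (nat_lit 44), (nat_lit 100), (nat_lit 356907790)⟩], [], [],
 ⟨⟨[(nat_lit 40), (nat_lit 60)], [(nat_lit 0), (nat_lit 1539)], [((nat_lit 0), (nat_lit 0), (nat_lit 0)), ((nat_lit 1000), (nat_lit 478), (nat_lit 704))], ((nat_lit 48), (nat_lit 100), (nat_lit 69))⟩, (nat_lit 0), (nat_lit 72), (nat_lit 72), (nat_lit 0), (nat_lit 0), [(nat_lit 1488246879), (nat_lit 1007913200)], [(nat_lit 0), (nat_lit 0)], [(nat_lit 27433365472), (nat_lit 28409706490), (nat_lit 29129942068), (nat_lit 30098888359), (nat_lit 28463757888), (nat_lit 29365151643), (nat_lit 30036308760), (nat_lit 30938829909)], (nat_lit 0), (nat_lit 0), (nat_lit 0), (nat_lit 0), (nat_lit 0), (nat_lit 0), [], [(nat_lit 1), (nat_lit 38), (nat_lit 203), (nat_lit 0), (nat_lit 8)]⟩,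
 ⟨⟨[(nat_lit 80), (nat_lit 120), (nat_lit 140)], [(nat_lit 0), (nat_lit 528), (nat_lit 1572)], [((nat_lit 0), (nat_lit 0), (nat_lit 0)), ((nat_lit 1000), (nat_lit 959), (nat_lit 206)), ((nat_lit 966), (nat_lit 1000), (nat_lit 679))], ((nat_lit 100), (nat_lit 98), (nat_lit 66))⟩, (nat_lit 1372221), (nat_lit 822), (nat_lit 822), (nat_lit 0), (nat_lit 1503412), [(nat_lit 1082928000), (nat_lit 1840608000), (nat_lit 2273502000)], [], [(nat_lit 6750237344), (nat_lit 6797168187), (nat_lit 7042718634), (nat_lit 7375609181), (nat_lit 6145210865), (nat_lit 6186456495), (nat_lit 6342313382), (nat_lit 6475644441)], (nat_lit 1271251), (nat_lit 1271251), (nat_lit 1271251), (nat_lit 1271251), (nat_lit 230000), (nat_lit 1420001), [(nat_lit 1100000), (nat_lit 1785001), (nat_lit 1271251)], [(nat_lit 17), (nat_lit 58), (nat_lit 345), (nat_lit 125), (nat_lit 9)]⟩,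
 Rw.none⟩) (.spl (nat_lit 5) (nat_lit 280) (.leaf ⟨(nat_lit 795), (nat_lit 205), (nat_lit 0), (nat_lit 0), (nat_lit 0), (nat_lit 3004), (nat_lit 1502), (nat_lit 0), (nat_lit 0), (nat_lit 0), (nat_lit 304800), [((nat_lit 400), [((nat_lit 28), (nat_lit 0), (nat_lit 88)), ((nat_lit 28), (nat_lit 1), (nat_lit 707))])], ⟨(nat_lit 8), false, true, true, (nat_lit 308), (nat_lit 0), (nat_lit 2237), [(nat_lit 1739366), (nat_lit 1724997), (nat_lit 1762141), (nat_lit 1749998), (nat_lit 1796379), (nat_lit 1774994), (nat_lit 1819154), (nat_lit 1799995)]⟩, ⟨(nat_lit 5), false, false, true, (nat_lit 185), (nat_lit 0), (nat_lit 2237), [(nat_lit 1408898), (nat_lit 1399996), (nat_lit 1454449), (nat_lit 1449998), (nat_lit 1480164), (nat_lit 1462492), (nat_lit 1525715), (nat_lit 1512494)]⟩, (nat_lit 5279865), (nat_lit 35463754), (nat_lit 21956186), (nat_lit 9580060), (nat_lit 5), (nat_lit 0), [⟨(nat_lit 1), (nat_lit 71), (nat_lit 48), (nat_lit 100), (nat_lit 282120885)⟩],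 [⟨(nat_lit 1), (nat_lit 99), (nat_lit 44), (nat_lit 100), (nat_lit 335668605)⟩], [], [],
 ⟨⟨[(nat_lit 40), (nat_lit 60)], [(nat_lit 0), (nat_lit 1539)], [((nat_lit 0), (nat_lit 0), (nat_lit 0)), ((nat_lit 1000), (nat_lit 478), (nat_lit 704))], ((nat_lit 48), (nat_lit 100), (nat_lit 69))⟩, (nat_lit 0), (nat_lit 72), (nat_lit 72), (nat_lit 0), (nat_lit 0), [(nat_lit 1492558175), (nat_lit 994491600)], [(nat_lit 0), (nat_lit 0)], [(nat_lit 27438836994), (nat_lit 28415805422), (nat_lit 29136371860), (nat_lit 30105791564), (nat_lit 28469052331), (nat_lit 29370989812), (nat_lit 30042224961), (nat_lit 30945266616)], (nat_lit 0), (nat_lit 0), (nat_lit 0), (nat_lit 0), (nat_lit 0), (nat_lit 0), [], [(nat_lit 1), (nat_lit 38), (nat_lit 203), (nat_lit 0), (nat_lit 8)]⟩,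
 ⟨⟨[(nat_lit 80), (nat_lit 120), (nat_lit 140)], [(nat_lit 0), (nat_lit 528), (nat_lit 1572)], [((nat_lit 0), (nat_lit 0), (nat_lit 0)), ((nat_lit 1000), (nat_lit 959), (nat_lit 206)), ((nat_lit 966), (nat_lit 1000), (nat_lit 679))], ((nat_lit 100), (nat_lit 98), (nat_lit 66))⟩, (nat_lit 965623), (nat_lit 742), (nat_lit 742), (nat_lit 0), (nat_lit 1503412), [(nat_lit 961040000), (nat_lit 1633440000), (nat_lit 2017610000)], [], [(nat_lit 6094256179), (nat_lit 6123281898), (nat_lit 6234011439), (nat_lit 6255666306), (nat_lit 6108137015), (nat_lit 6126511001), (nat_lit 6222049319), (nat_lit 6244098464)], (nat_lit 1271251), (nat_lit 1271251), (nat_lit 1271251), (nat_lit 1271251), (nat_lit 1271251), (nat_lit 1271251), [(nat_lit 1100000), (nat_lit 1785001), (nat_lit 1271251)], [(nat_lit 17), (nat_lit 58), (nat_lit 373), (nat_lit 150), (nat_lit 9)]⟩,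
 Rw.none⟩) (.spl (nat_lit 4) (nat_lit 220) (.leaf ⟨(nat_lit 905), (nat_lit 95), (nat_lit 0), (nat_lit 0), (nat_lit 0), (nat_lit 3071), (nat_lit 707), (nat_lit 0), (nat_lit 0), (nat_lit 0), (nat_lit 226250), [((nat_lit 400), [((nat_lit 28), (nat_lit 0), (nat_lit 905))])], ⟨(nat_lit 8), false, true, true, (nat_lit 308), (nat_lit 0), (nat_lit 2237), [(nat_lit 1739366), (nat_lit 1724997), (nat_lit 1762141), (nat_lit 1749998), (nat_lit 1796379), (nat_lit 1774994), (nat_lit 1819154), (nat_lit 1799995)]⟩, ⟨(nat_lit 5), false, false, true, (nat_lit 177), (nat_lit 0), (nat_lit 2237), [(nat_lit 1408898), (nat_lit 1399996), (nat_lit 1454449), (nat_lit 1449998), (nat_lit 1437404), (nat_lit 1424994), (nat_lit 1482955), (nat_lit 1474996)]⟩, (nat_lit 5219543), (nat_lit 35843485), (nat_lit 22147765), (nat_lit 9008750), (nat_lit 7), (nat_lit 0), [⟨(nat_lit 1), (nat_lit 83), (nat_lit 33), (nat_lit 100), (nat_lit 118223102)⟩, ⟨(nat_lit 1), (nat_lit 71), (nat_lit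 48), (nat_lit 100), (nat_lit 242051224)⟩], [], [], [⟨(nat_lit 1), (nat_lit 66), (nat_lit 72), (nat_lit 100), (nat_lit 47554644)⟩],
 ⟨⟨[(nat_lit 40), (nat_lit 60)], [(nat_lit 0), (nat_lit 1539)], [((nat_lit 0), (nat_lit 0), (nat_lit 0)), ((nat_lit 1000), (nat_lit 478), (nat_lit 704))], ((nat_lit 48), (nat_lit 100), (nat_lit 69))⟩, (nat_lit 0), (nat_lit 72), (nat_lit 72), (nat_lit 0), (nat_lit 0), [(nat_lit 1585506216), (nat_lit 1258420000)], [(nat_lit 0), (nat_lit 0)], [(nat_lit 27582508738), (nat_lit 28567884460), (nat_lit 29292884422), (nat_lit 30198294511), (nat_lit 27956200728), (nat_lit 28911593836), (nat_lit 29616987924), (nat_lit 30489148647)], (nat_lit 0), (nat_lit 0), (nat_lit 0), (nat_lit 0), (nat_lit 0), (nat_lit 0), [], [(nat_lit 1), (nat_lit 38), (nat_lit 203), (nat_lit 0), (nat_lit 8)]⟩,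
 ⟨⟨[(nat_lit 80), (nat_lit 120), (nat_lit 140)], [(nat_lit 0), (nat_lit 528), (nat_lit 1572)], [((nat_lit 0), (nat_lit 0), (nat_lit 0)), ((nat_lit 1000), (nat_lit 959), (nat_lit 206)), ((nat_lit 966), (nat_lit 1000), (nat_lit 679))], ((nat_lit 100), (nat_lit 98), (nat_lit 66))⟩, (nat_lit 189782), (nat_lit 720), (nat_lit 720), (nat_lit 0), (nat_lit 1503412), [(nat_lit 445360000), (nat_lit 756960000), (nat_lit 934990000)], [], [(nat_lit 3165858819), (nat_lit 3174046885), (nat_lit 3240004579), (nat_lit 3261870458), (nat_lit 3336941751), (nat_lit 3352401326), (nat_lit 3422769150), (nat_lit 3438275017)], (nat_lit 1271251), (nat_lit 1271251), (nat_lit 1271251), (nat_lit 1271251), (nat_lit 1271251), (nat_lit 1271251), [(nat_lit 1100000), (nat_lit 1785001), (nat_lit 1271251)], [(nat_lit 17), (nat_lit 58), (nat_lit 308), (nat_lit 75), (nat_lit 7)]⟩,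
 Rw.none⟩) (.spl (nat_lit 2) (nat_lit 140) (.trX (nat_lit 4) (nat_lit 0) (nat_lit 2) (nat_lit 44) (nat_lit 100) (nat_lit 96) (nat_lit 230) (.trX (nat_lit 5) (nat_lit 1) (nat_lit 2) (nat_lit 100) (nat_lit 60) (nat_lit 100) (nat_lit 370) (.leaf ⟨(nat_lit 900), (nat_lit 100), (nat_lit 0), (nat_lit 0), (nat_lit 0), (nat_lit 3123), (nat_lit 748), (nat_lit 0), (nat_lit 0), (nat_lit 0), (nat_lit 225000), [((nat_lit 400), [((nat_lit 28), (nat_lit 0), (nat_lit 900))])], ⟨(nat_lit 8), false, true, true, (nat_lit 308), (nat_lit 0), (nat_lit 2237), [(nat_lit 1739366), (nat_lit 1724997), (nat_lit 1762141), (nat_lit 1749998), (nat_lit 1796379), (nat_lit 1774994), (nat_lit 1819154), (nat_lit 1799995)]⟩, ⟨(nat_lit 5), false, false, true, (nat_lit 180), (nat_lit 0), (nat_lit 2237), [(nat_lit 1437404), (nat_lit 1424994), (nat_lit 1460180), (nat_lit 1449996), (nat_lit 1451658), (nat_lit 1437494), (nat_lit 1474433), (nat_lit 1462494)]⟩, (nat_lit 5244339), (nat_lit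 35690157), (nat_lit 22070621), (nat_lit 9239222), (nat_lit 7), (nat_lit 0), [⟨(nat_lit 1), (nat_lit 71), (nat_lit 48), (nat_lit 100), (nat_lit 383215088)⟩], [⟨(nat_lit 1), (nat_lit 100), (nat_lit 44), (nat_lit 96), (nat_lit 277662052)⟩], [⟨(nat_lit 1), (nat_lit 70), (nat_lit 100), (nat_lit 100), (nat_lit 36246823)⟩], [],
 ⟨⟨[(nat_lit 40), (nat_lit 60)], [(nat_lit 0), (nat_lit 1539)], [((nat_lit 0), (nat_lit 0), (nat_lit 0)), ((nat_lit 1000), (nat_lit 478), (nat_lit 704))], ((nat_lit 48), (nat_lit 100), (nat_lit 69))⟩, (nat_lit 0), (nat_lit 70), (nat_lit 70), (nat_lit 0), (nat_lit 0), [(nat_lit 1586680008), (nat_lit 1269600000)], [(nat_lit 0), (nat_lit 0)], [(nat_lit 27924530458), (nat_lit 28886107068), (nat_lit 29595668622), (nat_lit 30558425205), (nat_lit 28110753090), (nat_lit 29057167612), (nat_lit 29755881116), (nat_lit 30702593886)], (nat_lit 0), (nat_lit 0), (nat_lit 0), (nat_lit 0), (nat_lit 0), (nat_lit 0), [], [(nat_lit 1), (nat_lit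 38), (nat_lit 203), (nat_lit 0), (nat_lit 7)]⟩,
 ⟨⟨[(nat_lit 80), (nat_lit 120), (nat_lit 140)], [(nat_lit 0), (nat_lit 528), (nat_lit 1572)], [((nat_lit 0), (nat_lit 0), (nat_lit 0)), ((nat_lit 1000), (nat_lit 959), (nat_lit 206)), ((nat_lit 966), (nat_lit 1000), (nat_lit 679))], ((nat_lit 100), (nat_lit 98), (nat_lit 66))⟩, (nat_lit 213993), (nat_lit 720), (nat_lit 720), (nat_lit 0), (nat_lit 1503412), [(nat_lit 468800000), (nat_lit 796800000), (nat_lit 984200000)], [], [(nat_lit 3284714654), (nat_lit 3293220620), (nat_lit 3361361543), (nat_lit 3385887968), (nat_lit 3446478306), (nat_lit 3467526032), (nat_lit 3543694261), (nat_lit 3560291499)], (nat_lit 1271251), (nat_lit 1271251), (nat_lit 1271251), (nat_lit 1271251), (nat_lit 1271251), (nat_lit 1271251), [(nat_lit 1100000), (nat_lit 1785001), (nat_lit 1271251)], [(nat_lit 17), (nat_lit 58), (nat_lit 307), (nat_lit 75), (nat_lit 7)]⟩,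
 Rw.none⟩))) (.spl (nat_lit 0) (nat_lit 390) (.leaf ⟨(nat_lit 668), (nat_lit 265), (nat_lit 0), (nat_lit 67), (nat_lit 0), (nat_lit 3054), (nat_lit 2201), (nat_lit 702), (nat_lit 0), (nat_lit 0), (nat_lit 267200), [((nat_lit 390), [((nat_lit 28), (nat_lit 1), (nat_lit 668))])], ⟨(nat_lit 8), false, true, true, (nat_lit 310), (nat_lit 1581), (nat_lit 2237), [(nat_lit 1739368), (nat_lit 1733851), (nat_lit 1762142), (nat_lit 1757166), (nat_lit 1796384), (nat_lit 1788487), (nat_lit 1819158), (nat_lit 1811802)]⟩, ⟨(nat_lit 5), false, false, true, (nat_lit 196), (nat_lit 1581), (nat_lit 2237), [(nat_lit 1460183), (nat_lit 1457371), (nat_lit 1482958), (nat_lit 1480686), (nat_lit 1502945), (nat_lit 1498348), (nat_lit 1525719), (nat_lit 1521663)]⟩, (nat_lit 5365922), (nat_lit 34759601), (nat_lit 21843656), (nat_lit 10396743), (nat_lit 7), (nat_lit 0), [⟨(nat_lit 1), (nat_lit 78), (nat_lit 41), (nat_lit 100), (nat_lit 406311097)⟩], [⟨(nat_lit 1), (nat_lit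 100), (nat_lit 38), (nat_lit 98), (nat_lit 355540775)⟩], [⟨(nat_lit 1), (nat_lit 59), (nat_lit 97), (nat_lit 100), (nat_lit 68675224)⟩], [],
 ⟨⟨[(nat_lit 40), (nat_lit 60)], [(nat_lit 0), (nat_lit 1539)], [((nat_lit 0), (nat_lit 0), (nat_lit 0)), ((nat_lit 1000), (nat_lit 478), (nat_lit 704))], ((nat_lit 48), (nat_lit 100), (nat_lit 69))⟩, (nat_lit 0), (nat_lit 67), (nat_lit 67), (nat_lit 0), (nat_lit 0), [(nat_lit 1528929601), (nat_lit 1306590400)], [(nat_lit 0), (nat_lit 0)], [(nat_lit 27854168719), (nat_lit 28330854509), (nat_lit 29511878898), (nat_lit 29989066212), (nat_lit 28508513689), (nat_lit 28962201064), (nat_lit 30101386967), (nat_lit 30555510329)], (nat_lit 0), (nat_lit 0), (nat_lit 0), (nat_lit 0), (nat_lit 0), (nat_lit 0), [], [(nat_lit 1), (nat_lit 38), (nat_lit 203), (nat_lit 0), (nat_lit 7)]⟩,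
 ⟨⟨[(nat_lit 80), (nat_lit 120), (nat_lit 140)], [(nat_lit 0), (nat_lit 528), (nat_lit 1572)], [((nat_lit 0), (nat_lit 0), (nat_lit 0)), ((nat_lit 1000), (nat_lit 959), (nat_lit 206)), ((nat_lit 966), (nat_lit 1000), (nat_lit 679))], ((nat_lit 100), (nat_lit 98), (nat_lit 66))⟩, (nat_lit 1994359), (nat_lit 600), (nat_lit 600), (nat_lit 0), (nat_lit 1232837), [(nat_lit 1556416000), (nat_lit 2645376000), (nat_lit 3267544000)], [], [(nat_lit 10378836570), (nat_lit 10447309978), (nat_lit 10650425581), (nat_lit 10715786635), (nat_lit 10945276211), (nat_lit 11016229714), (nat_lit 11495780299), (nat_lit 11690837507)], (nat_lit 1271251), (nat_lit 1271251), (nat_lit 1271251), (nat_lit 1271251), (nat_lit 1271251), (nat_lit 1271251), [(nat_lit 1100000), (nat_lit 1785001), (nat_lit 1271251)], [(nat_lit 17), (nat_lit 58), (nat_lit 289), (nat_lit 75), (nat_lit 7)]⟩,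
 ⟨⟨[(nat_lit 140), (nat_lit 180), (nat_lit 200)], [(nat_lit 0), (nat_lit 608), (nat_lit 3317)], [((nat_lit 0), (nat_lit 0), (nat_lit 0)), ((nat_lit 913), (nat_lit 1000), (nat_lit 217)), ((nat_lit 385), (nat_lit 1000), (nat_lit 814))], ((nat_lit 0), (nat_lit 0), (nat_lit 0))⟩, (nat_lit 154717), (nat_lit 300), (nat_lit 2098), (nat_lit 4710101), (nat_lit 3850416), [(nat_lit 659414000), (nat_lit 941886000), (nat_lit 1098800000)], [], [(nat_lit 3711511985), (nat_lit 3662877686), (nat_lit 3652599320), (nat_lit 3601224802), (nat_lit 3619555913), (nat_lit 3562115768), (nat_lit 3562495141), (nat_lit 3504946674)], (nat_lit 936250), (nat_lit 1100000), (nat_lit 1271251), (nat_lit 1271251), (nat_lit 1271251), (nat_lit 1271251), [(nat_lit 1977501), (nat_lit 1271251), (nat_lit 1271251)], [(nat_lit 32), (nat_lit 67), (nat_lit 624), (nat_lit 200), (nat_lit 12)]⟩⟩) (.trX (nat_lit 3) (nat_lit 0) (nat_lit 1) (nat_lit 34) (nat_lit 81) (nat_lit 100) (nat_lit 340)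 (.trX (nat_lit 4) (nat_lit 0) (nat_lit 2) (nat_lit 31) (nat_lit 100) (nat_lit 99) (nat_lit 230) (.leaf ⟨(nat_lit 1000), (nat_lit 0), (nat_lit 0), (nat_lit 0), (nat_lit 0), (nat_lit 3113), (nat_lit 0), (nat_lit 0), (nat_lit 0), (nat_lit 0), (nat_lit 250000), [((nat_lit 400), [((nat_lit 28), (nat_lit 0), (nat_lit 1000))])], ⟨(nat_lit 8), false, true, true, (nat_lit 302), (nat_lit 0), (nat_lit 1582), [(nat_lit 1733849), (nat_lit 1724997), (nat_lit 1757165), (nat_lit 1749998), (nat_lit 1761166), (nat_lit 1749996), (nat_lit 1784482), (nat_lit 1774996)]⟩, ⟨(nat_lit 5), false, false, true, (nat_lit 189), (nat_lit 0), (nat_lit 1582), [(nat_lit 1457368), (nat_lit 1449996), (nat_lit 1480684), (nat_lit 1474997), (nat_lit 1471027), (nat_lit 1462495), (nat_lit 1494343), (nat_lit 1487497)]⟩, (nat_lit 5298552), (nat_lit 35723503), (nat_lit 21297714), (nat_lit 9978783), (nat_lit 0), (nat_lit 0), [⟨(nat_lit 1), (nat_lit 81), (nat_lit 34), (nat_lit 100), (nat_lit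 646579683)⟩], [⟨(nat_lit 1), (nat_lit 100), (nat_lit 31), (nat_lit 99), (nat_lit 371566133)⟩], [], [],
 ⟨⟨[(nat_lit 40), (nat_lit 60)], [(nat_lit 0), (nat_lit 2136)], [((nat_lit 0), (nat_lit 0), (nat_lit 0)), ((nat_lit 1000), (nat_lit 343), (nat_lit 808))], ((nat_lit 37), (nat_lit 100), (nat_lit 75))⟩, (nat_lit 0), (nat_lit 66), (nat_lit 66), (nat_lit 0), (nat_lit 0), [(nat_lit 1563200005), (nat_lit 1046000000)], [(nat_lit 0), (nat_lit 0)], [(nat_lit 28364306085), (nat_lit 28844499822), (nat_lit 29177468561), (nat_lit 29682819662), (nat_lit 28543083971), (nat_lit 29015713086), (nat_lit 29344174180), (nat_lit 29840254895)], (nat_lit 0), (nat_lit 0), (nat_lit 0), (nat_lit 0), (nat_lit 0), (nat_lit 0), [], [(nat_lit 1), (nat_lit 38), (nat_lit 203), (nat_lit 0), (nat_lit 7)]⟩,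
 Rw.none,
 Rw.none⟩))))))))))
noncomputable def c14_24 : Tr Lf :=
 (.leaf ⟨(nat_lit 847), (nat_lit 153), (nat_lit 0), (nat_lit 0), (nat_lit 0), (nat_lit 2961), (nat_lit 1316), (nat_lit 0), (nat_lit 0), (nat_lit 0), (nat_lit 338800), [((nat_lit 400), [((nat_lit 28), (nat_lit 1), (nat_lit 847))])], ⟨(nat_lit 8), false, true, true, (nat_lit 318), (nat_lit 0), (nat_lit 2237), [(nat_lit 1762141), (nat_lit 1749998), (nat_lit 1784917), (nat_lit 1774999), (nat_lit 1819154), (nat_lit 1799995), (nat_lit 1841930), (nat_lit 1824997)]⟩, ⟨(nat_lit 5), false, false, true, (nat_lit 185), (nat_lit 0), (nat_lit 2237), [(nat_lit 1408898), (nat_lit 1399996), (nat_lit 1454449), (nat_lit 1449998), (nat_lit 1480164), (nat_lit 1462492), (nat_lit 1525715), (nat_lit 1512494)]⟩, (nat_lit 5293672), (nat_lit 34788098), (nat_lit 22770105), (nat_lit 9441797), (nat_lit 5), (nat_lit 0), [⟨(nat_lit 1), (nat_lit 65), (nat_lit 50), (nat_lit 100), (nat_lit 190500987)⟩], [⟨(nat_lit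 1), (nat_lit 99), (nat_lit 44), (nat_lit 100), (nat_lit 269467723)⟩], [], [⟨(nat_lit 0), (nat_lit 100), (nat_lit 62), (nat_lit 95), (nat_lit 41486987)⟩],
 ⟨⟨[(nat_lit 40), (nat_lit 60)], [(nat_lit 0), (nat_lit 1539)], [((nat_lit 0), (nat_lit 0), (nat_lit 0)), ((nat_lit 1000), (nat_lit 478), (nat_lit 704))], ((nat_lit 48), (nat_lit 100), (nat_lit 69))⟩, (nat_lit 480), (nat_lit 72), (nat_lit 72), (nat_lit 0), (nat_lit 0), [(nat_lit 1456828423), (nat_lit 777251600)], [(nat_lit 0), (nat_lit 0)], [(nat_lit 27394476692), (nat_lit 28366049394), (nat_lit 29083770436), (nat_lit 30046424001), (nat_lit 28426214912), (nat_lit 29323476342), (nat_lit 29992080511), (nat_lit 30889910932)], (nat_lit 0), (nat_lit 0), (nat_lit 0), (nat_lit 0), (nat_lit 0), (nat_lit 0), [], [(nat_lit 1), (nat_lit 38), (nat_lit 203), (nat_lit 0), (nat_lit 8)]⟩,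
 ⟨⟨[(nat_lit 60), (nat_lit 100), (nat_lit 140)], [(nat_lit 0), (nat_lit 0), (nat_lit 2047)], [((nat_lit 0), (nat_lit 0), (nat_lit 0)), ((nat_lit 0), (nat_lit 0), (nat_lit 0)), ((nat_lit 1000), (nat_lit 993), (nat_lit 781))], ((nat_lit 95), (nat_lit 100), (nat_lit 65))⟩, (nat_lit 344389), (nat_lit 766), (nat_lit 766), (nat_lit 0), (nat_lit 1390332), [(nat_lit 502146000), (nat_lit 956250000), (nat_lit 1505826000)], [], [(nat_lit 4825786923), (nat_lit 4870307700), (nat_lit 5130192294), (nat_lit 5365827995), (nat_lit 4439088082), (nat_lit 4477197446), (nat_lit 4590371058), (nat_lit 4623440277)], (nat_lit 1271251), (nat_lit 1271251), (nat_lit 1271251), (nat_lit 1271251), (nat_lit 230000), (nat_lit 780000), [(nat_lit 780000), (nat_lit 1435001), (nat_lit 1271251)], [(nat_lit 11), (nat_lit 55), (nat_lit 289), (nat_lit 30), (nat_lit 7)]⟩,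
 Rw.none⟩)
noncomputable def c14_25 : Tr Lf :=
 (.spl (nat_lit 1) (nat_lit 290) (.spl (nat_lit 2) (nat_lit 140) (.trX (nat_lit 4) (nat_lit 0) (nat_lit 2) (nat_lit 44) (nat_lit 100) (nat_lit 96) (nat_lit 230) (.leaf ⟨(nat_lit 856), (nat_lit 144), (nat_lit 0), (nat_lit 0), (nat_lit 0), (nat_lit 2965), (nat_lit 1208), (nat_lit 0), (nat_lit 0), (nat_lit 0), (nat_lit 342400), [((nat_lit 400), [((nat_lit 28), (nat_lit 1), (nat_lit 856))])], ⟨(nat_lit 8), false, true, true, (nat_lit 316), (nat_lit 0), (nat_lit 2237), [(nat_lit 1762141), (nat_lit 1749998), (nat_lit 1773529), (nat_lit 1762499), (nat_lit 1819154), (nat_lit 1799995), (nat_lit 1830542), (nat_lit 1812496)]⟩, ⟨(nat_lit 5), false, false, true, (nat_lit 175), (nat_lit 0), (nat_lit 2237), [(nat_lit 1408898), (nat_lit 1399996), (nat_lit 1431673), (nat_lit 1424996), (nat_lit 1451658), (nat_lit 1437494), (nat_lit 1474433), (nat_lit 1462494)]⟩, (nat_lit 5214297), (nat_lit 35420168), (nat_lit 22815572),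 (nat_lit 8764260), (nat_lit 5), (nat_lit 0), [⟨(nat_lit 1), (nat_lit 68), (nat_lit 49), (nat_lit 100), (nat_lit 328749040)⟩], [⟨(nat_lit 1), (nat_lit 100), (nat_lit 44), (nat_lit 96), (nat_lit 298733430)⟩], [], [],
 ⟨⟨[(nat_lit 40), (nat_lit 60)], [(nat_lit 0), (nat_lit 1539)], [((nat_lit 0), (nat_lit 0), (nat_lit 0)), ((nat_lit 1000), (nat_lit 478), (nat_lit 704))], ((nat_lit 48), (nat_lit 100), (nat_lit 69))⟩, (nat_lit 400), (nat_lit 72), (nat_lit 72), (nat_lit 0), (nat_lit 0), [(nat_lit 1453203401), (nat_lit 750636800)], [(nat_lit 0), (nat_lit 0)], [(nat_lit 27384705792), (nat_lit 28356780422), (nat_lit 29077823745), (nat_lit 30051946565), (nat_lit 27949055881), (nat_lit 28877200982), (nat_lit 29566427336), (nat_lit 30495923289)], (nat_lit 0), (nat_lit 0), (nat_lit 0), (nat_lit 0), (nat_lit 0), (nat_lit 0), [], [(nat_lit 1), (nat_lit 38), (nat_lit 203), (nat_lit 0), (nat_lit 8)]⟩,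
 ⟨⟨[(nat_lit 60), (nat_lit 100), (nat_lit 140)], [(nat_lit 0), (nat_lit 0), (nat_lit 2047)], [((nat_lit 0), (nat_lit 0), (nat_lit 0)), ((nat_lit 0), (nat_lit 0), (nat_lit 0)), ((nat_lit 1000), (nat_lit 993), (nat_lit 781))], ((nat_lit 95), (nat_lit 100), (nat_lit 65))⟩, (nat_lit 293043), (nat_lit 721), (nat_lit 721), (nat_lit 0), (nat_lit 1388154), [(nat_lit 472608000), (nat_lit 900000000), (nat_lit 1417248000)], [], [(nat_lit 4347648136), (nat_lit 4365767862), (nat_lit 4489189224), (nat_lit 4503487014), (nat_lit 4191789520), (nat_lit 4203403868), (nat_lit 4301748512), (nat_lit 4313310532)], (nat_lit 1271251), (nat_lit 1271251), (nat_lit 1271251), (nat_lit 1271251), (nat_lit 780000), (nat_lit 1762501), [(nat_lit 780000), (nat_lit 1435001), (nat_lit 1271251)], [(nat_lit 11), (nat_lit 55), (nat_lit 292), (nat_lit 60), (nat_lit 7)]⟩,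
 Rw.none⟩)) (.leaf ⟨(nat_lit 652), (nat_lit 289), (nat_lit 0), (nat_lit 59), (nat_lit 0), (nat_lit 3009), (nat_lit 2902), (nat_lit 823), (nat_lit 0), (nat_lit 0), (nat_lit 391200), [((nat_lit 400), [((nat_lit 43), (nat_lit 2), (nat_lit 652))])], ⟨(nat_lit 8), false, true, true, (nat_lit 316), (nat_lit 0), (nat_lit 2237), [(nat_lit 1762141), (nat_lit 1749998), (nat_lit 1773529), (nat_lit 1762499), (nat_lit 1819154), (nat_lit 1799995), (nat_lit 1830542), (nat_lit 1812496)]⟩, ⟨(nat_lit 5), false, false, true, (nat_lit 189), (nat_lit 0), (nat_lit 2237), [(nat_lit 1431673), (nat_lit 1424996), (nat_lit 1454449), (nat_lit 1449998), (nat_lit 1502940), (nat_lit 1487494), (nat_lit 1525715), (nat_lit 1512494)]⟩, (nat_lit 5324867), (nat_lit 34735800), (nat_lit 22448513), (nat_lit 9815687), (nat_lit 5), (nat_lit 0), [⟨(nat_lit 1), (nat_lit 80), (nat_lit 34), (nat_lit 100), (nat_lit 388753704)⟩], [⟨(nat_lit 1), (nat_lit 100), (nat_lit 31), (nat_lit 97),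 (nat_lit 463529991)⟩], [], [],
 ⟨⟨[(nat_lit 40), (nat_lit 60)], [(nat_lit 0), (nat_lit 1539)], [((nat_lit 0), (nat_lit 0), (nat_lit 0)), ((nat_lit 1000), (nat_lit 478), (nat_lit 704))], ((nat_lit 48), (nat_lit 100), (nat_lit 69))⟩, (nat_lit 364013), (nat_lit 72), (nat_lit 72), (nat_lit 0), (nat_lit 0), [(nat_lit 1533288011), (nat_lit 729289600)], [(nat_lit 0), (nat_lit 0)], [(nat_lit 27517145596), (nat_lit 28494741434), (nat_lit 29215638732), (nat_lit 30112694769), (nat_lit 28547183854), (nat_lit 29449665062), (nat_lit 30120939561), (nat_lit 30951703324)], (nat_lit 0), (nat_lit 0), (nat_lit 0), (nat_lit 0), (nat_lit 0), (nat_lit 0), [], [(nat_lit 1), (nat_lit 38), (nat_lit 203), (nat_lit 0), (nat_lit 8)]⟩,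
 ⟨⟨[(nat_lit 60), (nat_lit 100), (nat_lit 140)], [(nat_lit 0), (nat_lit 0), (nat_lit 2047)], [((nat_lit 0), (nat_lit 0), (nat_lit 0)), ((nat_lit 0), (nat_lit 0), (nat_lit 0)), ((nat_lit 1000), (nat_lit 993), (nat_lit 781))], ((nat_lit 95), (nat_lit 100), (nat_lit 65))⟩, (nat_lit 1426787), (nat_lit 659), (nat_lit 659), (nat_lit 0), (nat_lit 1283038), [(nat_lit 1142136000), (nat_lit 2175000000), (nat_lit 3425016000)], [], [(nat_lit 10152370394), (nat_lit 10218293159), (nat_lit 10607300412), (nat_lit 10661652979), (nat_lit 9893878908), (nat_lit 9940318887), (nat_lit 10254215268), (nat_lit 10410717479)], (nat_lit 1271251), (nat_lit 1271251), (nat_lit 1271251), (nat_lit 1271251), (nat_lit 780000), (nat_lit 1762501), [(nat_lit 780000), (nat_lit 1435001), (nat_lit 1271251)], [(nat_lit 11), (nat_lit 55), (nat_lit 276), (nat_lit 60), (nat_lit 7)]⟩,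
 ⟨⟨[(nat_lit 140), (nat_lit 180), (nat_lit 200)], [(nat_lit 0), (nat_lit 608), (nat_lit 3317)], [((nat_lit 0), (nat_lit 0), (nat_lit 0)), ((nat_lit 913), (nat_lit 1000), (nat_lit 217)), ((nat_lit 385), (nat_lit 1000), (nat_lit 814))], ((nat_lit 0), (nat_lit 0), (nat_lit 0))⟩, (nat_lit 370803), (nat_lit 300), (nat_lit 2494), (nat_lit 4147700), (nat_lit 4422100), [(nat_lit 580678000), (nat_lit 829422000), (nat_lit 967600000)], [], [(nat_lit 2978472581), (nat_lit 2912782448), (nat_lit 2891276701), (nat_lit 2824650473), (nat_lit 2660901299), (nat_lit 2594572826), (nat_lit 2603739514), (nat_lit 2543778193)], (nat_lit 936250), (nat_lit 1100000), (nat_lit 1271251), (nat_lit 1271251), (nat_lit 780000), (nat_lit 1762501), [(nat_lit 1977501), (nat_lit 1271251), (nat_lit 1271251)], [(nat_lit 32), (nat_lit 67), (nat_lit 705), (nat_lit 175), (nat_lit 14)]⟩⟩)) (.leaf ⟨(nat_lit 22), (nat_lit 978), (nat_lit 0), (nat_lit 0), (nat_lit 0), (nat_lit 3399), (nat_lit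 6376), (nat_lit 0), (nat_lit 0), (nat_lit 0), (nat_lit 88000), [((nat_lit 400), [((nat_lit 43), (nat_lit 5), (nat_lit 22))])], ⟨(nat_lit 8), false, true, true, (nat_lit 320), (nat_lit 0), (nat_lit 2237), [(nat_lit 1773529), (nat_lit 1762499), (nat_lit 1784917), (nat_lit 1774999), (nat_lit 1830542), (nat_lit 1812496), (nat_lit 1841930), (nat_lit 1824997)]⟩, ⟨(nat_lit 5), false, false, true, (nat_lit 185), (nat_lit 0), (nat_lit 2237), [(nat_lit 1408898), (nat_lit 1399996), (nat_lit 1454449), (nat_lit 1449998), (nat_lit 1480164), (nat_lit 1462492), (nat_lit 1525715), (nat_lit 1512494)]⟩, (nat_lit 5296491), (nat_lit 34620526), (nat_lit 22972379), (nat_lit 9407095), (nat_lit 5), (nat_lit 0), [⟨(nat_lit 1), (nat_lit 78), (nat_lit 35), (nat_lit 100), (nat_lit 463270453)⟩], [⟨(nat_lit 1), (nat_lit 100), (nat_lit 31), (nat_lit 95), (nat_lit 988443437)⟩], [], [],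
 ⟨⟨[(nat_lit 40), (nat_lit 60)], [(nat_lit 0), (nat_lit 1539)], [((nat_lit 0), (nat_lit 0), (nat_lit 0)), ((nat_lit 1000), (nat_lit 478), (nat_lit 704))], ((nat_lit 48), (nat_lit 100), (nat_lit 69))⟩, (nat_lit 609301), (nat_lit 72), (nat_lit 72), (nat_lit 0), (nat_lit 0), [(nat_lit 1823484019), (nat_lit 2838752800)], [(nat_lit 0), (nat_lit 0)], [(nat_lit 27894322408), (nat_lit 28878343936), (nat_lit 29624992348), (nat_lit 30651144759), (nat_lit 28874349532), (nat_lit 29812872123), (nat_lit 30509604810), (nat_lit 31453766509)], (nat_lit 0), (nat_lit 0), (nat_lit 0), (nat_lit 0), (nat_lit 0), (nat_lit 0), [], [(nat_lit 1), (nat_lit 38), (nat_lit 203), (nat_lit 0), (nat_lit 8)]⟩,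
 ⟨⟨[(nat_lit 60), (nat_lit 100), (nat_lit 140)], [(nat_lit 0), (nat_lit 302), (nat_lit 2304)], [((nat_lit 0), (nat_lit 0), (nat_lit 0)), ((nat_lit 1000), (nat_lit 953), (nat_lit 118)), ((nat_lit 1000), (nat_lit 952), (nat_lit 781))], ((nat_lit 91), (nat_lit 100), (nat_lit 64))⟩, (nat_lit 7911274), (nat_lit 702), (nat_lit 702), (nat_lit 0), (nat_lit 1344116), [(nat_lit 3209796000), (nat_lit 6112500000), (nat_lit 9625476000)], [], [(nat_lit 25724097806), (nat_lit 25890577381), (nat_lit 26788733036), (nat_lit 27394145129), (nat_lit 25595112589), (nat_lit 25720911002), (nat_lit 27911049247), (nat_lit 28391827015)], (nat_lit 1271251), (nat_lit 1271251), (nat_lit 1271251), (nat_lit 1271251), (nat_lit 780000), (nat_lit 1762501), [(nat_lit 780000), (nat_lit 1435001), (nat_lit 1271251)], [(nat_lit 11), (nat_lit 55), (nat_lit 288), (nat_lit 60), (nat_lit 7)]⟩,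
 Rw.none⟩))
noncomputable def c14_26 : Tr Lf :=
 (.spl (nat_lit 2) (nat_lit 140) (.trX (nat_lit 4) (nat_lit 0) (nat_lit 2) (nat_lit 44) (nat_lit 100) (nat_lit 96) (nat_lit 230) (.trX (nat_lit 5) (nat_lit 1) (nat_lit 2) (nat_lit 96) (nat_lit 69) (nat_lit 100) (nat_lit 360) (.spl (nat_lit 6) (nat_lit 24) (.spl (nat_lit 1) (nat_lit 290) (.leaf ⟨(nat_lit 1000), (nat_lit 0), (nat_lit 0), (nat_lit 0), (nat_lit 0), (nat_lit 3094), (nat_lit 0), (nat_lit 0), (nat_lit 0), (nat_lit 0), (nat_lit 250000), [((nat_lit 400), [((nat_lit 27), (nat_lit 0), (nat_lit 1000))])], ⟨(nat_lit 8), false, true, true, (nat_lit 316), (nat_lit 0), (nat_lit 2237), [(nat_lit 1762141), (nat_lit 1749998), (nat_lit 1773529), (nat_lit 1762499), (nat_lit 1819154), (nat_lit 1799995), (nat_lit 1830542), (nat_lit 1812496)]⟩, ⟨(nat_lit 5), false, false, true, (nat_lit 175), (nat_lit 0), (nat_lit 2237), [(nat_lit 1408898), (nat_lit 1399996), (nat_lit 1431673), (nat_lit 1424996), (nat_lit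 1451658), (nat_lit 1437494), (nat_lit 1474433), (nat_lit 1462494)]⟩, (nat_lit 5214297), (nat_lit 35420168), (nat_lit 22815572), (nat_lit 8764260), (nat_lit 0), (nat_lit 0), [⟨(nat_lit 1), (nat_lit 68), (nat_lit 49), (nat_lit 100), (nat_lit 424584656)⟩], [⟨(nat_lit 1), (nat_lit 100), (nat_lit 44), (nat_lit 96), (nat_lit 236791591)⟩], [], [],
 ⟨⟨[(nat_lit 40), (nat_lit 60)], [(nat_lit 0), (nat_lit 1539)], [((nat_lit 0), (nat_lit 0), (nat_lit 0)), ((nat_lit 1000), (nat_lit 478), (nat_lit 704))], ((nat_lit 54), (nat_lit 100), (nat_lit 59))⟩, (nat_lit 0), (nat_lit 72), (nat_lit 72), (nat_lit 0), (nat_lit 0), [(nat_lit 1561600002), (nat_lit 1042800000)], [(nat_lit 0), (nat_lit 0)], [(nat_lit 27520201388), (nat_lit 28508463196), (nat_lit 29240337042), (nat_lit 30230049254), (nat_lit 28079912218), (nat_lit 29022973492), (nat_lit 29720354728), (nat_lit 30664660675)], (nat_lit 0), (nat_lit 0), (nat_lit 0), (nat_lit 0), (nat_lit 0), (nat_lit 0), [], [(nat_lit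 1), (nat_lit 38), (nat_lit 203), (nat_lit 0), (nat_lit 8)]⟩,
 Rw.none,
 Rw.none⟩) (.trX (nat_lit 5) (nat_lit 1) (nat_lit 2) (nat_lit 94) (nat_lit 73) (nat_lit 100) (nat_lit 350) (.leaf ⟨(nat_lit 734), (nat_lit 266), (nat_lit 0), (nat_lit 0), (nat_lit 0), (nat_lit 3165), (nat_lit 1595), (nat_lit 0), (nat_lit 0), (nat_lit 0), (nat_lit 183500), [((nat_lit 400), [((nat_lit 27), (nat_lit 0), (nat_lit 734))])], ⟨(nat_lit 8), false, true, true, (nat_lit 320), (nat_lit 0), (nat_lit 2237), [(nat_lit 1773529), (nat_lit 1762499), (nat_lit 1784917), (nat_lit 1774999), (nat_lit 1830542), (nat_lit 1812496), (nat_lit 1841930), (nat_lit 1824997)]⟩, ⟨(nat_lit 5), false, false, true, (nat_lit 175), (nat_lit 0), (nat_lit 2237), [(nat_lit 1408898), (nat_lit 1399996), (nat_lit 1431673), (nat_lit 1424996), (nat_lit 1451658), (nat_lit 1437494), (nat_lit 1474433), (nat_lit 1462494)]⟩, (nat_lit 5220393), (nat_lit 35074805), (nat_lit 23225157), (nat_lit 8700038), (nat_lit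 6), (nat_lit 0), [⟨(nat_lit 1), (nat_lit 65), (nat_lit 50), (nat_lit 100), (nat_lit 251426415)⟩], [⟨(nat_lit 1), (nat_lit 100), (nat_lit 44), (nat_lit 96), (nat_lit 342661116)⟩], [⟨(nat_lit 1), (nat_lit 80), (nat_lit 94), (nat_lit 100), (nat_lit 89059184)⟩], [],
 ⟨⟨[(nat_lit 40), (nat_lit 60)], [(nat_lit 0), (nat_lit 1539)], [((nat_lit 0), (nat_lit 0), (nat_lit 0)), ((nat_lit 1000), (nat_lit 478), (nat_lit 704))], ((nat_lit 54), (nat_lit 100), (nat_lit 59))⟩, (nat_lit 0), (nat_lit 72), (nat_lit 72), (nat_lit 0), (nat_lit 0), [(nat_lit 1624482401), (nat_lit 1638427200)], [(nat_lit 0), (nat_lit 0)], [(nat_lit 27631849981), (nat_lit 28598392022), (nat_lit 29329782345), (nat_lit 30328074765), (nat_lit 28170350975), (nat_lit 29109649382), (nat_lit 29810884786), (nat_lit 30757531639)], (nat_lit 0), (nat_lit 0), (nat_lit 0), (nat_lit 0), (nat_lit 0), (nat_lit 0), [], [(nat_lit 1), (nat_lit 38), (nat_lit 203), (nat_lit 0), (nat_lit 8)]⟩,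
 ⟨⟨[(nat_lit 60), (nat_lit 100), (nat_lit 120)], [(nat_lit 0), (nat_lit 302), (nat_lit 1376)], [((nat_lit 0), (nat_lit 0), (nat_lit 0)), ((nat_lit 1000), (nat_lit 953), (nat_lit 118)), ((nat_lit 1000), (nat_lit 911), (nat_lit 628))], ((nat_lit 89), (nat_lit 100), (nat_lit 48))⟩, (nat_lit 1487369), (nat_lit 593), (nat_lit 593), (nat_lit 0), (nat_lit 1337213), [(nat_lit 873012000), (nat_lit 1662500000), (nat_lit 2119488000)], [], [(nat_lit 8226579527), (nat_lit 8267421901), (nat_lit 8479442866), (nat_lit 8514705633), (nat_lit 8666584920), (nat_lit 8694661896), (nat_lit 8862265646), (nat_lit 8887842610)], (nat_lit 1271251), (nat_lit 1271251), (nat_lit 1271251), (nat_lit 1271251), (nat_lit 1271251), (nat_lit 1271251), [(nat_lit 780000), (nat_lit 1435001), (nat_lit 1271251)], [(nat_lit 10), (nat_lit 54), (nat_lit 275), (nat_lit 0), (nat_lit 7)]⟩,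
 Rw.none⟩))) (.spl (nat_lit 0) (nat_lit 390) (.leaf ⟨(nat_lit 821), (nat_lit 179), (nat_lit 0), (nat_lit 0), (nat_lit 0), (nat_lit 3121), (nat_lit 1263), (nat_lit 0), (nat_lit 0), (nat_lit 0), (nat_lit 205250), [((nat_lit 390), [((nat_lit 28), (nat_lit 0), (nat_lit 821))])], ⟨(nat_lit 8), false, true, true, (nat_lit 320), (nat_lit 1581), (nat_lit 2237), [(nat_lit 1762142), (nat_lit 1757166), (nat_lit 1784917), (nat_lit 1780481), (nat_lit 1819158), (nat_lit 1811802), (nat_lit 1841932), (nat_lit 1835117)]⟩, ⟨(nat_lit 5), false, false, true, (nat_lit 176), (nat_lit 1581), (nat_lit 2237), [(nat_lit 1408901), (nat_lit 1406738), (nat_lit 1431676), (nat_lit 1430053), (nat_lit 1451663), (nat_lit 1447715), (nat_lit 1474437), (nat_lit 1471030)]⟩, (nat_lit 5231418), (nat_lit 35053907), (nat_lit 23131004), (nat_lit 8815089), (nat_lit 6), (nat_lit 0), [], [⟨(nat_lit 1), (nat_lit 100), (nat_lit 38), (nat_lit 94), (nat_lit 74034116)⟩, ⟨(nat_lit 1), (nat_lit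 100), (nat_lit 44), (nat_lit 96), (nat_lit 244313239)⟩], [⟨(nat_lit 1), (nat_lit 78), (nat_lit 95), (nat_lit 100), (nat_lit 64404787)⟩], [],
 ⟨⟨[(nat_lit 40), (nat_lit 60)], [(nat_lit 0), (nat_lit 1539)], [((nat_lit 0), (nat_lit 0), (nat_lit 0)), ((nat_lit 1000), (nat_lit 478), (nat_lit 704))], ((nat_lit 48), (nat_lit 100), (nat_lit 69))⟩, (nat_lit 0), (nat_lit 69), (nat_lit 69), (nat_lit 0), (nat_lit 0), [(nat_lit 1605229221), (nat_lit 1446244000)], [(nat_lit 0), (nat_lit 0)], [(nat_lit 27590444048), (nat_lit 28086268959), (nat_lit 29310402432), (nat_lit 29770839007), (nat_lit 28149183870), (nat_lit 28622275502), (nat_lit 29793960547), (nat_lit 30226325618)], (nat_lit 0), (nat_lit 0), (nat_lit 0), (nat_lit 0), (nat_lit 0), (nat_lit 0), [], [(nat_lit 1), (nat_lit 38), (nat_lit 203), (nat_lit 0), (nat_lit 8)]⟩,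
 ⟨⟨[(nat_lit 60), (nat_lit 100), (nat_lit 140)], [(nat_lit 0), (nat_lit 0), (nat_lit 2047)], [((nat_lit 0), (nat_lit 0), (nat_lit 0)), ((nat_lit 0), (nat_lit 0), (nat_lit 0)), ((nat_lit 1000), (nat_lit 993), (nat_lit 781))], ((nat_lit 95), (nat_lit 100), (nat_lit 65))⟩, (nat_lit 340532), (nat_lit 452), (nat_lit 452), (nat_lit 0), (nat_lit 890417), [(nat_lit 587478000), (nat_lit 1118750000), (nat_lit 1761718000)], [], [(nat_lit 5597485388), (nat_lit 5673959850), (nat_lit 5847979679), (nat_lit 5912394613), (nat_lit 6070780003), (nat_lit 6117765232), (nat_lit 6253147989), (nat_lit 6292324240)], (nat_lit 1271251), (nat_lit 1271251), (nat_lit 1271251), (nat_lit 1271251), (nat_lit 1271251), (nat_lit 1271251), [(nat_lit 780000), (nat_lit 1435001), (nat_lit 1271251)], [(nat_lit 11), (nat_lit 55), (nat_lit 317), (nat_lit 100), (nat_lit 8)]⟩,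
 Rw.none⟩) (.trX (nat_lit 3) (nat_lit 0) (nat_lit 1) (nat_lit 36) (nat_lit 77) (nat_lit 100) (nat_lit 350) (.trX (nat_lit 4) (nat_lit 0) (nat_lit 2) (nat_lit 31) (nat_lit 100) (nat_lit 95) (nat_lit 210) (.leaf ⟨(nat_lit 835), (nat_lit 165), (nat_lit 0), (nat_lit 0), (nat_lit 0), (nat_lit 3135), (nat_lit 1209), (nat_lit 0), (nat_lit 0), (nat_lit 0), (nat_lit 208750), [((nat_lit 400), [((nat_lit 28), (nat_lit 0), (nat_lit 835))])], ⟨(nat_lit 8), false, true, true, (nat_lit 314), (nat_lit 0), (nat_lit 1582), [(nat_lit 1757165), (nat_lit 1749998), (nat_lit 1780481), (nat_lit 1774999), (nat_lit 1798140), (nat_lit 1787496), (nat_lit 1821456), (nat_lit 1812497)]⟩, ⟨(nat_lit 5), false, false, true, (nat_lit 169), (nat_lit 0), (nat_lit 1582), [(nat_lit 1406735), (nat_lit 1399996), (nat_lit 1430051), (nat_lit 1424997), (nat_lit 1420394), (nat_lit 1412496), (nat_lit 1443710), (nat_lit 1437497)]⟩, (nat_lit 5166412), (nat_lit 35786744), (nat_lit 22833331),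 (nat_lit 8379925), (nat_lit 6), (nat_lit 0), [⟨(nat_lit 1), (nat_lit 77), (nat_lit 36), (nat_lit 100), (nat_lit 466182703)⟩], [⟨(nat_lit 1), (nat_lit 100), (nat_lit 31), (nat_lit 95), (nat_lit 446095791)⟩], [⟨(nat_lit 1), (nat_lit 78), (nat_lit 95), (nat_lit 100), (nat_lit 55477803)⟩], [],
 ⟨⟨[(nat_lit 40), (nat_lit 60)], [(nat_lit 0), (nat_lit 2136)], [((nat_lit 0), (nat_lit 0), (nat_lit 0)), ((nat_lit 1000), (nat_lit 343), (nat_lit 808))], ((nat_lit 37), (nat_lit 100), (nat_lit 75))⟩, (nat_lit 0), (nat_lit 70), (nat_lit 70), (nat_lit 0), (nat_lit 0), [(nat_lit 1601942003), (nat_lit 1414940000)], [(nat_lit 0), (nat_lit 0)], [(nat_lit 28071749901), (nat_lit 28568453186), (nat_lit 29331060860), (nat_lit 29841418452), (nat_lit 28250227931), (nat_lit 28739330466), (nat_lit 29490994763), (nat_lit 29991839256)], (nat_lit 0), (nat_lit 0), (nat_lit 0), (nat_lit 0), (nat_lit 0), (nat_lit 0), [], [(nat_lit 1), (nat_lit 38), (nat_lit 203), (nat_lit 0),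 (nat_lit 7)]⟩,
 ⟨⟨[(nat_lit 60), (nat_lit 100), (nat_lit 140)], [(nat_lit 0), (nat_lit 0), (nat_lit 2047)], [((nat_lit 0), (nat_lit 0), (nat_lit 0)), ((nat_lit 0), (nat_lit 0), (nat_lit 0)), ((nat_lit 1000), (nat_lit 993), (nat_lit 781))], ((nat_lit 95), (nat_lit 100), (nat_lit 65))⟩, (nat_lit 294866), (nat_lit 499), (nat_lit 499), (nat_lit 0), (nat_lit 1022870), [(nat_lit 541530000), (nat_lit 1031250000), (nat_lit 1623930000)], [], [(nat_lit 5311501666), (nat_lit 5361973744), (nat_lit 5447160194), (nat_lit 5490820689), (nat_lit 5631300889), (nat_lit 5659371516), (nat_lit 5728189577), (nat_lit 5752666998)], (nat_lit 1271251), (nat_lit 1271251), (nat_lit 1271251), (nat_lit 1271251), (nat_lit 1271251), (nat_lit 1271251), [(nat_lit 780000), (nat_lit 1435001), (nat_lit 1271251)], [(nat_lit 11), (nat_lit 55), (nat_lit 317), (nat_lit 100), (nat_lit 8)]⟩,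
 Rw.none⟩))))))) (.spl (nat_lit 0) (nat_lit 390) (.leaf ⟨(nat_lit 705), (nat_lit 238), (nat_lit 0), (nat_lit 57), (nat_lit 0), (nat_lit 3006), (nat_lit 2118), (nat_lit 601), (nat_lit 0), (nat_lit 0), (nat_lit 423000), [((nat_lit 390), [((nat_lit 43), (nat_lit 2), (nat_lit 705))])], ⟨(nat_lit 8), false, true, true, (nat_lit 320), (nat_lit 1581), (nat_lit 2237), [(nat_lit 1762142), (nat_lit 1757166), (nat_lit 1784917), (nat_lit 1780481), (nat_lit 1819158), (nat_lit 1811802), (nat_lit 1841932), (nat_lit 1835117)]⟩, ⟨(nat_lit 5), false, false, true, (nat_lit 191), (nat_lit 1581), (nat_lit 2237), [(nat_lit 1431676), (nat_lit 1430053), (nat_lit 1454450), (nat_lit 1453368), (nat_lit 1502945), (nat_lit 1498348), (nat_lit 1525719), (nat_lit 1521663)]⟩, (nat_lit 5339909), (nat_lit 34385605), (nat_lit 22759760), (nat_lit 9854635), (nat_lit 6), (nat_lit 0), [⟨(nat_lit 1), (nat_lit 73), (nat_lit 43), (nat_lit 100), (nat_lit 279790951)⟩], [⟨(nat_lit 1),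 (nat_lit 100), (nat_lit 38), (nat_lit 98), (nat_lit 317767210)⟩], [⟨(nat_lit 1), (nat_lit 68), (nat_lit 92), (nat_lit 100), (nat_lit 60645238)⟩], [],
 ⟨⟨[(nat_lit 40), (nat_lit 60)], [(nat_lit 0), (nat_lit 1539)], [((nat_lit 0), (nat_lit 0), (nat_lit 0)), ((nat_lit 1000), (nat_lit 478), (nat_lit 704))], ((nat_lit 48), (nat_lit 100), (nat_lit 69))⟩, (nat_lit 40124), (nat_lit 69), (nat_lit 69), (nat_lit 0), (nat_lit 0), [(nat_lit 1511770002), (nat_lit 521784000)], [(nat_lit 0), (nat_lit 0)], [(nat_lit 27476000220), (nat_lit 27964609916), (nat_lit 29173918394), (nat_lit 29619774655), (nat_lit 28506144725), (nat_lit 28957222211), (nat_lit 30079407301), (nat_lit 30496216370)], (nat_lit 0), (nat_lit 0), (nat_lit 0), (nat_lit 0), (nat_lit 0), (nat_lit 0), [], [(nat_lit 1), (nat_lit 38), (nat_lit 203), (nat_lit 0), (nat_lit 8)]⟩,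
 ⟨⟨[(nat_lit 60), (nat_lit 100), (nat_lit 140)], [(nat_lit 0), (nat_lit 0), (nat_lit 2047)], [((nat_lit 0), (nat_lit 0), (nat_lit 0)), ((nat_lit 0), (nat_lit 0), (nat_lit 0)), ((nat_lit 1000), (nat_lit 993), (nat_lit 781))], ((nat_lit 95), (nat_lit 100), (nat_lit 65))⟩, (nat_lit 789785), (nat_lit 571), (nat_lit 571), (nat_lit 0), (nat_lit 1155123), [(nat_lit 968190000), (nat_lit 1843750000), (nat_lit 2903390000)], [], [(nat_lit 9460504272), (nat_lit 9577303814), (nat_lit 9843632489), (nat_lit 9942086167), (nat_lit 10262404558), (nat_lit 10330032354), (nat_lit 10532756105), (nat_lit 10586229810)], (nat_lit 1271251), (nat_lit 1271251), (nat_lit 1271251), (nat_lit 1271251), (nat_lit 1271251), (nat_lit 1271251), [(nat_lit 780000), (nat_lit 1435001), (nat_lit 1271251)], [(nat_lit 11), (nat_lit 55), (nat_lit 317), (nat_lit 100), (nat_lit 8)]⟩,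
 ⟨⟨[(nat_lit 140), (nat_lit 180), (nat_lit 200)], [(nat_lit 0), (nat_lit 608), (nat_lit 3317)], [((nat_lit 0), (nat_lit 0), (nat_lit 0)), ((nat_lit 913), (nat_lit 1000), (nat_lit 217)), ((nat_lit 385), (nat_lit 1000), (nat_lit 814))], ((nat_lit 0), (nat_lit 0), (nat_lit 0))⟩, (nat_lit 185972), (nat_lit 300), (nat_lit 2275), (nat_lit 4007100), (nat_lit 4130843), [(nat_lit 560994000), (nat_lit 801306000), (nat_lit 934800000)], [], [(nat_lit 3241618795), (nat_lit 3201656285), (nat_lit 3153331147), (nat_lit 3113511965), (nat_lit 3101884865), (nat_lit 3052836193), (nat_lit 3016504847), (nat_lit 2967340285)], (nat_lit 936250), (nat_lit 1100000), (nat_lit 1271251), (nat_lit 1271251), (nat_lit 1271251), (nat_lit 1271251), [(nat_lit 1977501), (nat_lit 1271251), (nat_lit 1271251)], [(nat_lit 32), (nat_lit 67), (nat_lit 667), (nat_lit 200), (nat_lit 13)]⟩⟩) (.trX (nat_lit 3) (nat_lit 0) (nat_lit 1) (nat_lit 36) (nat_lit 77) (nat_lit 100) (nat_lit 350)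 (.trX (nat_lit 4) (nat_lit 0) (nat_lit 2) (nat_lit 31) (nat_lit 100) (nat_lit 99) (nat_lit 230) (.spl (nat_lit 6) (nat_lit 24) (.leaf ⟨(nat_lit 1000), (nat_lit 0), (nat_lit 0), (nat_lit 0), (nat_lit 0), (nat_lit 3090), (nat_lit 0), (nat_lit 0), (nat_lit 0), (nat_lit 0), (nat_lit 250000), [((nat_lit 400), [((nat_lit 27), (nat_lit 0), (nat_lit 1000))])], ⟨(nat_lit 8), false, true, true, (nat_lit 314), (nat_lit 0), (nat_lit 1582), [(nat_lit 1757165), (nat_lit 1749998), (nat_lit 1780481), (nat_lit 1774999), (nat_lit 1798140), (nat_lit 1787496), (nat_lit 1821456), (nat_lit 1812497)]⟩, ⟨(nat_lit 5), false, false, true, (nat_lit 184), (nat_lit 0), (nat_lit 1582), [(nat_lit 1430051), (nat_lit 1424997), (nat_lit 1453367), (nat_lit 1449998), (nat_lit 1471027), (nat_lit 1462495), (nat_lit 1494343), (nat_lit 1487497)]⟩, (nat_lit 5281201), (nat_lit 35102715), (nat_lit 22472893), (nat_lit 9424392), (nat_lit 0), (nat_lit 0), [⟨(nat_lit 1), (nat_lit 77), (nat_lit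 36), (nat_lit 100), (nat_lit 593992171)⟩], [⟨(nat_lit 1), (nat_lit 100), (nat_lit 31), (nat_lit 99), (nat_lit 335830031)⟩], [], [],
 ⟨⟨[(nat_lit 40)], [(nat_lit 0)], [((nat_lit 0), (nat_lit 0), (nat_lit 0))], ((nat_lit 43), (nat_lit 100), (nat_lit 65))⟩, (nat_lit 0), (nat_lit 62), (nat_lit 62), (nat_lit 0), (nat_lit 0), [(nat_lit 1561600000)], [(nat_lit 0)], [(nat_lit 28016602180), (nat_lit 28510482120), (nat_lit 29273973824), (nat_lit 29781480218), (nat_lit 28553876302), (nat_lit 29025175680), (nat_lit 29752641034), (nat_lit 30235824014)], (nat_lit 0), (nat_lit 0), (nat_lit 0), (nat_lit 0), (nat_lit 0), (nat_lit 0), [], [(nat_lit 0), (nat_lit 37), (nat_lit 203), (nat_lit 0), (nat_lit 10)]⟩,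
 Rw.none,
 Rw.none⟩) (.leaf ⟨(nat_lit 22), (nat_lit 790), (nat_lit 0), (nat_lit 188), (nat_lit 0), (nat_lit 3395), (nat_lit 7263), (nat_lit 2038), (nat_lit 0), (nat_lit 0), (nat_lit 88000), [((nat_lit 400), [((nat_lit 43), (nat_lit 5), (nat_lit 22))])], ⟨(nat_lit 8), false, true, true, (nat_lit 314), (nat_lit 0), (nat_lit 1582), [(nat_lit 1757165), (nat_lit 1749998), (nat_lit 1780481), (nat_lit 1774999), (nat_lit 1798140), (nat_lit 1787496), (nat_lit 1821456), (nat_lit 1812497)]⟩, ⟨(nat_lit 5), false, false, true, (nat_lit 184), (nat_lit 0), (nat_lit 1582), [(nat_lit 1430051), (nat_lit 1424997), (nat_lit 1453367), (nat_lit 1449998), (nat_lit 1471027), (nat_lit 1462495), (nat_lit 1494343), (nat_lit 1487497)]⟩, (nat_lit 5281201), (nat_lit 35102715), (nat_lit 22472893), (nat_lit 9424392), (nat_lit 6), (nat_lit 0), [⟨(nat_lit 1), (nat_lit 86), (nat_lit 25), (nat_lit 100), (nat_lit 355399416)⟩], [⟨(nat_lit 1), (nat_lit 100), (nat_lit 22), (nat_lit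 97), (nat_lit 1523511055)⟩], [⟨(nat_lit 1), (nat_lit 68), (nat_lit 92), (nat_lit 100), (nat_lit 202074169)⟩], [],
 ⟨⟨[(nat_lit 40), (nat_lit 60)], [(nat_lit 0), (nat_lit 2136)], [((nat_lit 0), (nat_lit 0), (nat_lit 0)), ((nat_lit 1000), (nat_lit 343), (nat_lit 808))], ((nat_lit 37), (nat_lit 100), (nat_lit 75))⟩, (nat_lit 439410), (nat_lit 70), (nat_lit 70), (nat_lit 0), (nat_lit 0), [(nat_lit 1823484001), (nat_lit 2838752800)], [(nat_lit 0), (nat_lit 0)], [(nat_lit 28388637201), (nat_lit 28880413421), (nat_lit 29661695577), (nat_lit 30187728247), (nat_lit 28895516480), (nat_lit 29381026542), (nat_lit 30128924837), (nat_lit 30621187110)], (nat_lit 0), (nat_lit 0), (nat_lit 0), (nat_lit 0), (nat_lit 0), (nat_lit 0), [], [(nat_lit 1), (nat_lit 38), (nat_lit 203), (nat_lit 0), (nat_lit 7)]⟩,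
 ⟨⟨[(nat_lit 60), (nat_lit 100), (nat_lit 140)], [(nat_lit 0), (nat_lit 0), (nat_lit 2047)], [((nat_lit 0), (nat_lit 0), (nat_lit 0)), ((nat_lit 0), (nat_lit 0), (nat_lit 0)), ((nat_lit 1000), (nat_lit 993), (nat_lit 781))], ((nat_lit 95), (nat_lit 100), (nat_lit 65))⟩, (nat_lit 1809669), (nat_lit 462), (nat_lit 462), (nat_lit 0), (nat_lit 918170), [(nat_lit 3209796000), (nat_lit 6112500000), (nat_lit 9625476000)], [], [(nat_lit 30962940117), (nat_lit 31261173519), (nat_lit 31769933609), (nat_lit 32027348292), (nat_lit 33072921373), (nat_lit 33292662657), (nat_lit 34160988501), (nat_lit 34809736223)], (nat_lit 1271251), (nat_lit 1271251), (nat_lit 1271251), (nat_lit 1271251), (nat_lit 1271251), (nat_lit 1271251), [(nat_lit 780000), (nat_lit 1435001), (nat_lit 1271251)], [(nat_lit 11), (nat_lit 55), (nat_lit 317), (nat_lit 100), (nat_lit 8)]⟩,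
 ⟨⟨[(nat_lit 140), (nat_lit 180), (nat_lit 200)], [(nat_lit 0), (nat_lit 608), (nat_lit 3317)], [((nat_lit 0), (nat_lit 0), (nat_lit 0)), ((nat_lit 913), (nat_lit 1000), (nat_lit 217)), ((nat_lit 385), (nat_lit 1000), (nat_lit 814))], ((nat_lit 0), (nat_lit 0), (nat_lit 0))⟩, (nat_lit 434132), (nat_lit 300), (nat_lit 1876), (nat_lit 13216400), (nat_lit 3362427), [(nat_lit 1850296000), (nat_lit 2642904000), (nat_lit 3083200000)], [], [(nat_lit 10291471728), (nat_lit 10130785556), (nat_lit 10117538220), (nat_lit 9956484989), (nat_lit 9972896045), (nat_lit 9805359185), (nat_lit 9796726208), (nat_lit 9631171140)], (nat_lit 936250), (nat_lit 1100000), (nat_lit 1271251), (nat_lit 1271251), (nat_lit 1271251), (nat_lit 1271251), [(nat_lit 1977501), (nat_lit 1271251), (nat_lit 1271251)], [(nat_lit 32), (nat_lit 67), (nat_lit 564), (nat_lit 200), (nat_lit 11)]⟩⟩))))))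
noncomputable def c14_27 : Tr Lf :=
 (.trX (nat_lit 5) (nat_lit 1) (nat_lit 2) (nat_lit 88) (nat_lit 68) (nat_lit 100) (nat_lit 350) (.spl (nat_lit 6) (nat_lit 24) (.spl (nat_lit 5) (nat_lit 200) (.leaf ⟨(nat_lit 22), (nat_lit 978), (nat_lit 0), (nat_lit 0), (nat_lit 0), (nat_lit 3434), (nat_lit 6210), (nat_lit 0), (nat_lit 0), (nat_lit 0), (nat_lit 88000), [((nat_lit 400), [((nat_lit 43), (nat_lit 5), (nat_lit 22))])], ⟨(nat_lit 8), false, true, true, (nat_lit 327), (nat_lit 0), (nat_lit 2237), [(nat_lit 1784917), (nat_lit 1774999), (nat_lit 1807594), (nat_lit 1799902), (nat_lit 1841930), (nat_lit 1824997), (nat_lit 1864705), (nat_lit 1849998)]⟩, ⟨(nat_lit 5), false, false, true, (nat_lit 185), (nat_lit 0), (nat_lit 2237), [(nat_lit 1408898), (nat_lit 1399996), (nat_lit 1454449), (nat_lit 1449998), (nat_lit 1480164), (nat_lit 1462492), (nat_lit 1525715), (nat_lit 1512494)]⟩, (nat_lit 5303473), (nat_lit 34121843), (nat_lit 23575275), (nat_lit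 9302882), (nat_lit 5), (nat_lit 0), [], [⟨(nat_lit 1), (nat_lit 100), (nat_lit 31), (nat_lit 95), (nat_lit 1386079321)⟩], [], [],
 ⟨⟨[(nat_lit 40), (nat_lit 60)], [(nat_lit 0), (nat_lit 1539)], [((nat_lit 0), (nat_lit 0), (nat_lit 0)), ((nat_lit 1000), (nat_lit 478), (nat_lit 704))], ((nat_lit 54), (nat_lit 100), (nat_lit 59))⟩, (nat_lit 1985539), (nat_lit 72), (nat_lit 72), (nat_lit 0), (nat_lit 0), [(nat_lit 1823484016), (nat_lit 2838752800)], [(nat_lit 0), (nat_lit 0)], [(nat_lit 27829696656), (nat_lit 28860622344), (nat_lit 29668666662), (nat_lit 30699467194), (nat_lit 28844683167), (nat_lit 29802297442), (nat_lit 30551018215), (nat_lit 31498823461)], (nat_lit 0), (nat_lit 0), (nat_lit 0), (nat_lit 0), (nat_lit 0), (nat_lit 0), [], [(nat_lit 1), (nat_lit 38), (nat_lit 203), (nat_lit 0), (nat_lit 8)]⟩,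
 ⟨⟨[(nat_lit 60), (nat_lit 80), (nat_lit 100)], [(nat_lit 0), (nat_lit 304), (nat_lit 825)], [((nat_lit 0), (nat_lit 0), (nat_lit 0)), ((nat_lit 1000), (nat_lit 905), (nat_lit 238)), ((nat_lit 1000), (nat_lit 871), (nat_lit 407))], ((nat_lit 87), (nat_lit 100), (nat_lit 48))⟩, (nat_lit 5300155), (nat_lit 610), (nat_lit 610), (nat_lit 0), (nat_lit 1302074), [(nat_lit 3209796000), (nat_lit 4584864000), (nat_lit 6112500000)], [], [(nat_lit 27312054726), (nat_lit 27896326644), (nat_lit 30365265533), (nat_lit 31642436154), (nat_lit 26346920979), (nat_lit 26742569868), (nat_lit 27509004852), (nat_lit 28550135826)], (nat_lit 1271251), (nat_lit 1271251), (nat_lit 1271251), (nat_lit 1271251), (nat_lit 230000), (nat_lit 1420001), [(nat_lit 780000), (nat_lit 1100000), (nat_lit 1442501)], [(nat_lit 9), (nat_lit 50), (nat_lit 263), (nat_lit 50), (nat_lit 9)]⟩,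
 Rw.none⟩) (.spl (nat_lit 5) (nat_lit 280) (.leaf ⟨(nat_lit 22), (nat_lit 978), (nat_lit 0), (nat_lit 0), (nat_lit 0), (nat_lit 3434), (nat_lit 5869), (nat_lit 0), (nat_lit 0), (nat_lit 0), (nat_lit 88000), [((nat_lit 400), [((nat_lit 43), (nat_lit 5), (nat_lit 22))])], ⟨(nat_lit 8), false, true, true, (nat_lit 327), (nat_lit 0), (nat_lit 2237), [(nat_lit 1784917), (nat_lit 1774999), (nat_lit 1807594), (nat_lit 1799902), (nat_lit 1841930), (nat_lit 1824997), (nat_lit 1864705), (nat_lit 1849998)]⟩, ⟨(nat_lit 5), false, false, true, (nat_lit 185), (nat_lit 0), (nat_lit 2237), [(nat_lit 1408898), (nat_lit 1399996), (nat_lit 1454449), (nat_lit 1449998), (nat_lit 1480164), (nat_lit 1462492), (nat_lit 1525715), (nat_lit 1512494)]⟩, (nat_lit 5303473), (nat_lit 34121843), (nat_lit 23575275), (nat_lit 9302882), (nat_lit 5), (nat_lit 0), [], [⟨(nat_lit 1), (nat_lit 100), (nat_lit 31), (nat_lit 95), (nat_lit 1311815914)⟩], [], [],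
 ⟨⟨[(nat_lit 40), (nat_lit 60)], [(nat_lit 0), (nat_lit 1539)], [((nat_lit 0), (nat_lit 0), (nat_lit 0)), ((nat_lit 1000), (nat_lit 478), (nat_lit 704))], ((nat_lit 54), (nat_lit 100), (nat_lit 59))⟩, (nat_lit 1748934), (nat_lit 72), (nat_lit 72), (nat_lit 0), (nat_lit 0), [(nat_lit 1823484004), (nat_lit 2838752800)], [(nat_lit 0), (nat_lit 0)], [(nat_lit 27829696632), (nat_lit 28860622320), (nat_lit 29668666662), (nat_lit 30699467194), (nat_lit 28844683143), (nat_lit 29802297442), (nat_lit 30551018215), (nat_lit 31498823461)], (nat_lit 0), (nat_lit 0), (nat_lit 0), (nat_lit 0), (nat_lit 0), (nat_lit 0), [], [(nat_lit 1), (nat_lit 38), (nat_lit 203), (nat_lit 0), (nat_lit 8)]⟩,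
 ⟨⟨[(nat_lit 60), (nat_lit 80), (nat_lit 100)], [(nat_lit 0), (nat_lit 304), (nat_lit 825)], [((nat_lit 0), (nat_lit 0), (nat_lit 0)), ((nat_lit 1000), (nat_lit 905), (nat_lit 238)), ((nat_lit 1000), (nat_lit 871), (nat_lit 407))], ((nat_lit 87), (nat_lit 100), (nat_lit 48))⟩, (nat_lit 5277675), (nat_lit 536), (nat_lit 536), (nat_lit 0), (nat_lit 1302074), [(nat_lit 3209796000), (nat_lit 4584864000), (nat_lit 6112500000)], [], [(nat_lit 27312883712), (nat_lit 27766115768), (nat_lit 28562698477), (nat_lit 28961983350), (nat_lit 28378587114), (nat_lit 28752736980), (nat_lit 29546993331), (nat_lit 30375044286)], (nat_lit 1271251), (nat_lit 1271251), (nat_lit 1271251), (nat_lit 1271251), (nat_lit 1271251), (nat_lit 1271251), [(nat_lit 780000), (nat_lit 1100000), (nat_lit 1442501)], [(nat_lit 9), (nat_lit 50), (nat_lit 254), (nat_lit 0), (nat_lit 8)]⟩,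
 Rw.none⟩) (.spl (nat_lit 0) (nat_lit 390) (.leaf ⟨(nat_lit 489), (nat_lit 511), (nat_lit 0), (nat_lit 0), (nat_lit 0), (nat_lit 3107), (nat_lit 2847), (nat_lit 0), (nat_lit 0), (nat_lit 0), (nat_lit 293400), [((nat_lit 390), [((nat_lit 43), (nat_lit 2), (nat_lit 489))])], ⟨(nat_lit 8), false, true, true, (nat_lit 329), (nat_lit 1581), (nat_lit 2237), [(nat_lit 1784917), (nat_lit 1780481), (nat_lit 1807675), (nat_lit 1803781), (nat_lit 1841932), (nat_lit 1835117), (nat_lit 1864706), (nat_lit 1858432)]⟩, ⟨(nat_lit 5), false, false, true, (nat_lit 186), (nat_lit 1581), (nat_lit 2237), [(nat_lit 1408901), (nat_lit 1406738), (nat_lit 1454450), (nat_lit 1453368), (nat_lit 1480171), (nat_lit 1475033), (nat_lit 1525719), (nat_lit 1521663)]⟩, (nat_lit 5316055), (nat_lit 33955741), (nat_lit 23651239), (nat_lit 9393020), (nat_lit 7), (nat_lit 0), [⟨(nat_lit 1), (nat_lit 67), (nat_lit 45), (nat_lit 100), (nat_lit 139654387)⟩], [⟨(nat_lit 1), (nat_lit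 100), (nat_lit 38), (nat_lit 96), (nat_lit 529143882)⟩], [⟨(nat_lit 1), (nat_lit 68), (nat_lit 88), (nat_lit 100), (nat_lit 213153110)⟩], [],
 ⟨⟨[(nat_lit 40), (nat_lit 60)], [(nat_lit 0), (nat_lit 1539)], [((nat_lit 0), (nat_lit 0), (nat_lit 0)), ((nat_lit 1000), (nat_lit 478), (nat_lit 704))], ((nat_lit 54), (nat_lit 100), (nat_lit 59))⟩, (nat_lit 103911), (nat_lit 69), (nat_lit 69), (nat_lit 0), (nat_lit 0), [(nat_lit 1599466012), (nat_lit 1367467200)], [(nat_lit 0), (nat_lit 0)], [(nat_lit 27587740626), (nat_lit 28082687163), (nat_lit 29305015854), (nat_lit 29756210571), (nat_lit 28614308128), (nat_lit 29070877255), (nat_lit 30204172806), (nat_lit 30621339962)], (nat_lit 0), (nat_lit 0), (nat_lit 0), (nat_lit 0), (nat_lit 0), (nat_lit 0), [], [(nat_lit 1), (nat_lit 38), (nat_lit 203), (nat_lit 0), (nat_lit 8)]⟩,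
 ⟨⟨[(nat_lit 60), (nat_lit 80), (nat_lit 100)], [(nat_lit 0), (nat_lit 304), (nat_lit 825)], [((nat_lit 0), (nat_lit 0), (nat_lit 0)), ((nat_lit 1000), (nat_lit 905), (nat_lit 238)), ((nat_lit 1000), (nat_lit 871), (nat_lit 407))], ((nat_lit 87), (nat_lit 100), (nat_lit 48))⟩, (nat_lit 2495393), (nat_lit 472), (nat_lit 472), (nat_lit 0), (nat_lit 1187251), [(nat_lit 1677102000), (nat_lit 2395568000), (nat_lit 3193750000)], [], [(nat_lit 15461450297), (nat_lit 15684208848), (nat_lit 16079897391), (nat_lit 16276357108), (nat_lit 16309760485), (nat_lit 16491200926), (nat_lit 16838303083), (nat_lit 17169399159)], (nat_lit 1271251), (nat_lit 1271251), (nat_lit 1271251), (nat_lit 1271251), (nat_lit 1271251), (nat_lit 1271251), [(nat_lit 780000), (nat_lit 1100000), (nat_lit 1442501)], [(nat_lit 9), (nat_lit 50), (nat_lit 247), (nat_lit 0), (nat_lit 7)]⟩,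
 Rw.none⟩) (.trX (nat_lit 4) (nat_lit 0) (nat_lit 2) (nat_lit 31) (nat_lit 100) (nat_lit 99) (nat_lit 230) (.leaf ⟨(nat_lit 681), (nat_lit 319), (nat_lit 0), (nat_lit 0), (nat_lit 0), (nat_lit 3024), (nat_lit 1820), (nat_lit 0), (nat_lit 0), (nat_lit 0), (nat_lit 272400), [((nat_lit 400), [((nat_lit 27), (nat_lit 1), (nat_lit 681))])], ⟨(nat_lit 8), false, true, true, (nat_lit 326), (nat_lit 0), (nat_lit 1582), [(nat_lit 1780481), (nat_lit 1774999), (nat_lit 1803773), (nat_lit 1799976), (nat_lit 1835115), (nat_lit 1824997), (nat_lit 1858431), (nat_lit 1849998)]⟩, ⟨(nat_lit 5), false, false, true, (nat_lit 179), (nat_lit 0), (nat_lit 1582), [(nat_lit 1406735), (nat_lit 1399996), (nat_lit 1453367), (nat_lit 1449998), (nat_lit 1447710), (nat_lit 1437494), (nat_lit 1494343), (nat_lit 1487497)]⟩, (nat_lit 5259326), (nat_lit 34451736), (nat_lit 23635939), (nat_lit 8912325), (nat_lit 7), (nat_lit 0), [⟨(nat_lit 1), (nat_lit 72), (nat_lit 39), (nat_lit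 100), (nat_lit 294982469)⟩], [⟨(nat_lit 1), (nat_lit 100), (nat_lit 31), (nat_lit 99), (nat_lit 498905394)⟩], [⟨(nat_lit 1), (nat_lit 68), (nat_lit 88), (nat_lit 100), (nat_lit 126448739)⟩], [],
 ⟨⟨[(nat_lit 40)], [(nat_lit 0)], [((nat_lit 0), (nat_lit 0), (nat_lit 0))], ((nat_lit 43), (nat_lit 100), (nat_lit 65))⟩, (nat_lit 0), (nat_lit 64), (nat_lit 64), (nat_lit 0), (nat_lit 0), [(nat_lit 1523693200)], [(nat_lit 0)], [(nat_lit 27978241798), (nat_lit 28467980832), (nat_lit 29642777958), (nat_lit 30133404384), (nat_lit 28518214635), (nat_lit 28985698248), (nat_lit 30105584518), (nat_lit 30573097752)], (nat_lit 0), (nat_lit 0), (nat_lit 0), (nat_lit 0), (nat_lit 0), (nat_lit 0), [], [(nat_lit 0), (nat_lit 37), (nat_lit 203), (nat_lit 0), (nat_lit 10)]⟩,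
 ⟨⟨[(nat_lit 60), (nat_lit 80), (nat_lit 100)], [(nat_lit 0), (nat_lit 304), (nat_lit 825)], [((nat_lit 0), (nat_lit 0), (nat_lit 0)), ((nat_lit 1000), (nat_lit 905), (nat_lit 238)), ((nat_lit 1000), (nat_lit 871), (nat_lit 407))], ((nat_lit 87), (nat_lit 100), (nat_lit 48))⟩, (nat_lit 1230654), (nat_lit 522), (nat_lit 522), (nat_lit 0), (nat_lit 1301896), [(nat_lit 1046958000), (nat_lit 1495472000), (nat_lit 1993750000)], [], [(nat_lit 9852641126), (nat_lit 9966428362), (nat_lit 10179354531), (nat_lit 10279134356), (nat_lit 10292678677), (nat_lit 10384399496), (nat_lit 10571345078), (nat_lit 10765947684)], (nat_lit 1271251), (nat_lit 1271251), (nat_lit 1271251), (nat_lit 1271251), (nat_lit 1271251), (nat_lit 1271251), [(nat_lit 780000), (nat_lit 1100000), (nat_lit 1442501)], [(nat_lit 9), (nat_lit 50), (nat_lit 260), (nat_lit 0), (nat_lit 7)]⟩,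
 Rw.none⟩))))) (.leaf ⟨(nat_lit 327), (nat_lit 673), (nat_lit 0), (nat_lit 0), (nat_lit 0), (nat_lit 3160), (nat_lit 3903), (nat_lit 0), (nat_lit 0), (nat_lit 0), (nat_lit 196200), [((nat_lit 400), [((nat_lit 43), (nat_lit 2), (nat_lit 327))])], ⟨(nat_lit 8), false, true, true, (nat_lit 327), (nat_lit 0), (nat_lit 2237), [(nat_lit 1784917), (nat_lit 1774999), (nat_lit 1807594), (nat_lit 1799902), (nat_lit 1841930), (nat_lit 1824997), (nat_lit 1864705), (nat_lit 1849998)]⟩, ⟨(nat_lit 5), false, false, true, (nat_lit 185), (nat_lit 0), (nat_lit 2237), [(nat_lit 1408898), (nat_lit 1399996), (nat_lit 1454449), (nat_lit 1449998), (nat_lit 1480164), (nat_lit 1462492), (nat_lit 1525715), (nat_lit 1512494)]⟩, (nat_lit 5303473), (nat_lit 34121843), (nat_lit 23575275), (nat_lit 9302882), (nat_lit 5), (nat_lit 0), [⟨(nat_lit 1), (nat_lit 74), (nat_lit 37), (nat_lit 100), (nat_lit 44801241)⟩], [⟨(nat_lit 1), (nat_lit 100), (nat_lit 31), (nat_lit 95), (nat_lit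 811538034)⟩], [⟨(nat_lit 1), (nat_lit 68), (nat_lit 88), (nat_lit 100), (nat_lit 152945221)⟩], [],
 ⟨⟨[(nat_lit 40), (nat_lit 60)], [(nat_lit 0), (nat_lit 1539)], [((nat_lit 0), (nat_lit 0), (nat_lit 0)), ((nat_lit 1000), (nat_lit 478), (nat_lit 704))], ((nat_lit 48), (nat_lit 100), (nat_lit 69))⟩, (nat_lit 164156), (nat_lit 72), (nat_lit 72), (nat_lit 0), (nat_lit 0), [(nat_lit 1665238003), (nat_lit 2001729600)], [(nat_lit 0), (nat_lit 0)], [(nat_lit 27787527039), (nat_lit 28743520559), (nat_lit 29448878989), (nat_lit 30321327479), (nat_lit 28777137824), (nat_lit 29659494399), (nat_lit 30315694407), (nat_lit 31148309876)], (nat_lit 0), (nat_lit 0), (nat_lit 0), (nat_lit 0), (nat_lit 0), (nat_lit 0), [], [(nat_lit 1), (nat_lit 38), (nat_lit 203), (nat_lit 0), (nat_lit 8)]⟩,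
 ⟨⟨[(nat_lit 60), (nat_lit 100), (nat_lit 120)], [(nat_lit 0), (nat_lit 609), (nat_lit 1609)], [((nat_lit 0), (nat_lit 0), (nat_lit 0)), ((nat_lit 1000), (nat_lit 905), (nat_lit 238)), ((nat_lit 1000), (nat_lit 882), (nat_lit 668))], ((nat_lit 88), (nat_lit 100), (nat_lit 63))⟩, (nat_lit 2158528), (nat_lit 534), (nat_lit 534), (nat_lit 0), (nat_lit 985084), [(nat_lit 2208786000), (nat_lit 4206250000), (nat_lit 5362464000)], [], [(nat_lit 21174212762), (nat_lit 21508154880), (nat_lit 22097468379), (nat_lit 22390860552), (nat_lit 21791881172), (nat_lit 21964527170), (nat_lit 22342430132), (nat_lit 22783775850)], (nat_lit 1271251), (nat_lit 1271251), (nat_lit 1271251), (nat_lit 1271251), (nat_lit 230000), (nat_lit 2535626), [(nat_lit 780000), (nat_lit 1435001), (nat_lit 1271251)], [(nat_lit 10), (nat_lit 54), (nat_lit 317), (nat_lit 100), (nat_lit 9)]⟩,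
 Rw.none⟩)))
noncomputable def c14_28 : Tr Lf :=
 (.spl (nat_lit 1) (nat_lit 280) (.spl (nat_lit 1) (nat_lit 260) (.trX (nat_lit 3) (nat_lit 0) (nat_lit 1) (nat_lit 46) (nat_lit 76) (nat_lit 100) (nat_lit 340) (.leaf ⟨(nat_lit 944), (nat_lit 25), (nat_lit 0), (nat_lit 31), (nat_lit 0), (nat_lit 3126), (nat_lit 573), (nat_lit 382), (nat_lit 0), (nat_lit 0), (nat_lit 236000), [((nat_lit 400), [((nat_lit 28), (nat_lit 0), (nat_lit 944))])], ⟨(nat_lit 8), false, true, true, (nat_lit 293), (nat_lit 0), (nat_lit 2237), [(nat_lit 1716590), (nat_lit 1699995), (nat_lit 1739366), (nat_lit 1724997), (nat_lit 1745097), (nat_lit 1724995), (nat_lit 1767872), (nat_lit 1749995)]⟩, ⟨(nat_lit 5), false, false, true, (nat_lit 204), (nat_lit 0), (nat_lit 2237), [(nat_lit 1454449), (nat_lit 1449998), (nat_lit 1477224), (nat_lit 1474999), (nat_lit 1554222), (nat_lit 1537494), (nat_lit 1576997), (nat_lit 1562495)]⟩, (nat_lit 5385628), (nat_lit 35531319), (nat_lit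 20219250), (nat_lit 11249431), (nat_lit 5), (nat_lit 0), [⟨(nat_lit 1), (nat_lit 76), (nat_lit 46), (nat_lit 100), (nat_lit 393616580)⟩], [⟨(nat_lit 1), (nat_lit 94), (nat_lit 44), (nat_lit 100), (nat_lit 157059937)⟩], [], [⟨(nat_lit 0), (nat_lit 100), (nat_lit 76), (nat_lit 97), (nat_lit 3623644)⟩],
 ⟨⟨[(nat_lit 40), (nat_lit 60)], [(nat_lit 0), (nat_lit 1539)], [((nat_lit 0), (nat_lit 0), (nat_lit 0)), ((nat_lit 1000), (nat_lit 478), (nat_lit 704))], ((nat_lit 48), (nat_lit 100), (nat_lit 69))⟩, (nat_lit 1795), (nat_lit 67), (nat_lit 67), (nat_lit 0), (nat_lit 0), [(nat_lit 1576348807), (nat_lit 1171216000)], [(nat_lit 0), (nat_lit 0)], [(nat_lit 27529532150), (nat_lit 28521809382), (nat_lit 28389990477), (nat_lit 29384631843), (nat_lit 29117722602), (nat_lit 30019321282), (nat_lit 29886636523), (nat_lit 30812529968)], (nat_lit 0), (nat_lit 0), (nat_lit 0), (nat_lit 0), (nat_lit 0), (nat_lit 0), [], [(nat_lit 1), (nat_lit 38), (nat_lit 203),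 (nat_lit 0), (nat_lit 8)]⟩,
 ⟨⟨[(nat_lit 80), (nat_lit 120), (nat_lit 160)], [(nat_lit 0), (nat_lit 0), (nat_lit 2132)], [((nat_lit 0), (nat_lit 0), (nat_lit 0)), ((nat_lit 0), (nat_lit 0), (nat_lit 0)), ((nat_lit 858), (nat_lit 1000), (nat_lit 713))], ((nat_lit 100), (nat_lit 91), (nat_lit 64))⟩, (nat_lit 205876), (nat_lit 1030), (nat_lit 1030), (nat_lit 0), (nat_lit 1813232), [(nat_lit 262528000), (nat_lit 446208000), (nat_lit 664832000)], [], [(nat_lit 1798524574), (nat_lit 1799491566), (nat_lit 1817217963), (nat_lit 1825347058), (nat_lit 2076012380), (nat_lit 2115337194), (nat_lit 2157271995), (nat_lit 2192422666)], (nat_lit 1271251), (nat_lit 1271251), (nat_lit 1271251), (nat_lit 1271251), (nat_lit 230000), (nat_lit 2907501), [(nat_lit 1100000), (nat_lit 1785001), (nat_lit 1271251)], [(nat_lit 18), (nat_lit 59), (nat_lit 401), (nat_lit 175), (nat_lit 10)]⟩,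
 ⟨⟨[(nat_lit 120), (nat_lit 160), (nat_lit 180)], [(nat_lit 0), (nat_lit 0), (nat_lit 1613)], [((nat_lit 0), (nat_lit 0), (nat_lit 0)), ((nat_lit 0), (nat_lit 0), (nat_lit 0)), ((nat_lit 620), (nat_lit 1000), (nat_lit 670))], ((nat_lit 100), (nat_lit 65), (nat_lit 64))⟩, (nat_lit 14869), (nat_lit 300), (nat_lit 1743), (nat_lit 2300200), (nat_lit 3021281), [(nat_lit 247008000), (nat_lit 368032000), (nat_lit 435798000)], [], [(nat_lit 1659147930), (nat_lit 1641218501), (nat_lit 1614858915), (nat_lit 1595714435), (nat_lit 2141940628), (nat_lit 2257276868), (nat_lit 1554392349), (nat_lit 1673330658)], (nat_lit 1100000), (nat_lit 1271251), (nat_lit 1271251), (nat_lit 1271251), (nat_lit 230000), (nat_lit 2907501), [(nat_lit 1695001), (nat_lit 1271251), (nat_lit 1271251)], [(nat_lit 28), (nat_lit 65), (nat_lit 542), (nat_lit 225), (nat_lit 12)]⟩⟩)) (.trX (nat_lit 5) (nat_lit 1) (nat_lit 2) (nat_lit 96) (nat_lit 40) (nat_lit 100) (nat_lit 390) (.spl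 (nat_lit 2) (nat_lit 170) (.trX (nat_lit 4) (nat_lit 0) (nat_lit 2) (nat_lit 44) (nat_lit 97) (nat_lit 100) (nat_lit 260) (.trX (nat_lit 5) (nat_lit 1) (nat_lit 2) (nat_lit 96) (nat_lit 44) (nat_lit 100) (nat_lit 380) (.leaf ⟨(nat_lit 888), (nat_lit 73), (nat_lit 0), (nat_lit 39), (nat_lit 0), (nat_lit 3110), (nat_lit 849), (nat_lit 429), (nat_lit 0), (nat_lit 0), (nat_lit 222000), [((nat_lit 400), [((nat_lit 28), (nat_lit 0), (nat_lit 888))])], ⟨(nat_lit 8), false, true, true, (nat_lit 308), (nat_lit 0), (nat_lit 2237), [(nat_lit 1739366), (nat_lit 1724997), (nat_lit 1762141), (nat_lit 1749998), (nat_lit 1796379), (nat_lit 1774994), (nat_lit 1819154), (nat_lit 1799995)]⟩, ⟨(nat_lit 5), false, false, true, (nat_lit 199), (nat_lit 0), (nat_lit 2237), [(nat_lit 1454449), (nat_lit 1449998), (nat_lit 1465836), (nat_lit 1462498), (nat_lit 1539969), (nat_lit 1524995), (nat_lit 1551356), (nat_lit 1537495)]⟩, (nat_lit 5381597), (nat_lit 34765448),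 (nat_lit 21599379), (nat_lit 10635173), (nat_lit 5), (nat_lit 0), [⟨(nat_lit 1), (nat_lit 71), (nat_lit 48), (nat_lit 100), (nat_lit 368603824)⟩], [⟨(nat_lit 1), (nat_lit 100), (nat_lit 32), (nat_lit 99), (nat_lit 5162569)⟩, ⟨(nat_lit 1), (nat_lit 97), (nat_lit 44), (nat_lit 100), (nat_lit 136680167)⟩], [], [],
 ⟨⟨[(nat_lit 40), (nat_lit 60)], [(nat_lit 0), (nat_lit 1539)], [((nat_lit 0), (nat_lit 0), (nat_lit 0)), ((nat_lit 1000), (nat_lit 478), (nat_lit 704))], ((nat_lit 48), (nat_lit 100), (nat_lit 69))⟩, (nat_lit 0), (nat_lit 72), (nat_lit 72), (nat_lit 0), (nat_lit 0), [(nat_lit 1589497601), (nat_lit 1296432000)], [(nat_lit 0), (nat_lit 0)], [(nat_lit 27565913162), (nat_lit 28556182682), (nat_lit 29283763352), (nat_lit 30252139510), (nat_lit 28873321780), (nat_lit 29770458812), (nat_lit 30436195120), (nat_lit 31333377010)], (nat_lit 0), (nat_lit 0), (nat_lit 0), (nat_lit 0), (nat_lit 0), (nat_lit 0), [], [(nat_lit 1), (nat_lit 38), (nat_lit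 203), (nat_lit 0), (nat_lit 8)]⟩,
 ⟨⟨[(nat_lit 80), (nat_lit 120), (nat_lit 140)], [(nat_lit 0), (nat_lit 528), (nat_lit 1572)], [((nat_lit 0), (nat_lit 0), (nat_lit 0)), ((nat_lit 1000), (nat_lit 959), (nat_lit 206)), ((nat_lit 966), (nat_lit 1000), (nat_lit 679))], ((nat_lit 100), (nat_lit 98), (nat_lit 66))⟩, (nat_lit 610508), (nat_lit 886), (nat_lit 886), (nat_lit 0), (nat_lit 1633912), [(nat_lit 525056000), (nat_lit 892416000), (nat_lit 1102304000)], [], [(nat_lit 3486345876), (nat_lit 3497073892), (nat_lit 3554716486), (nat_lit 3566646223), (nat_lit 3723692623), (nat_lit 3804947118), (nat_lit 4004867730), (nat_lit 4072200613)], (nat_lit 1271251), (nat_lit 1271251), (nat_lit 1271251), (nat_lit 1271251), (nat_lit 230000), (nat_lit 2758751), [(nat_lit 1100000), (nat_lit 1785001), (nat_lit 1271251)], [(nat_lit 17), (nat_lit 58), (nat_lit 401), (nat_lit 175), (nat_lit 11)]⟩,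
 ⟨⟨[(nat_lit 120), (nat_lit 160), (nat_lit 180)], [(nat_lit 0), (nat_lit 0), (nat_lit 1613)], [((nat_lit 0), (nat_lit 0), (nat_lit 0)), ((nat_lit 0), (nat_lit 0), (nat_lit 0)), ((nat_lit 620), (nat_lit 1000), (nat_lit 670))], ((nat_lit 100), (nat_lit 65), (nat_lit 64))⟩, (nat_lit 16973), (nat_lit 300), (nat_lit 1824), (nat_lit 2893804), (nat_lit 3177245), [(nat_lit 310752000), (nat_lit 463008000), (nat_lit 548262000)], [], [(nat_lit 2309499495), (nat_lit 2297131942), (nat_lit 2244251969), (nat_lit 2231669358), (nat_lit 2523874022), (nat_lit 2587709307), (nat_lit 1953275279), (nat_lit 2018876328)], (nat_lit 1100000), (nat_lit 1184688), (nat_lit 1271251), (nat_lit 1271251), (nat_lit 230000), (nat_lit 2758751), [(nat_lit 1695001), (nat_lit 1271251), (nat_lit 1271251)], [(nat_lit 28), (nat_lit 65), (nat_lit 558), (nat_lit 225), (nat_lit 13)]⟩⟩))) (.leaf ⟨(nat_lit 815), (nat_lit 110), (nat_lit 0), (nat_lit 75), (nat_lit 0), (nat_lit 2968), (nat_lit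 1398), (nat_lit 771), (nat_lit 0), (nat_lit 0), (nat_lit 326000), [((nat_lit 400), [((nat_lit 28), (nat_lit 1), (nat_lit 815))])], ⟨(nat_lit 8), false, true, true, (nat_lit 308), (nat_lit 0), (nat_lit 2237), [(nat_lit 1739366), (nat_lit 1724997), (nat_lit 1762141), (nat_lit 1749998), (nat_lit 1796379), (nat_lit 1774994), (nat_lit 1819154), (nat_lit 1799995)]⟩, ⟨(nat_lit 5), false, false, true, (nat_lit 207), (nat_lit 0), (nat_lit 2237), [(nat_lit 1465836), (nat_lit 1462498), (nat_lit 1477224), (nat_lit 1474999), (nat_lit 1565610), (nat_lit 1549995), (nat_lit 1576997), (nat_lit 1562495)]⟩, (nat_lit 5429445), (nat_lit 34406873), (nat_lit 21413973), (nat_lit 11179154), (nat_lit 5), (nat_lit 0), [⟨(nat_lit 1), (nat_lit 83), (nat_lit 33), (nat_lit 100), (nat_lit 503820957)⟩], [⟨(nat_lit 1), (nat_lit 99), (nat_lit 31), (nat_lit 100), (nat_lit 100570816)⟩], [], [],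
 ⟨⟨[(nat_lit 40), (nat_lit 60)], [(nat_lit 0), (nat_lit 1539)], [((nat_lit 0), (nat_lit 0), (nat_lit 0)), ((nat_lit 1000), (nat_lit 478), (nat_lit 704))], ((nat_lit 48), (nat_lit 100), (nat_lit 69))⟩, (nat_lit 0), (nat_lit 72), (nat_lit 72), (nat_lit 0), (nat_lit 0), [(nat_lit 1469718002), (nat_lit 871882000)], [(nat_lit 0), (nat_lit 0)], [(nat_lit 27415844352), (nat_lit 28388295428), (nat_lit 29106479674), (nat_lit 30056088488), (nat_lit 29005669412), (nat_lit 29872059436), (nat_lit 30534529436), (nat_lit 31401232854)], (nat_lit 0), (nat_lit 0), (nat_lit 0), (nat_lit 0), (nat_lit 0), (nat_lit 0), [], [(nat_lit 1), (nat_lit 38), (nat_lit 203), (nat_lit 0), (nat_lit 8)]⟩,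
 ⟨⟨[(nat_lit 80), (nat_lit 120), (nat_lit 140)], [(nat_lit 0), (nat_lit 528), (nat_lit 1572)], [((nat_lit 0), (nat_lit 0), (nat_lit 0)), ((nat_lit 1000), (nat_lit 959), (nat_lit 206)), ((nat_lit 966), (nat_lit 1000), (nat_lit 679))], ((nat_lit 100), (nat_lit 98), (nat_lit 66))⟩, (nat_lit 1083789), (nat_lit 876), (nat_lit 876), (nat_lit 0), (nat_lit 1611524), [(nat_lit 867280000), (nat_lit 1474080000), (nat_lit 1820770000)], [], [(nat_lit 5698077410), (nat_lit 5732341142), (nat_lit 5845332569), (nat_lit 5878052909), (nat_lit 6287404857), (nat_lit 6414533469), (nat_lit 6734285458), (nat_lit 6839298352)], (nat_lit 1271251), (nat_lit 1271251), (nat_lit 1271251), (nat_lit 1271251), (nat_lit 230000), (nat_lit 2833126), [(nat_lit 1100000), (nat_lit 1785001), (nat_lit 1271251)], [(nat_lit 17), (nat_lit 58), (nat_lit 401), (nat_lit 175), (nat_lit 11)]⟩,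
 ⟨⟨[(nat_lit 120), (nat_lit 160), (nat_lit 180)], [(nat_lit 0), (nat_lit 264), (nat_lit 1835)], [((nat_lit 0), (nat_lit 0), (nat_lit 0)), ((nat_lit 980), (nat_lit 1000), (nat_lit 101)), ((nat_lit 612), (nat_lit 1000), (nat_lit 704))], ((nat_lit 100), (nat_lit 69), (nat_lit 63))⟩, (nat_lit 354545), (nat_lit 300), (nat_lit 1626), (nat_lit 4980001), (nat_lit 2779662), [(nat_lit 597600000), (nat_lit 890400000), (nat_lit 1054350000)], [], [(nat_lit 4135389773), (nat_lit 4115677629), (nat_lit 4026225489), (nat_lit 4005728441), (nat_lit 4967171678), (nat_lit 5090449861), (nat_lit 3781136752), (nat_lit 3908074547)], (nat_lit 1184688), (nat_lit 1271251), (nat_lit 1271251), (nat_lit 1271251), (nat_lit 230000), (nat_lit 2833126), [(nat_lit 1695001), (nat_lit 1271251), (nat_lit 1271251)], [(nat_lit 28), (nat_lit 65), (nat_lit 512), (nat_lit 225), (nat_lit 12)]⟩⟩)))) (.trX (nat_lit 5) (nat_lit 1) (nat_lit 2) (nat_lit 92) (nat_lit 49) (nat_lit 100) (nat_lit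 380) (.stt (nat_lit 3) (.leaf ⟨(nat_lit 0), (nat_lit 0), (nat_lit 0), (nat_lit 1000), (nat_lit 0), (nat_lit 3681), (nat_lit 7905), (nat_lit 40935), (nat_lit 0), (nat_lit 0), (nat_lit 0), [], Pd.none, Pd.none, (nat_lit 0), (nat_lit 1), (nat_lit 0), (nat_lit 0), (nat_lit 0), (nat_lit 0), [⟨(nat_lit 1), (nat_lit 77), (nat_lit 36), (nat_lit 100), (nat_lit 529851548)⟩], [⟨(nat_lit 1), (nat_lit 100), (nat_lit 32), (nat_lit 100), (nat_lit 1271855825)⟩], [], [],
 ⟨⟨[(nat_lit 40), (nat_lit 60)], [(nat_lit 0), (nat_lit 1539)], [((nat_lit 0), (nat_lit 0), (nat_lit 0)), ((nat_lit 1000), (nat_lit 478), (nat_lit 704))], ((nat_lit 48), (nat_lit 100), (nat_lit 69))⟩, (nat_lit 719915), (nat_lit 72), (nat_lit 72), (nat_lit 0), (nat_lit 0), [(nat_lit 2032000015), (nat_lit 3282000000)], [], [(nat_lit 28135860762), (nat_lit 29153219520), (nat_lit 29979835533), (nat_lit 31040485521), (nat_lit 29673514426), (nat_lit 30652385917), (nat_lit 31388426347), (nat_lit 32324097631)],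 (nat_lit 0), (nat_lit 0), (nat_lit 0), (nat_lit 0), (nat_lit 0), (nat_lit 0), [], [(nat_lit 1), (nat_lit 38), (nat_lit 203), (nat_lit 0), (nat_lit 8)]⟩,
 ⟨⟨[(nat_lit 60), (nat_lit 100), (nat_lit 140)], [(nat_lit 0), (nat_lit 0), (nat_lit 2047)], [((nat_lit 0), (nat_lit 0), (nat_lit 0)), ((nat_lit 0), (nat_lit 0), (nat_lit 0)), ((nat_lit 1000), (nat_lit 993), (nat_lit 781))], ((nat_lit 95), (nat_lit 100), (nat_lit 65))⟩, (nat_lit 1820860), (nat_lit 827), (nat_lit 827), (nat_lit 0), (nat_lit 1517715), [(nat_lit 3282000000), (nat_lit 6250000000), (nat_lit 9842000000)], [], [(nat_lit 36722855005), (nat_lit 37105583550), (nat_lit 37524820183), (nat_lit 37819521415), (nat_lit 34309749330), (nat_lit 35778961540), (nat_lit 36750062785), (nat_lit 37961766748)], (nat_lit 1271251), (nat_lit 1271251), (nat_lit 1271251), (nat_lit 1271251), (nat_lit 230000), (nat_lit 2758751), [(nat_lit 780000), (nat_lit 1435001), (nat_lit 1271251)], [(nat_lit 11), (nat_lit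 55), (nat_lit 340), (nat_lit 100), (nat_lit 9)]⟩,
 ⟨⟨[(nat_lit 120), (nat_lit 160), (nat_lit 180)], [(nat_lit 0), (nat_lit 0), (nat_lit 1613)], [((nat_lit 0), (nat_lit 0), (nat_lit 0)), ((nat_lit 0), (nat_lit 0), (nat_lit 0)), ((nat_lit 620), (nat_lit 1000), (nat_lit 670))], ((nat_lit 100), (nat_lit 65), (nat_lit 64))⟩, (nat_lit 13058976), (nat_lit 223), (nat_lit 223), (nat_lit 0), (nat_lit 0), [(nat_lit 7968000000), (nat_lit 11872000000), (nat_lit 14058000000)], [], [(nat_lit 17192901567), (nat_lit 18597656292), (nat_lit 28947749774), (nat_lit 29901465316), (nat_lit 52231050460), (nat_lit 52685159418), (nat_lit 59214945797), (nat_lit 59018326397)], (nat_lit 0), (nat_lit 0), (nat_lit 0), (nat_lit 0), (nat_lit 0), (nat_lit 0), [], [(nat_lit 28), (nat_lit 65), (nat_lit 456), (nat_lit 225), (nat_lit 11)]⟩⟩) (.spl (nat_lit 5) (nat_lit 200) (.leaf ⟨(nat_lit 708), (nat_lit 231), (nat_lit 0), (nat_lit 61), (nat_lit 0), (nat_lit 2976), (nat_lit 2388),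 (nat_lit 758), (nat_lit 0), (nat_lit 0), (nat_lit 424800), [((nat_lit 400), [((nat_lit 43), (nat_lit 2), (nat_lit 708))])], ⟨(nat_lit 8), false, true, true, (nat_lit 323), (nat_lit 0), (nat_lit 2237), [(nat_lit 1762141), (nat_lit 1749998), (nat_lit 1807594), (nat_lit 1799902), (nat_lit 1819154), (nat_lit 1799995), (nat_lit 1864705), (nat_lit 1849998)]⟩, ⟨(nat_lit 5), false, false, true, (nat_lit 204), (nat_lit 0), (nat_lit 2237), [(nat_lit 1454449), (nat_lit 1449998), (nat_lit 1477224), (nat_lit 1474999), (nat_lit 1554222), (nat_lit 1537494), (nat_lit 1576997), (nat_lit 1562495)]⟩, (nat_lit 5432785), (nat_lit 33568849), (nat_lit 22664316), (nat_lit 10766835), (nat_lit 5), (nat_lit 0), [⟨(nat_lit 1), (nat_lit 77), (nat_lit 36), (nat_lit 100), (nat_lit 238879676)⟩], [⟨(nat_lit 1), (nat_lit 100), (nat_lit 32), (nat_lit 100), (nat_lit 323402714)⟩], [], [⟨(nat_lit 0), (nat_lit 100), (nat_lit 73), (nat_lit 83), (nat_lit 49317594)⟩],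
 ⟨⟨[(nat_lit 40), (nat_lit 60)], [(nat_lit 0), (nat_lit 1539)], [((nat_lit 0), (nat_lit 0), (nat_lit 0)), ((nat_lit 1000), (nat_lit 478), (nat_lit 704))], ((nat_lit 48), (nat_lit 100), (nat_lit 69))⟩, (nat_lit 46034), (nat_lit 72), (nat_lit 72), (nat_lit 0), (nat_lit 0), [(nat_lit 1510552001), (nat_lit 510038400)], [(nat_lit 0), (nat_lit 0)], [(nat_lit 27492470638), (nat_lit 28465925570), (nat_lit 29184639192), (nat_lit 30073180354), (nat_lit 29082212933), (nat_lit 29949415326), (nat_lit 30597175413), (nat_lit 31411587578)], (nat_lit 0), (nat_lit 0), (nat_lit 0), (nat_lit 0), (nat_lit 0), (nat_lit 0), [], [(nat_lit 1), (nat_lit 38), (nat_lit 203), (nat_lit 0), (nat_lit 8)]⟩,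
 ⟨⟨[(nat_lit 60), (nat_lit 100), (nat_lit 140)], [(nat_lit 0), (nat_lit 0), (nat_lit 2047)], [((nat_lit 0), (nat_lit 0), (nat_lit 0)), ((nat_lit 0), (nat_lit 0), (nat_lit 0)), ((nat_lit 1000), (nat_lit 993), (nat_lit 781))], ((nat_lit 95), (nat_lit 100), (nat_lit 65))⟩, (nat_lit 861170), (nat_lit 696), (nat_lit 696), (nat_lit 0), (nat_lit 1212083), [(nat_lit 958344000), (nat_lit 1825000000), (nat_lit 2873864000)], [], [(nat_lit 9843983812), (nat_lit 10016043200), (nat_lit 10160534180), (nat_lit 10456745684), (nat_lit 8908388404), (nat_lit 9023540672), (nat_lit 9152954352), (nat_lit 9240772460)], (nat_lit 1271251), (nat_lit 1271251), (nat_lit 1271251), (nat_lit 1271251), (nat_lit 230000), (nat_lit 1420001), [(nat_lit 780000), (nat_lit 1435001), (nat_lit 1271251)], [(nat_lit 11), (nat_lit 55), (nat_lit 284), (nat_lit 50), (nat_lit 7)]⟩,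
 ⟨⟨[(nat_lit 120), (nat_lit 160), (nat_lit 180)], [(nat_lit 0), (nat_lit 0), (nat_lit 1613)], [((nat_lit 0), (nat_lit 0), (nat_lit 0)), ((nat_lit 0), (nat_lit 0), (nat_lit 0)), ((nat_lit 620), (nat_lit 1000), (nat_lit 670))], ((nat_lit 100), (nat_lit 65), (nat_lit 64))⟩, (nat_lit 110919), (nat_lit 300), (nat_lit 2038), (nat_lit 4526200), (nat_lit 3605252), [(nat_lit 486048000), (nat_lit 724192000), (nat_lit 857538000)], [], [(nat_lit 3244273378), (nat_lit 3208542986), (nat_lit 3155831117), (nat_lit 3123570462), (nat_lit 2836497142), (nat_lit 3042596889), (nat_lit 2617889041), (nat_lit 2587324133)], (nat_lit 1100000), (nat_lit 1271251), (nat_lit 1271251), (nat_lit 1271251), (nat_lit 230000), (nat_lit 1420001), [(nat_lit 1695001), (nat_lit 1271251), (nat_lit 1271251)], [(nat_lit 28), (nat_lit 65), (nat_lit 591), (nat_lit 175), (nat_lit 14)]⟩⟩) (.spl (nat_lit 0) (nat_lit 390) (.leaf ⟨(nat_lit 646), (nat_lit 278), (nat_lit 0), (nat_lit 76), (nat_lit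 0), (nat_lit 3015), (nat_lit 2500), (nat_lit 828), (nat_lit 0), (nat_lit 0), (nat_lit 387600), [((nat_lit 390), [((nat_lit 43), (nat_lit 2), (nat_lit 646))])], ⟨(nat_lit 8), false, true, true, (nat_lit 324), (nat_lit 1581), (nat_lit 2237), [(nat_lit 1762142), (nat_lit 1757166), (nat_lit 1807675), (nat_lit 1803781), (nat_lit 1819158), (nat_lit 1811802), (nat_lit 1864706), (nat_lit 1858432)]⟩, ⟨(nat_lit 5), false, false, true, (nat_lit 206), (nat_lit 1581), (nat_lit 2237), [(nat_lit 1454450), (nat_lit 1453368), (nat_lit 1477224), (nat_lit 1476683), (nat_lit 1554227), (nat_lit 1548981), (nat_lit 1577001), (nat_lit 1572296)]⟩, (nat_lit 5442568), (nat_lit 33406218), (nat_lit 22758925), (nat_lit 10834857), (nat_lit 5), (nat_lit 0), [⟨(nat_lit 1), (nat_lit 71), (nat_lit 44), (nat_lit 100), (nat_lit 221763223)⟩], [⟨(nat_lit 1), (nat_lit 98), (nat_lit 38), (nat_lit 100), (nat_lit 351033482)⟩], [⟨(nat_lit 1), (nat_lit 63), (nat_lit 88), (nat_lit 100),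 (nat_lit 59597612)⟩], [],
 ⟨⟨[(nat_lit 40), (nat_lit 60)], [(nat_lit 0), (nat_lit 1539)], [((nat_lit 0), (nat_lit 0), (nat_lit 0)), ((nat_lit 1000), (nat_lit 478), (nat_lit 704))], ((nat_lit 48), (nat_lit 100), (nat_lit 69))⟩, (nat_lit 128871), (nat_lit 69), (nat_lit 69), (nat_lit 0), (nat_lit 0), [(nat_lit 1535724001), (nat_lit 752780800)], [(nat_lit 0), (nat_lit 0)], [(nat_lit 27518236292), (nat_lit 28007410657), (nat_lit 29217879352), (nat_lit 29664211317), (nat_lit 29107575108), (nat_lit 29543156454), (nat_lit 30628482582), (nat_lit 31027160943)], (nat_lit 0), (nat_lit 0), (nat_lit 0), (nat_lit 0), (nat_lit 0), (nat_lit 0), [], [(nat_lit 1), (nat_lit 38), (nat_lit 203), (nat_lit 0), (nat_lit 8)]⟩,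
 ⟨⟨[(nat_lit 60), (nat_lit 100), (nat_lit 140)], [(nat_lit 0), (nat_lit 0), (nat_lit 2047)], [((nat_lit 0), (nat_lit 0), (nat_lit 0)), ((nat_lit 0), (nat_lit 0), (nat_lit 0)), ((nat_lit 1000), (nat_lit 993), (nat_lit 781))], ((nat_lit 95), (nat_lit 100), (nat_lit 65))⟩, (nat_lit 976268), (nat_lit 551), (nat_lit 551), (nat_lit 0), (nat_lit 1087472), [(nat_lit 1161828000), (nat_lit 2212500000), (nat_lit 3484068000)], [], [(nat_lit 11439497942), (nat_lit 11750846552), (nat_lit 11933678777), (nat_lit 12198554982), (nat_lit 12572689540), (nat_lit 12727211192), (nat_lit 12885722472), (nat_lit 13070414248)], (nat_lit 1271251), (nat_lit 1271251), (nat_lit 1271251), (nat_lit 1271251), (nat_lit 1271251), (nat_lit 1271251), [(nat_lit 780000), (nat_lit 1435001), (nat_lit 1271251)], [(nat_lit 11), (nat_lit 55), (nat_lit 317), (nat_lit 100), (nat_lit 8)]⟩,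
 ⟨⟨[(nat_lit 120), (nat_lit 160), (nat_lit 180)], [(nat_lit 0), (nat_lit 0), (nat_lit 1613)], [((nat_lit 0), (nat_lit 0), (nat_lit 0)), ((nat_lit 0), (nat_lit 0), (nat_lit 0)), ((nat_lit 620), (nat_lit 1000), (nat_lit 670))], ((nat_lit 100), (nat_lit 65), (nat_lit 64))⟩, (nat_lit 150500), (nat_lit 300), (nat_lit 1794), (nat_lit 5639200), (nat_lit 3296865), [(nat_lit 605568000), (nat_lit 902272000), (nat_lit 1068408000)], [], [(nat_lit 4048107485), (nat_lit 3998269165), (nat_lit 3886063483), (nat_lit 3836149782), (nat_lit 3730841268), (nat_lit 3683981670), (nat_lit 3603080151), (nat_lit 3556388573)], (nat_lit 1100000), (nat_lit 1271251), (nat_lit 1271251), (nat_lit 1271251), (nat_lit 1271251), (nat_lit 1271251), [(nat_lit 1695001), (nat_lit 1271251), (nat_lit 1271251)], [(nat_lit 28), (nat_lit 65), (nat_lit 553), (nat_lit 225), (nat_lit 12)]⟩⟩) (.trX (nat_lit 4) (nat_lit 0) (nat_lit 2) (nat_lit 31) (nat_lit 98) (nat_lit 100) (nat_lit 250) (.leaf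 ⟨(nat_lit 722), (nat_lit 219), (nat_lit 0), (nat_lit 59), (nat_lit 0), (nat_lit 2995), (nat_lit 2002), (nat_lit 653), (nat_lit 0), (nat_lit 0), (nat_lit 433200), [((nat_lit 400), [((nat_lit 43), (nat_lit 2), (nat_lit 722))])], ⟨(nat_lit 8), false, true, true, (nat_lit 322), (nat_lit 0), (nat_lit 1582), [(nat_lit 1757165), (nat_lit 1749998), (nat_lit 1803773), (nat_lit 1799976), (nat_lit 1811799), (nat_lit 1799996), (nat_lit 1858431), (nat_lit 1849998)]⟩, ⟨(nat_lit 5), false, false, true, (nat_lit 199), (nat_lit 0), (nat_lit 1582), [(nat_lit 1453367), (nat_lit 1449998), (nat_lit 1476683), (nat_lit 1474999), (nat_lit 1521659), (nat_lit 1512494), (nat_lit 1544976), (nat_lit 1537497)]⟩, (nat_lit 5394085), (nat_lit 33906563), (nat_lit 22723335), (nat_lit 10370102), (nat_lit 5), (nat_lit 0), [⟨(nat_lit 1), (nat_lit 72), (nat_lit 39), (nat_lit 100), (nat_lit 297756996)⟩], [⟨(nat_lit 1), (nat_lit 98), (nat_lit 31), (nat_lit 100), (nat_lit 379351933)⟩],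 [⟨(nat_lit 1), (nat_lit 63), (nat_lit 88), (nat_lit 100), (nat_lit 41103085)⟩], [],
 ⟨⟨[(nat_lit 40), (nat_lit 60)], [(nat_lit 0), (nat_lit 2136)], [((nat_lit 0), (nat_lit 0), (nat_lit 0)), ((nat_lit 1000), (nat_lit 343), (nat_lit 808))], ((nat_lit 37), (nat_lit 100), (nat_lit 75))⟩, (nat_lit 6634), (nat_lit 72), (nat_lit 72), (nat_lit 0), (nat_lit 0), [(nat_lit 1504868039), (nat_lit 455225600)], [(nat_lit 0), (nat_lit 0)], [(nat_lit 27957048193), (nat_lit 28444967738), (nat_lit 29610213473), (nat_lit 30093365795), (nat_lit 28950142114), (nat_lit 29400621501), (nat_lit 30483186021), (nat_lit 30933680543)], (nat_lit 0), (nat_lit 0), (nat_lit 0), (nat_lit 0), (nat_lit 0), (nat_lit 0), [], [(nat_lit 1), (nat_lit 38), (nat_lit 203), (nat_lit 0), (nat_lit 7)]⟩,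
 ⟨⟨[(nat_lit 60), (nat_lit 100), (nat_lit 140)], [(nat_lit 0), (nat_lit 0), (nat_lit 2047)], [((nat_lit 0), (nat_lit 0), (nat_lit 0)), ((nat_lit 0), (nat_lit 0), (nat_lit 0)), ((nat_lit 1000), (nat_lit 993), (nat_lit 781))], ((nat_lit 95), (nat_lit 100), (nat_lit 65))⟩, (nat_lit 562110), (nat_lit 603), (nat_lit 603), (nat_lit 0), (nat_lit 1211328), [(nat_lit 912396000), (nat_lit 1737500000), (nat_lit 2736076000)], [], [(nat_lit 9452311448), (nat_lit 9624302008), (nat_lit 9750301309), (nat_lit 9896337738), (nat_lit 10071893750), (nat_lit 10147167090), (nat_lit 10257695430), (nat_lit 10312103165)], (nat_lit 1271251), (nat_lit 1271251), (nat_lit 1271251), (nat_lit 1271251), (nat_lit 1271251), (nat_lit 1271251), [(nat_lit 780000), (nat_lit 1435001), (nat_lit 1271251)], [(nat_lit 11), (nat_lit 55), (nat_lit 317), (nat_lit 100), (nat_lit 8)]⟩,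
 ⟨⟨[(nat_lit 120), (nat_lit 160), (nat_lit 180)], [(nat_lit 0), (nat_lit 0), (nat_lit 1613)], [((nat_lit 0), (nat_lit 0), (nat_lit 0)), ((nat_lit 0), (nat_lit 0), (nat_lit 0)), ((nat_lit 620), (nat_lit 1000), (nat_lit 670))], ((nat_lit 100), (nat_lit 65), (nat_lit 64))⟩, (nat_lit 32122), (nat_lit 300), (nat_lit 1948), (nat_lit 4377800), (nat_lit 3605252), [(nat_lit 470112000), (nat_lit 700448000), (nat_lit 829422000)], [], [(nat_lit 3027384956), (nat_lit 2989646273), (nat_lit 2939598051), (nat_lit 2901420557), (nat_lit 2848829402), (nat_lit 2813004245), (nat_lit 2768389378), (nat_lit 2731776253)], (nat_lit 1100000), (nat_lit 1271251), (nat_lit 1271251), (nat_lit 1271251), (nat_lit 1271251), (nat_lit 1271251), [(nat_lit 1695001), (nat_lit 1271251), (nat_lit 1271251)], [(nat_lit 28), (nat_lit 65), (nat_lit 589), (nat_lit 225), (nat_lit 13)]⟩⟩)))))))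
noncomputable def c14_29 : Tr Lf :=
 (.leaf ⟨(nat_lit 889), (nat_lit 0), (nat_lit 0), (nat_lit 111), (nat_lit 0), (nat_lit 3013), (nat_lit 893), (nat_lit 2192), (nat_lit 0), (nat_lit 0), (nat_lit 227050), [((nat_lit 400), [((nat_lit 28), (nat_lit 0), (nat_lit 857)), ((nat_lit 28), (nat_lit 1), (nat_lit 32))])], ⟨(nat_lit 9), false, true, true, (nat_lit 339), (nat_lit 0), (nat_lit 2237), [(nat_lit 1819154), (nat_lit 1799995), (nat_lit 1864705), (nat_lit 1849998), (nat_lit 1847661), (nat_lit 1824994), (nat_lit 1893212), (nat_lit 1874997)]⟩, ⟨(nat_lit 4), true, false, true, (nat_lit 174), (nat_lit 0), (nat_lit 2237), [(nat_lit 1351885), (nat_lit 1349998), (nat_lit 1397434), (nat_lit 1399999), (nat_lit 1480164), (nat_lit 1462492), (nat_lit 1525715), (nat_lit 1512494)]⟩, (nat_lit 5230304), (nat_lit 33787676), (nat_lit 24800335), (nat_lit 8411989), (nat_lit 0), (nat_lit 0), [⟨(nat_lit 1), (nat_lit 77), (nat_lit 36), (nat_lit 100), (nat_lit 320027223)⟩],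 [], [], [⟨(nat_lit 0), (nat_lit 100), (nat_lit 53), (nat_lit 86), (nat_lit 109341078)⟩],
 ⟨⟨[(nat_lit 40), (nat_lit 60)], [(nat_lit 0), (nat_lit 1539)], [((nat_lit 0), (nat_lit 0), (nat_lit 0)), ((nat_lit 1000), (nat_lit 478), (nat_lit 704))], ((nat_lit 48), (nat_lit 100), (nat_lit 69))⟩, (nat_lit 0), (nat_lit 81), (nat_lit 81), (nat_lit 0), (nat_lit 0), [(nat_lit 1583886802), (nat_lit 1271117600)], [(nat_lit 0), (nat_lit 0)], [(nat_lit 28662858165), (nat_lit 29607692174), (nat_lit 29561458655), (nat_lit 30460489374), (nat_lit 30220132133), (nat_lit 31045908602), (nat_lit 31007338741), (nat_lit 31794545350)], (nat_lit 0), (nat_lit 0), (nat_lit 0), (nat_lit 0), (nat_lit 0), (nat_lit 0), [], [(nat_lit 1), (nat_lit 38), (nat_lit 203), (nat_lit 0), (nat_lit 8)]⟩,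
 ⟨⟨[(nat_lit 60), (nat_lit 100), (nat_lit 140)], [(nat_lit 0), (nat_lit 0), (nat_lit 2047)], [((nat_lit 0), (nat_lit 0), (nat_lit 0)), ((nat_lit 0), (nat_lit 0), (nat_lit 0)), ((nat_lit 1000), (nat_lit 993), (nat_lit 781))], ((nat_lit 95), (nat_lit 100), (nat_lit 65))⟩, (nat_lit 186066), (nat_lit 880), (nat_lit 880), (nat_lit 0), (nat_lit 1666914), [(nat_lit 364302000), (nat_lit 693750000), (nat_lit 1092462000)], [], [(nat_lit 4040610649), (nat_lit 4058936699), (nat_lit 4076381221), (nat_lit 4099005992), (nat_lit 3951155668), (nat_lit 4101646013), (nat_lit 4097985539), (nat_lit 4232931481)], (nat_lit 1271251), (nat_lit 1271251), (nat_lit 1271251), (nat_lit 1271251), (nat_lit 292188), (nat_lit 2626875), [(nat_lit 780000), (nat_lit 1435001), (nat_lit 1271251)], [(nat_lit 11), (nat_lit 55), (nat_lit 353), (nat_lit 100), (nat_lit 9)]⟩,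
 ⟨⟨[(nat_lit 140), (nat_lit 180), (nat_lit 200)], [(nat_lit 0), (nat_lit 0), (nat_lit 2835)], [((nat_lit 0), (nat_lit 0), (nat_lit 0)), ((nat_lit 0), (nat_lit 0), (nat_lit 0)), ((nat_lit 363), (nat_lit 1000), (nat_lit 798))], ((nat_lit 0), (nat_lit 0), (nat_lit 0))⟩, (nat_lit 30540), (nat_lit 300), (nat_lit 335), (nat_lit 8669100), (nat_lit 0), [(nat_lit 1092462000), (nat_lit 1560438000), (nat_lit 1820400000)], [], [(nat_lit 5723674465), (nat_lit 5452768749), (nat_lit 5693465147), (nat_lit 5394193315), (nat_lit 5393703100), (nat_lit 5079083258), (nat_lit 5227378278), (nat_lit 4890675348)], (nat_lit 0), (nat_lit 0), (nat_lit 0), (nat_lit 0), (nat_lit 0), (nat_lit 0), [], [(nat_lit 32), (nat_lit 67), (nat_lit 428), (nat_lit 200), (nat_lit 9)]⟩⟩)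
noncomputable def c14_30 : Tr Lf :=
 (.trX (nat_lit 3) (nat_lit 0) (nat_lit 1) (nat_lit 50) (nat_lit 65) (nat_lit 100) (nat_lit 370) (.spl (nat_lit 1) (nat_lit 290) (.emL (nat_lit 3) (nat_lit 0) (nat_lit 1) (nat_lit 49) (nat_lit 68) (nat_lit 100)) (.spl (nat_lit 4) (nat_lit 200) (.trX (nat_lit 5) (nat_lit 3) (nat_lit 4) (nat_lit 60) (nat_lit 80) (nat_lit 100) (nat_lit 320) (.leaf ⟨(nat_lit 628), (nat_lit 372), (nat_lit 0), (nat_lit 0), (nat_lit 0), (nat_lit 3129), (nat_lit 2369), (nat_lit 0), (nat_lit 0), (nat_lit 0), (nat_lit 207700), [((nat_lit 400), [((nat_lit 28), (nat_lit 0), (nat_lit 290)), ((nat_lit 28), (nat_lit 1), (nat_lit 338))])], ⟨(nat_lit 9), false, true, true, (nat_lit 334), (nat_lit 0), (nat_lit 2237), [(nat_lit 1830542), (nat_lit 1812496), (nat_lit 1841930), (nat_lit 1824997), (nat_lit 1844795), (nat_lit 1824995), (nat_lit 1856183), (nat_lit 1837496)]⟩, ⟨(nat_lit 4), false, false, true, (nat_lit 161), (nat_lit 0), (nat_lit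 2237), [(nat_lit 1351885), (nat_lit 1349998), (nat_lit 1397434), (nat_lit 1399999), (nat_lit 1408898), (nat_lit 1399996), (nat_lit 1454449), (nat_lit 1449998)]⟩, (nat_lit 5120215), (nat_lit 34700952), (nat_lit 24716379), (nat_lit 7582669), (nat_lit 4), (nat_lit 0), [⟨(nat_lit 1), (nat_lit 65), (nat_lit 50), (nat_lit 100), (nat_lit 986383330)⟩], [], [], [],
 ⟨⟨[(nat_lit 40), (nat_lit 60)], [(nat_lit 0), (nat_lit 1539)], [((nat_lit 0), (nat_lit 0), (nat_lit 0)), ((nat_lit 1000), (nat_lit 478), (nat_lit 704))], ((nat_lit 48), (nat_lit 100), (nat_lit 69))⟩, (nat_lit 0), (nat_lit 78), (nat_lit 78), (nat_lit 0), (nat_lit 0), [(nat_lit 1593761602), (nat_lit 1634026400)], [(nat_lit 0), (nat_lit 0)], [(nat_lit 28659074491), (nat_lit 29702277760), (nat_lit 29146613284), (nat_lit 30173359851), (nat_lit 29284429797), (nat_lit 30278371689), (nat_lit 29755387772), (nat_lit 30723316692)], (nat_lit 0), (nat_lit 0), (nat_lit 0), (nat_lit 0), (nat_lit 0), (nat_lit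 0), [], [(nat_lit 1), (nat_lit 38), (nat_lit 203), (nat_lit 0), (nat_lit 8)]⟩,
 ⟨⟨[(nat_lit 60), (nat_lit 100), (nat_lit 140)], [(nat_lit 0), (nat_lit 302), (nat_lit 2304)], [((nat_lit 0), (nat_lit 0), (nat_lit 0)), ((nat_lit 1000), (nat_lit 953), (nat_lit 118)), ((nat_lit 1000), (nat_lit 952), (nat_lit 781))], ((nat_lit 91), (nat_lit 100), (nat_lit 64))⟩, (nat_lit 2115857), (nat_lit 737), (nat_lit 737), (nat_lit 0), (nat_lit 1344116), [(nat_lit 1220904000), (nat_lit 2325000000), (nat_lit 3661224000)], [], [(nat_lit 12468287493), (nat_lit 12510751343), (nat_lit 12549384277), (nat_lit 12589976618), (nat_lit 11945751572), (nat_lit 11963078324), (nat_lit 12059659153), (nat_lit 12194339928)], (nat_lit 1271251), (nat_lit 1271251), (nat_lit 1271251), (nat_lit 1271251), (nat_lit 292188), (nat_lit 2325625), [(nat_lit 780000), (nat_lit 1435001), (nat_lit 1271251)], [(nat_lit 11), (nat_lit 55), (nat_lit 317), (nat_lit 100), (nat_lit 8)]⟩,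
 Rw.none⟩)) (.trZ (nat_lit 3) (nat_lit 4) (nat_lit 5) (nat_lit 100) (nat_lit 60) (nat_lit 80) (nat_lit 80) (.spl (nat_lit 5) (nat_lit 240) (.leaf ⟨(nat_lit 22), (nat_lit 978), (nat_lit 0), (nat_lit 0), (nat_lit 0), (nat_lit 3397), (nat_lit 6264), (nat_lit 0), (nat_lit 0), (nat_lit 0), (nat_lit 88000), [((nat_lit 400), [((nat_lit 43), (nat_lit 5), (nat_lit 22))])], ⟨(nat_lit 9), false, true, true, (nat_lit 334), (nat_lit 0), (nat_lit 2237), [(nat_lit 1830542), (nat_lit 1812496), (nat_lit 1841930), (nat_lit 1824997), (nat_lit 1844795), (nat_lit 1824995), (nat_lit 1856183), (nat_lit 1837496)]⟩, ⟨(nat_lit 5), false, false, true, (nat_lit 185), (nat_lit 0), (nat_lit 2237), [(nat_lit 1408898), (nat_lit 1399996), (nat_lit 1454449), (nat_lit 1449998), (nat_lit 1480164), (nat_lit 1462492), (nat_lit 1525715), (nat_lit 1512494)]⟩, (nat_lit 5307801), (nat_lit 33692610), (nat_lit 24095321), (nat_lit 9212069), (nat_lit 5), (nat_lit 0), [⟨(nat_lit 1), (nat_lit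 65), (nat_lit 50), (nat_lit 100), (nat_lit 1250053905)⟩], [⟨(nat_lit 1), (nat_lit 99), (nat_lit 44), (nat_lit 100), (nat_lit 641408796)⟩], [], [],
 ⟨⟨[(nat_lit 40), (nat_lit 60)], [(nat_lit 0), (nat_lit 1539)], [((nat_lit 0), (nat_lit 0), (nat_lit 0)), ((nat_lit 1000), (nat_lit 478), (nat_lit 704))], ((nat_lit 48), (nat_lit 100), (nat_lit 69))⟩, (nat_lit 572986), (nat_lit 74), (nat_lit 74), (nat_lit 0), (nat_lit 0), [(nat_lit 1823484126), (nat_lit 2838752800)], [(nat_lit 0), (nat_lit 0)], [(nat_lit 29655621946), (nat_lit 30648383477), (nat_lit 30107632265), (nat_lit 31106374787), (nat_lit 30507238330), (nat_lit 31451191826), (nat_lit 30954522956), (nat_lit 31873784330)], (nat_lit 0), (nat_lit 0), (nat_lit 0), (nat_lit 0), (nat_lit 0), (nat_lit 0), [], [(nat_lit 1), (nat_lit 38), (nat_lit 203), (nat_lit 0), (nat_lit 7)]⟩,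
 ⟨⟨[(nat_lit 60), (nat_lit 100), (nat_lit 140)], [(nat_lit 0), (nat_lit 302), (nat_lit 2304)], [((nat_lit 0), (nat_lit 0), (nat_lit 0)), ((nat_lit 1000), (nat_lit 953), (nat_lit 118)), ((nat_lit 1000), (nat_lit 952), (nat_lit 781))], ((nat_lit 91), (nat_lit 100), (nat_lit 64))⟩, (nat_lit 7076881), (nat_lit 717), (nat_lit 717), (nat_lit 0), (nat_lit 1344116), [(nat_lit 3209796000), (nat_lit 6112500000), (nat_lit 9625476000)], [], [(nat_lit 29061082281), (nat_lit 29190823759), (nat_lit 29297358729), (nat_lit 29421760760), (nat_lit 28212695284), (nat_lit 28303492167), (nat_lit 28596284481), (nat_lit 29053420456)], (nat_lit 1271251), (nat_lit 1271251), (nat_lit 1271251), (nat_lit 1271251), (nat_lit 490000), (nat_lit 1740001), [(nat_lit 780000), (nat_lit 1435001), (nat_lit 1271251)], [(nat_lit 11), (nat_lit 55), (nat_lit 293), (nat_lit 60), (nat_lit 7)]⟩,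
 Rw.none⟩) (.spl (nat_lit 5) (nat_lit 320) (.leaf ⟨(nat_lit 144), (nat_lit 856), (nat_lit 0), (nat_lit 0), (nat_lit 0), (nat_lit 3297), (nat_lit 5242), (nat_lit 0), (nat_lit 0), (nat_lit 0), (nat_lit 86400), [((nat_lit 400), [((nat_lit 43), (nat_lit 2), (nat_lit 144))])], ⟨(nat_lit 9), false, true, true, (nat_lit 334), (nat_lit 0), (nat_lit 2237), [(nat_lit 1830542), (nat_lit 1812496), (nat_lit 1841930), (nat_lit 1824997), (nat_lit 1844795), (nat_lit 1824995), (nat_lit 1856183), (nat_lit 1837496)]⟩, ⟨(nat_lit 5), false, false, true, (nat_lit 185), (nat_lit 0), (nat_lit 2237), [(nat_lit 1408898), (nat_lit 1399996), (nat_lit 1454449), (nat_lit 1449998), (nat_lit 1480164), (nat_lit 1462492), (nat_lit 1525715), (nat_lit 1512494)]⟩, (nat_lit 5307801), (nat_lit 33692610), (nat_lit 24095321), (nat_lit 9212069), (nat_lit 6), (nat_lit 0), [⟨(nat_lit 1), (nat_lit 65), (nat_lit 50), (nat_lit 100), (nat_lit 987582181)⟩], [⟨(nat_lit 1), (nat_lit 99), (nat_lit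 44), (nat_lit 100), (nat_lit 569172488)⟩], [], [],
 ⟨⟨[(nat_lit 40), (nat_lit 60)], [(nat_lit 0), (nat_lit 1539)], [((nat_lit 0), (nat_lit 0), (nat_lit 0)), ((nat_lit 1000), (nat_lit 478), (nat_lit 704))], ((nat_lit 48), (nat_lit 100), (nat_lit 69))⟩, (nat_lit 564563), (nat_lit 74), (nat_lit 74), (nat_lit 0), (nat_lit 0), [(nat_lit 1739536004), (nat_lit 2718211200)], [(nat_lit 0), (nat_lit 0)], [(nat_lit 29531326021), (nat_lit 30510319377), (nat_lit 29976197753), (nat_lit 30963442662), (nat_lit 30389096853), (nat_lit 31322457676), (nat_lit 30831516678), (nat_lit 31740890717)], (nat_lit 0), (nat_lit 0), (nat_lit 0), (nat_lit 0), (nat_lit 0), (nat_lit 0), [], [(nat_lit 1), (nat_lit 38), (nat_lit 203), (nat_lit 0), (nat_lit 7)]⟩,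
 ⟨⟨[(nat_lit 60), (nat_lit 100), (nat_lit 140)], [(nat_lit 0), (nat_lit 302), (nat_lit 2304)], [((nat_lit 0), (nat_lit 0), (nat_lit 0)), ((nat_lit 1000), (nat_lit 953), (nat_lit 118)), ((nat_lit 1000), (nat_lit 952), (nat_lit 781))], ((nat_lit 91), (nat_lit 100), (nat_lit 64))⟩, (nat_lit 5707747), (nat_lit 638), (nat_lit 638), (nat_lit 0), (nat_lit 1344116), [(nat_lit 2809392000), (nat_lit 5350000000), (nat_lit 8424752000)], [], [(nat_lit 26764454064), (nat_lit 26841160695), (nat_lit 26922031984), (nat_lit 26995027596), (nat_lit 27265862668), (nat_lit 27323375324), (nat_lit 27541350059), (nat_lit 27847882414)], (nat_lit 1271251), (nat_lit 1271251), (nat_lit 1271251), (nat_lit 1271251), (nat_lit 1271251), (nat_lit 1271251), [(nat_lit 780000), (nat_lit 1435001), (nat_lit 1271251)], [(nat_lit 11), (nat_lit 55), (nat_lit 317), (nat_lit 100), (nat_lit 7)]⟩,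
 Rw.none⟩) (.spl (nat_lit 6) (nat_lit 24) (.spl (nat_lit 0) (nat_lit 390) (.leaf ⟨(nat_lit 556), (nat_lit 444), (nat_lit 0), (nat_lit 0), (nat_lit 0), (nat_lit 3101), (nat_lit 2544), (nat_lit 0), (nat_lit 0), (nat_lit 0), (nat_lit 222400), [((nat_lit 390), [((nat_lit 27), (nat_lit 1), (nat_lit 556))])], ⟨(nat_lit 9), false, true, true, (nat_lit 336), (nat_lit 1581), (nat_lit 2237), [(nat_lit 1830545), (nat_lit 1823459), (nat_lit 1841932), (nat_lit 1835117), (nat_lit 1844799), (nat_lit 1837118), (nat_lit 1856186), (nat_lit 1848776)]⟩, ⟨(nat_lit 5), false, false, true, (nat_lit 186), (nat_lit 1581), (nat_lit 2237), [(nat_lit 1408901), (nat_lit 1406738), (nat_lit 1454450), (nat_lit 1453368), (nat_lit 1480171), (nat_lit 1475033), (nat_lit 1525719), (nat_lit 1521663)]⟩, (nat_lit 5320407), (nat_lit 33473026), (nat_lit 24238046), (nat_lit 9288928), (nat_lit 8), (nat_lit 0), [⟨(nat_lit 1), (nat_lit 65), (nat_lit 50), (nat_lit 100), (nat_lit 337885097)⟩],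 [⟨(nat_lit 1), (nat_lit 99), (nat_lit 44), (nat_lit 100), (nat_lit 398169640)⟩], [⟨(nat_lit 1), (nat_lit 63), (nat_lit 91), (nat_lit 100), (nat_lit 182816847)⟩], [],
 ⟨⟨[(nat_lit 40), (nat_lit 60)], [(nat_lit 0), (nat_lit 1539)], [((nat_lit 0), (nat_lit 0), (nat_lit 0)), ((nat_lit 1000), (nat_lit 478), (nat_lit 704))], ((nat_lit 54), (nat_lit 100), (nat_lit 59))⟩, (nat_lit 0), (nat_lit 71), (nat_lit 71), (nat_lit 0), (nat_lit 0), [(nat_lit 1574043201), (nat_lit 1637574400)], [(nat_lit 0), (nat_lit 0)], [(nat_lit 29285831243), (nat_lit 29744434667), (nat_lit 29718586108), (nat_lit 30200940902), (nat_lit 30156999253), (nat_lit 30613568998), (nat_lit 30590424373), (nat_lit 31035421805)], (nat_lit 0), (nat_lit 0), (nat_lit 0), (nat_lit 0), (nat_lit 0), (nat_lit 0), [], [(nat_lit 1), (nat_lit 38), (nat_lit 203), (nat_lit 0), (nat_lit 7)]⟩,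
 ⟨⟨[(nat_lit 60), (nat_lit 100), (nat_lit 120)], [(nat_lit 0), (nat_lit 302), (nat_lit 1376)], [((nat_lit 0), (nat_lit 0), (nat_lit 0)), ((nat_lit 1000), (nat_lit 953), (nat_lit 118)), ((nat_lit 1000), (nat_lit 911), (nat_lit 628))], ((nat_lit 89), (nat_lit 100), (nat_lit 48))⟩, (nat_lit 2990450), (nat_lit 527), (nat_lit 527), (nat_lit 0), (nat_lit 1212575), [(nat_lit 1457208000), (nat_lit 2775000000), (nat_lit 3537792000)], [], [(nat_lit 14521741468), (nat_lit 14576797648), (nat_lit 14621411581), (nat_lit 14674295590), (nat_lit 14882071171), (nat_lit 14940367932), (nat_lit 15041011852), (nat_lit 15174448505)], (nat_lit 1271251), (nat_lit 1271251), (nat_lit 1271251), (nat_lit 1271251), (nat_lit 1271251), (nat_lit 1271251), [(nat_lit 780000), (nat_lit 1435001), (nat_lit 1271251)], [(nat_lit 10), (nat_lit 54), (nat_lit 261), (nat_lit 0), (nat_lit 6)]⟩,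
 Rw.none⟩) (.emL (nat_lit 3) (nat_lit 0) (nat_lit 1) (nat_lit 36) (nat_lit 77) (nat_lit 100))) (.leaf ⟨(nat_lit 144), (nat_lit 856), (nat_lit 0), (nat_lit 0), (nat_lit 0), (nat_lit 3297), (nat_lit 5186), (nat_lit 0), (nat_lit 0), (nat_lit 0), (nat_lit 86400), [((nat_lit 400), [((nat_lit 43), (nat_lit 2), (nat_lit 144))])], ⟨(nat_lit 9), false, true, true, (nat_lit 334), (nat_lit 0), (nat_lit 2237), [(nat_lit 1830542), (nat_lit 1812496), (nat_lit 1841930), (nat_lit 1824997), (nat_lit 1844795), (nat_lit 1824995), (nat_lit 1856183), (nat_lit 1837496)]⟩, ⟨(nat_lit 5), false, false, true, (nat_lit 185), (nat_lit 0), (nat_lit 2237), [(nat_lit 1408898), (nat_lit 1399996), (nat_lit 1454449), (nat_lit 1449998), (nat_lit 1480164), (nat_lit 1462492), (nat_lit 1525715), (nat_lit 1512494)]⟩, (nat_lit 5307801), (nat_lit 33692610), (nat_lit 24095321), (nat_lit 9212069), (nat_lit 8), (nat_lit 0), [⟨(nat_lit 1), (nat_lit 65), (nat_lit 50), (nat_lit 100), (nat_lit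 982893599)⟩], [⟨(nat_lit 1), (nat_lit 99), (nat_lit 44), (nat_lit 100), (nat_lit 528992833)⟩], [⟨(nat_lit 1), (nat_lit 63), (nat_lit 91), (nat_lit 100), (nat_lit 348871553)⟩], [],
 ⟨⟨[(nat_lit 40), (nat_lit 60)], [(nat_lit 0), (nat_lit 1539)], [((nat_lit 0), (nat_lit 0), (nat_lit 0)), ((nat_lit 1000), (nat_lit 478), (nat_lit 704))], ((nat_lit 48), (nat_lit 100), (nat_lit 69))⟩, (nat_lit 564563), (nat_lit 74), (nat_lit 74), (nat_lit 0), (nat_lit 0), [(nat_lit 1739536052), (nat_lit 2718211200)], [(nat_lit 0), (nat_lit 0)], [(nat_lit 29531326069), (nat_lit 30510319377), (nat_lit 29976197753), (nat_lit 30963442662), (nat_lit 30389096901), (nat_lit 31322457676), (nat_lit 30831516678), (nat_lit 31740890717)], (nat_lit 0), (nat_lit 0), (nat_lit 0), (nat_lit 0), (nat_lit 0), (nat_lit 0), [], [(nat_lit 1), (nat_lit 38), (nat_lit 203), (nat_lit 0), (nat_lit 7)]⟩,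
 ⟨⟨[(nat_lit 60), (nat_lit 100), (nat_lit 140)], [(nat_lit 0), (nat_lit 302), (nat_lit 2304)], [((nat_lit 0), (nat_lit 0), (nat_lit 0)), ((nat_lit 1000), (nat_lit 953), (nat_lit 118)), ((nat_lit 1000), (nat_lit 952), (nat_lit 781))], ((nat_lit 91), (nat_lit 100), (nat_lit 64))⟩, (nat_lit 4294501), (nat_lit 479), (nat_lit 479), (nat_lit 0), (nat_lit 999596), [(nat_lit 2809392000), (nat_lit 5350000000), (nat_lit 8424752000)], [], [(nat_lit 28357767577), (nat_lit 28454770994), (nat_lit 28548787357), (nat_lit 28641337642), (nat_lit 29042791239), (nat_lit 29123351429), (nat_lit 29326409424), (nat_lit 29586205907)], (nat_lit 1271251), (nat_lit 1271251), (nat_lit 1271251), (nat_lit 1271251), (nat_lit 1271251), (nat_lit 1271251), [(nat_lit 780000), (nat_lit 1435001), (nat_lit 1271251)], [(nat_lit 11), (nat_lit 55), (nat_lit 249), (nat_lit 0), (nat_lit 5)]⟩,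
 Rw.none⟩))))))))
noncomputable def c14_31 : Tr Lf :=
 (.trX (nat_lit 5) (nat_lit 1) (nat_lit 2) (nat_lit 88) (nat_lit 68) (nat_lit 100) (nat_lit 350) (.spl (nat_lit 4) (nat_lit 200) (.trX (nat_lit 5) (nat_lit 3) (nat_lit 4) (nat_lit 60) (nat_lit 80) (nat_lit 100) (nat_lit 320) (.leaf ⟨(nat_lit 567), (nat_lit 433), (nat_lit 0), (nat_lit 0), (nat_lit 0), (nat_lit 3048), (nat_lit 2559), (nat_lit 0), (nat_lit 0), (nat_lit 0), (nat_lit 229600), [((nat_lit 400), [((nat_lit 28), (nat_lit 1), (nat_lit 553)), ((nat_lit 43), (nat_lit 2), (nat_lit 14))])], ⟨(nat_lit 9), false, true, true, (nat_lit 344), (nat_lit 0), (nat_lit 2237), [(nat_lit 1841930), (nat_lit 1824997), (nat_lit 1864705), (nat_lit 1849998), (nat_lit 1870437), (nat_lit 1849996), (nat_lit 1893212), (nat_lit 1874997)]⟩, ⟨(nat_lit 4), false, false, true, (nat_lit 161), (nat_lit 0), (nat_lit 2237), [(nat_lit 1351885), (nat_lit 1349998), (nat_lit 1397434), (nat_lit 1399999), (nat_lit 1408898),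 (nat_lit 1399996), (nat_lit 1454449), (nat_lit 1449998)]⟩, (nat_lit 5124746), (nat_lit 33985212), (nat_lit 25551460), (nat_lit 7463328), (nat_lit 4), (nat_lit 0), [⟨(nat_lit 1), (nat_lit 74), (nat_lit 37), (nat_lit 100), (nat_lit 642538860)⟩], [⟨(nat_lit 1), (nat_lit 100), (nat_lit 31), (nat_lit 95), (nat_lit 47163156)⟩], [], [],
 ⟨⟨[(nat_lit 40), (nat_lit 60)], [(nat_lit 0), (nat_lit 1539)], [((nat_lit 0), (nat_lit 0), (nat_lit 0)), ((nat_lit 1000), (nat_lit 478), (nat_lit 704))], ((nat_lit 48), (nat_lit 100), (nat_lit 69))⟩, (nat_lit 0), (nat_lit 81), (nat_lit 81), (nat_lit 0), (nat_lit 0), [(nat_lit 1569567663), (nat_lit 1591855600)], [(nat_lit 0), (nat_lit 0)], [(nat_lit 28641403631), (nat_lit 29582605120), (nat_lit 29527251658), (nat_lit 30515992304), (nat_lit 29271269229), (nat_lit 30167246622), (nat_lit 30124078017), (nat_lit 31048543572)], (nat_lit 0), (nat_lit 0), (nat_lit 0), (nat_lit 0), (nat_lit 0), (nat_lit 0), [], [(nat_lit 1),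 (nat_lit 38), (nat_lit 203), (nat_lit 0), (nat_lit 8)]⟩,
 ⟨⟨[(nat_lit 60), (nat_lit 100), (nat_lit 120)], [(nat_lit 0), (nat_lit 609), (nat_lit 1609)], [((nat_lit 0), (nat_lit 0), (nat_lit 0)), ((nat_lit 1000), (nat_lit 905), (nat_lit 238)), ((nat_lit 1000), (nat_lit 882), (nat_lit 668))], ((nat_lit 88), (nat_lit 100), (nat_lit 63))⟩, (nat_lit 1867474), (nat_lit 661), (nat_lit 661), (nat_lit 0), (nat_lit 1308604), [(nat_lit 1421106000), (nat_lit 2706250000), (nat_lit 3450144000)], [], [(nat_lit 13917989135), (nat_lit 14086548888), (nat_lit 14181576595), (nat_lit 14338896070), (nat_lit 13957809957), (nat_lit 14052600554), (nat_lit 14253172910), (nat_lit 14546990521)], (nat_lit 1271251), (nat_lit 1271251), (nat_lit 1271251), (nat_lit 1271251), (nat_lit 292188), (nat_lit 2325625), [(nat_lit 780000), (nat_lit 1435001), (nat_lit 1271251)], [(nat_lit 10), (nat_lit 54), (nat_lit 317), (nat_lit 100), (nat_lit 9)]⟩,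
 Rw.none⟩)) (.trZ (nat_lit 3) (nat_lit 4) (nat_lit 5) (nat_lit 100) (nat_lit 60) (nat_lit 80) (nat_lit 80) (.spl (nat_lit 6) (nat_lit 24) (.spl (nat_lit 6) (nat_lit 12) (.spl (nat_lit 5) (nat_lit 200) (.leaf ⟨(nat_lit 22), (nat_lit 978), (nat_lit 0), (nat_lit 0), (nat_lit 0), (nat_lit 3345), (nat_lit 5983), (nat_lit 0), (nat_lit 0), (nat_lit 0), (nat_lit 88000), [((nat_lit 400), [((nat_lit 43), (nat_lit 5), (nat_lit 22))])], ⟨(nat_lit 9), false, true, true, (nat_lit 344), (nat_lit 0), (nat_lit 2237), [(nat_lit 1841930), (nat_lit 1824997), (nat_lit 1864705), (nat_lit 1849998), (nat_lit 1870437), (nat_lit 1849996), (nat_lit 1893212), (nat_lit 1874997)]⟩, ⟨(nat_lit 5), false, false, true, (nat_lit 185), (nat_lit 0), (nat_lit 2237), [(nat_lit 1408898), (nat_lit 1399996), (nat_lit 1454449), (nat_lit 1449998), (nat_lit 1480164), (nat_lit 1462492), (nat_lit 1525715), (nat_lit 1512494)]⟩, (nat_lit 5311479), (nat_lit 33021536), (nat_lit 24910382), (nat_lit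 9068082), (nat_lit 5), (nat_lit 0), [⟨(nat_lit 1), (nat_lit 74), (nat_lit 37), (nat_lit 100), (nat_lit 784513535)⟩], [⟨(nat_lit 1), (nat_lit 99), (nat_lit 44), (nat_lit 100), (nat_lit 669851465)⟩], [], [],
 ⟨⟨[(nat_lit 40)], [(nat_lit 0)], [((nat_lit 0), (nat_lit 0), (nat_lit 0))], ((nat_lit 61), (nat_lit 100), (nat_lit 48))⟩, (nat_lit 213193), (nat_lit 69), (nat_lit 69), (nat_lit 0), (nat_lit 0), [(nat_lit 1823484000)], [(nat_lit 0)], [(nat_lit 29648674550), (nat_lit 30576590145), (nat_lit 30530118990), (nat_lit 31487510018), (nat_lit 30532910657), (nat_lit 31388912697), (nat_lit 31347403889), (nat_lit 32225109234)], (nat_lit 0), (nat_lit 0), (nat_lit 0), (nat_lit 0), (nat_lit 0), (nat_lit 0), [], [(nat_lit 0), (nat_lit 37), (nat_lit 203), (nat_lit 0), (nat_lit 10)]⟩,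
 ⟨⟨[(nat_lit 60), (nat_lit 80), (nat_lit 100)], [(nat_lit 0), (nat_lit 304), (nat_lit 825)], [((nat_lit 0), (nat_lit 0), (nat_lit 0)), ((nat_lit 1000), (nat_lit 905), (nat_lit 238)), ((nat_lit 1000), (nat_lit 871), (nat_lit 407))], ((nat_lit 88), (nat_lit 100), (nat_lit 35))⟩, (nat_lit 6876015), (nat_lit 576), (nat_lit 576), (nat_lit 0), (nat_lit 1299653), [(nat_lit 3209796000), (nat_lit 4584864000), (nat_lit 6112500000)], [], [(nat_lit 28013569971), (nat_lit 28627068836), (nat_lit 29286104757), (nat_lit 30415203232), (nat_lit 27911854608), (nat_lit 28346460303), (nat_lit 28903138022), (nat_lit 29842167504)], (nat_lit 1271251), (nat_lit 1271251), (nat_lit 1271251), (nat_lit 1271251), (nat_lit 490000), (nat_lit 1427501), [(nat_lit 780000), (nat_lit 1100000), (nat_lit 1442501)], [(nat_lit 9), (nat_lit 50), (nat_lit 260), (nat_lit 50), (nat_lit 8)]⟩,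
 Rw.none⟩) (.spl (nat_lit 0) (nat_lit 390) (.leaf ⟨(nat_lit 659), (nat_lit 341), (nat_lit 0), (nat_lit 0), (nat_lit 0), (nat_lit 3009), (nat_lit 1870), (nat_lit 0), (nat_lit 0), (nat_lit 0), (nat_lit 286000), [((nat_lit 390), [((nat_lit 27), (nat_lit 1), (nat_lit 547)), ((nat_lit 43), (nat_lit 2), (nat_lit 112))])], ⟨(nat_lit 9), false, true, true, (nat_lit 346), (nat_lit 1581), (nat_lit 2237), [(nat_lit 1841932), (nat_lit 1835117), (nat_lit 1864706), (nat_lit 1858432), (nat_lit 1870440), (nat_lit 1862435), (nat_lit 1893214), (nat_lit 1885750)]⟩, ⟨(nat_lit 5), false, false, true, (nat_lit 186), (nat_lit 1581), (nat_lit 2237), [(nat_lit 1408901), (nat_lit 1406738), (nat_lit 1454450), (nat_lit 1453368), (nat_lit 1480171), (nat_lit 1475033), (nat_lit 1525719), (nat_lit 1521663)]⟩, (nat_lit 5323183), (nat_lit 32816393), (nat_lit 25038318), (nat_lit 9145289), (nat_lit 5), (nat_lit 0), [⟨(nat_lit 1), (nat_lit 57), (nat_lit 54), (nat_lit 100), (nat_lit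 212292950)⟩], [⟨(nat_lit 1), (nat_lit 99), (nat_lit 44), (nat_lit 100), (nat_lit 380894148)⟩], [⟨(nat_lit 1), (nat_lit 68), (nat_lit 88), (nat_lit 100), (nat_lit 122007029)⟩], [],
 ⟨⟨[(nat_lit 40)], [(nat_lit 0)], [((nat_lit 0), (nat_lit 0), (nat_lit 0))], ((nat_lit 61), (nat_lit 100), (nat_lit 48))⟩, (nat_lit 0), (nat_lit 66), (nat_lit 66), (nat_lit 0), (nat_lit 0), [(nat_lit 1532196400)], [(nat_lit 0)], [(nat_lit 29213455510), (nat_lit 29659470339), (nat_lit 30062702078), (nat_lit 30526489795), (nat_lit 30118756339), (nat_lit 30531462492), (nat_lit 30906376032), (nat_lit 31335493467)], (nat_lit 0), (nat_lit 0), (nat_lit 0), (nat_lit 0), (nat_lit 0), (nat_lit 0), [], [(nat_lit 0), (nat_lit 37), (nat_lit 203), (nat_lit 0), (nat_lit 10)]⟩,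
 ⟨⟨[(nat_lit 60), (nat_lit 80), (nat_lit 100)], [(nat_lit 0), (nat_lit 304), (nat_lit 825)], [((nat_lit 0), (nat_lit 0), (nat_lit 0)), ((nat_lit 1000), (nat_lit 905), (nat_lit 238)), ((nat_lit 1000), (nat_lit 871), (nat_lit 407))], ((nat_lit 88), (nat_lit 100), (nat_lit 35))⟩, (nat_lit 1516890), (nat_lit 489), (nat_lit 489), (nat_lit 0), (nat_lit 1184834), [(nat_lit 1119162000), (nat_lit 1598608000), (nat_lit 2131250000)], [], [(nat_lit 10523731576), (nat_lit 10667118950), (nat_lit 10744323185), (nat_lit 10891486628), (nat_lit 11388738551), (nat_lit 11494874037), (nat_lit 11566332685), (nat_lit 11769207750)], (nat_lit 1271251), (nat_lit 1271251), (nat_lit 1271251), (nat_lit 1271251), (nat_lit 1271251), (nat_lit 1271251), [(nat_lit 780000), (nat_lit 1100000), (nat_lit 1442501)], [(nat_lit 9), (nat_lit 50), (nat_lit 254), (nat_lit 0), (nat_lit 7)]⟩,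
 Rw.none⟩) (.trX (nat_lit 3) (nat_lit 0) (nat_lit 1) (nat_lit 39) (nat_lit 72) (nat_lit 100) (nat_lit 370) (.trX (nat_lit 4) (nat_lit 0) (nat_lit 2) (nat_lit 31) (nat_lit 100) (nat_lit 99) (nat_lit 230) (.leaf ⟨(nat_lit 709), (nat_lit 291), (nat_lit 0), (nat_lit 0), (nat_lit 0), (nat_lit 2990), (nat_lit 1640), (nat_lit 0), (nat_lit 0), (nat_lit 0), (nat_lit 283600), [((nat_lit 400), [((nat_lit 27), (nat_lit 1), (nat_lit 709))])], ⟨(nat_lit 9), false, true, true, (nat_lit 339), (nat_lit 0), (nat_lit 1582), [(nat_lit 1835115), (nat_lit 1824997), (nat_lit 1858431), (nat_lit 1849998), (nat_lit 1848773), (nat_lit 1837496), (nat_lit 1872089), (nat_lit 1862497)]⟩, ⟨(nat_lit 5), false, false, true, (nat_lit 179), (nat_lit 0), (nat_lit 1582), [(nat_lit 1406735), (nat_lit 1399996), (nat_lit 1453367), (nat_lit 1449998), (nat_lit 1447710), (nat_lit 1437494), (nat_lit 1494343), (nat_lit 1487497)]⟩, (nat_lit 5267410), (nat_lit 33537464), (nat_lit 24733301),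 (nat_lit 8729235), (nat_lit 5), (nat_lit 0), [⟨(nat_lit 1), (nat_lit 72), (nat_lit 39), (nat_lit 100), (nat_lit 88397225)⟩], [⟨(nat_lit 1), (nat_lit 100), (nat_lit 31), (nat_lit 99), (nat_lit 722186161)⟩], [], [⟨(nat_lit 1), (nat_lit 78), (nat_lit 57), (nat_lit 100), (nat_lit 156925886)⟩],
 ⟨⟨[(nat_lit 40)], [(nat_lit 0)], [((nat_lit 0), (nat_lit 0), (nat_lit 0))], ((nat_lit 51), (nat_lit 100), (nat_lit 55))⟩, (nat_lit 0), (nat_lit 66), (nat_lit 66), (nat_lit 0), (nat_lit 0), [(nat_lit 1512414800)], [(nat_lit 0)], [(nat_lit 29627235515), (nat_lit 30086462590), (nat_lit 30048667419), (nat_lit 30524641038), (nat_lit 30098054090), (nat_lit 30528624333), (nat_lit 30493482072), (nat_lit 30947773209)], (nat_lit 0), (nat_lit 0), (nat_lit 0), (nat_lit 0), (nat_lit 0), (nat_lit 0), [], [(nat_lit 0), (nat_lit 37), (nat_lit 203), (nat_lit 0), (nat_lit 10)]⟩,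
 ⟨⟨[(nat_lit 60), (nat_lit 80), (nat_lit 100)], [(nat_lit 0), (nat_lit 304), (nat_lit 825)], [((nat_lit 0), (nat_lit 0), (nat_lit 0)), ((nat_lit 1000), (nat_lit 905), (nat_lit 238)), ((nat_lit 1000), (nat_lit 871), (nat_lit 407))], ((nat_lit 88), (nat_lit 100), (nat_lit 35))⟩, (nat_lit 1241786), (nat_lit 536), (nat_lit 536), (nat_lit 0), (nat_lit 1299492), [(nat_lit 955062000), (nat_lit 1364208000), (nat_lit 1818750000)], [], [(nat_lit 9125482769), (nat_lit 9229698587), (nat_lit 9206890954), (nat_lit 9312145546), (nat_lit 9760627828), (nat_lit 9839162087), (nat_lit 9827756184), (nat_lit 9947432857)], (nat_lit 1271251), (nat_lit 1271251), (nat_lit 1271251), (nat_lit 1271251), (nat_lit 1271251), (nat_lit 1271251), [(nat_lit 780000), (nat_lit 1100000), (nat_lit 1442501)], [(nat_lit 9), (nat_lit 50), (nat_lit 264), (nat_lit 0), (nat_lit 8)]⟩,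
 Rw.none⟩))))) (.leaf ⟨(nat_lit 22), (nat_lit 978), (nat_lit 0), (nat_lit 0), (nat_lit 0), (nat_lit 3397), (nat_lit 5452), (nat_lit 0), (nat_lit 0), (nat_lit 0), (nat_lit 88000), [((nat_lit 400), [((nat_lit 43), (nat_lit 5), (nat_lit 22))])], ⟨(nat_lit 9), false, true, true, (nat_lit 344), (nat_lit 0), (nat_lit 2237), [(nat_lit 1841930), (nat_lit 1824997), (nat_lit 1864705), (nat_lit 1849998), (nat_lit 1870437), (nat_lit 1849996), (nat_lit 1893212), (nat_lit 1874997)]⟩, ⟨(nat_lit 5), false, false, true, (nat_lit 185), (nat_lit 0), (nat_lit 2237), [(nat_lit 1408898), (nat_lit 1399996), (nat_lit 1454449), (nat_lit 1449998), (nat_lit 1480164), (nat_lit 1462492), (nat_lit 1525715), (nat_lit 1512494)]⟩, (nat_lit 5311479), (nat_lit 33021536), (nat_lit 24910382), (nat_lit 9068082), (nat_lit 5), (nat_lit 0), [⟨(nat_lit 1), (nat_lit 74), (nat_lit 37), (nat_lit 100), (nat_lit 705740857)⟩], [⟨(nat_lit 1), (nat_lit 99), (nat_lit 44), (nat_lit 100), (nat_lit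 621903559)⟩], [⟨(nat_lit 1), (nat_lit 68), (nat_lit 88), (nat_lit 100), (nat_lit 265814306)⟩], [],
 ⟨⟨[(nat_lit 40), (nat_lit 60)], [(nat_lit 0), (nat_lit 1539)], [((nat_lit 0), (nat_lit 0), (nat_lit 0)), ((nat_lit 1000), (nat_lit 478), (nat_lit 704))], ((nat_lit 54), (nat_lit 100), (nat_lit 59))⟩, (nat_lit 572987), (nat_lit 76), (nat_lit 76), (nat_lit 0), (nat_lit 0), [(nat_lit 1823484032), (nat_lit 2838752800)], [(nat_lit 0), (nat_lit 0)], [(nat_lit 29655620313), (nat_lit 30648383477), (nat_lit 30593210209), (nat_lit 31564366096), (nat_lit 30507238330), (nat_lit 31451191826), (nat_lit 31401807582), (nat_lit 32296376833)], (nat_lit 0), (nat_lit 0), (nat_lit 0), (nat_lit 0), (nat_lit 0), (nat_lit 0), [], [(nat_lit 1), (nat_lit 38), (nat_lit 203), (nat_lit 0), (nat_lit 7)]⟩,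
 ⟨⟨[(nat_lit 60), (nat_lit 80), (nat_lit 100)], [(nat_lit 0), (nat_lit 304), (nat_lit 825)], [((nat_lit 0), (nat_lit 0), (nat_lit 0)), ((nat_lit 1000), (nat_lit 905), (nat_lit 238)), ((nat_lit 1000), (nat_lit 871), (nat_lit 407))], ((nat_lit 87), (nat_lit 100), (nat_lit 48))⟩, (nat_lit 3813166), (nat_lit 513), (nat_lit 513), (nat_lit 0), (nat_lit 1125179), [(nat_lit 3209796000), (nat_lit 4584864000), (nat_lit 6112500000)], [], [(nat_lit 30249578843), (nat_lit 30703688756), (nat_lit 30936144700), (nat_lit 31361221746), (nat_lit 32228151999), (nat_lit 32863923328), (nat_lit 33277484425), (nat_lit 33860917538)], (nat_lit 1271251), (nat_lit 1271251), (nat_lit 1271251), (nat_lit 1271251), (nat_lit 490000), (nat_lit 2599376), [(nat_lit 780000), (nat_lit 1100000), (nat_lit 1442501)], [(nat_lit 9), (nat_lit 50), (nat_lit 317), (nat_lit 100), (nat_lit 10)]⟩,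
 Rw.none⟩)) (.leaf ⟨(nat_lit 22), (nat_lit 978), (nat_lit 0), (nat_lit 0), (nat_lit 0), (nat_lit 3397), (nat_lit 5343), (nat_lit 0), (nat_lit 0), (nat_lit 0), (nat_lit 88000), [((nat_lit 400), [((nat_lit 43), (nat_lit 5), (nat_lit 22))])], ⟨(nat_lit 9), false, true, true, (nat_lit 344), (nat_lit 0), (nat_lit 2237), [(nat_lit 1841930), (nat_lit 1824997), (nat_lit 1864705), (nat_lit 1849998), (nat_lit 1870437), (nat_lit 1849996), (nat_lit 1893212), (nat_lit 1874997)]⟩, ⟨(nat_lit 5), false, false, true, (nat_lit 185), (nat_lit 0), (nat_lit 2237), [(nat_lit 1408898), (nat_lit 1399996), (nat_lit 1454449), (nat_lit 1449998), (nat_lit 1480164), (nat_lit 1462492), (nat_lit 1525715), (nat_lit 1512494)]⟩, (nat_lit 5311479), (nat_lit 33021536), (nat_lit 24910382), (nat_lit 9068082), (nat_lit 5), (nat_lit 0), [⟨(nat_lit 1), (nat_lit 74), (nat_lit 37), (nat_lit 100), (nat_lit 320229597)⟩], [⟨(nat_lit 1), (nat_lit 100), (nat_lit 31), (nat_lit 95), (nat_lit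 866764059)⟩, ⟨(nat_lit 1), (nat_lit 99), (nat_lit 44), (nat_lit 100), (nat_lit 41761493)⟩], [⟨(nat_lit 1), (nat_lit 68), (nat_lit 88), (nat_lit 100), (nat_lit 256951796)⟩], [],
 ⟨⟨[(nat_lit 40), (nat_lit 60)], [(nat_lit 0), (nat_lit 1539)], [((nat_lit 0), (nat_lit 0), (nat_lit 0)), ((nat_lit 1000), (nat_lit 478), (nat_lit 704))], ((nat_lit 48), (nat_lit 100), (nat_lit 69))⟩, (nat_lit 572963), (nat_lit 76), (nat_lit 76), (nat_lit 0), (nat_lit 0), [(nat_lit 1823484021), (nat_lit 2838752800)], [(nat_lit 0), (nat_lit 0)], [(nat_lit 29655657238), (nat_lit 30648383477), (nat_lit 30593210209), (nat_lit 31564366096), (nat_lit 30507238330), (nat_lit 31451191826), (nat_lit 31401807582), (nat_lit 32296376833)], (nat_lit 0), (nat_lit 0), (nat_lit 0), (nat_lit 0), (nat_lit 0), (nat_lit 0), [], [(nat_lit 1), (nat_lit 38), (nat_lit 203), (nat_lit 0), (nat_lit 7)]⟩,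
 ⟨⟨[(nat_lit 60), (nat_lit 100), (nat_lit 120)], [(nat_lit 0), (nat_lit 609), (nat_lit 1609)], [((nat_lit 0), (nat_lit 0), (nat_lit 0)), ((nat_lit 1000), (nat_lit 905), (nat_lit 238)), ((nat_lit 1000), (nat_lit 882), (nat_lit 668))], ((nat_lit 88), (nat_lit 100), (nat_lit 63))⟩, (nat_lit 4247250), (nat_lit 508), (nat_lit 508), (nat_lit 0), (nat_lit 985084), [(nat_lit 3209796000), (nat_lit 6112500000), (nat_lit 7792704000)], [], [(nat_lit 30577421091), (nat_lit 30987147744), (nat_lit 31212338949), (nat_lit 31595061549), (nat_lit 32134398861), (nat_lit 32742269328), (nat_lit 33148764098), (nat_lit 33730256881)], (nat_lit 1271251), (nat_lit 1271251), (nat_lit 1271251), (nat_lit 1271251), (nat_lit 490000), (nat_lit 2599376), [(nat_lit 780000), (nat_lit 1435001), (nat_lit 1271251)], [(nat_lit 10), (nat_lit 54), (nat_lit 317), (nat_lit 100), (nat_lit 9)]⟩,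
 Rw.none⟩)))))
noncomputable def c14_32 : Tr Lf :=
 (.stt (nat_lit 3) (.leaf ⟨(nat_lit 0), (nat_lit 0), (nat_lit 0), (nat_lit 1000), (nat_lit 0), (nat_lit 3592), (nat_lit 8227), (nat_lit 29736), (nat_lit 0), (nat_lit 0), (nat_lit 0), [], Pd.none, Pd.none, (nat_lit 0), (nat_lit 1), (nat_lit 0), (nat_lit 0), (nat_lit 0), (nat_lit 0), [⟨(nat_lit 1), (nat_lit 77), (nat_lit 36), (nat_lit 100), (nat_lit 2613188644)⟩], [], [], [⟨(nat_lit 0), (nat_lit 100), (nat_lit 53), (nat_lit 89), (nat_lit 189179214)⟩],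
 ⟨⟨[(nat_lit 40), (nat_lit 60)], [(nat_lit 0), (nat_lit 1539)], [((nat_lit 0), (nat_lit 0), (nat_lit 0)), ((nat_lit 1000), (nat_lit 478), (nat_lit 704))], ((nat_lit 48), (nat_lit 100), (nat_lit 69))⟩, (nat_lit 683047), (nat_lit 81), (nat_lit 81), (nat_lit 0), (nat_lit 0), [(nat_lit 2032000317), (nat_lit 3282000000)], [], [(nat_lit 29415740856), (nat_lit 30386968600), (nat_lit 30337574660), (nat_lit 31378666416), (nat_lit 31339466105), (nat_lit 32208901326), (nat_lit 32159878601), (nat_lit 33037918267)], (nat_lit 0), (nat_lit 0), (nat_lit 0), (nat_lit 0), (nat_lit 0), (nat_lit 0), [], [(nat_lit 1), (nat_lit 38), (nat_lit 203), (nat_lit 0), (nat_lit 8)]⟩,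
 ⟨⟨[(nat_lit 60), (nat_lit 100), (nat_lit 140)], [(nat_lit 0), (nat_lit 0), (nat_lit 2047)], [((nat_lit 0), (nat_lit 0), (nat_lit 0)), ((nat_lit 0), (nat_lit 0), (nat_lit 0)), ((nat_lit 1000), (nat_lit 993), (nat_lit 781))], ((nat_lit 95), (nat_lit 100), (nat_lit 65))⟩, (nat_lit 1719833), (nat_lit 807), (nat_lit 807), (nat_lit 0), (nat_lit 1517715), [(nat_lit 3282000000), (nat_lit 6250000000), (nat_lit 9842000000)], [], [(nat_lit 35171861846), (nat_lit 35446518353), (nat_lit 35570264594), (nat_lit 37222106602), (nat_lit 36468146789), (nat_lit 37760467087), (nat_lit 37761506019), (nat_lit 38915879125)], (nat_lit 1271251), (nat_lit 1271251), (nat_lit 1271251), (nat_lit 1271251), (nat_lit 292188), (nat_lit 2702188), [(nat_lit 780000), (nat_lit 1435001), (nat_lit 1271251)], [(nat_lit 11), (nat_lit 55), (nat_lit 336), (nat_lit 100), (nat_lit 9)]⟩,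
 ⟨⟨[(nat_lit 120), (nat_lit 160), (nat_lit 180)], [(nat_lit 0), (nat_lit 0), (nat_lit 1613)], [((nat_lit 0), (nat_lit 0), (nat_lit 0)), ((nat_lit 0), (nat_lit 0), (nat_lit 0)), ((nat_lit 620), (nat_lit 1000), (nat_lit 670))], ((nat_lit 100), (nat_lit 65), (nat_lit 64))⟩, (nat_lit 10249458), (nat_lit 207), (nat_lit 207), (nat_lit 0), (nat_lit 0), [(nat_lit 7968000000), (nat_lit 11872000000), (nat_lit 14058000000)], [], [(nat_lit 15245222838), (nat_lit 16342716516), (nat_lit 26854000941), (nat_lit 27692057158), (nat_lit 37708110500), (nat_lit 38598432541), (nat_lit 45760762401), (nat_lit 45891266293)], (nat_lit 0), (nat_lit 0), (nat_lit 0), (nat_lit 0), (nat_lit 0), (nat_lit 0), [], [(nat_lit 28), (nat_lit 65), (nat_lit 456), (nat_lit 225), (nat_lit 11)]⟩⟩) (.spl (nat_lit 5) (nat_lit 200) (.leaf ⟨(nat_lit 22), (nat_lit 766), (nat_lit 0), (nat_lit 212), (nat_lit 0), (nat_lit 3334), (nat_lit 7877), (nat_lit 2390), (nat_lit 0), (nat_lit 0), (nat_lit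 88000), [((nat_lit 400), [((nat_lit 43), (nat_lit 5), (nat_lit 22))])], ⟨(nat_lit 9), false, true, true, (nat_lit 339), (nat_lit 0), (nat_lit 2237), [(nat_lit 1819154), (nat_lit 1799995), (nat_lit 1864705), (nat_lit 1849998), (nat_lit 1847661), (nat_lit 1824994), (nat_lit 1893212), (nat_lit 1874997)]⟩, ⟨(nat_lit 4), false, false, true, (nat_lit 194), (nat_lit 0), (nat_lit 2237), [(nat_lit 1397434), (nat_lit 1399999), (nat_lit 1419294), (nat_lit 1424084), (nat_lit 1554222), (nat_lit 1537494), (nat_lit 1576997), (nat_lit 1562495)]⟩, (nat_lit 5372512), (nat_lit 32975319), (nat_lit 24275613), (nat_lit 9749068), (nat_lit 4), (nat_lit 0), [⟨(nat_lit 1), (nat_lit 77), (nat_lit 36), (nat_lit 100), (nat_lit 1680250173)⟩], [⟨(nat_lit 1), (nat_lit 100), (nat_lit 32), (nat_lit 100), (nat_lit 344690742)⟩], [], [],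
 ⟨⟨[(nat_lit 40), (nat_lit 60)], [(nat_lit 0), (nat_lit 1539)], [((nat_lit 0), (nat_lit 0), (nat_lit 0)), ((nat_lit 1000), (nat_lit 478), (nat_lit 704))], ((nat_lit 48), (nat_lit 100), (nat_lit 69))⟩, (nat_lit 2741119), (nat_lit 81), (nat_lit 81), (nat_lit 0), (nat_lit 0), [(nat_lit 1823484006), (nat_lit 2838752800)], [(nat_lit 0), (nat_lit 0)], [(nat_lit 29023506310), (nat_lit 30005959272), (nat_lit 29956286880), (nat_lit 30969530532), (nat_lit 31048291076), (nat_lit 31874961477), (nat_lit 31833058315), (nat_lit 32684153247)], (nat_lit 0), (nat_lit 0), (nat_lit 0), (nat_lit 0), (nat_lit 0), (nat_lit 0), [], [(nat_lit 1), (nat_lit 38), (nat_lit 203), (nat_lit 0), (nat_lit 8)]⟩,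
 ⟨⟨[(nat_lit 60), (nat_lit 100), (nat_lit 140)], [(nat_lit 0), (nat_lit 0), (nat_lit 2047)], [((nat_lit 0), (nat_lit 0), (nat_lit 0)), ((nat_lit 0), (nat_lit 0), (nat_lit 0)), ((nat_lit 1000), (nat_lit 993), (nat_lit 781))], ((nat_lit 95), (nat_lit 100), (nat_lit 65))⟩, (nat_lit 4875715), (nat_lit 677), (nat_lit 677), (nat_lit 0), (nat_lit 1212083), [(nat_lit 3209796000), (nat_lit 6112500000), (nat_lit 9625476000)], [], [(nat_lit 33069422643), (nat_lit 33900488752), (nat_lit 33758359672), (nat_lit 36074165406), (nat_lit 30287801397), (nat_lit 30779005538), (nat_lit 30834987058), (nat_lit 31814928547)], (nat_lit 1271251), (nat_lit 1271251), (nat_lit 1271251), (nat_lit 1271251), (nat_lit 292188), (nat_lit 1421875), [(nat_lit 780000), (nat_lit 1435001), (nat_lit 1271251)], [(nat_lit 11), (nat_lit 55), (nat_lit 282), (nat_lit 50), (nat_lit 7)]⟩,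
 ⟨⟨[(nat_lit 120), (nat_lit 160), (nat_lit 180)], [(nat_lit 0), (nat_lit 0), (nat_lit 1613)], [((nat_lit 0), (nat_lit 0), (nat_lit 0)), ((nat_lit 0), (nat_lit 0), (nat_lit 0)), ((nat_lit 620), (nat_lit 1000), (nat_lit 670))], ((nat_lit 100), (nat_lit 65), (nat_lit 64))⟩, (nat_lit 363261), (nat_lit 300), (nat_lit 2050), (nat_lit 15730400), (nat_lit 3605252), [(nat_lit 1689216000), (nat_lit 2516864000), (nat_lit 2980296000)], [], [(nat_lit 12318465286), (nat_lit 12193457255), (nat_lit 11713787068), (nat_lit 11581883711), (nat_lit 10839632120), (nat_lit 10937723309), (nat_lit 13899956894), (nat_lit 14589045396)], (nat_lit 1100000), (nat_lit 1271251), (nat_lit 1100000), (nat_lit 2041876), (nat_lit 292188), (nat_lit 1421875), [(nat_lit 1695001), (nat_lit 1271251), (nat_lit 1271251)], [(nat_lit 28), (nat_lit 65), (nat_lit 594), (nat_lit 175), (nat_lit 14)]⟩⟩) (.leaf ⟨(nat_lit 143), (nat_lit 684), (nat_lit 0), (nat_lit 173), (nat_lit 0), (nat_lit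 3239), (nat_lit 6226), (nat_lit 1911), (nat_lit 0), (nat_lit 0), (nat_lit 85800), [((nat_lit 400), [((nat_lit 43), (nat_lit 2), (nat_lit 143))])], ⟨(nat_lit 9), false, true, true, (nat_lit 339), (nat_lit 0), (nat_lit 2237), [(nat_lit 1819154), (nat_lit 1799995), (nat_lit 1864705), (nat_lit 1849998), (nat_lit 1847661), (nat_lit 1824994), (nat_lit 1893212), (nat_lit 1874997)]⟩, ⟨(nat_lit 4), false, false, true, (nat_lit 194), (nat_lit 0), (nat_lit 2237), [(nat_lit 1397434), (nat_lit 1399999), (nat_lit 1419294), (nat_lit 1424084), (nat_lit 1554222), (nat_lit 1537494), (nat_lit 1576997), (nat_lit 1562495)]⟩, (nat_lit 5372512), (nat_lit 32975319), (nat_lit 24275613), (nat_lit 9749068), (nat_lit 5), (nat_lit 0), [⟨(nat_lit 1), (nat_lit 77), (nat_lit 36), (nat_lit 100), (nat_lit 1358725301)⟩], [⟨(nat_lit 1), (nat_lit 100), (nat_lit 32), (nat_lit 100), (nat_lit 431563174)⟩], [⟨(nat_lit 1), (nat_lit 63), (nat_lit 88), (nat_lit 100), (nat_lit 124683160)⟩],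 [],
 ⟨⟨[(nat_lit 40), (nat_lit 60)], [(nat_lit 0), (nat_lit 1539)], [((nat_lit 0), (nat_lit 0), (nat_lit 0)), ((nat_lit 1000), (nat_lit 478), (nat_lit 704))], ((nat_lit 48), (nat_lit 100), (nat_lit 69))⟩, (nat_lit 2352257), (nat_lit 81), (nat_lit 81), (nat_lit 0), (nat_lit 0), [(nat_lit 1741080804), (nat_lit 2722126400)], [(nat_lit 0), (nat_lit 0)], [(nat_lit 28893783691), (nat_lit 29865103318), (nat_lit 29816448661), (nat_lit 30818879722), (nat_lit 30929856440), (nat_lit 31751999130), (nat_lit 31707382981), (nat_lit 32553890933)], (nat_lit 0), (nat_lit 0), (nat_lit 0), (nat_lit 0), (nat_lit 0), (nat_lit 0), [], [(nat_lit 1), (nat_lit 38), (nat_lit 203), (nat_lit 0), (nat_lit 8)]⟩,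
 ⟨⟨[(nat_lit 60), (nat_lit 100), (nat_lit 140)], [(nat_lit 0), (nat_lit 0), (nat_lit 2047)], [((nat_lit 0), (nat_lit 0), (nat_lit 0)), ((nat_lit 0), (nat_lit 0), (nat_lit 0)), ((nat_lit 1000), (nat_lit 993), (nat_lit 781))], ((nat_lit 95), (nat_lit 100), (nat_lit 65))⟩, (nat_lit 3569924), (nat_lit 602), (nat_lit 602), (nat_lit 0), (nat_lit 1212083), [(nat_lit 2812674000), (nat_lit 5356250000), (nat_lit 8434594000)], [], [(nat_lit 29795940973), (nat_lit 30244662411), (nat_lit 30261534506), (nat_lit 30664762605), (nat_lit 31196796273), (nat_lit 31377197124), (nat_lit 31493539635), (nat_lit 32305098288)], (nat_lit 1271251), (nat_lit 1271251), (nat_lit 1271251), (nat_lit 1271251), (nat_lit 1271251), (nat_lit 1271251), [(nat_lit 780000), (nat_lit 1435001), (nat_lit 1271251)], [(nat_lit 11), (nat_lit 55), (nat_lit 317), (nat_lit 100), (nat_lit 8)]⟩,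
 ⟨⟨[(nat_lit 120), (nat_lit 160), (nat_lit 180)], [(nat_lit 0), (nat_lit 0), (nat_lit 1613)], [((nat_lit 0), (nat_lit 0), (nat_lit 0)), ((nat_lit 0), (nat_lit 0), (nat_lit 0)), ((nat_lit 620), (nat_lit 1000), (nat_lit 670))], ((nat_lit 100), (nat_lit 65), (nat_lit 64))⟩, (nat_lit 305116), (nat_lit 300), (nat_lit 1968), (nat_lit 12836600), (nat_lit 3605252), [(nat_lit 1378464000), (nat_lit 2053856000), (nat_lit 2432034000)], [], [(nat_lit 9141574443), (nat_lit 9027560977), (nat_lit 8571464567), (nat_lit 8459051408), (nat_lit 8571619234), (nat_lit 8469718864), (nat_lit 8079230933), (nat_lit 7971890379)], (nat_lit 1100000), (nat_lit 1271251), (nat_lit 1100000), (nat_lit 2041876), (nat_lit 1271251), (nat_lit 1271251), [(nat_lit 1695001), (nat_lit 1271251), (nat_lit 1271251)], [(nat_lit 28), (nat_lit 65), (nat_lit 595), (nat_lit 225), (nat_lit 13)]⟩⟩)))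
noncomputable def c14_33 : Tr Lf :=
 (.spl (nat_lit 5) (nat_lit 200) (.spl (nat_lit 4) (nat_lit 160) (.spl (nat_lit 1) (nat_lit 280) (.trX (nat_lit 3) (nat_lit 0) (nat_lit 1) (nat_lit 48) (nat_lit 71) (nat_lit 100) (nat_lit 360) (.leaf ⟨(nat_lit 683), (nat_lit 317), (nat_lit 0), (nat_lit 0), (nat_lit 0), (nat_lit 3777), (nat_lit 2957), (nat_lit 0), (nat_lit 0), (nat_lit 0), (nat_lit 409800), [((nat_lit 400), [((nat_lit 43), (nat_lit 2), (nat_lit 683))])], ⟨(nat_lit 7), false, true, true, (nat_lit 293), (nat_lit 0), (nat_lit 2237), [(nat_lit 1659577), (nat_lit 1649997), (nat_lit 1705063), (nat_lit 1699935), (nat_lit 1773604), (nat_lit 1749994), (nat_lit 1819154), (nat_lit 1799995)]⟩, ⟨(nat_lit 3), false, false, false, (nat_lit 122), (nat_lit 0), (nat_lit 2237), [(nat_lit 1177178), (nat_lit 1196337), (nat_lit 1242721), (nat_lit 1268557), (nat_lit 1351885), (nat_lit 1349998), (nat_lit 1419294), (nat_lit 1424084)]⟩, (nat_lit 4679233), (nat_lit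 39655174), (nat_lit 21925485), (nat_lit 5419341), (nat_lit 3), (nat_lit 0), [⟨(nat_lit 1), (nat_lit 85), (nat_lit 33), (nat_lit 100), (nat_lit 487990736)⟩], [⟨(nat_lit 0), (nat_lit 100), (nat_lit 32), (nat_lit 87), (nat_lit 80533407)⟩], [], [],
 ⟨⟨[(nat_lit 40), (nat_lit 60)], [(nat_lit 0), (nat_lit 1539)], [((nat_lit 0), (nat_lit 0), (nat_lit 0)), ((nat_lit 1000), (nat_lit 478), (nat_lit 704))], ((nat_lit 48), (nat_lit 100), (nat_lit 69))⟩, (nat_lit 9294), (nat_lit 240), (nat_lit 240), (nat_lit 0), (nat_lit 460350), [(nat_lit 1520702006), (nat_lit 607918400)], [(nat_lit 0), (nat_lit 0)], [(nat_lit 27000343179), (nat_lit 28586699934), (nat_lit 31322582561), (nat_lit 32599913873), (nat_lit 25786901268), (nat_lit 27028648224), (nat_lit 29517945476), (nat_lit 30659658880)], (nat_lit 1271251), (nat_lit 1271251), (nat_lit 1271251), (nat_lit 1271251), (nat_lit 230000), (nat_lit 1100000), [(nat_lit 490000), (nat_lit 780000)], [(nat_lit 1), (nat_lit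 38), (nat_lit 249), (nat_lit 40), (nat_lit 12)]⟩,
 ⟨⟨[(nat_lit 80), (nat_lit 120), (nat_lit 160)], [(nat_lit 0), (nat_lit 0), (nat_lit 2132)], [((nat_lit 0), (nat_lit 0), (nat_lit 0)), ((nat_lit 0), (nat_lit 0), (nat_lit 0)), ((nat_lit 858), (nat_lit 1000), (nat_lit 713))], ((nat_lit 100), (nat_lit 91), (nat_lit 64))⟩, (nat_lit 1051223), (nat_lit 671), (nat_lit 671), (nat_lit 0), (nat_lit 911786), [(nat_lit 1486096000), (nat_lit 2525856000), (nat_lit 3763424000)], [], [(nat_lit 11333193092), (nat_lit 11624244536), (nat_lit 12180981080), (nat_lit 12373657142), (nat_lit 9370983774), (nat_lit 9564303886), (nat_lit 9983317187), (nat_lit 10098837749)], (nat_lit 1271251), (nat_lit 1271251), (nat_lit 1271251), (nat_lit 1271251), (nat_lit 0), (nat_lit 1412501), [(nat_lit 1100000), (nat_lit 1785001), (nat_lit 1271251)], [(nat_lit 18), (nat_lit 59), (nat_lit 456), (nat_lit 225), (nat_lit 11)]⟩,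
 Rw.none⟩)) (.leaf ⟨(nat_lit 22), (nat_lit 912), (nat_lit 0), (nat_lit 66), (nat_lit 0), (nat_lit 4135), (nat_lit 7349), (nat_lit 834), (nat_lit 0), (nat_lit 0), (nat_lit 88000), [((nat_lit 400), [((nat_lit 43), (nat_lit 5), (nat_lit 22))])], ⟨(nat_lit 7), false, true, true, (nat_lit 317), (nat_lit 0), (nat_lit 2237), [(nat_lit 1705063), (nat_lit 1699935), (nat_lit 1748802), (nat_lit 1748125), (nat_lit 1847661), (nat_lit 1824994), (nat_lit 1893212), (nat_lit 1874997)]⟩, ⟨(nat_lit 3), false, false, false, (nat_lit 122), (nat_lit 0), (nat_lit 2237), [(nat_lit 1177178), (nat_lit 1196337), (nat_lit 1242721), (nat_lit 1268557), (nat_lit 1351885), (nat_lit 1349998), (nat_lit 1419294), (nat_lit 1424084)]⟩, (nat_lit 4736124), (nat_lit 37607212), (nat_lit 24163721), (nat_lit 5229067), (nat_lit 3), (nat_lit 0), [⟨(nat_lit 1), (nat_lit 77), (nat_lit 36), (nat_lit 100), (nat_lit 126605685)⟩], [⟨(nat_lit 0), (nat_lit 100), (nat_lit 32), (nat_lit 87), (nat_lit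 81699506)⟩], [], [],
 ⟨⟨[(nat_lit 40), (nat_lit 60)], [(nat_lit 0), (nat_lit 1539)], [((nat_lit 0), (nat_lit 0), (nat_lit 0)), ((nat_lit 1000), (nat_lit 478), (nat_lit 704))], ((nat_lit 48), (nat_lit 100), (nat_lit 69))⟩, (nat_lit 887589), (nat_lit 259), (nat_lit 259), (nat_lit 0), (nat_lit 518621), [(nat_lit 1823484002), (nat_lit 2838752800)], [(nat_lit 0), (nat_lit 0)], [(nat_lit 27680972332), (nat_lit 29345639170), (nat_lit 33419750911), (nat_lit 34670980208), (nat_lit 26423058172), (nat_lit 27436977682), (nat_lit 31119342242), (nat_lit 32239754730)], (nat_lit 1271251), (nat_lit 1271251), (nat_lit 1271251), (nat_lit 1271251), (nat_lit 230000), (nat_lit 1100000), [(nat_lit 490000), (nat_lit 780000)], [(nat_lit 1), (nat_lit 38), (nat_lit 249), (nat_lit 40), (nat_lit 12)]⟩,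
 ⟨⟨[(nat_lit 60), (nat_lit 100), (nat_lit 140)], [(nat_lit 0), (nat_lit 0), (nat_lit 2047)], [((nat_lit 0), (nat_lit 0), (nat_lit 0)), ((nat_lit 0), (nat_lit 0), (nat_lit 0)), ((nat_lit 1000), (nat_lit 993), (nat_lit 781))], ((nat_lit 95), (nat_lit 100), (nat_lit 65))⟩, (nat_lit 2765183), (nat_lit 537), (nat_lit 537), (nat_lit 0), (nat_lit 790339), [(nat_lit 3209796000), (nat_lit 6112500000), (nat_lit 9625476000)], [], [(nat_lit 32608343482), (nat_lit 33958232536), (nat_lit 36673421380), (nat_lit 39230212674), (nat_lit 28891259951), (nat_lit 29884378435), (nat_lit 31982261032), (nat_lit 32644263129)], (nat_lit 1271251), (nat_lit 1271251), (nat_lit 1271251), (nat_lit 1271251), (nat_lit 0), (nat_lit 1412501), [(nat_lit 780000), (nat_lit 1435001), (nat_lit 1271251)], [(nat_lit 11), (nat_lit 55), (nat_lit 260), (nat_lit 50), (nat_lit 7)]⟩,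
 ⟨⟨[(nat_lit 140), (nat_lit 180), (nat_lit 200)], [(nat_lit 0), (nat_lit 0), (nat_lit 2835)], [((nat_lit 0), (nat_lit 0), (nat_lit 0)), ((nat_lit 0), (nat_lit 0), (nat_lit 0)), ((nat_lit 363), (nat_lit 1000), (nat_lit 798))], ((nat_lit 0), (nat_lit 0), (nat_lit 0))⟩, (nat_lit 184748), (nat_lit 300), (nat_lit 1273), (nat_lit 5154600), (nat_lit 1549729), [(nat_lit 649572000), (nat_lit 927828000), (nat_lit 1082400000)], [], [(nat_lit 5798118030), (nat_lit 5109629711), (nat_lit 4681547808), (nat_lit 4487529150), (nat_lit 4333443792), (nat_lit 4142152179), (nat_lit 3782157528), (nat_lit 4150787028)], (nat_lit 780000), (nat_lit 1271251), (nat_lit 230000), (nat_lit 1100000), (nat_lit 0), (nat_lit 1412501), [(nat_lit 1977501), (nat_lit 1271251), (nat_lit 1271251)], [(nat_lit 32), (nat_lit 67), (nat_lit 386), (nat_lit 150), (nat_lit 9)]⟩⟩)) (.spl (nat_lit 5) (nat_lit 120) (.leaf ⟨(nat_lit 22), (nat_lit 978), (nat_lit 0), (nat_lit 0), (nat_lit 0), (nat_lit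 3959), (nat_lit 8308), (nat_lit 0), (nat_lit 0), (nat_lit 0), (nat_lit 88000), [((nat_lit 400), [((nat_lit 43), (nat_lit 5), (nat_lit 22))])], ⟨(nat_lit 7), false, true, true, (nat_lit 308), (nat_lit 0), (nat_lit 2237), [(nat_lit 1659577), (nat_lit 1649997), (nat_lit 1748802), (nat_lit 1748125), (nat_lit 1802110), (nat_lit 1774991), (nat_lit 1893212), (nat_lit 1874997)]⟩, ⟨(nat_lit 4), false, false, true, (nat_lit 184), (nat_lit 0), (nat_lit 2237), [(nat_lit 1351885), (nat_lit 1349998), (nat_lit 1419294), (nat_lit 1424084), (nat_lit 1508671), (nat_lit 1487491), (nat_lit 1576997), (nat_lit 1562495)]⟩, (nat_lit 5273712), (nat_lit 35549556), (nat_lit 21907010), (nat_lit 9543434), (nat_lit 4), (nat_lit 0), [], [⟨(nat_lit 1), (nat_lit 100), (nat_lit 31), (nat_lit 97), (nat_lit 861893167)⟩], [], [⟨(nat_lit 0), (nat_lit 100), (nat_lit 76), (nat_lit 71), (nat_lit 94993087)⟩],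
 ⟨⟨[(nat_lit 40), (nat_lit 60)], [(nat_lit 0), (nat_lit 1539)], [((nat_lit 0), (nat_lit 0), (nat_lit 0)), ((nat_lit 1000), (nat_lit 478), (nat_lit 704))], ((nat_lit 48), (nat_lit 100), (nat_lit 69))⟩, (nat_lit 657494), (nat_lit 209), (nat_lit 209), (nat_lit 0), (nat_lit 518886), [(nat_lit 1823484018), (nat_lit 2838752800)], [(nat_lit 0), (nat_lit 0)], [(nat_lit 26335571386), (nat_lit 27349671806), (nat_lit 30861561246), (nat_lit 31960654282), (nat_lit 28594818921), (nat_lit 29651644820), (nat_lit 32631252231), (nat_lit 33541142153)], (nat_lit 1271251), (nat_lit 1271251), (nat_lit 1271251), (nat_lit 1271251), (nat_lit 1100000), (nat_lit 2041876), [(nat_lit 490000), (nat_lit 780000)], [(nat_lit 1), (nat_lit 38), (nat_lit 203), (nat_lit 0), (nat_lit 8)]⟩,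
 ⟨⟨[(nat_lit 80), (nat_lit 120), (nat_lit 160)], [(nat_lit 0), (nat_lit 0), (nat_lit 2132)], [((nat_lit 0), (nat_lit 0), (nat_lit 0)), ((nat_lit 0), (nat_lit 0), (nat_lit 0)), ((nat_lit 858), (nat_lit 1000), (nat_lit 713))], ((nat_lit 100), (nat_lit 91), (nat_lit 64))⟩, (nat_lit 3084866), (nat_lit 519), (nat_lit 519), (nat_lit 0), (nat_lit 585183), [(nat_lit 4584864000), (nat_lit 7792704000), (nat_lit 11610816000)], [], [(nat_lit 34523522484), (nat_lit 37282344796), (nat_lit 39289283728), (nat_lit 41728173678), (nat_lit 29742408318), (nat_lit 32141479826), (nat_lit 33932562453), (nat_lit 35476547395)], (nat_lit 1271251), (nat_lit 1271251), (nat_lit 1271251), (nat_lit 1271251), (nat_lit 0), (nat_lit 780000), [(nat_lit 1100000), (nat_lit 1785001), (nat_lit 1271251)], [(nat_lit 18), (nat_lit 59), (nat_lit 456), (nat_lit 225), (nat_lit 11)]⟩,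
 Rw.none⟩) (.leaf ⟨(nat_lit 512), (nat_lit 314), (nat_lit 0), (nat_lit 174), (nat_lit 0), (nat_lit 3678), (nat_lit 4796), (nat_lit 2276), (nat_lit 0), (nat_lit 0), (nat_lit 251400), [((nat_lit 400), [((nat_lit 28), (nat_lit 1), (nat_lit 279)), ((nat_lit 43), (nat_lit 2), (nat_lit 233))])], ⟨(nat_lit 7), false, true, true, (nat_lit 308), (nat_lit 0), (nat_lit 2237), [(nat_lit 1659577), (nat_lit 1649997), (nat_lit 1748802), (nat_lit 1748125), (nat_lit 1802110), (nat_lit 1774991), (nat_lit 1893212), (nat_lit 1874997)]⟩, ⟨(nat_lit 4), false, false, true, (nat_lit 184), (nat_lit 0), (nat_lit 2237), [(nat_lit 1351885), (nat_lit 1349998), (nat_lit 1419294), (nat_lit 1424084), (nat_lit 1508671), (nat_lit 1487491), (nat_lit 1576997), (nat_lit 1562495)]⟩, (nat_lit 5273712), (nat_lit 35549556), (nat_lit 21907010), (nat_lit 9543434), (nat_lit 4), (nat_lit 0), [⟨(nat_lit 1), (nat_lit 81), (nat_lit 34), (nat_lit 100), (nat_lit 390063048)⟩], [⟨(nat_lit 1),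 (nat_lit 100), (nat_lit 31), (nat_lit 97), (nat_lit 257508154)⟩], [], [],
 ⟨⟨[(nat_lit 40), (nat_lit 60)], [(nat_lit 0), (nat_lit 1539)], [((nat_lit 0), (nat_lit 0), (nat_lit 0)), ((nat_lit 1000), (nat_lit 478), (nat_lit 704))], ((nat_lit 48), (nat_lit 100), (nat_lit 69))⟩, (nat_lit 0), (nat_lit 209), (nat_lit 209), (nat_lit 0), (nat_lit 518886), [(nat_lit 1591020911), (nat_lit 1544699600)], [(nat_lit 0), (nat_lit 0)], [(nat_lit 25935161183), (nat_lit 26916919400), (nat_lit 30449990451), (nat_lit 31515045044), (nat_lit 28216677012), (nat_lit 29350308780), (nat_lit 32270336727), (nat_lit 33155839941)], (nat_lit 1271251), (nat_lit 1271251), (nat_lit 1271251), (nat_lit 1271251), (nat_lit 1100000), (nat_lit 2041876), [(nat_lit 490000), (nat_lit 780000)], [(nat_lit 1), (nat_lit 38), (nat_lit 203), (nat_lit 0), (nat_lit 8)]⟩,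
 ⟨⟨[(nat_lit 80), (nat_lit 120), (nat_lit 160)], [(nat_lit 0), (nat_lit 0), (nat_lit 2132)], [((nat_lit 0), (nat_lit 0), (nat_lit 0)), ((nat_lit 0), (nat_lit 0), (nat_lit 0)), ((nat_lit 858), (nat_lit 1000), (nat_lit 713))], ((nat_lit 100), (nat_lit 91), (nat_lit 64))⟩, (nat_lit 1246519), (nat_lit 573), (nat_lit 573), (nat_lit 0), (nat_lit 935294), [(nat_lit 2287744000), (nat_lit 3888384000), (nat_lit 5793536000)], [], [(nat_lit 13913655356), (nat_lit 14666081864), (nat_lit 15817115416), (nat_lit 17296306134), (nat_lit 13421071068), (nat_lit 14008642696), (nat_lit 15239072644), (nat_lit 16776481502)], (nat_lit 1271251), (nat_lit 1271251), (nat_lit 1271251), (nat_lit 1271251), (nat_lit 780000), (nat_lit 1435001), [(nat_lit 1100000), (nat_lit 1785001), (nat_lit 1271251)], [(nat_lit 18), (nat_lit 59), (nat_lit 456), (nat_lit 225), (nat_lit 11)]⟩,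
 ⟨⟨[(nat_lit 140), (nat_lit 180), (nat_lit 200)], [(nat_lit 0), (nat_lit 0), (nat_lit 2835)], [((nat_lit 0), (nat_lit 0), (nat_lit 0)), ((nat_lit 0), (nat_lit 0), (nat_lit 0)), ((nat_lit 363), (nat_lit 1000), (nat_lit 798))], ((nat_lit 0), (nat_lit 0), (nat_lit 0))⟩, (nat_lit 47874), (nat_lit 300), (nat_lit 1106), (nat_lit 13589400), (nat_lit 1549828), [(nat_lit 1712508000), (nat_lit 2446092000), (nat_lit 2853600000)], [], [(nat_lit 11124285336), (nat_lit 9848843387), (nat_lit 9834483821), (nat_lit 9348492819), (nat_lit 9684881568), (nat_lit 9217223340), (nat_lit 9178425812), (nat_lit 8689119573)], (nat_lit 780000), (nat_lit 1271251), (nat_lit 1100000), (nat_lit 2041876), (nat_lit 780000), (nat_lit 1435001), [(nat_lit 1977501), (nat_lit 1271251), (nat_lit 1271251)], [(nat_lit 32), (nat_lit 67), (nat_lit 401), (nat_lit 175), (nat_lit 9)]⟩⟩))) (.spl (nat_lit 0) (nat_lit 390) (.leaf ⟨(nat_lit 154), (nat_lit 530), (nat_lit 0), (nat_lit 316), (nat_lit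 0), (nat_lit 3742), (nat_lit 6690), (nat_lit 3855), (nat_lit 0), (nat_lit 0), (nat_lit 92400), [((nat_lit 390), [((nat_lit 43), (nat_lit 2), (nat_lit 154))])], ⟨(nat_lit 7), false, true, true, (nat_lit 309), (nat_lit 1581), (nat_lit 2237), [(nat_lit 1659578), (nat_lit 1655900), (nat_lit 1750574), (nat_lit 1749059), (nat_lit 1802117), (nat_lit 1792490), (nat_lit 1893214), (nat_lit 1885750)]⟩, ⟨(nat_lit 3), false, false, true, (nat_lit 152), (nat_lit 1581), (nat_lit 2237), [(nat_lit 1180680), (nat_lit 1188036), (nat_lit 1248867), (nat_lit 1257845), (nat_lit 1508678), (nat_lit 1502350), (nat_lit 1577001), (nat_lit 1572296)]⟩, (nat_lit 5014136), (nat_lit 36914794), (nat_lit 22815710), (nat_lit 7269496), (nat_lit 5), (nat_lit 0), [⟨(nat_lit 1), (nat_lit 76), (nat_lit 41), (nat_lit 100), (nat_lit 446011)⟩], [], [], [⟨(nat_lit 1), (nat_lit 92), (nat_lit 81), (nat_lit 100), (nat_lit 32742804)⟩],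
 ⟨⟨[(nat_lit 40), (nat_lit 60)], [(nat_lit 0), (nat_lit 1539)], [((nat_lit 0), (nat_lit 0), (nat_lit 0)), ((nat_lit 1000), (nat_lit 478), (nat_lit 704))], ((nat_lit 48), (nat_lit 100), (nat_lit 69))⟩, (nat_lit 672914), (nat_lit 253), (nat_lit 253), (nat_lit 0), (nat_lit 502788), [(nat_lit 1735476001), (nat_lit 2679059200)], [(nat_lit 0), (nat_lit 0)], [(nat_lit 27196776248), (nat_lit 27724675885), (nat_lit 32435222491), (nat_lit 33032894225), (nat_lit 29392458206), (nat_lit 29799335103), (nat_lit 32441001791), (nat_lit 32798066864)], (nat_lit 1271251), (nat_lit 1271251), (nat_lit 1271251), (nat_lit 1271251), (nat_lit 230000), (nat_lit 1940626), [(nat_lit 490000), (nat_lit 780000)], [(nat_lit 1), (nat_lit 38), (nat_lit 289), (nat_lit 75), (nat_lit 15)]⟩,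
 ⟨⟨[(nat_lit 80), (nat_lit 120), (nat_lit 160)], [(nat_lit 0), (nat_lit 0), (nat_lit 2132)], [((nat_lit 0), (nat_lit 0), (nat_lit 0)), ((nat_lit 0), (nat_lit 0), (nat_lit 0)), ((nat_lit 858), (nat_lit 1000), (nat_lit 713))], ((nat_lit 100), (nat_lit 91), (nat_lit 64))⟩, (nat_lit 2351446), (nat_lit 507), (nat_lit 507), (nat_lit 0), (nat_lit 844094), [(nat_lit 3966048000), (nat_lit 6740928000), (nat_lit 10043712000)], [], [(nat_lit 27003286170), (nat_lit 28713773520), (nat_lit 30037617312), (nat_lit 31131511212), (nat_lit 31094530752), (nat_lit 31778404896), (nat_lit 32688501324), (nat_lit 33965561436)], (nat_lit 1271251), (nat_lit 1271251), (nat_lit 1271251), (nat_lit 1271251), (nat_lit 1271251), (nat_lit 1271251), [(nat_lit 1100000), (nat_lit 1785001), (nat_lit 1271251)], [(nat_lit 18), (nat_lit 59), (nat_lit 538), (nat_lit 300), (nat_lit 13)]⟩,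
 ⟨⟨[(nat_lit 140), (nat_lit 180), (nat_lit 200)], [(nat_lit 0), (nat_lit 0), (nat_lit 2835)], [((nat_lit 0), (nat_lit 0), (nat_lit 0)), ((nat_lit 0), (nat_lit 0), (nat_lit 0)), ((nat_lit 363), (nat_lit 1000), (nat_lit 798))], ((nat_lit 0), (nat_lit 0), (nat_lit 0))⟩, (nat_lit 86942), (nat_lit 300), (nat_lit 1099), (nat_lit 24679600), (nat_lit 1453021), [(nat_lit 3110072000), (nat_lit 4442328000), (nat_lit 5182400000)], [], [(nat_lit 21176613488), (nat_lit 20300973297), (nat_lit 18750526940), (nat_lit 21724519004), (nat_lit 20581065282), (nat_lit 19658275707), (nat_lit 16731209860), (nat_lit 15876625755)], (nat_lit 780000), (nat_lit 1271251), (nat_lit 230000), (nat_lit 1940626), (nat_lit 1271251), (nat_lit 1271251), [(nat_lit 1977501), (nat_lit 1271251), (nat_lit 1271251)], [(nat_lit 32), (nat_lit 67), (nat_lit 456), (nat_lit 225), (nat_lit 10)]⟩⟩) (.trX (nat_lit 3) (nat_lit 0) (nat_lit 1) (nat_lit 39) (nat_lit 72) (nat_lit 100) (nat_lit 370)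 (.trZ (nat_lit 0) (nat_lit 2) (nat_lit 4) (nat_lit 100) (nat_lit 34) (nat_lit 81) (nat_lit 60) (.trX (nat_lit 4) (nat_lit 0) (nat_lit 2) (nat_lit 31) (nat_lit 98) (nat_lit 100) (nat_lit 250) (.leaf ⟨(nat_lit 401), (nat_lit 381), (nat_lit 0), (nat_lit 218), (nat_lit 0), (nat_lit 3681), (nat_lit 4794), (nat_lit 2425), (nat_lit 0), (nat_lit 0), (nat_lit 160400), [((nat_lit 400), [((nat_lit 28), (nat_lit 1), (nat_lit 401))])], ⟨(nat_lit 7), false, true, true, (nat_lit 304), (nat_lit 0), (nat_lit 1582), [(nat_lit 1655899), (nat_lit 1649997), (nat_lit 1747842), (nat_lit 1748680), (nat_lit 1778825), (nat_lit 1762493), (nat_lit 1872089), (nat_lit 1862497)]⟩, ⟨(nat_lit 3), false, false, true, (nat_lit 152), (nat_lit 0), (nat_lit 1582), [(nat_lit 1213552), (nat_lit 1223038), (nat_lit 1281527), (nat_lit 1296068), (nat_lit 1475027), (nat_lit 1462493), (nat_lit 1544976), (nat_lit 1537497)]⟩, (nat_lit 5002665), (nat_lit 37349263), (nat_lit 22326402), (nat_lit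 7324335), (nat_lit 5), (nat_lit 0), [⟨(nat_lit 1), (nat_lit 88), (nat_lit 24), (nat_lit 100), (nat_lit 386493541)⟩], [⟨(nat_lit 0), (nat_lit 100), (nat_lit 23), (nat_lit 92), (nat_lit 127058253)⟩], [], [⟨(nat_lit 1), (nat_lit 81), (nat_lit 80), (nat_lit 100), (nat_lit 10284512)⟩],
 ⟨⟨[(nat_lit 40), (nat_lit 60)], [(nat_lit 0), (nat_lit 2136)], [((nat_lit 0), (nat_lit 0), (nat_lit 0)), ((nat_lit 1000), (nat_lit 343), (nat_lit 808))], ((nat_lit 37), (nat_lit 100), (nat_lit 75))⟩, (nat_lit 212265), (nat_lit 246), (nat_lit 246), (nat_lit 0), (nat_lit 516689), [(nat_lit 1636477292), (nat_lit 2096162800)], [(nat_lit 0), (nat_lit 0)], [(nat_lit 27158607336), (nat_lit 27674100168), (nat_lit 31565085864), (nat_lit 32171407850), (nat_lit 28917264551), (nat_lit 29318684920), (nat_lit 31777531487), (nat_lit 32251202189)], (nat_lit 1271251), (nat_lit 1271251), (nat_lit 1271251), (nat_lit 1271251), (nat_lit 356250), (nat_lit 1805001), [(nat_lit 490000),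 (nat_lit 780000)], [(nat_lit 1), (nat_lit 38), (nat_lit 289), (nat_lit 75), (nat_lit 15)]⟩,
 ⟨⟨[(nat_lit 80), (nat_lit 120), (nat_lit 160)], [(nat_lit 0), (nat_lit 0), (nat_lit 2132)], [((nat_lit 0), (nat_lit 0), (nat_lit 0)), ((nat_lit 0), (nat_lit 0), (nat_lit 0)), ((nat_lit 858), (nat_lit 1000), (nat_lit 713))], ((nat_lit 100), (nat_lit 91), (nat_lit 64))⟩, (nat_lit 1666028), (nat_lit 542), (nat_lit 542), (nat_lit 0), (nat_lit 932796), [(nat_lit 2808112000), (nat_lit 4772832000), (nat_lit 7111328000)], [], [(nat_lit 18943408443), (nat_lit 20156877511), (nat_lit 20857258987), (nat_lit 21674866587), (nat_lit 21845132688), (nat_lit 22324513784), (nat_lit 22834370995), (nat_lit 23822868166)], (nat_lit 1271251), (nat_lit 1271251), (nat_lit 1271251), (nat_lit 1271251), (nat_lit 1271251), (nat_lit 1271251), [(nat_lit 1100000), (nat_lit 1785001), (nat_lit 1271251)], [(nat_lit 18), (nat_lit 59), (nat_lit 538), (nat_lit 300), (nat_lit 13)]⟩,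
 ⟨⟨[(nat_lit 140), (nat_lit 180), (nat_lit 200)], [(nat_lit 0), (nat_lit 0), (nat_lit 2835)], [((nat_lit 0), (nat_lit 0), (nat_lit 0)), ((nat_lit 0), (nat_lit 0), (nat_lit 0)), ((nat_lit 363), (nat_lit 1000), (nat_lit 798))], ((nat_lit 0), (nat_lit 0), (nat_lit 0))⟩, (nat_lit 59979), (nat_lit 300), (nat_lit 1125), (nat_lit 17025800), (nat_lit 1549828), [(nat_lit 2145556000), (nat_lit 3064644000), (nat_lit 3575200000)], [], [(nat_lit 15230920933), (nat_lit 14681849750), (nat_lit 13399464839), (nat_lit 14306502185), (nat_lit 14356563943), (nat_lit 13782766874), (nat_lit 12436142398), (nat_lit 11872260945)], (nat_lit 780000), (nat_lit 1271251), (nat_lit 356250), (nat_lit 1805001), (nat_lit 1271251), (nat_lit 1271251), [(nat_lit 1977501), (nat_lit 1271251), (nat_lit 1271251)], [(nat_lit 32), (nat_lit 67), (nat_lit 456), (nat_lit 225), (nat_lit 10)]⟩⟩))))))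
noncomputable def c14_34 : Tr Lf :=
 (.spl (nat_lit 1) (nat_lit 280) (.spl (nat_lit 2) (nat_lit 200) (.leaf ⟨(nat_lit 990), (nat_lit 5), (nat_lit 0), (nat_lit 5), (nat_lit 0), (nat_lit 3188), (nat_lit 98), (nat_lit 71), (nat_lit 0), (nat_lit 0), (nat_lit 247500), [((nat_lit 400), [((nat_lit 28), (nat_lit 0), (nat_lit 990))])], ⟨(nat_lit 6), false, false, false, (nat_lit 236), (nat_lit 0), (nat_lit 2237), [(nat_lit 1470123), (nat_lit 1483344), (nat_lit 1513819), (nat_lit 1531491), (nat_lit 1659577), (nat_lit 1649997), (nat_lit 1705063), (nat_lit 1699935)]⟩, ⟨(nat_lit 4), false, false, false, (nat_lit 165), (nat_lit 0), (nat_lit 2237), [(nat_lit 1316293), (nat_lit 1333360), (nat_lit 1338140), (nat_lit 1357433), (nat_lit 1477224), (nat_lit 1474999), (nat_lit 1499999), (nat_lit 1499999)]⟩, (nat_lit 4856581), (nat_lit 42080844), (nat_lit 15902971), (nat_lit 9016185), (nat_lit 4), (nat_lit 0), [], [], [], [],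
 ⟨⟨[(nat_lit 40), (nat_lit 60)], [(nat_lit 0), (nat_lit 1539)], [((nat_lit 0), (nat_lit 0), (nat_lit 0)), ((nat_lit 1000), (nat_lit 478), (nat_lit 704))], ((nat_lit 48), (nat_lit 100), (nat_lit 69))⟩, (nat_lit 0), (nat_lit 78), (nat_lit 78), (nat_lit 0), (nat_lit 0), [(nat_lit 1565548001), (nat_lit 1068360000)], [(nat_lit 0), (nat_lit 0)], [(nat_lit 20655411236), (nat_lit 22404376982), (nat_lit 24796311503), (nat_lit 26203136367), (nat_lit 22508277350), (nat_lit 23871943546), (nat_lit 26037888722), (nat_lit 27127607988)], (nat_lit 0), (nat_lit 0), (nat_lit 0), (nat_lit 0), (nat_lit 0), (nat_lit 0), [], [(nat_lit 1), (nat_lit 38), (nat_lit 260), (nat_lit 50), (nat_lit 14)]⟩,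
 ⟨⟨[(nat_lit 80), (nat_lit 120), (nat_lit 160)], [(nat_lit 0), (nat_lit 0), (nat_lit 2132)], [((nat_lit 0), (nat_lit 0), (nat_lit 0)), ((nat_lit 0), (nat_lit 0), (nat_lit 0)), ((nat_lit 858), (nat_lit 1000), (nat_lit 713))], ((nat_lit 100), (nat_lit 91), (nat_lit 64))⟩, (nat_lit 16571), (nat_lit 1116), (nat_lit 1116), (nat_lit 0), (nat_lit 1785210), [(nat_lit 46880000), (nat_lit 79680000), (nat_lit 118720000)], [], [(nat_lit 469619293), (nat_lit 390988504), (nat_lit 374738312), (nat_lit 372563222), (nat_lit 564625685), (nat_lit 479456678), (nat_lit 354875216), (nat_lit 363280726)], (nat_lit 1271251), (nat_lit 1271251), (nat_lit 1271251), (nat_lit 1271251), (nat_lit 0), (nat_lit 2825001), [(nat_lit 1100000), (nat_lit 1785001), (nat_lit 1271251)], [(nat_lit 18), (nat_lit 59), (nat_lit 483), (nat_lit 250), (nat_lit 12)]⟩,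
 ⟨⟨[(nat_lit 120), (nat_lit 160), (nat_lit 180)], [(nat_lit 0), (nat_lit 533), (nat_lit 2066)], [((nat_lit 0), (nat_lit 0), (nat_lit 0)), ((nat_lit 960), (nat_lit 1000), (nat_lit 200)), ((nat_lit 615), (nat_lit 1000), (nat_lit 729))], ((nat_lit 100), (nat_lit 72), (nat_lit 63))⟩, (nat_lit 11120), (nat_lit 300), (nat_lit 1549), (nat_lit 333957), (nat_lit 2457263), [(nat_lit 39840000), (nat_lit 59360000), (nat_lit 70290000)], [], [(nat_lit 286120375), (nat_lit 277107314), (nat_lit 245185354), (nat_lit 242618285), (nat_lit 315761050), (nat_lit 283503061), (nat_lit 404922524), (nat_lit 373777238)], (nat_lit 1271251), (nat_lit 1271251), (nat_lit 559688), (nat_lit 1429376), (nat_lit 0), (nat_lit 2825001), [(nat_lit 1695001), (nat_lit 1271251), (nat_lit 1271251)], [(nat_lit 28), (nat_lit 65), (nat_lit 488), (nat_lit 200), (nat_lit 12)]⟩⟩) (.trZ (nat_lit 0) (nat_lit 2) (nat_lit 4) (nat_lit 100) (nat_lit 44) (nat_lit 90) (nat_lit 110) (.leaf ⟨(nat_lit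 957), (nat_lit 17), (nat_lit 0), (nat_lit 26), (nat_lit 0), (nat_lit 3197), (nat_lit 432), (nat_lit 377), (nat_lit 0), (nat_lit 0), (nat_lit 239250), [((nat_lit 400), [((nat_lit 28), (nat_lit 0), (nat_lit 957))])], ⟨(nat_lit 6), false, false, false, (nat_lit 236), (nat_lit 0), (nat_lit 2237), [(nat_lit 1470123), (nat_lit 1483344), (nat_lit 1513819), (nat_lit 1531491), (nat_lit 1659577), (nat_lit 1649997), (nat_lit 1705063), (nat_lit 1699935)]⟩, ⟨(nat_lit 5), false, false, false, (nat_lit 180), (nat_lit 0), (nat_lit 2237), [(nat_lit 1367570), (nat_lit 1383355), (nat_lit 1389417), (nat_lit 1407428), (nat_lit 1499999), (nat_lit 1499999), (nat_lit 1521847), (nat_lit 1524073)]⟩, (nat_lit 4984385), (nat_lit 41148633), (nat_lit 15676794), (nat_lit 10174573), (nat_lit 5), (nat_lit 0), [], [], [⟨(nat_lit 0), (nat_lit 100), (nat_lit 92), (nat_lit 49), (nat_lit 7319927)⟩], [],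
 ⟨⟨[(nat_lit 40), (nat_lit 60)], [(nat_lit 0), (nat_lit 1539)], [((nat_lit 0), (nat_lit 0), (nat_lit 0)), ((nat_lit 1000), (nat_lit 478), (nat_lit 704))], ((nat_lit 48), (nat_lit 100), (nat_lit 69))⟩, (nat_lit 0), (nat_lit 73), (nat_lit 73), (nat_lit 0), (nat_lit 0), [(nat_lit 1573296401), (nat_lit 1142148000)], [(nat_lit 0), (nat_lit 0)], [(nat_lit 20883697154), (nat_lit 22521951236), (nat_lit 24884534144), (nat_lit 26260314856), (nat_lit 22516317511), (nat_lit 23881831326), (nat_lit 26046692357), (nat_lit 27137342397)], (nat_lit 0), (nat_lit 0), (nat_lit 0), (nat_lit 0), (nat_lit 0), (nat_lit 0), [], [(nat_lit 1), (nat_lit 38), (nat_lit 260), (nat_lit 50), (nat_lit 13)]⟩,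
 ⟨⟨[(nat_lit 80), (nat_lit 120), (nat_lit 160)], [(nat_lit 0), (nat_lit 0), (nat_lit 2132)], [((nat_lit 0), (nat_lit 0), (nat_lit 0)), ((nat_lit 0), (nat_lit 0), (nat_lit 0)), ((nat_lit 858), (nat_lit 1000), (nat_lit 713))], ((nat_lit 100), (nat_lit 91), (nat_lit 64))⟩, (nat_lit 106895), (nat_lit 1126), (nat_lit 1126), (nat_lit 0), (nat_lit 1805381), [(nat_lit 201584000), (nat_lit 342624000), (nat_lit 510496000)], [], [(nat_lit 2038384432), (nat_lit 1600532200), (nat_lit 1532879240), (nat_lit 1522684819), (nat_lit 2438326596), (nat_lit 2062887708), (nat_lit 1501990654), (nat_lit 1573639890)], (nat_lit 1271251), (nat_lit 1271251), (nat_lit 1271251), (nat_lit 1271251), (nat_lit 0), (nat_lit 2825001), [(nat_lit 1100000), (nat_lit 1785001), (nat_lit 1271251)], [(nat_lit 18), (nat_lit 59), (nat_lit 483), (nat_lit 250), (nat_lit 12)]⟩,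
 ⟨⟨[(nat_lit 100), (nat_lit 140), (nat_lit 180)], [(nat_lit 0), (nat_lit 0), (nat_lit 2434)], [((nat_lit 0), (nat_lit 0), (nat_lit 0)), ((nat_lit 0), (nat_lit 0), (nat_lit 0)), ((nat_lit 726), (nat_lit 1000), (nat_lit 688))], ((nat_lit 100), (nat_lit 78), (nat_lit 63))⟩, (nat_lit 14998), (nat_lit 300), (nat_lit 1307), (nat_lit 1827800), (nat_lit 1976183), [(nat_lit 162500000), (nat_lit 255892000), (nat_lit 365508000)], [], [(nat_lit 1526158514), (nat_lit 1395040360), (nat_lit 1298675300), (nat_lit 1285158030), (nat_lit 1233790961), (nat_lit 1151668379), (nat_lit 1633383869), (nat_lit 1463740844)], (nat_lit 1271251), (nat_lit 1271251), (nat_lit 704688), (nat_lit 1433125), (nat_lit 0), (nat_lit 2825001), [(nat_lit 1412501), (nat_lit 1271251), (nat_lit 1271251)], [(nat_lit 24), (nat_lit 63), (nat_lit 456), (nat_lit 225), (nat_lit 11)]⟩⟩))) (.trZ (nat_lit 0) (nat_lit 1) (nat_lit 3) (nat_lit 92) (nat_lit 44) (nat_lit 100) (nat_lit 190) (.spl (nat_lit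 1) (nat_lit 300) (.leaf ⟨(nat_lit 922), (nat_lit 42), (nat_lit 0), (nat_lit 36), (nat_lit 0), (nat_lit 3207), (nat_lit 691), (nat_lit 413), (nat_lit 0), (nat_lit 0), (nat_lit 230500), [((nat_lit 400), [((nat_lit 28), (nat_lit 0), (nat_lit 922))])], ⟨(nat_lit 7), false, true, false, (nat_lit 261), (nat_lit 0), (nat_lit 2237), [(nat_lit 1572676), (nat_lit 1583333), (nat_lit 1594524), (nat_lit 1607407), (nat_lit 1705063), (nat_lit 1699935), (nat_lit 1726954), (nat_lit 1724051)]⟩, ⟨(nat_lit 4), false, false, false, (nat_lit 169), (nat_lit 0), (nat_lit 2237), [(nat_lit 1316293), (nat_lit 1333360), (nat_lit 1359989), (nat_lit 1381507), (nat_lit 1477224), (nat_lit 1474999), (nat_lit 1521847), (nat_lit 1524073)]⟩, (nat_lit 5022042), (nat_lit 39821203), (nat_lit 18089926), (nat_lit 9088871), (nat_lit 4), (nat_lit 0), [], [], [], [],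
 ⟨⟨[(nat_lit 40), (nat_lit 60)], [(nat_lit 0), (nat_lit 1539)], [((nat_lit 0), (nat_lit 0), (nat_lit 0)), ((nat_lit 1000), (nat_lit 478), (nat_lit 704))], ((nat_lit 48), (nat_lit 100), (nat_lit 69))⟩, (nat_lit 0), (nat_lit 78), (nat_lit 78), (nat_lit 0), (nat_lit 0), [(nat_lit 1581514412), (nat_lit 1220408000)], [(nat_lit 0), (nat_lit 0)], [(nat_lit 21656841314), (nat_lit 23266253608), (nat_lit 24821459305), (nat_lit 26232257720), (nat_lit 23371479927), (nat_lit 24657694573), (nat_lit 26055691529), (nat_lit 27148158407)], (nat_lit 0), (nat_lit 0), (nat_lit 0), (nat_lit 0), (nat_lit 0), (nat_lit 0), [], [(nat_lit 1), (nat_lit 38), (nat_lit 260), (nat_lit 50), (nat_lit 13)]⟩,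
 ⟨⟨[(nat_lit 60), (nat_lit 100), (nat_lit 140)], [(nat_lit 0), (nat_lit 0), (nat_lit 2047)], [((nat_lit 0), (nat_lit 0), (nat_lit 0)), ((nat_lit 0), (nat_lit 0), (nat_lit 0)), ((nat_lit 1000), (nat_lit 993), (nat_lit 781))], ((nat_lit 95), (nat_lit 100), (nat_lit 65))⟩, (nat_lit 148938), (nat_lit 872), (nat_lit 872), (nat_lit 0), (nat_lit 1470914), [(nat_lit 255996000), (nat_lit 487500000), (nat_lit 767676000)], [], [(nat_lit 2492865263), (nat_lit 2511752325), (nat_lit 2513026213), (nat_lit 2531267197), (nat_lit 2892857081), (nat_lit 2666800542), (nat_lit 2753730683), (nat_lit 2815819928)], (nat_lit 1271251), (nat_lit 1271251), (nat_lit 1271251), (nat_lit 1271251), (nat_lit 0), (nat_lit 2825001), [(nat_lit 780000), (nat_lit 1435001), (nat_lit 1271251)], [(nat_lit 11), (nat_lit 55), (nat_lit 401), (nat_lit 175), (nat_lit 11)]⟩,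
 ⟨⟨[(nat_lit 120), (nat_lit 160), (nat_lit 180)], [(nat_lit 0), (nat_lit 533), (nat_lit 2066)], [((nat_lit 0), (nat_lit 0), (nat_lit 0)), ((nat_lit 960), (nat_lit 1000), (nat_lit 200)), ((nat_lit 615), (nat_lit 1000), (nat_lit 729))], ((nat_lit 100), (nat_lit 72), (nat_lit 63))⟩, (nat_lit 84293), (nat_lit 300), (nat_lit 1622), (nat_lit 2390400), (nat_lit 2606371), [(nat_lit 286848000), (nat_lit 427392000), (nat_lit 506088000)], [], [(nat_lit 2079363739), (nat_lit 2043638950), (nat_lit 1921095500), (nat_lit 1883258455), (nat_lit 2156245343), (nat_lit 1780962258), (nat_lit 2698946132), (nat_lit 2336608016)], (nat_lit 1271251), (nat_lit 1271251), (nat_lit 559688), (nat_lit 1429376), (nat_lit 0), (nat_lit 2825001), [(nat_lit 1695001), (nat_lit 1271251), (nat_lit 1271251)], [(nat_lit 28), (nat_lit 65), (nat_lit 508), (nat_lit 225), (nat_lit 12)]⟩⟩) (.trZ (nat_lit 0) (nat_lit 1) (nat_lit 3) (nat_lit 87) (nat_lit 44) (nat_lit 100) (nat_lit 210) (.trZ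 (nat_lit 1) (nat_lit 2) (nat_lit 5) (nat_lit 100) (nat_lit 87) (nat_lit 41) (nat_lit 10) (.trX (nat_lit 5) (nat_lit 1) (nat_lit 2) (nat_lit 87) (nat_lit 41) (nat_lit 100) (nat_lit 390) (.leaf ⟨(nat_lit 730), (nat_lit 185), (nat_lit 0), (nat_lit 85), (nat_lit 0), (nat_lit 3187), (nat_lit 1587), (nat_lit 794), (nat_lit 0), (nat_lit 0), (nat_lit 235900), [((nat_lit 400), [((nat_lit 28), (nat_lit 0), (nat_lit 374)), ((nat_lit 28), (nat_lit 1), (nat_lit 356))])], ⟨(nat_lit 7), false, true, false, (nat_lit 275), (nat_lit 0), (nat_lit 2237), [(nat_lit 1623954), (nat_lit 1633328), (nat_lit 1645800), (nat_lit 1657401), (nat_lit 1726954), (nat_lit 1724051), (nat_lit 1748802), (nat_lit 1748125)]⟩, ⟨(nat_lit 4), false, false, false, (nat_lit 169), (nat_lit 0), (nat_lit 2237), [(nat_lit 1316293), (nat_lit 1333360), (nat_lit 1359989), (nat_lit 1381507), (nat_lit 1477224), (nat_lit 1474999), (nat_lit 1521847), (nat_lit 1524073)]⟩, (nat_lit 5078312), (nat_lit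 38677772), (nat_lit 19409694), (nat_lit 8912534), (nat_lit 4), (nat_lit 0), [⟨(nat_lit 0), (nat_lit 87), (nat_lit 32), (nat_lit 100), (nat_lit 344379569)⟩], [], [], [],
 ⟨⟨[(nat_lit 40), (nat_lit 60)], [(nat_lit 0), (nat_lit 1539)], [((nat_lit 0), (nat_lit 0), (nat_lit 0)), ((nat_lit 1000), (nat_lit 478), (nat_lit 704))], ((nat_lit 48), (nat_lit 100), (nat_lit 69))⟩, (nat_lit 0), (nat_lit 78), (nat_lit 78), (nat_lit 0), (nat_lit 0), [(nat_lit 1566788002), (nat_lit 1392972800)], [(nat_lit 0), (nat_lit 0)], [(nat_lit 22238175688), (nat_lit 23765122196), (nat_lit 24794987935), (nat_lit 26201603665), (nat_lit 23859669322), (nat_lit 25100194741), (nat_lit 26041112409), (nat_lit 27129888918)], (nat_lit 0), (nat_lit 0), (nat_lit 0), (nat_lit 0), (nat_lit 0), (nat_lit 0), [], [(nat_lit 1), (nat_lit 38), (nat_lit 260), (nat_lit 50), (nat_lit 13)]⟩,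
 ⟨⟨[(nat_lit 60), (nat_lit 100), (nat_lit 120)], [(nat_lit 0), (nat_lit 609), (nat_lit 1609)], [((nat_lit 0), (nat_lit 0), (nat_lit 0)), ((nat_lit 1000), (nat_lit 905), (nat_lit 238)), ((nat_lit 1000), (nat_lit 882), (nat_lit 668))], ((nat_lit 88), (nat_lit 100), (nat_lit 63))⟩, (nat_lit 1381814), (nat_lit 745), (nat_lit 745), (nat_lit 0), (nat_lit 1380773), [(nat_lit 886140000), (nat_lit 1687500000), (nat_lit 2151360000)], [], [(nat_lit 8001562297), (nat_lit 8123217297), (nat_lit 8274763089), (nat_lit 8394118599), (nat_lit 8631006827), (nat_lit 8715138731), (nat_lit 8796822157), (nat_lit 8866599327)], (nat_lit 1271251), (nat_lit 1271251), (nat_lit 1271251), (nat_lit 1271251), (nat_lit 54688), (nat_lit 2774063), [(nat_lit 780000), (nat_lit 1435001), (nat_lit 1271251)], [(nat_lit 10), (nat_lit 54), (nat_lit 401), (nat_lit 175), (nat_lit 13)]⟩,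
 ⟨⟨[(nat_lit 120), (nat_lit 160), (nat_lit 180)], [(nat_lit 0), (nat_lit 533), (nat_lit 2066)], [((nat_lit 0), (nat_lit 0), (nat_lit 0)), ((nat_lit 960), (nat_lit 1000), (nat_lit 200)), ((nat_lit 615), (nat_lit 1000), (nat_lit 729))], ((nat_lit 100), (nat_lit 72), (nat_lit 63))⟩, (nat_lit 199024), (nat_lit 300), (nat_lit 1698), (nat_lit 5644002), (nat_lit 2784697), [(nat_lit 677280000), (nat_lit 1009120000), (nat_lit 1194930000)], [], [(nat_lit 5849392213), (nat_lit 5755761613), (nat_lit 5552597071), (nat_lit 5459256256), (nat_lit 4916548871), (nat_lit 4822614680), (nat_lit 5971586521), (nat_lit 5272738786)], (nat_lit 1271251), (nat_lit 1271251), (nat_lit 559688), (nat_lit 1429376), (nat_lit 54688), (nat_lit 2774063), [(nat_lit 1695001), (nat_lit 1271251), (nat_lit 1271251)], [(nat_lit 28), (nat_lit 65), (nat_lit 526), (nat_lit 225), (nat_lit 12)]⟩⟩)))))))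
noncomputable def c14_35 : Tr Lf :=
 (.stt (nat_lit 3) (.leaf ⟨(nat_lit 288), (nat_lit 0), (nat_lit 458), (nat_lit 254), (nat_lit 0), (nat_lit 3327), (nat_lit 2251), (nat_lit 9248), (nat_lit 0), (nat_lit 0), (nat_lit 115200), [((nat_lit 400), [((nat_lit 28), (nat_lit 1), (nat_lit 288))])], ⟨(nat_lit 6), false, false, false, (nat_lit 236), (nat_lit 0), (nat_lit 2237), [(nat_lit 1470123), (nat_lit 1483344), (nat_lit 1513819), (nat_lit 1531491), (nat_lit 1659577), (nat_lit 1649997), (nat_lit 1705063), (nat_lit 1699935)]⟩, ⟨(nat_lit 5), true, false, true, (nat_lit 229), (nat_lit 0), (nat_lit 2237), [(nat_lit 1477224), (nat_lit 1474999), (nat_lit 1521847), (nat_lit 1524073), (nat_lit 1634011), (nat_lit 1612493), (nat_lit 1679562), (nat_lit 1662495)]⟩, (nat_lit 5321173), (nat_lit 37973661), (nat_lit 14831603), (nat_lit 14194736), (nat_lit 0), (nat_lit 6), [], [⟨(nat_lit 1), (nat_lit 95), (nat_lit 31), (nat_lit 100), (nat_lit 223880755)⟩], [], [],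
 ⟨⟨[(nat_lit 40), (nat_lit 60)], [(nat_lit 0), (nat_lit 1539)], [((nat_lit 0), (nat_lit 0), (nat_lit 0)), ((nat_lit 1000), (nat_lit 478), (nat_lit 704))], ((nat_lit 48), (nat_lit 100), (nat_lit 69))⟩, (nat_lit 478616), (nat_lit 68), (nat_lit 68), (nat_lit 0), (nat_lit 0), [(nat_lit 1681993604), (nat_lit 2430326400)], [(nat_lit 0), (nat_lit 0)], [(nat_lit 22806301810), (nat_lit 24134951571), (nat_lit 26216782037), (nat_lit 27278614312), (nat_lit 26478910022), (nat_lit 27677864109), (nat_lit 29223525942), (nat_lit 30220151611)], (nat_lit 0), (nat_lit 0), (nat_lit 0), (nat_lit 0), (nat_lit 0), (nat_lit 0), [], [(nat_lit 1), (nat_lit 38), (nat_lit 203), (nat_lit 0), (nat_lit 9)]⟩,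
 ⟨⟨[(nat_lit 80), (nat_lit 120), (nat_lit 160)], [(nat_lit 0), (nat_lit 0), (nat_lit 2132)], [((nat_lit 0), (nat_lit 0), (nat_lit 0)), ((nat_lit 0), (nat_lit 0), (nat_lit 0)), ((nat_lit 858), (nat_lit 1000), (nat_lit 713))], ((nat_lit 100), (nat_lit 91), (nat_lit 64))⟩, (nat_lit 430989), (nat_lit 1127), (nat_lit 1127), (nat_lit 0), (nat_lit 1807649), [(nat_lit 1190752000), (nat_lit 2023872000), (nat_lit 3015488000)], [], [(nat_lit 11670691065), (nat_lit 11642283664), (nat_lit 11282354616), (nat_lit 11245943752), (nat_lit 14106974376), (nat_lit 12150694429), (nat_lit 9467781660), (nat_lit 9359991189)], (nat_lit 1271251), (nat_lit 1271251), (nat_lit 1271251), (nat_lit 1271251), (nat_lit 0), (nat_lit 2825001), [(nat_lit 1100000), (nat_lit 1785001), (nat_lit 1271251)], [(nat_lit 18), (nat_lit 59), (nat_lit 483), (nat_lit 250), (nat_lit 12)]⟩,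
 ⟨⟨[(nat_lit 120), (nat_lit 160), (nat_lit 180)], [(nat_lit 0), (nat_lit 533), (nat_lit 2066)], [((nat_lit 0), (nat_lit 0), (nat_lit 0)), ((nat_lit 960), (nat_lit 1000), (nat_lit 200)), ((nat_lit 615), (nat_lit 1000), (nat_lit 729))], ((nat_lit 100), (nat_lit 72), (nat_lit 63))⟩, (nat_lit 4297948), (nat_lit 292), (nat_lit 292), (nat_lit 0), (nat_lit 0), [(nat_lit 5673216000), (nat_lit 8452864000), (nat_lit 10009296000)], [], [(nat_lit 20129434476), (nat_lit 21500721428), (nat_lit 26594956105), (nat_lit 27248707755), (nat_lit 24452497512), (nat_lit 24863743912), (nat_lit 28173548770), (nat_lit 28182167342)], (nat_lit 0), (nat_lit 0), (nat_lit 0), (nat_lit 0), (nat_lit 0), (nat_lit 0), [], [(nat_lit 28), (nat_lit 65), (nat_lit 483), (nat_lit 250), (nat_lit 11)]⟩⟩) (.spl (nat_lit 4) (nat_lit 240) (.spl (nat_lit 3) (nat_lit 200) (.leaf ⟨(nat_lit 929), (nat_lit 33), (nat_lit 0), (nat_lit 38), (nat_lit 0), (nat_lit 3350), (nat_lit 769), (nat_lit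 458), (nat_lit 0), (nat_lit 0), (nat_lit 232250), [((nat_lit 400), [((nat_lit 28), (nat_lit 0), (nat_lit 929))])], ⟨(nat_lit 6), false, false, false, (nat_lit 214), (nat_lit 0), (nat_lit 2237), [(nat_lit 1470123), (nat_lit 1483344), (nat_lit 1513819), (nat_lit 1531491), (nat_lit 1543695), (nat_lit 1548146), (nat_lit 1587391), (nat_lit 1596294)]⟩, ⟨(nat_lit 5), false, true, true, (nat_lit 211), (nat_lit 0), (nat_lit 2237), [(nat_lit 1477224), (nat_lit 1474999), (nat_lit 1521847), (nat_lit 1524073), (nat_lit 1534237), (nat_lit 1524996), (nat_lit 1579788), (nat_lit 1574999)]⟩, (nat_lit 5081466), (nat_lit 40709787), (nat_lit 13298862), (nat_lit 12991351), (nat_lit 5), (nat_lit 0), [⟨(nat_lit 0), (nat_lit 95), (nat_lit 31), (nat_lit 100), (nat_lit 74118235)⟩, ⟨(nat_lit 0), (nat_lit 100), (nat_lit 44), (nat_lit 99), (nat_lit 129464498)⟩], [], [], [],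
 ⟨⟨[(nat_lit 40), (nat_lit 60)], [(nat_lit 0), (nat_lit 1539)], [((nat_lit 0), (nat_lit 0), (nat_lit 0)), ((nat_lit 1000), (nat_lit 478), (nat_lit 704))], ((nat_lit 48), (nat_lit 100), (nat_lit 69))⟩, (nat_lit 0), (nat_lit 57), (nat_lit 57), (nat_lit 0), (nat_lit 0), [(nat_lit 1579870977), (nat_lit 1204756000)], [(nat_lit 0), (nat_lit 0)], [(nat_lit 22402703801), (nat_lit 23954742163), (nat_lit 23495224629), (nat_lit 24918659550), (nat_lit 23499751144), (nat_lit 24959499625), (nat_lit 24496881400), (nat_lit 25844974700)], (nat_lit 0), (nat_lit 0), (nat_lit 0), (nat_lit 0), (nat_lit 0), (nat_lit 0), [], [(nat_lit 1), (nat_lit 38), (nat_lit 203), (nat_lit 0), (nat_lit 9)]⟩,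
 ⟨⟨[(nat_lit 80), (nat_lit 120), (nat_lit 160)], [(nat_lit 0), (nat_lit 0), (nat_lit 2132)], [((nat_lit 0), (nat_lit 0), (nat_lit 0)), ((nat_lit 0), (nat_lit 0), (nat_lit 0)), ((nat_lit 858), (nat_lit 1000), (nat_lit 713))], ((nat_lit 100), (nat_lit 91), (nat_lit 64))⟩, (nat_lit 197711), (nat_lit 915), (nat_lit 915), (nat_lit 0), (nat_lit 1378029), [(nat_lit 332848000), (nat_lit 565728000), (nat_lit 842912000)], [], [(nat_lit 3465652807), (nat_lit 2655420757), (nat_lit 2450497060), (nat_lit 2226233467), (nat_lit 3227259195), (nat_lit 2558943211), (nat_lit 3813027814), (nat_lit 3154873012)], (nat_lit 1271251), (nat_lit 1271251), (nat_lit 1017188), (nat_lit 1440626), (nat_lit 0), (nat_lit 2825001), [(nat_lit 1100000), (nat_lit 1785001), (nat_lit 1271251)], [(nat_lit 18), (nat_lit 59), (nat_lit 456), (nat_lit 225), (nat_lit 12)]⟩,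
 ⟨⟨[(nat_lit 120), (nat_lit 160), (nat_lit 180)], [(nat_lit 0), (nat_lit 533), (nat_lit 2066)], [((nat_lit 0), (nat_lit 0), (nat_lit 0)), ((nat_lit 960), (nat_lit 1000), (nat_lit 200)), ((nat_lit 615), (nat_lit 1000), (nat_lit 729))], ((nat_lit 100), (nat_lit 72), (nat_lit 63))⟩, (nat_lit 88975), (nat_lit 300), (nat_lit 1494), (nat_lit 2523203), (nat_lit 2457263), [(nat_lit 302784000), (nat_lit 451136000), (nat_lit 534204000)], [], [(nat_lit 1978042673), (nat_lit 1948967987), (nat_lit 1950195432), (nat_lit 1918665856), (nat_lit 2583792232), (nat_lit 2181974176), (nat_lit 2179451970), (nat_lit 1782678326)], (nat_lit 1271251), (nat_lit 1271251), (nat_lit 1271251), (nat_lit 1271251), (nat_lit 0), (nat_lit 2825001), [(nat_lit 1695001), (nat_lit 1271251), (nat_lit 1271251)], [(nat_lit 28), (nat_lit 65), (nat_lit 481), (nat_lit 225), (nat_lit 11)]⟩⟩) (.leaf ⟨(nat_lit 933), (nat_lit 31), (nat_lit 0), (nat_lit 36), (nat_lit 0), (nat_lit 3201), (nat_lit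 698), (nat_lit 427), (nat_lit 0), (nat_lit 0), (nat_lit 233250), [((nat_lit 400), [((nat_lit 28), (nat_lit 0), (nat_lit 933))])], ⟨(nat_lit 6), false, true, false, (nat_lit 250), (nat_lit 0), (nat_lit 2237), [(nat_lit 1543695), (nat_lit 1548146), (nat_lit 1587391), (nat_lit 1596294), (nat_lit 1659577), (nat_lit 1649997), (nat_lit 1705063), (nat_lit 1699935)]⟩, ⟨(nat_lit 5), false, true, true, (nat_lit 211), (nat_lit 0), (nat_lit 2237), [(nat_lit 1477224), (nat_lit 1474999), (nat_lit 1521847), (nat_lit 1524073), (nat_lit 1534237), (nat_lit 1524996), (nat_lit 1579788), (nat_lit 1574999)]⟩, (nat_lit 5277747), (nat_lit 38212487), (nat_lit 16344774), (nat_lit 12442739), (nat_lit 5), (nat_lit 0), [], [], [], [⟨(nat_lit 0), (nat_lit 100), (nat_lit 94), (nat_lit 59), (nat_lit 6767484)⟩],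
 ⟨⟨[(nat_lit 40), (nat_lit 60)], [(nat_lit 0), (nat_lit 1539)], [((nat_lit 0), (nat_lit 0), (nat_lit 0)), ((nat_lit 1000), (nat_lit 478), (nat_lit 704))], ((nat_lit 48), (nat_lit 100), (nat_lit 69))⟩, (nat_lit 0), (nat_lit 57), (nat_lit 57), (nat_lit 0), (nat_lit 0), [(nat_lit 1578931636), (nat_lit 1195812000)], [(nat_lit 0), (nat_lit 0)], [(nat_lit 23621700433), (nat_lit 24885756907), (nat_lit 26054988087), (nat_lit 27145796094), (nat_lit 24622544416), (nat_lit 25802472048), (nat_lit 26888684233), (nat_lit 27910289556)], (nat_lit 0), (nat_lit 0), (nat_lit 0), (nat_lit 0), (nat_lit 0), (nat_lit 0), [], [(nat_lit 1), (nat_lit 38), (nat_lit 203), (nat_lit 0), (nat_lit 9)]⟩,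
 ⟨⟨[(nat_lit 80), (nat_lit 120), (nat_lit 160)], [(nat_lit 0), (nat_lit 0), (nat_lit 2132)], [((nat_lit 0), (nat_lit 0), (nat_lit 0)), ((nat_lit 0), (nat_lit 0), (nat_lit 0)), ((nat_lit 858), (nat_lit 1000), (nat_lit 713))], ((nat_lit 100), (nat_lit 91), (nat_lit 64))⟩, (nat_lit 235147), (nat_lit 896), (nat_lit 896), (nat_lit 0), (nat_lit 1378029), [(nat_lit 314096000), (nat_lit 533856000), (nat_lit 795424000)], [], [(nat_lit 2299311920), (nat_lit 2243197758), (nat_lit 2217655886), (nat_lit 2238373472), (nat_lit 2924568340), (nat_lit 2341481586), (nat_lit 2365829026), (nat_lit 2479023940)], (nat_lit 1271251), (nat_lit 1271251), (nat_lit 1271251), (nat_lit 1271251), (nat_lit 0), (nat_lit 2825001), [(nat_lit 1100000), (nat_lit 1785001), (nat_lit 1271251)], [(nat_lit 18), (nat_lit 59), (nat_lit 483), (nat_lit 250), (nat_lit 12)]⟩,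
 ⟨⟨[(nat_lit 120), (nat_lit 160), (nat_lit 180)], [(nat_lit 0), (nat_lit 533), (nat_lit 2066)], [((nat_lit 0), (nat_lit 0), (nat_lit 0)), ((nat_lit 960), (nat_lit 1000), (nat_lit 200)), ((nat_lit 615), (nat_lit 1000), (nat_lit 729))], ((nat_lit 100), (nat_lit 72), (nat_lit 63))⟩, (nat_lit 84294), (nat_lit 300), (nat_lit 1494), (nat_lit 2390400), (nat_lit 2457263), [(nat_lit 286848000), (nat_lit 427392000), (nat_lit 506088000)], [], [(nat_lit 1884298032), (nat_lit 1857593868), (nat_lit 1858742211), (nat_lit 1829741361), (nat_lit 2436963648), (nat_lit 2062342884), (nat_lit 2059991395), (nat_lit 1690073609)], (nat_lit 1271251), (nat_lit 1271251), (nat_lit 1271251), (nat_lit 1271251), (nat_lit 0), (nat_lit 2825001), [(nat_lit 1695001), (nat_lit 1271251), (nat_lit 1271251)], [(nat_lit 28), (nat_lit 65), (nat_lit 481), (nat_lit 225), (nat_lit 11)]⟩⟩)) (.spl (nat_lit 3) (nat_lit 200) (.spl (nat_lit 1) (nat_lit 260) (.leaf ⟨(nat_lit 941), (nat_lit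 11), (nat_lit 0), (nat_lit 48), (nat_lit 0), (nat_lit 3210), (nat_lit 639), (nat_lit 515), (nat_lit 0), (nat_lit 0), (nat_lit 235250), [((nat_lit 400), [((nat_lit 28), (nat_lit 0), (nat_lit 941))])], ⟨(nat_lit 6), false, false, false, (nat_lit 209), (nat_lit 0), (nat_lit 2237), [(nat_lit 1470123), (nat_lit 1483344), (nat_lit 1491970), (nat_lit 1507417), (nat_lit 1543695), (nat_lit 1548146), (nat_lit 1565543), (nat_lit 1572220)]⟩, ⟨(nat_lit 6), false, true, true, (nat_lit 240), (nat_lit 0), (nat_lit 2237), [(nat_lit 1534237), (nat_lit 1524996), (nat_lit 1579788), (nat_lit 1574999), (nat_lit 1634011), (nat_lit 1612493), (nat_lit 1679562), (nat_lit 1662495)]⟩, (nat_lit 5223778), (nat_lit 38957744), (nat_lit 12471039), (nat_lit 15571217), (nat_lit 6), (nat_lit 0), [⟨(nat_lit 0), (nat_lit 100), (nat_lit 44), (nat_lit 99), (nat_lit 92621556)⟩], [⟨(nat_lit 1), (nat_lit 86), (nat_lit 44), (nat_lit 100), (nat_lit 360105253)⟩], [⟨(nat_lit 0), (nat_lit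 100), (nat_lit 96), (nat_lit 40), (nat_lit 16738524)⟩], [],
 ⟨⟨[(nat_lit 40), (nat_lit 60)], [(nat_lit 0), (nat_lit 1539)], [((nat_lit 0), (nat_lit 0), (nat_lit 0)), ((nat_lit 1000), (nat_lit 478), (nat_lit 704))], ((nat_lit 48), (nat_lit 100), (nat_lit 69))⟩, (nat_lit 0), (nat_lit 68), (nat_lit 68), (nat_lit 0), (nat_lit 0), [(nat_lit 1577053211), (nat_lit 1177924000)], [(nat_lit 0), (nat_lit 0)], [(nat_lit 23600441731), (nat_lit 24875278587), (nat_lit 24611073162), (nat_lit 25792483382), (nat_lit 26302730333), (nat_lit 27527099306), (nat_lit 27119636755), (nat_lit 28233839203)], (nat_lit 0), (nat_lit 0), (nat_lit 0), (nat_lit 0), (nat_lit 0), (nat_lit 0), [], [(nat_lit 1), (nat_lit 38), (nat_lit 203), (nat_lit 0), (nat_lit 9)]⟩,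
 ⟨⟨[(nat_lit 80), (nat_lit 120), (nat_lit 160)], [(nat_lit 0), (nat_lit 0), (nat_lit 2132)], [((nat_lit 0), (nat_lit 0), (nat_lit 0)), ((nat_lit 0), (nat_lit 0), (nat_lit 0)), ((nat_lit 858), (nat_lit 1000), (nat_lit 713))], ((nat_lit 100), (nat_lit 91), (nat_lit 64))⟩, (nat_lit 0), (nat_lit 912), (nat_lit 912), (nat_lit 0), (nat_lit 1370537), [(nat_lit 276592000), (nat_lit 470112000), (nat_lit 700448000)], [], [(nat_lit 2879858122), (nat_lit 2543227251), (nat_lit 2127581840), (nat_lit 2153772403), (nat_lit 2681807830), (nat_lit 2404139486), (nat_lit 3168556250), (nat_lit 2895109619)], (nat_lit 1271251), (nat_lit 1271251), (nat_lit 1017188), (nat_lit 1440626), (nat_lit 0), (nat_lit 2825001), [(nat_lit 1100000), (nat_lit 1785001), (nat_lit 1271251)], [(nat_lit 18), (nat_lit 59), (nat_lit 456), (nat_lit 225), (nat_lit 12)]⟩,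
 ⟨⟨[(nat_lit 120), (nat_lit 160), (nat_lit 180)], [(nat_lit 0), (nat_lit 533), (nat_lit 2066)], [((nat_lit 0), (nat_lit 0), (nat_lit 0)), ((nat_lit 960), (nat_lit 1000), (nat_lit 200)), ((nat_lit 615), (nat_lit 1000), (nat_lit 729))], ((nat_lit 100), (nat_lit 72), (nat_lit 63))⟩, (nat_lit 112390), (nat_lit 300), (nat_lit 1416), (nat_lit 3187201), (nat_lit 2339264), [(nat_lit 382464000), (nat_lit 569856000), (nat_lit 674784000)], [], [(nat_lit 2623830830), (nat_lit 2576887258), (nat_lit 2598871251), (nat_lit 2547738154), (nat_lit 2709202955), (nat_lit 2263049185), (nat_lit 2070658945), (nat_lit 2026395302)], (nat_lit 1271251), (nat_lit 1271251), (nat_lit 1271251), (nat_lit 1271251), (nat_lit 0), (nat_lit 2825001), [(nat_lit 1695001), (nat_lit 1271251), (nat_lit 1271251)], [(nat_lit 28), (nat_lit 65), (nat_lit 483), (nat_lit 250), (nat_lit 11)]⟩⟩) (.trZ (nat_lit 0) (nat_lit 1) (nat_lit 3) (nat_lit 96) (nat_lit 44) (nat_lit 100) (nat_lit 170)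 (.leaf ⟨(nat_lit 887), (nat_lit 51), (nat_lit 0), (nat_lit 62), (nat_lit 0), (nat_lit 3241), (nat_lit 933), (nat_lit 664), (nat_lit 0), (nat_lit 0), (nat_lit 221750), [((nat_lit 400), [((nat_lit 28), (nat_lit 0), (nat_lit 887))])], ⟨(nat_lit 6), false, false, false, (nat_lit 224), (nat_lit 0), (nat_lit 2237), [(nat_lit 1521399), (nat_lit 1533338), (nat_lit 1543247), (nat_lit 1557412), (nat_lit 1565543), (nat_lit 1572220), (nat_lit 1587391), (nat_lit 1596294)]⟩, ⟨(nat_lit 6), false, true, true, (nat_lit 240), (nat_lit 0), (nat_lit 2237), [(nat_lit 1534237), (nat_lit 1524996), (nat_lit 1579788), (nat_lit 1574999), (nat_lit 1634011), (nat_lit 1612493), (nat_lit 1679562), (nat_lit 1662495)]⟩, (nat_lit 5313082), (nat_lit 38028523), (nat_lit 13667097), (nat_lit 15304380), (nat_lit 6), (nat_lit 0), [⟨(nat_lit 0), (nat_lit 96), (nat_lit 44), (nat_lit 100), (nat_lit 117501266)⟩], [⟨(nat_lit 1), (nat_lit 86), (nat_lit 44), (nat_lit 100), (nat_lit 346789109)⟩],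 [⟨(nat_lit 0), (nat_lit 100), (nat_lit 94), (nat_lit 35), (nat_lit 6724626)⟩], [],
 ⟨⟨[(nat_lit 40), (nat_lit 60)], [(nat_lit 0), (nat_lit 1539)], [((nat_lit 0), (nat_lit 0), (nat_lit 0)), ((nat_lit 1000), (nat_lit 478), (nat_lit 704))], ((nat_lit 48), (nat_lit 100), (nat_lit 69))⟩, (nat_lit 0), (nat_lit 64), (nat_lit 64), (nat_lit 0), (nat_lit 0), [(nat_lit 1589732476), (nat_lit 1298668000)], [(nat_lit 0), (nat_lit 0)], [(nat_lit 23915483109), (nat_lit 25160048199), (nat_lit 24609859856), (nat_lit 25796376768), (nat_lit 26552660955), (nat_lit 27748002196), (nat_lit 27128996181), (nat_lit 28269794251)], (nat_lit 0), (nat_lit 0), (nat_lit 0), (nat_lit 0), (nat_lit 0), (nat_lit 0), [], [(nat_lit 1), (nat_lit 38), (nat_lit 203), (nat_lit 0), (nat_lit 8)]⟩,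
 ⟨⟨[(nat_lit 80), (nat_lit 120), (nat_lit 140)], [(nat_lit 0), (nat_lit 528), (nat_lit 1572)], [((nat_lit 0), (nat_lit 0), (nat_lit 0)), ((nat_lit 1000), (nat_lit 959), (nat_lit 206)), ((nat_lit 966), (nat_lit 1000), (nat_lit 679))], ((nat_lit 100), (nat_lit 98), (nat_lit 66))⟩, (nat_lit 424541), (nat_lit 775), (nat_lit 775), (nat_lit 0), (nat_lit 1238520), [(nat_lit 529744000), (nat_lit 900384000), (nat_lit 1112146000)], [], [(nat_lit 4008690174), (nat_lit 3520892466), (nat_lit 3279695872), (nat_lit 3298548029), (nat_lit 4556880299), (nat_lit 4143751397), (nat_lit 5025648300), (nat_lit 4616372922)], (nat_lit 1271251), (nat_lit 1271251), (nat_lit 1184688), (nat_lit 1444376), (nat_lit 0), (nat_lit 2825001), [(nat_lit 1100000), (nat_lit 1785001), (nat_lit 1271251)], [(nat_lit 17), (nat_lit 58), (nat_lit 456), (nat_lit 225), (nat_lit 13)]⟩,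
 ⟨⟨[(nat_lit 120), (nat_lit 160), (nat_lit 180)], [(nat_lit 0), (nat_lit 533), (nat_lit 2066)], [((nat_lit 0), (nat_lit 0), (nat_lit 0)), ((nat_lit 960), (nat_lit 1000), (nat_lit 200)), ((nat_lit 615), (nat_lit 1000), (nat_lit 729))], ((nat_lit 100), (nat_lit 72), (nat_lit 63))⟩, (nat_lit 145171), (nat_lit 300), (nat_lit 1476), (nat_lit 4116800), (nat_lit 2457206), [(nat_lit 494016000), (nat_lit 736064000), (nat_lit 871596000)], [], [(nat_lit 3392906964), (nat_lit 3332448412), (nat_lit 3360853648), (nat_lit 3294991260), (nat_lit 3498554240), (nat_lit 2923319088), (nat_lit 2676623380), (nat_lit 2619625974)], (nat_lit 1271251), (nat_lit 1271251), (nat_lit 1271251), (nat_lit 1271251), (nat_lit 0), (nat_lit 2825001), [(nat_lit 1695001), (nat_lit 1271251), (nat_lit 1271251)], [(nat_lit 28), (nat_lit 65), (nat_lit 486), (nat_lit 250), (nat_lit 11)]⟩⟩))) (.spl (nat_lit 5) (nat_lit 120) (.spl (nat_lit 0) (nat_lit 390) (.leaf ⟨(nat_lit 904), (nat_lit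 36), (nat_lit 0), (nat_lit 60), (nat_lit 0), (nat_lit 3016), (nat_lit 1071), (nat_lit 666), (nat_lit 0), (nat_lit 0), (nat_lit 347650), [((nat_lit 390), [((nat_lit 28), (nat_lit 0), (nat_lit 93)), ((nat_lit 28), (nat_lit 1), (nat_lit 811))])], ⟨(nat_lit 6), false, true, false, (nat_lit 250), (nat_lit 1581), (nat_lit 2237), [(nat_lit 1545457), (nat_lit 1546538), (nat_lit 1590915), (nat_lit 1593078), (nat_lit 1659578), (nat_lit 1655900), (nat_lit 1705117), (nat_lit 1702521)]⟩, ⟨(nat_lit 6), false, true, true, (nat_lit 242), (nat_lit 1581), (nat_lit 2237), [(nat_lit 1534240), (nat_lit 1531319), (nat_lit 1579788), (nat_lit 1577949), (nat_lit 1634017), (nat_lit 1626932), (nat_lit 1679566), (nat_lit 1673562)]⟩, (nat_lit 5450974), (nat_lit 36278433), (nat_lit 15769995), (nat_lit 14951572), (nat_lit 6), (nat_lit 0), [], [⟨(nat_lit 1), (nat_lit 93), (nat_lit 38), (nat_lit 100), (nat_lit 247701217)⟩], [], [⟨(nat_lit 0), (nat_lit 95), (nat_lit 100), (nat_lit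 56), (nat_lit 80825940)⟩],
 ⟨⟨[(nat_lit 40), (nat_lit 60)], [(nat_lit 0), (nat_lit 1539)], [((nat_lit 0), (nat_lit 0), (nat_lit 0)), ((nat_lit 1000), (nat_lit 478), (nat_lit 704))], ((nat_lit 48), (nat_lit 100), (nat_lit 69))⟩, (nat_lit 0), (nat_lit 57), (nat_lit 57), (nat_lit 0), (nat_lit 0), [(nat_lit 1449492801), (nat_lit 675762800)], [(nat_lit 0), (nat_lit 0)], [(nat_lit 24522240606), (nat_lit 25096966712), (nat_lit 26772763278), (nat_lit 27271520312), (nat_lit 26992280794), (nat_lit 27492204025), (nat_lit 28909056469), (nat_lit 29387110973)], (nat_lit 0), (nat_lit 0), (nat_lit 0), (nat_lit 0), (nat_lit 0), (nat_lit 0), [], [(nat_lit 1), (nat_lit 38), (nat_lit 203), (nat_lit 0), (nat_lit 8)]⟩,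
 ⟨⟨[(nat_lit 80), (nat_lit 120), (nat_lit 160)], [(nat_lit 0), (nat_lit 0), (nat_lit 2132)], [((nat_lit 0), (nat_lit 0), (nat_lit 0)), ((nat_lit 0), (nat_lit 0), (nat_lit 0)), ((nat_lit 858), (nat_lit 1000), (nat_lit 713))], ((nat_lit 100), (nat_lit 91), (nat_lit 64))⟩, (nat_lit 448103), (nat_lit 830), (nat_lit 830), (nat_lit 0), (nat_lit 1207071), [(nat_lit 450048000), (nat_lit 764928000), (nat_lit 1139712000)], [], [(nat_lit 2810659602), (nat_lit 2879706657), (nat_lit 2882290146), (nat_lit 3010056881), (nat_lit 3145715604), (nat_lit 2269797407), (nat_lit 2243035305), (nat_lit 2315946498)], (nat_lit 1271251), (nat_lit 1271251), (nat_lit 1271251), (nat_lit 1271251), (nat_lit 0), (nat_lit 780000), [(nat_lit 1100000), (nat_lit 1785001), (nat_lit 1271251)], [(nat_lit 18), (nat_lit 59), (nat_lit 401), (nat_lit 175), (nat_lit 10)]⟩,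
 ⟨⟨[(nat_lit 120), (nat_lit 160), (nat_lit 180)], [(nat_lit 0), (nat_lit 533), (nat_lit 2066)], [((nat_lit 0), (nat_lit 0), (nat_lit 0)), ((nat_lit 960), (nat_lit 1000), (nat_lit 200)), ((nat_lit 615), (nat_lit 1000), (nat_lit 729))], ((nat_lit 100), (nat_lit 72), (nat_lit 63))⟩, (nat_lit 140488), (nat_lit 300), (nat_lit 1353), (nat_lit 3984000), (nat_lit 2196836), [(nat_lit 478080000), (nat_lit 712320000), (nat_lit 843480000)], [], [(nat_lit 3209942796), (nat_lit 3148006020), (nat_lit 3194617778), (nat_lit 3143111873), (nat_lit 2733491502), (nat_lit 2672657106), (nat_lit 2695230925), (nat_lit 2631932733)], (nat_lit 1271251), (nat_lit 1271251), (nat_lit 1271251), (nat_lit 1271251), (nat_lit 0), (nat_lit 780000), [(nat_lit 1695001), (nat_lit 1271251), (nat_lit 1271251)], [(nat_lit 28), (nat_lit 65), (nat_lit 420), (nat_lit 175), (nat_lit 10)]⟩⟩) (.trX (nat_lit 4) (nat_lit 0) (nat_lit 2) (nat_lit 31) (nat_lit 92) (nat_lit 100) (nat_lit 290) (.leaf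 ⟨(nat_lit 924), (nat_lit 28), (nat_lit 0), (nat_lit 48), (nat_lit 0), (nat_lit 3174), (nat_lit 847), (nat_lit 543), (nat_lit 0), (nat_lit 0), (nat_lit 231000), [((nat_lit 400), [((nat_lit 28), (nat_lit 0), (nat_lit 924))])], ⟨(nat_lit 6), false, true, false, (nat_lit 250), (nat_lit 0), (nat_lit 1582), [(nat_lit 1545316), (nat_lit 1548686), (nat_lit 1590632), (nat_lit 1597372), (nat_lit 1655899), (nat_lit 1649997), (nat_lit 1702515), (nat_lit 1699984)]⟩, ⟨(nat_lit 6), false, true, true, (nat_lit 234), (nat_lit 0), (nat_lit 1582), [(nat_lit 1531317), (nat_lit 1524997), (nat_lit 1577949), (nat_lit 1574999), (nat_lit 1599609), (nat_lit 1587494), (nat_lit 1646241), (nat_lit 1637496)]⟩, (nat_lit 5410865), (nat_lit 36784383), (nat_lit 15891553), (nat_lit 14324064), (nat_lit 6), (nat_lit 0), [], [⟨(nat_lit 1), (nat_lit 98), (nat_lit 22), (nat_lit 100), (nat_lit 239455627)⟩, ⟨(nat_lit 1), (nat_lit 92), (nat_lit 31), (nat_lit 100), (nat_lit 141793853)⟩],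 [], [⟨(nat_lit 0), (nat_lit 97), (nat_lit 100), (nat_lit 84), (nat_lit 64126631)⟩],
 ⟨⟨[(nat_lit 40), (nat_lit 60)], [(nat_lit 0), (nat_lit 2136)], [((nat_lit 0), (nat_lit 0), (nat_lit 0)), ((nat_lit 1000), (nat_lit 343), (nat_lit 808))], ((nat_lit 37), (nat_lit 100), (nat_lit 75))⟩, (nat_lit 0), (nat_lit 59), (nat_lit 59), (nat_lit 0), (nat_lit 0), [(nat_lit 1581044801), (nat_lit 1215936000)], [(nat_lit 0), (nat_lit 0)], [(nat_lit 25237653892), (nat_lit 25825393826), (nat_lit 27422819167), (nat_lit 27931863818), (nat_lit 26969010241), (nat_lit 27501381581), (nat_lit 28917246678), (nat_lit 29428174783)], (nat_lit 0), (nat_lit 0), (nat_lit 0), (nat_lit 0), (nat_lit 0), (nat_lit 0), [], [(nat_lit 1), (nat_lit 38), (nat_lit 203), (nat_lit 0), (nat_lit 8)]⟩,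
 ⟨⟨[(nat_lit 80), (nat_lit 120), (nat_lit 160)], [(nat_lit 0), (nat_lit 0), (nat_lit 2132)], [((nat_lit 0), (nat_lit 0), (nat_lit 0)), ((nat_lit 0), (nat_lit 0), (nat_lit 0)), ((nat_lit 858), (nat_lit 1000), (nat_lit 713))], ((nat_lit 100), (nat_lit 91), (nat_lit 64))⟩, (nat_lit 354277), (nat_lit 896), (nat_lit 896), (nat_lit 0), (nat_lit 1377005), [(nat_lit 356288000), (nat_lit 605568000), (nat_lit 902272000)], [], [(nat_lit 2234634642), (nat_lit 2283372981), (nat_lit 2284554346), (nat_lit 2383474225), (nat_lit 2491290436), (nat_lit 1801150869), (nat_lit 1780038617), (nat_lit 1836855250)], (nat_lit 1271251), (nat_lit 1271251), (nat_lit 1271251), (nat_lit 1271251), (nat_lit 0), (nat_lit 780000), [(nat_lit 1100000), (nat_lit 1785001), (nat_lit 1271251)], [(nat_lit 18), (nat_lit 59), (nat_lit 401), (nat_lit 175), (nat_lit 10)]⟩,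
 ⟨⟨[(nat_lit 120), (nat_lit 160), (nat_lit 180)], [(nat_lit 0), (nat_lit 533), (nat_lit 2066)], [((nat_lit 0), (nat_lit 0), (nat_lit 0)), ((nat_lit 960), (nat_lit 1000), (nat_lit 200)), ((nat_lit 615), (nat_lit 1000), (nat_lit 729))], ((nat_lit 100), (nat_lit 72), (nat_lit 63))⟩, (nat_lit 112390), (nat_lit 300), (nat_lit 1476), (nat_lit 3187201), (nat_lit 2457263), [(nat_lit 382464000), (nat_lit 569856000), (nat_lit 674784000)], [], [(nat_lit 2535936198), (nat_lit 2485714821), (nat_lit 2533346997), (nat_lit 2492817261), (nat_lit 2146234152), (nat_lit 2096107668), (nat_lit 2123235393), (nat_lit 2076317002)], (nat_lit 1271251), (nat_lit 1271251), (nat_lit 1271251), (nat_lit 1271251), (nat_lit 0), (nat_lit 780000), [(nat_lit 1695001), (nat_lit 1271251), (nat_lit 1271251)], [(nat_lit 28), (nat_lit 65), (nat_lit 448), (nat_lit 175), (nat_lit 10)]⟩⟩))) (.leaf ⟨(nat_lit 898), (nat_lit 28), (nat_lit 0), (nat_lit 74), (nat_lit 0), (nat_lit 3054), (nat_lit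 1186), (nat_lit 762), (nat_lit 0), (nat_lit 0), (nat_lit 359200), [((nat_lit 400), [((nat_lit 28), (nat_lit 1), (nat_lit 898))])], ⟨(nat_lit 6), false, true, false, (nat_lit 250), (nat_lit 0), (nat_lit 2237), [(nat_lit 1543695), (nat_lit 1548146), (nat_lit 1587391), (nat_lit 1596294), (nat_lit 1659577), (nat_lit 1649997), (nat_lit 1705063), (nat_lit 1699935)]⟩, ⟨(nat_lit 6), false, true, true, (nat_lit 240), (nat_lit 0), (nat_lit 2237), [(nat_lit 1534237), (nat_lit 1524996), (nat_lit 1579788), (nat_lit 1574999), (nat_lit 1634011), (nat_lit 1612493), (nat_lit 1679562), (nat_lit 1662495)]⟩, (nat_lit 5440856), (nat_lit 36412358), (nat_lit 15768078), (nat_lit 14819564), (nat_lit 6), (nat_lit 0), [], [⟨(nat_lit 1), (nat_lit 95), (nat_lit 31), (nat_lit 100), (nat_lit 429849539)⟩, ⟨(nat_lit 1), (nat_lit 86), (nat_lit 44), (nat_lit 100), (nat_lit 29011618)⟩], [], [],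
 ⟨⟨[(nat_lit 40), (nat_lit 60)], [(nat_lit 0), (nat_lit 1539)], [((nat_lit 0), (nat_lit 0), (nat_lit 0)), ((nat_lit 1000), (nat_lit 478), (nat_lit 704))], ((nat_lit 48), (nat_lit 100), (nat_lit 69))⟩, (nat_lit 0), (nat_lit 62), (nat_lit 62), (nat_lit 0), (nat_lit 0), [(nat_lit 1436285607), (nat_lit 626434400)], [(nat_lit 0), (nat_lit 0)], [(nat_lit 24463254290), (nat_lit 25618966318), (nat_lit 26716984808), (nat_lit 27759264460), (nat_lit 26940840300), (nat_lit 28052904124), (nat_lit 28945690259), (nat_lit 29910330122)], (nat_lit 0), (nat_lit 0), (nat_lit 0), (nat_lit 0), (nat_lit 0), (nat_lit 0), [], [(nat_lit 1), (nat_lit 38), (nat_lit 203), (nat_lit 0), (nat_lit 8)]⟩,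
 ⟨⟨[(nat_lit 80), (nat_lit 120), (nat_lit 160)], [(nat_lit 0), (nat_lit 0), (nat_lit 2132)], [((nat_lit 0), (nat_lit 0), (nat_lit 0)), ((nat_lit 0), (nat_lit 0), (nat_lit 0)), ((nat_lit 858), (nat_lit 1000), (nat_lit 713))], ((nat_lit 100), (nat_lit 91), (nat_lit 64))⟩, (nat_lit 423190), (nat_lit 822), (nat_lit 822), (nat_lit 0), (nat_lit 1378029), [(nat_lit 478176000), (nat_lit 812736000), (nat_lit 1210944000)], [], [(nat_lit 2188948926), (nat_lit 2196075764), (nat_lit 2195734536), (nat_lit 2325363924), (nat_lit 5726313628), (nat_lit 4685797876), (nat_lit 3728227776), (nat_lit 3908266046)], (nat_lit 1271251), (nat_lit 1271251), (nat_lit 1271251), (nat_lit 1271251), (nat_lit 780000), (nat_lit 3072501), [(nat_lit 1100000), (nat_lit 1785001), (nat_lit 1271251)], [(nat_lit 18), (nat_lit 59), (nat_lit 483), (nat_lit 250), (nat_lit 12)]⟩,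
 ⟨⟨[(nat_lit 120), (nat_lit 160), (nat_lit 180)], [(nat_lit 0), (nat_lit 533), (nat_lit 2066)], [((nat_lit 0), (nat_lit 0), (nat_lit 0)), ((nat_lit 960), (nat_lit 1000), (nat_lit 200)), ((nat_lit 615), (nat_lit 1000), (nat_lit 729))], ((nat_lit 100), (nat_lit 72), (nat_lit 63))⟩, (nat_lit 173268), (nat_lit 300), (nat_lit 1394), (nat_lit 4913601), (nat_lit 2457263), [(nat_lit 589632000), (nat_lit 878528000), (nat_lit 1040292000)], [], [(nat_lit 3663019016), (nat_lit 3584168864), (nat_lit 3587520841), (nat_lit 3504999502), (nat_lit 3307709526), (nat_lit 3234310250), (nat_lit 3261644850), (nat_lit 3182644412)], (nat_lit 1271251), (nat_lit 1271251), (nat_lit 1271251), (nat_lit 1271251), (nat_lit 780000), (nat_lit 3072501), [(nat_lit 1695001), (nat_lit 1271251), (nat_lit 1271251)], [(nat_lit 28), (nat_lit 65), (nat_lit 483), (nat_lit 250), (nat_lit 11)]⟩⟩)))))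
noncomputable def c14_36 : Tr Lf :=
 (.trZ (nat_lit 0) (nat_lit 1) (nat_lit 3) (nat_lit 92) (nat_lit 44) (nat_lit 100) (nat_lit 190) (.spl (nat_lit 5) (nat_lit 120) (.spl (nat_lit 0) (nat_lit 390) (.leaf ⟨(nat_lit 787), (nat_lit 141), (nat_lit 0), (nat_lit 72), (nat_lit 0), (nat_lit 3076), (nat_lit 1848), (nat_lit 807), (nat_lit 0), (nat_lit 0), (nat_lit 337400), [((nat_lit 390), [((nat_lit 28), (nat_lit 1), (nat_lit 674)), ((nat_lit 43), (nat_lit 2), (nat_lit 113))])], ⟨(nat_lit 7), false, true, false, (nat_lit 266), (nat_lit 1581), (nat_lit 2237), [(nat_lit 1576639), (nat_lit 1579397), (nat_lit 1622097), (nat_lit 1625936), (nat_lit 1705117), (nat_lit 1702521), (nat_lit 1750574), (nat_lit 1749059)]⟩, ⟨(nat_lit 5), false, true, true, (nat_lit 231), (nat_lit 1581), (nat_lit 2237), [(nat_lit 1477224), (nat_lit 1476683), (nat_lit 1522729), (nat_lit 1523269), (nat_lit 1634017), (nat_lit 1626932), (nat_lit 1679566), (nat_lit 1673562)]⟩, (nat_lit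 5457049), (nat_lit 35950227), (nat_lit 17289192), (nat_lit 13760581), (nat_lit 5), (nat_lit 0), [⟨(nat_lit 0), (nat_lit 87), (nat_lit 38), (nat_lit 100), (nat_lit 21029542)⟩], [⟨(nat_lit 1), (nat_lit 93), (nat_lit 38), (nat_lit 100), (nat_lit 333928252)⟩], [⟨(nat_lit 0), (nat_lit 100), (nat_lit 87), (nat_lit 50), (nat_lit 97919529)⟩], [],
 ⟨⟨[(nat_lit 40), (nat_lit 60)], [(nat_lit 0), (nat_lit 1539)], [((nat_lit 0), (nat_lit 0), (nat_lit 0)), ((nat_lit 1000), (nat_lit 478), (nat_lit 704))], ((nat_lit 48), (nat_lit 100), (nat_lit 69))⟩, (nat_lit 0), (nat_lit 59), (nat_lit 59), (nat_lit 0), (nat_lit 0), [(nat_lit 1480634801), (nat_lit 846429600)], [(nat_lit 0), (nat_lit 0)], [(nat_lit 23282709564), (nat_lit 23913525149), (nat_lit 25951355042), (nat_lit 26487689858), (nat_lit 26822627354), (nat_lit 27334687372), (nat_lit 28968079948), (nat_lit 29451688685)], (nat_lit 0), (nat_lit 0), (nat_lit 0), (nat_lit 0), (nat_lit 0), (nat_lit 0), [], [(nat_lit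 1), (nat_lit 38), (nat_lit 203), (nat_lit 0), (nat_lit 9)]⟩,
 ⟨⟨[(nat_lit 60), (nat_lit 100), (nat_lit 140)], [(nat_lit 0), (nat_lit 0), (nat_lit 2047)], [((nat_lit 0), (nat_lit 0), (nat_lit 0)), ((nat_lit 0), (nat_lit 0), (nat_lit 0)), ((nat_lit 1000), (nat_lit 993), (nat_lit 781))], ((nat_lit 95), (nat_lit 100), (nat_lit 65))⟩, (nat_lit 572179), (nat_lit 657), (nat_lit 657), (nat_lit 0), (nat_lit 1033827), [(nat_lit 699066000), (nat_lit 1331250000), (nat_lit 2096346000)], [], [(nat_lit 6281014491), (nat_lit 6571493385), (nat_lit 6619815573), (nat_lit 6845700845), (nat_lit 5418097680), (nat_lit 5666307191), (nat_lit 5693685569), (nat_lit 5882736033)], (nat_lit 1271251), (nat_lit 1271251), (nat_lit 1271251), (nat_lit 1271251), (nat_lit 0), (nat_lit 780000), [(nat_lit 780000), (nat_lit 1435001), (nat_lit 1271251)], [(nat_lit 11), (nat_lit 55), (nat_lit 317), (nat_lit 100), (nat_lit 9)]⟩,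
 ⟨⟨[(nat_lit 120), (nat_lit 160), (nat_lit 180)], [(nat_lit 0), (nat_lit 533), (nat_lit 2066)], [((nat_lit 0), (nat_lit 0), (nat_lit 0)), ((nat_lit 960), (nat_lit 1000), (nat_lit 200)), ((nat_lit 615), (nat_lit 1000), (nat_lit 729))], ((nat_lit 100), (nat_lit 72), (nat_lit 63))⟩, (nat_lit 168585), (nat_lit 300), (nat_lit 1534), (nat_lit 4780802), (nat_lit 2546002), [(nat_lit 573696000), (nat_lit 854784000), (nat_lit 1012176000)], [], [(nat_lit 3899117399), (nat_lit 3826182368), (nat_lit 3820210536), (nat_lit 3757334538), (nat_lit 3319675133), (nat_lit 3247969358), (nat_lit 3202046525), (nat_lit 3136917705)], (nat_lit 1271251), (nat_lit 1271251), (nat_lit 1271251), (nat_lit 1271251), (nat_lit 0), (nat_lit 780000), [(nat_lit 1695001), (nat_lit 1271251), (nat_lit 1271251)], [(nat_lit 28), (nat_lit 65), (nat_lit 465), (nat_lit 175), (nat_lit 11)]⟩⟩) (.trZ (nat_lit 0) (nat_lit 1) (nat_lit 3) (nat_lit 92) (nat_lit 31) (nat_lit 100) (nat_lit 210)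 (.trX (nat_lit 4) (nat_lit 0) (nat_lit 2) (nat_lit 31) (nat_lit 92) (nat_lit 100) (nat_lit 290) (.leaf ⟨(nat_lit 804), (nat_lit 131), (nat_lit 0), (nat_lit 65), (nat_lit 0), (nat_lit 3046), (nat_lit 1724), (nat_lit 739), (nat_lit 0), (nat_lit 0), (nat_lit 321600), [((nat_lit 400), [((nat_lit 28), (nat_lit 1), (nat_lit 804))])], ⟨(nat_lit 7), false, true, false, (nat_lit 271), (nat_lit 0), (nat_lit 1582), [(nat_lit 1604619), (nat_lit 1610200), (nat_lit 1649935), (nat_lit 1658886), (nat_lit 1702515), (nat_lit 1699984), (nat_lit 1747842), (nat_lit 1748680)]⟩, ⟨(nat_lit 5), false, true, true, (nat_lit 223), (nat_lit 0), (nat_lit 1582), [(nat_lit 1476683), (nat_lit 1474999), (nat_lit 1522658), (nat_lit 1524343), (nat_lit 1599609), (nat_lit 1587494), (nat_lit 1646241), (nat_lit 1637496)]⟩, (nat_lit 5437427), (nat_lit 35999645), (nat_lit 17909081), (nat_lit 13091274), (nat_lit 5), (nat_lit 0), [], [⟨(nat_lit 1), (nat_lit 98), (nat_lit 22), (nat_lit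 100), (nat_lit 211898765)⟩, ⟨(nat_lit 1), (nat_lit 92), (nat_lit 31), (nat_lit 100), (nat_lit 201490045)⟩], [⟨(nat_lit 0), (nat_lit 100), (nat_lit 87), (nat_lit 50), (nat_lit 70452144)⟩], [⟨(nat_lit 0), (nat_lit 100), (nat_lit 100), (nat_lit 45), (nat_lit 15984169)⟩],
 ⟨⟨[(nat_lit 40), (nat_lit 60)], [(nat_lit 0), (nat_lit 2136)], [((nat_lit 0), (nat_lit 0), (nat_lit 0)), ((nat_lit 1000), (nat_lit 343), (nat_lit 808))], ((nat_lit 37), (nat_lit 100), (nat_lit 75))⟩, (nat_lit 381), (nat_lit 59), (nat_lit 59), (nat_lit 0), (nat_lit 0), [(nat_lit 1474148801), (nat_lit 904411200)], [(nat_lit 0), (nat_lit 0)], [(nat_lit 24403382140), (nat_lit 25011061384), (nat_lit 26494851803), (nat_lit 27029010014), (nat_lit 27033619714), (nat_lit 27548883088), (nat_lit 28784088846), (nat_lit 29286910943)], (nat_lit 0), (nat_lit 0), (nat_lit 0), (nat_lit 0), (nat_lit 0), (nat_lit 0), [], [(nat_lit 1), (nat_lit 38), (nat_lit 203), (nat_lit 0), (nat_lit 8)]⟩,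
 ⟨⟨[(nat_lit 60), (nat_lit 100), (nat_lit 140)], [(nat_lit 0), (nat_lit 0), (nat_lit 2047)], [((nat_lit 0), (nat_lit 0), (nat_lit 0)), ((nat_lit 0), (nat_lit 0), (nat_lit 0)), ((nat_lit 1000), (nat_lit 993), (nat_lit 781))], ((nat_lit 95), (nat_lit 100), (nat_lit 65))⟩, (nat_lit 513100), (nat_lit 723), (nat_lit 723), (nat_lit 0), (nat_lit 1152493), [(nat_lit 643272000), (nat_lit 1225000000), (nat_lit 1929032000)], [], [(nat_lit 6029574312), (nat_lit 6210643236), (nat_lit 6199667204), (nat_lit 6342198472), (nat_lit 5226312334), (nat_lit 5377513927), (nat_lit 5357997200), (nat_lit 5475078924)], (nat_lit 1271251), (nat_lit 1271251), (nat_lit 1271251), (nat_lit 1271251), (nat_lit 0), (nat_lit 780000), [(nat_lit 780000), (nat_lit 1435001), (nat_lit 1271251)], [(nat_lit 11), (nat_lit 55), (nat_lit 317), (nat_lit 100), (nat_lit 9)]⟩,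
 ⟨⟨[(nat_lit 120), (nat_lit 160), (nat_lit 180)], [(nat_lit 0), (nat_lit 533), (nat_lit 2066)], [((nat_lit 0), (nat_lit 0), (nat_lit 0)), ((nat_lit 960), (nat_lit 1000), (nat_lit 200)), ((nat_lit 615), (nat_lit 1000), (nat_lit 729))], ((nat_lit 100), (nat_lit 72), (nat_lit 63))⟩, (nat_lit 152671), (nat_lit 300), (nat_lit 1650), (nat_lit 4316000), (nat_lit 2784697), [(nat_lit 517920000), (nat_lit 771680000), (nat_lit 913770000)], [], [(nat_lit 3488701546), (nat_lit 3421349737), (nat_lit 3424361428), (nat_lit 3368983625), (nat_lit 2956802983), (nat_lit 2890595055), (nat_lit 2860139936), (nat_lit 2801668711)], (nat_lit 1271251), (nat_lit 1271251), (nat_lit 1271251), (nat_lit 1271251), (nat_lit 0), (nat_lit 780000), [(nat_lit 1695001), (nat_lit 1271251), (nat_lit 1271251)], [(nat_lit 28), (nat_lit 65), (nat_lit 492), (nat_lit 175), (nat_lit 11)]⟩⟩)))) (.spl (nat_lit 1) (nat_lit 300) (.leaf ⟨(nat_lit 854), (nat_lit 54), (nat_lit 0), (nat_lit 92),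 (nat_lit 0), (nat_lit 2967), (nat_lit 1421), (nat_lit 922), (nat_lit 0), (nat_lit 0), (nat_lit 512400), [((nat_lit 400), [((nat_lit 43), (nat_lit 2), (nat_lit 854))])], ⟨(nat_lit 7), false, true, false, (nat_lit 261), (nat_lit 0), (nat_lit 2237), [(nat_lit 1572676), (nat_lit 1583333), (nat_lit 1594524), (nat_lit 1607407), (nat_lit 1705063), (nat_lit 1699935), (nat_lit 1726954), (nat_lit 1724051)]⟩, ⟨(nat_lit 5), false, true, true, (nat_lit 229), (nat_lit 0), (nat_lit 2237), [(nat_lit 1477224), (nat_lit 1474999), (nat_lit 1521847), (nat_lit 1524073), (nat_lit 1634011), (nat_lit 1612493), (nat_lit 1679562), (nat_lit 1662495)]⟩, (nat_lit 5432120), (nat_lit 36343335), (nat_lit 16913788), (nat_lit 13742877), (nat_lit 5), (nat_lit 0), [], [⟨(nat_lit 1), (nat_lit 95), (nat_lit 31), (nat_lit 100), (nat_lit 372143200)⟩], [], [],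
 ⟨⟨[(nat_lit 40), (nat_lit 60)], [(nat_lit 0), (nat_lit 1539)], [((nat_lit 0), (nat_lit 0), (nat_lit 0)), ((nat_lit 1000), (nat_lit 478), (nat_lit 704))], ((nat_lit 48), (nat_lit 100), (nat_lit 69))⟩, (nat_lit 1468), (nat_lit 63), (nat_lit 63), (nat_lit 0), (nat_lit 0), [(nat_lit 1451276016), (nat_lit 0)], [(nat_lit 0), (nat_lit 61580800)], [(nat_lit 23318005625), (nat_lit 24559181841), (nat_lit 25973699137), (nat_lit 27030552106), (nat_lit 26834517266), (nat_lit 27843069501), (nat_lit 28944282476), (nat_lit 29812340413)], (nat_lit 0), (nat_lit 0), (nat_lit 0), (nat_lit 0), (nat_lit 0), (nat_lit 0), [], [(nat_lit 1), (nat_lit 38), (nat_lit 203), (nat_lit 0), (nat_lit 9)]⟩,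
 ⟨⟨[(nat_lit 60), (nat_lit 100), (nat_lit 140)], [(nat_lit 0), (nat_lit 0), (nat_lit 2047)], [((nat_lit 0), (nat_lit 0), (nat_lit 0)), ((nat_lit 0), (nat_lit 0), (nat_lit 0)), ((nat_lit 1000), (nat_lit 993), (nat_lit 781))], ((nat_lit 95), (nat_lit 100), (nat_lit 65))⟩, (nat_lit 465872), (nat_lit 781), (nat_lit 781), (nat_lit 0), (nat_lit 1470914), [(nat_lit 479172000), (nat_lit 912500000), (nat_lit 1436932000)], [], [(nat_lit 3142375330), (nat_lit 3202531554), (nat_lit 3234291661), (nat_lit 3276907680), (nat_lit 4979489877), (nat_lit 5138447715), (nat_lit 5293236229), (nat_lit 5413442185)], (nat_lit 1271251), (nat_lit 1271251), (nat_lit 1271251), (nat_lit 1271251), (nat_lit 780000), (nat_lit 3072501), [(nat_lit 780000), (nat_lit 1435001), (nat_lit 1271251)], [(nat_lit 11), (nat_lit 55), (nat_lit 401), (nat_lit 175), (nat_lit 11)]⟩,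
 ⟨⟨[(nat_lit 120), (nat_lit 160), (nat_lit 180)], [(nat_lit 0), (nat_lit 533), (nat_lit 2066)], [((nat_lit 0), (nat_lit 0), (nat_lit 0)), ((nat_lit 960), (nat_lit 1000), (nat_lit 200)), ((nat_lit 615), (nat_lit 1000), (nat_lit 729))], ((nat_lit 100), (nat_lit 72), (nat_lit 63))⟩, (nat_lit 217626), (nat_lit 300), (nat_lit 1488), (nat_lit 6108800), (nat_lit 2606371), [(nat_lit 733056000), (nat_lit 1092224000), (nat_lit 1293336000)], [], [(nat_lit 4848244381), (nat_lit 4739735825), (nat_lit 4614771641), (nat_lit 4509239444), (nat_lit 4437757883), (nat_lit 4217032399), (nat_lit 4139093093), (nat_lit 4044884533)], (nat_lit 1271251), (nat_lit 1271251), (nat_lit 1271251), (nat_lit 1271251), (nat_lit 780000), (nat_lit 3072501), [(nat_lit 1695001), (nat_lit 1271251), (nat_lit 1271251)], [(nat_lit 28), (nat_lit 65), (nat_lit 489), (nat_lit 250), (nat_lit 11)]⟩⟩) (.trZ (nat_lit 0) (nat_lit 1) (nat_lit 3) (nat_lit 87) (nat_lit 44) (nat_lit 100) (nat_lit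 210) (.trX (nat_lit 5) (nat_lit 1) (nat_lit 2) (nat_lit 87) (nat_lit 41) (nat_lit 100) (nat_lit 390) (.leaf ⟨(nat_lit 23), (nat_lit 660), (nat_lit 0), (nat_lit 317), (nat_lit 0), (nat_lit 3493), (nat_lit 5637), (nat_lit 3108), (nat_lit 0), (nat_lit 0), (nat_lit 92000), [((nat_lit 400), [((nat_lit 43), (nat_lit 5), (nat_lit 23))])], ⟨(nat_lit 7), false, true, false, (nat_lit 275), (nat_lit 0), (nat_lit 2237), [(nat_lit 1623954), (nat_lit 1633328), (nat_lit 1645800), (nat_lit 1657401), (nat_lit 1726954), (nat_lit 1724051), (nat_lit 1748802), (nat_lit 1748125)]⟩, ⟨(nat_lit 5), false, true, true, (nat_lit 229), (nat_lit 0), (nat_lit 2237), [(nat_lit 1477224), (nat_lit 1474999), (nat_lit 1521847), (nat_lit 1524073), (nat_lit 1634011), (nat_lit 1612493), (nat_lit 1679562), (nat_lit 1662495)]⟩, (nat_lit 5482436), (nat_lit 35394879), (nat_lit 18135817), (nat_lit 13469304), (nat_lit 5), (nat_lit 0), [⟨(nat_lit 0), (nat_lit 87), (nat_lit 32), (nat_lit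 100), (nat_lit 1071479073)⟩], [⟨(nat_lit 1), (nat_lit 95), (nat_lit 31), (nat_lit 100), (nat_lit 426978969)⟩], [⟨(nat_lit 1), (nat_lit 55), (nat_lit 84), (nat_lit 100), (nat_lit 48972659)⟩], [],
 ⟨⟨[(nat_lit 40), (nat_lit 60)], [(nat_lit 0), (nat_lit 1539)], [((nat_lit 0), (nat_lit 0), (nat_lit 0)), ((nat_lit 1000), (nat_lit 478), (nat_lit 704))], ((nat_lit 48), (nat_lit 100), (nat_lit 69))⟩, (nat_lit 1326852), (nat_lit 61), (nat_lit 61), (nat_lit 0), (nat_lit 0), [(nat_lit 1821966002), (nat_lit 2818605200)], [(nat_lit 0), (nat_lit 0)], [(nat_lit 24106752522), (nat_lit 25401895538), (nat_lit 26323900799), (nat_lit 27457496293), (nat_lit 27610999849), (nat_lit 28731586441), (nat_lit 29392466321), (nat_lit 30408541235)], (nat_lit 0), (nat_lit 0), (nat_lit 0), (nat_lit 0), (nat_lit 0), (nat_lit 0), [], [(nat_lit 1), (nat_lit 38), (nat_lit 203), (nat_lit 0), (nat_lit 8)]⟩,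
 ⟨⟨[(nat_lit 60), (nat_lit 100), (nat_lit 120)], [(nat_lit 0), (nat_lit 609), (nat_lit 1609)], [((nat_lit 0), (nat_lit 0), (nat_lit 0)), ((nat_lit 1000), (nat_lit 905), (nat_lit 238)), ((nat_lit 1000), (nat_lit 882), (nat_lit 668))], ((nat_lit 88), (nat_lit 100), (nat_lit 63))⟩, (nat_lit 6685925), (nat_lit 669), (nat_lit 669), (nat_lit 0), (nat_lit 1380773), [(nat_lit 3206514000), (nat_lit 6106250000), (nat_lit 7784736000)], [], [(nat_lit 25565953686), (nat_lit 26237253893), (nat_lit 27194543480), (nat_lit 27769279580), (nat_lit 30804357399), (nat_lit 31155373496), (nat_lit 31528298927), (nat_lit 31965085512)], (nat_lit 1271251), (nat_lit 1271251), (nat_lit 1271251), (nat_lit 1271251), (nat_lit 780000), (nat_lit 2990626), [(nat_lit 780000), (nat_lit 1435001), (nat_lit 1271251)], [(nat_lit 10), (nat_lit 54), (nat_lit 401), (nat_lit 175), (nat_lit 12)]⟩,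
 ⟨⟨[(nat_lit 120), (nat_lit 160), (nat_lit 180)], [(nat_lit 0), (nat_lit 533), (nat_lit 2066)], [((nat_lit 0), (nat_lit 0), (nat_lit 0)), ((nat_lit 960), (nat_lit 1000), (nat_lit 200)), ((nat_lit 615), (nat_lit 1000), (nat_lit 729))], ((nat_lit 100), (nat_lit 72), (nat_lit 63))⟩, (nat_lit 890915), (nat_lit 300), (nat_lit 1570), (nat_lit 21048800), (nat_lit 2784697), [(nat_lit 2525856000), (nat_lit 3763424000), (nat_lit 4456386000)], [], [(nat_lit 17395374756), (nat_lit 17031003930), (nat_lit 16540476332), (nat_lit 16170783675), (nat_lit 15263436862), (nat_lit 14909604327), (nat_lit 14548100659), (nat_lit 14201650884)], (nat_lit 1271251), (nat_lit 1271251), (nat_lit 1271251), (nat_lit 1271251), (nat_lit 780000), (nat_lit 2990626), [(nat_lit 1695001), (nat_lit 1271251), (nat_lit 1271251)], [(nat_lit 28), (nat_lit 65), (nat_lit 508), (nat_lit 250), (nat_lit 11)]⟩⟩))))))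
noncomputable def c14_37 : Tr Lf :=
 (.spl (nat_lit 4) (nat_lit 200) (.spl (nat_lit 5) (nat_lit 120) (.leaf ⟨(nat_lit 475), (nat_lit 357), (nat_lit 0), (nat_lit 168), (nat_lit 0), (nat_lit 3815), (nat_lit 3741), (nat_lit 2252), (nat_lit 0), (nat_lit 0), (nat_lit 190000), [((nat_lit 400), [((nat_lit 28), (nat_lit 1), (nat_lit 475))])], ⟨(nat_lit 6), false, false, false, (nat_lit 245), (nat_lit 0), (nat_lit 2237), [(nat_lit 1470123), (nat_lit 1483344), (nat_lit 1557514), (nat_lit 1579638), (nat_lit 1659577), (nat_lit 1649997), (nat_lit 1748802), (nat_lit 1748125)]⟩, ⟨(nat_lit 4), false, false, false, (nat_lit 169), (nat_lit 0), (nat_lit 2237), [(nat_lit 1316293), (nat_lit 1333360), (nat_lit 1359989), (nat_lit 1381507), (nat_lit 1477224), (nat_lit 1474999), (nat_lit 1521847), (nat_lit 1524073)]⟩, (nat_lit 4947612), (nat_lit 41065923), (nat_lit 16663017), (nat_lit 9271060), (nat_lit 4), (nat_lit 0), [⟨(nat_lit 0), (nat_lit 92), (nat_lit 31), (nat_lit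 100), (nat_lit 19220119)⟩], [⟨(nat_lit 0), (nat_lit 100), (nat_lit 31), (nat_lit 95), (nat_lit 120654279)⟩], [], [],
 ⟨⟨[(nat_lit 40), (nat_lit 60)], [(nat_lit 0), (nat_lit 1539)], [((nat_lit 0), (nat_lit 0), (nat_lit 0)), ((nat_lit 1000), (nat_lit 478), (nat_lit 704))], ((nat_lit 48), (nat_lit 100), (nat_lit 69))⟩, (nat_lit 0), (nat_lit 204), (nat_lit 204), (nat_lit 0), (nat_lit 495902), [(nat_lit 1606670009), (nat_lit 1877330000)], [(nat_lit 0), (nat_lit 0)], [(nat_lit 21954662121), (nat_lit 23317706642), (nat_lit 25626188953), (nat_lit 27164140992), (nat_lit 23604119484), (nat_lit 24770690061), (nat_lit 26641480073), (nat_lit 27805771815)], (nat_lit 1271251), (nat_lit 1271251), (nat_lit 1017188), (nat_lit 2118126), (nat_lit 559688), (nat_lit 1429376), [(nat_lit 490000), (nat_lit 780000)], [(nat_lit 1), (nat_lit 38), (nat_lit 260), (nat_lit 50), (nat_lit 14)]⟩,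
 ⟨⟨[(nat_lit 80), (nat_lit 120), (nat_lit 160)], [(nat_lit 0), (nat_lit 0), (nat_lit 2132)], [((nat_lit 0), (nat_lit 0), (nat_lit 0)), ((nat_lit 0), (nat_lit 0), (nat_lit 0)), ((nat_lit 858), (nat_lit 1000), (nat_lit 713))], ((nat_lit 100), (nat_lit 91), (nat_lit 64))⟩, (nat_lit 1214066), (nat_lit 506), (nat_lit 506), (nat_lit 0), (nat_lit 484622), [(nat_lit 2461200000), (nat_lit 4183200000), (nat_lit 6232800000)], [], [(nat_lit 20025180742), (nat_lit 21264623581), (nat_lit 24054866556), (nat_lit 21965605130), (nat_lit 19466004789), (nat_lit 19265227339), (nat_lit 27085824165), (nat_lit 20436963570)], (nat_lit 1271251), (nat_lit 1271251), (nat_lit 1017188), (nat_lit 2118126), (nat_lit 0), (nat_lit 780000), [(nat_lit 1100000), (nat_lit 1785001), (nat_lit 1271251)], [(nat_lit 18), (nat_lit 59), (nat_lit 428), (nat_lit 200), (nat_lit 11)]⟩,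
 ⟨⟨[(nat_lit 120), (nat_lit 160), (nat_lit 180)], [(nat_lit 0), (nat_lit 533), (nat_lit 2066)], [((nat_lit 0), (nat_lit 0), (nat_lit 0)), ((nat_lit 960), (nat_lit 1000), (nat_lit 200)), ((nat_lit 615), (nat_lit 1000), (nat_lit 729))], ((nat_lit 100), (nat_lit 72), (nat_lit 63))⟩, (nat_lit 80427), (nat_lit 300), (nat_lit 802), (nat_lit 12197678), (nat_lit 813504), [(nat_lit 1338624000), (nat_lit 1994496000), (nat_lit 2361744000)], [], [(nat_lit 9776356245), (nat_lit 9640667838), (nat_lit 8966490252), (nat_lit 8810265348), (nat_lit 7971578476), (nat_lit 7837609670), (nat_lit 8105949058), (nat_lit 7051061730)], (nat_lit 1271251), (nat_lit 1271251), (nat_lit 559688), (nat_lit 1429376), (nat_lit 0), (nat_lit 780000), [(nat_lit 1695001), (nat_lit 1271251), (nat_lit 1271251)], [(nat_lit 28), (nat_lit 65), (nat_lit 373), (nat_lit 150), (nat_lit 9)]⟩⟩) (.leaf ⟨(nat_lit 721), (nat_lit 0), (nat_lit 0), (nat_lit 279), (nat_lit 0), (nat_lit 3754), (nat_lit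 2203), (nat_lit 2374), (nat_lit 0), (nat_lit 0), (nat_lit 226600), [((nat_lit 400), [((nat_lit 28), (nat_lit 0), (nat_lit 412)), ((nat_lit 28), (nat_lit 1), (nat_lit 309))])], ⟨(nat_lit 6), false, false, false, (nat_lit 245), (nat_lit 0), (nat_lit 2237), [(nat_lit 1470123), (nat_lit 1483344), (nat_lit 1557514), (nat_lit 1579638), (nat_lit 1659577), (nat_lit 1649997), (nat_lit 1748802), (nat_lit 1748125)]⟩, ⟨(nat_lit 4), false, false, false, (nat_lit 169), (nat_lit 0), (nat_lit 2237), [(nat_lit 1316293), (nat_lit 1333360), (nat_lit 1359989), (nat_lit 1381507), (nat_lit 1477224), (nat_lit 1474999), (nat_lit 1521847), (nat_lit 1524073)]⟩, (nat_lit 4947612), (nat_lit 41065923), (nat_lit 16663017), (nat_lit 9271060), (nat_lit 0), (nat_lit 0), [⟨(nat_lit 0), (nat_lit 92), (nat_lit 31), (nat_lit 100), (nat_lit 245777598)⟩], [⟨(nat_lit 0), (nat_lit 100), (nat_lit 31), (nat_lit 95), (nat_lit 45317639)⟩], [], [],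
 ⟨⟨[(nat_lit 40), (nat_lit 60)], [(nat_lit 0), (nat_lit 1539)], [((nat_lit 0), (nat_lit 0), (nat_lit 0)), ((nat_lit 1000), (nat_lit 478), (nat_lit 704))], ((nat_lit 48), (nat_lit 100), (nat_lit 69))⟩, (nat_lit 0), (nat_lit 204), (nat_lit 204), (nat_lit 0), (nat_lit 495902), [(nat_lit 1576797204), (nat_lit 1446993200)], [(nat_lit 0), (nat_lit 0)], [(nat_lit 21573673535), (nat_lit 23228850009), (nat_lit 25545451274), (nat_lit 27070646124), (nat_lit 23234436523), (nat_lit 24392585276), (nat_lit 26433054075), (nat_lit 27739794154)], (nat_lit 1271251), (nat_lit 1271251), (nat_lit 1017188), (nat_lit 2118126), (nat_lit 559688), (nat_lit 1429376), [(nat_lit 490000), (nat_lit 780000)], [(nat_lit 1), (nat_lit 38), (nat_lit 260), (nat_lit 50), (nat_lit 14)]⟩,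
 ⟨⟨[(nat_lit 80), (nat_lit 120), (nat_lit 160)], [(nat_lit 0), (nat_lit 0), (nat_lit 2132)], [((nat_lit 0), (nat_lit 0), (nat_lit 0)), ((nat_lit 0), (nat_lit 0), (nat_lit 0)), ((nat_lit 858), (nat_lit 1000), (nat_lit 713))], ((nat_lit 100), (nat_lit 91), (nat_lit 64))⟩, (nat_lit 657382), (nat_lit 646), (nat_lit 646), (nat_lit 0), (nat_lit 959590), [(nat_lit 1307952000), (nat_lit 2223072000), (nat_lit 3312288000)], [], [(nat_lit 9982874692), (nat_lit 10422050492), (nat_lit 10166304868), (nat_lit 10478634627), (nat_lit 17101154165), (nat_lit 13174305564), (nat_lit 10776550450), (nat_lit 10845784474)], (nat_lit 1271251), (nat_lit 1271251), (nat_lit 1271251), (nat_lit 1271251), (nat_lit 780000), (nat_lit 3072501), [(nat_lit 1100000), (nat_lit 1785001), (nat_lit 1271251)], [(nat_lit 18), (nat_lit 59), (nat_lit 483), (nat_lit 250), (nat_lit 12)]⟩,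
 ⟨⟨[(nat_lit 120), (nat_lit 160), (nat_lit 180)], [(nat_lit 0), (nat_lit 533), (nat_lit 2066)], [((nat_lit 0), (nat_lit 0), (nat_lit 0)), ((nat_lit 960), (nat_lit 1000), (nat_lit 200)), ((nat_lit 615), (nat_lit 1000), (nat_lit 729))], ((nat_lit 100), (nat_lit 72), (nat_lit 63))⟩, (nat_lit 653268), (nat_lit 300), (nat_lit 693), (nat_lit 18525601), (nat_lit 813504), [(nat_lit 2223072000), (nat_lit 3312288000), (nat_lit 3922182000)], [], [(nat_lit 15935113479), (nat_lit 15799434606), (nat_lit 15218012913), (nat_lit 15065687185), (nat_lit 18350371523), (nat_lit 16193175293), (nat_lit 21720613096), (nat_lit 19637826928)], (nat_lit 1271251), (nat_lit 1271251), (nat_lit 559688), (nat_lit 1429376), (nat_lit 780000), (nat_lit 3072501), [(nat_lit 1695001), (nat_lit 1271251), (nat_lit 1271251)], [(nat_lit 28), (nat_lit 65), (nat_lit 456), (nat_lit 225), (nat_lit 11)]⟩⟩)) (.spl (nat_lit 1) (nat_lit 280) (.leaf ⟨(nat_lit 780), (nat_lit 27), (nat_lit 0),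 (nat_lit 193), (nat_lit 0), (nat_lit 3518), (nat_lit 1688), (nat_lit 2420), (nat_lit 0), (nat_lit 0), (nat_lit 229500), [((nat_lit 400), [((nat_lit 28), (nat_lit 0), (nat_lit 550)), ((nat_lit 28), (nat_lit 1), (nat_lit 230))])], ⟨(nat_lit 6), false, false, false, (nat_lit 236), (nat_lit 0), (nat_lit 2237), [(nat_lit 1470123), (nat_lit 1483344), (nat_lit 1513819), (nat_lit 1531491), (nat_lit 1659577), (nat_lit 1649997), (nat_lit 1705063), (nat_lit 1699935)]⟩, ⟨(nat_lit 5), false, true, true, (nat_lit 229), (nat_lit 0), (nat_lit 2237), [(nat_lit 1477224), (nat_lit 1474999), (nat_lit 1521847), (nat_lit 1524073), (nat_lit 1634011), (nat_lit 1612493), (nat_lit 1679562), (nat_lit 1662495)]⟩, (nat_lit 5321173), (nat_lit 37973661), (nat_lit 14831603), (nat_lit 14194736), (nat_lit 5), (nat_lit 0), [⟨(nat_lit 0), (nat_lit 95), (nat_lit 31), (nat_lit 100), (nat_lit 92419308)⟩], [⟨(nat_lit 1), (nat_lit 95), (nat_lit 31), (nat_lit 100), (nat_lit 143401024)⟩],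 [⟨(nat_lit 0), (nat_lit 100), (nat_lit 95), (nat_lit 30), (nat_lit 48412276)⟩], [],
 ⟨⟨[(nat_lit 40), (nat_lit 60)], [(nat_lit 0), (nat_lit 1539)], [((nat_lit 0), (nat_lit 0), (nat_lit 0)), ((nat_lit 1000), (nat_lit 478), (nat_lit 704))], ((nat_lit 48), (nat_lit 100), (nat_lit 69))⟩, (nat_lit 0), (nat_lit 179), (nat_lit 179), (nat_lit 0), (nat_lit 442745), [(nat_lit 1576216005), (nat_lit 1372044000)], [(nat_lit 0), (nat_lit 0)], [(nat_lit 23125979969), (nat_lit 24383088171), (nat_lit 26433775543), (nat_lit 27484536318), (nat_lit 26664866405), (nat_lit 27923984429), (nat_lit 29417909149), (nat_lit 30436913166)], (nat_lit 1271251), (nat_lit 1271251), (nat_lit 1017188), (nat_lit 2118126), (nat_lit 1271251), (nat_lit 1271251), [(nat_lit 490000), (nat_lit 780000)], [(nat_lit 1), (nat_lit 38), (nat_lit 203), (nat_lit 0), (nat_lit 9)]⟩,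
 ⟨⟨[(nat_lit 80), (nat_lit 120), (nat_lit 160)], [(nat_lit 0), (nat_lit 0), (nat_lit 2132)], [((nat_lit 0), (nat_lit 0), (nat_lit 0)), ((nat_lit 0), (nat_lit 0), (nat_lit 0)), ((nat_lit 858), (nat_lit 1000), (nat_lit 713))], ((nat_lit 100), (nat_lit 91), (nat_lit 64))⟩, (nat_lit 564632), (nat_lit 716), (nat_lit 716), (nat_lit 0), (nat_lit 937661), [(nat_lit 1031360000), (nat_lit 1752960000), (nat_lit 2611840000)], [], [(nat_lit 9491808508), (nat_lit 9068063960), (nat_lit 9081199496), (nat_lit 9204638768), (nat_lit 11960999180), (nat_lit 10494006488), (nat_lit 8679632584), (nat_lit 8722262976)], (nat_lit 1271251), (nat_lit 1271251), (nat_lit 1271251), (nat_lit 1271251), (nat_lit 0), (nat_lit 2825001), [(nat_lit 1100000), (nat_lit 1785001), (nat_lit 1271251)], [(nat_lit 18), (nat_lit 59), (nat_lit 483), (nat_lit 250), (nat_lit 12)]⟩,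
 ⟨⟨[(nat_lit 120), (nat_lit 160), (nat_lit 180)], [(nat_lit 0), (nat_lit 533), (nat_lit 2066)], [((nat_lit 0), (nat_lit 0), (nat_lit 0)), ((nat_lit 960), (nat_lit 1000), (nat_lit 200)), ((nat_lit 615), (nat_lit 1000), (nat_lit 729))], ((nat_lit 100), (nat_lit 72), (nat_lit 63))⟩, (nat_lit 451902), (nat_lit 300), (nat_lit 691), (nat_lit 12815202), (nat_lit 720046), [(nat_lit 1537824000), (nat_lit 2291296000), (nat_lit 2713194000)], [], [(nat_lit 9905300838), (nat_lit 9746195313), (nat_lit 9801601272), (nat_lit 9699614044), (nat_lit 13270478060), (nat_lit 11147334620), (nat_lit 7741106630), (nat_lit 7541601426)], (nat_lit 1271251), (nat_lit 1271251), (nat_lit 1271251), (nat_lit 1271251), (nat_lit 0), (nat_lit 2825001), [(nat_lit 1695001), (nat_lit 1271251), (nat_lit 1271251)], [(nat_lit 28), (nat_lit 65), (nat_lit 483), (nat_lit 250), (nat_lit 11)]⟩⟩) (.trZ (nat_lit 0) (nat_lit 1) (nat_lit 3) (nat_lit 92) (nat_lit 44) (nat_lit 100) (nat_lit 190)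 (.leaf ⟨(nat_lit 22), (nat_lit 349), (nat_lit 0), (nat_lit 629), (nat_lit 0), (nat_lit 3977), (nat_lit 8432), (nat_lit 8965), (nat_lit 0), (nat_lit 0), (nat_lit 88000), [((nat_lit 400), [((nat_lit 43), (nat_lit 5), (nat_lit 22))])], ⟨(nat_lit 7), false, true, false, (nat_lit 265), (nat_lit 0), (nat_lit 2237), [(nat_lit 1572676), (nat_lit 1583333), (nat_lit 1616372), (nat_lit 1631480), (nat_lit 1705063), (nat_lit 1699935), (nat_lit 1748802), (nat_lit 1748125)]⟩, ⟨(nat_lit 5), false, true, true, (nat_lit 229), (nat_lit 0), (nat_lit 2237), [(nat_lit 1477224), (nat_lit 1474999), (nat_lit 1521847), (nat_lit 1524073), (nat_lit 1634011), (nat_lit 1612493), (nat_lit 1679562), (nat_lit 1662495)]⟩, (nat_lit 5448965), (nat_lit 36046506), (nat_lit 17295419), (nat_lit 13658075), (nat_lit 5), (nat_lit 0), [⟨(nat_lit 0), (nat_lit 88), (nat_lit 32), (nat_lit 100), (nat_lit 984623661)⟩], [], [], [],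
 ⟨⟨[(nat_lit 40), (nat_lit 60)], [(nat_lit 0), (nat_lit 1539)], [((nat_lit 0), (nat_lit 0), (nat_lit 0)), ((nat_lit 1000), (nat_lit 478), (nat_lit 704))], ((nat_lit 48), (nat_lit 100), (nat_lit 69))⟩, (nat_lit 925553), (nat_lit 187), (nat_lit 187), (nat_lit 0), (nat_lit 495645), [(nat_lit 1823484002), (nat_lit 2838752800)], [(nat_lit 0), (nat_lit 0)], [(nat_lit 24549069549), (nat_lit 25723774217), (nat_lit 26974664026), (nat_lit 27980991177), (nat_lit 27784132714), (nat_lit 28962410048), (nat_lit 29885039474), (nat_lit 30957821824)], (nat_lit 1271251), (nat_lit 1271251), (nat_lit 1271251), (nat_lit 1271251), (nat_lit 1271251), (nat_lit 1271251), [(nat_lit 490000), (nat_lit 780000)], [(nat_lit 1), (nat_lit 38), (nat_lit 203), (nat_lit 0), (nat_lit 9)]⟩,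
 ⟨⟨[(nat_lit 60), (nat_lit 100), (nat_lit 140)], [(nat_lit 0), (nat_lit 0), (nat_lit 2047)], [((nat_lit 0), (nat_lit 0), (nat_lit 0)), ((nat_lit 0), (nat_lit 0), (nat_lit 0)), ((nat_lit 1000), (nat_lit 993), (nat_lit 781))], ((nat_lit 95), (nat_lit 100), (nat_lit 65))⟩, (nat_lit 2991499), (nat_lit 565), (nat_lit 565), (nat_lit 0), (nat_lit 787394), [(nat_lit 3209796000), (nat_lit 6112500000), (nat_lit 9625476000)], [], [(nat_lit 27066892752), (nat_lit 28882350266), (nat_lit 29381607796), (nat_lit 31338232024), (nat_lit 36440741032), (nat_lit 34176234488), (nat_lit 34275047260), (nat_lit 35817548036)], (nat_lit 1271251), (nat_lit 1271251), (nat_lit 1271251), (nat_lit 1271251), (nat_lit 0), (nat_lit 2825001), [(nat_lit 780000), (nat_lit 1435001), (nat_lit 1271251)], [(nat_lit 11), (nat_lit 55), (nat_lit 401), (nat_lit 175), (nat_lit 11)]⟩,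
 ⟨⟨[(nat_lit 120), (nat_lit 160), (nat_lit 180)], [(nat_lit 0), (nat_lit 533), (nat_lit 2066)], [((nat_lit 0), (nat_lit 0), (nat_lit 0)), ((nat_lit 960), (nat_lit 1000), (nat_lit 200)), ((nat_lit 615), (nat_lit 1000), (nat_lit 729))], ((nat_lit 100), (nat_lit 72), (nat_lit 63))⟩, (nat_lit 1518611), (nat_lit 300), (nat_lit 748), (nat_lit 41765600), (nat_lit 813468), [(nat_lit 5011872000), (nat_lit 7467488000), (nat_lit 8842482000)], [], [(nat_lit 30661467178), (nat_lit 30255137102), (nat_lit 31661628846), (nat_lit 31216200812), (nat_lit 44944242700), (nat_lit 37078961320), (nat_lit 25839303247), (nat_lit 25791158452)], (nat_lit 1271251), (nat_lit 1271251), (nat_lit 1271251), (nat_lit 1271251), (nat_lit 0), (nat_lit 2825001), [(nat_lit 1695001), (nat_lit 1271251), (nat_lit 1271251)], [(nat_lit 28), (nat_lit 65), (nat_lit 483), (nat_lit 250), (nat_lit 11)]⟩⟩))))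
def l024 : List St := [⟨⟨(nat_lit 380), (nat_lit 400), (nat_lit 240), (nat_lit 320), (nat_lit 120), (nat_lit 220), (nat_lit 150), (nat_lit 380), (nat_lit 40), (nat_lit 310), (nat_lit 0), (nat_lit 400), (nat_lit 0), (nat_lit 44)⟩, (nat_lit 3), (nat_lit 0), (nat_lit 0), false, false, false⟩,
  ⟨⟨(nat_lit 380), (nat_lit 400), (nat_lit 240), (nat_lit 320), (nat_lit 120), (nat_lit 220), (nat_lit 150), (nat_lit 380), (nat_lit 40), (nat_lit 160), (nat_lit 0), (nat_lit 400), (nat_lit 0), (nat_lit 44)⟩, (nat_lit 3), (nat_lit 0), (nat_lit 1), false, false, false⟩,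
  ⟨⟨(nat_lit 380), (nat_lit 400), (nat_lit 240), (nat_lit 280), (nat_lit 120), (nat_lit 220), (nat_lit 150), (nat_lit 280), (nat_lit 160), (nat_lit 310), (nat_lit 0), (nat_lit 400), (nat_lit 0), (nat_lit 44)⟩, (nat_lit 3), (nat_lit 0), (nat_lit 1), false, false, false⟩,
  ⟨⟨(nat_lit 380), (nat_lit 400), (nat_lit 280), (nat_lit 320), (nat_lit 120), (nat_lit 220), (nat_lit 150), (nat_lit 280), (nat_lit 160), (nat_lit 310), (nat_lit 0), (nat_lit 400), (nat_lit 0), (nat_lit 44)⟩, (nat_lit 3), (nat_lit 0), (nat_lit 1), false, false, false⟩,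
  ⟨⟨(nat_lit 380), (nat_lit 400), (nat_lit 240), (nat_lit 320), (nat_lit 120), (nat_lit 220), (nat_lit 280), (nat_lit 380), (nat_lit 160), (nat_lit 310), (nat_lit 0), (nat_lit 400), (nat_lit 0), (nat_lit 44)⟩, (nat_lit 3), (nat_lit 0), (nat_lit 1), false, false, false⟩,
  ⟨⟨(nat_lit 380), (nat_lit 400), (nat_lit 240), (nat_lit 320), (nat_lit 120), (nat_lit 180), (nat_lit 150), (nat_lit 280), (nat_lit 40), (nat_lit 160), (nat_lit 0), (nat_lit 400), (nat_lit 0), (nat_lit 44)⟩, (nat_lit 0), (nat_lit 1), (nat_lit 3), false, false, false⟩,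
  ⟨⟨(nat_lit 380), (nat_lit 400), (nat_lit 240), (nat_lit 280), (nat_lit 120), (nat_lit 180), (nat_lit 150), (nat_lit 280), (nat_lit 160), (nat_lit 270), (nat_lit 0), (nat_lit 400), (nat_lit 0), (nat_lit 44)⟩, (nat_lit 0), (nat_lit 1), (nat_lit 3), false, false, false⟩,
  ⟨⟨(nat_lit 380), (nat_lit 400), (nat_lit 280), (nat_lit 320), (nat_lit 120), (nat_lit 180), (nat_lit 150), (nat_lit 280), (nat_lit 160), (nat_lit 270), (nat_lit 0), (nat_lit 400), (nat_lit 0), (nat_lit 44)⟩, (nat_lit 0), (nat_lit 1), (nat_lit 3), false, false, false⟩,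
  ⟨⟨(nat_lit 380), (nat_lit 400), (nat_lit 240), (nat_lit 320), (nat_lit 120), (nat_lit 180), (nat_lit 150), (nat_lit 280), (nat_lit 40), (nat_lit 160), (nat_lit 0), (nat_lit 400), (nat_lit 0), (nat_lit 44)⟩, (nat_lit 1), (nat_lit 1), (nat_lit 3), false, false, false⟩,
  ⟨⟨(nat_lit 380), (nat_lit 400), (nat_lit 240), (nat_lit 320), (nat_lit 120), (nat_lit 180), (nat_lit 150), (nat_lit 280), (nat_lit 160), (nat_lit 270), (nat_lit 0), (nat_lit 400), (nat_lit 0), (nat_lit 44)⟩, (nat_lit 1), (nat_lit 1), (nat_lit 3), false, false, false⟩,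
  ⟨⟨(nat_lit 380), (nat_lit 400), (nat_lit 240), (nat_lit 320), (nat_lit 120), (nat_lit 180), (nat_lit 280), (nat_lit 320), (nat_lit 40), (nat_lit 160), (nat_lit 0), (nat_lit 370), (nat_lit 0), (nat_lit 44)⟩, (nat_lit 0), (nat_lit 1), (nat_lit 3), false, false, false⟩,
  ⟨⟨(nat_lit 380), (nat_lit 400), (nat_lit 240), (nat_lit 280), (nat_lit 120), (nat_lit 180), (nat_lit 320), (nat_lit 380), (nat_lit 40), (nat_lit 160), (nat_lit 0), (nat_lit 340), (nat_lit 0), (nat_lit 44)⟩, (nat_lit 0), (nat_lit 1), (nat_lit 3), false, false, false⟩,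
  ⟨⟨(nat_lit 380), (nat_lit 400), (nat_lit 280), (nat_lit 300), (nat_lit 120), (nat_lit 160), (nat_lit 320), (nat_lit 370), (nat_lit 40), (nat_lit 160), (nat_lit 0), (nat_lit 340), (nat_lit 0), (nat_lit 44)⟩, (nat_lit 0), (nat_lit 1), (nat_lit 3), false, false, false⟩,
  ⟨⟨(nat_lit 380), (nat_lit 400), (nat_lit 280), (nat_lit 300), (nat_lit 160), (nat_lit 180), (nat_lit 320), (nat_lit 370), (nat_lit 40), (nat_lit 160), (nat_lit 0), (nat_lit 340), (nat_lit 0), (nat_lit 44)⟩, (nat_lit 0), (nat_lit 1), (nat_lit 3), false, false, false⟩,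
  ⟨⟨(nat_lit 380), (nat_lit 400), (nat_lit 300), (nat_lit 320), (nat_lit 120), (nat_lit 180), (nat_lit 320), (nat_lit 380), (nat_lit 40), (nat_lit 160), (nat_lit 0), (nat_lit 340), (nat_lit 0), (nat_lit 44)⟩, (nat_lit 0), (nat_lit 1), (nat_lit 3), false, false, false⟩,
  ⟨⟨(nat_lit 380), (nat_lit 400), (nat_lit 240), (nat_lit 320), (nat_lit 120), (nat_lit 180), (nat_lit 280), (nat_lit 320), (nat_lit 160), (nat_lit 200), (nat_lit 0), (nat_lit 400), (nat_lit 0), (nat_lit 44)⟩, (nat_lit 0), (nat_lit 1), (nat_lit 3), false, false, false⟩,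
  ⟨⟨(nat_lit 380), (nat_lit 400), (nat_lit 240), (nat_lit 280), (nat_lit 120), (nat_lit 160), (nat_lit 280), (nat_lit 320), (nat_lit 200), (nat_lit 250), (nat_lit 10), (nat_lit 390), (nat_lit 0), (nat_lit 44)⟩, (nat_lit 0), (nat_lit 1), (nat_lit 3), false, false, false⟩,
  ⟨⟨(nat_lit 380), (nat_lit 400), (nat_lit 280), (nat_lit 320), (nat_lit 120), (nat_lit 160), (nat_lit 280), (nat_lit 320), (nat_lit 200), (nat_lit 250), (nat_lit 10), (nat_lit 390), (nat_lit 0), (nat_lit 44)⟩, (nat_lit 0), (nat_lit 1), (nat_lit 3), false, false, false⟩,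
  ⟨⟨(nat_lit 380), (nat_lit 400), (nat_lit 240), (nat_lit 320), (nat_lit 160), (nat_lit 180), (nat_lit 280), (nat_lit 320), (nat_lit 200), (nat_lit 270), (nat_lit 10), (nat_lit 400), (nat_lit 0), (nat_lit 44)⟩, (nat_lit 0), (nat_lit 1), (nat_lit 3), false, false, false⟩,
  ⟨⟨(nat_lit 380), (nat_lit 400), (nat_lit 240), (nat_lit 280), (nat_lit 120), (nat_lit 180), (nat_lit 320), (nat_lit 360), (nat_lit 160), (nat_lit 200), (nat_lit 10), (nat_lit 360), (nat_lit 0), (nat_lit 44)⟩, (nat_lit 0), (nat_lit 1), (nat_lit 3), false, false, false⟩,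
  ⟨⟨(nat_lit 380), (nat_lit 400), (nat_lit 280), (nat_lit 320), (nat_lit 120), (nat_lit 180), (nat_lit 320), (nat_lit 360), (nat_lit 160), (nat_lit 200), (nat_lit 10), (nat_lit 360), (nat_lit 0), (nat_lit 44)⟩, (nat_lit 0), (nat_lit 1), (nat_lit 0), false, false, false⟩,
  ⟨⟨(nat_lit 380), (nat_lit 400), (nat_lit 280), (nat_lit 320), (nat_lit 120), (nat_lit 180), (nat_lit 320), (nat_lit 360), (nat_lit 160), (nat_lit 200), (nat_lit 10), (nat_lit 360), (nat_lit 0), (nat_lit 44)⟩, (nat_lit 0), (nat_lit 1), (nat_lit 1), false, false, false⟩,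
  ⟨⟨(nat_lit 380), (nat_lit 400), (nat_lit 240), (nat_lit 320), (nat_lit 120), (nat_lit 160), (nat_lit 320), (nat_lit 360), (nat_lit 200), (nat_lit 250), (nat_lit 40), (nat_lit 390), (nat_lit 0), (nat_lit 44)⟩, (nat_lit 0), (nat_lit 1), (nat_lit 0), false, false, false⟩,
  ⟨⟨(nat_lit 380), (nat_lit 400), (nat_lit 240), (nat_lit 280), (nat_lit 120), (nat_lit 160), (nat_lit 320), (nat_lit 360), (nat_lit 200), (nat_lit 250), (nat_lit 40), (nat_lit 390), (nat_lit 0), (nat_lit 44)⟩, (nat_lit 0), (nat_lit 1), (nat_lit 1), false, false, false⟩,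
  ⟨⟨(nat_lit 380), (nat_lit 400), (nat_lit 280), (nat_lit 300), (nat_lit 120), (nat_lit 160), (nat_lit 320), (nat_lit 360), (nat_lit 200), (nat_lit 250), (nat_lit 40), (nat_lit 120), (nat_lit 0), (nat_lit 44)⟩, (nat_lit 0), (nat_lit 1), (nat_lit 1), false, false, true⟩,
  ⟨⟨(nat_lit 380), (nat_lit 400), (nat_lit 280), (nat_lit 300), (nat_lit 120), (nat_lit 160), (nat_lit 320), (nat_lit 360), (nat_lit 200), (nat_lit 250), (nat_lit 120), (nat_lit 240), (nat_lit 0), (nat_lit 44)⟩, (nat_lit 0), (nat_lit 1), (nat_lit 1), false, false, false⟩,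
  ⟨⟨(nat_lit 380), (nat_lit 400), (nat_lit 280), (nat_lit 300), (nat_lit 120), (nat_lit 160), (nat_lit 320), (nat_lit 360), (nat_lit 200), (nat_lit 250), (nat_lit 240), (nat_lit 370), (nat_lit 0), (nat_lit 44)⟩, (nat_lit 0), (nat_lit 1), (nat_lit 1), false, false, false⟩,
  ⟨⟨(nat_lit 380), (nat_lit 400), (nat_lit 300), (nat_lit 320), (nat_lit 120), (nat_lit 160), (nat_lit 320), (nat_lit 360), (nat_lit 200), (nat_lit 250), (nat_lit 40), (nat_lit 370), (nat_lit 0), (nat_lit 44)⟩, (nat_lit 0), (nat_lit 1), (nat_lit 1), false, false, false⟩,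
  ⟨⟨(nat_lit 380), (nat_lit 400), (nat_lit 240), (nat_lit 320), (nat_lit 160), (nat_lit 180), (nat_lit 320), (nat_lit 360), (nat_lit 200), (nat_lit 270), (nat_lit 40), (nat_lit 400), (nat_lit 0), (nat_lit 44)⟩, (nat_lit 0), (nat_lit 1), (nat_lit 3), false, false, false⟩,
  ⟨⟨(nat_lit 380), (nat_lit 400), (nat_lit 280), (nat_lit 320), (nat_lit 120), (nat_lit 160), (nat_lit 360), (nat_lit 380), (nat_lit 160), (nat_lit 250), (nat_lit 50), (nat_lit 360), (nat_lit 0), (nat_lit 44)⟩, (nat_lit 0), (nat_lit 1), (nat_lit 0), false, false, false⟩,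
  ⟨⟨(nat_lit 380), (nat_lit 400), (nat_lit 280), (nat_lit 300), (nat_lit 120), (nat_lit 160), (nat_lit 360), (nat_lit 380), (nat_lit 160), (nat_lit 250), (nat_lit 50), (nat_lit 360), (nat_lit 0), (nat_lit 44)⟩, (nat_lit 0), (nat_lit 1), (nat_lit 1), false, false, false⟩,
  ⟨⟨(nat_lit 380), (nat_lit 400), (nat_lit 300), (nat_lit 320), (nat_lit 120), (nat_lit 160), (nat_lit 360), (nat_lit 380), (nat_lit 160), (nat_lit 250), (nat_lit 50), (nat_lit 360), (nat_lit 0), (nat_lit 44)⟩, (nat_lit 0), (nat_lit 1), (nat_lit 1), false, false, false⟩,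
  ⟨⟨(nat_lit 380), (nat_lit 400), (nat_lit 280), (nat_lit 320), (nat_lit 160), (nat_lit 180), (nat_lit 360), (nat_lit 380), (nat_lit 160), (nat_lit 270), (nat_lit 50), (nat_lit 370), (nat_lit 0), (nat_lit 44)⟩, (nat_lit 0), (nat_lit 1), (nat_lit 3), false, false, false⟩,
  ⟨⟨(nat_lit 380), (nat_lit 400), (nat_lit 240), (nat_lit 320), (nat_lit 120), (nat_lit 180), (nat_lit 280), (nat_lit 380), (nat_lit 40), (nat_lit 270), (nat_lit 0), (nat_lit 400), (nat_lit 0), (nat_lit 44)⟩, (nat_lit 1), (nat_lit 1), (nat_lit 3), false, false, false⟩,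
  ⟨⟨(nat_lit 380), (nat_lit 400), (nat_lit 240), (nat_lit 320), (nat_lit 180), (nat_lit 220), (nat_lit 150), (nat_lit 280), (nat_lit 90), (nat_lit 200), (nat_lit 0), (nat_lit 400), (nat_lit 0), (nat_lit 44)⟩, (nat_lit 0), (nat_lit 1), (nat_lit 3), false, false, false⟩,
  ⟨⟨(nat_lit 380), (nat_lit 400), (nat_lit 240), (nat_lit 280), (nat_lit 180), (nat_lit 220), (nat_lit 150), (nat_lit 280), (nat_lit 200), (nat_lit 310), (nat_lit 0), (nat_lit 400), (nat_lit 0), (nat_lit 44)⟩, (nat_lit 0), (nat_lit 1), (nat_lit 3), false, false, false⟩,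
  ⟨⟨(nat_lit 380), (nat_lit 400), (nat_lit 280), (nat_lit 320), (nat_lit 180), (nat_lit 220), (nat_lit 150), (nat_lit 280), (nat_lit 200), (nat_lit 310), (nat_lit 0), (nat_lit 400), (nat_lit 0), (nat_lit 44)⟩, (nat_lit 0), (nat_lit 1), (nat_lit 3), false, false, false⟩,
  ⟨⟨(nat_lit 380), (nat_lit 400), (nat_lit 240), (nat_lit 320), (nat_lit 180), (nat_lit 220), (nat_lit 150), (nat_lit 280), (nat_lit 90), (nat_lit 310), (nat_lit 0), (nat_lit 400), (nat_lit 0), (nat_lit 44)⟩, (nat_lit 1), (nat_lit 1), (nat_lit 3), false, false, false⟩]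
theorem t024 (h : EC env Ei) : ∀ τ ∈ l024, Dead τ :=
  List.forall_mem_cons.mpr ⟨chkT_sound0 h (T := c14_0) (by decide +kernel),
  List.forall_mem_cons.mpr ⟨chkT_sound0 h (T := c14_1) (by decide +kernel),
  List.forall_mem_cons.mpr ⟨chkT_sound0 h (T := c14_2) (by decide +kernel),
  List.forall_mem_cons.mpr ⟨chkT_sound0 h (T := c14_3) (by decide +kernel),
  List.forall_mem_cons.mpr ⟨chkT_sound0 h (T := c14_4) (by decide +kernel),
  List.forall_mem_cons.mpr ⟨chkT_sound0 h (T := c14_5) (by decide +kernel),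
  List.forall_mem_cons.mpr ⟨chkT_sound0 h (T := c14_6) (by decide +kernel),
  List.forall_mem_cons.mpr ⟨chkT_sound0 h (T := c14_7) (by decide +kernel),
  List.forall_mem_cons.mpr ⟨chkT_sound0 h (T := c14_8) (by decide +kernel),
  List.forall_mem_cons.mpr ⟨chkT_sound0 h (T := c14_9) (by decide +kernel),
  List.forall_mem_cons.mpr ⟨chkT_sound0 h (T := c14_10) (by decide +kernel),
  List.forall_mem_cons.mpr ⟨chkT_sound0 h (T := c14_11) (by decide +kernel),
  List.forall_mem_cons.mpr ⟨chkT_sound0 h (T := c14_12) (by decide +kernel),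
  List.forall_mem_cons.mpr ⟨chkT_sound0 h (T := c14_13) (by decide +kernel),
  List.forall_mem_cons.mpr ⟨chkT_sound0 h (T := c14_14) (by decide +kernel),
  List.forall_mem_cons.mpr ⟨chkT_sound0 h (T := c14_15) (by decide +kernel),
  List.forall_mem_cons.mpr ⟨chkT_sound0 h (T := c14_16) (by decide +kernel),
  List.forall_mem_cons.mpr ⟨chkT_sound0 h (T := c14_17) (by decide +kernel),
  List.forall_mem_cons.mpr ⟨chkT_sound0 h (T := c14_18) (by decide +kernel),
  List.forall_mem_cons.mpr ⟨chkT_sound0 h (T := c14_19) (by decide +kernel),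
  List.forall_mem_cons.mpr ⟨chkT_sound0 h (T := c14_20) (by decide +kernel),
  List.forall_mem_cons.mpr ⟨chkT_sound0 h (T := c14_21) (by decide +kernel),
  List.forall_mem_cons.mpr ⟨chkT_sound0 h (T := c14_22) (by decide +kernel),
  List.forall_mem_cons.mpr ⟨chkT_sound0 h (T := c14_23) (by decide +kernel),
  List.forall_mem_cons.mpr ⟨chkT_sound0 h (T := c14_24) (by decide +kernel),
  List.forall_mem_cons.mpr ⟨chkT_sound0 h (T := c14_25) (by decide +kernel),
  List.forall_mem_cons.mpr ⟨chkT_sound0 h (T := c14_26) (by decide +kernel),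
  List.forall_mem_cons.mpr ⟨chkT_sound0 h (T := c14_27) (by decide +kernel),
  List.forall_mem_cons.mpr ⟨chkT_sound0 h (T := c14_28) (by decide +kernel),
  List.forall_mem_cons.mpr ⟨chkT_sound0 h (T := c14_29) (by decide +kernel),
  List.forall_mem_cons.mpr ⟨chkT_sound0 h (T := c14_30) (by decide +kernel),
  List.forall_mem_cons.mpr ⟨chkT_sound0 h (T := c14_31) (by decide +kernel),
  List.forall_mem_cons.mpr ⟨chkT_sound0 h (T := c14_32) (by decide +kernel),
  List.forall_mem_cons.mpr ⟨chkT_sound0 h (T := c14_33) (by decide +kernel),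
  List.forall_mem_cons.mpr ⟨chkT_sound0 h (T := c14_34) (by decide +kernel),
  List.forall_mem_cons.mpr ⟨chkT_sound0 h (T := c14_35) (by decide +kernel),
  List.forall_mem_cons.mpr ⟨chkT_sound0 h (T := c14_36) (by decide +kernel),
  List.forall_mem_cons.mpr ⟨chkT_sound0 h (T := c14_37) (by decide +kernel),
  List.forall_mem_nil _⟩⟩⟩⟩⟩⟩⟩⟩⟩⟩⟩⟩⟩⟩⟩⟩⟩⟩⟩⟩⟩⟩⟩⟩⟩⟩⟩⟩⟩⟩⟩⟩⟩⟩⟩⟩⟩⟩
end TC
end Pool.Agent.Lib.MP_6947cd_al
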